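import Pool.Agent.MP_61a8e3_al.G4.KR
import Pool.Agent.MP_61a8e3_al.G4.KT0
import Pool.Agent.MP_61a8e3_al.G4.KT1

/-! Part K: labels, part 1. -/

set_option autoImplicit false
set_option maxRecDepth 100000
set_option linter.all false

namespace Pool.Agent.MP_61a8e3_al.G4.K

noncomputable def l5487 : Lb := (@Lb.r r323 (@Lb.d (nat_lit 130) (nat_lit 260) (nat_lit 33) (@Lb.g g8 (@Lb.g g10 (@Lb.r r583 (@Lb.r r2145 (@Lb.r r388 (@Lb.d (nat_lit 98) (nat_lit 21) (nat_lit 405) (@Lb.fm (nat_lit 3) t1584)))))))))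
noncomputable def l5488 : Lb := (@Lb.r r323 (@Lb.d (nat_lit 130) (nat_lit 256) (nat_lit 18) (@Lb.g g8 (@Lb.g g10 (@Lb.r r583 (@Lb.r r2145 (@Lb.r r388 (@Lb.d (nat_lit 98) (nat_lit 80) (nat_lit 388) (@Lb.fm (nat_lit 3) t216)))))))))
noncomputable def l5489 : Lb := (@Lb.r r323 (@Lb.d (nat_lit 130) (nat_lit 264) (nat_lit 34) (@Lb.g g8 (@Lb.g g10 (@Lb.r r583 (@Lb.r r2145 (@Lb.r r388 (@Lb.d (nat_lit 98) (nat_lit 154) (nat_lit 422) (@Lb.fm (nat_lit 3) t51)))))))))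
noncomputable def l5490 : Lb := (@Lb.d (nat_lit 2) (nat_lit 641) (nat_lit 162) (@Lb.g g8 (@Lb.g g5 (@Lb.g g10 (@Lb.g g11 (@Lb.r r387 (@Lb.r r24 (@Lb.d (nat_lit 10) (nat_lit 129) (nat_lit 137) (@Lb.fp (nat_lit 9) t2)))))))))
noncomputable def l5491 : Lb := (@Lb.d (nat_lit 0) (nat_lit 0) (nat_lit 73) (@Lb.g g10 (@Lb.g g11 (@Lb.r r2691 (@Lb.r r2658 (@Lb.d (nat_lit 0) (nat_lit 32) (nat_lit 424) (@Lb.fp (nat_lit 3) t71)))))))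
noncomputable def l5492 : Lb := (@Lb.d (nat_lit 2) (nat_lit 641) (nat_lit 162) (@Lb.g g8 (@Lb.g g5 (@Lb.g g10 (@Lb.g g11 (@Lb.r r387 (@Lb.r r24 (@Lb.d (nat_lit 10) (nat_lit 0) (nat_lit 137) (@Lb.fp (nat_lit 9) t2)))))))))
noncomputable def l5493 : Lb := (@Lb.d (nat_lit 41) (nat_lit 646) (nat_lit 38) (@Lb.r r21 (@Lb.r r104 (@Lb.r r386 (@Lb.g g11 (@Lb.g g6 (@Lb.g g5 (@Lb.d (nat_lit 0) (nat_lit 1) (nat_lit 129) (@Lb.t (@Lb.fm (nat_lit 9) t68))))))))))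
noncomputable def l5494 : Lb := (@Lb.r r1543 (@Lb.r r1304 (@Lb.r r101 (@Lb.r r2194 (@Lb.fp (nat_lit 1) t307)))))
noncomputable def l5495 : Lb := (@Lb.d (nat_lit 0) (nat_lit 514) (nat_lit 5) (@Lb.g g9 (@Lb.g g6 (@Lb.r r97 (@Lb.d (nat_lit 0) (nat_lit 9) (nat_lit 64) (@Lb.fm (nat_lit 3) t87))))))
noncomputable def l5496 : Lb := (@Lb.r r82 (@Lb.r r275 (@Lb.d (nat_lit 2) (nat_lit 1) (nat_lit 0) (@Lb.g g8 (@Lb.g g5 (@Lb.r r291 (@Lb.r r98 (@Lb.d (nat_lit 9) (nat_lit 130) (nat_lit 0) (@Lb.fp (nat_lit 3) t1585)))))))))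
noncomputable def l5497 : Lb := (@Lb.r r322 (@Lb.g g8 (@Lb.g g9 (@Lb.g g7 (@Lb.r r1670 (@Lb.r r2376 (@Lb.r r1559 (@Lb.r r289 (@Lb.t (@Lb.p (nat_lit 2) (@Lb.fp (nat_lit 9) t51)))))))))))
noncomputable def l5498 : Lb := (@Lb.r r323 (@Lb.d (nat_lit 33) (nat_lit 514) (nat_lit 2) (@Lb.g g8 (@Lb.g g9 (@Lb.g g10 (@Lb.r r2666 (@Lb.r r2391 (@Lb.r r1577 (@Lb.r r1556 (@Lb.d (nat_lit 390) (nat_lit 128) (nat_lit 256) (@Lb.t (@Lb.fp (nat_lit 9) t394))))))))))))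
noncomputable def l5499 : Lb := (@Lb.d (nat_lit 290) (nat_lit 133) (nat_lit 17) (@Lb.r r81 (@Lb.r r2214 (@Lb.r r1368 (@Lb.r r2471 (@Lb.g g7 (@Lb.g g5 (@Lb.d (nat_lit 0) (nat_lit 1) (nat_lit 64) (@Lb.fm (nat_lit 3) t1586)))))))))
noncomputable def l5500 : Lb := (@Lb.d (nat_lit 548) (nat_lit 4) (nat_lit 17) (@Lb.r r81 (@Lb.r r2214 (@Lb.r r1368 (@Lb.r r2343 (@Lb.g g7 (@Lb.g g5 (@Lb.d (nat_lit 0) (nat_lit 1) (nat_lit 128) (@Lb.fm (nat_lit 3) t1587)))))))))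
noncomputable def l5501 : Lb := (@Lb.d (nat_lit 2) (nat_lit 514) (nat_lit 129) (@Lb.g g8 (@Lb.g g9 (@Lb.g g10 (@Lb.g g11 (@Lb.r r1703 (@Lb.r r297 (@Lb.r r1412 (@Lb.r r1430 (@Lb.d (nat_lit 353) (nat_lit 64) (nat_lit 530) (@Lb.fm (nat_lit 9) t91)))))))))))
noncomputable def l5502 : Lb := (@Lb.d (nat_lit 262) (nat_lit 266) (nat_lit 16) (@Lb.r r154 (@Lb.r r660 (@Lb.r r1621 (@Lb.r r2727 (@Lb.g g7 (@Lb.g g6 (@Lb.g g5 (@Lb.d (nat_lit 0) (nat_lit 5) (nat_lit 65) (@Lb.t (@Lb.fp (nat_lit 9) t1384)))))))))))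
noncomputable def l5503 : Lb := (@Lb.d (nat_lit 257) (nat_lit 69) (nat_lit 34) (@Lb.r r2150 (@Lb.r r1432 (@Lb.r r2393 (@Lb.r r343 (@Lb.g g7 (@Lb.g g6 (@Lb.g g5 (@Lb.d (nat_lit 0) (nat_lit 38) (nat_lit 133) (@Lb.t (@Lb.fm (nat_lit 9) t1384)))))))))))
noncomputable def l5504 : Lb := (@Lb.r r323 (@Lb.d (nat_lit 36) (nat_lit 258) (nat_lit 2) (@Lb.g g8 (@Lb.g g9 (@Lb.g g10 (@Lb.r r2347 (@Lb.r r161 (@Lb.r r1190 (@Lb.r r2068 (@Lb.d (nat_lit 26) (nat_lit 137) (nat_lit 0) (@Lb.t (@Lb.fm (nat_lit 9) t1588))))))))))))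
noncomputable def l5505 : Lb := (@Lb.d (nat_lit 130) (nat_lit 1) (nat_lit 0) (@Lb.g g8 (@Lb.g g9 (@Lb.r r1367 (@Lb.r r2210 (@Lb.r r2193 (@Lb.r r584 (@Lb.d (nat_lit 98) (nat_lit 10) (nat_lit 153) (@Lb.fm (nat_lit 3) t51)))))))))
noncomputable def l5506 : Lb := (@Lb.d (nat_lit 8) (nat_lit 513) (nat_lit 0) (@Lb.g g9 (@Lb.r r88 (@Lb.r r1173 (@Lb.d (nat_lit 278) (nat_lit 74) (nat_lit 1) (@Lb.t (@Lb.fm (nat_lit 3) t1096)))))))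
noncomputable def l5507 : Lb := (@Lb.d (nat_lit 32) (nat_lit 0) (nat_lit 130) (@Lb.g g10 (@Lb.g g11 (@Lb.r r2695 (@Lb.r r1352 (@Lb.r r2390 (@Lb.r r289 (@Lb.d (nat_lit 665) (nat_lit 73) (nat_lit 362) (@Lb.fp (nat_lit 3) t242)))))))))
noncomputable def l5508 : Lb := (@Lb.d (nat_lit 41) (nat_lit 134) (nat_lit 166) (@Lb.r r21 (@Lb.r r104 (@Lb.r r386 (@Lb.g g11 (@Lb.g g6 (@Lb.g g5 (@Lb.d (nat_lit 0) (nat_lit 1) (nat_lit 129) (@Lb.t (@Lb.fm (nat_lit 9) t68))))))))))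
noncomputable def l5509 : Lb := (@Lb.d (nat_lit 41) (nat_lit 390) (nat_lit 38) (@Lb.r r21 (@Lb.r r104 (@Lb.r r386 (@Lb.g g11 (@Lb.g g6 (@Lb.g g5 (@Lb.d (nat_lit 0) (nat_lit 1) (nat_lit 6) (@Lb.t (@Lb.fm (nat_lit 9) t68))))))))))
noncomputable def l5510 : Lb := (@Lb.d (nat_lit 32) (nat_lit 256) (nat_lit 73) (@Lb.g g10 (@Lb.g g11 (@Lb.r r2695 (@Lb.r r1352 (@Lb.r r2390 (@Lb.r r289 (@Lb.d (nat_lit 665) (nat_lit 73) (nat_lit 362) (@Lb.fp (nat_lit 3) t242)))))))))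
noncomputable def l5511 : Lb := (@Lb.d (nat_lit 41) (nat_lit 646) (nat_lit 161) (@Lb.r r21 (@Lb.r r104 (@Lb.r r323 (@Lb.g g10 (@Lb.g g5 (@Lb.d (nat_lit 0) (nat_lit 1) (nat_lit 2) (@Lb.r r387 (@Lb.fm (nat_lit 3) t68)))))))))
noncomputable def l5512 : Lb := (@Lb.d (nat_lit 32) (nat_lit 512) (nat_lit 130) (@Lb.g g10 (@Lb.g g11 (@Lb.r r2695 (@Lb.r r1352 (@Lb.r r2390 (@Lb.r r289 (@Lb.d (nat_lit 666) (nat_lit 73) (nat_lit 362) (@Lb.fp (nat_lit 3) t242)))))))))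
noncomputable def l5513 : Lb := (@Lb.d (nat_lit 129) (nat_lit 513) (nat_lit 0) (@Lb.g g8 (@Lb.g g9 (@Lb.r r1367 (@Lb.r r2210 (@Lb.r r2193 (@Lb.r r584 (@Lb.d (nat_lit 98) (nat_lit 10) (nat_lit 84) (@Lb.fm (nat_lit 3) t51)))))))))
noncomputable def l5514 : Lb := (@Lb.d (nat_lit 146) (nat_lit 298) (nat_lit 168) (@Lb.r r402 (@Lb.r r85 (@Lb.r r323 (@Lb.g g7 (@Lb.g g6 (@Lb.g g5 (@Lb.g g4 (@Lb.d (nat_lit 1) (nat_lit 4) (nat_lit 65) (@Lb.fm (nat_lit 9) t670))))))))))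
noncomputable def l5515 : Lb := (@Lb.d (nat_lit 40) (nat_lit 514) (nat_lit 73) (@Lb.g g9 (@Lb.g g10 (@Lb.g g11 (@Lb.r r2695 (@Lb.r r1352 (@Lb.r r2390 (@Lb.r r409 (@Lb.d (nat_lit 136) (nat_lit 137) (nat_lit 329) (@Lb.t (@Lb.fm (nat_lit 9) t1097)))))))))))
noncomputable def l5516 : Lb := (@Lb.d (nat_lit 0) (nat_lit 650) (nat_lit 34) (@Lb.r r402 (@Lb.r r323 (@Lb.g g7 (@Lb.g g6 (@Lb.g g5 (@Lb.d (nat_lit 0) (nat_lit 0) (nat_lit 64) (@Lb.t (@Lb.fm (nat_lit 9) t422)))))))))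
noncomputable def l5517 : Lb := (@Lb.d (nat_lit 0) (nat_lit 133) (nat_lit 33) (@Lb.r r402 (@Lb.r r323 (@Lb.g g7 (@Lb.g g6 (@Lb.g g5 (@Lb.d (nat_lit 0) (nat_lit 0) (nat_lit 64) (@Lb.t (@Lb.fm (nat_lit 9) t69)))))))))
noncomputable def l5518 : Lb := (@Lb.d (nat_lit 128) (nat_lit 512) (nat_lit 128) (@Lb.g g11 (@Lb.r r2698 (@Lb.r r260 (@Lb.r r603 (@Lb.r r289 (@Lb.d (nat_lit 545) (nat_lit 73) (nat_lit 2) (@Lb.t (@Lb.fm (nat_lit 3) t51)))))))))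
noncomputable def l5519 : Lb := (@Lb.r r322 (@Lb.d (nat_lit 0) (nat_lit 258) (nat_lit 576) (@Lb.g g9 (@Lb.g g7 (@Lb.r r417 (@Lb.r r98 (@Lb.d (nat_lit 0) (nat_lit 90) (nat_lit 36) (@Lb.fm (nat_lit 3) t311))))))))
noncomputable def l5520 : Lb := (@Lb.d (nat_lit 0) (nat_lit 514) (nat_lit 130) (@Lb.g g9 (@Lb.g g10 (@Lb.g g11 (@Lb.r r2691 (@Lb.r r2209 (@Lb.r r2658 (@Lb.d (nat_lit 0) (nat_lit 80) (nat_lit 357) (@Lb.t (@Lb.fm (nat_lit 9) t311))))))))))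
noncomputable def l5521 : Lb := (@Lb.d (nat_lit 0) (nat_lit 2) (nat_lit 130) (@Lb.g g9 (@Lb.g g10 (@Lb.g g11 (@Lb.r r2691 (@Lb.r r2209 (@Lb.r r2658 (@Lb.d (nat_lit 0) (nat_lit 90) (nat_lit 356) (@Lb.t (@Lb.fm (nat_lit 9) t311))))))))))
noncomputable def l5522 : Lb := (@Lb.d (nat_lit 2) (nat_lit 4) (nat_lit 128) (@Lb.g g8 (@Lb.g g9 (@Lb.g g10 (@Lb.g g11 (@Lb.r r427 (@Lb.r r386 (@Lb.r r97 (@Lb.r r24 (@Lb.d (nat_lit 74) (nat_lit 168) (nat_lit 386) (@Lb.fm (nat_lit 9) t1589)))))))))))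
noncomputable def l5523 : Lb := (@Lb.d (nat_lit 8) (nat_lit 36) (nat_lit 128) (@Lb.g g9 (@Lb.g g10 (@Lb.g g11 (@Lb.r r387 (@Lb.r r2136 (@Lb.r r2438 (@Lb.r r593 (@Lb.d (nat_lit 337) (nat_lit 38) (nat_lit 649) (@Lb.t (@Lb.fm (nat_lit 9) t1567)))))))))))
noncomputable def l5524 : Lb := (@Lb.r r322 (@Lb.d (nat_lit 8) (nat_lit 256) (nat_lit 576) (@Lb.g g9 (@Lb.g g7 (@Lb.r r660 (@Lb.r r358 (@Lb.r r337 (@Lb.d (nat_lit 1) (nat_lit 166) (nat_lit 518) (@Lb.fp (nat_lit 3) t668)))))))))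
noncomputable def l5525 : Lb := (@Lb.d (nat_lit 0) (nat_lit 256) (nat_lit 10) (@Lb.g g10 (@Lb.g g7 (@Lb.r r402 (@Lb.d (nat_lit 0) (nat_lit 17) (nat_lit 10) (@Lb.fm (nat_lit 3) t44))))))
noncomputable def l5526 : Lb := (@Lb.d (nat_lit 2) (nat_lit 514) (nat_lit 2) (@Lb.g g8 (@Lb.g g9 (@Lb.g g10 (@Lb.g g11 (@Lb.r r1689 (@Lb.r r2579 (@Lb.r r386 (@Lb.d (nat_lit 528) (nat_lit 0) (nat_lit 86) (@Lb.fp (nat_lit 9) t791))))))))))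
noncomputable def l5527 : Lb := (@Lb.d (nat_lit 4) (nat_lit 0) (nat_lit 130) (@Lb.g g8 (@Lb.g g9 (@Lb.g g10 (@Lb.g g11 (@Lb.r r1691 (@Lb.r r1193 (@Lb.r r1450 (@Lb.r r1416 (@Lb.d (nat_lit 522) (nat_lit 9) (nat_lit 136) (@Lb.fp (nat_lit 9) t61)))))))))))
noncomputable def l5528 : Lb := (@Lb.d (nat_lit 1) (nat_lit 516) (nat_lit 128) (@Lb.g g8 (@Lb.g g9 (@Lb.g g10 (@Lb.g g11 (@Lb.r r427 (@Lb.r r386 (@Lb.r r97 (@Lb.r r24 (@Lb.d (nat_lit 69) (nat_lit 170) (nat_lit 386) (@Lb.fm (nat_lit 9) t1589)))))))))))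
noncomputable def l5529 : Lb := (@Lb.r r82 (@Lb.r r275 (@Lb.d (nat_lit 1) (nat_lit 320) (nat_lit 0) (@Lb.g g4 (@Lb.g g9 (@Lb.r r291 (@Lb.r r98 (@Lb.d (nat_lit 1) (nat_lit 2) (nat_lit 0) (@Lb.fp (nat_lit 3) t5)))))))))
noncomputable def l5530 : Lb := (@Lb.d (nat_lit 8) (nat_lit 258) (nat_lit 0) (@Lb.g g9 (@Lb.r r166 (@Lb.r r344 (@Lb.r r359 (@Lb.r r337 (@Lb.d (nat_lit 0) (nat_lit 24) (nat_lit 132) (@Lb.t (@Lb.fp (nat_lit 3) t51)))))))))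
noncomputable def l5531 : Lb := (@Lb.d (nat_lit 6) (nat_lit 145) (nat_lit 166) (@Lb.r r21 (@Lb.r r386 (@Lb.r r343 (@Lb.g g7 (@Lb.g g6 (@Lb.g g5 (@Lb.g g4 (@Lb.d (nat_lit 1) (nat_lit 1) (nat_lit 65) (@Lb.fm (nat_lit 9) t329))))))))))
noncomputable def l5532 : Lb := (@Lb.d (nat_lit 0) (nat_lit 258) (nat_lit 128) (@Lb.g g9 (@Lb.g g11 (@Lb.r r1371 (@Lb.r r1368 (@Lb.r r2214 (@Lb.r r145 (@Lb.d (nat_lit 528) (nat_lit 74) (nat_lit 34) (@Lb.fm (nat_lit 3) t1590)))))))))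
noncomputable def l5533 : Lb := (@Lb.d (nat_lit 0) (nat_lit 514) (nat_lit 130) (@Lb.g g9 (@Lb.g g10 (@Lb.g g11 (@Lb.r r1419 (@Lb.r r533 (@Lb.r r1444 (@Lb.r r1126 (@Lb.d (nat_lit 277) (nat_lit 9) (nat_lit 17) (@Lb.t (@Lb.fm (nat_lit 9) t219)))))))))))
noncomputable def l5534 : Lb := (@Lb.r r134 (@Lb.r r328 (@Lb.r r535 (@Lb.r r289 (@Lb.d (nat_lit 0) (nat_lit 256) (nat_lit 128) (@Lb.fp (nat_lit 1) t119))))))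
noncomputable def l5535 : Lb := (@Lb.d (nat_lit 2) (nat_lit 265) (nat_lit 130) (@Lb.g g8 (@Lb.g g9 (@Lb.g g10 (@Lb.g g11 (@Lb.r r1451 (@Lb.r r1169 (@Lb.r r356 (@Lb.r r154 (@Lb.r r2180 (@Lb.d (nat_lit 521) (nat_lit 73) (nat_lit 153) (@Lb.fm (nat_lit 9) t1499))))))))))))
noncomputable def l5536 : Lb := (@Lb.d (nat_lit 8) (nat_lit 265) (nat_lit 0) (@Lb.g g9 (@Lb.d (nat_lit 272) (nat_lit 10) (nat_lit 34) (@Lb.t (@Lb.fp (nat_lit 3) t1591)))))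
noncomputable def l5537 : Lb := (@Lb.d (nat_lit 2) (nat_lit 256) (nat_lit 136) (@Lb.g g8 (@Lb.g g9 (@Lb.g g11 (@Lb.r r1162 (@Lb.r r1188 (@Lb.r r405 (@Lb.r r1635 (@Lb.d (nat_lit 2) (nat_lit 0) (nat_lit 533) (@Lb.t (@Lb.fm (nat_lit 9) t1592)))))))))))
noncomputable def l5538 : Lb := (@Lb.g g9 (@Lb.r r1158 (@Lb.r r2136 (@Lb.r r2341 (@Lb.r r2579 (@Lb.d (nat_lit 2) (nat_lit 256) (nat_lit 69) (@Lb.t (@Lb.fp (nat_lit 3) t1593))))))))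
noncomputable def l5539 : Lb := (@Lb.r r82 (@Lb.r r275 (@Lb.d (nat_lit 0) (nat_lit 513) (nat_lit 0) (@Lb.g g8 (@Lb.g g5 (@Lb.r r291 (@Lb.r r98 (@Lb.d (nat_lit 5) (nat_lit 0) (nat_lit 0) (@Lb.fp (nat_lit 3) t579)))))))))
noncomputable def l5540 : Lb := (@Lb.d (nat_lit 0) (nat_lit 641) (nat_lit 64) (@Lb.r r146 (@Lb.r r2149 (@Lb.r r1304 (@Lb.g g7 (@Lb.d (nat_lit 64) (nat_lit 0) (nat_lit 576) (@Lb.r r578 (@Lb.t (@Lb.fp (nat_lit 3) t482)))))))))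
noncomputable def l5541 : Lb := (@Lb.r r21 (@Lb.r r70 (@Lb.r r263 (@Lb.g g8 (@Lb.r r267 (@Lb.r r74 (@Lb.r r25 (@Lb.d (nat_lit 0) (nat_lit 256) (nat_lit 34) (@Lb.t (@Lb.fp (nat_lit 3) t239))))))))))
noncomputable def l5542 : Lb := (@Lb.d (nat_lit 2) (nat_lit 0) (nat_lit 136) (@Lb.g g8 (@Lb.g g9 (@Lb.g g11 (@Lb.r r1162 (@Lb.r r1188 (@Lb.r r405 (@Lb.r r1635 (@Lb.d (nat_lit 0) (nat_lit 0) (nat_lit 533) (@Lb.t (@Lb.fm (nat_lit 9) t1594)))))))))))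
noncomputable def l5543 : Lb := (@Lb.d (nat_lit 2) (nat_lit 512) (nat_lit 0) (@Lb.g g8 (@Lb.g g9 (@Lb.r r1162 (@Lb.r r1188 (@Lb.r r2341 (@Lb.r r2579 (@Lb.d (nat_lit 2) (nat_lit 0) (nat_lit 69) (@Lb.fp (nat_lit 3) t1593)))))))))
noncomputable def l5544 : Lb := (@Lb.d (nat_lit 0) (nat_lit 281) (nat_lit 5) (@Lb.g g9 (@Lb.g g10 (@Lb.g g11 (@Lb.r r1671 (@Lb.r r1685 (@Lb.r r2468 (@Lb.r r2150 (@Lb.d (nat_lit 529) (nat_lit 133) (nat_lit 0) (@Lb.t (@Lb.fp (nat_lit 9) t224)))))))))))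
noncomputable def l5545 : Lb := (@Lb.r r2579 (@Lb.r r72 (@Lb.r r598 (@Lb.r r289 (@Lb.r r2180 (@Lb.d (nat_lit 2) (nat_lit 256) (nat_lit 0) (@Lb.fm (nat_lit 1) t51)))))))
noncomputable def l5546 : Lb := (@Lb.r r1284 (@Lb.r r1297 (@Lb.d (nat_lit 0) (nat_lit 512) (nat_lit 68) (@Lb.g g10 (@Lb.g g11 (@Lb.r r1666 (@Lb.r r1667 (@Lb.d (nat_lit 546) (nat_lit 0) (nat_lit 598) (@Lb.fm (nat_lit 3) t1595)))))))))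
noncomputable def l5547 : Lb := (@Lb.d (nat_lit 70) (nat_lit 6) (nat_lit 133) (@Lb.r r293 (@Lb.r r340 (@Lb.r r427 (@Lb.r r406 (@Lb.g g7 (@Lb.g g5 (@Lb.g g4 (@Lb.d (nat_lit 33) (nat_lit 2) (nat_lit 128) (@Lb.t (@Lb.fp (nat_lit 9) t796)))))))))))
noncomputable def l5548 : Lb := (@Lb.d (nat_lit 614) (nat_lit 582) (nat_lit 81) (@Lb.r r2321 (@Lb.r r2659 (@Lb.r r601 (@Lb.r r2374 (@Lb.g g7 (@Lb.g g6 (@Lb.g g5 (@Lb.g g8 (@Lb.d (nat_lit 320) (nat_lit 1) (nat_lit 65) (@Lb.fp (nat_lit 9) t1596)))))))))))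
noncomputable def l5549 : Lb := (@Lb.d (nat_lit 512) (nat_lit 257) (nat_lit 0) (@Lb.r r24 (@Lb.r r2138 (@Lb.r r2331 (@Lb.g g5 (@Lb.d (nat_lit 4) (nat_lit 1) (nat_lit 0) (@Lb.t (@Lb.fp (nat_lit 3) t116))))))))
noncomputable def l5550 : Lb := (@Lb.d (nat_lit 512) (nat_lit 256) (nat_lit 256) (@Lb.r r24 (@Lb.r r101 (@Lb.r r402 (@Lb.g g11 (@Lb.g g6 (@Lb.d (nat_lit 0) (nat_lit 0) (nat_lit 128) (@Lb.fm (nat_lit 3) t204))))))))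
noncomputable def l5551 : Lb := (@Lb.d (nat_lit 513) (nat_lit 0) (nat_lit 384) (@Lb.r r24 (@Lb.r r101 (@Lb.r r402 (@Lb.g g11 (@Lb.g g6 (@Lb.fm (nat_lit 3) t393)))))))
noncomputable def l5552 : Lb := (@Lb.d (nat_lit 17) (nat_lit 512) (nat_lit 1) (@Lb.r r24 (@Lb.r r101 (@Lb.r r323 (@Lb.g g10 (@Lb.g g5 (@Lb.d (nat_lit 0) (nat_lit 5) (nat_lit 0) (@Lb.r r387 (@Lb.fp (nat_lit 3) t51)))))))))
noncomputable def l5553 : Lb := (@Lb.d (nat_lit 1) (nat_lit 2) (nat_lit 0) (@Lb.r r24 (@Lb.g g9 (@Lb.d (nat_lit 8) (nat_lit 2) (nat_lit 0) (@Lb.t (@Lb.fm (nat_lit 3) t2))))))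
noncomputable def l5554 : Lb := (@Lb.d (nat_lit 160) (nat_lit 514) (nat_lit 129) (@Lb.g g9 (@Lb.g g6 (@Lb.g g11 (@Lb.r r264 (@Lb.r r391 (@Lb.r r97 (@Lb.d (nat_lit 258) (nat_lit 22) (nat_lit 341) (@Lb.t (@Lb.fp (nat_lit 9) t1597))))))))))
noncomputable def l5555 : Lb := (@Lb.d (nat_lit 346) (nat_lit 618) (nat_lit 84) (@Lb.r r410 (@Lb.r r148 (@Lb.r r1365 (@Lb.r r2371 (@Lb.g g7 (@Lb.g g6 (@Lb.g g5 (@Lb.d (nat_lit 16) (nat_lit 0) (nat_lit 129) (@Lb.t (@Lb.fm (nat_lit 9) t1549)))))))))))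
noncomputable def l5556 : Lb := (@Lb.d (nat_lit 33) (nat_lit 514) (nat_lit 129) (@Lb.g g8 (@Lb.g g9 (@Lb.g g6 (@Lb.g g11 (@Lb.r r1643 (@Lb.r r97 (@Lb.r r1560 (@Lb.d (nat_lit 73) (nat_lit 105) (nat_lit 512) (@Lb.fp (nat_lit 9) t1598))))))))))
noncomputable def l5557 : Lb := (@Lb.d (nat_lit 32) (nat_lit 2) (nat_lit 129) (@Lb.g g8 (@Lb.g g9 (@Lb.g g6 (@Lb.g g11 (@Lb.r r1707 (@Lb.r r1625 (@Lb.r r1604 (@Lb.d (nat_lit 409) (nat_lit 66) (nat_lit 666) (@Lb.fp (nat_lit 9) t128))))))))))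
noncomputable def l5558 : Lb := (@Lb.d (nat_lit 257) (nat_lit 257) (nat_lit 16) (@Lb.r r24 (@Lb.r r2138 (@Lb.r r2651 (@Lb.g g5 (@Lb.d (nat_lit 4) (nat_lit 1) (nat_lit 0) (@Lb.t (@Lb.fm (nat_lit 3) t1221))))))))
noncomputable def l5559 : Lb := (@Lb.d (nat_lit 160) (nat_lit 258) (nat_lit 130) (@Lb.g g9 (@Lb.g g10 (@Lb.g g11 (@Lb.r r72 (@Lb.r r166 (@Lb.r r665 (@Lb.r r539 (@Lb.d (nat_lit 9) (nat_lit 66) (nat_lit 390) (@Lb.t (@Lb.fp (nat_lit 9) t210)))))))))))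
noncomputable def l5560 : Lb := (@Lb.d (nat_lit 265) (nat_lit 128) (nat_lit 0) (@Lb.r r1172 (@Lb.r r106 (@Lb.r r601 (@Lb.r r1559 (@Lb.g g8 (@Lb.r r74 (@Lb.r r25 (@Lb.t (@Lb.fm (nat_lit 3) t329))))))))))
noncomputable def l5561 : Lb := (@Lb.d (nat_lit 100) (nat_lit 550) (nat_lit 70) (@Lb.r r408 (@Lb.r r330 (@Lb.r r407 (@Lb.g g7 (@Lb.g g5 (@Lb.g g4 (@Lb.d (nat_lit 16) (nat_lit 1) (nat_lit 64) (@Lb.r r98 (@Lb.t (@Lb.fm (nat_lit 9) t98)))))))))))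
noncomputable def l5562 : Lb := (@Lb.d (nat_lit 2) (nat_lit 520) (nat_lit 130) (@Lb.g g8 (@Lb.g g9 (@Lb.g g10 (@Lb.g g11 (@Lb.r r387 (@Lb.r r153 (@Lb.r r402 (@Lb.d (nat_lit 97) (nat_lit 21) (nat_lit 84) (@Lb.fm (nat_lit 9) t150))))))))))
noncomputable def l5563 : Lb := (@Lb.d (nat_lit 2) (nat_lit 266) (nat_lit 130) (@Lb.g g8 (@Lb.g g5 (@Lb.g g10 (@Lb.g g11 (@Lb.r r387 (@Lb.r r24 (@Lb.d (nat_lit 9) (nat_lit 0) (nat_lit 137) (@Lb.fp (nat_lit 9) t321)))))))))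
noncomputable def l5564 : Lb := (@Lb.d (nat_lit 2) (nat_lit 6) (nat_lit 129) (@Lb.g g8 (@Lb.g g9 (@Lb.g g10 (@Lb.g g11 (@Lb.r r387 (@Lb.r r153 (@Lb.r r402 (@Lb.d (nat_lit 97) (nat_lit 21) (nat_lit 84) (@Lb.fm (nat_lit 9) t875))))))))))
noncomputable def l5565 : Lb := (@Lb.d (nat_lit 133) (nat_lit 69) (nat_lit 84) (@Lb.r r390 (@Lb.r r72 (@Lb.r r279 (@Lb.r r545 (@Lb.g g7 (@Lb.g g6 (@Lb.g g5 (@Lb.d (nat_lit 16) (nat_lit 0) (nat_lit 129) (@Lb.t (@Lb.fm (nat_lit 9) t69)))))))))))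
noncomputable def l5566 : Lb := (@Lb.d (nat_lit 145) (nat_lit 613) (nat_lit 601) (@Lb.r r580 (@Lb.r r2145 (@Lb.r r583 (@Lb.g g6 (@Lb.g g4 (@Lb.d (nat_lit 65) (nat_lit 4) (nat_lit 17) (@Lb.r r387 (@Lb.fm (nat_lit 3) t68)))))))))
noncomputable def l5567 : Lb := (@Lb.d (nat_lit 0) (nat_lit 329) (nat_lit 16) (@Lb.fp (nat_lit 1) t21))
noncomputable def l5568 : Lb := (@Lb.r r21 (@Lb.d (nat_lit 130) (nat_lit 0) (nat_lit 66) (@Lb.g g8 (@Lb.g g10 (@Lb.g g11 (@Lb.r r644 (@Lb.r r519 (@Lb.r r386 (@Lb.r r25 (@Lb.d (nat_lit 161) (nat_lit 5) (nat_lit 73) (@Lb.t (@Lb.fm (nat_lit 9) t1599))))))))))))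
noncomputable def l5569 : Lb := (@Lb.d (nat_lit 0) (nat_lit 512) (nat_lit 130) (@Lb.g g10 (@Lb.g g11 (@Lb.r r614 (@Lb.r r404 (@Lb.r r619 (@Lb.r r609 (@Lb.d (nat_lit 9) (nat_lit 146) (nat_lit 0) (@Lb.fm (nat_lit 3) t71)))))))))
noncomputable def l5570 : Lb := (@Lb.r r21 (@Lb.d (nat_lit 10) (nat_lit 8) (nat_lit 130) (@Lb.g g8 (@Lb.g g10 (@Lb.g g11 (@Lb.r r427 (@Lb.r r533 (@Lb.r r360 (@Lb.r r102 (@Lb.d (nat_lit 21) (nat_lit 144) (nat_lit 69) (@Lb.t (@Lb.fp (nat_lit 9) t119))))))))))))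
noncomputable def l5571 : Lb := (@Lb.d (nat_lit 0) (nat_lit 514) (nat_lit 130) (@Lb.g g8 (@Lb.g g9 (@Lb.g g10 (@Lb.g g11 (@Lb.r r610 (@Lb.r r404 (@Lb.r r619 (@Lb.r r97 (@Lb.r r516 (@Lb.d (nat_lit 9) (nat_lit 130) (nat_lit 130) (@Lb.fp (nat_lit 9) t44))))))))))))
noncomputable def l5572 : Lb := (@Lb.d (nat_lit 0) (nat_lit 512) (nat_lit 130) (@Lb.g g9 (@Lb.g g10 (@Lb.g g11 (@Lb.r r614 (@Lb.r r404 (@Lb.r r619 (@Lb.r r609 (@Lb.d (nat_lit 9) (nat_lit 146) (nat_lit 64) (@Lb.t (@Lb.fm (nat_lit 9) t71)))))))))))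
noncomputable def l5573 : Lb := (@Lb.d (nat_lit 8) (nat_lit 2) (nat_lit 1) (@Lb.g g9 (@Lb.g g10 (@Lb.r r610 (@Lb.r r24 (@Lb.r r101 (@Lb.d (nat_lit 85) (nat_lit 169) (nat_lit 66) (@Lb.fm (nat_lit 3) t240))))))))
noncomputable def l5574 : Lb := (@Lb.d (nat_lit 0) (nat_lit 2) (nat_lit 129) (@Lb.g g9 (@Lb.g g10 (@Lb.g g11 (@Lb.r r643 (@Lb.r r161 (@Lb.r r610 (@Lb.d (nat_lit 0) (nat_lit 16) (nat_lit 69) (@Lb.t (@Lb.fm (nat_lit 9) t311))))))))))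
noncomputable def l5575 : Lb := (@Lb.d (nat_lit 594) (nat_lit 5) (nat_lit 153) (@Lb.r r2068 (@Lb.r r89 (@Lb.r r20 (@Lb.r r1442 (@Lb.g g11 (@Lb.g g6 (@Lb.g g5 (@Lb.g g4 (@Lb.d (nat_lit 1) (nat_lit 6) (nat_lit 72) (@Lb.fp (nat_lit 9) t1231)))))))))))
noncomputable def l5576 : Lb := (@Lb.d (nat_lit 8) (nat_lit 258) (nat_lit 137) (@Lb.g g9 (@Lb.g g10 (@Lb.g g11 (@Lb.r r98 (@Lb.r r24 (@Lb.r r101 (@Lb.d (nat_lit 21) (nat_lit 137) (nat_lit 2) (@Lb.t (@Lb.fm (nat_lit 9) t240))))))))))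
noncomputable def l5577 : Lb := (@Lb.d (nat_lit 0) (nat_lit 2) (nat_lit 0) (@Lb.g g9 (@Lb.g g6 (@Lb.r r97 (@Lb.d (nat_lit 0) (nat_lit 9) (nat_lit 0) (@Lb.fm (nat_lit 3) t87))))))
noncomputable def l5578 : Lb := (@Lb.d (nat_lit 0) (nat_lit 256) (nat_lit 128) (@Lb.g g10 (@Lb.g g11 (@Lb.r r545 (@Lb.r r299 (@Lb.r r328 (@Lb.r r134 (@Lb.d (nat_lit 2) (nat_lit 136) (nat_lit 33) (@Lb.fp (nat_lit 3) t253)))))))))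
noncomputable def l5579 : Lb := (@Lb.d (nat_lit 2) (nat_lit 2) (nat_lit 130) (@Lb.g g8 (@Lb.g g9 (@Lb.g g10 (@Lb.g g11 (@Lb.r r2691 (@Lb.r r297 (@Lb.r r360 (@Lb.r r582 (@Lb.r r2180 (@Lb.d (nat_lit 642) (nat_lit 10) (nat_lit 265) (@Lb.fm (nat_lit 9) t242))))))))))))
noncomputable def l5580 : Lb := (@Lb.d (nat_lit 65) (nat_lit 256) (nat_lit 666) (@Lb.r r24 (@Lb.r r661 (@Lb.r r2402 (@Lb.g g11 (@Lb.g g6 (@Lb.g g5 (@Lb.d (nat_lit 0) (nat_lit 41) (nat_lit 389) (@Lb.t (@Lb.fp (nat_lit 9) t719))))))))))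
noncomputable def l5581 : Lb := (@Lb.d (nat_lit 384) (nat_lit 0) (nat_lit 596) (@Lb.r r24 (@Lb.r r1317 (@Lb.r r2466 (@Lb.r r2691 (@Lb.g g7 (@Lb.g g6 (@Lb.g g5 (@Lb.d (nat_lit 0) (nat_lit 0) (nat_lit 134) (@Lb.t (@Lb.fp (nat_lit 9) t719)))))))))))
noncomputable def l5582 : Lb := (@Lb.d (nat_lit 384) (nat_lit 256) (nat_lit 596) (@Lb.r r24 (@Lb.r r1317 (@Lb.r r2466 (@Lb.r r2691 (@Lb.g g7 (@Lb.g g6 (@Lb.g g5 (@Lb.d (nat_lit 0) (nat_lit 10) (nat_lit 133) (@Lb.t (@Lb.fp (nat_lit 9) t719)))))))))))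
noncomputable def l5583 : Lb := (@Lb.d (nat_lit 64) (nat_lit 514) (nat_lit 596) (@Lb.r r24 (@Lb.r r1178 (@Lb.r r2691 (@Lb.g g7 (@Lb.g g6 (@Lb.g g9 (@Lb.d (nat_lit 8) (nat_lit 2) (nat_lit 6) (@Lb.t (@Lb.fp (nat_lit 9) t650))))))))))
noncomputable def l5584 : Lb := (@Lb.g g10 (@Lb.g g7 (@Lb.r r402 (@Lb.r r101 (@Lb.r r24 (@Lb.d (nat_lit 256) (nat_lit 512) (nat_lit 576) (@Lb.fm (nat_lit 3) t145)))))))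
noncomputable def l5585 : Lb := (@Lb.d (nat_lit 272) (nat_lit 0) (nat_lit 104) (@Lb.r r24 (@Lb.r r1173 (@Lb.r r674 (@Lb.g g11 (@Lb.g g5 (@Lb.d (nat_lit 0) (nat_lit 34) (nat_lit 324) (@Lb.r r578 (@Lb.fp (nat_lit 3) t719)))))))))
noncomputable def l5586 : Lb := (@Lb.r r21 (@Lb.d (nat_lit 152) (nat_lit 256) (nat_lit 42) (@Lb.g g8 (@Lb.g g6 (@Lb.r r661 (@Lb.r r535 (@Lb.r r296 (@Lb.d (nat_lit 133) (nat_lit 34) (nat_lit 129) (@Lb.fp (nat_lit 3) t546)))))))))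
noncomputable def l5587 : Lb := (@Lb.r r21 (@Lb.d (nat_lit 152) (nat_lit 32) (nat_lit 320) (@Lb.g g8 (@Lb.g g10 (@Lb.g g11 (@Lb.r r1109 (@Lb.r r2474 (@Lb.r r296 (@Lb.d (nat_lit 134) (nat_lit 34) (nat_lit 82) (@Lb.t (@Lb.fm (nat_lit 9) t546)))))))))))
noncomputable def l5588 : Lb := (@Lb.d (nat_lit 40) (nat_lit 258) (nat_lit 73) (@Lb.g g9 (@Lb.g g10 (@Lb.g g11 (@Lb.r r2695 (@Lb.r r1352 (@Lb.r r2390 (@Lb.r r409 (@Lb.d (nat_lit 136) (nat_lit 130) (nat_lit 330) (@Lb.t (@Lb.fm (nat_lit 9) t1087)))))))))))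
noncomputable def l5589 : Lb := (@Lb.d (nat_lit 144) (nat_lit 0) (nat_lit 130) (@Lb.g g6 (@Lb.g g11 (@Lb.r r264 (@Lb.r r599 (@Lb.r r289 (@Lb.d (nat_lit 16) (nat_lit 8) (nat_lit 0) (@Lb.fm (nat_lit 3) t51))))))))
noncomputable def l5590 : Lb := (@Lb.d (nat_lit 36) (nat_lit 585) (nat_lit 81) (@Lb.r r289 (@Lb.r r1626 (@Lb.r r1384 (@Lb.g g7 (@Lb.g g6 (@Lb.d (nat_lit 16) (nat_lit 16) (nat_lit 640) (@Lb.fm (nat_lit 3) t731))))))))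
noncomputable def l5591 : Lb := (@Lb.g g4 (@Lb.r r289 (@Lb.r r535 (@Lb.r r328 (@Lb.r r134 (@Lb.d (nat_lit 0) (nat_lit 512) (nat_lit 69) (@Lb.t (@Lb.fm (nat_lit 3) t40))))))))
noncomputable def l5592 : Lb := (@Lb.d (nat_lit 8) (nat_lit 2) (nat_lit 0) (@Lb.g g9 (@Lb.d (nat_lit 2) (nat_lit 10) (nat_lit 2) (@Lb.t (@Lb.fp (nat_lit 3) t21)))))
noncomputable def l5593 : Lb := (@Lb.d (nat_lit 8) (nat_lit 514) (nat_lit 0) (@Lb.g g9 (@Lb.r r1319 (@Lb.r r1126 (@Lb.r r24 (@Lb.d (nat_lit 258) (nat_lit 9) (nat_lit 2) (@Lb.t (@Lb.fm (nat_lit 3) t1406))))))))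
noncomputable def l5594 : Lb := (@Lb.g g9 (@Lb.r r1379 (@Lb.r r89 (@Lb.r r1126 (@Lb.r r24 (@Lb.d (nat_lit 529) (nat_lit 10) (nat_lit 2) (@Lb.t (@Lb.fm (nat_lit 3) t862))))))))
noncomputable def l5595 : Lb := (@Lb.d (nat_lit 641) (nat_lit 41) (nat_lit 6) (@Lb.r r2567 (@Lb.r r1448 (@Lb.r r89 (@Lb.g g10 (@Lb.g g4 (@Lb.d (nat_lit 5) (nat_lit 0) (nat_lit 21) (@Lb.r r387 (@Lb.r r145 (@Lb.fp (nat_lit 3) t405))))))))))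
noncomputable def l5596 : Lb := (@Lb.d (nat_lit 33) (nat_lit 2) (nat_lit 16) (@Lb.r r24 (@Lb.r r2138 (@Lb.g g9 (@Lb.d (nat_lit 8) (nat_lit 2) (nat_lit 0) (@Lb.t (@Lb.fm (nat_lit 3) t267)))))))
noncomputable def l5597 : Lb := (@Lb.d (nat_lit 256) (nat_lit 256) (nat_lit 16) (@Lb.r r24 (@Lb.r r2138 (@Lb.r r149 (@Lb.g g9 (@Lb.t (@Lb.fm (nat_lit 3) t108)))))))
noncomputable def l5598 : Lb := (@Lb.d (nat_lit 8) (nat_lit 546) (nat_lit 0) (@Lb.g g9 (@Lb.r r283 (@Lb.r r134 (@Lb.r r276 (@Lb.r r617 (@Lb.d (nat_lit 102) (nat_lit 74) (nat_lit 18) (@Lb.t (@Lb.fp (nat_lit 3) t334)))))))))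
noncomputable def l5599 : Lb := (@Lb.g g10 (@Lb.r r579 (@Lb.r r402 (@Lb.r r101 (@Lb.r r24 (@Lb.d (nat_lit 0) (nat_lit 512) (nat_lit 128) (@Lb.t (@Lb.fp (nat_lit 3) t145))))))))
noncomputable def l5600 : Lb := (@Lb.d (nat_lit 0) (nat_lit 256) (nat_lit 66) (@Lb.g g10 (@Lb.g g11 (@Lb.r r2691 (@Lb.r r578 (@Lb.d (nat_lit 0) (nat_lit 88) (nat_lit 152) (@Lb.fp (nat_lit 3) t633)))))))
noncomputable def l5601 : Lb := (@Lb.r r82 (@Lb.d (nat_lit 2) (nat_lit 298) (nat_lit 64) (@Lb.g g8 (@Lb.g g9 (@Lb.g g11 (@Lb.r r355 (@Lb.r r1174 (@Lb.r r2133 (@Lb.d (nat_lit 358) (nat_lit 134) (nat_lit 280) (@Lb.t (@Lb.fp (nat_lit 9) t393)))))))))))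
noncomputable def l5602 : Lb := (@Lb.d (nat_lit 32) (nat_lit 512) (nat_lit 2) (@Lb.g g9 (@Lb.g g10 (@Lb.r r2599 (@Lb.r r2713 (@Lb.r r100 (@Lb.r r410 (@Lb.d (nat_lit 130) (nat_lit 26) (nat_lit 153) (@Lb.fm (nat_lit 3) t284)))))))))
noncomputable def l5603 : Lb := (@Lb.d (nat_lit 32) (nat_lit 512) (nat_lit 66) (@Lb.g g9 (@Lb.g g10 (@Lb.g g11 (@Lb.r r1411 (@Lb.r r2713 (@Lb.r r100 (@Lb.r r410 (@Lb.d (nat_lit 677) (nat_lit 149) (nat_lit 168) (@Lb.t (@Lb.fp (nat_lit 9) t1600)))))))))))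
noncomputable def l5604 : Lb := (@Lb.d (nat_lit 8) (nat_lit 34) (nat_lit 133) (@Lb.g g9 (@Lb.g g6 (@Lb.g g11 (@Lb.r r2627 (@Lb.r r1048 (@Lb.r r21 (@Lb.d (nat_lit 37) (nat_lit 2) (nat_lit 400) (@Lb.t (@Lb.fp (nat_lit 9) t1601))))))))))
noncomputable def l5605 : Lb := (@Lb.d (nat_lit 149) (nat_lit 338) (nat_lit 641) (@Lb.r r289 (@Lb.r r70 (@Lb.r r420 (@Lb.g g11 (@Lb.g g6 (@Lb.d (nat_lit 16) (nat_lit 0) (nat_lit 72) (@Lb.fm (nat_lit 3) t1380))))))))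
noncomputable def l5606 : Lb := (@Lb.d (nat_lit 0) (nat_lit 577) (nat_lit 640) (@Lb.r r297 (@Lb.r r420 (@Lb.r r422 (@Lb.g g11 (@Lb.g g5 (@Lb.r r98 (@Lb.fp (nat_lit 3) t523))))))))
noncomputable def l5607 : Lb := (@Lb.d (nat_lit 145) (nat_lit 326) (nat_lit 641) (@Lb.r r105 (@Lb.r r36 (@Lb.r r426 (@Lb.g g11 (@Lb.g g6 (@Lb.g g5 (@Lb.d (nat_lit 4) (nat_lit 1) (nat_lit 0) (@Lb.t (@Lb.fm (nat_lit 9) t523))))))))))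
noncomputable def l5608 : Lb := (@Lb.g g6 (@Lb.g g7 (@Lb.r r1427 (@Lb.r r402 (@Lb.d (nat_lit 0) (nat_lit 320) (nat_lit 32) (@Lb.fp (nat_lit 3) t640))))))
noncomputable def l5609 : Lb := (@Lb.d (nat_lit 162) (nat_lit 2) (nat_lit 0) (@Lb.g g8 (@Lb.g g9 (@Lb.r r598 (@Lb.r r425 (@Lb.r r599 (@Lb.r r404 (@Lb.d (nat_lit 102) (nat_lit 24) (nat_lit 74) (@Lb.fm (nat_lit 3) t2)))))))))
noncomputable def l5610 : Lb := (@Lb.r r21 (@Lb.d (nat_lit 24) (nat_lit 32) (nat_lit 130) (@Lb.g g8 (@Lb.g g6 (@Lb.g g11 (@Lb.r r149 (@Lb.r r360 (@Lb.r r391 (@Lb.d (nat_lit 98) (nat_lit 34) (nat_lit 72) (@Lb.t (@Lb.fm (nat_lit 9) t546)))))))))))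
noncomputable def l5611 : Lb := (@Lb.r r97 (@Lb.r r1106 (@Lb.r r145 (@Lb.fm (nat_lit 1) t246))))
noncomputable def l5612 : Lb := (@Lb.d (nat_lit 8) (nat_lit 514) (nat_lit 2) (@Lb.g g9 (@Lb.g g10 (@Lb.g g7 (@Lb.r r98 (@Lb.r r24 (@Lb.r r101 (@Lb.d (nat_lit 21) (nat_lit 137) (nat_lit 2) (@Lb.t (@Lb.fp (nat_lit 9) t240))))))))))
noncomputable def l5613 : Lb := (@Lb.r r21 (@Lb.r r323 (@Lb.d (nat_lit 10) (nat_lit 256) (nat_lit 0) (@Lb.g g8 (@Lb.g g10 (@Lb.r r2650 (@Lb.r r579 (@Lb.r r37 (@Lb.d (nat_lit 4) (nat_lit 8) (nat_lit 2) (@Lb.fm (nat_lit 3) t51))))))))))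
noncomputable def l5614 : Lb := (@Lb.d (nat_lit 8) (nat_lit 528) (nat_lit 133) (@Lb.r r21 (@Lb.r r579 (@Lb.r r342 (@Lb.g g7 (@Lb.g g6 (@Lb.g g5 (@Lb.g g4 (@Lb.d (nat_lit 6) (nat_lit 2) (nat_lit 133) (@Lb.fm (nat_lit 9) t40))))))))))
noncomputable def l5615 : Lb := (@Lb.r r21 (@Lb.d (nat_lit 10) (nat_lit 8) (nat_lit 130) (@Lb.g g8 (@Lb.g g10 (@Lb.g g11 (@Lb.r r353 (@Lb.r r1431 (@Lb.r r2632 (@Lb.r r390 (@Lb.d (nat_lit 98) (nat_lit 66) (nat_lit 609) (@Lb.t (@Lb.fp (nat_lit 9) t2))))))))))))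
noncomputable def l5616 : Lb := (@Lb.r r402 (@Lb.r r323 (@Lb.r r2626 (@Lb.d (nat_lit 0) (nat_lit 64) (nat_lit 64) (@Lb.fm (nat_lit 1) t591)))))
noncomputable def l5617 : Lb := (@Lb.d (nat_lit 0) (nat_lit 256) (nat_lit 10) (@Lb.g g10 (@Lb.d (nat_lit 0) (nat_lit 88) (nat_lit 649) (@Lb.t (@Lb.fp (nat_lit 3) t633)))))
noncomputable def l5618 : Lb := (@Lb.d (nat_lit 32) (nat_lit 0) (nat_lit 74) (@Lb.g g10 (@Lb.g g11 (@Lb.r r1384 (@Lb.r r2711 (@Lb.r r1377 (@Lb.r r2706 (@Lb.d (nat_lit 278) (nat_lit 168) (nat_lit 281) (@Lb.fm (nat_lit 3) t40)))))))))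
noncomputable def l5619 : Lb := (@Lb.r r263 (@Lb.d (nat_lit 4) (nat_lit 256) (nat_lit 2) (@Lb.g g8 (@Lb.g g9 (@Lb.g g10 (@Lb.r r683 (@Lb.r r1634 (@Lb.r r1553 (@Lb.r r2440 (@Lb.d (nat_lit 0) (nat_lit 105) (nat_lit 657) (@Lb.t (@Lb.fm (nat_lit 9) t47))))))))))))
noncomputable def l5620 : Lb := (@Lb.d (nat_lit 2) (nat_lit 258) (nat_lit 130) (@Lb.g g8 (@Lb.g g9 (@Lb.g g10 (@Lb.g g11 (@Lb.r r427 (@Lb.r r106 (@Lb.r r25 (@Lb.d (nat_lit 9) (nat_lit 168) (nat_lit 329) (@Lb.fp (nat_lit 9) t51))))))))))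
noncomputable def l5621 : Lb := (@Lb.d (nat_lit 0) (nat_lit 4) (nat_lit 1) (@Lb.g g6 (@Lb.d (nat_lit 0) (nat_lit 8) (nat_lit 2) (@Lb.t (@Lb.fm (nat_lit 3) t44)))))
noncomputable def l5622 : Lb := (@Lb.d (nat_lit 6) (nat_lit 512) (nat_lit 130) (@Lb.g g8 (@Lb.g g9 (@Lb.g g10 (@Lb.g g11 (@Lb.r r276 (@Lb.r r2587 (@Lb.r r1429 (@Lb.r r2390 (@Lb.r r1700 (@Lb.d (nat_lit 2) (nat_lit 66) (nat_lit 153) (@Lb.fm (nat_lit 9) t2))))))))))))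
noncomputable def l5623 : Lb := (@Lb.r r323 (@Lb.d (nat_lit 66) (nat_lit 265) (nat_lit 2) (@Lb.g g8 (@Lb.g g9 (@Lb.g g10 (@Lb.r r343 (@Lb.r r617 (@Lb.r r86 (@Lb.r r168 (@Lb.d (nat_lit 24) (nat_lit 134) (nat_lit 393) (@Lb.t (@Lb.fm (nat_lit 9) t842))))))))))))
noncomputable def l5624 : Lb := (@Lb.d (nat_lit 4) (nat_lit 290) (nat_lit 4) (@Lb.g g8 (@Lb.g g9 (@Lb.g g10 (@Lb.g g11 (@Lb.r r1706 (@Lb.r r676 (@Lb.r r551 (@Lb.r r533 (@Lb.r r1060 (@Lb.d (nat_lit 386) (nat_lit 2) (nat_lit 640) (@Lb.fp (nat_lit 9) t74))))))))))))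
noncomputable def l5625 : Lb := (@Lb.r r263 (@Lb.d (nat_lit 16) (nat_lit 258) (nat_lit 0) (@Lb.g g8 (@Lb.g g9 (@Lb.g g10 (@Lb.r r683 (@Lb.r r610 (@Lb.r r597 (@Lb.r r392 (@Lb.d (nat_lit 149) (nat_lit 18) (nat_lit 138) (@Lb.t (@Lb.fm (nat_lit 9) t128))))))))))))
noncomputable def l5626 : Lb := (@Lb.d (nat_lit 2) (nat_lit 514) (nat_lit 130) (@Lb.g g8 (@Lb.g g9 (@Lb.g g10 (@Lb.g g11 (@Lb.r r427 (@Lb.r r297 (@Lb.r r136 (@Lb.r r154 (@Lb.r r132 (@Lb.d (nat_lit 9) (nat_lit 26) (nat_lit 137) (@Lb.fm (nat_lit 9) t119))))))))))))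
noncomputable def l5627 : Lb := (@Lb.d (nat_lit 2) (nat_lit 258) (nat_lit 4) (@Lb.g g8 (@Lb.g g9 (@Lb.g g10 (@Lb.g g11 (@Lb.r r427 (@Lb.r r297 (@Lb.r r136 (@Lb.r r154 (@Lb.r r132 (@Lb.d (nat_lit 9) (nat_lit 26) (nat_lit 137) (@Lb.fm (nat_lit 9) t119))))))))))))
noncomputable def l5628 : Lb := (@Lb.d (nat_lit 5) (nat_lit 546) (nat_lit 132) (@Lb.g g4 (@Lb.g g9 (@Lb.g g10 (@Lb.g g11 (@Lb.r r679 (@Lb.r r610 (@Lb.r r529 (@Lb.d (nat_lit 104) (nat_lit 33) (nat_lit 130) (@Lb.fp (nat_lit 9) t50))))))))))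
noncomputable def l5629 : Lb := (@Lb.d (nat_lit 6) (nat_lit 290) (nat_lit 4) (@Lb.g g8 (@Lb.g g9 (@Lb.g g10 (@Lb.g g11 (@Lb.r r683 (@Lb.r r616 (@Lb.r r86 (@Lb.r r165 (@Lb.r r20 (@Lb.d (nat_lit 34) (nat_lit 2) (nat_lit 137) (@Lb.fm (nat_lit 9) t74))))))))))))
noncomputable def l5630 : Lb := (@Lb.d (nat_lit 4) (nat_lit 512) (nat_lit 0) (@Lb.g g8 (@Lb.g g9 (@Lb.g g10 (@Lb.r r515 (@Lb.r r618 (@Lb.r r25 (@Lb.d (nat_lit 9) (nat_lit 25) (nat_lit 66) (@Lb.t (@Lb.fp (nat_lit 9) t71))))))))))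
noncomputable def l5631 : Lb := (@Lb.d (nat_lit 0) (nat_lit 164) (nat_lit 6) (@Lb.g g9 (@Lb.g g6 (@Lb.d (nat_lit 0) (nat_lit 0) (nat_lit 325) (@Lb.fp (nat_lit 3) t1602)))))
noncomputable def l5632 : Lb := (@Lb.g g8 (@Lb.g g11 (@Lb.r r402 (@Lb.r r101 (@Lb.r r24 (@Lb.d (nat_lit 65) (nat_lit 512) (nat_lit 0) (@Lb.fp (nat_lit 3) t145)))))))
noncomputable def l5633 : Lb := (@Lb.d (nat_lit 5) (nat_lit 5) (nat_lit 64) (@Lb.g g8 (@Lb.g g9 (@Lb.g g10 (@Lb.g g7 (@Lb.r r386 (@Lb.r r2153 (@Lb.r r36 (@Lb.d (nat_lit 290) (nat_lit 0) (nat_lit 41) (@Lb.fm (nat_lit 9) t42))))))))))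
noncomputable def l5634 : Lb := (@Lb.d (nat_lit 0) (nat_lit 516) (nat_lit 6) (@Lb.g g6 (@Lb.d (nat_lit 0) (nat_lit 165) (nat_lit 326) (@Lb.t (@Lb.fm (nat_lit 3) t334)))))
noncomputable def l5635 : Lb := (@Lb.d (nat_lit 0) (nat_lit 676) (nat_lit 392) (@Lb.g g6 (@Lb.d (nat_lit 0) (nat_lit 0) (nat_lit 5) (@Lb.t (@Lb.fm (nat_lit 3) t334)))))
noncomputable def l5636 : Lb := (@Lb.r r21 (@Lb.d (nat_lit 144) (nat_lit 512) (nat_lit 133) (@Lb.g g8 (@Lb.g g10 (@Lb.g g11 (@Lb.r r651 (@Lb.r r357 (@Lb.r r154 (@Lb.r r516 (@Lb.d (nat_lit 129) (nat_lit 38) (nat_lit 137) (@Lb.t (@Lb.fp (nat_lit 9) t594))))))))))))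
noncomputable def l5637 : Lb := (@Lb.r r323 (@Lb.d (nat_lit 128) (nat_lit 512) (nat_lit 2) (@Lb.g g8 (@Lb.g g10 (@Lb.r r346 (@Lb.r r661 (@Lb.r r1431 (@Lb.r r2632 (@Lb.d (nat_lit 352) (nat_lit 129) (nat_lit 66) (@Lb.fp (nat_lit 3) t71))))))))))
noncomputable def l5638 : Lb := (@Lb.d (nat_lit 0) (nat_lit 517) (nat_lit 64) (@Lb.g g8 (@Lb.g g9 (@Lb.g g10 (@Lb.g g7 (@Lb.r r386 (@Lb.r r2145 (@Lb.d (nat_lit 2) (nat_lit 10) (nat_lit 41) (@Lb.fm (nat_lit 9) t267)))))))))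
noncomputable def l5639 : Lb := (@Lb.d (nat_lit 0) (nat_lit 5) (nat_lit 64) (@Lb.g g9 (@Lb.g g10 (@Lb.g g7 (@Lb.r r386 (@Lb.r r2145 (@Lb.r r36 (@Lb.d (nat_lit 5) (nat_lit 72) (nat_lit 41) (@Lb.t (@Lb.fp (nat_lit 9) t42))))))))))
noncomputable def l5640 : Lb := (@Lb.d (nat_lit 32) (nat_lit 512) (nat_lit 128) (@Lb.g g10 (@Lb.g g11 (@Lb.r r2711 (@Lb.r r1384 (@Lb.r r2198 (@Lb.r r289 (@Lb.d (nat_lit 617) (nat_lit 166) (nat_lit 410) (@Lb.fm (nat_lit 3) t51)))))))))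
noncomputable def l5641 : Lb := (@Lb.r r21 (@Lb.d (nat_lit 16) (nat_lit 512) (nat_lit 64) (@Lb.g g8 (@Lb.g g10 (@Lb.g g11 (@Lb.r r2385 (@Lb.r r683 (@Lb.r r2666 (@Lb.r r2596 (@Lb.d (nat_lit 34) (nat_lit 16) (nat_lit 161) (@Lb.t (@Lb.fp (nat_lit 9) t148))))))))))))
noncomputable def l5642 : Lb := (@Lb.r r21 (@Lb.d (nat_lit 8) (nat_lit 256) (nat_lit 130) (@Lb.g g8 (@Lb.g g10 (@Lb.g g11 (@Lb.r r667 (@Lb.r r2405 (@Lb.r r1178 (@Lb.r r1156 (@Lb.d (nat_lit 342) (nat_lit 1) (nat_lit 406) (@Lb.t (@Lb.fp (nat_lit 9) t284))))))))))))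
noncomputable def l5643 : Lb := (@Lb.d (nat_lit 0) (nat_lit 577) (nat_lit 640) (@Lb.r r68 (@Lb.r r289 (@Lb.r r106 (@Lb.r r584 (@Lb.g g11 (@Lb.t (@Lb.fp (nat_lit 3) t501))))))))
noncomputable def l5644 : Lb := (@Lb.r r21 (@Lb.d (nat_lit 8) (nat_lit 0) (nat_lit 130) (@Lb.g g8 (@Lb.g g10 (@Lb.g g11 (@Lb.r r667 (@Lb.r r2405 (@Lb.r r1178 (@Lb.r r1156 (@Lb.d (nat_lit 344) (nat_lit 2) (nat_lit 406) (@Lb.t (@Lb.fp (nat_lit 9) t284))))))))))))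
noncomputable def l5645 : Lb := (@Lb.d (nat_lit 4) (nat_lit 0) (nat_lit 2) (@Lb.g g8 (@Lb.g g9 (@Lb.g g10 (@Lb.r r2723 (@Lb.r r1634 (@Lb.r r1553 (@Lb.d (nat_lit 2) (nat_lit 100) (nat_lit 416) (@Lb.t (@Lb.fp (nat_lit 9) t324))))))))))
noncomputable def l5646 : Lb := (@Lb.d (nat_lit 641) (nat_lit 2) (nat_lit 66) (@Lb.g g8 (@Lb.g g9 (@Lb.g g10 (@Lb.g g11 (@Lb.r r1451 (@Lb.r r106 (@Lb.r r25 (@Lb.d (nat_lit 9) (nat_lit 9) (nat_lit 425) (@Lb.fp (nat_lit 9) t394))))))))))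
noncomputable def l5647 : Lb := (@Lb.d (nat_lit 614) (nat_lit 37) (nat_lit 84) (@Lb.r r404 (@Lb.r r363 (@Lb.r r273 (@Lb.g g7 (@Lb.g g10 (@Lb.g g5 (@Lb.g g4 (@Lb.d (nat_lit 25) (nat_lit 0) (nat_lit 66) (@Lb.fm (nat_lit 9) t414))))))))))
noncomputable def l5648 : Lb := (@Lb.r r21 (@Lb.r r323 (@Lb.d (nat_lit 5) (nat_lit 256) (nat_lit 0) (@Lb.g g8 (@Lb.g g10 (@Lb.r r427 (@Lb.r r106 (@Lb.r r25 (@Lb.d (nat_lit 9) (nat_lit 72) (nat_lit 2) (@Lb.fm (nat_lit 3) t51))))))))))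
noncomputable def l5649 : Lb := (@Lb.g g4 (@Lb.r r2311 (@Lb.d (nat_lit 257) (nat_lit 0) (nat_lit 64) (@Lb.t (@Lb.fm (nat_lit 3) t1165)))))
noncomputable def l5650 : Lb := (@Lb.d (nat_lit 85) (nat_lit 68) (nat_lit 358) (@Lb.r r2436 (@Lb.r r1307 (@Lb.r r2657 (@Lb.g g7 (@Lb.g g10 (@Lb.g g5 (@Lb.g g4 (@Lb.d (nat_lit 146) (nat_lit 17) (nat_lit 4) (@Lb.fp (nat_lit 9) t521))))))))))
noncomputable def l5651 : Lb := (@Lb.r r82 (@Lb.d (nat_lit 34) (nat_lit 258) (nat_lit 128) (@Lb.g g8 (@Lb.g g9 (@Lb.g g11 (@Lb.r r363 (@Lb.r r582 (@Lb.r r420 (@Lb.d (nat_lit 96) (nat_lit 33) (nat_lit 153) (@Lb.t (@Lb.fm (nat_lit 9) t1499)))))))))))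
noncomputable def l5652 : Lb := (@Lb.d (nat_lit 26) (nat_lit 264) (nat_lit 130) (@Lb.g g8 (@Lb.g g9 (@Lb.g g10 (@Lb.g g11 (@Lb.r r427 (@Lb.r r424 (@Lb.r r1130 (@Lb.r r1625 (@Lb.d (nat_lit 421) (nat_lit 136) (nat_lit 353) (@Lb.fm (nat_lit 9) t502)))))))))))
noncomputable def l5653 : Lb := (@Lb.g g5 (@Lb.d (nat_lit 6) (nat_lit 257) (nat_lit 0) (@Lb.t (@Lb.fm (nat_lit 3) t2))))
noncomputable def l5654 : Lb := (@Lb.d (nat_lit 8) (nat_lit 265) (nat_lit 0) (@Lb.g g9 (@Lb.d (nat_lit 538) (nat_lit 2) (nat_lit 16) (@Lb.t (@Lb.fp (nat_lit 3) t126)))))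
noncomputable def l5655 : Lb := (@Lb.d (nat_lit 2) (nat_lit 33) (nat_lit 132) (@Lb.g g8 (@Lb.g g9 (@Lb.g g10 (@Lb.g g11 (@Lb.r r427 (@Lb.r r420 (@Lb.r r102 (@Lb.r r132 (@Lb.d (nat_lit 34) (nat_lit 9) (nat_lit 152) (@Lb.fp (nat_lit 9) t41)))))))))))
noncomputable def l5656 : Lb := (@Lb.d (nat_lit 5) (nat_lit 273) (nat_lit 68) (@Lb.g g8 (@Lb.g g9 (@Lb.g g10 (@Lb.g g11 (@Lb.r r2627 (@Lb.r r578 (@Lb.r r105 (@Lb.r r36 (@Lb.d (nat_lit 34) (nat_lit 0) (nat_lit 677) (@Lb.fp (nat_lit 9) t41)))))))))))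
noncomputable def l5657 : Lb := (@Lb.d (nat_lit 0) (nat_lit 256) (nat_lit 130) (@Lb.g g8 (@Lb.g g9 (@Lb.g g10 (@Lb.g g11 (@Lb.r r2475 (@Lb.r r2193 (@Lb.r r356 (@Lb.r r154 (@Lb.r r132 (@Lb.d (nat_lit 296) (nat_lit 2) (nat_lit 169) (@Lb.fm (nat_lit 9) t221))))))))))))
noncomputable def l5658 : Lb := (@Lb.d (nat_lit 6) (nat_lit 656) (nat_lit 133) (@Lb.r r21 (@Lb.r r579 (@Lb.r r342 (@Lb.g g7 (@Lb.g g6 (@Lb.g g5 (@Lb.g g4 (@Lb.d (nat_lit 8) (nat_lit 0) (nat_lit 133) (@Lb.fm (nat_lit 9) t40))))))))))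
noncomputable def l5659 : Lb := (@Lb.d (nat_lit 6) (nat_lit 144) (nat_lit 133) (@Lb.r r21 (@Lb.r r579 (@Lb.r r342 (@Lb.g g7 (@Lb.g g6 (@Lb.g g5 (@Lb.g g4 (@Lb.d (nat_lit 2) (nat_lit 1) (nat_lit 133) (@Lb.fm (nat_lit 9) t167))))))))))
noncomputable def l5660 : Lb := (@Lb.d (nat_lit 2) (nat_lit 544) (nat_lit 90) (@Lb.g g8 (@Lb.g g10 (@Lb.g g11 (@Lb.r r353 (@Lb.r r407 (@Lb.r r2564 (@Lb.d (nat_lit 678) (nat_lit 70) (nat_lit 336) (@Lb.t (@Lb.fp (nat_lit 9) t322))))))))))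
noncomputable def l5661 : Lb := (@Lb.d (nat_lit 2) (nat_lit 512) (nat_lit 130) (@Lb.g g8 (@Lb.g g9 (@Lb.g g10 (@Lb.g g11 (@Lb.r r148 (@Lb.r r1126 (@Lb.r r1381 (@Lb.r r1691 (@Lb.r r1668 (@Lb.d (nat_lit 2) (nat_lit 66) (nat_lit 330) (@Lb.fp (nat_lit 9) t2))))))))))))
noncomputable def l5662 : Lb := (@Lb.r r2403 (@Lb.r r594 (@Lb.d (nat_lit 0) (nat_lit 64) (nat_lit 101) (@Lb.fp (nat_lit 1) t1603))))
noncomputable def l5663 : Lb := (@Lb.r r323 (@Lb.d (nat_lit 5) (nat_lit 512) (nat_lit 1) (@Lb.g g8 (@Lb.g g9 (@Lb.g g6 (@Lb.r r387 (@Lb.r r2153 (@Lb.r r36 (@Lb.d (nat_lit 290) (nat_lit 0) (nat_lit 34) (@Lb.t (@Lb.fm (nat_lit 9) t40)))))))))))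
noncomputable def l5664 : Lb := (@Lb.d (nat_lit 529) (nat_lit 512) (nat_lit 145) (@Lb.r r20 (@Lb.r r2153 (@Lb.r r323 (@Lb.g g10 (@Lb.g g5 (@Lb.g g4 (@Lb.d (nat_lit 10) (nat_lit 5) (nat_lit 0) (@Lb.r r387 (@Lb.t (@Lb.fp (nat_lit 9) t51)))))))))))
noncomputable def l5665 : Lb := (@Lb.d (nat_lit 9) (nat_lit 1) (nat_lit 72) (@Lb.g g8 (@Lb.g g9 (@Lb.g g11 (@Lb.r r1410 (@Lb.r r579 (@Lb.r r104 (@Lb.r r25 (@Lb.d (nat_lit 517) (nat_lit 8) (nat_lit 0) (@Lb.t (@Lb.fp (nat_lit 9) t40)))))))))))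
noncomputable def l5666 : Lb := (@Lb.r r323 (@Lb.d (nat_lit 4) (nat_lit 1) (nat_lit 2) (@Lb.g g9 (@Lb.g g10 (@Lb.r r102 (@Lb.r r404 (@Lb.r r1371 (@Lb.r r2705 (@Lb.d (nat_lit 10) (nat_lit 70) (nat_lit 661) (@Lb.fm (nat_lit 3) t71))))))))))
noncomputable def l5667 : Lb := (@Lb.r r323 (@Lb.d (nat_lit 137) (nat_lit 258) (nat_lit 2) (@Lb.g g8 (@Lb.g g9 (@Lb.g g10 (@Lb.r r1623 (@Lb.r r2146 (@Lb.r r2145 (@Lb.r r408 (@Lb.d (nat_lit 149) (nat_lit 164) (nat_lit 420) (@Lb.t (@Lb.fp (nat_lit 9) t51))))))))))))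
noncomputable def l5668 : Lb := (@Lb.r r323 (@Lb.d (nat_lit 138) (nat_lit 546) (nat_lit 10) (@Lb.g g8 (@Lb.g g9 (@Lb.g g10 (@Lb.r r1299 (@Lb.r r2657 (@Lb.r r1110 (@Lb.r r2200 (@Lb.d (nat_lit 598) (nat_lit 106) (nat_lit 18) (@Lb.t (@Lb.fm (nat_lit 9) t2))))))))))))
noncomputable def l5669 : Lb := (@Lb.g g5 (@Lb.r r2331 (@Lb.r r24 (@Lb.d (nat_lit 73) (nat_lit 512) (nat_lit 512) (@Lb.t (@Lb.fp (nat_lit 3) t1165))))))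
noncomputable def l5670 : Lb := (@Lb.g g5 (@Lb.r r20 (@Lb.r r2073 (@Lb.d (nat_lit 0) (nat_lit 128) (nat_lit 0) (@Lb.t (@Lb.fm (nat_lit 3) t2))))))
noncomputable def l5671 : Lb := (@Lb.d (nat_lit 10) (nat_lit 514) (nat_lit 130) (@Lb.g g8 (@Lb.g g9 (@Lb.g g10 (@Lb.g g11 (@Lb.r r164 (@Lb.r r1126 (@Lb.r r1381 (@Lb.r r1691 (@Lb.r r1668 (@Lb.d (nat_lit 2) (nat_lit 0) (nat_lit 18) (@Lb.fp (nat_lit 9) t2))))))))))))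
noncomputable def l5672 : Lb := (@Lb.d (nat_lit 2) (nat_lit 2) (nat_lit 130) (@Lb.g g8 (@Lb.g g9 (@Lb.g g10 (@Lb.g g11 (@Lb.r r2411 (@Lb.r r386 (@Lb.r r97 (@Lb.r r24 (@Lb.d (nat_lit 256) (nat_lit 0) (nat_lit 84) (@Lb.fm (nat_lit 9) t61)))))))))))
noncomputable def l5673 : Lb := (@Lb.d (nat_lit 529) (nat_lit 256) (nat_lit 22) (@Lb.r r20 (@Lb.r r2153 (@Lb.r r386 (@Lb.g g11 (@Lb.g g6 (@Lb.g g5 (@Lb.g g4 (@Lb.d (nat_lit 10) (nat_lit 0) (nat_lit 6) (@Lb.fm (nat_lit 9) t51))))))))))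
noncomputable def l5674 : Lb := (@Lb.r r323 (@Lb.d (nat_lit 2) (nat_lit 34) (nat_lit 2) (@Lb.g g8 (@Lb.g g9 (@Lb.g g10 (@Lb.r r275 (@Lb.r r74 (@Lb.r r616 (@Lb.r r537 (@Lb.d (nat_lit 69) (nat_lit 169) (nat_lit 642) (@Lb.t (@Lb.fp (nat_lit 9) t387))))))))))))
noncomputable def l5675 : Lb := (@Lb.d (nat_lit 2) (nat_lit 258) (nat_lit 130) (@Lb.g g8 (@Lb.g g9 (@Lb.g g10 (@Lb.g g11 (@Lb.r r586 (@Lb.r r600 (@Lb.r r293 (@Lb.r r539 (@Lb.r r516 (@Lb.d (nat_lit 2) (nat_lit 137) (nat_lit 585) (@Lb.fm (nat_lit 9) t1604))))))))))))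
noncomputable def l5676 : Lb := (@Lb.d (nat_lit 0) (nat_lit 514) (nat_lit 130) (@Lb.g g8 (@Lb.g g9 (@Lb.g g10 (@Lb.g g11 (@Lb.r r586 (@Lb.r r600 (@Lb.r r293 (@Lb.r r539 (@Lb.r r516 (@Lb.d (nat_lit 2) (nat_lit 137) (nat_lit 642) (@Lb.fm (nat_lit 9) t387))))))))))))
noncomputable def l5677 : Lb := (@Lb.r r21 (@Lb.d (nat_lit 2) (nat_lit 8) (nat_lit 130) (@Lb.g g8 (@Lb.g g10 (@Lb.g g11 (@Lb.r r353 (@Lb.r r407 (@Lb.r r584 (@Lb.r r390 (@Lb.d (nat_lit 98) (nat_lit 66) (nat_lit 8) (@Lb.t (@Lb.fp (nat_lit 9) t2))))))))))))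
noncomputable def l5678 : Lb := (@Lb.d (nat_lit 1) (nat_lit 512) (nat_lit 0) (@Lb.g g4 (@Lb.g g10 (@Lb.r r289 (@Lb.r r2579 (@Lb.r r72 (@Lb.r r582 (@Lb.r r2180 (@Lb.fm (nat_lit 3) t351)))))))))
noncomputable def l5679 : Lb := (@Lb.d (nat_lit 0) (nat_lit 514) (nat_lit 130) (@Lb.g g8 (@Lb.g g9 (@Lb.g g10 (@Lb.g g11 (@Lb.r r148 (@Lb.r r102 (@Lb.r r357 (@Lb.r r667 (@Lb.r r644 (@Lb.d (nat_lit 2) (nat_lit 66) (nat_lit 74) (@Lb.fp (nat_lit 9) t2))))))))))))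
noncomputable def l5680 : Lb := (@Lb.d (nat_lit 322) (nat_lit 148) (nat_lit 134) (@Lb.r r279 (@Lb.r r612 (@Lb.r r101 (@Lb.r r2730 (@Lb.g g7 (@Lb.g g6 (@Lb.g g4 (@Lb.d (nat_lit 6) (nat_lit 16) (nat_lit 64) (@Lb.t (@Lb.fp (nat_lit 9) t41)))))))))))
noncomputable def l5681 : Lb := (@Lb.d (nat_lit 554) (nat_lit 648) (nat_lit 2) (@Lb.r r289 (@Lb.r r2650 (@Lb.r r2408 (@Lb.r r2707 (@Lb.g g7 (@Lb.g g6 (@Lb.d (nat_lit 0) (nat_lit 0) (nat_lit 64) (@Lb.fp (nat_lit 3) t378)))))))))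
noncomputable def l5682 : Lb := (@Lb.d (nat_lit 2) (nat_lit 2) (nat_lit 130) (@Lb.g g8 (@Lb.g g9 (@Lb.g g10 (@Lb.g g11 (@Lb.r r586 (@Lb.r r600 (@Lb.r r293 (@Lb.r r539 (@Lb.r r516 (@Lb.d (nat_lit 2) (nat_lit 137) (nat_lit 642) (@Lb.fm (nat_lit 9) t387))))))))))))
noncomputable def l5683 : Lb := (@Lb.d (nat_lit 2) (nat_lit 4) (nat_lit 128) (@Lb.g g8 (@Lb.g g9 (@Lb.g g10 (@Lb.g g11 (@Lb.r r148 (@Lb.r r102 (@Lb.r r357 (@Lb.r r667 (@Lb.r r644 (@Lb.d (nat_lit 9) (nat_lit 2) (nat_lit 74) (@Lb.fp (nat_lit 9) t68))))))))))))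
noncomputable def l5684 : Lb := (@Lb.r r1092 (@Lb.r r289 (@Lb.r r362 (@Lb.r r72 (@Lb.r r2579 (@Lb.g g11 (@Lb.t (@Lb.p (nat_lit 1) (@Lb.fm (nat_lit 3) t731)))))))))
noncomputable def l5685 : Lb := (@Lb.r r289 (@Lb.r r2579 (@Lb.r r72 (@Lb.r r582 (@Lb.r r2180 (@Lb.d (nat_lit 0) (nat_lit 512) (nat_lit 69) (@Lb.fm (nat_lit 1) t351)))))))
noncomputable def l5686 : Lb := (@Lb.d (nat_lit 32) (nat_lit 264) (nat_lit 73) (@Lb.g g10 (@Lb.g g11 (@Lb.r r1384 (@Lb.r r2711 (@Lb.r r1377 (@Lb.r r2706 (@Lb.d (nat_lit 10) (nat_lit 169) (nat_lit 421) (@Lb.fm (nat_lit 3) t2)))))))))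
noncomputable def l5687 : Lb := (@Lb.d (nat_lit 0) (nat_lit 256) (nat_lit 161) (@Lb.g g6 (@Lb.g g11 (@Lb.r r579 (@Lb.d (nat_lit 0) (nat_lit 0) (nat_lit 16) (@Lb.fm (nat_lit 3) t2))))))
noncomputable def l5688 : Lb := (@Lb.r r154 (@Lb.r r664 (@Lb.r r539 (@Lb.r r289 (@Lb.r r36 (@Lb.d (nat_lit 0) (nat_lit 384) (nat_lit 650) (@Lb.fp (nat_lit 1) t51)))))))
noncomputable def l5689 : Lb := (@Lb.d (nat_lit 129) (nat_lit 512) (nat_lit 0) (@Lb.g g8 (@Lb.r r662 (@Lb.r r391 (@Lb.r r289 (@Lb.r r584 (@Lb.d (nat_lit 98) (nat_lit 128) (nat_lit 581) (@Lb.t (@Lb.fm (nat_lit 3) t51)))))))))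
noncomputable def l5690 : Lb := (@Lb.d (nat_lit 129) (nat_lit 256) (nat_lit 0) (@Lb.g g8 (@Lb.r r662 (@Lb.r r391 (@Lb.r r289 (@Lb.r r584 (@Lb.d (nat_lit 98) (nat_lit 133) (nat_lit 582) (@Lb.t (@Lb.fm (nat_lit 3) t51)))))))))
noncomputable def l5691 : Lb := (@Lb.d (nat_lit 32) (nat_lit 8) (nat_lit 130) (@Lb.g g10 (@Lb.g g11 (@Lb.r r1384 (@Lb.r r2711 (@Lb.r r1377 (@Lb.r r2706 (@Lb.d (nat_lit 10) (nat_lit 169) (nat_lit 421) (@Lb.fm (nat_lit 3) t2)))))))))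
noncomputable def l5692 : Lb := (@Lb.r r154 (@Lb.r r664 (@Lb.r r539 (@Lb.r r289 (@Lb.r r36 (@Lb.d (nat_lit 0) (nat_lit 128) (nat_lit 512) (@Lb.fp (nat_lit 1) t51)))))))
noncomputable def l5693 : Lb := (@Lb.r r70 (@Lb.r r263 (@Lb.d (nat_lit 0) (nat_lit 322) (nat_lit 0) (@Lb.g g8 (@Lb.g g9 (@Lb.r r2347 (@Lb.r r2154 (@Lb.r r2084 (@Lb.d (nat_lit 2) (nat_lit 66) (nat_lit 0) (@Lb.fm (nat_lit 3) t1605))))))))))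
noncomputable def l5694 : Lb := (@Lb.d (nat_lit 513) (nat_lit 1) (nat_lit 0) (@Lb.r r24 (@Lb.r r2138 (@Lb.r r2331 (@Lb.g g5 (@Lb.d (nat_lit 4) (nat_lit 1) (nat_lit 0) (@Lb.t (@Lb.fp (nat_lit 3) t116))))))))
noncomputable def l5695 : Lb := (@Lb.d (nat_lit 8) (nat_lit 2) (nat_lit 130) (@Lb.g g9 (@Lb.g g10 (@Lb.g g11 (@Lb.r r614 (@Lb.r r404 (@Lb.r r619 (@Lb.r r609 (@Lb.d (nat_lit 2) (nat_lit 18) (nat_lit 138) (@Lb.t (@Lb.fm (nat_lit 9) t44)))))))))))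
noncomputable def l5696 : Lb := (@Lb.d (nat_lit 128) (nat_lit 513) (nat_lit 130) (@Lb.g g9 (@Lb.g g10 (@Lb.g g11 (@Lb.r r610 (@Lb.r r36 (@Lb.r r613 (@Lb.r r2663 (@Lb.d (nat_lit 388) (nat_lit 89) (nat_lit 594) (@Lb.t (@Lb.fm (nat_lit 9) t312)))))))))))
noncomputable def l5697 : Lb := (@Lb.d (nat_lit 0) (nat_lit 258) (nat_lit 130) (@Lb.g g8 (@Lb.g g9 (@Lb.g g10 (@Lb.g g11 (@Lb.r r610 (@Lb.r r404 (@Lb.r r619 (@Lb.r r97 (@Lb.r r516 (@Lb.d (nat_lit 2) (nat_lit 9) (nat_lit 1) (@Lb.fp (nat_lit 9) t44))))))))))))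
noncomputable def l5698 : Lb := (@Lb.d (nat_lit 129) (nat_lit 33) (nat_lit 132) (@Lb.g g8 (@Lb.g g9 (@Lb.g g10 (@Lb.g g11 (@Lb.r r419 (@Lb.r r1668 (@Lb.r r2470 (@Lb.r r2449 (@Lb.d (nat_lit 546) (nat_lit 132) (nat_lit 344) (@Lb.fm (nat_lit 9) t1328)))))))))))
noncomputable def l5699 : Lb := (@Lb.d (nat_lit 642) (nat_lit 273) (nat_lit 66) (@Lb.r r2567 (@Lb.r r1300 (@Lb.r r105 (@Lb.g g10 (@Lb.g g4 (@Lb.d (nat_lit 18) (nat_lit 8) (nat_lit 22) (@Lb.r r387 (@Lb.r r145 (@Lb.fp (nat_lit 3) t813))))))))))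
noncomputable def l5700 : Lb := (@Lb.r r323 (@Lb.d (nat_lit 33) (nat_lit 34) (nat_lit 2) (@Lb.g g8 (@Lb.g g9 (@Lb.g g10 (@Lb.r r595 (@Lb.r r2154 (@Lb.r r2660 (@Lb.r r101 (@Lb.d (nat_lit 146) (nat_lit 153) (nat_lit 514) (@Lb.t (@Lb.fm (nat_lit 9) t536))))))))))))
noncomputable def l5701 : Lb := (@Lb.r r21 (@Lb.r r323 (@Lb.d (nat_lit 41) (nat_lit 256) (nat_lit 2) (@Lb.g g8 (@Lb.g g10 (@Lb.r r1190 (@Lb.r r597 (@Lb.r r663 (@Lb.r r328 (@Lb.d (nat_lit 288) (nat_lit 0) (nat_lit 660) (@Lb.fp (nat_lit 3) t1606)))))))))))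
noncomputable def l5702 : Lb := (@Lb.d (nat_lit 34) (nat_lit 257) (nat_lit 100) (@Lb.r r70 (@Lb.r r392 (@Lb.r r599 (@Lb.g g6 (@Lb.g g5 (@Lb.g g4 (@Lb.d (nat_lit 1) (nat_lit 22) (nat_lit 2) (@Lb.r r387 (@Lb.t (@Lb.fp (nat_lit 9) t594)))))))))))
noncomputable def l5703 : Lb := (@Lb.d (nat_lit 2) (nat_lit 258) (nat_lit 130) (@Lb.g g8 (@Lb.g g9 (@Lb.g g10 (@Lb.g g11 (@Lb.r r427 (@Lb.r r106 (@Lb.r r25 (@Lb.d (nat_lit 9) (nat_lit 4) (nat_lit 1) (@Lb.fp (nat_lit 9) t51))))))))))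
noncomputable def l5704 : Lb := (@Lb.d (nat_lit 2) (nat_lit 258) (nat_lit 64) (@Lb.g g8 (@Lb.g g9 (@Lb.g g10 (@Lb.g g11 (@Lb.r r1323 (@Lb.r r2626 (@Lb.r r25 (@Lb.d (nat_lit 9) (nat_lit 104) (nat_lit 642) (@Lb.fp (nat_lit 9) t51))))))))))
noncomputable def l5705 : Lb := (@Lb.r r21 (@Lb.d (nat_lit 16) (nat_lit 512) (nat_lit 128) (@Lb.g g8 (@Lb.g g10 (@Lb.g g11 (@Lb.r r603 (@Lb.r r2401 (@Lb.r r1170 (@Lb.r r1128 (@Lb.d (nat_lit 258) (nat_lit 73) (nat_lit 34) (@Lb.t (@Lb.fm (nat_lit 9) t68))))))))))))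
noncomputable def l5706 : Lb := (@Lb.d (nat_lit 0) (nat_lit 4) (nat_lit 6) (@Lb.g g6 (@Lb.d (nat_lit 0) (nat_lit 160) (nat_lit 325) (@Lb.t (@Lb.fm (nat_lit 3) t334)))))
noncomputable def l5707 : Lb := (@Lb.d (nat_lit 145) (nat_lit 514) (nat_lit 10) (@Lb.g g8 (@Lb.g g9 (@Lb.g g10 (@Lb.g g11 (@Lb.r r683 (@Lb.r r1602 (@Lb.r r617 (@Lb.r r612 (@Lb.d (nat_lit 153) (nat_lit 73) (nat_lit 21) (@Lb.fp (nat_lit 9) t98)))))))))))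
noncomputable def l5708 : Lb := (@Lb.r r21 (@Lb.d (nat_lit 17) (nat_lit 0) (nat_lit 74) (@Lb.g g4 (@Lb.g g10 (@Lb.g g11 (@Lb.r r1687 (@Lb.r r2401 (@Lb.r r1170 (@Lb.d (nat_lit 532) (nat_lit 72) (nat_lit 34) (@Lb.t (@Lb.fm (nat_lit 9) t68)))))))))))
noncomputable def l5709 : Lb := (@Lb.d (nat_lit 2) (nat_lit 10) (nat_lit 0) (@Lb.g g8 (@Lb.g g9 (@Lb.r r662 (@Lb.r r683 (@Lb.r r553 (@Lb.d (nat_lit 69) (nat_lit 160) (nat_lit 256) (@Lb.fp (nat_lit 3) t51))))))))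
noncomputable def l5710 : Lb := (@Lb.d (nat_lit 16) (nat_lit 512) (nat_lit 17) (@Lb.g g6 (@Lb.g g7 (@Lb.d (nat_lit 34) (nat_lit 0) (nat_lit 100) (@Lb.fm (nat_lit 3) t282)))))
noncomputable def l5711 : Lb := (@Lb.d (nat_lit 64) (nat_lit 0) (nat_lit 580) (@Lb.g g7 (@Lb.r r1098 (@Lb.d (nat_lit 17) (nat_lit 0) (nat_lit 102) (@Lb.t (@Lb.fm (nat_lit 3) t1025))))))
noncomputable def l5712 : Lb := (@Lb.d (nat_lit 152) (nat_lit 257) (nat_lit 10) (@Lb.g g8 (@Lb.g g9 (@Lb.g g10 (@Lb.g g11 (@Lb.r r683 (@Lb.r r1602 (@Lb.r r617 (@Lb.r r612 (@Lb.d (nat_lit 152) (nat_lit 73) (nat_lit 21) (@Lb.fp (nat_lit 9) t98)))))))))))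
noncomputable def l5713 : Lb := (@Lb.r r21 (@Lb.d (nat_lit 16) (nat_lit 512) (nat_lit 64) (@Lb.g g8 (@Lb.g g10 (@Lb.g g7 (@Lb.r r402 (@Lb.r r2153 (@Lb.r r2132 (@Lb.d (nat_lit 149) (nat_lit 84) (nat_lit 41) (@Lb.t (@Lb.fp (nat_lit 9) t42)))))))))))
noncomputable def l5714 : Lb := (@Lb.d (nat_lit 2) (nat_lit 514) (nat_lit 4) (@Lb.g g8 (@Lb.g g9 (@Lb.g g10 (@Lb.g g11 (@Lb.r r427 (@Lb.r r386 (@Lb.r r25 (@Lb.d (nat_lit 9) (nat_lit 130) (nat_lit 394) (@Lb.fm (nat_lit 9) t51))))))))))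
noncomputable def l5715 : Lb := (@Lb.d (nat_lit 2) (nat_lit 4) (nat_lit 64) (@Lb.g g8 (@Lb.g g9 (@Lb.g g10 (@Lb.g g7 (@Lb.r r386 (@Lb.r r2153 (@Lb.r r36 (@Lb.d (nat_lit 297) (nat_lit 2) (nat_lit 41) (@Lb.fm (nat_lit 9) t42))))))))))
noncomputable def l5716 : Lb := (@Lb.d (nat_lit 128) (nat_lit 512) (nat_lit 128) (@Lb.g g10 (@Lb.g g11 (@Lb.r r264 (@Lb.r r519 (@Lb.r r101 (@Lb.r r154 (@Lb.d (nat_lit 153) (nat_lit 64) (nat_lit 144) (@Lb.fm (nat_lit 3) t743)))))))))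
noncomputable def l5717 : Lb := (@Lb.d (nat_lit 128) (nat_lit 512) (nat_lit 128) (@Lb.g g7 (@Lb.r r648 (@Lb.r r395 (@Lb.r r1121 (@Lb.r r2194 (@Lb.d (nat_lit 613) (nat_lit 26) (nat_lit 618) (@Lb.t (@Lb.fp (nat_lit 3) t743)))))))))
noncomputable def l5718 : Lb := (@Lb.r r21 (@Lb.d (nat_lit 42) (nat_lit 0) (nat_lit 0) (@Lb.g g8 (@Lb.r r2651 (@Lb.r r421 (@Lb.r r102 (@Lb.r r2200 (@Lb.d (nat_lit 273) (nat_lit 150) (nat_lit 81) (@Lb.t (@Lb.fm (nat_lit 3) t51))))))))))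
noncomputable def l5719 : Lb := (@Lb.d (nat_lit 1) (nat_lit 260) (nat_lit 64) (@Lb.g g8 (@Lb.g g9 (@Lb.g g10 (@Lb.g g7 (@Lb.r r386 (@Lb.r r2153 (@Lb.r r36 (@Lb.d (nat_lit 297) (nat_lit 2) (nat_lit 41) (@Lb.fm (nat_lit 9) t42))))))))))
noncomputable def l5720 : Lb := (@Lb.d (nat_lit 2) (nat_lit 516) (nat_lit 64) (@Lb.g g8 (@Lb.g g9 (@Lb.g g10 (@Lb.g g7 (@Lb.r r386 (@Lb.r r2153 (@Lb.r r36 (@Lb.d (nat_lit 290) (nat_lit 0) (nat_lit 41) (@Lb.fm (nat_lit 9) t42))))))))))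
noncomputable def l5721 : Lb := (@Lb.d (nat_lit 0) (nat_lit 0) (nat_lit 32) (@Lb.r r1346 (@Lb.r r387 (@Lb.g g11 (@Lb.g g6 (@Lb.fp (nat_lit 3) t2))))))
noncomputable def l5722 : Lb := (@Lb.d (nat_lit 2) (nat_lit 256) (nat_lit 66) (@Lb.g g8 (@Lb.g g9 (@Lb.g g10 (@Lb.g g7 (@Lb.r r386 (@Lb.r r2145 (@Lb.r r24 (@Lb.d (nat_lit 10) (nat_lit 73) (nat_lit 41) (@Lb.fp (nat_lit 9) t40))))))))))
noncomputable def l5723 : Lb := (@Lb.r r323 (@Lb.d (nat_lit 2) (nat_lit 256) (nat_lit 1) (@Lb.g g8 (@Lb.g g9 (@Lb.g g6 (@Lb.r r387 (@Lb.r r2145 (@Lb.r r24 (@Lb.d (nat_lit 10) (nat_lit 73) (nat_lit 98) (@Lb.t (@Lb.fp (nat_lit 9) t40)))))))))))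
noncomputable def l5724 : Lb := (@Lb.r r323 (@Lb.d (nat_lit 130) (nat_lit 546) (nat_lit 2) (@Lb.g g8 (@Lb.g g9 (@Lb.g g10 (@Lb.r r263 (@Lb.r r584 (@Lb.r r598 (@Lb.r r409 (@Lb.d (nat_lit 21) (nat_lit 74) (nat_lit 90) (@Lb.t (@Lb.fp (nat_lit 9) t2))))))))))))
noncomputable def l5725 : Lb := (@Lb.d (nat_lit 2) (nat_lit 258) (nat_lit 0) (@Lb.g g8 (@Lb.g g9 (@Lb.g g10 (@Lb.r r25 (@Lb.d (nat_lit 9) (nat_lit 0) (nat_lit 0) (@Lb.t (@Lb.fm (nat_lit 9) t2))))))))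
noncomputable def l5726 : Lb := (@Lb.d (nat_lit 320) (nat_lit 0) (nat_lit 170) (@Lb.r r24 (@Lb.r r1317 (@Lb.r r323 (@Lb.g g10 (@Lb.g g5 (@Lb.d (nat_lit 0) (nat_lit 10) (nat_lit 21) (@Lb.r r387 (@Lb.fp (nat_lit 3) t51)))))))))
noncomputable def l5727 : Lb := (@Lb.d (nat_lit 320) (nat_lit 256) (nat_lit 32) (@Lb.r r24 (@Lb.r r1317 (@Lb.r r323 (@Lb.g g10 (@Lb.g g5 (@Lb.d (nat_lit 0) (nat_lit 0) (nat_lit 22) (@Lb.r r387 (@Lb.fp (nat_lit 3) t51)))))))))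
noncomputable def l5728 : Lb := (@Lb.d (nat_lit 2) (nat_lit 2) (nat_lit 74) (@Lb.g g8 (@Lb.g g9 (@Lb.g g10 (@Lb.g g11 (@Lb.r r387 (@Lb.r r2154 (@Lb.r r25 (@Lb.d (nat_lit 9) (nat_lit 20) (nat_lit 281) (@Lb.fp (nat_lit 9) t334))))))))))
noncomputable def l5729 : Lb := (@Lb.r r323 (@Lb.d (nat_lit 0) (nat_lit 0) (nat_lit 1) (@Lb.g g8 (@Lb.g g9 (@Lb.g g6 (@Lb.r r387 (@Lb.r r2145 (@Lb.d (nat_lit 2) (nat_lit 10) (nat_lit 98) (@Lb.t (@Lb.fm (nat_lit 9) t126))))))))))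
noncomputable def l5730 : Lb := (@Lb.r r323 (@Lb.d (nat_lit 0) (nat_lit 0) (nat_lit 1) (@Lb.g g9 (@Lb.g g6 (@Lb.r r387 (@Lb.r r2145 (@Lb.r r36 (@Lb.d (nat_lit 5) (nat_lit 72) (nat_lit 98) (@Lb.fm (nat_lit 3) t40)))))))))
noncomputable def l5731 : Lb := (@Lb.r r323 (@Lb.d (nat_lit 2) (nat_lit 0) (nat_lit 1) (@Lb.g g8 (@Lb.g g9 (@Lb.g g6 (@Lb.r r387 (@Lb.r r2145 (@Lb.r r24 (@Lb.d (nat_lit 8) (nat_lit 73) (nat_lit 98) (@Lb.t (@Lb.fp (nat_lit 9) t167)))))))))))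
noncomputable def l5732 : Lb := (@Lb.g g10 (@Lb.d (nat_lit 0) (nat_lit 512) (nat_lit 138) (@Lb.t (@Lb.fp (nat_lit 3) t2))))
noncomputable def l5733 : Lb := (@Lb.d (nat_lit 354) (nat_lit 4) (nat_lit 326) (@Lb.r r276 (@Lb.r r2601 (@Lb.r r427 (@Lb.r r324 (@Lb.g g7 (@Lb.g g10 (@Lb.g g5 (@Lb.g g4 (@Lb.d (nat_lit 148) (nat_lit 18) (nat_lit 132) (@Lb.fp (nat_lit 9) t521)))))))))))
noncomputable def l5734 : Lb := (@Lb.d (nat_lit 8) (nat_lit 258) (nat_lit 0) (@Lb.g g9 (@Lb.r r1319 (@Lb.r r1126 (@Lb.r r24 (@Lb.d (nat_lit 266) (nat_lit 1) (nat_lit 0) (@Lb.t (@Lb.fm (nat_lit 3) t284))))))))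
noncomputable def l5735 : Lb := (@Lb.d (nat_lit 2) (nat_lit 289) (nat_lit 0) (@Lb.g g8 (@Lb.g g9 (@Lb.r r535 (@Lb.r r328 (@Lb.r r134 (@Lb.d (nat_lit 0) (nat_lit 2) (nat_lit 144) (@Lb.fp (nat_lit 3) t40))))))))
noncomputable def l5736 : Lb := (@Lb.r r70 (@Lb.d (nat_lit 9) (nat_lit 329) (nat_lit 128) (@Lb.g g8 (@Lb.g g9 (@Lb.g g11 (@Lb.r r2411 (@Lb.r r1174 (@Lb.r r72 (@Lb.d (nat_lit 16) (nat_lit 2) (nat_lit 152) (@Lb.t (@Lb.fm (nat_lit 9) t546)))))))))))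
noncomputable def l5737 : Lb := (@Lb.d (nat_lit 10) (nat_lit 514) (nat_lit 130) (@Lb.g g8 (@Lb.g g9 (@Lb.g g10 (@Lb.g g11 (@Lb.r r164 (@Lb.r r1126 (@Lb.r r1381 (@Lb.r r1691 (@Lb.r r1668 (@Lb.d (nat_lit 2) (nat_lit 66) (nat_lit 18) (@Lb.fp (nat_lit 9) t2))))))))))))
noncomputable def l5738 : Lb := (@Lb.r r86 (@Lb.d (nat_lit 129) (nat_lit 33) (nat_lit 64) (@Lb.g g8 (@Lb.g g9 (@Lb.g g11 (@Lb.r r2723 (@Lb.r r1602 (@Lb.r r149 (@Lb.r r1060 (@Lb.d (nat_lit 554) (nat_lit 130) (nat_lit 100) (@Lb.t (@Lb.fp (nat_lit 9) t1246))))))))))))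
noncomputable def l5739 : Lb := (@Lb.r r323 (@Lb.d (nat_lit 10) (nat_lit 514) (nat_lit 1) (@Lb.g g8 (@Lb.g g9 (@Lb.g g6 (@Lb.r r387 (@Lb.r r149 (@Lb.r r2120 (@Lb.d (nat_lit 34) (nat_lit 0) (nat_lit 2) (@Lb.t (@Lb.fm (nat_lit 9) t40)))))))))))
noncomputable def l5740 : Lb := (@Lb.d (nat_lit 536) (nat_lit 514) (nat_lit 17) (@Lb.g g9 (@Lb.t (@Lb.fp (nat_lit 3) t1607))))
noncomputable def l5741 : Lb := (@Lb.r r70 (@Lb.r r263 (@Lb.d (nat_lit 42) (nat_lit 585) (nat_lit 0) (@Lb.g g8 (@Lb.g g9 (@Lb.r r2475 (@Lb.r r1606 (@Lb.r r408 (@Lb.d (nat_lit 153) (nat_lit 25) (nat_lit 16) (@Lb.fp (nat_lit 3) t580))))))))))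
noncomputable def l5742 : Lb := (@Lb.d (nat_lit 9) (nat_lit 2) (nat_lit 130) (@Lb.g g8 (@Lb.g g9 (@Lb.g g10 (@Lb.g g11 (@Lb.r r148 (@Lb.r r1126 (@Lb.r r1381 (@Lb.r r1691 (@Lb.r r1668 (@Lb.d (nat_lit 2) (nat_lit 0) (nat_lit 330) (@Lb.fp (nat_lit 9) t2))))))))))))
noncomputable def l5743 : Lb := (@Lb.d (nat_lit 9) (nat_lit 9) (nat_lit 65) (@Lb.g g8 (@Lb.g g9 (@Lb.g g10 (@Lb.g g11 (@Lb.r r2323 (@Lb.r r1681 (@Lb.r r356 (@Lb.r r154 (@Lb.r r132 (@Lb.d (nat_lit 650) (nat_lit 1) (nat_lit 586) (@Lb.fm (nat_lit 9) t1608))))))))))))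
noncomputable def l5744 : Lb := (@Lb.d (nat_lit 9) (nat_lit 514) (nat_lit 66) (@Lb.g g8 (@Lb.g g9 (@Lb.g g10 (@Lb.g g11 (@Lb.r r2323 (@Lb.r r1681 (@Lb.r r356 (@Lb.r r154 (@Lb.r r132 (@Lb.d (nat_lit 650) (nat_lit 1) (nat_lit 586) (@Lb.fm (nat_lit 9) t284))))))))))))
noncomputable def l5745 : Lb := (@Lb.d (nat_lit 133) (nat_lit 326) (nat_lit 614) (@Lb.r r532 (@Lb.r r2370 (@Lb.r r1683 (@Lb.r r2389 (@Lb.g g6 (@Lb.g g5 (@Lb.g g4 (@Lb.d (nat_lit 33) (nat_lit 1) (nat_lit 0) (@Lb.t (@Lb.fm (nat_lit 9) t378)))))))))))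
noncomputable def l5746 : Lb := (@Lb.d (nat_lit 9) (nat_lit 514) (nat_lit 130) (@Lb.g g8 (@Lb.g g9 (@Lb.g g10 (@Lb.g g11 (@Lb.r r2691 (@Lb.r r2345 (@Lb.r r360 (@Lb.r r582 (@Lb.r r2180 (@Lb.d (nat_lit 642) (nat_lit 10) (nat_lit 89) (@Lb.fm (nat_lit 9) t242))))))))))))
noncomputable def l5747 : Lb := (@Lb.r r323 (@Lb.d (nat_lit 10) (nat_lit 34) (nat_lit 18) (@Lb.g g8 (@Lb.g g9 (@Lb.g g10 (@Lb.r r1299 (@Lb.r r2657 (@Lb.r r1156 (@Lb.d (nat_lit 610) (nat_lit 85) (nat_lit 554) (@Lb.t (@Lb.fp (nat_lit 9) t1561)))))))))))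
noncomputable def l5748 : Lb := (@Lb.r r323 (@Lb.d (nat_lit 138) (nat_lit 0) (nat_lit 2) (@Lb.g g8 (@Lb.g g10 (@Lb.r r346 (@Lb.r r661 (@Lb.r r1431 (@Lb.r r2632 (@Lb.d (nat_lit 361) (nat_lit 70) (nat_lit 256) (@Lb.fp (nat_lit 3) t71))))))))))
noncomputable def l5749 : Lb := (@Lb.r r323 (@Lb.d (nat_lit 138) (nat_lit 512) (nat_lit 1) (@Lb.g g8 (@Lb.g g10 (@Lb.r r2394 (@Lb.r r661 (@Lb.r r1431 (@Lb.r r2632 (@Lb.d (nat_lit 361) (nat_lit 6) (nat_lit 256) (@Lb.fp (nat_lit 3) t71))))))))))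
noncomputable def l5750 : Lb := (@Lb.r r323 (@Lb.d (nat_lit 138) (nat_lit 512) (nat_lit 2) (@Lb.g g8 (@Lb.g g10 (@Lb.r r346 (@Lb.r r661 (@Lb.r r1431 (@Lb.r r2632 (@Lb.d (nat_lit 362) (nat_lit 70) (nat_lit 256) (@Lb.fp (nat_lit 3) t71))))))))))
noncomputable def l5751 : Lb := (@Lb.d (nat_lit 146) (nat_lit 2) (nat_lit 133) (@Lb.g g8 (@Lb.g g9 (@Lb.g g10 (@Lb.g g11 (@Lb.r r427 (@Lb.r r2154 (@Lb.r r409 (@Lb.r r388 (@Lb.d (nat_lit 98) (nat_lit 149) (nat_lit 337) (@Lb.fp (nat_lit 9) t898)))))))))))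
noncomputable def l5752 : Lb := (@Lb.r r323 (@Lb.d (nat_lit 137) (nat_lit 0) (nat_lit 2) (@Lb.g g8 (@Lb.g g10 (@Lb.r r346 (@Lb.r r661 (@Lb.r r1559 (@Lb.r r2312 (@Lb.d (nat_lit 393) (nat_lit 65) (nat_lit 642) (@Lb.fm (nat_lit 3) t295))))))))))
noncomputable def l5753 : Lb := (@Lb.d (nat_lit 642) (nat_lit 258) (nat_lit 66) (@Lb.g g8 (@Lb.g g9 (@Lb.g g10 (@Lb.g g11 (@Lb.r r419 (@Lb.r r106 (@Lb.r r25 (@Lb.d (nat_lit 361) (nat_lit 9) (nat_lit 137) (@Lb.fp (nat_lit 9) t394))))))))))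
noncomputable def l5754 : Lb := (@Lb.r r21 (@Lb.d (nat_lit 146) (nat_lit 0) (nat_lit 64) (@Lb.g g8 (@Lb.g g10 (@Lb.g g11 (@Lb.r r395 (@Lb.r r1602 (@Lb.r r404 (@Lb.r r25 (@Lb.d (nat_lit 10) (nat_lit 69) (nat_lit 73) (@Lb.t (@Lb.fm (nat_lit 9) t898))))))))))))
noncomputable def l5755 : Lb := (@Lb.r r20 (@Lb.d (nat_lit 0) (nat_lit 37) (nat_lit 64) (@Lb.g g5 (@Lb.g g10 (@Lb.g g11 (@Lb.r r1174 (@Lb.r r2660 (@Lb.r r2343 (@Lb.d (nat_lit 585) (nat_lit 32) (nat_lit 320) (@Lb.t (@Lb.fm (nat_lit 9) t144)))))))))))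
noncomputable def l5756 : Lb := (@Lb.r r20 (@Lb.d (nat_lit 0) (nat_lit 549) (nat_lit 64) (@Lb.g g5 (@Lb.g g10 (@Lb.g g11 (@Lb.r r1174 (@Lb.r r2660 (@Lb.r r2343 (@Lb.d (nat_lit 586) (nat_lit 32) (nat_lit 320) (@Lb.t (@Lb.fm (nat_lit 9) t144)))))))))))
noncomputable def l5757 : Lb := (@Lb.d (nat_lit 146) (nat_lit 2) (nat_lit 64) (@Lb.g g8 (@Lb.g g9 (@Lb.g g10 (@Lb.g g11 (@Lb.r r427 (@Lb.r r1602 (@Lb.r r409 (@Lb.r r388 (@Lb.d (nat_lit 98) (nat_lit 104) (nat_lit 73) (@Lb.fp (nat_lit 9) t898)))))))))))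
noncomputable def l5758 : Lb := (@Lb.d (nat_lit 2) (nat_lit 258) (nat_lit 130) (@Lb.g g8 (@Lb.g g9 (@Lb.g g10 (@Lb.g g11 (@Lb.r r1706 (@Lb.r r676 (@Lb.r r551 (@Lb.r r1557 (@Lb.r r1060 (@Lb.d (nat_lit 646) (nat_lit 1) (nat_lit 330) (@Lb.fp (nat_lit 9) t284))))))))))))
noncomputable def l5759 : Lb := (@Lb.d (nat_lit 682) (nat_lit 385) (nat_lit 552) (@Lb.r r2650 (@Lb.r r1352 (@Lb.r r2711 (@Lb.r r361 (@Lb.g g7 (@Lb.g g6 (@Lb.d (nat_lit 16) (nat_lit 4) (nat_lit 65) (@Lb.fp (nat_lit 3) t1609)))))))))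
noncomputable def l5760 : Lb := (@Lb.d (nat_lit 2) (nat_lit 546) (nat_lit 2) (@Lb.g g8 (@Lb.g g9 (@Lb.g g10 (@Lb.r r1194 (@Lb.r r2468 (@Lb.r r1307 (@Lb.r r1573 (@Lb.d (nat_lit 384) (nat_lit 18) (nat_lit 586) (@Lb.t (@Lb.fm (nat_lit 9) t284)))))))))))
noncomputable def l5761 : Lb := (@Lb.d (nat_lit 6) (nat_lit 298) (nat_lit 73) (@Lb.r r21 (@Lb.r r682 (@Lb.r r599 (@Lb.g g7 (@Lb.g g6 (@Lb.g g5 (@Lb.g g4 (@Lb.d (nat_lit 1) (nat_lit 1) (nat_lit 10) (@Lb.fp (nat_lit 9) t40))))))))))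
noncomputable def l5762 : Lb := (@Lb.d (nat_lit 2) (nat_lit 2) (nat_lit 130) (@Lb.g g8 (@Lb.g g9 (@Lb.g g10 (@Lb.g g11 (@Lb.r r1706 (@Lb.r r676 (@Lb.r r551 (@Lb.r r1557 (@Lb.r r1060 (@Lb.d (nat_lit 648) (nat_lit 2) (nat_lit 330) (@Lb.fp (nat_lit 9) t284))))))))))))
noncomputable def l5763 : Lb := (@Lb.r r21 (@Lb.d (nat_lit 2) (nat_lit 256) (nat_lit 130) (@Lb.g g8 (@Lb.g g10 (@Lb.g g11 (@Lb.r r1691 (@Lb.r r1381 (@Lb.r r2202 (@Lb.r r2180 (@Lb.d (nat_lit 598) (nat_lit 1) (nat_lit 609) (@Lb.t (@Lb.fp (nat_lit 9) t284))))))))))))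
noncomputable def l5764 : Lb := (@Lb.d (nat_lit 2) (nat_lit 6) (nat_lit 64) (@Lb.g g8 (@Lb.g g9 (@Lb.g g10 (@Lb.g g11 (@Lb.r r1672 (@Lb.r r1435 (@Lb.r r346 (@Lb.r r549 (@Lb.d (nat_lit 128) (nat_lit 42) (nat_lit 673) (@Lb.fp (nat_lit 9) t148)))))))))))
noncomputable def l5765 : Lb := (@Lb.d (nat_lit 134) (nat_lit 337) (nat_lit 425) (@Lb.r r2587 (@Lb.r r596 (@Lb.r r1386 (@Lb.r r1377 (@Lb.g g7 (@Lb.g g6 (@Lb.g g4 (@Lb.d (nat_lit 21) (nat_lit 16) (nat_lit 66) (@Lb.t (@Lb.fp (nat_lit 9) t1607)))))))))))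
noncomputable def l5766 : Lb := (@Lb.r r322 (@Lb.d (nat_lit 2) (nat_lit 272) (nat_lit 648) (@Lb.g g8 (@Lb.g g9 (@Lb.g g7 (@Lb.r r2474 (@Lb.r r341 (@Lb.r r24 (@Lb.d (nat_lit 256) (nat_lit 41) (nat_lit 340) (@Lb.t (@Lb.fp (nat_lit 9) t1610)))))))))))
noncomputable def l5767 : Lb := (@Lb.d (nat_lit 6) (nat_lit 42) (nat_lit 73) (@Lb.r r21 (@Lb.r r682 (@Lb.r r599 (@Lb.g g7 (@Lb.g g6 (@Lb.g g5 (@Lb.g g4 (@Lb.d (nat_lit 2) (nat_lit 1) (nat_lit 10) (@Lb.fp (nat_lit 9) t167))))))))))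
noncomputable def l5768 : Lb := (@Lb.r r21 (@Lb.d (nat_lit 26) (nat_lit 0) (nat_lit 64) (@Lb.g g8 (@Lb.g g10 (@Lb.g g11 (@Lb.r r2385 (@Lb.r r1447 (@Lb.r r358 (@Lb.r r536 (@Lb.d (nat_lit 169) (nat_lit 34) (nat_lit 673) (@Lb.t (@Lb.fp (nat_lit 9) t148))))))))))))
noncomputable def l5769 : Lb := (@Lb.d (nat_lit 2) (nat_lit 514) (nat_lit 130) (@Lb.g g8 (@Lb.g g9 (@Lb.g g10 (@Lb.g g11 (@Lb.r r1706 (@Lb.r r676 (@Lb.r r551 (@Lb.r r1557 (@Lb.r r1060 (@Lb.d (nat_lit 648) (nat_lit 4) (nat_lit 328) (@Lb.fp (nat_lit 9) t1046))))))))))))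
noncomputable def l5770 : Lb := (@Lb.d (nat_lit 2) (nat_lit 516) (nat_lit 74) (@Lb.g g8 (@Lb.g g9 (@Lb.g g10 (@Lb.g g11 (@Lb.r r2691 (@Lb.r r2474 (@Lb.r r1313 (@Lb.r r24 (@Lb.d (nat_lit 136) (nat_lit 161) (nat_lit 424) (@Lb.fp (nat_lit 9) t378)))))))))))
noncomputable def l5771 : Lb := (@Lb.r r21 (@Lb.d (nat_lit 10) (nat_lit 0) (nat_lit 2) (@Lb.g g8 (@Lb.g g10 (@Lb.r r667 (@Lb.r r2405 (@Lb.r r1178 (@Lb.r r1156 (@Lb.d (nat_lit 340) (nat_lit 64) (nat_lit 337) (@Lb.fp (nat_lit 3) t284))))))))))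
noncomputable def l5772 : Lb := (@Lb.r r21 (@Lb.d (nat_lit 10) (nat_lit 40) (nat_lit 66) (@Lb.g g8 (@Lb.g g10 (@Lb.g g11 (@Lb.r r2337 (@Lb.r r2327 (@Lb.r r2632 (@Lb.r r390 (@Lb.d (nat_lit 358) (nat_lit 154) (nat_lit 150) (@Lb.t (@Lb.fp (nat_lit 9) t2))))))))))))
noncomputable def l5773 : Lb := (@Lb.d (nat_lit 32) (nat_lit 520) (nat_lit 74) (@Lb.g g10 (@Lb.g g11 (@Lb.r r661 (@Lb.r r2664 (@Lb.r r2411 (@Lb.r r2714 (@Lb.d (nat_lit 105) (nat_lit 162) (nat_lit 405) (@Lb.fm (nat_lit 3) t427)))))))))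
noncomputable def l5774 : Lb := (@Lb.d (nat_lit 128) (nat_lit 512) (nat_lit 64) (@Lb.g g11 (@Lb.r r361 (@Lb.r r292 (@Lb.r r539 (@Lb.r r134 (@Lb.d (nat_lit 581) (nat_lit 33) (nat_lit 160) (@Lb.t (@Lb.fm (nat_lit 3) t40)))))))))
noncomputable def l5775 : Lb := (@Lb.d (nat_lit 129) (nat_lit 34) (nat_lit 2) (@Lb.g g8 (@Lb.g g9 (@Lb.g g10 (@Lb.r r343 (@Lb.r r162 (@Lb.r r2712 (@Lb.r r165 (@Lb.d (nat_lit 32) (nat_lit 145) (nat_lit 425) (@Lb.t (@Lb.fp (nat_lit 9) t284)))))))))))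
noncomputable def l5776 : Lb := (@Lb.d (nat_lit 130) (nat_lit 290) (nat_lit 2) (@Lb.g g8 (@Lb.g g9 (@Lb.g g10 (@Lb.r r343 (@Lb.r r162 (@Lb.r r2712 (@Lb.r r165 (@Lb.d (nat_lit 32) (nat_lit 145) (nat_lit 290) (@Lb.t (@Lb.fp (nat_lit 9) t284)))))))))))
noncomputable def l5777 : Lb := (@Lb.r r21 (@Lb.r r70 (@Lb.d (nat_lit 656) (nat_lit 32) (nat_lit 128) (@Lb.g g4 (@Lb.g g11 (@Lb.r r345 (@Lb.r r1315 (@Lb.r r2182 (@Lb.d (nat_lit 1) (nat_lit 162) (nat_lit 418) (@Lb.fm (nat_lit 3) t68))))))))))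
noncomputable def l5778 : Lb := (@Lb.d (nat_lit 2) (nat_lit 514) (nat_lit 128) (@Lb.g g8 (@Lb.g g9 (@Lb.g g10 (@Lb.g g11 (@Lb.r r553 (@Lb.r r299 (@Lb.r r360 (@Lb.r r150 (@Lb.d (nat_lit 2) (nat_lit 4) (nat_lit 73) (@Lb.fm (nat_lit 9) t87)))))))))))
noncomputable def l5779 : Lb := (@Lb.d (nat_lit 534) (nat_lit 513) (nat_lit 17) (@Lb.r r20 (@Lb.r r2153 (@Lb.r r323 (@Lb.g g10 (@Lb.g g5 (@Lb.g g4 (@Lb.d (nat_lit 1) (nat_lit 1) (nat_lit 2) (@Lb.r r387 (@Lb.t (@Lb.fp (nat_lit 9) t51)))))))))))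
noncomputable def l5780 : Lb := (@Lb.d (nat_lit 0) (nat_lit 294) (nat_lit 97) (@Lb.r r134 (@Lb.r r344 (@Lb.r r519 (@Lb.g g5 (@Lb.g g4 (@Lb.d (nat_lit 66) (nat_lit 18) (nat_lit 0) (@Lb.fp (nat_lit 3) t594))))))))
noncomputable def l5781 : Lb := (@Lb.d (nat_lit 2) (nat_lit 2) (nat_lit 2) (@Lb.g g8 (@Lb.g g9 (@Lb.g g10 (@Lb.r r2666 (@Lb.r r579 (@Lb.r r25 (@Lb.d (nat_lit 9) (nat_lit 149) (nat_lit 321) (@Lb.t (@Lb.fp (nat_lit 9) t51))))))))))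
noncomputable def l5782 : Lb := (@Lb.d (nat_lit 6) (nat_lit 72) (nat_lit 580) (@Lb.r r21 (@Lb.r r682 (@Lb.r r343 (@Lb.g g7 (@Lb.g g6 (@Lb.g g5 (@Lb.g g4 (@Lb.d (nat_lit 1) (nat_lit 1) (nat_lit 134) (@Lb.fm (nat_lit 9) t41))))))))))
noncomputable def l5783 : Lb := (@Lb.d (nat_lit 0) (nat_lit 256) (nat_lit 2) (@Lb.g g10 (@Lb.r r2435 (@Lb.r r386 (@Lb.d (nat_lit 0) (nat_lit 100) (nat_lit 170) (@Lb.t (@Lb.fm (nat_lit 3) t1522)))))))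
noncomputable def l5784 : Lb := (@Lb.d (nat_lit 9) (nat_lit 0) (nat_lit 0) (@Lb.g g8 (@Lb.r r1045 (@Lb.r r36 (@Lb.d (nat_lit 0) (nat_lit 66) (nat_lit 0) (@Lb.t (@Lb.fp (nat_lit 3) t2)))))))
noncomputable def l5785 : Lb := (@Lb.d (nat_lit 5) (nat_lit 10) (nat_lit 72) (@Lb.g g4 (@Lb.g g9 (@Lb.g g10 (@Lb.g g11 (@Lb.r r679 (@Lb.r r1366 (@Lb.r r1553 (@Lb.d (nat_lit 336) (nat_lit 105) (nat_lit 672) (@Lb.fp (nat_lit 9) t50))))))))))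
noncomputable def l5786 : Lb := (@Lb.r r323 (@Lb.d (nat_lit 1) (nat_lit 258) (nat_lit 0) (@Lb.g g8 (@Lb.g g9 (@Lb.g g10 (@Lb.r r427 (@Lb.r r106 (@Lb.r r25 (@Lb.d (nat_lit 8) (nat_lit 9) (nat_lit 2) (@Lb.t (@Lb.fm (nat_lit 9) t51)))))))))))
noncomputable def l5787 : Lb := (@Lb.d (nat_lit 130) (nat_lit 0) (nat_lit 256) (@Lb.g g7 (@Lb.d (nat_lit 64) (nat_lit 0) (nat_lit 576) (@Lb.t (@Lb.fm (nat_lit 3) t1165)))))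
noncomputable def l5788 : Lb := (@Lb.g g4 (@Lb.g g7 (@Lb.r r2311 (@Lb.d (nat_lit 257) (nat_lit 512) (nat_lit 64) (@Lb.fm (nat_lit 3) t1165)))))
noncomputable def l5789 : Lb := (@Lb.d (nat_lit 2) (nat_lit 514) (nat_lit 130) (@Lb.g g8 (@Lb.g g9 (@Lb.g g10 (@Lb.g g11 (@Lb.r r1299 (@Lb.r r2705 (@Lb.r r2646 (@Lb.r r1416 (@Lb.d (nat_lit 80) (nat_lit 2) (nat_lit 618) (@Lb.fm (nat_lit 9) t441)))))))))))
noncomputable def l5790 : Lb := (@Lb.r r21 (@Lb.d (nat_lit 2) (nat_lit 264) (nat_lit 130) (@Lb.g g8 (@Lb.g g10 (@Lb.g g11 (@Lb.r r353 (@Lb.r r667 (@Lb.r r664 (@Lb.r r602 (@Lb.d (nat_lit 98) (nat_lit 38) (nat_lit 128) (@Lb.t (@Lb.fp (nat_lit 9) t2))))))))))))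
noncomputable def l5791 : Lb := (@Lb.d (nat_lit 128) (nat_lit 512) (nat_lit 128) (@Lb.g g11 (@Lb.r r2434 (@Lb.r r264 (@Lb.r r599 (@Lb.r r1321 (@Lb.d (nat_lit 262) (nat_lit 138) (nat_lit 18) (@Lb.t (@Lb.fp (nat_lit 3) t881)))))))))
noncomputable def l5792 : Lb := (@Lb.r r21 (@Lb.r r70 (@Lb.d (nat_lit 128) (nat_lit 256) (nat_lit 128) (@Lb.g g8 (@Lb.g g11 (@Lb.r r1563 (@Lb.r r281 (@Lb.r r2196 (@Lb.r r2182 (@Lb.d (nat_lit 5) (nat_lit 73) (nat_lit 18) (@Lb.fm (nat_lit 3) t68)))))))))))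
noncomputable def l5793 : Lb := (@Lb.r r21 (@Lb.r r70 (@Lb.d (nat_lit 128) (nat_lit 512) (nat_lit 128) (@Lb.g g8 (@Lb.g g11 (@Lb.r r1563 (@Lb.r r281 (@Lb.r r2196 (@Lb.r r2182 (@Lb.d (nat_lit 0) (nat_lit 9) (nat_lit 18) (@Lb.fm (nat_lit 3) t125)))))))))))
noncomputable def l5794 : Lb := (@Lb.d (nat_lit 593) (nat_lit 513) (nat_lit 600) (@Lb.r r1288 (@Lb.r r1418 (@Lb.r r2647 (@Lb.g g5 (@Lb.g g4 (@Lb.d (nat_lit 9) (nat_lit 17) (nat_lit 0) (@Lb.fp (nat_lit 3) t1611))))))))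
noncomputable def l5795 : Lb := (@Lb.d (nat_lit 0) (nat_lit 512) (nat_lit 128) (@Lb.g g11 (@Lb.r r134 (@Lb.r r584 (@Lb.r r299 (@Lb.r r409 (@Lb.d (nat_lit 24) (nat_lit 133) (nat_lit 33) (@Lb.t (@Lb.fp (nat_lit 3) t232)))))))))
noncomputable def l5796 : Lb := (@Lb.d (nat_lit 0) (nat_lit 258) (nat_lit 66) (@Lb.r r134 (@Lb.r r328 (@Lb.r r535 (@Lb.g g9 (@Lb.g g4 (@Lb.d (nat_lit 6) (nat_lit 34) (nat_lit 0) (@Lb.fm (nat_lit 3) t238))))))))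
noncomputable def l5797 : Lb := (@Lb.d (nat_lit 2) (nat_lit 2) (nat_lit 128) (@Lb.g g8 (@Lb.g g9 (@Lb.g g10 (@Lb.g g11 (@Lb.r r516 (@Lb.r r1303 (@Lb.r r665 (@Lb.r r1618 (@Lb.r r2180 (@Lb.d (nat_lit 641) (nat_lit 66) (nat_lit 84) (@Lb.fp (nat_lit 9) t1558))))))))))))
noncomputable def l5798 : Lb := (@Lb.r r2182 (@Lb.r r2372 (@Lb.r r1563 (@Lb.r r1317 (@Lb.g g9 (@Lb.g g4 (@Lb.r r267 (@Lb.r r74 (@Lb.p (nat_lit 1) (@Lb.fm (nat_lit 3) t125))))))))))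
noncomputable def l5799 : Lb := (@Lb.r r21 (@Lb.r r70 (@Lb.g g4 (@Lb.r r1559 (@Lb.r r405 (@Lb.r r86 (@Lb.r r2148 (@Lb.d (nat_lit 513) (nat_lit 512) (nat_lit 0) (@Lb.t (@Lb.fp (nat_lit 3) t125))))))))))
noncomputable def l5800 : Lb := (@Lb.d (nat_lit 1) (nat_lit 514) (nat_lit 73) (@Lb.g g8 (@Lb.g g9 (@Lb.g g10 (@Lb.g g11 (@Lb.r r2666 (@Lb.r r579 (@Lb.r r25 (@Lb.d (nat_lit 9) (nat_lit 97) (nat_lit 586) (@Lb.fm (nat_lit 9) t51))))))))))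
noncomputable def l5801 : Lb := (@Lb.d (nat_lit 132) (nat_lit 256) (nat_lit 66) (@Lb.g g8 (@Lb.g g9 (@Lb.g g10 (@Lb.g g11 (@Lb.r r2666 (@Lb.r r612 (@Lb.r r1319 (@Lb.r r405 (@Lb.r r2084 (@Lb.d (nat_lit 617) (nat_lit 137) (nat_lit 169) (@Lb.fp (nat_lit 9) t1039))))))))))))
noncomputable def l5802 : Lb := (@Lb.r r20 (@Lb.r r82 (@Lb.r r275 (@Lb.d (nat_lit 0) (nat_lit 129) (nat_lit 0) (@Lb.g g5 (@Lb.r r291 (@Lb.r r98 (@Lb.r r36 (@Lb.t (@Lb.fm (nat_lit 3) t68))))))))))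
noncomputable def l5803 : Lb := (@Lb.d (nat_lit 4) (nat_lit 0) (nat_lit 130) (@Lb.g g8 (@Lb.g g9 (@Lb.g g10 (@Lb.g g11 (@Lb.r r427 (@Lb.r r297 (@Lb.r r104 (@Lb.r r70 (@Lb.r r132 (@Lb.d (nat_lit 9) (nat_lit 66) (nat_lit 330) (@Lb.fp (nat_lit 9) t119))))))))))))
noncomputable def l5804 : Lb := (@Lb.d (nat_lit 4) (nat_lit 256) (nat_lit 130) (@Lb.g g8 (@Lb.g g9 (@Lb.g g10 (@Lb.g g11 (@Lb.r r427 (@Lb.r r297 (@Lb.r r104 (@Lb.r r70 (@Lb.r r132 (@Lb.d (nat_lit 9) (nat_lit 73) (nat_lit 329) (@Lb.fp (nat_lit 9) t119))))))))))))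
noncomputable def l5805 : Lb := (@Lb.r r70 (@Lb.r r263 (@Lb.d (nat_lit 5) (nat_lit 512) (nat_lit 0) (@Lb.g g8 (@Lb.g g9 (@Lb.r r1561 (@Lb.r r279 (@Lb.r r584 (@Lb.r r2182 (@Lb.d (nat_lit 2) (nat_lit 0) (nat_lit 420) (@Lb.fm (nat_lit 3) t321)))))))))))
noncomputable def l5806 : Lb := (@Lb.d (nat_lit 2) (nat_lit 0) (nat_lit 129) (@Lb.g g8 (@Lb.g g9 (@Lb.g g10 (@Lb.g g11 (@Lb.r r657 (@Lb.r r1427 (@Lb.r r616 (@Lb.r r326 (@Lb.r r1156 (@Lb.d (nat_lit 329) (nat_lit 73) (nat_lit 662) (@Lb.fm (nat_lit 9) t1612))))))))))))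
noncomputable def l5807 : Lb := (@Lb.d (nat_lit 4) (nat_lit 512) (nat_lit 138) (@Lb.g g8 (@Lb.g g9 (@Lb.g g10 (@Lb.g g11 (@Lb.r r1707 (@Lb.r r618 (@Lb.r r25 (@Lb.d (nat_lit 9) (nat_lit 25) (nat_lit 297) (@Lb.fm (nat_lit 9) t591))))))))))
noncomputable def l5808 : Lb := (@Lb.r r82 (@Lb.d (nat_lit 32) (nat_lit 258) (nat_lit 128) (@Lb.g g8 (@Lb.g g9 (@Lb.g g11 (@Lb.r r363 (@Lb.r r582 (@Lb.r r388 (@Lb.d (nat_lit 98) (nat_lit 8) (nat_lit 153) (@Lb.t (@Lb.fm (nat_lit 9) t390)))))))))))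
noncomputable def l5809 : Lb := (@Lb.d (nat_lit 2) (nat_lit 260) (nat_lit 128) (@Lb.g g8 (@Lb.g g9 (@Lb.g g10 (@Lb.g g11 (@Lb.r r427 (@Lb.r r424 (@Lb.r r106 (@Lb.r r97 (@Lb.d (nat_lit 290) (nat_lit 10) (nat_lit 168) (@Lb.fp (nat_lit 9) t1613)))))))))))
noncomputable def l5810 : Lb := (@Lb.r r82 (@Lb.d (nat_lit 2) (nat_lit 545) (nat_lit 128) (@Lb.g g8 (@Lb.g g9 (@Lb.g g11 (@Lb.r r2152 (@Lb.r r102 (@Lb.r r337 (@Lb.r r1315 (@Lb.d (nat_lit 0) (nat_lit 162) (nat_lit 344) (@Lb.t (@Lb.fp (nat_lit 9) t68))))))))))))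
noncomputable def l5811 : Lb := (@Lb.r r20 (@Lb.r r323 (@Lb.d (nat_lit 0) (nat_lit 577) (nat_lit 0) (@Lb.g g9 (@Lb.g g10 (@Lb.r r419 (@Lb.r r98 (@Lb.d (nat_lit 0) (nat_lit 72) (nat_lit 2) (@Lb.fm (nat_lit 3) t51)))))))))
noncomputable def l5812 : Lb := (@Lb.r r323 (@Lb.d (nat_lit 6) (nat_lit 576) (nat_lit 0) (@Lb.g g4 (@Lb.g g9 (@Lb.g g10 (@Lb.r r419 (@Lb.r r98 (@Lb.d (nat_lit 1) (nat_lit 9) (nat_lit 2) (@Lb.t (@Lb.fp (nat_lit 9) t51))))))))))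
noncomputable def l5813 : Lb := (@Lb.d (nat_lit 2) (nat_lit 512) (nat_lit 128) (@Lb.g g8 (@Lb.g g11 (@Lb.r r154 (@Lb.r r404 (@Lb.r r299 (@Lb.r r289 (@Lb.d (nat_lit 8) (nat_lit 89) (nat_lit 9) (@Lb.fm (nat_lit 3) t51)))))))))
noncomputable def l5814 : Lb := (@Lb.d (nat_lit 2) (nat_lit 550) (nat_lit 128) (@Lb.g g8 (@Lb.g g9 (@Lb.g g10 (@Lb.g g11 (@Lb.r r1190 (@Lb.r r2088 (@Lb.r r617 (@Lb.r r1315 (@Lb.d (nat_lit 354) (nat_lit 96) (nat_lit 352) (@Lb.fm (nat_lit 9) t125)))))))))))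
noncomputable def l5815 : Lb := (@Lb.d (nat_lit 4) (nat_lit 0) (nat_lit 2) (@Lb.g g8 (@Lb.g g9 (@Lb.g g10 (@Lb.g g11 (@Lb.r r427 (@Lb.r r106 (@Lb.r r25 (@Lb.d (nat_lit 10) (nat_lit 9) (nat_lit 2) (@Lb.fp (nat_lit 9) t51))))))))))
noncomputable def l5816 : Lb := (@Lb.r r323 (@Lb.d (nat_lit 4) (nat_lit 512) (nat_lit 0) (@Lb.g g8 (@Lb.g g9 (@Lb.g g10 (@Lb.r r427 (@Lb.r r106 (@Lb.r r25 (@Lb.d (nat_lit 10) (nat_lit 2) (nat_lit 0) (@Lb.t (@Lb.fm (nat_lit 9) t51)))))))))))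
noncomputable def l5817 : Lb := (@Lb.r r323 (@Lb.d (nat_lit 2) (nat_lit 73) (nat_lit 1) (@Lb.g g8 (@Lb.g g9 (@Lb.g g10 (@Lb.r r2410 (@Lb.r r387 (@Lb.d (nat_lit 650) (nat_lit 161) (nat_lit 586) (@Lb.t (@Lb.fm (nat_lit 9) t594))))))))))
noncomputable def l5818 : Lb := (@Lb.r r323 (@Lb.d (nat_lit 2) (nat_lit 4) (nat_lit 0) (@Lb.g g8 (@Lb.g g9 (@Lb.g g10 (@Lb.r r362 (@Lb.r r387 (@Lb.r r25 (@Lb.d (nat_lit 0) (nat_lit 34) (nat_lit 74) (@Lb.t (@Lb.fm (nat_lit 9) t238)))))))))))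
noncomputable def l5819 : Lb := (@Lb.d (nat_lit 129) (nat_lit 0) (nat_lit 0) (@Lb.g g8 (@Lb.r r394 (@Lb.r r599 (@Lb.r r289 (@Lb.r r152 (@Lb.d (nat_lit 21) (nat_lit 68) (nat_lit 1) (@Lb.t (@Lb.fp (nat_lit 3) t51)))))))))
noncomputable def l5820 : Lb := (@Lb.d (nat_lit 9) (nat_lit 32) (nat_lit 64) (@Lb.g g8 (@Lb.g g11 (@Lb.r r154 (@Lb.r r101 (@Lb.r r408 (@Lb.r r295 (@Lb.d (nat_lit 73) (nat_lit 105) (nat_lit 73) (@Lb.fp (nat_lit 3) t51)))))))))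
noncomputable def l5821 : Lb := (@Lb.r r337 (@Lb.r r2723 (@Lb.r r1682 (@Lb.r r2129 (@Lb.r r2564 (@Lb.d (nat_lit 2) (nat_lit 384) (nat_lit 256) (@Lb.fp (nat_lit 1) t242)))))))
noncomputable def l5822 : Lb := (@Lb.d (nat_lit 2) (nat_lit 514) (nat_lit 130) (@Lb.g g8 (@Lb.g g9 (@Lb.g g10 (@Lb.g g11 (@Lb.r r2691 (@Lb.r r297 (@Lb.r r360 (@Lb.r r582 (@Lb.r r2180 (@Lb.d (nat_lit 641) (nat_lit 0) (nat_lit 330) (@Lb.fm (nat_lit 9) t242))))))))))))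
noncomputable def l5823 : Lb := (@Lb.d (nat_lit 130) (nat_lit 512) (nat_lit 0) (@Lb.g g8 (@Lb.r r1383 (@Lb.r r2194 (@Lb.r r1121 (@Lb.r r584 (@Lb.d (nat_lit 98) (nat_lit 128) (nat_lit 170) (@Lb.t (@Lb.fm (nat_lit 3) t51)))))))))
noncomputable def l5824 : Lb := (@Lb.d (nat_lit 8) (nat_lit 258) (nat_lit 0) (@Lb.g g9 (@Lb.r r24 (@Lb.r r1045 (@Lb.d (nat_lit 294) (nat_lit 66) (nat_lit 16) (@Lb.t (@Lb.fm (nat_lit 3) t127)))))))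
noncomputable def l5825 : Lb := (@Lb.d (nat_lit 0) (nat_lit 546) (nat_lit 0) (@Lb.g g5 (@Lb.r r675 (@Lb.r r134 (@Lb.r r612 (@Lb.r r533 (@Lb.d (nat_lit 73) (nat_lit 98) (nat_lit 128) (@Lb.t (@Lb.fm (nat_lit 3) t51)))))))))
noncomputable def l5826 : Lb := (@Lb.d (nat_lit 134) (nat_lit 512) (nat_lit 0) (@Lb.g g8 (@Lb.g g9 (@Lb.r r2474 (@Lb.r r2457 (@Lb.r r1319 (@Lb.r r2584 (@Lb.d (nat_lit 325) (nat_lit 168) (nat_lit 402) (@Lb.fm (nat_lit 3) t51)))))))))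
noncomputable def l5827 : Lb := (@Lb.d (nat_lit 38) (nat_lit 8) (nat_lit 72) (@Lb.g g8 (@Lb.g g9 (@Lb.g g11 (@Lb.r r1110 (@Lb.r r2472 (@Lb.r r599 (@Lb.r r417 (@Lb.d (nat_lit 9) (nat_lit 32) (nat_lit 402) (@Lb.t (@Lb.fp (nat_lit 9) t51)))))))))))
noncomputable def l5828 : Lb := (@Lb.d (nat_lit 134) (nat_lit 256) (nat_lit 0) (@Lb.g g8 (@Lb.g g9 (@Lb.r r2474 (@Lb.r r2457 (@Lb.r r1319 (@Lb.r r2584 (@Lb.d (nat_lit 330) (nat_lit 169) (nat_lit 402) (@Lb.fm (nat_lit 3) t51)))))))))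
noncomputable def l5829 : Lb := (@Lb.d (nat_lit 134) (nat_lit 512) (nat_lit 0) (@Lb.g g8 (@Lb.g g9 (@Lb.r r1303 (@Lb.r r1426 (@Lb.r r2657 (@Lb.r r152 (@Lb.d (nat_lit 26) (nat_lit 138) (nat_lit 258) (@Lb.fp (nat_lit 3) t334)))))))))
noncomputable def l5830 : Lb := (@Lb.d (nat_lit 2) (nat_lit 2) (nat_lit 9) (@Lb.g g8 (@Lb.g g9 (@Lb.g g10 (@Lb.g g11 (@Lb.r r660 (@Lb.r r614 (@Lb.r r1637 (@Lb.r r1383 (@Lb.r r2692 (@Lb.d (nat_lit 5) (nat_lit 128) (nat_lit 74) (@Lb.fm (nat_lit 9) t2))))))))))))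
noncomputable def l5831 : Lb := (@Lb.r r323 (@Lb.d (nat_lit 130) (nat_lit 546) (nat_lit 10) (@Lb.g g8 (@Lb.g g9 (@Lb.g g10 (@Lb.r r275 (@Lb.r r609 (@Lb.r r598 (@Lb.r r408 (@Lb.d (nat_lit 20) (nat_lit 10) (nat_lit 74) (@Lb.t (@Lb.fm (nat_lit 9) t2))))))))))))
noncomputable def l5832 : Lb := (@Lb.d (nat_lit 2) (nat_lit 514) (nat_lit 66) (@Lb.g g8 (@Lb.g g9 (@Lb.g g10 (@Lb.g g11 (@Lb.r r340 (@Lb.r r2202 (@Lb.r r1621 (@Lb.r r1367 (@Lb.r r2724 (@Lb.d (nat_lit 352) (nat_lit 2) (nat_lit 602) (@Lb.fm (nat_lit 9) t994))))))))))))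
noncomputable def l5833 : Lb := (@Lb.d (nat_lit 534) (nat_lit 1) (nat_lit 145) (@Lb.r r20 (@Lb.r r2153 (@Lb.r r323 (@Lb.g g10 (@Lb.g g5 (@Lb.g g4 (@Lb.d (nat_lit 1) (nat_lit 1) (nat_lit 2) (@Lb.r r387 (@Lb.t (@Lb.fp (nat_lit 9) t51)))))))))))
noncomputable def l5834 : Lb := (@Lb.d (nat_lit 5) (nat_lit 64) (nat_lit 0) (@Lb.g g9 (@Lb.t (@Lb.fp (nat_lit 3) t2))))
noncomputable def l5835 : Lb := (@Lb.r r323 (@Lb.d (nat_lit 4) (nat_lit 34) (nat_lit 2) (@Lb.g g8 (@Lb.g g9 (@Lb.g g10 (@Lb.r r2647 (@Lb.r r74 (@Lb.r r1320 (@Lb.r r1433 (@Lb.d (nat_lit 661) (nat_lit 152) (nat_lit 682) (@Lb.t (@Lb.fm (nat_lit 9) t51))))))))))))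
noncomputable def l5836 : Lb := (@Lb.r r323 (@Lb.d (nat_lit 130) (nat_lit 34) (nat_lit 10) (@Lb.g g8 (@Lb.g g9 (@Lb.g g10 (@Lb.r r275 (@Lb.r r609 (@Lb.r r598 (@Lb.r r408 (@Lb.d (nat_lit 22) (nat_lit 10) (nat_lit 74) (@Lb.t (@Lb.fm (nat_lit 9) t2))))))))))))
noncomputable def l5837 : Lb := (@Lb.r r24 (@Lb.r r2069 (@Lb.r r36 (@Lb.d (nat_lit 5) (nat_lit 513) (nat_lit 0) (@Lb.fm (nat_lit 1) t2)))))
noncomputable def l5838 : Lb := (@Lb.r r24 (@Lb.r r2069 (@Lb.r r36 (@Lb.fm (nat_lit 1) t2))))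
noncomputable def l5839 : Lb := (@Lb.d (nat_lit 2) (nat_lit 2) (nat_lit 130) (@Lb.g g8 (@Lb.g g9 (@Lb.g g10 (@Lb.g g11 (@Lb.r r148 (@Lb.r r102 (@Lb.r r357 (@Lb.r r667 (@Lb.r r644 (@Lb.d (nat_lit 2) (nat_lit 0) (nat_lit 74) (@Lb.fp (nat_lit 9) t2))))))))))))
noncomputable def l5840 : Lb := (@Lb.d (nat_lit 4) (nat_lit 514) (nat_lit 130) (@Lb.g g8 (@Lb.g g9 (@Lb.g g10 (@Lb.g g11 (@Lb.r r363 (@Lb.r r386 (@Lb.r r1121 (@Lb.r r24 (@Lb.d (nat_lit 256) (nat_lit 138) (nat_lit 102) (@Lb.fm (nat_lit 9) t61)))))))))))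
noncomputable def l5841 : Lb := (@Lb.d (nat_lit 8) (nat_lit 128) (nat_lit 0) (@Lb.g g5 (@Lb.d (nat_lit 4) (nat_lit 1) (nat_lit 0) (@Lb.t (@Lb.fm (nat_lit 3) t2)))))
noncomputable def l5842 : Lb := (@Lb.d (nat_lit 10) (nat_lit 258) (nat_lit 130) (@Lb.g g4 (@Lb.g g9 (@Lb.g g10 (@Lb.g g11 (@Lb.r r419 (@Lb.r r98 (@Lb.d (nat_lit 0) (nat_lit 168) (nat_lit 386) (@Lb.fm (nat_lit 9) t51)))))))))
noncomputable def l5843 : Lb := (@Lb.d (nat_lit 10) (nat_lit 2) (nat_lit 130) (@Lb.g g4 (@Lb.g g9 (@Lb.g g10 (@Lb.g g11 (@Lb.r r419 (@Lb.r r98 (@Lb.d (nat_lit 0) (nat_lit 4) (nat_lit 136) (@Lb.fm (nat_lit 9) t51)))))))))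
noncomputable def l5844 : Lb := (@Lb.r r323 (@Lb.d (nat_lit 129) (nat_lit 546) (nat_lit 18) (@Lb.g g8 (@Lb.g g9 (@Lb.g g10 (@Lb.r r583 (@Lb.r r404 (@Lb.r r105 (@Lb.d (nat_lit 550) (nat_lit 36) (nat_lit 144) (@Lb.t (@Lb.fm (nat_lit 9) t386)))))))))))
noncomputable def l5845 : Lb := (@Lb.d (nat_lit 0) (nat_lit 5) (nat_lit 129) (@Lb.g g5 (@Lb.t (@Lb.fm (nat_lit 3) t87))))
noncomputable def l5846 : Lb := (@Lb.d (nat_lit 9) (nat_lit 513) (nat_lit 130) (@Lb.g g8 (@Lb.g g9 (@Lb.g g10 (@Lb.g g11 (@Lb.r r148 (@Lb.r r102 (@Lb.r r357 (@Lb.r r667 (@Lb.r r644 (@Lb.d (nat_lit 2) (nat_lit 0) (nat_lit 10) (@Lb.fp (nat_lit 9) t2))))))))))))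
noncomputable def l5847 : Lb := (@Lb.g g4 (@Lb.g g7 (@Lb.r r134 (@Lb.r r328 (@Lb.r r535 (@Lb.r r289 (@Lb.d (nat_lit 6) (nat_lit 64) (nat_lit 0) (@Lb.fm (nat_lit 3) t51))))))))
noncomputable def l5848 : Lb := (@Lb.r r323 (@Lb.d (nat_lit 137) (nat_lit 289) (nat_lit 10) (@Lb.g g8 (@Lb.g g9 (@Lb.g g10 (@Lb.r r275 (@Lb.r r609 (@Lb.r r598 (@Lb.r r408 (@Lb.d (nat_lit 20) (nat_lit 10) (nat_lit 10) (@Lb.t (@Lb.fm (nat_lit 9) t2))))))))))))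
noncomputable def l5849 : Lb := (@Lb.r r82 (@Lb.d (nat_lit 41) (nat_lit 32) (nat_lit 64) (@Lb.g g8 (@Lb.g g9 (@Lb.g g11 (@Lb.r r1571 (@Lb.r r582 (@Lb.r r273 (@Lb.r r2180 (@Lb.d (nat_lit 546) (nat_lit 33) (nat_lit 402) (@Lb.t (@Lb.fp (nat_lit 9) t125))))))))))))
noncomputable def l5850 : Lb := (@Lb.r r323 (@Lb.d (nat_lit 137) (nat_lit 545) (nat_lit 10) (@Lb.g g8 (@Lb.g g9 (@Lb.g g10 (@Lb.r r275 (@Lb.r r609 (@Lb.r r598 (@Lb.r r408 (@Lb.d (nat_lit 22) (nat_lit 10) (nat_lit 10) (@Lb.t (@Lb.fm (nat_lit 9) t2))))))))))))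
noncomputable def l5851 : Lb := (@Lb.d (nat_lit 9) (nat_lit 257) (nat_lit 130) (@Lb.g g8 (@Lb.g g9 (@Lb.g g10 (@Lb.g g11 (@Lb.r r148 (@Lb.r r102 (@Lb.r r357 (@Lb.r r667 (@Lb.r r644 (@Lb.d (nat_lit 2) (nat_lit 0) (nat_lit 74) (@Lb.fp (nat_lit 9) t2))))))))))))
noncomputable def l5852 : Lb := (@Lb.d (nat_lit 529) (nat_lit 512) (nat_lit 22) (@Lb.r r20 (@Lb.r r2153 (@Lb.r r386 (@Lb.g g11 (@Lb.g g6 (@Lb.g g5 (@Lb.g g4 (@Lb.d (nat_lit 10) (nat_lit 0) (nat_lit 129) (@Lb.fm (nat_lit 9) t51))))))))))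
noncomputable def l5853 : Lb := (@Lb.d (nat_lit 9) (nat_lit 1) (nat_lit 130) (@Lb.g g8 (@Lb.g g9 (@Lb.g g10 (@Lb.g g11 (@Lb.r r148 (@Lb.r r102 (@Lb.r r357 (@Lb.r r667 (@Lb.r r644 (@Lb.d (nat_lit 9) (nat_lit 2) (nat_lit 10) (@Lb.fp (nat_lit 9) t2))))))))))))
noncomputable def l5854 : Lb := (@Lb.d (nat_lit 2) (nat_lit 544) (nat_lit 130) (@Lb.g g8 (@Lb.g g10 (@Lb.g g11 (@Lb.r r602 (@Lb.r r600 (@Lb.r r293 (@Lb.r r2587 (@Lb.d (nat_lit 329) (nat_lit 34) (nat_lit 276) (@Lb.t (@Lb.fp (nat_lit 9) t71)))))))))))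
noncomputable def l5855 : Lb := (@Lb.d (nat_lit 2) (nat_lit 514) (nat_lit 130) (@Lb.g g8 (@Lb.g g9 (@Lb.g g10 (@Lb.g g11 (@Lb.r r427 (@Lb.r r297 (@Lb.r r104 (@Lb.r r70 (@Lb.r r132 (@Lb.d (nat_lit 9) (nat_lit 66) (nat_lit 256) (@Lb.fp (nat_lit 9) t51))))))))))))
noncomputable def l5856 : Lb := (@Lb.d (nat_lit 9) (nat_lit 513) (nat_lit 130) (@Lb.g g8 (@Lb.g g9 (@Lb.g g10 (@Lb.g g11 (@Lb.r r148 (@Lb.r r102 (@Lb.r r357 (@Lb.r r667 (@Lb.r r644 (@Lb.d (nat_lit 9) (nat_lit 2) (nat_lit 74) (@Lb.fp (nat_lit 9) t2))))))))))))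
noncomputable def l5857 : Lb := (@Lb.d (nat_lit 1) (nat_lit 1) (nat_lit 0) (@Lb.r r289 (@Lb.r r279 (@Lb.r r584 (@Lb.r r326 (@Lb.g g7 (@Lb.g g6 (@Lb.d (nat_lit 0) (nat_lit 0) (nat_lit 65) (@Lb.fm (nat_lit 3) t68)))))))))
noncomputable def l5858 : Lb := (@Lb.d (nat_lit 0) (nat_lit 146) (nat_lit 133) (@Lb.r r21 (@Lb.r r579 (@Lb.r r342 (@Lb.g g7 (@Lb.g g6 (@Lb.g g5 (@Lb.g g4 (@Lb.d (nat_lit 1) (nat_lit 1) (nat_lit 133) (@Lb.fm (nat_lit 9) t40))))))))))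
noncomputable def l5859 : Lb := (@Lb.d (nat_lit 0) (nat_lit 0) (nat_lit 74) (@Lb.g g10 (@Lb.g g11 (@Lb.r r2626 (@Lb.r r579 (@Lb.d (nat_lit 0) (nat_lit 0) (nat_lit 600) (@Lb.fp (nat_lit 3) t2)))))))
noncomputable def l5860 : Lb := (@Lb.d (nat_lit 9) (nat_lit 6) (nat_lit 128) (@Lb.g g8 (@Lb.g g9 (@Lb.g g10 (@Lb.g g11 (@Lb.r r1699 (@Lb.r r596 (@Lb.r r682 (@Lb.r r2217 (@Lb.r r2212 (@Lb.d (nat_lit 586) (nat_lit 34) (nat_lit 586) (@Lb.fm (nat_lit 9) t125))))))))))))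
noncomputable def l5861 : Lb := (@Lb.d (nat_lit 10) (nat_lit 288) (nat_lit 64) (@Lb.g g8 (@Lb.g g11 (@Lb.r r166 (@Lb.r r149 (@Lb.r r360 (@Lb.r r2567 (@Lb.d (nat_lit 641) (nat_lit 17) (nat_lit 640) (@Lb.fp (nat_lit 3) t71)))))))))
noncomputable def l5862 : Lb := (@Lb.r r323 (@Lb.d (nat_lit 2) (nat_lit 258) (nat_lit 2) (@Lb.g g8 (@Lb.g g9 (@Lb.g g10 (@Lb.r r1687 (@Lb.r r2154 (@Lb.r r97 (@Lb.r r24 (@Lb.d (nat_lit 1) (nat_lit 0) (nat_lit 18) (@Lb.t (@Lb.fp (nat_lit 9) t61))))))))))))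
noncomputable def l5863 : Lb := (@Lb.d (nat_lit 9) (nat_lit 544) (nat_lit 128) (@Lb.g g8 (@Lb.g g10 (@Lb.g g11 (@Lb.r r2730 (@Lb.r r101 (@Lb.r r404 (@Lb.r r299 (@Lb.d (nat_lit 644) (nat_lit 105) (nat_lit 73) (@Lb.t (@Lb.fm (nat_lit 9) t51)))))))))))
noncomputable def l5864 : Lb := (@Lb.d (nat_lit 9) (nat_lit 518) (nat_lit 128) (@Lb.g g8 (@Lb.g g9 (@Lb.g g10 (@Lb.g g11 (@Lb.r r1699 (@Lb.r r596 (@Lb.r r682 (@Lb.r r2217 (@Lb.r r2212 (@Lb.d (nat_lit 576) (nat_lit 98) (nat_lit 586) (@Lb.fm (nat_lit 9) t68))))))))))))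
noncomputable def l5865 : Lb := (@Lb.d (nat_lit 9) (nat_lit 1) (nat_lit 66) (@Lb.g g8 (@Lb.g g9 (@Lb.g g10 (@Lb.g g11 (@Lb.r r596 (@Lb.r r410 (@Lb.r r2645 (@Lb.r r2391 (@Lb.r r1700 (@Lb.d (nat_lit 1) (nat_lit 129) (nat_lit 74) (@Lb.fm (nat_lit 9) t2))))))))))))
noncomputable def l5866 : Lb := (@Lb.d (nat_lit 1) (nat_lit 338) (nat_lit 389) (@Lb.r r21 (@Lb.r r579 (@Lb.r r1366 (@Lb.g g7 (@Lb.g g6 (@Lb.g g5 (@Lb.g g4 (@Lb.d (nat_lit 1) (nat_lit 1) (nat_lit 65) (@Lb.fm (nat_lit 9) t40))))))))))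
noncomputable def l5867 : Lb := (@Lb.d (nat_lit 9) (nat_lit 9) (nat_lit 129) (@Lb.g g8 (@Lb.g g9 (@Lb.g g10 (@Lb.g g11 (@Lb.r r148 (@Lb.r r1126 (@Lb.r r1381 (@Lb.r r1691 (@Lb.r r1668 (@Lb.d (nat_lit 8) (nat_lit 2) (nat_lit 330) (@Lb.fp (nat_lit 9) t321))))))))))))
noncomputable def l5868 : Lb := (@Lb.d (nat_lit 9) (nat_lit 257) (nat_lit 73) (@Lb.g g8 (@Lb.g g9 (@Lb.g g6 (@Lb.g g11 (@Lb.r r579 (@Lb.r r104 (@Lb.r r25 (@Lb.d (nat_lit 517) (nat_lit 8) (nat_lit 25) (@Lb.fm (nat_lit 9) t40))))))))))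
noncomputable def l5869 : Lb := (@Lb.d (nat_lit 9) (nat_lit 37) (nat_lit 10) (@Lb.g g8 (@Lb.g g9 (@Lb.g g10 (@Lb.g g11 (@Lb.r r1706 (@Lb.r r1688 (@Lb.r r1563 (@Lb.r r1561 (@Lb.d (nat_lit 9) (nat_lit 82) (nat_lit 586) (@Lb.fm (nat_lit 9) t125)))))))))))
noncomputable def l5870 : Lb := (@Lb.d (nat_lit 0) (nat_lit 256) (nat_lit 74) (@Lb.g g10 (@Lb.g g11 (@Lb.r r2626 (@Lb.r r579 (@Lb.d (nat_lit 0) (nat_lit 0) (nat_lit 534) (@Lb.fp (nat_lit 3) t2)))))))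
noncomputable def l5871 : Lb := (@Lb.d (nat_lit 128) (nat_lit 0) (nat_lit 384) (@Lb.g g10 (@Lb.g g11 (@Lb.r r1606 (@Lb.d (nat_lit 256) (nat_lit 0) (nat_lit 384) (@Lb.fm (nat_lit 3) t441))))))
noncomputable def l5872 : Lb := (@Lb.d (nat_lit 9) (nat_lit 256) (nat_lit 0) (@Lb.g g8 (@Lb.g g7 (@Lb.r r149 (@Lb.r r402 (@Lb.r r2436 (@Lb.d (nat_lit 610) (nat_lit 0) (nat_lit 66) (@Lb.fm (nat_lit 3) t311))))))))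
noncomputable def l5873 : Lb := (@Lb.d (nat_lit 10) (nat_lit 0) (nat_lit 0) (@Lb.g g8 (@Lb.g g7 (@Lb.r r149 (@Lb.r r402 (@Lb.r r2436 (@Lb.d (nat_lit 610) (nat_lit 0) (nat_lit 66) (@Lb.fm (nat_lit 3) t311))))))))
noncomputable def l5874 : Lb := (@Lb.d (nat_lit 40) (nat_lit 256) (nat_lit 64) (@Lb.g g8 (@Lb.g g11 (@Lb.r r1703 (@Lb.r r614 (@Lb.r r1637 (@Lb.r r1428 (@Lb.d (nat_lit 358) (nat_lit 80) (nat_lit 257) (@Lb.fm (nat_lit 3) t386)))))))))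
noncomputable def l5875 : Lb := (@Lb.r r21 (@Lb.d (nat_lit 33) (nat_lit 0) (nat_lit 129) (@Lb.g g8 (@Lb.g g10 (@Lb.g g11 (@Lb.r r1691 (@Lb.r r1381 (@Lb.r r2202 (@Lb.r r2372 (@Lb.d (nat_lit 553) (nat_lit 38) (nat_lit 330) (@Lb.t (@Lb.fp (nat_lit 9) t428))))))))))))
noncomputable def l5876 : Lb := (@Lb.r r82 (@Lb.d (nat_lit 34) (nat_lit 512) (nat_lit 136) (@Lb.g g8 (@Lb.g g9 (@Lb.g g11 (@Lb.r r617 (@Lb.r r150 (@Lb.r r356 (@Lb.r r395 (@Lb.d (nat_lit 130) (nat_lit 41) (nat_lit 72) (@Lb.t (@Lb.fm (nat_lit 9) t355))))))))))))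
noncomputable def l5877 : Lb := (@Lb.r r21 (@Lb.d (nat_lit 146) (nat_lit 256) (nat_lit 133) (@Lb.g g8 (@Lb.g g10 (@Lb.g g11 (@Lb.r r1691 (@Lb.r r1689 (@Lb.r r1370 (@Lb.r r1188 (@Lb.d (nat_lit 289) (nat_lit 169) (nat_lit 406) (@Lb.t (@Lb.fp (nat_lit 9) t74))))))))))))
noncomputable def l5878 : Lb := (@Lb.r r21 (@Lb.d (nat_lit 33) (nat_lit 512) (nat_lit 129) (@Lb.g g8 (@Lb.g g10 (@Lb.g g11 (@Lb.r r1691 (@Lb.r r1381 (@Lb.r r2202 (@Lb.r r2372 (@Lb.d (nat_lit 554) (nat_lit 38) (nat_lit 330) (@Lb.t (@Lb.fp (nat_lit 9) t577))))))))))))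
noncomputable def l5879 : Lb := (@Lb.d (nat_lit 0) (nat_lit 0) (nat_lit 2) (@Lb.g g10 (@Lb.g g11 (@Lb.r r386 (@Lb.d (nat_lit 0) (nat_lit 5) (nat_lit 10) (@Lb.fp (nat_lit 3) t45))))))
noncomputable def l5880 : Lb := (@Lb.d (nat_lit 168) (nat_lit 256) (nat_lit 130) (@Lb.g g9 (@Lb.g g10 (@Lb.g g11 (@Lb.r r72 (@Lb.r r86 (@Lb.r r421 (@Lb.r r411 (@Lb.d (nat_lit 9) (nat_lit 16) (nat_lit 9) (@Lb.t (@Lb.fm (nat_lit 9) t45)))))))))))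
noncomputable def l5881 : Lb := (@Lb.d (nat_lit 130) (nat_lit 257) (nat_lit 0) (@Lb.g g8 (@Lb.g g9 (@Lb.r r426 (@Lb.r r583 (@Lb.r r529 (@Lb.r r392 (@Lb.d (nat_lit 146) (nat_lit 98) (nat_lit 74) (@Lb.fp (nat_lit 3) t51)))))))))
noncomputable def l5882 : Lb := (@Lb.d (nat_lit 2) (nat_lit 2) (nat_lit 0) (@Lb.g g8 (@Lb.g g9 (@Lb.r r25 (@Lb.r r24 (@Lb.d (nat_lit 9) (nat_lit 64) (nat_lit 0) (@Lb.fp (nat_lit 3) t2)))))))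
noncomputable def l5883 : Lb := (@Lb.g g7 (@Lb.r r2579 (@Lb.r r72 (@Lb.r r598 (@Lb.r r289 (@Lb.r r2180 (@Lb.t (@Lb.fp (nat_lit 3) t51))))))))
noncomputable def l5884 : Lb := (@Lb.r r21 (@Lb.d (nat_lit 170) (nat_lit 0) (nat_lit 0) (@Lb.g g8 (@Lb.r r614 (@Lb.r r597 (@Lb.r r663 (@Lb.r r360 (@Lb.d (nat_lit 166) (nat_lit 104) (nat_lit 5) (@Lb.t (@Lb.fp (nat_lit 3) t2))))))))))
noncomputable def l5885 : Lb := (@Lb.d (nat_lit 8) (nat_lit 514) (nat_lit 128) (@Lb.g g9 (@Lb.g g11 (@Lb.r r166 (@Lb.r r600 (@Lb.r r667 (@Lb.r r337 (@Lb.d (nat_lit 8) (nat_lit 89) (nat_lit 132) (@Lb.fp (nat_lit 3) t51)))))))))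
noncomputable def l5886 : Lb := (@Lb.d (nat_lit 2) (nat_lit 1) (nat_lit 128) (@Lb.g g8 (@Lb.g g9 (@Lb.g g11 (@Lb.r r170 (@Lb.r r420 (@Lb.r r283 (@Lb.r r529 (@Lb.d (nat_lit 8) (nat_lit 96) (nat_lit 74) (@Lb.t (@Lb.fp (nat_lit 9) t51)))))))))))
noncomputable def l5887 : Lb := (@Lb.d (nat_lit 4) (nat_lit 168) (nat_lit 73) (@Lb.r r657 (@Lb.r r667 (@Lb.r r600 (@Lb.r r166 (@Lb.g g7 (@Lb.g g5 (@Lb.d (nat_lit 4) (nat_lit 1) (nat_lit 64) (@Lb.fp (nat_lit 3) t45)))))))))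
noncomputable def l5888 : Lb := (@Lb.d (nat_lit 0) (nat_lit 594) (nat_lit 389) (@Lb.r r21 (@Lb.r r579 (@Lb.r r1366 (@Lb.g g7 (@Lb.g g6 (@Lb.g g5 (@Lb.g g4 (@Lb.d (nat_lit 1) (nat_lit 1) (nat_lit 65) (@Lb.fm (nat_lit 9) t40))))))))))
noncomputable def l5889 : Lb := (@Lb.g g4 (@Lb.r r134 (@Lb.r r328 (@Lb.r r535 (@Lb.r r289 (@Lb.d (nat_lit 0) (nat_lit 517) (nat_lit 1) (@Lb.t (@Lb.fm (nat_lit 3) t51))))))))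
noncomputable def l5890 : Lb := (@Lb.d (nat_lit 32) (nat_lit 8) (nat_lit 2) (@Lb.g g10 (@Lb.r r289 (@Lb.r r600 (@Lb.r r347 (@Lb.r r646 (@Lb.d (nat_lit 138) (nat_lit 2) (nat_lit 150) (@Lb.t (@Lb.fm (nat_lit 3) t87)))))))))
noncomputable def l5891 : Lb := (@Lb.d (nat_lit 6) (nat_lit 658) (nat_lit 389) (@Lb.r r21 (@Lb.r r579 (@Lb.r r1366 (@Lb.g g7 (@Lb.g g6 (@Lb.g g5 (@Lb.g g4 (@Lb.d (nat_lit 1) (nat_lit 1) (nat_lit 134) (@Lb.fm (nat_lit 9) t40))))))))))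
noncomputable def l5892 : Lb := (@Lb.d (nat_lit 2) (nat_lit 517) (nat_lit 0) (@Lb.g g8 (@Lb.g g9 (@Lb.r r662 (@Lb.r r683 (@Lb.r r553 (@Lb.d (nat_lit 69) (nat_lit 146) (nat_lit 330) (@Lb.fp (nat_lit 3) t242))))))))
noncomputable def l5893 : Lb := (@Lb.d (nat_lit 2) (nat_lit 512) (nat_lit 2) (@Lb.g g8 (@Lb.g g5 (@Lb.g g10 (@Lb.g g7 (@Lb.r r386 (@Lb.r r24 (@Lb.d (nat_lit 10) (nat_lit 0) (nat_lit 9) (@Lb.fp (nat_lit 9) t2)))))))))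
noncomputable def l5894 : Lb := (@Lb.d (nat_lit 10) (nat_lit 512) (nat_lit 0) (@Lb.g g8 (@Lb.r r593 (@Lb.r r603 (@Lb.r r596 (@Lb.r r170 (@Lb.r r153 (@Lb.d (nat_lit 0) (nat_lit 65) (nat_lit 21) (@Lb.t (@Lb.fp (nat_lit 3) t2))))))))))
noncomputable def l5895 : Lb := (@Lb.d (nat_lit 137) (nat_lit 10) (nat_lit 0) (@Lb.g g8 (@Lb.g g9 (@Lb.r r1367 (@Lb.r r82 (@Lb.r r161 (@Lb.r r2664 (@Lb.d (nat_lit 358) (nat_lit 18) (nat_lit 297) (@Lb.fm (nat_lit 3) t591)))))))))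
noncomputable def l5896 : Lb := (@Lb.d (nat_lit 138) (nat_lit 256) (nat_lit 0) (@Lb.g g8 (@Lb.r r678 (@Lb.r r661 (@Lb.r r1431 (@Lb.r r2664 (@Lb.d (nat_lit 358) (nat_lit 17) (nat_lit 256) (@Lb.t (@Lb.fp (nat_lit 3) t71)))))))))
noncomputable def l5897 : Lb := (@Lb.r r275 (@Lb.d (nat_lit 9) (nat_lit 261) (nat_lit 0) (@Lb.g g8 (@Lb.g g9 (@Lb.g g10 (@Lb.r r424 (@Lb.r r1543 (@Lb.r r1378 (@Lb.r r609 (@Lb.d (nat_lit 10) (nat_lit 25) (nat_lit 640) (@Lb.t (@Lb.fp (nat_lit 9) t68))))))))))))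
noncomputable def l5898 : Lb := (@Lb.d (nat_lit 9) (nat_lit 40) (nat_lit 74) (@Lb.g g8 (@Lb.g g10 (@Lb.g g11 (@Lb.r r97 (@Lb.r r2134 (@Lb.r r1432 (@Lb.r r2343 (@Lb.d (nat_lit 586) (nat_lit 1) (nat_lit 297) (@Lb.t (@Lb.fm (nat_lit 9) t2)))))))))))
noncomputable def l5899 : Lb := (@Lb.d (nat_lit 2) (nat_lit 514) (nat_lit 130) (@Lb.g g8 (@Lb.g g9 (@Lb.g g10 (@Lb.g g11 (@Lb.r r427 (@Lb.r r106 (@Lb.r r25 (@Lb.d (nat_lit 0) (nat_lit 73) (nat_lit 137) (@Lb.fp (nat_lit 9) t51))))))))))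
noncomputable def l5900 : Lb := (@Lb.d (nat_lit 529) (nat_lit 0) (nat_lit 22) (@Lb.r r20 (@Lb.r r2153 (@Lb.r r386 (@Lb.g g11 (@Lb.g g6 (@Lb.g g5 (@Lb.g g4 (@Lb.d (nat_lit 1) (nat_lit 1) (nat_lit 129) (@Lb.fm (nat_lit 9) t51))))))))))
noncomputable def l5901 : Lb := (@Lb.d (nat_lit 2) (nat_lit 258) (nat_lit 0) (@Lb.g g8 (@Lb.g g9 (@Lb.r r25 (@Lb.d (nat_lit 9) (nat_lit 10) (nat_lit 2) (@Lb.fm (nat_lit 3) t21))))))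
noncomputable def l5902 : Lb := (@Lb.d (nat_lit 1) (nat_lit 2) (nat_lit 74) (@Lb.g g8 (@Lb.g g9 (@Lb.g g10 (@Lb.g g11 (@Lb.r r618 (@Lb.r r579 (@Lb.r r25 (@Lb.d (nat_lit 9) (nat_lit 33) (nat_lit 74) (@Lb.fm (nat_lit 9) t51))))))))))
noncomputable def l5903 : Lb := (@Lb.r r21 (@Lb.r r323 (@Lb.d (nat_lit 2) (nat_lit 512) (nat_lit 1) (@Lb.g g8 (@Lb.g g6 (@Lb.r r387 (@Lb.r r2152 (@Lb.r r25 (@Lb.d (nat_lit 290) (nat_lit 0) (nat_lit 98) (@Lb.fm (nat_lit 3) t40))))))))))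
noncomputable def l5904 : Lb := (@Lb.r r323 (@Lb.d (nat_lit 32) (nat_lit 264) (nat_lit 2) (@Lb.g g10 (@Lb.r r616 (@Lb.r r363 (@Lb.r r353 (@Lb.r r658 (@Lb.d (nat_lit 1) (nat_lit 105) (nat_lit 149) (@Lb.t (@Lb.fm (nat_lit 3) t2))))))))))
noncomputable def l5905 : Lb := (@Lb.r r323 (@Lb.d (nat_lit 2) (nat_lit 514) (nat_lit 2) (@Lb.g g8 (@Lb.g g9 (@Lb.g g10 (@Lb.r r362 (@Lb.r r387 (@Lb.r r25 (@Lb.d (nat_lit 9) (nat_lit 149) (nat_lit 264) (@Lb.t (@Lb.fm (nat_lit 9) t51)))))))))))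
noncomputable def l5906 : Lb := (@Lb.d (nat_lit 2) (nat_lit 514) (nat_lit 130) (@Lb.g g8 (@Lb.g g9 (@Lb.g g10 (@Lb.g g11 (@Lb.r r427 (@Lb.r r386 (@Lb.r r25 (@Lb.d (nat_lit 9) (nat_lit 137) (nat_lit 324) (@Lb.fm (nat_lit 9) t51))))))))))
noncomputable def l5907 : Lb := (@Lb.r r323 (@Lb.d (nat_lit 1) (nat_lit 514) (nat_lit 1) (@Lb.g g8 (@Lb.g g9 (@Lb.g g6 (@Lb.r r387 (@Lb.r r2153 (@Lb.r r36 (@Lb.d (nat_lit 297) (nat_lit 2) (nat_lit 98) (@Lb.t (@Lb.fm (nat_lit 9) t40)))))))))))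
noncomputable def l5908 : Lb := (@Lb.r r323 (@Lb.d (nat_lit 2) (nat_lit 2) (nat_lit 1) (@Lb.g g8 (@Lb.g g9 (@Lb.g g6 (@Lb.r r387 (@Lb.r r2153 (@Lb.r r36 (@Lb.d (nat_lit 290) (nat_lit 0) (nat_lit 98) (@Lb.t (@Lb.fm (nat_lit 9) t40)))))))))))
noncomputable def l5909 : Lb := (@Lb.r r21 (@Lb.d (nat_lit 0) (nat_lit 264) (nat_lit 130) (@Lb.g g8 (@Lb.g g10 (@Lb.g g11 (@Lb.r r2443 (@Lb.r r2345 (@Lb.r r2468 (@Lb.r r390 (@Lb.d (nat_lit 105) (nat_lit 130) (nat_lit 138) (@Lb.t (@Lb.fm (nat_lit 9) t51))))))))))))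
noncomputable def l5910 : Lb := (@Lb.r r360 (@Lb.r r2345 (@Lb.r r1367 (@Lb.r r2178 (@Lb.r r2596 (@Lb.fm (nat_lit 1) t296))))))
noncomputable def l5911 : Lb := (@Lb.d (nat_lit 0) (nat_lit 544) (nat_lit 130) (@Lb.g g8 (@Lb.g g10 (@Lb.g g11 (@Lb.r r618 (@Lb.r r149 (@Lb.r r340 (@Lb.r r2587 (@Lb.d (nat_lit 329) (nat_lit 73) (nat_lit 258) (@Lb.t (@Lb.fp (nat_lit 9) t71)))))))))))
noncomputable def l5912 : Lb := (@Lb.d (nat_lit 5) (nat_lit 256) (nat_lit 130) (@Lb.g g8 (@Lb.g g9 (@Lb.g g10 (@Lb.g g11 (@Lb.r r2459 (@Lb.r r1557 (@Lb.r r676 (@Lb.r r1094 (@Lb.r r2180 (@Lb.d (nat_lit 9) (nat_lit 154) (nat_lit 420) (@Lb.fp (nat_lit 9) t51))))))))))))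
noncomputable def l5913 : Lb := (@Lb.d (nat_lit 162) (nat_lit 512) (nat_lit 0) (@Lb.g g8 (@Lb.r r423 (@Lb.r r1446 (@Lb.r r2469 (@Lb.r r596 (@Lb.d (nat_lit 404) (nat_lit 38) (nat_lit 74) (@Lb.t (@Lb.fp (nat_lit 3) t322)))))))))
noncomputable def l5914 : Lb := (@Lb.r r579 (@Lb.d (nat_lit 5) (nat_lit 257) (nat_lit 85) (@Lb.fm (nat_lit 1) t2)))
noncomputable def l5915 : Lb := (@Lb.d (nat_lit 0) (nat_lit 264) (nat_lit 2) (@Lb.g g8 (@Lb.g g10 (@Lb.r r1427 (@Lb.r r101 (@Lb.r r24 (@Lb.d (nat_lit 514) (nat_lit 0) (nat_lit 2) (@Lb.fm (nat_lit 3) t145))))))))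
noncomputable def l5916 : Lb := (@Lb.r r81 (@Lb.d (nat_lit 10) (nat_lit 32) (nat_lit 129) (@Lb.g g8 (@Lb.g g6 (@Lb.g g11 (@Lb.r r149 (@Lb.r r360 (@Lb.r r583 (@Lb.d (nat_lit 146) (nat_lit 22) (nat_lit 68) (@Lb.t (@Lb.fp (nat_lit 9) t50)))))))))))
noncomputable def l5917 : Lb := (@Lb.r r82 (@Lb.d (nat_lit 2) (nat_lit 272) (nat_lit 0) (@Lb.g g8 (@Lb.g g9 (@Lb.g g11 (@Lb.r r2601 (@Lb.r r2596 (@Lb.r r2631 (@Lb.r r386 (@Lb.d (nat_lit 2) (nat_lit 10) (nat_lit 17) (@Lb.t (@Lb.fp (nat_lit 9) t739))))))))))))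
noncomputable def l5918 : Lb := (@Lb.d (nat_lit 548) (nat_lit 6) (nat_lit 384) (@Lb.r r24 (@Lb.r r97 (@Lb.r r406 (@Lb.g g11 (@Lb.g g5 (@Lb.d (nat_lit 0) (nat_lit 1) (nat_lit 0) (@Lb.fm (nat_lit 3) t1428))))))))
noncomputable def l5919 : Lb := (@Lb.d (nat_lit 548) (nat_lit 518) (nat_lit 256) (@Lb.r r24 (@Lb.r r97 (@Lb.r r406 (@Lb.g g11 (@Lb.g g5 (@Lb.d (nat_lit 0) (nat_lit 1) (nat_lit 0) (@Lb.fm (nat_lit 3) t1428))))))))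
noncomputable def l5920 : Lb := (@Lb.g g6 (@Lb.r r24 (@Lb.r r101 (@Lb.r r402 (@Lb.d (nat_lit 5) (nat_lit 257) (nat_lit 85) (@Lb.t (@Lb.fp (nat_lit 3) t1614)))))))
noncomputable def l5921 : Lb := (@Lb.r r82 (@Lb.d (nat_lit 34) (nat_lit 258) (nat_lit 136) (@Lb.g g8 (@Lb.g g9 (@Lb.g g11 (@Lb.r r402 (@Lb.r r359 (@Lb.r r536 (@Lb.d (nat_lit 106) (nat_lit 96) (nat_lit 130) (@Lb.t (@Lb.fm (nat_lit 9) t1615)))))))))))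
noncomputable def l5922 : Lb := (@Lb.r r89 (@Lb.r r2150 (@Lb.d (nat_lit 266) (nat_lit 521) (nat_lit 34) (@Lb.fp (nat_lit 1) t1616))))
noncomputable def l5923 : Lb := (@Lb.r r70 (@Lb.r r275 (@Lb.d (nat_lit 2) (nat_lit 393) (nat_lit 0) (@Lb.g g8 (@Lb.g g5 (@Lb.r r419 (@Lb.r r2146 (@Lb.r r72 (@Lb.d (nat_lit 34) (nat_lit 8) (nat_lit 32) (@Lb.fm (nat_lit 3) t1617))))))))))
noncomputable def l5924 : Lb := (@Lb.d (nat_lit 2) (nat_lit 514) (nat_lit 130) (@Lb.g g8 (@Lb.g g9 (@Lb.g g10 (@Lb.g g11 (@Lb.r r610 (@Lb.r r404 (@Lb.r r619 (@Lb.r r537 (@Lb.r r516 (@Lb.d (nat_lit 4) (nat_lit 72) (nat_lit 130) (@Lb.fm (nat_lit 9) t1618))))))))))))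
noncomputable def l5925 : Lb := (@Lb.d (nat_lit 0) (nat_lit 264) (nat_lit 130) (@Lb.g g10 (@Lb.g g11 (@Lb.r r353 (@Lb.r r663 (@Lb.r r328 (@Lb.r r134 (@Lb.d (nat_lit 41) (nat_lit 2) (nat_lit 1) (@Lb.fm (nat_lit 3) t2)))))))))
noncomputable def l5926 : Lb := (@Lb.r r21 (@Lb.r r70 (@Lb.r r263 (@Lb.d (nat_lit 65) (nat_lit 256) (nat_lit 0) (@Lb.g g4 (@Lb.r r2631 (@Lb.r r402 (@Lb.r r97 (@Lb.d (nat_lit 1) (nat_lit 66) (nat_lit 0) (@Lb.t (@Lb.fp (nat_lit 3) t739)))))))))))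
noncomputable def l5927 : Lb := (@Lb.d (nat_lit 138) (nat_lit 614) (nat_lit 577) (@Lb.r r553 (@Lb.r r427 (@Lb.r r406 (@Lb.g g7 (@Lb.g g5 (@Lb.g g4 (@Lb.d (nat_lit 1) (nat_lit 10) (nat_lit 128) (@Lb.t (@Lb.fp (nat_lit 9) t1619))))))))))
noncomputable def l5928 : Lb := (@Lb.d (nat_lit 0) (nat_lit 256) (nat_lit 130) (@Lb.g g9 (@Lb.g g10 (@Lb.g g11 (@Lb.r r419 (@Lb.r r98 (@Lb.d (nat_lit 0) (nat_lit 9) (nat_lit 9) (@Lb.t (@Lb.fm (nat_lit 9) t369)))))))))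
noncomputable def l5929 : Lb := (@Lb.d (nat_lit 2) (nat_lit 258) (nat_lit 130) (@Lb.g g8 (@Lb.g g9 (@Lb.g g10 (@Lb.g g11 (@Lb.r r162 (@Lb.r r168 (@Lb.r r425 (@Lb.r r279 (@Lb.r r548 (@Lb.d (nat_lit 265) (nat_lit 2) (nat_lit 106) (@Lb.fm (nat_lit 9) t991))))))))))))
noncomputable def l5930 : Lb := (@Lb.d (nat_lit 612) (nat_lit 34) (nat_lit 82) (@Lb.r r276 (@Lb.r r1366 (@Lb.r r267 (@Lb.g g6 (@Lb.g g5 (@Lb.g g4 (@Lb.d (nat_lit 65) (nat_lit 33) (nat_lit 1) (@Lb.t (@Lb.fp (nat_lit 9) t744))))))))))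
noncomputable def l5931 : Lb := (@Lb.d (nat_lit 0) (nat_lit 294) (nat_lit 0) (@Lb.g g9 (@Lb.r r535 (@Lb.r r328 (@Lb.r r134 (@Lb.d (nat_lit 17) (nat_lit 2) (nat_lit 0) (@Lb.t (@Lb.fm (nat_lit 3) t61))))))))
noncomputable def l5932 : Lb := (@Lb.r r70 (@Lb.d (nat_lit 36) (nat_lit 256) (nat_lit 136) (@Lb.g g8 (@Lb.g g9 (@Lb.g g11 (@Lb.r r105 (@Lb.r r1174 (@Lb.r r2408 (@Lb.r r1415 (@Lb.d (nat_lit 354) (nat_lit 34) (nat_lit 361) (@Lb.t (@Lb.fp (nat_lit 9) t1481))))))))))))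
noncomputable def l5933 : Lb := (@Lb.d (nat_lit 2) (nat_lit 258) (nat_lit 130) (@Lb.g g8 (@Lb.g g9 (@Lb.g g10 (@Lb.g g11 (@Lb.r r169 (@Lb.r r296 (@Lb.r r391 (@Lb.r r386 (@Lb.r r132 (@Lb.d (nat_lit 2) (nat_lit 10) (nat_lit 89) (@Lb.fm (nat_lit 9) t590))))))))))))
noncomputable def l5934 : Lb := (@Lb.d (nat_lit 0) (nat_lit 5) (nat_lit 0) (@Lb.g g5 (@Lb.d (nat_lit 292) (nat_lit 6) (nat_lit 33) (@Lb.t (@Lb.fm (nat_lit 3) t743)))))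
noncomputable def l5935 : Lb := (@Lb.r r134 (@Lb.r r324 (@Lb.r r411 (@Lb.r r609 (@Lb.r r36 (@Lb.d (nat_lit 0) (nat_lit 576) (nat_lit 85) (@Lb.fp (nat_lit 1) t479)))))))
noncomputable def l5936 : Lb := (@Lb.d (nat_lit 2) (nat_lit 258) (nat_lit 73) (@Lb.g g8 (@Lb.g g9 (@Lb.g g10 (@Lb.g g11 (@Lb.r r2705 (@Lb.r r356 (@Lb.r r667 (@Lb.r r586 (@Lb.r r1540 (@Lb.d (nat_lit 289) (nat_lit 10) (nat_lit 161) (@Lb.fm (nat_lit 9) t145))))))))))))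
noncomputable def l5937 : Lb := (@Lb.d (nat_lit 1) (nat_lit 66) (nat_lit 130) (@Lb.g g4 (@Lb.g g9 (@Lb.g g10 (@Lb.g g11 (@Lb.r r419 (@Lb.r r98 (@Lb.d (nat_lit 1) (nat_lit 4) (nat_lit 136) (@Lb.fm (nat_lit 9) t51)))))))))
noncomputable def l5938 : Lb := (@Lb.d (nat_lit 0) (nat_lit 8) (nat_lit 128) (@Lb.g g10 (@Lb.g g11 (@Lb.r r1361 (@Lb.r r2727 (@Lb.r r1368 (@Lb.r r2646 (@Lb.d (nat_lit 666) (nat_lit 164) (nat_lit 256) (@Lb.fm (nat_lit 3) t479)))))))))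
noncomputable def l5939 : Lb := (@Lb.d (nat_lit 0) (nat_lit 256) (nat_lit 128) (@Lb.g g10 (@Lb.g g11 (@Lb.r r2626 (@Lb.d (nat_lit 0) (nat_lit 0) (nat_lit 384) (@Lb.fm (nat_lit 3) t2))))))
noncomputable def l5940 : Lb := (@Lb.d (nat_lit 97) (nat_lit 337) (nat_lit 521) (@Lb.r r583 (@Lb.r r2452 (@Lb.r r1129 (@Lb.g g7 (@Lb.g g10 (@Lb.g g4 (@Lb.d (nat_lit 1) (nat_lit 24) (nat_lit 82) (@Lb.r r145 (@Lb.t (@Lb.fm (nat_lit 9) t145)))))))))))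
noncomputable def l5941 : Lb := (@Lb.d (nat_lit 1) (nat_lit 21) (nat_lit 104) (@Lb.r r260 (@Lb.r r267 (@Lb.r r360 (@Lb.r r105 (@Lb.g g7 (@Lb.g g10 (@Lb.g g5 (@Lb.g g4 (@Lb.d (nat_lit 42) (nat_lit 0) (nat_lit 65) (@Lb.fm (nat_lit 9) t145)))))))))))
noncomputable def l5942 : Lb := (@Lb.d (nat_lit 130) (nat_lit 2) (nat_lit 2) (@Lb.g g8 (@Lb.g g9 (@Lb.g g10 (@Lb.r r263 (@Lb.r r2713 (@Lb.r r2712 (@Lb.r r2122 (@Lb.d (nat_lit 533) (nat_lit 40) (nat_lit 148) (@Lb.t (@Lb.fp (nat_lit 9) t145)))))))))))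
noncomputable def l5943 : Lb := (@Lb.r r82 (@Lb.d (nat_lit 0) (nat_lit 164) (nat_lit 128) (@Lb.g g8 (@Lb.g g5 (@Lb.g g11 (@Lb.r r658 (@Lb.r r2435 (@Lb.d (nat_lit 0) (nat_lit 1) (nat_lit 602) (@Lb.t (@Lb.fm (nat_lit 9) t50))))))))))
noncomputable def l5944 : Lb := (@Lb.d (nat_lit 0) (nat_lit 34) (nat_lit 0) (@Lb.g g5 (@Lb.r r299 (@Lb.r r134 (@Lb.r r292 (@Lb.r r405 (@Lb.d (nat_lit 148) (nat_lit 89) (nat_lit 154) (@Lb.t (@Lb.fp (nat_lit 3) t334)))))))))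
noncomputable def l5945 : Lb := (@Lb.r r82 (@Lb.d (nat_lit 0) (nat_lit 676) (nat_lit 128) (@Lb.g g5 (@Lb.g g11 (@Lb.r r658 (@Lb.r r2435 (@Lb.d (nat_lit 0) (nat_lit 1) (nat_lit 602) (@Lb.fm (nat_lit 3) t50))))))))
noncomputable def l5946 : Lb := (@Lb.d (nat_lit 2) (nat_lit 258) (nat_lit 74) (@Lb.g g8 (@Lb.g g9 (@Lb.g g10 (@Lb.g g11 (@Lb.r r657 (@Lb.r r356 (@Lb.r r667 (@Lb.r r586 (@Lb.r r516 (@Lb.d (nat_lit 38) (nat_lit 8) (nat_lit 129) (@Lb.fm (nat_lit 9) t145))))))))))))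
noncomputable def l5947 : Lb := (@Lb.d (nat_lit 2) (nat_lit 514) (nat_lit 74) (@Lb.g g8 (@Lb.g g9 (@Lb.g g10 (@Lb.g g11 (@Lb.r r657 (@Lb.r r356 (@Lb.r r667 (@Lb.r r586 (@Lb.r r516 (@Lb.d (nat_lit 33) (nat_lit 10) (nat_lit 129) (@Lb.fm (nat_lit 9) t145))))))))))))
noncomputable def l5948 : Lb := (@Lb.d (nat_lit 358) (nat_lit 422) (nat_lit 581) (@Lb.r r1432 (@Lb.r r330 (@Lb.r r343 (@Lb.g g5 (@Lb.g g4 (@Lb.d (nat_lit 18) (nat_lit 133) (nat_lit 0) (@Lb.fp (nat_lit 3) t412))))))))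
noncomputable def l5949 : Lb := (@Lb.r r323 (@Lb.d (nat_lit 2) (nat_lit 256) (nat_lit 1) (@Lb.g g8 (@Lb.g g6 (@Lb.r r387 (@Lb.r r2073 (@Lb.d (nat_lit 33) (nat_lit 5) (nat_lit 96) (@Lb.fp (nat_lit 3) t382))))))))
noncomputable def l5950 : Lb := (@Lb.d (nat_lit 0) (nat_lit 266) (nat_lit 1) (@Lb.g g9 (@Lb.g g10 (@Lb.r r2193 (@Lb.r r146 (@Lb.d (nat_lit 0) (nat_lit 70) (nat_lit 32) (@Lb.fp (nat_lit 3) t75)))))))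
noncomputable def l5951 : Lb := (@Lb.r r81 (@Lb.d (nat_lit 10) (nat_lit 544) (nat_lit 129) (@Lb.g g8 (@Lb.g g6 (@Lb.g g11 (@Lb.r r149 (@Lb.r r360 (@Lb.r r583 (@Lb.d (nat_lit 146) (nat_lit 22) (nat_lit 132) (@Lb.t (@Lb.fp (nat_lit 9) t98)))))))))))
noncomputable def l5952 : Lb := (@Lb.d (nat_lit 1) (nat_lit 384) (nat_lit 26) (@Lb.r r2145 (@Lb.r r1174 (@Lb.r r2404 (@Lb.g g7 (@Lb.d (nat_lit 128) (nat_lit 16) (nat_lit 320) (@Lb.r r578 (@Lb.t (@Lb.fm (nat_lit 3) t116)))))))))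
noncomputable def l5953 : Lb := (@Lb.r r280 (@Lb.r r1621 (@Lb.r r2391 (@Lb.r r2178 (@Lb.r r1572 (@Lb.d (nat_lit 0) (nat_lit 261) (nat_lit 81) (@Lb.fp (nat_lit 1) t124)))))))
noncomputable def l5954 : Lb := (@Lb.d (nat_lit 130) (nat_lit 512) (nat_lit 0) (@Lb.g g4 (@Lb.r r1625 (@Lb.r r2395 (@Lb.r r2178 (@Lb.r r2328 (@Lb.d (nat_lit 581) (nat_lit 97) (nat_lit 144) (@Lb.t (@Lb.fm (nat_lit 3) t124)))))))))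
noncomputable def l5955 : Lb := (@Lb.d (nat_lit 0) (nat_lit 8) (nat_lit 2) (@Lb.g g8 (@Lb.g g10 (@Lb.r r1427 (@Lb.r r101 (@Lb.r r24 (@Lb.d (nat_lit 512) (nat_lit 0) (nat_lit 2) (@Lb.fm (nat_lit 3) t145))))))))
noncomputable def l5956 : Lb := (@Lb.d (nat_lit 106) (nat_lit 164) (nat_lit 86) (@Lb.r r408 (@Lb.r r2145 (@Lb.r r583 (@Lb.g g6 (@Lb.g g4 (@Lb.d (nat_lit 65) (nat_lit 4) (nat_lit 17) (@Lb.r r387 (@Lb.fp (nat_lit 3) t116)))))))))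
noncomputable def l5957 : Lb := (@Lb.d (nat_lit 0) (nat_lit 2) (nat_lit 74) (@Lb.g g8 (@Lb.g g9 (@Lb.g g10 (@Lb.g g11 (@Lb.r r1451 (@Lb.r r98 (@Lb.r r292 (@Lb.r r2069 (@Lb.r r1060 (@Lb.d (nat_lit 33) (nat_lit 69) (nat_lit 0) (@Lb.fp (nat_lit 9) t1089))))))))))))
noncomputable def l5958 : Lb := (@Lb.d (nat_lit 34) (nat_lit 258) (nat_lit 130) (@Lb.g g8 (@Lb.g g9 (@Lb.g g10 (@Lb.g g11 (@Lb.r r2699 (@Lb.r r164 (@Lb.r r1173 (@Lb.r r1622 (@Lb.r r2212 (@Lb.d (nat_lit 130) (nat_lit 1) (nat_lit 106) (@Lb.fm (nat_lit 9) t1620))))))))))))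
noncomputable def l5959 : Lb := (@Lb.r r323 (@Lb.d (nat_lit 2) (nat_lit 514) (nat_lit 0) (@Lb.g g8 (@Lb.g g9 (@Lb.g g10 (@Lb.r r427 (@Lb.r r106 (@Lb.r r25 (@Lb.d (nat_lit 282) (nat_lit 9) (nat_lit 18) (@Lb.t (@Lb.fm (nat_lit 9) t1564)))))))))))
noncomputable def l5960 : Lb := (@Lb.r r70 (@Lb.r r263 (@Lb.d (nat_lit 0) (nat_lit 322) (nat_lit 0) (@Lb.g g8 (@Lb.g g9 (@Lb.r r2347 (@Lb.r r2154 (@Lb.r r2084 (@Lb.d (nat_lit 0) (nat_lit 73) (nat_lit 2) (@Lb.fm (nat_lit 3) t63))))))))))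
noncomputable def l5961 : Lb := (@Lb.d (nat_lit 102) (nat_lit 357) (nat_lit 324) (@Lb.r r2452 (@Lb.r r2665 (@Lb.r r363 (@Lb.g g10 (@Lb.g g5 (@Lb.g g4 (@Lb.d (nat_lit 66) (nat_lit 5) (nat_lit 18) (@Lb.t (@Lb.fp (nat_lit 9) t1621))))))))))
noncomputable def l5962 : Lb := (@Lb.d (nat_lit 129) (nat_lit 514) (nat_lit 130) (@Lb.g g8 (@Lb.g g9 (@Lb.g g10 (@Lb.g g11 (@Lb.r r1675 (@Lb.r r164 (@Lb.r r2197 (@Lb.r r2646 (@Lb.r r164 (@Lb.d (nat_lit 393) (nat_lit 128) (nat_lit 362) (@Lb.fm (nat_lit 9) t1622))))))))))))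
noncomputable def l5963 : Lb := (@Lb.d (nat_lit 2) (nat_lit 2) (nat_lit 2) (@Lb.g g8 (@Lb.g g9 (@Lb.g g10 (@Lb.g g11 (@Lb.r r427 (@Lb.r r1122 (@Lb.r r25 (@Lb.d (nat_lit 36) (nat_lit 137) (nat_lit 34) (@Lb.fp (nat_lit 9) t1623))))))))))
noncomputable def l5964 : Lb := (@Lb.d (nat_lit 2) (nat_lit 544) (nat_lit 128) (@Lb.g g8 (@Lb.g g11 (@Lb.r r2712 (@Lb.r r293 (@Lb.r r2587 (@Lb.r r2178 (@Lb.d (nat_lit 96) (nat_lit 98) (nat_lit 276) (@Lb.fm (nat_lit 3) t1624)))))))))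
noncomputable def l5965 : Lb := (@Lb.r r70 (@Lb.r r263 (@Lb.d (nat_lit 544) (nat_lit 258) (nat_lit 0) (@Lb.g g8 (@Lb.g g9 (@Lb.r r406 (@Lb.r r2627 (@Lb.r r25 (@Lb.d (nat_lit 2) (nat_lit 144) (nat_lit 576) (@Lb.fm (nat_lit 3) t898))))))))))
noncomputable def l5966 : Lb := (@Lb.d (nat_lit 0) (nat_lit 421) (nat_lit 598) (@Lb.r r1426 (@Lb.r r1617 (@Lb.r r1559 (@Lb.r r1352 (@Lb.g g6 (@Lb.d (nat_lit 16) (nat_lit 0) (nat_lit 1) (@Lb.t (@Lb.fp (nat_lit 3) t927)))))))))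
noncomputable def l5967 : Lb := (@Lb.r r323 (@Lb.d (nat_lit 137) (nat_lit 521) (nat_lit 1) (@Lb.g g8 (@Lb.g g9 (@Lb.g g10 (@Lb.r r426 (@Lb.r r583 (@Lb.r r1177 (@Lb.r r408 (@Lb.d (nat_lit 85) (nat_lit 154) (nat_lit 586) (@Lb.t (@Lb.fp (nat_lit 9) t125))))))))))))
noncomputable def l5968 : Lb := (@Lb.d (nat_lit 0) (nat_lit 256) (nat_lit 133) (@Lb.g g6 (@Lb.g g11 (@Lb.r r2659 (@Lb.r r101 (@Lb.r r24 (@Lb.d (nat_lit 386) (nat_lit 10) (nat_lit 421) (@Lb.fm (nat_lit 3) t592))))))))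
noncomputable def l5969 : Lb := (@Lb.r r277 (@Lb.d (nat_lit 386) (nat_lit 256) (nat_lit 66) (@Lb.g g8 (@Lb.g g10 (@Lb.g g11 (@Lb.r r2642 (@Lb.r r1433 (@Lb.r r295 (@Lb.d (nat_lit 420) (nat_lit 33) (nat_lit 90) (@Lb.t (@Lb.fm (nat_lit 9) t1039)))))))))))
noncomputable def l5970 : Lb := (@Lb.r r323 (@Lb.d (nat_lit 137) (nat_lit 265) (nat_lit 1) (@Lb.g g8 (@Lb.g g9 (@Lb.g g10 (@Lb.r r426 (@Lb.r r583 (@Lb.r r1177 (@Lb.r r408 (@Lb.d (nat_lit 90) (nat_lit 152) (nat_lit 586) (@Lb.t (@Lb.fp (nat_lit 9) t125))))))))))))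
noncomputable def l5971 : Lb := (@Lb.d (nat_lit 2) (nat_lit 514) (nat_lit 130) (@Lb.g g8 (@Lb.g g9 (@Lb.g g10 (@Lb.g g11 (@Lb.r r2411 (@Lb.r r386 (@Lb.r r97 (@Lb.r r24 (@Lb.d (nat_lit 256) (nat_lit 0) (nat_lit 153) (@Lb.fm (nat_lit 9) t61)))))))))))
noncomputable def l5972 : Lb := (@Lb.d (nat_lit 0) (nat_lit 512) (nat_lit 73) (@Lb.g g10 (@Lb.g g11 (@Lb.r r1185 (@Lb.r r2658 (@Lb.r r579 (@Lb.r r2564 (@Lb.d (nat_lit 2) (nat_lit 81) (nat_lit 522) (@Lb.fm (nat_lit 3) t242)))))))))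
noncomputable def l5973 : Lb := (@Lb.d (nat_lit 2) (nat_lit 2) (nat_lit 130) (@Lb.g g8 (@Lb.g g9 (@Lb.g g10 (@Lb.g g11 (@Lb.r r2411 (@Lb.r r386 (@Lb.r r97 (@Lb.r r24 (@Lb.d (nat_lit 258) (nat_lit 0) (nat_lit 153) (@Lb.fm (nat_lit 9) t61)))))))))))
noncomputable def l5974 : Lb := (@Lb.d (nat_lit 9) (nat_lit 40) (nat_lit 65) (@Lb.g g8 (@Lb.g g9 (@Lb.g g10 (@Lb.g g11 (@Lb.r r682 (@Lb.r r676 (@Lb.r r551 (@Lb.r r533 (@Lb.d (nat_lit 133) (nat_lit 32) (nat_lit 74) (@Lb.fp (nat_lit 9) t74)))))))))))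
noncomputable def l5975 : Lb := (@Lb.d (nat_lit 137) (nat_lit 9) (nat_lit 1) (@Lb.g g8 (@Lb.g g9 (@Lb.g g10 (@Lb.r r675 (@Lb.r r170 (@Lb.r r529 (@Lb.r r392 (@Lb.d (nat_lit 150) (nat_lit 32) (nat_lit 74) (@Lb.t (@Lb.fp (nat_lit 9) t264)))))))))))
noncomputable def l5976 : Lb := (@Lb.d (nat_lit 6) (nat_lit 70) (nat_lit 81) (@Lb.r r609 (@Lb.r r619 (@Lb.r r584 (@Lb.r r326 (@Lb.g g7 (@Lb.g g6 (@Lb.g g5 (@Lb.d (nat_lit 4) (nat_lit 1) (nat_lit 65) (@Lb.t (@Lb.fm (nat_lit 9) t68)))))))))))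
noncomputable def l5977 : Lb := (@Lb.d (nat_lit 2) (nat_lit 9) (nat_lit 66) (@Lb.g g8 (@Lb.g g9 (@Lb.g g10 (@Lb.g g11 (@Lb.r r1194 (@Lb.r r424 (@Lb.r r279 (@Lb.r r1553 (@Lb.r r2084 (@Lb.d (nat_lit 1) (nat_lit 97) (nat_lit 586) (@Lb.fp (nat_lit 9) t594))))))))))))
noncomputable def l5978 : Lb := (@Lb.d (nat_lit 0) (nat_lit 512) (nat_lit 73) (@Lb.g g10 (@Lb.g g11 (@Lb.r r642 (@Lb.r r2707 (@Lb.r r2626 (@Lb.d (nat_lit 0) (nat_lit 24) (nat_lit 278) (@Lb.fm (nat_lit 3) t305))))))))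
noncomputable def l5979 : Lb := (@Lb.d (nat_lit 0) (nat_lit 0) (nat_lit 130) (@Lb.g g10 (@Lb.g g11 (@Lb.r r642 (@Lb.r r2707 (@Lb.r r2626 (@Lb.d (nat_lit 0) (nat_lit 17) (nat_lit 276) (@Lb.fm (nat_lit 3) t305))))))))
noncomputable def l5980 : Lb := (@Lb.d (nat_lit 2) (nat_lit 9) (nat_lit 129) (@Lb.g g8 (@Lb.g g9 (@Lb.g g10 (@Lb.g g11 (@Lb.r r162 (@Lb.r r552 (@Lb.r r665 (@Lb.r r539 (@Lb.r r516 (@Lb.d (nat_lit 328) (nat_lit 73) (nat_lit 585) (@Lb.fm (nat_lit 9) t1234))))))))))))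
noncomputable def l5981 : Lb := (@Lb.d (nat_lit 0) (nat_lit 520) (nat_lit 2) (@Lb.g g10 (@Lb.r r1427 (@Lb.r r101 (@Lb.r r24 (@Lb.d (nat_lit 290) (nat_lit 5) (nat_lit 18) (@Lb.t (@Lb.fp (nat_lit 3) t145))))))))
noncomputable def l5982 : Lb := (@Lb.d (nat_lit 650) (nat_lit 545) (nat_lit 554) (@Lb.r r2601 (@Lb.r r1451 (@Lb.r r2454 (@Lb.g g7 (@Lb.g g5 (@Lb.g g4 (@Lb.d (nat_lit 578) (nat_lit 5) (nat_lit 64) (@Lb.r r74 (@Lb.t (@Lb.fp (nat_lit 9) t1625)))))))))))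
noncomputable def l5983 : Lb := (@Lb.d (nat_lit 2) (nat_lit 40) (nat_lit 65) (@Lb.g g8 (@Lb.g g9 (@Lb.g g10 (@Lb.g g11 (@Lb.r r2218 (@Lb.r r580 (@Lb.r r1687 (@Lb.r r1429 (@Lb.r r1044 (@Lb.d (nat_lit 644) (nat_lit 101) (nat_lit 328) (@Lb.fp (nat_lit 9) t1625))))))))))))
noncomputable def l5984 : Lb := (@Lb.d (nat_lit 2) (nat_lit 258) (nat_lit 130) (@Lb.g g8 (@Lb.g g9 (@Lb.g g10 (@Lb.g g11 (@Lb.r r2667 (@Lb.r r162 (@Lb.r r660 (@Lb.r r425 (@Lb.r r2084 (@Lb.d (nat_lit 154) (nat_lit 73) (nat_lit 361) (@Lb.fm (nat_lit 9) t1371))))))))))))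
noncomputable def l5985 : Lb := (@Lb.d (nat_lit 2) (nat_lit 0) (nat_lit 0) (@Lb.g g8 (@Lb.r r134 (@Lb.r r328 (@Lb.r r407 (@Lb.r r609 (@Lb.d (nat_lit 0) (nat_lit 0) (nat_lit 144) (@Lb.t (@Lb.fm (nat_lit 3) t334)))))))))
noncomputable def l5986 : Lb := (@Lb.r r275 (@Lb.d (nat_lit 9) (nat_lit 2) (nat_lit 2) (@Lb.g g8 (@Lb.g g9 (@Lb.g g10 (@Lb.r r1689 (@Lb.r r531 (@Lb.r r386 (@Lb.d (nat_lit 545) (nat_lit 0) (nat_lit 153) (@Lb.t (@Lb.fm (nat_lit 9) t546)))))))))))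
noncomputable def l5987 : Lb := (@Lb.d (nat_lit 2) (nat_lit 296) (nat_lit 65) (@Lb.g g8 (@Lb.g g9 (@Lb.g g10 (@Lb.g g11 (@Lb.r r1706 (@Lb.r r1700 (@Lb.r r1575 (@Lb.r r1557 (@Lb.d (nat_lit 389) (nat_lit 96) (nat_lit 586) (@Lb.fp (nat_lit 9) t74)))))))))))
noncomputable def l5988 : Lb := (@Lb.d (nat_lit 86) (nat_lit 64) (nat_lit 133) (@Lb.r r680 (@Lb.r r289 (@Lb.r r426 (@Lb.g g7 (@Lb.g g8 (@Lb.d (nat_lit 17) (nat_lit 0) (nat_lit 0) (@Lb.fm (nat_lit 3) t261))))))))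
noncomputable def l5989 : Lb := (@Lb.d (nat_lit 6) (nat_lit 577) (nat_lit 0) (@Lb.r r289 (@Lb.r r279 (@Lb.r r584 (@Lb.r r326 (@Lb.g g7 (@Lb.g g6 (@Lb.g g4 (@Lb.d (nat_lit 0) (nat_lit 0) (nat_lit 65) (@Lb.t (@Lb.fp (nat_lit 9) t68)))))))))))
noncomputable def l5990 : Lb := (@Lb.d (nat_lit 4) (nat_lit 584) (nat_lit 10) (@Lb.r r24 (@Lb.r r82 (@Lb.r r161 (@Lb.r r675 (@Lb.g g6 (@Lb.g g5 (@Lb.d (nat_lit 0) (nat_lit 1) (nat_lit 1) (@Lb.r r291 (@Lb.fp (nat_lit 3) t546))))))))))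
noncomputable def l5991 : Lb := (@Lb.d (nat_lit 4) (nat_lit 258) (nat_lit 66) (@Lb.g g8 (@Lb.g g9 (@Lb.g g10 (@Lb.g g11 (@Lb.r r1451 (@Lb.r r386 (@Lb.r r1121 (@Lb.r r24 (@Lb.d (nat_lit 617) (nat_lit 137) (nat_lit 168) (@Lb.fm (nat_lit 9) t61)))))))))))
noncomputable def l5992 : Lb := (@Lb.d (nat_lit 4) (nat_lit 544) (nat_lit 64) (@Lb.g g8 (@Lb.g g11 (@Lb.r r1634 (@Lb.r r401 (@Lb.r r2659 (@Lb.d (nat_lit 322) (nat_lit 26) (nat_lit 298) (@Lb.fp (nat_lit 3) t242))))))))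
noncomputable def l5993 : Lb := (@Lb.d (nat_lit 128) (nat_lit 0) (nat_lit 64) (@Lb.g g11 (@Lb.r r1622 (@Lb.r r20 (@Lb.r r409 (@Lb.r r2663 (@Lb.d (nat_lit 666) (nat_lit 26) (nat_lit 682) (@Lb.t (@Lb.fm (nat_lit 3) t242)))))))))
noncomputable def l5994 : Lb := (@Lb.d (nat_lit 0) (nat_lit 544) (nat_lit 136) (@Lb.g g11 (@Lb.r r421 (@Lb.r r2470 (@Lb.r r2395 (@Lb.r r24 (@Lb.d (nat_lit 80) (nat_lit 0) (nat_lit 678) (@Lb.t (@Lb.fm (nat_lit 3) t1261)))))))))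
noncomputable def l5995 : Lb := (@Lb.d (nat_lit 2) (nat_lit 38) (nat_lit 5) (@Lb.g g8 (@Lb.g g9 (@Lb.g g10 (@Lb.g g11 (@Lb.r r1706 (@Lb.r r676 (@Lb.r r551 (@Lb.r r533 (@Lb.r r1060 (@Lb.d (nat_lit 393) (nat_lit 1) (nat_lit 586) (@Lb.fp (nat_lit 9) t264))))))))))))
noncomputable def l5996 : Lb := (@Lb.d (nat_lit 2) (nat_lit 2) (nat_lit 130) (@Lb.g g8 (@Lb.g g9 (@Lb.g g10 (@Lb.g g11 (@Lb.r r2218 (@Lb.r r420 (@Lb.r r283 (@Lb.r r1557 (@Lb.r r1060 (@Lb.d (nat_lit 640) (nat_lit 66) (nat_lit 330) (@Lb.fm (nat_lit 9) t284))))))))))))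
noncomputable def l5997 : Lb := (@Lb.d (nat_lit 0) (nat_lit 65) (nat_lit 586) (@Lb.r r386 (@Lb.r r339 (@Lb.g g7 (@Lb.g g6 (@Lb.g g5 (@Lb.d (nat_lit 0) (nat_lit 0) (nat_lit 65) (@Lb.t (@Lb.fm (nat_lit 9) t1626)))))))))
noncomputable def l5998 : Lb := (@Lb.r r82 (@Lb.r r275 (@Lb.d (nat_lit 2) (nat_lit 257) (nat_lit 0) (@Lb.g g8 (@Lb.g g5 (@Lb.r r354 (@Lb.r r1411 (@Lb.r r24 (@Lb.d (nat_lit 10) (nat_lit 98) (nat_lit 18) (@Lb.fm (nat_lit 3) t1627))))))))))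
noncomputable def l5999 : Lb := (@Lb.d (nat_lit 2) (nat_lit 258) (nat_lit 130) (@Lb.g g8 (@Lb.g g9 (@Lb.g g10 (@Lb.g g11 (@Lb.r r427 (@Lb.r r420 (@Lb.r r102 (@Lb.r r21 (@Lb.r r36 (@Lb.d (nat_lit 514) (nat_lit 5) (nat_lit 168) (@Lb.fp (nat_lit 9) t221))))))))))))
noncomputable def l6000 : Lb := (@Lb.g g7 (@Lb.d (nat_lit 0) (nat_lit 261) (nat_lit 70) (@Lb.t (@Lb.fm (nat_lit 3) t45))))
noncomputable def l6001 : Lb := (@Lb.d (nat_lit 0) (nat_lit 512) (nat_lit 1) (@Lb.r r24 (@Lb.r r101 (@Lb.g g6 (@Lb.d (nat_lit 0) (nat_lit 4) (nat_lit 1) (@Lb.t (@Lb.fm (nat_lit 3) t1219)))))))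
noncomputable def l6002 : Lb := (@Lb.d (nat_lit 0) (nat_lit 256) (nat_lit 32) (@Lb.r r1346 (@Lb.r r387 (@Lb.g g11 (@Lb.g g10 (@Lb.fm (nat_lit 3) t2))))))
noncomputable def l6003 : Lb := (@Lb.d (nat_lit 0) (nat_lit 256) (nat_lit 73) (@Lb.g g10 (@Lb.g g11 (@Lb.r r579 (@Lb.r r1346 (@Lb.d (nat_lit 0) (nat_lit 0) (nat_lit 145) (@Lb.fp (nat_lit 3) t2)))))))
noncomputable def l6004 : Lb := (@Lb.d (nat_lit 1) (nat_lit 258) (nat_lit 73) (@Lb.g g8 (@Lb.g g9 (@Lb.g g10 (@Lb.g g11 (@Lb.r r683 (@Lb.r r676 (@Lb.r r166 (@Lb.r r145 (@Lb.d (nat_lit 9) (nat_lit 4) (nat_lit 136) (@Lb.fp (nat_lit 9) t51)))))))))))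
noncomputable def l6005 : Lb := (@Lb.d (nat_lit 2) (nat_lit 514) (nat_lit 73) (@Lb.g g8 (@Lb.g g9 (@Lb.g g10 (@Lb.g g11 (@Lb.r r683 (@Lb.r r676 (@Lb.r r166 (@Lb.r r145 (@Lb.d (nat_lit 9) (nat_lit 4) (nat_lit 1) (@Lb.fp (nat_lit 9) t51)))))))))))
noncomputable def l6006 : Lb := (@Lb.d (nat_lit 2) (nat_lit 0) (nat_lit 0) (@Lb.g g8 (@Lb.r r593 (@Lb.r r343 (@Lb.r r680 (@Lb.r r170 (@Lb.r r153 (@Lb.d (nat_lit 10) (nat_lit 4) (nat_lit 138) (@Lb.t (@Lb.fp (nat_lit 3) t45))))))))))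
noncomputable def l6007 : Lb := (@Lb.g g4 (@Lb.g g7 (@Lb.r r402 (@Lb.r r101 (@Lb.d (nat_lit 65) (nat_lit 640) (nat_lit 320) (@Lb.fm (nat_lit 3) t1628))))))
noncomputable def l6008 : Lb := (@Lb.r r323 (@Lb.d (nat_lit 2) (nat_lit 34) (nat_lit 2) (@Lb.g g8 (@Lb.g g9 (@Lb.g g10 (@Lb.r r599 (@Lb.r r74 (@Lb.r r296 (@Lb.r r409 (@Lb.d (nat_lit 149) (nat_lit 164) (nat_lit 9) (@Lb.t (@Lb.fm (nat_lit 9) t51))))))))))))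
noncomputable def l6009 : Lb := (@Lb.r r21 (@Lb.d (nat_lit 9) (nat_lit 0) (nat_lit 64) (@Lb.g g8 (@Lb.g g11 (@Lb.r r1434 (@Lb.r r2661 (@Lb.r r2727 (@Lb.r r1364 (@Lb.d (nat_lit 649) (nat_lit 98) (nat_lit 517) (@Lb.fp (nat_lit 3) t881))))))))))
noncomputable def l6010 : Lb := (@Lb.d (nat_lit 128) (nat_lit 8) (nat_lit 66) (@Lb.g g10 (@Lb.g g11 (@Lb.r r264 (@Lb.r r519 (@Lb.r r101 (@Lb.r r154 (@Lb.d (nat_lit 393) (nat_lit 9) (nat_lit 38) (@Lb.fm (nat_lit 3) t127)))))))))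
noncomputable def l6011 : Lb := (@Lb.d (nat_lit 5) (nat_lit 522) (nat_lit 72) (@Lb.g g4 (@Lb.g g9 (@Lb.g g10 (@Lb.g g11 (@Lb.r r679 (@Lb.r r1366 (@Lb.r r1553 (@Lb.d (nat_lit 336) (nat_lit 98) (nat_lit 673) (@Lb.fp (nat_lit 9) t50))))))))))
noncomputable def l6012 : Lb := (@Lb.d (nat_lit 128) (nat_lit 520) (nat_lit 66) (@Lb.g g10 (@Lb.g g11 (@Lb.r r264 (@Lb.r r519 (@Lb.r r101 (@Lb.r r154 (@Lb.d (nat_lit 386) (nat_lit 10) (nat_lit 38) (@Lb.fm (nat_lit 3) t127)))))))))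
noncomputable def l6013 : Lb := (@Lb.d (nat_lit 128) (nat_lit 8) (nat_lit 66) (@Lb.g g10 (@Lb.g g11 (@Lb.r r264 (@Lb.r r519 (@Lb.r r101 (@Lb.r r154 (@Lb.d (nat_lit 385) (nat_lit 10) (nat_lit 38) (@Lb.fm (nat_lit 3) t127)))))))))
noncomputable def l6014 : Lb := (@Lb.d (nat_lit 2) (nat_lit 514) (nat_lit 73) (@Lb.g g8 (@Lb.g g9 (@Lb.g g10 (@Lb.g g11 (@Lb.r r2666 (@Lb.r r579 (@Lb.r r97 (@Lb.r r24 (@Lb.d (nat_lit 426) (nat_lit 9) (nat_lit 356) (@Lb.fm (nat_lit 9) t61)))))))))))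
noncomputable def l6015 : Lb := (@Lb.d (nat_lit 6) (nat_lit 10) (nat_lit 73) (@Lb.g g8 (@Lb.g g9 (@Lb.g g10 (@Lb.g g11 (@Lb.r r162 (@Lb.r r1425 (@Lb.r r612 (@Lb.r r295 (@Lb.r r516 (@Lb.d (nat_lit 42) (nat_lit 128) (nat_lit 169) (@Lb.fm (nat_lit 9) t125))))))))))))
noncomputable def l6016 : Lb := (@Lb.r r323 (@Lb.d (nat_lit 9) (nat_lit 265) (nat_lit 20) (@Lb.g g8 (@Lb.g g9 (@Lb.g g6 (@Lb.r r1323 (@Lb.r r1433 (@Lb.r r2436 (@Lb.d (nat_lit 105) (nat_lit 65) (nat_lit 545) (@Lb.t (@Lb.fp (nat_lit 9) t1246)))))))))))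
noncomputable def l6017 : Lb := (@Lb.r r323 (@Lb.d (nat_lit 40) (nat_lit 514) (nat_lit 5) (@Lb.g g9 (@Lb.g g6 (@Lb.r r404 (@Lb.r r299 (@Lb.r r409 (@Lb.d (nat_lit 10) (nat_lit 153) (nat_lit 326) (@Lb.fp (nat_lit 3) t988)))))))))
noncomputable def l6018 : Lb := (@Lb.d (nat_lit 129) (nat_lit 514) (nat_lit 73) (@Lb.g g8 (@Lb.g g9 (@Lb.g g10 (@Lb.g g11 (@Lb.r r1706 (@Lb.r r1451 (@Lb.r r1177 (@Lb.r r1156 (@Lb.d (nat_lit 297) (nat_lit 97) (nat_lit 34) (@Lb.fm (nat_lit 9) t985)))))))))))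
noncomputable def l6019 : Lb := (@Lb.r r323 (@Lb.d (nat_lit 0) (nat_lit 514) (nat_lit 1) (@Lb.g g9 (@Lb.g g6 (@Lb.r r579 (@Lb.r r104 (@Lb.r r25 (@Lb.d (nat_lit 22) (nat_lit 8) (nat_lit 22) (@Lb.fp (nat_lit 3) t40)))))))))
noncomputable def l6020 : Lb := (@Lb.r r323 (@Lb.d (nat_lit 9) (nat_lit 297) (nat_lit 2) (@Lb.g g8 (@Lb.g g9 (@Lb.g g10 (@Lb.r r1450 (@Lb.r r1444 (@Lb.r r2331 (@Lb.r r1637 (@Lb.d (nat_lit 409) (nat_lit 154) (nat_lit 613) (@Lb.t (@Lb.fm (nat_lit 9) t525))))))))))))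
noncomputable def l6021 : Lb := (@Lb.r r346 (@Lb.d (nat_lit 9) (nat_lit 104) (nat_lit 128) (@Lb.g g8 (@Lb.g g9 (@Lb.g g11 (@Lb.r r2454 (@Lb.r r1572 (@Lb.d (nat_lit 0) (nat_lit 146) (nat_lit 584) (@Lb.t (@Lb.fp (nat_lit 9) t1629))))))))))
noncomputable def l6022 : Lb := (@Lb.d (nat_lit 22) (nat_lit 266) (nat_lit 33) (@Lb.r r24 (@Lb.r r386 (@Lb.r r2651 (@Lb.g g7 (@Lb.g g9 (@Lb.d (nat_lit 0) (nat_lit 34) (nat_lit 0) (@Lb.r r98 (@Lb.fm (nat_lit 3) t536)))))))))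
noncomputable def l6023 : Lb := (@Lb.d (nat_lit 8) (nat_lit 258) (nat_lit 73) (@Lb.g g9 (@Lb.g g10 (@Lb.g g11 (@Lb.r r2691 (@Lb.r r1350 (@Lb.r r1556 (@Lb.r r553 (@Lb.d (nat_lit 386) (nat_lit 66) (nat_lit 424) (@Lb.t (@Lb.fm (nat_lit 9) t1630)))))))))))
noncomputable def l6024 : Lb := (@Lb.r r21 (@Lb.d (nat_lit 644) (nat_lit 256) (nat_lit 130) (@Lb.g g4 (@Lb.g g10 (@Lb.g g11 (@Lb.r r646 (@Lb.r r391 (@Lb.r r97 (@Lb.d (nat_lit 356) (nat_lit 136) (nat_lit 146) (@Lb.t (@Lb.fp (nat_lit 9) t1631)))))))))))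
noncomputable def l6025 : Lb := (@Lb.r r21 (@Lb.d (nat_lit 2) (nat_lit 512) (nat_lit 128) (@Lb.g g8 (@Lb.g g10 (@Lb.g g11 (@Lb.r r387 (@Lb.r r2580 (@Lb.r r25 (@Lb.d (nat_lit 321) (nat_lit 41) (nat_lit 392) (@Lb.t (@Lb.fm (nat_lit 9) t1632)))))))))))
noncomputable def l6026 : Lb := (@Lb.d (nat_lit 17) (nat_lit 265) (nat_lit 33) (@Lb.r r24 (@Lb.r r386 (@Lb.r r2651 (@Lb.g g7 (@Lb.g g9 (@Lb.d (nat_lit 8) (nat_lit 33) (nat_lit 64) (@Lb.r r98 (@Lb.fm (nat_lit 3) t1633)))))))))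
noncomputable def l6027 : Lb := (@Lb.d (nat_lit 6) (nat_lit 512) (nat_lit 130) (@Lb.g g4 (@Lb.g g9 (@Lb.g g10 (@Lb.g g11 (@Lb.r r1443 (@Lb.r r401 (@Lb.r r2138 (@Lb.r r1169 (@Lb.d (nat_lit 553) (nat_lit 9) (nat_lit 402) (@Lb.fm (nat_lit 9) t1634)))))))))))
noncomputable def l6028 : Lb := (@Lb.d (nat_lit 9) (nat_lit 257) (nat_lit 128) (@Lb.g g8 (@Lb.g g9 (@Lb.g g11 (@Lb.r r676 (@Lb.r r2663 (@Lb.r r2178 (@Lb.r r1621 (@Lb.r r1060 (@Lb.d (nat_lit 160) (nat_lit 136) (nat_lit 342) (@Lb.t (@Lb.fm (nat_lit 9) t64))))))))))))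
noncomputable def l6029 : Lb := (@Lb.d (nat_lit 129) (nat_lit 514) (nat_lit 130) (@Lb.g g8 (@Lb.g g9 (@Lb.g g10 (@Lb.g g11 (@Lb.r r419 (@Lb.r r344 (@Lb.r r1429 (@Lb.r r1110 (@Lb.r r2212 (@Lb.d (nat_lit 38) (nat_lit 106) (nat_lit 673) (@Lb.fm (nat_lit 9) t238))))))))))))
noncomputable def l6030 : Lb := (@Lb.r r21 (@Lb.d (nat_lit 130) (nat_lit 0) (nat_lit 66) (@Lb.g g8 (@Lb.g g10 (@Lb.g g11 (@Lb.r r644 (@Lb.r r519 (@Lb.r r386 (@Lb.r r25 (@Lb.d (nat_lit 162) (nat_lit 0) (nat_lit 72) (@Lb.t (@Lb.fm (nat_lit 9) t168))))))))))))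
noncomputable def l6031 : Lb := (@Lb.d (nat_lit 0) (nat_lit 260) (nat_lit 64) (@Lb.g g9 (@Lb.g g10 (@Lb.g g7 (@Lb.r r386 (@Lb.r r97 (@Lb.d (nat_lit 5) (nat_lit 10) (nat_lit 9) (@Lb.t (@Lb.fp (nat_lit 9) t607)))))))))
noncomputable def l6032 : Lb := (@Lb.g g5 (@Lb.g g10 (@Lb.fp (nat_lit 3) t2)))
noncomputable def l6033 : Lb := (@Lb.d (nat_lit 1) (nat_lit 512) (nat_lit 0) (@Lb.r r24 (@Lb.r r101 (@Lb.r r402 (@Lb.r r323 (@Lb.g g7 (@Lb.g g6 (@Lb.g g4 (@Lb.d (nat_lit 1) (nat_lit 0) (nat_lit 64) (@Lb.t (@Lb.fm (nat_lit 9) t50)))))))))))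
noncomputable def l6034 : Lb := (@Lb.d (nat_lit 32) (nat_lit 258) (nat_lit 73) (@Lb.g g8 (@Lb.g g9 (@Lb.g g10 (@Lb.g g11 (@Lb.r r407 (@Lb.r r618 (@Lb.r r553 (@Lb.r r532 (@Lb.d (nat_lit 134) (nat_lit 41) (nat_lit 128) (@Lb.fm (nat_lit 9) t128)))))))))))
noncomputable def l6035 : Lb := (@Lb.d (nat_lit 129) (nat_lit 258) (nat_lit 130) (@Lb.g g8 (@Lb.g g9 (@Lb.g g10 (@Lb.g g11 (@Lb.r r683 (@Lb.r r618 (@Lb.r r537 (@Lb.r r516 (@Lb.d (nat_lit 130) (nat_lit 10) (nat_lit 1) (@Lb.fm (nat_lit 9) t796)))))))))))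
noncomputable def l6036 : Lb := (@Lb.d (nat_lit 16) (nat_lit 258) (nat_lit 128) (@Lb.g g8 (@Lb.g g9 (@Lb.g g10 (@Lb.g g11 (@Lb.r r2729 (@Lb.r r2467 (@Lb.r r344 (@Lb.r r2406 (@Lb.r r132 (@Lb.d (nat_lit 586) (nat_lit 128) (nat_lit 153) (@Lb.fp (nat_lit 9) t1399))))))))))))
noncomputable def l6037 : Lb := (@Lb.r r82 (@Lb.d (nat_lit 4) (nat_lit 2) (nat_lit 64) (@Lb.g g8 (@Lb.g g9 (@Lb.g g11 (@Lb.r r1323 (@Lb.r r598 (@Lb.r r1313 (@Lb.r r24 (@Lb.d (nat_lit 521) (nat_lit 161) (nat_lit 645) (@Lb.t (@Lb.fm (nat_lit 9) t1108))))))))))))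
noncomputable def l6038 : Lb := (@Lb.d (nat_lit 4) (nat_lit 512) (nat_lit 2) (@Lb.g g8 (@Lb.g g9 (@Lb.g g10 (@Lb.r r2729 (@Lb.r r2475 (@Lb.r r2468 (@Lb.r r2438 (@Lb.d (nat_lit 609) (nat_lit 86) (nat_lit 424) (@Lb.t (@Lb.fm (nat_lit 9) t452)))))))))))
noncomputable def l6039 : Lb := (@Lb.r r21 (@Lb.d (nat_lit 2) (nat_lit 0) (nat_lit 66) (@Lb.g g8 (@Lb.g g10 (@Lb.g g11 (@Lb.r r395 (@Lb.r r386 (@Lb.r r97 (@Lb.r r72 (@Lb.d (nat_lit 598) (nat_lit 1) (nat_lit 152) (@Lb.t (@Lb.fp (nat_lit 9) t61))))))))))))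
noncomputable def l6040 : Lb := (@Lb.d (nat_lit 0) (nat_lit 528) (nat_lit 522) (@Lb.g g10 (@Lb.g g7 (@Lb.r r1606 (@Lb.r r1425 (@Lb.r r1432 (@Lb.d (nat_lit 96) (nat_lit 5) (nat_lit 64) (@Lb.fm (nat_lit 3) t1635))))))))
noncomputable def l6041 : Lb := (@Lb.d (nat_lit 160) (nat_lit 258) (nat_lit 0) (@Lb.g g8 (@Lb.g g9 (@Lb.r r1385 (@Lb.r r662 (@Lb.r r2727 (@Lb.r r1368 (@Lb.d (nat_lit 37) (nat_lit 22) (nat_lit 133) (@Lb.fm (nat_lit 3) t324)))))))))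
noncomputable def l6042 : Lb := (@Lb.g g8 (@Lb.d (nat_lit 10) (nat_lit 514) (nat_lit 0) (@Lb.t (@Lb.fp (nat_lit 3) t2))))
noncomputable def l6043 : Lb := (@Lb.d (nat_lit 1) (nat_lit 514) (nat_lit 130) (@Lb.g g8 (@Lb.g g9 (@Lb.g g10 (@Lb.g g11 (@Lb.r r1706 (@Lb.r r648 (@Lb.r r1563 (@Lb.r r2337 (@Lb.r r36 (@Lb.d (nat_lit 642) (nat_lit 105) (nat_lit 66) (@Lb.fp (nat_lit 9) t242))))))))))))
noncomputable def l6044 : Lb := (@Lb.d (nat_lit 2) (nat_lit 2) (nat_lit 130) (@Lb.g g8 (@Lb.g g9 (@Lb.g g10 (@Lb.g g11 (@Lb.r r1706 (@Lb.r r648 (@Lb.r r1563 (@Lb.r r2337 (@Lb.r r36 (@Lb.d (nat_lit 642) (nat_lit 98) (nat_lit 64) (@Lb.fp (nat_lit 9) t242))))))))))))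
noncomputable def l6045 : Lb := (@Lb.d (nat_lit 80) (nat_lit 0) (nat_lit 65) (@Lb.r r24 (@Lb.r r101 (@Lb.r r418 (@Lb.r r355 (@Lb.g g7 (@Lb.g g6 (@Lb.d (nat_lit 0) (nat_lit 0) (nat_lit 66) (@Lb.fp (nat_lit 3) t50)))))))))
noncomputable def l6046 : Lb := (@Lb.d (nat_lit 160) (nat_lit 520) (nat_lit 64) (@Lb.g g10 (@Lb.g g11 (@Lb.r r1124 (@Lb.r r2645 (@Lb.r r1555 (@Lb.r r2698 (@Lb.d (nat_lit 320) (nat_lit 161) (nat_lit 69) (@Lb.fm (nat_lit 3) t127)))))))))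
noncomputable def l6047 : Lb := (@Lb.d (nat_lit 2) (nat_lit 514) (nat_lit 130) (@Lb.g g8 (@Lb.g g9 (@Lb.g g10 (@Lb.g g11 (@Lb.r r1706 (@Lb.r r648 (@Lb.r r1563 (@Lb.r r2337 (@Lb.r r36 (@Lb.d (nat_lit 642) (nat_lit 105) (nat_lit 2) (@Lb.fp (nat_lit 9) t242))))))))))))
noncomputable def l6048 : Lb := (@Lb.d (nat_lit 0) (nat_lit 256) (nat_lit 73) (@Lb.g g10 (@Lb.g g11 (@Lb.r r1185 (@Lb.r r2658 (@Lb.r r579 (@Lb.r r2564 (@Lb.d (nat_lit 0) (nat_lit 81) (nat_lit 522) (@Lb.fm (nat_lit 3) t242)))))))))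
noncomputable def l6049 : Lb := (@Lb.d (nat_lit 4) (nat_lit 514) (nat_lit 130) (@Lb.g g8 (@Lb.g g9 (@Lb.g g10 (@Lb.g g11 (@Lb.r r363 (@Lb.r r386 (@Lb.r r1121 (@Lb.r r24 (@Lb.d (nat_lit 258) (nat_lit 138) (nat_lit 168) (@Lb.fm (nat_lit 9) t61)))))))))))
noncomputable def l6050 : Lb := (@Lb.d (nat_lit 0) (nat_lit 0) (nat_lit 64) (@Lb.g g10 (@Lb.g g7 (@Lb.d (nat_lit 0) (nat_lit 0) (nat_lit 148) (@Lb.fp (nat_lit 3) t2)))))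
noncomputable def l6051 : Lb := (@Lb.r r21 (@Lb.d (nat_lit 146) (nat_lit 0) (nat_lit 5) (@Lb.g g8 (@Lb.g g10 (@Lb.g g11 (@Lb.r r651 (@Lb.r r357 (@Lb.r r154 (@Lb.r r516 (@Lb.d (nat_lit 137) (nat_lit 37) (nat_lit 68) (@Lb.t (@Lb.fp (nat_lit 9) t264))))))))))))
noncomputable def l6052 : Lb := (@Lb.r r323 (@Lb.d (nat_lit 2) (nat_lit 530) (nat_lit 2) (@Lb.g g8 (@Lb.g g9 (@Lb.g g10 (@Lb.r r427 (@Lb.r r342 (@Lb.r r169 (@Lb.d (nat_lit 21) (nat_lit 20) (nat_lit 66) (@Lb.t (@Lb.fp (nat_lit 9) t51)))))))))))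
noncomputable def l6053 : Lb := (@Lb.d (nat_lit 32) (nat_lit 512) (nat_lit 2) (@Lb.g g6 (@Lb.r r644 (@Lb.r r391 (@Lb.r r421 (@Lb.r r358 (@Lb.d (nat_lit 154) (nat_lit 90) (nat_lit 90) (@Lb.t (@Lb.fp (nat_lit 3) t743)))))))))
noncomputable def l6054 : Lb := (@Lb.d (nat_lit 1) (nat_lit 32) (nat_lit 64) (@Lb.g g8 (@Lb.g g11 (@Lb.r r2217 (@Lb.r r2724 (@Lb.r r2567 (@Lb.r r2178 (@Lb.d (nat_lit 641) (nat_lit 165) (nat_lit 74) (@Lb.fp (nat_lit 3) t100)))))))))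
noncomputable def l6055 : Lb := (@Lb.d (nat_lit 10) (nat_lit 32) (nat_lit 66) (@Lb.g g8 (@Lb.g g10 (@Lb.g g11 (@Lb.r r2138 (@Lb.r r149 (@Lb.r r360 (@Lb.r r2567 (@Lb.d (nat_lit 641) (nat_lit 88) (nat_lit 642) (@Lb.t (@Lb.fm (nat_lit 9) t71)))))))))))
noncomputable def l6056 : Lb := (@Lb.d (nat_lit 10) (nat_lit 258) (nat_lit 130) (@Lb.g g8 (@Lb.g g9 (@Lb.g g10 (@Lb.g g11 (@Lb.r r1681 (@Lb.r r535 (@Lb.r r2440 (@Lb.r r2122 (@Lb.d (nat_lit 33) (nat_lit 0) (nat_lit 137) (@Lb.fp (nat_lit 9) t221)))))))))))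
noncomputable def l6057 : Lb := (@Lb.d (nat_lit 9) (nat_lit 514) (nat_lit 130) (@Lb.g g8 (@Lb.g g9 (@Lb.g g10 (@Lb.g g11 (@Lb.r r1681 (@Lb.r r535 (@Lb.r r2440 (@Lb.r r2122 (@Lb.d (nat_lit 33) (nat_lit 0) (nat_lit 137) (@Lb.fp (nat_lit 9) t221)))))))))))
noncomputable def l6058 : Lb := (@Lb.d (nat_lit 9) (nat_lit 1) (nat_lit 130) (@Lb.g g8 (@Lb.g g9 (@Lb.g g10 (@Lb.g g11 (@Lb.r r2705 (@Lb.r r535 (@Lb.r r2440 (@Lb.r r2122 (@Lb.d (nat_lit 289) (nat_lit 0) (nat_lit 137) (@Lb.fp (nat_lit 9) t221)))))))))))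
noncomputable def l6059 : Lb := (@Lb.d (nat_lit 2) (nat_lit 2) (nat_lit 66) (@Lb.g g8 (@Lb.g g9 (@Lb.g g10 (@Lb.g g11 (@Lb.r r2122 (@Lb.r r660 (@Lb.r r425 (@Lb.r r279 (@Lb.r r548 (@Lb.d (nat_lit 1) (nat_lit 8) (nat_lit 329) (@Lb.fm (nat_lit 9) t119))))))))))))
noncomputable def l6060 : Lb := (@Lb.d (nat_lit 9) (nat_lit 1) (nat_lit 66) (@Lb.g g8 (@Lb.g g9 (@Lb.g g10 (@Lb.g g11 (@Lb.r r648 (@Lb.r r1563 (@Lb.r r2146 (@Lb.r r277 (@Lb.r r548 (@Lb.d (nat_lit 289) (nat_lit 129) (nat_lit 152) (@Lb.fp (nat_lit 9) t873))))))))))))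
noncomputable def l6061 : Lb := (@Lb.d (nat_lit 2) (nat_lit 258) (nat_lit 130) (@Lb.g g8 (@Lb.g g9 (@Lb.g g10 (@Lb.g g11 (@Lb.r r2691 (@Lb.r r536 (@Lb.r r2197 (@Lb.r r2646 (@Lb.r r164 (@Lb.d (nat_lit 137) (nat_lit 9) (nat_lit 297) (@Lb.fp (nat_lit 9) t1636))))))))))))
noncomputable def l6062 : Lb := (@Lb.d (nat_lit 0) (nat_lit 512) (nat_lit 73) (@Lb.g g10 (@Lb.g g11 (@Lb.r r579 (@Lb.r r1346 (@Lb.d (nat_lit 10) (nat_lit 2) (nat_lit 145) (@Lb.fp (nat_lit 3) t2)))))))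
noncomputable def l6063 : Lb := (@Lb.d (nat_lit 9) (nat_lit 513) (nat_lit 130) (@Lb.g g8 (@Lb.g g9 (@Lb.g g10 (@Lb.g g11 (@Lb.r r2666 (@Lb.r r579 (@Lb.r r25 (@Lb.r r24 (@Lb.d (nat_lit 6) (nat_lit 160) (nat_lit 640) (@Lb.fp (nat_lit 9) t51)))))))))))
noncomputable def l6064 : Lb := (@Lb.d (nat_lit 10) (nat_lit 514) (nat_lit 0) (@Lb.g g8 (@Lb.g g9 (@Lb.r r24 (@Lb.r r2069 (@Lb.r r36 (@Lb.fp (nat_lit 3) t2)))))))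
noncomputable def l6065 : Lb := (@Lb.d (nat_lit 138) (nat_lit 290) (nat_lit 10) (@Lb.g g8 (@Lb.g g9 (@Lb.g g10 (@Lb.r r1299 (@Lb.r r609 (@Lb.r r86 (@Lb.r r2212 (@Lb.d (nat_lit 162) (nat_lit 148) (nat_lit 18) (@Lb.t (@Lb.fp (nat_lit 9) t2)))))))))))
noncomputable def l6066 : Lb := (@Lb.r r323 (@Lb.d (nat_lit 0) (nat_lit 160) (nat_lit 2) (@Lb.g g8 (@Lb.g g9 (@Lb.g g10 (@Lb.r r599 (@Lb.r r392 (@Lb.r r74 (@Lb.d (nat_lit 17) (nat_lit 4) (nat_lit 153) (@Lb.t (@Lb.fm (nat_lit 9) t221)))))))))))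
noncomputable def l6067 : Lb := (@Lb.r r21 (@Lb.d (nat_lit 33) (nat_lit 8) (nat_lit 2) (@Lb.g g8 (@Lb.g g10 (@Lb.r r97 (@Lb.r r36 (@Lb.d (nat_lit 5) (nat_lit 1) (nat_lit 2) (@Lb.fp (nat_lit 3) t765))))))))
noncomputable def l6068 : Lb := (@Lb.r r322 (@Lb.d (nat_lit 0) (nat_lit 546) (nat_lit 516) (@Lb.g g9 (@Lb.g g7 (@Lb.r r422 (@Lb.r r1112 (@Lb.r r2085 (@Lb.d (nat_lit 522) (nat_lit 66) (nat_lit 64) (@Lb.fm (nat_lit 3) t1159)))))))))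
noncomputable def l6069 : Lb := (@Lb.d (nat_lit 161) (nat_lit 514) (nat_lit 8) (@Lb.g g8 (@Lb.g g9 (@Lb.g g6 (@Lb.r r407 (@Lb.r r2665 (@Lb.r r2644 (@Lb.d (nat_lit 664) (nat_lit 97) (nat_lit 410) (@Lb.t (@Lb.fm (nat_lit 9) t199))))))))))
noncomputable def l6070 : Lb := (@Lb.r r273 (@Lb.d (nat_lit 0) (nat_lit 512) (nat_lit 514) (@Lb.g g10 (@Lb.g g11 (@Lb.r r610 (@Lb.r r613 (@Lb.r r24 (@Lb.d (nat_lit 2) (nat_lit 0) (nat_lit 256) (@Lb.fm (nat_lit 3) t200)))))))))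
noncomputable def l6071 : Lb := (@Lb.d (nat_lit 0) (nat_lit 264) (nat_lit 2) (@Lb.g g10 (@Lb.r r101 (@Lb.r r24 (@Lb.d (nat_lit 9) (nat_lit 128) (nat_lit 2) (@Lb.t (@Lb.fp (nat_lit 3) t1637)))))))
noncomputable def l6072 : Lb := (@Lb.d (nat_lit 0) (nat_lit 520) (nat_lit 2) (@Lb.g g10 (@Lb.r r101 (@Lb.r r24 (@Lb.d (nat_lit 0) (nat_lit 0) (nat_lit 2) (@Lb.t (@Lb.fp (nat_lit 3) t145)))))))
noncomputable def l6073 : Lb := (@Lb.d (nat_lit 33) (nat_lit 289) (nat_lit 65) (@Lb.g g8 (@Lb.g g9 (@Lb.g g10 (@Lb.g g11 (@Lb.r r2595 (@Lb.r r2442 (@Lb.r r1177 (@Lb.r r1412 (@Lb.d (nat_lit 550) (nat_lit 161) (nat_lit 106) (@Lb.fp (nat_lit 9) t1638)))))))))))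
noncomputable def l6074 : Lb := (@Lb.d (nat_lit 97) (nat_lit 34) (nat_lit 8) (@Lb.g g8 (@Lb.g g9 (@Lb.g g6 (@Lb.g g11 (@Lb.r r2657 (@Lb.r r2343 (@Lb.r r1604 (@Lb.d (nat_lit 170) (nat_lit 136) (nat_lit 665) (@Lb.fp (nat_lit 9) t197))))))))))
noncomputable def l6075 : Lb := (@Lb.d (nat_lit 0) (nat_lit 288) (nat_lit 136) (@Lb.g g11 (@Lb.r r421 (@Lb.r r2470 (@Lb.r r2395 (@Lb.r r24 (@Lb.d (nat_lit 89) (nat_lit 128) (nat_lit 678) (@Lb.t (@Lb.fm (nat_lit 3) t1639)))))))))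
noncomputable def l6076 : Lb := (@Lb.r r81 (@Lb.r r323 (@Lb.d (nat_lit 10) (nat_lit 0) (nat_lit 33) (@Lb.g g8 (@Lb.g g6 (@Lb.r r149 (@Lb.r r1448 (@Lb.r r2567 (@Lb.d (nat_lit 1) (nat_lit 22) (nat_lit 393) (@Lb.fp (nat_lit 3) t1159))))))))))
noncomputable def l6077 : Lb := (@Lb.r r82 (@Lb.d (nat_lit 33) (nat_lit 514) (nat_lit 128) (@Lb.g g8 (@Lb.g g9 (@Lb.g g11 (@Lb.r r363 (@Lb.r r582 (@Lb.r r408 (@Lb.d (nat_lit 152) (nat_lit 86) (nat_lit 153) (@Lb.t (@Lb.fp (nat_lit 9) t1640)))))))))))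
noncomputable def l6078 : Lb := (@Lb.d (nat_lit 0) (nat_lit 32) (nat_lit 136) (@Lb.g g11 (@Lb.r r421 (@Lb.r r2470 (@Lb.r r2395 (@Lb.r r24 (@Lb.d (nat_lit 82) (nat_lit 0) (nat_lit 678) (@Lb.t (@Lb.fm (nat_lit 3) t1261)))))))))
noncomputable def l6079 : Lb := (@Lb.d (nat_lit 6) (nat_lit 0) (nat_lit 6) (@Lb.g g8 (@Lb.g g10 (@Lb.g g11 (@Lb.r r2134 (@Lb.r r2405 (@Lb.r r1367 (@Lb.r r2696 (@Lb.d (nat_lit 24) (nat_lit 80) (nat_lit 657) (@Lb.t (@Lb.fm (nat_lit 9) t907)))))))))))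
noncomputable def l6080 : Lb := (@Lb.d (nat_lit 132) (nat_lit 0) (nat_lit 130) (@Lb.g g8 (@Lb.g g9 (@Lb.g g10 (@Lb.g g11 (@Lb.r r2666 (@Lb.r r612 (@Lb.r r1319 (@Lb.r r405 (@Lb.r r2084 (@Lb.d (nat_lit 617) (nat_lit 137) (nat_lit 169) (@Lb.fp (nat_lit 9) t1039))))))))))))
noncomputable def l6081 : Lb := (@Lb.r r2311 (@Lb.r r664 (@Lb.r r154 (@Lb.r r2133 (@Lb.r r164 (@Lb.d (nat_lit 0) (nat_lit 512) (nat_lit 85) (@Lb.fp (nat_lit 1) t386)))))))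
noncomputable def l6082 : Lb := (@Lb.d (nat_lit 2) (nat_lit 514) (nat_lit 8) (@Lb.g g8 (@Lb.g g9 (@Lb.g g10 (@Lb.r r1363 (@Lb.r r681 (@Lb.r r680 (@Lb.r r650 (@Lb.d (nat_lit 81) (nat_lit 5) (nat_lit 292) (@Lb.t (@Lb.fp (nat_lit 9) t1346)))))))))))
noncomputable def l6083 : Lb := (@Lb.d (nat_lit 0) (nat_lit 256) (nat_lit 5) (@Lb.g g6 (@Lb.d (nat_lit 0) (nat_lit 100) (nat_lit 513) (@Lb.t (@Lb.fm (nat_lit 3) t1522)))))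
noncomputable def l6084 : Lb := (@Lb.d (nat_lit 2) (nat_lit 258) (nat_lit 0) (@Lb.g g8 (@Lb.g g9 (@Lb.r r338 (@Lb.r r1699 (@Lb.r r661 (@Lb.r r356 (@Lb.r r586 (@Lb.d (nat_lit 578) (nat_lit 5) (nat_lit 545) (@Lb.fp (nat_lit 3) t1641))))))))))
noncomputable def l6085 : Lb := (@Lb.d (nat_lit 2) (nat_lit 258) (nat_lit 128) (@Lb.g g8 (@Lb.g g9 (@Lb.g g10 (@Lb.g g11 (@Lb.r r643 (@Lb.r r297 (@Lb.r r360 (@Lb.r r582 (@Lb.r r132 (@Lb.d (nat_lit 130) (nat_lit 5) (nat_lit 72) (@Lb.fm (nat_lit 9) t242))))))))))))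
noncomputable def l6086 : Lb := (@Lb.r r323 (@Lb.d (nat_lit 4) (nat_lit 512) (nat_lit 2) (@Lb.g g8 (@Lb.g g9 (@Lb.g g10 (@Lb.r r1687 (@Lb.r r2154 (@Lb.r r97 (@Lb.r r24 (@Lb.d (nat_lit 8) (nat_lit 9) (nat_lit 17) (@Lb.t (@Lb.fp (nat_lit 9) t61))))))))))))
noncomputable def l6087 : Lb := (@Lb.d (nat_lit 0) (nat_lit 4) (nat_lit 74) (@Lb.g g8 (@Lb.g g9 (@Lb.g g10 (@Lb.g g11 (@Lb.r r2643 (@Lb.r r678 (@Lb.r r104 (@Lb.r r25 (@Lb.d (nat_lit 130) (nat_lit 8) (nat_lit 258) (@Lb.fm (nat_lit 9) t47)))))))))))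
noncomputable def l6088 : Lb := (@Lb.d (nat_lit 2) (nat_lit 512) (nat_lit 130) (@Lb.g g8 (@Lb.g g9 (@Lb.g g10 (@Lb.g g11 (@Lb.r r2691 (@Lb.r r2345 (@Lb.r r360 (@Lb.r r582 (@Lb.r r2180 (@Lb.d (nat_lit 642) (nat_lit 5) (nat_lit 88) (@Lb.fm (nat_lit 9) t242))))))))))))
noncomputable def l6089 : Lb := (@Lb.d (nat_lit 676) (nat_lit 256) (nat_lit 105) (@Lb.r r644 (@Lb.r r614 (@Lb.r r1435 (@Lb.g g7 (@Lb.g g9 (@Lb.g g4 (@Lb.d (nat_lit 132) (nat_lit 72) (nat_lit 0) (@Lb.r r98 (@Lb.t (@Lb.fm (nat_lit 9) t145)))))))))))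
noncomputable def l6090 : Lb := (@Lb.d (nat_lit 168) (nat_lit 617) (nat_lit 601) (@Lb.r r2724 (@Lb.r r614 (@Lb.r r1435 (@Lb.g g7 (@Lb.g g6 (@Lb.g g9 (@Lb.g g4 (@Lb.d (nat_lit 149) (nat_lit 74) (nat_lit 1) (@Lb.fm (nat_lit 9) t145))))))))))
noncomputable def l6091 : Lb := (@Lb.d (nat_lit 676) (nat_lit 0) (nat_lit 105) (@Lb.r r644 (@Lb.r r614 (@Lb.r r1435 (@Lb.g g7 (@Lb.g g6 (@Lb.g g9 (@Lb.g g4 (@Lb.d (nat_lit 132) (nat_lit 74) (nat_lit 0) (@Lb.fm (nat_lit 9) t145))))))))))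
noncomputable def l6092 : Lb := (@Lb.d (nat_lit 5) (nat_lit 21) (nat_lit 66) (@Lb.r r657 (@Lb.r r667 (@Lb.r r584 (@Lb.g g6 (@Lb.g g5 (@Lb.d (nat_lit 16) (nat_lit 2) (nat_lit 1) (@Lb.r r387 (@Lb.fm (nat_lit 3) t68)))))))))
noncomputable def l6093 : Lb := (@Lb.d (nat_lit 5) (nat_lit 512) (nat_lit 130) (@Lb.g g8 (@Lb.g g9 (@Lb.g g10 (@Lb.g g11 (@Lb.r r1706 (@Lb.r r648 (@Lb.r r1563 (@Lb.r r2337 (@Lb.r r36 (@Lb.d (nat_lit 642) (nat_lit 98) (nat_lit 0) (@Lb.fp (nat_lit 9) t242))))))))))))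
noncomputable def l6094 : Lb := (@Lb.d (nat_lit 0) (nat_lit 512) (nat_lit 73) (@Lb.g g8 (@Lb.g g10 (@Lb.g g11 (@Lb.r r579 (@Lb.r r1346 (@Lb.d (nat_lit 0) (nat_lit 0) (nat_lit 145) (@Lb.t (@Lb.fp (nat_lit 9) t2)))))))))
noncomputable def l6095 : Lb := (@Lb.r r21 (@Lb.d (nat_lit 10) (nat_lit 512) (nat_lit 128) (@Lb.g g8 (@Lb.g g10 (@Lb.g g11 (@Lb.r r2459 (@Lb.r r2434 (@Lb.r r37 (@Lb.d (nat_lit 4) (nat_lit 136) (nat_lit 18) (@Lb.t (@Lb.fm (nat_lit 9) t51)))))))))))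
noncomputable def l6096 : Lb := (@Lb.d (nat_lit 0) (nat_lit 256) (nat_lit 73) (@Lb.g g9 (@Lb.g g10 (@Lb.g g11 (@Lb.r r2691 (@Lb.r r2658 (@Lb.d (nat_lit 0) (nat_lit 32) (nat_lit 424) (@Lb.t (@Lb.fp (nat_lit 9) t71)))))))))
noncomputable def l6097 : Lb := (@Lb.d (nat_lit 5) (nat_lit 2) (nat_lit 74) (@Lb.g g4 (@Lb.g g9 (@Lb.g g10 (@Lb.g g11 (@Lb.r r1703 (@Lb.r r1681 (@Lb.r r2194 (@Lb.d (nat_lit 68) (nat_lit 136) (nat_lit 393) (@Lb.fm (nat_lit 9) t61))))))))))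
noncomputable def l6098 : Lb := (@Lb.d (nat_lit 41) (nat_lit 648) (nat_lit 36) (@Lb.r r21 (@Lb.r r104 (@Lb.r r386 (@Lb.g g11 (@Lb.g g6 (@Lb.g g5 (@Lb.d (nat_lit 0) (nat_lit 8) (nat_lit 128) (@Lb.t (@Lb.fm (nat_lit 9) t597))))))))))
noncomputable def l6099 : Lb := (@Lb.d (nat_lit 32) (nat_lit 256) (nat_lit 2) (@Lb.g g6 (@Lb.r r289 (@Lb.r r664 (@Lb.r r411 (@Lb.r r330 (@Lb.d (nat_lit 98) (nat_lit 0) (nat_lit 144) (@Lb.t (@Lb.fm (nat_lit 3) t40)))))))))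
noncomputable def l6100 : Lb := (@Lb.r r323 (@Lb.d (nat_lit 2) (nat_lit 512) (nat_lit 0) (@Lb.g g8 (@Lb.g g10 (@Lb.r r90 (@Lb.r r1368 (@Lb.r r2439 (@Lb.r r609 (@Lb.d (nat_lit 0) (nat_lit 64) (nat_lit 596) (@Lb.fm (nat_lit 3) t311))))))))))
noncomputable def l6101 : Lb := (@Lb.d (nat_lit 0) (nat_lit 9) (nat_lit 4) (@Lb.g g9 (@Lb.g g10 (@Lb.g g11 (@Lb.r r2466 (@Lb.r r2713 (@Lb.r r2587 (@Lb.r r24 (@Lb.d (nat_lit 672) (nat_lit 5) (nat_lit 330) (@Lb.t (@Lb.fp (nat_lit 9) t1162)))))))))))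
noncomputable def l6102 : Lb := (@Lb.r r21 (@Lb.d (nat_lit 137) (nat_lit 520) (nat_lit 130) (@Lb.g g8 (@Lb.g g10 (@Lb.g g11 (@Lb.r r427 (@Lb.r r1557 (@Lb.r r2408 (@Lb.r r102 (@Lb.d (nat_lit 533) (nat_lit 144) (nat_lit 677) (@Lb.t (@Lb.fp (nat_lit 9) t1642))))))))))))
noncomputable def l6103 : Lb := (@Lb.r r322 (@Lb.d (nat_lit 34) (nat_lit 33) (nat_lit 580) (@Lb.g g8 (@Lb.g g9 (@Lb.g g7 (@Lb.r r418 (@Lb.r r297 (@Lb.r r1384 (@Lb.d (nat_lit 405) (nat_lit 170) (nat_lit 293) (@Lb.t (@Lb.fm (nat_lit 9) t1159)))))))))))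
noncomputable def l6104 : Lb := (@Lb.r r21 (@Lb.r r263 (@Lb.d (nat_lit 8) (nat_lit 0) (nat_lit 26) (@Lb.g g8 (@Lb.g g10 (@Lb.r r2449 (@Lb.r r2727 (@Lb.r r2456 (@Lb.d (nat_lit 661) (nat_lit 153) (nat_lit 546) (@Lb.fm (nat_lit 3) t1643))))))))))
noncomputable def l6105 : Lb := (@Lb.d (nat_lit 0) (nat_lit 521) (nat_lit 6) (@Lb.g g9 (@Lb.g g10 (@Lb.g g11 (@Lb.r r2722 (@Lb.r r2713 (@Lb.r r2587 (@Lb.r r24 (@Lb.d (nat_lit 33) (nat_lit 5) (nat_lit 330) (@Lb.t (@Lb.fp (nat_lit 9) t742)))))))))))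
noncomputable def l6106 : Lb := (@Lb.d (nat_lit 546) (nat_lit 261) (nat_lit 80) (@Lb.r r24 (@Lb.r r101 (@Lb.r r402 (@Lb.r r579 (@Lb.g g6 (@Lb.t (@Lb.fm (nat_lit 3) t379))))))))
noncomputable def l6107 : Lb := (@Lb.d (nat_lit 0) (nat_lit 2) (nat_lit 73) (@Lb.g g8 (@Lb.g g9 (@Lb.g g10 (@Lb.g g11 (@Lb.r r612 (@Lb.r r2394 (@Lb.r r1449 (@Lb.r r2327 (@Lb.r r1556 (@Lb.d (nat_lit 5) (nat_lit 96) (nat_lit 617) (@Lb.fm (nat_lit 9) t1644))))))))))))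
noncomputable def l6108 : Lb := (@Lb.d (nat_lit 40) (nat_lit 514) (nat_lit 130) (@Lb.g g9 (@Lb.g g10 (@Lb.g g11 (@Lb.r r2695 (@Lb.r r1352 (@Lb.r r2390 (@Lb.r r1425 (@Lb.d (nat_lit 133) (nat_lit 66) (nat_lit 330) (@Lb.t (@Lb.fm (nat_lit 9) t1255)))))))))))
noncomputable def l6109 : Lb := (@Lb.d (nat_lit 128) (nat_lit 256) (nat_lit 128) (@Lb.g g11 (@Lb.r r264 (@Lb.r r519 (@Lb.r r586 (@Lb.r r537 (@Lb.d (nat_lit 545) (nat_lit 5) (nat_lit 144) (@Lb.t (@Lb.fp (nat_lit 3) t1645)))))))))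
noncomputable def l6110 : Lb := (@Lb.d (nat_lit 33) (nat_lit 545) (nat_lit 129) (@Lb.g g8 (@Lb.g g9 (@Lb.g g10 (@Lb.g g11 (@Lb.r r2666 (@Lb.r r1636 (@Lb.r r1637 (@Lb.r r1315 (@Lb.d (nat_lit 657) (nat_lit 101) (nat_lit 38) (@Lb.fm (nat_lit 9) t1646)))))))))))
noncomputable def l6111 : Lb := (@Lb.d (nat_lit 9) (nat_lit 513) (nat_lit 2) (@Lb.g g8 (@Lb.g g9 (@Lb.g g10 (@Lb.g g11 (@Lb.r r1602 (@Lb.r r409 (@Lb.r r2659 (@Lb.r r2577 (@Lb.r r2564 (@Lb.d (nat_lit 640) (nat_lit 66) (nat_lit 384) (@Lb.fm (nat_lit 9) t322))))))))))))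
noncomputable def l6112 : Lb := (@Lb.d (nat_lit 577) (nat_lit 130) (nat_lit 352) (@Lb.r r2312 (@Lb.r r583 (@Lb.r r1362 (@Lb.g g6 (@Lb.g g5 (@Lb.g g4 (@Lb.d (nat_lit 66) (nat_lit 129) (nat_lit 0) (@Lb.r r387 (@Lb.t (@Lb.fp (nat_lit 9) t50)))))))))))
noncomputable def l6113 : Lb := (@Lb.d (nat_lit 613) (nat_lit 153) (nat_lit 361) (@Lb.r r2404 (@Lb.r r1563 (@Lb.r r2389 (@Lb.g g6 (@Lb.g g5 (@Lb.g g4 (@Lb.d (nat_lit 16) (nat_lit 1) (nat_lit 1) (@Lb.r r391 (@Lb.t (@Lb.fm (nat_lit 9) t68)))))))))))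
noncomputable def l6114 : Lb := (@Lb.d (nat_lit 2) (nat_lit 2) (nat_lit 130) (@Lb.g g8 (@Lb.g g9 (@Lb.g g10 (@Lb.g g11 (@Lb.r r2411 (@Lb.r r386 (@Lb.r r97 (@Lb.r r24 (@Lb.d (nat_lit 256) (nat_lit 10) (nat_lit 152) (@Lb.fm (nat_lit 9) t61)))))))))))
noncomputable def l6115 : Lb := (@Lb.r r275 (@Lb.d (nat_lit 9) (nat_lit 513) (nat_lit 2) (@Lb.g g8 (@Lb.g g5 (@Lb.g g10 (@Lb.r r1690 (@Lb.r r1688 (@Lb.r r1563 (@Lb.d (nat_lit 1) (nat_lit 82) (nat_lit 138) (@Lb.t (@Lb.fm (nat_lit 9) t144)))))))))))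
noncomputable def l6116 : Lb := (@Lb.d (nat_lit 9) (nat_lit 549) (nat_lit 128) (@Lb.g g8 (@Lb.g g9 (@Lb.g g10 (@Lb.g g11 (@Lb.r r1706 (@Lb.r r168 (@Lb.r r1577 (@Lb.r r1315 (@Lb.r r2084 (@Lb.d (nat_lit 586) (nat_lit 65) (nat_lit 74) (@Lb.fm (nat_lit 9) t125))))))))))))
noncomputable def l6117 : Lb := (@Lb.d (nat_lit 2) (nat_lit 514) (nat_lit 2) (@Lb.g g8 (@Lb.g g9 (@Lb.g g10 (@Lb.g g11 (@Lb.r r2411 (@Lb.r r386 (@Lb.r r97 (@Lb.r r24 (@Lb.d (nat_lit 256) (nat_lit 0) (nat_lit 84) (@Lb.fm (nat_lit 9) t61)))))))))))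
noncomputable def l6118 : Lb := (@Lb.r r275 (@Lb.d (nat_lit 9) (nat_lit 257) (nat_lit 2) (@Lb.g g8 (@Lb.g g5 (@Lb.g g10 (@Lb.r r1690 (@Lb.r r1668 (@Lb.r r1543 (@Lb.d (nat_lit 6) (nat_lit 144) (nat_lit 138) (@Lb.t (@Lb.fp (nat_lit 9) t74)))))))))))
noncomputable def l6119 : Lb := (@Lb.d (nat_lit 9) (nat_lit 2) (nat_lit 130) (@Lb.g g8 (@Lb.g g9 (@Lb.g g10 (@Lb.g g11 (@Lb.r r1194 (@Lb.r r420 (@Lb.r r283 (@Lb.r r1557 (@Lb.r r36 (@Lb.d (nat_lit 385) (nat_lit 66) (nat_lit 586) (@Lb.fm (nat_lit 9) t284))))))))))))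
noncomputable def l6120 : Lb := (@Lb.r r579 (@Lb.r r402 (@Lb.r r101 (@Lb.r r24 (@Lb.d (nat_lit 273) (nat_lit 266) (nat_lit 32) (@Lb.fp (nat_lit 1) t145))))))
noncomputable def l6121 : Lb := (@Lb.d (nat_lit 0) (nat_lit 546) (nat_lit 0) (@Lb.g g9 (@Lb.r r347 (@Lb.r r340 (@Lb.r r170 (@Lb.r r153 (@Lb.d (nat_lit 21) (nat_lit 66) (nat_lit 0) (@Lb.t (@Lb.fm (nat_lit 3) t51)))))))))
noncomputable def l6122 : Lb := (@Lb.d (nat_lit 34) (nat_lit 1) (nat_lit 0) (@Lb.g g8 (@Lb.g g9 (@Lb.g g7 (@Lb.r r418 (@Lb.r r297 (@Lb.r r360 (@Lb.d (nat_lit 405) (nat_lit 42) (nat_lit 517) (@Lb.t (@Lb.fm (nat_lit 9) t145))))))))))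
noncomputable def l6123 : Lb := (@Lb.d (nat_lit 32) (nat_lit 512) (nat_lit 130) (@Lb.g g10 (@Lb.g g11 (@Lb.r r1352 (@Lb.r r2455 (@Lb.r r1633 (@Lb.r r2450 (@Lb.d (nat_lit 0) (nat_lit 154) (nat_lit 665) (@Lb.fp (nat_lit 3) t2)))))))))
noncomputable def l6124 : Lb := (@Lb.d (nat_lit 32) (nat_lit 256) (nat_lit 2) (@Lb.g g10 (@Lb.r r1352 (@Lb.r r2455 (@Lb.r r1633 (@Lb.r r2450 (@Lb.d (nat_lit 8) (nat_lit 153) (nat_lit 665) (@Lb.t (@Lb.fm (nat_lit 3) t2)))))))))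
noncomputable def l6125 : Lb := (@Lb.r r289 (@Lb.r r420 (@Lb.r r603 (@Lb.r r390 (@Lb.r r516 (@Lb.d (nat_lit 0) (nat_lit 512) (nat_lit 85) (@Lb.fm (nat_lit 1) t40)))))))
noncomputable def l6126 : Lb := (@Lb.d (nat_lit 6) (nat_lit 512) (nat_lit 0) (@Lb.g g8 (@Lb.r r1291 (@Lb.r r1098 (@Lb.r r1049 (@Lb.d (nat_lit 262) (nat_lit 129) (nat_lit 0) (@Lb.t (@Lb.fp (nat_lit 3) t284))))))))
noncomputable def l6127 : Lb := (@Lb.r r1307 (@Lb.r r1114 (@Lb.r r20 (@Lb.r r1049 (@Lb.d (nat_lit 256) (nat_lit 514) (nat_lit 0) (@Lb.fp (nat_lit 1) t284))))))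
noncomputable def l6128 : Lb := (@Lb.d (nat_lit 4) (nat_lit 0) (nat_lit 66) (@Lb.g g8 (@Lb.g g9 (@Lb.g g10 (@Lb.g g7 (@Lb.r r386 (@Lb.r r97 (@Lb.r r24 (@Lb.d (nat_lit 0) (nat_lit 10) (nat_lit 9) (@Lb.fp (nat_lit 9) t40))))))))))
noncomputable def l6129 : Lb := (@Lb.d (nat_lit 0) (nat_lit 512) (nat_lit 66) (@Lb.g g9 (@Lb.g g10 (@Lb.g g7 (@Lb.r r386 (@Lb.r r101 (@Lb.r r24 (@Lb.d (nat_lit 32) (nat_lit 0) (nat_lit 9) (@Lb.t (@Lb.fm (nat_lit 9) t167))))))))))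
noncomputable def l6130 : Lb := (@Lb.d (nat_lit 42) (nat_lit 390) (nat_lit 1) (@Lb.r r85 (@Lb.r r170 (@Lb.r r676 (@Lb.r r423 (@Lb.g g5 (@Lb.d (nat_lit 0) (nat_lit 17) (nat_lit 0) (@Lb.t (@Lb.fp (nat_lit 3) t45)))))))))
noncomputable def l6131 : Lb := (@Lb.d (nat_lit 2) (nat_lit 514) (nat_lit 66) (@Lb.g g8 (@Lb.g g9 (@Lb.g g10 (@Lb.g g7 (@Lb.r r386 (@Lb.r r97 (@Lb.d (nat_lit 2) (nat_lit 138) (nat_lit 9) (@Lb.fm (nat_lit 9) t126)))))))))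
noncomputable def l6132 : Lb := (@Lb.d (nat_lit 2) (nat_lit 33) (nat_lit 4) (@Lb.g g8 (@Lb.g g9 (@Lb.g g10 (@Lb.g g11 (@Lb.r r2723 (@Lb.r r610 (@Lb.r r529 (@Lb.d (nat_lit 2) (nat_lit 41) (nat_lit 657) (@Lb.fm (nat_lit 9) t218))))))))))
noncomputable def l6133 : Lb := (@Lb.d (nat_lit 1) (nat_lit 385) (nat_lit 294) (@Lb.r r2465 (@Lb.r r362 (@Lb.r r2644 (@Lb.r r2327 (@Lb.g g6 (@Lb.g g5 (@Lb.g g4 (@Lb.d (nat_lit 0) (nat_lit 17) (nat_lit 0) (@Lb.t (@Lb.fm (nat_lit 9) t351)))))))))))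
noncomputable def l6134 : Lb := (@Lb.r r2069 (@Lb.r r2118 (@Lb.r r2311 (@Lb.g g8 (@Lb.r r36 (@Lb.d (nat_lit 0) (nat_lit 320) (nat_lit 0) (@Lb.t (@Lb.fp (nat_lit 3) t1647))))))))
noncomputable def l6135 : Lb := (@Lb.d (nat_lit 0) (nat_lit 2) (nat_lit 130) (@Lb.g g8 (@Lb.g g9 (@Lb.g g10 (@Lb.g g11 (@Lb.r r586 (@Lb.r r600 (@Lb.r r293 (@Lb.r r539 (@Lb.r r516 (@Lb.d (nat_lit 9) (nat_lit 73) (nat_lit 642) (@Lb.fm (nat_lit 9) t387))))))))))))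
noncomputable def l6136 : Lb := (@Lb.r r323 (@Lb.d (nat_lit 2) (nat_lit 2) (nat_lit 1) (@Lb.g g8 (@Lb.g g9 (@Lb.g g6 (@Lb.r r387 (@Lb.r r97 (@Lb.d (nat_lit 9) (nat_lit 137) (nat_lit 66) (@Lb.t (@Lb.fm (nat_lit 9) t360))))))))))
noncomputable def l6137 : Lb := (@Lb.d (nat_lit 0) (nat_lit 2) (nat_lit 130) (@Lb.g g8 (@Lb.g g9 (@Lb.g g10 (@Lb.g g11 (@Lb.r r427 (@Lb.r r297 (@Lb.r r104 (@Lb.r r70 (@Lb.r r132 (@Lb.d (nat_lit 9) (nat_lit 73) (nat_lit 393) (@Lb.fp (nat_lit 9) t51))))))))))))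
noncomputable def l6138 : Lb := (@Lb.d (nat_lit 4) (nat_lit 674) (nat_lit 66) (@Lb.g g9 (@Lb.g g10 (@Lb.g g11 (@Lb.r r2467 (@Lb.r r98 (@Lb.r r36 (@Lb.d (nat_lit 6) (nat_lit 9) (nat_lit 665) (@Lb.t (@Lb.fm (nat_lit 9) t842))))))))))
noncomputable def l6139 : Lb := (@Lb.d (nat_lit 8) (nat_lit 512) (nat_lit 130) (@Lb.g g9 (@Lb.g g10 (@Lb.g g11 (@Lb.r r1638 (@Lb.r r2452 (@Lb.r r1707 (@Lb.r r1697 (@Lb.d (nat_lit 9) (nat_lit 90) (nat_lit 553) (@Lb.t (@Lb.fm (nat_lit 9) t51)))))))))))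
noncomputable def l6140 : Lb := (@Lb.d (nat_lit 128) (nat_lit 544) (nat_lit 72) (@Lb.g g11 (@Lb.r r2410 (@Lb.r r361 (@Lb.r r1384 (@Lb.r r2455 (@Lb.d (nat_lit 614) (nat_lit 144) (nat_lit 650) (@Lb.t (@Lb.fp (nat_lit 3) t322)))))))))
noncomputable def l6141 : Lb := (@Lb.d (nat_lit 42) (nat_lit 512) (nat_lit 72) (@Lb.g g8 (@Lb.g g11 (@Lb.r r2370 (@Lb.r r1447 (@Lb.r r1317 (@Lb.r r1556 (@Lb.d (nat_lit 390) (nat_lit 98) (nat_lit 610) (@Lb.fp (nat_lit 3) t322)))))))))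
noncomputable def l6142 : Lb := (@Lb.d (nat_lit 128) (nat_lit 288) (nat_lit 72) (@Lb.g g11 (@Lb.r r2410 (@Lb.r r361 (@Lb.r r1384 (@Lb.r r2455 (@Lb.d (nat_lit 614) (nat_lit 144) (nat_lit 522) (@Lb.t (@Lb.fp (nat_lit 3) t322)))))))))
noncomputable def l6143 : Lb := (@Lb.d (nat_lit 150) (nat_lit 129) (nat_lit 321) (@Lb.r r289 (@Lb.r r70 (@Lb.r r420 (@Lb.g g11 (@Lb.g g6 (@Lb.d (nat_lit 16) (nat_lit 32) (nat_lit 262) (@Lb.fm (nat_lit 3) t1648))))))))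
noncomputable def l6144 : Lb := (@Lb.d (nat_lit 2) (nat_lit 2) (nat_lit 130) (@Lb.g g4 (@Lb.g g9 (@Lb.g g10 (@Lb.g g11 (@Lb.r r1671 (@Lb.r r145 (@Lb.r r594 (@Lb.r r1169 (@Lb.d (nat_lit 257) (nat_lit 98) (nat_lit 618) (@Lb.fp (nat_lit 9) t1649)))))))))))
noncomputable def l6145 : Lb := (@Lb.d (nat_lit 2) (nat_lit 258) (nat_lit 2) (@Lb.g g8 (@Lb.g g9 (@Lb.g g10 (@Lb.r r2723 (@Lb.r r1634 (@Lb.r r1553 (@Lb.d (nat_lit 1) (nat_lit 105) (nat_lit 417) (@Lb.t (@Lb.fp (nat_lit 9) t324))))))))))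
noncomputable def l6146 : Lb := (@Lb.r r82 (@Lb.d (nat_lit 2) (nat_lit 522) (nat_lit 128) (@Lb.g g8 (@Lb.g g9 (@Lb.g g11 (@Lb.r r363 (@Lb.r r150 (@Lb.r r85 (@Lb.d (nat_lit 4) (nat_lit 6) (nat_lit 136) (@Lb.t (@Lb.fp (nat_lit 9) t546)))))))))))
noncomputable def l6147 : Lb := (@Lb.r r2311 (@Lb.r r2118 (@Lb.r r2069 (@Lb.r r8 (@Lb.d (nat_lit 1) (nat_lit 512) (nat_lit 0) (@Lb.fm (nat_lit 1) t1155))))))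
noncomputable def l6148 : Lb := (@Lb.r r2579 (@Lb.r r72 (@Lb.r r598 (@Lb.r r289 (@Lb.r r2180 (@Lb.fm (nat_lit 1) t51))))))
noncomputable def l6149 : Lb := (@Lb.r r82 (@Lb.d (nat_lit 9) (nat_lit 513) (nat_lit 128) (@Lb.g g8 (@Lb.g g5 (@Lb.g g11 (@Lb.r r532 (@Lb.r r2311 (@Lb.r r98 (@Lb.r r1540 (@Lb.d (nat_lit 2) (nat_lit 160) (nat_lit 640) (@Lb.t (@Lb.fp (nat_lit 9) t233))))))))))))
noncomputable def l6150 : Lb := (@Lb.r r289 (@Lb.r r535 (@Lb.r r328 (@Lb.r r134 (@Lb.d (nat_lit 0) (nat_lit 517) (nat_lit 1) (@Lb.fp (nat_lit 1) t40))))))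
noncomputable def l6151 : Lb := (@Lb.r r81 (@Lb.d (nat_lit 10) (nat_lit 288) (nat_lit 1) (@Lb.g g8 (@Lb.g g6 (@Lb.g g11 (@Lb.r r149 (@Lb.r r360 (@Lb.r r263 (@Lb.d (nat_lit 66) (nat_lit 42) (nat_lit 148) (@Lb.t (@Lb.fm (nat_lit 9) t150)))))))))))
noncomputable def l6152 : Lb := (@Lb.d (nat_lit 2) (nat_lit 2) (nat_lit 2) (@Lb.g g8 (@Lb.g g9 (@Lb.g g10 (@Lb.g g11 (@Lb.r r169 (@Lb.r r296 (@Lb.r r391 (@Lb.r r386 (@Lb.r r132 (@Lb.d (nat_lit 2) (nat_lit 10) (nat_lit 89) (@Lb.fm (nat_lit 9) t590))))))))))))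
noncomputable def l6153 : Lb := (@Lb.d (nat_lit 0) (nat_lit 514) (nat_lit 0) (@Lb.g g9 (@Lb.g g6 (@Lb.r r97 (@Lb.d (nat_lit 0) (nat_lit 9) (nat_lit 64) (@Lb.fm (nat_lit 3) t87))))))
noncomputable def l6154 : Lb := (@Lb.r r82 (@Lb.d (nat_lit 9) (nat_lit 1) (nat_lit 128) (@Lb.g g8 (@Lb.g g5 (@Lb.g g11 (@Lb.r r532 (@Lb.r r2311 (@Lb.r r98 (@Lb.r r1540 (@Lb.d (nat_lit 1) (nat_lit 160) (nat_lit 640) (@Lb.t (@Lb.fp (nat_lit 9) t233))))))))))))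
noncomputable def l6155 : Lb := (@Lb.d (nat_lit 5) (nat_lit 102) (nat_lit 358) (@Lb.r r2450 (@Lb.r r1633 (@Lb.r r1387 (@Lb.r r1352 (@Lb.g g7 (@Lb.g g6 (@Lb.g g5 (@Lb.d (nat_lit 16) (nat_lit 0) (nat_lit 65) (@Lb.t (@Lb.fm (nat_lit 9) t2)))))))))))
noncomputable def l6156 : Lb := (@Lb.d (nat_lit 16) (nat_lit 0) (nat_lit 6) (@Lb.r r24 (@Lb.r r101 (@Lb.r r386 (@Lb.g g11 (@Lb.g g6 (@Lb.g g5 (@Lb.d (nat_lit 0) (nat_lit 10) (nat_lit 128) (@Lb.t (@Lb.fp (nat_lit 9) t51))))))))))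
noncomputable def l6157 : Lb := (@Lb.d (nat_lit 272) (nat_lit 512) (nat_lit 38) (@Lb.r r24 (@Lb.r r1125 (@Lb.r r386 (@Lb.g g11 (@Lb.g g6 (@Lb.g g5 (@Lb.d (nat_lit 0) (nat_lit 34) (nat_lit 390) (@Lb.t (@Lb.fp (nat_lit 9) t51))))))))))
noncomputable def l6158 : Lb := (@Lb.d (nat_lit 128) (nat_lit 0) (nat_lit 128) (@Lb.g g10 (@Lb.g g11 (@Lb.r r586 (@Lb.r r24 (@Lb.r r405 (@Lb.r r611 (@Lb.d (nat_lit 0) (nat_lit 9) (nat_lit 74) (@Lb.fm (nat_lit 3) t242)))))))))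
noncomputable def l6159 : Lb := (@Lb.d (nat_lit 4) (nat_lit 262) (nat_lit 6) (@Lb.r r24 (@Lb.r r97 (@Lb.r r386 (@Lb.g g11 (@Lb.g g6 (@Lb.g g5 (@Lb.d (nat_lit 0) (nat_lit 1) (nat_lit 129) (@Lb.t (@Lb.fp (nat_lit 9) t51))))))))))
noncomputable def l6160 : Lb := (@Lb.r r101 (@Lb.d (nat_lit 256) (nat_lit 512) (nat_lit 96) (@Lb.fm (nat_lit 1) t743)))
noncomputable def l6161 : Lb := (@Lb.d (nat_lit 2) (nat_lit 258) (nat_lit 128) (@Lb.g g8 (@Lb.g g9 (@Lb.g g11 (@Lb.r r644 (@Lb.r r2311 (@Lb.r r146 (@Lb.r r97 (@Lb.r r1540 (@Lb.d (nat_lit 1) (nat_lit 162) (nat_lit 642) (@Lb.t (@Lb.fm (nat_lit 9) t295))))))))))))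
noncomputable def l6162 : Lb := (@Lb.d (nat_lit 8) (nat_lit 9) (nat_lit 0) (@Lb.g g9 (@Lb.d (nat_lit 538) (nat_lit 9) (nat_lit 146) (@Lb.t (@Lb.fp (nat_lit 3) t126)))))
noncomputable def l6163 : Lb := (@Lb.r r1114 (@Lb.r r264 (@Lb.r r599 (@Lb.r r1425 (@Lb.r r2084 (@Lb.d (nat_lit 2) (nat_lit 384) (nat_lit 256) (@Lb.fp (nat_lit 1) t992)))))))
noncomputable def l6164 : Lb := (@Lb.d (nat_lit 33) (nat_lit 256) (nat_lit 9) (@Lb.r r154 (@Lb.r r404 (@Lb.r r363 (@Lb.r r353 (@Lb.g g7 (@Lb.g g6 (@Lb.g g4 (@Lb.d (nat_lit 4) (nat_lit 4) (nat_lit 65) (@Lb.t (@Lb.fp (nat_lit 9) t51)))))))))))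
noncomputable def l6165 : Lb := (@Lb.d (nat_lit 6) (nat_lit 42) (nat_lit 73) (@Lb.r r21 (@Lb.r r323 (@Lb.r r662 (@Lb.g g7 (@Lb.g g5 (@Lb.g g4 (@Lb.d (nat_lit 1) (nat_lit 1) (nat_lit 128) (@Lb.t (@Lb.fm (nat_lit 9) t1650))))))))))
noncomputable def l6166 : Lb := (@Lb.r r2118 (@Lb.r r2069 (@Lb.r r36 (@Lb.d (nat_lit 513) (nat_lit 66) (nat_lit 0) (@Lb.fp (nat_lit 1) t1651)))))
noncomputable def l6167 : Lb := (@Lb.d (nat_lit 0) (nat_lit 33) (nat_lit 130) (@Lb.g g9 (@Lb.g g10 (@Lb.g g11 (@Lb.r r2411 (@Lb.r r386 (@Lb.r r1621 (@Lb.r r24 (@Lb.d (nat_lit 338) (nat_lit 153) (nat_lit 580) (@Lb.t (@Lb.fm (nat_lit 9) t1652)))))))))))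
noncomputable def l6168 : Lb := (@Lb.d (nat_lit 9) (nat_lit 1) (nat_lit 74) (@Lb.g g8 (@Lb.g g9 (@Lb.g g10 (@Lb.g g11 (@Lb.r r2731 (@Lb.r r2724 (@Lb.r r2214 (@Lb.r r145 (@Lb.d (nat_lit 521) (nat_lit 68) (nat_lit 136) (@Lb.fp (nat_lit 9) t51)))))))))))
noncomputable def l6169 : Lb := (@Lb.d (nat_lit 0) (nat_lit 256) (nat_lit 128) (@Lb.g g10 (@Lb.g g11 (@Lb.r r387 (@Lb.r r402 (@Lb.r r101 (@Lb.d (nat_lit 10) (nat_lit 130) (nat_lit 138) (@Lb.fm (nat_lit 3) t1653))))))))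
noncomputable def l6170 : Lb := (@Lb.d (nat_lit 0) (nat_lit 256) (nat_lit 1) (@Lb.r r24 (@Lb.r r101 (@Lb.g g7 (@Lb.g g6 (@Lb.d (nat_lit 0) (nat_lit 4) (nat_lit 1) (@Lb.fm (nat_lit 3) t1219)))))))
noncomputable def l6171 : Lb := (@Lb.r r2069 (@Lb.r r2118 (@Lb.d (nat_lit 513) (nat_lit 0) (nat_lit 0) (@Lb.g g4 (@Lb.d (nat_lit 8) (nat_lit 2) (nat_lit 0) (@Lb.t (@Lb.fm (nat_lit 3) t1654)))))))
noncomputable def l6172 : Lb := (@Lb.d (nat_lit 8) (nat_lit 514) (nat_lit 2) (@Lb.g g9 (@Lb.g g10 (@Lb.g g11 (@Lb.r r419 (@Lb.r r98 (@Lb.d (nat_lit 2) (nat_lit 9) (nat_lit 137) (@Lb.t (@Lb.fm (nat_lit 9) t51)))))))))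
noncomputable def l6173 : Lb := (@Lb.d (nat_lit 409) (nat_lit 420) (nat_lit 358) (@Lb.r r1387 (@Lb.r r1384 (@Lb.r r361 (@Lb.g g7 (@Lb.g g6 (@Lb.d (nat_lit 64) (nat_lit 16) (nat_lit 96) (@Lb.fm (nat_lit 3) t572))))))))
noncomputable def l6174 : Lb := (@Lb.d (nat_lit 409) (nat_lit 681) (nat_lit 356) (@Lb.r r1387 (@Lb.r r1384 (@Lb.r r361 (@Lb.g g7 (@Lb.g g6 (@Lb.d (nat_lit 64) (nat_lit 16) (nat_lit 165) (@Lb.fm (nat_lit 3) t927))))))))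
noncomputable def l6175 : Lb := (@Lb.r r322 (@Lb.d (nat_lit 0) (nat_lit 33) (nat_lit 516) (@Lb.g g9 (@Lb.g g7 (@Lb.r r418 (@Lb.r r289 (@Lb.d (nat_lit 0) (nat_lit 81) (nat_lit 4) (@Lb.fp (nat_lit 3) t1655))))))))
noncomputable def l6176 : Lb := (@Lb.d (nat_lit 1) (nat_lit 258) (nat_lit 0) (@Lb.g g8 (@Lb.g g9 (@Lb.r r2731 (@Lb.r r162 (@Lb.r r145 (@Lb.r r2628 (@Lb.d (nat_lit 404) (nat_lit 10) (nat_lit 425) (@Lb.fm (nat_lit 3) t899)))))))))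
noncomputable def l6177 : Lb := (@Lb.r r134 (@Lb.r r328 (@Lb.r r535 (@Lb.r r289 (@Lb.d (nat_lit 5) (nat_lit 1) (nat_lit 128) (@Lb.fp (nat_lit 1) t119))))))
noncomputable def l6178 : Lb := (@Lb.d (nat_lit 37) (nat_lit 613) (nat_lit 581) (@Lb.r r615 (@Lb.r r593 (@Lb.r r342 (@Lb.g g7 (@Lb.g g4 (@Lb.d (nat_lit 1) (nat_lit 16) (nat_lit 128) (@Lb.fp (nat_lit 3) t938))))))))
noncomputable def l6179 : Lb := (@Lb.r r322 (@Lb.d (nat_lit 0) (nat_lit 289) (nat_lit 516) (@Lb.g g9 (@Lb.g g7 (@Lb.r r418 (@Lb.r r289 (@Lb.d (nat_lit 0) (nat_lit 81) (nat_lit 130) (@Lb.fp (nat_lit 3) t1656))))))))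
noncomputable def l6180 : Lb := (@Lb.r r82 (@Lb.d (nat_lit 0) (nat_lit 2) (nat_lit 580) (@Lb.g g9 (@Lb.g g7 (@Lb.r r386 (@Lb.r r1121 (@Lb.d (nat_lit 5) (nat_lit 128) (nat_lit 80) (@Lb.fp (nat_lit 3) t1657))))))))
noncomputable def l6181 : Lb := (@Lb.d (nat_lit 1) (nat_lit 514) (nat_lit 0) (@Lb.g g8 (@Lb.g g9 (@Lb.r r2731 (@Lb.r r162 (@Lb.r r145 (@Lb.r r2628 (@Lb.d (nat_lit 402) (nat_lit 9) (nat_lit 425) (@Lb.fm (nat_lit 3) t899)))))))))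
noncomputable def l6182 : Lb := (@Lb.r r275 (@Lb.g g9 (@Lb.g g6 (@Lb.r r1411 (@Lb.r r1625 (@Lb.r r24 (@Lb.d (nat_lit 2) (nat_lit 512) (nat_lit 16) (@Lb.fm (nat_lit 3) t1658))))))))
noncomputable def l6183 : Lb := (@Lb.r r275 (@Lb.d (nat_lit 1) (nat_lit 10) (nat_lit 1) (@Lb.g g8 (@Lb.g g9 (@Lb.g g10 (@Lb.r r683 (@Lb.r r2218 (@Lb.r r2212 (@Lb.r r2085 (@Lb.d (nat_lit 520) (nat_lit 68) (nat_lit 17) (@Lb.t (@Lb.fp (nat_lit 9) t803))))))))))))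
noncomputable def l6184 : Lb := (@Lb.d (nat_lit 2) (nat_lit 512) (nat_lit 130) (@Lb.g g8 (@Lb.g g10 (@Lb.g g11 (@Lb.r r516 (@Lb.r r263 (@Lb.r r161 (@Lb.r r98 (@Lb.r r516 (@Lb.d (nat_lit 530) (nat_lit 8) (nat_lit 146) (@Lb.t (@Lb.fp (nat_lit 9) t420))))))))))))
noncomputable def l6185 : Lb := (@Lb.d (nat_lit 128) (nat_lit 0) (nat_lit 130) (@Lb.g g10 (@Lb.g g11 (@Lb.r r264 (@Lb.r r519 (@Lb.r r161 (@Lb.r r98 (@Lb.d (nat_lit 658) (nat_lit 8) (nat_lit 82) (@Lb.fp (nat_lit 3) t420)))))))))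
noncomputable def l6186 : Lb := (@Lb.d (nat_lit 1) (nat_lit 24) (nat_lit 1) (@Lb.g g8 (@Lb.g g9 (@Lb.g g10 (@Lb.g g11 (@Lb.r r343 (@Lb.r r1386 (@Lb.r r1380 (@Lb.r r1445 (@Lb.d (nat_lit 360) (nat_lit 168) (nat_lit 392) (@Lb.fm (nat_lit 9) t803)))))))))))
noncomputable def l6187 : Lb := (@Lb.d (nat_lit 10) (nat_lit 0) (nat_lit 128) (@Lb.g g8 (@Lb.g g11 (@Lb.r r337 (@Lb.r r423 (@Lb.r r596 (@Lb.r r170 (@Lb.r r153 (@Lb.d (nat_lit 532) (nat_lit 8) (nat_lit 150) (@Lb.fp (nat_lit 3) t516))))))))))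
noncomputable def l6188 : Lb := (@Lb.d (nat_lit 1) (nat_lit 10) (nat_lit 161) (@Lb.g g4 (@Lb.g g9 (@Lb.g g6 (@Lb.g g11 (@Lb.r r2659 (@Lb.r r1633 (@Lb.d (nat_lit 1) (nat_lit 153) (nat_lit 280) (@Lb.fp (nat_lit 9) t1659)))))))))
noncomputable def l6189 : Lb := (@Lb.d (nat_lit 104) (nat_lit 532) (nat_lit 4) (@Lb.g g8 (@Lb.g g9 (@Lb.g g10 (@Lb.g g11 (@Lb.r r2727 (@Lb.r r134 (@Lb.r r2661 (@Lb.r r2568 (@Lb.d (nat_lit 324) (nat_lit 136) (nat_lit 105) (@Lb.fp (nat_lit 9) t1660)))))))))))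
noncomputable def l6190 : Lb := (@Lb.d (nat_lit 2) (nat_lit 513) (nat_lit 0) (@Lb.g g8 (@Lb.g g9 (@Lb.r r170 (@Lb.r r676 (@Lb.r r423 (@Lb.r r401 (@Lb.d (nat_lit 0) (nat_lit 21) (nat_lit 89) (@Lb.fp (nat_lit 3) t334)))))))))
noncomputable def l6191 : Lb := (@Lb.d (nat_lit 0) (nat_lit 0) (nat_lit 128) (@Lb.g g11 (@Lb.r r24 (@Lb.r r101 (@Lb.r r658 (@Lb.r r387 (@Lb.d (nat_lit 0) (nat_lit 5) (nat_lit 70) (@Lb.t (@Lb.fm (nat_lit 3) t242)))))))))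
noncomputable def l6192 : Lb := (@Lb.r r82 (@Lb.r r275 (@Lb.d (nat_lit 274) (nat_lit 0) (nat_lit 0) (@Lb.g g8 (@Lb.g g9 (@Lb.r r2475 (@Lb.r r1174 (@Lb.r r2217 (@Lb.d (nat_lit 277) (nat_lit 73) (nat_lit 34) (@Lb.fm (nat_lit 3) t1661))))))))))
noncomputable def l6193 : Lb := (@Lb.d (nat_lit 0) (nat_lit 512) (nat_lit 128) (@Lb.g g11 (@Lb.r r134 (@Lb.r r584 (@Lb.r r619 (@Lb.r r609 (@Lb.d (nat_lit 8) (nat_lit 65) (nat_lit 16) (@Lb.t (@Lb.fp (nat_lit 3) t334)))))))))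
noncomputable def l6194 : Lb := (@Lb.d (nat_lit 16) (nat_lit 521) (nat_lit 2) (@Lb.g g8 (@Lb.g g9 (@Lb.g g10 (@Lb.g g11 (@Lb.r r1667 (@Lb.r r1321 (@Lb.r r360 (@Lb.r r1606 (@Lb.r r132 (@Lb.d (nat_lit 385) (nat_lit 138) (nat_lit 601) (@Lb.fm (nat_lit 9) t1161))))))))))))
noncomputable def l6195 : Lb := (@Lb.d (nat_lit 16) (nat_lit 9) (nat_lit 130) (@Lb.g g8 (@Lb.g g9 (@Lb.g g10 (@Lb.g g11 (@Lb.r r1667 (@Lb.r r1321 (@Lb.r r360 (@Lb.r r1606 (@Lb.r r132 (@Lb.d (nat_lit 385) (nat_lit 9) (nat_lit 601) (@Lb.fm (nat_lit 9) t1662))))))))))))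
noncomputable def l6196 : Lb := (@Lb.d (nat_lit 658) (nat_lit 408) (nat_lit 676) (@Lb.r r2321 (@Lb.r r2371 (@Lb.r r2662 (@Lb.g g7 (@Lb.g g5 (@Lb.g g8 (@Lb.d (nat_lit 330) (nat_lit 4) (nat_lit 64) (@Lb.r r98 (@Lb.t (@Lb.fm (nat_lit 9) t435)))))))))))
noncomputable def l6197 : Lb := (@Lb.r r580 (@Lb.r r327 (@Lb.r r357 (@Lb.r r666 (@Lb.r r516 (@Lb.d (nat_lit 0) (nat_lit 64) (nat_lit 16) (@Lb.fp (nat_lit 1) t743)))))))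
noncomputable def l6198 : Lb := (@Lb.d (nat_lit 32) (nat_lit 512) (nat_lit 130) (@Lb.g g10 (@Lb.g g11 (@Lb.r r423 (@Lb.r r600 (@Lb.r r1429 (@Lb.r r406 (@Lb.d (nat_lit 104) (nat_lit 90) (nat_lit 537) (@Lb.fm (nat_lit 3) t1057)))))))))
noncomputable def l6199 : Lb := (@Lb.d (nat_lit 0) (nat_lit 38) (nat_lit 70) (@Lb.r r322 (@Lb.r r659 (@Lb.g g7 (@Lb.g g6 (@Lb.g g9 (@Lb.d (nat_lit 0) (nat_lit 10) (nat_lit 133) (@Lb.t (@Lb.fp (nat_lit 9) t1176)))))))))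
noncomputable def l6200 : Lb := (@Lb.d (nat_lit 0) (nat_lit 294) (nat_lit 70) (@Lb.r r322 (@Lb.r r659 (@Lb.g g7 (@Lb.g g6 (@Lb.g g9 (@Lb.g g4 (@Lb.d (nat_lit 1) (nat_lit 10) (nat_lit 133) (@Lb.fp (nat_lit 9) t1176)))))))))
noncomputable def l6201 : Lb := (@Lb.d (nat_lit 1) (nat_lit 264) (nat_lit 130) (@Lb.g g8 (@Lb.g g10 (@Lb.g g11 (@Lb.r r353 (@Lb.r r667 (@Lb.r r664 (@Lb.r r154 (@Lb.d (nat_lit 18) (nat_lit 0) (nat_lit 68) (@Lb.t (@Lb.fm (nat_lit 9) t45)))))))))))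
noncomputable def l6202 : Lb := (@Lb.d (nat_lit 0) (nat_lit 550) (nat_lit 70) (@Lb.r r322 (@Lb.r r659 (@Lb.g g7 (@Lb.g g6 (@Lb.g g9 (@Lb.g g4 (@Lb.d (nat_lit 0) (nat_lit 10) (nat_lit 133) (@Lb.fp (nat_lit 9) t1176)))))))))
noncomputable def l6203 : Lb := (@Lb.d (nat_lit 1) (nat_lit 256) (nat_lit 130) (@Lb.g g8 (@Lb.g g10 (@Lb.g g11 (@Lb.r r548 (@Lb.r r263 (@Lb.r r161 (@Lb.r r98 (@Lb.r r516 (@Lb.d (nat_lit 530) (nat_lit 8) (nat_lit 86) (@Lb.t (@Lb.fp (nat_lit 9) t420))))))))))))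
noncomputable def l6204 : Lb := (@Lb.g g8 (@Lb.r r24 (@Lb.r r1045 (@Lb.r r36 (@Lb.t (@Lb.p (nat_lit 1) (@Lb.fm (nat_lit 3) t2)))))))
noncomputable def l6205 : Lb := (@Lb.r r323 (@Lb.d (nat_lit 130) (nat_lit 290) (nat_lit 2) (@Lb.g g8 (@Lb.g g9 (@Lb.g g10 (@Lb.r r263 (@Lb.r r584 (@Lb.r r598 (@Lb.r r409 (@Lb.d (nat_lit 22) (nat_lit 74) (nat_lit 90) (@Lb.t (@Lb.fp (nat_lit 9) t2))))))))))))
noncomputable def l6206 : Lb := (@Lb.r r263 (@Lb.d (nat_lit 2) (nat_lit 2) (nat_lit 2) (@Lb.g g8 (@Lb.g g9 (@Lb.g g10 (@Lb.r r683 (@Lb.r r168 (@Lb.r r106 (@Lb.r r25 (@Lb.d (nat_lit 42) (nat_lit 9) (nat_lit 5) (@Lb.t (@Lb.fm (nat_lit 9) t128))))))))))))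
noncomputable def l6207 : Lb := (@Lb.r r323 (@Lb.d (nat_lit 6) (nat_lit 256) (nat_lit 1) (@Lb.g g8 (@Lb.g g9 (@Lb.g g6 (@Lb.r r387 (@Lb.r r2153 (@Lb.r r36 (@Lb.d (nat_lit 297) (nat_lit 2) (nat_lit 98) (@Lb.t (@Lb.fm (nat_lit 9) t40)))))))))))
noncomputable def l6208 : Lb := (@Lb.r r323 (@Lb.d (nat_lit 1) (nat_lit 322) (nat_lit 2) (@Lb.g g4 (@Lb.g g9 (@Lb.g g10 (@Lb.r r354 (@Lb.r r387 (@Lb.d (nat_lit 1) (nat_lit 96) (nat_lit 74) (@Lb.t (@Lb.fp (nat_lit 9) t51))))))))))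
noncomputable def l6209 : Lb := (@Lb.d (nat_lit 5) (nat_lit 513) (nat_lit 0) (@Lb.g g4 (@Lb.g g5 (@Lb.d (nat_lit 6) (nat_lit 1) (nat_lit 0) (@Lb.fm (nat_lit 3) t2)))))
noncomputable def l6210 : Lb := (@Lb.r r70 (@Lb.d (nat_lit 166) (nat_lit 517) (nat_lit 64) (@Lb.g g8 (@Lb.g g5 (@Lb.g g11 (@Lb.r r1563 (@Lb.r r2438 (@Lb.r r2648 (@Lb.d (nat_lit 649) (nat_lit 169) (nat_lit 153) (@Lb.t (@Lb.fm (nat_lit 9) t50)))))))))))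
noncomputable def l6211 : Lb := (@Lb.r r289 (@Lb.r r535 (@Lb.r r328 (@Lb.r r134 (@Lb.d (nat_lit 0) (nat_lit 266) (nat_lit 2) (@Lb.fp (nat_lit 1) t40))))))
noncomputable def l6212 : Lb := (@Lb.g g7 (@Lb.r r289 (@Lb.r r535 (@Lb.r r328 (@Lb.r r134 (@Lb.t (@Lb.fm (nat_lit 3) t40)))))))
noncomputable def l6213 : Lb := (@Lb.g g7 (@Lb.r r609 (@Lb.r r363 (@Lb.r r328 (@Lb.r r134 (@Lb.d (nat_lit 512) (nat_lit 0) (nat_lit 16) (@Lb.t (@Lb.fp (nat_lit 3) t40))))))))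
noncomputable def l6214 : Lb := (@Lb.r r323 (@Lb.d (nat_lit 6) (nat_lit 64) (nat_lit 2) (@Lb.g g4 (@Lb.g g9 (@Lb.g g10 (@Lb.r r354 (@Lb.r r387 (@Lb.d (nat_lit 1) (nat_lit 33) (nat_lit 74) (@Lb.t (@Lb.fp (nat_lit 9) t51))))))))))
noncomputable def l6215 : Lb := (@Lb.r r323 (@Lb.d (nat_lit 2) (nat_lit 4) (nat_lit 0) (@Lb.g g8 (@Lb.g g9 (@Lb.g g10 (@Lb.r r2634 (@Lb.r r2643 (@Lb.r r1320 (@Lb.r r1433 (@Lb.d (nat_lit 666) (nat_lit 37) (nat_lit 297) (@Lb.t (@Lb.fm (nat_lit 9) t501))))))))))))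
noncomputable def l6216 : Lb := (@Lb.r r1114 (@Lb.r r20 (@Lb.r r1049 (@Lb.d (nat_lit 517) (nat_lit 0) (nat_lit 0) (@Lb.fp (nat_lit 1) t994)))))
noncomputable def l6217 : Lb := (@Lb.r r21 (@Lb.d (nat_lit 10) (nat_lit 512) (nat_lit 2) (@Lb.g g8 (@Lb.g g10 (@Lb.r r667 (@Lb.r r2405 (@Lb.r r1178 (@Lb.r r1156 (@Lb.d (nat_lit 340) (nat_lit 64) (nat_lit 406) (@Lb.fp (nat_lit 3) t284))))))))))
noncomputable def l6218 : Lb := (@Lb.d (nat_lit 2) (nat_lit 520) (nat_lit 2) (@Lb.g g8 (@Lb.g g10 (@Lb.r r1563 (@Lb.r r1317 (@Lb.r r2628 (@Lb.r r1434 (@Lb.d (nat_lit 5) (nat_lit 10) (nat_lit 546) (@Lb.fp (nat_lit 3) t1663)))))))))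
noncomputable def l6219 : Lb := (@Lb.d (nat_lit 4) (nat_lit 129) (nat_lit 34) (@Lb.r r609 (@Lb.r r619 (@Lb.r r584 (@Lb.g g7 (@Lb.g g10 (@Lb.g g5 (@Lb.d (nat_lit 32) (nat_lit 0) (nat_lit 65) (@Lb.t (@Lb.fp (nat_lit 9) t42))))))))))
noncomputable def l6220 : Lb := (@Lb.d (nat_lit 4) (nat_lit 129) (nat_lit 34) (@Lb.r r609 (@Lb.r r619 (@Lb.r r584 (@Lb.g g7 (@Lb.g g10 (@Lb.d (nat_lit 32) (nat_lit 0) (nat_lit 65) (@Lb.fm (nat_lit 3) t42))))))))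
noncomputable def l6221 : Lb := (@Lb.d (nat_lit 2) (nat_lit 258) (nat_lit 2) (@Lb.g g8 (@Lb.g g9 (@Lb.g g10 (@Lb.r r683 (@Lb.r r1634 (@Lb.r r1572 (@Lb.r r1637 (@Lb.d (nat_lit 400) (nat_lit 154) (nat_lit 154) (@Lb.t (@Lb.fm (nat_lit 9) t1122)))))))))))
noncomputable def l6222 : Lb := (@Lb.r r1114 (@Lb.r r20 (@Lb.r r1049 (@Lb.d (nat_lit 518) (nat_lit 512) (nat_lit 0) (@Lb.fp (nat_lit 1) t994)))))
noncomputable def l6223 : Lb := (@Lb.d (nat_lit 1) (nat_lit 260) (nat_lit 128) (@Lb.g g8 (@Lb.g g9 (@Lb.g g10 (@Lb.g g11 (@Lb.r r2666 (@Lb.r r612 (@Lb.r r615 (@Lb.r r2657 (@Lb.r r2084 (@Lb.d (nat_lit 617) (nat_lit 89) (nat_lit 73) (@Lb.fp (nat_lit 9) t1664))))))))))))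
noncomputable def l6224 : Lb := (@Lb.d (nat_lit 2) (nat_lit 514) (nat_lit 2) (@Lb.g g8 (@Lb.g g9 (@Lb.g g10 (@Lb.r r683 (@Lb.r r1634 (@Lb.r r1572 (@Lb.r r1637 (@Lb.d (nat_lit 400) (nat_lit 149) (nat_lit 153) (@Lb.t (@Lb.fm (nat_lit 9) t1122)))))))))))
noncomputable def l6225 : Lb := (@Lb.r r82 (@Lb.r r275 (@Lb.d (nat_lit 33) (nat_lit 522) (nat_lit 0) (@Lb.g g8 (@Lb.g g5 (@Lb.r r667 (@Lb.r r102 (@Lb.r r132 (@Lb.d (nat_lit 32) (nat_lit 10) (nat_lit 17) (@Lb.fm (nat_lit 3) t390))))))))))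
noncomputable def l6226 : Lb := (@Lb.d (nat_lit 10) (nat_lit 520) (nat_lit 130) (@Lb.g g8 (@Lb.g g10 (@Lb.g g11 (@Lb.r r353 (@Lb.r r407 (@Lb.r r612 (@Lb.r r154 (@Lb.d (nat_lit 18) (nat_lit 0) (nat_lit 134) (@Lb.t (@Lb.fm (nat_lit 9) t45)))))))))))
noncomputable def l6227 : Lb := (@Lb.d (nat_lit 128) (nat_lit 8) (nat_lit 130) (@Lb.g g10 (@Lb.g g11 (@Lb.r r264 (@Lb.r r519 (@Lb.r r101 (@Lb.r r154 (@Lb.d (nat_lit 146) (nat_lit 0) (nat_lit 64) (@Lb.fm (nat_lit 3) t45)))))))))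
noncomputable def l6228 : Lb := (@Lb.d (nat_lit 10) (nat_lit 520) (nat_lit 130) (@Lb.g g8 (@Lb.g g10 (@Lb.g g11 (@Lb.r r353 (@Lb.r r407 (@Lb.r r612 (@Lb.r r154 (@Lb.d (nat_lit 18) (nat_lit 10) (nat_lit 5) (@Lb.t (@Lb.fm (nat_lit 9) t2)))))))))))
noncomputable def l6229 : Lb := (@Lb.d (nat_lit 37) (nat_lit 257) (nat_lit 69) (@Lb.r r154 (@Lb.r r664 (@Lb.r r667 (@Lb.r r353 (@Lb.g g7 (@Lb.g g6 (@Lb.g g4 (@Lb.d (nat_lit 1) (nat_lit 0) (nat_lit 10) (@Lb.t (@Lb.fp (nat_lit 9) t51)))))))))))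
noncomputable def l6230 : Lb := (@Lb.r r275 (@Lb.d (nat_lit 129) (nat_lit 0) (nat_lit 2) (@Lb.g g8 (@Lb.g g9 (@Lb.g g10 (@Lb.r r610 (@Lb.r r583 (@Lb.r r2345 (@Lb.r r264 (@Lb.d (nat_lit 129) (nat_lit 130) (nat_lit 144) (@Lb.t (@Lb.fp (nat_lit 9) t1665))))))))))))
noncomputable def l6231 : Lb := (@Lb.d (nat_lit 0) (nat_lit 545) (nat_lit 73) (@Lb.g g4 (@Lb.g g9 (@Lb.g g10 (@Lb.g g11 (@Lb.r r387 (@Lb.r r1682 (@Lb.r r529 (@Lb.d (nat_lit 0) (nat_lit 2) (nat_lit 344) (@Lb.fp (nat_lit 9) t393))))))))))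
noncomputable def l6232 : Lb := (@Lb.d (nat_lit 133) (nat_lit 546) (nat_lit 66) (@Lb.g g8 (@Lb.g g9 (@Lb.g g10 (@Lb.g g11 (@Lb.r r419 (@Lb.r r421 (@Lb.r r98 (@Lb.r r516 (@Lb.d (nat_lit 38) (nat_lit 17) (nat_lit 86) (@Lb.fm (nat_lit 9) t390)))))))))))
noncomputable def l6233 : Lb := (@Lb.d (nat_lit 4) (nat_lit 517) (nat_lit 64) (@Lb.g g8 (@Lb.g g9 (@Lb.g g10 (@Lb.g g7 (@Lb.r r386 (@Lb.r r97 (@Lb.r r24 (@Lb.d (nat_lit 0) (nat_lit 10) (nat_lit 9) (@Lb.fp (nat_lit 9) t42))))))))))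
noncomputable def l6234 : Lb := (@Lb.r r263 (@Lb.d (nat_lit 16) (nat_lit 260) (nat_lit 1) (@Lb.g g8 (@Lb.g g9 (@Lb.g g10 (@Lb.r r683 (@Lb.r r610 (@Lb.r r597 (@Lb.r r392 (@Lb.d (nat_lit 149) (nat_lit 25) (nat_lit 137) (@Lb.t (@Lb.fm (nat_lit 9) t841))))))))))))
noncomputable def l6235 : Lb := (@Lb.d (nat_lit 34) (nat_lit 512) (nat_lit 128) (@Lb.g g8 (@Lb.g g11 (@Lb.r r1610 (@Lb.r r1367 (@Lb.r r609 (@Lb.r r2132 (@Lb.d (nat_lit 24) (nat_lit 73) (nat_lit 100) (@Lb.fp (nat_lit 3) t71)))))))))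
noncomputable def l6236 : Lb := (@Lb.d (nat_lit 6) (nat_lit 5) (nat_lit 64) (@Lb.g g8 (@Lb.g g9 (@Lb.g g10 (@Lb.g g7 (@Lb.r r386 (@Lb.r r2153 (@Lb.r r36 (@Lb.d (nat_lit 297) (nat_lit 2) (nat_lit 41) (@Lb.fm (nat_lit 9) t42))))))))))
noncomputable def l6237 : Lb := (@Lb.d (nat_lit 1) (nat_lit 66) (nat_lit 130) (@Lb.g g4 (@Lb.g g9 (@Lb.g g10 (@Lb.g g11 (@Lb.r r419 (@Lb.r r98 (@Lb.d (nat_lit 1) (nat_lit 70) (nat_lit 136) (@Lb.fm (nat_lit 9) t51)))))))))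
noncomputable def l6238 : Lb := (@Lb.r r70 (@Lb.d (nat_lit 166) (nat_lit 5) (nat_lit 64) (@Lb.g g8 (@Lb.g g5 (@Lb.g g11 (@Lb.r r1563 (@Lb.r r2438 (@Lb.r r2648 (@Lb.d (nat_lit 649) (nat_lit 164) (nat_lit 152) (@Lb.t (@Lb.fm (nat_lit 9) t50)))))))))))
noncomputable def l6239 : Lb := (@Lb.d (nat_lit 2) (nat_lit 32) (nat_lit 128) (@Lb.g g8 (@Lb.g g10 (@Lb.g g11 (@Lb.r r2730 (@Lb.r r101 (@Lb.r r404 (@Lb.r r299 (@Lb.d (nat_lit 641) (nat_lit 73) (nat_lit 137) (@Lb.t (@Lb.fm (nat_lit 9) t51)))))))))))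
noncomputable def l6240 : Lb := (@Lb.g g10 (@Lb.g g7 (@Lb.r r609 (@Lb.r r363 (@Lb.r r328 (@Lb.r r134 (@Lb.d (nat_lit 517) (nat_lit 513) (nat_lit 16) (@Lb.fm (nat_lit 3) t40))))))))
noncomputable def l6241 : Lb := (@Lb.d (nat_lit 0) (nat_lit 256) (nat_lit 128) (@Lb.g g10 (@Lb.g g11 (@Lb.r r353 (@Lb.r r663 (@Lb.r r328 (@Lb.r r134 (@Lb.d (nat_lit 34) (nat_lit 5) (nat_lit 0) (@Lb.fm (nat_lit 3) t40)))))))))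
noncomputable def l6242 : Lb := (@Lb.d (nat_lit 0) (nat_lit 0) (nat_lit 128) (@Lb.g g10 (@Lb.g g11 (@Lb.r r353 (@Lb.r r663 (@Lb.r r328 (@Lb.r r134 (@Lb.d (nat_lit 41) (nat_lit 2) (nat_lit 2) (@Lb.fm (nat_lit 3) t40)))))))))
noncomputable def l6243 : Lb := (@Lb.r r323 (@Lb.d (nat_lit 6) (nat_lit 320) (nat_lit 2) (@Lb.g g4 (@Lb.g g9 (@Lb.g g10 (@Lb.r r354 (@Lb.r r387 (@Lb.d (nat_lit 1) (nat_lit 149) (nat_lit 321) (@Lb.t (@Lb.fp (nat_lit 9) t51))))))))))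
noncomputable def l6244 : Lb := (@Lb.d (nat_lit 32) (nat_lit 0) (nat_lit 128) (@Lb.g g10 (@Lb.g g11 (@Lb.r r1384 (@Lb.r r2471 (@Lb.r r2449 (@Lb.r r2386 (@Lb.d (nat_lit 0) (nat_lit 152) (nat_lit 676) (@Lb.fp (nat_lit 3) t40)))))))))
noncomputable def l6245 : Lb := (@Lb.d (nat_lit 37) (nat_lit 258) (nat_lit 130) (@Lb.g g8 (@Lb.g g9 (@Lb.g g10 (@Lb.g g11 (@Lb.r r619 (@Lb.r r1610 (@Lb.r r1445 (@Lb.r r600 (@Lb.d (nat_lit 146) (nat_lit 100) (nat_lit 665) (@Lb.fm (nat_lit 9) t50)))))))))))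
noncomputable def l6246 : Lb := (@Lb.r r323 (@Lb.d (nat_lit 6) (nat_lit 576) (nat_lit 2) (@Lb.g g4 (@Lb.g g9 (@Lb.g g10 (@Lb.r r354 (@Lb.r r387 (@Lb.d (nat_lit 1) (nat_lit 144) (nat_lit 320) (@Lb.t (@Lb.fp (nat_lit 9) t51))))))))))
noncomputable def l6247 : Lb := (@Lb.d (nat_lit 2) (nat_lit 1) (nat_lit 128) (@Lb.g g8 (@Lb.g g9 (@Lb.g g10 (@Lb.g g11 (@Lb.r r2730 (@Lb.r r680 (@Lb.r r555 (@Lb.r r529 (@Lb.r r36 (@Lb.d (nat_lit 521) (nat_lit 97) (nat_lit 74) (@Lb.fm (nat_lit 9) t51))))))))))))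
noncomputable def l6248 : Lb := (@Lb.r r323 (@Lb.d (nat_lit 130) (nat_lit 290) (nat_lit 10) (@Lb.g g8 (@Lb.g g9 (@Lb.g g10 (@Lb.r r275 (@Lb.r r609 (@Lb.r r598 (@Lb.r r408 (@Lb.d (nat_lit 25) (nat_lit 74) (nat_lit 74) (@Lb.t (@Lb.fm (nat_lit 9) t2))))))))))))
noncomputable def l6249 : Lb := (@Lb.d (nat_lit 154) (nat_lit 513) (nat_lit 128) (@Lb.g g8 (@Lb.g g9 (@Lb.g g10 (@Lb.g g11 (@Lb.r r2722 (@Lb.r r2439 (@Lb.r r145 (@Lb.r r2632 (@Lb.d (nat_lit 616) (nat_lit 137) (nat_lit 425) (@Lb.fp (nat_lit 9) t1666)))))))))))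
noncomputable def l6250 : Lb := (@Lb.d (nat_lit 154) (nat_lit 1) (nat_lit 128) (@Lb.g g8 (@Lb.g g9 (@Lb.g g10 (@Lb.g g11 (@Lb.r r2722 (@Lb.r r2439 (@Lb.r r145 (@Lb.r r2632 (@Lb.d (nat_lit 616) (nat_lit 132) (nat_lit 424) (@Lb.fp (nat_lit 9) t1666)))))))))))
noncomputable def l6251 : Lb := (@Lb.r r21 (@Lb.d (nat_lit 8) (nat_lit 512) (nat_lit 2) (@Lb.g g8 (@Lb.g g10 (@Lb.r r667 (@Lb.r r2405 (@Lb.r r1178 (@Lb.r r1156 (@Lb.d (nat_lit 340) (nat_lit 64) (nat_lit 337) (@Lb.fp (nat_lit 3) t284))))))))))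
noncomputable def l6252 : Lb := (@Lb.d (nat_lit 41) (nat_lit 10) (nat_lit 64) (@Lb.g g8 (@Lb.g g9 (@Lb.g g11 (@Lb.r r1671 (@Lb.r r582 (@Lb.r r1432 (@Lb.r r1045 (@Lb.d (nat_lit 516) (nat_lit 25) (nat_lit 648) (@Lb.t (@Lb.fm (nat_lit 9) t386)))))))))))
noncomputable def l6253 : Lb := (@Lb.r r326 (@Lb.d (nat_lit 386) (nat_lit 258) (nat_lit 128) (@Lb.g g8 (@Lb.g g9 (@Lb.g g11 (@Lb.r r1323 (@Lb.r r2626 (@Lb.r r25 (@Lb.d (nat_lit 9) (nat_lit 170) (nat_lit 642) (@Lb.t (@Lb.fm (nat_lit 9) t898)))))))))))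
noncomputable def l6254 : Lb := (@Lb.d (nat_lit 144) (nat_lit 514) (nat_lit 64) (@Lb.g g8 (@Lb.g g9 (@Lb.g g10 (@Lb.g g11 (@Lb.r r427 (@Lb.r r1602 (@Lb.r r409 (@Lb.r r388 (@Lb.d (nat_lit 105) (nat_lit 96) (nat_lit 74) (@Lb.fp (nat_lit 9) t898)))))))))))
noncomputable def l6255 : Lb := (@Lb.d (nat_lit 34) (nat_lit 0) (nat_lit 64) (@Lb.g g8 (@Lb.g g11 (@Lb.r r1687 (@Lb.r r598 (@Lb.r r2457 (@Lb.r r408 (@Lb.d (nat_lit 666) (nat_lit 26) (nat_lit 168) (@Lb.fm (nat_lit 3) t386)))))))))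
noncomputable def l6256 : Lb := (@Lb.d (nat_lit 406) (nat_lit 402) (nat_lit 145) (@Lb.r r1604 (@Lb.r r1621 (@Lb.r r1706 (@Lb.g g11 (@Lb.g g6 (@Lb.g g5 (@Lb.g g4 (@Lb.d (nat_lit 1) (nat_lit 1) (nat_lit 74) (@Lb.fp (nat_lit 9) t61))))))))))
noncomputable def l6257 : Lb := (@Lb.d (nat_lit 144) (nat_lit 2) (nat_lit 64) (@Lb.g g8 (@Lb.g g9 (@Lb.g g10 (@Lb.g g11 (@Lb.r r427 (@Lb.r r1602 (@Lb.r r409 (@Lb.r r388 (@Lb.d (nat_lit 105) (nat_lit 106) (nat_lit 73) (@Lb.fp (nat_lit 9) t898)))))))))))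
noncomputable def l6258 : Lb := (@Lb.d (nat_lit 6) (nat_lit 262) (nat_lit 128) (@Lb.g g8 (@Lb.g g9 (@Lb.g g10 (@Lb.g g11 (@Lb.r r618 (@Lb.r r612 (@Lb.r r615 (@Lb.r r609 (@Lb.r r36 (@Lb.d (nat_lit 2) (nat_lit 26) (nat_lit 130) (@Lb.fp (nat_lit 9) t524))))))))))))
noncomputable def l6259 : Lb := (@Lb.r r322 (@Lb.d (nat_lit 1) (nat_lit 16) (nat_lit 648) (@Lb.g g4 (@Lb.g g9 (@Lb.g g7 (@Lb.r r1610 (@Lb.r r1121 (@Lb.d (nat_lit 16) (nat_lit 10) (nat_lit 132) (@Lb.t (@Lb.fp (nat_lit 9) t1667))))))))))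
noncomputable def l6260 : Lb := (@Lb.d (nat_lit 34) (nat_lit 256) (nat_lit 0) (@Lb.g g8 (@Lb.r r2150 (@Lb.r r1125 (@Lb.r r148 (@Lb.d (nat_lit 5) (nat_lit 10) (nat_lit 18) (@Lb.t (@Lb.fm (nat_lit 3) t246))))))))
noncomputable def l6261 : Lb := (@Lb.r r323 (@Lb.d (nat_lit 4) (nat_lit 256) (nat_lit 1) (@Lb.g g8 (@Lb.g g9 (@Lb.g g6 (@Lb.r r387 (@Lb.r r2153 (@Lb.r r36 (@Lb.d (nat_lit 297) (nat_lit 2) (nat_lit 34) (@Lb.t (@Lb.fm (nat_lit 9) t40)))))))))))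
noncomputable def l6262 : Lb := (@Lb.d (nat_lit 149) (nat_lit 338) (nat_lit 513) (@Lb.r r289 (@Lb.r r70 (@Lb.r r420 (@Lb.g g11 (@Lb.g g6 (@Lb.d (nat_lit 16) (nat_lit 0) (nat_lit 1) (@Lb.fm (nat_lit 3) t501))))))))
noncomputable def l6263 : Lb := (@Lb.d (nat_lit 38) (nat_lit 512) (nat_lit 128) (@Lb.g g8 (@Lb.g g9 (@Lb.g g11 (@Lb.r r406 (@Lb.r r1643 (@Lb.r r1640 (@Lb.r r25 (@Lb.d (nat_lit 514) (nat_lit 154) (nat_lit 546) (@Lb.t (@Lb.fp (nat_lit 9) t564)))))))))))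
noncomputable def l6264 : Lb := (@Lb.d (nat_lit 134) (nat_lit 592) (nat_lit 576) (@Lb.r r2584 (@Lb.r r1626 (@Lb.r r2587 (@Lb.g g7 (@Lb.g g9 (@Lb.g g4 (@Lb.d (nat_lit 1) (nat_lit 1) (nat_lit 64) (@Lb.r r98 (@Lb.t (@Lb.fm (nat_lit 9) t1668)))))))))))
noncomputable def l6265 : Lb := (@Lb.d (nat_lit 33) (nat_lit 2) (nat_lit 129) (@Lb.g g8 (@Lb.g g9 (@Lb.g g10 (@Lb.g g11 (@Lb.r r2375 (@Lb.r r1689 (@Lb.r r1170 (@Lb.r r612 (@Lb.d (nat_lit 404) (nat_lit 150) (nat_lit 153) (@Lb.fm (nat_lit 9) t1669)))))))))))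
noncomputable def l6266 : Lb := (@Lb.d (nat_lit 161) (nat_lit 514) (nat_lit 8) (@Lb.g g8 (@Lb.g g9 (@Lb.g g6 (@Lb.r r407 (@Lb.r r2665 (@Lb.r r2644 (@Lb.d (nat_lit 664) (nat_lit 34) (nat_lit 410) (@Lb.t (@Lb.fm (nat_lit 9) t199))))))))))
noncomputable def l6267 : Lb := (@Lb.d (nat_lit 8) (nat_lit 4) (nat_lit 74) (@Lb.g g8 (@Lb.g g9 (@Lb.g g10 (@Lb.g g11 (@Lb.r r2691 (@Lb.r r1450 (@Lb.r r289 (@Lb.r r24 (@Lb.d (nat_lit 138) (nat_lit 33) (nat_lit 168) (@Lb.fp (nat_lit 9) t377)))))))))))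
noncomputable def l6268 : Lb := (@Lb.d (nat_lit 9) (nat_lit 2) (nat_lit 130) (@Lb.g g8 (@Lb.g g9 (@Lb.g g10 (@Lb.g g11 (@Lb.r r2731 (@Lb.r r2601 (@Lb.r r616 (@Lb.r r2118 (@Lb.r r1156 (@Lb.d (nat_lit 2) (nat_lit 25) (nat_lit 297) (@Lb.fm (nat_lit 9) t591))))))))))))
noncomputable def l6269 : Lb := (@Lb.r r323 (@Lb.d (nat_lit 9) (nat_lit 513) (nat_lit 1) (@Lb.g g8 (@Lb.g g9 (@Lb.g g6 (@Lb.r r2347 (@Lb.r r97 (@Lb.r r24 (@Lb.d (nat_lit 266) (nat_lit 9) (nat_lit 66) (@Lb.t (@Lb.fp (nat_lit 9) t314)))))))))))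
noncomputable def l6270 : Lb := (@Lb.r r323 (@Lb.d (nat_lit 4) (nat_lit 512) (nat_lit 1) (@Lb.g g8 (@Lb.g g9 (@Lb.g g6 (@Lb.r r387 (@Lb.r r97 (@Lb.r r24 (@Lb.d (nat_lit 10) (nat_lit 9) (nat_lit 2) (@Lb.t (@Lb.fp (nat_lit 9) t40)))))))))))
noncomputable def l6271 : Lb := (@Lb.r r21 (@Lb.d (nat_lit 8) (nat_lit 256) (nat_lit 2) (@Lb.g g8 (@Lb.g g10 (@Lb.g g11 (@Lb.r r667 (@Lb.r r2405 (@Lb.r r1178 (@Lb.r r1156 (@Lb.d (nat_lit 345) (nat_lit 65) (nat_lit 406) (@Lb.t (@Lb.fp (nat_lit 9) t284))))))))))))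
noncomputable def l6272 : Lb := (@Lb.d (nat_lit 34) (nat_lit 512) (nat_lit 0) (@Lb.g g4 (@Lb.r r426 (@Lb.r r289 (@Lb.r r680 (@Lb.d (nat_lit 169) (nat_lit 128) (nat_lit 138) (@Lb.t (@Lb.fp (nat_lit 3) t1115))))))))
noncomputable def l6273 : Lb := (@Lb.d (nat_lit 0) (nat_lit 256) (nat_lit 130) (@Lb.g g10 (@Lb.g g11 (@Lb.r r2435 (@Lb.r r386 (@Lb.r r101 (@Lb.r r2200 (@Lb.d (nat_lit 352) (nat_lit 5) (nat_lit 425) (@Lb.fp (nat_lit 3) t1670)))))))))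
noncomputable def l6274 : Lb := (@Lb.r r21 (@Lb.d (nat_lit 17) (nat_lit 256) (nat_lit 74) (@Lb.g g8 (@Lb.g g10 (@Lb.g g11 (@Lb.r r2707 (@Lb.r r1450 (@Lb.r r297 (@Lb.r r276 (@Lb.d (nat_lit 657) (nat_lit 105) (nat_lit 168) (@Lb.t (@Lb.fp (nat_lit 9) t377))))))))))))
noncomputable def l6275 : Lb := (@Lb.d (nat_lit 2) (nat_lit 0) (nat_lit 2) (@Lb.g g8 (@Lb.g g9 (@Lb.g g10 (@Lb.g g11 (@Lb.r r682 (@Lb.r r676 (@Lb.r r551 (@Lb.r r1557 (@Lb.r r36 (@Lb.d (nat_lit 388) (nat_lit 64) (nat_lit 517) (@Lb.fp (nat_lit 9) t284))))))))))))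
noncomputable def l6276 : Lb := (@Lb.d (nat_lit 5) (nat_lit 322) (nat_lit 128) (@Lb.r r289 (@Lb.r r535 (@Lb.r r328 (@Lb.r r2470 (@Lb.g g7 (@Lb.g g6 (@Lb.g g5 (@Lb.d (nat_lit 0) (nat_lit 0) (nat_lit 132) (@Lb.t (@Lb.fp (nat_lit 9) t1671)))))))))))
noncomputable def l6277 : Lb := (@Lb.r r323 (@Lb.d (nat_lit 0) (nat_lit 2) (nat_lit 1) (@Lb.g g8 (@Lb.g g9 (@Lb.g g6 (@Lb.r r2347 (@Lb.r r97 (@Lb.r r24 (@Lb.d (nat_lit 266) (nat_lit 9) (nat_lit 66) (@Lb.t (@Lb.fp (nat_lit 9) t314)))))))))))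
noncomputable def l6278 : Lb := (@Lb.r r323 (@Lb.d (nat_lit 4) (nat_lit 0) (nat_lit 1) (@Lb.g g8 (@Lb.g g6 (@Lb.r r387 (@Lb.r r2073 (@Lb.d (nat_lit 548) (nat_lit 70) (nat_lit 96) (@Lb.fp (nat_lit 3) t382))))))))
noncomputable def l6279 : Lb := (@Lb.d (nat_lit 4) (nat_lit 36) (nat_lit 128) (@Lb.g g8 (@Lb.g g9 (@Lb.g g10 (@Lb.g g11 (@Lb.r r1689 (@Lb.r r1560 (@Lb.r r1419 (@Lb.r r386 (@Lb.d (nat_lit 384) (nat_lit 10) (nat_lit 70) (@Lb.fp (nat_lit 9) t1672)))))))))))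
noncomputable def l6280 : Lb := (@Lb.d (nat_lit 6) (nat_lit 512) (nat_lit 0) (@Lb.g g4 (@Lb.d (nat_lit 6) (nat_lit 65) (nat_lit 0) (@Lb.t (@Lb.fm (nat_lit 3) t2)))))
noncomputable def l6281 : Lb := (@Lb.d (nat_lit 390) (nat_lit 272) (nat_lit 640) (@Lb.r r1307 (@Lb.r r1428 (@Lb.r r1174 (@Lb.g g7 (@Lb.g g6 (@Lb.g g9 (@Lb.d (nat_lit 0) (nat_lit 26) (nat_lit 128) (@Lb.r r36 (@Lb.t (@Lb.fp (nat_lit 9) t329)))))))))))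
noncomputable def l6282 : Lb := (@Lb.r r1045 (@Lb.r r1094 (@Lb.r r1287 (@Lb.g g8 (@Lb.r r8 (@Lb.t (@Lb.p (nat_lit 1) (@Lb.fm (nat_lit 3) t428))))))))
noncomputable def l6283 : Lb := (@Lb.d (nat_lit 0) (nat_lit 265) (nat_lit 129) (@Lb.g g8 (@Lb.g g9 (@Lb.g g10 (@Lb.g g11 (@Lb.r r427 (@Lb.r r297 (@Lb.r r104 (@Lb.r r70 (@Lb.r r132 (@Lb.d (nat_lit 9) (nat_lit 73) (nat_lit 393) (@Lb.fp (nat_lit 9) t394))))))))))))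
noncomputable def l6284 : Lb := (@Lb.d (nat_lit 4) (nat_lit 25) (nat_lit 9) (@Lb.r r657 (@Lb.r r666 (@Lb.r r420 (@Lb.r r347 (@Lb.g g7 (@Lb.g g6 (@Lb.g g5 (@Lb.d (nat_lit 4) (nat_lit 0) (nat_lit 134) (@Lb.t (@Lb.fm (nat_lit 9) t68)))))))))))
noncomputable def l6285 : Lb := (@Lb.r r70 (@Lb.r r263 (@Lb.d (nat_lit 521) (nat_lit 1) (nat_lit 0) (@Lb.g g4 (@Lb.g g9 (@Lb.r r267 (@Lb.r r74 (@Lb.r r37 (@Lb.d (nat_lit 266) (nat_lit 130) (nat_lit 0) (@Lb.fm (nat_lit 3) t68))))))))))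
noncomputable def l6286 : Lb := (@Lb.d (nat_lit 2) (nat_lit 0) (nat_lit 130) (@Lb.g g8 (@Lb.g g10 (@Lb.g g11 (@Lb.r r2459 (@Lb.r r2193 (@Lb.r r2646 (@Lb.r r1416 (@Lb.d (nat_lit 618) (nat_lit 9) (nat_lit 612) (@Lb.t (@Lb.fp (nat_lit 9) t221)))))))))))
noncomputable def l6287 : Lb := (@Lb.d (nat_lit 2) (nat_lit 0) (nat_lit 130) (@Lb.g g8 (@Lb.g g10 (@Lb.g g11 (@Lb.r r2459 (@Lb.r r2193 (@Lb.r r2646 (@Lb.r r1416 (@Lb.d (nat_lit 152) (nat_lit 9) (nat_lit 393) (@Lb.t (@Lb.fp (nat_lit 9) t221)))))))))))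
noncomputable def l6288 : Lb := (@Lb.r r323 (@Lb.d (nat_lit 0) (nat_lit 546) (nat_lit 2) (@Lb.g g8 (@Lb.g g9 (@Lb.g g10 (@Lb.r r599 (@Lb.r r74 (@Lb.r r296 (@Lb.r r409 (@Lb.d (nat_lit 149) (nat_lit 149) (nat_lit 393) (@Lb.t (@Lb.fm (nat_lit 9) t51))))))))))))
noncomputable def l6289 : Lb := (@Lb.r r323 (@Lb.d (nat_lit 0) (nat_lit 289) (nat_lit 2) (@Lb.g g8 (@Lb.g g9 (@Lb.g g10 (@Lb.r r2647 (@Lb.r r74 (@Lb.r r1320 (@Lb.r r1433 (@Lb.d (nat_lit 661) (nat_lit 21) (nat_lit 681) (@Lb.t (@Lb.fm (nat_lit 9) t51))))))))))))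
noncomputable def l6290 : Lb := (@Lb.d (nat_lit 128) (nat_lit 32) (nat_lit 90) (@Lb.g g10 (@Lb.g g11 (@Lb.r r361 (@Lb.r r1384 (@Lb.r r2455 (@Lb.d (nat_lit 614) (nat_lit 88) (nat_lit 665) (@Lb.fm (nat_lit 3) t322))))))))
noncomputable def l6291 : Lb := (@Lb.d (nat_lit 0) (nat_lit 512) (nat_lit 656) (@Lb.r r276 (@Lb.r r299 (@Lb.r r2345 (@Lb.r r296 (@Lb.g g10 (@Lb.d (nat_lit 0) (nat_lit 8) (nat_lit 34) (@Lb.t (@Lb.fp (nat_lit 3) t322)))))))))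
noncomputable def l6292 : Lb := (@Lb.d (nat_lit 128) (nat_lit 32) (nat_lit 144) (@Lb.g g10 (@Lb.g g11 (@Lb.r r361 (@Lb.r r1384 (@Lb.r r2455 (@Lb.d (nat_lit 614) (nat_lit 81) (nat_lit 538) (@Lb.fm (nat_lit 3) t322))))))))
noncomputable def l6293 : Lb := (@Lb.r r2069 (@Lb.r r2118 (@Lb.d (nat_lit 130) (nat_lit 256) (nat_lit 256) (@Lb.g g8 (@Lb.g g7 (@Lb.r r2312 (@Lb.d (nat_lit 394) (nat_lit 2) (nat_lit 261) (@Lb.fm (nat_lit 3) t325))))))))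
noncomputable def l6294 : Lb := (@Lb.d (nat_lit 2) (nat_lit 514) (nat_lit 74) (@Lb.g g8 (@Lb.g g9 (@Lb.g g10 (@Lb.g g11 (@Lb.r r1666 (@Lb.r r2451 (@Lb.r r1553 (@Lb.d (nat_lit 1) (nat_lit 170) (nat_lit 400) (@Lb.fm (nat_lit 9) t324))))))))))
noncomputable def l6295 : Lb := (@Lb.r r323 (@Lb.d (nat_lit 0) (nat_lit 0) (nat_lit 1) (@Lb.g g9 (@Lb.g g6 (@Lb.r r387 (@Lb.r r101 (@Lb.r r24 (@Lb.d (nat_lit 34) (nat_lit 0) (nat_lit 2) (@Lb.fp (nat_lit 3) t40)))))))))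
noncomputable def l6296 : Lb := (@Lb.d (nat_lit 2) (nat_lit 0) (nat_lit 0) (@Lb.g g8 (@Lb.r r101 (@Lb.r r402 (@Lb.d (nat_lit 144) (nat_lit 0) (nat_lit 85) (@Lb.t (@Lb.fp (nat_lit 3) t590)))))))
noncomputable def l6297 : Lb := (@Lb.d (nat_lit 0) (nat_lit 36) (nat_lit 64) (@Lb.g g9 (@Lb.g g10 (@Lb.g g11 (@Lb.r r1447 (@Lb.r r578 (@Lb.r r1429 (@Lb.r r36 (@Lb.d (nat_lit 357) (nat_lit 162) (nat_lit 618) (@Lb.t (@Lb.fm (nat_lit 9) t842)))))))))))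
noncomputable def l6298 : Lb := (@Lb.d (nat_lit 0) (nat_lit 292) (nat_lit 64) (@Lb.g g9 (@Lb.g g10 (@Lb.g g11 (@Lb.r r1447 (@Lb.r r578 (@Lb.r r1429 (@Lb.r r36 (@Lb.d (nat_lit 357) (nat_lit 169) (nat_lit 617) (@Lb.t (@Lb.fm (nat_lit 9) t842)))))))))))
noncomputable def l6299 : Lb := (@Lb.d (nat_lit 354) (nat_lit 88) (nat_lit 513) (@Lb.r r1444 (@Lb.r r2411 (@Lb.r r345 (@Lb.r r1638 (@Lb.g g6 (@Lb.g g4 (@Lb.d (nat_lit 69) (nat_lit 0) (nat_lit 1) (@Lb.fm (nat_lit 3) t994)))))))))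
noncomputable def l6300 : Lb := (@Lb.d (nat_lit 0) (nat_lit 261) (nat_lit 0) (@Lb.g g8 (@Lb.g g5 (@Lb.g g7 (@Lb.r r402 (@Lb.d (nat_lit 2) (nat_lit 1) (nat_lit 132) (@Lb.t (@Lb.fp (nat_lit 9) t311))))))))
noncomputable def l6301 : Lb := (@Lb.r r323 (@Lb.d (nat_lit 8) (nat_lit 514) (nat_lit 2) (@Lb.g g9 (@Lb.g g10 (@Lb.r r102 (@Lb.r r404 (@Lb.r r683 (@Lb.r r673 (@Lb.d (nat_lit 10) (nat_lit 22) (nat_lit 8) (@Lb.fm (nat_lit 3) t51))))))))))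
noncomputable def l6302 : Lb := (@Lb.d (nat_lit 10) (nat_lit 101) (nat_lit 65) (@Lb.r r20 (@Lb.r r338 (@Lb.g g7 (@Lb.g g6 (@Lb.g g5 (@Lb.d (nat_lit 8) (nat_lit 1) (nat_lit 128) (@Lb.t (@Lb.fp (nat_lit 9) t39)))))))))
noncomputable def l6303 : Lb := (@Lb.d (nat_lit 2) (nat_lit 294) (nat_lit 64) (@Lb.g g8 (@Lb.g g9 (@Lb.g g10 (@Lb.g g11 (@Lb.r r1706 (@Lb.r r1704 (@Lb.r r1579 (@Lb.r r1561 (@Lb.d (nat_lit 586) (nat_lit 33) (nat_lit 586) (@Lb.fm (nat_lit 9) t125)))))))))))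
noncomputable def l6304 : Lb := (@Lb.d (nat_lit 672) (nat_lit 18) (nat_lit 682) (@Lb.r r2713 (@Lb.r r1382 (@Lb.g g11 (@Lb.g g6 (@Lb.g g5 (@Lb.d (nat_lit 0) (nat_lit 42) (nat_lit 389) (@Lb.r r36 (@Lb.t (@Lb.fm (nat_lit 9) t842))))))))))
noncomputable def l6305 : Lb := (@Lb.d (nat_lit 257) (nat_lit 101) (nat_lit 101) (@Lb.r r2068 (@Lb.r r1065 (@Lb.r r424 (@Lb.r r2370 (@Lb.g g7 (@Lb.g g6 (@Lb.g g5 (@Lb.g g4 (@Lb.d (nat_lit 96) (nat_lit 1) (nat_lit 576) (@Lb.fp (nat_lit 9) t282)))))))))))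
noncomputable def l6306 : Lb := (@Lb.d (nat_lit 2) (nat_lit 514) (nat_lit 130) (@Lb.g g8 (@Lb.g g9 (@Lb.g g10 (@Lb.g g11 (@Lb.r r355 (@Lb.r r386 (@Lb.r r1129 (@Lb.r r36 (@Lb.d (nat_lit 261) (nat_lit 1) (nat_lit 84) (@Lb.fp (nat_lit 9) t61)))))))))))
noncomputable def l6307 : Lb := (@Lb.d (nat_lit 0) (nat_lit 2) (nat_lit 73) (@Lb.g g8 (@Lb.g g9 (@Lb.g g10 (@Lb.g g11 (@Lb.r r2691 (@Lb.r r2209 (@Lb.r r2658 (@Lb.d (nat_lit 0) (nat_lit 160) (nat_lit 662) (@Lb.fp (nat_lit 9) t311))))))))))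
noncomputable def l6308 : Lb := (@Lb.d (nat_lit 2) (nat_lit 258) (nat_lit 73) (@Lb.g g8 (@Lb.g g9 (@Lb.g g10 (@Lb.g g11 (@Lb.r r2705 (@Lb.r r356 (@Lb.r r667 (@Lb.r r586 (@Lb.r r1540 (@Lb.d (nat_lit 294) (nat_lit 8) (nat_lit 97) (@Lb.fm (nat_lit 9) t145))))))))))))
noncomputable def l6309 : Lb := (@Lb.r r323 (@Lb.d (nat_lit 32) (nat_lit 256) (nat_lit 2) (@Lb.g g10 (@Lb.r r584 (@Lb.r r619 (@Lb.r r609 (@Lb.d (nat_lit 8) (nat_lit 1) (nat_lit 84) (@Lb.t (@Lb.fm (nat_lit 3) t479)))))))))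
noncomputable def l6310 : Lb := (@Lb.d (nat_lit 0) (nat_lit 548) (nat_lit 133) (@Lb.g g9 (@Lb.g g10 (@Lb.g g11 (@Lb.r r1447 (@Lb.r r2150 (@Lb.r r1429 (@Lb.r r36 (@Lb.d (nat_lit 357) (nat_lit 150) (nat_lit 81) (@Lb.t (@Lb.fm (nat_lit 9) t842)))))))))))
noncomputable def l6311 : Lb := (@Lb.r r322 (@Lb.d (nat_lit 2) (nat_lit 645) (nat_lit 576) (@Lb.g g8 (@Lb.g g5 (@Lb.g g7 (@Lb.r r1426 (@Lb.d (nat_lit 2) (nat_lit 1) (nat_lit 4) (@Lb.t (@Lb.fp (nat_lit 9) t311)))))))))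
noncomputable def l6312 : Lb := (@Lb.d (nat_lit 0) (nat_lit 258) (nat_lit 73) (@Lb.g g8 (@Lb.g g9 (@Lb.g g10 (@Lb.g g11 (@Lb.r r2691 (@Lb.r r2209 (@Lb.r r2658 (@Lb.d (nat_lit 2) (nat_lit 160) (nat_lit 662) (@Lb.fp (nat_lit 9) t311))))))))))
noncomputable def l6313 : Lb := (@Lb.d (nat_lit 0) (nat_lit 514) (nat_lit 73) (@Lb.g g9 (@Lb.g g10 (@Lb.g g11 (@Lb.r r665 (@Lb.r r539 (@Lb.r r1624 (@Lb.r r2438 (@Lb.d (nat_lit 129) (nat_lit 0) (nat_lit 326) (@Lb.t (@Lb.fp (nat_lit 9) t61)))))))))))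
noncomputable def l6314 : Lb := (@Lb.r r323 (@Lb.d (nat_lit 128) (nat_lit 258) (nat_lit 2) (@Lb.g g8 (@Lb.g g9 (@Lb.g g10 (@Lb.r r599 (@Lb.r r98 (@Lb.r r97 (@Lb.r r408 (@Lb.d (nat_lit 149) (nat_lit 150) (nat_lit 33) (@Lb.t (@Lb.fp (nat_lit 9) t295))))))))))))
noncomputable def l6315 : Lb := (@Lb.d (nat_lit 1) (nat_lit 2) (nat_lit 130) (@Lb.g g8 (@Lb.g g9 (@Lb.g g10 (@Lb.g g11 (@Lb.r r2411 (@Lb.r r386 (@Lb.r r97 (@Lb.r r24 (@Lb.d (nat_lit 266) (nat_lit 9) (nat_lit 86) (@Lb.fm (nat_lit 9) t61)))))))))))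
noncomputable def l6316 : Lb := (@Lb.d (nat_lit 10) (nat_lit 258) (nat_lit 130) (@Lb.g g4 (@Lb.g g9 (@Lb.g g10 (@Lb.g g11 (@Lb.r r419 (@Lb.r r98 (@Lb.d (nat_lit 0) (nat_lit 9) (nat_lit 2) (@Lb.fm (nat_lit 9) t51)))))))))
noncomputable def l6317 : Lb := (@Lb.g g7 (@Lb.r r134 (@Lb.r r328 (@Lb.r r535 (@Lb.r r289 (@Lb.d (nat_lit 6) (nat_lit 657) (nat_lit 522) (@Lb.t (@Lb.fm (nat_lit 3) t51))))))))
noncomputable def l6318 : Lb := (@Lb.r r323 (@Lb.d (nat_lit 10) (nat_lit 2) (nat_lit 2) (@Lb.g g4 (@Lb.g g9 (@Lb.g g10 (@Lb.r r354 (@Lb.r r387 (@Lb.d (nat_lit 0) (nat_lit 38) (nat_lit 72) (@Lb.t (@Lb.fp (nat_lit 9) t51))))))))))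
noncomputable def l6319 : Lb := (@Lb.d (nat_lit 2) (nat_lit 514) (nat_lit 73) (@Lb.g g8 (@Lb.g g9 (@Lb.g g10 (@Lb.g g11 (@Lb.r r2666 (@Lb.r r579 (@Lb.r r97 (@Lb.r r24 (@Lb.d (nat_lit 153) (nat_lit 9) (nat_lit 326) (@Lb.fm (nat_lit 9) t61)))))))))))
noncomputable def l6320 : Lb := (@Lb.r r323 (@Lb.d (nat_lit 128) (nat_lit 258) (nat_lit 2) (@Lb.g g8 (@Lb.g g9 (@Lb.g g10 (@Lb.r r2410 (@Lb.r r2409 (@Lb.r r1367 (@Lb.r r2696 (@Lb.d (nat_lit 345) (nat_lit 70) (nat_lit 420) (@Lb.t (@Lb.fm (nat_lit 9) t51))))))))))))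
noncomputable def l6321 : Lb := (@Lb.r r323 (@Lb.d (nat_lit 137) (nat_lit 34) (nat_lit 10) (@Lb.g g8 (@Lb.g g9 (@Lb.g g10 (@Lb.r r1299 (@Lb.r r2657 (@Lb.r r598 (@Lb.r r408 (@Lb.d (nat_lit 278) (nat_lit 138) (nat_lit 330) (@Lb.t (@Lb.fm (nat_lit 9) t2))))))))))))
noncomputable def l6322 : Lb := (@Lb.r r323 (@Lb.d (nat_lit 10) (nat_lit 258) (nat_lit 2) (@Lb.g g4 (@Lb.g g9 (@Lb.g g10 (@Lb.r r354 (@Lb.r r387 (@Lb.d (nat_lit 0) (nat_lit 33) (nat_lit 74) (@Lb.t (@Lb.fp (nat_lit 9) t51))))))))))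
noncomputable def l6323 : Lb := (@Lb.r r323 (@Lb.d (nat_lit 136) (nat_lit 8) (nat_lit 26) (@Lb.g g8 (@Lb.g g10 (@Lb.r r615 (@Lb.r r533 (@Lb.r r2340 (@Lb.d (nat_lit 329) (nat_lit 32) (nat_lit 518) (@Lb.fp (nat_lit 3) t1350)))))))))
noncomputable def l6324 : Lb := (@Lb.r r21 (@Lb.d (nat_lit 33) (nat_lit 256) (nat_lit 129) (@Lb.g g8 (@Lb.g g10 (@Lb.g g11 (@Lb.r r1691 (@Lb.r r1381 (@Lb.r r2202 (@Lb.r r2372 (@Lb.d (nat_lit 552) (nat_lit 38) (nat_lit 330) (@Lb.t (@Lb.fp (nat_lit 9) t367))))))))))))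
noncomputable def l6325 : Lb := (@Lb.r r323 (@Lb.d (nat_lit 0) (nat_lit 520) (nat_lit 34) (@Lb.g g10 (@Lb.r r387 (@Lb.d (nat_lit 0) (nat_lit 2) (nat_lit 16) (@Lb.t (@Lb.fp (nat_lit 3) t1673)))))))
noncomputable def l6326 : Lb := (@Lb.d (nat_lit 1) (nat_lit 386) (nat_lit 42) (@Lb.r r1121 (@Lb.r r2198 (@Lb.r r1380 (@Lb.g g7 (@Lb.d (nat_lit 128) (nat_lit 16) (nat_lit 576) (@Lb.r r578 (@Lb.t (@Lb.fm (nat_lit 3) t144)))))))))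
noncomputable def l6327 : Lb := (@Lb.r r21 (@Lb.d (nat_lit 33) (nat_lit 256) (nat_lit 72) (@Lb.g g8 (@Lb.g g10 (@Lb.g g11 (@Lb.r r1691 (@Lb.r r1381 (@Lb.r r2202 (@Lb.r r2372 (@Lb.d (nat_lit 553) (nat_lit 101) (nat_lit 330) (@Lb.t (@Lb.fp (nat_lit 9) t428))))))))))))
noncomputable def l6328 : Lb := (@Lb.r r21 (@Lb.d (nat_lit 33) (nat_lit 0) (nat_lit 129) (@Lb.g g8 (@Lb.g g10 (@Lb.g g11 (@Lb.r r1691 (@Lb.r r1561 (@Lb.r r1640 (@Lb.r r614 (@Lb.d (nat_lit 154) (nat_lit 8) (nat_lit 586) (@Lb.t (@Lb.fm (nat_lit 9) t144))))))))))))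
noncomputable def l6329 : Lb := (@Lb.d (nat_lit 5) (nat_lit 678) (nat_lit 344) (@Lb.r r1697 (@Lb.r r1707 (@Lb.r r1636 (@Lb.r r2138 (@Lb.g g6 (@Lb.g g5 (@Lb.d (nat_lit 4) (nat_lit 0) (nat_lit 1) (@Lb.r r387 (@Lb.fm (nat_lit 3) t144))))))))))
noncomputable def l6330 : Lb := (@Lb.r r70 (@Lb.d (nat_lit 138) (nat_lit 256) (nat_lit 384) (@Lb.g g8 (@Lb.g g11 (@Lb.r r1602 (@Lb.r r2197 (@Lb.r r100 (@Lb.d (nat_lit 26) (nat_lit 90) (nat_lit 666) (@Lb.fm (nat_lit 3) t412)))))))))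
noncomputable def l6331 : Lb := (@Lb.d (nat_lit 0) (nat_lit 665) (nat_lit 410) (@Lb.r r2449 (@Lb.r r1355 (@Lb.r r1304 (@Lb.r r2138 (@Lb.g g5 (@Lb.d (nat_lit 4) (nat_lit 1) (nat_lit 0) (@Lb.t (@Lb.fp (nat_lit 3) t412)))))))))
noncomputable def l6332 : Lb := (@Lb.r r21 (@Lb.r r70 (@Lb.d (nat_lit 138) (nat_lit 256) (nat_lit 256) (@Lb.g g8 (@Lb.g g7 (@Lb.r r402 (@Lb.r r2581 (@Lb.r r360 (@Lb.d (nat_lit 680) (nat_lit 38) (nat_lit 389) (@Lb.fp (nat_lit 3) t1674))))))))))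
noncomputable def l6333 : Lb := (@Lb.d (nat_lit 96) (nat_lit 166) (nat_lit 101) (@Lb.r r408 (@Lb.r r330 (@Lb.r r343 (@Lb.g g5 (@Lb.g g4 (@Lb.d (nat_lit 18) (nat_lit 4) (nat_lit 0) (@Lb.r r291 (@Lb.r r98 (@Lb.fp (nat_lit 3) t50))))))))))
noncomputable def l6334 : Lb := (@Lb.r r1355 (@Lb.r r1606 (@Lb.r r1557 (@Lb.r r1288 (@Lb.d (nat_lit 258) (nat_lit 512) (nat_lit 32) (@Lb.fm (nat_lit 1) t468))))))
noncomputable def l6335 : Lb := (@Lb.d (nat_lit 1) (nat_lit 0) (nat_lit 170) (@Lb.r r2641 (@Lb.r r1355 (@Lb.r r1288 (@Lb.r r2122 (@Lb.g g7 (@Lb.t (@Lb.fp (nat_lit 3) t468))))))))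
noncomputable def l6336 : Lb := (@Lb.d (nat_lit 2) (nat_lit 512) (nat_lit 73) (@Lb.g g8 (@Lb.g g10 (@Lb.g g11 (@Lb.r r1642 (@Lb.r r2145 (@Lb.r r24 (@Lb.d (nat_lit 393) (nat_lit 66) (nat_lit 320) (@Lb.t (@Lb.fm (nat_lit 9) t145))))))))))
noncomputable def l6337 : Lb := (@Lb.d (nat_lit 96) (nat_lit 293) (nat_lit 101) (@Lb.r r408 (@Lb.r r330 (@Lb.r r343 (@Lb.g g5 (@Lb.g g4 (@Lb.d (nat_lit 17) (nat_lit 4) (nat_lit 0) (@Lb.r r291 (@Lb.r r98 (@Lb.fp (nat_lit 3) t50))))))))))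
noncomputable def l6338 : Lb := (@Lb.d (nat_lit 2) (nat_lit 512) (nat_lit 128) (@Lb.g g8 (@Lb.g g9 (@Lb.g g11 (@Lb.r r406 (@Lb.r r2659 (@Lb.r r2661 (@Lb.d (nat_lit 4) (nat_lit 25) (nat_lit 66) (@Lb.t (@Lb.fp (nat_lit 9) t1675))))))))))
noncomputable def l6339 : Lb := (@Lb.d (nat_lit 264) (nat_lit 34) (nat_lit 576) (@Lb.r r276 (@Lb.r r2321 (@Lb.r r1687 (@Lb.r r1706 (@Lb.g g5 (@Lb.g g4 (@Lb.d (nat_lit 40) (nat_lit 0) (nat_lit 0) (@Lb.r r74 (@Lb.fm (nat_lit 3) t1265))))))))))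
noncomputable def l6340 : Lb := (@Lb.d (nat_lit 2) (nat_lit 256) (nat_lit 0) (@Lb.g g8 (@Lb.r r2331 (@Lb.r r2138 (@Lb.r r149 (@Lb.d (nat_lit 17) (nat_lit 1) (nat_lit 16) (@Lb.t (@Lb.fp (nat_lit 3) t1676))))))))
noncomputable def l6341 : Lb := (@Lb.d (nat_lit 18) (nat_lit 260) (nat_lit 136) (@Lb.g g8 (@Lb.g g9 (@Lb.g g10 (@Lb.g g11 (@Lb.r r676 (@Lb.r r2727 (@Lb.r r134 (@Lb.r r97 (@Lb.d (nat_lit 362) (nat_lit 104) (nat_lit 641) (@Lb.fm (nat_lit 9) t734)))))))))))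
noncomputable def l6342 : Lb := (@Lb.d (nat_lit 104) (nat_lit 281) (nat_lit 5) (@Lb.g g8 (@Lb.g g9 (@Lb.g g10 (@Lb.g g11 (@Lb.r r2727 (@Lb.r r134 (@Lb.r r2661 (@Lb.r r2568 (@Lb.d (nat_lit 324) (nat_lit 136) (nat_lit 105) (@Lb.fp (nat_lit 9) t1677)))))))))))
noncomputable def l6343 : Lb := (@Lb.d (nat_lit 18) (nat_lit 4) (nat_lit 136) (@Lb.g g8 (@Lb.g g9 (@Lb.g g10 (@Lb.g g11 (@Lb.r r676 (@Lb.r r2727 (@Lb.r r134 (@Lb.r r97 (@Lb.d (nat_lit 362) (nat_lit 97) (nat_lit 642) (@Lb.fm (nat_lit 9) t736)))))))))))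
noncomputable def l6344 : Lb := (@Lb.r r263 (@Lb.d (nat_lit 2) (nat_lit 516) (nat_lit 0) (@Lb.g g8 (@Lb.g g9 (@Lb.g g10 (@Lb.r r676 (@Lb.r r519 (@Lb.r r386 (@Lb.r r97 (@Lb.d (nat_lit 0) (nat_lit 168) (nat_lit 386) (@Lb.t (@Lb.fp (nat_lit 9) t1678))))))))))))
noncomputable def l6345 : Lb := (@Lb.d (nat_lit 2) (nat_lit 256) (nat_lit 138) (@Lb.g g11 (@Lb.g g9 (@Lb.g g8 (@Lb.t (@Lb.fm (nat_lit 9) t2))))))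
noncomputable def l6346 : Lb := (@Lb.d (nat_lit 1) (nat_lit 256) (nat_lit 128) (@Lb.g g4 (@Lb.g g9 (@Lb.g g11 (@Lb.r r2450 (@Lb.r r2659 (@Lb.r r1633 (@Lb.d (nat_lit 9) (nat_lit 152) (nat_lit 66) (@Lb.t (@Lb.fm (nat_lit 9) t1679))))))))))
noncomputable def l6347 : Lb := (@Lb.d (nat_lit 281) (nat_lit 336) (nat_lit 26) (@Lb.r r1447 (@Lb.r r2454 (@Lb.r r1604 (@Lb.g g7 (@Lb.g g5 (@Lb.d (nat_lit 64) (nat_lit 25) (nat_lit 132) (@Lb.fp (nat_lit 3) t1680))))))))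
noncomputable def l6348 : Lb := (@Lb.d (nat_lit 150) (nat_lit 512) (nat_lit 128) (@Lb.g g8 (@Lb.g g9 (@Lb.g g10 (@Lb.g g11 (@Lb.r r1675 (@Lb.r r613 (@Lb.r r666 (@Lb.r r1540 (@Lb.d (nat_lit 521) (nat_lit 69) (nat_lit 400) (@Lb.fm (nat_lit 9) t278)))))))))))
noncomputable def l6349 : Lb := (@Lb.r r263 (@Lb.d (nat_lit 2) (nat_lit 260) (nat_lit 0) (@Lb.g g8 (@Lb.g g9 (@Lb.g g10 (@Lb.r r1371 (@Lb.r r386 (@Lb.r r97 (@Lb.r r1048 (@Lb.d (nat_lit 10) (nat_lit 42) (nat_lit 329) (@Lb.t (@Lb.fp (nat_lit 9) t1681))))))))))))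
noncomputable def l6350 : Lb := (@Lb.d (nat_lit 0) (nat_lit 0) (nat_lit 128) (@Lb.g g9 (@Lb.g g10 (@Lb.g g11 (@Lb.r r2722 (@Lb.r r1419 (@Lb.r r1557 (@Lb.r r1416 (@Lb.d (nat_lit 537) (nat_lit 137) (nat_lit 18) (@Lb.t (@Lb.fm (nat_lit 9) t915)))))))))))
noncomputable def l6351 : Lb := (@Lb.d (nat_lit 1) (nat_lit 256) (nat_lit 128) (@Lb.g g4 (@Lb.g g9 (@Lb.g g11 (@Lb.r r2450 (@Lb.r r2659 (@Lb.r r1633 (@Lb.d (nat_lit 8) (nat_lit 82) (nat_lit 64) (@Lb.t (@Lb.fm (nat_lit 9) t1682))))))))))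
noncomputable def l6352 : Lb := (@Lb.d (nat_lit 1) (nat_lit 512) (nat_lit 128) (@Lb.g g4 (@Lb.g g9 (@Lb.g g11 (@Lb.r r2450 (@Lb.r r2659 (@Lb.r r1633 (@Lb.d (nat_lit 8) (nat_lit 89) (nat_lit 66) (@Lb.t (@Lb.fm (nat_lit 9) t1679))))))))))
noncomputable def l6353 : Lb := (@Lb.d (nat_lit 9) (nat_lit 288) (nat_lit 128) (@Lb.g g8 (@Lb.g g11 (@Lb.r r1109 (@Lb.r r2340 (@Lb.r r2699 (@Lb.r r2178 (@Lb.d (nat_lit 594) (nat_lit 85) (nat_lit 394) (@Lb.fm (nat_lit 3) t100)))))))))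
noncomputable def l6354 : Lb := (@Lb.d (nat_lit 1) (nat_lit 512) (nat_lit 128) (@Lb.g g4 (@Lb.g g9 (@Lb.g g11 (@Lb.r r2450 (@Lb.r r2659 (@Lb.r r1633 (@Lb.d (nat_lit 8) (nat_lit 152) (nat_lit 66) (@Lb.t (@Lb.fm (nat_lit 9) t1679))))))))))
noncomputable def l6355 : Lb := (@Lb.d (nat_lit 18) (nat_lit 4) (nat_lit 136) (@Lb.g g8 (@Lb.g g9 (@Lb.g g10 (@Lb.g g11 (@Lb.r r1626 (@Lb.r r2659 (@Lb.r r97 (@Lb.r r2312 (@Lb.d (nat_lit 33) (nat_lit 132) (nat_lit 129) (@Lb.fm (nat_lit 9) t1683)))))))))))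
noncomputable def l6356 : Lb := (@Lb.d (nat_lit 6) (nat_lit 517) (nat_lit 128) (@Lb.g g8 (@Lb.g g9 (@Lb.g g10 (@Lb.g g11 (@Lb.r r427 (@Lb.r r424 (@Lb.r r106 (@Lb.r r97 (@Lb.d (nat_lit 2) (nat_lit 10) (nat_lit 130) (@Lb.fp (nat_lit 9) t381)))))))))))
noncomputable def l6357 : Lb := (@Lb.r r323 (@Lb.d (nat_lit 0) (nat_lit 512) (nat_lit 1) (@Lb.g g9 (@Lb.g g6 (@Lb.r r387 (@Lb.r r101 (@Lb.r r24 (@Lb.d (nat_lit 32) (nat_lit 0) (nat_lit 2) (@Lb.fp (nat_lit 3) t167)))))))))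
noncomputable def l6358 : Lb := (@Lb.r r21 (@Lb.r r323 (@Lb.d (nat_lit 129) (nat_lit 264) (nat_lit 2) (@Lb.g g8 (@Lb.g g10 (@Lb.r r615 (@Lb.r r97 (@Lb.r r264 (@Lb.d (nat_lit 137) (nat_lit 130) (nat_lit 130) (@Lb.fp (nat_lit 3) t51))))))))))
noncomputable def l6359 : Lb := (@Lb.r r1045 (@Lb.r r323 (@Lb.d (nat_lit 261) (nat_lit 264) (nat_lit 6) (@Lb.g g4 (@Lb.g g10 (@Lb.r r387 (@Lb.d (nat_lit 1) (nat_lit 66) (nat_lit 137) (@Lb.fp (nat_lit 3) t51))))))))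
noncomputable def l6360 : Lb := (@Lb.d (nat_lit 2) (nat_lit 514) (nat_lit 66) (@Lb.g g8 (@Lb.g g9 (@Lb.g g10 (@Lb.g g11 (@Lb.r r356 (@Lb.r r667 (@Lb.r r2186 (@Lb.r r277 (@Lb.r r2212 (@Lb.d (nat_lit 104) (nat_lit 1) (nat_lit 672) (@Lb.fp (nat_lit 9) t49))))))))))))
noncomputable def l6361 : Lb := (@Lb.d (nat_lit 0) (nat_lit 265) (nat_lit 72) (@Lb.g g9 (@Lb.g g10 (@Lb.g g11 (@Lb.r r679 (@Lb.r r1366 (@Lb.r r1553 (@Lb.d (nat_lit 336) (nat_lit 98) (nat_lit 673) (@Lb.t (@Lb.fp (nat_lit 9) t50))))))))))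
noncomputable def l6362 : Lb := (@Lb.r r21 (@Lb.r r323 (@Lb.d (nat_lit 130) (nat_lit 8) (nat_lit 2) (@Lb.g g8 (@Lb.g g10 (@Lb.r r615 (@Lb.r r533 (@Lb.r r292 (@Lb.d (nat_lit 73) (nat_lit 41) (nat_lit 22) (@Lb.fp (nat_lit 3) t221))))))))))
noncomputable def l6363 : Lb := (@Lb.d (nat_lit 2) (nat_lit 514) (nat_lit 66) (@Lb.g g8 (@Lb.g g9 (@Lb.g g10 (@Lb.g g11 (@Lb.r r356 (@Lb.r r667 (@Lb.r r2186 (@Lb.r r277 (@Lb.r r2212 (@Lb.d (nat_lit 96) (nat_lit 2) (nat_lit 672) (@Lb.fp (nat_lit 9) t49))))))))))))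
noncomputable def l6364 : Lb := (@Lb.d (nat_lit 2) (nat_lit 258) (nat_lit 66) (@Lb.g g8 (@Lb.g g9 (@Lb.g g10 (@Lb.g g11 (@Lb.r r356 (@Lb.r r667 (@Lb.r r2186 (@Lb.r r277 (@Lb.r r2212 (@Lb.d (nat_lit 97) (nat_lit 2) (nat_lit 672) (@Lb.fp (nat_lit 9) t49))))))))))))
noncomputable def l6365 : Lb := (@Lb.d (nat_lit 0) (nat_lit 9) (nat_lit 72) (@Lb.g g9 (@Lb.g g10 (@Lb.g g11 (@Lb.r r679 (@Lb.r r1366 (@Lb.r r1553 (@Lb.d (nat_lit 338) (nat_lit 105) (nat_lit 672) (@Lb.t (@Lb.fp (nat_lit 9) t50))))))))))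
noncomputable def l6366 : Lb := (@Lb.r r323 (@Lb.d (nat_lit 32) (nat_lit 0) (nat_lit 2) (@Lb.g g9 (@Lb.g g10 (@Lb.r r584 (@Lb.r r299 (@Lb.r r289 (@Lb.d (nat_lit 10) (nat_lit 1) (nat_lit 2) (@Lb.fm (nat_lit 3) t51)))))))))
noncomputable def l6367 : Lb := (@Lb.d (nat_lit 4) (nat_lit 257) (nat_lit 0) (@Lb.g g5 (@Lb.d (nat_lit 6) (nat_lit 1) (nat_lit 0) (@Lb.t (@Lb.fm (nat_lit 3) t2)))))
noncomputable def l6368 : Lb := (@Lb.d (nat_lit 1) (nat_lit 512) (nat_lit 130) (@Lb.g g8 (@Lb.g g9 (@Lb.g g10 (@Lb.g g11 (@Lb.r r586 (@Lb.r r584 (@Lb.r r299 (@Lb.r r289 (@Lb.d (nat_lit 9) (nat_lit 137) (nat_lit 2) (@Lb.fp (nat_lit 9) t51)))))))))))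
noncomputable def l6369 : Lb := (@Lb.d (nat_lit 164) (nat_lit 520) (nat_lit 0) (@Lb.g g8 (@Lb.g g9 (@Lb.r r391 (@Lb.r r594 (@Lb.r r2725 (@Lb.r r2580 (@Lb.d (nat_lit 37) (nat_lit 162) (nat_lit 546) (@Lb.fp (nat_lit 3) t2)))))))))
noncomputable def l6370 : Lb := (@Lb.g g5 (@Lb.g g6 (@Lb.d (nat_lit 5) (nat_lit 257) (nat_lit 0) (@Lb.fm (nat_lit 3) t2))))
noncomputable def l6371 : Lb := (@Lb.d (nat_lit 9) (nat_lit 296) (nat_lit 65) (@Lb.g g8 (@Lb.g g9 (@Lb.g g10 (@Lb.g g11 (@Lb.r r682 (@Lb.r r676 (@Lb.r r551 (@Lb.r r533 (@Lb.d (nat_lit 132) (nat_lit 32) (nat_lit 74) (@Lb.fp (nat_lit 9) t68)))))))))))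
noncomputable def l6372 : Lb := (@Lb.d (nat_lit 0) (nat_lit 0) (nat_lit 130) (@Lb.g g8 (@Lb.g g9 (@Lb.g g10 (@Lb.g g11 (@Lb.r r586 (@Lb.r r584 (@Lb.r r299 (@Lb.r r289 (@Lb.d (nat_lit 8) (nat_lit 130) (nat_lit 0) (@Lb.fp (nat_lit 9) t51)))))))))))
noncomputable def l6373 : Lb := (@Lb.d (nat_lit 32) (nat_lit 264) (nat_lit 130) (@Lb.g g10 (@Lb.g g11 (@Lb.r r324 (@Lb.r r651 (@Lb.r r357 (@Lb.r r666 (@Lb.d (nat_lit 64) (nat_lit 40) (nat_lit 132) (@Lb.fp (nat_lit 3) t167)))))))))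
noncomputable def l6374 : Lb := (@Lb.d (nat_lit 1) (nat_lit 296) (nat_lit 65) (@Lb.g g8 (@Lb.g g9 (@Lb.g g10 (@Lb.g g11 (@Lb.r r683 (@Lb.r r616 (@Lb.r r86 (@Lb.r r165 (@Lb.r r36 (@Lb.d (nat_lit 36) (nat_lit 8) (nat_lit 137) (@Lb.fm (nat_lit 9) t68))))))))))))
noncomputable def l6375 : Lb := (@Lb.d (nat_lit 2) (nat_lit 552) (nat_lit 65) (@Lb.g g8 (@Lb.g g9 (@Lb.g g10 (@Lb.g g11 (@Lb.r r683 (@Lb.r r616 (@Lb.r r86 (@Lb.r r165 (@Lb.r r36 (@Lb.d (nat_lit 36) (nat_lit 8) (nat_lit 2) (@Lb.fm (nat_lit 9) t68))))))))))))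
noncomputable def l6376 : Lb := (@Lb.r r21 (@Lb.d (nat_lit 160) (nat_lit 512) (nat_lit 65) (@Lb.g g8 (@Lb.g g10 (@Lb.g g11 (@Lb.r r651 (@Lb.r r357 (@Lb.r r154 (@Lb.r r340 (@Lb.d (nat_lit 36) (nat_lit 8) (nat_lit 128) (@Lb.t (@Lb.fp (nat_lit 9) t68))))))))))))
noncomputable def l6377 : Lb := (@Lb.r r20 (@Lb.r r289 (@Lb.r r539 (@Lb.r r644 (@Lb.r r646 (@Lb.g g11 (@Lb.g g10 (@Lb.g g5 (@Lb.g g4 (@Lb.d (nat_lit 0) (nat_lit 512) (nat_lit 4) (@Lb.fm (nat_lit 9) t68)))))))))))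
noncomputable def l6378 : Lb := (@Lb.d (nat_lit 2) (nat_lit 297) (nat_lit 65) (@Lb.g g8 (@Lb.g g9 (@Lb.g g10 (@Lb.g g11 (@Lb.r r682 (@Lb.r r676 (@Lb.r r551 (@Lb.r r533 (@Lb.d (nat_lit 132) (nat_lit 32) (nat_lit 5) (@Lb.fp (nat_lit 9) t68)))))))))))
noncomputable def l6379 : Lb := (@Lb.r r21 (@Lb.d (nat_lit 161) (nat_lit 0) (nat_lit 65) (@Lb.g g8 (@Lb.g g10 (@Lb.g g11 (@Lb.r r651 (@Lb.r r357 (@Lb.r r154 (@Lb.r r340 (@Lb.d (nat_lit 36) (nat_lit 8) (nat_lit 5) (@Lb.t (@Lb.fp (nat_lit 9) t68))))))))))))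
noncomputable def l6380 : Lb := (@Lb.r r21 (@Lb.d (nat_lit 161) (nat_lit 512) (nat_lit 65) (@Lb.g g8 (@Lb.g g10 (@Lb.g g11 (@Lb.r r651 (@Lb.r r357 (@Lb.r r154 (@Lb.r r340 (@Lb.d (nat_lit 37) (nat_lit 8) (nat_lit 5) (@Lb.t (@Lb.fp (nat_lit 9) t74))))))))))))
noncomputable def l6381 : Lb := (@Lb.d (nat_lit 134) (nat_lit 546) (nat_lit 132) (@Lb.g g8 (@Lb.g g9 (@Lb.g g10 (@Lb.g g11 (@Lb.r r419 (@Lb.r r1668 (@Lb.r r1190 (@Lb.r r1169 (@Lb.d (nat_lit 417) (nat_lit 20) (nat_lit 73) (@Lb.fm (nat_lit 9) t321)))))))))))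
noncomputable def l6382 : Lb := (@Lb.r r323 (@Lb.d (nat_lit 4) (nat_lit 0) (nat_lit 18) (@Lb.g g8 (@Lb.g g9 (@Lb.g g6 (@Lb.r r2667 (@Lb.r r25 (@Lb.d (nat_lit 0) (nat_lit 132) (nat_lit 100) (@Lb.t (@Lb.fm (nat_lit 9) t591))))))))))
noncomputable def l6383 : Lb := (@Lb.d (nat_lit 2) (nat_lit 516) (nat_lit 128) (@Lb.g g8 (@Lb.g g9 (@Lb.g g10 (@Lb.g g11 (@Lb.r r427 (@Lb.r r145 (@Lb.r r356 (@Lb.r r154 (@Lb.r r132 (@Lb.d (nat_lit 10) (nat_lit 2) (nat_lit 73) (@Lb.fm (nat_lit 9) t1684))))))))))))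
noncomputable def l6384 : Lb := (@Lb.d (nat_lit 134) (nat_lit 256) (nat_lit 130) (@Lb.g g8 (@Lb.g g9 (@Lb.g g10 (@Lb.g g11 (@Lb.r r578 (@Lb.r r345 (@Lb.r r359 (@Lb.r r536 (@Lb.d (nat_lit 66) (nat_lit 42) (nat_lit 129) (@Lb.fm (nat_lit 9) t238)))))))))))
noncomputable def l6385 : Lb := (@Lb.d (nat_lit 8) (nat_lit 514) (nat_lit 130) (@Lb.g g9 (@Lb.g g10 (@Lb.g g11 (@Lb.r r586 (@Lb.r r584 (@Lb.r r299 (@Lb.r r289 (@Lb.d (nat_lit 2) (nat_lit 9) (nat_lit 2) (@Lb.t (@Lb.fm (nat_lit 9) t51)))))))))))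
noncomputable def l6386 : Lb := (@Lb.r r323 (@Lb.d (nat_lit 40) (nat_lit 514) (nat_lit 2) (@Lb.g g9 (@Lb.g g10 (@Lb.r r584 (@Lb.r r299 (@Lb.r r289 (@Lb.d (nat_lit 1) (nat_lit 9) (nat_lit 1) (@Lb.fm (nat_lit 3) t51)))))))))
noncomputable def l6387 : Lb := (@Lb.r r323 (@Lb.d (nat_lit 40) (nat_lit 258) (nat_lit 2) (@Lb.g g9 (@Lb.g g10 (@Lb.r r584 (@Lb.r r299 (@Lb.r r289 (@Lb.d (nat_lit 10) (nat_lit 8) (nat_lit 1) (@Lb.fm (nat_lit 3) t51)))))))))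
noncomputable def l6388 : Lb := (@Lb.r r21 (@Lb.d (nat_lit 146) (nat_lit 0) (nat_lit 128) (@Lb.g g8 (@Lb.g g10 (@Lb.g g11 (@Lb.r r1674 (@Lb.r r1411 (@Lb.r r1177 (@Lb.r r1156 (@Lb.d (nat_lit 593) (nat_lit 0) (nat_lit 665) (@Lb.t (@Lb.fp (nat_lit 9) t283))))))))))))
noncomputable def l6389 : Lb := (@Lb.d (nat_lit 9) (nat_lit 262) (nat_lit 128) (@Lb.g g8 (@Lb.g g9 (@Lb.g g10 (@Lb.g g11 (@Lb.r r2443 (@Lb.r r660 (@Lb.r r2665 (@Lb.r r1110 (@Lb.r r2212 (@Lb.d (nat_lit 9) (nat_lit 166) (nat_lit 586) (@Lb.fm (nat_lit 9) t582))))))))))))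
noncomputable def l6390 : Lb := (@Lb.r r21 (@Lb.d (nat_lit 0) (nat_lit 4) (nat_lit 130) (@Lb.g g8 (@Lb.g g6 (@Lb.g g11 (@Lb.r r1643 (@Lb.r r97 (@Lb.r r1560 (@Lb.d (nat_lit 73) (nat_lit 98) (nat_lit 641) (@Lb.t (@Lb.fm (nat_lit 9) t1082)))))))))))
noncomputable def l6391 : Lb := (@Lb.d (nat_lit 2) (nat_lit 32) (nat_lit 128) (@Lb.g g8 (@Lb.g g11 (@Lb.r r134 (@Lb.r r600 (@Lb.r r293 (@Lb.r r2587 (@Lb.d (nat_lit 328) (nat_lit 105) (nat_lit 278) (@Lb.fm (nat_lit 3) t71)))))))))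
noncomputable def l6392 : Lb := (@Lb.d (nat_lit 2) (nat_lit 2) (nat_lit 2) (@Lb.g g8 (@Lb.g g9 (@Lb.g g10 (@Lb.g g11 (@Lb.r r2691 (@Lb.r r297 (@Lb.r r360 (@Lb.r r582 (@Lb.r r2180 (@Lb.d (nat_lit 641) (nat_lit 5) (nat_lit 328) (@Lb.fm (nat_lit 9) t242))))))))))))
noncomputable def l6393 : Lb := (@Lb.g g7 (@Lb.r r24 (@Lb.r r101 (@Lb.r r402 (@Lb.r r1379 (@Lb.d (nat_lit 0) (nat_lit 657) (nat_lit 576) (@Lb.t (@Lb.fp (nat_lit 3) t867))))))))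
noncomputable def l6394 : Lb := (@Lb.d (nat_lit 0) (nat_lit 266) (nat_lit 128) (@Lb.g g8 (@Lb.g g9 (@Lb.g g11 (@Lb.r r134 (@Lb.r r584 (@Lb.r r427 (@Lb.r r417 (@Lb.d (nat_lit 5) (nat_lit 0) (nat_lit 137) (@Lb.t (@Lb.fp (nat_lit 9) t119)))))))))))
noncomputable def l6395 : Lb := (@Lb.d (nat_lit 513) (nat_lit 0) (nat_lit 16) (@Lb.r r24 (@Lb.r r101 (@Lb.r r402 (@Lb.r r1379 (@Lb.g g7 (@Lb.g g6 (@Lb.fp (nat_lit 3) t1685))))))))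
noncomputable def l6396 : Lb := (@Lb.d (nat_lit 146) (nat_lit 2) (nat_lit 130) (@Lb.g g8 (@Lb.g g9 (@Lb.g g10 (@Lb.g g11 (@Lb.r r2731 (@Lb.r r1386 (@Lb.r r1561 (@Lb.r r1540 (@Lb.d (nat_lit 393) (nat_lit 25) (nat_lit 421) (@Lb.fm (nat_lit 9) t764)))))))))))
noncomputable def l6397 : Lb := (@Lb.d (nat_lit 0) (nat_lit 265) (nat_lit 129) (@Lb.g g9 (@Lb.g g10 (@Lb.g g11 (@Lb.r r610 (@Lb.r r1611 (@Lb.r r97 (@Lb.r r1608 (@Lb.d (nat_lit 277) (nat_lit 8) (nat_lit 100) (@Lb.t (@Lb.fp (nat_lit 9) t1686)))))))))))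
noncomputable def l6398 : Lb := (@Lb.d (nat_lit 2) (nat_lit 545) (nat_lit 66) (@Lb.g g8 (@Lb.g g9 (@Lb.g g10 (@Lb.g g11 (@Lb.r r1699 (@Lb.r r36 (@Lb.r r661 (@Lb.r r146 (@Lb.r r2084 (@Lb.d (nat_lit 408) (nat_lit 24) (nat_lit 324) (@Lb.fp (nat_lit 9) t1506))))))))))))
noncomputable def l6399 : Lb := (@Lb.r r21 (@Lb.d (nat_lit 129) (nat_lit 512) (nat_lit 64) (@Lb.g g8 (@Lb.g g11 (@Lb.r r90 (@Lb.r r2705 (@Lb.r r1563 (@Lb.r r2648 (@Lb.d (nat_lit 388) (nat_lit 85) (nat_lit 600) (@Lb.fm (nat_lit 3) t1687))))))))))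
noncomputable def l6400 : Lb := (@Lb.d (nat_lit 4) (nat_lit 290) (nat_lit 130) (@Lb.g g8 (@Lb.g g9 (@Lb.g g10 (@Lb.g g11 (@Lb.r r683 (@Lb.r r132 (@Lb.r r1430 (@Lb.r r2645 (@Lb.r r20 (@Lb.d (nat_lit 517) (nat_lit 89) (nat_lit 553) (@Lb.fp (nat_lit 9) t998))))))))))))
noncomputable def l6401 : Lb := (@Lb.r r21 (@Lb.r r263 (@Lb.d (nat_lit 34) (nat_lit 8) (nat_lit 2) (@Lb.g g8 (@Lb.g g10 (@Lb.r r1427 (@Lb.r r97 (@Lb.r r2120 (@Lb.d (nat_lit 294) (nat_lit 72) (nat_lit 17) (@Lb.fm (nat_lit 3) t1688))))))))))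
noncomputable def l6402 : Lb := (@Lb.d (nat_lit 2) (nat_lit 514) (nat_lit 2) (@Lb.g g8 (@Lb.g g9 (@Lb.g g10 (@Lb.g g11 (@Lb.r r1699 (@Lb.r r36 (@Lb.r r661 (@Lb.r r146 (@Lb.r r1060 (@Lb.d (nat_lit 665) (nat_lit 149) (nat_lit 580) (@Lb.fp (nat_lit 9) t1022))))))))))))
noncomputable def l6403 : Lb := (@Lb.d (nat_lit 2) (nat_lit 514) (nat_lit 130) (@Lb.g g8 (@Lb.g g9 (@Lb.g g10 (@Lb.g g11 (@Lb.r r1699 (@Lb.r r36 (@Lb.r r661 (@Lb.r r146 (@Lb.r r1060 (@Lb.d (nat_lit 665) (nat_lit 154) (nat_lit 612) (@Lb.fp (nat_lit 9) t1689))))))))))))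
noncomputable def l6404 : Lb := (@Lb.r r21 (@Lb.r r263 (@Lb.d (nat_lit 550) (nat_lit 256) (nat_lit 0) (@Lb.g g8 (@Lb.r r267 (@Lb.r r25 (@Lb.d (nat_lit 282) (nat_lit 0) (nat_lit 0) (@Lb.t (@Lb.fp (nat_lit 3) t817)))))))))
noncomputable def l6405 : Lb := (@Lb.d (nat_lit 1) (nat_lit 384) (nat_lit 0) (@Lb.r r101 (@Lb.r r1319 (@Lb.g g4 (@Lb.d (nat_lit 6) (nat_lit 0) (nat_lit 0) (@Lb.t (@Lb.fp (nat_lit 3) t1690)))))))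
noncomputable def l6406 : Lb := (@Lb.r r21 (@Lb.d (nat_lit 169) (nat_lit 0) (nat_lit 66) (@Lb.g g8 (@Lb.g g10 (@Lb.g g11 (@Lb.r r1317 (@Lb.r r411 (@Lb.r r1414 (@Lb.r r100 (@Lb.d (nat_lit 97) (nat_lit 168) (nat_lit 32) (@Lb.t (@Lb.fm (nat_lit 9) t1691))))))))))))
noncomputable def l6407 : Lb := (@Lb.d (nat_lit 0) (nat_lit 8) (nat_lit 129) (@Lb.g g8 (@Lb.g g9 (@Lb.g g10 (@Lb.g g11 (@Lb.r r618 (@Lb.r r1611 (@Lb.r r105 (@Lb.r r1608 (@Lb.d (nat_lit 642) (nat_lit 96) (nat_lit 384) (@Lb.fm (nat_lit 9) t1686)))))))))))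
noncomputable def l6408 : Lb := (@Lb.r r82 (@Lb.d (nat_lit 2) (nat_lit 258) (nat_lit 584) (@Lb.g g8 (@Lb.g g9 (@Lb.g g7 (@Lb.r r1377 (@Lb.r r146 (@Lb.r r24 (@Lb.d (nat_lit 10) (nat_lit 26) (nat_lit 292) (@Lb.t (@Lb.fm (nat_lit 9) t1692)))))))))))
noncomputable def l6409 : Lb := (@Lb.g g8 (@Lb.g g6 (@Lb.g g11 (@Lb.r r584 (@Lb.r r86 (@Lb.r r289 (@Lb.r r132 (@Lb.d (nat_lit 1) (nat_lit 401) (nat_lit 0) (@Lb.t (@Lb.fp (nat_lit 9) t1693))))))))))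
noncomputable def l6410 : Lb := (@Lb.r r82 (@Lb.d (nat_lit 34) (nat_lit 514) (nat_lit 128) (@Lb.g g8 (@Lb.g g9 (@Lb.g g11 (@Lb.r r363 (@Lb.r r582 (@Lb.r r677 (@Lb.r r408 (@Lb.d (nat_lit 426) (nat_lit 26) (nat_lit 168) (@Lb.t (@Lb.fm (nat_lit 9) t1613))))))))))))
noncomputable def l6411 : Lb := (@Lb.d (nat_lit 2) (nat_lit 282) (nat_lit 136) (@Lb.g g8 (@Lb.g g9 (@Lb.g g10 (@Lb.g g11 (@Lb.r r2579 (@Lb.r r153 (@Lb.r r2650 (@Lb.r r24 (@Lb.d (nat_lit 408) (nat_lit 9) (nat_lit 614) (@Lb.fp (nat_lit 9) t1694)))))))))))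
noncomputable def l6412 : Lb := (@Lb.d (nat_lit 0) (nat_lit 538) (nat_lit 136) (@Lb.g g8 (@Lb.g g9 (@Lb.g g10 (@Lb.g g11 (@Lb.r r2579 (@Lb.r r153 (@Lb.r r2650 (@Lb.r r24 (@Lb.d (nat_lit 408) (nat_lit 2) (nat_lit 612) (@Lb.fp (nat_lit 9) t1695)))))))))))
noncomputable def l6413 : Lb := (@Lb.d (nat_lit 2) (nat_lit 16) (nat_lit 585) (@Lb.g g8 (@Lb.g g9 (@Lb.g g10 (@Lb.g g7 (@Lb.r r386 (@Lb.r r1121 (@Lb.r r24 (@Lb.d (nat_lit 5) (nat_lit 136) (nat_lit 25) (@Lb.fp (nat_lit 9) t41))))))))))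
noncomputable def l6414 : Lb := (@Lb.d (nat_lit 2) (nat_lit 256) (nat_lit 2) (@Lb.g g8 (@Lb.g g9 (@Lb.g g10 (@Lb.r r515 (@Lb.r r1642 (@Lb.r r1561 (@Lb.d (nat_lit 585) (nat_lit 105) (nat_lit 6) (@Lb.t (@Lb.fp (nat_lit 9) t588))))))))))
noncomputable def l6415 : Lb := (@Lb.d (nat_lit 0) (nat_lit 272) (nat_lit 585) (@Lb.g g8 (@Lb.g g9 (@Lb.g g10 (@Lb.g g7 (@Lb.r r386 (@Lb.r r1121 (@Lb.r r24 (@Lb.d (nat_lit 10) (nat_lit 137) (nat_lit 25) (@Lb.fp (nat_lit 9) t41))))))))))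
noncomputable def l6416 : Lb := (@Lb.d (nat_lit 2) (nat_lit 272) (nat_lit 642) (@Lb.g g8 (@Lb.g g9 (@Lb.g g10 (@Lb.g g7 (@Lb.r r386 (@Lb.r r1121 (@Lb.r r24 (@Lb.d (nat_lit 10) (nat_lit 137) (nat_lit 25) (@Lb.fp (nat_lit 9) t41))))))))))
noncomputable def l6417 : Lb := (@Lb.d (nat_lit 2) (nat_lit 26) (nat_lit 136) (@Lb.g g8 (@Lb.g g9 (@Lb.g g10 (@Lb.g g11 (@Lb.r r427 (@Lb.r r425 (@Lb.r r2472 (@Lb.r r2154 (@Lb.d (nat_lit 549) (nat_lit 68) (nat_lit 152) (@Lb.fp (nat_lit 9) t1696)))))))))))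
noncomputable def l6418 : Lb := (@Lb.r r82 (@Lb.d (nat_lit 2) (nat_lit 514) (nat_lit 584) (@Lb.g g8 (@Lb.g g9 (@Lb.g g7 (@Lb.r r1377 (@Lb.r r146 (@Lb.r r24 (@Lb.d (nat_lit 10) (nat_lit 21) (nat_lit 294) (@Lb.t (@Lb.fm (nat_lit 9) t1697)))))))))))
noncomputable def l6419 : Lb := (@Lb.r r21 (@Lb.d (nat_lit 8) (nat_lit 264) (nat_lit 130) (@Lb.g g8 (@Lb.g g10 (@Lb.g g11 (@Lb.r r683 (@Lb.r r293 (@Lb.r r596 (@Lb.r r394 (@Lb.d (nat_lit 145) (nat_lit 150) (nat_lit 65) (@Lb.t (@Lb.fp (nat_lit 9) t51))))))))))))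
noncomputable def l6420 : Lb := (@Lb.d (nat_lit 132) (nat_lit 0) (nat_lit 66) (@Lb.g g8 (@Lb.g g9 (@Lb.g g10 (@Lb.g g11 (@Lb.r r1315 (@Lb.r r1610 (@Lb.r r1621 (@Lb.r r1636 (@Lb.d (nat_lit 272) (nat_lit 81) (nat_lit 393) (@Lb.fp (nat_lit 9) t1039)))))))))))
noncomputable def l6421 : Lb := (@Lb.d (nat_lit 8) (nat_lit 288) (nat_lit 90) (@Lb.g g8 (@Lb.g g10 (@Lb.g g11 (@Lb.r r353 (@Lb.r r535 (@Lb.r r2436 (@Lb.d (nat_lit 342) (nat_lit 70) (nat_lit 681) (@Lb.t (@Lb.fm (nat_lit 9) t386))))))))))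
noncomputable def l6422 : Lb := (@Lb.g g8 (@Lb.g g10 (@Lb.r r2451 (@Lb.r r402 (@Lb.r r101 (@Lb.r r24 (@Lb.d (nat_lit 528) (nat_lit 0) (nat_lit 17) (@Lb.fp (nat_lit 3) t592))))))))
noncomputable def l6423 : Lb := (@Lb.d (nat_lit 5) (nat_lit 0) (nat_lit 130) (@Lb.g g8 (@Lb.g g9 (@Lb.g g10 (@Lb.g g11 (@Lb.r r2459 (@Lb.r r1557 (@Lb.r r676 (@Lb.r r1094 (@Lb.r r2180 (@Lb.d (nat_lit 2) (nat_lit 26) (nat_lit 420) (@Lb.fp (nat_lit 9) t51))))))))))))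
noncomputable def l6424 : Lb := (@Lb.d (nat_lit 128) (nat_lit 288) (nat_lit 90) (@Lb.g g10 (@Lb.g g11 (@Lb.r r361 (@Lb.r r1384 (@Lb.r r2391 (@Lb.d (nat_lit 132) (nat_lit 82) (nat_lit 264) (@Lb.fm (nat_lit 3) t386))))))))
noncomputable def l6425 : Lb := (@Lb.d (nat_lit 2) (nat_lit 514) (nat_lit 130) (@Lb.g g8 (@Lb.g g9 (@Lb.g g10 (@Lb.g g11 (@Lb.r r427 (@Lb.r r145 (@Lb.r r356 (@Lb.r r154 (@Lb.r r132 (@Lb.d (nat_lit 6) (nat_lit 130) (nat_lit 137) (@Lb.fm (nat_lit 9) t1350))))))))))))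
noncomputable def l6426 : Lb := (@Lb.d (nat_lit 5) (nat_lit 322) (nat_lit 513) (@Lb.r r1313 (@Lb.r r2327 (@Lb.r r584 (@Lb.g g6 (@Lb.g g5 (@Lb.d (nat_lit 16) (nat_lit 1) (nat_lit 1) (@Lb.r r387 (@Lb.fm (nat_lit 3) t125)))))))))
noncomputable def l6427 : Lb := (@Lb.r r21 (@Lb.d (nat_lit 130) (nat_lit 0) (nat_lit 66) (@Lb.g g8 (@Lb.g g10 (@Lb.g g11 (@Lb.r r651 (@Lb.r r357 (@Lb.r r154 (@Lb.r r148 (@Lb.d (nat_lit 86) (nat_lit 161) (nat_lit 8) (@Lb.t (@Lb.fp (nat_lit 9) t1284))))))))))))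
noncomputable def l6428 : Lb := (@Lb.d (nat_lit 8) (nat_lit 261) (nat_lit 74) (@Lb.g g9 (@Lb.g g10 (@Lb.g g11 (@Lb.r r423 (@Lb.r r596 (@Lb.r r666 (@Lb.r r337 (@Lb.d (nat_lit 6) (nat_lit 37) (nat_lit 6) (@Lb.t (@Lb.fp (nat_lit 9) t1698)))))))))))
noncomputable def l6429 : Lb := (@Lb.d (nat_lit 0) (nat_lit 138) (nat_lit 153) (@Lb.r r2118 (@Lb.r r2196 (@Lb.r r281 (@Lb.g g11 (@Lb.g g4 (@Lb.d (nat_lit 1) (nat_lit 16) (nat_lit 384) (@Lb.r r74 (@Lb.r r529 (@Lb.fp (nat_lit 3) t1699))))))))))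
noncomputable def l6430 : Lb := (@Lb.r r70 (@Lb.r r263 (@Lb.d (nat_lit 5) (nat_lit 1) (nat_lit 0) (@Lb.g g8 (@Lb.g g5 (@Lb.r r1315 (@Lb.r r1122 (@Lb.r r1192 (@Lb.d (nat_lit 538) (nat_lit 74) (nat_lit 18) (@Lb.fm (nat_lit 3) t1268))))))))))
noncomputable def l6431 : Lb := (@Lb.d (nat_lit 534) (nat_lit 6) (nat_lit 18) (@Lb.r r20 (@Lb.r r2153 (@Lb.r r323 (@Lb.g g10 (@Lb.g g5 (@Lb.g g4 (@Lb.d (nat_lit 2) (nat_lit 1) (nat_lit 2) (@Lb.r r387 (@Lb.t (@Lb.fp (nat_lit 9) t133)))))))))))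
noncomputable def l6432 : Lb := (@Lb.d (nat_lit 5) (nat_lit 0) (nat_lit 0) (@Lb.g g4 (@Lb.g g10 (@Lb.g g11 (@Lb.r r387 (@Lb.d (nat_lit 0) (nat_lit 1) (nat_lit 2) (@Lb.t (@Lb.fp (nat_lit 9) t2))))))))
noncomputable def l6433 : Lb := (@Lb.d (nat_lit 1) (nat_lit 288) (nat_lit 128) (@Lb.g g8 (@Lb.g g11 (@Lb.r r138 (@Lb.r r420 (@Lb.r r293 (@Lb.r r2587 (@Lb.d (nat_lit 328) (nat_lit 132) (nat_lit 1) (@Lb.fp (nat_lit 3) t71)))))))))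
noncomputable def l6434 : Lb := (@Lb.d (nat_lit 24) (nat_lit 262) (nat_lit 128) (@Lb.g g9 (@Lb.g g10 (@Lb.g g11 (@Lb.r r1352 (@Lb.r r1687 (@Lb.r r2449 (@Lb.r r90 (@Lb.d (nat_lit 601) (nat_lit 1) (nat_lit 128) (@Lb.t (@Lb.fm (nat_lit 9) t1700)))))))))))
noncomputable def l6435 : Lb := (@Lb.d (nat_lit 536) (nat_lit 322) (nat_lit 1) (@Lb.r r1192 (@Lb.r r2153 (@Lb.r r323 (@Lb.g g10 (@Lb.g g5 (@Lb.g g4 (@Lb.d (nat_lit 6) (nat_lit 2) (nat_lit 2) (@Lb.r r387 (@Lb.t (@Lb.fm (nat_lit 9) t350)))))))))))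
noncomputable def l6436 : Lb := (@Lb.d (nat_lit 2) (nat_lit 260) (nat_lit 138) (@Lb.g g8 (@Lb.g g9 (@Lb.g g10 (@Lb.g g11 (@Lb.r r1699 (@Lb.r r596 (@Lb.r r682 (@Lb.r r2217 (@Lb.r r2212 (@Lb.d (nat_lit 586) (nat_lit 97) (nat_lit 650) (@Lb.fm (nat_lit 9) t1085))))))))))))
noncomputable def l6437 : Lb := (@Lb.d (nat_lit 138) (nat_lit 256) (nat_lit 0) (@Lb.g g8 (@Lb.g g11 (@Lb.r r597 (@Lb.r r426 (@Lb.r r2468 (@Lb.r r539 (@Lb.d (nat_lit 536) (nat_lit 66) (nat_lit 388) (@Lb.fm (nat_lit 3) t1701)))))))))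
noncomputable def l6438 : Lb := (@Lb.d (nat_lit 6) (nat_lit 0) (nat_lit 128) (@Lb.g g8 (@Lb.g g9 (@Lb.g g11 (@Lb.r r85 (@Lb.r r1194 (@Lb.r r1444 (@Lb.r r2395 (@Lb.r r1681 (@Lb.d (nat_lit 8) (nat_lit 146) (nat_lit 362) (@Lb.t (@Lb.fp (nat_lit 9) t210))))))))))))
noncomputable def l6439 : Lb := (@Lb.d (nat_lit 0) (nat_lit 256) (nat_lit 128) (@Lb.g g9 (@Lb.g g11 (@Lb.r r545 (@Lb.r r299 (@Lb.r r328 (@Lb.r r134 (@Lb.d (nat_lit 6) (nat_lit 8) (nat_lit 33) (@Lb.fp (nat_lit 3) t167)))))))))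
noncomputable def l6440 : Lb := (@Lb.d (nat_lit 646) (nat_lit 546) (nat_lit 361) (@Lb.r r1704 (@Lb.r r1307 (@Lb.r r2657 (@Lb.g g7 (@Lb.g g10 (@Lb.g g5 (@Lb.g g4 (@Lb.d (nat_lit 89) (nat_lit 32) (nat_lit 2) (@Lb.fm (nat_lit 9) t794))))))))))
noncomputable def l6441 : Lb := (@Lb.d (nat_lit 0) (nat_lit 1) (nat_lit 130) (@Lb.g g8 (@Lb.g g9 (@Lb.g g10 (@Lb.g g11 (@Lb.r r618 (@Lb.r r105 (@Lb.r r340 (@Lb.r r2587 (@Lb.r r2564 (@Lb.d (nat_lit 2) (nat_lit 18) (nat_lit 640) (@Lb.fp (nat_lit 9) t71))))))))))))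
noncomputable def l6442 : Lb := (@Lb.d (nat_lit 0) (nat_lit 2) (nat_lit 130) (@Lb.g g9 (@Lb.g g10 (@Lb.g g11 (@Lb.r r586 (@Lb.r r584 (@Lb.r r1323 (@Lb.r r1313 (@Lb.d (nat_lit 2) (nat_lit 130) (nat_lit 256) (@Lb.t (@Lb.fm (nat_lit 9) t51)))))))))))
noncomputable def l6443 : Lb := (@Lb.d (nat_lit 130) (nat_lit 257) (nat_lit 8) (@Lb.g g8 (@Lb.g g9 (@Lb.g g10 (@Lb.r r279 (@Lb.r r1641 (@Lb.r r1106 (@Lb.r r1604 (@Lb.d (nat_lit 145) (nat_lit 132) (nat_lit 617) (@Lb.t (@Lb.fp (nat_lit 9) t322)))))))))))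
noncomputable def l6444 : Lb := (@Lb.d (nat_lit 6) (nat_lit 320) (nat_lit 0) (@Lb.fp (nat_lit 1) t2))
noncomputable def l6445 : Lb := (@Lb.d (nat_lit 2) (nat_lit 258) (nat_lit 130) (@Lb.g g8 (@Lb.g g9 (@Lb.g g10 (@Lb.g g11 (@Lb.r r427 (@Lb.r r420 (@Lb.r r102 (@Lb.r r97 (@Lb.r r36 (@Lb.d (nat_lit 2) (nat_lit 154) (nat_lit 388) (@Lb.fm (nat_lit 9) t51))))))))))))
noncomputable def l6446 : Lb := (@Lb.d (nat_lit 162) (nat_lit 257) (nat_lit 0) (@Lb.g g8 (@Lb.g g9 (@Lb.r r407 (@Lb.r r1430 (@Lb.r r1625 (@Lb.r r596 (@Lb.d (nat_lit 661) (nat_lit 38) (nat_lit 74) (@Lb.fp (nat_lit 3) t322)))))))))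
noncomputable def l6447 : Lb := (@Lb.r r323 (@Lb.d (nat_lit 4) (nat_lit 1) (nat_lit 2) (@Lb.g g9 (@Lb.g g10 (@Lb.r r102 (@Lb.r r404 (@Lb.r r1371 (@Lb.r r2705 (@Lb.d (nat_lit 10) (nat_lit 133) (nat_lit 661) (@Lb.fm (nat_lit 3) t71))))))))))
noncomputable def l6448 : Lb := (@Lb.d (nat_lit 0) (nat_lit 258) (nat_lit 64) (@Lb.g g9 (@Lb.g g11 (@Lb.r r337 (@Lb.r r1642 (@Lb.r r619 (@Lb.r r1096 (@Lb.d (nat_lit 73) (nat_lit 162) (nat_lit 384) (@Lb.fm (nat_lit 3) t414)))))))))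
noncomputable def l6449 : Lb := (@Lb.r r323 (@Lb.d (nat_lit 138) (nat_lit 0) (nat_lit 2) (@Lb.g g8 (@Lb.g g10 (@Lb.r r346 (@Lb.r r661 (@Lb.r r1431 (@Lb.r r2632 (@Lb.d (nat_lit 361) (nat_lit 133) (nat_lit 256) (@Lb.fp (nat_lit 3) t71))))))))))
noncomputable def l6450 : Lb := (@Lb.d (nat_lit 4) (nat_lit 514) (nat_lit 130) (@Lb.g g9 (@Lb.g g10 (@Lb.g g11 (@Lb.r r423 (@Lb.r r2472 (@Lb.r r346 (@Lb.r r2213 (@Lb.d (nat_lit 5) (nat_lit 32) (nat_lit 344) (@Lb.t (@Lb.fm (nat_lit 9) t219)))))))))))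
noncomputable def l6451 : Lb := (@Lb.d (nat_lit 9) (nat_lit 6) (nat_lit 74) (@Lb.g g8 (@Lb.g g9 (@Lb.g g10 (@Lb.g g11 (@Lb.r r1699 (@Lb.r r596 (@Lb.r r682 (@Lb.r r2217 (@Lb.r r2212 (@Lb.d (nat_lit 581) (nat_lit 106) (nat_lit 585) (@Lb.fm (nat_lit 9) t151))))))))))))
noncomputable def l6452 : Lb := (@Lb.d (nat_lit 529) (nat_lit 0) (nat_lit 17) (@Lb.r r20 (@Lb.r r2153 (@Lb.r r323 (@Lb.g g10 (@Lb.g g5 (@Lb.g g4 (@Lb.d (nat_lit 1) (nat_lit 1) (nat_lit 2) (@Lb.r r387 (@Lb.t (@Lb.fp (nat_lit 9) t51)))))))))))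
noncomputable def l6453 : Lb := (@Lb.d (nat_lit 20) (nat_lit 537) (nat_lit 10) (@Lb.r r405 (@Lb.r r402 (@Lb.r r407 (@Lb.g g7 (@Lb.g g5 (@Lb.g g4 (@Lb.d (nat_lit 1) (nat_lit 36) (nat_lit 128) (@Lb.r r98 (@Lb.t (@Lb.fm (nat_lit 9) t720)))))))))))
noncomputable def l6454 : Lb := (@Lb.d (nat_lit 0) (nat_lit 0) (nat_lit 128) (@Lb.g g10 (@Lb.g g11 (@Lb.r r387 (@Lb.r r402 (@Lb.r r101 (@Lb.r r24 (@Lb.d (nat_lit 545) (nat_lit 0) (nat_lit 32) (@Lb.fp (nat_lit 3) t313)))))))))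
noncomputable def l6455 : Lb := (@Lb.d (nat_lit 0) (nat_lit 0) (nat_lit 128) (@Lb.g g10 (@Lb.g g11 (@Lb.r r387 (@Lb.r r1414 (@Lb.r r149 (@Lb.r r2120 (@Lb.d (nat_lit 2) (nat_lit 0) (nat_lit 0) (@Lb.fm (nat_lit 3) t145)))))))))
noncomputable def l6456 : Lb := (@Lb.d (nat_lit 2) (nat_lit 514) (nat_lit 66) (@Lb.g g8 (@Lb.g g9 (@Lb.g g10 (@Lb.g g7 (@Lb.r r297 (@Lb.r r104 (@Lb.r r70 (@Lb.r r132 (@Lb.d (nat_lit 257) (nat_lit 10) (nat_lit 585) (@Lb.fm (nat_lit 9) t242)))))))))))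
noncomputable def l6457 : Lb := (@Lb.d (nat_lit 2) (nat_lit 34) (nat_lit 2) (@Lb.g g8 (@Lb.g g9 (@Lb.g g10 (@Lb.r r1194 (@Lb.r r2468 (@Lb.r r1307 (@Lb.r r1573 (@Lb.d (nat_lit 386) (nat_lit 144) (nat_lit 586) (@Lb.t (@Lb.fm (nat_lit 9) t284)))))))))))
noncomputable def l6458 : Lb := (@Lb.d (nat_lit 1) (nat_lit 649) (nat_lit 0) (@Lb.r r37 (@Lb.r r1304 (@Lb.r r2375 (@Lb.g g7 (@Lb.g g6 (@Lb.g g4 (@Lb.d (nat_lit 0) (nat_lit 0) (nat_lit 133) (@Lb.r r145 (@Lb.t (@Lb.fp (nat_lit 9) t718)))))))))))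
noncomputable def l6459 : Lb := (@Lb.r r21 (@Lb.d (nat_lit 16) (nat_lit 512) (nat_lit 10) (@Lb.g g8 (@Lb.g g10 (@Lb.g g7 (@Lb.r r402 (@Lb.r r97 (@Lb.r r24 (@Lb.d (nat_lit 10) (nat_lit 33) (nat_lit 128) (@Lb.t (@Lb.fm (nat_lit 9) t720)))))))))))
noncomputable def l6460 : Lb := (@Lb.d (nat_lit 0) (nat_lit 514) (nat_lit 128) (@Lb.g g9 (@Lb.g g10 (@Lb.g g11 (@Lb.r r387 (@Lb.r r406 (@Lb.r r97 (@Lb.r r24 (@Lb.d (nat_lit 26) (nat_lit 9) (nat_lit 0) (@Lb.t (@Lb.fp (nat_lit 9) t145)))))))))))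
noncomputable def l6461 : Lb := (@Lb.d (nat_lit 2) (nat_lit 256) (nat_lit 130) (@Lb.g g8 (@Lb.g g10 (@Lb.g g11 (@Lb.r r586 (@Lb.r r584 (@Lb.r r619 (@Lb.r r609 (@Lb.d (nat_lit 2) (nat_lit 2) (nat_lit 68) (@Lb.t (@Lb.fp (nat_lit 9) t71)))))))))))
noncomputable def l6462 : Lb := (@Lb.d (nat_lit 281) (nat_lit 514) (nat_lit 33) (@Lb.r r20 (@Lb.r r105 (@Lb.r r402 (@Lb.r r323 (@Lb.g g7 (@Lb.g g6 (@Lb.g g4 (@Lb.d (nat_lit 2) (nat_lit 0) (nat_lit 64) (@Lb.t (@Lb.fp (nat_lit 9) t218)))))))))))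
noncomputable def l6463 : Lb := (@Lb.d (nat_lit 2) (nat_lit 4) (nat_lit 128) (@Lb.g g8 (@Lb.g g9 (@Lb.g g10 (@Lb.g g11 (@Lb.r r427 (@Lb.r r145 (@Lb.r r356 (@Lb.r r154 (@Lb.r r132 (@Lb.d (nat_lit 10) (nat_lit 2) (nat_lit 2) (@Lb.fm (nat_lit 9) t31))))))))))))
noncomputable def l6464 : Lb := (@Lb.d (nat_lit 2) (nat_lit 260) (nat_lit 128) (@Lb.g g8 (@Lb.g g9 (@Lb.g g10 (@Lb.g g11 (@Lb.r r427 (@Lb.r r145 (@Lb.r r356 (@Lb.r r154 (@Lb.r r132 (@Lb.d (nat_lit 9) (nat_lit 2) (nat_lit 2) (@Lb.fm (nat_lit 9) t601))))))))))))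
noncomputable def l6465 : Lb := (@Lb.d (nat_lit 2) (nat_lit 2) (nat_lit 128) (@Lb.g g8 (@Lb.g g9 (@Lb.g g10 (@Lb.g g11 (@Lb.r r387 (@Lb.r r406 (@Lb.r r104 (@Lb.r r25 (@Lb.d (nat_lit 538) (nat_lit 9) (nat_lit 16) (@Lb.fp (nat_lit 9) t145)))))))))))
noncomputable def l6466 : Lb := (@Lb.r r20 (@Lb.d (nat_lit 0) (nat_lit 65) (nat_lit 2) (@Lb.g g9 (@Lb.g g10 (@Lb.r r515 (@Lb.r r98 (@Lb.d (nat_lit 2) (nat_lit 70) (nat_lit 86) (@Lb.fp (nat_lit 3) t479))))))))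
noncomputable def l6467 : Lb := (@Lb.d (nat_lit 22) (nat_lit 25) (nat_lit 10) (@Lb.r r405 (@Lb.r r402 (@Lb.r r407 (@Lb.g g7 (@Lb.g g5 (@Lb.g g4 (@Lb.d (nat_lit 1) (nat_lit 36) (nat_lit 128) (@Lb.r r98 (@Lb.t (@Lb.fm (nat_lit 9) t720)))))))))))
noncomputable def l6468 : Lb := (@Lb.r r21 (@Lb.r r263 (@Lb.d (nat_lit 512) (nat_lit 256) (nat_lit 2) (@Lb.g g4 (@Lb.g g10 (@Lb.r r267 (@Lb.r r150 (@Lb.r r97 (@Lb.d (nat_lit 261) (nat_lit 129) (nat_lit 0) (@Lb.fp (nat_lit 3) t1702))))))))))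
noncomputable def l6469 : Lb := (@Lb.d (nat_lit 2) (nat_lit 257) (nat_lit 10) (@Lb.g g8 (@Lb.g g9 (@Lb.g g10 (@Lb.r r1543 (@Lb.r r1681 (@Lb.r r2404 (@Lb.r r1178 (@Lb.d (nat_lit 678) (nat_lit 130) (nat_lit 100) (@Lb.t (@Lb.fm (nat_lit 9) t651)))))))))))
noncomputable def l6470 : Lb := (@Lb.r r21 (@Lb.d (nat_lit 17) (nat_lit 512) (nat_lit 0) (@Lb.g g4 (@Lb.g g10 (@Lb.g g7 (@Lb.r r1174 (@Lb.r r97 (@Lb.d (nat_lit 1) (nat_lit 130) (nat_lit 69) (@Lb.t (@Lb.fm (nat_lit 9) t1547))))))))))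
noncomputable def l6471 : Lb := (@Lb.d (nat_lit 129) (nat_lit 530) (nat_lit 2) (@Lb.g g8 (@Lb.g g9 (@Lb.g g10 (@Lb.g g11 (@Lb.r r1435 (@Lb.r r386 (@Lb.r r1129 (@Lb.r r1636 (@Lb.d (nat_lit 345) (nat_lit 84) (nat_lit 674) (@Lb.fp (nat_lit 9) t31)))))))))))
noncomputable def l6472 : Lb := (@Lb.d (nat_lit 0) (nat_lit 2) (nat_lit 128) (@Lb.g g9 (@Lb.g g10 (@Lb.g g11 (@Lb.r r387 (@Lb.r r2450 (@Lb.r r1125 (@Lb.r r24 (@Lb.d (nat_lit 514) (nat_lit 0) (nat_lit 16) (@Lb.t (@Lb.fp (nat_lit 9) t145)))))))))))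
noncomputable def l6473 : Lb := (@Lb.d (nat_lit 356) (nat_lit 66) (nat_lit 356) (@Lb.r r2436 (@Lb.r r2406 (@Lb.r r1691 (@Lb.g g7 (@Lb.g g9 (@Lb.g g4 (@Lb.d (nat_lit 68) (nat_lit 72) (nat_lit 128) (@Lb.r r98 (@Lb.t (@Lb.fp (nat_lit 9) t145)))))))))))
noncomputable def l6474 : Lb := (@Lb.d (nat_lit 0) (nat_lit 514) (nat_lit 130) (@Lb.g g9 (@Lb.g g10 (@Lb.g g11 (@Lb.r r1443 (@Lb.r r386 (@Lb.r r1125 (@Lb.r r24 (@Lb.d (nat_lit 610) (nat_lit 0) (nat_lit 148) (@Lb.t (@Lb.fp (nat_lit 9) t263)))))))))))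
noncomputable def l6475 : Lb := (@Lb.r r82 (@Lb.d (nat_lit 34) (nat_lit 514) (nat_lit 128) (@Lb.g g8 (@Lb.g g9 (@Lb.g g11 (@Lb.r r363 (@Lb.r r582 (@Lb.r r392 (@Lb.d (nat_lit 153) (nat_lit 2) (nat_lit 137) (@Lb.t (@Lb.fp (nat_lit 9) t601)))))))))))
noncomputable def l6476 : Lb := (@Lb.r r82 (@Lb.d (nat_lit 34) (nat_lit 258) (nat_lit 128) (@Lb.g g8 (@Lb.g g9 (@Lb.g g11 (@Lb.r r363 (@Lb.r r582 (@Lb.r r392 (@Lb.d (nat_lit 152) (nat_lit 72) (nat_lit 153) (@Lb.t (@Lb.fp (nat_lit 9) t1703)))))))))))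
noncomputable def l6477 : Lb := (@Lb.d (nat_lit 32) (nat_lit 265) (nat_lit 2) (@Lb.g g9 (@Lb.g g10 (@Lb.r r1555 (@Lb.r r293 (@Lb.r r328 (@Lb.r r662 (@Lb.d (nat_lit 646) (nat_lit 32) (nat_lit 80) (@Lb.fm (nat_lit 3) t249)))))))))
noncomputable def l6478 : Lb := (@Lb.d (nat_lit 134) (nat_lit 256) (nat_lit 130) (@Lb.g g8 (@Lb.g g9 (@Lb.g g10 (@Lb.g g11 (@Lb.r r419 (@Lb.r r344 (@Lb.r r1429 (@Lb.r r1110 (@Lb.r r2212 (@Lb.d (nat_lit 38) (nat_lit 106) (nat_lit 673) (@Lb.fm (nat_lit 9) t238))))))))))))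
noncomputable def l6479 : Lb := (@Lb.d (nat_lit 2) (nat_lit 514) (nat_lit 137) (@Lb.g g8 (@Lb.g g9 (@Lb.g g10 (@Lb.g g11 (@Lb.r r683 (@Lb.r r2666 (@Lb.r r25 (@Lb.d (nat_lit 9) (nat_lit 89) (nat_lit 537) (@Lb.fm (nat_lit 9) t591))))))))))
noncomputable def l6480 : Lb := (@Lb.r r25 (@Lb.d (nat_lit 1) (nat_lit 512) (nat_lit 130) (@Lb.g g8 (@Lb.g g10 (@Lb.g g11 (@Lb.r r650 (@Lb.r r648 (@Lb.r r363 (@Lb.r r353 (@Lb.d (nat_lit 9) (nat_lit 133) (nat_lit 0) (@Lb.t (@Lb.fp (nat_lit 9) t1704))))))))))))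
noncomputable def l6481 : Lb := (@Lb.d (nat_lit 2) (nat_lit 266) (nat_lit 0) (@Lb.g g8 (@Lb.g g9 (@Lb.r r1162 (@Lb.r r1188 (@Lb.r r405 (@Lb.r r1635 (@Lb.d (nat_lit 2) (nat_lit 10) (nat_lit 532) (@Lb.fm (nat_lit 3) t642)))))))))
noncomputable def l6482 : Lb := (@Lb.d (nat_lit 0) (nat_lit 256) (nat_lit 130) (@Lb.g g9 (@Lb.g g10 (@Lb.g g11 (@Lb.r r586 (@Lb.r r584 (@Lb.r r299 (@Lb.r r409 (@Lb.d (nat_lit 538) (nat_lit 68) (nat_lit 34) (@Lb.t (@Lb.fp (nat_lit 9) t1233)))))))))))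
noncomputable def l6483 : Lb := (@Lb.r r323 (@Lb.d (nat_lit 38) (nat_lit 522) (nat_lit 1) (@Lb.g g8 (@Lb.g g9 (@Lb.g g10 (@Lb.r r1689 (@Lb.r r1563 (@Lb.r r74 (@Lb.r r1540 (@Lb.d (nat_lit 257) (nat_lit 0) (nat_lit 73) (@Lb.t (@Lb.fp (nat_lit 9) t321))))))))))))
noncomputable def l6484 : Lb := (@Lb.r r21 (@Lb.d (nat_lit 1) (nat_lit 512) (nat_lit 128) (@Lb.g g8 (@Lb.g g10 (@Lb.g g11 (@Lb.r r387 (@Lb.r r390 (@Lb.r r149 (@Lb.r r72 (@Lb.d (nat_lit 33) (nat_lit 0) (nat_lit 2) (@Lb.t (@Lb.fm (nat_lit 9) t145))))))))))))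
noncomputable def l6485 : Lb := (@Lb.d (nat_lit 2) (nat_lit 256) (nat_lit 128) (@Lb.g g8 (@Lb.g g9 (@Lb.g g10 (@Lb.g g11 (@Lb.r r387 (@Lb.r r2454 (@Lb.r r1128 (@Lb.r r1049 (@Lb.d (nat_lit 514) (nat_lit 74) (nat_lit 2) (@Lb.fp (nat_lit 9) t145)))))))))))
noncomputable def l6486 : Lb := (@Lb.d (nat_lit 32) (nat_lit 0) (nat_lit 128) (@Lb.g g10 (@Lb.g g11 (@Lb.r r391 (@Lb.r r593 (@Lb.r r580 (@Lb.r r362 (@Lb.d (nat_lit 550) (nat_lit 42) (nat_lit 22) (@Lb.fm (nat_lit 3) t145)))))))))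
noncomputable def l6487 : Lb := (@Lb.d (nat_lit 18) (nat_lit 586) (nat_lit 16) (@Lb.r r2321 (@Lb.r r2403 (@Lb.r r594 (@Lb.r r405 (@Lb.g g7 (@Lb.g g6 (@Lb.g g5 (@Lb.g g4 (@Lb.d (nat_lit 1) (nat_lit 22) (nat_lit 129) (@Lb.fp (nat_lit 9) t766)))))))))))
noncomputable def l6488 : Lb := (@Lb.r r21 (@Lb.d (nat_lit 129) (nat_lit 256) (nat_lit 4) (@Lb.g g8 (@Lb.g g10 (@Lb.g g11 (@Lb.r r651 (@Lb.r r586 (@Lb.r r532 (@Lb.r r25 (@Lb.d (nat_lit 10) (nat_lit 40) (nat_lit 129) (@Lb.t (@Lb.fp (nat_lit 9) t128))))))))))))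
noncomputable def l6489 : Lb := (@Lb.d (nat_lit 129) (nat_lit 258) (nat_lit 4) (@Lb.g g8 (@Lb.g g9 (@Lb.g g10 (@Lb.g g11 (@Lb.r r683 (@Lb.r r618 (@Lb.r r537 (@Lb.r r516 (@Lb.d (nat_lit 130) (nat_lit 10) (nat_lit 129) (@Lb.fm (nat_lit 9) t128)))))))))))
noncomputable def l6490 : Lb := (@Lb.d (nat_lit 4) (nat_lit 2) (nat_lit 130) (@Lb.g g9 (@Lb.g g10 (@Lb.g g11 (@Lb.r r423 (@Lb.r r596 (@Lb.r r666 (@Lb.r r337 (@Lb.d (nat_lit 9) (nat_lit 33) (nat_lit 5) (@Lb.t (@Lb.fp (nat_lit 9) t51)))))))))))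
noncomputable def l6491 : Lb := (@Lb.d (nat_lit 136) (nat_lit 513) (nat_lit 132) (@Lb.g g8 (@Lb.g g9 (@Lb.g g10 (@Lb.g g11 (@Lb.r r683 (@Lb.r r618 (@Lb.r r537 (@Lb.r r532 (@Lb.d (nat_lit 132) (nat_lit 40) (nat_lit 129) (@Lb.fm (nat_lit 9) t50)))))))))))
noncomputable def l6492 : Lb := (@Lb.d (nat_lit 2) (nat_lit 2) (nat_lit 130) (@Lb.g g8 (@Lb.g g9 (@Lb.g g10 (@Lb.g g11 (@Lb.r r1443 (@Lb.r r386 (@Lb.r r40 (@Lb.r r105 (@Lb.r r2084 (@Lb.d (nat_lit 598) (nat_lit 1) (nat_lit 86) (@Lb.fm (nat_lit 9) t61))))))))))))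
noncomputable def l6493 : Lb := (@Lb.d (nat_lit 1) (nat_lit 258) (nat_lit 130) (@Lb.g g8 (@Lb.g g9 (@Lb.g g10 (@Lb.g g11 (@Lb.r r1443 (@Lb.r r386 (@Lb.r r1129 (@Lb.r r36 (@Lb.d (nat_lit 612) (nat_lit 1) (nat_lit 84) (@Lb.fp (nat_lit 9) t61)))))))))))
noncomputable def l6494 : Lb := (@Lb.r r82 (@Lb.d (nat_lit 2) (nat_lit 553) (nat_lit 64) (@Lb.g g8 (@Lb.g g9 (@Lb.g g11 (@Lb.r r1635 (@Lb.r r2454 (@Lb.r r1621 (@Lb.d (nat_lit 292) (nat_lit 102) (nat_lit 664) (@Lb.t (@Lb.fm (nat_lit 9) t50)))))))))))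
noncomputable def l6495 : Lb := (@Lb.d (nat_lit 5) (nat_lit 18) (nat_lit 10) (@Lb.r r21 (@Lb.r r322 (@Lb.r r343 (@Lb.g g7 (@Lb.g g6 (@Lb.g g5 (@Lb.g g4 (@Lb.d (nat_lit 8) (nat_lit 0) (nat_lit 136) (@Lb.fp (nat_lit 9) t42))))))))))
noncomputable def l6496 : Lb := (@Lb.r r82 (@Lb.d (nat_lit 2) (nat_lit 2) (nat_lit 64) (@Lb.g g8 (@Lb.g g9 (@Lb.g g7 (@Lb.r r578 (@Lb.r r289 (@Lb.r r24 (@Lb.d (nat_lit 10) (nat_lit 33) (nat_lit 25) (@Lb.t (@Lb.fp (nat_lit 9) t647)))))))))))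
noncomputable def l6497 : Lb := (@Lb.d (nat_lit 6) (nat_lit 82) (nat_lit 645) (@Lb.r r21 (@Lb.r r2370 (@Lb.r r1687 (@Lb.r r642 (@Lb.g g7 (@Lb.g g6 (@Lb.g g5 (@Lb.g g4 (@Lb.d (nat_lit 1) (nat_lit 1) (nat_lit 65) (@Lb.fp (nat_lit 9) t883)))))))))))
noncomputable def l6498 : Lb := (@Lb.d (nat_lit 0) (nat_lit 676) (nat_lit 262) (@Lb.g g11 (@Lb.t (@Lb.fp (nat_lit 3) t1545))))
noncomputable def l6499 : Lb := (@Lb.d (nat_lit 1) (nat_lit 294) (nat_lit 360) (@Lb.r r2394 (@Lb.r r2376 (@Lb.r r1543 (@Lb.g g6 (@Lb.g g9 (@Lb.d (nat_lit 0) (nat_lit 146) (nat_lit 0) (@Lb.fp (nat_lit 3) t1705))))))))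
noncomputable def l6500 : Lb := (@Lb.d (nat_lit 2) (nat_lit 38) (nat_lit 133) (@Lb.g g8 (@Lb.g g9 (@Lb.g g10 (@Lb.g g11 (@Lb.r r24 (@Lb.r r661 (@Lb.r r598 (@Lb.r r599 (@Lb.r r164 (@Lb.d (nat_lit 393) (nat_lit 9) (nat_lit 97) (@Lb.fp (nat_lit 9) t1706))))))))))))
noncomputable def l6501 : Lb := (@Lb.d (nat_lit 0) (nat_lit 294) (nat_lit 133) (@Lb.g g8 (@Lb.g g9 (@Lb.g g10 (@Lb.g g11 (@Lb.r r24 (@Lb.r r661 (@Lb.r r598 (@Lb.r r599 (@Lb.r r164 (@Lb.d (nat_lit 393) (nat_lit 2) (nat_lit 98) (@Lb.fp (nat_lit 9) t1707))))))))))))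
noncomputable def l6502 : Lb := (@Lb.d (nat_lit 2) (nat_lit 516) (nat_lit 64) (@Lb.g g8 (@Lb.g g9 (@Lb.g g10 (@Lb.g g7 (@Lb.r r386 (@Lb.r r97 (@Lb.r r24 (@Lb.d (nat_lit 5) (nat_lit 8) (nat_lit 9) (@Lb.fp (nat_lit 9) t42))))))))))
noncomputable def l6503 : Lb := (@Lb.d (nat_lit 0) (nat_lit 4) (nat_lit 64) (@Lb.g g8 (@Lb.g g9 (@Lb.g g10 (@Lb.g g7 (@Lb.r r386 (@Lb.r r97 (@Lb.r r24 (@Lb.d (nat_lit 10) (nat_lit 9) (nat_lit 9) (@Lb.fp (nat_lit 9) t42))))))))))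
noncomputable def l6504 : Lb := (@Lb.r r323 (@Lb.d (nat_lit 2) (nat_lit 514) (nat_lit 2) (@Lb.g g8 (@Lb.g g9 (@Lb.g g10 (@Lb.r r401 (@Lb.r r299 (@Lb.r r392 (@Lb.r r74 (@Lb.d (nat_lit 33) (nat_lit 129) (nat_lit 136) (@Lb.t (@Lb.fp (nat_lit 9) t1350))))))))))))
noncomputable def l6505 : Lb := (@Lb.d (nat_lit 2) (nat_lit 550) (nat_lit 133) (@Lb.g g8 (@Lb.g g9 (@Lb.g g10 (@Lb.g g11 (@Lb.r r24 (@Lb.r r661 (@Lb.r r598 (@Lb.r r599 (@Lb.r r164 (@Lb.d (nat_lit 393) (nat_lit 2) (nat_lit 98) (@Lb.fp (nat_lit 9) t1707))))))))))))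
noncomputable def l6506 : Lb := (@Lb.d (nat_lit 356) (nat_lit 273) (nat_lit 613) (@Lb.r r1444 (@Lb.r r2665 (@Lb.r r363 (@Lb.g g10 (@Lb.g g5 (@Lb.g g4 (@Lb.d (nat_lit 84) (nat_lit 2) (nat_lit 4) (@Lb.t (@Lb.fp (nat_lit 9) t521))))))))))
noncomputable def l6507 : Lb := (@Lb.d (nat_lit 2) (nat_lit 2) (nat_lit 130) (@Lb.g g8 (@Lb.g g9 (@Lb.g g10 (@Lb.g g11 (@Lb.r r84 (@Lb.r r154 (@Lb.r r597 (@Lb.r r343 (@Lb.r r676 (@Lb.d (nat_lit 297) (nat_lit 1) (nat_lit 90) (@Lb.fm (nat_lit 9) t127))))))))))))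
noncomputable def l6508 : Lb := (@Lb.d (nat_lit 534) (nat_lit 257) (nat_lit 17) (@Lb.r r20 (@Lb.r r2153 (@Lb.r r323 (@Lb.g g10 (@Lb.g g5 (@Lb.g g4 (@Lb.d (nat_lit 1) (nat_lit 6) (nat_lit 0) (@Lb.r r387 (@Lb.t (@Lb.fp (nat_lit 9) t51)))))))))))
noncomputable def l6509 : Lb := (@Lb.d (nat_lit 0) (nat_lit 0) (nat_lit 128) (@Lb.g g9 (@Lb.g g10 (@Lb.g g11 (@Lb.r r387 (@Lb.r r402 (@Lb.r r24 (@Lb.r r101 (@Lb.d (nat_lit 21) (nat_lit 130) (nat_lit 0) (@Lb.t (@Lb.fp (nat_lit 9) t240)))))))))))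
noncomputable def l6510 : Lb := (@Lb.g g6 (@Lb.g g7 (@Lb.r r323 (@Lb.r r2626 (@Lb.d (nat_lit 5) (nat_lit 257) (nat_lit 16) (@Lb.fm (nat_lit 3) t2))))))
noncomputable def l6511 : Lb := (@Lb.d (nat_lit 64) (nat_lit 280) (nat_lit 68) (@Lb.r r405 (@Lb.r r338 (@Lb.r r679 (@Lb.g g7 (@Lb.g g6 (@Lb.g g5 (@Lb.g g8 (@Lb.d (nat_lit 10) (nat_lit 22) (nat_lit 130) (@Lb.fp (nat_lit 9) t30))))))))))
noncomputable def l6512 : Lb := (@Lb.d (nat_lit 0) (nat_lit 0) (nat_lit 130) (@Lb.g g8 (@Lb.g g9 (@Lb.g g10 (@Lb.g g11 (@Lb.r r2475 (@Lb.r r2193 (@Lb.r r356 (@Lb.r r154 (@Lb.r r132 (@Lb.d (nat_lit 516) (nat_lit 8) (nat_lit 153) (@Lb.fm (nat_lit 9) t221))))))))))))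
noncomputable def l6513 : Lb := (@Lb.d (nat_lit 144) (nat_lit 520) (nat_lit 2) (@Lb.g g8 (@Lb.g g10 (@Lb.r r533 (@Lb.r r2711 (@Lb.r r662 (@Lb.r r1124 (@Lb.d (nat_lit 154) (nat_lit 26) (nat_lit 658) (@Lb.fm (nat_lit 3) t412)))))))))
noncomputable def l6514 : Lb := (@Lb.d (nat_lit 0) (nat_lit 0) (nat_lit 130) (@Lb.g g8 (@Lb.g g9 (@Lb.g g10 (@Lb.g g11 (@Lb.r r419 (@Lb.r r386 (@Lb.r r101 (@Lb.r r24 (@Lb.d (nat_lit 98) (nat_lit 0) (nat_lit 132) (@Lb.fm (nat_lit 9) t263)))))))))))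
noncomputable def l6515 : Lb := (@Lb.d (nat_lit 0) (nat_lit 256) (nat_lit 128) (@Lb.g g9 (@Lb.g g10 (@Lb.g g11 (@Lb.r r1447 (@Lb.r r1414 (@Lb.r r24 (@Lb.r r101 (@Lb.d (nat_lit 533) (nat_lit 130) (nat_lit 0) (@Lb.t (@Lb.fp (nat_lit 9) t825)))))))))))
noncomputable def l6516 : Lb := (@Lb.d (nat_lit 0) (nat_lit 512) (nat_lit 136) (@Lb.g g9 (@Lb.g g11 (@Lb.r r402 (@Lb.r r24 (@Lb.r r101 (@Lb.d (nat_lit 26) (nat_lit 128) (nat_lit 128) (@Lb.fp (nat_lit 3) t240))))))))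
noncomputable def l6517 : Lb := (@Lb.d (nat_lit 529) (nat_lit 512) (nat_lit 17) (@Lb.r r20 (@Lb.r r2153 (@Lb.r r323 (@Lb.g g10 (@Lb.g g5 (@Lb.g g4 (@Lb.d (nat_lit 10) (nat_lit 0) (nat_lit 2) (@Lb.r r387 (@Lb.t (@Lb.fp (nat_lit 9) t51)))))))))))
noncomputable def l6518 : Lb := (@Lb.d (nat_lit 9) (nat_lit 1) (nat_lit 130) (@Lb.g g8 (@Lb.g g9 (@Lb.g g10 (@Lb.g g11 (@Lb.r r427 (@Lb.r r386 (@Lb.r r104 (@Lb.r r25 (@Lb.d (nat_lit 581) (nat_lit 6) (nat_lit 86) (@Lb.fp (nat_lit 9) t61)))))))))))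
noncomputable def l6519 : Lb := (@Lb.d (nat_lit 5) (nat_lit 513) (nat_lit 0) (@Lb.r r1064 (@Lb.r r2089 (@Lb.g g4 (@Lb.t (@Lb.fm (nat_lit 3) t2))))))
noncomputable def l6520 : Lb := (@Lb.d (nat_lit 24) (nat_lit 513) (nat_lit 128) (@Lb.g g8 (@Lb.g g9 (@Lb.g g10 (@Lb.g g11 (@Lb.r r663 (@Lb.r r360 (@Lb.r r1126 (@Lb.r r97 (@Lb.r r36 (@Lb.d (nat_lit 265) (nat_lit 137) (nat_lit 680) (@Lb.fm (nat_lit 9) t1436))))))))))))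
noncomputable def l6521 : Lb := (@Lb.d (nat_lit 4) (nat_lit 257) (nat_lit 130) (@Lb.g g9 (@Lb.g g10 (@Lb.g g11 (@Lb.r r614 (@Lb.r r404 (@Lb.r r1371 (@Lb.r r2705 (@Lb.d (nat_lit 2) (nat_lit 132) (nat_lit 661) (@Lb.t (@Lb.fm (nat_lit 9) t71)))))))))))
noncomputable def l6522 : Lb := (@Lb.d (nat_lit 529) (nat_lit 256) (nat_lit 17) (@Lb.r r20 (@Lb.r r2153 (@Lb.r r323 (@Lb.g g10 (@Lb.g g5 (@Lb.g g4 (@Lb.d (nat_lit 10) (nat_lit 5) (nat_lit 0) (@Lb.r r387 (@Lb.t (@Lb.fp (nat_lit 9) t51)))))))))))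
noncomputable def l6523 : Lb := (@Lb.d (nat_lit 8) (nat_lit 546) (nat_lit 0) (@Lb.g g9 (@Lb.g g6 (@Lb.g g11 (@Lb.r r2651 (@Lb.r r1048 (@Lb.r r21 (@Lb.d (nat_lit 1) (nat_lit 1) (nat_lit 394) (@Lb.t (@Lb.fp (nat_lit 9) t1708))))))))))
noncomputable def l6524 : Lb := (@Lb.d (nat_lit 132) (nat_lit 512) (nat_lit 130) (@Lb.g g8 (@Lb.g g9 (@Lb.g g10 (@Lb.g g11 (@Lb.r r2459 (@Lb.r r1177 (@Lb.r r1626 (@Lb.r r1604 (@Lb.d (nat_lit 153) (nat_lit 137) (nat_lit 649) (@Lb.fp (nat_lit 9) t1368)))))))))))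
noncomputable def l6525 : Lb := (@Lb.d (nat_lit 32) (nat_lit 512) (nat_lit 146) (@Lb.g g9 (@Lb.g g10 (@Lb.g g11 (@Lb.r r2471 (@Lb.r r2341 (@Lb.r r1096 (@Lb.d (nat_lit 548) (nat_lit 65) (nat_lit 33) (@Lb.t (@Lb.fm (nat_lit 9) t1709))))))))))
noncomputable def l6526 : Lb := (@Lb.d (nat_lit 0) (nat_lit 512) (nat_lit 136) (@Lb.g g11 (@Lb.r r402 (@Lb.r r1379 (@Lb.r r1172 (@Lb.r r89 (@Lb.d (nat_lit 584) (nat_lit 97) (nat_lit 384) (@Lb.t (@Lb.fm (nat_lit 3) t1710)))))))))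
noncomputable def l6527 : Lb := (@Lb.d (nat_lit 134) (nat_lit 546) (nat_lit 66) (@Lb.g g8 (@Lb.g g9 (@Lb.g g10 (@Lb.g g11 (@Lb.r r586 (@Lb.r r584 (@Lb.r r299 (@Lb.r r1169 (@Lb.d (nat_lit 426) (nat_lit 66) (nat_lit 73) (@Lb.fm (nat_lit 9) t238)))))))))))
noncomputable def l6528 : Lb := (@Lb.d (nat_lit 129) (nat_lit 514) (nat_lit 130) (@Lb.g g8 (@Lb.g g9 (@Lb.g g10 (@Lb.g g11 (@Lb.r r2459 (@Lb.r r2581 (@Lb.r r676 (@Lb.r r2118 (@Lb.r r1156 (@Lb.d (nat_lit 26) (nat_lit 168) (nat_lit 74) (@Lb.fp (nat_lit 9) t1711))))))))))))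
noncomputable def l6529 : Lb := (@Lb.d (nat_lit 132) (nat_lit 0) (nat_lit 130) (@Lb.g g8 (@Lb.g g9 (@Lb.g g10 (@Lb.g g11 (@Lb.r r419 (@Lb.r r2154 (@Lb.r r2337 (@Lb.r r600 (@Lb.d (nat_lit 330) (nat_lit 166) (nat_lit 168) (@Lb.fp (nat_lit 9) t1712)))))))))))
noncomputable def l6530 : Lb := (@Lb.d (nat_lit 644) (nat_lit 0) (nat_lit 130) (@Lb.g g8 (@Lb.g g9 (@Lb.g g10 (@Lb.g g11 (@Lb.r r419 (@Lb.r r106 (@Lb.r r25 (@Lb.d (nat_lit 354) (nat_lit 10) (nat_lit 9) (@Lb.fp (nat_lit 9) t1713))))))))))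
noncomputable def l6531 : Lb := (@Lb.d (nat_lit 2) (nat_lit 514) (nat_lit 130) (@Lb.g g8 (@Lb.g g9 (@Lb.g g10 (@Lb.g g11 (@Lb.r r427 (@Lb.r r386 (@Lb.r r97 (@Lb.r r24 (@Lb.d (nat_lit 610) (nat_lit 10) (nat_lit 86) (@Lb.fm (nat_lit 9) t61)))))))))))
noncomputable def l6532 : Lb := (@Lb.r r323 (@Lb.d (nat_lit 137) (nat_lit 546) (nat_lit 10) (@Lb.g g8 (@Lb.g g9 (@Lb.g g10 (@Lb.r r1299 (@Lb.r r2657 (@Lb.r r598 (@Lb.r r408 (@Lb.d (nat_lit 276) (nat_lit 9) (nat_lit 330) (@Lb.t (@Lb.fm (nat_lit 9) t2))))))))))))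
noncomputable def l6533 : Lb := (@Lb.r r263 (@Lb.d (nat_lit 514) (nat_lit 514) (nat_lit 2) (@Lb.g g8 (@Lb.g g9 (@Lb.g g10 (@Lb.r r1559 (@Lb.r r106 (@Lb.r r25 (@Lb.d (nat_lit 9) (nat_lit 6) (nat_lit 17) (@Lb.t (@Lb.fp (nat_lit 9) t898)))))))))))
noncomputable def l6534 : Lb := (@Lb.r r21 (@Lb.d (nat_lit 538) (nat_lit 256) (nat_lit 74) (@Lb.g g4 (@Lb.g g10 (@Lb.g g11 (@Lb.r r1687 (@Lb.r r2401 (@Lb.r r1170 (@Lb.d (nat_lit 532) (nat_lit 72) (nat_lit 514) (@Lb.t (@Lb.fm (nat_lit 9) t68)))))))))))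
noncomputable def l6535 : Lb := (@Lb.d (nat_lit 297) (nat_lit 277) (nat_lit 25) (@Lb.r r657 (@Lb.r r666 (@Lb.r r420 (@Lb.r r1559 (@Lb.g g7 (@Lb.g g6 (@Lb.g g5 (@Lb.d (nat_lit 8) (nat_lit 1) (nat_lit 129) (@Lb.t (@Lb.fp (nat_lit 9) t1714)))))))))))
noncomputable def l6536 : Lb := (@Lb.d (nat_lit 100) (nat_lit 292) (nat_lit 130) (@Lb.g g8 (@Lb.g g9 (@Lb.g g10 (@Lb.g g11 (@Lb.r r1699 (@Lb.r r358 (@Lb.r r529 (@Lb.r r2312 (@Lb.d (nat_lit 21) (nat_lit 105) (nat_lit 385) (@Lb.fp (nat_lit 9) t531)))))))))))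
noncomputable def l6537 : Lb := (@Lb.r r82 (@Lb.r r275 (@Lb.d (nat_lit 546) (nat_lit 256) (nat_lit 0) (@Lb.g g8 (@Lb.g g9 (@Lb.r r299 (@Lb.r r106 (@Lb.r r25 (@Lb.d (nat_lit 9) (nat_lit 5) (nat_lit 16) (@Lb.fm (nat_lit 3) t1715))))))))))
noncomputable def l6538 : Lb := (@Lb.d (nat_lit 0) (nat_lit 256) (nat_lit 130) (@Lb.g g10 (@Lb.g g11 (@Lb.r r1602 (@Lb.r r2659 (@Lb.r r101 (@Lb.r r2564 (@Lb.d (nat_lit 517) (nat_lit 68) (nat_lit 293) (@Lb.fm (nat_lit 3) t1716)))))))))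
noncomputable def l6539 : Lb := (@Lb.d (nat_lit 32) (nat_lit 256) (nat_lit 128) (@Lb.g g10 (@Lb.g g11 (@Lb.r r328 (@Lb.r r647 (@Lb.r r2401 (@Lb.r r662 (@Lb.d (nat_lit 389) (nat_lit 37) (nat_lit 26) (@Lb.fm (nat_lit 3) t939)))))))))
noncomputable def l6540 : Lb := (@Lb.d (nat_lit 6) (nat_lit 1) (nat_lit 128) (@Lb.g g8 (@Lb.g g9 (@Lb.g g11 (@Lb.r r548 (@Lb.r r1383 (@Lb.r r2178 (@Lb.r r341 (@Lb.r r1060 (@Lb.d (nat_lit 610) (nat_lit 136) (nat_lit 421) (@Lb.t (@Lb.fp (nat_lit 9) t229))))))))))))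
noncomputable def l6541 : Lb := (@Lb.r r90 (@Lb.d (nat_lit 138) (nat_lit 584) (nat_lit 0) (@Lb.g g8 (@Lb.g g9 (@Lb.r r1367 (@Lb.r r1642 (@Lb.r r2664 (@Lb.d (nat_lit 425) (nat_lit 90) (nat_lit 170) (@Lb.fp (nat_lit 3) t1717)))))))))
noncomputable def l6542 : Lb := (@Lb.d (nat_lit 272) (nat_lit 1) (nat_lit 18) (@Lb.r r101 (@Lb.g g10 (@Lb.d (nat_lit 0) (nat_lit 8) (nat_lit 2) (@Lb.t (@Lb.fm (nat_lit 3) t1202))))))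
noncomputable def l6543 : Lb := (@Lb.d (nat_lit 296) (nat_lit 264) (nat_lit 17) (@Lb.r r597 (@Lb.r r279 (@Lb.r r584 (@Lb.r r326 (@Lb.g g7 (@Lb.g g6 (@Lb.g g5 (@Lb.d (nat_lit 0) (nat_lit 0) (nat_lit 65) (@Lb.t (@Lb.fm (nat_lit 9) t504)))))))))))
noncomputable def l6544 : Lb := (@Lb.r r82 (@Lb.r r275 (@Lb.d (nat_lit 4) (nat_lit 65) (nat_lit 0) (@Lb.g g8 (@Lb.g g5 (@Lb.r r291 (@Lb.r r98 (@Lb.r r24 (@Lb.fm (nat_lit 3) t68)))))))))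
noncomputable def l6545 : Lb := (@Lb.d (nat_lit 146) (nat_lit 2) (nat_lit 4) (@Lb.g g8 (@Lb.g g9 (@Lb.g g10 (@Lb.g g11 (@Lb.r r2731 (@Lb.r r2666 (@Lb.r r1561 (@Lb.r r1540 (@Lb.d (nat_lit 393) (nat_lit 137) (nat_lit 657) (@Lb.fm (nat_lit 9) t199)))))))))))
noncomputable def l6546 : Lb := (@Lb.d (nat_lit 146) (nat_lit 2) (nat_lit 130) (@Lb.g g8 (@Lb.g g9 (@Lb.g g10 (@Lb.g g11 (@Lb.r r2731 (@Lb.r r2666 (@Lb.r r1561 (@Lb.r r1540 (@Lb.d (nat_lit 393) (nat_lit 137) (nat_lit 529) (@Lb.fm (nat_lit 9) t451)))))))))))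
noncomputable def l6547 : Lb := (@Lb.r r82 (@Lb.r r275 (@Lb.d (nat_lit 4) (nat_lit 321) (nat_lit 0) (@Lb.g g8 (@Lb.g g5 (@Lb.r r291 (@Lb.r r98 (@Lb.r r1096 (@Lb.d (nat_lit 546) (nat_lit 128) (nat_lit 34) (@Lb.fm (nat_lit 3) t299))))))))))
noncomputable def l6548 : Lb := (@Lb.r r82 (@Lb.r r275 (@Lb.d (nat_lit 4) (nat_lit 577) (nat_lit 0) (@Lb.g g5 (@Lb.r r291 (@Lb.r r98 (@Lb.r r24 (@Lb.d (nat_lit 5) (nat_lit 1) (nat_lit 0) (@Lb.t (@Lb.fp (nat_lit 3) t68))))))))))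
noncomputable def l6549 : Lb := (@Lb.r r82 (@Lb.d (nat_lit 0) (nat_lit 256) (nat_lit 128) (@Lb.g g9 (@Lb.g g11 (@Lb.r r1319 (@Lb.r r2646 (@Lb.r r1321 (@Lb.r r24 (@Lb.d (nat_lit 160) (nat_lit 69) (nat_lit 400) (@Lb.fm (nat_lit 3) t1718))))))))))
noncomputable def l6550 : Lb := (@Lb.d (nat_lit 544) (nat_lit 330) (nat_lit 1) (@Lb.r r1432 (@Lb.r r1106 (@Lb.r r343 (@Lb.g g6 (@Lb.g g5 (@Lb.g g4 (@Lb.d (nat_lit 0) (nat_lit 33) (nat_lit 1) (@Lb.r r387 (@Lb.t (@Lb.fm (nat_lit 9) t1719)))))))))))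
noncomputable def l6551 : Lb := (@Lb.d (nat_lit 0) (nat_lit 258) (nat_lit 130) (@Lb.g g8 (@Lb.g g9 (@Lb.g g10 (@Lb.g g11 (@Lb.r r2691 (@Lb.r r2329 (@Lb.r r344 (@Lb.r r2630 (@Lb.r r132 (@Lb.d (nat_lit 641) (nat_lit 68) (nat_lit 361) (@Lb.fp (nat_lit 9) t1720))))))))))))
noncomputable def l6552 : Lb := (@Lb.d (nat_lit 8) (nat_lit 258) (nat_lit 128) (@Lb.g g9 (@Lb.g g11 (@Lb.r r134 (@Lb.r r584 (@Lb.r r299 (@Lb.r r409 (@Lb.d (nat_lit 22) (nat_lit 132) (nat_lit 161) (@Lb.fm (nat_lit 3) t1721)))))))))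
noncomputable def l6553 : Lb := (@Lb.d (nat_lit 290) (nat_lit 261) (nat_lit 272) (@Lb.r r24 (@Lb.r r101 (@Lb.r r402 (@Lb.g g7 (@Lb.g g6 (@Lb.fp (nat_lit 3) t1722)))))))
noncomputable def l6554 : Lb := (@Lb.d (nat_lit 9) (nat_lit 1) (nat_lit 130) (@Lb.g g8 (@Lb.g g9 (@Lb.g g10 (@Lb.g g11 (@Lb.r r580 (@Lb.r r1367 (@Lb.r r2218 (@Lb.r r1193 (@Lb.r r1188 (@Lb.d (nat_lit 640) (nat_lit 90) (nat_lit 324) (@Lb.fp (nat_lit 9) t1558))))))))))))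
noncomputable def l6555 : Lb := (@Lb.d (nat_lit 532) (nat_lit 662) (nat_lit 338) (@Lb.r r1697 (@Lb.r r1387 (@Lb.r r264 (@Lb.g g7 (@Lb.g g10 (@Lb.g g5 (@Lb.d (nat_lit 68) (nat_lit 1) (nat_lit 81) (@Lb.r r36 (@Lb.t (@Lb.fm (nat_lit 9) t1723)))))))))))
noncomputable def l6556 : Lb := (@Lb.d (nat_lit 544) (nat_lit 408) (nat_lit 336) (@Lb.r r2308 (@Lb.r r97 (@Lb.r r1291 (@Lb.r r404 (@Lb.g g7 (@Lb.g g10 (@Lb.g g5 (@Lb.g g4 (@Lb.d (nat_lit 1) (nat_lit 1) (nat_lit 81) (@Lb.fp (nat_lit 9) t1724)))))))))))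
noncomputable def l6557 : Lb := (@Lb.g g4 (@Lb.g g5 (@Lb.d (nat_lit 1) (nat_lit 512) (nat_lit 128) (@Lb.fm (nat_lit 3) t2))))
noncomputable def l6558 : Lb := (@Lb.d (nat_lit 408) (nat_lit 2) (nat_lit 104) (@Lb.r r24 (@Lb.r r1125 (@Lb.r r386 (@Lb.r r2387 (@Lb.g g7 (@Lb.g g6 (@Lb.g g5 (@Lb.d (nat_lit 0) (nat_lit 1) (nat_lit 65) (@Lb.t (@Lb.fm (nat_lit 9) t218)))))))))))
noncomputable def l6559 : Lb := (@Lb.d (nat_lit 133) (nat_lit 6) (nat_lit 72) (@Lb.r r24 (@Lb.r r97 (@Lb.r r386 (@Lb.r r343 (@Lb.g g7 (@Lb.g g6 (@Lb.g g5 (@Lb.d (nat_lit 0) (nat_lit 1) (nat_lit 65) (@Lb.t (@Lb.fm (nat_lit 9) t175)))))))))))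
noncomputable def l6560 : Lb := (@Lb.g g5 (@Lb.r r24 (@Lb.r r101 (@Lb.r r402 (@Lb.d (nat_lit 0) (nat_lit 0) (nat_lit 2) (@Lb.t (@Lb.fp (nat_lit 3) t311)))))))
noncomputable def l6561 : Lb := (@Lb.g g5 (@Lb.r r24 (@Lb.r r101 (@Lb.r r402 (@Lb.d (nat_lit 1) (nat_lit 512) (nat_lit 2) (@Lb.t (@Lb.fp (nat_lit 3) t311)))))))
noncomputable def l6562 : Lb := (@Lb.d (nat_lit 2) (nat_lit 97) (nat_lit 8) (@Lb.g g8 (@Lb.g g5 (@Lb.g g10 (@Lb.r r2371 (@Lb.r r2690 (@Lb.r r24 (@Lb.d (nat_lit 10) (nat_lit 0) (nat_lit 533) (@Lb.t (@Lb.fp (nat_lit 9) t40))))))))))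
noncomputable def l6563 : Lb := (@Lb.d (nat_lit 168) (nat_lit 513) (nat_lit 8) (@Lb.g g8 (@Lb.g g9 (@Lb.g g6 (@Lb.r r407 (@Lb.r r2665 (@Lb.r r2644 (@Lb.d (nat_lit 657) (nat_lit 98) (nat_lit 410) (@Lb.t (@Lb.fm (nat_lit 9) t199))))))))))
noncomputable def l6564 : Lb := (@Lb.d (nat_lit 2) (nat_lit 609) (nat_lit 0) (@Lb.g g8 (@Lb.g g5 (@Lb.r r322 (@Lb.r r1667 (@Lb.r r578 (@Lb.r r24 (@Lb.d (nat_lit 10) (nat_lit 0) (nat_lit 2) (@Lb.fp (nat_lit 3) t40)))))))))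
noncomputable def l6565 : Lb := (@Lb.d (nat_lit 2) (nat_lit 353) (nat_lit 0) (@Lb.g g8 (@Lb.g g5 (@Lb.r r322 (@Lb.r r1667 (@Lb.r r578 (@Lb.r r24 (@Lb.d (nat_lit 10) (nat_lit 0) (nat_lit 68) (@Lb.fp (nat_lit 3) t40)))))))))
noncomputable def l6566 : Lb := (@Lb.g g5 (@Lb.r r24 (@Lb.r r101 (@Lb.d (nat_lit 0) (nat_lit 656) (nat_lit 392) (@Lb.t (@Lb.fm (nat_lit 3) t1174))))))
noncomputable def l6567 : Lb := (@Lb.g g5 (@Lb.g g7 (@Lb.r r24 (@Lb.r r101 (@Lb.r r402 (@Lb.d (nat_lit 1) (nat_lit 517) (nat_lit 64) (@Lb.fp (nat_lit 3) t311)))))))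
noncomputable def l6568 : Lb := (@Lb.d (nat_lit 1) (nat_lit 1) (nat_lit 136) (@Lb.r r609 (@Lb.r r619 (@Lb.r r584 (@Lb.r r326 (@Lb.g g7 (@Lb.g g6 (@Lb.g g4 (@Lb.d (nat_lit 1) (nat_lit 0) (nat_lit 65) (@Lb.t (@Lb.fm (nat_lit 9) t74)))))))))))
noncomputable def l6569 : Lb := (@Lb.d (nat_lit 9) (nat_lit 297) (nat_lit 1) (@Lb.g g8 (@Lb.g g9 (@Lb.g g10 (@Lb.r r170 (@Lb.r r1444 (@Lb.r r2331 (@Lb.r r549 (@Lb.d (nat_lit 133) (nat_lit 80) (nat_lit 74) (@Lb.t (@Lb.fm (nat_lit 9) t428)))))))))))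
noncomputable def l6570 : Lb := (@Lb.d (nat_lit 1) (nat_lit 545) (nat_lit 64) (@Lb.r r609 (@Lb.r r619 (@Lb.r r616 (@Lb.r r342 (@Lb.g g7 (@Lb.g g6 (@Lb.g g4 (@Lb.d (nat_lit 2) (nat_lit 0) (nat_lit 65) (@Lb.t (@Lb.fm (nat_lit 9) t74)))))))))))
noncomputable def l6571 : Lb := (@Lb.d (nat_lit 9) (nat_lit 521) (nat_lit 73) (@Lb.g g8 (@Lb.g g9 (@Lb.g g10 (@Lb.g g11 (@Lb.r r1699 (@Lb.r r1193 (@Lb.r r424 (@Lb.r r106 (@Lb.d (nat_lit 421) (nat_lit 0) (nat_lit 602) (@Lb.fm (nat_lit 9) t525)))))))))))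
noncomputable def l6572 : Lb := (@Lb.r r21 (@Lb.d (nat_lit 34) (nat_lit 512) (nat_lit 1) (@Lb.g g8 (@Lb.g g10 (@Lb.r r651 (@Lb.r r1556 (@Lb.r r153 (@Lb.r r602 (@Lb.d (nat_lit 393) (nat_lit 101) (nat_lit 406) (@Lb.fp (nat_lit 3) t428))))))))))
noncomputable def l6573 : Lb := (@Lb.d (nat_lit 0) (nat_lit 258) (nat_lit 130) (@Lb.g g9 (@Lb.g g10 (@Lb.g g11 (@Lb.r r2411 (@Lb.r r386 (@Lb.r r97 (@Lb.d (nat_lit 290) (nat_lit 66) (nat_lit 137) (@Lb.t (@Lb.fm (nat_lit 9) t1231))))))))))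
noncomputable def l6574 : Lb := (@Lb.g g7 (@Lb.r r24 (@Lb.r r101 (@Lb.r r402 (@Lb.d (nat_lit 0) (nat_lit 261) (nat_lit 64) (@Lb.t (@Lb.fp (nat_lit 3) t311)))))))
noncomputable def l6575 : Lb := (@Lb.d (nat_lit 0) (nat_lit 0) (nat_lit 66) (@Lb.g g10 (@Lb.g g11 (@Lb.r r419 (@Lb.r r386 (@Lb.r r101 (@Lb.d (nat_lit 154) (nat_lit 154) (nat_lit 137) (@Lb.fm (nat_lit 3) t1231))))))))
noncomputable def l6576 : Lb := (@Lb.r r82 (@Lb.d (nat_lit 0) (nat_lit 553) (nat_lit 64) (@Lb.g g9 (@Lb.g g11 (@Lb.r r1635 (@Lb.r r2454 (@Lb.r r1636 (@Lb.r r1557 (@Lb.d (nat_lit 392) (nat_lit 80) (nat_lit 645) (@Lb.fm (nat_lit 3) t510))))))))))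
noncomputable def l6577 : Lb := (@Lb.d (nat_lit 0) (nat_lit 512) (nat_lit 66) (@Lb.g g10 (@Lb.g g11 (@Lb.r r419 (@Lb.r r386 (@Lb.r r101 (@Lb.d (nat_lit 154) (nat_lit 154) (nat_lit 9) (@Lb.fm (nat_lit 3) t1725))))))))
noncomputable def l6578 : Lb := (@Lb.d (nat_lit 9) (nat_lit 262) (nat_lit 74) (@Lb.g g8 (@Lb.g g9 (@Lb.g g10 (@Lb.g g11 (@Lb.r r1699 (@Lb.r r596 (@Lb.r r682 (@Lb.r r2217 (@Lb.r r2212 (@Lb.d (nat_lit 582) (nat_lit 96) (nat_lit 586) (@Lb.fm (nat_lit 9) t74))))))))))))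
noncomputable def l6579 : Lb := (@Lb.d (nat_lit 2) (nat_lit 544) (nat_lit 128) (@Lb.g g8 (@Lb.g g11 (@Lb.r r134 (@Lb.r r600 (@Lb.r r293 (@Lb.r r2587 (@Lb.d (nat_lit 328) (nat_lit 98) (nat_lit 276) (@Lb.fm (nat_lit 3) t71)))))))))
noncomputable def l6580 : Lb := (@Lb.d (nat_lit 2) (nat_lit 545) (nat_lit 130) (@Lb.g g8 (@Lb.g g9 (@Lb.g g10 (@Lb.g g11 (@Lb.r r387 (@Lb.r r1188 (@Lb.r r2438 (@Lb.r r2577 (@Lb.d (nat_lit 337) (nat_lit 164) (nat_lit 90) (@Lb.fm (nat_lit 9) t523)))))))))))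
noncomputable def l6581 : Lb := (@Lb.r r21 (@Lb.d (nat_lit 646) (nat_lit 512) (nat_lit 0) (@Lb.g g8 (@Lb.r r25 (@Lb.d (nat_lit 330) (nat_lit 10) (nat_lit 2) (@Lb.t (@Lb.fp (nat_lit 3) t1726)))))))
noncomputable def l6582 : Lb := (@Lb.r r21 (@Lb.d (nat_lit 129) (nat_lit 256) (nat_lit 130) (@Lb.g g8 (@Lb.g g10 (@Lb.g g11 (@Lb.r r419 (@Lb.r r1172 (@Lb.r r2438 (@Lb.r r97 (@Lb.d (nat_lit 361) (nat_lit 33) (nat_lit 74) (@Lb.t (@Lb.fm (nat_lit 9) t523))))))))))))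
noncomputable def l6583 : Lb := (@Lb.d (nat_lit 2) (nat_lit 33) (nat_lit 0) (@Lb.g g8 (@Lb.g g9 (@Lb.r r292 (@Lb.r r1371 (@Lb.r r2178 (@Lb.r r2661 (@Lb.d (nat_lit 165) (nat_lit 89) (nat_lit 325) (@Lb.fm (nat_lit 3) t32)))))))))
noncomputable def l6584 : Lb := (@Lb.r r331 (@Lb.d (nat_lit 37) (nat_lit 514) (nat_lit 2) (@Lb.g g8 (@Lb.g g9 (@Lb.g g10 (@Lb.r r2713 (@Lb.r r1563 (@Lb.r r1684 (@Lb.d (nat_lit 410) (nat_lit 102) (nat_lit 134) (@Lb.t (@Lb.fp (nat_lit 9) t238)))))))))))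
noncomputable def l6585 : Lb := (@Lb.d (nat_lit 2) (nat_lit 9) (nat_lit 72) (@Lb.g g8 (@Lb.g g9 (@Lb.g g10 (@Lb.g g11 (@Lb.r r1559 (@Lb.r r2474 (@Lb.r r97 (@Lb.r r24 (@Lb.d (nat_lit 296) (nat_lit 9) (nat_lit 146) (@Lb.fp (nat_lit 9) t1727)))))))))))
noncomputable def l6586 : Lb := (@Lb.d (nat_lit 2) (nat_lit 33) (nat_lit 0) (@Lb.g g8 (@Lb.g g9 (@Lb.r r292 (@Lb.r r1371 (@Lb.r r2178 (@Lb.r r2661 (@Lb.d (nat_lit 170) (nat_lit 85) (nat_lit 324) (@Lb.fm (nat_lit 3) t64)))))))))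
noncomputable def l6587 : Lb := (@Lb.d (nat_lit 2) (nat_lit 2) (nat_lit 161) (@Lb.g g8 (@Lb.g g9 (@Lb.g g6 (@Lb.g g11 (@Lb.r r579 (@Lb.r r1313 (@Lb.r r24 (@Lb.d (nat_lit 362) (nat_lit 161) (nat_lit 544) (@Lb.fp (nat_lit 9) t317))))))))))
noncomputable def l6588 : Lb := (@Lb.r r21 (@Lb.d (nat_lit 129) (nat_lit 512) (nat_lit 130) (@Lb.g g8 (@Lb.g g10 (@Lb.g g11 (@Lb.r r419 (@Lb.r r1172 (@Lb.r r2438 (@Lb.r r97 (@Lb.d (nat_lit 361) (nat_lit 40) (nat_lit 73) (@Lb.t (@Lb.fm (nat_lit 9) t523))))))))))))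
noncomputable def l6589 : Lb := (@Lb.d (nat_lit 512) (nat_lit 512) (nat_lit 0) (@Lb.r r21 (@Lb.r r70 (@Lb.g g8 (@Lb.d (nat_lit 258) (nat_lit 0) (nat_lit 0) (@Lb.r r74 (@Lb.r r25 (@Lb.t (@Lb.fp (nat_lit 3) t1728)))))))))
noncomputable def l6590 : Lb := (@Lb.d (nat_lit 0) (nat_lit 256) (nat_lit 68) (@Lb.g g7 (@Lb.d (nat_lit 0) (nat_lit 0) (nat_lit 70) (@Lb.t (@Lb.fm (nat_lit 3) t2)))))
noncomputable def l6591 : Lb := (@Lb.r r21 (@Lb.d (nat_lit 66) (nat_lit 0) (nat_lit 74) (@Lb.g g8 (@Lb.g g10 (@Lb.g g11 (@Lb.r r603 (@Lb.r r1377 (@Lb.r r2194 (@Lb.r r104 (@Lb.d (nat_lit 258) (nat_lit 68) (nat_lit 1) (@Lb.t (@Lb.fm (nat_lit 9) t1506))))))))))))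
noncomputable def l6592 : Lb := (@Lb.d (nat_lit 97) (nat_lit 514) (nat_lit 74) (@Lb.g g8 (@Lb.g g9 (@Lb.g g10 (@Lb.g g11 (@Lb.r r599 (@Lb.r r2154 (@Lb.r r1625 (@Lb.r r1604 (@Lb.d (nat_lit 409) (nat_lit 166) (nat_lit 673) (@Lb.fm (nat_lit 9) t394)))))))))))
noncomputable def l6593 : Lb := (@Lb.d (nat_lit 608) (nat_lit 256) (nat_lit 528) (@Lb.fp (nat_lit 1) t698))
noncomputable def l6594 : Lb := (@Lb.d (nat_lit 10) (nat_lit 256) (nat_lit 130) (@Lb.g g8 (@Lb.g g10 (@Lb.g g11 (@Lb.r r2138 (@Lb.r r1685 (@Lb.r r2455 (@Lb.r r1608 (@Lb.d (nat_lit 104) (nat_lit 2) (nat_lit 546) (@Lb.t (@Lb.fp (nat_lit 9) t282)))))))))))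
noncomputable def l6595 : Lb := (@Lb.d (nat_lit 2) (nat_lit 258) (nat_lit 64) (@Lb.g g8 (@Lb.g g9 (@Lb.g g10 (@Lb.g g11 (@Lb.r r2475 (@Lb.r r2154 (@Lb.r r25 (@Lb.d (nat_lit 9) (nat_lit 66) (nat_lit 101) (@Lb.fp (nat_lit 9) t51))))))))))
noncomputable def l6596 : Lb := (@Lb.d (nat_lit 32) (nat_lit 2) (nat_lit 130) (@Lb.g g9 (@Lb.g g10 (@Lb.g g11 (@Lb.r r2709 (@Lb.r r1380 (@Lb.r r2715 (@Lb.r r2634 (@Lb.d (nat_lit 353) (nat_lit 10) (nat_lit 257) (@Lb.t (@Lb.fp (nat_lit 9) t564)))))))))))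
noncomputable def l6597 : Lb := (@Lb.r r70 (@Lb.r r263 (@Lb.d (nat_lit 10) (nat_lit 513) (nat_lit 0) (@Lb.g g8 (@Lb.g g9 (@Lb.r r299 (@Lb.r r106 (@Lb.r r36 (@Lb.r r37 (@Lb.d (nat_lit 5) (nat_lit 5) (nat_lit 1) (@Lb.fp (nat_lit 3) t1599)))))))))))
noncomputable def l6598 : Lb := (@Lb.r r20 (@Lb.r r82 (@Lb.r r275 (@Lb.d (nat_lit 4) (nat_lit 98) (nat_lit 0) (@Lb.g g9 (@Lb.r r1559 (@Lb.r r578 (@Lb.r r2120 (@Lb.d (nat_lit 34) (nat_lit 2) (nat_lit 33) (@Lb.t (@Lb.fp (nat_lit 3) t1729)))))))))))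
noncomputable def l6599 : Lb := (@Lb.r r322 (@Lb.d (nat_lit 9) (nat_lit 288) (nat_lit 128) (@Lb.g g8 (@Lb.g g9 (@Lb.g g11 (@Lb.r r610 (@Lb.r r1561 (@Lb.r r1156 (@Lb.d (nat_lit 393) (nat_lit 22) (nat_lit 88) (@Lb.t (@Lb.fm (nat_lit 9) t230)))))))))))
noncomputable def l6600 : Lb := (@Lb.d (nat_lit 1) (nat_lit 264) (nat_lit 130) (@Lb.g g8 (@Lb.g g9 (@Lb.g g10 (@Lb.g g11 (@Lb.r r586 (@Lb.r r600 (@Lb.r r603 (@Lb.r r401 (@Lb.d (nat_lit 149) (nat_lit 132) (nat_lit 5) (@Lb.fp (nat_lit 9) t1730)))))))))))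
noncomputable def l6601 : Lb := (@Lb.r r21 (@Lb.d (nat_lit 17) (nat_lit 520) (nat_lit 128) (@Lb.g g8 (@Lb.g g10 (@Lb.g g11 (@Lb.r r1703 (@Lb.r r1305 (@Lb.r r404 (@Lb.r r2438 (@Lb.d (nat_lit 617) (nat_lit 8) (nat_lit 612) (@Lb.t (@Lb.fm (nat_lit 9) t220))))))))))))
noncomputable def l6602 : Lb := (@Lb.d (nat_lit 2) (nat_lit 258) (nat_lit 130) (@Lb.g g8 (@Lb.g g9 (@Lb.g g10 (@Lb.g g11 (@Lb.r r2459 (@Lb.r r297 (@Lb.r r1384 (@Lb.r r2630 (@Lb.d (nat_lit 665) (nat_lit 66) (nat_lit 356) (@Lb.fp (nat_lit 9) t91)))))))))))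
noncomputable def l6603 : Lb := (@Lb.r r82 (@Lb.d (nat_lit 34) (nat_lit 258) (nat_lit 136) (@Lb.g g8 (@Lb.g g9 (@Lb.g g11 (@Lb.r r406 (@Lb.r r529 (@Lb.r r340 (@Lb.r r603 (@Lb.d (nat_lit 105) (nat_lit 154) (nat_lit 65) (@Lb.t (@Lb.fm (nat_lit 9) t1436))))))))))))
noncomputable def l6604 : Lb := (@Lb.r r81 (@Lb.d (nat_lit 33) (nat_lit 516) (nat_lit 129) (@Lb.g g8 (@Lb.g g6 (@Lb.g g11 (@Lb.r r1643 (@Lb.r r1640 (@Lb.r r25 (@Lb.d (nat_lit 521) (nat_lit 148) (nat_lit 522) (@Lb.t (@Lb.fp (nat_lit 9) t1731)))))))))))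
noncomputable def l6605 : Lb := (@Lb.r r70 (@Lb.d (nat_lit 10) (nat_lit 257) (nat_lit 128) (@Lb.g g8 (@Lb.g g9 (@Lb.g g11 (@Lb.r r599 (@Lb.r r682 (@Lb.r r612 (@Lb.r r37 (@Lb.d (nat_lit 101) (nat_lit 41) (nat_lit 133) (@Lb.t (@Lb.fp (nat_lit 9) t1599))))))))))))
noncomputable def l6606 : Lb := (@Lb.d (nat_lit 290) (nat_lit 522) (nat_lit 161) (@Lb.r r24 (@Lb.r r1109 (@Lb.r r418 (@Lb.g g11 (@Lb.g g5 (@Lb.d (nat_lit 0) (nat_lit 18) (nat_lit 264) (@Lb.r r578 (@Lb.fp (nat_lit 3) t495)))))))))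
noncomputable def l6607 : Lb := (@Lb.d (nat_lit 17) (nat_lit 10) (nat_lit 645) (@Lb.r r24 (@Lb.r r2587 (@Lb.r r1365 (@Lb.r r2722 (@Lb.g g7 (@Lb.g g6 (@Lb.g g5 (@Lb.d (nat_lit 0) (nat_lit 6) (nat_lit 9) (@Lb.t (@Lb.fm (nat_lit 9) t495)))))))))))
noncomputable def l6608 : Lb := (@Lb.d (nat_lit 134) (nat_lit 272) (nat_lit 2) (@Lb.g g8 (@Lb.g g9 (@Lb.g g10 (@Lb.g g11 (@Lb.r r582 (@Lb.r r388 (@Lb.r r1323 (@Lb.r r673 (@Lb.d (nat_lit 610) (nat_lit 69) (nat_lit 581) (@Lb.fm (nat_lit 9) t381)))))))))))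
noncomputable def l6609 : Lb := (@Lb.r r82 (@Lb.r r275 (@Lb.d (nat_lit 2) (nat_lit 1) (nat_lit 0) (@Lb.g g8 (@Lb.g g5 (@Lb.r r1563 (@Lb.r r146 (@Lb.d (nat_lit 516) (nat_lit 2) (nat_lit 84) (@Lb.fp (nat_lit 3) t1667)))))))))
noncomputable def l6610 : Lb := (@Lb.d (nat_lit 2) (nat_lit 256) (nat_lit 136) (@Lb.g g8 (@Lb.g g11 (@Lb.d (nat_lit 10) (nat_lit 2) (nat_lit 2) (@Lb.fm (nat_lit 3) t2)))))
noncomputable def l6611 : Lb := (@Lb.r r21 (@Lb.r r70 (@Lb.d (nat_lit 388) (nat_lit 256) (nat_lit 256) (@Lb.g g4 (@Lb.g g7 (@Lb.r r101 (@Lb.r r2450 (@Lb.d (nat_lit 8) (nat_lit 128) (nat_lit 66) (@Lb.fm (nat_lit 3) t1732)))))))))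
noncomputable def l6612 : Lb := (@Lb.d (nat_lit 0) (nat_lit 0) (nat_lit 128) (@Lb.g g11 (@Lb.r r326 (@Lb.r r1419 (@Lb.r r24 (@Lb.r r1317 (@Lb.d (nat_lit 5) (nat_lit 106) (nat_lit 86) (@Lb.t (@Lb.fp (nat_lit 3) t760)))))))))
noncomputable def l6613 : Lb := (@Lb.d (nat_lit 8) (nat_lit 260) (nat_lit 128) (@Lb.g g9 (@Lb.g g10 (@Lb.g g11 (@Lb.r r419 (@Lb.r r98 (@Lb.r r24 (@Lb.r r101 (@Lb.d (nat_lit 21) (nat_lit 146) (nat_lit 390) (@Lb.t (@Lb.fm (nat_lit 9) t1733)))))))))))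
noncomputable def l6614 : Lb := (@Lb.d (nat_lit 8) (nat_lit 4) (nat_lit 128) (@Lb.g g9 (@Lb.g g10 (@Lb.g g11 (@Lb.r r419 (@Lb.r r98 (@Lb.r r24 (@Lb.r r101 (@Lb.d (nat_lit 21) (nat_lit 148) (nat_lit 388) (@Lb.t (@Lb.fm (nat_lit 9) t1733)))))))))))
noncomputable def l6615 : Lb := (@Lb.r r323 (@Lb.d (nat_lit 10) (nat_lit 516) (nat_lit 1) (@Lb.g g4 (@Lb.g g9 (@Lb.g g10 (@Lb.r r419 (@Lb.r r98 (@Lb.d (nat_lit 0) (nat_lit 9) (nat_lit 2) (@Lb.t (@Lb.fp (nat_lit 9) t5))))))))))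
noncomputable def l6616 : Lb := (@Lb.d (nat_lit 1) (nat_lit 512) (nat_lit 128) (@Lb.g g8 (@Lb.g g9 (@Lb.g g11 (@Lb.r r150 (@Lb.r r616 (@Lb.r r619 (@Lb.r r609 (@Lb.d (nat_lit 8) (nat_lit 18) (nat_lit 74) (@Lb.t (@Lb.fm (nat_lit 9) t44)))))))))))
noncomputable def l6617 : Lb := (@Lb.d (nat_lit 336) (nat_lit 517) (nat_lit 342) (@Lb.r r2440 (@Lb.r r2630 (@Lb.r r679 (@Lb.r r2585 (@Lb.g g4 (@Lb.d (nat_lit 5) (nat_lit 0) (nat_lit 0) (@Lb.r r74 (@Lb.r r25 (@Lb.t (@Lb.fm (nat_lit 3) t1734)))))))))))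
noncomputable def l6618 : Lb := (@Lb.d (nat_lit 40) (nat_lit 257) (nat_lit 128) (@Lb.g g9 (@Lb.g g10 (@Lb.g g11 (@Lb.r r391 (@Lb.r r584 (@Lb.r r1366 (@Lb.r r145 (@Lb.d (nat_lit 325) (nat_lit 89) (nat_lit 17) (@Lb.t (@Lb.fp (nat_lit 9) t322)))))))))))
noncomputable def l6619 : Lb := (@Lb.d (nat_lit 2) (nat_lit 514) (nat_lit 130) (@Lb.g g8 (@Lb.g g9 (@Lb.g g10 (@Lb.g g11 (@Lb.r r1443 (@Lb.r r2725 (@Lb.r r2406 (@Lb.r r2584 (@Lb.d (nat_lit 361) (nat_lit 102) (nat_lit 346) (@Lb.fp (nat_lit 9) t1385)))))))))))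
noncomputable def l6620 : Lb := (@Lb.d (nat_lit 512) (nat_lit 10) (nat_lit 18) (@Lb.r r24 (@Lb.r r101 (@Lb.r r402 (@Lb.r r1379 (@Lb.g g11 (@Lb.g g6 (@Lb.fm (nat_lit 3) t1735))))))))
noncomputable def l6621 : Lb := (@Lb.d (nat_lit 16) (nat_lit 521) (nat_lit 33) (@Lb.r r24 (@Lb.r r386 (@Lb.r r2651 (@Lb.g g7 (@Lb.g g9 (@Lb.d (nat_lit 8) (nat_lit 33) (nat_lit 64) (@Lb.r r98 (@Lb.fm (nat_lit 3) t1633)))))))))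
noncomputable def l6622 : Lb := (@Lb.r r21 (@Lb.d (nat_lit 128) (nat_lit 0) (nat_lit 73) (@Lb.g g8 (@Lb.g g10 (@Lb.g g11 (@Lb.r r1691 (@Lb.r r409 (@Lb.r r90 (@Lb.r r1348 (@Lb.d (nat_lit 521) (nat_lit 105) (nat_lit 338) (@Lb.t (@Lb.fp (nat_lit 9) t1225))))))))))))
noncomputable def l6623 : Lb := (@Lb.d (nat_lit 96) (nat_lit 9) (nat_lit 4) (@Lb.g g8 (@Lb.g g9 (@Lb.g g10 (@Lb.g g11 (@Lb.r r2723 (@Lb.r r2453 (@Lb.r r356 (@Lb.r r1130 (@Lb.d (nat_lit 421) (nat_lit 86) (nat_lit 614) (@Lb.fm (nat_lit 9) t1736)))))))))))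
noncomputable def l6624 : Lb := (@Lb.r r1416 (@Lb.r r2391 (@Lb.r r81 (@Lb.r r162 (@Lb.r r145 (@Lb.d (nat_lit 0) (nat_lit 88) (nat_lit 594) (@Lb.fp (nat_lit 1) t1737)))))))
noncomputable def l6625 : Lb := (@Lb.d (nat_lit 2) (nat_lit 10) (nat_lit 74) (@Lb.r r402 (@Lb.r r101 (@Lb.g g11 (@Lb.g g8 (@Lb.d (nat_lit 10) (nat_lit 0) (nat_lit 0) (@Lb.fm (nat_lit 3) t35)))))))
noncomputable def l6626 : Lb := (@Lb.d (nat_lit 137) (nat_lit 256) (nat_lit 0) (@Lb.g g8 (@Lb.g g9 (@Lb.r r535 (@Lb.r r418 (@Lb.r r401 (@Lb.r r104 (@Lb.d (nat_lit 38) (nat_lit 33) (nat_lit 136) (@Lb.fp (nat_lit 3) t71)))))))))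
noncomputable def l6627 : Lb := (@Lb.d (nat_lit 10) (nat_lit 36) (nat_lit 10) (@Lb.r r134 (@Lb.r r679 (@Lb.r r344 (@Lb.r r545 (@Lb.g g7 (@Lb.g g5 (@Lb.d (nat_lit 64) (nat_lit 1) (nat_lit 64) (@Lb.fm (nat_lit 3) t524)))))))))
noncomputable def l6628 : Lb := (@Lb.d (nat_lit 137) (nat_lit 0) (nat_lit 0) (@Lb.g g8 (@Lb.g g9 (@Lb.r r535 (@Lb.r r418 (@Lb.r r401 (@Lb.r r104 (@Lb.d (nat_lit 38) (nat_lit 38) (nat_lit 137) (@Lb.fp (nat_lit 3) t71)))))))))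
noncomputable def l6629 : Lb := (@Lb.d (nat_lit 357) (nat_lit 24) (nat_lit 33) (@Lb.r r420 (@Lb.r r97 (@Lb.r r427 (@Lb.r r406 (@Lb.g g7 (@Lb.g g5 (@Lb.g g4 (@Lb.d (nat_lit 17) (nat_lit 1) (nat_lit 128) (@Lb.t (@Lb.fp (nat_lit 9) t326)))))))))))
noncomputable def l6630 : Lb := (@Lb.d (nat_lit 137) (nat_lit 256) (nat_lit 0) (@Lb.g g8 (@Lb.g g9 (@Lb.r r535 (@Lb.r r418 (@Lb.r r401 (@Lb.r r104 (@Lb.d (nat_lit 38) (nat_lit 38) (nat_lit 68) (@Lb.fp (nat_lit 3) t44)))))))))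
noncomputable def l6631 : Lb := (@Lb.r r21 (@Lb.d (nat_lit 130) (nat_lit 256) (nat_lit 130) (@Lb.g g8 (@Lb.g g10 (@Lb.g g11 (@Lb.r r419 (@Lb.r r132 (@Lb.r r2438 (@Lb.r r97 (@Lb.d (nat_lit 361) (nat_lit 26) (nat_lit 420) (@Lb.t (@Lb.fm (nat_lit 9) t1377))))))))))))
noncomputable def l6632 : Lb := (@Lb.r r24 (@Lb.r r101 (@Lb.r r402 (@Lb.d (nat_lit 9) (nat_lit 384) (nat_lit 66) (@Lb.fm (nat_lit 1) t1308)))))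
noncomputable def l6633 : Lb := (@Lb.d (nat_lit 2) (nat_lit 514) (nat_lit 4) (@Lb.g g8 (@Lb.g g9 (@Lb.g g10 (@Lb.g g11 (@Lb.r r427 (@Lb.r r356 (@Lb.r r154 (@Lb.r r21 (@Lb.r r36 (@Lb.d (nat_lit 33) (nat_lit 5) (nat_lit 16) (@Lb.fm (nat_lit 9) t221))))))))))))
noncomputable def l6634 : Lb := (@Lb.d (nat_lit 0) (nat_lit 256) (nat_lit 324) (@Lb.g g10 (@Lb.g g11 (@Lb.r r578 (@Lb.d (nat_lit 0) (nat_lit 0) (nat_lit 161) (@Lb.fm (nat_lit 3) t2))))))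
noncomputable def l6635 : Lb := (@Lb.d (nat_lit 1) (nat_lit 258) (nat_lit 130) (@Lb.g g8 (@Lb.g g9 (@Lb.g g10 (@Lb.g g11 (@Lb.r r1435 (@Lb.r r404 (@Lb.r r2150 (@Lb.r r97 (@Lb.r r1060 (@Lb.d (nat_lit 9) (nat_lit 40) (nat_lit 642) (@Lb.fm (nat_lit 9) t51))))))))))))
noncomputable def l6636 : Lb := (@Lb.d (nat_lit 5) (nat_lit 2) (nat_lit 130) (@Lb.g g8 (@Lb.g g9 (@Lb.g g10 (@Lb.g g11 (@Lb.r r1435 (@Lb.r r2581 (@Lb.r r676 (@Lb.r r1094 (@Lb.r r2180 (@Lb.d (nat_lit 9) (nat_lit 154) (nat_lit 660) (@Lb.fp (nat_lit 9) t51))))))))))))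
noncomputable def l6637 : Lb := (@Lb.d (nat_lit 2) (nat_lit 1) (nat_lit 10) (@Lb.g g8 (@Lb.g g9 (@Lb.g g10 (@Lb.g g11 (@Lb.r r1607 (@Lb.r r1681 (@Lb.r r2404 (@Lb.r r1178 (@Lb.d (nat_lit 168) (nat_lit 74) (nat_lit 101) (@Lb.fp (nat_lit 9) t646)))))))))))
noncomputable def l6638 : Lb := (@Lb.d (nat_lit 8) (nat_lit 513) (nat_lit 130) (@Lb.g g8 (@Lb.g g9 (@Lb.g g10 (@Lb.g g11 (@Lb.r r1435 (@Lb.r r404 (@Lb.r r2150 (@Lb.r r97 (@Lb.r r1060 (@Lb.d (nat_lit 9) (nat_lit 40) (nat_lit 642) (@Lb.fm (nat_lit 9) t51))))))))))))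
noncomputable def l6639 : Lb := (@Lb.d (nat_lit 2) (nat_lit 257) (nat_lit 74) (@Lb.g g8 (@Lb.g g9 (@Lb.g g10 (@Lb.g g11 (@Lb.r r1671 (@Lb.r r1681 (@Lb.r r2404 (@Lb.r r1178 (@Lb.d (nat_lit 161) (nat_lit 72) (nat_lit 84) (@Lb.fp (nat_lit 9) t646)))))))))))
noncomputable def l6640 : Lb := (@Lb.d (nat_lit 610) (nat_lit 646) (nat_lit 678) (@Lb.r r24 (@Lb.r r386 (@Lb.r r2587 (@Lb.r r345 (@Lb.g g7 (@Lb.g g6 (@Lb.g g5 (@Lb.d (nat_lit 0) (nat_lit 1) (nat_lit 129) (@Lb.t (@Lb.fm (nat_lit 9) t379)))))))))))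
noncomputable def l6641 : Lb := (@Lb.d (nat_lit 2) (nat_lit 1) (nat_lit 74) (@Lb.g g8 (@Lb.g g9 (@Lb.g g10 (@Lb.g g11 (@Lb.r r1671 (@Lb.r r1681 (@Lb.r r2404 (@Lb.r r1178 (@Lb.d (nat_lit 166) (nat_lit 73) (nat_lit 84) (@Lb.fp (nat_lit 9) t646)))))))))))
noncomputable def l6642 : Lb := (@Lb.d (nat_lit 32) (nat_lit 256) (nat_lit 130) (@Lb.g g10 (@Lb.g g11 (@Lb.r r423 (@Lb.r r153 (@Lb.r r100 (@Lb.r r410 (@Lb.d (nat_lit 9) (nat_lit 21) (nat_lit 84) (@Lb.fp (nat_lit 3) t221)))))))))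
noncomputable def l6643 : Lb := (@Lb.d (nat_lit 325) (nat_lit 0) (nat_lit 389) (@Lb.r r597 (@Lb.r r2666 (@Lb.r r2376 (@Lb.r r2691 (@Lb.g g7 (@Lb.g g6 (@Lb.g g5 (@Lb.d (nat_lit 4) (nat_lit 1) (nat_lit 134) (@Lb.t (@Lb.fp (nat_lit 9) t221)))))))))))
noncomputable def l6644 : Lb := (@Lb.d (nat_lit 66) (nat_lit 512) (nat_lit 662) (@Lb.r r24 (@Lb.r r101 (@Lb.r r2658 (@Lb.r r2467 (@Lb.g g7 (@Lb.g g6 (@Lb.g g5 (@Lb.d (nat_lit 0) (nat_lit 0) (nat_lit 8) (@Lb.t (@Lb.fp (nat_lit 9) t719)))))))))))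
noncomputable def l6645 : Lb := (@Lb.r r82 (@Lb.d (nat_lit 0) (nat_lit 16) (nat_lit 0) (@Lb.g g9 (@Lb.g g11 (@Lb.r r1431 (@Lb.r r386 (@Lb.r r1109 (@Lb.r r24 (@Lb.d (nat_lit 33) (nat_lit 130) (nat_lit 18) (@Lb.fm (nat_lit 3) t742))))))))))
noncomputable def l6646 : Lb := (@Lb.r r82 (@Lb.d (nat_lit 0) (nat_lit 273) (nat_lit 0) (@Lb.g g9 (@Lb.g g11 (@Lb.r r1427 (@Lb.r r386 (@Lb.r r1113 (@Lb.r r24 (@Lb.d (nat_lit 528) (nat_lit 5) (nat_lit 18) (@Lb.fm (nat_lit 3) t1162))))))))))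
noncomputable def l6647 : Lb := (@Lb.d (nat_lit 0) (nat_lit 0) (nat_lit 132) (@Lb.g g7 (@Lb.r r402 (@Lb.r r101 (@Lb.d (nat_lit 8) (nat_lit 1) (nat_lit 64) (@Lb.t (@Lb.fm (nat_lit 3) t983)))))))
noncomputable def l6648 : Lb := (@Lb.d (nat_lit 0) (nat_lit 264) (nat_lit 130) (@Lb.g g10 (@Lb.g g11 (@Lb.r r387 (@Lb.r r24 (@Lb.r r101 (@Lb.d (nat_lit 26) (nat_lit 128) (nat_lit 100) (@Lb.fm (nat_lit 3) t232))))))))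
noncomputable def l6649 : Lb := (@Lb.d (nat_lit 384) (nat_lit 0) (nat_lit 640) (@Lb.r r24 (@Lb.r r101 (@Lb.r r2642 (@Lb.r r2435 (@Lb.g g7 (@Lb.g g6 (@Lb.d (nat_lit 0) (nat_lit 0) (nat_lit 74) (@Lb.fm (nat_lit 3) t393)))))))))
noncomputable def l6650 : Lb := (@Lb.d (nat_lit 2) (nat_lit 258) (nat_lit 2) (@Lb.g g8 (@Lb.g g9 (@Lb.g g10 (@Lb.g g11 (@Lb.r r1706 (@Lb.r r680 (@Lb.r r555 (@Lb.r r1553 (@Lb.r r2084 (@Lb.d (nat_lit 10) (nat_lit 97) (nat_lit 586) (@Lb.fm (nat_lit 9) t51))))))))))))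
noncomputable def l6651 : Lb := (@Lb.d (nat_lit 0) (nat_lit 256) (nat_lit 10) (@Lb.g g10 (@Lb.d (nat_lit 0) (nat_lit 0) (nat_lit 18) (@Lb.t (@Lb.fp (nat_lit 3) t2)))))
noncomputable def l6652 : Lb := (@Lb.g g10 (@Lb.g g11 (@Lb.r r2626 (@Lb.d (nat_lit 0) (nat_lit 512) (nat_lit 256) (@Lb.fm (nat_lit 3) t2)))))
noncomputable def l6653 : Lb := (@Lb.r r20 (@Lb.d (nat_lit 0) (nat_lit 577) (nat_lit 0) (@Lb.g g9 (@Lb.g g10 (@Lb.r r1699 (@Lb.r r610 (@Lb.d (nat_lit 0) (nat_lit 25) (nat_lit 297) (@Lb.fp (nat_lit 3) t591))))))))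
noncomputable def l6654 : Lb := (@Lb.d (nat_lit 2) (nat_lit 545) (nat_lit 0) (@Lb.g g8 (@Lb.g g9 (@Lb.r r292 (@Lb.r r1371 (@Lb.r r2178 (@Lb.r r2661 (@Lb.d (nat_lit 170) (nat_lit 90) (nat_lit 325) (@Lb.fm (nat_lit 3) t64)))))))))
noncomputable def l6655 : Lb := (@Lb.d (nat_lit 169) (nat_lit 152) (nat_lit 514) (@Lb.r r676 (@Lb.r r150 (@Lb.r r361 (@Lb.g g11 (@Lb.g g5 (@Lb.g g4 (@Lb.d (nat_lit 16) (nat_lit 1) (nat_lit 0) (@Lb.t (@Lb.fm (nat_lit 9) t275))))))))))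
noncomputable def l6656 : Lb := (@Lb.d (nat_lit 2) (nat_lit 514) (nat_lit 64) (@Lb.g g8 (@Lb.g g9 (@Lb.g g11 (@Lb.r r356 (@Lb.r r1307 (@Lb.r r2178 (@Lb.r r533 (@Lb.r r2084 (@Lb.d (nat_lit 146) (nat_lit 129) (nat_lit 328) (@Lb.t (@Lb.fp (nat_lit 9) t229))))))))))))
noncomputable def l6657 : Lb := (@Lb.d (nat_lit 4) (nat_lit 2) (nat_lit 0) (@Lb.g g8 (@Lb.g g9 (@Lb.g g10 (@Lb.r r2731 (@Lb.r r1642 (@Lb.r r1049 (@Lb.d (nat_lit 521) (nat_lit 89) (nat_lit 297) (@Lb.t (@Lb.fp (nat_lit 9) t591))))))))))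
noncomputable def l6658 : Lb := (@Lb.d (nat_lit 152) (nat_lit 513) (nat_lit 74) (@Lb.g g8 (@Lb.g g9 (@Lb.g g10 (@Lb.g g11 (@Lb.r r683 (@Lb.r r2410 (@Lb.r r548 (@Lb.r r37 (@Lb.d (nat_lit 357) (nat_lit 32) (nat_lit 21) (@Lb.fp (nat_lit 9) t283)))))))))))
noncomputable def l6659 : Lb := (@Lb.d (nat_lit 153) (nat_lit 257) (nat_lit 74) (@Lb.g g8 (@Lb.g g9 (@Lb.g g10 (@Lb.g g11 (@Lb.r r683 (@Lb.r r2410 (@Lb.r r548 (@Lb.r r37 (@Lb.d (nat_lit 357) (nat_lit 32) (nat_lit 21) (@Lb.fp (nat_lit 9) t283)))))))))))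
noncomputable def l6660 : Lb := (@Lb.d (nat_lit 40) (nat_lit 9) (nat_lit 129) (@Lb.g g9 (@Lb.g g10 (@Lb.g g11 (@Lb.r r2695 (@Lb.r r1352 (@Lb.r r2390 (@Lb.r r1425 (@Lb.d (nat_lit 133) (nat_lit 66) (nat_lit 330) (@Lb.t (@Lb.fm (nat_lit 9) t1738)))))))))))
noncomputable def l6661 : Lb := (@Lb.d (nat_lit 128) (nat_lit 2) (nat_lit 73) (@Lb.g g8 (@Lb.g g9 (@Lb.g g10 (@Lb.g g11 (@Lb.r r683 (@Lb.r r2410 (@Lb.r r537 (@Lb.r r516 (@Lb.d (nat_lit 130) (nat_lit 90) (nat_lit 21) (@Lb.fm (nat_lit 9) t773)))))))))))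
noncomputable def l6662 : Lb := (@Lb.d (nat_lit 128) (nat_lit 514) (nat_lit 130) (@Lb.g g8 (@Lb.g g9 (@Lb.g g10 (@Lb.g g11 (@Lb.r r683 (@Lb.r r2410 (@Lb.r r537 (@Lb.r r516 (@Lb.d (nat_lit 130) (nat_lit 90) (nat_lit 21) (@Lb.fm (nat_lit 9) t773)))))))))))
noncomputable def l6663 : Lb := (@Lb.d (nat_lit 40) (nat_lit 265) (nat_lit 129) (@Lb.g g9 (@Lb.g g10 (@Lb.g g11 (@Lb.r r2695 (@Lb.r r1352 (@Lb.r r2390 (@Lb.r r1425 (@Lb.d (nat_lit 132) (nat_lit 66) (nat_lit 330) (@Lb.t (@Lb.fm (nat_lit 9) t1738)))))))))))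
noncomputable def l6664 : Lb := (@Lb.d (nat_lit 40) (nat_lit 521) (nat_lit 72) (@Lb.g g9 (@Lb.g g10 (@Lb.g g11 (@Lb.r r2695 (@Lb.r r1352 (@Lb.r r2390 (@Lb.r r1425 (@Lb.d (nat_lit 132) (nat_lit 66) (nat_lit 330) (@Lb.t (@Lb.fm (nat_lit 9) t1738)))))))))))
noncomputable def l6665 : Lb := (@Lb.d (nat_lit 329) (nat_lit 96) (nat_lit 384) (@Lb.r r21 (@Lb.r r104 (@Lb.r r1611 (@Lb.r r1366 (@Lb.g g7 (@Lb.g g6 (@Lb.g g5 (@Lb.d (nat_lit 0) (nat_lit 1) (nat_lit 134) (@Lb.t (@Lb.fp (nat_lit 9) t187)))))))))))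
noncomputable def l6666 : Lb := (@Lb.d (nat_lit 9) (nat_lit 520) (nat_lit 161) (@Lb.g g8 (@Lb.g g9 (@Lb.g g6 (@Lb.g g11 (@Lb.r r2667 (@Lb.r r97 (@Lb.r r2584 (@Lb.d (nat_lit 585) (nat_lit 169) (nat_lit 384) (@Lb.fp (nat_lit 9) t1095))))))))))
noncomputable def l6667 : Lb := (@Lb.d (nat_lit 34) (nat_lit 514) (nat_lit 129) (@Lb.g g8 (@Lb.g g9 (@Lb.g g6 (@Lb.g g11 (@Lb.r r1643 (@Lb.r r97 (@Lb.r r1560 (@Lb.d (nat_lit 73) (nat_lit 105) (nat_lit 640) (@Lb.fp (nat_lit 9) t1739))))))))))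
noncomputable def l6668 : Lb := (@Lb.d (nat_lit 2) (nat_lit 544) (nat_lit 128) (@Lb.g g8 (@Lb.g g11 (@Lb.r r2712 (@Lb.r r293 (@Lb.r r2587 (@Lb.r r2178 (@Lb.d (nat_lit 105) (nat_lit 34) (nat_lit 402) (@Lb.fm (nat_lit 3) t1740)))))))))
noncomputable def l6669 : Lb := (@Lb.d (nat_lit 0) (nat_lit 8) (nat_lit 2) (@Lb.g g10 (@Lb.r r1427 (@Lb.r r101 (@Lb.d (nat_lit 256) (nat_lit 64) (nat_lit 2) (@Lb.t (@Lb.fm (nat_lit 3) t240)))))))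
noncomputable def l6670 : Lb := (@Lb.d (nat_lit 129) (nat_lit 514) (nat_lit 73) (@Lb.g g8 (@Lb.g g9 (@Lb.g g10 (@Lb.g g11 (@Lb.r r419 (@Lb.r r1702 (@Lb.r r344 (@Lb.r r1429 (@Lb.r r1060 (@Lb.d (nat_lit 617) (nat_lit 166) (nat_lit 401) (@Lb.fp (nat_lit 9) t1039))))))))))))
noncomputable def l6671 : Lb := (@Lb.r r21 (@Lb.d (nat_lit 33) (nat_lit 0) (nat_lit 128) (@Lb.g g8 (@Lb.g g11 (@Lb.r r2470 (@Lb.r r2651 (@Lb.r r2648 (@Lb.r r37 (@Lb.d (nat_lit 528) (nat_lit 21) (nat_lit 274) (@Lb.fm (nat_lit 3) t564))))))))))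
noncomputable def l6672 : Lb := (@Lb.d (nat_lit 36) (nat_lit 258) (nat_lit 128) (@Lb.g g8 (@Lb.g g9 (@Lb.g g11 (@Lb.r r2454 (@Lb.r r2667 (@Lb.r r1121 (@Lb.r r1560 (@Lb.d (nat_lit 73) (nat_lit 41) (nat_lit 518) (@Lb.t (@Lb.fm (nat_lit 9) t564)))))))))))
noncomputable def l6673 : Lb := (@Lb.r r21 (@Lb.d (nat_lit 2) (nat_lit 256) (nat_lit 129) (@Lb.g g8 (@Lb.g g10 (@Lb.g g11 (@Lb.r r1610 (@Lb.r r2635 (@Lb.r r2665 (@Lb.r r2632 (@Lb.d (nat_lit 258) (nat_lit 90) (nat_lit 146) (@Lb.t (@Lb.fp (nat_lit 9) t1741))))))))))))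
noncomputable def l6674 : Lb := (@Lb.r r82 (@Lb.r r275 (@Lb.d (nat_lit 2) (nat_lit 1) (nat_lit 0) (@Lb.g g8 (@Lb.g g5 (@Lb.r r2651 (@Lb.r r386 (@Lb.r r24 (@Lb.d (nat_lit 264) (nat_lit 0) (nat_lit 2) (@Lb.fm (nat_lit 3) t1061))))))))))
noncomputable def l6675 : Lb := (@Lb.d (nat_lit 2) (nat_lit 2) (nat_lit 66) (@Lb.g g8 (@Lb.g g9 (@Lb.g g10 (@Lb.g g7 (@Lb.r r386 (@Lb.r r97 (@Lb.r r24 (@Lb.d (nat_lit 328) (nat_lit 9) (nat_lit 521) (@Lb.fp (nat_lit 9) t1150))))))))))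
noncomputable def l6676 : Lb := (@Lb.r r277 (@Lb.d (nat_lit 517) (nat_lit 8) (nat_lit 130) (@Lb.g g8 (@Lb.g g10 (@Lb.g g11 (@Lb.r r1411 (@Lb.r r101 (@Lb.r r1434 (@Lb.d (nat_lit 20) (nat_lit 85) (nat_lit 393) (@Lb.t (@Lb.fm (nat_lit 9) t1039)))))))))))
noncomputable def l6677 : Lb := (@Lb.r r277 (@Lb.d (nat_lit 517) (nat_lit 0) (nat_lit 66) (@Lb.g g8 (@Lb.g g10 (@Lb.g g11 (@Lb.r r594 (@Lb.r r409 (@Lb.r r1319 (@Lb.d (nat_lit 676) (nat_lit 161) (nat_lit 586) (@Lb.t (@Lb.fm (nat_lit 9) t1039)))))))))))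
noncomputable def l6678 : Lb := (@Lb.d (nat_lit 33) (nat_lit 518) (nat_lit 74) (@Lb.g g8 (@Lb.g g9 (@Lb.g g10 (@Lb.g g11 (@Lb.r r1435 (@Lb.r r2201 (@Lb.r r1618 (@Lb.r r2180 (@Lb.d (nat_lit 537) (nat_lit 101) (nat_lit 72) (@Lb.fp (nat_lit 9) t86)))))))))))
noncomputable def l6679 : Lb := (@Lb.d (nat_lit 132) (nat_lit 514) (nat_lit 66) (@Lb.g g8 (@Lb.g g9 (@Lb.g g10 (@Lb.g g11 (@Lb.r r618 (@Lb.r r612 (@Lb.r r1319 (@Lb.r r405 (@Lb.r r36 (@Lb.d (nat_lit 105) (nat_lit 137) (nat_lit 409) (@Lb.fp (nat_lit 9) t1039))))))))))))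
noncomputable def l6680 : Lb := (@Lb.r r21 (@Lb.r r70 (@Lb.d (nat_lit 0) (nat_lit 0) (nat_lit 128) (@Lb.g g8 (@Lb.g g11 (@Lb.r r583 (@Lb.r r650 (@Lb.r r601 (@Lb.r r580 (@Lb.d (nat_lit 2) (nat_lit 0) (nat_lit 132) (@Lb.fm (nat_lit 3) t321)))))))))))
noncomputable def l6681 : Lb := (@Lb.d (nat_lit 8) (nat_lit 514) (nat_lit 130) (@Lb.g g9 (@Lb.g g10 (@Lb.g g11 (@Lb.r r586 (@Lb.r r584 (@Lb.r r299 (@Lb.r r289 (@Lb.d (nat_lit 9) (nat_lit 8) (nat_lit 90) (@Lb.t (@Lb.fm (nat_lit 9) t333)))))))))))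
noncomputable def l6682 : Lb := (@Lb.d (nat_lit 134) (nat_lit 528) (nat_lit 2) (@Lb.g g8 (@Lb.g g9 (@Lb.g g10 (@Lb.g g11 (@Lb.r r610 (@Lb.r r552 (@Lb.r r2635 (@Lb.r r2337 (@Lb.r r1060 (@Lb.d (nat_lit 617) (nat_lit 40) (nat_lit 136) (@Lb.fm (nat_lit 9) t5))))))))))))
noncomputable def l6683 : Lb := (@Lb.d (nat_lit 2) (nat_lit 257) (nat_lit 0) (@Lb.g g8 (@Lb.g g9 (@Lb.g g10 (@Lb.g g11 (@Lb.r r675 (@Lb.r r1681 (@Lb.r r2404 (@Lb.r r1178 (@Lb.d (nat_lit 681) (nat_lit 137) (nat_lit 84) (@Lb.fp (nat_lit 9) t66)))))))))))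
noncomputable def l6684 : Lb := (@Lb.d (nat_lit 2) (nat_lit 6) (nat_lit 1) (@Lb.g g8 (@Lb.g g9 (@Lb.g g10 (@Lb.g g11 (@Lb.r r675 (@Lb.r r1681 (@Lb.r r2404 (@Lb.r r1178 (@Lb.d (nat_lit 681) (nat_lit 137) (nat_lit 84) (@Lb.fp (nat_lit 9) t602)))))))))))
noncomputable def l6685 : Lb := (@Lb.r r21 (@Lb.r r70 (@Lb.d (nat_lit 2) (nat_lit 0) (nat_lit 0) (@Lb.g g8 (@Lb.g g11 (@Lb.r r1626 (@Lb.r r1556 (@Lb.r r25 (@Lb.d (nat_lit 584) (nat_lit 98) (nat_lit 640) (@Lb.fm (nat_lit 3) t1742))))))))))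
noncomputable def l6686 : Lb := (@Lb.r r275 (@Lb.d (nat_lit 2) (nat_lit 258) (nat_lit 2) (@Lb.g g8 (@Lb.g g9 (@Lb.g g10 (@Lb.r r2603 (@Lb.r r386 (@Lb.r r609 (@Lb.r r24 (@Lb.d (nat_lit 264) (nat_lit 25) (nat_lit 137) (@Lb.t (@Lb.fm (nat_lit 9) t1468))))))))))))
noncomputable def l6687 : Lb := (@Lb.d (nat_lit 2) (nat_lit 262) (nat_lit 136) (@Lb.g g8 (@Lb.g g9 (@Lb.g g10 (@Lb.g g11 (@Lb.r r675 (@Lb.r r1681 (@Lb.r r2404 (@Lb.r r1178 (@Lb.d (nat_lit 681) (nat_lit 137) (nat_lit 84) (@Lb.fp (nat_lit 9) t602)))))))))))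
noncomputable def l6688 : Lb := (@Lb.r r263 (@Lb.d (nat_lit 5) (nat_lit 2) (nat_lit 2) (@Lb.g g8 (@Lb.g g9 (@Lb.g g10 (@Lb.r r2713 (@Lb.r r343 (@Lb.r r2698 (@Lb.r r2696 (@Lb.d (nat_lit 617) (nat_lit 2) (nat_lit 660) (@Lb.t (@Lb.fm (nat_lit 9) t5))))))))))))
noncomputable def l6689 : Lb := (@Lb.d (nat_lit 6) (nat_lit 256) (nat_lit 130) (@Lb.g g8 (@Lb.g g9 (@Lb.g g10 (@Lb.g g11 (@Lb.r r2411 (@Lb.r r386 (@Lb.r r104 (@Lb.r r25 (@Lb.d (nat_lit 512) (nat_lit 10) (nat_lit 70) (@Lb.fp (nat_lit 9) t61)))))))))))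
noncomputable def l6690 : Lb := (@Lb.d (nat_lit 2) (nat_lit 2) (nat_lit 2) (@Lb.g g8 (@Lb.g g9 (@Lb.g g10 (@Lb.g g11 (@Lb.r r427 (@Lb.r r388 (@Lb.r r70 (@Lb.r r153 (@Lb.r r132 (@Lb.d (nat_lit 9) (nat_lit 73) (nat_lit 153) (@Lb.fp (nat_lit 9) t1022))))))))))))
noncomputable def l6691 : Lb := (@Lb.g g11 (@Lb.r r97 (@Lb.r r2130 (@Lb.r r145 (@Lb.t (@Lb.p (nat_lit 1) (@Lb.fm (nat_lit 3) t980)))))))
noncomputable def l6692 : Lb := (@Lb.d (nat_lit 165) (nat_lit 341) (nat_lit 577) (@Lb.r r2584 (@Lb.r r2178 (@Lb.r r2587 (@Lb.g g7 (@Lb.g g9 (@Lb.g g4 (@Lb.d (nat_lit 5) (nat_lit 68) (nat_lit 64) (@Lb.t (@Lb.fp (nat_lit 9) t1743))))))))))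
noncomputable def l6693 : Lb := (@Lb.d (nat_lit 33) (nat_lit 260) (nat_lit 130) (@Lb.g g8 (@Lb.g g9 (@Lb.g g6 (@Lb.g g11 (@Lb.r r612 (@Lb.r r263 (@Lb.r r97 (@Lb.r r516 (@Lb.d (nat_lit 1) (nat_lit 34) (nat_lit 129) (@Lb.fp (nat_lit 9) t594)))))))))))
noncomputable def l6694 : Lb := (@Lb.d (nat_lit 518) (nat_lit 518) (nat_lit 65) (@Lb.r r1297 (@Lb.r r2659 (@Lb.r r593 (@Lb.r r326 (@Lb.g g7 (@Lb.g g6 (@Lb.g g5 (@Lb.g g4 (@Lb.d (nat_lit 2) (nat_lit 0) (nat_lit 65) (@Lb.fm (nat_lit 9) t1744)))))))))))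
noncomputable def l6695 : Lb := (@Lb.d (nat_lit 2) (nat_lit 514) (nat_lit 2) (@Lb.g g8 (@Lb.g g9 (@Lb.g g10 (@Lb.g g11 (@Lb.r r2722 (@Lb.r r2467 (@Lb.r r292 (@Lb.r r405 (@Lb.r r2084 (@Lb.d (nat_lit 657) (nat_lit 10) (nat_lit 361) (@Lb.fm (nat_lit 9) t1745))))))))))))
noncomputable def l6696 : Lb := (@Lb.d (nat_lit 0) (nat_lit 2) (nat_lit 4) (@Lb.g g9 (@Lb.g g10 (@Lb.g g11 (@Lb.r r2722 (@Lb.r r2713 (@Lb.r r2587 (@Lb.r r24 (@Lb.d (nat_lit 34) (nat_lit 5) (nat_lit 330) (@Lb.t (@Lb.fp (nat_lit 9) t1087)))))))))))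
noncomputable def l6697 : Lb := (@Lb.r r97 (@Lb.r r2130 (@Lb.r r145 (@Lb.d (nat_lit 0) (nat_lit 517) (nat_lit 1) (@Lb.fm (nat_lit 1) t1746)))))
noncomputable def l6698 : Lb := (@Lb.r r97 (@Lb.r r2130 (@Lb.r r145 (@Lb.fm (nat_lit 1) t980))))
noncomputable def l6699 : Lb := (@Lb.d (nat_lit 0) (nat_lit 10) (nat_lit 132) (@Lb.g g9 (@Lb.g g7 (@Lb.r r594 (@Lb.r r677 (@Lb.d (nat_lit 70) (nat_lit 32) (nat_lit 69) (@Lb.fm (nat_lit 3) t424)))))))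
noncomputable def l6700 : Lb := (@Lb.d (nat_lit 9) (nat_lit 257) (nat_lit 162) (@Lb.g g8 (@Lb.g g9 (@Lb.g g6 (@Lb.g g11 (@Lb.r r612 (@Lb.r r2311 (@Lb.r r97 (@Lb.r r1540 (@Lb.d (nat_lit 274) (nat_lit 100) (nat_lit 672) (@Lb.fp (nat_lit 9) t296)))))))))))
noncomputable def l6701 : Lb := (@Lb.d (nat_lit 294) (nat_lit 326) (nat_lit 408) (@Lb.r r2194 (@Lb.r r1381 (@Lb.r r2707 (@Lb.g g7 (@Lb.g g6 (@Lb.g g8 (@Lb.d (nat_lit 10) (nat_lit 0) (nat_lit 133) (@Lb.t (@Lb.fp (nat_lit 9) t1747))))))))))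
noncomputable def l6702 : Lb := (@Lb.r r323 (@Lb.d (nat_lit 34) (nat_lit 2) (nat_lit 2) (@Lb.g g8 (@Lb.g g9 (@Lb.g g10 (@Lb.r r1689 (@Lb.r r1563 (@Lb.r r1560 (@Lb.d (nat_lit 64) (nat_lit 96) (nat_lit 657) (@Lb.t (@Lb.fm (nat_lit 9) t1748)))))))))))
noncomputable def l6703 : Lb := (@Lb.d (nat_lit 9) (nat_lit 264) (nat_lit 130) (@Lb.g g8 (@Lb.g g9 (@Lb.g g10 (@Lb.g g11 (@Lb.r r1362 (@Lb.r r2715 (@Lb.r r2712 (@Lb.r r2133 (@Lb.d (nat_lit 520) (nat_lit 105) (nat_lit 657) (@Lb.fp (nat_lit 9) t1038)))))))))))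
noncomputable def l6704 : Lb := (@Lb.d (nat_lit 9) (nat_lit 513) (nat_lit 162) (@Lb.g g8 (@Lb.g g9 (@Lb.g g6 (@Lb.g g11 (@Lb.r r612 (@Lb.r r2311 (@Lb.r r97 (@Lb.r r1540 (@Lb.d (nat_lit 272) (nat_lit 105) (nat_lit 673) (@Lb.fp (nat_lit 9) t296)))))))))))
noncomputable def l6705 : Lb := (@Lb.d (nat_lit 9) (nat_lit 1) (nat_lit 162) (@Lb.g g8 (@Lb.g g9 (@Lb.g g6 (@Lb.g g11 (@Lb.r r612 (@Lb.r r2311 (@Lb.r r97 (@Lb.r r1540 (@Lb.d (nat_lit 272) (nat_lit 100) (nat_lit 672) (@Lb.fp (nat_lit 9) t296)))))))))))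
noncomputable def l6706 : Lb := (@Lb.d (nat_lit 0) (nat_lit 264) (nat_lit 130) (@Lb.g g10 (@Lb.g g11 (@Lb.r r353 (@Lb.r r663 (@Lb.r r356 (@Lb.r r154 (@Lb.d (nat_lit 25) (nat_lit 9) (nat_lit 1) (@Lb.fp (nat_lit 3) t2)))))))))
noncomputable def l6707 : Lb := (@Lb.r r275 (@Lb.d (nat_lit 2) (nat_lit 641) (nat_lit 0) (@Lb.g g8 (@Lb.g g5 (@Lb.r r2315 (@Lb.d (nat_lit 516) (nat_lit 6) (nat_lit 1) (@Lb.fp (nat_lit 3) t1749)))))))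
noncomputable def l6708 : Lb := (@Lb.r r82 (@Lb.d (nat_lit 0) (nat_lit 256) (nat_lit 128) (@Lb.g g9 (@Lb.g g11 (@Lb.r r1319 (@Lb.r r578 (@Lb.r r361 (@Lb.r r1156 (@Lb.d (nat_lit 98) (nat_lit 70) (nat_lit 528) (@Lb.fp (nat_lit 3) t1750))))))))))
noncomputable def l6709 : Lb := (@Lb.r r275 (@Lb.d (nat_lit 2) (nat_lit 258) (nat_lit 0) (@Lb.g g8 (@Lb.g g9 (@Lb.g g10 (@Lb.r r2475 (@Lb.r r2201 (@Lb.d (nat_lit 281) (nat_lit 10) (nat_lit 17) (@Lb.t (@Lb.fm (nat_lit 9) t235))))))))))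
noncomputable def l6710 : Lb := (@Lb.d (nat_lit 16) (nat_lit 10) (nat_lit 41) (@Lb.r r2120 (@Lb.r r89 (@Lb.r r579 (@Lb.g g10 (@Lb.d (nat_lit 0) (nat_lit 0) (nat_lit 2) (@Lb.r r387 (@Lb.t (@Lb.fp (nat_lit 3) t1751)))))))))
noncomputable def l6711 : Lb := (@Lb.r r275 (@Lb.d (nat_lit 2) (nat_lit 385) (nat_lit 2) (@Lb.g g8 (@Lb.g g5 (@Lb.g g10 (@Lb.r r2315 (@Lb.r r146 (@Lb.d (nat_lit 516) (nat_lit 9) (nat_lit 1) (@Lb.t (@Lb.fm (nat_lit 9) t1752))))))))))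
noncomputable def l6712 : Lb := (@Lb.d (nat_lit 38) (nat_lit 4) (nat_lit 128) (@Lb.g g8 (@Lb.g g9 (@Lb.g g10 (@Lb.g g11 (@Lb.r r610 (@Lb.r r1640 (@Lb.r r2411 (@Lb.r r2401 (@Lb.d (nat_lit 41) (nat_lit 34) (nat_lit 70) (@Lb.fp (nat_lit 9) t1753)))))))))))
noncomputable def l6713 : Lb := (@Lb.d (nat_lit 1) (nat_lit 256) (nat_lit 128) (@Lb.g g8 (@Lb.g g10 (@Lb.g g11 (@Lb.r r337 (@Lb.r r683 (@Lb.r r680 (@Lb.r r170 (@Lb.r r153 (@Lb.d (nat_lit 530) (nat_lit 10) (nat_lit 84) (@Lb.t (@Lb.fp (nat_lit 9) t516))))))))))))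
noncomputable def l6714 : Lb := (@Lb.r r323 (@Lb.d (nat_lit 9) (nat_lit 264) (nat_lit 2) (@Lb.g g8 (@Lb.g g9 (@Lb.g g10 (@Lb.r r683 (@Lb.r r170 (@Lb.r r1177 (@Lb.r r1156 (@Lb.d (nat_lit 297) (nat_lit 65) (nat_lit 68) (@Lb.t (@Lb.fm (nat_lit 9) t1754))))))))))))
noncomputable def l6715 : Lb := (@Lb.d (nat_lit 154) (nat_lit 520) (nat_lit 73) (@Lb.g g8 (@Lb.g g9 (@Lb.g g10 (@Lb.g g11 (@Lb.r r1706 (@Lb.r r1411 (@Lb.r r2201 (@Lb.r r2180 (@Lb.d (nat_lit 553) (nat_lit 153) (nat_lit 100) (@Lb.fm (nat_lit 9) t1755)))))))))))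
noncomputable def l6716 : Lb := (@Lb.d (nat_lit 274) (nat_lit 38) (nat_lit 425) (@Lb.r r410 (@Lb.r r148 (@Lb.r r667 (@Lb.g g7 (@Lb.g g6 (@Lb.g g9 (@Lb.d (nat_lit 20) (nat_lit 154) (nat_lit 128) (@Lb.t (@Lb.fm (nat_lit 9) t1756))))))))))
noncomputable def l6717 : Lb := (@Lb.d (nat_lit 130) (nat_lit 34) (nat_lit 0) (@Lb.g g8 (@Lb.g g9 (@Lb.r r2707 (@Lb.r r2178 (@Lb.r r341 (@Lb.r r2084 (@Lb.d (nat_lit 345) (nat_lit 66) (nat_lit 169) (@Lb.fm (nat_lit 3) t88)))))))))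
noncomputable def l6718 : Lb := (@Lb.r r81 (@Lb.d (nat_lit 33) (nat_lit 516) (nat_lit 129) (@Lb.g g8 (@Lb.g g6 (@Lb.g g11 (@Lb.r r529 (@Lb.r r407 (@Lb.r r612 (@Lb.d (nat_lit 404) (nat_lit 20) (nat_lit 170) (@Lb.t (@Lb.fp (nat_lit 9) t1757)))))))))))
noncomputable def l6719 : Lb := (@Lb.r r101 (@Lb.r r24 (@Lb.d (nat_lit 584) (nat_lit 258) (nat_lit 592) (@Lb.fp (nat_lit 1) t1150))))
noncomputable def l6720 : Lb := (@Lb.d (nat_lit 0) (nat_lit 0) (nat_lit 132) (@Lb.g g7 (@Lb.r r101 (@Lb.r r24 (@Lb.d (nat_lit 17) (nat_lit 0) (nat_lit 70) (@Lb.t (@Lb.fm (nat_lit 3) t40)))))))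
noncomputable def l6721 : Lb := (@Lb.d (nat_lit 1) (nat_lit 512) (nat_lit 128) (@Lb.g g8 (@Lb.g g9 (@Lb.g g11 (@Lb.r r138 (@Lb.r r388 (@Lb.r r299 (@Lb.r r289 (@Lb.d (nat_lit 8) (nat_lit 70) (nat_lit 129) (@Lb.t (@Lb.fm (nat_lit 9) t119)))))))))))
noncomputable def l6722 : Lb := (@Lb.r r82 (@Lb.r r275 (@Lb.d (nat_lit 34) (nat_lit 520) (nat_lit 0) (@Lb.g g8 (@Lb.g g9 (@Lb.r r427 (@Lb.r r582 (@Lb.r r408 (@Lb.d (nat_lit 146) (nat_lit 89) (nat_lit 16) (@Lb.fp (nat_lit 3) t1492))))))))))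
noncomputable def l6723 : Lb := (@Lb.r r101 (@Lb.r r24 (@Lb.d (nat_lit 577) (nat_lit 0) (nat_lit 592) (@Lb.fp (nat_lit 1) t1150))))
noncomputable def l6724 : Lb := (@Lb.d (nat_lit 134) (nat_lit 529) (nat_lit 2) (@Lb.g g8 (@Lb.g g9 (@Lb.g g10 (@Lb.g g11 (@Lb.r r1667 (@Lb.r r609 (@Lb.r r666 (@Lb.r r1176 (@Lb.d (nat_lit 20) (nat_lit 169) (nat_lit 98) (@Lb.fp (nat_lit 9) t1758)))))))))))
noncomputable def l6725 : Lb := (@Lb.d (nat_lit 0) (nat_lit 288) (nat_lit 128) (@Lb.g g11 (@Lb.r r1114 (@Lb.r r2453 (@Lb.r r1315 (@Lb.r r1096 (@Lb.d (nat_lit 513) (nat_lit 2) (nat_lit 0) (@Lb.t (@Lb.fm (nat_lit 3) t807)))))))))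
noncomputable def l6726 : Lb := (@Lb.d (nat_lit 101) (nat_lit 40) (nat_lit 601) (@Lb.r r2597 (@Lb.r r2471 (@Lb.r r612 (@Lb.r r346 (@Lb.g g7 (@Lb.g g6 (@Lb.g g5 (@Lb.d (nat_lit 4) (nat_lit 1) (nat_lit 65) (@Lb.t (@Lb.fm (nat_lit 9) t1758)))))))))))
noncomputable def l6727 : Lb := (@Lb.d (nat_lit 4) (nat_lit 256) (nat_lit 2) (@Lb.g g8 (@Lb.g g9 (@Lb.g g10 (@Lb.g g11 (@Lb.r r2691 (@Lb.r r297 (@Lb.r r360 (@Lb.r r582 (@Lb.r r2180 (@Lb.d (nat_lit 641) (nat_lit 10) (nat_lit 329) (@Lb.fm (nat_lit 9) t242))))))))))))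
noncomputable def l6728 : Lb := (@Lb.d (nat_lit 554) (nat_lit 73) (nat_lit 409) (@Lb.r r2597 (@Lb.r r2471 (@Lb.r r612 (@Lb.r r346 (@Lb.g g7 (@Lb.g g6 (@Lb.g g5 (@Lb.d (nat_lit 8) (nat_lit 2) (nat_lit 65) (@Lb.t (@Lb.fm (nat_lit 9) t552)))))))))))
noncomputable def l6729 : Lb := (@Lb.r r2403 (@Lb.r r101 (@Lb.r r24 (@Lb.d (nat_lit 513) (nat_lit 0) (nat_lit 80) (@Lb.fp (nat_lit 1) t1172)))))
noncomputable def l6730 : Lb := (@Lb.d (nat_lit 390) (nat_lit 150) (nat_lit 594) (@Lb.r r2325 (@Lb.r r2390 (@Lb.r r2731 (@Lb.g g6 (@Lb.g g5 (@Lb.g g4 (@Lb.d (nat_lit 1) (nat_lit 5) (nat_lit 2) (@Lb.t (@Lb.fm (nat_lit 9) t578))))))))))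
noncomputable def l6731 : Lb := (@Lb.d (nat_lit 2) (nat_lit 265) (nat_lit 4) (@Lb.g g8 (@Lb.g g9 (@Lb.g g10 (@Lb.g g11 (@Lb.r r2466 (@Lb.r r548 (@Lb.r r661 (@Lb.r r535 (@Lb.r r2084 (@Lb.d (nat_lit 648) (nat_lit 9) (nat_lit 329) (@Lb.fp (nat_lit 9) t1192))))))))))))
noncomputable def l6732 : Lb := (@Lb.d (nat_lit 129) (nat_lit 514) (nat_lit 130) (@Lb.g g8 (@Lb.g g9 (@Lb.g g10 (@Lb.g g11 (@Lb.r r599 (@Lb.r r1706 (@Lb.r r1625 (@Lb.r r1604 (@Lb.d (nat_lit 402) (nat_lit 10) (nat_lit 290) (@Lb.fp (nat_lit 9) t394)))))))))))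
noncomputable def l6733 : Lb := (@Lb.d (nat_lit 0) (nat_lit 514) (nat_lit 130) (@Lb.g g9 (@Lb.g g10 (@Lb.g g11 (@Lb.r r539 (@Lb.r r342 (@Lb.r r97 (@Lb.r r616 (@Lb.d (nat_lit 514) (nat_lit 66) (nat_lit 84) (@Lb.t (@Lb.fp (nat_lit 9) t1759)))))))))))
noncomputable def l6734 : Lb := (@Lb.r r21 (@Lb.r r322 (@Lb.d (nat_lit 128) (nat_lit 288) (nat_lit 128) (@Lb.g g8 (@Lb.g g11 (@Lb.r r2410 (@Lb.r r2341 (@Lb.r r1576 (@Lb.d (nat_lit 580) (nat_lit 81) (nat_lit 384) (@Lb.fm (nat_lit 3) t1760))))))))))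
noncomputable def l6735 : Lb := (@Lb.d (nat_lit 129) (nat_lit 513) (nat_lit 130) (@Lb.g g8 (@Lb.g g9 (@Lb.g g10 (@Lb.g g11 (@Lb.r r610 (@Lb.r r552 (@Lb.r r1641 (@Lb.r r619 (@Lb.r r1060 (@Lb.d (nat_lit 358) (nat_lit 22) (nat_lit 408) (@Lb.fm (nat_lit 9) t524))))))))))))
noncomputable def l6736 : Lb := (@Lb.r r323 (@Lb.d (nat_lit 2) (nat_lit 521) (nat_lit 10) (@Lb.g g8 (@Lb.g g9 (@Lb.g g10 (@Lb.r r2347 (@Lb.r r1449 (@Lb.r r2466 (@Lb.d (nat_lit 290) (nat_lit 168) (nat_lit 537) (@Lb.t (@Lb.fm (nat_lit 9) t1761)))))))))))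
noncomputable def l6737 : Lb := (@Lb.r r21 (@Lb.d (nat_lit 33) (nat_lit 8) (nat_lit 161) (@Lb.g g8 (@Lb.g g6 (@Lb.g g11 (@Lb.r r2651 (@Lb.r r2453 (@Lb.r r1608 (@Lb.d (nat_lit 401) (nat_lit 102) (nat_lit 280) (@Lb.t (@Lb.fp (nat_lit 9) t1762)))))))))))
noncomputable def l6738 : Lb := (@Lb.r r21 (@Lb.d (nat_lit 128) (nat_lit 0) (nat_lit 73) (@Lb.g g8 (@Lb.g g10 (@Lb.g g11 (@Lb.r r1691 (@Lb.r r2209 (@Lb.r r2658 (@Lb.r r1348 (@Lb.d (nat_lit 329) (nat_lit 36) (nat_lit 73) (@Lb.t (@Lb.fm (nat_lit 9) t1763))))))))))))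
noncomputable def l6739 : Lb := (@Lb.r r323 (@Lb.d (nat_lit 2) (nat_lit 9) (nat_lit 10) (@Lb.g g8 (@Lb.g g9 (@Lb.g g10 (@Lb.r r2347 (@Lb.r r1449 (@Lb.r r2466 (@Lb.d (nat_lit 289) (nat_lit 168) (nat_lit 537) (@Lb.t (@Lb.fm (nat_lit 9) t1761)))))))))))
noncomputable def l6740 : Lb := (@Lb.r r323 (@Lb.d (nat_lit 9) (nat_lit 8) (nat_lit 10) (@Lb.g g8 (@Lb.g g9 (@Lb.g g10 (@Lb.r r1319 (@Lb.r r2644 (@Lb.r r1706 (@Lb.r r1617 (@Lb.d (nat_lit 296) (nat_lit 97) (nat_lit 612) (@Lb.t (@Lb.fp (nat_lit 9) t1499))))))))))))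
noncomputable def l6741 : Lb := (@Lb.d (nat_lit 146) (nat_lit 2) (nat_lit 128) (@Lb.g g8 (@Lb.g g9 (@Lb.g g10 (@Lb.g g11 (@Lb.r r1706 (@Lb.r r1411 (@Lb.r r2201 (@Lb.r r2180 (@Lb.d (nat_lit 548) (nat_lit 152) (nat_lit 169) (@Lb.fm (nat_lit 9) t531)))))))))))
noncomputable def l6742 : Lb := (@Lb.d (nat_lit 1) (nat_lit 400) (nat_lit 353) (@Lb.r r2308 (@Lb.r r2178 (@Lb.r r1291 (@Lb.r r292 (@Lb.g g7 (@Lb.g g9 (@Lb.g g4 (@Lb.d (nat_lit 1) (nat_lit 70) (nat_lit 64) (@Lb.t (@Lb.fp (nat_lit 9) t1621)))))))))))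
noncomputable def l6743 : Lb := (@Lb.d (nat_lit 18) (nat_lit 0) (nat_lit 130) (@Lb.g g8 (@Lb.g g9 (@Lb.g g10 (@Lb.g g11 (@Lb.r r610 (@Lb.r r2659 (@Lb.r r1129 (@Lb.r r2312 (@Lb.d (nat_lit 326) (nat_lit 18) (nat_lit 512) (@Lb.fm (nat_lit 9) t1764)))))))))))
noncomputable def l6744 : Lb := (@Lb.d (nat_lit 512) (nat_lit 133) (nat_lit 2) (@Lb.r r101 (@Lb.r r2403 (@Lb.g g6 (@Lb.d (nat_lit 0) (nat_lit 4) (nat_lit 1) (@Lb.t (@Lb.fp (nat_lit 3) t759)))))))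
noncomputable def l6745 : Lb := (@Lb.r r21 (@Lb.d (nat_lit 16) (nat_lit 512) (nat_lit 128) (@Lb.g g8 (@Lb.g g10 (@Lb.g g11 (@Lb.r r331 (@Lb.r r402 (@Lb.r r1129 (@Lb.r r2344 (@Lb.d (nat_lit 648) (nat_lit 66) (nat_lit 640) (@Lb.t (@Lb.fp (nat_lit 9) t1765))))))))))))
noncomputable def l6746 : Lb := (@Lb.d (nat_lit 2) (nat_lit 144) (nat_lit 353) (@Lb.r r2308 (@Lb.r r2178 (@Lb.r r1291 (@Lb.r r292 (@Lb.g g7 (@Lb.g g9 (@Lb.g g4 (@Lb.d (nat_lit 1) (nat_lit 70) (nat_lit 64) (@Lb.t (@Lb.fp (nat_lit 9) t1621)))))))))))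
noncomputable def l6747 : Lb := (@Lb.d (nat_lit 577) (nat_lit 326) (nat_lit 390) (@Lb.r r597 (@Lb.r r2666 (@Lb.r r2376 (@Lb.r r1671 (@Lb.g g7 (@Lb.g g6 (@Lb.g g5 (@Lb.d (nat_lit 4) (nat_lit 1) (nat_lit 70) (@Lb.t (@Lb.fp (nat_lit 9) t1766)))))))))))
noncomputable def l6748 : Lb := (@Lb.d (nat_lit 9) (nat_lit 6) (nat_lit 128) (@Lb.g g8 (@Lb.g g9 (@Lb.g g10 (@Lb.g g11 (@Lb.r r2666 (@Lb.r r612 (@Lb.r r295 (@Lb.r r2337 (@Lb.r r2084 (@Lb.d (nat_lit 2) (nat_lit 98) (nat_lit 522) (@Lb.fm (nat_lit 9) t381))))))))))))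
noncomputable def l6749 : Lb := (@Lb.d (nat_lit 8) (nat_lit 258) (nat_lit 130) (@Lb.g g9 (@Lb.g g10 (@Lb.g g11 (@Lb.r r419 (@Lb.r r98 (@Lb.d (nat_lit 2) (nat_lit 4) (nat_lit 136) (@Lb.t (@Lb.fm (nat_lit 9) t51)))))))))
noncomputable def l6750 : Lb := (@Lb.d (nat_lit 4) (nat_lit 6) (nat_lit 0) (@Lb.g g9 (@Lb.r r1319 (@Lb.r r1126 (@Lb.r r24 (@Lb.d (nat_lit 533) (nat_lit 129) (nat_lit 33) (@Lb.t (@Lb.fm (nat_lit 3) t1767))))))))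
noncomputable def l6751 : Lb := (@Lb.g g9 (@Lb.g g10 (@Lb.r r97 (@Lb.r r1106 (@Lb.r r145 (@Lb.d (nat_lit 0) (nat_lit 522) (nat_lit 2) (@Lb.fp (nat_lit 3) t970)))))))
noncomputable def l6752 : Lb := (@Lb.r r97 (@Lb.r r1106 (@Lb.r r145 (@Lb.d (nat_lit 546) (nat_lit 517) (nat_lit 16) (@Lb.fm (nat_lit 1) t1487)))))
noncomputable def l6753 : Lb := (@Lb.d (nat_lit 9) (nat_lit 518) (nat_lit 74) (@Lb.g g8 (@Lb.g g9 (@Lb.g g10 (@Lb.g g11 (@Lb.r r2691 (@Lb.r r297 (@Lb.r r1188 (@Lb.r r1158 (@Lb.d (nat_lit 640) (nat_lit 10) (nat_lit 133) (@Lb.fm (nat_lit 9) t1246)))))))))))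
noncomputable def l6754 : Lb := (@Lb.g g9 (@Lb.r r1379 (@Lb.r r89 (@Lb.r r1126 (@Lb.r r24 (@Lb.d (nat_lit 538) (nat_lit 384) (nat_lit 0) (@Lb.t (@Lb.fm (nat_lit 3) t1767))))))))
noncomputable def l6755 : Lb := (@Lb.r r21 (@Lb.r r322 (@Lb.d (nat_lit 34) (nat_lit 528) (nat_lit 320) (@Lb.g g8 (@Lb.g g7 (@Lb.r r598 (@Lb.r r2729 (@Lb.r r2728 (@Lb.d (nat_lit 144) (nat_lit 38) (nat_lit 598) (@Lb.fp (nat_lit 3) t504))))))))))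
noncomputable def l6756 : Lb := (@Lb.d (nat_lit 9) (nat_lit 128) (nat_lit 0) (@Lb.r r289 (@Lb.r r535 (@Lb.r r328 (@Lb.r r134 (@Lb.g g11 (@Lb.g g8 (@Lb.fm (nat_lit 3) t40))))))))
noncomputable def l6757 : Lb := (@Lb.d (nat_lit 2) (nat_lit 649) (nat_lit 128) (@Lb.g g8 (@Lb.g g5 (@Lb.g g11 (@Lb.r r2587 (@Lb.r r2178 (@Lb.r r2584 (@Lb.d (nat_lit 585) (nat_lit 160) (nat_lit 402) (@Lb.t (@Lb.fm (nat_lit 9) t777))))))))))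
noncomputable def l6758 : Lb := (@Lb.r r70 (@Lb.r r263 (@Lb.d (nat_lit 9) (nat_lit 513) (nat_lit 0) (@Lb.g g8 (@Lb.g g9 (@Lb.r r2667 (@Lb.r r418 (@Lb.r r145 (@Lb.r r104 (@Lb.d (nat_lit 296) (nat_lit 0) (nat_lit 0) (@Lb.fp (nat_lit 3) t739)))))))))))
noncomputable def l6759 : Lb := (@Lb.r r322 (@Lb.d (nat_lit 2) (nat_lit 33) (nat_lit 516) (@Lb.g g8 (@Lb.g g9 (@Lb.g g7 (@Lb.r r418 (@Lb.r r1169 (@Lb.r r1096 (@Lb.d (nat_lit 548) (nat_lit 10) (nat_lit 65) (@Lb.t (@Lb.fp (nat_lit 9) t1206)))))))))))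
noncomputable def l6760 : Lb := (@Lb.d (nat_lit 1) (nat_lit 150) (nat_lit 320) (@Lb.r r2308 (@Lb.r r97 (@Lb.r r1291 (@Lb.r r404 (@Lb.g g7 (@Lb.g g10 (@Lb.g g5 (@Lb.g g4 (@Lb.d (nat_lit 6) (nat_lit 4) (nat_lit 82) (@Lb.fp (nat_lit 9) t1018)))))))))))
noncomputable def l6761 : Lb := (@Lb.d (nat_lit 2) (nat_lit 9) (nat_lit 129) (@Lb.g g8 (@Lb.g g9 (@Lb.g g10 (@Lb.g g11 (@Lb.r r162 (@Lb.r r552 (@Lb.r r665 (@Lb.r r539 (@Lb.r r516 (@Lb.d (nat_lit 10) (nat_lit 73) (nat_lit 9) (@Lb.fm (nat_lit 9) t1515))))))))))))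
noncomputable def l6762 : Lb := (@Lb.r r82 (@Lb.d (nat_lit 41) (nat_lit 265) (nat_lit 128) (@Lb.g g8 (@Lb.g g9 (@Lb.g g11 (@Lb.r r1635 (@Lb.r r582 (@Lb.r r2712 (@Lb.r r2325 (@Lb.d (nat_lit 10) (nat_lit 153) (nat_lit 354) (@Lb.t (@Lb.fm (nat_lit 9) t144))))))))))))
noncomputable def l6763 : Lb := (@Lb.r r82 (@Lb.r r275 (@Lb.d (nat_lit 9) (nat_lit 516) (nat_lit 0) (@Lb.g g8 (@Lb.g g5 (@Lb.r r1178 (@Lb.r r1688 (@Lb.r r1563 (@Lb.d (nat_lit 0) (nat_lit 129) (nat_lit 586) (@Lb.fm (nat_lit 3) t144))))))))))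
noncomputable def l6764 : Lb := (@Lb.r r323 (@Lb.d (nat_lit 2) (nat_lit 2) (nat_lit 2) (@Lb.g g8 (@Lb.g g9 (@Lb.g g10 (@Lb.r r1623 (@Lb.r r2154 (@Lb.r r97 (@Lb.r r24 (@Lb.d (nat_lit 258) (nat_lit 0) (nat_lit 153) (@Lb.t (@Lb.fp (nat_lit 9) t61))))))))))))
noncomputable def l6765 : Lb := (@Lb.d (nat_lit 33) (nat_lit 272) (nat_lit 520) (@Lb.g g8 (@Lb.g g7 (@Lb.r r598 (@Lb.r r289 (@Lb.r r2180 (@Lb.d (nat_lit 289) (nat_lit 74) (nat_lit 81) (@Lb.fm (nat_lit 3) t51))))))))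
noncomputable def l6766 : Lb := (@Lb.r r82 (@Lb.d (nat_lit 41) (nat_lit 257) (nat_lit 128) (@Lb.g g8 (@Lb.g g9 (@Lb.g g11 (@Lb.r r1571 (@Lb.r r582 (@Lb.r r404 (@Lb.r r1561 (@Lb.d (nat_lit 390) (nat_lit 26) (nat_lit 354) (@Lb.t (@Lb.fp (nat_lit 9) t68))))))))))))
noncomputable def l6767 : Lb := (@Lb.g g7 (@Lb.r r402 (@Lb.r r101 (@Lb.r r24 (@Lb.d (nat_lit 256) (nat_lit 266) (nat_lit 514) (@Lb.t (@Lb.fp (nat_lit 3) t145)))))))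
noncomputable def l6768 : Lb := (@Lb.d (nat_lit 10) (nat_lit 514) (nat_lit 32) (@Lb.r r402 (@Lb.r r101 (@Lb.r r24 (@Lb.g g10 (@Lb.t (@Lb.fm (nat_lit 3) t145)))))))
noncomputable def l6769 : Lb := (@Lb.d (nat_lit 0) (nat_lit 290) (nat_lit 130) (@Lb.g g9 (@Lb.g g10 (@Lb.g g11 (@Lb.r r2726 (@Lb.r r1415 (@Lb.r r2193 (@Lb.d (nat_lit 64) (nat_lit 21) (nat_lit 649) (@Lb.t (@Lb.fp (nat_lit 9) t809))))))))))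
noncomputable def l6770 : Lb := (@Lb.d (nat_lit 390) (nat_lit 16) (nat_lit 517) (@Lb.r r1307 (@Lb.r r1432 (@Lb.r r1178 (@Lb.g g7 (@Lb.g g6 (@Lb.g g9 (@Lb.g g4 (@Lb.d (nat_lit 6) (nat_lit 26) (nat_lit 128) (@Lb.fm (nat_lit 9) t524))))))))))
noncomputable def l6771 : Lb := (@Lb.d (nat_lit 517) (nat_lit 129) (nat_lit 1) (@Lb.r r101 (@Lb.r r2403 (@Lb.g g6 (@Lb.d (nat_lit 0) (nat_lit 4) (nat_lit 1) (@Lb.t (@Lb.fp (nat_lit 3) t58)))))))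
noncomputable def l6772 : Lb := (@Lb.d (nat_lit 64) (nat_lit 288) (nat_lit 584) (@Lb.g g7 (@Lb.r r134 (@Lb.r r1304 (@Lb.r r2661 (@Lb.d (nat_lit 513) (nat_lit 66) (nat_lit 80) (@Lb.t (@Lb.fp (nat_lit 3) t1122))))))))
noncomputable def l6773 : Lb := (@Lb.d (nat_lit 529) (nat_lit 385) (nat_lit 70) (@Lb.r r97 (@Lb.r r386 (@Lb.r r1431 (@Lb.g g7 (@Lb.g g6 (@Lb.g g5 (@Lb.g g4 (@Lb.d (nat_lit 1) (nat_lit 1) (nat_lit 65) (@Lb.fp (nat_lit 9) t773))))))))))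
noncomputable def l6774 : Lb := (@Lb.d (nat_lit 2) (nat_lit 673) (nat_lit 69) (@Lb.r r1563 (@Lb.r r1688 (@Lb.r r1690 (@Lb.g g6 (@Lb.g g9 (@Lb.g g4 (@Lb.d (nat_lit 6) (nat_lit 2) (nat_lit 1) (@Lb.r r291 (@Lb.t (@Lb.fp (nat_lit 9) t381)))))))))))
noncomputable def l6775 : Lb := (@Lb.d (nat_lit 0) (nat_lit 256) (nat_lit 128) (@Lb.g g9 (@Lb.g g11 (@Lb.r r2727 (@Lb.r r134 (@Lb.r r1304 (@Lb.r r2661 (@Lb.d (nat_lit 522) (nat_lit 65) (nat_lit 16) (@Lb.fm (nat_lit 3) t1122)))))))))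
noncomputable def l6776 : Lb := (@Lb.r r323 (@Lb.d (nat_lit 0) (nat_lit 522) (nat_lit 10) (@Lb.g g9 (@Lb.g g10 (@Lb.r r2339 (@Lb.r r2469 (@Lb.r r422 (@Lb.d (nat_lit 592) (nat_lit 168) (nat_lit 41) (@Lb.fm (nat_lit 3) t1768)))))))))
noncomputable def l6777 : Lb := (@Lb.r r323 (@Lb.d (nat_lit 138) (nat_lit 512) (nat_lit 2) (@Lb.g g8 (@Lb.g g10 (@Lb.r r346 (@Lb.r r661 (@Lb.r r1559 (@Lb.r r2312 (@Lb.d (nat_lit 393) (nat_lit 65) (nat_lit 642) (@Lb.fm (nat_lit 3) t295))))))))))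
noncomputable def l6778 : Lb := (@Lb.r r20 (@Lb.r r2073 (@Lb.d (nat_lit 0) (nat_lit 64) (nat_lit 0) (@Lb.fp (nat_lit 1) t2))))
noncomputable def l6779 : Lb := (@Lb.g g5 (@Lb.r r20 (@Lb.r r2073 (@Lb.d (nat_lit 5) (nat_lit 577) (nat_lit 0) (@Lb.t (@Lb.fm (nat_lit 3) t2))))))
noncomputable def l6780 : Lb := (@Lb.d (nat_lit 2) (nat_lit 264) (nat_lit 130) (@Lb.g g8 (@Lb.g g10 (@Lb.g g11 (@Lb.r r2443 (@Lb.r r2345 (@Lb.r r2468 (@Lb.r r2438 (@Lb.d (nat_lit 617) (nat_lit 73) (nat_lit 664) (@Lb.t (@Lb.fm (nat_lit 9) t295)))))))))))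
noncomputable def l6781 : Lb := (@Lb.d (nat_lit 1) (nat_lit 2) (nat_lit 73) (@Lb.g g8 (@Lb.g g9 (@Lb.g g10 (@Lb.g g11 (@Lb.r r2705 (@Lb.r r535 (@Lb.r r2440 (@Lb.r r2122 (@Lb.d (nat_lit 289) (nat_lit 10) (nat_lit 72) (@Lb.fp (nat_lit 9) t756)))))))))))
noncomputable def l6782 : Lb := (@Lb.d (nat_lit 1) (nat_lit 2) (nat_lit 2) (@Lb.g g8 (@Lb.g g9 (@Lb.g g10 (@Lb.r r2729 (@Lb.r r2475 (@Lb.r r2468 (@Lb.r r2438 (@Lb.d (nat_lit 609) (nat_lit 5) (nat_lit 673) (@Lb.t (@Lb.fm (nat_lit 9) t590)))))))))))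
noncomputable def l6783 : Lb := (@Lb.d (nat_lit 389) (nat_lit 662) (nat_lit 546) (@Lb.r r2325 (@Lb.r r2390 (@Lb.r r683 (@Lb.g g7 (@Lb.g g6 (@Lb.g g5 (@Lb.g g4 (@Lb.d (nat_lit 9) (nat_lit 17) (nat_lit 65) (@Lb.fm (nat_lit 9) t1769))))))))))
noncomputable def l6784 : Lb := (@Lb.d (nat_lit 2) (nat_lit 516) (nat_lit 74) (@Lb.g g8 (@Lb.g g9 (@Lb.g g10 (@Lb.g g11 (@Lb.r r619 (@Lb.r r1610 (@Lb.r r660 (@Lb.r r425 (@Lb.r r2084 (@Lb.d (nat_lit 282) (nat_lit 168) (nat_lit 617) (@Lb.fp (nat_lit 9) t261))))))))))))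
noncomputable def l6785 : Lb := (@Lb.d (nat_lit 137) (nat_lit 512) (nat_lit 0) (@Lb.g g8 (@Lb.r r1621 (@Lb.r r2391 (@Lb.r r2178 (@Lb.r r2664 (@Lb.d (nat_lit 85) (nat_lit 85) (nat_lit 424) (@Lb.t (@Lb.fp (nat_lit 3) t124)))))))))
noncomputable def l6786 : Lb := (@Lb.d (nat_lit 2) (nat_lit 4) (nat_lit 74) (@Lb.g g8 (@Lb.g g9 (@Lb.g g10 (@Lb.g g11 (@Lb.r r619 (@Lb.r r1610 (@Lb.r r660 (@Lb.r r425 (@Lb.r r2084 (@Lb.d (nat_lit 276) (nat_lit 104) (nat_lit 674) (@Lb.fp (nat_lit 9) t1770))))))))))))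
noncomputable def l6787 : Lb := (@Lb.d (nat_lit 2) (nat_lit 260) (nat_lit 74) (@Lb.g g8 (@Lb.g g9 (@Lb.g g10 (@Lb.g g11 (@Lb.r r619 (@Lb.r r1610 (@Lb.r r660 (@Lb.r r425 (@Lb.r r2084 (@Lb.d (nat_lit 282) (nat_lit 168) (nat_lit 674) (@Lb.fp (nat_lit 9) t510))))))))))))
noncomputable def l6788 : Lb := (@Lb.d (nat_lit 1) (nat_lit 2) (nat_lit 74) (@Lb.g g8 (@Lb.g g9 (@Lb.g g10 (@Lb.g g11 (@Lb.r r657 (@Lb.r r535 (@Lb.r r392 (@Lb.r r74 (@Lb.d (nat_lit 33) (nat_lit 10) (nat_lit 152) (@Lb.fp (nat_lit 9) t221)))))))))))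
noncomputable def l6789 : Lb := (@Lb.d (nat_lit 2) (nat_lit 21) (nat_lit 74) (@Lb.g g8 (@Lb.g g9 (@Lb.g g10 (@Lb.g g11 (@Lb.r r619 (@Lb.r r1610 (@Lb.r r404 (@Lb.r r681 (@Lb.d (nat_lit 81) (nat_lit 80) (nat_lit 394) (@Lb.fp (nat_lit 9) t510)))))))))))
noncomputable def l6790 : Lb := (@Lb.d (nat_lit 128) (nat_lit 2) (nat_lit 0) (@Lb.g g8 (@Lb.g g9 (@Lb.r r1303 (@Lb.r r162 (@Lb.r r145 (@Lb.r r2664 (@Lb.d (nat_lit 358) (nat_lit 138) (nat_lit 2) (@Lb.fm (nat_lit 3) t334)))))))))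
noncomputable def l6791 : Lb := (@Lb.d (nat_lit 133) (nat_lit 512) (nat_lit 0) (@Lb.g g8 (@Lb.g g9 (@Lb.r r1303 (@Lb.r r2706 (@Lb.r r1377 (@Lb.r r1432 (@Lb.d (nat_lit 666) (nat_lit 26) (nat_lit 42) (@Lb.fp (nat_lit 3) t334)))))))))
noncomputable def l6792 : Lb := (@Lb.r r323 (@Lb.d (nat_lit 10) (nat_lit 513) (nat_lit 2) (@Lb.g g8 (@Lb.g g9 (@Lb.g g10 (@Lb.r r553 (@Lb.r r299 (@Lb.r r392 (@Lb.r r74 (@Lb.d (nat_lit 18) (nat_lit 0) (nat_lit 40) (@Lb.t (@Lb.fm (nat_lit 9) t167))))))))))))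
noncomputable def l6793 : Lb := (@Lb.d (nat_lit 90) (nat_lit 533) (nat_lit 290) (@Lb.r r360 (@Lb.r r2153 (@Lb.r r386 (@Lb.g g11 (@Lb.g g6 (@Lb.g g5 (@Lb.g g4 (@Lb.d (nat_lit 8) (nat_lit 0) (nat_lit 129) (@Lb.fp (nat_lit 9) t1771))))))))))
noncomputable def l6794 : Lb := (@Lb.d (nat_lit 24) (nat_lit 256) (nat_lit 72) (@Lb.g g8 (@Lb.g g10 (@Lb.g g11 (@Lb.r r614 (@Lb.r r2453 (@Lb.r r619 (@Lb.r r584 (@Lb.d (nat_lit 98) (nat_lit 73) (nat_lit 34) (@Lb.t (@Lb.fm (nat_lit 9) t329)))))))))))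
noncomputable def l6795 : Lb := (@Lb.d (nat_lit 10) (nat_lit 256) (nat_lit 0) (@Lb.g g4 (@Lb.g g7 (@Lb.r r153 (@Lb.r r402 (@Lb.r r1608 (@Lb.d (nat_lit 401) (nat_lit 5) (nat_lit 538) (@Lb.fm (nat_lit 3) t311))))))))
noncomputable def l6796 : Lb := (@Lb.d (nat_lit 128) (nat_lit 514) (nat_lit 0) (@Lb.g g8 (@Lb.g g9 (@Lb.r r1303 (@Lb.r r162 (@Lb.r r145 (@Lb.r r2664 (@Lb.d (nat_lit 353) (nat_lit 132) (nat_lit 1) (@Lb.fm (nat_lit 3) t334)))))))))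
noncomputable def l6797 : Lb := (@Lb.d (nat_lit 102) (nat_lit 682) (nat_lit 88) (@Lb.r r405 (@Lb.r r1110 (@Lb.r r2472 (@Lb.g g11 (@Lb.g g6 (@Lb.g g5 (@Lb.g g4 (@Lb.d (nat_lit 1) (nat_lit 4) (nat_lit 129) (@Lb.fp (nat_lit 9) t31))))))))))
noncomputable def l6798 : Lb := (@Lb.d (nat_lit 20) (nat_lit 65) (nat_lit 40) (@Lb.r r2202 (@Lb.r r2452 (@Lb.r r667 (@Lb.r r337 (@Lb.g g7 (@Lb.g g6 (@Lb.g g4 (@Lb.d (nat_lit 4) (nat_lit 4) (nat_lit 133) (@Lb.t (@Lb.fp (nat_lit 9) t334)))))))))))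
noncomputable def l6799 : Lb := (@Lb.d (nat_lit 2) (nat_lit 0) (nat_lit 0) (@Lb.g g8 (@Lb.r r617 (@Lb.r r2595 (@Lb.r r2178 (@Lb.r r529 (@Lb.d (nat_lit 273) (nat_lit 0) (nat_lit 16) (@Lb.t (@Lb.fm (nat_lit 3) t64)))))))))
noncomputable def l6800 : Lb := (@Lb.d (nat_lit 0) (nat_lit 514) (nat_lit 74) (@Lb.g g8 (@Lb.g g9 (@Lb.g g10 (@Lb.g g11 (@Lb.r r618 (@Lb.r r579 (@Lb.r r25 (@Lb.d (nat_lit 0) (nat_lit 97) (nat_lit 74) (@Lb.fm (nat_lit 9) t51))))))))))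
noncomputable def l6801 : Lb := (@Lb.d (nat_lit 138) (nat_lit 9) (nat_lit 0) (@Lb.g g8 (@Lb.g g9 (@Lb.r r646 (@Lb.r r679 (@Lb.r r545 (@Lb.r r104 (@Lb.d (nat_lit 38) (nat_lit 154) (nat_lit 657) (@Lb.fm (nat_lit 3) t44)))))))))
noncomputable def l6802 : Lb := (@Lb.d (nat_lit 530) (nat_lit 256) (nat_lit 17) (@Lb.r r20 (@Lb.r r2153 (@Lb.r r323 (@Lb.g g10 (@Lb.g g5 (@Lb.g g4 (@Lb.d (nat_lit 10) (nat_lit 0) (nat_lit 2) (@Lb.r r387 (@Lb.t (@Lb.fp (nat_lit 9) t51)))))))))))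
noncomputable def l6803 : Lb := (@Lb.d (nat_lit 0) (nat_lit 258) (nat_lit 0) (@Lb.g g8 (@Lb.g g9 (@Lb.r r25 (@Lb.d (nat_lit 0) (nat_lit 74) (nat_lit 2) (@Lb.fm (nat_lit 3) t21))))))
noncomputable def l6804 : Lb := (@Lb.r r275 (@Lb.d (nat_lit 10) (nat_lit 262) (nat_lit 0) (@Lb.g g8 (@Lb.g g9 (@Lb.g g10 (@Lb.r r1707 (@Lb.r r168 (@Lb.r r618 (@Lb.r r2153 (@Lb.d (nat_lit 96) (nat_lit 73) (nat_lit 100) (@Lb.t (@Lb.fp (nat_lit 9) t74))))))))))))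
noncomputable def l6805 : Lb := (@Lb.d (nat_lit 0) (nat_lit 2) (nat_lit 2) (@Lb.g g8 (@Lb.g g9 (@Lb.g g10 (@Lb.g g11 (@Lb.r r427 (@Lb.r r106 (@Lb.r r25 (@Lb.d (nat_lit 0) (nat_lit 73) (nat_lit 137) (@Lb.fp (nat_lit 9) t51))))))))))
noncomputable def l6806 : Lb := (@Lb.d (nat_lit 10) (nat_lit 0) (nat_lit 0) (@Lb.g g4 (@Lb.r r153 (@Lb.r r402 (@Lb.r r1608 (@Lb.d (nat_lit 401) (nat_lit 0) (nat_lit 537) (@Lb.t (@Lb.fm (nat_lit 3) t311))))))))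
noncomputable def l6807 : Lb := (@Lb.d (nat_lit 336) (nat_lit 645) (nat_lit 290) (@Lb.r r20 (@Lb.r r2137 (@Lb.r r20 (@Lb.r r418 (@Lb.g g11 (@Lb.g g6 (@Lb.g g5 (@Lb.g g4 (@Lb.d (nat_lit 25) (nat_lit 0) (nat_lit 73) (@Lb.fp (nat_lit 9) t1233)))))))))))
noncomputable def l6808 : Lb := (@Lb.d (nat_lit 90) (nat_lit 277) (nat_lit 354) (@Lb.r r360 (@Lb.r r2153 (@Lb.r r386 (@Lb.g g11 (@Lb.g g6 (@Lb.g g5 (@Lb.g g4 (@Lb.d (nat_lit 8) (nat_lit 0) (nat_lit 129) (@Lb.fp (nat_lit 9) t1771))))))))))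
noncomputable def l6809 : Lb := (@Lb.d (nat_lit 42) (nat_lit 512) (nat_lit 0) (@Lb.g g8 (@Lb.r r2395 (@Lb.r r614 (@Lb.r r1637 (@Lb.r r1428 (@Lb.d (nat_lit 358) (nat_lit 90) (nat_lit 389) (@Lb.t (@Lb.fm (nat_lit 3) t188)))))))))
noncomputable def l6810 : Lb := (@Lb.r r323 (@Lb.d (nat_lit 0) (nat_lit 514) (nat_lit 0) (@Lb.g g8 (@Lb.g g9 (@Lb.g g10 (@Lb.r r427 (@Lb.r r106 (@Lb.r r25 (@Lb.d (nat_lit 0) (nat_lit 73) (nat_lit 2) (@Lb.t (@Lb.fm (nat_lit 9) t51)))))))))))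
noncomputable def l6811 : Lb := (@Lb.r r20 (@Lb.r r323 (@Lb.d (nat_lit 8) (nat_lit 578) (nat_lit 0) (@Lb.g g9 (@Lb.g g10 (@Lb.r r419 (@Lb.r r98 (@Lb.d (nat_lit 0) (nat_lit 72) (nat_lit 2) (@Lb.fm (nat_lit 3) t51)))))))))
noncomputable def l6812 : Lb := (@Lb.r r70 (@Lb.d (nat_lit 385) (nat_lit 2) (nat_lit 64) (@Lb.g g8 (@Lb.g g9 (@Lb.g g11 (@Lb.r r2347 (@Lb.r r1602 (@Lb.r r25 (@Lb.d (nat_lit 9) (nat_lit 96) (nat_lit 128) (@Lb.t (@Lb.fm (nat_lit 9) t898)))))))))))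
noncomputable def l6813 : Lb := (@Lb.r r70 (@Lb.d (nat_lit 385) (nat_lit 258) (nat_lit 64) (@Lb.g g8 (@Lb.g g9 (@Lb.g g11 (@Lb.r r2347 (@Lb.r r1602 (@Lb.r r25 (@Lb.d (nat_lit 9) (nat_lit 106) (nat_lit 130) (@Lb.t (@Lb.fm (nat_lit 9) t898)))))))))))
noncomputable def l6814 : Lb := (@Lb.d (nat_lit 1) (nat_lit 0) (nat_lit 73) (@Lb.g g8 (@Lb.g g10 (@Lb.g g11 (@Lb.r r2691 (@Lb.r r1642 (@Lb.r r2145 (@Lb.r r24 (@Lb.d (nat_lit 136) (nat_lit 33) (nat_lit 64) (@Lb.t (@Lb.fp (nat_lit 9) t1772)))))))))))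
noncomputable def l6815 : Lb := (@Lb.d (nat_lit 9) (nat_lit 1) (nat_lit 73) (@Lb.g g8 (@Lb.g g9 (@Lb.g g10 (@Lb.g g11 (@Lb.r r2691 (@Lb.r r1193 (@Lb.r r2658 (@Lb.r r2436 (@Lb.d (nat_lit 609) (nat_lit 165) (nat_lit 660) (@Lb.fp (nat_lit 9) t311)))))))))))
noncomputable def l6816 : Lb := (@Lb.d (nat_lit 9) (nat_lit 0) (nat_lit 73) (@Lb.g g8 (@Lb.g g10 (@Lb.g g11 (@Lb.r r2691 (@Lb.r r2658 (@Lb.r r101 (@Lb.r r24 (@Lb.d (nat_lit 74) (nat_lit 9) (nat_lit 354) (@Lb.t (@Lb.fp (nat_lit 9) t145)))))))))))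
noncomputable def l6817 : Lb := (@Lb.d (nat_lit 9) (nat_lit 257) (nat_lit 73) (@Lb.g g8 (@Lb.g g9 (@Lb.g g10 (@Lb.g g11 (@Lb.r r2691 (@Lb.r r1193 (@Lb.r r2658 (@Lb.r r2436 (@Lb.d (nat_lit 608) (nat_lit 165) (nat_lit 660) (@Lb.fp (nat_lit 9) t311)))))))))))
noncomputable def l6818 : Lb := (@Lb.d (nat_lit 16) (nat_lit 514) (nat_lit 74) (@Lb.g g8 (@Lb.g g9 (@Lb.g g10 (@Lb.g g11 (@Lb.r r587 (@Lb.r r2401 (@Lb.r r1170 (@Lb.r r1704 (@Lb.d (nat_lit 354) (nat_lit 80) (nat_lit 645) (@Lb.fp (nat_lit 9) t151)))))))))))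
noncomputable def l6819 : Lb := (@Lb.d (nat_lit 9) (nat_lit 514) (nat_lit 9) (@Lb.g g8 (@Lb.g g9 (@Lb.g g10 (@Lb.g g11 (@Lb.r r404 (@Lb.r r1563 (@Lb.r r2453 (@Lb.r r2390 (@Lb.r r1700 (@Lb.d (nat_lit 102) (nat_lit 1) (nat_lit 537) (@Lb.fm (nat_lit 9) t1165))))))))))))
noncomputable def l6820 : Lb := (@Lb.d (nat_lit 2) (nat_lit 265) (nat_lit 73) (@Lb.g g8 (@Lb.g g9 (@Lb.g g10 (@Lb.g g11 (@Lb.r r1194 (@Lb.r r680 (@Lb.r r555 (@Lb.r r1573 (@Lb.r r1044 (@Lb.d (nat_lit 394) (nat_lit 138) (nat_lit 329) (@Lb.fp (nat_lit 9) t789))))))))))))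
noncomputable def l6821 : Lb := (@Lb.d (nat_lit 8) (nat_lit 38) (nat_lit 294) (@Lb.r r21 (@Lb.r r1366 (@Lb.r r683 (@Lb.g g7 (@Lb.g g6 (@Lb.g g5 (@Lb.g g4 (@Lb.d (nat_lit 1) (nat_lit 1) (nat_lit 70) (@Lb.fm (nat_lit 9) t40))))))))))
noncomputable def l6822 : Lb := (@Lb.d (nat_lit 2) (nat_lit 521) (nat_lit 72) (@Lb.g g8 (@Lb.g g9 (@Lb.g g10 (@Lb.g g11 (@Lb.r r2691 (@Lb.r r297 (@Lb.r r360 (@Lb.r r582 (@Lb.r r2180 (@Lb.d (nat_lit 641) (nat_lit 10) (nat_lit 329) (@Lb.fm (nat_lit 9) t98))))))))))))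
noncomputable def l6823 : Lb := (@Lb.d (nat_lit 618) (nat_lit 80) (nat_lit 549) (@Lb.r r2710 (@Lb.r r1352 (@Lb.r r659 (@Lb.r r2401 (@Lb.g g7 (@Lb.g g6 (@Lb.d (nat_lit 16) (nat_lit 4) (nat_lit 129) (@Lb.fm (nat_lit 3) t924)))))))))
noncomputable def l6824 : Lb := (@Lb.d (nat_lit 2) (nat_lit 9) (nat_lit 72) (@Lb.g g8 (@Lb.g g9 (@Lb.g g10 (@Lb.g g11 (@Lb.r r2691 (@Lb.r r297 (@Lb.r r360 (@Lb.r r582 (@Lb.r r2180 (@Lb.d (nat_lit 648) (nat_lit 9) (nat_lit 329) (@Lb.fm (nat_lit 9) t1698))))))))))))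
noncomputable def l6825 : Lb := (@Lb.d (nat_lit 2) (nat_lit 9) (nat_lit 73) (@Lb.g g8 (@Lb.g g9 (@Lb.g g10 (@Lb.g g11 (@Lb.r r1194 (@Lb.r r680 (@Lb.r r555 (@Lb.r r1573 (@Lb.r r1044 (@Lb.d (nat_lit 394) (nat_lit 128) (nat_lit 330) (@Lb.fp (nat_lit 9) t125))))))))))))
noncomputable def l6826 : Lb := (@Lb.d (nat_lit 0) (nat_lit 514) (nat_lit 130) (@Lb.g g9 (@Lb.g g10 (@Lb.g g11 (@Lb.r r427 (@Lb.r r420 (@Lb.r r2438 (@Lb.r r97 (@Lb.d (nat_lit 609) (nat_lit 73) (nat_lit 281) (@Lb.t (@Lb.fm (nat_lit 9) t188)))))))))))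
noncomputable def l6827 : Lb := (@Lb.d (nat_lit 264) (nat_lit 384) (nat_lit 0) (@Lb.r r1172 (@Lb.r r106 (@Lb.r r601 (@Lb.r r1559 (@Lb.g g8 (@Lb.r r74 (@Lb.r r25 (@Lb.t (@Lb.fm (nat_lit 3) t329))))))))))
noncomputable def l6828 : Lb := (@Lb.d (nat_lit 4) (nat_lit 36) (nat_lit 128) (@Lb.g g8 (@Lb.g g9 (@Lb.g g10 (@Lb.g g11 (@Lb.r r1706 (@Lb.r r1419 (@Lb.r r2201 (@Lb.r r24 (@Lb.d (nat_lit 148) (nat_lit 33) (nat_lit 169) (@Lb.fp (nat_lit 9) t531)))))))))))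
noncomputable def l6829 : Lb := (@Lb.r r21 (@Lb.d (nat_lit 81) (nat_lit 256) (nat_lit 10) (@Lb.g g8 (@Lb.g g10 (@Lb.g g11 (@Lb.r r323 (@Lb.r r1386 (@Lb.r r97 (@Lb.r r2088 (@Lb.d (nat_lit 65) (nat_lit 66) (nat_lit 576) (@Lb.t (@Lb.fm (nat_lit 9) t4))))))))))))
noncomputable def l6830 : Lb := (@Lb.d (nat_lit 2) (nat_lit 258) (nat_lit 129) (@Lb.g g8 (@Lb.g g9 (@Lb.g g10 (@Lb.g g11 (@Lb.r r1703 (@Lb.r r297 (@Lb.r r1412 (@Lb.r r1430 (@Lb.d (nat_lit 353) (nat_lit 74) (nat_lit 664) (@Lb.fm (nat_lit 9) t91)))))))))))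
noncomputable def l6831 : Lb := (@Lb.r r323 (@Lb.d (nat_lit 132) (nat_lit 256) (nat_lit 32) (@Lb.g g8 (@Lb.g g9 (@Lb.g g10 (@Lb.r r263 (@Lb.r r2201 (@Lb.r r536 (@Lb.d (nat_lit 153) (nat_lit 34) (nat_lit 513) (@Lb.t (@Lb.fp (nat_lit 9) t1773)))))))))))
noncomputable def l6832 : Lb := (@Lb.d (nat_lit 134) (nat_lit 292) (nat_lit 64) (@Lb.g g8 (@Lb.g g9 (@Lb.g g10 (@Lb.g g11 (@Lb.r r2403 (@Lb.r r386 (@Lb.r r165 (@Lb.r r1156 (@Lb.d (nat_lit 146) (nat_lit 165) (nat_lit 324) (@Lb.fp (nat_lit 9) t1774)))))))))))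
noncomputable def l6833 : Lb := (@Lb.d (nat_lit 0) (nat_lit 512) (nat_lit 128) (@Lb.g g11 (@Lb.r r326 (@Lb.r r1419 (@Lb.r r24 (@Lb.r r1317 (@Lb.d (nat_lit 0) (nat_lit 42) (nat_lit 22) (@Lb.t (@Lb.fp (nat_lit 3) t867)))))))))
noncomputable def l6834 : Lb := (@Lb.d (nat_lit 145) (nat_lit 2) (nat_lit 130) (@Lb.g g8 (@Lb.g g9 (@Lb.g g10 (@Lb.g g11 (@Lb.r r2731 (@Lb.r r1386 (@Lb.r r1561 (@Lb.r r1540 (@Lb.d (nat_lit 393) (nat_lit 25) (nat_lit 293) (@Lb.fm (nat_lit 9) t531)))))))))))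
noncomputable def l6835 : Lb := (@Lb.r r323 (@Lb.d (nat_lit 130) (nat_lit 258) (nat_lit 18) (@Lb.g g8 (@Lb.g g9 (@Lb.g g10 (@Lb.r r583 (@Lb.r r2201 (@Lb.r r408 (@Lb.d (nat_lit 89) (nat_lit 26) (nat_lit 328) (@Lb.t (@Lb.fm (nat_lit 9) t1775)))))))))))
noncomputable def l6836 : Lb := (@Lb.r r82 (@Lb.d (nat_lit 134) (nat_lit 2) (nat_lit 128) (@Lb.g g8 (@Lb.g g9 (@Lb.g g11 (@Lb.r r342 (@Lb.r r1411 (@Lb.r r2665 (@Lb.r r2084 (@Lb.d (nat_lit 617) (nat_lit 89) (nat_lit 325) (@Lb.t (@Lb.fp (nat_lit 9) t1776))))))))))))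
noncomputable def l6837 : Lb := (@Lb.d (nat_lit 96) (nat_lit 514) (nat_lit 73) (@Lb.g g8 (@Lb.g g9 (@Lb.g g10 (@Lb.g g11 (@Lb.r r1451 (@Lb.r r2666 (@Lb.r r281 (@Lb.r r260 (@Lb.d (nat_lit 73) (nat_lit 105) (nat_lit 585) (@Lb.fp (nat_lit 9) t1777)))))))))))
noncomputable def l6838 : Lb := (@Lb.d (nat_lit 8) (nat_lit 258) (nat_lit 66) (@Lb.g g8 (@Lb.g g9 (@Lb.g g10 (@Lb.g g7 (@Lb.r r386 (@Lb.r r2145 (@Lb.r r24 (@Lb.d (nat_lit 9) (nat_lit 73) (nat_lit 41) (@Lb.fp (nat_lit 9) t319))))))))))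
noncomputable def l6839 : Lb := (@Lb.d (nat_lit 101) (nat_lit 645) (nat_lit 662) (@Lb.r r1297 (@Lb.r r611 (@Lb.r r545 (@Lb.r r2214 (@Lb.g g7 (@Lb.g g6 (@Lb.g g5 (@Lb.g g8 (@Lb.d (nat_lit 330) (nat_lit 0) (nat_lit 65) (@Lb.fp (nat_lit 9) t800)))))))))))
noncomputable def l6840 : Lb := (@Lb.d (nat_lit 0) (nat_lit 288) (nat_lit 130) (@Lb.g g8 (@Lb.g g10 (@Lb.g g11 (@Lb.r r618 (@Lb.r r149 (@Lb.r r340 (@Lb.r r2587 (@Lb.d (nat_lit 329) (nat_lit 66) (nat_lit 256) (@Lb.t (@Lb.fp (nat_lit 9) t71)))))))))))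
noncomputable def l6841 : Lb := (@Lb.d (nat_lit 256) (nat_lit 5) (nat_lit 2) (@Lb.r r24 (@Lb.r r101 (@Lb.r r2403 (@Lb.g g6 (@Lb.d (nat_lit 0) (nat_lit 4) (nat_lit 1) (@Lb.t (@Lb.fm (nat_lit 3) t759))))))))
noncomputable def l6842 : Lb := (@Lb.d (nat_lit 1) (nat_lit 517) (nat_lit 1) (@Lb.r r24 (@Lb.r r101 (@Lb.r r402 (@Lb.r r323 (@Lb.g g7 (@Lb.g g6 (@Lb.d (nat_lit 0) (nat_lit 0) (nat_lit 64) (@Lb.fp (nat_lit 3) t175)))))))))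
noncomputable def l6843 : Lb := (@Lb.d (nat_lit 2) (nat_lit 16) (nat_lit 128) (@Lb.g g8 (@Lb.g g9 (@Lb.g g10 (@Lb.g g11 (@Lb.r r2647 (@Lb.r r1382 (@Lb.r r660 (@Lb.r r425 (@Lb.r r1060 (@Lb.d (nat_lit 153) (nat_lit 90) (nat_lit 665) (@Lb.fp (nat_lit 9) t1778))))))))))))
noncomputable def l6844 : Lb := (@Lb.d (nat_lit 649) (nat_lit 320) (nat_lit 148) (@Lb.r r21 (@Lb.r r1320 (@Lb.r r2634 (@Lb.r r2691 (@Lb.g g7 (@Lb.g g6 (@Lb.g g5 (@Lb.d (nat_lit 0) (nat_lit 1) (nat_lit 65) (@Lb.t (@Lb.fp (nat_lit 9) t1779)))))))))))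
noncomputable def l6845 : Lb := (@Lb.d (nat_lit 10) (nat_lit 264) (nat_lit 74) (@Lb.g g8 (@Lb.g g10 (@Lb.g g11 (@Lb.r r657 (@Lb.r r667 (@Lb.r r1636 (@Lb.r r2202 (@Lb.d (nat_lit 41) (nat_lit 130) (nat_lit 20) (@Lb.t (@Lb.fm (nat_lit 9) t427)))))))))))
noncomputable def l6846 : Lb := (@Lb.d (nat_lit 1) (nat_lit 282) (nat_lit 576) (@Lb.r r37 (@Lb.r r1304 (@Lb.r r2375 (@Lb.g g7 (@Lb.g g6 (@Lb.g g4 (@Lb.d (nat_lit 2) (nat_lit 0) (nat_lit 64) (@Lb.r r145 (@Lb.t (@Lb.fp (nat_lit 9) t1780)))))))))))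
noncomputable def l6847 : Lb := (@Lb.d (nat_lit 0) (nat_lit 530) (nat_lit 128) (@Lb.g g9 (@Lb.g g10 (@Lb.g g11 (@Lb.r r2467 (@Lb.r r1445 (@Lb.r r2136 (@Lb.r r1158 (@Lb.d (nat_lit 417) (nat_lit 5) (nat_lit 420) (@Lb.t (@Lb.fp (nat_lit 9) t1781)))))))))))
noncomputable def l6848 : Lb := (@Lb.d (nat_lit 5) (nat_lit 274) (nat_lit 321) (@Lb.r r1313 (@Lb.r r2327 (@Lb.r r584 (@Lb.g g6 (@Lb.g g5 (@Lb.d (nat_lit 16) (nat_lit 1) (nat_lit 1) (@Lb.r r387 (@Lb.fm (nat_lit 3) t1751)))))))))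
noncomputable def l6849 : Lb := (@Lb.d (nat_lit 2) (nat_lit 4) (nat_lit 128) (@Lb.g g8 (@Lb.g g9 (@Lb.g g10 (@Lb.g g11 (@Lb.r r427 (@Lb.r r424 (@Lb.r r106 (@Lb.r r97 (@Lb.d (nat_lit 296) (nat_lit 9) (nat_lit 168) (@Lb.fp (nat_lit 9) t1757)))))))))))
noncomputable def l6850 : Lb := (@Lb.d (nat_lit 362) (nat_lit 16) (nat_lit 362) (@Lb.r r1432 (@Lb.r r81 (@Lb.r r2631 (@Lb.g g6 (@Lb.g g4 (@Lb.d (nat_lit 65) (nat_lit 8) (nat_lit 1) (@Lb.r r387 (@Lb.r r25 (@Lb.fm (nat_lit 3) t1782))))))))))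
noncomputable def l6851 : Lb := (@Lb.d (nat_lit 0) (nat_lit 256) (nat_lit 130) (@Lb.g g10 (@Lb.g g11 (@Lb.r r419 (@Lb.r r386 (@Lb.r r101 (@Lb.d (nat_lit 144) (nat_lit 152) (nat_lit 132) (@Lb.fm (nat_lit 3) t1725))))))))
noncomputable def l6852 : Lb := (@Lb.d (nat_lit 0) (nat_lit 512) (nat_lit 4) (@Lb.g g10 (@Lb.g g11 (@Lb.r r419 (@Lb.r r1378 (@Lb.d (nat_lit 0) (nat_lit 88) (nat_lit 406) (@Lb.fm (nat_lit 3) t371)))))))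
noncomputable def l6853 : Lb := (@Lb.d (nat_lit 0) (nat_lit 258) (nat_lit 73) (@Lb.g g9 (@Lb.g g10 (@Lb.g g11 (@Lb.r r579 (@Lb.r r1686 (@Lb.r r97 (@Lb.r r24 (@Lb.d (nat_lit 666) (nat_lit 9) (nat_lit 256) (@Lb.t (@Lb.fm (nat_lit 9) t145)))))))))))
noncomputable def l6854 : Lb := (@Lb.d (nat_lit 1) (nat_lit 537) (nat_lit 66) (@Lb.r r657 (@Lb.r r667 (@Lb.r r584 (@Lb.r r326 (@Lb.g g7 (@Lb.g g6 (@Lb.g g5 (@Lb.d (nat_lit 0) (nat_lit 2) (nat_lit 65) (@Lb.t (@Lb.fp (nat_lit 9) t74)))))))))))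
noncomputable def l6855 : Lb := (@Lb.d (nat_lit 160) (nat_lit 8) (nat_lit 64) (@Lb.g g10 (@Lb.g g11 (@Lb.r r1124 (@Lb.r r2645 (@Lb.r r1555 (@Lb.r r2698 (@Lb.d (nat_lit 322) (nat_lit 161) (nat_lit 69) (@Lb.fm (nat_lit 3) t127)))))))))
noncomputable def l6856 : Lb := (@Lb.d (nat_lit 0) (nat_lit 264) (nat_lit 130) (@Lb.g g10 (@Lb.g g11 (@Lb.r r387 (@Lb.r r1617 (@Lb.r r354 (@Lb.d (nat_lit 546) (nat_lit 162) (nat_lit 641) (@Lb.fm (nat_lit 3) t1484))))))))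
noncomputable def l6857 : Lb := (@Lb.d (nat_lit 32) (nat_lit 0) (nat_lit 2) (@Lb.r r24 (@Lb.r r85 (@Lb.r r98 (@Lb.g g6 (@Lb.g g5 (@Lb.d (nat_lit 0) (nat_lit 2) (nat_lit 1) (@Lb.fp (nat_lit 3) t1219))))))))
noncomputable def l6858 : Lb := (@Lb.r r82 (@Lb.d (nat_lit 0) (nat_lit 289) (nat_lit 64) (@Lb.g g9 (@Lb.g g11 (@Lb.r r2643 (@Lb.r r346 (@Lb.r r612 (@Lb.r r533 (@Lb.d (nat_lit 260) (nat_lit 162) (nat_lit 256) (@Lb.fp (nat_lit 3) t47))))))))))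
noncomputable def l6859 : Lb := (@Lb.d (nat_lit 0) (nat_lit 514) (nat_lit 33) (@Lb.r r322 (@Lb.r r659 (@Lb.r r578 (@Lb.g g7 (@Lb.g g6 (@Lb.fp (nat_lit 3) t51)))))))
noncomputable def l6860 : Lb := (@Lb.r r82 (@Lb.d (nat_lit 0) (nat_lit 33) (nat_lit 64) (@Lb.g g9 (@Lb.g g11 (@Lb.r r2643 (@Lb.r r346 (@Lb.r r612 (@Lb.r r533 (@Lb.d (nat_lit 265) (nat_lit 160) (nat_lit 256) (@Lb.fp (nat_lit 3) t1783))))))))))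
noncomputable def l6861 : Lb := (@Lb.d (nat_lit 0) (nat_lit 512) (nat_lit 73) (@Lb.g g10 (@Lb.g g11 (@Lb.r r579 (@Lb.r r1346 (@Lb.d (nat_lit 0) (nat_lit 164) (nat_lit 404) (@Lb.fp (nat_lit 3) t1119)))))))
noncomputable def l6862 : Lb := (@Lb.r r21 (@Lb.d (nat_lit 8) (nat_lit 256) (nat_lit 130) (@Lb.g g8 (@Lb.g g10 (@Lb.g g11 (@Lb.r r667 (@Lb.r r2405 (@Lb.r r1178 (@Lb.r r1156 (@Lb.d (nat_lit 344) (nat_lit 2) (nat_lit 337) (@Lb.t (@Lb.fp (nat_lit 9) t284))))))))))))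
noncomputable def l6863 : Lb := (@Lb.d (nat_lit 0) (nat_lit 546) (nat_lit 2) (@Lb.g g9 (@Lb.g g10 (@Lb.r r1194 (@Lb.r r2468 (@Lb.r r1307 (@Lb.r r1573 (@Lb.d (nat_lit 389) (nat_lit 16) (nat_lit 586) (@Lb.fm (nat_lit 3) t284)))))))))
noncomputable def l6864 : Lb := (@Lb.d (nat_lit 9) (nat_lit 34) (nat_lit 2) (@Lb.g g8 (@Lb.g g9 (@Lb.g g10 (@Lb.r r170 (@Lb.r r1444 (@Lb.r r2331 (@Lb.r r549 (@Lb.d (nat_lit 133) (nat_lit 80) (nat_lit 74) (@Lb.t (@Lb.fm (nat_lit 9) t284)))))))))))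
noncomputable def l6865 : Lb := (@Lb.d (nat_lit 9) (nat_lit 257) (nat_lit 130) (@Lb.g g8 (@Lb.g g9 (@Lb.g g10 (@Lb.g g11 (@Lb.r r1706 (@Lb.r r676 (@Lb.r r551 (@Lb.r r1557 (@Lb.r r1060 (@Lb.d (nat_lit 648) (nat_lit 2) (nat_lit 330) (@Lb.fp (nat_lit 9) t284))))))))))))
noncomputable def l6866 : Lb := (@Lb.d (nat_lit 0) (nat_lit 512) (nat_lit 2) (@Lb.g g10 (@Lb.r r2435 (@Lb.r r386 (@Lb.r r101 (@Lb.r r24 (@Lb.d (nat_lit 577) (nat_lit 10) (nat_lit 134) (@Lb.t (@Lb.fm (nat_lit 3) t1150)))))))))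
noncomputable def l6867 : Lb := (@Lb.d (nat_lit 32) (nat_lit 264) (nat_lit 74) (@Lb.g g10 (@Lb.g g11 (@Lb.r r289 (@Lb.r r1620 (@Lb.r r1367 (@Lb.r r2698 (@Lb.d (nat_lit 324) (nat_lit 74) (nat_lit 421) (@Lb.fm (nat_lit 3) t743)))))))))
noncomputable def l6868 : Lb := (@Lb.d (nat_lit 0) (nat_lit 164) (nat_lit 385) (@Lb.g g11 (@Lb.t (@Lb.fp (nat_lit 3) t1545))))
noncomputable def l6869 : Lb := (@Lb.r r402 (@Lb.r r101 (@Lb.r r24 (@Lb.d (nat_lit 65) (nat_lit 522) (nat_lit 2) (@Lb.fm (nat_lit 1) t145)))))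
noncomputable def l6870 : Lb := (@Lb.d (nat_lit 2) (nat_lit 2) (nat_lit 130) (@Lb.g g8 (@Lb.g g9 (@Lb.g g10 (@Lb.g g11 (@Lb.r r1699 (@Lb.r r36 (@Lb.r r661 (@Lb.r r146 (@Lb.r r1060 (@Lb.d (nat_lit 665) (nat_lit 149) (nat_lit 580) (@Lb.fp (nat_lit 9) t1022))))))))))))
noncomputable def l6871 : Lb := (@Lb.d (nat_lit 2) (nat_lit 258) (nat_lit 130) (@Lb.g g8 (@Lb.g g9 (@Lb.g g10 (@Lb.g g11 (@Lb.r r2218 (@Lb.r r548 (@Lb.r r615 (@Lb.r r2657 (@Lb.r r2084 (@Lb.d (nat_lit 2) (nat_lit 85) (nat_lit 340) (@Lb.fm (nat_lit 9) t1416))))))))))))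
noncomputable def l6872 : Lb := (@Lb.r r21 (@Lb.d (nat_lit 129) (nat_lit 0) (nat_lit 65) (@Lb.g g8 (@Lb.g g10 (@Lb.g g11 (@Lb.r r674 (@Lb.r r2705 (@Lb.r r1563 (@Lb.r r2648 (@Lb.d (nat_lit 388) (nat_lit 100) (nat_lit 152) (@Lb.t (@Lb.fp (nat_lit 9) t764))))))))))))
noncomputable def l6873 : Lb := (@Lb.d (nat_lit 2) (nat_lit 2) (nat_lit 130) (@Lb.g g8 (@Lb.g g9 (@Lb.g g10 (@Lb.g g11 (@Lb.r r1699 (@Lb.r r36 (@Lb.r r661 (@Lb.r r146 (@Lb.r r1060 (@Lb.d (nat_lit 664) (nat_lit 154) (nat_lit 581) (@Lb.fp (nat_lit 9) t1022))))))))))))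
noncomputable def l6874 : Lb := (@Lb.d (nat_lit 0) (nat_lit 0) (nat_lit 10) (@Lb.g g10 (@Lb.r r2449 (@Lb.r r2436 (@Lb.d (nat_lit 0) (nat_lit 152) (nat_lit 258) (@Lb.t (@Lb.fp (nat_lit 3) t1340)))))))
noncomputable def l6875 : Lb := (@Lb.r r81 (@Lb.d (nat_lit 2) (nat_lit 256) (nat_lit 128) (@Lb.g g8 (@Lb.g g10 (@Lb.g g11 (@Lb.r r1419 (@Lb.r r1304 (@Lb.r r37 (@Lb.d (nat_lit 2) (nat_lit 42) (nat_lit 385) (@Lb.t (@Lb.fm (nat_lit 9) t1784)))))))))))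
noncomputable def l6876 : Lb := (@Lb.d (nat_lit 296) (nat_lit 1) (nat_lit 16) (@Lb.r r1321 (@Lb.r r1444 (@Lb.r r2406 (@Lb.r r595 (@Lb.g g7 (@Lb.g g6 (@Lb.d (nat_lit 0) (nat_lit 0) (nat_lit 133) (@Lb.fm (nat_lit 3) t1100)))))))))
noncomputable def l6877 : Lb := (@Lb.d (nat_lit 102) (nat_lit 132) (nat_lit 680) (@Lb.r r24 (@Lb.r r97 (@Lb.r r386 (@Lb.r r1431 (@Lb.g g6 (@Lb.g g5 (@Lb.g g4 (@Lb.d (nat_lit 2) (nat_lit 1) (nat_lit 1) (@Lb.t (@Lb.fm (nat_lit 9) t1785)))))))))))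
noncomputable def l6878 : Lb := (@Lb.r r81 (@Lb.d (nat_lit 2) (nat_lit 512) (nat_lit 130) (@Lb.g g8 (@Lb.g g6 (@Lb.g g11 (@Lb.r r1611 (@Lb.r r2453 (@Lb.r r1608 (@Lb.d (nat_lit 66) (nat_lit 10) (nat_lit 664) (@Lb.t (@Lb.fp (nat_lit 9) t419)))))))))))
noncomputable def l6879 : Lb := (@Lb.r r81 (@Lb.d (nat_lit 2) (nat_lit 0) (nat_lit 130) (@Lb.g g8 (@Lb.g g6 (@Lb.g g11 (@Lb.r r1611 (@Lb.r r2453 (@Lb.r r1608 (@Lb.d (nat_lit 73) (nat_lit 9) (nat_lit 664) (@Lb.t (@Lb.fp (nat_lit 9) t1786)))))))))))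
noncomputable def l6880 : Lb := (@Lb.d (nat_lit 64) (nat_lit 2) (nat_lit 578) (@Lb.g g9 (@Lb.g g10 (@Lb.g g7 (@Lb.r r1418 (@Lb.r r97 (@Lb.d (nat_lit 278) (nat_lit 10) (nat_lit 41) (@Lb.t (@Lb.fp (nat_lit 9) t1787)))))))))
noncomputable def l6881 : Lb := (@Lb.d (nat_lit 97) (nat_lit 514) (nat_lit 4) (@Lb.g g8 (@Lb.g g9 (@Lb.g g10 (@Lb.g g11 (@Lb.r r680 (@Lb.r r2731 (@Lb.r r2666 (@Lb.r r1561 (@Lb.r r1540 (@Lb.d (nat_lit 522) (nat_lit 137) (nat_lit 401) (@Lb.fp (nat_lit 9) t1788))))))))))))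
noncomputable def l6882 : Lb := (@Lb.r r21 (@Lb.r r70 (@Lb.d (nat_lit 388) (nat_lit 0) (nat_lit 256) (@Lb.g g4 (@Lb.g g7 (@Lb.r r101 (@Lb.r r2450 (@Lb.d (nat_lit 1) (nat_lit 129) (nat_lit 66) (@Lb.fm (nat_lit 3) t1789)))))))))
noncomputable def l6883 : Lb := (@Lb.d (nat_lit 529) (nat_lit 256) (nat_lit 34) (@Lb.r r24 (@Lb.r r101 (@Lb.r r2403 (@Lb.g g6 (@Lb.d (nat_lit 0) (nat_lit 4) (nat_lit 1) (@Lb.t (@Lb.fm (nat_lit 3) t233))))))))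
noncomputable def l6884 : Lb := (@Lb.r r82 (@Lb.d (nat_lit 34) (nat_lit 0) (nat_lit 136) (@Lb.g g8 (@Lb.g g9 (@Lb.g g11 (@Lb.r r617 (@Lb.r r150 (@Lb.r r356 (@Lb.r r395 (@Lb.d (nat_lit 128) (nat_lit 41) (nat_lit 129) (@Lb.t (@Lb.fm (nat_lit 9) t98))))))))))))
noncomputable def l6885 : Lb := (@Lb.d (nat_lit 134) (nat_lit 546) (nat_lit 132) (@Lb.g g8 (@Lb.g g9 (@Lb.g g10 (@Lb.g g11 (@Lb.r r1387 (@Lb.r r2442 (@Lb.r r101 (@Lb.r r1156 (@Lb.d (nat_lit 276) (nat_lit 105) (nat_lit 89) (@Lb.fp (nat_lit 9) t644)))))))))))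
noncomputable def l6886 : Lb := (@Lb.d (nat_lit 146) (nat_lit 514) (nat_lit 74) (@Lb.g g8 (@Lb.g g9 (@Lb.g g10 (@Lb.g g11 (@Lb.r r683 (@Lb.r r2410 (@Lb.r r1561 (@Lb.r r1540 (@Lb.d (nat_lit 393) (nat_lit 153) (nat_lit 5) (@Lb.fm (nat_lit 9) t531)))))))))))
noncomputable def l6887 : Lb := (@Lb.d (nat_lit 146) (nat_lit 2) (nat_lit 74) (@Lb.g g8 (@Lb.g g9 (@Lb.g g10 (@Lb.g g11 (@Lb.r r683 (@Lb.r r2410 (@Lb.r r1561 (@Lb.r r1540 (@Lb.d (nat_lit 388) (nat_lit 152) (nat_lit 5) (@Lb.fm (nat_lit 9) t531)))))))))))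
noncomputable def l6888 : Lb := (@Lb.d (nat_lit 2) (nat_lit 0) (nat_lit 128) (@Lb.g g8 (@Lb.g g9 (@Lb.g g11 (@Lb.r r406 (@Lb.r r1643 (@Lb.r r1633 (@Lb.r r24 (@Lb.d (nat_lit 265) (nat_lit 153) (nat_lit 66) (@Lb.t (@Lb.fm (nat_lit 9) t1741)))))))))))
noncomputable def l6889 : Lb := (@Lb.r r82 (@Lb.d (nat_lit 2) (nat_lit 256) (nat_lit 128) (@Lb.g g8 (@Lb.g g9 (@Lb.g g11 (@Lb.r r547 (@Lb.r r386 (@Lb.r r344 (@Lb.r r549 (@Lb.d (nat_lit 41) (nat_lit 2) (nat_lit 70) (@Lb.t (@Lb.fm (nat_lit 9) t792))))))))))))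
noncomputable def l6890 : Lb := (@Lb.r r275 (@Lb.d (nat_lit 66) (nat_lit 514) (nat_lit 2) (@Lb.g g8 (@Lb.g g5 (@Lb.g g10 (@Lb.r r359 (@Lb.r r678 (@Lb.r r340 (@Lb.d (nat_lit 84) (nat_lit 20) (nat_lit 150) (@Lb.t (@Lb.fm (nat_lit 9) t1790)))))))))))
noncomputable def l6891 : Lb := (@Lb.d (nat_lit 2) (nat_lit 258) (nat_lit 2) (@Lb.g g8 (@Lb.g g9 (@Lb.g g10 (@Lb.r r2411 (@Lb.r r386 (@Lb.r r97 (@Lb.r r24 (@Lb.d (nat_lit 266) (nat_lit 9) (nat_lit 100) (@Lb.t (@Lb.fp (nat_lit 9) t221)))))))))))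
noncomputable def l6892 : Lb := (@Lb.d (nat_lit 658) (nat_lit 358) (nat_lit 0) (@Lb.r r2632 (@Lb.r r1297 (@Lb.r r2379 (@Lb.g g10 (@Lb.g g4 (@Lb.d (nat_lit 96) (nat_lit 4) (nat_lit 21) (@Lb.r r145 (@Lb.fm (nat_lit 3) t1791)))))))))
noncomputable def l6893 : Lb := (@Lb.r r21 (@Lb.d (nat_lit 129) (nat_lit 256) (nat_lit 130) (@Lb.g g8 (@Lb.g g10 (@Lb.g g11 (@Lb.r r1176 (@Lb.r r677 (@Lb.r r1443 (@Lb.r r98 (@Lb.d (nat_lit 0) (nat_lit 148) (nat_lit 261) (@Lb.t (@Lb.fm (nat_lit 9) t739))))))))))))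
noncomputable def l6894 : Lb := (@Lb.d (nat_lit 34) (nat_lit 534) (nat_lit 666) (@Lb.r r24 (@Lb.r r665 (@Lb.r r2410 (@Lb.g g11 (@Lb.g g6 (@Lb.g g5 (@Lb.g g4 (@Lb.d (nat_lit 0) (nat_lit 42) (nat_lit 389) (@Lb.fp (nat_lit 9) t1792))))))))))
noncomputable def l6895 : Lb := (@Lb.d (nat_lit 2) (nat_lit 258) (nat_lit 130) (@Lb.g g8 (@Lb.g g9 (@Lb.g g10 (@Lb.g g11 (@Lb.r r1443 (@Lb.r r2089 (@Lb.r r1608 (@Lb.r r1126 (@Lb.d (nat_lit 277) (nat_lit 21) (nat_lit 358) (@Lb.fp (nat_lit 9) t776)))))))))))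
noncomputable def l6896 : Lb := (@Lb.r r21 (@Lb.r r70 (@Lb.r r263 (@Lb.d (nat_lit 2) (nat_lit 512) (nat_lit 0) (@Lb.g g8 (@Lb.r r267 (@Lb.r r74 (@Lb.r r25 (@Lb.d (nat_lit 273) (nat_lit 0) (nat_lit 16) (@Lb.t (@Lb.fp (nat_lit 3) t1793)))))))))))
noncomputable def l6897 : Lb := (@Lb.d (nat_lit 288) (nat_lit 0) (nat_lit 34) (@Lb.r r24 (@Lb.r r2197 (@Lb.r r386 (@Lb.r r2403 (@Lb.g g7 (@Lb.g g5 (@Lb.d (nat_lit 0) (nat_lit 34) (nat_lit 64) (@Lb.r r98 (@Lb.fm (nat_lit 3) t475))))))))))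
noncomputable def l6898 : Lb := (@Lb.d (nat_lit 548) (nat_lit 6) (nat_lit 68) (@Lb.r r24 (@Lb.r r82 (@Lb.r r421 (@Lb.r r1563 (@Lb.g g7 (@Lb.g g6 (@Lb.g g5 (@Lb.d (nat_lit 0) (nat_lit 10) (nat_lit 128) (@Lb.t (@Lb.fm (nat_lit 9) t1794)))))))))))
noncomputable def l6899 : Lb := (@Lb.d (nat_lit 512) (nat_lit 512) (nat_lit 16) (@Lb.r r24 (@Lb.r r101 (@Lb.r r402 (@Lb.r r1379 (@Lb.g g11 (@Lb.g g6 (@Lb.fm (nat_lit 3) t1795))))))))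
noncomputable def l6900 : Lb := (@Lb.d (nat_lit 517) (nat_lit 6) (nat_lit 152) (@Lb.r r24 (@Lb.r r97 (@Lb.r r386 (@Lb.r r1431 (@Lb.g g6 (@Lb.g g5 (@Lb.g g4 (@Lb.d (nat_lit 1) (nat_lit 1) (nat_lit 1) (@Lb.t (@Lb.fm (nat_lit 9) t1367)))))))))))
noncomputable def l6901 : Lb := (@Lb.d (nat_lit 40) (nat_lit 514) (nat_lit 130) (@Lb.g g9 (@Lb.g g10 (@Lb.g g11 (@Lb.r r2695 (@Lb.r r1352 (@Lb.r r2390 (@Lb.r r1425 (@Lb.d (nat_lit 133) (nat_lit 129) (nat_lit 330) (@Lb.t (@Lb.fm (nat_lit 9) t1255)))))))))))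
noncomputable def l6902 : Lb := (@Lb.d (nat_lit 101) (nat_lit 518) (nat_lit 680) (@Lb.r r24 (@Lb.r r97 (@Lb.r r386 (@Lb.r r1431 (@Lb.g g6 (@Lb.g g5 (@Lb.g g4 (@Lb.d (nat_lit 1) (nat_lit 1) (nat_lit 1) (@Lb.t (@Lb.fm (nat_lit 9) t908)))))))))))
noncomputable def l6903 : Lb := (@Lb.d (nat_lit 2) (nat_lit 2) (nat_lit 128) (@Lb.g g8 (@Lb.g g9 (@Lb.g g10 (@Lb.g g11 (@Lb.r r681 (@Lb.r r427 (@Lb.r r404 (@Lb.r r422 (@Lb.d (nat_lit 101) (nat_lit 33) (nat_lit 146) (@Lb.fp (nat_lit 9) t1796)))))))))))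
noncomputable def l6904 : Lb := (@Lb.r r21 (@Lb.r r70 (@Lb.r r263 (@Lb.g g8 (@Lb.r r267 (@Lb.r r74 (@Lb.r r25 (@Lb.d (nat_lit 2) (nat_lit 261) (nat_lit 1) (@Lb.t (@Lb.fp (nat_lit 3) t1599))))))))))
noncomputable def l6905 : Lb := (@Lb.d (nat_lit 128) (nat_lit 38) (nat_lit 64) (@Lb.g g8 (@Lb.g g9 (@Lb.g g10 (@Lb.g g11 (@Lb.r r683 (@Lb.r r1386 (@Lb.r r1305 (@Lb.r r516 (@Lb.d (nat_lit 521) (nat_lit 105) (nat_lit 25) (@Lb.fm (nat_lit 9) t1797)))))))))))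
noncomputable def l6906 : Lb := (@Lb.d (nat_lit 129) (nat_lit 260) (nat_lit 128) (@Lb.g g8 (@Lb.g g9 (@Lb.g g10 (@Lb.g g11 (@Lb.r r683 (@Lb.r r618 (@Lb.r r537 (@Lb.r r516 (@Lb.d (nat_lit 137) (nat_lit 9) (nat_lit 1) (@Lb.fm (nat_lit 9) t1798)))))))))))
noncomputable def l6907 : Lb := (@Lb.d (nat_lit 32) (nat_lit 256) (nat_lit 128) (@Lb.g g10 (@Lb.g g11 (@Lb.r r324 (@Lb.r r651 (@Lb.r r357 (@Lb.r r666 (@Lb.d (nat_lit 74) (nat_lit 42) (nat_lit 133) (@Lb.fp (nat_lit 3) t39)))))))))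
noncomputable def l6908 : Lb := (@Lb.d (nat_lit 521) (nat_lit 261) (nat_lit 1) (@Lb.r r97 (@Lb.r r402 (@Lb.r r2631 (@Lb.g g8 (@Lb.d (nat_lit 2) (nat_lit 0) (nat_lit 0) (@Lb.r r267 (@Lb.r r74 (@Lb.r r25 (@Lb.t (@Lb.fm (nat_lit 3) t1383)))))))))))
noncomputable def l6909 : Lb := (@Lb.r r21 (@Lb.r r70 (@Lb.d (nat_lit 0) (nat_lit 512) (nat_lit 128) (@Lb.g g8 (@Lb.g g11 (@Lb.r r583 (@Lb.r r650 (@Lb.r r601 (@Lb.r r580 (@Lb.d (nat_lit 2) (nat_lit 5) (nat_lit 133) (@Lb.fm (nat_lit 3) t1599)))))))))))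
noncomputable def l6910 : Lb := (@Lb.d (nat_lit 34) (nat_lit 0) (nat_lit 0) (@Lb.g g8 (@Lb.r r1173 (@Lb.r r150 (@Lb.r r356 (@Lb.r r1291 (@Lb.d (nat_lit 2) (nat_lit 41) (nat_lit 166) (@Lb.t (@Lb.fm (nat_lit 3) t322)))))))))
noncomputable def l6911 : Lb := (@Lb.d (nat_lit 2) (nat_lit 265) (nat_lit 73) (@Lb.g g8 (@Lb.g g9 (@Lb.g g10 (@Lb.g g11 (@Lb.r r2723 (@Lb.r r2217 (@Lb.r r424 (@Lb.r r106 (@Lb.d (nat_lit 677) (nat_lit 0) (nat_lit 346) (@Lb.fm (nat_lit 9) t525)))))))))))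
noncomputable def l6912 : Lb := (@Lb.r r21 (@Lb.r r70 (@Lb.d (nat_lit 512) (nat_lit 512) (nat_lit 128) (@Lb.g g4 (@Lb.g g11 (@Lb.r r583 (@Lb.r r74 (@Lb.r r25 (@Lb.d (nat_lit 256) (nat_lit 0) (nat_lit 129) (@Lb.fm (nat_lit 3) t1799))))))))))
noncomputable def l6913 : Lb := (@Lb.r r21 (@Lb.r r70 (@Lb.d (nat_lit 292) (nat_lit 512) (nat_lit 128) (@Lb.g g4 (@Lb.g g11 (@Lb.r r583 (@Lb.r r74 (@Lb.r r25 (@Lb.d (nat_lit 536) (nat_lit 0) (nat_lit 129) (@Lb.fm (nat_lit 3) t1435))))))))))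
noncomputable def l6914 : Lb := (@Lb.r r21 (@Lb.d (nat_lit 138) (nat_lit 256) (nat_lit 130) (@Lb.g g8 (@Lb.g g10 (@Lb.g g11 (@Lb.r r1553 (@Lb.r r1435 (@Lb.r r386 (@Lb.r r88 (@Lb.d (nat_lit 281) (nat_lit 8) (nat_lit 521) (@Lb.t (@Lb.fm (nat_lit 9) t1800))))))))))))
noncomputable def l6915 : Lb := (@Lb.d (nat_lit 2) (nat_lit 2) (nat_lit 74) (@Lb.g g8 (@Lb.g g9 (@Lb.g g10 (@Lb.g g11 (@Lb.r r2723 (@Lb.r r2217 (@Lb.r r424 (@Lb.r r106 (@Lb.d (nat_lit 677) (nat_lit 0) (nat_lit 346) (@Lb.fm (nat_lit 9) t228)))))))))))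
noncomputable def l6916 : Lb := (@Lb.r r616 (@Lb.r r2665 (@Lb.r r2390 (@Lb.r r2475 (@Lb.r r1188 (@Lb.d (nat_lit 2) (nat_lit 517) (nat_lit 544) (@Lb.fp (nat_lit 1) t322)))))))
noncomputable def l6917 : Lb := (@Lb.r r21 (@Lb.d (nat_lit 138) (nat_lit 512) (nat_lit 130) (@Lb.g g8 (@Lb.g g10 (@Lb.g g11 (@Lb.r r1553 (@Lb.r r1435 (@Lb.r r386 (@Lb.r r88 (@Lb.d (nat_lit 281) (nat_lit 6) (nat_lit 520) (@Lb.t (@Lb.fm (nat_lit 9) t1801))))))))))))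
noncomputable def l6918 : Lb := (@Lb.r r21 (@Lb.r r70 (@Lb.g g4 (@Lb.r r1412 (@Lb.r r1291 (@Lb.r r402 (@Lb.r r97 (@Lb.d (nat_lit 0) (nat_lit 0) (nat_lit 512) (@Lb.t (@Lb.fm (nat_lit 3) t739))))))))))
noncomputable def l6919 : Lb := (@Lb.r r616 (@Lb.r r2665 (@Lb.r r2390 (@Lb.r r2475 (@Lb.r r1188 (@Lb.d (nat_lit 2) (nat_lit 0) (nat_lit 546) (@Lb.fp (nat_lit 1) t322)))))))
noncomputable def l6920 : Lb := (@Lb.d (nat_lit 0) (nat_lit 2) (nat_lit 0) (@Lb.g g8 (@Lb.g g9 (@Lb.r r40 (@Lb.r r1065 (@Lb.r r1060 (@Lb.d (nat_lit 514) (nat_lit 0) (nat_lit 0) (@Lb.fm (nat_lit 3) t2))))))))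
noncomputable def l6921 : Lb := (@Lb.d (nat_lit 10) (nat_lit 261) (nat_lit 74) (@Lb.g g8 (@Lb.g g9 (@Lb.g g10 (@Lb.g g11 (@Lb.r r1707 (@Lb.r r680 (@Lb.r r362 (@Lb.r r2665 (@Lb.r r2084 (@Lb.d (nat_lit 682) (nat_lit 97) (nat_lit 640) (@Lb.fm (nat_lit 9) t68))))))))))))
noncomputable def l6922 : Lb := (@Lb.r r275 (@Lb.d (nat_lit 10) (nat_lit 5) (nat_lit 0) (@Lb.g g8 (@Lb.g g9 (@Lb.g g10 (@Lb.r r424 (@Lb.r r1543 (@Lb.r r1378 (@Lb.r r609 (@Lb.d (nat_lit 10) (nat_lit 25) (nat_lit 640) (@Lb.t (@Lb.fp (nat_lit 9) t68))))))))))))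
noncomputable def l6923 : Lb := (@Lb.d (nat_lit 10) (nat_lit 517) (nat_lit 128) (@Lb.g g8 (@Lb.g g9 (@Lb.g g10 (@Lb.g g11 (@Lb.r r1707 (@Lb.r r680 (@Lb.r r362 (@Lb.r r2665 (@Lb.r r2084 (@Lb.d (nat_lit 672) (nat_lit 98) (nat_lit 640) (@Lb.fm (nat_lit 9) t68))))))))))))
noncomputable def l6924 : Lb := (@Lb.d (nat_lit 0) (nat_lit 2) (nat_lit 0) (@Lb.g g8 (@Lb.g g9 (@Lb.r r25 (@Lb.d (nat_lit 0) (nat_lit 64) (nat_lit 0) (@Lb.fm (nat_lit 3) t2))))))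
noncomputable def l6925 : Lb := (@Lb.d (nat_lit 137) (nat_lit 256) (nat_lit 0) (@Lb.g g8 (@Lb.r r678 (@Lb.r r661 (@Lb.r r1431 (@Lb.r r2664 (@Lb.d (nat_lit 358) (nat_lit 24) (nat_lit 393) (@Lb.t (@Lb.fp (nat_lit 3) t44)))))))))
noncomputable def l6926 : Lb := (@Lb.d (nat_lit 0) (nat_lit 514) (nat_lit 130) (@Lb.g g9 (@Lb.g g10 (@Lb.g g11 (@Lb.r r1671 (@Lb.r r2376 (@Lb.r r1158 (@Lb.r r97 (@Lb.d (nat_lit 289) (nat_lit 138) (nat_lit 1) (@Lb.t (@Lb.fm (nat_lit 9) t791)))))))))))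
noncomputable def l6927 : Lb := (@Lb.d (nat_lit 9) (nat_lit 513) (nat_lit 0) (@Lb.g g8 (@Lb.g g9 (@Lb.r r25 (@Lb.d (nat_lit 4) (nat_lit 2) (nat_lit 0) (@Lb.fm (nat_lit 3) t2))))))
noncomputable def l6928 : Lb := (@Lb.d (nat_lit 1) (nat_lit 514) (nat_lit 66) (@Lb.g g8 (@Lb.g g9 (@Lb.g g10 (@Lb.g g11 (@Lb.r r427 (@Lb.r r106 (@Lb.r r25 (@Lb.d (nat_lit 2) (nat_lit 73) (nat_lit 137) (@Lb.fp (nat_lit 9) t51))))))))))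
noncomputable def l6929 : Lb := (@Lb.d (nat_lit 1) (nat_lit 2) (nat_lit 130) (@Lb.g g8 (@Lb.g g9 (@Lb.g g10 (@Lb.g g11 (@Lb.r r427 (@Lb.r r106 (@Lb.r r25 (@Lb.d (nat_lit 2) (nat_lit 73) (nat_lit 2) (@Lb.fp (nat_lit 9) t51))))))))))
noncomputable def l6930 : Lb := (@Lb.d (nat_lit 129) (nat_lit 8) (nat_lit 0) (@Lb.g g8 (@Lb.g g9 (@Lb.r r646 (@Lb.r r2727 (@Lb.r r2593 (@Lb.r r104 (@Lb.d (nat_lit 33) (nat_lit 25) (nat_lit 17) (@Lb.fm (nat_lit 3) t44)))))))))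
noncomputable def l6931 : Lb := (@Lb.r r323 (@Lb.d (nat_lit 1) (nat_lit 2) (nat_lit 2) (@Lb.g g8 (@Lb.g g9 (@Lb.g g10 (@Lb.r r362 (@Lb.r r387 (@Lb.r r25 (@Lb.d (nat_lit 2) (nat_lit 97) (nat_lit 74) (@Lb.t (@Lb.fm (nat_lit 9) t51)))))))))))
noncomputable def l6932 : Lb := (@Lb.d (nat_lit 1) (nat_lit 264) (nat_lit 72) (@Lb.g g8 (@Lb.g g9 (@Lb.g g11 (@Lb.r r134 (@Lb.r r328 (@Lb.r r1303 (@Lb.r r2593 (@Lb.d (nat_lit 9) (nat_lit 25) (nat_lit 17) (@Lb.t (@Lb.fp (nat_lit 9) t44)))))))))))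
noncomputable def l6933 : Lb := (@Lb.d (nat_lit 129) (nat_lit 520) (nat_lit 0) (@Lb.g g8 (@Lb.g g9 (@Lb.r r646 (@Lb.r r2727 (@Lb.r r2593 (@Lb.r r104 (@Lb.d (nat_lit 38) (nat_lit 26) (nat_lit 17) (@Lb.fm (nat_lit 3) t44)))))))))
noncomputable def l6934 : Lb := (@Lb.d (nat_lit 10) (nat_lit 0) (nat_lit 0) (@Lb.g g8 (@Lb.r r149 (@Lb.r r2148 (@Lb.d (nat_lit 538) (nat_lit 74) (nat_lit 18) (@Lb.t (@Lb.fp (nat_lit 3) t743)))))))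
noncomputable def l6935 : Lb := (@Lb.d (nat_lit 136) (nat_lit 10) (nat_lit 0) (@Lb.g g8 (@Lb.g g9 (@Lb.r r407 (@Lb.r r82 (@Lb.r r161 (@Lb.r r584 (@Lb.d (nat_lit 98) (nat_lit 6) (nat_lit 68) (@Lb.fm (nat_lit 3) t2)))))))))
noncomputable def l6936 : Lb := (@Lb.r r21 (@Lb.d (nat_lit 170) (nat_lit 512) (nat_lit 0) (@Lb.g g8 (@Lb.r r614 (@Lb.r r597 (@Lb.r r279 (@Lb.r r552 (@Lb.d (nat_lit 70) (nat_lit 18) (nat_lit 65) (@Lb.t (@Lb.fm (nat_lit 3) t2))))))))))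
noncomputable def l6937 : Lb := (@Lb.r r323 (@Lb.d (nat_lit 9) (nat_lit 290) (nat_lit 2) (@Lb.g g8 (@Lb.g g9 (@Lb.g g10 (@Lb.r r1367 (@Lb.r r2634 (@Lb.r r2600 (@Lb.r r153 (@Lb.d (nat_lit 24) (nat_lit 22) (nat_lit 297) (@Lb.t (@Lb.fp (nat_lit 9) t591))))))))))))
noncomputable def l6938 : Lb := (@Lb.d (nat_lit 2) (nat_lit 514) (nat_lit 130) (@Lb.g g8 (@Lb.g g9 (@Lb.g g10 (@Lb.g g11 (@Lb.r r427 (@Lb.r r297 (@Lb.r r136 (@Lb.r r154 (@Lb.r r132 (@Lb.d (nat_lit 4) (nat_lit 20) (nat_lit 70) (@Lb.fm (nat_lit 9) t119))))))))))))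
noncomputable def l6939 : Lb := (@Lb.r r323 (@Lb.d (nat_lit 2) (nat_lit 290) (nat_lit 2) (@Lb.g g8 (@Lb.g g9 (@Lb.g g10 (@Lb.r r599 (@Lb.r r74 (@Lb.r r296 (@Lb.r r409 (@Lb.d (nat_lit 152) (nat_lit 34) (nat_lit 70) (@Lb.t (@Lb.fm (nat_lit 9) t119))))))))))))
noncomputable def l6940 : Lb := (@Lb.r r323 (@Lb.d (nat_lit 8) (nat_lit 258) (nat_lit 2) (@Lb.g g9 (@Lb.g g10 (@Lb.r r102 (@Lb.r r404 (@Lb.r r299 (@Lb.r r289 (@Lb.d (nat_lit 1) (nat_lit 32) (nat_lit 146) (@Lb.fp (nat_lit 3) t356))))))))))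
noncomputable def l6941 : Lb := (@Lb.r r323 (@Lb.d (nat_lit 2) (nat_lit 546) (nat_lit 2) (@Lb.g g8 (@Lb.g g9 (@Lb.g g10 (@Lb.r r599 (@Lb.r r74 (@Lb.r r296 (@Lb.r r409 (@Lb.d (nat_lit 152) (nat_lit 150) (nat_lit 329) (@Lb.t (@Lb.fm (nat_lit 9) t119))))))))))))
noncomputable def l6942 : Lb := (@Lb.d (nat_lit 149) (nat_lit 257) (nat_lit 134) (@Lb.r r68 (@Lb.r r273 (@Lb.r r330 (@Lb.g g7 (@Lb.g g5 (@Lb.g g4 (@Lb.d (nat_lit 17) (nat_lit 0) (nat_lit 72) (@Lb.t (@Lb.fp (nat_lit 9) t355))))))))))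
noncomputable def l6943 : Lb := (@Lb.r r323 (@Lb.d (nat_lit 128) (nat_lit 256) (nat_lit 2) (@Lb.g g8 (@Lb.g g10 (@Lb.r r346 (@Lb.r r661 (@Lb.r r1431 (@Lb.r r2632 (@Lb.d (nat_lit 352) (nat_lit 134) (nat_lit 64) (@Lb.fp (nat_lit 3) t71))))))))))
noncomputable def l6944 : Lb := (@Lb.r r323 (@Lb.d (nat_lit 2) (nat_lit 2) (nat_lit 2) (@Lb.g g8 (@Lb.g g9 (@Lb.g g10 (@Lb.r r401 (@Lb.r r299 (@Lb.r r392 (@Lb.r r74 (@Lb.d (nat_lit 38) (nat_lit 8) (nat_lit 74) (@Lb.t (@Lb.fp (nat_lit 9) t797))))))))))))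
noncomputable def l6945 : Lb := (@Lb.r r323 (@Lb.d (nat_lit 2) (nat_lit 546) (nat_lit 2) (@Lb.g g8 (@Lb.g g9 (@Lb.g g10 (@Lb.r r599 (@Lb.r r74 (@Lb.r r296 (@Lb.r r409 (@Lb.d (nat_lit 150) (nat_lit 33) (nat_lit 70) (@Lb.t (@Lb.fm (nat_lit 9) t119))))))))))))
noncomputable def l6946 : Lb := (@Lb.d (nat_lit 89) (nat_lit 538) (nat_lit 89) (@Lb.r r360 (@Lb.r r81 (@Lb.r r2647 (@Lb.g g6 (@Lb.g g5 (@Lb.g g4 (@Lb.d (nat_lit 65) (nat_lit 6) (nat_lit 18) (@Lb.r r387 (@Lb.t (@Lb.fp (nat_lit 9) t1802)))))))))))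
noncomputable def l6947 : Lb := (@Lb.d (nat_lit 34) (nat_lit 261) (nat_lit 0) (@Lb.g g8 (@Lb.g g5 (@Lb.r r100 (@Lb.r r101 (@Lb.fm (nat_lit 3) t1803))))))
noncomputable def l6948 : Lb := (@Lb.g g4 (@Lb.r r664 (@Lb.r r667 (@Lb.r r1690 (@Lb.r r1365 (@Lb.r r1700 (@Lb.t (@Lb.fp (nat_lit 3) t322))))))))
noncomputable def l6949 : Lb := (@Lb.d (nat_lit 129) (nat_lit 258) (nat_lit 66) (@Lb.g g8 (@Lb.g g9 (@Lb.g g10 (@Lb.g g11 (@Lb.r r2666 (@Lb.r r612 (@Lb.r r1319 (@Lb.r r1045 (@Lb.r r2084 (@Lb.d (nat_lit 4) (nat_lit 32) (nat_lit 549) (@Lb.fp (nat_lit 9) t1444))))))))))))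
noncomputable def l6950 : Lb := (@Lb.g g7 (@Lb.r r664 (@Lb.r r667 (@Lb.r r1690 (@Lb.r r1365 (@Lb.r r1700 (@Lb.t (@Lb.fp (nat_lit 3) t322))))))))
noncomputable def l6951 : Lb := (@Lb.d (nat_lit 2) (nat_lit 514) (nat_lit 64) (@Lb.g g8 (@Lb.g g9 (@Lb.g g10 (@Lb.g g11 (@Lb.r r2339 (@Lb.r r1610 (@Lb.r r25 (@Lb.d (nat_lit 132) (nat_lit 40) (nat_lit 386) (@Lb.fp (nat_lit 9) t1804))))))))))
noncomputable def l6952 : Lb := (@Lb.r r70 (@Lb.d (nat_lit 0) (nat_lit 2) (nat_lit 128) (@Lb.g g8 (@Lb.g g9 (@Lb.g g11 (@Lb.r r555 (@Lb.r r1410 (@Lb.r r145 (@Lb.r r612 (@Lb.d (nat_lit 265) (nat_lit 132) (nat_lit 1) (@Lb.t (@Lb.fm (nat_lit 9) t152))))))))))))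
noncomputable def l6953 : Lb := (@Lb.d (nat_lit 144) (nat_lit 258) (nat_lit 64) (@Lb.g g8 (@Lb.g g9 (@Lb.g g10 (@Lb.g g11 (@Lb.r r2454 (@Lb.r r2725 (@Lb.r r1364 (@Lb.r r2459 (@Lb.d (nat_lit 153) (nat_lit 85) (nat_lit 356) (@Lb.fp (nat_lit 9) t1444)))))))))))
noncomputable def l6954 : Lb := (@Lb.d (nat_lit 2) (nat_lit 0) (nat_lit 128) (@Lb.g g8 (@Lb.g g9 (@Lb.g g10 (@Lb.g g11 (@Lb.r r164 (@Lb.r r2325 (@Lb.r r555 (@Lb.r r1430 (@Lb.r r548 (@Lb.d (nat_lit 292) (nat_lit 8) (nat_lit 1) (@Lb.fp (nat_lit 9) t1805))))))))))))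
noncomputable def l6955 : Lb := (@Lb.d (nat_lit 2) (nat_lit 4) (nat_lit 128) (@Lb.g g8 (@Lb.g g9 (@Lb.g g10 (@Lb.g g11 (@Lb.r r1643 (@Lb.r r578 (@Lb.r r1449 (@Lb.r r36 (@Lb.d (nat_lit 10) (nat_lit 66) (nat_lit 137) (@Lb.fp (nat_lit 9) t1806)))))))))))
noncomputable def l6956 : Lb := (@Lb.d (nat_lit 0) (nat_lit 264) (nat_lit 66) (@Lb.g g10 (@Lb.g g11 (@Lb.r r341 (@Lb.r r2724 (@Lb.r r2727 (@Lb.r r1638 (@Lb.d (nat_lit 410) (nat_lit 169) (nat_lit 393) (@Lb.fp (nat_lit 3) t1807)))))))))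
noncomputable def l6957 : Lb := (@Lb.d (nat_lit 2) (nat_lit 516) (nat_lit 128) (@Lb.g g8 (@Lb.g g9 (@Lb.g g10 (@Lb.g g11 (@Lb.r r1643 (@Lb.r r578 (@Lb.r r1449 (@Lb.r r36 (@Lb.d (nat_lit 0) (nat_lit 64) (nat_lit 137) (@Lb.fp (nat_lit 9) t1806)))))))))))
noncomputable def l6958 : Lb := (@Lb.d (nat_lit 2) (nat_lit 258) (nat_lit 64) (@Lb.g g8 (@Lb.g g9 (@Lb.g g10 (@Lb.g g11 (@Lb.r r618 (@Lb.r r25 (@Lb.d (nat_lit 9) (nat_lit 25) (nat_lit 130) (@Lb.fp (nat_lit 9) t71)))))))))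
noncomputable def l6959 : Lb := (@Lb.r r21 (@Lb.d (nat_lit 6) (nat_lit 8) (nat_lit 130) (@Lb.g g8 (@Lb.g g10 (@Lb.g g11 (@Lb.r r395 (@Lb.r r101 (@Lb.r r410 (@Lb.d (nat_lit 9) (nat_lit 26) (nat_lit 68) (@Lb.t (@Lb.fm (nat_lit 9) t61)))))))))))
noncomputable def l6960 : Lb := (@Lb.d (nat_lit 164) (nat_lit 273) (nat_lit 101) (@Lb.r r596 (@Lb.r r535 (@Lb.r r353 (@Lb.g g7 (@Lb.g g6 (@Lb.g g4 (@Lb.d (nat_lit 5) (nat_lit 16) (nat_lit 5) (@Lb.r r145 (@Lb.t (@Lb.fp (nat_lit 9) t98)))))))))))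
noncomputable def l6961 : Lb := (@Lb.d (nat_lit 1) (nat_lit 602) (nat_lit 80) (@Lb.r r37 (@Lb.r r280 (@Lb.r r2375 (@Lb.g g7 (@Lb.g g6 (@Lb.g g4 (@Lb.d (nat_lit 98) (nat_lit 0) (nat_lit 149) (@Lb.r r145 (@Lb.t (@Lb.fp (nat_lit 9) t50)))))))))))
noncomputable def l6962 : Lb := (@Lb.r r21 (@Lb.r r70 (@Lb.d (nat_lit 129) (nat_lit 512) (nat_lit 64) (@Lb.g g8 (@Lb.g g11 (@Lb.r r263 (@Lb.r r330 (@Lb.r r281 (@Lb.r r260 (@Lb.d (nat_lit 130) (nat_lit 0) (nat_lit 0) (@Lb.fm (nat_lit 3) t68)))))))))))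
noncomputable def l6963 : Lb := (@Lb.r r323 (@Lb.d (nat_lit 0) (nat_lit 545) (nat_lit 2) (@Lb.g g8 (@Lb.g g9 (@Lb.g g10 (@Lb.r r2647 (@Lb.r r74 (@Lb.r r1320 (@Lb.r r1433 (@Lb.d (nat_lit 664) (nat_lit 22) (nat_lit 681) (@Lb.t (@Lb.fm (nat_lit 9) t51))))))))))))
noncomputable def l6964 : Lb := (@Lb.r r21 (@Lb.d (nat_lit 144) (nat_lit 256) (nat_lit 64) (@Lb.g g8 (@Lb.g g10 (@Lb.g g11 (@Lb.r r651 (@Lb.r r357 (@Lb.r r154 (@Lb.r r516 (@Lb.d (nat_lit 136) (nat_lit 37) (nat_lit 137) (@Lb.t (@Lb.fp (nat_lit 9) t264))))))))))))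
noncomputable def l6965 : Lb := (@Lb.g g8 (@Lb.r r402 (@Lb.r r101 (@Lb.r r24 (@Lb.d (nat_lit 65) (nat_lit 512) (nat_lit 0) (@Lb.t (@Lb.fm (nat_lit 3) t145)))))))
noncomputable def l6966 : Lb := (@Lb.r r263 (@Lb.d (nat_lit 17) (nat_lit 514) (nat_lit 0) (@Lb.g g8 (@Lb.g g9 (@Lb.g g10 (@Lb.r r1689 (@Lb.r r1691 (@Lb.r r2634 (@Lb.r r648 (@Lb.d (nat_lit 89) (nat_lit 2) (nat_lit 152) (@Lb.t (@Lb.fm (nat_lit 9) t329))))))))))))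
noncomputable def l6967 : Lb := (@Lb.d (nat_lit 4) (nat_lit 292) (nat_lit 5) (@Lb.g g8 (@Lb.g g9 (@Lb.g g10 (@Lb.g g11 (@Lb.r r2723 (@Lb.r r610 (@Lb.r r529 (@Lb.d (nat_lit 2) (nat_lit 41) (nat_lit 657) (@Lb.fm (nat_lit 9) t941))))))))))
noncomputable def l6968 : Lb := (@Lb.d (nat_lit 2) (nat_lit 548) (nat_lit 5) (@Lb.g g8 (@Lb.g g9 (@Lb.g g10 (@Lb.g g11 (@Lb.r r682 (@Lb.r r676 (@Lb.r r551 (@Lb.r r533 (@Lb.r r36 (@Lb.d (nat_lit 137) (nat_lit 1) (nat_lit 5) (@Lb.fp (nat_lit 9) t264))))))))))))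
noncomputable def l6969 : Lb := (@Lb.d (nat_lit 2) (nat_lit 0) (nat_lit 72) (@Lb.r r402 (@Lb.r r101 (@Lb.g g8 (@Lb.d (nat_lit 9) (nat_lit 0) (nat_lit 0) (@Lb.t (@Lb.fp (nat_lit 3) t765)))))))
noncomputable def l6970 : Lb := (@Lb.d (nat_lit 132) (nat_lit 36) (nat_lit 128) (@Lb.g g9 (@Lb.g g11 (@Lb.r r2468 (@Lb.r r2438 (@Lb.r r2411 (@Lb.d (nat_lit 546) (nat_lit 66) (nat_lit 612) (@Lb.fp (nat_lit 3) t47))))))))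
noncomputable def l6971 : Lb := (@Lb.r r21 (@Lb.d (nat_lit 130) (nat_lit 256) (nat_lit 132) (@Lb.g g8 (@Lb.g g10 (@Lb.g g11 (@Lb.r r651 (@Lb.r r357 (@Lb.r r154 (@Lb.r r132 (@Lb.d (nat_lit 88) (nat_lit 25) (nat_lit 8) (@Lb.t (@Lb.fp (nat_lit 9) t68))))))))))))
noncomputable def l6972 : Lb := (@Lb.g g6 (@Lb.r r2343 (@Lb.r r1096 (@Lb.r r2646 (@Lb.r r289 (@Lb.d (nat_lit 0) (nat_lit 130) (nat_lit 154) (@Lb.t (@Lb.fm (nat_lit 3) t1040))))))))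
noncomputable def l6973 : Lb := (@Lb.d (nat_lit 104) (nat_lit 288) (nat_lit 72) (@Lb.g g8 (@Lb.g g5 (@Lb.g g6 (@Lb.g g11 (@Lb.r r276 (@Lb.r r587 (@Lb.r r516 (@Lb.d (nat_lit 42) (nat_lit 38) (nat_lit 137) (@Lb.fm (nat_lit 9) t841))))))))))
noncomputable def l6974 : Lb := (@Lb.d (nat_lit 8) (nat_lit 265) (nat_lit 68) (@Lb.g g9 (@Lb.g g7 (@Lb.r r24 (@Lb.d (nat_lit 9) (nat_lit 130) (nat_lit 69) (@Lb.fm (nat_lit 3) t253))))))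
noncomputable def l6975 : Lb := (@Lb.d (nat_lit 137) (nat_lit 2) (nat_lit 384) (@Lb.r r1096 (@Lb.r r363 (@Lb.r r289 (@Lb.r r2150 (@Lb.g g11 (@Lb.t (@Lb.fp (nat_lit 3) t1040))))))))
noncomputable def l6976 : Lb := (@Lb.d (nat_lit 8) (nat_lit 265) (nat_lit 0) (@Lb.g g9 (@Lb.r r24 (@Lb.d (nat_lit 9) (nat_lit 130) (nat_lit 2) (@Lb.t (@Lb.fm (nat_lit 3) t253))))))
noncomputable def l6977 : Lb := (@Lb.d (nat_lit 104) (nat_lit 33) (nat_lit 72) (@Lb.g g8 (@Lb.g g9 (@Lb.g g6 (@Lb.g g11 (@Lb.r r644 (@Lb.r r343 (@Lb.r r2601 (@Lb.r r548 (@Lb.d (nat_lit 657) (nat_lit 8) (nat_lit 649) (@Lb.fp (nat_lit 9) t197)))))))))))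
noncomputable def l6978 : Lb := (@Lb.d (nat_lit 65) (nat_lit 128) (nat_lit 384) (@Lb.r r1048 (@Lb.r r2149 (@Lb.r r2386 (@Lb.g g7 (@Lb.g g6 (@Lb.g g5 (@Lb.g g4 (@Lb.d (nat_lit 96) (nat_lit 0) (nat_lit 646) (@Lb.fp (nat_lit 9) t1808))))))))))
noncomputable def l6979 : Lb := (@Lb.g g9 (@Lb.d (nat_lit 10) (nat_lit 514) (nat_lit 0) (@Lb.t (@Lb.fp (nat_lit 3) t2))))
noncomputable def l6980 : Lb := (@Lb.d (nat_lit 4) (nat_lit 257) (nat_lit 0) (@Lb.g g9 (@Lb.d (nat_lit 8) (nat_lit 2) (nat_lit 0) (@Lb.t (@Lb.fp (nat_lit 3) t2)))))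
noncomputable def l6981 : Lb := (@Lb.d (nat_lit 8) (nat_lit 516) (nat_lit 128) (@Lb.g g9 (@Lb.g g10 (@Lb.g g11 (@Lb.r r586 (@Lb.r r584 (@Lb.r r299 (@Lb.r r289 (@Lb.d (nat_lit 9) (nat_lit 137) (nat_lit 2) (@Lb.t (@Lb.fm (nat_lit 9) t501)))))))))))
noncomputable def l6982 : Lb := (@Lb.d (nat_lit 0) (nat_lit 257) (nat_lit 130) (@Lb.g g9 (@Lb.g g10 (@Lb.g g11 (@Lb.r r586 (@Lb.r r584 (@Lb.r r667 (@Lb.r r337 (@Lb.d (nat_lit 2) (nat_lit 40) (nat_lit 130) (@Lb.t (@Lb.fm (nat_lit 9) t51)))))))))))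
noncomputable def l6983 : Lb := (@Lb.d (nat_lit 9) (nat_lit 258) (nat_lit 130) (@Lb.g g8 (@Lb.g g9 (@Lb.g g10 (@Lb.g g11 (@Lb.r r2459 (@Lb.r r2193 (@Lb.r r2646 (@Lb.r r1416 (@Lb.d (nat_lit 152) (nat_lit 9) (nat_lit 393) (@Lb.fm (nat_lit 9) t221)))))))))))
noncomputable def l6984 : Lb := (@Lb.d (nat_lit 1) (nat_lit 256) (nat_lit 130) (@Lb.g g4 (@Lb.g g9 (@Lb.g g10 (@Lb.g g11 (@Lb.r r419 (@Lb.r r401 (@Lb.r r90 (@Lb.r r145 (@Lb.d (nat_lit 618) (nat_lit 9) (nat_lit 546) (@Lb.fm (nat_lit 9) t221)))))))))))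
noncomputable def l6985 : Lb := (@Lb.d (nat_lit 2) (nat_lit 258) (nat_lit 130) (@Lb.g g8 (@Lb.g g9 (@Lb.g g10 (@Lb.g g11 (@Lb.r r2666 (@Lb.r r579 (@Lb.r r25 (@Lb.d (nat_lit 9) (nat_lit 102) (nat_lit 672) (@Lb.fm (nat_lit 9) t295))))))))))
noncomputable def l6986 : Lb := (@Lb.d (nat_lit 4) (nat_lit 258) (nat_lit 72) (@Lb.g g9 (@Lb.g g11 (@Lb.r r1410 (@Lb.r r579 (@Lb.r r8 (@Lb.d (nat_lit 1) (nat_lit 146) (nat_lit 297) (@Lb.fp (nat_lit 3) t210))))))))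
noncomputable def l6987 : Lb := (@Lb.d (nat_lit 272) (nat_lit 406) (nat_lit 594) (@Lb.r r2337 (@Lb.r r70 (@Lb.r r1623 (@Lb.g g6 (@Lb.g g5 (@Lb.g g4 (@Lb.d (nat_lit 1) (nat_lit 18) (nat_lit 1) (@Lb.r r387 (@Lb.t (@Lb.fp (nat_lit 9) t1809)))))))))))
noncomputable def l6988 : Lb := (@Lb.d (nat_lit 586) (nat_lit 86) (nat_lit 82) (@Lb.r r8 (@Lb.r r297 (@Lb.r r599 (@Lb.g g6 (@Lb.g g5 (@Lb.d (nat_lit 0) (nat_lit 18) (nat_lit 33) (@Lb.r r387 (@Lb.fp (nat_lit 3) t283)))))))))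
noncomputable def l6989 : Lb := (@Lb.d (nat_lit 132) (nat_lit 261) (nat_lit 128) (@Lb.g g8 (@Lb.g g9 (@Lb.g g10 (@Lb.g g11 (@Lb.r r2690 (@Lb.r r2455 (@Lb.r r97 (@Lb.r r2584 (@Lb.d (nat_lit 617) (nat_lit 169) (nat_lit 417) (@Lb.fm (nat_lit 9) t1144)))))))))))
noncomputable def l6990 : Lb := (@Lb.r r82 (@Lb.d (nat_lit 132) (nat_lit 512) (nat_lit 128) (@Lb.g g8 (@Lb.g g9 (@Lb.g g11 (@Lb.r r1697 (@Lb.r r1447 (@Lb.r r98 (@Lb.r r584 (@Lb.d (nat_lit 105) (nat_lit 4) (nat_lit 136) (@Lb.t (@Lb.fm (nat_lit 9) t1167))))))))))))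
noncomputable def l6991 : Lb := (@Lb.d (nat_lit 42) (nat_lit 0) (nat_lit 64) (@Lb.g g8 (@Lb.g g11 (@Lb.r r1703 (@Lb.r r614 (@Lb.r r1637 (@Lb.r r1428 (@Lb.d (nat_lit 358) (nat_lit 80) (nat_lit 392) (@Lb.fm (nat_lit 3) t386)))))))))
noncomputable def l6992 : Lb := (@Lb.r r21 (@Lb.r r70 (@Lb.d (nat_lit 656) (nat_lit 0) (nat_lit 64) (@Lb.g g4 (@Lb.g g11 (@Lb.r r519 (@Lb.r r402 (@Lb.r r97 (@Lb.d (nat_lit 68) (nat_lit 128) (nat_lit 576) (@Lb.fm (nat_lit 3) t1515))))))))))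
noncomputable def l6993 : Lb := (@Lb.r r21 (@Lb.d (nat_lit 2) (nat_lit 0) (nat_lit 130) (@Lb.g g8 (@Lb.g g10 (@Lb.g g11 (@Lb.r r395 (@Lb.r r97 (@Lb.r r410 (@Lb.r r408 (@Lb.d (nat_lit 146) (nat_lit 152) (nat_lit 137) (@Lb.t (@Lb.fp (nat_lit 9) t1231))))))))))))
noncomputable def l6994 : Lb := (@Lb.r r359 (@Lb.d (nat_lit 4) (nat_lit 386) (nat_lit 2) (@Lb.g g8 (@Lb.g g5 (@Lb.g g10 (@Lb.r r2627 (@Lb.r r90 (@Lb.r r1112 (@Lb.d (nat_lit 552) (nat_lit 68) (nat_lit 18) (@Lb.t (@Lb.fp (nat_lit 9) t1810)))))))))))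
noncomputable def l6995 : Lb := (@Lb.d (nat_lit 2) (nat_lit 258) (nat_lit 66) (@Lb.g g8 (@Lb.g g9 (@Lb.g g10 (@Lb.g g11 (@Lb.r r292 (@Lb.r r283 (@Lb.r r2705 (@Lb.r r154 (@Lb.r r132 (@Lb.d (nat_lit 649) (nat_lit 134) (nat_lit 338) (@Lb.fm (nat_lit 9) t1811))))))))))))
noncomputable def l6996 : Lb := (@Lb.r r323 (@Lb.d (nat_lit 40) (nat_lit 4) (nat_lit 0) (@Lb.g g9 (@Lb.g g10 (@Lb.r r584 (@Lb.r r299 (@Lb.r r289 (@Lb.d (nat_lit 10) (nat_lit 137) (nat_lit 1) (@Lb.fm (nat_lit 3) t501)))))))))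
noncomputable def l6997 : Lb := (@Lb.d (nat_lit 618) (nat_lit 550) (nat_lit 20) (@Lb.r r2661 (@Lb.r r2659 (@Lb.g g7 (@Lb.g g10 (@Lb.g g5 (@Lb.d (nat_lit 0) (nat_lit 1) (nat_lit 81) (@Lb.r r36 (@Lb.t (@Lb.fm (nat_lit 9) t820))))))))))
noncomputable def l6998 : Lb := (@Lb.r r21 (@Lb.r r70 (@Lb.d (nat_lit 129) (nat_lit 0) (nat_lit 64) (@Lb.g g8 (@Lb.g g11 (@Lb.r r1303 (@Lb.r r2410 (@Lb.r r1573 (@Lb.r r2344 (@Lb.d (nat_lit 518) (nat_lit 34) (nat_lit 512) (@Lb.fm (nat_lit 3) t68)))))))))))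
noncomputable def l6999 : Lb := (@Lb.d (nat_lit 0) (nat_lit 258) (nat_lit 2) (@Lb.g g9 (@Lb.g g10 (@Lb.r r2723 (@Lb.r r1634 (@Lb.r r1553 (@Lb.r r36 (@Lb.d (nat_lit 328) (nat_lit 152) (nat_lit 673) (@Lb.fp (nat_lit 3) t820)))))))))
noncomputable def l7000 : Lb := (@Lb.d (nat_lit 33) (nat_lit 260) (nat_lit 128) (@Lb.g g8 (@Lb.g g9 (@Lb.g g10 (@Lb.g g11 (@Lb.r r1667 (@Lb.r r2345 (@Lb.r r360 (@Lb.r r2630 (@Lb.r r2180 (@Lb.d (nat_lit 385) (nat_lit 74) (nat_lit 617) (@Lb.fm (nat_lit 9) t1812))))))))))))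
noncomputable def l7001 : Lb := (@Lb.d (nat_lit 133) (nat_lit 134) (nat_lit 673) (@Lb.r r1317 (@Lb.r r603 (@Lb.r r516 (@Lb.r r2150 (@Lb.g g7 (@Lb.d (nat_lit 64) (nat_lit 0) (nat_lit 64) (@Lb.t (@Lb.fm (nat_lit 3) t219)))))))))
noncomputable def l7002 : Lb := (@Lb.d (nat_lit 5) (nat_lit 646) (nat_lit 32) (@Lb.r r1284 (@Lb.r r2587 (@Lb.r r293 (@Lb.r r600 (@Lb.g g7 (@Lb.g g10 (@Lb.g g5 (@Lb.g g4 (@Lb.d (nat_lit 1) (nat_lit 0) (nat_lit 81) (@Lb.fp (nat_lit 9) t1813)))))))))))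
noncomputable def l7003 : Lb := (@Lb.d (nat_lit 385) (nat_lit 133) (nat_lit 353) (@Lb.r r1544 (@Lb.r r2178 (@Lb.r r1451 (@Lb.r r2457 (@Lb.g g4 (@Lb.d (nat_lit 70) (nat_lit 0) (nat_lit 0) (@Lb.t (@Lb.fm (nat_lit 3) t307)))))))))
noncomputable def l7004 : Lb := (@Lb.d (nat_lit 0) (nat_lit 2) (nat_lit 2) (@Lb.g g9 (@Lb.g g10 (@Lb.r r2723 (@Lb.r r1634 (@Lb.r r1553 (@Lb.r r36 (@Lb.d (nat_lit 321) (nat_lit 153) (nat_lit 673) (@Lb.fp (nat_lit 3) t820)))))))))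
noncomputable def l7005 : Lb := (@Lb.d (nat_lit 10) (nat_lit 512) (nat_lit 0) (@Lb.g g4 (@Lb.r r153 (@Lb.r r1176 (@Lb.d (nat_lit 293) (nat_lit 73) (nat_lit 170) (@Lb.t (@Lb.fp (nat_lit 3) t87)))))))
noncomputable def l7006 : Lb := (@Lb.r r70 (@Lb.d (nat_lit 386) (nat_lit 266) (nat_lit 0) (@Lb.g g8 (@Lb.g g9 (@Lb.r r662 (@Lb.r r2731 (@Lb.r r2601 (@Lb.d (nat_lit 330) (nat_lit 160) (nat_lit 682) (@Lb.fp (nat_lit 3) t898)))))))))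
noncomputable def l7007 : Lb := (@Lb.d (nat_lit 32) (nat_lit 264) (nat_lit 74) (@Lb.g g10 (@Lb.g g11 (@Lb.r r2409 (@Lb.r r360 (@Lb.r r342 (@Lb.d (nat_lit 86) (nat_lit 162) (nat_lit 10) (@Lb.fm (nat_lit 3) t1814))))))))
noncomputable def l7008 : Lb := (@Lb.d (nat_lit 138) (nat_lit 0) (nat_lit 0) (@Lb.g g8 (@Lb.r r678 (@Lb.r r661 (@Lb.r r1431 (@Lb.r r2664 (@Lb.d (nat_lit 353) (nat_lit 26) (nat_lit 258) (@Lb.t (@Lb.fp (nat_lit 3) t71)))))))))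
noncomputable def l7009 : Lb := (@Lb.d (nat_lit 0) (nat_lit 516) (nat_lit 74) (@Lb.g g8 (@Lb.g g9 (@Lb.g g10 (@Lb.g g11 (@Lb.r r619 (@Lb.r r1610 (@Lb.r r660 (@Lb.r r425 (@Lb.r r2084 (@Lb.d (nat_lit 280) (nat_lit 168) (nat_lit 674) (@Lb.fp (nat_lit 9) t629))))))))))))
noncomputable def l7010 : Lb := (@Lb.r r21 (@Lb.d (nat_lit 18) (nat_lit 512) (nat_lit 74) (@Lb.g g4 (@Lb.g g10 (@Lb.g g11 (@Lb.r r1687 (@Lb.r r2401 (@Lb.r r1170 (@Lb.d (nat_lit 537) (nat_lit 68) (nat_lit 33) (@Lb.t (@Lb.fm (nat_lit 9) t151)))))))))))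
noncomputable def l7011 : Lb := (@Lb.r r21 (@Lb.d (nat_lit 17) (nat_lit 512) (nat_lit 74) (@Lb.g g8 (@Lb.g g10 (@Lb.g g11 (@Lb.r r603 (@Lb.r r2401 (@Lb.r r1170 (@Lb.r r1128 (@Lb.d (nat_lit 256) (nat_lit 68) (nat_lit 33) (@Lb.t (@Lb.fm (nat_lit 9) t597))))))))))))
noncomputable def l7012 : Lb := (@Lb.d (nat_lit 128) (nat_lit 513) (nat_lit 0) (@Lb.g g8 (@Lb.g g9 (@Lb.r r662 (@Lb.r r361 (@Lb.r r1431 (@Lb.r r2664 (@Lb.d (nat_lit 353) (nat_lit 26) (nat_lit 642) (@Lb.fp (nat_lit 3) t71)))))))))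
noncomputable def l7013 : Lb := (@Lb.d (nat_lit 0) (nat_lit 0) (nat_lit 74) (@Lb.g g10 (@Lb.g g11 (@Lb.r r2707 (@Lb.r r2341 (@Lb.r r2136 (@Lb.r r1158 (@Lb.d (nat_lit 521) (nat_lit 4) (nat_lit 17) (@Lb.fm (nat_lit 3) t669)))))))))
noncomputable def l7014 : Lb := (@Lb.r r260 (@Lb.d (nat_lit 136) (nat_lit 512) (nat_lit 386) (@Lb.g g9 (@Lb.g g10 (@Lb.g g11 (@Lb.r r2328 (@Lb.r r1621 (@Lb.r r98 (@Lb.d (nat_lit 16) (nat_lit 42) (nat_lit 354) (@Lb.t (@Lb.fp (nat_lit 9) t1815)))))))))))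
noncomputable def l7015 : Lb := (@Lb.r r279 (@Lb.d (nat_lit 165) (nat_lit 256) (nat_lit 2) (@Lb.g g8 (@Lb.g g9 (@Lb.g g10 (@Lb.r r2146 (@Lb.r r677 (@Lb.r r2407 (@Lb.r r2644 (@Lb.d (nat_lit 662) (nat_lit 166) (nat_lit 554) (@Lb.t (@Lb.fp (nat_lit 9) t1816))))))))))))
noncomputable def l7016 : Lb := (@Lb.r r323 (@Lb.d (nat_lit 2) (nat_lit 258) (nat_lit 1) (@Lb.g g8 (@Lb.g g9 (@Lb.g g6 (@Lb.r r387 (@Lb.r r25 (@Lb.d (nat_lit 9) (nat_lit 73) (nat_lit 18) (@Lb.t (@Lb.fp (nat_lit 9) t21))))))))))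
noncomputable def l7017 : Lb := (@Lb.r r82 (@Lb.r r275 (@Lb.d (nat_lit 2) (nat_lit 130) (nat_lit 0) (@Lb.g g8 (@Lb.g g5 (@Lb.r r2315 (@Lb.r r2122 (@Lb.d (nat_lit 262) (nat_lit 130) (nat_lit 0) (@Lb.fp (nat_lit 3) t594)))))))))
noncomputable def l7018 : Lb := (@Lb.d (nat_lit 517) (nat_lit 2) (nat_lit 0) (@Lb.r r24 (@Lb.r r2138 (@Lb.r r2331 (@Lb.g g5 (@Lb.d (nat_lit 4) (nat_lit 1) (nat_lit 0) (@Lb.t (@Lb.fp (nat_lit 3) t116))))))))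
noncomputable def l7019 : Lb := (@Lb.d (nat_lit 4) (nat_lit 0) (nat_lit 130) (@Lb.g g8 (@Lb.g g9 (@Lb.g g10 (@Lb.g g11 (@Lb.r r424 (@Lb.r r599 (@Lb.r r341 (@Lb.r r170 (@Lb.r r148 (@Lb.d (nat_lit 265) (nat_lit 9) (nat_lit 162) (@Lb.fm (nat_lit 9) t319))))))))))))
noncomputable def l7020 : Lb := (@Lb.d (nat_lit 642) (nat_lit 514) (nat_lit 657) (@Lb.r r386 (@Lb.r r2567 (@Lb.r r1368 (@Lb.g g7 (@Lb.g g9 (@Lb.d (nat_lit 8) (nat_lit 128) (nat_lit 128) (@Lb.r r98 (@Lb.r r36 (@Lb.fm (nat_lit 3) t1817))))))))))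
noncomputable def l7021 : Lb := (@Lb.d (nat_lit 0) (nat_lit 544) (nat_lit 64) (@Lb.g g11 (@Lb.r r1684 (@Lb.r r345 (@Lb.r r1638 (@Lb.r r1635 (@Lb.d (nat_lit 0) (nat_lit 41) (nat_lit 410) (@Lb.t (@Lb.fm (nat_lit 3) t1818)))))))))
noncomputable def l7022 : Lb := (@Lb.d (nat_lit 128) (nat_lit 550) (nat_lit 10) (@Lb.g g8 (@Lb.g g9 (@Lb.g g10 (@Lb.g g11 (@Lb.r r683 (@Lb.r r601 (@Lb.r r2658 (@Lb.r r516 (@Lb.d (nat_lit 289) (nat_lit 88) (nat_lit 618) (@Lb.fm (nat_lit 9) t606)))))))))))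
noncomputable def l7023 : Lb := (@Lb.r r323 (@Lb.d (nat_lit 32) (nat_lit 514) (nat_lit 2) (@Lb.g g8 (@Lb.g g9 (@Lb.g g10 (@Lb.r r1689 (@Lb.r r1563 (@Lb.r r2634 (@Lb.r r1540 (@Lb.d (nat_lit 258) (nat_lit 0) (nat_lit 401) (@Lb.t (@Lb.fp (nat_lit 9) t1039))))))))))))
noncomputable def l7024 : Lb := (@Lb.d (nat_lit 129) (nat_lit 514) (nat_lit 4) (@Lb.g g8 (@Lb.g g9 (@Lb.g g10 (@Lb.g g11 (@Lb.r r419 (@Lb.r r164 (@Lb.r r2469 (@Lb.r r2150 (@Lb.r r1156 (@Lb.d (nat_lit 42) (nat_lit 97) (nat_lit 616) (@Lb.fm (nat_lit 9) t168))))))))))))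
noncomputable def l7025 : Lb := (@Lb.d (nat_lit 6) (nat_lit 257) (nat_lit 0) (@Lb.r r21 (@Lb.r r86 (@Lb.r r279 (@Lb.g g5 (@Lb.g g4 (@Lb.r r291 (@Lb.r r98 (@Lb.fm (nat_lit 3) t1398)))))))))
noncomputable def l7026 : Lb := (@Lb.r r323 (@Lb.d (nat_lit 0) (nat_lit 0) (nat_lit 2) (@Lb.g g9 (@Lb.g g10 (@Lb.r r102 (@Lb.r r404 (@Lb.r r619 (@Lb.r r609 (@Lb.d (nat_lit 10) (nat_lit 16) (nat_lit 64) (@Lb.fm (nat_lit 3) t71))))))))))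
noncomputable def l7027 : Lb := (@Lb.d (nat_lit 0) (nat_lit 256) (nat_lit 130) (@Lb.g g9 (@Lb.g g10 (@Lb.g g11 (@Lb.r r614 (@Lb.r r404 (@Lb.r r619 (@Lb.r r609 (@Lb.d (nat_lit 2) (nat_lit 18) (nat_lit 64) (@Lb.t (@Lb.fm (nat_lit 9) t71)))))))))))
noncomputable def l7028 : Lb := (@Lb.d (nat_lit 0) (nat_lit 256) (nat_lit 130) (@Lb.g g8 (@Lb.g g9 (@Lb.g g10 (@Lb.g g11 (@Lb.r r2731 (@Lb.r r2601 (@Lb.r r616 (@Lb.r r2118 (@Lb.r r1156 (@Lb.d (nat_lit 2) (nat_lit 25) (nat_lit 297) (@Lb.fm (nat_lit 9) t591))))))))))))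
noncomputable def l7029 : Lb := (@Lb.d (nat_lit 2) (nat_lit 294) (nat_lit 5) (@Lb.g g8 (@Lb.g g9 (@Lb.g g10 (@Lb.g g11 (@Lb.r r1706 (@Lb.r r676 (@Lb.r r551 (@Lb.r r1577 (@Lb.r r20 (@Lb.d (nat_lit 326) (nat_lit 34) (nat_lit 586) (@Lb.fm (nat_lit 9) t125))))))))))))
noncomputable def l7030 : Lb := (@Lb.d (nat_lit 2) (nat_lit 514) (nat_lit 137) (@Lb.g g8 (@Lb.g g9 (@Lb.g g10 (@Lb.g g11 (@Lb.r r2666 (@Lb.r r25 (@Lb.d (nat_lit 9) (nat_lit 169) (nat_lit 550) (@Lb.fp (nat_lit 9) t334)))))))))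
noncomputable def l7031 : Lb := (@Lb.r r580 (@Lb.r r1447 (@Lb.r r2178 (@Lb.r r409 (@Lb.r r20 (@Lb.d (nat_lit 256) (nat_lit 256) (nat_lit 32) (@Lb.fm (nat_lit 1) t646)))))))
noncomputable def l7032 : Lb := (@Lb.d (nat_lit 0) (nat_lit 512) (nat_lit 64) (@Lb.g g7 (@Lb.d (nat_lit 320) (nat_lit 0) (nat_lit 645) (@Lb.t (@Lb.fm (nat_lit 3) t716)))))
noncomputable def l7033 : Lb := (@Lb.r r2631 (@Lb.d (nat_lit 256) (nat_lit 512) (nat_lit 1) (@Lb.fm (nat_lit 1) t1819)))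
noncomputable def l7034 : Lb := (@Lb.d (nat_lit 33) (nat_lit 258) (nat_lit 130) (@Lb.g g8 (@Lb.g g9 (@Lb.g g10 (@Lb.g g11 (@Lb.r r599 (@Lb.r r682 (@Lb.r r2649 (@Lb.r r2628 (@Lb.d (nat_lit 665) (nat_lit 137) (nat_lit 612) (@Lb.fp (nat_lit 9) t474)))))))))))
noncomputable def l7035 : Lb := (@Lb.d (nat_lit 256) (nat_lit 513) (nat_lit 65) (@Lb.r r1416 (@Lb.r r1386 (@Lb.r r1369 (@Lb.g g7 (@Lb.g g6 (@Lb.d (nat_lit 64) (nat_lit 32) (nat_lit 577) (@Lb.fp (nat_lit 3) t1101))))))))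
noncomputable def l7036 : Lb := (@Lb.d (nat_lit 294) (nat_lit 64) (nat_lit 64) (@Lb.r r154 (@Lb.r r101 (@Lb.r r1304 (@Lb.g g7 (@Lb.d (nat_lit 64) (nat_lit 32) (nat_lit 576) (@Lb.t (@Lb.fp (nat_lit 3) t472))))))))
noncomputable def l7037 : Lb := (@Lb.d (nat_lit 264) (nat_lit 2) (nat_lit 65) (@Lb.r r1416 (@Lb.r r81 (@Lb.r r162 (@Lb.r r145 (@Lb.g g7 (@Lb.d (nat_lit 64) (nat_lit 32) (nat_lit 576) (@Lb.t (@Lb.fm (nat_lit 3) t1101)))))))))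
noncomputable def l7038 : Lb := (@Lb.d (nat_lit 2) (nat_lit 2) (nat_lit 128) (@Lb.g g8 (@Lb.g g9 (@Lb.g g10 (@Lb.g g11 (@Lb.r r1707 (@Lb.r r162 (@Lb.r r145 (@Lb.r r1608 (@Lb.d (nat_lit 97) (nat_lit 4) (nat_lit 664) (@Lb.fm (nat_lit 9) t1082)))))))))))
noncomputable def l7039 : Lb := (@Lb.d (nat_lit 6) (nat_lit 682) (nat_lit 386) (@Lb.r r21 (@Lb.r r2370 (@Lb.r r1687 (@Lb.r r642 (@Lb.g g7 (@Lb.g g6 (@Lb.g g5 (@Lb.g g4 (@Lb.d (nat_lit 1) (nat_lit 1) (nat_lit 65) (@Lb.fp (nat_lit 9) t1820)))))))))))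
noncomputable def l7040 : Lb := (@Lb.d (nat_lit 2) (nat_lit 26) (nat_lit 518) (@Lb.g g8 (@Lb.g g9 (@Lb.g g10 (@Lb.g g7 (@Lb.r r1666 (@Lb.r r609 (@Lb.r r24 (@Lb.d (nat_lit 10) (nat_lit 25) (nat_lit 97) (@Lb.fp (nat_lit 9) t41))))))))))
noncomputable def l7041 : Lb := (@Lb.r r402 (@Lb.r r101 (@Lb.r r24 (@Lb.d (nat_lit 256) (nat_lit 0) (nat_lit 512) (@Lb.fm (nat_lit 1) t145)))))
noncomputable def l7042 : Lb := (@Lb.d (nat_lit 672) (nat_lit 340) (nat_lit 617) (@Lb.r r1381 (@Lb.r r1691 (@Lb.r r1624 (@Lb.r r1190 (@Lb.g g6 (@Lb.g g5 (@Lb.d (nat_lit 4) (nat_lit 16) (nat_lit 1) (@Lb.fm (nat_lit 3) t71)))))))))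
noncomputable def l7043 : Lb := (@Lb.d (nat_lit 146) (nat_lit 644) (nat_lit 362) (@Lb.r r1610 (@Lb.r r2667 (@Lb.r r661 (@Lb.g g7 (@Lb.g g6 (@Lb.g g8 (@Lb.d (nat_lit 354) (nat_lit 4) (nat_lit 128) (@Lb.r r25 (@Lb.t (@Lb.fp (nat_lit 9) t329)))))))))))
noncomputable def l7044 : Lb := (@Lb.d (nat_lit 10) (nat_lit 68) (nat_lit 33) (@Lb.r r1105 (@Lb.r r2214 (@Lb.r r1368 (@Lb.r r1575 (@Lb.g g5 (@Lb.r r98 (@Lb.t (@Lb.fp (nat_lit 3) t71)))))))))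
noncomputable def l7045 : Lb := (@Lb.d (nat_lit 136) (nat_lit 514) (nat_lit 130) (@Lb.g g9 (@Lb.g g10 (@Lb.g g11 (@Lb.r r618 (@Lb.r r24 (@Lb.r r405 (@Lb.r r2663 (@Lb.d (nat_lit 518) (nat_lit 89) (nat_lit 594) (@Lb.t (@Lb.fm (nat_lit 9) t312)))))))))))
noncomputable def l7046 : Lb := (@Lb.r r21 (@Lb.r r70 (@Lb.r r263 (@Lb.d (nat_lit 2) (nat_lit 256) (nat_lit 0) (@Lb.g g8 (@Lb.r r267 (@Lb.r r74 (@Lb.r r25 (@Lb.d (nat_lit 5) (nat_lit 64) (nat_lit 0) (@Lb.t (@Lb.fp (nat_lit 3) t755)))))))))))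
noncomputable def l7047 : Lb := (@Lb.d (nat_lit 16) (nat_lit 0) (nat_lit 1) (@Lb.r r24 (@Lb.r r101 (@Lb.r r323 (@Lb.g g10 (@Lb.g g5 (@Lb.d (nat_lit 0) (nat_lit 5) (nat_lit 0) (@Lb.r r387 (@Lb.fp (nat_lit 3) t51)))))))))
noncomputable def l7048 : Lb := (@Lb.d (nat_lit 2) (nat_lit 512) (nat_lit 66) (@Lb.g g8 (@Lb.g g10 (@Lb.g g7 (@Lb.r r386 (@Lb.r r2145 (@Lb.d (nat_lit 292) (nat_lit 8) (nat_lit 24) (@Lb.t (@Lb.fp (nat_lit 9) t97)))))))))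
noncomputable def l7049 : Lb := (@Lb.r r323 (@Lb.d (nat_lit 129) (nat_lit 264) (nat_lit 2) (@Lb.g g8 (@Lb.g g10 (@Lb.r r279 (@Lb.r r97 (@Lb.r r146 (@Lb.r r600 (@Lb.d (nat_lit 104) (nat_lit 36) (nat_lit 68) (@Lb.fp (nat_lit 3) t45))))))))))
noncomputable def l7050 : Lb := (@Lb.d (nat_lit 586) (nat_lit 529) (nat_lit 66) (@Lb.r r1307 (@Lb.r r2661 (@Lb.g g7 (@Lb.g g10 (@Lb.d (nat_lit 0) (nat_lit 8) (nat_lit 164) (@Lb.r r145 (@Lb.r r2564 (@Lb.fm (nat_lit 3) t312)))))))))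
noncomputable def l7051 : Lb := (@Lb.d (nat_lit 1) (nat_lit 520) (nat_lit 130) (@Lb.g g8 (@Lb.g g10 (@Lb.g g11 (@Lb.r r353 (@Lb.r r667 (@Lb.r r644 (@Lb.r r134 (@Lb.d (nat_lit 41) (nat_lit 134) (nat_lit 68) (@Lb.t (@Lb.fp (nat_lit 9) t45)))))))))))
noncomputable def l7052 : Lb := (@Lb.d (nat_lit 2) (nat_lit 514) (nat_lit 130) (@Lb.g g8 (@Lb.g g9 (@Lb.g g10 (@Lb.g g11 (@Lb.r r427 (@Lb.r r297 (@Lb.r r136 (@Lb.r r154 (@Lb.r r132 (@Lb.d (nat_lit 9) (nat_lit 137) (nat_lit 329) (@Lb.fm (nat_lit 9) t119))))))))))))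
noncomputable def l7053 : Lb := (@Lb.d (nat_lit 8) (nat_lit 514) (nat_lit 130) (@Lb.g g9 (@Lb.g g10 (@Lb.g g11 (@Lb.r r614 (@Lb.r r404 (@Lb.r r299 (@Lb.r r289 (@Lb.d (nat_lit 9) (nat_lit 161) (nat_lit 146) (@Lb.t (@Lb.fp (nat_lit 9) t356)))))))))))
noncomputable def l7054 : Lb := (@Lb.d (nat_lit 0) (nat_lit 514) (nat_lit 130) (@Lb.g g8 (@Lb.g g9 (@Lb.g g10 (@Lb.g g11 (@Lb.r r427 (@Lb.r r420 (@Lb.r r102 (@Lb.r r97 (@Lb.r r36 (@Lb.d (nat_lit 9) (nat_lit 137) (nat_lit 17) (@Lb.fm (nat_lit 9) t356))))))))))))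
noncomputable def l7055 : Lb := (@Lb.d (nat_lit 2) (nat_lit 256) (nat_lit 0) (@Lb.g g8 (@Lb.r r2315 (@Lb.r r2122 (@Lb.r r2073 (@Lb.d (nat_lit 1) (nat_lit 0) (nat_lit 0) (@Lb.t (@Lb.fp (nat_lit 3) t1155))))))))
noncomputable def l7056 : Lb := (@Lb.d (nat_lit 2) (nat_lit 512) (nat_lit 66) (@Lb.g g8 (@Lb.g g9 (@Lb.g g10 (@Lb.g g7 (@Lb.r r386 (@Lb.r r2073 (@Lb.d (nat_lit 33) (nat_lit 5) (nat_lit 42) (@Lb.fp (nat_lit 9) t382)))))))))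
noncomputable def l7057 : Lb := (@Lb.r r82 (@Lb.d (nat_lit 2) (nat_lit 258) (nat_lit 128) (@Lb.g g8 (@Lb.g g9 (@Lb.g g11 (@Lb.r r2659 (@Lb.r r386 (@Lb.r r1109 (@Lb.r r1124 (@Lb.d (nat_lit 616) (nat_lit 138) (nat_lit 576) (@Lb.t (@Lb.fm (nat_lit 9) t1821))))))))))))
noncomputable def l7058 : Lb := (@Lb.d (nat_lit 264) (nat_lit 166) (nat_lit 417) (@Lb.r r2663 (@Lb.r r601 (@Lb.r r24 (@Lb.r r342 (@Lb.g g7 (@Lb.g g6 (@Lb.g g5 (@Lb.d (nat_lit 68) (nat_lit 1) (nat_lit 65) (@Lb.t (@Lb.fp (nat_lit 9) t1758)))))))))))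
noncomputable def l7059 : Lb := (@Lb.d (nat_lit 0) (nat_lit 514) (nat_lit 130) (@Lb.g g9 (@Lb.g g10 (@Lb.g g11 (@Lb.r r1675 (@Lb.r r648 (@Lb.r r1194 (@Lb.r r425 (@Lb.r r2084 (@Lb.d (nat_lit 144) (nat_lit 98) (nat_lit 90) (@Lb.t (@Lb.fm (nat_lit 9) t1649))))))))))))
noncomputable def l7060 : Lb := (@Lb.d (nat_lit 0) (nat_lit 256) (nat_lit 128) (@Lb.g g10 (@Lb.g g11 (@Lb.r r1691 (@Lb.r r2401 (@Lb.r r1174 (@Lb.r r8 (@Lb.d (nat_lit 24) (nat_lit 74) (nat_lit 18) (@Lb.fm (nat_lit 3) t646)))))))))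
noncomputable def l7061 : Lb := (@Lb.d (nat_lit 0) (nat_lit 258) (nat_lit 130) (@Lb.g g8 (@Lb.g g9 (@Lb.g g10 (@Lb.g g11 (@Lb.r r2691 (@Lb.r r88 (@Lb.r r1173 (@Lb.r r1622 (@Lb.r r1188 (@Lb.d (nat_lit 640) (nat_lit 66) (nat_lit 362) (@Lb.fp (nat_lit 9) t992))))))))))))
noncomputable def l7062 : Lb := (@Lb.d (nat_lit 136) (nat_lit 512) (nat_lit 64) (@Lb.g g8 (@Lb.g g11 (@Lb.r r1307 (@Lb.r r2662 (@Lb.r r613 (@Lb.r r2452 (@Lb.d (nat_lit 614) (nat_lit 144) (nat_lit 648) (@Lb.fp (nat_lit 3) t927)))))))))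
noncomputable def l7063 : Lb := (@Lb.d (nat_lit 74) (nat_lit 0) (nat_lit 0) (@Lb.g g8 (@Lb.g g11 (@Lb.r r1307 (@Lb.r r1370 (@Lb.r r1685 (@Lb.r r1380 (@Lb.d (nat_lit 346) (nat_lit 106) (nat_lit 406) (@Lb.fm (nat_lit 3) t927)))))))))
noncomputable def l7064 : Lb := (@Lb.r r323 (@Lb.d (nat_lit 0) (nat_lit 546) (nat_lit 2) (@Lb.g g8 (@Lb.g g9 (@Lb.g g10 (@Lb.r r599 (@Lb.r r1702 (@Lb.r r1444 (@Lb.r r149 (@Lb.d (nat_lit 289) (nat_lit 166) (nat_lit 385) (@Lb.t (@Lb.fm (nat_lit 9) t1089))))))))))))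
noncomputable def l7065 : Lb := (@Lb.d (nat_lit 74) (nat_lit 512) (nat_lit 0) (@Lb.g g8 (@Lb.g g11 (@Lb.r r1307 (@Lb.r r1370 (@Lb.r r1685 (@Lb.r r1380 (@Lb.d (nat_lit 346) (nat_lit 106) (nat_lit 278) (@Lb.fm (nat_lit 3) t745)))))))))
noncomputable def l7066 : Lb := (@Lb.r r20 (@Lb.d (nat_lit 0) (nat_lit 9) (nat_lit 161) (@Lb.g g9 (@Lb.g g6 (@Lb.g g11 (@Lb.r r2659 (@Lb.r r2661 (@Lb.d (nat_lit 405) (nat_lit 25) (nat_lit 40) (@Lb.t (@Lb.fp (nat_lit 9) t1822))))))))))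
noncomputable def l7067 : Lb := (@Lb.d (nat_lit 514) (nat_lit 265) (nat_lit 0) (@Lb.r r24 (@Lb.r r386 (@Lb.r r2651 (@Lb.g g9 (@Lb.d (nat_lit 8) (nat_lit 1) (nat_lit 0) (@Lb.r r291 (@Lb.r r98 (@Lb.t (@Lb.fm (nat_lit 3) t405))))))))))
noncomputable def l7068 : Lb := (@Lb.d (nat_lit 0) (nat_lit 514) (nat_lit 130) (@Lb.g g9 (@Lb.g g10 (@Lb.g g11 (@Lb.r r2705 (@Lb.r r2587 (@Lb.r r386 (@Lb.r r2564 (@Lb.d (nat_lit 405) (nat_lit 146) (nat_lit 357) (@Lb.t (@Lb.fm (nat_lit 9) t1823)))))))))))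
noncomputable def l7069 : Lb := (@Lb.r r20 (@Lb.d (nat_lit 0) (nat_lit 521) (nat_lit 161) (@Lb.g g9 (@Lb.g g6 (@Lb.g g11 (@Lb.r r2659 (@Lb.r r2661 (@Lb.d (nat_lit 402) (nat_lit 153) (nat_lit 40) (@Lb.t (@Lb.fp (nat_lit 9) t1824))))))))))
noncomputable def l7070 : Lb := (@Lb.d (nat_lit 288) (nat_lit 522) (nat_lit 33) (@Lb.r r24 (@Lb.r r2197 (@Lb.r r386 (@Lb.r r2403 (@Lb.g g7 (@Lb.g g5 (@Lb.d (nat_lit 0) (nat_lit 34) (nat_lit 0) (@Lb.r r98 (@Lb.fm (nat_lit 3) t1825))))))))))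
noncomputable def l7071 : Lb := (@Lb.d (nat_lit 145) (nat_lit 521) (nat_lit 73) (@Lb.g g8 (@Lb.g g9 (@Lb.g g10 (@Lb.g g11 (@Lb.r r1706 (@Lb.r r1419 (@Lb.r r1553 (@Lb.r r420 (@Lb.d (nat_lit 85) (nat_lit 90) (nat_lit 602) (@Lb.fm (nat_lit 9) t1180)))))))))))
noncomputable def l7072 : Lb := (@Lb.d (nat_lit 2) (nat_lit 649) (nat_lit 0) (@Lb.r r24 (@Lb.r r386 (@Lb.r r1619 (@Lb.g g9 (@Lb.d (nat_lit 8) (nat_lit 1) (nat_lit 0) (@Lb.r r291 (@Lb.r r98 (@Lb.t (@Lb.fm (nat_lit 3) t1826))))))))))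
noncomputable def l7073 : Lb := (@Lb.d (nat_lit 145) (nat_lit 344) (nat_lit 518) (@Lb.r r277 (@Lb.r r519 (@Lb.r r264 (@Lb.g g7 (@Lb.g g10 (@Lb.d (nat_lit 80) (nat_lit 0) (nat_lit 66) (@Lb.fp (nat_lit 3) t825))))))))
noncomputable def l7074 : Lb := (@Lb.d (nat_lit 2) (nat_lit 514) (nat_lit 2) (@Lb.g g8 (@Lb.g g9 (@Lb.g g10 (@Lb.g g7 (@Lb.r r386 (@Lb.r r2657 (@Lb.r r24 (@Lb.d (nat_lit 10) (nat_lit 169) (nat_lit 421) (@Lb.fp (nat_lit 9) t1403))))))))))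
noncomputable def l7075 : Lb := (@Lb.d (nat_lit 2) (nat_lit 2) (nat_lit 66) (@Lb.g g8 (@Lb.g g9 (@Lb.g g10 (@Lb.g g11 (@Lb.r r1299 (@Lb.r r2705 (@Lb.r r356 (@Lb.r r154 (@Lb.r r132 (@Lb.d (nat_lit 128) (nat_lit 2) (nat_lit 330) (@Lb.fm (nat_lit 9) t284))))))))))))
noncomputable def l7076 : Lb := (@Lb.d (nat_lit 2) (nat_lit 258) (nat_lit 66) (@Lb.g g8 (@Lb.g g9 (@Lb.g g10 (@Lb.g g11 (@Lb.r r1299 (@Lb.r r2705 (@Lb.r r356 (@Lb.r r154 (@Lb.r r132 (@Lb.d (nat_lit 138) (nat_lit 1) (nat_lit 330) (@Lb.fm (nat_lit 9) t284))))))))))))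
noncomputable def l7077 : Lb := (@Lb.d (nat_lit 2) (nat_lit 514) (nat_lit 64) (@Lb.g g8 (@Lb.g g9 (@Lb.g g10 (@Lb.g g11 (@Lb.r r1194 (@Lb.r r424 (@Lb.r r279 (@Lb.r r1553 (@Lb.r r2084 (@Lb.d (nat_lit 1) (nat_lit 97) (nat_lit 586) (@Lb.fp (nat_lit 9) t51))))))))))))
noncomputable def l7078 : Lb := (@Lb.d (nat_lit 6) (nat_lit 82) (nat_lit 33) (@Lb.r r289 (@Lb.r r279 (@Lb.r r612 (@Lb.r r346 (@Lb.g g7 (@Lb.g g6 (@Lb.g g5 (@Lb.d (nat_lit 4) (nat_lit 1) (nat_lit 65) (@Lb.t (@Lb.fm (nat_lit 9) t51)))))))))))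
noncomputable def l7079 : Lb := (@Lb.r r21 (@Lb.d (nat_lit 2) (nat_lit 512) (nat_lit 2) (@Lb.g g8 (@Lb.g g10 (@Lb.g g7 (@Lb.r r386 (@Lb.r r1429 (@Lb.r r2632 (@Lb.d (nat_lit 657) (nat_lit 5) (nat_lit 421) (@Lb.t (@Lb.fp (nat_lit 9) t1403)))))))))))
noncomputable def l7080 : Lb := (@Lb.d (nat_lit 582) (nat_lit 166) (nat_lit 321) (@Lb.r r20 (@Lb.r r25 (@Lb.r r148 (@Lb.r r1622 (@Lb.g g11 (@Lb.g g6 (@Lb.g g5 (@Lb.g g4 (@Lb.d (nat_lit 0) (nat_lit 1) (nat_lit 72) (@Lb.fm (nat_lit 9) t221)))))))))))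
noncomputable def l7081 : Lb := (@Lb.d (nat_lit 548) (nat_lit 262) (nat_lit 16) (@Lb.fp (nat_lit 1) t382))
noncomputable def l7082 : Lb := (@Lb.d (nat_lit 645) (nat_lit 512) (nat_lit 130) (@Lb.g g4 (@Lb.g g9 (@Lb.g g10 (@Lb.g g11 (@Lb.r r2214 (@Lb.r r545 (@Lb.r r611 (@Lb.r r2577 (@Lb.d (nat_lit 145) (nat_lit 72) (nat_lit 361) (@Lb.fp (nat_lit 9) t552)))))))))))
noncomputable def l7083 : Lb := (@Lb.d (nat_lit 40) (nat_lit 256) (nat_lit 130) (@Lb.g g9 (@Lb.g g10 (@Lb.g g11 (@Lb.r r2695 (@Lb.r r1352 (@Lb.r r1686 (@Lb.r r2129 (@Lb.d (nat_lit 548) (nat_lit 165) (nat_lit 4) (@Lb.t (@Lb.fp (nat_lit 9) t1827)))))))))))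
noncomputable def l7084 : Lb := (@Lb.d (nat_lit 4) (nat_lit 6) (nat_lit 0) (@Lb.g g5 (@Lb.d (nat_lit 544) (nat_lit 5) (nat_lit 17) (@Lb.t (@Lb.fm (nat_lit 3) t360)))))
noncomputable def l7085 : Lb := (@Lb.d (nat_lit 0) (nat_lit 512) (nat_lit 128) (@Lb.g g9 (@Lb.g g11 (@Lb.r r134 (@Lb.r r584 (@Lb.r r299 (@Lb.r r289 (@Lb.d (nat_lit 5) (nat_lit 1) (nat_lit 128) (@Lb.fp (nat_lit 3) t119)))))))))
noncomputable def l7086 : Lb := (@Lb.d (nat_lit 5) (nat_lit 1) (nat_lit 138) (@Lb.g g11 (@Lb.g g4 (@Lb.fp (nat_lit 3) t2))))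
noncomputable def l7087 : Lb := (@Lb.d (nat_lit 6) (nat_lit 96) (nat_lit 640) (@Lb.r r21 (@Lb.r r579 (@Lb.r r1366 (@Lb.g g6 (@Lb.g g5 (@Lb.g g4 (@Lb.d (nat_lit 1) (nat_lit 1) (nat_lit 1) (@Lb.t (@Lb.fm (nat_lit 9) t42))))))))))
noncomputable def l7088 : Lb := (@Lb.d (nat_lit 130) (nat_lit 514) (nat_lit 2) (@Lb.g g8 (@Lb.g g9 (@Lb.g g10 (@Lb.r r1699 (@Lb.r r1194 (@Lb.r r1553 (@Lb.r r392 (@Lb.d (nat_lit 152) (nat_lit 97) (nat_lit 586) (@Lb.t (@Lb.fp (nat_lit 9) t51)))))))))))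
noncomputable def l7089 : Lb := (@Lb.d (nat_lit 5) (nat_lit 320) (nat_lit 138) (@Lb.g g11 (@Lb.t (@Lb.fp (nat_lit 3) t2))))
noncomputable def l7090 : Lb := (@Lb.r r81 (@Lb.d (nat_lit 33) (nat_lit 292) (nat_lit 128) (@Lb.g g8 (@Lb.g g6 (@Lb.g g11 (@Lb.r r105 (@Lb.r r612 (@Lb.r r583 (@Lb.d (nat_lit 146) (nat_lit 34) (nat_lit 8) (@Lb.t (@Lb.fp (nat_lit 9) t50)))))))))))
noncomputable def l7091 : Lb := (@Lb.d (nat_lit 32) (nat_lit 2) (nat_lit 130) (@Lb.g g9 (@Lb.g g10 (@Lb.g g11 (@Lb.r r419 (@Lb.r r149 (@Lb.r r100 (@Lb.r r410 (@Lb.d (nat_lit 153) (nat_lit 21) (nat_lit 84) (@Lb.t (@Lb.fp (nat_lit 9) t221)))))))))))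
noncomputable def l7092 : Lb := (@Lb.r r263 (@Lb.g g4 (@Lb.r r664 (@Lb.r r2715 (@Lb.r r154 (@Lb.r r2133 (@Lb.r r164 (@Lb.t (@Lb.p (nat_lit 1) (@Lb.fp (nat_lit 3) t927))))))))))
noncomputable def l7093 : Lb := (@Lb.r r21 (@Lb.r r323 (@Lb.d (nat_lit 17) (nat_lit 264) (nat_lit 0) (@Lb.g g4 (@Lb.g g10 (@Lb.r r2649 (@Lb.r r1431 (@Lb.r r1350 (@Lb.d (nat_lit 85) (nat_lit 8) (nat_lit 404) (@Lb.fp (nat_lit 3) t1506))))))))))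
noncomputable def l7094 : Lb := (@Lb.d (nat_lit 130) (nat_lit 8) (nat_lit 0) (@Lb.g g8 (@Lb.g g9 (@Lb.r r1367 (@Lb.r r82 (@Lb.r r161 (@Lb.r r2664 (@Lb.d (nat_lit 353) (nat_lit 17) (nat_lit 297) (@Lb.fm (nat_lit 3) t591)))))))))
noncomputable def l7095 : Lb := (@Lb.d (nat_lit 2) (nat_lit 514) (nat_lit 66) (@Lb.g g8 (@Lb.g g9 (@Lb.g g10 (@Lb.g g11 (@Lb.r r427 (@Lb.r r386 (@Lb.r r97 (@Lb.r r24 (@Lb.d (nat_lit 617) (nat_lit 2) (nat_lit 153) (@Lb.fm (nat_lit 9) t61)))))))))))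
noncomputable def l7096 : Lb := (@Lb.d (nat_lit 8) (nat_lit 290) (nat_lit 0) (@Lb.g g9 (@Lb.r r536 (@Lb.r r283 (@Lb.r r134 (@Lb.r r553 (@Lb.d (nat_lit 596) (nat_lit 25) (nat_lit 36) (@Lb.t (@Lb.fm (nat_lit 3) t564)))))))))
noncomputable def l7097 : Lb := (@Lb.r r21 (@Lb.d (nat_lit 17) (nat_lit 0) (nat_lit 74) (@Lb.g g4 (@Lb.g g10 (@Lb.g g11 (@Lb.r r1687 (@Lb.r r2401 (@Lb.r r1170 (@Lb.d (nat_lit 537) (nat_lit 68) (nat_lit 33) (@Lb.t (@Lb.fm (nat_lit 9) t151)))))))))))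
noncomputable def l7098 : Lb := (@Lb.d (nat_lit 128) (nat_lit 520) (nat_lit 66) (@Lb.g g10 (@Lb.g g11 (@Lb.r r264 (@Lb.r r519 (@Lb.r r101 (@Lb.r r154 (@Lb.d (nat_lit 392) (nat_lit 9) (nat_lit 161) (@Lb.fm (nat_lit 3) t127)))))))))
noncomputable def l7099 : Lb := (@Lb.d (nat_lit 9) (nat_lit 1) (nat_lit 130) (@Lb.g g8 (@Lb.g g9 (@Lb.g g10 (@Lb.g g11 (@Lb.r r2411 (@Lb.r r386 (@Lb.r r97 (@Lb.r r24 (@Lb.d (nat_lit 536) (nat_lit 9) (nat_lit 68) (@Lb.fm (nat_lit 9) t61)))))))))))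
noncomputable def l7100 : Lb := (@Lb.r r593 (@Lb.d (nat_lit 9) (nat_lit 0) (nat_lit 9) (@Lb.g g8 (@Lb.g g6 (@Lb.g g11 (@Lb.r r2657 (@Lb.r r2731 (@Lb.r r2632 (@Lb.d (nat_lit 345) (nat_lit 136) (nat_lit 394) (@Lb.t (@Lb.fm (nat_lit 9) t125)))))))))))
noncomputable def l7101 : Lb := (@Lb.r r593 (@Lb.d (nat_lit 10) (nat_lit 256) (nat_lit 9) (@Lb.g g8 (@Lb.g g6 (@Lb.g g11 (@Lb.r r2657 (@Lb.r r2731 (@Lb.r r2632 (@Lb.d (nat_lit 345) (nat_lit 136) (nat_lit 256) (@Lb.t (@Lb.fm (nat_lit 9) t125)))))))))))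
noncomputable def l7102 : Lb := (@Lb.d (nat_lit 128) (nat_lit 264) (nat_lit 66) (@Lb.g g10 (@Lb.g g11 (@Lb.r r264 (@Lb.r r519 (@Lb.r r101 (@Lb.r r154 (@Lb.d (nat_lit 393) (nat_lit 9) (nat_lit 161) (@Lb.fm (nat_lit 3) t127)))))))))
noncomputable def l7103 : Lb := (@Lb.d (nat_lit 32) (nat_lit 0) (nat_lit 133) (@Lb.g g10 (@Lb.g g11 (@Lb.r r1355 (@Lb.r r1433 (@Lb.r r2632 (@Lb.r r1382 (@Lb.d (nat_lit 88) (nat_lit 170) (nat_lit 326) (@Lb.fp (nat_lit 3) t145)))))))))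
noncomputable def l7104 : Lb := (@Lb.d (nat_lit 2) (nat_lit 258) (nat_lit 130) (@Lb.g g8 (@Lb.g g9 (@Lb.g g10 (@Lb.g g11 (@Lb.r r2411 (@Lb.r r106 (@Lb.r r25 (@Lb.d (nat_lit 9) (nat_lit 16) (nat_lit 538) (@Lb.fp (nat_lit 9) t51))))))))))
noncomputable def l7105 : Lb := (@Lb.d (nat_lit 4) (nat_lit 258) (nat_lit 130) (@Lb.g g9 (@Lb.g g10 (@Lb.g g11 (@Lb.r r1451 (@Lb.r r98 (@Lb.r r36 (@Lb.d (nat_lit 592) (nat_lit 37) (nat_lit 612) (@Lb.t (@Lb.fm (nat_lit 9) t1828))))))))))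
noncomputable def l7106 : Lb := (@Lb.d (nat_lit 2) (nat_lit 514) (nat_lit 128) (@Lb.g g8 (@Lb.g g9 (@Lb.g g11 (@Lb.r r1287 (@Lb.r r146 (@Lb.r r2585 (@Lb.r r2564 (@Lb.d (nat_lit 384) (nat_lit 4) (nat_lit 385) (@Lb.t (@Lb.fp (nat_lit 9) t715)))))))))))
noncomputable def l7107 : Lb := (@Lb.d (nat_lit 0) (nat_lit 514) (nat_lit 130) (@Lb.g g9 (@Lb.g g10 (@Lb.g g11 (@Lb.r r1443 (@Lb.r r1173 (@Lb.r r2148 (@Lb.r r1098 (@Lb.d (nat_lit 272) (nat_lit 132) (nat_lit 69) (@Lb.t (@Lb.fm (nat_lit 9) t1829)))))))))))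
noncomputable def l7108 : Lb := (@Lb.r r323 (@Lb.d (nat_lit 40) (nat_lit 21) (nat_lit 0) (@Lb.g g5 (@Lb.g g10 (@Lb.r r1687 (@Lb.r r2376 (@Lb.r r1638 (@Lb.d (nat_lit 24) (nat_lit 72) (nat_lit 642) (@Lb.fp (nat_lit 3) t1830)))))))))
noncomputable def l7109 : Lb := (@Lb.r r20 (@Lb.d (nat_lit 160) (nat_lit 2) (nat_lit 130) (@Lb.g g9 (@Lb.g g6 (@Lb.g g11 (@Lb.r r264 (@Lb.r r407 (@Lb.r r529 (@Lb.d (nat_lit 38) (nat_lit 22) (nat_lit 132) (@Lb.t (@Lb.fm (nat_lit 9) t51)))))))))))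
noncomputable def l7110 : Lb := (@Lb.r r24 (@Lb.r r101 (@Lb.r r402 (@Lb.d (nat_lit 5) (nat_lit 6) (nat_lit 64) (@Lb.fm (nat_lit 1) t1831)))))
noncomputable def l7111 : Lb := (@Lb.d (nat_lit 130) (nat_lit 261) (nat_lit 1) (@Lb.r r24 (@Lb.r r101 (@Lb.r r402 (@Lb.g g4 (@Lb.t (@Lb.fp (nat_lit 3) t1832)))))))
noncomputable def l7112 : Lb := (@Lb.r r323 (@Lb.d (nat_lit 33) (nat_lit 4) (nat_lit 0) (@Lb.g g8 (@Lb.g g9 (@Lb.g g10 (@Lb.r r683 (@Lb.r r170 (@Lb.r r153 (@Lb.r r132 (@Lb.d (nat_lit 41) (nat_lit 1) (nat_lit 84) (@Lb.t (@Lb.fm (nat_lit 9) t390))))))))))))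
noncomputable def l7113 : Lb := (@Lb.d (nat_lit 130) (nat_lit 516) (nat_lit 74) (@Lb.g g8 (@Lb.g g9 (@Lb.g g10 (@Lb.g g11 (@Lb.r r1706 (@Lb.r r1411 (@Lb.r r1177 (@Lb.r r1156 (@Lb.d (nat_lit 297) (nat_lit 89) (nat_lit 596) (@Lb.fm (nat_lit 9) t1833)))))))))))
noncomputable def l7114 : Lb := (@Lb.d (nat_lit 290) (nat_lit 5) (nat_lit 289) (@Lb.r r24 (@Lb.r r101 (@Lb.r r402 (@Lb.g g11 (@Lb.t (@Lb.fm (nat_lit 3) t1834)))))))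
noncomputable def l7115 : Lb := (@Lb.d (nat_lit 10) (nat_lit 261) (nat_lit 1) (@Lb.r r82 (@Lb.r r275 (@Lb.g g9 (@Lb.d (nat_lit 0) (nat_lit 2) (nat_lit 0) (@Lb.r r291 (@Lb.r r98 (@Lb.t (@Lb.fp (nat_lit 3) t892)))))))))
noncomputable def l7116 : Lb := (@Lb.d (nat_lit 18) (nat_lit 512) (nat_lit 1) (@Lb.r r146 (@Lb.r r85 (@Lb.r r343 (@Lb.g g6 (@Lb.g g5 (@Lb.g g4 (@Lb.d (nat_lit 1) (nat_lit 0) (nat_lit 1) (@Lb.r r291 (@Lb.t (@Lb.fm (nat_lit 9) t1835)))))))))))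
noncomputable def l7117 : Lb := (@Lb.r r82 (@Lb.d (nat_lit 128) (nat_lit 512) (nat_lit 576) (@Lb.g g9 (@Lb.g g11 (@Lb.r r1368 (@Lb.r r2214 (@Lb.r r2193 (@Lb.d (nat_lit 5) (nat_lit 1) (nat_lit 162) (@Lb.fm (nat_lit 3) t338)))))))))
noncomputable def l7118 : Lb := (@Lb.d (nat_lit 0) (nat_lit 260) (nat_lit 1) (@Lb.g g9 (@Lb.g g10 (@Lb.r r1122 (@Lb.r r97 (@Lb.d (nat_lit 0) (nat_lit 73) (nat_lit 32) (@Lb.fp (nat_lit 3) t1836)))))))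
noncomputable def l7119 : Lb := (@Lb.d (nat_lit 0) (nat_lit 256) (nat_lit 72) (@Lb.g g11 (@Lb.r r354 (@Lb.r r1427 (@Lb.d (nat_lit 0) (nat_lit 16) (nat_lit 424) (@Lb.t (@Lb.fp (nat_lit 3) t334)))))))
noncomputable def l7120 : Lb := (@Lb.d (nat_lit 2) (nat_lit 516) (nat_lit 0) (@Lb.g g8 (@Lb.g g9 (@Lb.g g10 (@Lb.g g11 (@Lb.r r2722 (@Lb.r r2467 (@Lb.r r292 (@Lb.r r405 (@Lb.r r2084 (@Lb.d (nat_lit 98) (nat_lit 10) (nat_lit 601) (@Lb.fm (nat_lit 9) t813))))))))))))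
noncomputable def l7121 : Lb := (@Lb.d (nat_lit 0) (nat_lit 4) (nat_lit 1) (@Lb.g g6 (@Lb.r r1427 (@Lb.d (nat_lit 0) (nat_lit 104) (nat_lit 614) (@Lb.t (@Lb.fm (nat_lit 3) t44))))))
noncomputable def l7122 : Lb := (@Lb.d (nat_lit 2) (nat_lit 289) (nat_lit 130) (@Lb.g g8 (@Lb.g g9 (@Lb.g g10 (@Lb.g g11 (@Lb.r r427 (@Lb.r r386 (@Lb.r r361 (@Lb.d (nat_lit 165) (nat_lit 8) (nat_lit 129) (@Lb.fp (nat_lit 9) t892))))))))))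
noncomputable def l7123 : Lb := (@Lb.d (nat_lit 2) (nat_lit 2) (nat_lit 2) (@Lb.g g8 (@Lb.g g9 (@Lb.g g10 (@Lb.r r2585 (@Lb.r r595 (@Lb.r r386 (@Lb.d (nat_lit 289) (nat_lit 0) (nat_lit 649) (@Lb.t (@Lb.fm (nat_lit 9) t791))))))))))
noncomputable def l7124 : Lb := (@Lb.d (nat_lit 2) (nat_lit 258) (nat_lit 0) (@Lb.g g8 (@Lb.g g9 (@Lb.g g11 (@Lb.r r1194 (@Lb.r r1700 (@Lb.r r1575 (@Lb.r r1553 (@Lb.d (nat_lit 0) (nat_lit 98) (nat_lit 586) (@Lb.t (@Lb.fm (nat_lit 9) t51)))))))))))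
noncomputable def l7125 : Lb := (@Lb.d (nat_lit 2) (nat_lit 514) (nat_lit 130) (@Lb.g g8 (@Lb.g g9 (@Lb.g g10 (@Lb.g g11 (@Lb.r r1065 (@Lb.r r360 (@Lb.r r582 (@Lb.r r583 (@Lb.r r2180 (@Lb.d (nat_lit 642) (nat_lit 10) (nat_lit 353) (@Lb.fm (nat_lit 9) t322))))))))))))
noncomputable def l7126 : Lb := (@Lb.d (nat_lit 6) (nat_lit 134) (nat_lit 361) (@Lb.r r1361 (@Lb.r r2471 (@Lb.r r612 (@Lb.r r346 (@Lb.g g7 (@Lb.g g6 (@Lb.g g5 (@Lb.d (nat_lit 8) (nat_lit 2) (nat_lit 65) (@Lb.t (@Lb.fp (nat_lit 9) t125)))))))))))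
noncomputable def l7127 : Lb := (@Lb.r r82 (@Lb.d (nat_lit 34) (nat_lit 272) (nat_lit 640) (@Lb.g g8 (@Lb.g g9 (@Lb.g g7 (@Lb.r r1442 (@Lb.r r1321 (@Lb.r r104 (@Lb.d (nat_lit 598) (nat_lit 10) (nat_lit 41) (@Lb.t (@Lb.fm (nat_lit 9) t644)))))))))))
noncomputable def l7128 : Lb := (@Lb.d (nat_lit 0) (nat_lit 0) (nat_lit 10) (@Lb.g g10 (@Lb.r r323 (@Lb.r r2626 (@Lb.d (nat_lit 0) (nat_lit 80) (nat_lit 426) (@Lb.t (@Lb.fp (nat_lit 3) t210)))))))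
noncomputable def l7129 : Lb := (@Lb.r r97 (@Lb.r r1106 (@Lb.r r145 (@Lb.d (nat_lit 0) (nat_lit 517) (nat_lit 1) (@Lb.fm (nat_lit 1) t1487)))))
noncomputable def l7130 : Lb := (@Lb.d (nat_lit 0) (nat_lit 136) (nat_lit 17) (@Lb.r r97 (@Lb.r r1106 (@Lb.r r1299 (@Lb.g g5 (@Lb.d (nat_lit 0) (nat_lit 1) (nat_lit 0) (@Lb.t (@Lb.fp (nat_lit 3) t216))))))))
noncomputable def l7131 : Lb := (@Lb.d (nat_lit 2) (nat_lit 521) (nat_lit 129) (@Lb.g g8 (@Lb.g g9 (@Lb.g g10 (@Lb.g g11 (@Lb.r r1699 (@Lb.r r358 (@Lb.r r664 (@Lb.r r1637 (@Lb.d (nat_lit 408) (nat_lit 138) (nat_lit 73) (@Lb.fm (nat_lit 9) t202)))))))))))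
noncomputable def l7132 : Lb := (@Lb.d (nat_lit 2) (nat_lit 40) (nat_lit 65) (@Lb.g g8 (@Lb.g g9 (@Lb.g g10 (@Lb.g g11 (@Lb.r r1699 (@Lb.r r610 (@Lb.r r100 (@Lb.r r2645 (@Lb.r r1060 (@Lb.d (nat_lit 144) (nat_lit 162) (nat_lit 344) (@Lb.fm (nat_lit 9) t208))))))))))))
noncomputable def l7133 : Lb := (@Lb.d (nat_lit 2) (nat_lit 9) (nat_lit 129) (@Lb.g g8 (@Lb.g g9 (@Lb.g g10 (@Lb.g g11 (@Lb.r r1699 (@Lb.r r358 (@Lb.r r664 (@Lb.r r1637 (@Lb.d (nat_lit 408) (nat_lit 133) (nat_lit 72) (@Lb.fm (nat_lit 9) t202)))))))))))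
noncomputable def l7134 : Lb := (@Lb.d (nat_lit 72) (nat_lit 596) (nat_lit 358) (@Lb.r r2453 (@Lb.r r2450 (@Lb.r r1639 (@Lb.g g7 (@Lb.g g5 (@Lb.g g4 (@Lb.d (nat_lit 0) (nat_lit 18) (nat_lit 128) (@Lb.r r98 (@Lb.t (@Lb.fp (nat_lit 9) t1837)))))))))))
noncomputable def l7135 : Lb := (@Lb.d (nat_lit 2) (nat_lit 521) (nat_lit 129) (@Lb.g g8 (@Lb.g g9 (@Lb.g g10 (@Lb.g g11 (@Lb.r r1699 (@Lb.r r358 (@Lb.r r664 (@Lb.r r1637 (@Lb.d (nat_lit 409) (nat_lit 133) (nat_lit 72) (@Lb.fm (nat_lit 9) t1838)))))))))))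
noncomputable def l7136 : Lb := (@Lb.d (nat_lit 2) (nat_lit 26) (nat_lit 1) (@Lb.g g8 (@Lb.g g9 (@Lb.g g10 (@Lb.g g11 (@Lb.r r2391 (@Lb.r r358 (@Lb.r r664 (@Lb.r r421 (@Lb.d (nat_lit 104) (nat_lit 97) (nat_lit 137) (@Lb.fp (nat_lit 9) t340)))))))))))
noncomputable def l7137 : Lb := (@Lb.d (nat_lit 0) (nat_lit 265) (nat_lit 130) (@Lb.g g9 (@Lb.g g10 (@Lb.g g11 (@Lb.r r2407 (@Lb.r r417 (@Lb.r r1096 (@Lb.r r2150 (@Lb.d (nat_lit 128) (nat_lit 26) (nat_lit 404) (@Lb.t (@Lb.fm (nat_lit 9) t1839)))))))))))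
noncomputable def l7138 : Lb := (@Lb.d (nat_lit 256) (nat_lit 522) (nat_lit 34) (@Lb.r r1114 (@Lb.r r149 (@Lb.g g10 (@Lb.t (@Lb.fp (nat_lit 3) t1840))))))
noncomputable def l7139 : Lb := (@Lb.r r101 (@Lb.d (nat_lit 266) (nat_lit 258) (nat_lit 32) (@Lb.fm (nat_lit 1) t425)))
noncomputable def l7140 : Lb := (@Lb.d (nat_lit 256) (nat_lit 256) (nat_lit 32) (@Lb.r r101 (@Lb.g g10 (@Lb.t (@Lb.fm (nat_lit 3) t1841)))))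
noncomputable def l7141 : Lb := (@Lb.g g6 (@Lb.r r1427 (@Lb.d (nat_lit 0) (nat_lit 640) (nat_lit 16) (@Lb.t (@Lb.fm (nat_lit 3) t1842)))))
noncomputable def l7142 : Lb := (@Lb.d (nat_lit 2) (nat_lit 4) (nat_lit 128) (@Lb.g g8 (@Lb.g g9 (@Lb.g g10 (@Lb.g g11 (@Lb.r r2722 (@Lb.r r2467 (@Lb.r r292 (@Lb.r r405 (@Lb.r r2084 (@Lb.d (nat_lit 98) (nat_lit 10) (nat_lit 601) (@Lb.fm (nat_lit 9) t813))))))))))))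
noncomputable def l7143 : Lb := (@Lb.d (nat_lit 0) (nat_lit 4) (nat_lit 1) (@Lb.g g6 (@Lb.r r1427 (@Lb.d (nat_lit 0) (nat_lit 134) (nat_lit 17) (@Lb.t (@Lb.fm (nat_lit 3) t44))))))
noncomputable def l7144 : Lb := (@Lb.r r21 (@Lb.d (nat_lit 8) (nat_lit 8) (nat_lit 130) (@Lb.g g8 (@Lb.g g10 (@Lb.g g11 (@Lb.r r683 (@Lb.r r293 (@Lb.r r596 (@Lb.r r394 (@Lb.d (nat_lit 152) (nat_lit 22) (nat_lit 8) (@Lb.t (@Lb.fp (nat_lit 9) t51))))))))))))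
noncomputable def l7145 : Lb := (@Lb.g g4 (@Lb.d (nat_lit 1) (nat_lit 0) (nat_lit 128) (@Lb.t (@Lb.fm (nat_lit 3) t2))))
noncomputable def l7146 : Lb := (@Lb.r r82 (@Lb.d (nat_lit 0) (nat_lit 512) (nat_lit 128) (@Lb.g g9 (@Lb.g g11 (@Lb.r r2467 (@Lb.r r386 (@Lb.r r1048 (@Lb.r r2149 (@Lb.d (nat_lit 581) (nat_lit 130) (nat_lit 528) (@Lb.fp (nat_lit 3) t394))))))))))
noncomputable def l7147 : Lb := (@Lb.d (nat_lit 578) (nat_lit 32) (nat_lit 384) (@Lb.r r1305 (@Lb.r r1428 (@Lb.r r1414 (@Lb.r r2451 (@Lb.g g7 (@Lb.g g6 (@Lb.g g5 (@Lb.d (nat_lit 0) (nat_lit 2) (nat_lit 64) (@Lb.t (@Lb.fm (nat_lit 9) t202)))))))))))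
noncomputable def l7148 : Lb := (@Lb.d (nat_lit 344) (nat_lit 169) (nat_lit 84) (@Lb.r r24 (@Lb.r r1606 (@Lb.r r2587 (@Lb.r r421 (@Lb.g g6 (@Lb.g g5 (@Lb.d (nat_lit 0) (nat_lit 5) (nat_lit 0) (@Lb.r r387 (@Lb.fp (nat_lit 3) t823))))))))))
noncomputable def l7149 : Lb := (@Lb.d (nat_lit 600) (nat_lit 146) (nat_lit 538) (@Lb.r r1701 (@Lb.r r2456 (@Lb.r r1698 (@Lb.r r599 (@Lb.g g7 (@Lb.g g6 (@Lb.g g5 (@Lb.d (nat_lit 0) (nat_lit 16) (nat_lit 129) (@Lb.t (@Lb.fp (nat_lit 9) t1843)))))))))))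
noncomputable def l7150 : Lb := (@Lb.d (nat_lit 272) (nat_lit 72) (nat_lit 2) (@Lb.r r89 (@Lb.r r20 (@Lb.r r1414 (@Lb.r r2391 (@Lb.g g7 (@Lb.g g6 (@Lb.g g5 (@Lb.d (nat_lit 0) (nat_lit 2) (nat_lit 64) (@Lb.t (@Lb.fm (nat_lit 9) t15)))))))))))
noncomputable def l7151 : Lb := (@Lb.d (nat_lit 296) (nat_lit 326) (nat_lit 1) (@Lb.r r101 (@Lb.r r24 (@Lb.r r1414 (@Lb.r r2395 (@Lb.g g7 (@Lb.g g6 (@Lb.g g5 (@Lb.d (nat_lit 4) (nat_lit 1) (nat_lit 64) (@Lb.t (@Lb.fm (nat_lit 9) t208)))))))))))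
noncomputable def l7152 : Lb := (@Lb.d (nat_lit 4) (nat_lit 577) (nat_lit 69) (@Lb.r r289 (@Lb.r r279 (@Lb.r r584 (@Lb.r r326 (@Lb.g g7 (@Lb.g g6 (@Lb.g g5 (@Lb.d (nat_lit 0) (nat_lit 5) (nat_lit 66) (@Lb.t (@Lb.fp (nat_lit 9) t260)))))))))))
noncomputable def l7153 : Lb := (@Lb.d (nat_lit 272) (nat_lit 584) (nat_lit 2) (@Lb.r r89 (@Lb.r r20 (@Lb.r r1414 (@Lb.r r2391 (@Lb.g g7 (@Lb.g g6 (@Lb.g g5 (@Lb.d (nat_lit 0) (nat_lit 4) (nat_lit 65) (@Lb.t (@Lb.fm (nat_lit 9) t1844)))))))))))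
noncomputable def l7154 : Lb := (@Lb.r r82 (@Lb.d (nat_lit 32) (nat_lit 514) (nat_lit 128) (@Lb.g g8 (@Lb.g g9 (@Lb.g g11 (@Lb.r r2658 (@Lb.r r2667 (@Lb.r r2664 (@Lb.r r2073 (@Lb.d (nat_lit 2) (nat_lit 153) (nat_lit 0) (@Lb.t (@Lb.fm (nat_lit 9) t1845))))))))))))
noncomputable def l7155 : Lb := (@Lb.d (nat_lit 0) (nat_lit 0) (nat_lit 129) (@Lb.r r24 (@Lb.r r101 (@Lb.g g6 (@Lb.d (nat_lit 0) (nat_lit 4) (nat_lit 1) (@Lb.t (@Lb.fm (nat_lit 3) t1219)))))))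
noncomputable def l7156 : Lb := (@Lb.d (nat_lit 0) (nat_lit 0) (nat_lit 136) (@Lb.g g11 (@Lb.r r402 (@Lb.r r1379 (@Lb.r r101 (@Lb.d (nat_lit 128) (nat_lit 144) (nat_lit 384) (@Lb.t (@Lb.fp (nat_lit 3) t240))))))))
noncomputable def l7157 : Lb := (@Lb.d (nat_lit 0) (nat_lit 0) (nat_lit 66) (@Lb.g g10 (@Lb.g g11 (@Lb.r r419 (@Lb.r r386 (@Lb.d (nat_lit 0) (nat_lit 105) (nat_lit 17) (@Lb.fp (nat_lit 3) t305)))))))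
noncomputable def l7158 : Lb := (@Lb.g g10 (@Lb.g g7 (@Lb.r r579 (@Lb.r r402 (@Lb.d (nat_lit 0) (nat_lit 64) (nat_lit 16) (@Lb.fp (nat_lit 3) t334))))))
noncomputable def l7159 : Lb := (@Lb.d (nat_lit 0) (nat_lit 512) (nat_lit 72) (@Lb.g g11 (@Lb.r r402 (@Lb.d (nat_lit 0) (nat_lit 74) (nat_lit 146) (@Lb.t (@Lb.fm (nat_lit 3) t334))))))
noncomputable def l7160 : Lb := (@Lb.r r82 (@Lb.d (nat_lit 132) (nat_lit 273) (nat_lit 128) (@Lb.g g8 (@Lb.g g9 (@Lb.g g11 (@Lb.r r531 (@Lb.r r1177 (@Lb.r r342 (@Lb.r r648 (@Lb.d (nat_lit 513) (nat_lit 0) (nat_lit 418) (@Lb.t (@Lb.fm (nat_lit 9) t1846))))))))))))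
noncomputable def l7161 : Lb := (@Lb.d (nat_lit 10) (nat_lit 2) (nat_lit 138) (@Lb.g g11 (@Lb.t (@Lb.fp (nat_lit 3) t2))))
noncomputable def l7162 : Lb := (@Lb.d (nat_lit 0) (nat_lit 256) (nat_lit 138) (@Lb.g g11 (@Lb.g g4 (@Lb.fp (nat_lit 3) t2))))
noncomputable def l7163 : Lb := (@Lb.g g7 (@Lb.r r386 (@Lb.r r1347 (@Lb.r r578 (@Lb.t (@Lb.fp (nat_lit 3) t2))))))
noncomputable def l7164 : Lb := (@Lb.d (nat_lit 0) (nat_lit 0) (nat_lit 2) (@Lb.g g10 (@Lb.r r1411 (@Lb.r r386 (@Lb.d (nat_lit 0) (nat_lit 0) (nat_lit 660) (@Lb.t (@Lb.fm (nat_lit 3) t2)))))))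
noncomputable def l7165 : Lb := (@Lb.d (nat_lit 0) (nat_lit 16) (nat_lit 521) (@Lb.g g10 (@Lb.g g7 (@Lb.r r386 (@Lb.d (nat_lit 0) (nat_lit 70) (nat_lit 10) (@Lb.fm (nat_lit 3) t356))))))
noncomputable def l7166 : Lb := (@Lb.d (nat_lit 0) (nat_lit 8) (nat_lit 129) (@Lb.g g8 (@Lb.g g10 (@Lb.g g11 (@Lb.r r1579 (@Lb.r r97 (@Lb.r r146 (@Lb.r r1608 (@Lb.d (nat_lit 97) (nat_lit 9) (nat_lit 536) (@Lb.t (@Lb.fm (nat_lit 9) t1165)))))))))))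
noncomputable def l7167 : Lb := (@Lb.d (nat_lit 0) (nat_lit 516) (nat_lit 1) (@Lb.g g6 (@Lb.r r101 (@Lb.d (nat_lit 8) (nat_lit 1) (nat_lit 1) (@Lb.t (@Lb.fp (nat_lit 3) t983))))))
noncomputable def l7168 : Lb := (@Lb.d (nat_lit 2) (nat_lit 514) (nat_lit 2) (@Lb.g g8 (@Lb.g g9 (@Lb.g g10 (@Lb.r r683 (@Lb.r r676 (@Lb.r r166 (@Lb.r r145 (@Lb.d (nat_lit 0) (nat_lit 5) (nat_lit 136) (@Lb.t (@Lb.fm (nat_lit 9) t51)))))))))))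
noncomputable def l7169 : Lb := (@Lb.d (nat_lit 2) (nat_lit 512) (nat_lit 65) (@Lb.g g8 (@Lb.g g9 (@Lb.g g10 (@Lb.g g11 (@Lb.r r401 (@Lb.r r619 (@Lb.r r616 (@Lb.r r86 (@Lb.r r153 (@Lb.d (nat_lit 2) (nat_lit 1) (nat_lit 137) (@Lb.fp (nat_lit 9) t2))))))))))))
noncomputable def l7170 : Lb := (@Lb.d (nat_lit 10) (nat_lit 8) (nat_lit 129) (@Lb.g g8 (@Lb.g g10 (@Lb.g g11 (@Lb.r r97 (@Lb.r r1430 (@Lb.r r1611 (@Lb.r r1608 (@Lb.d (nat_lit 97) (nat_lit 161) (nat_lit 162) (@Lb.t (@Lb.fm (nat_lit 9) t282)))))))))))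
noncomputable def l7171 : Lb := (@Lb.d (nat_lit 0) (nat_lit 512) (nat_lit 128) (@Lb.g g6 (@Lb.g g11 (@Lb.r r387 (@Lb.d (nat_lit 0) (nat_lit 0) (nat_lit 137) (@Lb.fp (nat_lit 3) t2))))))
noncomputable def l7172 : Lb := (@Lb.d (nat_lit 10) (nat_lit 258) (nat_lit 129) (@Lb.g g8 (@Lb.g g9 (@Lb.g g10 (@Lb.g g11 (@Lb.r r1579 (@Lb.r r145 (@Lb.r r82 (@Lb.r r145 (@Lb.r r1608 (@Lb.d (nat_lit 97) (nat_lit 1) (nat_lit 537) (@Lb.fp (nat_lit 9) t1165))))))))))))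
noncomputable def l7173 : Lb := (@Lb.d (nat_lit 2) (nat_lit 514) (nat_lit 145) (@Lb.g g8 (@Lb.g g9 (@Lb.g g10 (@Lb.g g11 (@Lb.r r2089 (@Lb.r r296 (@Lb.r r2311 (@Lb.r r1540 (@Lb.d (nat_lit 2) (nat_lit 98) (nat_lit 593) (@Lb.fp (nat_lit 9) t246)))))))))))
noncomputable def l7174 : Lb := (@Lb.d (nat_lit 33) (nat_lit 517) (nat_lit 137) (@Lb.r r154 (@Lb.r r664 (@Lb.r r667 (@Lb.r r353 (@Lb.g g7 (@Lb.g g6 (@Lb.g g4 (@Lb.d (nat_lit 2) (nat_lit 4) (nat_lit 65) (@Lb.t (@Lb.fp (nat_lit 9) t2)))))))))))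
noncomputable def l7175 : Lb := (@Lb.d (nat_lit 2) (nat_lit 0) (nat_lit 0) (@Lb.g g8 (@Lb.g g11 (@Lb.r r273 (@Lb.r r555 (@Lb.r r680 (@Lb.r r170 (@Lb.r r153 (@Lb.d (nat_lit 0) (nat_lit 1) (nat_lit 137) (@Lb.fp (nat_lit 3) t2))))))))))
noncomputable def l7176 : Lb := (@Lb.d (nat_lit 0) (nat_lit 0) (nat_lit 128) (@Lb.g g10 (@Lb.g g11 (@Lb.r r1419 (@Lb.d (nat_lit 97) (nat_lit 0) (nat_lit 596) (@Lb.fm (nat_lit 3) t441))))))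
noncomputable def l7177 : Lb := (@Lb.d (nat_lit 0) (nat_lit 0) (nat_lit 64) (@Lb.g g10 (@Lb.g g7 (@Lb.r r402 (@Lb.r r101 (@Lb.d (nat_lit 65) (nat_lit 34) (nat_lit 128) (@Lb.fp (nat_lit 3) t983)))))))
noncomputable def l7178 : Lb := (@Lb.d (nat_lit 33) (nat_lit 517) (nat_lit 10) (@Lb.r r154 (@Lb.r r404 (@Lb.r r363 (@Lb.r r353 (@Lb.g g7 (@Lb.g g6 (@Lb.g g4 (@Lb.d (nat_lit 5) (nat_lit 4) (nat_lit 65) (@Lb.t (@Lb.fp (nat_lit 9) t2)))))))))))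
noncomputable def l7179 : Lb := (@Lb.d (nat_lit 2) (nat_lit 0) (nat_lit 64) (@Lb.g g8 (@Lb.g g11 (@Lb.r r337 (@Lb.r r683 (@Lb.r r680 (@Lb.r r170 (@Lb.r r153 (@Lb.d (nat_lit 2) (nat_lit 0) (nat_lit 137) (@Lb.fp (nat_lit 3) t2))))))))))
noncomputable def l7180 : Lb := (@Lb.d (nat_lit 33) (nat_lit 256) (nat_lit 8) (@Lb.r r154 (@Lb.r r404 (@Lb.r r363 (@Lb.r r353 (@Lb.g g7 (@Lb.g g6 (@Lb.g g4 (@Lb.d (nat_lit 5) (nat_lit 0) (nat_lit 64) (@Lb.t (@Lb.fp (nat_lit 9) t51)))))))))))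
noncomputable def l7181 : Lb := (@Lb.d (nat_lit 128) (nat_lit 512) (nat_lit 328) (@Lb.g g11 (@Lb.d (nat_lit 402) (nat_lit 0) (nat_lit 361) (@Lb.t (@Lb.fp (nat_lit 3) t441)))))
noncomputable def l7182 : Lb := (@Lb.d (nat_lit 128) (nat_lit 514) (nat_lit 128) (@Lb.g g9 (@Lb.g g11 (@Lb.r r264 (@Lb.r r343 (@Lb.r r162 (@Lb.r r145 (@Lb.d (nat_lit 102) (nat_lit 5) (nat_lit 136) (@Lb.fm (nat_lit 3) t51)))))))))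
noncomputable def l7183 : Lb := (@Lb.d (nat_lit 37) (nat_lit 1) (nat_lit 69) (@Lb.r r154 (@Lb.r r664 (@Lb.r r667 (@Lb.r r353 (@Lb.g g7 (@Lb.g g6 (@Lb.g g4 (@Lb.d (nat_lit 1) (nat_lit 0) (nat_lit 64) (@Lb.t (@Lb.fp (nat_lit 9) t51)))))))))))
noncomputable def l7184 : Lb := (@Lb.d (nat_lit 0) (nat_lit 0) (nat_lit 66) (@Lb.g g9 (@Lb.g g10 (@Lb.g g7 (@Lb.r r386 (@Lb.r r101 (@Lb.r r24 (@Lb.d (nat_lit 34) (nat_lit 80) (nat_lit 329) (@Lb.t (@Lb.fm (nat_lit 9) t845))))))))))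
noncomputable def l7185 : Lb := (@Lb.d (nat_lit 37) (nat_lit 6) (nat_lit 70) (@Lb.r r154 (@Lb.r r664 (@Lb.r r667 (@Lb.r r353 (@Lb.g g7 (@Lb.g g6 (@Lb.g g4 (@Lb.d (nat_lit 1) (nat_lit 0) (nat_lit 10) (@Lb.t (@Lb.fp (nat_lit 9) t21)))))))))))
noncomputable def l7186 : Lb := (@Lb.d (nat_lit 549) (nat_lit 662) (nat_lit 321) (@Lb.r r2308 (@Lb.r r2178 (@Lb.r r1291 (@Lb.r r292 (@Lb.g g7 (@Lb.g g9 (@Lb.g g4 (@Lb.d (nat_lit 1) (nat_lit 70) (nat_lit 64) (@Lb.t (@Lb.fp (nat_lit 9) t1385)))))))))))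
noncomputable def l7187 : Lb := (@Lb.d (nat_lit 2) (nat_lit 512) (nat_lit 136) (@Lb.g g8 (@Lb.g g11 (@Lb.r r101 (@Lb.d (nat_lit 36) (nat_lit 86) (nat_lit 298) (@Lb.fp (nat_lit 3) t153))))))
noncomputable def l7188 : Lb := (@Lb.r r82 (@Lb.r r275 (@Lb.d (nat_lit 2) (nat_lit 256) (nat_lit 0) (@Lb.g g8 (@Lb.g g9 (@Lb.r r2315 (@Lb.r r90 (@Lb.r r145 (@Lb.d (nat_lit 26) (nat_lit 74) (nat_lit 2) (@Lb.fm (nat_lit 3) t233))))))))))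
noncomputable def l7189 : Lb := (@Lb.d (nat_lit 645) (nat_lit 0) (nat_lit 130) (@Lb.g g4 (@Lb.g g9 (@Lb.g g10 (@Lb.g g11 (@Lb.r r2214 (@Lb.r r545 (@Lb.r r611 (@Lb.r r2577 (@Lb.d (nat_lit 152) (nat_lit 74) (nat_lit 361) (@Lb.fp (nat_lit 9) t1758)))))))))))
noncomputable def l7190 : Lb := (@Lb.d (nat_lit 402) (nat_lit 576) (nat_lit 340) (@Lb.r r1608 (@Lb.r r97 (@Lb.r r1355 (@Lb.g g10 (@Lb.g g4 (@Lb.d (nat_lit 65) (nat_lit 8) (nat_lit 6) (@Lb.r r25 (@Lb.fp (nat_lit 3) t225)))))))))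
noncomputable def l7191 : Lb := (@Lb.r r21 (@Lb.r r70 (@Lb.d (nat_lit 657) (nat_lit 256) (nat_lit 128) (@Lb.g g8 (@Lb.g g11 (@Lb.r r1419 (@Lb.r r402 (@Lb.r r97 (@Lb.d (nat_lit 580) (nat_lit 32) (nat_lit 256) (@Lb.fm (nat_lit 3) t1847))))))))))
noncomputable def l7192 : Lb := (@Lb.d (nat_lit 614) (nat_lit 170) (nat_lit 582) (@Lb.r r1434 (@Lb.r r101 (@Lb.r r2375 (@Lb.g g7 (@Lb.g g6 (@Lb.g g4 (@Lb.d (nat_lit 1) (nat_lit 4) (nat_lit 65) (@Lb.t (@Lb.fp (nat_lit 9) t473))))))))))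
noncomputable def l7193 : Lb := (@Lb.d (nat_lit 612) (nat_lit 426) (nat_lit 582) (@Lb.r r1434 (@Lb.r r101 (@Lb.r r2375 (@Lb.g g7 (@Lb.g g6 (@Lb.g g4 (@Lb.d (nat_lit 2) (nat_lit 4) (nat_lit 65) (@Lb.t (@Lb.fp (nat_lit 9) t1848))))))))))
noncomputable def l7194 : Lb := (@Lb.d (nat_lit 26) (nat_lit 162) (nat_lit 329) (@Lb.r r2321 (@Lb.r r1387 (@Lb.r r264 (@Lb.g g7 (@Lb.g g10 (@Lb.g g5 (@Lb.d (nat_lit 84) (nat_lit 1) (nat_lit 65) (@Lb.r r36 (@Lb.t (@Lb.fp (nat_lit 9) t267)))))))))))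
noncomputable def l7195 : Lb := (@Lb.d (nat_lit 0) (nat_lit 261) (nat_lit 128) (@Lb.g g9 (@Lb.g g10 (@Lb.g g11 (@Lb.r r1170 (@Lb.r r417 (@Lb.d (nat_lit 0) (nat_lit 132) (nat_lit 522) (@Lb.t (@Lb.fm (nat_lit 9) t225)))))))))
noncomputable def l7196 : Lb := (@Lb.d (nat_lit 0) (nat_lit 0) (nat_lit 73) (@Lb.g g9 (@Lb.g g10 (@Lb.g g11 (@Lb.r r2658 (@Lb.r r101 (@Lb.r r24 (@Lb.d (nat_lit 642) (nat_lit 0) (nat_lit 256) (@Lb.t (@Lb.fm (nat_lit 9) t145))))))))))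
noncomputable def l7197 : Lb := (@Lb.d (nat_lit 0) (nat_lit 256) (nat_lit 130) (@Lb.g g9 (@Lb.g g10 (@Lb.g g11 (@Lb.r r2658 (@Lb.r r101 (@Lb.r r24 (@Lb.d (nat_lit 642) (nat_lit 0) (nat_lit 320) (@Lb.t (@Lb.fm (nat_lit 9) t145))))))))))
noncomputable def l7198 : Lb := (@Lb.r r323 (@Lb.d (nat_lit 2) (nat_lit 2) (nat_lit 2) (@Lb.g g8 (@Lb.g g9 (@Lb.g g10 (@Lb.r r1623 (@Lb.r r2154 (@Lb.r r97 (@Lb.r r24 (@Lb.d (nat_lit 538) (nat_lit 4) (nat_lit 136) (@Lb.t (@Lb.fp (nat_lit 9) t61))))))))))))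
noncomputable def l7199 : Lb := (@Lb.d (nat_lit 0) (nat_lit 256) (nat_lit 73) (@Lb.g g8 (@Lb.g g9 (@Lb.g g10 (@Lb.g g11 (@Lb.r r586 (@Lb.r r580 (@Lb.r r295 (@Lb.r r289 (@Lb.r r36 (@Lb.d (nat_lit 8) (nat_lit 2) (nat_lit 0) (@Lb.fm (nat_lit 9) t51))))))))))))
noncomputable def l7200 : Lb := (@Lb.d (nat_lit 32) (nat_lit 522) (nat_lit 129) (@Lb.g g9 (@Lb.g g10 (@Lb.g g11 (@Lb.r r2695 (@Lb.r r1352 (@Lb.r r2390 (@Lb.r r289 (@Lb.d (nat_lit 666) (nat_lit 73) (nat_lit 298) (@Lb.t (@Lb.fp (nat_lit 9) t50)))))))))))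
noncomputable def l7201 : Lb := (@Lb.d (nat_lit 38) (nat_lit 266) (nat_lit 128) (@Lb.g g8 (@Lb.g g9 (@Lb.g g10 (@Lb.g g11 (@Lb.r r2723 (@Lb.r r164 (@Lb.r r661 (@Lb.r r342 (@Lb.r r2084 (@Lb.d (nat_lit 594) (nat_lit 34) (nat_lit 616) (@Lb.fm (nat_lit 9) t50))))))))))))
noncomputable def l7202 : Lb := (@Lb.d (nat_lit 38) (nat_lit 522) (nat_lit 128) (@Lb.g g8 (@Lb.g g9 (@Lb.g g10 (@Lb.g g11 (@Lb.r r2723 (@Lb.r r164 (@Lb.r r661 (@Lb.r r342 (@Lb.r r2084 (@Lb.d (nat_lit 593) (nat_lit 34) (nat_lit 616) (@Lb.fm (nat_lit 9) t50))))))))))))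
noncomputable def l7203 : Lb := (@Lb.d (nat_lit 2) (nat_lit 296) (nat_lit 129) (@Lb.g g8 (@Lb.g g9 (@Lb.g g10 (@Lb.g g11 (@Lb.r r683 (@Lb.r r1642 (@Lb.r r1705 (@Lb.d (nat_lit 597) (nat_lit 152) (nat_lit 262) (@Lb.fp (nat_lit 9) t1849))))))))))
noncomputable def l7204 : Lb := (@Lb.d (nat_lit 4) (nat_lit 553) (nat_lit 129) (@Lb.g g8 (@Lb.g g9 (@Lb.g g10 (@Lb.g g11 (@Lb.r r683 (@Lb.r r1642 (@Lb.r r1705 (@Lb.d (nat_lit 598) (nat_lit 152) (nat_lit 262) (@Lb.fp (nat_lit 9) t1849))))))))))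
noncomputable def l7205 : Lb := (@Lb.r r21 (@Lb.d (nat_lit 2) (nat_lit 0) (nat_lit 130) (@Lb.g g8 (@Lb.g g10 (@Lb.g g11 (@Lb.r r395 (@Lb.r r386 (@Lb.r r97 (@Lb.r r72 (@Lb.d (nat_lit 598) (nat_lit 1) (nat_lit 86) (@Lb.t (@Lb.fp (nat_lit 9) t61))))))))))))
noncomputable def l7206 : Lb := (@Lb.r r21 (@Lb.d (nat_lit 17) (nat_lit 256) (nat_lit 128) (@Lb.g g8 (@Lb.g g10 (@Lb.g g11 (@Lb.r r647 (@Lb.r r402 (@Lb.r r97 (@Lb.r r548 (@Lb.d (nat_lit 676) (nat_lit 16) (nat_lit 146) (@Lb.t (@Lb.fp (nat_lit 9) t262))))))))))))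
noncomputable def l7207 : Lb := (@Lb.d (nat_lit 160) (nat_lit 8) (nat_lit 128) (@Lb.g g10 (@Lb.g g11 (@Lb.r r260 (@Lb.r r2667 (@Lb.r r1633 (@Lb.r r338 (@Lb.d (nat_lit 528) (nat_lit 149) (nat_lit 673) (@Lb.fm (nat_lit 3) t1850)))))))))
noncomputable def l7208 : Lb := (@Lb.d (nat_lit 0) (nat_lit 0) (nat_lit 128) (@Lb.g g10 (@Lb.g g11 (@Lb.r r387 (@Lb.r r402 (@Lb.r r101 (@Lb.d (nat_lit 4) (nat_lit 2) (nat_lit 138) (@Lb.fm (nat_lit 3) t1851))))))))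
noncomputable def l7209 : Lb := (@Lb.d (nat_lit 10) (nat_lit 256) (nat_lit 128) (@Lb.g g8 (@Lb.g g10 (@Lb.g g11 (@Lb.r r353 (@Lb.r r407 (@Lb.r r612 (@Lb.r r154 (@Lb.d (nat_lit 25) (nat_lit 2) (nat_lit 4) (@Lb.t (@Lb.fm (nat_lit 9) t87)))))))))))
noncomputable def l7210 : Lb := (@Lb.d (nat_lit 266) (nat_lit 550) (nat_lit 1) (@Lb.r r2452 (@Lb.r r89 (@Lb.r r1611 (@Lb.r r358 (@Lb.g g7 (@Lb.g g6 (@Lb.d (nat_lit 0) (nat_lit 0) (nat_lit 65) (@Lb.fp (nat_lit 3) t442)))))))))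
noncomputable def l7211 : Lb := (@Lb.d (nat_lit 128) (nat_lit 260) (nat_lit 128) (@Lb.g g9 (@Lb.g g10 (@Lb.g g11 (@Lb.r r264 (@Lb.r r519 (@Lb.r r106 (@Lb.r r97 (@Lb.d (nat_lit 137) (nat_lit 9) (nat_lit 134) (@Lb.t (@Lb.fp (nat_lit 9) t69)))))))))))
noncomputable def l7212 : Lb := (@Lb.r r21 (@Lb.r r263 (@Lb.d (nat_lit 8) (nat_lit 512) (nat_lit 26) (@Lb.g g8 (@Lb.g g10 (@Lb.r r2449 (@Lb.r r2727 (@Lb.r r2456 (@Lb.d (nat_lit 666) (nat_lit 154) (nat_lit 546) (@Lb.fm (nat_lit 3) t1643))))))))))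
noncomputable def l7213 : Lb := (@Lb.d (nat_lit 390) (nat_lit 86) (nat_lit 576) (@Lb.r r2584 (@Lb.r r97 (@Lb.r r2667 (@Lb.g g7 (@Lb.g g10 (@Lb.g g5 (@Lb.g g4 (@Lb.d (nat_lit 0) (nat_lit 6) (nat_lit 82) (@Lb.fp (nat_lit 9) t1852))))))))))
noncomputable def l7214 : Lb := (@Lb.d (nat_lit 129) (nat_lit 514) (nat_lit 130) (@Lb.g g8 (@Lb.g g9 (@Lb.g g10 (@Lb.g g11 (@Lb.r r2459 (@Lb.r r1177 (@Lb.r r1626 (@Lb.r r1604 (@Lb.d (nat_lit 153) (nat_lit 137) (nat_lit 580) (@Lb.fp (nat_lit 9) t1368)))))))))))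
noncomputable def l7215 : Lb := (@Lb.d (nat_lit 0) (nat_lit 18) (nat_lit 0) (@Lb.g g5 (@Lb.g g11 (@Lb.r r2579 (@Lb.r r1096 (@Lb.r r2150 (@Lb.d (nat_lit 0) (nat_lit 38) (nat_lit 405) (@Lb.fp (nat_lit 3) t1853))))))))
noncomputable def l7216 : Lb := (@Lb.r r263 (@Lb.d (nat_lit 5) (nat_lit 0) (nat_lit 26) (@Lb.g g8 (@Lb.g g9 (@Lb.g g10 (@Lb.r r2449 (@Lb.r r299 (@Lb.r r2468 (@Lb.d (nat_lit 106) (nat_lit 102) (nat_lit 546) (@Lb.t (@Lb.fm (nat_lit 9) t1643)))))))))))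
noncomputable def l7217 : Lb := (@Lb.r r275 (@Lb.d (nat_lit 2) (nat_lit 512) (nat_lit 2) (@Lb.g g8 (@Lb.g g9 (@Lb.g g10 (@Lb.r r2666 (@Lb.r r1603 (@Lb.r r1313 (@Lb.d (nat_lit 521) (nat_lit 73) (nat_lit 2) (@Lb.t (@Lb.fm (nat_lit 9) t1444)))))))))))
noncomputable def l7218 : Lb := (@Lb.r r323 (@Lb.g g10 (@Lb.r r395 (@Lb.r r2069 (@Lb.r r36 (@Lb.r r2114 (@Lb.d (nat_lit 138) (nat_lit 402) (nat_lit 256) (@Lb.t (@Lb.fp (nat_lit 3) t1854)))))))))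
noncomputable def l7219 : Lb := (@Lb.d (nat_lit 32) (nat_lit 264) (nat_lit 2) (@Lb.g g10 (@Lb.r r1380 (@Lb.r r2715 (@Lb.r r357 (@Lb.r r666 (@Lb.d (nat_lit 72) (nat_lit 105) (nat_lit 165) (@Lb.t (@Lb.fm (nat_lit 3) t127)))))))))
noncomputable def l7220 : Lb := (@Lb.d (nat_lit 0) (nat_lit 514) (nat_lit 73) (@Lb.g g9 (@Lb.g g10 (@Lb.g g11 (@Lb.r r2666 (@Lb.r r579 (@Lb.r r97 (@Lb.d (nat_lit 601) (nat_lit 37) (nat_lit 356) (@Lb.t (@Lb.fm (nat_lit 9) t1231))))))))))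
noncomputable def l7221 : Lb := (@Lb.d (nat_lit 0) (nat_lit 1) (nat_lit 74) (@Lb.g g9 (@Lb.g g10 (@Lb.g g11 (@Lb.r r611 (@Lb.r r1642 (@Lb.r r2660 (@Lb.r r2581 (@Lb.d (nat_lit 386) (nat_lit 80) (nat_lit 389) (@Lb.t (@Lb.fp (nat_lit 9) t507)))))))))))
noncomputable def l7222 : Lb := (@Lb.d (nat_lit 0) (nat_lit 514) (nat_lit 73) (@Lb.g g9 (@Lb.g g10 (@Lb.g g11 (@Lb.r r1699 (@Lb.r r1193 (@Lb.r r1188 (@Lb.r r1638 (@Lb.d (nat_lit 404) (nat_lit 96) (nat_lit 358) (@Lb.t (@Lb.fm (nat_lit 9) t1146)))))))))))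
noncomputable def l7223 : Lb := (@Lb.d (nat_lit 0) (nat_lit 260) (nat_lit 74) (@Lb.g g9 (@Lb.g g10 (@Lb.g g11 (@Lb.r r2666 (@Lb.r r579 (@Lb.r r1377 (@Lb.d (nat_lit 153) (nat_lit 69) (nat_lit 656) (@Lb.t (@Lb.fm (nat_lit 9) t1147))))))))))
noncomputable def l7224 : Lb := (@Lb.r r323 (@Lb.g g5 (@Lb.g g10 (@Lb.r r395 (@Lb.r r24 (@Lb.r r2114 (@Lb.d (nat_lit 584) (nat_lit 546) (nat_lit 384) (@Lb.fm (nat_lit 3) t1855))))))))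
noncomputable def l7225 : Lb := (@Lb.d (nat_lit 0) (nat_lit 513) (nat_lit 74) (@Lb.g g9 (@Lb.g g10 (@Lb.g g11 (@Lb.r r611 (@Lb.r r1642 (@Lb.r r2660 (@Lb.r r2581 (@Lb.d (nat_lit 384) (nat_lit 80) (nat_lit 389) (@Lb.t (@Lb.fp (nat_lit 9) t507)))))))))))
noncomputable def l7226 : Lb := (@Lb.r r355 (@Lb.d (nat_lit 16) (nat_lit 266) (nat_lit 33) (@Lb.g g9 (@Lb.g g6 (@Lb.r r2727 (@Lb.r r344 (@Lb.r r549 (@Lb.d (nat_lit 386) (nat_lit 1) (nat_lit 134) (@Lb.fm (nat_lit 3) t467)))))))))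
noncomputable def l7227 : Lb := (@Lb.r r323 (@Lb.d (nat_lit 40) (nat_lit 2) (nat_lit 2) (@Lb.g g9 (@Lb.g g10 (@Lb.r r584 (@Lb.r r299 (@Lb.r r1425 (@Lb.d (nat_lit 294) (nat_lit 4) (nat_lit 0) (@Lb.fp (nat_lit 3) t410)))))))))
noncomputable def l7228 : Lb := (@Lb.d (nat_lit 0) (nat_lit 514) (nat_lit 130) (@Lb.g g8 (@Lb.g g9 (@Lb.g g10 (@Lb.g g11 (@Lb.r r1367 (@Lb.r r1366 (@Lb.r r97 (@Lb.r r24 (@Lb.d (nat_lit 617) (nat_lit 9) (nat_lit 601) (@Lb.fp (nat_lit 9) t277)))))))))))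
noncomputable def l7229 : Lb := (@Lb.d (nat_lit 2) (nat_lit 256) (nat_lit 0) (@Lb.r r579 (@Lb.r r2450 (@Lb.r r101 (@Lb.g g7 (@Lb.g g4 (@Lb.d (nat_lit 517) (nat_lit 0) (nat_lit 0) (@Lb.r r74 (@Lb.r r25 (@Lb.fp (nat_lit 3) t984))))))))))
noncomputable def l7230 : Lb := (@Lb.r r323 (@Lb.d (nat_lit 0) (nat_lit 514) (nat_lit 1) (@Lb.g g8 (@Lb.g g9 (@Lb.g g6 (@Lb.r r579 (@Lb.r r97 (@Lb.r r24 (@Lb.d (nat_lit 536) (nat_lit 9) (nat_lit 38) (@Lb.t (@Lb.fm (nat_lit 9) t40)))))))))))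
noncomputable def l7231 : Lb := (@Lb.d (nat_lit 657) (nat_lit 256) (nat_lit 262) (@Lb.r r24 (@Lb.r r101 (@Lb.r r386 (@Lb.g g11 (@Lb.g g6 (@Lb.g g5 (@Lb.d (nat_lit 0) (nat_lit 0) (nat_lit 1) (@Lb.t (@Lb.fp (nat_lit 9) t475))))))))))
noncomputable def l7232 : Lb := (@Lb.d (nat_lit 513) (nat_lit 512) (nat_lit 16) (@Lb.r r24 (@Lb.r r2138 (@Lb.r r149 (@Lb.r r2451 (@Lb.g g9 (@Lb.t (@Lb.fm (nat_lit 3) t7))))))))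
noncomputable def l7233 : Lb := (@Lb.d (nat_lit 16) (nat_lit 512) (nat_lit 1) (@Lb.r r24 (@Lb.r r101 (@Lb.r r162 (@Lb.r r419 (@Lb.g g6 (@Lb.g g5 (@Lb.d (nat_lit 0) (nat_lit 5) (nat_lit 0) (@Lb.r r387 (@Lb.fp (nat_lit 3) t5))))))))))
noncomputable def l7234 : Lb := (@Lb.d (nat_lit 4) (nat_lit 0) (nat_lit 130) (@Lb.g g8 (@Lb.g g9 (@Lb.g g10 (@Lb.g g11 (@Lb.r r427 (@Lb.r r420 (@Lb.r r102 (@Lb.r r97 (@Lb.r r36 (@Lb.d (nat_lit 9) (nat_lit 130) (nat_lit 74) (@Lb.fm (nat_lit 9) t119))))))))))))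
noncomputable def l7235 : Lb := (@Lb.d (nat_lit 512) (nat_lit 0) (nat_lit 16) (@Lb.r r24 (@Lb.r r2138 (@Lb.r r149 (@Lb.r r2451 (@Lb.g g9 (@Lb.t (@Lb.fm (nat_lit 3) t7))))))))
noncomputable def l7236 : Lb := (@Lb.d (nat_lit 130) (nat_lit 137) (nat_lit 0) (@Lb.g g8 (@Lb.g g5 (@Lb.r r263 (@Lb.r r2178 (@Lb.r r2692 (@Lb.d (nat_lit 674) (nat_lit 72) (nat_lit 405) (@Lb.fm (nat_lit 3) t124))))))))
noncomputable def l7237 : Lb := (@Lb.r r82 (@Lb.r r275 (@Lb.d (nat_lit 278) (nat_lit 265) (nat_lit 0) (@Lb.g g4 (@Lb.g g9 (@Lb.r r291 (@Lb.r r98 (@Lb.d (nat_lit 1) (nat_lit 5) (nat_lit 16) (@Lb.fp (nat_lit 3) t1715)))))))))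
noncomputable def l7238 : Lb := (@Lb.d (nat_lit 0) (nat_lit 290) (nat_lit 66) (@Lb.g g9 (@Lb.g g10 (@Lb.g g11 (@Lb.r r2710 (@Lb.r r1447 (@Lb.r r2193 (@Lb.d (nat_lit 344) (nat_lit 2) (nat_lit 161) (@Lb.t (@Lb.fp (nat_lit 9) t809))))))))))
noncomputable def l7239 : Lb := (@Lb.d (nat_lit 645) (nat_lit 649) (nat_lit 578) (@Lb.r r1317 (@Lb.r r2644 (@Lb.r r74 (@Lb.r r2579 (@Lb.g g6 (@Lb.g g5 (@Lb.g g4 (@Lb.d (nat_lit 2) (nat_lit 18) (nat_lit 2) (@Lb.t (@Lb.fp (nat_lit 9) t1856)))))))))))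
noncomputable def l7240 : Lb := (@Lb.d (nat_lit 106) (nat_lit 329) (nat_lit 66) (@Lb.r r24 (@Lb.r r273 (@Lb.r r338 (@Lb.r r679 (@Lb.g g7 (@Lb.g g6 (@Lb.g g5 (@Lb.d (nat_lit 0) (nat_lit 18) (nat_lit 8) (@Lb.t (@Lb.fp (nat_lit 9) t714)))))))))))
noncomputable def l7241 : Lb := (@Lb.d (nat_lit 289) (nat_lit 514) (nat_lit 16) (@Lb.r r24 (@Lb.r r2138 (@Lb.r r2331 (@Lb.g g9 (@Lb.d (nat_lit 8) (nat_lit 2) (nat_lit 0) (@Lb.t (@Lb.fm (nat_lit 3) t8))))))))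
noncomputable def l7242 : Lb := (@Lb.d (nat_lit 328) (nat_lit 161) (nat_lit 150) (@Lb.r r410 (@Lb.r r148 (@Lb.r r1365 (@Lb.g g7 (@Lb.g g6 (@Lb.g g5 (@Lb.d (nat_lit 80) (nat_lit 0) (nat_lit 385) (@Lb.t (@Lb.fm (nat_lit 9) t98))))))))))
noncomputable def l7243 : Lb := (@Lb.d (nat_lit 2) (nat_lit 2) (nat_lit 130) (@Lb.g g8 (@Lb.g g9 (@Lb.g g10 (@Lb.g g11 (@Lb.r r162 (@Lb.r r552 (@Lb.r r665 (@Lb.r r539 (@Lb.r r516 (@Lb.d (nat_lit 330) (nat_lit 73) (nat_lit 585) (@Lb.fm (nat_lit 9) t259))))))))))))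
noncomputable def l7244 : Lb := (@Lb.r r21 (@Lb.r r70 (@Lb.r r263 (@Lb.d (nat_lit 1) (nat_lit 0) (nat_lit 0) (@Lb.g g4 (@Lb.r r267 (@Lb.r r74 (@Lb.r r25 (@Lb.d (nat_lit 2) (nat_lit 0) (nat_lit 0) (@Lb.t (@Lb.fm (nat_lit 3) t1398)))))))))))
noncomputable def l7245 : Lb := (@Lb.d (nat_lit 17) (nat_lit 514) (nat_lit 34) (@Lb.r r24 (@Lb.r r386 (@Lb.r r2651 (@Lb.g g9 (@Lb.d (nat_lit 8) (nat_lit 34) (nat_lit 0) (@Lb.r r291 (@Lb.r r98 (@Lb.t (@Lb.fm (nat_lit 3) t475))))))))))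
noncomputable def l7246 : Lb := (@Lb.d (nat_lit 0) (nat_lit 2) (nat_lit 73) (@Lb.g g8 (@Lb.g g9 (@Lb.g g10 (@Lb.g g11 (@Lb.r r2691 (@Lb.r r2665 (@Lb.r r1686 (@Lb.r r1096 (@Lb.d (nat_lit 672) (nat_lit 160) (nat_lit 89) (@Lb.fp (nat_lit 9) t807)))))))))))
noncomputable def l7247 : Lb := (@Lb.d (nat_lit 0) (nat_lit 258) (nat_lit 130) (@Lb.g g8 (@Lb.g g9 (@Lb.g g10 (@Lb.g g11 (@Lb.r r2691 (@Lb.r r2665 (@Lb.r r1686 (@Lb.r r1096 (@Lb.d (nat_lit 677) (nat_lit 161) (nat_lit 89) (@Lb.fp (nat_lit 9) t807)))))))))))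
noncomputable def l7248 : Lb := (@Lb.r r90 (@Lb.d (nat_lit 34) (nat_lit 2) (nat_lit 128) (@Lb.g g8 (@Lb.g g9 (@Lb.g g11 (@Lb.r r1371 (@Lb.r r2646 (@Lb.r r2212 (@Lb.d (nat_lit 544) (nat_lit 160) (nat_lit 417) (@Lb.t (@Lb.fm (nat_lit 9) t1857)))))))))))
noncomputable def l7249 : Lb := (@Lb.d (nat_lit 0) (nat_lit 514) (nat_lit 130) (@Lb.g g8 (@Lb.g g9 (@Lb.g g10 (@Lb.g g11 (@Lb.r r2691 (@Lb.r r2665 (@Lb.r r1686 (@Lb.r r1096 (@Lb.d (nat_lit 672) (nat_lit 160) (nat_lit 89) (@Lb.fp (nat_lit 9) t807)))))))))))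
noncomputable def l7250 : Lb := (@Lb.d (nat_lit 0) (nat_lit 0) (nat_lit 68) (@Lb.g g10 (@Lb.g g7 (@Lb.r r1418 (@Lb.d (nat_lit 18) (nat_lit 0) (nat_lit 41) (@Lb.fm (nat_lit 3) t1858))))))
noncomputable def l7251 : Lb := (@Lb.d (nat_lit 0) (nat_lit 256) (nat_lit 134) (@Lb.g g10 (@Lb.g g11 (@Lb.r r24 (@Lb.r r2597 (@Lb.r r2403 (@Lb.r r658 (@Lb.d (nat_lit 0) (nat_lit 40) (nat_lit 424) (@Lb.fp (nat_lit 3) t391)))))))))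
noncomputable def l7252 : Lb := (@Lb.d (nat_lit 0) (nat_lit 512) (nat_lit 68) (@Lb.g g10 (@Lb.g g7 (@Lb.r r1418 (@Lb.d (nat_lit 18) (nat_lit 5) (nat_lit 42) (@Lb.fm (nat_lit 3) t1859))))))
noncomputable def l7253 : Lb := (@Lb.d (nat_lit 9) (nat_lit 2) (nat_lit 130) (@Lb.g g8 (@Lb.g g9 (@Lb.g g10 (@Lb.g g11 (@Lb.r r1579 (@Lb.r r1641 (@Lb.r r2454 (@Lb.r r1636 (@Lb.d (nat_lit 148) (nat_lit 25) (nat_lit 665) (@Lb.fm (nat_lit 9) t1860)))))))))))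
noncomputable def l7254 : Lb := (@Lb.d (nat_lit 0) (nat_lit 2) (nat_lit 130) (@Lb.g g9 (@Lb.g g10 (@Lb.g g11 (@Lb.r r1443 (@Lb.r r401 (@Lb.r r82 (@Lb.r r1169 (@Lb.r r8 (@Lb.d (nat_lit 330) (nat_lit 9) (nat_lit 34) (@Lb.t (@Lb.fp (nat_lit 9) t32))))))))))))
noncomputable def l7255 : Lb := (@Lb.d (nat_lit 0) (nat_lit 513) (nat_lit 130) (@Lb.g g9 (@Lb.g g10 (@Lb.g g11 (@Lb.r r1451 (@Lb.r r136 (@Lb.r r602 (@Lb.r r1429 (@Lb.r r2084 (@Lb.d (nat_lit 424) (nat_lit 72) (nat_lit 169) (@Lb.t (@Lb.fp (nat_lit 9) t32))))))))))))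
noncomputable def l7256 : Lb := (@Lb.d (nat_lit 34) (nat_lit 2) (nat_lit 130) (@Lb.g g8 (@Lb.g g9 (@Lb.g g10 (@Lb.g g11 (@Lb.r r599 (@Lb.r r682 (@Lb.r r2649 (@Lb.r r2628 (@Lb.d (nat_lit 665) (nat_lit 137) (nat_lit 612) (@Lb.fp (nat_lit 9) t474)))))))))))
noncomputable def l7257 : Lb := (@Lb.d (nat_lit 640) (nat_lit 514) (nat_lit 256) (@Lb.r r24 (@Lb.g g9 (@Lb.d (nat_lit 8) (nat_lit 2) (nat_lit 0) (@Lb.t (@Lb.fm (nat_lit 3) t121))))))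
noncomputable def l7258 : Lb := (@Lb.d (nat_lit 132) (nat_lit 0) (nat_lit 130) (@Lb.g g8 (@Lb.g g9 (@Lb.g g10 (@Lb.g g11 (@Lb.r r2459 (@Lb.r r1177 (@Lb.r r1626 (@Lb.r r1604 (@Lb.d (nat_lit 153) (nat_lit 137) (nat_lit 580) (@Lb.fp (nat_lit 9) t1368)))))))))))
noncomputable def l7259 : Lb := (@Lb.d (nat_lit 390) (nat_lit 598) (nat_lit 576) (@Lb.r r2584 (@Lb.r r97 (@Lb.r r2667 (@Lb.g g7 (@Lb.g g10 (@Lb.g g5 (@Lb.g g4 (@Lb.d (nat_lit 1) (nat_lit 6) (nat_lit 82) (@Lb.fp (nat_lit 9) t1852))))))))))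
noncomputable def l7260 : Lb := (@Lb.d (nat_lit 129) (nat_lit 2) (nat_lit 130) (@Lb.g g8 (@Lb.g g9 (@Lb.g g10 (@Lb.g g11 (@Lb.r r2459 (@Lb.r r1177 (@Lb.r r1626 (@Lb.r r1604 (@Lb.d (nat_lit 152) (nat_lit 137) (nat_lit 580) (@Lb.fp (nat_lit 9) t1152)))))))))))
noncomputable def l7261 : Lb := (@Lb.d (nat_lit 134) (nat_lit 512) (nat_lit 130) (@Lb.g g8 (@Lb.g g9 (@Lb.g g10 (@Lb.g g11 (@Lb.r r2666 (@Lb.r r2664 (@Lb.r r299 (@Lb.r r2337 (@Lb.d (nat_lit 521) (nat_lit 2) (nat_lit 426) (@Lb.fp (nat_lit 9) t631)))))))))))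
noncomputable def l7262 : Lb := (@Lb.d (nat_lit 38) (nat_lit 0) (nat_lit 129) (@Lb.g g8 (@Lb.g g9 (@Lb.g g6 (@Lb.g g11 (@Lb.r r529 (@Lb.r r407 (@Lb.r r612 (@Lb.d (nat_lit 409) (nat_lit 26) (nat_lit 168) (@Lb.fm (nat_lit 9) t1237))))))))))
noncomputable def l7263 : Lb := (@Lb.d (nat_lit 0) (nat_lit 0) (nat_lit 130) (@Lb.g g9 (@Lb.g g10 (@Lb.g g11 (@Lb.r r586 (@Lb.r r584 (@Lb.r r299 (@Lb.r r409 (@Lb.d (nat_lit 2) (nat_lit 69) (nat_lit 17) (@Lb.t (@Lb.fp (nat_lit 9) t1022)))))))))))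
noncomputable def l7264 : Lb := (@Lb.d (nat_lit 293) (nat_lit 1) (nat_lit 64) (@Lb.r r1416 (@Lb.r r2329 (@Lb.r r2178 (@Lb.g g7 (@Lb.g g5 (@Lb.d (nat_lit 64) (nat_lit 0) (nat_lit 328) (@Lb.fm (nat_lit 3) t1173))))))))
noncomputable def l7265 : Lb := (@Lb.r r82 (@Lb.r r275 (@Lb.d (nat_lit 2) (nat_lit 0) (nat_lit 0) (@Lb.g g8 (@Lb.g g9 (@Lb.r r2201 (@Lb.r r402 (@Lb.r r1603 (@Lb.d (nat_lit 1) (nat_lit 0) (nat_lit 0) (@Lb.fm (nat_lit 3) t536))))))))))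
noncomputable def l7266 : Lb := (@Lb.d (nat_lit 0) (nat_lit 649) (nat_lit 128) (@Lb.g g8 (@Lb.g g5 (@Lb.g g11 (@Lb.r r292 (@Lb.r r539 (@Lb.r r2178 (@Lb.r r516 (@Lb.d (nat_lit 554) (nat_lit 128) (nat_lit 2) (@Lb.t (@Lb.fp (nat_lit 9) t772)))))))))))
noncomputable def l7267 : Lb := (@Lb.d (nat_lit 0) (nat_lit 0) (nat_lit 128) (@Lb.g g9 (@Lb.g g11 (@Lb.r r134 (@Lb.r r584 (@Lb.r r619 (@Lb.r r609 (@Lb.d (nat_lit 6) (nat_lit 1) (nat_lit 16) (@Lb.fm (nat_lit 3) t334)))))))))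
noncomputable def l7268 : Lb := (@Lb.d (nat_lit 2) (nat_lit 512) (nat_lit 128) (@Lb.g g8 (@Lb.g g11 (@Lb.r r1114 (@Lb.r r1540 (@Lb.r r1447 (@Lb.r r1317 (@Lb.d (nat_lit 144) (nat_lit 72) (nat_lit 598) (@Lb.fp (nat_lit 3) t1861)))))))))
noncomputable def l7269 : Lb := (@Lb.d (nat_lit 0) (nat_lit 0) (nat_lit 128) (@Lb.g g9 (@Lb.g g11 (@Lb.r r134 (@Lb.r r584 (@Lb.r r299 (@Lb.r r409 (@Lb.d (nat_lit 24) (nat_lit 133) (nat_lit 161) (@Lb.fm (nat_lit 3) t1721)))))))))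
noncomputable def l7270 : Lb := (@Lb.d (nat_lit 133) (nat_lit 517) (nat_lit 74) (@Lb.g g8 (@Lb.g g9 (@Lb.g g10 (@Lb.g g11 (@Lb.r r683 (@Lb.r r2410 (@Lb.r r537 (@Lb.r r516 (@Lb.d (nat_lit 137) (nat_lit 89) (nat_lit 21) (@Lb.fm (nat_lit 9) t606)))))))))))
noncomputable def l7271 : Lb := (@Lb.r r81 (@Lb.r r323 (@Lb.d (nat_lit 2) (nat_lit 8) (nat_lit 1) (@Lb.g g8 (@Lb.g g6 (@Lb.r r2331 (@Lb.r r37 (@Lb.d (nat_lit 4) (nat_lit 70) (nat_lit 1) (@Lb.fm (nat_lit 3) t233)))))))))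
noncomputable def l7272 : Lb := (@Lb.d (nat_lit 2) (nat_lit 0) (nat_lit 128) (@Lb.g g8 (@Lb.g g11 (@Lb.r r593 (@Lb.r r2587 (@Lb.r r2178 (@Lb.r r2584 (@Lb.d (nat_lit 66) (nat_lit 36) (nat_lit 417) (@Lb.fp (nat_lit 3) t417)))))))))
noncomputable def l7273 : Lb := (@Lb.r r82 (@Lb.r r275 (@Lb.d (nat_lit 2) (nat_lit 256) (nat_lit 0) (@Lb.g g8 (@Lb.g g9 (@Lb.r r299 (@Lb.r r106 (@Lb.r r25 (@Lb.d (nat_lit 9) (nat_lit 9) (nat_lit 2) (@Lb.fm (nat_lit 3) t1862))))))))))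
noncomputable def l7274 : Lb := (@Lb.r r323 (@Lb.d (nat_lit 2) (nat_lit 9) (nat_lit 2) (@Lb.g g8 (@Lb.g g9 (@Lb.g g10 (@Lb.r r2347 (@Lb.r r2201 (@Lb.r r146 (@Lb.d (nat_lit 289) (nat_lit 72) (nat_lit 32) (@Lb.t (@Lb.fp (nat_lit 9) t7)))))))))))
noncomputable def l7275 : Lb := (@Lb.r r90 (@Lb.d (nat_lit 36) (nat_lit 0) (nat_lit 128) (@Lb.g g8 (@Lb.g g9 (@Lb.g g11 (@Lb.r r1315 (@Lb.r r2646 (@Lb.r r1425 (@Lb.r r1572 (@Lb.d (nat_lit 394) (nat_lit 86) (nat_lit 82) (@Lb.t (@Lb.fm (nat_lit 9) t535))))))))))))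
noncomputable def l7276 : Lb := (@Lb.d (nat_lit 25) (nat_lit 9) (nat_lit 130) (@Lb.g g8 (@Lb.g g9 (@Lb.g g10 (@Lb.g g11 (@Lb.r r1451 (@Lb.r r392 (@Lb.r r2138 (@Lb.r r1173 (@Lb.r r1060 (@Lb.d (nat_lit 162) (nat_lit 9) (nat_lit 646) (@Lb.fm (nat_lit 9) t1857))))))))))))
noncomputable def l7277 : Lb := (@Lb.d (nat_lit 2) (nat_lit 2) (nat_lit 130) (@Lb.g g8 (@Lb.g g9 (@Lb.g g10 (@Lb.g g11 (@Lb.r r582 (@Lb.r r388 (@Lb.r r1323 (@Lb.r r1433 (@Lb.d (nat_lit 277) (nat_lit 134) (nat_lit 402) (@Lb.fp (nat_lit 9) t519)))))))))))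
noncomputable def l7278 : Lb := (@Lb.d (nat_lit 33) (nat_lit 649) (nat_lit 136) (@Lb.g g8 (@Lb.g g5 (@Lb.g g11 (@Lb.r r102 (@Lb.r r388 (@Lb.r r1563 (@Lb.d (nat_lit 10) (nat_lit 102) (nat_lit 357) (@Lb.t (@Lb.fm (nat_lit 9) t1324))))))))))
noncomputable def l7279 : Lb := (@Lb.d (nat_lit 8) (nat_lit 2) (nat_lit 73) (@Lb.g g9 (@Lb.g g10 (@Lb.g g11 (@Lb.r r614 (@Lb.r r404 (@Lb.r r1371 (@Lb.r r2705 (@Lb.d (nat_lit 4) (nat_lit 33) (nat_lit 296) (@Lb.t (@Lb.fm (nat_lit 9) t71)))))))))))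
noncomputable def l7280 : Lb := (@Lb.r r323 (@Lb.d (nat_lit 2) (nat_lit 2) (nat_lit 0) (@Lb.g g8 (@Lb.g g9 (@Lb.g g10 (@Lb.r r2218 (@Lb.r r1444 (@Lb.r r2331 (@Lb.r r1553 (@Lb.d (nat_lit 0) (nat_lit 97) (nat_lit 586) (@Lb.t (@Lb.fp (nat_lit 9) t51))))))))))))
noncomputable def l7281 : Lb := (@Lb.g g7 (@Lb.r r1425 (@Lb.r r402 (@Lb.r r1379 (@Lb.r r1124 (@Lb.d (nat_lit 0) (nat_lit 81) (nat_lit 42) (@Lb.t (@Lb.fp (nat_lit 3) t772))))))))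
noncomputable def l7282 : Lb := (@Lb.r r275 (@Lb.d (nat_lit 2) (nat_lit 514) (nat_lit 2) (@Lb.g g8 (@Lb.g g9 (@Lb.g g10 (@Lb.r r2667 (@Lb.r r578 (@Lb.r r417 (@Lb.r r24 (@Lb.d (nat_lit 618) (nat_lit 37) (nat_lit 596) (@Lb.t (@Lb.fp (nat_lit 9) t123))))))))))))
noncomputable def l7283 : Lb := (@Lb.d (nat_lit 0) (nat_lit 1) (nat_lit 73) (@Lb.g g8 (@Lb.g g9 (@Lb.g g10 (@Lb.g g11 (@Lb.r r618 (@Lb.r r105 (@Lb.r r340 (@Lb.r r2587 (@Lb.r r2564 (@Lb.d (nat_lit 4) (nat_lit 145) (nat_lit 640) (@Lb.fp (nat_lit 9) t71))))))))))))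
noncomputable def l7284 : Lb := (@Lb.r r82 (@Lb.d (nat_lit 2) (nat_lit 0) (nat_lit 64) (@Lb.g g8 (@Lb.g g9 (@Lb.g g7 (@Lb.r r362 (@Lb.r r281 (@Lb.d (nat_lit 137) (nat_lit 2) (nat_lit 84) (@Lb.t (@Lb.fp (nat_lit 9) t406))))))))))
noncomputable def l7285 : Lb := (@Lb.d (nat_lit 97) (nat_lit 17) (nat_lit 658) (@Lb.r r583 (@Lb.r r404 (@Lb.r r105 (@Lb.g g7 (@Lb.g g10 (@Lb.g g4 (@Lb.d (nat_lit 18) (nat_lit 16) (nat_lit 82) (@Lb.r r145 (@Lb.t (@Lb.fm (nat_lit 9) t1863)))))))))))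
noncomputable def l7286 : Lb := (@Lb.d (nat_lit 0) (nat_lit 545) (nat_lit 73) (@Lb.g g9 (@Lb.g g10 (@Lb.g g11 (@Lb.r r1699 (@Lb.r r362 (@Lb.r r1561 (@Lb.d (nat_lit 41) (nat_lit 137) (nat_lit 533) (@Lb.t (@Lb.fp (nat_lit 9) t809))))))))))
noncomputable def l7287 : Lb := (@Lb.r r323 (@Lb.d (nat_lit 26) (nat_lit 521) (nat_lit 2) (@Lb.g g8 (@Lb.g g9 (@Lb.g g10 (@Lb.r r2705 (@Lb.r r1619 (@Lb.r r70 (@Lb.r r2440 (@Lb.d (nat_lit 82) (nat_lit 0) (nat_lit 154) (@Lb.t (@Lb.fm (nat_lit 9) t1033))))))))))))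
noncomputable def l7288 : Lb := (@Lb.d (nat_lit 2) (nat_lit 514) (nat_lit 137) (@Lb.g g8 (@Lb.g g9 (@Lb.g g10 (@Lb.g g11 (@Lb.r r1706 (@Lb.r r676 (@Lb.r r551 (@Lb.r r1557 (@Lb.r r1060 (@Lb.d (nat_lit 649) (nat_lit 65) (nat_lit 330) (@Lb.fp (nat_lit 9) t284))))))))))))
noncomputable def l7289 : Lb := (@Lb.d (nat_lit 2) (nat_lit 258) (nat_lit 73) (@Lb.g g8 (@Lb.g g9 (@Lb.g g10 (@Lb.g g11 (@Lb.r r2691 (@Lb.r r297 (@Lb.r r360 (@Lb.r r582 (@Lb.r r2180 (@Lb.d (nat_lit 641) (nat_lit 73) (nat_lit 329) (@Lb.fm (nat_lit 9) t758))))))))))))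
noncomputable def l7290 : Lb := (@Lb.r r263 (@Lb.d (nat_lit 2) (nat_lit 2) (nat_lit 2) (@Lb.g g8 (@Lb.g g9 (@Lb.g g10 (@Lb.r r2454 (@Lb.r r1367 (@Lb.r r409 (@Lb.r r388 (@Lb.d (nat_lit 105) (nat_lit 132) (nat_lit 545) (@Lb.t (@Lb.fp (nat_lit 9) t394))))))))))))
noncomputable def l7291 : Lb := (@Lb.d (nat_lit 1) (nat_lit 32) (nat_lit 130) (@Lb.g g8 (@Lb.g g10 (@Lb.g g11 (@Lb.r r602 (@Lb.r r600 (@Lb.r r293 (@Lb.r r2587 (@Lb.d (nat_lit 322) (nat_lit 105) (nat_lit 278) (@Lb.t (@Lb.fp (nat_lit 9) t71)))))))))))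
noncomputable def l7292 : Lb := (@Lb.d (nat_lit 2) (nat_lit 40) (nat_lit 65) (@Lb.g g8 (@Lb.g g9 (@Lb.g g10 (@Lb.g g11 (@Lb.r r1706 (@Lb.r r1700 (@Lb.r r1575 (@Lb.r r1557 (@Lb.d (nat_lit 388) (nat_lit 106) (nat_lit 585) (@Lb.fp (nat_lit 9) t151)))))))))))
noncomputable def l7293 : Lb := (@Lb.r r21 (@Lb.d (nat_lit 160) (nat_lit 512) (nat_lit 65) (@Lb.g g8 (@Lb.g g10 (@Lb.g g11 (@Lb.r r1691 (@Lb.r r1689 (@Lb.r r1370 (@Lb.r r1556 (@Lb.d (nat_lit 340) (nat_lit 84) (nat_lit 169) (@Lb.t (@Lb.fp (nat_lit 9) t68))))))))))))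
noncomputable def l7294 : Lb := (@Lb.r r21 (@Lb.r r263 (@Lb.d (nat_lit 34) (nat_lit 512) (nat_lit 1) (@Lb.g g8 (@Lb.g g10 (@Lb.r r395 (@Lb.r r132 (@Lb.r r134 (@Lb.r r25 (@Lb.d (nat_lit 18) (nat_lit 0) (nat_lit 0) (@Lb.fp (nat_lit 3) t168)))))))))))
noncomputable def l7295 : Lb := (@Lb.d (nat_lit 16) (nat_lit 514) (nat_lit 128) (@Lb.g g8 (@Lb.g g9 (@Lb.g g10 (@Lb.g g11 (@Lb.r r683 (@Lb.r r676 (@Lb.r r1190 (@Lb.r r145 (@Lb.d (nat_lit 265) (nat_lit 137) (nat_lit 425) (@Lb.fp (nat_lit 9) t152)))))))))))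
noncomputable def l7296 : Lb := (@Lb.r r24 (@Lb.r r101 (@Lb.d (nat_lit 0) (nat_lit 518) (nat_lit 0) (@Lb.fp (nat_lit 1) t97))))
noncomputable def l7297 : Lb := (@Lb.r r21 (@Lb.d (nat_lit 18) (nat_lit 256) (nat_lit 74) (@Lb.g g4 (@Lb.g g10 (@Lb.g g11 (@Lb.r r1687 (@Lb.r r2401 (@Lb.r r1170 (@Lb.d (nat_lit 537) (nat_lit 73) (nat_lit 34) (@Lb.t (@Lb.fm (nat_lit 9) t68)))))))))))
noncomputable def l7298 : Lb := (@Lb.d (nat_lit 41) (nat_lit 512) (nat_lit 72) (@Lb.g g8 (@Lb.g g11 (@Lb.r r2370 (@Lb.r r1703 (@Lb.r r1573 (@Lb.r r1300 (@Lb.d (nat_lit 326) (nat_lit 82) (nat_lit 418) (@Lb.fm (nat_lit 3) t322)))))))))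
noncomputable def l7299 : Lb := (@Lb.r r2311 (@Lb.r r664 (@Lb.r r154 (@Lb.r r2133 (@Lb.r r164 (@Lb.d (nat_lit 0) (nat_lit 256) (nat_lit 132) (@Lb.fp (nat_lit 1) t188)))))))
noncomputable def l7300 : Lb := (@Lb.d (nat_lit 40) (nat_lit 256) (nat_lit 72) (@Lb.g g8 (@Lb.g g11 (@Lb.r r2370 (@Lb.r r1703 (@Lb.r r1573 (@Lb.r r1300 (@Lb.d (nat_lit 326) (nat_lit 89) (nat_lit 417) (@Lb.fm (nat_lit 3) t322)))))))))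
noncomputable def l7301 : Lb := (@Lb.d (nat_lit 16) (nat_lit 258) (nat_lit 74) (@Lb.g g8 (@Lb.g g9 (@Lb.g g10 (@Lb.g g11 (@Lb.r r683 (@Lb.r r676 (@Lb.r r1190 (@Lb.r r145 (@Lb.d (nat_lit 265) (nat_lit 132) (nat_lit 424) (@Lb.fp (nat_lit 9) t152)))))))))))
noncomputable def l7302 : Lb := (@Lb.r r20 (@Lb.r r275 (@Lb.d (nat_lit 8) (nat_lit 518) (nat_lit 0) (@Lb.g g5 (@Lb.g g10 (@Lb.r r1174 (@Lb.r r2376 (@Lb.r r1543 (@Lb.d (nat_lit 10) (nat_lit 0) (nat_lit 517) (@Lb.fm (nat_lit 3) t68))))))))))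
noncomputable def l7303 : Lb := (@Lb.d (nat_lit 16) (nat_lit 514) (nat_lit 128) (@Lb.g g8 (@Lb.g g9 (@Lb.g g10 (@Lb.g g11 (@Lb.r r683 (@Lb.r r676 (@Lb.r r1190 (@Lb.r r145 (@Lb.d (nat_lit 266) (nat_lit 132) (nat_lit 424) (@Lb.fp (nat_lit 9) t152)))))))))))
noncomputable def l7304 : Lb := (@Lb.r r264 (@Lb.r r2711 (@Lb.r r2178 (@Lb.r r2473 (@Lb.r r2084 (@Lb.d (nat_lit 273) (nat_lit 256) (nat_lit 16) (@Lb.fp (nat_lit 1) t64)))))))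
noncomputable def l7305 : Lb := (@Lb.r r21 (@Lb.r r323 (@Lb.d (nat_lit 512) (nat_lit 516) (nat_lit 2) (@Lb.g g8 (@Lb.g g10 (@Lb.r r409 (@Lb.r r683 (@Lb.r r650 (@Lb.d (nat_lit 129) (nat_lit 10) (nat_lit 677) (@Lb.fm (nat_lit 3) t221))))))))))
noncomputable def l7306 : Lb := (@Lb.r r24 (@Lb.r r101 (@Lb.d (nat_lit 0) (nat_lit 264) (nat_lit 1) (@Lb.fp (nat_lit 1) t97))))
noncomputable def l7307 : Lb := (@Lb.d (nat_lit 100) (nat_lit 294) (nat_lit 70) (@Lb.r r408 (@Lb.r r330 (@Lb.r r407 (@Lb.g g7 (@Lb.g g5 (@Lb.g g4 (@Lb.d (nat_lit 17) (nat_lit 1) (nat_lit 64) (@Lb.r r98 (@Lb.t (@Lb.fm (nat_lit 9) t98)))))))))))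
noncomputable def l7308 : Lb := (@Lb.d (nat_lit 1) (nat_lit 2) (nat_lit 1) (@Lb.r r101 (@Lb.g g4 (@Lb.d (nat_lit 6) (nat_lit 0) (nat_lit 0) (@Lb.t (@Lb.fp (nat_lit 3) t285))))))
noncomputable def l7309 : Lb := (@Lb.d (nat_lit 1) (nat_lit 258) (nat_lit 1) (@Lb.r r101 (@Lb.g g4 (@Lb.d (nat_lit 5) (nat_lit 0) (nat_lit 0) (@Lb.t (@Lb.fp (nat_lit 3) t285))))))
noncomputable def l7310 : Lb := (@Lb.d (nat_lit 105) (nat_lit 292) (nat_lit 1) (@Lb.r r408 (@Lb.r r330 (@Lb.r r407 (@Lb.g g7 (@Lb.g g5 (@Lb.g g4 (@Lb.d (nat_lit 17) (nat_lit 1) (nat_lit 64) (@Lb.r r98 (@Lb.t (@Lb.fm (nat_lit 9) t98)))))))))))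
noncomputable def l7311 : Lb := (@Lb.d (nat_lit 105) (nat_lit 548) (nat_lit 70) (@Lb.r r408 (@Lb.r r330 (@Lb.r r407 (@Lb.g g7 (@Lb.g g5 (@Lb.g g4 (@Lb.d (nat_lit 18) (nat_lit 1) (nat_lit 64) (@Lb.r r98 (@Lb.t (@Lb.fm (nat_lit 9) t98)))))))))))
noncomputable def l7312 : Lb := (@Lb.d (nat_lit 105) (nat_lit 36) (nat_lit 70) (@Lb.r r408 (@Lb.r r330 (@Lb.r r407 (@Lb.g g7 (@Lb.g g5 (@Lb.g g4 (@Lb.d (nat_lit 17) (nat_lit 1) (nat_lit 64) (@Lb.r r98 (@Lb.t (@Lb.fm (nat_lit 9) t98)))))))))))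
noncomputable def l7313 : Lb := (@Lb.d (nat_lit 550) (nat_lit 577) (nat_lit 70) (@Lb.r r2138 (@Lb.r r2644 (@Lb.r r2391 (@Lb.g g7 (@Lb.g g6 (@Lb.g g5 (@Lb.g g4 (@Lb.d (nat_lit 1) (nat_lit 65) (nat_lit 65) (@Lb.fp (nat_lit 9) t892))))))))))
noncomputable def l7314 : Lb := (@Lb.d (nat_lit 0) (nat_lit 260) (nat_lit 129) (@Lb.g g9 (@Lb.g g10 (@Lb.g g11 (@Lb.r r1671 (@Lb.r r297 (@Lb.r r2376 (@Lb.r r1638 (@Lb.d (nat_lit 409) (nat_lit 90) (nat_lit 613) (@Lb.t (@Lb.fp (nat_lit 9) t1170)))))))))))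
noncomputable def l7315 : Lb := (@Lb.d (nat_lit 0) (nat_lit 265) (nat_lit 73) (@Lb.g g9 (@Lb.g g10 (@Lb.g g11 (@Lb.r r1671 (@Lb.r r297 (@Lb.r r2376 (@Lb.r r1638 (@Lb.d (nat_lit 409) (nat_lit 90) (nat_lit 613) (@Lb.t (@Lb.fp (nat_lit 9) t1027)))))))))))
noncomputable def l7316 : Lb := (@Lb.d (nat_lit 0) (nat_lit 521) (nat_lit 130) (@Lb.g g9 (@Lb.g g10 (@Lb.g g11 (@Lb.r r1671 (@Lb.r r297 (@Lb.r r2376 (@Lb.r r1638 (@Lb.d (nat_lit 410) (nat_lit 90) (nat_lit 613) (@Lb.t (@Lb.fp (nat_lit 9) t1027)))))))))))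
noncomputable def l7317 : Lb := (@Lb.d (nat_lit 0) (nat_lit 289) (nat_lit 0) (@Lb.g g9 (@Lb.r r535 (@Lb.r r134 (@Lb.r r296 (@Lb.r r409 (@Lb.d (nat_lit 154) (nat_lit 101) (nat_lit 154) (@Lb.t (@Lb.fm (nat_lit 3) t479)))))))))
noncomputable def l7318 : Lb := (@Lb.d (nat_lit 4) (nat_lit 1) (nat_lit 0) (@Lb.g g5 (@Lb.r r24 (@Lb.d (nat_lit 2) (nat_lit 6) (nat_lit 1) (@Lb.t (@Lb.fp (nat_lit 3) t45))))))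
noncomputable def l7319 : Lb := (@Lb.r r70 (@Lb.d (nat_lit 129) (nat_lit 650) (nat_lit 64) (@Lb.g g8 (@Lb.g g9 (@Lb.g g11 (@Lb.r r1547 (@Lb.r r2454 (@Lb.r r612 (@Lb.d (nat_lit 392) (nat_lit 17) (nat_lit 152) (@Lb.t (@Lb.fm (nat_lit 9) t1864)))))))))))
noncomputable def l7320 : Lb := (@Lb.d (nat_lit 0) (nat_lit 512) (nat_lit 130) (@Lb.g g9 (@Lb.g g10 (@Lb.g g11 (@Lb.r r1451 (@Lb.r r409 (@Lb.r r2138 (@Lb.r r1169 (@Lb.d (nat_lit 516) (nat_lit 8) (nat_lit 18) (@Lb.t (@Lb.fm (nat_lit 9) t221)))))))))))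
noncomputable def l7321 : Lb := (@Lb.d (nat_lit 148) (nat_lit 512) (nat_lit 128) (@Lb.g g8 (@Lb.g g9 (@Lb.g g10 (@Lb.g g11 (@Lb.r r683 (@Lb.r r618 (@Lb.r r1561 (@Lb.r r1560 (@Lb.d (nat_lit 586) (nat_lit 105) (nat_lit 673) (@Lb.fp (nat_lit 9) t941)))))))))))
noncomputable def l7322 : Lb := (@Lb.d (nat_lit 146) (nat_lit 514) (nat_lit 5) (@Lb.g g8 (@Lb.g g9 (@Lb.g g10 (@Lb.g g11 (@Lb.r r683 (@Lb.r r618 (@Lb.r r1561 (@Lb.r r1540 (@Lb.d (nat_lit 390) (nat_lit 9) (nat_lit 673) (@Lb.fm (nat_lit 9) t1865)))))))))))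
noncomputable def l7323 : Lb := (@Lb.d (nat_lit 2) (nat_lit 514) (nat_lit 128) (@Lb.g g8 (@Lb.g g9 (@Lb.g g10 (@Lb.g g11 (@Lb.r r643 (@Lb.r r657 (@Lb.r r612 (@Lb.r r666 (@Lb.r r132 (@Lb.d (nat_lit 326) (nat_lit 33) (nat_lit 586) (@Lb.fp (nat_lit 9) t1866))))))))))))
noncomputable def l7324 : Lb := (@Lb.d (nat_lit 37) (nat_lit 650) (nat_lit 72) (@Lb.g g8 (@Lb.g g9 (@Lb.g g10 (@Lb.g g11 (@Lb.r r1675 (@Lb.r r1642 (@Lb.r r552 (@Lb.d (nat_lit 593) (nat_lit 84) (nat_lit 144) (@Lb.fp (nat_lit 9) t1867))))))))))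
noncomputable def l7325 : Lb := (@Lb.d (nat_lit 16) (nat_lit 258) (nat_lit 128) (@Lb.g g8 (@Lb.g g9 (@Lb.g g10 (@Lb.g g11 (@Lb.r r427 (@Lb.r r2601 (@Lb.r r616 (@Lb.r r2630 (@Lb.r r2180 (@Lb.d (nat_lit 393) (nat_lit 10) (nat_lit 552) (@Lb.fp (nat_lit 9) t86))))))))))))
noncomputable def l7326 : Lb := (@Lb.r r82 (@Lb.d (nat_lit 0) (nat_lit 520) (nat_lit 128) (@Lb.g g9 (@Lb.g g11 (@Lb.r r355 (@Lb.r r578 (@Lb.d (nat_lit 0) (nat_lit 33) (nat_lit 84) (@Lb.fm (nat_lit 3) t1790))))))))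
noncomputable def l7327 : Lb := (@Lb.d (nat_lit 134) (nat_lit 0) (nat_lit 4) (@Lb.g g8 (@Lb.g g9 (@Lb.g g10 (@Lb.g g11 (@Lb.r r683 (@Lb.r r618 (@Lb.r r537 (@Lb.r r536 (@Lb.d (nat_lit 74) (nat_lit 169) (nat_lit 129) (@Lb.fp (nat_lit 9) t218)))))))))))
noncomputable def l7328 : Lb := (@Lb.r r323 (@Lb.d (nat_lit 0) (nat_lit 10) (nat_lit 1) (@Lb.g g9 (@Lb.g g10 (@Lb.r r1371 (@Lb.r r2214 (@Lb.r r101 (@Lb.r r24 (@Lb.d (nat_lit 534) (nat_lit 4) (nat_lit 34) (@Lb.fp (nat_lit 3) t1556))))))))))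
noncomputable def l7329 : Lb := (@Lb.r r322 (@Lb.g g11 (@Lb.r r2694 (@Lb.r r1352 (@Lb.r r2583 (@Lb.r r409 (@Lb.d (nat_lit 256) (nat_lit 129) (nat_lit 18) (@Lb.t (@Lb.fm (nat_lit 3) t714)))))))))
noncomputable def l7330 : Lb := (@Lb.r r70 (@Lb.d (nat_lit 129) (nat_lit 2) (nat_lit 128) (@Lb.g g8 (@Lb.g g9 (@Lb.g g11 (@Lb.r r2411 (@Lb.r r2198 (@Lb.r r601 (@Lb.r r580 (@Lb.d (nat_lit 153) (nat_lit 132) (nat_lit 17) (@Lb.t (@Lb.fp (nat_lit 9) t394))))))))))))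
noncomputable def l7331 : Lb := (@Lb.r r323 (@Lb.d (nat_lit 130) (nat_lit 0) (nat_lit 0) (@Lb.g g8 (@Lb.g g10 (@Lb.r r279 (@Lb.r r97 (@Lb.r r146 (@Lb.r r612 (@Lb.d (nat_lit 154) (nat_lit 21) (nat_lit 137) (@Lb.fm (nat_lit 3) t40))))))))))
noncomputable def l7332 : Lb := (@Lb.d (nat_lit 1) (nat_lit 261) (nat_lit 34) (@Lb.r r97 (@Lb.r r86 (@Lb.r r424 (@Lb.r r343 (@Lb.g g7 (@Lb.g g6 (@Lb.g g5 (@Lb.d (nat_lit 0) (nat_lit 8) (nat_lit 64) (@Lb.t (@Lb.fp (nat_lit 9) t51)))))))))))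
noncomputable def l7333 : Lb := (@Lb.r r21 (@Lb.r r323 (@Lb.d (nat_lit 130) (nat_lit 4) (nat_lit 34) (@Lb.g g8 (@Lb.g g6 (@Lb.r r2439 (@Lb.r r97 (@Lb.r r1604 (@Lb.d (nat_lit 402) (nat_lit 128) (nat_lit 680) (@Lb.fm (nat_lit 3) t51))))))))))
noncomputable def l7334 : Lb := (@Lb.d (nat_lit 6) (nat_lit 518) (nat_lit 34) (@Lb.r r97 (@Lb.r r86 (@Lb.r r424 (@Lb.r r343 (@Lb.g g7 (@Lb.g g6 (@Lb.g g5 (@Lb.d (nat_lit 0) (nat_lit 1) (nat_lit 65) (@Lb.t (@Lb.fp (nat_lit 9) t51)))))))))))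
noncomputable def l7335 : Lb := (@Lb.r r322 (@Lb.g g11 (@Lb.r r2694 (@Lb.r r1352 (@Lb.r r2583 (@Lb.r r409 (@Lb.d (nat_lit 258) (nat_lit 385) (nat_lit 18) (@Lb.t (@Lb.fm (nat_lit 3) t714)))))))))
noncomputable def l7336 : Lb := (@Lb.d (nat_lit 38) (nat_lit 262) (nat_lit 74) (@Lb.r r154 (@Lb.r r404 (@Lb.r r363 (@Lb.r r353 (@Lb.g g7 (@Lb.g g6 (@Lb.g g4 (@Lb.d (nat_lit 4) (nat_lit 4) (nat_lit 65) (@Lb.t (@Lb.fp (nat_lit 9) t2)))))))))))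
noncomputable def l7337 : Lb := (@Lb.d (nat_lit 38) (nat_lit 518) (nat_lit 137) (@Lb.r r154 (@Lb.r r664 (@Lb.r r667 (@Lb.r r353 (@Lb.g g7 (@Lb.g g6 (@Lb.g g4 (@Lb.d (nat_lit 1) (nat_lit 4) (nat_lit 65) (@Lb.t (@Lb.fp (nat_lit 9) t2)))))))))))
noncomputable def l7338 : Lb := (@Lb.d (nat_lit 26) (nat_lit 322) (nat_lit 582) (@Lb.r r422 (@Lb.r r88 (@Lb.r r421 (@Lb.g g11 (@Lb.g g6 (@Lb.g g5 (@Lb.d (nat_lit 16) (nat_lit 17) (nat_lit 257) (@Lb.t (@Lb.fp (nat_lit 9) t490))))))))))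
noncomputable def l7339 : Lb := (@Lb.r r21 (@Lb.d (nat_lit 16) (nat_lit 0) (nat_lit 128) (@Lb.g g8 (@Lb.g g10 (@Lb.g g11 (@Lb.r r1351 (@Lb.r r402 (@Lb.r r97 (@Lb.r r1044 (@Lb.d (nat_lit 650) (nat_lit 33) (nat_lit 320) (@Lb.t (@Lb.fm (nat_lit 9) t512))))))))))))
noncomputable def l7340 : Lb := (@Lb.d (nat_lit 2) (nat_lit 260) (nat_lit 128) (@Lb.g g8 (@Lb.g g9 (@Lb.g g10 (@Lb.g g11 (@Lb.r r1367 (@Lb.r r386 (@Lb.r r1109 (@Lb.r r24 (@Lb.d (nat_lit 129) (nat_lit 137) (nat_lit 329) (@Lb.fp (nat_lit 9) t538)))))))))))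
noncomputable def l7341 : Lb := (@Lb.r r323 (@Lb.d (nat_lit 0) (nat_lit 34) (nat_lit 2) (@Lb.g g9 (@Lb.g g10 (@Lb.r r2587 (@Lb.r r2634 (@Lb.r r2564 (@Lb.d (nat_lit 513) (nat_lit 2) (nat_lit 37) (@Lb.fp (nat_lit 3) t312)))))))))
noncomputable def l7342 : Lb := (@Lb.d (nat_lit 136) (nat_lit 514) (nat_lit 130) (@Lb.g g9 (@Lb.g g10 (@Lb.g g11 (@Lb.r r618 (@Lb.r r24 (@Lb.r r405 (@Lb.r r2663 (@Lb.d (nat_lit 514) (nat_lit 88) (nat_lit 594) (@Lb.t (@Lb.fm (nat_lit 9) t312)))))))))))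
noncomputable def l7343 : Lb := (@Lb.d (nat_lit 660) (nat_lit 65) (nat_lit 84) (@Lb.r r2116 (@Lb.r r1555 (@Lb.r r2405 (@Lb.g g7 (@Lb.g g6 (@Lb.d (nat_lit 32) (nat_lit 16) (nat_lit 81) (@Lb.fm (nat_lit 3) t1868))))))))
noncomputable def l7344 : Lb := (@Lb.d (nat_lit 21) (nat_lit 577) (nat_lit 582) (@Lb.r r422 (@Lb.r r88 (@Lb.r r421 (@Lb.g g11 (@Lb.g g6 (@Lb.g g5 (@Lb.d (nat_lit 16) (nat_lit 17) (nat_lit 257) (@Lb.t (@Lb.fp (nat_lit 9) t490))))))))))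
noncomputable def l7345 : Lb := (@Lb.d (nat_lit 0) (nat_lit 258) (nat_lit 130) (@Lb.g g8 (@Lb.g g9 (@Lb.g g10 (@Lb.g g11 (@Lb.r r1687 (@Lb.r r345 (@Lb.r r1450 (@Lb.r r1416 (@Lb.d (nat_lit 41) (nat_lit 65) (nat_lit 1) (@Lb.fm (nat_lit 9) t1869)))))))))))
noncomputable def l7346 : Lb := (@Lb.d (nat_lit 102) (nat_lit 321) (nat_lit 536) (@Lb.r r1445 (@Lb.r r1094 (@Lb.r r2440 (@Lb.g g11 (@Lb.g g5 (@Lb.d (nat_lit 0) (nat_lit 17) (nat_lit 264) (@Lb.r r578 (@Lb.fp (nat_lit 3) t1870)))))))))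
noncomputable def l7347 : Lb := (@Lb.d (nat_lit 2) (nat_lit 516) (nat_lit 1) (@Lb.g g8 (@Lb.g g9 (@Lb.g g10 (@Lb.r r515 (@Lb.r r657 (@Lb.r r612 (@Lb.r r666 (@Lb.r r132 (@Lb.d (nat_lit 73) (nat_lit 2) (nat_lit 69) (@Lb.t (@Lb.fm (nat_lit 9) t1871))))))))))))
noncomputable def l7348 : Lb := (@Lb.r r323 (@Lb.d (nat_lit 0) (nat_lit 546) (nat_lit 2) (@Lb.g g9 (@Lb.g g10 (@Lb.r r599 (@Lb.r r420 (@Lb.r r102 (@Lb.r r101 (@Lb.d (nat_lit 26) (nat_lit 136) (nat_lit 17) (@Lb.fm (nat_lit 3) t356))))))))))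
noncomputable def l7349 : Lb := (@Lb.d (nat_lit 2) (nat_lit 2) (nat_lit 130) (@Lb.g g8 (@Lb.g g9 (@Lb.g g10 (@Lb.g g11 (@Lb.r r1323 (@Lb.r r297 (@Lb.r r168 (@Lb.r r138 (@Lb.r r132 (@Lb.d (nat_lit 128) (nat_lit 137) (nat_lit 585) (@Lb.fm (nat_lit 9) t1872))))))))))))
noncomputable def l7350 : Lb := (@Lb.r r82 (@Lb.d (nat_lit 1) (nat_lit 258) (nat_lit 128) (@Lb.g g8 (@Lb.g g9 (@Lb.g g11 (@Lb.r r555 (@Lb.r r548 (@Lb.r r165 (@Lb.r r98 (@Lb.d (nat_lit 9) (nat_lit 2) (nat_lit 138) (@Lb.t (@Lb.fm (nat_lit 9) t5))))))))))))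
noncomputable def l7351 : Lb := (@Lb.r r323 (@Lb.d (nat_lit 160) (nat_lit 258) (nat_lit 9) (@Lb.g g8 (@Lb.g g9 (@Lb.g g10 (@Lb.r r427 (@Lb.r r405 (@Lb.r r612 (@Lb.r r682 (@Lb.d (nat_lit 85) (nat_lit 32) (nat_lit 8) (@Lb.t (@Lb.fp (nat_lit 9) t264))))))))))))
noncomputable def l7352 : Lb := (@Lb.d (nat_lit 0) (nat_lit 517) (nat_lit 74) (@Lb.g g5 (@Lb.g g10 (@Lb.g g11 (@Lb.r r659 (@Lb.r r578 (@Lb.r r24 (@Lb.d (nat_lit 10) (nat_lit 152) (nat_lit 137) (@Lb.t (@Lb.fp (nat_lit 9) t1436))))))))))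
noncomputable def l7353 : Lb := (@Lb.d (nat_lit 9) (nat_lit 256) (nat_lit 0) (@Lb.g g8 (@Lb.r r101 (@Lb.d (nat_lit 2) (nat_lit 1) (nat_lit 2) (@Lb.t (@Lb.fm (nat_lit 3) t97))))))
noncomputable def l7354 : Lb := (@Lb.d (nat_lit 2) (nat_lit 5) (nat_lit 134) (@Lb.r r20 (@Lb.r r105 (@Lb.r r36 (@Lb.r r386 (@Lb.g g11 (@Lb.g g6 (@Lb.g g5 (@Lb.g g4 (@Lb.d (nat_lit 1) (nat_lit 0) (nat_lit 129) (@Lb.fm (nat_lit 9) t264)))))))))))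
noncomputable def l7355 : Lb := (@Lb.d (nat_lit 2) (nat_lit 261) (nat_lit 6) (@Lb.r r20 (@Lb.r r105 (@Lb.r r36 (@Lb.r r386 (@Lb.g g11 (@Lb.g g6 (@Lb.g g5 (@Lb.g g4 (@Lb.d (nat_lit 1) (nat_lit 0) (nat_lit 6) (@Lb.fm (nat_lit 9) t264)))))))))))
noncomputable def l7356 : Lb := (@Lb.r r82 (@Lb.d (nat_lit 1) (nat_lit 289) (nat_lit 64) (@Lb.g g8 (@Lb.g g9 (@Lb.g g11 (@Lb.r r555 (@Lb.r r612 (@Lb.r r90 (@Lb.r r37 (@Lb.d (nat_lit 33) (nat_lit 8) (nat_lit 138) (@Lb.t (@Lb.fm (nat_lit 9) t892))))))))))))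
noncomputable def l7357 : Lb := (@Lb.r r82 (@Lb.d (nat_lit 1) (nat_lit 514) (nat_lit 128) (@Lb.g g8 (@Lb.g g9 (@Lb.g g11 (@Lb.r r555 (@Lb.r r548 (@Lb.r r165 (@Lb.r r98 (@Lb.d (nat_lit 10) (nat_lit 4) (nat_lit 136) (@Lb.t (@Lb.fm (nat_lit 9) t892))))))))))))
noncomputable def l7358 : Lb := (@Lb.d (nat_lit 0) (nat_lit 258) (nat_lit 0) (@Lb.g g9 (@Lb.r r260 (@Lb.r r523 (@Lb.r r146 (@Lb.r r97 (@Lb.r r516 (@Lb.d (nat_lit 0) (nat_lit 1) (nat_lit 130) (@Lb.t (@Lb.fm (nat_lit 3) t44))))))))))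
noncomputable def l7359 : Lb := (@Lb.r r82 (@Lb.d (nat_lit 1) (nat_lit 2) (nat_lit 128) (@Lb.g g8 (@Lb.g g9 (@Lb.g g11 (@Lb.r r555 (@Lb.r r548 (@Lb.r r165 (@Lb.r r98 (@Lb.d (nat_lit 9) (nat_lit 4) (nat_lit 136) (@Lb.t (@Lb.fm (nat_lit 9) t892))))))))))))
noncomputable def l7360 : Lb := (@Lb.g g4 (@Lb.r r593 (@Lb.r r347 (@Lb.r r340 (@Lb.r r170 (@Lb.r r153 (@Lb.d (nat_lit 0) (nat_lit 261) (nat_lit 69) (@Lb.t (@Lb.fp (nat_lit 3) t45)))))))))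
noncomputable def l7361 : Lb := (@Lb.r r2145 (@Lb.d (nat_lit 2) (nat_lit 512) (nat_lit 16) (@Lb.fm (nat_lit 1) t126)))
noncomputable def l7362 : Lb := (@Lb.d (nat_lit 8) (nat_lit 2) (nat_lit 66) (@Lb.g g9 (@Lb.g g10 (@Lb.g g11 (@Lb.r r2587 (@Lb.r r1446 (@Lb.r r24 (@Lb.d (nat_lit 88) (nat_lit 1) (nat_lit 617) (@Lb.t (@Lb.fp (nat_lit 9) t441))))))))))
noncomputable def l7363 : Lb := (@Lb.d (nat_lit 130) (nat_lit 0) (nat_lit 0) (@Lb.g g8 (@Lb.r r263 (@Lb.r r1170 (@Lb.r r2145 (@Lb.r r520 (@Lb.d (nat_lit 66) (nat_lit 128) (nat_lit 0) (@Lb.t (@Lb.fm (nat_lit 3) t334)))))))))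
noncomputable def l7364 : Lb := (@Lb.d (nat_lit 8) (nat_lit 258) (nat_lit 0) (@Lb.g g9 (@Lb.r r24 (@Lb.d (nat_lit 298) (nat_lit 1) (nat_lit 16) (@Lb.t (@Lb.fm (nat_lit 3) t127))))))
noncomputable def l7365 : Lb := (@Lb.d (nat_lit 8) (nat_lit 514) (nat_lit 0) (@Lb.g g9 (@Lb.d (nat_lit 4) (nat_lit 74) (nat_lit 2) (@Lb.t (@Lb.fp (nat_lit 3) t21)))))
noncomputable def l7366 : Lb := (@Lb.d (nat_lit 1) (nat_lit 258) (nat_lit 130) (@Lb.g g8 (@Lb.g g9 (@Lb.g g10 (@Lb.g g11 (@Lb.r r2691 (@Lb.r r297 (@Lb.r r360 (@Lb.r r582 (@Lb.r r2180 (@Lb.d (nat_lit 641) (nat_lit 10) (nat_lit 329) (@Lb.fm (nat_lit 9) t242))))))))))))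
noncomputable def l7367 : Lb := (@Lb.d (nat_lit 10) (nat_lit 280) (nat_lit 640) (@Lb.g g8 (@Lb.g g10 (@Lb.g g11 (@Lb.r r2401 (@Lb.r r1366 (@Lb.r r1156 (@Lb.d (nat_lit 166) (nat_lit 96) (nat_lit 105) (@Lb.t (@Lb.fp (nat_lit 9) t506))))))))))
noncomputable def l7368 : Lb := (@Lb.r r82 (@Lb.d (nat_lit 0) (nat_lit 16) (nat_lit 68) (@Lb.g g9 (@Lb.g g7 (@Lb.r r386 (@Lb.r r97 (@Lb.d (nat_lit 0) (nat_lit 2) (nat_lit 64) (@Lb.fp (nat_lit 3) t1219))))))))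
noncomputable def l7369 : Lb := (@Lb.d (nat_lit 2) (nat_lit 66) (nat_lit 4) (@Lb.g g8 (@Lb.g g9 (@Lb.g g10 (@Lb.g g11 (@Lb.r r2475 (@Lb.r r2472 (@Lb.r r2154 (@Lb.d (nat_lit 294) (nat_lit 73) (nat_lit 153) (@Lb.fm (nat_lit 9) t410))))))))))
noncomputable def l7370 : Lb := (@Lb.d (nat_lit 2) (nat_lit 272) (nat_lit 2) (@Lb.g g8 (@Lb.g g9 (@Lb.g g10 (@Lb.g g11 (@Lb.r r427 (@Lb.r r1448 (@Lb.r r1130 (@Lb.r r1049 (@Lb.d (nat_lit 522) (nat_lit 73) (nat_lit 169) (@Lb.fm (nat_lit 9) t1747)))))))))))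
noncomputable def l7371 : Lb := (@Lb.r r21 (@Lb.r r70 (@Lb.d (nat_lit 0) (nat_lit 256) (nat_lit 128) (@Lb.g g8 (@Lb.g g11 (@Lb.r r353 (@Lb.r r1691 (@Lb.r r1170 (@Lb.r r584 (@Lb.d (nat_lit 66) (nat_lit 0) (nat_lit 0) (@Lb.fm (nat_lit 3) t1873)))))))))))
noncomputable def l7372 : Lb := (@Lb.d (nat_lit 128) (nat_lit 0) (nat_lit 128) (@Lb.g g11 (@Lb.r r361 (@Lb.r r1174 (@Lb.r r264 (@Lb.r r583 (@Lb.d (nat_lit 16) (nat_lit 0) (nat_lit 0) (@Lb.t (@Lb.fp (nat_lit 3) t506)))))))))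
noncomputable def l7373 : Lb := (@Lb.d (nat_lit 42) (nat_lit 16) (nat_lit 640) (@Lb.g g8 (@Lb.g g11 (@Lb.r r614 (@Lb.r r2149 (@Lb.r r2708 (@Lb.d (nat_lit 548) (nat_lit 170) (nat_lit 273) (@Lb.fp (nat_lit 3) t506))))))))
noncomputable def l7374 : Lb := (@Lb.r r82 (@Lb.d (nat_lit 32) (nat_lit 513) (nat_lit 128) (@Lb.g g8 (@Lb.g g9 (@Lb.g g11 (@Lb.r r1687 (@Lb.r r582 (@Lb.r r2329 (@Lb.r r408 (@Lb.d (nat_lit 409) (nat_lit 26) (nat_lit 17) (@Lb.t (@Lb.fm (nat_lit 9) t1874))))))))))))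
noncomputable def l7375 : Lb := (@Lb.d (nat_lit 0) (nat_lit 256) (nat_lit 136) (@Lb.g g11 (@Lb.r r2449 (@Lb.r r402 (@Lb.r r2403 (@Lb.d (nat_lit 0) (nat_lit 10) (nat_lit 402) (@Lb.t (@Lb.fm (nat_lit 3) t1875))))))))
noncomputable def l7376 : Lb := (@Lb.d (nat_lit 128) (nat_lit 8) (nat_lit 130) (@Lb.g g10 (@Lb.g g11 (@Lb.r r264 (@Lb.r r519 (@Lb.r r101 (@Lb.r r154 (@Lb.d (nat_lit 385) (nat_lit 10) (nat_lit 161) (@Lb.fm (nat_lit 3) t127)))))))))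
noncomputable def l7377 : Lb := (@Lb.d (nat_lit 128) (nat_lit 512) (nat_lit 130) (@Lb.g g10 (@Lb.g g11 (@Lb.r r264 (@Lb.r r519 (@Lb.r r161 (@Lb.r r98 (@Lb.d (nat_lit 129) (nat_lit 8) (nat_lit 129) (@Lb.fp (nat_lit 3) t97)))))))))
noncomputable def l7378 : Lb := (@Lb.d (nat_lit 2) (nat_lit 2) (nat_lit 2) (@Lb.g g8 (@Lb.g g9 (@Lb.g g10 (@Lb.g g11 (@Lb.r r1706 (@Lb.r r648 (@Lb.r r1563 (@Lb.r r2337 (@Lb.r r36 (@Lb.d (nat_lit 642) (nat_lit 105) (nat_lit 66) (@Lb.fp (nat_lit 9) t242))))))))))))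
noncomputable def l7379 : Lb := (@Lb.d (nat_lit 128) (nat_lit 256) (nat_lit 128) (@Lb.g g10 (@Lb.g g11 (@Lb.r r264 (@Lb.r r519 (@Lb.r r101 (@Lb.r r154 (@Lb.d (nat_lit 385) (nat_lit 0) (nat_lit 160) (@Lb.fm (nat_lit 3) t743)))))))))
noncomputable def l7380 : Lb := (@Lb.d (nat_lit 128) (nat_lit 264) (nat_lit 128) (@Lb.g g10 (@Lb.g g11 (@Lb.r r264 (@Lb.r r519 (@Lb.r r81 (@Lb.r r162 (@Lb.d (nat_lit 129) (nat_lit 4) (nat_lit 130) (@Lb.fp (nat_lit 3) t2)))))))))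
noncomputable def l7381 : Lb := (@Lb.d (nat_lit 128) (nat_lit 256) (nat_lit 128) (@Lb.g g11 (@Lb.r r264 (@Lb.r r519 (@Lb.r r101 (@Lb.r r154 (@Lb.d (nat_lit 385) (nat_lit 0) (nat_lit 160) (@Lb.t (@Lb.fp (nat_lit 3) t743)))))))))
noncomputable def l7382 : Lb := (@Lb.r r21 (@Lb.d (nat_lit 33) (nat_lit 256) (nat_lit 73) (@Lb.g g8 (@Lb.g g10 (@Lb.g g11 (@Lb.r r2699 (@Lb.r r293 (@Lb.r r2692 (@Lb.r r2662 (@Lb.d (nat_lit 665) (nat_lit 97) (nat_lit 422) (@Lb.t (@Lb.fm (nat_lit 9) t594))))))))))))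
noncomputable def l7383 : Lb := (@Lb.d (nat_lit 130) (nat_lit 258) (nat_lit 2) (@Lb.g g8 (@Lb.g g9 (@Lb.g g10 (@Lb.r r2691 (@Lb.r r1194 (@Lb.r r2337 (@Lb.r r152 (@Lb.d (nat_lit 664) (nat_lit 105) (nat_lit 66) (@Lb.t (@Lb.fm (nat_lit 9) t242)))))))))))
noncomputable def l7384 : Lb := (@Lb.d (nat_lit 0) (nat_lit 256) (nat_lit 72) (@Lb.g g11 (@Lb.r r402 (@Lb.d (nat_lit 0) (nat_lit 64) (nat_lit 144) (@Lb.t (@Lb.fm (nat_lit 3) t334))))))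
noncomputable def l7385 : Lb := (@Lb.d (nat_lit 0) (nat_lit 512) (nat_lit 136) (@Lb.g g11 (@Lb.r r402 (@Lb.d (nat_lit 0) (nat_lit 69) (nat_lit 145) (@Lb.t (@Lb.fm (nat_lit 3) t334))))))
noncomputable def l7386 : Lb := (@Lb.r r82 (@Lb.d (nat_lit 2) (nat_lit 2) (nat_lit 0) (@Lb.g g8 (@Lb.g g9 (@Lb.r r2649 (@Lb.r r595 (@Lb.r r98 (@Lb.d (nat_lit 385) (nat_lit 98) (nat_lit 608) (@Lb.fp (nat_lit 3) t5)))))))))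
noncomputable def l7387 : Lb := (@Lb.r r82 (@Lb.d (nat_lit 2) (nat_lit 512) (nat_lit 0) (@Lb.g g8 (@Lb.g g9 (@Lb.r r1623 (@Lb.r r2154 (@Lb.r r2073 (@Lb.d (nat_lit 265) (nat_lit 2) (nat_lit 32) (@Lb.fp (nat_lit 3) t5)))))))))
noncomputable def l7388 : Lb := (@Lb.r r1045 (@Lb.r r323 (@Lb.d (nat_lit 261) (nat_lit 8) (nat_lit 6) (@Lb.g g4 (@Lb.g g10 (@Lb.r r387 (@Lb.d (nat_lit 2) (nat_lit 66) (nat_lit 137) (@Lb.fp (nat_lit 3) t51))))))))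
noncomputable def l7389 : Lb := (@Lb.r r323 (@Lb.d (nat_lit 1) (nat_lit 585) (nat_lit 1) (@Lb.g g4 (@Lb.g g9 (@Lb.g g10 (@Lb.r r354 (@Lb.r r387 (@Lb.d (nat_lit 1) (nat_lit 33) (nat_lit 74) (@Lb.t (@Lb.fp (nat_lit 9) t594))))))))))
noncomputable def l7390 : Lb := (@Lb.d (nat_lit 0) (nat_lit 545) (nat_lit 0) (@Lb.g g9 (@Lb.r r535 (@Lb.r r134 (@Lb.r r296 (@Lb.r r409 (@Lb.d (nat_lit 154) (nat_lit 101) (nat_lit 85) (@Lb.t (@Lb.fm (nat_lit 3) t334)))))))))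
noncomputable def l7391 : Lb := (@Lb.r r1045 (@Lb.d (nat_lit 261) (nat_lit 264) (nat_lit 66) (@Lb.g g4 (@Lb.g g10 (@Lb.g g11 (@Lb.r r387 (@Lb.d (nat_lit 1) (nat_lit 66) (nat_lit 137) (@Lb.t (@Lb.fp (nat_lit 9) t51)))))))))
noncomputable def l7392 : Lb := (@Lb.r r1045 (@Lb.d (nat_lit 261) (nat_lit 520) (nat_lit 130) (@Lb.g g4 (@Lb.g g10 (@Lb.g g11 (@Lb.r r387 (@Lb.d (nat_lit 1) (nat_lit 66) (nat_lit 2) (@Lb.t (@Lb.fp (nat_lit 9) t51)))))))))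
noncomputable def l7393 : Lb := (@Lb.d (nat_lit 128) (nat_lit 512) (nat_lit 64) (@Lb.g g11 (@Lb.r r264 (@Lb.r r279 (@Lb.r r402 (@Lb.r r609 (@Lb.d (nat_lit 25) (nat_lit 74) (nat_lit 18) (@Lb.t (@Lb.fm (nat_lit 3) t334)))))))))
noncomputable def l7394 : Lb := (@Lb.r r21 (@Lb.d (nat_lit 2) (nat_lit 0) (nat_lit 128) (@Lb.g g8 (@Lb.g g11 (@Lb.r r529 (@Lb.r r2707 (@Lb.r r2710 (@Lb.r r72 (@Lb.d (nat_lit 33) (nat_lit 128) (nat_lit 86) (@Lb.fp (nat_lit 3) t339))))))))))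
noncomputable def l7395 : Lb := (@Lb.r r275 (@Lb.d (nat_lit 5) (nat_lit 512) (nat_lit 2) (@Lb.g g8 (@Lb.g g9 (@Lb.g g10 (@Lb.r r2154 (@Lb.r r2376 (@Lb.r r1303 (@Lb.r r545 (@Lb.d (nat_lit 0) (nat_lit 90) (nat_lit 66) (@Lb.t (@Lb.fm (nat_lit 9) t43))))))))))))
noncomputable def l7396 : Lb := (@Lb.r r82 (@Lb.r r275 (@Lb.d (nat_lit 0) (nat_lit 137) (nat_lit 0) (@Lb.g g8 (@Lb.g g5 (@Lb.r r291 (@Lb.r r98 (@Lb.r r24 (@Lb.d (nat_lit 546) (nat_lit 133) (nat_lit 32) (@Lb.fm (nat_lit 3) t1028))))))))))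
noncomputable def l7397 : Lb := (@Lb.r r20 (@Lb.d (nat_lit 8) (nat_lit 66) (nat_lit 2) (@Lb.g g9 (@Lb.g g10 (@Lb.r r515 (@Lb.r r98 (@Lb.d (nat_lit 1) (nat_lit 9) (nat_lit 70) (@Lb.fp (nat_lit 3) t71))))))))
noncomputable def l7398 : Lb := (@Lb.d (nat_lit 0) (nat_lit 8) (nat_lit 130) (@Lb.g g9 (@Lb.g g10 (@Lb.g g11 (@Lb.r r2403 (@Lb.r r418 (@Lb.r r1448 (@Lb.r r1369 (@Lb.d (nat_lit 154) (nat_lit 104) (nat_lit 386) (@Lb.t (@Lb.fm (nat_lit 9) t394)))))))))))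
noncomputable def l7399 : Lb := (@Lb.d (nat_lit 321) (nat_lit 648) (nat_lit 388) (@Lb.r r597 (@Lb.r r2666 (@Lb.r r2376 (@Lb.r r2691 (@Lb.g g7 (@Lb.g g6 (@Lb.g g5 (@Lb.d (nat_lit 0) (nat_lit 0) (nat_lit 65) (@Lb.t (@Lb.fp (nat_lit 9) t1876)))))))))))
noncomputable def l7400 : Lb := (@Lb.d (nat_lit 5) (nat_lit 74) (nat_lit 16) (@Lb.fp (nat_lit 1) t21))
noncomputable def l7401 : Lb := (@Lb.d (nat_lit 106) (nat_lit 548) (nat_lit 70) (@Lb.r r408 (@Lb.r r330 (@Lb.r r407 (@Lb.g g7 (@Lb.g g5 (@Lb.g g4 (@Lb.d (nat_lit 17) (nat_lit 1) (nat_lit 64) (@Lb.r r98 (@Lb.t (@Lb.fm (nat_lit 9) t98)))))))))))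
noncomputable def l7402 : Lb := (@Lb.d (nat_lit 9) (nat_lit 8) (nat_lit 130) (@Lb.g g8 (@Lb.g g9 (@Lb.g g10 (@Lb.g g11 (@Lb.r r643 (@Lb.r r297 (@Lb.r r360 (@Lb.r r582 (@Lb.r r132 (@Lb.d (nat_lit 129) (nat_lit 10) (nat_lit 73) (@Lb.fm (nat_lit 9) t98))))))))))))
noncomputable def l7403 : Lb := (@Lb.d (nat_lit 0) (nat_lit 516) (nat_lit 321) (@Lb.r r1114 (@Lb.r r2376 (@Lb.r r279 (@Lb.r r1569 (@Lb.g g7 (@Lb.g g4 (@Lb.d (nat_lit 70) (nat_lit 0) (nat_lit 128) (@Lb.fm (nat_lit 3) t1234)))))))))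
noncomputable def l7404 : Lb := (@Lb.d (nat_lit 272) (nat_lit 265) (nat_lit 137) (@Lb.g g8 (@Lb.g g9 (@Lb.g g10 (@Lb.g g11 (@Lb.r r2731 (@Lb.r r1642 (@Lb.r r25 (@Lb.d (nat_lit 4) (nat_lit 89) (nat_lit 9) (@Lb.fm (nat_lit 9) t1877))))))))))
noncomputable def l7405 : Lb := (@Lb.d (nat_lit 17) (nat_lit 9) (nat_lit 33) (@Lb.r r24 (@Lb.r r386 (@Lb.r r2651 (@Lb.g g9 (@Lb.d (nat_lit 8) (nat_lit 34) (nat_lit 0) (@Lb.r r291 (@Lb.r r98 (@Lb.t (@Lb.fm (nat_lit 3) t823))))))))))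
noncomputable def l7406 : Lb := (@Lb.d (nat_lit 1) (nat_lit 10) (nat_lit 2) (@Lb.r r21 (@Lb.r r70 (@Lb.r r263 (@Lb.g g4 (@Lb.r r267 (@Lb.r r74 (@Lb.r r25 (@Lb.t (@Lb.fm (nat_lit 3) t151))))))))))
noncomputable def l7407 : Lb := (@Lb.d (nat_lit 17) (nat_lit 521) (nat_lit 33) (@Lb.r r24 (@Lb.r r386 (@Lb.r r2651 (@Lb.g g7 (@Lb.g g9 (@Lb.d (nat_lit 8) (nat_lit 33) (nat_lit 0) (@Lb.r r98 (@Lb.fm (nat_lit 3) t823)))))))))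
noncomputable def l7408 : Lb := (@Lb.d (nat_lit 513) (nat_lit 322) (nat_lit 0) (@Lb.r r24 (@Lb.r r386 (@Lb.r r2651 (@Lb.r r273 (@Lb.g g9 (@Lb.r r291 (@Lb.r r98 (@Lb.t (@Lb.fm (nat_lit 3) t536))))))))))
noncomputable def l7409 : Lb := (@Lb.g g8 (@Lb.d (nat_lit 10) (nat_lit 9) (nat_lit 2) (@Lb.t (@Lb.fp (nat_lit 3) t21))))
noncomputable def l7410 : Lb := (@Lb.d (nat_lit 2) (nat_lit 0) (nat_lit 0) (@Lb.g g8 (@Lb.g g5 (@Lb.g g10 (@Lb.g g11 (@Lb.r r2459 (@Lb.r r24 (@Lb.d (nat_lit 105) (nat_lit 0) (nat_lit 594) (@Lb.fp (nat_lit 9) t973)))))))))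
noncomputable def l7411 : Lb := (@Lb.d (nat_lit 614) (nat_lit 106) (nat_lit 548) (@Lb.r r2323 (@Lb.r r2661 (@Lb.r r1304 (@Lb.r r1362 (@Lb.g g7 (@Lb.g g6 (@Lb.g g5 (@Lb.d (nat_lit 0) (nat_lit 17) (nat_lit 129) (@Lb.t (@Lb.fp (nat_lit 9) t1878)))))))))))
noncomputable def l7412 : Lb := (@Lb.d (nat_lit 134) (nat_lit 258) (nat_lit 130) (@Lb.g g8 (@Lb.g g9 (@Lb.g g10 (@Lb.g g11 (@Lb.r r1443 (@Lb.r r344 (@Lb.r r1429 (@Lb.r r86 (@Lb.r r164 (@Lb.d (nat_lit 37) (nat_lit 106) (nat_lit 145) (@Lb.fm (nat_lit 9) t238))))))))))))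
noncomputable def l7413 : Lb := (@Lb.d (nat_lit 578) (nat_lit 262) (nat_lit 513) (@Lb.r r2329 (@Lb.r r2452 (@Lb.r r1702 (@Lb.r r595 (@Lb.g g7 (@Lb.g g6 (@Lb.g g5 (@Lb.d (nat_lit 0) (nat_lit 18) (nat_lit 129) (@Lb.t (@Lb.fp (nat_lit 9) t1879)))))))))))
noncomputable def l7414 : Lb := (@Lb.d (nat_lit 2) (nat_lit 33) (nat_lit 132) (@Lb.g g8 (@Lb.g g9 (@Lb.g g10 (@Lb.g g11 (@Lb.r r673 (@Lb.r r1703 (@Lb.r r1638 (@Lb.r r24 (@Lb.d (nat_lit 292) (nat_lit 97) (nat_lit 146) (@Lb.fm (nat_lit 9) t1727)))))))))))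
noncomputable def l7415 : Lb := (@Lb.d (nat_lit 578) (nat_lit 257) (nat_lit 512) (@Lb.r r2329 (@Lb.r r2452 (@Lb.r r1702 (@Lb.r r595 (@Lb.g g7 (@Lb.g g6 (@Lb.g g5 (@Lb.d (nat_lit 0) (nat_lit 18) (nat_lit 6) (@Lb.t (@Lb.fp (nat_lit 9) t1880)))))))))))
noncomputable def l7416 : Lb := (@Lb.r r21 (@Lb.d (nat_lit 128) (nat_lit 512) (nat_lit 130) (@Lb.g g8 (@Lb.g g10 (@Lb.g g11 (@Lb.r r419 (@Lb.r r1172 (@Lb.r r2438 (@Lb.r r97 (@Lb.d (nat_lit 353) (nat_lit 34) (nat_lit 74) (@Lb.t (@Lb.fm (nat_lit 9) t1881))))))))))))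
noncomputable def l7417 : Lb := (@Lb.r r2311 (@Lb.r r584 (@Lb.r r86 (@Lb.r r2201 (@Lb.r r132 (@Lb.d (nat_lit 258) (nat_lit 385) (nat_lit 85) (@Lb.fm (nat_lit 1) t1882)))))))
noncomputable def l7418 : Lb := (@Lb.d (nat_lit 33) (nat_lit 512) (nat_lit 0) (@Lb.g g8 (@Lb.r r2379 (@Lb.r r598 (@Lb.r r2457 (@Lb.r r388 (@Lb.d (nat_lit 664) (nat_lit 100) (nat_lit 394) (@Lb.t (@Lb.fp (nat_lit 3) t1882)))))))))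
noncomputable def l7419 : Lb := (@Lb.d (nat_lit 5) (nat_lit 512) (nat_lit 130) (@Lb.g g8 (@Lb.g g9 (@Lb.g g10 (@Lb.g g11 (@Lb.r r642 (@Lb.r r387 (@Lb.r r2153 (@Lb.r r36 (@Lb.d (nat_lit 290) (nat_lit 0) (nat_lit 130) (@Lb.fp (nat_lit 9) t40)))))))))))
noncomputable def l7420 : Lb := (@Lb.g g10 (@Lb.g g7 (@Lb.r r386 (@Lb.r r1347 (@Lb.r r578 (@Lb.d (nat_lit 0) (nat_lit 256) (nat_lit 138) (@Lb.fm (nat_lit 3) t2)))))))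
noncomputable def l7421 : Lb := (@Lb.r r323 (@Lb.d (nat_lit 0) (nat_lit 256) (nat_lit 2) (@Lb.g g8 (@Lb.g g9 (@Lb.g g10 (@Lb.r r2449 (@Lb.r r299 (@Lb.r r392 (@Lb.r r74 (@Lb.d (nat_lit 545) (nat_lit 10) (nat_lit 152) (@Lb.t (@Lb.fp (nat_lit 9) t221))))))))))))
noncomputable def l7422 : Lb := (@Lb.g g7 (@Lb.d (nat_lit 6) (nat_lit 1) (nat_lit 69) (@Lb.t (@Lb.fm (nat_lit 3) t2))))
noncomputable def l7423 : Lb := (@Lb.d (nat_lit 34) (nat_lit 0) (nat_lit 72) (@Lb.g g8 (@Lb.g g11 (@Lb.r r2370 (@Lb.r r1447 (@Lb.r r1317 (@Lb.r r1556 (@Lb.d (nat_lit 644) (nat_lit 98) (nat_lit 610) (@Lb.fp (nat_lit 3) t322)))))))))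
noncomputable def l7424 : Lb := (@Lb.d (nat_lit 5) (nat_lit 513) (nat_lit 88) (@Lb.g g11 (@Lb.t (@Lb.fp (nat_lit 3) t2))))
noncomputable def l7425 : Lb := (@Lb.g g8 (@Lb.g g10 (@Lb.g g7 (@Lb.r r354 (@Lb.r r1427 (@Lb.r r101 (@Lb.r r24 (@Lb.d (nat_lit 65) (nat_lit 512) (nat_lit 0) (@Lb.t (@Lb.fp (nat_lit 9) t145))))))))))
noncomputable def l7426 : Lb := (@Lb.r r21 (@Lb.d (nat_lit 8) (nat_lit 256) (nat_lit 73) (@Lb.g g8 (@Lb.g g10 (@Lb.g g11 (@Lb.r r667 (@Lb.r r2405 (@Lb.r r1178 (@Lb.r r1156 (@Lb.d (nat_lit 344) (nat_lit 65) (nat_lit 406) (@Lb.t (@Lb.fp (nat_lit 9) t284))))))))))))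
noncomputable def l7427 : Lb := (@Lb.r r21 (@Lb.d (nat_lit 8) (nat_lit 0) (nat_lit 73) (@Lb.g g8 (@Lb.g g10 (@Lb.g g11 (@Lb.r r667 (@Lb.r r2405 (@Lb.r r1178 (@Lb.r r1156 (@Lb.d (nat_lit 345) (nat_lit 65) (nat_lit 406) (@Lb.t (@Lb.fp (nat_lit 9) t284))))))))))))
noncomputable def l7428 : Lb := (@Lb.d (nat_lit 2) (nat_lit 0) (nat_lit 73) (@Lb.g g8 (@Lb.g g9 (@Lb.g g10 (@Lb.g g11 (@Lb.r r2691 (@Lb.r r2345 (@Lb.r r360 (@Lb.r r582 (@Lb.r r2180 (@Lb.d (nat_lit 641) (nat_lit 10) (nat_lit 89) (@Lb.fm (nat_lit 9) t242))))))))))))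
noncomputable def l7429 : Lb := (@Lb.r r82 (@Lb.r r275 (@Lb.d (nat_lit 34) (nat_lit 538) (nat_lit 0) (@Lb.g g8 (@Lb.g g9 (@Lb.r r427 (@Lb.r r582 (@Lb.r r388 (@Lb.d (nat_lit 610) (nat_lit 9) (nat_lit 168) (@Lb.fm (nat_lit 3) t819))))))))))
noncomputable def l7430 : Lb := (@Lb.d (nat_lit 4) (nat_lit 512) (nat_lit 2) (@Lb.g g8 (@Lb.g g9 (@Lb.g g10 (@Lb.r r2723 (@Lb.r r1634 (@Lb.r r1553 (@Lb.d (nat_lit 2) (nat_lit 105) (nat_lit 417) (@Lb.t (@Lb.fp (nat_lit 9) t324))))))))))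
noncomputable def l7431 : Lb := (@Lb.d (nat_lit 2) (nat_lit 256) (nat_lit 73) (@Lb.g g8 (@Lb.g g9 (@Lb.g g10 (@Lb.g g11 (@Lb.r r2691 (@Lb.r r2345 (@Lb.r r360 (@Lb.r r582 (@Lb.r r2180 (@Lb.d (nat_lit 641) (nat_lit 5) (nat_lit 88) (@Lb.fm (nat_lit 9) t242))))))))))))
noncomputable def l7432 : Lb := (@Lb.d (nat_lit 0) (nat_lit 512) (nat_lit 136) (@Lb.g g11 (@Lb.r r1617 (@Lb.r r354 (@Lb.r r1427 (@Lb.r r1124 (@Lb.d (nat_lit 0) (nat_lit 88) (nat_lit 425) (@Lb.t (@Lb.fp (nat_lit 3) t772)))))))))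
noncomputable def l7433 : Lb := (@Lb.d (nat_lit 8) (nat_lit 258) (nat_lit 130) (@Lb.g g9 (@Lb.g g10 (@Lb.g g11 (@Lb.r r614 (@Lb.r r404 (@Lb.r r619 (@Lb.r r609 (@Lb.d (nat_lit 9) (nat_lit 153) (nat_lit 2) (@Lb.t (@Lb.fm (nat_lit 9) t71)))))))))))
noncomputable def l7434 : Lb := (@Lb.r r82 (@Lb.d (nat_lit 0) (nat_lit 641) (nat_lit 128) (@Lb.g g8 (@Lb.g g5 (@Lb.g g11 (@Lb.r r595 (@Lb.r r386 (@Lb.r r1096 (@Lb.d (nat_lit 10) (nat_lit 128) (nat_lit 34) (@Lb.t (@Lb.fm (nat_lit 9) t1883)))))))))))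
noncomputable def l7435 : Lb := (@Lb.d (nat_lit 644) (nat_lit 6) (nat_lit 390) (@Lb.r r24 (@Lb.r r97 (@Lb.r r386 (@Lb.g g11 (@Lb.g g6 (@Lb.g g5 (@Lb.d (nat_lit 0) (nat_lit 1) (nat_lit 129) (@Lb.t (@Lb.fp (nat_lit 9) t1884))))))))))
noncomputable def l7436 : Lb := (@Lb.d (nat_lit 2) (nat_lit 514) (nat_lit 130) (@Lb.g g8 (@Lb.g g9 (@Lb.g g10 (@Lb.g g11 (@Lb.r r427 (@Lb.r r420 (@Lb.r r102 (@Lb.r r97 (@Lb.r r36 (@Lb.d (nat_lit 9) (nat_lit 137) (nat_lit 73) (@Lb.fm (nat_lit 9) t119))))))))))))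
noncomputable def l7437 : Lb := (@Lb.r r82 (@Lb.d (nat_lit 4) (nat_lit 98) (nat_lit 64) (@Lb.g g9 (@Lb.g g11 (@Lb.r r1700 (@Lb.r r1447 (@Lb.r r2438 (@Lb.d (nat_lit 0) (nat_lit 20) (nat_lit 662) (@Lb.fp (nat_lit 3) t1885)))))))))
noncomputable def l7438 : Lb := (@Lb.d (nat_lit 134) (nat_lit 0) (nat_lit 130) (@Lb.g g8 (@Lb.g g9 (@Lb.g g10 (@Lb.g g11 (@Lb.r r2459 (@Lb.r r1177 (@Lb.r r1626 (@Lb.r r1604 (@Lb.d (nat_lit 153) (nat_lit 130) (nat_lit 581) (@Lb.fp (nat_lit 9) t1886)))))))))))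
noncomputable def l7439 : Lb := (@Lb.r r81 (@Lb.r r323 (@Lb.d (nat_lit 10) (nat_lit 512) (nat_lit 33) (@Lb.g g8 (@Lb.g g6 (@Lb.r r149 (@Lb.r r1448 (@Lb.r r2567 (@Lb.d (nat_lit 10) (nat_lit 21) (nat_lit 393) (@Lb.fp (nat_lit 3) t512))))))))))
noncomputable def l7440 : Lb := (@Lb.r r323 (@Lb.d (nat_lit 2) (nat_lit 514) (nat_lit 0) (@Lb.g g8 (@Lb.g g9 (@Lb.g g10 (@Lb.r r2459 (@Lb.r r2201 (@Lb.r r2650 (@Lb.d (nat_lit 105) (nat_lit 2) (nat_lit 660) (@Lb.t (@Lb.fm (nat_lit 9) t1887)))))))))))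
noncomputable def l7441 : Lb := (@Lb.r r82 (@Lb.d (nat_lit 34) (nat_lit 2) (nat_lit 136) (@Lb.g g8 (@Lb.g g9 (@Lb.g g11 (@Lb.r r1362 (@Lb.r r2645 (@Lb.r r356 (@Lb.r r395 (@Lb.d (nat_lit 545) (nat_lit 97) (nat_lit 680) (@Lb.t (@Lb.fm (nat_lit 9) t1888))))))))))))
noncomputable def l7442 : Lb := (@Lb.r r323 (@Lb.d (nat_lit 0) (nat_lit 258) (nat_lit 2) (@Lb.g g8 (@Lb.g g9 (@Lb.g g10 (@Lb.r r1130 (@Lb.r r1640 (@Lb.r r1323 (@Lb.r r1313 (@Lb.d (nat_lit 10) (nat_lit 162) (nat_lit 330) (@Lb.t (@Lb.fm (nat_lit 9) t51))))))))))))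
noncomputable def l7443 : Lb := (@Lb.d (nat_lit 618) (nat_lit 614) (nat_lit 102) (@Lb.r r597 (@Lb.r r599 (@Lb.r r264 (@Lb.r r2150 (@Lb.g g7 (@Lb.g g5 (@Lb.d (nat_lit 68) (nat_lit 6) (nat_lit 0) (@Lb.fm (nat_lit 3) t322)))))))))
noncomputable def l7444 : Lb := (@Lb.d (nat_lit 0) (nat_lit 514) (nat_lit 130) (@Lb.g g9 (@Lb.g g10 (@Lb.g g11 (@Lb.r r2691 (@Lb.r r536 (@Lb.r r1637 (@Lb.r r2714 (@Lb.r r132 (@Lb.d (nat_lit 677) (nat_lit 161) (nat_lit 74) (@Lb.t (@Lb.fm (nat_lit 9) t1866))))))))))))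
noncomputable def l7445 : Lb := (@Lb.d (nat_lit 609) (nat_lit 102) (nat_lit 20) (@Lb.r r2661 (@Lb.r r2659 (@Lb.g g7 (@Lb.g g10 (@Lb.g g5 (@Lb.d (nat_lit 0) (nat_lit 1) (nat_lit 81) (@Lb.r r36 (@Lb.t (@Lb.fm (nat_lit 9) t820))))))))))
noncomputable def l7446 : Lb := (@Lb.d (nat_lit 2) (nat_lit 2) (nat_lit 130) (@Lb.g g8 (@Lb.g g9 (@Lb.g g10 (@Lb.g g11 (@Lb.r r1435 (@Lb.r r145 (@Lb.r r2646 (@Lb.r r1416 (@Lb.d (nat_lit 408) (nat_lit 2) (nat_lit 394) (@Lb.fm (nat_lit 9) t221)))))))))))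
noncomputable def l7447 : Lb := (@Lb.r r323 (@Lb.d (nat_lit 0) (nat_lit 513) (nat_lit 2) (@Lb.g g8 (@Lb.g g9 (@Lb.g g10 (@Lb.r r106 (@Lb.r r616 (@Lb.r r299 (@Lb.r r289 (@Lb.d (nat_lit 10) (nat_lit 34) (nat_lit 74) (@Lb.t (@Lb.fm (nat_lit 9) t51))))))))))))
noncomputable def l7448 : Lb := (@Lb.d (nat_lit 0) (nat_lit 260) (nat_lit 128) (@Lb.g g9 (@Lb.g g10 (@Lb.g g11 (@Lb.r r1675 (@Lb.r r648 (@Lb.r r1194 (@Lb.r r425 (@Lb.r r2084 (@Lb.d (nat_lit 266) (nat_lit 97) (nat_lit 618) (@Lb.t (@Lb.fm (nat_lit 9) t1889))))))))))))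
noncomputable def l7449 : Lb := (@Lb.r r323 (@Lb.d (nat_lit 0) (nat_lit 1) (nat_lit 2) (@Lb.g g8 (@Lb.g g9 (@Lb.g g10 (@Lb.r r106 (@Lb.r r616 (@Lb.r r299 (@Lb.r r289 (@Lb.d (nat_lit 1) (nat_lit 32) (nat_lit 74) (@Lb.t (@Lb.fm (nat_lit 9) t51))))))))))))
noncomputable def l7450 : Lb := (@Lb.d (nat_lit 0) (nat_lit 258) (nat_lit 130) (@Lb.g g9 (@Lb.g g10 (@Lb.g g11 (@Lb.r r2691 (@Lb.r r536 (@Lb.r r1637 (@Lb.r r2714 (@Lb.r r132 (@Lb.d (nat_lit 682) (nat_lit 162) (nat_lit 74) (@Lb.t (@Lb.fm (nat_lit 9) t1866))))))))))))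
noncomputable def l7451 : Lb := (@Lb.d (nat_lit 2) (nat_lit 32) (nat_lit 128) (@Lb.g g8 (@Lb.g g11 (@Lb.r r2712 (@Lb.r r293 (@Lb.r r2587 (@Lb.r r2178 (@Lb.d (nat_lit 105) (nat_lit 41) (nat_lit 401) (@Lb.fm (nat_lit 3) t1740)))))))))
noncomputable def l7452 : Lb := (@Lb.r r21 (@Lb.r r322 (@Lb.d (nat_lit 64) (nat_lit 16) (nat_lit 68) (@Lb.g g8 (@Lb.g g11 (@Lb.r r2666 (@Lb.r r2729 (@Lb.r r2708 (@Lb.d (nat_lit 5) (nat_lit 34) (nat_lit 337) (@Lb.fp (nat_lit 3) t1890))))))))))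
noncomputable def l7453 : Lb := (@Lb.d (nat_lit 0) (nat_lit 32) (nat_lit 128) (@Lb.g g8 (@Lb.g g11 (@Lb.r r1109 (@Lb.r r2452 (@Lb.r r2587 (@Lb.r r2178 (@Lb.d (nat_lit 106) (nat_lit 66) (nat_lit 394) (@Lb.fm (nat_lit 3) t772)))))))))
noncomputable def l7454 : Lb := (@Lb.r r21 (@Lb.r r263 (@Lb.d (nat_lit 34) (nat_lit 520) (nat_lit 2) (@Lb.g g8 (@Lb.g g10 (@Lb.r r1427 (@Lb.r r1125 (@Lb.r r1048 (@Lb.d (nat_lit 260) (nat_lit 2) (nat_lit 2) (@Lb.fm (nat_lit 3) t1891))))))))))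
noncomputable def l7455 : Lb := (@Lb.d (nat_lit 388) (nat_lit 641) (nat_lit 426) (@Lb.r r1416 (@Lb.r r2329 (@Lb.r r2178 (@Lb.r r551 (@Lb.g g5 (@Lb.g g8 (@Lb.fm (nat_lit 3) t1892))))))))
noncomputable def l7456 : Lb := (@Lb.r r82 (@Lb.r r275 (@Lb.d (nat_lit 4) (nat_lit 17) (nat_lit 0) (@Lb.g g5 (@Lb.r r2651 (@Lb.r r386 (@Lb.r r24 (@Lb.d (nat_lit 32) (nat_lit 6) (nat_lit 18) (@Lb.t (@Lb.fp (nat_lit 3) t1162))))))))))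
noncomputable def l7457 : Lb := (@Lb.r r322 (@Lb.d (nat_lit 0) (nat_lit 289) (nat_lit 516) (@Lb.g g9 (@Lb.g g7 (@Lb.r r418 (@Lb.r r2201 (@Lb.r r24 (@Lb.d (nat_lit 529) (nat_lit 5) (nat_lit 82) (@Lb.fp (nat_lit 3) t1162)))))))))
noncomputable def l7458 : Lb := (@Lb.d (nat_lit 358) (nat_lit 618) (nat_lit 281) (@Lb.r r1642 (@Lb.r r1637 (@Lb.r r1643 (@Lb.r r516 (@Lb.g g7 (@Lb.g g6 (@Lb.d (nat_lit 80) (nat_lit 4) (nat_lit 133) (@Lb.fm (nat_lit 3) t150)))))))))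
noncomputable def l7459 : Lb := (@Lb.r r82 (@Lb.r r283 (@Lb.d (nat_lit 2) (nat_lit 257) (nat_lit 0) (@Lb.g g8 (@Lb.g g5 (@Lb.r r2651 (@Lb.r r386 (@Lb.r r2072 (@Lb.d (nat_lit 522) (nat_lit 128) (nat_lit 2) (@Lb.fm (nat_lit 3) t1893))))))))))
noncomputable def l7460 : Lb := (@Lb.r r323 (@Lb.d (nat_lit 2) (nat_lit 265) (nat_lit 34) (@Lb.g g8 (@Lb.g g9 (@Lb.g g10 (@Lb.r r2713 (@Lb.r r2587 (@Lb.r r2564 (@Lb.d (nat_lit 673) (nat_lit 0) (nat_lit 360) (@Lb.t (@Lb.fp (nat_lit 9) t1071)))))))))))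
noncomputable def l7461 : Lb := (@Lb.d (nat_lit 272) (nat_lit 9) (nat_lit 137) (@Lb.g g8 (@Lb.g g9 (@Lb.g g10 (@Lb.g g11 (@Lb.r r2731 (@Lb.r r1642 (@Lb.r r25 (@Lb.d (nat_lit 9) (nat_lit 153) (nat_lit 9) (@Lb.fm (nat_lit 9) t1129))))))))))
noncomputable def l7462 : Lb := (@Lb.r r2311 (@Lb.r r2118 (@Lb.r r24 (@Lb.r r149 (@Lb.d (nat_lit 292) (nat_lit 1) (nat_lit 2) (@Lb.fm (nat_lit 1) t433))))))
noncomputable def l7463 : Lb := (@Lb.d (nat_lit 602) (nat_lit 402) (nat_lit 538) (@Lb.r r1701 (@Lb.r r2456 (@Lb.r r1698 (@Lb.r r599 (@Lb.g g7 (@Lb.g g6 (@Lb.g g5 (@Lb.d (nat_lit 0) (nat_lit 16) (nat_lit 129) (@Lb.t (@Lb.fp (nat_lit 9) t1843)))))))))))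
noncomputable def l7464 : Lb := (@Lb.r r21 (@Lb.d (nat_lit 5) (nat_lit 264) (nat_lit 137) (@Lb.g g8 (@Lb.g g10 (@Lb.g g11 (@Lb.r r1691 (@Lb.r r1381 (@Lb.r r2202 (@Lb.d (nat_lit 329) (nat_lit 9) (nat_lit 537) (@Lb.t (@Lb.fp (nat_lit 9) t172)))))))))))
noncomputable def l7465 : Lb := (@Lb.d (nat_lit 2) (nat_lit 296) (nat_lit 65) (@Lb.g g8 (@Lb.g g9 (@Lb.g g10 (@Lb.g g11 (@Lb.r r2722 (@Lb.r r1415 (@Lb.r r1572 (@Lb.r r1685 (@Lb.d (nat_lit 420) (nat_lit 6) (nat_lit 293) (@Lb.fm (nat_lit 9) t340)))))))))))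
noncomputable def l7466 : Lb := (@Lb.g g4 (@Lb.g g5 (@Lb.r r1316 (@Lb.d (nat_lit 0) (nat_lit 81) (nat_lit 576) (@Lb.fm (nat_lit 3) t1894)))))
noncomputable def l7467 : Lb := (@Lb.d (nat_lit 24) (nat_lit 102) (nat_lit 105) (@Lb.r r2455 (@Lb.r r390 (@Lb.r r596 (@Lb.g g7 (@Lb.g g5 (@Lb.d (nat_lit 64) (nat_lit 129) (nat_lit 68) (@Lb.fp (nat_lit 3) t1443))))))))
noncomputable def l7468 : Lb := (@Lb.r r275 (@Lb.d (nat_lit 545) (nat_lit 256) (nat_lit 1) (@Lb.g g8 (@Lb.g g9 (@Lb.g g10 (@Lb.r r618 (@Lb.r r1603 (@Lb.r r1313 (@Lb.d (nat_lit 260) (nat_lit 129) (nat_lit 0) (@Lb.t (@Lb.fm (nat_lit 9) t1895)))))))))))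
noncomputable def l7469 : Lb := (@Lb.d (nat_lit 38) (nat_lit 256) (nat_lit 129) (@Lb.g g8 (@Lb.g g9 (@Lb.g g10 (@Lb.g g11 (@Lb.r r427 (@Lb.r r420 (@Lb.r r1126 (@Lb.r r97 (@Lb.r r36 (@Lb.d (nat_lit 264) (nat_lit 130) (nat_lit 666) (@Lb.fm (nat_lit 9) t1792))))))))))))
noncomputable def l7470 : Lb := (@Lb.d (nat_lit 0) (nat_lit 290) (nat_lit 582) (@Lb.g g9 (@Lb.g g10 (@Lb.g g7 (@Lb.r r1442 (@Lb.r r1112 (@Lb.r r2085 (@Lb.d (nat_lit 277) (nat_lit 84) (nat_lit 329) (@Lb.t (@Lb.fm (nat_lit 9) t1896))))))))))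
noncomputable def l7471 : Lb := (@Lb.d (nat_lit 0) (nat_lit 512) (nat_lit 2) (@Lb.g g9 (@Lb.g g10 (@Lb.r r98 (@Lb.d (nat_lit 0) (nat_lit 9) (nat_lit 0) (@Lb.fm (nat_lit 3) t354))))))
noncomputable def l7472 : Lb := (@Lb.r r82 (@Lb.r r275 (@Lb.d (nat_lit 130) (nat_lit 6) (nat_lit 0) (@Lb.g g8 (@Lb.g g9 (@Lb.r r599 (@Lb.r r1370 (@Lb.r r292 (@Lb.d (nat_lit 354) (nat_lit 169) (nat_lit 22) (@Lb.fp (nat_lit 3) t1897))))))))))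
noncomputable def l7473 : Lb := (@Lb.d (nat_lit 548) (nat_lit 1) (nat_lit 18) (@Lb.g g10 (@Lb.t (@Lb.fp (nat_lit 3) t1898))))
noncomputable def l7474 : Lb := (@Lb.d (nat_lit 546) (nat_lit 256) (nat_lit 18) (@Lb.g g10 (@Lb.t (@Lb.fp (nat_lit 3) t1898))))
noncomputable def l7475 : Lb := (@Lb.d (nat_lit 0) (nat_lit 8) (nat_lit 1) (@Lb.g g10 (@Lb.r r2129 (@Lb.r r98 (@Lb.d (nat_lit 5) (nat_lit 138) (nat_lit 2) (@Lb.t (@Lb.fp (nat_lit 3) t1899)))))))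
noncomputable def l7476 : Lb := (@Lb.r r273 (@Lb.d (nat_lit 2) (nat_lit 288) (nat_lit 578) (@Lb.g g8 (@Lb.g g10 (@Lb.g g7 (@Lb.r r2641 (@Lb.r r98 (@Lb.r r24 (@Lb.d (nat_lit 10) (nat_lit 130) (nat_lit 149) (@Lb.t (@Lb.fm (nat_lit 9) t1900)))))))))))
noncomputable def l7477 : Lb := (@Lb.d (nat_lit 2) (nat_lit 4) (nat_lit 128) (@Lb.g g8 (@Lb.g g9 (@Lb.g g10 (@Lb.g g11 (@Lb.r r427 (@Lb.r r324 (@Lb.r r2218 (@Lb.r r1193 (@Lb.r r1188 (@Lb.d (nat_lit 609) (nat_lit 73) (nat_lit 546) (@Lb.fp (nat_lit 9) t1246))))))))))))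
noncomputable def l7478 : Lb := (@Lb.d (nat_lit 10) (nat_lit 2) (nat_lit 130) (@Lb.g g8 (@Lb.g g9 (@Lb.g g10 (@Lb.g g11 (@Lb.r r2475 (@Lb.r r2345 (@Lb.r r360 (@Lb.r r2118 (@Lb.r r1156 (@Lb.d (nat_lit 2) (nat_lit 41) (nat_lit 677) (@Lb.fp (nat_lit 9) t1901))))))))))))
noncomputable def l7479 : Lb := (@Lb.r r101 (@Lb.d (nat_lit 517) (nat_lit 513) (nat_lit 16) (@Lb.fm (nat_lit 1) t420)))
noncomputable def l7480 : Lb := (@Lb.d (nat_lit 537) (nat_lit 26) (nat_lit 282) (@Lb.r r24 (@Lb.r r1705 (@Lb.r r1702 (@Lb.r r339 (@Lb.g g7 (@Lb.g g6 (@Lb.g g5 (@Lb.d (nat_lit 0) (nat_lit 34) (nat_lit 1) (@Lb.t (@Lb.fm (nat_lit 9) t502)))))))))))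
noncomputable def l7481 : Lb := (@Lb.r r323 (@Lb.d (nat_lit 2) (nat_lit 2) (nat_lit 1) (@Lb.g g8 (@Lb.g g9 (@Lb.g g6 (@Lb.r r387 (@Lb.r r2153 (@Lb.r r36 (@Lb.d (nat_lit 297) (nat_lit 9) (nat_lit 33) (@Lb.t (@Lb.fm (nat_lit 9) t40)))))))))))
noncomputable def l7482 : Lb := (@Lb.d (nat_lit 0) (nat_lit 256) (nat_lit 74) (@Lb.g g10 (@Lb.g g11 (@Lb.r r2707 (@Lb.r r24 (@Lb.r r1381 (@Lb.r r2194 (@Lb.d (nat_lit 534) (nat_lit 136) (nat_lit 546) (@Lb.fm (nat_lit 3) t61)))))))))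
noncomputable def l7483 : Lb := (@Lb.r r82 (@Lb.d (nat_lit 2) (nat_lit 258) (nat_lit 128) (@Lb.g g8 (@Lb.g g9 (@Lb.g g11 (@Lb.r r1571 (@Lb.r r1416 (@Lb.r r1642 (@Lb.r r1633 (@Lb.d (nat_lit 613) (nat_lit 138) (nat_lit 601) (@Lb.t (@Lb.fp (nat_lit 9) t1902))))))))))))
noncomputable def l7484 : Lb := (@Lb.d (nat_lit 32) (nat_lit 32) (nat_lit 386) (@Lb.g g10 (@Lb.g g11 (@Lb.r r68 (@Lb.r r602 (@Lb.r r1425 (@Lb.d (nat_lit 97) (nat_lit 136) (nat_lit 672) (@Lb.fm (nat_lit 3) t1903))))))))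
noncomputable def l7485 : Lb := (@Lb.r r1379 (@Lb.r r2209 (@Lb.r r1186 (@Lb.r r1124 (@Lb.d (nat_lit 0) (nat_lit 74) (nat_lit 34) (@Lb.fp (nat_lit 1) t1904))))))
noncomputable def l7486 : Lb := (@Lb.r r263 (@Lb.d (nat_lit 2) (nat_lit 260) (nat_lit 0) (@Lb.g g8 (@Lb.g g9 (@Lb.g g10 (@Lb.r r676 (@Lb.r r1607 (@Lb.r r386 (@Lb.r r2721 (@Lb.d (nat_lit 0) (nat_lit 85) (nat_lit 406) (@Lb.t (@Lb.fp (nat_lit 9) t1905))))))))))))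
noncomputable def l7487 : Lb := (@Lb.d (nat_lit 133) (nat_lit 548) (nat_lit 64) (@Lb.g g8 (@Lb.g g9 (@Lb.g g10 (@Lb.g g11 (@Lb.r r683 (@Lb.r r1386 (@Lb.r r1305 (@Lb.r r516 (@Lb.d (nat_lit 521) (nat_lit 105) (nat_lit 25) (@Lb.fm (nat_lit 9) t1797)))))))))))
noncomputable def l7488 : Lb := (@Lb.d (nat_lit 8) (nat_lit 512) (nat_lit 128) (@Lb.g g8 (@Lb.g g10 (@Lb.g g11 (@Lb.r r545 (@Lb.r r555 (@Lb.r r612 (@Lb.r r154 (@Lb.d (nat_lit 10) (nat_lit 10) (nat_lit 4) (@Lb.t (@Lb.fp (nat_lit 9) t39)))))))))))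
noncomputable def l7489 : Lb := (@Lb.d (nat_lit 288) (nat_lit 266) (nat_lit 161) (@Lb.r r24 (@Lb.r r1109 (@Lb.r r418 (@Lb.g g11 (@Lb.g g5 (@Lb.d (nat_lit 0) (nat_lit 18) (nat_lit 264) (@Lb.r r578 (@Lb.fp (nat_lit 3) t495)))))))))
noncomputable def l7490 : Lb := (@Lb.d (nat_lit 18) (nat_lit 522) (nat_lit 645) (@Lb.r r24 (@Lb.r r2587 (@Lb.r r1365 (@Lb.r r2722 (@Lb.g g7 (@Lb.g g6 (@Lb.g g5 (@Lb.d (nat_lit 0) (nat_lit 6) (nat_lit 9) (@Lb.t (@Lb.fm (nat_lit 9) t495)))))))))))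
noncomputable def l7491 : Lb := (@Lb.d (nat_lit 66) (nat_lit 297) (nat_lit 644) (@Lb.r r24 (@Lb.r r2587 (@Lb.r r1361 (@Lb.r r2726 (@Lb.g g7 (@Lb.g g6 (@Lb.g g5 (@Lb.d (nat_lit 0) (nat_lit 5) (nat_lit 9) (@Lb.t (@Lb.fm (nat_lit 9) t1906)))))))))))
noncomputable def l7492 : Lb := (@Lb.d (nat_lit 144) (nat_lit 521) (nat_lit 130) (@Lb.g g8 (@Lb.g g9 (@Lb.g g10 (@Lb.g g11 (@Lb.r r1706 (@Lb.r r1411 (@Lb.r r2201 (@Lb.r r2180 (@Lb.d (nat_lit 553) (nat_lit 153) (nat_lit 169) (@Lb.fm (nat_lit 9) t328)))))))))))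
noncomputable def l7493 : Lb := (@Lb.d (nat_lit 40) (nat_lit 514) (nat_lit 130) (@Lb.g g9 (@Lb.g g10 (@Lb.g g11 (@Lb.r r2695 (@Lb.r r1352 (@Lb.r r2390 (@Lb.r r409 (@Lb.d (nat_lit 386) (nat_lit 2) (nat_lit 330) (@Lb.t (@Lb.fm (nat_lit 9) t1907)))))))))))
noncomputable def l7494 : Lb := (@Lb.d (nat_lit 518) (nat_lit 36) (nat_lit 612) (@Lb.r r2085 (@Lb.r r600 (@Lb.r r331 (@Lb.g g10 (@Lb.g g5 (@Lb.g g4 (@Lb.d (nat_lit 65) (nat_lit 17) (nat_lit 22) (@Lb.t (@Lb.fm (nat_lit 9) t1473))))))))))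
noncomputable def l7495 : Lb := (@Lb.d (nat_lit 9) (nat_lit 258) (nat_lit 130) (@Lb.g g8 (@Lb.g g9 (@Lb.g g10 (@Lb.g g11 (@Lb.r r1579 (@Lb.r r1641 (@Lb.r r2454 (@Lb.r r1636 (@Lb.d (nat_lit 150) (nat_lit 25) (nat_lit 665) (@Lb.fm (nat_lit 9) t1860)))))))))))
noncomputable def l7496 : Lb := (@Lb.g g10 (@Lb.r r2311 (@Lb.r r24 (@Lb.d (nat_lit 517) (nat_lit 641) (nat_lit 0) (@Lb.t (@Lb.fm (nat_lit 3) t1860))))))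
noncomputable def l7497 : Lb := (@Lb.d (nat_lit 0) (nat_lit 2) (nat_lit 130) (@Lb.g g8 (@Lb.g g9 (@Lb.g g10 (@Lb.g g11 (@Lb.r r1443 (@Lb.r r596 (@Lb.r r1449 (@Lb.r r1130 (@Lb.r r36 (@Lb.d (nat_lit 545) (nat_lit 130) (nat_lit 345) (@Lb.fm (nat_lit 9) t1908))))))))))))
noncomputable def l7498 : Lb := (@Lb.d (nat_lit 2) (nat_lit 0) (nat_lit 130) (@Lb.g g8 (@Lb.g g9 (@Lb.g g10 (@Lb.g g11 (@Lb.r r1579 (@Lb.r r1641 (@Lb.r r2454 (@Lb.r r1636 (@Lb.d (nat_lit 150) (nat_lit 25) (nat_lit 665) (@Lb.fm (nat_lit 9) t1860)))))))))))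
noncomputable def l7499 : Lb := (@Lb.r r81 (@Lb.d (nat_lit 2) (nat_lit 256) (nat_lit 130) (@Lb.g g8 (@Lb.g g6 (@Lb.g g11 (@Lb.r r1611 (@Lb.r r2453 (@Lb.r r1636 (@Lb.d (nat_lit 136) (nat_lit 89) (nat_lit 664) (@Lb.t (@Lb.fm (nat_lit 9) t1909)))))))))))
noncomputable def l7500 : Lb := (@Lb.d (nat_lit 264) (nat_lit 266) (nat_lit 66) (@Lb.r r1321 (@Lb.r r1448 (@Lb.r r138 (@Lb.g g7 (@Lb.g g4 (@Lb.d (nat_lit 2) (nat_lit 16) (nat_lit 584) (@Lb.fp (nat_lit 3) t1910))))))))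
noncomputable def l7501 : Lb := (@Lb.r r2311 (@Lb.d (nat_lit 96) (nat_lit 0) (nat_lit 528) (@Lb.fp (nat_lit 1) t1911)))
noncomputable def l7502 : Lb := (@Lb.d (nat_lit 0) (nat_lit 516) (nat_lit 74) (@Lb.g g8 (@Lb.g g9 (@Lb.g g10 (@Lb.g g11 (@Lb.r r2691 (@Lb.r r616 (@Lb.r r1158 (@Lb.r r1313 (@Lb.d (nat_lit 640) (nat_lit 137) (nat_lit 70) (@Lb.fp (nat_lit 9) t1912)))))))))))
noncomputable def l7503 : Lb := (@Lb.g g10 (@Lb.r r2311 (@Lb.r r24 (@Lb.r r101 (@Lb.d (nat_lit 0) (nat_lit 581) (nat_lit 1) (@Lb.t (@Lb.fp (nat_lit 3) t391)))))))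
noncomputable def l7504 : Lb := (@Lb.d (nat_lit 64) (nat_lit 2) (nat_lit 644) (@Lb.g g9 (@Lb.g g10 (@Lb.g g7 (@Lb.r r1418 (@Lb.r r97 (@Lb.d (nat_lit 277) (nat_lit 10) (nat_lit 41) (@Lb.t (@Lb.fp (nat_lit 9) t1787)))))))))
noncomputable def l7505 : Lb := (@Lb.d (nat_lit 64) (nat_lit 0) (nat_lit 0) (@Lb.g g8 (@Lb.g g11 (@Lb.r r1543 (@Lb.r r548 (@Lb.d (nat_lit 384) (nat_lit 16) (nat_lit 128) (@Lb.fp (nat_lit 3) t1101)))))))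
noncomputable def l7506 : Lb := (@Lb.r r263 (@Lb.d (nat_lit 646) (nat_lit 288) (nat_lit 2) (@Lb.g g4 (@Lb.g g9 (@Lb.g g10 (@Lb.r r2470 (@Lb.r r595 (@Lb.r r1369 (@Lb.d (nat_lit 361) (nat_lit 152) (nat_lit 580) (@Lb.t (@Lb.fp (nat_lit 9) t1913)))))))))))
noncomputable def l7507 : Lb := (@Lb.r r82 (@Lb.d (nat_lit 2) (nat_lit 16) (nat_lit 0) (@Lb.g g8 (@Lb.g g9 (@Lb.g g11 (@Lb.r r1431 (@Lb.r r386 (@Lb.r r1109 (@Lb.r r24 (@Lb.d (nat_lit 33) (nat_lit 137) (nat_lit 17) (@Lb.t (@Lb.fm (nat_lit 9) t538))))))))))))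
noncomputable def l7508 : Lb := (@Lb.d (nat_lit 2) (nat_lit 512) (nat_lit 136) (@Lb.g g8 (@Lb.g g11 (@Lb.r r101 (@Lb.d (nat_lit 256) (nat_lit 90) (nat_lit 281) (@Lb.fp (nat_lit 3) t1174))))))
noncomputable def l7509 : Lb := (@Lb.d (nat_lit 5) (nat_lit 0) (nat_lit 0) (@Lb.g g4 (@Lb.r r2311 (@Lb.d (nat_lit 256) (nat_lit 1) (nat_lit 64) (@Lb.t (@Lb.fm (nat_lit 3) t1165))))))
noncomputable def l7510 : Lb := (@Lb.d (nat_lit 136) (nat_lit 2) (nat_lit 130) (@Lb.g g9 (@Lb.g g10 (@Lb.g g11 (@Lb.r r618 (@Lb.r r24 (@Lb.r r405 (@Lb.r r611 (@Lb.d (nat_lit 130) (nat_lit 89) (nat_lit 146) (@Lb.t (@Lb.fm (nat_lit 9) t1914)))))))))))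
noncomputable def l7511 : Lb := (@Lb.g g11 (@Lb.r r424 (@Lb.r r2473 (@Lb.r r1450 (@Lb.r r343 (@Lb.r r676 (@Lb.t (@Lb.p (nat_lit 1) (@Lb.fm (nat_lit 3) t322)))))))))
noncomputable def l7512 : Lb := (@Lb.d (nat_lit 42) (nat_lit 256) (nat_lit 0) (@Lb.g g8 (@Lb.r r421 (@Lb.r r2470 (@Lb.r r2395 (@Lb.r r2392 (@Lb.d (nat_lit 681) (nat_lit 84) (nat_lit 678) (@Lb.t (@Lb.fm (nat_lit 3) t1639)))))))))
noncomputable def l7513 : Lb := (@Lb.d (nat_lit 36) (nat_lit 4) (nat_lit 128) (@Lb.g g8 (@Lb.g g9 (@Lb.g g10 (@Lb.g g11 (@Lb.r r1435 (@Lb.r r145 (@Lb.r r2646 (@Lb.r r2180 (@Lb.d (nat_lit 161) (nat_lit 104) (nat_lit 97) (@Lb.fp (nat_lit 9) t535)))))))))))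
noncomputable def l7514 : Lb := (@Lb.r r20 (@Lb.d (nat_lit 0) (nat_lit 266) (nat_lit 128) (@Lb.g g9 (@Lb.g g11 (@Lb.r r2454 (@Lb.r r2667 (@Lb.r r2657 (@Lb.d (nat_lit 517) (nat_lit 153) (nat_lit 274) (@Lb.fp (nat_lit 3) t824)))))))))
noncomputable def l7515 : Lb := (@Lb.d (nat_lit 153) (nat_lit 1) (nat_lit 128) (@Lb.g g8 (@Lb.g g9 (@Lb.g g10 (@Lb.g g11 (@Lb.r r1706 (@Lb.r r1411 (@Lb.r r1188 (@Lb.r r37 (@Lb.d (nat_lit 357) (nat_lit 72) (nat_lit 665) (@Lb.fp (nat_lit 9) t283)))))))))))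
noncomputable def l7516 : Lb := (@Lb.d (nat_lit 354) (nat_lit 145) (nat_lit 613) (@Lb.r r1444 (@Lb.r r2665 (@Lb.r r363 (@Lb.g g10 (@Lb.g g5 (@Lb.g g4 (@Lb.d (nat_lit 82) (nat_lit 1) (nat_lit 4) (@Lb.t (@Lb.fp (nat_lit 9) t521))))))))))
noncomputable def l7517 : Lb := (@Lb.d (nat_lit 1) (nat_lit 529) (nat_lit 66) (@Lb.r r260 (@Lb.r r97 (@Lb.r r267 (@Lb.r r404 (@Lb.g g7 (@Lb.g g10 (@Lb.g g5 (@Lb.g g4 (@Lb.d (nat_lit 18) (nat_lit 1) (nat_lit 66) (@Lb.fp (nat_lit 9) t1037)))))))))))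
noncomputable def l7518 : Lb := (@Lb.d (nat_lit 5) (nat_lit 326) (nat_lit 33) (@Lb.r r1045 (@Lb.r r2152 (@Lb.r r323 (@Lb.g g10 (@Lb.g g5 (@Lb.g g4 (@Lb.d (nat_lit 6) (nat_lit 1) (nat_lit 2) (@Lb.r r387 (@Lb.t (@Lb.fp (nat_lit 9) t284)))))))))))
noncomputable def l7519 : Lb := (@Lb.d (nat_lit 394) (nat_lit 274) (nat_lit 64) (@Lb.r r532 (@Lb.r r1305 (@Lb.r r1354 (@Lb.r r2311 (@Lb.g g7 (@Lb.g g4 (@Lb.d (nat_lit 64) (nat_lit 0) (nat_lit 128) (@Lb.fm (nat_lit 3) t1915)))))))))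
noncomputable def l7520 : Lb := (@Lb.d (nat_lit 0) (nat_lit 257) (nat_lit 128) (@Lb.g g8 (@Lb.g g9 (@Lb.g g11 (@Lb.r r165 (@Lb.r r166 (@Lb.r r600 (@Lb.r r347 (@Lb.r r657 (@Lb.d (nat_lit 8) (nat_lit 1) (nat_lit 1) (@Lb.t (@Lb.fp (nat_lit 9) t2))))))))))))
noncomputable def l7521 : Lb := (@Lb.d (nat_lit 0) (nat_lit 320) (nat_lit 64) (@Lb.r r532 (@Lb.r r1305 (@Lb.r r1354 (@Lb.g g7 (@Lb.g g4 (@Lb.d (nat_lit 64) (nat_lit 0) (nat_lit 576) (@Lb.fm (nat_lit 3) t1916))))))))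
noncomputable def l7522 : Lb := (@Lb.d (nat_lit 5) (nat_lit 646) (nat_lit 17) (@Lb.r r24 (@Lb.r r2145 (@Lb.r r323 (@Lb.g g10 (@Lb.g g4 (@Lb.d (nat_lit 1) (nat_lit 0) (nat_lit 2) (@Lb.r r387 (@Lb.fp (nat_lit 3) t594)))))))))
noncomputable def l7523 : Lb := (@Lb.d (nat_lit 8) (nat_lit 2) (nat_lit 128) (@Lb.g g9 (@Lb.g g11 (@Lb.r r134 (@Lb.r r584 (@Lb.r r299 (@Lb.r r289 (@Lb.d (nat_lit 8) (nat_lit 72) (nat_lit 2) (@Lb.fp (nat_lit 3) t51)))))))))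
noncomputable def l7524 : Lb := (@Lb.d (nat_lit 128) (nat_lit 256) (nat_lit 128) (@Lb.g g11 (@Lb.r r549 (@Lb.r r344 (@Lb.r r679 (@Lb.r r134 (@Lb.d (nat_lit 0) (nat_lit 21) (nat_lit 153) (@Lb.t (@Lb.fp (nat_lit 3) t40)))))))))
noncomputable def l7525 : Lb := (@Lb.d (nat_lit 9) (nat_lit 521) (nat_lit 72) (@Lb.g g8 (@Lb.g g9 (@Lb.g g10 (@Lb.g g11 (@Lb.r r682 (@Lb.r r680 (@Lb.r r555 (@Lb.r r2597 (@Lb.r r2068 (@Lb.d (nat_lit 393) (nat_lit 65) (nat_lit 586) (@Lb.fp (nat_lit 9) t125))))))))))))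
noncomputable def l7526 : Lb := (@Lb.d (nat_lit 9) (nat_lit 9) (nat_lit 129) (@Lb.g g8 (@Lb.g g9 (@Lb.g g10 (@Lb.g g11 (@Lb.r r682 (@Lb.r r680 (@Lb.r r555 (@Lb.r r529 (@Lb.r r36 (@Lb.d (nat_lit 5) (nat_lit 32) (nat_lit 74) (@Lb.fm (nat_lit 9) t264))))))))))))
noncomputable def l7527 : Lb := (@Lb.d (nat_lit 9) (nat_lit 258) (nat_lit 130) (@Lb.g g8 (@Lb.g g9 (@Lb.g g10 (@Lb.g g11 (@Lb.r r682 (@Lb.r r676 (@Lb.r r551 (@Lb.r r1557 (@Lb.r r36 (@Lb.d (nat_lit 388) (nat_lit 1) (nat_lit 586) (@Lb.fp (nat_lit 9) t284))))))))))))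
noncomputable def l7528 : Lb := (@Lb.d (nat_lit 0) (nat_lit 512) (nat_lit 72) (@Lb.g g10 (@Lb.g g11 (@Lb.r r1347 (@Lb.r r2706 (@Lb.r r101 (@Lb.r r24 (@Lb.d (nat_lit 528) (nat_lit 10) (nat_lit 421) (@Lb.fp (nat_lit 3) t312)))))))))
noncomputable def l7529 : Lb := (@Lb.r r21 (@Lb.d (nat_lit 2) (nat_lit 256) (nat_lit 2) (@Lb.g g8 (@Lb.g g10 (@Lb.g g7 (@Lb.r r386 (@Lb.r r1640 (@Lb.r r25 (@Lb.d (nat_lit 610) (nat_lit 80) (nat_lit 661) (@Lb.t (@Lb.fp (nat_lit 9) t1403)))))))))))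
noncomputable def l7530 : Lb := (@Lb.g g4 (@Lb.d (nat_lit 6) (nat_lit 513) (nat_lit 128) (@Lb.t (@Lb.fm (nat_lit 3) t2))))
noncomputable def l7531 : Lb := (@Lb.d (nat_lit 4) (nat_lit 257) (nat_lit 0) (@Lb.g g5 (@Lb.r r24 (@Lb.d (nat_lit 320) (nat_lit 6) (nat_lit 513) (@Lb.t (@Lb.fp (nat_lit 3) t1021))))))
noncomputable def l7532 : Lb := (@Lb.d (nat_lit 0) (nat_lit 2) (nat_lit 0) (@Lb.g g9 (@Lb.r r2339 (@Lb.r r2146 (@Lb.r r97 (@Lb.d (nat_lit 5) (nat_lit 69) (nat_lit 34) (@Lb.t (@Lb.fm (nat_lit 3) t1917))))))))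
noncomputable def l7533 : Lb := (@Lb.d (nat_lit 2) (nat_lit 514) (nat_lit 128) (@Lb.g g8 (@Lb.g g9 (@Lb.g g10 (@Lb.g g11 (@Lb.r r1162 (@Lb.r r529 (@Lb.r r664 (@Lb.r r539 (@Lb.r r516 (@Lb.d (nat_lit 258) (nat_lit 66) (nat_lit 330) (@Lb.fm (nat_lit 9) t1008))))))))))))
noncomputable def l7534 : Lb := (@Lb.d (nat_lit 2) (nat_lit 2) (nat_lit 0) (@Lb.g g8 (@Lb.g g9 (@Lb.g g11 (@Lb.r r593 (@Lb.r r664 (@Lb.r r2651 (@Lb.r r2178 (@Lb.r r2564 (@Lb.d (nat_lit 530) (nat_lit 0) (nat_lit 17) (@Lb.t (@Lb.fp (nat_lit 9) t222))))))))))))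
noncomputable def l7535 : Lb := (@Lb.d (nat_lit 130) (nat_lit 294) (nat_lit 0) (@Lb.g g8 (@Lb.g g9 (@Lb.r r2695 (@Lb.r r2178 (@Lb.r r2392 (@Lb.d (nat_lit 138) (nat_lit 149) (nat_lit 521) (@Lb.fp (nat_lit 3) t222))))))))
noncomputable def l7536 : Lb := (@Lb.d (nat_lit 545) (nat_lit 256) (nat_lit 0) (@Lb.g g8 (@Lb.r r609 (@Lb.r r2659 (@Lb.r r338 (@Lb.r r2705 (@Lb.d (nat_lit 10) (nat_lit 130) (nat_lit 0) (@Lb.t (@Lb.fp (nat_lit 3) t1495)))))))))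
noncomputable def l7537 : Lb := (@Lb.d (nat_lit 18) (nat_lit 529) (nat_lit 148) (@Lb.r r386 (@Lb.r r531 (@Lb.r r341 (@Lb.g g7 (@Lb.g g6 (@Lb.g g5 (@Lb.g g4 (@Lb.d (nat_lit 1) (nat_lit 17) (nat_lit 129) (@Lb.fp (nat_lit 9) t259))))))))))
noncomputable def l7538 : Lb := (@Lb.d (nat_lit 1) (nat_lit 73) (nat_lit 16) (@Lb.r r21 (@Lb.r r70 (@Lb.r r263 (@Lb.g g4 (@Lb.r r267 (@Lb.r r74 (@Lb.r r25 (@Lb.t (@Lb.fm (nat_lit 3) t151))))))))))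
noncomputable def l7539 : Lb := (@Lb.r r82 (@Lb.r r275 (@Lb.d (nat_lit 0) (nat_lit 649) (nat_lit 0) (@Lb.g g8 (@Lb.g g5 (@Lb.r r291 (@Lb.r r98 (@Lb.r r24 (@Lb.d (nat_lit 10) (nat_lit 130) (nat_lit 16) (@Lb.fm (nat_lit 3) t151))))))))))
noncomputable def l7540 : Lb := (@Lb.r r24 (@Lb.r r101 (@Lb.r r402 (@Lb.d (nat_lit 352) (nat_lit 420) (nat_lit 613) (@Lb.fm (nat_lit 1) t652)))))
noncomputable def l7541 : Lb := (@Lb.d (nat_lit 10) (nat_lit 521) (nat_lit 16) (@Lb.fp (nat_lit 1) t21))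
noncomputable def l7542 : Lb := (@Lb.r r1427 (@Lb.r r2210 (@Lb.r r1113 (@Lb.r r24 (@Lb.d (nat_lit 257) (nat_lit 0) (nat_lit 32) (@Lb.fp (nat_lit 1) t1918))))))
noncomputable def l7543 : Lb := (@Lb.d (nat_lit 9) (nat_lit 513) (nat_lit 73) (@Lb.g g8 (@Lb.g g9 (@Lb.g g10 (@Lb.g g11 (@Lb.r r2691 (@Lb.r r1193 (@Lb.r r2658 (@Lb.r r2436 (@Lb.d (nat_lit 609) (nat_lit 160) (nat_lit 598) (@Lb.fp (nat_lit 9) t311)))))))))))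
noncomputable def l7544 : Lb := (@Lb.d (nat_lit 10) (nat_lit 2) (nat_lit 68) (@Lb.g g4 (@Lb.g g9 (@Lb.g g10 (@Lb.g g11 (@Lb.r r419 (@Lb.r r578 (@Lb.d (nat_lit 0) (nat_lit 33) (nat_lit 5) (@Lb.fm (nat_lit 9) t51)))))))))
noncomputable def l7545 : Lb := (@Lb.d (nat_lit 2) (nat_lit 522) (nat_lit 129) (@Lb.g g8 (@Lb.g g9 (@Lb.g g10 (@Lb.g g11 (@Lb.r r675 (@Lb.r r578 (@Lb.r r36 (@Lb.r r149 (@Lb.r r36 (@Lb.d (nat_lit 81) (nat_lit 10) (nat_lit 10) (@Lb.fm (nat_lit 9) t98))))))))))))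
noncomputable def l7546 : Lb := (@Lb.d (nat_lit 2) (nat_lit 2) (nat_lit 145) (@Lb.g g8 (@Lb.g g9 (@Lb.g g10 (@Lb.g g11 (@Lb.r r392 (@Lb.r r263 (@Lb.r r537 (@Lb.r r516 (@Lb.d (nat_lit 361) (nat_lit 70) (nat_lit 514) (@Lb.fm (nat_lit 9) t837)))))))))))
noncomputable def l7547 : Lb := (@Lb.d (nat_lit 1) (nat_lit 266) (nat_lit 129) (@Lb.g g8 (@Lb.g g9 (@Lb.g g10 (@Lb.g g11 (@Lb.r r675 (@Lb.r r578 (@Lb.r r36 (@Lb.r r149 (@Lb.r r36 (@Lb.d (nat_lit 80) (nat_lit 10) (nat_lit 10) (@Lb.fm (nat_lit 9) t98))))))))))))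
noncomputable def l7548 : Lb := (@Lb.d (nat_lit 2) (nat_lit 10) (nat_lit 129) (@Lb.g g8 (@Lb.g g9 (@Lb.g g10 (@Lb.g g11 (@Lb.r r675 (@Lb.r r578 (@Lb.r r36 (@Lb.r r149 (@Lb.r r36 (@Lb.d (nat_lit 80) (nat_lit 136) (nat_lit 10) (@Lb.fm (nat_lit 9) t919))))))))))))
noncomputable def l7549 : Lb := (@Lb.d (nat_lit 2) (nat_lit 258) (nat_lit 136) (@Lb.g g8 (@Lb.g g9 (@Lb.g g11 (@Lb.r r1162 (@Lb.r r1689 (@Lb.r r1688 (@Lb.r r1563 (@Lb.d (nat_lit 66) (nat_lit 162) (nat_lit 10) (@Lb.t (@Lb.fp (nat_lit 9) t1008)))))))))))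
noncomputable def l7550 : Lb := (@Lb.d (nat_lit 2) (nat_lit 10) (nat_lit 129) (@Lb.g g8 (@Lb.g g9 (@Lb.g g10 (@Lb.g g11 (@Lb.r r675 (@Lb.r r578 (@Lb.r r36 (@Lb.r r149 (@Lb.r r36 (@Lb.d (nat_lit 80) (nat_lit 10) (nat_lit 10) (@Lb.fm (nat_lit 9) t98))))))))))))
noncomputable def l7551 : Lb := (@Lb.d (nat_lit 0) (nat_lit 264) (nat_lit 2) (@Lb.g g10 (@Lb.r r1427 (@Lb.r r101 (@Lb.r r24 (@Lb.d (nat_lit 522) (nat_lit 128) (nat_lit 2) (@Lb.t (@Lb.fp (nat_lit 3) t1637))))))))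
noncomputable def l7552 : Lb := (@Lb.r r273 (@Lb.d (nat_lit 2) (nat_lit 288) (nat_lit 578) (@Lb.g g8 (@Lb.g g10 (@Lb.g g7 (@Lb.r r597 (@Lb.r r2154 (@Lb.r r2120 (@Lb.d (nat_lit 553) (nat_lit 66) (nat_lit 68) (@Lb.t (@Lb.fm (nat_lit 9) t1919)))))))))))
noncomputable def l7553 : Lb := (@Lb.g g9 (@Lb.r r391 (@Lb.r r2150 (@Lb.r r101 (@Lb.r r24 (@Lb.d (nat_lit 258) (nat_lit 384) (nat_lit 0) (@Lb.t (@Lb.fp (nat_lit 3) t1920))))))))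
noncomputable def l7554 : Lb := (@Lb.r r275 (@Lb.d (nat_lit 2) (nat_lit 329) (nat_lit 0) (@Lb.g g8 (@Lb.g g5 (@Lb.r r2467 (@Lb.r r1122 (@Lb.r r24 (@Lb.d (nat_lit 10) (nat_lit 74) (nat_lit 17) (@Lb.fm (nat_lit 3) t1921)))))))))
noncomputable def l7555 : Lb := (@Lb.g g6 (@Lb.r r391 (@Lb.r r2150 (@Lb.r r101 (@Lb.r r24 (@Lb.d (nat_lit 258) (nat_lit 128) (nat_lit 0) (@Lb.t (@Lb.fm (nat_lit 3) t1920))))))))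
noncomputable def l7556 : Lb := (@Lb.r r275 (@Lb.d (nat_lit 33) (nat_lit 2) (nat_lit 1) (@Lb.g g8 (@Lb.g g9 (@Lb.g g10 (@Lb.r r1427 (@Lb.r r2217 (@Lb.r r2154 (@Lb.r r1124 (@Lb.d (nat_lit 25) (nat_lit 138) (nat_lit 80) (@Lb.t (@Lb.fp (nat_lit 9) t1922))))))))))))
noncomputable def l7557 : Lb := (@Lb.r r323 (@Lb.d (nat_lit 0) (nat_lit 266) (nat_lit 0) (@Lb.g g9 (@Lb.g g6 (@Lb.r r387 (@Lb.r r101 (@Lb.r r24 (@Lb.d (nat_lit 34) (nat_lit 0) (nat_lit 2) (@Lb.fp (nat_lit 3) t68)))))))))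
noncomputable def l7558 : Lb := (@Lb.d (nat_lit 0) (nat_lit 545) (nat_lit 0) (@Lb.g g9 (@Lb.r r595 (@Lb.r r2402 (@Lb.r r353 (@Lb.d (nat_lit 0) (nat_lit 25) (nat_lit 326) (@Lb.t (@Lb.fp (nat_lit 3) t324))))))))
noncomputable def l7559 : Lb := (@Lb.r r323 (@Lb.d (nat_lit 2) (nat_lit 256) (nat_lit 1) (@Lb.g g8 (@Lb.g g9 (@Lb.g g6 (@Lb.r r387 (@Lb.r r20 (@Lb.r r105 (@Lb.r r36 (@Lb.d (nat_lit 1) (nat_lit 10) (nat_lit 66) (@Lb.t (@Lb.fm (nat_lit 9) t167))))))))))))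
noncomputable def l7560 : Lb := (@Lb.r r21 (@Lb.d (nat_lit 33) (nat_lit 8) (nat_lit 161) (@Lb.g g8 (@Lb.g g6 (@Lb.g g11 (@Lb.r r2651 (@Lb.r r2648 (@Lb.r r37 (@Lb.d (nat_lit 144) (nat_lit 165) (nat_lit 40) (@Lb.t (@Lb.fm (nat_lit 9) t1923)))))))))))
noncomputable def l7561 : Lb := (@Lb.d (nat_lit 2) (nat_lit 521) (nat_lit 130) (@Lb.g g8 (@Lb.g g9 (@Lb.g g10 (@Lb.g g11 (@Lb.r r2730 (@Lb.r r424 (@Lb.r r279 (@Lb.r r1573 (@Lb.r r1044 (@Lb.d (nat_lit 130) (nat_lit 9) (nat_lit 329) (@Lb.fm (nat_lit 9) t597))))))))))))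
noncomputable def l7562 : Lb := (@Lb.d (nat_lit 0) (nat_lit 256) (nat_lit 130) (@Lb.g g10 (@Lb.g g11 (@Lb.r r1553 (@Lb.r r595 (@Lb.r r386 (@Lb.r r1124 (@Lb.d (nat_lit 0) (nat_lit 8) (nat_lit 538) (@Lb.fm (nat_lit 3) t1924)))))))))
noncomputable def l7563 : Lb := (@Lb.d (nat_lit 0) (nat_lit 405) (nat_lit 321) (@Lb.r r2308 (@Lb.r r2178 (@Lb.r r1419 (@Lb.r r420 (@Lb.g g7 (@Lb.g g9 (@Lb.g g4 (@Lb.d (nat_lit 1) (nat_lit 70) (nat_lit 0) (@Lb.t (@Lb.fp (nat_lit 9) t1385)))))))))))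
noncomputable def l7564 : Lb := (@Lb.r r263 (@Lb.d (nat_lit 641) (nat_lit 546) (nat_lit 2) (@Lb.g g4 (@Lb.g g9 (@Lb.g g10 (@Lb.r r2470 (@Lb.r r595 (@Lb.r r1369 (@Lb.d (nat_lit 361) (nat_lit 152) (nat_lit 580) (@Lb.t (@Lb.fp (nat_lit 9) t1913)))))))))))
noncomputable def l7565 : Lb := (@Lb.d (nat_lit 9) (nat_lit 256) (nat_lit 128) (@Lb.g g8 (@Lb.g g11 (@Lb.r r593 (@Lb.r r2587 (@Lb.r r2178 (@Lb.r r2584 (@Lb.d (nat_lit 345) (nat_lit 162) (nat_lit 330) (@Lb.fp (nat_lit 3) t417)))))))))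
noncomputable def l7566 : Lb := (@Lb.d (nat_lit 322) (nat_lit 150) (nat_lit 129) (@Lb.r r2193 (@Lb.r r658 (@Lb.r r2467 (@Lb.r r425 (@Lb.g g7 (@Lb.g g6 (@Lb.g g5 (@Lb.g g4 (@Lb.d (nat_lit 6) (nat_lit 2) (nat_lit 65) (@Lb.fp (nat_lit 9) t1925)))))))))))
noncomputable def l7567 : Lb := (@Lb.r r82 (@Lb.r r275 (@Lb.d (nat_lit 9) (nat_lit 256) (nat_lit 0) (@Lb.g g8 (@Lb.g g9 (@Lb.r r2315 (@Lb.r r86 (@Lb.r r149 (@Lb.d (nat_lit 2) (nat_lit 74) (nat_lit 2) (@Lb.fm (nat_lit 3) t233))))))))))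
noncomputable def l7568 : Lb := (@Lb.d (nat_lit 0) (nat_lit 2) (nat_lit 66) (@Lb.g g9 (@Lb.g g10 (@Lb.g g7 (@Lb.r r386 (@Lb.r r97 (@Lb.r r24 (@Lb.d (nat_lit 8) (nat_lit 89) (nat_lit 329) (@Lb.t (@Lb.fm (nat_lit 9) t1926))))))))))
noncomputable def l7569 : Lb := (@Lb.r r275 (@Lb.d (nat_lit 2) (nat_lit 290) (nat_lit 2) (@Lb.g g8 (@Lb.g g9 (@Lb.g g10 (@Lb.r r419 (@Lb.r r1702 (@Lb.r r1636 (@Lb.r r1557 (@Lb.d (nat_lit 385) (nat_lit 32) (nat_lit 640) (@Lb.t (@Lb.fp (nat_lit 9) t1001))))))))))))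
noncomputable def l7570 : Lb := (@Lb.d (nat_lit 8) (nat_lit 258) (nat_lit 130) (@Lb.g g9 (@Lb.g g10 (@Lb.g g11 (@Lb.r r2471 (@Lb.r r1620 (@Lb.r r2154 (@Lb.r r601 (@Lb.d (nat_lit 617) (nat_lit 90) (nat_lit 134) (@Lb.t (@Lb.fm (nat_lit 9) t1927)))))))))))
noncomputable def l7571 : Lb := (@Lb.d (nat_lit 0) (nat_lit 512) (nat_lit 2) (@Lb.g g9 (@Lb.g g10 (@Lb.r r1411 (@Lb.r r98 (@Lb.r r101 (@Lb.r r24 (@Lb.d (nat_lit 520) (nat_lit 128) (nat_lit 0) (@Lb.fm (nat_lit 3) t1637)))))))))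
noncomputable def l7572 : Lb := (@Lb.d (nat_lit 0) (nat_lit 522) (nat_lit 2) (@Lb.g g9 (@Lb.g g10 (@Lb.fm (nat_lit 3) t1928))))
noncomputable def l7573 : Lb := (@Lb.d (nat_lit 0) (nat_lit 520) (nat_lit 2) (@Lb.g g10 (@Lb.r r1427 (@Lb.r r101 (@Lb.r r24 (@Lb.d (nat_lit 521) (nat_lit 128) (nat_lit 2) (@Lb.t (@Lb.fp (nat_lit 3) t1637))))))))
noncomputable def l7574 : Lb := (@Lb.r r82 (@Lb.d (nat_lit 0) (nat_lit 640) (nat_lit 128) (@Lb.g g4 (@Lb.g g9 (@Lb.g g11 (@Lb.r r419 (@Lb.r r98 (@Lb.d (nat_lit 1) (nat_lit 64) (nat_lit 137) (@Lb.t (@Lb.fp (nat_lit 9) t8))))))))))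
noncomputable def l7575 : Lb := (@Lb.d (nat_lit 144) (nat_lit 514) (nat_lit 64) (@Lb.g g8 (@Lb.g g9 (@Lb.g g10 (@Lb.g g11 (@Lb.r r427 (@Lb.r r426 (@Lb.r r292 (@Lb.r r21 (@Lb.r r36 (@Lb.d (nat_lit 25) (nat_lit 33) (nat_lit 130) (@Lb.fm (nat_lit 9) t1108))))))))))))
noncomputable def l7576 : Lb := (@Lb.d (nat_lit 282) (nat_lit 536) (nat_lit 96) (@Lb.r r105 (@Lb.r r612 (@Lb.r r583 (@Lb.g g6 (@Lb.g g5 (@Lb.g g4 (@Lb.d (nat_lit 65) (nat_lit 17) (nat_lit 33) (@Lb.r r387 (@Lb.t (@Lb.fp (nat_lit 9) t745)))))))))))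
noncomputable def l7577 : Lb := (@Lb.d (nat_lit 130) (nat_lit 2) (nat_lit 66) (@Lb.g g8 (@Lb.g g9 (@Lb.g g10 (@Lb.g g11 (@Lb.r r427 (@Lb.r r426 (@Lb.r r420 (@Lb.r r21 (@Lb.r r36 (@Lb.d (nat_lit 9) (nat_lit 41) (nat_lit 137) (@Lb.fm (nat_lit 9) t1108))))))))))))
noncomputable def l7578 : Lb := (@Lb.d (nat_lit 41) (nat_lit 0) (nat_lit 64) (@Lb.g g8 (@Lb.g g11 (@Lb.r r1627 (@Lb.r r422 (@Lb.r r1445 (@Lb.r r1620 (@Lb.d (nat_lit 406) (nat_lit 104) (nat_lit 514) (@Lb.fp (nat_lit 3) t386)))))))))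
noncomputable def l7579 : Lb := (@Lb.d (nat_lit 282) (nat_lit 280) (nat_lit 96) (@Lb.r r105 (@Lb.r r612 (@Lb.r r583 (@Lb.g g6 (@Lb.g g5 (@Lb.g g4 (@Lb.d (nat_lit 66) (nat_lit 17) (nat_lit 33) (@Lb.r r387 (@Lb.t (@Lb.fp (nat_lit 9) t745)))))))))))
noncomputable def l7580 : Lb := (@Lb.r r82 (@Lb.d (nat_lit 0) (nat_lit 289) (nat_lit 64) (@Lb.g g8 (@Lb.g g9 (@Lb.g g11 (@Lb.r r275 (@Lb.r r354 (@Lb.r r273 (@Lb.d (nat_lit 2) (nat_lit 162) (nat_lit 69) (@Lb.t (@Lb.fm (nat_lit 9) t144)))))))))))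
noncomputable def l7581 : Lb := (@Lb.r r21 (@Lb.d (nat_lit 6) (nat_lit 256) (nat_lit 2) (@Lb.g g8 (@Lb.g g10 (@Lb.r r515 (@Lb.r r106 (@Lb.r r25 (@Lb.d (nat_lit 10) (nat_lit 9) (nat_lit 70) (@Lb.fp (nat_lit 3) t71)))))))))
noncomputable def l7582 : Lb := (@Lb.d (nat_lit 2) (nat_lit 2) (nat_lit 2) (@Lb.g g8 (@Lb.g g9 (@Lb.g g10 (@Lb.r r515 (@Lb.r r106 (@Lb.r r25 (@Lb.d (nat_lit 2) (nat_lit 10) (nat_lit 70) (@Lb.t (@Lb.fp (nat_lit 9) t71))))))))))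
noncomputable def l7583 : Lb := (@Lb.d (nat_lit 1) (nat_lit 512) (nat_lit 0) (@Lb.g g4 (@Lb.g g5 (@Lb.d (nat_lit 2) (nat_lit 0) (nat_lit 0) (@Lb.fm (nat_lit 3) t2)))))
noncomputable def l7584 : Lb := (@Lb.g g5 (@Lb.d (nat_lit 0) (nat_lit 129) (nat_lit 0) (@Lb.t (@Lb.fm (nat_lit 3) t2))))
noncomputable def l7585 : Lb := (@Lb.d (nat_lit 0) (nat_lit 0) (nat_lit 130) (@Lb.g g10 (@Lb.g g11 (@Lb.r r586 (@Lb.r r584 (@Lb.r r299 (@Lb.r r289 (@Lb.d (nat_lit 2) (nat_lit 2) (nat_lit 0) (@Lb.fm (nat_lit 3) t51)))))))))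
noncomputable def l7586 : Lb := (@Lb.r r20 (@Lb.r r82 (@Lb.d (nat_lit 0) (nat_lit 262) (nat_lit 128) (@Lb.g g9 (@Lb.g g11 (@Lb.r r419 (@Lb.r r98 (@Lb.d (nat_lit 2) (nat_lit 9) (nat_lit 168) (@Lb.fm (nat_lit 3) t294)))))))))
noncomputable def l7587 : Lb := (@Lb.d (nat_lit 160) (nat_lit 256) (nat_lit 64) (@Lb.g g8 (@Lb.g g11 (@Lb.r r2635 (@Lb.r r1430 (@Lb.r r1625 (@Lb.r r2648 (@Lb.d (nat_lit 393) (nat_lit 166) (nat_lit 152) (@Lb.fp (nat_lit 3) t927)))))))))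
noncomputable def l7588 : Lb := (@Lb.d (nat_lit 32) (nat_lit 512) (nat_lit 130) (@Lb.g g9 (@Lb.g g10 (@Lb.g g11 (@Lb.r r2467 (@Lb.r r2197 (@Lb.r r100 (@Lb.r r410 (@Lb.d (nat_lit 665) (nat_lit 21) (nat_lit 84) (@Lb.t (@Lb.fp (nat_lit 9) t221)))))))))))
noncomputable def l7589 : Lb := (@Lb.d (nat_lit 0) (nat_lit 256) (nat_lit 130) (@Lb.g g4 (@Lb.g g9 (@Lb.g g10 (@Lb.g g11 (@Lb.r r419 (@Lb.r r98 (@Lb.d (nat_lit 0) (nat_lit 9) (nat_lit 137) (@Lb.fm (nat_lit 9) t51)))))))))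
noncomputable def l7590 : Lb := (@Lb.d (nat_lit 169) (nat_lit 512) (nat_lit 64) (@Lb.g g8 (@Lb.g g11 (@Lb.r r2667 (@Lb.r r1446 (@Lb.r r2469 (@Lb.r r596 (@Lb.d (nat_lit 294) (nat_lit 38) (nat_lit 680) (@Lb.fp (nat_lit 3) t927)))))))))
noncomputable def l7591 : Lb := (@Lb.d (nat_lit 2) (nat_lit 258) (nat_lit 130) (@Lb.g g8 (@Lb.g g9 (@Lb.g g10 (@Lb.g g11 (@Lb.r r427 (@Lb.r r145 (@Lb.r r356 (@Lb.r r154 (@Lb.r r132 (@Lb.d (nat_lit 8) (nat_lit 9) (nat_lit 18) (@Lb.fm (nat_lit 9) t221))))))))))))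
noncomputable def l7592 : Lb := (@Lb.r r20 (@Lb.d (nat_lit 0) (nat_lit 2) (nat_lit 130) (@Lb.g g9 (@Lb.g g10 (@Lb.g g11 (@Lb.r r419 (@Lb.r r98 (@Lb.d (nat_lit 2) (nat_lit 9) (nat_lit 168) (@Lb.t (@Lb.fm (nat_lit 9) t295))))))))))
noncomputable def l7593 : Lb := (@Lb.d (nat_lit 8) (nat_lit 514) (nat_lit 130) (@Lb.g g8 (@Lb.g g9 (@Lb.g g10 (@Lb.g g11 (@Lb.r r2210 (@Lb.r r660 (@Lb.r r425 (@Lb.r r2327 (@Lb.r r1572 (@Lb.d (nat_lit 2) (nat_lit 10) (nat_lit 601) (@Lb.fp (nat_lit 9) t242))))))))))))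
noncomputable def l7594 : Lb := (@Lb.d (nat_lit 17) (nat_lit 0) (nat_lit 6) (@Lb.r r20 (@Lb.r r105 (@Lb.r r386 (@Lb.g g11 (@Lb.g g6 (@Lb.g g5 (@Lb.g g4 (@Lb.d (nat_lit 10) (nat_lit 34) (nat_lit 390) (@Lb.fm (nat_lit 9) t51))))))))))
noncomputable def l7595 : Lb := (@Lb.d (nat_lit 2) (nat_lit 258) (nat_lit 130) (@Lb.g g8 (@Lb.g g9 (@Lb.g g10 (@Lb.g g11 (@Lb.r r427 (@Lb.r r297 (@Lb.r r104 (@Lb.r r70 (@Lb.r r132 (@Lb.d (nat_lit 2) (nat_lit 130) (nat_lit 256) (@Lb.fp (nat_lit 9) t51))))))))))))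
noncomputable def l7596 : Lb := (@Lb.d (nat_lit 9) (nat_lit 257) (nat_lit 130) (@Lb.g g8 (@Lb.g g9 (@Lb.g g10 (@Lb.g g11 (@Lb.r r148 (@Lb.r r102 (@Lb.r r357 (@Lb.r r667 (@Lb.r r644 (@Lb.d (nat_lit 2) (nat_lit 66) (nat_lit 74) (@Lb.fp (nat_lit 9) t2))))))))))))
noncomputable def l7597 : Lb := (@Lb.d (nat_lit 65) (nat_lit 256) (nat_lit 593) (@Lb.r r24 (@Lb.r r101 (@Lb.r r2658 (@Lb.r r2467 (@Lb.g g7 (@Lb.g g6 (@Lb.d (nat_lit 0) (nat_lit 0) (nat_lit 8) (@Lb.fm (nat_lit 3) t1929)))))))))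
noncomputable def l7598 : Lb := (@Lb.d (nat_lit 32) (nat_lit 2) (nat_lit 2) (@Lb.g g9 (@Lb.g g10 (@Lb.r r2599 (@Lb.r r72 (@Lb.r r390 (@Lb.r r145 (@Lb.d (nat_lit 358) (nat_lit 0) (nat_lit 138) (@Lb.fp (nat_lit 3) t51)))))))))
noncomputable def l7599 : Lb := (@Lb.d (nat_lit 0) (nat_lit 0) (nat_lit 136) (@Lb.g g11 (@Lb.r r402 (@Lb.d (nat_lit 0) (nat_lit 2) (nat_lit 144) (@Lb.t (@Lb.fm (nat_lit 3) t334))))))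
noncomputable def l7600 : Lb := (@Lb.d (nat_lit 0) (nat_lit 0) (nat_lit 128) (@Lb.g g10 (@Lb.g g11 (@Lb.r r387 (@Lb.r r402 (@Lb.d (nat_lit 0) (nat_lit 9) (nat_lit 18) (@Lb.fp (nat_lit 3) t334)))))))
noncomputable def l7601 : Lb := (@Lb.d (nat_lit 0) (nat_lit 40) (nat_lit 322) (@Lb.g g10 (@Lb.g g11 (@Lb.d (nat_lit 0) (nat_lit 104) (nat_lit 406) (@Lb.fm (nat_lit 3) t51)))))
noncomputable def l7602 : Lb := (@Lb.d (nat_lit 96) (nat_lit 546) (nat_lit 578) (@Lb.g g9 (@Lb.g g10 (@Lb.g g7 (@Lb.r r72 (@Lb.r r390 (@Lb.r r1177 (@Lb.d (nat_lit 360) (nat_lit 130) (nat_lit 10) (@Lb.t (@Lb.fp (nat_lit 9) t144))))))))))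
noncomputable def l7603 : Lb := (@Lb.d (nat_lit 2) (nat_lit 297) (nat_lit 1) (@Lb.g g8 (@Lb.g g9 (@Lb.g g10 (@Lb.r r1194 (@Lb.r r2468 (@Lb.r r1307 (@Lb.r r1573 (@Lb.d (nat_lit 390) (nat_lit 16) (nat_lit 586) (@Lb.t (@Lb.fm (nat_lit 9) t577)))))))))))
noncomputable def l7604 : Lb := (@Lb.d (nat_lit 0) (nat_lit 0) (nat_lit 66) (@Lb.g g10 (@Lb.g g11 (@Lb.r r419 (@Lb.r r386 (@Lb.d (nat_lit 0) (nat_lit 98) (nat_lit 146) (@Lb.fp (nat_lit 3) t356)))))))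
noncomputable def l7605 : Lb := (@Lb.r r323 (@Lb.d (nat_lit 0) (nat_lit 516) (nat_lit 33) (@Lb.g g10 (@Lb.r r2659 (@Lb.d (nat_lit 0) (nat_lit 20) (nat_lit 424) (@Lb.t (@Lb.fm (nat_lit 3) t697)))))))
noncomputable def l7606 : Lb := (@Lb.d (nat_lit 0) (nat_lit 394) (nat_lit 362) (@Lb.r r402 (@Lb.g g11 (@Lb.t (@Lb.fm (nat_lit 3) t305)))))
noncomputable def l7607 : Lb := (@Lb.d (nat_lit 528) (nat_lit 0) (nat_lit 10) (@Lb.r r24 (@Lb.r r101 (@Lb.r r2659 (@Lb.g g10 (@Lb.d (nat_lit 0) (nat_lit 0) (nat_lit 2) (@Lb.r r387 (@Lb.t (@Lb.fm (nat_lit 3) t1929)))))))))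
noncomputable def l7608 : Lb := (@Lb.d (nat_lit 528) (nat_lit 512) (nat_lit 10) (@Lb.r r24 (@Lb.r r101 (@Lb.r r2659 (@Lb.g g10 (@Lb.g g5 (@Lb.d (nat_lit 0) (nat_lit 0) (nat_lit 2) (@Lb.r r387 (@Lb.fm (nat_lit 3) t719)))))))))
noncomputable def l7609 : Lb := (@Lb.r r21 (@Lb.r r70 (@Lb.r r263 (@Lb.d (nat_lit 1) (nat_lit 0) (nat_lit 0) (@Lb.g g4 (@Lb.r r2631 (@Lb.r r402 (@Lb.r r97 (@Lb.d (nat_lit 257) (nat_lit 2) (nat_lit 0) (@Lb.t (@Lb.fp (nat_lit 3) t512)))))))))))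
noncomputable def l7610 : Lb := (@Lb.d (nat_lit 528) (nat_lit 256) (nat_lit 64) (@Lb.r r24 (@Lb.r r101 (@Lb.r r2659 (@Lb.g g10 (@Lb.g g5 (@Lb.d (nat_lit 0) (nat_lit 0) (nat_lit 2) (@Lb.r r387 (@Lb.fm (nat_lit 3) t719)))))))))
noncomputable def l7611 : Lb := (@Lb.d (nat_lit 618) (nat_lit 85) (nat_lit 538) (@Lb.r r1384 (@Lb.r r297 (@Lb.r r418 (@Lb.g g11 (@Lb.g g5 (@Lb.g g4 (@Lb.d (nat_lit 17) (nat_lit 18) (nat_lit 264) (@Lb.r r578 (@Lb.t (@Lb.fp (nat_lit 9) t495)))))))))))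
noncomputable def l7612 : Lb := (@Lb.d (nat_lit 0) (nat_lit 36) (nat_lit 130) (@Lb.g g9 (@Lb.g g10 (@Lb.g g11 (@Lb.r r2723 (@Lb.r r673 (@Lb.r r1186 (@Lb.r r145 (@Lb.d (nat_lit 0) (nat_lit 148) (nat_lit 24) (@Lb.t (@Lb.fp (nat_lit 9) t1369)))))))))))
noncomputable def l7613 : Lb := (@Lb.r r323 (@Lb.d (nat_lit 8) (nat_lit 288) (nat_lit 18) (@Lb.g g9 (@Lb.g g10 (@Lb.r r1624 (@Lb.r r1691 (@Lb.r r2385 (@Lb.d (nat_lit 256) (nat_lit 150) (nat_lit 676) (@Lb.fm (nat_lit 3) t1775)))))))))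
noncomputable def l7614 : Lb := (@Lb.r r323 (@Lb.d (nat_lit 8) (nat_lit 32) (nat_lit 18) (@Lb.g g9 (@Lb.g g10 (@Lb.r r1624 (@Lb.r r1691 (@Lb.r r2385 (@Lb.d (nat_lit 257) (nat_lit 150) (nat_lit 676) (@Lb.fm (nat_lit 3) t1930)))))))))
noncomputable def l7615 : Lb := (@Lb.d (nat_lit 0) (nat_lit 290) (nat_lit 0) (@Lb.g g5 (@Lb.r r675 (@Lb.r r134 (@Lb.r r612 (@Lb.r r533 (@Lb.d (nat_lit 68) (nat_lit 97) (nat_lit 64) (@Lb.t (@Lb.fm (nat_lit 3) t119)))))))))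
noncomputable def l7616 : Lb := (@Lb.r r402 (@Lb.d (nat_lit 0) (nat_lit 36) (nat_lit 85) (@Lb.fm (nat_lit 1) t334)))
noncomputable def l7617 : Lb := (@Lb.d (nat_lit 0) (nat_lit 256) (nat_lit 65) (@Lb.g g10 (@Lb.g g7 (@Lb.r r322 (@Lb.d (nat_lit 0) (nat_lit 0) (nat_lit 4) (@Lb.fp (nat_lit 3) t2))))))
noncomputable def l7618 : Lb := (@Lb.g g10 (@Lb.g g7 (@Lb.r r323 (@Lb.r r2626 (@Lb.d (nat_lit 0) (nat_lit 0) (nat_lit 16) (@Lb.fp (nat_lit 3) t2))))))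
noncomputable def l7619 : Lb := (@Lb.d (nat_lit 0) (nat_lit 8) (nat_lit 130) (@Lb.g g10 (@Lb.g g11 (@Lb.r r387 (@Lb.d (nat_lit 0) (nat_lit 161) (nat_lit 386) (@Lb.fm (nat_lit 3) t51))))))
noncomputable def l7620 : Lb := (@Lb.d (nat_lit 1) (nat_lit 578) (nat_lit 10) (@Lb.g g4 (@Lb.g g9 (@Lb.g g10 (@Lb.r r1619 (@Lb.r r2434 (@Lb.d (nat_lit 0) (nat_lit 33) (nat_lit 656) (@Lb.t (@Lb.fp (nat_lit 9) t51)))))))))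
noncomputable def l7621 : Lb := (@Lb.d (nat_lit 0) (nat_lit 592) (nat_lit 424) (@Lb.fp (nat_lit 1) t210))
noncomputable def l7622 : Lb := (@Lb.d (nat_lit 0) (nat_lit 256) (nat_lit 72) (@Lb.g g10 (@Lb.g g11 (@Lb.r r578 (@Lb.r r579 (@Lb.d (nat_lit 0) (nat_lit 0) (nat_lit 74) (@Lb.fp (nat_lit 3) t2)))))))
noncomputable def l7623 : Lb := (@Lb.g g7 (@Lb.r r2690 (@Lb.r r1667 (@Lb.d (nat_lit 0) (nat_lit 256) (nat_lit 281) (@Lb.t (@Lb.fm (nat_lit 3) t2))))))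
noncomputable def l7624 : Lb := (@Lb.d (nat_lit 0) (nat_lit 528) (nat_lit 266) (@Lb.g g10 (@Lb.g g7 (@Lb.r r2434 (@Lb.d (nat_lit 0) (nat_lit 69) (nat_lit 538) (@Lb.fm (nat_lit 3) t295))))))
noncomputable def l7625 : Lb := (@Lb.d (nat_lit 2) (nat_lit 34) (nat_lit 2) (@Lb.g g8 (@Lb.g g9 (@Lb.g g10 (@Lb.r r1623 (@Lb.r r2390 (@Lb.r r169 (@Lb.d (nat_lit 21) (nat_lit 84) (nat_lit 644) (@Lb.t (@Lb.fm (nat_lit 9) t51))))))))))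
noncomputable def l7626 : Lb := (@Lb.g g10 (@Lb.r r1346 (@Lb.d (nat_lit 0) (nat_lit 0) (nat_lit 512) (@Lb.t (@Lb.fp (nat_lit 3) t2)))))
noncomputable def l7627 : Lb := (@Lb.d (nat_lit 2) (nat_lit 4) (nat_lit 0) (@Lb.g g8 (@Lb.g g9 (@Lb.g g10 (@Lb.r r2729 (@Lb.r r2475 (@Lb.r r2468 (@Lb.r r2438 (@Lb.d (nat_lit 609) (nat_lit 10) (nat_lit 674) (@Lb.t (@Lb.fm (nat_lit 9) t1397)))))))))))
noncomputable def l7628 : Lb := (@Lb.r r680 (@Lb.r r1690 (@Lb.r r1675 (@Lb.r r1057 (@Lb.r r1668 (@Lb.d (nat_lit 330) (nat_lit 66) (nat_lit 512) (@Lb.fp (nat_lit 1) t324)))))))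
noncomputable def l7629 : Lb := (@Lb.d (nat_lit 0) (nat_lit 81) (nat_lit 168) (@Lb.r r323 (@Lb.r r2626 (@Lb.g g5 (@Lb.t (@Lb.fm (nat_lit 3) t87))))))
noncomputable def l7630 : Lb := (@Lb.r r323 (@Lb.d (nat_lit 0) (nat_lit 6) (nat_lit 0) (@Lb.g g9 (@Lb.g g10 (@Lb.r r1299 (@Lb.r r1185 (@Lb.r r2146 (@Lb.d (nat_lit 0) (nat_lit 130) (nat_lit 18) (@Lb.fp (nat_lit 3) t144)))))))))
noncomputable def l7631 : Lb := (@Lb.r r323 (@Lb.r r2626 (@Lb.d (nat_lit 0) (nat_lit 0) (nat_lit 4) (@Lb.fp (nat_lit 1) t2))))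
noncomputable def l7632 : Lb := (@Lb.d (nat_lit 0) (nat_lit 530) (nat_lit 0) (@Lb.g g9 (@Lb.r r363 (@Lb.r r328 (@Lb.r r134 (@Lb.d (nat_lit 529) (nat_lit 9) (nat_lit 18) (@Lb.t (@Lb.fp (nat_lit 3) t61))))))))
noncomputable def l7633 : Lb := (@Lb.r r81 (@Lb.d (nat_lit 138) (nat_lit 256) (nat_lit 41) (@Lb.g g8 (@Lb.g g6 (@Lb.r r661 (@Lb.r r343 (@Lb.r r680 (@Lb.d (nat_lit 85) (nat_lit 22) (nat_lit 154) (@Lb.fm (nat_lit 3) t1397)))))))))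
noncomputable def l7634 : Lb := (@Lb.g g4 (@Lb.r r1307 (@Lb.r r1114 (@Lb.r r20 (@Lb.r r1049 (@Lb.d (nat_lit 256) (nat_lit 640) (nat_lit 0) (@Lb.t (@Lb.fm (nat_lit 3) t284))))))))
noncomputable def l7635 : Lb := (@Lb.d (nat_lit 101) (nat_lit 426) (nat_lit 69) (@Lb.r r359 (@Lb.r r293 (@Lb.r r600 (@Lb.g g7 (@Lb.g g10 (@Lb.g g4 (@Lb.d (nat_lit 32) (nat_lit 16) (nat_lit 65) (@Lb.r r25 (@Lb.t (@Lb.fm (nat_lit 9) t145)))))))))))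
noncomputable def l7636 : Lb := (@Lb.r r70 (@Lb.r r263 (@Lb.d (nat_lit 521) (nat_lit 65) (nat_lit 0) (@Lb.g g4 (@Lb.g g9 (@Lb.r r1315 (@Lb.r r1122 (@Lb.d (nat_lit 1) (nat_lit 65) (nat_lit 0) (@Lb.fp (nat_lit 3) t1751)))))))))
noncomputable def l7637 : Lb := (@Lb.d (nat_lit 665) (nat_lit 517) (nat_lit 70) (@Lb.r r81 (@Lb.r r390 (@Lb.r r72 (@Lb.r r2599 (@Lb.g g6 (@Lb.g g5 (@Lb.d (nat_lit 16) (nat_lit 1) (nat_lit 1) (@Lb.fp (nat_lit 3) t885)))))))))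
noncomputable def l7638 : Lb := (@Lb.d (nat_lit 2) (nat_lit 257) (nat_lit 130) (@Lb.g g8 (@Lb.g g9 (@Lb.g g10 (@Lb.g g11 (@Lb.r r1451 (@Lb.r r1321 (@Lb.r r104 (@Lb.r r70 (@Lb.r r132 (@Lb.d (nat_lit 9) (nat_lit 73) (nat_lit 617) (@Lb.fp (nat_lit 9) t119))))))))))))
noncomputable def l7639 : Lb := (@Lb.r r70 (@Lb.d (nat_lit 129) (nat_lit 258) (nat_lit 128) (@Lb.g g8 (@Lb.g g9 (@Lb.g g11 (@Lb.r r1561 (@Lb.r r2707 (@Lb.r r1638 (@Lb.r r148 (@Lb.d (nat_lit 530) (nat_lit 132) (nat_lit 101) (@Lb.t (@Lb.fp (nat_lit 9) t1931))))))))))))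
noncomputable def l7640 : Lb := (@Lb.r r70 (@Lb.d (nat_lit 161) (nat_lit 514) (nat_lit 128) (@Lb.g g8 (@Lb.g g9 (@Lb.g g11 (@Lb.r r2390 (@Lb.r r1411 (@Lb.r r2597 (@Lb.r r1300 (@Lb.d (nat_lit 676) (nat_lit 84) (nat_lit 536) (@Lb.t (@Lb.fp (nat_lit 9) t11))))))))))))
noncomputable def l7641 : Lb := (@Lb.d (nat_lit 18) (nat_lit 258) (nat_lit 138) (@Lb.g g8 (@Lb.g g9 (@Lb.g g10 (@Lb.g g11 (@Lb.r r1626 (@Lb.r r2659 (@Lb.r r97 (@Lb.r r2312 (@Lb.d (nat_lit 33) (nat_lit 132) (nat_lit 129) (@Lb.fm (nat_lit 9) t1931)))))))))))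
noncomputable def l7642 : Lb := (@Lb.d (nat_lit 0) (nat_lit 2) (nat_lit 66) (@Lb.g g8 (@Lb.g g9 (@Lb.g g10 (@Lb.g g7 (@Lb.r r386 (@Lb.r r97 (@Lb.r r24 (@Lb.d (nat_lit 330) (nat_lit 9) (nat_lit 521) (@Lb.fp (nat_lit 9) t166))))))))))
noncomputable def l7643 : Lb := (@Lb.d (nat_lit 2) (nat_lit 2) (nat_lit 130) (@Lb.g g8 (@Lb.g g9 (@Lb.g g10 (@Lb.g g11 (@Lb.r r553 (@Lb.r r299 (@Lb.r r388 (@Lb.r r70 (@Lb.r r132 (@Lb.d (nat_lit 26) (nat_lit 4) (nat_lit 73) (@Lb.fm (nat_lit 9) t87))))))))))))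
noncomputable def l7644 : Lb := (@Lb.r r322 (@Lb.d (nat_lit 2) (nat_lit 16) (nat_lit 648) (@Lb.g g8 (@Lb.g g9 (@Lb.g g7 (@Lb.r r682 (@Lb.r r2133 (@Lb.r r24 (@Lb.d (nat_lit 258) (nat_lit 73) (nat_lit 148) (@Lb.t (@Lb.fp (nat_lit 9) t377)))))))))))
noncomputable def l7645 : Lb := (@Lb.r r82 (@Lb.r r275 (@Lb.d (nat_lit 2) (nat_lit 257) (nat_lit 0) (@Lb.g g8 (@Lb.g g5 (@Lb.r r2651 (@Lb.r r386 (@Lb.r r24 (@Lb.d (nat_lit 266) (nat_lit 0) (nat_lit 2) (@Lb.fm (nat_lit 3) t538))))))))))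
noncomputable def l7646 : Lb := (@Lb.r r275 (@Lb.d (nat_lit 2) (nat_lit 514) (nat_lit 2) (@Lb.g g8 (@Lb.g g9 (@Lb.g g10 (@Lb.r r1707 (@Lb.r r386 (@Lb.r r609 (@Lb.r r24 (@Lb.d (nat_lit 266) (nat_lit 25) (nat_lit 261) (@Lb.t (@Lb.fm (nat_lit 9) t811))))))))))))
noncomputable def l7647 : Lb := (@Lb.d (nat_lit 329) (nat_lit 288) (nat_lit 128) (@Lb.r r289 (@Lb.r r535 (@Lb.r r328 (@Lb.r r2726 (@Lb.g g7 (@Lb.g g6 (@Lb.g g5 (@Lb.d (nat_lit 0) (nat_lit 0) (nat_lit 134) (@Lb.t (@Lb.fp (nat_lit 9) t1490)))))))))))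
noncomputable def l7648 : Lb := (@Lb.r r24 (@Lb.r r101 (@Lb.r r402 (@Lb.d (nat_lit 656) (nat_lit 256) (nat_lit 613) (@Lb.fm (nat_lit 1) t590)))))
noncomputable def l7649 : Lb := (@Lb.d (nat_lit 394) (nat_lit 384) (nat_lit 640) (@Lb.r r24 (@Lb.r r101 (@Lb.r r2642 (@Lb.r r2435 (@Lb.g g7 (@Lb.g g6 (@Lb.d (nat_lit 0) (nat_lit 0) (nat_lit 74) (@Lb.fm (nat_lit 3) t393)))))))))
noncomputable def l7650 : Lb := (@Lb.d (nat_lit 644) (nat_lit 146) (nat_lit 322) (@Lb.r r289 (@Lb.r r279 (@Lb.r r584 (@Lb.g g7 (@Lb.g g10 (@Lb.d (nat_lit 32) (nat_lit 4) (nat_lit 66) (@Lb.fp (nat_lit 3) t582))))))))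
noncomputable def l7651 : Lb := (@Lb.d (nat_lit 522) (nat_lit 384) (nat_lit 256) (@Lb.r r24 (@Lb.r r101 (@Lb.r r402 (@Lb.g g11 (@Lb.g g6 (@Lb.fm (nat_lit 3) t393)))))))
noncomputable def l7652 : Lb := (@Lb.d (nat_lit 0) (nat_lit 2) (nat_lit 130) (@Lb.g g8 (@Lb.g g9 (@Lb.g g10 (@Lb.g g11 (@Lb.r r2455 (@Lb.r r612 (@Lb.r r170 (@Lb.r r2473 (@Lb.r r1060 (@Lb.d (nat_lit 153) (nat_lit 97) (nat_lit 105) (@Lb.fp (nat_lit 9) t1932))))))))))))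
noncomputable def l7653 : Lb := (@Lb.d (nat_lit 96) (nat_lit 512) (nat_lit 73) (@Lb.g g8 (@Lb.g g9 (@Lb.g g10 (@Lb.g g11 (@Lb.r r2474 (@Lb.r r2692 (@Lb.r r1671 (@Lb.r r2073 (@Lb.d (nat_lit 145) (nat_lit 169) (nat_lit 361) (@Lb.fp (nat_lit 9) t1933)))))))))))
noncomputable def l7654 : Lb := (@Lb.r r82 (@Lb.r r275 (@Lb.d (nat_lit 2) (nat_lit 256) (nat_lit 0) (@Lb.g g8 (@Lb.g g9 (@Lb.r r299 (@Lb.r r106 (@Lb.r r25 (@Lb.r r24 (@Lb.d (nat_lit 4) (nat_lit 65) (nat_lit 0) (@Lb.fp (nat_lit 3) t755)))))))))))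
noncomputable def l7655 : Lb := (@Lb.d (nat_lit 2) (nat_lit 261) (nat_lit 128) (@Lb.g g8 (@Lb.g g9 (@Lb.g g10 (@Lb.g g11 (@Lb.r r1686 (@Lb.r r2404 (@Lb.r r619 (@Lb.r r609 (@Lb.d (nat_lit 9) (nat_lit 33) (nat_lit 320) (@Lb.fm (nat_lit 9) t1934)))))))))))
noncomputable def l7656 : Lb := (@Lb.d (nat_lit 0) (nat_lit 514) (nat_lit 73) (@Lb.g g8 (@Lb.g g9 (@Lb.g g10 (@Lb.g g11 (@Lb.r r2455 (@Lb.r r612 (@Lb.r r170 (@Lb.r r2473 (@Lb.r r1060 (@Lb.d (nat_lit 148) (nat_lit 96) (nat_lit 105) (@Lb.fp (nat_lit 9) t1932))))))))))))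
noncomputable def l7657 : Lb := (@Lb.d (nat_lit 0) (nat_lit 256) (nat_lit 66) (@Lb.g g8 (@Lb.g g9 (@Lb.g g10 (@Lb.g g7 (@Lb.r r386 (@Lb.r r2145 (@Lb.d (nat_lit 5) (nat_lit 8) (nat_lit 41) (@Lb.fm (nat_lit 9) t420)))))))))
noncomputable def l7658 : Lb := (@Lb.d (nat_lit 6) (nat_lit 320) (nat_lit 0) (@Lb.g g4 (@Lb.t (@Lb.fm (nat_lit 3) t2))))
noncomputable def l7659 : Lb := (@Lb.r r2073 (@Lb.d (nat_lit 513) (nat_lit 256) (nat_lit 0) (@Lb.fp (nat_lit 1) t2)))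
noncomputable def l7660 : Lb := (@Lb.d (nat_lit 4) (nat_lit 9) (nat_lit 1) (@Lb.g g8 (@Lb.g g9 (@Lb.g g10 (@Lb.r r675 (@Lb.r r2658 (@Lb.r r2577 (@Lb.d (nat_lit 2) (nat_lit 169) (nat_lit 161) (@Lb.t (@Lb.fp (nat_lit 9) t1399))))))))))
noncomputable def l7661 : Lb := (@Lb.d (nat_lit 0) (nat_lit 2) (nat_lit 130) (@Lb.g g9 (@Lb.g g10 (@Lb.g g11 (@Lb.r r1675 (@Lb.r r648 (@Lb.r r1194 (@Lb.r r425 (@Lb.r r2084 (@Lb.d (nat_lit 154) (nat_lit 97) (nat_lit 90) (@Lb.t (@Lb.fm (nat_lit 9) t1649))))))))))))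
noncomputable def l7662 : Lb := (@Lb.d (nat_lit 4) (nat_lit 2) (nat_lit 74) (@Lb.g g8 (@Lb.g g9 (@Lb.g g10 (@Lb.g g11 (@Lb.r r1666 (@Lb.r r1427 (@Lb.r r2577 (@Lb.d (nat_lit 2) (nat_lit 42) (nat_lit 144) (@Lb.fm (nat_lit 9) t324))))))))))
noncomputable def l7663 : Lb := (@Lb.d (nat_lit 0) (nat_lit 514) (nat_lit 130) (@Lb.g g8 (@Lb.g g9 (@Lb.g g10 (@Lb.g g11 (@Lb.r r427 (@Lb.r r145 (@Lb.r r356 (@Lb.r r154 (@Lb.r r132 (@Lb.d (nat_lit 9) (nat_lit 2) (nat_lit 154) (@Lb.fm (nat_lit 9) t221))))))))))))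
noncomputable def l7664 : Lb := (@Lb.d (nat_lit 0) (nat_lit 258) (nat_lit 73) (@Lb.g g9 (@Lb.g g10 (@Lb.g g11 (@Lb.r r1675 (@Lb.r r648 (@Lb.r r1194 (@Lb.r r425 (@Lb.r r2084 (@Lb.d (nat_lit 154) (nat_lit 97) (nat_lit 90) (@Lb.t (@Lb.fm (nat_lit 9) t1649))))))))))))
noncomputable def l7665 : Lb := (@Lb.r r323 (@Lb.d (nat_lit 0) (nat_lit 258) (nat_lit 2) (@Lb.g g8 (@Lb.g g9 (@Lb.g g10 (@Lb.r r401 (@Lb.r r299 (@Lb.r r392 (@Lb.r r74 (@Lb.d (nat_lit 38) (nat_lit 8) (nat_lit 152) (@Lb.t (@Lb.fp (nat_lit 9) t221))))))))))))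
noncomputable def l7666 : Lb := (@Lb.d (nat_lit 657) (nat_lit 576) (nat_lit 289) (@Lb.r r2069 (@Lb.r r36 (@Lb.r r2150 (@Lb.g g7 (@Lb.d (nat_lit 64) (nat_lit 32) (nat_lit 580) (@Lb.t (@Lb.fm (nat_lit 3) t710))))))))
noncomputable def l7667 : Lb := (@Lb.d (nat_lit 2) (nat_lit 1) (nat_lit 130) (@Lb.g g8 (@Lb.g g9 (@Lb.g g10 (@Lb.g g11 (@Lb.r r1451 (@Lb.r r1321 (@Lb.r r104 (@Lb.r r70 (@Lb.r r132 (@Lb.d (nat_lit 9) (nat_lit 73) (nat_lit 681) (@Lb.fp (nat_lit 9) t51))))))))))))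
noncomputable def l7668 : Lb := (@Lb.d (nat_lit 65) (nat_lit 530) (nat_lit 640) (@Lb.r r1321 (@Lb.r r1444 (@Lb.r r166 (@Lb.r r2659 (@Lb.g g7 (@Lb.g g6 (@Lb.g g5 (@Lb.d (nat_lit 0) (nat_lit 0) (nat_lit 65) (@Lb.t (@Lb.fm (nat_lit 9) t1935)))))))))))
noncomputable def l7669 : Lb := (@Lb.d (nat_lit 128) (nat_lit 2) (nat_lit 130) (@Lb.g g8 (@Lb.g g9 (@Lb.g g10 (@Lb.g g11 (@Lb.r r683 (@Lb.r r2410 (@Lb.r r2329 (@Lb.r r516 (@Lb.d (nat_lit 265) (nat_lit 164) (nat_lit 424) (@Lb.fm (nat_lit 9) t605)))))))))))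
noncomputable def l7670 : Lb := (@Lb.d (nat_lit 128) (nat_lit 514) (nat_lit 130) (@Lb.g g8 (@Lb.g g9 (@Lb.g g10 (@Lb.g g11 (@Lb.r r683 (@Lb.r r2410 (@Lb.r r2329 (@Lb.r r516 (@Lb.d (nat_lit 265) (nat_lit 169) (nat_lit 425) (@Lb.fm (nat_lit 9) t605)))))))))))
noncomputable def l7671 : Lb := (@Lb.d (nat_lit 8) (nat_lit 258) (nat_lit 66) (@Lb.g g8 (@Lb.g g9 (@Lb.g g10 (@Lb.g g7 (@Lb.r r386 (@Lb.r r2145 (@Lb.r r24 (@Lb.d (nat_lit 328) (nat_lit 73) (nat_lit 553) (@Lb.fp (nat_lit 9) t1150))))))))))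
noncomputable def l7672 : Lb := (@Lb.d (nat_lit 8) (nat_lit 258) (nat_lit 66) (@Lb.g g8 (@Lb.g g9 (@Lb.g g10 (@Lb.g g7 (@Lb.r r386 (@Lb.r r2145 (@Lb.r r24 (@Lb.d (nat_lit 330) (nat_lit 73) (nat_lit 617) (@Lb.fp (nat_lit 9) t166))))))))))
noncomputable def l7673 : Lb := (@Lb.d (nat_lit 420) (nat_lit 24) (nat_lit 66) (@Lb.r r89 (@Lb.r r20 (@Lb.r r2635 (@Lb.r r410 (@Lb.g g9 (@Lb.d (nat_lit 4) (nat_lit 1) (nat_lit 0) (@Lb.r r291 (@Lb.r r98 (@Lb.t (@Lb.fp (nat_lit 3) t1936)))))))))))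
noncomputable def l7674 : Lb := (@Lb.d (nat_lit 648) (nat_lit 128) (nat_lit 258) (@Lb.r r24 (@Lb.r r101 (@Lb.g g10 (@Lb.d (nat_lit 0) (nat_lit 8) (nat_lit 2) (@Lb.t (@Lb.fp (nat_lit 3) t749)))))))
noncomputable def l7675 : Lb := (@Lb.r r275 (@Lb.d (nat_lit 8) (nat_lit 514) (nat_lit 2) (@Lb.g g8 (@Lb.g g9 (@Lb.g g10 (@Lb.r r683 (@Lb.r r386 (@Lb.r r2657 (@Lb.r r24 (@Lb.d (nat_lit 264) (nat_lit 89) (nat_lit 549) (@Lb.t (@Lb.fm (nat_lit 9) t1937))))))))))))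
noncomputable def l7676 : Lb := (@Lb.d (nat_lit 74) (nat_lit 384) (nat_lit 642) (@Lb.r r24 (@Lb.r r101 (@Lb.r r2659 (@Lb.g g7 (@Lb.g g10 (@Lb.d (nat_lit 0) (nat_lit 8) (nat_lit 130) (@Lb.fm (nat_lit 3) t749))))))))
noncomputable def l7677 : Lb := (@Lb.d (nat_lit 1) (nat_lit 258) (nat_lit 130) (@Lb.g g8 (@Lb.g g9 (@Lb.g g10 (@Lb.g g11 (@Lb.r r427 (@Lb.r r324 (@Lb.r r2218 (@Lb.r r1193 (@Lb.r r1188 (@Lb.d (nat_lit 608) (nat_lit 73) (nat_lit 681) (@Lb.fp (nat_lit 9) t386))))))))))))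
noncomputable def l7678 : Lb := (@Lb.d (nat_lit 160) (nat_lit 514) (nat_lit 130) (@Lb.g g9 (@Lb.g g10 (@Lb.g g11 (@Lb.r r72 (@Lb.r r166 (@Lb.r r665 (@Lb.r r539 (@Lb.d (nat_lit 9) (nat_lit 66) (nat_lit 326) (@Lb.t (@Lb.fp (nat_lit 9) t210)))))))))))
noncomputable def l7679 : Lb := (@Lb.d (nat_lit 160) (nat_lit 514) (nat_lit 66) (@Lb.g g9 (@Lb.g g10 (@Lb.g g11 (@Lb.r r72 (@Lb.r r166 (@Lb.r r665 (@Lb.r r539 (@Lb.d (nat_lit 9) (nat_lit 66) (nat_lit 390) (@Lb.t (@Lb.fp (nat_lit 9) t210)))))))))))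
noncomputable def l7680 : Lb := (@Lb.d (nat_lit 0) (nat_lit 514) (nat_lit 130) (@Lb.g g8 (@Lb.g g9 (@Lb.g g10 (@Lb.g g11 (@Lb.r r2459 (@Lb.r r1557 (@Lb.r r676 (@Lb.r r1094 (@Lb.r r2180 (@Lb.d (nat_lit 9) (nat_lit 154) (nat_lit 420) (@Lb.fp (nat_lit 9) t51))))))))))))
noncomputable def l7681 : Lb := (@Lb.r r24 (@Lb.r r101 (@Lb.r r402 (@Lb.d (nat_lit 0) (nat_lit 512) (nat_lit 85) (@Lb.fm (nat_lit 1) t590)))))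
noncomputable def l7682 : Lb := (@Lb.d (nat_lit 64) (nat_lit 0) (nat_lit 392) (@Lb.g g11 (@Lb.r r1094 (@Lb.r r1045 (@Lb.r r8 (@Lb.d (nat_lit 98) (nat_lit 0) (nat_lit 530) (@Lb.t (@Lb.fm (nat_lit 3) t284))))))))
noncomputable def l7683 : Lb := (@Lb.d (nat_lit 384) (nat_lit 0) (nat_lit 586) (@Lb.r r24 (@Lb.r r101 (@Lb.r r1362 (@Lb.r r2691 (@Lb.g g7 (@Lb.g g6 (@Lb.d (nat_lit 0) (nat_lit 0) (nat_lit 134) (@Lb.fp (nat_lit 3) t150)))))))))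
noncomputable def l7684 : Lb := (@Lb.d (nat_lit 170) (nat_lit 26) (nat_lit 64) (@Lb.r r362 (@Lb.r r357 (@Lb.r r411 (@Lb.r r264 (@Lb.g g7 (@Lb.g g6 (@Lb.d (nat_lit 80) (nat_lit 4) (nat_lit 65) (@Lb.fm (nat_lit 3) t50)))))))))
noncomputable def l7685 : Lb := (@Lb.r r322 (@Lb.d (nat_lit 34) (nat_lit 514) (nat_lit 576) (@Lb.g g8 (@Lb.g g9 (@Lb.g g7 (@Lb.r r361 (@Lb.r r150 (@Lb.r r104 (@Lb.d (nat_lit 356) (nat_lit 10) (nat_lit 9) (@Lb.t (@Lb.fm (nat_lit 9) t242)))))))))))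
noncomputable def l7686 : Lb := (@Lb.g g7 (@Lb.r r101 (@Lb.r r24 (@Lb.d (nat_lit 514) (nat_lit 256) (nat_lit 32) (@Lb.t (@Lb.fm (nat_lit 3) t319))))))
noncomputable def l7687 : Lb := (@Lb.d (nat_lit 0) (nat_lit 512) (nat_lit 68) (@Lb.g g7 (@Lb.r r101 (@Lb.r r24 (@Lb.d (nat_lit 514) (nat_lit 0) (nat_lit 102) (@Lb.t (@Lb.fm (nat_lit 3) t319)))))))
noncomputable def l7688 : Lb := (@Lb.d (nat_lit 18) (nat_lit 514) (nat_lit 138) (@Lb.g g8 (@Lb.g g9 (@Lb.g g10 (@Lb.g g11 (@Lb.r r676 (@Lb.r r2727 (@Lb.r r134 (@Lb.r r97 (@Lb.d (nat_lit 362) (nat_lit 104) (nat_lit 641) (@Lb.fm (nat_lit 9) t449)))))))))))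
noncomputable def l7689 : Lb := (@Lb.r r322 (@Lb.d (nat_lit 2) (nat_lit 33) (nat_lit 128) (@Lb.g g8 (@Lb.g g9 (@Lb.g g11 (@Lb.r r2713 (@Lb.r r146 (@Lb.d (nat_lit 680) (nat_lit 2) (nat_lit 550) (@Lb.t (@Lb.fp (nat_lit 9) t823))))))))))
noncomputable def l7690 : Lb := (@Lb.r r82 (@Lb.r r275 (@Lb.d (nat_lit 2) (nat_lit 512) (nat_lit 0) (@Lb.g g8 (@Lb.g g9 (@Lb.r r299 (@Lb.r r106 (@Lb.r r25 (@Lb.d (nat_lit 545) (nat_lit 0) (nat_lit 18) (@Lb.fm (nat_lit 3) t1938))))))))))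
noncomputable def l7691 : Lb := (@Lb.d (nat_lit 646) (nat_lit 598) (nat_lit 82) (@Lb.r r1301 (@Lb.r r1366 (@Lb.r r683 (@Lb.g g6 (@Lb.g g5 (@Lb.g g4 (@Lb.d (nat_lit 8) (nat_lit 0) (nat_lit 1) (@Lb.t (@Lb.fm (nat_lit 9) t578))))))))))
noncomputable def l7692 : Lb := (@Lb.d (nat_lit 0) (nat_lit 522) (nat_lit 128) (@Lb.g g9 (@Lb.g g11 (@Lb.r r2450 (@Lb.r r2659 (@Lb.r r1633 (@Lb.r r8 (@Lb.d (nat_lit 9) (nat_lit 89) (nat_lit 514) (@Lb.fm (nat_lit 3) t844)))))))))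
noncomputable def l7693 : Lb := (@Lb.r r82 (@Lb.r r275 (@Lb.d (nat_lit 4) (nat_lit 2) (nat_lit 0) (@Lb.g g5 (@Lb.r r2196 (@Lb.r r1638 (@Lb.r r2403 (@Lb.r r609 (@Lb.d (nat_lit 0) (nat_lit 101) (nat_lit 133) (@Lb.t (@Lb.fp (nat_lit 3) t1939)))))))))))
noncomputable def l7694 : Lb := (@Lb.d (nat_lit 0) (nat_lit 70) (nat_lit 262) (@Lb.r r673 (@Lb.r r618 (@Lb.r r340 (@Lb.g g11 (@Lb.g g9 (@Lb.d (nat_lit 4) (nat_lit 1) (nat_lit 256) (@Lb.r r578 (@Lb.fp (nat_lit 3) t1940)))))))))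
noncomputable def l7695 : Lb := (@Lb.d (nat_lit 2) (nat_lit 514) (nat_lit 130) (@Lb.g g8 (@Lb.g g9 (@Lb.g g10 (@Lb.g g11 (@Lb.r r1387 (@Lb.r r1442 (@Lb.r r660 (@Lb.r r425 (@Lb.r r2084 (@Lb.d (nat_lit 602) (nat_lit 73) (nat_lit 105) (@Lb.fp (nat_lit 9) t1387))))))))))))
noncomputable def l7696 : Lb := (@Lb.r r21 (@Lb.r r70 (@Lb.r r263 (@Lb.d (nat_lit 522) (nat_lit 512) (nat_lit 0) (@Lb.g g4 (@Lb.r r267 (@Lb.r r74 (@Lb.r r25 (@Lb.d (nat_lit 257) (nat_lit 128) (nat_lit 0) (@Lb.t (@Lb.fm (nat_lit 3) t74)))))))))))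
noncomputable def l7697 : Lb := (@Lb.d (nat_lit 8) (nat_lit 288) (nat_lit 10) (@Lb.g g9 (@Lb.g g10 (@Lb.r r1560 (@Lb.r r1563 (@Lb.r r2409 (@Lb.r r2138 (@Lb.d (nat_lit 585) (nat_lit 4) (nat_lit 389) (@Lb.fp (nat_lit 3) t1639)))))))))
noncomputable def l7698 : Lb := (@Lb.d (nat_lit 10) (nat_lit 577) (nat_lit 73) (@Lb.g g4 (@Lb.g g9 (@Lb.g g10 (@Lb.g g11 (@Lb.r r2658 (@Lb.r r579 (@Lb.d (nat_lit 0) (nat_lit 160) (nat_lit 586) (@Lb.fp (nat_lit 9) t51)))))))))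
noncomputable def l7699 : Lb := (@Lb.d (nat_lit 9) (nat_lit 37) (nat_lit 0) (@Lb.g g8 (@Lb.g g5 (@Lb.r r363 (@Lb.r r328 (@Lb.r r134 (@Lb.d (nat_lit 512) (nat_lit 8) (nat_lit 144) (@Lb.fp (nat_lit 3) t40))))))))
noncomputable def l7700 : Lb := (@Lb.d (nat_lit 2) (nat_lit 0) (nat_lit 138) (@Lb.g g11 (@Lb.t (@Lb.fp (nat_lit 3) t2))))
noncomputable def l7701 : Lb := (@Lb.d (nat_lit 1) (nat_lit 2) (nat_lit 73) (@Lb.g g8 (@Lb.g g9 (@Lb.g g10 (@Lb.g g11 (@Lb.r r2666 (@Lb.r r579 (@Lb.r r25 (@Lb.d (nat_lit 0) (nat_lit 161) (nat_lit 586) (@Lb.fm (nat_lit 9) t51))))))))))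
noncomputable def l7702 : Lb := (@Lb.d (nat_lit 533) (nat_lit 258) (nat_lit 1) (@Lb.r r68 (@Lb.r r90 (@Lb.r r596 (@Lb.r r1367 (@Lb.g g7 (@Lb.g g6 (@Lb.g g5 (@Lb.g g4 (@Lb.d (nat_lit 1) (nat_lit 134) (nat_lit 66) (@Lb.fp (nat_lit 9) t242)))))))))))
noncomputable def l7703 : Lb := (@Lb.d (nat_lit 1) (nat_lit 8) (nat_lit 73) (@Lb.g g8 (@Lb.g g10 (@Lb.g g11 (@Lb.r r2707 (@Lb.r r2345 (@Lb.r r1188 (@Lb.r r1638 (@Lb.d (nat_lit 409) (nat_lit 154) (nat_lit 69) (@Lb.t (@Lb.fm (nat_lit 9) t242)))))))))))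
noncomputable def l7704 : Lb := (@Lb.d (nat_lit 1) (nat_lit 256) (nat_lit 74) (@Lb.g g8 (@Lb.g g10 (@Lb.g g11 (@Lb.r r2707 (@Lb.r r2345 (@Lb.r r1188 (@Lb.r r1158 (@Lb.d (nat_lit 289) (nat_lit 10) (nat_lit 33) (@Lb.t (@Lb.fp (nat_lit 9) t296)))))))))))
noncomputable def l7705 : Lb := (@Lb.d (nat_lit 0) (nat_lit 0) (nat_lit 74) (@Lb.g g11 (@Lb.t (@Lb.fp (nat_lit 3) t2))))
noncomputable def l7706 : Lb := (@Lb.d (nat_lit 0) (nat_lit 256) (nat_lit 128) (@Lb.g g11 (@Lb.r r1346 (@Lb.r r387 (@Lb.d (nat_lit 0) (nat_lit 0) (nat_lit 537) (@Lb.t (@Lb.fp (nat_lit 3) t2)))))))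
noncomputable def l7707 : Lb := (@Lb.g g10 (@Lb.g g7 (@Lb.r r354 (@Lb.r r1427 (@Lb.r r101 (@Lb.r r24 (@Lb.d (nat_lit 65) (nat_lit 256) (nat_lit 0) (@Lb.fp (nat_lit 3) t145))))))))
noncomputable def l7708 : Lb := (@Lb.d (nat_lit 0) (nat_lit 513) (nat_lit 130) (@Lb.g g9 (@Lb.g g10 (@Lb.g g11 (@Lb.r r586 (@Lb.r r584 (@Lb.r r667 (@Lb.r r337 (@Lb.d (nat_lit 9) (nat_lit 168) (nat_lit 130) (@Lb.t (@Lb.fm (nat_lit 9) t51)))))))))))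
noncomputable def l7709 : Lb := (@Lb.d (nat_lit 290) (nat_lit 0) (nat_lit 64) (@Lb.r r2194 (@Lb.r r101 (@Lb.r r1304 (@Lb.g g7 (@Lb.d (nat_lit 64) (nat_lit 32) (nat_lit 576) (@Lb.t (@Lb.fp (nat_lit 3) t152))))))))
noncomputable def l7710 : Lb := (@Lb.d (nat_lit 32) (nat_lit 512) (nat_lit 2) (@Lb.g g9 (@Lb.g g10 (@Lb.r r1543 (@Lb.r r2713 (@Lb.r r100 (@Lb.r r410 (@Lb.d (nat_lit 649) (nat_lit 80) (nat_lit 138) (@Lb.fm (nat_lit 3) t1767)))))))))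
noncomputable def l7711 : Lb := (@Lb.d (nat_lit 66) (nat_lit 546) (nat_lit 0) (@Lb.r r82 (@Lb.r r531 (@Lb.r r277 (@Lb.g g7 (@Lb.g g5 (@Lb.g g4 (@Lb.d (nat_lit 1) (nat_lit 17) (nat_lit 128) (@Lb.r r98 (@Lb.t (@Lb.fm (nat_lit 9) t68)))))))))))
noncomputable def l7712 : Lb := (@Lb.d (nat_lit 32) (nat_lit 0) (nat_lit 130) (@Lb.g g9 (@Lb.g g10 (@Lb.g g11 (@Lb.r r1307 (@Lb.r r2713 (@Lb.r r100 (@Lb.r r410 (@Lb.d (nat_lit 409) (nat_lit 80) (nat_lit 138) (@Lb.t (@Lb.fp (nat_lit 9) t1941)))))))))))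
noncomputable def l7713 : Lb := (@Lb.d (nat_lit 32) (nat_lit 0) (nat_lit 2) (@Lb.g g9 (@Lb.g g10 (@Lb.r r1543 (@Lb.r r2713 (@Lb.r r100 (@Lb.r r410 (@Lb.d (nat_lit 644) (nat_lit 82) (nat_lit 138) (@Lb.fm (nat_lit 3) t1767)))))))))
noncomputable def l7714 : Lb := (@Lb.d (nat_lit 2) (nat_lit 26) (nat_lit 136) (@Lb.g g8 (@Lb.g g9 (@Lb.g g10 (@Lb.g g11 (@Lb.r r2579 (@Lb.r r1321 (@Lb.r r1384 (@Lb.r r2630 (@Lb.d (nat_lit 145) (nat_lit 10) (nat_lit 582) (@Lb.fm (nat_lit 9) t1942)))))))))))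
noncomputable def l7715 : Lb := (@Lb.d (nat_lit 4) (nat_lit 512) (nat_lit 66) (@Lb.g g8 (@Lb.g g9 (@Lb.g g10 (@Lb.g g7 (@Lb.r r386 (@Lb.r r97 (@Lb.r r24 (@Lb.d (nat_lit 10) (nat_lit 9) (nat_lit 137) (@Lb.fp (nat_lit 9) t40))))))))))
noncomputable def l7716 : Lb := (@Lb.r r82 (@Lb.d (nat_lit 34) (nat_lit 258) (nat_lit 128) (@Lb.g g8 (@Lb.g g9 (@Lb.g g11 (@Lb.r r363 (@Lb.r r582 (@Lb.r r677 (@Lb.r r408 (@Lb.d (nat_lit 426) (nat_lit 26) (nat_lit 33) (@Lb.t (@Lb.fm (nat_lit 9) t1613))))))))))))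
noncomputable def l7717 : Lb := (@Lb.d (nat_lit 646) (nat_lit 81) (nat_lit 578) (@Lb.r r2584 (@Lb.r r97 (@Lb.r r2411 (@Lb.g g10 (@Lb.g g4 (@Lb.d (nat_lit 96) (nat_lit 8) (nat_lit 37) (@Lb.r r25 (@Lb.fp (nat_lit 3) t1943)))))))))
noncomputable def l7718 : Lb := (@Lb.d (nat_lit 2) (nat_lit 516) (nat_lit 0) (@Lb.g g8 (@Lb.g g9 (@Lb.g g10 (@Lb.g g7 (@Lb.r r386 (@Lb.r r2657 (@Lb.r r24 (@Lb.d (nat_lit 10) (nat_lit 89) (nat_lit 9) (@Lb.fp (nat_lit 9) t42))))))))))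
noncomputable def l7719 : Lb := (@Lb.d (nat_lit 2) (nat_lit 2) (nat_lit 130) (@Lb.g g8 (@Lb.g g9 (@Lb.g g10 (@Lb.g g11 (@Lb.r r1299 (@Lb.r r2705 (@Lb.r r356 (@Lb.r r154 (@Lb.r r132 (@Lb.d (nat_lit 130) (nat_lit 2) (nat_lit 330) (@Lb.fm (nat_lit 9) t284))))))))))))
noncomputable def l7720 : Lb := (@Lb.d (nat_lit 2) (nat_lit 538) (nat_lit 73) (@Lb.g g8 (@Lb.g g9 (@Lb.g g10 (@Lb.g g11 (@Lb.r r2475 (@Lb.r r2201 (@Lb.r r2194 (@Lb.d (nat_lit 38) (nat_lit 170) (nat_lit 145) (@Lb.fm (nat_lit 9) t1358))))))))))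
noncomputable def l7721 : Lb := (@Lb.d (nat_lit 10) (nat_lit 512) (nat_lit 73) (@Lb.g g8 (@Lb.g g10 (@Lb.g g11 (@Lb.r r289 (@Lb.r r279 (@Lb.r r2696 (@Lb.r r2122 (@Lb.d (nat_lit 274) (nat_lit 10) (nat_lit 6) (@Lb.t (@Lb.fm (nat_lit 9) t167)))))))))))
noncomputable def l7722 : Lb := (@Lb.d (nat_lit 32) (nat_lit 0) (nat_lit 73) (@Lb.g g10 (@Lb.g g11 (@Lb.r r289 (@Lb.r r1380 (@Lb.r r2715 (@Lb.r r2634 (@Lb.d (nat_lit 338) (nat_lit 10) (nat_lit 392) (@Lb.fm (nat_lit 3) t167)))))))))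
noncomputable def l7723 : Lb := (@Lb.d (nat_lit 0) (nat_lit 512) (nat_lit 104) (@Lb.g g6 (@Lb.g g11 (@Lb.d (nat_lit 0) (nat_lit 5) (nat_lit 129) (@Lb.fp (nat_lit 3) t45)))))
noncomputable def l7724 : Lb := (@Lb.d (nat_lit 0) (nat_lit 0) (nat_lit 161) (@Lb.g g6 (@Lb.g g11 (@Lb.r r579 (@Lb.d (nat_lit 0) (nat_lit 5) (nat_lit 17) (@Lb.fm (nat_lit 3) t45))))))
noncomputable def l7725 : Lb := (@Lb.r r81 (@Lb.d (nat_lit 128) (nat_lit 4) (nat_lit 130) (@Lb.g g6 (@Lb.g g11 (@Lb.r r297 (@Lb.r r292 (@Lb.r r411 (@Lb.d (nat_lit 169) (nat_lit 16) (nat_lit 137) (@Lb.fm (nat_lit 3) t260)))))))))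
noncomputable def l7726 : Lb := (@Lb.r r323 (@Lb.d (nat_lit 0) (nat_lit 261) (nat_lit 42) (@Lb.g g9 (@Lb.g g6 (@Lb.r r387 (@Lb.r r1317 (@Lb.r r24 (@Lb.d (nat_lit 640) (nat_lit 0) (nat_lit 16) (@Lb.fp (nat_lit 3) t725)))))))))
noncomputable def l7727 : Lb := (@Lb.d (nat_lit 0) (nat_lit 290) (nat_lit 128) (@Lb.r r289 (@Lb.r r551 (@Lb.r r360 (@Lb.r r662 (@Lb.g g11 (@Lb.r r578 (@Lb.t (@Lb.fp (nat_lit 3) t260)))))))))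
noncomputable def l7728 : Lb := (@Lb.d (nat_lit 645) (nat_lit 592) (nat_lit 272) (@Lb.r r2601 (@Lb.r r2731 (@Lb.r r662 (@Lb.g g5 (@Lb.g g4 (@Lb.d (nat_lit 578) (nat_lit 5) (nat_lit 0) (@Lb.r r74 (@Lb.fp (nat_lit 3) t378)))))))))
noncomputable def l7729 : Lb := (@Lb.d (nat_lit 129) (nat_lit 16) (nat_lit 2) (@Lb.g g8 (@Lb.g g9 (@Lb.g g10 (@Lb.g g11 (@Lb.r r663 (@Lb.r r1642 (@Lb.r r1561 (@Lb.r r2084 (@Lb.d (nat_lit 65) (nat_lit 17) (nat_lit 617) (@Lb.fm (nat_lit 9) t43)))))))))))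
noncomputable def l7730 : Lb := (@Lb.d (nat_lit 9) (nat_lit 258) (nat_lit 130) (@Lb.g g8 (@Lb.g g9 (@Lb.g g10 (@Lb.g g11 (@Lb.r r2601 (@Lb.r r299 (@Lb.r r388 (@Lb.r r70 (@Lb.r r132 (@Lb.d (nat_lit 514) (nat_lit 10) (nat_lit 345) (@Lb.fm (nat_lit 9) t126))))))))))))
noncomputable def l7731 : Lb := (@Lb.d (nat_lit 645) (nat_lit 592) (nat_lit 341) (@Lb.r r2601 (@Lb.r r2731 (@Lb.r r662 (@Lb.g g5 (@Lb.g g4 (@Lb.d (nat_lit 577) (nat_lit 5) (nat_lit 0) (@Lb.r r74 (@Lb.fp (nat_lit 3) t377)))))))))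
noncomputable def l7732 : Lb := (@Lb.d (nat_lit 9) (nat_lit 2) (nat_lit 130) (@Lb.g g8 (@Lb.g g9 (@Lb.g g10 (@Lb.g g11 (@Lb.r r2601 (@Lb.r r299 (@Lb.r r388 (@Lb.r r70 (@Lb.r r132 (@Lb.d (nat_lit 516) (nat_lit 8) (nat_lit 345) (@Lb.fm (nat_lit 9) t420))))))))))))
noncomputable def l7733 : Lb := (@Lb.d (nat_lit 645) (nat_lit 21) (nat_lit 289) (@Lb.r r2601 (@Lb.r r1451 (@Lb.r r2454 (@Lb.g g7 (@Lb.g g5 (@Lb.g g4 (@Lb.d (nat_lit 578) (nat_lit 5) (nat_lit 128) (@Lb.r r74 (@Lb.t (@Lb.fp (nat_lit 9) t1944)))))))))))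
noncomputable def l7734 : Lb := (@Lb.r r21 (@Lb.d (nat_lit 33) (nat_lit 512) (nat_lit 1) (@Lb.g g8 (@Lb.g g10 (@Lb.r r651 (@Lb.r r1556 (@Lb.r r153 (@Lb.r r602 (@Lb.d (nat_lit 394) (nat_lit 101) (nat_lit 406) (@Lb.fp (nat_lit 3) t577))))))))))
noncomputable def l7735 : Lb := (@Lb.d (nat_lit 130) (nat_lit 0) (nat_lit 0) (@Lb.g g8 (@Lb.r r551 (@Lb.r r402 (@Lb.r r609 (@Lb.r r104 (@Lb.d (nat_lit 33) (nat_lit 0) (nat_lit 2) (@Lb.t (@Lb.fp (nat_lit 3) t44)))))))))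
noncomputable def l7736 : Lb := (@Lb.d (nat_lit 2) (nat_lit 9) (nat_lit 0) (@Lb.g g8 (@Lb.g g9 (@Lb.g g10 (@Lb.r r2475 (@Lb.r r2390 (@Lb.r r25 (@Lb.d (nat_lit 9) (nat_lit 130) (nat_lit 613) (@Lb.t (@Lb.fm (nat_lit 9) t711))))))))))
noncomputable def l7737 : Lb := (@Lb.r r82 (@Lb.d (nat_lit 2) (nat_lit 2) (nat_lit 0) (@Lb.g g8 (@Lb.g g9 (@Lb.r r1561 (@Lb.r r2579 (@Lb.r r146 (@Lb.d (nat_lit 385) (nat_lit 138) (nat_lit 73) (@Lb.fm (nat_lit 3) t1945)))))))))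
noncomputable def l7738 : Lb := (@Lb.d (nat_lit 134) (nat_lit 298) (nat_lit 1) (@Lb.g g8 (@Lb.g g9 (@Lb.g g10 (@Lb.r r343 (@Lb.r r162 (@Lb.r r2712 (@Lb.r r165 (@Lb.d (nat_lit 38) (nat_lit 146) (nat_lit 425) (@Lb.t (@Lb.fp (nat_lit 9) t577)))))))))))
noncomputable def l7739 : Lb := (@Lb.r r275 (@Lb.d (nat_lit 0) (nat_lit 514) (nat_lit 2) (@Lb.g g8 (@Lb.g g9 (@Lb.g g10 (@Lb.r r595 (@Lb.r r2154 (@Lb.r r2152 (@Lb.r r2073 (@Lb.d (nat_lit 581) (nat_lit 160) (nat_lit 384) (@Lb.t (@Lb.fm (nat_lit 9) t244))))))))))))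
noncomputable def l7740 : Lb := (@Lb.r r1297 (@Lb.d (nat_lit 0) (nat_lit 264) (nat_lit 2) (@Lb.g g10 (@Lb.g g11 (@Lb.r r2435 (@Lb.d (nat_lit 0) (nat_lit 2) (nat_lit 665) (@Lb.fm (nat_lit 3) t1946)))))))
noncomputable def l7741 : Lb := (@Lb.d (nat_lit 34) (nat_lit 513) (nat_lit 0) (@Lb.g g8 (@Lb.g g9 (@Lb.r r2723 (@Lb.r r582 (@Lb.r r2212 (@Lb.r r2581 (@Lb.d (nat_lit 138) (nat_lit 149) (nat_lit 330) (@Lb.fp (nat_lit 3) t881)))))))))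
noncomputable def l7742 : Lb := (@Lb.d (nat_lit 4) (nat_lit 513) (nat_lit 0) (@Lb.g g8 (@Lb.g g5 (@Lb.r r2584 (@Lb.d (nat_lit 330) (nat_lit 0) (nat_lit 128) (@Lb.fm (nat_lit 3) t1894))))))
noncomputable def l7743 : Lb := (@Lb.d (nat_lit 34) (nat_lit 1) (nat_lit 0) (@Lb.g g8 (@Lb.g g9 (@Lb.r r2723 (@Lb.r r582 (@Lb.r r2212 (@Lb.r r2581 (@Lb.d (nat_lit 133) (nat_lit 148) (nat_lit 330) (@Lb.fp (nat_lit 3) t881)))))))))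
noncomputable def l7744 : Lb := (@Lb.d (nat_lit 2) (nat_lit 514) (nat_lit 130) (@Lb.g g8 (@Lb.g g9 (@Lb.g g10 (@Lb.g g11 (@Lb.r r2666 (@Lb.r r2664 (@Lb.r r2585 (@Lb.r r2651 (@Lb.d (nat_lit 361) (nat_lit 66) (nat_lit 137) (@Lb.fp (nat_lit 9) t1384)))))))))))
noncomputable def l7745 : Lb := (@Lb.r r82 (@Lb.d (nat_lit 2) (nat_lit 16) (nat_lit 132) (@Lb.g g8 (@Lb.g g9 (@Lb.g g7 (@Lb.r r386 (@Lb.r r97 (@Lb.r r24 (@Lb.d (nat_lit 10) (nat_lit 9) (nat_lit 66) (@Lb.t (@Lb.fm (nat_lit 9) t42)))))))))))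
noncomputable def l7746 : Lb := (@Lb.d (nat_lit 6) (nat_lit 32) (nat_lit 128) (@Lb.r r21 (@Lb.r r579 (@Lb.r r406 (@Lb.g g6 (@Lb.g g5 (@Lb.g g4 (@Lb.d (nat_lit 1) (nat_lit 1) (nat_lit 0) (@Lb.t (@Lb.fp (nat_lit 9) t130))))))))))
noncomputable def l7747 : Lb := (@Lb.d (nat_lit 0) (nat_lit 264) (nat_lit 66) (@Lb.g g10 (@Lb.g g7 (@Lb.d (nat_lit 0) (nat_lit 2) (nat_lit 148) (@Lb.fp (nat_lit 3) t479)))))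
noncomputable def l7748 : Lb := (@Lb.d (nat_lit 2) (nat_lit 265) (nat_lit 129) (@Lb.g g8 (@Lb.g g9 (@Lb.g g10 (@Lb.g g11 (@Lb.r r2218 (@Lb.r r420 (@Lb.r r283 (@Lb.r r1557 (@Lb.r r1060 (@Lb.d (nat_lit 640) (nat_lit 66) (nat_lit 330) (@Lb.fm (nat_lit 9) t367))))))))))))
noncomputable def l7749 : Lb := (@Lb.d (nat_lit 2) (nat_lit 514) (nat_lit 66) (@Lb.g g8 (@Lb.g g9 (@Lb.g g10 (@Lb.g g7 (@Lb.r r417 (@Lb.r r98 (@Lb.r r24 (@Lb.d (nat_lit 10) (nat_lit 33) (nat_lit 82) (@Lb.fm (nat_lit 9) t1947))))))))))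
noncomputable def l7750 : Lb := (@Lb.d (nat_lit 6) (nat_lit 328) (nat_lit 169) (@Lb.r r21 (@Lb.r r86 (@Lb.r r2583 (@Lb.g g6 (@Lb.g g5 (@Lb.g g4 (@Lb.d (nat_lit 1) (nat_lit 1) (nat_lit 1) (@Lb.t (@Lb.fm (nat_lit 9) t41))))))))))
noncomputable def l7751 : Lb := (@Lb.d (nat_lit 146) (nat_lit 2) (nat_lit 128) (@Lb.g g8 (@Lb.g g9 (@Lb.g g10 (@Lb.g g11 (@Lb.r r676 (@Lb.r r263 (@Lb.r r2210 (@Lb.r r145 (@Lb.r r1540 (@Lb.d (nat_lit 258) (nat_lit 73) (nat_lit 665) (@Lb.fm (nat_lit 9) t1948))))))))))))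
noncomputable def l7752 : Lb := (@Lb.d (nat_lit 0) (nat_lit 256) (nat_lit 128) (@Lb.g g10 (@Lb.g g11 (@Lb.r r2707 (@Lb.r r2408 (@Lb.r r1382 (@Lb.r r289 (@Lb.d (nat_lit 277) (nat_lit 68) (nat_lit 1) (@Lb.fp (nat_lit 3) t1949)))))))))
noncomputable def l7753 : Lb := (@Lb.r r70 (@Lb.d (nat_lit 385) (nat_lit 2) (nat_lit 0) (@Lb.g g8 (@Lb.g g9 (@Lb.r r2454 (@Lb.r r579 (@Lb.r r25 (@Lb.d (nat_lit 2) (nat_lit 80) (nat_lit 538) (@Lb.fm (nat_lit 3) t260)))))))))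
noncomputable def l7754 : Lb := (@Lb.r r70 (@Lb.d (nat_lit 385) (nat_lit 2) (nat_lit 64) (@Lb.g g8 (@Lb.g g9 (@Lb.g g11 (@Lb.r r662 (@Lb.r r1411 (@Lb.r r25 (@Lb.d (nat_lit 2) (nat_lit 80) (nat_lit 421) (@Lb.t (@Lb.fp (nat_lit 9) t1950)))))))))))
noncomputable def l7755 : Lb := (@Lb.r r600 (@Lb.r r1301 (@Lb.r r1579 (@Lb.r r2178 (@Lb.r r1572 (@Lb.d (nat_lit 548) (nat_lit 513) (nat_lit 68) (@Lb.fm (nat_lit 1) t1951)))))))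
noncomputable def l7756 : Lb := (@Lb.d (nat_lit 138) (nat_lit 0) (nat_lit 128) (@Lb.g g8 (@Lb.g g11 (@Lb.r r1575 (@Lb.r r2662 (@Lb.r r613 (@Lb.r r2452 (@Lb.d (nat_lit 614) (nat_lit 24) (nat_lit 649) (@Lb.fm (nat_lit 3) t1952)))))))))
noncomputable def l7757 : Lb := (@Lb.r r70 (@Lb.d (nat_lit 385) (nat_lit 522) (nat_lit 64) (@Lb.g g8 (@Lb.g g9 (@Lb.g g11 (@Lb.r r2454 (@Lb.r r2391 (@Lb.r r2601 (@Lb.d (nat_lit 330) (nat_lit 37) (nat_lit 529) (@Lb.t (@Lb.fm (nat_lit 9) t1953)))))))))))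
noncomputable def l7758 : Lb := (@Lb.r r70 (@Lb.d (nat_lit 385) (nat_lit 266) (nat_lit 0) (@Lb.g g8 (@Lb.g g9 (@Lb.r r662 (@Lb.r r2731 (@Lb.r r2601 (@Lb.d (nat_lit 330) (nat_lit 160) (nat_lit 544) (@Lb.fp (nat_lit 3) t173)))))))))
noncomputable def l7759 : Lb := (@Lb.d (nat_lit 0) (nat_lit 520) (nat_lit 2) (@Lb.g g6 (@Lb.r r2457 (@Lb.r r615 (@Lb.r r408 (@Lb.r r330 (@Lb.d (nat_lit 80) (nat_lit 0) (nat_lit 146) (@Lb.t (@Lb.fm (nat_lit 3) t100)))))))))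
noncomputable def l7760 : Lb := (@Lb.r r21 (@Lb.d (nat_lit 146) (nat_lit 512) (nat_lit 128) (@Lb.g g8 (@Lb.g g10 (@Lb.g g11 (@Lb.r r1691 (@Lb.r r660 (@Lb.r r1174 (@Lb.r r97 (@Lb.d (nat_lit 9) (nat_lit 66) (nat_lit 394) (@Lb.t (@Lb.fp (nat_lit 9) t472))))))))))))
noncomputable def l7761 : Lb := (@Lb.r r323 (@Lb.d (nat_lit 1) (nat_lit 0) (nat_lit 1) (@Lb.g g8 (@Lb.g g6 (@Lb.r r387 (@Lb.r r2152 (@Lb.r r2073 (@Lb.d (nat_lit 0) (nat_lit 138) (nat_lit 82) (@Lb.fm (nat_lit 3) t40)))))))))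
noncomputable def l7762 : Lb := (@Lb.d (nat_lit 9) (nat_lit 32) (nat_lit 130) (@Lb.g g8 (@Lb.g g10 (@Lb.g g11 (@Lb.r r618 (@Lb.r r149 (@Lb.r r360 (@Lb.r r2567 (@Lb.d (nat_lit 644) (nat_lit 17) (nat_lit 640) (@Lb.t (@Lb.fm (nat_lit 9) t71)))))))))))
noncomputable def l7763 : Lb := (@Lb.r r263 (@Lb.d (nat_lit 9) (nat_lit 256) (nat_lit 2) (@Lb.g g8 (@Lb.g g10 (@Lb.r r1691 (@Lb.r r85 (@Lb.r r98 (@Lb.r r2180 (@Lb.d (nat_lit 546) (nat_lit 5) (nat_lit 5) (@Lb.fp (nat_lit 3) t50))))))))))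
noncomputable def l7764 : Lb := (@Lb.d (nat_lit 146) (nat_lit 512) (nat_lit 150) (@Lb.r r2116 (@Lb.r r2410 (@Lb.r r2145 (@Lb.g g7 (@Lb.g g4 (@Lb.d (nat_lit 5) (nat_lit 32) (nat_lit 320) (@Lb.fp (nat_lit 3) t152))))))))
noncomputable def l7765 : Lb := (@Lb.r r323 (@Lb.d (nat_lit 137) (nat_lit 0) (nat_lit 2) (@Lb.g g8 (@Lb.g g10 (@Lb.r r346 (@Lb.r r661 (@Lb.r r1431 (@Lb.r r2632 (@Lb.d (nat_lit 352) (nat_lit 129) (nat_lit 258) (@Lb.fp (nat_lit 3) t71))))))))))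
noncomputable def l7766 : Lb := (@Lb.g g4 (@Lb.g g10 (@Lb.r r2579 (@Lb.r r72 (@Lb.r r598 (@Lb.r r289 (@Lb.r r2180 (@Lb.d (nat_lit 2) (nat_lit 256) (nat_lit 0) (@Lb.fm (nat_lit 3) t51)))))))))
noncomputable def l7767 : Lb := (@Lb.r r323 (@Lb.d (nat_lit 137) (nat_lit 512) (nat_lit 2) (@Lb.g g8 (@Lb.g g10 (@Lb.r r346 (@Lb.r r661 (@Lb.r r1431 (@Lb.r r2632 (@Lb.d (nat_lit 352) (nat_lit 134) (nat_lit 256) (@Lb.fp (nat_lit 3) t71))))))))))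
noncomputable def l7768 : Lb := (@Lb.r r323 (@Lb.d (nat_lit 1) (nat_lit 514) (nat_lit 1) (@Lb.g g8 (@Lb.g g9 (@Lb.g g6 (@Lb.r r387 (@Lb.r r104 (@Lb.r r25 (@Lb.d (nat_lit 512) (nat_lit 10) (nat_lit 82) (@Lb.t (@Lb.fm (nat_lit 9) t40)))))))))))
noncomputable def l7769 : Lb := (@Lb.r r323 (@Lb.d (nat_lit 40) (nat_lit 2) (nat_lit 26) (@Lb.g g9 (@Lb.g g10 (@Lb.r r1627 (@Lb.r r1624 (@Lb.r r2341 (@Lb.d (nat_lit 64) (nat_lit 10) (nat_lit 513) (@Lb.fp (nat_lit 3) t1954)))))))))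
noncomputable def l7770 : Lb := (@Lb.r r21 (@Lb.d (nat_lit 41) (nat_lit 512) (nat_lit 8) (@Lb.g g8 (@Lb.g g6 (@Lb.r r273 (@Lb.r r423 (@Lb.r r600 (@Lb.d (nat_lit 89) (nat_lit 40) (nat_lit 136) (@Lb.fm (nat_lit 3) t1955)))))))))
noncomputable def l7771 : Lb := (@Lb.d (nat_lit 0) (nat_lit 520) (nat_lit 9) (@Lb.g g10 (@Lb.d (nat_lit 0) (nat_lit 154) (nat_lit 393) (@Lb.t (@Lb.fp (nat_lit 3) t334)))))
noncomputable def l7772 : Lb := (@Lb.d (nat_lit 601) (nat_lit 646) (nat_lit 65) (@Lb.r r273 (@Lb.r r2663 (@Lb.r r593 (@Lb.r r1346 (@Lb.g g7 (@Lb.g g6 (@Lb.g g5 (@Lb.g g8 (@Lb.d (nat_lit 320) (nat_lit 1) (nat_lit 129) (@Lb.fp (nat_lit 9) t1596)))))))))))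
noncomputable def l7773 : Lb := (@Lb.d (nat_lit 2) (nat_lit 33) (nat_lit 130) (@Lb.g g8 (@Lb.g g9 (@Lb.g g10 (@Lb.g g11 (@Lb.r r1689 (@Lb.r r531 (@Lb.r r386 (@Lb.r r24 (@Lb.d (nat_lit 593) (nat_lit 42) (nat_lit 658) (@Lb.fm (nat_lit 9) t855)))))))))))
noncomputable def l7774 : Lb := (@Lb.r r2325 (@Lb.d (nat_lit 33) (nat_lit 512) (nat_lit 137) (@Lb.g g8 (@Lb.g g10 (@Lb.g g11 (@Lb.r r1666 (@Lb.r r1415 (@Lb.r r2564 (@Lb.d (nat_lit 162) (nat_lit 10) (nat_lit 402) (@Lb.t (@Lb.fp (nat_lit 9) t1169)))))))))))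
noncomputable def l7775 : Lb := (@Lb.d (nat_lit 0) (nat_lit 280) (nat_lit 1) (@Lb.g g9 (@Lb.g g10 (@Lb.g g11 (@Lb.r r2387 (@Lb.r r362 (@Lb.r r356 (@Lb.r r277 (@Lb.d (nat_lit 68) (nat_lit 82) (nat_lit 128) (@Lb.t (@Lb.fm (nat_lit 9) t340)))))))))))
noncomputable def l7776 : Lb := (@Lb.d (nat_lit 10) (nat_lit 0) (nat_lit 130) (@Lb.g g8 (@Lb.g g10 (@Lb.g g11 (@Lb.r r1319 (@Lb.r r1381 (@Lb.r r2714 (@Lb.r r2692 (@Lb.d (nat_lit 417) (nat_lit 2) (nat_lit 406) (@Lb.t (@Lb.fm (nat_lit 9) t441)))))))))))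
noncomputable def l7777 : Lb := (@Lb.d (nat_lit 2) (nat_lit 256) (nat_lit 128) (@Lb.g g8 (@Lb.g g11 (@Lb.r r1287 (@Lb.r r1381 (@Lb.r r2714 (@Lb.r r2564 (@Lb.d (nat_lit 408) (nat_lit 2) (nat_lit 385) (@Lb.fm (nat_lit 3) t514)))))))))
noncomputable def l7778 : Lb := (@Lb.r r275 (@Lb.d (nat_lit 2) (nat_lit 266) (nat_lit 1) (@Lb.g g8 (@Lb.g g9 (@Lb.g g10 (@Lb.r r1706 (@Lb.r r1700 (@Lb.r r1575 (@Lb.r r2085 (@Lb.d (nat_lit 521) (nat_lit 144) (nat_lit 10) (@Lb.t (@Lb.fp (nat_lit 9) t1225))))))))))))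
noncomputable def l7779 : Lb := (@Lb.d (nat_lit 2) (nat_lit 545) (nat_lit 73) (@Lb.g g8 (@Lb.g g9 (@Lb.g g10 (@Lb.g g11 (@Lb.r r1706 (@Lb.r r1188 (@Lb.r r2597 (@Lb.r r1315 (@Lb.d (nat_lit 521) (nat_lit 81) (nat_lit 650) (@Lb.fp (nat_lit 9) t1225)))))))))))
noncomputable def l7780 : Lb := (@Lb.r r322 (@Lb.d (nat_lit 8) (nat_lit 546) (nat_lit 516) (@Lb.g g9 (@Lb.g g7 (@Lb.r r426 (@Lb.r r532 (@Lb.r r361 (@Lb.d (nat_lit 162) (nat_lit 137) (nat_lit 518) (@Lb.fp (nat_lit 3) t1234)))))))))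
noncomputable def l7781 : Lb := (@Lb.d (nat_lit 10) (nat_lit 0) (nat_lit 130) (@Lb.g g8 (@Lb.g g10 (@Lb.g g11 (@Lb.r r1319 (@Lb.r r1381 (@Lb.r r2714 (@Lb.r r2692 (@Lb.d (nat_lit 416) (nat_lit 4) (nat_lit 404) (@Lb.t (@Lb.fm (nat_lit 9) t528)))))))))))
noncomputable def l7782 : Lb := (@Lb.d (nat_lit 2) (nat_lit 545) (nat_lit 130) (@Lb.g g8 (@Lb.g g9 (@Lb.g g10 (@Lb.g g11 (@Lb.r r1689 (@Lb.r r531 (@Lb.r r386 (@Lb.r r24 (@Lb.d (nat_lit 598) (nat_lit 40) (nat_lit 658) (@Lb.fm (nat_lit 9) t855)))))))))))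
noncomputable def l7783 : Lb := (@Lb.d (nat_lit 2) (nat_lit 265) (nat_lit 129) (@Lb.g g8 (@Lb.g g9 (@Lb.g g10 (@Lb.g g11 (@Lb.r r162 (@Lb.r r168 (@Lb.r r425 (@Lb.r r279 (@Lb.r r548 (@Lb.d (nat_lit 265) (nat_lit 9) (nat_lit 41) (@Lb.fm (nat_lit 9) t1706))))))))))))
noncomputable def l7784 : Lb := (@Lb.d (nat_lit 0) (nat_lit 521) (nat_lit 129) (@Lb.g g8 (@Lb.g g9 (@Lb.g g10 (@Lb.g g11 (@Lb.r r162 (@Lb.r r168 (@Lb.r r425 (@Lb.r r279 (@Lb.r r548 (@Lb.d (nat_lit 265) (nat_lit 2) (nat_lit 42) (@Lb.fm (nat_lit 9) t1707))))))))))))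
noncomputable def l7785 : Lb := (@Lb.d (nat_lit 0) (nat_lit 265) (nat_lit 129) (@Lb.g g8 (@Lb.g g9 (@Lb.g g10 (@Lb.g g11 (@Lb.r r162 (@Lb.r r168 (@Lb.r r425 (@Lb.r r279 (@Lb.r r548 (@Lb.d (nat_lit 258) (nat_lit 0) (nat_lit 42) (@Lb.fm (nat_lit 9) t1707))))))))))))
noncomputable def l7786 : Lb := (@Lb.d (nat_lit 2) (nat_lit 9) (nat_lit 129) (@Lb.g g8 (@Lb.g g9 (@Lb.g g10 (@Lb.g g11 (@Lb.r r162 (@Lb.r r168 (@Lb.r r425 (@Lb.r r279 (@Lb.r r548 (@Lb.d (nat_lit 265) (nat_lit 2) (nat_lit 42) (@Lb.fm (nat_lit 9) t1707))))))))))))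
noncomputable def l7787 : Lb := (@Lb.d (nat_lit 322) (nat_lit 134) (nat_lit 136) (@Lb.r r279 (@Lb.r r660 (@Lb.r r89 (@Lb.r r2694 (@Lb.g g7 (@Lb.g g6 (@Lb.g g4 (@Lb.d (nat_lit 5) (nat_lit 16) (nat_lit 64) (@Lb.t (@Lb.fm (nat_lit 9) t725)))))))))))
noncomputable def l7788 : Lb := (@Lb.d (nat_lit 32) (nat_lit 8) (nat_lit 130) (@Lb.g g10 (@Lb.g g11 (@Lb.r r361 (@Lb.r r2711 (@Lb.r r1352 (@Lb.r r1382 (@Lb.d (nat_lit 346) (nat_lit 132) (nat_lit 277) (@Lb.fp (nat_lit 3) t71)))))))))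
noncomputable def l7789 : Lb := (@Lb.d (nat_lit 9) (nat_lit 264) (nat_lit 130) (@Lb.g g8 (@Lb.g g10 (@Lb.g g11 (@Lb.r r545 (@Lb.r r299 (@Lb.r r356 (@Lb.r r154 (@Lb.d (nat_lit 10) (nat_lit 5) (nat_lit 130) (@Lb.t (@Lb.fm (nat_lit 9) t167)))))))))))
noncomputable def l7790 : Lb := (@Lb.d (nat_lit 32) (nat_lit 264) (nat_lit 130) (@Lb.g g10 (@Lb.g g11 (@Lb.r r361 (@Lb.r r2711 (@Lb.r r1352 (@Lb.r r1382 (@Lb.d (nat_lit 346) (nat_lit 130) (nat_lit 276) (@Lb.fp (nat_lit 3) t71)))))))))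
noncomputable def l7791 : Lb := (@Lb.d (nat_lit 129) (nat_lit 514) (nat_lit 130) (@Lb.g g8 (@Lb.g g9 (@Lb.g g10 (@Lb.g g11 (@Lb.r r2710 (@Lb.r r360 (@Lb.r r1319 (@Lb.r r405 (@Lb.r r2084 (@Lb.d (nat_lit 26) (nat_lit 137) (nat_lit 673) (@Lb.fp (nat_lit 9) t1039))))))))))))
noncomputable def l7792 : Lb := (@Lb.r r21 (@Lb.d (nat_lit 10) (nat_lit 264) (nat_lit 130) (@Lb.g g8 (@Lb.g g10 (@Lb.g g11 (@Lb.r r427 (@Lb.r r533 (@Lb.r r360 (@Lb.r r150 (@Lb.d (nat_lit 38) (nat_lit 149) (nat_lit 326) (@Lb.t (@Lb.fm (nat_lit 9) t119))))))))))))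
noncomputable def l7793 : Lb := (@Lb.r r263 (@Lb.d (nat_lit 0) (nat_lit 514) (nat_lit 2) (@Lb.g g8 (@Lb.g g9 (@Lb.g g10 (@Lb.r r676 (@Lb.r r2647 (@Lb.r r386 (@Lb.r r97 (@Lb.d (nat_lit 0) (nat_lit 104) (nat_lit 585) (@Lb.t (@Lb.fp (nat_lit 9) t19))))))))))))
noncomputable def l7794 : Lb := (@Lb.d (nat_lit 257) (nat_lit 0) (nat_lit 1) (@Lb.r r24 (@Lb.r r101 (@Lb.r r2403 (@Lb.g g6 (@Lb.d (nat_lit 0) (nat_lit 4) (nat_lit 1) (@Lb.t (@Lb.fm (nat_lit 3) t58))))))))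
noncomputable def l7795 : Lb := (@Lb.d (nat_lit 129) (nat_lit 4) (nat_lit 74) (@Lb.g g8 (@Lb.g g9 (@Lb.g g10 (@Lb.g g11 (@Lb.r r2658 (@Lb.r r1643 (@Lb.r r97 (@Lb.r r1156 (@Lb.d (nat_lit 38) (nat_lit 165) (nat_lit 342) (@Lb.fp (nat_lit 9) t1032)))))))))))
noncomputable def l7796 : Lb := (@Lb.d (nat_lit 144) (nat_lit 258) (nat_lit 128) (@Lb.g g8 (@Lb.g g9 (@Lb.g g10 (@Lb.g g11 (@Lb.r r2722 (@Lb.r r2439 (@Lb.r r145 (@Lb.r r2632 (@Lb.d (nat_lit 616) (nat_lit 137) (nat_lit 425) (@Lb.fp (nat_lit 9) t1666)))))))))))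
noncomputable def l7797 : Lb := (@Lb.d (nat_lit 10) (nat_lit 288) (nat_lit 64) (@Lb.g g8 (@Lb.g g11 (@Lb.r r166 (@Lb.r r149 (@Lb.r r360 (@Lb.r r2567 (@Lb.d (nat_lit 642) (nat_lit 24) (nat_lit 642) (@Lb.fp (nat_lit 3) t71)))))))))
noncomputable def l7798 : Lb := (@Lb.d (nat_lit 10) (nat_lit 544) (nat_lit 104) (@Lb.g g8 (@Lb.g g10 (@Lb.g g11 (@Lb.r r353 (@Lb.r r535 (@Lb.r r2436 (@Lb.d (nat_lit 341) (nat_lit 138) (nat_lit 648) (@Lb.t (@Lb.fm (nat_lit 9) t386))))))))))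
noncomputable def l7799 : Lb := (@Lb.d (nat_lit 10) (nat_lit 262) (nat_lit 0) (@Lb.g g8 (@Lb.g g9 (@Lb.g g10 (@Lb.r r683 (@Lb.r r1689 (@Lb.r r1178 (@Lb.r r1156 (@Lb.d (nat_lit 345) (nat_lit 65) (nat_lit 280) (@Lb.t (@Lb.fm (nat_lit 9) t1956)))))))))))
noncomputable def l7800 : Lb := (@Lb.d (nat_lit 16) (nat_lit 514) (nat_lit 0) (@Lb.g g8 (@Lb.g g9 (@Lb.g g10 (@Lb.r r1689 (@Lb.r r1683 (@Lb.r r1602 (@Lb.r r292 (@Lb.d (nat_lit 74) (nat_lit 137) (nat_lit 409) (@Lb.t (@Lb.fp (nat_lit 9) t898)))))))))))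
noncomputable def l7801 : Lb := (@Lb.d (nat_lit 32) (nat_lit 32) (nat_lit 2) (@Lb.g g9 (@Lb.g g10 (@Lb.r r1348 (@Lb.r r2699 (@Lb.r r2730 (@Lb.r r2209 (@Lb.d (nat_lit 104) (nat_lit 164) (nat_lit 130) (@Lb.fp (nat_lit 3) t127)))))))))
noncomputable def l7802 : Lb := (@Lb.d (nat_lit 37) (nat_lit 512) (nat_lit 73) (@Lb.g g8 (@Lb.g g9 (@Lb.g g10 (@Lb.g g11 (@Lb.r r2667 (@Lb.r r616 (@Lb.r r169 (@Lb.r r618 (@Lb.r r1060 (@Lb.d (nat_lit 130) (nat_lit 132) (nat_lit 70) (@Lb.fm (nat_lit 9) t1957))))))))))))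
noncomputable def l7803 : Lb := (@Lb.d (nat_lit 130) (nat_lit 10) (nat_lit 0) (@Lb.g g8 (@Lb.g g9 (@Lb.r r599 (@Lb.r r594 (@Lb.r r417 (@Lb.r r104 (@Lb.d (nat_lit 33) (nat_lit 2) (nat_lit 68) (@Lb.fp (nat_lit 3) t119)))))))))
noncomputable def l7804 : Lb := (@Lb.d (nat_lit 2) (nat_lit 546) (nat_lit 2) (@Lb.g g8 (@Lb.g g9 (@Lb.g g10 (@Lb.r r1194 (@Lb.r r2468 (@Lb.r r1627 (@Lb.r r1445 (@Lb.d (nat_lit 149) (nat_lit 36) (nat_lit 90) (@Lb.t (@Lb.fp (nat_lit 9) t49)))))))))))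
noncomputable def l7805 : Lb := (@Lb.d (nat_lit 8) (nat_lit 34) (nat_lit 0) (@Lb.g g5 (@Lb.r r680 (@Lb.r r427 (@Lb.r r2178 (@Lb.r r2393 (@Lb.d (nat_lit 101) (nat_lit 100) (nat_lit 418) (@Lb.t (@Lb.fm (nat_lit 3) t1540)))))))))
noncomputable def l7806 : Lb := (@Lb.d (nat_lit 2) (nat_lit 4) (nat_lit 128) (@Lb.g g8 (@Lb.g g9 (@Lb.g g10 (@Lb.g g11 (@Lb.r r2411 (@Lb.r r386 (@Lb.r r97 (@Lb.r r24 (@Lb.d (nat_lit 533) (nat_lit 132) (nat_lit 136) (@Lb.fm (nat_lit 9) t1958)))))))))))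
noncomputable def l7807 : Lb := (@Lb.d (nat_lit 2) (nat_lit 546) (nat_lit 2) (@Lb.g g8 (@Lb.g g9 (@Lb.g g10 (@Lb.r r1623 (@Lb.r r386 (@Lb.r r1697 (@Lb.d (nat_lit 641) (nat_lit 36) (nat_lit 24) (@Lb.t (@Lb.fp (nat_lit 9) t1959))))))))))
noncomputable def l7808 : Lb := (@Lb.d (nat_lit 8) (nat_lit 546) (nat_lit 0) (@Lb.g g5 (@Lb.r r680 (@Lb.r r427 (@Lb.r r2178 (@Lb.r r2393 (@Lb.d (nat_lit 102) (nat_lit 100) (nat_lit 418) (@Lb.t (@Lb.fm (nat_lit 3) t1561)))))))))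
noncomputable def l7809 : Lb := (@Lb.d (nat_lit 8) (nat_lit 290) (nat_lit 66) (@Lb.g g9 (@Lb.g g10 (@Lb.g g11 (@Lb.r r2343 (@Lb.r r578 (@Lb.r r2648 (@Lb.r r2453 (@Lb.d (nat_lit 389) (nat_lit 154) (nat_lit 274) (@Lb.t (@Lb.fp (nat_lit 9) t1960)))))))))))
noncomputable def l7810 : Lb := (@Lb.r r323 (@Lb.d (nat_lit 4) (nat_lit 512) (nat_lit 2) (@Lb.g g8 (@Lb.g g9 (@Lb.g g10 (@Lb.r r1449 (@Lb.r r1435 (@Lb.r r1354 (@Lb.r r1416 (@Lb.d (nat_lit 546) (nat_lit 10) (nat_lit 138) (@Lb.t (@Lb.fm (nat_lit 9) t61))))))))))))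
noncomputable def l7811 : Lb := (@Lb.d (nat_lit 2) (nat_lit 514) (nat_lit 2) (@Lb.g g8 (@Lb.g g9 (@Lb.g g10 (@Lb.r r1689 (@Lb.r r2579 (@Lb.r r386 (@Lb.d (nat_lit 533) (nat_lit 165) (nat_lit 345) (@Lb.t (@Lb.fm (nat_lit 9) t1961))))))))))
noncomputable def l7812 : Lb := (@Lb.d (nat_lit 0) (nat_lit 516) (nat_lit 74) (@Lb.g g4 (@Lb.g g9 (@Lb.g g10 (@Lb.g g11 (@Lb.r r679 (@Lb.r r578 (@Lb.r r37 (@Lb.d (nat_lit 8) (nat_lit 26) (nat_lit 68) (@Lb.fm (nat_lit 9) t686))))))))))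
noncomputable def l7813 : Lb := (@Lb.r r21 (@Lb.d (nat_lit 17) (nat_lit 512) (nat_lit 74) (@Lb.g g8 (@Lb.g g10 (@Lb.g g11 (@Lb.r r2724 (@Lb.r r1381 (@Lb.r r1683 (@Lb.r r1602 (@Lb.d (nat_lit 0) (nat_lit 37) (nat_lit 408) (@Lb.t (@Lb.fm (nat_lit 9) t644))))))))))))
noncomputable def l7814 : Lb := (@Lb.d (nat_lit 8) (nat_lit 258) (nat_lit 74) (@Lb.g g9 (@Lb.g g10 (@Lb.g g11 (@Lb.r r387 (@Lb.r r1126 (@Lb.r r24 (@Lb.d (nat_lit 81) (nat_lit 9) (nat_lit 552) (@Lb.t (@Lb.fp (nat_lit 9) t1962))))))))))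
noncomputable def l7815 : Lb := (@Lb.r r323 (@Lb.d (nat_lit 673) (nat_lit 2) (nat_lit 2) (@Lb.g g8 (@Lb.g g9 (@Lb.g g10 (@Lb.r r1386 (@Lb.r r387 (@Lb.r r25 (@Lb.d (nat_lit 2) (nat_lit 33) (nat_lit 618) (@Lb.t (@Lb.fm (nat_lit 9) t1953)))))))))))
noncomputable def l7816 : Lb := (@Lb.d (nat_lit 145) (nat_lit 0) (nat_lit 128) (@Lb.g g8 (@Lb.g g10 (@Lb.g g11 (@Lb.r r1675 (@Lb.r r644 (@Lb.r r2198 (@Lb.r r2145 (@Lb.d (nat_lit 9) (nat_lit 97) (nat_lit 384) (@Lb.t (@Lb.fp (nat_lit 9) t472)))))))))))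
noncomputable def l7817 : Lb := (@Lb.d (nat_lit 153) (nat_lit 1) (nat_lit 74) (@Lb.g g8 (@Lb.g g9 (@Lb.g g10 (@Lb.g g11 (@Lb.r r683 (@Lb.r r2724 (@Lb.r r1190 (@Lb.r r145 (@Lb.d (nat_lit 9) (nat_lit 132) (nat_lit 664) (@Lb.fp (nat_lit 9) t472)))))))))))
noncomputable def l7818 : Lb := (@Lb.d (nat_lit 8) (nat_lit 2) (nat_lit 74) (@Lb.g g9 (@Lb.g g10 (@Lb.g g11 (@Lb.r r387 (@Lb.r r1126 (@Lb.r r24 (@Lb.d (nat_lit 81) (nat_lit 2) (nat_lit 553) (@Lb.t (@Lb.fp (nat_lit 9) t994))))))))))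
noncomputable def l7819 : Lb := (@Lb.d (nat_lit 153) (nat_lit 513) (nat_lit 128) (@Lb.g g8 (@Lb.g g9 (@Lb.g g10 (@Lb.g g11 (@Lb.r r1675 (@Lb.r r164 (@Lb.r r1445 (@Lb.r r1126 (@Lb.r r132 (@Lb.d (nat_lit 9) (nat_lit 161) (nat_lit 362) (@Lb.fp (nat_lit 9) t1751))))))))))))
noncomputable def l7820 : Lb := (@Lb.d (nat_lit 9) (nat_lit 256) (nat_lit 130) (@Lb.g g8 (@Lb.g g10 (@Lb.g g11 (@Lb.r r2691 (@Lb.r r1109 (@Lb.r r2658 (@Lb.r r2436 (@Lb.d (nat_lit 610) (nat_lit 165) (nat_lit 660) (@Lb.t (@Lb.fp (nat_lit 9) t311)))))))))))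
noncomputable def l7821 : Lb := (@Lb.r r70 (@Lb.d (nat_lit 10) (nat_lit 512) (nat_lit 0) (@Lb.g g4 (@Lb.r r1559 (@Lb.r r342 (@Lb.r r2457 (@Lb.r r408 (@Lb.d (nat_lit 101) (nat_lit 70) (nat_lit 544) (@Lb.t (@Lb.fm (nat_lit 3) t50))))))))))
noncomputable def l7822 : Lb := (@Lb.r r81 (@Lb.d (nat_lit 2) (nat_lit 512) (nat_lit 128) (@Lb.g g8 (@Lb.g g10 (@Lb.g g11 (@Lb.r r1419 (@Lb.r r1304 (@Lb.r r37 (@Lb.d (nat_lit 2) (nat_lit 37) (nat_lit 384) (@Lb.t (@Lb.fm (nat_lit 9) t1784)))))))))))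
noncomputable def l7823 : Lb := (@Lb.d (nat_lit 0) (nat_lit 0) (nat_lit 66) (@Lb.g g10 (@Lb.g g7 (@Lb.r r386 (@Lb.d (nat_lit 320) (nat_lit 5) (nat_lit 522) (@Lb.fm (nat_lit 3) t1021))))))
noncomputable def l7824 : Lb := (@Lb.d (nat_lit 146) (nat_lit 257) (nat_lit 424) (@Lb.r r2631 (@Lb.g g6 (@Lb.d (nat_lit 0) (nat_lit 4) (nat_lit 1) (@Lb.t (@Lb.fp (nat_lit 3) t1963))))))
noncomputable def l7825 : Lb := (@Lb.r r82 (@Lb.r r279 (@Lb.d (nat_lit 33) (nat_lit 264) (nat_lit 0) (@Lb.g g8 (@Lb.g g9 (@Lb.r r1426 (@Lb.r r2631 (@Lb.r r264 (@Lb.d (nat_lit 130) (nat_lit 66) (nat_lit 128) (@Lb.fp (nat_lit 3) t1964))))))))))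
noncomputable def l7826 : Lb := (@Lb.d (nat_lit 289) (nat_lit 256) (nat_lit 34) (@Lb.r r1416 (@Lb.r r2329 (@Lb.r r2375 (@Lb.g g7 (@Lb.g g6 (@Lb.g g5 (@Lb.d (nat_lit 0) (nat_lit 0) (nat_lit 98) (@Lb.t (@Lb.fm (nat_lit 9) t1167))))))))))
noncomputable def l7827 : Lb := (@Lb.d (nat_lit 20) (nat_lit 1) (nat_lit 18) (@Lb.r r1416 (@Lb.r r2391 (@Lb.r r2705 (@Lb.r r2642 (@Lb.g g9 (@Lb.d (nat_lit 0) (nat_lit 5) (nat_lit 0) (@Lb.t (@Lb.fm (nat_lit 3) t1093)))))))))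
noncomputable def l7828 : Lb := (@Lb.d (nat_lit 289) (nat_lit 256) (nat_lit 34) (@Lb.r r1416 (@Lb.r r2329 (@Lb.r r2375 (@Lb.g g7 (@Lb.g g6 (@Lb.d (nat_lit 0) (nat_lit 0) (nat_lit 98) (@Lb.fp (nat_lit 3) t1167))))))))
noncomputable def l7829 : Lb := (@Lb.d (nat_lit 294) (nat_lit 70) (nat_lit 33) (@Lb.r r1416 (@Lb.r r2329 (@Lb.r r2375 (@Lb.r r2722 (@Lb.g g7 (@Lb.g g6 (@Lb.g g5 (@Lb.d (nat_lit 0) (nat_lit 5) (nat_lit 65) (@Lb.t (@Lb.fp (nat_lit 9) t1965)))))))))))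
noncomputable def l7830 : Lb := (@Lb.r r82 (@Lb.d (nat_lit 34) (nat_lit 0) (nat_lit 128) (@Lb.g g8 (@Lb.g g9 (@Lb.g g11 (@Lb.r r535 (@Lb.r r613 (@Lb.r r150 (@Lb.r r72 (@Lb.d (nat_lit 33) (nat_lit 69) (nat_lit 420) (@Lb.t (@Lb.fm (nat_lit 9) t1966))))))))))))
noncomputable def l7831 : Lb := (@Lb.r r323 (@Lb.d (nat_lit 33) (nat_lit 260) (nat_lit 34) (@Lb.g g8 (@Lb.g g9 (@Lb.g g6 (@Lb.r r1643 (@Lb.r r1561 (@Lb.r r660 (@Lb.d (nat_lit 661) (nat_lit 105) (nat_lit 132) (@Lb.t (@Lb.fm (nat_lit 9) t47)))))))))))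
noncomputable def l7832 : Lb := (@Lb.d (nat_lit 129) (nat_lit 528) (nat_lit 68) (@Lb.g g8 (@Lb.g g9 (@Lb.g g10 (@Lb.g g11 (@Lb.r r683 (@Lb.r r2454 (@Lb.r r1561 (@Lb.r r516 (@Lb.d (nat_lit 649) (nat_lit 5) (nat_lit 162) (@Lb.fp (nat_lit 9) t47)))))))))))
noncomputable def l7833 : Lb := (@Lb.d (nat_lit 0) (nat_lit 256) (nat_lit 64) (@Lb.r r24 (@Lb.r r101 (@Lb.r r402 (@Lb.g g7 (@Lb.d (nat_lit 0) (nat_lit 0) (nat_lit 68) (@Lb.t (@Lb.fp (nat_lit 3) t50))))))))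
noncomputable def l7834 : Lb := (@Lb.d (nat_lit 0) (nat_lit 0) (nat_lit 2) (@Lb.g g10 (@Lb.r r292 (@Lb.r r539 (@Lb.r r357 (@Lb.r r666 (@Lb.r r644 (@Lb.d (nat_lit 288) (nat_lit 2) (nat_lit 34) (@Lb.t (@Lb.fm (nat_lit 3) t127))))))))))
noncomputable def l7835 : Lb := (@Lb.r r21 (@Lb.r r323 (@Lb.d (nat_lit 42) (nat_lit 0) (nat_lit 1) (@Lb.g g8 (@Lb.g g10 (@Lb.r r2465 (@Lb.r r1431 (@Lb.r r138 (@Lb.r r1348 (@Lb.d (nat_lit 32) (nat_lit 129) (nat_lit 106) (@Lb.fm (nat_lit 3) t125)))))))))))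
noncomputable def l7836 : Lb := (@Lb.d (nat_lit 0) (nat_lit 0) (nat_lit 128) (@Lb.g g11 (@Lb.r r1346 (@Lb.r r387 (@Lb.d (nat_lit 0) (nat_lit 162) (nat_lit 18) (@Lb.t (@Lb.fp (nat_lit 3) t373)))))))
noncomputable def l7837 : Lb := (@Lb.r r89 (@Lb.r r166 (@Lb.r r344 (@Lb.r r679 (@Lb.r r657 (@Lb.d (nat_lit 528) (nat_lit 8) (nat_lit 144) (@Lb.fm (nat_lit 1) t516)))))))
noncomputable def l7838 : Lb := (@Lb.r r331 (@Lb.d (nat_lit 676) (nat_lit 522) (nat_lit 1) (@Lb.g g4 (@Lb.g g9 (@Lb.g g10 (@Lb.r r2395 (@Lb.r r2214 (@Lb.r r1553 (@Lb.d (nat_lit 664) (nat_lit 21) (nat_lit 517) (@Lb.t (@Lb.fm (nat_lit 9) t1967)))))))))))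
noncomputable def l7839 : Lb := (@Lb.d (nat_lit 2) (nat_lit 290) (nat_lit 130) (@Lb.g g8 (@Lb.g g9 (@Lb.g g10 (@Lb.g g11 (@Lb.r r1194 (@Lb.r r1444 (@Lb.r r2331 (@Lb.r r2085 (@Lb.d (nat_lit 69) (nat_lit 33) (nat_lit 586) (@Lb.fp (nat_lit 9) t1225)))))))))))
noncomputable def l7840 : Lb := (@Lb.d (nat_lit 0) (nat_lit 512) (nat_lit 73) (@Lb.g g9 (@Lb.g g10 (@Lb.g g11 (@Lb.r r2658 (@Lb.r r579 (@Lb.d (nat_lit 0) (nat_lit 97) (nat_lit 586) (@Lb.t (@Lb.fp (nat_lit 9) t51)))))))))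
noncomputable def l7841 : Lb := (@Lb.d (nat_lit 2) (nat_lit 512) (nat_lit 0) (@Lb.g g8 (@Lb.r r89 (@Lb.r r166 (@Lb.r r344 (@Lb.r r679 (@Lb.r r657 (@Lb.d (nat_lit 528) (nat_lit 8) (nat_lit 144) (@Lb.t (@Lb.fm (nat_lit 3) t516))))))))))
noncomputable def l7842 : Lb := (@Lb.r r82 (@Lb.d (nat_lit 1) (nat_lit 256) (nat_lit 128) (@Lb.g g8 (@Lb.g g9 (@Lb.g g11 (@Lb.r r1383 (@Lb.r r650 (@Lb.r r1105 (@Lb.r r2628 (@Lb.d (nat_lit 169) (nat_lit 133) (nat_lit 410) (@Lb.t (@Lb.fp (nat_lit 9) t1968))))))))))))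
noncomputable def l7843 : Lb := (@Lb.d (nat_lit 18) (nat_lit 529) (nat_lit 134) (@Lb.r r386 (@Lb.r r531 (@Lb.r r341 (@Lb.g g7 (@Lb.g g6 (@Lb.g g5 (@Lb.g g4 (@Lb.d (nat_lit 1) (nat_lit 17) (nat_lit 129) (@Lb.fp (nat_lit 9) t259))))))))))
noncomputable def l7844 : Lb := (@Lb.r r323 (@Lb.d (nat_lit 0) (nat_lit 522) (nat_lit 9) (@Lb.g g9 (@Lb.g g10 (@Lb.r r595 (@Lb.r r338 (@Lb.d (nat_lit 0) (nat_lit 4) (nat_lit 134) (@Lb.fp (nat_lit 3) t1969))))))))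
noncomputable def l7845 : Lb := (@Lb.d (nat_lit 0) (nat_lit 258) (nat_lit 0) (@Lb.g g9 (@Lb.r r2339 (@Lb.r r2146 (@Lb.r r97 (@Lb.d (nat_lit 5) (nat_lit 150) (nat_lit 553) (@Lb.t (@Lb.fm (nat_lit 3) t1970))))))))
noncomputable def l7846 : Lb := (@Lb.d (nat_lit 1) (nat_lit 2) (nat_lit 4) (@Lb.g g8 (@Lb.g g9 (@Lb.g g10 (@Lb.g g11 (@Lb.r r427 (@Lb.r r420 (@Lb.r r102 (@Lb.r r21 (@Lb.r r36 (@Lb.d (nat_lit 258) (nat_lit 10) (nat_lit 168) (@Lb.fp (nat_lit 9) t61))))))))))))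
noncomputable def l7847 : Lb := (@Lb.d (nat_lit 529) (nat_lit 133) (nat_lit 162) (@Lb.r r1158 (@Lb.r r84 (@Lb.r r2345 (@Lb.g g11 (@Lb.g g4 (@Lb.d (nat_lit 1) (nat_lit 32) (nat_lit 644) (@Lb.r r25 (@Lb.fp (nat_lit 3) t1108)))))))))
noncomputable def l7848 : Lb := (@Lb.d (nat_lit 586) (nat_lit 424) (nat_lit 584) (@Lb.r r1560 (@Lb.r r277 (@Lb.r r619 (@Lb.g g6 (@Lb.g g8 (@Lb.d (nat_lit 69) (nat_lit 0) (nat_lit 36) (@Lb.r r387 (@Lb.fp (nat_lit 3) t1971)))))))))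
noncomputable def l7849 : Lb := (@Lb.d (nat_lit 149) (nat_lit 322) (nat_lit 70) (@Lb.r r421 (@Lb.r r664 (@Lb.r r70 (@Lb.r r599 (@Lb.g g6 (@Lb.g g5 (@Lb.g g4 (@Lb.d (nat_lit 1) (nat_lit 17) (nat_lit 2) (@Lb.t (@Lb.fm (nat_lit 9) t1105)))))))))))
noncomputable def l7850 : Lb := (@Lb.d (nat_lit 2) (nat_lit 2) (nat_lit 128) (@Lb.g g8 (@Lb.g g9 (@Lb.g g10 (@Lb.g g11 (@Lb.r r1639 (@Lb.r r297 (@Lb.r r1348 (@Lb.r r2666 (@Lb.d (nat_lit 660) (nat_lit 154) (nat_lit 137) (@Lb.fp (nat_lit 9) t91)))))))))))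
noncomputable def l7851 : Lb := (@Lb.d (nat_lit 682) (nat_lit 388) (nat_lit 272) (@Lb.r r1604 (@Lb.r r535 (@Lb.r r353 (@Lb.g g7 (@Lb.g g6 (@Lb.g g4 (@Lb.d (nat_lit 4) (nat_lit 16) (nat_lit 165) (@Lb.t (@Lb.fp (nat_lit 9) t572))))))))))
noncomputable def l7852 : Lb := (@Lb.d (nat_lit 2) (nat_lit 289) (nat_lit 130) (@Lb.g g8 (@Lb.g g9 (@Lb.g g10 (@Lb.g g11 (@Lb.r r1706 (@Lb.r r676 (@Lb.r r551 (@Lb.r r533 (@Lb.r r1060 (@Lb.d (nat_lit 393) (nat_lit 1) (nat_lit 650) (@Lb.fp (nat_lit 9) t1972))))))))))))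
noncomputable def l7853 : Lb := (@Lb.d (nat_lit 682) (nat_lit 132) (nat_lit 272) (@Lb.r r1604 (@Lb.r r535 (@Lb.r r353 (@Lb.g g7 (@Lb.g g6 (@Lb.g g4 (@Lb.d (nat_lit 5) (nat_lit 16) (nat_lit 165) (@Lb.t (@Lb.fp (nat_lit 9) t572))))))))))
noncomputable def l7854 : Lb := (@Lb.d (nat_lit 1) (nat_lit 514) (nat_lit 128) (@Lb.g g8 (@Lb.g g9 (@Lb.g g10 (@Lb.g g11 (@Lb.r r1639 (@Lb.r r297 (@Lb.r r1348 (@Lb.r r2666 (@Lb.d (nat_lit 660) (nat_lit 149) (nat_lit 136) (@Lb.fp (nat_lit 9) t91)))))))))))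
noncomputable def l7855 : Lb := (@Lb.d (nat_lit 101) (nat_lit 545) (nat_lit 129) (@Lb.g g8 (@Lb.g g9 (@Lb.g g6 (@Lb.g g11 (@Lb.r r2667 (@Lb.r r2665 (@Lb.r r2568 (@Lb.d (nat_lit 341) (nat_lit 136) (nat_lit 256) (@Lb.fp (nat_lit 9) t1660))))))))))
noncomputable def l7856 : Lb := (@Lb.d (nat_lit 2) (nat_lit 265) (nat_lit 130) (@Lb.g g8 (@Lb.g g9 (@Lb.g g10 (@Lb.g g11 (@Lb.r r548 (@Lb.r r295 (@Lb.r r2186 (@Lb.r r405 (@Lb.r r2084 (@Lb.d (nat_lit 585) (nat_lit 10) (nat_lit 585) (@Lb.fm (nat_lit 9) t1973))))))))))))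
noncomputable def l7857 : Lb := (@Lb.r r21 (@Lb.d (nat_lit 33) (nat_lit 512) (nat_lit 129) (@Lb.g g8 (@Lb.g g6 (@Lb.g g11 (@Lb.r r2651 (@Lb.r r2665 (@Lb.r r2644 (@Lb.d (nat_lit 645) (nat_lit 106) (nat_lit 296) (@Lb.t (@Lb.fp (nat_lit 9) t1974)))))))))))
noncomputable def l7858 : Lb := (@Lb.d (nat_lit 0) (nat_lit 256) (nat_lit 128) (@Lb.g g11 (@Lb.r r154 (@Lb.r r404 (@Lb.r r619 (@Lb.r r609 (@Lb.d (nat_lit 8) (nat_lit 18) (nat_lit 138) (@Lb.t (@Lb.fm (nat_lit 3) t44)))))))))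
noncomputable def l7859 : Lb := (@Lb.r r82 (@Lb.r r275 (@Lb.d (nat_lit 34) (nat_lit 8) (nat_lit 0) (@Lb.g g8 (@Lb.g g9 (@Lb.r r427 (@Lb.r r582 (@Lb.r r408 (@Lb.d (nat_lit 154) (nat_lit 88) (nat_lit 154) (@Lb.fp (nat_lit 3) t408))))))))))
noncomputable def l7860 : Lb := (@Lb.d (nat_lit 1) (nat_lit 10) (nat_lit 130) (@Lb.g g8 (@Lb.g g9 (@Lb.g g10 (@Lb.g g11 (@Lb.r r2722 (@Lb.r r1415 (@Lb.r r1561 (@Lb.r r2628 (@Lb.d (nat_lit 424) (nat_lit 137) (nat_lit 393) (@Lb.fm (nat_lit 9) t876)))))))))))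
noncomputable def l7861 : Lb := (@Lb.r r275 (@Lb.d (nat_lit 2) (nat_lit 522) (nat_lit 1) (@Lb.g g8 (@Lb.g g9 (@Lb.g g10 (@Lb.r r1706 (@Lb.r r1700 (@Lb.r r1575 (@Lb.r r2085 (@Lb.d (nat_lit 520) (nat_lit 144) (nat_lit 10) (@Lb.t (@Lb.fp (nat_lit 9) t858))))))))))))
noncomputable def l7862 : Lb := (@Lb.d (nat_lit 2) (nat_lit 522) (nat_lit 161) (@Lb.g g8 (@Lb.g g9 (@Lb.g g6 (@Lb.g g11 (@Lb.r r2659 (@Lb.r r1633 (@Lb.r r24 (@Lb.d (nat_lit 10) (nat_lit 154) (nat_lit 280) (@Lb.fp (nat_lit 9) t1762))))))))))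
noncomputable def l7863 : Lb := (@Lb.d (nat_lit 2) (nat_lit 289) (nat_lit 73) (@Lb.g g8 (@Lb.g g9 (@Lb.g g10 (@Lb.g g11 (@Lb.r r1543 (@Lb.r r405 (@Lb.r r2458 (@Lb.r r24 (@Lb.d (nat_lit 514) (nat_lit 104) (nat_lit 105) (@Lb.fm (nat_lit 9) t1975)))))))))))
noncomputable def l7864 : Lb := (@Lb.d (nat_lit 10) (nat_lit 325) (nat_lit 518) (@Lb.r r673 (@Lb.r r362 (@Lb.r r84 (@Lb.g g11 (@Lb.g g9 (@Lb.d (nat_lit 4) (nat_lit 1) (nat_lit 0) (@Lb.fp (nat_lit 3) t1976))))))))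
noncomputable def l7865 : Lb := (@Lb.d (nat_lit 322) (nat_lit 33) (nat_lit 64) (@Lb.r r24 (@Lb.r r2145 (@Lb.r r402 (@Lb.r r1543 (@Lb.g g7 (@Lb.g g4 (@Lb.d (nat_lit 1) (nat_lit 0) (nat_lit 128) (@Lb.fm (nat_lit 3) t1246)))))))))
noncomputable def l7866 : Lb := (@Lb.d (nat_lit 0) (nat_lit 256) (nat_lit 2) (@Lb.g g10 (@Lb.g g7 (@Lb.r r386 (@Lb.d (nat_lit 0) (nat_lit 100) (nat_lit 512) (@Lb.fm (nat_lit 3) t1522))))))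
noncomputable def l7867 : Lb := (@Lb.d (nat_lit 154) (nat_lit 576) (nat_lit 640) (@Lb.r r101 (@Lb.r r24 (@Lb.r r402 (@Lb.g g11 (@Lb.g g9 (@Lb.fp (nat_lit 3) t1977)))))))
noncomputable def l7868 : Lb := (@Lb.d (nat_lit 0) (nat_lit 581) (nat_lit 513) (@Lb.r r402 (@Lb.g g6 (@Lb.g g9 (@Lb.fm (nat_lit 3) t1978)))))
noncomputable def l7869 : Lb := (@Lb.d (nat_lit 134) (nat_lit 17) (nat_lit 2) (@Lb.g g8 (@Lb.g g9 (@Lb.g g10 (@Lb.g g11 (@Lb.r r683 (@Lb.r r1642 (@Lb.r r1561 (@Lb.r r516 (@Lb.d (nat_lit 649) (nat_lit 73) (nat_lit 145) (@Lb.fm (nat_lit 9) t47)))))))))))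
noncomputable def l7870 : Lb := (@Lb.d (nat_lit 2) (nat_lit 512) (nat_lit 0) (@Lb.g g8 (@Lb.g g9 (@Lb.r r386 (@Lb.r r2371 (@Lb.r r578 (@Lb.r r36 (@Lb.d (nat_lit 8) (nat_lit 1) (nat_lit 0) (@Lb.fp (nat_lit 3) t2)))))))))
noncomputable def l7871 : Lb := (@Lb.d (nat_lit 0) (nat_lit 5) (nat_lit 128) (@Lb.g g9 (@Lb.g g10 (@Lb.g g11 (@Lb.r r419 (@Lb.r r421 (@Lb.r r98 (@Lb.r r24 (@Lb.d (nat_lit 26) (nat_lit 9) (nat_lit 138) (@Lb.t (@Lb.fm (nat_lit 9) t520)))))))))))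
noncomputable def l7872 : Lb := (@Lb.g g9 (@Lb.r r386 (@Lb.r r2371 (@Lb.r r578 (@Lb.d (nat_lit 10) (nat_lit 514) (nat_lit 0) (@Lb.t (@Lb.fm (nat_lit 3) t2)))))))
noncomputable def l7873 : Lb := (@Lb.d (nat_lit 0) (nat_lit 69) (nat_lit 513) (@Lb.r r2403 (@Lb.r r594 (@Lb.g g9 (@Lb.t (@Lb.fp (nat_lit 3) t1979))))))
noncomputable def l7874 : Lb := (@Lb.d (nat_lit 130) (nat_lit 514) (nat_lit 130) (@Lb.g g8 (@Lb.g g9 (@Lb.g g10 (@Lb.g g11 (@Lb.r r2666 (@Lb.r r2664 (@Lb.r r299 (@Lb.r r2337 (@Lb.d (nat_lit 521) (nat_lit 2) (nat_lit 426) (@Lb.fp (nat_lit 9) t631)))))))))))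
noncomputable def l7875 : Lb := (@Lb.r r275 (@Lb.d (nat_lit 0) (nat_lit 2) (nat_lit 2) (@Lb.g g9 (@Lb.g g10 (@Lb.r r2662 (@Lb.r r2635 (@Lb.r r296 (@Lb.r r409 (@Lb.d (nat_lit 277) (nat_lit 84) (nat_lit 137) (@Lb.fm (nat_lit 3) t244))))))))))
noncomputable def l7876 : Lb := (@Lb.d (nat_lit 2) (nat_lit 512) (nat_lit 0) (@Lb.g g8 (@Lb.g g5 (@Lb.r r2584 (@Lb.d (nat_lit 330) (nat_lit 0) (nat_lit 0) (@Lb.fm (nat_lit 3) t1894))))))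
noncomputable def l7877 : Lb := (@Lb.d (nat_lit 0) (nat_lit 264) (nat_lit 130) (@Lb.g g10 (@Lb.g g11 (@Lb.r r1419 (@Lb.d (nat_lit 402) (nat_lit 2) (nat_lit 425) (@Lb.fm (nat_lit 3) t899))))))
noncomputable def l7878 : Lb := (@Lb.d (nat_lit 32) (nat_lit 0) (nat_lit 1) (@Lb.g g10 (@Lb.r r292 (@Lb.r r405 (@Lb.r r342 (@Lb.r r651 (@Lb.r r644 (@Lb.d (nat_lit 293) (nat_lit 34) (nat_lit 162) (@Lb.t (@Lb.fm (nat_lit 3) t127))))))))))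
noncomputable def l7879 : Lb := (@Lb.d (nat_lit 1) (nat_lit 577) (nat_lit 69) (@Lb.r r2145 (@Lb.r r1110 (@Lb.r r2440 (@Lb.r r1351 (@Lb.g g7 (@Lb.g g6 (@Lb.g g5 (@Lb.d (nat_lit 0) (nat_lit 0) (nat_lit 65) (@Lb.t (@Lb.fp (nat_lit 9) t68)))))))))))
noncomputable def l7880 : Lb := (@Lb.d (nat_lit 164) (nat_lit 325) (nat_lit 278) (@Lb.r r2149 (@Lb.r r386 (@Lb.g g11 (@Lb.g g6 (@Lb.g g5 (@Lb.g g8 (@Lb.d (nat_lit 0) (nat_lit 1) (nat_lit 129) (@Lb.fp (nat_lit 9) t1980)))))))))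
noncomputable def l7881 : Lb := (@Lb.d (nat_lit 88) (nat_lit 681) (nat_lit 548) (@Lb.r r1387 (@Lb.r r1384 (@Lb.r r361 (@Lb.g g7 (@Lb.g g6 (@Lb.d (nat_lit 64) (nat_lit 16) (nat_lit 165) (@Lb.fm (nat_lit 3) t1981))))))))
noncomputable def l7882 : Lb := (@Lb.d (nat_lit 616) (nat_lit 597) (nat_lit 538) (@Lb.r r1384 (@Lb.r r297 (@Lb.r r418 (@Lb.g g11 (@Lb.g g5 (@Lb.g g4 (@Lb.d (nat_lit 17) (nat_lit 18) (nat_lit 264) (@Lb.r r578 (@Lb.t (@Lb.fp (nat_lit 9) t495)))))))))))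
noncomputable def l7883 : Lb := (@Lb.d (nat_lit 8) (nat_lit 290) (nat_lit 0) (@Lb.g g9 (@Lb.r r2459 (@Lb.r r2456 (@Lb.r r2645 (@Lb.r r2114 (@Lb.d (nat_lit 406) (nat_lit 130) (nat_lit 170) (@Lb.t (@Lb.fm (nat_lit 3) t1982)))))))))
noncomputable def l7884 : Lb := (@Lb.d (nat_lit 0) (nat_lit 514) (nat_lit 128) (@Lb.g g8 (@Lb.g g9 (@Lb.g g11 (@Lb.r r422 (@Lb.r r2667 (@Lb.r r97 (@Lb.r r2584 (@Lb.d (nat_lit 585) (nat_lit 34) (nat_lit 20) (@Lb.t (@Lb.fm (nat_lit 9) t1983)))))))))))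
noncomputable def l7885 : Lb := (@Lb.d (nat_lit 0) (nat_lit 34) (nat_lit 0) (@Lb.g g9 (@Lb.r r2451 (@Lb.r r1414 (@Lb.r r1112 (@Lb.r r149 (@Lb.d (nat_lit 38) (nat_lit 72) (nat_lit 33) (@Lb.t (@Lb.fp (nat_lit 3) t1036)))))))))
noncomputable def l7886 : Lb := (@Lb.g g10 (@Lb.r r424 (@Lb.r r2473 (@Lb.r r1450 (@Lb.r r343 (@Lb.r r676 (@Lb.t (@Lb.p (nat_lit 1) (@Lb.fm (nat_lit 3) t322)))))))))
noncomputable def l7887 : Lb := (@Lb.d (nat_lit 10) (nat_lit 2) (nat_lit 170) (@Lb.r r2132 (@Lb.r r106 (@Lb.r r2665 (@Lb.r r619 (@Lb.r r584 (@Lb.g g11 (@Lb.t (@Lb.fm (nat_lit 3) t2)))))))))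
noncomputable def l7888 : Lb := (@Lb.d (nat_lit 2) (nat_lit 514) (nat_lit 74) (@Lb.g g8 (@Lb.g g9 (@Lb.g g10 (@Lb.g g11 (@Lb.r r618 (@Lb.r r579 (@Lb.r r25 (@Lb.d (nat_lit 9) (nat_lit 96) (nat_lit 74) (@Lb.fm (nat_lit 9) t51))))))))))
noncomputable def l7889 : Lb := (@Lb.d (nat_lit 8) (nat_lit 258) (nat_lit 74) (@Lb.g g9 (@Lb.g g10 (@Lb.g g11 (@Lb.r r610 (@Lb.r r579 (@Lb.d (nat_lit 2) (nat_lit 33) (nat_lit 74) (@Lb.t (@Lb.fp (nat_lit 9) t51)))))))))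
noncomputable def l7890 : Lb := (@Lb.r r89 (@Lb.r r166 (@Lb.r r340 (@Lb.r r683 (@Lb.r r657 (@Lb.r r36 (@Lb.d (nat_lit 0) (nat_lit 401) (nat_lit 266) (@Lb.fp (nat_lit 1) t210))))))))
noncomputable def l7891 : Lb := (@Lb.d (nat_lit 5) (nat_lit 166) (nat_lit 64) (@Lb.r r24 (@Lb.r r2657 (@Lb.g g7 (@Lb.g g10 (@Lb.g g5 (@Lb.g g4 (@Lb.d (nat_lit 1) (nat_lit 1) (nat_lit 164) (@Lb.fm (nat_lit 9) t51)))))))))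
noncomputable def l7892 : Lb := (@Lb.d (nat_lit 144) (nat_lit 2) (nat_lit 130) (@Lb.g g8 (@Lb.g g9 (@Lb.g g10 (@Lb.g g11 (@Lb.r r2691 (@Lb.r r536 (@Lb.r r2197 (@Lb.r r2646 (@Lb.r r2212 (@Lb.d (nat_lit 136) (nat_lit 73) (nat_lit 617) (@Lb.fp (nat_lit 9) t1984))))))))))))
noncomputable def l7893 : Lb := (@Lb.d (nat_lit 104) (nat_lit 256) (nat_lit 0) (@Lb.g g8 (@Lb.g g11 (@Lb.r r1703 (@Lb.r r678 (@Lb.r r1701 (@Lb.r r1364 (@Lb.d (nat_lit 342) (nat_lit 86) (nat_lit 422) (@Lb.fp (nat_lit 3) t1952)))))))))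
noncomputable def l7894 : Lb := (@Lb.d (nat_lit 144) (nat_lit 514) (nat_lit 130) (@Lb.g g8 (@Lb.g g9 (@Lb.g g10 (@Lb.g g11 (@Lb.r r2691 (@Lb.r r536 (@Lb.r r2197 (@Lb.r r2646 (@Lb.r r2212 (@Lb.d (nat_lit 136) (nat_lit 66) (nat_lit 618) (@Lb.fp (nat_lit 9) t1985))))))))))))
noncomputable def l7895 : Lb := (@Lb.d (nat_lit 154) (nat_lit 0) (nat_lit 132) (@Lb.g g8 (@Lb.g g10 (@Lb.g g11 (@Lb.r r1575 (@Lb.r r597 (@Lb.r r2146 (@Lb.r r388 (@Lb.d (nat_lit 98) (nat_lit 9) (nat_lit 152) (@Lb.t (@Lb.fp (nat_lit 9) t1952)))))))))))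
noncomputable def l7896 : Lb := (@Lb.d (nat_lit 400) (nat_lit 256) (nat_lit 289) (@Lb.g g7 (@Lb.d (nat_lit 0) (nat_lit 0) (nat_lit 68) (@Lb.t (@Lb.fm (nat_lit 3) t469)))))
noncomputable def l7897 : Lb := (@Lb.d (nat_lit 16) (nat_lit 512) (nat_lit 145) (@Lb.g g6 (@Lb.g g11 (@Lb.r r1611 (@Lb.d (nat_lit 98) (nat_lit 0) (nat_lit 544) (@Lb.fm (nat_lit 3) t282))))))
noncomputable def l7898 : Lb := (@Lb.d (nat_lit 146) (nat_lit 2) (nat_lit 128) (@Lb.g g8 (@Lb.g g9 (@Lb.g g10 (@Lb.g g11 (@Lb.r r657 (@Lb.r r535 (@Lb.r r392 (@Lb.r r2122 (@Lb.d (nat_lit 289) (nat_lit 74) (nat_lit 408) (@Lb.fp (nat_lit 9) t1444)))))))))))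
noncomputable def l7899 : Lb := (@Lb.d (nat_lit 41) (nat_lit 256) (nat_lit 64) (@Lb.g g8 (@Lb.g g11 (@Lb.r r1703 (@Lb.r r614 (@Lb.r r1637 (@Lb.r r1428 (@Lb.d (nat_lit 358) (nat_lit 80) (nat_lit 409) (@Lb.fm (nat_lit 3) t386)))))))))
noncomputable def l7900 : Lb := (@Lb.r r275 (@Lb.d (nat_lit 2) (nat_lit 522) (nat_lit 1) (@Lb.g g8 (@Lb.g g9 (@Lb.g g10 (@Lb.r r427 (@Lb.r r153 (@Lb.r r146 (@Lb.d (nat_lit 33) (nat_lit 5) (nat_lit 0) (@Lb.t (@Lb.fp (nat_lit 9) t5)))))))))))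
noncomputable def l7901 : Lb := (@Lb.d (nat_lit 2) (nat_lit 521) (nat_lit 136) (@Lb.g g8 (@Lb.g g9 (@Lb.g g10 (@Lb.g g11 (@Lb.r r1706 (@Lb.r r680 (@Lb.r r555 (@Lb.r r1553 (@Lb.r r2084 (@Lb.d (nat_lit 4) (nat_lit 96) (nat_lit 586) (@Lb.fm (nat_lit 9) t264))))))))))))
noncomputable def l7902 : Lb := (@Lb.d (nat_lit 2) (nat_lit 33) (nat_lit 130) (@Lb.g g8 (@Lb.g g9 (@Lb.g g10 (@Lb.g g11 (@Lb.r r1706 (@Lb.r r676 (@Lb.r r551 (@Lb.r r533 (@Lb.r r1060 (@Lb.d (nat_lit 386) (nat_lit 2) (nat_lit 650) (@Lb.fp (nat_lit 9) t1972))))))))))))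
noncomputable def l7903 : Lb := (@Lb.d (nat_lit 134) (nat_lit 273) (nat_lit 353) (@Lb.r r277 (@Lb.r r342 (@Lb.r r2731 (@Lb.g g7 (@Lb.g g6 (@Lb.g g5 (@Lb.g g4 (@Lb.d (nat_lit 1) (nat_lit 17) (nat_lit 8) (@Lb.fm (nat_lit 9) t1986))))))))))
noncomputable def l7904 : Lb := (@Lb.d (nat_lit 641) (nat_lit 2) (nat_lit 130) (@Lb.g g8 (@Lb.g g9 (@Lb.g g10 (@Lb.g g11 (@Lb.r r1451 (@Lb.r r106 (@Lb.r r25 (@Lb.d (nat_lit 0) (nat_lit 73) (nat_lit 425) (@Lb.fp (nat_lit 9) t842))))))))))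
noncomputable def l7905 : Lb := (@Lb.r r323 (@Lb.d (nat_lit 32) (nat_lit 512) (nat_lit 2) (@Lb.g g10 (@Lb.r r584 (@Lb.r r299 (@Lb.r r289 (@Lb.d (nat_lit 1) (nat_lit 2) (nat_lit 137) (@Lb.t (@Lb.fp (nat_lit 3) t51)))))))))
noncomputable def l7906 : Lb := (@Lb.r r323 (@Lb.d (nat_lit 2) (nat_lit 258) (nat_lit 1) (@Lb.g g8 (@Lb.g g9 (@Lb.g g6 (@Lb.r r387 (@Lb.r r97 (@Lb.r r24 (@Lb.d (nat_lit 10) (nat_lit 2) (nat_lit 64) (@Lb.t (@Lb.fp (nat_lit 9) t40)))))))))))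
noncomputable def l7907 : Lb := (@Lb.r r323 (@Lb.d (nat_lit 40) (nat_lit 2) (nat_lit 2) (@Lb.g g9 (@Lb.g g10 (@Lb.r r584 (@Lb.r r299 (@Lb.r r289 (@Lb.d (nat_lit 8) (nat_lit 8) (nat_lit 1) (@Lb.fm (nat_lit 3) t51)))))))))
noncomputable def l7908 : Lb := (@Lb.d (nat_lit 4) (nat_lit 258) (nat_lit 130) (@Lb.g g9 (@Lb.g g10 (@Lb.g g11 (@Lb.r r423 (@Lb.r r596 (@Lb.r r666 (@Lb.r r337 (@Lb.d (nat_lit 4) (nat_lit 32) (nat_lit 5) (@Lb.t (@Lb.fp (nat_lit 9) t51)))))))))))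
noncomputable def l7909 : Lb := (@Lb.r r323 (@Lb.d (nat_lit 9) (nat_lit 289) (nat_lit 2) (@Lb.g g8 (@Lb.g g9 (@Lb.g g10 (@Lb.r r599 (@Lb.r r74 (@Lb.r r296 (@Lb.r r409 (@Lb.d (nat_lit 152) (nat_lit 36) (nat_lit 68) (@Lb.t (@Lb.fm (nat_lit 9) t119))))))))))))
noncomputable def l7910 : Lb := (@Lb.r r24 (@Lb.r r1045 (@Lb.r r36 (@Lb.fm (nat_lit 1) t2))))
noncomputable def l7911 : Lb := (@Lb.d (nat_lit 6) (nat_lit 514) (nat_lit 0) (@Lb.g g8 (@Lb.g g9 (@Lb.r r20 (@Lb.r r2089 (@Lb.r r36 (@Lb.d (nat_lit 516) (nat_lit 130) (nat_lit 0) (@Lb.fp (nat_lit 3) t2))))))))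
noncomputable def l7912 : Lb := (@Lb.d (nat_lit 6) (nat_lit 2) (nat_lit 0) (@Lb.g g8 (@Lb.g g9 (@Lb.r r20 (@Lb.r r2089 (@Lb.r r36 (@Lb.d (nat_lit 518) (nat_lit 130) (nat_lit 0) (@Lb.fp (nat_lit 3) t2))))))))
noncomputable def l7913 : Lb := (@Lb.d (nat_lit 8) (nat_lit 2) (nat_lit 130) (@Lb.g g9 (@Lb.g g10 (@Lb.g g11 (@Lb.r r586 (@Lb.r r584 (@Lb.r r299 (@Lb.r r289 (@Lb.d (nat_lit 2) (nat_lit 9) (nat_lit 137) (@Lb.t (@Lb.fm (nat_lit 9) t51)))))))))))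
noncomputable def l7914 : Lb := (@Lb.d (nat_lit 32) (nat_lit 514) (nat_lit 74) (@Lb.g g9 (@Lb.g g10 (@Lb.g g11 (@Lb.r r328 (@Lb.r r2471 (@Lb.r r2449 (@Lb.r r2130 (@Lb.d (nat_lit 10) (nat_lit 133) (nat_lit 280) (@Lb.t (@Lb.fp (nat_lit 9) t2)))))))))))
noncomputable def l7915 : Lb := (@Lb.d (nat_lit 358) (nat_lit 134) (nat_lit 661) (@Lb.r r289 (@Lb.r r1642 (@Lb.r r1352 (@Lb.r r2695 (@Lb.g g7 (@Lb.g g6 (@Lb.d (nat_lit 16) (nat_lit 0) (nat_lit 65) (@Lb.fp (nat_lit 3) t1987)))))))))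
noncomputable def l7916 : Lb := (@Lb.d (nat_lit 2) (nat_lit 256) (nat_lit 1) (@Lb.g g8 (@Lb.g g9 (@Lb.g g10 (@Lb.r r515 (@Lb.r r1169 (@Lb.r r100 (@Lb.r r410 (@Lb.r r132 (@Lb.d (nat_lit 329) (nat_lit 34) (nat_lit 133) (@Lb.t (@Lb.fm (nat_lit 9) t1988))))))))))))
noncomputable def l7917 : Lb := (@Lb.d (nat_lit 5) (nat_lit 592) (nat_lit 513) (@Lb.r r289 (@Lb.r r279 (@Lb.r r584 (@Lb.g g6 (@Lb.d (nat_lit 16) (nat_lit 0) (nat_lit 1) (@Lb.r r387 (@Lb.t (@Lb.fm (nat_lit 3) t125)))))))))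
noncomputable def l7918 : Lb := (@Lb.d (nat_lit 34) (nat_lit 0) (nat_lit 0) (@Lb.g g4 (@Lb.r r426 (@Lb.r r289 (@Lb.r r680 (@Lb.d (nat_lit 169) (nat_lit 128) (nat_lit 74) (@Lb.t (@Lb.fp (nat_lit 3) t1115))))))))
noncomputable def l7919 : Lb := (@Lb.d (nat_lit 101) (nat_lit 326) (nat_lit 650) (@Lb.r r404 (@Lb.r r150 (@Lb.r r361 (@Lb.g g7 (@Lb.g g5 (@Lb.g g4 (@Lb.d (nat_lit 17) (nat_lit 1) (nat_lit 128) (@Lb.t (@Lb.fp (nat_lit 9) t1989))))))))))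
noncomputable def l7920 : Lb := (@Lb.d (nat_lit 32) (nat_lit 256) (nat_lit 2) (@Lb.g g9 (@Lb.g g10 (@Lb.r r515 (@Lb.r r1685 (@Lb.r r100 (@Lb.r r602 (@Lb.d (nat_lit 297) (nat_lit 6) (nat_lit 0) (@Lb.fp (nat_lit 3) t1988)))))))))
noncomputable def l7921 : Lb := (@Lb.d (nat_lit 2) (nat_lit 2) (nat_lit 0) (@Lb.g g8 (@Lb.g g9 (@Lb.g g10 (@Lb.r r515 (@Lb.r r297 (@Lb.r r360 (@Lb.r r582 (@Lb.r r132 (@Lb.d (nat_lit 2) (nat_lit 169) (nat_lit 329) (@Lb.t (@Lb.fp (nat_lit 9) t242))))))))))))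
noncomputable def l7922 : Lb := (@Lb.d (nat_lit 10) (nat_lit 32) (nat_lit 130) (@Lb.g g8 (@Lb.g g10 (@Lb.g g11 (@Lb.r r618 (@Lb.r r149 (@Lb.r r360 (@Lb.r r2567 (@Lb.d (nat_lit 644) (nat_lit 24) (nat_lit 642) (@Lb.t (@Lb.fm (nat_lit 9) t71)))))))))))
noncomputable def l7923 : Lb := (@Lb.d (nat_lit 8) (nat_lit 0) (nat_lit 130) (@Lb.g g9 (@Lb.g g10 (@Lb.g g11 (@Lb.r r423 (@Lb.r r600 (@Lb.r r662 (@Lb.r r2393 (@Lb.d (nat_lit 361) (nat_lit 37) (nat_lit 294) (@Lb.t (@Lb.fm (nat_lit 9) t1121)))))))))))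
noncomputable def l7924 : Lb := (@Lb.d (nat_lit 261) (nat_lit 513) (nat_lit 1) (@Lb.r r24 (@Lb.r r101 (@Lb.r r2403 (@Lb.g g6 (@Lb.g g4 (@Lb.d (nat_lit 0) (nat_lit 4) (nat_lit 1) (@Lb.fm (nat_lit 3) t58))))))))
noncomputable def l7925 : Lb := (@Lb.r r322 (@Lb.d (nat_lit 2) (nat_lit 2) (nat_lit 8) (@Lb.g g8 (@Lb.g g9 (@Lb.g g11 (@Lb.r r1625 (@Lb.r r2150 (@Lb.r r1156 (@Lb.d (nat_lit 342) (nat_lit 33) (nat_lit 88) (@Lb.t (@Lb.fm (nat_lit 9) t1990)))))))))))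
noncomputable def l7926 : Lb := (@Lb.d (nat_lit 134) (nat_lit 0) (nat_lit 4) (@Lb.g g8 (@Lb.g g9 (@Lb.g g10 (@Lb.g g11 (@Lb.r r419 (@Lb.r r164 (@Lb.r r2469 (@Lb.r r2150 (@Lb.r r1156 (@Lb.d (nat_lit 42) (nat_lit 97) (nat_lit 673) (@Lb.fm (nat_lit 9) t168))))))))))))
noncomputable def l7927 : Lb := (@Lb.r r82 (@Lb.r r275 (@Lb.d (nat_lit 34) (nat_lit 10) (nat_lit 0) (@Lb.g g8 (@Lb.g g5 (@Lb.r r667 (@Lb.r r102 (@Lb.r r132 (@Lb.d (nat_lit 32) (nat_lit 0) (nat_lit 18) (@Lb.fm (nat_lit 3) t390))))))))))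
noncomputable def l7928 : Lb := (@Lb.d (nat_lit 148) (nat_lit 266) (nat_lit 130) (@Lb.g g8 (@Lb.g g9 (@Lb.g g10 (@Lb.g g11 (@Lb.r r1706 (@Lb.r r1411 (@Lb.r r2201 (@Lb.r r408 (@Lb.d (nat_lit 385) (nat_lit 85) (nat_lit 260) (@Lb.fp (nat_lit 9) t1077)))))))))))
noncomputable def l7929 : Lb := (@Lb.r r82 (@Lb.d (nat_lit 405) (nat_lit 256) (nat_lit 128) (@Lb.g g4 (@Lb.g g9 (@Lb.g g11 (@Lb.r r678 (@Lb.r r1411 (@Lb.r r2661 (@Lb.d (nat_lit 257) (nat_lit 0) (nat_lit 346) (@Lb.t (@Lb.fp (nat_lit 9) t1991)))))))))))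
noncomputable def l7930 : Lb := (@Lb.d (nat_lit 148) (nat_lit 10) (nat_lit 130) (@Lb.g g8 (@Lb.g g9 (@Lb.g g10 (@Lb.g g11 (@Lb.r r1706 (@Lb.r r1411 (@Lb.r r1553 (@Lb.r r392 (@Lb.d (nat_lit 426) (nat_lit 132) (nat_lit 292) (@Lb.fp (nat_lit 9) t1992)))))))))))
noncomputable def l7931 : Lb := (@Lb.r r82 (@Lb.r r275 (@Lb.d (nat_lit 2) (nat_lit 0) (nat_lit 0) (@Lb.g g8 (@Lb.g g9 (@Lb.r r299 (@Lb.r r106 (@Lb.r r25 (@Lb.d (nat_lit 552) (nat_lit 2) (nat_lit 18) (@Lb.fm (nat_lit 3) t1993))))))))))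
noncomputable def l7932 : Lb := (@Lb.d (nat_lit 101) (nat_lit 354) (nat_lit 516) (@Lb.r r1637 (@Lb.r r1368 (@Lb.r r678 (@Lb.r r683 (@Lb.g g6 (@Lb.g g5 (@Lb.g g4 (@Lb.d (nat_lit 165) (nat_lit 18) (nat_lit 0) (@Lb.t (@Lb.fp (nat_lit 9) t1994)))))))))))
noncomputable def l7933 : Lb := (@Lb.d (nat_lit 153) (nat_lit 400) (nat_lit 664) (@Lb.r r408 (@Lb.g g5 (@Lb.g g8 (@Lb.r r1098 (@Lb.fm (nat_lit 3) t426))))))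
noncomputable def l7934 : Lb := (@Lb.d (nat_lit 1) (nat_lit 258) (nat_lit 66) (@Lb.g g8 (@Lb.g g9 (@Lb.g g10 (@Lb.g g11 (@Lb.r r427 (@Lb.r r386 (@Lb.r r97 (@Lb.r r24 (@Lb.d (nat_lit 617) (nat_lit 2) (nat_lit 84) (@Lb.fm (nat_lit 9) t61)))))))))))
noncomputable def l7935 : Lb := (@Lb.d (nat_lit 1) (nat_lit 258) (nat_lit 130) (@Lb.g g8 (@Lb.g g9 (@Lb.g g10 (@Lb.g g11 (@Lb.r r427 (@Lb.r r106 (@Lb.r r25 (@Lb.d (nat_lit 2) (nat_lit 68) (nat_lit 1) (@Lb.fp (nat_lit 9) t51))))))))))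
noncomputable def l7936 : Lb := (@Lb.d (nat_lit 25) (nat_lit 0) (nat_lit 74) (@Lb.g g8 (@Lb.g g10 (@Lb.g g11 (@Lb.r r1691 (@Lb.r r1602 (@Lb.r r21 (@Lb.r r2084 (@Lb.d (nat_lit 522) (nat_lit 21) (nat_lit 664) (@Lb.t (@Lb.fp (nat_lit 9) t50)))))))))))
noncomputable def l7937 : Lb := (@Lb.d (nat_lit 137) (nat_lit 0) (nat_lit 0) (@Lb.g g8 (@Lb.g g10 (@Lb.r r2470 (@Lb.r r661 (@Lb.r r1431 (@Lb.r r2664 (@Lb.d (nat_lit 96) (nat_lit 26) (nat_lit 258) (@Lb.fm (nat_lit 3) t71)))))))))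
noncomputable def l7938 : Lb := (@Lb.d (nat_lit 617) (nat_lit 97) (nat_lit 548) (@Lb.r r1637 (@Lb.r r344 (@Lb.r r2386 (@Lb.r r427 (@Lb.g g6 (@Lb.g g5 (@Lb.g g4 (@Lb.d (nat_lit 70) (nat_lit 18) (nat_lit 1) (@Lb.t (@Lb.fp (nat_lit 9) t71)))))))))))
noncomputable def l7939 : Lb := (@Lb.d (nat_lit 25) (nat_lit 552) (nat_lit 66) (@Lb.g g8 (@Lb.g g10 (@Lb.g g11 (@Lb.r r2145 (@Lb.r r1174 (@Lb.r r328 (@Lb.r r2567 (@Lb.d (nat_lit 641) (nat_lit 33) (nat_lit 578) (@Lb.t (@Lb.fm (nat_lit 9) t69)))))))))))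
noncomputable def l7940 : Lb := (@Lb.d (nat_lit 137) (nat_lit 0) (nat_lit 0) (@Lb.g g8 (@Lb.r r678 (@Lb.r r661 (@Lb.r r1431 (@Lb.r r2664 (@Lb.d (nat_lit 358) (nat_lit 24) (nat_lit 258) (@Lb.t (@Lb.fp (nat_lit 3) t71)))))))))
noncomputable def l7941 : Lb := (@Lb.d (nat_lit 1) (nat_lit 4) (nat_lit 128) (@Lb.g g8 (@Lb.g g9 (@Lb.g g10 (@Lb.g g11 (@Lb.r r2659 (@Lb.r r1606 (@Lb.r r424 (@Lb.r r297 (@Lb.d (nat_lit 512) (nat_lit 102) (nat_lit 641) (@Lb.fm (nat_lit 9) t842)))))))))))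
noncomputable def l7942 : Lb := (@Lb.d (nat_lit 1) (nat_lit 516) (nat_lit 128) (@Lb.g g8 (@Lb.g g9 (@Lb.g g10 (@Lb.g g11 (@Lb.r r2659 (@Lb.r r1606 (@Lb.r r424 (@Lb.r r297 (@Lb.d (nat_lit 512) (nat_lit 104) (nat_lit 642) (@Lb.fm (nat_lit 9) t842)))))))))))
noncomputable def l7943 : Lb := (@Lb.r r21 (@Lb.d (nat_lit 17) (nat_lit 256) (nat_lit 74) (@Lb.g g4 (@Lb.g g10 (@Lb.g g11 (@Lb.r r1687 (@Lb.r r2401 (@Lb.r r1170 (@Lb.d (nat_lit 532) (nat_lit 72) (nat_lit 169) (@Lb.t (@Lb.fm (nat_lit 9) t68)))))))))))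
noncomputable def l7944 : Lb := (@Lb.d (nat_lit 409) (nat_lit 261) (nat_lit 337) (@Lb.r r1636 (@Lb.r r613 (@Lb.r r1370 (@Lb.g g7 (@Lb.g g4 (@Lb.d (nat_lit 68) (nat_lit 0) (nat_lit 576) (@Lb.fp (nat_lit 3) t386))))))))
noncomputable def l7945 : Lb := (@Lb.d (nat_lit 0) (nat_lit 597) (nat_lit 520) (@Lb.g g10 (@Lb.d (nat_lit 0) (nat_lit 8) (nat_lit 2) (@Lb.t (@Lb.fp (nat_lit 3) t1995)))))
noncomputable def l7946 : Lb := (@Lb.d (nat_lit 0) (nat_lit 0) (nat_lit 10) (@Lb.g g10 (@Lb.d (nat_lit 0) (nat_lit 88) (nat_lit 514) (@Lb.t (@Lb.fp (nat_lit 3) t633)))))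
noncomputable def l7947 : Lb := (@Lb.r r21 (@Lb.r r263 (@Lb.d (nat_lit 0) (nat_lit 512) (nat_lit 2) (@Lb.g g8 (@Lb.g g10 (@Lb.r r395 (@Lb.r r578 (@Lb.r r409 (@Lb.r r388 (@Lb.d (nat_lit 2) (nat_lit 88) (nat_lit 512) (@Lb.fm (nat_lit 3) t1996)))))))))))
noncomputable def l7948 : Lb := (@Lb.r r323 (@Lb.d (nat_lit 0) (nat_lit 260) (nat_lit 42) (@Lb.g g9 (@Lb.g g6 (@Lb.r r387 (@Lb.r r1313 (@Lb.d (nat_lit 5) (nat_lit 162) (nat_lit 16) (@Lb.fm (nat_lit 3) t901))))))))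
noncomputable def l7949 : Lb := (@Lb.r r82 (@Lb.d (nat_lit 128) (nat_lit 545) (nat_lit 64) (@Lb.g g8 (@Lb.g g9 (@Lb.g g11 (@Lb.r r555 (@Lb.r r1686 (@Lb.r r2329 (@Lb.r r516 (@Lb.d (nat_lit 265) (nat_lit 81) (nat_lit 256) (@Lb.t (@Lb.fm (nat_lit 9) t1997))))))))))))
noncomputable def l7950 : Lb := (@Lb.d (nat_lit 618) (nat_lit 105) (nat_lit 102) (@Lb.r r1637 (@Lb.r r2324 (@Lb.r r2386 (@Lb.r r683 (@Lb.g g6 (@Lb.g g5 (@Lb.g g4 (@Lb.d (nat_lit 1) (nat_lit 1) (nat_lit 1) (@Lb.t (@Lb.fp (nat_lit 9) t1998)))))))))))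
noncomputable def l7951 : Lb := (@Lb.d (nat_lit 2) (nat_lit 2) (nat_lit 130) (@Lb.g g8 (@Lb.g g9 (@Lb.g g10 (@Lb.g g11 (@Lb.r r427 (@Lb.r r1442 (@Lb.r r1320 (@Lb.r r1433 (@Lb.d (nat_lit 661) (nat_lit 150) (nat_lit 617) (@Lb.fp (nat_lit 9) t1999)))))))))))
noncomputable def l7952 : Lb := (@Lb.r r82 (@Lb.d (nat_lit 0) (nat_lit 256) (nat_lit 584) (@Lb.g g9 (@Lb.g g7 (@Lb.r r1381 (@Lb.r r146 (@Lb.r r24 (@Lb.d (nat_lit 657) (nat_lit 38) (nat_lit 361) (@Lb.fm (nat_lit 3) t2000)))))))))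
noncomputable def l7953 : Lb := (@Lb.r r82 (@Lb.d (nat_lit 4) (nat_lit 290) (nat_lit 128) (@Lb.g g8 (@Lb.g g9 (@Lb.g g11 (@Lb.r r555 (@Lb.r r1430 (@Lb.r r2585 (@Lb.d (nat_lit 330) (nat_lit 97) (nat_lit 0) (@Lb.t (@Lb.fm (nat_lit 9) t2001)))))))))))
noncomputable def l7954 : Lb := (@Lb.d (nat_lit 2) (nat_lit 516) (nat_lit 128) (@Lb.g g8 (@Lb.g g9 (@Lb.g g10 (@Lb.g g11 (@Lb.r r427 (@Lb.r r297 (@Lb.r r2408 (@Lb.r r1174 (@Lb.d (nat_lit 289) (nat_lit 5) (nat_lit 90) (@Lb.fm (nat_lit 9) t2002)))))))))))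
noncomputable def l7955 : Lb := (@Lb.d (nat_lit 2) (nat_lit 260) (nat_lit 128) (@Lb.g g8 (@Lb.g g9 (@Lb.g g10 (@Lb.g g11 (@Lb.r r427 (@Lb.r r1442 (@Lb.r r1320 (@Lb.r r1433 (@Lb.d (nat_lit 661) (nat_lit 34) (nat_lit 358) (@Lb.fp (nat_lit 9) t2003)))))))))))
noncomputable def l7956 : Lb := (@Lb.d (nat_lit 2) (nat_lit 512) (nat_lit 1) (@Lb.g g8 (@Lb.g g9 (@Lb.g g10 (@Lb.r r515 (@Lb.r r1169 (@Lb.r r100 (@Lb.r r410 (@Lb.r r132 (@Lb.d (nat_lit 324) (nat_lit 33) (nat_lit 133) (@Lb.t (@Lb.fm (nat_lit 9) t1988))))))))))))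
noncomputable def l7957 : Lb := (@Lb.d (nat_lit 608) (nat_lit 618) (nat_lit 102) (@Lb.r r1637 (@Lb.r r2324 (@Lb.r r2386 (@Lb.r r683 (@Lb.g g6 (@Lb.g g5 (@Lb.g g4 (@Lb.d (nat_lit 1) (nat_lit 1) (nat_lit 1) (@Lb.t (@Lb.fp (nat_lit 9) t1998)))))))))))
noncomputable def l7958 : Lb := (@Lb.d (nat_lit 101) (nat_lit 70) (nat_lit 581) (@Lb.r r404 (@Lb.r r150 (@Lb.r r361 (@Lb.g g7 (@Lb.g g5 (@Lb.g g4 (@Lb.d (nat_lit 24) (nat_lit 0) (nat_lit 128) (@Lb.t (@Lb.fp (nat_lit 9) t1989))))))))))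
noncomputable def l7959 : Lb := (@Lb.d (nat_lit 2) (nat_lit 514) (nat_lit 130) (@Lb.g g8 (@Lb.g g9 (@Lb.g g10 (@Lb.g g11 (@Lb.r r1387 (@Lb.r r1442 (@Lb.r r660 (@Lb.r r425 (@Lb.r r2084 (@Lb.d (nat_lit 602) (nat_lit 136) (nat_lit 105) (@Lb.fp (nat_lit 9) t1387))))))))))))
noncomputable def l7960 : Lb := (@Lb.r r82 (@Lb.d (nat_lit 34) (nat_lit 2) (nat_lit 128) (@Lb.g g8 (@Lb.g g9 (@Lb.g g11 (@Lb.r r363 (@Lb.r r582 (@Lb.r r677 (@Lb.r r408 (@Lb.d (nat_lit 552) (nat_lit 26) (nat_lit 680) (@Lb.t (@Lb.fm (nat_lit 9) t905))))))))))))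
noncomputable def l7961 : Lb := (@Lb.d (nat_lit 134) (nat_lit 290) (nat_lit 66) (@Lb.g g8 (@Lb.g g9 (@Lb.g g10 (@Lb.g g11 (@Lb.r r1706 (@Lb.r r1419 (@Lb.r r657 (@Lb.r r1156 (@Lb.d (nat_lit 657) (nat_lit 37) (nat_lit 360) (@Lb.fm (nat_lit 9) t754)))))))))))
noncomputable def l7962 : Lb := (@Lb.d (nat_lit 32) (nat_lit 256) (nat_lit 1) (@Lb.g g9 (@Lb.g g10 (@Lb.r r515 (@Lb.r r1173 (@Lb.r r612 (@Lb.r r90 (@Lb.d (nat_lit 420) (nat_lit 21) (nat_lit 130) (@Lb.fp (nat_lit 3) t1988)))))))))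
noncomputable def l7963 : Lb := (@Lb.d (nat_lit 8) (nat_lit 258) (nat_lit 0) (@Lb.g g9 (@Lb.r r20 (@Lb.r r2073 (@Lb.d (nat_lit 10) (nat_lit 70) (nat_lit 1) (@Lb.t (@Lb.fp (nat_lit 3) t45)))))))
noncomputable def l7964 : Lb := (@Lb.d (nat_lit 1) (nat_lit 0) (nat_lit 128) (@Lb.g g8 (@Lb.g g10 (@Lb.g g11 (@Lb.r r2707 (@Lb.r r2345 (@Lb.r r1188 (@Lb.r r1158 (@Lb.d (nat_lit 289) (nat_lit 10) (nat_lit 33) (@Lb.t (@Lb.fp (nat_lit 9) t296)))))))))))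
noncomputable def l7965 : Lb := (@Lb.d (nat_lit 137) (nat_lit 0) (nat_lit 0) (@Lb.g g8 (@Lb.r r678 (@Lb.r r661 (@Lb.r r1559 (@Lb.r r2344 (@Lb.d (nat_lit 390) (nat_lit 37) (nat_lit 640) (@Lb.t (@Lb.fm (nat_lit 3) t295)))))))))
noncomputable def l7966 : Lb := (@Lb.d (nat_lit 0) (nat_lit 512) (nat_lit 129) (@Lb.r r323 (@Lb.g g10 (@Lb.d (nat_lit 0) (nat_lit 0) (nat_lit 2) (@Lb.r r387 (@Lb.t (@Lb.fp (nat_lit 3) t2)))))))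
noncomputable def l7967 : Lb := (@Lb.d (nat_lit 9) (nat_lit 6) (nat_lit 74) (@Lb.g g8 (@Lb.g g9 (@Lb.g g10 (@Lb.g g11 (@Lb.r r1699 (@Lb.r r596 (@Lb.r r682 (@Lb.r r2217 (@Lb.r r2212 (@Lb.d (nat_lit 584) (nat_lit 97) (nat_lit 586) (@Lb.fm (nat_lit 9) t74))))))))))))
noncomputable def l7968 : Lb := (@Lb.d (nat_lit 8) (nat_lit 1) (nat_lit 0) (@Lb.g g9 (@Lb.r r2068 (@Lb.r r25 (@Lb.d (nat_lit 521) (nat_lit 134) (nat_lit 1) (@Lb.t (@Lb.fp (nat_lit 3) t45)))))))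
noncomputable def l7969 : Lb := (@Lb.d (nat_lit 1) (nat_lit 290) (nat_lit 130) (@Lb.g g4 (@Lb.g g9 (@Lb.g g10 (@Lb.g g11 (@Lb.r r387 (@Lb.r r145 (@Lb.r r1426 (@Lb.d (nat_lit 1) (nat_lit 149) (nat_lit 596) (@Lb.fp (nat_lit 9) t393))))))))))
noncomputable def l7970 : Lb := (@Lb.d (nat_lit 8) (nat_lit 9) (nat_lit 73) (@Lb.g g9 (@Lb.g g10 (@Lb.g g11 (@Lb.r r387 (@Lb.r r2136 (@Lb.r r1414 (@Lb.r r1617 (@Lb.d (nat_lit 594) (nat_lit 102) (nat_lit 68) (@Lb.t (@Lb.fm (nat_lit 9) t1075)))))))))))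
noncomputable def l7971 : Lb := (@Lb.d (nat_lit 8) (nat_lit 290) (nat_lit 130) (@Lb.g g9 (@Lb.g g10 (@Lb.g g11 (@Lb.r r387 (@Lb.r r2136 (@Lb.r r2438 (@Lb.r r593 (@Lb.d (nat_lit 338) (nat_lit 38) (nat_lit 580) (@Lb.t (@Lb.fm (nat_lit 9) t1430)))))))))))
noncomputable def l7972 : Lb := (@Lb.d (nat_lit 0) (nat_lit 34) (nat_lit 130) (@Lb.g g4 (@Lb.g g9 (@Lb.g g10 (@Lb.g g11 (@Lb.r r387 (@Lb.r r145 (@Lb.r r1426 (@Lb.d (nat_lit 0) (nat_lit 149) (nat_lit 596) (@Lb.fp (nat_lit 9) t393))))))))))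
noncomputable def l7973 : Lb := (@Lb.d (nat_lit 418) (nat_lit 512) (nat_lit 152) (@Lb.r r24 (@Lb.r r2458 (@Lb.r r2133 (@Lb.r r323 (@Lb.g g7 (@Lb.g g6 (@Lb.g g5 (@Lb.d (nat_lit 0) (nat_lit 17) (nat_lit 65) (@Lb.t (@Lb.fp (nat_lit 9) t311)))))))))))
noncomputable def l7974 : Lb := (@Lb.r r20 (@Lb.d (nat_lit 8) (nat_lit 646) (nat_lit 74) (@Lb.g g5 (@Lb.g g10 (@Lb.g g11 (@Lb.r r1687 (@Lb.r r1606 (@Lb.r r8 (@Lb.d (nat_lit 100) (nat_lit 148) (nat_lit 664) (@Lb.t (@Lb.fp (nat_lit 9) t50)))))))))))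
noncomputable def l7975 : Lb := (@Lb.d (nat_lit 10) (nat_lit 518) (nat_lit 128) (@Lb.g g8 (@Lb.g g9 (@Lb.g g10 (@Lb.g g11 (@Lb.r r2691 (@Lb.r r132 (@Lb.r r1622 (@Lb.r r145 (@Lb.r r1060 (@Lb.d (nat_lit 641) (nat_lit 152) (nat_lit 100) (@Lb.fm (nat_lit 9) t1038))))))))))))
noncomputable def l7976 : Lb := (@Lb.r r323 (@Lb.d (nat_lit 138) (nat_lit 0) (nat_lit 24) (@Lb.g g4 (@Lb.g g10 (@Lb.r r619 (@Lb.r r537 (@Lb.r r1560 (@Lb.d (nat_lit 389) (nat_lit 82) (nat_lit 390) (@Lb.fp (nat_lit 3) t386)))))))))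
noncomputable def l7977 : Lb := (@Lb.r r323 (@Lb.d (nat_lit 0) (nat_lit 514) (nat_lit 2) (@Lb.g g8 (@Lb.g g9 (@Lb.g g10 (@Lb.r r401 (@Lb.r r299 (@Lb.r r392 (@Lb.r r74 (@Lb.d (nat_lit 533) (nat_lit 1) (nat_lit 33) (@Lb.t (@Lb.fp (nat_lit 9) t221))))))))))))
noncomputable def l7978 : Lb := (@Lb.d (nat_lit 8) (nat_lit 32) (nat_lit 90) (@Lb.g g8 (@Lb.g g10 (@Lb.g g11 (@Lb.r r353 (@Lb.r r535 (@Lb.r r2436 (@Lb.d (nat_lit 341) (nat_lit 72) (nat_lit 544) (@Lb.t (@Lb.fm (nat_lit 9) t386))))))))))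
noncomputable def l7979 : Lb := (@Lb.d (nat_lit 152) (nat_lit 256) (nat_lit 384) (@Lb.g g8 (@Lb.g g10 (@Lb.g g11 (@Lb.r r1602 (@Lb.r r533 (@Lb.r r2340 (@Lb.d (nat_lit 586) (nat_lit 130) (nat_lit 344) (@Lb.t (@Lb.fm (nat_lit 9) t412))))))))))
noncomputable def l7980 : Lb := (@Lb.d (nat_lit 24) (nat_lit 256) (nat_lit 74) (@Lb.g g8 (@Lb.g g10 (@Lb.g g11 (@Lb.r r1691 (@Lb.r r1602 (@Lb.r r21 (@Lb.r r2084 (@Lb.d (nat_lit 522) (nat_lit 21) (nat_lit 664) (@Lb.t (@Lb.fp (nat_lit 9) t50)))))))))))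
noncomputable def l7981 : Lb := (@Lb.d (nat_lit 152) (nat_lit 512) (nat_lit 384) (@Lb.g g8 (@Lb.g g10 (@Lb.g g11 (@Lb.r r1602 (@Lb.r r533 (@Lb.r r2340 (@Lb.d (nat_lit 586) (nat_lit 137) (nat_lit 346) (@Lb.t (@Lb.fm (nat_lit 9) t2004))))))))))
noncomputable def l7982 : Lb := (@Lb.d (nat_lit 529) (nat_lit 6) (nat_lit 162) (@Lb.r r2120 (@Lb.r r2129 (@Lb.r r418 (@Lb.g g11 (@Lb.g g5 (@Lb.d (nat_lit 128) (nat_lit 18) (nat_lit 520) (@Lb.r r578 (@Lb.r r516 (@Lb.fp (nat_lit 3) t2005))))))))))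
noncomputable def l7983 : Lb := (@Lb.r r275 (@Lb.d (nat_lit 2) (nat_lit 0) (nat_lit 2) (@Lb.g g8 (@Lb.g g9 (@Lb.g g10 (@Lb.r r2666 (@Lb.r r2635 (@Lb.r r293 (@Lb.d (nat_lit 9) (nat_lit 66) (nat_lit 0) (@Lb.t (@Lb.fm (nat_lit 9) t495)))))))))))
noncomputable def l7984 : Lb := (@Lb.r r323 (@Lb.d (nat_lit 6) (nat_lit 10) (nat_lit 2) (@Lb.g g8 (@Lb.g g9 (@Lb.g g10 (@Lb.r r1706 (@Lb.r r1681 (@Lb.r r1555 (@Lb.r r36 (@Lb.d (nat_lit 105) (nat_lit 68) (nat_lit 138) (@Lb.t (@Lb.fm (nat_lit 9) t582))))))))))))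
noncomputable def l7985 : Lb := (@Lb.d (nat_lit 2) (nat_lit 2) (nat_lit 2) (@Lb.g g8 (@Lb.g g9 (@Lb.g g10 (@Lb.g g11 (@Lb.r r427 (@Lb.r r1098 (@Lb.r r145 (@Lb.d (nat_lit 521) (nat_lit 73) (nat_lit 2) (@Lb.fp (nat_lit 9) t2006))))))))))
noncomputable def l7986 : Lb := (@Lb.r r275 (@Lb.d (nat_lit 2) (nat_lit 512) (nat_lit 2) (@Lb.g g8 (@Lb.g g9 (@Lb.g g10 (@Lb.r r427 (@Lb.r r1098 (@Lb.r r2193 (@Lb.d (nat_lit 296) (nat_lit 2) (nat_lit 34) (@Lb.t (@Lb.fm (nat_lit 9) t2007)))))))))))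
noncomputable def l7987 : Lb := (@Lb.d (nat_lit 5) (nat_lit 1) (nat_lit 0) (@Lb.g g4 (@Lb.g g5 (@Lb.d (nat_lit 1) (nat_lit 0) (nat_lit 0) (@Lb.fm (nat_lit 3) t2)))))
noncomputable def l7988 : Lb := (@Lb.r r275 (@Lb.d (nat_lit 2) (nat_lit 256) (nat_lit 2) (@Lb.g g8 (@Lb.g g9 (@Lb.g g10 (@Lb.r r2666 (@Lb.r r1603 (@Lb.r r1313 (@Lb.d (nat_lit 392) (nat_lit 66) (nat_lit 384) (@Lb.t (@Lb.fm (nat_lit 9) t785)))))))))))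
noncomputable def l7989 : Lb := (@Lb.d (nat_lit 2) (nat_lit 33) (nat_lit 130) (@Lb.g g8 (@Lb.g g9 (@Lb.g g10 (@Lb.g g11 (@Lb.r r2666 (@Lb.r r2657 (@Lb.r r1315 (@Lb.d (nat_lit 521) (nat_lit 166) (nat_lit 518) (@Lb.fm (nat_lit 9) t495))))))))))
noncomputable def l7990 : Lb := (@Lb.r r275 (@Lb.d (nat_lit 130) (nat_lit 512) (nat_lit 2) (@Lb.g g8 (@Lb.g g9 (@Lb.g g10 (@Lb.r r610 (@Lb.r r583 (@Lb.r r2345 (@Lb.r r264 (@Lb.d (nat_lit 129) (nat_lit 130) (nat_lit 144) (@Lb.t (@Lb.fp (nat_lit 9) t1665))))))))))))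
noncomputable def l7991 : Lb := (@Lb.d (nat_lit 10) (nat_lit 512) (nat_lit 128) (@Lb.g g8 (@Lb.g g11 (@Lb.r r2450 (@Lb.r r2659 (@Lb.r r149 (@Lb.r r1636 (@Lb.d (nat_lit 424) (nat_lit 154) (nat_lit 272) (@Lb.fm (nat_lit 3) t2008)))))))))
noncomputable def l7992 : Lb := (@Lb.d (nat_lit 8) (nat_lit 2) (nat_lit 4) (@Lb.g g9 (@Lb.g g10 (@Lb.g g11 (@Lb.r r419 (@Lb.r r2470 (@Lb.r r1624 (@Lb.r r2341 (@Lb.d (nat_lit 585) (nat_lit 73) (nat_lit 514) (@Lb.t (@Lb.fp (nat_lit 9) t1954)))))))))))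
noncomputable def l7993 : Lb := (@Lb.d (nat_lit 153) (nat_lit 520) (nat_lit 4) (@Lb.g g8 (@Lb.g g9 (@Lb.g g10 (@Lb.g g11 (@Lb.r r683 (@Lb.r r618 (@Lb.r r548 (@Lb.r r37 (@Lb.d (nat_lit 36) (nat_lit 32) (nat_lit 129) (@Lb.fp (nat_lit 9) t841)))))))))))
noncomputable def l7994 : Lb := (@Lb.r r82 (@Lb.d (nat_lit 2) (nat_lit 258) (nat_lit 64) (@Lb.g g8 (@Lb.g g9 (@Lb.g g7 (@Lb.r r418 (@Lb.r r289 (@Lb.r r24 (@Lb.d (nat_lit 10) (nat_lit 2) (nat_lit 10) (@Lb.t (@Lb.fm (nat_lit 9) t42)))))))))))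
noncomputable def l7995 : Lb := (@Lb.g g5 (@Lb.g g10 (@Lb.r r402 (@Lb.d (nat_lit 0) (nat_lit 128) (nat_lit 256) (@Lb.fm (nat_lit 3) t334)))))
noncomputable def l7996 : Lb := (@Lb.g g5 (@Lb.g g6 (@Lb.r r354 (@Lb.d (nat_lit 0) (nat_lit 389) (nat_lit 257) (@Lb.fm (nat_lit 3) t334)))))
noncomputable def l7997 : Lb := (@Lb.g g5 (@Lb.g g10 (@Lb.r r402 (@Lb.d (nat_lit 0) (nat_lit 394) (nat_lit 258) (@Lb.fm (nat_lit 3) t334)))))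
noncomputable def l7998 : Lb := (@Lb.d (nat_lit 2) (nat_lit 258) (nat_lit 130) (@Lb.g g8 (@Lb.g g9 (@Lb.g g10 (@Lb.g g11 (@Lb.r r427 (@Lb.r r145 (@Lb.r r356 (@Lb.r r154 (@Lb.r r132 (@Lb.d (nat_lit 2) (nat_lit 0) (nat_lit 2) (@Lb.fm (nat_lit 9) t61))))))))))))
noncomputable def l7999 : Lb := (@Lb.d (nat_lit 68) (nat_lit 8) (nat_lit 132) (@Lb.r r421 (@Lb.r r618 (@Lb.r r328 (@Lb.r r647 (@Lb.g g7 (@Lb.g g6 (@Lb.g g5 (@Lb.d (nat_lit 20) (nat_lit 6) (nat_lit 65) (@Lb.t (@Lb.fm (nat_lit 9) t50)))))))))))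
noncomputable def l8000 : Lb := (@Lb.d (nat_lit 0) (nat_lit 10) (nat_lit 129) (@Lb.g g9 (@Lb.g g10 (@Lb.g g11 (@Lb.r r2339 (@Lb.r r578 (@Lb.r r2341 (@Lb.r r24 (@Lb.d (nat_lit 146) (nat_lit 98) (nat_lit 280) (@Lb.t (@Lb.fm (nat_lit 9) t2009)))))))))))
noncomputable def l8001 : Lb := (@Lb.d (nat_lit 0) (nat_lit 258) (nat_lit 128) (@Lb.g g9 (@Lb.g g11 (@Lb.r r2467 (@Lb.r r2469 (@Lb.r r2150 (@Lb.r r24 (@Lb.d (nat_lit 98) (nat_lit 98) (nat_lit 169) (@Lb.fm (nat_lit 3) t2010)))))))))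
noncomputable def l8002 : Lb := (@Lb.d (nat_lit 1) (nat_lit 297) (nat_lit 65) (@Lb.g g8 (@Lb.g g9 (@Lb.g g10 (@Lb.g g11 (@Lb.r r1383 (@Lb.r r618 (@Lb.r r1381 (@Lb.r r1556 (@Lb.d (nat_lit 416) (nat_lit 33) (nat_lit 672) (@Lb.fm (nat_lit 9) t196)))))))))))
noncomputable def l8003 : Lb := (@Lb.d (nat_lit 0) (nat_lit 514) (nat_lit 130) (@Lb.g g9 (@Lb.g g10 (@Lb.g g11 (@Lb.r r427 (@Lb.r r386 (@Lb.r r97 (@Lb.r r24 (@Lb.d (nat_lit 74) (nat_lit 168) (nat_lit 258) (@Lb.t (@Lb.fp (nat_lit 9) t1042)))))))))))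
noncomputable def l8004 : Lb := (@Lb.d (nat_lit 0) (nat_lit 0) (nat_lit 130) (@Lb.g g9 (@Lb.g g10 (@Lb.g g11 (@Lb.r r419 (@Lb.r r386 (@Lb.r r101 (@Lb.r r24 (@Lb.d (nat_lit 98) (nat_lit 164) (nat_lit 256) (@Lb.t (@Lb.fp (nat_lit 9) t1042)))))))))))
noncomputable def l8005 : Lb := (@Lb.d (nat_lit 134) (nat_lit 10) (nat_lit 65) (@Lb.g g8 (@Lb.g g9 (@Lb.g g10 (@Lb.g g11 (@Lb.r r675 (@Lb.r r578 (@Lb.r r420 (@Lb.r r1173 (@Lb.r r36 (@Lb.d (nat_lit 593) (nat_lit 98) (nat_lit 88) (@Lb.fm (nat_lit 9) t2011))))))))))))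
noncomputable def l8006 : Lb := (@Lb.d (nat_lit 25) (nat_lit 257) (nat_lit 74) (@Lb.g g8 (@Lb.g g9 (@Lb.g g10 (@Lb.g g11 (@Lb.r r683 (@Lb.r r1602 (@Lb.r r2089 (@Lb.r r2084 (@Lb.d (nat_lit 521) (nat_lit 21) (nat_lit 664) (@Lb.fp (nat_lit 9) t50)))))))))))
noncomputable def l8007 : Lb := (@Lb.d (nat_lit 32) (nat_lit 2) (nat_lit 74) (@Lb.g g9 (@Lb.g g10 (@Lb.g g11 (@Lb.r r328 (@Lb.r r2471 (@Lb.r r2449 (@Lb.r r2130 (@Lb.d (nat_lit 5) (nat_lit 132) (nat_lit 280) (@Lb.t (@Lb.fp (nat_lit 9) t2)))))))))))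
noncomputable def l8008 : Lb := (@Lb.d (nat_lit 8) (nat_lit 514) (nat_lit 0) (@Lb.g g9 (@Lb.r r322 (@Lb.r r659 (@Lb.r r578 (@Lb.d (nat_lit 2) (nat_lit 144) (nat_lit 320) (@Lb.t (@Lb.fm (nat_lit 3) t51))))))))
noncomputable def l8009 : Lb := (@Lb.r r323 (@Lb.d (nat_lit 8) (nat_lit 514) (nat_lit 2) (@Lb.g g9 (@Lb.g g10 (@Lb.r r354 (@Lb.r r387 (@Lb.d (nat_lit 2) (nat_lit 149) (nat_lit 321) (@Lb.fm (nat_lit 3) t51))))))))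
noncomputable def l8010 : Lb := (@Lb.d (nat_lit 2) (nat_lit 514) (nat_lit 130) (@Lb.g g8 (@Lb.g g9 (@Lb.g g10 (@Lb.g g11 (@Lb.r r427 (@Lb.r r106 (@Lb.r r25 (@Lb.d (nat_lit 9) (nat_lit 70) (nat_lit 136) (@Lb.fp (nat_lit 9) t51))))))))))
noncomputable def l8011 : Lb := (@Lb.r r323 (@Lb.d (nat_lit 8) (nat_lit 2) (nat_lit 2) (@Lb.g g9 (@Lb.g g10 (@Lb.r r354 (@Lb.r r387 (@Lb.d (nat_lit 2) (nat_lit 144) (nat_lit 320) (@Lb.fm (nat_lit 3) t51))))))))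
noncomputable def l8012 : Lb := (@Lb.g g5 (@Lb.d (nat_lit 0) (nat_lit 256) (nat_lit 128) (@Lb.t (@Lb.fm (nat_lit 3) t2))))
noncomputable def l8013 : Lb := (@Lb.d (nat_lit 0) (nat_lit 512) (nat_lit 137) (@Lb.g g10 (@Lb.g g7 (@Lb.r r386 (@Lb.r r101 (@Lb.r r24 (@Lb.d (nat_lit 352) (nat_lit 0) (nat_lit 521) (@Lb.fm (nat_lit 3) t1150))))))))
noncomputable def l8014 : Lb := (@Lb.r r584 (@Lb.r r86 (@Lb.r r289 (@Lb.r r132 (@Lb.d (nat_lit 1) (nat_lit 642) (nat_lit 256) (@Lb.fp (nat_lit 1) t668))))))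
noncomputable def l8015 : Lb := (@Lb.d (nat_lit 0) (nat_lit 0) (nat_lit 137) (@Lb.g g10 (@Lb.g g7 (@Lb.r r386 (@Lb.d (nat_lit 0) (nat_lit 5) (nat_lit 10) (@Lb.fm (nat_lit 3) t45))))))
noncomputable def l8016 : Lb := (@Lb.r r323 (@Lb.d (nat_lit 0) (nat_lit 521) (nat_lit 2) (@Lb.g g9 (@Lb.g g10 (@Lb.r r1443 (@Lb.r r1122 (@Lb.r r97 (@Lb.d (nat_lit 0) (nat_lit 68) (nat_lit 162) (@Lb.fp (nat_lit 3) t1)))))))))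
noncomputable def l8017 : Lb := (@Lb.r r323 (@Lb.g g6 (@Lb.r r1626 (@Lb.r r584 (@Lb.r r299 (@Lb.r r289 (@Lb.d (nat_lit 1) (nat_lit 130) (nat_lit 256) (@Lb.t (@Lb.fm (nat_lit 3) t668)))))))))
noncomputable def l8018 : Lb := (@Lb.d (nat_lit 298) (nat_lit 5) (nat_lit 530) (@Lb.r r150 (@Lb.r r72 (@Lb.r r293 (@Lb.r r2395 (@Lb.g g7 (@Lb.g g6 (@Lb.g g5 (@Lb.d (nat_lit 16) (nat_lit 1) (nat_lit 65) (@Lb.t (@Lb.fm (nat_lit 9) t1278)))))))))))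
noncomputable def l8019 : Lb := (@Lb.d (nat_lit 2) (nat_lit 33) (nat_lit 66) (@Lb.g g8 (@Lb.g g9 (@Lb.g g10 (@Lb.g g11 (@Lb.r r1706 (@Lb.r r1700 (@Lb.r r1575 (@Lb.r r2577 (@Lb.d (nat_lit 74) (nat_lit 97) (nat_lit 74) (@Lb.fp (nat_lit 9) t2012)))))))))))
noncomputable def l8020 : Lb := (@Lb.d (nat_lit 0) (nat_lit 512) (nat_lit 138) (@Lb.g g5 (@Lb.g g10 (@Lb.g g7 (@Lb.r r402 (@Lb.d (nat_lit 0) (nat_lit 17) (nat_lit 10) (@Lb.t (@Lb.fp (nat_lit 9) t44))))))))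
noncomputable def l8021 : Lb := (@Lb.d (nat_lit 2) (nat_lit 2) (nat_lit 0) (@Lb.g g8 (@Lb.g g9 (@Lb.g g10 (@Lb.r r515 (@Lb.r r618 (@Lb.r r25 (@Lb.d (nat_lit 9) (nat_lit 25) (nat_lit 66) (@Lb.t (@Lb.fp (nat_lit 9) t71))))))))))
noncomputable def l8022 : Lb := (@Lb.d (nat_lit 678) (nat_lit 322) (nat_lit 345) (@Lb.r r358 (@Lb.r r148 (@Lb.r r2385 (@Lb.r r675 (@Lb.g g7 (@Lb.g g6 (@Lb.g g5 (@Lb.d (nat_lit 16) (nat_lit 1) (nat_lit 134) (@Lb.t (@Lb.fm (nat_lit 9) t2013)))))))))))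
noncomputable def l8023 : Lb := (@Lb.d (nat_lit 128) (nat_lit 512) (nat_lit 128) (@Lb.g g7 (@Lb.r r2389 (@Lb.r r676 (@Lb.r r679 (@Lb.r r1090 (@Lb.d (nat_lit 357) (nat_lit 101) (nat_lit 618) (@Lb.t (@Lb.fp (nat_lit 3) t2014)))))))))
noncomputable def l8024 : Lb := (@Lb.d (nat_lit 2) (nat_lit 8) (nat_lit 0) (@Lb.g g8 (@Lb.g g9 (@Lb.r r1643 (@Lb.r r406 (@Lb.r r1641 (@Lb.d (nat_lit 613) (nat_lit 144) (nat_lit 426) (@Lb.fp (nat_lit 3) t386))))))))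
noncomputable def l8025 : Lb := (@Lb.g g4 (@Lb.d (nat_lit 5) (nat_lit 513) (nat_lit 0) (@Lb.t (@Lb.fm (nat_lit 3) t2))))
noncomputable def l8026 : Lb := (@Lb.r r21 (@Lb.d (nat_lit 408) (nat_lit 0) (nat_lit 128) (@Lb.g g8 (@Lb.g g10 (@Lb.g g11 (@Lb.r r387 (@Lb.r r74 (@Lb.r r25 (@Lb.d (nat_lit 596) (nat_lit 0) (nat_lit 9) (@Lb.t (@Lb.fm (nat_lit 9) t2015)))))))))))
noncomputable def l8027 : Lb := (@Lb.d (nat_lit 9) (nat_lit 258) (nat_lit 162) (@Lb.g g8 (@Lb.g g9 (@Lb.g g6 (@Lb.g g11 (@Lb.r r548 (@Lb.r r615 (@Lb.r r533 (@Lb.r r1060 (@Lb.d (nat_lit 658) (nat_lit 136) (nat_lit 584) (@Lb.fp (nat_lit 9) t229)))))))))))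
noncomputable def l8028 : Lb := (@Lb.r r21 (@Lb.d (nat_lit 658) (nat_lit 0) (nat_lit 8) (@Lb.g g4 (@Lb.g g10 (@Lb.r r1387 (@Lb.r r2393 (@Lb.r r1190 (@Lb.d (nat_lit 520) (nat_lit 65) (nat_lit 34) (@Lb.fm (nat_lit 3) t584)))))))))
noncomputable def l8029 : Lb := (@Lb.d (nat_lit 0) (nat_lit 32) (nat_lit 320) (@Lb.g g10 (@Lb.g g11 (@Lb.r r2341 (@Lb.r r2136 (@Lb.r r1158 (@Lb.d (nat_lit 0) (nat_lit 5) (nat_lit 160) (@Lb.fp (nat_lit 3) t296))))))))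
noncomputable def l8030 : Lb := (@Lb.d (nat_lit 2) (nat_lit 288) (nat_lit 73) (@Lb.g g8 (@Lb.g g10 (@Lb.g g11 (@Lb.r r602 (@Lb.r r360 (@Lb.r r281 (@Lb.r r2599 (@Lb.d (nat_lit 649) (nat_lit 25) (nat_lit 278) (@Lb.t (@Lb.fm (nat_lit 9) t71)))))))))))
noncomputable def l8031 : Lb := (@Lb.d (nat_lit 0) (nat_lit 288) (nat_lit 320) (@Lb.g g10 (@Lb.g g11 (@Lb.r r2341 (@Lb.r r2136 (@Lb.r r1158 (@Lb.d (nat_lit 2) (nat_lit 5) (nat_lit 160) (@Lb.fp (nat_lit 3) t296))))))))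
noncomputable def l8032 : Lb := (@Lb.d (nat_lit 2) (nat_lit 258) (nat_lit 130) (@Lb.g g8 (@Lb.g g9 (@Lb.g g10 (@Lb.g g11 (@Lb.r r2666 (@Lb.r r579 (@Lb.r r97 (@Lb.r r24 (@Lb.d (nat_lit 361) (nat_lit 2) (nat_lit 681) (@Lb.fm (nat_lit 9) t61)))))))))))
noncomputable def l8033 : Lb := (@Lb.r r323 (@Lb.d (nat_lit 2) (nat_lit 2) (nat_lit 2) (@Lb.g g8 (@Lb.g g9 (@Lb.g g10 (@Lb.r r1623 (@Lb.r r2154 (@Lb.r r97 (@Lb.r r24 (@Lb.d (nat_lit 265) (nat_lit 2) (nat_lit 18) (@Lb.t (@Lb.fp (nat_lit 9) t61))))))))))))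
noncomputable def l8034 : Lb := (@Lb.r r323 (@Lb.d (nat_lit 2) (nat_lit 258) (nat_lit 2) (@Lb.g g8 (@Lb.g g9 (@Lb.g g10 (@Lb.r r1623 (@Lb.r r2154 (@Lb.r r97 (@Lb.r r24 (@Lb.d (nat_lit 265) (nat_lit 2) (nat_lit 153) (@Lb.t (@Lb.fp (nat_lit 9) t61))))))))))))
noncomputable def l8035 : Lb := (@Lb.d (nat_lit 281) (nat_lit 64) (nat_lit 136) (@Lb.r r2116 (@Lb.r r1178 (@Lb.r r1563 (@Lb.g g9 (@Lb.g g4 (@Lb.d (nat_lit 1) (nat_lit 65) (nat_lit 0) (@Lb.r r291 (@Lb.r r98 (@Lb.fp (nat_lit 3) t61))))))))))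
noncomputable def l8036 : Lb := (@Lb.d (nat_lit 32) (nat_lit 516) (nat_lit 129) (@Lb.g g9 (@Lb.g g10 (@Lb.g g11 (@Lb.r r1369 (@Lb.r r2727 (@Lb.r r1368 (@Lb.r r2646 (@Lb.d (nat_lit 661) (nat_lit 134) (nat_lit 298) (@Lb.t (@Lb.fm (nat_lit 9) t50)))))))))))
noncomputable def l8037 : Lb := (@Lb.r r82 (@Lb.d (nat_lit 0) (nat_lit 514) (nat_lit 128) (@Lb.g g9 (@Lb.g g11 (@Lb.r r1387 (@Lb.r r1377 (@Lb.r r146 (@Lb.r r24 (@Lb.d (nat_lit 354) (nat_lit 128) (nat_lit 660) (@Lb.fp (nat_lit 3) t2016))))))))))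
noncomputable def l8038 : Lb := (@Lb.d (nat_lit 16) (nat_lit 4) (nat_lit 129) (@Lb.g g8 (@Lb.g g9 (@Lb.g g10 (@Lb.g g11 (@Lb.r r2729 (@Lb.r r2475 (@Lb.r r2468 (@Lb.r r2694 (@Lb.d (nat_lit 673) (nat_lit 26) (nat_lit 405) (@Lb.fp (nat_lit 9) t50)))))))))))
noncomputable def l8039 : Lb := (@Lb.d (nat_lit 2) (nat_lit 68) (nat_lit 65) (@Lb.g g8 (@Lb.g g9 (@Lb.g g10 (@Lb.g g11 (@Lb.r r594 (@Lb.r r24 (@Lb.d (nat_lit 10) (nat_lit 165) (nat_lit 130) (@Lb.fm (nat_lit 9) t431)))))))))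
noncomputable def l8040 : Lb := (@Lb.r r82 (@Lb.r r275 (@Lb.d (nat_lit 2) (nat_lit 82) (nat_lit 0) (@Lb.g g8 (@Lb.g g9 (@Lb.r r2347 (@Lb.r r2442 (@Lb.r r2436 (@Lb.d (nat_lit 337) (nat_lit 9) (nat_lit 529) (@Lb.fp (nat_lit 3) t344))))))))))
noncomputable def l8041 : Lb := (@Lb.r r323 (@Lb.d (nat_lit 0) (nat_lit 256) (nat_lit 2) (@Lb.g g9 (@Lb.g g10 (@Lb.r r2339 (@Lb.r r2146 (@Lb.r r101 (@Lb.r r24 (@Lb.d (nat_lit 97) (nat_lit 0) (nat_lit 544) (@Lb.fm (nat_lit 3) t221))))))))))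
noncomputable def l8042 : Lb := (@Lb.d (nat_lit 162) (nat_lit 546) (nat_lit 66) (@Lb.r r81 (@Lb.r r682 (@Lb.r r599 (@Lb.g g7 (@Lb.g g6 (@Lb.g g5 (@Lb.g g4 (@Lb.d (nat_lit 1) (nat_lit 8) (nat_lit 9) (@Lb.fp (nat_lit 9) t68))))))))))
noncomputable def l8043 : Lb := (@Lb.d (nat_lit 16) (nat_lit 516) (nat_lit 129) (@Lb.g g8 (@Lb.g g9 (@Lb.g g10 (@Lb.g g11 (@Lb.r r2729 (@Lb.r r2475 (@Lb.r r2468 (@Lb.r r2694 (@Lb.d (nat_lit 674) (nat_lit 26) (nat_lit 405) (@Lb.fp (nat_lit 9) t50)))))))))))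
noncomputable def l8044 : Lb := (@Lb.r r82 (@Lb.d (nat_lit 129) (nat_lit 2) (nat_lit 128) (@Lb.g g8 (@Lb.g g9 (@Lb.g g11 (@Lb.r r1641 (@Lb.r r1379 (@Lb.r r146 (@Lb.r r1156 (@Lb.d (nat_lit 593) (nat_lit 5) (nat_lit 154) (@Lb.t (@Lb.fm (nat_lit 9) t1997))))))))))))
noncomputable def l8045 : Lb := (@Lb.r r323 (@Lb.d (nat_lit 128) (nat_lit 513) (nat_lit 2) (@Lb.g g8 (@Lb.g g9 (@Lb.g g10 (@Lb.r r362 (@Lb.r r361 (@Lb.r r1431 (@Lb.r r2632 (@Lb.d (nat_lit 352) (nat_lit 129) (nat_lit 642) (@Lb.t (@Lb.fm (nat_lit 9) t71))))))))))))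
noncomputable def l8046 : Lb := (@Lb.d (nat_lit 144) (nat_lit 513) (nat_lit 10) (@Lb.g g8 (@Lb.g g9 (@Lb.g g10 (@Lb.g g11 (@Lb.r r618 (@Lb.r r1641 (@Lb.r r619 (@Lb.r r2632 (@Lb.d (nat_lit 105) (nat_lit 65) (nat_lit 642) (@Lb.fm (nat_lit 9) t524)))))))))))
noncomputable def l8047 : Lb := (@Lb.r r323 (@Lb.d (nat_lit 138) (nat_lit 8) (nat_lit 34) (@Lb.g g8 (@Lb.g g10 (@Lb.r r615 (@Lb.r r533 (@Lb.r r2340 (@Lb.d (nat_lit 329) (nat_lit 105) (nat_lit 657) (@Lb.fp (nat_lit 3) t221)))))))))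
noncomputable def l8048 : Lb := (@Lb.r r21 (@Lb.d (nat_lit 2) (nat_lit 256) (nat_lit 73) (@Lb.g g8 (@Lb.g g10 (@Lb.g g11 (@Lb.r r2634 (@Lb.r r579 (@Lb.r r97 (@Lb.r r72 (@Lb.d (nat_lit 129) (nat_lit 10) (nat_lit 325) (@Lb.t (@Lb.fp (nat_lit 9) t61))))))))))))
noncomputable def l8049 : Lb := (@Lb.d (nat_lit 144) (nat_lit 514) (nat_lit 128) (@Lb.g g8 (@Lb.g g9 (@Lb.g g10 (@Lb.g g11 (@Lb.r r683 (@Lb.r r2724 (@Lb.r r1190 (@Lb.r r145 (@Lb.d (nat_lit 9) (nat_lit 137) (nat_lit 665) (@Lb.fp (nat_lit 9) t472)))))))))))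
noncomputable def l8050 : Lb := (@Lb.r r323 (@Lb.d (nat_lit 128) (nat_lit 257) (nat_lit 2) (@Lb.g g8 (@Lb.g g9 (@Lb.g g10 (@Lb.r r362 (@Lb.r r361 (@Lb.r r1431 (@Lb.r r2632 (@Lb.d (nat_lit 361) (nat_lit 65) (nat_lit 642) (@Lb.t (@Lb.fm (nat_lit 9) t71))))))))))))
noncomputable def l8051 : Lb := (@Lb.d (nat_lit 146) (nat_lit 514) (nat_lit 128) (@Lb.g g8 (@Lb.g g9 (@Lb.g g10 (@Lb.g g11 (@Lb.r r683 (@Lb.r r2724 (@Lb.r r1190 (@Lb.r r145 (@Lb.d (nat_lit 9) (nat_lit 130) (nat_lit 666) (@Lb.fp (nat_lit 9) t472)))))))))))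
noncomputable def l8052 : Lb := (@Lb.r r21 (@Lb.d (nat_lit 386) (nat_lit 264) (nat_lit 66) (@Lb.g g8 (@Lb.g g10 (@Lb.g g11 (@Lb.r r387 (@Lb.r r101 (@Lb.r r2450 (@Lb.d (nat_lit 609) (nat_lit 85) (nat_lit 409) (@Lb.t (@Lb.fm (nat_lit 9) t1039)))))))))))
noncomputable def l8053 : Lb := (@Lb.d (nat_lit 32) (nat_lit 9) (nat_lit 0) (@Lb.g g8 (@Lb.g g9 (@Lb.r r2379 (@Lb.r r582 (@Lb.r r2452 (@Lb.r r25 (@Lb.d (nat_lit 522) (nat_lit 153) (nat_lit 665) (@Lb.fm (nat_lit 3) t386)))))))))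
noncomputable def l8054 : Lb := (@Lb.d (nat_lit 146) (nat_lit 258) (nat_lit 74) (@Lb.g g8 (@Lb.g g9 (@Lb.g g10 (@Lb.g g11 (@Lb.r r683 (@Lb.r r2724 (@Lb.r r1190 (@Lb.r r145 (@Lb.d (nat_lit 9) (nat_lit 137) (nat_lit 665) (@Lb.fp (nat_lit 9) t472)))))))))))
noncomputable def l8055 : Lb := (@Lb.d (nat_lit 2) (nat_lit 517) (nat_lit 74) (@Lb.g g8 (@Lb.g g9 (@Lb.g g10 (@Lb.g g11 (@Lb.r r419 (@Lb.r r578 (@Lb.r r424 (@Lb.r r297 (@Lb.r r2084 (@Lb.d (nat_lit 337) (nat_lit 10) (nat_lit 86) (@Lb.fp (nat_lit 9) t523))))))))))))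
noncomputable def l8056 : Lb := (@Lb.d (nat_lit 144) (nat_lit 272) (nat_lit 74) (@Lb.g g8 (@Lb.g g9 (@Lb.g g10 (@Lb.g g11 (@Lb.r r427 (@Lb.r r1602 (@Lb.r r297 (@Lb.r r2340 (@Lb.d (nat_lit 329) (nat_lit 149) (nat_lit 100) (@Lb.fm (nat_lit 9) t2017)))))))))))
noncomputable def l8057 : Lb := (@Lb.d (nat_lit 2) (nat_lit 586) (nat_lit 362) (@Lb.r r1317 (@Lb.r r2395 (@Lb.r r614 (@Lb.g g7 (@Lb.g g8 (@Lb.d (nat_lit 9) (nat_lit 0) (nat_lit 64) (@Lb.fm (nat_lit 3) t2018))))))))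
noncomputable def l8058 : Lb := (@Lb.d (nat_lit 1) (nat_lit 426) (nat_lit 73) (@Lb.r r21 (@Lb.r r682 (@Lb.r r599 (@Lb.g g7 (@Lb.g g6 (@Lb.g g5 (@Lb.g g4 (@Lb.d (nat_lit 2) (nat_lit 1) (nat_lit 10) (@Lb.fp (nat_lit 9) t167))))))))))
noncomputable def l8059 : Lb := (@Lb.r r331 (@Lb.d (nat_lit 136) (nat_lit 4) (nat_lit 40) (@Lb.g g8 (@Lb.g g9 (@Lb.g g10 (@Lb.r r2643 (@Lb.r r549 (@Lb.r r1560 (@Lb.d (nat_lit 522) (nat_lit 105) (nat_lit 165) (@Lb.t (@Lb.fp (nat_lit 9) t1976)))))))))))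
noncomputable def l8060 : Lb := (@Lb.d (nat_lit 9) (nat_lit 2) (nat_lit 130) (@Lb.g g8 (@Lb.g g9 (@Lb.g g10 (@Lb.g g11 (@Lb.r r682 (@Lb.r r676 (@Lb.r r551 (@Lb.r r1557 (@Lb.r r36 (@Lb.d (nat_lit 392) (nat_lit 4) (nat_lit 584) (@Lb.fp (nat_lit 9) t1046))))))))))))
noncomputable def l8061 : Lb := (@Lb.d (nat_lit 32) (nat_lit 516) (nat_lit 89) (@Lb.g g9 (@Lb.g g6 (@Lb.g g11 (@Lb.r r1607 (@Lb.r r297 (@Lb.r r8 (@Lb.d (nat_lit 534) (nat_lit 34) (nat_lit 138) (@Lb.t (@Lb.fm (nat_lit 9) t2019))))))))))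
noncomputable def l8062 : Lb := (@Lb.d (nat_lit 2) (nat_lit 260) (nat_lit 128) (@Lb.g g8 (@Lb.g g9 (@Lb.g g10 (@Lb.g g11 (@Lb.r r2666 (@Lb.r r612 (@Lb.r r615 (@Lb.r r2657 (@Lb.r r2084 (@Lb.d (nat_lit 610) (nat_lit 90) (nat_lit 137) (@Lb.fp (nat_lit 9) t2020))))))))))))
noncomputable def l8063 : Lb := (@Lb.d (nat_lit 0) (nat_lit 512) (nat_lit 74) (@Lb.g g10 (@Lb.g g11 (@Lb.r r595 (@Lb.r r1626 (@Lb.r r2644 (@Lb.r r1321 (@Lb.d (nat_lit 533) (nat_lit 2) (nat_lit 32) (@Lb.fm (nat_lit 3) t507)))))))))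
noncomputable def l8064 : Lb := (@Lb.d (nat_lit 4) (nat_lit 32) (nat_lit 2) (@Lb.g g8 (@Lb.g g9 (@Lb.g g10 (@Lb.r r275 (@Lb.r r1194 (@Lb.r r2593 (@Lb.r r2436 (@Lb.d (nat_lit 106) (nat_lit 144) (nat_lit 90) (@Lb.t (@Lb.fm (nat_lit 9) t994)))))))))))
noncomputable def l8065 : Lb := (@Lb.d (nat_lit 0) (nat_lit 0) (nat_lit 2) (@Lb.g g8 (@Lb.g g10 (@Lb.r r273 (@Lb.r r2595 (@Lb.r r1434 (@Lb.r r529 (@Lb.r r1156 (@Lb.d (nat_lit 554) (nat_lit 65) (nat_lit 34) (@Lb.fm (nat_lit 3) t994))))))))))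
noncomputable def l8066 : Lb := (@Lb.d (nat_lit 0) (nat_lit 38) (nat_lit 10) (@Lb.g g9 (@Lb.g g10 (@Lb.g g11 (@Lb.r r619 (@Lb.r r1610 (@Lb.r r2088 (@Lb.r r2201 (@Lb.d (nat_lit 665) (nat_lit 37) (nat_lit 598) (@Lb.t (@Lb.fm (nat_lit 9) t467)))))))))))
noncomputable def l8067 : Lb := (@Lb.r r326 (@Lb.d (nat_lit 384) (nat_lit 256) (nat_lit 0) (@Lb.g g8 (@Lb.g g11 (@Lb.r r2626 (@Lb.d (nat_lit 0) (nat_lit 0) (nat_lit 384) (@Lb.fm (nat_lit 3) t997)))))))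
noncomputable def l8068 : Lb := (@Lb.d (nat_lit 0) (nat_lit 256) (nat_lit 5) (@Lb.g g10 (@Lb.g g11 (@Lb.r r1347 (@Lb.r r2434 (@Lb.d (nat_lit 0) (nat_lit 0) (nat_lit 616) (@Lb.fp (nat_lit 3) t2)))))))
noncomputable def l8069 : Lb := (@Lb.r r21 (@Lb.r r323 (@Lb.d (nat_lit 130) (nat_lit 4) (nat_lit 34) (@Lb.g g8 (@Lb.g g6 (@Lb.r r407 (@Lb.r r97 (@Lb.r r532 (@Lb.d (nat_lit 134) (nat_lit 34) (nat_lit 129) (@Lb.fm (nat_lit 3) t51))))))))))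
noncomputable def l8070 : Lb := (@Lb.d (nat_lit 1) (nat_lit 5) (nat_lit 34) (@Lb.r r97 (@Lb.r r86 (@Lb.r r424 (@Lb.r r343 (@Lb.g g7 (@Lb.g g6 (@Lb.g g5 (@Lb.d (nat_lit 0) (nat_lit 1) (nat_lit 65) (@Lb.t (@Lb.fp (nat_lit 9) t51)))))))))))
noncomputable def l8071 : Lb := (@Lb.d (nat_lit 33) (nat_lit 0) (nat_lit 69) (@Lb.r r154 (@Lb.r r664 (@Lb.r r667 (@Lb.r r353 (@Lb.g g7 (@Lb.g g6 (@Lb.g g4 (@Lb.d (nat_lit 1) (nat_lit 0) (nat_lit 64) (@Lb.t (@Lb.fp (nat_lit 9) t51)))))))))))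
noncomputable def l8072 : Lb := (@Lb.d (nat_lit 9) (nat_lit 2) (nat_lit 1) (@Lb.g g8 (@Lb.g g9 (@Lb.g g10 (@Lb.g g11 (@Lb.r r273 (@Lb.r r555 (@Lb.r r616 (@Lb.r r86 (@Lb.r r153 (@Lb.d (nat_lit 0) (nat_lit 2) (nat_lit 137) (@Lb.fp (nat_lit 9) t2))))))))))))
noncomputable def l8073 : Lb := (@Lb.r r323 (@Lb.d (nat_lit 9) (nat_lit 546) (nat_lit 2) (@Lb.g g8 (@Lb.g g9 (@Lb.g g10 (@Lb.r r279 (@Lb.r r676 (@Lb.r r166 (@Lb.r r165 (@Lb.d (nat_lit 32) (nat_lit 6) (nat_lit 137) (@Lb.t (@Lb.fm (nat_lit 9) t2))))))))))))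
noncomputable def l8074 : Lb := (@Lb.r r21 (@Lb.d (nat_lit 10) (nat_lit 264) (nat_lit 130) (@Lb.g g8 (@Lb.g g10 (@Lb.g g11 (@Lb.r r683 (@Lb.r r293 (@Lb.r r596 (@Lb.r r106 (@Lb.d (nat_lit 38) (nat_lit 9) (nat_lit 137) (@Lb.t (@Lb.fm (nat_lit 9) t51))))))))))))
noncomputable def l8075 : Lb := (@Lb.d (nat_lit 9) (nat_lit 257) (nat_lit 130) (@Lb.g g8 (@Lb.g g9 (@Lb.g g10 (@Lb.g g11 (@Lb.r r683 (@Lb.r r680 (@Lb.r r170 (@Lb.r r145 (@Lb.r r36 (@Lb.d (nat_lit 2) (nat_lit 9) (nat_lit 137) (@Lb.fm (nat_lit 9) t51))))))))))))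
noncomputable def l8076 : Lb := (@Lb.d (nat_lit 9) (nat_lit 513) (nat_lit 128) (@Lb.g g8 (@Lb.g g9 (@Lb.g g10 (@Lb.g g11 (@Lb.r r2731 (@Lb.r r680 (@Lb.r r170 (@Lb.r r145 (@Lb.r r1060 (@Lb.d (nat_lit 265) (nat_lit 132) (nat_lit 136) (@Lb.fm (nat_lit 9) t51))))))))))))
noncomputable def l8077 : Lb := (@Lb.d (nat_lit 9) (nat_lit 257) (nat_lit 130) (@Lb.g g8 (@Lb.g g9 (@Lb.g g10 (@Lb.g g11 (@Lb.r r683 (@Lb.r r680 (@Lb.r r170 (@Lb.r r145 (@Lb.r r36 (@Lb.d (nat_lit 0) (nat_lit 4) (nat_lit 136) (@Lb.fm (nat_lit 9) t51))))))))))))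
noncomputable def l8078 : Lb := (@Lb.r r323 (@Lb.d (nat_lit 137) (nat_lit 513) (nat_lit 2) (@Lb.g g8 (@Lb.g g9 (@Lb.g g10 (@Lb.r r343 (@Lb.r r162 (@Lb.r r145 (@Lb.r r612 (@Lb.d (nat_lit 149) (nat_lit 16) (nat_lit 136) (@Lb.t (@Lb.fp (nat_lit 9) t51))))))))))))
noncomputable def l8079 : Lb := (@Lb.d (nat_lit 41) (nat_lit 522) (nat_lit 72) (@Lb.g g8 (@Lb.g g9 (@Lb.g g11 (@Lb.r r82 (@Lb.r r2465 (@Lb.r r1431 (@Lb.r r2632 (@Lb.d (nat_lit 585) (nat_lit 65) (nat_lit 393) (@Lb.t (@Lb.fm (nat_lit 9) t2)))))))))))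
noncomputable def l8080 : Lb := (@Lb.d (nat_lit 529) (nat_lit 256) (nat_lit 150) (@Lb.r r24 (@Lb.r r2133 (@Lb.r r322 (@Lb.g g7 (@Lb.g g6 (@Lb.g g5 (@Lb.g g4 (@Lb.d (nat_lit 0) (nat_lit 1) (nat_lit 134) (@Lb.fm (nat_lit 9) t51))))))))))
noncomputable def l8081 : Lb := (@Lb.r r323 (@Lb.d (nat_lit 8) (nat_lit 289) (nat_lit 18) (@Lb.g g9 (@Lb.g g10 (@Lb.r r2651 (@Lb.r r1556 (@Lb.r r2457 (@Lb.d (nat_lit 137) (nat_lit 144) (nat_lit 168) (@Lb.fp (nat_lit 3) t296)))))))))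
noncomputable def l8082 : Lb := (@Lb.r r323 (@Lb.d (nat_lit 138) (nat_lit 0) (nat_lit 18) (@Lb.g g8 (@Lb.g g10 (@Lb.r r661 (@Lb.r r1431 (@Lb.r r680 (@Lb.d (nat_lit 581) (nat_lit 17) (nat_lit 41) (@Lb.fp (nat_lit 3) t100)))))))))
noncomputable def l8083 : Lb := (@Lb.r r21 (@Lb.r r331 (@Lb.d (nat_lit 2) (nat_lit 0) (nat_lit 32) (@Lb.g g8 (@Lb.g g10 (@Lb.r r1668 (@Lb.r r391 (@Lb.r r25 (@Lb.d (nat_lit 576) (nat_lit 0) (nat_lit 656) (@Lb.fm (nat_lit 3) t979))))))))))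
noncomputable def l8084 : Lb := (@Lb.r r21 (@Lb.d (nat_lit 2) (nat_lit 512) (nat_lit 2) (@Lb.g g8 (@Lb.g g10 (@Lb.r r1691 (@Lb.r r1381 (@Lb.r r2202 (@Lb.r r2180 (@Lb.d (nat_lit 602) (nat_lit 65) (nat_lit 609) (@Lb.fp (nat_lit 3) t284))))))))))
noncomputable def l8085 : Lb := (@Lb.r r323 (@Lb.d (nat_lit 8) (nat_lit 290) (nat_lit 18) (@Lb.g g9 (@Lb.g g10 (@Lb.r r603 (@Lb.r r2580 (@Lb.r r1433 (@Lb.d (nat_lit 393) (nat_lit 80) (nat_lit 648) (@Lb.fp (nat_lit 3) t296)))))))))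
noncomputable def l8086 : Lb := (@Lb.r r323 (@Lb.d (nat_lit 8) (nat_lit 34) (nat_lit 18) (@Lb.g g9 (@Lb.g g10 (@Lb.r r603 (@Lb.r r2580 (@Lb.r r1433 (@Lb.d (nat_lit 393) (nat_lit 80) (nat_lit 513) (@Lb.fp (nat_lit 3) t296)))))))))
noncomputable def l8087 : Lb := (@Lb.d (nat_lit 0) (nat_lit 512) (nat_lit 74) (@Lb.g g10 (@Lb.g g11 (@Lb.r r2694 (@Lb.r r328 (@Lb.r r535 (@Lb.r r289 (@Lb.d (nat_lit 581) (nat_lit 2) (nat_lit 512) (@Lb.fm (nat_lit 3) t1449)))))))))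
noncomputable def l8088 : Lb := (@Lb.r r322 (@Lb.d (nat_lit 32) (nat_lit 258) (nat_lit 576) (@Lb.g g8 (@Lb.g g9 (@Lb.g g7 (@Lb.r r361 (@Lb.r r150 (@Lb.r r1364 (@Lb.d (nat_lit 342) (nat_lit 164) (nat_lit 529) (@Lb.t (@Lb.fp (nat_lit 9) t1115)))))))))))
noncomputable def l8089 : Lb := (@Lb.d (nat_lit 0) (nat_lit 512) (nat_lit 130) (@Lb.g g9 (@Lb.g g10 (@Lb.g g11 (@Lb.r r1307 (@Lb.r r2709 (@Lb.r r2646 (@Lb.r r1416 (@Lb.d (nat_lit 521) (nat_lit 6) (nat_lit 0) (@Lb.t (@Lb.fp (nat_lit 9) t528)))))))))))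
noncomputable def l8090 : Lb := (@Lb.d (nat_lit 256) (nat_lit 512) (nat_lit 1) (@Lb.r r24 (@Lb.r r101 (@Lb.r r2403 (@Lb.g g6 (@Lb.g g4 (@Lb.d (nat_lit 1) (nat_lit 4) (nat_lit 1) (@Lb.fm (nat_lit 3) t58))))))))
noncomputable def l8091 : Lb := (@Lb.d (nat_lit 9) (nat_lit 257) (nat_lit 128) (@Lb.g g8 (@Lb.g g9 (@Lb.g g11 (@Lb.r r1707 (@Lb.r r162 (@Lb.r r145 (@Lb.r r1608 (@Lb.d (nat_lit 97) (nat_lit 4) (nat_lit 664) (@Lb.t (@Lb.fp (nat_lit 9) t1082)))))))))))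
noncomputable def l8092 : Lb := (@Lb.d (nat_lit 152) (nat_lit 257) (nat_lit 74) (@Lb.g g8 (@Lb.g g9 (@Lb.g g10 (@Lb.g g11 (@Lb.r r343 (@Lb.r r1382 (@Lb.r r145 (@Lb.r r580 (@Lb.d (nat_lit 666) (nat_lit 132) (nat_lit 136) (@Lb.fp (nat_lit 9) t472)))))))))))
noncomputable def l8093 : Lb := (@Lb.d (nat_lit 34) (nat_lit 258) (nat_lit 129) (@Lb.g g8 (@Lb.g g9 (@Lb.g g10 (@Lb.g g11 (@Lb.r r529 (@Lb.r r292 (@Lb.r r2715 (@Lb.r r1602 (@Lb.r r1156 (@Lb.d (nat_lit 258) (nat_lit 66) (nat_lit 40) (@Lb.fm (nat_lit 9) t2021))))))))))))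
noncomputable def l8094 : Lb := (@Lb.d (nat_lit 0) (nat_lit 520) (nat_lit 2) (@Lb.g g8 (@Lb.g g10 (@Lb.g g7 (@Lb.r r101 (@Lb.r r24 (@Lb.d (nat_lit 0) (nat_lit 0) (nat_lit 2) (@Lb.t (@Lb.fp (nat_lit 9) t145)))))))))
noncomputable def l8095 : Lb := (@Lb.d (nat_lit 0) (nat_lit 34) (nat_lit 66) (@Lb.g g8 (@Lb.g g9 (@Lb.g g10 (@Lb.g g11 (@Lb.r r419 (@Lb.r r536 (@Lb.r r405 (@Lb.r r1110 (@Lb.r r2212 (@Lb.d (nat_lit 337) (nat_lit 0) (nat_lit 390) (@Lb.fm (nat_lit 9) t2022))))))))))))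
noncomputable def l8096 : Lb := (@Lb.d (nat_lit 164) (nat_lit 528) (nat_lit 64) (@Lb.g g8 (@Lb.g g9 (@Lb.g g11 (@Lb.r r661 (@Lb.r r1366 (@Lb.r r683 (@Lb.r r548 (@Lb.d (nat_lit 410) (nat_lit 18) (nat_lit 38) (@Lb.t (@Lb.fp (nat_lit 9) t1298)))))))))))
noncomputable def l8097 : Lb := (@Lb.d (nat_lit 2) (nat_lit 2) (nat_lit 130) (@Lb.g g8 (@Lb.g g9 (@Lb.g g10 (@Lb.g g11 (@Lb.r r427 (@Lb.r r297 (@Lb.r r104 (@Lb.r r70 (@Lb.r r132 (@Lb.d (nat_lit 9) (nat_lit 149) (nat_lit 134) (@Lb.fp (nat_lit 9) t51))))))))))))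
noncomputable def l8098 : Lb := (@Lb.d (nat_lit 0) (nat_lit 264) (nat_lit 2) (@Lb.g g8 (@Lb.g g10 (@Lb.r r1427 (@Lb.r r101 (@Lb.r r24 (@Lb.d (nat_lit 522) (nat_lit 2) (nat_lit 2) (@Lb.fm (nat_lit 3) t145))))))))
noncomputable def l8099 : Lb := (@Lb.d (nat_lit 34) (nat_lit 514) (nat_lit 128) (@Lb.g g8 (@Lb.g g9 (@Lb.g g11 (@Lb.r r406 (@Lb.r r1643 (@Lb.r r97 (@Lb.r r1560 (@Lb.d (nat_lit 341) (nat_lit 102) (nat_lit 534) (@Lb.t (@Lb.fm (nat_lit 9) t564)))))))))))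
noncomputable def l8100 : Lb := (@Lb.r r322 (@Lb.d (nat_lit 0) (nat_lit 34) (nat_lit 516) (@Lb.g g9 (@Lb.g g7 (@Lb.r r422 (@Lb.r r1112 (@Lb.r r2085 (@Lb.d (nat_lit 521) (nat_lit 66) (nat_lit 64) (@Lb.fm (nat_lit 3) t739)))))))))
noncomputable def l8101 : Lb := (@Lb.d (nat_lit 0) (nat_lit 256) (nat_lit 2) (@Lb.g g8 (@Lb.g g9 (@Lb.g g10 (@Lb.r r1411 (@Lb.r r98 (@Lb.r r101 (@Lb.r r24 (@Lb.d (nat_lit 514) (nat_lit 0) (nat_lit 0) (@Lb.t (@Lb.fm (nat_lit 9) t145)))))))))))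
noncomputable def l8102 : Lb := (@Lb.d (nat_lit 400) (nat_lit 258) (nat_lit 405) (@Lb.r r2628 (@Lb.r r2442 (@Lb.r r2579 (@Lb.g g6 (@Lb.g g9 (@Lb.g g4 (@Lb.d (nat_lit 18) (nat_lit 34) (nat_lit 2) (@Lb.r r291 (@Lb.t (@Lb.fm (nat_lit 9) t2023)))))))))))
noncomputable def l8103 : Lb := (@Lb.r r82 (@Lb.r r275 (@Lb.d (nat_lit 33) (nat_lit 522) (nat_lit 0) (@Lb.g g8 (@Lb.g g5 (@Lb.r r667 (@Lb.r r102 (@Lb.r r152 (@Lb.d (nat_lit 16) (nat_lit 4) (nat_lit 17) (@Lb.fp (nat_lit 3) t753))))))))))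
noncomputable def l8104 : Lb := (@Lb.d (nat_lit 2) (nat_lit 260) (nat_lit 128) (@Lb.g g8 (@Lb.g g9 (@Lb.g g10 (@Lb.g g11 (@Lb.r r427 (@Lb.r r424 (@Lb.r r106 (@Lb.r r97 (@Lb.d (nat_lit 2) (nat_lit 10) (nat_lit 17) (@Lb.fp (nat_lit 9) t901)))))))))))
noncomputable def l8105 : Lb := (@Lb.d (nat_lit 2) (nat_lit 260) (nat_lit 128) (@Lb.g g8 (@Lb.g g9 (@Lb.g g10 (@Lb.g g11 (@Lb.r r516 (@Lb.r r263 (@Lb.r r618 (@Lb.r r97 (@Lb.r r516 (@Lb.d (nat_lit 2) (nat_lit 10) (nat_lit 1) (@Lb.fm (nat_lit 9) t607))))))))))))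
noncomputable def l8106 : Lb := (@Lb.d (nat_lit 0) (nat_lit 5) (nat_lit 74) (@Lb.g g9 (@Lb.g g10 (@Lb.g g11 (@Lb.r r2691 (@Lb.r r1446 (@Lb.r r1317 (@Lb.r r24 (@Lb.d (nat_lit 640) (nat_lit 32) (nat_lit 680) (@Lb.t (@Lb.fm (nat_lit 9) t2024)))))))))))
noncomputable def l8107 : Lb := (@Lb.d (nat_lit 1) (nat_lit 512) (nat_lit 130) (@Lb.g g8 (@Lb.g g9 (@Lb.g g10 (@Lb.g g11 (@Lb.r r532 (@Lb.r r295 (@Lb.r r357 (@Lb.r r666 (@Lb.r r644 (@Lb.d (nat_lit 9) (nat_lit 6) (nat_lit 69) (@Lb.fp (nat_lit 9) t45))))))))))))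
noncomputable def l8108 : Lb := (@Lb.r r82 (@Lb.d (nat_lit 34) (nat_lit 272) (nat_lit 132) (@Lb.g g8 (@Lb.g g9 (@Lb.g g7 (@Lb.r r2466 (@Lb.r r2345 (@Lb.r r100 (@Lb.d (nat_lit 554) (nat_lit 10) (nat_lit 537) (@Lb.t (@Lb.fp (nat_lit 9) t722)))))))))))
noncomputable def l8109 : Lb := (@Lb.d (nat_lit 0) (nat_lit 162) (nat_lit 134) (@Lb.r r101 (@Lb.r r24 (@Lb.r r323 (@Lb.r r2626 (@Lb.g g7 (@Lb.d (nat_lit 0) (nat_lit 0) (nat_lit 64) (@Lb.t (@Lb.fm (nat_lit 3) t2025)))))))))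
noncomputable def l8110 : Lb := (@Lb.r r584 (@Lb.r r86 (@Lb.r r289 (@Lb.r r132 (@Lb.d (nat_lit 388) (nat_lit 273) (nat_lit 576) (@Lb.fp (nat_lit 1) t2026))))))
noncomputable def l8111 : Lb := (@Lb.r r386 (@Lb.r r2371 (@Lb.r r578 (@Lb.r r2341 (@Lb.r r24 (@Lb.d (nat_lit 514) (nat_lit 512) (nat_lit 512) (@Lb.fm (nat_lit 1) t2027)))))))
noncomputable def l8112 : Lb := (@Lb.d (nat_lit 129) (nat_lit 281) (nat_lit 2) (@Lb.g g8 (@Lb.g g9 (@Lb.g g10 (@Lb.g g11 (@Lb.r r596 (@Lb.r r1449 (@Lb.r r1367 (@Lb.r r1606 (@Lb.r r2180 (@Lb.d (nat_lit 153) (nat_lit 72) (nat_lit 592) (@Lb.fm (nat_lit 9) t2028))))))))))))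
noncomputable def l8113 : Lb := (@Lb.d (nat_lit 0) (nat_lit 22) (nat_lit 42) (@Lb.r r2642 (@Lb.r r2659 (@Lb.r r537 (@Lb.r r24 (@Lb.g g7 (@Lb.g g6 (@Lb.d (nat_lit 16) (nat_lit 0) (nat_lit 128) (@Lb.fm (nat_lit 3) t2029)))))))))
noncomputable def l8114 : Lb := (@Lb.r r24 (@Lb.d (nat_lit 0) (nat_lit 128) (nat_lit 0) (@Lb.fm (nat_lit 1) t2)))
noncomputable def l8115 : Lb := (@Lb.r r263 (@Lb.d (nat_lit 2) (nat_lit 514) (nat_lit 2) (@Lb.g g8 (@Lb.g g9 (@Lb.g g10 (@Lb.r r676 (@Lb.r r519 (@Lb.r r386 (@Lb.r r97 (@Lb.d (nat_lit 0) (nat_lit 9) (nat_lit 68) (@Lb.t (@Lb.fp (nat_lit 9) t31))))))))))))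
noncomputable def l8116 : Lb := (@Lb.d (nat_lit 2) (nat_lit 4) (nat_lit 128) (@Lb.g g8 (@Lb.g g9 (@Lb.g g10 (@Lb.g g11 (@Lb.r r427 (@Lb.r r324 (@Lb.r r2218 (@Lb.r r1193 (@Lb.r r1188 (@Lb.d (nat_lit 400) (nat_lit 73) (nat_lit 393) (@Lb.fp (nat_lit 9) t1246))))))))))))
noncomputable def l8117 : Lb := (@Lb.d (nat_lit 38) (nat_lit 0) (nat_lit 129) (@Lb.g g8 (@Lb.g g9 (@Lb.g g10 (@Lb.g g11 (@Lb.r r657 (@Lb.r r667 (@Lb.r r644 (@Lb.r r582 (@Lb.d (nat_lit 153) (nat_lit 2) (nat_lit 70) (@Lb.fm (nat_lit 9) t86)))))))))))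
noncomputable def l8118 : Lb := (@Lb.d (nat_lit 32) (nat_lit 0) (nat_lit 73) (@Lb.g g9 (@Lb.g g10 (@Lb.g g11 (@Lb.r r2695 (@Lb.r r1352 (@Lb.r r2390 (@Lb.r r289 (@Lb.d (nat_lit 664) (nat_lit 73) (nat_lit 362) (@Lb.t (@Lb.fp (nat_lit 9) t242)))))))))))
noncomputable def l8119 : Lb := (@Lb.d (nat_lit 8) (nat_lit 0) (nat_lit 2) (@Lb.g g9 (@Lb.g g10 (@Lb.r r600 (@Lb.r r1638 (@Lb.r r2403 (@Lb.r r337 (@Lb.d (nat_lit 134) (nat_lit 148) (nat_lit 326) (@Lb.fp (nat_lit 3) t2030)))))))))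
noncomputable def l8120 : Lb := (@Lb.g g8 (@Lb.d (nat_lit 2) (nat_lit 390) (nat_lit 32) (@Lb.t (@Lb.fp (nat_lit 3) t45))))
noncomputable def l8121 : Lb := (@Lb.g g8 (@Lb.d (nat_lit 0) (nat_lit 134) (nat_lit 32) (@Lb.t (@Lb.fp (nat_lit 3) t45))))
noncomputable def l8122 : Lb := (@Lb.g g9 (@Lb.r r134 (@Lb.r r328 (@Lb.r r535 (@Lb.r r289 (@Lb.d (nat_lit 0) (nat_lit 512) (nat_lit 128) (@Lb.t (@Lb.fp (nat_lit 3) t119))))))))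
noncomputable def l8123 : Lb := (@Lb.d (nat_lit 2) (nat_lit 646) (nat_lit 160) (@Lb.g g8 (@Lb.g g5 (@Lb.g g10 (@Lb.g g11 (@Lb.r r387 (@Lb.r r24 (@Lb.d (nat_lit 5) (nat_lit 2) (nat_lit 137) (@Lb.fp (nat_lit 9) t68)))))))))
noncomputable def l8124 : Lb := (@Lb.d (nat_lit 4) (nat_lit 2) (nat_lit 0) (@Lb.g g8 (@Lb.g g9 (@Lb.g g10 (@Lb.r r515 (@Lb.r r1321 (@Lb.r r360 (@Lb.r r582 (@Lb.r r132 (@Lb.d (nat_lit 2) (nat_lit 162) (nat_lit 618) (@Lb.t (@Lb.fp (nat_lit 9) t242))))))))))))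
noncomputable def l8125 : Lb := (@Lb.r r323 (@Lb.d (nat_lit 4) (nat_lit 34) (nat_lit 2) (@Lb.g g8 (@Lb.g g9 (@Lb.g g10 (@Lb.r r2647 (@Lb.r r74 (@Lb.r r1320 (@Lb.r r1433 (@Lb.d (nat_lit 664) (nat_lit 22) (nat_lit 617) (@Lb.t (@Lb.fm (nat_lit 9) t119))))))))))))
noncomputable def l8126 : Lb := (@Lb.d (nat_lit 4) (nat_lit 258) (nat_lit 0) (@Lb.g g8 (@Lb.g g9 (@Lb.g g10 (@Lb.r r515 (@Lb.r r1321 (@Lb.r r360 (@Lb.r r582 (@Lb.r r132 (@Lb.d (nat_lit 2) (nat_lit 169) (nat_lit 617) (@Lb.t (@Lb.fp (nat_lit 9) t242))))))))))))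
noncomputable def l8127 : Lb := (@Lb.d (nat_lit 4) (nat_lit 514) (nat_lit 2) (@Lb.g g8 (@Lb.g g9 (@Lb.g g10 (@Lb.r r515 (@Lb.r r1321 (@Lb.r r104 (@Lb.r r70 (@Lb.r r132 (@Lb.d (nat_lit 66) (nat_lit 169) (nat_lit 617) (@Lb.t (@Lb.fp (nat_lit 9) t242))))))))))))
noncomputable def l8128 : Lb := (@Lb.d (nat_lit 5) (nat_lit 514) (nat_lit 130) (@Lb.g g8 (@Lb.g g9 (@Lb.g g10 (@Lb.g g11 (@Lb.r r618 (@Lb.r r595 (@Lb.r r105 (@Lb.r r680 (@Lb.d (nat_lit 409) (nat_lit 153) (nat_lit 132) (@Lb.fm (nat_lit 9) t1954)))))))))))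
noncomputable def l8129 : Lb := (@Lb.r r263 (@Lb.d (nat_lit 133) (nat_lit 2) (nat_lit 2) (@Lb.g g8 (@Lb.g g9 (@Lb.g g10 (@Lb.r r1555 (@Lb.r r1610 (@Lb.r r2645 (@Lb.r r1636 (@Lb.d (nat_lit 1) (nat_lit 81) (nat_lit 664) (@Lb.t (@Lb.fp (nat_lit 9) t163))))))))))))
noncomputable def l8130 : Lb := (@Lb.r r21 (@Lb.d (nat_lit 154) (nat_lit 256) (nat_lit 64) (@Lb.g g8 (@Lb.g g10 (@Lb.g g11 (@Lb.r r1563 (@Lb.r r1617 (@Lb.r r678 (@Lb.r r2648 (@Lb.d (nat_lit 618) (nat_lit 166) (nat_lit 408) (@Lb.t (@Lb.fp (nat_lit 9) t830))))))))))))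
noncomputable def l8131 : Lb := (@Lb.d (nat_lit 2) (nat_lit 513) (nat_lit 0) (@Lb.g g8 (@Lb.g g9 (@Lb.g g10 (@Lb.r r515 (@Lb.r r1321 (@Lb.r r360 (@Lb.r r582 (@Lb.r r132 (@Lb.d (nat_lit 2) (nat_lit 169) (nat_lit 617) (@Lb.t (@Lb.fp (nat_lit 9) t242))))))))))))
noncomputable def l8132 : Lb := (@Lb.r r70 (@Lb.r r263 (@Lb.d (nat_lit 10) (nat_lit 0) (nat_lit 0) (@Lb.g g8 (@Lb.r r1317 (@Lb.r r1563 (@Lb.r r1668 (@Lb.r r2182 (@Lb.d (nat_lit 2) (nat_lit 0) (nat_lit 256) (@Lb.t (@Lb.fm (nat_lit 3) t320)))))))))))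
noncomputable def l8133 : Lb := (@Lb.r r323 (@Lb.d (nat_lit 2) (nat_lit 2) (nat_lit 0) (@Lb.g g8 (@Lb.g g9 (@Lb.g g10 (@Lb.r r427 (@Lb.r r106 (@Lb.r r25 (@Lb.d (nat_lit 0) (nat_lit 73) (nat_lit 2) (@Lb.t (@Lb.fm (nat_lit 9) t51)))))))))))
noncomputable def l8134 : Lb := (@Lb.d (nat_lit 0) (nat_lit 514) (nat_lit 0) (@Lb.g g9 (@Lb.r r2084 (@Lb.r r37 (@Lb.d (nat_lit 264) (nat_lit 129) (nat_lit 0) (@Lb.t (@Lb.fm (nat_lit 3) t2)))))))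
noncomputable def l8135 : Lb := (@Lb.d (nat_lit 1) (nat_lit 520) (nat_lit 130) (@Lb.g g8 (@Lb.g g10 (@Lb.g g11 (@Lb.r r2443 (@Lb.r r2345 (@Lb.r r2468 (@Lb.r r2438 (@Lb.d (nat_lit 617) (nat_lit 73) (nat_lit 664) (@Lb.t (@Lb.fm (nat_lit 9) t295)))))))))))
noncomputable def l8136 : Lb := (@Lb.r r263 (@Lb.d (nat_lit 10) (nat_lit 0) (nat_lit 2) (@Lb.g g8 (@Lb.g g10 (@Lb.r r1381 (@Lb.r r1691 (@Lb.r r2634 (@Lb.r r2632 (@Lb.d (nat_lit 578) (nat_lit 0) (nat_lit 256) (@Lb.fp (nat_lit 3) t524))))))))))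
noncomputable def l8137 : Lb := (@Lb.d (nat_lit 9) (nat_lit 289) (nat_lit 130) (@Lb.g g8 (@Lb.g g9 (@Lb.g g10 (@Lb.g g11 (@Lb.r r682 (@Lb.r r676 (@Lb.r r551 (@Lb.r r533 (@Lb.r r36 (@Lb.d (nat_lit 137) (nat_lit 1) (nat_lit 74) (@Lb.fp (nat_lit 9) t74))))))))))))
noncomputable def l8138 : Lb := (@Lb.r r323 (@Lb.d (nat_lit 8) (nat_lit 258) (nat_lit 1) (@Lb.g g8 (@Lb.g g9 (@Lb.g g6 (@Lb.r r387 (@Lb.r r2145 (@Lb.r r24 (@Lb.d (nat_lit 9) (nat_lit 73) (nat_lit 98) (@Lb.t (@Lb.fp (nat_lit 9) t319)))))))))))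
noncomputable def l8139 : Lb := (@Lb.d (nat_lit 5) (nat_lit 644) (nat_lit 336) (@Lb.r r359 (@Lb.r r676 (@Lb.r r150 (@Lb.g g5 (@Lb.g g4 (@Lb.d (nat_lit 16) (nat_lit 65) (nat_lit 0) (@Lb.r r291 (@Lb.r r98 (@Lb.fp (nat_lit 3) t228))))))))))
noncomputable def l8140 : Lb := (@Lb.d (nat_lit 2) (nat_lit 258) (nat_lit 162) (@Lb.g g8 (@Lb.g g9 (@Lb.g g6 (@Lb.g g11 (@Lb.r r2667 (@Lb.r r2657 (@Lb.r r24 (@Lb.d (nat_lit 265) (nat_lit 89) (nat_lit 40) (@Lb.fp (nat_lit 9) t2031))))))))))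
noncomputable def l8141 : Lb := (@Lb.d (nat_lit 4) (nat_lit 512) (nat_lit 162) (@Lb.g g8 (@Lb.g g9 (@Lb.g g6 (@Lb.g g11 (@Lb.r r2667 (@Lb.r r2657 (@Lb.r r24 (@Lb.d (nat_lit 258) (nat_lit 90) (nat_lit 40) (@Lb.fp (nat_lit 9) t2031))))))))))
noncomputable def l8142 : Lb := (@Lb.d (nat_lit 4) (nat_lit 514) (nat_lit 130) (@Lb.g g8 (@Lb.g g9 (@Lb.g g10 (@Lb.g g11 (@Lb.r r1451 (@Lb.r r1321 (@Lb.r r104 (@Lb.r r70 (@Lb.r r132 (@Lb.d (nat_lit 2) (nat_lit 137) (nat_lit 617) (@Lb.fp (nat_lit 9) t119))))))))))))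
noncomputable def l8143 : Lb := (@Lb.d (nat_lit 2) (nat_lit 516) (nat_lit 150) (@Lb.r r82 (@Lb.r r2387 (@Lb.r r677 (@Lb.g g7 (@Lb.g g6 (@Lb.g g8 (@Lb.d (nat_lit 328) (nat_lit 0) (nat_lit 65) (@Lb.r r25 (@Lb.t (@Lb.fp (nat_lit 9) t1572)))))))))))
noncomputable def l8144 : Lb := (@Lb.d (nat_lit 2) (nat_lit 661) (nat_lit 594) (@Lb.r r2182 (@Lb.r r2323 (@Lb.r r661 (@Lb.g g7 (@Lb.g g8 (@Lb.d (nat_lit 354) (nat_lit 16) (nat_lit 128) (@Lb.r r74 (@Lb.r r25 (@Lb.fm (nat_lit 3) t163))))))))))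
noncomputable def l8145 : Lb := (@Lb.d (nat_lit 2) (nat_lit 290) (nat_lit 66) (@Lb.g g8 (@Lb.g g9 (@Lb.g g10 (@Lb.g g11 (@Lb.r r419 (@Lb.r r2154 (@Lb.r r2073 (@Lb.d (nat_lit 102) (nat_lit 136) (nat_lit 297) (@Lb.fp (nat_lit 9) t475))))))))))
noncomputable def l8146 : Lb := (@Lb.d (nat_lit 401) (nat_lit 0) (nat_lit 641) (@Lb.r r1604 (@Lb.r r146 (@Lb.r r345 (@Lb.g g11 (@Lb.g g4 (@Lb.d (nat_lit 6) (nat_lit 0) (nat_lit 384) (@Lb.r r578 (@Lb.fm (nat_lit 3) t1267)))))))))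
noncomputable def l8147 : Lb := (@Lb.d (nat_lit 2) (nat_lit 34) (nat_lit 66) (@Lb.g g8 (@Lb.g g9 (@Lb.g g10 (@Lb.g g11 (@Lb.r r419 (@Lb.r r2154 (@Lb.r r2073 (@Lb.d (nat_lit 104) (nat_lit 137) (nat_lit 297) (@Lb.fp (nat_lit 9) t928))))))))))
noncomputable def l8148 : Lb := (@Lb.r r81 (@Lb.d (nat_lit 128) (nat_lit 256) (nat_lit 105) (@Lb.g g10 (@Lb.g g11 (@Lb.r r344 (@Lb.r r679 (@Lb.r r37 (@Lb.d (nat_lit 5) (nat_lit 104) (nat_lit 25) (@Lb.fp (nat_lit 3) t2032)))))))))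
noncomputable def l8149 : Lb := (@Lb.d (nat_lit 8) (nat_lit 1) (nat_lit 0) (@Lb.g g9 (@Lb.r r2068 (@Lb.r r25 (@Lb.d (nat_lit 522) (nat_lit 2) (nat_lit 0) (@Lb.t (@Lb.fp (nat_lit 3) t2)))))))
noncomputable def l8150 : Lb := (@Lb.r r322 (@Lb.d (nat_lit 10) (nat_lit 512) (nat_lit 576) (@Lb.g g8 (@Lb.g g7 (@Lb.r r661 (@Lb.r r146 (@Lb.r r2436 (@Lb.d (nat_lit 610) (nat_lit 0) (nat_lit 322) (@Lb.fm (nat_lit 3) t311)))))))))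
noncomputable def l8151 : Lb := (@Lb.d (nat_lit 418) (nat_lit 0) (nat_lit 86) (@Lb.r r24 (@Lb.r r2458 (@Lb.r r2133 (@Lb.r r323 (@Lb.g g7 (@Lb.g g6 (@Lb.g g5 (@Lb.d (nat_lit 0) (nat_lit 24) (nat_lit 128) (@Lb.t (@Lb.fp (nat_lit 9) t311)))))))))))
noncomputable def l8152 : Lb := (@Lb.d (nat_lit 389) (nat_lit 137) (nat_lit 352) (@Lb.r r2197 (@Lb.r r100 (@Lb.r r1434 (@Lb.g g7 (@Lb.g g5 (@Lb.d (nat_lit 4) (nat_lit 0) (nat_lit 68) (@Lb.r r578 (@Lb.fp (nat_lit 3) t2033)))))))))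
noncomputable def l8153 : Lb := (@Lb.d (nat_lit 160) (nat_lit 2) (nat_lit 130) (@Lb.g g9 (@Lb.g g10 (@Lb.g g11 (@Lb.r r72 (@Lb.r r166 (@Lb.r r665 (@Lb.r r539 (@Lb.d (nat_lit 9) (nat_lit 66) (nat_lit 298) (@Lb.t (@Lb.fp (nat_lit 9) t210)))))))))))
noncomputable def l8154 : Lb := (@Lb.d (nat_lit 10) (nat_lit 65) (nat_lit 2) (@Lb.g g4 (@Lb.g g9 (@Lb.g g10 (@Lb.g g11 (@Lb.r r419 (@Lb.r r98 (@Lb.d (nat_lit 0) (nat_lit 72) (nat_lit 2) (@Lb.fm (nat_lit 9) t51)))))))))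
noncomputable def l8155 : Lb := (@Lb.d (nat_lit 16) (nat_lit 129) (nat_lit 86) (@Lb.r r20 (@Lb.r r2153 (@Lb.r r104 (@Lb.r r386 (@Lb.g g11 (@Lb.g g6 (@Lb.g g5 (@Lb.g g4 (@Lb.d (nat_lit 1) (nat_lit 1) (nat_lit 6) (@Lb.fp (nat_lit 9) t51)))))))))))
noncomputable def l8156 : Lb := (@Lb.d (nat_lit 536) (nat_lit 644) (nat_lit 102) (@Lb.r r1129 (@Lb.r r2148 (@Lb.r r386 (@Lb.g g11 (@Lb.g g6 (@Lb.g g5 (@Lb.d (nat_lit 4) (nat_lit 1) (nat_lit 6) (@Lb.t (@Lb.fm (nat_lit 9) t51))))))))))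
noncomputable def l8157 : Lb := (@Lb.d (nat_lit 2) (nat_lit 0) (nat_lit 128) (@Lb.g g8 (@Lb.g g11 (@Lb.r r2699 (@Lb.r r1170 (@Lb.r r2145 (@Lb.r r2584 (@Lb.d (nat_lit 585) (nat_lit 161) (nat_lit 384) (@Lb.fm (nat_lit 3) t1082)))))))))
noncomputable def l8158 : Lb := (@Lb.r r82 (@Lb.d (nat_lit 34) (nat_lit 258) (nat_lit 128) (@Lb.g g8 (@Lb.g g9 (@Lb.g g11 (@Lb.r r1571 (@Lb.r r582 (@Lb.r r1177 (@Lb.r r408 (@Lb.d (nat_lit 344) (nat_lit 26) (nat_lit 586) (@Lb.t (@Lb.fm (nat_lit 9) t264))))))))))))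
noncomputable def l8159 : Lb := (@Lb.d (nat_lit 4) (nat_lit 521) (nat_lit 130) (@Lb.g g8 (@Lb.g g9 (@Lb.g g10 (@Lb.g g11 (@Lb.r r2210 (@Lb.r r660 (@Lb.r r425 (@Lb.r r1303 (@Lb.r r2596 (@Lb.d (nat_lit 2) (nat_lit 10) (nat_lit 105) (@Lb.fp (nat_lit 9) t98))))))))))))
noncomputable def l8160 : Lb := (@Lb.d (nat_lit 148) (nat_lit 522) (nat_lit 130) (@Lb.g g8 (@Lb.g g9 (@Lb.g g10 (@Lb.g g11 (@Lb.r r1706 (@Lb.r r1411 (@Lb.r r1553 (@Lb.r r1320 (@Lb.d (nat_lit 641) (nat_lit 161) (nat_lit 554) (@Lb.fp (nat_lit 9) t1062)))))))))))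
noncomputable def l8161 : Lb := (@Lb.d (nat_lit 1) (nat_lit 10) (nat_lit 128) (@Lb.g g4 (@Lb.g g9 (@Lb.g g11 (@Lb.r r2450 (@Lb.r r2659 (@Lb.r r1633 (@Lb.d (nat_lit 1) (nat_lit 146) (nat_lit 512) (@Lb.t (@Lb.fm (nat_lit 9) t843))))))))))
noncomputable def l8162 : Lb := (@Lb.d (nat_lit 0) (nat_lit 10) (nat_lit 128) (@Lb.g g9 (@Lb.g g11 (@Lb.r r2450 (@Lb.r r2659 (@Lb.r r1633 (@Lb.r r8 (@Lb.d (nat_lit 2) (nat_lit 146) (nat_lit 512) (@Lb.fm (nat_lit 3) t843)))))))))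
noncomputable def l8163 : Lb := (@Lb.d (nat_lit 0) (nat_lit 10) (nat_lit 2) (@Lb.g g9 (@Lb.g g10 (@Lb.r r97 (@Lb.r r2130 (@Lb.r r145 (@Lb.d (nat_lit 0) (nat_lit 10) (nat_lit 2) (@Lb.fp (nat_lit 3) t75))))))))
noncomputable def l8164 : Lb := (@Lb.d (nat_lit 136) (nat_lit 522) (nat_lit 161) (@Lb.g g9 (@Lb.g g6 (@Lb.g g11 (@Lb.r r1112 (@Lb.r r2389 (@Lb.r r291 (@Lb.d (nat_lit 98) (nat_lit 160) (nat_lit 613) (@Lb.t (@Lb.fm (nat_lit 9) t2034))))))))))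
noncomputable def l8165 : Lb := (@Lb.d (nat_lit 128) (nat_lit 2) (nat_lit 644) (@Lb.g g9 (@Lb.g g11 (@Lb.r r2178 (@Lb.r r2645 (@Lb.r r1416 (@Lb.d (nat_lit 256) (nat_lit 68) (nat_lit 128) (@Lb.fm (nat_lit 3) t2035))))))))
noncomputable def l8166 : Lb := (@Lb.d (nat_lit 0) (nat_lit 521) (nat_lit 161) (@Lb.g g9 (@Lb.g g6 (@Lb.g g11 (@Lb.r r1419 (@Lb.r r2645 (@Lb.r r1416 (@Lb.d (nat_lit 265) (nat_lit 70) (nat_lit 34) (@Lb.t (@Lb.fm (nat_lit 9) t2036))))))))))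
noncomputable def l8167 : Lb := (@Lb.r r323 (@Lb.d (nat_lit 2) (nat_lit 2) (nat_lit 0) (@Lb.g g8 (@Lb.g g9 (@Lb.g g10 (@Lb.r r427 (@Lb.r r2138 (@Lb.r r25 (@Lb.d (nat_lit 521) (nat_lit 73) (nat_lit 2) (@Lb.t (@Lb.fm (nat_lit 9) t2037)))))))))))
noncomputable def l8168 : Lb := (@Lb.d (nat_lit 646) (nat_lit 86) (nat_lit 82) (@Lb.r r1301 (@Lb.r r1366 (@Lb.r r683 (@Lb.g g6 (@Lb.g g5 (@Lb.g g4 (@Lb.d (nat_lit 1) (nat_lit 6) (nat_lit 2) (@Lb.t (@Lb.fm (nat_lit 9) t578))))))))))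
noncomputable def l8169 : Lb := (@Lb.r r21 (@Lb.r r70 (@Lb.r r263 (@Lb.d (nat_lit 290) (nat_lit 256) (nat_lit 0) (@Lb.g g4 (@Lb.r r267 (@Lb.r r74 (@Lb.r r25 (@Lb.d (nat_lit 257) (nat_lit 0) (nat_lit 32) (@Lb.t (@Lb.fm (nat_lit 3) t957)))))))))))
noncomputable def l8170 : Lb := (@Lb.d (nat_lit 8) (nat_lit 0) (nat_lit 130) (@Lb.g g8 (@Lb.g g10 (@Lb.g g11 (@Lb.r r2443 (@Lb.r r2193 (@Lb.r r2458 (@Lb.r r2436 (@Lb.d (nat_lit 360) (nat_lit 9) (nat_lit 546) (@Lb.t (@Lb.fp (nat_lit 9) t221)))))))))))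
noncomputable def l8171 : Lb := (@Lb.r r21 (@Lb.d (nat_lit 10) (nat_lit 520) (nat_lit 130) (@Lb.g g8 (@Lb.g g10 (@Lb.g g11 (@Lb.r r427 (@Lb.r r533 (@Lb.r r360 (@Lb.r r390 (@Lb.d (nat_lit 105) (nat_lit 90) (nat_lit 265) (@Lb.t (@Lb.fm (nat_lit 9) t51))))))))))))
noncomputable def l8172 : Lb := (@Lb.d (nat_lit 34) (nat_lit 513) (nat_lit 128) (@Lb.g g8 (@Lb.g g9 (@Lb.g g11 (@Lb.r r2454 (@Lb.r r2667 (@Lb.r r1121 (@Lb.r r1560 (@Lb.d (nat_lit 73) (nat_lit 41) (nat_lit 518) (@Lb.t (@Lb.fm (nat_lit 9) t564)))))))))))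
noncomputable def l8173 : Lb := (@Lb.d (nat_lit 0) (nat_lit 548) (nat_lit 66) (@Lb.g g9 (@Lb.g g10 (@Lb.g g11 (@Lb.r r674 (@Lb.r r2705 (@Lb.r r659 (@Lb.d (nat_lit 0) (nat_lit 24) (nat_lit 554) (@Lb.t (@Lb.fm (nat_lit 9) t2038))))))))))
noncomputable def l8174 : Lb := (@Lb.r r82 (@Lb.d (nat_lit 2) (nat_lit 545) (nat_lit 128) (@Lb.g g8 (@Lb.g g9 (@Lb.g g11 (@Lb.r r1419 (@Lb.r r2450 (@Lb.r r1625 (@Lb.d (nat_lit 356) (nat_lit 25) (nat_lit 518) (@Lb.t (@Lb.fp (nat_lit 9) t2039)))))))))))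
noncomputable def l8175 : Lb := (@Lb.r r82 (@Lb.d (nat_lit 2) (nat_lit 289) (nat_lit 136) (@Lb.g g8 (@Lb.g g9 (@Lb.g g11 (@Lb.r r1430 (@Lb.r r2645 (@Lb.d (nat_lit 2) (nat_lit 170) (nat_lit 614) (@Lb.t (@Lb.fp (nat_lit 9) t2040))))))))))
noncomputable def l8176 : Lb := (@Lb.d (nat_lit 40) (nat_lit 514) (nat_lit 136) (@Lb.g g9 (@Lb.g g10 (@Lb.g g11 (@Lb.r r1355 (@Lb.r r1348 (@Lb.r r2394 (@Lb.r r409 (@Lb.d (nat_lit 577) (nat_lit 137) (nat_lit 329) (@Lb.t (@Lb.fm (nat_lit 9) t1097)))))))))))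
noncomputable def l8177 : Lb := (@Lb.r r70 (@Lb.d (nat_lit 134) (nat_lit 256) (nat_lit 128) (@Lb.g g8 (@Lb.g g9 (@Lb.g g11 (@Lb.r r2152 (@Lb.r r2694 (@Lb.r r1411 (@Lb.r r1553 (@Lb.d (nat_lit 280) (nat_lit 65) (nat_lit 344) (@Lb.t (@Lb.fm (nat_lit 9) t2041))))))))))))
noncomputable def l8178 : Lb := (@Lb.r r82 (@Lb.d (nat_lit 34) (nat_lit 10) (nat_lit 128) (@Lb.g g8 (@Lb.g g9 (@Lb.g g11 (@Lb.r r402 (@Lb.r r359 (@Lb.r r660 (@Lb.r r169 (@Lb.d (nat_lit 538) (nat_lit 18) (nat_lit 24) (@Lb.t (@Lb.fm (nat_lit 9) t2042))))))))))))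
noncomputable def l8179 : Lb := (@Lb.d (nat_lit 389) (nat_lit 81) (nat_lit 338) (@Lb.r r1560 (@Lb.r r82 (@Lb.r r1307 (@Lb.g g9 (@Lb.g g4 (@Lb.d (nat_lit 70) (nat_lit 70) (nat_lit 0) (@Lb.r r98 (@Lb.fm (nat_lit 3) t2042)))))))))
noncomputable def l8180 : Lb := (@Lb.d (nat_lit 0) (nat_lit 292) (nat_lit 130) (@Lb.g g9 (@Lb.g g10 (@Lb.g g11 (@Lb.r r642 (@Lb.r r353 (@Lb.r r2451 (@Lb.r r529 (@Lb.d (nat_lit 0) (nat_lit 168) (nat_lit 134) (@Lb.t (@Lb.fm (nat_lit 9) t1034)))))))))))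
noncomputable def l8181 : Lb := (@Lb.d (nat_lit 273) (nat_lit 129) (nat_lit 2) (@Lb.r r360 (@Lb.r r2329 (@Lb.r r1639 (@Lb.g g10 (@Lb.g g5 (@Lb.d (nat_lit 0) (nat_lit 8) (nat_lit 17) (@Lb.r r387 (@Lb.r r132 (@Lb.fp (nat_lit 3) t1678))))))))))
noncomputable def l8182 : Lb := (@Lb.r r275 (@Lb.d (nat_lit 2) (nat_lit 266) (nat_lit 1) (@Lb.g g8 (@Lb.g g9 (@Lb.g g10 (@Lb.r r2666 (@Lb.r r2635 (@Lb.r r2073 (@Lb.d (nat_lit 66) (nat_lit 96) (nat_lit 256) (@Lb.t (@Lb.fp (nat_lit 9) t475)))))))))))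
noncomputable def l8183 : Lb := (@Lb.d (nat_lit 2) (nat_lit 2) (nat_lit 2) (@Lb.g g8 (@Lb.g g9 (@Lb.g g10 (@Lb.g g11 (@Lb.r r427 (@Lb.r r106 (@Lb.r r25 (@Lb.d (nat_lit 4) (nat_lit 8) (nat_lit 2) (@Lb.fp (nat_lit 9) t51))))))))))
noncomputable def l8184 : Lb := (@Lb.d (nat_lit 2) (nat_lit 512) (nat_lit 129) (@Lb.g g8 (@Lb.g g9 (@Lb.g g10 (@Lb.g g11 (@Lb.r r618 (@Lb.r r2659 (@Lb.r r2661 (@Lb.r r24 (@Lb.d (nat_lit 644) (nat_lit 104) (nat_lit 642) (@Lb.fm (nat_lit 9) t930)))))))))))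
noncomputable def l8185 : Lb := (@Lb.r r82 (@Lb.d (nat_lit 0) (nat_lit 516) (nat_lit 128) (@Lb.g g9 (@Lb.g g7 (@Lb.r r595 (@Lb.r r98 (@Lb.d (nat_lit 0) (nat_lit 9) (nat_lit 137) (@Lb.fm (nat_lit 3) t5))))))))
noncomputable def l8186 : Lb := (@Lb.d (nat_lit 2) (nat_lit 272) (nat_lit 9) (@Lb.g g8 (@Lb.g g9 (@Lb.g g10 (@Lb.g g11 (@Lb.r r427 (@Lb.r r153 (@Lb.r r1434 (@Lb.d (nat_lit 409) (nat_lit 149) (nat_lit 596) (@Lb.fm (nat_lit 9) t2043))))))))))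
noncomputable def l8187 : Lb := (@Lb.d (nat_lit 2) (nat_lit 265) (nat_lit 129) (@Lb.g g8 (@Lb.g g9 (@Lb.g g10 (@Lb.g g11 (@Lb.r r427 (@Lb.r r578 (@Lb.r r673 (@Lb.r r24 (@Lb.d (nat_lit 74) (nat_lit 132) (nat_lit 392) (@Lb.fp (nat_lit 9) t1589)))))))))))
noncomputable def l8188 : Lb := (@Lb.r r275 (@Lb.d (nat_lit 2) (nat_lit 266) (nat_lit 1) (@Lb.g g8 (@Lb.g g9 (@Lb.g g10 (@Lb.r r427 (@Lb.r r153 (@Lb.r r146 (@Lb.d (nat_lit 33) (nat_lit 10) (nat_lit 1) (@Lb.t (@Lb.fp (nat_lit 9) t892)))))))))))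
noncomputable def l8189 : Lb := (@Lb.d (nat_lit 2) (nat_lit 264) (nat_lit 74) (@Lb.g g8 (@Lb.g g10 (@Lb.g g11 (@Lb.r r2723 (@Lb.r r2129 (@Lb.r r418 (@Lb.d (nat_lit 402) (nat_lit 72) (nat_lit 553) (@Lb.t (@Lb.fm (nat_lit 9) t2044))))))))))
noncomputable def l8190 : Lb := (@Lb.d (nat_lit 2) (nat_lit 258) (nat_lit 2) (@Lb.g g8 (@Lb.g g9 (@Lb.g g10 (@Lb.r r683 (@Lb.r r2666 (@Lb.r r2585 (@Lb.d (nat_lit 329) (nat_lit 164) (nat_lit 160) (@Lb.t (@Lb.fp (nat_lit 9) t324))))))))))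
noncomputable def l8191 : Lb := (@Lb.r r21 (@Lb.r r323 (@Lb.d (nat_lit 130) (nat_lit 0) (nat_lit 2) (@Lb.g g8 (@Lb.g g10 (@Lb.r r346 (@Lb.r r661 (@Lb.r r535 (@Lb.r r264 (@Lb.d (nat_lit 137) (nat_lit 133) (nat_lit 328) (@Lb.fm (nat_lit 3) t51)))))))))))
noncomputable def l8192 : Lb := (@Lb.r r21 (@Lb.r r323 (@Lb.d (nat_lit 130) (nat_lit 256) (nat_lit 2) (@Lb.g g8 (@Lb.g g10 (@Lb.r r346 (@Lb.r r661 (@Lb.r r535 (@Lb.r r264 (@Lb.d (nat_lit 128) (nat_lit 134) (nat_lit 328) (@Lb.fm (nat_lit 3) t51)))))))))))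
noncomputable def l8193 : Lb := (@Lb.r r323 (@Lb.d (nat_lit 2) (nat_lit 513) (nat_lit 2) (@Lb.g g8 (@Lb.g g9 (@Lb.g g10 (@Lb.r r663 (@Lb.r r106 (@Lb.r r1121 (@Lb.r r24 (@Lb.d (nat_lit 8) (nat_lit 137) (nat_lit 33) (@Lb.t (@Lb.fp (nat_lit 9) t61))))))))))))
noncomputable def l8194 : Lb := (@Lb.r r355 (@Lb.d (nat_lit 2) (nat_lit 1) (nat_lit 18) (@Lb.g g8 (@Lb.g g9 (@Lb.g g6 (@Lb.r r2667 (@Lb.r r1625 (@Lb.d (nat_lit 617) (nat_lit 42) (nat_lit 281) (@Lb.t (@Lb.fm (nat_lit 9) t2001))))))))))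
noncomputable def l8195 : Lb := (@Lb.d (nat_lit 145) (nat_lit 261) (nat_lit 4) (@Lb.r r24 (@Lb.r r101 (@Lb.r r386 (@Lb.r r339 (@Lb.g g7 (@Lb.g g6 (@Lb.d (nat_lit 0) (nat_lit 0) (nat_lit 65) (@Lb.fp (nat_lit 3) t175)))))))))
noncomputable def l8196 : Lb := (@Lb.d (nat_lit 33) (nat_lit 4) (nat_lit 128) (@Lb.g g8 (@Lb.g g9 (@Lb.g g10 (@Lb.g g11 (@Lb.r r1667 (@Lb.r r2345 (@Lb.r r360 (@Lb.r r2630 (@Lb.r r2180 (@Lb.d (nat_lit 386) (nat_lit 74) (nat_lit 617) (@Lb.fm (nat_lit 9) t1812))))))))))))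
noncomputable def l8197 : Lb := (@Lb.d (nat_lit 137) (nat_lit 532) (nat_lit 64) (@Lb.r r536 (@Lb.r r97 (@Lb.r r363 (@Lb.g g10 (@Lb.g g5 (@Lb.g g4 (@Lb.d (nat_lit 82) (nat_lit 8) (nat_lit 1) (@Lb.t (@Lb.fm (nat_lit 9) t983))))))))))
noncomputable def l8198 : Lb := (@Lb.d (nat_lit 25) (nat_lit 276) (nat_lit 70) (@Lb.r r260 (@Lb.r r603 (@Lb.r r516 (@Lb.g g7 (@Lb.g g10 (@Lb.g g9 (@Lb.g g4 (@Lb.d (nat_lit 148) (nat_lit 16) (nat_lit 4) (@Lb.fm (nat_lit 9) t521))))))))))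
noncomputable def l8199 : Lb := (@Lb.d (nat_lit 2) (nat_lit 256) (nat_lit 128) (@Lb.g g8 (@Lb.g g11 (@Lb.r r101 (@Lb.r r658 (@Lb.r r387 (@Lb.d (nat_lit 64) (nat_lit 0) (nat_lit 69) (@Lb.fm (nat_lit 3) t242))))))))
noncomputable def l8200 : Lb := (@Lb.d (nat_lit 2) (nat_lit 4) (nat_lit 128) (@Lb.g g8 (@Lb.g g9 (@Lb.g g10 (@Lb.g g11 (@Lb.r r427 (@Lb.r r417 (@Lb.r r98 (@Lb.r r24 (@Lb.d (nat_lit 74) (nat_lit 33) (nat_lit 74) (@Lb.fp (nat_lit 9) t502)))))))))))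
noncomputable def l8201 : Lb := (@Lb.r r323 (@Lb.d (nat_lit 2) (nat_lit 2) (nat_lit 0) (@Lb.g g8 (@Lb.g g9 (@Lb.g g10 (@Lb.r r427 (@Lb.r r1177 (@Lb.r r146 (@Lb.d (nat_lit 272) (nat_lit 0) (nat_lit 33) (@Lb.t (@Lb.fp (nat_lit 9) t296)))))))))))
noncomputable def l8202 : Lb := (@Lb.r r323 (@Lb.d (nat_lit 2) (nat_lit 545) (nat_lit 2) (@Lb.g g8 (@Lb.g g9 (@Lb.g g10 (@Lb.r r1623 (@Lb.r r74 (@Lb.r r2337 (@Lb.d (nat_lit 545) (nat_lit 105) (nat_lit 417) (@Lb.t (@Lb.fm (nat_lit 9) t221)))))))))))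
noncomputable def l8203 : Lb := (@Lb.r r323 (@Lb.d (nat_lit 2) (nat_lit 290) (nat_lit 2) (@Lb.g g8 (@Lb.g g9 (@Lb.g g10 (@Lb.r r599 (@Lb.r r74 (@Lb.r r289 (@Lb.d (nat_lit 129) (nat_lit 41) (nat_lit 22) (@Lb.t (@Lb.fm (nat_lit 9) t221)))))))))))
noncomputable def l8204 : Lb := (@Lb.r r323 (@Lb.d (nat_lit 2) (nat_lit 34) (nat_lit 2) (@Lb.g g8 (@Lb.g g9 (@Lb.g g10 (@Lb.r r599 (@Lb.r r74 (@Lb.r r289 (@Lb.d (nat_lit 545) (nat_lit 41) (nat_lit 673) (@Lb.t (@Lb.fm (nat_lit 9) t221)))))))))))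
noncomputable def l8205 : Lb := (@Lb.d (nat_lit 0) (nat_lit 32) (nat_lit 64) (@Lb.g g11 (@Lb.r r2325 (@Lb.r r1315 (@Lb.r r1096 (@Lb.r r134 (@Lb.d (nat_lit 5) (nat_lit 170) (nat_lit 386) (@Lb.t (@Lb.fp (nat_lit 3) t40)))))))))
noncomputable def l8206 : Lb := (@Lb.r r322 (@Lb.d (nat_lit 5) (nat_lit 256) (nat_lit 512) (@Lb.g g4 (@Lb.g g7 (@Lb.r r357 (@Lb.r r146 (@Lb.d (nat_lit 1) (nat_lit 0) (nat_lit 388) (@Lb.fm (nat_lit 3) t311))))))))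
noncomputable def l8207 : Lb := (@Lb.d (nat_lit 5) (nat_lit 10) (nat_lit 129) (@Lb.g g4 (@Lb.g g9 (@Lb.g g10 (@Lb.g g11 (@Lb.r r679 (@Lb.r r2182 (@Lb.r r1553 (@Lb.d (nat_lit 360) (nat_lit 161) (nat_lit 658) (@Lb.fm (nat_lit 9) t50))))))))))
noncomputable def l8208 : Lb := (@Lb.r r323 (@Lb.d (nat_lit 5) (nat_lit 522) (nat_lit 1) (@Lb.g g4 (@Lb.g g9 (@Lb.g g10 (@Lb.r r2438 (@Lb.r r1635 (@Lb.r r1553 (@Lb.d (nat_lit 324) (nat_lit 32) (nat_lit 640) (@Lb.t (@Lb.fp (nat_lit 9) t50)))))))))))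
noncomputable def l8209 : Lb := (@Lb.d (nat_lit 25) (nat_lit 6) (nat_lit 145) (@Lb.r r2153 (@Lb.r r1128 (@Lb.r r323 (@Lb.g g10 (@Lb.g g5 (@Lb.g g4 (@Lb.d (nat_lit 5) (nat_lit 0) (nat_lit 2) (@Lb.r r387 (@Lb.t (@Lb.fm (nat_lit 9) t51)))))))))))
noncomputable def l8210 : Lb := (@Lb.d (nat_lit 390) (nat_lit 406) (nat_lit 546) (@Lb.r r2325 (@Lb.r r2390 (@Lb.r r683 (@Lb.g g7 (@Lb.g g6 (@Lb.g g5 (@Lb.g g4 (@Lb.d (nat_lit 1) (nat_lit 18) (nat_lit 65) (@Lb.fm (nat_lit 9) t309))))))))))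
noncomputable def l8211 : Lb := (@Lb.d (nat_lit 2) (nat_lit 521) (nat_lit 72) (@Lb.g g8 (@Lb.g g9 (@Lb.g g10 (@Lb.g g11 (@Lb.r r1699 (@Lb.r r2401 (@Lb.r r148 (@Lb.r r598 (@Lb.r r1156 (@Lb.d (nat_lit 9) (nat_lit 33) (nat_lit 586) (@Lb.fp (nat_lit 9) t125))))))))))))
noncomputable def l8212 : Lb := (@Lb.d (nat_lit 390) (nat_lit 657) (nat_lit 545) (@Lb.r r2325 (@Lb.r r2390 (@Lb.r r683 (@Lb.g g7 (@Lb.g g6 (@Lb.g g5 (@Lb.g g4 (@Lb.d (nat_lit 1) (nat_lit 18) (nat_lit 65) (@Lb.fm (nat_lit 9) t304))))))))))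
noncomputable def l8213 : Lb := (@Lb.d (nat_lit 168) (nat_lit 1) (nat_lit 74) (@Lb.g g9 (@Lb.g g10 (@Lb.g g11 (@Lb.r r260 (@Lb.r r1611 (@Lb.r r2394 (@Lb.r r145 (@Lb.d (nat_lit 288) (nat_lit 152) (nat_lit 513) (@Lb.t (@Lb.fp (nat_lit 9) t145)))))))))))
noncomputable def l8214 : Lb := (@Lb.d (nat_lit 2) (nat_lit 258) (nat_lit 130) (@Lb.g g8 (@Lb.g g9 (@Lb.g g10 (@Lb.g g11 (@Lb.r r1371 (@Lb.r r386 (@Lb.r r97 (@Lb.r r24 (@Lb.d (nat_lit 256) (nat_lit 9) (nat_lit 137) (@Lb.fm (nat_lit 9) t432)))))))))))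
noncomputable def l8215 : Lb := (@Lb.r r82 (@Lb.r r275 (@Lb.d (nat_lit 2) (nat_lit 584) (nat_lit 0) (@Lb.g g8 (@Lb.g g9 (@Lb.r r402 (@Lb.r r1603 (@Lb.r r36 (@Lb.d (nat_lit 10) (nat_lit 0) (nat_lit 64) (@Lb.fm (nat_lit 3) t2045))))))))))
noncomputable def l8216 : Lb := (@Lb.d (nat_lit 530) (nat_lit 261) (nat_lit 18) (@Lb.r r1158 (@Lb.r r2132 (@Lb.r r2345 (@Lb.r r2707 (@Lb.g g7 (@Lb.g g6 (@Lb.g g4 (@Lb.d (nat_lit 1) (nat_lit 0) (nat_lit 133) (@Lb.t (@Lb.fm (nat_lit 9) t873)))))))))))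
noncomputable def l8217 : Lb := (@Lb.r r323 (@Lb.d (nat_lit 40) (nat_lit 553) (nat_lit 1) (@Lb.g g9 (@Lb.g g10 (@Lb.r r603 (@Lb.r r600 (@Lb.r r293 (@Lb.d (nat_lit 74) (nat_lit 137) (nat_lit 136) (@Lb.fp (nat_lit 3) t1414)))))))))
noncomputable def l8218 : Lb := (@Lb.d (nat_lit 36) (nat_lit 1) (nat_lit 16) (@Lb.r r1158 (@Lb.r r2376 (@Lb.r r279 (@Lb.r r1697 (@Lb.g g6 (@Lb.r r387 (@Lb.r r145 (@Lb.t (@Lb.fp (nat_lit 3) t1414))))))))))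
noncomputable def l8219 : Lb := (@Lb.d (nat_lit 2) (nat_lit 642) (nat_lit 73) (@Lb.g g8 (@Lb.g g9 (@Lb.g g10 (@Lb.g g11 (@Lb.r r1451 (@Lb.r r1444 (@Lb.r r1126 (@Lb.d (nat_lit 280) (nat_lit 130) (nat_lit 2) (@Lb.fp (nat_lit 9) t455))))))))))
noncomputable def l8220 : Lb := (@Lb.d (nat_lit 2) (nat_lit 130) (nat_lit 130) (@Lb.g g8 (@Lb.g g9 (@Lb.g g10 (@Lb.g g11 (@Lb.r r1451 (@Lb.r r1444 (@Lb.r r1126 (@Lb.d (nat_lit 281) (nat_lit 130) (nat_lit 2) (@Lb.fp (nat_lit 9) t455))))))))))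
noncomputable def l8221 : Lb := (@Lb.r r82 (@Lb.r r275 (@Lb.d (nat_lit 2) (nat_lit 328) (nat_lit 0) (@Lb.g g8 (@Lb.g g9 (@Lb.r r402 (@Lb.r r1603 (@Lb.r r36 (@Lb.d (nat_lit 8) (nat_lit 0) (nat_lit 64) (@Lb.fm (nat_lit 3) t2046))))))))))
noncomputable def l8222 : Lb := (@Lb.d (nat_lit 137) (nat_lit 256) (nat_lit 0) (@Lb.g g8 (@Lb.r r1621 (@Lb.r r1559 (@Lb.r r2178 (@Lb.r r2344 (@Lb.d (nat_lit 165) (nat_lit 98) (nat_lit 674) (@Lb.t (@Lb.fm (nat_lit 3) t296)))))))))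
noncomputable def l8223 : Lb := (@Lb.d (nat_lit 10) (nat_lit 544) (nat_lit 130) (@Lb.g g8 (@Lb.g g10 (@Lb.g g11 (@Lb.r r1618 (@Lb.r r149 (@Lb.r r2340 (@Lb.r r587 (@Lb.d (nat_lit 97) (nat_lit 85) (nat_lit 408) (@Lb.t (@Lb.fp (nat_lit 9) t100)))))))))))
noncomputable def l8224 : Lb := (@Lb.r r21 (@Lb.d (nat_lit 2) (nat_lit 256) (nat_lit 2) (@Lb.g g8 (@Lb.g g10 (@Lb.r r2587 (@Lb.r r1381 (@Lb.r r2202 (@Lb.r r2180 (@Lb.d (nat_lit 82) (nat_lit 2) (nat_lit 609) (@Lb.fp (nat_lit 3) t284))))))))))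
noncomputable def l8225 : Lb := (@Lb.d (nat_lit 74) (nat_lit 513) (nat_lit 2) (@Lb.g g8 (@Lb.g g9 (@Lb.g g10 (@Lb.r r2327 (@Lb.r r1641 (@Lb.r r2202 (@Lb.r r2180 (@Lb.d (nat_lit 641) (nat_lit 2) (nat_lit 24) (@Lb.t (@Lb.fm (nat_lit 9) t2047)))))))))))
noncomputable def l8226 : Lb := (@Lb.g g5 (@Lb.r r2707 (@Lb.r r134 (@Lb.r r2644 (@Lb.r r1321 (@Lb.d (nat_lit 577) (nat_lit 64) (nat_lit 512) (@Lb.t (@Lb.fp (nat_lit 3) t2048))))))))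
noncomputable def l8227 : Lb := (@Lb.d (nat_lit 74) (nat_lit 1) (nat_lit 9) (@Lb.g g8 (@Lb.g g9 (@Lb.g g10 (@Lb.r r2327 (@Lb.r r1641 (@Lb.r r2202 (@Lb.r r2180 (@Lb.d (nat_lit 640) (nat_lit 2) (nat_lit 24) (@Lb.t (@Lb.fm (nat_lit 9) t2047)))))))))))
noncomputable def l8228 : Lb := (@Lb.d (nat_lit 1) (nat_lit 88) (nat_lit 425) (@Lb.r r2341 (@Lb.r r408 (@Lb.r r330 (@Lb.g g11 (@Lb.g g5 (@Lb.g g4 (@Lb.d (nat_lit 17) (nat_lit 0) (nat_lit 128) (@Lb.t (@Lb.fm (nat_lit 9) t2049))))))))))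
noncomputable def l8229 : Lb := (@Lb.d (nat_lit 17) (nat_lit 416) (nat_lit 646) (@Lb.r r24 (@Lb.r r101 (@Lb.r r386 (@Lb.g g11 (@Lb.g g6 (@Lb.g g5 (@Lb.d (nat_lit 0) (nat_lit 0) (nat_lit 129) (@Lb.t (@Lb.fp (nat_lit 9) t1117))))))))))
noncomputable def l8230 : Lb := (@Lb.r r323 (@Lb.d (nat_lit 138) (nat_lit 256) (nat_lit 4) (@Lb.g g4 (@Lb.g g6 (@Lb.r r619 (@Lb.r r537 (@Lb.r r1560 (@Lb.d (nat_lit 389) (nat_lit 144) (nat_lit 337) (@Lb.fm (nat_lit 3) t386)))))))))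
noncomputable def l8231 : Lb := (@Lb.d (nat_lit 2) (nat_lit 2) (nat_lit 130) (@Lb.g g8 (@Lb.g g9 (@Lb.g g10 (@Lb.g g11 (@Lb.r r1443 (@Lb.r r106 (@Lb.r r25 (@Lb.d (nat_lit 609) (nat_lit 73) (nat_lit 425) (@Lb.fp (nat_lit 9) t2050))))))))))
noncomputable def l8232 : Lb := (@Lb.r r82 (@Lb.r r275 (@Lb.d (nat_lit 8) (nat_lit 2) (nat_lit 0) (@Lb.g g9 (@Lb.r r1172 (@Lb.r r2662 (@Lb.r r355 (@Lb.r r1633 (@Lb.d (nat_lit 0) (nat_lit 137) (nat_lit 282) (@Lb.t (@Lb.fm (nat_lit 3) t261)))))))))))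
noncomputable def l8233 : Lb := (@Lb.d (nat_lit 8) (nat_lit 290) (nat_lit 0) (@Lb.g g5 (@Lb.r r680 (@Lb.r r427 (@Lb.r r2178 (@Lb.r r2393 (@Lb.d (nat_lit 661) (nat_lit 105) (nat_lit 74) (@Lb.t (@Lb.fm (nat_lit 3) t1561)))))))))
noncomputable def l8234 : Lb := (@Lb.r r1092 (@Lb.d (nat_lit 0) (nat_lit 580) (nat_lit 0) (@Lb.g g9 (@Lb.g g10 (@Lb.r r2723 (@Lb.r r1634 (@Lb.d (nat_lit 0) (nat_lit 153) (nat_lit 9) (@Lb.fp (nat_lit 3) t863))))))))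
noncomputable def l8235 : Lb := (@Lb.d (nat_lit 130) (nat_lit 522) (nat_lit 0) (@Lb.g g8 (@Lb.g g9 (@Lb.r r599 (@Lb.r r594 (@Lb.r r417 (@Lb.r r104 (@Lb.d (nat_lit 38) (nat_lit 0) (nat_lit 68) (@Lb.fp (nat_lit 3) t119)))))))))
noncomputable def l8236 : Lb := (@Lb.d (nat_lit 130) (nat_lit 256) (nat_lit 0) (@Lb.g g8 (@Lb.r r551 (@Lb.r r402 (@Lb.r r609 (@Lb.r r104 (@Lb.d (nat_lit 38) (nat_lit 1) (nat_lit 68) (@Lb.t (@Lb.fp (nat_lit 3) t71)))))))))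
noncomputable def l8237 : Lb := (@Lb.d (nat_lit 8) (nat_lit 290) (nat_lit 0) (@Lb.g g5 (@Lb.r r680 (@Lb.r r427 (@Lb.r r2178 (@Lb.r r2393 (@Lb.d (nat_lit 102) (nat_lit 105) (nat_lit 416) (@Lb.t (@Lb.fm (nat_lit 3) t1561)))))))))
noncomputable def l8238 : Lb := (@Lb.r r21 (@Lb.d (nat_lit 2) (nat_lit 520) (nat_lit 1) (@Lb.g g8 (@Lb.g g10 (@Lb.r r2587 (@Lb.r r97 (@Lb.r r402 (@Lb.r r2180 (@Lb.d (nat_lit 86) (nat_lit 26) (nat_lit 552) (@Lb.fp (nat_lit 3) t284))))))))))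
noncomputable def l8239 : Lb := (@Lb.r r323 (@Lb.d (nat_lit 138) (nat_lit 512) (nat_lit 4) (@Lb.g g8 (@Lb.g g6 (@Lb.r r615 (@Lb.r r533 (@Lb.r r2340 (@Lb.d (nat_lit 586) (nat_lit 97) (nat_lit 657) (@Lb.fm (nat_lit 3) t386)))))))))
noncomputable def l8240 : Lb := (@Lb.d (nat_lit 10) (nat_lit 32) (nat_lit 66) (@Lb.g g8 (@Lb.g g10 (@Lb.g g11 (@Lb.r r1618 (@Lb.r r149 (@Lb.r r2340 (@Lb.r r587 (@Lb.d (nat_lit 97) (nat_lit 85) (nat_lit 408) (@Lb.t (@Lb.fp (nat_lit 9) t100)))))))))))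
noncomputable def l8241 : Lb := (@Lb.r r21 (@Lb.g g8 (@Lb.r r1561 (@Lb.r r1540 (@Lb.d (nat_lit 0) (nat_lit 0) (nat_lit 640) (@Lb.t (@Lb.fp (nat_lit 3) t1644)))))))
noncomputable def l8242 : Lb := (@Lb.d (nat_lit 32) (nat_lit 258) (nat_lit 130) (@Lb.g g9 (@Lb.g g10 (@Lb.g g11 (@Lb.r r1447 (@Lb.r r293 (@Lb.r r72 (@Lb.r r150 (@Lb.d (nat_lit 533) (nat_lit 0) (nat_lit 425) (@Lb.t (@Lb.fp (nat_lit 9) t296)))))))))))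
noncomputable def l8243 : Lb := (@Lb.r r134 (@Lb.r r324 (@Lb.r r539 (@Lb.r r289 (@Lb.r r36 (@Lb.d (nat_lit 320) (nat_lit 576) (nat_lit 512) (@Lb.fm (nat_lit 1) t1449)))))))
noncomputable def l8244 : Lb := (@Lb.d (nat_lit 0) (nat_lit 426) (nat_lit 580) (@Lb.r r1426 (@Lb.r r1637 (@Lb.r r1304 (@Lb.r r2371 (@Lb.g g7 (@Lb.g g6 (@Lb.g g5 (@Lb.d (nat_lit 16) (nat_lit 0) (nat_lit 65) (@Lb.t (@Lb.fm (nat_lit 9) t681)))))))))))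
noncomputable def l8245 : Lb := (@Lb.d (nat_lit 582) (nat_lit 386) (nat_lit 321) (@Lb.r r2312 (@Lb.r r1559 (@Lb.r r345 (@Lb.r r614 (@Lb.g g6 (@Lb.g g4 (@Lb.d (nat_lit 69) (nat_lit 0) (nat_lit 1) (@Lb.r r387 (@Lb.fm (nat_lit 3) t284))))))))))
noncomputable def l8246 : Lb := (@Lb.r r323 (@Lb.d (nat_lit 2) (nat_lit 545) (nat_lit 2) (@Lb.g g8 (@Lb.g g9 (@Lb.g g10 (@Lb.r r2647 (@Lb.r r74 (@Lb.r r1320 (@Lb.r r1433 (@Lb.d (nat_lit 661) (nat_lit 150) (nat_lit 681) (@Lb.t (@Lb.fm (nat_lit 9) t51))))))))))))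
noncomputable def l8247 : Lb := (@Lb.r r387 (@Lb.d (nat_lit 0) (nat_lit 520) (nat_lit 5) (@Lb.g g10 (@Lb.r r323 (@Lb.d (nat_lit 0) (nat_lit 2) (nat_lit 8) (@Lb.t (@Lb.fp (nat_lit 3) t1359)))))))
noncomputable def l8248 : Lb := (@Lb.r r21 (@Lb.d (nat_lit 33) (nat_lit 0) (nat_lit 129) (@Lb.g g8 (@Lb.g g10 (@Lb.g g11 (@Lb.r r1674 (@Lb.r r1637 (@Lb.r r1703 (@Lb.r r2372 (@Lb.d (nat_lit 597) (nat_lit 166) (nat_lit 618) (@Lb.t (@Lb.fp (nat_lit 9) t74))))))))))))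
noncomputable def l8249 : Lb := (@Lb.d (nat_lit 2) (nat_lit 265) (nat_lit 129) (@Lb.g g8 (@Lb.g g9 (@Lb.g g10 (@Lb.g g11 (@Lb.r r2666 (@Lb.r r579 (@Lb.r r97 (@Lb.r r24 (@Lb.d (nat_lit 152) (nat_lit 2) (nat_lit 393) (@Lb.fm (nat_lit 9) t2051)))))))))))
noncomputable def l8250 : Lb := (@Lb.d (nat_lit 0) (nat_lit 256) (nat_lit 73) (@Lb.g g8 (@Lb.g g10 (@Lb.g g11 (@Lb.r r2475 (@Lb.r r2725 (@Lb.r r340 (@Lb.r r170 (@Lb.d (nat_lit 533) (nat_lit 8) (nat_lit 154) (@Lb.t (@Lb.fm (nat_lit 9) t221)))))))))))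
noncomputable def l8251 : Lb := (@Lb.d (nat_lit 2) (nat_lit 9) (nat_lit 130) (@Lb.g g8 (@Lb.g g9 (@Lb.g g10 (@Lb.g g11 (@Lb.r r643 (@Lb.r r618 (@Lb.r r25 (@Lb.d (nat_lit 9) (nat_lit 152) (nat_lit 266) (@Lb.fm (nat_lit 9) t2052))))))))))
noncomputable def l8252 : Lb := (@Lb.r r21 (@Lb.r r323 (@Lb.d (nat_lit 33) (nat_lit 512) (nat_lit 1) (@Lb.g g8 (@Lb.g g10 (@Lb.r r2465 (@Lb.r r407 (@Lb.r r1162 (@Lb.r r2372 (@Lb.d (nat_lit 288) (nat_lit 0) (nat_lit 618) (@Lb.fm (nat_lit 3) t68)))))))))))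
noncomputable def l8253 : Lb := (@Lb.d (nat_lit 2) (nat_lit 512) (nat_lit 73) (@Lb.g g8 (@Lb.g g10 (@Lb.g g11 (@Lb.r r2475 (@Lb.r r2725 (@Lb.r r340 (@Lb.r r170 (@Lb.d (nat_lit 533) (nat_lit 8) (nat_lit 154) (@Lb.t (@Lb.fm (nat_lit 9) t221)))))))))))
noncomputable def l8254 : Lb := (@Lb.r r323 (@Lb.d (nat_lit 0) (nat_lit 264) (nat_lit 34) (@Lb.g g6 (@Lb.r r387 (@Lb.d (nat_lit 0) (nat_lit 2) (nat_lit 16) (@Lb.t (@Lb.fm (nat_lit 3) t2053)))))))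
noncomputable def l8255 : Lb := (@Lb.r r21 (@Lb.d (nat_lit 146) (nat_lit 256) (nat_lit 133) (@Lb.g g8 (@Lb.g g10 (@Lb.g g11 (@Lb.r r1691 (@Lb.r r1689 (@Lb.r r1370 (@Lb.r r1160 (@Lb.d (nat_lit 529) (nat_lit 165) (nat_lit 406) (@Lb.t (@Lb.fm (nat_lit 9) t144))))))))))))
noncomputable def l8256 : Lb := (@Lb.d (nat_lit 0) (nat_lit 0) (nat_lit 2) (@Lb.g g10 (@Lb.g g11 (@Lb.r r386 (@Lb.r r101 (@Lb.r r24 (@Lb.d (nat_lit 354) (nat_lit 0) (nat_lit 521) (@Lb.fp (nat_lit 3) t166))))))))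
noncomputable def l8257 : Lb := (@Lb.r r323 (@Lb.d (nat_lit 133) (nat_lit 2) (nat_lit 2) (@Lb.g g8 (@Lb.g g9 (@Lb.g g10 (@Lb.r r362 (@Lb.r r361 (@Lb.r r1367 (@Lb.r r2696 (@Lb.d (nat_lit 345) (nat_lit 65) (nat_lit 662) (@Lb.t (@Lb.fm (nat_lit 9) t51))))))))))))
noncomputable def l8258 : Lb := (@Lb.d (nat_lit 2) (nat_lit 2) (nat_lit 130) (@Lb.g g8 (@Lb.g g9 (@Lb.g g10 (@Lb.g g11 (@Lb.r r427 (@Lb.r r145 (@Lb.r r356 (@Lb.r r154 (@Lb.r r132 (@Lb.d (nat_lit 9) (nat_lit 2) (nat_lit 154) (@Lb.fm (nat_lit 9) t221))))))))))))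
noncomputable def l8259 : Lb := (@Lb.r r323 (@Lb.d (nat_lit 2) (nat_lit 514) (nat_lit 2) (@Lb.g g8 (@Lb.g g9 (@Lb.g g10 (@Lb.r r401 (@Lb.r r299 (@Lb.r r392 (@Lb.r r74 (@Lb.d (nat_lit 38) (nat_lit 8) (nat_lit 152) (@Lb.t (@Lb.fp (nat_lit 9) t221))))))))))))
noncomputable def l8260 : Lb := (@Lb.d (nat_lit 5) (nat_lit 84) (nat_lit 66) (@Lb.r r657 (@Lb.r r667 (@Lb.r r584 (@Lb.g g6 (@Lb.g g5 (@Lb.d (nat_lit 16) (nat_lit 2) (nat_lit 1) (@Lb.r r387 (@Lb.fm (nat_lit 3) t68)))))))))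
noncomputable def l8261 : Lb := (@Lb.d (nat_lit 2) (nat_lit 512) (nat_lit 130) (@Lb.g g8 (@Lb.g g10 (@Lb.g g11 (@Lb.r r586 (@Lb.r r584 (@Lb.r r619 (@Lb.r r609 (@Lb.d (nat_lit 9) (nat_lit 130) (nat_lit 68) (@Lb.t (@Lb.fp (nat_lit 9) t71)))))))))))
noncomputable def l8262 : Lb := (@Lb.d (nat_lit 2) (nat_lit 514) (nat_lit 130) (@Lb.g g8 (@Lb.g g9 (@Lb.g g10 (@Lb.g g11 (@Lb.r r427 (@Lb.r r297 (@Lb.r r104 (@Lb.r r70 (@Lb.r r132 (@Lb.d (nat_lit 9) (nat_lit 154) (nat_lit 137) (@Lb.fp (nat_lit 9) t119))))))))))))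
noncomputable def l8263 : Lb := (@Lb.d (nat_lit 8) (nat_lit 258) (nat_lit 0) (@Lb.g g9 (@Lb.r r1126 (@Lb.r r1304 (@Lb.r r2439 (@Lb.r r1617 (@Lb.d (nat_lit 0) (nat_lit 102) (nat_lit 682) (@Lb.t (@Lb.fm (nat_lit 3) t2054)))))))))
noncomputable def l8264 : Lb := (@Lb.d (nat_lit 2) (nat_lit 33) (nat_lit 73) (@Lb.g g8 (@Lb.g g9 (@Lb.g g10 (@Lb.g g11 (@Lb.r r1706 (@Lb.r r1188 (@Lb.r r2597 (@Lb.r r1315 (@Lb.d (nat_lit 516) (nat_lit 80) (nat_lit 650) (@Lb.fp (nat_lit 9) t2055)))))))))))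
noncomputable def l8265 : Lb := (@Lb.d (nat_lit 8) (nat_lit 2) (nat_lit 0) (@Lb.g g9 (@Lb.g g11 (@Lb.r r1126 (@Lb.r r1304 (@Lb.r r2439 (@Lb.r r1617 (@Lb.d (nat_lit 1) (nat_lit 102) (nat_lit 682) (@Lb.fp (nat_lit 3) t444)))))))))
noncomputable def l8266 : Lb := (@Lb.d (nat_lit 8) (nat_lit 2) (nat_lit 0) (@Lb.g g9 (@Lb.r r1126 (@Lb.r r1304 (@Lb.r r2439 (@Lb.r r1617 (@Lb.d (nat_lit 1) (nat_lit 102) (nat_lit 682) (@Lb.t (@Lb.fm (nat_lit 3) t444)))))))))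
noncomputable def l8267 : Lb := (@Lb.d (nat_lit 4) (nat_lit 0) (nat_lit 130) (@Lb.g g8 (@Lb.g g9 (@Lb.g g10 (@Lb.g g11 (@Lb.r r1699 (@Lb.r r164 (@Lb.r r2709 (@Lb.r r2198 (@Lb.r r2084 (@Lb.d (nat_lit 289) (nat_lit 162) (nat_lit 418) (@Lb.fp (nat_lit 9) t791))))))))))))
noncomputable def l8268 : Lb := (@Lb.g g8 (@Lb.r r609 (@Lb.r r2659 (@Lb.r r338 (@Lb.r r2705 (@Lb.t (@Lb.p (nat_lit 1) (@Lb.fp (nat_lit 3) t322))))))))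
noncomputable def l8269 : Lb := (@Lb.g g9 (@Lb.r r149 (@Lb.d (nat_lit 256) (nat_lit 256) (nat_lit 32) (@Lb.t (@Lb.fp (nat_lit 3) t743)))))
noncomputable def l8270 : Lb := (@Lb.d (nat_lit 277) (nat_lit 520) (nat_lit 32) (@Lb.g g9 (@Lb.d (nat_lit 8) (nat_lit 2) (nat_lit 0) (@Lb.t (@Lb.fp (nat_lit 3) t743)))))
noncomputable def l8271 : Lb := (@Lb.d (nat_lit 4) (nat_lit 256) (nat_lit 130) (@Lb.g g8 (@Lb.g g9 (@Lb.g g10 (@Lb.g g11 (@Lb.r r1699 (@Lb.r r164 (@Lb.r r2709 (@Lb.r r2198 (@Lb.r r2084 (@Lb.d (nat_lit 288) (nat_lit 162) (nat_lit 418) (@Lb.fp (nat_lit 9) t791))))))))))))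
noncomputable def l8272 : Lb := (@Lb.r r82 (@Lb.r r275 (@Lb.d (nat_lit 4) (nat_lit 650) (nat_lit 0) (@Lb.g g8 (@Lb.g g5 (@Lb.r r291 (@Lb.r r98 (@Lb.r r1096 (@Lb.d (nat_lit 546) (nat_lit 64) (nat_lit 2) (@Lb.fm (nat_lit 3) t2056))))))))))
noncomputable def l8273 : Lb := (@Lb.r r609 (@Lb.r r2659 (@Lb.r r338 (@Lb.r r2705 (@Lb.fp (nat_lit 1) t322)))))
noncomputable def l8274 : Lb := (@Lb.d (nat_lit 0) (nat_lit 42) (nat_lit 0) (@Lb.g g9 (@Lb.r r1435 (@Lb.r r2458 (@Lb.r r597 (@Lb.d (nat_lit 148) (nat_lit 38) (nat_lit 330) (@Lb.t (@Lb.fm (nat_lit 3) t322))))))))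
noncomputable def l8275 : Lb := (@Lb.d (nat_lit 4) (nat_lit 512) (nat_lit 73) (@Lb.g g8 (@Lb.g g9 (@Lb.g g10 (@Lb.g g11 (@Lb.r r1699 (@Lb.r r164 (@Lb.r r2709 (@Lb.r r2198 (@Lb.r r2084 (@Lb.d (nat_lit 288) (nat_lit 162) (nat_lit 418) (@Lb.fp (nat_lit 9) t791))))))))))))
noncomputable def l8276 : Lb := (@Lb.d (nat_lit 4) (nat_lit 512) (nat_lit 130) (@Lb.g g8 (@Lb.g g9 (@Lb.g g10 (@Lb.g g11 (@Lb.r r2595 (@Lb.r r386 (@Lb.r r1129 (@Lb.r r1124 (@Lb.d (nat_lit 408) (nat_lit 138) (nat_lit 329) (@Lb.fm (nat_lit 9) t228)))))))))))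
noncomputable def l8277 : Lb := (@Lb.d (nat_lit 128) (nat_lit 288) (nat_lit 128) (@Lb.g g11 (@Lb.r r2410 (@Lb.r r361 (@Lb.r r1384 (@Lb.r r2455 (@Lb.d (nat_lit 614) (nat_lit 22) (nat_lit 648) (@Lb.t (@Lb.fp (nat_lit 3) t322)))))))))
noncomputable def l8278 : Lb := (@Lb.d (nat_lit 42) (nat_lit 256) (nat_lit 128) (@Lb.g g8 (@Lb.g g11 (@Lb.r r2370 (@Lb.r r1447 (@Lb.r r1317 (@Lb.r r1556 (@Lb.d (nat_lit 390) (nat_lit 165) (nat_lit 608) (@Lb.fp (nat_lit 3) t322)))))))))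
noncomputable def l8279 : Lb := (@Lb.d (nat_lit 0) (nat_lit 257) (nat_lit 128) (@Lb.g g9 (@Lb.g g10 (@Lb.g g11 (@Lb.r r1707 (@Lb.r r1681 (@Lb.r r1174 (@Lb.r r8 (@Lb.d (nat_lit 425) (nat_lit 74) (nat_lit 681) (@Lb.t (@Lb.fp (nat_lit 9) t646)))))))))))
noncomputable def l8280 : Lb := (@Lb.d (nat_lit 136) (nat_lit 256) (nat_lit 384) (@Lb.g g8 (@Lb.g g11 (@Lb.r r2662 (@Lb.r r613 (@Lb.r r2452 (@Lb.d (nat_lit 614) (nat_lit 10) (nat_lit 546) (@Lb.fp (nat_lit 3) t745))))))))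
noncomputable def l8281 : Lb := (@Lb.d (nat_lit 2) (nat_lit 514) (nat_lit 130) (@Lb.g g4 (@Lb.g g9 (@Lb.g g10 (@Lb.g g11 (@Lb.r r1671 (@Lb.r r145 (@Lb.r r594 (@Lb.r r1169 (@Lb.d (nat_lit 258) (nat_lit 98) (nat_lit 618) (@Lb.fp (nat_lit 9) t1649)))))))))))
noncomputable def l8282 : Lb := (@Lb.d (nat_lit 66) (nat_lit 594) (nat_lit 576) (@Lb.r r276 (@Lb.r r1387 (@Lb.r r1361 (@Lb.r r1642 (@Lb.g g5 (@Lb.g g4 (@Lb.d (nat_lit 17) (nat_lit 1) (nat_lit 0) (@Lb.r r74 (@Lb.fm (nat_lit 3) t1265))))))))))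
noncomputable def l8283 : Lb := (@Lb.d (nat_lit 9) (nat_lit 1) (nat_lit 130) (@Lb.g g8 (@Lb.g g9 (@Lb.g g10 (@Lb.g g11 (@Lb.r r427 (@Lb.r r297 (@Lb.r r104 (@Lb.r r70 (@Lb.r r132 (@Lb.d (nat_lit 9) (nat_lit 154) (nat_lit 137) (@Lb.fp (nat_lit 9) t119))))))))))))
noncomputable def l8284 : Lb := (@Lb.d (nat_lit 401) (nat_lit 138) (nat_lit 69) (@Lb.r r2069 (@Lb.r r1124 (@Lb.r r386 (@Lb.r r2395 (@Lb.g g7 (@Lb.g g6 (@Lb.d (nat_lit 0) (nat_lit 0) (nat_lit 129) (@Lb.fp (nat_lit 3) t2057)))))))))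
noncomputable def l8285 : Lb := (@Lb.d (nat_lit 32) (nat_lit 0) (nat_lit 128) (@Lb.g g10 (@Lb.g g11 (@Lb.r r324 (@Lb.r r651 (@Lb.r r2409 (@Lb.r r666 (@Lb.d (nat_lit 585) (nat_lit 42) (nat_lit 133) (@Lb.fp (nat_lit 3) t2058)))))))))
noncomputable def l8286 : Lb := (@Lb.r r323 (@Lb.d (nat_lit 2) (nat_lit 514) (nat_lit 0) (@Lb.g g8 (@Lb.g g9 (@Lb.g g10 (@Lb.r r2666 (@Lb.r r1635 (@Lb.r r1553 (@Lb.d (nat_lit 385) (nat_lit 162) (nat_lit 64) (@Lb.t (@Lb.fp (nat_lit 9) t2059)))))))))))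
noncomputable def l8287 : Lb := (@Lb.d (nat_lit 9) (nat_lit 257) (nat_lit 130) (@Lb.g g8 (@Lb.g g9 (@Lb.g g10 (@Lb.g g11 (@Lb.r r427 (@Lb.r r297 (@Lb.r r104 (@Lb.r r70 (@Lb.r r132 (@Lb.d (nat_lit 8) (nat_lit 154) (nat_lit 137) (@Lb.fp (nat_lit 9) t119))))))))))))
noncomputable def l8288 : Lb := (@Lb.d (nat_lit 128) (nat_lit 288) (nat_lit 128) (@Lb.g g11 (@Lb.r r1369 (@Lb.r r1304 (@Lb.r r2599 (@Lb.r r2178 (@Lb.d (nat_lit 297) (nat_lit 16) (nat_lit 146) (@Lb.t (@Lb.fm (nat_lit 3) t1561)))))))))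
noncomputable def l8289 : Lb := (@Lb.r r82 (@Lb.r r275 (@Lb.g g4 (@Lb.g g9 (@Lb.r r1291 (@Lb.r r1098 (@Lb.r r168 (@Lb.r r2217 (@Lb.d (nat_lit 538) (nat_lit 330) (nat_lit 18) (@Lb.fp (nat_lit 3) t1268))))))))))
noncomputable def l8290 : Lb := (@Lb.r r323 (@Lb.d (nat_lit 5) (nat_lit 290) (nat_lit 2) (@Lb.g g8 (@Lb.g g9 (@Lb.g g10 (@Lb.r r2647 (@Lb.r r74 (@Lb.r r1320 (@Lb.r r1433 (@Lb.d (nat_lit 664) (nat_lit 22) (nat_lit 681) (@Lb.t (@Lb.fm (nat_lit 9) t51))))))))))))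
noncomputable def l8291 : Lb := (@Lb.d (nat_lit 662) (nat_lit 2) (nat_lit 294) (@Lb.r r24 (@Lb.r r2138 (@Lb.r r2395 (@Lb.g g7 (@Lb.g g5 (@Lb.d (nat_lit 4) (nat_lit 130) (nat_lit 64) (@Lb.fp (nat_lit 3) t594))))))))
noncomputable def l8292 : Lb := (@Lb.d (nat_lit 5) (nat_lit 256) (nat_lit 0) (@Lb.g g8 (@Lb.d (nat_lit 10) (nat_lit 0) (nat_lit 0) (@Lb.t (@Lb.fp (nat_lit 3) t2)))))
noncomputable def l8293 : Lb := (@Lb.d (nat_lit 8) (nat_lit 0) (nat_lit 64) (@Lb.g g9 (@Lb.g g11 (@Lb.r r328 (@Lb.r r1687 (@Lb.r r1385 (@Lb.r r86 (@Lb.r r1188 (@Lb.d (nat_lit 5) (nat_lit 130) (nat_lit 676) (@Lb.fp (nat_lit 3) t2))))))))))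
noncomputable def l8294 : Lb := (@Lb.r r323 (@Lb.d (nat_lit 5) (nat_lit 546) (nat_lit 2) (@Lb.g g8 (@Lb.g g9 (@Lb.g g10 (@Lb.r r2647 (@Lb.r r74 (@Lb.r r1320 (@Lb.r r1433 (@Lb.d (nat_lit 661) (nat_lit 152) (nat_lit 682) (@Lb.t (@Lb.fm (nat_lit 9) t51))))))))))))
noncomputable def l8295 : Lb := (@Lb.r r323 (@Lb.d (nat_lit 5) (nat_lit 34) (nat_lit 2) (@Lb.g g8 (@Lb.g g9 (@Lb.g g10 (@Lb.r r2647 (@Lb.r r74 (@Lb.r r1320 (@Lb.r r1433 (@Lb.d (nat_lit 661) (nat_lit 150) (nat_lit 681) (@Lb.t (@Lb.fm (nat_lit 9) t51))))))))))))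
noncomputable def l8296 : Lb := (@Lb.d (nat_lit 8) (nat_lit 514) (nat_lit 64) (@Lb.g g9 (@Lb.g g11 (@Lb.r r328 (@Lb.r r663 (@Lb.r r2409 (@Lb.r r86 (@Lb.r r1188 (@Lb.d (nat_lit 5) (nat_lit 130) (nat_lit 4) (@Lb.fp (nat_lit 3) t2))))))))))
noncomputable def l8297 : Lb := (@Lb.r r82 (@Lb.d (nat_lit 5) (nat_lit 2) (nat_lit 128) (@Lb.g g8 (@Lb.g g9 (@Lb.g g11 (@Lb.r r2667 (@Lb.r r386 (@Lb.r r2212 (@Lb.r r2085 (@Lb.d (nat_lit 617) (nat_lit 66) (nat_lit 594) (@Lb.t (@Lb.fp (nat_lit 9) t98))))))))))))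
noncomputable def l8298 : Lb := (@Lb.r r323 (@Lb.d (nat_lit 5) (nat_lit 34) (nat_lit 2) (@Lb.g g8 (@Lb.g g9 (@Lb.g g10 (@Lb.r r2647 (@Lb.r r74 (@Lb.r r1320 (@Lb.r r1433 (@Lb.d (nat_lit 661) (nat_lit 21) (nat_lit 681) (@Lb.t (@Lb.fm (nat_lit 9) t51))))))))))))
noncomputable def l8299 : Lb := (@Lb.d (nat_lit 37) (nat_lit 2) (nat_lit 0) (@Lb.g g8 (@Lb.g g9 (@Lb.r r2411 (@Lb.r r1385 (@Lb.r r150 (@Lb.r r1124 (@Lb.d (nat_lit 282) (nat_lit 73) (nat_lit 649) (@Lb.fm (nat_lit 3) t51)))))))))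
noncomputable def l8300 : Lb := (@Lb.d (nat_lit 5) (nat_lit 2) (nat_lit 130) (@Lb.g g8 (@Lb.g g9 (@Lb.g g10 (@Lb.g g11 (@Lb.r r1451 (@Lb.r r1321 (@Lb.r r104 (@Lb.r r70 (@Lb.r r132 (@Lb.d (nat_lit 2) (nat_lit 74) (nat_lit 681) (@Lb.fp (nat_lit 9) t51))))))))))))
noncomputable def l8301 : Lb := (@Lb.d (nat_lit 0) (nat_lit 517) (nat_lit 0) (@Lb.g g5 (@Lb.d (nat_lit 0) (nat_lit 5) (nat_lit 130) (@Lb.t (@Lb.fm (nat_lit 3) t87)))))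
noncomputable def l8302 : Lb := (@Lb.d (nat_lit 298) (nat_lit 256) (nat_lit 529) (@Lb.r r150 (@Lb.r r72 (@Lb.r r293 (@Lb.r r2395 (@Lb.g g7 (@Lb.g g6 (@Lb.g g5 (@Lb.d (nat_lit 16) (nat_lit 1) (nat_lit 65) (@Lb.t (@Lb.fm (nat_lit 9) t1441)))))))))))
noncomputable def l8303 : Lb := (@Lb.g g5 (@Lb.g g10 (@Lb.g g7 (@Lb.r r402 (@Lb.d (nat_lit 0) (nat_lit 273) (nat_lit 10) (@Lb.t (@Lb.fp (nat_lit 9) t44)))))))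
noncomputable def l8304 : Lb := (@Lb.d (nat_lit 2) (nat_lit 256) (nat_lit 2) (@Lb.g g8 (@Lb.g g9 (@Lb.g g10 (@Lb.r r2731 (@Lb.r r1642 (@Lb.r r1561 (@Lb.d (nat_lit 585) (nat_lit 100) (nat_lit 416) (@Lb.t (@Lb.fp (nat_lit 9) t324))))))))))
noncomputable def l8305 : Lb := (@Lb.d (nat_lit 0) (nat_lit 256) (nat_lit 2) (@Lb.g g10 (@Lb.r r2435 (@Lb.r r386 (@Lb.r r101 (@Lb.r r24 (@Lb.d (nat_lit 577) (nat_lit 0) (nat_lit 132) (@Lb.t (@Lb.fm (nat_lit 3) t1150)))))))))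
noncomputable def l8306 : Lb := (@Lb.r r82 (@Lb.d (nat_lit 2) (nat_lit 258) (nat_lit 0) (@Lb.g g8 (@Lb.g g9 (@Lb.r r555 (@Lb.r r2713 (@Lb.r r146 (@Lb.d (nat_lit 353) (nat_lit 5) (nat_lit 26) (@Lb.fm (nat_lit 3) t2001)))))))))
noncomputable def l8307 : Lb := (@Lb.r r323 (@Lb.d (nat_lit 130) (nat_lit 260) (nat_lit 0) (@Lb.g g8 (@Lb.g g9 (@Lb.g g10 (@Lb.r r599 (@Lb.r r98 (@Lb.r r97 (@Lb.r r2312 (@Lb.d (nat_lit 386) (nat_lit 138) (nat_lit 550) (@Lb.t (@Lb.fp (nat_lit 9) t2060))))))))))))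
noncomputable def l8308 : Lb := (@Lb.d (nat_lit 133) (nat_lit 340) (nat_lit 582) (@Lb.r r24 (@Lb.r r97 (@Lb.r r386 (@Lb.r r343 (@Lb.g g7 (@Lb.g g6 (@Lb.g g5 (@Lb.d (nat_lit 0) (nat_lit 1) (nat_lit 65) (@Lb.t (@Lb.fm (nat_lit 9) t490)))))))))))
noncomputable def l8309 : Lb := (@Lb.d (nat_lit 81) (nat_lit 337) (nat_lit 581) (@Lb.r r680 (@Lb.r r289 (@Lb.r r426 (@Lb.g g11 (@Lb.g g8 (@Lb.d (nat_lit 17) (nat_lit 0) (nat_lit 0) (@Lb.fp (nat_lit 3) t501))))))))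
noncomputable def l8310 : Lb := (@Lb.d (nat_lit 0) (nat_lit 546) (nat_lit 66) (@Lb.g g8 (@Lb.g g9 (@Lb.g g10 (@Lb.g g11 (@Lb.r r387 (@Lb.r r1177 (@Lb.r r2458 (@Lb.r r24 (@Lb.d (nat_lit 593) (nat_lit 0) (nat_lit 169) (@Lb.fp (nat_lit 9) t2061)))))))))))
noncomputable def l8311 : Lb := (@Lb.d (nat_lit 130) (nat_lit 33) (nat_lit 0) (@Lb.g g8 (@Lb.g g9 (@Lb.r r2579 (@Lb.r r2178 (@Lb.r r1429 (@Lb.r r104 (@Lb.d (nat_lit 404) (nat_lit 5) (nat_lit 645) (@Lb.fp (nat_lit 3) t100)))))))))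
noncomputable def l8312 : Lb := (@Lb.r r21 (@Lb.r r326 (@Lb.d (nat_lit 160) (nat_lit 288) (nat_lit 128) (@Lb.g g8 (@Lb.g g11 (@Lb.r r2198 (@Lb.r r97 (@Lb.d (nat_lit 609) (nat_lit 129) (nat_lit 530) (@Lb.fm (nat_lit 3) t1377)))))))))
noncomputable def l8313 : Lb := (@Lb.d (nat_lit 130) (nat_lit 521) (nat_lit 2) (@Lb.g g8 (@Lb.g g9 (@Lb.g g10 (@Lb.r r643 (@Lb.r r169 (@Lb.r r618 (@Lb.r r104 (@Lb.d (nat_lit 164) (nat_lit 5) (nat_lit 72) (@Lb.t (@Lb.fp (nat_lit 9) t98)))))))))))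
noncomputable def l8314 : Lb := (@Lb.d (nat_lit 170) (nat_lit 168) (nat_lit 596) (@Lb.r r104 (@Lb.r r386 (@Lb.r r599 (@Lb.g g5 (@Lb.g g4 (@Lb.d (nat_lit 70) (nat_lit 152) (nat_lit 0) (@Lb.r r98 (@Lb.fp (nat_lit 3) t2062)))))))))
noncomputable def l8315 : Lb := (@Lb.d (nat_lit 8) (nat_lit 550) (nat_lit 128) (@Lb.g g9 (@Lb.g g10 (@Lb.g g11 (@Lb.r r387 (@Lb.r r1690 (@Lb.r r2328 (@Lb.r r2581 (@Lb.d (nat_lit 518) (nat_lit 162) (nat_lit 145) (@Lb.t (@Lb.fm (nat_lit 9) t1567)))))))))))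
noncomputable def l8316 : Lb := (@Lb.d (nat_lit 0) (nat_lit 256) (nat_lit 73) (@Lb.g g9 (@Lb.g g10 (@Lb.g g11 (@Lb.r r1555 (@Lb.r r2466 (@Lb.r r101 (@Lb.r r24 (@Lb.d (nat_lit 272) (nat_lit 0) (nat_lit 89) (@Lb.t (@Lb.fm (nat_lit 9) t1172)))))))))))
noncomputable def l8317 : Lb := (@Lb.d (nat_lit 128) (nat_lit 517) (nat_lit 128) (@Lb.g g9 (@Lb.g g10 (@Lb.g g11 (@Lb.r r264 (@Lb.r r519 (@Lb.r r618 (@Lb.r r609 (@Lb.d (nat_lit 130) (nat_lit 26) (nat_lit 130) (@Lb.t (@Lb.fp (nat_lit 9) t524)))))))))))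
noncomputable def l8318 : Lb := (@Lb.r r323 (@Lb.d (nat_lit 130) (nat_lit 4) (nat_lit 0) (@Lb.g g8 (@Lb.g g9 (@Lb.g g10 (@Lb.r r599 (@Lb.r r98 (@Lb.r r97 (@Lb.r r408 (@Lb.d (nat_lit 154) (nat_lit 148) (nat_lit 2) (@Lb.t (@Lb.fp (nat_lit 9) t2063))))))))))))
noncomputable def l8319 : Lb := (@Lb.d (nat_lit 533) (nat_lit 152) (nat_lit 336) (@Lb.r r1697 (@Lb.r r1387 (@Lb.r r264 (@Lb.g g7 (@Lb.g g10 (@Lb.g g5 (@Lb.d (nat_lit 68) (nat_lit 1) (nat_lit 81) (@Lb.r r36 (@Lb.t (@Lb.fm (nat_lit 9) t2064)))))))))))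
noncomputable def l8320 : Lb := (@Lb.d (nat_lit 546) (nat_lit 288) (nat_lit 0) (@Lb.g g8 (@Lb.g g9 (@Lb.r r1363 (@Lb.r r1634 (@Lb.r r2657 (@Lb.d (nat_lit 0) (nat_lit 169) (nat_lit 170) (@Lb.fp (nat_lit 3) t2065))))))))
noncomputable def l8321 : Lb := (@Lb.d (nat_lit 0) (nat_lit 266) (nat_lit 0) (@Lb.g g4 (@Lb.g g5 (@Lb.d (nat_lit 1) (nat_lit 5) (nat_lit 0) (@Lb.fm (nat_lit 3) t291)))))
noncomputable def l8322 : Lb := (@Lb.d (nat_lit 0) (nat_lit 10) (nat_lit 0) (@Lb.g g5 (@Lb.d (nat_lit 546) (nat_lit 5) (nat_lit 18) (@Lb.t (@Lb.fm (nat_lit 3) t2066)))))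
noncomputable def l8323 : Lb := (@Lb.d (nat_lit 0) (nat_lit 258) (nat_lit 0) (@Lb.g g9 (@Lb.r r2130 (@Lb.r r145 (@Lb.d (nat_lit 0) (nat_lit 72) (nat_lit 33) (@Lb.t (@Lb.fp (nat_lit 3) t2067)))))))
noncomputable def l8324 : Lb := (@Lb.d (nat_lit 0) (nat_lit 290) (nat_lit 0) (@Lb.g g5 (@Lb.r r1379 (@Lb.r r1618 (@Lb.r r1425 (@Lb.d (nat_lit 10) (nat_lit 4) (nat_lit 341) (@Lb.t (@Lb.fm (nat_lit 3) t2068))))))))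
noncomputable def l8325 : Lb := (@Lb.d (nat_lit 2) (nat_lit 265) (nat_lit 129) (@Lb.g g8 (@Lb.g g9 (@Lb.g g10 (@Lb.g g11 (@Lb.r r427 (@Lb.r r388 (@Lb.r r70 (@Lb.r r153 (@Lb.r r132 (@Lb.d (nat_lit 9) (nat_lit 73) (nat_lit 18) (@Lb.fp (nat_lit 9) t1640))))))))))))
noncomputable def l8326 : Lb := (@Lb.d (nat_lit 0) (nat_lit 10) (nat_lit 0) (@Lb.g g5 (@Lb.d (nat_lit 0) (nat_lit 5) (nat_lit 0) (@Lb.t (@Lb.fm (nat_lit 3) t291)))))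
noncomputable def l8327 : Lb := (@Lb.d (nat_lit 34) (nat_lit 256) (nat_lit 132) (@Lb.g g8 (@Lb.g g11 (@Lb.r r582 (@Lb.r r529 (@Lb.r r132 (@Lb.d (nat_lit 102) (nat_lit 1) (nat_lit 130) (@Lb.fm (nat_lit 3) t1425))))))))
noncomputable def l8328 : Lb := (@Lb.d (nat_lit 70) (nat_lit 65) (nat_lit 65) (@Lb.r r264 (@Lb.r r97 (@Lb.r r615 (@Lb.g g6 (@Lb.g g4 (@Lb.d (nat_lit 65) (nat_lit 4) (nat_lit 1) (@Lb.r r387 (@Lb.r r25 (@Lb.fp (nat_lit 3) t264))))))))))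
noncomputable def l8329 : Lb := (@Lb.r r21 (@Lb.d (nat_lit 129) (nat_lit 512) (nat_lit 132) (@Lb.g g8 (@Lb.g g10 (@Lb.g g11 (@Lb.r r1691 (@Lb.r r1689 (@Lb.r r1370 (@Lb.r r1348 (@Lb.d (nat_lit 393) (nat_lit 25) (nat_lit 586) (@Lb.t (@Lb.fp (nat_lit 9) t74))))))))))))
noncomputable def l8330 : Lb := (@Lb.d (nat_lit 70) (nat_lit 577) (nat_lit 65) (@Lb.r r264 (@Lb.r r97 (@Lb.r r615 (@Lb.g g6 (@Lb.g g4 (@Lb.d (nat_lit 66) (nat_lit 4) (nat_lit 1) (@Lb.r r387 (@Lb.r r25 (@Lb.fp (nat_lit 3) t264))))))))))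
noncomputable def l8331 : Lb := (@Lb.r r21 (@Lb.d (nat_lit 130) (nat_lit 512) (nat_lit 66) (@Lb.g g8 (@Lb.g g10 (@Lb.g g11 (@Lb.r r419 (@Lb.r r132 (@Lb.r r2438 (@Lb.r r97 (@Lb.d (nat_lit 361) (nat_lit 26) (nat_lit 420) (@Lb.t (@Lb.fm (nat_lit 9) t1377))))))))))))
noncomputable def l8332 : Lb := (@Lb.d (nat_lit 132) (nat_lit 517) (nat_lit 128) (@Lb.g g8 (@Lb.g g9 (@Lb.g g10 (@Lb.g g11 (@Lb.r r1415 (@Lb.r r164 (@Lb.r r2438 (@Lb.r r2721 (@Lb.d (nat_lit 361) (nat_lit 149) (nat_lit 150) (@Lb.fp (nat_lit 9) t1816)))))))))))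
noncomputable def l8333 : Lb := (@Lb.r r273 (@Lb.r r322 (@Lb.d (nat_lit 0) (nat_lit 512) (nat_lit 584) (@Lb.g g7 (@Lb.r r280 (@Lb.r r101 (@Lb.r r146 (@Lb.d (nat_lit 0) (nat_lit 145) (nat_lit 266) (@Lb.t (@Lb.fp (nat_lit 3) t2069))))))))))
noncomputable def l8334 : Lb := (@Lb.d (nat_lit 646) (nat_lit 600) (nat_lit 80) (@Lb.r r1301 (@Lb.r r1366 (@Lb.r r683 (@Lb.g g7 (@Lb.g g6 (@Lb.g g5 (@Lb.g g4 (@Lb.d (nat_lit 1) (nat_lit 1) (nat_lit 1) (@Lb.fm (nat_lit 9) t1409))))))))))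
noncomputable def l8335 : Lb := (@Lb.d (nat_lit 0) (nat_lit 261) (nat_lit 128) (@Lb.g g9 (@Lb.g g10 (@Lb.g g11 (@Lb.r r2403 (@Lb.r r386 (@Lb.r r2725 (@Lb.d (nat_lit 149) (nat_lit 153) (nat_lit 420) (@Lb.t (@Lb.fm (nat_lit 9) t2070))))))))))
noncomputable def l8336 : Lb := (@Lb.d (nat_lit 2) (nat_lit 353) (nat_lit 8) (@Lb.g g8 (@Lb.g g5 (@Lb.g g10 (@Lb.r r2371 (@Lb.r r2690 (@Lb.r r24 (@Lb.d (nat_lit 5) (nat_lit 128) (nat_lit 533) (@Lb.t (@Lb.fp (nat_lit 9) t154))))))))))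
noncomputable def l8337 : Lb := (@Lb.d (nat_lit 0) (nat_lit 9) (nat_lit 130) (@Lb.g g9 (@Lb.g g10 (@Lb.g g11 (@Lb.r r1634 (@Lb.r r97 (@Lb.d (nat_lit 0) (nat_lit 100) (nat_lit 678) (@Lb.t (@Lb.fp (nat_lit 9) t225)))))))))
noncomputable def l8338 : Lb := (@Lb.d (nat_lit 402) (nat_lit 10) (nat_lit 96) (@Lb.r r146 (@Lb.r r2389 (@Lb.g g7 (@Lb.g g5 (@Lb.g g4 (@Lb.d (nat_lit 1) (nat_lit 0) (nat_lit 128) (@Lb.r r98 (@Lb.t (@Lb.fm (nat_lit 9) t2071))))))))))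
noncomputable def l8339 : Lb := (@Lb.r r82 (@Lb.d (nat_lit 2) (nat_lit 545) (nat_lit 0) (@Lb.g g8 (@Lb.g g5 (@Lb.r r515 (@Lb.r r146 (@Lb.r r24 (@Lb.d (nat_lit 10) (nat_lit 128) (nat_lit 330) (@Lb.fm (nat_lit 3) t548)))))))))
noncomputable def l8340 : Lb := (@Lb.d (nat_lit 2) (nat_lit 550) (nat_lit 133) (@Lb.g g8 (@Lb.g g9 (@Lb.g g10 (@Lb.g g11 (@Lb.r r1706 (@Lb.r r680 (@Lb.r r555 (@Lb.r r1573 (@Lb.r r20 (@Lb.d (nat_lit 1) (nat_lit 129) (nat_lit 330) (@Lb.fp (nat_lit 9) t278))))))))))))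
noncomputable def l8341 : Lb := (@Lb.d (nat_lit 298) (nat_lit 517) (nat_lit 596) (@Lb.r r150 (@Lb.r r72 (@Lb.r r293 (@Lb.r r2395 (@Lb.g g7 (@Lb.g g6 (@Lb.g g5 (@Lb.d (nat_lit 16) (nat_lit 1) (nat_lit 65) (@Lb.t (@Lb.fm (nat_lit 9) t1278)))))))))))
noncomputable def l8342 : Lb := (@Lb.d (nat_lit 0) (nat_lit 0) (nat_lit 2) (@Lb.g g10 (@Lb.r r2193 (@Lb.r r146 (@Lb.d (nat_lit 0) (nat_lit 70) (nat_lit 32) (@Lb.t (@Lb.fm (nat_lit 3) t1404)))))))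
noncomputable def l8343 : Lb := (@Lb.d (nat_lit 2) (nat_lit 550) (nat_lit 10) (@Lb.g g8 (@Lb.g g9 (@Lb.g g10 (@Lb.g g11 (@Lb.r r1706 (@Lb.r r273 (@Lb.r r1700 (@Lb.r r1575 (@Lb.d (nat_lit 1) (nat_lit 97) (nat_lit 266) (@Lb.fp (nat_lit 9) t264)))))))))))
noncomputable def l8344 : Lb := (@Lb.d (nat_lit 0) (nat_lit 258) (nat_lit 128) (@Lb.g g9 (@Lb.g g10 (@Lb.g g11 (@Lb.r r1634 (@Lb.r r2657 (@Lb.d (nat_lit 0) (nat_lit 25) (nat_lit 16) (@Lb.t (@Lb.fp (nat_lit 9) t1405)))))))))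
noncomputable def l8345 : Lb := (@Lb.r r355 (@Lb.d (nat_lit 8) (nat_lit 520) (nat_lit 34) (@Lb.g g9 (@Lb.g g10 (@Lb.r r2627 (@Lb.r r664 (@Lb.r r1365 (@Lb.d (nat_lit 646) (nat_lit 86) (nat_lit 402) (@Lb.fm (nat_lit 3) t1567)))))))))
noncomputable def l8346 : Lb := (@Lb.d (nat_lit 130) (nat_lit 9) (nat_lit 40) (@Lb.g g8 (@Lb.g g9 (@Lb.g g6 (@Lb.r r2455 (@Lb.r r617 (@Lb.r r1572 (@Lb.d (nat_lit 681) (nat_lit 24) (nat_lit 674) (@Lb.t (@Lb.fm (nat_lit 9) t2072))))))))))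
noncomputable def l8347 : Lb := (@Lb.d (nat_lit 2) (nat_lit 265) (nat_lit 65) (@Lb.g g8 (@Lb.g g9 (@Lb.g g10 (@Lb.g g7 (@Lb.r r2466 (@Lb.r r292 (@Lb.r r405 (@Lb.r r2084 (@Lb.d (nat_lit 608) (nat_lit 90) (nat_lit 345) (@Lb.fp (nat_lit 9) t2073)))))))))))
noncomputable def l8348 : Lb := (@Lb.d (nat_lit 101) (nat_lit 298) (nat_lit 294) (@Lb.r r24 (@Lb.r r97 (@Lb.r r2438 (@Lb.g g11 (@Lb.g g6 (@Lb.g g5 (@Lb.d (nat_lit 0) (nat_lit 1) (nat_lit 128) (@Lb.t (@Lb.fp (nat_lit 9) t1320))))))))))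
noncomputable def l8349 : Lb := (@Lb.r r21 (@Lb.d (nat_lit 33) (nat_lit 256) (nat_lit 129) (@Lb.g g8 (@Lb.g g6 (@Lb.g g11 (@Lb.r r529 (@Lb.r r1627 (@Lb.r r1604 (@Lb.d (nat_lit 681) (nat_lit 2) (nat_lit 664) (@Lb.t (@Lb.fm (nat_lit 9) t1108)))))))))))
noncomputable def l8350 : Lb := (@Lb.d (nat_lit 0) (nat_lit 520) (nat_lit 2) (@Lb.g g10 (@Lb.r r1427 (@Lb.r r101 (@Lb.r r24 (@Lb.d (nat_lit 292) (nat_lit 64) (nat_lit 34) (@Lb.t (@Lb.fp (nat_lit 3) t2074))))))))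
noncomputable def l8351 : Lb := (@Lb.d (nat_lit 0) (nat_lit 650) (nat_lit 258) (@Lb.r r402 (@Lb.g g11 (@Lb.t (@Lb.fm (nat_lit 3) t305)))))
noncomputable def l8352 : Lb := (@Lb.d (nat_lit 0) (nat_lit 4) (nat_lit 128) (@Lb.g g8 (@Lb.g g9 (@Lb.g g10 (@Lb.g g11 (@Lb.r r427 (@Lb.r r388 (@Lb.r r70 (@Lb.r r153 (@Lb.r r132 (@Lb.d (nat_lit 10) (nat_lit 8) (nat_lit 18) (@Lb.fp (nat_lit 9) t390))))))))))))
noncomputable def l8353 : Lb := (@Lb.d (nat_lit 0) (nat_lit 4) (nat_lit 128) (@Lb.g g8 (@Lb.g g9 (@Lb.g g10 (@Lb.g g11 (@Lb.r r427 (@Lb.r r388 (@Lb.r r70 (@Lb.r r153 (@Lb.r r132 (@Lb.d (nat_lit 9) (nat_lit 130) (nat_lit 2) (@Lb.fp (nat_lit 9) t337))))))))))))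
noncomputable def l8354 : Lb := (@Lb.d (nat_lit 2) (nat_lit 0) (nat_lit 0) (@Lb.g g8 (@Lb.g g9 (@Lb.r r386 (@Lb.r r2371 (@Lb.r r578 (@Lb.r r36 (@Lb.d (nat_lit 6) (nat_lit 0) (nat_lit 0) (@Lb.fp (nat_lit 3) t2)))))))))
noncomputable def l8355 : Lb := (@Lb.r r82 (@Lb.d (nat_lit 32) (nat_lit 2) (nat_lit 128) (@Lb.g g8 (@Lb.g g9 (@Lb.g g11 (@Lb.r r363 (@Lb.r r582 (@Lb.r r388 (@Lb.d (nat_lit 98) (nat_lit 8) (nat_lit 18) (@Lb.t (@Lb.fm (nat_lit 9) t390)))))))))))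
noncomputable def l8356 : Lb := (@Lb.d (nat_lit 2) (nat_lit 512) (nat_lit 66) (@Lb.g g8 (@Lb.g g9 (@Lb.g g10 (@Lb.g g11 (@Lb.r r1681 (@Lb.r r356 (@Lb.r r154 (@Lb.r r132 (@Lb.d (nat_lit 388) (nat_lit 146) (nat_lit 133) (@Lb.fm (nat_lit 9) t907)))))))))))
noncomputable def l8357 : Lb := (@Lb.r r1045 (@Lb.r r36 (@Lb.d (nat_lit 256) (nat_lit 256) (nat_lit 0) (@Lb.fp (nat_lit 1) t2))))
noncomputable def l8358 : Lb := (@Lb.d (nat_lit 2) (nat_lit 521) (nat_lit 72) (@Lb.g g8 (@Lb.g g9 (@Lb.g g10 (@Lb.g g11 (@Lb.r r1699 (@Lb.r r346 (@Lb.r r2585 (@Lb.d (nat_lit 664) (nat_lit 169) (nat_lit 416) (@Lb.fm (nat_lit 9) t50))))))))))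
noncomputable def l8359 : Lb := (@Lb.d (nat_lit 1) (nat_lit 514) (nat_lit 130) (@Lb.g g8 (@Lb.g g9 (@Lb.g g10 (@Lb.g g11 (@Lb.r r2691 (@Lb.r r297 (@Lb.r r360 (@Lb.r r582 (@Lb.r r2180 (@Lb.d (nat_lit 641) (nat_lit 5) (nat_lit 328) (@Lb.fm (nat_lit 9) t242))))))))))))
noncomputable def l8360 : Lb := (@Lb.d (nat_lit 2) (nat_lit 265) (nat_lit 72) (@Lb.g g8 (@Lb.g g9 (@Lb.g g10 (@Lb.g g11 (@Lb.r r1699 (@Lb.r r346 (@Lb.r r2585 (@Lb.d (nat_lit 664) (nat_lit 162) (nat_lit 417) (@Lb.fm (nat_lit 9) t50))))))))))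
noncomputable def l8361 : Lb := (@Lb.d (nat_lit 2) (nat_lit 265) (nat_lit 72) (@Lb.g g8 (@Lb.g g9 (@Lb.g g10 (@Lb.g g11 (@Lb.r r1706 (@Lb.r r680 (@Lb.r r555 (@Lb.r r1573 (@Lb.r r1044 (@Lb.d (nat_lit 649) (nat_lit 65) (nat_lit 330) (@Lb.fp (nat_lit 9) t125))))))))))))
noncomputable def l8362 : Lb := (@Lb.d (nat_lit 1) (nat_lit 2) (nat_lit 73) (@Lb.g g8 (@Lb.g g9 (@Lb.g g10 (@Lb.g g11 (@Lb.r r610 (@Lb.r r579 (@Lb.r r1129 (@Lb.r r36 (@Lb.d (nat_lit 148) (nat_lit 1) (nat_lit 324) (@Lb.fp (nat_lit 9) t61)))))))))))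
noncomputable def l8363 : Lb := (@Lb.d (nat_lit 0) (nat_lit 10) (nat_lit 64) (@Lb.g g8 (@Lb.g g9 (@Lb.g g11 (@Lb.r r582 (@Lb.r r408 (@Lb.r r615 (@Lb.r r533 (@Lb.d (nat_lit 4) (nat_lit 169) (nat_lit 386) (@Lb.t (@Lb.fm (nat_lit 9) t242)))))))))))
noncomputable def l8364 : Lb := (@Lb.d (nat_lit 8) (nat_lit 34) (nat_lit 0) (@Lb.g g9 (@Lb.r r283 (@Lb.r r134 (@Lb.r r276 (@Lb.r r617 (@Lb.d (nat_lit 97) (nat_lit 73) (nat_lit 18) (@Lb.t (@Lb.fp (nat_lit 3) t334)))))))))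
noncomputable def l8365 : Lb := (@Lb.d (nat_lit 601) (nat_lit 410) (nat_lit 549) (@Lb.r r1380 (@Lb.r r2475 (@Lb.r r409 (@Lb.r r1382 (@Lb.g g4 (@Lb.d (nat_lit 22) (nat_lit 0) (nat_lit 0) (@Lb.r r74 (@Lb.t (@Lb.fm (nat_lit 3) t2075))))))))))
noncomputable def l8366 : Lb := (@Lb.d (nat_lit 128) (nat_lit 256) (nat_lit 64) (@Lb.g g11 (@Lb.r r586 (@Lb.r r24 (@Lb.r r405 (@Lb.r r611 (@Lb.d (nat_lit 0) (nat_lit 154) (nat_lit 394) (@Lb.t (@Lb.fp (nat_lit 3) t242)))))))))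
noncomputable def l8367 : Lb := (@Lb.r r82 (@Lb.r r275 (@Lb.d (nat_lit 2) (nat_lit 258) (nat_lit 0) (@Lb.g g8 (@Lb.g g9 (@Lb.r r281 (@Lb.r r291 (@Lb.r r98 (@Lb.d (nat_lit 129) (nat_lit 34) (nat_lit 64) (@Lb.fm (nat_lit 3) t5))))))))))
noncomputable def l8368 : Lb := (@Lb.d (nat_lit 149) (nat_lit 594) (nat_lit 641) (@Lb.r r289 (@Lb.r r70 (@Lb.r r420 (@Lb.g g11 (@Lb.g g6 (@Lb.d (nat_lit 16) (nat_lit 0) (nat_lit 1) (@Lb.fm (nat_lit 3) t501))))))))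
noncomputable def l8369 : Lb := (@Lb.d (nat_lit 128) (nat_lit 320) (nat_lit 640) (@Lb.r r145 (@Lb.r r658 (@Lb.r r675 (@Lb.r r665 (@Lb.g g4 (@Lb.d (nat_lit 1) (nat_lit 0) (nat_lit 0) (@Lb.t (@Lb.fm (nat_lit 3) t390)))))))))
noncomputable def l8370 : Lb := (@Lb.d (nat_lit 128) (nat_lit 64) (nat_lit 517) (@Lb.r r145 (@Lb.r r658 (@Lb.r r675 (@Lb.r r665 (@Lb.g g4 (@Lb.d (nat_lit 1) (nat_lit 0) (nat_lit 0) (@Lb.t (@Lb.fm (nat_lit 3) t390)))))))))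
noncomputable def l8371 : Lb := (@Lb.d (nat_lit 16) (nat_lit 512) (nat_lit 2) (@Lb.g g6 (@Lb.r r328 (@Lb.r r407 (@Lb.r r609 (@Lb.d (nat_lit 0) (nat_lit 1) (nat_lit 17) (@Lb.t (@Lb.fm (nat_lit 3) t334))))))))
noncomputable def l8372 : Lb := (@Lb.r r323 (@Lb.d (nat_lit 130) (nat_lit 290) (nat_lit 2) (@Lb.g g8 (@Lb.g g9 (@Lb.g g10 (@Lb.r r263 (@Lb.r r358 (@Lb.r r536 (@Lb.d (nat_lit 88) (nat_lit 38) (nat_lit 130) (@Lb.t (@Lb.fp (nat_lit 9) t145)))))))))))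
noncomputable def l8373 : Lb := (@Lb.d (nat_lit 0) (nat_lit 514) (nat_lit 0) (@Lb.g g9 (@Lb.r r1122 (@Lb.r r97 (@Lb.d (nat_lit 5) (nat_lit 69) (nat_lit 34) (@Lb.t (@Lb.fm (nat_lit 3) t2076)))))))
noncomputable def l8374 : Lb := (@Lb.d (nat_lit 274) (nat_lit 513) (nat_lit 80) (@Lb.r r2120 (@Lb.r r1362 (@Lb.r r423 (@Lb.r r293 (@Lb.g g7 (@Lb.g g6 (@Lb.g g4 (@Lb.d (nat_lit 0) (nat_lit 4) (nat_lit 65) (@Lb.t (@Lb.fp (nat_lit 9) t512)))))))))))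
noncomputable def l8375 : Lb := (@Lb.d (nat_lit 0) (nat_lit 0) (nat_lit 128) (@Lb.g g11 (@Lb.r r545 (@Lb.r r299 (@Lb.r r328 (@Lb.r r134 (@Lb.d (nat_lit 5) (nat_lit 6) (nat_lit 1) (@Lb.t (@Lb.fm (nat_lit 3) t40)))))))))
noncomputable def l8376 : Lb := (@Lb.r r323 (@Lb.d (nat_lit 2) (nat_lit 4) (nat_lit 0) (@Lb.g g8 (@Lb.g g9 (@Lb.g g10 (@Lb.r r1433 (@Lb.r r2339 (@Lb.r r74 (@Lb.d (nat_lit 129) (nat_lit 0) (nat_lit 362) (@Lb.t (@Lb.fm (nat_lit 9) t1812)))))))))))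
noncomputable def l8377 : Lb := (@Lb.d (nat_lit 8) (nat_lit 4) (nat_lit 0) (@Lb.g g9 (@Lb.g g10 (@Lb.r r2435 (@Lb.r r386 (@Lb.r r1304 (@Lb.r r533 (@Lb.d (nat_lit 165) (nat_lit 34) (nat_lit 88) (@Lb.fm (nat_lit 3) t2077)))))))))
noncomputable def l8378 : Lb := (@Lb.d (nat_lit 0) (nat_lit 512) (nat_lit 130) (@Lb.g g9 (@Lb.g g10 (@Lb.g g11 (@Lb.r r2658 (@Lb.d (nat_lit 0) (nat_lit 164) (nat_lit 682) (@Lb.t (@Lb.fm (nat_lit 9) t479))))))))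
noncomputable def l8379 : Lb := (@Lb.r r323 (@Lb.d (nat_lit 2) (nat_lit 260) (nat_lit 0) (@Lb.g g8 (@Lb.g g9 (@Lb.g g10 (@Lb.r r1433 (@Lb.r r2339 (@Lb.r r74 (@Lb.d (nat_lit 129) (nat_lit 10) (nat_lit 361) (@Lb.t (@Lb.fm (nat_lit 9) t2078)))))))))))
noncomputable def l8380 : Lb := (@Lb.d (nat_lit 160) (nat_lit 256) (nat_lit 578) (@Lb.g g9 (@Lb.g g10 (@Lb.g g11 (@Lb.r r2713 (@Lb.r r100 (@Lb.r r410 (@Lb.d (nat_lit 644) (nat_lit 82) (nat_lit 105) (@Lb.t (@Lb.fp (nat_lit 9) t1767))))))))))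
noncomputable def l8381 : Lb := (@Lb.d (nat_lit 32) (nat_lit 512) (nat_lit 130) (@Lb.g g9 (@Lb.g g10 (@Lb.g g11 (@Lb.r r2695 (@Lb.r r1352 (@Lb.r r2390 (@Lb.r r289 (@Lb.d (nat_lit 656) (nat_lit 74) (nat_lit 362) (@Lb.t (@Lb.fp (nat_lit 9) t1425)))))))))))
noncomputable def l8382 : Lb := (@Lb.d (nat_lit 356) (nat_lit 132) (nat_lit 100) (@Lb.r r97 (@Lb.r r1702 (@Lb.r r2711 (@Lb.r r328 (@Lb.g g7 (@Lb.g g6 (@Lb.g g5 (@Lb.d (nat_lit 20) (nat_lit 2) (nat_lit 74) (@Lb.t (@Lb.fp (nat_lit 9) t2079)))))))))))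
noncomputable def l8383 : Lb := (@Lb.d (nat_lit 32) (nat_lit 641) (nat_lit 74) (@Lb.g g9 (@Lb.g g10 (@Lb.g g11 (@Lb.r r344 (@Lb.r r679 (@Lb.r r2658 (@Lb.d (nat_lit 292) (nat_lit 90) (nat_lit 289) (@Lb.t (@Lb.fm (nat_lit 9) t578))))))))))
noncomputable def l8384 : Lb := (@Lb.d (nat_lit 0) (nat_lit 272) (nat_lit 596) (@Lb.r r1362 (@Lb.r r2691 (@Lb.g g7 (@Lb.g g6 (@Lb.g g5 (@Lb.d (nat_lit 0) (nat_lit 0) (nat_lit 65) (@Lb.t (@Lb.fm (nat_lit 9) t2080)))))))))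
noncomputable def l8385 : Lb := (@Lb.d (nat_lit 320) (nat_lit 405) (nat_lit 326) (@Lb.r r579 (@Lb.r r1446 (@Lb.r r2197 (@Lb.r r360 (@Lb.g g7 (@Lb.g g6 (@Lb.d (nat_lit 64) (nat_lit 4) (nat_lit 128) (@Lb.fp (nat_lit 3) t2081)))))))))
noncomputable def l8386 : Lb := (@Lb.d (nat_lit 0) (nat_lit 617) (nat_lit 356) (@Lb.r r146 (@Lb.r r2385 (@Lb.g g7 (@Lb.g g6 (@Lb.g g5 (@Lb.d (nat_lit 0) (nat_lit 5) (nat_lit 2) (@Lb.t (@Lb.fm (nat_lit 9) t24)))))))))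
noncomputable def l8387 : Lb := (@Lb.d (nat_lit 358) (nat_lit 665) (nat_lit 150) (@Lb.r r2663 (@Lb.r r264 (@Lb.r r105 (@Lb.r r150 (@Lb.g g7 (@Lb.g g5 (@Lb.d (nat_lit 64) (nat_lit 2) (nat_lit 128) (@Lb.fm (nat_lit 3) t1096)))))))))
noncomputable def l8388 : Lb := (@Lb.d (nat_lit 356) (nat_lit 644) (nat_lit 100) (@Lb.r r97 (@Lb.r r1702 (@Lb.r r2711 (@Lb.r r328 (@Lb.g g7 (@Lb.g g6 (@Lb.g g5 (@Lb.d (nat_lit 20) (nat_lit 2) (nat_lit 128) (@Lb.t (@Lb.fp (nat_lit 9) t2081)))))))))))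
noncomputable def l8389 : Lb := (@Lb.r r81 (@Lb.d (nat_lit 128) (nat_lit 288) (nat_lit 105) (@Lb.g g10 (@Lb.g g11 (@Lb.r r361 (@Lb.r r360 (@Lb.r r663 (@Lb.d (nat_lit 168) (nat_lit 106) (nat_lit 25) (@Lb.fp (nat_lit 3) t2032)))))))))
noncomputable def l8390 : Lb := (@Lb.d (nat_lit 6) (nat_lit 72) (nat_lit 2) (@Lb.r r289 (@Lb.r r279 (@Lb.r r584 (@Lb.r r326 (@Lb.g g7 (@Lb.g g6 (@Lb.g g5 (@Lb.d (nat_lit 4) (nat_lit 1) (nat_lit 65) (@Lb.t (@Lb.fp (nat_lit 9) t74)))))))))))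
noncomputable def l8391 : Lb := (@Lb.d (nat_lit 32) (nat_lit 38) (nat_lit 64) (@Lb.g g9 (@Lb.g g10 (@Lb.g g11 (@Lb.r r2709 (@Lb.r r356 (@Lb.r r667 (@Lb.r r2634 (@Lb.d (nat_lit 97) (nat_lit 74) (nat_lit 289) (@Lb.t (@Lb.fp (nat_lit 9) t1791)))))))))))
noncomputable def l8392 : Lb := (@Lb.r r82 (@Lb.d (nat_lit 2) (nat_lit 258) (nat_lit 0) (@Lb.g g8 (@Lb.g g9 (@Lb.r r1561 (@Lb.r r2579 (@Lb.r r578 (@Lb.d (nat_lit 390) (nat_lit 8) (nat_lit 642) (@Lb.fp (nat_lit 3) t2082)))))))))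
noncomputable def l8393 : Lb := (@Lb.d (nat_lit 640) (nat_lit 581) (nat_lit 577) (@Lb.r r293 (@Lb.r r2392 (@Lb.r r1447 (@Lb.r r2390 (@Lb.g g7 (@Lb.g g5 (@Lb.d (nat_lit 0) (nat_lit 6) (nat_lit 64) (@Lb.fm (nat_lit 3) t2079)))))))))
noncomputable def l8394 : Lb := (@Lb.d (nat_lit 2) (nat_lit 258) (nat_lit 2) (@Lb.g g8 (@Lb.g g9 (@Lb.g g10 (@Lb.r r683 (@Lb.r r1634 (@Lb.r r1572 (@Lb.r r1637 (@Lb.d (nat_lit 405) (nat_lit 150) (nat_lit 153) (@Lb.t (@Lb.fm (nat_lit 9) t1122)))))))))))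
noncomputable def l8395 : Lb := (@Lb.d (nat_lit 4) (nat_lit 544) (nat_lit 2) (@Lb.g g8 (@Lb.g g9 (@Lb.g g10 (@Lb.r r1194 (@Lb.r r2468 (@Lb.r r1307 (@Lb.r r1573 (@Lb.d (nat_lit 389) (nat_lit 16) (nat_lit 640) (@Lb.t (@Lb.fm (nat_lit 9) t284)))))))))))
noncomputable def l8396 : Lb := (@Lb.d (nat_lit 0) (nat_lit 512) (nat_lit 130) (@Lb.g g9 (@Lb.g g10 (@Lb.g g11 (@Lb.r r2658 (@Lb.d (nat_lit 0) (nat_lit 89) (nat_lit 256) (@Lb.t (@Lb.fm (nat_lit 9) t479))))))))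
noncomputable def l8397 : Lb := (@Lb.d (nat_lit 128) (nat_lit 0) (nat_lit 64) (@Lb.g g11 (@Lb.r r361 (@Lb.r r292 (@Lb.r r539 (@Lb.r r134 (@Lb.d (nat_lit 586) (nat_lit 34) (nat_lit 37) (@Lb.t (@Lb.fm (nat_lit 3) t40)))))))))
noncomputable def l8398 : Lb := (@Lb.r r21 (@Lb.d (nat_lit 33) (nat_lit 512) (nat_lit 1) (@Lb.g g8 (@Lb.g g10 (@Lb.r r651 (@Lb.r r1556 (@Lb.r r153 (@Lb.r r602 (@Lb.d (nat_lit 393) (nat_lit 101) (nat_lit 280) (@Lb.fp (nat_lit 3) t428))))))))))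
noncomputable def l8399 : Lb := (@Lb.r r21 (@Lb.d (nat_lit 10) (nat_lit 0) (nat_lit 2) (@Lb.g g8 (@Lb.g g10 (@Lb.r r667 (@Lb.r r2405 (@Lb.r r1178 (@Lb.r r1156 (@Lb.d (nat_lit 346) (nat_lit 65) (nat_lit 406) (@Lb.fp (nat_lit 3) t284))))))))))
noncomputable def l8400 : Lb := (@Lb.g g7 (@Lb.d (nat_lit 0) (nat_lit 600) (nat_lit 521) (@Lb.t (@Lb.fm (nat_lit 3) t633))))
noncomputable def l8401 : Lb := (@Lb.d (nat_lit 2) (nat_lit 520) (nat_lit 2) (@Lb.g g8 (@Lb.g g10 (@Lb.r r1563 (@Lb.r r1317 (@Lb.r r2628 (@Lb.r r1434 (@Lb.d (nat_lit 10) (nat_lit 6) (nat_lit 545) (@Lb.fp (nat_lit 3) t1663)))))))))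
noncomputable def l8402 : Lb := (@Lb.d (nat_lit 10) (nat_lit 512) (nat_lit 0) (@Lb.g g8 (@Lb.g g7 (@Lb.r r402 (@Lb.r r149 (@Lb.r r168 (@Lb.d (nat_lit 292) (nat_lit 6) (nat_lit 512) (@Lb.fp (nat_lit 3) t145))))))))
noncomputable def l8403 : Lb := (@Lb.d (nat_lit 32) (nat_lit 256) (nat_lit 73) (@Lb.g g10 (@Lb.g g11 (@Lb.r r289 (@Lb.r r1380 (@Lb.r r2715 (@Lb.r r2634 (@Lb.d (nat_lit 340) (nat_lit 74) (nat_lit 257) (@Lb.fm (nat_lit 3) t427)))))))))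
noncomputable def l8404 : Lb := (@Lb.r r21 (@Lb.d (nat_lit 10) (nat_lit 8) (nat_lit 130) (@Lb.g g8 (@Lb.g g10 (@Lb.g g11 (@Lb.r r353 (@Lb.r r1431 (@Lb.r r2632 (@Lb.r r390 (@Lb.d (nat_lit 98) (nat_lit 0) (nat_lit 609) (@Lb.t (@Lb.fp (nat_lit 9) t2))))))))))))
noncomputable def l8405 : Lb := (@Lb.d (nat_lit 2) (nat_lit 265) (nat_lit 129) (@Lb.g g8 (@Lb.g g9 (@Lb.g g10 (@Lb.g g11 (@Lb.r r427 (@Lb.r r1177 (@Lb.r r146 (@Lb.d (nat_lit 545) (nat_lit 5) (nat_lit 16) (@Lb.fm (nat_lit 9) t2083))))))))))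
noncomputable def l8406 : Lb := (@Lb.r r21 (@Lb.d (nat_lit 10) (nat_lit 256) (nat_lit 66) (@Lb.g g8 (@Lb.g g10 (@Lb.g g11 (@Lb.r r2343 (@Lb.r r2405 (@Lb.r r1178 (@Lb.r r1156 (@Lb.d (nat_lit 600) (nat_lit 1) (nat_lit 406) (@Lb.t (@Lb.fm (nat_lit 9) t284))))))))))))
noncomputable def l8407 : Lb := (@Lb.d (nat_lit 2) (nat_lit 512) (nat_lit 64) (@Lb.g g8 (@Lb.g g11 (@Lb.r r602 (@Lb.r r584 (@Lb.r r619 (@Lb.r r609 (@Lb.d (nat_lit 517) (nat_lit 130) (nat_lit 596) (@Lb.fp (nat_lit 3) t670)))))))))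
noncomputable def l8408 : Lb := (@Lb.r r21 (@Lb.d (nat_lit 10) (nat_lit 256) (nat_lit 66) (@Lb.g g8 (@Lb.g g10 (@Lb.g g11 (@Lb.r r2343 (@Lb.r r2405 (@Lb.r r1178 (@Lb.r r1156 (@Lb.d (nat_lit 592) (nat_lit 2) (nat_lit 406) (@Lb.t (@Lb.fm (nat_lit 9) t284))))))))))))
noncomputable def l8409 : Lb := (@Lb.d (nat_lit 149) (nat_lit 82) (nat_lit 641) (@Lb.r r289 (@Lb.r r70 (@Lb.r r420 (@Lb.g g11 (@Lb.g g6 (@Lb.d (nat_lit 16) (nat_lit 0) (nat_lit 129) (@Lb.fm (nat_lit 3) t1436))))))))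
noncomputable def l8410 : Lb := (@Lb.d (nat_lit 6) (nat_lit 512) (nat_lit 66) (@Lb.g g8 (@Lb.g g9 (@Lb.g g10 (@Lb.g g11 (@Lb.r r2327 (@Lb.r r616 (@Lb.r r86 (@Lb.r r2213 (@Lb.r r2068 (@Lb.d (nat_lit 545) (nat_lit 2) (nat_lit 169) (@Lb.fp (nat_lit 9) t284))))))))))))
noncomputable def l8411 : Lb := (@Lb.d (nat_lit 168) (nat_lit 0) (nat_lit 66) (@Lb.g g9 (@Lb.g g10 (@Lb.g g11 (@Lb.r r72 (@Lb.r r86 (@Lb.r r2465 (@Lb.r r1555 (@Lb.d (nat_lit 390) (nat_lit 162) (nat_lit 534) (@Lb.t (@Lb.fp (nat_lit 9) t2)))))))))))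
noncomputable def l8412 : Lb := (@Lb.d (nat_lit 0) (nat_lit 0) (nat_lit 66) (@Lb.g g8 (@Lb.g g9 (@Lb.g g10 (@Lb.g g11 (@Lb.r r420 (@Lb.r r603 (@Lb.r r1429 (@Lb.r r1366 (@Lb.r r2724 (@Lb.d (nat_lit 262) (nat_lit 130) (nat_lit 18) (@Lb.fm (nat_lit 9) t2))))))))))))
noncomputable def l8413 : Lb := (@Lb.d (nat_lit 2) (nat_lit 256) (nat_lit 0) (@Lb.g g8 (@Lb.r r341 (@Lb.r r675 (@Lb.r r658 (@Lb.r r81 (@Lb.d (nat_lit 64) (nat_lit 128) (nat_lit 256) (@Lb.t (@Lb.fp (nat_lit 3) t242)))))))))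
noncomputable def l8414 : Lb := (@Lb.r r1045 (@Lb.d (nat_lit 261) (nat_lit 512) (nat_lit 130) (@Lb.g g4 (@Lb.g g10 (@Lb.g g11 (@Lb.r r2658 (@Lb.r r579 (@Lb.d (nat_lit 8) (nat_lit 160) (nat_lit 640) (@Lb.t (@Lb.fm (nat_lit 9) t51))))))))))
noncomputable def l8415 : Lb := (@Lb.d (nat_lit 128) (nat_lit 521) (nat_lit 1) (@Lb.g g8 (@Lb.g g9 (@Lb.g g10 (@Lb.r r263 (@Lb.r r2378 (@Lb.r r2709 (@Lb.r r548 (@Lb.d (nat_lit 130) (nat_lit 132) (nat_lit 356) (@Lb.t (@Lb.fm (nat_lit 9) t329)))))))))))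
noncomputable def l8416 : Lb := (@Lb.d (nat_lit 393) (nat_lit 80) (nat_lit 522) (@Lb.r r1685 (@Lb.r r662 (@Lb.r r600 (@Lb.r r347 (@Lb.g g7 (@Lb.g g6 (@Lb.g g5 (@Lb.d (nat_lit 8) (nat_lit 1) (nat_lit 65) (@Lb.t (@Lb.fp (nat_lit 9) t68)))))))))))
noncomputable def l8417 : Lb := (@Lb.r r82 (@Lb.d (nat_lit 0) (nat_lit 34) (nat_lit 64) (@Lb.g g9 (@Lb.g g11 (@Lb.r r1575 (@Lb.r r386 (@Lb.r r2136 (@Lb.r r1061 (@Lb.d (nat_lit 409) (nat_lit 102) (nat_lit 394) (@Lb.fm (nat_lit 3) t152))))))))))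
noncomputable def l8418 : Lb := (@Lb.d (nat_lit 0) (nat_lit 0) (nat_lit 66) (@Lb.g g10 (@Lb.g g11 (@Lb.r r1447 (@Lb.r r386 (@Lb.r r2196 (@Lb.r r1049 (@Lb.d (nat_lit 610) (nat_lit 69) (nat_lit 138) (@Lb.fp (nat_lit 3) t61)))))))))
noncomputable def l8419 : Lb := (@Lb.r r82 (@Lb.d (nat_lit 0) (nat_lit 41) (nat_lit 64) (@Lb.g g8 (@Lb.g g9 (@Lb.g g11 (@Lb.r r1635 (@Lb.r r2454 (@Lb.r r1621 (@Lb.d (nat_lit 292) (nat_lit 104) (nat_lit 665) (@Lb.t (@Lb.fm (nat_lit 9) t50)))))))))))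
noncomputable def l8420 : Lb := (@Lb.d (nat_lit 392) (nat_lit 336) (nat_lit 522) (@Lb.r r1685 (@Lb.r r662 (@Lb.r r600 (@Lb.r r347 (@Lb.g g7 (@Lb.g g6 (@Lb.g g5 (@Lb.d (nat_lit 8) (nat_lit 1) (nat_lit 65) (@Lb.t (@Lb.fp (nat_lit 9) t68)))))))))))
noncomputable def l8421 : Lb := (@Lb.d (nat_lit 0) (nat_lit 2) (nat_lit 130) (@Lb.g g9 (@Lb.g g10 (@Lb.g g11 (@Lb.r r2407 (@Lb.r r386 (@Lb.r r148 (@Lb.r r25 (@Lb.d (nat_lit 512) (nat_lit 5) (nat_lit 138) (@Lb.t (@Lb.fp (nat_lit 9) t61)))))))))))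
noncomputable def l8422 : Lb := (@Lb.r r263 (@Lb.d (nat_lit 22) (nat_lit 512) (nat_lit 0) (@Lb.g g8 (@Lb.g g9 (@Lb.g g10 (@Lb.r r1689 (@Lb.r r343 (@Lb.r r2698 (@Lb.r r520 (@Lb.d (nat_lit 73) (nat_lit 2) (nat_lit 81) (@Lb.t (@Lb.fm (nat_lit 9) t86))))))))))))
noncomputable def l8423 : Lb := (@Lb.d (nat_lit 0) (nat_lit 32) (nat_lit 130) (@Lb.g g8 (@Lb.g g10 (@Lb.g g11 (@Lb.r r618 (@Lb.r r149 (@Lb.r r340 (@Lb.r r2587 (@Lb.d (nat_lit 328) (nat_lit 73) (nat_lit 258) (@Lb.t (@Lb.fp (nat_lit 9) t71)))))))))))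
noncomputable def l8424 : Lb := (@Lb.r r82 (@Lb.d (nat_lit 32) (nat_lit 2) (nat_lit 128) (@Lb.g g8 (@Lb.g g9 (@Lb.g g11 (@Lb.r r2658 (@Lb.r r2667 (@Lb.r r2664 (@Lb.r r2073 (@Lb.d (nat_lit 2) (nat_lit 153) (nat_lit 138) (@Lb.t (@Lb.fm (nat_lit 9) t847))))))))))))
noncomputable def l8425 : Lb := (@Lb.d (nat_lit 160) (nat_lit 512) (nat_lit 129) (@Lb.g g6 (@Lb.g g11 (@Lb.r r264 (@Lb.r r519 (@Lb.r r537 (@Lb.d (nat_lit 105) (nat_lit 166) (nat_lit 329) (@Lb.fp (nat_lit 3) t857))))))))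
noncomputable def l8426 : Lb := (@Lb.d (nat_lit 1) (nat_lit 341) (nat_lit 345) (@Lb.r r2401 (@Lb.r r1431 (@Lb.r r584 (@Lb.r r402 (@Lb.g g7 (@Lb.g g5 (@Lb.d (nat_lit 4) (nat_lit 5) (nat_lit 64) (@Lb.fp (nat_lit 3) t2084)))))))))
noncomputable def l8427 : Lb := (@Lb.d (nat_lit 582) (nat_lit 385) (nat_lit 512) (@Lb.r r24 (@Lb.r r2145 (@Lb.r r2710 (@Lb.r r579 (@Lb.g g7 (@Lb.g g6 (@Lb.g g4 (@Lb.d (nat_lit 1) (nat_lit 0) (nat_lit 134) (@Lb.t (@Lb.fp (nat_lit 9) t2085)))))))))))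
noncomputable def l8428 : Lb := (@Lb.d (nat_lit 160) (nat_lit 256) (nat_lit 129) (@Lb.g g6 (@Lb.g g11 (@Lb.r r264 (@Lb.r r519 (@Lb.r r537 (@Lb.d (nat_lit 98) (nat_lit 164) (nat_lit 329) (@Lb.fp (nat_lit 3) t857))))))))
noncomputable def l8429 : Lb := (@Lb.d (nat_lit 138) (nat_lit 321) (nat_lit 0) (@Lb.r r289 (@Lb.r r279 (@Lb.r r584 (@Lb.r r358 (@Lb.g g7 (@Lb.d (nat_lit 0) (nat_lit 0) (nat_lit 64) (@Lb.t (@Lb.fm (nat_lit 3) t510)))))))))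
noncomputable def l8430 : Lb := (@Lb.d (nat_lit 10) (nat_lit 544) (nat_lit 64) (@Lb.g g8 (@Lb.g g11 (@Lb.r r166 (@Lb.r r149 (@Lb.r r360 (@Lb.r r615 (@Lb.d (nat_lit 153) (nat_lit 8) (nat_lit 134) (@Lb.fp (nat_lit 3) t71)))))))))
noncomputable def l8431 : Lb := (@Lb.d (nat_lit 4) (nat_lit 0) (nat_lit 130) (@Lb.g g8 (@Lb.g g9 (@Lb.g g10 (@Lb.g g11 (@Lb.r r2691 (@Lb.r r297 (@Lb.r r360 (@Lb.r r582 (@Lb.r r2180 (@Lb.d (nat_lit 642) (nat_lit 0) (nat_lit 330) (@Lb.fm (nat_lit 9) t242))))))))))))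
noncomputable def l8432 : Lb := (@Lb.d (nat_lit 2) (nat_lit 514) (nat_lit 66) (@Lb.g g8 (@Lb.g g9 (@Lb.g g10 (@Lb.g g11 (@Lb.r r580 (@Lb.r r426 (@Lb.r r1449 (@Lb.r r2327 (@Lb.r r1572 (@Lb.d (nat_lit 1) (nat_lit 129) (nat_lit 90) (@Lb.fp (nat_lit 9) t2))))))))))))
noncomputable def l8433 : Lb := (@Lb.d (nat_lit 521) (nat_lit 128) (nat_lit 256) (@Lb.r r20 (@Lb.r r2145 (@Lb.r r402 (@Lb.r r1291 (@Lb.g g11 (@Lb.t (@Lb.fp (nat_lit 3) t580))))))))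
noncomputable def l8434 : Lb := (@Lb.d (nat_lit 0) (nat_lit 2) (nat_lit 0) (@Lb.g g9 (@Lb.r r1122 (@Lb.r r97 (@Lb.d (nat_lit 0) (nat_lit 68) (nat_lit 34) (@Lb.t (@Lb.fm (nat_lit 3) t1076)))))))
noncomputable def l8435 : Lb := (@Lb.d (nat_lit 2) (nat_lit 514) (nat_lit 2) (@Lb.g g8 (@Lb.g g9 (@Lb.g g10 (@Lb.g g11 (@Lb.r r169 (@Lb.r r296 (@Lb.r r391 (@Lb.r r386 (@Lb.r r132 (@Lb.d (nat_lit 0) (nat_lit 10) (nat_lit 89) (@Lb.fm (nat_lit 9) t590))))))))))))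
noncomputable def l8436 : Lb := (@Lb.d (nat_lit 581) (nat_lit 266) (nat_lit 137) (@Lb.r r657 (@Lb.r r406 (@Lb.r r88 (@Lb.r r2587 (@Lb.g g7 (@Lb.g g6 (@Lb.g g5 (@Lb.d (nat_lit 4) (nat_lit 0) (nat_lit 68) (@Lb.t (@Lb.fm (nat_lit 9) t1491)))))))))))
noncomputable def l8437 : Lb := (@Lb.d (nat_lit 10) (nat_lit 256) (nat_lit 128) (@Lb.g g8 (@Lb.g g11 (@Lb.r r293 (@Lb.r r2587 (@Lb.r r2658 (@Lb.r r2584 (@Lb.d (nat_lit 585) (nat_lit 66) (nat_lit 384) (@Lb.fp (nat_lit 3) t2086)))))))))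
noncomputable def l8438 : Lb := (@Lb.d (nat_lit 581) (nat_lit 33) (nat_lit 73) (@Lb.r r281 (@Lb.r r404 (@Lb.r r2667 (@Lb.g g10 (@Lb.g g5 (@Lb.d (nat_lit 32) (nat_lit 4) (nat_lit 18) (@Lb.r r403 (@Lb.fm (nat_lit 3) t795)))))))))
noncomputable def l8439 : Lb := (@Lb.d (nat_lit 2) (nat_lit 9) (nat_lit 129) (@Lb.g g8 (@Lb.g g9 (@Lb.g g10 (@Lb.g g11 (@Lb.r r2729 (@Lb.r r2475 (@Lb.r r2468 (@Lb.r r2438 (@Lb.d (nat_lit 614) (nat_lit 74) (nat_lit 617) (@Lb.fp (nat_lit 9) t1834)))))))))))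
noncomputable def l8440 : Lb := (@Lb.r r82 (@Lb.d (nat_lit 161) (nat_lit 577) (nat_lit 128) (@Lb.g g8 (@Lb.g g9 (@Lb.g g11 (@Lb.r r291 (@Lb.r r1414 (@Lb.r r2628 (@Lb.d (nat_lit 658) (nat_lit 37) (nat_lit 550) (@Lb.t (@Lb.fp (nat_lit 9) t1895)))))))))))
noncomputable def l8441 : Lb := (@Lb.d (nat_lit 10) (nat_lit 2) (nat_lit 64) (@Lb.r r289 (@Lb.r r535 (@Lb.r r328 (@Lb.r r134 (@Lb.g g5 (@Lb.t (@Lb.fm (nat_lit 3) t40))))))))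
noncomputable def l8442 : Lb := (@Lb.d (nat_lit 33) (nat_lit 260) (nat_lit 130) (@Lb.g g8 (@Lb.g g9 (@Lb.g g10 (@Lb.g g11 (@Lb.r r148 (@Lb.r r2150 (@Lb.r r357 (@Lb.r r667 (@Lb.r r644 (@Lb.d (nat_lit 521) (nat_lit 2) (nat_lit 362) (@Lb.fp (nat_lit 9) t148))))))))))))
noncomputable def l8443 : Lb := (@Lb.d (nat_lit 2) (nat_lit 265) (nat_lit 129) (@Lb.g g8 (@Lb.g g9 (@Lb.g g10 (@Lb.g g11 (@Lb.r r169 (@Lb.r r2154 (@Lb.r r612 (@Lb.r r1287 (@Lb.r r2564 (@Lb.d (nat_lit 2) (nat_lit 90) (nat_lit 161) (@Lb.fm (nat_lit 9) t393))))))))))))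
noncomputable def l8444 : Lb := (@Lb.d (nat_lit 281) (nat_lit 345) (nat_lit 8) (@Lb.r r1361 (@Lb.r r1094 (@Lb.r r2339 (@Lb.g g6 (@Lb.g g5 (@Lb.g g4 (@Lb.d (nat_lit 2) (nat_lit 16) (nat_lit 1) (@Lb.t (@Lb.fp (nat_lit 9) t1075))))))))))
noncomputable def l8445 : Lb := (@Lb.d (nat_lit 0) (nat_lit 514) (nat_lit 128) (@Lb.g g9 (@Lb.g g11 (@Lb.r r1561 (@Lb.r r2651 (@Lb.r r1414 (@Lb.r r1096 (@Lb.d (nat_lit 289) (nat_lit 10) (nat_lit 1) (@Lb.fp (nat_lit 3) t2087)))))))))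
noncomputable def l8446 : Lb := (@Lb.g g4 (@Lb.g g7 (@Lb.r r584 (@Lb.r r1547 (@Lb.r r1170 (@Lb.r r2145 (@Lb.r r1540 (@Lb.d (nat_lit 1) (nat_lit 400) (nat_lit 320) (@Lb.fm (nat_lit 3) t51)))))))))
noncomputable def l8447 : Lb := (@Lb.d (nat_lit 42) (nat_lit 256) (nat_lit 0) (@Lb.g g8 (@Lb.g g7 (@Lb.r r614 (@Lb.r r1637 (@Lb.r r1428 (@Lb.d (nat_lit 358) (nat_lit 90) (nat_lit 66) (@Lb.fm (nat_lit 3) t572))))))))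
noncomputable def l8448 : Lb := (@Lb.d (nat_lit 0) (nat_lit 546) (nat_lit 0) (@Lb.g g9 (@Lb.r r1619 (@Lb.r r1414 (@Lb.r r1096 (@Lb.d (nat_lit 265) (nat_lit 1) (nat_lit 0) (@Lb.t (@Lb.fm (nat_lit 3) t468))))))))
noncomputable def l8449 : Lb := (@Lb.d (nat_lit 0) (nat_lit 290) (nat_lit 0) (@Lb.g g9 (@Lb.r r1619 (@Lb.r r1414 (@Lb.r r1096 (@Lb.d (nat_lit 266) (nat_lit 1) (nat_lit 0) (@Lb.t (@Lb.fm (nat_lit 3) t468))))))))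
noncomputable def l8450 : Lb := (@Lb.g g7 (@Lb.r r402 (@Lb.r r101 (@Lb.r r24 (@Lb.d (nat_lit 536) (nat_lit 521) (nat_lit 544) (@Lb.t (@Lb.fp (nat_lit 3) t145)))))))
noncomputable def l8451 : Lb := (@Lb.d (nat_lit 1) (nat_lit 2) (nat_lit 130) (@Lb.g g8 (@Lb.g g9 (@Lb.g g10 (@Lb.g g11 (@Lb.r r2411 (@Lb.r r386 (@Lb.r r97 (@Lb.r r24 (@Lb.d (nat_lit 265) (nat_lit 9) (nat_lit 152) (@Lb.fm (nat_lit 9) t61)))))))))))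
noncomputable def l8452 : Lb := (@Lb.g g7 (@Lb.r r402 (@Lb.r r101 (@Lb.r r24 (@Lb.d (nat_lit 529) (nat_lit 266) (nat_lit 544) (@Lb.t (@Lb.fp (nat_lit 3) t145)))))))
noncomputable def l8453 : Lb := (@Lb.d (nat_lit 146) (nat_lit 514) (nat_lit 128) (@Lb.g g8 (@Lb.g g9 (@Lb.g g10 (@Lb.g g11 (@Lb.r r1706 (@Lb.r r1411 (@Lb.r r2201 (@Lb.r r2180 (@Lb.d (nat_lit 553) (nat_lit 90) (nat_lit 169) (@Lb.fm (nat_lit 9) t531)))))))))))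
noncomputable def l8454 : Lb := (@Lb.d (nat_lit 149) (nat_lit 326) (nat_lit 425) (@Lb.r r2661 (@Lb.r r1304 (@Lb.r r2659 (@Lb.r r326 (@Lb.g g7 (@Lb.g g6 (@Lb.g g4 (@Lb.d (nat_lit 2) (nat_lit 0) (nat_lit 65) (@Lb.t (@Lb.fm (nat_lit 9) t2088)))))))))))
noncomputable def l8455 : Lb := (@Lb.d (nat_lit 145) (nat_lit 2) (nat_lit 74) (@Lb.g g8 (@Lb.g g9 (@Lb.g g10 (@Lb.g g11 (@Lb.r r683 (@Lb.r r2410 (@Lb.r r1561 (@Lb.r r1540 (@Lb.d (nat_lit 393) (nat_lit 90) (nat_lit 5) (@Lb.fm (nat_lit 9) t531)))))))))))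
noncomputable def l8456 : Lb := (@Lb.d (nat_lit 152) (nat_lit 520) (nat_lit 73) (@Lb.g g8 (@Lb.g g9 (@Lb.g g10 (@Lb.g g11 (@Lb.r r683 (@Lb.r r2410 (@Lb.r r1301 (@Lb.r r1540 (@Lb.d (nat_lit 80) (nat_lit 25) (nat_lit 533) (@Lb.fm (nat_lit 9) t2089)))))))))))
noncomputable def l8457 : Lb := (@Lb.d (nat_lit 613) (nat_lit 288) (nat_lit 597) (@Lb.r r24 (@Lb.r r1445 (@Lb.r r1350 (@Lb.r r2667 (@Lb.g g6 (@Lb.g g5 (@Lb.d (nat_lit 0) (nat_lit 8) (nat_lit 0) (@Lb.r r387 (@Lb.fp (nat_lit 3) t2090))))))))))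
noncomputable def l8458 : Lb := (@Lb.d (nat_lit 145) (nat_lit 2) (nat_lit 74) (@Lb.g g8 (@Lb.g g9 (@Lb.g g10 (@Lb.g g11 (@Lb.r r683 (@Lb.r r2410 (@Lb.r r548 (@Lb.r r37 (@Lb.d (nat_lit 362) (nat_lit 33) (nat_lit 21) (@Lb.fp (nat_lit 9) t283)))))))))))
noncomputable def l8459 : Lb := (@Lb.d (nat_lit 261) (nat_lit 513) (nat_lit 70) (@Lb.r r21 (@Lb.r r100 (@Lb.r r386 (@Lb.r r1435 (@Lb.g g7 (@Lb.g g6 (@Lb.g g5 (@Lb.d (nat_lit 0) (nat_lit 1) (nat_lit 65) (@Lb.t (@Lb.fm (nat_lit 9) t418)))))))))))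
noncomputable def l8460 : Lb := (@Lb.d (nat_lit 2) (nat_lit 2) (nat_lit 162) (@Lb.g g8 (@Lb.g g9 (@Lb.g g6 (@Lb.g g11 (@Lb.r r2667 (@Lb.r r97 (@Lb.r r2584 (@Lb.d (nat_lit 90) (nat_lit 169) (nat_lit 417) (@Lb.fp (nat_lit 9) t777))))))))))
noncomputable def l8461 : Lb := (@Lb.r r275 (@Lb.d (nat_lit 0) (nat_lit 256) (nat_lit 2) (@Lb.g g9 (@Lb.g g10 (@Lb.r r2458 (@Lb.r r2395 (@Lb.r r1429 (@Lb.r r36 (@Lb.d (nat_lit 356) (nat_lit 133) (nat_lit 545) (@Lb.fp (nat_lit 3) t898))))))))))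
noncomputable def l8462 : Lb := (@Lb.d (nat_lit 2) (nat_lit 258) (nat_lit 2) (@Lb.g g8 (@Lb.g g9 (@Lb.g g10 (@Lb.g g11 (@Lb.r r355 (@Lb.r r386 (@Lb.r r1129 (@Lb.r r36 (@Lb.d (nat_lit 261) (nat_lit 1) (nat_lit 84) (@Lb.fp (nat_lit 9) t61)))))))))))
noncomputable def l8463 : Lb := (@Lb.d (nat_lit 0) (nat_lit 258) (nat_lit 2) (@Lb.g g9 (@Lb.g g10 (@Lb.g g11 (@Lb.r r2407 (@Lb.r r386 (@Lb.r r148 (@Lb.r r25 (@Lb.d (nat_lit 522) (nat_lit 4) (nat_lit 69) (@Lb.t (@Lb.fp (nat_lit 9) t61)))))))))))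
noncomputable def l8464 : Lb := (@Lb.d (nat_lit 0) (nat_lit 2) (nat_lit 2) (@Lb.g g9 (@Lb.g g10 (@Lb.g g11 (@Lb.r r2407 (@Lb.r r386 (@Lb.r r148 (@Lb.r r25 (@Lb.d (nat_lit 512) (nat_lit 5) (nat_lit 69) (@Lb.t (@Lb.fp (nat_lit 9) t61)))))))))))
noncomputable def l8465 : Lb := (@Lb.r r1045 (@Lb.d (nat_lit 261) (nat_lit 512) (nat_lit 68) (@Lb.g g4 (@Lb.g g10 (@Lb.g g11 (@Lb.r r419 (@Lb.r r578 (@Lb.d (nat_lit 8) (nat_lit 96) (nat_lit 5) (@Lb.t (@Lb.fp (nat_lit 9) t51))))))))))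
noncomputable def l8466 : Lb := (@Lb.d (nat_lit 2) (nat_lit 0) (nat_lit 130) (@Lb.g g8 (@Lb.g g9 (@Lb.g g10 (@Lb.g g11 (@Lb.r r1451 (@Lb.r r409 (@Lb.r r2138 (@Lb.r r1169 (@Lb.d (nat_lit 520) (nat_lit 9) (nat_lit 18) (@Lb.fp (nat_lit 9) t221)))))))))))
noncomputable def l8467 : Lb := (@Lb.r r1045 (@Lb.d (nat_lit 261) (nat_lit 520) (nat_lit 130) (@Lb.g g4 (@Lb.g g10 (@Lb.g g11 (@Lb.r r387 (@Lb.d (nat_lit 8) (nat_lit 72) (nat_lit 136) (@Lb.t (@Lb.fp (nat_lit 9) t51)))))))))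
noncomputable def l8468 : Lb := (@Lb.d (nat_lit 8) (nat_lit 290) (nat_lit 0) (@Lb.g g9 (@Lb.r r1626 (@Lb.r r603 (@Lb.r r600 (@Lb.r r1429 (@Lb.d (nat_lit 357) (nat_lit 90) (nat_lit 9) (@Lb.t (@Lb.fp (nat_lit 3) t1558)))))))))
noncomputable def l8469 : Lb := (@Lb.d (nat_lit 34) (nat_lit 8) (nat_lit 102) (@Lb.r r70 (@Lb.r r392 (@Lb.r r599 (@Lb.g g6 (@Lb.g g5 (@Lb.g g4 (@Lb.d (nat_lit 1) (nat_lit 80) (nat_lit 1) (@Lb.r r387 (@Lb.t (@Lb.fp (nat_lit 9) t758)))))))))))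
noncomputable def l8470 : Lb := (@Lb.d (nat_lit 2) (nat_lit 257) (nat_lit 128) (@Lb.g g8 (@Lb.g g9 (@Lb.g g11 (@Lb.r r170 (@Lb.r r420 (@Lb.r r283 (@Lb.r r529 (@Lb.d (nat_lit 8) (nat_lit 106) (nat_lit 73) (@Lb.t (@Lb.fp (nat_lit 9) t51)))))))))))
noncomputable def l8471 : Lb := (@Lb.d (nat_lit 2) (nat_lit 513) (nat_lit 0) (@Lb.g g8 (@Lb.g g9 (@Lb.r r170 (@Lb.r r676 (@Lb.r r551 (@Lb.r r529 (@Lb.d (nat_lit 0) (nat_lit 41) (nat_lit 73) (@Lb.fm (nat_lit 3) t51)))))))))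
noncomputable def l8472 : Lb := (@Lb.d (nat_lit 257) (nat_lit 261) (nat_lit 33) (@Lb.r r597 (@Lb.r r1386 (@Lb.r r1096 (@Lb.r r1371 (@Lb.g g7 (@Lb.g g6 (@Lb.g g5 (@Lb.d (nat_lit 0) (nat_lit 0) (nat_lit 64) (@Lb.t (@Lb.fm (nat_lit 9) t466)))))))))))
noncomputable def l8473 : Lb := (@Lb.r r21 (@Lb.d (nat_lit 2) (nat_lit 552) (nat_lit 1) (@Lb.g g8 (@Lb.g g6 (@Lb.g g11 (@Lb.r r149 (@Lb.r r360 (@Lb.r r391 (@Lb.d (nat_lit 96) (nat_lit 34) (nat_lit 6) (@Lb.t (@Lb.fm (nat_lit 9) t242)))))))))))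
noncomputable def l8474 : Lb := (@Lb.d (nat_lit 34) (nat_lit 520) (nat_lit 33) (@Lb.r r70 (@Lb.r r392 (@Lb.r r599 (@Lb.g g6 (@Lb.g g5 (@Lb.g g4 (@Lb.d (nat_lit 0) (nat_lit 17) (nat_lit 1) (@Lb.r r387 (@Lb.t (@Lb.fp (nat_lit 9) t242)))))))))))
noncomputable def l8475 : Lb := (@Lb.d (nat_lit 34) (nat_lit 264) (nat_lit 102) (@Lb.r r70 (@Lb.r r392 (@Lb.r r599 (@Lb.g g6 (@Lb.g g5 (@Lb.g g4 (@Lb.d (nat_lit 0) (nat_lit 80) (nat_lit 1) (@Lb.r r387 (@Lb.t (@Lb.fp (nat_lit 9) t758)))))))))))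
noncomputable def l8476 : Lb := (@Lb.d (nat_lit 34) (nat_lit 520) (nat_lit 166) (@Lb.r r70 (@Lb.r r392 (@Lb.r r599 (@Lb.g g6 (@Lb.g g5 (@Lb.g g4 (@Lb.d (nat_lit 1) (nat_lit 17) (nat_lit 1) (@Lb.r r387 (@Lb.t (@Lb.fp (nat_lit 9) t242)))))))))))
noncomputable def l8477 : Lb := (@Lb.g g4 (@Lb.g g11 (@Lb.r r273 (@Lb.r r1703 (@Lb.r r1606 (@Lb.r r2408 (@Lb.r r153 (@Lb.d (nat_lit 0) (nat_lit 274) (nat_lit 357) (@Lb.fp (nat_lit 3) t660)))))))))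
noncomputable def l8478 : Lb := (@Lb.d (nat_lit 2) (nat_lit 513) (nat_lit 0) (@Lb.g g8 (@Lb.g g9 (@Lb.g g11 (@Lb.r r353 (@Lb.r r594 (@Lb.r r2391 (@Lb.r r1624 (@Lb.r r149 (@Lb.d (nat_lit 0) (nat_lit 164) (nat_lit 642) (@Lb.t (@Lb.fm (nat_lit 9) t660))))))))))))
noncomputable def l8479 : Lb := (@Lb.d (nat_lit 40) (nat_lit 2) (nat_lit 130) (@Lb.g g9 (@Lb.g g10 (@Lb.g g11 (@Lb.r r2695 (@Lb.r r1352 (@Lb.r r2390 (@Lb.r r1425 (@Lb.d (nat_lit 132) (nat_lit 66) (nat_lit 330) (@Lb.t (@Lb.fm (nat_lit 9) t1255)))))))))))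
noncomputable def l8480 : Lb := (@Lb.d (nat_lit 656) (nat_lit 0) (nat_lit 290) (@Lb.g g11 (@Lb.d (nat_lit 0) (nat_lit 0) (nat_lit 136) (@Lb.t (@Lb.fp (nat_lit 3) t441)))))
noncomputable def l8481 : Lb := (@Lb.d (nat_lit 9) (nat_lit 1) (nat_lit 130) (@Lb.g g8 (@Lb.g g9 (@Lb.g g10 (@Lb.g g11 (@Lb.r r427 (@Lb.r r145 (@Lb.r r356 (@Lb.r r154 (@Lb.r r132 (@Lb.d (nat_lit 8) (nat_lit 9) (nat_lit 153) (@Lb.fm (nat_lit 9) t221))))))))))))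
noncomputable def l8482 : Lb := (@Lb.d (nat_lit 33) (nat_lit 256) (nat_lit 8) (@Lb.r r154 (@Lb.r r404 (@Lb.r r363 (@Lb.r r353 (@Lb.g g7 (@Lb.g g4 (@Lb.d (nat_lit 5) (nat_lit 0) (nat_lit 64) (@Lb.fm (nat_lit 3) t51)))))))))
noncomputable def l8483 : Lb := (@Lb.d (nat_lit 8) (nat_lit 258) (nat_lit 66) (@Lb.g g9 (@Lb.g g10 (@Lb.g g11 (@Lb.r r1451 (@Lb.r r98 (@Lb.d (nat_lit 96) (nat_lit 9) (nat_lit 596) (@Lb.t (@Lb.fm (nat_lit 9) t899)))))))))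
noncomputable def l8484 : Lb := (@Lb.d (nat_lit 8) (nat_lit 258) (nat_lit 66) (@Lb.g g9 (@Lb.g g10 (@Lb.g g11 (@Lb.r r1451 (@Lb.r r98 (@Lb.d (nat_lit 401) (nat_lit 9) (nat_lit 425) (@Lb.t (@Lb.fm (nat_lit 9) t899)))))))))
noncomputable def l8485 : Lb := (@Lb.d (nat_lit 0) (nat_lit 520) (nat_lit 130) (@Lb.g g10 (@Lb.g g11 (@Lb.r r387 (@Lb.d (nat_lit 0) (nat_lit 162) (nat_lit 529) (@Lb.fm (nat_lit 3) t305))))))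
noncomputable def l8486 : Lb := (@Lb.d (nat_lit 128) (nat_lit 256) (nat_lit 136) (@Lb.g g11 (@Lb.r r613 (@Lb.r r410 (@Lb.r r2452 (@Lb.r r1323 (@Lb.d (nat_lit 642) (nat_lit 34) (nat_lit 402) (@Lb.t (@Lb.fp (nat_lit 3) t39)))))))))
noncomputable def l8487 : Lb := (@Lb.d (nat_lit 42) (nat_lit 512) (nat_lit 128) (@Lb.g g8 (@Lb.g g11 (@Lb.r r545 (@Lb.r r619 (@Lb.r r326 (@Lb.r r1672 (@Lb.d (nat_lit 602) (nat_lit 74) (nat_lit 532) (@Lb.fp (nat_lit 3) t39)))))))))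
noncomputable def l8488 : Lb := (@Lb.d (nat_lit 128) (nat_lit 256) (nat_lit 136) (@Lb.g g11 (@Lb.r r613 (@Lb.r r410 (@Lb.r r2452 (@Lb.r r1643 (@Lb.d (nat_lit 610) (nat_lit 26) (nat_lit 649) (@Lb.t (@Lb.fm (nat_lit 3) t39)))))))))
noncomputable def l8489 : Lb := (@Lb.r r323 (@Lb.d (nat_lit 8) (nat_lit 554) (nat_lit 2) (@Lb.g g9 (@Lb.g g10 (@Lb.r r2470 (@Lb.r r1624 (@Lb.r r1691 (@Lb.r r2385 (@Lb.d (nat_lit 258) (nat_lit 152) (nat_lit 676) (@Lb.fp (nat_lit 3) t2091))))))))))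
noncomputable def l8490 : Lb := (@Lb.r r280 (@Lb.r r1383 (@Lb.r r2178 (@Lb.r r1429 (@Lb.r r1572 (@Lb.d (nat_lit 0) (nat_lit 322) (nat_lit 16) (@Lb.fp (nat_lit 1) t307)))))))
noncomputable def l8491 : Lb := (@Lb.d (nat_lit 88) (nat_lit 425) (nat_lit 640) (@Lb.r r168 (@Lb.r r89 (@Lb.r r402 (@Lb.g g11 (@Lb.g g6 (@Lb.g g4 (@Lb.d (nat_lit 5) (nat_lit 0) (nat_lit 128) (@Lb.t (@Lb.fm (nat_lit 9) t2092))))))))))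
noncomputable def l8492 : Lb := (@Lb.r r82 (@Lb.d (nat_lit 2) (nat_lit 546) (nat_lit 0) (@Lb.g g8 (@Lb.g g9 (@Lb.g g11 (@Lb.r r537 (@Lb.r r531 (@Lb.r r98 (@Lb.d (nat_lit 129) (nat_lit 17) (nat_lit 69) (@Lb.t (@Lb.fp (nat_lit 9) t5)))))))))))
noncomputable def l8493 : Lb := (@Lb.r r70 (@Lb.d (nat_lit 20) (nat_lit 0) (nat_lit 0) (@Lb.g g8 (@Lb.g g9 (@Lb.r r1706 (@Lb.r r1687 (@Lb.r r1553 (@Lb.r r548 (@Lb.d (nat_lit 294) (nat_lit 17) (nat_lit 402) (@Lb.fm (nat_lit 3) t2093))))))))))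
noncomputable def l8494 : Lb := (@Lb.d (nat_lit 40) (nat_lit 169) (nat_lit 646) (@Lb.r r168 (@Lb.r r89 (@Lb.r r386 (@Lb.g g11 (@Lb.g g6 (@Lb.g g4 (@Lb.d (nat_lit 5) (nat_lit 0) (nat_lit 129) (@Lb.t (@Lb.fm (nat_lit 9) t2094))))))))))
noncomputable def l8495 : Lb := (@Lb.d (nat_lit 0) (nat_lit 421) (nat_lit 646) (@Lb.r r20 (@Lb.r r105 (@Lb.r r36 (@Lb.r r386 (@Lb.g g11 (@Lb.g g6 (@Lb.g g5 (@Lb.g g4 (@Lb.d (nat_lit 1) (nat_lit 0) (nat_lit 129) (@Lb.fm (nat_lit 9) t2094)))))))))))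
noncomputable def l8496 : Lb := (@Lb.d (nat_lit 149) (nat_lit 144) (nat_lit 1) (@Lb.r r596 (@Lb.r r2130 (@Lb.r r2647 (@Lb.g g6 (@Lb.g g5 (@Lb.g g4 (@Lb.d (nat_lit 65) (nat_lit 65) (nat_lit 1) (@Lb.r r387 (@Lb.t (@Lb.fm (nat_lit 9) t791)))))))))))
noncomputable def l8497 : Lb := (@Lb.r r21 (@Lb.d (nat_lit 130) (nat_lit 8) (nat_lit 34) (@Lb.g g8 (@Lb.g g10 (@Lb.r r295 (@Lb.r r357 (@Lb.r r660 (@Lb.d (nat_lit 165) (nat_lit 37) (nat_lit 4) (@Lb.fp (nat_lit 3) t145)))))))))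
noncomputable def l8498 : Lb := (@Lb.d (nat_lit 104) (nat_lit 37) (nat_lit 6) (@Lb.r r101 (@Lb.r r386 (@Lb.r r339 (@Lb.g g7 (@Lb.g g6 (@Lb.d (nat_lit 0) (nat_lit 0) (nat_lit 65) (@Lb.fm (nat_lit 3) t50))))))))
noncomputable def l8499 : Lb := (@Lb.d (nat_lit 106) (nat_lit 293) (nat_lit 6) (@Lb.r r101 (@Lb.r r386 (@Lb.r r339 (@Lb.g g7 (@Lb.g g6 (@Lb.d (nat_lit 0) (nat_lit 0) (nat_lit 65) (@Lb.fm (nat_lit 3) t50))))))))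
noncomputable def l8500 : Lb := (@Lb.d (nat_lit 0) (nat_lit 321) (nat_lit 136) (@Lb.r r609 (@Lb.r r363 (@Lb.r r328 (@Lb.r r70 (@Lb.g g6 (@Lb.g g4 (@Lb.d (nat_lit 1) (nat_lit 0) (nat_lit 2) (@Lb.fm (nat_lit 3) t1105)))))))))
noncomputable def l8501 : Lb := (@Lb.d (nat_lit 6) (nat_lit 582) (nat_lit 1) (@Lb.r r289 (@Lb.r r279 (@Lb.r r584 (@Lb.r r326 (@Lb.g g7 (@Lb.g g6 (@Lb.g g5 (@Lb.d (nat_lit 4) (nat_lit 8) (nat_lit 64) (@Lb.t (@Lb.fp (nat_lit 9) t151)))))))))))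
noncomputable def l8502 : Lb := (@Lb.r r81 (@Lb.r r323 (@Lb.g g10 (@Lb.r r1697 (@Lb.r r299 (@Lb.r r2376 (@Lb.r r1158 (@Lb.d (nat_lit 24) (nat_lit 258) (nat_lit 32) (@Lb.t (@Lb.fm (nat_lit 3) t215))))))))))
noncomputable def l8503 : Lb := (@Lb.d (nat_lit 9) (nat_lit 518) (nat_lit 128) (@Lb.g g8 (@Lb.g g9 (@Lb.g g10 (@Lb.g g11 (@Lb.r r1699 (@Lb.r r164 (@Lb.r r2709 (@Lb.r r2198 (@Lb.r r2084 (@Lb.d (nat_lit 289) (nat_lit 162) (nat_lit 361) (@Lb.fp (nat_lit 9) t2095))))))))))))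
noncomputable def l8504 : Lb := (@Lb.d (nat_lit 294) (nat_lit 522) (nat_lit 17) (@Lb.r r597 (@Lb.r r279 (@Lb.r r584 (@Lb.r r326 (@Lb.g g7 (@Lb.g g6 (@Lb.g g5 (@Lb.d (nat_lit 0) (nat_lit 0) (nat_lit 65) (@Lb.t (@Lb.fm (nat_lit 9) t504)))))))))))
noncomputable def l8505 : Lb := (@Lb.d (nat_lit 273) (nat_lit 1) (nat_lit 86) (@Lb.r r70 (@Lb.r r392 (@Lb.r r599 (@Lb.g g6 (@Lb.g g5 (@Lb.g g4 (@Lb.d (nat_lit 0) (nat_lit 17) (nat_lit 1) (@Lb.r r387 (@Lb.t (@Lb.fp (nat_lit 9) t791)))))))))))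
noncomputable def l8506 : Lb := (@Lb.d (nat_lit 9) (nat_lit 262) (nat_lit 74) (@Lb.g g8 (@Lb.g g9 (@Lb.g g10 (@Lb.g g11 (@Lb.r r1699 (@Lb.r r164 (@Lb.r r2709 (@Lb.r r2198 (@Lb.r r2084 (@Lb.d (nat_lit 288) (nat_lit 162) (nat_lit 361) (@Lb.fp (nat_lit 9) t2095))))))))))))
noncomputable def l8507 : Lb := (@Lb.d (nat_lit 2) (nat_lit 256) (nat_lit 0) (@Lb.g g8 (@Lb.g g10 (@Lb.r r2579 (@Lb.r r148 (@Lb.r r598 (@Lb.r r289 (@Lb.r r2180 (@Lb.d (nat_lit 2) (nat_lit 17) (nat_lit 10) (@Lb.fm (nat_lit 3) t51))))))))))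
noncomputable def l8508 : Lb := (@Lb.d (nat_lit 646) (nat_lit 256) (nat_lit 522) (@Lb.r r2587 (@Lb.r r2712 (@Lb.r r2714 (@Lb.r r353 (@Lb.g g7 (@Lb.g g6 (@Lb.g g4 (@Lb.d (nat_lit 1) (nat_lit 16) (nat_lit 65) (@Lb.t (@Lb.fp (nat_lit 9) t51)))))))))))
noncomputable def l8509 : Lb := (@Lb.d (nat_lit 0) (nat_lit 512) (nat_lit 128) (@Lb.g g4 (@Lb.g g10 (@Lb.g g11 (@Lb.r r387 (@Lb.r r2454 (@Lb.r r1121 (@Lb.d (nat_lit 581) (nat_lit 2) (nat_lit 512) (@Lb.t (@Lb.fp (nat_lit 9) t2096))))))))))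
noncomputable def l8510 : Lb := (@Lb.r r82 (@Lb.r r275 (@Lb.d (nat_lit 34) (nat_lit 386) (nat_lit 0) (@Lb.g g8 (@Lb.g g5 (@Lb.r r2403 (@Lb.r r102 (@Lb.r r168 (@Lb.d (nat_lit 538) (nat_lit 138) (nat_lit 0) (@Lb.fm (nat_lit 3) t2097))))))))))
noncomputable def l8511 : Lb := (@Lb.r r82 (@Lb.r r275 (@Lb.d (nat_lit 34) (nat_lit 642) (nat_lit 0) (@Lb.g g8 (@Lb.g g5 (@Lb.r r2403 (@Lb.r r102 (@Lb.r r168 (@Lb.d (nat_lit 538) (nat_lit 133) (nat_lit 2) (@Lb.fm (nat_lit 3) t2097))))))))))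
noncomputable def l8512 : Lb := (@Lb.d (nat_lit 10) (nat_lit 256) (nat_lit 0) (@Lb.g g8 (@Lb.r r1126 (@Lb.r r101 (@Lb.r r1172 (@Lb.d (nat_lit 297) (nat_lit 8) (nat_lit 34) (@Lb.t (@Lb.fm (nat_lit 3) t2098))))))))
noncomputable def l8513 : Lb := (@Lb.d (nat_lit 2) (nat_lit 514) (nat_lit 130) (@Lb.g g8 (@Lb.g g9 (@Lb.g g10 (@Lb.g g11 (@Lb.r r427 (@Lb.r r409 (@Lb.r r90 (@Lb.r r145 (@Lb.d (nat_lit 516) (nat_lit 8) (nat_lit 681) (@Lb.fp (nat_lit 9) t221)))))))))))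
noncomputable def l8514 : Lb := (@Lb.d (nat_lit 405) (nat_lit 594) (nat_lit 34) (@Lb.r r1096 (@Lb.r r1313 (@Lb.r r603 (@Lb.g g6 (@Lb.g g5 (@Lb.d (nat_lit 16) (nat_lit 16) (nat_lit 1) (@Lb.r r387 (@Lb.fp (nat_lit 3) t74)))))))))
noncomputable def l8515 : Lb := (@Lb.d (nat_lit 69) (nat_lit 577) (nat_lit 645) (@Lb.r r597 (@Lb.r r1642 (@Lb.r r1352 (@Lb.r r2695 (@Lb.g g7 (@Lb.g g6 (@Lb.g g5 (@Lb.d (nat_lit 20) (nat_lit 1) (nat_lit 134) (@Lb.t (@Lb.fp (nat_lit 9) t221)))))))))))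
noncomputable def l8516 : Lb := (@Lb.d (nat_lit 32) (nat_lit 0) (nat_lit 130) (@Lb.g g10 (@Lb.g g11 (@Lb.r r423 (@Lb.r r153 (@Lb.r r100 (@Lb.r r410 (@Lb.d (nat_lit 9) (nat_lit 21) (nat_lit 153) (@Lb.fp (nat_lit 3) t221)))))))))
noncomputable def l8517 : Lb := (@Lb.d (nat_lit 8) (nat_lit 520) (nat_lit 2) (@Lb.r r101 (@Lb.r r402 (@Lb.r r323 (@Lb.g g7 (@Lb.g g6 (@Lb.d (nat_lit 0) (nat_lit 0) (nat_lit 64) (@Lb.fm (nat_lit 3) t1531))))))))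
noncomputable def l8518 : Lb := (@Lb.d (nat_lit 2) (nat_lit 9) (nat_lit 2) (@Lb.r r24 (@Lb.g g9 (@Lb.d (nat_lit 8) (nat_lit 2) (nat_lit 0) (@Lb.t (@Lb.fm (nat_lit 3) t39))))))
noncomputable def l8519 : Lb := (@Lb.r r1114 (@Lb.r r149 (@Lb.r r1124 (@Lb.d (nat_lit 256) (nat_lit 640) (nat_lit 0) (@Lb.fp (nat_lit 1) t1551)))))
noncomputable def l8520 : Lb := (@Lb.d (nat_lit 10) (nat_lit 513) (nat_lit 0) (@Lb.r r101 (@Lb.r r402 (@Lb.r r323 (@Lb.g g7 (@Lb.g g6 (@Lb.d (nat_lit 0) (nat_lit 0) (nat_lit 64) (@Lb.fm (nat_lit 3) t50))))))))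
noncomputable def l8521 : Lb := (@Lb.d (nat_lit 136) (nat_lit 2) (nat_lit 0) (@Lb.g g9 (@Lb.g g11 (@Lb.r r24 (@Lb.r r1301 (@Lb.r r2595 (@Lb.r r2178 (@Lb.d (nat_lit 402) (nat_lit 16) (nat_lit 421) (@Lb.fp (nat_lit 3) t287)))))))))
noncomputable def l8522 : Lb := (@Lb.d (nat_lit 273) (nat_lit 0) (nat_lit 0) (@Lb.g g4 (@Lb.r r609 (@Lb.r r2659 (@Lb.r r338 (@Lb.r r2705 (@Lb.d (nat_lit 6) (nat_lit 129) (nat_lit 0) (@Lb.t (@Lb.fm (nat_lit 3) t1222)))))))))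
noncomputable def l8523 : Lb := (@Lb.d (nat_lit 2) (nat_lit 258) (nat_lit 130) (@Lb.g g8 (@Lb.g g9 (@Lb.g g10 (@Lb.g g11 (@Lb.r r427 (@Lb.r r409 (@Lb.r r90 (@Lb.r r145 (@Lb.d (nat_lit 521) (nat_lit 9) (nat_lit 681) (@Lb.fp (nat_lit 9) t221)))))))))))
noncomputable def l8524 : Lb := (@Lb.d (nat_lit 5) (nat_lit 0) (nat_lit 0) (@Lb.g g4 (@Lb.g g6 (@Lb.d (nat_lit 0) (nat_lit 6) (nat_lit 1) (@Lb.fm (nat_lit 3) t45)))))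
noncomputable def l8525 : Lb := (@Lb.r r82 (@Lb.d (nat_lit 2) (nat_lit 2) (nat_lit 128) (@Lb.g g8 (@Lb.g g9 (@Lb.g g11 (@Lb.r r299 (@Lb.r r89 (@Lb.r r98 (@Lb.d (nat_lit 528) (nat_lit 10) (nat_lit 154) (@Lb.t (@Lb.fm (nat_lit 9) t1993)))))))))))
noncomputable def l8526 : Lb := (@Lb.d (nat_lit 5) (nat_lit 553) (nat_lit 65) (@Lb.g g4 (@Lb.g g9 (@Lb.g g10 (@Lb.g g11 (@Lb.r r679 (@Lb.r r610 (@Lb.r r601 (@Lb.d (nat_lit 128) (nat_lit 36) (nat_lit 136) (@Lb.fp (nat_lit 9) t50))))))))))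
noncomputable def l8527 : Lb := (@Lb.r r82 (@Lb.d (nat_lit 2) (nat_lit 258) (nat_lit 128) (@Lb.g g8 (@Lb.g g9 (@Lb.g g11 (@Lb.r r299 (@Lb.r r89 (@Lb.r r98 (@Lb.d (nat_lit 533) (nat_lit 1) (nat_lit 152) (@Lb.t (@Lb.fm (nat_lit 9) t2099)))))))))))
noncomputable def l8528 : Lb := (@Lb.d (nat_lit 8) (nat_lit 514) (nat_lit 0) (@Lb.g g9 (@Lb.g g7 (@Lb.r r2136 (@Lb.r r2197 (@Lb.d (nat_lit 533) (nat_lit 138) (nat_lit 0) (@Lb.fm (nat_lit 3) t453)))))))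
noncomputable def l8529 : Lb := (@Lb.d (nat_lit 8) (nat_lit 2) (nat_lit 0) (@Lb.g g9 (@Lb.r r2136 (@Lb.r r2197 (@Lb.d (nat_lit 533) (nat_lit 138) (nat_lit 0) (@Lb.t (@Lb.fm (nat_lit 3) t453)))))))
noncomputable def l8530 : Lb := (@Lb.d (nat_lit 2) (nat_lit 514) (nat_lit 130) (@Lb.g g8 (@Lb.g g9 (@Lb.g g10 (@Lb.g g11 (@Lb.r r2467 (@Lb.r r401 (@Lb.r r1114 (@Lb.r r2193 (@Lb.d (nat_lit 361) (nat_lit 9) (nat_lit 393) (@Lb.fp (nat_lit 9) t221)))))))))))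
noncomputable def l8531 : Lb := (@Lb.d (nat_lit 6) (nat_lit 292) (nat_lit 5) (@Lb.g g8 (@Lb.g g9 (@Lb.g g10 (@Lb.g g11 (@Lb.r r683 (@Lb.r r610 (@Lb.r r1561 (@Lb.r r24 (@Lb.d (nat_lit 281) (nat_lit 101) (nat_lit 673) (@Lb.fp (nat_lit 9) t199)))))))))))
noncomputable def l8532 : Lb := (@Lb.r r263 (@Lb.d (nat_lit 16) (nat_lit 260) (nat_lit 1) (@Lb.g g8 (@Lb.g g9 (@Lb.g g10 (@Lb.r r683 (@Lb.r r610 (@Lb.r r597 (@Lb.r r420 (@Lb.d (nat_lit 105) (nat_lit 130) (nat_lit 137) (@Lb.t (@Lb.fp (nat_lit 9) t2100))))))))))))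
noncomputable def l8533 : Lb := (@Lb.d (nat_lit 8) (nat_lit 2) (nat_lit 0) (@Lb.g g9 (@Lb.g g10 (@Lb.g g7 (@Lb.r r2136 (@Lb.r r2197 (@Lb.d (nat_lit 533) (nat_lit 138) (nat_lit 0) (@Lb.t (@Lb.fm (nat_lit 9) t453)))))))))
noncomputable def l8534 : Lb := (@Lb.d (nat_lit 8) (nat_lit 2) (nat_lit 0) (@Lb.g g9 (@Lb.g g10 (@Lb.r r2136 (@Lb.r r2197 (@Lb.d (nat_lit 533) (nat_lit 138) (nat_lit 0) (@Lb.fp (nat_lit 3) t453)))))))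
noncomputable def l8535 : Lb := (@Lb.r r263 (@Lb.d (nat_lit 16) (nat_lit 516) (nat_lit 1) (@Lb.g g8 (@Lb.g g9 (@Lb.g g10 (@Lb.r r683 (@Lb.r r610 (@Lb.r r597 (@Lb.r r420 (@Lb.d (nat_lit 104) (nat_lit 130) (nat_lit 137) (@Lb.t (@Lb.fp (nat_lit 9) t2101))))))))))))
noncomputable def l8536 : Lb := (@Lb.d (nat_lit 4) (nat_lit 262) (nat_lit 0) (@Lb.g g5 (@Lb.r r402 (@Lb.d (nat_lit 0) (nat_lit 165) (nat_lit 394) (@Lb.t (@Lb.fp (nat_lit 3) t652))))))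
noncomputable def l8537 : Lb := (@Lb.r r323 (@Lb.d (nat_lit 4) (nat_lit 256) (nat_lit 1) (@Lb.g g8 (@Lb.g g6 (@Lb.r r387 (@Lb.r r2073 (@Lb.d (nat_lit 550) (nat_lit 70) (nat_lit 96) (@Lb.fp (nat_lit 3) t382))))))))
noncomputable def l8538 : Lb := (@Lb.d (nat_lit 128) (nat_lit 256) (nat_lit 384) (@Lb.g g10 (@Lb.g g11 (@Lb.r r1606 (@Lb.r r1557 (@Lb.r r1316 (@Lb.d (nat_lit 10) (nat_lit 80) (nat_lit 256) (@Lb.fm (nat_lit 3) t2102))))))))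
noncomputable def l8539 : Lb := (@Lb.d (nat_lit 132) (nat_lit 0) (nat_lit 130) (@Lb.g g8 (@Lb.g g9 (@Lb.g g10 (@Lb.g g11 (@Lb.r r419 (@Lb.r r1610 (@Lb.r r1621 (@Lb.r r1636 (@Lb.d (nat_lit 294) (nat_lit 153) (nat_lit 425) (@Lb.fp (nat_lit 9) t1039)))))))))))
noncomputable def l8540 : Lb := (@Lb.d (nat_lit 32) (nat_lit 512) (nat_lit 2) (@Lb.g g9 (@Lb.g g10 (@Lb.r r515 (@Lb.r r1685 (@Lb.r r100 (@Lb.r r602 (@Lb.d (nat_lit 292) (nat_lit 134) (nat_lit 0) (@Lb.fp (nat_lit 3) t907)))))))))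
noncomputable def l8541 : Lb := (@Lb.d (nat_lit 2) (nat_lit 548) (nat_lit 128) (@Lb.g g8 (@Lb.g g9 (@Lb.g g10 (@Lb.g g11 (@Lb.r r682 (@Lb.r r680 (@Lb.r r555 (@Lb.r r537 (@Lb.d (nat_lit 74) (nat_lit 161) (nat_lit 5) (@Lb.fm (nat_lit 9) t125)))))))))))
noncomputable def l8542 : Lb := (@Lb.d (nat_lit 410) (nat_lit 384) (nat_lit 101) (@Lb.r r2453 (@Lb.r r612 (@Lb.r r2659 (@Lb.g g7 (@Lb.g g10 (@Lb.g g5 (@Lb.d (nat_lit 36) (nat_lit 37) (nat_lit 16) (@Lb.t (@Lb.fp (nat_lit 9) t2102))))))))))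
noncomputable def l8543 : Lb := (@Lb.d (nat_lit 2) (nat_lit 514) (nat_lit 130) (@Lb.g g8 (@Lb.g g9 (@Lb.g g10 (@Lb.g g11 (@Lb.r r610 (@Lb.r r1607 (@Lb.r r2457 (@Lb.r r2436 (@Lb.d (nat_lit 166) (nat_lit 6) (nat_lit 392) (@Lb.fm (nat_lit 9) t2103)))))))))))
noncomputable def l8544 : Lb := (@Lb.g g10 (@Lb.r r1431 (@Lb.r r402 (@Lb.r r1172 (@Lb.r r2073 (@Lb.d (nat_lit 272) (nat_lit 129) (nat_lit 16) (@Lb.t (@Lb.fm (nat_lit 3) t413))))))))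
noncomputable def l8545 : Lb := (@Lb.d (nat_lit 617) (nat_lit 680) (nat_lit 40) (@Lb.r r1637 (@Lb.r r386 (@Lb.r r679 (@Lb.g g7 (@Lb.g g6 (@Lb.g g5 (@Lb.g g8 (@Lb.d (nat_lit 2) (nat_lit 6) (nat_lit 66) (@Lb.fp (nat_lit 9) t2104))))))))))
noncomputable def l8546 : Lb := (@Lb.d (nat_lit 160) (nat_lit 264) (nat_lit 128) (@Lb.g g10 (@Lb.g g11 (@Lb.r r105 (@Lb.r r280 (@Lb.r r1623 (@Lb.r r1362 (@Lb.d (nat_lit 538) (nat_lit 82) (nat_lit 389) (@Lb.fp (nat_lit 3) t2)))))))))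
noncomputable def l8547 : Lb := (@Lb.d (nat_lit 160) (nat_lit 8) (nat_lit 128) (@Lb.g g10 (@Lb.g g11 (@Lb.r r260 (@Lb.r r2667 (@Lb.r r1633 (@Lb.r r338 (@Lb.d (nat_lit 73) (nat_lit 85) (nat_lit 262) (@Lb.fm (nat_lit 3) t322)))))))))
noncomputable def l8548 : Lb := (@Lb.r r21 (@Lb.d (nat_lit 16) (nat_lit 0) (nat_lit 128) (@Lb.g g8 (@Lb.g g10 (@Lb.g g11 (@Lb.r r603 (@Lb.r r2401 (@Lb.r r1170 (@Lb.r r1128 (@Lb.d (nat_lit 258) (nat_lit 68) (nat_lit 33) (@Lb.t (@Lb.fm (nat_lit 9) t151))))))))))))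
noncomputable def l8549 : Lb := (@Lb.r r21 (@Lb.d (nat_lit 65) (nat_lit 512) (nat_lit 74) (@Lb.g g8 (@Lb.g g10 (@Lb.g g11 (@Lb.r r2440 (@Lb.r r1687 (@Lb.r r1377 (@Lb.r r2194 (@Lb.d (nat_lit 22) (nat_lit 66) (nat_lit 33) (@Lb.t (@Lb.fm (nat_lit 9) t1506))))))))))))
noncomputable def l8550 : Lb := (@Lb.d (nat_lit 32) (nat_lit 258) (nat_lit 128) (@Lb.g g9 (@Lb.g g10 (@Lb.g g11 (@Lb.r r328 (@Lb.r r2471 (@Lb.r r2449 (@Lb.r r2130 (@Lb.d (nat_lit 10) (nat_lit 70) (nat_lit 280) (@Lb.t (@Lb.fp (nat_lit 9) t2)))))))))))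
noncomputable def l8551 : Lb := (@Lb.r r21 (@Lb.d (nat_lit 16) (nat_lit 512) (nat_lit 128) (@Lb.g g8 (@Lb.g g10 (@Lb.g g11 (@Lb.r r603 (@Lb.r r2401 (@Lb.r r1170 (@Lb.r r1128 (@Lb.d (nat_lit 256) (nat_lit 68) (nat_lit 33) (@Lb.t (@Lb.fm (nat_lit 9) t597))))))))))))
noncomputable def l8552 : Lb := (@Lb.r r82 (@Lb.d (nat_lit 166) (nat_lit 512) (nat_lit 128) (@Lb.g g8 (@Lb.g g9 (@Lb.g g11 (@Lb.r r2390 (@Lb.r r1411 (@Lb.r r1633 (@Lb.r r2216 (@Lb.d (nat_lit 74) (nat_lit 68) (nat_lit 169) (@Lb.t (@Lb.fm (nat_lit 9) t328))))))))))))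
noncomputable def l8553 : Lb := (@Lb.r r68 (@Lb.r r323 (@Lb.d (nat_lit 0) (nat_lit 4) (nat_lit 0) (@Lb.g g9 (@Lb.g g10 (@Lb.r r1685 (@Lb.r r1559 (@Lb.r r2312 (@Lb.d (nat_lit 34) (nat_lit 0) (nat_lit 104) (@Lb.fm (nat_lit 3) t1729))))))))))
noncomputable def l8554 : Lb := (@Lb.r r263 (@Lb.d (nat_lit 4) (nat_lit 512) (nat_lit 0) (@Lb.g g8 (@Lb.g g9 (@Lb.g g10 (@Lb.r r2443 (@Lb.r r2201 (@Lb.r r2180 (@Lb.d (nat_lit 9) (nat_lit 0) (nat_lit 18) (@Lb.t (@Lb.fm (nat_lit 9) t818)))))))))))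
noncomputable def l8555 : Lb := (@Lb.d (nat_lit 145) (nat_lit 258) (nat_lit 74) (@Lb.g g8 (@Lb.g g9 (@Lb.g g10 (@Lb.g g11 (@Lb.r r683 (@Lb.r r2410 (@Lb.r r1561 (@Lb.r r1540 (@Lb.d (nat_lit 388) (nat_lit 152) (nat_lit 5) (@Lb.fm (nat_lit 9) t531)))))))))))
noncomputable def l8556 : Lb := (@Lb.r r82 (@Lb.d (nat_lit 133) (nat_lit 34) (nat_lit 64) (@Lb.g g8 (@Lb.g g9 (@Lb.g g11 (@Lb.r r1450 (@Lb.r r2593 (@Lb.r r2692 (@Lb.r r1447 (@Lb.d (nat_lit 520) (nat_lit 74) (nat_lit 5) (@Lb.t (@Lb.fm (nat_lit 9) t328))))))))))))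
noncomputable def l8557 : Lb := (@Lb.r r20 (@Lb.d (nat_lit 0) (nat_lit 514) (nat_lit 162) (@Lb.g g9 (@Lb.g g6 (@Lb.g g11 (@Lb.r r2659 (@Lb.r r2661 (@Lb.d (nat_lit 405) (nat_lit 25) (nat_lit 40) (@Lb.t (@Lb.fp (nat_lit 9) t2105))))))))))
noncomputable def l8558 : Lb := (@Lb.r r323 (@Lb.d (nat_lit 32) (nat_lit 2) (nat_lit 2) (@Lb.g g8 (@Lb.g g9 (@Lb.g g10 (@Lb.r r1689 (@Lb.r r1563 (@Lb.r r2634 (@Lb.r r1540 (@Lb.d (nat_lit 258) (nat_lit 0) (nat_lit 344) (@Lb.t (@Lb.fp (nat_lit 9) t2106))))))))))))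
noncomputable def l8559 : Lb := (@Lb.r r82 (@Lb.d (nat_lit 34) (nat_lit 80) (nat_lit 0) (@Lb.g g8 (@Lb.g g9 (@Lb.r r515 (@Lb.r r582 (@Lb.r r420 (@Lb.d (nat_lit 96) (nat_lit 132) (nat_lit 389) (@Lb.fp (nat_lit 3) t2107)))))))))
noncomputable def l8560 : Lb := (@Lb.d (nat_lit 2) (nat_lit 4) (nat_lit 128) (@Lb.g g8 (@Lb.g g9 (@Lb.g g10 (@Lb.g g11 (@Lb.r r610 (@Lb.r r1607 (@Lb.r r97 (@Lb.r r2436 (@Lb.d (nat_lit 153) (nat_lit 9) (nat_lit 392) (@Lb.fp (nat_lit 9) t2108)))))))))))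
noncomputable def l8561 : Lb := (@Lb.r r82 (@Lb.d (nat_lit 8) (nat_lit 258) (nat_lit 0) (@Lb.g g5 (@Lb.r r515 (@Lb.r r2408 (@Lb.r r1366 (@Lb.r r2721 (@Lb.d (nat_lit 5) (nat_lit 72) (nat_lit 34) (@Lb.t (@Lb.fp (nat_lit 3) t2107))))))))))
noncomputable def l8562 : Lb := (@Lb.r r82 (@Lb.d (nat_lit 34) (nat_lit 514) (nat_lit 0) (@Lb.g g8 (@Lb.g g9 (@Lb.g g11 (@Lb.r r1571 (@Lb.r r582 (@Lb.r r2577 (@Lb.r r420 (@Lb.d (nat_lit 96) (nat_lit 150) (nat_lit 261) (@Lb.t (@Lb.fp (nat_lit 9) t428))))))))))))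
noncomputable def l8563 : Lb := (@Lb.d (nat_lit 2) (nat_lit 358) (nat_lit 400) (@Lb.r r85 (@Lb.r r36 (@Lb.r r2375 (@Lb.g g7 (@Lb.g g6 (@Lb.g g5 (@Lb.d (nat_lit 36) (nat_lit 1) (nat_lit 97) (@Lb.t (@Lb.fp (nat_lit 9) t143))))))))))
noncomputable def l8564 : Lb := (@Lb.d (nat_lit 4) (nat_lit 546) (nat_lit 129) (@Lb.g g8 (@Lb.g g9 (@Lb.g g10 (@Lb.g g11 (@Lb.r r586 (@Lb.r r1611 (@Lb.r r36 (@Lb.r r149 (@Lb.r r2084 (@Lb.d (nat_lit 352) (nat_lit 169) (nat_lit 81) (@Lb.fm (nat_lit 9) t1156))))))))))))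
noncomputable def l8565 : Lb := (@Lb.d (nat_lit 34) (nat_lit 257) (nat_lit 0) (@Lb.g g8 (@Lb.g g9 (@Lb.r r2723 (@Lb.r r582 (@Lb.r r2212 (@Lb.r r2581 (@Lb.d (nat_lit 136) (nat_lit 149) (nat_lit 330) (@Lb.fp (nat_lit 3) t881)))))))))
noncomputable def l8566 : Lb := (@Lb.d (nat_lit 4) (nat_lit 257) (nat_lit 130) (@Lb.g g9 (@Lb.g g10 (@Lb.g g11 (@Lb.r r614 (@Lb.r r404 (@Lb.r r1371 (@Lb.r r2705 (@Lb.d (nat_lit 9) (nat_lit 73) (nat_lit 662) (@Lb.t (@Lb.fm (nat_lit 9) t71)))))))))))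
noncomputable def l8567 : Lb := (@Lb.r r21 (@Lb.d (nat_lit 129) (nat_lit 512) (nat_lit 128) (@Lb.g g8 (@Lb.g g11 (@Lb.r r90 (@Lb.r r2580 (@Lb.r r391 (@Lb.r r25 (@Lb.d (nat_lit 516) (nat_lit 90) (nat_lit 325) (@Lb.fm (nat_lit 3) t2109))))))))))
noncomputable def l8568 : Lb := (@Lb.d (nat_lit 656) (nat_lit 266) (nat_lit 601) (@Lb.r r24 (@Lb.r r1114 (@Lb.r r2469 (@Lb.r r1555 (@Lb.g g7 (@Lb.g g5 (@Lb.d (nat_lit 0) (nat_lit 1) (nat_lit 128) (@Lb.fp (nat_lit 3) t2110)))))))))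
noncomputable def l8569 : Lb := (@Lb.d (nat_lit 2) (nat_lit 514) (nat_lit 2) (@Lb.g g8 (@Lb.g g9 (@Lb.g g10 (@Lb.g g11 (@Lb.r r1366 (@Lb.r r424 (@Lb.r r279 (@Lb.r r1637 (@Lb.d (nat_lit 385) (nat_lit 86) (nat_lit 614) (@Lb.fp (nat_lit 9) t714)))))))))))
noncomputable def l8570 : Lb := (@Lb.d (nat_lit 282) (nat_lit 4) (nat_lit 17) (@Lb.r r2148 (@Lb.r r1194 (@Lb.r r403 (@Lb.g g9 (@Lb.g g4 (@Lb.d (nat_lit 4) (nat_lit 66) (nat_lit 0) (@Lb.r r295 (@Lb.r r98 (@Lb.fm (nat_lit 3) t262))))))))))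
noncomputable def l8571 : Lb := (@Lb.d (nat_lit 34) (nat_lit 656) (nat_lit 81) (@Lb.r r1297 (@Lb.r r2663 (@Lb.r r386 (@Lb.g g7 (@Lb.g g5 (@Lb.g g8 (@Lb.d (nat_lit 610) (nat_lit 1) (nat_lit 132) (@Lb.r r98 (@Lb.t (@Lb.fm (nat_lit 9) t429)))))))))))
noncomputable def l8572 : Lb := (@Lb.d (nat_lit 386) (nat_lit 65) (nat_lit 645) (@Lb.r r597 (@Lb.r r1638 (@Lb.r r2692 (@Lb.r r2439 (@Lb.g g7 (@Lb.g g6 (@Lb.g g5 (@Lb.d (nat_lit 20) (nat_lit 1) (nat_lit 68) (@Lb.t (@Lb.fp (nat_lit 9) t1517)))))))))))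
noncomputable def l8573 : Lb := (@Lb.d (nat_lit 577) (nat_lit 577) (nat_lit 389) (@Lb.r r597 (@Lb.r r2666 (@Lb.r r2376 (@Lb.r r1671 (@Lb.g g7 (@Lb.g g6 (@Lb.g g5 (@Lb.d (nat_lit 4) (nat_lit 1) (nat_lit 70) (@Lb.t (@Lb.fp (nat_lit 9) t1634)))))))))))
noncomputable def l8574 : Lb := (@Lb.d (nat_lit 144) (nat_lit 2) (nat_lit 128) (@Lb.g g8 (@Lb.g g9 (@Lb.g g10 (@Lb.g g11 (@Lb.r r2722 (@Lb.r r2439 (@Lb.r r2665 (@Lb.r r2632 (@Lb.d (nat_lit 104) (nat_lit 66) (nat_lit 426) (@Lb.fm (nat_lit 9) t2111)))))))))))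
noncomputable def l8575 : Lb := (@Lb.r r21 (@Lb.d (nat_lit 65) (nat_lit 0) (nat_lit 10) (@Lb.g g8 (@Lb.g g10 (@Lb.g g11 (@Lb.r r2312 (@Lb.r r1623 (@Lb.r r1377 (@Lb.r r2194 (@Lb.d (nat_lit 290) (nat_lit 129) (nat_lit 2) (@Lb.t (@Lb.fm (nat_lit 9) t1506))))))))))))
noncomputable def l8576 : Lb := (@Lb.d (nat_lit 1) (nat_lit 258) (nat_lit 130) (@Lb.g g8 (@Lb.g g9 (@Lb.g g10 (@Lb.g g11 (@Lb.r r610 (@Lb.r r1607 (@Lb.r r2457 (@Lb.r r2436 (@Lb.d (nat_lit 169) (nat_lit 4) (nat_lit 392) (@Lb.fm (nat_lit 9) t2103)))))))))))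
noncomputable def l8577 : Lb := (@Lb.d (nat_lit 130) (nat_lit 514) (nat_lit 130) (@Lb.g g8 (@Lb.g g9 (@Lb.g g10 (@Lb.g g11 (@Lb.r r2410 (@Lb.r r1411 (@Lb.r r409 (@Lb.r r388 (@Lb.d (nat_lit 105) (nat_lit 9) (nat_lit 137) (@Lb.fp (nat_lit 9) t394)))))))))))
noncomputable def l8578 : Lb := (@Lb.d (nat_lit 522) (nat_lit 602) (nat_lit 534) (@Lb.r r2661 (@Lb.r r2394 (@Lb.g g11 (@Lb.g g9 (@Lb.d (nat_lit 64) (nat_lit 5) (nat_lit 512) (@Lb.fp (nat_lit 3) t2112)))))))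
noncomputable def l8579 : Lb := (@Lb.d (nat_lit 33) (nat_lit 258) (nat_lit 64) (@Lb.g g8 (@Lb.g g9 (@Lb.g g11 (@Lb.r r1623 (@Lb.r r146 (@Lb.r r1621 (@Lb.r r2468 (@Lb.d (nat_lit 586) (nat_lit 168) (nat_lit 601) (@Lb.t (@Lb.fm (nat_lit 9) t2113)))))))))))
noncomputable def l8580 : Lb := (@Lb.d (nat_lit 81) (nat_lit 2) (nat_lit 0) (@Lb.g g8 (@Lb.g g9 (@Lb.g g10 (@Lb.g g11 (@Lb.r r427 (@Lb.r r1602 (@Lb.r r1193 (@Lb.r r1172 (@Lb.d (nat_lit 289) (nat_lit 154) (nat_lit 610) (@Lb.fm (nat_lit 9) t394)))))))))))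
noncomputable def l8581 : Lb := (@Lb.d (nat_lit 0) (nat_lit 516) (nat_lit 128) (@Lb.g g9 (@Lb.g g10 (@Lb.g g11 (@Lb.r r2659 (@Lb.r r578 (@Lb.r r1445 (@Lb.r r24 (@Lb.d (nat_lit 256) (nat_lit 0) (nat_lit 137) (@Lb.t (@Lb.fp (nat_lit 9) t1033)))))))))))
noncomputable def l8582 : Lb := (@Lb.d (nat_lit 1) (nat_lit 258) (nat_lit 73) (@Lb.g g8 (@Lb.g g9 (@Lb.g g10 (@Lb.g g11 (@Lb.r r427 (@Lb.r r677 (@Lb.r r340 (@Lb.r r170 (@Lb.d (nat_lit 516) (nat_lit 8) (nat_lit 169) (@Lb.fp (nat_lit 9) t221)))))))))))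
noncomputable def l8583 : Lb := (@Lb.d (nat_lit 1) (nat_lit 4) (nat_lit 128) (@Lb.g g8 (@Lb.g g9 (@Lb.g g10 (@Lb.g g11 (@Lb.r r2659 (@Lb.r r578 (@Lb.r r1449 (@Lb.r r36 (@Lb.d (nat_lit 261) (nat_lit 1) (nat_lit 137) (@Lb.fp (nat_lit 9) t1033)))))))))))
noncomputable def l8584 : Lb := (@Lb.d (nat_lit 0) (nat_lit 2) (nat_lit 74) (@Lb.g g9 (@Lb.g g10 (@Lb.g g11 (@Lb.r r2193 (@Lb.r r658 (@Lb.r r2439 (@Lb.r r2564 (@Lb.d (nat_lit 534) (nat_lit 70) (nat_lit 20) (@Lb.t (@Lb.fp (nat_lit 9) t312)))))))))))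
noncomputable def l8585 : Lb := (@Lb.r r68 (@Lb.r r81 (@Lb.d (nat_lit 32) (nat_lit 260) (nat_lit 130) (@Lb.g g6 (@Lb.g g11 (@Lb.r r529 (@Lb.r r411 (@Lb.r r408 (@Lb.d (nat_lit 66) (nat_lit 34) (nat_lit 70) (@Lb.fm (nat_lit 3) t5))))))))))
noncomputable def l8586 : Lb := (@Lb.r r323 (@Lb.d (nat_lit 0) (nat_lit 514) (nat_lit 2) (@Lb.g g8 (@Lb.g g9 (@Lb.g g10 (@Lb.r r1363 (@Lb.r r2217 (@Lb.r r2212 (@Lb.r r2662 (@Lb.d (nat_lit 660) (nat_lit 100) (nat_lit 85) (@Lb.t (@Lb.fp (nat_lit 9) t2114))))))))))))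
noncomputable def l8587 : Lb := (@Lb.r r68 (@Lb.r r81 (@Lb.d (nat_lit 32) (nat_lit 516) (nat_lit 130) (@Lb.g g6 (@Lb.g g11 (@Lb.r r529 (@Lb.r r411 (@Lb.r r408 (@Lb.d (nat_lit 69) (nat_lit 32) (nat_lit 70) (@Lb.fm (nat_lit 3) t238))))))))))
noncomputable def l8588 : Lb := (@Lb.r r68 (@Lb.r r81 (@Lb.d (nat_lit 32) (nat_lit 4) (nat_lit 130) (@Lb.g g6 (@Lb.g g11 (@Lb.r r529 (@Lb.r r411 (@Lb.r r408 (@Lb.d (nat_lit 64) (nat_lit 34) (nat_lit 70) (@Lb.fm (nat_lit 3) t5))))))))))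
noncomputable def l8589 : Lb := (@Lb.d (nat_lit 8) (nat_lit 521) (nat_lit 129) (@Lb.g g9 (@Lb.g g10 (@Lb.g g11 (@Lb.r r1703 (@Lb.r r578 (@Lb.r r2136 (@Lb.r r2197 (@Lb.d (nat_lit 597) (nat_lit 138) (nat_lit 136) (@Lb.t (@Lb.fm (nat_lit 9) t927)))))))))))
noncomputable def l8590 : Lb := (@Lb.d (nat_lit 1) (nat_lit 0) (nat_lit 128) (@Lb.g g8 (@Lb.g g11 (@Lb.r r337 (@Lb.r r683 (@Lb.r r680 (@Lb.r r170 (@Lb.r r153 (@Lb.d (nat_lit 530) (nat_lit 10) (nat_lit 84) (@Lb.fp (nat_lit 3) t516))))))))))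
noncomputable def l8591 : Lb := (@Lb.d (nat_lit 2) (nat_lit 256) (nat_lit 128) (@Lb.g g8 (@Lb.g g11 (@Lb.r r337 (@Lb.r r683 (@Lb.r r680 (@Lb.r r170 (@Lb.r r153 (@Lb.d (nat_lit 530) (nat_lit 10) (nat_lit 153) (@Lb.fp (nat_lit 3) t516))))))))))
noncomputable def l8592 : Lb := (@Lb.d (nat_lit 0) (nat_lit 512) (nat_lit 128) (@Lb.g g11 (@Lb.r r545 (@Lb.r r299 (@Lb.r r356 (@Lb.r r154 (@Lb.d (nat_lit 10) (nat_lit 68) (nat_lit 1) (@Lb.t (@Lb.fp (nat_lit 3) t425)))))))))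
noncomputable def l8593 : Lb := (@Lb.r r275 (@Lb.d (nat_lit 0) (nat_lit 648) (nat_lit 2) (@Lb.g g5 (@Lb.g g10 (@Lb.r r1411 (@Lb.d (nat_lit 0) (nat_lit 0) (nat_lit 2) (@Lb.fp (nat_lit 3) t406)))))))
noncomputable def l8594 : Lb := (@Lb.d (nat_lit 0) (nat_lit 512) (nat_lit 2) (@Lb.g g10 (@Lb.r r1411 (@Lb.r r1169 (@Lb.r r146 (@Lb.d (nat_lit 0) (nat_lit 10) (nat_lit 34) (@Lb.t (@Lb.fm (nat_lit 3) t124))))))))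
noncomputable def l8595 : Lb := (@Lb.d (nat_lit 2) (nat_lit 258) (nat_lit 137) (@Lb.g g8 (@Lb.g g9 (@Lb.g g10 (@Lb.g g11 (@Lb.r r427 (@Lb.r r386 (@Lb.r r25 (@Lb.d (nat_lit 277) (nat_lit 20) (nat_lit 164) (@Lb.fm (nat_lit 9) t1357))))))))))
noncomputable def l8596 : Lb := (@Lb.d (nat_lit 0) (nat_lit 516) (nat_lit 89) (@Lb.g g9 (@Lb.g g6 (@Lb.g g11 (@Lb.r r2657 (@Lb.d (nat_lit 5) (nat_lit 90) (nat_lit 128) (@Lb.t (@Lb.fm (nat_lit 9) t607))))))))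
noncomputable def l8597 : Lb := (@Lb.d (nat_lit 0) (nat_lit 2) (nat_lit 145) (@Lb.g g8 (@Lb.g g9 (@Lb.g g6 (@Lb.g g11 (@Lb.r r552 (@Lb.r r619 (@Lb.r r537 (@Lb.r r516 (@Lb.d (nat_lit 522) (nat_lit 66) (nat_lit 138) (@Lb.fm (nat_lit 9) t2115)))))))))))
noncomputable def l8598 : Lb := (@Lb.d (nat_lit 358) (nat_lit 70) (nat_lit 165) (@Lb.r r2645 (@Lb.r r682 (@Lb.g g11 (@Lb.g g6 (@Lb.g g5 (@Lb.g g4 (@Lb.d (nat_lit 8) (nat_lit 17) (nat_lit 6) (@Lb.fp (nat_lit 9) t309)))))))))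
noncomputable def l8599 : Lb := (@Lb.d (nat_lit 1) (nat_lit 256) (nat_lit 81) (@Lb.r r1158 (@Lb.r r2136 (@Lb.r r2341 (@Lb.g g7 (@Lb.g g6 (@Lb.d (nat_lit 0) (nat_lit 16) (nat_lit 640) (@Lb.fp (nat_lit 3) t1956))))))))
noncomputable def l8600 : Lb := (@Lb.d (nat_lit 582) (nat_lit 130) (nat_lit 321) (@Lb.r r2312 (@Lb.r r1559 (@Lb.r r345 (@Lb.r r614 (@Lb.g g6 (@Lb.g g4 (@Lb.d (nat_lit 70) (nat_lit 0) (nat_lit 1) (@Lb.r r387 (@Lb.fm (nat_lit 3) t284))))))))))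
noncomputable def l8601 : Lb := (@Lb.d (nat_lit 10) (nat_lit 256) (nat_lit 152) (@Lb.g g8 (@Lb.g g6 (@Lb.g g11 (@Lb.r r2449 (@Lb.r r1703 (@Lb.r r2436 (@Lb.d (nat_lit 576) (nat_lit 10) (nat_lit 665) (@Lb.t (@Lb.fm (nat_lit 9) t626))))))))))
noncomputable def l8602 : Lb := (@Lb.r r323 (@Lb.d (nat_lit 0) (nat_lit 34) (nat_lit 18) (@Lb.g g9 (@Lb.g g10 (@Lb.r r595 (@Lb.r r405 (@Lb.r r8 (@Lb.d (nat_lit 266) (nat_lit 26) (nat_lit 168) (@Lb.fm (nat_lit 3) t646)))))))))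
noncomputable def l8603 : Lb := (@Lb.d (nat_lit 4) (nat_lit 0) (nat_lit 128) (@Lb.g g8 (@Lb.g g9 (@Lb.g g10 (@Lb.g g11 (@Lb.r r2699 (@Lb.r r1637 (@Lb.r r2714 (@Lb.r r2564 (@Lb.d (nat_lit 522) (nat_lit 10) (nat_lit 161) (@Lb.fm (nat_lit 9) t2116)))))))))))
noncomputable def l8604 : Lb := (@Lb.d (nat_lit 8) (nat_lit 2) (nat_lit 2) (@Lb.g g9 (@Lb.g g10 (@Lb.r r2658 (@Lb.r r579 (@Lb.d (nat_lit 2) (nat_lit 97) (nat_lit 586) (@Lb.fp (nat_lit 3) t51)))))))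
noncomputable def l8605 : Lb := (@Lb.r r21 (@Lb.d (nat_lit 8) (nat_lit 256) (nat_lit 2) (@Lb.g g8 (@Lb.g g10 (@Lb.r r667 (@Lb.r r2405 (@Lb.r r1178 (@Lb.r r1156 (@Lb.d (nat_lit 345) (nat_lit 65) (nat_lit 337) (@Lb.fp (nat_lit 3) t284))))))))))
noncomputable def l8606 : Lb := (@Lb.r r404 (@Lb.r r1689 (@Lb.r r1627 (@Lb.r r2178 (@Lb.r r1540 (@Lb.d (nat_lit 0) (nat_lit 64) (nat_lit 0) (@Lb.fp (nat_lit 1) t2117)))))))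
noncomputable def l8607 : Lb := (@Lb.r r264 (@Lb.r r2711 (@Lb.r r2178 (@Lb.r r2473 (@Lb.r r2084 (@Lb.d (nat_lit 280) (nat_lit 514) (nat_lit 16) (@Lb.fp (nat_lit 1) t32)))))))
noncomputable def l8608 : Lb := (@Lb.r r20 (@Lb.r r82 (@Lb.r r275 (@Lb.d (nat_lit 0) (nat_lit 162) (nat_lit 0) (@Lb.g g5 (@Lb.r r402 (@Lb.r r1304 (@Lb.r r2663 (@Lb.d (nat_lit 322) (nat_lit 1) (nat_lit 85) (@Lb.t (@Lb.fp (nat_lit 3) t525)))))))))))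
noncomputable def l8609 : Lb := (@Lb.d (nat_lit 152) (nat_lit 264) (nat_lit 73) (@Lb.g g8 (@Lb.g g10 (@Lb.g g11 (@Lb.r r1307 (@Lb.r r1105 (@Lb.r r1638 (@Lb.r r388 (@Lb.d (nat_lit 361) (nat_lit 65) (nat_lit 153) (@Lb.t (@Lb.fm (nat_lit 9) t399)))))))))))
noncomputable def l8610 : Lb := (@Lb.d (nat_lit 146) (nat_lit 2) (nat_lit 10) (@Lb.g g8 (@Lb.g g9 (@Lb.g g10 (@Lb.g g11 (@Lb.r r427 (@Lb.r r1169 (@Lb.r r356 (@Lb.r r1178 (@Lb.r r132 (@Lb.d (nat_lit 521) (nat_lit 4) (nat_lit 408) (@Lb.fm (nat_lit 9) t1446))))))))))))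
noncomputable def l8611 : Lb := (@Lb.r r264 (@Lb.r r2711 (@Lb.r r2178 (@Lb.r r2473 (@Lb.r r2084 (@Lb.d (nat_lit 273) (nat_lit 522) (nat_lit 18) (@Lb.fp (nat_lit 1) t64)))))))
noncomputable def l8612 : Lb := (@Lb.d (nat_lit 154) (nat_lit 512) (nat_lit 10) (@Lb.g g8 (@Lb.g g10 (@Lb.g g11 (@Lb.r r602 (@Lb.r r2453 (@Lb.r r619 (@Lb.r r2632 (@Lb.d (nat_lit 106) (nat_lit 65) (nat_lit 258) (@Lb.t (@Lb.fm (nat_lit 9) t524)))))))))))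
noncomputable def l8613 : Lb := (@Lb.r r21 (@Lb.d (nat_lit 2) (nat_lit 0) (nat_lit 161) (@Lb.g g8 (@Lb.g g6 (@Lb.g g11 (@Lb.r r579 (@Lb.r r2581 (@Lb.r r1288 (@Lb.d (nat_lit 673) (nat_lit 0) (nat_lit 160) (@Lb.t (@Lb.fp (nat_lit 9) t317)))))))))))
noncomputable def l8614 : Lb := (@Lb.d (nat_lit 154) (nat_lit 0) (nat_lit 10) (@Lb.g g8 (@Lb.g g10 (@Lb.g g11 (@Lb.r r602 (@Lb.r r2453 (@Lb.r r619 (@Lb.r r2632 (@Lb.d (nat_lit 105) (nat_lit 65) (nat_lit 258) (@Lb.t (@Lb.fm (nat_lit 9) t524)))))))))))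
noncomputable def l8615 : Lb := (@Lb.d (nat_lit 401) (nat_lit 512) (nat_lit 408) (@Lb.g g6 (@Lb.d (nat_lit 0) (nat_lit 0) (nat_lit 5) (@Lb.t (@Lb.fm (nat_lit 3) t471)))))
noncomputable def l8616 : Lb := (@Lb.d (nat_lit 0) (nat_lit 256) (nat_lit 2) (@Lb.g g10 (@Lb.g g7 (@Lb.r r2470 (@Lb.r r1624 (@Lb.r r2341 (@Lb.d (nat_lit 584) (nat_lit 130) (nat_lit 320) (@Lb.fm (nat_lit 3) t2118))))))))
noncomputable def l8617 : Lb := (@Lb.r r82 (@Lb.d (nat_lit 0) (nat_lit 266) (nat_lit 0) (@Lb.g g5 (@Lb.g g7 (@Lb.r r1642 (@Lb.r r1640 (@Lb.r r1561 (@Lb.d (nat_lit 389) (nat_lit 33) (nat_lit 0) (@Lb.fp (nat_lit 3) t2073)))))))))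
noncomputable def l8618 : Lb := (@Lb.d (nat_lit 2) (nat_lit 265) (nat_lit 40) (@Lb.g g8 (@Lb.g g9 (@Lb.g g6 (@Lb.g g11 (@Lb.r r601 (@Lb.r r2323 (@Lb.r r2577 (@Lb.r r2564 (@Lb.d (nat_lit 162) (nat_lit 129) (nat_lit 416) (@Lb.fm (nat_lit 9) t2119)))))))))))
noncomputable def l8619 : Lb := (@Lb.d (nat_lit 0) (nat_lit 264) (nat_lit 66) (@Lb.g g9 (@Lb.g g10 (@Lb.g g11 (@Lb.r r2731 (@Lb.r r1642 (@Lb.r r2596 (@Lb.r r2709 (@Lb.d (nat_lit 149) (nat_lit 20) (nat_lit 344) (@Lb.t (@Lb.fp (nat_lit 9) t2120)))))))))))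
noncomputable def l8620 : Lb := (@Lb.d (nat_lit 2) (nat_lit 289) (nat_lit 132) (@Lb.g g8 (@Lb.g g9 (@Lb.g g10 (@Lb.g g11 (@Lb.r r1699 (@Lb.r r1192 (@Lb.r r1642 (@Lb.r r2577 (@Lb.d (nat_lit 598) (nat_lit 41) (nat_lit 72) (@Lb.fp (nat_lit 9) t2121)))))))))))
noncomputable def l8621 : Lb := (@Lb.r r323 (@Lb.d (nat_lit 0) (nat_lit 265) (nat_lit 1) (@Lb.g g8 (@Lb.g g9 (@Lb.g g10 (@Lb.r r1194 (@Lb.r r2692 (@Lb.r r2567 (@Lb.r r25 (@Lb.d (nat_lit 420) (nat_lit 145) (nat_lit 354) (@Lb.t (@Lb.fm (nat_lit 9) t1317))))))))))))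
noncomputable def l8622 : Lb := (@Lb.d (nat_lit 0) (nat_lit 0) (nat_lit 544) (@Lb.r r2321 (@Lb.r r2386 (@Lb.r r2467 (@Lb.g g11 (@Lb.g g5 (@Lb.r r98 (@Lb.fp (nat_lit 3) t676))))))))
noncomputable def l8623 : Lb := (@Lb.r r331 (@Lb.d (nat_lit 160) (nat_lit 9) (nat_lit 1) (@Lb.g g8 (@Lb.g g9 (@Lb.g g10 (@Lb.r r2471 (@Lb.r r1186 (@Lb.r r1625 (@Lb.r r1604 (@Lb.d (nat_lit 678) (nat_lit 133) (nat_lit 666) (@Lb.t (@Lb.fp (nat_lit 9) t2122))))))))))))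
noncomputable def l8624 : Lb := (@Lb.d (nat_lit 512) (nat_lit 138) (nat_lit 416) (@Lb.r r101 (@Lb.r r24 (@Lb.r r402 (@Lb.g g11 (@Lb.t (@Lb.fm (nat_lit 3) t2123)))))))
noncomputable def l8625 : Lb := (@Lb.d (nat_lit 130) (nat_lit 297) (nat_lit 2) (@Lb.g g8 (@Lb.g g9 (@Lb.g g10 (@Lb.r r1442 (@Lb.r r595 (@Lb.r r341 (@Lb.r r104 (@Lb.d (nat_lit 676) (nat_lit 10) (nat_lit 601) (@Lb.t (@Lb.fp (nat_lit 9) t2124)))))))))))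
noncomputable def l8626 : Lb := (@Lb.g g8 (@Lb.g g7 (@Lb.r r594 (@Lb.r r2449 (@Lb.r r2436 (@Lb.d (nat_lit 608) (nat_lit 64) (nat_lit 132) (@Lb.fp (nat_lit 3) t2125)))))))
noncomputable def l8627 : Lb := (@Lb.d (nat_lit 0) (nat_lit 0) (nat_lit 128) (@Lb.g g10 (@Lb.g g11 (@Lb.r r602 (@Lb.r r584 (@Lb.r r299 (@Lb.r r289 (@Lb.d (nat_lit 69) (nat_lit 130) (nat_lit 0) (@Lb.fm (nat_lit 3) t1115)))))))))
noncomputable def l8628 : Lb := (@Lb.r r101 (@Lb.r r24 (@Lb.d (nat_lit 577) (nat_lit 256) (nat_lit 528) (@Lb.fp (nat_lit 1) t1150))))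
noncomputable def l8629 : Lb := (@Lb.d (nat_lit 2) (nat_lit 260) (nat_lit 128) (@Lb.g g8 (@Lb.g g9 (@Lb.g g10 (@Lb.g g11 (@Lb.r r427 (@Lb.r r324 (@Lb.r r2218 (@Lb.r r1193 (@Lb.r r1188 (@Lb.d (nat_lit 608) (nat_lit 73) (nat_lit 546) (@Lb.fp (nat_lit 9) t2126))))))))))))
noncomputable def l8630 : Lb := (@Lb.d (nat_lit 548) (nat_lit 262) (nat_lit 16) (@Lb.g g10 (@Lb.g g5 (@Lb.fp (nat_lit 3) t2127))))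
noncomputable def l8631 : Lb := (@Lb.d (nat_lit 4) (nat_lit 512) (nat_lit 130) (@Lb.g g8 (@Lb.g g9 (@Lb.g g10 (@Lb.g g11 (@Lb.r r2691 (@Lb.r r297 (@Lb.r r360 (@Lb.r r582 (@Lb.r r2180 (@Lb.d (nat_lit 641) (nat_lit 10) (nat_lit 329) (@Lb.fm (nat_lit 9) t242))))))))))))
noncomputable def l8632 : Lb := (@Lb.d (nat_lit 18) (nat_lit 512) (nat_lit 1) (@Lb.r r81 (@Lb.r r86 (@Lb.r r343 (@Lb.g g6 (@Lb.g g5 (@Lb.g g4 (@Lb.d (nat_lit 1) (nat_lit 8) (nat_lit 2) (@Lb.r r387 (@Lb.t (@Lb.fp (nat_lit 9) t215)))))))))))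
noncomputable def l8633 : Lb := (@Lb.d (nat_lit 38) (nat_lit 297) (nat_lit 581) (@Lb.g g8 (@Lb.g g9 (@Lb.g g10 (@Lb.g g7 (@Lb.r r1442 (@Lb.r r36 (@Lb.r r1173 (@Lb.r r1060 (@Lb.d (nat_lit 290) (nat_lit 74) (nat_lit 321) (@Lb.fp (nat_lit 9) t2128)))))))))))
noncomputable def l8634 : Lb := (@Lb.d (nat_lit 138) (nat_lit 512) (nat_lit 0) (@Lb.g g8 (@Lb.r r1383 (@Lb.r r2178 (@Lb.r r1429 (@Lb.r r616 (@Lb.d (nat_lit 581) (nat_lit 26) (nat_lit 154) (@Lb.t (@Lb.fp (nat_lit 3) t64)))))))))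
noncomputable def l8635 : Lb := (@Lb.d (nat_lit 4) (nat_lit 262) (nat_lit 0) (@Lb.g g5 (@Lb.g g10 (@Lb.g g7 (@Lb.r r1434 (@Lb.d (nat_lit 410) (nat_lit 81) (nat_lit 298) (@Lb.t (@Lb.fp (nat_lit 9) t2129))))))))
noncomputable def l8636 : Lb := (@Lb.d (nat_lit 10) (nat_lit 32) (nat_lit 64) (@Lb.g g8 (@Lb.g g11 (@Lb.r r2337 (@Lb.r r2391 (@Lb.r r2178 (@Lb.r r1608 (@Lb.d (nat_lit 584) (nat_lit 1) (nat_lit 682) (@Lb.fp (nat_lit 3) t64)))))))))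
noncomputable def l8637 : Lb := (@Lb.d (nat_lit 9) (nat_lit 258) (nat_lit 66) (@Lb.g g8 (@Lb.g g9 (@Lb.g g10 (@Lb.g g11 (@Lb.r r1543 (@Lb.r r420 (@Lb.r r102 (@Lb.r r21 (@Lb.r r2084 (@Lb.d (nat_lit 0) (nat_lit 137) (nat_lit 136) (@Lb.fm (nat_lit 9) t386))))))))))))
noncomputable def l8638 : Lb := (@Lb.r r331 (@Lb.d (nat_lit 161) (nat_lit 514) (nat_lit 2) (@Lb.g g8 (@Lb.g g9 (@Lb.g g10 (@Lb.r r1433 (@Lb.r r2343 (@Lb.r r1604 (@Lb.r r1098 (@Lb.d (nat_lit 337) (nat_lit 138) (nat_lit 136) (@Lb.t (@Lb.fm (nat_lit 9) t1039))))))))))))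
noncomputable def l8639 : Lb := (@Lb.d (nat_lit 34) (nat_lit 512) (nat_lit 64) (@Lb.g g8 (@Lb.g g11 (@Lb.r r1687 (@Lb.r r598 (@Lb.r r2457 (@Lb.r r408 (@Lb.d (nat_lit 666) (nat_lit 16) (nat_lit 169) (@Lb.fm (nat_lit 3) t386)))))))))
noncomputable def l8640 : Lb := (@Lb.d (nat_lit 406) (nat_lit 146) (nat_lit 145) (@Lb.r r1604 (@Lb.r r1621 (@Lb.r r1706 (@Lb.g g11 (@Lb.g g6 (@Lb.g g5 (@Lb.g g4 (@Lb.d (nat_lit 1) (nat_lit 1) (nat_lit 128) (@Lb.fp (nat_lit 9) t61))))))))))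
noncomputable def l8641 : Lb := (@Lb.d (nat_lit 33) (nat_lit 0) (nat_lit 64) (@Lb.g g8 (@Lb.g g11 (@Lb.r r1687 (@Lb.r r598 (@Lb.r r2457 (@Lb.r r408 (@Lb.d (nat_lit 666) (nat_lit 16) (nat_lit 169) (@Lb.fm (nat_lit 3) t386)))))))))
noncomputable def l8642 : Lb := (@Lb.d (nat_lit 42) (nat_lit 513) (nat_lit 64) (@Lb.g g8 (@Lb.g g9 (@Lb.g g11 (@Lb.r r2711 (@Lb.r r1622 (@Lb.r r1433 (@Lb.r r1428 (@Lb.d (nat_lit 357) (nat_lit 80) (nat_lit 409) (@Lb.t (@Lb.fp (nat_lit 9) t386)))))))))))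
noncomputable def l8643 : Lb := (@Lb.d (nat_lit 128) (nat_lit 514) (nat_lit 2) (@Lb.g g8 (@Lb.g g9 (@Lb.g g10 (@Lb.r r2691 (@Lb.r r1194 (@Lb.r r2337 (@Lb.r r152 (@Lb.d (nat_lit 664) (nat_lit 98) (nat_lit 64) (@Lb.t (@Lb.fm (nat_lit 9) t242)))))))))))
noncomputable def l8644 : Lb := (@Lb.d (nat_lit 41) (nat_lit 266) (nat_lit 0) (@Lb.g g8 (@Lb.g g9 (@Lb.g g11 (@Lb.r r1671 (@Lb.r r582 (@Lb.r r1432 (@Lb.r r1045 (@Lb.d (nat_lit 516) (nat_lit 25) (nat_lit 648) (@Lb.t (@Lb.fm (nat_lit 9) t386)))))))))))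
noncomputable def l8645 : Lb := (@Lb.d (nat_lit 129) (nat_lit 514) (nat_lit 130) (@Lb.g g8 (@Lb.g g9 (@Lb.g g10 (@Lb.g g11 (@Lb.r r1371 (@Lb.r r386 (@Lb.r r97 (@Lb.r r532 (@Lb.d (nat_lit 578) (nat_lit 168) (nat_lit 521) (@Lb.fp (nat_lit 9) t2130)))))))))))
noncomputable def l8646 : Lb := (@Lb.d (nat_lit 32) (nat_lit 256) (nat_lit 74) (@Lb.g g10 (@Lb.g g11 (@Lb.r r1384 (@Lb.r r662 (@Lb.r r2439 (@Lb.r r1057 (@Lb.d (nat_lit 406) (nat_lit 145) (nat_lit 612) (@Lb.fp (nat_lit 3) t2131)))))))))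
noncomputable def l8647 : Lb := (@Lb.d (nat_lit 2) (nat_lit 550) (nat_lit 74) (@Lb.g g8 (@Lb.g g9 (@Lb.g g10 (@Lb.g g11 (@Lb.r r683 (@Lb.r r1561 (@Lb.r r1688 (@Lb.r r1610 (@Lb.d (nat_lit 520) (nat_lit 150) (nat_lit 153) (@Lb.fp (nat_lit 9) t2132)))))))))))
noncomputable def l8648 : Lb := (@Lb.d (nat_lit 9) (nat_lit 40) (nat_lit 128) (@Lb.g g8 (@Lb.g g10 (@Lb.g g11 (@Lb.r r1045 (@Lb.r r2340 (@Lb.r r2635 (@Lb.r r2370 (@Lb.d (nat_lit 101) (nat_lit 74) (nat_lit 4) (@Lb.t (@Lb.fp (nat_lit 9) t748)))))))))))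
noncomputable def l8649 : Lb := (@Lb.g g4 (@Lb.g g7 (@Lb.d (nat_lit 1) (nat_lit 256) (nat_lit 0) (@Lb.fm (nat_lit 3) t2))))
noncomputable def l8650 : Lb := (@Lb.d (nat_lit 146) (nat_lit 258) (nat_lit 129) (@Lb.g g8 (@Lb.g g9 (@Lb.g g10 (@Lb.g g11 (@Lb.r r2727 (@Lb.r r296 (@Lb.r r1689 (@Lb.r r1370 (@Lb.d (nat_lit 324) (nat_lit 16) (nat_lit 132) (@Lb.fp (nat_lit 9) t212)))))))))))
noncomputable def l8651 : Lb := (@Lb.d (nat_lit 9) (nat_lit 8) (nat_lit 128) (@Lb.g g8 (@Lb.g g10 (@Lb.g g11 (@Lb.r r403 (@Lb.r r1045 (@Lb.r r2664 (@Lb.r r1350 (@Lb.d (nat_lit 342) (nat_lit 74) (nat_lit 21) (@Lb.t (@Lb.fp (nat_lit 9) t748)))))))))))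
noncomputable def l8652 : Lb := (@Lb.d (nat_lit 41) (nat_lit 256) (nat_lit 136) (@Lb.g g8 (@Lb.g g11 (@Lb.r r1173 (@Lb.r r150 (@Lb.r r356 (@Lb.r r1291 (@Lb.d (nat_lit 5) (nat_lit 42) (nat_lit 342) (@Lb.fp (nat_lit 3) t748)))))))))
noncomputable def l8653 : Lb := (@Lb.d (nat_lit 134) (nat_lit 517) (nat_lit 128) (@Lb.g g8 (@Lb.g g9 (@Lb.g g10 (@Lb.g g11 (@Lb.r r1706 (@Lb.r r1411 (@Lb.r r85 (@Lb.r r1176 (@Lb.d (nat_lit 582) (nat_lit 10) (nat_lit 137) (@Lb.fp (nat_lit 9) t328)))))))))))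
noncomputable def l8654 : Lb := (@Lb.d (nat_lit 2) (nat_lit 294) (nat_lit 74) (@Lb.g g8 (@Lb.g g9 (@Lb.g g10 (@Lb.g g11 (@Lb.r r683 (@Lb.r r1561 (@Lb.r r1688 (@Lb.r r1610 (@Lb.d (nat_lit 520) (nat_lit 152) (nat_lit 154) (@Lb.fp (nat_lit 9) t2132)))))))))))
noncomputable def l8655 : Lb := (@Lb.d (nat_lit 1) (nat_lit 512) (nat_lit 73) (@Lb.g g8 (@Lb.g g9 (@Lb.g g10 (@Lb.g g11 (@Lb.r r2691 (@Lb.r r2657 (@Lb.r r1690 (@Lb.r r2180 (@Lb.d (nat_lit 354) (nat_lit 170) (nat_lit 337) (@Lb.fm (nat_lit 9) t2133)))))))))))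
noncomputable def l8656 : Lb := (@Lb.d (nat_lit 2) (nat_lit 21) (nat_lit 586) (@Lb.g g8 (@Lb.g g9 (@Lb.g g10 (@Lb.g g7 (@Lb.r r1622 (@Lb.r r341 (@Lb.r r24 (@Lb.d (nat_lit 16) (nat_lit 41) (nat_lit 357) (@Lb.fp (nat_lit 9) t377))))))))))
noncomputable def l8657 : Lb := (@Lb.d (nat_lit 2) (nat_lit 528) (nat_lit 585) (@Lb.g g8 (@Lb.g g9 (@Lb.g g10 (@Lb.g g7 (@Lb.r r342 (@Lb.r r2133 (@Lb.r r24 (@Lb.d (nat_lit 656) (nat_lit 73) (nat_lit 265) (@Lb.fp (nat_lit 9) t377))))))))))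
noncomputable def l8658 : Lb := (@Lb.d (nat_lit 326) (nat_lit 340) (nat_lit 680) (@Lb.r r353 (@Lb.r r407 (@Lb.r r584 (@Lb.r r1362 (@Lb.g g7 (@Lb.g g6 (@Lb.g g5 (@Lb.d (nat_lit 4) (nat_lit 1) (nat_lit 65) (@Lb.t (@Lb.fp (nat_lit 9) t217)))))))))))
noncomputable def l8659 : Lb := (@Lb.d (nat_lit 0) (nat_lit 0) (nat_lit 10) (@Lb.g g10 (@Lb.g g7 (@Lb.r r402 (@Lb.r r101 (@Lb.d (nat_lit 65) (nat_lit 34) (nat_lit 0) (@Lb.fp (nat_lit 3) t983)))))))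
noncomputable def l8660 : Lb := (@Lb.r r70 (@Lb.d (nat_lit 386) (nat_lit 522) (nat_lit 128) (@Lb.g g8 (@Lb.g g9 (@Lb.g g11 (@Lb.r r2454 (@Lb.r r2391 (@Lb.r r2601 (@Lb.d (nat_lit 325) (nat_lit 25) (nat_lit 276) (@Lb.t (@Lb.fm (nat_lit 9) t125)))))))))))
noncomputable def l8661 : Lb := (@Lb.d (nat_lit 128) (nat_lit 38) (nat_lit 64) (@Lb.g g8 (@Lb.g g9 (@Lb.g g10 (@Lb.g g11 (@Lb.r r419 (@Lb.r r2726 (@Lb.r r1364 (@Lb.r r409 (@Lb.d (nat_lit 154) (nat_lit 66) (nat_lit 616) (@Lb.fm (nat_lit 9) t2134)))))))))))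
noncomputable def l8662 : Lb := (@Lb.d (nat_lit 128) (nat_lit 289) (nat_lit 66) (@Lb.g g8 (@Lb.g g9 (@Lb.g g10 (@Lb.g g11 (@Lb.r r419 (@Lb.r r2726 (@Lb.r r1364 (@Lb.r r409 (@Lb.d (nat_lit 154) (nat_lit 66) (nat_lit 616) (@Lb.fm (nat_lit 9) t2135)))))))))))
noncomputable def l8663 : Lb := (@Lb.d (nat_lit 328) (nat_lit 534) (nat_lit 328) (@Lb.r r1321 (@Lb.r r1444 (@Lb.r r2214 (@Lb.r r611 (@Lb.g g6 (@Lb.g g5 (@Lb.d (nat_lit 4) (nat_lit 8) (nat_lit 0) (@Lb.r r387 (@Lb.fp (nat_lit 3) t2136))))))))))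
noncomputable def l8664 : Lb := (@Lb.d (nat_lit 522) (nat_lit 22) (nat_lit 353) (@Lb.r r1603 (@Lb.r r1430 (@Lb.r r2120 (@Lb.r r2145 (@Lb.g g7 (@Lb.g g6 (@Lb.d (nat_lit 64) (nat_lit 0) (nat_lit 64) (@Lb.fm (nat_lit 3) t2137)))))))))
noncomputable def l8665 : Lb := (@Lb.d (nat_lit 9) (nat_lit 512) (nat_lit 130) (@Lb.g g8 (@Lb.g g10 (@Lb.g g11 (@Lb.r r602 (@Lb.r r1611 (@Lb.r r149 (@Lb.r r1636 (@Lb.d (nat_lit 261) (nat_lit 18) (nat_lit 256) (@Lb.t (@Lb.fp (nat_lit 9) t461)))))))))))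
noncomputable def l8666 : Lb := (@Lb.d (nat_lit 517) (nat_lit 422) (nat_lit 328) (@Lb.r r1321 (@Lb.r r1444 (@Lb.r r2374 (@Lb.r r611 (@Lb.g g7 (@Lb.g g6 (@Lb.g g5 (@Lb.d (nat_lit 4) (nat_lit 8) (nat_lit 133) (@Lb.t (@Lb.fp (nat_lit 9) t986)))))))))))
noncomputable def l8667 : Lb := (@Lb.d (nat_lit 8) (nat_lit 514) (nat_lit 4) (@Lb.g g8 (@Lb.g g9 (@Lb.g g10 (@Lb.g g11 (@Lb.r r2391 (@Lb.r r2390 (@Lb.r r2145 (@Lb.r r24 (@Lb.d (nat_lit 153) (nat_lit 73) (nat_lit 345) (@Lb.fp (nat_lit 9) t457)))))))))))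
noncomputable def l8668 : Lb := (@Lb.d (nat_lit 425) (nat_lit 8) (nat_lit 418) (@Lb.r r1109 (@Lb.r r2088 (@Lb.r r418 (@Lb.g g11 (@Lb.g g6 (@Lb.g g5 (@Lb.g g4 (@Lb.d (nat_lit 1) (nat_lit 25) (nat_lit 394) (@Lb.fm (nat_lit 9) t1343))))))))))
noncomputable def l8669 : Lb := (@Lb.d (nat_lit 536) (nat_lit 640) (nat_lit 17) (@Lb.r r24 (@Lb.r r101 (@Lb.r r2403 (@Lb.g g6 (@Lb.d (nat_lit 0) (nat_lit 4) (nat_lit 1) (@Lb.t (@Lb.fm (nat_lit 3) t233))))))))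
noncomputable def l8670 : Lb := (@Lb.d (nat_lit 8) (nat_lit 2) (nat_lit 4) (@Lb.g g8 (@Lb.g g9 (@Lb.g g10 (@Lb.g g11 (@Lb.r r2391 (@Lb.r r2390 (@Lb.r r105 (@Lb.r r36 (@Lb.d (nat_lit 36) (nat_lit 164) (nat_lit 601) (@Lb.fm (nat_lit 9) t954)))))))))))
noncomputable def l8671 : Lb := (@Lb.d (nat_lit 16) (nat_lit 544) (nat_lit 162) (@Lb.g g10 (@Lb.g g11 (@Lb.r r2405 (@Lb.r r1555 (@Lb.r r1156 (@Lb.d (nat_lit 360) (nat_lit 130) (nat_lit 33) (@Lb.fm (nat_lit 3) t2138))))))))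
noncomputable def l8672 : Lb := (@Lb.d (nat_lit 256) (nat_lit 261) (nat_lit 84) (@Lb.r r322 (@Lb.r r1671 (@Lb.r r2324 (@Lb.r r2729 (@Lb.g g7 (@Lb.g g6 (@Lb.g g5 (@Lb.d (nat_lit 0) (nat_lit 8) (nat_lit 64) (@Lb.t (@Lb.fp (nat_lit 9) t2139)))))))))))
noncomputable def l8673 : Lb := (@Lb.d (nat_lit 0) (nat_lit 512) (nat_lit 136) (@Lb.g g11 (@Lb.r r1414 (@Lb.r r24 (@Lb.r r2069 (@Lb.r r36 (@Lb.d (nat_lit 10) (nat_lit 8) (nat_lit 128) (@Lb.t (@Lb.fp (nat_lit 3) t354)))))))))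
noncomputable def l8674 : Lb := (@Lb.d (nat_lit 145) (nat_lit 258) (nat_lit 74) (@Lb.g g8 (@Lb.g g9 (@Lb.g g10 (@Lb.g g11 (@Lb.r r343 (@Lb.r r2665 (@Lb.r r1110 (@Lb.r r148 (@Lb.d (nat_lit 546) (nat_lit 9) (nat_lit 514) (@Lb.fm (nat_lit 9) t1751)))))))))))
noncomputable def l8675 : Lb := (@Lb.d (nat_lit 33) (nat_lit 585) (nat_lit 129) (@Lb.g g8 (@Lb.g g9 (@Lb.g g10 (@Lb.g g11 (@Lb.r r1623 (@Lb.r r2730 (@Lb.r r2628 (@Lb.d (nat_lit 132) (nat_lit 72) (nat_lit 596) (@Lb.fp (nat_lit 9) t2140))))))))))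
noncomputable def l8676 : Lb := (@Lb.d (nat_lit 0) (nat_lit 2) (nat_lit 128) (@Lb.g g9 (@Lb.g g10 (@Lb.g g11 (@Lb.r r387 (@Lb.r r1414 (@Lb.r r2084 (@Lb.r r37 (@Lb.d (nat_lit 264) (nat_lit 133) (nat_lit 2) (@Lb.t (@Lb.fm (nat_lit 9) t354)))))))))))
noncomputable def l8677 : Lb := (@Lb.d (nat_lit 2) (nat_lit 1) (nat_lit 130) (@Lb.g g8 (@Lb.g g9 (@Lb.g g10 (@Lb.g g11 (@Lb.r r586 (@Lb.r r616 (@Lb.r r537 (@Lb.r r2587 (@Lb.r r2564 (@Lb.d (nat_lit 9) (nat_lit 73) (nat_lit 662) (@Lb.fp (nat_lit 9) t71))))))))))))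
noncomputable def l8678 : Lb := (@Lb.d (nat_lit 8) (nat_lit 258) (nat_lit 128) (@Lb.g g9 (@Lb.g g11 (@Lb.r r1447 (@Lb.r r1414 (@Lb.r r24 (@Lb.d (nat_lit 278) (nat_lit 69) (nat_lit 34) (@Lb.fm (nat_lit 3) t638))))))))
noncomputable def l8679 : Lb := (@Lb.d (nat_lit 2) (nat_lit 258) (nat_lit 130) (@Lb.g g8 (@Lb.g g9 (@Lb.g g10 (@Lb.g g11 (@Lb.r r427 (@Lb.r r297 (@Lb.r r104 (@Lb.r r70 (@Lb.r r132 (@Lb.d (nat_lit 9) (nat_lit 73) (nat_lit 386) (@Lb.fp (nat_lit 9) t119))))))))))))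
noncomputable def l8680 : Lb := (@Lb.d (nat_lit 146) (nat_lit 514) (nat_lit 10) (@Lb.g g8 (@Lb.g g9 (@Lb.g g10 (@Lb.g g11 (@Lb.r r2667 (@Lb.r r1602 (@Lb.r r1065 (@Lb.r r1060 (@Lb.d (nat_lit 265) (nat_lit 33) (nat_lit 618) (@Lb.fp (nat_lit 9) t355)))))))))))
noncomputable def l8681 : Lb := (@Lb.d (nat_lit 146) (nat_lit 258) (nat_lit 64) (@Lb.g g8 (@Lb.g g9 (@Lb.g g10 (@Lb.g g11 (@Lb.r r427 (@Lb.r r1602 (@Lb.r r409 (@Lb.r r388 (@Lb.d (nat_lit 105) (nat_lit 40) (nat_lit 73) (@Lb.fp (nat_lit 9) t394)))))))))))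
noncomputable def l8682 : Lb := (@Lb.d (nat_lit 153) (nat_lit 257) (nat_lit 10) (@Lb.g g8 (@Lb.g g9 (@Lb.g g10 (@Lb.g g11 (@Lb.r r2667 (@Lb.r r1602 (@Lb.r r1065 (@Lb.r r1060 (@Lb.d (nat_lit 264) (nat_lit 33) (nat_lit 618) (@Lb.fp (nat_lit 9) t355)))))))))))
noncomputable def l8683 : Lb := (@Lb.d (nat_lit 257) (nat_lit 324) (nat_lit 265) (@Lb.r r403 (@Lb.r r1426 (@Lb.r r101 (@Lb.r r532 (@Lb.g g7 (@Lb.d (nat_lit 64) (nat_lit 16) (nat_lit 64) (@Lb.t (@Lb.fm (nat_lit 3) t216)))))))))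
noncomputable def l8684 : Lb := (@Lb.d (nat_lit 130) (nat_lit 2) (nat_lit 0) (@Lb.g g8 (@Lb.g g9 (@Lb.r r343 (@Lb.r r2178 (@Lb.r r1561 (@Lb.r r2708 (@Lb.d (nat_lit 149) (nat_lit 165) (nat_lit 388) (@Lb.fp (nat_lit 3) t307)))))))))
noncomputable def l8685 : Lb := (@Lb.r r1096 (@Lb.r r2646 (@Lb.r r289 (@Lb.d (nat_lit 0) (nat_lit 69) (nat_lit 528) (@Lb.fp (nat_lit 1) t2141)))))
noncomputable def l8686 : Lb := (@Lb.d (nat_lit 2) (nat_lit 545) (nat_lit 66) (@Lb.g g8 (@Lb.g g9 (@Lb.g g10 (@Lb.g g11 (@Lb.r r2666 (@Lb.r r2657 (@Lb.r r1315 (@Lb.d (nat_lit 521) (nat_lit 161) (nat_lit 517) (@Lb.fm (nat_lit 9) t1444))))))))))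
noncomputable def l8687 : Lb := (@Lb.d (nat_lit 418) (nat_lit 292) (nat_lit 165) (@Lb.r r2469 (@Lb.r r1190 (@Lb.r r1352 (@Lb.r r2695 (@Lb.g g7 (@Lb.g g6 (@Lb.g g5 (@Lb.d (nat_lit 16) (nat_lit 6) (nat_lit 132) (@Lb.t (@Lb.fp (nat_lit 9) t741)))))))))))
noncomputable def l8688 : Lb := (@Lb.d (nat_lit 8) (nat_lit 514) (nat_lit 0) (@Lb.g g9 (@Lb.r r1300 (@Lb.r r363 (@Lb.r r2178 (@Lb.r r409 (@Lb.d (nat_lit 10) (nat_lit 146) (nat_lit 538) (@Lb.t (@Lb.fm (nat_lit 3) t2142)))))))))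
noncomputable def l8689 : Lb := (@Lb.d (nat_lit 0) (nat_lit 521) (nat_lit 132) (@Lb.g g9 (@Lb.g g10 (@Lb.g g11 (@Lb.r r2466 (@Lb.r r2713 (@Lb.r r2587 (@Lb.r r24 (@Lb.d (nat_lit 672) (nat_lit 0) (nat_lit 329) (@Lb.t (@Lb.fp (nat_lit 9) t1061)))))))))))
noncomputable def l8690 : Lb := (@Lb.d (nat_lit 72) (nat_lit 33) (nat_lit 66) (@Lb.g g8 (@Lb.g g9 (@Lb.g g10 (@Lb.g g11 (@Lb.r r578 (@Lb.r r1623 (@Lb.r r2581 (@Lb.r r276 (@Lb.d (nat_lit 361) (nat_lit 80) (nat_lit 66) (@Lb.fm (nat_lit 9) t2143)))))))))))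
noncomputable def l8691 : Lb := (@Lb.r r82 (@Lb.d (nat_lit 34) (nat_lit 258) (nat_lit 128) (@Lb.g g8 (@Lb.g g9 (@Lb.g g11 (@Lb.r r363 (@Lb.r r582 (@Lb.r r388 (@Lb.d (nat_lit 598) (nat_lit 2) (nat_lit 105) (@Lb.t (@Lb.fm (nat_lit 9) t2144)))))))))))
noncomputable def l8692 : Lb := (@Lb.r r82 (@Lb.r r275 (@Lb.d (nat_lit 33) (nat_lit 386) (nat_lit 0) (@Lb.g g8 (@Lb.g g5 (@Lb.r r2403 (@Lb.r r102 (@Lb.r r168 (@Lb.d (nat_lit 538) (nat_lit 128) (nat_lit 1) (@Lb.fm (nat_lit 3) t2097))))))))))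
noncomputable def l8693 : Lb := (@Lb.r r82 (@Lb.r r275 (@Lb.d (nat_lit 2) (nat_lit 0) (nat_lit 0) (@Lb.g g8 (@Lb.g g9 (@Lb.r r1371 (@Lb.r r2213 (@Lb.r r98 (@Lb.r r24 (@Lb.d (nat_lit 2) (nat_lit 69) (nat_lit 0) (@Lb.fm (nat_lit 3) t1556)))))))))))
noncomputable def l8694 : Lb := (@Lb.d (nat_lit 18) (nat_lit 4) (nat_lit 72) (@Lb.g g8 (@Lb.g g9 (@Lb.g g10 (@Lb.g g11 (@Lb.r r683 (@Lb.r r610 (@Lb.r r24 (@Lb.r r37 (@Lb.d (nat_lit 106) (nat_lit 137) (nat_lit 136) (@Lb.fm (nat_lit 9) t218)))))))))))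
noncomputable def l8695 : Lb := (@Lb.d (nat_lit 2) (nat_lit 256) (nat_lit 0) (@Lb.g g8 (@Lb.g g9 (@Lb.r r2438 (@Lb.r r579 (@Lb.r r2577 (@Lb.d (nat_lit 74) (nat_lit 2) (nat_lit 64) (@Lb.fm (nat_lit 3) t2145))))))))
noncomputable def l8696 : Lb := (@Lb.r r82 (@Lb.d (nat_lit 5) (nat_lit 298) (nat_lit 64) (@Lb.g g4 (@Lb.g g9 (@Lb.g g11 (@Lb.r r615 (@Lb.r r402 (@Lb.r r601 (@Lb.d (nat_lit 138) (nat_lit 164) (nat_lit 136) (@Lb.t (@Lb.fp (nat_lit 9) t218)))))))))))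
noncomputable def l8697 : Lb := (@Lb.d (nat_lit 16) (nat_lit 2) (nat_lit 74) (@Lb.g g8 (@Lb.g g9 (@Lb.g g10 (@Lb.g g11 (@Lb.r r1675 (@Lb.r r2401 (@Lb.r r1170 (@Lb.r r584 (@Lb.d (nat_lit 581) (nat_lit 4) (nat_lit 168) (@Lb.fp (nat_lit 9) t789)))))))))))
noncomputable def l8698 : Lb := (@Lb.g g9 (@Lb.d (nat_lit 5) (nat_lit 1) (nat_lit 0) (@Lb.t (@Lb.fp (nat_lit 3) t2))))
noncomputable def l8699 : Lb := (@Lb.r r21 (@Lb.r r70 (@Lb.d (nat_lit 656) (nat_lit 0) (nat_lit 128) (@Lb.g g4 (@Lb.g g11 (@Lb.r r662 (@Lb.r r1411 (@Lb.r r97 (@Lb.d (nat_lit 1) (nat_lit 90) (nat_lit 325) (@Lb.fp (nat_lit 3) t898))))))))))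
noncomputable def l8700 : Lb := (@Lb.d (nat_lit 1) (nat_lit 256) (nat_lit 130) (@Lb.g g8 (@Lb.g g9 (@Lb.g g10 (@Lb.g g11 (@Lb.r r532 (@Lb.r r295 (@Lb.r r357 (@Lb.r r666 (@Lb.r r644 (@Lb.d (nat_lit 2) (nat_lit 2) (nat_lit 137) (@Lb.fp (nat_lit 9) t2))))))))))))
noncomputable def l8701 : Lb := (@Lb.d (nat_lit 389) (nat_lit 17) (nat_lit 576) (@Lb.r r1090 (@Lb.r r24 (@Lb.r r327 (@Lb.g g6 (@Lb.g g9 (@Lb.r r387 (@Lb.fm (nat_lit 3) t282))))))))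
noncomputable def l8702 : Lb := (@Lb.d (nat_lit 0) (nat_lit 512) (nat_lit 136) (@Lb.g g10 (@Lb.g g11 (@Lb.r r2407 (@Lb.r r1429 (@Lb.r r1106 (@Lb.d (nat_lit 256) (nat_lit 10) (nat_lit 0) (@Lb.fm (nat_lit 3) t2146))))))))
noncomputable def l8703 : Lb := (@Lb.d (nat_lit 2) (nat_lit 0) (nat_lit 130) (@Lb.g g8 (@Lb.g g9 (@Lb.g g10 (@Lb.g g11 (@Lb.r r532 (@Lb.r r295 (@Lb.r r357 (@Lb.r r666 (@Lb.r r644 (@Lb.d (nat_lit 2) (nat_lit 2) (nat_lit 137) (@Lb.fp (nat_lit 9) t2))))))))))))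
noncomputable def l8704 : Lb := (@Lb.d (nat_lit 136) (nat_lit 258) (nat_lit 130) (@Lb.g g9 (@Lb.g g10 (@Lb.g g11 (@Lb.r r264 (@Lb.r r279 (@Lb.r r1098 (@Lb.r r537 (@Lb.d (nat_lit 266) (nat_lit 65) (nat_lit 146) (@Lb.t (@Lb.fp (nat_lit 9) t414)))))))))))
noncomputable def l8705 : Lb := (@Lb.d (nat_lit 2) (nat_lit 256) (nat_lit 130) (@Lb.g g8 (@Lb.g g9 (@Lb.g g10 (@Lb.g g11 (@Lb.r r532 (@Lb.r r295 (@Lb.r r357 (@Lb.r r666 (@Lb.r r644 (@Lb.d (nat_lit 9) (nat_lit 1) (nat_lit 137) (@Lb.fp (nat_lit 9) t2))))))))))))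
noncomputable def l8706 : Lb := (@Lb.r r21 (@Lb.r r322 (@Lb.d (nat_lit 258) (nat_lit 256) (nat_lit 8) (@Lb.g g8 (@Lb.g g11 (@Lb.r r2438 (@Lb.r r25 (@Lb.d (nat_lit 528) (nat_lit 0) (nat_lit 161) (@Lb.fp (nat_lit 3) t994)))))))))
noncomputable def l8707 : Lb := (@Lb.r r323 (@Lb.d (nat_lit 0) (nat_lit 261) (nat_lit 0) (@Lb.g g5 (@Lb.g g10 (@Lb.r r2339 (@Lb.r r2202 (@Lb.d (nat_lit 530) (nat_lit 1) (nat_lit 18) (@Lb.fm (nat_lit 3) t58))))))))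
noncomputable def l8708 : Lb := (@Lb.d (nat_lit 400) (nat_lit 17) (nat_lit 513) (@Lb.r r1382 (@Lb.r r2724 (@Lb.r r1305 (@Lb.g g11 (@Lb.g g6 (@Lb.g g4 (@Lb.d (nat_lit 1) (nat_lit 20) (nat_lit 385) (@Lb.r r529 (@Lb.t (@Lb.fm (nat_lit 9) t468)))))))))))
noncomputable def l8709 : Lb := (@Lb.r r21 (@Lb.r r2118 (@Lb.d (nat_lit 513) (nat_lit 0) (nat_lit 0) (@Lb.g g4 (@Lb.r r25 (@Lb.d (nat_lit 32) (nat_lit 0) (nat_lit 16) (@Lb.t (@Lb.fm (nat_lit 3) t560))))))))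
noncomputable def l8710 : Lb := (@Lb.d (nat_lit 0) (nat_lit 0) (nat_lit 32) (@Lb.r r579 (@Lb.g g7 (@Lb.g g10 (@Lb.fm (nat_lit 3) t2)))))
noncomputable def l8711 : Lb := (@Lb.d (nat_lit 0) (nat_lit 0) (nat_lit 136) (@Lb.g g10 (@Lb.g g11 (@Lb.r r386 (@Lb.r r323 (@Lb.r r1602 (@Lb.d (nat_lit 0) (nat_lit 0) (nat_lit 530) (@Lb.fp (nat_lit 3) t2))))))))
noncomputable def l8712 : Lb := (@Lb.d (nat_lit 0) (nat_lit 512) (nat_lit 128) (@Lb.g g10 (@Lb.g g11 (@Lb.r r2626 (@Lb.r r579 (@Lb.d (nat_lit 0) (nat_lit 0) (nat_lit 586) (@Lb.fp (nat_lit 3) t2)))))))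
noncomputable def l8713 : Lb := (@Lb.d (nat_lit 2) (nat_lit 258) (nat_lit 74) (@Lb.g g8 (@Lb.g g9 (@Lb.g g10 (@Lb.g g11 (@Lb.r r2731 (@Lb.r r2724 (@Lb.r r2214 (@Lb.r r145 (@Lb.d (nat_lit 521) (nat_lit 73) (nat_lit 137) (@Lb.fp (nat_lit 9) t51)))))))))))
noncomputable def l8714 : Lb := (@Lb.d (nat_lit 34) (nat_lit 513) (nat_lit 100) (@Lb.r r70 (@Lb.r r392 (@Lb.r r599 (@Lb.g g6 (@Lb.g g5 (@Lb.g g4 (@Lb.d (nat_lit 1) (nat_lit 17) (nat_lit 1) (@Lb.r r387 (@Lb.t (@Lb.fp (nat_lit 9) t546)))))))))))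
noncomputable def l8715 : Lb := (@Lb.d (nat_lit 2) (nat_lit 514) (nat_lit 74) (@Lb.g g8 (@Lb.g g9 (@Lb.g g10 (@Lb.g g11 (@Lb.r r2731 (@Lb.r r2724 (@Lb.r r2214 (@Lb.r r145 (@Lb.d (nat_lit 521) (nat_lit 68) (nat_lit 136) (@Lb.fp (nat_lit 9) t51)))))))))))
noncomputable def l8716 : Lb := (@Lb.r r70 (@Lb.d (nat_lit 288) (nat_lit 522) (nat_lit 0) (@Lb.g g8 (@Lb.g g9 (@Lb.r r662 (@Lb.r r2731 (@Lb.r r2601 (@Lb.d (nat_lit 325) (nat_lit 96) (nat_lit 256) (@Lb.fp (nat_lit 3) t394)))))))))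
noncomputable def l8717 : Lb := (@Lb.d (nat_lit 16) (nat_lit 0) (nat_lit 88) (@Lb.g g6 (@Lb.g g11 (@Lb.r r1611 (@Lb.d (nat_lit 98) (nat_lit 0) (nat_lit 544) (@Lb.fm (nat_lit 3) t282))))))
noncomputable def l8718 : Lb := (@Lb.r r82 (@Lb.d (nat_lit 8) (nat_lit 10) (nat_lit 0) (@Lb.g g9 (@Lb.r r2390 (@Lb.r r328 (@Lb.r r407 (@Lb.r r609 (@Lb.d (nat_lit 328) (nat_lit 90) (nat_lit 650) (@Lb.t (@Lb.fp (nat_lit 3) t394))))))))))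
noncomputable def l8719 : Lb := (@Lb.r r81 (@Lb.r r263 (@Lb.d (nat_lit 2) (nat_lit 256) (nat_lit 25) (@Lb.g g8 (@Lb.g g6 (@Lb.r r1443 (@Lb.r r2345 (@Lb.r r1060 (@Lb.d (nat_lit 41) (nat_lit 130) (nat_lit 32) (@Lb.fm (nat_lit 3) t2147))))))))))
noncomputable def l8720 : Lb := (@Lb.d (nat_lit 8) (nat_lit 294) (nat_lit 10) (@Lb.r r359 (@Lb.r r341 (@Lb.r r166 (@Lb.r r72 (@Lb.g g7 (@Lb.g g6 (@Lb.g g5 (@Lb.d (nat_lit 80) (nat_lit 1) (nat_lit 65) (@Lb.t (@Lb.fp (nat_lit 9) t2)))))))))))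
noncomputable def l8721 : Lb := (@Lb.d (nat_lit 16) (nat_lit 9) (nat_lit 73) (@Lb.g g8 (@Lb.g g9 (@Lb.g g10 (@Lb.g g11 (@Lb.r r427 (@Lb.r r1169 (@Lb.r r356 (@Lb.r r2202 (@Lb.r r1156 (@Lb.d (nat_lit 521) (nat_lit 73) (nat_lit 546) (@Lb.fm (nat_lit 9) t981))))))))))))
noncomputable def l8722 : Lb := (@Lb.r r359 (@Lb.d (nat_lit 2) (nat_lit 516) (nat_lit 0) (@Lb.g g8 (@Lb.g g9 (@Lb.g g10 (@Lb.r r338 (@Lb.r r1411 (@Lb.r r2325 (@Lb.r r1060 (@Lb.d (nat_lit 682) (nat_lit 130) (nat_lit 674) (@Lb.t (@Lb.fm (nat_lit 9) t2147))))))))))))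
noncomputable def l8723 : Lb := (@Lb.d (nat_lit 145) (nat_lit 258) (nat_lit 74) (@Lb.g g8 (@Lb.g g9 (@Lb.g g10 (@Lb.g g11 (@Lb.r r427 (@Lb.r r2146 (@Lb.r r292 (@Lb.r r21 (@Lb.r r36 (@Lb.d (nat_lit 289) (nat_lit 169) (nat_lit 145) (@Lb.fp (nat_lit 9) t495))))))))))))
noncomputable def l8724 : Lb := (@Lb.d (nat_lit 128) (nat_lit 2) (nat_lit 130) (@Lb.g g9 (@Lb.g g10 (@Lb.g g11 (@Lb.r r169 (@Lb.r r264 (@Lb.r r423 (@Lb.r r98 (@Lb.d (nat_lit 258) (nat_lit 88) (nat_lit 532) (@Lb.t (@Lb.fm (nat_lit 9) t2148)))))))))))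
noncomputable def l8725 : Lb := (@Lb.d (nat_lit 8) (nat_lit 258) (nat_lit 128) (@Lb.g g9 (@Lb.g g11 (@Lb.r r1447 (@Lb.r r1414 (@Lb.r r24 (@Lb.d (nat_lit 282) (nat_lit 70) (nat_lit 34) (@Lb.fm (nat_lit 3) t638))))))))
noncomputable def l8726 : Lb := (@Lb.d (nat_lit 74) (nat_lit 88) (nat_lit 20) (@Lb.r r2371 (@Lb.r r1686 (@Lb.r r2145 (@Lb.g g7 (@Lb.g g6 (@Lb.g g8 (@Lb.d (nat_lit 328) (nat_lit 4) (nat_lit 65) (@Lb.r r25 (@Lb.t (@Lb.fm (nat_lit 9) t1774)))))))))))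
noncomputable def l8727 : Lb := (@Lb.d (nat_lit 8) (nat_lit 258) (nat_lit 128) (@Lb.g g9 (@Lb.g g10 (@Lb.g g11 (@Lb.r r1447 (@Lb.r r1414 (@Lb.r r24 (@Lb.d (nat_lit 280) (nat_lit 70) (nat_lit 34) (@Lb.t (@Lb.fm (nat_lit 9) t638))))))))))
noncomputable def l8728 : Lb := (@Lb.d (nat_lit 0) (nat_lit 258) (nat_lit 1) (@Lb.g g9 (@Lb.g g10 (@Lb.r r1352 (@Lb.r r2726 (@Lb.r r2725 (@Lb.r r2471 (@Lb.d (nat_lit 0) (nat_lit 2) (nat_lit 416) (@Lb.fp (nat_lit 3) t2149)))))))))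
noncomputable def l8729 : Lb := (@Lb.d (nat_lit 160) (nat_lit 258) (nat_lit 130) (@Lb.g g9 (@Lb.g g10 (@Lb.g g11 (@Lb.r r72 (@Lb.r r166 (@Lb.r r665 (@Lb.r r411 (@Lb.d (nat_lit 9) (nat_lit 66) (nat_lit 646) (@Lb.t (@Lb.fm (nat_lit 9) t1522)))))))))))
noncomputable def l8730 : Lb := (@Lb.d (nat_lit 33) (nat_lit 261) (nat_lit 68) (@Lb.r r154 (@Lb.r r664 (@Lb.r r667 (@Lb.r r353 (@Lb.g g7 (@Lb.g g6 (@Lb.g g4 (@Lb.d (nat_lit 1) (nat_lit 4) (nat_lit 65) (@Lb.t (@Lb.fp (nat_lit 9) t2)))))))))))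
noncomputable def l8731 : Lb := (@Lb.d (nat_lit 2) (nat_lit 512) (nat_lit 128) (@Lb.g g8 (@Lb.g g11 (@Lb.r r337 (@Lb.r r683 (@Lb.r r680 (@Lb.r r170 (@Lb.r r153 (@Lb.d (nat_lit 6) (nat_lit 1) (nat_lit 137) (@Lb.fp (nat_lit 3) t2))))))))))
noncomputable def l8732 : Lb := (@Lb.d (nat_lit 2) (nat_lit 258) (nat_lit 2) (@Lb.g g8 (@Lb.g g9 (@Lb.g g10 (@Lb.g g11 (@Lb.r r683 (@Lb.r r676 (@Lb.r r166 (@Lb.r r145 (@Lb.d (nat_lit 5) (nat_lit 6) (nat_lit 136) (@Lb.fp (nat_lit 9) t51)))))))))))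
noncomputable def l8733 : Lb := (@Lb.d (nat_lit 145) (nat_lit 514) (nat_lit 74) (@Lb.g g8 (@Lb.g g9 (@Lb.g g10 (@Lb.g g11 (@Lb.r r343 (@Lb.r r1382 (@Lb.r r145 (@Lb.r r580 (@Lb.d (nat_lit 666) (nat_lit 137) (nat_lit 137) (@Lb.fp (nat_lit 9) t472)))))))))))
noncomputable def l8734 : Lb := (@Lb.d (nat_lit 0) (nat_lit 256) (nat_lit 128) (@Lb.g g10 (@Lb.g g11 (@Lb.r r387 (@Lb.r r24 (@Lb.r r101 (@Lb.d (nat_lit 0) (nat_lit 81) (nat_lit 420) (@Lb.fm (nat_lit 3) t153))))))))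
noncomputable def l8735 : Lb := (@Lb.d (nat_lit 145) (nat_lit 2) (nat_lit 74) (@Lb.g g8 (@Lb.g g9 (@Lb.g g10 (@Lb.g g11 (@Lb.r r343 (@Lb.r r1382 (@Lb.r r145 (@Lb.r r580 (@Lb.d (nat_lit 666) (nat_lit 132) (nat_lit 136) (@Lb.fp (nat_lit 9) t472)))))))))))
noncomputable def l8736 : Lb := (@Lb.g g10 (@Lb.g g11 (@Lb.r r2439 (@Lb.r r24 (@Lb.r r101 (@Lb.d (nat_lit 0) (nat_lit 581) (nat_lit 0) (@Lb.fm (nat_lit 3) t391)))))))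
noncomputable def l8737 : Lb := (@Lb.r r70 (@Lb.r r263 (@Lb.d (nat_lit 1) (nat_lit 294) (nat_lit 0) (@Lb.g g8 (@Lb.g g9 (@Lb.r r599 (@Lb.r r2442 (@Lb.r r264 (@Lb.d (nat_lit 400) (nat_lit 2) (nat_lit 129) (@Lb.fp (nat_lit 3) t395))))))))))
noncomputable def l8738 : Lb := (@Lb.d (nat_lit 1) (nat_lit 550) (nat_lit 128) (@Lb.g g8 (@Lb.g g9 (@Lb.g g10 (@Lb.g g11 (@Lb.r r1706 (@Lb.r r1419 (@Lb.r r168 (@Lb.r r41 (@Lb.r r2084 (@Lb.d (nat_lit 514) (nat_lit 42) (nat_lit 322) (@Lb.fm (nat_lit 9) t394))))))))))))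
noncomputable def l8739 : Lb := (@Lb.r r21 (@Lb.d (nat_lit 2) (nat_lit 8) (nat_lit 130) (@Lb.g g8 (@Lb.g g10 (@Lb.g g11 (@Lb.r r353 (@Lb.r r667 (@Lb.r r664 (@Lb.r r602 (@Lb.d (nat_lit 105) (nat_lit 37) (nat_lit 74) (@Lb.t (@Lb.fp (nat_lit 9) t2))))))))))))
noncomputable def l8740 : Lb := (@Lb.d (nat_lit 32) (nat_lit 520) (nat_lit 130) (@Lb.g g10 (@Lb.g g11 (@Lb.r r361 (@Lb.r r2711 (@Lb.r r1380 (@Lb.r r1690 (@Lb.d (nat_lit 601) (nat_lit 98) (nat_lit 646) (@Lb.fp (nat_lit 3) t45)))))))))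
noncomputable def l8741 : Lb := (@Lb.d (nat_lit 145) (nat_lit 258) (nat_lit 74) (@Lb.g g8 (@Lb.g g9 (@Lb.g g10 (@Lb.g g11 (@Lb.r r387 (@Lb.r r1686 (@Lb.r r1561 (@Lb.r r1560 (@Lb.d (nat_lit 26) (nat_lit 66) (nat_lit 273) (@Lb.fp (nat_lit 9) t2150)))))))))))
noncomputable def l8742 : Lb := (@Lb.d (nat_lit 618) (nat_lit 277) (nat_lit 26) (@Lb.r r360 (@Lb.r r1321 (@Lb.r r418 (@Lb.g g11 (@Lb.g g5 (@Lb.g g4 (@Lb.d (nat_lit 24) (nat_lit 17) (nat_lit 520) (@Lb.r r614 (@Lb.t (@Lb.fp (nat_lit 9) t495)))))))))))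
noncomputable def l8743 : Lb := (@Lb.d (nat_lit 10) (nat_lit 512) (nat_lit 130) (@Lb.g g8 (@Lb.g g10 (@Lb.g g11 (@Lb.r r1370 (@Lb.r r2453 (@Lb.r r619 (@Lb.r r616 (@Lb.d (nat_lit 360) (nat_lit 145) (nat_lit 16) (@Lb.t (@Lb.fm (nat_lit 9) t2151)))))))))))
noncomputable def l8744 : Lb := (@Lb.d (nat_lit 128) (nat_lit 514) (nat_lit 130) (@Lb.g g8 (@Lb.g g9 (@Lb.g g10 (@Lb.g g11 (@Lb.r r2666 (@Lb.r r612 (@Lb.r r1319 (@Lb.r r1045 (@Lb.r r2084 (@Lb.d (nat_lit 9) (nat_lit 38) (nat_lit 550) (@Lb.fp (nat_lit 9) t495))))))))))))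
noncomputable def l8745 : Lb := (@Lb.r r263 (@Lb.d (nat_lit 2) (nat_lit 2) (nat_lit 2) (@Lb.g g8 (@Lb.g g9 (@Lb.g g10 (@Lb.r r2454 (@Lb.r r1367 (@Lb.r r409 (@Lb.r r388 (@Lb.d (nat_lit 256) (nat_lit 4) (nat_lit 17) (@Lb.t (@Lb.fp (nat_lit 9) t2152))))))))))))
noncomputable def l8746 : Lb := (@Lb.d (nat_lit 354) (nat_lit 328) (nat_lit 169) (@Lb.r r24 (@Lb.r r97 (@Lb.r r2659 (@Lb.r r406 (@Lb.g g5 (@Lb.g g4 (@Lb.d (nat_lit 1) (nat_lit 1) (nat_lit 0) (@Lb.fm (nat_lit 3) t2153)))))))))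
noncomputable def l8747 : Lb := (@Lb.d (nat_lit 32) (nat_lit 514) (nat_lit 130) (@Lb.g g9 (@Lb.g g10 (@Lb.g g11 (@Lb.r r2695 (@Lb.r r297 (@Lb.r r1352 (@Lb.r r2662 (@Lb.d (nat_lit 130) (nat_lit 88) (nat_lit 340) (@Lb.t (@Lb.fp (nat_lit 9) t2154)))))))))))
noncomputable def l8748 : Lb := (@Lb.r r68 (@Lb.r r81 (@Lb.g g10 (@Lb.r r1346 (@Lb.r r1419 (@Lb.r r1304 (@Lb.r r37 (@Lb.d (nat_lit 0) (nat_lit 640) (nat_lit 128) (@Lb.t (@Lb.fp (nat_lit 3) t644))))))))))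
noncomputable def l8749 : Lb := (@Lb.r r402 (@Lb.r r101 (@Lb.d (nat_lit 293) (nat_lit 69) (nat_lit 528) (@Lb.fp (nat_lit 1) t1018))))
noncomputable def l8750 : Lb := (@Lb.d (nat_lit 9) (nat_lit 514) (nat_lit 130) (@Lb.g g8 (@Lb.g g9 (@Lb.g g10 (@Lb.g g11 (@Lb.r r276 (@Lb.r r539 (@Lb.r r405 (@Lb.r r342 (@Lb.r r676 (@Lb.d (nat_lit 9) (nat_lit 2) (nat_lit 137) (@Lb.fm (nat_lit 9) t2))))))))))))
noncomputable def l8751 : Lb := (@Lb.d (nat_lit 8) (nat_lit 258) (nat_lit 2) (@Lb.g g9 (@Lb.g g10 (@Lb.r r1703 (@Lb.r r2658 (@Lb.r r1304 (@Lb.r r2661 (@Lb.d (nat_lit 656) (nat_lit 137) (nat_lit 416) (@Lb.fp (nat_lit 3) t638)))))))))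
noncomputable def l8752 : Lb := (@Lb.r r2069 (@Lb.r r2118 (@Lb.d (nat_lit 514) (nat_lit 0) (nat_lit 0) (@Lb.g g4 (@Lb.g g7 (@Lb.d (nat_lit 1) (nat_lit 0) (nat_lit 0) (@Lb.fm (nat_lit 3) t1459)))))))
noncomputable def l8753 : Lb := (@Lb.d (nat_lit 144) (nat_lit 16) (nat_lit 74) (@Lb.g g8 (@Lb.g g9 (@Lb.g g10 (@Lb.g g11 (@Lb.r r427 (@Lb.r r1602 (@Lb.r r297 (@Lb.r r2340 (@Lb.d (nat_lit 330) (nat_lit 149) (nat_lit 100) (@Lb.fm (nat_lit 9) t2139)))))))))))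
noncomputable def l8754 : Lb := (@Lb.d (nat_lit 0) (nat_lit 0) (nat_lit 130) (@Lb.g g4 (@Lb.g g9 (@Lb.g g10 (@Lb.g g11 (@Lb.r r2691 (@Lb.r r2658 (@Lb.d (nat_lit 1) (nat_lit 37) (nat_lit 425) (@Lb.fp (nat_lit 9) t71)))))))))
noncomputable def l8755 : Lb := (@Lb.d (nat_lit 8) (nat_lit 4) (nat_lit 128) (@Lb.g g9 (@Lb.g g11 (@Lb.r r2651 (@Lb.r r1126 (@Lb.r r24 (@Lb.d (nat_lit 26) (nat_lit 130) (nat_lit 162) (@Lb.fm (nat_lit 3) t2155))))))))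
noncomputable def l8756 : Lb := (@Lb.d (nat_lit 146) (nat_lit 16) (nat_lit 74) (@Lb.g g8 (@Lb.g g9 (@Lb.g g10 (@Lb.g g11 (@Lb.r r2579 (@Lb.r r1442 (@Lb.r r2153 (@Lb.r r612 (@Lb.d (nat_lit 330) (nat_lit 26) (nat_lit 617) (@Lb.fm (nat_lit 9) t2147)))))))))))
noncomputable def l8757 : Lb := (@Lb.d (nat_lit 0) (nat_lit 2) (nat_lit 0) (@Lb.g g9 (@Lb.g g10 (@Lb.r r1122 (@Lb.r r97 (@Lb.d (nat_lit 0) (nat_lit 68) (nat_lit 34) (@Lb.fp (nat_lit 3) t1076)))))))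
noncomputable def l8758 : Lb := (@Lb.g g9 (@Lb.g g7 (@Lb.r r97 (@Lb.r r1106 (@Lb.r r145 (@Lb.fm (nat_lit 3) t246))))))
noncomputable def l8759 : Lb := (@Lb.r r323 (@Lb.d (nat_lit 2) (nat_lit 516) (nat_lit 8) (@Lb.g g8 (@Lb.g g9 (@Lb.g g10 (@Lb.r r599 (@Lb.r r297 (@Lb.r r2436 (@Lb.d (nat_lit 342) (nat_lit 136) (nat_lit 528) (@Lb.t (@Lb.fm (nat_lit 9) t981)))))))))))
noncomputable def l8760 : Lb := (@Lb.d (nat_lit 8) (nat_lit 2) (nat_lit 0) (@Lb.g g9 (@Lb.r r1126 (@Lb.r r24 (@Lb.d (nat_lit 514) (nat_lit 2) (nat_lit 0) (@Lb.t (@Lb.fm (nat_lit 3) t994)))))))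
noncomputable def l8761 : Lb := (@Lb.r r21 (@Lb.d (nat_lit 2) (nat_lit 256) (nat_lit 2) (@Lb.g g8 (@Lb.g g10 (@Lb.r r651 (@Lb.r r1642 (@Lb.r r1561 (@Lb.r r1540 (@Lb.d (nat_lit 402) (nat_lit 6) (nat_lit 657) (@Lb.fp (nat_lit 3) t825))))))))))
noncomputable def l8762 : Lb := (@Lb.g g9 (@Lb.g g7 (@Lb.r r89 (@Lb.r r1126 (@Lb.r r24 (@Lb.d (nat_lit 26) (nat_lit 384) (nat_lit 69) (@Lb.fm (nat_lit 3) t2156)))))))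
noncomputable def l8763 : Lb := (@Lb.r r402 (@Lb.r r101 (@Lb.d (nat_lit 130) (nat_lit 17) (nat_lit 0) (@Lb.fp (nat_lit 1) t1163))))
noncomputable def l8764 : Lb := (@Lb.d (nat_lit 2) (nat_lit 514) (nat_lit 130) (@Lb.g g8 (@Lb.g g9 (@Lb.g g10 (@Lb.g g11 (@Lb.r r2691 (@Lb.r r297 (@Lb.r r2404 (@Lb.r r1610 (@Lb.d (nat_lit 402) (nat_lit 10) (nat_lit 342) (@Lb.fp (nat_lit 9) t2157)))))))))))
noncomputable def l8765 : Lb := (@Lb.d (nat_lit 144) (nat_lit 256) (nat_lit 129) (@Lb.r r402 (@Lb.r r101 (@Lb.g g11 (@Lb.t (@Lb.fp (nat_lit 3) t1163))))))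
noncomputable def l8766 : Lb := (@Lb.r r24 (@Lb.r r101 (@Lb.d (nat_lit 0) (nat_lit 337) (nat_lit 298) (@Lb.fp (nat_lit 1) t153))))
noncomputable def l8767 : Lb := (@Lb.d (nat_lit 256) (nat_lit 164) (nat_lit 657) (@Lb.r r402 (@Lb.r r101 (@Lb.g g11 (@Lb.t (@Lb.fp (nat_lit 3) t2158))))))
noncomputable def l8768 : Lb := (@Lb.d (nat_lit 2) (nat_lit 258) (nat_lit 130) (@Lb.g g8 (@Lb.g g9 (@Lb.g g10 (@Lb.g g11 (@Lb.r r427 (@Lb.r r2146 (@Lb.r r292 (@Lb.r r2069 (@Lb.r r1060 (@Lb.d (nat_lit 289) (nat_lit 74) (nat_lit 33) (@Lb.fp (nat_lit 9) t1089))))))))))))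
noncomputable def l8769 : Lb := (@Lb.d (nat_lit 618) (nat_lit 341) (nat_lit 538) (@Lb.r r1384 (@Lb.r r297 (@Lb.r r418 (@Lb.g g11 (@Lb.g g5 (@Lb.g g4 (@Lb.d (nat_lit 17) (nat_lit 18) (nat_lit 392) (@Lb.r r578 (@Lb.t (@Lb.fp (nat_lit 9) t780)))))))))))
noncomputable def l8770 : Lb := (@Lb.g g4 (@Lb.r r2311 (@Lb.d (nat_lit 256) (nat_lit 256) (nat_lit 64) (@Lb.t (@Lb.fm (nat_lit 3) t1165)))))
noncomputable def l8771 : Lb := (@Lb.r r322 (@Lb.d (nat_lit 36) (nat_lit 546) (nat_lit 516) (@Lb.g g8 (@Lb.g g9 (@Lb.g g7 (@Lb.r r418 (@Lb.r r297 (@Lb.r r1384 (@Lb.d (nat_lit 405) (nat_lit 160) (nat_lit 294) (@Lb.t (@Lb.fm (nat_lit 9) t1159)))))))))))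
noncomputable def l8772 : Lb := (@Lb.r r323 (@Lb.d (nat_lit 138) (nat_lit 0) (nat_lit 2) (@Lb.g g8 (@Lb.g g10 (@Lb.r r346 (@Lb.r r661 (@Lb.r r1431 (@Lb.r r2632 (@Lb.d (nat_lit 362) (nat_lit 65) (nat_lit 258) (@Lb.fp (nat_lit 3) t71))))))))))
noncomputable def l8773 : Lb := (@Lb.d (nat_lit 104) (nat_lit 421) (nat_lit 20) (@Lb.r r2664 (@Lb.r r2665 (@Lb.r r363 (@Lb.g g10 (@Lb.g g5 (@Lb.g g4 (@Lb.d (nat_lit 82) (nat_lit 8) (nat_lit 1) (@Lb.t (@Lb.fm (nat_lit 9) t2159))))))))))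
noncomputable def l8774 : Lb := (@Lb.d (nat_lit 674) (nat_lit 513) (nat_lit 532) (@Lb.r r2692 (@Lb.r r1638 (@Lb.r r1687 (@Lb.g g7 (@Lb.g g5 (@Lb.g g4 (@Lb.d (nat_lit 132) (nat_lit 134) (nat_lit 0) (@Lb.r r74 (@Lb.t (@Lb.fm (nat_lit 9) t2160)))))))))))
noncomputable def l8775 : Lb := (@Lb.d (nat_lit 0) (nat_lit 514) (nat_lit 130) (@Lb.g g8 (@Lb.g g9 (@Lb.g g10 (@Lb.g g11 (@Lb.r r427 (@Lb.r r386 (@Lb.r r97 (@Lb.r r1432 (@Lb.d (nat_lit 154) (nat_lit 90) (nat_lit 148) (@Lb.fm (nat_lit 9) t2161)))))))))))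
noncomputable def l8776 : Lb := (@Lb.d (nat_lit 2) (nat_lit 2) (nat_lit 73) (@Lb.g g8 (@Lb.g g9 (@Lb.g g10 (@Lb.g g11 (@Lb.r r2691 (@Lb.r r297 (@Lb.r r648 (@Lb.r r666 (@Lb.r r1156 (@Lb.d (nat_lit 640) (nat_lit 42) (nat_lit 137) (@Lb.fp (nat_lit 9) t259))))))))))))
noncomputable def l8777 : Lb := (@Lb.d (nat_lit 0) (nat_lit 512) (nat_lit 72) (@Lb.g g10 (@Lb.g g11 (@Lb.r r327 (@Lb.r r1686 (@Lb.r r2145 (@Lb.r r36 (@Lb.d (nat_lit 394) (nat_lit 81) (nat_lit 576) (@Lb.fm (nat_lit 3) t1351)))))))))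
noncomputable def l8778 : Lb := (@Lb.d (nat_lit 128) (nat_lit 512) (nat_lit 393) (@Lb.g g10 (@Lb.g g7 (@Lb.r r2438 (@Lb.d (nat_lit 98) (nat_lit 0) (nat_lit 537) (@Lb.fm (nat_lit 3) t469))))))
noncomputable def l8779 : Lb := (@Lb.r r323 (@Lb.d (nat_lit 2) (nat_lit 514) (nat_lit 2) (@Lb.g g8 (@Lb.g g9 (@Lb.g g10 (@Lb.r r1682 (@Lb.r r1703 (@Lb.r r1320 (@Lb.r r25 (@Lb.d (nat_lit 37) (nat_lit 168) (nat_lit 402) (@Lb.t (@Lb.fp (nat_lit 9) t2162))))))))))))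
noncomputable def l8780 : Lb := (@Lb.d (nat_lit 128) (nat_lit 256) (nat_lit 393) (@Lb.g g10 (@Lb.g g7 (@Lb.r r2438 (@Lb.d (nat_lit 96) (nat_lit 0) (nat_lit 537) (@Lb.fm (nat_lit 3) t469))))))
noncomputable def l8781 : Lb := (@Lb.d (nat_lit 146) (nat_lit 2) (nat_lit 64) (@Lb.g g8 (@Lb.g g9 (@Lb.g g10 (@Lb.g g11 (@Lb.r r2323 (@Lb.r r609 (@Lb.r r404 (@Lb.r r2134 (@Lb.r r132 (@Lb.d (nat_lit 138) (nat_lit 130) (nat_lit 618) (@Lb.fm (nat_lit 9) t1347))))))))))))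
noncomputable def l8782 : Lb := (@Lb.d (nat_lit 146) (nat_lit 258) (nat_lit 64) (@Lb.g g8 (@Lb.g g9 (@Lb.g g10 (@Lb.g g11 (@Lb.r r427 (@Lb.r r1686 (@Lb.r r409 (@Lb.r r388 (@Lb.d (nat_lit 100) (nat_lit 9) (nat_lit 137) (@Lb.fm (nat_lit 9) t1436)))))))))))
noncomputable def l8783 : Lb := (@Lb.d (nat_lit 8) (nat_lit 552) (nat_lit 73) (@Lb.r r21 (@Lb.r r682 (@Lb.r r599 (@Lb.g g7 (@Lb.g g6 (@Lb.g g5 (@Lb.g g4 (@Lb.d (nat_lit 6) (nat_lit 2) (nat_lit 10) (@Lb.fp (nat_lit 9) t40))))))))))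
noncomputable def l8784 : Lb := (@Lb.d (nat_lit 2) (nat_lit 2) (nat_lit 130) (@Lb.g g8 (@Lb.g g9 (@Lb.g g10 (@Lb.g g11 (@Lb.r r292 (@Lb.r r539 (@Lb.r r405 (@Lb.r r86 (@Lb.r r164 (@Lb.d (nat_lit 2) (nat_lit 66) (nat_lit 90) (@Lb.fm (nat_lit 9) t2))))))))))))
noncomputable def l8785 : Lb := (@Lb.d (nat_lit 89) (nat_lit 640) (nat_lit 353) (@Lb.r r2312 (@Lb.r r2375 (@Lb.r r594 (@Lb.g g6 (@Lb.g g5 (@Lb.g g4 (@Lb.d (nat_lit 1) (nat_lit 65) (nat_lit 1) (@Lb.r r387 (@Lb.t (@Lb.fm (nat_lit 9) t580)))))))))))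
noncomputable def l8786 : Lb := (@Lb.d (nat_lit 4) (nat_lit 272) (nat_lit 2) (@Lb.g g8 (@Lb.g g9 (@Lb.g g10 (@Lb.r r2387 (@Lb.r r678 (@Lb.r r612 (@Lb.r r533 (@Lb.d (nat_lit 136) (nat_lit 34) (nat_lit 384) (@Lb.t (@Lb.fp (nat_lit 9) t1122)))))))))))
noncomputable def l8787 : Lb := (@Lb.d (nat_lit 678) (nat_lit 266) (nat_lit 533) (@Lb.r r2724 (@Lb.r r1430 (@Lb.r r1555 (@Lb.r r1313 (@Lb.g g7 (@Lb.g g4 (@Lb.d (nat_lit 16) (nat_lit 16) (nat_lit 64) (@Lb.fp (nat_lit 3) t1122)))))))))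
noncomputable def l8788 : Lb := (@Lb.d (nat_lit 2) (nat_lit 514) (nat_lit 66) (@Lb.g g8 (@Lb.g g9 (@Lb.g g10 (@Lb.g g11 (@Lb.r r420 (@Lb.r r603 (@Lb.r r1429 (@Lb.r r1110 (@Lb.r r2212 (@Lb.d (nat_lit 262) (nat_lit 130) (nat_lit 90) (@Lb.fm (nat_lit 9) t2))))))))))))
noncomputable def l8789 : Lb := (@Lb.r r323 (@Lb.d (nat_lit 6) (nat_lit 5) (nat_lit 0) (@Lb.g g8 (@Lb.g g9 (@Lb.g g10 (@Lb.r r1623 (@Lb.r r2154 (@Lb.r r104 (@Lb.r r25 (@Lb.d (nat_lit 521) (nat_lit 9) (nat_lit 1) (@Lb.t (@Lb.fm (nat_lit 9) t601))))))))))))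
noncomputable def l8790 : Lb := (@Lb.d (nat_lit 2) (nat_lit 545) (nat_lit 130) (@Lb.g g8 (@Lb.g g9 (@Lb.g g10 (@Lb.g g11 (@Lb.r r2722 (@Lb.r r2435 (@Lb.r r2201 (@Lb.r r24 (@Lb.d (nat_lit 88) (nat_lit 2) (nat_lit 425) (@Lb.fp (nat_lit 9) t1039)))))))))))
noncomputable def l8791 : Lb := (@Lb.d (nat_lit 96) (nat_lit 324) (nat_lit 73) (@Lb.r r615 (@Lb.r r360 (@Lb.r r89 (@Lb.r r166 (@Lb.g g7 (@Lb.g g4 (@Lb.d (nat_lit 5) (nat_lit 16) (nat_lit 64) (@Lb.fp (nat_lit 3) t167)))))))))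
noncomputable def l8792 : Lb := (@Lb.r r90 (@Lb.d (nat_lit 98) (nat_lit 162) (nat_lit 64) (@Lb.g g8 (@Lb.g g9 (@Lb.g g11 (@Lb.r r2339 (@Lb.r r1622 (@Lb.r r164 (@Lb.d (nat_lit 32) (nat_lit 148) (nat_lit 322) (@Lb.t (@Lb.fm (nat_lit 9) t86)))))))))))
noncomputable def l8793 : Lb := (@Lb.r r263 (@Lb.d (nat_lit 0) (nat_lit 514) (nat_lit 2) (@Lb.g g8 (@Lb.g g9 (@Lb.g g10 (@Lb.r r675 (@Lb.r r168 (@Lb.r r2666 (@Lb.r r2585 (@Lb.d (nat_lit 682) (nat_lit 169) (nat_lit 344) (@Lb.t (@Lb.fm (nat_lit 9) t605))))))))))))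
noncomputable def l8794 : Lb := (@Lb.d (nat_lit 418) (nat_lit 680) (nat_lit 329) (@Lb.r r85 (@Lb.r r40 (@Lb.r r2374 (@Lb.r r1707 (@Lb.g g7 (@Lb.g g6 (@Lb.g g5 (@Lb.d (nat_lit 0) (nat_lit 9) (nat_lit 133) (@Lb.t (@Lb.fp (nat_lit 9) t1137)))))))))))
noncomputable def l8795 : Lb := (@Lb.d (nat_lit 9) (nat_lit 257) (nat_lit 130) (@Lb.g g8 (@Lb.g g9 (@Lb.g g10 (@Lb.g g11 (@Lb.r r427 (@Lb.r r145 (@Lb.r r356 (@Lb.r r154 (@Lb.r r132 (@Lb.d (nat_lit 2) (nat_lit 73) (nat_lit 153) (@Lb.fm (nat_lit 9) t741))))))))))))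
noncomputable def l8796 : Lb := (@Lb.d (nat_lit 2) (nat_lit 521) (nat_lit 129) (@Lb.g g8 (@Lb.g g9 (@Lb.g g10 (@Lb.g g11 (@Lb.r r162 (@Lb.r r660 (@Lb.r r425 (@Lb.r r279 (@Lb.r r548 (@Lb.d (nat_lit 2) (nat_lit 10) (nat_lit 73) (@Lb.fp (nat_lit 9) t98))))))))))))
noncomputable def l8797 : Lb := (@Lb.d (nat_lit 0) (nat_lit 262) (nat_lit 65) (@Lb.g g9 (@Lb.g g10 (@Lb.g g7 (@Lb.r r2465 (@Lb.r r354 (@Lb.d (nat_lit 5) (nat_lit 96) (nat_lit 22) (@Lb.t (@Lb.fm (nat_lit 9) t2163)))))))))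
noncomputable def l8798 : Lb := (@Lb.r r82 (@Lb.d (nat_lit 0) (nat_lit 258) (nat_lit 64) (@Lb.g g9 (@Lb.g g7 (@Lb.r r2465 (@Lb.r r98 (@Lb.d (nat_lit 0) (nat_lit 100) (nat_lit 528) (@Lb.fm (nat_lit 3) t99))))))))
noncomputable def l8799 : Lb := (@Lb.d (nat_lit 257) (nat_lit 145) (nat_lit 148) (@Lb.r r260 (@Lb.r r1291 (@Lb.r r296 (@Lb.r r1129 (@Lb.g g7 (@Lb.g g10 (@Lb.g g5 (@Lb.g g4 (@Lb.d (nat_lit 102) (nat_lit 33) (nat_lit 65) (@Lb.fm (nat_lit 9) t2164)))))))))))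
noncomputable def l8800 : Lb := (@Lb.r r21 (@Lb.d (nat_lit 657) (nat_lit 8) (nat_lit 128) (@Lb.g g4 (@Lb.g g10 (@Lb.g g11 (@Lb.r r345 (@Lb.r r679 (@Lb.r r2694 (@Lb.d (nat_lit 129) (nat_lit 72) (nat_lit 282) (@Lb.t (@Lb.fp (nat_lit 9) t2165)))))))))))
noncomputable def l8801 : Lb := (@Lb.d (nat_lit 2) (nat_lit 2) (nat_lit 130) (@Lb.g g8 (@Lb.g g9 (@Lb.g g10 (@Lb.g g11 (@Lb.r r138 (@Lb.r r529 (@Lb.r r664 (@Lb.r r539 (@Lb.r r516 (@Lb.d (nat_lit 265) (nat_lit 2) (nat_lit 650) (@Lb.fm (nat_lit 9) t1866))))))))))))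
noncomputable def l8802 : Lb := (@Lb.d (nat_lit 0) (nat_lit 89) (nat_lit 273) (@Lb.r r81 (@Lb.r r2466 (@Lb.r r401 (@Lb.g g11 (@Lb.g g6 (@Lb.g g5 (@Lb.d (nat_lit 0) (nat_lit 9) (nat_lit 128) (@Lb.t (@Lb.fp (nat_lit 9) t8))))))))))
noncomputable def l8803 : Lb := (@Lb.d (nat_lit 16) (nat_lit 266) (nat_lit 1) (@Lb.g g9 (@Lb.g g6 (@Lb.r r328 (@Lb.r r535 (@Lb.r r289 (@Lb.d (nat_lit 0) (nat_lit 1) (nat_lit 129) (@Lb.fm (nat_lit 3) t128))))))))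
noncomputable def l8804 : Lb := (@Lb.d (nat_lit 0) (nat_lit 274) (nat_lit 0) (@Lb.g g9 (@Lb.g g11 (@Lb.r r2593 (@Lb.r r291 (@Lb.d (nat_lit 0) (nat_lit 66) (nat_lit 384) (@Lb.fp (nat_lit 3) t1191)))))))
noncomputable def l8805 : Lb := (@Lb.r r275 (@Lb.g g5 (@Lb.r r1315 (@Lb.r r1041 (@Lb.t (@Lb.p (nat_lit 1) (@Lb.fm (nat_lit 3) t1191)))))))
noncomputable def l8806 : Lb := (@Lb.d (nat_lit 2) (nat_lit 514) (nat_lit 130) (@Lb.g g8 (@Lb.g g9 (@Lb.g g10 (@Lb.g g11 (@Lb.r r427 (@Lb.r r145 (@Lb.r r356 (@Lb.r r154 (@Lb.r r132 (@Lb.d (nat_lit 0) (nat_lit 73) (nat_lit 153) (@Lb.fm (nat_lit 9) t741))))))))))))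
noncomputable def l8807 : Lb := (@Lb.d (nat_lit 2) (nat_lit 258) (nat_lit 130) (@Lb.g g8 (@Lb.g g9 (@Lb.g g10 (@Lb.g g11 (@Lb.r r427 (@Lb.r r145 (@Lb.r r356 (@Lb.r r154 (@Lb.r r132 (@Lb.d (nat_lit 0) (nat_lit 73) (nat_lit 18) (@Lb.fm (nat_lit 9) t741))))))))))))
noncomputable def l8808 : Lb := (@Lb.d (nat_lit 0) (nat_lit 2) (nat_lit 130) (@Lb.g g8 (@Lb.g g9 (@Lb.g g10 (@Lb.g g11 (@Lb.r r662 (@Lb.r r356 (@Lb.r r1323 (@Lb.r r1313 (@Lb.d (nat_lit 9) (nat_lit 66) (nat_lit 640) (@Lb.fp (nat_lit 9) t2166)))))))))))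
noncomputable def l8809 : Lb := (@Lb.d (nat_lit 129) (nat_lit 514) (nat_lit 130) (@Lb.g g8 (@Lb.g g9 (@Lb.g g10 (@Lb.g g11 (@Lb.r r1706 (@Lb.r r1411 (@Lb.r r1177 (@Lb.r r1176 (@Lb.d (nat_lit 537) (nat_lit 85) (nat_lit 665) (@Lb.fp (nat_lit 9) t1047)))))))))))
noncomputable def l8810 : Lb := (@Lb.d (nat_lit 512) (nat_lit 257) (nat_lit 0) (@Lb.r r1096 (@Lb.r r1414 (@Lb.r r1619 (@Lb.g g5 (@Lb.d (nat_lit 0) (nat_lit 17) (nat_lit 0) (@Lb.t (@Lb.fp (nat_lit 3) t1048))))))))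
noncomputable def l8811 : Lb := (@Lb.r r323 (@Lb.d (nat_lit 33) (nat_lit 2) (nat_lit 2) (@Lb.g g8 (@Lb.g g9 (@Lb.g g10 (@Lb.r r1689 (@Lb.r r1563 (@Lb.r r1540 (@Lb.d (nat_lit 417) (nat_lit 0) (nat_lit 616) (@Lb.t (@Lb.fp (nat_lit 9) t321)))))))))))
noncomputable def l8812 : Lb := (@Lb.r r21 (@Lb.d (nat_lit 10) (nat_lit 8) (nat_lit 130) (@Lb.g g8 (@Lb.g g10 (@Lb.g g11 (@Lb.r r427 (@Lb.r r533 (@Lb.r r360 (@Lb.r r582 (@Lb.d (nat_lit 153) (nat_lit 154) (nat_lit 137) (@Lb.t (@Lb.fp (nat_lit 9) t119))))))))))))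
noncomputable def l8813 : Lb := (@Lb.r r609 (@Lb.r r2659 (@Lb.r r338 (@Lb.r r2705 (@Lb.d (nat_lit 10) (nat_lit 258) (nat_lit 0) (@Lb.fp (nat_lit 1) t1079))))))
noncomputable def l8814 : Lb := (@Lb.d (nat_lit 513) (nat_lit 1) (nat_lit 0) (@Lb.r r1096 (@Lb.r r1414 (@Lb.r r1619 (@Lb.g g5 (@Lb.d (nat_lit 0) (nat_lit 17) (nat_lit 0) (@Lb.t (@Lb.fp (nat_lit 3) t1048))))))))
noncomputable def l8815 : Lb := (@Lb.d (nat_lit 128) (nat_lit 2) (nat_lit 130) (@Lb.g g8 (@Lb.g g9 (@Lb.g g10 (@Lb.g g11 (@Lb.r r683 (@Lb.r r2410 (@Lb.r r537 (@Lb.r r536 (@Lb.d (nat_lit 73) (nat_lit 9) (nat_lit 21) (@Lb.fp (nat_lit 9) t1047)))))))))))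
noncomputable def l8816 : Lb := (@Lb.d (nat_lit 34) (nat_lit 2) (nat_lit 128) (@Lb.g g8 (@Lb.g g9 (@Lb.g g11 (@Lb.r r406 (@Lb.r r1643 (@Lb.r r1640 (@Lb.r r25 (@Lb.d (nat_lit 521) (nat_lit 153) (nat_lit 546) (@Lb.t (@Lb.fp (nat_lit 9) t564)))))))))))
noncomputable def l8817 : Lb := (@Lb.d (nat_lit 8) (nat_lit 514) (nat_lit 128) (@Lb.g g9 (@Lb.g g11 (@Lb.r r2471 (@Lb.r r1096 (@Lb.r r2646 (@Lb.r r409 (@Lb.d (nat_lit 282) (nat_lit 4) (nat_lit 169) (@Lb.fp (nat_lit 3) t450)))))))))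
noncomputable def l8818 : Lb := (@Lb.d (nat_lit 129) (nat_lit 514) (nat_lit 4) (@Lb.g g8 (@Lb.g g9 (@Lb.g g10 (@Lb.g g11 (@Lb.r r683 (@Lb.r r618 (@Lb.r r537 (@Lb.r r536 (@Lb.d (nat_lit 73) (nat_lit 169) (nat_lit 129) (@Lb.fp (nat_lit 9) t218)))))))))))
noncomputable def l8819 : Lb := (@Lb.d (nat_lit 4) (nat_lit 256) (nat_lit 128) (@Lb.g g8 (@Lb.g g9 (@Lb.g g11 (@Lb.r r1707 (@Lb.r r2178 (@Lb.r r2657 (@Lb.r r24 (@Lb.d (nat_lit 265) (nat_lit 89) (nat_lit 9) (@Lb.t (@Lb.fm (nat_lit 9) t2031)))))))))))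
noncomputable def l8820 : Lb := (@Lb.d (nat_lit 4) (nat_lit 266) (nat_lit 161) (@Lb.g g8 (@Lb.g g9 (@Lb.g g6 (@Lb.g g11 (@Lb.r r2667 (@Lb.r r2657 (@Lb.r r24 (@Lb.d (nat_lit 265) (nat_lit 89) (nat_lit 40) (@Lb.fp (nat_lit 9) t1923))))))))))
noncomputable def l8821 : Lb := (@Lb.d (nat_lit 0) (nat_lit 514) (nat_lit 130) (@Lb.g g9 (@Lb.g g10 (@Lb.g g11 (@Lb.r r1443 (@Lb.r r1122 (@Lb.r r2072 (@Lb.r r1125 (@Lb.d (nat_lit 277) (nat_lit 26) (nat_lit 388) (@Lb.t (@Lb.fm (nat_lit 9) t1080)))))))))))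
noncomputable def l8822 : Lb := (@Lb.r r21 (@Lb.r r70 (@Lb.d (nat_lit 2) (nat_lit 256) (nat_lit 128) (@Lb.g g8 (@Lb.g g11 (@Lb.r r391 (@Lb.r r402 (@Lb.r r165 (@Lb.r r104 (@Lb.d (nat_lit 293) (nat_lit 72) (nat_lit 33) (@Lb.fp (nat_lit 3) t2167)))))))))))
noncomputable def l8823 : Lb := (@Lb.d (nat_lit 0) (nat_lit 258) (nat_lit 130) (@Lb.g g9 (@Lb.g g10 (@Lb.g g11 (@Lb.r r1443 (@Lb.r r1122 (@Lb.r r2072 (@Lb.r r1125 (@Lb.d (nat_lit 277) (nat_lit 16) (nat_lit 389) (@Lb.t (@Lb.fm (nat_lit 9) t1080)))))))))))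
noncomputable def l8824 : Lb := (@Lb.d (nat_lit 2) (nat_lit 258) (nat_lit 2) (@Lb.g g8 (@Lb.g g9 (@Lb.g g10 (@Lb.g g11 (@Lb.r r1706 (@Lb.r r676 (@Lb.r r551 (@Lb.r r1557 (@Lb.r r1060 (@Lb.d (nat_lit 649) (nat_lit 2) (nat_lit 330) (@Lb.fp (nat_lit 9) t284))))))))))))
noncomputable def l8825 : Lb := (@Lb.d (nat_lit 90) (nat_lit 552) (nat_lit 68) (@Lb.r r404 (@Lb.r r363 (@Lb.r r273 (@Lb.g g7 (@Lb.g g10 (@Lb.g g4 (@Lb.d (nat_lit 18) (nat_lit 8) (nat_lit 66) (@Lb.r r145 (@Lb.t (@Lb.fm (nat_lit 9) t44)))))))))))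
noncomputable def l8826 : Lb := (@Lb.d (nat_lit 9) (nat_lit 6) (nat_lit 128) (@Lb.g g8 (@Lb.g g9 (@Lb.g g10 (@Lb.g g11 (@Lb.r r516 (@Lb.r r263 (@Lb.r r618 (@Lb.r r97 (@Lb.r r516 (@Lb.d (nat_lit 2) (nat_lit 10) (nat_lit 129) (@Lb.fm (nat_lit 9) t607))))))))))))
noncomputable def l8827 : Lb := (@Lb.d (nat_lit 514) (nat_lit 256) (nat_lit 256) (@Lb.r r24 (@Lb.r r101 (@Lb.r r402 (@Lb.g g11 (@Lb.g g6 (@Lb.d (nat_lit 0) (nat_lit 0) (nat_lit 5) (@Lb.fm (nat_lit 3) t241))))))))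
noncomputable def l8828 : Lb := (@Lb.d (nat_lit 612) (nat_lit 577) (nat_lit 324) (@Lb.r r2436 (@Lb.r r363 (@Lb.r r273 (@Lb.g g7 (@Lb.g g10 (@Lb.g g5 (@Lb.g g4 (@Lb.d (nat_lit 146) (nat_lit 17) (nat_lit 130) (@Lb.fm (nat_lit 9) t414))))))))))
noncomputable def l8829 : Lb := (@Lb.d (nat_lit 106) (nat_lit 642) (nat_lit 96) (@Lb.r r613 (@Lb.r r280 (@Lb.r r338 (@Lb.r r679 (@Lb.g g7 (@Lb.g g6 (@Lb.g g5 (@Lb.d (nat_lit 0) (nat_lit 18) (nat_lit 65) (@Lb.t (@Lb.fm (nat_lit 9) t128)))))))))))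
noncomputable def l8830 : Lb := (@Lb.d (nat_lit 2) (nat_lit 514) (nat_lit 73) (@Lb.g g8 (@Lb.g g9 (@Lb.g g10 (@Lb.g g11 (@Lb.r r676 (@Lb.r r1415 (@Lb.r r2130 (@Lb.r r145 (@Lb.r r1540 (@Lb.d (nat_lit 10) (nat_lit 10) (nat_lit 2) (@Lb.fp (nat_lit 9) t334))))))))))))
noncomputable def l8831 : Lb := (@Lb.r r70 (@Lb.d (nat_lit 137) (nat_lit 0) (nat_lit 256) (@Lb.g g8 (@Lb.g g7 (@Lb.r r593 (@Lb.r r2150 (@Lb.r r408 (@Lb.d (nat_lit 666) (nat_lit 26) (nat_lit 394) (@Lb.fm (nat_lit 3) t491)))))))))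
noncomputable def l8832 : Lb := (@Lb.r r323 (@Lb.d (nat_lit 8) (nat_lit 610) (nat_lit 2) (@Lb.g g9 (@Lb.g g10 (@Lb.r r1619 (@Lb.r r2434 (@Lb.r r1124 (@Lb.d (nat_lit 282) (nat_lit 21) (nat_lit 662) (@Lb.fm (nat_lit 3) t219)))))))))
noncomputable def l8833 : Lb := (@Lb.d (nat_lit 10) (nat_lit 512) (nat_lit 73) (@Lb.g g8 (@Lb.g g10 (@Lb.g g11 (@Lb.r r2691 (@Lb.r r1109 (@Lb.r r2658 (@Lb.r r2436 (@Lb.d (nat_lit 610) (nat_lit 165) (nat_lit 596) (@Lb.t (@Lb.fp (nat_lit 9) t311)))))))))))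
noncomputable def l8834 : Lb := (@Lb.r r263 (@Lb.d (nat_lit 2) (nat_lit 258) (nat_lit 2) (@Lb.g g8 (@Lb.g g9 (@Lb.g g10 (@Lb.r r580 (@Lb.r r1559 (@Lb.r r386 (@Lb.r r97 (@Lb.d (nat_lit 656) (nat_lit 0) (nat_lit 18) (@Lb.t (@Lb.fp (nat_lit 9) t31))))))))))))
noncomputable def l8835 : Lb := (@Lb.d (nat_lit 129) (nat_lit 2) (nat_lit 66) (@Lb.g g8 (@Lb.g g9 (@Lb.g g10 (@Lb.g g11 (@Lb.r r419 (@Lb.r r1156 (@Lb.r r2438 (@Lb.r r97 (@Lb.d (nat_lit 522) (nat_lit 154) (nat_lit 388) (@Lb.fp (nat_lit 9) t523)))))))))))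
noncomputable def l8836 : Lb := (@Lb.r r70 (@Lb.d (nat_lit 41) (nat_lit 0) (nat_lit 0) (@Lb.g g8 (@Lb.r r2650 (@Lb.r r597 (@Lb.r r1367 (@Lb.r r2708 (@Lb.d (nat_lit 422) (nat_lit 101) (nat_lit 282) (@Lb.t (@Lb.fp (nat_lit 3) t329))))))))))
noncomputable def l8837 : Lb := (@Lb.d (nat_lit 32) (nat_lit 516) (nat_lit 41) (@Lb.g g8 (@Lb.g g10 (@Lb.r r2457 (@Lb.r r615 (@Lb.r r388 (@Lb.d (nat_lit 409) (nat_lit 2) (nat_lit 664) (@Lb.fp (nat_lit 3) t329))))))))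
noncomputable def l8838 : Lb := (@Lb.r r21 (@Lb.d (nat_lit 146) (nat_lit 0) (nat_lit 10) (@Lb.g g8 (@Lb.g g10 (@Lb.g g11 (@Lb.r r2643 (@Lb.r r582 (@Lb.r r97 (@Lb.r r1444 (@Lb.d (nat_lit 608) (nat_lit 1) (nat_lit 613) (@Lb.t (@Lb.fm (nat_lit 9) t2168))))))))))))
noncomputable def l8839 : Lb := (@Lb.d (nat_lit 272) (nat_lit 257) (nat_lit 537) (@Lb.r r2372 (@Lb.r r2122 (@Lb.r r2579 (@Lb.g g5 (@Lb.g g4 (@Lb.d (nat_lit 16) (nat_lit 25) (nat_lit 0) (@Lb.fp (nat_lit 3) t546))))))))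
noncomputable def l8840 : Lb := (@Lb.d (nat_lit 8) (nat_lit 514) (nat_lit 128) (@Lb.g g9 (@Lb.g g10 (@Lb.g g11 (@Lb.r r1447 (@Lb.r r1414 (@Lb.r r24 (@Lb.r r101 (@Lb.d (nat_lit 533) (nat_lit 137) (nat_lit 2) (@Lb.t (@Lb.fp (nat_lit 9) t825)))))))))))
noncomputable def l8841 : Lb := (@Lb.d (nat_lit 9) (nat_lit 262) (nat_lit 74) (@Lb.g g8 (@Lb.g g9 (@Lb.g g10 (@Lb.g g11 (@Lb.r r2691 (@Lb.r r297 (@Lb.r r1188 (@Lb.r r1158 (@Lb.d (nat_lit 641) (nat_lit 10) (nat_lit 133) (@Lb.fm (nat_lit 9) t981)))))))))))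
noncomputable def l8842 : Lb := (@Lb.d (nat_lit 8) (nat_lit 2) (nat_lit 128) (@Lb.g g9 (@Lb.g g10 (@Lb.g g11 (@Lb.r r1447 (@Lb.r r1414 (@Lb.r r24 (@Lb.r r101 (@Lb.d (nat_lit 532) (nat_lit 137) (nat_lit 2) (@Lb.t (@Lb.fp (nat_lit 9) t825)))))))))))
noncomputable def l8843 : Lb := (@Lb.g g7 (@Lb.r r402 (@Lb.d (nat_lit 608) (nat_lit 576) (nat_lit 420) (@Lb.t (@Lb.fp (nat_lit 3) t781)))))
noncomputable def l8844 : Lb := (@Lb.d (nat_lit 32) (nat_lit 22) (nat_lit 666) (@Lb.r r24 (@Lb.r r665 (@Lb.r r2410 (@Lb.g g11 (@Lb.g g6 (@Lb.g g5 (@Lb.g g4 (@Lb.d (nat_lit 1) (nat_lit 42) (nat_lit 389) (@Lb.fp (nat_lit 9) t394))))))))))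
noncomputable def l8845 : Lb := (@Lb.d (nat_lit 0) (nat_lit 256) (nat_lit 10) (@Lb.g g10 (@Lb.r r2643 (@Lb.r r401 (@Lb.r r2450 (@Lb.d (nat_lit 0) (nat_lit 154) (nat_lit 297) (@Lb.t (@Lb.fp (nat_lit 3) t2169))))))))
noncomputable def l8846 : Lb := (@Lb.d (nat_lit 128) (nat_lit 512) (nat_lit 130) (@Lb.g g10 (@Lb.g g11 (@Lb.r r264 (@Lb.r r279 (@Lb.r r161 (@Lb.r r98 (@Lb.d (nat_lit 578) (nat_lit 8) (nat_lit 152) (@Lb.fm (nat_lit 3) t420)))))))))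
noncomputable def l8847 : Lb := (@Lb.d (nat_lit 0) (nat_lit 521) (nat_lit 420) (@Lb.r r1347 (@Lb.r r658 (@Lb.g g7 (@Lb.g g9 (@Lb.d (nat_lit 0) (nat_lit 88) (nat_lit 64) (@Lb.r r98 (@Lb.fm (nat_lit 3) t241))))))))
noncomputable def l8848 : Lb := (@Lb.d (nat_lit 0) (nat_lit 33) (nat_lit 666) (@Lb.r r85 (@Lb.r r2408 (@Lb.r r2378 (@Lb.r r1703 (@Lb.r r529 (@Lb.g g8 (@Lb.t (@Lb.fp (nat_lit 3) t516)))))))))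
noncomputable def l8849 : Lb := (@Lb.d (nat_lit 32) (nat_lit 512) (nat_lit 2) (@Lb.g g6 (@Lb.r r648 (@Lb.r r683 (@Lb.r r1370 (@Lb.r r609 (@Lb.d (nat_lit 545) (nat_lit 10) (nat_lit 33) (@Lb.t (@Lb.fp (nat_lit 3) t334)))))))))
noncomputable def l8850 : Lb := (@Lb.d (nat_lit 0) (nat_lit 549) (nat_lit 10) (@Lb.g g9 (@Lb.g g10 (@Lb.g g11 (@Lb.r r675 (@Lb.r r578 (@Lb.r r609 (@Lb.d (nat_lit 0) (nat_lit 9) (nat_lit 133) (@Lb.t (@Lb.fm (nat_lit 9) t50))))))))))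
noncomputable def l8851 : Lb := (@Lb.d (nat_lit 2) (nat_lit 2) (nat_lit 130) (@Lb.g g8 (@Lb.g g9 (@Lb.g g10 (@Lb.g g11 (@Lb.r r610 (@Lb.r r612 (@Lb.r r359 (@Lb.r r277 (@Lb.r r548 (@Lb.d (nat_lit 552) (nat_lit 2) (nat_lit 146) (@Lb.fp (nat_lit 9) t145))))))))))))
noncomputable def l8852 : Lb := (@Lb.r r323 (@Lb.d (nat_lit 0) (nat_lit 5) (nat_lit 8) (@Lb.g g5 (@Lb.g g10 (@Lb.r r355 (@Lb.r r578 (@Lb.d (nat_lit 0) (nat_lit 18) (nat_lit 138) (@Lb.fp (nat_lit 3) t50))))))))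
noncomputable def l8853 : Lb := (@Lb.d (nat_lit 1) (nat_lit 512) (nat_lit 128) (@Lb.g g8 (@Lb.g g11 (@Lb.r r353 (@Lb.r r667 (@Lb.r r664 (@Lb.r r154 (@Lb.d (nat_lit 18) (nat_lit 0) (nat_lit 69) (@Lb.fm (nat_lit 3) t285)))))))))
noncomputable def l8854 : Lb := (@Lb.d (nat_lit 96) (nat_lit 517) (nat_lit 593) (@Lb.r r1418 (@Lb.r r1448 (@Lb.r r2665 (@Lb.r r2467 (@Lb.g g7 (@Lb.g g6 (@Lb.g g4 (@Lb.d (nat_lit 1) (nat_lit 0) (nat_lit 8) (@Lb.t (@Lb.fm (nat_lit 9) t2170)))))))))))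
noncomputable def l8855 : Lb := (@Lb.d (nat_lit 38) (nat_lit 8) (nat_lit 136) (@Lb.g g8 (@Lb.g g9 (@Lb.g g11 (@Lb.r r2134 (@Lb.r r1448 (@Lb.r r279 (@Lb.r r545 (@Lb.d (nat_lit 2) (nat_lit 88) (nat_lit 290) (@Lb.t (@Lb.fm (nat_lit 9) t479)))))))))))
noncomputable def l8856 : Lb := (@Lb.d (nat_lit 345) (nat_lit 289) (nat_lit 102) (@Lb.r r404 (@Lb.r r146 (@Lb.r r97 (@Lb.r r299 (@Lb.g g6 (@Lb.g g4 (@Lb.d (nat_lit 65) (nat_lit 0) (nat_lit 1) (@Lb.fm (nat_lit 3) t654)))))))))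
noncomputable def l8857 : Lb := (@Lb.d (nat_lit 0) (nat_lit 6) (nat_lit 64) (@Lb.r r20 (@Lb.r r1049 (@Lb.r r24 (@Lb.r r1414 (@Lb.g g7 (@Lb.d (nat_lit 0) (nat_lit 0) (nat_lit 68) (@Lb.t (@Lb.fm (nat_lit 3) t1025)))))))))
noncomputable def l8858 : Lb := (@Lb.d (nat_lit 261) (nat_lit 8) (nat_lit 274) (@Lb.r r21 (@Lb.r r150 (@Lb.r r360 (@Lb.g g11 (@Lb.g g5 (@Lb.g g4 (@Lb.d (nat_lit 0) (nat_lit 1) (nat_lit 132) (@Lb.r r578 (@Lb.t (@Lb.fm (nat_lit 9) t2171)))))))))))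
noncomputable def l8859 : Lb := (@Lb.d (nat_lit 262) (nat_lit 646) (nat_lit 64) (@Lb.r r21 (@Lb.r r1060 (@Lb.r r1414 (@Lb.g g7 (@Lb.g g5 (@Lb.d (nat_lit 0) (nat_lit 1) (nat_lit 68) (@Lb.fp (nat_lit 3) t1025))))))))
noncomputable def l8860 : Lb := (@Lb.d (nat_lit 134) (nat_lit 150) (nat_lit 256) (@Lb.r r1560 (@Lb.r r97 (@Lb.r r1643 (@Lb.g g7 (@Lb.g g10 (@Lb.g g5 (@Lb.g g4 (@Lb.d (nat_lit 17) (nat_lit 8) (nat_lit 65) (@Lb.fp (nat_lit 9) t715))))))))))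
noncomputable def l8861 : Lb := (@Lb.r r1045 (@Lb.d (nat_lit 2) (nat_lit 256) (nat_lit 130) (@Lb.g g8 (@Lb.g g10 (@Lb.g g11 (@Lb.r r2379 (@Lb.r r386 (@Lb.r r72 (@Lb.d (nat_lit 288) (nat_lit 0) (nat_lit 70) (@Lb.t (@Lb.fm (nat_lit 9) t873)))))))))))
noncomputable def l8862 : Lb := (@Lb.r r21 (@Lb.d (nat_lit 658) (nat_lit 264) (nat_lit 64) (@Lb.g g4 (@Lb.g g10 (@Lb.g g11 (@Lb.r r345 (@Lb.r r2667 (@Lb.r r2374 (@Lb.d (nat_lit 97) (nat_lit 72) (nat_lit 661) (@Lb.t (@Lb.fm (nat_lit 9) t125)))))))))))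
noncomputable def l8863 : Lb := (@Lb.d (nat_lit 1) (nat_lit 0) (nat_lit 66) (@Lb.g g8 (@Lb.g g10 (@Lb.g g11 (@Lb.r r1303 (@Lb.r r2713 (@Lb.r r2650 (@Lb.r r2628 (@Lb.d (nat_lit 408) (nat_lit 1) (nat_lit 425) (@Lb.t (@Lb.fm (nat_lit 9) t441)))))))))))
noncomputable def l8864 : Lb := (@Lb.d (nat_lit 2) (nat_lit 1) (nat_lit 66) (@Lb.g g8 (@Lb.g g9 (@Lb.g g10 (@Lb.g g11 (@Lb.r r1287 (@Lb.r r532 (@Lb.r r2201 (@Lb.r r2202 (@Lb.r r2180 (@Lb.d (nat_lit 392) (nat_lit 1) (nat_lit 385) (@Lb.fm (nat_lit 9) t441))))))))))))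
noncomputable def l8865 : Lb := (@Lb.d (nat_lit 16) (nat_lit 265) (nat_lit 8) (@Lb.g g9 (@Lb.g g6 (@Lb.r r1431 (@Lb.r r2657 (@Lb.r r24 (@Lb.d (nat_lit 640) (nat_lit 37) (nat_lit 426) (@Lb.fp (nat_lit 3) t2172))))))))
noncomputable def l8866 : Lb := (@Lb.r r1319 (@Lb.r r24 (@Lb.d (nat_lit 578) (nat_lit 576) (nat_lit 512) (@Lb.fm (nat_lit 1) t1168))))
noncomputable def l8867 : Lb := (@Lb.r r82 (@Lb.d (nat_lit 0) (nat_lit 258) (nat_lit 0) (@Lb.g g5 (@Lb.r r264 (@Lb.r r423 (@Lb.r r386 (@Lb.r r132 (@Lb.d (nat_lit 0) (nat_lit 2) (nat_lit 2) (@Lb.t (@Lb.fm (nat_lit 3) t128))))))))))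
noncomputable def l8868 : Lb := (@Lb.r r21 (@Lb.d (nat_lit 10) (nat_lit 256) (nat_lit 130) (@Lb.g g8 (@Lb.g g10 (@Lb.g g11 (@Lb.r r411 (@Lb.r r145 (@Lb.r r1434 (@Lb.r r1432 (@Lb.d (nat_lit 392) (nat_lit 90) (nat_lit 425) (@Lb.t (@Lb.fm (nat_lit 9) t2173))))))))))))
noncomputable def l8869 : Lb := (@Lb.d (nat_lit 128) (nat_lit 538) (nat_lit 576) (@Lb.g g9 (@Lb.g g7 (@Lb.r r82 (@Lb.r r2193 (@Lb.d (nat_lit 272) (nat_lit 138) (nat_lit 166) (@Lb.fp (nat_lit 3) t745)))))))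
noncomputable def l8870 : Lb := (@Lb.d (nat_lit 146) (nat_lit 528) (nat_lit 130) (@Lb.g g8 (@Lb.g g9 (@Lb.g g6 (@Lb.g g11 (@Lb.r r1129 (@Lb.r r296 (@Lb.r r2311 (@Lb.r r516 (@Lb.d (nat_lit 514) (nat_lit 98) (nat_lit 104) (@Lb.fm (nat_lit 9) t1144)))))))))))
noncomputable def l8871 : Lb := (@Lb.d (nat_lit 153) (nat_lit 18) (nat_lit 130) (@Lb.g g8 (@Lb.g g9 (@Lb.g g6 (@Lb.g g11 (@Lb.r r1129 (@Lb.r r296 (@Lb.r r2311 (@Lb.r r516 (@Lb.d (nat_lit 514) (nat_lit 98) (nat_lit 104) (@Lb.fm (nat_lit 9) t1144)))))))))))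
noncomputable def l8872 : Lb := (@Lb.d (nat_lit 0) (nat_lit 520) (nat_lit 2) (@Lb.g g10 (@Lb.r r89 (@Lb.r r2150 (@Lb.d (nat_lit 256) (nat_lit 10) (nat_lit 17) (@Lb.t (@Lb.fp (nat_lit 3) t1196)))))))
noncomputable def l8873 : Lb := (@Lb.d (nat_lit 0) (nat_lit 520) (nat_lit 2) (@Lb.g g10 (@Lb.g g7 (@Lb.r r101 (@Lb.r r24 (@Lb.d (nat_lit 0) (nat_lit 10) (nat_lit 1) (@Lb.fp (nat_lit 3) t145)))))))
noncomputable def l8874 : Lb := (@Lb.r r322 (@Lb.d (nat_lit 34) (nat_lit 289) (nat_lit 516) (@Lb.g g8 (@Lb.g g9 (@Lb.g g7 (@Lb.r r418 (@Lb.r r297 (@Lb.r r1384 (@Lb.d (nat_lit 405) (nat_lit 170) (nat_lit 293) (@Lb.t (@Lb.fm (nat_lit 9) t1159)))))))))))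
noncomputable def l8875 : Lb := (@Lb.r r21 (@Lb.d (nat_lit 10) (nat_lit 8) (nat_lit 130) (@Lb.g g8 (@Lb.g g10 (@Lb.g g11 (@Lb.r r427 (@Lb.r r533 (@Lb.r r360 (@Lb.r r102 (@Lb.d (nat_lit 21) (nat_lit 154) (nat_lit 132) (@Lb.t (@Lb.fp (nat_lit 9) t51))))))))))))
noncomputable def l8876 : Lb := (@Lb.d (nat_lit 24) (nat_lit 521) (nat_lit 1) (@Lb.g g9 (@Lb.g g6 (@Lb.r r328 (@Lb.r r535 (@Lb.r r289 (@Lb.d (nat_lit 0) (nat_lit 8) (nat_lit 128) (@Lb.fm (nat_lit 3) t128))))))))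
noncomputable def l8877 : Lb := (@Lb.r r2150 (@Lb.d (nat_lit 522) (nat_lit 578) (nat_lit 0) (@Lb.fp (nat_lit 1) t964)))
noncomputable def l8878 : Lb := (@Lb.d (nat_lit 425) (nat_lit 38) (nat_lit 165) (@Lb.r r2469 (@Lb.r r1190 (@Lb.r r1352 (@Lb.r r2695 (@Lb.g g7 (@Lb.g g6 (@Lb.g g5 (@Lb.d (nat_lit 16) (nat_lit 1) (nat_lit 134) (@Lb.t (@Lb.fp (nat_lit 9) t741)))))))))))
noncomputable def l8879 : Lb := (@Lb.d (nat_lit 16) (nat_lit 520) (nat_lit 18) (@Lb.g g10 (@Lb.r r1427 (@Lb.r r101 (@Lb.r r24 (@Lb.d (nat_lit 260) (nat_lit 9) (nat_lit 1) (@Lb.t (@Lb.fp (nat_lit 3) t1920))))))))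
noncomputable def l8880 : Lb := (@Lb.d (nat_lit 33) (nat_lit 2) (nat_lit 73) (@Lb.g g8 (@Lb.g g9 (@Lb.g g10 (@Lb.g g11 (@Lb.r r1667 (@Lb.r r2345 (@Lb.r r360 (@Lb.r r2630 (@Lb.r r2180 (@Lb.d (nat_lit 385) (nat_lit 74) (nat_lit 617) (@Lb.fm (nat_lit 9) t1549))))))))))))
noncomputable def l8881 : Lb := (@Lb.d (nat_lit 0) (nat_lit 0) (nat_lit 136) (@Lb.r r24 (@Lb.r r101 (@Lb.g g11 (@Lb.g g6 (@Lb.d (nat_lit 0) (nat_lit 4) (nat_lit 1) (@Lb.fp (nat_lit 3) t1219)))))))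
noncomputable def l8882 : Lb := (@Lb.d (nat_lit 0) (nat_lit 256) (nat_lit 72) (@Lb.r r24 (@Lb.r r101 (@Lb.g g11 (@Lb.g g6 (@Lb.d (nat_lit 0) (nat_lit 4) (nat_lit 1) (@Lb.fp (nat_lit 3) t1219)))))))
noncomputable def l8883 : Lb := (@Lb.d (nat_lit 0) (nat_lit 0) (nat_lit 136) (@Lb.r r24 (@Lb.r r101 (@Lb.g g6 (@Lb.d (nat_lit 0) (nat_lit 4) (nat_lit 1) (@Lb.t (@Lb.fm (nat_lit 3) t1219)))))))
noncomputable def l8884 : Lb := (@Lb.d (nat_lit 32) (nat_lit 258) (nat_lit 73) (@Lb.g g9 (@Lb.g g10 (@Lb.g g11 (@Lb.r r2695 (@Lb.r r1352 (@Lb.r r2182 (@Lb.r r97 (@Lb.d (nat_lit 129) (nat_lit 22) (nat_lit 424) (@Lb.t (@Lb.fm (nat_lit 9) t1597)))))))))))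
noncomputable def l8885 : Lb := (@Lb.d (nat_lit 9) (nat_lit 2) (nat_lit 73) (@Lb.g g8 (@Lb.g g9 (@Lb.g g10 (@Lb.g g11 (@Lb.r r2691 (@Lb.r r2345 (@Lb.r r360 (@Lb.r r582 (@Lb.r r2180 (@Lb.d (nat_lit 646) (nat_lit 8) (nat_lit 89) (@Lb.fm (nat_lit 9) t1425))))))))))))
noncomputable def l8886 : Lb := (@Lb.d (nat_lit 2) (nat_lit 258) (nat_lit 130) (@Lb.g g8 (@Lb.g g9 (@Lb.g g10 (@Lb.g g11 (@Lb.r r1426 (@Lb.r r1371 (@Lb.r r2457 (@Lb.r r2436 (@Lb.d (nat_lit 97) (nat_lit 9) (nat_lit 681) (@Lb.fm (nat_lit 9) t1003)))))))))))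
noncomputable def l8887 : Lb := (@Lb.d (nat_lit 2) (nat_lit 2) (nat_lit 130) (@Lb.g g8 (@Lb.g g9 (@Lb.g g10 (@Lb.g g11 (@Lb.r r1426 (@Lb.r r1371 (@Lb.r r2457 (@Lb.r r2436 (@Lb.d (nat_lit 97) (nat_lit 9) (nat_lit 546) (@Lb.fm (nat_lit 9) t2103)))))))))))
noncomputable def l8888 : Lb := (@Lb.d (nat_lit 0) (nat_lit 256) (nat_lit 73) (@Lb.g g10 (@Lb.g g11 (@Lb.r r2658 (@Lb.r r101 (@Lb.d (nat_lit 645) (nat_lit 17) (nat_lit 512) (@Lb.fp (nat_lit 3) t240)))))))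
noncomputable def l8889 : Lb := (@Lb.d (nat_lit 0) (nat_lit 512) (nat_lit 73) (@Lb.g g9 (@Lb.g g10 (@Lb.g g11 (@Lb.r r2658 (@Lb.r r101 (@Lb.d (nat_lit 645) (nat_lit 17) (nat_lit 512) (@Lb.t (@Lb.fp (nat_lit 9) t240)))))))))
noncomputable def l8890 : Lb := (@Lb.d (nat_lit 0) (nat_lit 410) (nat_lit 74) (@Lb.r r609 (@Lb.r r1427 (@Lb.r r2394 (@Lb.r r1124 (@Lb.g g9 (@Lb.d (nat_lit 8) (nat_lit 1) (nat_lit 0) (@Lb.r r291 (@Lb.r r98 (@Lb.t (@Lb.fm (nat_lit 3) t2174)))))))))))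
noncomputable def l8891 : Lb := (@Lb.d (nat_lit 2) (nat_lit 521) (nat_lit 161) (@Lb.g g8 (@Lb.g g9 (@Lb.g g6 (@Lb.g g11 (@Lb.r r612 (@Lb.r r2311 (@Lb.r r97 (@Lb.r r1540 (@Lb.d (nat_lit 2) (nat_lit 105) (nat_lit 640) (@Lb.fp (nat_lit 9) t1038)))))))))))
noncomputable def l8892 : Lb := (@Lb.r r21 (@Lb.d (nat_lit 41) (nat_lit 0) (nat_lit 134) (@Lb.g g8 (@Lb.g g10 (@Lb.g g7 (@Lb.r r1621 (@Lb.r r2730 (@Lb.r r1636 (@Lb.d (nat_lit 40) (nat_lit 154) (nat_lit 22) (@Lb.t (@Lb.fm (nat_lit 9) t2175)))))))))))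
noncomputable def l8893 : Lb := (@Lb.d (nat_lit 2) (nat_lit 9) (nat_lit 97) (@Lb.g g8 (@Lb.g g9 (@Lb.g g6 (@Lb.g g11 (@Lb.r r612 (@Lb.r r2311 (@Lb.r r97 (@Lb.r r1540 (@Lb.d (nat_lit 2) (nat_lit 105) (nat_lit 640) (@Lb.fp (nat_lit 9) t1038)))))))))))
noncomputable def l8894 : Lb := (@Lb.d (nat_lit 68) (nat_lit 321) (nat_lit 645) (@Lb.r r597 (@Lb.r r1642 (@Lb.r r1352 (@Lb.r r2695 (@Lb.g g7 (@Lb.g g6 (@Lb.g g5 (@Lb.d (nat_lit 20) (nat_lit 1) (nat_lit 65) (@Lb.t (@Lb.fp (nat_lit 9) t221)))))))))))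
noncomputable def l8895 : Lb := (@Lb.d (nat_lit 26) (nat_lit 262) (nat_lit 129) (@Lb.g g8 (@Lb.g g9 (@Lb.g g10 (@Lb.g g11 (@Lb.r r1106 (@Lb.r r1109 (@Lb.r r612 (@Lb.r r263 (@Lb.r r516 (@Lb.d (nat_lit 2) (nat_lit 26) (nat_lit 417) (@Lb.fp (nat_lit 9) t2176))))))))))))
noncomputable def l8896 : Lb := (@Lb.r r81 (@Lb.d (nat_lit 24) (nat_lit 544) (nat_lit 162) (@Lb.g g8 (@Lb.g g6 (@Lb.g g11 (@Lb.r r2197 (@Lb.r r1384 (@Lb.r r583 (@Lb.d (nat_lit 146) (nat_lit 150) (nat_lit 610) (@Lb.t (@Lb.fp (nat_lit 9) t2095)))))))))))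
noncomputable def l8897 : Lb := (@Lb.d (nat_lit 16) (nat_lit 9) (nat_lit 130) (@Lb.g g8 (@Lb.g g9 (@Lb.g g10 (@Lb.g g11 (@Lb.r r2210 (@Lb.r r660 (@Lb.r r1449 (@Lb.r r2327 (@Lb.r r1572 (@Lb.d (nat_lit 2) (nat_lit 138) (nat_lit 345) (@Lb.fp (nat_lit 9) t1161))))))))))))
noncomputable def l8898 : Lb := (@Lb.r r101 (@Lb.d (nat_lit 256) (nat_lit 0) (nat_lit 32) (@Lb.fm (nat_lit 1) t743)))
noncomputable def l8899 : Lb := (@Lb.d (nat_lit 2) (nat_lit 265) (nat_lit 72) (@Lb.g g8 (@Lb.g g9 (@Lb.g g10 (@Lb.g g11 (@Lb.r r1559 (@Lb.r r1434 (@Lb.r r2344 (@Lb.r r2457 (@Lb.d (nat_lit 538) (nat_lit 102) (nat_lit 601) (@Lb.fm (nat_lit 9) t2177)))))))))))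
noncomputable def l8900 : Lb := (@Lb.d (nat_lit 1) (nat_lit 258) (nat_lit 73) (@Lb.g g8 (@Lb.g g9 (@Lb.g g10 (@Lb.g g11 (@Lb.r r642 (@Lb.r r1431 (@Lb.r r97 (@Lb.r r2584 (@Lb.d (nat_lit 616) (nat_lit 169) (nat_lit 385) (@Lb.fm (nat_lit 9) t777)))))))))))
noncomputable def l8901 : Lb := (@Lb.r r21 (@Lb.d (nat_lit 96) (nat_lit 512) (nat_lit 649) (@Lb.g g8 (@Lb.g g10 (@Lb.g g7 (@Lb.r r1410 (@Lb.r r2453 (@Lb.r r1608 (@Lb.d (nat_lit 145) (nat_lit 5) (nat_lit 133) (@Lb.t (@Lb.fp (nat_lit 9) t2178)))))))))))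
noncomputable def l8902 : Lb := (@Lb.d (nat_lit 33) (nat_lit 258) (nat_lit 154) (@Lb.r r24 (@Lb.r r2138 (@Lb.g g9 (@Lb.d (nat_lit 8) (nat_lit 2) (nat_lit 0) (@Lb.t (@Lb.fm (nat_lit 3) t267)))))))
noncomputable def l8903 : Lb := (@Lb.d (nat_lit 38) (nat_lit 516) (nat_lit 74) (@Lb.g g8 (@Lb.g g9 (@Lb.g g10 (@Lb.g g11 (@Lb.r r2690 (@Lb.r r1431 (@Lb.r r1121 (@Lb.r r1560 (@Lb.d (nat_lit 616) (nat_lit 41) (nat_lit 673) (@Lb.fm (nat_lit 9) t2179)))))))))))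
noncomputable def l8904 : Lb := (@Lb.d (nat_lit 40) (nat_lit 514) (nat_lit 73) (@Lb.g g9 (@Lb.g g10 (@Lb.g g11 (@Lb.r r2695 (@Lb.r r1352 (@Lb.r r2390 (@Lb.r r409 (@Lb.d (nat_lit 134) (nat_lit 129) (nat_lit 330) (@Lb.t (@Lb.fm (nat_lit 9) t1087)))))))))))
noncomputable def l8905 : Lb := (@Lb.d (nat_lit 146) (nat_lit 518) (nat_lit 289) (@Lb.r r1604 (@Lb.r r82 (@Lb.r r1623 (@Lb.g g6 (@Lb.g g5 (@Lb.g g4 (@Lb.d (nat_lit 1) (nat_lit 17) (nat_lit 1) (@Lb.t (@Lb.fm (nat_lit 9) t2180))))))))))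
noncomputable def l8906 : Lb := (@Lb.d (nat_lit 2) (nat_lit 514) (nat_lit 73) (@Lb.g g8 (@Lb.g g9 (@Lb.g g10 (@Lb.g g11 (@Lb.r r2691 (@Lb.r r297 (@Lb.r r648 (@Lb.r r666 (@Lb.r r1156 (@Lb.d (nat_lit 646) (nat_lit 40) (nat_lit 73) (@Lb.fp (nat_lit 9) t668))))))))))))
noncomputable def l8907 : Lb := (@Lb.d (nat_lit 4) (nat_lit 513) (nat_lit 0) (@Lb.g g5 (@Lb.r r24 (@Lb.d (nat_lit 320) (nat_lit 1) (nat_lit 512) (@Lb.t (@Lb.fp (nat_lit 3) t716))))))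
noncomputable def l8908 : Lb := (@Lb.r r275 (@Lb.g g9 (@Lb.r r2339 (@Lb.r r2065 (@Lb.t (@Lb.fp (nat_lit 3) t2181))))))
noncomputable def l8909 : Lb := (@Lb.d (nat_lit 8) (nat_lit 258) (nat_lit 0) (@Lb.g g9 (@Lb.r r2651 (@Lb.r r426 (@Lb.r r24 (@Lb.r r101 (@Lb.d (nat_lit 274) (nat_lit 10) (nat_lit 2) (@Lb.t (@Lb.fp (nat_lit 3) t2182)))))))))
noncomputable def l8910 : Lb := (@Lb.d (nat_lit 164) (nat_lit 2) (nat_lit 0) (@Lb.g g8 (@Lb.g g9 (@Lb.r r407 (@Lb.r r1430 (@Lb.r r1625 (@Lb.r r596 (@Lb.d (nat_lit 22) (nat_lit 38) (nat_lit 650) (@Lb.fp (nat_lit 3) t322)))))))))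
noncomputable def l8911 : Lb := (@Lb.r r21 (@Lb.r r70 (@Lb.d (nat_lit 266) (nat_lit 288) (nat_lit 0) (@Lb.g g4 (@Lb.g g11 (@Lb.r r281 (@Lb.r r359 (@Lb.r r610 (@Lb.d (nat_lit 281) (nat_lit 4) (nat_lit 68) (@Lb.fp (nat_lit 3) t2183))))))))))
noncomputable def l8912 : Lb := (@Lb.d (nat_lit 330) (nat_lit 661) (nat_lit 596) (@Lb.r r1444 (@Lb.r r2665 (@Lb.r r2651 (@Lb.g g7 (@Lb.g g10 (@Lb.g g4 (@Lb.d (nat_lit 17) (nat_lit 0) (nat_lit 66) (@Lb.r r25 (@Lb.t (@Lb.fm (nat_lit 9) t825)))))))))))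
noncomputable def l8913 : Lb := (@Lb.d (nat_lit 33) (nat_lit 0) (nat_lit 136) (@Lb.r r154 (@Lb.r r664 (@Lb.r r667 (@Lb.r r353 (@Lb.g g7 (@Lb.g g6 (@Lb.g g4 (@Lb.d (nat_lit 2) (nat_lit 4) (nat_lit 65) (@Lb.t (@Lb.fp (nat_lit 9) t51)))))))))))
noncomputable def l8914 : Lb := (@Lb.d (nat_lit 9) (nat_lit 2) (nat_lit 4) (@Lb.g g8 (@Lb.g g9 (@Lb.g g10 (@Lb.g g11 (@Lb.r r532 (@Lb.r r295 (@Lb.r r357 (@Lb.r r666 (@Lb.r r644 (@Lb.d (nat_lit 10) (nat_lit 1) (nat_lit 137) (@Lb.fp (nat_lit 9) t2))))))))))))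
noncomputable def l8915 : Lb := (@Lb.d (nat_lit 33) (nat_lit 256) (nat_lit 72) (@Lb.r r154 (@Lb.r r404 (@Lb.r r363 (@Lb.r r353 (@Lb.g g7 (@Lb.g g6 (@Lb.g g4 (@Lb.d (nat_lit 4) (nat_lit 0) (nat_lit 64) (@Lb.t (@Lb.fp (nat_lit 9) t51)))))))))))
noncomputable def l8916 : Lb := (@Lb.r r323 (@Lb.d (nat_lit 9) (nat_lit 34) (nat_lit 2) (@Lb.g g8 (@Lb.g g9 (@Lb.g g10 (@Lb.r r279 (@Lb.r r676 (@Lb.r r166 (@Lb.r r165 (@Lb.d (nat_lit 42) (nat_lit 5) (nat_lit 137) (@Lb.t (@Lb.fm (nat_lit 9) t2))))))))))))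
noncomputable def l8917 : Lb := (@Lb.d (nat_lit 73) (nat_lit 96) (nat_lit 642) (@Lb.r r1305 (@Lb.r r1428 (@Lb.r r2727 (@Lb.g g7 (@Lb.g g10 (@Lb.g g5 (@Lb.d (nat_lit 32) (nat_lit 4) (nat_lit 66) (@Lb.t (@Lb.fp (nat_lit 9) t582))))))))))
noncomputable def l8918 : Lb := (@Lb.d (nat_lit 9) (nat_lit 2) (nat_lit 130) (@Lb.g g8 (@Lb.g g9 (@Lb.g g10 (@Lb.g g11 (@Lb.r r404 (@Lb.r r1563 (@Lb.r r2453 (@Lb.r r2390 (@Lb.r r1700 (@Lb.d (nat_lit 102) (nat_lit 1) (nat_lit 537) (@Lb.fm (nat_lit 9) t1165))))))))))))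
noncomputable def l8919 : Lb := (@Lb.r r70 (@Lb.g g4 (@Lb.g g5 (@Lb.r r281 (@Lb.r r2456 (@Lb.r r74 (@Lb.d (nat_lit 610) (nat_lit 101) (nat_lit 341) (@Lb.fp (nat_lit 3) t2184))))))))
noncomputable def l8920 : Lb := (@Lb.r r82 (@Lb.d (nat_lit 0) (nat_lit 545) (nat_lit 64) (@Lb.g g9 (@Lb.g g11 (@Lb.r r673 (@Lb.r r2150 (@Lb.r r1688 (@Lb.r r1563 (@Lb.d (nat_lit 320) (nat_lit 96) (nat_lit 74) (@Lb.fp (nat_lit 3) t404))))))))))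
noncomputable def l8921 : Lb := (@Lb.d (nat_lit 389) (nat_lit 662) (nat_lit 546) (@Lb.r r2325 (@Lb.r r2390 (@Lb.r r683 (@Lb.g g7 (@Lb.g g6 (@Lb.g g5 (@Lb.g g4 (@Lb.d (nat_lit 1) (nat_lit 18) (nat_lit 65) (@Lb.fm (nat_lit 9) t309))))))))))
noncomputable def l8922 : Lb := (@Lb.d (nat_lit 146) (nat_lit 258) (nat_lit 64) (@Lb.g g8 (@Lb.g g9 (@Lb.g g10 (@Lb.g g11 (@Lb.r r427 (@Lb.r r1177 (@Lb.r r1176 (@Lb.r r602 (@Lb.d (nat_lit 105) (nat_lit 80) (nat_lit 601) (@Lb.fm (nat_lit 9) t1446)))))))))))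
noncomputable def l8923 : Lb := (@Lb.d (nat_lit 425) (nat_lit 21) (nat_lit 578) (@Lb.r r1608 (@Lb.r r2325 (@Lb.r r2390 (@Lb.g g7 (@Lb.g g5 (@Lb.g g4 (@Lb.d (nat_lit 9) (nat_lit 17) (nat_lit 64) (@Lb.r r578 (@Lb.t (@Lb.fm (nat_lit 9) t1750)))))))))))
noncomputable def l8924 : Lb := (@Lb.r r81 (@Lb.r r323 (@Lb.d (nat_lit 138) (nat_lit 512) (nat_lit 33) (@Lb.g g8 (@Lb.g g6 (@Lb.r r661 (@Lb.r r535 (@Lb.r r1444 (@Lb.d (nat_lit 602) (nat_lit 168) (nat_lit 394) (@Lb.fm (nat_lit 3) t400))))))))))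
noncomputable def l8925 : Lb := (@Lb.d (nat_lit 146) (nat_lit 2) (nat_lit 64) (@Lb.g g8 (@Lb.g g9 (@Lb.g g10 (@Lb.g g11 (@Lb.r r427 (@Lb.r r1177 (@Lb.r r1176 (@Lb.r r602 (@Lb.d (nat_lit 98) (nat_lit 81) (nat_lit 601) (@Lb.fm (nat_lit 9) t2185)))))))))))
noncomputable def l8926 : Lb := (@Lb.r r82 (@Lb.d (nat_lit 0) (nat_lit 545) (nat_lit 64) (@Lb.g g9 (@Lb.g g11 (@Lb.r r2601 (@Lb.r r2347 (@Lb.r r2404 (@Lb.r r1610 (@Lb.d (nat_lit 0) (nat_lit 10) (nat_lit 617) (@Lb.fp (nat_lit 3) t150))))))))))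
noncomputable def l8927 : Lb := (@Lb.r r82 (@Lb.d (nat_lit 2) (nat_lit 33) (nat_lit 64) (@Lb.g g8 (@Lb.g g9 (@Lb.g g11 (@Lb.r r2601 (@Lb.r r2347 (@Lb.r r2404 (@Lb.r r1610 (@Lb.d (nat_lit 0) (nat_lit 0) (nat_lit 618) (@Lb.t (@Lb.fp (nat_lit 9) t150))))))))))))
noncomputable def l8928 : Lb := (@Lb.d (nat_lit 0) (nat_lit 8) (nat_lit 2) (@Lb.g g10 (@Lb.r r609 (@Lb.r r2727 (@Lb.r r1348 (@Lb.r r2186 (@Lb.d (nat_lit 288) (nat_lit 0) (nat_lit 34) (@Lb.t (@Lb.fm (nat_lit 3) t396)))))))))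
noncomputable def l8929 : Lb := (@Lb.d (nat_lit 0) (nat_lit 0) (nat_lit 136) (@Lb.g g11 (@Lb.r r1617 (@Lb.r r354 (@Lb.r r1427 (@Lb.d (nat_lit 0) (nat_lit 90) (nat_lit 410) (@Lb.t (@Lb.fp (nat_lit 3) t124))))))))
noncomputable def l8930 : Lb := (@Lb.d (nat_lit 4) (nat_lit 422) (nat_lit 646) (@Lb.r r24 (@Lb.r r97 (@Lb.r r386 (@Lb.g g11 (@Lb.g g6 (@Lb.g g5 (@Lb.d (nat_lit 0) (nat_lit 1) (nat_lit 129) (@Lb.t (@Lb.fp (nat_lit 9) t925))))))))))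
noncomputable def l8931 : Lb := (@Lb.d (nat_lit 9) (nat_lit 33) (nat_lit 66) (@Lb.g g8 (@Lb.g g9 (@Lb.g g10 (@Lb.g g11 (@Lb.r r1451 (@Lb.r r2154 (@Lb.r r2073 (@Lb.d (nat_lit 265) (nat_lit 137) (nat_lit 665) (@Lb.fp (nat_lit 9) t925))))))))))
noncomputable def l8932 : Lb := (@Lb.r r82 (@Lb.r r275 (@Lb.d (nat_lit 4) (nat_lit 529) (nat_lit 0) (@Lb.g g5 (@Lb.r r2651 (@Lb.r r386 (@Lb.r r24 (@Lb.d (nat_lit 34) (nat_lit 1) (nat_lit 17) (@Lb.t (@Lb.fp (nat_lit 3) t538))))))))))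
noncomputable def l8933 : Lb := (@Lb.d (nat_lit 72) (nat_lit 289) (nat_lit 130) (@Lb.g g8 (@Lb.g g9 (@Lb.g g10 (@Lb.g g11 (@Lb.r r1451 (@Lb.r r388 (@Lb.r r2134 (@Lb.r r2193 (@Lb.r r2084 (@Lb.d (nat_lit 33) (nat_lit 36) (nat_lit 640) (@Lb.fp (nat_lit 9) t5))))))))))))
noncomputable def l8934 : Lb := (@Lb.d (nat_lit 0) (nat_lit 257) (nat_lit 1) (@Lb.r r289 (@Lb.r r279 (@Lb.r r584 (@Lb.g g6 (@Lb.g g5 (@Lb.d (nat_lit 16) (nat_lit 0) (nat_lit 1) (@Lb.r r387 (@Lb.fm (nat_lit 3) t68)))))))))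
noncomputable def l8935 : Lb := (@Lb.r r82 (@Lb.d (nat_lit 0) (nat_lit 2) (nat_lit 128) (@Lb.g g9 (@Lb.g g11 (@Lb.r r2475 (@Lb.r r386 (@Lb.r r2145 (@Lb.r r24 (@Lb.d (nat_lit 538) (nat_lit 73) (nat_lit 34) (@Lb.fp (nat_lit 3) t693))))))))))
noncomputable def l8936 : Lb := (@Lb.d (nat_lit 0) (nat_lit 512) (nat_lit 130) (@Lb.g g10 (@Lb.g g11 (@Lb.r r419 (@Lb.r r386 (@Lb.r r101 (@Lb.r r24 (@Lb.d (nat_lit 98) (nat_lit 10) (nat_lit 8) (@Lb.fp (nat_lit 3) t263)))))))))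
noncomputable def l8937 : Lb := (@Lb.d (nat_lit 1) (nat_lit 290) (nat_lit 130) (@Lb.g g8 (@Lb.g g9 (@Lb.g g10 (@Lb.g g11 (@Lb.r r2731 (@Lb.r r618 (@Lb.r r537 (@Lb.r r2628 (@Lb.d (nat_lit 425) (nat_lit 69) (nat_lit 410) (@Lb.fm (nat_lit 9) t874)))))))))))
noncomputable def l8938 : Lb := (@Lb.d (nat_lit 1) (nat_lit 64) (nat_lit 0) (@Lb.r r289 (@Lb.r r279 (@Lb.r r584 (@Lb.r r326 (@Lb.g g7 (@Lb.g g6 (@Lb.g g5 (@Lb.d (nat_lit 0) (nat_lit 0) (nat_lit 65) (@Lb.t (@Lb.fp (nat_lit 9) t68)))))))))))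
noncomputable def l8939 : Lb := (@Lb.d (nat_lit 0) (nat_lit 2) (nat_lit 130) (@Lb.g g9 (@Lb.g g10 (@Lb.g g11 (@Lb.r r2666 (@Lb.r r2411 (@Lb.r r2401 (@Lb.r r24 (@Lb.d (nat_lit 538) (nat_lit 105) (nat_lit 612) (@Lb.t (@Lb.fm (nat_lit 9) t2186)))))))))))
noncomputable def l8940 : Lb := (@Lb.r r82 (@Lb.d (nat_lit 34) (nat_lit 33) (nat_lit 8) (@Lb.g g8 (@Lb.g g9 (@Lb.g g7 (@Lb.r r1618 (@Lb.r r2389 (@Lb.r r100 (@Lb.d (nat_lit 136) (nat_lit 10) (nat_lit 537) (@Lb.t (@Lb.fp (nat_lit 9) t722)))))))))))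
noncomputable def l8941 : Lb := (@Lb.d (nat_lit 129) (nat_lit 545) (nat_lit 66) (@Lb.g g8 (@Lb.g g9 (@Lb.g g10 (@Lb.g g11 (@Lb.r r1698 (@Lb.r r149 (@Lb.r r1572 (@Lb.r r2471 (@Lb.d (nat_lit 166) (nat_lit 136) (nat_lit 161) (@Lb.fm (nat_lit 9) t823)))))))))))
noncomputable def l8942 : Lb := (@Lb.d (nat_lit 128) (nat_lit 256) (nat_lit 145) (@Lb.g g10 (@Lb.g g11 (@Lb.r r264 (@Lb.r r519 (@Lb.r r2081 (@Lb.d (nat_lit 260) (nat_lit 96) (nat_lit 337) (@Lb.fp (nat_lit 3) t2187))))))))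
noncomputable def l8943 : Lb := (@Lb.d (nat_lit 2) (nat_lit 4) (nat_lit 128) (@Lb.g g8 (@Lb.g g9 (@Lb.g g10 (@Lb.g g11 (@Lb.r r427 (@Lb.r r594 (@Lb.r r337 (@Lb.r r24 (@Lb.d (nat_lit 265) (nat_lit 38) (nat_lit 646) (@Lb.fm (nat_lit 9) t2188)))))))))))
noncomputable def l8944 : Lb := (@Lb.d (nat_lit 5) (nat_lit 256) (nat_lit 130) (@Lb.g g8 (@Lb.g g10 (@Lb.g g11 (@Lb.r r1381 (@Lb.r r2455 (@Lb.r r146 (@Lb.r r1668 (@Lb.d (nat_lit 277) (nat_lit 0) (nat_lit 150) (@Lb.t (@Lb.fm (nat_lit 9) t939)))))))))))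
noncomputable def l8945 : Lb := (@Lb.d (nat_lit 40) (nat_lit 513) (nat_lit 129) (@Lb.g g8 (@Lb.g g9 (@Lb.g g10 (@Lb.g g11 (@Lb.r r427 (@Lb.r r2401 (@Lb.r r1170 (@Lb.r r2216 (@Lb.d (nat_lit 69) (nat_lit 8) (nat_lit 425) (@Lb.fm (nat_lit 9) t278)))))))))))
noncomputable def l8946 : Lb := (@Lb.d (nat_lit 2) (nat_lit 521) (nat_lit 129) (@Lb.g g8 (@Lb.g g9 (@Lb.g g10 (@Lb.g g11 (@Lb.r r2411 (@Lb.r r386 (@Lb.r r676 (@Lb.r r597 (@Lb.r r2084 (@Lb.d (nat_lit 153) (nat_lit 66) (nat_lit 290) (@Lb.fm (nat_lit 9) t2189))))))))))))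
noncomputable def l8947 : Lb := (@Lb.d (nat_lit 0) (nat_lit 0) (nat_lit 69) (@Lb.r r642 (@Lb.g g11 (@Lb.g g10 (@Lb.fp (nat_lit 3) t2)))))
noncomputable def l8948 : Lb := (@Lb.d (nat_lit 2) (nat_lit 32) (nat_lit 130) (@Lb.g g8 (@Lb.g g9 (@Lb.g g10 (@Lb.g g11 (@Lb.r r343 (@Lb.r r2390 (@Lb.r r1704 (@Lb.r r1625 (@Lb.d (nat_lit 644) (nat_lit 101) (nat_lit 150) (@Lb.fm (nat_lit 9) t823)))))))))))
noncomputable def l8949 : Lb := (@Lb.d (nat_lit 2) (nat_lit 258) (nat_lit 130) (@Lb.g g8 (@Lb.g g9 (@Lb.g g10 (@Lb.g g11 (@Lb.r r2347 (@Lb.r r578 (@Lb.r r292 (@Lb.r r405 (@Lb.r r2084 (@Lb.d (nat_lit 105) (nat_lit 66) (nat_lit 530) (@Lb.fp (nat_lit 9) t2190))))))))))))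
noncomputable def l8950 : Lb := (@Lb.d (nat_lit 16) (nat_lit 264) (nat_lit 37) (@Lb.g g6 (@Lb.r r1624 (@Lb.r r2341 (@Lb.d (nat_lit 584) (nat_lit 130) (nat_lit 321) (@Lb.t (@Lb.fm (nat_lit 3) t2118)))))))
noncomputable def l8951 : Lb := (@Lb.d (nat_lit 0) (nat_lit 512) (nat_lit 130) (@Lb.g g10 (@Lb.g g11 (@Lb.r r419 (@Lb.r r386 (@Lb.r r101 (@Lb.r r24 (@Lb.d (nat_lit 98) (nat_lit 0) (nat_lit 132) (@Lb.fp (nat_lit 3) t263)))))))))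
noncomputable def l8952 : Lb := (@Lb.d (nat_lit 0) (nat_lit 256) (nat_lit 130) (@Lb.g g9 (@Lb.g g10 (@Lb.g g11 (@Lb.r r2403 (@Lb.r r386 (@Lb.r r2725 (@Lb.r r24 (@Lb.d (nat_lit 98) (nat_lit 0) (nat_lit 420) (@Lb.t (@Lb.fp (nat_lit 9) t2191)))))))))))
noncomputable def l8953 : Lb := (@Lb.d (nat_lit 530) (nat_lit 22) (nat_lit 41) (@Lb.r r1385 (@Lb.r r1316 (@Lb.r r2647 (@Lb.r r326 (@Lb.g g7 (@Lb.g g6 (@Lb.g g5 (@Lb.d (nat_lit 4) (nat_lit 0) (nat_lit 65) (@Lb.t (@Lb.fp (nat_lit 9) t2192)))))))))))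
noncomputable def l8954 : Lb := (@Lb.d (nat_lit 426) (nat_lit 86) (nat_lit 345) (@Lb.r r1626 (@Lb.r r1608 (@Lb.r r1387 (@Lb.r r361 (@Lb.g g7 (@Lb.g g6 (@Lb.d (nat_lit 16) (nat_lit 4) (nat_lit 1) (@Lb.fm (nat_lit 3) t2193)))))))))
noncomputable def l8955 : Lb := (@Lb.d (nat_lit 40) (nat_lit 9) (nat_lit 130) (@Lb.g g9 (@Lb.g g10 (@Lb.g g11 (@Lb.r r391 (@Lb.r r580 (@Lb.r r666 (@Lb.r r601 (@Lb.d (nat_lit 129) (nat_lit 5) (nat_lit 72) (@Lb.t (@Lb.fp (nat_lit 9) t2194)))))))))))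
noncomputable def l8956 : Lb := (@Lb.d (nat_lit 10) (nat_lit 98) (nat_lit 580) (@Lb.r r101 (@Lb.r r24 (@Lb.g g9 (@Lb.t (@Lb.fp (nat_lit 3) t166))))))
noncomputable def l8957 : Lb := (@Lb.d (nat_lit 10) (nat_lit 98) (nat_lit 514) (@Lb.r r101 (@Lb.r r24 (@Lb.r r642 (@Lb.r r579 (@Lb.g g10 (@Lb.r r387 (@Lb.t (@Lb.fp (nat_lit 3) t2195)))))))))
noncomputable def l8958 : Lb := (@Lb.r r101 (@Lb.r r24 (@Lb.d (nat_lit 576) (nat_lit 522) (nat_lit 594) (@Lb.fp (nat_lit 1) t166))))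
noncomputable def l8959 : Lb := (@Lb.d (nat_lit 1) (nat_lit 321) (nat_lit 650) (@Lb.r r386 (@Lb.r r339 (@Lb.g g7 (@Lb.g g6 (@Lb.g g5 (@Lb.d (nat_lit 4) (nat_lit 1) (nat_lit 65) (@Lb.t (@Lb.fm (nat_lit 9) t2196)))))))))
noncomputable def l8960 : Lb := (@Lb.r r82 (@Lb.d (nat_lit 0) (nat_lit 258) (nat_lit 580) (@Lb.g g9 (@Lb.g g7 (@Lb.r r386 (@Lb.r r1121 (@Lb.d (nat_lit 5) (nat_lit 138) (nat_lit 82) (@Lb.fp (nat_lit 3) t2197))))))))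
noncomputable def l8961 : Lb := (@Lb.d (nat_lit 37) (nat_lit 357) (nat_lit 584) (@Lb.r r101 (@Lb.r r24 (@Lb.r r323 (@Lb.g g7 (@Lb.g g6 (@Lb.d (nat_lit 0) (nat_lit 4) (nat_lit 65) (@Lb.fm (nat_lit 3) t742))))))))
noncomputable def l8962 : Lb := (@Lb.d (nat_lit 129) (nat_lit 2) (nat_lit 130) (@Lb.g g8 (@Lb.g g9 (@Lb.g g10 (@Lb.g g11 (@Lb.r r1706 (@Lb.r r1451 (@Lb.r r1177 (@Lb.r r1156 (@Lb.d (nat_lit 297) (nat_lit 97) (nat_lit 98) (@Lb.fm (nat_lit 9) t985)))))))))))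
noncomputable def l8963 : Lb := (@Lb.r r275 (@Lb.d (nat_lit 9) (nat_lit 546) (nat_lit 2) (@Lb.g g8 (@Lb.g g9 (@Lb.g g10 (@Lb.r r1442 (@Lb.r r2635 (@Lb.r r548 (@Lb.r r661 (@Lb.d (nat_lit 165) (nat_lit 101) (nat_lit 133) (@Lb.t (@Lb.fm (nat_lit 9) t823))))))))))))
noncomputable def l8964 : Lb := (@Lb.d (nat_lit 38) (nat_lit 6) (nat_lit 128) (@Lb.r r24 (@Lb.r r97 (@Lb.r r1430 (@Lb.g g7 (@Lb.g g5 (@Lb.d (nat_lit 0) (nat_lit 1) (nat_lit 68) (@Lb.r r578 (@Lb.fp (nat_lit 3) t809)))))))))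
noncomputable def l8965 : Lb := (@Lb.d (nat_lit 2) (nat_lit 512) (nat_lit 129) (@Lb.g g8 (@Lb.g g9 (@Lb.g g10 (@Lb.g g11 (@Lb.r r618 (@Lb.r r1643 (@Lb.r r1633 (@Lb.r r24 (@Lb.d (nat_lit 265) (nat_lit 153) (nat_lit 386) (@Lb.fm (nat_lit 9) t1741)))))))))))
noncomputable def l8966 : Lb := (@Lb.d (nat_lit 357) (nat_lit 6) (nat_lit 512) (@Lb.r r24 (@Lb.r r97 (@Lb.r r1686 (@Lb.r r579 (@Lb.g g7 (@Lb.g g6 (@Lb.g g5 (@Lb.d (nat_lit 0) (nat_lit 1) (nat_lit 134) (@Lb.t (@Lb.fp (nat_lit 9) t737)))))))))))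
noncomputable def l8967 : Lb := (@Lb.d (nat_lit 9) (nat_lit 16) (nat_lit 2) (@Lb.g g8 (@Lb.g g9 (@Lb.g g10 (@Lb.g g11 (@Lb.r r343 (@Lb.r r2406 (@Lb.r r1688 (@Lb.r r2469 (@Lb.d (nat_lit 618) (nat_lit 161) (nat_lit 665) (@Lb.fp (nat_lit 9) t823)))))))))))
noncomputable def l8968 : Lb := (@Lb.d (nat_lit 644) (nat_lit 608) (nat_lit 64) (@Lb.r r1317 (@Lb.r r1382 (@Lb.r r1307 (@Lb.g g7 (@Lb.g g5 (@Lb.g g8 (@Lb.d (nat_lit 0) (nat_lit 17) (nat_lit 64) (@Lb.r r98 (@Lb.t (@Lb.fp (nat_lit 9) t2198)))))))))))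
noncomputable def l8969 : Lb := (@Lb.d (nat_lit 1) (nat_lit 256) (nat_lit 128) (@Lb.g g8 (@Lb.g g11 (@Lb.r r1303 (@Lb.r r2596 (@Lb.r r101 (@Lb.r r2194 (@Lb.d (nat_lit 528) (nat_lit 0) (nat_lit 138) (@Lb.fm (nat_lit 3) t2199)))))))))
noncomputable def l8970 : Lb := (@Lb.d (nat_lit 9) (nat_lit 1) (nat_lit 66) (@Lb.g g8 (@Lb.g g9 (@Lb.g g10 (@Lb.g g7 (@Lb.r r386 (@Lb.r r1377 (@Lb.r r2584 (@Lb.d (nat_lit 330) (nat_lit 89) (nat_lit 17) (@Lb.fp (nat_lit 9) t2200))))))))))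
noncomputable def l8971 : Lb := (@Lb.r r82 (@Lb.d (nat_lit 0) (nat_lit 16) (nat_lit 68) (@Lb.g g9 (@Lb.g g7 (@Lb.r r386 (@Lb.r r97 (@Lb.d (nat_lit 546) (nat_lit 2) (nat_lit 82) (@Lb.fp (nat_lit 3) t2201))))))))
noncomputable def l8972 : Lb := (@Lb.d (nat_lit 2) (nat_lit 2) (nat_lit 130) (@Lb.g g8 (@Lb.g g9 (@Lb.g g10 (@Lb.g g11 (@Lb.r r84 (@Lb.r r154 (@Lb.r r597 (@Lb.r r343 (@Lb.r r676 (@Lb.d (nat_lit 329) (nat_lit 66) (nat_lit 586) (@Lb.fm (nat_lit 9) t716))))))))))))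
noncomputable def l8973 : Lb := (@Lb.d (nat_lit 10) (nat_lit 24) (nat_lit 640) (@Lb.g g8 (@Lb.g g10 (@Lb.g g11 (@Lb.r r2401 (@Lb.r r1366 (@Lb.r r1156 (@Lb.d (nat_lit 166) (nat_lit 96) (nat_lit 162) (@Lb.t (@Lb.fp (nat_lit 9) t506))))))))))
noncomputable def l8974 : Lb := (@Lb.d (nat_lit 0) (nat_lit 512) (nat_lit 68) (@Lb.g g7 (@Lb.r r402 (@Lb.d (nat_lit 0) (nat_lit 8) (nat_lit 65) (@Lb.t (@Lb.fp (nat_lit 3) t44))))))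
noncomputable def l8975 : Lb := (@Lb.r r322 (@Lb.d (nat_lit 2) (nat_lit 258) (nat_lit 576) (@Lb.g g8 (@Lb.g g9 (@Lb.g g7 (@Lb.r r1442 (@Lb.r r1313 (@Lb.r r24 (@Lb.d (nat_lit 10) (nat_lit 17) (nat_lit 276) (@Lb.t (@Lb.fm (nat_lit 9) t1630)))))))))))
noncomputable def l8976 : Lb := (@Lb.r r82 (@Lb.d (nat_lit 0) (nat_lit 272) (nat_lit 128) (@Lb.g g9 (@Lb.g g11 (@Lb.r r2595 (@Lb.r r1634 (@Lb.r r1553 (@Lb.d (nat_lit 10) (nat_lit 129) (nat_lit 384) (@Lb.fp (nat_lit 3) t2202)))))))))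
noncomputable def l8977 : Lb := (@Lb.r r82 (@Lb.d (nat_lit 25) (nat_lit 514) (nat_lit 128) (@Lb.g g8 (@Lb.g g9 (@Lb.g g11 (@Lb.r r1418 (@Lb.r r611 (@Lb.r r2709 (@Lb.r r1192 (@Lb.d (nat_lit 166) (nat_lit 134) (nat_lit 280) (@Lb.t (@Lb.fp (nat_lit 9) t1873))))))))))))
noncomputable def l8978 : Lb := (@Lb.r r82 (@Lb.d (nat_lit 34) (nat_lit 545) (nat_lit 64) (@Lb.g g8 (@Lb.g g9 (@Lb.g g11 (@Lb.r r1571 (@Lb.r r582 (@Lb.r r1445 (@Lb.r r408 (@Lb.d (nat_lit 340) (nat_lit 154) (nat_lit 358) (@Lb.t (@Lb.fp (nat_lit 9) t2203))))))))))))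
noncomputable def l8979 : Lb := (@Lb.d (nat_lit 36) (nat_lit 132) (nat_lit 321) (@Lb.r r2394 (@Lb.r r2376 (@Lb.r r1687 (@Lb.g g6 (@Lb.g g9 (@Lb.d (nat_lit 20) (nat_lit 42) (nat_lit 0) (@Lb.r r387 (@Lb.fp (nat_lit 3) t2204)))))))))
noncomputable def l8980 : Lb := (@Lb.d (nat_lit 425) (nat_lit 292) (nat_lit 345) (@Lb.r r85 (@Lb.r r40 (@Lb.r r2374 (@Lb.r r1707 (@Lb.g g7 (@Lb.g g6 (@Lb.g g5 (@Lb.d (nat_lit 0) (nat_lit 9) (nat_lit 133) (@Lb.t (@Lb.fp (nat_lit 9) t2205)))))))))))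
noncomputable def l8981 : Lb := (@Lb.r r82 (@Lb.d (nat_lit 34) (nat_lit 33) (nat_lit 512) (@Lb.g g8 (@Lb.g g9 (@Lb.g g7 (@Lb.r r361 (@Lb.r r150 (@Lb.r r100 (@Lb.d (nat_lit 21) (nat_lit 9) (nat_lit 393) (@Lb.t (@Lb.fp (nat_lit 9) t512)))))))))))
noncomputable def l8982 : Lb := (@Lb.d (nat_lit 0) (nat_lit 530) (nat_lit 616) (@Lb.r r1114 (@Lb.r r1096 (@Lb.r r2579 (@Lb.g g7 (@Lb.g g9 (@Lb.d (nat_lit 4) (nat_lit 34) (nat_lit 0) (@Lb.fp (nat_lit 3) t2206))))))))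
noncomputable def l8983 : Lb := (@Lb.d (nat_lit 38) (nat_lit 645) (nat_lit 2) (@Lb.r r101 (@Lb.r r1383 (@Lb.g g7 (@Lb.g g6 (@Lb.g g4 (@Lb.d (nat_lit 6) (nat_lit 4) (nat_lit 1) (@Lb.t (@Lb.fm (nat_lit 9) t1000)))))))))
noncomputable def l8984 : Lb := (@Lb.d (nat_lit 37) (nat_lit 320) (nat_lit 17) (@Lb.r r101 (@Lb.r r24 (@Lb.r r323 (@Lb.g g7 (@Lb.g g6 (@Lb.d (nat_lit 0) (nat_lit 4) (nat_lit 65) (@Lb.fm (nat_lit 3) t2207))))))))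
noncomputable def l8985 : Lb := (@Lb.d (nat_lit 64) (nat_lit 512) (nat_lit 66) (@Lb.r r260 (@Lb.r r277 (@Lb.r r395 (@Lb.g g10 (@Lb.g g4 (@Lb.d (nat_lit 1) (nat_lit 0) (nat_lit 8) (@Lb.r r331 (@Lb.r r25 (@Lb.fp (nat_lit 3) t1120))))))))))
noncomputable def l8986 : Lb := (@Lb.r r21 (@Lb.d (nat_lit 152) (nat_lit 0) (nat_lit 0) (@Lb.g g8 (@Lb.g g10 (@Lb.r r295 (@Lb.r r1617 (@Lb.r r678 (@Lb.r r2648 (@Lb.d (nat_lit 617) (nat_lit 166) (nat_lit 426) (@Lb.fm (nat_lit 3) t148))))))))))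
noncomputable def l8987 : Lb := (@Lb.d (nat_lit 32) (nat_lit 256) (nat_lit 128) (@Lb.g g10 (@Lb.g g11 (@Lb.r r391 (@Lb.r r580 (@Lb.r r650 (@Lb.r r409 (@Lb.d (nat_lit 98) (nat_lit 0) (nat_lit 88) (@Lb.fp (nat_lit 3) t2208)))))))))
noncomputable def l8988 : Lb := (@Lb.r r21 (@Lb.d (nat_lit 2) (nat_lit 256) (nat_lit 130) (@Lb.g g8 (@Lb.g g10 (@Lb.g g11 (@Lb.r r395 (@Lb.r r386 (@Lb.r r149 (@Lb.r r72 (@Lb.d (nat_lit 81) (nat_lit 0) (nat_lit 70) (@Lb.t (@Lb.fm (nat_lit 9) t61))))))))))))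
noncomputable def l8989 : Lb := (@Lb.d (nat_lit 2) (nat_lit 258) (nat_lit 130) (@Lb.g g8 (@Lb.g g9 (@Lb.g g10 (@Lb.g g11 (@Lb.r r427 (@Lb.r r420 (@Lb.r r102 (@Lb.r r97 (@Lb.r r36 (@Lb.d (nat_lit 2) (nat_lit 9) (nat_lit 73) (@Lb.fm (nat_lit 9) t119))))))))))))
noncomputable def l8990 : Lb := (@Lb.r r21 (@Lb.d (nat_lit 16) (nat_lit 256) (nat_lit 128) (@Lb.g g8 (@Lb.g g10 (@Lb.g g11 (@Lb.r r648 (@Lb.r r395 (@Lb.r r402 (@Lb.r r97 (@Lb.d (nat_lit 282) (nat_lit 9) (nat_lit 160) (@Lb.t (@Lb.fp (nat_lit 9) t2209))))))))))))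
noncomputable def l8991 : Lb := (@Lb.d (nat_lit 18) (nat_lit 0) (nat_lit 646) (@Lb.r r24 (@Lb.r r2587 (@Lb.r r1365 (@Lb.r r2722 (@Lb.g g7 (@Lb.g g6 (@Lb.g g5 (@Lb.d (nat_lit 0) (nat_lit 6) (nat_lit 73) (@Lb.t (@Lb.fm (nat_lit 9) t2040)))))))))))
noncomputable def l8992 : Lb := (@Lb.r r82 (@Lb.r r275 (@Lb.d (nat_lit 2) (nat_lit 520) (nat_lit 0) (@Lb.g g8 (@Lb.g g9 (@Lb.r r363 (@Lb.r r594 (@Lb.r r409 (@Lb.d (nat_lit 665) (nat_lit 26) (nat_lit 544) (@Lb.fm (nat_lit 3) t580))))))))))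
noncomputable def l8993 : Lb := (@Lb.d (nat_lit 517) (nat_lit 1) (nat_lit 256) (@Lb.r r2072 (@Lb.r r97 (@Lb.r r402 (@Lb.g g11 (@Lb.g g4 (@Lb.r r74 (@Lb.r r25 (@Lb.fm (nat_lit 3) t150)))))))))
noncomputable def l8994 : Lb := (@Lb.r r82 (@Lb.d (nat_lit 2) (nat_lit 42) (nat_lit 128) (@Lb.g g8 (@Lb.g g9 (@Lb.g g11 (@Lb.r r355 (@Lb.r r1174 (@Lb.r r2133 (@Lb.d (nat_lit 358) (nat_lit 134) (nat_lit 280) (@Lb.t (@Lb.fp (nat_lit 9) t393)))))))))))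
noncomputable def l8995 : Lb := (@Lb.d (nat_lit 32) (nat_lit 0) (nat_lit 2) (@Lb.g g9 (@Lb.g g10 (@Lb.g g11 (@Lb.r r2695 (@Lb.r r1352 (@Lb.r r2390 (@Lb.r r289 (@Lb.d (nat_lit 665) (nat_lit 73) (nat_lit 362) (@Lb.t (@Lb.fp (nat_lit 9) t242)))))))))))
noncomputable def l8996 : Lb := (@Lb.r r82 (@Lb.d (nat_lit 2) (nat_lit 266) (nat_lit 0) (@Lb.g g8 (@Lb.g g9 (@Lb.g g11 (@Lb.r r363 (@Lb.r r150 (@Lb.r r85 (@Lb.d (nat_lit 4) (nat_lit 6) (nat_lit 136) (@Lb.t (@Lb.fp (nat_lit 9) t546)))))))))))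
noncomputable def l8997 : Lb := (@Lb.d (nat_lit 5) (nat_lit 256) (nat_lit 137) (@Lb.g g4 (@Lb.g g9 (@Lb.g g10 (@Lb.g g11 (@Lb.r r679 (@Lb.r r1634 (@Lb.r r1553 (@Lb.d (nat_lit 609) (nat_lit 105) (nat_lit 657) (@Lb.fp (nat_lit 9) t490))))))))))
noncomputable def l8998 : Lb := (@Lb.r r82 (@Lb.d (nat_lit 2) (nat_lit 41) (nat_lit 128) (@Lb.g g8 (@Lb.g g9 (@Lb.g g11 (@Lb.r r659 (@Lb.r r2394 (@Lb.r r1681 (@Lb.d (nat_lit 130) (nat_lit 106) (nat_lit 330) (@Lb.t (@Lb.fp (nat_lit 9) t393)))))))))))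
noncomputable def l8999 : Lb := (@Lb.r r273 (@Lb.r r322 (@Lb.d (nat_lit 2) (nat_lit 512) (nat_lit 512) (@Lb.g g8 (@Lb.g g11 (@Lb.r r101 (@Lb.r r146 (@Lb.d (nat_lit 512) (nat_lit 0) (nat_lit 32) (@Lb.fm (nat_lit 3) t150)))))))))
noncomputable def l9000 : Lb := (@Lb.r r82 (@Lb.d (nat_lit 2) (nat_lit 298) (nat_lit 72) (@Lb.g g8 (@Lb.g g9 (@Lb.g g11 (@Lb.r r330 (@Lb.r r667 (@Lb.r r277 (@Lb.d (nat_lit 612) (nat_lit 25) (nat_lit 550) (@Lb.t (@Lb.fp (nat_lit 9) t580)))))))))))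
noncomputable def l9001 : Lb := (@Lb.r r82 (@Lb.d (nat_lit 2) (nat_lit 296) (nat_lit 128) (@Lb.g g8 (@Lb.g g9 (@Lb.g g11 (@Lb.r r1686 (@Lb.r r1415 (@Lb.r r281 (@Lb.d (nat_lit 424) (nat_lit 18) (nat_lit 2) (@Lb.t (@Lb.fp (nat_lit 9) t393)))))))))))
noncomputable def l9002 : Lb := (@Lb.d (nat_lit 2) (nat_lit 256) (nat_lit 73) (@Lb.g g8 (@Lb.g g10 (@Lb.g g11 (@Lb.r r2213 (@Lb.r r2658 (@Lb.r r579 (@Lb.d (nat_lit 64) (nat_lit 81) (nat_lit 586) (@Lb.t (@Lb.fm (nat_lit 9) t242))))))))))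
noncomputable def l9003 : Lb := (@Lb.d (nat_lit 128) (nat_lit 288) (nat_lit 2) (@Lb.g g8 (@Lb.g g9 (@Lb.g g10 (@Lb.r r263 (@Lb.r r1186 (@Lb.r r1624 (@Lb.r r1189 (@Lb.d (nat_lit 293) (nat_lit 86) (nat_lit 258) (@Lb.t (@Lb.fp (nat_lit 9) t994)))))))))))
noncomputable def l9004 : Lb := (@Lb.d (nat_lit 0) (nat_lit 544) (nat_lit 2) (@Lb.g g9 (@Lb.g g10 (@Lb.r r2691 (@Lb.r r2214 (@Lb.r r596 (@Lb.r r297 (@Lb.d (nat_lit 580) (nat_lit 34) (nat_lit 320) (@Lb.fp (nat_lit 3) t242)))))))))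
noncomputable def l9005 : Lb := (@Lb.d (nat_lit 2) (nat_lit 0) (nat_lit 73) (@Lb.g g8 (@Lb.g g10 (@Lb.g g11 (@Lb.r r2213 (@Lb.r r2658 (@Lb.r r579 (@Lb.d (nat_lit 69) (nat_lit 82) (nat_lit 586) (@Lb.t (@Lb.fm (nat_lit 9) t1425))))))))))
noncomputable def l9006 : Lb := (@Lb.d (nat_lit 2) (nat_lit 288) (nat_lit 64) (@Lb.g g8 (@Lb.g g11 (@Lb.r r618 (@Lb.r r401 (@Lb.r r615 (@Lb.d (nat_lit 26) (nat_lit 154) (nat_lit 394) (@Lb.fp (nat_lit 3) t242))))))))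
noncomputable def l9007 : Lb := (@Lb.d (nat_lit 129) (nat_lit 2) (nat_lit 2) (@Lb.g g8 (@Lb.g g9 (@Lb.g g10 (@Lb.r r519 (@Lb.r r1177 (@Lb.r r2456 (@Lb.r r2122 (@Lb.d (nat_lit 161) (nat_lit 21) (nat_lit 296) (@Lb.t (@Lb.fm (nat_lit 9) t145)))))))))))
noncomputable def l9008 : Lb := (@Lb.d (nat_lit 32) (nat_lit 514) (nat_lit 130) (@Lb.g g8 (@Lb.g g9 (@Lb.g g10 (@Lb.g g11 (@Lb.r r342 (@Lb.r r663 (@Lb.r r2657 (@Lb.r r1560 (@Lb.d (nat_lit 169) (nat_lit 137) (nat_lit 293) (@Lb.fm (nat_lit 9) t2210)))))))))))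
noncomputable def l9009 : Lb := (@Lb.d (nat_lit 9) (nat_lit 514) (nat_lit 66) (@Lb.g g8 (@Lb.g g9 (@Lb.g g10 (@Lb.g g11 (@Lb.r r401 (@Lb.r r1579 (@Lb.r r1610 (@Lb.r r1576 (@Lb.r r2201 (@Lb.d (nat_lit 1) (nat_lit 88) (nat_lit 297) (@Lb.fp (nat_lit 9) t591))))))))))))
noncomputable def l9010 : Lb := (@Lb.r r21 (@Lb.r r70 (@Lb.d (nat_lit 264) (nat_lit 32) (nat_lit 64) (@Lb.g g8 (@Lb.g g11 (@Lb.r r618 (@Lb.r r401 (@Lb.r r2663 (@Lb.d (nat_lit 665) (nat_lit 21) (nat_lit 681) (@Lb.fp (nat_lit 3) t644))))))))))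
noncomputable def l9011 : Lb := (@Lb.r r21 (@Lb.d (nat_lit 17) (nat_lit 0) (nat_lit 128) (@Lb.g g8 (@Lb.g g10 (@Lb.g g11 (@Lb.r r2635 (@Lb.r r1642 (@Lb.r r97 (@Lb.r r552 (@Lb.d (nat_lit 582) (nat_lit 82) (nat_lit 128) (@Lb.t (@Lb.fp (nat_lit 9) t152))))))))))))
noncomputable def l9012 : Lb := (@Lb.d (nat_lit 0) (nat_lit 0) (nat_lit 128) (@Lb.g g10 (@Lb.g g11 (@Lb.r r387 (@Lb.d (nat_lit 618) (nat_lit 2) (nat_lit 594) (@Lb.fm (nat_lit 3) t698))))))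
noncomputable def l9013 : Lb := (@Lb.d (nat_lit 104) (nat_lit 294) (nat_lit 10) (@Lb.g g8 (@Lb.g g9 (@Lb.g g10 (@Lb.g g11 (@Lb.r r1346 (@Lb.r r1441 (@Lb.r r2715 (@Lb.r r1624 (@Lb.d (nat_lit 84) (nat_lit 165) (nat_lit 666) (@Lb.fm (nat_lit 9) t546)))))))))))
noncomputable def l9014 : Lb := (@Lb.d (nat_lit 1) (nat_lit 2) (nat_lit 66) (@Lb.g g8 (@Lb.g g9 (@Lb.g g10 (@Lb.g g11 (@Lb.r r1602 (@Lb.r r2647 (@Lb.r r2457 (@Lb.r r2436 (@Lb.d (nat_lit 617) (nat_lit 10) (nat_lit 648) (@Lb.fm (nat_lit 9) t2211)))))))))))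
noncomputable def l9015 : Lb := (@Lb.d (nat_lit 0) (nat_lit 258) (nat_lit 130) (@Lb.g g9 (@Lb.g g10 (@Lb.g g11 (@Lb.r r2411 (@Lb.r r386 (@Lb.r r97 (@Lb.d (nat_lit 292) (nat_lit 64) (nat_lit 68) (@Lb.t (@Lb.fm (nat_lit 9) t1231))))))))))
noncomputable def l9016 : Lb := (@Lb.r r20 (@Lb.d (nat_lit 32) (nat_lit 258) (nat_lit 66) (@Lb.g g9 (@Lb.g g6 (@Lb.g g11 (@Lb.r r388 (@Lb.r r283 (@Lb.r r529 (@Lb.d (nat_lit 10) (nat_lit 90) (nat_lit 133) (@Lb.t (@Lb.fp (nat_lit 9) t51)))))))))))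
noncomputable def l9017 : Lb := (@Lb.d (nat_lit 9) (nat_lit 257) (nat_lit 64) (@Lb.g g8 (@Lb.g g9 (@Lb.g g10 (@Lb.g g11 (@Lb.r r292 (@Lb.r r651 (@Lb.r r162 (@Lb.r r145 (@Lb.r r516 (@Lb.d (nat_lit 10) (nat_lit 70) (nat_lit 136) (@Lb.fp (nat_lit 9) t51))))))))))))
noncomputable def l9018 : Lb := (@Lb.d (nat_lit 0) (nat_lit 512) (nat_lit 128) (@Lb.g g10 (@Lb.g g11 (@Lb.r r387 (@Lb.r r24 (@Lb.r r101 (@Lb.d (nat_lit 0) (nat_lit 2) (nat_lit 0) (@Lb.fm (nat_lit 3) t87))))))))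
noncomputable def l9019 : Lb := (@Lb.d (nat_lit 658) (nat_lit 256) (nat_lit 341) (@Lb.r r2632 (@Lb.r r2649 (@Lb.r r1350 (@Lb.g g7 (@Lb.g g6 (@Lb.g g4 (@Lb.d (nat_lit 1) (nat_lit 0) (nat_lit 1) (@Lb.r r25 (@Lb.t (@Lb.fm (nat_lit 9) t145)))))))))))
noncomputable def l9020 : Lb := (@Lb.d (nat_lit 97) (nat_lit 2) (nat_lit 73) (@Lb.g g8 (@Lb.g g9 (@Lb.g g10 (@Lb.g g11 (@Lb.r r1642 (@Lb.r r2627 (@Lb.r r97 (@Lb.r r2072 (@Lb.d (nat_lit 665) (nat_lit 137) (nat_lit 86) (@Lb.fm (nat_lit 9) t50)))))))))))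
noncomputable def l9021 : Lb := (@Lb.d (nat_lit 1) (nat_lit 256) (nat_lit 130) (@Lb.g g8 (@Lb.g g9 (@Lb.g g10 (@Lb.g g11 (@Lb.r r532 (@Lb.r r295 (@Lb.r r357 (@Lb.r r666 (@Lb.r r644 (@Lb.d (nat_lit 2) (nat_lit 4) (nat_lit 69) (@Lb.fp (nat_lit 9) t45))))))))))))
noncomputable def l9022 : Lb := (@Lb.d (nat_lit 10) (nat_lit 578) (nat_lit 64) (@Lb.r r101 (@Lb.r r1426 (@Lb.g g7 (@Lb.g g5 (@Lb.d (nat_lit 0) (nat_lit 0) (nat_lit 68) (@Lb.r r578 (@Lb.fm (nat_lit 3) t482))))))))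
noncomputable def l9023 : Lb := (@Lb.d (nat_lit 640) (nat_lit 401) (nat_lit 512) (@Lb.r r346 (@Lb.r r531 (@Lb.r r293 (@Lb.g g7 (@Lb.g g6 (@Lb.g g4 (@Lb.d (nat_lit 1) (nat_lit 16) (nat_lit 64) (@Lb.t (@Lb.fp (nat_lit 9) t2212))))))))))
noncomputable def l9024 : Lb := (@Lb.d (nat_lit 70) (nat_lit 577) (nat_lit 645) (@Lb.r r597 (@Lb.r r1642 (@Lb.r r1352 (@Lb.r r2695 (@Lb.g g7 (@Lb.g g6 (@Lb.g g5 (@Lb.d (nat_lit 20) (nat_lit 1) (nat_lit 65) (@Lb.t (@Lb.fp (nat_lit 9) t221)))))))))))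
noncomputable def l9025 : Lb := (@Lb.r r134 (@Lb.r r328 (@Lb.r r407 (@Lb.r r609 (@Lb.d (nat_lit 0) (nat_lit 0) (nat_lit 16) (@Lb.fm (nat_lit 1) t334))))))
noncomputable def l9026 : Lb := (@Lb.d (nat_lit 389) (nat_lit 529) (nat_lit 513) (@Lb.r r101 (@Lb.r r2659 (@Lb.g g6 (@Lb.d (nat_lit 0) (nat_lit 4) (nat_lit 17) (@Lb.r r387 (@Lb.t (@Lb.fm (nat_lit 3) t482))))))))
noncomputable def l9027 : Lb := (@Lb.d (nat_lit 22) (nat_lit 322) (nat_lit 64) (@Lb.r r97 (@Lb.r r1430 (@Lb.g g7 (@Lb.g g5 (@Lb.d (nat_lit 0) (nat_lit 1) (nat_lit 68) (@Lb.r r578 (@Lb.fm (nat_lit 3) t809))))))))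
noncomputable def l9028 : Lb := (@Lb.d (nat_lit 645) (nat_lit 146) (nat_lit 512) (@Lb.r r346 (@Lb.r r531 (@Lb.r r293 (@Lb.g g7 (@Lb.g g6 (@Lb.g g4 (@Lb.d (nat_lit 1) (nat_lit 16) (nat_lit 64) (@Lb.t (@Lb.fp (nat_lit 9) t2212))))))))))
noncomputable def l9029 : Lb := (@Lb.d (nat_lit 8) (nat_lit 256) (nat_lit 64) (@Lb.g g8 (@Lb.g g11 (@Lb.r r533 (@Lb.r r1303 (@Lb.r r2178 (@Lb.r r2596 (@Lb.d (nat_lit 665) (nat_lit 89) (nat_lit 416) (@Lb.fp (nat_lit 3) t2213)))))))))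
noncomputable def l9030 : Lb := (@Lb.r r355 (@Lb.d (nat_lit 16) (nat_lit 264) (nat_lit 33) (@Lb.g g9 (@Lb.g g6 (@Lb.r r2667 (@Lb.r r612 (@Lb.r r533 (@Lb.d (nat_lit 389) (nat_lit 17) (nat_lit 134) (@Lb.fm (nat_lit 3) t467)))))))))
noncomputable def l9031 : Lb := (@Lb.d (nat_lit 0) (nat_lit 256) (nat_lit 66) (@Lb.g g10 (@Lb.g g11 (@Lb.r r419 (@Lb.r r386 (@Lb.d (nat_lit 0) (nat_lit 98) (nat_lit 89) (@Lb.fp (nat_lit 3) t356)))))))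
noncomputable def l9032 : Lb := (@Lb.r r323 (@Lb.d (nat_lit 0) (nat_lit 520) (nat_lit 34) (@Lb.g g10 (@Lb.r r2659 (@Lb.r r101 (@Lb.d (nat_lit 586) (nat_lit 34) (nat_lit 258) (@Lb.t (@Lb.fp (nat_lit 3) t240))))))))
noncomputable def l9033 : Lb := (@Lb.d (nat_lit 1) (nat_lit 388) (nat_lit 149) (@Lb.r r1362 (@Lb.r r2659 (@Lb.g g7 (@Lb.g g6 (@Lb.g g5 (@Lb.d (nat_lit 4) (nat_lit 1) (nat_lit 6) (@Lb.t (@Lb.fm (nat_lit 9) t869)))))))))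
noncomputable def l9034 : Lb := (@Lb.r r355 (@Lb.d (nat_lit 9) (nat_lit 264) (nat_lit 2) (@Lb.g g8 (@Lb.g g9 (@Lb.g g10 (@Lb.r r1698 (@Lb.r r1415 (@Lb.r r1688 (@Lb.r r85 (@Lb.d (nat_lit 289) (nat_lit 32) (nat_lit 673) (@Lb.t (@Lb.fm (nat_lit 9) t2214))))))))))))
noncomputable def l9035 : Lb := (@Lb.r r20 (@Lb.d (nat_lit 0) (nat_lit 513) (nat_lit 66) (@Lb.g g9 (@Lb.g g10 (@Lb.g g11 (@Lb.r r1602 (@Lb.r r2651 (@Lb.r r2453 (@Lb.d (nat_lit 404) (nat_lit 150) (nat_lit 648) (@Lb.t (@Lb.fp (nat_lit 9) t2215)))))))))))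
noncomputable def l9036 : Lb := (@Lb.r r331 (@Lb.d (nat_lit 384) (nat_lit 264) (nat_lit 34) (@Lb.g g4 (@Lb.g g10 (@Lb.r r1603 (@Lb.d (nat_lit 1) (nat_lit 2) (nat_lit 665) (@Lb.fm (nat_lit 3) t472)))))))
noncomputable def l9037 : Lb := (@Lb.d (nat_lit 2) (nat_lit 514) (nat_lit 64) (@Lb.g g8 (@Lb.g g9 (@Lb.g g10 (@Lb.g g11 (@Lb.r r673 (@Lb.r r295 (@Lb.r r664 (@Lb.r r154 (@Lb.d (nat_lit 21) (nat_lit 132) (nat_lit 168) (@Lb.fm (nat_lit 9) t232)))))))))))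
noncomputable def l9038 : Lb := (@Lb.r r323 (@Lb.d (nat_lit 0) (nat_lit 520) (nat_lit 34) (@Lb.g g10 (@Lb.r r2659 (@Lb.r r101 (@Lb.d (nat_lit 86) (nat_lit 40) (nat_lit 418) (@Lb.t (@Lb.fp (nat_lit 3) t2216))))))))
noncomputable def l9039 : Lb := (@Lb.r r355 (@Lb.d (nat_lit 578) (nat_lit 521) (nat_lit 17) (@Lb.g g8 (@Lb.g g9 (@Lb.g g6 (@Lb.r r619 (@Lb.r r2649 (@Lb.d (nat_lit 361) (nat_lit 165) (nat_lit 40) (@Lb.t (@Lb.fm (nat_lit 9) t2217))))))))))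
noncomputable def l9040 : Lb := (@Lb.d (nat_lit 2) (nat_lit 258) (nat_lit 2) (@Lb.g g8 (@Lb.g g9 (@Lb.g g10 (@Lb.g g11 (@Lb.r r1689 (@Lb.r r2579 (@Lb.r r386 (@Lb.d (nat_lit 289) (nat_lit 0) (nat_lit 169) (@Lb.fp (nat_lit 9) t791))))))))))
noncomputable def l9041 : Lb := (@Lb.d (nat_lit 549) (nat_lit 42) (nat_lit 550) (@Lb.r r24 (@Lb.r r97 (@Lb.r r2438 (@Lb.g g11 (@Lb.g g6 (@Lb.g g5 (@Lb.d (nat_lit 0) (nat_lit 6) (nat_lit 1) (@Lb.t (@Lb.fp (nat_lit 9) t2218))))))))))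
noncomputable def l9042 : Lb := (@Lb.d (nat_lit 389) (nat_lit 273) (nat_lit 577) (@Lb.r r101 (@Lb.r r2659 (@Lb.g g6 (@Lb.d (nat_lit 0) (nat_lit 4) (nat_lit 17) (@Lb.r r387 (@Lb.t (@Lb.fm (nat_lit 3) t482))))))))
noncomputable def l9043 : Lb := (@Lb.d (nat_lit 257) (nat_lit 0) (nat_lit 168) (@Lb.r r101 (@Lb.r r24 (@Lb.r r323 (@Lb.g g7 (@Lb.g g6 (@Lb.d (nat_lit 0) (nat_lit 4) (nat_lit 65) (@Lb.fm (nat_lit 3) t2219))))))))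
noncomputable def l9044 : Lb := (@Lb.d (nat_lit 548) (nat_lit 554) (nat_lit 550) (@Lb.r r24 (@Lb.r r97 (@Lb.r r2438 (@Lb.g g11 (@Lb.g g6 (@Lb.g g5 (@Lb.d (nat_lit 0) (nat_lit 6) (nat_lit 129) (@Lb.t (@Lb.fp (nat_lit 9) t2220))))))))))
noncomputable def l9045 : Lb := (@Lb.r r82 (@Lb.d (nat_lit 34) (nat_lit 258) (nat_lit 0) (@Lb.g g8 (@Lb.g g9 (@Lb.g g11 (@Lb.r r1571 (@Lb.r r582 (@Lb.r r1177 (@Lb.r r408 (@Lb.d (nat_lit 338) (nat_lit 24) (nat_lit 586) (@Lb.t (@Lb.fm (nat_lit 9) t594))))))))))))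
noncomputable def l9046 : Lb := (@Lb.r r82 (@Lb.d (nat_lit 2) (nat_lit 2) (nat_lit 128) (@Lb.g g8 (@Lb.g g9 (@Lb.g g11 (@Lb.r r299 (@Lb.r r2465 (@Lb.r r98 (@Lb.r r1096 (@Lb.d (nat_lit 337) (nat_lit 98) (nat_lit 616) (@Lb.t (@Lb.fm (nat_lit 9) t2221))))))))))))
noncomputable def l9047 : Lb := (@Lb.d (nat_lit 145) (nat_lit 521) (nat_lit 73) (@Lb.g g8 (@Lb.g g9 (@Lb.g g10 (@Lb.g g11 (@Lb.r r84 (@Lb.r r682 (@Lb.r r1411 (@Lb.r r1177 (@Lb.r r1156 (@Lb.d (nat_lit 264) (nat_lit 153) (nat_lit 517) (@Lb.fm (nat_lit 9) t2222))))))))))))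
noncomputable def l9048 : Lb := (@Lb.d (nat_lit 410) (nat_lit 26) (nat_lit 32) (@Lb.r r101 (@Lb.r r402 (@Lb.g g11 (@Lb.g g6 (@Lb.d (nat_lit 0) (nat_lit 0) (nat_lit 128) (@Lb.fp (nat_lit 3) t784)))))))
noncomputable def l9049 : Lb := (@Lb.r r82 (@Lb.d (nat_lit 2) (nat_lit 10) (nat_lit 128) (@Lb.g g8 (@Lb.g g9 (@Lb.g g11 (@Lb.r r1430 (@Lb.r r1635 (@Lb.r r1553 (@Lb.d (nat_lit 514) (nat_lit 24) (nat_lit 322) (@Lb.t (@Lb.fm (nat_lit 9) t1826)))))))))))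
noncomputable def l9050 : Lb := (@Lb.r r82 (@Lb.r r275 (@Lb.d (nat_lit 2) (nat_lit 393) (nat_lit 0) (@Lb.g g8 (@Lb.g g5 (@Lb.r r291 (@Lb.r r98 (@Lb.r r1096 (@Lb.d (nat_lit 546) (nat_lit 74) (nat_lit 1) (@Lb.fm (nat_lit 3) t2223))))))))))
noncomputable def l9051 : Lb := (@Lb.d (nat_lit 26) (nat_lit 8) (nat_lit 130) (@Lb.g g8 (@Lb.g g9 (@Lb.g g10 (@Lb.g g11 (@Lb.r r427 (@Lb.r r324 (@Lb.r r170 (@Lb.r r169 (@Lb.r r164 (@Lb.d (nat_lit 96) (nat_lit 9) (nat_lit 18) (@Lb.fp (nat_lit 9) t573))))))))))))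
noncomputable def l9052 : Lb := (@Lb.d (nat_lit 128) (nat_lit 265) (nat_lit 33) (@Lb.g g8 (@Lb.g g9 (@Lb.g g6 (@Lb.r r263 (@Lb.r r97 (@Lb.r r548 (@Lb.d (nat_lit 138) (nat_lit 90) (nat_lit 128) (@Lb.t (@Lb.fm (nat_lit 9) t812))))))))))
noncomputable def l9053 : Lb := (@Lb.d (nat_lit 146) (nat_lit 521) (nat_lit 73) (@Lb.g g8 (@Lb.g g9 (@Lb.g g10 (@Lb.g g11 (@Lb.r r84 (@Lb.r r682 (@Lb.r r1411 (@Lb.r r1177 (@Lb.r r1156 (@Lb.d (nat_lit 266) (nat_lit 153) (nat_lit 517) (@Lb.fm (nat_lit 9) t2224))))))))))))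
noncomputable def l9054 : Lb := (@Lb.d (nat_lit 321) (nat_lit 266) (nat_lit 297) (@Lb.r r154 (@Lb.r r660 (@Lb.r r407 (@Lb.r r2665 (@Lb.g g4 (@Lb.d (nat_lit 1) (nat_lit 0) (nat_lit 0) (@Lb.t (@Lb.fm (nat_lit 3) t2225)))))))))
noncomputable def l9055 : Lb := (@Lb.d (nat_lit 0) (nat_lit 512) (nat_lit 128) (@Lb.g g8 (@Lb.g g11 (@Lb.r r529 (@Lb.r r1431 (@Lb.r r1414 (@Lb.r r2600 (@Lb.r r153 (@Lb.d (nat_lit 8) (nat_lit 25) (nat_lit 297) (@Lb.fm (nat_lit 3) t591))))))))))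
noncomputable def l9056 : Lb := (@Lb.d (nat_lit 514) (nat_lit 517) (nat_lit 82) (@Lb.r r154 (@Lb.r r660 (@Lb.r r663 (@Lb.r r353 (@Lb.g g7 (@Lb.g g6 (@Lb.g g4 (@Lb.d (nat_lit 6) (nat_lit 4) (nat_lit 129) (@Lb.t (@Lb.fm (nat_lit 9) t591)))))))))))
noncomputable def l9057 : Lb := (@Lb.d (nat_lit 0) (nat_lit 258) (nat_lit 2) (@Lb.g g8 (@Lb.g g9 (@Lb.g g10 (@Lb.g g11 (@Lb.r r427 (@Lb.r r106 (@Lb.r r25 (@Lb.d (nat_lit 9) (nat_lit 9) (nat_lit 2) (@Lb.fp (nat_lit 9) t51))))))))))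
noncomputable def l9058 : Lb := (@Lb.d (nat_lit 516) (nat_lit 262) (nat_lit 82) (@Lb.r r154 (@Lb.r r660 (@Lb.r r663 (@Lb.r r353 (@Lb.g g7 (@Lb.g g6 (@Lb.g g4 (@Lb.d (nat_lit 6) (nat_lit 4) (nat_lit 129) (@Lb.t (@Lb.fm (nat_lit 9) t591)))))))))))
noncomputable def l9059 : Lb := (@Lb.r r21 (@Lb.d (nat_lit 18) (nat_lit 512) (nat_lit 74) (@Lb.g g4 (@Lb.g g10 (@Lb.g g11 (@Lb.r r1687 (@Lb.r r2401 (@Lb.r r1170 (@Lb.d (nat_lit 262) (nat_lit 72) (nat_lit 1) (@Lb.t (@Lb.fm (nat_lit 9) t1028)))))))))))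
noncomputable def l9060 : Lb := (@Lb.r r20 (@Lb.r r275 (@Lb.d (nat_lit 8) (nat_lit 292) (nat_lit 0) (@Lb.g g5 (@Lb.g g10 (@Lb.r r1174 (@Lb.r r2376 (@Lb.r r1543 (@Lb.d (nat_lit 585) (nat_lit 0) (nat_lit 69) (@Lb.fm (nat_lit 3) t74))))))))))
noncomputable def l9061 : Lb := (@Lb.r r21 (@Lb.d (nat_lit 18) (nat_lit 0) (nat_lit 128) (@Lb.g g4 (@Lb.g g10 (@Lb.g g11 (@Lb.r r1687 (@Lb.r r2401 (@Lb.r r1170 (@Lb.d (nat_lit 264) (nat_lit 73) (nat_lit 1) (@Lb.t (@Lb.fm (nat_lit 9) t1028)))))))))))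
noncomputable def l9062 : Lb := (@Lb.r r323 (@Lb.d (nat_lit 0) (nat_lit 258) (nat_lit 0) (@Lb.g g8 (@Lb.g g9 (@Lb.g g10 (@Lb.r r427 (@Lb.r r106 (@Lb.r r25 (@Lb.d (nat_lit 9) (nat_lit 9) (nat_lit 2) (@Lb.t (@Lb.fm (nat_lit 9) t51)))))))))))
noncomputable def l9063 : Lb := (@Lb.d (nat_lit 5) (nat_lit 614) (nat_lit 358) (@Lb.r r2450 (@Lb.r r1633 (@Lb.r r1387 (@Lb.r r2372 (@Lb.g g6 (@Lb.g g5 (@Lb.g g4 (@Lb.d (nat_lit 33) (nat_lit 0) (nat_lit 0) (@Lb.t (@Lb.fp (nat_lit 9) t1096)))))))))))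
noncomputable def l9064 : Lb := (@Lb.r r21 (@Lb.d (nat_lit 5) (nat_lit 256) (nat_lit 130) (@Lb.g g4 (@Lb.g g10 (@Lb.g g11 (@Lb.r r1443 (@Lb.r r386 (@Lb.r r1125 (@Lb.d (nat_lit 405) (nat_lit 154) (nat_lit 84) (@Lb.t (@Lb.fp (nat_lit 9) t714)))))))))))
noncomputable def l9065 : Lb := (@Lb.r r21 (@Lb.d (nat_lit 658) (nat_lit 520) (nat_lit 128) (@Lb.g g4 (@Lb.g g10 (@Lb.g g11 (@Lb.r r345 (@Lb.r r679 (@Lb.r r2694 (@Lb.d (nat_lit 129) (nat_lit 72) (nat_lit 282) (@Lb.t (@Lb.fp (nat_lit 9) t2165)))))))))))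
noncomputable def l9066 : Lb := (@Lb.d (nat_lit 2) (nat_lit 2) (nat_lit 73) (@Lb.g g8 (@Lb.g g9 (@Lb.g g10 (@Lb.g g11 (@Lb.r r2691 (@Lb.r r153 (@Lb.r r602 (@Lb.r r2193 (@Lb.d (nat_lit 678) (nat_lit 161) (nat_lit 105) (@Lb.fm (nat_lit 9) t466)))))))))))
noncomputable def l9067 : Lb := (@Lb.r r323 (@Lb.d (nat_lit 128) (nat_lit 514) (nat_lit 2) (@Lb.g g8 (@Lb.g g9 (@Lb.g g10 (@Lb.r r263 (@Lb.r r98 (@Lb.r r97 (@Lb.r r536 (@Lb.d (nat_lit 69) (nat_lit 34) (nat_lit 68) (@Lb.t (@Lb.fm (nat_lit 9) t71))))))))))))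
noncomputable def l9068 : Lb := (@Lb.d (nat_lit 5) (nat_lit 577) (nat_lit 32) (@Lb.r r1045 (@Lb.r r100 (@Lb.r r323 (@Lb.g g10 (@Lb.g g5 (@Lb.d (nat_lit 4) (nat_lit 5) (nat_lit 16) (@Lb.r r387 (@Lb.r r132 (@Lb.fp (nat_lit 3) t213))))))))))
noncomputable def l9069 : Lb := (@Lb.d (nat_lit 5) (nat_lit 518) (nat_lit 1) (@Lb.r r24 (@Lb.r r97 (@Lb.r r323 (@Lb.g g10 (@Lb.g g5 (@Lb.d (nat_lit 0) (nat_lit 1) (nat_lit 2) (@Lb.r r387 (@Lb.fp (nat_lit 3) t51)))))))))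
noncomputable def l9070 : Lb := (@Lb.r r1045 (@Lb.d (nat_lit 129) (nat_lit 0) (nat_lit 130) (@Lb.g g8 (@Lb.g g10 (@Lb.g g11 (@Lb.r r2379 (@Lb.r r386 (@Lb.r r1668 (@Lb.d (nat_lit 640) (nat_lit 0) (nat_lit 602) (@Lb.t (@Lb.fp (nat_lit 9) t2226)))))))))))
noncomputable def l9071 : Lb := (@Lb.d (nat_lit 86) (nat_lit 278) (nat_lit 37) (@Lb.r r345 (@Lb.r r2475 (@Lb.r r1430 (@Lb.g g7 (@Lb.g g5 (@Lb.g g4 (@Lb.d (nat_lit 585) (nat_lit 5) (nat_lit 128) (@Lb.r r74 (@Lb.t (@Lb.fm (nat_lit 9) t531)))))))))))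
noncomputable def l9072 : Lb := (@Lb.d (nat_lit 2) (nat_lit 0) (nat_lit 0) (@Lb.g g8 (@Lb.r r1049 (@Lb.r r24 (@Lb.d (nat_lit 260) (nat_lit 130) (nat_lit 0) (@Lb.t (@Lb.fm (nat_lit 3) t2)))))))
noncomputable def l9073 : Lb := (@Lb.r r323 (@Lb.d (nat_lit 128) (nat_lit 2) (nat_lit 2) (@Lb.g g8 (@Lb.g g9 (@Lb.g g10 (@Lb.r r263 (@Lb.r r98 (@Lb.r r97 (@Lb.r r536 (@Lb.d (nat_lit 69) (nat_lit 41) (nat_lit 70) (@Lb.t (@Lb.fm (nat_lit 9) t71))))))))))))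
noncomputable def l9074 : Lb := (@Lb.r r82 (@Lb.d (nat_lit 4) (nat_lit 546) (nat_lit 64) (@Lb.g g8 (@Lb.g g9 (@Lb.g g11 (@Lb.r r1571 (@Lb.r r2152 (@Lb.r r2438 (@Lb.r r145 (@Lb.d (nat_lit 1) (nat_lit 82) (nat_lit 152) (@Lb.t (@Lb.fp (nat_lit 9) t2227))))))))))))
noncomputable def l9075 : Lb := (@Lb.r r327 (@Lb.d (nat_lit 2) (nat_lit 2) (nat_lit 0) (@Lb.g g8 (@Lb.g g9 (@Lb.g g10 (@Lb.r r683 (@Lb.r r1194 (@Lb.r r2201 (@Lb.r r2180 (@Lb.d (nat_lit 548) (nat_lit 64) (nat_lit 34) (@Lb.t (@Lb.fm (nat_lit 9) t2228))))))))))))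
noncomputable def l9076 : Lb := (@Lb.d (nat_lit 272) (nat_lit 2) (nat_lit 138) (@Lb.g g8 (@Lb.g g9 (@Lb.g g10 (@Lb.g g11 (@Lb.r r2731 (@Lb.r r1642 (@Lb.r r25 (@Lb.d (nat_lit 4) (nat_lit 89) (nat_lit 9) (@Lb.fm (nat_lit 9) t979))))))))))
noncomputable def l9077 : Lb := (@Lb.r r21 (@Lb.d (nat_lit 280) (nat_lit 512) (nat_lit 138) (@Lb.g g8 (@Lb.g g10 (@Lb.g g11 (@Lb.r r2715 (@Lb.r r1626 (@Lb.r r37 (@Lb.d (nat_lit 4) (nat_lit 89) (nat_lit 9) (@Lb.t (@Lb.fm (nat_lit 9) t979)))))))))))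
noncomputable def l9078 : Lb := (@Lb.r r20 (@Lb.d (nat_lit 0) (nat_lit 294) (nat_lit 128) (@Lb.g g9 (@Lb.g g10 (@Lb.g g11 (@Lb.r r675 (@Lb.r r1634 (@Lb.r r1553 (@Lb.d (nat_lit 0) (nat_lit 98) (nat_lit 274) (@Lb.t (@Lb.fp (nat_lit 9) t1849)))))))))))
noncomputable def l9079 : Lb := (@Lb.d (nat_lit 136) (nat_lit 512) (nat_lit 128) (@Lb.g g9 (@Lb.g g11 (@Lb.r r152 (@Lb.r r1429 (@Lb.r r2723 (@Lb.r r2178 (@Lb.d (nat_lit 128) (nat_lit 152) (nat_lit 390) (@Lb.fp (nat_lit 3) t1561)))))))))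
noncomputable def l9080 : Lb := (@Lb.r r21 (@Lb.r r70 (@Lb.d (nat_lit 129) (nat_lit 0) (nat_lit 136) (@Lb.g g8 (@Lb.g g11 (@Lb.r r402 (@Lb.r r97 (@Lb.r r36 (@Lb.d (nat_lit 6) (nat_lit 1) (nat_lit 128) (@Lb.fm (nat_lit 3) t30))))))))))
noncomputable def l9081 : Lb := (@Lb.r r263 (@Lb.d (nat_lit 2) (nat_lit 514) (nat_lit 2) (@Lb.g g8 (@Lb.g g9 (@Lb.g g10 (@Lb.r r676 (@Lb.r r519 (@Lb.r r386 (@Lb.r r97 (@Lb.d (nat_lit 2) (nat_lit 168) (nat_lit 329) (@Lb.t (@Lb.fp (nat_lit 9) t2229))))))))))))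
noncomputable def l9082 : Lb := (@Lb.d (nat_lit 105) (nat_lit 25) (nat_lit 74) (@Lb.g g8 (@Lb.g g9 (@Lb.g g10 (@Lb.g g11 (@Lb.r r387 (@Lb.r r418 (@Lb.r r149 (@Lb.r r408 (@Lb.d (nat_lit 129) (nat_lit 20) (nat_lit 4) (@Lb.fp (nat_lit 9) t30)))))))))))
noncomputable def l9083 : Lb := (@Lb.d (nat_lit 26) (nat_lit 294) (nat_lit 68) (@Lb.r r613 (@Lb.r r338 (@Lb.r r679 (@Lb.g g7 (@Lb.g g6 (@Lb.g g5 (@Lb.g g8 (@Lb.d (nat_lit 10) (nat_lit 24) (nat_lit 128) (@Lb.fm (nat_lit 9) t30))))))))))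
noncomputable def l9084 : Lb := (@Lb.d (nat_lit 0) (nat_lit 258) (nat_lit 130) (@Lb.g g9 (@Lb.g g10 (@Lb.g g11 (@Lb.r r1443 (@Lb.r r1686 (@Lb.r r1313 (@Lb.r r1128 (@Lb.d (nat_lit 581) (nat_lit 134) (nat_lit 1) (@Lb.t (@Lb.fp (nat_lit 9) t1179)))))))))))
noncomputable def l9085 : Lb := (@Lb.d (nat_lit 166) (nat_lit 521) (nat_lit 576) (@Lb.r r24 (@Lb.r r338 (@Lb.r r165 (@Lb.r r2723 (@Lb.g g7 (@Lb.g g6 (@Lb.g g5 (@Lb.d (nat_lit 0) (nat_lit 5) (nat_lit 10) (@Lb.t (@Lb.fm (nat_lit 9) t823)))))))))))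
noncomputable def l9086 : Lb := (@Lb.d (nat_lit 6) (nat_lit 548) (nat_lit 5) (@Lb.g g4 (@Lb.g g9 (@Lb.g g10 (@Lb.g g11 (@Lb.r r387 (@Lb.r r1446 (@Lb.r r1557 (@Lb.d (nat_lit 389) (nat_lit 69) (nat_lit 645) (@Lb.fp (nat_lit 9) t374))))))))))
noncomputable def l9087 : Lb := (@Lb.d (nat_lit 22) (nat_lit 10) (nat_lit 33) (@Lb.r r24 (@Lb.r r386 (@Lb.r r2651 (@Lb.g g7 (@Lb.g g9 (@Lb.d (nat_lit 0) (nat_lit 34) (nat_lit 64) (@Lb.r r98 (@Lb.fm (nat_lit 3) t2230)))))))))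
noncomputable def l9088 : Lb := (@Lb.d (nat_lit 5) (nat_lit 2) (nat_lit 130) (@Lb.g g8 (@Lb.g g9 (@Lb.g g10 (@Lb.g g11 (@Lb.r r1451 (@Lb.r r425 (@Lb.r r98 (@Lb.r r2468 (@Lb.d (nat_lit 357) (nat_lit 74) (nat_lit 513) (@Lb.fm (nat_lit 9) t2231)))))))))))
noncomputable def l9089 : Lb := (@Lb.r r21 (@Lb.d (nat_lit 128) (nat_lit 512) (nat_lit 130) (@Lb.g g8 (@Lb.g g10 (@Lb.g g11 (@Lb.r r651 (@Lb.r r2378 (@Lb.r r1553 (@Lb.r r2372 (@Lb.d (nat_lit 16) (nat_lit 5) (nat_lit 393) (@Lb.t (@Lb.fp (nat_lit 9) t2232))))))))))))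
noncomputable def l9090 : Lb := (@Lb.r r21 (@Lb.d (nat_lit 644) (nat_lit 512) (nat_lit 130) (@Lb.g g4 (@Lb.g g10 (@Lb.g g11 (@Lb.r r677 (@Lb.r r1443 (@Lb.r r98 (@Lb.d (nat_lit 1) (nat_lit 8) (nat_lit 105) (@Lb.t (@Lb.fm (nat_lit 9) t211)))))))))))
noncomputable def l9091 : Lb := (@Lb.r r275 (@Lb.d (nat_lit 2) (nat_lit 512) (nat_lit 2) (@Lb.g g8 (@Lb.g g9 (@Lb.g g10 (@Lb.r r2585 (@Lb.r r2651 (@Lb.r r386 (@Lb.r r24 (@Lb.d (nat_lit 256) (nat_lit 0) (nat_lit 665) (@Lb.t (@Lb.fp (nat_lit 9) t2233))))))))))))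
noncomputable def l9092 : Lb := (@Lb.d (nat_lit 150) (nat_lit 522) (nat_lit 130) (@Lb.g g8 (@Lb.g g9 (@Lb.g g10 (@Lb.g g11 (@Lb.r r683 (@Lb.r r2410 (@Lb.r r1553 (@Lb.r r104 (@Lb.d (nat_lit 34) (nat_lit 9) (nat_lit 532) (@Lb.fp (nat_lit 9) t2234)))))))))))
noncomputable def l9093 : Lb := (@Lb.d (nat_lit 0) (nat_lit 545) (nat_lit 66) (@Lb.g g9 (@Lb.g g10 (@Lb.g g11 (@Lb.r r2705 (@Lb.r r1690 (@Lb.r r1668 (@Lb.r r1415 (@Lb.d (nat_lit 152) (nat_lit 130) (nat_lit 68) (@Lb.t (@Lb.fp (nat_lit 9) t2235)))))))))))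
noncomputable def l9094 : Lb := (@Lb.d (nat_lit 2) (nat_lit 258) (nat_lit 130) (@Lb.g g8 (@Lb.g g9 (@Lb.g g10 (@Lb.g g11 (@Lb.r r1443 (@Lb.r r405 (@Lb.r r86 (@Lb.r r145 (@Lb.r r36 (@Lb.d (nat_lit 289) (nat_lit 10) (nat_lit 385) (@Lb.fp (nat_lit 9) t2236))))))))))))
noncomputable def l9095 : Lb := (@Lb.d (nat_lit 1) (nat_lit 2) (nat_lit 130) (@Lb.g g8 (@Lb.g g9 (@Lb.g g10 (@Lb.g g11 (@Lb.r r1443 (@Lb.r r297 (@Lb.r r104 (@Lb.r r70 (@Lb.r r132 (@Lb.d (nat_lit 272) (nat_lit 5) (nat_lit 386) (@Lb.fp (nat_lit 9) t88))))))))))))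
noncomputable def l9096 : Lb := (@Lb.d (nat_lit 34) (nat_lit 2) (nat_lit 0) (@Lb.g g8 (@Lb.g g9 (@Lb.g g11 (@Lb.r r1414 (@Lb.r r331 (@Lb.r r1368 (@Lb.r r37 (@Lb.d (nat_lit 42) (nat_lit 161) (nat_lit 388) (@Lb.t (@Lb.fp (nat_lit 9) t2237)))))))))))
noncomputable def l9097 : Lb := (@Lb.d (nat_lit 2) (nat_lit 10) (nat_lit 8) (@Lb.g g8 (@Lb.g g9 (@Lb.g g11 (@Lb.r r1414 (@Lb.r r2644 (@Lb.r r1321 (@Lb.r r275 (@Lb.d (nat_lit 656) (nat_lit 154) (nat_lit 352) (@Lb.t (@Lb.fm (nat_lit 9) t2076)))))))))))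
noncomputable def l9098 : Lb := (@Lb.d (nat_lit 2) (nat_lit 34) (nat_lit 528) (@Lb.r r354 (@Lb.r r1427 (@Lb.g g10 (@Lb.g g5 (@Lb.g g8 (@Lb.t (@Lb.fp (nat_lit 9) t1466))))))))
noncomputable def l9099 : Lb := (@Lb.d (nat_lit 0) (nat_lit 512) (nat_lit 136) (@Lb.g g11 (@Lb.r r405 (@Lb.r r2454 (@Lb.r r2411 (@Lb.r r1096 (@Lb.d (nat_lit 361) (nat_lit 2) (nat_lit 546) (@Lb.t (@Lb.fp (nat_lit 3) t2238)))))))))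
noncomputable def l9100 : Lb := (@Lb.r r323 (@Lb.d (nat_lit 0) (nat_lit 322) (nat_lit 0) (@Lb.g g4 (@Lb.g g9 (@Lb.g g10 (@Lb.r r419 (@Lb.r r98 (@Lb.d (nat_lit 1) (nat_lit 9) (nat_lit 2) (@Lb.t (@Lb.fp (nat_lit 9) t51))))))))))
noncomputable def l9101 : Lb := (@Lb.d (nat_lit 33) (nat_lit 6) (nat_lit 130) (@Lb.g g8 (@Lb.g g9 (@Lb.g g10 (@Lb.g g11 (@Lb.r r2443 (@Lb.r r660 (@Lb.r r617 (@Lb.r r1110 (@Lb.r r1188 (@Lb.d (nat_lit 521) (nat_lit 97) (nat_lit 601) (@Lb.fm (nat_lit 9) t375))))))))))))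
noncomputable def l9102 : Lb := (@Lb.d (nat_lit 129) (nat_lit 1) (nat_lit 73) (@Lb.g g8 (@Lb.g g9 (@Lb.g g10 (@Lb.g g11 (@Lb.r r2571 (@Lb.r r405 (@Lb.r r406 (@Lb.r r2084 (@Lb.d (nat_lit 290) (nat_lit 160) (nat_lit 345) (@Lb.fp (nat_lit 9) t2239)))))))))))
noncomputable def l9103 : Lb := (@Lb.d (nat_lit 2) (nat_lit 258) (nat_lit 130) (@Lb.g g8 (@Lb.g g9 (@Lb.g g10 (@Lb.g g11 (@Lb.r r169 (@Lb.r r520 (@Lb.r r603 (@Lb.r r386 (@Lb.r r132 (@Lb.d (nat_lit 10) (nat_lit 73) (nat_lit 89) (@Lb.fp (nat_lit 9) t988))))))))))))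
noncomputable def l9104 : Lb := (@Lb.d (nat_lit 129) (nat_lit 530) (nat_lit 137) (@Lb.g g8 (@Lb.g g9 (@Lb.g g10 (@Lb.g g11 (@Lb.r r610 (@Lb.r r2627 (@Lb.r r420 (@Lb.r r1317 (@Lb.d (nat_lit 324) (nat_lit 132) (nat_lit 408) (@Lb.fp (nat_lit 9) t163)))))))))))
noncomputable def l9105 : Lb := (@Lb.d (nat_lit 0) (nat_lit 66) (nat_lit 130) (@Lb.g g4 (@Lb.g g9 (@Lb.g g10 (@Lb.g g11 (@Lb.r r419 (@Lb.r r98 (@Lb.d (nat_lit 1) (nat_lit 9) (nat_lit 137) (@Lb.fm (nat_lit 9) t51)))))))))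
noncomputable def l9106 : Lb := (@Lb.d (nat_lit 2) (nat_lit 32) (nat_lit 162) (@Lb.g g8 (@Lb.g g6 (@Lb.g g11 (@Lb.r r600 (@Lb.r r293 (@Lb.r r2587 (@Lb.d (nat_lit 330) (nat_lit 41) (nat_lit 400) (@Lb.t (@Lb.fm (nat_lit 9) t1282))))))))))
noncomputable def l9107 : Lb := (@Lb.d (nat_lit 33) (nat_lit 514) (nat_lit 136) (@Lb.g g8 (@Lb.g g9 (@Lb.g g11 (@Lb.r r146 (@Lb.r r273 (@Lb.r r615 (@Lb.r r388 (@Lb.d (nat_lit 73) (nat_lit 9) (nat_lit 146) (@Lb.t (@Lb.fm (nat_lit 9) t564)))))))))))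
noncomputable def l9108 : Lb := (@Lb.r r323 (@Lb.d (nat_lit 33) (nat_lit 258) (nat_lit 2) (@Lb.g g8 (@Lb.g g9 (@Lb.g g10 (@Lb.r r2666 (@Lb.r r2635 (@Lb.r r2580 (@Lb.r r25 (@Lb.d (nat_lit 384) (nat_lit 130) (nat_lit 256) (@Lb.t (@Lb.fp (nat_lit 9) t1792))))))))))))
noncomputable def l9109 : Lb := (@Lb.d (nat_lit 34) (nat_lit 258) (nat_lit 128) (@Lb.g g8 (@Lb.g g9 (@Lb.g g11 (@Lb.r r406 (@Lb.r r2635 (@Lb.r r97 (@Lb.r r2632 (@Lb.d (nat_lit 609) (nat_lit 64) (nat_lit 258) (@Lb.t (@Lb.fm (nat_lit 9) t2240)))))))))))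
noncomputable def l9110 : Lb := (@Lb.r r263 (@Lb.d (nat_lit 544) (nat_lit 520) (nat_lit 2) (@Lb.g g4 (@Lb.g g10 (@Lb.r r1427 (@Lb.r r97 (@Lb.r r1106 (@Lb.d (nat_lit 1) (nat_lit 70) (nat_lit 18) (@Lb.fm (nat_lit 3) t2241)))))))))
noncomputable def l9111 : Lb := (@Lb.d (nat_lit 0) (nat_lit 512) (nat_lit 128) (@Lb.g g4 (@Lb.g g10 (@Lb.g g11 (@Lb.r r387 (@Lb.d (nat_lit 1) (nat_lit 0) (nat_lit 137) (@Lb.t (@Lb.fp (nat_lit 9) t2))))))))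
noncomputable def l9112 : Lb := (@Lb.r r70 (@Lb.r r263 (@Lb.d (nat_lit 544) (nat_lit 514) (nat_lit 0) (@Lb.g g8 (@Lb.g g9 (@Lb.r r406 (@Lb.r r587 (@Lb.r r25 (@Lb.d (nat_lit 384) (nat_lit 16) (nat_lit 64) (@Lb.fm (nat_lit 3) t394))))))))))
noncomputable def l9113 : Lb := (@Lb.d (nat_lit 32) (nat_lit 6) (nat_lit 128) (@Lb.g g9 (@Lb.g g10 (@Lb.g g11 (@Lb.r r1699 (@Lb.r r40 (@Lb.r r1689 (@Lb.r r2650 (@Lb.d (nat_lit 340) (nat_lit 165) (nat_lit 657) (@Lb.t (@Lb.fm (nat_lit 9) t1189)))))))))))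
noncomputable def l9114 : Lb := (@Lb.d (nat_lit 32) (nat_lit 518) (nat_lit 74) (@Lb.g g9 (@Lb.g g10 (@Lb.g g11 (@Lb.r r1699 (@Lb.r r40 (@Lb.r r1689 (@Lb.r r2650 (@Lb.d (nat_lit 338) (nat_lit 164) (nat_lit 657) (@Lb.t (@Lb.fm (nat_lit 9) t1189)))))))))))
noncomputable def l9115 : Lb := (@Lb.d (nat_lit 129) (nat_lit 258) (nat_lit 4) (@Lb.g g8 (@Lb.g g9 (@Lb.g g10 (@Lb.g g11 (@Lb.r r2649 (@Lb.r r2648 (@Lb.r r395 (@Lb.r r146 (@Lb.d (nat_lit 129) (nat_lit 41) (nat_lit 553) (@Lb.fp (nat_lit 9) t823)))))))))))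
noncomputable def l9116 : Lb := (@Lb.d (nat_lit 33) (nat_lit 258) (nat_lit 136) (@Lb.g g8 (@Lb.g g9 (@Lb.g g11 (@Lb.r r146 (@Lb.r r273 (@Lb.r r615 (@Lb.r r388 (@Lb.d (nat_lit 73) (nat_lit 9) (nat_lit 18) (@Lb.t (@Lb.fm (nat_lit 9) t564)))))))))))
noncomputable def l9117 : Lb := (@Lb.d (nat_lit 1) (nat_lit 514) (nat_lit 128) (@Lb.g g8 (@Lb.g g9 (@Lb.g g11 (@Lb.r r337 (@Lb.r r1451 (@Lb.r r1418 (@Lb.r r1288 (@Lb.d (nat_lit 386) (nat_lit 5) (nat_lit 422) (@Lb.t (@Lb.fm (nat_lit 9) t312)))))))))))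
noncomputable def l9118 : Lb := (@Lb.r r273 (@Lb.d (nat_lit 0) (nat_lit 0) (nat_lit 644) (@Lb.g g10 (@Lb.g g7 (@Lb.r r386 (@Lb.r r1169 (@Lb.d (nat_lit 0) (nat_lit 0) (nat_lit 25) (@Lb.fm (nat_lit 3) t144))))))))
noncomputable def l9119 : Lb := (@Lb.d (nat_lit 33) (nat_lit 2) (nat_lit 129) (@Lb.g g8 (@Lb.g g9 (@Lb.g g6 (@Lb.g g11 (@Lb.r r580 (@Lb.r r2311 (@Lb.r r97 (@Lb.r r1540 (@Lb.d (nat_lit 1) (nat_lit 72) (nat_lit 665) (@Lb.fp (nat_lit 9) t2242)))))))))))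
noncomputable def l9120 : Lb := (@Lb.d (nat_lit 160) (nat_lit 512) (nat_lit 128) (@Lb.g g10 (@Lb.g g11 (@Lb.r r264 (@Lb.r r279 (@Lb.r r593 (@Lb.r r418 (@Lb.d (nat_lit 97) (nat_lit 66) (nat_lit 420) (@Lb.fm (nat_lit 3) t654)))))))))
noncomputable def l9121 : Lb := (@Lb.d (nat_lit 26) (nat_lit 422) (nat_lit 82) (@Lb.r r2153 (@Lb.r r2404 (@Lb.r r1435 (@Lb.r r1426 (@Lb.g g7 (@Lb.g g5 (@Lb.g g4 (@Lb.d (nat_lit 16) (nat_lit 5) (nat_lit 64) (@Lb.t (@Lb.fp (nat_lit 9) t2243)))))))))))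
noncomputable def l9122 : Lb := (@Lb.d (nat_lit 168) (nat_lit 17) (nat_lit 537) (@Lb.r r296 (@Lb.r r2153 (@Lb.r r2659 (@Lb.g g10 (@Lb.g g5 (@Lb.g g4 (@Lb.d (nat_lit 101) (nat_lit 2) (nat_lit 1) (@Lb.t (@Lb.fp (nat_lit 9) t2244))))))))))
noncomputable def l9123 : Lb := (@Lb.d (nat_lit 2) (nat_lit 512) (nat_lit 128) (@Lb.g g8 (@Lb.g g9 (@Lb.g g10 (@Lb.g g11 (@Lb.r r337 (@Lb.r r674 (@Lb.r r2471 (@Lb.r r1620 (@Lb.r r153 (@Lb.d (nat_lit 1) (nat_lit 161) (nat_lit 640) (@Lb.fm (nat_lit 9) t2243))))))))))))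
noncomputable def l9124 : Lb := (@Lb.d (nat_lit 0) (nat_lit 6) (nat_lit 138) (@Lb.g g9 (@Lb.g g10 (@Lb.g g11 (@Lb.r r1697 (@Lb.r r2658 (@Lb.r r579 (@Lb.d (nat_lit 0) (nat_lit 166) (nat_lit 618) (@Lb.t (@Lb.fm (nat_lit 9) t144))))))))))
noncomputable def l9125 : Lb := (@Lb.d (nat_lit 0) (nat_lit 260) (nat_lit 64) (@Lb.g g9 (@Lb.g g10 (@Lb.g g7 (@Lb.r r386 (@Lb.r r97 (@Lb.d (nat_lit 5) (nat_lit 0) (nat_lit 138) (@Lb.t (@Lb.fp (nat_lit 9) t1037)))))))))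
noncomputable def l9126 : Lb := (@Lb.d (nat_lit 274) (nat_lit 5) (nat_lit 66) (@Lb.r r1686 (@Lb.r r2664 (@Lb.r r2649 (@Lb.r r1699 (@Lb.g g7 (@Lb.g g6 (@Lb.g g5 (@Lb.d (nat_lit 0) (nat_lit 1) (nat_lit 8) (@Lb.t (@Lb.fm (nat_lit 9) t2245)))))))))))
noncomputable def l9127 : Lb := (@Lb.d (nat_lit 0) (nat_lit 385) (nat_lit 596) (@Lb.r r275 (@Lb.r r601 (@Lb.r r24 (@Lb.g g7 (@Lb.g g10 (@Lb.d (nat_lit 80) (nat_lit 0) (nat_lit 26) (@Lb.fm (nat_lit 3) t200))))))))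
noncomputable def l9128 : Lb := (@Lb.r r82 (@Lb.d (nat_lit 0) (nat_lit 256) (nat_lit 580) (@Lb.g g9 (@Lb.g g7 (@Lb.r r422 (@Lb.r r596 (@Lb.r r297 (@Lb.d (nat_lit 261) (nat_lit 160) (nat_lit 0) (@Lb.fp (nat_lit 3) t211)))))))))
noncomputable def l9129 : Lb := (@Lb.r r82 (@Lb.d (nat_lit 134) (nat_lit 17) (nat_lit 0) (@Lb.g g8 (@Lb.g g9 (@Lb.g g11 (@Lb.r r555 (@Lb.r r1604 (@Lb.r r1098 (@Lb.r r1109 (@Lb.d (nat_lit 533) (nat_lit 133) (nat_lit 410) (@Lb.t (@Lb.fp (nat_lit 9) t856))))))))))))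
noncomputable def l9130 : Lb := (@Lb.d (nat_lit 8) (nat_lit 514) (nat_lit 0) (@Lb.g g9 (@Lb.r r579 (@Lb.r r2438 (@Lb.r r24 (@Lb.r r101 (@Lb.d (nat_lit 530) (nat_lit 10) (nat_lit 68) (@Lb.t (@Lb.fp (nat_lit 3) t2246)))))))))
noncomputable def l9131 : Lb := (@Lb.d (nat_lit 146) (nat_lit 516) (nat_lit 6) (@Lb.g g8 (@Lb.g g9 (@Lb.g g10 (@Lb.g g11 (@Lb.r r683 (@Lb.r r1689 (@Lb.r r342 (@Lb.r r1540 (@Lb.d (nat_lit 666) (nat_lit 134) (nat_lit 658) (@Lb.fm (nat_lit 9) t1967)))))))))))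
noncomputable def l9132 : Lb := (@Lb.d (nat_lit 548) (nat_lit 34) (nat_lit 344) (@Lb.r r661 (@Lb.r r426 (@Lb.r r164 (@Lb.r r683 (@Lb.g g6 (@Lb.g g5 (@Lb.d (nat_lit 4) (nat_lit 0) (nat_lit 1) (@Lb.r r291 (@Lb.fm (nat_lit 3) t2247))))))))))
noncomputable def l9133 : Lb := (@Lb.r r21 (@Lb.r r263 (@Lb.d (nat_lit 288) (nat_lit 264) (nat_lit 2) (@Lb.g g4 (@Lb.g g10 (@Lb.r r1427 (@Lb.r r97 (@Lb.d (nat_lit 1) (nat_lit 64) (nat_lit 2) (@Lb.fm (nat_lit 3) t2248)))))))))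
noncomputable def l9134 : Lb := (@Lb.r r322 (@Lb.d (nat_lit 36) (nat_lit 546) (nat_lit 580) (@Lb.g g8 (@Lb.g g9 (@Lb.g g7 (@Lb.r r418 (@Lb.r r297 (@Lb.r r1384 (@Lb.d (nat_lit 405) (nat_lit 170) (nat_lit 293) (@Lb.t (@Lb.fm (nat_lit 9) t1159)))))))))))
noncomputable def l9135 : Lb := (@Lb.d (nat_lit 4) (nat_lit 512) (nat_lit 130) (@Lb.g g8 (@Lb.g g9 (@Lb.g g10 (@Lb.g g11 (@Lb.r r2691 (@Lb.r r297 (@Lb.r r360 (@Lb.r r582 (@Lb.r r2180 (@Lb.d (nat_lit 641) (nat_lit 73) (nat_lit 329) (@Lb.fm (nat_lit 9) t758))))))))))))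
noncomputable def l9136 : Lb := (@Lb.r r21 (@Lb.r r70 (@Lb.r r263 (@Lb.g g8 (@Lb.r r267 (@Lb.r r74 (@Lb.r r25 (@Lb.d (nat_lit 2) (nat_lit 390) (nat_lit 32) (@Lb.t (@Lb.fp (nat_lit 3) t2249))))))))))
noncomputable def l9137 : Lb := (@Lb.d (nat_lit 292) (nat_lit 518) (nat_lit 272) (@Lb.r r24 (@Lb.r r101 (@Lb.r r402 (@Lb.g g11 (@Lb.t (@Lb.fm (nat_lit 3) t1834)))))))
noncomputable def l9138 : Lb := (@Lb.r r2451 (@Lb.r r1186 (@Lb.r r2209 (@Lb.r r2196 (@Lb.d (nat_lit 0) (nat_lit 262) (nat_lit 16) (@Lb.fp (nat_lit 1) t810))))))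
noncomputable def l9139 : Lb := (@Lb.d (nat_lit 297) (nat_lit 388) (nat_lit 17) (@Lb.r r101 (@Lb.r r2403 (@Lb.g g6 (@Lb.d (nat_lit 0) (nat_lit 4) (nat_lit 1) (@Lb.t (@Lb.fp (nat_lit 3) t233)))))))
noncomputable def l9140 : Lb := (@Lb.r r323 (@Lb.d (nat_lit 38) (nat_lit 5) (nat_lit 17) (@Lb.g g8 (@Lb.g g9 (@Lb.g g6 (@Lb.r r387 (@Lb.r r97 (@Lb.r r2072 (@Lb.d (nat_lit 266) (nat_lit 137) (nat_lit 2) (@Lb.t (@Lb.fp (nat_lit 9) t2250)))))))))))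
noncomputable def l9141 : Lb := (@Lb.d (nat_lit 34) (nat_lit 69) (nat_lit 32) (@Lb.r r37 (@Lb.r r88 (@Lb.r r1355 (@Lb.g g10 (@Lb.d (nat_lit 0) (nat_lit 4) (nat_lit 2) (@Lb.r r387 (@Lb.r r145 (@Lb.t (@Lb.fp (nat_lit 3) t2251))))))))))
noncomputable def l9142 : Lb := (@Lb.d (nat_lit 298) (nat_lit 516) (nat_lit 32) (@Lb.r r289 (@Lb.r r1386 (@Lb.r r1096 (@Lb.r r1371 (@Lb.g g7 (@Lb.g g5 (@Lb.d (nat_lit 0) (nat_lit 0) (nat_lit 64) (@Lb.fm (nat_lit 3) t1355)))))))))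
noncomputable def l9143 : Lb := (@Lb.d (nat_lit 384) (nat_lit 385) (nat_lit 256) (@Lb.r r2145 (@Lb.r r2454 (@Lb.r r2635 (@Lb.r r516 (@Lb.g g7 (@Lb.g g6 (@Lb.d (nat_lit 64) (nat_lit 0) (nat_lit 133) (@Lb.fp (nat_lit 3) t580)))))))))
noncomputable def l9144 : Lb := (@Lb.d (nat_lit 132) (nat_lit 266) (nat_lit 1) (@Lb.g g8 (@Lb.g g9 (@Lb.g g10 (@Lb.r r2435 (@Lb.r r2217 (@Lb.r r1130 (@Lb.r r2664 (@Lb.d (nat_lit 164) (nat_lit 90) (nat_lit 673) (@Lb.t (@Lb.fm (nat_lit 9) t393)))))))))))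
noncomputable def l9145 : Lb := (@Lb.r r322 (@Lb.d (nat_lit 0) (nat_lit 514) (nat_lit 576) (@Lb.g g9 (@Lb.g g7 (@Lb.r r2469 (@Lb.r r2150 (@Lb.r r24 (@Lb.d (nat_lit 354) (nat_lit 5) (nat_lit 277) (@Lb.fp (nat_lit 3) t2252)))))))))
noncomputable def l9146 : Lb := (@Lb.r r322 (@Lb.d (nat_lit 0) (nat_lit 16) (nat_lit 648) (@Lb.g g9 (@Lb.g g7 (@Lb.r r594 (@Lb.r r2341 (@Lb.r r24 (@Lb.d (nat_lit 258) (nat_lit 5) (nat_lit 97) (@Lb.fp (nat_lit 3) t2253)))))))))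
noncomputable def l9147 : Lb := (@Lb.d (nat_lit 8) (nat_lit 514) (nat_lit 2) (@Lb.g g9 (@Lb.g g10 (@Lb.g g7 (@Lb.r r386 (@Lb.r r24 (@Lb.d (nat_lit 610) (nat_lit 2) (nat_lit 601) (@Lb.t (@Lb.fp (nat_lit 9) t698)))))))))
noncomputable def l9148 : Lb := (@Lb.d (nat_lit 641) (nat_lit 32) (nat_lit 64) (@Lb.g g4 (@Lb.g g11 (@Lb.r r1313 (@Lb.r r1555 (@Lb.r r2178 (@Lb.d (nat_lit 293) (nat_lit 162) (nat_lit 674) (@Lb.fm (nat_lit 3) t2254))))))))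
noncomputable def l9149 : Lb := (@Lb.d (nat_lit 0) (nat_lit 514) (nat_lit 2) (@Lb.g g9 (@Lb.g g10 (@Lb.r r1685 (@Lb.r r2404 (@Lb.r r1691 (@Lb.r r1610 (@Lb.d (nat_lit 609) (nat_lit 90) (nat_lit 345) (@Lb.fp (nat_lit 3) t2118)))))))))
noncomputable def l9150 : Lb := (@Lb.r r20 (@Lb.d (nat_lit 8) (nat_lit 326) (nat_lit 74) (@Lb.g g5 (@Lb.g g10 (@Lb.g g11 (@Lb.r r659 (@Lb.r r578 (@Lb.r r2660 (@Lb.d (nat_lit 352) (nat_lit 65) (nat_lit 290) (@Lb.t (@Lb.fm (nat_lit 9) t2255)))))))))))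
noncomputable def l9151 : Lb := (@Lb.d (nat_lit 132) (nat_lit 277) (nat_lit 74) (@Lb.g g8 (@Lb.g g9 (@Lb.g g10 (@Lb.g g11 (@Lb.r r1707 (@Lb.r r2216 (@Lb.r r426 (@Lb.r r2729 (@Lb.d (nat_lit 593) (nat_lit 85) (nat_lit 70) (@Lb.fp (nat_lit 9) t2256)))))))))))
noncomputable def l9152 : Lb := (@Lb.g g7 (@Lb.r r2311 (@Lb.r r402 (@Lb.r r2145 (@Lb.r r36 (@Lb.d (nat_lit 262) (nat_lit 64) (nat_lit 576) (@Lb.t (@Lb.fm (nat_lit 3) t2257))))))))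
noncomputable def l9153 : Lb := (@Lb.r r323 (@Lb.d (nat_lit 2) (nat_lit 546) (nat_lit 2) (@Lb.g g8 (@Lb.g g9 (@Lb.g g10 (@Lb.r r599 (@Lb.r r420 (@Lb.r r102 (@Lb.d (nat_lit 601) (nat_lit 9) (nat_lit 681) (@Lb.t (@Lb.fp (nat_lit 9) t2258)))))))))))
noncomputable def l9154 : Lb := (@Lb.r r20 (@Lb.d (nat_lit 8) (nat_lit 70) (nat_lit 74) (@Lb.g g5 (@Lb.g g10 (@Lb.g g11 (@Lb.r r659 (@Lb.r r578 (@Lb.r r2660 (@Lb.d (nat_lit 357) (nat_lit 66) (nat_lit 290) (@Lb.t (@Lb.fm (nat_lit 9) t407)))))))))))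
noncomputable def l9155 : Lb := (@Lb.d (nat_lit 169) (nat_lit 73) (nat_lit 406) (@Lb.r r1192 (@Lb.r r89 (@Lb.r r386 (@Lb.g g11 (@Lb.g g6 (@Lb.g g4 (@Lb.d (nat_lit 5) (nat_lit 0) (nat_lit 385) (@Lb.r r529 (@Lb.t (@Lb.fm (nat_lit 9) t823)))))))))))
noncomputable def l9156 : Lb := (@Lb.d (nat_lit 0) (nat_lit 514) (nat_lit 2) (@Lb.g g9 (@Lb.g g10 (@Lb.r r1685 (@Lb.r r659 (@Lb.r r578 (@Lb.r r2564 (@Lb.d (nat_lit 328) (nat_lit 154) (nat_lit 265) (@Lb.fp (nat_lit 3) t1412)))))))))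
noncomputable def l9157 : Lb := (@Lb.d (nat_lit 8) (nat_lit 2) (nat_lit 130) (@Lb.g g9 (@Lb.g g10 (@Lb.g g11 (@Lb.r r1130 (@Lb.r r24 (@Lb.r r1685 (@Lb.r r1427 (@Lb.d (nat_lit 545) (nat_lit 80) (nat_lit 602) (@Lb.t (@Lb.fp (nat_lit 9) t2259)))))))))))
noncomputable def l9158 : Lb := (@Lb.d (nat_lit 662) (nat_lit 514) (nat_lit 288) (@Lb.r r24 (@Lb.r r2138 (@Lb.g g5 (@Lb.d (nat_lit 4) (nat_lit 1) (nat_lit 0) (@Lb.t (@Lb.fp (nat_lit 3) t1427)))))))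
noncomputable def l9159 : Lb := (@Lb.d (nat_lit 2) (nat_lit 2) (nat_lit 73) (@Lb.g g8 (@Lb.g g9 (@Lb.g g10 (@Lb.g g11 (@Lb.r r2666 (@Lb.r r579 (@Lb.r r104 (@Lb.r r25 (@Lb.d (nat_lit 401) (nat_lit 90) (nat_lit 594) (@Lb.fp (nat_lit 9) t492)))))))))))
noncomputable def l9160 : Lb := (@Lb.d (nat_lit 0) (nat_lit 8) (nat_lit 1) (@Lb.g g10 (@Lb.r r1380 (@Lb.r r357 (@Lb.r r1626 (@Lb.d (nat_lit 681) (nat_lit 84) (nat_lit 346) (@Lb.t (@Lb.fm (nat_lit 3) t2260))))))))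
noncomputable def l9161 : Lb := (@Lb.d (nat_lit 0) (nat_lit 32) (nat_lit 64) (@Lb.g g11 (@Lb.r r1684 (@Lb.r r345 (@Lb.r r1638 (@Lb.r r615 (@Lb.d (nat_lit 601) (nat_lit 104) (nat_lit 74) (@Lb.t (@Lb.fm (nat_lit 3) t2260)))))))))
noncomputable def l9162 : Lb := (@Lb.d (nat_lit 146) (nat_lit 2) (nat_lit 2) (@Lb.g g8 (@Lb.g g9 (@Lb.g g10 (@Lb.r r1681 (@Lb.r r2583 (@Lb.r r2440 (@Lb.r r1098 (@Lb.d (nat_lit 550) (nat_lit 72) (nat_lit 328) (@Lb.t (@Lb.fm (nat_lit 9) t813)))))))))))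
noncomputable def l9163 : Lb := (@Lb.d (nat_lit 657) (nat_lit 1) (nat_lit 288) (@Lb.r r24 (@Lb.r r2138 (@Lb.g g5 (@Lb.d (nat_lit 4) (nat_lit 1) (nat_lit 0) (@Lb.t (@Lb.fp (nat_lit 3) t1427)))))))
noncomputable def l9164 : Lb := (@Lb.r r323 (@Lb.d (nat_lit 32) (nat_lit 521) (nat_lit 1) (@Lb.g g8 (@Lb.g g9 (@Lb.g g10 (@Lb.r r1689 (@Lb.r r279 (@Lb.r r1350 (@Lb.r r520 (@Lb.d (nat_lit 82) (nat_lit 0) (nat_lit 72) (@Lb.t (@Lb.fp (nat_lit 9) t2261))))))))))))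
noncomputable def l9165 : Lb := (@Lb.d (nat_lit 1) (nat_lit 545) (nat_lit 4) (@Lb.g g8 (@Lb.g g9 (@Lb.g g10 (@Lb.g g11 (@Lb.r r1706 (@Lb.r r676 (@Lb.r r551 (@Lb.r r533 (@Lb.r r1060 (@Lb.d (nat_lit 393) (nat_lit 1) (nat_lit 586) (@Lb.fp (nat_lit 9) t74))))))))))))
noncomputable def l9166 : Lb := (@Lb.d (nat_lit 0) (nat_lit 289) (nat_lit 4) (@Lb.g g9 (@Lb.g g10 (@Lb.g g11 (@Lb.r r679 (@Lb.r r610 (@Lb.r r529 (@Lb.r r24 (@Lb.d (nat_lit 144) (nat_lit 133) (nat_lit 129) (@Lb.t (@Lb.fm (nat_lit 9) t101)))))))))))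
noncomputable def l9167 : Lb := (@Lb.d (nat_lit 2) (nat_lit 514) (nat_lit 130) (@Lb.g g8 (@Lb.g g9 (@Lb.g g10 (@Lb.g g11 (@Lb.r r1367 (@Lb.r r386 (@Lb.r r1109 (@Lb.r r24 (@Lb.d (nat_lit 129) (nat_lit 137) (nat_lit 329) (@Lb.fp (nat_lit 9) t1918)))))))))))
noncomputable def l9168 : Lb := (@Lb.r r2116 (@Lb.r r323 (@Lb.d (nat_lit 0) (nat_lit 521) (nat_lit 1) (@Lb.g g9 (@Lb.g g10 (@Lb.r r663 (@Lb.r r165 (@Lb.r r422 (@Lb.d (nat_lit 149) (nat_lit 168) (nat_lit 597) (@Lb.fp (nat_lit 3) t190))))))))))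
noncomputable def l9169 : Lb := (@Lb.d (nat_lit 336) (nat_lit 266) (nat_lit 345) (@Lb.r r24 (@Lb.r r2389 (@Lb.r r386 (@Lb.r r2339 (@Lb.g g7 (@Lb.g g6 (@Lb.g g5 (@Lb.d (nat_lit 0) (nat_lit 34) (nat_lit 1) (@Lb.t (@Lb.fp (nat_lit 9) t1825)))))))))))
noncomputable def l9170 : Lb := (@Lb.d (nat_lit 32) (nat_lit 8) (nat_lit 64) (@Lb.g g10 (@Lb.g g11 (@Lb.r r356 (@Lb.r r2571 (@Lb.r r1633 (@Lb.r r338 (@Lb.d (nat_lit 648) (nat_lit 21) (nat_lit 134) (@Lb.fm (nat_lit 3) t1079)))))))))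
noncomputable def l9171 : Lb := (@Lb.d (nat_lit 129) (nat_lit 514) (nat_lit 256) (@Lb.g g8 (@Lb.g g9 (@Lb.g g10 (@Lb.g g7 (@Lb.r r145 (@Lb.r r264 (@Lb.d (nat_lit 130) (nat_lit 8) (nat_lit 641) (@Lb.fp (nat_lit 9) t2262)))))))))
noncomputable def l9172 : Lb := (@Lb.d (nat_lit 129) (nat_lit 512) (nat_lit 256) (@Lb.g g8 (@Lb.g g10 (@Lb.g g7 (@Lb.r r264 (@Lb.d (nat_lit 130) (nat_lit 10) (nat_lit 642) (@Lb.t (@Lb.fm (nat_lit 9) t2263))))))))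
noncomputable def l9173 : Lb := (@Lb.d (nat_lit 2) (nat_lit 512) (nat_lit 130) (@Lb.g g8 (@Lb.g g10 (@Lb.g g11 (@Lb.r r1579 (@Lb.r r1641 (@Lb.r r2454 (@Lb.r r1608 (@Lb.d (nat_lit 105) (nat_lit 6) (nat_lit 538) (@Lb.t (@Lb.fm (nat_lit 9) t2264)))))))))))
noncomputable def l9174 : Lb := (@Lb.r r82 (@Lb.d (nat_lit 34) (nat_lit 2) (nat_lit 64) (@Lb.g g8 (@Lb.g g9 (@Lb.g g7 (@Lb.r r2409 (@Lb.r r150 (@Lb.r r100 (@Lb.d (nat_lit 26) (nat_lit 90) (nat_lit 345) (@Lb.t (@Lb.fp (nat_lit 9) t2073)))))))))))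
noncomputable def l9175 : Lb := (@Lb.r r20 (@Lb.d (nat_lit 0) (nat_lit 289) (nat_lit 130) (@Lb.g g9 (@Lb.g g10 (@Lb.g g11 (@Lb.r r675 (@Lb.r r1634 (@Lb.r r1553 (@Lb.d (nat_lit 2) (nat_lit 105) (nat_lit 273) (@Lb.t (@Lb.fp (nat_lit 9) t919)))))))))))
noncomputable def l9176 : Lb := (@Lb.g g7 (@Lb.r r2311 (@Lb.r r402 (@Lb.r r2145 (@Lb.r r36 (@Lb.d (nat_lit 262) (nat_lit 320) (nat_lit 512) (@Lb.t (@Lb.fm (nat_lit 3) t1351))))))))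
noncomputable def l9177 : Lb := (@Lb.r r21 (@Lb.r r70 (@Lb.d (nat_lit 129) (nat_lit 256) (nat_lit 256) (@Lb.g g8 (@Lb.g g7 (@Lb.r r1617 (@Lb.r r1126 (@Lb.r r1432 (@Lb.d (nat_lit 422) (nat_lit 148) (nat_lit 666) (@Lb.fm (nat_lit 3) t522))))))))))
noncomputable def l9178 : Lb := (@Lb.r r21 (@Lb.r r70 (@Lb.d (nat_lit 138) (nat_lit 0) (nat_lit 256) (@Lb.g g8 (@Lb.g g7 (@Lb.r r402 (@Lb.r r2581 (@Lb.r r360 (@Lb.d (nat_lit 680) (nat_lit 40) (nat_lit 390) (@Lb.fp (nat_lit 3) t2160))))))))))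
noncomputable def l9179 : Lb := (@Lb.r r21 (@Lb.d (nat_lit 10) (nat_lit 8) (nat_lit 130) (@Lb.g g8 (@Lb.g g10 (@Lb.g g11 (@Lb.r r427 (@Lb.r r533 (@Lb.r r360 (@Lb.r r582 (@Lb.d (nat_lit 153) (nat_lit 149) (nat_lit 1) (@Lb.t (@Lb.fp (nat_lit 9) t119))))))))))))
noncomputable def l9180 : Lb := (@Lb.d (nat_lit 645) (nat_lit 10) (nat_lit 65) (@Lb.g g4 (@Lb.g g9 (@Lb.g g10 (@Lb.g g11 (@Lb.r r2726 (@Lb.r r1411 (@Lb.r r1553 (@Lb.d (nat_lit 580) (nat_lit 96) (nat_lit 362) (@Lb.fp (nat_lit 9) t1062))))))))))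
noncomputable def l9181 : Lb := (@Lb.d (nat_lit 2) (nat_lit 514) (nat_lit 2) (@Lb.g g8 (@Lb.g g9 (@Lb.g g10 (@Lb.g g11 (@Lb.r r2666 (@Lb.r r2657 (@Lb.r r2723 (@Lb.d (nat_lit 521) (nat_lit 90) (nat_lit 660) (@Lb.fp (nat_lit 9) t2265))))))))))
noncomputable def l9182 : Lb := (@Lb.d (nat_lit 641) (nat_lit 258) (nat_lit 66) (@Lb.g g8 (@Lb.g g9 (@Lb.g g10 (@Lb.g g11 (@Lb.r r1451 (@Lb.r r106 (@Lb.r r25 (@Lb.d (nat_lit 8) (nat_lit 9) (nat_lit 425) (@Lb.fp (nat_lit 9) t1792))))))))))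
noncomputable def l9183 : Lb := (@Lb.d (nat_lit 2) (nat_lit 2) (nat_lit 130) (@Lb.g g8 (@Lb.g g9 (@Lb.g g10 (@Lb.g g11 (@Lb.r r2666 (@Lb.r r579 (@Lb.r r2337 (@Lb.r r24 (@Lb.d (nat_lit 586) (nat_lit 97) (nat_lit 586) (@Lb.fm (nat_lit 9) t504)))))))))))
noncomputable def l9184 : Lb := (@Lb.d (nat_lit 0) (nat_lit 416) (nat_lit 0) (@Lb.g g5 (@Lb.g g11 (@Lb.r r531 (@Lb.d (nat_lit 0) (nat_lit 98) (nat_lit 128) (@Lb.fm (nat_lit 3) t1191))))))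
noncomputable def l9185 : Lb := (@Lb.d (nat_lit 0) (nat_lit 256) (nat_lit 17) (@Lb.g g10 (@Lb.r r2449 (@Lb.r r408 (@Lb.r r295 (@Lb.r r516 (@Lb.d (nat_lit 512) (nat_lit 0) (nat_lit 33) (@Lb.t (@Lb.fm (nat_lit 3) t1775)))))))))
noncomputable def l9186 : Lb := (@Lb.d (nat_lit 0) (nat_lit 672) (nat_lit 2) (@Lb.g g5 (@Lb.g g10 (@Lb.g g11 (@Lb.r r2707 (@Lb.r r146 (@Lb.d (nat_lit 0) (nat_lit 1) (nat_lit 393) (@Lb.t (@Lb.fp (nat_lit 9) t664)))))))))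
noncomputable def l9187 : Lb := (@Lb.d (nat_lit 2) (nat_lit 290) (nat_lit 66) (@Lb.g g8 (@Lb.g g9 (@Lb.g g10 (@Lb.g g11 (@Lb.r r665 (@Lb.r r531 (@Lb.r r386 (@Lb.d (nat_lit 33) (nat_lit 34) (nat_lit 73) (@Lb.fp (nat_lit 9) t892))))))))))
noncomputable def l9188 : Lb := (@Lb.r r322 (@Lb.d (nat_lit 34) (nat_lit 545) (nat_lit 516) (@Lb.g g8 (@Lb.g g9 (@Lb.g g7 (@Lb.r r418 (@Lb.r r297 (@Lb.r r1384 (@Lb.d (nat_lit 400) (nat_lit 169) (nat_lit 293) (@Lb.t (@Lb.fm (nat_lit 9) t1192)))))))))))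
noncomputable def l9189 : Lb := (@Lb.r r70 (@Lb.d (nat_lit 33) (nat_lit 514) (nat_lit 0) (@Lb.g g8 (@Lb.g g9 (@Lb.r r2475 (@Lb.r r2198 (@Lb.r r601 (@Lb.r r600 (@Lb.d (nat_lit 426) (nat_lit 166) (nat_lit 613) (@Lb.fm (nat_lit 3) t813))))))))))
noncomputable def l9190 : Lb := (@Lb.d (nat_lit 0) (nat_lit 2) (nat_lit 73) (@Lb.g g9 (@Lb.g g10 (@Lb.g g11 (@Lb.r r2705 (@Lb.r r1691 (@Lb.r r1610 (@Lb.r r2564 (@Lb.d (nat_lit 17) (nat_lit 10) (nat_lit 21) (@Lb.t (@Lb.fp (nat_lit 9) t312)))))))))))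
noncomputable def l9191 : Lb := (@Lb.d (nat_lit 32) (nat_lit 514) (nat_lit 73) (@Lb.g g9 (@Lb.g g10 (@Lb.g g11 (@Lb.r r2709 (@Lb.r r1380 (@Lb.r r2715 (@Lb.r r2634 (@Lb.d (nat_lit 353) (nat_lit 10) (nat_lit 385) (@Lb.t (@Lb.fp (nat_lit 9) t564)))))))))))
noncomputable def l9192 : Lb := (@Lb.r r21 (@Lb.d (nat_lit 17) (nat_lit 0) (nat_lit 128) (@Lb.g g8 (@Lb.g g10 (@Lb.g g11 (@Lb.r r395 (@Lb.r r297 (@Lb.r r392 (@Lb.r r602 (@Lb.d (nat_lit 106) (nat_lit 21) (nat_lit 5) (@Lb.t (@Lb.fm (nat_lit 9) t5))))))))))))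
noncomputable def l9193 : Lb := (@Lb.r r323 (@Lb.d (nat_lit 2) (nat_lit 260) (nat_lit 2) (@Lb.g g8 (@Lb.g g9 (@Lb.g g6 (@Lb.r r387 (@Lb.r r97 (@Lb.r r24 (@Lb.d (nat_lit 10) (nat_lit 2) (nat_lit 0) (@Lb.t (@Lb.fp (nat_lit 9) t2266)))))))))))
noncomputable def l9194 : Lb := (@Lb.d (nat_lit 2) (nat_lit 260) (nat_lit 128) (@Lb.g g8 (@Lb.g g9 (@Lb.g g10 (@Lb.g g11 (@Lb.r r427 (@Lb.r r424 (@Lb.r r106 (@Lb.r r97 (@Lb.d (nat_lit 10) (nat_lit 9) (nat_lit 2) (@Lb.fp (nat_lit 9) t5)))))))))))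
noncomputable def l9195 : Lb := (@Lb.d (nat_lit 0) (nat_lit 262) (nat_lit 129) (@Lb.g g9 (@Lb.g g10 (@Lb.g g11 (@Lb.r r618 (@Lb.r r584 (@Lb.r r283 (@Lb.r r529 (@Lb.d (nat_lit 69) (nat_lit 144) (nat_lit 64) (@Lb.t (@Lb.fp (nat_lit 9) t658)))))))))))
noncomputable def l9196 : Lb := (@Lb.d (nat_lit 2) (nat_lit 516) (nat_lit 128) (@Lb.g g8 (@Lb.g g9 (@Lb.g g10 (@Lb.g g11 (@Lb.r r427 (@Lb.r r424 (@Lb.r r106 (@Lb.r r97 (@Lb.d (nat_lit 9) (nat_lit 9) (nat_lit 2) (@Lb.fp (nat_lit 9) t5)))))))))))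
noncomputable def l9197 : Lb := (@Lb.r r323 (@Lb.d (nat_lit 32) (nat_lit 36) (nat_lit 0) (@Lb.g g9 (@Lb.g g10 (@Lb.r r595 (@Lb.r r409 (@Lb.r r24 (@Lb.d (nat_lit 169) (nat_lit 130) (nat_lit 265) (@Lb.fm (nat_lit 3) t2267)))))))))
noncomputable def l9198 : Lb := (@Lb.d (nat_lit 24) (nat_lit 282) (nat_lit 69) (@Lb.r r662 (@Lb.r r328 (@Lb.r r293 (@Lb.g g7 (@Lb.g g6 (@Lb.g g5 (@Lb.d (nat_lit 16) (nat_lit 1) (nat_lit 128) (@Lb.t (@Lb.fm (nat_lit 9) t2268))))))))))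
noncomputable def l9199 : Lb := (@Lb.g g7 (@Lb.r r2311 (@Lb.r r2454 (@Lb.r r101 (@Lb.d (nat_lit 512) (nat_lit 640) (nat_lit 576) (@Lb.t (@Lb.fm (nat_lit 3) t2269)))))))
noncomputable def l9200 : Lb := (@Lb.d (nat_lit 256) (nat_lit 1) (nat_lit 72) (@Lb.r r1611 (@Lb.g g6 (@Lb.d (nat_lit 16) (nat_lit 4) (nat_lit 37) (@Lb.r r387 (@Lb.t (@Lb.fp (nat_lit 3) t2270)))))))
noncomputable def l9201 : Lb := (@Lb.r r323 (@Lb.g g6 (@Lb.r r578 (@Lb.r r1611 (@Lb.d (nat_lit 98) (nat_lit 0) (nat_lit 666) (@Lb.t (@Lb.fp (nat_lit 3) t469)))))))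
noncomputable def l9202 : Lb := (@Lb.d (nat_lit 0) (nat_lit 256) (nat_lit 72) (@Lb.g g10 (@Lb.g g11 (@Lb.r r327 (@Lb.r r666 (@Lb.r r101 (@Lb.d (nat_lit 648) (nat_lit 130) (nat_lit 576) (@Lb.fm (nat_lit 3) t2271))))))))
noncomputable def l9203 : Lb := (@Lb.d (nat_lit 1) (nat_lit 72) (nat_lit 1) (@Lb.g g8 (@Lb.g g5 (@Lb.g g10 (@Lb.r r2715 (@Lb.r r2708 (@Lb.r r2198 (@Lb.d (nat_lit 549) (nat_lit 74) (nat_lit 170) (@Lb.t (@Lb.fp (nat_lit 9) t892))))))))))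
noncomputable def l9204 : Lb := (@Lb.d (nat_lit 32) (nat_lit 514) (nat_lit 73) (@Lb.g g9 (@Lb.g g10 (@Lb.g g11 (@Lb.r r2695 (@Lb.r r1352 (@Lb.r r2182 (@Lb.r r97 (@Lb.d (nat_lit 129) (nat_lit 22) (nat_lit 358) (@Lb.t (@Lb.fm (nat_lit 9) t1597)))))))))))
noncomputable def l9205 : Lb := (@Lb.d (nat_lit 32) (nat_lit 514) (nat_lit 73) (@Lb.g g9 (@Lb.g g10 (@Lb.g g11 (@Lb.r r2695 (@Lb.r r1352 (@Lb.r r2182 (@Lb.r r1313 (@Lb.d (nat_lit 129) (nat_lit 138) (nat_lit 674) (@Lb.t (@Lb.fm (nat_lit 9) t1597)))))))))))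
noncomputable def l9206 : Lb := (@Lb.r r2118 (@Lb.r r24 (@Lb.d (nat_lit 96) (nat_lit 354) (nat_lit 290) (@Lb.fm (nat_lit 1) t2272))))
noncomputable def l9207 : Lb := (@Lb.d (nat_lit 37) (nat_lit 576) (nat_lit 152) (@Lb.r r101 (@Lb.r r24 (@Lb.r r323 (@Lb.g g7 (@Lb.g g6 (@Lb.d (nat_lit 0) (nat_lit 4) (nat_lit 65) (@Lb.fm (nat_lit 3) t2207))))))))
noncomputable def l9208 : Lb := (@Lb.d (nat_lit 37) (nat_lit 164) (nat_lit 601) (@Lb.r r101 (@Lb.r r24 (@Lb.r r323 (@Lb.g g6 (@Lb.d (nat_lit 0) (nat_lit 4) (nat_lit 9) (@Lb.r r387 (@Lb.t (@Lb.fm (nat_lit 3) t2273)))))))))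
noncomputable def l9209 : Lb := (@Lb.d (nat_lit 0) (nat_lit 512) (nat_lit 136) (@Lb.g g11 (@Lb.r r101 (@Lb.r r402 (@Lb.r r24 (@Lb.d (nat_lit 514) (nat_lit 10) (nat_lit 674) (@Lb.t (@Lb.fm (nat_lit 3) t2274))))))))
noncomputable def l9210 : Lb := (@Lb.r r1114 (@Lb.r r2404 (@Lb.r r2325 (@Lb.d (nat_lit 512) (nat_lit 2) (nat_lit 320) (@Lb.fp (nat_lit 1) t2275)))))
noncomputable def l9211 : Lb := (@Lb.d (nat_lit 273) (nat_lit 601) (nat_lit 356) (@Lb.r r2457 (@Lb.r r2454 (@Lb.r r1635 (@Lb.g g7 (@Lb.g g5 (@Lb.g g4 (@Lb.d (nat_lit 5) (nat_lit 17) (nat_lit 128) (@Lb.r r98 (@Lb.t (@Lb.fp (nat_lit 9) t2276)))))))))))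
noncomputable def l9212 : Lb := (@Lb.d (nat_lit 0) (nat_lit 256) (nat_lit 128) (@Lb.g g10 (@Lb.g g11 (@Lb.r r387 (@Lb.r r402 (@Lb.r r101 (@Lb.d (nat_lit 272) (nat_lit 8) (nat_lit 32) (@Lb.fm (nat_lit 3) t2158))))))))
noncomputable def l9213 : Lb := (@Lb.d (nat_lit 1) (nat_lit 0) (nat_lit 128) (@Lb.g g8 (@Lb.g g10 (@Lb.g g11 (@Lb.r r353 (@Lb.r r667 (@Lb.r r664 (@Lb.r r154 (@Lb.d (nat_lit 18) (nat_lit 0) (nat_lit 69) (@Lb.t (@Lb.fm (nat_lit 9) t285)))))))))))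
noncomputable def l9214 : Lb := (@Lb.r r275 (@Lb.d (nat_lit 129) (nat_lit 512) (nat_lit 2) (@Lb.g g8 (@Lb.g g9 (@Lb.g g10 (@Lb.r r362 (@Lb.r r391 (@Lb.r r401 (@Lb.r r516 (@Lb.d (nat_lit 130) (nat_lit 16) (nat_lit 88) (@Lb.t (@Lb.fm (nat_lit 9) t390))))))))))))
noncomputable def l9215 : Lb := (@Lb.d (nat_lit 266) (nat_lit 550) (nat_lit 1) (@Lb.r r2452 (@Lb.r r89 (@Lb.r r1611 (@Lb.r r358 (@Lb.g g7 (@Lb.g g6 (@Lb.g g4 (@Lb.d (nat_lit 0) (nat_lit 0) (nat_lit 65) (@Lb.t (@Lb.fm (nat_lit 9) t1071)))))))))))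
noncomputable def l9216 : Lb := (@Lb.d (nat_lit 88) (nat_lit 40) (nat_lit 68) (@Lb.r r404 (@Lb.r r363 (@Lb.r r273 (@Lb.g g7 (@Lb.g g10 (@Lb.g g4 (@Lb.d (nat_lit 18) (nat_lit 8) (nat_lit 132) (@Lb.r r145 (@Lb.t (@Lb.fm (nat_lit 9) t71)))))))))))
noncomputable def l9217 : Lb := (@Lb.d (nat_lit 2) (nat_lit 0) (nat_lit 74) (@Lb.g g8 (@Lb.g g10 (@Lb.g g11 (@Lb.r r660 (@Lb.r r2311 (@Lb.r r594 (@Lb.r r1057 (@Lb.r r132 (@Lb.d (nat_lit 406) (nat_lit 25) (nat_lit 66) (@Lb.t (@Lb.fp (nat_lit 9) t2131))))))))))))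
noncomputable def l9218 : Lb := (@Lb.d (nat_lit 10) (nat_lit 256) (nat_lit 128) (@Lb.g g8 (@Lb.g g10 (@Lb.g g11 (@Lb.r r353 (@Lb.r r407 (@Lb.r r612 (@Lb.r r154 (@Lb.d (nat_lit 18) (nat_lit 0) (nat_lit 132) (@Lb.t (@Lb.fm (nat_lit 9) t285)))))))))))
noncomputable def l9219 : Lb := (@Lb.d (nat_lit 128) (nat_lit 512) (nat_lit 128) (@Lb.g g10 (@Lb.g g11 (@Lb.r r264 (@Lb.r r519 (@Lb.r r101 (@Lb.r r154 (@Lb.d (nat_lit 146) (nat_lit 0) (nat_lit 65) (@Lb.fm (nat_lit 3) t285)))))))))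
noncomputable def l9220 : Lb := (@Lb.d (nat_lit 2) (nat_lit 0) (nat_lit 130) (@Lb.g g8 (@Lb.g g9 (@Lb.g g10 (@Lb.g g11 (@Lb.r r548 (@Lb.r r295 (@Lb.r r357 (@Lb.r r666 (@Lb.r r644 (@Lb.d (nat_lit 9) (nat_lit 1) (nat_lit 0) (@Lb.fp (nat_lit 9) t2))))))))))))
noncomputable def l9221 : Lb := (@Lb.d (nat_lit 2) (nat_lit 2) (nat_lit 0) (@Lb.g g8 (@Lb.g g9 (@Lb.g g10 (@Lb.r r1623 (@Lb.r r2154 (@Lb.r r25 (@Lb.d (nat_lit 9) (nat_lit 66) (nat_lit 32) (@Lb.t (@Lb.fp (nat_lit 9) t51))))))))))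
noncomputable def l9222 : Lb := (@Lb.d (nat_lit 4) (nat_lit 292) (nat_lit 130) (@Lb.g g8 (@Lb.g g9 (@Lb.g g10 (@Lb.g g11 (@Lb.r r586 (@Lb.r r1611 (@Lb.r r36 (@Lb.r r149 (@Lb.r r2084 (@Lb.d (nat_lit 362) (nat_lit 161) (nat_lit 82) (@Lb.fm (nat_lit 9) t436))))))))))))
noncomputable def l9223 : Lb := (@Lb.d (nat_lit 129) (nat_lit 2) (nat_lit 0) (@Lb.g g8 (@Lb.g g9 (@Lb.r r1450 (@Lb.r r1433 (@Lb.r r2663 (@Lb.r r1412 (@Lb.d (nat_lit 354) (nat_lit 74) (nat_lit 361) (@Lb.fm (nat_lit 3) t334)))))))))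
noncomputable def l9224 : Lb := (@Lb.d (nat_lit 278) (nat_lit 321) (nat_lit 17) (@Lb.r r2068 (@Lb.r r89 (@Lb.r r323 (@Lb.g g10 (@Lb.g g4 (@Lb.d (nat_lit 5) (nat_lit 0) (nat_lit 18) (@Lb.r r387 (@Lb.r r145 (@Lb.fp (nat_lit 3) t2099))))))))))
noncomputable def l9225 : Lb := (@Lb.d (nat_lit 278) (nat_lit 582) (nat_lit 18) (@Lb.r r2068 (@Lb.r r89 (@Lb.r r323 (@Lb.g g10 (@Lb.g g4 (@Lb.d (nat_lit 6) (nat_lit 0) (nat_lit 18) (@Lb.r r387 (@Lb.r r145 (@Lb.fp (nat_lit 3) t1661))))))))))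
noncomputable def l9226 : Lb := (@Lb.r r82 (@Lb.d (nat_lit 34) (nat_lit 514) (nat_lit 8) (@Lb.g g8 (@Lb.g g9 (@Lb.g g11 (@Lb.r r1362 (@Lb.r r2645 (@Lb.r r356 (@Lb.r r395 (@Lb.d (nat_lit 545) (nat_lit 34) (nat_lit 680) (@Lb.t (@Lb.fm (nat_lit 9) t98))))))))))))
noncomputable def l9227 : Lb := (@Lb.d (nat_lit 146) (nat_lit 258) (nat_lit 128) (@Lb.g g8 (@Lb.g g9 (@Lb.g g10 (@Lb.g g11 (@Lb.r r2459 (@Lb.r r1177 (@Lb.r r1626 (@Lb.r r72 (@Lb.d (nat_lit 33) (nat_lit 40) (nat_lit 360) (@Lb.fm (nat_lit 9) t2277)))))))))))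
noncomputable def l9228 : Lb := (@Lb.d (nat_lit 146) (nat_lit 514) (nat_lit 130) (@Lb.g g8 (@Lb.g g9 (@Lb.g g10 (@Lb.g g11 (@Lb.r r2475 (@Lb.r r296 (@Lb.r r2409 (@Lb.r r1174 (@Lb.d (nat_lit 81) (nat_lit 4) (nat_lit 597) (@Lb.fm (nat_lit 9) t2278)))))))))))
noncomputable def l9229 : Lb := (@Lb.d (nat_lit 129) (nat_lit 2) (nat_lit 130) (@Lb.g g8 (@Lb.g g9 (@Lb.g g10 (@Lb.g g11 (@Lb.r r1706 (@Lb.r r1411 (@Lb.r r1177 (@Lb.r r1176 (@Lb.d (nat_lit 532) (nat_lit 84) (nat_lit 665) (@Lb.fp (nat_lit 9) t1325)))))))))))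
noncomputable def l9230 : Lb := (@Lb.d (nat_lit 2) (nat_lit 2) (nat_lit 137) (@Lb.g g8 (@Lb.g g9 (@Lb.g g10 (@Lb.g g11 (@Lb.r r683 (@Lb.r r1689 (@Lb.r r1688 (@Lb.r r1610 (@Lb.d (nat_lit 609) (nat_lit 100) (nat_lit 394) (@Lb.fp (nat_lit 9) t2279)))))))))))
noncomputable def l9231 : Lb := (@Lb.d (nat_lit 4) (nat_lit 0) (nat_lit 130) (@Lb.g g8 (@Lb.g g9 (@Lb.g g10 (@Lb.g g11 (@Lb.r r1435 (@Lb.r r1432 (@Lb.r r106 (@Lb.r r97 (@Lb.d (nat_lit 617) (nat_lit 148) (nat_lit 8) (@Lb.fp (nat_lit 9) t171)))))))))))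
noncomputable def l9232 : Lb := (@Lb.d (nat_lit 0) (nat_lit 514) (nat_lit 130) (@Lb.g g9 (@Lb.g g10 (@Lb.g g11 (@Lb.r r1443 (@Lb.r r417 (@Lb.r r98 (@Lb.r r8 (@Lb.d (nat_lit 608) (nat_lit 73) (nat_lit 33) (@Lb.t (@Lb.fm (nat_lit 9) t386)))))))))))
noncomputable def l9233 : Lb := (@Lb.d (nat_lit 2) (nat_lit 514) (nat_lit 4) (@Lb.g g8 (@Lb.g g9 (@Lb.g g10 (@Lb.g g11 (@Lb.r r2439 (@Lb.r r1604 (@Lb.r r106 (@Lb.r r97 (@Lb.d (nat_lit 10) (nat_lit 160) (nat_lit 642) (@Lb.fm (nat_lit 9) t295)))))))))))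
noncomputable def l9234 : Lb := (@Lb.d (nat_lit 148) (nat_lit 657) (nat_lit 338) (@Lb.r r1556 (@Lb.r r281 (@Lb.r r615 (@Lb.g g6 (@Lb.g g4 (@Lb.d (nat_lit 68) (nat_lit 4) (nat_lit 17) (@Lb.r r387 (@Lb.fp (nat_lit 3) t2280)))))))))
noncomputable def l9235 : Lb := (@Lb.d (nat_lit 258) (nat_lit 522) (nat_lit 170) (@Lb.r r154 (@Lb.r r664 (@Lb.r r667 (@Lb.r r353 (@Lb.g g7 (@Lb.g g4 (@Lb.d (nat_lit 2) (nat_lit 0) (nat_lit 64) (@Lb.fm (nat_lit 3) t295)))))))))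
noncomputable def l9236 : Lb := (@Lb.r r323 (@Lb.d (nat_lit 2) (nat_lit 9) (nat_lit 2) (@Lb.g g8 (@Lb.g g9 (@Lb.g g10 (@Lb.r r683 (@Lb.r r170 (@Lb.r r1177 (@Lb.r r1156 (@Lb.d (nat_lit 297) (nat_lit 65) (nat_lit 68) (@Lb.t (@Lb.fm (nat_lit 9) t1754))))))))))))
noncomputable def l9237 : Lb := (@Lb.r r323 (@Lb.d (nat_lit 16) (nat_lit 264) (nat_lit 9) (@Lb.g g9 (@Lb.g g6 (@Lb.r r1371 (@Lb.r r2645 (@Lb.r r24 (@Lb.d (nat_lit 512) (nat_lit 104) (nat_lit 424) (@Lb.fm (nat_lit 3) t128)))))))))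
noncomputable def l9238 : Lb := (@Lb.d (nat_lit 2) (nat_lit 649) (nat_lit 0) (@Lb.g g8 (@Lb.g g5 (@Lb.g g11 (@Lb.r r596 (@Lb.r r2375 (@Lb.r r2178 (@Lb.r r1540 (@Lb.d (nat_lit 0) (nat_lit 96) (nat_lit 640) (@Lb.t (@Lb.fm (nat_lit 9) t296)))))))))))
noncomputable def l9239 : Lb := (@Lb.d (nat_lit 2) (nat_lit 9) (nat_lit 161) (@Lb.g g8 (@Lb.g g9 (@Lb.g g6 (@Lb.g g11 (@Lb.r r612 (@Lb.r r2311 (@Lb.r r97 (@Lb.r r1540 (@Lb.d (nat_lit 1) (nat_lit 105) (nat_lit 640) (@Lb.fp (nat_lit 9) t1038)))))))))))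
noncomputable def l9240 : Lb := (@Lb.d (nat_lit 2) (nat_lit 137) (nat_lit 0) (@Lb.g g8 (@Lb.g g5 (@Lb.g g11 (@Lb.r r596 (@Lb.r r2375 (@Lb.r r2178 (@Lb.r r1540 (@Lb.d (nat_lit 2) (nat_lit 96) (nat_lit 640) (@Lb.t (@Lb.fm (nat_lit 9) t296)))))))))))
noncomputable def l9241 : Lb := (@Lb.d (nat_lit 65) (nat_lit 258) (nat_lit 585) (@Lb.r r24 (@Lb.r r2587 (@Lb.g g7 (@Lb.g g9 (@Lb.d (nat_lit 8) (nat_lit 9) (nat_lit 64) (@Lb.fp (nat_lit 3) t1410)))))))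
noncomputable def l9242 : Lb := (@Lb.d (nat_lit 610) (nat_lit 0) (nat_lit 661) (@Lb.r r24 (@Lb.r r2213 (@Lb.r r386 (@Lb.r r2451 (@Lb.g g7 (@Lb.g g6 (@Lb.g g5 (@Lb.d (nat_lit 0) (nat_lit 2) (nat_lit 65) (@Lb.t (@Lb.fm (nat_lit 9) t280)))))))))))
noncomputable def l9243 : Lb := (@Lb.d (nat_lit 66) (nat_lit 258) (nat_lit 646) (@Lb.r r24 (@Lb.r r386 (@Lb.r r2587 (@Lb.g g7 (@Lb.g g6 (@Lb.g g9 (@Lb.d (nat_lit 8) (nat_lit 2) (nat_lit 65) (@Lb.t (@Lb.fp (nat_lit 9) t121))))))))))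
noncomputable def l9244 : Lb := (@Lb.r r1094 (@Lb.r r1288 (@Lb.r r2439 (@Lb.r r1425 (@Lb.d (nat_lit 2) (nat_lit 0) (nat_lit 85) (@Lb.fm (nat_lit 1) t2281))))))
noncomputable def l9245 : Lb := (@Lb.r r1094 (@Lb.r r1288 (@Lb.r r2439 (@Lb.r r1425 (@Lb.d (nat_lit 0) (nat_lit 512) (nat_lit 85) (@Lb.fm (nat_lit 1) t2054))))))
noncomputable def l9246 : Lb := (@Lb.d (nat_lit 516) (nat_lit 658) (nat_lit 405) (@Lb.r r2129 (@Lb.r r354 (@Lb.r r81 (@Lb.r r1671 (@Lb.g g7 (@Lb.g g6 (@Lb.g g5 (@Lb.g g8 (@Lb.d (nat_lit 1) (nat_lit 1) (nat_lit 65) (@Lb.fp (nat_lit 9) t229)))))))))))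
noncomputable def l9247 : Lb := (@Lb.d (nat_lit 0) (nat_lit 130) (nat_lit 168) (@Lb.r r609 (@Lb.r r619 (@Lb.r r584 (@Lb.g g6 (@Lb.d (nat_lit 16) (nat_lit 0) (nat_lit 1) (@Lb.r r387 (@Lb.t (@Lb.fp (nat_lit 3) t68)))))))))
noncomputable def l9248 : Lb := (@Lb.r r82 (@Lb.d (nat_lit 4) (nat_lit 514) (nat_lit 584) (@Lb.g g9 (@Lb.g g7 (@Lb.r r2708 (@Lb.r r1382 (@Lb.r r1361 (@Lb.d (nat_lit 74) (nat_lit 16) (nat_lit 597) (@Lb.fp (nat_lit 3) t2282)))))))))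
noncomputable def l9249 : Lb := (@Lb.d (nat_lit 0) (nat_lit 16) (nat_lit 521) (@Lb.g g10 (@Lb.g g7 (@Lb.r r24 (@Lb.r r421 (@Lb.r r98 (@Lb.d (nat_lit 401) (nat_lit 21) (nat_lit 417) (@Lb.fp (nat_lit 3) t492))))))))
noncomputable def l9250 : Lb := (@Lb.d (nat_lit 2) (nat_lit 0) (nat_lit 74) (@Lb.g g8 (@Lb.g g10 (@Lb.g g11 (@Lb.r r2345 (@Lb.r r535 (@Lb.r r1188 (@Lb.r r1158 (@Lb.d (nat_lit 608) (nat_lit 10) (nat_lit 24) (@Lb.t (@Lb.fp (nat_lit 9) t2283)))))))))))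
noncomputable def l9251 : Lb := (@Lb.d (nat_lit 0) (nat_lit 512) (nat_lit 74) (@Lb.g g10 (@Lb.g g11 (@Lb.r r2707 (@Lb.r r2626 (@Lb.d (nat_lit 0) (nat_lit 152) (nat_lit 354) (@Lb.fp (nat_lit 3) t51)))))))
noncomputable def l9252 : Lb := (@Lb.d (nat_lit 2) (nat_lit 256) (nat_lit 74) (@Lb.g g8 (@Lb.g g10 (@Lb.g g11 (@Lb.r r2345 (@Lb.r r535 (@Lb.r r1188 (@Lb.r r1158 (@Lb.d (nat_lit 610) (nat_lit 10) (nat_lit 24) (@Lb.t (@Lb.fp (nat_lit 9) t2284)))))))))))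
noncomputable def l9253 : Lb := (@Lb.d (nat_lit 0) (nat_lit 4) (nat_lit 1) (@Lb.g g6 (@Lb.r r101 (@Lb.d (nat_lit 426) (nat_lit 86) (nat_lit 529) (@Lb.t (@Lb.fp (nat_lit 3) t1018))))))
noncomputable def l9254 : Lb := (@Lb.d (nat_lit 0) (nat_lit 256) (nat_lit 74) (@Lb.g g10 (@Lb.g g11 (@Lb.r r658 (@Lb.r r1683 (@Lb.r r1602 (@Lb.d (nat_lit 0) (nat_lit 170) (nat_lit 550) (@Lb.fm (nat_lit 3) t387))))))))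
noncomputable def l9255 : Lb := (@Lb.d (nat_lit 32) (nat_lit 258) (nat_lit 73) (@Lb.g g8 (@Lb.g g9 (@Lb.g g10 (@Lb.g g11 (@Lb.r r342 (@Lb.r r663 (@Lb.r r2657 (@Lb.r r1560 (@Lb.d (nat_lit 168) (nat_lit 137) (nat_lit 293) (@Lb.fm (nat_lit 9) t2210)))))))))))
noncomputable def l9256 : Lb := (@Lb.d (nat_lit 0) (nat_lit 528) (nat_lit 585) (@Lb.g g9 (@Lb.g g10 (@Lb.g g7 (@Lb.r r1448 (@Lb.r r1130 (@Lb.r r1049 (@Lb.d (nat_lit 618) (nat_lit 68) (nat_lit 74) (@Lb.t (@Lb.fm (nat_lit 9) t2153))))))))))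
noncomputable def l9257 : Lb := (@Lb.d (nat_lit 129) (nat_lit 514) (nat_lit 130) (@Lb.g g8 (@Lb.g g9 (@Lb.g g10 (@Lb.g g11 (@Lb.r r342 (@Lb.r r663 (@Lb.r r2657 (@Lb.r r2584 (@Lb.d (nat_lit 168) (nat_lit 9) (nat_lit 517) (@Lb.fm (nat_lit 9) t2285)))))))))))
noncomputable def l9258 : Lb := (@Lb.d (nat_lit 8) (nat_lit 258) (nat_lit 132) (@Lb.g g9 (@Lb.g g10 (@Lb.g g7 (@Lb.r r386 (@Lb.r r2196 (@Lb.r r1193 (@Lb.d (nat_lit 546) (nat_lit 138) (nat_lit 10) (@Lb.t (@Lb.fp (nat_lit 9) t40))))))))))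
noncomputable def l9259 : Lb := (@Lb.d (nat_lit 8) (nat_lit 514) (nat_lit 66) (@Lb.g g9 (@Lb.g g10 (@Lb.g g7 (@Lb.r r386 (@Lb.r r2196 (@Lb.r r1193 (@Lb.d (nat_lit 546) (nat_lit 138) (nat_lit 10) (@Lb.t (@Lb.fp (nat_lit 9) t40))))))))))
noncomputable def l9260 : Lb := (@Lb.d (nat_lit 0) (nat_lit 264) (nat_lit 130) (@Lb.g g9 (@Lb.g g10 (@Lb.g g11 (@Lb.r r2451 (@Lb.r r1681 (@Lb.r r1114 (@Lb.r r1096 (@Lb.d (nat_lit 257) (nat_lit 1) (nat_lit 133) (@Lb.t (@Lb.fp (nat_lit 9) t1355)))))))))))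
noncomputable def l9261 : Lb := (@Lb.r r323 (@Lb.d (nat_lit 36) (nat_lit 2) (nat_lit 5) (@Lb.g g8 (@Lb.g g9 (@Lb.g g6 (@Lb.r r2347 (@Lb.r r2457 (@Lb.r r1412 (@Lb.d (nat_lit 105) (nat_lit 1) (nat_lit 257) (@Lb.t (@Lb.fp (nat_lit 9) t1900)))))))))))
noncomputable def l9262 : Lb := (@Lb.d (nat_lit 0) (nat_lit 8) (nat_lit 130) (@Lb.g g9 (@Lb.g g10 (@Lb.g g11 (@Lb.r r1347 (@Lb.r r418 (@Lb.r r2213 (@Lb.r r24 (@Lb.d (nat_lit 257) (nat_lit 5) (nat_lit 594) (@Lb.t (@Lb.fp (nat_lit 9) t1162)))))))))))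
noncomputable def l9263 : Lb := (@Lb.d (nat_lit 324) (nat_lit 322) (nat_lit 416) (@Lb.r r395 (@Lb.r r328 (@Lb.r r662 (@Lb.g g7 (@Lb.g g9 (@Lb.d (nat_lit 68) (nat_lit 152) (nat_lit 0) (@Lb.r r98 (@Lb.fp (nat_lit 3) t1756)))))))))
noncomputable def l9264 : Lb := (@Lb.d (nat_lit 37) (nat_lit 420) (nat_lit 601) (@Lb.r r101 (@Lb.r r24 (@Lb.r r323 (@Lb.g g7 (@Lb.g g6 (@Lb.d (nat_lit 0) (nat_lit 4) (nat_lit 65) (@Lb.fm (nat_lit 3) t742))))))))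
noncomputable def l9265 : Lb := (@Lb.d (nat_lit 1) (nat_lit 266) (nat_lit 128) (@Lb.g g4 (@Lb.g g9 (@Lb.g g11 (@Lb.r r2450 (@Lb.r r2659 (@Lb.r r1633 (@Lb.d (nat_lit 9) (nat_lit 152) (nat_lit 514) (@Lb.t (@Lb.fm (nat_lit 9) t844))))))))))
noncomputable def l9266 : Lb := (@Lb.r r275 (@Lb.d (nat_lit 129) (nat_lit 512) (nat_lit 2) (@Lb.g g8 (@Lb.g g9 (@Lb.g g10 (@Lb.r r610 (@Lb.r r583 (@Lb.r r2345 (@Lb.r r264 (@Lb.d (nat_lit 130) (nat_lit 130) (nat_lit 144) (@Lb.t (@Lb.fp (nat_lit 9) t2286))))))))))))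
noncomputable def l9267 : Lb := (@Lb.d (nat_lit 425) (nat_lit 662) (nat_lit 353) (@Lb.r r2200 (@Lb.r r545 (@Lb.r r362 (@Lb.g g11 (@Lb.g g5 (@Lb.g g4 (@Lb.d (nat_lit 89) (nat_lit 34) (nat_lit 576) (@Lb.r r602 (@Lb.t (@Lb.fm (nat_lit 9) t2287)))))))))))
noncomputable def l9268 : Lb := (@Lb.r r275 (@Lb.d (nat_lit 2) (nat_lit 512) (nat_lit 2) (@Lb.g g8 (@Lb.g g9 (@Lb.g g10 (@Lb.r r2666 (@Lb.r r2664 (@Lb.r r2585 (@Lb.r r2579 (@Lb.d (nat_lit 258) (nat_lit 64) (nat_lit 0) (@Lb.t (@Lb.fm (nat_lit 9) t854))))))))))))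
noncomputable def l9269 : Lb := (@Lb.d (nat_lit 1) (nat_lit 522) (nat_lit 128) (@Lb.g g4 (@Lb.g g9 (@Lb.g g11 (@Lb.r r2450 (@Lb.r r2659 (@Lb.r r1633 (@Lb.d (nat_lit 8) (nat_lit 152) (nat_lit 514) (@Lb.t (@Lb.fm (nat_lit 9) t844))))))))))
noncomputable def l9270 : Lb := (@Lb.r r20 (@Lb.d (nat_lit 0) (nat_lit 517) (nat_lit 74) (@Lb.g g9 (@Lb.g g10 (@Lb.g g11 (@Lb.r r2691 (@Lb.r r1442 (@Lb.r r1313 (@Lb.d (nat_lit 10) (nat_lit 146) (nat_lit 680) (@Lb.t (@Lb.fp (nat_lit 9) t2288)))))))))))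
noncomputable def l9271 : Lb := (@Lb.d (nat_lit 649) (nat_lit 400) (nat_lit 384) (@Lb.r r289 (@Lb.r r279 (@Lb.r r584 (@Lb.r r166 (@Lb.g g7 (@Lb.g g6 (@Lb.g g5 (@Lb.d (nat_lit 0) (nat_lit 5) (nat_lit 132) (@Lb.t (@Lb.fm (nat_lit 9) t2289)))))))))))
noncomputable def l9272 : Lb := (@Lb.g g7 (@Lb.d (nat_lit 1) (nat_lit 512) (nat_lit 0) (@Lb.t (@Lb.fm (nat_lit 3) t2))))
noncomputable def l9273 : Lb := (@Lb.d (nat_lit 549) (nat_lit 393) (nat_lit 17) (@Lb.r r24 (@Lb.r r1414 (@Lb.r r2395 (@Lb.g g7 (@Lb.g g6 (@Lb.g g5 (@Lb.d (nat_lit 4) (nat_lit 6) (nat_lit 65) (@Lb.t (@Lb.fp (nat_lit 9) t1053))))))))))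
noncomputable def l9274 : Lb := (@Lb.d (nat_lit 130) (nat_lit 4) (nat_lit 128) (@Lb.g g8 (@Lb.g g9 (@Lb.g g10 (@Lb.g g11 (@Lb.r r1706 (@Lb.r r1411 (@Lb.r r1177 (@Lb.r r1156 (@Lb.d (nat_lit 297) (nat_lit 89) (nat_lit 665) (@Lb.fm (nat_lit 9) t606)))))))))))
noncomputable def l9275 : Lb := (@Lb.d (nat_lit 554) (nat_lit 424) (nat_lit 166) (@Lb.r r1621 (@Lb.r r2344 (@Lb.r r1442 (@Lb.g g11 (@Lb.g g6 (@Lb.g g5 (@Lb.d (nat_lit 0) (nat_lit 33) (nat_lit 389) (@Lb.t (@Lb.fm (nat_lit 9) t2290))))))))))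
noncomputable def l9276 : Lb := (@Lb.d (nat_lit 649) (nat_lit 656) (nat_lit 384) (@Lb.r r289 (@Lb.r r279 (@Lb.r r584 (@Lb.r r166 (@Lb.g g7 (@Lb.g g6 (@Lb.g g5 (@Lb.d (nat_lit 0) (nat_lit 5) (nat_lit 66) (@Lb.t (@Lb.fm (nat_lit 9) t1935)))))))))))
noncomputable def l9277 : Lb := (@Lb.d (nat_lit 580) (nat_lit 0) (nat_lit 0) (@Lb.r r289 (@Lb.r r2567 (@Lb.r r1368 (@Lb.r r2710 (@Lb.g g6 (@Lb.g g5 (@Lb.d (nat_lit 0) (nat_lit 5) (nat_lit 2) (@Lb.r r387 (@Lb.fm (nat_lit 3) t2291))))))))))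
noncomputable def l9278 : Lb := (@Lb.r r20 (@Lb.r r275 (@Lb.d (nat_lit 0) (nat_lit 512) (nat_lit 2) (@Lb.g g9 (@Lb.g g10 (@Lb.r r675 (@Lb.r r386 (@Lb.r r609 (@Lb.d (nat_lit 10) (nat_lit 90) (nat_lit 261) (@Lb.fp (nat_lit 3) t2292))))))))))
noncomputable def l9279 : Lb := (@Lb.d (nat_lit 128) (nat_lit 32) (nat_lit 136) (@Lb.g g11 (@Lb.r r420 (@Lb.r r2469 (@Lb.r r1446 (@Lb.r r347 (@Lb.d (nat_lit 289) (nat_lit 20) (nat_lit 646) (@Lb.t (@Lb.fp (nat_lit 3) t748)))))))))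
noncomputable def l9280 : Lb := (@Lb.r r275 (@Lb.d (nat_lit 2) (nat_lit 0) (nat_lit 2) (@Lb.g g8 (@Lb.g g9 (@Lb.g g10 (@Lb.r r683 (@Lb.r r386 (@Lb.r r617 (@Lb.r r36 (@Lb.d (nat_lit 106) (nat_lit 66) (nat_lit 261) (@Lb.t (@Lb.fp (nat_lit 9) t2293))))))))))))
noncomputable def l9281 : Lb := (@Lb.r r20 (@Lb.r r275 (@Lb.d (nat_lit 0) (nat_lit 256) (nat_lit 2) (@Lb.g g9 (@Lb.g g10 (@Lb.r r675 (@Lb.r r386 (@Lb.r r609 (@Lb.d (nat_lit 8) (nat_lit 90) (nat_lit 261) (@Lb.fp (nat_lit 3) t2292))))))))))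
noncomputable def l9282 : Lb := (@Lb.r r82 (@Lb.d (nat_lit 641) (nat_lit 258) (nat_lit 136) (@Lb.g g4 (@Lb.g g9 (@Lb.g g11 (@Lb.r r613 (@Lb.r r2450 (@Lb.r r1635 (@Lb.d (nat_lit 544) (nat_lit 88) (nat_lit 545) (@Lb.t (@Lb.fm (nat_lit 9) t328)))))))))))
noncomputable def l9283 : Lb := (@Lb.d (nat_lit 582) (nat_lit 513) (nat_lit 418) (@Lb.r r20 (@Lb.r r1321 (@Lb.r r595 (@Lb.g g6 (@Lb.g g5 (@Lb.d (nat_lit 0) (nat_lit 17) (nat_lit 33) (@Lb.r r387 (@Lb.fm (nat_lit 3) t1952)))))))))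
noncomputable def l9284 : Lb := (@Lb.d (nat_lit 33) (nat_lit 514) (nat_lit 2) (@Lb.g g8 (@Lb.g g9 (@Lb.g g10 (@Lb.g g11 (@Lb.r r2691 (@Lb.r r596 (@Lb.r r666 (@Lb.r r85 (@Lb.r r164 (@Lb.d (nat_lit 144) (nat_lit 97) (nat_lit 586) (@Lb.fp (nat_lit 9) t1059))))))))))))
noncomputable def l9285 : Lb := (@Lb.d (nat_lit 33) (nat_lit 2) (nat_lit 1) (@Lb.g g8 (@Lb.g g9 (@Lb.g g10 (@Lb.g g11 (@Lb.r r1667 (@Lb.r r596 (@Lb.r r666 (@Lb.r r2133 (@Lb.r r1188 (@Lb.d (nat_lit 145) (nat_lit 33) (nat_lit 74) (@Lb.fp (nat_lit 9) t1059))))))))))))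
noncomputable def l9286 : Lb := (@Lb.d (nat_lit 38) (nat_lit 256) (nat_lit 129) (@Lb.g g8 (@Lb.g g9 (@Lb.g g6 (@Lb.g g11 (@Lb.r r529 (@Lb.r r407 (@Lb.r r612 (@Lb.d (nat_lit 404) (nat_lit 25) (nat_lit 168) (@Lb.fm (nat_lit 9) t1237))))))))))
noncomputable def l9287 : Lb := (@Lb.d (nat_lit 33) (nat_lit 514) (nat_lit 137) (@Lb.g g8 (@Lb.g g9 (@Lb.g g10 (@Lb.g g11 (@Lb.r r2691 (@Lb.r r596 (@Lb.r r666 (@Lb.r r85 (@Lb.r r164 (@Lb.d (nat_lit 145) (nat_lit 97) (nat_lit 586) (@Lb.fp (nat_lit 9) t1059))))))))))))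
noncomputable def l9288 : Lb := (@Lb.d (nat_lit 134) (nat_lit 256) (nat_lit 4) (@Lb.g g8 (@Lb.g g9 (@Lb.g g10 (@Lb.g g11 (@Lb.r r683 (@Lb.r r618 (@Lb.r r537 (@Lb.r r536 (@Lb.d (nat_lit 73) (nat_lit 169) (nat_lit 129) (@Lb.fp (nat_lit 9) t218)))))))))))
noncomputable def l9289 : Lb := (@Lb.d (nat_lit 138) (nat_lit 336) (nat_lit 384) (@Lb.r r1096 (@Lb.r r1686 (@Lb.r r2435 (@Lb.g g6 (@Lb.g g5 (@Lb.d (nat_lit 0) (nat_lit 17) (nat_lit 6) (@Lb.fm (nat_lit 3) t2294))))))))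
noncomputable def l9290 : Lb := (@Lb.r r584 (@Lb.r r363 (@Lb.r r2646 (@Lb.r r409 (@Lb.r r132 (@Lb.d (nat_lit 272) (nat_lit 328) (nat_lit 16) (@Lb.fm (nat_lit 1) t2295)))))))
noncomputable def l9291 : Lb := (@Lb.d (nat_lit 0) (nat_lit 2) (nat_lit 0) (@Lb.g g9 (@Lb.r r2339 (@Lb.r r2146 (@Lb.r r97 (@Lb.d (nat_lit 5) (nat_lit 6) (nat_lit 17) (@Lb.t (@Lb.fm (nat_lit 3) t1676))))))))
noncomputable def l9292 : Lb := (@Lb.d (nat_lit 2) (nat_lit 2) (nat_lit 162) (@Lb.g g8 (@Lb.g g9 (@Lb.g g6 (@Lb.g g11 (@Lb.r r612 (@Lb.r r2311 (@Lb.r r97 (@Lb.r r1540 (@Lb.d (nat_lit 282) (nat_lit 102) (nat_lit 672) (@Lb.fp (nat_lit 9) t669)))))))))))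
noncomputable def l9293 : Lb := (@Lb.d (nat_lit 2) (nat_lit 2) (nat_lit 162) (@Lb.g g8 (@Lb.g g9 (@Lb.g g6 (@Lb.g g11 (@Lb.r r612 (@Lb.r r2311 (@Lb.r r97 (@Lb.r r1540 (@Lb.d (nat_lit 274) (nat_lit 100) (nat_lit 672) (@Lb.fp (nat_lit 9) t296)))))))))))
noncomputable def l9294 : Lb := (@Lb.d (nat_lit 517) (nat_lit 106) (nat_lit 9) (@Lb.r r410 (@Lb.r r148 (@Lb.r r2327 (@Lb.r r553 (@Lb.g g7 (@Lb.g g6 (@Lb.g g5 (@Lb.d (nat_lit 16) (nat_lit 18) (nat_lit 72) (@Lb.t (@Lb.fp (nat_lit 9) t506)))))))))))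
noncomputable def l9295 : Lb := (@Lb.d (nat_lit 138) (nat_lit 680) (nat_lit 601) (@Lb.r r1681 (@Lb.r r2459 (@Lb.r r2392 (@Lb.r r1702 (@Lb.g g7 (@Lb.g g6 (@Lb.g g5 (@Lb.d (nat_lit 4) (nat_lit 17) (nat_lit 129) (@Lb.t (@Lb.fp (nat_lit 9) t2296)))))))))))
noncomputable def l9296 : Lb := (@Lb.r r323 (@Lb.d (nat_lit 0) (nat_lit 266) (nat_lit 1) (@Lb.g g9 (@Lb.g g10 (@Lb.r r1371 (@Lb.r r1124 (@Lb.r r2458 (@Lb.r r409 (@Lb.d (nat_lit 616) (nat_lit 90) (nat_lit 85) (@Lb.fp (nat_lit 3) t1244))))))))))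
noncomputable def l9297 : Lb := (@Lb.d (nat_lit 330) (nat_lit 532) (nat_lit 273) (@Lb.r r1300 (@Lb.r r2450 (@Lb.r r1121 (@Lb.r r2315 (@Lb.g g6 (@Lb.g g4 (@Lb.d (nat_lit 65) (nat_lit 4) (nat_lit 1) (@Lb.r r25 (@Lb.fm (nat_lit 3) t2))))))))))
noncomputable def l9298 : Lb := (@Lb.r r1045 (@Lb.d (nat_lit 261) (nat_lit 8) (nat_lit 130) (@Lb.g g4 (@Lb.g g10 (@Lb.g g11 (@Lb.r r387 (@Lb.d (nat_lit 8) (nat_lit 32) (nat_lit 386) (@Lb.t (@Lb.fp (nat_lit 9) t51)))))))))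
noncomputable def l9299 : Lb := (@Lb.d (nat_lit 8) (nat_lit 256) (nat_lit 130) (@Lb.g g9 (@Lb.g g10 (@Lb.g g11 (@Lb.r r1638 (@Lb.r r2452 (@Lb.r r1707 (@Lb.r r1697 (@Lb.d (nat_lit 2) (nat_lit 154) (nat_lit 553) (@Lb.t (@Lb.fm (nat_lit 9) t51)))))))))))
noncomputable def l9300 : Lb := (@Lb.d (nat_lit 0) (nat_lit 512) (nat_lit 74) (@Lb.g g10 (@Lb.g g11 (@Lb.r r2707 (@Lb.r r2626 (@Lb.d (nat_lit 0) (nat_lit 150) (nat_lit 424) (@Lb.fp (nat_lit 3) t119)))))))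
noncomputable def l9301 : Lb := (@Lb.r r82 (@Lb.d (nat_lit 2) (nat_lit 2) (nat_lit 128) (@Lb.g g8 (@Lb.g g9 (@Lb.g g11 (@Lb.r r299 (@Lb.r r89 (@Lb.r r98 (@Lb.d (nat_lit 33) (nat_lit 10) (nat_lit 136) (@Lb.t (@Lb.fm (nat_lit 9) t5)))))))))))
noncomputable def l9302 : Lb := (@Lb.r r263 (@Lb.d (nat_lit 38) (nat_lit 512) (nat_lit 1) (@Lb.g g8 (@Lb.g g9 (@Lb.g g10 (@Lb.r r683 (@Lb.r r168 (@Lb.r r1130 (@Lb.r r1553 (@Lb.d (nat_lit 662) (nat_lit 89) (nat_lit 89) (@Lb.t (@Lb.fm (nat_lit 9) t47))))))))))))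
noncomputable def l9303 : Lb := (@Lb.r r279 (@Lb.d (nat_lit 38) (nat_lit 266) (nat_lit 1) (@Lb.g g8 (@Lb.g g9 (@Lb.g g10 (@Lb.r r675 (@Lb.r r1194 (@Lb.r r657 (@Lb.r r1156 (@Lb.d (nat_lit 645) (nat_lit 21) (nat_lit 352) (@Lb.t (@Lb.fm (nat_lit 9) t754))))))))))))
noncomputable def l9304 : Lb := (@Lb.r r323 (@Lb.d (nat_lit 2) (nat_lit 4) (nat_lit 42) (@Lb.g g8 (@Lb.g g9 (@Lb.g g6 (@Lb.r r387 (@Lb.r r1313 (@Lb.d (nat_lit 9) (nat_lit 97) (nat_lit 16) (@Lb.t (@Lb.fm (nat_lit 9) t2297))))))))))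
noncomputable def l9305 : Lb := (@Lb.r r82 (@Lb.d (nat_lit 34) (nat_lit 258) (nat_lit 128) (@Lb.g g8 (@Lb.g g9 (@Lb.g g11 (@Lb.r r363 (@Lb.r r582 (@Lb.r r408 (@Lb.d (nat_lit 149) (nat_lit 22) (nat_lit 89) (@Lb.t (@Lb.fp (nat_lit 9) t2298)))))))))))
noncomputable def l9306 : Lb := (@Lb.d (nat_lit 34) (nat_lit 256) (nat_lit 128) (@Lb.g g8 (@Lb.g g11 (@Lb.r r2665 (@Lb.r r363 (@Lb.r r582 (@Lb.r r2180 (@Lb.d (nat_lit 278) (nat_lit 160) (nat_lit 129) (@Lb.fp (nat_lit 3) t2299)))))))))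
noncomputable def l9307 : Lb := (@Lb.d (nat_lit 144) (nat_lit 5) (nat_lit 1) (@Lb.r r100 (@Lb.r r615 (@Lb.r r426 (@Lb.g g6 (@Lb.g g9 (@Lb.g g4 (@Lb.d (nat_lit 18) (nat_lit 25) (nat_lit 0) (@Lb.r r295 (@Lb.t (@Lb.fm (nat_lit 9) t381)))))))))))
noncomputable def l9308 : Lb := (@Lb.d (nat_lit 1) (nat_lit 514) (nat_lit 130) (@Lb.g g4 (@Lb.g g9 (@Lb.g g10 (@Lb.g g11 (@Lb.r r1443 (@Lb.r r386 (@Lb.r r97 (@Lb.d (nat_lit 9) (nat_lit 84) (nat_lit 326) (@Lb.fm (nat_lit 9) t2300))))))))))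
noncomputable def l9309 : Lb := (@Lb.r r81 (@Lb.r r323 (@Lb.d (nat_lit 10) (nat_lit 0) (nat_lit 33) (@Lb.g g8 (@Lb.g g6 (@Lb.r r2347 (@Lb.r r149 (@Lb.r r1704 (@Lb.d (nat_lit 102) (nat_lit 22) (nat_lit 537) (@Lb.fm (nat_lit 3) t2301))))))))))
noncomputable def l9310 : Lb := (@Lb.r r263 (@Lb.d (nat_lit 2) (nat_lit 514) (nat_lit 2) (@Lb.g g8 (@Lb.g g9 (@Lb.g g10 (@Lb.r r1371 (@Lb.r r386 (@Lb.r r97 (@Lb.r r1048 (@Lb.d (nat_lit 10) (nat_lit 42) (nat_lit 329) (@Lb.t (@Lb.fp (nat_lit 9) t2130))))))))))))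
noncomputable def l9311 : Lb := (@Lb.d (nat_lit 128) (nat_lit 512) (nat_lit 644) (@Lb.g g9 (@Lb.g g11 (@Lb.r r2178 (@Lb.r r1557 (@Lb.r r1416 (@Lb.d (nat_lit 528) (nat_lit 0) (nat_lit 128) (@Lb.fm (nat_lit 3) t1743))))))))
noncomputable def l9312 : Lb := (@Lb.d (nat_lit 1) (nat_lit 258) (nat_lit 130) (@Lb.g g8 (@Lb.g g9 (@Lb.g g10 (@Lb.g g11 (@Lb.r r1443 (@Lb.r r297 (@Lb.r r104 (@Lb.r r70 (@Lb.r r132 (@Lb.d (nat_lit 545) (nat_lit 5) (nat_lit 345) (@Lb.fp (nat_lit 9) t88))))))))))))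
noncomputable def l9313 : Lb := (@Lb.d (nat_lit 133) (nat_lit 256) (nat_lit 130) (@Lb.g g8 (@Lb.g g9 (@Lb.g g10 (@Lb.g g11 (@Lb.r r683 (@Lb.r r2410 (@Lb.r r2329 (@Lb.r r536 (@Lb.d (nat_lit 74) (nat_lit 89) (nat_lit 681) (@Lb.fp (nat_lit 9) t211)))))))))))
noncomputable def l9314 : Lb := (@Lb.d (nat_lit 0) (nat_lit 0) (nat_lit 130) (@Lb.g g9 (@Lb.g g10 (@Lb.g g11 (@Lb.r r1307 (@Lb.r r2709 (@Lb.r r2646 (@Lb.r r1416 (@Lb.d (nat_lit 520) (nat_lit 6) (nat_lit 0) (@Lb.t (@Lb.fp (nat_lit 9) t528)))))))))))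
noncomputable def l9315 : Lb := (@Lb.d (nat_lit 610) (nat_lit 88) (nat_lit 32) (@Lb.r r1608 (@Lb.r r402 (@Lb.r r85 (@Lb.g g8 (@Lb.d (nat_lit 5) (nat_lit 0) (nat_lit 0) (@Lb.t (@Lb.fp (nat_lit 3) t2302))))))))
noncomputable def l9316 : Lb := (@Lb.d (nat_lit 0) (nat_lit 64) (nat_lit 170) (@Lb.r r2663 (@Lb.r r2597 (@Lb.r r1368 (@Lb.r r2214 (@Lb.g g5 (@Lb.d (nat_lit 0) (nat_lit 1) (nat_lit 0) (@Lb.t (@Lb.fm (nat_lit 3) t299)))))))))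
noncomputable def l9317 : Lb := (@Lb.r r82 (@Lb.d (nat_lit 2) (nat_lit 514) (nat_lit 128) (@Lb.g g8 (@Lb.g g9 (@Lb.g g11 (@Lb.r r299 (@Lb.r r594 (@Lb.r r289 (@Lb.r r24 (@Lb.d (nat_lit 610) (nat_lit 80) (nat_lit 96) (@Lb.t (@Lb.fm (nat_lit 9) t2303))))))))))))
noncomputable def l9318 : Lb := (@Lb.r r82 (@Lb.d (nat_lit 38) (nat_lit 256) (nat_lit 128) (@Lb.g g8 (@Lb.g g9 (@Lb.g g11 (@Lb.r r363 (@Lb.r r582 (@Lb.r r677 (@Lb.r r408 (@Lb.d (nat_lit 133) (nat_lit 154) (nat_lit 130) (@Lb.t (@Lb.fm (nat_lit 9) t1))))))))))))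
noncomputable def l9319 : Lb := (@Lb.d (nat_lit 612) (nat_lit 422) (nat_lit 340) (@Lb.r r2452 (@Lb.r r97 (@Lb.r r1355 (@Lb.g g10 (@Lb.g g4 (@Lb.d (nat_lit 65) (nat_lit 8) (nat_lit 5) (@Lb.r r387 (@Lb.r r25 (@Lb.fm (nat_lit 3) t1))))))))))
noncomputable def l9320 : Lb := (@Lb.r r20 (@Lb.d (nat_lit 160) (nat_lit 514) (nat_lit 130) (@Lb.g g9 (@Lb.g g6 (@Lb.g g11 (@Lb.r r264 (@Lb.r r407 (@Lb.r r529 (@Lb.d (nat_lit 40) (nat_lit 20) (nat_lit 132) (@Lb.t (@Lb.fm (nat_lit 9) t51)))))))))))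
noncomputable def l9321 : Lb := (@Lb.d (nat_lit 10) (nat_lit 417) (nat_lit 512) (@Lb.r r24 (@Lb.g g7 (@Lb.g g10 (@Lb.d (nat_lit 0) (nat_lit 24) (nat_lit 322) (@Lb.fm (nat_lit 3) t944))))))
noncomputable def l9322 : Lb := (@Lb.r r323 (@Lb.d (nat_lit 8) (nat_lit 514) (nat_lit 1) (@Lb.g g8 (@Lb.g g9 (@Lb.g g6 (@Lb.r r387 (@Lb.r r2145 (@Lb.r r24 (@Lb.d (nat_lit 9) (nat_lit 73) (nat_lit 34) (@Lb.t (@Lb.fp (nat_lit 9) t319)))))))))))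
noncomputable def l9323 : Lb := (@Lb.r r20 (@Lb.d (nat_lit 160) (nat_lit 2) (nat_lit 130) (@Lb.g g9 (@Lb.g g6 (@Lb.g g11 (@Lb.r r264 (@Lb.r r407 (@Lb.r r529 (@Lb.d (nat_lit 42) (nat_lit 20) (nat_lit 132) (@Lb.t (@Lb.fm (nat_lit 9) t51)))))))))))
noncomputable def l9324 : Lb := (@Lb.r r323 (@Lb.d (nat_lit 9) (nat_lit 546) (nat_lit 0) (@Lb.g g8 (@Lb.g g9 (@Lb.g g10 (@Lb.r r1450 (@Lb.r r1444 (@Lb.r r2331 (@Lb.r r1637 (@Lb.d (nat_lit 410) (nat_lit 154) (nat_lit 613) (@Lb.t (@Lb.fm (nat_lit 9) t228))))))))))))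
noncomputable def l9325 : Lb := (@Lb.d (nat_lit 0) (nat_lit 258) (nat_lit 130) (@Lb.g g9 (@Lb.g g10 (@Lb.g g11 (@Lb.r r680 (@Lb.r r683 (@Lb.r r2666 (@Lb.r r2585 (@Lb.d (nat_lit 394) (nat_lit 169) (nat_lit 97) (@Lb.t (@Lb.fm (nat_lit 9) t430)))))))))))
noncomputable def l9326 : Lb := (@Lb.r r82 (@Lb.d (nat_lit 32) (nat_lit 577) (nat_lit 128) (@Lb.g g8 (@Lb.g g9 (@Lb.g g11 (@Lb.r r363 (@Lb.r r582 (@Lb.r r388 (@Lb.d (nat_lit 598) (nat_lit 2) (nat_lit 169) (@Lb.t (@Lb.fm (nat_lit 9) t819)))))))))))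
noncomputable def l9327 : Lb := (@Lb.r r323 (@Lb.d (nat_lit 17) (nat_lit 516) (nat_lit 34) (@Lb.g g8 (@Lb.g g6 (@Lb.r r2577 (@Lb.r r407 (@Lb.r r584 (@Lb.d (nat_lit 64) (nat_lit 0) (nat_lit 1) (@Lb.fm (nat_lit 3) t2304)))))))))
noncomputable def l9328 : Lb := (@Lb.d (nat_lit 0) (nat_lit 66) (nat_lit 130) (@Lb.g g8 (@Lb.g g9 (@Lb.g g10 (@Lb.g g11 (@Lb.r r2475 (@Lb.r r420 (@Lb.r r102 (@Lb.r r132 (@Lb.d (nat_lit 297) (nat_lit 8) (nat_lit 136) (@Lb.fp (nat_lit 9) t1242)))))))))))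
noncomputable def l9329 : Lb := (@Lb.r r82 (@Lb.d (nat_lit 32) (nat_lit 514) (nat_lit 128) (@Lb.g g8 (@Lb.g g9 (@Lb.g g11 (@Lb.r r363 (@Lb.r r582 (@Lb.r r408 (@Lb.d (nat_lit 149) (nat_lit 22) (nat_lit 153) (@Lb.t (@Lb.fp (nat_lit 9) t573)))))))))))
noncomputable def l9330 : Lb := (@Lb.d (nat_lit 0) (nat_lit 258) (nat_lit 130) (@Lb.g g8 (@Lb.g g9 (@Lb.g g10 (@Lb.g g11 (@Lb.r r24 (@Lb.r r2709 (@Lb.r r1622 (@Lb.r r1623 (@Lb.r r1188 (@Lb.d (nat_lit 137) (nat_lit 2) (nat_lit 338) (@Lb.fp (nat_lit 9) t1261))))))))))))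
noncomputable def l9331 : Lb := (@Lb.r r323 (@Lb.d (nat_lit 8) (nat_lit 264) (nat_lit 26) (@Lb.g g8 (@Lb.g g10 (@Lb.r r2577 (@Lb.r r2459 (@Lb.r r2436 (@Lb.d (nat_lit 342) (nat_lit 69) (nat_lit 681) (@Lb.fm (nat_lit 3) t741)))))))))
noncomputable def l9332 : Lb := (@Lb.d (nat_lit 513) (nat_lit 133) (nat_lit 97) (@Lb.r r8 (@Lb.r r2073 (@Lb.r r402 (@Lb.g g7 (@Lb.d (nat_lit 128) (nat_lit 0) (nat_lit 580) (@Lb.t (@Lb.fm (nat_lit 3) t2305))))))))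
noncomputable def l9333 : Lb := (@Lb.r r2641 (@Lb.r r600 (@Lb.r r603 (@Lb.r r2406 (@Lb.r r516 (@Lb.d (nat_lit 256) (nat_lit 512) (nat_lit 96) (@Lb.fp (nat_lit 1) t1261)))))))
noncomputable def l9334 : Lb := (@Lb.d (nat_lit 1) (nat_lit 34) (nat_lit 66) (@Lb.g g8 (@Lb.g g9 (@Lb.g g10 (@Lb.g g11 (@Lb.r r2714 (@Lb.r r2467 (@Lb.r r2212 (@Lb.r r2085 (@Lb.d (nat_lit 2) (nat_lit 145) (nat_lit 614) (@Lb.fp (nat_lit 9) t2306)))))))))))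
noncomputable def l9335 : Lb := (@Lb.d (nat_lit 0) (nat_lit 548) (nat_lit 128) (@Lb.g g9 (@Lb.g g10 (@Lb.g g11 (@Lb.r r387 (@Lb.r r145 (@Lb.r r1426 (@Lb.d (nat_lit 0) (nat_lit 149) (nat_lit 665) (@Lb.t (@Lb.fp (nat_lit 9) t749))))))))))
noncomputable def l9336 : Lb := (@Lb.d (nat_lit 0) (nat_lit 36) (nat_lit 128) (@Lb.g g4 (@Lb.g g9 (@Lb.g g10 (@Lb.g g11 (@Lb.r r387 (@Lb.r r145 (@Lb.r r1426 (@Lb.d (nat_lit 1) (nat_lit 149) (nat_lit 665) (@Lb.fp (nat_lit 9) t749))))))))))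
noncomputable def l9337 : Lb := (@Lb.d (nat_lit 2) (nat_lit 514) (nat_lit 0) (@Lb.g g8 (@Lb.g g9 (@Lb.r r2585 (@Lb.d (nat_lit 644) (nat_lit 169) (nat_lit 642) (@Lb.fm (nat_lit 3) t1410))))))
noncomputable def l9338 : Lb := (@Lb.r r82 (@Lb.d (nat_lit 0) (nat_lit 34) (nat_lit 128) (@Lb.g g4 (@Lb.g g9 (@Lb.g g11 (@Lb.r r2467 (@Lb.r r386 (@Lb.d (nat_lit 0) (nat_lit 85) (nat_lit 290) (@Lb.t (@Lb.fm (nat_lit 9) t2307))))))))))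
noncomputable def l9339 : Lb := (@Lb.d (nat_lit 2) (nat_lit 512) (nat_lit 66) (@Lb.g g8 (@Lb.g g9 (@Lb.g g10 (@Lb.g g7 (@Lb.r r386 (@Lb.r r101 (@Lb.r r24 (@Lb.d (nat_lit 354) (nat_lit 0) (nat_lit 585) (@Lb.fp (nat_lit 9) t166))))))))))
noncomputable def l9340 : Lb := (@Lb.r r322 (@Lb.d (nat_lit 1) (nat_lit 0) (nat_lit 640) (@Lb.g g4 (@Lb.g g9 (@Lb.g g11 (@Lb.r r1426 (@Lb.r r1633 (@Lb.d (nat_lit 1) (nat_lit 128) (nat_lit 384) (@Lb.t (@Lb.fp (nat_lit 9) t751))))))))))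
noncomputable def l9341 : Lb := (@Lb.r r323 (@Lb.d (nat_lit 2) (nat_lit 546) (nat_lit 18) (@Lb.g g8 (@Lb.g g9 (@Lb.g g10 (@Lb.r r595 (@Lb.r r1321 (@Lb.r r36 (@Lb.d (nat_lit 394) (nat_lit 2) (nat_lit 593) (@Lb.t (@Lb.fm (nat_lit 9) t1024)))))))))))
noncomputable def l9342 : Lb := (@Lb.d (nat_lit 2) (nat_lit 2) (nat_lit 0) (@Lb.g g8 (@Lb.g g9 (@Lb.r r2585 (@Lb.d (nat_lit 649) (nat_lit 160) (nat_lit 640) (@Lb.fm (nat_lit 3) t2308))))))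
noncomputable def l9343 : Lb := (@Lb.d (nat_lit 2) (nat_lit 530) (nat_lit 1) (@Lb.g g8 (@Lb.g g9 (@Lb.g g10 (@Lb.r r1623 (@Lb.r r1366 (@Lb.r r2217 (@Lb.d (nat_lit 516) (nat_lit 20) (nat_lit 150) (@Lb.t (@Lb.fm (nat_lit 9) t791))))))))))
noncomputable def l9344 : Lb := (@Lb.d (nat_lit 0) (nat_lit 2) (nat_lit 130) (@Lb.g g8 (@Lb.g g9 (@Lb.g g10 (@Lb.g g11 (@Lb.r r610 (@Lb.r r404 (@Lb.r r619 (@Lb.r r97 (@Lb.r r516 (@Lb.d (nat_lit 2) (nat_lit 9) (nat_lit 70) (@Lb.fp (nat_lit 9) t71))))))))))))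
noncomputable def l9345 : Lb := (@Lb.d (nat_lit 0) (nat_lit 514) (nat_lit 130) (@Lb.g g8 (@Lb.g g9 (@Lb.g g10 (@Lb.g g11 (@Lb.r r610 (@Lb.r r404 (@Lb.r r619 (@Lb.r r97 (@Lb.r r516 (@Lb.d (nat_lit 2) (nat_lit 2) (nat_lit 68) (@Lb.fp (nat_lit 9) t71))))))))))))
noncomputable def l9346 : Lb := (@Lb.r r323 (@Lb.d (nat_lit 2) (nat_lit 522) (nat_lit 36) (@Lb.g g8 (@Lb.g g9 (@Lb.g g6 (@Lb.r r579 (@Lb.r r1321 (@Lb.r r36 (@Lb.d (nat_lit 649) (nat_lit 2) (nat_lit 577) (@Lb.t (@Lb.fp (nat_lit 9) t68)))))))))))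
noncomputable def l9347 : Lb := (@Lb.d (nat_lit 662) (nat_lit 97) (nat_lit 74) (@Lb.r r1044 (@Lb.r r617 (@Lb.r r1410 (@Lb.g g11 (@Lb.g g6 (@Lb.g g5 (@Lb.g g4 (@Lb.d (nat_lit 146) (nat_lit 1) (nat_lit 326) (@Lb.fm (nat_lit 9) t2309))))))))))
noncomputable def l9348 : Lb := (@Lb.d (nat_lit 146) (nat_lit 2) (nat_lit 128) (@Lb.g g8 (@Lb.g g9 (@Lb.g g10 (@Lb.g g11 (@Lb.r r1706 (@Lb.r r1411 (@Lb.r r36 (@Lb.r r1045 (@Lb.r r2084 (@Lb.d (nat_lit 353) (nat_lit 66) (nat_lit 346) (@Lb.fm (nat_lit 9) t3))))))))))))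
noncomputable def l9349 : Lb := (@Lb.r r323 (@Lb.d (nat_lit 2) (nat_lit 0) (nat_lit 2) (@Lb.g g8 (@Lb.g g10 (@Lb.r r74 (@Lb.r r584 (@Lb.r r619 (@Lb.r r609 (@Lb.d (nat_lit 10) (nat_lit 129) (nat_lit 68) (@Lb.fp (nat_lit 3) t71))))))))))
noncomputable def l9350 : Lb := (@Lb.r r323 (@Lb.d (nat_lit 2) (nat_lit 290) (nat_lit 2) (@Lb.g g8 (@Lb.g g9 (@Lb.g g10 (@Lb.r r599 (@Lb.r r74 (@Lb.r r296 (@Lb.r r409 (@Lb.d (nat_lit 149) (nat_lit 164) (nat_lit 137) (@Lb.t (@Lb.fm (nat_lit 9) t119))))))))))))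
noncomputable def l9351 : Lb := (@Lb.d (nat_lit 6) (nat_lit 266) (nat_lit 73) (@Lb.g g8 (@Lb.g g9 (@Lb.g g10 (@Lb.g g11 (@Lb.r r2698 (@Lb.r r2451 (@Lb.r r1553 (@Lb.r r2200 (@Lb.d (nat_lit 98) (nat_lit 148) (nat_lit 164) (@Lb.fp (nat_lit 9) t2310)))))))))))
noncomputable def l9352 : Lb := (@Lb.d (nat_lit 662) (nat_lit 97) (nat_lit 420) (@Lb.r r1044 (@Lb.r r617 (@Lb.g g7 (@Lb.g g10 (@Lb.g g5 (@Lb.g g4 (@Lb.d (nat_lit 66) (nat_lit 1) (nat_lit 676) (@Lb.fp (nat_lit 9) t1182)))))))))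
noncomputable def l9353 : Lb := (@Lb.d (nat_lit 342) (nat_lit 129) (nat_lit 676) (@Lb.r r532 (@Lb.r r1129 (@Lb.g g7 (@Lb.g g10 (@Lb.g g5 (@Lb.g g4 (@Lb.d (nat_lit 65) (nat_lit 1) (nat_lit 610) (@Lb.fp (nat_lit 9) t1001)))))))))
noncomputable def l9354 : Lb := (@Lb.r r322 (@Lb.d (nat_lit 2) (nat_lit 34) (nat_lit 516) (@Lb.g g8 (@Lb.g g9 (@Lb.g g7 (@Lb.r r2438 (@Lb.r r2152 (@Lb.r r2073 (@Lb.d (nat_lit 280) (nat_lit 136) (nat_lit 96) (@Lb.t (@Lb.fp (nat_lit 9) t2311)))))))))))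
noncomputable def l9355 : Lb := (@Lb.d (nat_lit 2) (nat_lit 8) (nat_lit 128) (@Lb.g g8 (@Lb.g g10 (@Lb.g g11 (@Lb.r r1579 (@Lb.r r81 (@Lb.r r162 (@Lb.r r1608 (@Lb.d (nat_lit 97) (nat_lit 4) (nat_lit 536) (@Lb.t (@Lb.fp (nat_lit 9) t1165)))))))))))
noncomputable def l9356 : Lb := (@Lb.d (nat_lit 586) (nat_lit 329) (nat_lit 330) (@Lb.r r1192 (@Lb.r r665 (@Lb.r r1367 (@Lb.g g6 (@Lb.g g5 (@Lb.g g4 (@Lb.d (nat_lit 134) (nat_lit 9) (nat_lit 32) (@Lb.r r387 (@Lb.t (@Lb.fm (nat_lit 9) t2312)))))))))))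
noncomputable def l9357 : Lb := (@Lb.r r21 (@Lb.d (nat_lit 145) (nat_lit 512) (nat_lit 74) (@Lb.g g8 (@Lb.g g10 (@Lb.g g11 (@Lb.r r1691 (@Lb.r r409 (@Lb.r r90 (@Lb.r r1176 (@Lb.d (nat_lit 2) (nat_lit 129) (nat_lit 33) (@Lb.t (@Lb.fm (nat_lit 9) t2313))))))))))))
noncomputable def l9358 : Lb := (@Lb.r r21 (@Lb.d (nat_lit 64) (nat_lit 256) (nat_lit 2) (@Lb.g g8 (@Lb.g g10 (@Lb.g g11 (@Lb.r r2407 (@Lb.r r2393 (@Lb.r r1190 (@Lb.r r2132 (@Lb.d (nat_lit 532) (nat_lit 6) (nat_lit 33) (@Lb.t (@Lb.fp (nat_lit 9) t254))))))))))))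
noncomputable def l9359 : Lb := (@Lb.r r20 (@Lb.r r275 (@Lb.d (nat_lit 0) (nat_lit 513) (nat_lit 2) (@Lb.g g5 (@Lb.g g10 (@Lb.r r1686 (@Lb.r r2404 (@Lb.r r1563 (@Lb.d (nat_lit 1) (nat_lit 89) (nat_lit 2) (@Lb.fp (nat_lit 3) t254))))))))))
noncomputable def l9360 : Lb := (@Lb.d (nat_lit 16) (nat_lit 0) (nat_lit 138) (@Lb.g g8 (@Lb.g g10 (@Lb.g g11 (@Lb.r r1602 (@Lb.r r132 (@Lb.d (nat_lit 32) (nat_lit 0) (nat_lit 585) (@Lb.t (@Lb.fm (nat_lit 9) t2314)))))))))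
noncomputable def l9361 : Lb := (@Lb.d (nat_lit 98) (nat_lit 0) (nat_lit 330) (@Lb.r r2312 (@Lb.r r1559 (@Lb.r r1361 (@Lb.g g6 (@Lb.g g5 (@Lb.g g4 (@Lb.d (nat_lit 38) (nat_lit 6) (nat_lit 1) (@Lb.r r387 (@Lb.t (@Lb.fp (nat_lit 9) t144)))))))))))
noncomputable def l9362 : Lb := (@Lb.r r20 (@Lb.r r275 (@Lb.d (nat_lit 0) (nat_lit 1) (nat_lit 2) (@Lb.g g5 (@Lb.g g10 (@Lb.r r1686 (@Lb.r r2404 (@Lb.r r1563 (@Lb.d (nat_lit 2) (nat_lit 82) (nat_lit 0) (@Lb.fp (nat_lit 3) t144))))))))))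
noncomputable def l9363 : Lb := (@Lb.d (nat_lit 16) (nat_lit 360) (nat_lit 641) (@Lb.r r84 (@Lb.r r2410 (@Lb.r r1299 (@Lb.g g7 (@Lb.g g5 (@Lb.g g4 (@Lb.d (nat_lit 145) (nat_lit 81) (nat_lit 128) (@Lb.r r102 (@Lb.t (@Lb.fp (nat_lit 9) t144)))))))))))
noncomputable def l9364 : Lb := (@Lb.d (nat_lit 32) (nat_lit 10) (nat_lit 97) (@Lb.r r134 (@Lb.r r328 (@Lb.r r279 (@Lb.r r657 (@Lb.g g7 (@Lb.g g5 (@Lb.g g4 (@Lb.d (nat_lit 1) (nat_lit 1) (nat_lit 64) (@Lb.t (@Lb.fp (nat_lit 9) t2315)))))))))))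
noncomputable def l9365 : Lb := (@Lb.r r322 (@Lb.d (nat_lit 0) (nat_lit 264) (nat_lit 576) (@Lb.g g9 (@Lb.g g7 (@Lb.r r602 (@Lb.r r425 (@Lb.r r24 (@Lb.d (nat_lit 410) (nat_lit 17) (nat_lit 10) (@Lb.fp (nat_lit 3) t1087)))))))))
noncomputable def l9366 : Lb := (@Lb.d (nat_lit 138) (nat_lit 8) (nat_lit 0) (@Lb.g g8 (@Lb.g g10 (@Lb.r r295 (@Lb.r r1121 (@Lb.r r406 (@Lb.r r1604 (@Lb.d (nat_lit 661) (nat_lit 128) (nat_lit 602) (@Lb.fm (nat_lit 3) t322)))))))))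
noncomputable def l9367 : Lb := (@Lb.d (nat_lit 658) (nat_lit 340) (nat_lit 649) (@Lb.r r1185 (@Lb.r r594 (@Lb.r r1383 (@Lb.r r516 (@Lb.g g7 (@Lb.g g5 (@Lb.d (nat_lit 68) (nat_lit 1) (nat_lit 64) (@Lb.fp (nat_lit 3) t2316)))))))))
noncomputable def l9368 : Lb := (@Lb.d (nat_lit 2) (nat_lit 102) (nat_lit 129) (@Lb.r r1633 (@Lb.r r2659 (@Lb.r r2450 (@Lb.g g7 (@Lb.g g8 (@Lb.d (nat_lit 2) (nat_lit 0) (nat_lit 64) (@Lb.fm (nat_lit 3) t1399))))))))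
noncomputable def l9369 : Lb := (@Lb.d (nat_lit 4) (nat_lit 276) (nat_lit 8) (@Lb.r r657 (@Lb.r r666 (@Lb.r r420 (@Lb.r r347 (@Lb.g g7 (@Lb.g g6 (@Lb.g g5 (@Lb.d (nat_lit 8) (nat_lit 1) (nat_lit 134) (@Lb.t (@Lb.fm (nat_lit 9) t74)))))))))))
noncomputable def l9370 : Lb := (@Lb.r r323 (@Lb.d (nat_lit 136) (nat_lit 8) (nat_lit 34) (@Lb.g g8 (@Lb.g g10 (@Lb.r r615 (@Lb.r r533 (@Lb.r r2340 (@Lb.d (nat_lit 97) (nat_lit 96) (nat_lit 673) (@Lb.fp (nat_lit 3) t221)))))))))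
noncomputable def l9371 : Lb := (@Lb.d (nat_lit 2) (nat_lit 8) (nat_lit 130) (@Lb.g g8 (@Lb.g g9 (@Lb.g g10 (@Lb.g g11 (@Lb.r r1635 (@Lb.r r610 (@Lb.r r2641 (@Lb.d (nat_lit 2) (nat_lit 36) (nat_lit 154) (@Lb.fm (nat_lit 9) t1397))))))))))
noncomputable def l9372 : Lb := (@Lb.d (nat_lit 0) (nat_lit 550) (nat_lit 64) (@Lb.g g9 (@Lb.g g10 (@Lb.g g11 (@Lb.r r683 (@Lb.r r610 (@Lb.r r617 (@Lb.r r8 (@Lb.d (nat_lit 644) (nat_lit 20) (nat_lit 680) (@Lb.t (@Lb.fp (nat_lit 9) t1876)))))))))))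
noncomputable def l9373 : Lb := (@Lb.d (nat_lit 2) (nat_lit 520) (nat_lit 130) (@Lb.g g8 (@Lb.g g9 (@Lb.g g10 (@Lb.g g11 (@Lb.r r1635 (@Lb.r r610 (@Lb.r r2641 (@Lb.d (nat_lit 1) (nat_lit 34) (nat_lit 153) (@Lb.fm (nat_lit 9) t1397))))))))))
noncomputable def l9374 : Lb := (@Lb.r r82 (@Lb.d (nat_lit 4) (nat_lit 34) (nat_lit 64) (@Lb.g g8 (@Lb.g g9 (@Lb.g g11 (@Lb.r r1571 (@Lb.r r2152 (@Lb.r r2438 (@Lb.r r145 (@Lb.d (nat_lit 0) (nat_lit 82) (nat_lit 152) (@Lb.t (@Lb.fp (nat_lit 9) t2317))))))))))))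
noncomputable def l9375 : Lb := (@Lb.d (nat_lit 162) (nat_lit 522) (nat_lit 72) (@Lb.r r586 (@Lb.r r363 (@Lb.r r357 (@Lb.g g7 (@Lb.g g6 (@Lb.g g4 (@Lb.d (nat_lit 1) (nat_lit 4) (nat_lit 133) (@Lb.t (@Lb.fm (nat_lit 9) t2318))))))))))
noncomputable def l9376 : Lb := (@Lb.d (nat_lit 96) (nat_lit 74) (nat_lit 66) (@Lb.r r24 (@Lb.r r273 (@Lb.r r338 (@Lb.r r679 (@Lb.g g7 (@Lb.g g6 (@Lb.g g5 (@Lb.d (nat_lit 0) (nat_lit 18) (nat_lit 8) (@Lb.t (@Lb.fp (nat_lit 9) t714)))))))))))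
noncomputable def l9377 : Lb := (@Lb.d (nat_lit 0) (nat_lit 512) (nat_lit 130) (@Lb.g g9 (@Lb.g g10 (@Lb.g g11 (@Lb.r r614 (@Lb.r r404 (@Lb.r r619 (@Lb.r r609 (@Lb.d (nat_lit 2) (nat_lit 25) (nat_lit 66) (@Lb.t (@Lb.fm (nat_lit 9) t71)))))))))))
noncomputable def l9378 : Lb := (@Lb.d (nat_lit 8) (nat_lit 2) (nat_lit 130) (@Lb.g g9 (@Lb.g g10 (@Lb.g g11 (@Lb.r r614 (@Lb.r r404 (@Lb.r r619 (@Lb.r r609 (@Lb.d (nat_lit 2) (nat_lit 25) (nat_lit 2) (@Lb.t (@Lb.fm (nat_lit 9) t71)))))))))))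
noncomputable def l9379 : Lb := (@Lb.d (nat_lit 0) (nat_lit 256) (nat_lit 73) (@Lb.g g8 (@Lb.g g9 (@Lb.g g10 (@Lb.g g11 (@Lb.r r586 (@Lb.r r580 (@Lb.r r295 (@Lb.r r289 (@Lb.r r36 (@Lb.d (nat_lit 4) (nat_lit 1) (nat_lit 0) (@Lb.fm (nat_lit 9) t51))))))))))))
noncomputable def l9380 : Lb := (@Lb.d (nat_lit 2) (nat_lit 2) (nat_lit 130) (@Lb.g g8 (@Lb.g g9 (@Lb.g g10 (@Lb.g g11 (@Lb.r r2411 (@Lb.r r386 (@Lb.r r97 (@Lb.r r24 (@Lb.d (nat_lit 534) (nat_lit 6) (nat_lit 136) (@Lb.fm (nat_lit 9) t61)))))))))))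
noncomputable def l9381 : Lb := (@Lb.d (nat_lit 6) (nat_lit 678) (nat_lit 294) (@Lb.r r21 (@Lb.r r1366 (@Lb.r r683 (@Lb.g g7 (@Lb.g g6 (@Lb.g g5 (@Lb.g g4 (@Lb.d (nat_lit 1) (nat_lit 8) (nat_lit 69) (@Lb.fm (nat_lit 9) t40))))))))))
noncomputable def l9382 : Lb := (@Lb.d (nat_lit 2) (nat_lit 258) (nat_lit 130) (@Lb.g g8 (@Lb.g g9 (@Lb.g g10 (@Lb.g g11 (@Lb.r r2411 (@Lb.r r386 (@Lb.r r97 (@Lb.r r24 (@Lb.d (nat_lit 533) (nat_lit 6) (nat_lit 136) (@Lb.fm (nat_lit 9) t61)))))))))))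
noncomputable def l9383 : Lb := (@Lb.g g8 (@Lb.g g9 (@Lb.g g6 (@Lb.r r1315 (@Lb.r r600 (@Lb.r r70 (@Lb.r r289 (@Lb.r r1156 (@Lb.d (nat_lit 0) (nat_lit 9) (nat_lit 2) (@Lb.t (@Lb.fp (nat_lit 9) t51)))))))))))
noncomputable def l9384 : Lb := (@Lb.d (nat_lit 1) (nat_lit 0) (nat_lit 130) (@Lb.g g8 (@Lb.g g10 (@Lb.g g11 (@Lb.r r548 (@Lb.r r263 (@Lb.r r161 (@Lb.r r98 (@Lb.r r516 (@Lb.d (nat_lit 530) (nat_lit 8) (nat_lit 152) (@Lb.t (@Lb.fp (nat_lit 9) t420))))))))))))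
noncomputable def l9385 : Lb := (@Lb.d (nat_lit 1) (nat_lit 2) (nat_lit 2) (@Lb.g g8 (@Lb.g g9 (@Lb.g g10 (@Lb.g g11 (@Lb.r r427 (@Lb.r r145 (@Lb.r r356 (@Lb.r r154 (@Lb.r r132 (@Lb.d (nat_lit 9) (nat_lit 2) (nat_lit 154) (@Lb.fm (nat_lit 9) t221))))))))))))
noncomputable def l9386 : Lb := (@Lb.r r82 (@Lb.d (nat_lit 34) (nat_lit 522) (nat_lit 128) (@Lb.g g8 (@Lb.g g9 (@Lb.g g11 (@Lb.r r402 (@Lb.r r359 (@Lb.r r660 (@Lb.r r169 (@Lb.d (nat_lit 538) (nat_lit 25) (nat_lit 154) (@Lb.t (@Lb.fm (nat_lit 9) t2319))))))))))))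
noncomputable def l9387 : Lb := (@Lb.d (nat_lit 0) (nat_lit 546) (nat_lit 1) (@Lb.g g9 (@Lb.g g10 (@Lb.g g11 (@Lb.r r658 (@Lb.r r1377 (@Lb.r r1427 (@Lb.d (nat_lit 0) (nat_lit 72) (nat_lit 658) (@Lb.t (@Lb.fm (nat_lit 9) t2320))))))))))
noncomputable def l9388 : Lb := (@Lb.d (nat_lit 2) (nat_lit 2) (nat_lit 137) (@Lb.g g8 (@Lb.g g9 (@Lb.g g10 (@Lb.g g11 (@Lb.r r683 (@Lb.r r2666 (@Lb.r r25 (@Lb.d (nat_lit 4) (nat_lit 25) (nat_lit 537) (@Lb.fm (nat_lit 9) t591))))))))))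
noncomputable def l9389 : Lb := (@Lb.d (nat_lit 516) (nat_lit 256) (nat_lit 74) (@Lb.r r1096 (@Lb.r r2150 (@Lb.r r2385 (@Lb.r r1379 (@Lb.g g7 (@Lb.g g6 (@Lb.g g5 (@Lb.d (nat_lit 0) (nat_lit 4) (nat_lit 134) (@Lb.t (@Lb.fm (nat_lit 9) t220)))))))))))
noncomputable def l9390 : Lb := (@Lb.d (nat_lit 0) (nat_lit 512) (nat_lit 129) (@Lb.g g8 (@Lb.g g9 (@Lb.g g10 (@Lb.g g11 (@Lb.r r1634 (@Lb.r r2659 (@Lb.r r101 (@Lb.r r2584 (@Lb.d (nat_lit 73) (nat_lit 2) (nat_lit 384) (@Lb.fm (nat_lit 9) t2118)))))))))))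
noncomputable def l9391 : Lb := (@Lb.d (nat_lit 681) (nat_lit 649) (nat_lit 342) (@Lb.r r1604 (@Lb.r r535 (@Lb.r r353 (@Lb.g g7 (@Lb.g g6 (@Lb.g g4 (@Lb.d (nat_lit 5) (nat_lit 16) (nat_lit 165) (@Lb.t (@Lb.fp (nat_lit 9) t927))))))))))
noncomputable def l9392 : Lb := (@Lb.r r82 (@Lb.d (nat_lit 128) (nat_lit 289) (nat_lit 64) (@Lb.g g8 (@Lb.g g9 (@Lb.g g11 (@Lb.r r1450 (@Lb.r r2593 (@Lb.r r2692 (@Lb.r r1447 (@Lb.d (nat_lit 520) (nat_lit 74) (nat_lit 5) (@Lb.t (@Lb.fm (nat_lit 9) t328))))))))))))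
noncomputable def l9393 : Lb := (@Lb.d (nat_lit 160) (nat_lit 264) (nat_lit 74) (@Lb.g g10 (@Lb.g g11 (@Lb.r r105 (@Lb.r r280 (@Lb.r r1623 (@Lb.r r346 (@Lb.d (nat_lit 149) (nat_lit 144) (nat_lit 164) (@Lb.fp (nat_lit 3) t2321)))))))))
noncomputable def l9394 : Lb := (@Lb.d (nat_lit 128) (nat_lit 514) (nat_lit 73) (@Lb.g g8 (@Lb.g g9 (@Lb.g g10 (@Lb.g g11 (@Lb.r r683 (@Lb.r r2410 (@Lb.r r552 (@Lb.r r2089 (@Lb.r r2084 (@Lb.d (nat_lit 406) (nat_lit 9) (nat_lit 5) (@Lb.fm (nat_lit 9) t2322))))))))))))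
noncomputable def l9395 : Lb := (@Lb.d (nat_lit 544) (nat_lit 522) (nat_lit 34) (@Lb.r r1416 (@Lb.r r145 (@Lb.r r82 (@Lb.r r2327 (@Lb.g g9 (@Lb.d (nat_lit 0) (nat_lit 5) (nat_lit 0) (@Lb.t (@Lb.fm (nat_lit 3) t2323)))))))))
noncomputable def l9396 : Lb := (@Lb.d (nat_lit 128) (nat_lit 258) (nat_lit 73) (@Lb.g g8 (@Lb.g g9 (@Lb.g g10 (@Lb.g g11 (@Lb.r r683 (@Lb.r r2410 (@Lb.r r552 (@Lb.r r2089 (@Lb.r r2084 (@Lb.d (nat_lit 404) (nat_lit 72) (nat_lit 5) (@Lb.fm (nat_lit 9) t2324))))))))))))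
noncomputable def l9397 : Lb := (@Lb.d (nat_lit 136) (nat_lit 516) (nat_lit 128) (@Lb.g g9 (@Lb.g g10 (@Lb.g g11 (@Lb.r r618 (@Lb.r r24 (@Lb.r r405 (@Lb.r r611 (@Lb.d (nat_lit 138) (nat_lit 25) (nat_lit 146) (@Lb.t (@Lb.fm (nat_lit 9) t1298)))))))))))
noncomputable def l9398 : Lb := (@Lb.d (nat_lit 618) (nat_lit 602) (nat_lit 536) (@Lb.r r1384 (@Lb.r r297 (@Lb.r r418 (@Lb.g g11 (@Lb.g g5 (@Lb.g g4 (@Lb.d (nat_lit 18) (nat_lit 18) (nat_lit 392) (@Lb.r r578 (@Lb.t (@Lb.fp (nat_lit 9) t2325)))))))))))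
noncomputable def l9399 : Lb := (@Lb.d (nat_lit 321) (nat_lit 256) (nat_lit 512) (@Lb.r r24 (@Lb.r r101 (@Lb.r r1362 (@Lb.g g7 (@Lb.g g6 (@Lb.g g5 (@Lb.d (nat_lit 0) (nat_lit 0) (nat_lit 134) (@Lb.t (@Lb.fp (nat_lit 9) t2326))))))))))
noncomputable def l9400 : Lb := (@Lb.g g6 (@Lb.r r24 (@Lb.r r101 (@Lb.r r402 (@Lb.d (nat_lit 0) (nat_lit 512) (nat_lit 66) (@Lb.t (@Lb.fp (nat_lit 3) t311)))))))
noncomputable def l9401 : Lb := (@Lb.r r21 (@Lb.d (nat_lit 41) (nat_lit 0) (nat_lit 8) (@Lb.g g8 (@Lb.g g6 (@Lb.r r273 (@Lb.r r423 (@Lb.r r600 (@Lb.d (nat_lit 89) (nat_lit 38) (nat_lit 138) (@Lb.fm (nat_lit 3) t1074)))))))))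
noncomputable def l9402 : Lb := (@Lb.r r24 (@Lb.d (nat_lit 320) (nat_lit 352) (nat_lit 256) (@Lb.fm (nat_lit 1) t2327)))
noncomputable def l9403 : Lb := (@Lb.r r82 (@Lb.d (nat_lit 0) (nat_lit 2) (nat_lit 128) (@Lb.g g8 (@Lb.g g9 (@Lb.g g11 (@Lb.r r1315 (@Lb.r r613 (@Lb.r r146 (@Lb.r r1608 (@Lb.d (nat_lit 514) (nat_lit 0) (nat_lit 106) (@Lb.t (@Lb.fp (nat_lit 9) t2328))))))))))))
noncomputable def l9404 : Lb := (@Lb.d (nat_lit 0) (nat_lit 0) (nat_lit 73) (@Lb.g g10 (@Lb.g g11 (@Lb.r r2691 (@Lb.r r2709 (@Lb.r r1686 (@Lb.r r1096 (@Lb.d (nat_lit 337) (nat_lit 160) (nat_lit 645) (@Lb.fp (nat_lit 3) t421)))))))))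
noncomputable def l9405 : Lb := (@Lb.d (nat_lit 257) (nat_lit 66) (nat_lit 1) (@Lb.r r1045 (@Lb.r r2148 (@Lb.r r402 (@Lb.r r2411 (@Lb.g g6 (@Lb.g g4 (@Lb.fp (nat_lit 3) t2329))))))))
noncomputable def l9406 : Lb := (@Lb.d (nat_lit 22) (nat_lit 512) (nat_lit 34) (@Lb.r r24 (@Lb.r r386 (@Lb.r r2651 (@Lb.g g7 (@Lb.g g9 (@Lb.d (nat_lit 0) (nat_lit 34) (nat_lit 64) (@Lb.r r98 (@Lb.fm (nat_lit 3) t2330)))))))))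
noncomputable def l9407 : Lb := (@Lb.r r21 (@Lb.d (nat_lit 2) (nat_lit 260) (nat_lit 130) (@Lb.g g8 (@Lb.g g6 (@Lb.g g11 (@Lb.r r2635 (@Lb.r r97 (@Lb.r r2632 (@Lb.d (nat_lit 614) (nat_lit 129) (nat_lit 392) (@Lb.t (@Lb.fm (nat_lit 9) t1082)))))))))))
noncomputable def l9408 : Lb := (@Lb.r r21 (@Lb.d (nat_lit 657) (nat_lit 0) (nat_lit 128) (@Lb.g g4 (@Lb.g g10 (@Lb.g g11 (@Lb.r r662 (@Lb.r r391 (@Lb.r r97 (@Lb.d (nat_lit 356) (nat_lit 152) (nat_lit 154) (@Lb.t (@Lb.fp (nat_lit 9) t2331)))))))))))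
noncomputable def l9409 : Lb := (@Lb.r r323 (@Lb.d (nat_lit 2) (nat_lit 290) (nat_lit 0) (@Lb.g g8 (@Lb.g g9 (@Lb.g g10 (@Lb.r r2474 (@Lb.r r2468 (@Lb.r r1307 (@Lb.r r2661 (@Lb.d (nat_lit 666) (nat_lit 90) (nat_lit 325) (@Lb.t (@Lb.fm (nat_lit 9) t228))))))))))))
noncomputable def l9410 : Lb := (@Lb.r r21 (@Lb.d (nat_lit 145) (nat_lit 256) (nat_lit 74) (@Lb.g g8 (@Lb.g g10 (@Lb.g g11 (@Lb.r r1691 (@Lb.r r346 (@Lb.r r1556 (@Lb.r r25 (@Lb.d (nat_lit 96) (nat_lit 162) (nat_lit 533) (@Lb.t (@Lb.fp (nat_lit 9) t283))))))))))))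
noncomputable def l9411 : Lb := (@Lb.d (nat_lit 289) (nat_lit 512) (nat_lit 34) (@Lb.r r24 (@Lb.r r2197 (@Lb.r r386 (@Lb.r r2403 (@Lb.g g7 (@Lb.g g5 (@Lb.d (nat_lit 0) (nat_lit 34) (nat_lit 64) (@Lb.r r98 (@Lb.fm (nat_lit 3) t475))))))))))
noncomputable def l9412 : Lb := (@Lb.d (nat_lit 8) (nat_lit 512) (nat_lit 130) (@Lb.g g8 (@Lb.g g10 (@Lb.g g11 (@Lb.r r1685 (@Lb.r r2455 (@Lb.r r1608 (@Lb.r r1126 (@Lb.d (nat_lit 277) (nat_lit 21) (nat_lit 384) (@Lb.t (@Lb.fp (nat_lit 9) t185)))))))))))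
noncomputable def l9413 : Lb := (@Lb.d (nat_lit 530) (nat_lit 517) (nat_lit 68) (@Lb.r r1094 (@Lb.r r2440 (@Lb.r r535 (@Lb.r r1361 (@Lb.g g6 (@Lb.g g5 (@Lb.g g4 (@Lb.d (nat_lit 1) (nat_lit 1) (nat_lit 1) (@Lb.t (@Lb.fp (nat_lit 9) t150)))))))))))
noncomputable def l9414 : Lb := (@Lb.r r82 (@Lb.d (nat_lit 4) (nat_lit 0) (nat_lit 584) (@Lb.g g8 (@Lb.g g9 (@Lb.g g7 (@Lb.r r361 (@Lb.r r1174 (@Lb.r r1636 (@Lb.d (nat_lit 137) (nat_lit 154) (nat_lit 553) (@Lb.t (@Lb.fp (nat_lit 9) t2332)))))))))))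
noncomputable def l9415 : Lb := (@Lb.d (nat_lit 264) (nat_lit 552) (nat_lit 105) (@Lb.r r2217 (@Lb.r r2666 (@Lb.r r1623 (@Lb.g g6 (@Lb.g g5 (@Lb.g g4 (@Lb.d (nat_lit 1) (nat_lit 33) (nat_lit 2) (@Lb.t (@Lb.fp (nat_lit 9) t2333))))))))))
noncomputable def l9416 : Lb := (@Lb.d (nat_lit 6) (nat_lit 0) (nat_lit 130) (@Lb.g g8 (@Lb.g g9 (@Lb.g g10 (@Lb.g g11 (@Lb.r r582 (@Lb.r r388 (@Lb.r r1323 (@Lb.r r1313 (@Lb.d (nat_lit 2) (nat_lit 132) (nat_lit 257) (@Lb.fm (nat_lit 9) t51)))))))))))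
noncomputable def l9417 : Lb := (@Lb.d (nat_lit 2) (nat_lit 545) (nat_lit 132) (@Lb.g g8 (@Lb.g g9 (@Lb.g g10 (@Lb.g g11 (@Lb.r r665 (@Lb.r r1683 (@Lb.r r1618 (@Lb.r r145 (@Lb.d (nat_lit 385) (nat_lit 160) (nat_lit 358) (@Lb.fm (nat_lit 9) t233)))))))))))
noncomputable def l9418 : Lb := (@Lb.r r21 (@Lb.d (nat_lit 2) (nat_lit 512) (nat_lit 128) (@Lb.g g8 (@Lb.g g10 (@Lb.g g11 (@Lb.r r387 (@Lb.r r2580 (@Lb.r r25 (@Lb.d (nat_lit 328) (nat_lit 162) (nat_lit 393) (@Lb.t (@Lb.fm (nat_lit 9) t1135)))))))))))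
noncomputable def l9419 : Lb := (@Lb.r r593 (@Lb.d (nat_lit 10) (nat_lit 0) (nat_lit 645) (@Lb.g g8 (@Lb.g g10 (@Lb.g g11 (@Lb.r r2401 (@Lb.r r1366 (@Lb.r r404 (@Lb.d (nat_lit 401) (nat_lit 25) (nat_lit 537) (@Lb.t (@Lb.fp (nat_lit 9) t957)))))))))))
noncomputable def l9420 : Lb := (@Lb.d (nat_lit 2) (nat_lit 8) (nat_lit 73) (@Lb.g g8 (@Lb.g g9 (@Lb.g g10 (@Lb.g g11 (@Lb.r r2646 (@Lb.r r420 (@Lb.r r283 (@Lb.r r2585 (@Lb.r r1044 (@Lb.d (nat_lit 353) (nat_lit 1) (nat_lit 601) (@Lb.fp (nat_lit 9) t957))))))))))))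
noncomputable def l9421 : Lb := (@Lb.r r21 (@Lb.d (nat_lit 2) (nat_lit 0) (nat_lit 128) (@Lb.g g8 (@Lb.g g10 (@Lb.g g11 (@Lb.r r387 (@Lb.r r2580 (@Lb.r r25 (@Lb.d (nat_lit 330) (nat_lit 162) (nat_lit 393) (@Lb.t (@Lb.fm (nat_lit 9) t2334)))))))))))
noncomputable def l9422 : Lb := (@Lb.d (nat_lit 0) (nat_lit 256) (nat_lit 73) (@Lb.g g10 (@Lb.g g11 (@Lb.r r2691 (@Lb.r r1638 (@Lb.r r2069 (@Lb.r r8 (@Lb.d (nat_lit 640) (nat_lit 37) (nat_lit 169) (@Lb.fm (nat_lit 3) t2335)))))))))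
noncomputable def l9423 : Lb := (@Lb.d (nat_lit 0) (nat_lit 512) (nat_lit 137) (@Lb.g g10 (@Lb.g g11 (@Lb.r r1671 (@Lb.r r1638 (@Lb.r r2069 (@Lb.r r8 (@Lb.d (nat_lit 664) (nat_lit 165) (nat_lit 9) (@Lb.fm (nat_lit 3) t2336)))))))))
noncomputable def l9424 : Lb := (@Lb.d (nat_lit 32) (nat_lit 8) (nat_lit 130) (@Lb.g g10 (@Lb.g g11 (@Lb.r r361 (@Lb.r r2711 (@Lb.r r1352 (@Lb.r r2374 (@Lb.d (nat_lit 601) (nat_lit 90) (nat_lit 677) (@Lb.fp (nat_lit 3) t633)))))))))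
noncomputable def l9425 : Lb := (@Lb.d (nat_lit 8) (nat_lit 9) (nat_lit 130) (@Lb.g g9 (@Lb.g g10 (@Lb.g g11 (@Lb.r r1447 (@Lb.r r1414 (@Lb.r r24 (@Lb.d (nat_lit 282) (nat_lit 70) (nat_lit 34) (@Lb.t (@Lb.fm (nat_lit 9) t2337))))))))))
noncomputable def l9426 : Lb := (@Lb.d (nat_lit 0) (nat_lit 512) (nat_lit 73) (@Lb.g g10 (@Lb.g g11 (@Lb.r r2691 (@Lb.r r1638 (@Lb.r r2069 (@Lb.r r8 (@Lb.d (nat_lit 640) (nat_lit 32) (nat_lit 168) (@Lb.fm (nat_lit 3) t2335)))))))))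
noncomputable def l9427 : Lb := (@Lb.d (nat_lit 608) (nat_lit 585) (nat_lit 608) (@Lb.r r1284 (@Lb.r r1297 (@Lb.r r1315 (@Lb.r r405 (@Lb.g g7 (@Lb.g g10 (@Lb.g g5 (@Lb.g g4 (@Lb.d (nat_lit 1) (nat_lit 1) (nat_lit 81) (@Lb.fm (nat_lit 9) t1724)))))))))))
noncomputable def l9428 : Lb := (@Lb.d (nat_lit 2) (nat_lit 265) (nat_lit 130) (@Lb.g g8 (@Lb.g g9 (@Lb.g g10 (@Lb.g g11 (@Lb.r r2713 (@Lb.r r2712 (@Lb.r r1419 (@Lb.r r1098 (@Lb.d (nat_lit 545) (nat_lit 105) (nat_lit 88) (@Lb.fm (nat_lit 9) t2338)))))))))))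
noncomputable def l9429 : Lb := (@Lb.d (nat_lit 394) (nat_lit 292) (nat_lit 104) (@Lb.r r427 (@Lb.r r360 (@Lb.r r2345 (@Lb.g g7 (@Lb.g g10 (@Lb.d (nat_lit 64) (nat_lit 20) (nat_lit 25) (@Lb.fp (nat_lit 3) t2339))))))))
noncomputable def l9430 : Lb := (@Lb.d (nat_lit 392) (nat_lit 548) (nat_lit 104) (@Lb.r r427 (@Lb.r r360 (@Lb.r r2345 (@Lb.g g7 (@Lb.g g10 (@Lb.d (nat_lit 64) (nat_lit 20) (nat_lit 82) (@Lb.fp (nat_lit 3) t631))))))))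
noncomputable def l9431 : Lb := (@Lb.d (nat_lit 128) (nat_lit 2) (nat_lit 128) (@Lb.g g9 (@Lb.g g11 (@Lb.r r545 (@Lb.r r344 (@Lb.r r679 (@Lb.r r134 (@Lb.d (nat_lit 5) (nat_lit 24) (nat_lit 5) (@Lb.fm (nat_lit 3) t40)))))))))
noncomputable def l9432 : Lb := (@Lb.d (nat_lit 8) (nat_lit 514) (nat_lit 130) (@Lb.g g9 (@Lb.g g10 (@Lb.g g11 (@Lb.r r419 (@Lb.r r98 (@Lb.r r24 (@Lb.r r101 (@Lb.d (nat_lit 21) (nat_lit 146) (nat_lit 390) (@Lb.t (@Lb.fm (nat_lit 9) t446)))))))))))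
noncomputable def l9433 : Lb := (@Lb.d (nat_lit 385) (nat_lit 401) (nat_lit 661) (@Lb.r r1371 (@Lb.r r1705 (@Lb.r r614 (@Lb.g g7 (@Lb.g g8 (@Lb.d (nat_lit 328) (nat_lit 0) (nat_lit 68) (@Lb.r r25 (@Lb.fm (nat_lit 3) t1572)))))))))
noncomputable def l9434 : Lb := (@Lb.d (nat_lit 8) (nat_lit 258) (nat_lit 130) (@Lb.g g9 (@Lb.g g10 (@Lb.g g11 (@Lb.r r419 (@Lb.r r98 (@Lb.r r24 (@Lb.r r101 (@Lb.d (nat_lit 21) (nat_lit 148) (nat_lit 388) (@Lb.t (@Lb.fm (nat_lit 9) t446)))))))))))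
noncomputable def l9435 : Lb := (@Lb.d (nat_lit 10) (nat_lit 2) (nat_lit 2) (@Lb.g g4 (@Lb.g g9 (@Lb.g g10 (@Lb.g g11 (@Lb.r r419 (@Lb.r r98 (@Lb.d (nat_lit 0) (nat_lit 9) (nat_lit 2) (@Lb.fm (nat_lit 9) t51)))))))))
noncomputable def l9436 : Lb := (@Lb.d (nat_lit 9) (nat_lit 518) (nat_lit 128) (@Lb.g g8 (@Lb.g g9 (@Lb.g g10 (@Lb.g g11 (@Lb.r r2443 (@Lb.r r660 (@Lb.r r2665 (@Lb.r r1110 (@Lb.r r2212 (@Lb.d (nat_lit 9) (nat_lit 166) (nat_lit 517) (@Lb.fm (nat_lit 9) t2340))))))))))))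
noncomputable def l9437 : Lb := (@Lb.d (nat_lit 32) (nat_lit 258) (nat_lit 130) (@Lb.g g9 (@Lb.g g10 (@Lb.g g11 (@Lb.r r2695 (@Lb.r r1352 (@Lb.r r614 (@Lb.r r97 (@Lb.d (nat_lit 133) (nat_lit 104) (nat_lit 404) (@Lb.t (@Lb.fp (nat_lit 9) t271)))))))))))
noncomputable def l9438 : Lb := (@Lb.d (nat_lit 128) (nat_lit 677) (nat_lit 64) (@Lb.g g8 (@Lb.g g5 (@Lb.g g10 (@Lb.g g11 (@Lb.r r2714 (@Lb.r r1419 (@Lb.r r1156 (@Lb.d (nat_lit 169) (nat_lit 0) (nat_lit 98) (@Lb.fp (nat_lit 9) t1534))))))))))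
noncomputable def l9439 : Lb := (@Lb.d (nat_lit 1) (nat_lit 512) (nat_lit 128) (@Lb.g g8 (@Lb.g g10 (@Lb.g g11 (@Lb.r r2443 (@Lb.r r2345 (@Lb.r r2468 (@Lb.r r134 (@Lb.d (nat_lit 41) (nat_lit 169) (nat_lit 613) (@Lb.t (@Lb.fm (nat_lit 9) t954)))))))))))
noncomputable def l9440 : Lb := (@Lb.r r275 (@Lb.d (nat_lit 9) (nat_lit 38) (nat_lit 0) (@Lb.g g8 (@Lb.g g5 (@Lb.g g10 (@Lb.r r1178 (@Lb.r r1668 (@Lb.r r1543 (@Lb.d (nat_lit 585) (nat_lit 0) (nat_lit 138) (@Lb.t (@Lb.fp (nat_lit 9) t74)))))))))))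
noncomputable def l9441 : Lb := (@Lb.g g4 (@Lb.r r273 (@Lb.r r551 (@Lb.r r340 (@Lb.r r170 (@Lb.r r153 (@Lb.d (nat_lit 538) (nat_lit 10) (nat_lit 18) (@Lb.t (@Lb.fm (nat_lit 3) t516)))))))))
noncomputable def l9442 : Lb := (@Lb.d (nat_lit 0) (nat_lit 512) (nat_lit 130) (@Lb.g g4 (@Lb.g g10 (@Lb.g g11 (@Lb.r r419 (@Lb.r r2449 (@Lb.r r1426 (@Lb.d (nat_lit 0) (nat_lit 25) (nat_lit 9) (@Lb.t (@Lb.fm (nat_lit 9) t2169))))))))))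
noncomputable def l9443 : Lb := (@Lb.d (nat_lit 405) (nat_lit 276) (nat_lit 128) (@Lb.r r405 (@Lb.r r2454 (@Lb.r r1124 (@Lb.g g11 (@Lb.g g5 (@Lb.d (nat_lit 68) (nat_lit 6) (nat_lit 512) (@Lb.fm (nat_lit 3) t188))))))))
noncomputable def l9444 : Lb := (@Lb.r r273 (@Lb.r r551 (@Lb.r r340 (@Lb.r r170 (@Lb.r r153 (@Lb.d (nat_lit 528) (nat_lit 520) (nat_lit 18) (@Lb.fp (nat_lit 1) t516)))))))
noncomputable def l9445 : Lb := (@Lb.g g4 (@Lb.r r273 (@Lb.r r551 (@Lb.r r340 (@Lb.r r170 (@Lb.r r153 (@Lb.d (nat_lit 528) (nat_lit 264) (nat_lit 84) (@Lb.t (@Lb.fm (nat_lit 3) t516)))))))))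
noncomputable def l9446 : Lb := (@Lb.g g4 (@Lb.r r273 (@Lb.r r551 (@Lb.r r340 (@Lb.r r170 (@Lb.r r153 (@Lb.d (nat_lit 528) (nat_lit 520) (nat_lit 18) (@Lb.t (@Lb.fm (nat_lit 3) t516)))))))))
noncomputable def l9447 : Lb := (@Lb.d (nat_lit 0) (nat_lit 34) (nat_lit 66) (@Lb.g g4 (@Lb.g g9 (@Lb.g g10 (@Lb.g g11 (@Lb.r r387 (@Lb.r r145 (@Lb.r r1426 (@Lb.d (nat_lit 0) (nat_lit 149) (nat_lit 665) (@Lb.fp (nat_lit 9) t2341))))))))))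
noncomputable def l9448 : Lb := (@Lb.d (nat_lit 646) (nat_lit 150) (nat_lit 354) (@Lb.r r1556 (@Lb.r r281 (@Lb.r r615 (@Lb.g g6 (@Lb.g g4 (@Lb.d (nat_lit 69) (nat_lit 4) (nat_lit 17) (@Lb.r r387 (@Lb.fp (nat_lit 3) t1738)))))))))
noncomputable def l9449 : Lb := (@Lb.d (nat_lit 36) (nat_lit 256) (nat_lit 129) (@Lb.g g8 (@Lb.g g9 (@Lb.g g10 (@Lb.g g11 (@Lb.r r2467 (@Lb.r r1065 (@Lb.r r2632 (@Lb.r r2150 (@Lb.d (nat_lit 533) (nat_lit 21) (nat_lit 680) (@Lb.fp (nat_lit 9) t2342)))))))))))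
noncomputable def l9450 : Lb := (@Lb.d (nat_lit 646) (nat_lit 662) (nat_lit 297) (@Lb.r r1556 (@Lb.r r281 (@Lb.r r615 (@Lb.g g6 (@Lb.g g4 (@Lb.d (nat_lit 68) (nat_lit 4) (nat_lit 17) (@Lb.r r387 (@Lb.fp (nat_lit 3) t1738)))))))))
noncomputable def l9451 : Lb := (@Lb.d (nat_lit 146) (nat_lit 2) (nat_lit 128) (@Lb.g g8 (@Lb.g g9 (@Lb.g g10 (@Lb.g g11 (@Lb.r r1706 (@Lb.r r1411 (@Lb.r r2201 (@Lb.r r2180 (@Lb.d (nat_lit 548) (nat_lit 89) (nat_lit 169) (@Lb.fm (nat_lit 9) t531)))))))))))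
noncomputable def l9452 : Lb := (@Lb.d (nat_lit 145) (nat_lit 258) (nat_lit 74) (@Lb.g g8 (@Lb.g g9 (@Lb.g g10 (@Lb.g g11 (@Lb.r r683 (@Lb.r r2410 (@Lb.r r1561 (@Lb.r r1540 (@Lb.d (nat_lit 388) (nat_lit 89) (nat_lit 5) (@Lb.fm (nat_lit 9) t531)))))))))))
noncomputable def l9453 : Lb := (@Lb.d (nat_lit 2) (nat_lit 258) (nat_lit 130) (@Lb.g g8 (@Lb.g g9 (@Lb.g g10 (@Lb.g g11 (@Lb.r r1443 (@Lb.r r297 (@Lb.r r2120 (@Lb.r r1126 (@Lb.d (nat_lit 277) (nat_lit 133) (nat_lit 330) (@Lb.fp (nat_lit 9) t775)))))))))))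
noncomputable def l9454 : Lb := (@Lb.d (nat_lit 0) (nat_lit 2) (nat_lit 130) (@Lb.g g8 (@Lb.g g9 (@Lb.g g10 (@Lb.g g11 (@Lb.r r1443 (@Lb.r r2089 (@Lb.r r1608 (@Lb.r r1126 (@Lb.d (nat_lit 277) (nat_lit 21) (nat_lit 358) (@Lb.fp (nat_lit 9) t776)))))))))))
noncomputable def l9455 : Lb := (@Lb.d (nat_lit 5) (nat_lit 514) (nat_lit 130) (@Lb.g g8 (@Lb.g g9 (@Lb.g g10 (@Lb.g g11 (@Lb.r r1435 (@Lb.r r2581 (@Lb.r r676 (@Lb.r r1094 (@Lb.r r2180 (@Lb.d (nat_lit 2) (nat_lit 26) (nat_lit 660) (@Lb.fp (nat_lit 9) t51))))))))))))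
noncomputable def l9456 : Lb := (@Lb.d (nat_lit 2) (nat_lit 257) (nat_lit 74) (@Lb.g g8 (@Lb.g g9 (@Lb.g g10 (@Lb.g g11 (@Lb.r r1671 (@Lb.r r1681 (@Lb.r r2404 (@Lb.r r1178 (@Lb.d (nat_lit 386) (nat_lit 72) (nat_lit 69) (@Lb.fp (nat_lit 9) t222)))))))))))
noncomputable def l9457 : Lb := (@Lb.d (nat_lit 2) (nat_lit 513) (nat_lit 10) (@Lb.g g8 (@Lb.g g9 (@Lb.g g10 (@Lb.r r1543 (@Lb.r r1681 (@Lb.r r2404 (@Lb.r r1178 (@Lb.d (nat_lit 681) (nat_lit 2) (nat_lit 100) (@Lb.t (@Lb.fm (nat_lit 9) t222)))))))))))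
noncomputable def l9458 : Lb := (@Lb.r r20 (@Lb.d (nat_lit 0) (nat_lit 65) (nat_lit 64) (@Lb.g g9 (@Lb.g g10 (@Lb.g g11 (@Lb.r r610 (@Lb.d (nat_lit 2) (nat_lit 25) (nat_lit 130) (@Lb.t (@Lb.fm (nat_lit 9) t71)))))))))
noncomputable def l9459 : Lb := (@Lb.r r21 (@Lb.r r263 (@Lb.d (nat_lit 18) (nat_lit 512) (nat_lit 0) (@Lb.g g8 (@Lb.g g10 (@Lb.r r327 (@Lb.r r136 (@Lb.r r74 (@Lb.r r25 (@Lb.d (nat_lit 2) (nat_lit 0) (nat_lit 2) (@Lb.fp (nat_lit 3) t68)))))))))))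
noncomputable def l9460 : Lb := (@Lb.d (nat_lit 2) (nat_lit 0) (nat_lit 0) (@Lb.g g8 (@Lb.g g10 (@Lb.d (nat_lit 10) (nat_lit 2) (nat_lit 0) (@Lb.fm (nat_lit 3) t2)))))
noncomputable def l9461 : Lb := (@Lb.d (nat_lit 0) (nat_lit 545) (nat_lit 666) (@Lb.r r85 (@Lb.r r2408 (@Lb.r r2378 (@Lb.r r1703 (@Lb.r r529 (@Lb.g g7 (@Lb.g g8 (@Lb.fp (nat_lit 3) t516)))))))))
noncomputable def l9462 : Lb := (@Lb.d (nat_lit 2) (nat_lit 0) (nat_lit 138) (@Lb.g g11 (@Lb.g g8 (@Lb.fm (nat_lit 3) t2))))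
noncomputable def l9463 : Lb := (@Lb.r r82 (@Lb.d (nat_lit 72) (nat_lit 17) (nat_lit 0) (@Lb.g g8 (@Lb.g g9 (@Lb.g g11 (@Lb.r r657 (@Lb.r r1686 (@Lb.r r1419 (@Lb.r r516 (@Lb.d (nat_lit 353) (nat_lit 0) (nat_lit 408) (@Lb.t (@Lb.fp (nat_lit 9) t2343))))))))))))
noncomputable def l9464 : Lb := (@Lb.d (nat_lit 9) (nat_lit 544) (nat_lit 128) (@Lb.g g8 (@Lb.g g11 (@Lb.r r1109 (@Lb.r r2340 (@Lb.r r2699 (@Lb.r r2178 (@Lb.d (nat_lit 594) (nat_lit 85) (nat_lit 325) (@Lb.fm (nat_lit 3) t124)))))))))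
noncomputable def l9465 : Lb := (@Lb.d (nat_lit 10) (nat_lit 512) (nat_lit 2) (@Lb.g g8 (@Lb.g g10 (@Lb.g g11 (@Lb.r r293 (@Lb.r r1435 (@Lb.r r386 (@Lb.r r1112 (@Lb.d (nat_lit 42) (nat_lit 4) (nat_lit 552) (@Lb.t (@Lb.fp (nat_lit 9) t2344)))))))))))
noncomputable def l9466 : Lb := (@Lb.d (nat_lit 10) (nat_lit 0) (nat_lit 128) (@Lb.g g8 (@Lb.g g10 (@Lb.g g11 (@Lb.r r1443 (@Lb.r r2085 (@Lb.r r2452 (@Lb.r r390 (@Lb.d (nat_lit 97) (nat_lit 68) (nat_lit 520) (@Lb.t (@Lb.fm (nat_lit 9) t188)))))))))))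
noncomputable def l9467 : Lb := (@Lb.d (nat_lit 0) (nat_lit 10) (nat_lit 130) (@Lb.g g9 (@Lb.g g10 (@Lb.g g11 (@Lb.r r2727 (@Lb.r r1364 (@Lb.r r2218 (@Lb.r r2201 (@Lb.d (nat_lit 25) (nat_lit 137) (nat_lit 18) (@Lb.t (@Lb.fm (nat_lit 9) t1352)))))))))))
noncomputable def l9468 : Lb := (@Lb.d (nat_lit 1) (nat_lit 10) (nat_lit 130) (@Lb.g g8 (@Lb.g g9 (@Lb.g g10 (@Lb.g g11 (@Lb.r r2731 (@Lb.r r2728 (@Lb.r r2218 (@Lb.r r2201 (@Lb.d (nat_lit 25) (nat_lit 137) (nat_lit 153) (@Lb.fm (nat_lit 9) t1352)))))))))))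
noncomputable def l9469 : Lb := (@Lb.d (nat_lit 1) (nat_lit 266) (nat_lit 130) (@Lb.g g8 (@Lb.g g9 (@Lb.g g10 (@Lb.g g11 (@Lb.r r2731 (@Lb.r r2728 (@Lb.r r2218 (@Lb.r r2201 (@Lb.d (nat_lit 25) (nat_lit 137) (nat_lit 84) (@Lb.fm (nat_lit 9) t1352)))))))))))
noncomputable def l9470 : Lb := (@Lb.d (nat_lit 2) (nat_lit 32) (nat_lit 73) (@Lb.g g8 (@Lb.g g9 (@Lb.g g10 (@Lb.g g11 (@Lb.r r675 (@Lb.r r1429 (@Lb.r r2404 (@Lb.r r1610 (@Lb.d (nat_lit 545) (nat_lit 0) (nat_lit 21) (@Lb.fm (nat_lit 9) t981)))))))))))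
noncomputable def l9471 : Lb := (@Lb.d (nat_lit 37) (nat_lit 1) (nat_lit 70) (@Lb.r r154 (@Lb.r r664 (@Lb.r r667 (@Lb.r r353 (@Lb.g g7 (@Lb.g g6 (@Lb.g g4 (@Lb.d (nat_lit 1) (nat_lit 4) (nat_lit 8) (@Lb.t (@Lb.fp (nat_lit 9) t51)))))))))))
noncomputable def l9472 : Lb := (@Lb.d (nat_lit 38) (nat_lit 257) (nat_lit 70) (@Lb.r r154 (@Lb.r r664 (@Lb.r r667 (@Lb.r r353 (@Lb.g g7 (@Lb.g g6 (@Lb.g g4 (@Lb.d (nat_lit 1) (nat_lit 4) (nat_lit 65) (@Lb.t (@Lb.fp (nat_lit 9) t51)))))))))))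
noncomputable def l9473 : Lb := (@Lb.d (nat_lit 0) (nat_lit 320) (nat_lit 1) (@Lb.r r2403 (@Lb.g g6 (@Lb.d (nat_lit 0) (nat_lit 4) (nat_lit 1) (@Lb.t (@Lb.fm (nat_lit 3) t660))))))
noncomputable def l9474 : Lb := (@Lb.r r323 (@Lb.d (nat_lit 0) (nat_lit 10) (nat_lit 2) (@Lb.g g9 (@Lb.g g10 (@Lb.r r2339 (@Lb.r r146 (@Lb.d (nat_lit 0) (nat_lit 64) (nat_lit 2) (@Lb.fp (nat_lit 3) t233))))))))
noncomputable def l9475 : Lb := (@Lb.d (nat_lit 32) (nat_lit 0) (nat_lit 130) (@Lb.g g10 (@Lb.g g11 (@Lb.r r1411 (@Lb.r r1304 (@Lb.r r1637 (@Lb.r r1426 (@Lb.d (nat_lit 10) (nat_lit 84) (nat_lit 392) (@Lb.fp (nat_lit 3) t1486)))))))))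
noncomputable def l9476 : Lb := (@Lb.r r323 (@Lb.d (nat_lit 2) (nat_lit 521) (nat_lit 2) (@Lb.g g8 (@Lb.g g9 (@Lb.g g10 (@Lb.r r427 (@Lb.r r1177 (@Lb.r r146 (@Lb.d (nat_lit 545) (nat_lit 10) (nat_lit 17) (@Lb.t (@Lb.fp (nat_lit 9) t1038)))))))))))
noncomputable def l9477 : Lb := (@Lb.d (nat_lit 529) (nat_lit 522) (nat_lit 33) (@Lb.r r24 (@Lb.r r101 (@Lb.r r2403 (@Lb.g g6 (@Lb.d (nat_lit 0) (nat_lit 4) (nat_lit 1) (@Lb.t (@Lb.fm (nat_lit 3) t2345))))))))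
noncomputable def l9478 : Lb := (@Lb.d (nat_lit 1) (nat_lit 265) (nat_lit 129) (@Lb.g g8 (@Lb.g g9 (@Lb.g g10 (@Lb.g g11 (@Lb.r r2459 (@Lb.r r297 (@Lb.r r1384 (@Lb.r r2630 (@Lb.d (nat_lit 665) (nat_lit 73) (nat_lit 358) (@Lb.fp (nat_lit 9) t539)))))))))))
noncomputable def l9479 : Lb := (@Lb.d (nat_lit 0) (nat_lit 162) (nat_lit 384) (@Lb.r r2580 (@Lb.g g9 (@Lb.g g8 (@Lb.fm (nat_lit 3) t1135)))))
noncomputable def l9480 : Lb := (@Lb.d (nat_lit 2) (nat_lit 2) (nat_lit 2) (@Lb.g g8 (@Lb.g g9 (@Lb.g g10 (@Lb.g g11 (@Lb.r r2666 (@Lb.r r2664 (@Lb.r r2585 (@Lb.r r2651 (@Lb.d (nat_lit 354) (nat_lit 64) (nat_lit 132) (@Lb.fp (nat_lit 9) t2346)))))))))))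
noncomputable def l9481 : Lb := (@Lb.r r82 (@Lb.r r275 (@Lb.d (nat_lit 0) (nat_lit 386) (nat_lit 0) (@Lb.g g9 (@Lb.r r402 (@Lb.r r388 (@Lb.r r587 (@Lb.r r516 (@Lb.d (nat_lit 257) (nat_lit 1) (nat_lit 84) (@Lb.t (@Lb.fp (nat_lit 3) t2032)))))))))))
noncomputable def l9482 : Lb := (@Lb.d (nat_lit 2) (nat_lit 2) (nat_lit 2) (@Lb.g g8 (@Lb.g g9 (@Lb.g g10 (@Lb.g g11 (@Lb.r r2459 (@Lb.r r386 (@Lb.r r97 (@Lb.r r24 (@Lb.d (nat_lit 256) (nat_lit 4) (nat_lit 664) (@Lb.fm (nat_lit 9) t432)))))))))))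
noncomputable def l9483 : Lb := (@Lb.d (nat_lit 594) (nat_lit 256) (nat_lit 601) (@Lb.r r1158 (@Lb.r r2136 (@Lb.r r1445 (@Lb.r r1363 (@Lb.g g7 (@Lb.g g6 (@Lb.g g5 (@Lb.d (nat_lit 0) (nat_lit 33) (nat_lit 64) (@Lb.t (@Lb.fm (nat_lit 9) t2347)))))))))))
noncomputable def l9484 : Lb := (@Lb.r r82 (@Lb.d (nat_lit 73) (nat_lit 33) (nat_lit 392) (@Lb.g g8 (@Lb.g g9 (@Lb.g g11 (@Lb.r r1426 (@Lb.r r2201 (@Lb.r r324 (@Lb.d (nat_lit 548) (nat_lit 170) (nat_lit 297) (@Lb.t (@Lb.fp (nat_lit 9) t2348)))))))))))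
noncomputable def l9485 : Lb := (@Lb.d (nat_lit 24) (nat_lit 41) (nat_lit 97) (@Lb.r r1617 (@Lb.r r2710 (@Lb.r r663 (@Lb.r r1352 (@Lb.g g7 (@Lb.g g6 (@Lb.g g5 (@Lb.d (nat_lit 20) (nat_lit 33) (nat_lit 64) (@Lb.t (@Lb.fm (nat_lit 9) t2349)))))))))))
noncomputable def l9486 : Lb := (@Lb.d (nat_lit 2) (nat_lit 514) (nat_lit 137) (@Lb.g g8 (@Lb.g g9 (@Lb.g g10 (@Lb.g g11 (@Lb.r r2691 (@Lb.r r297 (@Lb.r r360 (@Lb.r r582 (@Lb.r r2180 (@Lb.d (nat_lit 160) (nat_lit 0) (nat_lit 361) (@Lb.fm (nat_lit 9) t1013))))))))))))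
noncomputable def l9487 : Lb := (@Lb.d (nat_lit 594) (nat_lit 266) (nat_lit 600) (@Lb.r r1158 (@Lb.r r2136 (@Lb.r r1445 (@Lb.r r1363 (@Lb.g g7 (@Lb.g g6 (@Lb.g g5 (@Lb.d (nat_lit 0) (nat_lit 38) (nat_lit 65) (@Lb.t (@Lb.fm (nat_lit 9) t2132)))))))))))
noncomputable def l9488 : Lb := (@Lb.d (nat_lit 2) (nat_lit 260) (nat_lit 138) (@Lb.g g8 (@Lb.g g9 (@Lb.g g10 (@Lb.g g11 (@Lb.r r683 (@Lb.r r1689 (@Lb.r r1688 (@Lb.r r1610 (@Lb.d (nat_lit 609) (nat_lit 105) (nat_lit 392) (@Lb.fp (nat_lit 9) t2132)))))))))))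
noncomputable def l9489 : Lb := (@Lb.d (nat_lit 130) (nat_lit 2) (nat_lit 130) (@Lb.g g8 (@Lb.g g9 (@Lb.g g10 (@Lb.g g11 (@Lb.r r2666 (@Lb.r r612 (@Lb.r r1639 (@Lb.r r533 (@Lb.r r2084 (@Lb.d (nat_lit 648) (nat_lit 137) (nat_lit 82) (@Lb.fm (nat_lit 9) t2350))))))))))))
noncomputable def l9490 : Lb := (@Lb.r r323 (@Lb.d (nat_lit 33) (nat_lit 258) (nat_lit 33) (@Lb.g g8 (@Lb.g g9 (@Lb.g g6 (@Lb.r r1643 (@Lb.r r1561 (@Lb.r r660 (@Lb.d (nat_lit 661) (nat_lit 98) (nat_lit 133) (@Lb.t (@Lb.fm (nat_lit 9) t2351)))))))))))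
noncomputable def l9491 : Lb := (@Lb.r r277 (@Lb.r r363 (@Lb.r r356 (@Lb.r r154 (@Lb.d (nat_lit 96) (nat_lit 69) (nat_lit 288) (@Lb.fm (nat_lit 1) t1306))))))
noncomputable def l9492 : Lb := (@Lb.r r323 (@Lb.d (nat_lit 33) (nat_lit 514) (nat_lit 33) (@Lb.g g8 (@Lb.g g9 (@Lb.g g6 (@Lb.r r1643 (@Lb.r r1561 (@Lb.r r660 (@Lb.d (nat_lit 661) (nat_lit 105) (nat_lit 132) (@Lb.t (@Lb.fm (nat_lit 9) t2351)))))))))))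
noncomputable def l9493 : Lb := (@Lb.d (nat_lit 134) (nat_lit 258) (nat_lit 130) (@Lb.g g8 (@Lb.g g9 (@Lb.g g10 (@Lb.g g11 (@Lb.r r1443 (@Lb.r r344 (@Lb.r r1429 (@Lb.r r86 (@Lb.r r164 (@Lb.d (nat_lit 33) (nat_lit 105) (nat_lit 145) (@Lb.fm (nat_lit 9) t5))))))))))))
noncomputable def l9494 : Lb := (@Lb.d (nat_lit 2) (nat_lit 1) (nat_lit 128) (@Lb.g g8 (@Lb.g g9 (@Lb.g g11 (@Lb.r r296 (@Lb.r r1367 (@Lb.r r2178 (@Lb.r r613 (@Lb.r r20 (@Lb.d (nat_lit 402) (nat_lit 66) (nat_lit 68) (@Lb.t (@Lb.fp (nat_lit 9) t626))))))))))))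
noncomputable def l9495 : Lb := (@Lb.d (nat_lit 2) (nat_lit 258) (nat_lit 41) (@Lb.g g8 (@Lb.g g9 (@Lb.g g6 (@Lb.r r2340 (@Lb.r r1435 (@Lb.r r1637 (@Lb.d (nat_lit 146) (nat_lit 88) (nat_lit 582) (@Lb.t (@Lb.fm (nat_lit 9) t1456))))))))))
noncomputable def l9496 : Lb := (@Lb.r r323 (@Lb.d (nat_lit 4) (nat_lit 1) (nat_lit 2) (@Lb.g g9 (@Lb.g g10 (@Lb.r r102 (@Lb.r r404 (@Lb.r r1371 (@Lb.r r2705 (@Lb.d (nat_lit 1) (nat_lit 136) (nat_lit 662) (@Lb.fm (nat_lit 3) t71))))))))))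
noncomputable def l9497 : Lb := (@Lb.d (nat_lit 128) (nat_lit 1) (nat_lit 130) (@Lb.g g9 (@Lb.g g10 (@Lb.g g11 (@Lb.r r610 (@Lb.r r105 (@Lb.r r264 (@Lb.r r2663 (@Lb.d (nat_lit 661) (nat_lit 105) (nat_lit 106) (@Lb.t (@Lb.fp (nat_lit 9) t71)))))))))))
noncomputable def l9498 : Lb := (@Lb.d (nat_lit 4) (nat_lit 513) (nat_lit 130) (@Lb.g g9 (@Lb.g g10 (@Lb.g g11 (@Lb.r r614 (@Lb.r r404 (@Lb.r r1371 (@Lb.r r2705 (@Lb.d (nat_lit 9) (nat_lit 73) (nat_lit 598) (@Lb.t (@Lb.fm (nat_lit 9) t71)))))))))))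
noncomputable def l9499 : Lb := (@Lb.d (nat_lit 9) (nat_lit 1) (nat_lit 128) (@Lb.g g8 (@Lb.g g9 (@Lb.g g11 (@Lb.r r1707 (@Lb.r r162 (@Lb.r r145 (@Lb.r r1608 (@Lb.d (nat_lit 97) (nat_lit 9) (nat_lit 665) (@Lb.t (@Lb.fp (nat_lit 9) t1082)))))))))))
noncomputable def l9500 : Lb := (@Lb.d (nat_lit 8) (nat_lit 34) (nat_lit 0) (@Lb.g g9 (@Lb.r r1626 (@Lb.r r603 (@Lb.r r600 (@Lb.r r1429 (@Lb.d (nat_lit 358) (nat_lit 90) (nat_lit 9) (@Lb.t (@Lb.fp (nat_lit 3) t1558)))))))))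
noncomputable def l9501 : Lb := (@Lb.d (nat_lit 136) (nat_lit 514) (nat_lit 130) (@Lb.g g9 (@Lb.g g10 (@Lb.g g11 (@Lb.r r618 (@Lb.r r24 (@Lb.r r405 (@Lb.r r611 (@Lb.d (nat_lit 137) (nat_lit 25) (nat_lit 82) (@Lb.t (@Lb.fm (nat_lit 9) t564)))))))))))
noncomputable def l9502 : Lb := (@Lb.d (nat_lit 1) (nat_lit 2) (nat_lit 130) (@Lb.g g8 (@Lb.g g9 (@Lb.g g10 (@Lb.g g11 (@Lb.r r427 (@Lb.r r145 (@Lb.r r356 (@Lb.r r154 (@Lb.r r132 (@Lb.d (nat_lit 9) (nat_lit 9) (nat_lit 89) (@Lb.fm (nat_lit 9) t756))))))))))))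
noncomputable def l9503 : Lb := (@Lb.d (nat_lit 1) (nat_lit 416) (nat_lit 416) (@Lb.r r21 (@Lb.r r579 (@Lb.r r2454 (@Lb.g g5 (@Lb.g g4 (@Lb.d (nat_lit 578) (nat_lit 1) (nat_lit 0) (@Lb.r r74 (@Lb.fm (nat_lit 3) t1073)))))))))
noncomputable def l9504 : Lb := (@Lb.d (nat_lit 129) (nat_lit 9) (nat_lit 129) (@Lb.g g8 (@Lb.g g9 (@Lb.g g10 (@Lb.g g11 (@Lb.r r1366 (@Lb.r r2711 (@Lb.r r617 (@Lb.r r2084 (@Lb.d (nat_lit 361) (nat_lit 68) (nat_lit 344) (@Lb.fp (nat_lit 9) t2352)))))))))))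
noncomputable def l9505 : Lb := (@Lb.r r21 (@Lb.d (nat_lit 384) (nat_lit 0) (nat_lit 66) (@Lb.g g4 (@Lb.g g10 (@Lb.g g11 (@Lb.r r519 (@Lb.r r386 (@Lb.r r25 (@Lb.d (nat_lit 649) (nat_lit 128) (nat_lit 73) (@Lb.t (@Lb.fp (nat_lit 9) t363)))))))))))
noncomputable def l9506 : Lb := (@Lb.d (nat_lit 129) (nat_lit 538) (nat_lit 1) (@Lb.g g8 (@Lb.g g9 (@Lb.g g10 (@Lb.g g11 (@Lb.r r2647 (@Lb.r r665 (@Lb.r r146 (@Lb.r r2084 (@Lb.d (nat_lit 357) (nat_lit 24) (nat_lit 344) (@Lb.fp (nat_lit 9) t1072)))))))))))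
noncomputable def l9507 : Lb := (@Lb.r r263 (@Lb.d (nat_lit 26) (nat_lit 0) (nat_lit 0) (@Lb.g g8 (@Lb.g g10 (@Lb.r r1691 (@Lb.r r1602 (@Lb.r r1621 (@Lb.r r1444 (@Lb.d (nat_lit 362) (nat_lit 66) (nat_lit 425) (@Lb.fp (nat_lit 3) t50))))))))))
noncomputable def l9508 : Lb := (@Lb.d (nat_lit 8) (nat_lit 577) (nat_lit 0) (@Lb.g g9 (@Lb.r r1319 (@Lb.r r1126 (@Lb.r r24 (@Lb.d (nat_lit 265) (nat_lit 1) (nat_lit 0) (@Lb.t (@Lb.fm (nat_lit 3) t284))))))))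
noncomputable def l9509 : Lb := (@Lb.d (nat_lit 1) (nat_lit 2) (nat_lit 66) (@Lb.g g8 (@Lb.g g9 (@Lb.g g10 (@Lb.g g7 (@Lb.r r386 (@Lb.r r97 (@Lb.r r24 (@Lb.d (nat_lit 10) (nat_lit 9) (nat_lit 9) (@Lb.fp (nat_lit 9) t40))))))))))
noncomputable def l9510 : Lb := (@Lb.d (nat_lit 2) (nat_lit 2) (nat_lit 2) (@Lb.g g8 (@Lb.g g9 (@Lb.g g10 (@Lb.g g11 (@Lb.r r1602 (@Lb.r r409 (@Lb.r r2659 (@Lb.r r2577 (@Lb.r r2564 (@Lb.d (nat_lit 641) (nat_lit 66) (nat_lit 384) (@Lb.fm (nat_lit 9) t322))))))))))))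
noncomputable def l9511 : Lb := (@Lb.d (nat_lit 8) (nat_lit 290) (nat_lit 1) (@Lb.g g9 (@Lb.g g10 (@Lb.r r2470 (@Lb.r r603 (@Lb.r r600 (@Lb.r r1429 (@Lb.d (nat_lit 358) (nat_lit 80) (nat_lit 586) (@Lb.fp (nat_lit 3) t1255)))))))))
noncomputable def l9512 : Lb := (@Lb.d (nat_lit 2) (nat_lit 514) (nat_lit 130) (@Lb.g g8 (@Lb.g g9 (@Lb.g g10 (@Lb.g g11 (@Lb.r r162 (@Lb.r r660 (@Lb.r r425 (@Lb.r r279 (@Lb.r r548 (@Lb.d (nat_lit 9) (nat_lit 9) (nat_lit 73) (@Lb.fp (nat_lit 9) t1412))))))))))))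
noncomputable def l9513 : Lb := (@Lb.r r21 (@Lb.d (nat_lit 8) (nat_lit 264) (nat_lit 130) (@Lb.g g8 (@Lb.g g10 (@Lb.g g11 (@Lb.r r353 (@Lb.r r1431 (@Lb.r r2632 (@Lb.r r390 (@Lb.d (nat_lit 105) (nat_lit 2) (nat_lit 552) (@Lb.t (@Lb.fp (nat_lit 9) t2))))))))))))
noncomputable def l9514 : Lb := (@Lb.d (nat_lit 2) (nat_lit 544) (nat_lit 130) (@Lb.g g8 (@Lb.g g10 (@Lb.g g11 (@Lb.r r353 (@Lb.r r2714 (@Lb.r r2712 (@Lb.r r2587 (@Lb.d (nat_lit 329) (nat_lit 162) (nat_lit 522) (@Lb.t (@Lb.fm (nat_lit 9) t2)))))))))))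
noncomputable def l9515 : Lb := (@Lb.r r20 (@Lb.d (nat_lit 8) (nat_lit 646) (nat_lit 0) (@Lb.g g5 (@Lb.r r402 (@Lb.r r8 (@Lb.d (nat_lit 401) (nat_lit 165) (nat_lit 682) (@Lb.t (@Lb.fm (nat_lit 3) t652))))))))
noncomputable def l9516 : Lb := (@Lb.d (nat_lit 9) (nat_lit 262) (nat_lit 1) (@Lb.g g8 (@Lb.g g9 (@Lb.g g10 (@Lb.r r1543 (@Lb.r r657 (@Lb.r r2404 (@Lb.r r1178 (@Lb.d (nat_lit 425) (nat_lit 2) (nat_lit 357) (@Lb.t (@Lb.fm (nat_lit 9) t224)))))))))))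
noncomputable def l9517 : Lb := (@Lb.d (nat_lit 9) (nat_lit 4) (nat_lit 64) (@Lb.g g8 (@Lb.g g9 (@Lb.g g10 (@Lb.g g7 (@Lb.r r386 (@Lb.r r2145 (@Lb.r r24 (@Lb.d (nat_lit 8) (nat_lit 73) (nat_lit 41) (@Lb.fp (nat_lit 9) t2353))))))))))
noncomputable def l9518 : Lb := (@Lb.d (nat_lit 2) (nat_lit 512) (nat_lit 72) (@Lb.r r402 (@Lb.r r101 (@Lb.g g8 (@Lb.d (nat_lit 10) (nat_lit 0) (nat_lit 0) (@Lb.t (@Lb.fp (nat_lit 3) t30)))))))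
noncomputable def l9519 : Lb := (@Lb.d (nat_lit 2) (nat_lit 26) (nat_lit 6) (@Lb.r r338 (@Lb.r r165 (@Lb.g g6 (@Lb.g g8 (@Lb.d (nat_lit 10) (nat_lit 0) (nat_lit 2) (@Lb.fm (nat_lit 3) t30)))))))
noncomputable def l9520 : Lb := (@Lb.d (nat_lit 0) (nat_lit 258) (nat_lit 130) (@Lb.g g8 (@Lb.g g9 (@Lb.g g10 (@Lb.g g11 (@Lb.r r427 (@Lb.r r145 (@Lb.r r356 (@Lb.r r154 (@Lb.r r132 (@Lb.d (nat_lit 552) (nat_lit 2) (nat_lit 34) (@Lb.fm (nat_lit 9) t221))))))))))))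
noncomputable def l9521 : Lb := (@Lb.d (nat_lit 2) (nat_lit 258) (nat_lit 66) (@Lb.g g8 (@Lb.g g9 (@Lb.g g10 (@Lb.g g7 (@Lb.r r386 (@Lb.r r97 (@Lb.r r24 (@Lb.d (nat_lit 10) (nat_lit 2) (nat_lit 10) (@Lb.fp (nat_lit 9) t40))))))))))
noncomputable def l9522 : Lb := (@Lb.r r21 (@Lb.d (nat_lit 146) (nat_lit 512) (nat_lit 133) (@Lb.g g8 (@Lb.g g10 (@Lb.g g11 (@Lb.r r1691 (@Lb.r r1689 (@Lb.r r1370 (@Lb.r r1156 (@Lb.d (nat_lit 296) (nat_lit 37) (nat_lit 406) (@Lb.t (@Lb.fp (nat_lit 9) t264))))))))))))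
noncomputable def l9523 : Lb := (@Lb.r r21 (@Lb.r r263 (@Lb.d (nat_lit 16) (nat_lit 256) (nat_lit 0) (@Lb.g g8 (@Lb.g g10 (@Lb.r r327 (@Lb.r r402 (@Lb.r r616 (@Lb.r r25 (@Lb.d (nat_lit 2) (nat_lit 154) (nat_lit 394) (@Lb.fm (nat_lit 3) t898)))))))))))
noncomputable def l9524 : Lb := (@Lb.d (nat_lit 2) (nat_lit 5) (nat_lit 64) (@Lb.g g8 (@Lb.g g9 (@Lb.g g11 (@Lb.r r2450 (@Lb.r r2387 (@Lb.r r2705 (@Lb.r r24 (@Lb.d (nat_lit 5) (nat_lit 10) (nat_lit 662) (@Lb.t (@Lb.fm (nat_lit 9) t303)))))))))))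
noncomputable def l9525 : Lb := (@Lb.d (nat_lit 1) (nat_lit 288) (nat_lit 64) (@Lb.r r21 (@Lb.r r342 (@Lb.g g7 (@Lb.g g6 (@Lb.g g5 (@Lb.g g4 (@Lb.d (nat_lit 1) (nat_lit 1) (nat_lit 128) (@Lb.fp (nat_lit 9) t1085)))))))))
noncomputable def l9526 : Lb := (@Lb.r r2403 (@Lb.r r101 (@Lb.r r24 (@Lb.d (nat_lit 97) (nat_lit 256) (nat_lit 512) (@Lb.fp (nat_lit 1) t314)))))
noncomputable def l9527 : Lb := (@Lb.d (nat_lit 6) (nat_lit 33) (nat_lit 64) (@Lb.r r21 (@Lb.r r342 (@Lb.g g7 (@Lb.g g6 (@Lb.g g5 (@Lb.g g4 (@Lb.d (nat_lit 1) (nat_lit 1) (nat_lit 128) (@Lb.fp (nat_lit 9) t1085)))))))))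
noncomputable def l9528 : Lb := (@Lb.d (nat_lit 262) (nat_lit 417) (nat_lit 64) (@Lb.r r2069 (@Lb.r r2390 (@Lb.g g7 (@Lb.g g6 (@Lb.g g5 (@Lb.g g4 (@Lb.d (nat_lit 1) (nat_lit 2) (nat_lit 128) (@Lb.fp (nat_lit 9) t2354)))))))))
noncomputable def l9529 : Lb := (@Lb.g g7 (@Lb.r r152 (@Lb.r r394 (@Lb.r r289 (@Lb.r r132 (@Lb.d (nat_lit 8) (nat_lit 65) (nat_lit 256) (@Lb.t (@Lb.fp (nat_lit 3) t2355))))))))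
noncomputable def l9530 : Lb := (@Lb.r r323 (@Lb.d (nat_lit 0) (nat_lit 520) (nat_lit 6) (@Lb.g g10 (@Lb.r r387 (@Lb.d (nat_lit 0) (nat_lit 2) (nat_lit 9) (@Lb.t (@Lb.fp (nat_lit 3) t369)))))))
noncomputable def l9531 : Lb := (@Lb.d (nat_lit 32) (nat_lit 512) (nat_lit 2) (@Lb.g g10 (@Lb.g g7 (@Lb.r r72 (@Lb.r r598 (@Lb.r r289 (@Lb.d (nat_lit 154) (nat_lit 73) (nat_lit 258) (@Lb.fp (nat_lit 3) t1190))))))))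
noncomputable def l9532 : Lb := (@Lb.d (nat_lit 2) (nat_lit 9) (nat_lit 72) (@Lb.g g8 (@Lb.g g9 (@Lb.g g10 (@Lb.g g11 (@Lb.r r1626 (@Lb.r r579 (@Lb.r r97 (@Lb.r r24 (@Lb.d (nat_lit 646) (nat_lit 104) (nat_lit 585) (@Lb.fm (nat_lit 9) t1070)))))))))))
noncomputable def l9533 : Lb := (@Lb.d (nat_lit 2) (nat_lit 2) (nat_lit 64) (@Lb.g g8 (@Lb.g g9 (@Lb.g g10 (@Lb.g g11 (@Lb.r r618 (@Lb.r r25 (@Lb.d (nat_lit 9) (nat_lit 18) (nat_lit 128) (@Lb.fp (nat_lit 9) t71)))))))))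
noncomputable def l9534 : Lb := (@Lb.g g10 (@Lb.r r579 (@Lb.r r402 (@Lb.r r2145 (@Lb.r r36 (@Lb.d (nat_lit 0) (nat_lit 512) (nat_lit 128) (@Lb.t (@Lb.fm (nat_lit 3) t940))))))))
noncomputable def l9535 : Lb := (@Lb.d (nat_lit 9) (nat_lit 2) (nat_lit 130) (@Lb.g g8 (@Lb.g g9 (@Lb.g g10 (@Lb.g g11 (@Lb.r r2210 (@Lb.r r660 (@Lb.r r425 (@Lb.r r2327 (@Lb.r r1572 (@Lb.d (nat_lit 4) (nat_lit 8) (nat_lit 601) (@Lb.fp (nat_lit 9) t1425))))))))))))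
noncomputable def l9536 : Lb := (@Lb.d (nat_lit 353) (nat_lit 389) (nat_lit 598) (@Lb.r r1416 (@Lb.r r2178 (@Lb.r r1559 (@Lb.r r2457 (@Lb.g g4 (@Lb.d (nat_lit 69) (nat_lit 0) (nat_lit 0) (@Lb.t (@Lb.fp (nat_lit 3) t229)))))))))
noncomputable def l9537 : Lb := (@Lb.d (nat_lit 9) (nat_lit 513) (nat_lit 130) (@Lb.g g8 (@Lb.g g9 (@Lb.g g10 (@Lb.g g11 (@Lb.r r2666 (@Lb.r r2664 (@Lb.r r2347 (@Lb.r r2337 (@Lb.d (nat_lit 9) (nat_lit 33) (nat_lit 522) (@Lb.fp (nat_lit 9) t119)))))))))))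
noncomputable def l9538 : Lb := (@Lb.d (nat_lit 292) (nat_lit 257) (nat_lit 64) (@Lb.r r2129 (@Lb.r r1158 (@Lb.r r2376 (@Lb.g g7 (@Lb.g g5 (@Lb.d (nat_lit 64) (nat_lit 0) (nat_lit 328) (@Lb.fm (nat_lit 3) t355))))))))
noncomputable def l9539 : Lb := (@Lb.d (nat_lit 2) (nat_lit 550) (nat_lit 130) (@Lb.g g8 (@Lb.g g9 (@Lb.g g10 (@Lb.g g11 (@Lb.r r2724 (@Lb.r r1575 (@Lb.r r1637 (@Lb.r r1426 (@Lb.d (nat_lit 82) (nat_lit 20) (nat_lit 342) (@Lb.fm (nat_lit 9) t2356)))))))))))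
noncomputable def l9540 : Lb := (@Lb.d (nat_lit 2) (nat_lit 294) (nat_lit 73) (@Lb.g g8 (@Lb.g g9 (@Lb.g g10 (@Lb.g g11 (@Lb.r r2595 (@Lb.r r2657 (@Lb.r r388 (@Lb.r r406 (@Lb.d (nat_lit 550) (nat_lit 148) (nat_lit 582) (@Lb.fm (nat_lit 9) t2357)))))))))))
noncomputable def l9541 : Lb := (@Lb.d (nat_lit 1) (nat_lit 146) (nat_lit 320) (@Lb.r r579 (@Lb.r r1362 (@Lb.g g7 (@Lb.g g6 (@Lb.g g5 (@Lb.d (nat_lit 4) (nat_lit 1) (nat_lit 65) (@Lb.t (@Lb.fm (nat_lit 9) t285)))))))))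
noncomputable def l9542 : Lb := (@Lb.d (nat_lit 136) (nat_lit 514) (nat_lit 130) (@Lb.g g9 (@Lb.g g10 (@Lb.g g11 (@Lb.r r166 (@Lb.r r264 (@Lb.r r599 (@Lb.r r409 (@Lb.d (nat_lit 410) (nat_lit 25) (nat_lit 106) (@Lb.t (@Lb.fp (nat_lit 9) t991)))))))))))
noncomputable def l9543 : Lb := (@Lb.d (nat_lit 2) (nat_lit 1) (nat_lit 130) (@Lb.g g8 (@Lb.g g9 (@Lb.g g10 (@Lb.g g11 (@Lb.r r618 (@Lb.r r105 (@Lb.r r340 (@Lb.r r2587 (@Lb.r r2564 (@Lb.d (nat_lit 9) (nat_lit 153) (nat_lit 642) (@Lb.fp (nat_lit 9) t71))))))))))))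
noncomputable def l9544 : Lb := (@Lb.r r263 (@Lb.d (nat_lit 545) (nat_lit 2) (nat_lit 1) (@Lb.g g8 (@Lb.g g9 (@Lb.g g10 (@Lb.r r618 (@Lb.r r2627 (@Lb.r r25 (@Lb.d (nat_lit 9) (nat_lit 161) (nat_lit 384) (@Lb.t (@Lb.fp (nat_lit 9) t394)))))))))))
noncomputable def l9545 : Lb := (@Lb.d (nat_lit 6) (nat_lit 609) (nat_lit 64) (@Lb.r r2145 (@Lb.r r1370 (@Lb.r r2116 (@Lb.r r323 (@Lb.g g7 (@Lb.g g6 (@Lb.g g4 (@Lb.d (nat_lit 146) (nat_lit 0) (nat_lit 10) (@Lb.t (@Lb.fm (nat_lit 9) t2358)))))))))))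
noncomputable def l9546 : Lb := (@Lb.d (nat_lit 0) (nat_lit 256) (nat_lit 130) (@Lb.g g10 (@Lb.g g11 (@Lb.r r586 (@Lb.r r584 (@Lb.r r299 (@Lb.r r409 (@Lb.d (nat_lit 420) (nat_lit 4) (nat_lit 514) (@Lb.fp (nat_lit 3) t2359)))))))))
noncomputable def l9547 : Lb := (@Lb.r r68 (@Lb.r r81 (@Lb.d (nat_lit 0) (nat_lit 288) (nat_lit 161) (@Lb.g g6 (@Lb.g g11 (@Lb.r r401 (@Lb.r r295 (@Lb.r r584 (@Lb.d (nat_lit 262) (nat_lit 73) (nat_lit 38) (@Lb.fm (nat_lit 3) t2360))))))))))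
noncomputable def l9548 : Lb := (@Lb.d (nat_lit 682) (nat_lit 656) (nat_lit 338) (@Lb.r r2321 (@Lb.r r2666 (@Lb.r r679 (@Lb.g g6 (@Lb.g g5 (@Lb.g g8 (@Lb.d (nat_lit 10) (nat_lit 5) (nat_lit 2) (@Lb.t (@Lb.fp (nat_lit 9) t2361))))))))))
noncomputable def l9549 : Lb := (@Lb.d (nat_lit 617) (nat_lit 344) (nat_lit 677) (@Lb.r r2472 (@Lb.r r170 (@Lb.r r1683 (@Lb.g g6 (@Lb.g g9 (@Lb.g g4 (@Lb.d (nat_lit 70) (nat_lit 42) (nat_lit 0) (@Lb.r r387 (@Lb.t (@Lb.fp (nat_lit 9) t2362)))))))))))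
noncomputable def l9550 : Lb := (@Lb.d (nat_lit 1) (nat_lit 597) (nat_lit 345) (@Lb.r r2401 (@Lb.r r1431 (@Lb.r r584 (@Lb.r r402 (@Lb.g g7 (@Lb.g g5 (@Lb.d (nat_lit 4) (nat_lit 5) (nat_lit 0) (@Lb.fp (nat_lit 3) t2363)))))))))
noncomputable def l9551 : Lb := (@Lb.r r82 (@Lb.g g5 (@Lb.r r81 (@Lb.r r98 (@Lb.t (@Lb.p (nat_lit 1) (@Lb.fm (nat_lit 3) t2364)))))))
noncomputable def l9552 : Lb := (@Lb.d (nat_lit 0) (nat_lit 266) (nat_lit 1) (@Lb.g g5 (@Lb.g g10 (@Lb.r r146 (@Lb.d (nat_lit 0) (nat_lit 8) (nat_lit 1) (@Lb.fm (nat_lit 3) t2365))))))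
noncomputable def l9553 : Lb := (@Lb.r r82 (@Lb.r r275 (@Lb.d (nat_lit 2) (nat_lit 42) (nat_lit 0) (@Lb.g g8 (@Lb.g g9 (@Lb.r r663 (@Lb.r r666 (@Lb.r r337 (@Lb.d (nat_lit 129) (nat_lit 22) (nat_lit 136) (@Lb.fm (nat_lit 3) t622))))))))))
noncomputable def l9554 : Lb := (@Lb.g g9 (@Lb.g g6 (@Lb.r r1543 (@Lb.r r1105 (@Lb.r r2392 (@Lb.r r1190 (@Lb.d (nat_lit 260) (nat_lit 257) (nat_lit 0) (@Lb.fm (nat_lit 3) t2366))))))))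
noncomputable def l9555 : Lb := (@Lb.d (nat_lit 8) (nat_lit 512) (nat_lit 2) (@Lb.g g9 (@Lb.g g10 (@Lb.r r600 (@Lb.r r1638 (@Lb.r r2403 (@Lb.r r337 (@Lb.d (nat_lit 132) (nat_lit 148) (nat_lit 326) (@Lb.fp (nat_lit 3) t2367)))))))))
noncomputable def l9556 : Lb := (@Lb.d (nat_lit 34) (nat_lit 0) (nat_lit 128) (@Lb.g g8 (@Lb.g g11 (@Lb.r r2665 (@Lb.r r363 (@Lb.r r582 (@Lb.r r2180 (@Lb.d (nat_lit 546) (nat_lit 169) (nat_lit 161) (@Lb.fp (nat_lit 3) t1081)))))))))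
noncomputable def l9557 : Lb := (@Lb.r r82 (@Lb.d (nat_lit 0) (nat_lit 264) (nat_lit 128) (@Lb.g g9 (@Lb.g g11 (@Lb.r r355 (@Lb.r r146 (@Lb.d (nat_lit 0) (nat_lit 168) (nat_lit 258) (@Lb.fp (nat_lit 3) t2368))))))))
noncomputable def l9558 : Lb := (@Lb.d (nat_lit 2) (nat_lit 516) (nat_lit 128) (@Lb.g g8 (@Lb.g g9 (@Lb.g g10 (@Lb.g g11 (@Lb.r r2595 (@Lb.r r386 (@Lb.r r612 (@Lb.r r533 (@Lb.r r2084 (@Lb.d (nat_lit 386) (nat_lit 10) (nat_lit 328) (@Lb.fp (nat_lit 9) t1780))))))))))))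
noncomputable def l9559 : Lb := (@Lb.d (nat_lit 1) (nat_lit 4) (nat_lit 128) (@Lb.g g8 (@Lb.g g9 (@Lb.g g10 (@Lb.g g11 (@Lb.r r610 (@Lb.r r1607 (@Lb.r r97 (@Lb.r r2436 (@Lb.d (nat_lit 154) (nat_lit 9) (nat_lit 392) (@Lb.fp (nat_lit 9) t2108)))))))))))
noncomputable def l9560 : Lb := (@Lb.d (nat_lit 2) (nat_lit 4) (nat_lit 128) (@Lb.g g8 (@Lb.g g9 (@Lb.g g10 (@Lb.g g11 (@Lb.r r2595 (@Lb.r r386 (@Lb.r r612 (@Lb.r r533 (@Lb.r r2084 (@Lb.d (nat_lit 385) (nat_lit 10) (nat_lit 328) (@Lb.fp (nat_lit 9) t1780))))))))))))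
noncomputable def l9561 : Lb := (@Lb.r r323 (@Lb.d (nat_lit 130) (nat_lit 260) (nat_lit 0) (@Lb.g g8 (@Lb.g g9 (@Lb.g g10 (@Lb.r r599 (@Lb.r r98 (@Lb.r r97 (@Lb.r r2312 (@Lb.d (nat_lit 386) (nat_lit 9) (nat_lit 550) (@Lb.t (@Lb.fp (nat_lit 9) t2369))))))))))))
noncomputable def l9562 : Lb := (@Lb.d (nat_lit 146) (nat_lit 256) (nat_lit 128) (@Lb.g g8 (@Lb.g g10 (@Lb.g g11 (@Lb.r r2698 (@Lb.r r1411 (@Lb.r r1177 (@Lb.r r2180 (@Lb.d (nat_lit 81) (nat_lit 0) (nat_lit 649) (@Lb.t (@Lb.fp (nat_lit 9) t283)))))))))))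
noncomputable def l9563 : Lb := (@Lb.r r70 (@Lb.r r263 (@Lb.d (nat_lit 546) (nat_lit 545) (nat_lit 0) (@Lb.g g8 (@Lb.g g9 (@Lb.r r2707 (@Lb.r r2182 (@Lb.r r2389 (@Lb.d (nat_lit 148) (nat_lit 150) (nat_lit 676) (@Lb.fm (nat_lit 3) t163))))))))))
noncomputable def l9564 : Lb := (@Lb.d (nat_lit 9) (nat_lit 518) (nat_lit 128) (@Lb.g g8 (@Lb.g g9 (@Lb.g g10 (@Lb.g g11 (@Lb.r r2729 (@Lb.r r299 (@Lb.r r132 (@Lb.r r582 (@Lb.r r2180 (@Lb.d (nat_lit 0) (nat_lit 10) (nat_lit 345) (@Lb.fm (nat_lit 9) t525))))))))))))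
noncomputable def l9565 : Lb := (@Lb.r r323 (@Lb.d (nat_lit 154) (nat_lit 262) (nat_lit 1) (@Lb.g g8 (@Lb.g g9 (@Lb.g g10 (@Lb.r r599 (@Lb.r r1122 (@Lb.r r2149 (@Lb.r r2456 (@Lb.d (nat_lit 344) (nat_lit 154) (nat_lit 105) (@Lb.t (@Lb.fp (nat_lit 9) t1919))))))))))))
noncomputable def l9566 : Lb := (@Lb.d (nat_lit 145) (nat_lit 512) (nat_lit 74) (@Lb.g g8 (@Lb.g g10 (@Lb.g g11 (@Lb.r r1675 (@Lb.r r330 (@Lb.r r537 (@Lb.r r1540 (@Lb.d (nat_lit 545) (nat_lit 0) (nat_lit 533) (@Lb.t (@Lb.fp (nat_lit 9) t283)))))))))))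
noncomputable def l9567 : Lb := (@Lb.d (nat_lit 26) (nat_lit 288) (nat_lit 138) (@Lb.g g8 (@Lb.g g10 (@Lb.g g11 (@Lb.r r2149 (@Lb.r r1428 (@Lb.r r2571 (@Lb.r r1170 (@Lb.d (nat_lit 325) (nat_lit 74) (nat_lit 674) (@Lb.t (@Lb.fp (nat_lit 9) t524)))))))))))
noncomputable def l9568 : Lb := (@Lb.d (nat_lit 145) (nat_lit 256) (nat_lit 74) (@Lb.g g8 (@Lb.g g10 (@Lb.g g11 (@Lb.r r1579 (@Lb.r r2453 (@Lb.r r2390 (@Lb.r r1124 (@Lb.d (nat_lit 258) (nat_lit 40) (nat_lit 601) (@Lb.t (@Lb.fp (nat_lit 9) t2370)))))))))))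
noncomputable def l9569 : Lb := (@Lb.d (nat_lit 0) (nat_lit 514) (nat_lit 130) (@Lb.g g9 (@Lb.g g10 (@Lb.g g11 (@Lb.r r1443 (@Lb.r r401 (@Lb.r r82 (@Lb.r r1169 (@Lb.r r8 (@Lb.d (nat_lit 321) (nat_lit 73) (nat_lit 169) (@Lb.t (@Lb.fp (nat_lit 9) t64))))))))))))
noncomputable def l9570 : Lb := (@Lb.d (nat_lit 0) (nat_lit 258) (nat_lit 130) (@Lb.g g9 (@Lb.g g10 (@Lb.g g11 (@Lb.r r1443 (@Lb.r r401 (@Lb.r r82 (@Lb.r r1169 (@Lb.r r8 (@Lb.d (nat_lit 321) (nat_lit 73) (nat_lit 34) (@Lb.t (@Lb.fp (nat_lit 9) t64))))))))))))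
noncomputable def l9571 : Lb := (@Lb.r r323 (@Lb.d (nat_lit 138) (nat_lit 264) (nat_lit 17) (@Lb.g g8 (@Lb.g g9 (@Lb.g g10 (@Lb.r r2345 (@Lb.r r1431 (@Lb.r r2660 (@Lb.d (nat_lit 666) (nat_lit 90) (nat_lit 342) (@Lb.t (@Lb.fp (nat_lit 9) t204)))))))))))
noncomputable def l9572 : Lb := (@Lb.d (nat_lit 1) (nat_lit 0) (nat_lit 1) (@Lb.r r146 (@Lb.r r101 (@Lb.r r280 (@Lb.r r263 (@Lb.g g7 (@Lb.r r578 (@Lb.r r529 (@Lb.t (@Lb.fp (nat_lit 3) t50))))))))))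
noncomputable def l9573 : Lb := (@Lb.r r21 (@Lb.r r263 (@Lb.d (nat_lit 514) (nat_lit 520) (nat_lit 18) (@Lb.g g4 (@Lb.g g10 (@Lb.r r1427 (@Lb.r r97 (@Lb.d (nat_lit 2) (nat_lit 130) (nat_lit 2) (@Lb.fm (nat_lit 3) t2371)))))))))
noncomputable def l9574 : Lb := (@Lb.d (nat_lit 657) (nat_lit 408) (nat_lit 84) (@Lb.r r24 (@Lb.r r1114 (@Lb.r r2469 (@Lb.r r1555 (@Lb.g g7 (@Lb.g g6 (@Lb.g g5 (@Lb.d (nat_lit 0) (nat_lit 1) (nat_lit 128) (@Lb.t (@Lb.fm (nat_lit 9) t162)))))))))))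
noncomputable def l9575 : Lb := (@Lb.d (nat_lit 274) (nat_lit 640) (nat_lit 89) (@Lb.r r24 (@Lb.r r1178 (@Lb.r r2385 (@Lb.g g11 (@Lb.g g10 (@Lb.d (nat_lit 128) (nat_lit 16) (nat_lit 513) (@Lb.fm (nat_lit 3) t162))))))))
noncomputable def l9576 : Lb := (@Lb.d (nat_lit 288) (nat_lit 2) (nat_lit 16) (@Lb.r r24 (@Lb.r r2138 (@Lb.r r2331 (@Lb.g g9 (@Lb.d (nat_lit 8) (nat_lit 2) (nat_lit 0) (@Lb.t (@Lb.fm (nat_lit 3) t8))))))))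
noncomputable def l9577 : Lb := (@Lb.d (nat_lit 0) (nat_lit 258) (nat_lit 130) (@Lb.g g8 (@Lb.g g9 (@Lb.g g10 (@Lb.g g11 (@Lb.r r162 (@Lb.r r552 (@Lb.r r665 (@Lb.r r539 (@Lb.r r516 (@Lb.d (nat_lit 328) (nat_lit 73) (nat_lit 585) (@Lb.fm (nat_lit 9) t668))))))))))))
noncomputable def l9578 : Lb := (@Lb.d (nat_lit 32) (nat_lit 514) (nat_lit 130) (@Lb.g g8 (@Lb.g g9 (@Lb.g g10 (@Lb.g g11 (@Lb.r r1707 (@Lb.r r1410 (@Lb.r r2657 (@Lb.r r1560 (@Lb.d (nat_lit 73) (nat_lit 137) (nat_lit 533) (@Lb.fp (nat_lit 9) t2210)))))))))))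
noncomputable def l9579 : Lb := (@Lb.d (nat_lit 65) (nat_lit 293) (nat_lit 102) (@Lb.r r410 (@Lb.r r148 (@Lb.r r1365 (@Lb.r r2599 (@Lb.g g6 (@Lb.g g5 (@Lb.d (nat_lit 16) (nat_lit 0) (nat_lit 1) (@Lb.fm (nat_lit 3) t210)))))))))
noncomputable def l9580 : Lb := (@Lb.d (nat_lit 132) (nat_lit 402) (nat_lit 356) (@Lb.r r2469 (@Lb.r r1691 (@Lb.r r1624 (@Lb.g g6 (@Lb.g g5 (@Lb.d (nat_lit 4) (nat_lit 16) (nat_lit 2) (@Lb.r r387 (@Lb.fp (nat_lit 3) t2372)))))))))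
noncomputable def l9581 : Lb := (@Lb.d (nat_lit 585) (nat_lit 272) (nat_lit 321) (@Lb.r r2344 (@Lb.r r1559 (@Lb.r r345 (@Lb.r r678 (@Lb.g g4 (@Lb.d (nat_lit 69) (nat_lit 0) (nat_lit 0) (@Lb.t (@Lb.fp (nat_lit 3) t127)))))))))
noncomputable def l9582 : Lb := (@Lb.d (nat_lit 10) (nat_lit 264) (nat_lit 128) (@Lb.g g8 (@Lb.g g10 (@Lb.g g11 (@Lb.r r2475 (@Lb.r r1121 (@Lb.r r2646 (@Lb.r r2436 (@Lb.d (nat_lit 101) (nat_lit 73) (nat_lit 681) (@Lb.t (@Lb.fp (nat_lit 9) t386)))))))))))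
noncomputable def l9583 : Lb := (@Lb.d (nat_lit 2) (nat_lit 0) (nat_lit 138) (@Lb.g g8 (@Lb.g g10 (@Lb.g g11 (@Lb.r r2707 (@Lb.r r2345 (@Lb.r r1188 (@Lb.r r1158 (@Lb.d (nat_lit 289) (nat_lit 5) (nat_lit 32) (@Lb.t (@Lb.fp (nat_lit 9) t296)))))))))))
noncomputable def l9584 : Lb := (@Lb.d (nat_lit 10) (nat_lit 256) (nat_lit 0) (@Lb.g g4 (@Lb.r r153 (@Lb.r r402 (@Lb.r r1608 (@Lb.d (nat_lit 401) (nat_lit 164) (nat_lit 16) (@Lb.t (@Lb.fm (nat_lit 3) t652))))))))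
noncomputable def l9585 : Lb := (@Lb.d (nat_lit 10) (nat_lit 256) (nat_lit 0) (@Lb.g g4 (@Lb.g g11 (@Lb.r r153 (@Lb.r r1176 (@Lb.d (nat_lit 293) (nat_lit 73) (nat_lit 32) (@Lb.fm (nat_lit 3) t87)))))))
noncomputable def l9586 : Lb := (@Lb.d (nat_lit 24) (nat_lit 256) (nat_lit 152) (@Lb.g g8 (@Lb.g g10 (@Lb.g g11 (@Lb.r r1435 (@Lb.r r21 (@Lb.r r2084 (@Lb.d (nat_lit 522) (nat_lit 25) (nat_lit 297) (@Lb.t (@Lb.fm (nat_lit 9) t2373))))))))))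
noncomputable def l9587 : Lb := (@Lb.d (nat_lit 2) (nat_lit 512) (nat_lit 0) (@Lb.g g8 (@Lb.g g10 (@Lb.g g11 (@Lb.r r2707 (@Lb.r r2345 (@Lb.r r1188 (@Lb.r r1158 (@Lb.d (nat_lit 289) (nat_lit 5) (nat_lit 32) (@Lb.t (@Lb.fp (nat_lit 9) t296)))))))))))
noncomputable def l9588 : Lb := (@Lb.d (nat_lit 24) (nat_lit 512) (nat_lit 152) (@Lb.g g8 (@Lb.g g10 (@Lb.g g11 (@Lb.r r1435 (@Lb.r r21 (@Lb.r r2084 (@Lb.d (nat_lit 522) (nat_lit 20) (nat_lit 296) (@Lb.t (@Lb.fm (nat_lit 9) t2374))))))))))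
noncomputable def l9589 : Lb := (@Lb.d (nat_lit 2) (nat_lit 0) (nat_lit 0) (@Lb.g g8 (@Lb.r r273 (@Lb.r r555 (@Lb.r r680 (@Lb.r r170 (@Lb.r r153 (@Lb.d (nat_lit 538) (nat_lit 10) (nat_lit 153) (@Lb.t (@Lb.fm (nat_lit 3) t516))))))))))
noncomputable def l9590 : Lb := (@Lb.r r1371 (@Lb.r r81 (@Lb.r r162 (@Lb.r r145 (@Lb.r r1416 (@Lb.d (nat_lit 282) (nat_lit 266) (nat_lit 18) (@Lb.fp (nat_lit 1) t1277)))))))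
noncomputable def l9591 : Lb := (@Lb.d (nat_lit 0) (nat_lit 0) (nat_lit 128) (@Lb.g g7 (@Lb.d (nat_lit 0) (nat_lit 0) (nat_lit 64) (@Lb.t (@Lb.fm (nat_lit 3) t2)))))
noncomputable def l9592 : Lb := (@Lb.d (nat_lit 0) (nat_lit 256) (nat_lit 9) (@Lb.g g10 (@Lb.r r595 (@Lb.r r386 (@Lb.d (nat_lit 0) (nat_lit 98) (nat_lit 146) (@Lb.t (@Lb.fp (nat_lit 3) t356)))))))
noncomputable def l9593 : Lb := (@Lb.d (nat_lit 1) (nat_lit 258) (nat_lit 130) (@Lb.g g4 (@Lb.g g9 (@Lb.g g10 (@Lb.g g11 (@Lb.r r1443 (@Lb.r r386 (@Lb.r r97 (@Lb.d (nat_lit 1) (nat_lit 90) (nat_lit 324) (@Lb.fm (nat_lit 9) t433))))))))))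
noncomputable def l9594 : Lb := (@Lb.d (nat_lit 0) (nat_lit 514) (nat_lit 130) (@Lb.g g9 (@Lb.g g10 (@Lb.g g11 (@Lb.r r1443 (@Lb.r r386 (@Lb.r r97 (@Lb.r r8 (@Lb.d (nat_lit 2) (nat_lit 90) (nat_lit 324) (@Lb.t (@Lb.fp (nat_lit 9) t433)))))))))))
noncomputable def l9595 : Lb := (@Lb.g g7 (@Lb.d (nat_lit 353) (nat_lit 0) (nat_lit 597) (@Lb.t (@Lb.fm (nat_lit 3) t1090))))
noncomputable def l9596 : Lb := (@Lb.d (nat_lit 0) (nat_lit 514) (nat_lit 128) (@Lb.g g9 (@Lb.g g11 (@Lb.r r2467 (@Lb.r r2469 (@Lb.r r2150 (@Lb.r r24 (@Lb.d (nat_lit 98) (nat_lit 0) (nat_lit 420) (@Lb.fm (nat_lit 3) t288)))))))))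
noncomputable def l9597 : Lb := (@Lb.d (nat_lit 0) (nat_lit 282) (nat_lit 0) (@Lb.g g9 (@Lb.r r1543 (@Lb.r r2376 (@Lb.r r1158 (@Lb.d (nat_lit 296) (nat_lit 134) (nat_lit 0) (@Lb.t (@Lb.fm (nat_lit 3) t1503))))))))
noncomputable def l9598 : Lb := (@Lb.r r82 (@Lb.d (nat_lit 34) (nat_lit 258) (nat_lit 128) (@Lb.g g8 (@Lb.g g9 (@Lb.g g11 (@Lb.r r363 (@Lb.r r582 (@Lb.r r408 (@Lb.d (nat_lit 150) (nat_lit 24) (nat_lit 137) (@Lb.t (@Lb.fp (nat_lit 9) t31)))))))))))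
noncomputable def l9599 : Lb := (@Lb.r r82 (@Lb.d (nat_lit 0) (nat_lit 2) (nat_lit 128) (@Lb.g g9 (@Lb.g g11 (@Lb.r r299 (@Lb.r r386 (@Lb.r r289 (@Lb.r r24 (@Lb.d (nat_lit 74) (nat_lit 149) (nat_lit 328) (@Lb.fp (nat_lit 3) t2375))))))))))
noncomputable def l9600 : Lb := (@Lb.d (nat_lit 66) (nat_lit 34) (nat_lit 138) (@Lb.r r82 (@Lb.r r531 (@Lb.r r277 (@Lb.g g7 (@Lb.g g5 (@Lb.g g4 (@Lb.d (nat_lit 1) (nat_lit 17) (nat_lit 128) (@Lb.r r98 (@Lb.t (@Lb.fm (nat_lit 9) t68)))))))))))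
noncomputable def l9601 : Lb := (@Lb.r r322 (@Lb.d (nat_lit 32) (nat_lit 258) (nat_lit 576) (@Lb.g g8 (@Lb.g g9 (@Lb.g g7 (@Lb.r r361 (@Lb.r r150 (@Lb.r r84 (@Lb.d (nat_lit 17) (nat_lit 86) (nat_lit 585) (@Lb.t (@Lb.fp (nat_lit 9) t1115)))))))))))
noncomputable def l9602 : Lb := (@Lb.d (nat_lit 640) (nat_lit 514) (nat_lit 262) (@Lb.r r24 (@Lb.r r323 (@Lb.g g7 (@Lb.g g6 (@Lb.g g9 (@Lb.d (nat_lit 8) (nat_lit 4) (nat_lit 65) (@Lb.t (@Lb.fp (nat_lit 9) t7)))))))))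
noncomputable def l9603 : Lb := (@Lb.d (nat_lit 0) (nat_lit 258) (nat_lit 4) (@Lb.g g8 (@Lb.g g9 (@Lb.g g10 (@Lb.g g11 (@Lb.r r1367 (@Lb.r r1366 (@Lb.r r97 (@Lb.r r24 (@Lb.d (nat_lit 154) (nat_lit 9) (nat_lit 418) (@Lb.fp (nat_lit 9) t277)))))))))))
noncomputable def l9604 : Lb := (@Lb.d (nat_lit 645) (nat_lit 256) (nat_lit 256) (@Lb.r r24 (@Lb.g g9 (@Lb.t (@Lb.fm (nat_lit 3) t2308)))))
noncomputable def l9605 : Lb := (@Lb.r r21 (@Lb.d (nat_lit 8) (nat_lit 264) (nat_lit 130) (@Lb.g g8 (@Lb.g g10 (@Lb.g g11 (@Lb.r r427 (@Lb.r r533 (@Lb.r r360 (@Lb.r r102 (@Lb.d (nat_lit 21) (nat_lit 144) (nat_lit 133) (@Lb.t (@Lb.fp (nat_lit 9) t51))))))))))))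
noncomputable def l9606 : Lb := (@Lb.d (nat_lit 8) (nat_lit 2) (nat_lit 130) (@Lb.g g9 (@Lb.g g10 (@Lb.g g11 (@Lb.r r614 (@Lb.r r404 (@Lb.r r683 (@Lb.r r673 (@Lb.d (nat_lit 9) (nat_lit 154) (nat_lit 9) (@Lb.t (@Lb.fm (nat_lit 9) t51)))))))))))
noncomputable def l9607 : Lb := (@Lb.d (nat_lit 0) (nat_lit 513) (nat_lit 130) (@Lb.g g8 (@Lb.g g9 (@Lb.g g10 (@Lb.g g11 (@Lb.r r1451 (@Lb.r r1321 (@Lb.r r104 (@Lb.r r70 (@Lb.r r132 (@Lb.d (nat_lit 9) (nat_lit 73) (nat_lit 681) (@Lb.fp (nat_lit 9) t51))))))))))))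
noncomputable def l9608 : Lb := (@Lb.r r323 (@Lb.d (nat_lit 0) (nat_lit 521) (nat_lit 4) (@Lb.g g8 (@Lb.g g9 (@Lb.g g6 (@Lb.r r1635 (@Lb.r r1553 (@Lb.r r1412 (@Lb.d (nat_lit 354) (nat_lit 97) (nat_lit 72) (@Lb.t (@Lb.fm (nat_lit 9) t2376)))))))))))
noncomputable def l9609 : Lb := (@Lb.d (nat_lit 0) (nat_lit 514) (nat_lit 4) (@Lb.g g8 (@Lb.g g9 (@Lb.g g10 (@Lb.g g11 (@Lb.r r1367 (@Lb.r r1366 (@Lb.r r97 (@Lb.r r24 (@Lb.d (nat_lit 153) (nat_lit 9) (nat_lit 418) (@Lb.fp (nat_lit 9) t592)))))))))))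
noncomputable def l9610 : Lb := (@Lb.d (nat_lit 640) (nat_lit 2) (nat_lit 90) (@Lb.r r24 (@Lb.r r386 (@Lb.r r1347 (@Lb.g g6 (@Lb.g g9 (@Lb.d (nat_lit 8) (nat_lit 161) (nat_lit 1) (@Lb.fp (nat_lit 3) t2377))))))))
noncomputable def l9611 : Lb := (@Lb.d (nat_lit 146) (nat_lit 265) (nat_lit 72) (@Lb.g g8 (@Lb.g g9 (@Lb.g g10 (@Lb.g g11 (@Lb.r r1443 (@Lb.r r678 (@Lb.r r1313 (@Lb.r r1540 (@Lb.d (nat_lit 390) (nat_lit 169) (nat_lit 96) (@Lb.fp (nat_lit 9) t2378)))))))))))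
noncomputable def l9612 : Lb := (@Lb.d (nat_lit 40) (nat_lit 597) (nat_lit 89) (@Lb.r r1385 (@Lb.r r2715 (@Lb.r r678 (@Lb.g g5 (@Lb.g g8 (@Lb.d (nat_lit 514) (nat_lit 9) (nat_lit 0) (@Lb.r r74 (@Lb.fm (nat_lit 3) t2379)))))))))
noncomputable def l9613 : Lb := (@Lb.d (nat_lit 146) (nat_lit 2) (nat_lit 73) (@Lb.g g8 (@Lb.g g9 (@Lb.g g10 (@Lb.g g11 (@Lb.r r2603 (@Lb.r r2665 (@Lb.r r2454 (@Lb.r r1124 (@Lb.d (nat_lit 274) (nat_lit 40) (nat_lit 577) (@Lb.fm (nat_lit 9) t2380)))))))))))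
noncomputable def l9614 : Lb := (@Lb.d (nat_lit 146) (nat_lit 2) (nat_lit 73) (@Lb.g g8 (@Lb.g g9 (@Lb.g g10 (@Lb.g g11 (@Lb.r r2731 (@Lb.r r1386 (@Lb.r r1561 (@Lb.r r1540 (@Lb.d (nat_lit 393) (nat_lit 25) (nat_lit 293) (@Lb.fm (nat_lit 9) t531)))))))))))
noncomputable def l9615 : Lb := (@Lb.d (nat_lit 8) (nat_lit 258) (nat_lit 64) (@Lb.g g9 (@Lb.g g11 (@Lb.r r24 (@Lb.r r2581 (@Lb.r r2323 (@Lb.r r2178 (@Lb.d (nat_lit 402) (nat_lit 97) (nat_lit 101) (@Lb.fm (nat_lit 3) t2381)))))))))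
noncomputable def l9616 : Lb := (@Lb.d (nat_lit 390) (nat_lit 338) (nat_lit 322) (@Lb.r r2321 (@Lb.r r1635 (@Lb.g g10 (@Lb.g g5 (@Lb.d (nat_lit 32) (nat_lit 6) (nat_lit 24) (@Lb.r r387 (@Lb.fm (nat_lit 3) t934))))))))
noncomputable def l9617 : Lb := (@Lb.d (nat_lit 136) (nat_lit 514) (nat_lit 128) (@Lb.g g9 (@Lb.g g11 (@Lb.r r24 (@Lb.r r1365 (@Lb.r r2723 (@Lb.r r2178 (@Lb.d (nat_lit 402) (nat_lit 152) (nat_lit 66) (@Lb.fp (nat_lit 3) t287)))))))))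
noncomputable def l9618 : Lb := (@Lb.d (nat_lit 2) (nat_lit 2) (nat_lit 130) (@Lb.g g8 (@Lb.g g9 (@Lb.g g10 (@Lb.g g11 (@Lb.r r427 (@Lb.r r424 (@Lb.r r106 (@Lb.r r25 (@Lb.d (nat_lit 521) (nat_lit 9) (nat_lit 33) (@Lb.fm (nat_lit 9) t1231)))))))))))
noncomputable def l9619 : Lb := (@Lb.d (nat_lit 1) (nat_lit 2) (nat_lit 128) (@Lb.g g8 (@Lb.g g9 (@Lb.g g11 (@Lb.r r408 (@Lb.r r1447 (@Lb.r r2178 (@Lb.r r2325 (@Lb.r r1572 (@Lb.d (nat_lit 274) (nat_lit 136) (nat_lit 137) (@Lb.t (@Lb.fm (nat_lit 9) t64))))))))))))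
noncomputable def l9620 : Lb := (@Lb.d (nat_lit 266) (nat_lit 33) (nat_lit 0) (@Lb.r r1284 (@Lb.r r101 (@Lb.r r2659 (@Lb.r r346 (@Lb.g g7 (@Lb.g g6 (@Lb.d (nat_lit 0) (nat_lit 0) (nat_lit 65) (@Lb.fm (nat_lit 3) t856)))))))))
noncomputable def l9621 : Lb := (@Lb.d (nat_lit 0) (nat_lit 545) (nat_lit 130) (@Lb.g g9 (@Lb.g g10 (@Lb.g g11 (@Lb.r r679 (@Lb.r r610 (@Lb.r r280 (@Lb.r r613 (@Lb.d (nat_lit 149) (nat_lit 65) (nat_lit 144) (@Lb.t (@Lb.fp (nat_lit 9) t2382)))))))))))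
noncomputable def l9622 : Lb := (@Lb.r r323 (@Lb.d (nat_lit 0) (nat_lit 34) (nat_lit 18) (@Lb.g g9 (@Lb.g g10 (@Lb.r r595 (@Lb.r r1321 (@Lb.r r36 (@Lb.d (nat_lit 394) (nat_lit 2) (nat_lit 593) (@Lb.fm (nat_lit 3) t1024)))))))))
noncomputable def l9623 : Lb := (@Lb.d (nat_lit 2) (nat_lit 546) (nat_lit 66) (@Lb.g g8 (@Lb.g g9 (@Lb.g g10 (@Lb.g g11 (@Lb.r r1451 (@Lb.r r2122 (@Lb.r r2193 (@Lb.d (nat_lit 277) (nat_lit 153) (nat_lit 421) (@Lb.fp (nat_lit 9) t2383))))))))))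
noncomputable def l9624 : Lb := (@Lb.d (nat_lit 2) (nat_lit 292) (nat_lit 128) (@Lb.g g8 (@Lb.g g9 (@Lb.g g10 (@Lb.g g11 (@Lb.r r1194 (@Lb.r r424 (@Lb.r r279 (@Lb.r r1065 (@Lb.r r2084 (@Lb.d (nat_lit 258) (nat_lit 96) (nat_lit 10) (@Lb.fm (nat_lit 9) t125))))))))))))
noncomputable def l9625 : Lb := (@Lb.r r275 (@Lb.d (nat_lit 0) (nat_lit 512) (nat_lit 2) (@Lb.g g9 (@Lb.g g10 (@Lb.r r1699 (@Lb.r r386 (@Lb.r r613 (@Lb.r r24 (@Lb.d (nat_lit 352) (nat_lit 0) (nat_lit 384) (@Lb.fm (nat_lit 3) t1937))))))))))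
noncomputable def l9626 : Lb := (@Lb.r r323 (@Lb.d (nat_lit 130) (nat_lit 290) (nat_lit 18) (@Lb.g g8 (@Lb.g g9 (@Lb.g g10 (@Lb.r r595 (@Lb.r r341 (@Lb.r r1192 (@Lb.d (nat_lit 133) (nat_lit 134) (nat_lit 578) (@Lb.t (@Lb.fm (nat_lit 9) t88)))))))))))
noncomputable def l9627 : Lb := (@Lb.r r388 (@Lb.r r587 (@Lb.r r2390 (@Lb.r r1057 (@Lb.r r1668 (@Lb.d (nat_lit 0) (nat_lit 65) (nat_lit 84) (@Lb.fp (nat_lit 1) t578)))))))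
noncomputable def l9628 : Lb := (@Lb.d (nat_lit 0) (nat_lit 512) (nat_lit 130) (@Lb.g g9 (@Lb.g g10 (@Lb.g g11 (@Lb.r r1307 (@Lb.r r2709 (@Lb.r r2646 (@Lb.r r1416 (@Lb.d (nat_lit 514) (nat_lit 2) (nat_lit 2) (@Lb.t (@Lb.fp (nat_lit 9) t441)))))))))))
noncomputable def l9629 : Lb := (@Lb.d (nat_lit 0) (nat_lit 258) (nat_lit 128) (@Lb.g g9 (@Lb.g g11 (@Lb.r r1371 (@Lb.r r162 (@Lb.r r145 (@Lb.r r1416 (@Lb.d (nat_lit 518) (nat_lit 0) (nat_lit 0) (@Lb.fm (nat_lit 3) t899)))))))))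
noncomputable def l9630 : Lb := (@Lb.d (nat_lit 0) (nat_lit 514) (nat_lit 128) (@Lb.g g9 (@Lb.g g11 (@Lb.r r1371 (@Lb.r r162 (@Lb.r r145 (@Lb.r r1416 (@Lb.d (nat_lit 518) (nat_lit 10) (nat_lit 2) (@Lb.fm (nat_lit 3) t899)))))))))
noncomputable def l9631 : Lb := (@Lb.d (nat_lit 2) (nat_lit 290) (nat_lit 2) (@Lb.g g8 (@Lb.g g9 (@Lb.g g10 (@Lb.r r1194 (@Lb.r r2468 (@Lb.r r1307 (@Lb.r r1573 (@Lb.d (nat_lit 385) (nat_lit 18) (nat_lit 586) (@Lb.t (@Lb.fm (nat_lit 9) t284)))))))))))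
noncomputable def l9632 : Lb := (@Lb.d (nat_lit 65) (nat_lit 512) (nat_lit 518) (@Lb.r r24 (@Lb.r r1173 (@Lb.r r610 (@Lb.g g11 (@Lb.g g6 (@Lb.g g5 (@Lb.d (nat_lit 0) (nat_lit 34) (nat_lit 390) (@Lb.t (@Lb.fp (nat_lit 9) t719))))))))))
noncomputable def l9633 : Lb := (@Lb.d (nat_lit 512) (nat_lit 256) (nat_lit 0) (@Lb.r r24 (@Lb.r r1317 (@Lb.r r610 (@Lb.g g11 (@Lb.g g5 (@Lb.d (nat_lit 0) (nat_lit 0) (nat_lit 384) (@Lb.r r578 (@Lb.fp (nat_lit 3) t719)))))))))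
noncomputable def l9634 : Lb := (@Lb.d (nat_lit 384) (nat_lit 2) (nat_lit 0) (@Lb.r r24 (@Lb.r r2394 (@Lb.g g11 (@Lb.g g9 (@Lb.d (nat_lit 8) (nat_lit 2) (nat_lit 256) (@Lb.r r578 (@Lb.fp (nat_lit 3) t650))))))))
noncomputable def l9635 : Lb := (@Lb.d (nat_lit 294) (nat_lit 146) (nat_lit 389) (@Lb.r r2129 (@Lb.r r354 (@Lb.r r81 (@Lb.r r1671 (@Lb.g g7 (@Lb.g g6 (@Lb.g g5 (@Lb.g g8 (@Lb.d (nat_lit 2) (nat_lit 1) (nat_lit 134) (@Lb.fp (nat_lit 9) t2384)))))))))))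
noncomputable def l9636 : Lb := (@Lb.r r21 (@Lb.d (nat_lit 161) (nat_lit 512) (nat_lit 0) (@Lb.g g8 (@Lb.r r1702 (@Lb.r r1685 (@Lb.r r1559 (@Lb.r r2324 (@Lb.d (nat_lit 582) (nat_lit 32) (nat_lit 586) (@Lb.t (@Lb.fp (nat_lit 3) t210))))))))))
noncomputable def l9637 : Lb := (@Lb.g g5 (@Lb.r r154 (@Lb.r r660 (@Lb.r r407 (@Lb.r r609 (@Lb.d (nat_lit 0) (nat_lit 64) (nat_lit 256) (@Lb.t (@Lb.fm (nat_lit 3) t334))))))))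
noncomputable def l9638 : Lb := (@Lb.d (nat_lit 400) (nat_lit 408) (nat_lit 152) (@Lb.r r1624 (@Lb.r r2341 (@Lb.r r323 (@Lb.g g7 (@Lb.g g6 (@Lb.d (nat_lit 0) (nat_lit 4) (nat_lit 65) (@Lb.fm (nat_lit 3) t2385))))))))
noncomputable def l9639 : Lb := (@Lb.d (nat_lit 273) (nat_lit 100) (nat_lit 277) (@Lb.r r2696 (@Lb.r r1451 (@Lb.r r2401 (@Lb.g g7 (@Lb.g g6 (@Lb.g g4 (@Lb.d (nat_lit 70) (nat_lit 4) (nat_lit 65) (@Lb.t (@Lb.fp (nat_lit 9) t2385))))))))))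
noncomputable def l9640 : Lb := (@Lb.d (nat_lit 294) (nat_lit 658) (nat_lit 389) (@Lb.r r2129 (@Lb.r r354 (@Lb.r r81 (@Lb.r r1671 (@Lb.g g7 (@Lb.g g6 (@Lb.g g5 (@Lb.g g8 (@Lb.d (nat_lit 0) (nat_lit 1) (nat_lit 134) (@Lb.fp (nat_lit 9) t2386)))))))))))
noncomputable def l9641 : Lb := (@Lb.d (nat_lit 2) (nat_lit 546) (nat_lit 66) (@Lb.g g8 (@Lb.g g9 (@Lb.g g10 (@Lb.g g11 (@Lb.r r1451 (@Lb.r r2154 (@Lb.r r2073 (@Lb.d (nat_lit 265) (nat_lit 137) (nat_lit 665) (@Lb.fp (nat_lit 9) t925))))))))))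
noncomputable def l9642 : Lb := (@Lb.d (nat_lit 8) (nat_lit 546) (nat_lit 66) (@Lb.g g9 (@Lb.g g10 (@Lb.g g11 (@Lb.r r423 (@Lb.r r2146 (@Lb.r r1048 (@Lb.r r2149 (@Lb.d (nat_lit 533) (nat_lit 104) (nat_lit 418) (@Lb.t (@Lb.fm (nat_lit 9) t827)))))))))))
noncomputable def l9643 : Lb := (@Lb.d (nat_lit 8) (nat_lit 34) (nat_lit 9) (@Lb.g g9 (@Lb.g g10 (@Lb.g g11 (@Lb.r r423 (@Lb.r r2146 (@Lb.r r1048 (@Lb.r r2149 (@Lb.d (nat_lit 533) (nat_lit 104) (nat_lit 418) (@Lb.t (@Lb.fm (nat_lit 9) t827)))))))))))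
noncomputable def l9644 : Lb := (@Lb.d (nat_lit 2) (nat_lit 258) (nat_lit 10) (@Lb.g g8 (@Lb.g g9 (@Lb.g g10 (@Lb.r r1623 (@Lb.r r2193 (@Lb.r r340 (@Lb.r r602 (@Lb.d (nat_lit 665) (nat_lit 66) (nat_lit 354) (@Lb.t (@Lb.fp (nat_lit 9) t2387)))))))))))
noncomputable def l9645 : Lb := (@Lb.d (nat_lit 16) (nat_lit 672) (nat_lit 646) (@Lb.r r24 (@Lb.r r101 (@Lb.r r386 (@Lb.g g11 (@Lb.g g6 (@Lb.g g5 (@Lb.d (nat_lit 0) (nat_lit 0) (nat_lit 129) (@Lb.t (@Lb.fp (nat_lit 9) t1117))))))))))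
noncomputable def l9646 : Lb := (@Lb.d (nat_lit 9) (nat_lit 289) (nat_lit 66) (@Lb.g g8 (@Lb.g g9 (@Lb.g g10 (@Lb.g g11 (@Lb.r r1451 (@Lb.r r2154 (@Lb.r r2073 (@Lb.d (nat_lit 260) (nat_lit 136) (nat_lit 665) (@Lb.fp (nat_lit 9) t1117))))))))))
noncomputable def l9647 : Lb := (@Lb.d (nat_lit 321) (nat_lit 256) (nat_lit 512) (@Lb.r r24 (@Lb.r r101 (@Lb.r r1682 (@Lb.r r579 (@Lb.g g7 (@Lb.g g6 (@Lb.g g5 (@Lb.d (nat_lit 0) (nat_lit 0) (nat_lit 134) (@Lb.t (@Lb.fp (nat_lit 9) t2033)))))))))))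
noncomputable def l9648 : Lb := (@Lb.d (nat_lit 37) (nat_lit 518) (nat_lit 0) (@Lb.r r24 (@Lb.r r97 (@Lb.r r406 (@Lb.r r323 (@Lb.g g7 (@Lb.g g6 (@Lb.g g5 (@Lb.d (nat_lit 0) (nat_lit 1) (nat_lit 64) (@Lb.t (@Lb.fm (nat_lit 9) t175)))))))))))
noncomputable def l9649 : Lb := (@Lb.d (nat_lit 1) (nat_lit 258) (nat_lit 26) (@Lb.r r2145 (@Lb.r r1174 (@Lb.r r2404 (@Lb.g g7 (@Lb.d (nat_lit 128) (nat_lit 16) (nat_lit 320) (@Lb.r r578 (@Lb.t (@Lb.fm (nat_lit 3) t116)))))))))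
noncomputable def l9650 : Lb := (@Lb.d (nat_lit 2) (nat_lit 521) (nat_lit 161) (@Lb.g g8 (@Lb.g g9 (@Lb.g g6 (@Lb.g g11 (@Lb.r r2667 (@Lb.r r2657 (@Lb.r r24 (@Lb.d (nat_lit 265) (nat_lit 89) (nat_lit 40) (@Lb.fp (nat_lit 9) t1923))))))))))
noncomputable def l9651 : Lb := (@Lb.d (nat_lit 4) (nat_lit 10) (nat_lit 161) (@Lb.g g8 (@Lb.g g9 (@Lb.g g6 (@Lb.g g11 (@Lb.r r2667 (@Lb.r r2657 (@Lb.r r24 (@Lb.d (nat_lit 258) (nat_lit 90) (nat_lit 40) (@Lb.fp (nat_lit 9) t1923))))))))))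
noncomputable def l9652 : Lb := (@Lb.d (nat_lit 582) (nat_lit 65) (nat_lit 321) (@Lb.r r2312 (@Lb.r r2145 (@Lb.r r615 (@Lb.g g6 (@Lb.g g4 (@Lb.d (nat_lit 64) (nat_lit 4) (nat_lit 17) (@Lb.r r387 (@Lb.fp (nat_lit 3) t264)))))))))
noncomputable def l9653 : Lb := (@Lb.d (nat_lit 106) (nat_lit 38) (nat_lit 86) (@Lb.r r408 (@Lb.r r2145 (@Lb.r r583 (@Lb.g g6 (@Lb.g g4 (@Lb.d (nat_lit 65) (nat_lit 4) (nat_lit 17) (@Lb.r r387 (@Lb.fp (nat_lit 3) t116)))))))))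
noncomputable def l9654 : Lb := (@Lb.r r326 (@Lb.d (nat_lit 2) (nat_lit 10) (nat_lit 576) (@Lb.g g8 (@Lb.g g9 (@Lb.g g7 (@Lb.r r594 (@Lb.r r1697 (@Lb.r r2632 (@Lb.d (nat_lit 354) (nat_lit 38) (nat_lit 529) (@Lb.t (@Lb.fp (nat_lit 9) t1185)))))))))))
noncomputable def l9655 : Lb := (@Lb.d (nat_lit 96) (nat_lit 256) (nat_lit 170) (@Lb.r r402 (@Lb.r r101 (@Lb.g g4 (@Lb.d (nat_lit 1) (nat_lit 0) (nat_lit 0) (@Lb.t (@Lb.fm (nat_lit 3) t720)))))))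
noncomputable def l9656 : Lb := (@Lb.d (nat_lit 8) (nat_lit 290) (nat_lit 0) (@Lb.g g5 (@Lb.r r680 (@Lb.r r2667 (@Lb.r r2178 (@Lb.r r2713 (@Lb.d (nat_lit 128) (nat_lit 84) (nat_lit 618) (@Lb.t (@Lb.fp (nat_lit 3) t456)))))))))
noncomputable def l9657 : Lb := (@Lb.r r82 (@Lb.d (nat_lit 2) (nat_lit 42) (nat_lit 64) (@Lb.g g8 (@Lb.g g9 (@Lb.g g11 (@Lb.r r355 (@Lb.r r1174 (@Lb.r r2133 (@Lb.d (nat_lit 358) (nat_lit 136) (nat_lit 281) (@Lb.t (@Lb.fp (nat_lit 9) t868)))))))))))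
noncomputable def l9658 : Lb := (@Lb.d (nat_lit 0) (nat_lit 36) (nat_lit 130) (@Lb.g g9 (@Lb.g g10 (@Lb.g g11 (@Lb.r r2723 (@Lb.r r2209 (@Lb.r r418 (@Lb.d (nat_lit 0) (nat_lit 101) (nat_lit 357) (@Lb.t (@Lb.fp (nat_lit 9) t2388))))))))))
noncomputable def l9659 : Lb := (@Lb.d (nat_lit 2) (nat_lit 512) (nat_lit 128) (@Lb.g g8 (@Lb.g g11 (@Lb.r r346 (@Lb.r r1447 (@Lb.r r1317 (@Lb.d (nat_lit 644) (nat_lit 72) (nat_lit 598) (@Lb.fp (nat_lit 3) t867))))))))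
noncomputable def l9660 : Lb := (@Lb.r r70 (@Lb.d (nat_lit 20) (nat_lit 0) (nat_lit 0) (@Lb.g g8 (@Lb.g g9 (@Lb.r r1706 (@Lb.r r1687 (@Lb.r r1553 (@Lb.r r548 (@Lb.d (nat_lit 516) (nat_lit 17) (nat_lit 384) (@Lb.fm (nat_lit 3) t2093))))))))))
noncomputable def l9661 : Lb := (@Lb.d (nat_lit 2) (nat_lit 146) (nat_lit 522) (@Lb.r r610 (@Lb.r r617 (@Lb.r r424 (@Lb.g g11 (@Lb.g g6 (@Lb.d (nat_lit 32) (nat_lit 0) (nat_lit 129) (@Lb.fp (nat_lit 3) t2389))))))))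
noncomputable def l9662 : Lb := (@Lb.d (nat_lit 24) (nat_lit 674) (nat_lit 518) (@Lb.r r169 (@Lb.r r100 (@Lb.r r386 (@Lb.g g11 (@Lb.g g6 (@Lb.g g5 (@Lb.d (nat_lit 4) (nat_lit 0) (nat_lit 129) (@Lb.t (@Lb.fm (nat_lit 9) t2389))))))))))
noncomputable def l9663 : Lb := (@Lb.d (nat_lit 2) (nat_lit 2) (nat_lit 73) (@Lb.g g8 (@Lb.g g9 (@Lb.g g10 (@Lb.g g11 (@Lb.r r427 (@Lb.r r682 (@Lb.r r25 (@Lb.d (nat_lit 392) (nat_lit 21) (nat_lit 648) (@Lb.fm (nat_lit 9) t672))))))))))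
noncomputable def l9664 : Lb := (@Lb.d (nat_lit 0) (nat_lit 521) (nat_lit 130) (@Lb.g g9 (@Lb.g g10 (@Lb.g g11 (@Lb.r r1634 (@Lb.r r97 (@Lb.d (nat_lit 0) (nat_lit 100) (nat_lit 550) (@Lb.t (@Lb.fp (nat_lit 9) t225)))))))))
noncomputable def l9665 : Lb := (@Lb.d (nat_lit 8) (nat_lit 602) (nat_lit 66) (@Lb.r r657 (@Lb.r r667 (@Lb.r r584 (@Lb.r r326 (@Lb.g g7 (@Lb.g g6 (@Lb.g g5 (@Lb.d (nat_lit 0) (nat_lit 2) (nat_lit 134) (@Lb.t (@Lb.fp (nat_lit 9) t74)))))))))))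
noncomputable def l9666 : Lb := (@Lb.d (nat_lit 645) (nat_lit 646) (nat_lit 580) (@Lb.r r1317 (@Lb.r r2648 (@Lb.r r2651 (@Lb.g g6 (@Lb.g g5 (@Lb.d (nat_lit 20) (nat_lit 20) (nat_lit 2) (@Lb.r r387 (@Lb.fp (nat_lit 3) t2390)))))))))
noncomputable def l9667 : Lb := (@Lb.r r82 (@Lb.d (nat_lit 4) (nat_lit 256) (nat_lit 128) (@Lb.g g8 (@Lb.g g9 (@Lb.g g11 (@Lb.r r1691 (@Lb.r r610 (@Lb.r r1065 (@Lb.r r1416 (@Lb.d (nat_lit 656) (nat_lit 17) (nat_lit 138) (@Lb.t (@Lb.fp (nat_lit 9) t2391))))))))))))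
noncomputable def l9668 : Lb := (@Lb.r r82 (@Lb.d (nat_lit 4) (nat_lit 265) (nat_lit 0) (@Lb.g g5 (@Lb.g g7 (@Lb.r r98 (@Lb.d (nat_lit 0) (nat_lit 6) (nat_lit 69) (@Lb.fm (nat_lit 3) t1356)))))))
noncomputable def l9669 : Lb := (@Lb.r r82 (@Lb.d (nat_lit 0) (nat_lit 514) (nat_lit 0) (@Lb.g g4 (@Lb.g g9 (@Lb.g g7 (@Lb.r r165 (@Lb.r r98 (@Lb.d (nat_lit 32) (nat_lit 5) (nat_lit 68) (@Lb.t (@Lb.fp (nat_lit 9) t1356))))))))))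
noncomputable def l9670 : Lb := (@Lb.d (nat_lit 8) (nat_lit 85) (nat_lit 65) (@Lb.r r657 (@Lb.r r667 (@Lb.r r584 (@Lb.r r326 (@Lb.g g7 (@Lb.g g6 (@Lb.g g5 (@Lb.d (nat_lit 0) (nat_lit 2) (nat_lit 134) (@Lb.t (@Lb.fp (nat_lit 9) t68)))))))))))
noncomputable def l9671 : Lb := (@Lb.d (nat_lit 2) (nat_lit 258) (nat_lit 130) (@Lb.g g8 (@Lb.g g9 (@Lb.g g10 (@Lb.g g11 (@Lb.r r1699 (@Lb.r r164 (@Lb.r r614 (@Lb.r r2149 (@Lb.r r1156 (@Lb.d (nat_lit 512) (nat_lit 98) (nat_lit 10) (@Lb.fp (nat_lit 9) t445))))))))))))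
noncomputable def l9672 : Lb := (@Lb.d (nat_lit 0) (nat_lit 2) (nat_lit 128) (@Lb.g g9 (@Lb.g g10 (@Lb.g g11 (@Lb.r r2626 (@Lb.r r145 (@Lb.d (nat_lit 0) (nat_lit 88) (nat_lit 553) (@Lb.t (@Lb.fm (nat_lit 9) t153)))))))))
noncomputable def l9673 : Lb := (@Lb.d (nat_lit 0) (nat_lit 329) (nat_lit 34) (@Lb.r r2403 (@Lb.g g10 (@Lb.d (nat_lit 0) (nat_lit 8) (nat_lit 2) (@Lb.t (@Lb.fp (nat_lit 3) t1673))))))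
noncomputable def l9674 : Lb := (@Lb.d (nat_lit 4) (nat_lit 34) (nat_lit 132) (@Lb.g g8 (@Lb.g g9 (@Lb.g g10 (@Lb.g g11 (@Lb.r r1706 (@Lb.r r676 (@Lb.r r551 (@Lb.r r533 (@Lb.r r1060 (@Lb.d (nat_lit 393) (nat_lit 1) (nat_lit 640) (@Lb.fp (nat_lit 9) t74))))))))))))
noncomputable def l9675 : Lb := (@Lb.d (nat_lit 401) (nat_lit 266) (nat_lit 128) (@Lb.r r1604 (@Lb.r r402 (@Lb.r r89 (@Lb.g g11 (@Lb.g g4 (@Lb.d (nat_lit 5) (nat_lit 0) (nat_lit 0) (@Lb.fm (nat_lit 3) t724))))))))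
noncomputable def l9676 : Lb := (@Lb.r r21 (@Lb.r r323 (@Lb.d (nat_lit 41) (nat_lit 512) (nat_lit 36) (@Lb.g g8 (@Lb.g g6 (@Lb.r r1627 (@Lb.r r2341 (@Lb.r r1556 (@Lb.d (nat_lit 390) (nat_lit 168) (nat_lit 640) (@Lb.fp (nat_lit 3) t50))))))))))
noncomputable def l9677 : Lb := (@Lb.r r323 (@Lb.d (nat_lit 8) (nat_lit 41) (nat_lit 2) (@Lb.g g8 (@Lb.g g9 (@Lb.g g10 (@Lb.r r1450 (@Lb.r r1444 (@Lb.r r2331 (@Lb.r r1637 (@Lb.d (nat_lit 409) (nat_lit 149) (nat_lit 612) (@Lb.t (@Lb.fm (nat_lit 9) t525))))))))))))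
noncomputable def l9678 : Lb := (@Lb.d (nat_lit 8) (nat_lit 265) (nat_lit 130) (@Lb.g g8 (@Lb.g g9 (@Lb.g g10 (@Lb.g g11 (@Lb.r r1699 (@Lb.r r1429 (@Lb.r r356 (@Lb.r r154 (@Lb.d (nat_lit 409) (nat_lit 10) (nat_lit 532) (@Lb.fp (nat_lit 9) t525)))))))))))
noncomputable def l9679 : Lb := (@Lb.d (nat_lit 8) (nat_lit 592) (nat_lit 593) (@Lb.r r2182 (@Lb.r r2323 (@Lb.r r661 (@Lb.g g7 (@Lb.g g8 (@Lb.d (nat_lit 354) (nat_lit 16) (nat_lit 128) (@Lb.r r74 (@Lb.r r25 (@Lb.fm (nat_lit 3) t320))))))))))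
noncomputable def l9680 : Lb := (@Lb.d (nat_lit 8) (nat_lit 388) (nat_lit 150) (@Lb.r r82 (@Lb.r r2387 (@Lb.r r677 (@Lb.g g7 (@Lb.g g6 (@Lb.g g8 (@Lb.d (nat_lit 328) (nat_lit 0) (nat_lit 65) (@Lb.r r25 (@Lb.t (@Lb.fp (nat_lit 9) t1572)))))))))))
noncomputable def l9681 : Lb := (@Lb.d (nat_lit 128) (nat_lit 2) (nat_lit 130) (@Lb.g g8 (@Lb.g g9 (@Lb.g g10 (@Lb.g g11 (@Lb.r r419 (@Lb.r r344 (@Lb.r r1429 (@Lb.r r1110 (@Lb.r r2212 (@Lb.d (nat_lit 38) (nat_lit 106) (nat_lit 673) (@Lb.fm (nat_lit 9) t238))))))))))))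
noncomputable def l9682 : Lb := (@Lb.d (nat_lit 1) (nat_lit 10) (nat_lit 161) (@Lb.g g8 (@Lb.g g9 (@Lb.g g6 (@Lb.g g11 (@Lb.r r1643 (@Lb.r r1633 (@Lb.r r24 (@Lb.d (nat_lit 265) (nat_lit 153) (nat_lit 280) (@Lb.fp (nat_lit 9) t1923))))))))))
noncomputable def l9683 : Lb := (@Lb.d (nat_lit 8) (nat_lit 9) (nat_lit 130) (@Lb.g g8 (@Lb.g g9 (@Lb.g g10 (@Lb.g g11 (@Lb.r r1699 (@Lb.r r1429 (@Lb.r r356 (@Lb.r r154 (@Lb.d (nat_lit 409) (nat_lit 10) (nat_lit 601) (@Lb.fp (nat_lit 9) t525)))))))))))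
noncomputable def l9684 : Lb := (@Lb.d (nat_lit 20) (nat_lit 1) (nat_lit 1) (@Lb.r r24 (@Lb.r r105 (@Lb.r r410 (@Lb.r r323 (@Lb.g g7 (@Lb.g g6 (@Lb.g g5 (@Lb.d (nat_lit 0) (nat_lit 2) (nat_lit 64) (@Lb.t (@Lb.fm (nat_lit 9) t522)))))))))))
noncomputable def l9685 : Lb := (@Lb.d (nat_lit 101) (nat_lit 529) (nat_lit 358) (@Lb.r r293 (@Lb.r r2374 (@Lb.r r531 (@Lb.g g6 (@Lb.g g5 (@Lb.g g4 (@Lb.d (nat_lit 1) (nat_lit 17) (nat_lit 1) (@Lb.t (@Lb.fp (nat_lit 9) t2392))))))))))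
noncomputable def l9686 : Lb := (@Lb.d (nat_lit 0) (nat_lit 514) (nat_lit 64) (@Lb.g g9 (@Lb.g g11 (@Lb.r r529 (@Lb.r r663 (@Lb.r r356 (@Lb.r r154 (@Lb.d (nat_lit 610) (nat_lit 4) (nat_lit 592) (@Lb.fm (nat_lit 3) t2393)))))))))
noncomputable def l9687 : Lb := (@Lb.r r21 (@Lb.d (nat_lit 16) (nat_lit 256) (nat_lit 0) (@Lb.g g8 (@Lb.g g10 (@Lb.g g7 (@Lb.r r402 (@Lb.r r97 (@Lb.r r2584 (@Lb.d (nat_lit 330) (nat_lit 33) (nat_lit 0) (@Lb.t (@Lb.fm (nat_lit 9) t720)))))))))))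
noncomputable def l9688 : Lb := (@Lb.d (nat_lit 0) (nat_lit 514) (nat_lit 66) (@Lb.g g9 (@Lb.g g10 (@Lb.g g11 (@Lb.r r1443 (@Lb.r r1173 (@Lb.r r2148 (@Lb.r r1098 (@Lb.d (nat_lit 272) (nat_lit 132) (nat_lit 138) (@Lb.t (@Lb.fm (nat_lit 9) t1829)))))))))))
noncomputable def l9689 : Lb := (@Lb.d (nat_lit 0) (nat_lit 2) (nat_lit 130) (@Lb.g g9 (@Lb.g g10 (@Lb.g g11 (@Lb.r r1443 (@Lb.r r1173 (@Lb.r r2148 (@Lb.r r1098 (@Lb.d (nat_lit 272) (nat_lit 132) (nat_lit 0) (@Lb.t (@Lb.fm (nat_lit 9) t1829)))))))))))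
noncomputable def l9690 : Lb := (@Lb.d (nat_lit 104) (nat_lit 518) (nat_lit 74) (@Lb.g g8 (@Lb.g g9 (@Lb.g g10 (@Lb.g g11 (@Lb.r r1699 (@Lb.r r1602 (@Lb.r r425 (@Lb.r r420 (@Lb.d (nat_lit 649) (nat_lit 38) (nat_lit 598) (@Lb.fp (nat_lit 9) t2394)))))))))))
noncomputable def l9691 : Lb := (@Lb.d (nat_lit 0) (nat_lit 512) (nat_lit 128) (@Lb.g g10 (@Lb.g g11 (@Lb.r r387 (@Lb.r r24 (@Lb.r r101 (@Lb.d (nat_lit 0) (nat_lit 133) (nat_lit 170) (@Lb.fm (nat_lit 3) t126))))))))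
noncomputable def l9692 : Lb := (@Lb.d (nat_lit 274) (nat_lit 256) (nat_lit 657) (@Lb.r r1604 (@Lb.r r2645 (@Lb.r r2698 (@Lb.g g11 (@Lb.g g6 (@Lb.g g4 (@Lb.d (nat_lit 1) (nat_lit 0) (nat_lit 128) (@Lb.t (@Lb.fp (nat_lit 9) t873))))))))))
noncomputable def l9693 : Lb := (@Lb.d (nat_lit 400) (nat_lit 512) (nat_lit 657) (@Lb.r r1604 (@Lb.r r2645 (@Lb.r r2442 (@Lb.g g11 (@Lb.g g6 (@Lb.g g4 (@Lb.d (nat_lit 1) (nat_lit 0) (nat_lit 129) (@Lb.t (@Lb.fp (nat_lit 9) t627))))))))))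
noncomputable def l9694 : Lb := (@Lb.d (nat_lit 321) (nat_lit 288) (nat_lit 17) (@Lb.r r165 (@Lb.r r106 (@Lb.r r584 (@Lb.r r267 (@Lb.g g6 (@Lb.g g5 (@Lb.g g4 (@Lb.d (nat_lit 64) (nat_lit 16) (nat_lit 5) (@Lb.t (@Lb.fp (nat_lit 9) t1035)))))))))))
noncomputable def l9695 : Lb := (@Lb.d (nat_lit 384) (nat_lit 289) (nat_lit 153) (@Lb.r r677 (@Lb.r r419 (@Lb.r r362 (@Lb.r r72 (@Lb.g g6 (@Lb.g g5 (@Lb.d (nat_lit 20) (nat_lit 16) (nat_lit 1) (@Lb.fm (nat_lit 3) t1035)))))))))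
noncomputable def l9696 : Lb := (@Lb.d (nat_lit 41) (nat_lit 260) (nat_lit 41) (@Lb.r r21 (@Lb.r r104 (@Lb.r r579 (@Lb.g g10 (@Lb.g g5 (@Lb.g g4 (@Lb.d (nat_lit 0) (nat_lit 1) (nat_lit 2) (@Lb.r r387 (@Lb.t (@Lb.fm (nat_lit 9) t68)))))))))))
noncomputable def l9697 : Lb := (@Lb.r r323 (@Lb.d (nat_lit 0) (nat_lit 256) (nat_lit 41) (@Lb.g g6 (@Lb.r r387 (@Lb.d (nat_lit 0) (nat_lit 5) (nat_lit 86) (@Lb.t (@Lb.fm (nat_lit 3) t45)))))))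
noncomputable def l9698 : Lb := (@Lb.d (nat_lit 273) (nat_lit 325) (nat_lit 8) (@Lb.r r1193 (@Lb.r r1124 (@Lb.r r579 (@Lb.g g10 (@Lb.g g5 (@Lb.d (nat_lit 4) (nat_lit 1) (nat_lit 2) (@Lb.r r387 (@Lb.fp (nat_lit 3) t728)))))))))
noncomputable def l9699 : Lb := (@Lb.d (nat_lit 41) (nat_lit 260) (nat_lit 41) (@Lb.r r21 (@Lb.r r104 (@Lb.r r579 (@Lb.g g10 (@Lb.g g5 (@Lb.d (nat_lit 0) (nat_lit 1) (nat_lit 2) (@Lb.r r387 (@Lb.fp (nat_lit 3) t68)))))))))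
noncomputable def l9700 : Lb := (@Lb.d (nat_lit 0) (nat_lit 256) (nat_lit 2) (@Lb.g g9 (@Lb.g g10 (@Lb.g g11 (@Lb.r r1681 (@Lb.r r146 (@Lb.d (nat_lit 0) (nat_lit 72) (nat_lit 289) (@Lb.t (@Lb.fp (nat_lit 9) t452)))))))))
noncomputable def l9701 : Lb := (@Lb.d (nat_lit 41) (nat_lit 260) (nat_lit 37) (@Lb.r r21 (@Lb.r r104 (@Lb.r r323 (@Lb.r r642 (@Lb.g g7 (@Lb.g g6 (@Lb.g g5 (@Lb.d (nat_lit 0) (nat_lit 1) (nat_lit 134) (@Lb.t (@Lb.fp (nat_lit 9) t68)))))))))))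
noncomputable def l9702 : Lb := (@Lb.d (nat_lit 41) (nat_lit 4) (nat_lit 98) (@Lb.r r21 (@Lb.r r104 (@Lb.r r579 (@Lb.g g10 (@Lb.g g5 (@Lb.d (nat_lit 0) (nat_lit 1) (nat_lit 2) (@Lb.r r387 (@Lb.fp (nat_lit 3) t68)))))))))
noncomputable def l9703 : Lb := (@Lb.d (nat_lit 32) (nat_lit 0) (nat_lit 136) (@Lb.g g10 (@Lb.g g11 (@Lb.r r1355 (@Lb.r r1361 (@Lb.r r1348 (@Lb.r r2666 (@Lb.d (nat_lit 552) (nat_lit 86) (nat_lit 402) (@Lb.fm (nat_lit 3) t312)))))))))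
noncomputable def l9704 : Lb := (@Lb.d (nat_lit 1) (nat_lit 0) (nat_lit 0) (@Lb.g g4 (@Lb.r r1098 (@Lb.r r1049 (@Lb.d (nat_lit 66) (nat_lit 0) (nat_lit 512) (@Lb.t (@Lb.fm (nat_lit 3) t282)))))))
noncomputable def l9705 : Lb := (@Lb.d (nat_lit 5) (nat_lit 297) (nat_lit 65) (@Lb.g g4 (@Lb.g g9 (@Lb.g g10 (@Lb.g g11 (@Lb.r r679 (@Lb.r r610 (@Lb.r r613 (@Lb.d (nat_lit 37) (nat_lit 25) (nat_lit 136) (@Lb.fm (nat_lit 9) t2395))))))))))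
noncomputable def l9706 : Lb := (@Lb.d (nat_lit 5) (nat_lit 292) (nat_lit 64) (@Lb.g g4 (@Lb.g g9 (@Lb.g g10 (@Lb.g g11 (@Lb.r r679 (@Lb.r r610 (@Lb.r r613 (@Lb.d (nat_lit 42) (nat_lit 26) (nat_lit 136) (@Lb.fm (nat_lit 9) t50))))))))))
noncomputable def l9707 : Lb := (@Lb.d (nat_lit 5) (nat_lit 290) (nat_lit 66) (@Lb.g g4 (@Lb.g g9 (@Lb.g g10 (@Lb.g g11 (@Lb.r r679 (@Lb.r r610 (@Lb.r r529 (@Lb.d (nat_lit 104) (nat_lit 40) (nat_lit 129) (@Lb.fp (nat_lit 9) t50))))))))))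
noncomputable def l9708 : Lb := (@Lb.d (nat_lit 18) (nat_lit 298) (nat_lit 514) (@Lb.r r105 (@Lb.r r1316 (@Lb.r r1414 (@Lb.r r2587 (@Lb.g g5 (@Lb.d (nat_lit 4) (nat_lit 18) (nat_lit 0) (@Lb.t (@Lb.fp (nat_lit 3) t1096)))))))))
noncomputable def l9709 : Lb := (@Lb.d (nat_lit 64) (nat_lit 134) (nat_lit 70) (@Lb.r r81 (@Lb.r r102 (@Lb.r r593 (@Lb.r r1367 (@Lb.g g7 (@Lb.g g6 (@Lb.g g5 (@Lb.g g4 (@Lb.d (nat_lit 321) (nat_lit 2) (nat_lit 129) (@Lb.fp (nat_lit 9) t2396)))))))))))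
noncomputable def l9710 : Lb := (@Lb.d (nat_lit 0) (nat_lit 258) (nat_lit 130) (@Lb.g g9 (@Lb.g g10 (@Lb.g g11 (@Lb.r r355 (@Lb.r r386 (@Lb.r r97 (@Lb.r r36 (@Lb.d (nat_lit 1) (nat_lit 130) (nat_lit 153) (@Lb.t (@Lb.fm (nat_lit 9) t1769)))))))))))
noncomputable def l9711 : Lb := (@Lb.d (nat_lit 0) (nat_lit 514) (nat_lit 130) (@Lb.g g9 (@Lb.g g10 (@Lb.g g11 (@Lb.r r355 (@Lb.r r386 (@Lb.r r97 (@Lb.r r36 (@Lb.d (nat_lit 1) (nat_lit 137) (nat_lit 152) (@Lb.t (@Lb.fm (nat_lit 9) t1769)))))))))))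
noncomputable def l9712 : Lb := (@Lb.d (nat_lit 389) (nat_lit 10) (nat_lit 258) (@Lb.r r24 (@Lb.r r2138 (@Lb.g g9 (@Lb.t (@Lb.fm (nat_lit 3) t2397))))))
noncomputable def l9713 : Lb := (@Lb.d (nat_lit 2) (nat_lit 514) (nat_lit 73) (@Lb.g g8 (@Lb.g g9 (@Lb.g g10 (@Lb.g g11 (@Lb.r r2691 (@Lb.r r297 (@Lb.r r648 (@Lb.r r666 (@Lb.r r1156 (@Lb.d (nat_lit 642) (nat_lit 168) (nat_lit 73) (@Lb.fp (nat_lit 9) t2026))))))))))))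
noncomputable def l9714 : Lb := (@Lb.d (nat_lit 386) (nat_lit 258) (nat_lit 256) (@Lb.r r24 (@Lb.r r2138 (@Lb.g g9 (@Lb.d (nat_lit 8) (nat_lit 2) (nat_lit 0) (@Lb.t (@Lb.fm (nat_lit 3) t225)))))))
noncomputable def l9715 : Lb := (@Lb.d (nat_lit 2) (nat_lit 2) (nat_lit 73) (@Lb.g g8 (@Lb.g g9 (@Lb.g g10 (@Lb.g g11 (@Lb.r r2691 (@Lb.r r297 (@Lb.r r648 (@Lb.r r666 (@Lb.r r1156 (@Lb.d (nat_lit 645) (nat_lit 40) (nat_lit 73) (@Lb.fp (nat_lit 9) t259))))))))))))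
noncomputable def l9716 : Lb := (@Lb.d (nat_lit 9) (nat_lit 0) (nat_lit 0) (@Lb.g g8 (@Lb.r r1045 (@Lb.r r36 (@Lb.d (nat_lit 290) (nat_lit 66) (nat_lit 34) (@Lb.t (@Lb.fp (nat_lit 3) t127)))))))
noncomputable def l9717 : Lb := (@Lb.d (nat_lit 32) (nat_lit 512) (nat_lit 1) (@Lb.g g10 (@Lb.r r1364 (@Lb.r r2731 (@Lb.r r665 (@Lb.r r602 (@Lb.d (nat_lit 90) (nat_lit 101) (nat_lit 33) (@Lb.t (@Lb.fm (nat_lit 3) t1096)))))))))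
noncomputable def l9718 : Lb := (@Lb.d (nat_lit 2) (nat_lit 514) (nat_lit 130) (@Lb.g g8 (@Lb.g g9 (@Lb.g g10 (@Lb.g g11 (@Lb.r r2411 (@Lb.r r386 (@Lb.r r97 (@Lb.r r24 (@Lb.d (nat_lit 536) (nat_lit 4) (nat_lit 136) (@Lb.fm (nat_lit 9) t61)))))))))))
noncomputable def l9719 : Lb := (@Lb.d (nat_lit 18) (nat_lit 516) (nat_lit 72) (@Lb.g g8 (@Lb.g g9 (@Lb.g g10 (@Lb.g g11 (@Lb.r r683 (@Lb.r r610 (@Lb.r r24 (@Lb.r r37 (@Lb.d (nat_lit 106) (nat_lit 1) (nat_lit 137) (@Lb.fm (nat_lit 9) t50)))))))))))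
noncomputable def l9720 : Lb := (@Lb.d (nat_lit 2) (nat_lit 258) (nat_lit 130) (@Lb.g g8 (@Lb.g g9 (@Lb.g g10 (@Lb.g g11 (@Lb.r r2411 (@Lb.r r386 (@Lb.r r97 (@Lb.r r24 (@Lb.d (nat_lit 533) (nat_lit 132) (nat_lit 136) (@Lb.fm (nat_lit 9) t1350)))))))))))
noncomputable def l9721 : Lb := (@Lb.d (nat_lit 1) (nat_lit 258) (nat_lit 130) (@Lb.g g8 (@Lb.g g9 (@Lb.g g10 (@Lb.g g11 (@Lb.r r2411 (@Lb.r r386 (@Lb.r r97 (@Lb.r r24 (@Lb.d (nat_lit 534) (nat_lit 6) (nat_lit 136) (@Lb.fm (nat_lit 9) t61)))))))))))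
noncomputable def l9722 : Lb := (@Lb.d (nat_lit 0) (nat_lit 2) (nat_lit 130) (@Lb.g g9 (@Lb.g g10 (@Lb.g g11 (@Lb.r r427 (@Lb.r r386 (@Lb.r r97 (@Lb.d (nat_lit 136) (nat_lit 26) (nat_lit 137) (@Lb.t (@Lb.fm (nat_lit 9) t714))))))))))
noncomputable def l9723 : Lb := (@Lb.r r82 (@Lb.d (nat_lit 41) (nat_lit 257) (nat_lit 136) (@Lb.g g8 (@Lb.g g9 (@Lb.g g11 (@Lb.r r2666 (@Lb.r r2725 (@Lb.r r340 (@Lb.r r411 (@Lb.d (nat_lit 521) (nat_lit 73) (nat_lit 601) (@Lb.t (@Lb.fp (nat_lit 9) t375))))))))))))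
noncomputable def l9724 : Lb := (@Lb.r r82 (@Lb.d (nat_lit 41) (nat_lit 1) (nat_lit 136) (@Lb.g g8 (@Lb.g g9 (@Lb.g g11 (@Lb.r r2666 (@Lb.r r2725 (@Lb.r r340 (@Lb.r r411 (@Lb.d (nat_lit 521) (nat_lit 66) (nat_lit 602) (@Lb.t (@Lb.fp (nat_lit 9) t375))))))))))))
noncomputable def l9725 : Lb := (@Lb.d (nat_lit 146) (nat_lit 529) (nat_lit 65) (@Lb.r r273 (@Lb.r r338 (@Lb.r r679 (@Lb.g g7 (@Lb.g g6 (@Lb.g g5 (@Lb.g g8 (@Lb.d (nat_lit 10) (nat_lit 17) (nat_lit 65) (@Lb.fp (nat_lit 9) t1220))))))))))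
noncomputable def l9726 : Lb := (@Lb.d (nat_lit 0) (nat_lit 8) (nat_lit 130) (@Lb.g g4 (@Lb.g g10 (@Lb.g g11 (@Lb.r r387 (@Lb.d (nat_lit 1) (nat_lit 2) (nat_lit 137) (@Lb.t (@Lb.fp (nat_lit 9) t51))))))))
noncomputable def l9727 : Lb := (@Lb.r r275 (@Lb.d (nat_lit 0) (nat_lit 514) (nat_lit 2) (@Lb.g g9 (@Lb.g g10 (@Lb.r r1700 (@Lb.r r1543 (@Lb.r r386 (@Lb.r r2145 (@Lb.d (nat_lit 0) (nat_lit 137) (nat_lit 169) (@Lb.fp (nat_lit 3) t2312))))))))))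
noncomputable def l9728 : Lb := (@Lb.d (nat_lit 105) (nat_lit 673) (nat_lit 610) (@Lb.r r2601 (@Lb.r r134 (@Lb.r r2343 (@Lb.g g5 (@Lb.g g8 (@Lb.d (nat_lit 10) (nat_lit 16) (nat_lit 0) (@Lb.fp (nat_lit 3) t2398))))))))
noncomputable def l9729 : Lb := (@Lb.d (nat_lit 2) (nat_lit 9) (nat_lit 1) (@Lb.g g8 (@Lb.g g9 (@Lb.g g10 (@Lb.r r1555 (@Lb.r r297 (@Lb.r r1384 (@Lb.r r2630 (@Lb.d (nat_lit 416) (nat_lit 10) (nat_lit 356) (@Lb.t (@Lb.fp (nat_lit 9) t2399)))))))))))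
noncomputable def l9730 : Lb := (@Lb.d (nat_lit 32) (nat_lit 0) (nat_lit 1) (@Lb.g g10 (@Lb.r r84 (@Lb.r r586 (@Lb.r r289 (@Lb.d (nat_lit 170) (nat_lit 161) (nat_lit 394) (@Lb.t (@Lb.fm (nat_lit 3) t668))))))))
noncomputable def l9731 : Lb := (@Lb.d (nat_lit 0) (nat_lit 512) (nat_lit 130) (@Lb.g g10 (@Lb.g g11 (@Lb.r r419 (@Lb.r r386 (@Lb.r r101 (@Lb.d (nat_lit 149) (nat_lit 153) (nat_lit 9) (@Lb.fm (nat_lit 3) t1725))))))))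
noncomputable def l9732 : Lb := (@Lb.d (nat_lit 2) (nat_lit 545) (nat_lit 66) (@Lb.g g8 (@Lb.g g9 (@Lb.g g10 (@Lb.g g11 (@Lb.r r427 (@Lb.r r97 (@Lb.r r90 (@Lb.r r145 (@Lb.d (nat_lit 69) (nat_lit 37) (nat_lit 70) (@Lb.fm (nat_lit 9) t2400)))))))))))
noncomputable def l9733 : Lb := (@Lb.d (nat_lit 136) (nat_lit 41) (nat_lit 128) (@Lb.g g9 (@Lb.g g11 (@Lb.r r2660 (@Lb.r r1690 (@Lb.r r667 (@Lb.r r1429 (@Lb.d (nat_lit 341) (nat_lit 145) (nat_lit 408) (@Lb.fm (nat_lit 3) t1118)))))))))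
noncomputable def l9734 : Lb := (@Lb.r r275 (@Lb.d (nat_lit 2) (nat_lit 256) (nat_lit 2) (@Lb.g g8 (@Lb.g g9 (@Lb.g g10 (@Lb.r r2666 (@Lb.r r2635 (@Lb.r r293 (@Lb.d (nat_lit 9) (nat_lit 73) (nat_lit 2) (@Lb.t (@Lb.fm (nat_lit 9) t1444)))))))))))
noncomputable def l9735 : Lb := (@Lb.r r275 (@Lb.d (nat_lit 2) (nat_lit 2) (nat_lit 2) (@Lb.g g8 (@Lb.g g9 (@Lb.g g10 (@Lb.r r595 (@Lb.r r2154 (@Lb.r r2145 (@Lb.d (nat_lit 289) (nat_lit 149) (nat_lit 280) (@Lb.t (@Lb.fm (nat_lit 9) t1444)))))))))))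
noncomputable def l9736 : Lb := (@Lb.r r275 (@Lb.d (nat_lit 8) (nat_lit 512) (nat_lit 2) (@Lb.g g9 (@Lb.g g10 (@Lb.r r1638 (@Lb.r r1603 (@Lb.r r532 (@Lb.r r361 (@Lb.d (nat_lit 533) (nat_lit 42) (nat_lit 5) (@Lb.fm (nat_lit 3) t355))))))))))
noncomputable def l9737 : Lb := (@Lb.r r275 (@Lb.d (nat_lit 1) (nat_lit 512) (nat_lit 10) (@Lb.g g8 (@Lb.g g9 (@Lb.g g10 (@Lb.r r595 (@Lb.r r1177 (@Lb.r r1684 (@Lb.r r1606 (@Lb.d (nat_lit 129) (nat_lit 10) (nat_lit 664) (@Lb.t (@Lb.fp (nat_lit 9) t355))))))))))))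
noncomputable def l9738 : Lb := (@Lb.d (nat_lit 402) (nat_lit 662) (nat_lit 354) (@Lb.r r2321 (@Lb.r r2386 (@Lb.r r679 (@Lb.g g7 (@Lb.g g6 (@Lb.g g5 (@Lb.g g8 (@Lb.d (nat_lit 10) (nat_lit 0) (nat_lit 70) (@Lb.fp (nat_lit 9) t878))))))))))
noncomputable def l9739 : Lb := (@Lb.r r82 (@Lb.d (nat_lit 34) (nat_lit 258) (nat_lit 128) (@Lb.g g8 (@Lb.g g9 (@Lb.g g11 (@Lb.r r363 (@Lb.r r582 (@Lb.r r408 (@Lb.d (nat_lit 150) (nat_lit 24) (nat_lit 130) (@Lb.t (@Lb.fp (nat_lit 9) t1684)))))))))))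
noncomputable def l9740 : Lb := (@Lb.d (nat_lit 648) (nat_lit 528) (nat_lit 320) (@Lb.r r2321 (@Lb.r r1635 (@Lb.r r2438 (@Lb.g g6 (@Lb.g g5 (@Lb.g g8 (@Lb.d (nat_lit 10) (nat_lit 5) (nat_lit 2) (@Lb.r r387 (@Lb.t (@Lb.fm (nat_lit 9) t735)))))))))))
noncomputable def l9741 : Lb := (@Lb.d (nat_lit 2) (nat_lit 514) (nat_lit 130) (@Lb.g g8 (@Lb.g g9 (@Lb.g g10 (@Lb.g g11 (@Lb.r r427 (@Lb.r r145 (@Lb.r r356 (@Lb.r r154 (@Lb.r r132 (@Lb.d (nat_lit 2) (nat_lit 0) (nat_lit 130) (@Lb.fm (nat_lit 9) t797))))))))))))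
noncomputable def l9742 : Lb := (@Lb.r r82 (@Lb.d (nat_lit 2) (nat_lit 297) (nat_lit 64) (@Lb.g g8 (@Lb.g g9 (@Lb.g g11 (@Lb.r r1635 (@Lb.r r2454 (@Lb.r r1621 (@Lb.d (nat_lit 292) (nat_lit 104) (nat_lit 665) (@Lb.t (@Lb.fm (nat_lit 9) t50)))))))))))
noncomputable def l9743 : Lb := (@Lb.d (nat_lit 2) (nat_lit 256) (nat_lit 0) (@Lb.g g8 (@Lb.g g7 (@Lb.r r402 (@Lb.r r101 (@Lb.r r24 (@Lb.d (nat_lit 256) (nat_lit 0) (nat_lit 512) (@Lb.fm (nat_lit 3) t145))))))))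
noncomputable def l9744 : Lb := (@Lb.d (nat_lit 1) (nat_lit 2) (nat_lit 130) (@Lb.g g8 (@Lb.g g9 (@Lb.g g10 (@Lb.g g11 (@Lb.r r355 (@Lb.r r386 (@Lb.r r1129 (@Lb.r r36 (@Lb.d (nat_lit 260) (nat_lit 1) (nat_lit 153) (@Lb.fp (nat_lit 9) t61)))))))))))
noncomputable def l9745 : Lb := (@Lb.d (nat_lit 1) (nat_lit 514) (nat_lit 130) (@Lb.g g8 (@Lb.g g9 (@Lb.g g10 (@Lb.g g11 (@Lb.r r355 (@Lb.r r386 (@Lb.r r1129 (@Lb.r r36 (@Lb.d (nat_lit 261) (nat_lit 1) (nat_lit 153) (@Lb.fp (nat_lit 9) t61)))))))))))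
noncomputable def l9746 : Lb := (@Lb.d (nat_lit 146) (nat_lit 256) (nat_lit 65) (@Lb.r r68 (@Lb.r r273 (@Lb.r r330 (@Lb.g g7 (@Lb.g g4 (@Lb.d (nat_lit 17) (nat_lit 0) (nat_lit 72) (@Lb.fm (nat_lit 3) t355))))))))
noncomputable def l9747 : Lb := (@Lb.d (nat_lit 138) (nat_lit 17) (nat_lit 69) (@Lb.r r535 (@Lb.r r356 (@Lb.r r85 (@Lb.r r362 (@Lb.g g7 (@Lb.g g6 (@Lb.g g4 (@Lb.d (nat_lit 1) (nat_lit 16) (nat_lit 9) (@Lb.t (@Lb.fm (nat_lit 9) t892)))))))))))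
noncomputable def l9748 : Lb := (@Lb.r r21 (@Lb.r r323 (@Lb.d (nat_lit 130) (nat_lit 0) (nat_lit 2) (@Lb.g g8 (@Lb.g g10 (@Lb.r r362 (@Lb.r r361 (@Lb.r r535 (@Lb.r r264 (@Lb.d (nat_lit 138) (nat_lit 17) (nat_lit 128) (@Lb.fp (nat_lit 3) t119)))))))))))
noncomputable def l9749 : Lb := (@Lb.d (nat_lit 2) (nat_lit 517) (nat_lit 128) (@Lb.g g8 (@Lb.g g9 (@Lb.g g10 (@Lb.g g11 (@Lb.r r663 (@Lb.r r386 (@Lb.r r661 (@Lb.r r24 (@Lb.d (nat_lit 98) (nat_lit 26) (nat_lit 132) (@Lb.fm (nat_lit 9) t2401)))))))))))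
noncomputable def l9750 : Lb := (@Lb.d (nat_lit 8) (nat_lit 2) (nat_lit 0) (@Lb.g g9 (@Lb.d (nat_lit 9) (nat_lit 2) (nat_lit 0) (@Lb.t (@Lb.fp (nat_lit 3) t2)))))
noncomputable def l9751 : Lb := (@Lb.d (nat_lit 8) (nat_lit 2) (nat_lit 130) (@Lb.g g9 (@Lb.g g10 (@Lb.g g11 (@Lb.r r2658 (@Lb.d (nat_lit 2) (nat_lit 89) (nat_lit 256) (@Lb.t (@Lb.fm (nat_lit 9) t479))))))))
noncomputable def l9752 : Lb := (@Lb.d (nat_lit 40) (nat_lit 6) (nat_lit 74) (@Lb.g g8 (@Lb.g g9 (@Lb.g g10 (@Lb.g g11 (@Lb.r r666 (@Lb.r r545 (@Lb.r r615 (@Lb.r r388 (@Lb.d (nat_lit 169) (nat_lit 33) (nat_lit 74) (@Lb.fm (nat_lit 9) t68)))))))))))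
noncomputable def l9753 : Lb := (@Lb.d (nat_lit 1) (nat_lit 266) (nat_lit 0) (@Lb.g g8 (@Lb.g g9 (@Lb.r r1162 (@Lb.r r1188 (@Lb.r r405 (@Lb.r r1635 (@Lb.d (nat_lit 2) (nat_lit 10) (nat_lit 601) (@Lb.fm (nat_lit 3) t642)))))))))
noncomputable def l9754 : Lb := (@Lb.r r82 (@Lb.d (nat_lit 133) (nat_lit 290) (nat_lit 64) (@Lb.g g8 (@Lb.g g9 (@Lb.g g11 (@Lb.r r1450 (@Lb.r r2593 (@Lb.r r2692 (@Lb.r r1447 (@Lb.d (nat_lit 518) (nat_lit 73) (nat_lit 5) (@Lb.t (@Lb.fm (nat_lit 9) t1846))))))))))))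
noncomputable def l9755 : Lb := (@Lb.d (nat_lit 1) (nat_lit 266) (nat_lit 136) (@Lb.g g8 (@Lb.g g9 (@Lb.g g11 (@Lb.r r1162 (@Lb.r r1188 (@Lb.r r405 (@Lb.r r1635 (@Lb.d (nat_lit 2) (nat_lit 0) (nat_lit 282) (@Lb.t (@Lb.fm (nat_lit 9) t642)))))))))))
noncomputable def l9756 : Lb := (@Lb.d (nat_lit 33) (nat_lit 2) (nat_lit 129) (@Lb.g g8 (@Lb.g g9 (@Lb.g g6 (@Lb.g g11 (@Lb.r r1643 (@Lb.r r1640 (@Lb.r r25 (@Lb.d (nat_lit 521) (nat_lit 153) (nat_lit 648) (@Lb.fm (nat_lit 9) t1326))))))))))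
noncomputable def l9757 : Lb := (@Lb.d (nat_lit 145) (nat_lit 260) (nat_lit 72) (@Lb.g g8 (@Lb.g g9 (@Lb.g g10 (@Lb.g g11 (@Lb.r r683 (@Lb.r r2410 (@Lb.r r2341 (@Lb.r r1540 (@Lb.d (nat_lit 597) (nat_lit 102) (nat_lit 5) (@Lb.fp (nat_lit 9) t1846)))))))))))
noncomputable def l9758 : Lb := (@Lb.d (nat_lit 128) (nat_lit 513) (nat_lit 138) (@Lb.r r1563 (@Lb.r r1688 (@Lb.r r1162 (@Lb.g g5 (@Lb.g g4 (@Lb.d (nat_lit 1) (nat_lit 25) (nat_lit 0) (@Lb.fp (nat_lit 3) t296))))))))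
noncomputable def l9759 : Lb := (@Lb.d (nat_lit 2) (nat_lit 258) (nat_lit 2) (@Lb.g g8 (@Lb.g g9 (@Lb.g g10 (@Lb.g g11 (@Lb.r r2411 (@Lb.r r386 (@Lb.r r97 (@Lb.r r24 (@Lb.d (nat_lit 266) (nat_lit 9) (nat_lit 86) (@Lb.fm (nat_lit 9) t61)))))))))))
noncomputable def l9760 : Lb := (@Lb.d (nat_lit 0) (nat_lit 5) (nat_lit 0) (@Lb.g g4 (@Lb.g g5 (@Lb.d (nat_lit 1) (nat_lit 0) (nat_lit 1) (@Lb.fm (nat_lit 3) t87)))))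
noncomputable def l9761 : Lb := (@Lb.d (nat_lit 161) (nat_lit 260) (nat_lit 2) (@Lb.g g8 (@Lb.g g9 (@Lb.g g6 (@Lb.r r407 (@Lb.r r97 (@Lb.r r536 (@Lb.d (nat_lit 70) (nat_lit 33) (nat_lit 129) (@Lb.t (@Lb.fp (nat_lit 9) t264))))))))))
noncomputable def l9762 : Lb := (@Lb.d (nat_lit 0) (nat_lit 261) (nat_lit 1) (@Lb.g g5 (@Lb.g g4 (@Lb.fm (nat_lit 3) t87))))
noncomputable def l9763 : Lb := (@Lb.d (nat_lit 2) (nat_lit 38) (nat_lit 512) (@Lb.g g8 (@Lb.g g9 (@Lb.g g10 (@Lb.g g7 (@Lb.r r1441 (@Lb.r r98 (@Lb.r r24 (@Lb.d (nat_lit 10) (nat_lit 137) (nat_lit 553) (@Lb.fm (nat_lit 9) t2402))))))))))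
noncomputable def l9764 : Lb := (@Lb.d (nat_lit 2) (nat_lit 258) (nat_lit 66) (@Lb.g g8 (@Lb.g g9 (@Lb.g g10 (@Lb.g g7 (@Lb.r r417 (@Lb.r r98 (@Lb.r r24 (@Lb.d (nat_lit 10) (nat_lit 21) (nat_lit 6) (@Lb.fm (nat_lit 9) t670))))))))))
noncomputable def l9765 : Lb := (@Lb.d (nat_lit 34) (nat_lit 0) (nat_lit 132) (@Lb.g g8 (@Lb.g g11 (@Lb.r r582 (@Lb.r r529 (@Lb.r r132 (@Lb.d (nat_lit 96) (nat_lit 0) (nat_lit 130) (@Lb.fm (nat_lit 3) t242))))))))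
noncomputable def l9766 : Lb := (@Lb.d (nat_lit 0) (nat_lit 516) (nat_lit 0) (@Lb.g g9 (@Lb.g g10 (@Lb.g g7 (@Lb.r r386 (@Lb.r r97 (@Lb.d (nat_lit 0) (nat_lit 2) (nat_lit 10) (@Lb.t (@Lb.fp (nat_lit 9) t1219)))))))))
noncomputable def l9767 : Lb := (@Lb.r r82 (@Lb.d (nat_lit 25) (nat_lit 514) (nat_lit 128) (@Lb.g g8 (@Lb.g g9 (@Lb.g g11 (@Lb.r r582 (@Lb.r r611 (@Lb.r r661 (@Lb.r r168 (@Lb.d (nat_lit 74) (nat_lit 18) (nat_lit 8) (@Lb.t (@Lb.fm (nat_lit 9) t98))))))))))))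
noncomputable def l9768 : Lb := (@Lb.d (nat_lit 5) (nat_lit 256) (nat_lit 128) (@Lb.g g4 (@Lb.g g11 (@Lb.r r346 (@Lb.r r1447 (@Lb.r r1317 (@Lb.d (nat_lit 1) (nat_lit 138) (nat_lit 662) (@Lb.fm (nat_lit 3) t327))))))))
noncomputable def l9769 : Lb := (@Lb.r r323 (@Lb.d (nat_lit 18) (nat_lit 514) (nat_lit 0) (@Lb.g g8 (@Lb.g g9 (@Lb.g g10 (@Lb.r r1681 (@Lb.r r1559 (@Lb.r r74 (@Lb.r r2312 (@Lb.d (nat_lit 385) (nat_lit 0) (nat_lit 516) (@Lb.t (@Lb.fm (nat_lit 9) t123))))))))))))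
noncomputable def l9770 : Lb := (@Lb.r r68 (@Lb.r r323 (@Lb.d (nat_lit 0) (nat_lit 258) (nat_lit 2) (@Lb.g g9 (@Lb.g g10 (@Lb.r r1685 (@Lb.r r1559 (@Lb.r r2312 (@Lb.d (nat_lit 34) (nat_lit 0) (nat_lit 104) (@Lb.fm (nat_lit 3) t123))))))))))
noncomputable def l9771 : Lb := (@Lb.d (nat_lit 6) (nat_lit 256) (nat_lit 130) (@Lb.g g8 (@Lb.g g9 (@Lb.g g10 (@Lb.g g11 (@Lb.r r427 (@Lb.r r420 (@Lb.r r102 (@Lb.r r97 (@Lb.r r36 (@Lb.d (nat_lit 9) (nat_lit 130) (nat_lit 74) (@Lb.fm (nat_lit 9) t119))))))))))))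
noncomputable def l9772 : Lb := (@Lb.r r273 (@Lb.r r322 (@Lb.g g4 (@Lb.g g11 (@Lb.r r2376 (@Lb.r r1671 (@Lb.r r1174 (@Lb.r r2145 (@Lb.p (nat_lit 2) (@Lb.fp (nat_lit 3) t329))))))))))
noncomputable def l9773 : Lb := (@Lb.d (nat_lit 137) (nat_lit 257) (nat_lit 0) (@Lb.g g8 (@Lb.g g9 (@Lb.g g10 (@Lb.r r1571 (@Lb.r r41 (@Lb.r r2408 (@Lb.r r1158 (@Lb.d (nat_lit 2) (nat_lit 38) (nat_lit 69) (@Lb.t (@Lb.fm (nat_lit 9) t296)))))))))))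
noncomputable def l9774 : Lb := (@Lb.d (nat_lit 0) (nat_lit 512) (nat_lit 1) (@Lb.r r24 (@Lb.r r101 (@Lb.g g11 (@Lb.g g6 (@Lb.d (nat_lit 0) (nat_lit 4) (nat_lit 1) (@Lb.fp (nat_lit 3) t1219)))))))
noncomputable def l9775 : Lb := (@Lb.r r21 (@Lb.d (nat_lit 144) (nat_lit 0) (nat_lit 128) (@Lb.g g8 (@Lb.g g10 (@Lb.g g11 (@Lb.r r387 (@Lb.r r132 (@Lb.r r2454 (@Lb.r r97 (@Lb.d (nat_lit 325) (nat_lit 161) (nat_lit 384) (@Lb.t (@Lb.fm (nat_lit 9) t4))))))))))))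
noncomputable def l9776 : Lb := (@Lb.d (nat_lit 538) (nat_lit 146) (nat_lit 677) (@Lb.r r2129 (@Lb.r r358 (@Lb.r r81 (@Lb.r r1667 (@Lb.g g7 (@Lb.g g6 (@Lb.g g5 (@Lb.g g8 (@Lb.d (nat_lit 550) (nat_lit 6) (nat_lit 134) (@Lb.fp (nat_lit 9) t2403)))))))))))
noncomputable def l9777 : Lb := (@Lb.d (nat_lit 146) (nat_lit 4) (nat_lit 129) (@Lb.g g8 (@Lb.g g9 (@Lb.g g10 (@Lb.g g11 (@Lb.r r427 (@Lb.r r164 (@Lb.r r165 (@Lb.r r422 (@Lb.d (nat_lit 40) (nat_lit 1) (nat_lit 137) (@Lb.fp (nat_lit 9) t2404)))))))))))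
noncomputable def l9778 : Lb := (@Lb.d (nat_lit 8) (nat_lit 4) (nat_lit 0) (@Lb.g g9 (@Lb.g g10 (@Lb.r r2392 (@Lb.r r1158 (@Lb.r r1617 (@Lb.d (nat_lit 417) (nat_lit 102) (nat_lit 322) (@Lb.fm (nat_lit 3) t1118))))))))
noncomputable def l9779 : Lb := (@Lb.d (nat_lit 0) (nat_lit 517) (nat_lit 64) (@Lb.g g9 (@Lb.g g10 (@Lb.g g7 (@Lb.r r386 (@Lb.r r101 (@Lb.r r24 (@Lb.d (nat_lit 34) (nat_lit 0) (nat_lit 9) (@Lb.t (@Lb.fm (nat_lit 9) t42))))))))))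
noncomputable def l9780 : Lb := (@Lb.r r82 (@Lb.d (nat_lit 645) (nat_lit 256) (nat_lit 128) (@Lb.g g4 (@Lb.g g9 (@Lb.g g11 (@Lb.r r549 (@Lb.r r2339 (@Lb.r r2122 (@Lb.d (nat_lit 1) (nat_lit 32) (nat_lit 576) (@Lb.t (@Lb.fm (nat_lit 9) t197)))))))))))
noncomputable def l9781 : Lb := (@Lb.d (nat_lit 90) (nat_lit 528) (nat_lit 616) (@Lb.r r1384 (@Lb.r r89 (@Lb.r r2667 (@Lb.r r358 (@Lb.g g7 (@Lb.g g6 (@Lb.g g4 (@Lb.d (nat_lit 5) (nat_lit 0) (nat_lit 1) (@Lb.t (@Lb.fp (nat_lit 9) t1316)))))))))))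
noncomputable def l9782 : Lb := (@Lb.d (nat_lit 0) (nat_lit 601) (nat_lit 130) (@Lb.r r2658 (@Lb.r r419 (@Lb.g g7 (@Lb.g g6 (@Lb.g g5 (@Lb.d (nat_lit 0) (nat_lit 164) (nat_lit 2) (@Lb.t (@Lb.fp (nat_lit 9) t103)))))))))
noncomputable def l9783 : Lb := (@Lb.r r82 (@Lb.d (nat_lit 34) (nat_lit 2) (nat_lit 128) (@Lb.g g8 (@Lb.g g9 (@Lb.g g11 (@Lb.r r363 (@Lb.r r582 (@Lb.r r392 (@Lb.d (nat_lit 152) (nat_lit 128) (nat_lit 137) (@Lb.t (@Lb.fp (nat_lit 9) t2405)))))))))))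
noncomputable def l9784 : Lb := (@Lb.d (nat_lit 1) (nat_lit 260) (nat_lit 146) (@Lb.g g8 (@Lb.g g6 (@Lb.g g11 (@Lb.r r612 (@Lb.r r263 (@Lb.r r2145 (@Lb.r r516 (@Lb.d (nat_lit 2) (nat_lit 98) (nat_lit 641) (@Lb.t (@Lb.fm (nat_lit 9) t51)))))))))))
noncomputable def l9785 : Lb := (@Lb.d (nat_lit 1) (nat_lit 0) (nat_lit 138) (@Lb.g g8 (@Lb.g g10 (@Lb.g g11 (@Lb.r r2707 (@Lb.r r2345 (@Lb.r r1188 (@Lb.r r1158 (@Lb.d (nat_lit 289) (nat_lit 10) (nat_lit 33) (@Lb.t (@Lb.fp (nat_lit 9) t296)))))))))))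
noncomputable def l9786 : Lb := (@Lb.d (nat_lit 129) (nat_lit 516) (nat_lit 25) (@Lb.g g8 (@Lb.g g6 (@Lb.r r407 (@Lb.r r2145 (@Lb.r r1560 (@Lb.d (nat_lit 581) (nat_lit 97) (nat_lit 641) (@Lb.fp (nat_lit 3) t51))))))))
noncomputable def l9787 : Lb := (@Lb.d (nat_lit 1) (nat_lit 516) (nat_lit 146) (@Lb.g g8 (@Lb.g g6 (@Lb.g g11 (@Lb.r r612 (@Lb.r r263 (@Lb.r r2145 (@Lb.r r516 (@Lb.d (nat_lit 1) (nat_lit 98) (nat_lit 641) (@Lb.t (@Lb.fm (nat_lit 9) t51)))))))))))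
noncomputable def l9788 : Lb := (@Lb.d (nat_lit 0) (nat_lit 266) (nat_lit 0) (@Lb.g g9 (@Lb.r r86 (@Lb.r r424 (@Lb.r r599 (@Lb.r r417 (@Lb.d (nat_lit 320) (nat_lit 36) (nat_lit 618) (@Lb.t (@Lb.fm (nat_lit 3) t716)))))))))
noncomputable def l9789 : Lb := (@Lb.d (nat_lit 145) (nat_lit 256) (nat_lit 5) (@Lb.g g8 (@Lb.g g10 (@Lb.g g11 (@Lb.r r1675 (@Lb.r r1610 (@Lb.r r537 (@Lb.r r1540 (@Lb.d (nat_lit 417) (nat_lit 0) (nat_lit 641) (@Lb.t (@Lb.fp (nat_lit 9) t1074)))))))))))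
noncomputable def l9790 : Lb := (@Lb.r r529 (@Lb.r r659 (@Lb.r r674 (@Lb.r r1105 (@Lb.r r36 (@Lb.d (nat_lit 0) (nat_lit 0) (nat_lit 16) (@Lb.fp (nat_lit 1) t1242)))))))
noncomputable def l9791 : Lb := (@Lb.d (nat_lit 261) (nat_lit 137) (nat_lit 34) (@Lb.r r24 (@Lb.r r1414 (@Lb.r r2395 (@Lb.g g7 (@Lb.g g5 (@Lb.d (nat_lit 4) (nat_lit 1) (nat_lit 64) (@Lb.fm (nat_lit 3) t2406))))))))
noncomputable def l9792 : Lb := (@Lb.d (nat_lit 149) (nat_lit 258) (nat_lit 410) (@Lb.r r2661 (@Lb.r r1304 (@Lb.r r2659 (@Lb.r r326 (@Lb.g g7 (@Lb.g g6 (@Lb.d (nat_lit 0) (nat_lit 0) (nat_lit 65) (@Lb.fp (nat_lit 3) t2407)))))))))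
noncomputable def l9793 : Lb := (@Lb.r r359 (@Lb.d (nat_lit 130) (nat_lit 518) (nat_lit 16) (@Lb.g g8 (@Lb.g g5 (@Lb.g g10 (@Lb.r r1319 (@Lb.r r2708 (@Lb.d (nat_lit 678) (nat_lit 168) (nat_lit 405) (@Lb.t (@Lb.fp (nat_lit 9) t2408))))))))))
noncomputable def l9794 : Lb := (@Lb.d (nat_lit 2) (nat_lit 665) (nat_lit 584) (@Lb.g g8 (@Lb.g g5 (@Lb.g g10 (@Lb.g g7 (@Lb.r r1426 (@Lb.r r1096 (@Lb.d (nat_lit 546) (nat_lit 168) (nat_lit 601) (@Lb.fp (nat_lit 9) t2409)))))))))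
noncomputable def l9795 : Lb := (@Lb.d (nat_lit 609) (nat_lit 1) (nat_lit 660) (@Lb.r r1348 (@Lb.r r2714 (@Lb.r r1361 (@Lb.g g7 (@Lb.g g6 (@Lb.g g4 (@Lb.d (nat_lit 5) (nat_lit 32) (nat_lit 577) (@Lb.r r25 (@Lb.t (@Lb.fm (nat_lit 9) t1101)))))))))))
noncomputable def l9796 : Lb := (@Lb.d (nat_lit 278) (nat_lit 258) (nat_lit 26) (@Lb.r r2661 (@Lb.r r1304 (@Lb.r r2659 (@Lb.r r326 (@Lb.g g7 (@Lb.g g6 (@Lb.d (nat_lit 0) (nat_lit 0) (nat_lit 65) (@Lb.fp (nat_lit 3) t2410)))))))))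
noncomputable def l9797 : Lb := (@Lb.d (nat_lit 614) (nat_lit 514) (nat_lit 660) (@Lb.r r1348 (@Lb.r r2714 (@Lb.r r1361 (@Lb.g g7 (@Lb.g g6 (@Lb.g g4 (@Lb.d (nat_lit 5) (nat_lit 32) (nat_lit 577) (@Lb.r r25 (@Lb.t (@Lb.fm (nat_lit 9) t1101)))))))))))
noncomputable def l9798 : Lb := (@Lb.d (nat_lit 260) (nat_lit 417) (nat_lit 64) (@Lb.r r1557 (@Lb.r r1687 (@Lb.r r2730 (@Lb.r r152 (@Lb.g g5 (@Lb.d (nat_lit 4) (nat_lit 5) (nat_lit 0) (@Lb.t (@Lb.fp (nat_lit 3) t2411)))))))))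
noncomputable def l9799 : Lb := (@Lb.d (nat_lit 2) (nat_lit 514) (nat_lit 128) (@Lb.g g8 (@Lb.g g9 (@Lb.g g10 (@Lb.g g11 (@Lb.r r2473 (@Lb.r r1623 (@Lb.r r2394 (@Lb.r r2436 (@Lb.d (nat_lit 73) (nat_lit 10) (nat_lit 617) (@Lb.fp (nat_lit 9) t2058)))))))))))
noncomputable def l9800 : Lb := (@Lb.d (nat_lit 2) (nat_lit 2) (nat_lit 128) (@Lb.g g8 (@Lb.g g9 (@Lb.g g11 (@Lb.r r2089 (@Lb.r r520 (@Lb.r r1563 (@Lb.r r2178 (@Lb.r r1540 (@Lb.d (nat_lit 544) (nat_lit 33) (nat_lit 608) (@Lb.t (@Lb.fm (nat_lit 9) t2412))))))))))))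
noncomputable def l9801 : Lb := (@Lb.d (nat_lit 2) (nat_lit 514) (nat_lit 130) (@Lb.g g8 (@Lb.g g9 (@Lb.g g10 (@Lb.g g11 (@Lb.r r2218 (@Lb.r r548 (@Lb.r r615 (@Lb.r r533 (@Lb.r r2084 (@Lb.d (nat_lit 640) (nat_lit 10) (nat_lit 345) (@Lb.fp (nat_lit 9) t228))))))))))))
noncomputable def l9802 : Lb := (@Lb.d (nat_lit 2) (nat_lit 514) (nat_lit 128) (@Lb.g g8 (@Lb.g g9 (@Lb.g g11 (@Lb.r r553 (@Lb.r r299 (@Lb.r r356 (@Lb.r r154 (@Lb.d (nat_lit 1) (nat_lit 138) (nat_lit 105) (@Lb.t (@Lb.fm (nat_lit 9) t126)))))))))))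
noncomputable def l9803 : Lb := (@Lb.d (nat_lit 70) (nat_lit 1) (nat_lit 644) (@Lb.r r2084 (@Lb.r r1573 (@Lb.r r299 (@Lb.r r424 (@Lb.g g7 (@Lb.g g6 (@Lb.g g5 (@Lb.g g4 (@Lb.d (nat_lit 1) (nat_lit 1) (nat_lit 98) (@Lb.fp (nat_lit 9) t2413)))))))))))
noncomputable def l9804 : Lb := (@Lb.r r21 (@Lb.d (nat_lit 146) (nat_lit 256) (nat_lit 128) (@Lb.g g8 (@Lb.g g10 (@Lb.g g11 (@Lb.r r2714 (@Lb.r r1411 (@Lb.r r2196 (@Lb.r r25 (@Lb.d (nat_lit 98) (nat_lit 10) (nat_lit 649) (@Lb.t (@Lb.fp (nat_lit 9) t283))))))))))))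
noncomputable def l9805 : Lb := (@Lb.d (nat_lit 130) (nat_lit 256) (nat_lit 0) (@Lb.g g8 (@Lb.r r2695 (@Lb.r r2178 (@Lb.r r2081 (@Lb.r r420 (@Lb.d (nat_lit 106) (nat_lit 68) (nat_lit 426) (@Lb.t (@Lb.fm (nat_lit 3) t2414)))))))))
noncomputable def l9806 : Lb := (@Lb.r r24 (@Lb.r r101 (@Lb.r r402 (@Lb.d (nat_lit 0) (nat_lit 0) (nat_lit 16) (@Lb.fm (nat_lit 1) t590)))))
noncomputable def l9807 : Lb := (@Lb.d (nat_lit 274) (nat_lit 0) (nat_lit 16) (@Lb.r r24 (@Lb.r r101 (@Lb.r r402 (@Lb.r r323 (@Lb.g g7 (@Lb.g g6 (@Lb.d (nat_lit 0) (nat_lit 0) (nat_lit 64) (@Lb.fp (nat_lit 3) t218)))))))))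
noncomputable def l9808 : Lb := (@Lb.r r1427 (@Lb.r r101 (@Lb.r r24 (@Lb.d (nat_lit 256) (nat_lit 5) (nat_lit 16) (@Lb.fp (nat_lit 1) t277)))))
noncomputable def l9809 : Lb := (@Lb.d (nat_lit 2) (nat_lit 266) (nat_lit 0) (@Lb.g g8 (@Lb.g g9 (@Lb.r r134 (@Lb.r r328 (@Lb.r r599 (@Lb.r r417 (@Lb.d (nat_lit 0) (nat_lit 2) (nat_lit 137) (@Lb.fm (nat_lit 3) t119)))))))))
noncomputable def l9810 : Lb := (@Lb.r r21 (@Lb.d (nat_lit 137) (nat_lit 512) (nat_lit 66) (@Lb.g g8 (@Lb.g g10 (@Lb.g g11 (@Lb.r r667 (@Lb.r r81 (@Lb.r r2470 (@Lb.r r1624 (@Lb.d (nat_lit 648) (nat_lit 104) (nat_lit 393) (@Lb.t (@Lb.fp (nat_lit 9) t2415))))))))))))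
noncomputable def l9811 : Lb := (@Lb.d (nat_lit 129) (nat_lit 2) (nat_lit 130) (@Lb.g g8 (@Lb.g g9 (@Lb.g g10 (@Lb.g g11 (@Lb.r r683 (@Lb.r r648 (@Lb.r r2202 (@Lb.r r97 (@Lb.r r2084 (@Lb.d (nat_lit 98) (nat_lit 105) (nat_lit 289) (@Lb.fp (nat_lit 9) t2416))))))))))))
noncomputable def l9812 : Lb := (@Lb.d (nat_lit 0) (nat_lit 264) (nat_lit 2) (@Lb.g g10 (@Lb.r r1427 (@Lb.r r101 (@Lb.r r24 (@Lb.d (nat_lit 522) (nat_lit 2) (nat_lit 2) (@Lb.t (@Lb.fp (nat_lit 3) t145))))))))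
noncomputable def l9813 : Lb := (@Lb.r r21 (@Lb.r r263 (@Lb.d (nat_lit 288) (nat_lit 256) (nat_lit 1) (@Lb.g g4 (@Lb.g g10 (@Lb.r r267 (@Lb.r r134 (@Lb.r r25 (@Lb.d (nat_lit 273) (nat_lit 0) (nat_lit 33) (@Lb.fm (nat_lit 3) t1028))))))))))
noncomputable def l9814 : Lb := (@Lb.d (nat_lit 34) (nat_lit 514) (nat_lit 130) (@Lb.g g8 (@Lb.g g9 (@Lb.g g10 (@Lb.g g11 (@Lb.r r2210 (@Lb.r r1065 (@Lb.r r612 (@Lb.r r2311 (@Lb.r r1540 (@Lb.d (nat_lit 2) (nat_lit 154) (nat_lit 597) (@Lb.fp (nat_lit 9) t1549))))))))))))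
noncomputable def l9815 : Lb := (@Lb.r r21 (@Lb.d (nat_lit 137) (nat_lit 0) (nat_lit 66) (@Lb.g g8 (@Lb.g g10 (@Lb.g g11 (@Lb.r r667 (@Lb.r r81 (@Lb.r r2470 (@Lb.r r1624 (@Lb.d (nat_lit 648) (nat_lit 102) (nat_lit 392) (@Lb.t (@Lb.fp (nat_lit 9) t2188))))))))))))
noncomputable def l9816 : Lb := (@Lb.d (nat_lit 294) (nat_lit 658) (nat_lit 352) (@Lb.r r21 (@Lb.r r1607 (@Lb.r r338 (@Lb.g g7 (@Lb.g g6 (@Lb.g g5 (@Lb.g g4 (@Lb.d (nat_lit 1) (nat_lit 1) (nat_lit 65) (@Lb.fm (nat_lit 9) t2417))))))))))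
noncomputable def l9817 : Lb := (@Lb.r r21 (@Lb.d (nat_lit 137) (nat_lit 512) (nat_lit 66) (@Lb.g g8 (@Lb.g g10 (@Lb.g g11 (@Lb.r r667 (@Lb.r r81 (@Lb.r r2470 (@Lb.r r1624 (@Lb.d (nat_lit 649) (nat_lit 102) (nat_lit 392) (@Lb.t (@Lb.fp (nat_lit 9) t2188))))))))))))
noncomputable def l9818 : Lb := (@Lb.g g6 (@Lb.r r24 (@Lb.r r101 (@Lb.r r402 (@Lb.d (nat_lit 0) (nat_lit 164) (nat_lit 325) (@Lb.t (@Lb.fp (nat_lit 3) t652)))))))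
noncomputable def l9819 : Lb := (@Lb.d (nat_lit 0) (nat_lit 0) (nat_lit 128) (@Lb.g g10 (@Lb.g g11 (@Lb.r r387 (@Lb.r r402 (@Lb.r r101 (@Lb.d (nat_lit 10) (nat_lit 130) (nat_lit 0) (@Lb.fm (nat_lit 3) t240))))))))
noncomputable def l9820 : Lb := (@Lb.d (nat_lit 160) (nat_lit 520) (nat_lit 128) (@Lb.g g10 (@Lb.g g11 (@Lb.r r260 (@Lb.r r2667 (@Lb.r r1633 (@Lb.r r338 (@Lb.d (nat_lit 536) (nat_lit 85) (nat_lit 550) (@Lb.fm (nat_lit 3) t2418)))))))))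
noncomputable def l9821 : Lb := (@Lb.r r82 (@Lb.d (nat_lit 2) (nat_lit 33) (nat_lit 64) (@Lb.g g8 (@Lb.g g9 (@Lb.g g11 (@Lb.r r1563 (@Lb.r r1129 (@Lb.r r2646 (@Lb.r r1416 (@Lb.d (nat_lit 546) (nat_lit 0) (nat_lit 70) (@Lb.t (@Lb.fp (nat_lit 9) t2419))))))))))))
noncomputable def l9822 : Lb := (@Lb.d (nat_lit 129) (nat_lit 258) (nat_lit 130) (@Lb.g g8 (@Lb.g g9 (@Lb.g g10 (@Lb.g g11 (@Lb.r r419 (@Lb.r r386 (@Lb.r r616 (@Lb.r r2153 (@Lb.r r36 (@Lb.d (nat_lit 361) (nat_lit 34) (nat_lit 36) (@Lb.fm (nat_lit 9) t2420))))))))))))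
noncomputable def l9823 : Lb := (@Lb.d (nat_lit 1) (nat_lit 256) (nat_lit 0) (@Lb.r r24 (@Lb.r r101 (@Lb.r r402 (@Lb.r r323 (@Lb.g g7 (@Lb.g g6 (@Lb.d (nat_lit 0) (nat_lit 0) (nat_lit 10) (@Lb.fp (nat_lit 3) t686)))))))))
noncomputable def l9824 : Lb := (@Lb.r r82 (@Lb.d (nat_lit 41) (nat_lit 32) (nat_lit 64) (@Lb.g g8 (@Lb.g g9 (@Lb.g g11 (@Lb.r r1571 (@Lb.r r582 (@Lb.r r1445 (@Lb.r r408 (@Lb.d (nat_lit 344) (nat_lit 26) (nat_lit 358) (@Lb.t (@Lb.fp (nat_lit 9) t509))))))))))))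
noncomputable def l9825 : Lb := (@Lb.d (nat_lit 0) (nat_lit 261) (nat_lit 1) (@Lb.g g5 (@Lb.g g6 (@Lb.fm (nat_lit 3) t1400))))
noncomputable def l9826 : Lb := (@Lb.d (nat_lit 2) (nat_lit 545) (nat_lit 130) (@Lb.g g8 (@Lb.g g9 (@Lb.g g10 (@Lb.g g11 (@Lb.r r1699 (@Lb.r r36 (@Lb.r r661 (@Lb.r r146 (@Lb.r r2084 (@Lb.d (nat_lit 409) (nat_lit 80) (nat_lit 342) (@Lb.fp (nat_lit 9) t1640))))))))))))
noncomputable def l9827 : Lb := (@Lb.d (nat_lit 2) (nat_lit 289) (nat_lit 130) (@Lb.g g8 (@Lb.g g9 (@Lb.g g10 (@Lb.g g11 (@Lb.r r1706 (@Lb.r r680 (@Lb.r r555 (@Lb.r r2577 (@Lb.r r2084 (@Lb.d (nat_lit 265) (nat_lit 161) (nat_lit 330) (@Lb.fm (nat_lit 9) t125))))))))))))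
noncomputable def l9828 : Lb := (@Lb.r r584 (@Lb.r r619 (@Lb.r r2178 (@Lb.r r2081 (@Lb.r r1540 (@Lb.d (nat_lit 1) (nat_lit 137) (nat_lit 32) (@Lb.fp (nat_lit 1) t2421)))))))
noncomputable def l9829 : Lb := (@Lb.d (nat_lit 10) (nat_lit 256) (nat_lit 128) (@Lb.g g8 (@Lb.g g11 (@Lb.r r593 (@Lb.r r2587 (@Lb.r r2178 (@Lb.r r2584 (@Lb.d (nat_lit 36) (nat_lit 9) (nat_lit 16) (@Lb.fp (nat_lit 3) t1385)))))))))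
noncomputable def l9830 : Lb := (@Lb.r r322 (@Lb.d (nat_lit 2) (nat_lit 514) (nat_lit 8) (@Lb.g g8 (@Lb.g g9 (@Lb.g g11 (@Lb.r r1430 (@Lb.r r2585 (@Lb.d (nat_lit 329) (nat_lit 4) (nat_lit 329) (@Lb.t (@Lb.fp (nat_lit 9) t683))))))))))
noncomputable def l9831 : Lb := (@Lb.r r82 (@Lb.d (nat_lit 0) (nat_lit 586) (nat_lit 128) (@Lb.g g9 (@Lb.g g11 (@Lb.r r355 (@Lb.r r578 (@Lb.r r1156 (@Lb.d (nat_lit 0) (nat_lit 33) (nat_lit 36) (@Lb.fm (nat_lit 3) t2422)))))))))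
noncomputable def l9832 : Lb := (@Lb.d (nat_lit 34) (nat_lit 0) (nat_lit 0) (@Lb.g g8 (@Lb.r r2395 (@Lb.r r614 (@Lb.r r1637 (@Lb.r r1428 (@Lb.d (nat_lit 612) (nat_lit 90) (nat_lit 394) (@Lb.t (@Lb.fm (nat_lit 3) t386)))))))))
noncomputable def l9833 : Lb := (@Lb.d (nat_lit 4) (nat_lit 514) (nat_lit 2) (@Lb.g g8 (@Lb.g g9 (@Lb.g g10 (@Lb.g g11 (@Lb.r r363 (@Lb.r r386 (@Lb.r r1121 (@Lb.r r24 (@Lb.d (nat_lit 266) (nat_lit 137) (nat_lit 102) (@Lb.fm (nat_lit 9) t61)))))))))))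
noncomputable def l9834 : Lb := (@Lb.r r21 (@Lb.r r70 (@Lb.d (nat_lit 2) (nat_lit 512) (nat_lit 0) (@Lb.g g8 (@Lb.g g11 (@Lb.r r1626 (@Lb.r r1556 (@Lb.r r25 (@Lb.d (nat_lit 577) (nat_lit 162) (nat_lit 640) (@Lb.fm (nat_lit 3) t329))))))))))
noncomputable def l9835 : Lb := (@Lb.d (nat_lit 134) (nat_lit 2) (nat_lit 130) (@Lb.g g8 (@Lb.g g9 (@Lb.g g10 (@Lb.g g11 (@Lb.r r1686 (@Lb.r r360 (@Lb.r r295 (@Lb.r r2453 (@Lb.r r1060 (@Lb.d (nat_lit 281) (nat_lit 137) (nat_lit 145) (@Lb.fp (nat_lit 9) t163))))))))))))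
noncomputable def l9836 : Lb := (@Lb.r r323 (@Lb.d (nat_lit 2) (nat_lit 2) (nat_lit 1) (@Lb.g g8 (@Lb.g g9 (@Lb.g g6 (@Lb.r r387 (@Lb.r r97 (@Lb.r r24 (@Lb.d (nat_lit 9) (nat_lit 9) (nat_lit 66) (@Lb.t (@Lb.fp (nat_lit 9) t319)))))))))))
noncomputable def l9837 : Lb := (@Lb.r r21 (@Lb.d (nat_lit 146) (nat_lit 512) (nat_lit 128) (@Lb.g g8 (@Lb.g g10 (@Lb.g g11 (@Lb.r r387 (@Lb.r r1172 (@Lb.r r2454 (@Lb.r r97 (@Lb.d (nat_lit 325) (nat_lit 2) (nat_lit 138) (@Lb.t (@Lb.fm (nat_lit 9) t4))))))))))))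
noncomputable def l9838 : Lb := (@Lb.r r580 (@Lb.d (nat_lit 136) (nat_lit 258) (nat_lit 105) (@Lb.g g9 (@Lb.g g10 (@Lb.g g11 (@Lb.r r328 (@Lb.r r535 (@Lb.r r1313 (@Lb.d (nat_lit 618) (nat_lit 104) (nat_lit 106) (@Lb.t (@Lb.fp (nat_lit 9) t2278)))))))))))
noncomputable def l9839 : Lb := (@Lb.r r322 (@Lb.d (nat_lit 0) (nat_lit 256) (nat_lit 576) (@Lb.g g9 (@Lb.g g7 (@Lb.r r1377 (@Lb.r r2198 (@Lb.r r1096 (@Lb.d (nat_lit 266) (nat_lit 2) (nat_lit 576) (@Lb.fm (nat_lit 3) t807)))))))))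
noncomputable def l9840 : Lb := (@Lb.d (nat_lit 8) (nat_lit 10) (nat_lit 0) (@Lb.g g5 (@Lb.r r2218 (@Lb.r r2728 (@Lb.r r1705 (@Lb.d (nat_lit 424) (nat_lit 105) (nat_lit 138) (@Lb.t (@Lb.fp (nat_lit 3) t322))))))))
noncomputable def l9841 : Lb := (@Lb.d (nat_lit 0) (nat_lit 642) (nat_lit 1) (@Lb.g g9 (@Lb.g g10 (@Lb.r r548 (@Lb.r r295 (@Lb.r r586 (@Lb.r r516 (@Lb.d (nat_lit 529) (nat_lit 6) (nat_lit 86) (@Lb.fm (nat_lit 3) t2423)))))))))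
noncomputable def l9842 : Lb := (@Lb.d (nat_lit 2) (nat_lit 274) (nat_lit 1) (@Lb.g g8 (@Lb.g g9 (@Lb.g g10 (@Lb.r r1623 (@Lb.r r1366 (@Lb.r r2217 (@Lb.d (nat_lit 521) (nat_lit 21) (nat_lit 150) (@Lb.t (@Lb.fm (nat_lit 9) t1961))))))))))
noncomputable def l9843 : Lb := (@Lb.d (nat_lit 2) (nat_lit 258) (nat_lit 2) (@Lb.g g8 (@Lb.g g9 (@Lb.g g10 (@Lb.r r2666 (@Lb.r r579 (@Lb.r r2337 (@Lb.r r24 (@Lb.d (nat_lit 361) (nat_lit 144) (nat_lit 352) (@Lb.t (@Lb.fp (nat_lit 9) t1649)))))))))))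
noncomputable def l9844 : Lb := (@Lb.d (nat_lit 278) (nat_lit 337) (nat_lit 289) (@Lb.r r1304 (@Lb.r r667 (@Lb.r r2405 (@Lb.g g6 (@Lb.g g4 (@Lb.d (nat_lit 4) (nat_lit 8) (nat_lit 41) (@Lb.r r387 (@Lb.fp (nat_lit 3) t531)))))))))
noncomputable def l9845 : Lb := (@Lb.r r355 (@Lb.d (nat_lit 4) (nat_lit 521) (nat_lit 2) (@Lb.g g8 (@Lb.g g9 (@Lb.g g10 (@Lb.r r683 (@Lb.r r1642 (@Lb.r r2649 (@Lb.d (nat_lit 361) (nat_lit 37) (nat_lit 9) (@Lb.t (@Lb.fp (nat_lit 9) t919)))))))))))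
noncomputable def l9846 : Lb := (@Lb.d (nat_lit 0) (nat_lit 137) (nat_lit 16) (@Lb.r r1288 (@Lb.r r597 (@Lb.r r1638 (@Lb.r r535 (@Lb.g g9 (@Lb.r r98 (@Lb.r r36 (@Lb.t (@Lb.fp (nat_lit 3) t344))))))))))
noncomputable def l9847 : Lb := (@Lb.r r82 (@Lb.d (nat_lit 2) (nat_lit 514) (nat_lit 128) (@Lb.g g8 (@Lb.g g9 (@Lb.g g11 (@Lb.r r1571 (@Lb.r r1416 (@Lb.r r1642 (@Lb.r r1633 (@Lb.d (nat_lit 612) (nat_lit 138) (nat_lit 601) (@Lb.t (@Lb.fp (nat_lit 9) t2424))))))))))))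
noncomputable def l9848 : Lb := (@Lb.r r20 (@Lb.r r82 (@Lb.r r275 (@Lb.d (nat_lit 4) (nat_lit 354) (nat_lit 0) (@Lb.g g9 (@Lb.r r2647 (@Lb.r r386 (@Lb.r r1288 (@Lb.d (nat_lit 34) (nat_lit 2) (nat_lit 548) (@Lb.t (@Lb.fm (nat_lit 3) t538)))))))))))
noncomputable def l9849 : Lb := (@Lb.r r82 (@Lb.r r263 (@Lb.d (nat_lit 4) (nat_lit 0) (nat_lit 0) (@Lb.g g8 (@Lb.g g9 (@Lb.r r1561 (@Lb.r r2643 (@Lb.r r386 (@Lb.r r1352 (@Lb.d (nat_lit 417) (nat_lit 0) (nat_lit 422) (@Lb.fp (nat_lit 3) t2425)))))))))))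
noncomputable def l9850 : Lb := (@Lb.d (nat_lit 297) (nat_lit 129) (nat_lit 160) (@Lb.r r1044 (@Lb.r r146 (@Lb.r r361 (@Lb.g g11 (@Lb.g g4 (@Lb.d (nat_lit 66) (nat_lit 32) (nat_lit 388) (@Lb.r r578 (@Lb.r r529 (@Lb.fp (nat_lit 3) t1893))))))))))
noncomputable def l9851 : Lb := (@Lb.r r331 (@Lb.d (nat_lit 130) (nat_lit 1) (nat_lit 2) (@Lb.g g8 (@Lb.g g9 (@Lb.g g10 (@Lb.r r2410 (@Lb.r r2409 (@Lb.r r2455 (@Lb.r r2632 (@Lb.d (nat_lit 361) (nat_lit 65) (nat_lit 642) (@Lb.t (@Lb.fm (nat_lit 9) t2426))))))))))))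
noncomputable def l9852 : Lb := (@Lb.r r1291 (@Lb.d (nat_lit 385) (nat_lit 514) (nat_lit 0) (@Lb.g g8 (@Lb.g g9 (@Lb.r r25 (@Lb.d (nat_lit 9) (nat_lit 10) (nat_lit 386) (@Lb.fm (nat_lit 3) t2427)))))))
noncomputable def l9853 : Lb := (@Lb.r r1291 (@Lb.d (nat_lit 385) (nat_lit 512) (nat_lit 384) (@Lb.fp (nat_lit 1) t441)))
noncomputable def l9854 : Lb := (@Lb.g g7 (@Lb.r r664 (@Lb.r r154 (@Lb.r r2133 (@Lb.r r164 (@Lb.d (nat_lit 0) (nat_lit 256) (nat_lit 256) (@Lb.t (@Lb.fm (nat_lit 3) t2428))))))))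
noncomputable def l9855 : Lb := (@Lb.r r580 (@Lb.d (nat_lit 16) (nat_lit 288) (nat_lit 105) (@Lb.g g10 (@Lb.g g11 (@Lb.r r2405 (@Lb.r r667 (@Lb.r r1048 (@Lb.d (nat_lit 664) (nat_lit 4) (nat_lit 265) (@Lb.fp (nat_lit 3) t2426)))))))))
noncomputable def l9856 : Lb := (@Lb.r r664 (@Lb.r r154 (@Lb.r r2133 (@Lb.r r164 (@Lb.d (nat_lit 0) (nat_lit 256) (nat_lit 256) (@Lb.fp (nat_lit 1) t2428))))))
noncomputable def l9857 : Lb := (@Lb.r r21 (@Lb.r r70 (@Lb.d (nat_lit 10) (nat_lit 0) (nat_lit 0) (@Lb.g g8 (@Lb.r r1301 (@Lb.r r679 (@Lb.r r1354 (@Lb.r r2440 (@Lb.d (nat_lit 673) (nat_lit 0) (nat_lit 682) (@Lb.t (@Lb.fp (nat_lit 3) t74)))))))))))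
noncomputable def l9858 : Lb := (@Lb.d (nat_lit 514) (nat_lit 256) (nat_lit 128) (@Lb.r r1291 (@Lb.g g8 (@Lb.t (@Lb.fp (nat_lit 3) t997)))))
noncomputable def l9859 : Lb := (@Lb.r r1291 (@Lb.d (nat_lit 385) (nat_lit 258) (nat_lit 0) (@Lb.g g8 (@Lb.g g9 (@Lb.r r25 (@Lb.d (nat_lit 9) (nat_lit 0) (nat_lit 384) (@Lb.fm (nat_lit 3) t1044)))))))
noncomputable def l9860 : Lb := (@Lb.r r322 (@Lb.d (nat_lit 0) (nat_lit 545) (nat_lit 516) (@Lb.g g9 (@Lb.g g7 (@Lb.r r418 (@Lb.r r2201 (@Lb.r r24 (@Lb.d (nat_lit 529) (nat_lit 0) (nat_lit 81) (@Lb.fp (nat_lit 3) t1061)))))))))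
noncomputable def l9861 : Lb := (@Lb.d (nat_lit 9) (nat_lit 1) (nat_lit 22) (@Lb.g g8 (@Lb.g g9 (@Lb.g g10 (@Lb.r r1579 (@Lb.r r2585 (@Lb.r r2564 (@Lb.d (nat_lit 649) (nat_lit 68) (nat_lit 402) (@Lb.t (@Lb.fp (nat_lit 9) t820))))))))))
noncomputable def l9862 : Lb := (@Lb.d (nat_lit 2) (nat_lit 545) (nat_lit 66) (@Lb.g g8 (@Lb.g g9 (@Lb.g g10 (@Lb.g g11 (@Lb.r r2595 (@Lb.r r386 (@Lb.r r36 (@Lb.r r149 (@Lb.r r2084 (@Lb.d (nat_lit 641) (nat_lit 10) (nat_lit 677) (@Lb.fp (nat_lit 9) t2429))))))))))))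
noncomputable def l9863 : Lb := (@Lb.d (nat_lit 68) (nat_lit 577) (nat_lit 645) (@Lb.r r597 (@Lb.r r1642 (@Lb.r r1352 (@Lb.r r2695 (@Lb.g g7 (@Lb.g g6 (@Lb.g g5 (@Lb.d (nat_lit 20) (nat_lit 6) (nat_lit 132) (@Lb.t (@Lb.fp (nat_lit 9) t221)))))))))))
noncomputable def l9864 : Lb := (@Lb.d (nat_lit 2) (nat_lit 521) (nat_lit 129) (@Lb.g g8 (@Lb.g g9 (@Lb.g g10 (@Lb.g g11 (@Lb.r r2722 (@Lb.r r2467 (@Lb.r r292 (@Lb.r r405 (@Lb.r r2084 (@Lb.d (nat_lit 98) (nat_lit 10) (nat_lit 601) (@Lb.fm (nat_lit 9) t801))))))))))))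
noncomputable def l9865 : Lb := (@Lb.g g6 (@Lb.r r101 (@Lb.r r24 (@Lb.d (nat_lit 354) (nat_lit 512) (nat_lit 512) (@Lb.t (@Lb.fm (nat_lit 3) t166))))))
noncomputable def l9866 : Lb := (@Lb.d (nat_lit 132) (nat_lit 256) (nat_lit 130) (@Lb.g g8 (@Lb.g g9 (@Lb.g g10 (@Lb.g g11 (@Lb.r r2327 (@Lb.r r2217 (@Lb.r r98 (@Lb.r r392 (@Lb.d (nat_lit 146) (nat_lit 8) (nat_lit 585) (@Lb.fp (nat_lit 9) t211)))))))))))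
noncomputable def l9867 : Lb := (@Lb.d (nat_lit 149) (nat_lit 10) (nat_lit 129) (@Lb.g g8 (@Lb.g g9 (@Lb.g g10 (@Lb.g g11 (@Lb.r r666 (@Lb.r r1411 (@Lb.r r1553 (@Lb.r r2728 (@Lb.d (nat_lit 361) (nat_lit 42) (nat_lit 352) (@Lb.fp (nat_lit 9) t2430)))))))))))
noncomputable def l9868 : Lb := (@Lb.d (nat_lit 132) (nat_lit 512) (nat_lit 130) (@Lb.g g8 (@Lb.g g9 (@Lb.g g10 (@Lb.g g11 (@Lb.r r2327 (@Lb.r r2217 (@Lb.r r98 (@Lb.r r392 (@Lb.d (nat_lit 146) (nat_lit 6) (nat_lit 584) (@Lb.fp (nat_lit 9) t211)))))))))))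
noncomputable def l9869 : Lb := (@Lb.r r323 (@Lb.d (nat_lit 2) (nat_lit 546) (nat_lit 2) (@Lb.g g8 (@Lb.g g9 (@Lb.g g10 (@Lb.r r599 (@Lb.r r74 (@Lb.r r296 (@Lb.r r409 (@Lb.d (nat_lit 149) (nat_lit 164) (nat_lit 68) (@Lb.t (@Lb.fm (nat_lit 9) t119))))))))))))
noncomputable def l9870 : Lb := (@Lb.d (nat_lit 10) (nat_lit 288) (nat_lit 130) (@Lb.g g8 (@Lb.g g10 (@Lb.g g11 (@Lb.r r1618 (@Lb.r r149 (@Lb.r r2340 (@Lb.r r587 (@Lb.d (nat_lit 592) (nat_lit 90) (nat_lit 424) (@Lb.t (@Lb.fp (nat_lit 9) t100)))))))))))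
noncomputable def l9871 : Lb := (@Lb.d (nat_lit 10) (nat_lit 288) (nat_lit 130) (@Lb.g g8 (@Lb.g g10 (@Lb.g g11 (@Lb.r r1618 (@Lb.r r149 (@Lb.r r2340 (@Lb.r r587 (@Lb.d (nat_lit 97) (nat_lit 90) (nat_lit 409) (@Lb.t (@Lb.fp (nat_lit 9) t100)))))))))))
noncomputable def l9872 : Lb := (@Lb.d (nat_lit 257) (nat_lit 8) (nat_lit 0) (@Lb.r r1416 (@Lb.r r1386 (@Lb.r r1369 (@Lb.r r2343 (@Lb.g g7 (@Lb.g g6 (@Lb.g g5 (@Lb.d (nat_lit 0) (nat_lit 0) (nat_lit 65) (@Lb.t (@Lb.fm (nat_lit 9) t1103)))))))))))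
noncomputable def l9873 : Lb := (@Lb.d (nat_lit 544) (nat_lit 512) (nat_lit 96) (@Lb.r r1416 (@Lb.r r81 (@Lb.r r162 (@Lb.r r145 (@Lb.g g7 (@Lb.d (nat_lit 64) (nat_lit 32) (nat_lit 576) (@Lb.t (@Lb.fm (nat_lit 3) t828)))))))))
noncomputable def l9874 : Lb := (@Lb.d (nat_lit 2) (nat_lit 258) (nat_lit 2) (@Lb.g g8 (@Lb.g g9 (@Lb.g g10 (@Lb.r r2729 (@Lb.r r2475 (@Lb.r r2468 (@Lb.r r2438 (@Lb.d (nat_lit 609) (nat_lit 10) (nat_lit 674) (@Lb.t (@Lb.fm (nat_lit 9) t590)))))))))))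
noncomputable def l9875 : Lb := (@Lb.d (nat_lit 2) (nat_lit 514) (nat_lit 73) (@Lb.g g8 (@Lb.g g9 (@Lb.g g10 (@Lb.g g11 (@Lb.r r2691 (@Lb.r r536 (@Lb.r r2197 (@Lb.r r2646 (@Lb.r r164 (@Lb.d (nat_lit 136) (nat_lit 9) (nat_lit 361) (@Lb.fp (nat_lit 9) t1636))))))))))))
noncomputable def l9876 : Lb := (@Lb.d (nat_lit 128) (nat_lit 544) (nat_lit 72) (@Lb.g g11 (@Lb.r r2410 (@Lb.r r361 (@Lb.r r1384 (@Lb.r r2583 (@Lb.d (nat_lit 646) (nat_lit 162) (nat_lit 260) (@Lb.t (@Lb.fm (nat_lit 3) t386)))))))))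
noncomputable def l9877 : Lb := (@Lb.d (nat_lit 128) (nat_lit 288) (nat_lit 72) (@Lb.g g11 (@Lb.r r2410 (@Lb.r r361 (@Lb.r r1384 (@Lb.r r2583 (@Lb.d (nat_lit 646) (nat_lit 164) (nat_lit 261) (@Lb.t (@Lb.fm (nat_lit 3) t386)))))))))
noncomputable def l9878 : Lb := (@Lb.d (nat_lit 2) (nat_lit 258) (nat_lit 73) (@Lb.g g8 (@Lb.g g9 (@Lb.g g10 (@Lb.g g11 (@Lb.r r2691 (@Lb.r r536 (@Lb.r r2197 (@Lb.r r2646 (@Lb.r r164 (@Lb.d (nat_lit 136) (nat_lit 2) (nat_lit 362) (@Lb.fp (nat_lit 9) t991))))))))))))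
noncomputable def l9879 : Lb := (@Lb.d (nat_lit 128) (nat_lit 8) (nat_lit 258) (@Lb.g g10 (@Lb.g g7 (@Lb.r r601 (@Lb.r r1624 (@Lb.r r2150 (@Lb.d (nat_lit 538) (nat_lit 9) (nat_lit 132) (@Lb.fm (nat_lit 3) t386))))))))
noncomputable def l9880 : Lb := (@Lb.d (nat_lit 6) (nat_lit 256) (nat_lit 130) (@Lb.g g8 (@Lb.g g9 (@Lb.g g10 (@Lb.g g11 (@Lb.r r427 (@Lb.r r420 (@Lb.r r102 (@Lb.r r97 (@Lb.r r36 (@Lb.d (nat_lit 9) (nat_lit 137) (nat_lit 137) (@Lb.fm (nat_lit 9) t51))))))))))))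
noncomputable def l9881 : Lb := (@Lb.d (nat_lit 0) (nat_lit 10) (nat_lit 0) (@Lb.g g9 (@Lb.d (nat_lit 0) (nat_lit 10) (nat_lit 1) (@Lb.t (@Lb.fp (nat_lit 3) t97)))))
noncomputable def l9882 : Lb := (@Lb.d (nat_lit 0) (nat_lit 0) (nat_lit 2) (@Lb.g g9 (@Lb.g g10 (@Lb.g g7 (@Lb.r r386 (@Lb.r r101 (@Lb.r r24 (@Lb.d (nat_lit 354) (nat_lit 0) (nat_lit 521) (@Lb.t (@Lb.fm (nat_lit 9) t166))))))))))
noncomputable def l9883 : Lb := (@Lb.r r82 (@Lb.d (nat_lit 0) (nat_lit 545) (nat_lit 64) (@Lb.g g8 (@Lb.g g9 (@Lb.g g11 (@Lb.r r1543 (@Lb.r r2152 (@Lb.r r2438 (@Lb.r r1361 (@Lb.d (nat_lit 0) (nat_lit 132) (nat_lit 345) (@Lb.t (@Lb.fp (nat_lit 9) t501))))))))))))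
noncomputable def l9884 : Lb := (@Lb.r r21 (@Lb.d (nat_lit 33) (nat_lit 256) (nat_lit 1) (@Lb.g g8 (@Lb.g g10 (@Lb.r r1691 (@Lb.r r1381 (@Lb.r r2202 (@Lb.r r2372 (@Lb.d (nat_lit 553) (nat_lit 101) (nat_lit 330) (@Lb.fp (nat_lit 3) t428))))))))))
noncomputable def l9885 : Lb := (@Lb.d (nat_lit 0) (nat_lit 2) (nat_lit 73) (@Lb.g g8 (@Lb.g g9 (@Lb.g g10 (@Lb.g g11 (@Lb.r r2691 (@Lb.r r297 (@Lb.r r648 (@Lb.r r666 (@Lb.r r1156 (@Lb.d (nat_lit 640) (nat_lit 168) (nat_lit 73) (@Lb.fp (nat_lit 9) t1115))))))))))))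
noncomputable def l9886 : Lb := (@Lb.g g9 (@Lb.d (nat_lit 5) (nat_lit 264) (nat_lit 2) (@Lb.t (@Lb.fp (nat_lit 3) t21))))
noncomputable def l9887 : Lb := (@Lb.r r1105 (@Lb.d (nat_lit 5) (nat_lit 512) (nat_lit 64) (@Lb.g g4 (@Lb.g g10 (@Lb.g g11 (@Lb.r r1634 (@Lb.d (nat_lit 1) (nat_lit 88) (nat_lit 658) (@Lb.t (@Lb.fp (nat_lit 9) t329)))))))))
noncomputable def l9888 : Lb := (@Lb.d (nat_lit 16) (nat_lit 260) (nat_lit 129) (@Lb.g g8 (@Lb.g g9 (@Lb.g g10 (@Lb.g g11 (@Lb.r r2595 (@Lb.r r418 (@Lb.r r149 (@Lb.r r2660 (@Lb.d (nat_lit 345) (nat_lit 90) (nat_lit 677) (@Lb.fp (nat_lit 9) t50)))))))))))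
noncomputable def l9889 : Lb := (@Lb.d (nat_lit 4) (nat_lit 594) (nat_lit 2) (@Lb.g g5 (@Lb.g g10 (@Lb.r r2435 (@Lb.r r386 (@Lb.r r24 (@Lb.d (nat_lit 594) (nat_lit 1) (nat_lit 133) (@Lb.fp (nat_lit 3) t1150))))))))
noncomputable def l9890 : Lb := (@Lb.r r1092 (@Lb.d (nat_lit 0) (nat_lit 580) (nat_lit 0) (@Lb.g g9 (@Lb.g g10 (@Lb.r r2723 (@Lb.r r1634 (@Lb.d (nat_lit 0) (nat_lit 90) (nat_lit 9) (@Lb.fp (nat_lit 3) t979))))))))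
noncomputable def l9891 : Lb := (@Lb.r r21 (@Lb.r r70 (@Lb.g g4 (@Lb.r r2340 (@Lb.r r1291 (@Lb.r r101 (@Lb.r r410 (@Lb.d (nat_lit 265) (nat_lit 128) (nat_lit 256) (@Lb.t (@Lb.fm (nat_lit 3) t2431))))))))))
noncomputable def l9892 : Lb := (@Lb.r r24 (@Lb.r r101 (@Lb.d (nat_lit 10) (nat_lit 346) (nat_lit 394) (@Lb.fp (nat_lit 1) t2432))))
noncomputable def l9893 : Lb := (@Lb.d (nat_lit 65) (nat_lit 258) (nat_lit 646) (@Lb.r r24 (@Lb.r r386 (@Lb.r r2587 (@Lb.g g7 (@Lb.g g6 (@Lb.g g9 (@Lb.d (nat_lit 8) (nat_lit 2) (nat_lit 129) (@Lb.t (@Lb.fp (nat_lit 9) t121))))))))))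
noncomputable def l9894 : Lb := (@Lb.d (nat_lit 292) (nat_lit 582) (nat_lit 33) (@Lb.r r8 (@Lb.r r1174 (@Lb.r r2401 (@Lb.r r659 (@Lb.g g6 (@Lb.t (@Lb.fm (nat_lit 3) t2433))))))))
noncomputable def l9895 : Lb := (@Lb.r r20 (@Lb.d (nat_lit 0) (nat_lit 641) (nat_lit 128) (@Lb.g g5 (@Lb.g g10 (@Lb.g g11 (@Lb.r r667 (@Lb.r r644 (@Lb.r r134 (@Lb.d (nat_lit 41) (nat_lit 81) (nat_lit 272) (@Lb.t (@Lb.fp (nat_lit 9) t1194)))))))))))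
noncomputable def l9896 : Lb := (@Lb.r r20 (@Lb.d (nat_lit 8) (nat_lit 386) (nat_lit 128) (@Lb.g g5 (@Lb.g g10 (@Lb.g g11 (@Lb.r r667 (@Lb.r r644 (@Lb.r r134 (@Lb.d (nat_lit 41) (nat_lit 81) (nat_lit 341) (@Lb.t (@Lb.fp (nat_lit 9) t1194)))))))))))
noncomputable def l9897 : Lb := (@Lb.d (nat_lit 0) (nat_lit 266) (nat_lit 0) (@Lb.g g8 (@Lb.g g9 (@Lb.r r2403 (@Lb.r r594 (@Lb.r r2449 (@Lb.d (nat_lit 0) (nat_lit 154) (nat_lit 297) (@Lb.fm (nat_lit 3) t188))))))))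
noncomputable def l9898 : Lb := (@Lb.d (nat_lit 646) (nat_lit 40) (nat_lit 650) (@Lb.r r1301 (@Lb.r r1110 (@Lb.r r323 (@Lb.g g7 (@Lb.g g6 (@Lb.g g5 (@Lb.g g4 (@Lb.d (nat_lit 1) (nat_lit 6) (nat_lit 134) (@Lb.fp (nat_lit 9) t2434))))))))))
noncomputable def l9899 : Lb := (@Lb.d (nat_lit 0) (nat_lit 10) (nat_lit 0) (@Lb.g g5 (@Lb.g g7 (@Lb.r r618 (@Lb.r r1641 (@Lb.d (nat_lit 410) (nat_lit 101) (nat_lit 537) (@Lb.fp (nat_lit 3) t572)))))))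
noncomputable def l9900 : Lb := (@Lb.r r273 (@Lb.d (nat_lit 10) (nat_lit 0) (nat_lit 578) (@Lb.g g8 (@Lb.g g10 (@Lb.g g7 (@Lb.r r386 (@Lb.r r149 (@Lb.r r1192 (@Lb.d (nat_lit 84) (nat_lit 134) (nat_lit 617) (@Lb.t (@Lb.fp (nat_lit 9) t2429)))))))))))
noncomputable def l9901 : Lb := (@Lb.d (nat_lit 0) (nat_lit 266) (nat_lit 0) (@Lb.g g9 (@Lb.r r2403 (@Lb.r r594 (@Lb.r r2449 (@Lb.d (nat_lit 0) (nat_lit 154) (nat_lit 297) (@Lb.t (@Lb.fp (nat_lit 3) t188))))))))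
noncomputable def l9902 : Lb := (@Lb.d (nat_lit 0) (nat_lit 266) (nat_lit 0) (@Lb.g g9 (@Lb.d (nat_lit 280) (nat_lit 9) (nat_lit 34) (@Lb.t (@Lb.fp (nat_lit 3) t743)))))
noncomputable def l9903 : Lb := (@Lb.d (nat_lit 16) (nat_lit 4) (nat_lit 129) (@Lb.g g8 (@Lb.g g9 (@Lb.g g10 (@Lb.g g11 (@Lb.r r1683 (@Lb.r r2581 (@Lb.r r616 (@Lb.r r1350 (@Lb.d (nat_lit 337) (nat_lit 138) (nat_lit 421) (@Lb.fp (nat_lit 9) t2095)))))))))))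
noncomputable def l9904 : Lb := (@Lb.d (nat_lit 390) (nat_lit 86) (nat_lit 576) (@Lb.r r2584 (@Lb.r r97 (@Lb.r r2667 (@Lb.g g7 (@Lb.g g10 (@Lb.g g5 (@Lb.g g4 (@Lb.d (nat_lit 1) (nat_lit 1) (nat_lit 81) (@Lb.fp (nat_lit 9) t1852))))))))))
noncomputable def l9905 : Lb := (@Lb.d (nat_lit 2) (nat_lit 265) (nat_lit 129) (@Lb.g g8 (@Lb.g g9 (@Lb.g g10 (@Lb.g g11 (@Lb.r r1706 (@Lb.r r680 (@Lb.r r555 (@Lb.r r1553 (@Lb.r r2084 (@Lb.d (nat_lit 9) (nat_lit 97) (nat_lit 586) (@Lb.fm (nat_lit 9) t594))))))))))))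
noncomputable def l9906 : Lb := (@Lb.d (nat_lit 2) (nat_lit 416) (nat_lit 66) (@Lb.g g8 (@Lb.g g5 (@Lb.g g10 (@Lb.g g11 (@Lb.r r531 (@Lb.r r386 (@Lb.r r1096 (@Lb.d (nat_lit 546) (nat_lit 98) (nat_lit 73) (@Lb.fp (nat_lit 9) t299))))))))))
noncomputable def l9907 : Lb := (@Lb.d (nat_lit 0) (nat_lit 266) (nat_lit 0) (@Lb.g g9 (@Lb.r r1383 (@Lb.r r1626 (@Lb.r r1429 (@Lb.d (nat_lit 549) (nat_lit 90) (nat_lit 265) (@Lb.t (@Lb.fp (nat_lit 3) t2435))))))))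
noncomputable def l9908 : Lb := (@Lb.r r323 (@Lb.d (nat_lit 2) (nat_lit 514) (nat_lit 0) (@Lb.g g8 (@Lb.g g9 (@Lb.g g10 (@Lb.r r2459 (@Lb.r r297 (@Lb.r r1384 (@Lb.r r2630 (@Lb.d (nat_lit 0) (nat_lit 64) (nat_lit 137) (@Lb.t (@Lb.fm (nat_lit 9) t91))))))))))))
noncomputable def l9909 : Lb := (@Lb.r r323 (@Lb.d (nat_lit 1) (nat_lit 258) (nat_lit 0) (@Lb.g g8 (@Lb.g g9 (@Lb.g g10 (@Lb.r r2459 (@Lb.r r297 (@Lb.r r1384 (@Lb.r r2630 (@Lb.d (nat_lit 0) (nat_lit 74) (nat_lit 136) (@Lb.t (@Lb.fm (nat_lit 9) t91))))))))))))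
noncomputable def l9910 : Lb := (@Lb.r r323 (@Lb.d (nat_lit 2) (nat_lit 2) (nat_lit 0) (@Lb.g g8 (@Lb.g g9 (@Lb.g g10 (@Lb.r r2459 (@Lb.r r297 (@Lb.r r1384 (@Lb.r r2630 (@Lb.d (nat_lit 0) (nat_lit 74) (nat_lit 136) (@Lb.t (@Lb.fm (nat_lit 9) t91))))))))))))
noncomputable def l9911 : Lb := (@Lb.r r277 (@Lb.r r326 (@Lb.d (nat_lit 261) (nat_lit 272) (nat_lit 136) (@Lb.g g8 (@Lb.g g11 (@Lb.r r402 (@Lb.r r1121 (@Lb.d (nat_lit 330) (nat_lit 74) (nat_lit 657) (@Lb.fm (nat_lit 3) t2436)))))))))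
noncomputable def l9912 : Lb := (@Lb.d (nat_lit 153) (nat_lit 321) (nat_lit 130) (@Lb.g g8 (@Lb.g g5 (@Lb.g g10 (@Lb.g g11 (@Lb.r r603 (@Lb.r r2626 (@Lb.r r2200 (@Lb.d (nat_lit 585) (nat_lit 136) (nat_lit 409) (@Lb.fm (nat_lit 9) t2437))))))))))
noncomputable def l9913 : Lb := (@Lb.d (nat_lit 128) (nat_lit 9) (nat_lit 129) (@Lb.g g8 (@Lb.g g9 (@Lb.g g10 (@Lb.g g11 (@Lb.r r683 (@Lb.r r2410 (@Lb.r r2329 (@Lb.r r516 (@Lb.d (nat_lit 265) (nat_lit 169) (nat_lit 425) (@Lb.fm (nat_lit 9) t2438)))))))))))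
noncomputable def l9914 : Lb := (@Lb.g g6 (@Lb.g g11 (@Lb.d (nat_lit 0) (nat_lit 517) (nat_lit 1) (@Lb.fp (nat_lit 3) t45))))
noncomputable def l9915 : Lb := (@Lb.r r21 (@Lb.r r70 (@Lb.r r263 (@Lb.g g8 (@Lb.r r267 (@Lb.r r74 (@Lb.r r25 (@Lb.d (nat_lit 2) (nat_lit 344) (nat_lit 521) (@Lb.t (@Lb.fp (nat_lit 3) t1996))))))))))
noncomputable def l9916 : Lb := (@Lb.r r21 (@Lb.r r70 (@Lb.d (nat_lit 410) (nat_lit 0) (nat_lit 128) (@Lb.g g8 (@Lb.g g11 (@Lb.r r1419 (@Lb.r r402 (@Lb.r r97 (@Lb.d (nat_lit 581) (nat_lit 38) (nat_lit 272) (@Lb.fm (nat_lit 3) t2439))))))))))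
noncomputable def l9917 : Lb := (@Lb.d (nat_lit 153) (nat_lit 514) (nat_lit 130) (@Lb.g g8 (@Lb.g g9 (@Lb.g g10 (@Lb.g g11 (@Lb.r r2730 (@Lb.r r1411 (@Lb.r r89 (@Lb.r r2180 (@Lb.d (nat_lit 265) (nat_lit 22) (nat_lit 133) (@Lb.fm (nat_lit 9) t2440)))))))))))
noncomputable def l9918 : Lb := (@Lb.d (nat_lit 72) (nat_lit 257) (nat_lit 2) (@Lb.g g8 (@Lb.g g9 (@Lb.g g10 (@Lb.g g11 (@Lb.r r675 (@Lb.r r2406 (@Lb.r r2325 (@Lb.r r264 (@Lb.d (nat_lit 617) (nat_lit 169) (nat_lit 97) (@Lb.fp (nat_lit 9) t605)))))))))))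
noncomputable def l9919 : Lb := (@Lb.d (nat_lit 384) (nat_lit 594) (nat_lit 354) (@Lb.r r1556 (@Lb.r r281 (@Lb.r r615 (@Lb.g g10 (@Lb.g g4 (@Lb.d (nat_lit 69) (nat_lit 0) (nat_lit 42) (@Lb.r r387 (@Lb.fm (nat_lit 3) t1952)))))))))
noncomputable def l9920 : Lb := (@Lb.d (nat_lit 128) (nat_lit 32) (nat_lit 136) (@Lb.g g11 (@Lb.r r420 (@Lb.r r2469 (@Lb.r r1446 (@Lb.r r347 (@Lb.d (nat_lit 298) (nat_lit 17) (nat_lit 645) (@Lb.t (@Lb.fp (nat_lit 3) t322)))))))))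
noncomputable def l9921 : Lb := (@Lb.r r322 (@Lb.d (nat_lit 34) (nat_lit 514) (nat_lit 576) (@Lb.g g8 (@Lb.g g9 (@Lb.g g7 (@Lb.r r361 (@Lb.r r150 (@Lb.r r1384 (@Lb.d (nat_lit 36) (nat_lit 170) (nat_lit 17) (@Lb.t (@Lb.fm (nat_lit 9) t242)))))))))))
noncomputable def l9922 : Lb := (@Lb.r r600 (@Lb.r r2587 (@Lb.r r2178 (@Lb.r r1429 (@Lb.r r1572 (@Lb.fm (nat_lit 1) t307))))))
noncomputable def l9923 : Lb := (@Lb.d (nat_lit 0) (nat_lit 130) (nat_lit 17) (@Lb.r r2196 (@Lb.r r594 (@Lb.r r2449 (@Lb.r r323 (@Lb.g g7 (@Lb.g g6 (@Lb.d (nat_lit 0) (nat_lit 0) (nat_lit 64) (@Lb.fm (nat_lit 3) t1777)))))))))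
noncomputable def l9924 : Lb := (@Lb.r r21 (@Lb.d (nat_lit 154) (nat_lit 512) (nat_lit 66) (@Lb.g g8 (@Lb.g g10 (@Lb.g g11 (@Lb.r r2715 (@Lb.r r2129 (@Lb.r r2470 (@Lb.r r2648 (@Lb.d (nat_lit 136) (nat_lit 166) (nat_lit 152) (@Lb.t (@Lb.fp (nat_lit 9) t148))))))))))))
noncomputable def l9925 : Lb := (@Lb.d (nat_lit 64) (nat_lit 288) (nat_lit 2) (@Lb.g g8 (@Lb.g g10 (@Lb.g g11 (@Lb.r r602 (@Lb.r r600 (@Lb.r r1317 (@Lb.r r1563 (@Lb.d (nat_lit 578) (nat_lit 106) (nat_lit 550) (@Lb.t (@Lb.fp (nat_lit 9) t524)))))))))))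
noncomputable def l9926 : Lb := (@Lb.d (nat_lit 0) (nat_lit 513) (nat_lit 130) (@Lb.g g8 (@Lb.g g9 (@Lb.g g10 (@Lb.g g11 (@Lb.r r618 (@Lb.r r105 (@Lb.r r340 (@Lb.r r2587 (@Lb.r r2564 (@Lb.d (nat_lit 9) (nat_lit 153) (nat_lit 642) (@Lb.fp (nat_lit 9) t71))))))))))))
noncomputable def l9927 : Lb := (@Lb.d (nat_lit 2) (nat_lit 2) (nat_lit 130) (@Lb.g g8 (@Lb.g g9 (@Lb.g g10 (@Lb.g g11 (@Lb.r r1706 (@Lb.r r680 (@Lb.r r555 (@Lb.r r1553 (@Lb.r r2084 (@Lb.d (nat_lit 9) (nat_lit 97) (nat_lit 586) (@Lb.fm (nat_lit 9) t51))))))))))))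
noncomputable def l9928 : Lb := (@Lb.d (nat_lit 2) (nat_lit 2) (nat_lit 130) (@Lb.g g8 (@Lb.g g9 (@Lb.g g10 (@Lb.g g11 (@Lb.r r1706 (@Lb.r r680 (@Lb.r r555 (@Lb.r r1553 (@Lb.r r2084 (@Lb.d (nat_lit 5) (nat_lit 96) (nat_lit 586) (@Lb.fm (nat_lit 9) t51))))))))))))
noncomputable def l9929 : Lb := (@Lb.d (nat_lit 129) (nat_lit 258) (nat_lit 130) (@Lb.g g8 (@Lb.g g9 (@Lb.g g10 (@Lb.g g11 (@Lb.r r1687 (@Lb.r r342 (@Lb.r r553 (@Lb.r r532 (@Lb.d (nat_lit 129) (nat_lit 90) (nat_lit 41) (@Lb.fp (nat_lit 9) t394)))))))))))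
noncomputable def l9930 : Lb := (@Lb.d (nat_lit 0) (nat_lit 256) (nat_lit 4) (@Lb.g g10 (@Lb.g g11 (@Lb.r r642 (@Lb.r r387 (@Lb.d (nat_lit 0) (nat_lit 0) (nat_lit 1) (@Lb.fp (nat_lit 3) t2)))))))
noncomputable def l9931 : Lb := (@Lb.d (nat_lit 642) (nat_lit 2) (nat_lit 130) (@Lb.g g8 (@Lb.g g9 (@Lb.g g10 (@Lb.g g11 (@Lb.r r419 (@Lb.r r106 (@Lb.r r25 (@Lb.d (nat_lit 361) (nat_lit 9) (nat_lit 137) (@Lb.fp (nat_lit 9) t394))))))))))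
noncomputable def l9932 : Lb := (@Lb.d (nat_lit 128) (nat_lit 288) (nat_lit 136) (@Lb.g g11 (@Lb.r r420 (@Lb.r r2469 (@Lb.r r1446 (@Lb.r r347 (@Lb.d (nat_lit 169) (nat_lit 22) (nat_lit 134) (@Lb.t (@Lb.fp (nat_lit 3) t322)))))))))
noncomputable def l9933 : Lb := (@Lb.d (nat_lit 42) (nat_lit 0) (nat_lit 0) (@Lb.g g8 (@Lb.r r421 (@Lb.r r2470 (@Lb.r r2395 (@Lb.r r2392 (@Lb.d (nat_lit 682) (nat_lit 84) (nat_lit 678) (@Lb.t (@Lb.fm (nat_lit 3) t1639)))))))))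
noncomputable def l9934 : Lb := (@Lb.d (nat_lit 0) (nat_lit 257) (nat_lit 130) (@Lb.g g8 (@Lb.g g9 (@Lb.g g10 (@Lb.g g11 (@Lb.r r618 (@Lb.r r105 (@Lb.r r340 (@Lb.r r2587 (@Lb.r r2564 (@Lb.d (nat_lit 2) (nat_lit 25) (nat_lit 642) (@Lb.fp (nat_lit 9) t71))))))))))))
noncomputable def l9935 : Lb := (@Lb.d (nat_lit 9) (nat_lit 518) (nat_lit 128) (@Lb.g g8 (@Lb.g g9 (@Lb.g g10 (@Lb.g g11 (@Lb.r r2691 (@Lb.r r297 (@Lb.r r360 (@Lb.r r582 (@Lb.r r2180 (@Lb.d (nat_lit 289) (nat_lit 10) (nat_lit 33) (@Lb.fm (nat_lit 9) t580))))))))))))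
noncomputable def l9936 : Lb := (@Lb.d (nat_lit 2) (nat_lit 260) (nat_lit 128) (@Lb.g g8 (@Lb.g g9 (@Lb.g g10 (@Lb.g g11 (@Lb.r r2691 (@Lb.r r297 (@Lb.r r360 (@Lb.r r582 (@Lb.r r2180 (@Lb.d (nat_lit 289) (nat_lit 10) (nat_lit 33) (@Lb.fm (nat_lit 9) t580))))))))))))
noncomputable def l9937 : Lb := (@Lb.d (nat_lit 9) (nat_lit 262) (nat_lit 128) (@Lb.g g8 (@Lb.g g9 (@Lb.g g10 (@Lb.g g11 (@Lb.r r1287 (@Lb.r r2666 (@Lb.r r97 (@Lb.r r2564 (@Lb.d (nat_lit 392) (nat_lit 9) (nat_lit 385) (@Lb.fm (nat_lit 9) t2441)))))))))))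
noncomputable def l9938 : Lb := (@Lb.g g10 (@Lb.g g7 (@Lb.r r402 (@Lb.r r101 (@Lb.r r24 (@Lb.d (nat_lit 256) (nat_lit 0) (nat_lit 512) (@Lb.fm (nat_lit 3) t145)))))))
noncomputable def l9939 : Lb := (@Lb.r r82 (@Lb.d (nat_lit 34) (nat_lit 258) (nat_lit 136) (@Lb.g g8 (@Lb.g g9 (@Lb.g g11 (@Lb.r r1362 (@Lb.r r2645 (@Lb.r r356 (@Lb.r r587 (@Lb.d (nat_lit 337) (nat_lit 22) (nat_lit 165) (@Lb.t (@Lb.fp (nat_lit 9) t580))))))))))))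
noncomputable def l9940 : Lb := (@Lb.d (nat_lit 2) (nat_lit 4) (nat_lit 128) (@Lb.g g8 (@Lb.g g9 (@Lb.g g10 (@Lb.g g11 (@Lb.r r2691 (@Lb.r r297 (@Lb.r r360 (@Lb.r r582 (@Lb.r r2180 (@Lb.d (nat_lit 642) (nat_lit 10) (nat_lit 386) (@Lb.fm (nat_lit 9) t622))))))))))))
noncomputable def l9941 : Lb := (@Lb.d (nat_lit 2) (nat_lit 2) (nat_lit 2) (@Lb.g g8 (@Lb.g g9 (@Lb.g g10 (@Lb.r r2729 (@Lb.r r2475 (@Lb.r r2468 (@Lb.r r2438 (@Lb.d (nat_lit 401) (nat_lit 10) (nat_lit 329) (@Lb.t (@Lb.fm (nat_lit 9) t590)))))))))))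
noncomputable def l9942 : Lb := (@Lb.d (nat_lit 529) (nat_lit 166) (nat_lit 530) (@Lb.r r1362 (@Lb.r r423 (@Lb.r r600 (@Lb.g g6 (@Lb.g g5 (@Lb.d (nat_lit 16) (nat_lit 129) (nat_lit 1) (@Lb.r r387 (@Lb.fp (nat_lit 3) t98)))))))))
noncomputable def l9943 : Lb := (@Lb.d (nat_lit 0) (nat_lit 258) (nat_lit 66) (@Lb.g g8 (@Lb.g g9 (@Lb.g g10 (@Lb.g g7 (@Lb.r r386 (@Lb.r r97 (@Lb.r r24 (@Lb.d (nat_lit 328) (nat_lit 9) (nat_lit 585) (@Lb.fp (nat_lit 9) t1150))))))))))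
noncomputable def l9944 : Lb := (@Lb.d (nat_lit 408) (nat_lit 530) (nat_lit 145) (@Lb.r r1604 (@Lb.r r1621 (@Lb.r r1706 (@Lb.g g11 (@Lb.g g6 (@Lb.g g5 (@Lb.g g4 (@Lb.d (nat_lit 1) (nat_lit 1) (nat_lit 128) (@Lb.fp (nat_lit 9) t61))))))))))
noncomputable def l9945 : Lb := (@Lb.d (nat_lit 406) (nat_lit 17) (nat_lit 145) (@Lb.r r1604 (@Lb.r r1621 (@Lb.r r1706 (@Lb.g g11 (@Lb.g g6 (@Lb.g g5 (@Lb.g g4 (@Lb.d (nat_lit 1) (nat_lit 1) (nat_lit 128) (@Lb.fp (nat_lit 9) t61))))))))))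
noncomputable def l9946 : Lb := (@Lb.r r82 (@Lb.d (nat_lit 34) (nat_lit 258) (nat_lit 8) (@Lb.g g8 (@Lb.g g9 (@Lb.g g11 (@Lb.r r1641 (@Lb.r r150 (@Lb.r r356 (@Lb.r r395 (@Lb.d (nat_lit 385) (nat_lit 150) (nat_lit 64) (@Lb.t (@Lb.fm (nat_lit 9) t152))))))))))))
noncomputable def l9947 : Lb := (@Lb.d (nat_lit 129) (nat_lit 274) (nat_lit 137) (@Lb.g g8 (@Lb.g g9 (@Lb.g g10 (@Lb.g g11 (@Lb.r r602 (@Lb.r r2667 (@Lb.r r1129 (@Lb.r r2084 (@Lb.d (nat_lit 404) (nat_lit 32) (nat_lit 73) (@Lb.fp (nat_lit 9) t344)))))))))))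
noncomputable def l9948 : Lb := (@Lb.r r90 (@Lb.d (nat_lit 8) (nat_lit 257) (nat_lit 128) (@Lb.g g8 (@Lb.g g9 (@Lb.g g11 (@Lb.r r2577 (@Lb.r r1683 (@Lb.r r618 (@Lb.r r2132 (@Lb.d (nat_lit 40) (nat_lit 130) (nat_lit 86) (@Lb.t (@Lb.fp (nat_lit 9) t2442))))))))))))
noncomputable def l9949 : Lb := (@Lb.d (nat_lit 518) (nat_lit 64) (nat_lit 576) (@Lb.r r1045 (@Lb.g g4 (@Lb.d (nat_lit 321) (nat_lit 0) (nat_lit 0) (@Lb.t (@Lb.fm (nat_lit 3) t716))))))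
noncomputable def l9950 : Lb := (@Lb.d (nat_lit 2) (nat_lit 256) (nat_lit 130) (@Lb.g g8 (@Lb.g g5 (@Lb.g g10 (@Lb.g g11 (@Lb.r r2587 (@Lb.r r386 (@Lb.r r24 (@Lb.d (nat_lit 137) (nat_lit 0) (nat_lit 329) (@Lb.fp (nat_lit 9) t396))))))))))
noncomputable def l9951 : Lb := (@Lb.r r263 (@Lb.d (nat_lit 164) (nat_lit 514) (nat_lit 1) (@Lb.g g8 (@Lb.g g9 (@Lb.g g10 (@Lb.r r346 (@Lb.r r1431 (@Lb.r r1121 (@Lb.r r516 (@Lb.d (nat_lit 130) (nat_lit 102) (nat_lit 89) (@Lb.t (@Lb.fp (nat_lit 9) t344))))))))))))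
noncomputable def l9952 : Lb := (@Lb.d (nat_lit 0) (nat_lit 256) (nat_lit 130) (@Lb.g g9 (@Lb.g g10 (@Lb.g g11 (@Lb.r r1703 (@Lb.r r2392 (@Lb.r r1190 (@Lb.r r1169 (@Lb.d (nat_lit 9) (nat_lit 73) (nat_lit 34) (@Lb.t (@Lb.fp (nat_lit 9) t51)))))))))))
noncomputable def l9953 : Lb := (@Lb.d (nat_lit 296) (nat_lit 642) (nat_lit 2) (@Lb.r r2584 (@Lb.r r2178 (@Lb.r r2587 (@Lb.r r401 (@Lb.g g7 (@Lb.d (nat_lit 0) (nat_lit 0) (nat_lit 64) (@Lb.t (@Lb.fp (nat_lit 3) t219)))))))))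
noncomputable def l9954 : Lb := (@Lb.g g9 (@Lb.g g6 (@Lb.r r101 (@Lb.r r24 (@Lb.d (nat_lit 354) (nat_lit 512) (nat_lit 512) (@Lb.fp (nat_lit 3) t166))))))
noncomputable def l9955 : Lb := (@Lb.d (nat_lit 4) (nat_lit 512) (nat_lit 130) (@Lb.g g8 (@Lb.g g9 (@Lb.g g10 (@Lb.g g11 (@Lb.r r1706 (@Lb.r r680 (@Lb.r r555 (@Lb.r r1553 (@Lb.r r2084 (@Lb.d (nat_lit 9) (nat_lit 97) (nat_lit 586) (@Lb.fm (nat_lit 9) t51))))))))))))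
noncomputable def l9956 : Lb := (@Lb.r r82 (@Lb.d (nat_lit 34) (nat_lit 289) (nat_lit 64) (@Lb.g g8 (@Lb.g g9 (@Lb.g g11 (@Lb.r r2665 (@Lb.r r150 (@Lb.r r616 (@Lb.r r587 (@Lb.d (nat_lit 545) (nat_lit 34) (nat_lit 266) (@Lb.t (@Lb.fm (nat_lit 9) t98))))))))))))
noncomputable def l9957 : Lb := (@Lb.d (nat_lit 2) (nat_lit 514) (nat_lit 130) (@Lb.g g8 (@Lb.g g9 (@Lb.g g10 (@Lb.g g11 (@Lb.r r1706 (@Lb.r r680 (@Lb.r r555 (@Lb.r r1553 (@Lb.r r2084 (@Lb.d (nat_lit 2) (nat_lit 98) (nat_lit 586) (@Lb.fm (nat_lit 9) t51))))))))))))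
noncomputable def l9958 : Lb := (@Lb.r r20 (@Lb.d (nat_lit 0) (nat_lit 546) (nat_lit 0) (@Lb.g g9 (@Lb.r r339 (@Lb.r r2178 (@Lb.r r609 (@Lb.d (nat_lit 0) (nat_lit 26) (nat_lit 537) (@Lb.t (@Lb.fp (nat_lit 3) t188)))))))))
noncomputable def l9959 : Lb := (@Lb.d (nat_lit 4) (nat_lit 34) (nat_lit 66) (@Lb.g g8 (@Lb.g g9 (@Lb.g g10 (@Lb.g g11 (@Lb.r r427 (@Lb.r r1169 (@Lb.r r356 (@Lb.r r154 (@Lb.r r132 (@Lb.d (nat_lit 104) (nat_lit 73) (nat_lit 665) (@Lb.fm (nat_lit 9) t2443))))))))))))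
noncomputable def l9960 : Lb := (@Lb.d (nat_lit 170) (nat_lit 41) (nat_lit 6) (@Lb.r r680 (@Lb.r r427 (@Lb.r r345 (@Lb.g g10 (@Lb.g g4 (@Lb.d (nat_lit 69) (nat_lit 0) (nat_lit 22) (@Lb.r r145 (@Lb.fm (nat_lit 3) t564)))))))))
noncomputable def l9961 : Lb := (@Lb.r r82 (@Lb.d (nat_lit 33) (nat_lit 258) (nat_lit 136) (@Lb.g g8 (@Lb.g g9 (@Lb.g g11 (@Lb.r r2666 (@Lb.r r2725 (@Lb.r r340 (@Lb.r r411 (@Lb.d (nat_lit 521) (nat_lit 73) (nat_lit 601) (@Lb.t (@Lb.fp (nat_lit 9) t375))))))))))))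
noncomputable def l9962 : Lb := (@Lb.r r82 (@Lb.d (nat_lit 34) (nat_lit 2) (nat_lit 136) (@Lb.g g8 (@Lb.g g9 (@Lb.g g11 (@Lb.r r2666 (@Lb.r r2725 (@Lb.r r340 (@Lb.r r411 (@Lb.d (nat_lit 521) (nat_lit 73) (nat_lit 601) (@Lb.t (@Lb.fp (nat_lit 9) t375))))))))))))
noncomputable def l9963 : Lb := (@Lb.r r323 (@Lb.d (nat_lit 2) (nat_lit 521) (nat_lit 2) (@Lb.g g8 (@Lb.g g9 (@Lb.g g10 (@Lb.r r427 (@Lb.r r106 (@Lb.r r25 (@Lb.d (nat_lit 277) (nat_lit 6) (nat_lit 34) (@Lb.t (@Lb.fm (nat_lit 9) t2444)))))))))))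
noncomputable def l9964 : Lb := (@Lb.r r82 (@Lb.d (nat_lit 34) (nat_lit 514) (nat_lit 136) (@Lb.g g8 (@Lb.g g9 (@Lb.g g11 (@Lb.r r2666 (@Lb.r r2725 (@Lb.r r340 (@Lb.r r411 (@Lb.d (nat_lit 521) (nat_lit 66) (nat_lit 602) (@Lb.t (@Lb.fp (nat_lit 9) t375))))))))))))
noncomputable def l9965 : Lb := (@Lb.d (nat_lit 2) (nat_lit 9) (nat_lit 129) (@Lb.g g8 (@Lb.g g9 (@Lb.g g10 (@Lb.g g11 (@Lb.r r2459 (@Lb.r r297 (@Lb.r r1384 (@Lb.r r2630 (@Lb.d (nat_lit 665) (nat_lit 66) (nat_lit 290) (@Lb.fp (nat_lit 9) t375)))))))))))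
noncomputable def l9966 : Lb := (@Lb.d (nat_lit 32) (nat_lit 0) (nat_lit 130) (@Lb.g g10 (@Lb.g g11 (@Lb.r r423 (@Lb.r r600 (@Lb.r r1429 (@Lb.r r406 (@Lb.d (nat_lit 661) (nat_lit 26) (nat_lit 420) (@Lb.fm (nat_lit 3) t188)))))))))
noncomputable def l9967 : Lb := (@Lb.d (nat_lit 2) (nat_lit 514) (nat_lit 2) (@Lb.g g8 (@Lb.g g9 (@Lb.g g10 (@Lb.r r427 (@Lb.r r386 (@Lb.r r97 (@Lb.r r24 (@Lb.d (nat_lit 266) (nat_lit 9) (nat_lit 649) (@Lb.t (@Lb.fp (nat_lit 9) t221)))))))))))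
noncomputable def l9968 : Lb := (@Lb.d (nat_lit 608) (nat_lit 512) (nat_lit 666) (@Lb.fp (nat_lit 1) t698))
noncomputable def l9969 : Lb := (@Lb.d (nat_lit 2) (nat_lit 32) (nat_lit 73) (@Lb.g g8 (@Lb.g g10 (@Lb.g g11 (@Lb.r r2122 (@Lb.r r360 (@Lb.r r281 (@Lb.r r2599 (@Lb.d (nat_lit 650) (nat_lit 88) (nat_lit 278) (@Lb.t (@Lb.fm (nat_lit 9) t71)))))))))))
noncomputable def l9970 : Lb := (@Lb.d (nat_lit 0) (nat_lit 2) (nat_lit 73) (@Lb.g g8 (@Lb.g g9 (@Lb.g g10 (@Lb.g g11 (@Lb.r r2691 (@Lb.r r536 (@Lb.r r2197 (@Lb.r r2646 (@Lb.r r164 (@Lb.d (nat_lit 136) (nat_lit 2) (nat_lit 362) (@Lb.fp (nat_lit 9) t991))))))))))))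
noncomputable def l9971 : Lb := (@Lb.r r680 (@Lb.r r2665 (@Lb.r r2603 (@Lb.r r2178 (@Lb.r r2596 (@Lb.d (nat_lit 546) (nat_lit 5) (nat_lit 32) (@Lb.fp (nat_lit 1) t296)))))))
noncomputable def l9972 : Lb := (@Lb.d (nat_lit 0) (nat_lit 258) (nat_lit 73) (@Lb.g g8 (@Lb.g g9 (@Lb.g g10 (@Lb.g g11 (@Lb.r r2691 (@Lb.r r536 (@Lb.r r2197 (@Lb.r r2646 (@Lb.r r164 (@Lb.d (nat_lit 136) (nat_lit 9) (nat_lit 361) (@Lb.fp (nat_lit 9) t1636))))))))))))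
noncomputable def l9973 : Lb := (@Lb.d (nat_lit 0) (nat_lit 0) (nat_lit 128) (@Lb.g g10 (@Lb.g g11 (@Lb.r r2707 (@Lb.r r2341 (@Lb.r r2136 (@Lb.r r1158 (@Lb.d (nat_lit 290) (nat_lit 5) (nat_lit 32) (@Lb.fm (nat_lit 3) t296)))))))))
noncomputable def l9974 : Lb := (@Lb.r r323 (@Lb.d (nat_lit 2) (nat_lit 514) (nat_lit 2) (@Lb.g g8 (@Lb.g g9 (@Lb.g g10 (@Lb.r r1687 (@Lb.r r2154 (@Lb.r r97 (@Lb.r r24 (@Lb.d (nat_lit 8) (nat_lit 2) (nat_lit 18) (@Lb.t (@Lb.fp (nat_lit 9) t61))))))))))))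
noncomputable def l9975 : Lb := (@Lb.d (nat_lit 2) (nat_lit 2) (nat_lit 130) (@Lb.g g8 (@Lb.g g9 (@Lb.g g10 (@Lb.g g11 (@Lb.r r2666 (@Lb.r r579 (@Lb.r r97 (@Lb.r r24 (@Lb.d (nat_lit 152) (nat_lit 2) (nat_lit 393) (@Lb.fm (nat_lit 9) t61)))))))))))
noncomputable def l9976 : Lb := (@Lb.d (nat_lit 2) (nat_lit 2) (nat_lit 73) (@Lb.g g8 (@Lb.g g9 (@Lb.g g10 (@Lb.g g11 (@Lb.r r427 (@Lb.r r677 (@Lb.r r340 (@Lb.r r170 (@Lb.d (nat_lit 516) (nat_lit 8) (nat_lit 169) (@Lb.fp (nat_lit 9) t221)))))))))))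
noncomputable def l9977 : Lb := (@Lb.r r323 (@Lb.d (nat_lit 4) (nat_lit 258) (nat_lit 2) (@Lb.g g8 (@Lb.g g9 (@Lb.g g10 (@Lb.r r663 (@Lb.r r106 (@Lb.r r1121 (@Lb.r r24 (@Lb.d (nat_lit 8) (nat_lit 137) (nat_lit 33) (@Lb.t (@Lb.fp (nat_lit 9) t61))))))))))))
noncomputable def l9978 : Lb := (@Lb.d (nat_lit 25) (nat_lit 320) (nat_lit 17) (@Lb.r r1092 (@Lb.r r2202 (@Lb.r r1563 (@Lb.g g9 (@Lb.g g4 (@Lb.d (nat_lit 0) (nat_lit 65) (nat_lit 0) (@Lb.r r299 (@Lb.r r98 (@Lb.fp (nat_lit 3) t61))))))))))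
noncomputable def l9979 : Lb := (@Lb.r r263 (@Lb.d (nat_lit 2) (nat_lit 514) (nat_lit 2) (@Lb.g g8 (@Lb.g g9 (@Lb.g g10 (@Lb.r r2454 (@Lb.r r1367 (@Lb.r r409 (@Lb.r r388 (@Lb.d (nat_lit 98) (nat_lit 4) (nat_lit 545) (@Lb.t (@Lb.fp (nat_lit 9) t898))))))))))))
noncomputable def l9980 : Lb := (@Lb.d (nat_lit 8) (nat_lit 2) (nat_lit 130) (@Lb.g g8 (@Lb.g g9 (@Lb.g g10 (@Lb.g g11 (@Lb.r r675 (@Lb.r r36 (@Lb.r r661 (@Lb.r r146 (@Lb.r r36 (@Lb.d (nat_lit 409) (nat_lit 21) (nat_lit 100) (@Lb.fp (nat_lit 9) t1022))))))))))))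
noncomputable def l9981 : Lb := (@Lb.d (nat_lit 0) (nat_lit 256) (nat_lit 129) (@Lb.g g10 (@Lb.g g11 (@Lb.r r586 (@Lb.r r1611 (@Lb.r r1633 (@Lb.r r1608 (@Lb.d (nat_lit 104) (nat_lit 2) (nat_lit 386) (@Lb.fp (nat_lit 3) t1741)))))))))
noncomputable def l9982 : Lb := (@Lb.d (nat_lit 168) (nat_lit 257) (nat_lit 0) (@Lb.g g8 (@Lb.g g9 (@Lb.r r1431 (@Lb.r r2454 (@Lb.r r601 (@Lb.r r596 (@Lb.d (nat_lit 149) (nat_lit 38) (nat_lit 74) (@Lb.fp (nat_lit 3) t322)))))))))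
noncomputable def l9983 : Lb := (@Lb.d (nat_lit 129) (nat_lit 512) (nat_lit 0) (@Lb.g g8 (@Lb.r r519 (@Lb.r r2178 (@Lb.r r2081 (@Lb.r r292 (@Lb.d (nat_lit 74) (nat_lit 64) (nat_lit 384) (@Lb.t (@Lb.fm (nat_lit 3) t1123)))))))))
noncomputable def l9984 : Lb := (@Lb.r r322 (@Lb.d (nat_lit 40) (nat_lit 289) (nat_lit 516) (@Lb.g g8 (@Lb.g g9 (@Lb.g g7 (@Lb.r r2466 (@Lb.r r2345 (@Lb.r r1384 (@Lb.d (nat_lit 148) (nat_lit 170) (nat_lit 261) (@Lb.t (@Lb.fm (nat_lit 9) t739)))))))))))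
noncomputable def l9985 : Lb := (@Lb.r r21 (@Lb.d (nat_lit 137) (nat_lit 512) (nat_lit 65) (@Lb.g g8 (@Lb.g g10 (@Lb.g g11 (@Lb.r r674 (@Lb.r r2705 (@Lb.r r539 (@Lb.r r1624 (@Lb.d (nat_lit 132) (nat_lit 164) (nat_lit 392) (@Lb.t (@Lb.fp (nat_lit 9) t764))))))))))))
noncomputable def l9986 : Lb := (@Lb.d (nat_lit 8) (nat_lit 2) (nat_lit 130) (@Lb.g g8 (@Lb.g g9 (@Lb.g g10 (@Lb.g g11 (@Lb.r r675 (@Lb.r r36 (@Lb.r r661 (@Lb.r r146 (@Lb.r r36 (@Lb.d (nat_lit 408) (nat_lit 26) (nat_lit 101) (@Lb.fp (nat_lit 9) t1022))))))))))))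
noncomputable def l9987 : Lb := (@Lb.d (nat_lit 129) (nat_lit 514) (nat_lit 73) (@Lb.g g8 (@Lb.g g9 (@Lb.g g10 (@Lb.g g11 (@Lb.r r419 (@Lb.r r100 (@Lb.r r2650 (@Lb.r r2453 (@Lb.r r36 (@Lb.d (nat_lit 84) (nat_lit 136) (nat_lit 153) (@Lb.fp (nat_lit 9) t1916))))))))))))
noncomputable def l9988 : Lb := (@Lb.d (nat_lit 5) (nat_lit 257) (nat_lit 128) (@Lb.r r289 (@Lb.r r279 (@Lb.r r584 (@Lb.r r86 (@Lb.g g6 (@Lb.g g5 (@Lb.d (nat_lit 0) (nat_lit 5) (nat_lit 0) (@Lb.r r387 (@Lb.fm (nat_lit 3) t215))))))))))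
noncomputable def l9989 : Lb := (@Lb.d (nat_lit 2) (nat_lit 2) (nat_lit 66) (@Lb.g g8 (@Lb.g g9 (@Lb.g g10 (@Lb.g g11 (@Lb.r r2308 (@Lb.r r427 (@Lb.r r386 (@Lb.r r97 (@Lb.d (nat_lit 666) (nat_lit 84) (nat_lit 169) (@Lb.fp (nat_lit 9) t2445)))))))))))
noncomputable def l9990 : Lb := (@Lb.d (nat_lit 166) (nat_lit 0) (nat_lit 1) (@Lb.g g8 (@Lb.g g9 (@Lb.g g10 (@Lb.r r2723 (@Lb.r r2217 (@Lb.r r1130 (@Lb.r r296 (@Lb.d (nat_lit 340) (nat_lit 34) (nat_lit 4) (@Lb.t (@Lb.fp (nat_lit 9) t1481)))))))))))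
noncomputable def l9991 : Lb := (@Lb.d (nat_lit 0) (nat_lit 262) (nat_lit 74) (@Lb.g g9 (@Lb.g g10 (@Lb.g g11 (@Lb.r r1707 (@Lb.r r1610 (@Lb.r r40 (@Lb.r r153 (@Lb.d (nat_lit 598) (nat_lit 85) (nat_lit 646) (@Lb.t (@Lb.fm (nat_lit 9) t510)))))))))))
noncomputable def l9992 : Lb := (@Lb.r r70 (@Lb.d (nat_lit 4) (nat_lit 256) (nat_lit 0) (@Lb.g g8 (@Lb.g g9 (@Lb.r r2601 (@Lb.r r2475 (@Lb.r r1410 (@Lb.r r1124 (@Lb.d (nat_lit 585) (nat_lit 138) (nat_lit 545) (@Lb.fm (nat_lit 3) t1481))))))))))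
noncomputable def l9993 : Lb := (@Lb.d (nat_lit 0) (nat_lit 2) (nat_lit 64) (@Lb.g g9 (@Lb.g g11 (@Lb.r r2595 (@Lb.r r1414 (@Lb.r r145 (@Lb.r r24 (@Lb.d (nat_lit 292) (nat_lit 152) (nat_lit 153) (@Lb.fp (nat_lit 3) t2446)))))))))
noncomputable def l9994 : Lb := (@Lb.d (nat_lit 0) (nat_lit 262) (nat_lit 72) (@Lb.g g9 (@Lb.g g10 (@Lb.g g11 (@Lb.r r2595 (@Lb.r r2434 (@Lb.r r2585 (@Lb.r r24 (@Lb.d (nat_lit 416) (nat_lit 0) (nat_lit 162) (@Lb.t (@Lb.fp (nat_lit 9) t860)))))))))))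
noncomputable def l9995 : Lb := (@Lb.d (nat_lit 0) (nat_lit 281) (nat_lit 612) (@Lb.r r2706 (@Lb.r r2385 (@Lb.g g7 (@Lb.g g6 (@Lb.g g5 (@Lb.d (nat_lit 0) (nat_lit 5) (nat_lit 132) (@Lb.t (@Lb.fm (nat_lit 9) t144)))))))))
noncomputable def l9996 : Lb := (@Lb.d (nat_lit 144) (nat_lit 2) (nat_lit 128) (@Lb.g g8 (@Lb.g g9 (@Lb.g g10 (@Lb.g g11 (@Lb.r r387 (@Lb.r r164 (@Lb.r r2470 (@Lb.r r145 (@Lb.d (nat_lit 325) (nat_lit 68) (nat_lit 408) (@Lb.fm (nat_lit 9) t4)))))))))))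
noncomputable def l9997 : Lb := (@Lb.r r82 (@Lb.r r263 (@Lb.d (nat_lit 5) (nat_lit 256) (nat_lit 0) (@Lb.g g8 (@Lb.g g9 (@Lb.r r548 (@Lb.r r1623 (@Lb.r r418 (@Lb.r r289 (@Lb.d (nat_lit 0) (nat_lit 161) (nat_lit 618) (@Lb.fp (nat_lit 3) t1088)))))))))))
noncomputable def l9998 : Lb := (@Lb.d (nat_lit 0) (nat_lit 0) (nat_lit 128) (@Lb.g g8 (@Lb.g g11 (@Lb.r r390 (@Lb.r r1611 (@Lb.r r1633 (@Lb.r r1608 (@Lb.d (nat_lit 102) (nat_lit 1) (nat_lit 66) (@Lb.fm (nat_lit 3) t1741)))))))))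
noncomputable def l9999 : Lb := (@Lb.r r322 (@Lb.d (nat_lit 2) (nat_lit 289) (nat_lit 128) (@Lb.g g8 (@Lb.g g9 (@Lb.g g11 (@Lb.r r610 (@Lb.r r1561 (@Lb.r r1156 (@Lb.d (nat_lit 392) (nat_lit 22) (nat_lit 88) (@Lb.t (@Lb.fm (nat_lit 9) t275)))))))))))
noncomputable def l10000 : Lb := (@Lb.d (nat_lit 0) (nat_lit 256) (nat_lit 128) (@Lb.g g8 (@Lb.g g11 (@Lb.r r390 (@Lb.r r1611 (@Lb.r r1633 (@Lb.r r1608 (@Lb.d (nat_lit 97) (nat_lit 0) (nat_lit 66) (@Lb.fm (nat_lit 3) t1741)))))))))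
noncomputable def l10001 : Lb := (@Lb.r r322 (@Lb.d (nat_lit 2) (nat_lit 33) (nat_lit 128) (@Lb.g g8 (@Lb.g g9 (@Lb.g g11 (@Lb.r r610 (@Lb.r r1561 (@Lb.r r1156 (@Lb.d (nat_lit 393) (nat_lit 22) (nat_lit 88) (@Lb.t (@Lb.fm (nat_lit 9) t230)))))))))))
noncomputable def l10002 : Lb := (@Lb.g g10 (@Lb.g g7 (@Lb.r r2451 (@Lb.r r402 (@Lb.r r101 (@Lb.r r24 (@Lb.d (nat_lit 256) (nat_lit 256) (nat_lit 32) (@Lb.fm (nat_lit 3) t277))))))))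
noncomputable def l10003 : Lb := (@Lb.d (nat_lit 129) (nat_lit 258) (nat_lit 130) (@Lb.g g8 (@Lb.g g9 (@Lb.g g10 (@Lb.g g11 (@Lb.r r1371 (@Lb.r r89 (@Lb.r r422 (@Lb.r r616 (@Lb.d (nat_lit 82) (nat_lit 25) (nat_lit 68) (@Lb.fp (nat_lit 9) t1152)))))))))))
noncomputable def l10004 : Lb := (@Lb.d (nat_lit 2) (nat_lit 289) (nat_lit 66) (@Lb.g g8 (@Lb.g g9 (@Lb.g g10 (@Lb.g g11 (@Lb.r r427 (@Lb.r r356 (@Lb.r r154 (@Lb.r r89 (@Lb.r r36 (@Lb.d (nat_lit 41) (nat_lit 9) (nat_lit 137) (@Lb.fm (nat_lit 9) t594))))))))))))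
noncomputable def l10005 : Lb := (@Lb.d (nat_lit 6) (nat_lit 290) (nat_lit 66) (@Lb.g g8 (@Lb.g g9 (@Lb.g g10 (@Lb.g g11 (@Lb.r r427 (@Lb.r r356 (@Lb.r r154 (@Lb.r r89 (@Lb.r r36 (@Lb.d (nat_lit 41) (nat_lit 9) (nat_lit 137) (@Lb.fm (nat_lit 9) t594))))))))))))
noncomputable def l10006 : Lb := (@Lb.g g9 (@Lb.g g10 (@Lb.g g7 (@Lb.r r2451 (@Lb.r r402 (@Lb.r r101 (@Lb.r r24 (@Lb.d (nat_lit 256) (nat_lit 512) (nat_lit 32) (@Lb.t (@Lb.fm (nat_lit 9) t277))))))))))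
noncomputable def l10007 : Lb := (@Lb.d (nat_lit 2) (nat_lit 294) (nat_lit 64) (@Lb.g g8 (@Lb.g g9 (@Lb.g g10 (@Lb.g g11 (@Lb.r r2595 (@Lb.r r386 (@Lb.r r612 (@Lb.r r533 (@Lb.r r1060 (@Lb.d (nat_lit 641) (nat_lit 10) (nat_lit 641) (@Lb.fp (nat_lit 9) t2391))))))))))))
noncomputable def l10008 : Lb := (@Lb.d (nat_lit 2) (nat_lit 516) (nat_lit 128) (@Lb.g g8 (@Lb.g g9 (@Lb.g g10 (@Lb.g g11 (@Lb.r r2729 (@Lb.r r2475 (@Lb.r r2468 (@Lb.r r2438 (@Lb.d (nat_lit 610) (nat_lit 10) (nat_lit 529) (@Lb.fp (nat_lit 9) t98)))))))))))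
noncomputable def l10009 : Lb := (@Lb.d (nat_lit 32) (nat_lit 546) (nat_lit 66) (@Lb.g g9 (@Lb.g g10 (@Lb.g g11 (@Lb.r r2467 (@Lb.r r68 (@Lb.r r2122 (@Lb.r r405 (@Lb.d (nat_lit 340) (nat_lit 24) (nat_lit 280) (@Lb.t (@Lb.fm (nat_lit 9) t2447)))))))))))
noncomputable def l10010 : Lb := (@Lb.d (nat_lit 128) (nat_lit 550) (nat_lit 64) (@Lb.g g8 (@Lb.g g9 (@Lb.g g10 (@Lb.g g11 (@Lb.r r683 (@Lb.r r1386 (@Lb.r r1305 (@Lb.r r516 (@Lb.d (nat_lit 521) (nat_lit 98) (nat_lit 26) (@Lb.fm (nat_lit 9) t2448)))))))))))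
noncomputable def l10011 : Lb := (@Lb.d (nat_lit 32) (nat_lit 256) (nat_lit 66) (@Lb.g g10 (@Lb.g g11 (@Lb.r r545 (@Lb.r r1571 (@Lb.r r68 (@Lb.r r2122 (@Lb.d (nat_lit 98) (nat_lit 97) (nat_lit 674) (@Lb.fm (nat_lit 3) t2449)))))))))
noncomputable def l10012 : Lb := (@Lb.d (nat_lit 128) (nat_lit 38) (nat_lit 64) (@Lb.g g8 (@Lb.g g9 (@Lb.g g10 (@Lb.g g11 (@Lb.r r683 (@Lb.r r1386 (@Lb.r r1305 (@Lb.r r516 (@Lb.d (nat_lit 521) (nat_lit 98) (nat_lit 154) (@Lb.fm (nat_lit 9) t2450)))))))))))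
noncomputable def l10013 : Lb := (@Lb.d (nat_lit 70) (nat_lit 514) (nat_lit 129) (@Lb.r r264 (@Lb.r r97 (@Lb.r r615 (@Lb.g g6 (@Lb.g g4 (@Lb.d (nat_lit 65) (nat_lit 4) (nat_lit 1) (@Lb.r r387 (@Lb.r r25 (@Lb.fp (nat_lit 3) t264))))))))))
noncomputable def l10014 : Lb := (@Lb.d (nat_lit 2) (nat_lit 9) (nat_lit 137) (@Lb.g g8 (@Lb.g g9 (@Lb.g g10 (@Lb.g g11 (@Lb.r r643 (@Lb.r r297 (@Lb.r r360 (@Lb.r r582 (@Lb.r r132 (@Lb.d (nat_lit 129) (nat_lit 5) (nat_lit 72) (@Lb.fm (nat_lit 9) t98))))))))))))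
noncomputable def l10015 : Lb := (@Lb.r r322 (@Lb.d (nat_lit 36) (nat_lit 290) (nat_lit 128) (@Lb.g g8 (@Lb.g g9 (@Lb.g g11 (@Lb.r r1625 (@Lb.r r102 (@Lb.r r152 (@Lb.d (nat_lit 424) (nat_lit 10) (nat_lit 642) (@Lb.t (@Lb.fp (nat_lit 9) t2451)))))))))))
noncomputable def l10016 : Lb := (@Lb.r r21 (@Lb.d (nat_lit 129) (nat_lit 512) (nat_lit 130) (@Lb.g g8 (@Lb.g g10 (@Lb.g g11 (@Lb.r r419 (@Lb.r r2726 (@Lb.r r97 (@Lb.r r612 (@Lb.d (nat_lit 2) (nat_lit 100) (nat_lit 660) (@Lb.t (@Lb.fm (nat_lit 9) t1377))))))))))))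
noncomputable def l10017 : Lb := (@Lb.d (nat_lit 2) (nat_lit 34) (nat_lit 4) (@Lb.g g8 (@Lb.g g9 (@Lb.g g10 (@Lb.g g11 (@Lb.r r682 (@Lb.r r676 (@Lb.r r551 (@Lb.r r533 (@Lb.r r36 (@Lb.d (nat_lit 137) (nat_lit 1) (nat_lit 5) (@Lb.fp (nat_lit 9) t74))))))))))))
noncomputable def l10018 : Lb := (@Lb.r r2311 (@Lb.r r664 (@Lb.r r154 (@Lb.r r2133 (@Lb.r r164 (@Lb.d (nat_lit 10) (nat_lit 128) (nat_lit 85) (@Lb.fp (nat_lit 1) t553)))))))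
noncomputable def l10019 : Lb := (@Lb.r r81 (@Lb.d (nat_lit 22) (nat_lit 0) (nat_lit 136) (@Lb.g g4 (@Lb.g g10 (@Lb.g g11 (@Lb.r r1447 (@Lb.r r37 (@Lb.d (nat_lit 1) (nat_lit 21) (nat_lit 296) (@Lb.t (@Lb.fm (nat_lit 9) t2374))))))))))
noncomputable def l10020 : Lb := (@Lb.d (nat_lit 0) (nat_lit 512) (nat_lit 74) (@Lb.g g10 (@Lb.g g11 (@Lb.r r2626 (@Lb.r r579 (@Lb.d (nat_lit 0) (nat_lit 0) (nat_lit 662) (@Lb.fp (nat_lit 3) t2)))))))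
noncomputable def l10021 : Lb := (@Lb.d (nat_lit 2) (nat_lit 256) (nat_lit 130) (@Lb.g g8 (@Lb.g g9 (@Lb.g g10 (@Lb.g g11 (@Lb.r r2595 (@Lb.r r1370 (@Lb.r r1368 (@Lb.r r2597 (@Lb.d (nat_lit 553) (nat_lit 1) (nat_lit 36) (@Lb.fm (nat_lit 9) t2452)))))))))))
noncomputable def l10022 : Lb := (@Lb.d (nat_lit 358) (nat_lit 282) (nat_lit 425) (@Lb.r r1109 (@Lb.r r2088 (@Lb.r r2374 (@Lb.r r619 (@Lb.g g7 (@Lb.g g6 (@Lb.g g5 (@Lb.d (nat_lit 0) (nat_lit 25) (nat_lit 5) (@Lb.t (@Lb.fp (nat_lit 9) t986)))))))))))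
noncomputable def l10023 : Lb := (@Lb.d (nat_lit 390) (nat_lit 326) (nat_lit 26) (@Lb.r r2325 (@Lb.r r598 (@Lb.r r683 (@Lb.g g7 (@Lb.g g6 (@Lb.g g5 (@Lb.g g4 (@Lb.d (nat_lit 1) (nat_lit 18) (nat_lit 134) (@Lb.fm (nat_lit 9) t309))))))))))
noncomputable def l10024 : Lb := (@Lb.d (nat_lit 72) (nat_lit 277) (nat_lit 36) (@Lb.r r345 (@Lb.r r134 (@Lb.r r295 (@Lb.r r536 (@Lb.g g5 (@Lb.d (nat_lit 4) (nat_lit 17) (nat_lit 0) (@Lb.t (@Lb.fm (nat_lit 3) t546)))))))))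
noncomputable def l10025 : Lb := (@Lb.d (nat_lit 0) (nat_lit 256) (nat_lit 74) (@Lb.g g10 (@Lb.g g11 (@Lb.r r2626 (@Lb.d (nat_lit 608) (nat_lit 0) (nat_lit 90) (@Lb.fm (nat_lit 3) t698))))))
noncomputable def l10026 : Lb := (@Lb.d (nat_lit 10) (nat_lit 544) (nat_lit 128) (@Lb.g g8 (@Lb.g g11 (@Lb.r r1109 (@Lb.r r2340 (@Lb.r r2699 (@Lb.r r2178 (@Lb.d (nat_lit 594) (nat_lit 90) (nat_lit 392) (@Lb.fm (nat_lit 3) t100)))))))))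
noncomputable def l10027 : Lb := (@Lb.d (nat_lit 8) (nat_lit 2) (nat_lit 130) (@Lb.g g9 (@Lb.g g10 (@Lb.g g11 (@Lb.r r419 (@Lb.r r98 (@Lb.r r24 (@Lb.r r101 (@Lb.d (nat_lit 21) (nat_lit 137) (nat_lit 100) (@Lb.t (@Lb.fm (nat_lit 9) t232)))))))))))
noncomputable def l10028 : Lb := (@Lb.r r322 (@Lb.d (nat_lit 0) (nat_lit 522) (nat_lit 576) (@Lb.g g9 (@Lb.g g7 (@Lb.r r594 (@Lb.r r421 (@Lb.r r24 (@Lb.d (nat_lit 257) (nat_lit 5) (nat_lit 10) (@Lb.fp (nat_lit 3) t1087)))))))))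
noncomputable def l10029 : Lb := (@Lb.d (nat_lit 289) (nat_lit 514) (nat_lit 1) (@Lb.g g8 (@Lb.g g9 (@Lb.g g10 (@Lb.g g11 (@Lb.r r1642 (@Lb.r r579 (@Lb.r r25 (@Lb.d (nat_lit 8) (nat_lit 161) (nat_lit 384) (@Lb.fm (nat_lit 9) t728))))))))))
noncomputable def l10030 : Lb := (@Lb.r r323 (@Lb.d (nat_lit 289) (nat_lit 258) (nat_lit 2) (@Lb.g g8 (@Lb.g g9 (@Lb.g g10 (@Lb.r r1642 (@Lb.r r579 (@Lb.r r25 (@Lb.d (nat_lit 8) (nat_lit 161) (nat_lit 261) (@Lb.t (@Lb.fp (nat_lit 9) t728)))))))))))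
noncomputable def l10031 : Lb := (@Lb.d (nat_lit 0) (nat_lit 512) (nat_lit 136) (@Lb.g g11 (@Lb.r r24 (@Lb.r r101 (@Lb.d (nat_lit 0) (nat_lit 133) (nat_lit 170) (@Lb.t (@Lb.fp (nat_lit 3) t126)))))))
noncomputable def l10032 : Lb := (@Lb.r r20 (@Lb.d (nat_lit 4) (nat_lit 585) (nat_lit 1) (@Lb.g g9 (@Lb.g g10 (@Lb.g g11 (@Lb.r r1642 (@Lb.r r579 (@Lb.r r8 (@Lb.d (nat_lit 69) (nat_lit 160) (nat_lit 384) (@Lb.t (@Lb.fm (nat_lit 9) t144)))))))))))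
noncomputable def l10033 : Lb := (@Lb.d (nat_lit 256) (nat_lit 512) (nat_lit 82) (@Lb.r r24 (@Lb.r r101 (@Lb.r r579 (@Lb.g g10 (@Lb.g g5 (@Lb.d (nat_lit 0) (nat_lit 0) (nat_lit 2) (@Lb.r r387 (@Lb.fm (nat_lit 3) t144)))))))))
noncomputable def l10034 : Lb := (@Lb.d (nat_lit 0) (nat_lit 4) (nat_lit 129) (@Lb.g g6 (@Lb.g g11 (@Lb.r r2659 (@Lb.r r24 (@Lb.d (nat_lit 0) (nat_lit 106) (nat_lit 680) (@Lb.fp (nat_lit 3) t71)))))))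
noncomputable def l10035 : Lb := (@Lb.r r70 (@Lb.r r263 (@Lb.d (nat_lit 0) (nat_lit 514) (nat_lit 0) (@Lb.g g8 (@Lb.g g9 (@Lb.r r299 (@Lb.r r106 (@Lb.r r145 (@Lb.r r100 (@Lb.d (nat_lit 282) (nat_lit 0) (nat_lit 32) (@Lb.fm (nat_lit 3) t2453)))))))))))
noncomputable def l10036 : Lb := (@Lb.d (nat_lit 0) (nat_lit 33) (nat_lit 4) (@Lb.g g9 (@Lb.g g10 (@Lb.g g11 (@Lb.r r679 (@Lb.r r610 (@Lb.r r529 (@Lb.r r24 (@Lb.d (nat_lit 149) (nat_lit 134) (nat_lit 129) (@Lb.t (@Lb.fm (nat_lit 9) t101)))))))))))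
noncomputable def l10037 : Lb := (@Lb.r r21 (@Lb.d (nat_lit 130) (nat_lit 256) (nat_lit 66) (@Lb.g g8 (@Lb.g g10 (@Lb.g g11 (@Lb.r r644 (@Lb.r r519 (@Lb.r r386 (@Lb.r r25 (@Lb.d (nat_lit 161) (nat_lit 0) (nat_lit 72) (@Lb.t (@Lb.fm (nat_lit 9) t321))))))))))))
noncomputable def l10038 : Lb := (@Lb.d (nat_lit 618) (nat_lit 613) (nat_lit 168) (@Lb.r r1125 (@Lb.r r386 (@Lb.r r2387 (@Lb.g g7 (@Lb.g g6 (@Lb.g g5 (@Lb.g g8 (@Lb.d (nat_lit 9) (nat_lit 0) (nat_lit 65) (@Lb.fm (nat_lit 9) t106))))))))))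
noncomputable def l10039 : Lb := (@Lb.d (nat_lit 128) (nat_lit 0) (nat_lit 130) (@Lb.g g10 (@Lb.g g11 (@Lb.r r618 (@Lb.r r24 (@Lb.r r405 (@Lb.r r611 (@Lb.d (nat_lit 553) (nat_lit 25) (nat_lit 546) (@Lb.fm (nat_lit 3) t312)))))))))
noncomputable def l10040 : Lb := (@Lb.r r616 (@Lb.r r2665 (@Lb.r r2390 (@Lb.r r2475 (@Lb.r r1188 (@Lb.d (nat_lit 2) (nat_lit 66) (nat_lit 512) (@Lb.fp (nat_lit 1) t322)))))))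
noncomputable def l10041 : Lb := (@Lb.d (nat_lit 0) (nat_lit 512) (nat_lit 168) (@Lb.g g10 (@Lb.g g11 (@Lb.d (nat_lit 0) (nat_lit 0) (nat_lit 18) (@Lb.fm (nat_lit 3) t2)))))
noncomputable def l10042 : Lb := (@Lb.d (nat_lit 0) (nat_lit 256) (nat_lit 138) (@Lb.g g10 (@Lb.g g11 (@Lb.r r386 (@Lb.r r2371 (@Lb.r r578 (@Lb.d (nat_lit 0) (nat_lit 0) (nat_lit 74) (@Lb.fp (nat_lit 3) t2))))))))
noncomputable def l10043 : Lb := (@Lb.d (nat_lit 0) (nat_lit 8) (nat_lit 128) (@Lb.g g10 (@Lb.g g11 (@Lb.r r403 (@Lb.r r601 (@Lb.r r1382 (@Lb.r r24 (@Lb.d (nat_lit 288) (nat_lit 0) (nat_lit 278) (@Lb.fp (nat_lit 3) t1261)))))))))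
noncomputable def l10044 : Lb := (@Lb.d (nat_lit 0) (nat_lit 516) (nat_lit 1) (@Lb.g g6 (@Lb.r r24 (@Lb.d (nat_lit 613) (nat_lit 1) (nat_lit 528) (@Lb.t (@Lb.fp (nat_lit 3) t1994))))))
noncomputable def l10045 : Lb := (@Lb.d (nat_lit 129) (nat_lit 514) (nat_lit 66) (@Lb.g g8 (@Lb.g g9 (@Lb.g g10 (@Lb.g g11 (@Lb.r r683 (@Lb.r r1610 (@Lb.r r145 (@Lb.r r1604 (@Lb.d (nat_lit 656) (nat_lit 72) (nat_lit 665) (@Lb.fm (nat_lit 9) t1117)))))))))))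
noncomputable def l10046 : Lb := (@Lb.d (nat_lit 0) (nat_lit 517) (nat_lit 136) (@Lb.g g5 (@Lb.g g11 (@Lb.d (nat_lit 5) (nat_lit 1) (nat_lit 0) (@Lb.fp (nat_lit 3) t285)))))
noncomputable def l10047 : Lb := (@Lb.d (nat_lit 0) (nat_lit 18) (nat_lit 130) (@Lb.g g9 (@Lb.g g10 (@Lb.g g11 (@Lb.r r2603 (@Lb.r r97 (@Lb.r r146 (@Lb.r r24 (@Lb.d (nat_lit 393) (nat_lit 26) (nat_lit 385) (@Lb.t (@Lb.fm (nat_lit 9) t1778)))))))))))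
noncomputable def l10048 : Lb := (@Lb.d (nat_lit 16) (nat_lit 0) (nat_lit 152) (@Lb.g g8 (@Lb.g g10 (@Lb.g g11 (@Lb.r r132 (@Lb.d (nat_lit 32) (nat_lit 0) (nat_lit 33) (@Lb.t (@Lb.fm (nat_lit 9) t2314))))))))
noncomputable def l10049 : Lb := (@Lb.d (nat_lit 529) (nat_lit 0) (nat_lit 17) (@Lb.r r20 (@Lb.r r2073 (@Lb.r r24 (@Lb.g g6 (@Lb.t (@Lb.fp (nat_lit 3) t44)))))))
noncomputable def l10050 : Lb := (@Lb.d (nat_lit 6) (nat_lit 326) (nat_lit 1) (@Lb.r r289 (@Lb.r r279 (@Lb.r r584 (@Lb.r r326 (@Lb.g g7 (@Lb.g g6 (@Lb.g g5 (@Lb.d (nat_lit 0) (nat_lit 0) (nat_lit 65) (@Lb.t (@Lb.fp (nat_lit 9) t74)))))))))))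
noncomputable def l10051 : Lb := (@Lb.r r21 (@Lb.d (nat_lit 2) (nat_lit 8) (nat_lit 130) (@Lb.g g8 (@Lb.g g10 (@Lb.g g11 (@Lb.r r1707 (@Lb.r r2341 (@Lb.r r1620 (@Lb.r r106 (@Lb.d (nat_lit 36) (nat_lit 137) (nat_lit 681) (@Lb.t (@Lb.fm (nat_lit 9) t51))))))))))))
noncomputable def l10052 : Lb := (@Lb.d (nat_lit 0) (nat_lit 516) (nat_lit 1) (@Lb.g g6 (@Lb.g g7 (@Lb.r r24 (@Lb.d (nat_lit 5) (nat_lit 1) (nat_lit 69) (@Lb.fp (nat_lit 3) t71))))))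
noncomputable def l10053 : Lb := (@Lb.r r21 (@Lb.d (nat_lit 1) (nat_lit 520) (nat_lit 130) (@Lb.g g8 (@Lb.g g10 (@Lb.g g11 (@Lb.r r1707 (@Lb.r r2341 (@Lb.r r1620 (@Lb.r r106 (@Lb.d (nat_lit 38) (nat_lit 137) (nat_lit 681) (@Lb.t (@Lb.fm (nat_lit 9) t51))))))))))))
noncomputable def l10054 : Lb := (@Lb.d (nat_lit 0) (nat_lit 2) (nat_lit 73) (@Lb.g g8 (@Lb.g g9 (@Lb.g g10 (@Lb.g g11 (@Lb.r r1706 (@Lb.r r648 (@Lb.r r1563 (@Lb.r r2337 (@Lb.r r36 (@Lb.d (nat_lit 650) (nat_lit 97) (nat_lit 64) (@Lb.fp (nat_lit 9) t1412))))))))))))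
noncomputable def l10055 : Lb := (@Lb.d (nat_lit 33) (nat_lit 516) (nat_lit 128) (@Lb.g g8 (@Lb.g g9 (@Lb.g g10 (@Lb.g g11 (@Lb.r r2731 (@Lb.r r680 (@Lb.r r138 (@Lb.r r97 (@Lb.r r1060 (@Lb.d (nat_lit 277) (nat_lit 102) (nat_lit 145) (@Lb.fp (nat_lit 9) t789))))))))))))
noncomputable def l10056 : Lb := (@Lb.d (nat_lit 33) (nat_lit 260) (nat_lit 128) (@Lb.g g8 (@Lb.g g9 (@Lb.g g10 (@Lb.g g11 (@Lb.r r2731 (@Lb.r r680 (@Lb.r r138 (@Lb.r r97 (@Lb.r r1060 (@Lb.d (nat_lit 282) (nat_lit 100) (nat_lit 145) (@Lb.fp (nat_lit 9) t789))))))))))))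
noncomputable def l10057 : Lb := (@Lb.d (nat_lit 0) (nat_lit 2) (nat_lit 73) (@Lb.g g8 (@Lb.g g9 (@Lb.g g10 (@Lb.g g11 (@Lb.r r2691 (@Lb.r r297 (@Lb.r r360 (@Lb.r r582 (@Lb.r r2180 (@Lb.d (nat_lit 162) (nat_lit 0) (nat_lit 361) (@Lb.fm (nat_lit 9) t1013))))))))))))
noncomputable def l10058 : Lb := (@Lb.r r82 (@Lb.d (nat_lit 0) (nat_lit 2) (nat_lit 128) (@Lb.g g8 (@Lb.g g9 (@Lb.g g11 (@Lb.r r1315 (@Lb.r r1441 (@Lb.r r1642 (@Lb.r r1608 (@Lb.d (nat_lit 258) (nat_lit 0) (nat_lit 74) (@Lb.t (@Lb.fm (nat_lit 9) t2454))))))))))))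
noncomputable def l10059 : Lb := (@Lb.r r82 (@Lb.d (nat_lit 10) (nat_lit 257) (nat_lit 128) (@Lb.g g8 (@Lb.g g9 (@Lb.g g11 (@Lb.r r1315 (@Lb.r r1441 (@Lb.r r1642 (@Lb.r r1608 (@Lb.d (nat_lit 258) (nat_lit 0) (nat_lit 74) (@Lb.t (@Lb.fm (nat_lit 9) t2454))))))))))))
noncomputable def l10060 : Lb := (@Lb.d (nat_lit 614) (nat_lit 37) (nat_lit 582) (@Lb.r r24 (@Lb.r r421 (@Lb.r r602 (@Lb.r r1451 (@Lb.g g7 (@Lb.g g6 (@Lb.g g5 (@Lb.d (nat_lit 0) (nat_lit 32) (nat_lit 1) (@Lb.t (@Lb.fp (nat_lit 9) t2455)))))))))))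
noncomputable def l10061 : Lb := (@Lb.r r21 (@Lb.r r322 (@Lb.d (nat_lit 129) (nat_lit 288) (nat_lit 128) (@Lb.g g8 (@Lb.g g11 (@Lb.r r1381 (@Lb.r r146 (@Lb.r r2648 (@Lb.d (nat_lit 664) (nat_lit 42) (nat_lit 358) (@Lb.fp (nat_lit 3) t1266))))))))))
noncomputable def l10062 : Lb := (@Lb.r r82 (@Lb.d (nat_lit 2) (nat_lit 2) (nat_lit 128) (@Lb.g g8 (@Lb.g g9 (@Lb.g g11 (@Lb.r r1435 (@Lb.r r1450 (@Lb.r r1321 (@Lb.r r1416 (@Lb.d (nat_lit 614) (nat_lit 154) (nat_lit 84) (@Lb.t (@Lb.fp (nat_lit 9) t2456))))))))))))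
noncomputable def l10063 : Lb := (@Lb.d (nat_lit 10) (nat_lit 512) (nat_lit 128) (@Lb.g g8 (@Lb.g g11 (@Lb.r r593 (@Lb.r r2587 (@Lb.r r2178 (@Lb.r r2584 (@Lb.d (nat_lit 36) (nat_lit 9) (nat_lit 154) (@Lb.fp (nat_lit 3) t1385)))))))))
noncomputable def l10064 : Lb := (@Lb.r r275 (@Lb.d (nat_lit 2) (nat_lit 256) (nat_lit 2) (@Lb.g g8 (@Lb.g g9 (@Lb.g g10 (@Lb.r r2666 (@Lb.r r2664 (@Lb.r r2585 (@Lb.r r2579 (@Lb.d (nat_lit 265) (nat_lit 73) (nat_lit 2) (@Lb.t (@Lb.fm (nat_lit 9) t948))))))))))))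
noncomputable def l10065 : Lb := (@Lb.r r275 (@Lb.d (nat_lit 1) (nat_lit 512) (nat_lit 2) (@Lb.g g8 (@Lb.g g9 (@Lb.g g10 (@Lb.r r2666 (@Lb.r r2664 (@Lb.r r2585 (@Lb.r r2579 (@Lb.d (nat_lit 265) (nat_lit 73) (nat_lit 2) (@Lb.t (@Lb.fm (nat_lit 9) t948))))))))))))
noncomputable def l10066 : Lb := (@Lb.d (nat_lit 546) (nat_lit 601) (nat_lit 425) (@Lb.r r2721 (@Lb.r r354 (@Lb.g g11 (@Lb.g g5 (@Lb.d (nat_lit 0) (nat_lit 5) (nat_lit 384) (@Lb.r r578 (@Lb.fm (nat_lit 3) t1444))))))))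
noncomputable def l10067 : Lb := (@Lb.d (nat_lit 4) (nat_lit 257) (nat_lit 0) (@Lb.g g5 (@Lb.r r24 (@Lb.d (nat_lit 320) (nat_lit 1) (nat_lit 576) (@Lb.t (@Lb.fp (nat_lit 3) t716))))))
noncomputable def l10068 : Lb := (@Lb.d (nat_lit 640) (nat_lit 401) (nat_lit 320) (@Lb.r r579 (@Lb.r r2438 (@Lb.r r2132 (@Lb.r r1177 (@Lb.g g7 (@Lb.g g5 (@Lb.g g4 (@Lb.d (nat_lit 1) (nat_lit 1) (nat_lit 0) (@Lb.t (@Lb.fp (nat_lit 9) t2457)))))))))))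
noncomputable def l10069 : Lb := (@Lb.d (nat_lit 0) (nat_lit 266) (nat_lit 5) (@Lb.g g9 (@Lb.g g10 (@Lb.g g11 (@Lb.r r2723 (@Lb.r r165 (@Lb.r r610 (@Lb.r r24 (@Lb.d (nat_lit 89) (nat_lit 8) (nat_lit 385) (@Lb.t (@Lb.fp (nat_lit 9) t2458)))))))))))
noncomputable def l10070 : Lb := (@Lb.d (nat_lit 2) (nat_lit 514) (nat_lit 2) (@Lb.g g8 (@Lb.g g9 (@Lb.g g10 (@Lb.g g11 (@Lb.r r2666 (@Lb.r r2664 (@Lb.r r2585 (@Lb.r r2651 (@Lb.d (nat_lit 361) (nat_lit 73) (nat_lit 134) (@Lb.fp (nat_lit 9) t2459)))))))))))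
noncomputable def l10071 : Lb := (@Lb.r r81 (@Lb.d (nat_lit 145) (nat_lit 256) (nat_lit 89) (@Lb.g g8 (@Lb.g g6 (@Lb.g g11 (@Lb.r r1603 (@Lb.r r296 (@Lb.r r25 (@Lb.d (nat_lit 321) (nat_lit 145) (nat_lit 88) (@Lb.t (@Lb.fp (nat_lit 9) t2460)))))))))))
noncomputable def l10072 : Lb := (@Lb.d (nat_lit 0) (nat_lit 256) (nat_lit 128) (@Lb.g g10 (@Lb.g g11 (@Lb.r r353 (@Lb.r r663 (@Lb.r r356 (@Lb.r r154 (@Lb.d (nat_lit 18) (nat_lit 0) (nat_lit 0) (@Lb.fp (nat_lit 3) t285)))))))))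
noncomputable def l10073 : Lb := (@Lb.r r322 (@Lb.d (nat_lit 274) (nat_lit 266) (nat_lit 576) (@Lb.g g8 (@Lb.g g9 (@Lb.g g7 (@Lb.r r594 (@Lb.r r409 (@Lb.d (nat_lit 281) (nat_lit 64) (nat_lit 26) (@Lb.t (@Lb.fp (nat_lit 9) t303))))))))))
noncomputable def l10074 : Lb := (@Lb.r r323 (@Lb.d (nat_lit 2) (nat_lit 258) (nat_lit 1) (@Lb.g g8 (@Lb.g g9 (@Lb.g g6 (@Lb.r r2347 (@Lb.r r25 (@Lb.d (nat_lit 9) (nat_lit 68) (nat_lit 1) (@Lb.t (@Lb.fp (nat_lit 9) t660))))))))))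
noncomputable def l10075 : Lb := (@Lb.d (nat_lit 0) (nat_lit 133) (nat_lit 85) (@Lb.r r2308 (@Lb.r r2081 (@Lb.r r299 (@Lb.r r420 (@Lb.g g7 (@Lb.g g10 (@Lb.g g4 (@Lb.d (nat_lit 1) (nat_lit 4) (nat_lit 18) (@Lb.t (@Lb.fp (nat_lit 9) t543)))))))))))
noncomputable def l10076 : Lb := (@Lb.r r275 (@Lb.d (nat_lit 2) (nat_lit 512) (nat_lit 0) (@Lb.g g8 (@Lb.g g9 (@Lb.r r2347 (@Lb.r r2073 (@Lb.d (nat_lit 265) (nat_lit 2) (nat_lit 0) (@Lb.fm (nat_lit 3) t316))))))))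
noncomputable def l10077 : Lb := (@Lb.r r273 (@Lb.r r322 (@Lb.d (nat_lit 274) (nat_lit 528) (nat_lit 584) (@Lb.g g8 (@Lb.g g7 (@Lb.r r594 (@Lb.r r409 (@Lb.d (nat_lit 274) (nat_lit 72) (nat_lit 82) (@Lb.fp (nat_lit 3) t1285)))))))))
noncomputable def l10078 : Lb := (@Lb.d (nat_lit 280) (nat_lit 265) (nat_lit 130) (@Lb.g g4 (@Lb.g g9 (@Lb.g g10 (@Lb.g g11 (@Lb.r r2443 (@Lb.r r1686 (@Lb.r r1641 (@Lb.d (nat_lit 597) (nat_lit 130) (nat_lit 362) (@Lb.fm (nat_lit 9) t2461))))))))))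
noncomputable def l10079 : Lb := (@Lb.d (nat_lit 610) (nat_lit 512) (nat_lit 610) (@Lb.r r24 (@Lb.r r293 (@Lb.r r1442 (@Lb.g g11 (@Lb.g g6 (@Lb.g g5 (@Lb.d (nat_lit 0) (nat_lit 17) (nat_lit 258) (@Lb.t (@Lb.fp (nat_lit 9) t2083))))))))))
noncomputable def l10080 : Lb := (@Lb.d (nat_lit 2) (nat_lit 258) (nat_lit 64) (@Lb.g g8 (@Lb.g g9 (@Lb.g g11 (@Lb.r r594 (@Lb.r r425 (@Lb.r r424 (@Lb.r r2375 (@Lb.r r586 (@Lb.d (nat_lit 513) (nat_lit 98) (nat_lit 81) (@Lb.t (@Lb.fm (nat_lit 9) t121))))))))))))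
noncomputable def l10081 : Lb := (@Lb.g g9 (@Lb.g g6 (@Lb.r r2343 (@Lb.r r1096 (@Lb.r r2646 (@Lb.r r289 (@Lb.d (nat_lit 1) (nat_lit 386) (nat_lit 16) (@Lb.fp (nat_lit 3) t1195))))))))
noncomputable def l10082 : Lb := (@Lb.d (nat_lit 9) (nat_lit 1) (nat_lit 130) (@Lb.g g8 (@Lb.g g9 (@Lb.g g10 (@Lb.g g11 (@Lb.r r1706 (@Lb.r r680 (@Lb.r r539 (@Lb.r r2337 (@Lb.r r2084 (@Lb.d (nat_lit 9) (nat_lit 38) (nat_lit 534) (@Lb.fp (nat_lit 9) t51))))))))))))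
noncomputable def l10083 : Lb := (@Lb.d (nat_lit 2) (nat_lit 256) (nat_lit 130) (@Lb.g g8 (@Lb.g g9 (@Lb.g g10 (@Lb.g g11 (@Lb.r r1707 (@Lb.r r680 (@Lb.r r170 (@Lb.r r41 (@Lb.r r2084 (@Lb.d (nat_lit 266) (nat_lit 2) (nat_lit 170) (@Lb.fp (nat_lit 9) t221))))))))))))
noncomputable def l10084 : Lb := (@Lb.d (nat_lit 130) (nat_lit 290) (nat_lit 41) (@Lb.g g8 (@Lb.g g9 (@Lb.g g6 (@Lb.r r391 (@Lb.r r600 (@Lb.r r2085 (@Lb.d (nat_lit 265) (nat_lit 24) (nat_lit 408) (@Lb.t (@Lb.fp (nat_lit 9) t386))))))))))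
noncomputable def l10085 : Lb := (@Lb.d (nat_lit 129) (nat_lit 258) (nat_lit 0) (@Lb.g g8 (@Lb.g g9 (@Lb.r r2583 (@Lb.r r2178 (@Lb.r r297 (@Lb.r r296 (@Lb.d (nat_lit 132) (nat_lit 34) (nat_lit 64) (@Lb.fm (nat_lit 3) t322)))))))))
noncomputable def l10086 : Lb := (@Lb.r r21 (@Lb.r r70 (@Lb.r r263 (@Lb.g g8 (@Lb.r r267 (@Lb.r r74 (@Lb.r r25 (@Lb.d (nat_lit 273) (nat_lit 522) (nat_lit 18) (@Lb.t (@Lb.fp (nat_lit 3) t2462))))))))))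
noncomputable def l10087 : Lb := (@Lb.d (nat_lit 297) (nat_lit 8) (nat_lit 17) (@Lb.r r24 (@Lb.r r101 (@Lb.r r2214 (@Lb.r r2471 (@Lb.g g6 (@Lb.g g5 (@Lb.d (nat_lit 0) (nat_lit 5) (nat_lit 2) (@Lb.r r387 (@Lb.fp (nat_lit 3) t1993))))))))))
noncomputable def l10088 : Lb := (@Lb.r r323 (@Lb.d (nat_lit 2) (nat_lit 2) (nat_lit 42) (@Lb.g g8 (@Lb.g g9 (@Lb.g g10 (@Lb.r r1619 (@Lb.r r1177 (@Lb.r r2584 (@Lb.d (nat_lit 390) (nat_lit 161) (nat_lit 130) (@Lb.t (@Lb.fm (nat_lit 9) t2463)))))))))))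
noncomputable def l10089 : Lb := (@Lb.d (nat_lit 657) (nat_lit 256) (nat_lit 262) (@Lb.r r24 (@Lb.r r101 (@Lb.r r386 (@Lb.g g11 (@Lb.g g6 (@Lb.d (nat_lit 0) (nat_lit 0) (nat_lit 1) (@Lb.fm (nat_lit 3) t868))))))))
noncomputable def l10090 : Lb := (@Lb.d (nat_lit 8) (nat_lit 2) (nat_lit 130) (@Lb.g g9 (@Lb.g g10 (@Lb.g g11 (@Lb.r r614 (@Lb.r r404 (@Lb.r r683 (@Lb.r r673 (@Lb.d (nat_lit 9) (nat_lit 154) (nat_lit 2) (@Lb.t (@Lb.fm (nat_lit 9) t119)))))))))))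
noncomputable def l10091 : Lb := (@Lb.d (nat_lit 102) (nat_lit 417) (nat_lit 153) (@Lb.r r2178 (@Lb.r r2715 (@Lb.r r536 (@Lb.g g11 (@Lb.g g5 (@Lb.d (nat_lit 64) (nat_lit 72) (nat_lit 64) (@Lb.fm (nat_lit 3) t124))))))))
noncomputable def l10092 : Lb := (@Lb.d (nat_lit 17) (nat_lit 0) (nat_lit 522) (@Lb.r r24 (@Lb.r r2587 (@Lb.r r1381 (@Lb.g g10 (@Lb.g g4 (@Lb.d (nat_lit 1) (nat_lit 0) (nat_lit 18) (@Lb.r r387 (@Lb.r r145 (@Lb.fm (nat_lit 3) t475))))))))))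
noncomputable def l10093 : Lb := (@Lb.r r2451 (@Lb.r r1186 (@Lb.r r2209 (@Lb.r r2196 (@Lb.d (nat_lit 281) (nat_lit 512) (nat_lit 0) (@Lb.fp (nat_lit 1) t810))))))
noncomputable def l10094 : Lb := (@Lb.d (nat_lit 4) (nat_lit 73) (nat_lit 0) (@Lb.g g5 (@Lb.r r1158 (@Lb.r r2376 (@Lb.r r1543 (@Lb.d (nat_lit 0) (nat_lit 37) (nat_lit 72) (@Lb.t (@Lb.fp (nat_lit 3) t242))))))))
noncomputable def l10095 : Lb := (@Lb.r r82 (@Lb.d (nat_lit 34) (nat_lit 258) (nat_lit 128) (@Lb.g g8 (@Lb.g g9 (@Lb.g g11 (@Lb.r r1571 (@Lb.r r582 (@Lb.r r665 (@Lb.r r2200 (@Lb.d (nat_lit 665) (nat_lit 138) (nat_lit 82) (@Lb.t (@Lb.fm (nat_lit 9) t278))))))))))))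
noncomputable def l10096 : Lb := (@Lb.d (nat_lit 0) (nat_lit 0) (nat_lit 69) (@Lb.g g6 (@Lb.g g7 (@Lb.d (nat_lit 0) (nat_lit 0) (nat_lit 69) (@Lb.fm (nat_lit 3) t2)))))
noncomputable def l10097 : Lb := (@Lb.d (nat_lit 0) (nat_lit 25) (nat_lit 0) (@Lb.g g9 (@Lb.g g11 (@Lb.r r402 (@Lb.r r1379 (@Lb.r r2385 (@Lb.d (nat_lit 0) (nat_lit 150) (nat_lit 660) (@Lb.fp (nat_lit 3) t917))))))))
noncomputable def l10098 : Lb := (@Lb.d (nat_lit 0) (nat_lit 33) (nat_lit 66) (@Lb.g g8 (@Lb.g g9 (@Lb.g g10 (@Lb.g g11 (@Lb.r r595 (@Lb.r r1702 (@Lb.r r1636 (@Lb.r r1557 (@Lb.d (nat_lit 384) (nat_lit 2) (nat_lit 256) (@Lb.fp (nat_lit 9) t1702)))))))))))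
noncomputable def l10099 : Lb := (@Lb.r r82 (@Lb.d (nat_lit 2) (nat_lit 2) (nat_lit 128) (@Lb.g g8 (@Lb.g g9 (@Lb.g g11 (@Lb.r r2451 (@Lb.r r405 (@Lb.r r1448 (@Lb.r r1418 (@Lb.d (nat_lit 546) (nat_lit 10) (nat_lit 16) (@Lb.t (@Lb.fm (nat_lit 9) t2464))))))))))))
noncomputable def l10100 : Lb := (@Lb.d (nat_lit 0) (nat_lit 512) (nat_lit 132) (@Lb.g g9 (@Lb.g g10 (@Lb.g g11 (@Lb.r r1363 (@Lb.r r1362 (@Lb.r r101 (@Lb.r r24 (@Lb.d (nat_lit 129) (nat_lit 0) (nat_lit 418) (@Lb.t (@Lb.fm (nat_lit 9) t592)))))))))))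
noncomputable def l10101 : Lb := (@Lb.d (nat_lit 2) (nat_lit 258) (nat_lit 2) (@Lb.g g8 (@Lb.g g9 (@Lb.g g10 (@Lb.g g11 (@Lb.r r683 (@Lb.r r648 (@Lb.r r2202 (@Lb.r r97 (@Lb.r r2084 (@Lb.d (nat_lit 546) (nat_lit 105) (nat_lit 673) (@Lb.fp (nat_lit 9) t296))))))))))))
noncomputable def l10102 : Lb := (@Lb.r r82 (@Lb.d (nat_lit 33) (nat_lit 512) (nat_lit 64) (@Lb.g g8 (@Lb.g g9 (@Lb.g g7 (@Lb.r r1622 (@Lb.r r2337 (@Lb.r r148 (@Lb.d (nat_lit 40) (nat_lit 106) (nat_lit 86) (@Lb.t (@Lb.fm (nat_lit 9) t2465)))))))))))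
noncomputable def l10103 : Lb := (@Lb.d (nat_lit 130) (nat_lit 512) (nat_lit 0) (@Lb.r r24 (@Lb.r r101 (@Lb.r r2403 (@Lb.r r594 (@Lb.g g6 (@Lb.t (@Lb.fm (nat_lit 3) t2466))))))))
noncomputable def l10104 : Lb := (@Lb.d (nat_lit 609) (nat_lit 320) (nat_lit 582) (@Lb.r r20 (@Lb.r r97 (@Lb.r r2378 (@Lb.r r279 (@Lb.g g7 (@Lb.g g5 (@Lb.d (nat_lit 0) (nat_lit 1) (nat_lit 128) (@Lb.fp (nat_lit 3) t2467)))))))))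
noncomputable def l10105 : Lb := (@Lb.r r82 (@Lb.r r275 (@Lb.d (nat_lit 8) (nat_lit 641) (nat_lit 0) (@Lb.g g8 (@Lb.g g5 (@Lb.r r2403 (@Lb.r r2218 (@Lb.r r2196 (@Lb.d (nat_lit 37) (nat_lit 72) (nat_lit 18) (@Lb.fm (nat_lit 3) t2468))))))))))
noncomputable def l10106 : Lb := (@Lb.d (nat_lit 145) (nat_lit 265) (nat_lit 4) (@Lb.g g8 (@Lb.g g9 (@Lb.g g10 (@Lb.g g11 (@Lb.r r683 (@Lb.r r618 (@Lb.r r1561 (@Lb.r r1540 (@Lb.d (nat_lit 394) (nat_lit 73) (nat_lit 673) (@Lb.fm (nat_lit 9) t1544)))))))))))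
noncomputable def l10107 : Lb := (@Lb.r r21 (@Lb.d (nat_lit 128) (nat_lit 0) (nat_lit 130) (@Lb.g g8 (@Lb.g g10 (@Lb.g g11 (@Lb.r r419 (@Lb.r r2726 (@Lb.r r97 (@Lb.r r612 (@Lb.d (nat_lit 6) (nat_lit 101) (nat_lit 660) (@Lb.t (@Lb.fm (nat_lit 9) t2469))))))))))))
noncomputable def l10108 : Lb := (@Lb.r r21 (@Lb.d (nat_lit 129) (nat_lit 256) (nat_lit 130) (@Lb.g g8 (@Lb.g g10 (@Lb.g g11 (@Lb.r r419 (@Lb.r r132 (@Lb.r r2438 (@Lb.r r97 (@Lb.d (nat_lit 354) (nat_lit 24) (nat_lit 420) (@Lb.t (@Lb.fm (nat_lit 9) t2470))))))))))))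
noncomputable def l10109 : Lb := (@Lb.d (nat_lit 4) (nat_lit 293) (nat_lit 136) (@Lb.r r37 (@Lb.r r322 (@Lb.r r679 (@Lb.g g7 (@Lb.g g6 (@Lb.g g5 (@Lb.g g8 (@Lb.d (nat_lit 0) (nat_lit 8) (nat_lit 133) (@Lb.fm (nat_lit 9) t2471))))))))))
noncomputable def l10110 : Lb := (@Lb.r r20 (@Lb.d (nat_lit 0) (nat_lit 545) (nat_lit 4) (@Lb.g g9 (@Lb.g g10 (@Lb.g g11 (@Lb.r r675 (@Lb.r r1634 (@Lb.r r1553 (@Lb.d (nat_lit 401) (nat_lit 105) (nat_lit 582) (@Lb.t (@Lb.fp (nat_lit 9) t2472)))))))))))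
noncomputable def l10111 : Lb := (@Lb.d (nat_lit 129) (nat_lit 9) (nat_lit 129) (@Lb.g g8 (@Lb.g g9 (@Lb.g g10 (@Lb.g g11 (@Lb.r r2435 (@Lb.r r2585 (@Lb.r r596 (@Lb.r r2442 (@Lb.r r1156 (@Lb.d (nat_lit 136) (nat_lit 74) (nat_lit 281) (@Lb.fm (nat_lit 9) t2473))))))))))))
noncomputable def l10112 : Lb := (@Lb.d (nat_lit 646) (nat_lit 145) (nat_lit 512) (@Lb.r r20 (@Lb.r r25 (@Lb.r r148 (@Lb.r r1366 (@Lb.g g7 (@Lb.g g6 (@Lb.g g5 (@Lb.g g4 (@Lb.d (nat_lit 0) (nat_lit 1) (nat_lit 134) (@Lb.fp (nat_lit 9) t2474)))))))))))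
noncomputable def l10113 : Lb := (@Lb.d (nat_lit 1) (nat_lit 585) (nat_lit 1) (@Lb.g g4 (@Lb.g g9 (@Lb.g g10 (@Lb.g g11 (@Lb.r r419 (@Lb.r r98 (@Lb.d (nat_lit 1) (nat_lit 4) (nat_lit 1) (@Lb.fm (nat_lit 9) t546)))))))))
noncomputable def l10114 : Lb := (@Lb.r r1045 (@Lb.d (nat_lit 261) (nat_lit 264) (nat_lit 2) (@Lb.g g4 (@Lb.g g10 (@Lb.g g11 (@Lb.r r387 (@Lb.d (nat_lit 1) (nat_lit 66) (nat_lit 2) (@Lb.t (@Lb.fp (nat_lit 9) t51)))))))))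
noncomputable def l10115 : Lb := (@Lb.d (nat_lit 582) (nat_lit 673) (nat_lit 384) (@Lb.r r20 (@Lb.r r25 (@Lb.r r148 (@Lb.r r1622 (@Lb.g g11 (@Lb.g g6 (@Lb.g g5 (@Lb.g g4 (@Lb.d (nat_lit 1) (nat_lit 1) (nat_lit 72) (@Lb.fm (nat_lit 9) t1499)))))))))))
noncomputable def l10116 : Lb := (@Lb.r r323 (@Lb.d (nat_lit 4) (nat_lit 522) (nat_lit 2) (@Lb.g g8 (@Lb.g g9 (@Lb.g g10 (@Lb.r r683 (@Lb.r r2210 (@Lb.r r145 (@Lb.d (nat_lit 514) (nat_lit 73) (nat_lit 68) (@Lb.t (@Lb.fm (nat_lit 9) t2475)))))))))))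
noncomputable def l10117 : Lb := (@Lb.d (nat_lit 4) (nat_lit 544) (nat_lit 130) (@Lb.g g8 (@Lb.g g9 (@Lb.g g10 (@Lb.g g11 (@Lb.r r682 (@Lb.r r387 (@Lb.r r1177 (@Lb.d (nat_lit 537) (nat_lit 149) (nat_lit 409) (@Lb.fm (nat_lit 9) t1047))))))))))
noncomputable def l10118 : Lb := (@Lb.r r2311 (@Lb.r r664 (@Lb.r r154 (@Lb.r r2133 (@Lb.r r164 (@Lb.d (nat_lit 1) (nat_lit 256) (nat_lit 85) (@Lb.fp (nat_lit 1) t386)))))))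
noncomputable def l10119 : Lb := (@Lb.d (nat_lit 128) (nat_lit 8) (nat_lit 130) (@Lb.g g10 (@Lb.g g11 (@Lb.r r361 (@Lb.r r292 (@Lb.r r539 (@Lb.r r134 (@Lb.d (nat_lit 105) (nat_lit 68) (nat_lit 256) (@Lb.fp (nat_lit 3) t2476)))))))))
noncomputable def l10120 : Lb := (@Lb.d (nat_lit 4) (nat_lit 34) (nat_lit 73) (@Lb.g g8 (@Lb.g g9 (@Lb.g g10 (@Lb.g g11 (@Lb.r r683 (@Lb.r r362 (@Lb.r r1561 (@Lb.d (nat_lit 586) (nat_lit 137) (nat_lit 37) (@Lb.fm (nat_lit 9) t1047))))))))))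
noncomputable def l10121 : Lb := (@Lb.d (nat_lit 4) (nat_lit 264) (nat_lit 161) (@Lb.g g8 (@Lb.g g9 (@Lb.g g6 (@Lb.g g11 (@Lb.r r1643 (@Lb.r r1633 (@Lb.r r24 (@Lb.d (nat_lit 265) (nat_lit 153) (nat_lit 280) (@Lb.fp (nat_lit 9) t1923))))))))))
noncomputable def l10122 : Lb := (@Lb.d (nat_lit 138) (nat_lit 33) (nat_lit 2) (@Lb.g g8 (@Lb.g g9 (@Lb.g g10 (@Lb.r r343 (@Lb.r r1634 (@Lb.r r344 (@Lb.r r1637 (@Lb.d (nat_lit 406) (nat_lit 146) (nat_lit 280) (@Lb.t (@Lb.fm (nat_lit 9) t2047)))))))))))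
noncomputable def l10123 : Lb := (@Lb.d (nat_lit 0) (nat_lit 256) (nat_lit 73) (@Lb.g g10 (@Lb.g g11 (@Lb.r r2726 (@Lb.r r328 (@Lb.r r535 (@Lb.r r289 (@Lb.d (nat_lit 640) (nat_lit 144) (nat_lit 64) (@Lb.fm (nat_lit 3) t1115)))))))))
noncomputable def l10124 : Lb := (@Lb.d (nat_lit 609) (nat_lit 100) (nat_lit 82) (@Lb.r r611 (@Lb.r r601 (@Lb.r r24 (@Lb.g g7 (@Lb.g g10 (@Lb.g g5 (@Lb.d (nat_lit 68) (nat_lit 1) (nat_lit 81) (@Lb.t (@Lb.fm (nat_lit 9) t114))))))))))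
noncomputable def l10125 : Lb := (@Lb.r r323 (@Lb.d (nat_lit 137) (nat_lit 512) (nat_lit 2) (@Lb.g g8 (@Lb.g g10 (@Lb.r r346 (@Lb.r r661 (@Lb.r r1431 (@Lb.r r2632 (@Lb.d (nat_lit 361) (nat_lit 128) (nat_lit 258) (@Lb.fp (nat_lit 3) t71))))))))))
noncomputable def l10126 : Lb := (@Lb.d (nat_lit 0) (nat_lit 8) (nat_lit 128) (@Lb.g g10 (@Lb.g g11 (@Lb.r r2409 (@Lb.r r663 (@Lb.r r356 (@Lb.r r2714 (@Lb.d (nat_lit 338) (nat_lit 160) (nat_lit 420) (@Lb.fp (nat_lit 3) t285)))))))))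
noncomputable def l10127 : Lb := (@Lb.r r21 (@Lb.r r263 (@Lb.d (nat_lit 548) (nat_lit 0) (nat_lit 1) (@Lb.g g4 (@Lb.g g10 (@Lb.r r267 (@Lb.r r134 (@Lb.r r25 (@Lb.d (nat_lit 297) (nat_lit 0) (nat_lit 1) (@Lb.fm (nat_lit 3) t363))))))))))
noncomputable def l10128 : Lb := (@Lb.d (nat_lit 6) (nat_lit 546) (nat_lit 130) (@Lb.g g4 (@Lb.g g9 (@Lb.g g10 (@Lb.g g11 (@Lb.r r387 (@Lb.r r386 (@Lb.r r1557 (@Lb.d (nat_lit 388) (nat_lit 106) (nat_lit 641) (@Lb.fp (nat_lit 9) t1176))))))))))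
noncomputable def l10129 : Lb := (@Lb.d (nat_lit 0) (nat_lit 513) (nat_lit 130) (@Lb.g g8 (@Lb.g g9 (@Lb.g g10 (@Lb.g g11 (@Lb.r r618 (@Lb.r r105 (@Lb.r r340 (@Lb.r r2587 (@Lb.r r2564 (@Lb.d (nat_lit 0) (nat_lit 18) (nat_lit 640) (@Lb.fp (nat_lit 9) t71))))))))))))
noncomputable def l10130 : Lb := (@Lb.r r21 (@Lb.d (nat_lit 129) (nat_lit 256) (nat_lit 130) (@Lb.g g8 (@Lb.g g10 (@Lb.g g11 (@Lb.r r1691 (@Lb.r r1689 (@Lb.r r1370 (@Lb.r r1348 (@Lb.d (nat_lit 386) (nat_lit 26) (nat_lit 586) (@Lb.t (@Lb.fp (nat_lit 9) t74))))))))))))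
noncomputable def l10131 : Lb := (@Lb.d (nat_lit 5) (nat_lit 512) (nat_lit 0) (@Lb.g g4 (@Lb.d (nat_lit 6) (nat_lit 65) (nat_lit 64) (@Lb.t (@Lb.fm (nat_lit 3) t2)))))
noncomputable def l10132 : Lb := (@Lb.d (nat_lit 0) (nat_lit 0) (nat_lit 66) (@Lb.g g10 (@Lb.g g7 (@Lb.r r386 (@Lb.r r101 (@Lb.r r24 (@Lb.d (nat_lit 354) (nat_lit 0) (nat_lit 585) (@Lb.fm (nat_lit 3) t166))))))))
noncomputable def l10133 : Lb := (@Lb.r r323 (@Lb.d (nat_lit 1) (nat_lit 2) (nat_lit 2) (@Lb.g g8 (@Lb.g g9 (@Lb.g g10 (@Lb.r r70 (@Lb.r r388 (@Lb.r r1323 (@Lb.r r1313 (@Lb.d (nat_lit 1) (nat_lit 134) (nat_lit 385) (@Lb.t (@Lb.fp (nat_lit 9) t119))))))))))))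
noncomputable def l10134 : Lb := (@Lb.d (nat_lit 0) (nat_lit 512) (nat_lit 66) (@Lb.g g10 (@Lb.g g7 (@Lb.r r386 (@Lb.r r101 (@Lb.r r24 (@Lb.d (nat_lit 352) (nat_lit 0) (nat_lit 585) (@Lb.fm (nat_lit 3) t1150))))))))
noncomputable def l10135 : Lb := (@Lb.d (nat_lit 0) (nat_lit 256) (nat_lit 129) (@Lb.g g10 (@Lb.g g11 (@Lb.r r657 (@Lb.r r411 (@Lb.r r408 (@Lb.r r90 (@Lb.d (nat_lit 280) (nat_lit 10) (nat_lit 17) (@Lb.fp (nat_lit 3) t2477)))))))))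
noncomputable def l10136 : Lb := (@Lb.d (nat_lit 2) (nat_lit 546) (nat_lit 2) (@Lb.g g8 (@Lb.g g9 (@Lb.g g10 (@Lb.g g11 (@Lb.r r387 (@Lb.r r2154 (@Lb.r r2073 (@Lb.d (nat_lit 265) (nat_lit 20) (nat_lit 137) (@Lb.fp (nat_lit 9) t719))))))))))
noncomputable def l10137 : Lb := (@Lb.d (nat_lit 65) (nat_lit 290) (nat_lit 66) (@Lb.g g8 (@Lb.g g9 (@Lb.g g10 (@Lb.g g11 (@Lb.r r582 (@Lb.r r2457 (@Lb.r r408 (@Lb.r r1319 (@Lb.d (nat_lit 324) (nat_lit 161) (nat_lit 106) (@Lb.fm (nat_lit 9) t163)))))))))))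
noncomputable def l10138 : Lb := (@Lb.d (nat_lit 2) (nat_lit 2) (nat_lit 73) (@Lb.g g8 (@Lb.g g9 (@Lb.g g10 (@Lb.g g11 (@Lb.r r2666 (@Lb.r r579 (@Lb.r r25 (@Lb.d (nat_lit 9) (nat_lit 102) (nat_lit 584) (@Lb.fm (nat_lit 9) t51))))))))))
noncomputable def l10139 : Lb := (@Lb.d (nat_lit 146) (nat_lit 258) (nat_lit 133) (@Lb.g g8 (@Lb.g g9 (@Lb.g g10 (@Lb.g g11 (@Lb.r r427 (@Lb.r r2154 (@Lb.r r409 (@Lb.r r388 (@Lb.d (nat_lit 105) (nat_lit 85) (nat_lit 337) (@Lb.fp (nat_lit 9) t394)))))))))))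
noncomputable def l10140 : Lb := (@Lb.d (nat_lit 40) (nat_lit 256) (nat_lit 136) (@Lb.g g8 (@Lb.g g11 (@Lb.r r2213 (@Lb.r r1190 (@Lb.r r2388 (@Lb.r r1291 (@Lb.d (nat_lit 2) (nat_lit 148) (nat_lit 134) (@Lb.fm (nat_lit 3) t322)))))))))
noncomputable def l10141 : Lb := (@Lb.d (nat_lit 4) (nat_lit 520) (nat_lit 130) (@Lb.g g8 (@Lb.g g9 (@Lb.g g10 (@Lb.g g11 (@Lb.r r683 (@Lb.r r1065 (@Lb.r r360 (@Lb.r r582 (@Lb.r r2180 (@Lb.d (nat_lit 649) (nat_lit 73) (nat_lit 545) (@Lb.fm (nat_lit 9) t796))))))))))))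
noncomputable def l10142 : Lb := (@Lb.d (nat_lit 0) (nat_lit 512) (nat_lit 130) (@Lb.g g8 (@Lb.g g9 (@Lb.g g10 (@Lb.g g11 (@Lb.r r2731 (@Lb.r r2601 (@Lb.r r616 (@Lb.r r2118 (@Lb.r r1156 (@Lb.d (nat_lit 9) (nat_lit 153) (nat_lit 297) (@Lb.fm (nat_lit 9) t591))))))))))))
noncomputable def l10143 : Lb := (@Lb.d (nat_lit 40) (nat_lit 512) (nat_lit 64) (@Lb.g g8 (@Lb.g g11 (@Lb.r r2213 (@Lb.r r1190 (@Lb.r r2648 (@Lb.r r2571 (@Lb.d (nat_lit 641) (nat_lit 148) (nat_lit 326) (@Lb.fm (nat_lit 3) t322)))))))))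
noncomputable def l10144 : Lb := (@Lb.d (nat_lit 24) (nat_lit 277) (nat_lit 425) (@Lb.r r360 (@Lb.r r1321 (@Lb.r r1442 (@Lb.g g7 (@Lb.g g5 (@Lb.g g4 (@Lb.d (nat_lit 17) (nat_lit 0) (nat_lit 324) (@Lb.r r610 (@Lb.t (@Lb.fm (nat_lit 9) t2478)))))))))))
noncomputable def l10145 : Lb := (@Lb.r r82 (@Lb.d (nat_lit 2) (nat_lit 2) (nat_lit 128) (@Lb.g g8 (@Lb.g g9 (@Lb.g g11 (@Lb.r r299 (@Lb.r r296 (@Lb.r r89 (@Lb.r r98 (@Lb.d (nat_lit 342) (nat_lit 8) (nat_lit 650) (@Lb.t (@Lb.fp (nat_lit 9) t2479))))))))))))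
noncomputable def l10146 : Lb := (@Lb.r r70 (@Lb.d (nat_lit 129) (nat_lit 2) (nat_lit 128) (@Lb.g g8 (@Lb.g g9 (@Lb.g g11 (@Lb.r r2152 (@Lb.r r2694 (@Lb.r r1411 (@Lb.r r25 (@Lb.d (nat_lit 322) (nat_lit 161) (nat_lit 264) (@Lb.t (@Lb.fm (nat_lit 9) t2480))))))))))))
noncomputable def l10147 : Lb := (@Lb.d (nat_lit 33) (nat_lit 2) (nat_lit 129) (@Lb.g g8 (@Lb.g g9 (@Lb.g g10 (@Lb.g g11 (@Lb.r r427 (@Lb.r r1410 (@Lb.r r97 (@Lb.r r2072 (@Lb.d (nat_lit 330) (nat_lit 104) (nat_lit 617) (@Lb.fm (nat_lit 9) t2481)))))))))))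
noncomputable def l10148 : Lb := (@Lb.d (nat_lit 8) (nat_lit 514) (nat_lit 136) (@Lb.g g9 (@Lb.g g10 (@Lb.g g11 (@Lb.r r2395 (@Lb.r r682 (@Lb.r r24 (@Lb.r r101 (@Lb.d (nat_lit 81) (nat_lit 137) (nat_lit 642) (@Lb.t (@Lb.fp (nat_lit 9) t2482)))))))))))
noncomputable def l10149 : Lb := (@Lb.d (nat_lit 2) (nat_lit 662) (nat_lit 88) (@Lb.r r345 (@Lb.r r2118 (@Lb.r r551 (@Lb.g g7 (@Lb.g g5 (@Lb.g g8 (@Lb.d (nat_lit 10) (nat_lit 0) (nat_lit 64) (@Lb.r r98 (@Lb.t (@Lb.fp (nat_lit 9) t2483)))))))))))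
noncomputable def l10150 : Lb := (@Lb.d (nat_lit 362) (nat_lit 145) (nat_lit 74) (@Lb.r r356 (@Lb.r r2325 (@Lb.r r1643 (@Lb.g g10 (@Lb.g g5 (@Lb.g g4 (@Lb.d (nat_lit 18) (nat_lit 1) (nat_lit 18) (@Lb.r r387 (@Lb.t (@Lb.fp (nat_lit 9) t140)))))))))))
noncomputable def l10151 : Lb := (@Lb.r r82 (@Lb.d (nat_lit 128) (nat_lit 2) (nat_lit 136) (@Lb.g g9 (@Lb.g g11 (@Lb.r r410 (@Lb.r r388 (@Lb.r r587 (@Lb.d (nat_lit 106) (nat_lit 6) (nat_lit 2) (@Lb.fm (nat_lit 3) t1337)))))))))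
noncomputable def l10152 : Lb := (@Lb.r r82 (@Lb.d (nat_lit 128) (nat_lit 514) (nat_lit 136) (@Lb.g g9 (@Lb.g g11 (@Lb.r r410 (@Lb.r r408 (@Lb.r r615 (@Lb.d (nat_lit 642) (nat_lit 18) (nat_lit 34) (@Lb.fp (nat_lit 3) t2484)))))))))
noncomputable def l10153 : Lb := (@Lb.d (nat_lit 401) (nat_lit 64) (nat_lit 340) (@Lb.r r1608 (@Lb.r r97 (@Lb.r r1355 (@Lb.g g10 (@Lb.g g4 (@Lb.d (nat_lit 65) (nat_lit 8) (nat_lit 6) (@Lb.r r25 (@Lb.fp (nat_lit 3) t225)))))))))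
noncomputable def l10154 : Lb := (@Lb.d (nat_lit 146) (nat_lit 256) (nat_lit 130) (@Lb.g g8 (@Lb.g g9 (@Lb.g g10 (@Lb.g g11 (@Lb.r r1672 (@Lb.r r283 (@Lb.r r2705 (@Lb.r r1626 (@Lb.d (nat_lit 89) (nat_lit 6) (nat_lit 341) (@Lb.fm (nat_lit 9) t2485)))))))))))
noncomputable def l10155 : Lb := (@Lb.d (nat_lit 5) (nat_lit 546) (nat_lit 4) (@Lb.g g4 (@Lb.g g9 (@Lb.g g10 (@Lb.g g11 (@Lb.r r679 (@Lb.r r610 (@Lb.r r529 (@Lb.d (nat_lit 104) (nat_lit 40) (nat_lit 129) (@Lb.fp (nat_lit 9) t50))))))))))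
noncomputable def l10156 : Lb := (@Lb.d (nat_lit 2) (nat_lit 514) (nat_lit 128) (@Lb.g g8 (@Lb.g g9 (@Lb.g g10 (@Lb.g g11 (@Lb.r r1707 (@Lb.r r162 (@Lb.r r145 (@Lb.r r1608 (@Lb.d (nat_lit 97) (nat_lit 9) (nat_lit 665) (@Lb.fm (nat_lit 9) t1082)))))))))))
noncomputable def l10157 : Lb := (@Lb.d (nat_lit 2) (nat_lit 514) (nat_lit 128) (@Lb.g g8 (@Lb.g g9 (@Lb.g g10 (@Lb.g g11 (@Lb.r r1707 (@Lb.r r162 (@Lb.r r145 (@Lb.r r1608 (@Lb.d (nat_lit 102) (nat_lit 5) (nat_lit 664) (@Lb.fm (nat_lit 9) t1082)))))))))))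
noncomputable def l10158 : Lb := (@Lb.r r263 (@Lb.d (nat_lit 545) (nat_lit 2) (nat_lit 2) (@Lb.g g8 (@Lb.g g9 (@Lb.g g10 (@Lb.r r1642 (@Lb.r r2627 (@Lb.r r25 (@Lb.d (nat_lit 9) (nat_lit 97) (nat_lit 640) (@Lb.t (@Lb.fp (nat_lit 9) t394)))))))))))
noncomputable def l10159 : Lb := (@Lb.d (nat_lit 9) (nat_lit 257) (nat_lit 128) (@Lb.g g8 (@Lb.g g9 (@Lb.g g10 (@Lb.g g11 (@Lb.r r1707 (@Lb.r r162 (@Lb.r r145 (@Lb.r r1608 (@Lb.d (nat_lit 97) (nat_lit 4) (nat_lit 664) (@Lb.fm (nat_lit 9) t1082)))))))))))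
noncomputable def l10160 : Lb := (@Lb.r r21 (@Lb.d (nat_lit 2) (nat_lit 516) (nat_lit 130) (@Lb.g g8 (@Lb.g g6 (@Lb.g g11 (@Lb.r r2635 (@Lb.r r97 (@Lb.r r2632 (@Lb.d (nat_lit 609) (nat_lit 128) (nat_lit 392) (@Lb.t (@Lb.fm (nat_lit 9) t1082)))))))))))
noncomputable def l10161 : Lb := (@Lb.r r1379 (@Lb.d (nat_lit 0) (nat_lit 261) (nat_lit 0) (@Lb.g g9 (@Lb.g g10 (@Lb.r r98 (@Lb.r r1105 (@Lb.d (nat_lit 0) (nat_lit 133) (nat_lit 0) (@Lb.fm (nat_lit 3) t1379))))))))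
noncomputable def l10162 : Lb := (@Lb.d (nat_lit 32) (nat_lit 0) (nat_lit 9) (@Lb.g g10 (@Lb.r r2667 (@Lb.r r2664 (@Lb.r r1641 (@Lb.r r342 (@Lb.d (nat_lit 86) (nat_lit 22) (nat_lit 674) (@Lb.t (@Lb.fm (nat_lit 3) t2486)))))))))
noncomputable def l10163 : Lb := (@Lb.r r1379 (@Lb.r r162 (@Lb.d (nat_lit 0) (nat_lit 134) (nat_lit 0) (@Lb.fm (nat_lit 1) t697))))
noncomputable def l10164 : Lb := (@Lb.d (nat_lit 0) (nat_lit 133) (nat_lit 2) (@Lb.r r1379 (@Lb.g g6 (@Lb.d (nat_lit 0) (nat_lit 4) (nat_lit 1) (@Lb.t (@Lb.fm (nat_lit 3) t356))))))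
noncomputable def l10165 : Lb := (@Lb.d (nat_lit 128) (nat_lit 32) (nat_lit 136) (@Lb.g g11 (@Lb.r r420 (@Lb.r r2469 (@Lb.r r1446 (@Lb.r r347 (@Lb.d (nat_lit 297) (nat_lit 22) (nat_lit 646) (@Lb.t (@Lb.fp (nat_lit 3) t322)))))))))
noncomputable def l10166 : Lb := (@Lb.r r21 (@Lb.d (nat_lit 1) (nat_lit 520) (nat_lit 130) (@Lb.g g8 (@Lb.g g10 (@Lb.g g11 (@Lb.r r1451 (@Lb.r r2581 (@Lb.r r1384 (@Lb.r r150 (@Lb.d (nat_lit 33) (nat_lit 154) (nat_lit 596) (@Lb.t (@Lb.fm (nat_lit 9) t119))))))))))))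
noncomputable def l10167 : Lb := (@Lb.d (nat_lit 2) (nat_lit 2) (nat_lit 129) (@Lb.g g8 (@Lb.g g9 (@Lb.g g10 (@Lb.g g11 (@Lb.r r578 (@Lb.r r548 (@Lb.r r615 (@Lb.r r533 (@Lb.r r2084 (@Lb.d (nat_lit 144) (nat_lit 9) (nat_lit 329) (@Lb.fm (nat_lit 9) t307))))))))))))
noncomputable def l10168 : Lb := (@Lb.r r21 (@Lb.d (nat_lit 1) (nat_lit 8) (nat_lit 130) (@Lb.g g8 (@Lb.g g10 (@Lb.g g11 (@Lb.r r1451 (@Lb.r r2581 (@Lb.r r1384 (@Lb.r r150 (@Lb.d (nat_lit 33) (nat_lit 149) (nat_lit 598) (@Lb.t (@Lb.fm (nat_lit 9) t119))))))))))))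
noncomputable def l10169 : Lb := (@Lb.r r81 (@Lb.r r323 (@Lb.d (nat_lit 33) (nat_lit 0) (nat_lit 17) (@Lb.g g8 (@Lb.g g6 (@Lb.r r2635 (@Lb.r r105 (@Lb.r r100 (@Lb.d (nat_lit 554) (nat_lit 74) (nat_lit 0) (@Lb.fp (nat_lit 3) t340))))))))))
noncomputable def l10170 : Lb := (@Lb.d (nat_lit 10) (nat_lit 8) (nat_lit 161) (@Lb.g g8 (@Lb.g g6 (@Lb.g g11 (@Lb.r r293 (@Lb.r r2587 (@Lb.r r2584 (@Lb.d (nat_lit 578) (nat_lit 0) (nat_lit 105) (@Lb.t (@Lb.fm (nat_lit 9) t1537))))))))))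
noncomputable def l10171 : Lb := (@Lb.r r82 (@Lb.d (nat_lit 34) (nat_lit 258) (nat_lit 64) (@Lb.g g8 (@Lb.g g9 (@Lb.g g7 (@Lb.r r2409 (@Lb.r r150 (@Lb.r r100 (@Lb.d (nat_lit 26) (nat_lit 90) (nat_lit 281) (@Lb.t (@Lb.fp (nat_lit 9) t2073)))))))))))
noncomputable def l10172 : Lb := (@Lb.r r82 (@Lb.d (nat_lit 41) (nat_lit 514) (nat_lit 0) (@Lb.g g8 (@Lb.g g9 (@Lb.g g11 (@Lb.r r547 (@Lb.r r582 (@Lb.r r153 (@Lb.r r408 (@Lb.d (nat_lit 88) (nat_lit 26) (nat_lit 74) (@Lb.t (@Lb.fm (nat_lit 9) t264))))))))))))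
noncomputable def l10173 : Lb := (@Lb.d (nat_lit 1) (nat_lit 258) (nat_lit 130) (@Lb.g g8 (@Lb.g g9 (@Lb.g g10 (@Lb.g g11 (@Lb.r r610 (@Lb.r r1607 (@Lb.r r2457 (@Lb.r r2436 (@Lb.d (nat_lit 666) (nat_lit 9) (nat_lit 408) (@Lb.fm (nat_lit 9) t2487)))))))))))
noncomputable def l10174 : Lb := (@Lb.d (nat_lit 2) (nat_lit 514) (nat_lit 130) (@Lb.g g8 (@Lb.g g9 (@Lb.g g10 (@Lb.g g11 (@Lb.r r427 (@Lb.r r424 (@Lb.r r106 (@Lb.r r25 (@Lb.d (nat_lit 361) (nat_lit 9) (nat_lit 648) (@Lb.fm (nat_lit 9) t1306)))))))))))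
noncomputable def l10175 : Lb := (@Lb.r r82 (@Lb.d (nat_lit 134) (nat_lit 512) (nat_lit 128) (@Lb.g g8 (@Lb.g g9 (@Lb.g g11 (@Lb.r r1561 (@Lb.r r2584 (@Lb.r r395 (@Lb.r r386 (@Lb.d (nat_lit 598) (nat_lit 134) (nat_lit 528) (@Lb.t (@Lb.fm (nat_lit 9) t442))))))))))))
noncomputable def l10176 : Lb := (@Lb.d (nat_lit 646) (nat_lit 86) (nat_lit 82) (@Lb.r r1301 (@Lb.r r1366 (@Lb.r r683 (@Lb.g g7 (@Lb.g g6 (@Lb.g g5 (@Lb.g g4 (@Lb.d (nat_lit 1) (nat_lit 1) (nat_lit 1) (@Lb.fm (nat_lit 9) t2488))))))))))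
noncomputable def l10177 : Lb := (@Lb.d (nat_lit 648) (nat_lit 84) (nat_lit 18) (@Lb.r r1301 (@Lb.r r1366 (@Lb.r r683 (@Lb.g g6 (@Lb.g g5 (@Lb.g g4 (@Lb.d (nat_lit 1) (nat_lit 6) (nat_lit 2) (@Lb.t (@Lb.fm (nat_lit 9) t578))))))))))
noncomputable def l10178 : Lb := (@Lb.d (nat_lit 2) (nat_lit 353) (nat_lit 8) (@Lb.g g8 (@Lb.g g5 (@Lb.g g10 (@Lb.r r2371 (@Lb.r r2690 (@Lb.r r24 (@Lb.d (nat_lit 10) (nat_lit 10) (nat_lit 532) (@Lb.t (@Lb.fp (nat_lit 9) t40))))))))))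
noncomputable def l10179 : Lb := (@Lb.d (nat_lit 2) (nat_lit 258) (nat_lit 73) (@Lb.g g8 (@Lb.g g9 (@Lb.g g10 (@Lb.g g11 (@Lb.r r2666 (@Lb.r r579 (@Lb.r r97 (@Lb.r r24 (@Lb.d (nat_lit 153) (nat_lit 2) (nat_lit 324) (@Lb.fm (nat_lit 9) t61)))))))))))
noncomputable def l10180 : Lb := (@Lb.d (nat_lit 144) (nat_lit 520) (nat_lit 66) (@Lb.g g8 (@Lb.g g10 (@Lb.g g11 (@Lb.r r651 (@Lb.r r553 (@Lb.r r2696 (@Lb.r r2202 (@Lb.d (nat_lit 2) (nat_lit 21) (nat_lit 40) (@Lb.t (@Lb.fm (nat_lit 9) t2489)))))))))))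
noncomputable def l10181 : Lb := (@Lb.d (nat_lit 2) (nat_lit 514) (nat_lit 73) (@Lb.g g8 (@Lb.g g9 (@Lb.g g10 (@Lb.g g11 (@Lb.r r2691 (@Lb.r r297 (@Lb.r r648 (@Lb.r r666 (@Lb.r r1156 (@Lb.d (nat_lit 645) (nat_lit 40) (nat_lit 137) (@Lb.fp (nat_lit 9) t259))))))))))))
noncomputable def l10182 : Lb := (@Lb.r r21 (@Lb.r r70 (@Lb.d (nat_lit 656) (nat_lit 256) (nat_lit 64) (@Lb.g g4 (@Lb.g g11 (@Lb.r r2711 (@Lb.r r1429 (@Lb.r r1110 (@Lb.d (nat_lit 1) (nat_lit 5) (nat_lit 32) (@Lb.fm (nat_lit 3) t299))))))))))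
noncomputable def l10183 : Lb := (@Lb.d (nat_lit 2) (nat_lit 2) (nat_lit 73) (@Lb.g g8 (@Lb.g g9 (@Lb.g g10 (@Lb.g g11 (@Lb.r r2666 (@Lb.r r579 (@Lb.r r104 (@Lb.r r25 (@Lb.d (nat_lit 402) (nat_lit 85) (nat_lit 593) (@Lb.fp (nat_lit 9) t492)))))))))))
noncomputable def l10184 : Lb := (@Lb.d (nat_lit 4) (nat_lit 0) (nat_lit 73) (@Lb.g g8 (@Lb.g g9 (@Lb.g g10 (@Lb.g g11 (@Lb.r r420 (@Lb.r r603 (@Lb.r r1433 (@Lb.r r1114 (@Lb.r r2068 (@Lb.d (nat_lit 529) (nat_lit 68) (nat_lit 146) (@Lb.fm (nat_lit 9) t787))))))))))))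
noncomputable def l10185 : Lb := (@Lb.d (nat_lit 146) (nat_lit 521) (nat_lit 130) (@Lb.g g8 (@Lb.g g9 (@Lb.g g10 (@Lb.g g11 (@Lb.r r1706 (@Lb.r r1411 (@Lb.r r2201 (@Lb.r r2180 (@Lb.d (nat_lit 554) (nat_lit 153) (nat_lit 169) (@Lb.fm (nat_lit 9) t53)))))))))))
noncomputable def l10186 : Lb := (@Lb.d (nat_lit 554) (nat_lit 646) (nat_lit 2) (@Lb.r r101 (@Lb.r r2403 (@Lb.g g6 (@Lb.d (nat_lit 0) (nat_lit 8) (nat_lit 2) (@Lb.t (@Lb.fp (nat_lit 3) t733)))))))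
noncomputable def l10187 : Lb := (@Lb.d (nat_lit 660) (nat_lit 677) (nat_lit 90) (@Lb.r r680 (@Lb.r r97 (@Lb.r r1387 (@Lb.g g10 (@Lb.g g5 (@Lb.g g4 (@Lb.d (nat_lit 65) (nat_lit 1) (nat_lit 22) (@Lb.t (@Lb.fm (nat_lit 9) t2490))))))))))
noncomputable def l10188 : Lb := (@Lb.r r90 (@Lb.d (nat_lit 262) (nat_lit 264) (nat_lit 128) (@Lb.g g4 (@Lb.g g9 (@Lb.g g11 (@Lb.r r402 (@Lb.r r2659 (@Lb.r r2661 (@Lb.d (nat_lit 133) (nat_lit 18) (nat_lit 256) (@Lb.t (@Lb.fm (nat_lit 9) t343)))))))))))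
noncomputable def l10189 : Lb := (@Lb.d (nat_lit 0) (nat_lit 320) (nat_lit 64) (@Lb.r r2580 (@Lb.r r2329 (@Lb.r r2378 (@Lb.g g7 (@Lb.d (nat_lit 64) (nat_lit 0) (nat_lit 576) (@Lb.t (@Lb.fm (nat_lit 3) t2491))))))))
noncomputable def l10190 : Lb := (@Lb.d (nat_lit 578) (nat_lit 266) (nat_lit 420) (@Lb.r r154 (@Lb.r r660 (@Lb.r r2649 (@Lb.r r1571 (@Lb.g g5 (@Lb.g g4 (@Lb.d (nat_lit 6) (nat_lit 1) (nat_lit 0) (@Lb.fm (nat_lit 3) t2492)))))))))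
noncomputable def l10191 : Lb := (@Lb.d (nat_lit 74) (nat_lit 538) (nat_lit 68) (@Lb.r r405 (@Lb.r r338 (@Lb.r r679 (@Lb.g g7 (@Lb.g g6 (@Lb.g g5 (@Lb.g g8 (@Lb.d (nat_lit 10) (nat_lit 22) (nat_lit 130) (@Lb.fp (nat_lit 9) t30))))))))))
noncomputable def l10192 : Lb := (@Lb.d (nat_lit 2) (nat_lit 514) (nat_lit 66) (@Lb.g g8 (@Lb.g g9 (@Lb.g g10 (@Lb.g g7 (@Lb.r r297 (@Lb.r r104 (@Lb.r r70 (@Lb.r r132 (@Lb.d (nat_lit 129) (nat_lit 90) (nat_lit 265) (@Lb.fm (nat_lit 9) t1190)))))))))))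
noncomputable def l10193 : Lb := (@Lb.r r21 (@Lb.d (nat_lit 2) (nat_lit 512) (nat_lit 130) (@Lb.g g8 (@Lb.g g10 (@Lb.g g11 (@Lb.r r395 (@Lb.r r386 (@Lb.r r145 (@Lb.r r72 (@Lb.d (nat_lit 98) (nat_lit 10) (nat_lit 70) (@Lb.t (@Lb.fm (nat_lit 9) t61))))))))))))
noncomputable def l10194 : Lb := (@Lb.d (nat_lit 2) (nat_lit 258) (nat_lit 130) (@Lb.g g8 (@Lb.g g9 (@Lb.g g10 (@Lb.g g11 (@Lb.r r427 (@Lb.r r386 (@Lb.r r97 (@Lb.r r24 (@Lb.d (nat_lit 610) (nat_lit 0) (nat_lit 84) (@Lb.fm (nat_lit 9) t61)))))))))))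
noncomputable def l10195 : Lb := (@Lb.d (nat_lit 90) (nat_lit 342) (nat_lit 617) (@Lb.r r1320 (@Lb.r r2597 (@Lb.r r1687 (@Lb.g g6 (@Lb.g g5 (@Lb.g g4 (@Lb.d (nat_lit 2) (nat_lit 1) (nat_lit 9) (@Lb.r r391 (@Lb.t (@Lb.fm (nat_lit 9) t2341)))))))))))
noncomputable def l10196 : Lb := (@Lb.d (nat_lit 1) (nat_lit 521) (nat_lit 128) (@Lb.g g8 (@Lb.g g9 (@Lb.g g11 (@Lb.r r138 (@Lb.r r388 (@Lb.r r1323 (@Lb.r r1433 (@Lb.d (nat_lit 273) (nat_lit 70) (nat_lit 385) (@Lb.t (@Lb.fp (nat_lit 9) t982)))))))))))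
noncomputable def l10197 : Lb := (@Lb.r r90 (@Lb.d (nat_lit 8) (nat_lit 513) (nat_lit 128) (@Lb.g g8 (@Lb.g g9 (@Lb.g g11 (@Lb.r r2577 (@Lb.r r1683 (@Lb.r r618 (@Lb.r r2152 (@Lb.d (nat_lit 18) (nat_lit 137) (nat_lit 86) (@Lb.t (@Lb.fm (nat_lit 9) t342))))))))))))
noncomputable def l10198 : Lb := (@Lb.d (nat_lit 328) (nat_lit 353) (nat_lit 64) (@Lb.r r2600 (@Lb.r r1561 (@Lb.r r1691 (@Lb.r r1642 (@Lb.g g5 (@Lb.g g4 (@Lb.d (nat_lit 18) (nat_lit 1) (nat_lit 0) (@Lb.r r98 (@Lb.fm (nat_lit 3) t2147))))))))))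
noncomputable def l10199 : Lb := (@Lb.r r1045 (@Lb.d (nat_lit 128) (nat_lit 256) (nat_lit 73) (@Lb.g g8 (@Lb.g g10 (@Lb.g g11 (@Lb.r r583 (@Lb.r r1674 (@Lb.r r2628 (@Lb.d (nat_lit 384) (nat_lit 0) (nat_lit 34) (@Lb.t (@Lb.fm (nat_lit 9) t2493)))))))))))
noncomputable def l10200 : Lb := (@Lb.r r90 (@Lb.d (nat_lit 8) (nat_lit 1) (nat_lit 128) (@Lb.g g8 (@Lb.g g9 (@Lb.g g11 (@Lb.r r2577 (@Lb.r r1683 (@Lb.r r618 (@Lb.r r2152 (@Lb.d (nat_lit 17) (nat_lit 137) (nat_lit 86) (@Lb.t (@Lb.fm (nat_lit 9) t343))))))))))))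
noncomputable def l10201 : Lb := (@Lb.r r1045 (@Lb.d (nat_lit 128) (nat_lit 0) (nat_lit 73) (@Lb.g g8 (@Lb.g g10 (@Lb.g g11 (@Lb.r r583 (@Lb.r r1674 (@Lb.r r2628 (@Lb.d (nat_lit 389) (nat_lit 1) (nat_lit 34) (@Lb.t (@Lb.fm (nat_lit 9) t2494)))))))))))
noncomputable def l10202 : Lb := (@Lb.d (nat_lit 36) (nat_lit 514) (nat_lit 130) (@Lb.g g8 (@Lb.g g9 (@Lb.g g10 (@Lb.g g11 (@Lb.r r2571 (@Lb.r r405 (@Lb.r r406 (@Lb.r r2596 (@Lb.d (nat_lit 293) (nat_lit 145) (nat_lit 17) (@Lb.fp (nat_lit 9) t2495)))))))))))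
noncomputable def l10203 : Lb := (@Lb.d (nat_lit 0) (nat_lit 274) (nat_lit 576) (@Lb.r r1092 (@Lb.r r330 (@Lb.r r360 (@Lb.r r2579 (@Lb.g g5 (@Lb.d (nat_lit 0) (nat_lit 65) (nat_lit 0) (@Lb.r r291 (@Lb.r r98 (@Lb.t (@Lb.fm (nat_lit 3) t858)))))))))))
noncomputable def l10204 : Lb := (@Lb.d (nat_lit 9) (nat_lit 64) (nat_lit 85) (@Lb.r r97 (@Lb.r r2371 (@Lb.r r662 (@Lb.g g7 (@Lb.g g8 (@Lb.d (nat_lit 352) (nat_lit 0) (nat_lit 128) (@Lb.r r74 (@Lb.r r25 (@Lb.fp (nat_lit 3) t1846))))))))))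
noncomputable def l10205 : Lb := (@Lb.d (nat_lit 128) (nat_lit 512) (nat_lit 73) (@Lb.g g10 (@Lb.g g11 (@Lb.r r260 (@Lb.r r523 (@Lb.r r1189 (@Lb.r r1126 (@Lb.d (nat_lit 344) (nat_lit 136) (nat_lit 145) (@Lb.fm (nat_lit 3) t97)))))))))
noncomputable def l10206 : Lb := (@Lb.d (nat_lit 0) (nat_lit 256) (nat_lit 74) (@Lb.g g10 (@Lb.g g11 (@Lb.r r658 (@Lb.r r2707 (@Lb.r r2626 (@Lb.d (nat_lit 0) (nat_lit 106) (nat_lit 278) (@Lb.fm (nat_lit 3) t334))))))))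
noncomputable def l10207 : Lb := (@Lb.d (nat_lit 256) (nat_lit 257) (nat_lit 85) (@Lb.r r24 (@Lb.r r2138 (@Lb.r r2395 (@Lb.g g7 (@Lb.g g5 (@Lb.d (nat_lit 4) (nat_lit 1) (nat_lit 128) (@Lb.fp (nat_lit 3) t1221))))))))
noncomputable def l10208 : Lb := (@Lb.d (nat_lit 2) (nat_lit 544) (nat_lit 73) (@Lb.g g8 (@Lb.g g10 (@Lb.g g11 (@Lb.r r602 (@Lb.r r600 (@Lb.r r293 (@Lb.r r2587 (@Lb.d (nat_lit 324) (nat_lit 40) (nat_lit 278) (@Lb.t (@Lb.fp (nat_lit 9) t71)))))))))))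
noncomputable def l10209 : Lb := (@Lb.d (nat_lit 130) (nat_lit 265) (nat_lit 0) (@Lb.g g8 (@Lb.g g9 (@Lb.r r394 (@Lb.r r2647 (@Lb.r r1313 (@Lb.r r152 (@Lb.d (nat_lit 26) (nat_lit 138) (nat_lit 386) (@Lb.fm (nat_lit 3) t71)))))))))
noncomputable def l10210 : Lb := (@Lb.d (nat_lit 0) (nat_lit 282) (nat_lit 584) (@Lb.g g9 (@Lb.g g10 (@Lb.g g7 (@Lb.r r1448 (@Lb.r r1130 (@Lb.r r537 (@Lb.d (nat_lit 170) (nat_lit 153) (nat_lit 592) (@Lb.t (@Lb.fm (nat_lit 9) t2153))))))))))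
noncomputable def l10211 : Lb := (@Lb.r r82 (@Lb.r r275 (@Lb.d (nat_lit 5) (nat_lit 264) (nat_lit 0) (@Lb.g g4 (@Lb.g g9 (@Lb.r r2315 (@Lb.r r2138 (@Lb.r r1169 (@Lb.d (nat_lit 530) (nat_lit 74) (nat_lit 34) (@Lb.fp (nat_lit 3) t58))))))))))
noncomputable def l10212 : Lb := (@Lb.d (nat_lit 6) (nat_lit 20) (nat_lit 64) (@Lb.r r260 (@Lb.r r97 (@Lb.r r267 (@Lb.r r404 (@Lb.g g7 (@Lb.g g10 (@Lb.g g5 (@Lb.g g4 (@Lb.d (nat_lit 18) (nat_lit 8) (nat_lit 129) (@Lb.fp (nat_lit 9) t983)))))))))))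
noncomputable def l10213 : Lb := (@Lb.d (nat_lit 64) (nat_lit 534) (nat_lit 70) (@Lb.r r405 (@Lb.r r402 (@Lb.r r615 (@Lb.g g7 (@Lb.g g5 (@Lb.g g8 (@Lb.d (nat_lit 10) (nat_lit 21) (nat_lit 128) (@Lb.r r98 (@Lb.t (@Lb.fm (nat_lit 9) t35)))))))))))
noncomputable def l10214 : Lb := (@Lb.d (nat_lit 536) (nat_lit 665) (nat_lit 356) (@Lb.r r2457 (@Lb.r r2454 (@Lb.r r1635 (@Lb.g g7 (@Lb.g g5 (@Lb.g g4 (@Lb.d (nat_lit 1) (nat_lit 22) (nat_lit 128) (@Lb.r r98 (@Lb.t (@Lb.fp (nat_lit 9) t2248)))))))))))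
noncomputable def l10215 : Lb := (@Lb.d (nat_lit 0) (nat_lit 256) (nat_lit 128) (@Lb.g g10 (@Lb.g g11 (@Lb.r r387 (@Lb.r r402 (@Lb.r r101 (@Lb.d (nat_lit 5) (nat_lit 129) (nat_lit 0) (@Lb.fm (nat_lit 3) t240))))))))
noncomputable def l10216 : Lb := (@Lb.d (nat_lit 0) (nat_lit 8) (nat_lit 130) (@Lb.g g9 (@Lb.g g10 (@Lb.g g11 (@Lb.r r2403 (@Lb.r r418 (@Lb.r r1369 (@Lb.r r24 (@Lb.d (nat_lit 672) (nat_lit 0) (nat_lit 674) (@Lb.t (@Lb.fm (nat_lit 9) t200)))))))))))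
noncomputable def l10217 : Lb := (@Lb.d (nat_lit 0) (nat_lit 521) (nat_lit 1) (@Lb.g g9 (@Lb.g g10 (@Lb.r r1555 (@Lb.r r293 (@Lb.r r2708 (@Lb.r r2630 (@Lb.d (nat_lit 418) (nat_lit 10) (nat_lit 356) (@Lb.fm (nat_lit 3) t249)))))))))
noncomputable def l10218 : Lb := (@Lb.d (nat_lit 2) (nat_lit 521) (nat_lit 130) (@Lb.g g8 (@Lb.g g9 (@Lb.g g10 (@Lb.g g11 (@Lb.r r2731 (@Lb.r r680 (@Lb.r r2186 (@Lb.r r97 (@Lb.r r1060 (@Lb.d (nat_lit 534) (nat_lit 102) (nat_lit 673) (@Lb.fp (nat_lit 9) t2496))))))))))))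
noncomputable def l10219 : Lb := (@Lb.d (nat_lit 545) (nat_lit 612) (nat_lit 69) (@Lb.r r613 (@Lb.r r2666 (@Lb.r r679 (@Lb.g g7 (@Lb.g g6 (@Lb.g g5 (@Lb.g g8 (@Lb.d (nat_lit 10) (nat_lit 24) (nat_lit 74) (@Lb.fm (nat_lit 9) t2497))))))))))
noncomputable def l10220 : Lb := (@Lb.d (nat_lit 2) (nat_lit 265) (nat_lit 1) (@Lb.g g8 (@Lb.g g9 (@Lb.g g10 (@Lb.r r1555 (@Lb.r r297 (@Lb.r r1384 (@Lb.r r2630 (@Lb.d (nat_lit 145) (nat_lit 10) (nat_lit 326) (@Lb.t (@Lb.fp (nat_lit 9) t2498)))))))))))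
noncomputable def l10221 : Lb := (@Lb.d (nat_lit 32) (nat_lit 264) (nat_lit 130) (@Lb.g g10 (@Lb.g g11 (@Lb.r r361 (@Lb.r r2711 (@Lb.r r1352 (@Lb.r r1382 (@Lb.d (nat_lit 346) (nat_lit 132) (nat_lit 405) (@Lb.fp (nat_lit 3) t71)))))))))
noncomputable def l10222 : Lb := (@Lb.r r323 (@Lb.d (nat_lit 2) (nat_lit 514) (nat_lit 1) (@Lb.g g8 (@Lb.g g9 (@Lb.g g6 (@Lb.r r2667 (@Lb.r r97 (@Lb.r r24 (@Lb.d (nat_lit 266) (nat_lit 9) (nat_lit 36) (@Lb.t (@Lb.fm (nat_lit 9) t592)))))))))))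
noncomputable def l10223 : Lb := (@Lb.r r21 (@Lb.d (nat_lit 1) (nat_lit 264) (nat_lit 130) (@Lb.g g8 (@Lb.g g10 (@Lb.g g11 (@Lb.r r1451 (@Lb.r r2581 (@Lb.r r1384 (@Lb.r r150 (@Lb.d (nat_lit 38) (nat_lit 26) (nat_lit 596) (@Lb.t (@Lb.fm (nat_lit 9) t119))))))))))))
noncomputable def l10224 : Lb := (@Lb.r r21 (@Lb.r r70 (@Lb.d (nat_lit 390) (nat_lit 256) (nat_lit 64) (@Lb.g g4 (@Lb.g g11 (@Lb.r r519 (@Lb.r r74 (@Lb.r r25 (@Lb.d (nat_lit 649) (nat_lit 0) (nat_lit 64) (@Lb.fm (nat_lit 3) t1435))))))))))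
noncomputable def l10225 : Lb := (@Lb.r r21 (@Lb.d (nat_lit 1) (nat_lit 0) (nat_lit 73) (@Lb.g g8 (@Lb.g g10 (@Lb.g g11 (@Lb.r r602 (@Lb.r r579 (@Lb.r r1112 (@Lb.r r37 (@Lb.d (nat_lit 418) (nat_lit 69) (nat_lit 342) (@Lb.t (@Lb.fp (nat_lit 9) t61))))))))))))
noncomputable def l10226 : Lb := (@Lb.d (nat_lit 4) (nat_lit 258) (nat_lit 73) (@Lb.g g8 (@Lb.g g9 (@Lb.g g10 (@Lb.g g11 (@Lb.r r618 (@Lb.r r579 (@Lb.r r1121 (@Lb.r r24 (@Lb.d (nat_lit 152) (nat_lit 137) (nat_lit 342) (@Lb.fm (nat_lit 9) t61)))))))))))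
noncomputable def l10227 : Lb := (@Lb.r r323 (@Lb.d (nat_lit 2) (nat_lit 514) (nat_lit 2) (@Lb.g g8 (@Lb.g g9 (@Lb.g g10 (@Lb.r r2210 (@Lb.r r2600 (@Lb.r r2713 (@Lb.r r1555 (@Lb.d (nat_lit 89) (nat_lit 10) (nat_lit 297) (@Lb.t (@Lb.fp (nat_lit 9) t331))))))))))))
noncomputable def l10228 : Lb := (@Lb.d (nat_lit 2) (nat_lit 290) (nat_lit 0) (@Lb.g g8 (@Lb.g g9 (@Lb.r r356 (@Lb.r r1307 (@Lb.r r2178 (@Lb.r r1573 (@Lb.d (nat_lit 664) (nat_lit 146) (nat_lit 584) (@Lb.fm (nat_lit 3) t307)))))))))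
noncomputable def l10229 : Lb := (@Lb.d (nat_lit 2) (nat_lit 550) (nat_lit 10) (@Lb.g g8 (@Lb.g g9 (@Lb.g g10 (@Lb.g g11 (@Lb.r r619 (@Lb.r r1610 (@Lb.r r2088 (@Lb.r r2201 (@Lb.d (nat_lit 665) (nat_lit 37) (nat_lit 529) (@Lb.fp (nat_lit 9) t658)))))))))))
noncomputable def l10230 : Lb := (@Lb.d (nat_lit 2) (nat_lit 258) (nat_lit 73) (@Lb.g g8 (@Lb.g g9 (@Lb.g g10 (@Lb.g g11 (@Lb.r r2691 (@Lb.r r297 (@Lb.r r648 (@Lb.r r666 (@Lb.r r1156 (@Lb.d (nat_lit 640) (nat_lit 168) (nat_lit 73) (@Lb.fp (nat_lit 9) t1115))))))))))))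
noncomputable def l10231 : Lb := (@Lb.r r21 (@Lb.r r323 (@Lb.d (nat_lit 129) (nat_lit 516) (nat_lit 2) (@Lb.g g8 (@Lb.g g10 (@Lb.r r2631 (@Lb.r r145 (@Lb.r r1432 (@Lb.d (nat_lit 664) (nat_lit 101) (nat_lit 598) (@Lb.fm (nat_lit 3) t119))))))))))
noncomputable def l10232 : Lb := (@Lb.d (nat_lit 2) (nat_lit 258) (nat_lit 64) (@Lb.g g8 (@Lb.g g9 (@Lb.g g11 (@Lb.r r356 (@Lb.r r1307 (@Lb.r r2178 (@Lb.r r533 (@Lb.r r2084 (@Lb.d (nat_lit 144) (nat_lit 129) (nat_lit 328) (@Lb.t (@Lb.fp (nat_lit 9) t307))))))))))))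
noncomputable def l10233 : Lb := (@Lb.d (nat_lit 2) (nat_lit 4) (nat_lit 74) (@Lb.g g8 (@Lb.g g9 (@Lb.g g10 (@Lb.g g11 (@Lb.r r619 (@Lb.r r1610 (@Lb.r r660 (@Lb.r r425 (@Lb.r r2084 (@Lb.d (nat_lit 277) (nat_lit 104) (nat_lit 617) (@Lb.fp (nat_lit 9) t658))))))))))))
noncomputable def l10234 : Lb := (@Lb.d (nat_lit 278) (nat_lit 16) (nat_lit 17) (@Lb.r r297 (@Lb.r r420 (@Lb.r r422 (@Lb.g g11 (@Lb.g g5 (@Lb.d (nat_lit 4) (nat_lit 1) (nat_lit 392) (@Lb.r r98 (@Lb.fp (nat_lit 3) t2499)))))))))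
noncomputable def l10235 : Lb := (@Lb.d (nat_lit 138) (nat_lit 166) (nat_lit 609) (@Lb.r r2663 (@Lb.r r601 (@Lb.r r24 (@Lb.r r342 (@Lb.g g7 (@Lb.g g6 (@Lb.g g5 (@Lb.d (nat_lit 68) (nat_lit 1) (nat_lit 65) (@Lb.t (@Lb.fp (nat_lit 9) t1913)))))))))))
noncomputable def l10236 : Lb := (@Lb.d (nat_lit 164) (nat_lit 421) (nat_lit 608) (@Lb.r r2645 (@Lb.r r134 (@Lb.r r2583 (@Lb.g g5 (@Lb.g g4 (@Lb.d (nat_lit 1) (nat_lit 17) (nat_lit 0) (@Lb.fm (nat_lit 3) t1419))))))))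
noncomputable def l10237 : Lb := (@Lb.d (nat_lit 1) (nat_lit 165) (nat_lit 70) (@Lb.r r342 (@Lb.r r644 (@Lb.r r2583 (@Lb.r r1313 (@Lb.g g7 (@Lb.g g6 (@Lb.g g4 (@Lb.d (nat_lit 1) (nat_lit 20) (nat_lit 65) (@Lb.t (@Lb.fp (nat_lit 9) t842)))))))))))
noncomputable def l10238 : Lb := (@Lb.d (nat_lit 32) (nat_lit 33) (nat_lit 4) (@Lb.g g9 (@Lb.g g10 (@Lb.g g11 (@Lb.r r1703 (@Lb.r r1685 (@Lb.r r100 (@Lb.r r410 (@Lb.d (nat_lit 345) (nat_lit 25) (nat_lit 517) (@Lb.t (@Lb.fm (nat_lit 9) t74)))))))))))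
noncomputable def l10239 : Lb := (@Lb.d (nat_lit 32) (nat_lit 256) (nat_lit 4) (@Lb.g g10 (@Lb.g g11 (@Lb.r r545 (@Lb.r r299 (@Lb.r r100 (@Lb.r r410 (@Lb.d (nat_lit 138) (nat_lit 26) (nat_lit 168) (@Lb.fm (nat_lit 3) t167)))))))))
noncomputable def l10240 : Lb := (@Lb.d (nat_lit 2) (nat_lit 258) (nat_lit 73) (@Lb.g g8 (@Lb.g g9 (@Lb.g g10 (@Lb.g g11 (@Lb.r r427 (@Lb.r r420 (@Lb.r r102 (@Lb.r r21 (@Lb.r r36 (@Lb.d (nat_lit 516) (nat_lit 6) (nat_lit 168) (@Lb.fp (nat_lit 9) t221))))))))))))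
noncomputable def l10241 : Lb := (@Lb.d (nat_lit 128) (nat_lit 0) (nat_lit 384) (@Lb.g g11 (@Lb.r r1606 (@Lb.d (nat_lit 256) (nat_lit 0) (nat_lit 384) (@Lb.t (@Lb.fp (nat_lit 3) t441))))))
noncomputable def l10242 : Lb := (@Lb.r r21 (@Lb.d (nat_lit 2) (nat_lit 512) (nat_lit 136) (@Lb.g g8 (@Lb.g g11 (@Lb.r r2580 (@Lb.r r25 (@Lb.d (nat_lit 328) (nat_lit 169) (nat_lit 385) (@Lb.fm (nat_lit 3) t1726))))))))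
noncomputable def l10243 : Lb := (@Lb.r r21 (@Lb.d (nat_lit 2) (nat_lit 256) (nat_lit 136) (@Lb.g g8 (@Lb.g g11 (@Lb.r r2580 (@Lb.r r25 (@Lb.d (nat_lit 328) (nat_lit 162) (nat_lit 386) (@Lb.fm (nat_lit 3) t1135))))))))
noncomputable def l10244 : Lb := (@Lb.r r323 (@Lb.d (nat_lit 2) (nat_lit 9) (nat_lit 0) (@Lb.g g8 (@Lb.g g9 (@Lb.g g6 (@Lb.r r2347 (@Lb.r r97 (@Lb.r r24 (@Lb.d (nat_lit 266) (nat_lit 9) (nat_lit 2) (@Lb.t (@Lb.fp (nat_lit 9) t2500)))))))))))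
noncomputable def l10245 : Lb := (@Lb.d (nat_lit 261) (nat_lit 64) (nat_lit 1) (@Lb.r r24 (@Lb.r r101 (@Lb.r r2403 (@Lb.g g6 (@Lb.d (nat_lit 0) (nat_lit 4) (nat_lit 1) (@Lb.t (@Lb.fm (nat_lit 3) t58))))))))
noncomputable def l10246 : Lb := (@Lb.d (nat_lit 136) (nat_lit 520) (nat_lit 128) (@Lb.g g9 (@Lb.g g11 (@Lb.r r2202 (@Lb.r r260 (@Lb.r r1691 (@Lb.r r337 (@Lb.d (nat_lit 73) (nat_lit 85) (nat_lit 548) (@Lb.fm (nat_lit 3) t322)))))))))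
noncomputable def l10247 : Lb := (@Lb.d (nat_lit 2) (nat_lit 514) (nat_lit 128) (@Lb.g g8 (@Lb.g g9 (@Lb.g g10 (@Lb.g g11 (@Lb.r r1639 (@Lb.r r297 (@Lb.r r1348 (@Lb.r r2666 (@Lb.d (nat_lit 660) (nat_lit 149) (nat_lit 70) (@Lb.fp (nat_lit 9) t91)))))))))))
noncomputable def l10248 : Lb := (@Lb.d (nat_lit 4) (nat_lit 0) (nat_lit 130) (@Lb.g g8 (@Lb.g g9 (@Lb.g g10 (@Lb.g g11 (@Lb.r r1435 (@Lb.r r145 (@Lb.r r2646 (@Lb.r r1416 (@Lb.d (nat_lit 392) (nat_lit 9) (nat_lit 402) (@Lb.fm (nat_lit 9) t1634)))))))))))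
noncomputable def l10249 : Lb := (@Lb.d (nat_lit 298) (nat_lit 357) (nat_lit 72) (@Lb.r r1114 (@Lb.r r1096 (@Lb.r r297 (@Lb.r r1363 (@Lb.g g7 (@Lb.g g5 (@Lb.d (nat_lit 0) (nat_lit 1) (nat_lit 64) (@Lb.fm (nat_lit 3) t1189)))))))))
noncomputable def l10250 : Lb := (@Lb.r r21 (@Lb.r r322 (@Lb.d (nat_lit 129) (nat_lit 288) (nat_lit 128) (@Lb.g g8 (@Lb.g g11 (@Lb.r r1381 (@Lb.r r146 (@Lb.r r2648 (@Lb.d (nat_lit 660) (nat_lit 170) (nat_lit 358) (@Lb.fp (nat_lit 3) t2501))))))))))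
noncomputable def l10251 : Lb := (@Lb.r r21 (@Lb.r r263 (@Lb.d (nat_lit 548) (nat_lit 8) (nat_lit 2) (@Lb.g g4 (@Lb.g g10 (@Lb.r r1427 (@Lb.r r97 (@Lb.d (nat_lit 1) (nat_lit 73) (nat_lit 34) (@Lb.fm (nat_lit 3) t2502)))))))))
noncomputable def l10252 : Lb := (@Lb.d (nat_lit 0) (nat_lit 0) (nat_lit 136) (@Lb.g g11 (@Lb.r r402 (@Lb.r r1379 (@Lb.r r101 (@Lb.d (nat_lit 132) (nat_lit 18) (nat_lit 384) (@Lb.t (@Lb.fp (nat_lit 3) t1163))))))))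
noncomputable def l10253 : Lb := (@Lb.r r21 (@Lb.d (nat_lit 1) (nat_lit 0) (nat_lit 130) (@Lb.g g8 (@Lb.g g10 (@Lb.g g11 (@Lb.r r395 (@Lb.r r386 (@Lb.r r97 (@Lb.r r72 (@Lb.d (nat_lit 593) (nat_lit 10) (nat_lit 85) (@Lb.t (@Lb.fp (nat_lit 9) t61))))))))))))
noncomputable def l10254 : Lb := (@Lb.d (nat_lit 129) (nat_lit 514) (nat_lit 66) (@Lb.g g8 (@Lb.g g9 (@Lb.g g10 (@Lb.g g11 (@Lb.r r427 (@Lb.r r386 (@Lb.r r97 (@Lb.r r1604 (@Lb.d (nat_lit 4) (nat_lit 160) (nat_lit 100) (@Lb.fp (nat_lit 9) t411)))))))))))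
noncomputable def l10255 : Lb := (@Lb.d (nat_lit 1) (nat_lit 258) (nat_lit 130) (@Lb.g g8 (@Lb.g g9 (@Lb.g g10 (@Lb.g g11 (@Lb.r r427 (@Lb.r r386 (@Lb.r r97 (@Lb.r r24 (@Lb.d (nat_lit 617) (nat_lit 9) (nat_lit 86) (@Lb.fm (nat_lit 9) t61)))))))))))
noncomputable def l10256 : Lb := (@Lb.d (nat_lit 0) (nat_lit 2) (nat_lit 128) (@Lb.g g9 (@Lb.g g10 (@Lb.g g11 (@Lb.r r1671 (@Lb.r r1685 (@Lb.r r2404 (@Lb.r r1178 (@Lb.d (nat_lit 22) (nat_lit 73) (nat_lit 18) (@Lb.t (@Lb.fm (nat_lit 9) t646)))))))))))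
noncomputable def l10257 : Lb := (@Lb.d (nat_lit 354) (nat_lit 336) (nat_lit 134) (@Lb.r r1105 (@Lb.r r1378 (@Lb.r r85 (@Lb.r r2691 (@Lb.g g7 (@Lb.g g6 (@Lb.g g5 (@Lb.g g4 (@Lb.d (nat_lit 6) (nat_lit 2) (nat_lit 134) (@Lb.fm (nat_lit 9) t2503)))))))))))
noncomputable def l10258 : Lb := (@Lb.d (nat_lit 8) (nat_lit 0) (nat_lit 128) (@Lb.g g9 (@Lb.g g10 (@Lb.g g11 (@Lb.r r423 (@Lb.r r1096 (@Lb.r r1622 (@Lb.r r1433 (@Lb.d (nat_lit 666) (nat_lit 148) (nat_lit 18) (@Lb.t (@Lb.fp (nat_lit 9) t2503)))))))))))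
noncomputable def l10259 : Lb := (@Lb.d (nat_lit 273) (nat_lit 42) (nat_lit 0) (@Lb.g g4 (@Lb.g g9 (@Lb.r r403 (@Lb.r r1426 (@Lb.r r1617 (@Lb.d (nat_lit 1) (nat_lit 132) (nat_lit 410) (@Lb.fm (nat_lit 3) t430))))))))
noncomputable def l10260 : Lb := (@Lb.d (nat_lit 0) (nat_lit 258) (nat_lit 128) (@Lb.g g9 (@Lb.g g10 (@Lb.g g11 (@Lb.r r1671 (@Lb.r r1685 (@Lb.r r2404 (@Lb.r r1178 (@Lb.d (nat_lit 17) (nat_lit 72) (nat_lit 18) (@Lb.t (@Lb.fm (nat_lit 9) t646)))))))))))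
noncomputable def l10261 : Lb := (@Lb.d (nat_lit 2) (nat_lit 0) (nat_lit 130) (@Lb.g g8 (@Lb.g g9 (@Lb.g g10 (@Lb.g g11 (@Lb.r r1451 (@Lb.r r409 (@Lb.r r2138 (@Lb.r r1169 (@Lb.d (nat_lit 516) (nat_lit 8) (nat_lit 18) (@Lb.fp (nat_lit 9) t221)))))))))))
noncomputable def l10262 : Lb := (@Lb.r r21 (@Lb.d (nat_lit 2) (nat_lit 512) (nat_lit 74) (@Lb.g g8 (@Lb.g g10 (@Lb.g g11 (@Lb.r r2699 (@Lb.r r2692 (@Lb.r r2198 (@Lb.r r97 (@Lb.d (nat_lit 521) (nat_lit 97) (nat_lit 128) (@Lb.t (@Lb.fp (nat_lit 9) t51))))))))))))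
noncomputable def l10263 : Lb := (@Lb.d (nat_lit 33) (nat_lit 258) (nat_lit 73) (@Lb.g g8 (@Lb.g g9 (@Lb.g g10 (@Lb.g g11 (@Lb.r r2731 (@Lb.r r2724 (@Lb.r r2182 (@Lb.r r97 (@Lb.d (nat_lit 545) (nat_lit 41) (nat_lit 145) (@Lb.fm (nat_lit 9) t622)))))))))))
noncomputable def l10264 : Lb := (@Lb.d (nat_lit 33) (nat_lit 4) (nat_lit 74) (@Lb.g g8 (@Lb.g g9 (@Lb.g g10 (@Lb.g g11 (@Lb.r r2731 (@Lb.r r2724 (@Lb.r r2182 (@Lb.r r97 (@Lb.d (nat_lit 545) (nat_lit 41) (nat_lit 145) (@Lb.fm (nat_lit 9) t546)))))))))))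
noncomputable def l10265 : Lb := (@Lb.d (nat_lit 0) (nat_lit 513) (nat_lit 138) (@Lb.r r24 (@Lb.g g11 (@Lb.g g10 (@Lb.g g5 (@Lb.d (nat_lit 4) (nat_lit 1) (nat_lit 0) (@Lb.t (@Lb.fm (nat_lit 9) t2))))))))
noncomputable def l10266 : Lb := (@Lb.d (nat_lit 0) (nat_lit 512) (nat_lit 66) (@Lb.g g10 (@Lb.g g11 (@Lb.r r2698 (@Lb.r r2692 (@Lb.r r2567 (@Lb.r r409 (@Lb.d (nat_lit 33) (nat_lit 5) (nat_lit 384) (@Lb.fm (nat_lit 3) t1087)))))))))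
noncomputable def l10267 : Lb := (@Lb.r r24 (@Lb.r r101 (@Lb.d (nat_lit 0) (nat_lit 258) (nat_lit 136) (@Lb.fp (nat_lit 1) t87))))
noncomputable def l10268 : Lb := (@Lb.d (nat_lit 34) (nat_lit 4) (nat_lit 74) (@Lb.g g8 (@Lb.g g9 (@Lb.g g10 (@Lb.g g11 (@Lb.r r2690 (@Lb.r r2455 (@Lb.r r97 (@Lb.r r1560 (@Lb.d (nat_lit 616) (nat_lit 105) (nat_lit 657) (@Lb.fm (nat_lit 9) t2179)))))))))))
noncomputable def l10269 : Lb := (@Lb.d (nat_lit 33) (nat_lit 260) (nat_lit 74) (@Lb.g g8 (@Lb.g g9 (@Lb.g g10 (@Lb.g g11 (@Lb.r r2690 (@Lb.r r2455 (@Lb.r r97 (@Lb.r r1560 (@Lb.d (nat_lit 616) (nat_lit 105) (nat_lit 657) (@Lb.fm (nat_lit 9) t2179)))))))))))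
noncomputable def l10270 : Lb := (@Lb.d (nat_lit 0) (nat_lit 256) (nat_lit 128) (@Lb.g g10 (@Lb.g g11 (@Lb.r r387 (@Lb.r r1414 (@Lb.r r24 (@Lb.r r2069 (@Lb.r r36 (@Lb.d (nat_lit 0) (nat_lit 4) (nat_lit 2) (@Lb.fm (nat_lit 3) t354))))))))))
noncomputable def l10271 : Lb := (@Lb.r r21 (@Lb.d (nat_lit 2) (nat_lit 0) (nat_lit 130) (@Lb.g g8 (@Lb.g g10 (@Lb.g g11 (@Lb.r r395 (@Lb.r r597 (@Lb.r r98 (@Lb.r r408 (@Lb.d (nat_lit 165) (nat_lit 18) (nat_lit 17) (@Lb.t (@Lb.fp (nat_lit 9) t1149))))))))))))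
noncomputable def l10272 : Lb := (@Lb.d (nat_lit 1) (nat_lit 512) (nat_lit 0) (@Lb.r r21 (@Lb.r r322 (@Lb.r r1415 (@Lb.r r386 (@Lb.g g4 (@Lb.d (nat_lit 513) (nat_lit 0) (nat_lit 0) (@Lb.r r25 (@Lb.t (@Lb.fp (nat_lit 3) t68))))))))))
noncomputable def l10273 : Lb := (@Lb.r r21 (@Lb.d (nat_lit 16) (nat_lit 256) (nat_lit 74) (@Lb.g g8 (@Lb.g g10 (@Lb.g g11 (@Lb.r r2471 (@Lb.r r2401 (@Lb.r r1170 (@Lb.r r2116 (@Lb.d (nat_lit 549) (nat_lit 72) (nat_lit 1) (@Lb.t (@Lb.fm (nat_lit 9) t1028))))))))))))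
noncomputable def l10274 : Lb := (@Lb.d (nat_lit 2) (nat_lit 2) (nat_lit 130) (@Lb.g g8 (@Lb.g g9 (@Lb.g g10 (@Lb.g g11 (@Lb.r r1299 (@Lb.r r2705 (@Lb.r r2646 (@Lb.r r1416 (@Lb.d (nat_lit 90) (nat_lit 1) (nat_lit 618) (@Lb.fm (nat_lit 9) t441)))))))))))
noncomputable def l10275 : Lb := (@Lb.d (nat_lit 34) (nat_lit 22) (nat_lit 72) (@Lb.r r134 (@Lb.r r600 (@Lb.r r267 (@Lb.g g5 (@Lb.g g4 (@Lb.d (nat_lit 65) (nat_lit 25) (nat_lit 0) (@Lb.fm (nat_lit 3) t546))))))))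
noncomputable def l10276 : Lb := (@Lb.d (nat_lit 138) (nat_lit 0) (nat_lit 1) (@Lb.g g8 (@Lb.g g10 (@Lb.r r346 (@Lb.r r661 (@Lb.r r1431 (@Lb.r r2644 (@Lb.d (nat_lit 662) (nat_lit 37) (nat_lit 258) (@Lb.fm (nat_lit 3) t71)))))))))
noncomputable def l10277 : Lb := (@Lb.d (nat_lit 2) (nat_lit 2) (nat_lit 73) (@Lb.g g8 (@Lb.g g9 (@Lb.g g10 (@Lb.g g11 (@Lb.r r148 (@Lb.r r102 (@Lb.r r357 (@Lb.r r667 (@Lb.r r644 (@Lb.d (nat_lit 4) (nat_lit 1) (nat_lit 74) (@Lb.fp (nat_lit 9) t2))))))))))))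
noncomputable def l10278 : Lb := (@Lb.d (nat_lit 128) (nat_lit 1) (nat_lit 1) (@Lb.g g8 (@Lb.g g9 (@Lb.g g10 (@Lb.r r362 (@Lb.r r361 (@Lb.r r1431 (@Lb.r r2644 (@Lb.d (nat_lit 662) (nat_lit 37) (nat_lit 642) (@Lb.t (@Lb.fp (nat_lit 9) t71)))))))))))
noncomputable def l10279 : Lb := (@Lb.g g6 (@Lb.r r579 (@Lb.d (nat_lit 0) (nat_lit 0) (nat_lit 16) (@Lb.t (@Lb.fp (nat_lit 3) t2)))))
noncomputable def l10280 : Lb := (@Lb.d (nat_lit 0) (nat_lit 256) (nat_lit 64) (@Lb.g g7 (@Lb.d (nat_lit 0) (nat_lit 0) (nat_lit 69) (@Lb.t (@Lb.fm (nat_lit 3) t2)))))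
noncomputable def l10281 : Lb := (@Lb.r r82 (@Lb.d (nat_lit 9) (nat_lit 649) (nat_lit 128) (@Lb.g g8 (@Lb.g g5 (@Lb.g g11 (@Lb.r r532 (@Lb.r r2311 (@Lb.r r98 (@Lb.r r1540 (@Lb.d (nat_lit 2) (nat_lit 164) (nat_lit 674) (@Lb.t (@Lb.fp (nat_lit 9) t1038))))))))))))
noncomputable def l10282 : Lb := (@Lb.d (nat_lit 0) (nat_lit 256) (nat_lit 64) (@Lb.g g7 (@Lb.d (nat_lit 608) (nat_lit 0) (nat_lit 676) (@Lb.t (@Lb.fm (nat_lit 3) t698)))))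
noncomputable def l10283 : Lb := (@Lb.d (nat_lit 534) (nat_lit 513) (nat_lit 22) (@Lb.r r20 (@Lb.r r2153 (@Lb.r r386 (@Lb.g g11 (@Lb.g g6 (@Lb.g g5 (@Lb.g g4 (@Lb.d (nat_lit 1) (nat_lit 1) (nat_lit 129) (@Lb.fm (nat_lit 9) t51))))))))))
noncomputable def l10284 : Lb := (@Lb.g g7 (@Lb.r r24 (@Lb.r r101 (@Lb.d (nat_lit 0) (nat_lit 645) (nat_lit 0) (@Lb.t (@Lb.fm (nat_lit 3) t126))))))
noncomputable def l10285 : Lb := (@Lb.r r21 (@Lb.d (nat_lit 130) (nat_lit 260) (nat_lit 9) (@Lb.g g8 (@Lb.g g6 (@Lb.r r2439 (@Lb.r r97 (@Lb.r r1608 (@Lb.d (nat_lit 609) (nat_lit 128) (nat_lit 680) (@Lb.fp (nat_lit 3) t51)))))))))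
noncomputable def l10286 : Lb := (@Lb.r r21 (@Lb.d (nat_lit 129) (nat_lit 260) (nat_lit 9) (@Lb.g g8 (@Lb.g g6 (@Lb.r r2439 (@Lb.r r97 (@Lb.r r1608 (@Lb.d (nat_lit 610) (nat_lit 128) (nat_lit 680) (@Lb.fp (nat_lit 3) t51)))))))))
noncomputable def l10287 : Lb := (@Lb.r r21 (@Lb.r r70 (@Lb.d (nat_lit 2) (nat_lit 256) (nat_lit 64) (@Lb.g g8 (@Lb.g g7 (@Lb.r r582 (@Lb.r r533 (@Lb.r r264 (@Lb.d (nat_lit 673) (nat_lit 0) (nat_lit 612) (@Lb.fm (nat_lit 3) t2504))))))))))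
noncomputable def l10288 : Lb := (@Lb.d (nat_lit 70) (nat_lit 545) (nat_lit 133) (@Lb.r r597 (@Lb.r r599 (@Lb.r r264 (@Lb.r r166 (@Lb.g g7 (@Lb.g g6 (@Lb.g g5 (@Lb.d (nat_lit 68) (nat_lit 1) (nat_lit 129) (@Lb.t (@Lb.fm (nat_lit 9) t145)))))))))))
noncomputable def l10289 : Lb := (@Lb.d (nat_lit 0) (nat_lit 33) (nat_lit 4) (@Lb.g g9 (@Lb.g g10 (@Lb.g g11 (@Lb.r r679 (@Lb.r r610 (@Lb.r r529 (@Lb.d (nat_lit 97) (nat_lit 41) (nat_lit 129) (@Lb.t (@Lb.fp (nat_lit 9) t175))))))))))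
noncomputable def l10290 : Lb := (@Lb.d (nat_lit 2) (nat_lit 258) (nat_lit 130) (@Lb.g g8 (@Lb.g g9 (@Lb.g g10 (@Lb.g g11 (@Lb.r r610 (@Lb.r r612 (@Lb.r r359 (@Lb.r r277 (@Lb.r r548 (@Lb.d (nat_lit 282) (nat_lit 9) (nat_lit 146) (@Lb.fp (nat_lit 9) t505))))))))))))
noncomputable def l10291 : Lb := (@Lb.r r2331 (@Lb.r r613 (@Lb.r r82 (@Lb.r r2193 (@Lb.d (nat_lit 256) (nat_lit 512) (nat_lit 37) (@Lb.fm (nat_lit 1) t2505))))))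
noncomputable def l10292 : Lb := (@Lb.r r283 (@Lb.d (nat_lit 1) (nat_lit 258) (nat_lit 2) (@Lb.g g8 (@Lb.g g9 (@Lb.g g10 (@Lb.r r354 (@Lb.r r2475 (@Lb.r r297 (@Lb.r r1300 (@Lb.d (nat_lit 88) (nat_lit 26) (nat_lit 400) (@Lb.t (@Lb.fp (nat_lit 9) t2506))))))))))))
noncomputable def l10293 : Lb := (@Lb.d (nat_lit 2) (nat_lit 2) (nat_lit 130) (@Lb.g g8 (@Lb.g g9 (@Lb.g g10 (@Lb.g g11 (@Lb.r r427 (@Lb.r r145 (@Lb.r r356 (@Lb.r r154 (@Lb.r r132 (@Lb.d (nat_lit 282) (nat_lit 9) (nat_lit 34) (@Lb.fm (nat_lit 9) t61))))))))))))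
noncomputable def l10294 : Lb := (@Lb.d (nat_lit 1) (nat_lit 258) (nat_lit 130) (@Lb.g g8 (@Lb.g g9 (@Lb.g g10 (@Lb.g g11 (@Lb.r r427 (@Lb.r r388 (@Lb.r r2134 (@Lb.r r145 (@Lb.r r1060 (@Lb.d (nat_lit 289) (nat_lit 169) (nat_lit 401) (@Lb.fp (nat_lit 9) t791))))))))))))
noncomputable def l10295 : Lb := (@Lb.d (nat_lit 8) (nat_lit 34) (nat_lit 0) (@Lb.g g9 (@Lb.r r536 (@Lb.r r2715 (@Lb.r r2178 (@Lb.r r2385 (@Lb.d (nat_lit 528) (nat_lit 150) (nat_lit 678) (@Lb.t (@Lb.fm (nat_lit 3) t222)))))))))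
noncomputable def l10296 : Lb := (@Lb.d (nat_lit 2) (nat_lit 258) (nat_lit 17) (@Lb.g g8 (@Lb.g g9 (@Lb.g g10 (@Lb.r r1579 (@Lb.r r2585 (@Lb.r r2564 (@Lb.d (nat_lit 650) (nat_lit 134) (nat_lit 402) (@Lb.t (@Lb.fp (nat_lit 9) t2507))))))))))
noncomputable def l10297 : Lb := (@Lb.d (nat_lit 97) (nat_lit 514) (nat_lit 581) (@Lb.r r392 (@Lb.r r1642 (@Lb.r r2451 (@Lb.g g6 (@Lb.g g9 (@Lb.g g4 (@Lb.d (nat_lit 65) (nat_lit 105) (nat_lit 0) (@Lb.t (@Lb.fp (nat_lit 9) t2508))))))))))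
noncomputable def l10298 : Lb := (@Lb.d (nat_lit 2) (nat_lit 33) (nat_lit 132) (@Lb.g g8 (@Lb.g g9 (@Lb.g g10 (@Lb.g g11 (@Lb.r r2387 (@Lb.r r405 (@Lb.r r1448 (@Lb.r r1418 (@Lb.d (nat_lit 546) (nat_lit 10) (nat_lit 394) (@Lb.fp (nat_lit 9) t2391)))))))))))
noncomputable def l10299 : Lb := (@Lb.r r283 (@Lb.d (nat_lit 6) (nat_lit 0) (nat_lit 2) (@Lb.g g8 (@Lb.g g9 (@Lb.g g10 (@Lb.r r2459 (@Lb.r r98 (@Lb.r r297 (@Lb.r r420 (@Lb.d (nat_lit 356) (nat_lit 101) (nat_lit 138) (@Lb.t (@Lb.fp (nat_lit 9) t2506))))))))))))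
noncomputable def l10300 : Lb := (@Lb.d (nat_lit 2) (nat_lit 9) (nat_lit 10) (@Lb.g g8 (@Lb.g g9 (@Lb.g g10 (@Lb.r r1555 (@Lb.r r297 (@Lb.r r1700 (@Lb.r r1670 (@Lb.d (nat_lit 128) (nat_lit 10) (nat_lit 577) (@Lb.t (@Lb.fp (nat_lit 9) t2399)))))))))))
noncomputable def l10301 : Lb := (@Lb.r r323 (@Lb.d (nat_lit 130) (nat_lit 521) (nat_lit 1) (@Lb.g g8 (@Lb.g g9 (@Lb.g g10 (@Lb.r r1639 (@Lb.r r2193 (@Lb.r r2642 (@Lb.r r72 (@Lb.d (nat_lit 32) (nat_lit 106) (nat_lit 356) (@Lb.t (@Lb.fm (nat_lit 9) t1114))))))))))))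
noncomputable def l10302 : Lb := (@Lb.r r154 (@Lb.r r664 (@Lb.r r411 (@Lb.r r609 (@Lb.r r36 (@Lb.d (nat_lit 8) (nat_lit 528) (nat_lit 138) (@Lb.fm (nat_lit 1) t44)))))))
noncomputable def l10303 : Lb := (@Lb.r r154 (@Lb.r r660 (@Lb.r r407 (@Lb.r r537 (@Lb.d (nat_lit 101) (nat_lit 133) (nat_lit 392) (@Lb.fm (nat_lit 1) t2509))))))
noncomputable def l10304 : Lb := (@Lb.r r346 (@Lb.d (nat_lit 4) (nat_lit 290) (nat_lit 324) (@Lb.g g8 (@Lb.g g9 (@Lb.g g7 (@Lb.r r426 (@Lb.r r1188 (@Lb.r r1685 (@Lb.d (nat_lit 417) (nat_lit 41) (nat_lit 518) (@Lb.t (@Lb.fm (nat_lit 9) t2510)))))))))))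
noncomputable def l10305 : Lb := (@Lb.r r154 (@Lb.r r660 (@Lb.r r407 (@Lb.r r609 (@Lb.d (nat_lit 0) (nat_lit 152) (nat_lit 137) (@Lb.fp (nat_lit 1) t44))))))
noncomputable def l10306 : Lb := (@Lb.d (nat_lit 146) (nat_lit 521) (nat_lit 73) (@Lb.g g8 (@Lb.g g9 (@Lb.g g10 (@Lb.g g11 (@Lb.r r1706 (@Lb.r r1188 (@Lb.r r405 (@Lb.r r2339 (@Lb.d (nat_lit 425) (nat_lit 145) (nat_lit 682) (@Lb.fm (nat_lit 9) t2511)))))))))))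
noncomputable def l10307 : Lb := (@Lb.d (nat_lit 280) (nat_lit 4) (nat_lit 34) (@Lb.fp (nat_lit 1) t2512))
noncomputable def l10308 : Lb := (@Lb.d (nat_lit 2) (nat_lit 516) (nat_lit 138) (@Lb.g g8 (@Lb.g g9 (@Lb.g g10 (@Lb.g g11 (@Lb.r r683 (@Lb.r r2666 (@Lb.r r100 (@Lb.r r21 (@Lb.r r36 (@Lb.d (nat_lit 329) (nat_lit 168) (nat_lit 681) (@Lb.fm (nat_lit 9) t2513))))))))))))
noncomputable def l10309 : Lb := (@Lb.d (nat_lit 274) (nat_lit 86) (nat_lit 25) (@Lb.r r1313 (@Lb.r r70 (@Lb.r r2647 (@Lb.g g6 (@Lb.g g5 (@Lb.g g4 (@Lb.d (nat_lit 1) (nat_lit 16) (nat_lit 1) (@Lb.r r387 (@Lb.t (@Lb.fp (nat_lit 9) t1809)))))))))))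
noncomputable def l10310 : Lb := (@Lb.d (nat_lit 272) (nat_lit 598) (nat_lit 25) (@Lb.r r1313 (@Lb.r r70 (@Lb.r r2647 (@Lb.g g6 (@Lb.g g5 (@Lb.g g4 (@Lb.d (nat_lit 1) (nat_lit 16) (nat_lit 1) (@Lb.r r387 (@Lb.t (@Lb.fp (nat_lit 9) t1809)))))))))))
noncomputable def l10311 : Lb := (@Lb.r r82 (@Lb.d (nat_lit 2) (nat_lit 258) (nat_lit 128) (@Lb.g g8 (@Lb.g g9 (@Lb.g g11 (@Lb.r r338 (@Lb.r r387 (@Lb.r r609 (@Lb.d (nat_lit 9) (nat_lit 164) (nat_lit 132) (@Lb.t (@Lb.fp (nat_lit 9) t1585)))))))))))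
noncomputable def l10312 : Lb := (@Lb.d (nat_lit 2) (nat_lit 2) (nat_lit 130) (@Lb.g g8 (@Lb.g g9 (@Lb.g g10 (@Lb.g g11 (@Lb.r r427 (@Lb.r r424 (@Lb.r r106 (@Lb.r r97 (@Lb.d (nat_lit 330) (nat_lit 4) (nat_lit 648) (@Lb.fp (nat_lit 9) t1449)))))))))))
noncomputable def l10313 : Lb := (@Lb.r r82 (@Lb.d (nat_lit 2) (nat_lit 514) (nat_lit 128) (@Lb.g g8 (@Lb.g g9 (@Lb.g g11 (@Lb.r r299 (@Lb.r r296 (@Lb.r r89 (@Lb.r r98 (@Lb.d (nat_lit 342) (nat_lit 1) (nat_lit 648) (@Lb.t (@Lb.fp (nat_lit 9) t2012))))))))))))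
noncomputable def l10314 : Lb := (@Lb.d (nat_lit 581) (nat_lit 294) (nat_lit 86) (@Lb.r r410 (@Lb.r r148 (@Lb.r r2389 (@Lb.r r1707 (@Lb.g g7 (@Lb.g g6 (@Lb.g g5 (@Lb.d (nat_lit 16) (nat_lit 24) (nat_lit 10) (@Lb.t (@Lb.fp (nat_lit 9) t119)))))))))))
noncomputable def l10315 : Lb := (@Lb.d (nat_lit 0) (nat_lit 649) (nat_lit 0) (@Lb.g g5 (@Lb.r r580 (@Lb.r r327 (@Lb.r r2178 (@Lb.r r516 (@Lb.d (nat_lit 0) (nat_lit 72) (nat_lit 2) (@Lb.t (@Lb.fp (nat_lit 3) t124)))))))))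
noncomputable def l10316 : Lb := (@Lb.d (nat_lit 2) (nat_lit 0) (nat_lit 0) (@Lb.g g8 (@Lb.r r154 (@Lb.r r660 (@Lb.r r407 (@Lb.r r609 (@Lb.d (nat_lit 0) (nat_lit 64) (nat_lit 384) (@Lb.t (@Lb.fp (nat_lit 3) t334)))))))))
noncomputable def l10317 : Lb := (@Lb.d (nat_lit 0) (nat_lit 257) (nat_lit 138) (@Lb.r r24 (@Lb.g g5 (@Lb.d (nat_lit 4) (nat_lit 1) (nat_lit 0) (@Lb.t (@Lb.fp (nat_lit 3) t2))))))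
noncomputable def l10318 : Lb := (@Lb.d (nat_lit 34) (nat_lit 258) (nat_lit 73) (@Lb.g g8 (@Lb.g g9 (@Lb.g g10 (@Lb.g g11 (@Lb.r r2690 (@Lb.r r2455 (@Lb.r r97 (@Lb.r r1560 (@Lb.d (nat_lit 616) (nat_lit 105) (nat_lit 657) (@Lb.fm (nat_lit 9) t1739)))))))))))
noncomputable def l10319 : Lb := (@Lb.d (nat_lit 6) (nat_lit 422) (nat_lit 294) (@Lb.r r21 (@Lb.r r1366 (@Lb.r r683 (@Lb.g g7 (@Lb.g g6 (@Lb.g g5 (@Lb.g g4 (@Lb.d (nat_lit 1) (nat_lit 1) (nat_lit 70) (@Lb.fm (nat_lit 9) t40))))))))))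
noncomputable def l10320 : Lb := (@Lb.d (nat_lit 33) (nat_lit 2) (nat_lit 73) (@Lb.g g8 (@Lb.g g9 (@Lb.g g10 (@Lb.g g11 (@Lb.r r2583 (@Lb.r r426 (@Lb.r r97 (@Lb.r r1432 (@Lb.d (nat_lit 648) (nat_lit 85) (nat_lit 360) (@Lb.fp (nat_lit 9) t2514)))))))))))
noncomputable def l10321 : Lb := (@Lb.d (nat_lit 9) (nat_lit 33) (nat_lit 0) (@Lb.g g8 (@Lb.g g9 (@Lb.r r2340 (@Lb.r r2395 (@Lb.r r2178 (@Lb.r r1637 (@Lb.d (nat_lit 680) (nat_lit 149) (nat_lit 612) (@Lb.fm (nat_lit 3) t64)))))))))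
noncomputable def l10322 : Lb := (@Lb.d (nat_lit 130) (nat_lit 0) (nat_lit 0) (@Lb.g g4 (@Lb.r r2469 (@Lb.r r603 (@Lb.r r2178 (@Lb.r r2708 (@Lb.d (nat_lit 72) (nat_lit 85) (nat_lit 104) (@Lb.t (@Lb.fp (nat_lit 3) t124)))))))))
noncomputable def l10323 : Lb := (@Lb.d (nat_lit 137) (nat_lit 513) (nat_lit 0) (@Lb.g g8 (@Lb.g g9 (@Lb.r r1449 (@Lb.r r1559 (@Lb.r r2178 (@Lb.r r2344 (@Lb.d (nat_lit 165) (nat_lit 98) (nat_lit 617) (@Lb.fm (nat_lit 3) t296)))))))))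
noncomputable def l10324 : Lb := (@Lb.d (nat_lit 8) (nat_lit 264) (nat_lit 73) (@Lb.g g8 (@Lb.g g9 (@Lb.g g10 (@Lb.g g11 (@Lb.r r1366 (@Lb.r r1704 (@Lb.r r1579 (@Lb.r r1557 (@Lb.d (nat_lit 130) (nat_lit 40) (nat_lit 585) (@Lb.fp (nat_lit 9) t789)))))))))))
noncomputable def l10325 : Lb := (@Lb.d (nat_lit 0) (nat_lit 0) (nat_lit 66) (@Lb.g g10 (@Lb.g g11 (@Lb.r r2698 (@Lb.r r2692 (@Lb.r r2567 (@Lb.r r409 (@Lb.d (nat_lit 33) (nat_lit 0) (nat_lit 386) (@Lb.fm (nat_lit 3) t1097)))))))))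
noncomputable def l10326 : Lb := (@Lb.r r402 (@Lb.r r101 (@Lb.d (nat_lit 522) (nat_lit 386) (nat_lit 512) (@Lb.fp (nat_lit 1) t1618))))
noncomputable def l10327 : Lb := (@Lb.d (nat_lit 36) (nat_lit 545) (nat_lit 0) (@Lb.g g5 (@Lb.g g10 (@Lb.r r515 (@Lb.r r328 (@Lb.r r326 (@Lb.d (nat_lit 146) (nat_lit 32) (nat_lit 65) (@Lb.fp (nat_lit 3) t242))))))))
noncomputable def l10328 : Lb := (@Lb.r r323 (@Lb.d (nat_lit 0) (nat_lit 514) (nat_lit 1) (@Lb.g g8 (@Lb.g g9 (@Lb.g g6 (@Lb.r r2347 (@Lb.r r97 (@Lb.r r24 (@Lb.d (nat_lit 264) (nat_lit 9) (nat_lit 66) (@Lb.t (@Lb.fp (nat_lit 9) t1172)))))))))))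
noncomputable def l10329 : Lb := (@Lb.d (nat_lit 273) (nat_lit 514) (nat_lit 536) (@Lb.r r24 (@Lb.r r323 (@Lb.r r1690 (@Lb.g g6 (@Lb.g g9 (@Lb.d (nat_lit 8) (nat_lit 2) (nat_lit 1) (@Lb.r r387 (@Lb.fp (nat_lit 3) t121)))))))))
noncomputable def l10330 : Lb := (@Lb.r r323 (@Lb.d (nat_lit 0) (nat_lit 2) (nat_lit 1) (@Lb.g g8 (@Lb.g g9 (@Lb.g g6 (@Lb.r r387 (@Lb.r r25 (@Lb.d (nat_lit 9) (nat_lit 5) (nat_lit 64) (@Lb.t (@Lb.fp (nat_lit 9) t45))))))))))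
noncomputable def l10331 : Lb := (@Lb.r r21 (@Lb.d (nat_lit 24) (nat_lit 544) (nat_lit 0) (@Lb.g g8 (@Lb.g g10 (@Lb.g g11 (@Lb.r r2217 (@Lb.r r1642 (@Lb.r r2375 (@Lb.r r536 (@Lb.d (nat_lit 612) (nat_lit 165) (nat_lit 128) (@Lb.t (@Lb.fm (nat_lit 9) t148))))))))))))
noncomputable def l10332 : Lb := (@Lb.d (nat_lit 36) (nat_lit 289) (nat_lit 0) (@Lb.g g5 (@Lb.g g10 (@Lb.r r515 (@Lb.r r328 (@Lb.r r326 (@Lb.d (nat_lit 146) (nat_lit 37) (nat_lit 66) (@Lb.fp (nat_lit 3) t242))))))))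
noncomputable def l10333 : Lb := (@Lb.d (nat_lit 290) (nat_lit 0) (nat_lit 64) (@Lb.r r2129 (@Lb.r r1158 (@Lb.r r2376 (@Lb.g g7 (@Lb.d (nat_lit 64) (nat_lit 0) (nat_lit 328) (@Lb.t (@Lb.fm (nat_lit 3) t355))))))))
noncomputable def l10334 : Lb := (@Lb.d (nat_lit 2) (nat_lit 322) (nat_lit 16) (@Lb.r r2130 (@Lb.r r2643 (@Lb.g g5 (@Lb.g g8 (@Lb.d (nat_lit 518) (nat_lit 130) (nat_lit 0) (@Lb.r r74 (@Lb.fm (nat_lit 3) t1602))))))))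
noncomputable def l10335 : Lb := (@Lb.d (nat_lit 392) (nat_lit 656) (nat_lit 86) (@Lb.r r2321 (@Lb.r r323 (@Lb.r r1702 (@Lb.g g7 (@Lb.g g6 (@Lb.g g5 (@Lb.g g8 (@Lb.d (nat_lit 10) (nat_lit 5) (nat_lit 66) (@Lb.fp (nat_lit 9) t30))))))))))
noncomputable def l10336 : Lb := (@Lb.d (nat_lit 2) (nat_lit 642) (nat_lit 130) (@Lb.g g8 (@Lb.g g9 (@Lb.g g10 (@Lb.g g11 (@Lb.r r1451 (@Lb.r r1444 (@Lb.r r1126 (@Lb.d (nat_lit 281) (nat_lit 130) (nat_lit 73) (@Lb.fp (nat_lit 9) t2515))))))))))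
noncomputable def l10337 : Lb := (@Lb.r r322 (@Lb.d (nat_lit 0) (nat_lit 522) (nat_lit 72) (@Lb.g g8 (@Lb.g g9 (@Lb.g g7 (@Lb.r r594 (@Lb.r r421 (@Lb.r r24 (@Lb.d (nat_lit 272) (nat_lit 0) (nat_lit 42) (@Lb.t (@Lb.fp (nat_lit 9) t991)))))))))))
noncomputable def l10338 : Lb := (@Lb.d (nat_lit 0) (nat_lit 512) (nat_lit 128) (@Lb.g g10 (@Lb.g g11 (@Lb.r r658 (@Lb.r r2707 (@Lb.r r2626 (@Lb.d (nat_lit 0) (nat_lit 96) (nat_lit 276) (@Lb.fm (nat_lit 3) t334))))))))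
noncomputable def l10339 : Lb := (@Lb.d (nat_lit 2) (nat_lit 130) (nat_lit 73) (@Lb.g g8 (@Lb.g g9 (@Lb.g g10 (@Lb.g g11 (@Lb.r r1451 (@Lb.r r1444 (@Lb.r r1126 (@Lb.d (nat_lit 281) (nat_lit 130) (nat_lit 73) (@Lb.fp (nat_lit 9) t2515))))))))))
noncomputable def l10340 : Lb := (@Lb.d (nat_lit 2) (nat_lit 386) (nat_lit 130) (@Lb.g g8 (@Lb.g g9 (@Lb.g g10 (@Lb.g g11 (@Lb.r r1451 (@Lb.r r1444 (@Lb.r r1126 (@Lb.d (nat_lit 282) (nat_lit 130) (nat_lit 73) (@Lb.fp (nat_lit 9) t2515))))))))))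
noncomputable def l10341 : Lb := (@Lb.d (nat_lit 144) (nat_lit 548) (nat_lit 133) (@Lb.g g8 (@Lb.g g9 (@Lb.g g10 (@Lb.g g11 (@Lb.r r1366 (@Lb.r r2715 (@Lb.r r2452 (@Lb.r r105 (@Lb.d (nat_lit 661) (nat_lit 100) (nat_lit 581) (@Lb.fp (nat_lit 9) t2516)))))))))))
noncomputable def l10342 : Lb := (@Lb.d (nat_lit 32) (nat_lit 514) (nat_lit 130) (@Lb.g g9 (@Lb.g g10 (@Lb.g g11 (@Lb.r r419 (@Lb.r r2344 (@Lb.r r409 (@Lb.r r1426 (@Lb.d (nat_lit 41) (nat_lit 89) (nat_lit 424) (@Lb.t (@Lb.fm (nat_lit 9) t2517)))))))))))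
noncomputable def l10343 : Lb := (@Lb.d (nat_lit 32) (nat_lit 353) (nat_lit 2) (@Lb.g g5 (@Lb.g g10 (@Lb.r r1543 (@Lb.r r72 (@Lb.r r102 (@Lb.d (nat_lit 578) (nat_lit 136) (nat_lit 153) (@Lb.fp (nat_lit 3) t2518))))))))
noncomputable def l10344 : Lb := (@Lb.d (nat_lit 18) (nat_lit 330) (nat_lit 400) (@Lb.r r2321 (@Lb.r r2403 (@Lb.r r658 (@Lb.r r341 (@Lb.g g7 (@Lb.g g6 (@Lb.g g5 (@Lb.g g4 (@Lb.d (nat_lit 1) (nat_lit 17) (nat_lit 130) (@Lb.fm (nat_lit 9) t148)))))))))))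
noncomputable def l10345 : Lb := (@Lb.d (nat_lit 518) (nat_lit 129) (nat_lit 170) (@Lb.r r1637 (@Lb.r r2328 (@Lb.r r386 (@Lb.r r1575 (@Lb.g g7 (@Lb.g g5 (@Lb.r r98 (@Lb.fm (nat_lit 3) t2144)))))))))
noncomputable def l10346 : Lb := (@Lb.d (nat_lit 576) (nat_lit 97) (nat_lit 330) (@Lb.r r2329 (@Lb.r r2452 (@Lb.r r2390 (@Lb.r r611 (@Lb.g g7 (@Lb.g g6 (@Lb.g g5 (@Lb.d (nat_lit 0) (nat_lit 18) (nat_lit 129) (@Lb.t (@Lb.fm (nat_lit 9) t2519)))))))))))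
noncomputable def l10347 : Lb := (@Lb.d (nat_lit 2) (nat_lit 264) (nat_lit 130) (@Lb.g g8 (@Lb.g g10 (@Lb.g g11 (@Lb.r r387 (@Lb.r r101 (@Lb.r r402 (@Lb.d (nat_lit 2) (nat_lit 21) (nat_lit 153) (@Lb.t (@Lb.fm (nat_lit 9) t221))))))))))
noncomputable def l10348 : Lb := (@Lb.d (nat_lit 2) (nat_lit 514) (nat_lit 130) (@Lb.g g8 (@Lb.g g9 (@Lb.g g10 (@Lb.g g11 (@Lb.r r427 (@Lb.r r106 (@Lb.r r25 (@Lb.d (nat_lit 4) (nat_lit 8) (nat_lit 137) (@Lb.fp (nat_lit 9) t51))))))))))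
noncomputable def l10349 : Lb := (@Lb.d (nat_lit 2) (nat_lit 0) (nat_lit 0) (@Lb.g g8 (@Lb.r r101 (@Lb.r r402 (@Lb.r r579 (@Lb.d (nat_lit 64) (nat_lit 0) (nat_lit 64) (@Lb.t (@Lb.fm (nat_lit 3) t242))))))))
noncomputable def l10350 : Lb := (@Lb.d (nat_lit 645) (nat_lit 266) (nat_lit 129) (@Lb.g g4 (@Lb.g g9 (@Lb.g g10 (@Lb.g g11 (@Lb.r r677 (@Lb.r r2339 (@Lb.r r1158 (@Lb.d (nat_lit 336) (nat_lit 32) (nat_lit 88) (@Lb.fm (nat_lit 9) t197))))))))))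
noncomputable def l10351 : Lb := (@Lb.r r323 (@Lb.d (nat_lit 18) (nat_lit 258) (nat_lit 0) (@Lb.g g8 (@Lb.g g9 (@Lb.g g10 (@Lb.r r1681 (@Lb.r r1559 (@Lb.r r74 (@Lb.r r2312 (@Lb.d (nat_lit 386) (nat_lit 0) (nat_lit 516) (@Lb.t (@Lb.fm (nat_lit 9) t86))))))))))))
noncomputable def l10352 : Lb := (@Lb.r r323 (@Lb.d (nat_lit 2) (nat_lit 34) (nat_lit 2) (@Lb.g g8 (@Lb.g g9 (@Lb.g g10 (@Lb.r r599 (@Lb.r r74 (@Lb.r r296 (@Lb.r r409 (@Lb.d (nat_lit 152) (nat_lit 36) (nat_lit 68) (@Lb.t (@Lb.fm (nat_lit 9) t119))))))))))))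
noncomputable def l10353 : Lb := (@Lb.d (nat_lit 1) (nat_lit 97) (nat_lit 0) (@Lb.g g8 (@Lb.g g5 (@Lb.g g10 (@Lb.r r515 (@Lb.r r660 (@Lb.r r582 (@Lb.r r132 (@Lb.d (nat_lit 2) (nat_lit 6) (nat_lit 1) (@Lb.t (@Lb.fm (nat_lit 9) t242)))))))))))
noncomputable def l10354 : Lb := (@Lb.d (nat_lit 6) (nat_lit 646) (nat_lit 425) (@Lb.r r1361 (@Lb.r r2471 (@Lb.r r612 (@Lb.r r346 (@Lb.g g7 (@Lb.g g6 (@Lb.g g5 (@Lb.d (nat_lit 8) (nat_lit 2) (nat_lit 65) (@Lb.t (@Lb.fp (nat_lit 9) t125)))))))))))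
noncomputable def l10355 : Lb := (@Lb.r r323 (@Lb.d (nat_lit 1) (nat_lit 258) (nat_lit 2) (@Lb.g g8 (@Lb.g g9 (@Lb.g g10 (@Lb.r r70 (@Lb.r r388 (@Lb.r r1323 (@Lb.r r1313 (@Lb.d (nat_lit 8) (nat_lit 133) (nat_lit 385) (@Lb.t (@Lb.fp (nat_lit 9) t119))))))))))))
noncomputable def l10356 : Lb := (@Lb.r r82 (@Lb.d (nat_lit 34) (nat_lit 514) (nat_lit 0) (@Lb.g g8 (@Lb.g g9 (@Lb.g g11 (@Lb.r r1571 (@Lb.r r582 (@Lb.r r2577 (@Lb.r r420 (@Lb.d (nat_lit 106) (nat_lit 149) (nat_lit 330) (@Lb.t (@Lb.fp (nat_lit 9) t1751))))))))))))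
noncomputable def l10357 : Lb := (@Lb.d (nat_lit 2) (nat_lit 2) (nat_lit 66) (@Lb.g g8 (@Lb.g g9 (@Lb.g g10 (@Lb.g g7 (@Lb.r r386 (@Lb.r r97 (@Lb.r r24 (@Lb.d (nat_lit 9) (nat_lit 9) (nat_lit 9) (@Lb.fp (nat_lit 9) t319))))))))))
noncomputable def l10358 : Lb := (@Lb.r r331 (@Lb.d (nat_lit 672) (nat_lit 2) (nat_lit 2) (@Lb.g g8 (@Lb.g g9 (@Lb.g g10 (@Lb.r r362 (@Lb.r r1411 (@Lb.r r25 (@Lb.d (nat_lit 9) (nat_lit 161) (nat_lit 618) (@Lb.t (@Lb.fm (nat_lit 9) t394)))))))))))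
noncomputable def l10359 : Lb := (@Lb.d (nat_lit 0) (nat_lit 0) (nat_lit 128) (@Lb.g g11 (@Lb.r r154 (@Lb.r r404 (@Lb.r r619 (@Lb.r r609 (@Lb.d (nat_lit 8) (nat_lit 18) (nat_lit 10) (@Lb.t (@Lb.fm (nat_lit 3) t44)))))))))
noncomputable def l10360 : Lb := (@Lb.d (nat_lit 0) (nat_lit 256) (nat_lit 128) (@Lb.g g11 (@Lb.r r154 (@Lb.r r404 (@Lb.r r619 (@Lb.r r609 (@Lb.d (nat_lit 8) (nat_lit 25) (nat_lit 9) (@Lb.t (@Lb.fm (nat_lit 3) t44)))))))))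
noncomputable def l10361 : Lb := (@Lb.d (nat_lit 278) (nat_lit 134) (nat_lit 34) (@Lb.r r24 (@Lb.r r1045 (@Lb.r r1094 (@Lb.r r1287 (@Lb.g g4 (@Lb.d (nat_lit 1) (nat_lit 0) (nat_lit 0) (@Lb.t (@Lb.fp (nat_lit 3) t2520)))))))))
noncomputable def l10362 : Lb := (@Lb.r r275 (@Lb.d (nat_lit 9) (nat_lit 297) (nat_lit 1) (@Lb.g g8 (@Lb.g g9 (@Lb.g g10 (@Lb.r r1442 (@Lb.r r2635 (@Lb.r r548 (@Lb.r r661 (@Lb.d (nat_lit 164) (nat_lit 101) (nat_lit 133) (@Lb.t (@Lb.fm (nat_lit 9) t340))))))))))))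
noncomputable def l10363 : Lb := (@Lb.r r21 (@Lb.d (nat_lit 34) (nat_lit 512) (nat_lit 128) (@Lb.g g8 (@Lb.g g11 (@Lb.r r390 (@Lb.r r1611 (@Lb.r r1641 (@Lb.r r1608 (@Lb.d (nat_lit 73) (nat_lit 9) (nat_lit 514) (@Lb.fm (nat_lit 3) t564))))))))))
noncomputable def l10364 : Lb := (@Lb.r r21 (@Lb.d (nat_lit 34) (nat_lit 256) (nat_lit 128) (@Lb.g g8 (@Lb.g g11 (@Lb.r r390 (@Lb.r r1611 (@Lb.r r1641 (@Lb.r r1608 (@Lb.d (nat_lit 66) (nat_lit 10) (nat_lit 514) (@Lb.fm (nat_lit 3) t564))))))))))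
noncomputable def l10365 : Lb := (@Lb.d (nat_lit 9) (nat_lit 265) (nat_lit 129) (@Lb.g g8 (@Lb.g g9 (@Lb.g g10 (@Lb.g g11 (@Lb.r r1194 (@Lb.r r548 (@Lb.r r615 (@Lb.r r533 (@Lb.r r1060 (@Lb.d (nat_lit 384) (nat_lit 10) (nat_lit 601) (@Lb.fp (nat_lit 9) t217))))))))))))
noncomputable def l10366 : Lb := (@Lb.d (nat_lit 9) (nat_lit 538) (nat_lit 1) (@Lb.g g8 (@Lb.g g9 (@Lb.g g10 (@Lb.g g11 (@Lb.r r343 (@Lb.r r2406 (@Lb.r r1688 (@Lb.r r2469 (@Lb.d (nat_lit 617) (nat_lit 161) (nat_lit 665) (@Lb.fp (nat_lit 9) t1879)))))))))))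
noncomputable def l10367 : Lb := (@Lb.d (nat_lit 153) (nat_lit 68) (nat_lit 362) (@Lb.r r1610 (@Lb.r r2667 (@Lb.r r661 (@Lb.g g7 (@Lb.g g6 (@Lb.g g8 (@Lb.d (nat_lit 354) (nat_lit 4) (nat_lit 128) (@Lb.r r25 (@Lb.t (@Lb.fp (nat_lit 9) t329)))))))))))
noncomputable def l10368 : Lb := (@Lb.d (nat_lit 9) (nat_lit 9) (nat_lit 1) (@Lb.g g8 (@Lb.g g9 (@Lb.g g10 (@Lb.g g11 (@Lb.r r682 (@Lb.r r680 (@Lb.r r555 (@Lb.r r529 (@Lb.r r36 (@Lb.d (nat_lit 4) (nat_lit 32) (nat_lit 74) (@Lb.fm (nat_lit 9) t264))))))))))))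
noncomputable def l10369 : Lb := (@Lb.r r82 (@Lb.d (nat_lit 2) (nat_lit 545) (nat_lit 64) (@Lb.g g8 (@Lb.g g9 (@Lb.g g11 (@Lb.r r2198 (@Lb.r r1561 (@Lb.r r403 (@Lb.d (nat_lit 609) (nat_lit 101) (nat_lit 144) (@Lb.t (@Lb.fp (nat_lit 9) t1389)))))))))))
noncomputable def l10370 : Lb := (@Lb.d (nat_lit 152) (nat_lit 264) (nat_lit 130) (@Lb.g g8 (@Lb.g g9 (@Lb.g g10 (@Lb.g g11 (@Lb.r r683 (@Lb.r r2410 (@Lb.r r1561 (@Lb.r r1540 (@Lb.d (nat_lit 393) (nat_lit 153) (nat_lit 5) (@Lb.fm (nat_lit 9) t328)))))))))))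
noncomputable def l10371 : Lb := (@Lb.d (nat_lit 0) (nat_lit 256) (nat_lit 74) (@Lb.g g10 (@Lb.g g11 (@Lb.r r2626 (@Lb.r r1611 (@Lb.d (nat_lit 417) (nat_lit 0) (nat_lit 104) (@Lb.fp (nat_lit 3) t469)))))))
noncomputable def l10372 : Lb := (@Lb.d (nat_lit 146) (nat_lit 514) (nat_lit 74) (@Lb.g g8 (@Lb.g g9 (@Lb.g g10 (@Lb.g g11 (@Lb.r r683 (@Lb.r r2724 (@Lb.r r134 (@Lb.r r97 (@Lb.d (nat_lit 545) (nat_lit 169) (nat_lit 385) (@Lb.fm (nat_lit 9) t1173)))))))))))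
noncomputable def l10373 : Lb := (@Lb.d (nat_lit 0) (nat_lit 0) (nat_lit 2) (@Lb.g g10 (@Lb.r r1415 (@Lb.r r2438 (@Lb.d (nat_lit 338) (nat_lit 0) (nat_lit 148) (@Lb.t (@Lb.fm (nat_lit 3) t469)))))))
noncomputable def l10374 : Lb := (@Lb.d (nat_lit 0) (nat_lit 548) (nat_lit 64) (@Lb.g g9 (@Lb.g g10 (@Lb.g g11 (@Lb.r r419 (@Lb.r r578 (@Lb.r r600 (@Lb.r r293 (@Lb.d (nat_lit 528) (nat_lit 153) (nat_lit 597) (@Lb.t (@Lb.fm (nat_lit 9) t1343)))))))))))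
noncomputable def l10375 : Lb := (@Lb.d (nat_lit 153) (nat_lit 550) (nat_lit 64) (@Lb.g g8 (@Lb.g g9 (@Lb.g g10 (@Lb.g g11 (@Lb.r r2731 (@Lb.r r612 (@Lb.r r1114 (@Lb.r r1193 (@Lb.r r20 (@Lb.d (nat_lit 277) (nat_lit 136) (nat_lit 649) (@Lb.fp (nat_lit 9) t487))))))))))))
noncomputable def l10376 : Lb := (@Lb.d (nat_lit 146) (nat_lit 258) (nat_lit 10) (@Lb.g g8 (@Lb.g g9 (@Lb.g g10 (@Lb.g g11 (@Lb.r r1194 (@Lb.r r420 (@Lb.r r1307 (@Lb.r r1557 (@Lb.r r1060 (@Lb.d (nat_lit 385) (nat_lit 1) (nat_lit 618) (@Lb.fm (nat_lit 9) t2521))))))))))))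
noncomputable def l10377 : Lb := (@Lb.r r70 (@Lb.d (nat_lit 134) (nat_lit 256) (nat_lit 256) (@Lb.g g8 (@Lb.g g9 (@Lb.g g7 (@Lb.r r1321 (@Lb.r r1444 (@Lb.r r390 (@Lb.d (nat_lit 529) (nat_lit 138) (nat_lit 82) (@Lb.t (@Lb.fp (nat_lit 9) t2522)))))))))))
noncomputable def l10378 : Lb := (@Lb.d (nat_lit 146) (nat_lit 292) (nat_lit 64) (@Lb.g g8 (@Lb.g g9 (@Lb.g g10 (@Lb.g g11 (@Lb.r r2731 (@Lb.r r612 (@Lb.r r1114 (@Lb.r r1193 (@Lb.r r20 (@Lb.d (nat_lit 277) (nat_lit 136) (nat_lit 649) (@Lb.fp (nat_lit 9) t487))))))))))))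
noncomputable def l10379 : Lb := (@Lb.d (nat_lit 8) (nat_lit 258) (nat_lit 130) (@Lb.g g9 (@Lb.g g10 (@Lb.g g11 (@Lb.r r2691 (@Lb.r r2376 (@Lb.r r1366 (@Lb.r r409 (@Lb.d (nat_lit 650) (nat_lit 65) (nat_lit 522) (@Lb.t (@Lb.fm (nat_lit 9) t2523)))))))))))
noncomputable def l10380 : Lb := (@Lb.d (nat_lit 146) (nat_lit 36) (nat_lit 64) (@Lb.g g8 (@Lb.g g9 (@Lb.g g10 (@Lb.g g11 (@Lb.r r2731 (@Lb.r r612 (@Lb.r r1114 (@Lb.r r1193 (@Lb.r r20 (@Lb.d (nat_lit 282) (nat_lit 137) (nat_lit 649) (@Lb.fp (nat_lit 9) t487))))))))))))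
noncomputable def l10381 : Lb := (@Lb.r r82 (@Lb.d (nat_lit 2) (nat_lit 545) (nat_lit 128) (@Lb.g g8 (@Lb.g g9 (@Lb.g g11 (@Lb.r r2649 (@Lb.r r531 (@Lb.r r98 (@Lb.r r1096 (@Lb.d (nat_lit 421) (nat_lit 74) (nat_lit 85) (@Lb.t (@Lb.fm (nat_lit 9) t2524))))))))))))
noncomputable def l10382 : Lb := (@Lb.d (nat_lit 390) (nat_lit 81) (nat_lit 578) (@Lb.r r2584 (@Lb.r r97 (@Lb.r r2667 (@Lb.g g7 (@Lb.g g10 (@Lb.g g5 (@Lb.g g4 (@Lb.d (nat_lit 6) (nat_lit 2) (nat_lit 81) (@Lb.fp (nat_lit 9) t2525))))))))))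
noncomputable def l10383 : Lb := (@Lb.d (nat_lit 2) (nat_lit 265) (nat_lit 130) (@Lb.g g8 (@Lb.g g9 (@Lb.g g10 (@Lb.g g11 (@Lb.r r1287 (@Lb.r r405 (@Lb.r r2714 (@Lb.r r2564 (@Lb.d (nat_lit 384) (nat_lit 10) (nat_lit 417) (@Lb.fm (nat_lit 9) t1171)))))))))))
noncomputable def l10384 : Lb := (@Lb.d (nat_lit 144) (nat_lit 265) (nat_lit 73) (@Lb.g g8 (@Lb.g g9 (@Lb.g g10 (@Lb.g g11 (@Lb.r r1706 (@Lb.r r1411 (@Lb.r r2201 (@Lb.r r2180 (@Lb.d (nat_lit 553) (nat_lit 153) (nat_lit 100) (@Lb.fm (nat_lit 9) t1755)))))))))))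
noncomputable def l10385 : Lb := (@Lb.g g7 (@Lb.r r597 (@Lb.r r1386 (@Lb.r r407 (@Lb.r r1096 (@Lb.d (nat_lit 577) (nat_lit 512) (nat_lit 336) (@Lb.t (@Lb.fp (nat_lit 3) t2238))))))))
noncomputable def l10386 : Lb := (@Lb.d (nat_lit 0) (nat_lit 256) (nat_lit 74) (@Lb.g g10 (@Lb.g g11 (@Lb.r r2707 (@Lb.r r24 (@Lb.r r1381 (@Lb.r r602 (@Lb.d (nat_lit 65) (nat_lit 36) (nat_lit 417) (@Lb.fp (nat_lit 3) t1024)))))))))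
noncomputable def l10387 : Lb := (@Lb.d (nat_lit 4) (nat_lit 290) (nat_lit 130) (@Lb.g g8 (@Lb.g g9 (@Lb.g g10 (@Lb.g g11 (@Lb.r r1706 (@Lb.r r676 (@Lb.r r679 (@Lb.r r661 (@Lb.r r1060 (@Lb.d (nat_lit 425) (nat_lit 1) (nat_lit 612) (@Lb.fp (nat_lit 9) t1105))))))))))))
noncomputable def l10388 : Lb := (@Lb.r r323 (@Lb.d (nat_lit 38) (nat_lit 514) (nat_lit 2) (@Lb.g g8 (@Lb.g g9 (@Lb.g g10 (@Lb.r r2390 (@Lb.r r387 (@Lb.r r2325 (@Lb.r r1624 (@Lb.d (nat_lit 418) (nat_lit 97) (nat_lit 661) (@Lb.t (@Lb.fp (nat_lit 9) t2526))))))))))))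
noncomputable def l10389 : Lb := (@Lb.r r82 (@Lb.d (nat_lit 0) (nat_lit 258) (nat_lit 128) (@Lb.g g8 (@Lb.g g9 (@Lb.g g11 (@Lb.r r362 (@Lb.r r548 (@Lb.r r615 (@Lb.r r533 (@Lb.d (nat_lit 146) (nat_lit 40) (nat_lit 73) (@Lb.t (@Lb.fp (nat_lit 9) t601))))))))))))
noncomputable def l10390 : Lb := (@Lb.r r21 (@Lb.r r70 (@Lb.d (nat_lit 0) (nat_lit 256) (nat_lit 128) (@Lb.g g8 (@Lb.g g11 (@Lb.r r583 (@Lb.r r650 (@Lb.r r601 (@Lb.r r580 (@Lb.d (nat_lit 5) (nat_lit 64) (nat_lit 132) (@Lb.fm (nat_lit 3) t755)))))))))))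
noncomputable def l10391 : Lb := (@Lb.d (nat_lit 134) (nat_lit 514) (nat_lit 73) (@Lb.g g8 (@Lb.g g9 (@Lb.g g10 (@Lb.g g11 (@Lb.r r1707 (@Lb.r r362 (@Lb.r r281 (@Lb.r r516 (@Lb.d (nat_lit 9) (nat_lit 41) (nat_lit 169) (@Lb.fm (nat_lit 9) t605)))))))))))
noncomputable def l10392 : Lb := (@Lb.r r597 (@Lb.r r1386 (@Lb.r r407 (@Lb.r r1096 (@Lb.d (nat_lit 577) (nat_lit 512) (nat_lit 336) (@Lb.fm (nat_lit 1) t2238))))))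
noncomputable def l10393 : Lb := (@Lb.d (nat_lit 128) (nat_lit 288) (nat_lit 64) (@Lb.g g11 (@Lb.r r356 (@Lb.r r2405 (@Lb.r r2650 (@Lb.r r1627 (@Lb.d (nat_lit 170) (nat_lit 102) (nat_lit 602) (@Lb.t (@Lb.fp (nat_lit 3) t322)))))))))
noncomputable def l10394 : Lb := (@Lb.d (nat_lit 134) (nat_lit 4) (nat_lit 74) (@Lb.g g8 (@Lb.g g9 (@Lb.g g10 (@Lb.g g11 (@Lb.r r1707 (@Lb.r r362 (@Lb.r r1561 (@Lb.r r516 (@Lb.d (nat_lit 649) (nat_lit 153) (nat_lit 21) (@Lb.fm (nat_lit 9) t606)))))))))))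
noncomputable def l10395 : Lb := (@Lb.r r21 (@Lb.d (nat_lit 10) (nat_lit 256) (nat_lit 128) (@Lb.g g8 (@Lb.g g10 (@Lb.g g11 (@Lb.r r1611 (@Lb.r r533 (@Lb.r r1636 (@Lb.r r2666 (@Lb.d (nat_lit 660) (nat_lit 149) (nat_lit 70) (@Lb.t (@Lb.fp (nat_lit 9) t91))))))))))))
noncomputable def l10396 : Lb := (@Lb.r r20 (@Lb.r r82 (@Lb.d (nat_lit 0) (nat_lit 256) (nat_lit 128) (@Lb.g g9 (@Lb.g g11 (@Lb.r r2647 (@Lb.r r1706 (@Lb.r r1625 (@Lb.d (nat_lit 618) (nat_lit 66) (nat_lit 660) (@Lb.fm (nat_lit 3) t5))))))))))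
noncomputable def l10397 : Lb := (@Lb.d (nat_lit 146) (nat_lit 393) (nat_lit 73) (@Lb.g g8 (@Lb.g g5 (@Lb.g g10 (@Lb.g g11 (@Lb.r r276 (@Lb.r r2571 (@Lb.r r2438 (@Lb.r r1540 (@Lb.d (nat_lit 545) (nat_lit 160) (nat_lit 416) (@Lb.fm (nat_lit 9) t1167)))))))))))
noncomputable def l10398 : Lb := (@Lb.r r323 (@Lb.d (nat_lit 0) (nat_lit 264) (nat_lit 6) (@Lb.g g10 (@Lb.r r387 (@Lb.r r24 (@Lb.r r101 (@Lb.d (nat_lit 26) (nat_lit 88) (nat_lit 422) (@Lb.t (@Lb.fp (nat_lit 3) t1080)))))))))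
noncomputable def l10399 : Lb := (@Lb.r r2343 (@Lb.r r1096 (@Lb.r r2646 (@Lb.r r409 (@Lb.d (nat_lit 282) (nat_lit 586) (nat_lit 18) (@Lb.fm (nat_lit 1) t450))))))
noncomputable def l10400 : Lb := (@Lb.d (nat_lit 146) (nat_lit 36) (nat_lit 133) (@Lb.g g8 (@Lb.g g9 (@Lb.g g10 (@Lb.g g11 (@Lb.r r2731 (@Lb.r r2724 (@Lb.r r1190 (@Lb.r r1177 (@Lb.d (nat_lit 273) (nat_lit 73) (nat_lit 649) (@Lb.fp (nat_lit 9) t487)))))))))))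
noncomputable def l10401 : Lb := (@Lb.d (nat_lit 2) (nat_lit 550) (nat_lit 133) (@Lb.g g8 (@Lb.g g9 (@Lb.g g10 (@Lb.g g11 (@Lb.r r1706 (@Lb.r r1188 (@Lb.r r1317 (@Lb.r r531 (@Lb.d (nat_lit 325) (nat_lit 162) (nat_lit 266) (@Lb.fm (nat_lit 9) t2527)))))))))))
noncomputable def l10402 : Lb := (@Lb.r r593 (@Lb.d (nat_lit 1) (nat_lit 512) (nat_lit 9) (@Lb.g g8 (@Lb.g g6 (@Lb.g g11 (@Lb.r r2657 (@Lb.r r1319 (@Lb.r r2628 (@Lb.d (nat_lit 388) (nat_lit 138) (nat_lit 394) (@Lb.t (@Lb.fm (nat_lit 9) t488)))))))))))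
noncomputable def l10403 : Lb := (@Lb.d (nat_lit 0) (nat_lit 548) (nat_lit 64) (@Lb.g g9 (@Lb.g g10 (@Lb.g g11 (@Lb.r r419 (@Lb.r r1122 (@Lb.r r293 (@Lb.r r24 (@Lb.d (nat_lit 146) (nat_lit 10) (nat_lit 356) (@Lb.t (@Lb.fm (nat_lit 9) t933)))))))))))
noncomputable def l10404 : Lb := (@Lb.d (nat_lit 8) (nat_lit 2) (nat_lit 0) (@Lb.g g9 (@Lb.r r20 (@Lb.r r105 (@Lb.d (nat_lit 2) (nat_lit 149) (nat_lit 393) (@Lb.t (@Lb.fm (nat_lit 3) t1174)))))))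
noncomputable def l10405 : Lb := (@Lb.r r593 (@Lb.d (nat_lit 154) (nat_lit 552) (nat_lit 66) (@Lb.g g8 (@Lb.g g6 (@Lb.g g11 (@Lb.r r1425 (@Lb.r r1319 (@Lb.r r584 (@Lb.d (nat_lit 97) (nat_lit 74) (nat_lit 170) (@Lb.t (@Lb.fm (nat_lit 9) t488)))))))))))
noncomputable def l10406 : Lb := (@Lb.d (nat_lit 0) (nat_lit 258) (nat_lit 73) (@Lb.g g9 (@Lb.g g10 (@Lb.g g11 (@Lb.r r2691 (@Lb.r r153 (@Lb.r r602 (@Lb.r r2193 (@Lb.d (nat_lit 336) (nat_lit 33) (nat_lit 330) (@Lb.t (@Lb.fp (nat_lit 9) t913)))))))))))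
noncomputable def l10407 : Lb := (@Lb.r r326 (@Lb.d (nat_lit 33) (nat_lit 258) (nat_lit 576) (@Lb.g g8 (@Lb.g g9 (@Lb.g g7 (@Lb.r r1129 (@Lb.r r2454 (@Lb.r r1108 (@Lb.d (nat_lit 278) (nat_lit 22) (nat_lit 665) (@Lb.t (@Lb.fp (nat_lit 9) t2528)))))))))))
noncomputable def l10408 : Lb := (@Lb.d (nat_lit 166) (nat_lit 554) (nat_lit 80) (@Lb.r r407 (@Lb.r r680 (@Lb.r r2729 (@Lb.r r1706 (@Lb.g g11 (@Lb.d (nat_lit 64) (nat_lit 16) (nat_lit 68) (@Lb.t (@Lb.fm (nat_lit 3) t322)))))))))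
noncomputable def l10409 : Lb := (@Lb.r r331 (@Lb.d (nat_lit 672) (nat_lit 514) (nat_lit 2) (@Lb.g g8 (@Lb.g g9 (@Lb.g g10 (@Lb.r r362 (@Lb.r r1411 (@Lb.r r25 (@Lb.d (nat_lit 9) (nat_lit 166) (nat_lit 616) (@Lb.t (@Lb.fm (nat_lit 9) t394)))))))))))
noncomputable def l10410 : Lb := (@Lb.d (nat_lit 2) (nat_lit 649) (nat_lit 64) (@Lb.g g8 (@Lb.g g5 (@Lb.g g11 (@Lb.r r1447 (@Lb.r r2178 (@Lb.r r2584 (@Lb.d (nat_lit 89) (nat_lit 160) (nat_lit 400) (@Lb.t (@Lb.fp (nat_lit 9) t777))))))))))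
noncomputable def l10411 : Lb := (@Lb.r r323 (@Lb.d (nat_lit 0) (nat_lit 290) (nat_lit 18) (@Lb.g g9 (@Lb.g g10 (@Lb.r r595 (@Lb.r r1321 (@Lb.r r8 (@Lb.d (nat_lit 132) (nat_lit 105) (nat_lit 417) (@Lb.fp (nat_lit 3) t646)))))))))
noncomputable def l10412 : Lb := (@Lb.d (nat_lit 2) (nat_lit 33) (nat_lit 66) (@Lb.g g8 (@Lb.g g9 (@Lb.g g10 (@Lb.g g11 (@Lb.r r1706 (@Lb.r r1700 (@Lb.r r1575 (@Lb.r r1557 (@Lb.d (nat_lit 389) (nat_lit 96) (nat_lit 586) (@Lb.fp (nat_lit 9) t264)))))))))))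
noncomputable def l10413 : Lb := (@Lb.d (nat_lit 32) (nat_lit 8) (nat_lit 130) (@Lb.g g10 (@Lb.g g11 (@Lb.r r345 (@Lb.r r2471 (@Lb.r r1624 (@Lb.r r1382 (@Lb.d (nat_lit 345) (nat_lit 74) (nat_lit 534) (@Lb.fp (nat_lit 3) t210)))))))))
noncomputable def l10414 : Lb := (@Lb.d (nat_lit 8) (nat_lit 545) (nat_lit 66) (@Lb.g g8 (@Lb.g g9 (@Lb.g g10 (@Lb.g g11 (@Lb.r r1702 (@Lb.r r1060 (@Lb.r r1365 (@Lb.r r1315 (@Lb.d (nat_lit 601) (nat_lit 161) (nat_lit 324) (@Lb.fm (nat_lit 9) t2529)))))))))))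
noncomputable def l10415 : Lb := (@Lb.r r323 (@Lb.d (nat_lit 130) (nat_lit 514) (nat_lit 0) (@Lb.g g8 (@Lb.g g9 (@Lb.g g10 (@Lb.r r2667 (@Lb.r r1177 (@Lb.r r1626 (@Lb.r r72 (@Lb.d (nat_lit 34) (nat_lit 161) (nat_lit 329) (@Lb.t (@Lb.fm (nat_lit 9) t808))))))))))))
noncomputable def l10416 : Lb := (@Lb.r r21 (@Lb.d (nat_lit 10) (nat_lit 264) (nat_lit 130) (@Lb.g g8 (@Lb.g g10 (@Lb.g g11 (@Lb.r r427 (@Lb.r r533 (@Lb.r r360 (@Lb.r r582 (@Lb.d (nat_lit 153) (nat_lit 149) (nat_lit 136) (@Lb.t (@Lb.fp (nat_lit 9) t119))))))))))))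
noncomputable def l10417 : Lb := (@Lb.r r260 (@Lb.r r273 (@Lb.r r322 (@Lb.d (nat_lit 64) (nat_lit 256) (nat_lit 384) (@Lb.g g7 (@Lb.r r1316 (@Lb.r r101 (@Lb.r r146 (@Lb.d (nat_lit 353) (nat_lit 0) (nat_lit 608) (@Lb.t (@Lb.fm (nat_lit 3) t2530)))))))))))
noncomputable def l10418 : Lb := (@Lb.d (nat_lit 33) (nat_lit 514) (nat_lit 73) (@Lb.g g8 (@Lb.g g9 (@Lb.g g10 (@Lb.g g11 (@Lb.r r1707 (@Lb.r r2186 (@Lb.r r97 (@Lb.r r1560 (@Lb.d (nat_lit 544) (nat_lit 97) (nat_lit 553) (@Lb.fp (nat_lit 9) t2531)))))))))))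
noncomputable def l10419 : Lb := (@Lb.r r323 (@Lb.d (nat_lit 2) (nat_lit 258) (nat_lit 0) (@Lb.g g8 (@Lb.g g9 (@Lb.g g10 (@Lb.r r2459 (@Lb.r r2201 (@Lb.r r2650 (@Lb.d (nat_lit 98) (nat_lit 0) (nat_lit 660) (@Lb.t (@Lb.fm (nat_lit 9) t2532)))))))))))
noncomputable def l10420 : Lb := (@Lb.d (nat_lit 345) (nat_lit 154) (nat_lit 585) (@Lb.r r1380 (@Lb.r r1121 (@Lb.r r2411 (@Lb.g g10 (@Lb.g g5 (@Lb.g g4 (@Lb.d (nat_lit 65) (nat_lit 6) (nat_lit 34) (@Lb.r r403 (@Lb.t (@Lb.fp (nat_lit 9) t448)))))))))))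
noncomputable def l10421 : Lb := (@Lb.d (nat_lit 2) (nat_lit 2) (nat_lit 130) (@Lb.g g8 (@Lb.g g9 (@Lb.g g10 (@Lb.g g11 (@Lb.r r2467 (@Lb.r r168 (@Lb.r r426 (@Lb.r r1177 (@Lb.r r1156 (@Lb.d (nat_lit 521) (nat_lit 2) (nat_lit 330) (@Lb.fp (nat_lit 9) t445))))))))))))
noncomputable def l10422 : Lb := (@Lb.d (nat_lit 0) (nat_lit 290) (nat_lit 65) (@Lb.g g9 (@Lb.g g10 (@Lb.g g11 (@Lb.r r2723 (@Lb.r r1160 (@Lb.r r1610 (@Lb.r r2193 (@Lb.d (nat_lit 677) (nat_lit 72) (nat_lit 68) (@Lb.t (@Lb.fm (nat_lit 9) t2533)))))))))))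
noncomputable def l10423 : Lb := (@Lb.d (nat_lit 257) (nat_lit 256) (nat_lit 32) (@Lb.r r24 (@Lb.r r1125 (@Lb.r r2450 (@Lb.r r323 (@Lb.g g7 (@Lb.g g6 (@Lb.g g5 (@Lb.d (nat_lit 0) (nat_lit 1) (nat_lit 64) (@Lb.t (@Lb.fm (nat_lit 9) t218)))))))))))
noncomputable def l10424 : Lb := (@Lb.d (nat_lit 33) (nat_lit 545) (nat_lit 65) (@Lb.g g8 (@Lb.g g9 (@Lb.g g10 (@Lb.g g11 (@Lb.r r2595 (@Lb.r r2442 (@Lb.r r1177 (@Lb.r r1412 (@Lb.d (nat_lit 545) (nat_lit 160) (nat_lit 106) (@Lb.fp (nat_lit 9) t767)))))))))))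
noncomputable def l10425 : Lb := (@Lb.g g6 (@Lb.r r89 (@Lb.r r2150 (@Lb.d (nat_lit 512) (nat_lit 517) (nat_lit 17) (@Lb.t (@Lb.fm (nat_lit 3) t2534))))))
noncomputable def l10426 : Lb := (@Lb.d (nat_lit 136) (nat_lit 512) (nat_lit 64) (@Lb.g g9 (@Lb.g g11 (@Lb.r r1096 (@Lb.r r1350 (@Lb.r r2711 (@Lb.r r2325 (@Lb.d (nat_lit 657) (nat_lit 153) (nat_lit 17) (@Lb.fm (nat_lit 3) t2535)))))))))
noncomputable def l10427 : Lb := (@Lb.d (nat_lit 128) (nat_lit 512) (nat_lit 74) (@Lb.g g10 (@Lb.g g11 (@Lb.r r260 (@Lb.r r2635 (@Lb.r r2454 (@Lb.r r2145 (@Lb.d (nat_lit 576) (nat_lit 66) (nat_lit 512) (@Lb.fp (nat_lit 3) t1351)))))))))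
noncomputable def l10428 : Lb := (@Lb.r r82 (@Lb.d (nat_lit 274) (nat_lit 545) (nat_lit 64) (@Lb.g g4 (@Lb.g g9 (@Lb.g g11 (@Lb.r r1571 (@Lb.r r2438 (@Lb.r r145 (@Lb.d (nat_lit 1) (nat_lit 85) (nat_lit 2) (@Lb.t (@Lb.fp (nat_lit 9) t2536)))))))))))
noncomputable def l10429 : Lb := (@Lb.d (nat_lit 661) (nat_lit 642) (nat_lit 32) (@Lb.r r1128 (@Lb.r r1313 (@Lb.r r1686 (@Lb.r r2387 (@Lb.g g7 (@Lb.g g6 (@Lb.g g5 (@Lb.d (nat_lit 0) (nat_lit 1) (nat_lit 65) (@Lb.t (@Lb.fm (nat_lit 9) t487)))))))))))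
noncomputable def l10430 : Lb := (@Lb.r r21 (@Lb.r r70 (@Lb.d (nat_lit 656) (nat_lit 256) (nat_lit 256) (@Lb.g g4 (@Lb.g g7 (@Lb.r r2454 (@Lb.r r97 (@Lb.d (nat_lit 6) (nat_lit 128) (nat_lit 389) (@Lb.fm (nat_lit 3) t2537)))))))))
noncomputable def l10431 : Lb := (@Lb.d (nat_lit 0) (nat_lit 514) (nat_lit 9) (@Lb.g g9 (@Lb.g g6 (@Lb.r r515 (@Lb.r r97 (@Lb.r r36 (@Lb.d (nat_lit 2) (nat_lit 136) (nat_lit 128) (@Lb.fp (nat_lit 3) t253))))))))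
noncomputable def l10432 : Lb := (@Lb.d (nat_lit 129) (nat_lit 2) (nat_lit 66) (@Lb.g g8 (@Lb.g g9 (@Lb.g g10 (@Lb.g g11 (@Lb.r r2411 (@Lb.r r386 (@Lb.r r97 (@Lb.r r1624 (@Lb.d (nat_lit 665) (nat_lit 102) (nat_lit 84) (@Lb.fm (nat_lit 9) t960)))))))))))
noncomputable def l10433 : Lb := (@Lb.d (nat_lit 609) (nat_lit 513) (nat_lit 9) (@Lb.r r264 (@Lb.r r1351 (@Lb.r r658 (@Lb.g g7 (@Lb.g g5 (@Lb.g g4 (@Lb.d (nat_lit 70) (nat_lit 134) (nat_lit 128) (@Lb.r r74 (@Lb.t (@Lb.fp (nat_lit 9) t2160)))))))))))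
noncomputable def l10434 : Lb := (@Lb.d (nat_lit 18) (nat_lit 384) (nat_lit 281) (@Lb.r r2393 (@Lb.r r344 (@Lb.r r679 (@Lb.g g7 (@Lb.g g6 (@Lb.g g5 (@Lb.d (nat_lit 16) (nat_lit 8) (nat_lit 96) (@Lb.t (@Lb.fp (nat_lit 9) t2538))))))))))
noncomputable def l10435 : Lb := (@Lb.d (nat_lit 1) (nat_lit 22) (nat_lit 64) (@Lb.r r260 (@Lb.r r97 (@Lb.r r267 (@Lb.r r404 (@Lb.g g7 (@Lb.g g10 (@Lb.g g5 (@Lb.g g4 (@Lb.d (nat_lit 25) (nat_lit 10) (nat_lit 65) (@Lb.fp (nat_lit 9) t983)))))))))))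
noncomputable def l10436 : Lb := (@Lb.d (nat_lit 512) (nat_lit 384) (nat_lit 1) (@Lb.r r101 (@Lb.r r2403 (@Lb.g g6 (@Lb.d (nat_lit 0) (nat_lit 4) (nat_lit 1) (@Lb.t (@Lb.fp (nat_lit 3) t58)))))))
noncomputable def l10437 : Lb := (@Lb.r r82 (@Lb.r r275 (@Lb.d (nat_lit 274) (nat_lit 256) (nat_lit 0) (@Lb.g g8 (@Lb.g g9 (@Lb.r r2475 (@Lb.r r1174 (@Lb.r r2217 (@Lb.d (nat_lit 276) (nat_lit 73) (nat_lit 34) (@Lb.fm (nat_lit 3) t2539))))))))))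
noncomputable def l10438 : Lb := (@Lb.d (nat_lit 266) (nat_lit 514) (nat_lit 33) (@Lb.r r101 (@Lb.r r323 (@Lb.g g10 (@Lb.d (nat_lit 0) (nat_lit 0) (nat_lit 2) (@Lb.r r387 (@Lb.t (@Lb.fm (nat_lit 3) t116))))))))
noncomputable def l10439 : Lb := (@Lb.d (nat_lit 0) (nat_lit 265) (nat_lit 130) (@Lb.g g9 (@Lb.g g10 (@Lb.g g11 (@Lb.r r1671 (@Lb.r r2376 (@Lb.r r2662 (@Lb.r r97 (@Lb.d (nat_lit 292) (nat_lit 41) (nat_lit 276) (@Lb.t (@Lb.fp (nat_lit 9) t2540)))))))))))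
noncomputable def l10440 : Lb := (@Lb.d (nat_lit 280) (nat_lit 521) (nat_lit 32) (@Lb.g g4 (@Lb.t (@Lb.fm (nat_lit 3) t2541))))
noncomputable def l10441 : Lb := (@Lb.d (nat_lit 5) (nat_lit 65) (nat_lit 64) (@Lb.r r2580 (@Lb.r r2329 (@Lb.r r2378 (@Lb.g g7 (@Lb.d (nat_lit 64) (nat_lit 0) (nat_lit 576) (@Lb.t (@Lb.fm (nat_lit 3) t2491))))))))
noncomputable def l10442 : Lb := (@Lb.d (nat_lit 278) (nat_lit 648) (nat_lit 32) (@Lb.r r24 (@Lb.r r1045 (@Lb.r r1094 (@Lb.r r1287 (@Lb.g g4 (@Lb.d (nat_lit 1) (nat_lit 0) (nat_lit 0) (@Lb.t (@Lb.fp (nat_lit 3) t1268)))))))))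
noncomputable def l10443 : Lb := (@Lb.d (nat_lit 2) (nat_lit 514) (nat_lit 73) (@Lb.g g8 (@Lb.g g9 (@Lb.g g10 (@Lb.g g11 (@Lb.r r1699 (@Lb.r r164 (@Lb.r r614 (@Lb.r r2149 (@Lb.r r1156 (@Lb.d (nat_lit 521) (nat_lit 144) (nat_lit 576) (@Lb.fp (nat_lit 9) t2542))))))))))))
noncomputable def l10444 : Lb := (@Lb.r r82 (@Lb.d (nat_lit 2) (nat_lit 33) (nat_lit 64) (@Lb.g g8 (@Lb.g g9 (@Lb.g g11 (@Lb.r r673 (@Lb.r r2150 (@Lb.r r1688 (@Lb.r r1563 (@Lb.d (nat_lit 320) (nat_lit 96) (nat_lit 128) (@Lb.t (@Lb.fp (nat_lit 9) t404))))))))))))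
noncomputable def l10445 : Lb := (@Lb.d (nat_lit 129) (nat_lit 258) (nat_lit 66) (@Lb.g g8 (@Lb.g g9 (@Lb.g g10 (@Lb.g g11 (@Lb.r r419 (@Lb.r r1156 (@Lb.r r2438 (@Lb.r r97 (@Lb.d (nat_lit 522) (nat_lit 20) (nat_lit 404) (@Lb.fp (nat_lit 9) t2543)))))))))))
noncomputable def l10446 : Lb := (@Lb.d (nat_lit 0) (nat_lit 8) (nat_lit 2) (@Lb.g g10 (@Lb.r r2401 (@Lb.r r2642 (@Lb.d (nat_lit 10) (nat_lit 102) (nat_lit 362) (@Lb.t (@Lb.fm (nat_lit 3) t402)))))))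
noncomputable def l10447 : Lb := (@Lb.d (nat_lit 2) (nat_lit 261) (nat_lit 154) (@Lb.r r1300 (@Lb.r r601 (@Lb.r r283 (@Lb.r r276 (@Lb.g g6 (@Lb.d (nat_lit 0) (nat_lit 0) (nat_lit 2) (@Lb.r r387 (@Lb.t (@Lb.fm (nat_lit 3) t2372))))))))))
noncomputable def l10448 : Lb := (@Lb.d (nat_lit 130) (nat_lit 512) (nat_lit 1) (@Lb.g g8 (@Lb.g g10 (@Lb.r r2723 (@Lb.r r1610 (@Lb.r r1057 (@Lb.r r104 (@Lb.d (nat_lit 424) (nat_lit 16) (nat_lit 64) (@Lb.fp (nat_lit 3) t324)))))))))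
noncomputable def l10449 : Lb := (@Lb.d (nat_lit 32) (nat_lit 0) (nat_lit 1) (@Lb.g g10 (@Lb.r r2401 (@Lb.r r1687 (@Lb.r r2408 (@Lb.r r1174 (@Lb.d (nat_lit 293) (nat_lit 161) (nat_lit 90) (@Lb.t (@Lb.fp (nat_lit 3) t1519)))))))))
noncomputable def l10450 : Lb := (@Lb.d (nat_lit 34) (nat_lit 10) (nat_lit 64) (@Lb.g g8 (@Lb.g g9 (@Lb.g g11 (@Lb.r r1451 (@Lb.r r582 (@Lb.r r408 (@Lb.r r2197 (@Lb.d (nat_lit 21) (nat_lit 81) (nat_lit 521) (@Lb.t (@Lb.fp (nat_lit 9) t221)))))))))))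
noncomputable def l10451 : Lb := (@Lb.d (nat_lit 2) (nat_lit 274) (nat_lit 0) (@Lb.g g8 (@Lb.g g9 (@Lb.r r363 (@Lb.r r328 (@Lb.r r134 (@Lb.d (nat_lit 529) (nat_lit 9) (nat_lit 160) (@Lb.fm (nat_lit 3) t756))))))))
noncomputable def l10452 : Lb := (@Lb.d (nat_lit 0) (nat_lit 256) (nat_lit 128) (@Lb.g g4 (@Lb.g g11 (@Lb.r r2626 (@Lb.d (nat_lit 1) (nat_lit 0) (nat_lit 256) (@Lb.fp (nat_lit 3) t2))))))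
noncomputable def l10453 : Lb := (@Lb.d (nat_lit 0) (nat_lit 66) (nat_lit 0) (@Lb.g g5 (@Lb.r r260 (@Lb.r r523 (@Lb.r r1154 (@Lb.r r516 (@Lb.d (nat_lit 290) (nat_lit 66) (nat_lit 34) (@Lb.t (@Lb.fm (nat_lit 3) t980)))))))))
noncomputable def l10454 : Lb := (@Lb.d (nat_lit 1) (nat_lit 517) (nat_lit 74) (@Lb.g g8 (@Lb.g g5 (@Lb.g g10 (@Lb.g g11 (@Lb.r r659 (@Lb.r r578 (@Lb.r r36 (@Lb.d (nat_lit 5) (nat_lit 154) (nat_lit 137) (@Lb.fp (nat_lit 9) t1436))))))))))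
noncomputable def l10455 : Lb := (@Lb.d (nat_lit 2) (nat_lit 256) (nat_lit 1) (@Lb.g g8 (@Lb.g g10 (@Lb.r r353 (@Lb.r r667 (@Lb.r r660 (@Lb.r r150 (@Lb.d (nat_lit 37) (nat_lit 9) (nat_lit 137) (@Lb.fp (nat_lit 3) t87)))))))))
noncomputable def l10456 : Lb := (@Lb.d (nat_lit 2) (nat_lit 2) (nat_lit 73) (@Lb.g g8 (@Lb.g g9 (@Lb.g g10 (@Lb.g g11 (@Lb.r r683 (@Lb.r r676 (@Lb.r r166 (@Lb.r r37 (@Lb.d (nat_lit 521) (nat_lit 4) (nat_lit 152) (@Lb.fm (nat_lit 9) t232)))))))))))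
noncomputable def l10457 : Lb := (@Lb.r r82 (@Lb.d (nat_lit 2) (nat_lit 33) (nat_lit 64) (@Lb.g g8 (@Lb.g g9 (@Lb.g g11 (@Lb.r r555 (@Lb.r r612 (@Lb.r r90 (@Lb.r r37 (@Lb.d (nat_lit 528) (nat_lit 8) (nat_lit 153) (@Lb.t (@Lb.fm (nat_lit 9) t1012))))))))))))
noncomputable def l10458 : Lb := (@Lb.d (nat_lit 0) (nat_lit 261) (nat_lit 74) (@Lb.g g5 (@Lb.g g10 (@Lb.g g11 (@Lb.r r659 (@Lb.r r578 (@Lb.r r24 (@Lb.d (nat_lit 0) (nat_lit 153) (nat_lit 137) (@Lb.t (@Lb.fp (nat_lit 9) t1436))))))))))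
noncomputable def l10459 : Lb := (@Lb.d (nat_lit 66) (nat_lit 320) (nat_lit 645) (@Lb.r r597 (@Lb.r r1642 (@Lb.r r1352 (@Lb.r r2695 (@Lb.g g7 (@Lb.g g6 (@Lb.g g5 (@Lb.d (nat_lit 16) (nat_lit 0) (nat_lit 134) (@Lb.t (@Lb.fp (nat_lit 9) t221)))))))))))
noncomputable def l10460 : Lb := (@Lb.d (nat_lit 0) (nat_lit 582) (nat_lit 74) (@Lb.r r24 (@Lb.r r609 (@Lb.r r322 (@Lb.r r675 (@Lb.g g7 (@Lb.g g6 (@Lb.g g5 (@Lb.d (nat_lit 0) (nat_lit 26) (nat_lit 5) (@Lb.t (@Lb.fm (nat_lit 9) t374)))))))))))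
noncomputable def l10461 : Lb := (@Lb.d (nat_lit 133) (nat_lit 264) (nat_lit 68) (@Lb.r r24 (@Lb.r r97 (@Lb.r r386 (@Lb.r r343 (@Lb.g g7 (@Lb.g g6 (@Lb.g g5 (@Lb.d (nat_lit 0) (nat_lit 1) (nat_lit 129) (@Lb.t (@Lb.fm (nat_lit 9) t2544)))))))))))
noncomputable def l10462 : Lb := (@Lb.d (nat_lit 9) (nat_lit 0) (nat_lit 0) (@Lb.g g8 (@Lb.d (nat_lit 10) (nat_lit 132) (nat_lit 1) (@Lb.t (@Lb.fp (nat_lit 3) t45)))))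
noncomputable def l10463 : Lb := (@Lb.d (nat_lit 2) (nat_lit 260) (nat_lit 128) (@Lb.g g8 (@Lb.g g9 (@Lb.g g10 (@Lb.g g11 (@Lb.r r427 (@Lb.r r297 (@Lb.r r104 (@Lb.r r70 (@Lb.r r132 (@Lb.d (nat_lit 9) (nat_lit 154) (nat_lit 137) (@Lb.fp (nat_lit 9) t1436))))))))))))
noncomputable def l10464 : Lb := (@Lb.d (nat_lit 2) (nat_lit 2) (nat_lit 2) (@Lb.g g8 (@Lb.g g9 (@Lb.g g10 (@Lb.g g11 (@Lb.r r427 (@Lb.r r106 (@Lb.r r25 (@Lb.d (nat_lit 9) (nat_lit 4) (nat_lit 1) (@Lb.fp (nat_lit 9) t51))))))))))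
noncomputable def l10465 : Lb := (@Lb.d (nat_lit 2) (nat_lit 10) (nat_lit 128) (@Lb.g g8 (@Lb.g g9 (@Lb.g g11 (@Lb.r r134 (@Lb.r r584 (@Lb.r r427 (@Lb.r r417 (@Lb.d (nat_lit 8) (nat_lit 1) (nat_lit 137) (@Lb.t (@Lb.fp (nat_lit 9) t119)))))))))))
noncomputable def l10466 : Lb := (@Lb.d (nat_lit 4) (nat_lit 6) (nat_lit 137) (@Lb.r r609 (@Lb.r r619 (@Lb.r r584 (@Lb.r r134 (@Lb.g g7 (@Lb.g g4 (@Lb.d (nat_lit 1) (nat_lit 0) (nat_lit 64) (@Lb.fm (nat_lit 3) t39)))))))))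
noncomputable def l10467 : Lb := (@Lb.r r68 (@Lb.r r323 (@Lb.d (nat_lit 0) (nat_lit 516) (nat_lit 0) (@Lb.g g9 (@Lb.g g10 (@Lb.r r1685 (@Lb.r r1559 (@Lb.r r2312 (@Lb.d (nat_lit 34) (nat_lit 0) (nat_lit 161) (@Lb.fm (nat_lit 3) t1919))))))))))
noncomputable def l10468 : Lb := (@Lb.r r323 (@Lb.d (nat_lit 33) (nat_lit 260) (nat_lit 0) (@Lb.g g8 (@Lb.g g9 (@Lb.g g10 (@Lb.r r1689 (@Lb.r r1563 (@Lb.r r1540 (@Lb.d (nat_lit 418) (nat_lit 0) (nat_lit 609) (@Lb.t (@Lb.fp (nat_lit 9) t1033)))))))))))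
noncomputable def l10469 : Lb := (@Lb.r r82 (@Lb.d (nat_lit 0) (nat_lit 514) (nat_lit 8) (@Lb.g g8 (@Lb.g g9 (@Lb.g g11 (@Lb.r r138 (@Lb.r r2713 (@Lb.r r664 (@Lb.r r411 (@Lb.d (nat_lit 514) (nat_lit 24) (nat_lit 425) (@Lb.t (@Lb.fm (nat_lit 9) t42))))))))))))
noncomputable def l10470 : Lb := (@Lb.d (nat_lit 0) (nat_lit 289) (nat_lit 130) (@Lb.g g9 (@Lb.g g10 (@Lb.g g11 (@Lb.r r1699 (@Lb.r r1642 (@Lb.r r1561 (@Lb.d (nat_lit 681) (nat_lit 105) (nat_lit 513) (@Lb.t (@Lb.fp (nat_lit 9) t2545))))))))))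
noncomputable def l10471 : Lb := (@Lb.d (nat_lit 16) (nat_lit 520) (nat_lit 129) (@Lb.g g6 (@Lb.g g11 (@Lb.r r584 (@Lb.r r619 (@Lb.r r609 (@Lb.d (nat_lit 10) (nat_lit 89) (nat_lit 152) (@Lb.fm (nat_lit 3) t988))))))))
noncomputable def l10472 : Lb := (@Lb.d (nat_lit 517) (nat_lit 392) (nat_lit 0) (@Lb.r r101 (@Lb.r r2403 (@Lb.g g6 (@Lb.d (nat_lit 0) (nat_lit 4) (nat_lit 1) (@Lb.t (@Lb.fp (nat_lit 3) t2546)))))))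
noncomputable def l10473 : Lb := (@Lb.d (nat_lit 0) (nat_lit 520) (nat_lit 128) (@Lb.g g10 (@Lb.g g11 (@Lb.r r403 (@Lb.r r1636 (@Lb.r r613 (@Lb.r r1370 (@Lb.d (nat_lit 40) (nat_lit 5) (nat_lit 278) (@Lb.fp (nat_lit 3) t1495)))))))))
noncomputable def l10474 : Lb := (@Lb.d (nat_lit 160) (nat_lit 520) (nat_lit 74) (@Lb.g g10 (@Lb.g g11 (@Lb.r r105 (@Lb.r r280 (@Lb.r r1623 (@Lb.r r1362 (@Lb.d (nat_lit 534) (nat_lit 144) (nat_lit 389) (@Lb.fp (nat_lit 3) t2)))))))))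
noncomputable def l10475 : Lb := (@Lb.d (nat_lit 16) (nat_lit 256) (nat_lit 130) (@Lb.g g9 (@Lb.g g6 (@Lb.g g11 (@Lb.r r584 (@Lb.r r619 (@Lb.r r609 (@Lb.d (nat_lit 8) (nat_lit 66) (nat_lit 17) (@Lb.t (@Lb.fm (nat_lit 9) t334))))))))))
noncomputable def l10476 : Lb := (@Lb.r r283 (@Lb.d (nat_lit 132) (nat_lit 288) (nat_lit 2) (@Lb.g g8 (@Lb.g g9 (@Lb.g g10 (@Lb.r r2643 (@Lb.r r386 (@Lb.r r1109 (@Lb.r r548 (@Lb.d (nat_lit 345) (nat_lit 25) (nat_lit 658) (@Lb.t (@Lb.fm (nat_lit 9) t31))))))))))))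
noncomputable def l10477 : Lb := (@Lb.r r90 (@Lb.r r283 (@Lb.d (nat_lit 5) (nat_lit 416) (nat_lit 0) (@Lb.g g8 (@Lb.g g9 (@Lb.r r1555 (@Lb.r r70 (@Lb.r r1668 (@Lb.d (nat_lit 34) (nat_lit 2) (nat_lit 38) (@Lb.fp (nat_lit 3) t1919))))))))))
noncomputable def l10478 : Lb := (@Lb.r r323 (@Lb.d (nat_lit 6) (nat_lit 320) (nat_lit 0) (@Lb.g g4 (@Lb.g g9 (@Lb.g g10 (@Lb.r r419 (@Lb.r r98 (@Lb.d (nat_lit 1) (nat_lit 2) (nat_lit 0) (@Lb.t (@Lb.fp (nat_lit 9) t51))))))))))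
noncomputable def l10479 : Lb := (@Lb.d (nat_lit 256) (nat_lit 512) (nat_lit 96) (@Lb.r r134 (@Lb.r r328 (@Lb.r r407 (@Lb.r r609 (@Lb.g g4 (@Lb.t (@Lb.fp (nat_lit 3) t334))))))))
noncomputable def l10480 : Lb := (@Lb.r r323 (@Lb.d (nat_lit 2) (nat_lit 34) (nat_lit 2) (@Lb.g g8 (@Lb.g g9 (@Lb.g g10 (@Lb.r r599 (@Lb.r r74 (@Lb.r r296 (@Lb.r r409 (@Lb.d (nat_lit 149) (nat_lit 149) (nat_lit 386) (@Lb.t (@Lb.fm (nat_lit 9) t119))))))))))))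
noncomputable def l10481 : Lb := (@Lb.d (nat_lit 2) (nat_lit 258) (nat_lit 128) (@Lb.g g8 (@Lb.g g9 (@Lb.g g10 (@Lb.g g11 (@Lb.r r643 (@Lb.r r328 (@Lb.r r1638 (@Lb.r r97 (@Lb.r r2084 (@Lb.d (nat_lit 544) (nat_lit 66) (nat_lit 68) (@Lb.fm (nat_lit 9) t1827))))))))))))
noncomputable def l10482 : Lb := (@Lb.r r359 (@Lb.d (nat_lit 10) (nat_lit 0) (nat_lit 18) (@Lb.g g8 (@Lb.g g9 (@Lb.g g6 (@Lb.r r2667 (@Lb.r r36 (@Lb.r r2149 (@Lb.d (nat_lit 294) (nat_lit 132) (nat_lit 69) (@Lb.t (@Lb.fp (nat_lit 9) t1369)))))))))))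
noncomputable def l10483 : Lb := (@Lb.d (nat_lit 2) (nat_lit 258) (nat_lit 130) (@Lb.g g8 (@Lb.g g9 (@Lb.g g10 (@Lb.g g11 (@Lb.r r427 (@Lb.r r386 (@Lb.r r97 (@Lb.r r24 (@Lb.d (nat_lit 265) (nat_lit 2) (nat_lit 586) (@Lb.fm (nat_lit 9) t756)))))))))))
noncomputable def l10484 : Lb := (@Lb.r r322 (@Lb.d (nat_lit 9) (nat_lit 257) (nat_lit 8) (@Lb.g g8 (@Lb.g g9 (@Lb.g g11 (@Lb.r r1625 (@Lb.r r2150 (@Lb.r r1156 (@Lb.d (nat_lit 342) (nat_lit 33) (nat_lit 88) (@Lb.t (@Lb.fm (nat_lit 9) t1990)))))))))))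
noncomputable def l10485 : Lb := (@Lb.d (nat_lit 2) (nat_lit 2) (nat_lit 130) (@Lb.g g8 (@Lb.g g9 (@Lb.g g10 (@Lb.g g11 (@Lb.r r427 (@Lb.r r297 (@Lb.r r104 (@Lb.r r70 (@Lb.r r132 (@Lb.d (nat_lit 2) (nat_lit 137) (nat_lit 386) (@Lb.fp (nat_lit 9) t119))))))))))))
noncomputable def l10486 : Lb := (@Lb.d (nat_lit 2) (nat_lit 512) (nat_lit 128) (@Lb.g g8 (@Lb.g g11 (@Lb.r r406 (@Lb.r r1643 (@Lb.r r1633 (@Lb.r r24 (@Lb.d (nat_lit 265) (nat_lit 153) (nat_lit 66) (@Lb.fm (nat_lit 3) t1741)))))))))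
noncomputable def l10487 : Lb := (@Lb.d (nat_lit 1) (nat_lit 522) (nat_lit 656) (@Lb.r r402 (@Lb.r r1121 (@Lb.g g11 (@Lb.g g4 (@Lb.d (nat_lit 1) (nat_lit 0) (nat_lit 0) (@Lb.fp (nat_lit 3) t2547)))))))
noncomputable def l10488 : Lb := (@Lb.d (nat_lit 149) (nat_lit 22) (nat_lit 128) (@Lb.r r21 (@Lb.r r406 (@Lb.r r104 (@Lb.g g11 (@Lb.g g5 (@Lb.d (nat_lit 0) (nat_lit 1) (nat_lit 0) (@Lb.fp (nat_lit 3) t263))))))))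
noncomputable def l10489 : Lb := (@Lb.d (nat_lit 610) (nat_lit 522) (nat_lit 293) (@Lb.r r1608 (@Lb.r r402 (@Lb.r r85 (@Lb.g g8 (@Lb.d (nat_lit 5) (nat_lit 0) (nat_lit 0) (@Lb.t (@Lb.fp (nat_lit 3) t2548))))))))
noncomputable def l10490 : Lb := (@Lb.d (nat_lit 5) (nat_lit 70) (nat_lit 386) (@Lb.r r2663 (@Lb.r r360 (@Lb.r r150 (@Lb.g g7 (@Lb.g g9 (@Lb.g g4 (@Lb.d (nat_lit 17) (nat_lit 70) (nat_lit 132) (@Lb.t (@Lb.fp (nat_lit 9) t2549))))))))))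
noncomputable def l10491 : Lb := (@Lb.d (nat_lit 0) (nat_lit 394) (nat_lit 324) (@Lb.r r402 (@Lb.g g11 (@Lb.t (@Lb.fm (nat_lit 3) t305)))))
noncomputable def l10492 : Lb := (@Lb.d (nat_lit 529) (nat_lit 266) (nat_lit 289) (@Lb.r r2116 (@Lb.r r402 (@Lb.r r2649 (@Lb.g g11 (@Lb.g g4 (@Lb.d (nat_lit 5) (nat_lit 0) (nat_lit 0) (@Lb.fm (nat_lit 3) t2550))))))))
noncomputable def l10493 : Lb := (@Lb.d (nat_lit 9) (nat_lit 36) (nat_lit 128) (@Lb.g g8 (@Lb.g g9 (@Lb.g g10 (@Lb.g g11 (@Lb.r r1702 (@Lb.r r2600 (@Lb.r r2667 (@Lb.r r1369 (@Lb.d (nat_lit 682) (nat_lit 101) (nat_lit 536) (@Lb.fm (nat_lit 9) t125)))))))))))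
noncomputable def l10494 : Lb := (@Lb.r r322 (@Lb.d (nat_lit 0) (nat_lit 0) (nat_lit 576) (@Lb.g g4 (@Lb.g g7 (@Lb.r r2122 (@Lb.d (nat_lit 576) (nat_lit 0) (nat_lit 576) (@Lb.fm (nat_lit 3) t282)))))))
noncomputable def l10495 : Lb := (@Lb.d (nat_lit 10) (nat_lit 256) (nat_lit 0) (@Lb.g g8 (@Lb.r r149 (@Lb.r r402 (@Lb.r r2436 (@Lb.d (nat_lit 610) (nat_lit 0) (nat_lit 66) (@Lb.t (@Lb.fm (nat_lit 3) t311))))))))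
noncomputable def l10496 : Lb := (@Lb.r r323 (@Lb.d (nat_lit 9) (nat_lit 545) (nat_lit 2) (@Lb.g g8 (@Lb.g g9 (@Lb.g g10 (@Lb.r r599 (@Lb.r r74 (@Lb.r r296 (@Lb.r r409 (@Lb.d (nat_lit 149) (nat_lit 38) (nat_lit 137) (@Lb.t (@Lb.fm (nat_lit 9) t119))))))))))))
noncomputable def l10497 : Lb := (@Lb.d (nat_lit 9) (nat_lit 513) (nat_lit 130) (@Lb.g g8 (@Lb.g g9 (@Lb.g g10 (@Lb.g g11 (@Lb.r r427 (@Lb.r r297 (@Lb.r r104 (@Lb.r r70 (@Lb.r r132 (@Lb.d (nat_lit 2) (nat_lit 26) (nat_lit 137) (@Lb.fp (nat_lit 9) t119))))))))))))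
noncomputable def l10498 : Lb := (@Lb.d (nat_lit 2) (nat_lit 258) (nat_lit 130) (@Lb.g g8 (@Lb.g g9 (@Lb.g g10 (@Lb.g g11 (@Lb.r r427 (@Lb.r r297 (@Lb.r r104 (@Lb.r r70 (@Lb.r r132 (@Lb.d (nat_lit 2) (nat_lit 26) (nat_lit 137) (@Lb.fp (nat_lit 9) t119))))))))))))
noncomputable def l10499 : Lb := (@Lb.d (nat_lit 101) (nat_lit 297) (nat_lit 70) (@Lb.r r260 (@Lb.r r277 (@Lb.r r619 (@Lb.r r516 (@Lb.g g7 (@Lb.g g10 (@Lb.g g5 (@Lb.g g4 (@Lb.d (nat_lit 18) (nat_lit 1) (nat_lit 132) (@Lb.fp (nat_lit 9) t521)))))))))))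
noncomputable def l10500 : Lb := (@Lb.d (nat_lit 128) (nat_lit 544) (nat_lit 128) (@Lb.g g11 (@Lb.r r1369 (@Lb.r r1304 (@Lb.r r2599 (@Lb.r r2178 (@Lb.d (nat_lit 650) (nat_lit 16) (nat_lit 386) (@Lb.t (@Lb.fm (nat_lit 3) t2551)))))))))
noncomputable def l10501 : Lb := (@Lb.d (nat_lit 2) (nat_lit 2) (nat_lit 128) (@Lb.g g8 (@Lb.g g9 (@Lb.g g10 (@Lb.g g11 (@Lb.r r553 (@Lb.r r299 (@Lb.r r356 (@Lb.r r154 (@Lb.d (nat_lit 8) (nat_lit 137) (nat_lit 105) (@Lb.fp (nat_lit 9) t360)))))))))))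
noncomputable def l10502 : Lb := (@Lb.r r323 (@Lb.d (nat_lit 130) (nat_lit 34) (nat_lit 10) (@Lb.g g8 (@Lb.g g9 (@Lb.g g10 (@Lb.r r1303 (@Lb.r r616 (@Lb.r r1110 (@Lb.r r2705 (@Lb.d (nat_lit 645) (nat_lit 25) (nat_lit 33) (@Lb.t (@Lb.fp (nat_lit 9) t324))))))))))))
noncomputable def l10503 : Lb := (@Lb.r r323 (@Lb.d (nat_lit 2) (nat_lit 546) (nat_lit 0) (@Lb.g g8 (@Lb.g g9 (@Lb.g g10 (@Lb.r r2474 (@Lb.r r2468 (@Lb.r r1307 (@Lb.r r2661 (@Lb.d (nat_lit 666) (nat_lit 85) (nat_lit 324) (@Lb.t (@Lb.fm (nat_lit 9) t228))))))))))))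
noncomputable def l10504 : Lb := (@Lb.d (nat_lit 2) (nat_lit 321) (nat_lit 70) (@Lb.r r24 (@Lb.r r417 (@Lb.r r322 (@Lb.r r675 (@Lb.g g6 (@Lb.g g5 (@Lb.d (nat_lit 0) (nat_lit 8) (nat_lit 0) (@Lb.r r291 (@Lb.fp (nat_lit 3) t546))))))))))
noncomputable def l10505 : Lb := (@Lb.d (nat_lit 2) (nat_lit 2) (nat_lit 128) (@Lb.g g8 (@Lb.g g9 (@Lb.g g10 (@Lb.g g11 (@Lb.r r2723 (@Lb.r r2453 (@Lb.r r356 (@Lb.r r154 (@Lb.d (nat_lit 665) (nat_lit 10) (nat_lit 345) (@Lb.fp (nat_lit 9) t228)))))))))))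
noncomputable def l10506 : Lb := (@Lb.d (nat_lit 0) (nat_lit 0) (nat_lit 136) (@Lb.g g11 (@Lb.r r402 (@Lb.r r101 (@Lb.r r24 (@Lb.d (nat_lit 0) (nat_lit 0) (nat_lit 128) (@Lb.t (@Lb.fm (nat_lit 3) t145))))))))
noncomputable def l10507 : Lb := (@Lb.d (nat_lit 0) (nat_lit 256) (nat_lit 128) (@Lb.g g9 (@Lb.g g10 (@Lb.g g11 (@Lb.r r2339 (@Lb.r r594 (@Lb.r r2341 (@Lb.r r24 (@Lb.d (nat_lit 2) (nat_lit 0) (nat_lit 0) (@Lb.t (@Lb.fm (nat_lit 9) t468)))))))))))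
noncomputable def l10508 : Lb := (@Lb.r r515 (@Lb.r r130 (@Lb.r r33 (@Lb.r r36 (@Lb.d (nat_lit 1) (nat_lit 640) (nat_lit 0) (@Lb.fm (nat_lit 1) t2))))))
noncomputable def l10509 : Lb := (@Lb.r r20 (@Lb.d (nat_lit 0) (nat_lit 514) (nat_lit 2) (@Lb.g g9 (@Lb.g g6 (@Lb.r r515 (@Lb.r r1121 (@Lb.d (nat_lit 8) (nat_lit 138) (nat_lit 16) (@Lb.fp (nat_lit 3) t39))))))))
noncomputable def l10510 : Lb := (@Lb.r r21 (@Lb.d (nat_lit 32) (nat_lit 0) (nat_lit 130) (@Lb.g g8 (@Lb.g g10 (@Lb.g g11 (@Lb.r r2635 (@Lb.r r1626 (@Lb.r r145 (@Lb.r r532 (@Lb.d (nat_lit 386) (nat_lit 166) (nat_lit 129) (@Lb.t (@Lb.fp (nat_lit 9) t394))))))))))))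
noncomputable def l10511 : Lb := (@Lb.d (nat_lit 10) (nat_lit 21) (nat_lit 8) (@Lb.r r673 (@Lb.r r618 (@Lb.r r344 (@Lb.r r679 (@Lb.g g7 (@Lb.g g6 (@Lb.g g5 (@Lb.d (nat_lit 8) (nat_lit 1) (nat_lit 65) (@Lb.t (@Lb.fm (nat_lit 9) t74)))))))))))
noncomputable def l10512 : Lb := (@Lb.r r323 (@Lb.d (nat_lit 132) (nat_lit 256) (nat_lit 17) (@Lb.g g8 (@Lb.g g9 (@Lb.g g6 (@Lb.r r1385 (@Lb.r r2583 (@Lb.r r2468 (@Lb.d (nat_lit 616) (nat_lit 102) (nat_lit 650) (@Lb.t (@Lb.fp (nat_lit 9) t791)))))))))))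
noncomputable def l10513 : Lb := (@Lb.d (nat_lit 0) (nat_lit 265) (nat_lit 130) (@Lb.g g9 (@Lb.g g10 (@Lb.g g11 (@Lb.r r2407 (@Lb.r r417 (@Lb.r r1096 (@Lb.r r2150 (@Lb.d (nat_lit 132) (nat_lit 24) (nat_lit 404) (@Lb.t (@Lb.fm (nat_lit 9) t394)))))))))))
noncomputable def l10514 : Lb := (@Lb.d (nat_lit 4) (nat_lit 512) (nat_lit 130) (@Lb.g g8 (@Lb.g g9 (@Lb.g g10 (@Lb.g g11 (@Lb.r r427 (@Lb.r r145 (@Lb.r r356 (@Lb.r r154 (@Lb.r r132 (@Lb.d (nat_lit 4) (nat_lit 1) (nat_lit 2) (@Lb.fm (nat_lit 9) t61))))))))))))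
noncomputable def l10515 : Lb := (@Lb.r r515 (@Lb.r r130 (@Lb.r r33 (@Lb.r r36 (@Lb.d (nat_lit 8) (nat_lit 130) (nat_lit 0) (@Lb.fm (nat_lit 1) t2))))))
noncomputable def l10516 : Lb := (@Lb.d (nat_lit 8) (nat_lit 514) (nat_lit 130) (@Lb.g g9 (@Lb.g g10 (@Lb.g g11 (@Lb.r r586 (@Lb.r r584 (@Lb.r r299 (@Lb.r r289 (@Lb.d (nat_lit 2) (nat_lit 138) (nat_lit 2) (@Lb.t (@Lb.fm (nat_lit 9) t51)))))))))))
noncomputable def l10517 : Lb := (@Lb.d (nat_lit 360) (nat_lit 72) (nat_lit 357) (@Lb.r r2410 (@Lb.r r2455 (@Lb.g g6 (@Lb.g g5 (@Lb.d (nat_lit 0) (nat_lit 5) (nat_lit 4) (@Lb.fm (nat_lit 3) t2552)))))))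
noncomputable def l10518 : Lb := (@Lb.d (nat_lit 0) (nat_lit 528) (nat_lit 2) (@Lb.g g9 (@Lb.g g10 (@Lb.g g11 (@Lb.r r579 (@Lb.r r1686 (@Lb.r r1620 (@Lb.r r2345 (@Lb.d (nat_lit 641) (nat_lit 161) (nat_lit 640) (@Lb.t (@Lb.fp (nat_lit 9) t1702)))))))))))
noncomputable def l10519 : Lb := (@Lb.r r323 (@Lb.d (nat_lit 40) (nat_lit 513) (nat_lit 36) (@Lb.g g8 (@Lb.g g9 (@Lb.g g6 (@Lb.r r1643 (@Lb.r r1561 (@Lb.r r1556 (@Lb.d (nat_lit 389) (nat_lit 161) (nat_lit 641) (@Lb.t (@Lb.fm (nat_lit 9) t50)))))))))))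
noncomputable def l10520 : Lb := (@Lb.r r82 (@Lb.d (nat_lit 2) (nat_lit 258) (nat_lit 128) (@Lb.g g8 (@Lb.g g9 (@Lb.g g11 (@Lb.r r2601 (@Lb.r r2411 (@Lb.r r2404 (@Lb.r r1610 (@Lb.d (nat_lit 256) (nat_lit 10) (nat_lit 130) (@Lb.t (@Lb.fp (nat_lit 9) t813))))))))))))
noncomputable def l10521 : Lb := (@Lb.d (nat_lit 38) (nat_lit 512) (nat_lit 128) (@Lb.g g8 (@Lb.g g11 (@Lb.r r405 (@Lb.r r598 (@Lb.r r2391 (@Lb.r r1704 (@Lb.d (nat_lit 69) (nat_lit 150) (nat_lit 677) (@Lb.fp (nat_lit 3) t145)))))))))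
noncomputable def l10522 : Lb := (@Lb.d (nat_lit 8) (nat_lit 1) (nat_lit 66) (@Lb.g g8 (@Lb.g g9 (@Lb.g g10 (@Lb.g g11 (@Lb.r r1602 (@Lb.r r2647 (@Lb.r r292 (@Lb.r r1045 (@Lb.r r2084 (@Lb.d (nat_lit 36) (nat_lit 102) (nat_lit 673) (@Lb.fm (nat_lit 9) t2553))))))))))))
noncomputable def l10523 : Lb := (@Lb.d (nat_lit 296) (nat_lit 512) (nat_lit 169) (@Lb.r r2696 (@Lb.r r2634 (@Lb.r r1683 (@Lb.g g6 (@Lb.g g5 (@Lb.g g4 (@Lb.d (nat_lit 6) (nat_lit 18) (nat_lit 1) (@Lb.r r279 (@Lb.t (@Lb.fp (nat_lit 9) t264)))))))))))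
noncomputable def l10524 : Lb := (@Lb.d (nat_lit 0) (nat_lit 256) (nat_lit 128) (@Lb.g g4 (@Lb.g g11 (@Lb.r r2577 (@Lb.d (nat_lit 1) (nat_lit 0) (nat_lit 256) (@Lb.fp (nat_lit 3) t121))))))
noncomputable def l10525 : Lb := (@Lb.d (nat_lit 585) (nat_lit 293) (nat_lit 389) (@Lb.r r1559 (@Lb.r r2388 (@Lb.r r1706 (@Lb.g g7 (@Lb.g g6 (@Lb.g g5 (@Lb.g g4 (@Lb.d (nat_lit 73) (nat_lit 17) (nat_lit 1) (@Lb.fp (nat_lit 9) t264))))))))))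
noncomputable def l10526 : Lb := (@Lb.d (nat_lit 136) (nat_lit 257) (nat_lit 66) (@Lb.g g8 (@Lb.g g9 (@Lb.g g10 (@Lb.g g11 (@Lb.r r2631 (@Lb.r r666 (@Lb.r r421 (@Lb.r r616 (@Lb.d (nat_lit 406) (nat_lit 137) (nat_lit 290) (@Lb.fp (nat_lit 9) t842)))))))))))
noncomputable def l10527 : Lb := (@Lb.d (nat_lit 33) (nat_lit 260) (nat_lit 128) (@Lb.g g8 (@Lb.g g9 (@Lb.g g10 (@Lb.g g11 (@Lb.r r2731 (@Lb.r r680 (@Lb.r r138 (@Lb.r r97 (@Lb.r r1060 (@Lb.d (nat_lit 277) (nat_lit 104) (nat_lit 146) (@Lb.fp (nat_lit 9) t125))))))))))))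
noncomputable def l10528 : Lb := (@Lb.r r327 (@Lb.d (nat_lit 34) (nat_lit 4) (nat_lit 0) (@Lb.g g8 (@Lb.g g9 (@Lb.g g10 (@Lb.r r683 (@Lb.r r1194 (@Lb.r r1177 (@Lb.r r1156 (@Lb.d (nat_lit 290) (nat_lit 2) (nat_lit 2) (@Lb.t (@Lb.fm (nat_lit 9) t2554))))))))))))
noncomputable def l10529 : Lb := (@Lb.d (nat_lit 9) (nat_lit 257) (nat_lit 130) (@Lb.g g8 (@Lb.g g9 (@Lb.g g10 (@Lb.g g11 (@Lb.r r355 (@Lb.r r1414 (@Lb.r r2153 (@Lb.r r2648 (@Lb.d (nat_lit 38) (nat_lit 165) (nat_lit 554) (@Lb.fm (nat_lit 9) t2555)))))))))))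
noncomputable def l10530 : Lb := (@Lb.d (nat_lit 0) (nat_lit 6) (nat_lit 128) (@Lb.g g9 (@Lb.g g10 (@Lb.g g11 (@Lb.r r1419 (@Lb.r r1450 (@Lb.r r153 (@Lb.r r24 (@Lb.d (nat_lit 344) (nat_lit 97) (nat_lit 257) (@Lb.t (@Lb.fm (nat_lit 9) t2556)))))))))))
noncomputable def l10531 : Lb := (@Lb.d (nat_lit 578) (nat_lit 600) (nat_lit 89) (@Lb.r r360 (@Lb.r r2137 (@Lb.r r2667 (@Lb.r r358 (@Lb.g g7 (@Lb.g g6 (@Lb.g g4 (@Lb.d (nat_lit 70) (nat_lit 0) (nat_lit 65) (@Lb.t (@Lb.fp (nat_lit 9) t2408)))))))))))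
noncomputable def l10532 : Lb := (@Lb.d (nat_lit 33) (nat_lit 4) (nat_lit 128) (@Lb.g g8 (@Lb.g g9 (@Lb.g g10 (@Lb.g g11 (@Lb.r r2731 (@Lb.r r680 (@Lb.r r138 (@Lb.r r97 (@Lb.r r1060 (@Lb.d (nat_lit 272) (nat_lit 101) (nat_lit 145) (@Lb.fp (nat_lit 9) t789))))))))))))
noncomputable def l10533 : Lb := (@Lb.d (nat_lit 0) (nat_lit 258) (nat_lit 130) (@Lb.g g9 (@Lb.g g10 (@Lb.g g11 (@Lb.r r427 (@Lb.r r417 (@Lb.r r98 (@Lb.r r24 (@Lb.d (nat_lit 74) (nat_lit 137) (nat_lit 388) (@Lb.t (@Lb.fm (nat_lit 9) t446)))))))))))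
noncomputable def l10534 : Lb := (@Lb.d (nat_lit 546) (nat_lit 517) (nat_lit 16) (@Lb.g g5 (@Lb.t (@Lb.fm (nat_lit 3) t360))))
noncomputable def l10535 : Lb := (@Lb.d (nat_lit 1) (nat_lit 258) (nat_lit 130) (@Lb.g g8 (@Lb.g g9 (@Lb.g g10 (@Lb.g g11 (@Lb.r r2666 (@Lb.r r612 (@Lb.r r615 (@Lb.r r2657 (@Lb.r r2084 (@Lb.d (nat_lit 10) (nat_lit 164) (nat_lit 665) (@Lb.fp (nat_lit 9) t71))))))))))))
noncomputable def l10536 : Lb := (@Lb.d (nat_lit 2) (nat_lit 2) (nat_lit 73) (@Lb.g g8 (@Lb.g g9 (@Lb.g g10 (@Lb.g g11 (@Lb.r r2666 (@Lb.r r579 (@Lb.r r97 (@Lb.r r24 (@Lb.d (nat_lit 426) (nat_lit 4) (nat_lit 358) (@Lb.fm (nat_lit 9) t61)))))))))))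
noncomputable def l10537 : Lb := (@Lb.d (nat_lit 421) (nat_lit 325) (nat_lit 18) (@Lb.r r1684 (@Lb.r r2710 (@Lb.r r1641 (@Lb.g g11 (@Lb.g g5 (@Lb.g g4 (@Lb.d (nat_lit 16) (nat_lit 1) (nat_lit 128) (@Lb.t (@Lb.fm (nat_lit 9) t2557))))))))))
noncomputable def l10538 : Lb := (@Lb.d (nat_lit 401) (nat_lit 0) (nat_lit 513) (@Lb.r r1604 (@Lb.r r146 (@Lb.r r345 (@Lb.g g11 (@Lb.g g4 (@Lb.d (nat_lit 5) (nat_lit 0) (nat_lit 384) (@Lb.r r578 (@Lb.fm (nat_lit 3) t1471)))))))))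
noncomputable def l10539 : Lb := (@Lb.d (nat_lit 8) (nat_lit 546) (nat_lit 0) (@Lb.g g5 (@Lb.r r680 (@Lb.r r427 (@Lb.r r2178 (@Lb.r r2393 (@Lb.d (nat_lit 101) (nat_lit 105) (nat_lit 416) (@Lb.t (@Lb.fm (nat_lit 3) t1540)))))))))
noncomputable def l10540 : Lb := (@Lb.r r82 (@Lb.d (nat_lit 2) (nat_lit 298) (nat_lit 128) (@Lb.g g8 (@Lb.g g9 (@Lb.g g11 (@Lb.r r355 (@Lb.r r1174 (@Lb.r r2133 (@Lb.d (nat_lit 358) (nat_lit 136) (nat_lit 338) (@Lb.t (@Lb.fp (nat_lit 9) t2558)))))))))))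
noncomputable def l10541 : Lb := (@Lb.r r82 (@Lb.d (nat_lit 2) (nat_lit 34) (nat_lit 64) (@Lb.g g8 (@Lb.g g9 (@Lb.g g11 (@Lb.r r537 (@Lb.r r531 (@Lb.r r98 (@Lb.d (nat_lit 677) (nat_lit 18) (nat_lit 84) (@Lb.t (@Lb.fp (nat_lit 9) t1938)))))))))))
noncomputable def l10542 : Lb := (@Lb.d (nat_lit 549) (nat_lit 293) (nat_lit 294) (@Lb.r r2196 (@Lb.r r150 (@Lb.r r361 (@Lb.g g11 (@Lb.g g5 (@Lb.g g4 (@Lb.d (nat_lit 17) (nat_lit 1) (nat_lit 128) (@Lb.t (@Lb.fm (nat_lit 9) t2557))))))))))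
noncomputable def l10543 : Lb := (@Lb.d (nat_lit 0) (nat_lit 292) (nat_lit 128) (@Lb.g g4 (@Lb.g g9 (@Lb.g g10 (@Lb.g g11 (@Lb.r r387 (@Lb.r r145 (@Lb.r r1426 (@Lb.d (nat_lit 0) (nat_lit 149) (nat_lit 665) (@Lb.fp (nat_lit 9) t749))))))))))
noncomputable def l10544 : Lb := (@Lb.d (nat_lit 0) (nat_lit 264) (nat_lit 2) (@Lb.g g10 (@Lb.r r89 (@Lb.r r2150 (@Lb.d (nat_lit 22) (nat_lit 8) (nat_lit 34) (@Lb.t (@Lb.fp (nat_lit 3) t1196)))))))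
noncomputable def l10545 : Lb := (@Lb.d (nat_lit 130) (nat_lit 34) (nat_lit 41) (@Lb.g g8 (@Lb.g g9 (@Lb.g g6 (@Lb.r r391 (@Lb.r r600 (@Lb.r r2085 (@Lb.d (nat_lit 265) (nat_lit 17) (nat_lit 409) (@Lb.t (@Lb.fp (nat_lit 9) t386))))))))))
noncomputable def l10546 : Lb := (@Lb.d (nat_lit 33) (nat_lit 514) (nat_lit 129) (@Lb.g g8 (@Lb.g g9 (@Lb.g g10 (@Lb.g g11 (@Lb.r r427 (@Lb.r r2401 (@Lb.r r1170 (@Lb.r r2216 (@Lb.d (nat_lit 69) (nat_lit 8) (nat_lit 356) (@Lb.fm (nat_lit 9) t278)))))))))))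
noncomputable def l10547 : Lb := (@Lb.r r86 (@Lb.d (nat_lit 0) (nat_lit 330) (nat_lit 128) (@Lb.g g8 (@Lb.g g5 (@Lb.g g11 (@Lb.r r2387 (@Lb.r r1642 (@Lb.r r72 (@Lb.d (nat_lit 610) (nat_lit 1) (nat_lit 66) (@Lb.t (@Lb.fm (nat_lit 9) t264)))))))))))
noncomputable def l10548 : Lb := (@Lb.d (nat_lit 8) (nat_lit 290) (nat_lit 66) (@Lb.g g9 (@Lb.g g10 (@Lb.g g11 (@Lb.r r1702 (@Lb.r r2392 (@Lb.r r1383 (@Lb.r r2385 (@Lb.d (nat_lit 70) (nat_lit 84) (nat_lit 422) (@Lb.t (@Lb.fm (nat_lit 9) t278)))))))))))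
noncomputable def l10549 : Lb := (@Lb.d (nat_lit 290) (nat_lit 576) (nat_lit 18) (@Lb.r r1173 (@Lb.r r2198 (@Lb.g g9 (@Lb.t (@Lb.fm (nat_lit 3) t2559))))))
noncomputable def l10550 : Lb := (@Lb.d (nat_lit 134) (nat_lit 546) (nat_lit 2) (@Lb.g g8 (@Lb.g g9 (@Lb.g g10 (@Lb.g g11 (@Lb.r r1706 (@Lb.r r1700 (@Lb.r r1559 (@Lb.r r2577 (@Lb.d (nat_lit 386) (nat_lit 105) (nat_lit 274) (@Lb.fp (nat_lit 9) t278)))))))))))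
noncomputable def l10551 : Lb := (@Lb.r r2451 (@Lb.r r1186 (@Lb.r r2209 (@Lb.r r2196 (@Lb.d (nat_lit 281) (nat_lit 10) (nat_lit 2) (@Lb.fp (nat_lit 1) t2560))))))
noncomputable def l10552 : Lb := (@Lb.d (nat_lit 153) (nat_lit 264) (nat_lit 73) (@Lb.g g8 (@Lb.g g9 (@Lb.g g10 (@Lb.g g11 (@Lb.r r683 (@Lb.r r2410 (@Lb.r r1561 (@Lb.r r1540 (@Lb.d (nat_lit 393) (nat_lit 153) (nat_lit 5) (@Lb.fm (nat_lit 9) t328)))))))))))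
noncomputable def l10553 : Lb := (@Lb.d (nat_lit 106) (nat_lit 290) (nat_lit 4) (@Lb.g g8 (@Lb.g g9 (@Lb.g g10 (@Lb.g g11 (@Lb.r r343 (@Lb.r r2390 (@Lb.r r1365 (@Lb.r r276 (@Lb.d (nat_lit 672) (nat_lit 169) (nat_lit 533) (@Lb.fp (nat_lit 9) t805)))))))))))
noncomputable def l10554 : Lb := (@Lb.d (nat_lit 146) (nat_lit 521) (nat_lit 73) (@Lb.g g8 (@Lb.g g9 (@Lb.g g10 (@Lb.g g11 (@Lb.r r683 (@Lb.r r2410 (@Lb.r r1561 (@Lb.r r1540 (@Lb.d (nat_lit 394) (nat_lit 153) (nat_lit 5) (@Lb.fm (nat_lit 9) t53)))))))))))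
noncomputable def l10555 : Lb := (@Lb.r r101 (@Lb.d (nat_lit 24) (nat_lit 650) (nat_lit 0) (@Lb.fm (nat_lit 1) t126)))
noncomputable def l10556 : Lb := (@Lb.r r323 (@Lb.d (nat_lit 130) (nat_lit 9) (nat_lit 34) (@Lb.g g8 (@Lb.g g9 (@Lb.g g10 (@Lb.r r583 (@Lb.r r2201 (@Lb.r r408 (@Lb.d (nat_lit 394) (nat_lit 26) (nat_lit 88) (@Lb.t (@Lb.fm (nat_lit 9) t1606)))))))))))
noncomputable def l10557 : Lb := (@Lb.d (nat_lit 1) (nat_lit 73) (nat_lit 16) (@Lb.fp (nat_lit 1) t21))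
noncomputable def l10558 : Lb := (@Lb.d (nat_lit 0) (nat_lit 8) (nat_lit 2) (@Lb.g g8 (@Lb.g g10 (@Lb.g g7 (@Lb.r r101 (@Lb.r r24 (@Lb.d (nat_lit 0) (nat_lit 0) (nat_lit 132) (@Lb.t (@Lb.fp (nat_lit 9) t312)))))))))
noncomputable def l10559 : Lb := (@Lb.d (nat_lit 33) (nat_lit 514) (nat_lit 1) (@Lb.g g8 (@Lb.g g9 (@Lb.g g10 (@Lb.r r2595 (@Lb.r r2442 (@Lb.r r153 (@Lb.r r1432 (@Lb.d (nat_lit 81) (nat_lit 152) (nat_lit 618) (@Lb.t (@Lb.fp (nat_lit 9) t1002)))))))))))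
noncomputable def l10560 : Lb := (@Lb.r r322 (@Lb.d (nat_lit 36) (nat_lit 290) (nat_lit 516) (@Lb.g g8 (@Lb.g g9 (@Lb.g g7 (@Lb.r r418 (@Lb.r r297 (@Lb.r r1384 (@Lb.d (nat_lit 400) (nat_lit 169) (nat_lit 293) (@Lb.t (@Lb.fm (nat_lit 9) t1192)))))))))))
noncomputable def l10561 : Lb := (@Lb.d (nat_lit 0) (nat_lit 520) (nat_lit 2) (@Lb.g g10 (@Lb.g g7 (@Lb.r r101 (@Lb.r r24 (@Lb.d (nat_lit 0) (nat_lit 0) (nat_lit 132) (@Lb.fp (nat_lit 3) t312)))))))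
noncomputable def l10562 : Lb := (@Lb.d (nat_lit 2) (nat_lit 514) (nat_lit 2) (@Lb.g g8 (@Lb.g g9 (@Lb.g g10 (@Lb.r r2666 (@Lb.r r579 (@Lb.r r2337 (@Lb.r r24 (@Lb.d (nat_lit 586) (nat_lit 97) (nat_lit 586) (@Lb.t (@Lb.fp (nat_lit 9) t504)))))))))))
noncomputable def l10563 : Lb := (@Lb.r r82 (@Lb.d (nat_lit 2) (nat_lit 258) (nat_lit 128) (@Lb.g g8 (@Lb.g g9 (@Lb.g g11 (@Lb.r r552 (@Lb.r r619 (@Lb.r r2438 (@Lb.r r2201 (@Lb.d (nat_lit 666) (nat_lit 85) (nat_lit 576) (@Lb.t (@Lb.fp (nat_lit 9) t2561))))))))))))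
noncomputable def l10564 : Lb := (@Lb.d (nat_lit 2) (nat_lit 514) (nat_lit 130) (@Lb.g g8 (@Lb.g g9 (@Lb.g g10 (@Lb.g g11 (@Lb.r r610 (@Lb.r r404 (@Lb.r r619 (@Lb.r r97 (@Lb.r r516 (@Lb.d (nat_lit 2) (nat_lit 9) (nat_lit 1) (@Lb.fp (nat_lit 9) t44))))))))))))
noncomputable def l10565 : Lb := (@Lb.d (nat_lit 0) (nat_lit 0) (nat_lit 130) (@Lb.g g9 (@Lb.g g10 (@Lb.g g11 (@Lb.r r614 (@Lb.r r404 (@Lb.r r619 (@Lb.r r609 (@Lb.d (nat_lit 2) (nat_lit 25) (nat_lit 2) (@Lb.t (@Lb.fm (nat_lit 9) t71)))))))))))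
noncomputable def l10566 : Lb := (@Lb.d (nat_lit 32) (nat_lit 264) (nat_lit 130) (@Lb.g g10 (@Lb.g g11 (@Lb.r r361 (@Lb.r r2711 (@Lb.r r1380 (@Lb.r r1354 (@Lb.d (nat_lit 273) (nat_lit 146) (nat_lit 38) (@Lb.fm (nat_lit 3) t781)))))))))
noncomputable def l10567 : Lb := (@Lb.r r346 (@Lb.d (nat_lit 8) (nat_lit 544) (nat_lit 128) (@Lb.g g8 (@Lb.g g9 (@Lb.g g11 (@Lb.r r2410 (@Lb.r r548 (@Lb.r r1317 (@Lb.d (nat_lit 266) (nat_lit 145) (nat_lit 576) (@Lb.t (@Lb.fp (nat_lit 9) t902)))))))))))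
noncomputable def l10568 : Lb := (@Lb.d (nat_lit 0) (nat_lit 512) (nat_lit 130) (@Lb.g g9 (@Lb.g g10 (@Lb.g g11 (@Lb.r r614 (@Lb.r r404 (@Lb.r r619 (@Lb.r r609 (@Lb.d (nat_lit 2) (nat_lit 18) (nat_lit 0) (@Lb.t (@Lb.fm (nat_lit 9) t71)))))))))))
noncomputable def l10569 : Lb := (@Lb.d (nat_lit 4) (nat_lit 512) (nat_lit 128) (@Lb.g g8 (@Lb.g g9 (@Lb.g g10 (@Lb.g g11 (@Lb.r r387 (@Lb.r r2585 (@Lb.r r2564 (@Lb.d (nat_lit 10) (nat_lit 0) (nat_lit 393) (@Lb.fp (nat_lit 9) t1135))))))))))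
noncomputable def l10570 : Lb := (@Lb.r r82 (@Lb.r r275 (@Lb.d (nat_lit 2) (nat_lit 642) (nat_lit 0) (@Lb.g g8 (@Lb.g g5 (@Lb.r r2315 (@Lb.r r2122 (@Lb.d (nat_lit 260) (nat_lit 130) (nat_lit 0) (@Lb.fp (nat_lit 3) t594)))))))))
noncomputable def l10571 : Lb := (@Lb.d (nat_lit 2) (nat_lit 2) (nat_lit 2) (@Lb.g g8 (@Lb.g g9 (@Lb.g g10 (@Lb.r r683 (@Lb.r r2666 (@Lb.r r2585 (@Lb.d (nat_lit 329) (nat_lit 169) (nat_lit 161) (@Lb.t (@Lb.fp (nat_lit 9) t324))))))))))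
noncomputable def l10572 : Lb := (@Lb.d (nat_lit 6) (nat_lit 102) (nat_lit 6) (@Lb.r r21 (@Lb.r r2390 (@Lb.r r2731 (@Lb.g g7 (@Lb.g g6 (@Lb.g g5 (@Lb.g g4 (@Lb.d (nat_lit 544) (nat_lit 6) (nat_lit 70) (@Lb.fm (nat_lit 9) t40))))))))))
noncomputable def l10573 : Lb := (@Lb.d (nat_lit 2) (nat_lit 0) (nat_lit 2) (@Lb.g g8 (@Lb.g g9 (@Lb.g g10 (@Lb.r r2731 (@Lb.r r1642 (@Lb.r r1561 (@Lb.d (nat_lit 585) (nat_lit 105) (nat_lit 417) (@Lb.t (@Lb.fp (nat_lit 9) t324))))))))))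
noncomputable def l10574 : Lb := (@Lb.d (nat_lit 152) (nat_lit 0) (nat_lit 386) (@Lb.g g8 (@Lb.g g10 (@Lb.g g11 (@Lb.r r1109 (@Lb.r r1634 (@Lb.r r388 (@Lb.d (nat_lit 100) (nat_lit 90) (nat_lit 330) (@Lb.t (@Lb.fm (nat_lit 9) t2562))))))))))
noncomputable def l10575 : Lb := (@Lb.d (nat_lit 2) (nat_lit 266) (nat_lit 1) (@Lb.g g8 (@Lb.g g9 (@Lb.g g10 (@Lb.r r2731 (@Lb.r r1642 (@Lb.r r1561 (@Lb.d (nat_lit 585) (nat_lit 105) (nat_lit 417) (@Lb.t (@Lb.fp (nat_lit 9) t1399))))))))))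
noncomputable def l10576 : Lb := (@Lb.d (nat_lit 2) (nat_lit 512) (nat_lit 2) (@Lb.g g8 (@Lb.g g9 (@Lb.g g10 (@Lb.r r2731 (@Lb.r r1642 (@Lb.r r1561 (@Lb.d (nat_lit 578) (nat_lit 106) (nat_lit 417) (@Lb.t (@Lb.fp (nat_lit 9) t2563))))))))))
noncomputable def l10577 : Lb := (@Lb.d (nat_lit 168) (nat_lit 0) (nat_lit 64) (@Lb.g g8 (@Lb.g g11 (@Lb.r r2726 (@Lb.r r1411 (@Lb.r r2597 (@Lb.r r276 (@Lb.d (nat_lit 70) (nat_lit 18) (nat_lit 665) (@Lb.fm (nat_lit 3) t1952)))))))))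
noncomputable def l10578 : Lb := (@Lb.r r82 (@Lb.d (nat_lit 132) (nat_lit 512) (nat_lit 64) (@Lb.g g8 (@Lb.g g9 (@Lb.g g11 (@Lb.r r299 (@Lb.r r2630 (@Lb.r r1049 (@Lb.r r1432 (@Lb.d (nat_lit 665) (nat_lit 168) (nat_lit 601) (@Lb.t (@Lb.fp (nat_lit 9) t2564))))))))))))
noncomputable def l10579 : Lb := (@Lb.r r359 (@Lb.d (nat_lit 0) (nat_lit 513) (nat_lit 18) (@Lb.g g8 (@Lb.g g9 (@Lb.g g6 (@Lb.r r2667 (@Lb.r r1049 (@Lb.r r2180 (@Lb.d (nat_lit 20) (nat_lit 73) (nat_lit 69) (@Lb.t (@Lb.fm (nat_lit 9) t1877)))))))))))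
noncomputable def l10580 : Lb := (@Lb.r r359 (@Lb.d (nat_lit 0) (nat_lit 257) (nat_lit 18) (@Lb.g g8 (@Lb.g g9 (@Lb.g g6 (@Lb.r r2667 (@Lb.r r1049 (@Lb.r r2180 (@Lb.d (nat_lit 25) (nat_lit 74) (nat_lit 69) (@Lb.t (@Lb.fm (nat_lit 9) t1129)))))))))))
noncomputable def l10581 : Lb := (@Lb.r r21 (@Lb.d (nat_lit 10) (nat_lit 520) (nat_lit 130) (@Lb.g g8 (@Lb.g g10 (@Lb.g g11 (@Lb.r r427 (@Lb.r r533 (@Lb.r r360 (@Lb.r r102 (@Lb.d (nat_lit 26) (nat_lit 16) (nat_lit 69) (@Lb.t (@Lb.fp (nat_lit 9) t119))))))))))))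
noncomputable def l10582 : Lb := (@Lb.d (nat_lit 33) (nat_lit 258) (nat_lit 130) (@Lb.g g8 (@Lb.g g9 (@Lb.g g10 (@Lb.g g11 (@Lb.r r1667 (@Lb.r r2345 (@Lb.r r360 (@Lb.r r2630 (@Lb.r r2180 (@Lb.d (nat_lit 386) (nat_lit 74) (nat_lit 617) (@Lb.fm (nat_lit 9) t1549))))))))))))
noncomputable def l10583 : Lb := (@Lb.d (nat_lit 293) (nat_lit 682) (nat_lit 600) (@Lb.r r24 (@Lb.r r2721 (@Lb.r r386 (@Lb.r r1431 (@Lb.g g7 (@Lb.g g6 (@Lb.g g5 (@Lb.d (nat_lit 0) (nat_lit 1) (nat_lit 65) (@Lb.t (@Lb.fm (nat_lit 9) t175)))))))))))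
noncomputable def l10584 : Lb := (@Lb.r r1291 (@Lb.r r24 (@Lb.d (nat_lit 586) (nat_lit 290) (nat_lit 384) (@Lb.fm (nat_lit 1) t1855))))
noncomputable def l10585 : Lb := (@Lb.d (nat_lit 160) (nat_lit 256) (nat_lit 146) (@Lb.g g10 (@Lb.g g11 (@Lb.r r260 (@Lb.r r603 (@Lb.r r1317 (@Lb.d (nat_lit 84) (nat_lit 10) (nat_lit 545) (@Lb.fm (nat_lit 3) t2565))))))))
noncomputable def l10586 : Lb := (@Lb.d (nat_lit 0) (nat_lit 0) (nat_lit 130) (@Lb.g g10 (@Lb.g g11 (@Lb.r r586 (@Lb.r r584 (@Lb.r r299 (@Lb.r r409 (@Lb.d (nat_lit 538) (nat_lit 68) (nat_lit 34) (@Lb.fp (nat_lit 3) t1233)))))))))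
noncomputable def l10587 : Lb := (@Lb.d (nat_lit 4) (nat_lit 96) (nat_lit 64) (@Lb.g g5 (@Lb.g g11 (@Lb.r r1563 (@Lb.d (nat_lit 645) (nat_lit 34) (nat_lit 384) (@Lb.fm (nat_lit 3) t2566))))))
noncomputable def l10588 : Lb := (@Lb.d (nat_lit 32) (nat_lit 0) (nat_lit 18) (@Lb.g g10 (@Lb.r r580 (@Lb.r r295 (@Lb.r r2329 (@Lb.r r1044 (@Lb.d (nat_lit 290) (nat_lit 0) (nat_lit 17) (@Lb.t (@Lb.fp (nat_lit 3) t1155)))))))))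
noncomputable def l10589 : Lb := (@Lb.d (nat_lit 261) (nat_lit 70) (nat_lit 145) (@Lb.r r24 (@Lb.r r2137 (@Lb.r r2474 (@Lb.g g11 (@Lb.g g5 (@Lb.d (nat_lit 0) (nat_lit 18) (nat_lit 264) (@Lb.r r578 (@Lb.fp (nat_lit 3) t1209)))))))))
noncomputable def l10590 : Lb := (@Lb.d (nat_lit 1) (nat_lit 2) (nat_lit 128) (@Lb.g g8 (@Lb.g g9 (@Lb.g g11 (@Lb.r r2347 (@Lb.r r2178 (@Lb.r r292 (@Lb.r r1045 (@Lb.r r2084 (@Lb.d (nat_lit 265) (nat_lit 161) (nat_lit 576) (@Lb.t (@Lb.fp (nat_lit 9) t2567))))))))))))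
noncomputable def l10591 : Lb := (@Lb.d (nat_lit 9) (nat_lit 96) (nat_lit 69) (@Lb.r r1543 (@Lb.r r2372 (@Lb.r r1690 (@Lb.g g6 (@Lb.g g9 (@Lb.g g4 (@Lb.d (nat_lit 6) (nat_lit 2) (nat_lit 1) (@Lb.r r291 (@Lb.t (@Lb.fm (nat_lit 9) t381)))))))))))
noncomputable def l10592 : Lb := (@Lb.d (nat_lit 34) (nat_lit 512) (nat_lit 0) (@Lb.g g4 (@Lb.g g9 (@Lb.r r1315 (@Lb.r r426 (@Lb.r r289 (@Lb.r r2200 (@Lb.d (nat_lit 549) (nat_lit 68) (nat_lit 33) (@Lb.fm (nat_lit 3) t51)))))))))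
noncomputable def l10593 : Lb := (@Lb.d (nat_lit 6) (nat_lit 550) (nat_lit 534) (@Lb.r r21 (@Lb.r r342 (@Lb.r r1707 (@Lb.g g6 (@Lb.g g5 (@Lb.g g4 (@Lb.d (nat_lit 1) (nat_lit 1) (nat_lit 0) (@Lb.t (@Lb.fm (nat_lit 9) t40))))))))))
noncomputable def l10594 : Lb := (@Lb.d (nat_lit 8) (nat_lit 512) (nat_lit 66) (@Lb.g g9 (@Lb.g g10 (@Lb.g g11 (@Lb.r r1559 (@Lb.r r596 (@Lb.r r666 (@Lb.r r337 (@Lb.d (nat_lit 534) (nat_lit 32) (nat_lit 36) (@Lb.t (@Lb.fm (nat_lit 9) t1195)))))))))))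
noncomputable def l10595 : Lb := (@Lb.d (nat_lit 6) (nat_lit 294) (nat_lit 534) (@Lb.r r21 (@Lb.r r342 (@Lb.r r1707 (@Lb.g g7 (@Lb.g g6 (@Lb.g g5 (@Lb.g g4 (@Lb.d (nat_lit 1) (nat_lit 1) (nat_lit 0) (@Lb.fm (nat_lit 9) t40))))))))))
noncomputable def l10596 : Lb := (@Lb.r r323 (@Lb.d (nat_lit 0) (nat_lit 266) (nat_lit 1) (@Lb.g g9 (@Lb.g g10 (@Lb.r r2339 (@Lb.r r1169 (@Lb.r r2194 (@Lb.d (nat_lit 0) (nat_lit 6) (nat_lit 144) (@Lb.fp (nat_lit 3) t1)))))))))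
noncomputable def l10597 : Lb := (@Lb.d (nat_lit 128) (nat_lit 266) (nat_lit 385) (@Lb.g g9 (@Lb.g g10 (@Lb.g g11 (@Lb.r r661 (@Lb.r r1686 (@Lb.d (nat_lit 276) (nat_lit 166) (nat_lit 392) (@Lb.t (@Lb.fp (nat_lit 9) t2568)))))))))
noncomputable def l10598 : Lb := (@Lb.d (nat_lit 0) (nat_lit 514) (nat_lit 0) (@Lb.g g9 (@Lb.g g10 (@Lb.r r145 (@Lb.d (nat_lit 0) (nat_lit 8) (nat_lit 1) (@Lb.fm (nat_lit 3) t97))))))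
noncomputable def l10599 : Lb := (@Lb.d (nat_lit 6) (nat_lit 513) (nat_lit 0) (@Lb.r r24 (@Lb.r r101 (@Lb.r r402 (@Lb.r r323 (@Lb.g g7 (@Lb.g g6 (@Lb.d (nat_lit 0) (nat_lit 0) (nat_lit 64) (@Lb.fp (nat_lit 3) t50)))))))))
noncomputable def l10600 : Lb := (@Lb.d (nat_lit 0) (nat_lit 10) (nat_lit 2) (@Lb.g g9 (@Lb.g g10 (@Lb.r r149 (@Lb.d (nat_lit 34) (nat_lit 10) (nat_lit 1) (@Lb.fm (nat_lit 3) t2569))))))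
noncomputable def l10601 : Lb := (@Lb.d (nat_lit 0) (nat_lit 2) (nat_lit 128) (@Lb.g g9 (@Lb.g g10 (@Lb.g g11 (@Lb.r r387 (@Lb.r r406 (@Lb.r r97 (@Lb.r r24 (@Lb.d (nat_lit 26) (nat_lit 4) (nat_lit 2) (@Lb.t (@Lb.fp (nat_lit 9) t145)))))))))))
noncomputable def l10602 : Lb := (@Lb.r r21 (@Lb.d (nat_lit 96) (nat_lit 512) (nat_lit 5) (@Lb.g g8 (@Lb.g g10 (@Lb.g g11 (@Lb.r r327 (@Lb.r r586 (@Lb.r r665 (@Lb.r r644 (@Lb.d (nat_lit 129) (nat_lit 0) (nat_lit 133) (@Lb.t (@Lb.fm (nat_lit 9) t1074))))))))))))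
noncomputable def l10603 : Lb := (@Lb.r r21 (@Lb.d (nat_lit 129) (nat_lit 256) (nat_lit 66) (@Lb.g g8 (@Lb.g g10 (@Lb.g g11 (@Lb.r r651 (@Lb.r r586 (@Lb.r r601 (@Lb.r r580 (@Lb.d (nat_lit 144) (nat_lit 0) (nat_lit 136) (@Lb.t (@Lb.fp (nat_lit 9) t1074))))))))))))
noncomputable def l10604 : Lb := (@Lb.d (nat_lit 609) (nat_lit 256) (nat_lit 41) (@Lb.r r24 (@Lb.r r2709 (@Lb.r r2706 (@Lb.r r339 (@Lb.g g7 (@Lb.g g6 (@Lb.g g5 (@Lb.d (nat_lit 0) (nat_lit 34) (nat_lit 1) (@Lb.t (@Lb.fp (nat_lit 9) t1219)))))))))))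
noncomputable def l10605 : Lb := (@Lb.d (nat_lit 4) (nat_lit 257) (nat_lit 128) (@Lb.g g8 (@Lb.g g9 (@Lb.g g10 (@Lb.g g11 (@Lb.r r387 (@Lb.r r402 (@Lb.r r40 (@Lb.r r105 (@Lb.r r36 (@Lb.d (nat_lit 38) (nat_lit 8) (nat_lit 1) (@Lb.fm (nat_lit 9) t145))))))))))))
noncomputable def l10606 : Lb := (@Lb.d (nat_lit 273) (nat_lit 256) (nat_lit 40) (@Lb.r r24 (@Lb.r r1381 (@Lb.r r2451 (@Lb.g g7 (@Lb.g g10 (@Lb.g g5 (@Lb.d (nat_lit 0) (nat_lit 10) (nat_lit 81) (@Lb.t (@Lb.fm (nat_lit 9) t50))))))))))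
noncomputable def l10607 : Lb := (@Lb.d (nat_lit 0) (nat_lit 514) (nat_lit 130) (@Lb.g g9 (@Lb.g g10 (@Lb.g g11 (@Lb.r r427 (@Lb.r r386 (@Lb.r r97 (@Lb.r r24 (@Lb.d (nat_lit 74) (nat_lit 4) (nat_lit 134) (@Lb.t (@Lb.fp (nat_lit 9) t263)))))))))))
noncomputable def l10608 : Lb := (@Lb.d (nat_lit 0) (nat_lit 32) (nat_lit 136) (@Lb.g g11 (@Lb.r r409 (@Lb.r r2458 (@Lb.r r2407 (@Lb.r r24 (@Lb.d (nat_lit 293) (nat_lit 64) (nat_lit 294) (@Lb.t (@Lb.fp (nat_lit 3) t2570)))))))))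
noncomputable def l10609 : Lb := (@Lb.d (nat_lit 4) (nat_lit 512) (nat_lit 128) (@Lb.g g8 (@Lb.g g9 (@Lb.g g10 (@Lb.g g11 (@Lb.r r2730 (@Lb.r r420 (@Lb.r r283 (@Lb.r r1577 (@Lb.r r2068 (@Lb.d (nat_lit 66) (nat_lit 162) (nat_lit 330) (@Lb.fp (nat_lit 9) t353))))))))))))
noncomputable def l10610 : Lb := (@Lb.d (nat_lit 2) (nat_lit 514) (nat_lit 130) (@Lb.g g8 (@Lb.g g9 (@Lb.g g10 (@Lb.g g11 (@Lb.r r610 (@Lb.r r2667 (@Lb.r r97 (@Lb.r r2564 (@Lb.d (nat_lit 394) (nat_lit 137) (nat_lit 385) (@Lb.fp (nat_lit 9) t826)))))))))))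
noncomputable def l10611 : Lb := (@Lb.d (nat_lit 258) (nat_lit 322) (nat_lit 84) (@Lb.r r1300 (@Lb.r r2585 (@Lb.r r539 (@Lb.r r660 (@Lb.g g7 (@Lb.g g10 (@Lb.g g5 (@Lb.g g4 (@Lb.d (nat_lit 1) (nat_lit 1) (nat_lit 145) (@Lb.fp (nat_lit 9) t246)))))))))))
noncomputable def l10612 : Lb := (@Lb.d (nat_lit 282) (nat_lit 80) (nat_lit 64) (@Lb.r r89 (@Lb.r r600 (@Lb.r r331 (@Lb.g g10 (@Lb.g g5 (@Lb.g g4 (@Lb.d (nat_lit 65) (nat_lit 17) (nat_lit 21) (@Lb.r r387 (@Lb.t (@Lb.fp (nat_lit 9) t2571)))))))))))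
noncomputable def l10613 : Lb := (@Lb.d (nat_lit 2) (nat_lit 258) (nat_lit 130) (@Lb.g g8 (@Lb.g g9 (@Lb.g g10 (@Lb.g g11 (@Lb.r r610 (@Lb.r r2667 (@Lb.r r97 (@Lb.r r2564 (@Lb.d (nat_lit 394) (nat_lit 130) (nat_lit 386) (@Lb.fp (nat_lit 9) t826)))))))))))
noncomputable def l10614 : Lb := (@Lb.d (nat_lit 0) (nat_lit 258) (nat_lit 130) (@Lb.g g9 (@Lb.g g10 (@Lb.g g11 (@Lb.r r1443 (@Lb.r r1418 (@Lb.r r97 (@Lb.r r36 (@Lb.d (nat_lit 144) (nat_lit 38) (nat_lit 612) (@Lb.t (@Lb.fm (nat_lit 9) t2572)))))))))))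
noncomputable def l10615 : Lb := (@Lb.d (nat_lit 4) (nat_lit 0) (nat_lit 128) (@Lb.g g8 (@Lb.g g9 (@Lb.g g10 (@Lb.g g11 (@Lb.r r2730 (@Lb.r r420 (@Lb.r r283 (@Lb.r r1577 (@Lb.r r2068 (@Lb.d (nat_lit 73) (nat_lit 161) (nat_lit 330) (@Lb.fp (nat_lit 9) t353))))))))))))
noncomputable def l10616 : Lb := (@Lb.d (nat_lit 64) (nat_lit 512) (nat_lit 644) (@Lb.g g10 (@Lb.g g7 (@Lb.r r1418 (@Lb.d (nat_lit 272) (nat_lit 5) (nat_lit 42) (@Lb.fm (nat_lit 3) t1963))))))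
noncomputable def l10617 : Lb := (@Lb.r r322 (@Lb.d (nat_lit 34) (nat_lit 2) (nat_lit 576) (@Lb.g g8 (@Lb.g g9 (@Lb.g g7 (@Lb.r r361 (@Lb.r r150 (@Lb.r r1364 (@Lb.d (nat_lit 344) (nat_lit 36) (nat_lit 593) (@Lb.t (@Lb.fp (nat_lit 9) t259)))))))))))
noncomputable def l10618 : Lb := (@Lb.d (nat_lit 129) (nat_lit 258) (nat_lit 66) (@Lb.g g8 (@Lb.g g9 (@Lb.g g10 (@Lb.g g11 (@Lb.r r2411 (@Lb.r r386 (@Lb.r r97 (@Lb.r r532 (@Lb.d (nat_lit 356) (nat_lit 36) (nat_lit 522) (@Lb.fp (nat_lit 9) t31)))))))))))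
noncomputable def l10619 : Lb := (@Lb.r r82 (@Lb.d (nat_lit 129) (nat_lit 2) (nat_lit 128) (@Lb.g g8 (@Lb.g g9 (@Lb.g g11 (@Lb.r r1366 (@Lb.r r1411 (@Lb.r r1641 (@Lb.r r2084 (@Lb.d (nat_lit 105) (nat_lit 89) (nat_lit 613) (@Lb.t (@Lb.fp (nat_lit 9) t1776))))))))))))
noncomputable def l10620 : Lb := (@Lb.d (nat_lit 9) (nat_lit 258) (nat_lit 130) (@Lb.g g8 (@Lb.g g9 (@Lb.g g10 (@Lb.g g11 (@Lb.r r1602 (@Lb.r r548 (@Lb.r r615 (@Lb.r r533 (@Lb.r r1060 (@Lb.d (nat_lit 658) (nat_lit 73) (nat_lit 585) (@Lb.fm (nat_lit 9) t229))))))))))))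
noncomputable def l10621 : Lb := (@Lb.d (nat_lit 2) (nat_lit 2) (nat_lit 66) (@Lb.g g8 (@Lb.g g9 (@Lb.g g10 (@Lb.g g11 (@Lb.r r599 (@Lb.r r386 (@Lb.r r97 (@Lb.r r24 (@Lb.d (nat_lit 154) (nat_lit 9) (nat_lit 100) (@Lb.fp (nat_lit 9) t221)))))))))))
noncomputable def l10622 : Lb := (@Lb.d (nat_lit 129) (nat_lit 2) (nat_lit 66) (@Lb.g g8 (@Lb.g g9 (@Lb.g g10 (@Lb.g g11 (@Lb.r r2411 (@Lb.r r386 (@Lb.r r97 (@Lb.r r1604 (@Lb.d (nat_lit 358) (nat_lit 26) (nat_lit 18) (@Lb.fp (nat_lit 9) t601)))))))))))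
noncomputable def l10623 : Lb := (@Lb.d (nat_lit 2) (nat_lit 545) (nat_lit 66) (@Lb.g g8 (@Lb.g g9 (@Lb.g g10 (@Lb.g g11 (@Lb.r r2454 (@Lb.r r2391 (@Lb.r r1433 (@Lb.r r24 (@Lb.d (nat_lit 682) (nat_lit 168) (nat_lit 548) (@Lb.fp (nat_lit 9) t1001)))))))))))
noncomputable def l10624 : Lb := (@Lb.d (nat_lit 2) (nat_lit 2) (nat_lit 130) (@Lb.g g8 (@Lb.g g9 (@Lb.g g10 (@Lb.g g11 (@Lb.r r2411 (@Lb.r r386 (@Lb.r r97 (@Lb.r r24 (@Lb.d (nat_lit 257) (nat_lit 73) (nat_lit 100) (@Lb.fm (nat_lit 9) t741)))))))))))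
noncomputable def l10625 : Lb := (@Lb.r r277 (@Lb.d (nat_lit 386) (nat_lit 520) (nat_lit 130) (@Lb.g g8 (@Lb.g g10 (@Lb.g g11 (@Lb.r r387 (@Lb.r r101 (@Lb.r r1434 (@Lb.d (nat_lit 532) (nat_lit 149) (nat_lit 137) (@Lb.t (@Lb.fm (nat_lit 9) t1039)))))))))))
noncomputable def l10626 : Lb := (@Lb.d (nat_lit 0) (nat_lit 256) (nat_lit 2) (@Lb.g g10 (@Lb.g g7 (@Lb.r r386 (@Lb.r r101 (@Lb.r r24 (@Lb.d (nat_lit 586) (nat_lit 9) (nat_lit 553) (@Lb.fm (nat_lit 3) t166))))))))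
noncomputable def l10627 : Lb := (@Lb.d (nat_lit 9) (nat_lit 289) (nat_lit 0) (@Lb.g g8 (@Lb.g g9 (@Lb.r r2340 (@Lb.r r2395 (@Lb.r r2178 (@Lb.r r1637 (@Lb.d (nat_lit 677) (nat_lit 153) (nat_lit 613) (@Lb.fm (nat_lit 3) t32)))))))))
noncomputable def l10628 : Lb := (@Lb.d (nat_lit 9) (nat_lit 520) (nat_lit 66) (@Lb.g g8 (@Lb.g g10 (@Lb.g g11 (@Lb.r r353 (@Lb.r r663 (@Lb.r r356 (@Lb.r r154 (@Lb.d (nat_lit 264) (nat_lit 2) (nat_lit 162) (@Lb.t (@Lb.fp (nat_lit 9) t947)))))))))))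
noncomputable def l10629 : Lb := (@Lb.r r21 (@Lb.r r323 (@Lb.d (nat_lit 41) (nat_lit 512) (nat_lit 36) (@Lb.g g8 (@Lb.g g6 (@Lb.r r1627 (@Lb.r r2341 (@Lb.r r1556 (@Lb.d (nat_lit 390) (nat_lit 161) (nat_lit 584) (@Lb.fp (nat_lit 3) t686))))))))))
noncomputable def l10630 : Lb := (@Lb.d (nat_lit 9) (nat_lit 545) (nat_lit 0) (@Lb.g g8 (@Lb.g g9 (@Lb.r r2340 (@Lb.r r2395 (@Lb.r r2178 (@Lb.r r1637 (@Lb.d (nat_lit 677) (nat_lit 148) (nat_lit 612) (@Lb.fm (nat_lit 3) t32)))))))))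
noncomputable def l10631 : Lb := (@Lb.d (nat_lit 104) (nat_lit 289) (nat_lit 9) (@Lb.g g8 (@Lb.g g9 (@Lb.g g10 (@Lb.g g11 (@Lb.r r1698 (@Lb.r r1415 (@Lb.r r36 (@Lb.r r1173 (@Lb.r r36 (@Lb.d (nat_lit 361) (nat_lit 152) (nat_lit 81) (@Lb.fm (nat_lit 9) t2573))))))))))))
noncomputable def l10632 : Lb := (@Lb.r r21 (@Lb.d (nat_lit 386) (nat_lit 512) (nat_lit 130) (@Lb.g g8 (@Lb.g g10 (@Lb.g g11 (@Lb.r r419 (@Lb.r r106 (@Lb.r r25 (@Lb.d (nat_lit 610) (nat_lit 9) (nat_lit 9) (@Lb.t (@Lb.fm (nat_lit 9) t1354)))))))))))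
noncomputable def l10633 : Lb := (@Lb.d (nat_lit 9) (nat_lit 33) (nat_lit 0) (@Lb.g g8 (@Lb.g g9 (@Lb.r r2340 (@Lb.r r2395 (@Lb.r r2178 (@Lb.r r1637 (@Lb.d (nat_lit 682) (nat_lit 154) (nat_lit 613) (@Lb.fm (nat_lit 3) t64)))))))))
noncomputable def l10634 : Lb := (@Lb.d (nat_lit 130) (nat_lit 514) (nat_lit 130) (@Lb.g g8 (@Lb.g g9 (@Lb.g g10 (@Lb.g g11 (@Lb.r r1415 (@Lb.r r164 (@Lb.r r2438 (@Lb.r r97 (@Lb.d (nat_lit 665) (nat_lit 33) (nat_lit 100) (@Lb.fp (nat_lit 9) t523)))))))))))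
noncomputable def l10635 : Lb := (@Lb.d (nat_lit 8) (nat_lit 9) (nat_lit 129) (@Lb.g g9 (@Lb.g g10 (@Lb.g g11 (@Lb.r r614 (@Lb.r r404 (@Lb.r r619 (@Lb.r r537 (@Lb.d (nat_lit 68) (nat_lit 104) (nat_lit 22) (@Lb.t (@Lb.fp (nat_lit 9) t2574)))))))))))
noncomputable def l10636 : Lb := (@Lb.d (nat_lit 128) (nat_lit 258) (nat_lit 128) (@Lb.g g9 (@Lb.g g11 (@Lb.r r533 (@Lb.r r292 (@Lb.r r539 (@Lb.r r2178 (@Lb.d (nat_lit 329) (nat_lit 66) (nat_lit 256) (@Lb.fm (nat_lit 3) t2575)))))))))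
noncomputable def l10637 : Lb := (@Lb.d (nat_lit 136) (nat_lit 514) (nat_lit 130) (@Lb.g g9 (@Lb.g g10 (@Lb.g g11 (@Lb.r r618 (@Lb.r r24 (@Lb.r r405 (@Lb.r r611 (@Lb.d (nat_lit 128) (nat_lit 89) (nat_lit 146) (@Lb.t (@Lb.fm (nat_lit 9) t1914)))))))))))
noncomputable def l10638 : Lb := (@Lb.d (nat_lit 2) (nat_lit 512) (nat_lit 2) (@Lb.g g8 (@Lb.g g10 (@Lb.g g11 (@Lb.r r586 (@Lb.r r1619 (@Lb.r r2337 (@Lb.d (nat_lit 521) (nat_lit 66) (nat_lit 0) (@Lb.t (@Lb.fm (nat_lit 9) t1089))))))))))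
noncomputable def l10639 : Lb := (@Lb.d (nat_lit 8) (nat_lit 297) (nat_lit 0) (@Lb.g g9 (@Lb.r r1626 (@Lb.r r603 (@Lb.r r600 (@Lb.r r1429 (@Lb.d (nat_lit 353) (nat_lit 89) (nat_lit 393) (@Lb.t (@Lb.fp (nat_lit 3) t1079)))))))))
noncomputable def l10640 : Lb := (@Lb.d (nat_lit 2) (nat_lit 256) (nat_lit 2) (@Lb.g g8 (@Lb.g g10 (@Lb.r r586 (@Lb.r r1619 (@Lb.r r2337 (@Lb.d (nat_lit 521) (nat_lit 66) (nat_lit 0) (@Lb.fm (nat_lit 3) t1089))))))))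
noncomputable def l10641 : Lb := (@Lb.d (nat_lit 32) (nat_lit 0) (nat_lit 18) (@Lb.g g10 (@Lb.r r580 (@Lb.r r295 (@Lb.r r2329 (@Lb.r r1044 (@Lb.d (nat_lit 512) (nat_lit 0) (nat_lit 2) (@Lb.t (@Lb.fp (nat_lit 3) t1155)))))))))
noncomputable def l10642 : Lb := (@Lb.r r21 (@Lb.r r263 (@Lb.d (nat_lit 513) (nat_lit 0) (nat_lit 2) (@Lb.g g4 (@Lb.g g10 (@Lb.r r267 (@Lb.r r150 (@Lb.r r97 (@Lb.d (nat_lit 261) (nat_lit 129) (nat_lit 0) (@Lb.fp (nat_lit 3) t1702))))))))))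
noncomputable def l10643 : Lb := (@Lb.d (nat_lit 132) (nat_lit 258) (nat_lit 2) (@Lb.g g8 (@Lb.g g9 (@Lb.g g10 (@Lb.r r599 (@Lb.r r1450 (@Lb.r r289 (@Lb.r r1176 (@Lb.d (nat_lit 280) (nat_lit 105) (nat_lit 354) (@Lb.t (@Lb.fm (nat_lit 9) t2576)))))))))))
noncomputable def l10644 : Lb := (@Lb.r r21 (@Lb.r r263 (@Lb.d (nat_lit 513) (nat_lit 256) (nat_lit 2) (@Lb.g g4 (@Lb.g g10 (@Lb.r r267 (@Lb.r r150 (@Lb.r r97 (@Lb.d (nat_lit 256) (nat_lit 128) (nat_lit 0) (@Lb.fp (nat_lit 3) t1702))))))))))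
noncomputable def l10645 : Lb := (@Lb.d (nat_lit 0) (nat_lit 512) (nat_lit 128) (@Lb.g g8 (@Lb.g g10 (@Lb.g g11 (@Lb.r r387 (@Lb.r r1414 (@Lb.r r149 (@Lb.r r2120 (@Lb.d (nat_lit 2) (nat_lit 10) (nat_lit 2) (@Lb.t (@Lb.fm (nat_lit 9) t145)))))))))))
noncomputable def l10646 : Lb := (@Lb.d (nat_lit 262) (nat_lit 358) (nat_lit 324) (@Lb.r r21 (@Lb.r r1640 (@Lb.r r1643 (@Lb.g g7 (@Lb.g g10 (@Lb.g g5 (@Lb.g g4 (@Lb.d (nat_lit 17) (nat_lit 1) (nat_lit 66) (@Lb.fm (nat_lit 9) t468))))))))))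
noncomputable def l10647 : Lb := (@Lb.d (nat_lit 2) (nat_lit 9) (nat_lit 1) (@Lb.g g8 (@Lb.g g9 (@Lb.g g10 (@Lb.g g11 (@Lb.r r1706 (@Lb.r r676 (@Lb.r r551 (@Lb.r r1557 (@Lb.r r1060 (@Lb.d (nat_lit 644) (nat_lit 1) (nat_lit 330) (@Lb.fp (nat_lit 9) t1751))))))))))))
noncomputable def l10648 : Lb := (@Lb.d (nat_lit 38) (nat_lit 513) (nat_lit 136) (@Lb.r r154 (@Lb.r r664 (@Lb.r r667 (@Lb.r r353 (@Lb.g g7 (@Lb.g g6 (@Lb.g g4 (@Lb.d (nat_lit 2) (nat_lit 4) (nat_lit 65) (@Lb.t (@Lb.fp (nat_lit 9) t51)))))))))))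
noncomputable def l10649 : Lb := (@Lb.d (nat_lit 257) (nat_lit 0) (nat_lit 336) (@Lb.r r24 (@Lb.r r402 (@Lb.r r101 (@Lb.g g7 (@Lb.d (nat_lit 0) (nat_lit 0) (nat_lit 68) (@Lb.t (@Lb.fp (nat_lit 3) t982))))))))
noncomputable def l10650 : Lb := (@Lb.d (nat_lit 38) (nat_lit 513) (nat_lit 73) (@Lb.r r154 (@Lb.r r404 (@Lb.r r363 (@Lb.r r353 (@Lb.g g7 (@Lb.g g6 (@Lb.g g4 (@Lb.d (nat_lit 4) (nat_lit 4) (nat_lit 65) (@Lb.t (@Lb.fp (nat_lit 9) t51)))))))))))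
noncomputable def l10651 : Lb := (@Lb.r r21 (@Lb.d (nat_lit 137) (nat_lit 8) (nat_lit 130) (@Lb.g g8 (@Lb.g g10 (@Lb.g g11 (@Lb.r r427 (@Lb.r r1557 (@Lb.r r2408 (@Lb.r r102 (@Lb.d (nat_lit 342) (nat_lit 73) (nat_lit 420) (@Lb.t (@Lb.fp (nat_lit 9) t2577))))))))))))
noncomputable def l10652 : Lb := (@Lb.r r21 (@Lb.d (nat_lit 10) (nat_lit 264) (nat_lit 130) (@Lb.g g8 (@Lb.g g10 (@Lb.g g11 (@Lb.r r427 (@Lb.r r533 (@Lb.r r360 (@Lb.r r102 (@Lb.d (nat_lit 21) (nat_lit 154) (nat_lit 68) (@Lb.t (@Lb.fp (nat_lit 9) t119))))))))))))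
noncomputable def l10653 : Lb := (@Lb.d (nat_lit 9) (nat_lit 256) (nat_lit 2) (@Lb.g g8 (@Lb.g g10 (@Lb.r r586 (@Lb.r r1619 (@Lb.r r2337 (@Lb.d (nat_lit 521) (nat_lit 161) (nat_lit 640) (@Lb.fm (nat_lit 3) t1089))))))))
noncomputable def l10654 : Lb := (@Lb.r r275 (@Lb.d (nat_lit 9) (nat_lit 514) (nat_lit 2) (@Lb.g g8 (@Lb.g g9 (@Lb.g g10 (@Lb.r r2666 (@Lb.r r1603 (@Lb.r r1313 (@Lb.d (nat_lit 521) (nat_lit 66) (nat_lit 0) (@Lb.t (@Lb.fm (nat_lit 9) t495)))))))))))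
noncomputable def l10655 : Lb := (@Lb.r r21 (@Lb.r r263 (@Lb.d (nat_lit 514) (nat_lit 264) (nat_lit 18) (@Lb.g g4 (@Lb.g g10 (@Lb.r r1427 (@Lb.r r97 (@Lb.d (nat_lit 1) (nat_lit 74) (nat_lit 1) (@Lb.fm (nat_lit 3) t2578)))))))))
noncomputable def l10656 : Lb := (@Lb.d (nat_lit 0) (nat_lit 512) (nat_lit 130) (@Lb.g g10 (@Lb.g g11 (@Lb.r r614 (@Lb.r r404 (@Lb.r r619 (@Lb.r r609 (@Lb.d (nat_lit 9) (nat_lit 153) (nat_lit 66) (@Lb.fm (nat_lit 3) t71)))))))))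
noncomputable def l10657 : Lb := (@Lb.d (nat_lit 10) (nat_lit 32) (nat_lit 64) (@Lb.g g8 (@Lb.g g11 (@Lb.r r166 (@Lb.r r149 (@Lb.r r360 (@Lb.r r2567 (@Lb.d (nat_lit 421) (nat_lit 152) (nat_lit 658) (@Lb.fp (nat_lit 3) t2579)))))))))
noncomputable def l10658 : Lb := (@Lb.d (nat_lit 34) (nat_lit 10) (nat_lit 64) (@Lb.g g8 (@Lb.g g9 (@Lb.g g11 (@Lb.r r1427 (@Lb.r r582 (@Lb.r r1688 (@Lb.r r2597 (@Lb.d (nat_lit 128) (nat_lit 70) (nat_lit 330) (@Lb.t (@Lb.fm (nat_lit 9) t284)))))))))))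
noncomputable def l10659 : Lb := (@Lb.r r323 (@Lb.d (nat_lit 40) (nat_lit 514) (nat_lit 2) (@Lb.g g9 (@Lb.g g10 (@Lb.r r584 (@Lb.r r299 (@Lb.r r1425 (@Lb.d (nat_lit 294) (nat_lit 9) (nat_lit 1) (@Lb.fp (nat_lit 3) t410)))))))))
noncomputable def l10660 : Lb := (@Lb.d (nat_lit 34) (nat_lit 522) (nat_lit 64) (@Lb.g g8 (@Lb.g g9 (@Lb.g g11 (@Lb.r r1427 (@Lb.r r582 (@Lb.r r1688 (@Lb.r r2597 (@Lb.d (nat_lit 129) (nat_lit 70) (nat_lit 330) (@Lb.t (@Lb.fm (nat_lit 9) t284)))))))))))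
noncomputable def l10661 : Lb := (@Lb.r r322 (@Lb.d (nat_lit 0) (nat_lit 512) (nat_lit 136) (@Lb.g g9 (@Lb.g g11 (@Lb.r r1426 (@Lb.r r101 (@Lb.d (nat_lit 5) (nat_lit 129) (nat_lit 64) (@Lb.fm (nat_lit 3) t240))))))))
noncomputable def l10662 : Lb := (@Lb.d (nat_lit 0) (nat_lit 521) (nat_lit 64) (@Lb.g g8 (@Lb.g g9 (@Lb.g g11 (@Lb.r r659 (@Lb.r r1414 (@Lb.r r2392 (@Lb.r r293 (@Lb.d (nat_lit 321) (nat_lit 138) (nat_lit 386) (@Lb.t (@Lb.fm (nat_lit 9) t2580)))))))))))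
noncomputable def l10663 : Lb := (@Lb.d (nat_lit 8) (nat_lit 514) (nat_lit 73) (@Lb.g g9 (@Lb.g g10 (@Lb.g g11 (@Lb.r r2150 (@Lb.r r660 (@Lb.r r407 (@Lb.r r537 (@Lb.d (nat_lit 38) (nat_lit 164) (nat_lit 293) (@Lb.t (@Lb.fm (nat_lit 9) t2581)))))))))))
noncomputable def l10664 : Lb := (@Lb.r r275 (@Lb.d (nat_lit 2) (nat_lit 546) (nat_lit 0) (@Lb.g g8 (@Lb.g g9 (@Lb.r r1675 (@Lb.r r2178 (@Lb.r r1636 (@Lb.r r1557 (@Lb.d (nat_lit 662) (nat_lit 169) (nat_lit 674) (@Lb.fm (nat_lit 3) t2582))))))))))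
noncomputable def l10665 : Lb := (@Lb.d (nat_lit 34) (nat_lit 2) (nat_lit 128) (@Lb.g g8 (@Lb.g g9 (@Lb.g g11 (@Lb.r r406 (@Lb.r r1643 (@Lb.r r97 (@Lb.r r1560 (@Lb.d (nat_lit 650) (nat_lit 24) (nat_lit 294) (@Lb.t (@Lb.fm (nat_lit 9) t2583)))))))))))
noncomputable def l10666 : Lb := (@Lb.r r322 (@Lb.d (nat_lit 4) (nat_lit 546) (nat_lit 128) (@Lb.g g8 (@Lb.g g9 (@Lb.g g11 (@Lb.r r2713 (@Lb.r r146 (@Lb.r r2564 (@Lb.d (nat_lit 33) (nat_lit 0) (nat_lit 330) (@Lb.t (@Lb.fp (nat_lit 9) t2584)))))))))))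
noncomputable def l10667 : Lb := (@Lb.d (nat_lit 0) (nat_lit 0) (nat_lit 2) (@Lb.g g9 (@Lb.g g10 (@Lb.r r1411 (@Lb.r r98 (@Lb.r r101 (@Lb.d (nat_lit 266) (nat_lit 66) (nat_lit 0) (@Lb.fp (nat_lit 3) t240))))))))
noncomputable def l10668 : Lb := (@Lb.r r323 (@Lb.d (nat_lit 33) (nat_lit 2) (nat_lit 2) (@Lb.g g8 (@Lb.g g9 (@Lb.g g10 (@Lb.r r2666 (@Lb.r r1351 (@Lb.r r277 (@Lb.r r520 (@Lb.d (nat_lit 257) (nat_lit 162) (nat_lit 0) (@Lb.t (@Lb.fp (nat_lit 9) t2585))))))))))))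
noncomputable def l10669 : Lb := (@Lb.d (nat_lit 2) (nat_lit 514) (nat_lit 128) (@Lb.g g8 (@Lb.g g9 (@Lb.g g10 (@Lb.g g11 (@Lb.r r1639 (@Lb.r r297 (@Lb.r r1348 (@Lb.r r2666 (@Lb.d (nat_lit 662) (nat_lit 154) (nat_lit 68) (@Lb.fp (nat_lit 9) t677)))))))))))
noncomputable def l10670 : Lb := (@Lb.d (nat_lit 9) (nat_lit 33) (nat_lit 66) (@Lb.g g8 (@Lb.g g9 (@Lb.g g10 (@Lb.g g11 (@Lb.r r1707 (@Lb.r r2724 (@Lb.r r2214 (@Lb.r r2193 (@Lb.d (nat_lit 265) (nat_lit 137) (nat_lit 153) (@Lb.fp (nat_lit 9) t125)))))))))))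
noncomputable def l10671 : Lb := (@Lb.r r331 (@Lb.d (nat_lit 33) (nat_lit 9) (nat_lit 1) (@Lb.g g8 (@Lb.g g9 (@Lb.g g10 (@Lb.r r683 (@Lb.r r1186 (@Lb.r r341 (@Lb.r r1636 (@Lb.d (nat_lit 650) (nat_lit 152) (nat_lit 649) (@Lb.t (@Lb.fm (nat_lit 9) t2586))))))))))))
noncomputable def l10672 : Lb := (@Lb.r r21 (@Lb.d (nat_lit 2) (nat_lit 0) (nat_lit 2) (@Lb.g g8 (@Lb.g g10 (@Lb.r r2634 (@Lb.r r579 (@Lb.r r97 (@Lb.r r2312 (@Lb.d (nat_lit 545) (nat_lit 98) (nat_lit 578) (@Lb.fp (nat_lit 3) t2587))))))))))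
noncomputable def l10673 : Lb := (@Lb.d (nat_lit 137) (nat_lit 513) (nat_lit 0) (@Lb.g g8 (@Lb.g g9 (@Lb.r r1699 (@Lb.r r2178 (@Lb.r r1129 (@Lb.r r2344 (@Lb.d (nat_lit 340) (nat_lit 98) (nat_lit 73) (@Lb.fm (nat_lit 3) t1743)))))))))
noncomputable def l10674 : Lb := (@Lb.r r322 (@Lb.d (nat_lit 0) (nat_lit 545) (nat_lit 516) (@Lb.g g9 (@Lb.g g7 (@Lb.r r418 (@Lb.r r2201 (@Lb.r r24 (@Lb.d (nat_lit 528) (nat_lit 5) (nat_lit 82) (@Lb.fp (nat_lit 3) t742)))))))))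
noncomputable def l10675 : Lb := (@Lb.d (nat_lit 0) (nat_lit 8) (nat_lit 2) (@Lb.g g10 (@Lb.r r1427 (@Lb.r r101 (@Lb.d (nat_lit 534) (nat_lit 72) (nat_lit 34) (@Lb.t (@Lb.fm (nat_lit 3) t2216)))))))
noncomputable def l10676 : Lb := (@Lb.d (nat_lit 37) (nat_lit 64) (nat_lit 86) (@Lb.r r101 (@Lb.r r24 (@Lb.r r323 (@Lb.g g7 (@Lb.g g6 (@Lb.d (nat_lit 0) (nat_lit 4) (nat_lit 65) (@Lb.fm (nat_lit 3) t2207))))))))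
noncomputable def l10677 : Lb := (@Lb.d (nat_lit 272) (nat_lit 352) (nat_lit 586) (@Lb.r r1685 (@Lb.r r1618 (@Lb.r r1691 (@Lb.r r2596 (@Lb.g g7 (@Lb.g g6 (@Lb.g g5 (@Lb.d (nat_lit 4) (nat_lit 5) (nat_lit 66) (@Lb.t (@Lb.fm (nat_lit 9) t2588)))))))))))
noncomputable def l10678 : Lb := (@Lb.r r275 (@Lb.d (nat_lit 0) (nat_lit 6) (nat_lit 1) (@Lb.g g9 (@Lb.g g10 (@Lb.r r1411 (@Lb.r r2209 (@Lb.d (nat_lit 5) (nat_lit 70) (nat_lit 80) (@Lb.fp (nat_lit 3) t2589))))))))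
noncomputable def l10679 : Lb := (@Lb.d (nat_lit 2) (nat_lit 265) (nat_lit 161) (@Lb.g g8 (@Lb.g g9 (@Lb.g g6 (@Lb.g g11 (@Lb.r r612 (@Lb.r r2311 (@Lb.r r97 (@Lb.r r1540 (@Lb.d (nat_lit 4) (nat_lit 106) (nat_lit 640) (@Lb.fp (nat_lit 9) t496)))))))))))
noncomputable def l10680 : Lb := (@Lb.d (nat_lit 66) (nat_lit 360) (nat_lit 154) (@Lb.r r82 (@Lb.r r531 (@Lb.r r277 (@Lb.g g7 (@Lb.g g5 (@Lb.g g4 (@Lb.d (nat_lit 1) (nat_lit 17) (nat_lit 128) (@Lb.r r98 (@Lb.t (@Lb.fm (nat_lit 9) t151)))))))))))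
noncomputable def l10681 : Lb := (@Lb.r r82 (@Lb.d (nat_lit 34) (nat_lit 514) (nat_lit 128) (@Lb.g g8 (@Lb.g g9 (@Lb.g g11 (@Lb.r r363 (@Lb.r r582 (@Lb.r r392 (@Lb.d (nat_lit 152) (nat_lit 2) (nat_lit 2) (@Lb.t (@Lb.fp (nat_lit 9) t1296)))))))))))
noncomputable def l10682 : Lb := (@Lb.d (nat_lit 36) (nat_lit 258) (nat_lit 130) (@Lb.g g8 (@Lb.g g9 (@Lb.g g10 (@Lb.g g11 (@Lb.r r2705 (@Lb.r r1683 (@Lb.r r644 (@Lb.r r582 (@Lb.r r1156 (@Lb.d (nat_lit 386) (nat_lit 66) (nat_lit 130) (@Lb.fm (nat_lit 9) t431))))))))))))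
noncomputable def l10683 : Lb := (@Lb.d (nat_lit 342) (nat_lit 262) (nat_lit 342) (@Lb.r r2728 (@Lb.r r682 (@Lb.r r2473 (@Lb.r r343 (@Lb.g g8 (@Lb.d (nat_lit 85) (nat_lit 0) (nat_lit 0) (@Lb.t (@Lb.fm (nat_lit 3) t2590)))))))))
noncomputable def l10684 : Lb := (@Lb.d (nat_lit 18) (nat_lit 2) (nat_lit 0) (@Lb.g g8 (@Lb.g g9 (@Lb.g g10 (@Lb.r r683 (@Lb.r r1686 (@Lb.r r169 (@Lb.r r148 (@Lb.d (nat_lit 33) (nat_lit 72) (nat_lit 258) (@Lb.t (@Lb.fp (nat_lit 9) t531)))))))))))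
noncomputable def l10685 : Lb := (@Lb.r r90 (@Lb.r r283 (@Lb.d (nat_lit 593) (nat_lit 258) (nat_lit 0) (@Lb.g g4 (@Lb.g g9 (@Lb.r r2579 (@Lb.r r1369 (@Lb.r r2662 (@Lb.d (nat_lit 1) (nat_lit 1) (nat_lit 392) (@Lb.fm (nat_lit 3) t953))))))))))
noncomputable def l10686 : Lb := (@Lb.d (nat_lit 2) (nat_lit 512) (nat_lit 0) (@Lb.g g8 (@Lb.r r2665 (@Lb.r r363 (@Lb.r r356 (@Lb.r r154 (@Lb.d (nat_lit 642) (nat_lit 5) (nat_lit 600) (@Lb.t (@Lb.fp (nat_lit 3) t2591)))))))))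
noncomputable def l10687 : Lb := (@Lb.r r21 (@Lb.d (nat_lit 646) (nat_lit 0) (nat_lit 130) (@Lb.g g8 (@Lb.g g10 (@Lb.g g11 (@Lb.r r419 (@Lb.r r106 (@Lb.r r25 (@Lb.d (nat_lit 354) (nat_lit 73) (nat_lit 9) (@Lb.t (@Lb.fm (nat_lit 9) t1354)))))))))))
noncomputable def l10688 : Lb := (@Lb.r r90 (@Lb.r r283 (@Lb.d (nat_lit 36) (nat_lit 128) (nat_lit 0) (@Lb.g g8 (@Lb.g g9 (@Lb.r r422 (@Lb.r r2627 (@Lb.r r68 (@Lb.d (nat_lit 18) (nat_lit 69) (nat_lit 425) (@Lb.fm (nat_lit 3) t2592))))))))))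
noncomputable def l10689 : Lb := (@Lb.d (nat_lit 25) (nat_lit 1) (nat_lit 0) (@Lb.g g8 (@Lb.g g9 (@Lb.g g10 (@Lb.r r359 (@Lb.r r2378 (@Lb.r r2453 (@Lb.r r420 (@Lb.d (nat_lit 520) (nat_lit 38) (nat_lit 324) (@Lb.t (@Lb.fm (nat_lit 9) t2593)))))))))))
noncomputable def l10690 : Lb := (@Lb.d (nat_lit 8) (nat_lit 258) (nat_lit 0) (@Lb.g g9 (@Lb.g g7 (@Lb.r r402 (@Lb.r r24 (@Lb.r r101 (@Lb.d (nat_lit 529) (nat_lit 69) (nat_lit 577) (@Lb.fm (nat_lit 3) t983))))))))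
noncomputable def l10691 : Lb := (@Lb.d (nat_lit 104) (nat_lit 512) (nat_lit 73) (@Lb.g g8 (@Lb.g g10 (@Lb.g g11 (@Lb.r r2691 (@Lb.r r1109 (@Lb.r r610 (@Lb.r r1412 (@Lb.d (nat_lit 354) (nat_lit 37) (nat_lit 84) (@Lb.t (@Lb.fp (nat_lit 9) t70)))))))))))
noncomputable def l10692 : Lb := (@Lb.d (nat_lit 137) (nat_lit 512) (nat_lit 26) (@Lb.g g8 (@Lb.g g6 (@Lb.r r661 (@Lb.r r1559 (@Lb.r r2344 (@Lb.d (nat_lit 389) (nat_lit 98) (nat_lit 641) (@Lb.fp (nat_lit 3) t296))))))))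
noncomputable def l10693 : Lb := (@Lb.d (nat_lit 1) (nat_lit 544) (nat_lit 320) (@Lb.g g8 (@Lb.g g10 (@Lb.g g11 (@Lb.r r2345 (@Lb.r r1188 (@Lb.r r1158 (@Lb.d (nat_lit 0) (nat_lit 10) (nat_lit 161) (@Lb.t (@Lb.fm (nat_lit 9) t296))))))))))
noncomputable def l10694 : Lb := (@Lb.g g7 (@Lb.r r100 (@Lb.r r410 (@Lb.r r21 (@Lb.r r2084 (@Lb.d (nat_lit 0) (nat_lit 256) (nat_lit 297) (@Lb.t (@Lb.fp (nat_lit 3) t311))))))))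
noncomputable def l10695 : Lb := (@Lb.r r323 (@Lb.d (nat_lit 0) (nat_lit 517) (nat_lit 0) (@Lb.g g9 (@Lb.g g10 (@Lb.r r611 (@Lb.r r2214 (@Lb.r r2644 (@Lb.r r1321 (@Lb.d (nat_lit 646) (nat_lit 34) (nat_lit 576) (@Lb.fp (nat_lit 3) t261))))))))))
noncomputable def l10696 : Lb := (@Lb.d (nat_lit 0) (nat_lit 512) (nat_lit 2) (@Lb.g g9 (@Lb.g g10 (@Lb.g g11 (@Lb.r r2403 (@Lb.r r98 (@Lb.d (nat_lit 0) (nat_lit 132) (nat_lit 17) (@Lb.t (@Lb.fm (nat_lit 9) t51)))))))))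
noncomputable def l10697 : Lb := (@Lb.g g6 (@Lb.r r24 (@Lb.r r101 (@Lb.r r402 (@Lb.d (nat_lit 0) (nat_lit 0) (nat_lit 2) (@Lb.t (@Lb.fp (nat_lit 3) t311)))))))
noncomputable def l10698 : Lb := (@Lb.d (nat_lit 2) (nat_lit 514) (nat_lit 130) (@Lb.g g8 (@Lb.g g9 (@Lb.g g10 (@Lb.g g11 (@Lb.r r2666 (@Lb.r r579 (@Lb.r r97 (@Lb.r r24 (@Lb.d (nat_lit 361) (nat_lit 9) (nat_lit 680) (@Lb.fm (nat_lit 9) t61)))))))))))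
noncomputable def l10699 : Lb := (@Lb.r r323 (@Lb.d (nat_lit 2) (nat_lit 258) (nat_lit 2) (@Lb.g g8 (@Lb.g g9 (@Lb.g g10 (@Lb.r r1623 (@Lb.r r2154 (@Lb.r r97 (@Lb.r r24 (@Lb.d (nat_lit 265) (nat_lit 9) (nat_lit 17) (@Lb.t (@Lb.fp (nat_lit 9) t61))))))))))))
noncomputable def l10700 : Lb := (@Lb.r r21 (@Lb.r r70 (@Lb.d (nat_lit 130) (nat_lit 0) (nat_lit 64) (@Lb.g g8 (@Lb.g g11 (@Lb.r r523 (@Lb.r r2454 (@Lb.r r97 (@Lb.r r2564 (@Lb.d (nat_lit 640) (nat_lit 128) (nat_lit 384) (@Lb.fp (nat_lit 3) t149)))))))))))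
noncomputable def l10701 : Lb := (@Lb.d (nat_lit 128) (nat_lit 256) (nat_lit 64) (@Lb.g g11 (@Lb.r r2698 (@Lb.r r260 (@Lb.r r603 (@Lb.r r289 (@Lb.d (nat_lit 549) (nat_lit 152) (nat_lit 521) (@Lb.t (@Lb.fm (nat_lit 3) t51)))))))))
noncomputable def l10702 : Lb := (@Lb.r r21 (@Lb.d (nat_lit 2) (nat_lit 16) (nat_lit 328) (@Lb.g g8 (@Lb.g g7 (@Lb.r r2345 (@Lb.r r164 (@Lb.r r1158 (@Lb.d (nat_lit 290) (nat_lit 74) (nat_lit 81) (@Lb.fp (nat_lit 3) t296)))))))))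
noncomputable def l10703 : Lb := (@Lb.d (nat_lit 8) (nat_lit 514) (nat_lit 130) (@Lb.g g9 (@Lb.g g10 (@Lb.g g11 (@Lb.r r2658 (@Lb.r r579 (@Lb.d (nat_lit 2) (nat_lit 97) (nat_lit 586) (@Lb.t (@Lb.fp (nat_lit 9) t51)))))))))
noncomputable def l10704 : Lb := (@Lb.d (nat_lit 4) (nat_lit 6) (nat_lit 1) (@Lb.r r24 (@Lb.r r97 (@Lb.r r323 (@Lb.g g10 (@Lb.g g5 (@Lb.d (nat_lit 0) (nat_lit 1) (nat_lit 2) (@Lb.r r387 (@Lb.fp (nat_lit 3) t51)))))))))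
noncomputable def l10705 : Lb := (@Lb.d (nat_lit 168) (nat_lit 281) (nat_lit 69) (@Lb.r r600 (@Lb.r r347 (@Lb.g g10 (@Lb.g g9 (@Lb.g g4 (@Lb.d (nat_lit 20) (nat_lit 16) (nat_lit 4) (@Lb.t (@Lb.fm (nat_lit 9) t521)))))))))
noncomputable def l10706 : Lb := (@Lb.d (nat_lit 128) (nat_lit 256) (nat_lit 130) (@Lb.g g10 (@Lb.g g11 (@Lb.r r264 (@Lb.r r519 (@Lb.r r618 (@Lb.r r537 (@Lb.d (nat_lit 26) (nat_lit 36) (nat_lit 134) (@Lb.fm (nat_lit 3) t494)))))))))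
noncomputable def l10707 : Lb := (@Lb.r r322 (@Lb.d (nat_lit 72) (nat_lit 2) (nat_lit 384) (@Lb.g g9 (@Lb.g g7 (@Lb.r r2440 (@Lb.r r2730 (@Lb.r r409 (@Lb.d (nat_lit 384) (nat_lit 33) (nat_lit 330) (@Lb.fp (nat_lit 3) t445)))))))))
noncomputable def l10708 : Lb := (@Lb.d (nat_lit 128) (nat_lit 512) (nat_lit 128) (@Lb.g g10 (@Lb.g g11 (@Lb.r r264 (@Lb.r r519 (@Lb.r r586 (@Lb.r r537 (@Lb.d (nat_lit 2) (nat_lit 0) (nat_lit 128) (@Lb.fm (nat_lit 3) t521)))))))))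
noncomputable def l10709 : Lb := (@Lb.d (nat_lit 1) (nat_lit 512) (nat_lit 130) (@Lb.g g8 (@Lb.g g9 (@Lb.g g10 (@Lb.g g11 (@Lb.r r1303 (@Lb.r r2713 (@Lb.r r2650 (@Lb.r r2628 (@Lb.d (nat_lit 408) (nat_lit 1) (nat_lit 425) (@Lb.fp (nat_lit 9) t441)))))))))))
noncomputable def l10710 : Lb := (@Lb.d (nat_lit 2) (nat_lit 294) (nat_lit 128) (@Lb.g g8 (@Lb.g g9 (@Lb.g g10 (@Lb.g g11 (@Lb.r r1706 (@Lb.r r168 (@Lb.r r1577 (@Lb.r r1315 (@Lb.r r2084 (@Lb.d (nat_lit 586) (nat_lit 65) (nat_lit 74) (@Lb.fm (nat_lit 9) t125))))))))))))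
noncomputable def l10711 : Lb := (@Lb.d (nat_lit 2) (nat_lit 512) (nat_lit 128) (@Lb.g g8 (@Lb.g g10 (@Lb.g g11 (@Lb.r r1287 (@Lb.r r1381 (@Lb.r r2714 (@Lb.r r2564 (@Lb.d (nat_lit 400) (nat_lit 0) (nat_lit 385) (@Lb.t (@Lb.fm (nat_lit 9) t1069)))))))))))
noncomputable def l10712 : Lb := (@Lb.g g4 (@Lb.g g5 (@Lb.g g7 (@Lb.d (nat_lit 1) (nat_lit 0) (nat_lit 69) (@Lb.t (@Lb.fp (nat_lit 9) t2))))))
noncomputable def l10713 : Lb := (@Lb.g g10 (@Lb.g g7 (@Lb.r r354 (@Lb.r r1427 (@Lb.r r101 (@Lb.r r24 (@Lb.d (nat_lit 65) (nat_lit 522) (nat_lit 2) (@Lb.fp (nat_lit 3) t145))))))))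
noncomputable def l10714 : Lb := (@Lb.g g5 (@Lb.g g7 (@Lb.d (nat_lit 5) (nat_lit 1) (nat_lit 69) (@Lb.fm (nat_lit 3) t2))))
noncomputable def l10715 : Lb := (@Lb.d (nat_lit 6) (nat_lit 409) (nat_lit 388) (@Lb.r r21 (@Lb.r r579 (@Lb.r r1366 (@Lb.g g7 (@Lb.g g6 (@Lb.g g5 (@Lb.g g4 (@Lb.d (nat_lit 1) (nat_lit 1) (nat_lit 70) (@Lb.fm (nat_lit 9) t1799))))))))))
noncomputable def l10716 : Lb := (@Lb.g g5 (@Lb.g g7 (@Lb.r r402 (@Lb.d (nat_lit 0) (nat_lit 389) (nat_lit 257) (@Lb.fp (nat_lit 3) t334)))))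
noncomputable def l10717 : Lb := (@Lb.d (nat_lit 0) (nat_lit 512) (nat_lit 68) (@Lb.g g5 (@Lb.g g7 (@Lb.r r402 (@Lb.d (nat_lit 0) (nat_lit 160) (nat_lit 324) (@Lb.fp (nat_lit 3) t334))))))
noncomputable def l10718 : Lb := (@Lb.d (nat_lit 8) (nat_lit 9) (nat_lit 130) (@Lb.g g9 (@Lb.g g10 (@Lb.g g11 (@Lb.r r387 (@Lb.r r1126 (@Lb.r r2452 (@Lb.r r2649 (@Lb.d (nat_lit 296) (nat_lit 166) (nat_lit 88) (@Lb.t (@Lb.fm (nat_lit 9) t1849)))))))))))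
noncomputable def l10719 : Lb := (@Lb.d (nat_lit 4) (nat_lit 513) (nat_lit 128) (@Lb.g g5 (@Lb.g g10 (@Lb.g g11 (@Lb.r r387 (@Lb.r r402 (@Lb.r r24 (@Lb.d (nat_lit 321) (nat_lit 5) (nat_lit 514) (@Lb.t (@Lb.fp (nat_lit 9) t2594))))))))))
noncomputable def l10720 : Lb := (@Lb.d (nat_lit 2) (nat_lit 9) (nat_lit 129) (@Lb.g g8 (@Lb.g g9 (@Lb.g g10 (@Lb.g g11 (@Lb.r r2459 (@Lb.r r297 (@Lb.r r1384 (@Lb.r r2630 (@Lb.d (nat_lit 658) (nat_lit 137) (nat_lit 289) (@Lb.fp (nat_lit 9) t2595)))))))))))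
noncomputable def l10721 : Lb := (@Lb.r r82 (@Lb.g g9 (@Lb.r r146 (@Lb.r r161 (@Lb.d (nat_lit 0) (nat_lit 266) (nat_lit 2) (@Lb.t (@Lb.fp (nat_lit 3) t1112)))))))
noncomputable def l10722 : Lb := (@Lb.r r263 (@Lb.d (nat_lit 4) (nat_lit 264) (nat_lit 2) (@Lb.g g8 (@Lb.g g5 (@Lb.g g10 (@Lb.r r1315 (@Lb.r r2200 (@Lb.d (nat_lit 282) (nat_lit 0) (nat_lit 2) (@Lb.t (@Lb.fm (nat_lit 9) t2596))))))))))
noncomputable def l10723 : Lb := (@Lb.d (nat_lit 2) (nat_lit 521) (nat_lit 129) (@Lb.g g8 (@Lb.g g9 (@Lb.g g10 (@Lb.g g11 (@Lb.r r2459 (@Lb.r r297 (@Lb.r r1384 (@Lb.r r2630 (@Lb.d (nat_lit 658) (nat_lit 130) (nat_lit 290) (@Lb.fp (nat_lit 9) t2595)))))))))))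
noncomputable def l10724 : Lb := (@Lb.d (nat_lit 129) (nat_lit 528) (nat_lit 137) (@Lb.g g8 (@Lb.g g9 (@Lb.g g10 (@Lb.g g11 (@Lb.r r419 (@Lb.r r344 (@Lb.r r1429 (@Lb.r r2134 (@Lb.r r1188 (@Lb.d (nat_lit 545) (nat_lit 105) (nat_lit 401) (@Lb.fm (nat_lit 9) t98))))))))))))
noncomputable def l10725 : Lb := (@Lb.r r21 (@Lb.d (nat_lit 2) (nat_lit 260) (nat_lit 9) (@Lb.g g8 (@Lb.g g6 (@Lb.r r273 (@Lb.r r619 (@Lb.r r612 (@Lb.d (nat_lit 130) (nat_lit 17) (nat_lit 136) (@Lb.fm (nat_lit 3) t714)))))))))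
noncomputable def l10726 : Lb := (@Lb.g g7 (@Lb.r r101 (@Lb.r r24 (@Lb.d (nat_lit 17) (nat_lit 0) (nat_lit 0) (@Lb.t (@Lb.fm (nat_lit 3) t40))))))
noncomputable def l10727 : Lb := (@Lb.d (nat_lit 0) (nat_lit 128) (nat_lit 256) (@Lb.r r402 (@Lb.g g11 (@Lb.g g6 (@Lb.fm (nat_lit 3) t334)))))
noncomputable def l10728 : Lb := (@Lb.d (nat_lit 4) (nat_lit 256) (nat_lit 98) (@Lb.g g8 (@Lb.g g9 (@Lb.g g6 (@Lb.g g11 (@Lb.r r601 (@Lb.r r2323 (@Lb.r r2577 (@Lb.d (nat_lit 610) (nat_lit 129) (nat_lit 408) (@Lb.fm (nat_lit 9) t386))))))))))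
noncomputable def l10729 : Lb := (@Lb.r r322 (@Lb.d (nat_lit 34) (nat_lit 258) (nat_lit 72) (@Lb.g g8 (@Lb.g g9 (@Lb.g g7 (@Lb.r r361 (@Lb.r r150 (@Lb.r r104 (@Lb.d (nat_lit 100) (nat_lit 10) (nat_lit 9) (@Lb.t (@Lb.fm (nat_lit 9) t242)))))))))))
noncomputable def l10730 : Lb := (@Lb.d (nat_lit 2) (nat_lit 516) (nat_lit 89) (@Lb.g g8 (@Lb.g g9 (@Lb.g g6 (@Lb.g g11 (@Lb.r r2657 (@Lb.r r24 (@Lb.d (nat_lit 10) (nat_lit 89) (nat_lit 128) (@Lb.fm (nat_lit 9) t42)))))))))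
noncomputable def l10731 : Lb := (@Lb.r r21 (@Lb.r r70 (@Lb.d (nat_lit 129) (nat_lit 256) (nat_lit 64) (@Lb.g g8 (@Lb.g g11 (@Lb.r r263 (@Lb.r r402 (@Lb.r r281 (@Lb.r r260 (@Lb.d (nat_lit 130) (nat_lit 133) (nat_lit 257) (@Lb.fp (nat_lit 3) t898)))))))))))
noncomputable def l10732 : Lb := (@Lb.r r21 (@Lb.r r70 (@Lb.d (nat_lit 2) (nat_lit 512) (nat_lit 128) (@Lb.g g8 (@Lb.g g11 (@Lb.r r391 (@Lb.r r402 (@Lb.r r165 (@Lb.r r104 (@Lb.d (nat_lit 25) (nat_lit 165) (nat_lit 261) (@Lb.fp (nat_lit 3) t898)))))))))))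
noncomputable def l10733 : Lb := (@Lb.d (nat_lit 5) (nat_lit 360) (nat_lit 4) (@Lb.r r673 (@Lb.r r683 (@Lb.r r612 (@Lb.r r90 (@Lb.g g6 (@Lb.g g5 (@Lb.d (nat_lit 4) (nat_lit 1) (nat_lit 1) (@Lb.r r387 (@Lb.fm (nat_lit 3) t51))))))))))
noncomputable def l10734 : Lb := (@Lb.r r21 (@Lb.r r70 (@Lb.d (nat_lit 129) (nat_lit 256) (nat_lit 64) (@Lb.g g8 (@Lb.g g11 (@Lb.r r263 (@Lb.r r330 (@Lb.r r281 (@Lb.r r260 (@Lb.d (nat_lit 130) (nat_lit 0) (nat_lit 69) (@Lb.fm (nat_lit 3) t68)))))))))))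
noncomputable def l10735 : Lb := (@Lb.d (nat_lit 2) (nat_lit 2) (nat_lit 98) (@Lb.g g8 (@Lb.g g9 (@Lb.g g6 (@Lb.g g11 (@Lb.r r601 (@Lb.r r2323 (@Lb.r r2577 (@Lb.d (nat_lit 609) (nat_lit 129) (nat_lit 408) (@Lb.fm (nat_lit 9) t386))))))))))
noncomputable def l10736 : Lb := (@Lb.d (nat_lit 137) (nat_lit 616) (nat_lit 521) (@Lb.r r657 (@Lb.r r666 (@Lb.r r420 (@Lb.g g11 (@Lb.g g6 (@Lb.g g5 (@Lb.d (nat_lit 4) (nat_lit 0) (nat_lit 129) (@Lb.t (@Lb.fp (nat_lit 9) t1439))))))))))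
noncomputable def l10737 : Lb := (@Lb.d (nat_lit 388) (nat_lit 146) (nat_lit 256) (@Lb.r r101 (@Lb.r r402 (@Lb.r r323 (@Lb.g g7 (@Lb.g g6 (@Lb.d (nat_lit 0) (nat_lit 0) (nat_lit 64) (@Lb.fm (nat_lit 3) t1481))))))))
noncomputable def l10738 : Lb := (@Lb.g g4 (@Lb.r r1321 (@Lb.r r1444 (@Lb.r r1414 (@Lb.d (nat_lit 0) (nat_lit 261) (nat_lit 582) (@Lb.t (@Lb.fm (nat_lit 3) t2597)))))))
noncomputable def l10739 : Lb := (@Lb.d (nat_lit 0) (nat_lit 273) (nat_lit 642) (@Lb.r r1555 (@Lb.r r1301 (@Lb.r r2664 (@Lb.g g7 (@Lb.g g10 (@Lb.g g5 (@Lb.d (nat_lit 32) (nat_lit 0) (nat_lit 41) (@Lb.t (@Lb.fm (nat_lit 9) t2598))))))))))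
noncomputable def l10740 : Lb := (@Lb.r r81 (@Lb.d (nat_lit 9) (nat_lit 256) (nat_lit 26) (@Lb.g g8 (@Lb.g g10 (@Lb.r r101 (@Lb.r r152 (@Lb.d (nat_lit 586) (nat_lit 10) (nat_lit 584) (@Lb.fm (nat_lit 3) t816))))))))
noncomputable def l10741 : Lb := (@Lb.d (nat_lit 149) (nat_lit 82) (nat_lit 513) (@Lb.r r289 (@Lb.r r70 (@Lb.r r420 (@Lb.g g11 (@Lb.g g6 (@Lb.d (nat_lit 16) (nat_lit 0) (nat_lit 70) (@Lb.fm (nat_lit 3) t2599))))))))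
noncomputable def l10742 : Lb := (@Lb.d (nat_lit 0) (nat_lit 514) (nat_lit 66) (@Lb.g g4 (@Lb.g g9 (@Lb.g g10 (@Lb.g g7 (@Lb.r r386 (@Lb.r r2149 (@Lb.d (nat_lit 88) (nat_lit 138) (nat_lit 553) (@Lb.fp (nat_lit 9) t1641)))))))))
noncomputable def l10743 : Lb := (@Lb.d (nat_lit 1) (nat_lit 2) (nat_lit 66) (@Lb.g g4 (@Lb.g g9 (@Lb.g g10 (@Lb.g g7 (@Lb.r r386 (@Lb.r r2149 (@Lb.d (nat_lit 89) (nat_lit 138) (nat_lit 553) (@Lb.fp (nat_lit 9) t1641)))))))))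
noncomputable def l10744 : Lb := (@Lb.r r82 (@Lb.r r275 (@Lb.d (nat_lit 0) (nat_lit 257) (nat_lit 0) (@Lb.g g5 (@Lb.r r291 (@Lb.r r98 (@Lb.r r24 (@Lb.d (nat_lit 10) (nat_lit 2) (nat_lit 0) (@Lb.t (@Lb.fp (nat_lit 3) t68))))))))))
noncomputable def l10745 : Lb := (@Lb.d (nat_lit 32) (nat_lit 18) (nat_lit 10) (@Lb.g g5 (@Lb.g g10 (@Lb.r r584 (@Lb.r r331 (@Lb.r r662 (@Lb.d (nat_lit 132) (nat_lit 40) (nat_lit 148) (@Lb.fp (nat_lit 3) t285))))))))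
noncomputable def l10746 : Lb := (@Lb.d (nat_lit 32) (nat_lit 512) (nat_lit 10) (@Lb.g g10 (@Lb.r r2651 (@Lb.r r2648 (@Lb.r r2453 (@Lb.r r1430 (@Lb.d (nat_lit 353) (nat_lit 89) (nat_lit 9) (@Lb.t (@Lb.fm (nat_lit 3) t2600)))))))))
noncomputable def l10747 : Lb := (@Lb.d (nat_lit 10) (nat_lit 40) (nat_lit 130) (@Lb.g g8 (@Lb.g g10 (@Lb.g g11 (@Lb.r r1301 (@Lb.r r2664 (@Lb.r r406 (@Lb.r r2659 (@Lb.d (nat_lit 0) (nat_lit 9) (nat_lit 537) (@Lb.t (@Lb.fp (nat_lit 9) t2601)))))))))))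
noncomputable def l10748 : Lb := (@Lb.d (nat_lit 136) (nat_lit 9) (nat_lit 129) (@Lb.g g9 (@Lb.g g10 (@Lb.g g11 (@Lb.r r618 (@Lb.r r24 (@Lb.r r405 (@Lb.r r611 (@Lb.d (nat_lit 132) (nat_lit 24) (nat_lit 146) (@Lb.t (@Lb.fm (nat_lit 9) t938)))))))))))
noncomputable def l10749 : Lb := (@Lb.d (nat_lit 10) (nat_lit 513) (nat_lit 128) (@Lb.g g8 (@Lb.g g9 (@Lb.g g11 (@Lb.r r1707 (@Lb.r r162 (@Lb.r r145 (@Lb.r r1608 (@Lb.d (nat_lit 97) (nat_lit 9) (nat_lit 665) (@Lb.t (@Lb.fp (nat_lit 9) t1082)))))))))))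
noncomputable def l10750 : Lb := (@Lb.d (nat_lit 8) (nat_lit 546) (nat_lit 0) (@Lb.g g9 (@Lb.r r1627 (@Lb.r r1624 (@Lb.r r405 (@Lb.r r2114 (@Lb.d (nat_lit 358) (nat_lit 90) (nat_lit 660) (@Lb.t (@Lb.fp (nat_lit 3) t392)))))))))
noncomputable def l10751 : Lb := (@Lb.d (nat_lit 32) (nat_lit 0) (nat_lit 9) (@Lb.g g10 (@Lb.r r1355 (@Lb.r r1352 (@Lb.r r2390 (@Lb.r r1425 (@Lb.d (nat_lit 134) (nat_lit 164) (nat_lit 577) (@Lb.t (@Lb.fm (nat_lit 3) t2602)))))))))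
noncomputable def l10752 : Lb := (@Lb.r r21 (@Lb.r r323 (@Lb.d (nat_lit 18) (nat_lit 264) (nat_lit 0) (@Lb.g g4 (@Lb.g g10 (@Lb.r r2649 (@Lb.r r1431 (@Lb.r r1350 (@Lb.d (nat_lit 80) (nat_lit 10) (nat_lit 404) (@Lb.fp (nat_lit 3) t601))))))))))
noncomputable def l10753 : Lb := (@Lb.r r323 (@Lb.d (nat_lit 138) (nat_lit 512) (nat_lit 32) (@Lb.g g4 (@Lb.g g10 (@Lb.r r619 (@Lb.r r537 (@Lb.r r1560 (@Lb.d (nat_lit 389) (nat_lit 152) (nat_lit 337) (@Lb.fp (nat_lit 3) t386)))))))))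
noncomputable def l10754 : Lb := (@Lb.d (nat_lit 0) (nat_lit 512) (nat_lit 74) (@Lb.g g10 (@Lb.g g11 (@Lb.r r2707 (@Lb.r r2341 (@Lb.r r2136 (@Lb.r r1158 (@Lb.d (nat_lit 289) (nat_lit 5) (nat_lit 32) (@Lb.fm (nat_lit 3) t296)))))))))
noncomputable def l10755 : Lb := (@Lb.r r20 (@Lb.r r275 (@Lb.d (nat_lit 8) (nat_lit 514) (nat_lit 2) (@Lb.g g5 (@Lb.g g10 (@Lb.r r1686 (@Lb.r r2404 (@Lb.r r1563 (@Lb.d (nat_lit 6) (nat_lit 80) (nat_lit 69) (@Lb.fp (nat_lit 3) t1352))))))))))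
noncomputable def l10756 : Lb := (@Lb.d (nat_lit 32) (nat_lit 512) (nat_lit 2) (@Lb.g g10 (@Lb.r r2579 (@Lb.r r2341 (@Lb.r r72 (@Lb.r r150 (@Lb.d (nat_lit 518) (nat_lit 0) (nat_lit 0) (@Lb.t (@Lb.fp (nat_lit 3) t296)))))))))
noncomputable def l10757 : Lb := (@Lb.r r20 (@Lb.r r275 (@Lb.d (nat_lit 8) (nat_lit 258) (nat_lit 2) (@Lb.g g5 (@Lb.g g10 (@Lb.r r1686 (@Lb.r r2404 (@Lb.r r1563 (@Lb.d (nat_lit 1) (nat_lit 89) (nat_lit 68) (@Lb.fp (nat_lit 3) t254))))))))))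
noncomputable def l10758 : Lb := (@Lb.d (nat_lit 32) (nat_lit 8) (nat_lit 2) (@Lb.g g10 (@Lb.r r104 (@Lb.r r1641 (@Lb.r r2411 (@Lb.r r2710 (@Lb.d (nat_lit 390) (nat_lit 160) (nat_lit 297) (@Lb.t (@Lb.fm (nat_lit 3) t100)))))))))
noncomputable def l10759 : Lb := (@Lb.d (nat_lit 0) (nat_lit 530) (nat_lit 5) (@Lb.r r2323 (@Lb.r r2597 (@Lb.r r2132 (@Lb.r r1354 (@Lb.g g7 (@Lb.g g6 (@Lb.g g4 (@Lb.d (nat_lit 1) (nat_lit 0) (nat_lit 129) (@Lb.t (@Lb.fm (nat_lit 9) t1549)))))))))))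
noncomputable def l10760 : Lb := (@Lb.r r20 (@Lb.r r275 (@Lb.d (nat_lit 8) (nat_lit 2) (nat_lit 2) (@Lb.g g5 (@Lb.g g10 (@Lb.r r1686 (@Lb.r r2404 (@Lb.r r1563 (@Lb.d (nat_lit 1) (nat_lit 82) (nat_lit 69) (@Lb.fp (nat_lit 3) t144))))))))))
noncomputable def l10761 : Lb := (@Lb.r r21 (@Lb.d (nat_lit 146) (nat_lit 256) (nat_lit 74) (@Lb.g g8 (@Lb.g g10 (@Lb.g g11 (@Lb.r r1691 (@Lb.r r2401 (@Lb.r r1170 (@Lb.r r1176 (@Lb.d (nat_lit 9) (nat_lit 70) (nat_lit 34) (@Lb.t (@Lb.fm (nat_lit 9) t125))))))))))))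
noncomputable def l10762 : Lb := (@Lb.g g5 (@Lb.r r24 (@Lb.r r101 (@Lb.d (nat_lit 0) (nat_lit 258) (nat_lit 136) (@Lb.t (@Lb.fm (nat_lit 3) t87))))))
noncomputable def l10763 : Lb := (@Lb.d (nat_lit 10) (nat_lit 8) (nat_lit 73) (@Lb.g g8 (@Lb.g g9 (@Lb.g g10 (@Lb.g g11 (@Lb.r r1666 (@Lb.r r1431 (@Lb.r r97 (@Lb.r r2584 (@Lb.d (nat_lit 104) (nat_lit 169) (nat_lit 417) (@Lb.fm (nat_lit 9) t1095)))))))))))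
noncomputable def l10764 : Lb := (@Lb.d (nat_lit 2) (nat_lit 265) (nat_lit 73) (@Lb.g g8 (@Lb.g g9 (@Lb.g g10 (@Lb.g g11 (@Lb.r r643 (@Lb.r r297 (@Lb.r r360 (@Lb.r r582 (@Lb.r r132 (@Lb.d (nat_lit 136) (nat_lit 9) (nat_lit 73) (@Lb.fm (nat_lit 9) t1698))))))))))))
noncomputable def l10765 : Lb := (@Lb.g g5 (@Lb.g g7 (@Lb.r r24 (@Lb.r r101 (@Lb.r r402 (@Lb.d (nat_lit 0) (nat_lit 5) (nat_lit 64) (@Lb.fp (nat_lit 3) t311)))))))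
noncomputable def l10766 : Lb := (@Lb.r r323 (@Lb.d (nat_lit 0) (nat_lit 520) (nat_lit 34) (@Lb.g g10 (@Lb.r r2659 (@Lb.r r101 (@Lb.d (nat_lit 581) (nat_lit 40) (nat_lit 385) (@Lb.t (@Lb.fp (nat_lit 3) t240))))))))
noncomputable def l10767 : Lb := (@Lb.d (nat_lit 9) (nat_lit 257) (nat_lit 74) (@Lb.g g8 (@Lb.g g9 (@Lb.g g10 (@Lb.g g11 (@Lb.r r2731 (@Lb.r r2724 (@Lb.r r1158 (@Lb.r r97 (@Lb.d (nat_lit 289) (nat_lit 105) (nat_lit 673) (@Lb.fm (nat_lit 9) t296)))))))))))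
noncomputable def l10768 : Lb := (@Lb.d (nat_lit 1) (nat_lit 521) (nat_lit 73) (@Lb.g g8 (@Lb.g g9 (@Lb.g g10 (@Lb.g g11 (@Lb.r r643 (@Lb.r r297 (@Lb.r r360 (@Lb.r r582 (@Lb.r r132 (@Lb.d (nat_lit 409) (nat_lit 9) (nat_lit 106) (@Lb.fm (nat_lit 9) t2603))))))))))))
noncomputable def l10769 : Lb := (@Lb.d (nat_lit 9) (nat_lit 264) (nat_lit 73) (@Lb.g g8 (@Lb.g g9 (@Lb.g g10 (@Lb.g g11 (@Lb.r r2731 (@Lb.r r2724 (@Lb.r r2214 (@Lb.r r145 (@Lb.d (nat_lit 521) (nat_lit 68) (nat_lit 136) (@Lb.fp (nat_lit 9) t546)))))))))))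
noncomputable def l10770 : Lb := (@Lb.d (nat_lit 138) (nat_lit 512) (nat_lit 0) (@Lb.g g8 (@Lb.r r1434 (@Lb.r r615 (@Lb.r r1621 (@Lb.r r164 (@Lb.d (nat_lit 42) (nat_lit 165) (nat_lit 642) (@Lb.t (@Lb.fp (nat_lit 3) t2604)))))))))
noncomputable def l10771 : Lb := (@Lb.r r338 (@Lb.d (nat_lit 552) (nat_lit 613) (nat_lit 136) (@Lb.g g4 (@Lb.g g9 (@Lb.g g11 (@Lb.r r1410 (@Lb.d (nat_lit 1) (nat_lit 90) (nat_lit 90) (@Lb.t (@Lb.fm (nat_lit 9) t2605)))))))))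
noncomputable def l10772 : Lb := (@Lb.d (nat_lit 32) (nat_lit 520) (nat_lit 129) (@Lb.g g10 (@Lb.g g11 (@Lb.r r1687 (@Lb.r r2408 (@Lb.r r1385 (@Lb.r r598 (@Lb.d (nat_lit 149) (nat_lit 38) (nat_lit 384) (@Lb.fp (nat_lit 3) t271)))))))))
noncomputable def l10773 : Lb := (@Lb.r r289 (@Lb.r r420 (@Lb.r r603 (@Lb.r r390 (@Lb.r r516 (@Lb.d (nat_lit 0) (nat_lit 336) (nat_lit 264) (@Lb.fm (nat_lit 1) t845)))))))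
noncomputable def l10774 : Lb := (@Lb.r r263 (@Lb.d (nat_lit 10) (nat_lit 1) (nat_lit 2) (@Lb.g g8 (@Lb.g g9 (@Lb.g g10 (@Lb.r r675 (@Lb.r r168 (@Lb.r r2666 (@Lb.r r2585 (@Lb.d (nat_lit 682) (nat_lit 169) (nat_lit 344) (@Lb.t (@Lb.fm (nat_lit 9) t605))))))))))))
noncomputable def l10775 : Lb := (@Lb.r r609 (@Lb.r r548 (@Lb.r r295 (@Lb.r r390 (@Lb.r r516 (@Lb.d (nat_lit 512) (nat_lit 266) (nat_lit 34) (@Lb.fp (nat_lit 1) t40)))))))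
noncomputable def l10776 : Lb := (@Lb.d (nat_lit 18) (nat_lit 256) (nat_lit 130) (@Lb.g g8 (@Lb.g g9 (@Lb.g g10 (@Lb.g g11 (@Lb.r r610 (@Lb.r r2659 (@Lb.r r1129 (@Lb.r r2340 (@Lb.d (nat_lit 649) (nat_lit 98) (nat_lit 512) (@Lb.fp (nat_lit 9) t2606)))))))))))
noncomputable def l10777 : Lb := (@Lb.r r82 (@Lb.d (nat_lit 0) (nat_lit 290) (nat_lit 128) (@Lb.g g9 (@Lb.g g11 (@Lb.r r1575 (@Lb.r r386 (@Lb.r r2136 (@Lb.r r1061 (@Lb.d (nat_lit 409) (nat_lit 102) (nat_lit 256) (@Lb.fm (nat_lit 3) t1027))))))))))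
noncomputable def l10778 : Lb := (@Lb.d (nat_lit 9) (nat_lit 520) (nat_lit 130) (@Lb.g g8 (@Lb.g g9 (@Lb.g g10 (@Lb.g g11 (@Lb.r r1186 (@Lb.r r660 (@Lb.r r425 (@Lb.r r279 (@Lb.r r548 (@Lb.d (nat_lit 2) (nat_lit 10) (nat_lit 585) (@Lb.fp (nat_lit 9) t98))))))))))))
noncomputable def l10779 : Lb := (@Lb.d (nat_lit 4) (nat_lit 513) (nat_lit 0) (@Lb.g g5 (@Lb.g g6 (@Lb.d (nat_lit 8) (nat_lit 2) (nat_lit 0) (@Lb.fm (nat_lit 3) t2)))))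
noncomputable def l10780 : Lb := (@Lb.d (nat_lit 2) (nat_lit 2) (nat_lit 9) (@Lb.g g8 (@Lb.g g9 (@Lb.g g10 (@Lb.g g7 (@Lb.r r386 (@Lb.r r97 (@Lb.r r24 (@Lb.d (nat_lit 10) (nat_lit 9) (nat_lit 9) (@Lb.fp (nat_lit 9) t40))))))))))
noncomputable def l10781 : Lb := (@Lb.r r275 (@Lb.d (nat_lit 4) (nat_lit 137) (nat_lit 1) (@Lb.g g8 (@Lb.g g5 (@Lb.g g10 (@Lb.r r291 (@Lb.r r146 (@Lb.r r1096 (@Lb.d (nat_lit 546) (nat_lit 74) (nat_lit 1) (@Lb.t (@Lb.fp (nat_lit 9) t299)))))))))))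
noncomputable def l10782 : Lb := (@Lb.d (nat_lit 9) (nat_lit 608) (nat_lit 8) (@Lb.g g8 (@Lb.g g5 (@Lb.g g10 (@Lb.r r2371 (@Lb.r r2690 (@Lb.r r24 (@Lb.d (nat_lit 5) (nat_lit 2) (nat_lit 533) (@Lb.t (@Lb.fp (nat_lit 9) t40))))))))))
noncomputable def l10783 : Lb := (@Lb.d (nat_lit 9) (nat_lit 352) (nat_lit 8) (@Lb.g g8 (@Lb.g g5 (@Lb.g g10 (@Lb.r r2371 (@Lb.r r2690 (@Lb.r r24 (@Lb.d (nat_lit 10) (nat_lit 0) (nat_lit 533) (@Lb.t (@Lb.fp (nat_lit 9) t40))))))))))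
noncomputable def l10784 : Lb := (@Lb.d (nat_lit 8) (nat_lit 258) (nat_lit 66) (@Lb.g g9 (@Lb.g g10 (@Lb.g g11 (@Lb.r r586 (@Lb.r r584 (@Lb.r r299 (@Lb.r r289 (@Lb.d (nat_lit 9) (nat_lit 137) (nat_lit 2) (@Lb.t (@Lb.fm (nat_lit 9) t51)))))))))))
noncomputable def l10785 : Lb := (@Lb.d (nat_lit 1) (nat_lit 514) (nat_lit 0) (@Lb.g g8 (@Lb.g g9 (@Lb.r r683 (@Lb.r r2178 (@Lb.r r2649 (@Lb.r r2628 (@Lb.d (nat_lit 665) (nat_lit 134) (nat_lit 426) (@Lb.fm (nat_lit 3) t2607)))))))))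
noncomputable def l10786 : Lb := (@Lb.d (nat_lit 9) (nat_lit 96) (nat_lit 0) (@Lb.g g8 (@Lb.g g5 (@Lb.r r322 (@Lb.r r1667 (@Lb.r r578 (@Lb.r r24 (@Lb.d (nat_lit 10) (nat_lit 0) (nat_lit 2) (@Lb.fp (nat_lit 3) t40)))))))))
noncomputable def l10787 : Lb := (@Lb.d (nat_lit 9) (nat_lit 608) (nat_lit 0) (@Lb.g g8 (@Lb.g g5 (@Lb.r r322 (@Lb.r r1667 (@Lb.r r578 (@Lb.r r24 (@Lb.d (nat_lit 10) (nat_lit 0) (nat_lit 68) (@Lb.fp (nat_lit 3) t40)))))))))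
noncomputable def l10788 : Lb := (@Lb.r r21 (@Lb.d (nat_lit 129) (nat_lit 512) (nat_lit 130) (@Lb.g g8 (@Lb.g g10 (@Lb.g g11 (@Lb.r r1691 (@Lb.r r409 (@Lb.r r90 (@Lb.r r1348 (@Lb.d (nat_lit 521) (nat_lit 105) (nat_lit 274) (@Lb.t (@Lb.fp (nat_lit 9) t270))))))))))))
noncomputable def l10789 : Lb := (@Lb.r r417 (@Lb.r r2466 (@Lb.r r2387 (@Lb.r r657 (@Lb.d (nat_lit 10) (nat_lit 258) (nat_lit 0) (@Lb.fp (nat_lit 1) t402))))))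
noncomputable def l10790 : Lb := (@Lb.d (nat_lit 32) (nat_lit 256) (nat_lit 9) (@Lb.g g10 (@Lb.r r2667 (@Lb.r r2664 (@Lb.r r1641 (@Lb.r r342 (@Lb.d (nat_lit 85) (nat_lit 22) (nat_lit 674) (@Lb.t (@Lb.fm (nat_lit 3) t2486)))))))))
noncomputable def l10791 : Lb := (@Lb.d (nat_lit 1) (nat_lit 154) (nat_lit 74) (@Lb.r r609 (@Lb.r r1427 (@Lb.r r2394 (@Lb.r r1124 (@Lb.g g9 (@Lb.d (nat_lit 8) (nat_lit 1) (nat_lit 0) (@Lb.r r291 (@Lb.r r98 (@Lb.t (@Lb.fm (nat_lit 3) t2174)))))))))))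
noncomputable def l10792 : Lb := (@Lb.d (nat_lit 129) (nat_lit 256) (nat_lit 0) (@Lb.g g8 (@Lb.r r2473 (@Lb.r r599 (@Lb.r r2178 (@Lb.r r1384 (@Lb.d (nat_lit 405) (nat_lit 165) (nat_lit 596) (@Lb.t (@Lb.fp (nat_lit 3) t124)))))))))
noncomputable def l10793 : Lb := (@Lb.d (nat_lit 10) (nat_lit 544) (nat_lit 66) (@Lb.g g8 (@Lb.g g10 (@Lb.g g11 (@Lb.r r1618 (@Lb.r r149 (@Lb.r r2340 (@Lb.r r587 (@Lb.d (nat_lit 97) (nat_lit 90) (nat_lit 409) (@Lb.t (@Lb.fp (nat_lit 9) t100)))))))))))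
noncomputable def l10794 : Lb := (@Lb.d (nat_lit 642) (nat_lit 256) (nat_lit 384) (@Lb.g g8 (@Lb.t (@Lb.fp (nat_lit 3) t2608))))
noncomputable def l10795 : Lb := (@Lb.d (nat_lit 34) (nat_lit 514) (nat_lit 128) (@Lb.g g8 (@Lb.g g9 (@Lb.g g11 (@Lb.r r406 (@Lb.r r1643 (@Lb.r r97 (@Lb.r r1560 (@Lb.d (nat_lit 73) (nat_lit 98) (nat_lit 548) (@Lb.t (@Lb.fm (nat_lit 9) t564)))))))))))
noncomputable def l10796 : Lb := (@Lb.d (nat_lit 0) (nat_lit 2) (nat_lit 130) (@Lb.g g9 (@Lb.g g10 (@Lb.g g11 (@Lb.r r427 (@Lb.r r424 (@Lb.r r106 (@Lb.r r25 (@Lb.d (nat_lit 514) (nat_lit 0) (nat_lit 34) (@Lb.t (@Lb.fp (nat_lit 9) t1231)))))))))))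
noncomputable def l10797 : Lb := (@Lb.r r1158 (@Lb.r r2136 (@Lb.r r2341 (@Lb.r r2579 (@Lb.d (nat_lit 2) (nat_lit 256) (nat_lit 0) (@Lb.fp (nat_lit 1) t1593))))))
noncomputable def l10798 : Lb := (@Lb.d (nat_lit 2) (nat_lit 265) (nat_lit 129) (@Lb.g g8 (@Lb.g g9 (@Lb.g g10 (@Lb.g g11 (@Lb.r r427 (@Lb.r r388 (@Lb.r r70 (@Lb.r r153 (@Lb.r r132 (@Lb.d (nat_lit 6) (nat_lit 72) (nat_lit 153) (@Lb.fp (nat_lit 9) t408))))))))))))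
noncomputable def l10799 : Lb := (@Lb.d (nat_lit 2) (nat_lit 9) (nat_lit 130) (@Lb.g g8 (@Lb.g g9 (@Lb.g g10 (@Lb.g g11 (@Lb.r r387 (@Lb.r r2585 (@Lb.r r2564 (@Lb.d (nat_lit 648) (nat_lit 10) (nat_lit 584) (@Lb.fp (nat_lit 9) t2609))))))))))
noncomputable def l10800 : Lb := (@Lb.d (nat_lit 0) (nat_lit 258) (nat_lit 130) (@Lb.g g8 (@Lb.g g9 (@Lb.g g10 (@Lb.g g11 (@Lb.r r427 (@Lb.r r145 (@Lb.r r356 (@Lb.r r154 (@Lb.r r132 (@Lb.d (nat_lit 0) (nat_lit 73) (nat_lit 153) (@Lb.fm (nat_lit 9) t741))))))))))))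
noncomputable def l10801 : Lb := (@Lb.d (nat_lit 32) (nat_lit 512) (nat_lit 10) (@Lb.g g10 (@Lb.r r2651 (@Lb.r r2648 (@Lb.r r2453 (@Lb.r r1430 (@Lb.d (nat_lit 357) (nat_lit 90) (nat_lit 9) (@Lb.t (@Lb.fm (nat_lit 3) t188)))))))))
noncomputable def l10802 : Lb := (@Lb.d (nat_lit 32) (nat_lit 256) (nat_lit 130) (@Lb.g g10 (@Lb.g g11 (@Lb.r r2467 (@Lb.r r2197 (@Lb.r r100 (@Lb.r r410 (@Lb.d (nat_lit 665) (nat_lit 21) (nat_lit 84) (@Lb.fp (nat_lit 3) t221)))))))))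
noncomputable def l10803 : Lb := (@Lb.d (nat_lit 137) (nat_lit 0) (nat_lit 2) (@Lb.g g8 (@Lb.g g10 (@Lb.r r1557 (@Lb.r r599 (@Lb.r r386 (@Lb.r r100 (@Lb.d (nat_lit 25) (nat_lit 10) (nat_lit 536) (@Lb.fm (nat_lit 3) t188)))))))))
noncomputable def l10804 : Lb := (@Lb.d (nat_lit 9) (nat_lit 257) (nat_lit 130) (@Lb.g g8 (@Lb.g g9 (@Lb.g g10 (@Lb.g g11 (@Lb.r r169 (@Lb.r r296 (@Lb.r r391 (@Lb.r r386 (@Lb.r r132 (@Lb.d (nat_lit 2) (nat_lit 10) (nat_lit 129) (@Lb.fm (nat_lit 9) t311))))))))))))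
noncomputable def l10805 : Lb := (@Lb.d (nat_lit 2) (nat_lit 2) (nat_lit 130) (@Lb.g g8 (@Lb.g g9 (@Lb.g g10 (@Lb.g g11 (@Lb.r r427 (@Lb.r r145 (@Lb.r r356 (@Lb.r r154 (@Lb.r r132 (@Lb.d (nat_lit 9) (nat_lit 72) (nat_lit 18) (@Lb.fm (nat_lit 9) t741))))))))))))
noncomputable def l10806 : Lb := (@Lb.d (nat_lit 10) (nat_lit 256) (nat_lit 130) (@Lb.g g8 (@Lb.g g10 (@Lb.g g11 (@Lb.r r2443 (@Lb.r r2193 (@Lb.r r2458 (@Lb.r r2436 (@Lb.d (nat_lit 360) (nat_lit 9) (nat_lit 546) (@Lb.t (@Lb.fp (nat_lit 9) t221)))))))))))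
noncomputable def l10807 : Lb := (@Lb.r r82 (@Lb.r r275 (@Lb.d (nat_lit 41) (nat_lit 400) (nat_lit 0) (@Lb.g g8 (@Lb.g g5 (@Lb.r r2579 (@Lb.r r582 (@Lb.r r388 (@Lb.d (nat_lit 98) (nat_lit 1) (nat_lit 330) (@Lb.fm (nat_lit 3) t2174))))))))))
noncomputable def l10808 : Lb := (@Lb.r r275 (@Lb.d (nat_lit 9) (nat_lit 8) (nat_lit 1) (@Lb.g g8 (@Lb.g g9 (@Lb.g g10 (@Lb.r r1194 (@Lb.r r1188 (@Lb.r r2341 (@Lb.r r2579 (@Lb.d (nat_lit 385) (nat_lit 0) (nat_lit 10) (@Lb.t (@Lb.fp (nat_lit 9) t270))))))))))))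
noncomputable def l10809 : Lb := (@Lb.d (nat_lit 34) (nat_lit 512) (nat_lit 0) (@Lb.g g8 (@Lb.r r2379 (@Lb.r r582 (@Lb.r r404 (@Lb.r r2073 (@Lb.d (nat_lit 0) (nat_lit 90) (nat_lit 665) (@Lb.t (@Lb.fp (nat_lit 3) t2503)))))))))
noncomputable def l10810 : Lb := (@Lb.d (nat_lit 0) (nat_lit 266) (nat_lit 162) (@Lb.r r97 (@Lb.r r1106 (@Lb.r r1299 (@Lb.g g5 (@Lb.d (nat_lit 0) (nat_lit 1) (nat_lit 0) (@Lb.t (@Lb.fp (nat_lit 3) t216))))))))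
noncomputable def l10811 : Lb := (@Lb.d (nat_lit 401) (nat_lit 553) (nat_lit 42) (@Lb.r r610 (@Lb.r r617 (@Lb.r r424 (@Lb.r r343 (@Lb.g g7 (@Lb.g g6 (@Lb.d (nat_lit 32) (nat_lit 0) (nat_lit 65) (@Lb.fm (nat_lit 3) t1436)))))))))
noncomputable def l10812 : Lb := (@Lb.r r2145 (@Lb.d (nat_lit 1) (nat_lit 256) (nat_lit 32) (@Lb.fm (nat_lit 1) t743)))
noncomputable def l10813 : Lb := (@Lb.d (nat_lit 0) (nat_lit 280) (nat_lit 522) (@Lb.g g10 (@Lb.g g7 (@Lb.r r593 (@Lb.r r1378 (@Lb.d (nat_lit 0) (nat_lit 34) (nat_lit 386) (@Lb.fp (nat_lit 3) t216)))))))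
noncomputable def l10814 : Lb := (@Lb.d (nat_lit 0) (nat_lit 618) (nat_lit 278) (@Lb.r r97 (@Lb.r r1106 (@Lb.r r1299 (@Lb.g g5 (@Lb.d (nat_lit 0) (nat_lit 1) (nat_lit 0) (@Lb.t (@Lb.fp (nat_lit 3) t372))))))))
noncomputable def l10815 : Lb := (@Lb.d (nat_lit 6) (nat_lit 596) (nat_lit 65) (@Lb.r r657 (@Lb.r r667 (@Lb.r r584 (@Lb.r r326 (@Lb.g g7 (@Lb.g g6 (@Lb.g g5 (@Lb.d (nat_lit 0) (nat_lit 2) (nat_lit 65) (@Lb.t (@Lb.fp (nat_lit 9) t68)))))))))))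
noncomputable def l10816 : Lb := (@Lb.r r82 (@Lb.d (nat_lit 2) (nat_lit 0) (nat_lit 584) (@Lb.g g8 (@Lb.g g9 (@Lb.g g11 (@Lb.r r1625 (@Lb.r r98 (@Lb.d (nat_lit 609) (nat_lit 26) (nat_lit 665) (@Lb.t (@Lb.fm (nat_lit 9) t2610))))))))))
noncomputable def l10817 : Lb := (@Lb.r r82 (@Lb.r r275 (@Lb.d (nat_lit 32) (nat_lit 26) (nat_lit 0) (@Lb.g g8 (@Lb.g g9 (@Lb.r r427 (@Lb.r r582 (@Lb.r r388 (@Lb.d (nat_lit 610) (nat_lit 9) (nat_lit 33) (@Lb.fm (nat_lit 3) t819))))))))))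
noncomputable def l10818 : Lb := (@Lb.d (nat_lit 2) (nat_lit 344) (nat_lit 581) (@Lb.r r402 (@Lb.r r101 (@Lb.g g8 (@Lb.d (nat_lit 10) (nat_lit 0) (nat_lit 0) (@Lb.t (@Lb.fp (nat_lit 3) t2611)))))))
noncomputable def l10819 : Lb := (@Lb.d (nat_lit 160) (nat_lit 514) (nat_lit 130) (@Lb.g g9 (@Lb.g g10 (@Lb.g g11 (@Lb.r r72 (@Lb.r r166 (@Lb.r r665 (@Lb.r r2579 (@Lb.d (nat_lit 618) (nat_lit 66) (nat_lit 86) (@Lb.t (@Lb.fp (nat_lit 9) t2612)))))))))))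
noncomputable def l10820 : Lb := (@Lb.d (nat_lit 646) (nat_lit 402) (nat_lit 384) (@Lb.r r289 (@Lb.r r279 (@Lb.r r584 (@Lb.r r166 (@Lb.g g7 (@Lb.g g6 (@Lb.g g5 (@Lb.d (nat_lit 0) (nat_lit 5) (nat_lit 66) (@Lb.t (@Lb.fm (nat_lit 9) t1935)))))))))))
noncomputable def l10821 : Lb := (@Lb.d (nat_lit 130) (nat_lit 292) (nat_lit 0) (@Lb.g g8 (@Lb.g g9 (@Lb.g g10 (@Lb.r r1450 (@Lb.r r583 (@Lb.r r408 (@Lb.r r2085 (@Lb.d (nat_lit 70) (nat_lit 150) (nat_lit 666) (@Lb.t (@Lb.fm (nat_lit 9) t895)))))))))))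
noncomputable def l10822 : Lb := (@Lb.d (nat_lit 137) (nat_lit 258) (nat_lit 9) (@Lb.g g8 (@Lb.g g9 (@Lb.g g10 (@Lb.r r1571 (@Lb.r r1681 (@Lb.r r598 (@Lb.r r392 (@Lb.d (nat_lit 592) (nat_lit 2) (nat_lit 586) (@Lb.t (@Lb.fm (nat_lit 9) t284)))))))))))
noncomputable def l10823 : Lb := (@Lb.d (nat_lit 0) (nat_lit 34) (nat_lit 66) (@Lb.g g9 (@Lb.g g10 (@Lb.g g11 (@Lb.r r665 (@Lb.r r531 (@Lb.r r386 (@Lb.d (nat_lit 33) (nat_lit 34) (nat_lit 73) (@Lb.t (@Lb.fm (nat_lit 9) t892))))))))))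
noncomputable def l10824 : Lb := (@Lb.d (nat_lit 0) (nat_lit 554) (nat_lit 136) (@Lb.g g9 (@Lb.g g11 (@Lb.r r150 (@Lb.r r2409 (@Lb.r r2323 (@Lb.d (nat_lit 673) (nat_lit 146) (nat_lit 68) (@Lb.fm (nat_lit 3) t917))))))))
noncomputable def l10825 : Lb := (@Lb.d (nat_lit 9) (nat_lit 2) (nat_lit 10) (@Lb.g g8 (@Lb.g g9 (@Lb.g g10 (@Lb.r r1571 (@Lb.r r1065 (@Lb.r r360 (@Lb.r r582 (@Lb.d (nat_lit 2) (nat_lit 5) (nat_lit 404) (@Lb.t (@Lb.fp (nat_lit 9) t701)))))))))))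
noncomputable def l10826 : Lb := (@Lb.d (nat_lit 137) (nat_lit 2) (nat_lit 2) (@Lb.g g8 (@Lb.g g9 (@Lb.g g10 (@Lb.r r1571 (@Lb.r r1681 (@Lb.r r598 (@Lb.r r392 (@Lb.d (nat_lit 593) (nat_lit 2) (nat_lit 586) (@Lb.t (@Lb.fm (nat_lit 9) t284)))))))))))
noncomputable def l10827 : Lb := (@Lb.d (nat_lit 521) (nat_lit 664) (nat_lit 393) (@Lb.r r657 (@Lb.r r602 (@Lb.r r356 (@Lb.g g11 (@Lb.g g5 (@Lb.d (nat_lit 4) (nat_lit 0) (nat_lit 132) (@Lb.r r578 (@Lb.fp (nat_lit 3) t1936)))))))))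
noncomputable def l10828 : Lb := (@Lb.d (nat_lit 261) (nat_lit 385) (nat_lit 34) (@Lb.r r2661 (@Lb.r r1304 (@Lb.r r2659 (@Lb.g g7 (@Lb.g g10 (@Lb.g g5 (@Lb.d (nat_lit 32) (nat_lit 0) (nat_lit 65) (@Lb.t (@Lb.fp (nat_lit 9) t2613))))))))))
noncomputable def l10829 : Lb := (@Lb.r r21 (@Lb.d (nat_lit 130) (nat_lit 0) (nat_lit 4) (@Lb.g g8 (@Lb.g g10 (@Lb.g g11 (@Lb.r r651 (@Lb.r r357 (@Lb.r r154 (@Lb.r r132 (@Lb.d (nat_lit 89) (nat_lit 25) (nat_lit 134) (@Lb.t (@Lb.fp (nat_lit 9) t74))))))))))))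
noncomputable def l10830 : Lb := (@Lb.d (nat_lit 2) (nat_lit 514) (nat_lit 138) (@Lb.g g8 (@Lb.g g9 (@Lb.g g10 (@Lb.g g11 (@Lb.r r2723 (@Lb.r r657 (@Lb.r r612 (@Lb.r r666 (@Lb.r r132 (@Lb.d (nat_lit 73) (nat_lit 97) (nat_lit 586) (@Lb.fp (nat_lit 9) t178))))))))))))
noncomputable def l10831 : Lb := (@Lb.d (nat_lit 390) (nat_lit 150) (nat_lit 594) (@Lb.r r2325 (@Lb.r r2390 (@Lb.r r2731 (@Lb.g g7 (@Lb.g g6 (@Lb.g g5 (@Lb.g g4 (@Lb.d (nat_lit 1) (nat_lit 0) (nat_lit 1) (@Lb.fm (nat_lit 9) t2488))))))))))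
noncomputable def l10832 : Lb := (@Lb.r r82 (@Lb.d (nat_lit 132) (nat_lit 0) (nat_lit 128) (@Lb.g g8 (@Lb.g g9 (@Lb.g g11 (@Lb.r r2467 (@Lb.r r386 (@Lb.r r36 (@Lb.r r1125 (@Lb.d (nat_lit 69) (nat_lit 9) (nat_lit 530) (@Lb.t (@Lb.fm (nat_lit 9) t1774))))))))))))
noncomputable def l10833 : Lb := (@Lb.d (nat_lit 10) (nat_lit 288) (nat_lit 130) (@Lb.g g8 (@Lb.g g10 (@Lb.g g11 (@Lb.r r1618 (@Lb.r r149 (@Lb.r r2340 (@Lb.r r587 (@Lb.d (nat_lit 97) (nat_lit 90) (nat_lit 392) (@Lb.t (@Lb.fp (nat_lit 9) t100)))))))))))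
noncomputable def l10834 : Lb := (@Lb.d (nat_lit 9) (nat_lit 256) (nat_lit 66) (@Lb.g g8 (@Lb.g g10 (@Lb.g g7 (@Lb.r r597 (@Lb.r r98 (@Lb.r r2436 (@Lb.d (nat_lit 610) (nat_lit 21) (nat_lit 72) (@Lb.t (@Lb.fp (nat_lit 9) t311))))))))))
noncomputable def l10835 : Lb := (@Lb.d (nat_lit 345) (nat_lit 582) (nat_lit 354) (@Lb.r r2308 (@Lb.r r1366 (@Lb.r r2731 (@Lb.g g7 (@Lb.g g6 (@Lb.g g5 (@Lb.g g4 (@Lb.d (nat_lit 97) (nat_lit 129) (nat_lit 10) (@Lb.fm (nat_lit 9) t61))))))))))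
noncomputable def l10836 : Lb := (@Lb.d (nat_lit 1) (nat_lit 514) (nat_lit 130) (@Lb.g g8 (@Lb.g g9 (@Lb.g g10 (@Lb.g g11 (@Lb.r r427 (@Lb.r r386 (@Lb.r r97 (@Lb.r r24 (@Lb.d (nat_lit 610) (nat_lit 0) (nat_lit 84) (@Lb.fm (nat_lit 9) t61)))))))))))
noncomputable def l10837 : Lb := (@Lb.r r273 (@Lb.d (nat_lit 129) (nat_lit 272) (nat_lit 514) (@Lb.g g8 (@Lb.g g10 (@Lb.g g7 (@Lb.r r2401 (@Lb.r r1178 (@Lb.r r1176 (@Lb.d (nat_lit 22) (nat_lit 9) (nat_lit 98) (@Lb.t (@Lb.fm (nat_lit 9) t144)))))))))))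
noncomputable def l10838 : Lb := (@Lb.d (nat_lit 2) (nat_lit 514) (nat_lit 0) (@Lb.g g8 (@Lb.g g9 (@Lb.r r406 (@Lb.r r1643 (@Lb.r r97 (@Lb.r r24 (@Lb.d (nat_lit 266) (nat_lit 168) (nat_lit 614) (@Lb.fm (nat_lit 3) t2583)))))))))
noncomputable def l10839 : Lb := (@Lb.d (nat_lit 10) (nat_lit 520) (nat_lit 97) (@Lb.g g8 (@Lb.g g6 (@Lb.g g11 (@Lb.r r293 (@Lb.r r2587 (@Lb.r r2584 (@Lb.d (nat_lit 585) (nat_lit 2) (nat_lit 105) (@Lb.t (@Lb.fm (nat_lit 9) t1537))))))))))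
noncomputable def l10840 : Lb := (@Lb.d (nat_lit 321) (nat_lit 598) (nat_lit 649) (@Lb.r r353 (@Lb.r r407 (@Lb.r r584 (@Lb.r r1362 (@Lb.g g7 (@Lb.g g6 (@Lb.g g5 (@Lb.d (nat_lit 4) (nat_lit 1) (nat_lit 65) (@Lb.t (@Lb.fp (nat_lit 9) t217)))))))))))
noncomputable def l10841 : Lb := (@Lb.d (nat_lit 280) (nat_lit 341) (nat_lit 681) (@Lb.r r1380 (@Lb.r r2149 (@Lb.r r346 (@Lb.g g7 (@Lb.g g4 (@Lb.d (nat_lit 21) (nat_lit 32) (nat_lit 320) (@Lb.fp (nat_lit 3) t152))))))))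
noncomputable def l10842 : Lb := (@Lb.d (nat_lit 0) (nat_lit 258) (nat_lit 130) (@Lb.g g8 (@Lb.g g9 (@Lb.g g10 (@Lb.g g11 (@Lb.r r2459 (@Lb.r r1557 (@Lb.r r676 (@Lb.r r1094 (@Lb.r r2180 (@Lb.d (nat_lit 2) (nat_lit 26) (nat_lit 420) (@Lb.fp (nat_lit 9) t51))))))))))))
noncomputable def l10843 : Lb := (@Lb.r r82 (@Lb.d (nat_lit 4) (nat_lit 546) (nat_lit 64) (@Lb.g g8 (@Lb.g g9 (@Lb.g g11 (@Lb.r r1698 (@Lb.r r2601 (@Lb.r r1640 (@Lb.r r587 (@Lb.d (nat_lit 384) (nat_lit 162) (nat_lit 598) (@Lb.t (@Lb.fm (nat_lit 9) t2095))))))))))))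
noncomputable def l10844 : Lb := (@Lb.d (nat_lit 384) (nat_lit 512) (nat_lit 586) (@Lb.r r24 (@Lb.r r101 (@Lb.r r1362 (@Lb.r r2691 (@Lb.g g7 (@Lb.g g6 (@Lb.g g4 (@Lb.d (nat_lit 1) (nat_lit 0) (nat_lit 134) (@Lb.t (@Lb.fm (nat_lit 9) t150)))))))))))
noncomputable def l10845 : Lb := (@Lb.d (nat_lit 16) (nat_lit 521) (nat_lit 73) (@Lb.g g8 (@Lb.g g9 (@Lb.g g10 (@Lb.g g11 (@Lb.r r1667 (@Lb.r r1321 (@Lb.r r360 (@Lb.r r1606 (@Lb.r r132 (@Lb.d (nat_lit 384) (nat_lit 138) (nat_lit 601) (@Lb.fm (nat_lit 9) t1161))))))))))))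
noncomputable def l10846 : Lb := (@Lb.r r322 (@Lb.d (nat_lit 64) (nat_lit 545) (nat_lit 320) (@Lb.g g8 (@Lb.g g9 (@Lb.g g7 (@Lb.r r418 (@Lb.r r1321 (@Lb.r r1128 (@Lb.d (nat_lit 406) (nat_lit 138) (nat_lit 25) (@Lb.t (@Lb.fm (nat_lit 9) t1161)))))))))))
noncomputable def l10847 : Lb := (@Lb.d (nat_lit 16) (nat_lit 265) (nat_lit 73) (@Lb.g g8 (@Lb.g g9 (@Lb.g g10 (@Lb.g g11 (@Lb.r r1667 (@Lb.r r1321 (@Lb.r r360 (@Lb.r r1606 (@Lb.r r132 (@Lb.d (nat_lit 385) (nat_lit 138) (nat_lit 601) (@Lb.fm (nat_lit 9) t1161))))))))))))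
noncomputable def l10848 : Lb := (@Lb.d (nat_lit 293) (nat_lit 136) (nat_lit 17) (@Lb.r r597 (@Lb.r r279 (@Lb.r r584 (@Lb.r r326 (@Lb.g g7 (@Lb.g g6 (@Lb.g g5 (@Lb.d (nat_lit 0) (nat_lit 0) (nat_lit 65) (@Lb.t (@Lb.fm (nat_lit 9) t504)))))))))))
noncomputable def l10849 : Lb := (@Lb.r r82 (@Lb.d (nat_lit 8) (nat_lit 2) (nat_lit 128) (@Lb.g g9 (@Lb.g g11 (@Lb.r r291 (@Lb.r r602 (@Lb.r r600 (@Lb.r r293 (@Lb.d (nat_lit 676) (nat_lit 137) (nat_lit 665) (@Lb.fm (nat_lit 3) t1343))))))))))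
noncomputable def l10850 : Lb := (@Lb.d (nat_lit 2) (nat_lit 514) (nat_lit 130) (@Lb.g g8 (@Lb.g g9 (@Lb.g g10 (@Lb.g g11 (@Lb.r r427 (@Lb.r r145 (@Lb.r r356 (@Lb.r r154 (@Lb.r r132 (@Lb.d (nat_lit 2) (nat_lit 0) (nat_lit 137) (@Lb.fm (nat_lit 9) t61))))))))))))
noncomputable def l10851 : Lb := (@Lb.d (nat_lit 136) (nat_lit 514) (nat_lit 130) (@Lb.g g9 (@Lb.g g10 (@Lb.g g11 (@Lb.r r618 (@Lb.r r24 (@Lb.r r405 (@Lb.r r611 (@Lb.d (nat_lit 130) (nat_lit 16) (nat_lit 130) (@Lb.t (@Lb.fm (nat_lit 9) t298)))))))))))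
noncomputable def l10852 : Lb := (@Lb.d (nat_lit 0) (nat_lit 258) (nat_lit 9) (@Lb.g g9 (@Lb.g g10 (@Lb.g g7 (@Lb.r r386 (@Lb.r r97 (@Lb.d (nat_lit 5) (nat_lit 10) (nat_lit 137) (@Lb.t (@Lb.fp (nat_lit 9) t285)))))))))
noncomputable def l10853 : Lb := (@Lb.d (nat_lit 40) (nat_lit 2) (nat_lit 73) (@Lb.g g9 (@Lb.g g10 (@Lb.g g11 (@Lb.r r2695 (@Lb.r r1352 (@Lb.r r2390 (@Lb.r r1425 (@Lb.d (nat_lit 133) (nat_lit 66) (nat_lit 330) (@Lb.t (@Lb.fm (nat_lit 9) t1255)))))))))))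
noncomputable def l10854 : Lb := (@Lb.d (nat_lit 32) (nat_lit 2) (nat_lit 130) (@Lb.g g9 (@Lb.g g10 (@Lb.g g11 (@Lb.r r1447 (@Lb.r r293 (@Lb.r r72 (@Lb.r r150 (@Lb.d (nat_lit 533) (nat_lit 0) (nat_lit 290) (@Lb.t (@Lb.fp (nat_lit 9) t296)))))))))))
noncomputable def l10855 : Lb := (@Lb.r r323 (@Lb.d (nat_lit 130) (nat_lit 265) (nat_lit 1) (@Lb.g g8 (@Lb.g g9 (@Lb.g g10 (@Lb.r r1450 (@Lb.r r583 (@Lb.r r2201 (@Lb.r r408 (@Lb.d (nat_lit 346) (nat_lit 21) (nat_lit 329) (@Lb.t (@Lb.fp (nat_lit 9) t151))))))))))))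
noncomputable def l10856 : Lb := (@Lb.r r275 (@Lb.d (nat_lit 0) (nat_lit 256) (nat_lit 2) (@Lb.g g9 (@Lb.g g10 (@Lb.r r2666 (@Lb.r r2664 (@Lb.r r2585 (@Lb.r r2579 (@Lb.d (nat_lit 265) (nat_lit 66) (nat_lit 0) (@Lb.fm (nat_lit 3) t948))))))))))
noncomputable def l10857 : Lb := (@Lb.g g5 (@Lb.r r2707 (@Lb.r r134 (@Lb.r r2644 (@Lb.r r1321 (@Lb.d (nat_lit 578) (nat_lit 320) (nat_lit 581) (@Lb.t (@Lb.fp (nat_lit 3) t507))))))))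
noncomputable def l10858 : Lb := (@Lb.r r21 (@Lb.d (nat_lit 129) (nat_lit 0) (nat_lit 66) (@Lb.g g8 (@Lb.g g10 (@Lb.g g11 (@Lb.r r327 (@Lb.r r386 (@Lb.r r89 (@Lb.r r68 (@Lb.d (nat_lit 130) (nat_lit 0) (nat_lit 72) (@Lb.t (@Lb.fp (nat_lit 9) t68))))))))))))
noncomputable def l10859 : Lb := (@Lb.d (nat_lit 32) (nat_lit 514) (nat_lit 0) (@Lb.g g8 (@Lb.g g9 (@Lb.r r1387 (@Lb.r r361 (@Lb.r r150 (@Lb.r r1124 (@Lb.d (nat_lit 282) (nat_lit 73) (nat_lit 409) (@Lb.fm (nat_lit 3) t51)))))))))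
noncomputable def l10860 : Lb := (@Lb.r r323 (@Lb.d (nat_lit 0) (nat_lit 290) (nat_lit 2) (@Lb.g g8 (@Lb.g g9 (@Lb.g g10 (@Lb.r r599 (@Lb.r r74 (@Lb.r r296 (@Lb.r r409 (@Lb.d (nat_lit 149) (nat_lit 33) (nat_lit 134) (@Lb.t (@Lb.fm (nat_lit 9) t51))))))))))))
noncomputable def l10861 : Lb := (@Lb.r r2403 (@Lb.r r101 (@Lb.r r24 (@Lb.d (nat_lit 96) (nat_lit 512) (nat_lit 512) (@Lb.fp (nat_lit 1) t2614)))))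
noncomputable def l10862 : Lb := (@Lb.d (nat_lit 0) (nat_lit 520) (nat_lit 130) (@Lb.g g10 (@Lb.g g11 (@Lb.r r387 (@Lb.d (nat_lit 0) (nat_lit 2) (nat_lit 66) (@Lb.fm (nat_lit 3) t369))))))
noncomputable def l10863 : Lb := (@Lb.d (nat_lit 2) (nat_lit 38) (nat_lit 133) (@Lb.g g8 (@Lb.g g9 (@Lb.g g10 (@Lb.g g11 (@Lb.r r1706 (@Lb.r r676 (@Lb.r r551 (@Lb.r r1577 (@Lb.r r20 (@Lb.d (nat_lit 321) (nat_lit 33) (nat_lit 586) (@Lb.fm (nat_lit 9) t125))))))))))))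
noncomputable def l10864 : Lb := (@Lb.r r323 (@Lb.d (nat_lit 8) (nat_lit 520) (nat_lit 34) (@Lb.g g8 (@Lb.g g10 (@Lb.r r2577 (@Lb.r r2459 (@Lb.r r2436 (@Lb.d (nat_lit 336) (nat_lit 5) (nat_lit 546) (@Lb.fm (nat_lit 3) t221)))))))))
noncomputable def l10865 : Lb := (@Lb.d (nat_lit 2) (nat_lit 2) (nat_lit 64) (@Lb.g g8 (@Lb.g g9 (@Lb.g g10 (@Lb.g g11 (@Lb.r r618 (@Lb.r r2411 (@Lb.r r97 (@Lb.r r24 (@Lb.d (nat_lit 73) (nat_lit 9) (nat_lit 422) (@Lb.fp (nat_lit 9) t564)))))))))))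
noncomputable def l10866 : Lb := (@Lb.d (nat_lit 2) (nat_lit 34) (nat_lit 4) (@Lb.g g8 (@Lb.g g9 (@Lb.g g10 (@Lb.g g11 (@Lb.r r2731 (@Lb.r r618 (@Lb.r r537 (@Lb.d (nat_lit 73) (nat_lit 41) (nat_lit 657) (@Lb.fm (nat_lit 9) t218))))))))))
noncomputable def l10867 : Lb := (@Lb.d (nat_lit 2) (nat_lit 36) (nat_lit 128) (@Lb.g g8 (@Lb.g g9 (@Lb.g g10 (@Lb.g g11 (@Lb.r r2731 (@Lb.r r618 (@Lb.r r537 (@Lb.d (nat_lit 73) (nat_lit 41) (nat_lit 657) (@Lb.fm (nat_lit 9) t941))))))))))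
noncomputable def l10868 : Lb := (@Lb.d (nat_lit 388) (nat_lit 657) (nat_lit 389) (@Lb.r r1579 (@Lb.r r1704 (@Lb.r r1626 (@Lb.g g7 (@Lb.g g9 (@Lb.d (nat_lit 0) (nat_lit 2) (nat_lit 68) (@Lb.r r98 (@Lb.fp (nat_lit 3) t98)))))))))
noncomputable def l10869 : Lb := (@Lb.d (nat_lit 0) (nat_lit 513) (nat_lit 1) (@Lb.r r24 (@Lb.g g11 (@Lb.g g5 (@Lb.d (nat_lit 4) (nat_lit 6) (nat_lit 0) (@Lb.fm (nat_lit 3) t45))))))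
noncomputable def l10870 : Lb := (@Lb.d (nat_lit 386) (nat_lit 512) (nat_lit 294) (@Lb.r r24 (@Lb.r r101 (@Lb.r r386 (@Lb.g g11 (@Lb.g g6 (@Lb.d (nat_lit 0) (nat_lit 0) (nat_lit 1) (@Lb.fm (nat_lit 3) t2373))))))))
noncomputable def l10871 : Lb := (@Lb.d (nat_lit 290) (nat_lit 0) (nat_lit 288) (@Lb.r r24 (@Lb.r r101 (@Lb.r r402 (@Lb.g g11 (@Lb.g g6 (@Lb.fm (nat_lit 3) t2374)))))))
noncomputable def l10872 : Lb := (@Lb.d (nat_lit 0) (nat_lit 325) (nat_lit 2) (@Lb.r r24 (@Lb.r r2341 (@Lb.r r1371 (@Lb.g g7 (@Lb.g g6 (@Lb.g g5 (@Lb.d (nat_lit 16) (nat_lit 0) (nat_lit 97) (@Lb.t (@Lb.fp (nat_lit 9) t2615))))))))))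
noncomputable def l10873 : Lb := (@Lb.d (nat_lit 2) (nat_lit 258) (nat_lit 2) (@Lb.g g8 (@Lb.g g9 (@Lb.g g10 (@Lb.g g11 (@Lb.r r2666 (@Lb.r r612 (@Lb.r r615 (@Lb.r r533 (@Lb.r r2084 (@Lb.d (nat_lit 649) (nat_lit 2) (nat_lit 320) (@Lb.fm (nat_lit 9) t145))))))))))))
noncomputable def l10874 : Lb := (@Lb.r r82 (@Lb.d (nat_lit 128) (nat_lit 528) (nat_lit 0) (@Lb.g g8 (@Lb.g g9 (@Lb.g g11 (@Lb.r r1643 (@Lb.r r1625 (@Lb.r r98 (@Lb.r r1636 (@Lb.d (nat_lit 405) (nat_lit 88) (nat_lit 682) (@Lb.t (@Lb.fp (nat_lit 9) t1065))))))))))))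
noncomputable def l10875 : Lb := (@Lb.d (nat_lit 130) (nat_lit 256) (nat_lit 0) (@Lb.g g8 (@Lb.r r551 (@Lb.r r402 (@Lb.r r609 (@Lb.r r104 (@Lb.d (nat_lit 36) (nat_lit 1) (nat_lit 2) (@Lb.t (@Lb.fp (nat_lit 3) t44)))))))))
noncomputable def l10876 : Lb := (@Lb.d (nat_lit 2) (nat_lit 9) (nat_lit 136) (@Lb.g g8 (@Lb.g g9 (@Lb.g g10 (@Lb.g g11 (@Lb.r r2666 (@Lb.r r579 (@Lb.r r97 (@Lb.r r24 (@Lb.d (nat_lit 426) (nat_lit 4) (nat_lit 358) (@Lb.fm (nat_lit 9) t2616)))))))))))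
noncomputable def l10877 : Lb := (@Lb.r r260 (@Lb.r r523 (@Lb.r r357 (@Lb.r r666 (@Lb.r r516 (@Lb.d (nat_lit 32) (nat_lit 5) (nat_lit 69) (@Lb.fm (nat_lit 1) t39)))))))
noncomputable def l10878 : Lb := (@Lb.d (nat_lit 130) (nat_lit 512) (nat_lit 0) (@Lb.g g8 (@Lb.r r551 (@Lb.r r402 (@Lb.r r609 (@Lb.r r104 (@Lb.d (nat_lit 34) (nat_lit 0) (nat_lit 2) (@Lb.t (@Lb.fp (nat_lit 3) t44)))))))))
noncomputable def l10879 : Lb := (@Lb.d (nat_lit 0) (nat_lit 546) (nat_lit 130) (@Lb.g g4 (@Lb.g g9 (@Lb.g g10 (@Lb.g g11 (@Lb.r r387 (@Lb.r r145 (@Lb.r r1426 (@Lb.d (nat_lit 0) (nat_lit 149) (nat_lit 665) (@Lb.fp (nat_lit 9) t2341))))))))))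
noncomputable def l10880 : Lb := (@Lb.d (nat_lit 521) (nat_lit 128) (nat_lit 256) (@Lb.r r24 (@Lb.r r101 (@Lb.r r402 (@Lb.g g11 (@Lb.t (@Lb.fm (nat_lit 3) t150)))))))
noncomputable def l10881 : Lb := (@Lb.d (nat_lit 642) (nat_lit 514) (nat_lit 130) (@Lb.g g8 (@Lb.g g9 (@Lb.g g10 (@Lb.g g11 (@Lb.r r419 (@Lb.r r106 (@Lb.r r25 (@Lb.d (nat_lit 354) (nat_lit 10) (nat_lit 137) (@Lb.fp (nat_lit 9) t394))))))))))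
noncomputable def l10882 : Lb := (@Lb.r r21 (@Lb.d (nat_lit 646) (nat_lit 256) (nat_lit 0) (@Lb.g g8 (@Lb.r r25 (@Lb.d (nat_lit 330) (nat_lit 0) (nat_lit 0) (@Lb.t (@Lb.fp (nat_lit 3) t1135)))))))
noncomputable def l10883 : Lb := (@Lb.r r323 (@Lb.d (nat_lit 4) (nat_lit 10) (nat_lit 1) (@Lb.g g8 (@Lb.g g9 (@Lb.g g10 (@Lb.r r2715 (@Lb.r r1194 (@Lb.r r1553 (@Lb.r r1416 (@Lb.d (nat_lit 21) (nat_lit 32) (nat_lit 640) (@Lb.t (@Lb.fp (nat_lit 9) t718))))))))))))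
noncomputable def l10884 : Lb := (@Lb.d (nat_lit 128) (nat_lit 545) (nat_lit 66) (@Lb.g g9 (@Lb.g g10 (@Lb.g g11 (@Lb.r r2709 (@Lb.r r662 (@Lb.r r328 (@Lb.r r647 (@Lb.d (nat_lit 408) (nat_lit 130) (nat_lit 8) (@Lb.t (@Lb.fp (nat_lit 9) t1791)))))))))))
noncomputable def l10885 : Lb := (@Lb.r r323 (@Lb.d (nat_lit 130) (nat_lit 258) (nat_lit 0) (@Lb.g g8 (@Lb.g g9 (@Lb.g g10 (@Lb.r r2474 (@Lb.r r583 (@Lb.r r296 (@Lb.r r25 (@Lb.d (nat_lit 6) (nat_lit 128) (nat_lit 656) (@Lb.t (@Lb.fp (nat_lit 9) t2617))))))))))))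
noncomputable def l10886 : Lb := (@Lb.r r21 (@Lb.d (nat_lit 644) (nat_lit 256) (nat_lit 130) (@Lb.g g4 (@Lb.g g10 (@Lb.g g11 (@Lb.r r677 (@Lb.r r1443 (@Lb.r r98 (@Lb.d (nat_lit 6) (nat_lit 72) (nat_lit 105) (@Lb.t (@Lb.fm (nat_lit 9) t2618)))))))))))
noncomputable def l10887 : Lb := (@Lb.d (nat_lit 2) (nat_lit 289) (nat_lit 130) (@Lb.g g8 (@Lb.g g9 (@Lb.g g10 (@Lb.g g11 (@Lb.r r2666 (@Lb.r r2664 (@Lb.r r587 (@Lb.r r2449 (@Lb.d (nat_lit 102) (nat_lit 38) (nat_lit 356) (@Lb.fp (nat_lit 9) t2619)))))))))))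
noncomputable def l10888 : Lb := (@Lb.d (nat_lit 2) (nat_lit 258) (nat_lit 2) (@Lb.g g8 (@Lb.g g9 (@Lb.g g10 (@Lb.r r427 (@Lb.r r386 (@Lb.r r97 (@Lb.r r24 (@Lb.d (nat_lit 266) (nat_lit 2) (nat_lit 650) (@Lb.t (@Lb.fp (nat_lit 9) t221)))))))))))
noncomputable def l10889 : Lb := (@Lb.d (nat_lit 2) (nat_lit 10) (nat_lit 0) (@Lb.g g8 (@Lb.g g9 (@Lb.r r1162 (@Lb.r r1188 (@Lb.r r405 (@Lb.r r1635 (@Lb.d (nat_lit 2) (nat_lit 0) (nat_lit 533) (@Lb.fm (nat_lit 3) t642)))))))))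
noncomputable def l10890 : Lb := (@Lb.r r81 (@Lb.r r323 (@Lb.d (nat_lit 2) (nat_lit 264) (nat_lit 32) (@Lb.g g8 (@Lb.g g10 (@Lb.r r1381 (@Lb.r r2587 (@Lb.r r2584 (@Lb.d (nat_lit 138) (nat_lit 162) (nat_lit 2) (@Lb.fp (nat_lit 3) t2620))))))))))
noncomputable def l10891 : Lb := (@Lb.d (nat_lit 2) (nat_lit 266) (nat_lit 0) (@Lb.g g8 (@Lb.g g9 (@Lb.g g11 (@Lb.r r1162 (@Lb.r r1188 (@Lb.r r405 (@Lb.r r1635 (@Lb.d (nat_lit 2) (nat_lit 0) (nat_lit 533) (@Lb.t (@Lb.fm (nat_lit 9) t642)))))))))))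
noncomputable def l10892 : Lb := (@Lb.d (nat_lit 32) (nat_lit 258) (nat_lit 0) (@Lb.g g9 (@Lb.g g10 (@Lb.r r515 (@Lb.r r661 (@Lb.r r356 (@Lb.r r346 (@Lb.d (nat_lit 169) (nat_lit 38) (nat_lit 72) (@Lb.fp (nat_lit 3) t521)))))))))
noncomputable def l10893 : Lb := (@Lb.d (nat_lit 2) (nat_lit 522) (nat_lit 0) (@Lb.g g8 (@Lb.g g9 (@Lb.r r1162 (@Lb.r r1188 (@Lb.r r405 (@Lb.r r1635 (@Lb.d (nat_lit 4) (nat_lit 1) (nat_lit 533) (@Lb.fm (nat_lit 3) t2621)))))))))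
noncomputable def l10894 : Lb := (@Lb.d (nat_lit 346) (nat_lit 340) (nat_lit 618) (@Lb.r r1380 (@Lb.r r2331 (@Lb.g g6 (@Lb.g g9 (@Lb.g g4 (@Lb.d (nat_lit 65) (nat_lit 9) (nat_lit 32) (@Lb.r r411 (@Lb.t (@Lb.fm (nat_lit 9) t768))))))))))
noncomputable def l10895 : Lb := (@Lb.d (nat_lit 2) (nat_lit 2) (nat_lit 130) (@Lb.g g8 (@Lb.g g9 (@Lb.g g10 (@Lb.g g11 (@Lb.r r427 (@Lb.r r420 (@Lb.r r102 (@Lb.r r97 (@Lb.r r36 (@Lb.d (nat_lit 9) (nat_lit 90) (nat_lit 324) (@Lb.fm (nat_lit 9) t119))))))))))))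
noncomputable def l10896 : Lb := (@Lb.d (nat_lit 66) (nat_lit 289) (nat_lit 66) (@Lb.r r276 (@Lb.r r277 (@Lb.r r427 (@Lb.g g10 (@Lb.g g5 (@Lb.g g4 (@Lb.d (nat_lit 41) (nat_lit 6) (nat_lit 8) (@Lb.r r343 (@Lb.t (@Lb.fm (nat_lit 9) t1120)))))))))))
noncomputable def l10897 : Lb := (@Lb.d (nat_lit 133) (nat_lit 546) (nat_lit 66) (@Lb.g g8 (@Lb.g g9 (@Lb.g g10 (@Lb.g g11 (@Lb.r r683 (@Lb.r r610 (@Lb.r r529 (@Lb.r r536 (@Lb.d (nat_lit 38) (nat_lit 33) (nat_lit 137) (@Lb.fp (nat_lit 9) t175)))))))))))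
noncomputable def l10898 : Lb := (@Lb.d (nat_lit 8) (nat_lit 34) (nat_lit 0) (@Lb.g g5 (@Lb.r r680 (@Lb.r r427 (@Lb.r r2178 (@Lb.r r2393 (@Lb.d (nat_lit 104) (nat_lit 106) (nat_lit 416) (@Lb.t (@Lb.fm (nat_lit 3) t2622)))))))))
noncomputable def l10899 : Lb := (@Lb.d (nat_lit 2) (nat_lit 2) (nat_lit 130) (@Lb.g g8 (@Lb.g g9 (@Lb.g g10 (@Lb.g g11 (@Lb.r r586 (@Lb.r r1619 (@Lb.r r292 (@Lb.r r405 (@Lb.r r2084 (@Lb.d (nat_lit 665) (nat_lit 153) (nat_lit 420) (@Lb.fm (nat_lit 9) t1954))))))))))))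
noncomputable def l10900 : Lb := (@Lb.r r323 (@Lb.d (nat_lit 1) (nat_lit 546) (nat_lit 2) (@Lb.g g8 (@Lb.g g9 (@Lb.g g10 (@Lb.r r599 (@Lb.r r74 (@Lb.r r296 (@Lb.r r409 (@Lb.d (nat_lit 152) (nat_lit 34) (nat_lit 70) (@Lb.t (@Lb.fm (nat_lit 9) t119))))))))))))
noncomputable def l10901 : Lb := (@Lb.d (nat_lit 281) (nat_lit 6) (nat_lit 72) (@Lb.g g4 (@Lb.g g9 (@Lb.g g10 (@Lb.g g11 (@Lb.r r1667 (@Lb.r r145 (@Lb.r r1626 (@Lb.r r145 (@Lb.d (nat_lit 33) (nat_lit 96) (nat_lit 106) (@Lb.fp (nat_lit 9) t830)))))))))))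
noncomputable def l10902 : Lb := (@Lb.d (nat_lit 9) (nat_lit 8) (nat_lit 130) (@Lb.g g8 (@Lb.g g9 (@Lb.g g10 (@Lb.g g11 (@Lb.r r2731 (@Lb.r r680 (@Lb.r r2186 (@Lb.r r97 (@Lb.r r1060 (@Lb.d (nat_lit 534) (nat_lit 165) (nat_lit 673) (@Lb.fp (nat_lit 9) t2623))))))))))))
noncomputable def l10903 : Lb := (@Lb.d (nat_lit 5) (nat_lit 65) (nat_lit 0) (@Lb.r r101 (@Lb.r r402 (@Lb.r r323 (@Lb.g g7 (@Lb.g g6 (@Lb.d (nat_lit 0) (nat_lit 0) (nat_lit 64) (@Lb.fm (nat_lit 3) t50))))))))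
noncomputable def l10904 : Lb := (@Lb.d (nat_lit 0) (nat_lit 4) (nat_lit 72) (@Lb.g g9 (@Lb.g g10 (@Lb.g g11 (@Lb.r r1671 (@Lb.r r297 (@Lb.r r2376 (@Lb.r r1638 (@Lb.d (nat_lit 408) (nat_lit 90) (nat_lit 613) (@Lb.t (@Lb.fp (nat_lit 9) t1170)))))))))))
noncomputable def l10905 : Lb := (@Lb.d (nat_lit 2) (nat_lit 9) (nat_lit 130) (@Lb.g g8 (@Lb.g g9 (@Lb.g g10 (@Lb.g g11 (@Lb.r r1287 (@Lb.r r405 (@Lb.r r2714 (@Lb.r r2564 (@Lb.d (nat_lit 385) (nat_lit 10) (nat_lit 417) (@Lb.fm (nat_lit 9) t1171)))))))))))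
noncomputable def l10906 : Lb := (@Lb.d (nat_lit 8) (nat_lit 290) (nat_lit 66) (@Lb.g g9 (@Lb.g g10 (@Lb.g g11 (@Lb.r r346 (@Lb.r r340 (@Lb.r r363 (@Lb.r r1365 (@Lb.d (nat_lit 616) (nat_lit 20) (nat_lit 390) (@Lb.t (@Lb.fm (nat_lit 9) t570)))))))))))
noncomputable def l10907 : Lb := (@Lb.r r323 (@Lb.d (nat_lit 0) (nat_lit 512) (nat_lit 2) (@Lb.g g9 (@Lb.g g10 (@Lb.r r2706 (@Lb.r r387 (@Lb.r r1569 (@Lb.d (nat_lit 0) (nat_lit 80) (nat_lit 522) (@Lb.fm (nat_lit 3) t2624)))))))))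
noncomputable def l10908 : Lb := (@Lb.r r323 (@Lb.d (nat_lit 2) (nat_lit 521) (nat_lit 1) (@Lb.g g8 (@Lb.g g9 (@Lb.g g10 (@Lb.r r1194 (@Lb.r r2713 (@Lb.r r2712 (@Lb.r r2587 (@Lb.d (nat_lit 385) (nat_lit 0) (nat_lit 10) (@Lb.t (@Lb.fp (nat_lit 9) t270))))))))))))
noncomputable def l10909 : Lb := (@Lb.d (nat_lit 2) (nat_lit 0) (nat_lit 0) (@Lb.g g8 (@Lb.r r1098 (@Lb.r r1049 (@Lb.d (nat_lit 257) (nat_lit 0) (nat_lit 0) (@Lb.t (@Lb.fp (nat_lit 3) t994)))))))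
noncomputable def l10910 : Lb := (@Lb.r r275 (@Lb.d (nat_lit 2) (nat_lit 2) (nat_lit 2) (@Lb.g g8 (@Lb.g g9 (@Lb.g g10 (@Lb.r r675 (@Lb.r r168 (@Lb.r r618 (@Lb.r r537 (@Lb.d (nat_lit 586) (nat_lit 41) (nat_lit 88) (@Lb.t (@Lb.fm (nat_lit 9) t347))))))))))))
noncomputable def l10911 : Lb := (@Lb.d (nat_lit 2) (nat_lit 512) (nat_lit 0) (@Lb.g g8 (@Lb.r r1291 (@Lb.r r1098 (@Lb.r r1049 (@Lb.d (nat_lit 8) (nat_lit 2) (nat_lit 0) (@Lb.t (@Lb.fp (nat_lit 3) t284))))))))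
noncomputable def l10912 : Lb := (@Lb.d (nat_lit 2) (nat_lit 16) (nat_lit 2) (@Lb.g g8 (@Lb.g g9 (@Lb.g g10 (@Lb.g g11 (@Lb.r r1543 (@Lb.r r1620 (@Lb.r r2730 (@Lb.r r2649 (@Lb.d (nat_lit 618) (nat_lit 161) (nat_lit 326) (@Lb.fp (nat_lit 9) t1419)))))))))))
noncomputable def l10913 : Lb := (@Lb.r r21 (@Lb.d (nat_lit 10) (nat_lit 264) (nat_lit 130) (@Lb.g g8 (@Lb.g g10 (@Lb.g g11 (@Lb.r r353 (@Lb.r r1363 (@Lb.r r1418 (@Lb.r r2692 (@Lb.d (nat_lit 536) (nat_lit 2) (nat_lit 586) (@Lb.t (@Lb.fm (nat_lit 9) t441))))))))))))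
noncomputable def l10914 : Lb := (@Lb.r r82 (@Lb.d (nat_lit 42) (nat_lit 513) (nat_lit 0) (@Lb.g g8 (@Lb.g g9 (@Lb.r r582 (@Lb.r r579 (@Lb.r r516 (@Lb.d (nat_lit 130) (nat_lit 18) (nat_lit 0) (@Lb.fp (nat_lit 3) t1185)))))))))
noncomputable def l10915 : Lb := (@Lb.d (nat_lit 2) (nat_lit 0) (nat_lit 73) (@Lb.g g8 (@Lb.g g10 (@Lb.g g11 (@Lb.r r659 (@Lb.r r578 (@Lb.r r1049 (@Lb.r r24 (@Lb.d (nat_lit 340) (nat_lit 130) (nat_lit 408) (@Lb.t (@Lb.fm (nat_lit 9) t1025)))))))))))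
noncomputable def l10916 : Lb := (@Lb.r r1287 (@Lb.r r1094 (@Lb.r r1045 (@Lb.r r8 (@Lb.fm (nat_lit 1) t284)))))
noncomputable def l10917 : Lb := (@Lb.d (nat_lit 2) (nat_lit 256) (nat_lit 0) (@Lb.g g8 (@Lb.r r1291 (@Lb.r r1098 (@Lb.r r1049 (@Lb.d (nat_lit 1) (nat_lit 0) (nat_lit 0) (@Lb.t (@Lb.fp (nat_lit 3) t284))))))))
noncomputable def l10918 : Lb := (@Lb.d (nat_lit 2) (nat_lit 258) (nat_lit 66) (@Lb.g g8 (@Lb.g g9 (@Lb.g g10 (@Lb.g g7 (@Lb.r r386 (@Lb.r r97 (@Lb.d (nat_lit 322) (nat_lit 74) (nat_lit 521) (@Lb.fm (nat_lit 9) t1641)))))))))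
noncomputable def l10919 : Lb := (@Lb.d (nat_lit 2) (nat_lit 522) (nat_lit 0) (@Lb.g g8 (@Lb.g g9 (@Lb.r r1162 (@Lb.r r1188 (@Lb.r r405 (@Lb.r r1635 (@Lb.d (nat_lit 2) (nat_lit 0) (nat_lit 602) (@Lb.fm (nat_lit 3) t642)))))))))
noncomputable def l10920 : Lb := (@Lb.r r24 (@Lb.r r101 (@Lb.r r402 (@Lb.d (nat_lit 0) (nat_lit 261) (nat_lit 64) (@Lb.fm (nat_lit 1) t311)))))
noncomputable def l10921 : Lb := (@Lb.d (nat_lit 38) (nat_lit 256) (nat_lit 129) (@Lb.g g8 (@Lb.g g9 (@Lb.g g6 (@Lb.g g11 (@Lb.r r529 (@Lb.r r407 (@Lb.r r612 (@Lb.d (nat_lit 408) (nat_lit 26) (nat_lit 168) (@Lb.fm (nat_lit 9) t1237))))))))))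
noncomputable def l10922 : Lb := (@Lb.d (nat_lit 645) (nat_lit 136) (nat_lit 290) (@Lb.r r1109 (@Lb.r r2198 (@Lb.r r1384 (@Lb.r r1543 (@Lb.g g10 (@Lb.g g5 (@Lb.fm (nat_lit 3) t2625))))))))
noncomputable def l10923 : Lb := (@Lb.d (nat_lit 33) (nat_lit 2) (nat_lit 129) (@Lb.g g8 (@Lb.g g9 (@Lb.g g6 (@Lb.g g11 (@Lb.r r529 (@Lb.r r407 (@Lb.r r612 (@Lb.d (nat_lit 404) (nat_lit 20) (nat_lit 170) (@Lb.fm (nat_lit 9) t768))))))))))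
noncomputable def l10924 : Lb := (@Lb.d (nat_lit 2) (nat_lit 578) (nat_lit 298) (@Lb.r r359 (@Lb.r r676 (@Lb.r r150 (@Lb.g g5 (@Lb.g g4 (@Lb.d (nat_lit 17) (nat_lit 65) (nat_lit 0) (@Lb.r r291 (@Lb.r r98 (@Lb.fp (nat_lit 3) t525))))))))))
noncomputable def l10925 : Lb := (@Lb.r r68 (@Lb.r r323 (@Lb.d (nat_lit 0) (nat_lit 2) (nat_lit 2) (@Lb.g g9 (@Lb.g g10 (@Lb.r r1685 (@Lb.r r1559 (@Lb.r r2312 (@Lb.d (nat_lit 34) (nat_lit 0) (nat_lit 161) (@Lb.fm (nat_lit 3) t123))))))))))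
noncomputable def l10926 : Lb := (@Lb.d (nat_lit 4) (nat_lit 1) (nat_lit 1) (@Lb.r r609 (@Lb.r r619 (@Lb.r r584 (@Lb.r r134 (@Lb.g g7 (@Lb.g g4 (@Lb.d (nat_lit 1) (nat_lit 0) (nat_lit 64) (@Lb.fm (nat_lit 3) t167)))))))))
noncomputable def l10927 : Lb := (@Lb.d (nat_lit 9) (nat_lit 0) (nat_lit 0) (@Lb.g g8 (@Lb.r r609 (@Lb.r r363 (@Lb.r r356 (@Lb.r r154 (@Lb.d (nat_lit 34) (nat_lit 5) (nat_lit 128) (@Lb.t (@Lb.fp (nat_lit 3) t39)))))))))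
noncomputable def l10928 : Lb := (@Lb.d (nat_lit 9) (nat_lit 289) (nat_lit 0) (@Lb.g g8 (@Lb.g g9 (@Lb.r r2340 (@Lb.r r2395 (@Lb.r r2178 (@Lb.r r1637 (@Lb.d (nat_lit 682) (nat_lit 149) (nat_lit 612) (@Lb.fm (nat_lit 3) t64)))))))))
noncomputable def l10929 : Lb := (@Lb.d (nat_lit 2) (nat_lit 290) (nat_lit 66) (@Lb.g g8 (@Lb.g g9 (@Lb.g g10 (@Lb.g g11 (@Lb.r r2714 (@Lb.r r2467 (@Lb.r r2212 (@Lb.r r2085 (@Lb.d (nat_lit 2) (nat_lit 150) (nat_lit 612) (@Lb.fp (nat_lit 9) t2306)))))))))))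
noncomputable def l10930 : Lb := (@Lb.d (nat_lit 2) (nat_lit 2) (nat_lit 2) (@Lb.g g8 (@Lb.g g9 (@Lb.g g10 (@Lb.g g11 (@Lb.r r2122 (@Lb.r r1368 (@Lb.r r2597 (@Lb.r r2663 (@Lb.d (nat_lit 10) (nat_lit 89) (nat_lit 596) (@Lb.fm (nat_lit 9) t2626)))))))))))
noncomputable def l10931 : Lb := (@Lb.r r70 (@Lb.d (nat_lit 34) (nat_lit 258) (nat_lit 0) (@Lb.g g8 (@Lb.g g9 (@Lb.r r2390 (@Lb.r r2705 (@Lb.r r2455 (@Lb.r r548 (@Lb.d (nat_lit 129) (nat_lit 161) (nat_lit 384) (@Lb.fm (nat_lit 3) t2627))))))))))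
noncomputable def l10932 : Lb := (@Lb.d (nat_lit 646) (nat_lit 518) (nat_lit 82) (@Lb.r r1301 (@Lb.r r1366 (@Lb.r r683 (@Lb.g g7 (@Lb.g g6 (@Lb.g g5 (@Lb.g g4 (@Lb.d (nat_lit 1) (nat_lit 8) (nat_lit 128) (@Lb.fm (nat_lit 9) t1801))))))))))
noncomputable def l10933 : Lb := (@Lb.d (nat_lit 8) (nat_lit 514) (nat_lit 0) (@Lb.g g9 (@Lb.r r2394 (@Lb.r r2471 (@Lb.r r2136 (@Lb.r r2197 (@Lb.d (nat_lit 277) (nat_lit 138) (nat_lit 597) (@Lb.t (@Lb.fm (nat_lit 3) t2628)))))))))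
noncomputable def l10934 : Lb := (@Lb.d (nat_lit 8) (nat_lit 2) (nat_lit 0) (@Lb.g g9 (@Lb.r r2394 (@Lb.r r2471 (@Lb.r r2136 (@Lb.r r2197 (@Lb.d (nat_lit 277) (nat_lit 138) (nat_lit 528) (@Lb.t (@Lb.fm (nat_lit 3) t1813)))))))))
noncomputable def l10935 : Lb := (@Lb.r r70 (@Lb.d (nat_lit 34) (nat_lit 514) (nat_lit 0) (@Lb.g g8 (@Lb.g g9 (@Lb.r r2390 (@Lb.r r2705 (@Lb.r r2455 (@Lb.r r520 (@Lb.d (nat_lit 64) (nat_lit 81) (nat_lit 384) (@Lb.fp (nat_lit 3) t11))))))))))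
noncomputable def l10936 : Lb := (@Lb.d (nat_lit 20) (nat_lit 266) (nat_lit 100) (@Lb.r r2709 (@Lb.r r2451 (@Lb.r r346 (@Lb.r r2664 (@Lb.g g5 (@Lb.g g4 (@Lb.d (nat_lit 6) (nat_lit 0) (nat_lit 0) (@Lb.r r98 (@Lb.fp (nat_lit 3) t329))))))))))
noncomputable def l10937 : Lb := (@Lb.d (nat_lit 8) (nat_lit 258) (nat_lit 68) (@Lb.g g9 (@Lb.g g10 (@Lb.g g11 (@Lb.r r419 (@Lb.r r578 (@Lb.d (nat_lit 2) (nat_lit 33) (nat_lit 5) (@Lb.t (@Lb.fm (nat_lit 9) t51)))))))))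
noncomputable def l10938 : Lb := (@Lb.d (nat_lit 10) (nat_lit 514) (nat_lit 0) (@Lb.g g10 (@Lb.g g9 (@Lb.fm (nat_lit 3) t2))))
noncomputable def l10939 : Lb := (@Lb.r r82 (@Lb.d (nat_lit 2) (nat_lit 513) (nat_lit 128) (@Lb.g g8 (@Lb.g g9 (@Lb.g g11 (@Lb.r r1443 (@Lb.r r2710 (@Lb.r r1365 (@Lb.d (nat_lit 2) (nat_lit 37) (nat_lit 21) (@Lb.t (@Lb.fp (nat_lit 9) t1795)))))))))))
noncomputable def l10940 : Lb := (@Lb.d (nat_lit 0) (nat_lit 512) (nat_lit 130) (@Lb.g g9 (@Lb.g g10 (@Lb.g g11 (@Lb.r r2691 (@Lb.r r2657 (@Lb.r r1686 (@Lb.r r1124 (@Lb.d (nat_lit 512) (nat_lit 34) (nat_lit 576) (@Lb.t (@Lb.fp (nat_lit 9) t833)))))))))))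
noncomputable def l10941 : Lb := (@Lb.d (nat_lit 645) (nat_lit 256) (nat_lit 130) (@Lb.g g4 (@Lb.g g9 (@Lb.g g10 (@Lb.g g11 (@Lb.r r2214 (@Lb.r r545 (@Lb.r r611 (@Lb.r r2577 (@Lb.d (nat_lit 154) (nat_lit 74) (nat_lit 361) (@Lb.fp (nat_lit 9) t1913)))))))))))
noncomputable def l10942 : Lb := (@Lb.d (nat_lit 0) (nat_lit 0) (nat_lit 130) (@Lb.g g9 (@Lb.g g10 (@Lb.g g11 (@Lb.r r2691 (@Lb.r r2657 (@Lb.r r1686 (@Lb.r r1124 (@Lb.d (nat_lit 514) (nat_lit 34) (nat_lit 576) (@Lb.t (@Lb.fp (nat_lit 9) t833)))))))))))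
noncomputable def l10943 : Lb := (@Lb.r r82 (@Lb.d (nat_lit 405) (nat_lit 0) (nat_lit 128) (@Lb.g g4 (@Lb.g g9 (@Lb.g g11 (@Lb.r r678 (@Lb.r r1411 (@Lb.r r2661 (@Lb.d (nat_lit 257) (nat_lit 5) (nat_lit 344) (@Lb.t (@Lb.fp (nat_lit 9) t2629)))))))))))
noncomputable def l10944 : Lb := (@Lb.d (nat_lit 405) (nat_lit 409) (nat_lit 325) (@Lb.r r1620 (@Lb.r r2583 (@Lb.r r1385 (@Lb.g g10 (@Lb.g g5 (@Lb.g g4 (@Lb.d (nat_lit 65) (nat_lit 1) (nat_lit 34) (@Lb.r r387 (@Lb.t (@Lb.fm (nat_lit 9) t1444)))))))))))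
noncomputable def l10945 : Lb := (@Lb.d (nat_lit 2) (nat_lit 514) (nat_lit 138) (@Lb.g g8 (@Lb.g g9 (@Lb.g g10 (@Lb.g g11 (@Lb.r r1177 (@Lb.r r1176 (@Lb.r r1098 (@Lb.d (nat_lit 550) (nat_lit 8) (nat_lit 1) (@Lb.fm (nat_lit 9) t2630))))))))))
noncomputable def l10946 : Lb := (@Lb.r r273 (@Lb.r r2595 (@Lb.r r2178 (@Lb.r r529 (@Lb.r r8 (@Lb.d (nat_lit 1) (nat_lit 522) (nat_lit 68) (@Lb.fm (nat_lit 1) t271)))))))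
noncomputable def l10947 : Lb := (@Lb.d (nat_lit 1) (nat_lit 0) (nat_lit 0) (@Lb.g g4 (@Lb.g g7 (@Lb.r r402 (@Lb.r r101 (@Lb.d (nat_lit 66) (nat_lit 128) (nat_lit 320) (@Lb.fm (nat_lit 3) t1628)))))))
noncomputable def l10948 : Lb := (@Lb.d (nat_lit 10) (nat_lit 256) (nat_lit 0) (@Lb.g g8 (@Lb.g g7 (@Lb.r r402 (@Lb.d (nat_lit 0) (nat_lit 16) (nat_lit 64) (@Lb.fm (nat_lit 3) t71))))))
noncomputable def l10949 : Lb := (@Lb.r r273 (@Lb.r r2595 (@Lb.r r2178 (@Lb.r r529 (@Lb.r r8 (@Lb.d (nat_lit 0) (nat_lit 266) (nat_lit 2) (@Lb.fm (nat_lit 1) t322)))))))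
noncomputable def l10950 : Lb := (@Lb.d (nat_lit 2) (nat_lit 2) (nat_lit 138) (@Lb.g g8 (@Lb.g g9 (@Lb.g g10 (@Lb.g g11 (@Lb.r r1177 (@Lb.r r1176 (@Lb.r r1098 (@Lb.d (nat_lit 545) (nat_lit 10) (nat_lit 1) (@Lb.fm (nat_lit 9) t2058))))))))))
noncomputable def l10951 : Lb := (@Lb.d (nat_lit 405) (nat_lit 665) (nat_lit 325) (@Lb.r r1620 (@Lb.r r2583 (@Lb.r r1385 (@Lb.g g10 (@Lb.g g5 (@Lb.g g4 (@Lb.d (nat_lit 72) (nat_lit 0) (nat_lit 34) (@Lb.r r387 (@Lb.t (@Lb.fm (nat_lit 9) t1444)))))))))))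
noncomputable def l10952 : Lb := (@Lb.r r323 (@Lb.d (nat_lit 0) (nat_lit 2) (nat_lit 2) (@Lb.g g9 (@Lb.g g10 (@Lb.r r401 (@Lb.r r299 (@Lb.r r392 (@Lb.r r74 (@Lb.d (nat_lit 33) (nat_lit 10) (nat_lit 17) (@Lb.fp (nat_lit 3) t221))))))))))
noncomputable def l10953 : Lb := (@Lb.r r20 (@Lb.d (nat_lit 0) (nat_lit 2) (nat_lit 0) (@Lb.g g9 (@Lb.g g10 (@Lb.r r1699 (@Lb.r r610 (@Lb.d (nat_lit 2) (nat_lit 25) (nat_lit 297) (@Lb.fp (nat_lit 3) t591))))))))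
noncomputable def l10954 : Lb := (@Lb.d (nat_lit 137) (nat_lit 257) (nat_lit 0) (@Lb.g g8 (@Lb.g g9 (@Lb.r r1686 (@Lb.r r2409 (@Lb.r r1559 (@Lb.r r2344 (@Lb.d (nat_lit 390) (nat_lit 37) (nat_lit 586) (@Lb.fm (nat_lit 3) t295)))))))))
noncomputable def l10955 : Lb := (@Lb.d (nat_lit 410) (nat_lit 682) (nat_lit 649) (@Lb.r r24 (@Lb.r r146 (@Lb.r r353 (@Lb.r r2691 (@Lb.g g7 (@Lb.g g6 (@Lb.g g5 (@Lb.d (nat_lit 0) (nat_lit 1) (nat_lit 65) (@Lb.t (@Lb.fp (nat_lit 9) t2631)))))))))))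
noncomputable def l10956 : Lb := (@Lb.r r21 (@Lb.r r323 (@Lb.d (nat_lit 2) (nat_lit 256) (nat_lit 2) (@Lb.g g8 (@Lb.g g10 (@Lb.r r2375 (@Lb.r r1162 (@Lb.r r1561 (@Lb.r r1540 (@Lb.d (nat_lit 658) (nat_lit 0) (nat_lit 612) (@Lb.fp (nat_lit 3) t946)))))))))))
noncomputable def l10957 : Lb := (@Lb.d (nat_lit 2) (nat_lit 512) (nat_lit 72) (@Lb.r r402 (@Lb.r r101 (@Lb.g g11 (@Lb.g g8 (@Lb.d (nat_lit 10) (nat_lit 0) (nat_lit 0) (@Lb.fm (nat_lit 3) t30)))))))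
noncomputable def l10958 : Lb := (@Lb.d (nat_lit 290) (nat_lit 256) (nat_lit 138) (@Lb.r r24 (@Lb.r r101 (@Lb.r r354 (@Lb.r r1427 (@Lb.g g10 (@Lb.t (@Lb.fp (nat_lit 3) t327))))))))
noncomputable def l10959 : Lb := (@Lb.d (nat_lit 410) (nat_lit 165) (nat_lit 648) (@Lb.r r24 (@Lb.r r146 (@Lb.r r353 (@Lb.r r2691 (@Lb.g g7 (@Lb.g g6 (@Lb.g g5 (@Lb.d (nat_lit 0) (nat_lit 1) (nat_lit 65) (@Lb.t (@Lb.fp (nat_lit 9) t2455)))))))))))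
noncomputable def l10960 : Lb := (@Lb.d (nat_lit 130) (nat_lit 266) (nat_lit 0) (@Lb.g g8 (@Lb.g g9 (@Lb.r r599 (@Lb.r r594 (@Lb.r r417 (@Lb.r r104 (@Lb.d (nat_lit 38) (nat_lit 0) (nat_lit 137) (@Lb.fp (nat_lit 3) t119)))))))))
noncomputable def l10961 : Lb := (@Lb.d (nat_lit 549) (nat_lit 426) (nat_lit 418) (@Lb.r r21 (@Lb.r r2730 (@Lb.r r2647 (@Lb.g g7 (@Lb.g g6 (@Lb.g g5 (@Lb.g g4 (@Lb.d (nat_lit 354) (nat_lit 1) (nat_lit 133) (@Lb.fp (nat_lit 9) t2632))))))))))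
noncomputable def l10962 : Lb := (@Lb.d (nat_lit 33) (nat_lit 516) (nat_lit 74) (@Lb.g g8 (@Lb.g g9 (@Lb.g g10 (@Lb.g g11 (@Lb.r r2658 (@Lb.r r1412 (@Lb.r r1611 (@Lb.r r1377 (@Lb.d (nat_lit 597) (nat_lit 5) (nat_lit 576) (@Lb.fp (nat_lit 9) t1265)))))))))))
noncomputable def l10963 : Lb := (@Lb.d (nat_lit 614) (nat_lit 130) (nat_lit 424) (@Lb.r r68 (@Lb.r r2466 (@Lb.r r1451 (@Lb.r r328 (@Lb.g g7 (@Lb.g g6 (@Lb.g g5 (@Lb.g g4 (@Lb.d (nat_lit 1) (nat_lit 153) (nat_lit 74) (@Lb.fp (nat_lit 9) t2633)))))))))))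
noncomputable def l10964 : Lb := (@Lb.d (nat_lit 101) (nat_lit 166) (nat_lit 538) (@Lb.r r615 (@Lb.r r420 (@Lb.r r150 (@Lb.g g7 (@Lb.g g5 (@Lb.g g4 (@Lb.d (nat_lit 17) (nat_lit 154) (nat_lit 128) (@Lb.r r98 (@Lb.t (@Lb.fp (nat_lit 9) t1060)))))))))))
noncomputable def l10965 : Lb := (@Lb.d (nat_lit 5) (nat_lit 321) (nat_lit 32) (@Lb.r r101 (@Lb.r r1172 (@Lb.g g4 (@Lb.t (@Lb.fp (nat_lit 3) t743))))))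
noncomputable def l10966 : Lb := (@Lb.d (nat_lit 128) (nat_lit 8) (nat_lit 64) (@Lb.g g10 (@Lb.g g11 (@Lb.r r2324 (@Lb.r r2585 (@Lb.r r411 (@Lb.r r2370 (@Lb.d (nat_lit 554) (nat_lit 74) (nat_lit 260) (@Lb.fm (nat_lit 3) t2634)))))))))
noncomputable def l10967 : Lb := (@Lb.d (nat_lit 0) (nat_lit 8) (nat_lit 2) (@Lb.g g10 (@Lb.r r1427 (@Lb.r r1172 (@Lb.r r89 (@Lb.r r1126 (@Lb.d (nat_lit 282) (nat_lit 74) (nat_lit 18) (@Lb.t (@Lb.fp (nat_lit 3) t1222)))))))))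
noncomputable def l10968 : Lb := (@Lb.d (nat_lit 128) (nat_lit 264) (nat_lit 64) (@Lb.g g10 (@Lb.g g11 (@Lb.r r2324 (@Lb.r r2585 (@Lb.r r411 (@Lb.r r2370 (@Lb.d (nat_lit 553) (nat_lit 74) (nat_lit 260) (@Lb.fm (nat_lit 3) t2635)))))))))
noncomputable def l10969 : Lb := (@Lb.d (nat_lit 0) (nat_lit 513) (nat_lit 6) (@Lb.r r323 (@Lb.g g6 (@Lb.d (nat_lit 0) (nat_lit 4) (nat_lit 9) (@Lb.r r387 (@Lb.t (@Lb.fm (nat_lit 3) t45)))))))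
noncomputable def l10970 : Lb := (@Lb.r r323 (@Lb.d (nat_lit 2) (nat_lit 514) (nat_lit 2) (@Lb.g g8 (@Lb.g g9 (@Lb.g g10 (@Lb.r r401 (@Lb.r r299 (@Lb.r r392 (@Lb.r r74 (@Lb.d (nat_lit 33) (nat_lit 10) (nat_lit 17) (@Lb.t (@Lb.fp (nat_lit 9) t221))))))))))))
noncomputable def l10971 : Lb := (@Lb.d (nat_lit 657) (nat_lit 512) (nat_lit 390) (@Lb.r r24 (@Lb.r r101 (@Lb.r r386 (@Lb.g g11 (@Lb.g g6 (@Lb.g g5 (@Lb.d (nat_lit 0) (nat_lit 0) (nat_lit 1) (@Lb.t (@Lb.fp (nat_lit 9) t475))))))))))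
noncomputable def l10972 : Lb := (@Lb.d (nat_lit 4) (nat_lit 0) (nat_lit 2) (@Lb.g g8 (@Lb.g g9 (@Lb.g g10 (@Lb.g g7 (@Lb.r r386 (@Lb.r r97 (@Lb.r r2584 (@Lb.d (nat_lit 330) (nat_lit 9) (nat_lit 137) (@Lb.fp (nat_lit 9) t996))))))))))
noncomputable def l10973 : Lb := (@Lb.d (nat_lit 100) (nat_lit 345) (nat_lit 581) (@Lb.r r420 (@Lb.r r406 (@Lb.g g7 (@Lb.g g5 (@Lb.g g4 (@Lb.d (nat_lit 144) (nat_lit 9) (nat_lit 388) (@Lb.r r578 (@Lb.t (@Lb.fm (nat_lit 9) t1097))))))))))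
noncomputable def l10974 : Lb := (@Lb.d (nat_lit 2) (nat_lit 546) (nat_lit 130) (@Lb.g g8 (@Lb.g g9 (@Lb.g g10 (@Lb.g g11 (@Lb.r r419 (@Lb.r r2154 (@Lb.r r2073 (@Lb.d (nat_lit 102) (nat_lit 136) (nat_lit 354) (@Lb.fp (nat_lit 9) t2636))))))))))

end Pool.Agent.MP_61a8e3_al.G4.K
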