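import Pool.Agent.MP_61a8e3_al.G4.KR
import Pool.Agent.MP_61a8e3_al.G4.KT0
import Pool.Agent.MP_61a8e3_al.G4.KT1

/-! Part K: labels, part 2. -/

set_option autoImplicit false
set_option maxRecDepth 100000
set_option linter.all false

namespace Pool.Agent.MP_61a8e3_al.G4.K

noncomputable def l10975 : Lb := (@Lb.d (nat_lit 2) (nat_lit 548) (nat_lit 128) (@Lb.g g8 (@Lb.g g9 (@Lb.g g10 (@Lb.g g11 (@Lb.r r387 (@Lb.r r1177 (@Lb.r r2458 (@Lb.r r24 (@Lb.d (nat_lit 600) (nat_lit 2) (nat_lit 169) (@Lb.fp (nat_lit 9) t2504)))))))))))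
noncomputable def l10976 : Lb := (@Lb.d (nat_lit 0) (nat_lit 0) (nat_lit 66) (@Lb.g g9 (@Lb.g g10 (@Lb.g g7 (@Lb.r r386 (@Lb.r r101 (@Lb.r r24 (@Lb.d (nat_lit 352) (nat_lit 0) (nat_lit 585) (@Lb.t (@Lb.fm (nat_lit 9) t1150))))))))))
noncomputable def l10977 : Lb := (@Lb.g g9 (@Lb.g g7 (@Lb.d (nat_lit 0) (nat_lit 512) (nat_lit 64) (@Lb.fp (nat_lit 3) t2))))
noncomputable def l10978 : Lb := (@Lb.r r82 (@Lb.d (nat_lit 8) (nat_lit 354) (nat_lit 128) (@Lb.g g9 (@Lb.g g11 (@Lb.r r1447 (@Lb.r r386 (@Lb.r r24 (@Lb.d (nat_lit 82) (nat_lit 2) (nat_lit 514) (@Lb.fm (nat_lit 3) t143)))))))))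
noncomputable def l10979 : Lb := (@Lb.d (nat_lit 2) (nat_lit 288) (nat_lit 0) (@Lb.g g8 (@Lb.g g9 (@Lb.r r1162 (@Lb.r r1444 (@Lb.r r2331 (@Lb.r r549 (@Lb.d (nat_lit 522) (nat_lit 129) (nat_lit 74) (@Lb.fm (nat_lit 3) t1593)))))))))
noncomputable def l10980 : Lb := (@Lb.r r322 (@Lb.d (nat_lit 0) (nat_lit 512) (nat_lit 72) (@Lb.g g8 (@Lb.g g7 (@Lb.r r1158 (@Lb.r r2145 (@Lb.r r2120 (@Lb.d (nat_lit 608) (nat_lit 164) (nat_lit 581) (@Lb.fm (nat_lit 3) t2637)))))))))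
noncomputable def l10981 : Lb := (@Lb.d (nat_lit 0) (nat_lit 512) (nat_lit 130) (@Lb.g g8 (@Lb.g g9 (@Lb.g g10 (@Lb.g g11 (@Lb.r r2210 (@Lb.r r168 (@Lb.r r425 (@Lb.r r2327 (@Lb.r r1572 (@Lb.d (nat_lit 265) (nat_lit 2) (nat_lit 586) (@Lb.fm (nat_lit 9) t991))))))))))))
noncomputable def l10982 : Lb := (@Lb.d (nat_lit 406) (nat_lit 324) (nat_lit 356) (@Lb.r r2438 (@Lb.r r1620 (@Lb.r r2345 (@Lb.r r1351 (@Lb.g g7 (@Lb.g g6 (@Lb.g g4 (@Lb.d (nat_lit 1) (nat_lit 4) (nat_lit 8) (@Lb.t (@Lb.fp (nat_lit 9) t284)))))))))))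
noncomputable def l10983 : Lb := (@Lb.d (nat_lit 0) (nat_lit 264) (nat_lit 130) (@Lb.g g8 (@Lb.g g10 (@Lb.g g11 (@Lb.r r293 (@Lb.r r347 (@Lb.r r2658 (@Lb.r r2120 (@Lb.d (nat_lit 550) (nat_lit 0) (nat_lit 160) (@Lb.t (@Lb.fm (nat_lit 9) t2637)))))))))))
noncomputable def l10984 : Lb := (@Lb.d (nat_lit 0) (nat_lit 520) (nat_lit 130) (@Lb.g g8 (@Lb.g g10 (@Lb.g g11 (@Lb.r r293 (@Lb.r r347 (@Lb.r r2658 (@Lb.r r2120 (@Lb.d (nat_lit 545) (nat_lit 2) (nat_lit 160) (@Lb.t (@Lb.fm (nat_lit 9) t2637)))))))))))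
noncomputable def l10985 : Lb := (@Lb.d (nat_lit 8) (nat_lit 2) (nat_lit 73) (@Lb.g g8 (@Lb.g g9 (@Lb.g g10 (@Lb.g g11 (@Lb.r r2691 (@Lb.r r2345 (@Lb.r r360 (@Lb.r r582 (@Lb.r r2180 (@Lb.d (nat_lit 648) (nat_lit 9) (nat_lit 89) (@Lb.fm (nat_lit 9) t1412))))))))))))
noncomputable def l10986 : Lb := (@Lb.d (nat_lit 9) (nat_lit 546) (nat_lit 2) (@Lb.g g8 (@Lb.g g9 (@Lb.g g10 (@Lb.r r170 (@Lb.r r1444 (@Lb.r r2331 (@Lb.r r549 (@Lb.d (nat_lit 134) (nat_lit 80) (nat_lit 74) (@Lb.t (@Lb.fm (nat_lit 9) t284)))))))))))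
noncomputable def l10987 : Lb := (@Lb.d (nat_lit 10) (nat_lit 514) (nat_lit 73) (@Lb.g g4 (@Lb.g g9 (@Lb.g g10 (@Lb.g g11 (@Lb.r r2658 (@Lb.r r579 (@Lb.d (nat_lit 0) (nat_lit 97) (nat_lit 586) (@Lb.fp (nat_lit 9) t51)))))))))
noncomputable def l10988 : Lb := (@Lb.r r82 (@Lb.d (nat_lit 9) (nat_lit 257) (nat_lit 128) (@Lb.g g8 (@Lb.g g9 (@Lb.g g11 (@Lb.r r2659 (@Lb.r r2088 (@Lb.r r2649 (@Lb.r r98 (@Lb.d (nat_lit 658) (nat_lit 130) (nat_lit 85) (@Lb.t (@Lb.fm (nat_lit 9) t2638))))))))))))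
noncomputable def l10989 : Lb := (@Lb.d (nat_lit 0) (nat_lit 512) (nat_lit 68) (@Lb.g g7 (@Lb.r r101 (@Lb.r r24 (@Lb.d (nat_lit 17) (nat_lit 10) (nat_lit 69) (@Lb.t (@Lb.fm (nat_lit 3) t40)))))))
noncomputable def l10990 : Lb := (@Lb.d (nat_lit 33) (nat_lit 2) (nat_lit 65) (@Lb.g g8 (@Lb.g g9 (@Lb.g g6 (@Lb.g g11 (@Lb.r r612 (@Lb.r r263 (@Lb.r r97 (@Lb.r r516 (@Lb.d (nat_lit 2) (nat_lit 41) (nat_lit 128) (@Lb.fp (nat_lit 9) t622)))))))))))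
noncomputable def l10991 : Lb := (@Lb.d (nat_lit 0) (nat_lit 256) (nat_lit 68) (@Lb.g g7 (@Lb.r r101 (@Lb.r r24 (@Lb.d (nat_lit 17) (nat_lit 0) (nat_lit 70) (@Lb.t (@Lb.fm (nat_lit 3) t40)))))))
noncomputable def l10992 : Lb := (@Lb.d (nat_lit 33) (nat_lit 38) (nat_lit 66) (@Lb.g g8 (@Lb.g g9 (@Lb.g g10 (@Lb.g g11 (@Lb.r r1706 (@Lb.r r676 (@Lb.r r1575 (@Lb.r r2577 (@Lb.d (nat_lit 586) (nat_lit 97) (nat_lit 602) (@Lb.fp (nat_lit 9) t1000)))))))))))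
noncomputable def l10993 : Lb := (@Lb.d (nat_lit 33) (nat_lit 516) (nat_lit 66) (@Lb.g g8 (@Lb.g g9 (@Lb.g g6 (@Lb.g g11 (@Lb.r r601 (@Lb.r r275 (@Lb.r r1553 (@Lb.r r1540 (@Lb.d (nat_lit 673) (nat_lit 129) (nat_lit 672) (@Lb.fm (nat_lit 9) t2312)))))))))))
noncomputable def l10994 : Lb := (@Lb.d (nat_lit 386) (nat_lit 0) (nat_lit 288) (@Lb.r r154 (@Lb.r r660 (@Lb.r r407 (@Lb.r r609 (@Lb.g g11 (@Lb.t (@Lb.fp (nat_lit 3) t2639))))))))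
noncomputable def l10995 : Lb := (@Lb.d (nat_lit 129) (nat_lit 514) (nat_lit 130) (@Lb.g g8 (@Lb.g g9 (@Lb.g g10 (@Lb.g g11 (@Lb.r r2666 (@Lb.r r612 (@Lb.r r1319 (@Lb.r r405 (@Lb.r r2084 (@Lb.d (nat_lit 617) (nat_lit 137) (nat_lit 169) (@Lb.fp (nat_lit 9) t1039))))))))))))
noncomputable def l10996 : Lb := (@Lb.r r82 (@Lb.d (nat_lit 8) (nat_lit 16) (nat_lit 0) (@Lb.g g8 (@Lb.g g9 (@Lb.g g11 (@Lb.r r2455 (@Lb.r r386 (@Lb.r r85 (@Lb.r r24 (@Lb.d (nat_lit 289) (nat_lit 9) (nat_lit 1) (@Lb.t (@Lb.fm (nat_lit 9) t538))))))))))))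
noncomputable def l10997 : Lb := (@Lb.r r82 (@Lb.r r275 (@Lb.d (nat_lit 8) (nat_lit 129) (nat_lit 0) (@Lb.g g8 (@Lb.g g5 (@Lb.r r2651 (@Lb.r r386 (@Lb.r r24 (@Lb.d (nat_lit 266) (nat_lit 0) (nat_lit 2) (@Lb.fm (nat_lit 3) t538))))))))))
noncomputable def l10998 : Lb := (@Lb.d (nat_lit 65) (nat_lit 256) (nat_lit 153) (@Lb.r r24 (@Lb.r r1602 (@Lb.r r2587 (@Lb.r r357 (@Lb.g g7 (@Lb.g g6 (@Lb.d (nat_lit 0) (nat_lit 4) (nat_lit 64) (@Lb.fp (nat_lit 3) t1558)))))))))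
noncomputable def l10999 : Lb := (@Lb.r r82 (@Lb.r r275 (@Lb.g g4 (@Lb.g g9 (@Lb.r r1639 (@Lb.r r386 (@Lb.r r37 (@Lb.r r24 (@Lb.d (nat_lit 4) (nat_lit 70) (nat_lit 0) (@Lb.fp (nat_lit 3) t582))))))))))
noncomputable def l11000 : Lb := (@Lb.d (nat_lit 2) (nat_lit 256) (nat_lit 128) (@Lb.r r24 (@Lb.r r101 (@Lb.r r1426 (@Lb.g g7 (@Lb.g g5 (@Lb.d (nat_lit 0) (nat_lit 0) (nat_lit 68) (@Lb.r r578 (@Lb.fp (nat_lit 3) t482)))))))))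
noncomputable def l11001 : Lb := (@Lb.d (nat_lit 161) (nat_lit 257) (nat_lit 257) (@Lb.r r24 (@Lb.r r386 (@Lb.r r2395 (@Lb.g g7 (@Lb.g g5 (@Lb.d (nat_lit 4) (nat_lit 145) (nat_lit 128) (@Lb.r r98 (@Lb.fm (nat_lit 3) t311)))))))))
noncomputable def l11002 : Lb := (@Lb.r r263 (@Lb.d (nat_lit 642) (nat_lit 2) (nat_lit 2) (@Lb.g g8 (@Lb.g g9 (@Lb.g g10 (@Lb.r r2647 (@Lb.r r106 (@Lb.r r25 (@Lb.d (nat_lit 9) (nat_lit 2) (nat_lit 580) (@Lb.t (@Lb.fp (nat_lit 9) t375)))))))))))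
noncomputable def l11003 : Lb := (@Lb.d (nat_lit 33) (nat_lit 516) (nat_lit 130) (@Lb.g g8 (@Lb.g g9 (@Lb.g g6 (@Lb.g g11 (@Lb.r r1643 (@Lb.r r97 (@Lb.r r1560 (@Lb.d (nat_lit 73) (nat_lit 105) (nat_lit 640) (@Lb.fp (nat_lit 9) t2179))))))))))
noncomputable def l11004 : Lb := (@Lb.g g5 (@Lb.r r2331 (@Lb.r r1096 (@Lb.r r2454 (@Lb.r r601 (@Lb.d (nat_lit 282) (nat_lit 330) (nat_lit 84) (@Lb.t (@Lb.fm (nat_lit 3) t450))))))))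
noncomputable def l11005 : Lb := (@Lb.d (nat_lit 2) (nat_lit 2) (nat_lit 73) (@Lb.g g8 (@Lb.g g9 (@Lb.g g10 (@Lb.g g11 (@Lb.r r1626 (@Lb.r r2659 (@Lb.r r97 (@Lb.r r24 (@Lb.d (nat_lit 421) (nat_lit 32) (nat_lit 602) (@Lb.fm (nat_lit 9) t1227)))))))))))
noncomputable def l11006 : Lb := (@Lb.d (nat_lit 8) (nat_lit 9) (nat_lit 73) (@Lb.g g9 (@Lb.g g10 (@Lb.g g11 (@Lb.r r2471 (@Lb.r r2136 (@Lb.r r1606 (@Lb.r r1425 (@Lb.d (nat_lit 82) (nat_lit 90) (nat_lit 640) (@Lb.t (@Lb.fp (nat_lit 9) t1267)))))))))))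
noncomputable def l11007 : Lb := (@Lb.g g5 (@Lb.r r2331 (@Lb.r r1096 (@Lb.r r2454 (@Lb.r r601 (@Lb.d (nat_lit 272) (nat_lit 72) (nat_lit 84) (@Lb.t (@Lb.fm (nat_lit 3) t450))))))))
noncomputable def l11008 : Lb := (@Lb.d (nat_lit 0) (nat_lit 256) (nat_lit 2) (@Lb.g g10 (@Lb.g g7 (@Lb.r r386 (@Lb.r r101 (@Lb.r r24 (@Lb.d (nat_lit 352) (nat_lit 0) (nat_lit 521) (@Lb.fm (nat_lit 3) t1150))))))))
noncomputable def l11009 : Lb := (@Lb.g g9 (@Lb.r r1297 (@Lb.d (nat_lit 0) (nat_lit 0) (nat_lit 512) (@Lb.t (@Lb.fp (nat_lit 3) t1378)))))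
noncomputable def l11010 : Lb := (@Lb.d (nat_lit 0) (nat_lit 512) (nat_lit 2) (@Lb.g g10 (@Lb.g g7 (@Lb.r r386 (@Lb.r r101 (@Lb.r r24 (@Lb.d (nat_lit 354) (nat_lit 0) (nat_lit 521) (@Lb.fm (nat_lit 3) t166))))))))
noncomputable def l11011 : Lb := (@Lb.d (nat_lit 0) (nat_lit 258) (nat_lit 0) (@Lb.g g9 (@Lb.g g7 (@Lb.r r2146 (@Lb.r r97 (@Lb.d (nat_lit 0) (nat_lit 26) (nat_lit 592) (@Lb.fm (nat_lit 3) t2640)))))))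
noncomputable def l11012 : Lb := (@Lb.r r323 (@Lb.d (nat_lit 130) (nat_lit 514) (nat_lit 2) (@Lb.g g8 (@Lb.g g9 (@Lb.g g10 (@Lb.r r1639 (@Lb.r r2193 (@Lb.r r2642 (@Lb.r r72 (@Lb.d (nat_lit 336) (nat_lit 106) (nat_lit 137) (@Lb.t (@Lb.fm (nat_lit 9) t2641))))))))))))
noncomputable def l11013 : Lb := (@Lb.d (nat_lit 2) (nat_lit 514) (nat_lit 73) (@Lb.g g8 (@Lb.g g9 (@Lb.g g10 (@Lb.g g11 (@Lb.r r1626 (@Lb.r r2659 (@Lb.r r97 (@Lb.r r24 (@Lb.d (nat_lit 426) (nat_lit 33) (nat_lit 602) (@Lb.fm (nat_lit 9) t1227)))))))))))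
noncomputable def l11014 : Lb := (@Lb.d (nat_lit 6) (nat_lit 0) (nat_lit 130) (@Lb.g g8 (@Lb.g g9 (@Lb.g g10 (@Lb.g g11 (@Lb.r r2411 (@Lb.r r386 (@Lb.r r104 (@Lb.r r25 (@Lb.d (nat_lit 512) (nat_lit 10) (nat_lit 136) (@Lb.fp (nat_lit 9) t61)))))))))))
noncomputable def l11015 : Lb := (@Lb.r r21 (@Lb.d (nat_lit 1) (nat_lit 256) (nat_lit 130) (@Lb.g g8 (@Lb.g g10 (@Lb.g g11 (@Lb.r r2379 (@Lb.r r386 (@Lb.r r149 (@Lb.r r72 (@Lb.d (nat_lit 545) (nat_lit 0) (nat_lit 136) (@Lb.t (@Lb.fm (nat_lit 9) t61))))))))))))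
noncomputable def l11016 : Lb := (@Lb.d (nat_lit 512) (nat_lit 0) (nat_lit 384) (@Lb.r r24 (@Lb.r r101 (@Lb.r r402 (@Lb.g g11 (@Lb.g g6 (@Lb.g g5 (@Lb.d (nat_lit 0) (nat_lit 5) (nat_lit 1) (@Lb.t (@Lb.fp (nat_lit 9) t868))))))))))
noncomputable def l11017 : Lb := (@Lb.d (nat_lit 9) (nat_lit 550) (nat_lit 128) (@Lb.g g8 (@Lb.g g9 (@Lb.g g10 (@Lb.g g11 (@Lb.r r682 (@Lb.r r680 (@Lb.r r555 (@Lb.r r537 (@Lb.d (nat_lit 74) (nat_lit 161) (nat_lit 74) (@Lb.fm (nat_lit 9) t125)))))))))))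
noncomputable def l11018 : Lb := (@Lb.d (nat_lit 129) (nat_lit 2) (nat_lit 130) (@Lb.g g8 (@Lb.g g9 (@Lb.g g10 (@Lb.g g11 (@Lb.r r2710 (@Lb.r r360 (@Lb.r r1319 (@Lb.r r405 (@Lb.r r2084 (@Lb.d (nat_lit 25) (nat_lit 137) (nat_lit 673) (@Lb.fp (nat_lit 9) t163))))))))))))
noncomputable def l11019 : Lb := (@Lb.d (nat_lit 137) (nat_lit 2) (nat_lit 10) (@Lb.g g8 (@Lb.g g9 (@Lb.g g10 (@Lb.r r1321 (@Lb.r r1559 (@Lb.r r2408 (@Lb.r r1158 (@Lb.d (nat_lit 2) (nat_lit 38) (nat_lit 346) (@Lb.t (@Lb.fm (nat_lit 9) t246)))))))))))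
noncomputable def l11020 : Lb := (@Lb.r r21 (@Lb.d (nat_lit 1) (nat_lit 256) (nat_lit 130) (@Lb.g g8 (@Lb.g g10 (@Lb.g g11 (@Lb.r r2379 (@Lb.r r386 (@Lb.r r149 (@Lb.r r72 (@Lb.d (nat_lit 546) (nat_lit 0) (nat_lit 70) (@Lb.t (@Lb.fm (nat_lit 9) t61))))))))))))
noncomputable def l11021 : Lb := (@Lb.r r21 (@Lb.d (nat_lit 2) (nat_lit 0) (nat_lit 130) (@Lb.g g8 (@Lb.g g10 (@Lb.g g11 (@Lb.r r2379 (@Lb.r r386 (@Lb.r r149 (@Lb.r r72 (@Lb.d (nat_lit 546) (nat_lit 0) (nat_lit 70) (@Lb.t (@Lb.fm (nat_lit 9) t61))))))))))))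
noncomputable def l11022 : Lb := (@Lb.d (nat_lit 4) (nat_lit 0) (nat_lit 130) (@Lb.g g8 (@Lb.g g9 (@Lb.g g10 (@Lb.g g11 (@Lb.r r2411 (@Lb.r r386 (@Lb.r r104 (@Lb.r r25 (@Lb.d (nat_lit 512) (nat_lit 10) (nat_lit 70) (@Lb.fp (nat_lit 9) t61)))))))))))
noncomputable def l11023 : Lb := (@Lb.d (nat_lit 0) (nat_lit 514) (nat_lit 130) (@Lb.g g9 (@Lb.g g10 (@Lb.g g11 (@Lb.r r2691 (@Lb.r r1350 (@Lb.r r1320 (@Lb.r r25 (@Lb.d (nat_lit 326) (nat_lit 133) (nat_lit 105) (@Lb.t (@Lb.fm (nat_lit 9) t1630)))))))))))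
noncomputable def l11024 : Lb := (@Lb.d (nat_lit 136) (nat_lit 257) (nat_lit 4) (@Lb.g g8 (@Lb.g g9 (@Lb.g g10 (@Lb.g g11 (@Lb.r r419 (@Lb.r r164 (@Lb.r r2469 (@Lb.r r2150 (@Lb.r r1156 (@Lb.d (nat_lit 41) (nat_lit 97) (nat_lit 616) (@Lb.fm (nat_lit 9) t321))))))))))))
noncomputable def l11025 : Lb := (@Lb.d (nat_lit 129) (nat_lit 2) (nat_lit 4) (@Lb.g g8 (@Lb.g g9 (@Lb.g g10 (@Lb.g g11 (@Lb.r r419 (@Lb.r r164 (@Lb.r r2469 (@Lb.r r2150 (@Lb.r r1156 (@Lb.d (nat_lit 41) (nat_lit 97) (nat_lit 616) (@Lb.fm (nat_lit 9) t321))))))))))))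
noncomputable def l11026 : Lb := (@Lb.d (nat_lit 0) (nat_lit 2) (nat_lit 130) (@Lb.g g9 (@Lb.g g10 (@Lb.g g11 (@Lb.r r2691 (@Lb.r r1350 (@Lb.r r1320 (@Lb.r r25 (@Lb.d (nat_lit 326) (nat_lit 128) (nat_lit 104) (@Lb.t (@Lb.fm (nat_lit 9) t1630)))))))))))
noncomputable def l11027 : Lb := (@Lb.d (nat_lit 1) (nat_lit 512) (nat_lit 0) (@Lb.g g4 (@Lb.g g9 (@Lb.r r1158 (@Lb.r r2136 (@Lb.r r2341 (@Lb.r r2579 (@Lb.fp (nat_lit 3) t2604))))))))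
noncomputable def l11028 : Lb := (@Lb.r r82 (@Lb.d (nat_lit 0) (nat_lit 17) (nat_lit 0) (@Lb.g g9 (@Lb.g g11 (@Lb.r r1427 (@Lb.r r386 (@Lb.r r1113 (@Lb.r r24 (@Lb.d (nat_lit 530) (nat_lit 0) (nat_lit 17) (@Lb.fm (nat_lit 3) t538))))))))))
noncomputable def l11029 : Lb := (@Lb.d (nat_lit 2) (nat_lit 258) (nat_lit 2) (@Lb.g g8 (@Lb.g g9 (@Lb.g g10 (@Lb.g g11 (@Lb.r r2595 (@Lb.r r2705 (@Lb.r r356 (@Lb.r r154 (@Lb.r r132 (@Lb.d (nat_lit 128) (nat_lit 2) (nat_lit 330) (@Lb.fp (nat_lit 9) t284))))))))))))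
noncomputable def l11030 : Lb := (@Lb.d (nat_lit 390) (nat_lit 593) (nat_lit 578) (@Lb.r r2584 (@Lb.r r2145 (@Lb.r r1643 (@Lb.g g7 (@Lb.g g10 (@Lb.g g4 (@Lb.d (nat_lit 1) (nat_lit 8) (nat_lit 97) (@Lb.t (@Lb.fp (nat_lit 9) t2642))))))))))
noncomputable def l11031 : Lb := (@Lb.d (nat_lit 8) (nat_lit 10) (nat_lit 0) (@Lb.g g9 (@Lb.g g11 (@Lb.r r402 (@Lb.r r584 (@Lb.r r2411 (@Lb.r r2401 (@Lb.d (nat_lit 0) (nat_lit 170) (nat_lit 678) (@Lb.fp (nat_lit 3) t825)))))))))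
noncomputable def l11032 : Lb := (@Lb.d (nat_lit 408) (nat_lit 85) (nat_lit 420) (@Lb.r r1620 (@Lb.r r2457 (@Lb.r r146 (@Lb.r r1431 (@Lb.g g7 (@Lb.g g5 (@Lb.g g4 (@Lb.d (nat_lit 18) (nat_lit 1) (nat_lit 64) (@Lb.t (@Lb.fm (nat_lit 9) t2643)))))))))))
noncomputable def l11033 : Lb := (@Lb.d (nat_lit 33) (nat_lit 258) (nat_lit 1) (@Lb.g g8 (@Lb.g g9 (@Lb.g g10 (@Lb.g g11 (@Lb.r r2595 (@Lb.r r164 (@Lb.r r533 (@Lb.r r2084 (@Lb.d (nat_lit 130) (nat_lit 38) (nat_lit 328) (@Lb.fm (nat_lit 9) t2644)))))))))))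
noncomputable def l11034 : Lb := (@Lb.d (nat_lit 0) (nat_lit 258) (nat_lit 66) (@Lb.g g9 (@Lb.g g10 (@Lb.g g7 (@Lb.r r386 (@Lb.r r97 (@Lb.d (nat_lit 0) (nat_lit 9) (nat_lit 137) (@Lb.t (@Lb.fp (nat_lit 9) t87)))))))))
noncomputable def l11035 : Lb := (@Lb.d (nat_lit 128) (nat_lit 0) (nat_lit 130) (@Lb.g g10 (@Lb.g g11 (@Lb.r r260 (@Lb.r r523 (@Lb.r r1189 (@Lb.r r1126 (@Lb.d (nat_lit 345) (nat_lit 136) (nat_lit 145) (@Lb.fm (nat_lit 3) t97)))))))))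
noncomputable def l11036 : Lb := (@Lb.d (nat_lit 0) (nat_lit 8) (nat_lit 130) (@Lb.g g10 (@Lb.g g11 (@Lb.r r387 (@Lb.r r24 (@Lb.d (nat_lit 330) (nat_lit 97) (nat_lit 393) (@Lb.fp (nat_lit 3) t2645)))))))
noncomputable def l11037 : Lb := (@Lb.d (nat_lit 585) (nat_lit 282) (nat_lit 320) (@Lb.r r2344 (@Lb.r r1559 (@Lb.r r345 (@Lb.r r678 (@Lb.g g4 (@Lb.d (nat_lit 70) (nat_lit 0) (nat_lit 0) (@Lb.t (@Lb.fp (nat_lit 3) t727)))))))))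
noncomputable def l11038 : Lb := (@Lb.d (nat_lit 129) (nat_lit 514) (nat_lit 130) (@Lb.g g8 (@Lb.g g9 (@Lb.g g10 (@Lb.g g11 (@Lb.r r2666 (@Lb.r r612 (@Lb.r r1639 (@Lb.r r533 (@Lb.r r2084 (@Lb.d (nat_lit 649) (nat_lit 130) (nat_lit 80) (@Lb.fm (nat_lit 9) t2646))))))))))))
noncomputable def l11039 : Lb := (@Lb.r r90 (@Lb.d (nat_lit 40) (nat_lit 257) (nat_lit 128) (@Lb.g g8 (@Lb.g g5 (@Lb.g g11 (@Lb.r r1446 (@Lb.r r1627 (@Lb.r r1624 (@Lb.d (nat_lit 105) (nat_lit 100) (nat_lit 546) (@Lb.t (@Lb.fm (nat_lit 9) t2647)))))))))))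
noncomputable def l11040 : Lb := (@Lb.d (nat_lit 34) (nat_lit 258) (nat_lit 129) (@Lb.g g8 (@Lb.g g9 (@Lb.g g6 (@Lb.g g11 (@Lb.r r1643 (@Lb.r r97 (@Lb.r r1560 (@Lb.d (nat_lit 73) (nat_lit 105) (nat_lit 512) (@Lb.fp (nat_lit 9) t1598))))))))))
noncomputable def l11041 : Lb := (@Lb.r r90 (@Lb.d (nat_lit 9) (nat_lit 1) (nat_lit 128) (@Lb.g g8 (@Lb.g g5 (@Lb.g g11 (@Lb.r r1691 (@Lb.r r130 (@Lb.r r1624 (@Lb.d (nat_lit 105) (nat_lit 100) (nat_lit 537) (@Lb.t (@Lb.fm (nat_lit 9) t1109)))))))))))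
noncomputable def l11042 : Lb := (@Lb.d (nat_lit 4) (nat_lit 0) (nat_lit 130) (@Lb.g g8 (@Lb.g g9 (@Lb.g g10 (@Lb.g g11 (@Lb.r r2691 (@Lb.r r2665 (@Lb.r r1686 (@Lb.r r1124 (@Lb.d (nat_lit 664) (nat_lit 138) (nat_lit 345) (@Lb.fm (nat_lit 9) t836)))))))))))
noncomputable def l11043 : Lb := (@Lb.d (nat_lit 152) (nat_lit 528) (nat_lit 529) (@Lb.r r405 (@Lb.r r682 (@Lb.r r2647 (@Lb.g g7 (@Lb.g g6 (@Lb.g g5 (@Lb.g g4 (@Lb.d (nat_lit 1) (nat_lit 18) (nat_lit 129) (@Lb.fp (nat_lit 9) t2648))))))))))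
noncomputable def l11044 : Lb := (@Lb.d (nat_lit 133) (nat_lit 5) (nat_lit 74) (@Lb.g g8 (@Lb.g g9 (@Lb.g g10 (@Lb.g g11 (@Lb.r r343 (@Lb.r r1366 (@Lb.r r97 (@Lb.r r532 (@Lb.d (nat_lit 678) (nat_lit 41) (nat_lit 161) (@Lb.fm (nat_lit 9) t1144)))))))))))
noncomputable def l11045 : Lb := (@Lb.d (nat_lit 264) (nat_lit 4) (nat_lit 33) (@Lb.r r2129 (@Lb.r r1126 (@Lb.r r597 (@Lb.r r2391 (@Lb.g g7 (@Lb.g g6 (@Lb.g g5 (@Lb.g g4 (@Lb.d (nat_lit 1) (nat_lit 0) (nat_lit 65) (@Lb.fp (nat_lit 9) t473)))))))))))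
noncomputable def l11046 : Lb := (@Lb.d (nat_lit 40) (nat_lit 4) (nat_lit 144) (@Lb.g g9 (@Lb.g g10 (@Lb.g g11 (@Lb.r r387 (@Lb.r r20 (@Lb.r r105 (@Lb.d (nat_lit 2) (nat_lit 150) (nat_lit 405) (@Lb.t (@Lb.fp (nat_lit 9) t2499))))))))))
noncomputable def l11047 : Lb := (@Lb.d (nat_lit 385) (nat_lit 149) (nat_lit 594) (@Lb.r r2325 (@Lb.r r2390 (@Lb.r r2731 (@Lb.g g6 (@Lb.g g5 (@Lb.g g4 (@Lb.d (nat_lit 8) (nat_lit 2) (nat_lit 1) (@Lb.t (@Lb.fm (nat_lit 9) t578))))))))))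
noncomputable def l11048 : Lb := (@Lb.d (nat_lit 33) (nat_lit 514) (nat_lit 129) (@Lb.g g8 (@Lb.g g9 (@Lb.g g6 (@Lb.g g11 (@Lb.r r612 (@Lb.r r263 (@Lb.r r97 (@Lb.r r516 (@Lb.d (nat_lit 1) (nat_lit 34) (nat_lit 129) (@Lb.fp (nat_lit 9) t622)))))))))))
noncomputable def l11049 : Lb := (@Lb.d (nat_lit 9) (nat_lit 641) (nat_lit 130) (@Lb.g g8 (@Lb.g g5 (@Lb.g g10 (@Lb.g g11 (@Lb.r r660 (@Lb.r r263 (@Lb.r r146 (@Lb.r r516 (@Lb.d (nat_lit 1) (nat_lit 8) (nat_lit 169) (@Lb.fp (nat_lit 9) t1416)))))))))))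
noncomputable def l11050 : Lb := (@Lb.d (nat_lit 40) (nat_lit 257) (nat_lit 1) (@Lb.g g8 (@Lb.g g9 (@Lb.g g10 (@Lb.g g11 (@Lb.r r642 (@Lb.r r545 (@Lb.r r423 (@Lb.r r600 (@Lb.d (nat_lit 65) (nat_lit 36) (nat_lit 136) (@Lb.fm (nat_lit 9) t1074)))))))))))
noncomputable def l11051 : Lb := (@Lb.d (nat_lit 0) (nat_lit 258) (nat_lit 0) (@Lb.g g9 (@Lb.g g10 (@Lb.r r145 (@Lb.d (nat_lit 280) (nat_lit 5) (nat_lit 33) (@Lb.fm (nat_lit 3) t743))))))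
noncomputable def l11052 : Lb := (@Lb.r r21 (@Lb.r r263 (@Lb.d (nat_lit 16) (nat_lit 256) (nat_lit 0) (@Lb.g g8 (@Lb.g g10 (@Lb.r r327 (@Lb.r r136 (@Lb.r r74 (@Lb.r r25 (@Lb.d (nat_lit 2) (nat_lit 0) (nat_lit 2) (@Lb.fp (nat_lit 3) t68)))))))))))
noncomputable def l11053 : Lb := (@Lb.r r21 (@Lb.d (nat_lit 8) (nat_lit 8) (nat_lit 130) (@Lb.g g8 (@Lb.g g10 (@Lb.g g11 (@Lb.r r427 (@Lb.r r533 (@Lb.r r360 (@Lb.r r102 (@Lb.d (nat_lit 26) (nat_lit 16) (nat_lit 133) (@Lb.t (@Lb.fp (nat_lit 9) t51))))))))))))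
noncomputable def l11054 : Lb := (@Lb.d (nat_lit 321) (nat_lit 385) (nat_lit 389) (@Lb.r r597 (@Lb.r r2666 (@Lb.r r2376 (@Lb.r r2691 (@Lb.g g7 (@Lb.g g6 (@Lb.g g5 (@Lb.d (nat_lit 0) (nat_lit 0) (nat_lit 65) (@Lb.t (@Lb.fp (nat_lit 9) t221)))))))))))
noncomputable def l11055 : Lb := (@Lb.d (nat_lit 70) (nat_lit 2) (nat_lit 65) (@Lb.r r264 (@Lb.r r97 (@Lb.r r615 (@Lb.g g6 (@Lb.g g4 (@Lb.d (nat_lit 65) (nat_lit 4) (nat_lit 1) (@Lb.r r387 (@Lb.r r25 (@Lb.fp (nat_lit 3) t264))))))))))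
noncomputable def l11056 : Lb := (@Lb.d (nat_lit 8) (nat_lit 0) (nat_lit 130) (@Lb.g g8 (@Lb.g g10 (@Lb.g g11 (@Lb.r r2443 (@Lb.r r2193 (@Lb.r r2458 (@Lb.r r2436 (@Lb.d (nat_lit 361) (nat_lit 9) (nat_lit 681) (@Lb.t (@Lb.fp (nat_lit 9) t221)))))))))))
noncomputable def l11057 : Lb := (@Lb.d (nat_lit 4) (nat_lit 256) (nat_lit 130) (@Lb.g g8 (@Lb.g g9 (@Lb.g g10 (@Lb.g g11 (@Lb.r r427 (@Lb.r r386 (@Lb.r r97 (@Lb.r r24 (@Lb.d (nat_lit 265) (nat_lit 9) (nat_lit 585) (@Lb.fm (nat_lit 9) t756)))))))))))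
noncomputable def l11058 : Lb := (@Lb.d (nat_lit 32) (nat_lit 521) (nat_lit 130) (@Lb.g g9 (@Lb.g g10 (@Lb.g g11 (@Lb.r r2435 (@Lb.r r2068 (@Lb.r r2153 (@Lb.r r2450 (@Lb.d (nat_lit 401) (nat_lit 149) (nat_lit 153) (@Lb.t (@Lb.fm (nat_lit 9) t573)))))))))))
noncomputable def l11059 : Lb := (@Lb.d (nat_lit 2) (nat_lit 258) (nat_lit 130) (@Lb.g g8 (@Lb.g g9 (@Lb.g g10 (@Lb.g g11 (@Lb.r r427 (@Lb.r r145 (@Lb.r r356 (@Lb.r r154 (@Lb.r r132 (@Lb.d (nat_lit 9) (nat_lit 72) (nat_lit 153) (@Lb.fm (nat_lit 9) t741))))))))))))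
noncomputable def l11060 : Lb := (@Lb.d (nat_lit 8) (nat_lit 521) (nat_lit 129) (@Lb.g g8 (@Lb.g g9 (@Lb.g g10 (@Lb.g g11 (@Lb.r r2691 (@Lb.r r2345 (@Lb.r r360 (@Lb.r r582 (@Lb.r r2180 (@Lb.d (nat_lit 641) (nat_lit 10) (nat_lit 89) (@Lb.fm (nat_lit 9) t98))))))))))))
noncomputable def l11061 : Lb := (@Lb.d (nat_lit 2) (nat_lit 258) (nat_lit 0) (@Lb.g g8 (@Lb.g g9 (@Lb.g g10 (@Lb.r r515 (@Lb.r r297 (@Lb.r r360 (@Lb.r r582 (@Lb.r r132 (@Lb.d (nat_lit 2) (nat_lit 10) (nat_lit 73) (@Lb.t (@Lb.fp (nat_lit 9) t242))))))))))))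
noncomputable def l11062 : Lb := (@Lb.r r322 (@Lb.d (nat_lit 40) (nat_lit 33) (nat_lit 516) (@Lb.g g8 (@Lb.g g9 (@Lb.g g7 (@Lb.r r2466 (@Lb.r r2345 (@Lb.r r1384 (@Lb.d (nat_lit 149) (nat_lit 170) (nat_lit 261) (@Lb.t (@Lb.fm (nat_lit 9) t1159)))))))))))
noncomputable def l11063 : Lb := (@Lb.d (nat_lit 0) (nat_lit 0) (nat_lit 2) (@Lb.g g10 (@Lb.g g7 (@Lb.r r386 (@Lb.r r101 (@Lb.r r24 (@Lb.d (nat_lit 584) (nat_lit 9) (nat_lit 553) (@Lb.fm (nat_lit 3) t1150))))))))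
noncomputable def l11064 : Lb := (@Lb.d (nat_lit 0) (nat_lit 640) (nat_lit 128) (@Lb.r r21 (@Lb.g g4 (@Lb.d (nat_lit 9) (nat_lit 0) (nat_lit 0) (@Lb.r r25 (@Lb.t (@Lb.fm (nat_lit 3) t2)))))))
noncomputable def l11065 : Lb := (@Lb.d (nat_lit 1) (nat_lit 514) (nat_lit 130) (@Lb.g g4 (@Lb.g g9 (@Lb.g g10 (@Lb.g g11 (@Lb.r r1443 (@Lb.r r386 (@Lb.r r1125 (@Lb.d (nat_lit 405) (nat_lit 154) (nat_lit 84) (@Lb.fm (nat_lit 9) t714))))))))))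
noncomputable def l11066 : Lb := (@Lb.d (nat_lit 1) (nat_lit 258) (nat_lit 130) (@Lb.g g8 (@Lb.g g9 (@Lb.g g10 (@Lb.g g11 (@Lb.r r1443 (@Lb.r r386 (@Lb.r r1129 (@Lb.r r36 (@Lb.d (nat_lit 342) (nat_lit 1) (nat_lit 102) (@Lb.fp (nat_lit 9) t61)))))))))))
noncomputable def l11067 : Lb := (@Lb.d (nat_lit 0) (nat_lit 512) (nat_lit 128) (@Lb.g g10 (@Lb.g g11 (@Lb.r r545 (@Lb.r r299 (@Lb.r r328 (@Lb.r r134 (@Lb.d (nat_lit 5) (nat_lit 8) (nat_lit 33) (@Lb.fp (nat_lit 3) t40)))))))))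
noncomputable def l11068 : Lb := (@Lb.d (nat_lit 146) (nat_lit 514) (nat_lit 128) (@Lb.g g8 (@Lb.g g9 (@Lb.g g10 (@Lb.g g11 (@Lb.r r2698 (@Lb.r r1411 (@Lb.r r36 (@Lb.r r1045 (@Lb.r r2084 (@Lb.d (nat_lit 528) (nat_lit 66) (nat_lit 88) (@Lb.fm (nat_lit 9) t1312))))))))))))
noncomputable def l11069 : Lb := (@Lb.d (nat_lit 2) (nat_lit 550) (nat_lit 128) (@Lb.g g8 (@Lb.g g9 (@Lb.g g10 (@Lb.g g11 (@Lb.r r1706 (@Lb.r r1704 (@Lb.r r1579 (@Lb.r r1561 (@Lb.d (nat_lit 586) (nat_lit 33) (nat_lit 650) (@Lb.fm (nat_lit 9) t2354)))))))))))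
noncomputable def l11070 : Lb := (@Lb.d (nat_lit 644) (nat_lit 74) (nat_lit 82) (@Lb.r r1105 (@Lb.r r422 (@Lb.r r2627 (@Lb.g g6 (@Lb.g g5 (@Lb.g g8 (@Lb.d (nat_lit 658) (nat_lit 2) (nat_lit 6) (@Lb.t (@Lb.fm (nat_lit 9) t2649))))))))))
noncomputable def l11071 : Lb := (@Lb.d (nat_lit 2) (nat_lit 2) (nat_lit 130) (@Lb.g g8 (@Lb.g g9 (@Lb.g g10 (@Lb.g g11 (@Lb.r r427 (@Lb.r r386 (@Lb.r r97 (@Lb.r r24 (@Lb.d (nat_lit 617) (nat_lit 9) (nat_lit 100) (@Lb.fm (nat_lit 9) t221)))))))))))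
noncomputable def l11072 : Lb := (@Lb.r r263 (@Lb.d (nat_lit 2) (nat_lit 514) (nat_lit 2) (@Lb.g g8 (@Lb.g g9 (@Lb.g g10 (@Lb.r r2411 (@Lb.r r386 (@Lb.r r97 (@Lb.r r1048 (@Lb.d (nat_lit 10) (nat_lit 136) (nat_lit 100) (@Lb.t (@Lb.fp (nat_lit 9) t408))))))))))))
noncomputable def l11073 : Lb := (@Lb.d (nat_lit 129) (nat_lit 2) (nat_lit 130) (@Lb.g g8 (@Lb.g g9 (@Lb.g g10 (@Lb.g g11 (@Lb.r r2411 (@Lb.r r386 (@Lb.r r97 (@Lb.r r1604 (@Lb.d (nat_lit 358) (nat_lit 84) (nat_lit 34) (@Lb.fp (nat_lit 9) t408)))))))))))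
noncomputable def l11074 : Lb := (@Lb.d (nat_lit 0) (nat_lit 266) (nat_lit 0) (@Lb.r r2209 (@Lb.r r1186 (@Lb.r r1379 (@Lb.g g9 (@Lb.d (nat_lit 0) (nat_lit 5) (nat_lit 0) (@Lb.t (@Lb.fp (nat_lit 3) t216))))))))
noncomputable def l11075 : Lb := (@Lb.r r323 (@Lb.d (nat_lit 2) (nat_lit 514) (nat_lit 0) (@Lb.g g8 (@Lb.g g9 (@Lb.g g10 (@Lb.r r427 (@Lb.r r106 (@Lb.r r25 (@Lb.d (nat_lit 282) (nat_lit 9) (nat_lit 32) (@Lb.t (@Lb.fm (nat_lit 9) t1357)))))))))))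
noncomputable def l11076 : Lb := (@Lb.d (nat_lit 38) (nat_lit 10) (nat_lit 74) (@Lb.g g8 (@Lb.g g9 (@Lb.g g10 (@Lb.g g11 (@Lb.r r2723 (@Lb.r r164 (@Lb.r r661 (@Lb.r r342 (@Lb.r r2084 (@Lb.d (nat_lit 593) (nat_lit 34) (nat_lit 616) (@Lb.fm (nat_lit 9) t50))))))))))))
noncomputable def l11077 : Lb := (@Lb.d (nat_lit 2) (nat_lit 2) (nat_lit 0) (@Lb.g g8 (@Lb.g g9 (@Lb.r r322 (@Lb.r r1667 (@Lb.r r578 (@Lb.r r25 (@Lb.d (nat_lit 4) (nat_lit 82) (nat_lit 266) (@Lb.fp (nat_lit 3) t210)))))))))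
noncomputable def l11078 : Lb := (@Lb.d (nat_lit 8) (nat_lit 522) (nat_lit 74) (@Lb.g g9 (@Lb.g g10 (@Lb.g g11 (@Lb.r r2727 (@Lb.r r1368 (@Lb.r r2198 (@Lb.r r337 (@Lb.d (nat_lit 581) (nat_lit 148) (nat_lit 646) (@Lb.t (@Lb.fp (nat_lit 9) t50)))))))))))
noncomputable def l11079 : Lb := (@Lb.d (nat_lit 2) (nat_lit 258) (nat_lit 2) (@Lb.g g8 (@Lb.g g9 (@Lb.g g10 (@Lb.g g11 (@Lb.r r427 (@Lb.r r106 (@Lb.r r25 (@Lb.d (nat_lit 2) (nat_lit 10) (nat_lit 2) (@Lb.fp (nat_lit 9) t51))))))))))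
noncomputable def l11080 : Lb := (@Lb.d (nat_lit 0) (nat_lit 384) (nat_lit 2) (@Lb.r r98 (@Lb.r r1299 (@Lb.g g10 (@Lb.g g5 (@Lb.r r387 (@Lb.fp (nat_lit 3) t406)))))))
noncomputable def l11081 : Lb := (@Lb.r r82 (@Lb.r r275 (@Lb.d (nat_lit 2) (nat_lit 256) (nat_lit 0) (@Lb.g g8 (@Lb.g g9 (@Lb.r r299 (@Lb.r r106 (@Lb.r r25 (@Lb.d (nat_lit 4) (nat_lit 1) (nat_lit 0) (@Lb.fm (nat_lit 3) t2650))))))))))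
noncomputable def l11082 : Lb := (@Lb.r r82 (@Lb.r r275 (@Lb.d (nat_lit 2) (nat_lit 256) (nat_lit 0) (@Lb.g g8 (@Lb.g g9 (@Lb.r r299 (@Lb.r r106 (@Lb.r r97 (@Lb.d (nat_lit 38) (nat_lit 1) (nat_lit 2) (@Lb.fp (nat_lit 3) t594))))))))))
noncomputable def l11083 : Lb := (@Lb.d (nat_lit 4) (nat_lit 6) (nat_lit 2) (@Lb.g g5 (@Lb.g g10 (@Lb.r r1178 (@Lb.d (nat_lit 282) (nat_lit 72) (nat_lit 33) (@Lb.fm (nat_lit 3) t2651))))))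
noncomputable def l11084 : Lb := (@Lb.d (nat_lit 548) (nat_lit 262) (nat_lit 16) (@Lb.g g5 (@Lb.t (@Lb.fm (nat_lit 3) t360))))
noncomputable def l11085 : Lb := (@Lb.d (nat_lit 66) (nat_lit 280) (nat_lit 130) (@Lb.r r81 (@Lb.r r579 (@Lb.r r342 (@Lb.g g7 (@Lb.g g6 (@Lb.g g5 (@Lb.g g4 (@Lb.d (nat_lit 1) (nat_lit 8) (nat_lit 132) (@Lb.fm (nat_lit 9) t215))))))))))
noncomputable def l11086 : Lb := (@Lb.d (nat_lit 512) (nat_lit 0) (nat_lit 16) (@Lb.r r101 (@Lb.g g6 (@Lb.g g9 (@Lb.fm (nat_lit 3) t267)))))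
noncomputable def l11087 : Lb := (@Lb.d (nat_lit 548) (nat_lit 520) (nat_lit 18) (@Lb.g g5 (@Lb.d (nat_lit 0) (nat_lit 5) (nat_lit 0) (@Lb.t (@Lb.fm (nat_lit 3) t2066)))))
noncomputable def l11088 : Lb := (@Lb.d (nat_lit 4) (nat_lit 518) (nat_lit 2) (@Lb.g g5 (@Lb.g g10 (@Lb.r r1178 (@Lb.d (nat_lit 282) (nat_lit 65) (nat_lit 34) (@Lb.fm (nat_lit 3) t2129))))))
noncomputable def l11089 : Lb := (@Lb.r r82 (@Lb.d (nat_lit 2) (nat_lit 289) (nat_lit 8) (@Lb.g g8 (@Lb.g g9 (@Lb.g g7 (@Lb.r r2642 (@Lb.r r1361 (@Lb.r r2120 (@Lb.d (nat_lit 290) (nat_lit 162) (nat_lit 290) (@Lb.t (@Lb.fm (nat_lit 9) t2652)))))))))))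
noncomputable def l11090 : Lb := (@Lb.d (nat_lit 4) (nat_lit 0) (nat_lit 130) (@Lb.g g8 (@Lb.g g9 (@Lb.g g10 (@Lb.g g11 (@Lb.r r2666 (@Lb.r r579 (@Lb.r r25 (@Lb.d (nat_lit 9) (nat_lit 102) (nat_lit 672) (@Lb.fm (nat_lit 9) t295))))))))))
noncomputable def l11091 : Lb := (@Lb.d (nat_lit 4) (nat_lit 256) (nat_lit 72) (@Lb.g g8 (@Lb.g g9 (@Lb.g g11 (@Lb.r r1410 (@Lb.r r579 (@Lb.r r25 (@Lb.d (nat_lit 9) (nat_lit 146) (nat_lit 297) (@Lb.t (@Lb.fm (nat_lit 9) t210))))))))))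
noncomputable def l11092 : Lb := (@Lb.d (nat_lit 32) (nat_lit 522) (nat_lit 129) (@Lb.g g9 (@Lb.g g10 (@Lb.g g11 (@Lb.r r2695 (@Lb.r r2341 (@Lb.r r1352 (@Lb.r r2710 (@Lb.d (nat_lit 678) (nat_lit 160) (nat_lit 98) (@Lb.t (@Lb.fm (nat_lit 9) t98)))))))))))
noncomputable def l11093 : Lb := (@Lb.d (nat_lit 4) (nat_lit 512) (nat_lit 72) (@Lb.g g8 (@Lb.g g9 (@Lb.g g11 (@Lb.r r1410 (@Lb.r r579 (@Lb.r r25 (@Lb.d (nat_lit 0) (nat_lit 144) (nat_lit 297) (@Lb.t (@Lb.fm (nat_lit 9) t210))))))))))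
noncomputable def l11094 : Lb := (@Lb.r r70 (@Lb.d (nat_lit 2) (nat_lit 258) (nat_lit 128) (@Lb.g g8 (@Lb.g g9 (@Lb.g g11 (@Lb.r r1611 (@Lb.r r418 (@Lb.r r145 (@Lb.r r1060 (@Lb.d (nat_lit 326) (nat_lit 72) (nat_lit 546) (@Lb.t (@Lb.fm (nat_lit 9) t50))))))))))))
noncomputable def l11095 : Lb := (@Lb.d (nat_lit 4) (nat_lit 522) (nat_lit 129) (@Lb.g g8 (@Lb.g g9 (@Lb.g g10 (@Lb.g g11 (@Lb.r r2691 (@Lb.r r297 (@Lb.r r360 (@Lb.r r582 (@Lb.r r2180 (@Lb.d (nat_lit 642) (nat_lit 10) (nat_lit 329) (@Lb.fm (nat_lit 9) t98))))))))))))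
noncomputable def l11096 : Lb := (@Lb.d (nat_lit 0) (nat_lit 256) (nat_lit 73) (@Lb.g g9 (@Lb.g g10 (@Lb.g g11 (@Lb.r r586 (@Lb.r r328 (@Lb.r r535 (@Lb.r r289 (@Lb.d (nat_lit 8) (nat_lit 2) (nat_lit 0) (@Lb.t (@Lb.fp (nat_lit 9) t51)))))))))))
noncomputable def l11097 : Lb := (@Lb.d (nat_lit 9) (nat_lit 258) (nat_lit 130) (@Lb.g g8 (@Lb.g g9 (@Lb.g g10 (@Lb.g g11 (@Lb.r r682 (@Lb.r r680 (@Lb.r r555 (@Lb.r r529 (@Lb.r r36 (@Lb.d (nat_lit 2) (nat_lit 34) (nat_lit 74) (@Lb.fm (nat_lit 9) t51))))))))))))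
noncomputable def l11098 : Lb := (@Lb.d (nat_lit 9) (nat_lit 258) (nat_lit 130) (@Lb.g g8 (@Lb.g g9 (@Lb.g g10 (@Lb.g g11 (@Lb.r r682 (@Lb.r r680 (@Lb.r r555 (@Lb.r r529 (@Lb.r r36 (@Lb.d (nat_lit 10) (nat_lit 33) (nat_lit 74) (@Lb.fm (nat_lit 9) t51))))))))))))
noncomputable def l11099 : Lb := (@Lb.d (nat_lit 9) (nat_lit 256) (nat_lit 0) (@Lb.g g8 (@Lb.r r593 (@Lb.r r347 (@Lb.r r340 (@Lb.r r170 (@Lb.r r153 (@Lb.d (nat_lit 0) (nat_lit 0) (nat_lit 128) (@Lb.t (@Lb.fm (nat_lit 3) t2))))))))))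
noncomputable def l11100 : Lb := (@Lb.r r323 (@Lb.d (nat_lit 1) (nat_lit 256) (nat_lit 2) (@Lb.g g8 (@Lb.g g9 (@Lb.g g10 (@Lb.r r74 (@Lb.r r584 (@Lb.r r299 (@Lb.r r289 (@Lb.d (nat_lit 10) (nat_lit 136) (nat_lit 2) (@Lb.t (@Lb.fm (nat_lit 9) t51))))))))))))
noncomputable def l11101 : Lb := (@Lb.r r323 (@Lb.d (nat_lit 0) (nat_lit 256) (nat_lit 2) (@Lb.g g8 (@Lb.g g9 (@Lb.g g10 (@Lb.r r74 (@Lb.r r584 (@Lb.r r299 (@Lb.r r289 (@Lb.d (nat_lit 10) (nat_lit 129) (nat_lit 0) (@Lb.t (@Lb.fm (nat_lit 9) t51))))))))))))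
noncomputable def l11102 : Lb := (@Lb.d (nat_lit 4) (nat_lit 41) (nat_lit 65) (@Lb.g g8 (@Lb.g g9 (@Lb.g g10 (@Lb.g g11 (@Lb.r r1706 (@Lb.r r1700 (@Lb.r r1383 (@Lb.r r1365 (@Lb.d (nat_lit 340) (nat_lit 84) (nat_lit 406) (@Lb.fm (nat_lit 9) t68)))))))))))
noncomputable def l11103 : Lb := (@Lb.d (nat_lit 4) (nat_lit 298) (nat_lit 65) (@Lb.g g8 (@Lb.g g9 (@Lb.g g10 (@Lb.g g11 (@Lb.r r682 (@Lb.r r676 (@Lb.r r359 (@Lb.r r341 (@Lb.d (nat_lit 84) (nat_lit 20) (nat_lit 134) (@Lb.fm (nat_lit 9) t68)))))))))))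
noncomputable def l11104 : Lb := (@Lb.d (nat_lit 0) (nat_lit 512) (nat_lit 10) (@Lb.g g10 (@Lb.r r2643 (@Lb.r r401 (@Lb.r r2450 (@Lb.r r1096 (@Lb.d (nat_lit 0) (nat_lit 154) (nat_lit 265) (@Lb.t (@Lb.fm (nat_lit 3) t2169)))))))))
noncomputable def l11105 : Lb := (@Lb.d (nat_lit 2) (nat_lit 9) (nat_lit 1) (@Lb.g g8 (@Lb.g g9 (@Lb.g g10 (@Lb.g g11 (@Lb.r r1706 (@Lb.r r680 (@Lb.r r555 (@Lb.r r1553 (@Lb.r r2084 (@Lb.d (nat_lit 9) (nat_lit 97) (nat_lit 586) (@Lb.fm (nat_lit 9) t594))))))))))))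
noncomputable def l11106 : Lb := (@Lb.d (nat_lit 2) (nat_lit 265) (nat_lit 1) (@Lb.g g8 (@Lb.g g9 (@Lb.g g10 (@Lb.g g11 (@Lb.r r1706 (@Lb.r r680 (@Lb.r r555 (@Lb.r r1553 (@Lb.r r2084 (@Lb.d (nat_lit 4) (nat_lit 96) (nat_lit 586) (@Lb.fm (nat_lit 9) t264))))))))))))
noncomputable def l11107 : Lb := (@Lb.d (nat_lit 2) (nat_lit 514) (nat_lit 130) (@Lb.g g8 (@Lb.g g9 (@Lb.g g10 (@Lb.g g11 (@Lb.r r427 (@Lb.r r145 (@Lb.r r356 (@Lb.r r154 (@Lb.r r132 (@Lb.d (nat_lit 9) (nat_lit 2) (nat_lit 16) (@Lb.fm (nat_lit 9) t221))))))))))))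
noncomputable def l11108 : Lb := (@Lb.d (nat_lit 2) (nat_lit 521) (nat_lit 129) (@Lb.g g8 (@Lb.g g9 (@Lb.g g10 (@Lb.g g11 (@Lb.r r1706 (@Lb.r r680 (@Lb.r r555 (@Lb.r r1553 (@Lb.r r2084 (@Lb.d (nat_lit 4) (nat_lit 96) (nat_lit 586) (@Lb.fm (nat_lit 9) t264))))))))))))
noncomputable def l11109 : Lb := (@Lb.d (nat_lit 646) (nat_lit 598) (nat_lit 18) (@Lb.r r1301 (@Lb.r r1366 (@Lb.r r683 (@Lb.g g6 (@Lb.g g5 (@Lb.g g4 (@Lb.d (nat_lit 1) (nat_lit 1) (nat_lit 1) (@Lb.t (@Lb.fm (nat_lit 9) t578))))))))))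
noncomputable def l11110 : Lb := (@Lb.r r82 (@Lb.r r275 (@Lb.d (nat_lit 33) (nat_lit 538) (nat_lit 0) (@Lb.g g8 (@Lb.g g9 (@Lb.r r427 (@Lb.r r582 (@Lb.r r408 (@Lb.d (nat_lit 137) (nat_lit 25) (nat_lit 153) (@Lb.fp (nat_lit 3) t573))))))))))
noncomputable def l11111 : Lb := (@Lb.d (nat_lit 390) (nat_lit 662) (nat_lit 530) (@Lb.r r2325 (@Lb.r r2390 (@Lb.r r2731 (@Lb.g g6 (@Lb.g g5 (@Lb.g g4 (@Lb.d (nat_lit 1) (nat_lit 0) (nat_lit 1) (@Lb.t (@Lb.fm (nat_lit 9) t578))))))))))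
noncomputable def l11112 : Lb := (@Lb.d (nat_lit 32) (nat_lit 512) (nat_lit 144) (@Lb.g g10 (@Lb.g g11 (@Lb.r r387 (@Lb.d (nat_lit 16) (nat_lit 0) (nat_lit 41) (@Lb.fm (nat_lit 3) t2653))))))
noncomputable def l11113 : Lb := (@Lb.d (nat_lit 294) (nat_lit 326) (nat_lit 33) (@Lb.r r1416 (@Lb.r r2329 (@Lb.r r2375 (@Lb.r r2722 (@Lb.g g7 (@Lb.g g6 (@Lb.g g5 (@Lb.d (nat_lit 0) (nat_lit 0) (nat_lit 64) (@Lb.t (@Lb.fp (nat_lit 9) t1965)))))))))))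
noncomputable def l11114 : Lb := (@Lb.d (nat_lit 516) (nat_lit 130) (nat_lit 1) (@Lb.r r1416 (@Lb.r r1386 (@Lb.r r1369 (@Lb.r r1703 (@Lb.g g6 (@Lb.g g5 (@Lb.d (nat_lit 0) (nat_lit 0) (nat_lit 1) (@Lb.fm (nat_lit 3) t2654)))))))))
noncomputable def l11115 : Lb := (@Lb.d (nat_lit 2) (nat_lit 514) (nat_lit 2) (@Lb.g g8 (@Lb.g g9 (@Lb.g g10 (@Lb.g g11 (@Lb.r r683 (@Lb.r r648 (@Lb.r r2202 (@Lb.r r97 (@Lb.r r2084 (@Lb.d (nat_lit 545) (nat_lit 105) (nat_lit 673) (@Lb.fp (nat_lit 9) t296))))))))))))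
noncomputable def l11116 : Lb := (@Lb.d (nat_lit 65) (nat_lit 0) (nat_lit 662) (@Lb.r r24 (@Lb.r r101 (@Lb.r r2658 (@Lb.r r2467 (@Lb.g g7 (@Lb.g g6 (@Lb.g g5 (@Lb.d (nat_lit 0) (nat_lit 0) (nat_lit 8) (@Lb.t (@Lb.fp (nat_lit 9) t719)))))))))))
noncomputable def l11117 : Lb := (@Lb.d (nat_lit 0) (nat_lit 2) (nat_lit 130) (@Lb.g g9 (@Lb.g g10 (@Lb.g g11 (@Lb.r r1443 (@Lb.r r536 (@Lb.r r357 (@Lb.r r154 (@Lb.r r132 (@Lb.d (nat_lit 80) (nat_lit 68) (nat_lit 136) (@Lb.t (@Lb.fp (nat_lit 9) t646))))))))))))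
noncomputable def l11118 : Lb := (@Lb.d (nat_lit 2) (nat_lit 9) (nat_lit 65) (@Lb.g g8 (@Lb.g g9 (@Lb.g g10 (@Lb.g g7 (@Lb.r r2466 (@Lb.r r292 (@Lb.r r405 (@Lb.r r2084 (@Lb.d (nat_lit 609) (nat_lit 90) (nat_lit 345) (@Lb.fp (nat_lit 9) t2655)))))))))))
noncomputable def l11119 : Lb := (@Lb.r r101 (@Lb.r r24 (@Lb.d (nat_lit 514) (nat_lit 256) (nat_lit 32) (@Lb.fp (nat_lit 1) t319))))
noncomputable def l11120 : Lb := (@Lb.d (nat_lit 0) (nat_lit 330) (nat_lit 90) (@Lb.r r101 (@Lb.r r24 (@Lb.r r323 (@Lb.g g7 (@Lb.g g6 (@Lb.d (nat_lit 0) (nat_lit 0) (nat_lit 64) (@Lb.fm (nat_lit 3) t318))))))))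
noncomputable def l11121 : Lb := (@Lb.r r82 (@Lb.d (nat_lit 34) (nat_lit 2) (nat_lit 128) (@Lb.g g8 (@Lb.g g9 (@Lb.g g11 (@Lb.r r1571 (@Lb.r r582 (@Lb.r r1177 (@Lb.r r408 (@Lb.d (nat_lit 345) (nat_lit 26) (nat_lit 586) (@Lb.t (@Lb.fm (nat_lit 9) t264))))))))))))
noncomputable def l11122 : Lb := (@Lb.d (nat_lit 425) (nat_lit 137) (nat_lit 273) (@Lb.r r1604 (@Lb.r r535 (@Lb.r r353 (@Lb.g g7 (@Lb.g g6 (@Lb.g g4 (@Lb.d (nat_lit 2) (nat_lit 16) (nat_lit 165) (@Lb.t (@Lb.fp (nat_lit 9) t1981))))))))))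
noncomputable def l11123 : Lb := (@Lb.d (nat_lit 160) (nat_lit 520) (nat_lit 74) (@Lb.g g10 (@Lb.g g11 (@Lb.r r105 (@Lb.r r280 (@Lb.r r1623 (@Lb.r r346 (@Lb.d (nat_lit 148) (nat_lit 144) (nat_lit 164) (@Lb.fp (nat_lit 3) t2321)))))))))
noncomputable def l11124 : Lb := (@Lb.d (nat_lit 2) (nat_lit 2) (nat_lit 130) (@Lb.g g8 (@Lb.g g9 (@Lb.g g10 (@Lb.g g11 (@Lb.r r1443 (@Lb.r r1414 (@Lb.r r97 (@Lb.r r24 (@Lb.d (nat_lit 149) (nat_lit 36) (nat_lit 681) (@Lb.fm (nat_lit 9) t2240)))))))))))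
noncomputable def l11125 : Lb := (@Lb.d (nat_lit 128) (nat_lit 514) (nat_lit 128) (@Lb.g g9 (@Lb.g g11 (@Lb.r r533 (@Lb.r r292 (@Lb.r r539 (@Lb.r r134 (@Lb.d (nat_lit 73) (nat_lit 68) (nat_lit 257) (@Lb.fm (nat_lit 3) t2244)))))))))
noncomputable def l11126 : Lb := (@Lb.d (nat_lit 682) (nat_lit 137) (nat_lit 273) (@Lb.r r1604 (@Lb.r r535 (@Lb.r r353 (@Lb.g g7 (@Lb.g g6 (@Lb.g g4 (@Lb.d (nat_lit 4) (nat_lit 16) (nat_lit 165) (@Lb.t (@Lb.fp (nat_lit 9) t927))))))))))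
noncomputable def l11127 : Lb := (@Lb.d (nat_lit 128) (nat_lit 4) (nat_lit 74) (@Lb.g g8 (@Lb.g g9 (@Lb.g g10 (@Lb.g g11 (@Lb.r r407 (@Lb.r r408 (@Lb.r r1194 (@Lb.r r425 (@Lb.r r2084 (@Lb.d (nat_lit 290) (nat_lit 41) (nat_lit 656) (@Lb.fm (nat_lit 9) t269))))))))))))
noncomputable def l11128 : Lb := (@Lb.d (nat_lit 0) (nat_lit 522) (nat_lit 64) (@Lb.g g9 (@Lb.g g11 (@Lb.r r1114 (@Lb.r r1364 (@Lb.r r2331 (@Lb.r r2401 (@Lb.d (nat_lit 409) (nat_lit 70) (nat_lit 352) (@Lb.fp (nat_lit 3) t1036)))))))))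
noncomputable def l11129 : Lb := (@Lb.d (nat_lit 0) (nat_lit 266) (nat_lit 64) (@Lb.g g9 (@Lb.g g11 (@Lb.r r1114 (@Lb.r r1364 (@Lb.r r2331 (@Lb.r r2401 (@Lb.d (nat_lit 409) (nat_lit 72) (nat_lit 353) (@Lb.fp (nat_lit 3) t1036)))))))))
noncomputable def l11130 : Lb := (@Lb.d (nat_lit 168) (nat_lit 273) (nat_lit 660) (@Lb.r r296 (@Lb.r r2153 (@Lb.r r2659 (@Lb.g g10 (@Lb.g g5 (@Lb.g g4 (@Lb.d (nat_lit 101) (nat_lit 2) (nat_lit 1) (@Lb.t (@Lb.fp (nat_lit 9) t2244))))))))))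
noncomputable def l11131 : Lb := (@Lb.d (nat_lit 129) (nat_lit 258) (nat_lit 73) (@Lb.g g8 (@Lb.g g9 (@Lb.g g10 (@Lb.g g11 (@Lb.r r599 (@Lb.r r1706 (@Lb.r r1625 (@Lb.r r1604 (@Lb.d (nat_lit 409) (nat_lit 9) (nat_lit 290) (@Lb.fp (nat_lit 9) t394)))))))))))
noncomputable def l11132 : Lb := (@Lb.d (nat_lit 1) (nat_lit 578) (nat_lit 0) (@Lb.fp (nat_lit 1) t2))
noncomputable def l11133 : Lb := (@Lb.r r323 (@Lb.d (nat_lit 128) (nat_lit 8) (nat_lit 34) (@Lb.g g8 (@Lb.g g10 (@Lb.r r615 (@Lb.r r2145 (@Lb.r r2312 (@Lb.d (nat_lit 393) (nat_lit 130) (nat_lit 642) (@Lb.fp (nat_lit 3) t51)))))))))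
noncomputable def l11134 : Lb := (@Lb.d (nat_lit 5) (nat_lit 576) (nat_lit 0) (@Lb.g g5 (@Lb.d (nat_lit 0) (nat_lit 129) (nat_lit 0) (@Lb.t (@Lb.fm (nat_lit 3) t2)))))
noncomputable def l11135 : Lb := (@Lb.d (nat_lit 6) (nat_lit 10) (nat_lit 0) (@Lb.r r85 (@Lb.r r36 (@Lb.r r579 (@Lb.r r1410 (@Lb.g g7 (@Lb.d (nat_lit 0) (nat_lit 0) (nat_lit 132) (@Lb.t (@Lb.fm (nat_lit 3) t2656)))))))))
noncomputable def l11136 : Lb := (@Lb.r r323 (@Lb.d (nat_lit 1) (nat_lit 2) (nat_lit 2) (@Lb.g g8 (@Lb.g g9 (@Lb.g g10 (@Lb.r r74 (@Lb.r r584 (@Lb.r r1323 (@Lb.r r1313 (@Lb.d (nat_lit 10) (nat_lit 138) (nat_lit 258) (@Lb.t (@Lb.fm (nat_lit 9) t51))))))))))))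
noncomputable def l11137 : Lb := (@Lb.r r323 (@Lb.d (nat_lit 0) (nat_lit 257) (nat_lit 2) (@Lb.g g8 (@Lb.g g9 (@Lb.g g10 (@Lb.r r1425 (@Lb.r r299 (@Lb.r r392 (@Lb.r r74 (@Lb.d (nat_lit 289) (nat_lit 10) (nat_lit 138) (@Lb.t (@Lb.fp (nat_lit 9) t61))))))))))))
noncomputable def l11138 : Lb := (@Lb.d (nat_lit 0) (nat_lit 257) (nat_lit 73) (@Lb.g g8 (@Lb.g g9 (@Lb.g g10 (@Lb.g g11 (@Lb.r r1451 (@Lb.r r1701 (@Lb.r r340 (@Lb.r r170 (@Lb.d (nat_lit 277) (nat_lit 8) (nat_lit 137) (@Lb.fp (nat_lit 9) t61)))))))))))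
noncomputable def l11139 : Lb := (@Lb.d (nat_lit 401) (nat_lit 292) (nat_lit 105) (@Lb.r r8 (@Lb.r r657 (@Lb.r r595 (@Lb.g g6 (@Lb.g g5 (@Lb.d (nat_lit 0) (nat_lit 17) (nat_lit 33) (@Lb.r r387 (@Lb.fm (nat_lit 3) t1889)))))))))
noncomputable def l11140 : Lb := (@Lb.r r322 (@Lb.d (nat_lit 33) (nat_lit 32) (nat_lit 128) (@Lb.g g8 (@Lb.g g11 (@Lb.r r422 (@Lb.r r289 (@Lb.r r84 (@Lb.d (nat_lit 21) (nat_lit 102) (nat_lit 322) (@Lb.fm (nat_lit 3) t51)))))))))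
noncomputable def l11141 : Lb := (@Lb.d (nat_lit 164) (nat_lit 10) (nat_lit 0) (@Lb.g g8 (@Lb.g g9 (@Lb.r r391 (@Lb.r r2642 (@Lb.r r677 (@Lb.r r2580 (@Lb.d (nat_lit 293) (nat_lit 162) (nat_lit 146) (@Lb.fp (nat_lit 3) t2)))))))))
noncomputable def l11142 : Lb := (@Lb.d (nat_lit 129) (nat_lit 4) (nat_lit 5) (@Lb.g g8 (@Lb.g g9 (@Lb.g g10 (@Lb.g g11 (@Lb.r r683 (@Lb.r r618 (@Lb.r r537 (@Lb.r r516 (@Lb.d (nat_lit 137) (nat_lit 2) (nat_lit 130) (@Lb.fm (nat_lit 9) t1220)))))))))))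
noncomputable def l11143 : Lb := (@Lb.d (nat_lit 170) (nat_lit 518) (nat_lit 66) (@Lb.g g8 (@Lb.g g9 (@Lb.g g10 (@Lb.g g11 (@Lb.r r683 (@Lb.r r618 (@Lb.r r601 (@Lb.r r596 (@Lb.d (nat_lit 149) (nat_lit 36) (nat_lit 136) (@Lb.fm (nat_lit 9) t841)))))))))))
noncomputable def l11144 : Lb := (@Lb.d (nat_lit 9) (nat_lit 33) (nat_lit 66) (@Lb.g g8 (@Lb.g g9 (@Lb.g g10 (@Lb.g g11 (@Lb.r r682 (@Lb.r r676 (@Lb.r r551 (@Lb.r r533 (@Lb.d (nat_lit 132) (nat_lit 32) (nat_lit 74) (@Lb.fp (nat_lit 9) t264)))))))))))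
noncomputable def l11145 : Lb := (@Lb.d (nat_lit 170) (nat_lit 6) (nat_lit 66) (@Lb.g g8 (@Lb.g g9 (@Lb.g g10 (@Lb.g g11 (@Lb.r r683 (@Lb.r r618 (@Lb.r r601 (@Lb.r r596 (@Lb.d (nat_lit 148) (nat_lit 36) (nat_lit 136) (@Lb.fm (nat_lit 9) t2657)))))))))))
noncomputable def l11146 : Lb := (@Lb.d (nat_lit 37) (nat_lit 264) (nat_lit 1) (@Lb.r r24 (@Lb.r r97 (@Lb.r r406 (@Lb.r r323 (@Lb.g g7 (@Lb.g g6 (@Lb.g g5 (@Lb.d (nat_lit 0) (nat_lit 1) (nat_lit 64) (@Lb.t (@Lb.fm (nat_lit 9) t522)))))))))))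
noncomputable def l11147 : Lb := (@Lb.d (nat_lit 129) (nat_lit 260) (nat_lit 128) (@Lb.g g8 (@Lb.g g9 (@Lb.g g10 (@Lb.g g11 (@Lb.r r683 (@Lb.r r618 (@Lb.r r537 (@Lb.r r516 (@Lb.d (nat_lit 137) (nat_lit 2) (nat_lit 130) (@Lb.fm (nat_lit 9) t1220)))))))))))
noncomputable def l11148 : Lb := (@Lb.r r21 (@Lb.r r70 (@Lb.r r263 (@Lb.d (nat_lit 549) (nat_lit 0) (nat_lit 0) (@Lb.g g4 (@Lb.r r267 (@Lb.r r74 (@Lb.r r25 (@Lb.d (nat_lit 280) (nat_lit 10) (nat_lit 2) (@Lb.t (@Lb.fm (nat_lit 3) t2658)))))))))))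
noncomputable def l11149 : Lb := (@Lb.d (nat_lit 0) (nat_lit 264) (nat_lit 130) (@Lb.g g8 (@Lb.g g10 (@Lb.g g11 (@Lb.r r545 (@Lb.r r299 (@Lb.r r356 (@Lb.r r154 (@Lb.d (nat_lit 10) (nat_lit 10) (nat_lit 160) (@Lb.t (@Lb.fm (nat_lit 9) t167)))))))))))
noncomputable def l11150 : Lb := (@Lb.d (nat_lit 18) (nat_lit 65) (nat_lit 33) (@Lb.r r24 (@Lb.r r2201 (@Lb.r r386 (@Lb.r r2411 (@Lb.g g7 (@Lb.g g5 (@Lb.d (nat_lit 0) (nat_lit 32) (nat_lit 0) (@Lb.r r98 (@Lb.fm (nat_lit 3) t801))))))))))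
noncomputable def l11151 : Lb := (@Lb.r r21 (@Lb.d (nat_lit 129) (nat_lit 256) (nat_lit 130) (@Lb.g g8 (@Lb.g g10 (@Lb.g g11 (@Lb.r r1691 (@Lb.r r1689 (@Lb.r r1370 (@Lb.r r1348 (@Lb.d (nat_lit 393) (nat_lit 25) (nat_lit 650) (@Lb.t (@Lb.fp (nat_lit 9) t1972))))))))))))
noncomputable def l11152 : Lb := (@Lb.d (nat_lit 0) (nat_lit 512) (nat_lit 130) (@Lb.g g8 (@Lb.g g10 (@Lb.g g11 (@Lb.r r648 (@Lb.r r683 (@Lb.r r2634 (@Lb.r r1057 (@Lb.r r516 (@Lb.d (nat_lit 544) (nat_lit 9) (nat_lit 161) (@Lb.t (@Lb.fp (nat_lit 9) t2659))))))))))))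
noncomputable def l11153 : Lb := (@Lb.d (nat_lit 5) (nat_lit 138) (nat_lit 0) (@Lb.r r24 (@Lb.r r386 (@Lb.r r1619 (@Lb.g g9 (@Lb.d (nat_lit 0) (nat_lit 2) (nat_lit 0) (@Lb.r r291 (@Lb.r r98 (@Lb.t (@Lb.fm (nat_lit 3) t711))))))))))
noncomputable def l11154 : Lb := (@Lb.r r609 (@Lb.r r2659 (@Lb.r r338 (@Lb.r r2705 (@Lb.r r24 (@Lb.d (nat_lit 8) (nat_lit 130) (nat_lit 0) (@Lb.fm (nat_lit 1) t1495)))))))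
noncomputable def l11155 : Lb := (@Lb.d (nat_lit 1) (nat_lit 0) (nat_lit 0) (@Lb.g g4 (@Lb.r r1291 (@Lb.r r1098 (@Lb.r r1049 (@Lb.d (nat_lit 18) (nat_lit 0) (nat_lit 32) (@Lb.t (@Lb.fm (nat_lit 3) t396))))))))
noncomputable def l11156 : Lb := (@Lb.r r609 (@Lb.r r2659 (@Lb.r r338 (@Lb.r r2705 (@Lb.r r24 (@Lb.d (nat_lit 0) (nat_lit 128) (nat_lit 0) (@Lb.fm (nat_lit 1) t1222)))))))
noncomputable def l11157 : Lb := (@Lb.r r323 (@Lb.d (nat_lit 0) (nat_lit 10) (nat_lit 1) (@Lb.g g9 (@Lb.g g10 (@Lb.r r1371 (@Lb.r r2209 (@Lb.r r2196 (@Lb.r r2214 (@Lb.d (nat_lit 8) (nat_lit 8) (nat_lit 16) (@Lb.fm (nat_lit 3) t1506))))))))))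
noncomputable def l11158 : Lb := (@Lb.d (nat_lit 274) (nat_lit 256) (nat_lit 128) (@Lb.g g4 (@Lb.g g9 (@Lb.g g10 (@Lb.g g11 (@Lb.r r2467 (@Lb.r r401 (@Lb.r r2130 (@Lb.r r2193 (@Lb.d (nat_lit 1) (nat_lit 73) (nat_lit 18) (@Lb.fm (nat_lit 9) t2474)))))))))))
noncomputable def l11159 : Lb := (@Lb.d (nat_lit 2) (nat_lit 514) (nat_lit 130) (@Lb.g g8 (@Lb.g g9 (@Lb.g g10 (@Lb.g g11 (@Lb.r r2467 (@Lb.r r168 (@Lb.r r426 (@Lb.r r1177 (@Lb.r r1156 (@Lb.d (nat_lit 521) (nat_lit 102) (nat_lit 8) (@Lb.fp (nat_lit 9) t1927))))))))))))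
noncomputable def l11160 : Lb := (@Lb.d (nat_lit 161) (nat_lit 517) (nat_lit 681) (@Lb.r r2635 (@Lb.r r2438 (@Lb.r r1620 (@Lb.r r1193 (@Lb.g g5 (@Lb.g g4 (@Lb.d (nat_lit 1) (nat_lit 1) (nat_lit 0) (@Lb.fp (nat_lit 3) t2660)))))))))
noncomputable def l11161 : Lb := (@Lb.d (nat_lit 2) (nat_lit 513) (nat_lit 128) (@Lb.g g8 (@Lb.g g9 (@Lb.g g10 (@Lb.g g11 (@Lb.r r1555 (@Lb.r r425 (@Lb.r r1188 (@Lb.r r1158 (@Lb.d (nat_lit 610) (nat_lit 10) (nat_lit 321) (@Lb.fm (nat_lit 9) t2087)))))))))))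
noncomputable def l11162 : Lb := (@Lb.d (nat_lit 2) (nat_lit 2) (nat_lit 130) (@Lb.g g8 (@Lb.g g9 (@Lb.g g10 (@Lb.g g11 (@Lb.r r1699 (@Lb.r r164 (@Lb.r r614 (@Lb.r r2149 (@Lb.r r1156 (@Lb.d (nat_lit 512) (nat_lit 98) (nat_lit 74) (@Lb.fp (nat_lit 9) t2542))))))))))))
noncomputable def l11163 : Lb := (@Lb.d (nat_lit 402) (nat_lit 352) (nat_lit 390) (@Lb.r r547 (@Lb.r r2709 (@Lb.r r150 (@Lb.g g7 (@Lb.g g5 (@Lb.g g4 (@Lb.d (nat_lit 8) (nat_lit 5) (nat_lit 4) (@Lb.t (@Lb.fp (nat_lit 9) t1222))))))))))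
noncomputable def l11164 : Lb := (@Lb.d (nat_lit 32) (nat_lit 514) (nat_lit 130) (@Lb.g g8 (@Lb.g g9 (@Lb.g g10 (@Lb.g g11 (@Lb.r r2667 (@Lb.r r1610 (@Lb.r r145 (@Lb.r r580 (@Lb.d (nat_lit 410) (nat_lit 130) (nat_lit 138) (@Lb.fm (nat_lit 9) t394)))))))))))
noncomputable def l11165 : Lb := (@Lb.d (nat_lit 4) (nat_lit 1) (nat_lit 128) (@Lb.g g5 (@Lb.g g11 (@Lb.r r2651 (@Lb.r r1126 (@Lb.r r24 (@Lb.d (nat_lit 18) (nat_lit 1) (nat_lit 161) (@Lb.fp (nat_lit 3) t1025))))))))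
noncomputable def l11166 : Lb := (@Lb.r r82 (@Lb.r r275 (@Lb.d (nat_lit 2) (nat_lit 25) (nat_lit 0) (@Lb.g g8 (@Lb.g g5 (@Lb.r r2406 (@Lb.r r1684 (@Lb.r r1559 (@Lb.d (nat_lit 386) (nat_lit 1) (nat_lit 586) (@Lb.fm (nat_lit 3) t2661))))))))))
noncomputable def l11167 : Lb := (@Lb.d (nat_lit 0) (nat_lit 266) (nat_lit 2) (@Lb.r r2210 (@Lb.r r1185 (@Lb.g g7 (@Lb.g g10 (@Lb.fp (nat_lit 3) t543))))))
noncomputable def l11168 : Lb := (@Lb.d (nat_lit 1) (nat_lit 258) (nat_lit 130) (@Lb.g g8 (@Lb.g g9 (@Lb.g g10 (@Lb.g g11 (@Lb.r r427 (@Lb.r r386 (@Lb.r r97 (@Lb.r r24 (@Lb.d (nat_lit 69) (nat_lit 170) (nat_lit 329) (@Lb.fm (nat_lit 9) t139)))))))))))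
noncomputable def l11169 : Lb := (@Lb.d (nat_lit 2) (nat_lit 258) (nat_lit 0) (@Lb.g g8 (@Lb.g g9 (@Lb.g g10 (@Lb.r r679 (@Lb.r r1634 (@Lb.r r25 (@Lb.d (nat_lit 260) (nat_lit 153) (nat_lit 297) (@Lb.t (@Lb.fp (nat_lit 9) t2662))))))))))
noncomputable def l11170 : Lb := (@Lb.d (nat_lit 0) (nat_lit 0) (nat_lit 68) (@Lb.g g7 (@Lb.d (nat_lit 0) (nat_lit 0) (nat_lit 136) (@Lb.t (@Lb.fm (nat_lit 3) t2)))))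
noncomputable def l11171 : Lb := (@Lb.r r323 (@Lb.d (nat_lit 161) (nat_lit 516) (nat_lit 34) (@Lb.g g8 (@Lb.g g9 (@Lb.g g6 (@Lb.r r407 (@Lb.r r97 (@Lb.r r516 (@Lb.d (nat_lit 130) (nat_lit 138) (nat_lit 128) (@Lb.t (@Lb.fm (nat_lit 9) t789)))))))))))
noncomputable def l11172 : Lb := (@Lb.d (nat_lit 2) (nat_lit 265) (nat_lit 129) (@Lb.g g8 (@Lb.g g9 (@Lb.g g10 (@Lb.g g11 (@Lb.r r427 (@Lb.r r424 (@Lb.r r106 (@Lb.r r97 (@Lb.d (nat_lit 9) (nat_lit 9) (nat_lit 2) (@Lb.fp (nat_lit 9) t594)))))))))))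
noncomputable def l11173 : Lb := (@Lb.d (nat_lit 298) (nat_lit 592) (nat_lit 82) (@Lb.r r1158 (@Lb.r r2132 (@Lb.r r281 (@Lb.r r1699 (@Lb.g g7 (@Lb.g g6 (@Lb.g g5 (@Lb.d (nat_lit 0) (nat_lit 1) (nat_lit 134) (@Lb.t (@Lb.fp (nat_lit 9) t1039)))))))))))
noncomputable def l11174 : Lb := (@Lb.d (nat_lit 2) (nat_lit 2) (nat_lit 130) (@Lb.g g8 (@Lb.g g9 (@Lb.g g10 (@Lb.g g11 (@Lb.r r427 (@Lb.r r424 (@Lb.r r106 (@Lb.r r97 (@Lb.d (nat_lit 9) (nat_lit 9) (nat_lit 2) (@Lb.fp (nat_lit 9) t51)))))))))))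
noncomputable def l11175 : Lb := (@Lb.d (nat_lit 646) (nat_lit 288) (nat_lit 320) (@Lb.r r1313 (@Lb.r r1378 (@Lb.r r279 (@Lb.g g7 (@Lb.g g5 (@Lb.g g4 (@Lb.d (nat_lit 1) (nat_lit 18) (nat_lit 64) (@Lb.r r98 (@Lb.t (@Lb.fm (nat_lit 9) t2663)))))))))))
noncomputable def l11176 : Lb := (@Lb.d (nat_lit 388) (nat_lit 416) (nat_lit 576) (@Lb.r r2341 (@Lb.r r2406 (@Lb.r r283 (@Lb.g g7 (@Lb.g g5 (@Lb.g g8 (@Lb.d (nat_lit 9) (nat_lit 17) (nat_lit 64) (@Lb.r r98 (@Lb.t (@Lb.fp (nat_lit 9) t148)))))))))))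
noncomputable def l11177 : Lb := (@Lb.r r322 (@Lb.d (nat_lit 0) (nat_lit 514) (nat_lit 576) (@Lb.g g4 (@Lb.g g9 (@Lb.g g7 (@Lb.r r417 (@Lb.r r98 (@Lb.d (nat_lit 1) (nat_lit 80) (nat_lit 37) (@Lb.t (@Lb.fp (nat_lit 9) t311))))))))))
noncomputable def l11178 : Lb := (@Lb.d (nat_lit 257) (nat_lit 5) (nat_lit 18) (@Lb.r r2663 (@Lb.r r601 (@Lb.r r2200 (@Lb.r r2122 (@Lb.g g7 (@Lb.g g5 (@Lb.g g4 (@Lb.d (nat_lit 16) (nat_lit 5) (nat_lit 68) (@Lb.t (@Lb.fp (nat_lit 9) t2664)))))))))))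
noncomputable def l11179 : Lb := (@Lb.d (nat_lit 133) (nat_lit 518) (nat_lit 70) (@Lb.r r24 (@Lb.r r97 (@Lb.r r386 (@Lb.r r343 (@Lb.g g7 (@Lb.g g6 (@Lb.g g5 (@Lb.d (nat_lit 0) (nat_lit 1) (nat_lit 129) (@Lb.t (@Lb.fm (nat_lit 9) t2545)))))))))))
noncomputable def l11180 : Lb := (@Lb.d (nat_lit 0) (nat_lit 0) (nat_lit 128) (@Lb.g g11 (@Lb.r r593 (@Lb.r r2587 (@Lb.r r2178 (@Lb.r r2584 (@Lb.d (nat_lit 530) (nat_lit 64) (nat_lit 32) (@Lb.t (@Lb.fm (nat_lit 3) t417)))))))))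
noncomputable def l11181 : Lb := (@Lb.d (nat_lit 169) (nat_lit 97) (nat_lit 74) (@Lb.r r680 (@Lb.r r2178 (@Lb.r r1307 (@Lb.g g9 (@Lb.g g4 (@Lb.d (nat_lit 65) (nat_lit 70) (nat_lit 0) (@Lb.fp (nat_lit 3) t1385))))))))
noncomputable def l11182 : Lb := (@Lb.d (nat_lit 1) (nat_lit 342) (nat_lit 354) (@Lb.r r101 (@Lb.r r24 (@Lb.r r1610 (@Lb.r r1419 (@Lb.g g7 (@Lb.g g6 (@Lb.g g5 (@Lb.d (nat_lit 4) (nat_lit 1) (nat_lit 8) (@Lb.t (@Lb.fp (nat_lit 9) t2389)))))))))))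
noncomputable def l11183 : Lb := (@Lb.d (nat_lit 9) (nat_lit 32) (nat_lit 72) (@Lb.g g8 (@Lb.g g9 (@Lb.g g10 (@Lb.g g11 (@Lb.r r2724 (@Lb.r r2471 (@Lb.r r2730 (@Lb.r r2341 (@Lb.d (nat_lit 578) (nat_lit 73) (nat_lit 164) (@Lb.fp (nat_lit 9) t2665)))))))))))
noncomputable def l11184 : Lb := (@Lb.d (nat_lit 146) (nat_lit 514) (nat_lit 130) (@Lb.g g8 (@Lb.g g9 (@Lb.g g10 (@Lb.g g11 (@Lb.r r2731 (@Lb.r r1382 (@Lb.r r1561 (@Lb.r r1540 (@Lb.d (nat_lit 16) (nat_lit 73) (nat_lit 257) (@Lb.fm (nat_lit 9) t531)))))))))))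
noncomputable def l11185 : Lb := (@Lb.d (nat_lit 0) (nat_lit 129) (nat_lit 576) (@Lb.r r24 (@Lb.r r2321 (@Lb.r r2386 (@Lb.r r2595 (@Lb.g g7 (@Lb.g g5 (@Lb.d (nat_lit 0) (nat_lit 32) (nat_lit 64) (@Lb.r r98 (@Lb.fm (nat_lit 3) t2666))))))))))
noncomputable def l11186 : Lb := (@Lb.d (nat_lit 0) (nat_lit 512) (nat_lit 128) (@Lb.g g11 (@Lb.r r1602 (@Lb.r r579 (@Lb.r r1425 (@Lb.r r1432 (@Lb.d (nat_lit 0) (nat_lit 64) (nat_lit 6) (@Lb.t (@Lb.fp (nat_lit 3) t2667)))))))))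
noncomputable def l11187 : Lb := (@Lb.d (nat_lit 261) (nat_lit 513) (nat_lit 96) (@Lb.r r134 (@Lb.r r328 (@Lb.r r663 (@Lb.r r353 (@Lb.g g7 (@Lb.g g5 (@Lb.g g4 (@Lb.d (nat_lit 6) (nat_lit 1) (nat_lit 128) (@Lb.t (@Lb.fp (nat_lit 9) t869)))))))))))
noncomputable def l11188 : Lb := (@Lb.d (nat_lit 1) (nat_lit 0) (nat_lit 128) (@Lb.g g8 (@Lb.g g11 (@Lb.r r593 (@Lb.r r2583 (@Lb.r r2178 (@Lb.r r1316 (@Lb.d (nat_lit 402) (nat_lit 144) (nat_lit 608) (@Lb.fm (nat_lit 3) t1385)))))))))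
noncomputable def l11189 : Lb := (@Lb.d (nat_lit 0) (nat_lit 0) (nat_lit 128) (@Lb.g g11 (@Lb.r r1602 (@Lb.r r579 (@Lb.r r1425 (@Lb.r r1432 (@Lb.d (nat_lit 0) (nat_lit 64) (nat_lit 129) (@Lb.t (@Lb.fp (nat_lit 3) t2667)))))))))
noncomputable def l11190 : Lb := (@Lb.d (nat_lit 0) (nat_lit 544) (nat_lit 388) (@Lb.g g11 (@Lb.r r154 (@Lb.r r101 (@Lb.r r1416 (@Lb.d (nat_lit 260) (nat_lit 128) (nat_lit 384) (@Lb.t (@Lb.fm (nat_lit 3) t899))))))))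
noncomputable def l11191 : Lb := (@Lb.r r82 (@Lb.d (nat_lit 0) (nat_lit 273) (nat_lit 132) (@Lb.g g9 (@Lb.g g7 (@Lb.r r2470 (@Lb.r r1620 (@Lb.r r2345 (@Lb.d (nat_lit 516) (nat_lit 98) (nat_lit 512) (@Lb.fp (nat_lit 3) t722)))))))))
noncomputable def l11192 : Lb := (@Lb.r r82 (@Lb.d (nat_lit 0) (nat_lit 529) (nat_lit 128) (@Lb.g g9 (@Lb.g g11 (@Lb.r r2723 (@Lb.r r2450 (@Lb.r r1697 (@Lb.d (nat_lit 0) (nat_lit 40) (nat_lit 294) (@Lb.fp (nat_lit 3) t650)))))))))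
noncomputable def l11193 : Lb := (@Lb.d (nat_lit 5) (nat_lit 677) (nat_lit 666) (@Lb.r r597 (@Lb.r r279 (@Lb.r r612 (@Lb.g g7 (@Lb.g g10 (@Lb.g g5 (@Lb.d (nat_lit 20) (nat_lit 6) (nat_lit 64) (@Lb.t (@Lb.fm (nat_lit 9) t2668))))))))))
noncomputable def l11194 : Lb := (@Lb.d (nat_lit 0) (nat_lit 10) (nat_lit 128) (@Lb.r r402 (@Lb.r r101 (@Lb.r r24 (@Lb.g g11 (@Lb.g g9 (@Lb.fp (nat_lit 3) t263)))))))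
noncomputable def l11195 : Lb := (@Lb.d (nat_lit 0) (nat_lit 9) (nat_lit 66) (@Lb.g g9 (@Lb.g g10 (@Lb.g g7 (@Lb.r r2438 (@Lb.r r97 (@Lb.r r24 (@Lb.d (nat_lit 152) (nat_lit 21) (nat_lit 537) (@Lb.t (@Lb.fm (nat_lit 9) t2669))))))))))
noncomputable def l11196 : Lb := (@Lb.d (nat_lit 0) (nat_lit 2) (nat_lit 68) (@Lb.r r346 (@Lb.r r679 (@Lb.r r344 (@Lb.r r549 (@Lb.g g7 (@Lb.d (nat_lit 64) (nat_lit 0) (nat_lit 64) (@Lb.t (@Lb.fp (nat_lit 3) t50)))))))))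
noncomputable def l11197 : Lb := (@Lb.r r82 (@Lb.d (nat_lit 136) (nat_lit 100) (nat_lit 64) (@Lb.g g5 (@Lb.g g11 (@Lb.r r662 (@Lb.r r328 (@Lb.r r327 (@Lb.d (nat_lit 648) (nat_lit 134) (nat_lit 593) (@Lb.fp (nat_lit 3) t541)))))))))
noncomputable def l11198 : Lb := (@Lb.d (nat_lit 2) (nat_lit 9) (nat_lit 66) (@Lb.g g8 (@Lb.g g9 (@Lb.g g10 (@Lb.g g11 (@Lb.r r2339 (@Lb.r r297 (@Lb.r r360 (@Lb.r r582 (@Lb.r r132 (@Lb.d (nat_lit 656) (nat_lit 10) (nat_lit 104) (@Lb.fp (nat_lit 9) t2399))))))))))))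
noncomputable def l11199 : Lb := (@Lb.g g7 (@Lb.r r24 (@Lb.r r101 (@Lb.r r402 (@Lb.d (nat_lit 10) (nat_lit 645) (nat_lit 64) (@Lb.t (@Lb.fp (nat_lit 3) t1308)))))))
noncomputable def l11200 : Lb := (@Lb.d (nat_lit 4) (nat_lit 257) (nat_lit 0) (@Lb.g g9 (@Lb.g g7 (@Lb.r r164 (@Lb.r r598 (@Lb.r r673 (@Lb.d (nat_lit 6) (nat_lit 133) (nat_lit 390) (@Lb.fm (nat_lit 3) t668))))))))
noncomputable def l11201 : Lb := (@Lb.d (nat_lit 405) (nat_lit 390) (nat_lit 132) (@Lb.r r2069 (@Lb.r r2134 (@Lb.r r1448 (@Lb.g g11 (@Lb.g g6 (@Lb.g g5 (@Lb.d (nat_lit 0) (nat_lit 32) (nat_lit 321) (@Lb.t (@Lb.fp (nat_lit 9) t139))))))))))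
noncomputable def l11202 : Lb := (@Lb.d (nat_lit 298) (nat_lit 106) (nat_lit 618) (@Lb.r r85 (@Lb.r r40 (@Lb.r r323 (@Lb.g g7 (@Lb.g g6 (@Lb.g g5 (@Lb.d (nat_lit 0) (nat_lit 9) (nat_lit 80) (@Lb.t (@Lb.fm (nat_lit 9) t2670))))))))))
noncomputable def l11203 : Lb := (@Lb.r r70 (@Lb.d (nat_lit 2) (nat_lit 2) (nat_lit 388) (@Lb.g g8 (@Lb.g g9 (@Lb.g g11 (@Lb.r r610 (@Lb.r r97 (@Lb.r r392 (@Lb.d (nat_lit 153) (nat_lit 86) (nat_lit 641) (@Lb.t (@Lb.fm (nat_lit 9) t2671)))))))))))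
noncomputable def l11204 : Lb := (@Lb.r r70 (@Lb.d (nat_lit 2) (nat_lit 514) (nat_lit 128) (@Lb.g g8 (@Lb.g g9 (@Lb.g g11 (@Lb.r r299 (@Lb.r r610 (@Lb.r r97 (@Lb.r r408 (@Lb.d (nat_lit 21) (nat_lit 146) (nat_lit 257) (@Lb.t (@Lb.fm (nat_lit 9) t2672))))))))))))
noncomputable def l11205 : Lb := (@Lb.r r70 (@Lb.d (nat_lit 2) (nat_lit 514) (nat_lit 128) (@Lb.g g8 (@Lb.g g9 (@Lb.g g11 (@Lb.r r299 (@Lb.r r610 (@Lb.r r97 (@Lb.r r388 (@Lb.d (nat_lit 33) (nat_lit 150) (nat_lit 257) (@Lb.t (@Lb.fp (nat_lit 9) t2673))))))))))))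
noncomputable def l11206 : Lb := (@Lb.r r81 (@Lb.r r323 (@Lb.d (nat_lit 2) (nat_lit 264) (nat_lit 32) (@Lb.g g8 (@Lb.g g10 (@Lb.r r1381 (@Lb.r r2587 (@Lb.r r2584 (@Lb.d (nat_lit 128) (nat_lit 160) (nat_lit 130) (@Lb.fp (nat_lit 3) t2674))))))))))
noncomputable def l11207 : Lb := (@Lb.r r21 (@Lb.d (nat_lit 10) (nat_lit 0) (nat_lit 130) (@Lb.g g8 (@Lb.g g10 (@Lb.g g11 (@Lb.r r411 (@Lb.r r2645 (@Lb.r r1130 (@Lb.r r1124 (@Lb.d (nat_lit 425) (nat_lit 26) (nat_lit 612) (@Lb.t (@Lb.fm (nat_lit 9) t2675))))))))))))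
noncomputable def l11208 : Lb := (@Lb.d (nat_lit 168) (nat_lit 256) (nat_lit 130) (@Lb.g g9 (@Lb.g g10 (@Lb.g g11 (@Lb.r r72 (@Lb.r r86 (@Lb.r r421 (@Lb.r r539 (@Lb.d (nat_lit 9) (nat_lit 36) (nat_lit 20) (@Lb.t (@Lb.fp (nat_lit 9) t45)))))))))))
noncomputable def l11209 : Lb := (@Lb.d (nat_lit 168) (nat_lit 512) (nat_lit 130) (@Lb.g g9 (@Lb.g g10 (@Lb.g g11 (@Lb.r r72 (@Lb.r r86 (@Lb.r r421 (@Lb.r r539 (@Lb.d (nat_lit 9) (nat_lit 34) (nat_lit 22) (@Lb.t (@Lb.fp (nat_lit 9) t2)))))))))))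
noncomputable def l11210 : Lb := (@Lb.d (nat_lit 32) (nat_lit 274) (nat_lit 10) (@Lb.g g5 (@Lb.g g10 (@Lb.r r584 (@Lb.r r331 (@Lb.r r662 (@Lb.d (nat_lit 130) (nat_lit 42) (nat_lit 148) (@Lb.fp (nat_lit 3) t87))))))))
noncomputable def l11211 : Lb := (@Lb.d (nat_lit 576) (nat_lit 257) (nat_lit 322) (@Lb.r r2308 (@Lb.r r2145 (@Lb.r r363 (@Lb.g g10 (@Lb.g g4 (@Lb.d (nat_lit 65) (nat_lit 8) (nat_lit 37) (@Lb.r r387 (@Lb.fm (nat_lit 3) t381)))))))))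
noncomputable def l11212 : Lb := (@Lb.d (nat_lit 576) (nat_lit 1) (nat_lit 322) (@Lb.r r2308 (@Lb.r r2145 (@Lb.r r363 (@Lb.g g10 (@Lb.g g4 (@Lb.d (nat_lit 66) (nat_lit 8) (nat_lit 37) (@Lb.r r387 (@Lb.fm (nat_lit 3) t381)))))))))
noncomputable def l11213 : Lb := (@Lb.d (nat_lit 168) (nat_lit 512) (nat_lit 130) (@Lb.g g9 (@Lb.g g10 (@Lb.g g11 (@Lb.r r72 (@Lb.r r86 (@Lb.r r421 (@Lb.r r2579 (@Lb.d (nat_lit 416) (nat_lit 164) (nat_lit 420) (@Lb.t (@Lb.fp (nat_lit 9) t528)))))))))))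
noncomputable def l11214 : Lb := (@Lb.d (nat_lit 1) (nat_lit 256) (nat_lit 130) (@Lb.g g8 (@Lb.g g9 (@Lb.g g10 (@Lb.g g11 (@Lb.r r664 (@Lb.r r2587 (@Lb.r r1429 (@Lb.r r1366 (@Lb.r r2724 (@Lb.d (nat_lit 74) (nat_lit 4) (nat_lit 592) (@Lb.fp (nat_lit 9) t528))))))))))))
noncomputable def l11215 : Lb := (@Lb.r r21 (@Lb.d (nat_lit 41) (nat_lit 512) (nat_lit 129) (@Lb.g g8 (@Lb.g g10 (@Lb.g g11 (@Lb.r r411 (@Lb.r r2645 (@Lb.r r1130 (@Lb.r r1700 (@Lb.d (nat_lit 280) (nat_lit 38) (nat_lit 321) (@Lb.t (@Lb.fm (nat_lit 9) t2676))))))))))))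
noncomputable def l11216 : Lb := (@Lb.d (nat_lit 2) (nat_lit 261) (nat_lit 0) (@Lb.g g8 (@Lb.g g9 (@Lb.r r662 (@Lb.r r683 (@Lb.r r553 (@Lb.d (nat_lit 69) (nat_lit 146) (nat_lit 384) (@Lb.fp (nat_lit 3) t242))))))))
noncomputable def l11217 : Lb := (@Lb.r r81 (@Lb.d (nat_lit 10) (nat_lit 288) (nat_lit 74) (@Lb.g g8 (@Lb.g g10 (@Lb.g g11 (@Lb.r r353 (@Lb.r r535 (@Lb.r r420 (@Lb.d (nat_lit 88) (nat_lit 36) (nat_lit 152) (@Lb.t (@Lb.fm (nat_lit 9) t573)))))))))))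
noncomputable def l11218 : Lb := (@Lb.d (nat_lit 136) (nat_lit 2) (nat_lit 128) (@Lb.g g9 (@Lb.g g11 (@Lb.r r260 (@Lb.r r603 (@Lb.r r1425 (@Lb.d (nat_lit 538) (nat_lit 153) (nat_lit 404) (@Lb.fp (nat_lit 3) t705))))))))
noncomputable def l11219 : Lb := (@Lb.d (nat_lit 128) (nat_lit 258) (nat_lit 644) (@Lb.g g9 (@Lb.g g11 (@Lb.r r2178 (@Lb.r r2645 (@Lb.r r1416 (@Lb.d (nat_lit 266) (nat_lit 70) (nat_lit 128) (@Lb.fm (nat_lit 3) t2035))))))))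
noncomputable def l11220 : Lb := (@Lb.d (nat_lit 4) (nat_lit 273) (nat_lit 2) (@Lb.g g8 (@Lb.g g9 (@Lb.g g10 (@Lb.g g11 (@Lb.r r339 (@Lb.r r1378 (@Lb.r r420 (@Lb.r r341 (@Lb.r r1060 (@Lb.d (nat_lit 337) (nat_lit 10) (nat_lit 421) (@Lb.fp (nat_lit 9) t750))))))))))))
noncomputable def l11221 : Lb := (@Lb.d (nat_lit 2) (nat_lit 258) (nat_lit 130) (@Lb.g g8 (@Lb.g g9 (@Lb.g g10 (@Lb.g g11 (@Lb.r r1699 (@Lb.r r1186 (@Lb.r r420 (@Lb.r r2197 (@Lb.r r2084 (@Lb.d (nat_lit 288) (nat_lit 162) (nat_lit 146) (@Lb.fp (nat_lit 9) t2677))))))))))))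
noncomputable def l11222 : Lb := (@Lb.d (nat_lit 4) (nat_lit 24) (nat_lit 1) (@Lb.g g8 (@Lb.g g9 (@Lb.g g10 (@Lb.g g11 (@Lb.r r339 (@Lb.r r1378 (@Lb.r r420 (@Lb.r r341 (@Lb.r r1060 (@Lb.d (nat_lit 336) (nat_lit 10) (nat_lit 421) (@Lb.fp (nat_lit 9) t803))))))))))))
noncomputable def l11223 : Lb := (@Lb.d (nat_lit 32) (nat_lit 264) (nat_lit 129) (@Lb.g g10 (@Lb.g g11 (@Lb.r r1431 (@Lb.r r2664 (@Lb.r r1641 (@Lb.r r342 (@Lb.d (nat_lit 85) (nat_lit 22) (nat_lit 518) (@Lb.fm (nat_lit 3) t322)))))))))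
noncomputable def l11224 : Lb := (@Lb.d (nat_lit 8) (nat_lit 260) (nat_lit 128) (@Lb.g g9 (@Lb.g g10 (@Lb.g g11 (@Lb.r r1703 (@Lb.r r2392 (@Lb.r r1158 (@Lb.r r1617 (@Lb.d (nat_lit 288) (nat_lit 102) (nat_lit 386) (@Lb.t (@Lb.fp (nat_lit 9) t927)))))))))))
noncomputable def l11225 : Lb := (@Lb.d (nat_lit 0) (nat_lit 544) (nat_lit 128) (@Lb.g g8 (@Lb.g g11 (@Lb.r r1109 (@Lb.r r2452 (@Lb.r r2587 (@Lb.r r2178 (@Lb.d (nat_lit 106) (nat_lit 66) (nat_lit 256) (@Lb.fm (nat_lit 3) t185)))))))))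
noncomputable def l11226 : Lb := (@Lb.d (nat_lit 32) (nat_lit 8) (nat_lit 72) (@Lb.g g10 (@Lb.g g11 (@Lb.r r1431 (@Lb.r r2664 (@Lb.r r1641 (@Lb.r r342 (@Lb.d (nat_lit 84) (nat_lit 22) (nat_lit 518) (@Lb.fm (nat_lit 3) t322)))))))))
noncomputable def l11227 : Lb := (@Lb.r r323 (@Lb.d (nat_lit 132) (nat_lit 512) (nat_lit 2) (@Lb.g g8 (@Lb.g g9 (@Lb.g g10 (@Lb.r r599 (@Lb.r r98 (@Lb.r r97 (@Lb.r r408 (@Lb.d (nat_lit 149) (nat_lit 150) (nat_lit 137) (@Lb.t (@Lb.fp (nat_lit 9) t51))))))))))))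
noncomputable def l11228 : Lb := (@Lb.r r323 (@Lb.d (nat_lit 136) (nat_lit 520) (nat_lit 34) (@Lb.g g8 (@Lb.g g10 (@Lb.r r615 (@Lb.r r533 (@Lb.r r2340 (@Lb.d (nat_lit 329) (nat_lit 105) (nat_lit 657) (@Lb.fp (nat_lit 3) t221)))))))))
noncomputable def l11229 : Lb := (@Lb.d (nat_lit 8) (nat_lit 0) (nat_lit 130) (@Lb.g g8 (@Lb.g g10 (@Lb.g g11 (@Lb.r r2443 (@Lb.r r2193 (@Lb.r r2458 (@Lb.r r2436 (@Lb.d (nat_lit 360) (nat_lit 2) (nat_lit 682) (@Lb.t (@Lb.fp (nat_lit 9) t221)))))))))))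
noncomputable def l11230 : Lb := (@Lb.d (nat_lit 32) (nat_lit 521) (nat_lit 73) (@Lb.g g9 (@Lb.g g10 (@Lb.g g11 (@Lb.r r647 (@Lb.r r293 (@Lb.r r328 (@Lb.r r662 (@Lb.d (nat_lit 165) (nat_lit 37) (nat_lit 64) (@Lb.t (@Lb.fm (nat_lit 9) t98)))))))))))
noncomputable def l11231 : Lb := (@Lb.d (nat_lit 9) (nat_lit 512) (nat_lit 10) (@Lb.g g8 (@Lb.g g10 (@Lb.r r2643 (@Lb.r r401 (@Lb.r r2450 (@Lb.d (nat_lit 545) (nat_lit 154) (nat_lit 280) (@Lb.fm (nat_lit 3) t2169))))))))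
noncomputable def l11232 : Lb := (@Lb.d (nat_lit 0) (nat_lit 664) (nat_lit 288) (@Lb.r r81 (@Lb.r r2466 (@Lb.g g11 (@Lb.g g6 (@Lb.g g5 (@Lb.d (nat_lit 0) (nat_lit 1) (nat_lit 129) (@Lb.t (@Lb.fp (nat_lit 9) t2678)))))))))
noncomputable def l11233 : Lb := (@Lb.r r1427 (@Lb.r r101 (@Lb.r r24 (@Lb.d (nat_lit 258) (nat_lit 261) (nat_lit 33) (@Lb.fp (nat_lit 1) t592)))))
noncomputable def l11234 : Lb := (@Lb.d (nat_lit 34) (nat_lit 256) (nat_lit 0) (@Lb.g g4 (@Lb.r r2391 (@Lb.r r618 (@Lb.r r1641 (@Lb.r r2664 (@Lb.d (nat_lit 154) (nat_lit 165) (nat_lit 682) (@Lb.t (@Lb.fm (nat_lit 3) t386)))))))))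
noncomputable def l11235 : Lb := (@Lb.d (nat_lit 0) (nat_lit 0) (nat_lit 2) (@Lb.g g9 (@Lb.g g10 (@Lb.r r98 (@Lb.d (nat_lit 0) (nat_lit 9) (nat_lit 138) (@Lb.fm (nat_lit 3) t884))))))
noncomputable def l11236 : Lb := (@Lb.d (nat_lit 2) (nat_lit 258) (nat_lit 2) (@Lb.g g8 (@Lb.g g9 (@Lb.g g10 (@Lb.g g11 (@Lb.r r427 (@Lb.r r106 (@Lb.r r25 (@Lb.d (nat_lit 4) (nat_lit 8) (nat_lit 137) (@Lb.fp (nat_lit 9) t51))))))))))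
noncomputable def l11237 : Lb := (@Lb.d (nat_lit 0) (nat_lit 416) (nat_lit 4) (@Lb.r r134 (@Lb.r r2651 (@Lb.r r2644 (@Lb.r r1321 (@Lb.g g11 (@Lb.t (@Lb.fm (nat_lit 3) t1449))))))))
noncomputable def l11238 : Lb := (@Lb.d (nat_lit 2) (nat_lit 97) (nat_lit 0) (@Lb.g g8 (@Lb.g g5 (@Lb.r r322 (@Lb.r r1667 (@Lb.r r578 (@Lb.r r24 (@Lb.d (nat_lit 10) (nat_lit 10) (nat_lit 18) (@Lb.fp (nat_lit 3) t40)))))))))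
noncomputable def l11239 : Lb := (@Lb.d (nat_lit 0) (nat_lit 0) (nat_lit 4) (@Lb.g g9 (@Lb.g g10 (@Lb.g g11 (@Lb.r r1363 (@Lb.r r1362 (@Lb.r r101 (@Lb.r r24 (@Lb.d (nat_lit 130) (nat_lit 0) (nat_lit 418) (@Lb.t (@Lb.fm (nat_lit 9) t277)))))))))))
noncomputable def l11240 : Lb := (@Lb.d (nat_lit 6) (nat_lit 0) (nat_lit 130) (@Lb.g g8 (@Lb.g g9 (@Lb.g g10 (@Lb.g g11 (@Lb.r r427 (@Lb.r r420 (@Lb.r r102 (@Lb.r r97 (@Lb.r r36 (@Lb.d (nat_lit 9) (nat_lit 130) (nat_lit 128) (@Lb.fm (nat_lit 9) t119))))))))))))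
noncomputable def l11241 : Lb := (@Lb.d (nat_lit 4) (nat_lit 1) (nat_lit 0) (@Lb.g g5 (@Lb.d (nat_lit 8) (nat_lit 2) (nat_lit 0) (@Lb.t (@Lb.fm (nat_lit 3) t2)))))
noncomputable def l11242 : Lb := (@Lb.r r323 (@Lb.d (nat_lit 2) (nat_lit 9) (nat_lit 2) (@Lb.g g8 (@Lb.g g9 (@Lb.g g10 (@Lb.r r427 (@Lb.r r106 (@Lb.r r25 (@Lb.d (nat_lit 9) (nat_lit 9) (nat_lit 2) (@Lb.t (@Lb.fm (nat_lit 9) t594)))))))))))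
noncomputable def l11243 : Lb := (@Lb.d (nat_lit 2) (nat_lit 265) (nat_lit 1) (@Lb.g g8 (@Lb.g g9 (@Lb.g g10 (@Lb.g g11 (@Lb.r r427 (@Lb.r r106 (@Lb.r r25 (@Lb.d (nat_lit 9) (nat_lit 4) (nat_lit 1) (@Lb.fp (nat_lit 9) t546))))))))))
noncomputable def l11244 : Lb := (@Lb.d (nat_lit 70) (nat_lit 550) (nat_lit 102) (@Lb.r r408 (@Lb.r r330 (@Lb.r r343 (@Lb.g g5 (@Lb.g g4 (@Lb.d (nat_lit 17) (nat_lit 37) (nat_lit 0) (@Lb.r r291 (@Lb.r r98 (@Lb.fp (nat_lit 3) t98))))))))))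
noncomputable def l11245 : Lb := (@Lb.d (nat_lit 42) (nat_lit 0) (nat_lit 0) (@Lb.g g4 (@Lb.r r2391 (@Lb.r r618 (@Lb.r r1641 (@Lb.r r2664 (@Lb.d (nat_lit 665) (nat_lit 165) (nat_lit 665) (@Lb.t (@Lb.fm (nat_lit 3) t386)))))))))
noncomputable def l11246 : Lb := (@Lb.d (nat_lit 160) (nat_lit 256) (nat_lit 2) (@Lb.g g10 (@Lb.g g11 (@Lb.r r264 (@Lb.r r2647 (@Lb.r r1433 (@Lb.r r410 (@Lb.d (nat_lit 406) (nat_lit 153) (nat_lit 537) (@Lb.fp (nat_lit 3) t2344)))))))))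
noncomputable def l11247 : Lb := (@Lb.g g11 (@Lb.d (nat_lit 0) (nat_lit 0) (nat_lit 64) (@Lb.t (@Lb.fp (nat_lit 3) t2))))
noncomputable def l11248 : Lb := (@Lb.d (nat_lit 0) (nat_lit 2) (nat_lit 2) (@Lb.g g9 (@Lb.g g10 (@Lb.r r2466 (@Lb.r r145 (@Lb.d (nat_lit 0) (nat_lit 100) (nat_lit 528) (@Lb.fp (nat_lit 3) t543)))))))
noncomputable def l11249 : Lb := (@Lb.d (nat_lit 2) (nat_lit 265) (nat_lit 129) (@Lb.g g8 (@Lb.g g9 (@Lb.g g10 (@Lb.g g11 (@Lb.r r2459 (@Lb.r r297 (@Lb.r r1384 (@Lb.r r2630 (@Lb.d (nat_lit 665) (nat_lit 73) (nat_lit 289) (@Lb.fp (nat_lit 9) t375)))))))))))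
noncomputable def l11250 : Lb := (@Lb.d (nat_lit 4) (nat_lit 513) (nat_lit 0) (@Lb.g g5 (@Lb.r r1319 (@Lb.r r1126 (@Lb.r r24 (@Lb.d (nat_lit 530) (nat_lit 1) (nat_lit 32) (@Lb.t (@Lb.fp (nat_lit 3) t396))))))))
noncomputable def l11251 : Lb := (@Lb.d (nat_lit 130) (nat_lit 545) (nat_lit 0) (@Lb.g g8 (@Lb.g g9 (@Lb.r r2579 (@Lb.r r2178 (@Lb.r r1429 (@Lb.r r2084 (@Lb.d (nat_lit 617) (nat_lit 66) (nat_lit 346) (@Lb.fm (nat_lit 3) t124)))))))))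
noncomputable def l11252 : Lb := (@Lb.d (nat_lit 2) (nat_lit 288) (nat_lit 64) (@Lb.g g8 (@Lb.g g11 (@Lb.r r2337 (@Lb.r r2395 (@Lb.r r2178 (@Lb.d (nat_lit 169) (nat_lit 153) (nat_lit 394) (@Lb.fm (nat_lit 3) t64))))))))
noncomputable def l11253 : Lb := (@Lb.r r70 (@Lb.d (nat_lit 16) (nat_lit 514) (nat_lit 128) (@Lb.g g8 (@Lb.g g9 (@Lb.g g11 (@Lb.r r1706 (@Lb.r r2469 (@Lb.r r1307 (@Lb.r r1300 (@Lb.d (nat_lit 386) (nat_lit 34) (nat_lit 42) (@Lb.t (@Lb.fm (nat_lit 9) t1549))))))))))))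
noncomputable def l11254 : Lb := (@Lb.g g8 (@Lb.g g7 (@Lb.d (nat_lit 1) (nat_lit 256) (nat_lit 69) (@Lb.fp (nat_lit 3) t2))))
noncomputable def l11255 : Lb := (@Lb.d (nat_lit 338) (nat_lit 646) (nat_lit 338) (@Lb.r r2312 (@Lb.r r1106 (@Lb.r r1623 (@Lb.g g6 (@Lb.g g5 (@Lb.g g4 (@Lb.d (nat_lit 66) (nat_lit 134) (nat_lit 2) (@Lb.r r387 (@Lb.t (@Lb.fp (nat_lit 9) t98)))))))))))
noncomputable def l11256 : Lb := (@Lb.r r70 (@Lb.d (nat_lit 2) (nat_lit 256) (nat_lit 128) (@Lb.g g8 (@Lb.g g11 (@Lb.r r1611 (@Lb.r r1410 (@Lb.r r2145 (@Lb.r r2180 (@Lb.d (nat_lit 82) (nat_lit 0) (nat_lit 593) (@Lb.fp (nat_lit 3) t98))))))))))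
noncomputable def l11257 : Lb := (@Lb.d (nat_lit 0) (nat_lit 0) (nat_lit 128) (@Lb.g g11 (@Lb.d (nat_lit 1) (nat_lit 0) (nat_lit 64) (@Lb.t (@Lb.fp (nat_lit 3) t2)))))
noncomputable def l11258 : Lb := (@Lb.d (nat_lit 2) (nat_lit 4) (nat_lit 74) (@Lb.g g8 (@Lb.g g9 (@Lb.g g10 (@Lb.g g11 (@Lb.r r2707 (@Lb.r r533 (@Lb.r r1640 (@Lb.r r2374 (@Lb.d (nat_lit 592) (nat_lit 10) (nat_lit 677) (@Lb.fp (nat_lit 9) t355)))))))))))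
noncomputable def l11259 : Lb := (@Lb.d (nat_lit 2) (nat_lit 260) (nat_lit 128) (@Lb.g g8 (@Lb.g g9 (@Lb.g g10 (@Lb.g g11 (@Lb.r r2707 (@Lb.r r533 (@Lb.r r1640 (@Lb.r r2374 (@Lb.d (nat_lit 593) (nat_lit 10) (nat_lit 677) (@Lb.fp (nat_lit 9) t355)))))))))))
noncomputable def l11260 : Lb := (@Lb.d (nat_lit 2) (nat_lit 516) (nat_lit 128) (@Lb.g g8 (@Lb.g g9 (@Lb.g g10 (@Lb.g g11 (@Lb.r r2707 (@Lb.r r533 (@Lb.r r1640 (@Lb.r r2374 (@Lb.d (nat_lit 592) (nat_lit 10) (nat_lit 677) (@Lb.fp (nat_lit 9) t355)))))))))))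
noncomputable def l11261 : Lb := (@Lb.r r82 (@Lb.d (nat_lit 34) (nat_lit 146) (nat_lit 0) (@Lb.g g8 (@Lb.g g5 (@Lb.g g11 (@Lb.r r2579 (@Lb.r r582 (@Lb.r r388 (@Lb.d (nat_lit 98) (nat_lit 1) (nat_lit 394) (@Lb.t (@Lb.fm (nat_lit 9) t858)))))))))))
noncomputable def l11262 : Lb := (@Lb.r r81 (@Lb.d (nat_lit 1) (nat_lit 8) (nat_lit 34) (@Lb.g g8 (@Lb.g g6 (@Lb.r r2635 (@Lb.r r1445 (@Lb.r r2628 (@Lb.d (nat_lit 646) (nat_lit 69) (nat_lit 424) (@Lb.fp (nat_lit 3) t2679)))))))))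
noncomputable def l11263 : Lb := (@Lb.d (nat_lit 1) (nat_lit 514) (nat_lit 130) (@Lb.g g8 (@Lb.g g9 (@Lb.g g10 (@Lb.g g11 (@Lb.r r427 (@Lb.r r145 (@Lb.r r356 (@Lb.r r154 (@Lb.r r132 (@Lb.d (nat_lit 9) (nat_lit 72) (nat_lit 153) (@Lb.fm (nat_lit 9) t741))))))))))))
noncomputable def l11264 : Lb := (@Lb.r r323 (@Lb.d (nat_lit 0) (nat_lit 262) (nat_lit 42) (@Lb.g g9 (@Lb.g g6 (@Lb.r r387 (@Lb.r r1297 (@Lb.d (nat_lit 0) (nat_lit 80) (nat_lit 16) (@Lb.fp (nat_lit 3) t2680))))))))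
noncomputable def l11265 : Lb := (@Lb.d (nat_lit 0) (nat_lit 530) (nat_lit 585) (@Lb.g g9 (@Lb.g g10 (@Lb.g g7 (@Lb.r r386 (@Lb.r r1105 (@Lb.d (nat_lit 0) (nat_lit 68) (nat_lit 25) (@Lb.t (@Lb.fm (nat_lit 9) t2680)))))))))
noncomputable def l11266 : Lb := (@Lb.d (nat_lit 146) (nat_lit 512) (nat_lit 130) (@Lb.g g8 (@Lb.g g9 (@Lb.g g10 (@Lb.g g11 (@Lb.r r1672 (@Lb.r r283 (@Lb.r r2705 (@Lb.r r1626 (@Lb.d (nat_lit 89) (nat_lit 1) (nat_lit 340) (@Lb.fm (nat_lit 9) t2681)))))))))))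
noncomputable def l11267 : Lb := (@Lb.r r82 (@Lb.d (nat_lit 2) (nat_lit 33) (nat_lit 128) (@Lb.g g8 (@Lb.g g9 (@Lb.g g11 (@Lb.r r2649 (@Lb.r r531 (@Lb.r r98 (@Lb.r r24 (@Lb.d (nat_lit 146) (nat_lit 97) (nat_lit 346) (@Lb.t (@Lb.fm (nat_lit 9) t2638))))))))))))
noncomputable def l11268 : Lb := (@Lb.r r323 (@Lb.d (nat_lit 1) (nat_lit 544) (nat_lit 2) (@Lb.g g8 (@Lb.g g9 (@Lb.g g10 (@Lb.r r279 (@Lb.r r676 (@Lb.r r166 (@Lb.r r165 (@Lb.d (nat_lit 41) (nat_lit 5) (nat_lit 68) (@Lb.t (@Lb.fm (nat_lit 9) t2))))))))))))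
noncomputable def l11269 : Lb := (@Lb.r r323 (@Lb.d (nat_lit 2) (nat_lit 32) (nat_lit 2) (@Lb.g g8 (@Lb.g g9 (@Lb.g g10 (@Lb.r r279 (@Lb.r r676 (@Lb.r r166 (@Lb.r r165 (@Lb.d (nat_lit 41) (nat_lit 5) (nat_lit 137) (@Lb.t (@Lb.fm (nat_lit 9) t2))))))))))))
noncomputable def l11270 : Lb := (@Lb.d (nat_lit 66) (nat_lit 258) (nat_lit 2) (@Lb.g g8 (@Lb.g g9 (@Lb.g g10 (@Lb.r r599 (@Lb.r r345 (@Lb.r r166 (@Lb.r r84 (@Lb.d (nat_lit 325) (nat_lit 72) (nat_lit 537) (@Lb.t (@Lb.fm (nat_lit 9) t2682)))))))))))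
noncomputable def l11271 : Lb := (@Lb.d (nat_lit 0) (nat_lit 33) (nat_lit 64) (@Lb.g g4 (@Lb.g g9 (@Lb.g g11 (@Lb.r r2595 (@Lb.r r1061 (@Lb.d (nat_lit 129) (nat_lit 160) (nat_lit 384) (@Lb.t (@Lb.fp (nat_lit 9) t2566)))))))))
noncomputable def l11272 : Lb := (@Lb.d (nat_lit 8) (nat_lit 256) (nat_lit 42) (@Lb.g g8 (@Lb.g g10 (@Lb.r r1619 (@Lb.r r2581 (@Lb.r r2600 (@Lb.d (nat_lit 582) (nat_lit 160) (nat_lit 258) (@Lb.fm (nat_lit 3) t2683))))))))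
noncomputable def l11273 : Lb := (@Lb.d (nat_lit 0) (nat_lit 360) (nat_lit 646) (@Lb.r r2593 (@Lb.r r1683 (@Lb.g g7 (@Lb.g g6 (@Lb.g g5 (@Lb.d (nat_lit 0) (nat_lit 34) (nat_lit 64) (@Lb.t (@Lb.fp (nat_lit 9) t118)))))))))
noncomputable def l11274 : Lb := (@Lb.d (nat_lit 2) (nat_lit 2) (nat_lit 2) (@Lb.g g8 (@Lb.g g9 (@Lb.g g10 (@Lb.g g11 (@Lb.r r427 (@Lb.r r106 (@Lb.r r25 (@Lb.d (nat_lit 545) (nat_lit 0) (nat_lit 18) (@Lb.fp (nat_lit 9) t1320))))))))))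
noncomputable def l11275 : Lb := (@Lb.d (nat_lit 2) (nat_lit 514) (nat_lit 66) (@Lb.g g8 (@Lb.g g9 (@Lb.g g10 (@Lb.g g7 (@Lb.r r386 (@Lb.r r97 (@Lb.r r24 (@Lb.d (nat_lit 10) (nat_lit 89) (nat_lit 329) (@Lb.fp (nat_lit 9) t845))))))))))
noncomputable def l11276 : Lb := (@Lb.d (nat_lit 9) (nat_lit 132) (nat_lit 150) (@Lb.r r82 (@Lb.r r2387 (@Lb.r r677 (@Lb.g g7 (@Lb.g g6 (@Lb.g g8 (@Lb.d (nat_lit 328) (nat_lit 0) (nat_lit 65) (@Lb.r r25 (@Lb.t (@Lb.fp (nat_lit 9) t1572)))))))))))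
noncomputable def l11277 : Lb := (@Lb.d (nat_lit 149) (nat_lit 594) (nat_lit 513) (@Lb.r r289 (@Lb.r r70 (@Lb.r r420 (@Lb.g g11 (@Lb.g g6 (@Lb.d (nat_lit 16) (nat_lit 0) (nat_lit 129) (@Lb.fm (nat_lit 3) t1436))))))))
noncomputable def l11278 : Lb := (@Lb.r r263 (@Lb.d (nat_lit 4) (nat_lit 512) (nat_lit 2) (@Lb.g g8 (@Lb.g g9 (@Lb.g g10 (@Lb.r r683 (@Lb.r r1634 (@Lb.r r1553 (@Lb.r r2440 (@Lb.d (nat_lit 2) (nat_lit 105) (nat_lit 657) (@Lb.t (@Lb.fm (nat_lit 9) t685))))))))))))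
noncomputable def l11279 : Lb := (@Lb.d (nat_lit 1) (nat_lit 2) (nat_lit 66) (@Lb.g g8 (@Lb.g g9 (@Lb.g g10 (@Lb.g g7 (@Lb.r r386 (@Lb.r r2153 (@Lb.r r36 (@Lb.d (nat_lit 292) (nat_lit 1) (nat_lit 41) (@Lb.fm (nat_lit 9) t40))))))))))
noncomputable def l11280 : Lb := (@Lb.d (nat_lit 153) (nat_lit 264) (nat_lit 132) (@Lb.g g8 (@Lb.g g9 (@Lb.g g10 (@Lb.g g11 (@Lb.r r683 (@Lb.r r618 (@Lb.r r1561 (@Lb.r r1540 (@Lb.d (nat_lit 392) (nat_lit 73) (nat_lit 673) (@Lb.fm (nat_lit 9) t1264)))))))))))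
noncomputable def l11281 : Lb := (@Lb.d (nat_lit 9) (nat_lit 520) (nat_lit 130) (@Lb.g g8 (@Lb.g g9 (@Lb.g g10 (@Lb.g g11 (@Lb.r r643 (@Lb.r r297 (@Lb.r r360 (@Lb.r r582 (@Lb.r r132 (@Lb.d (nat_lit 130) (nat_lit 10) (nat_lit 73) (@Lb.fm (nat_lit 9) t98))))))))))))
noncomputable def l11282 : Lb := (@Lb.r r21 (@Lb.d (nat_lit 130) (nat_lit 256) (nat_lit 132) (@Lb.g g8 (@Lb.g g10 (@Lb.g g11 (@Lb.r r651 (@Lb.r r357 (@Lb.r r154 (@Lb.r r132 (@Lb.d (nat_lit 89) (nat_lit 25) (nat_lit 134) (@Lb.t (@Lb.fp (nat_lit 9) t74))))))))))))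
noncomputable def l11283 : Lb := (@Lb.d (nat_lit 32) (nat_lit 256) (nat_lit 2) (@Lb.g g10 (@Lb.g g7 (@Lb.r r596 (@Lb.r r74 (@Lb.r r289 (@Lb.d (nat_lit 106) (nat_lit 161) (nat_lit 322) (@Lb.fm (nat_lit 3) t668))))))))
noncomputable def l11284 : Lb := (@Lb.g g7 (@Lb.r r101 (@Lb.r r24 (@Lb.d (nat_lit 514) (nat_lit 512) (nat_lit 165) (@Lb.t (@Lb.fm (nat_lit 3) t319))))))
noncomputable def l11285 : Lb := (@Lb.d (nat_lit 538) (nat_lit 600) (nat_lit 80) (@Lb.r r1129 (@Lb.r r1636 (@Lb.r r583 (@Lb.g g6 (@Lb.g g5 (@Lb.g g4 (@Lb.d (nat_lit 65) (nat_lit 20) (nat_lit 17) (@Lb.r r387 (@Lb.t (@Lb.fp (nat_lit 9) t1738)))))))))))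
noncomputable def l11286 : Lb := (@Lb.d (nat_lit 2) (nat_lit 256) (nat_lit 128) (@Lb.g g8 (@Lb.g g9 (@Lb.g g11 (@Lb.r r664 (@Lb.r r2341 (@Lb.r r539 (@Lb.r r2178 (@Lb.r r516 (@Lb.d (nat_lit 554) (nat_lit 73) (nat_lit 17) (@Lb.t (@Lb.fm (nat_lit 9) t772))))))))))))
noncomputable def l11287 : Lb := (@Lb.d (nat_lit 2) (nat_lit 514) (nat_lit 130) (@Lb.g g8 (@Lb.g g9 (@Lb.g g10 (@Lb.g g11 (@Lb.r r1443 (@Lb.r r297 (@Lb.r r2120 (@Lb.r r1126 (@Lb.d (nat_lit 277) (nat_lit 128) (nat_lit 329) (@Lb.fp (nat_lit 9) t775)))))))))))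
noncomputable def l11288 : Lb := (@Lb.d (nat_lit 538) (nat_lit 344) (nat_lit 26) (@Lb.r r1129 (@Lb.r r1636 (@Lb.r r583 (@Lb.g g6 (@Lb.g g5 (@Lb.g g4 (@Lb.d (nat_lit 64) (nat_lit 20) (nat_lit 17) (@Lb.r r387 (@Lb.t (@Lb.fp (nat_lit 9) t1738)))))))))))
noncomputable def l11289 : Lb := (@Lb.d (nat_lit 521) (nat_lit 584) (nat_lit 138) (@Lb.r r2394 (@Lb.r r2372 (@Lb.r r667 (@Lb.r r1297 (@Lb.g g7 (@Lb.g g5 (@Lb.d (nat_lit 0) (nat_lit 18) (nat_lit 128) (@Lb.r r98 (@Lb.fp (nat_lit 3) t415))))))))))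
noncomputable def l11290 : Lb := (@Lb.d (nat_lit 97) (nat_lit 164) (nat_lit 393) (@Lb.r r1637 (@Lb.r r2407 (@Lb.r r1556 (@Lb.g g10 (@Lb.g g5 (@Lb.g g4 (@Lb.d (nat_lit 1) (nat_lit 1) (nat_lit 22) (@Lb.t (@Lb.fp (nat_lit 9) t416))))))))))
noncomputable def l11291 : Lb := (@Lb.d (nat_lit 97) (nat_lit 681) (nat_lit 394) (@Lb.r r1637 (@Lb.r r2407 (@Lb.r r1556 (@Lb.g g10 (@Lb.g g5 (@Lb.g g4 (@Lb.d (nat_lit 1) (nat_lit 1) (nat_lit 22) (@Lb.t (@Lb.fp (nat_lit 9) t1581))))))))))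
noncomputable def l11292 : Lb := (@Lb.d (nat_lit 1) (nat_lit 516) (nat_lit 128) (@Lb.g g8 (@Lb.g g9 (@Lb.g g10 (@Lb.g g11 (@Lb.r r666 (@Lb.r r664 (@Lb.r r1323 (@Lb.r r1313 (@Lb.d (nat_lit 9) (nat_lit 34) (nat_lit 276) (@Lb.fm (nat_lit 9) t1256)))))))))))
noncomputable def l11293 : Lb := (@Lb.d (nat_lit 677) (nat_lit 577) (nat_lit 421) (@Lb.r r281 (@Lb.r r408 (@Lb.r r386 (@Lb.r r1431 (@Lb.g g7 (@Lb.g g6 (@Lb.g g5 (@Lb.d (nat_lit 4) (nat_lit 18) (nat_lit 129) (@Lb.t (@Lb.fp (nat_lit 9) t415)))))))))))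
noncomputable def l11294 : Lb := (@Lb.r r82 (@Lb.d (nat_lit 161) (nat_lit 258) (nat_lit 128) (@Lb.g g8 (@Lb.g g9 (@Lb.g g11 (@Lb.r r2390 (@Lb.r r1411 (@Lb.r r1633 (@Lb.r r2216 (@Lb.d (nat_lit 69) (nat_lit 70) (nat_lit 169) (@Lb.t (@Lb.fm (nat_lit 9) t1846))))))))))))
noncomputable def l11295 : Lb := (@Lb.r r82 (@Lb.d (nat_lit 128) (nat_lit 545) (nat_lit 64) (@Lb.g g8 (@Lb.g g9 (@Lb.g g11 (@Lb.r r1450 (@Lb.r r2593 (@Lb.r r2692 (@Lb.r r1447 (@Lb.d (nat_lit 518) (nat_lit 73) (nat_lit 5) (@Lb.t (@Lb.fm (nat_lit 9) t1846))))))))))))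
noncomputable def l11296 : Lb := (@Lb.r r263 (@Lb.d (nat_lit 162) (nat_lit 258) (nat_lit 1) (@Lb.g g8 (@Lb.g g9 (@Lb.g g10 (@Lb.r r1370 (@Lb.r r2455 (@Lb.r r97 (@Lb.r r516 (@Lb.d (nat_lit 130) (nat_lit 166) (nat_lit 73) (@Lb.t (@Lb.fp (nat_lit 9) t344))))))))))))
noncomputable def l11297 : Lb := (@Lb.d (nat_lit 10) (nat_lit 9) (nat_lit 2) (@Lb.g g9 (@Lb.t (@Lb.fp (nat_lit 3) t97))))
noncomputable def l11298 : Lb := (@Lb.r r82 (@Lb.d (nat_lit 129) (nat_lit 514) (nat_lit 128) (@Lb.g g8 (@Lb.g g9 (@Lb.g g11 (@Lb.r r555 (@Lb.r r1604 (@Lb.r r2154 (@Lb.r r2145 (@Lb.d (nat_lit 290) (nat_lit 98) (nat_lit 545) (@Lb.t (@Lb.fm (nat_lit 9) t2684))))))))))))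
noncomputable def l11299 : Lb := (@Lb.d (nat_lit 1) (nat_lit 256) (nat_lit 128) (@Lb.g g8 (@Lb.g g11 (@Lb.r r150 (@Lb.r r616 (@Lb.r r619 (@Lb.r r609 (@Lb.d (nat_lit 8) (nat_lit 18) (nat_lit 74) (@Lb.fm (nat_lit 3) t44)))))))))
noncomputable def l11300 : Lb := (@Lb.r r82 (@Lb.d (nat_lit 41) (nat_lit 514) (nat_lit 8) (@Lb.g g8 (@Lb.g g9 (@Lb.g g11 (@Lb.r r617 (@Lb.r r150 (@Lb.r r356 (@Lb.r r395 (@Lb.d (nat_lit 129) (nat_lit 34) (nat_lit 73) (@Lb.t (@Lb.fm (nat_lit 9) t355))))))))))))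
noncomputable def l11301 : Lb := (@Lb.d (nat_lit 5) (nat_lit 64) (nat_lit 129) (@Lb.r r402 (@Lb.r r101 (@Lb.r r24 (@Lb.g g5 (@Lb.t (@Lb.fp (nat_lit 3) t145)))))))
noncomputable def l11302 : Lb := (@Lb.d (nat_lit 2) (nat_lit 550) (nat_lit 133) (@Lb.g g8 (@Lb.g g9 (@Lb.g g10 (@Lb.g g11 (@Lb.r r41 (@Lb.r r360 (@Lb.r r582 (@Lb.r r583 (@Lb.r r132 (@Lb.d (nat_lit 130) (nat_lit 10) (nat_lit 65) (@Lb.fm (nat_lit 9) t50))))))))))))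
noncomputable def l11303 : Lb := (@Lb.r r402 (@Lb.d (nat_lit 0) (nat_lit 645) (nat_lit 257) (@Lb.fm (nat_lit 1) t334)))
noncomputable def l11304 : Lb := (@Lb.d (nat_lit 0) (nat_lit 164) (nat_lit 256) (@Lb.r r2628 (@Lb.r r2641 (@Lb.r r579 (@Lb.r r2370 (@Lb.g g7 (@Lb.d (nat_lit 0) (nat_lit 0) (nat_lit 64) (@Lb.t (@Lb.fp (nat_lit 3) t1044)))))))))
noncomputable def l11305 : Lb := (@Lb.r r402 (@Lb.r r101 (@Lb.r r24 (@Lb.d (nat_lit 608) (nat_lit 5) (nat_lit 16) (@Lb.fm (nat_lit 1) t145)))))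
noncomputable def l11306 : Lb := (@Lb.d (nat_lit 5) (nat_lit 352) (nat_lit 517) (@Lb.r r146 (@Lb.r r101 (@Lb.r r280 (@Lb.g g11 (@Lb.d (nat_lit 0) (nat_lit 0) (nat_lit 388) (@Lb.r r578 (@Lb.r r529 (@Lb.t (@Lb.fm (nat_lit 3) t262))))))))))
noncomputable def l11307 : Lb := (@Lb.r r402 (@Lb.r r101 (@Lb.r r24 (@Lb.d (nat_lit 614) (nat_lit 576) (nat_lit 32) (@Lb.fm (nat_lit 1) t2074)))))
noncomputable def l11308 : Lb := (@Lb.d (nat_lit 2) (nat_lit 258) (nat_lit 130) (@Lb.g g8 (@Lb.g g9 (@Lb.g g10 (@Lb.g g11 (@Lb.r r427 (@Lb.r r424 (@Lb.r r106 (@Lb.r r25 (@Lb.d (nat_lit 361) (nat_lit 2) (nat_lit 649) (@Lb.fm (nat_lit 9) t1306)))))))))))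
noncomputable def l11309 : Lb := (@Lb.d (nat_lit 10) (nat_lit 258) (nat_lit 130) (@Lb.g g8 (@Lb.g g9 (@Lb.g g10 (@Lb.g g11 (@Lb.r r2475 (@Lb.r r2345 (@Lb.r r360 (@Lb.r r2118 (@Lb.r r1156 (@Lb.d (nat_lit 9) (nat_lit 169) (nat_lit 677) (@Lb.fp (nat_lit 9) t1901))))))))))))
noncomputable def l11310 : Lb := (@Lb.d (nat_lit 0) (nat_lit 522) (nat_lit 0) (@Lb.g g4 (@Lb.g g5 (@Lb.d (nat_lit 0) (nat_lit 5) (nat_lit 0) (@Lb.fm (nat_lit 3) t291)))))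
noncomputable def l11311 : Lb := (@Lb.d (nat_lit 0) (nat_lit 516) (nat_lit 128) (@Lb.g g9 (@Lb.g g10 (@Lb.g g11 (@Lb.r r427 (@Lb.r r417 (@Lb.r r98 (@Lb.r r24 (@Lb.d (nat_lit 74) (nat_lit 137) (nat_lit 265) (@Lb.t (@Lb.fm (nat_lit 9) t2267)))))))))))
noncomputable def l11312 : Lb := (@Lb.d (nat_lit 0) (nat_lit 260) (nat_lit 1) (@Lb.g g9 (@Lb.g g6 (@Lb.r r97 (@Lb.d (nat_lit 0) (nat_lit 2) (nat_lit 1) (@Lb.fm (nat_lit 3) t1219))))))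
noncomputable def l11313 : Lb := (@Lb.d (nat_lit 580) (nat_lit 610) (nat_lit 386) (@Lb.r r101 (@Lb.r r2403 (@Lb.g g10 (@Lb.d (nat_lit 0) (nat_lit 8) (nat_lit 2) (@Lb.t (@Lb.fm (nat_lit 3) t2307)))))))
noncomputable def l11314 : Lb := (@Lb.r r21 (@Lb.r r323 (@Lb.d (nat_lit 2) (nat_lit 4) (nat_lit 37) (@Lb.g g8 (@Lb.g g6 (@Lb.r r1643 (@Lb.r r1561 (@Lb.r r1560 (@Lb.d (nat_lit 89) (nat_lit 161) (nat_lit 674) (@Lb.fp (nat_lit 3) t490))))))))))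
noncomputable def l11315 : Lb := (@Lb.d (nat_lit 138) (nat_lit 580) (nat_lit 646) (@Lb.r r68 (@Lb.r r154 (@Lb.r r136 (@Lb.r r297 (@Lb.g g11 (@Lb.g g6 (@Lb.g g5 (@Lb.g g4 (@Lb.d (nat_lit 1) (nat_lit 1) (nat_lit 129) (@Lb.fp (nat_lit 9) t1033)))))))))))
noncomputable def l11316 : Lb := (@Lb.d (nat_lit 0) (nat_lit 512) (nat_lit 128) (@Lb.g g9 (@Lb.g g10 (@Lb.g g11 (@Lb.r r2471 (@Lb.r r1096 (@Lb.r r2646 (@Lb.r r409 (@Lb.d (nat_lit 282) (nat_lit 4) (nat_lit 34) (@Lb.t (@Lb.fp (nat_lit 9) t450)))))))))))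
noncomputable def l11317 : Lb := (@Lb.d (nat_lit 272) (nat_lit 68) (nat_lit 136) (@Lb.g g8 (@Lb.g g9 (@Lb.g g10 (@Lb.g g11 (@Lb.r r1707 (@Lb.r r618 (@Lb.d (nat_lit 614) (nat_lit 154) (nat_lit 297) (@Lb.fm (nat_lit 9) t979)))))))))
noncomputable def l11318 : Lb := (@Lb.r r323 (@Lb.d (nat_lit 2) (nat_lit 258) (nat_lit 2) (@Lb.g g8 (@Lb.g g9 (@Lb.g g10 (@Lb.r r2475 (@Lb.r r2154 (@Lb.r r97 (@Lb.r r24 (@Lb.d (nat_lit 325) (nat_lit 6) (nat_lit 529) (@Lb.t (@Lb.fm (nat_lit 9) t61))))))))))))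
noncomputable def l11319 : Lb := (@Lb.r r82 (@Lb.r r275 (@Lb.d (nat_lit 34) (nat_lit 520) (nat_lit 0) (@Lb.g g8 (@Lb.g g9 (@Lb.r r427 (@Lb.r r582 (@Lb.r r408 (@Lb.d (nat_lit 154) (nat_lit 18) (nat_lit 152) (@Lb.fp (nat_lit 3) t573))))))))))
noncomputable def l11320 : Lb := (@Lb.r r322 (@Lb.d (nat_lit 0) (nat_lit 33) (nat_lit 516) (@Lb.g g9 (@Lb.g g7 (@Lb.r r418 (@Lb.r r296 (@Lb.r r409 (@Lb.d (nat_lit 150) (nat_lit 164) (nat_lit 521) (@Lb.fp (nat_lit 3) t1234)))))))))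
noncomputable def l11321 : Lb := (@Lb.d (nat_lit 2) (nat_lit 33) (nat_lit 4) (@Lb.g g8 (@Lb.g g9 (@Lb.g g10 (@Lb.g g11 (@Lb.r r1706 (@Lb.r r676 (@Lb.r r551 (@Lb.r r533 (@Lb.r r1060 (@Lb.d (nat_lit 393) (nat_lit 1) (nat_lit 650) (@Lb.fp (nat_lit 9) t1972))))))))))))
noncomputable def l11322 : Lb := (@Lb.r r323 (@Lb.d (nat_lit 0) (nat_lit 258) (nat_lit 2) (@Lb.g g9 (@Lb.g g10 (@Lb.r r1698 (@Lb.r r387 (@Lb.r r145 (@Lb.d (nat_lit 0) (nat_lit 154) (nat_lit 514) (@Lb.fp (nat_lit 3) t455)))))))))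
noncomputable def l11323 : Lb := (@Lb.d (nat_lit 10) (nat_lit 544) (nat_lit 0) (@Lb.g g8 (@Lb.g g11 (@Lb.r r1109 (@Lb.r r2468 (@Lb.r r2571 (@Lb.r r2178 (@Lb.d (nat_lit 98) (nat_lit 90) (nat_lit 617) (@Lb.fm (nat_lit 3) t124)))))))))
noncomputable def l11324 : Lb := (@Lb.d (nat_lit 2) (nat_lit 265) (nat_lit 129) (@Lb.g g8 (@Lb.g g9 (@Lb.g g10 (@Lb.g g11 (@Lb.r r2666 (@Lb.r r2667 (@Lb.r r2657 (@Lb.r r24 (@Lb.d (nat_lit 538) (nat_lit 89) (nat_lit 384) (@Lb.fm (nat_lit 9) t1263)))))))))))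
noncomputable def l11325 : Lb := (@Lb.r r386 (@Lb.r r2371 (@Lb.r r578 (@Lb.r r2341 (@Lb.r r24 (@Lb.d (nat_lit 514) (nat_lit 0) (nat_lit 650) (@Lb.fm (nat_lit 1) t2027)))))))
noncomputable def l11326 : Lb := (@Lb.d (nat_lit 2) (nat_lit 264) (nat_lit 73) (@Lb.g g8 (@Lb.g g9 (@Lb.g g10 (@Lb.g g11 (@Lb.r r682 (@Lb.r r648 (@Lb.r r539 (@Lb.r r289 (@Lb.r r36 (@Lb.d (nat_lit 128) (nat_lit 41) (nat_lit 66) (@Lb.fp (nat_lit 9) t98))))))))))))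
noncomputable def l11327 : Lb := (@Lb.d (nat_lit 1) (nat_lit 514) (nat_lit 1) (@Lb.r r101 (@Lb.g g6 (@Lb.g g4 (@Lb.d (nat_lit 6) (nat_lit 0) (nat_lit 0) (@Lb.fp (nat_lit 3) t607))))))
noncomputable def l11328 : Lb := (@Lb.r r323 (@Lb.d (nat_lit 2) (nat_lit 265) (nat_lit 2) (@Lb.g g8 (@Lb.g g9 (@Lb.g g10 (@Lb.r r1706 (@Lb.r r1700 (@Lb.r r1575 (@Lb.r r1637 (@Lb.d (nat_lit 409) (nat_lit 145) (nat_lit 597) (@Lb.t (@Lb.fp (nat_lit 9) t1045))))))))))))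
noncomputable def l11329 : Lb := (@Lb.d (nat_lit 66) (nat_lit 320) (nat_lit 645) (@Lb.r r597 (@Lb.r r1642 (@Lb.r r1352 (@Lb.r r2695 (@Lb.g g7 (@Lb.g g6 (@Lb.d (nat_lit 16) (nat_lit 0) (nat_lit 134) (@Lb.fm (nat_lit 3) t221)))))))))
noncomputable def l11330 : Lb := (@Lb.r r21 (@Lb.d (nat_lit 0) (nat_lit 0) (nat_lit 73) (@Lb.g g8 (@Lb.g g10 (@Lb.g g11 (@Lb.r r682 (@Lb.r r1433 (@Lb.r r2343 (@Lb.r r1540 (@Lb.d (nat_lit 297) (nat_lit 65) (nat_lit 100) (@Lb.t (@Lb.fp (nat_lit 9) t284))))))))))))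
noncomputable def l11331 : Lb := (@Lb.d (nat_lit 4) (nat_lit 512) (nat_lit 130) (@Lb.g g8 (@Lb.g g9 (@Lb.g g10 (@Lb.g g11 (@Lb.r r1706 (@Lb.r r676 (@Lb.r r423 (@Lb.r r1429 (@Lb.r r1060 (@Lb.d (nat_lit 617) (nat_lit 2) (nat_lit 530) (@Lb.fm (nat_lit 9) t282))))))))))))
noncomputable def l11332 : Lb := (@Lb.d (nat_lit 328) (nat_lit 322) (nat_lit 97) (@Lb.r r1192 (@Lb.r r2713 (@Lb.r r2643 (@Lb.g g6 (@Lb.g g5 (@Lb.g g4 (@Lb.d (nat_lit 66) (nat_lit 18) (nat_lit 33) (@Lb.r r387 (@Lb.t (@Lb.fp (nat_lit 9) t1916)))))))))))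
noncomputable def l11333 : Lb := (@Lb.d (nat_lit 0) (nat_lit 0) (nat_lit 133) (@Lb.g g10 (@Lb.g g11 (@Lb.r r1347 (@Lb.r r1666 (@Lb.d (nat_lit 0) (nat_lit 0) (nat_lit 168) (@Lb.fp (nat_lit 3) t2)))))))
noncomputable def l11334 : Lb := (@Lb.r r82 (@Lb.d (nat_lit 34) (nat_lit 545) (nat_lit 64) (@Lb.g g8 (@Lb.g g9 (@Lb.g g11 (@Lb.r r363 (@Lb.r r582 (@Lb.r r549 (@Lb.r r408 (@Lb.d (nat_lit 169) (nat_lit 16) (nat_lit 137) (@Lb.t (@Lb.fm (nat_lit 9) t601))))))))))))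
noncomputable def l11335 : Lb := (@Lb.d (nat_lit 70) (nat_lit 357) (nat_lit 68) (@Lb.r r1621 (@Lb.r r2340 (@Lb.r r2651 (@Lb.g g6 (@Lb.g g5 (@Lb.d (nat_lit 4) (nat_lit 18) (nat_lit 33) (@Lb.r r387 (@Lb.fp (nat_lit 3) t1916)))))))))
noncomputable def l11336 : Lb := (@Lb.r r21 (@Lb.d (nat_lit 8) (nat_lit 0) (nat_lit 130) (@Lb.g g8 (@Lb.g g10 (@Lb.g g11 (@Lb.r r667 (@Lb.r r2405 (@Lb.r r1178 (@Lb.r r1156 (@Lb.d (nat_lit 340) (nat_lit 1) (nat_lit 406) (@Lb.t (@Lb.fp (nat_lit 9) t284))))))))))))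
noncomputable def l11337 : Lb := (@Lb.r r21 (@Lb.d (nat_lit 8) (nat_lit 256) (nat_lit 130) (@Lb.g g8 (@Lb.g g10 (@Lb.g g11 (@Lb.r r667 (@Lb.r r2405 (@Lb.r r1178 (@Lb.r r1156 (@Lb.d (nat_lit 346) (nat_lit 2) (nat_lit 406) (@Lb.t (@Lb.fp (nat_lit 9) t284))))))))))))
noncomputable def l11338 : Lb := (@Lb.r r82 (@Lb.d (nat_lit 34) (nat_lit 256) (nat_lit 136) (@Lb.g g8 (@Lb.g g9 (@Lb.g g11 (@Lb.r r617 (@Lb.r r150 (@Lb.r r356 (@Lb.r r395 (@Lb.d (nat_lit 130) (nat_lit 41) (nat_lit 129) (@Lb.t (@Lb.fm (nat_lit 9) t98))))))))))))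
noncomputable def l11339 : Lb := (@Lb.d (nat_lit 2) (nat_lit 292) (nat_lit 133) (@Lb.g g8 (@Lb.g g9 (@Lb.g g10 (@Lb.g g11 (@Lb.r r675 (@Lb.r r341 (@Lb.r r424 (@Lb.r r394 (@Lb.d (nat_lit 18) (nat_lit 5) (nat_lit 138) (@Lb.fm (nat_lit 9) t98)))))))))))
noncomputable def l11340 : Lb := (@Lb.d (nat_lit 2) (nat_lit 2) (nat_lit 72) (@Lb.g g8 (@Lb.g g9 (@Lb.g g11 (@Lb.r r1410 (@Lb.r r579 (@Lb.r r25 (@Lb.d (nat_lit 9) (nat_lit 153) (nat_lit 296) (@Lb.t (@Lb.fm (nat_lit 9) t654))))))))))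
noncomputable def l11341 : Lb := (@Lb.r r81 (@Lb.d (nat_lit 8) (nat_lit 32) (nat_lit 74) (@Lb.g g8 (@Lb.g g10 (@Lb.g g11 (@Lb.r r353 (@Lb.r r535 (@Lb.r r420 (@Lb.d (nat_lit 89) (nat_lit 34) (nat_lit 137) (@Lb.t (@Lb.fm (nat_lit 9) t31)))))))))))
noncomputable def l11342 : Lb := (@Lb.g g8 (@Lb.g g7 (@Lb.fp (nat_lit 3) t2)))
noncomputable def l11343 : Lb := (@Lb.d (nat_lit 2) (nat_lit 10) (nat_lit 130) (@Lb.g g8 (@Lb.g g9 (@Lb.g g10 (@Lb.g g11 (@Lb.r r553 (@Lb.r r616 (@Lb.r r326 (@Lb.r r1675 (@Lb.r r1668 (@Lb.d (nat_lit 289) (nat_lit 10) (nat_lit 1) (@Lb.fm (nat_lit 9) t801))))))))))))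
noncomputable def l11344 : Lb := (@Lb.d (nat_lit 2) (nat_lit 10) (nat_lit 130) (@Lb.g g8 (@Lb.g g9 (@Lb.g g10 (@Lb.g g11 (@Lb.r r1065 (@Lb.r r584 (@Lb.r r358 (@Lb.r r1691 (@Lb.r r1668 (@Lb.d (nat_lit 10) (nat_lit 73) (nat_lit 33) (@Lb.fm (nat_lit 9) t641))))))))))))
noncomputable def l11345 : Lb := (@Lb.d (nat_lit 1) (nat_lit 266) (nat_lit 130) (@Lb.g g8 (@Lb.g g9 (@Lb.g g10 (@Lb.g g11 (@Lb.r r1065 (@Lb.r r360 (@Lb.r r582 (@Lb.r r2375 (@Lb.r r1668 (@Lb.d (nat_lit 2) (nat_lit 10) (nat_lit 33) (@Lb.fp (nat_lit 9) t98))))))))))))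
noncomputable def l11346 : Lb := (@Lb.d (nat_lit 130) (nat_lit 266) (nat_lit 10) (@Lb.g g8 (@Lb.g g9 (@Lb.g g10 (@Lb.r r2371 (@Lb.r r361 (@Lb.r r1686 (@Lb.r r84 (@Lb.d (nat_lit 401) (nat_lit 150) (nat_lit 33) (@Lb.t (@Lb.fm (nat_lit 9) t796)))))))))))
noncomputable def l11347 : Lb := (@Lb.d (nat_lit 0) (nat_lit 89) (nat_lit 273) (@Lb.r r81 (@Lb.r r2466 (@Lb.r r401 (@Lb.g g11 (@Lb.g g6 (@Lb.g g5 (@Lb.g g4 (@Lb.d (nat_lit 1) (nat_lit 2) (nat_lit 129) (@Lb.fp (nat_lit 9) t7))))))))))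
noncomputable def l11348 : Lb := (@Lb.r r391 (@Lb.r r2150 (@Lb.r r101 (@Lb.r r24 (@Lb.d (nat_lit 258) (nat_lit 394) (nat_lit 2) (@Lb.fp (nat_lit 1) t1920))))))
noncomputable def l11349 : Lb := (@Lb.d (nat_lit 40) (nat_lit 258) (nat_lit 1) (@Lb.g g9 (@Lb.g g10 (@Lb.r r328 (@Lb.r r535 (@Lb.r r289 (@Lb.d (nat_lit 0) (nat_lit 138) (nat_lit 129) (@Lb.fp (nat_lit 3) t119))))))))
noncomputable def l11350 : Lb := (@Lb.d (nat_lit 2) (nat_lit 9) (nat_lit 129) (@Lb.g g8 (@Lb.g g9 (@Lb.g g10 (@Lb.g g11 (@Lb.r r427 (@Lb.r r388 (@Lb.r r70 (@Lb.r r153 (@Lb.r r132 (@Lb.d (nat_lit 6) (nat_lit 72) (nat_lit 18) (@Lb.fp (nat_lit 9) t408))))))))))))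
noncomputable def l11351 : Lb := (@Lb.d (nat_lit 2) (nat_lit 10) (nat_lit 130) (@Lb.g g8 (@Lb.g g9 (@Lb.g g10 (@Lb.g g11 (@Lb.r r1065 (@Lb.r r360 (@Lb.r r582 (@Lb.r r2375 (@Lb.r r1668 (@Lb.d (nat_lit 2) (nat_lit 10) (nat_lit 33) (@Lb.fp (nat_lit 9) t98))))))))))))
noncomputable def l11352 : Lb := (@Lb.d (nat_lit 6) (nat_lit 385) (nat_lit 522) (@Lb.r r21 (@Lb.r r2391 (@Lb.r r2626 (@Lb.g g7 (@Lb.g g6 (@Lb.g g5 (@Lb.g g4 (@Lb.d (nat_lit 1) (nat_lit 1) (nat_lit 1) (@Lb.fp (nat_lit 9) t2685))))))))))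
noncomputable def l11353 : Lb := (@Lb.d (nat_lit 0) (nat_lit 657) (nat_lit 8) (@Lb.r r594 (@Lb.r r2449 (@Lb.g g11 (@Lb.g g6 (@Lb.g g4 (@Lb.d (nat_lit 1) (nat_lit 4) (nat_lit 129) (@Lb.t (@Lb.fm (nat_lit 9) t65)))))))))
noncomputable def l11354 : Lb := (@Lb.r r275 (@Lb.d (nat_lit 130) (nat_lit 521) (nat_lit 1) (@Lb.g g8 (@Lb.g g9 (@Lb.g g10 (@Lb.r r599 (@Lb.r r98 (@Lb.r r2725 (@Lb.r r1432 (@Lb.d (nat_lit 681) (nat_lit 90) (nat_lit 273) (@Lb.t (@Lb.fp (nat_lit 9) t1524))))))))))))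
noncomputable def l11355 : Lb := (@Lb.d (nat_lit 640) (nat_lit 256) (nat_lit 386) (@Lb.r r24 (@Lb.r r101 (@Lb.g g10 (@Lb.d (nat_lit 0) (nat_lit 8) (nat_lit 9) (@Lb.t (@Lb.fp (nat_lit 3) t2686)))))))
noncomputable def l11356 : Lb := (@Lb.r r82 (@Lb.d (nat_lit 4) (nat_lit 512) (nat_lit 136) (@Lb.g g8 (@Lb.g g9 (@Lb.g g11 (@Lb.r r2665 (@Lb.r r2198 (@Lb.r r1380 (@Lb.r r395 (@Lb.d (nat_lit 385) (nat_lit 162) (nat_lit 418) (@Lb.t (@Lb.fm (nat_lit 9) t1161))))))))))))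
noncomputable def l11357 : Lb := (@Lb.d (nat_lit 512) (nat_lit 0) (nat_lit 256) (@Lb.r r24 (@Lb.r r101 (@Lb.r r402 (@Lb.g g11 (@Lb.g g6 (@Lb.fm (nat_lit 3) t393)))))))
noncomputable def l11358 : Lb := (@Lb.d (nat_lit 402) (nat_lit 512) (nat_lit 6) (@Lb.r r1633 (@Lb.r r2390 (@Lb.r r2731 (@Lb.g g5 (@Lb.g g4 (@Lb.d (nat_lit 552) (nat_lit 0) (nat_lit 0) (@Lb.r r98 (@Lb.fm (nat_lit 3) t40)))))))))
noncomputable def l11359 : Lb := (@Lb.r r21 (@Lb.r r70 (@Lb.d (nat_lit 657) (nat_lit 32) (nat_lit 64) (@Lb.g g4 (@Lb.g g11 (@Lb.r r345 (@Lb.r r1315 (@Lb.r r2182 (@Lb.d (nat_lit 1) (nat_lit 96) (nat_lit 418) (@Lb.fm (nat_lit 3) t125))))))))))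
noncomputable def l11360 : Lb := (@Lb.r r21 (@Lb.r r70 (@Lb.d (nat_lit 657) (nat_lit 288) (nat_lit 64) (@Lb.g g4 (@Lb.g g11 (@Lb.r r345 (@Lb.r r1315 (@Lb.r r2182 (@Lb.d (nat_lit 4) (nat_lit 160) (nat_lit 418) (@Lb.fm (nat_lit 3) t74))))))))))
noncomputable def l11361 : Lb := (@Lb.d (nat_lit 6) (nat_lit 614) (nat_lit 6) (@Lb.r r21 (@Lb.r r2390 (@Lb.r r2731 (@Lb.g g6 (@Lb.g g5 (@Lb.g g4 (@Lb.d (nat_lit 544) (nat_lit 6) (nat_lit 1) (@Lb.t (@Lb.fm (nat_lit 9) t40))))))))))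
noncomputable def l11362 : Lb := (@Lb.r r21 (@Lb.r r70 (@Lb.d (nat_lit 657) (nat_lit 32) (nat_lit 64) (@Lb.g g4 (@Lb.g g11 (@Lb.r r345 (@Lb.r r1315 (@Lb.r r2182 (@Lb.d (nat_lit 1) (nat_lit 162) (nat_lit 418) (@Lb.fm (nat_lit 3) t68))))))))))
noncomputable def l11363 : Lb := (@Lb.r r323 (@Lb.d (nat_lit 2) (nat_lit 258) (nat_lit 2) (@Lb.g g8 (@Lb.g g9 (@Lb.g g10 (@Lb.r r401 (@Lb.r r299 (@Lb.r r392 (@Lb.r r74 (@Lb.d (nat_lit 533) (nat_lit 1) (nat_lit 168) (@Lb.t (@Lb.fp (nat_lit 9) t221))))))))))))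
noncomputable def l11364 : Lb := (@Lb.r r323 (@Lb.d (nat_lit 138) (nat_lit 256) (nat_lit 24) (@Lb.g g4 (@Lb.g g10 (@Lb.r r619 (@Lb.r r537 (@Lb.r r1560 (@Lb.d (nat_lit 389) (nat_lit 82) (nat_lit 321) (@Lb.fp (nat_lit 3) t386)))))))))
noncomputable def l11365 : Lb := (@Lb.d (nat_lit 2) (nat_lit 4) (nat_lit 128) (@Lb.g g8 (@Lb.g g9 (@Lb.g g10 (@Lb.g g11 (@Lb.r r2729 (@Lb.r r2475 (@Lb.r r2468 (@Lb.r r2438 (@Lb.d (nat_lit 609) (nat_lit 10) (nat_lit 529) (@Lb.fp (nat_lit 9) t98)))))))))))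
noncomputable def l11366 : Lb := (@Lb.d (nat_lit 2) (nat_lit 10) (nat_lit 129) (@Lb.g g8 (@Lb.g g9 (@Lb.g g10 (@Lb.g g11 (@Lb.r r675 (@Lb.r r1065 (@Lb.r r1384 (@Lb.r r2630 (@Lb.d (nat_lit 658) (nat_lit 5) (nat_lit 521) (@Lb.fm (nat_lit 9) t98)))))))))))
noncomputable def l11367 : Lb := (@Lb.d (nat_lit 5) (nat_lit 74) (nat_lit 2) (@Lb.fp (nat_lit 1) t21))
noncomputable def l11368 : Lb := (@Lb.d (nat_lit 4) (nat_lit 514) (nat_lit 0) (@Lb.g g8 (@Lb.g g9 (@Lb.g g10 (@Lb.g g11 (@Lb.r r2731 (@Lb.r r1642 (@Lb.r r1049 (@Lb.d (nat_lit 522) (nat_lit 89) (nat_lit 297) (@Lb.fm (nat_lit 9) t591))))))))))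
noncomputable def l11369 : Lb := (@Lb.d (nat_lit 4) (nat_lit 258) (nat_lit 1) (@Lb.g g8 (@Lb.g g9 (@Lb.g g10 (@Lb.g g11 (@Lb.r r427 (@Lb.r r2410 (@Lb.r r1049 (@Lb.d (nat_lit 521) (nat_lit 41) (nat_lit 69) (@Lb.fp (nat_lit 9) t368))))))))))
noncomputable def l11370 : Lb := (@Lb.d (nat_lit 4) (nat_lit 258) (nat_lit 138) (@Lb.g g8 (@Lb.g g9 (@Lb.g g10 (@Lb.g g11 (@Lb.r r2731 (@Lb.r r1642 (@Lb.r r1049 (@Lb.d (nat_lit 521) (nat_lit 89) (nat_lit 297) (@Lb.fm (nat_lit 9) t591))))))))))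
noncomputable def l11371 : Lb := (@Lb.r r323 (@Lb.d (nat_lit 38) (nat_lit 258) (nat_lit 2) (@Lb.g g8 (@Lb.g g9 (@Lb.g g10 (@Lb.r r2713 (@Lb.r r1563 (@Lb.r r1540 (@Lb.d (nat_lit 420) (nat_lit 64) (nat_lit 145) (@Lb.t (@Lb.fp (nat_lit 9) t755)))))))))))
noncomputable def l11372 : Lb := (@Lb.d (nat_lit 4) (nat_lit 2) (nat_lit 0) (@Lb.g g8 (@Lb.g g9 (@Lb.g g10 (@Lb.g g11 (@Lb.r r2731 (@Lb.r r1642 (@Lb.r r1049 (@Lb.d (nat_lit 521) (nat_lit 89) (nat_lit 297) (@Lb.fm (nat_lit 9) t591))))))))))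
noncomputable def l11373 : Lb := (@Lb.r r21 (@Lb.d (nat_lit 129) (nat_lit 256) (nat_lit 130) (@Lb.g g8 (@Lb.g g10 (@Lb.g g11 (@Lb.r r419 (@Lb.r r1172 (@Lb.r r2438 (@Lb.r r97 (@Lb.d (nat_lit 361) (nat_lit 40) (nat_lit 130) (@Lb.t (@Lb.fm (nat_lit 9) t1377))))))))))))
noncomputable def l11374 : Lb := (@Lb.d (nat_lit 2) (nat_lit 257) (nat_lit 0) (@Lb.g g8 (@Lb.g g9 (@Lb.g g10 (@Lb.g g11 (@Lb.r r2731 (@Lb.r r1642 (@Lb.r r1049 (@Lb.d (nat_lit 521) (nat_lit 89) (nat_lit 297) (@Lb.fm (nat_lit 9) t591))))))))))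
noncomputable def l11375 : Lb := (@Lb.d (nat_lit 5) (nat_lit 326) (nat_lit 68) (@Lb.r r289 (@Lb.r r279 (@Lb.r r584 (@Lb.g g6 (@Lb.g g5 (@Lb.d (nat_lit 20) (nat_lit 1) (nat_lit 1) (@Lb.r r387 (@Lb.fm (nat_lit 3) t68)))))))))
noncomputable def l11376 : Lb := (@Lb.r r355 (@Lb.d (nat_lit 4) (nat_lit 8) (nat_lit 2) (@Lb.g g8 (@Lb.g g9 (@Lb.g g10 (@Lb.r r1539 (@Lb.r r106 (@Lb.r r1113 (@Lb.d (nat_lit 553) (nat_lit 133) (nat_lit 70) (@Lb.t (@Lb.fp (nat_lit 9) t1402)))))))))))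
noncomputable def l11377 : Lb := (@Lb.d (nat_lit 0) (nat_lit 258) (nat_lit 130) (@Lb.g g8 (@Lb.g g9 (@Lb.g g10 (@Lb.g g11 (@Lb.r r2705 (@Lb.r r2707 (@Lb.r r360 (@Lb.r r582 (@Lb.r r2180 (@Lb.d (nat_lit 649) (nat_lit 73) (nat_lit 322) (@Lb.fp (nat_lit 9) t966))))))))))))
noncomputable def l11378 : Lb := (@Lb.d (nat_lit 5) (nat_lit 577) (nat_lit 70) (@Lb.r r289 (@Lb.r r279 (@Lb.r r584 (@Lb.g g6 (@Lb.g g5 (@Lb.d (nat_lit 16) (nat_lit 0) (nat_lit 1) (@Lb.r r387 (@Lb.fm (nat_lit 3) t68)))))))))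
noncomputable def l11379 : Lb := (@Lb.d (nat_lit 0) (nat_lit 514) (nat_lit 130) (@Lb.g g8 (@Lb.g g9 (@Lb.g g10 (@Lb.g g11 (@Lb.r r2705 (@Lb.r r2707 (@Lb.r r360 (@Lb.r r582 (@Lb.r r2180 (@Lb.d (nat_lit 642) (nat_lit 130) (nat_lit 320) (@Lb.fp (nat_lit 9) t2687))))))))))))
noncomputable def l11380 : Lb := (@Lb.r r82 (@Lb.d (nat_lit 34) (nat_lit 258) (nat_lit 136) (@Lb.g g8 (@Lb.g g9 (@Lb.g g11 (@Lb.r r2666 (@Lb.r r2725 (@Lb.r r340 (@Lb.r r411 (@Lb.d (nat_lit 514) (nat_lit 130) (nat_lit 602) (@Lb.t (@Lb.fp (nat_lit 9) t2595))))))))))))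
noncomputable def l11381 : Lb := (@Lb.r r323 (@Lb.d (nat_lit 38) (nat_lit 512) (nat_lit 2) (@Lb.g g8 (@Lb.g g9 (@Lb.g g10 (@Lb.r r2666 (@Lb.r r2635 (@Lb.r r2580 (@Lb.r r25 (@Lb.d (nat_lit 384) (nat_lit 130) (nat_lit 320) (@Lb.t (@Lb.fp (nat_lit 9) t2501))))))))))))
noncomputable def l11382 : Lb := (@Lb.r r323 (@Lb.d (nat_lit 0) (nat_lit 514) (nat_lit 2) (@Lb.g g8 (@Lb.g g9 (@Lb.g g10 (@Lb.r r401 (@Lb.r r299 (@Lb.r r392 (@Lb.r r74 (@Lb.d (nat_lit 33) (nat_lit 10) (nat_lit 152) (@Lb.t (@Lb.fp (nat_lit 9) t221))))))))))))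
noncomputable def l11383 : Lb := (@Lb.r r323 (@Lb.d (nat_lit 0) (nat_lit 258) (nat_lit 2) (@Lb.g g8 (@Lb.g g9 (@Lb.g g10 (@Lb.r r401 (@Lb.r r299 (@Lb.r r392 (@Lb.r r74 (@Lb.d (nat_lit 33) (nat_lit 10) (nat_lit 17) (@Lb.t (@Lb.fp (nat_lit 9) t221))))))))))))
noncomputable def l11384 : Lb := (@Lb.d (nat_lit 32) (nat_lit 0) (nat_lit 128) (@Lb.g g10 (@Lb.g g11 (@Lb.r r1447 (@Lb.r r2648 (@Lb.r r2453 (@Lb.r r1430 (@Lb.d (nat_lit 357) (nat_lit 153) (nat_lit 9) (@Lb.fm (nat_lit 3) t188)))))))))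
noncomputable def l11385 : Lb := (@Lb.r r21 (@Lb.d (nat_lit 2) (nat_lit 256) (nat_lit 130) (@Lb.g g8 (@Lb.g g10 (@Lb.g g11 (@Lb.r r2379 (@Lb.r r386 (@Lb.r r97 (@Lb.r r72 (@Lb.d (nat_lit 292) (nat_lit 1) (nat_lit 152) (@Lb.t (@Lb.fp (nat_lit 9) t61))))))))))))
noncomputable def l11386 : Lb := (@Lb.d (nat_lit 0) (nat_lit 322) (nat_lit 0) (@Lb.g g9 (@Lb.t (@Lb.fp (nat_lit 3) t2))))
noncomputable def l11387 : Lb := (@Lb.d (nat_lit 4) (nat_lit 2) (nat_lit 130) (@Lb.g g8 (@Lb.g g9 (@Lb.g g10 (@Lb.g g11 (@Lb.r r363 (@Lb.r r386 (@Lb.r r1121 (@Lb.r r24 (@Lb.d (nat_lit 265) (nat_lit 137) (nat_lit 168) (@Lb.fm (nat_lit 9) t61)))))))))))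
noncomputable def l11388 : Lb := (@Lb.d (nat_lit 0) (nat_lit 545) (nat_lit 9) (@Lb.g g8 (@Lb.g g9 (@Lb.g g10 (@Lb.r r2315 (@Lb.r r296 (@Lb.r r89 (@Lb.r r98 (@Lb.d (nat_lit 546) (nat_lit 137) (nat_lit 138) (@Lb.t (@Lb.fp (nat_lit 9) t386)))))))))))
noncomputable def l11389 : Lb := (@Lb.d (nat_lit 9) (nat_lit 1) (nat_lit 130) (@Lb.g g8 (@Lb.g g9 (@Lb.g g10 (@Lb.g g11 (@Lb.r r2411 (@Lb.r r386 (@Lb.r r145 (@Lb.r r168 (@Lb.d (nat_lit 278) (nat_lit 8) (nat_lit 153) (@Lb.fp (nat_lit 9) t61)))))))))))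
noncomputable def l11390 : Lb := (@Lb.g g8 (@Lb.g g5 (@Lb.g g7 (@Lb.r r402 (@Lb.r r101 (@Lb.r r24 (@Lb.d (nat_lit 536) (nat_lit 521) (nat_lit 544) (@Lb.t (@Lb.fp (nat_lit 9) t145)))))))))
noncomputable def l11391 : Lb := (@Lb.d (nat_lit 5) (nat_lit 257) (nat_lit 0) (@Lb.g g4 (@Lb.g g5 (@Lb.fm (nat_lit 3) t2))))
noncomputable def l11392 : Lb := (@Lb.r r323 (@Lb.r r2626 (@Lb.d (nat_lit 0) (nat_lit 512) (nat_lit 68) (@Lb.fp (nat_lit 1) t2))))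
noncomputable def l11393 : Lb := (@Lb.d (nat_lit 32) (nat_lit 258) (nat_lit 0) (@Lb.g g8 (@Lb.g g9 (@Lb.g g7 (@Lb.r r361 (@Lb.r r150 (@Lb.r r340 (@Lb.d (nat_lit 86) (nat_lit 100) (nat_lit 257) (@Lb.t (@Lb.fp (nat_lit 9) t1115))))))))))
noncomputable def l11394 : Lb := (@Lb.r r21 (@Lb.d (nat_lit 144) (nat_lit 0) (nat_lit 64) (@Lb.g g8 (@Lb.g g10 (@Lb.g g11 (@Lb.r r2475 (@Lb.r r2401 (@Lb.r r1170 (@Lb.r r2148 (@Lb.d (nat_lit 612) (nat_lit 73) (nat_lit 529) (@Lb.t (@Lb.fm (nat_lit 9) t1606))))))))))))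
noncomputable def l11395 : Lb := (@Lb.d (nat_lit 0) (nat_lit 512) (nat_lit 128) (@Lb.g g11 (@Lb.r r2626 (@Lb.d (nat_lit 1) (nat_lit 0) (nat_lit 256) (@Lb.t (@Lb.fp (nat_lit 3) t2))))))
noncomputable def l11396 : Lb := (@Lb.d (nat_lit 5) (nat_lit 385) (nat_lit 513) (@Lb.r r1313 (@Lb.r r2327 (@Lb.r r584 (@Lb.g g6 (@Lb.g g5 (@Lb.d (nat_lit 16) (nat_lit 1) (nat_lit 1) (@Lb.r r387 (@Lb.fm (nat_lit 3) t125)))))))))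
noncomputable def l11397 : Lb := (@Lb.d (nat_lit 390) (nat_lit 150) (nat_lit 546) (@Lb.r r2325 (@Lb.r r2390 (@Lb.r r683 (@Lb.g g7 (@Lb.g g6 (@Lb.g g5 (@Lb.g g4 (@Lb.d (nat_lit 8) (nat_lit 24) (nat_lit 64) (@Lb.fm (nat_lit 9) t309))))))))))
noncomputable def l11398 : Lb := (@Lb.d (nat_lit 2) (nat_lit 2) (nat_lit 73) (@Lb.g g8 (@Lb.g g9 (@Lb.g g10 (@Lb.g g11 (@Lb.r r427 (@Lb.r r420 (@Lb.r r102 (@Lb.r r21 (@Lb.r r36 (@Lb.d (nat_lit 521) (nat_lit 4) (nat_lit 168) (@Lb.fp (nat_lit 9) t221))))))))))))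
noncomputable def l11399 : Lb := (@Lb.d (nat_lit 1) (nat_lit 676) (nat_lit 6) (@Lb.r r37 (@Lb.r r2406 (@Lb.r r2715 (@Lb.g g6 (@Lb.g g4 (@Lb.d (nat_lit 548) (nat_lit 0) (nat_lit 0) (@Lb.r r25 (@Lb.fm (nat_lit 3) t40)))))))))
noncomputable def l11400 : Lb := (@Lb.d (nat_lit 8) (nat_lit 678) (nat_lit 6) (@Lb.r r21 (@Lb.r r2390 (@Lb.r r2731 (@Lb.g g6 (@Lb.g g5 (@Lb.g g4 (@Lb.d (nat_lit 544) (nat_lit 1) (nat_lit 0) (@Lb.t (@Lb.fm (nat_lit 9) t40))))))))))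
noncomputable def l11401 : Lb := (@Lb.r r323 (@Lb.d (nat_lit 2) (nat_lit 514) (nat_lit 1) (@Lb.g g8 (@Lb.g g9 (@Lb.g g6 (@Lb.r r2667 (@Lb.r r97 (@Lb.r r24 (@Lb.d (nat_lit 264) (nat_lit 9) (nat_lit 128) (@Lb.t (@Lb.fm (nat_lit 9) t335)))))))))))
noncomputable def l11402 : Lb := (@Lb.r r21 (@Lb.r r331 (@Lb.d (nat_lit 1) (nat_lit 0) (nat_lit 32) (@Lb.g g8 (@Lb.g g10 (@Lb.r r2708 (@Lb.r r391 (@Lb.r r25 (@Lb.d (nat_lit 645) (nat_lit 162) (nat_lit 400) (@Lb.fm (nat_lit 3) t2688))))))))))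
noncomputable def l11403 : Lb := (@Lb.d (nat_lit 2) (nat_lit 2) (nat_lit 130) (@Lb.g g8 (@Lb.g g9 (@Lb.g g10 (@Lb.g g11 (@Lb.r r642 (@Lb.r r1687 (@Lb.r r97 (@Lb.r r24 (@Lb.d (nat_lit 680) (nat_lit 9) (nat_lit 409) (@Lb.fp (nat_lit 9) t314)))))))))))
noncomputable def l11404 : Lb := (@Lb.r r21 (@Lb.d (nat_lit 646) (nat_lit 512) (nat_lit 0) (@Lb.g g8 (@Lb.r r25 (@Lb.d (nat_lit 329) (nat_lit 0) (nat_lit 0) (@Lb.t (@Lb.fp (nat_lit 3) t2334)))))))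
noncomputable def l11405 : Lb := (@Lb.r r21 (@Lb.d (nat_lit 0) (nat_lit 264) (nat_lit 130) (@Lb.g g8 (@Lb.g g10 (@Lb.g g11 (@Lb.r r667 (@Lb.r r660 (@Lb.r r89 (@Lb.r r422 (@Lb.d (nat_lit 105) (nat_lit 33) (nat_lit 2) (@Lb.t (@Lb.fm (nat_lit 9) t51))))))))))))
noncomputable def l11406 : Lb := (@Lb.r r21 (@Lb.d (nat_lit 0) (nat_lit 264) (nat_lit 130) (@Lb.g g8 (@Lb.g g10 (@Lb.g g11 (@Lb.r r667 (@Lb.r r660 (@Lb.r r89 (@Lb.r r422 (@Lb.d (nat_lit 101) (nat_lit 32) (nat_lit 2) (@Lb.t (@Lb.fm (nat_lit 9) t51))))))))))))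
noncomputable def l11407 : Lb := (@Lb.d (nat_lit 42) (nat_lit 0) (nat_lit 0) (@Lb.g g4 (@Lb.r r2391 (@Lb.r r618 (@Lb.r r1641 (@Lb.r r2664 (@Lb.d (nat_lit 666) (nat_lit 165) (nat_lit 596) (@Lb.t (@Lb.fm (nat_lit 3) t386)))))))))
noncomputable def l11408 : Lb := (@Lb.d (nat_lit 2) (nat_lit 546) (nat_lit 66) (@Lb.g g8 (@Lb.g g9 (@Lb.g g10 (@Lb.g g11 (@Lb.r r2658 (@Lb.r r1060 (@Lb.r r2661 (@Lb.r r1315 (@Lb.d (nat_lit 409) (nat_lit 161) (nat_lit 400) (@Lb.fm (nat_lit 9) t1606)))))))))))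
noncomputable def l11409 : Lb := (@Lb.r r21 (@Lb.d (nat_lit 34) (nat_lit 0) (nat_lit 129) (@Lb.g g8 (@Lb.g g10 (@Lb.g g11 (@Lb.r r651 (@Lb.r r293 (@Lb.r r644 (@Lb.r r614 (@Lb.d (nat_lit 148) (nat_lit 32) (nat_lit 8) (@Lb.t (@Lb.fm (nat_lit 9) t264))))))))))))
noncomputable def l11410 : Lb := (@Lb.r r323 (@Lb.d (nat_lit 130) (nat_lit 265) (nat_lit 1) (@Lb.g g8 (@Lb.g g9 (@Lb.g g10 (@Lb.r r1639 (@Lb.r r2193 (@Lb.r r2642 (@Lb.r r72 (@Lb.d (nat_lit 41) (nat_lit 42) (nat_lit 356) (@Lb.t (@Lb.fm (nat_lit 9) t539))))))))))))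
noncomputable def l11411 : Lb := (@Lb.d (nat_lit 329) (nat_lit 400) (nat_lit 552) (@Lb.r r2583 (@Lb.r r1384 (@Lb.r r361 (@Lb.g g7 (@Lb.g g6 (@Lb.d (nat_lit 64) (nat_lit 16) (nat_lit 165) (@Lb.fp (nat_lit 3) t572))))))))
noncomputable def l11412 : Lb := (@Lb.r r323 (@Lb.d (nat_lit 130) (nat_lit 521) (nat_lit 1) (@Lb.g g8 (@Lb.g g9 (@Lb.g g10 (@Lb.r r1639 (@Lb.r r2193 (@Lb.r r2642 (@Lb.r r72 (@Lb.d (nat_lit 41) (nat_lit 37) (nat_lit 358) (@Lb.t (@Lb.fm (nat_lit 9) t539))))))))))))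
noncomputable def l11413 : Lb := (@Lb.d (nat_lit 8) (nat_lit 257) (nat_lit 0) (@Lb.g g9 (@Lb.r r388 (@Lb.r r358 (@Lb.r r341 (@Lb.r r555 (@Lb.r r548 (@Lb.d (nat_lit 0) (nat_lit 5) (nat_lit 138) (@Lb.t (@Lb.fm (nat_lit 3) t45))))))))))
noncomputable def l11414 : Lb := (@Lb.d (nat_lit 128) (nat_lit 265) (nat_lit 0) (@Lb.g g8 (@Lb.g g9 (@Lb.r r263 (@Lb.r r146 (@Lb.r r97 (@Lb.r r520 (@Lb.d (nat_lit 66) (nat_lit 0) (nat_lit 2) (@Lb.fp (nat_lit 3) t45)))))))))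
noncomputable def l11415 : Lb := (@Lb.d (nat_lit 10) (nat_lit 0) (nat_lit 130) (@Lb.g g8 (@Lb.g g10 (@Lb.g g11 (@Lb.r r1685 (@Lb.r r2455 (@Lb.r r1608 (@Lb.r r1126 (@Lb.d (nat_lit 277) (nat_lit 16) (nat_lit 258) (@Lb.t (@Lb.fp (nat_lit 9) t185)))))))))))
noncomputable def l11416 : Lb := (@Lb.d (nat_lit 10) (nat_lit 512) (nat_lit 130) (@Lb.g g8 (@Lb.g g10 (@Lb.g g11 (@Lb.r r1685 (@Lb.r r2455 (@Lb.r r1608 (@Lb.r r1126 (@Lb.d (nat_lit 277) (nat_lit 21) (nat_lit 256) (@Lb.t (@Lb.fp (nat_lit 9) t185)))))))))))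
noncomputable def l11417 : Lb := (@Lb.d (nat_lit 388) (nat_lit 70) (nat_lit 33) (@Lb.r r1178 (@Lb.r r1684 (@Lb.r r2401 (@Lb.r r659 (@Lb.g g6 (@Lb.g g9 (@Lb.g g4 (@Lb.t (@Lb.fp (nat_lit 9) t2689))))))))))
noncomputable def l11418 : Lb := (@Lb.d (nat_lit 16) (nat_lit 258) (nat_lit 74) (@Lb.g g8 (@Lb.g g9 (@Lb.g g10 (@Lb.g g11 (@Lb.r r2667 (@Lb.r r1602 (@Lb.r r425 (@Lb.r r420 (@Lb.d (nat_lit 105) (nat_lit 137) (nat_lit 422) (@Lb.fp (nat_lit 9) t355)))))))))))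
noncomputable def l11419 : Lb := (@Lb.d (nat_lit 8) (nat_lit 258) (nat_lit 130) (@Lb.g g9 (@Lb.g g10 (@Lb.g g11 (@Lb.r r1130 (@Lb.r r24 (@Lb.r r1685 (@Lb.r r1427 (@Lb.d (nat_lit 545) (nat_lit 90) (nat_lit 601) (@Lb.t (@Lb.fp (nat_lit 9) t1741)))))))))))
noncomputable def l11420 : Lb := (@Lb.d (nat_lit 146) (nat_lit 258) (nat_lit 10) (@Lb.g g8 (@Lb.g g9 (@Lb.g g10 (@Lb.g g11 (@Lb.r r427 (@Lb.r r1602 (@Lb.r r409 (@Lb.r r388 (@Lb.d (nat_lit 105) (nat_lit 33) (nat_lit 74) (@Lb.fp (nat_lit 9) t394)))))))))))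
noncomputable def l11421 : Lb := (@Lb.d (nat_lit 146) (nat_lit 288) (nat_lit 130) (@Lb.g g8 (@Lb.g g10 (@Lb.g g11 (@Lb.r r2122 (@Lb.r r360 (@Lb.r r2329 (@Lb.r r551 (@Lb.d (nat_lit 138) (nat_lit 88) (nat_lit 38) (@Lb.t (@Lb.fm (nat_lit 9) t69)))))))))))
noncomputable def l11422 : Lb := (@Lb.d (nat_lit 402) (nat_lit 258) (nat_lit 64) (@Lb.g g8 (@Lb.g g9 (@Lb.g g10 (@Lb.g g11 (@Lb.r r2475 (@Lb.r r1130 (@Lb.r r25 (@Lb.d (nat_lit 9) (nat_lit 130) (nat_lit 394) (@Lb.fp (nat_lit 9) t916))))))))))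
noncomputable def l11423 : Lb := (@Lb.d (nat_lit 26) (nat_lit 1) (nat_lit 74) (@Lb.g g8 (@Lb.g g9 (@Lb.g g10 (@Lb.g g11 (@Lb.r r2667 (@Lb.r r1602 (@Lb.r r425 (@Lb.r r420 (@Lb.d (nat_lit 104) (nat_lit 137) (nat_lit 422) (@Lb.fp (nat_lit 9) t355)))))))))))
noncomputable def l11424 : Lb := (@Lb.r r322 (@Lb.d (nat_lit 0) (nat_lit 289) (nat_lit 516) (@Lb.g g8 (@Lb.g g9 (@Lb.g g7 (@Lb.r r418 (@Lb.r r296 (@Lb.r r409 (@Lb.d (nat_lit 150) (nat_lit 164) (nat_lit 521) (@Lb.t (@Lb.fp (nat_lit 9) t1234)))))))))))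
noncomputable def l11425 : Lb := (@Lb.d (nat_lit 17) (nat_lit 521) (nat_lit 554) (@Lb.r r24 (@Lb.r r322 (@Lb.r r1563 (@Lb.g g9 (@Lb.d (nat_lit 8) (nat_lit 166) (nat_lit 0) (@Lb.r r291 (@Lb.r r98 (@Lb.t (@Lb.fp (nat_lit 3) t750))))))))))
noncomputable def l11426 : Lb := (@Lb.d (nat_lit 657) (nat_lit 522) (nat_lit 261) (@Lb.r r24 (@Lb.r r101 (@Lb.r r386 (@Lb.g g11 (@Lb.g g6 (@Lb.g g5 (@Lb.d (nat_lit 0) (nat_lit 0) (nat_lit 1) (@Lb.t (@Lb.fp (nat_lit 9) t2690))))))))))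
noncomputable def l11427 : Lb := (@Lb.r r2311 (@Lb.r r2118 (@Lb.r r24 (@Lb.r r149 (@Lb.d (nat_lit 292) (nat_lit 518) (nat_lit 0) (@Lb.fm (nat_lit 1) t433))))))
noncomputable def l11428 : Lb := (@Lb.r r277 (@Lb.d (nat_lit 517) (nat_lit 264) (nat_lit 130) (@Lb.g g8 (@Lb.g g10 (@Lb.g g11 (@Lb.r r1411 (@Lb.r r101 (@Lb.r r1434 (@Lb.d (nat_lit 22) (nat_lit 85) (nat_lit 393) (@Lb.t (@Lb.fm (nat_lit 9) t163)))))))))))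
noncomputable def l11429 : Lb := (@Lb.d (nat_lit 4) (nat_lit 2) (nat_lit 73) (@Lb.g g8 (@Lb.g g9 (@Lb.g g10 (@Lb.g g11 (@Lb.r r618 (@Lb.r r579 (@Lb.r r1121 (@Lb.r r24 (@Lb.d (nat_lit 153) (nat_lit 137) (nat_lit 342) (@Lb.fm (nat_lit 9) t61)))))))))))
noncomputable def l11430 : Lb := (@Lb.r r21 (@Lb.r r331 (@Lb.d (nat_lit 677) (nat_lit 0) (nat_lit 1) (@Lb.g g4 (@Lb.g g10 (@Lb.r r1347 (@Lb.r r2182 (@Lb.r r25 (@Lb.d (nat_lit 88) (nat_lit 0) (nat_lit 33) (@Lb.fm (nat_lit 3) t2691))))))))))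
noncomputable def l11431 : Lb := (@Lb.d (nat_lit 0) (nat_lit 145) (nat_lit 586) (@Lb.r r657 (@Lb.r r2394 (@Lb.r r2148 (@Lb.g g11 (@Lb.g g5 (@Lb.d (nat_lit 8) (nat_lit 1) (nat_lit 384) (@Lb.r r578 (@Lb.fp (nat_lit 3) t986)))))))))
noncomputable def l11432 : Lb := (@Lb.r r323 (@Lb.d (nat_lit 2) (nat_lit 546) (nat_lit 1) (@Lb.g g8 (@Lb.g g9 (@Lb.g g10 (@Lb.r r2468 (@Lb.r r1307 (@Lb.r r2661 (@Lb.d (nat_lit 168) (nat_lit 85) (nat_lit 358) (@Lb.t (@Lb.fp (nat_lit 9) t307)))))))))))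
noncomputable def l11433 : Lb := (@Lb.r r82 (@Lb.d (nat_lit 34) (nat_lit 289) (nat_lit 64) (@Lb.g g8 (@Lb.g g9 (@Lb.g g11 (@Lb.r r2665 (@Lb.r r1315 (@Lb.r r150 (@Lb.r r2660 (@Lb.d (nat_lit 666) (nat_lit 86) (nat_lit 81) (@Lb.t (@Lb.fm (nat_lit 9) t261))))))))))))
noncomputable def l11434 : Lb := (@Lb.d (nat_lit 132) (nat_lit 2) (nat_lit 66) (@Lb.g g8 (@Lb.g g9 (@Lb.g g10 (@Lb.g g11 (@Lb.r r618 (@Lb.r r612 (@Lb.r r1319 (@Lb.r r405 (@Lb.r r36 (@Lb.d (nat_lit 104) (nat_lit 137) (nat_lit 409) (@Lb.fp (nat_lit 9) t163))))))))))))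
noncomputable def l11435 : Lb := (@Lb.d (nat_lit 2) (nat_lit 165) (nat_lit 0) (@Lb.g g8 (@Lb.g g5 (@Lb.d (nat_lit 612) (nat_lit 1) (nat_lit 288) (@Lb.fp (nat_lit 3) t2692)))))
noncomputable def l11436 : Lb := (@Lb.d (nat_lit 400) (nat_lit 593) (nat_lit 673) (@Lb.r r24 (@Lb.r r1105 (@Lb.r r1442 (@Lb.g g11 (@Lb.g g6 (@Lb.g g5 (@Lb.d (nat_lit 0) (nat_lit 22) (nat_lit 394) (@Lb.t (@Lb.fm (nat_lit 9) t2693))))))))))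
noncomputable def l11437 : Lb := (@Lb.r r323 (@Lb.d (nat_lit 2) (nat_lit 265) (nat_lit 1) (@Lb.g g8 (@Lb.g g9 (@Lb.g g10 (@Lb.r r2210 (@Lb.r r2600 (@Lb.r r2713 (@Lb.r r1555 (@Lb.d (nat_lit 88) (nat_lit 10) (nat_lit 297) (@Lb.t (@Lb.fp (nat_lit 9) t43))))))))))))
noncomputable def l11438 : Lb := (@Lb.d (nat_lit 146) (nat_lit 9) (nat_lit 130) (@Lb.g g8 (@Lb.g g9 (@Lb.g g10 (@Lb.g g11 (@Lb.r r2723 (@Lb.r r1194 (@Lb.r r36 (@Lb.r r533 (@Lb.r r2084 (@Lb.d (nat_lit 148) (nat_lit 168) (nat_lit 354) (@Lb.fp (nat_lit 9) t2694))))))))))))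
noncomputable def l11439 : Lb := (@Lb.d (nat_lit 400) (nat_lit 417) (nat_lit 5) (@Lb.r r24 (@Lb.r r593 (@Lb.r r1442 (@Lb.g g11 (@Lb.g g6 (@Lb.g g5 (@Lb.d (nat_lit 0) (nat_lit 24) (nat_lit 392) (@Lb.t (@Lb.fm (nat_lit 9) t2693))))))))))
noncomputable def l11440 : Lb := (@Lb.d (nat_lit 262) (nat_lit 421) (nat_lit 360) (@Lb.r r2723 (@Lb.r r2657 (@Lb.r r1366 (@Lb.g g7 (@Lb.g g6 (@Lb.g g5 (@Lb.g g4 (@Lb.d (nat_lit 1) (nat_lit 1) (nat_lit 1) (@Lb.fp (nat_lit 9) t1205))))))))))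
noncomputable def l11441 : Lb := (@Lb.d (nat_lit 2) (nat_lit 528) (nat_lit 137) (@Lb.g g8 (@Lb.g g9 (@Lb.g g10 (@Lb.g g11 (@Lb.r r619 (@Lb.r r1610 (@Lb.r r408 (@Lb.r r677 (@Lb.d (nat_lit 160) (nat_lit 80) (nat_lit 325) (@Lb.fm (nat_lit 9) t2695)))))))))))
noncomputable def l11442 : Lb := (@Lb.d (nat_lit 2) (nat_lit 289) (nat_lit 0) (@Lb.g g8 (@Lb.g g9 (@Lb.r r292 (@Lb.r r1371 (@Lb.r r2178 (@Lb.r r2661 (@Lb.d (nat_lit 165) (nat_lit 84) (nat_lit 324) (@Lb.fm (nat_lit 3) t32)))))))))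
noncomputable def l11443 : Lb := (@Lb.d (nat_lit 146) (nat_lit 9) (nat_lit 130) (@Lb.g g8 (@Lb.g g9 (@Lb.g g10 (@Lb.g g11 (@Lb.r r1194 (@Lb.r r680 (@Lb.r r2603 (@Lb.r r549 (@Lb.r r2068 (@Lb.d (nat_lit 138) (nat_lit 74) (nat_lit 617) (@Lb.fp (nat_lit 9) t2696))))))))))))
noncomputable def l11444 : Lb := (@Lb.r r355 (@Lb.d (nat_lit 16) (nat_lit 520) (nat_lit 33) (@Lb.g g9 (@Lb.g g6 (@Lb.r r1635 (@Lb.r r2728 (@Lb.r r2649 (@Lb.d (nat_lit 661) (nat_lit 89) (nat_lit 17) (@Lb.fp (nat_lit 3) t580)))))))))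
noncomputable def l11445 : Lb := (@Lb.d (nat_lit 321) (nat_lit 256) (nat_lit 640) (@Lb.r r24 (@Lb.r r101 (@Lb.r r1362 (@Lb.g g7 (@Lb.g g6 (@Lb.g g5 (@Lb.g g4 (@Lb.d (nat_lit 0) (nat_lit 0) (nat_lit 134) (@Lb.fp (nat_lit 9) t2326))))))))))
noncomputable def l11446 : Lb := (@Lb.d (nat_lit 106) (nat_lit 257) (nat_lit 1) (@Lb.g g8 (@Lb.g g9 (@Lb.g g10 (@Lb.g g11 (@Lb.r r343 (@Lb.r r2410 (@Lb.r r2393 (@Lb.r r2388 (@Lb.d (nat_lit 596) (nat_lit 148) (nat_lit 646) (@Lb.fp (nat_lit 9) t2033)))))))))))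
noncomputable def l11447 : Lb := (@Lb.d (nat_lit 33) (nat_lit 9) (nat_lit 129) (@Lb.g g8 (@Lb.g g9 (@Lb.g g10 (@Lb.g g11 (@Lb.r r2210 (@Lb.r r660 (@Lb.r r2473 (@Lb.r r1303 (@Lb.r r2596 (@Lb.d (nat_lit 2) (nat_lit 74) (nat_lit 361) (@Lb.fp (nat_lit 9) t2697))))))))))))
noncomputable def l11448 : Lb := (@Lb.d (nat_lit 9) (nat_lit 257) (nat_lit 130) (@Lb.g g8 (@Lb.g g9 (@Lb.g g10 (@Lb.g g11 (@Lb.r r427 (@Lb.r r106 (@Lb.r r25 (@Lb.d (nat_lit 9) (nat_lit 128) (nat_lit 169) (@Lb.fp (nat_lit 9) t295))))))))))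
noncomputable def l11449 : Lb := (@Lb.d (nat_lit 8) (nat_lit 258) (nat_lit 130) (@Lb.g g9 (@Lb.g g10 (@Lb.g g11 (@Lb.r r419 (@Lb.r r98 (@Lb.d (nat_lit 550) (nat_lit 0) (nat_lit 153) (@Lb.t (@Lb.fm (nat_lit 9) t1320)))))))))
noncomputable def l11450 : Lb := (@Lb.d (nat_lit 106) (nat_lit 1) (nat_lit 1) (@Lb.g g8 (@Lb.g g9 (@Lb.g g10 (@Lb.g g11 (@Lb.r r343 (@Lb.r r2410 (@Lb.r r2393 (@Lb.r r2388 (@Lb.d (nat_lit 597) (nat_lit 148) (nat_lit 646) (@Lb.fp (nat_lit 9) t2033)))))))))))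
noncomputable def l11451 : Lb := (@Lb.d (nat_lit 33) (nat_lit 258) (nat_lit 129) (@Lb.g g8 (@Lb.g g9 (@Lb.g g6 (@Lb.g g11 (@Lb.r r612 (@Lb.r r263 (@Lb.r r97 (@Lb.r r516 (@Lb.d (nat_lit 2) (nat_lit 34) (nat_lit 129) (@Lb.fp (nat_lit 9) t622)))))))))))
noncomputable def l11452 : Lb := (@Lb.d (nat_lit 321) (nat_lit 256) (nat_lit 512) (@Lb.r r24 (@Lb.r r101 (@Lb.r r1682 (@Lb.r r579 (@Lb.g g7 (@Lb.g g6 (@Lb.g g4 (@Lb.d (nat_lit 0) (nat_lit 0) (nat_lit 134) (@Lb.t (@Lb.fp (nat_lit 9) t2033)))))))))))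
noncomputable def l11453 : Lb := (@Lb.d (nat_lit 32) (nat_lit 290) (nat_lit 18) (@Lb.g g9 (@Lb.g g10 (@Lb.r r595 (@Lb.r r2389 (@Lb.r r1096 (@Lb.d (nat_lit 522) (nat_lit 26) (nat_lit 536) (@Lb.fm (nat_lit 3) t1155))))))))
noncomputable def l11454 : Lb := (@Lb.d (nat_lit 522) (nat_lit 145) (nat_lit 256) (@Lb.r r89 (@Lb.r r2470 (@Lb.g g11 (@Lb.g g6 (@Lb.g g5 (@Lb.d (nat_lit 0) (nat_lit 10) (nat_lit 128) (@Lb.t (@Lb.fp (nat_lit 9) t1993)))))))))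
noncomputable def l11455 : Lb := (@Lb.d (nat_lit 40) (nat_lit 32) (nat_lit 8) (@Lb.g g8 (@Lb.g g5 (@Lb.g g6 (@Lb.r r423 (@Lb.r r600 (@Lb.d (nat_lit 84) (nat_lit 38) (nat_lit 138) (@Lb.t (@Lb.fp (nat_lit 9) t1074)))))))))
noncomputable def l11456 : Lb := (@Lb.r r82 (@Lb.d (nat_lit 34) (nat_lit 514) (nat_lit 580) (@Lb.g g8 (@Lb.g g9 (@Lb.g g7 (@Lb.r r418 (@Lb.r r297 (@Lb.r r100 (@Lb.d (nat_lit 294) (nat_lit 9) (nat_lit 9) (@Lb.t (@Lb.fp (nat_lit 9) t512)))))))))))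
noncomputable def l11457 : Lb := (@Lb.d (nat_lit 4) (nat_lit 9) (nat_lit 66) (@Lb.g g8 (@Lb.g g9 (@Lb.g g10 (@Lb.g g7 (@Lb.r r1410 (@Lb.r r1121 (@Lb.r r24 (@Lb.d (nat_lit 10) (nat_lit 137) (nat_lit 265) (@Lb.fp (nat_lit 9) t130))))))))))
noncomputable def l11458 : Lb := (@Lb.r r323 (@Lb.d (nat_lit 4) (nat_lit 513) (nat_lit 2) (@Lb.g g5 (@Lb.g g10 (@Lb.r r1383 (@Lb.r r2202 (@Lb.d (nat_lit 296) (nat_lit 134) (nat_lit 32) (@Lb.fm (nat_lit 3) t2698))))))))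
noncomputable def l11459 : Lb := (@Lb.d (nat_lit 24) (nat_lit 257) (nat_lit 128) (@Lb.g g8 (@Lb.g g9 (@Lb.g g10 (@Lb.g g11 (@Lb.r r663 (@Lb.r r408 (@Lb.r r170 (@Lb.r r169 (@Lb.r r164 (@Lb.d (nat_lit 81) (nat_lit 9) (nat_lit 152) (@Lb.fp (nat_lit 9) t721))))))))))))
noncomputable def l11460 : Lb := (@Lb.d (nat_lit 2) (nat_lit 258) (nat_lit 162) (@Lb.g g8 (@Lb.g g9 (@Lb.g g6 (@Lb.g g11 (@Lb.r r612 (@Lb.r r2311 (@Lb.r r97 (@Lb.r r1540 (@Lb.d (nat_lit 272) (nat_lit 105) (nat_lit 673) (@Lb.fp (nat_lit 9) t296)))))))))))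
noncomputable def l11461 : Lb := (@Lb.d (nat_lit 36) (nat_lit 260) (nat_lit 5) (@Lb.g g8 (@Lb.g g9 (@Lb.g g10 (@Lb.g g11 (@Lb.r r2439 (@Lb.r r1604 (@Lb.r r106 (@Lb.r r1185 (@Lb.d (nat_lit 282) (nat_lit 160) (nat_lit 165) (@Lb.fm (nat_lit 9) t294)))))))))))
noncomputable def l11462 : Lb := (@Lb.d (nat_lit 153) (nat_lit 257) (nat_lit 128) (@Lb.g g8 (@Lb.g g9 (@Lb.g g10 (@Lb.g g11 (@Lb.r r603 (@Lb.r r1681 (@Lb.r r1364 (@Lb.r r2202 (@Lb.d (nat_lit 170) (nat_lit 161) (nat_lit 342) (@Lb.fp (nat_lit 9) t2593)))))))))))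
noncomputable def l11463 : Lb := (@Lb.d (nat_lit 153) (nat_lit 513) (nat_lit 128) (@Lb.g g8 (@Lb.g g9 (@Lb.g g10 (@Lb.g g11 (@Lb.r r423 (@Lb.r r1681 (@Lb.r r1432 (@Lb.r r2202 (@Lb.d (nat_lit 170) (nat_lit 69) (nat_lit 81) (@Lb.fp (nat_lit 9) t2593)))))))))))
noncomputable def l11464 : Lb := (@Lb.d (nat_lit 25) (nat_lit 650) (nat_lit 144) (@Lb.r r597 (@Lb.r r362 (@Lb.r r72 (@Lb.g g11 (@Lb.g g6 (@Lb.d (nat_lit 16) (nat_lit 32) (nat_lit 321) (@Lb.fm (nat_lit 3) t2683))))))))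
noncomputable def l11465 : Lb := (@Lb.d (nat_lit 37) (nat_lit 169) (nat_lit 602) (@Lb.r r101 (@Lb.r r24 (@Lb.r r323 (@Lb.g g7 (@Lb.g g6 (@Lb.d (nat_lit 0) (nat_lit 4) (nat_lit 65) (@Lb.fm (nat_lit 3) t1162))))))))
noncomputable def l11466 : Lb := (@Lb.d (nat_lit 261) (nat_lit 580) (nat_lit 0) (@Lb.r r1109 (@Lb.r r2202 (@Lb.r r2708 (@Lb.r r2711 (@Lb.g g7 (@Lb.g g6 (@Lb.g g5 (@Lb.d (nat_lit 0) (nat_lit 5) (nat_lit 66) (@Lb.t (@Lb.fp (nat_lit 9) t294)))))))))))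
noncomputable def l11467 : Lb := (@Lb.r r21 (@Lb.d (nat_lit 1) (nat_lit 256) (nat_lit 130) (@Lb.g g8 (@Lb.g g10 (@Lb.g g11 (@Lb.r r347 (@Lb.r r386 (@Lb.r r1112 (@Lb.r r37 (@Lb.d (nat_lit 529) (nat_lit 69) (nat_lit 168) (@Lb.t (@Lb.fp (nat_lit 9) t61))))))))))))
noncomputable def l11468 : Lb := (@Lb.d (nat_lit 4) (nat_lit 514) (nat_lit 130) (@Lb.g g8 (@Lb.g g9 (@Lb.g g10 (@Lb.g g11 (@Lb.r r363 (@Lb.r r386 (@Lb.r r1121 (@Lb.r r24 (@Lb.d (nat_lit 266) (nat_lit 137) (nat_lit 168) (@Lb.fm (nat_lit 9) t61)))))))))))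
noncomputable def l11469 : Lb := (@Lb.d (nat_lit 2) (nat_lit 514) (nat_lit 73) (@Lb.g g8 (@Lb.g g9 (@Lb.g g10 (@Lb.g g11 (@Lb.r r619 (@Lb.r r1610 (@Lb.r r660 (@Lb.r r425 (@Lb.r r2084 (@Lb.d (nat_lit 280) (nat_lit 168) (nat_lit 617) (@Lb.fp (nat_lit 9) t1371))))))))))))
noncomputable def l11470 : Lb := (@Lb.d (nat_lit 2) (nat_lit 260) (nat_lit 74) (@Lb.g g8 (@Lb.g g9 (@Lb.g g10 (@Lb.g g11 (@Lb.r r619 (@Lb.r r1610 (@Lb.r r660 (@Lb.r r425 (@Lb.r r2084 (@Lb.d (nat_lit 276) (nat_lit 104) (nat_lit 617) (@Lb.fp (nat_lit 9) t2699))))))))))))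
noncomputable def l11471 : Lb := (@Lb.d (nat_lit 2) (nat_lit 2) (nat_lit 1) (@Lb.g g8 (@Lb.g g9 (@Lb.g g10 (@Lb.r r2595 (@Lb.r r2389 (@Lb.r r420 (@Lb.r r102 (@Lb.d (nat_lit 678) (nat_lit 10) (nat_lit 345) (@Lb.t (@Lb.fp (nat_lit 9) t228)))))))))))
noncomputable def l11472 : Lb := (@Lb.d (nat_lit 161) (nat_lit 1) (nat_lit 1) (@Lb.g g8 (@Lb.g g9 (@Lb.g g10 (@Lb.r r1433 (@Lb.r r359 (@Lb.r r2726 (@Lb.r r2216 (@Lb.d (nat_lit 424) (nat_lit 168) (nat_lit 584) (@Lb.t (@Lb.fm (nat_lit 9) t329)))))))))))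
noncomputable def l11473 : Lb := (@Lb.d (nat_lit 34) (nat_lit 514) (nat_lit 130) (@Lb.g g8 (@Lb.g g9 (@Lb.g g10 (@Lb.g g11 (@Lb.r r164 (@Lb.r r2150 (@Lb.r r529 (@Lb.r r667 (@Lb.r r644 (@Lb.d (nat_lit 265) (nat_lit 2) (nat_lit 546) (@Lb.fm (nat_lit 9) t162))))))))))))
noncomputable def l11474 : Lb := (@Lb.d (nat_lit 2) (nat_lit 514) (nat_lit 136) (@Lb.g g8 (@Lb.g g9 (@Lb.g g11 (@Lb.r r1162 (@Lb.r r1689 (@Lb.r r1688 (@Lb.r r1563 (@Lb.d (nat_lit 73) (nat_lit 98) (nat_lit 10) (@Lb.t (@Lb.fp (nat_lit 9) t1866)))))))))))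
noncomputable def l11475 : Lb := (@Lb.r r323 (@Lb.d (nat_lit 2) (nat_lit 258) (nat_lit 42) (@Lb.g g8 (@Lb.g g9 (@Lb.g g10 (@Lb.r r2647 (@Lb.r r2457 (@Lb.r r2436 (@Lb.d (nat_lit 617) (nat_lit 5) (nat_lit 514) (@Lb.t (@Lb.fp (nat_lit 9) t2700)))))))))))
noncomputable def l11476 : Lb := (@Lb.d (nat_lit 32) (nat_lit 516) (nat_lit 130) (@Lb.g g10 (@Lb.g g11 (@Lb.r r661 (@Lb.r r1371 (@Lb.r r1348 (@Lb.r r2666 (@Lb.d (nat_lit 609) (nat_lit 153) (nat_lit 426) (@Lb.fm (nat_lit 3) t2701)))))))))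
noncomputable def l11477 : Lb := (@Lb.r r21 (@Lb.r r263 (@Lb.d (nat_lit 354) (nat_lit 264) (nat_lit 2) (@Lb.g g4 (@Lb.g g10 (@Lb.r r1427 (@Lb.r r97 (@Lb.d (nat_lit 1) (nat_lit 34) (nat_lit 386) (@Lb.fm (nat_lit 3) t2248)))))))))
noncomputable def l11478 : Lb := (@Lb.r r2150 (@Lb.d (nat_lit 512) (nat_lit 320) (nat_lit 0) (@Lb.fp (nat_lit 1) t964)))
noncomputable def l11479 : Lb := (@Lb.r r82 (@Lb.d (nat_lit 34) (nat_lit 514) (nat_lit 128) (@Lb.g g8 (@Lb.g g9 (@Lb.g g11 (@Lb.r r1571 (@Lb.r r582 (@Lb.r r1177 (@Lb.r r408 (@Lb.d (nat_lit 665) (nat_lit 26) (nat_lit 330) (@Lb.t (@Lb.fm (nat_lit 9) t278))))))))))))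
noncomputable def l11480 : Lb := (@Lb.d (nat_lit 2) (nat_lit 8) (nat_lit 9) (@Lb.g g8 (@Lb.g g9 (@Lb.g g10 (@Lb.g g7 (@Lb.r r1410 (@Lb.r r1121 (@Lb.r r24 (@Lb.d (nat_lit 10) (nat_lit 137) (nat_lit 393) (@Lb.fp (nat_lit 9) t130))))))))))
noncomputable def l11481 : Lb := (@Lb.d (nat_lit 106) (nat_lit 290) (nat_lit 578) (@Lb.g g8 (@Lb.g g9 (@Lb.g g10 (@Lb.g g7 (@Lb.r r2434 (@Lb.r r1365 (@Lb.r r276 (@Lb.d (nat_lit 82) (nat_lit 169) (nat_lit 677) (@Lb.fp (nat_lit 9) t2702))))))))))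
noncomputable def l11482 : Lb := (@Lb.d (nat_lit 2) (nat_lit 512) (nat_lit 130) (@Lb.g g8 (@Lb.g g10 (@Lb.g g11 (@Lb.r r419 (@Lb.r r2438 (@Lb.r r1121 (@Lb.d (nat_lit 80) (nat_lit 90) (nat_lit 265) (@Lb.t (@Lb.fm (nat_lit 9) t2703))))))))))
noncomputable def l11483 : Lb := (@Lb.d (nat_lit 409) (nat_lit 613) (nat_lit 597) (@Lb.r r1366 (@Lb.r r2692 (@Lb.r r2471 (@Lb.r r345 (@Lb.g g7 (@Lb.g g6 (@Lb.d (nat_lit 16) (nat_lit 8) (nat_lit 65) (@Lb.fm (nat_lit 3) t2192)))))))))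
noncomputable def l11484 : Lb := (@Lb.d (nat_lit 64) (nat_lit 352) (nat_lit 576) (@Lb.r r101 (@Lb.r r2451 (@Lb.r r402 (@Lb.g g7 (@Lb.d (nat_lit 0) (nat_lit 0) (nat_lit 68) (@Lb.t (@Lb.fm (nat_lit 3) t412))))))))
noncomputable def l11485 : Lb := (@Lb.d (nat_lit 0) (nat_lit 289) (nat_lit 2) (@Lb.g g9 (@Lb.g g10 (@Lb.r r1411 (@Lb.r r418 (@Lb.r r421 (@Lb.r r24 (@Lb.d (nat_lit 128) (nat_lit 5) (nat_lit 138) (@Lb.fp (nat_lit 3) t1639)))))))))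
noncomputable def l11486 : Lb := (@Lb.d (nat_lit 2) (nat_lit 545) (nat_lit 514) (@Lb.g g8 (@Lb.g g9 (@Lb.g g10 (@Lb.g g7 (@Lb.r r418 (@Lb.r r296 (@Lb.r r409 (@Lb.d (nat_lit 144) (nat_lit 150) (nat_lit 393) (@Lb.fm (nat_lit 9) t1702))))))))))
noncomputable def l11487 : Lb := (@Lb.r r82 (@Lb.d (nat_lit 64) (nat_lit 545) (nat_lit 576) (@Lb.g g8 (@Lb.g g9 (@Lb.g g7 (@Lb.r r1618 (@Lb.r r297 (@Lb.r r1128 (@Lb.d (nat_lit 149) (nat_lit 138) (nat_lit 553) (@Lb.t (@Lb.fp (nat_lit 9) t2704)))))))))))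
noncomputable def l11488 : Lb := (@Lb.r r82 (@Lb.d (nat_lit 0) (nat_lit 0) (nat_lit 128) (@Lb.g g9 (@Lb.g g11 (@Lb.r r586 (@Lb.r r584 (@Lb.r r2347 (@Lb.r r2337 (@Lb.d (nat_lit 265) (nat_lit 2) (nat_lit 512) (@Lb.fm (nat_lit 3) t2705))))))))))
noncomputable def l11489 : Lb := (@Lb.d (nat_lit 0) (nat_lit 32) (nat_lit 64) (@Lb.g g11 (@Lb.r r101 (@Lb.r r2394 (@Lb.r r423 (@Lb.r r24 (@Lb.d (nat_lit 657) (nat_lit 0) (nat_lit 681) (@Lb.t (@Lb.fp (nat_lit 3) t2027)))))))))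
noncomputable def l11490 : Lb := (@Lb.d (nat_lit 2) (nat_lit 9) (nat_lit 130) (@Lb.g g8 (@Lb.g g9 (@Lb.g g10 (@Lb.g g11 (@Lb.r r2731 (@Lb.r r680 (@Lb.r r2186 (@Lb.r r97 (@Lb.r r1060 (@Lb.d (nat_lit 529) (nat_lit 101) (nat_lit 673) (@Lb.fp (nat_lit 9) t2496))))))))))))
noncomputable def l11491 : Lb := (@Lb.d (nat_lit 0) (nat_lit 256) (nat_lit 128) (@Lb.g g11 (@Lb.r r602 (@Lb.r r584 (@Lb.r r299 (@Lb.r r289 (@Lb.d (nat_lit 265) (nat_lit 2) (nat_lit 512) (@Lb.t (@Lb.fp (nat_lit 3) t2026)))))))))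
noncomputable def l11492 : Lb := (@Lb.d (nat_lit 0) (nat_lit 521) (nat_lit 9) (@Lb.g g9 (@Lb.g g10 (@Lb.g g7 (@Lb.r r1410 (@Lb.r r1125 (@Lb.r r24 (@Lb.d (nat_lit 549) (nat_lit 1) (nat_lit 393) (@Lb.t (@Lb.fm (nat_lit 9) t1105))))))))))
noncomputable def l11493 : Lb := (@Lb.d (nat_lit 0) (nat_lit 0) (nat_lit 128) (@Lb.g g11 (@Lb.r r602 (@Lb.r r584 (@Lb.r r299 (@Lb.r r289 (@Lb.d (nat_lit 533) (nat_lit 8) (nat_lit 544) (@Lb.t (@Lb.fp (nat_lit 3) t2706)))))))))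
noncomputable def l11494 : Lb := (@Lb.r r82 (@Lb.d (nat_lit 0) (nat_lit 0) (nat_lit 128) (@Lb.g g9 (@Lb.g g11 (@Lb.r r355 (@Lb.r r422 (@Lb.r r596 (@Lb.r r297 (@Lb.d (nat_lit 265) (nat_lit 2) (nat_lit 512) (@Lb.fm (nat_lit 3) t2707))))))))))
noncomputable def l11495 : Lb := (@Lb.d (nat_lit 2) (nat_lit 2) (nat_lit 128) (@Lb.g g8 (@Lb.g g9 (@Lb.g g11 (@Lb.r r1707 (@Lb.r r2178 (@Lb.r r612 (@Lb.r r1045 (@Lb.r r2084 (@Lb.d (nat_lit 98) (nat_lit 25) (nat_lit 9) (@Lb.t (@Lb.fm (nat_lit 9) t2105))))))))))))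
noncomputable def l11496 : Lb := (@Lb.d (nat_lit 1) (nat_lit 514) (nat_lit 130) (@Lb.g g8 (@Lb.g g9 (@Lb.g g10 (@Lb.g g11 (@Lb.r r1435 (@Lb.r r145 (@Lb.r r2646 (@Lb.r r1444 (@Lb.d (nat_lit 660) (nat_lit 20) (nat_lit 601) (@Lb.fp (nat_lit 9) t1721)))))))))))
noncomputable def l11497 : Lb := (@Lb.d (nat_lit 2) (nat_lit 9) (nat_lit 6) (@Lb.g g8 (@Lb.g g9 (@Lb.g g10 (@Lb.g g11 (@Lb.r r2691 (@Lb.r r1158 (@Lb.r r1320 (@Lb.r r1433 (@Lb.d (nat_lit 678) (nat_lit 81) (nat_lit 601) (@Lb.fm (nat_lit 9) t1348)))))))))))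
noncomputable def l11498 : Lb := (@Lb.r r21 (@Lb.d (nat_lit 33) (nat_lit 8) (nat_lit 37) (@Lb.g g8 (@Lb.g g6 (@Lb.g g11 (@Lb.r r579 (@Lb.r r1304 (@Lb.r r37 (@Lb.d (nat_lit 321) (nat_lit 81) (nat_lit 577) (@Lb.t (@Lb.fm (nat_lit 9) t68)))))))))))
noncomputable def l11499 : Lb := (@Lb.r r275 (@Lb.d (nat_lit 2) (nat_lit 266) (nat_lit 0) (@Lb.g g8 (@Lb.g g9 (@Lb.r r2315 (@Lb.r r82 (@Lb.r r2193 (@Lb.d (nat_lit 272) (nat_lit 138) (nat_lit 18) (@Lb.fm (nat_lit 3) t2708)))))))))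
noncomputable def l11500 : Lb := (@Lb.r r327 (@Lb.d (nat_lit 132) (nat_lit 256) (nat_lit 2) (@Lb.g g8 (@Lb.g g9 (@Lb.g g10 (@Lb.r r2647 (@Lb.r r98 (@Lb.r r97 (@Lb.r r408 (@Lb.d (nat_lit 150) (nat_lit 100) (nat_lit 393) (@Lb.t (@Lb.fp (nat_lit 9) t937))))))))))))
noncomputable def l11501 : Lb := (@Lb.d (nat_lit 8) (nat_lit 2) (nat_lit 130) (@Lb.g g9 (@Lb.g g10 (@Lb.g g11 (@Lb.r r614 (@Lb.r r404 (@Lb.r r1371 (@Lb.r r2597 (@Lb.d (nat_lit 154) (nat_lit 20) (nat_lit 294) (@Lb.t (@Lb.fp (nat_lit 9) t494)))))))))))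
noncomputable def l11502 : Lb := (@Lb.r r20 (@Lb.d (nat_lit 4) (nat_lit 417) (nat_lit 0) (@Lb.g g9 (@Lb.r r354 (@Lb.r r1427 (@Lb.r r8 (@Lb.d (nat_lit 610) (nat_lit 2) (nat_lit 544) (@Lb.t (@Lb.fm (nat_lit 3) t590)))))))))
noncomputable def l11503 : Lb := (@Lb.d (nat_lit 1) (nat_lit 522) (nat_lit 129) (@Lb.g g8 (@Lb.g g9 (@Lb.g g10 (@Lb.g g11 (@Lb.r r1691 (@Lb.r r665 (@Lb.r r146 (@Lb.r r2628 (@Lb.d (nat_lit 664) (nat_lit 9) (nat_lit 409) (@Lb.fp (nat_lit 9) t2709)))))))))))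
noncomputable def l11504 : Lb := (@Lb.d (nat_lit 2) (nat_lit 522) (nat_lit 129) (@Lb.g g8 (@Lb.g g9 (@Lb.g g10 (@Lb.g g11 (@Lb.r r618 (@Lb.r r616 (@Lb.r r299 (@Lb.r r289 (@Lb.d (nat_lit 8) (nat_lit 166) (nat_lit 72) (@Lb.fp (nat_lit 9) t2710)))))))))))
noncomputable def l11505 : Lb := (@Lb.g g9 (@Lb.r r2150 (@Lb.d (nat_lit 522) (nat_lit 66) (nat_lit 0) (@Lb.t (@Lb.fp (nat_lit 3) t964)))))
noncomputable def l11506 : Lb := (@Lb.d (nat_lit 4) (nat_lit 520) (nat_lit 2) (@Lb.g g9 (@Lb.g g10 (@Lb.d (nat_lit 8) (nat_lit 2) (nat_lit 0) (@Lb.fm (nat_lit 3) t2569)))))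
noncomputable def l11507 : Lb := (@Lb.r r613 (@Lb.r r611 (@Lb.r r2386 (@Lb.r r657 (@Lb.d (nat_lit 266) (nat_lit 514) (nat_lit 64) (@Lb.fp (nat_lit 1) t1079))))))
noncomputable def l11508 : Lb := (@Lb.d (nat_lit 261) (nat_lit 1) (nat_lit 1) (@Lb.r r1096 (@Lb.r r2579 (@Lb.r r2393 (@Lb.g g6 (@Lb.g g5 (@Lb.d (nat_lit 16) (nat_lit 0) (nat_lit 33) (@Lb.r r291 (@Lb.fm (nat_lit 3) t2711)))))))))
noncomputable def l11509 : Lb := (@Lb.d (nat_lit 18) (nat_lit 5) (nat_lit 2) (@Lb.r r146 (@Lb.r r85 (@Lb.r r343 (@Lb.g g6 (@Lb.g g5 (@Lb.g g4 (@Lb.d (nat_lit 1) (nat_lit 5) (nat_lit 2) (@Lb.r r291 (@Lb.t (@Lb.fm (nat_lit 9) t510)))))))))))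
noncomputable def l11510 : Lb := (@Lb.d (nat_lit 1) (nat_lit 10) (nat_lit 129) (@Lb.g g8 (@Lb.g g9 (@Lb.g g10 (@Lb.g g11 (@Lb.r r1691 (@Lb.r r665 (@Lb.r r146 (@Lb.r r2628 (@Lb.d (nat_lit 662) (nat_lit 8) (nat_lit 409) (@Lb.fp (nat_lit 9) t2709)))))))))))
noncomputable def l11511 : Lb := (@Lb.r r21 (@Lb.d (nat_lit 161) (nat_lit 0) (nat_lit 8) (@Lb.g g8 (@Lb.g g6 (@Lb.r r391 (@Lb.r r2648 (@Lb.r r37 (@Lb.d (nat_lit 5) (nat_lit 150) (nat_lit 410) (@Lb.fp (nat_lit 3) t199)))))))))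
noncomputable def l11512 : Lb := (@Lb.r r101 (@Lb.d (nat_lit 256) (nat_lit 266) (nat_lit 34) (@Lb.fm (nat_lit 1) t743)))
noncomputable def l11513 : Lb := (@Lb.d (nat_lit 326) (nat_lit 150) (nat_lit 649) (@Lb.r r353 (@Lb.r r407 (@Lb.r r584 (@Lb.r r1362 (@Lb.g g7 (@Lb.g g6 (@Lb.g g5 (@Lb.d (nat_lit 4) (nat_lit 1) (nat_lit 129) (@Lb.t (@Lb.fp (nat_lit 9) t2712)))))))))))
noncomputable def l11514 : Lb := (@Lb.d (nat_lit 36) (nat_lit 74) (nat_lit 82) (@Lb.r r597 (@Lb.r r279 (@Lb.r r584 (@Lb.r r134 (@Lb.g g7 (@Lb.g g5 (@Lb.d (nat_lit 0) (nat_lit 0) (nat_lit 64) (@Lb.fm (nat_lit 3) t312)))))))))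
noncomputable def l11515 : Lb := (@Lb.d (nat_lit 2) (nat_lit 260) (nat_lit 150) (@Lb.r r82 (@Lb.r r2387 (@Lb.r r677 (@Lb.g g7 (@Lb.g g6 (@Lb.g g5 (@Lb.g g8 (@Lb.d (nat_lit 330) (nat_lit 0) (nat_lit 65) (@Lb.fp (nat_lit 9) t1572))))))))))
noncomputable def l11516 : Lb := (@Lb.r r322 (@Lb.d (nat_lit 0) (nat_lit 545) (nat_lit 516) (@Lb.g g9 (@Lb.g g7 (@Lb.r r2474 (@Lb.r r1173 (@Lb.r r24 (@Lb.d (nat_lit 512) (nat_lit 138) (nat_lit 98) (@Lb.fp (nat_lit 3) t1162)))))))))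
noncomputable def l11517 : Lb := (@Lb.r r277 (@Lb.d (nat_lit 80) (nat_lit 512) (nat_lit 4) (@Lb.g g8 (@Lb.g g10 (@Lb.g g11 (@Lb.r r1162 (@Lb.r r1412 (@Lb.r r299 (@Lb.d (nat_lit 130) (nat_lit 20) (nat_lit 298) (@Lb.t (@Lb.fp (nat_lit 9) t2713)))))))))))
noncomputable def l11518 : Lb := (@Lb.d (nat_lit 137) (nat_lit 514) (nat_lit 0) (@Lb.g g8 (@Lb.g g9 (@Lb.r r1571 (@Lb.r r2178 (@Lb.r r41 (@Lb.r r2344 (@Lb.d (nat_lit 68) (nat_lit 98) (nat_lit 320) (@Lb.fm (nat_lit 3) t468)))))))))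
noncomputable def l11519 : Lb := (@Lb.d (nat_lit 521) (nat_lit 130) (nat_lit 128) (@Lb.r r1291 (@Lb.g g8 (@Lb.d (nat_lit 10) (nat_lit 0) (nat_lit 0) (@Lb.t (@Lb.fp (nat_lit 3) t828))))))
noncomputable def l11520 : Lb := (@Lb.r r21 (@Lb.d (nat_lit 144) (nat_lit 256) (nat_lit 132) (@Lb.g g8 (@Lb.g g10 (@Lb.g g11 (@Lb.r r1707 (@Lb.r r1192 (@Lb.r r394 (@Lb.r r25 (@Lb.d (nat_lit 88) (nat_lit 80) (nat_lit 602) (@Lb.t (@Lb.fp (nat_lit 9) t766))))))))))))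
noncomputable def l11521 : Lb := (@Lb.d (nat_lit 409) (nat_lit 357) (nat_lit 678) (@Lb.r r1044 (@Lb.r r601 (@Lb.r r532 (@Lb.r r2466 (@Lb.g g11 (@Lb.g g6 (@Lb.g g5 (@Lb.g g4 (@Lb.d (nat_lit 1) (nat_lit 6) (nat_lit 130) (@Lb.fp (nat_lit 9) t827)))))))))))
noncomputable def l11522 : Lb := (@Lb.r r20 (@Lb.d (nat_lit 0) (nat_lit 550) (nat_lit 128) (@Lb.g g9 (@Lb.g g10 (@Lb.g g11 (@Lb.r r675 (@Lb.r r1634 (@Lb.r r1553 (@Lb.d (nat_lit 0) (nat_lit 105) (nat_lit 273) (@Lb.t (@Lb.fp (nat_lit 9) t2714)))))))))))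
noncomputable def l11523 : Lb := (@Lb.d (nat_lit 518) (nat_lit 582) (nat_lit 1) (@Lb.r r289 (@Lb.r r279 (@Lb.r r584 (@Lb.r r2374 (@Lb.g g7 (@Lb.g g5 (@Lb.d (nat_lit 0) (nat_lit 0) (nat_lit 64) (@Lb.fm (nat_lit 3) t2715)))))))))
noncomputable def l11524 : Lb := (@Lb.d (nat_lit 518) (nat_lit 328) (nat_lit 2) (@Lb.r r289 (@Lb.r r279 (@Lb.r r584 (@Lb.r r2374 (@Lb.g g7 (@Lb.g g5 (@Lb.d (nat_lit 4) (nat_lit 1) (nat_lit 64) (@Lb.fm (nat_lit 3) t2715)))))))))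
noncomputable def l11525 : Lb := (@Lb.d (nat_lit 160) (nat_lit 260) (nat_lit 130) (@Lb.g g6 (@Lb.g g11 (@Lb.r r264 (@Lb.r r519 (@Lb.r r537 (@Lb.d (nat_lit 36) (nat_lit 133) (nat_lit 329) (@Lb.fp (nat_lit 3) t2509))))))))
noncomputable def l11526 : Lb := (@Lb.d (nat_lit 165) (nat_lit 6) (nat_lit 656) (@Lb.r r24 (@Lb.r r101 (@Lb.r r2642 (@Lb.r r2435 (@Lb.g g7 (@Lb.g g6 (@Lb.d (nat_lit 0) (nat_lit 0) (nat_lit 74) (@Lb.fm (nat_lit 3) t2716)))))))))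
noncomputable def l11527 : Lb := (@Lb.d (nat_lit 38) (nat_lit 1) (nat_lit 138) (@Lb.r r154 (@Lb.r r664 (@Lb.r r667 (@Lb.r r353 (@Lb.g g7 (@Lb.g g4 (@Lb.d (nat_lit 2) (nat_lit 0) (nat_lit 64) (@Lb.fm (nat_lit 3) t51)))))))))
noncomputable def l11528 : Lb := (@Lb.r r323 (@Lb.d (nat_lit 38) (nat_lit 0) (nat_lit 2) (@Lb.g g8 (@Lb.g g9 (@Lb.g g10 (@Lb.r r683 (@Lb.r r170 (@Lb.r r153 (@Lb.r r132 (@Lb.d (nat_lit 41) (nat_lit 1) (nat_lit 84) (@Lb.t (@Lb.fm (nat_lit 9) t1987))))))))))))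
noncomputable def l11529 : Lb := (@Lb.d (nat_lit 38) (nat_lit 261) (nat_lit 130) (@Lb.g g8 (@Lb.g g9 (@Lb.g g6 (@Lb.g g11 (@Lb.r r612 (@Lb.r r263 (@Lb.r r97 (@Lb.r r516 (@Lb.d (nat_lit 1) (nat_lit 41) (nat_lit 128) (@Lb.fp (nat_lit 9) t546)))))))))))
noncomputable def l11530 : Lb := (@Lb.r r323 (@Lb.d (nat_lit 166) (nat_lit 261) (nat_lit 34) (@Lb.g g8 (@Lb.g g9 (@Lb.g g6 (@Lb.r r407 (@Lb.r r97 (@Lb.r r532 (@Lb.d (nat_lit 134) (nat_lit 41) (nat_lit 128) (@Lb.t (@Lb.fm (nat_lit 9) t546)))))))))))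
noncomputable def l11531 : Lb := (@Lb.r r323 (@Lb.d (nat_lit 38) (nat_lit 517) (nat_lit 0) (@Lb.g g8 (@Lb.g g9 (@Lb.g g10 (@Lb.r r683 (@Lb.r r170 (@Lb.r r153 (@Lb.r r132 (@Lb.d (nat_lit 41) (nat_lit 1) (nat_lit 84) (@Lb.t (@Lb.fm (nat_lit 9) t390))))))))))))
noncomputable def l11532 : Lb := (@Lb.r r70 (@Lb.d (nat_lit 5) (nat_lit 256) (nat_lit 128) (@Lb.g g8 (@Lb.g g9 (@Lb.g g11 (@Lb.r r1563 (@Lb.r r1617 (@Lb.r r2146 (@Lb.r r1348 (@Lb.d (nat_lit 105) (nat_lit 2) (nat_lit 420) (@Lb.t (@Lb.fp (nat_lit 9) t5))))))))))))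
noncomputable def l11533 : Lb := (@Lb.d (nat_lit 530) (nat_lit 138) (nat_lit 102) (@Lb.r r421 (@Lb.r r362 (@Lb.r r72 (@Lb.r r2391 (@Lb.g g7 (@Lb.g g6 (@Lb.g g5 (@Lb.d (nat_lit 20) (nat_lit 1) (nat_lit 65) (@Lb.t (@Lb.fp (nat_lit 9) t283)))))))))))
noncomputable def l11534 : Lb := (@Lb.d (nat_lit 38) (nat_lit 256) (nat_lit 129) (@Lb.g g8 (@Lb.g g9 (@Lb.g g10 (@Lb.g g11 (@Lb.r r2723 (@Lb.r r164 (@Lb.r r661 (@Lb.r r150 (@Lb.r r2084 (@Lb.d (nat_lit 545) (nat_lit 34) (nat_lit 146) (@Lb.fp (nat_lit 9) t892))))))))))))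
noncomputable def l11535 : Lb := (@Lb.g g9 (@Lb.r r2343 (@Lb.r r1096 (@Lb.r r2646 (@Lb.r r289 (@Lb.d (nat_lit 0) (nat_lit 386) (nat_lit 154) (@Lb.t (@Lb.fp (nat_lit 3) t1040))))))))
noncomputable def l11536 : Lb := (@Lb.d (nat_lit 38) (nat_lit 0) (nat_lit 73) (@Lb.g g8 (@Lb.g g9 (@Lb.g g10 (@Lb.g g11 (@Lb.r r675 (@Lb.r r164 (@Lb.r r661 (@Lb.r r150 (@Lb.r r36 (@Lb.d (nat_lit 33) (nat_lit 34) (nat_lit 130) (@Lb.fp (nat_lit 9) t892))))))))))))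
noncomputable def l11537 : Lb := (@Lb.d (nat_lit 38) (nat_lit 256) (nat_lit 130) (@Lb.g g8 (@Lb.g g9 (@Lb.g g10 (@Lb.g g11 (@Lb.r r675 (@Lb.r r164 (@Lb.r r661 (@Lb.r r150 (@Lb.r r36 (@Lb.d (nat_lit 34) (nat_lit 34) (nat_lit 130) (@Lb.fp (nat_lit 9) t892))))))))))))
noncomputable def l11538 : Lb := (@Lb.d (nat_lit 8) (nat_lit 290) (nat_lit 0) (@Lb.g g9 (@Lb.r r536 (@Lb.r r283 (@Lb.r r2178 (@Lb.r r2597 (@Lb.d (nat_lit 522) (nat_lit 82) (nat_lit 128) (@Lb.t (@Lb.fm (nat_lit 3) t322)))))))))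
noncomputable def l11539 : Lb := (@Lb.d (nat_lit 4) (nat_lit 256) (nat_lit 130) (@Lb.g g8 (@Lb.g g9 (@Lb.g g10 (@Lb.g g11 (@Lb.r r2666 (@Lb.r r579 (@Lb.r r97 (@Lb.r r24 (@Lb.d (nat_lit 361) (nat_lit 9) (nat_lit 680) (@Lb.fm (nat_lit 9) t61)))))))))))
noncomputable def l11540 : Lb := (@Lb.r r323 (@Lb.d (nat_lit 4) (nat_lit 0) (nat_lit 2) (@Lb.g g8 (@Lb.g g9 (@Lb.g g10 (@Lb.r r1623 (@Lb.r r2154 (@Lb.r r97 (@Lb.r r24 (@Lb.d (nat_lit 265) (nat_lit 9) (nat_lit 17) (@Lb.t (@Lb.fp (nat_lit 9) t61))))))))))))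
noncomputable def l11541 : Lb := (@Lb.r r323 (@Lb.d (nat_lit 4) (nat_lit 256) (nat_lit 2) (@Lb.g g8 (@Lb.g g9 (@Lb.g g10 (@Lb.r r1623 (@Lb.r r2154 (@Lb.r r97 (@Lb.r r24 (@Lb.d (nat_lit 265) (nat_lit 9) (nat_lit 152) (@Lb.t (@Lb.fp (nat_lit 9) t61))))))))))))
noncomputable def l11542 : Lb := (@Lb.d (nat_lit 101) (nat_lit 676) (nat_lit 101) (@Lb.r r408 (@Lb.r r330 (@Lb.r r343 (@Lb.g g5 (@Lb.g g4 (@Lb.d (nat_lit 18) (nat_lit 4) (nat_lit 0) (@Lb.r r291 (@Lb.r r98 (@Lb.fp (nat_lit 3) t50))))))))))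
noncomputable def l11543 : Lb := (@Lb.g g8 (@Lb.g g7 (@Lb.r r402 (@Lb.r r101 (@Lb.r r24 (@Lb.d (nat_lit 529) (nat_lit 0) (nat_lit 545) (@Lb.fm (nat_lit 3) t145)))))))
noncomputable def l11544 : Lb := (@Lb.d (nat_lit 100) (nat_lit 164) (nat_lit 101) (@Lb.r r408 (@Lb.r r330 (@Lb.r r343 (@Lb.g g5 (@Lb.g g4 (@Lb.d (nat_lit 18) (nat_lit 4) (nat_lit 0) (@Lb.r r291 (@Lb.r r98 (@Lb.fp (nat_lit 3) t50))))))))))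
noncomputable def l11545 : Lb := (@Lb.r r21 (@Lb.d (nat_lit 34) (nat_lit 256) (nat_lit 129) (@Lb.g g8 (@Lb.g g10 (@Lb.g g11 (@Lb.r r651 (@Lb.r r1556 (@Lb.r r153 (@Lb.r r602 (@Lb.d (nat_lit 392) (nat_lit 38) (nat_lit 280) (@Lb.t (@Lb.fp (nat_lit 9) t367))))))))))))
noncomputable def l11546 : Lb := (@Lb.g g8 (@Lb.g g7 (@Lb.r r402 (@Lb.r r101 (@Lb.r r24 (@Lb.d (nat_lit 536) (nat_lit 521) (nat_lit 544) (@Lb.fm (nat_lit 3) t145)))))))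
noncomputable def l11547 : Lb := (@Lb.r r82 (@Lb.d (nat_lit 2) (nat_lit 33) (nat_lit 64) (@Lb.g g8 (@Lb.g g9 (@Lb.g g11 (@Lb.r r1543 (@Lb.r r2152 (@Lb.r r2438 (@Lb.r r1361 (@Lb.d (nat_lit 0) (nat_lit 6) (nat_lit 345) (@Lb.t (@Lb.fp (nat_lit 9) t2301))))))))))))
noncomputable def l11548 : Lb := (@Lb.d (nat_lit 0) (nat_lit 2) (nat_lit 9) (@Lb.g g9 (@Lb.g g6 (@Lb.r r515 (@Lb.r r97 (@Lb.r r36 (@Lb.d (nat_lit 5) (nat_lit 137) (nat_lit 128) (@Lb.fp (nat_lit 3) t154))))))))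
noncomputable def l11549 : Lb := (@Lb.d (nat_lit 1) (nat_lit 544) (nat_lit 128) (@Lb.r r579 (@Lb.r r402 (@Lb.g g5 (@Lb.d (nat_lit 4) (nat_lit 1) (nat_lit 0) (@Lb.t (@Lb.fm (nat_lit 3) t607)))))))
noncomputable def l11550 : Lb := (@Lb.r r323 (@Lb.d (nat_lit 36) (nat_lit 0) (nat_lit 1) (@Lb.g g8 (@Lb.g g9 (@Lb.g g10 (@Lb.r r339 (@Lb.r r85 (@Lb.r r422 (@Lb.r r408 (@Lb.d (nat_lit 105) (nat_lit 153) (nat_lit 325) (@Lb.t (@Lb.fm (nat_lit 9) t173))))))))))))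
noncomputable def l11551 : Lb := (@Lb.d (nat_lit 134) (nat_lit 522) (nat_lit 134) (@Lb.g g8 (@Lb.g g9 (@Lb.g g10 (@Lb.g g11 (@Lb.r r675 (@Lb.r r578 (@Lb.r r420 (@Lb.r r1173 (@Lb.r r36 (@Lb.d (nat_lit 593) (nat_lit 98) (nat_lit 88) (@Lb.fm (nat_lit 9) t2011))))))))))))
noncomputable def l11552 : Lb := (@Lb.d (nat_lit 0) (nat_lit 0) (nat_lit 130) (@Lb.g g9 (@Lb.g g10 (@Lb.g g11 (@Lb.r r2599 (@Lb.r r386 (@Lb.r r20 (@Lb.r r105 (@Lb.d (nat_lit 421) (nat_lit 129) (nat_lit 361) (@Lb.t (@Lb.fp (nat_lit 9) t662)))))))))))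
noncomputable def l11553 : Lb := (@Lb.d (nat_lit 42) (nat_lit 512) (nat_lit 136) (@Lb.g g8 (@Lb.g g11 (@Lb.r r2213 (@Lb.r r1190 (@Lb.r r2388 (@Lb.r r1291 (@Lb.d (nat_lit 2) (nat_lit 148) (nat_lit 134) (@Lb.fm (nat_lit 3) t322)))))))))
noncomputable def l11554 : Lb := (@Lb.d (nat_lit 0) (nat_lit 544) (nat_lit 64) (@Lb.g g11 (@Lb.r r2385 (@Lb.r r2658 (@Lb.r r1635 (@Lb.d (nat_lit 0) (nat_lit 169) (nat_lit 410) (@Lb.t (@Lb.fm (nat_lit 3) t246))))))))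
noncomputable def l11555 : Lb := (@Lb.d (nat_lit 0) (nat_lit 32) (nat_lit 64) (@Lb.g g4 (@Lb.g g11 (@Lb.r r2385 (@Lb.r r2658 (@Lb.r r1635 (@Lb.d (nat_lit 1) (nat_lit 169) (nat_lit 410) (@Lb.fm (nat_lit 3) t246))))))))
noncomputable def l11556 : Lb := (@Lb.d (nat_lit 4) (nat_lit 514) (nat_lit 2) (@Lb.g g8 (@Lb.g g9 (@Lb.g g10 (@Lb.r r675 (@Lb.r r2658 (@Lb.r r2577 (@Lb.d (nat_lit 2) (nat_lit 169) (nat_lit 161) (@Lb.t (@Lb.fp (nat_lit 9) t324))))))))))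
noncomputable def l11557 : Lb := (@Lb.d (nat_lit 9) (nat_lit 338) (nat_lit 10) (@Lb.r r657 (@Lb.r r666 (@Lb.r r420 (@Lb.r r347 (@Lb.g g7 (@Lb.g g6 (@Lb.g g5 (@Lb.d (nat_lit 8) (nat_lit 1) (nat_lit 134) (@Lb.t (@Lb.fm (nat_lit 9) t68)))))))))))
noncomputable def l11558 : Lb := (@Lb.d (nat_lit 9) (nat_lit 25) (nat_lit 553) (@Lb.r r2705 (@Lb.r r2714 (@Lb.r r1444 (@Lb.r r2395 (@Lb.g g7 (@Lb.g g6 (@Lb.g g5 (@Lb.d (nat_lit 4) (nat_lit 1) (nat_lit 134) (@Lb.t (@Lb.fm (nat_lit 9) t125)))))))))))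
noncomputable def l11559 : Lb := (@Lb.d (nat_lit 9) (nat_lit 258) (nat_lit 2) (@Lb.g g8 (@Lb.g g9 (@Lb.g g10 (@Lb.g g11 (@Lb.r r682 (@Lb.r r680 (@Lb.r r555 (@Lb.r r529 (@Lb.r r36 (@Lb.d (nat_lit 9) (nat_lit 33) (nat_lit 74) (@Lb.fm (nat_lit 9) t51))))))))))))
noncomputable def l11560 : Lb := (@Lb.d (nat_lit 129) (nat_lit 258) (nat_lit 130) (@Lb.g g8 (@Lb.g g9 (@Lb.g g10 (@Lb.g g11 (@Lb.r r419 (@Lb.r r1702 (@Lb.r r344 (@Lb.r r1429 (@Lb.r r1060 (@Lb.d (nat_lit 617) (nat_lit 166) (nat_lit 401) (@Lb.fp (nat_lit 9) t1039))))))))))))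
noncomputable def l11561 : Lb := (@Lb.r r21 (@Lb.r r70 (@Lb.r r263 (@Lb.d (nat_lit 522) (nat_lit 256) (nat_lit 0) (@Lb.g g4 (@Lb.r r2631 (@Lb.r r402 (@Lb.r r97 (@Lb.d (nat_lit 257) (nat_lit 66) (nat_lit 32) (@Lb.t (@Lb.fp (nat_lit 3) t512)))))))))))
noncomputable def l11562 : Lb := (@Lb.d (nat_lit 4) (nat_lit 517) (nat_lit 128) (@Lb.g g9 (@Lb.g g10 (@Lb.g g11 (@Lb.r r662 (@Lb.r r356 (@Lb.r r1323 (@Lb.r r1313 (@Lb.d (nat_lit 9) (nat_lit 36) (nat_lit 277) (@Lb.t (@Lb.fm (nat_lit 9) t795)))))))))))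
noncomputable def l11563 : Lb := (@Lb.d (nat_lit 0) (nat_lit 4) (nat_lit 128) (@Lb.g g8 (@Lb.g g9 (@Lb.g g10 (@Lb.g g11 (@Lb.r r2711 (@Lb.r r664 (@Lb.r r1450 (@Lb.r r425 (@Lb.r r2084 (@Lb.d (nat_lit 129) (nat_lit 73) (nat_lit 658) (@Lb.fp (nat_lit 9) t1700))))))))))))
noncomputable def l11564 : Lb := (@Lb.r r21 (@Lb.d (nat_lit 1) (nat_lit 512) (nat_lit 130) (@Lb.g g8 (@Lb.g g10 (@Lb.g g11 (@Lb.r r1435 (@Lb.r r386 (@Lb.r r1112 (@Lb.r r37 (@Lb.d (nat_lit 528) (nat_lit 69) (nat_lit 601) (@Lb.t (@Lb.fp (nat_lit 9) t756))))))))))))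
noncomputable def l11565 : Lb := (@Lb.d (nat_lit 4) (nat_lit 2) (nat_lit 130) (@Lb.g g8 (@Lb.g g9 (@Lb.g g10 (@Lb.g g11 (@Lb.r r1451 (@Lb.r r386 (@Lb.r r1121 (@Lb.r r24 (@Lb.d (nat_lit 265) (nat_lit 137) (nat_lit 601) (@Lb.fm (nat_lit 9) t756)))))))))))
noncomputable def l11566 : Lb := (@Lb.r r21 (@Lb.d (nat_lit 32) (nat_lit 256) (nat_lit 129) (@Lb.g g8 (@Lb.g g10 (@Lb.g g11 (@Lb.r r1435 (@Lb.r r418 (@Lb.r r2197 (@Lb.r r1108 (@Lb.d (nat_lit 134) (nat_lit 25) (nat_lit 601) (@Lb.t (@Lb.fp (nat_lit 9) t2717))))))))))))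
noncomputable def l11567 : Lb := (@Lb.d (nat_lit 2) (nat_lit 520) (nat_lit 161) (@Lb.g g8 (@Lb.g g9 (@Lb.g g6 (@Lb.g g11 (@Lb.r r612 (@Lb.r r679 (@Lb.r r597 (@Lb.r r36 (@Lb.d (nat_lit 418) (nat_lit 136) (nat_lit 85) (@Lb.fp (nat_lit 9) t2034)))))))))))
noncomputable def l11568 : Lb := (@Lb.d (nat_lit 9) (nat_lit 257) (nat_lit 130) (@Lb.g g8 (@Lb.g g9 (@Lb.g g10 (@Lb.g g11 (@Lb.r r2411 (@Lb.r r386 (@Lb.r r2728 (@Lb.r r2649 (@Lb.d (nat_lit 586) (nat_lit 161) (nat_lit 410) (@Lb.fp (nat_lit 9) t2532)))))))))))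
noncomputable def l11569 : Lb := (@Lb.r r20 (@Lb.r r275 (@Lb.d (nat_lit 4) (nat_lit 266) (nat_lit 2) (@Lb.g g5 (@Lb.g g10 (@Lb.r r1319 (@Lb.r r2200 (@Lb.r r2122 (@Lb.d (nat_lit 0) (nat_lit 1) (nat_lit 34) (@Lb.fm (nat_lit 3) t2718))))))))))
noncomputable def l11570 : Lb := (@Lb.d (nat_lit 106) (nat_lit 36) (nat_lit 534) (@Lb.r r346 (@Lb.r r324 (@Lb.r r667 (@Lb.g g7 (@Lb.g g6 (@Lb.g g9 (@Lb.d (nat_lit 8) (nat_lit 132) (nat_lit 65) (@Lb.r r36 (@Lb.t (@Lb.fp (nat_lit 9) t223)))))))))))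
noncomputable def l11571 : Lb := (@Lb.r r82 (@Lb.d (nat_lit 34) (nat_lit 2) (nat_lit 128) (@Lb.g g8 (@Lb.g g9 (@Lb.g g11 (@Lb.r r1571 (@Lb.r r582 (@Lb.r r1177 (@Lb.r r408 (@Lb.d (nat_lit 344) (nat_lit 16) (nat_lit 584) (@Lb.t (@Lb.fm (nat_lit 9) t2719))))))))))))
noncomputable def l11572 : Lb := (@Lb.r r21 (@Lb.d (nat_lit 1) (nat_lit 0) (nat_lit 130) (@Lb.g g8 (@Lb.g g10 (@Lb.g g11 (@Lb.r r1435 (@Lb.r r386 (@Lb.r r1112 (@Lb.r r37 (@Lb.d (nat_lit 538) (nat_lit 68) (nat_lit 601) (@Lb.t (@Lb.fp (nat_lit 9) t756))))))))))))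
noncomputable def l11573 : Lb := (@Lb.r r21 (@Lb.r r263 (@Lb.d (nat_lit 1) (nat_lit 0) (nat_lit 2) (@Lb.g g8 (@Lb.g g10 (@Lb.r r327 (@Lb.r r85 (@Lb.r r98 (@Lb.r r152 (@Lb.d (nat_lit 37) (nat_lit 4) (nat_lit 2) (@Lb.fp (nat_lit 3) t510)))))))))))
noncomputable def l11574 : Lb := (@Lb.r r21 (@Lb.d (nat_lit 32) (nat_lit 16) (nat_lit 385) (@Lb.g g8 (@Lb.g g10 (@Lb.g g11 (@Lb.r r2634 (@Lb.r r1317 (@Lb.r r1300 (@Lb.d (nat_lit 161) (nat_lit 169) (nat_lit 357) (@Lb.t (@Lb.fp (nat_lit 9) t2720)))))))))))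
noncomputable def l11575 : Lb := (@Lb.d (nat_lit 2) (nat_lit 257) (nat_lit 0) (@Lb.g g8 (@Lb.g g9 (@Lb.g g10 (@Lb.r r675 (@Lb.r r1681 (@Lb.r r2404 (@Lb.r r1178 (@Lb.d (nat_lit 681) (nat_lit 137) (nat_lit 84) (@Lb.t (@Lb.fm (nat_lit 9) t66)))))))))))
noncomputable def l11576 : Lb := (@Lb.r r82 (@Lb.d (nat_lit 34) (nat_lit 2) (nat_lit 136) (@Lb.g g8 (@Lb.g g9 (@Lb.g g11 (@Lb.r r1641 (@Lb.r r150 (@Lb.r r356 (@Lb.r r395 (@Lb.d (nat_lit 384) (nat_lit 150) (nat_lit 64) (@Lb.t (@Lb.fm (nat_lit 9) t152))))))))))))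
noncomputable def l11577 : Lb := (@Lb.d (nat_lit 0) (nat_lit 513) (nat_lit 128) (@Lb.g g8 (@Lb.g g9 (@Lb.g g10 (@Lb.g g11 (@Lb.r r2475 (@Lb.r r324 (@Lb.r r170 (@Lb.r r1193 (@Lb.r r164 (@Lb.d (nat_lit 353) (nat_lit 137) (nat_lit 546) (@Lb.fp (nat_lit 9) t386))))))))))))
noncomputable def l11578 : Lb := (@Lb.d (nat_lit 2) (nat_lit 520) (nat_lit 2) (@Lb.g g8 (@Lb.g g9 (@Lb.g g10 (@Lb.g g11 (@Lb.r r675 (@Lb.r r1681 (@Lb.r r2404 (@Lb.r r1178 (@Lb.d (nat_lit 681) (nat_lit 137) (nat_lit 84) (@Lb.fp (nat_lit 9) t2721)))))))))))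
noncomputable def l11579 : Lb := (@Lb.d (nat_lit 2) (nat_lit 0) (nat_lit 0) (@Lb.g g8 (@Lb.g g9 (@Lb.r r1162 (@Lb.r r1188 (@Lb.r r405 (@Lb.r r1635 (@Lb.d (nat_lit 0) (nat_lit 10) (nat_lit 84) (@Lb.fm (nat_lit 3) t1594)))))))))
noncomputable def l11580 : Lb := (@Lb.d (nat_lit 0) (nat_lit 258) (nat_lit 130) (@Lb.g g9 (@Lb.g g10 (@Lb.g g11 (@Lb.r r427 (@Lb.r r424 (@Lb.r r106 (@Lb.r r25 (@Lb.d (nat_lit 21) (nat_lit 6) (nat_lit 17) (@Lb.t (@Lb.fp (nat_lit 9) t1149)))))))))))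
noncomputable def l11581 : Lb := (@Lb.r r323 (@Lb.d (nat_lit 132) (nat_lit 512) (nat_lit 32) (@Lb.g g8 (@Lb.g g9 (@Lb.g g10 (@Lb.r r263 (@Lb.r r2201 (@Lb.r r536 (@Lb.d (nat_lit 152) (nat_lit 34) (nat_lit 513) (@Lb.t (@Lb.fp (nat_lit 9) t403)))))))))))
noncomputable def l11582 : Lb := (@Lb.d (nat_lit 0) (nat_lit 2) (nat_lit 130) (@Lb.g g8 (@Lb.g g9 (@Lb.g g10 (@Lb.g g11 (@Lb.r r2647 (@Lb.r r2726 (@Lb.r r2645 (@Lb.r r1416 (@Lb.d (nat_lit 265) (nat_lit 9) (nat_lit 33) (@Lb.fm (nat_lit 9) t942)))))))))))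
noncomputable def l11583 : Lb := (@Lb.d (nat_lit 2) (nat_lit 32) (nat_lit 128) (@Lb.g g8 (@Lb.g g11 (@Lb.r r2712 (@Lb.r r293 (@Lb.r r2587 (@Lb.r r2178 (@Lb.d (nat_lit 96) (nat_lit 105) (nat_lit 278) (@Lb.fm (nat_lit 3) t1624)))))))))
noncomputable def l11584 : Lb := (@Lb.d (nat_lit 2) (nat_lit 512) (nat_lit 128) (@Lb.g g8 (@Lb.g g9 (@Lb.g g10 (@Lb.g g11 (@Lb.r r1162 (@Lb.r r548 (@Lb.r r615 (@Lb.r r533 (@Lb.r r1060 (@Lb.d (nat_lit 2) (nat_lit 96) (nat_lit 73) (@Lb.fp (nat_lit 9) t1592))))))))))))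
noncomputable def l11585 : Lb := (@Lb.d (nat_lit 2) (nat_lit 514) (nat_lit 128) (@Lb.g g8 (@Lb.g g9 (@Lb.g g10 (@Lb.g g11 (@Lb.r r643 (@Lb.r r328 (@Lb.r r1638 (@Lb.r r97 (@Lb.r r2084 (@Lb.d (nat_lit 544) (nat_lit 73) (nat_lit 70) (@Lb.fm (nat_lit 9) t1827))))))))))))
noncomputable def l11586 : Lb := (@Lb.d (nat_lit 0) (nat_lit 256) (nat_lit 128) (@Lb.g g10 (@Lb.g g11 (@Lb.r r387 (@Lb.r r402 (@Lb.r r101 (@Lb.d (nat_lit 5) (nat_lit 2) (nat_lit 0) (@Lb.fm (nat_lit 3) t1163))))))))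
noncomputable def l11587 : Lb := (@Lb.d (nat_lit 0) (nat_lit 512) (nat_lit 170) (@Lb.r r609 (@Lb.r r363 (@Lb.r r328 (@Lb.r r134 (@Lb.g g9 (@Lb.t (@Lb.fm (nat_lit 3) t40))))))))
noncomputable def l11588 : Lb := (@Lb.r r323 (@Lb.d (nat_lit 1) (nat_lit 66) (nat_lit 0) (@Lb.g g4 (@Lb.g g9 (@Lb.g g10 (@Lb.r r419 (@Lb.r r98 (@Lb.d (nat_lit 1) (nat_lit 72) (nat_lit 2) (@Lb.t (@Lb.fp (nat_lit 9) t51))))))))))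
noncomputable def l11589 : Lb := (@Lb.d (nat_lit 2) (nat_lit 8) (nat_lit 74) (@Lb.g g8 (@Lb.g g10 (@Lb.g g11 (@Lb.r r357 (@Lb.r r2459 (@Lb.r r2378 (@Lb.d (nat_lit 673) (nat_lit 5) (nat_lit 676) (@Lb.t (@Lb.fp (nat_lit 9) t145))))))))))
noncomputable def l11590 : Lb := (@Lb.r r323 (@Lb.d (nat_lit 4) (nat_lit 0) (nat_lit 0) (@Lb.g g8 (@Lb.g g9 (@Lb.g g10 (@Lb.r r427 (@Lb.r r106 (@Lb.r r25 (@Lb.d (nat_lit 10) (nat_lit 9) (nat_lit 2) (@Lb.t (@Lb.fm (nat_lit 9) t51)))))))))))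
noncomputable def l11591 : Lb := (@Lb.r r323 (@Lb.d (nat_lit 1) (nat_lit 66) (nat_lit 0) (@Lb.g g4 (@Lb.g g9 (@Lb.g g10 (@Lb.r r419 (@Lb.r r98 (@Lb.d (nat_lit 0) (nat_lit 2) (nat_lit 0) (@Lb.t (@Lb.fp (nat_lit 9) t51))))))))))
noncomputable def l11592 : Lb := (@Lb.d (nat_lit 9) (nat_lit 9) (nat_lit 129) (@Lb.g g8 (@Lb.g g9 (@Lb.g g10 (@Lb.g g11 (@Lb.r r682 (@Lb.r r680 (@Lb.r r555 (@Lb.r r529 (@Lb.r r36 (@Lb.d (nat_lit 9) (nat_lit 33) (nat_lit 74) (@Lb.fm (nat_lit 9) t594))))))))))))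
noncomputable def l11593 : Lb := (@Lb.g g6 (@Lb.d (nat_lit 545) (nat_lit 5) (nat_lit 33) (@Lb.t (@Lb.fm (nat_lit 3) t382))))
noncomputable def l11594 : Lb := (@Lb.r r21 (@Lb.r r263 (@Lb.d (nat_lit 288) (nat_lit 0) (nat_lit 1) (@Lb.g g4 (@Lb.g g10 (@Lb.r r267 (@Lb.r r134 (@Lb.r r25 (@Lb.d (nat_lit 273) (nat_lit 5) (nat_lit 34) (@Lb.fm (nat_lit 3) t1556))))))))))
noncomputable def l11595 : Lb := (@Lb.d (nat_lit 34) (nat_lit 258) (nat_lit 136) (@Lb.g g8 (@Lb.g g9 (@Lb.g g11 (@Lb.r r1186 (@Lb.r r1065 (@Lb.r r360 (@Lb.r r1543 (@Lb.d (nat_lit 386) (nat_lit 154) (nat_lit 149) (@Lb.t (@Lb.fm (nat_lit 9) t242)))))))))))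
noncomputable def l11596 : Lb := (@Lb.d (nat_lit 128) (nat_lit 512) (nat_lit 128) (@Lb.g g11 (@Lb.r r2630 (@Lb.r r24 (@Lb.r r405 (@Lb.r r291 (@Lb.d (nat_lit 0) (nat_lit 161) (nat_lit 618) (@Lb.t (@Lb.fm (nat_lit 3) t386)))))))))
noncomputable def l11597 : Lb := (@Lb.d (nat_lit 1) (nat_lit 0) (nat_lit 0) (@Lb.r r24 (@Lb.r r101 (@Lb.r r402 (@Lb.r r323 (@Lb.g g7 (@Lb.g g6 (@Lb.g g5 (@Lb.d (nat_lit 0) (nat_lit 0) (nat_lit 64) (@Lb.t (@Lb.fm (nat_lit 9) t50)))))))))))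
noncomputable def l11598 : Lb := (@Lb.r r1427 (@Lb.r r101 (@Lb.r r24 (@Lb.d (nat_lit 538) (nat_lit 128) (nat_lit 0) (@Lb.fp (nat_lit 1) t518)))))
noncomputable def l11599 : Lb := (@Lb.d (nat_lit 0) (nat_lit 0) (nat_lit 129) (@Lb.g g10 (@Lb.g g11 (@Lb.r r323 (@Lb.r r24 (@Lb.r r165 (@Lb.r r610 (@Lb.d (nat_lit 5) (nat_lit 160) (nat_lit 324) (@Lb.fm (nat_lit 3) t1557)))))))))
noncomputable def l11600 : Lb := (@Lb.g g6 (@Lb.r r24 (@Lb.r r101 (@Lb.r r402 (@Lb.d (nat_lit 5) (nat_lit 677) (nat_lit 325) (@Lb.t (@Lb.fp (nat_lit 3) t1557)))))))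
noncomputable def l11601 : Lb := (@Lb.r r82 (@Lb.d (nat_lit 2) (nat_lit 256) (nat_lit 128) (@Lb.g g8 (@Lb.g g9 (@Lb.g g11 (@Lb.r r547 (@Lb.r r386 (@Lb.r r344 (@Lb.r r549 (@Lb.d (nat_lit 42) (nat_lit 65) (nat_lit 20) (@Lb.t (@Lb.fm (nat_lit 9) t2722))))))))))))
noncomputable def l11602 : Lb := (@Lb.d (nat_lit 554) (nat_lit 649) (nat_lit 34) (@Lb.r r2218 (@Lb.r r2724 (@Lb.r r2725 (@Lb.r r1623 (@Lb.g g7 (@Lb.g g6 (@Lb.g g5 (@Lb.d (nat_lit 0) (nat_lit 1) (nat_lit 8) (@Lb.t (@Lb.fm (nat_lit 9) t1397)))))))))))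
noncomputable def l11603 : Lb := (@Lb.d (nat_lit 0) (nat_lit 73) (nat_lit 138) (@Lb.r r609 (@Lb.r r363 (@Lb.r r324 (@Lb.r r138 (@Lb.g g9 (@Lb.g g8 (@Lb.fm (nat_lit 3) t39))))))))
noncomputable def l11604 : Lb := (@Lb.d (nat_lit 149) (nat_lit 68) (nat_lit 68) (@Lb.r r421 (@Lb.r r664 (@Lb.r r70 (@Lb.r r599 (@Lb.g g6 (@Lb.g g5 (@Lb.g g4 (@Lb.d (nat_lit 1) (nat_lit 17) (nat_lit 2) (@Lb.t (@Lb.fm (nat_lit 9) t2569)))))))))))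
noncomputable def l11605 : Lb := (@Lb.d (nat_lit 128) (nat_lit 32) (nat_lit 64) (@Lb.g g11 (@Lb.r r360 (@Lb.r r2409 (@Lb.r r2646 (@Lb.r r1623 (@Lb.d (nat_lit 84) (nat_lit 102) (nat_lit 602) (@Lb.t (@Lb.fm (nat_lit 3) t322)))))))))
noncomputable def l11606 : Lb := (@Lb.r r82 (@Lb.d (nat_lit 34) (nat_lit 2) (nat_lit 136) (@Lb.g g8 (@Lb.g g9 (@Lb.g g11 (@Lb.r r1362 (@Lb.r r2645 (@Lb.r r356 (@Lb.r r395 (@Lb.d (nat_lit 546) (nat_lit 41) (nat_lit 682) (@Lb.t (@Lb.fm (nat_lit 9) t98))))))))))))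
noncomputable def l11607 : Lb := (@Lb.r r82 (@Lb.d (nat_lit 32) (nat_lit 258) (nat_lit 136) (@Lb.g g8 (@Lb.g g9 (@Lb.g g11 (@Lb.r r1362 (@Lb.r r2645 (@Lb.r r356 (@Lb.r r395 (@Lb.d (nat_lit 546) (nat_lit 34) (nat_lit 680) (@Lb.t (@Lb.fm (nat_lit 9) t98))))))))))))
noncomputable def l11608 : Lb := (@Lb.d (nat_lit 2) (nat_lit 258) (nat_lit 64) (@Lb.g g8 (@Lb.g g9 (@Lb.g g11 (@Lb.r r600 (@Lb.r r2587 (@Lb.r r2178 (@Lb.r r2325 (@Lb.r r1572 (@Lb.d (nat_lit 274) (nat_lit 129) (nat_lit 104) (@Lb.t (@Lb.fp (nat_lit 9) t180))))))))))))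
noncomputable def l11609 : Lb := (@Lb.d (nat_lit 2) (nat_lit 2) (nat_lit 130) (@Lb.g g8 (@Lb.g g9 (@Lb.g g10 (@Lb.g g11 (@Lb.r r2666 (@Lb.r r579 (@Lb.r r97 (@Lb.r r24 (@Lb.d (nat_lit 420) (nat_lit 6) (nat_lit 424) (@Lb.fm (nat_lit 9) t61)))))))))))
noncomputable def l11610 : Lb := (@Lb.d (nat_lit 2) (nat_lit 2) (nat_lit 137) (@Lb.g g8 (@Lb.g g9 (@Lb.g g10 (@Lb.g g11 (@Lb.r r2691 (@Lb.r r297 (@Lb.r r360 (@Lb.r r582 (@Lb.r r2180 (@Lb.d (nat_lit 641) (nat_lit 10) (nat_lit 329) (@Lb.fm (nat_lit 9) t242))))))))))))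
noncomputable def l11611 : Lb := (@Lb.r r1287 (@Lb.r r1094 (@Lb.r r1045 (@Lb.r r8 (@Lb.d (nat_lit 2) (nat_lit 256) (nat_lit 0) (@Lb.fm (nat_lit 1) t284))))))
noncomputable def l11612 : Lb := (@Lb.d (nat_lit 2) (nat_lit 258) (nat_lit 74) (@Lb.g g8 (@Lb.g g9 (@Lb.g g10 (@Lb.g g11 (@Lb.r r657 (@Lb.r r535 (@Lb.r r392 (@Lb.r r74 (@Lb.d (nat_lit 33) (nat_lit 10) (nat_lit 17) (@Lb.fp (nat_lit 9) t221)))))))))))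
noncomputable def l11613 : Lb := (@Lb.d (nat_lit 273) (nat_lit 266) (nat_lit 32) (@Lb.fp (nat_lit 1) t1507))
noncomputable def l11614 : Lb := (@Lb.d (nat_lit 4) (nat_lit 256) (nat_lit 130) (@Lb.g g8 (@Lb.g g9 (@Lb.g g10 (@Lb.g g11 (@Lb.r r427 (@Lb.r r420 (@Lb.r r102 (@Lb.r r97 (@Lb.r r36 (@Lb.d (nat_lit 2) (nat_lit 2) (nat_lit 138) (@Lb.fm (nat_lit 9) t51))))))))))))
noncomputable def l11615 : Lb := (@Lb.r r82 (@Lb.d (nat_lit 34) (nat_lit 512) (nat_lit 136) (@Lb.g g8 (@Lb.g g9 (@Lb.g g11 (@Lb.r r617 (@Lb.r r150 (@Lb.r r356 (@Lb.r r395 (@Lb.d (nat_lit 129) (nat_lit 34) (nat_lit 73) (@Lb.t (@Lb.fm (nat_lit 9) t355))))))))))))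
noncomputable def l11616 : Lb := (@Lb.r r82 (@Lb.d (nat_lit 34) (nat_lit 546) (nat_lit 64) (@Lb.g g8 (@Lb.g g9 (@Lb.g g11 (@Lb.r r674 (@Lb.r r553 (@Lb.r r616 (@Lb.r r587 (@Lb.d (nat_lit 129) (nat_lit 34) (nat_lit 136) (@Lb.t (@Lb.fm (nat_lit 9) t98))))))))))))
noncomputable def l11617 : Lb := (@Lb.d (nat_lit 130) (nat_lit 34) (nat_lit 0) (@Lb.g g8 (@Lb.g g9 (@Lb.r r2695 (@Lb.r r2178 (@Lb.r r408 (@Lb.r r2085 (@Lb.d (nat_lit 26) (nat_lit 165) (nat_lit 513) (@Lb.fm (nat_lit 3) t64)))))))))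
noncomputable def l11618 : Lb := (@Lb.d (nat_lit 9) (nat_lit 257) (nat_lit 130) (@Lb.g g8 (@Lb.g g9 (@Lb.g g10 (@Lb.g g11 (@Lb.r r1602 (@Lb.r r409 (@Lb.r r2659 (@Lb.r r2577 (@Lb.r r2564 (@Lb.d (nat_lit 640) (nat_lit 73) (nat_lit 386) (@Lb.fm (nat_lit 9) t322))))))))))))
noncomputable def l11619 : Lb := (@Lb.r r323 (@Lb.d (nat_lit 33) (nat_lit 514) (nat_lit 16) (@Lb.g g8 (@Lb.g g9 (@Lb.g g6 (@Lb.r r387 (@Lb.r r97 (@Lb.r r2072 (@Lb.d (nat_lit 266) (nat_lit 137) (nat_lit 2) (@Lb.t (@Lb.fp (nat_lit 9) t217)))))))))))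
noncomputable def l11620 : Lb := (@Lb.d (nat_lit 4) (nat_lit 0) (nat_lit 130) (@Lb.g g8 (@Lb.g g9 (@Lb.g g10 (@Lb.g g11 (@Lb.r r2691 (@Lb.r r297 (@Lb.r r360 (@Lb.r r582 (@Lb.r r2180 (@Lb.d (nat_lit 640) (nat_lit 10) (nat_lit 329) (@Lb.fm (nat_lit 9) t242))))))))))))
noncomputable def l11621 : Lb := (@Lb.d (nat_lit 4) (nat_lit 256) (nat_lit 73) (@Lb.g g8 (@Lb.g g9 (@Lb.g g10 (@Lb.g g11 (@Lb.r r2691 (@Lb.r r297 (@Lb.r r360 (@Lb.r r582 (@Lb.r r2180 (@Lb.d (nat_lit 640) (nat_lit 10) (nat_lit 329) (@Lb.fm (nat_lit 9) t242))))))))))))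
noncomputable def l11622 : Lb := (@Lb.d (nat_lit 2) (nat_lit 521) (nat_lit 130) (@Lb.g g8 (@Lb.g g9 (@Lb.g g10 (@Lb.g g11 (@Lb.r r643 (@Lb.r r297 (@Lb.r r360 (@Lb.r r582 (@Lb.r r132 (@Lb.d (nat_lit 130) (nat_lit 5) (nat_lit 72) (@Lb.fm (nat_lit 9) t98))))))))))))
noncomputable def l11623 : Lb := (@Lb.d (nat_lit 5) (nat_lit 256) (nat_lit 130) (@Lb.g g8 (@Lb.g g9 (@Lb.g g10 (@Lb.g g11 (@Lb.r r1706 (@Lb.r r648 (@Lb.r r1563 (@Lb.r r2337 (@Lb.r r36 (@Lb.d (nat_lit 642) (nat_lit 98) (nat_lit 64) (@Lb.fp (nat_lit 9) t242))))))))))))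
noncomputable def l11624 : Lb := (@Lb.d (nat_lit 5) (nat_lit 0) (nat_lit 130) (@Lb.g g8 (@Lb.g g9 (@Lb.g g10 (@Lb.g g11 (@Lb.r r427 (@Lb.r r420 (@Lb.r r102 (@Lb.r r97 (@Lb.r r36 (@Lb.d (nat_lit 2) (nat_lit 2) (nat_lit 138) (@Lb.fm (nat_lit 9) t51))))))))))))
noncomputable def l11625 : Lb := (@Lb.d (nat_lit 8) (nat_lit 2) (nat_lit 130) (@Lb.g g9 (@Lb.g g10 (@Lb.g g11 (@Lb.r r614 (@Lb.r r404 (@Lb.r r683 (@Lb.r r673 (@Lb.d (nat_lit 2) (nat_lit 21) (nat_lit 8) (@Lb.t (@Lb.fm (nat_lit 9) t51)))))))))))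
noncomputable def l11626 : Lb := (@Lb.g g8 (@Lb.g g10 (@Lb.r r609 (@Lb.r r2659 (@Lb.r r338 (@Lb.r r2705 (@Lb.p (nat_lit 1) (@Lb.fm (nat_lit 3) t322))))))))
noncomputable def l11627 : Lb := (@Lb.d (nat_lit 133) (nat_lit 261) (nat_lit 74) (@Lb.g g8 (@Lb.g g9 (@Lb.g g10 (@Lb.g g11 (@Lb.r r683 (@Lb.r r2410 (@Lb.r r1301 (@Lb.r r536 (@Lb.d (nat_lit 166) (nat_lit 162) (nat_lit 261) (@Lb.fp (nat_lit 9) t328)))))))))))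
noncomputable def l11628 : Lb := (@Lb.d (nat_lit 8) (nat_lit 516) (nat_lit 74) (@Lb.g g9 (@Lb.g g10 (@Lb.g g11 (@Lb.r r1703 (@Lb.r r2392 (@Lb.r r1158 (@Lb.r r1617 (@Lb.d (nat_lit 288) (nat_lit 102) (nat_lit 386) (@Lb.t (@Lb.fp (nat_lit 9) t927)))))))))))
noncomputable def l11629 : Lb := (@Lb.d (nat_lit 0) (nat_lit 266) (nat_lit 136) (@Lb.g g5 (@Lb.g g11 (@Lb.d (nat_lit 0) (nat_lit 5) (nat_lit 2) (@Lb.fp (nat_lit 3) t291)))))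
noncomputable def l11630 : Lb := (@Lb.r r82 (@Lb.d (nat_lit 34) (nat_lit 258) (nat_lit 128) (@Lb.g g8 (@Lb.g g9 (@Lb.g g11 (@Lb.r r363 (@Lb.r r582 (@Lb.r r392 (@Lb.d (nat_lit 152) (nat_lit 9) (nat_lit 153) (@Lb.t (@Lb.fp (nat_lit 9) t540)))))))))))
noncomputable def l11631 : Lb := (@Lb.r r82 (@Lb.r r275 (@Lb.d (nat_lit 9) (nat_lit 258) (nat_lit 0) (@Lb.g g8 (@Lb.g g9 (@Lb.r r2201 (@Lb.r r402 (@Lb.r r1603 (@Lb.d (nat_lit 648) (nat_lit 2) (nat_lit 384) (@Lb.fm (nat_lit 3) t1826))))))))))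
noncomputable def l11632 : Lb := (@Lb.d (nat_lit 8) (nat_lit 514) (nat_lit 130) (@Lb.g g9 (@Lb.g g10 (@Lb.g g11 (@Lb.r r1703 (@Lb.r r2392 (@Lb.r r1158 (@Lb.r r1617 (@Lb.d (nat_lit 288) (nat_lit 102) (nat_lit 386) (@Lb.t (@Lb.fp (nat_lit 9) t2723)))))))))))
noncomputable def l11633 : Lb := (@Lb.d (nat_lit 586) (nat_lit 168) (nat_lit 641) (@Lb.r r1560 (@Lb.r r277 (@Lb.r r619 (@Lb.g g6 (@Lb.g g8 (@Lb.d (nat_lit 69) (nat_lit 0) (nat_lit 36) (@Lb.r r387 (@Lb.fp (nat_lit 3) t1971)))))))))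
noncomputable def l11634 : Lb := (@Lb.r r82 (@Lb.d (nat_lit 2) (nat_lit 2) (nat_lit 128) (@Lb.g g8 (@Lb.g g9 (@Lb.g g11 (@Lb.r r299 (@Lb.r r296 (@Lb.r r153 (@Lb.r r146 (@Lb.d (nat_lit 2) (nat_lit 5) (nat_lit 16) (@Lb.t (@Lb.fm (nat_lit 9) t2724))))))))))))
noncomputable def l11635 : Lb := (@Lb.d (nat_lit 9) (nat_lit 6) (nat_lit 74) (@Lb.g g8 (@Lb.g g9 (@Lb.g g10 (@Lb.g g11 (@Lb.r r2729 (@Lb.r r2724 (@Lb.r r1671 (@Lb.r r578 (@Lb.d (nat_lit 337) (nat_lit 162) (nat_lit 344) (@Lb.fp (nat_lit 9) t208)))))))))))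
noncomputable def l11636 : Lb := (@Lb.d (nat_lit 8) (nat_lit 514) (nat_lit 2) (@Lb.g g9 (@Lb.g g10 (@Lb.g g11 (@Lb.r r2471 (@Lb.r r98 (@Lb.r r24 (@Lb.r r101 (@Lb.d (nat_lit 21) (nat_lit 73) (nat_lit 2) (@Lb.t (@Lb.fm (nat_lit 9) t825)))))))))))
noncomputable def l11637 : Lb := (@Lb.d (nat_lit 18) (nat_lit 133) (nat_lit 18) (@Lb.r r2337 (@Lb.r r1094 (@Lb.r r2391 (@Lb.g g7 (@Lb.g g6 (@Lb.g g5 (@Lb.g g4 (@Lb.d (nat_lit 1) (nat_lit 0) (nat_lit 65) (@Lb.fm (nat_lit 9) t2725))))))))))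
noncomputable def l11638 : Lb := (@Lb.r r323 (@Lb.d (nat_lit 2) (nat_lit 258) (nat_lit 2) (@Lb.g g8 (@Lb.g g9 (@Lb.g g10 (@Lb.r r401 (@Lb.r r299 (@Lb.r r392 (@Lb.r r74 (@Lb.d (nat_lit 33) (nat_lit 0) (nat_lit 1) (@Lb.t (@Lb.fp (nat_lit 9) t61))))))))))))
noncomputable def l11639 : Lb := (@Lb.d (nat_lit 2) (nat_lit 514) (nat_lit 4) (@Lb.g g8 (@Lb.g g9 (@Lb.g g10 (@Lb.g g11 (@Lb.r r427 (@Lb.r r145 (@Lb.r r356 (@Lb.r r154 (@Lb.r r132 (@Lb.d (nat_lit 9) (nat_lit 2) (nat_lit 137) (@Lb.fm (nat_lit 9) t61))))))))))))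
noncomputable def l11640 : Lb := (@Lb.d (nat_lit 2) (nat_lit 258) (nat_lit 4) (@Lb.g g8 (@Lb.g g9 (@Lb.g g10 (@Lb.g g11 (@Lb.r r427 (@Lb.r r145 (@Lb.r r356 (@Lb.r r154 (@Lb.r r132 (@Lb.d (nat_lit 9) (nat_lit 2) (nat_lit 2) (@Lb.fm (nat_lit 9) t61))))))))))))
noncomputable def l11641 : Lb := (@Lb.d (nat_lit 0) (nat_lit 401) (nat_lit 289) (@Lb.r r81 (@Lb.r r2466 (@Lb.g g11 (@Lb.g g6 (@Lb.g g5 (@Lb.d (nat_lit 0) (nat_lit 8) (nat_lit 0) (@Lb.t (@Lb.fp (nat_lit 9) t2726)))))))))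
noncomputable def l11642 : Lb := (@Lb.r r323 (@Lb.d (nat_lit 2) (nat_lit 514) (nat_lit 2) (@Lb.g g8 (@Lb.g g9 (@Lb.g g10 (@Lb.r r401 (@Lb.r r299 (@Lb.r r392 (@Lb.r r74 (@Lb.d (nat_lit 33) (nat_lit 0) (nat_lit 136) (@Lb.t (@Lb.fp (nat_lit 9) t61))))))))))))
noncomputable def l11643 : Lb := (@Lb.d (nat_lit 0) (nat_lit 0) (nat_lit 641) (@Lb.r r146 (@Lb.r r357 (@Lb.r r24 (@Lb.g g11 (@Lb.d (nat_lit 0) (nat_lit 0) (nat_lit 384) (@Lb.r r578 (@Lb.t (@Lb.fm (nat_lit 3) t2727)))))))))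
noncomputable def l11644 : Lb := (@Lb.r r82 (@Lb.d (nat_lit 0) (nat_lit 273) (nat_lit 0) (@Lb.g g9 (@Lb.g g11 (@Lb.r r2467 (@Lb.r r386 (@Lb.r r2725 (@Lb.r r24 (@Lb.d (nat_lit 146) (nat_lit 0) (nat_lit 420) (@Lb.fp (nat_lit 3) t200))))))))))
noncomputable def l11645 : Lb := (@Lb.d (nat_lit 34) (nat_lit 0) (nat_lit 136) (@Lb.g g8 (@Lb.g g11 (@Lb.r r1173 (@Lb.r r150 (@Lb.r r356 (@Lb.r r1291 (@Lb.d (nat_lit 1) (nat_lit 41) (nat_lit 388) (@Lb.fp (nat_lit 3) t322)))))))))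
noncomputable def l11646 : Lb := (@Lb.d (nat_lit 2) (nat_lit 258) (nat_lit 5) (@Lb.g g8 (@Lb.g g9 (@Lb.g g10 (@Lb.g g11 (@Lb.r r2723 (@Lb.r r2453 (@Lb.r r356 (@Lb.r r154 (@Lb.d (nat_lit 666) (nat_lit 10) (nat_lit 345) (@Lb.fp (nat_lit 9) t228)))))))))))
noncomputable def l11647 : Lb := (@Lb.d (nat_lit 160) (nat_lit 512) (nat_lit 130) (@Lb.g g10 (@Lb.g g11 (@Lb.r r264 (@Lb.r r2647 (@Lb.r r1433 (@Lb.r r410 (@Lb.d (nat_lit 410) (nat_lit 25) (nat_lit 537) (@Lb.fp (nat_lit 3) t2728)))))))))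
noncomputable def l11648 : Lb := (@Lb.d (nat_lit 1) (nat_lit 256) (nat_lit 130) (@Lb.g g8 (@Lb.g g10 (@Lb.g g11 (@Lb.r r2601 (@Lb.r r299 (@Lb.r r2148 (@Lb.r r1434 (@Lb.d (nat_lit 346) (nat_lit 90) (nat_lit 389) (@Lb.t (@Lb.fm (nat_lit 9) t272)))))))))))
noncomputable def l11649 : Lb := (@Lb.d (nat_lit 152) (nat_lit 264) (nat_lit 73) (@Lb.g g8 (@Lb.g g9 (@Lb.g g10 (@Lb.g g11 (@Lb.r r683 (@Lb.r r2410 (@Lb.r r1301 (@Lb.r r1540 (@Lb.d (nat_lit 89) (nat_lit 153) (nat_lit 533) (@Lb.fm (nat_lit 9) t328)))))))))))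
noncomputable def l11650 : Lb := (@Lb.d (nat_lit 2) (nat_lit 9) (nat_lit 130) (@Lb.g g8 (@Lb.g g9 (@Lb.g g10 (@Lb.g g11 (@Lb.r r2723 (@Lb.r r2453 (@Lb.r r356 (@Lb.r r154 (@Lb.d (nat_lit 665) (nat_lit 10) (nat_lit 409) (@Lb.fp (nat_lit 9) t2729)))))))))))
noncomputable def l11651 : Lb := (@Lb.d (nat_lit 681) (nat_lit 132) (nat_lit 341) (@Lb.r r1604 (@Lb.r r535 (@Lb.r r353 (@Lb.g g7 (@Lb.g g6 (@Lb.g g4 (@Lb.d (nat_lit 5) (nat_lit 16) (nat_lit 165) (@Lb.t (@Lb.fp (nat_lit 9) t572))))))))))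
noncomputable def l11652 : Lb := (@Lb.d (nat_lit 152) (nat_lit 8) (nat_lit 73) (@Lb.g g8 (@Lb.g g9 (@Lb.g g10 (@Lb.g g11 (@Lb.r r683 (@Lb.r r2410 (@Lb.r r1301 (@Lb.r r1540 (@Lb.d (nat_lit 82) (nat_lit 25) (nat_lit 533) (@Lb.fm (nat_lit 9) t2730)))))))))))
noncomputable def l11653 : Lb := (@Lb.r r21 (@Lb.d (nat_lit 128) (nat_lit 520) (nat_lit 130) (@Lb.g g8 (@Lb.g g10 (@Lb.g g11 (@Lb.r r407 (@Lb.r r2401 (@Lb.r r1432 (@Lb.r r2202 (@Lb.d (nat_lit 280) (nat_lit 69) (nat_lit 609) (@Lb.t (@Lb.fp (nat_lit 9) t2731))))))))))))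
noncomputable def l11654 : Lb := (@Lb.d (nat_lit 32) (nat_lit 514) (nat_lit 130) (@Lb.g g9 (@Lb.g g10 (@Lb.g g11 (@Lb.r r2695 (@Lb.r r293 (@Lb.r r1352 (@Lb.r r2710 (@Lb.d (nat_lit 677) (nat_lit 165) (nat_lit 336) (@Lb.t (@Lb.fm (nat_lit 9) t242)))))))))))
noncomputable def l11655 : Lb := (@Lb.r r323 (@Lb.d (nat_lit 2) (nat_lit 514) (nat_lit 1) (@Lb.g g8 (@Lb.g g9 (@Lb.g g6 (@Lb.r r387 (@Lb.r r97 (@Lb.r r24 (@Lb.d (nat_lit 10) (nat_lit 2) (nat_lit 0) (@Lb.t (@Lb.fp (nat_lit 9) t40)))))))))))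
noncomputable def l11656 : Lb := (@Lb.d (nat_lit 146) (nat_lit 265) (nat_lit 73) (@Lb.g g8 (@Lb.g g9 (@Lb.g g10 (@Lb.g g11 (@Lb.r r683 (@Lb.r r2410 (@Lb.r r1561 (@Lb.r r1540 (@Lb.d (nat_lit 388) (nat_lit 152) (nat_lit 5) (@Lb.fm (nat_lit 9) t1846)))))))))))
noncomputable def l11657 : Lb := (@Lb.d (nat_lit 152) (nat_lit 520) (nat_lit 130) (@Lb.g g8 (@Lb.g g9 (@Lb.g g10 (@Lb.g g11 (@Lb.r r423 (@Lb.r r1681 (@Lb.r r1432 (@Lb.r r2202 (@Lb.d (nat_lit 169) (nat_lit 69) (nat_lit 81) (@Lb.fp (nat_lit 9) t269)))))))))))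
noncomputable def l11658 : Lb := (@Lb.r r82 (@Lb.d (nat_lit 9) (nat_lit 137) (nat_lit 128) (@Lb.g g8 (@Lb.g g5 (@Lb.g g11 (@Lb.r r532 (@Lb.r r2311 (@Lb.r r98 (@Lb.r r1540 (@Lb.d (nat_lit 2) (nat_lit 162) (nat_lit 673) (@Lb.t (@Lb.fp (nat_lit 9) t2083))))))))))))
noncomputable def l11659 : Lb := (@Lb.d (nat_lit 34) (nat_lit 1) (nat_lit 0) (@Lb.g g8 (@Lb.g g9 (@Lb.r r2379 (@Lb.r r582 (@Lb.r r420 (@Lb.r r1061 (@Lb.d (nat_lit 518) (nat_lit 152) (nat_lit 682) (@Lb.fp (nat_lit 3) t2732)))))))))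
noncomputable def l11660 : Lb := (@Lb.r r21 (@Lb.r r322 (@Lb.d (nat_lit 2) (nat_lit 512) (nat_lit 8) (@Lb.g g8 (@Lb.g g11 (@Lb.r r1414 (@Lb.r r2580 (@Lb.r r25 (@Lb.d (nat_lit 328) (nat_lit 166) (nat_lit 329) (@Lb.fp (nat_lit 3) t2733))))))))))
noncomputable def l11661 : Lb := (@Lb.r r21 (@Lb.r r322 (@Lb.d (nat_lit 129) (nat_lit 32) (nat_lit 128) (@Lb.g g8 (@Lb.g g11 (@Lb.r r1381 (@Lb.r r146 (@Lb.r r2648 (@Lb.d (nat_lit 661) (nat_lit 170) (nat_lit 358) (@Lb.fp (nat_lit 3) t1713))))))))))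
noncomputable def l11662 : Lb := (@Lb.d (nat_lit 33) (nat_lit 514) (nat_lit 130) (@Lb.g g8 (@Lb.g g9 (@Lb.g g10 (@Lb.g g11 (@Lb.r r1667 (@Lb.r r2345 (@Lb.r r360 (@Lb.r r2630 (@Lb.r r2180 (@Lb.d (nat_lit 385) (nat_lit 74) (nat_lit 617) (@Lb.fm (nat_lit 9) t1549))))))))))))
noncomputable def l11663 : Lb := (@Lb.d (nat_lit 128) (nat_lit 260) (nat_lit 128) (@Lb.g g8 (@Lb.g g9 (@Lb.g g10 (@Lb.g g11 (@Lb.r r683 (@Lb.r r2410 (@Lb.r r537 (@Lb.r r516 (@Lb.d (nat_lit 130) (nat_lit 90) (nat_lit 21) (@Lb.fm (nat_lit 9) t995)))))))))))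
noncomputable def l11664 : Lb := (@Lb.d (nat_lit 33) (nat_lit 258) (nat_lit 73) (@Lb.g g8 (@Lb.g g9 (@Lb.g g10 (@Lb.g g11 (@Lb.r r1667 (@Lb.r r2345 (@Lb.r r360 (@Lb.r r2630 (@Lb.r r2180 (@Lb.d (nat_lit 384) (nat_lit 74) (nat_lit 617) (@Lb.fm (nat_lit 9) t1549))))))))))))
noncomputable def l11665 : Lb := (@Lb.d (nat_lit 129) (nat_lit 4) (nat_lit 5) (@Lb.g g8 (@Lb.g g9 (@Lb.g g10 (@Lb.g g11 (@Lb.r r683 (@Lb.r r618 (@Lb.r r537 (@Lb.r r516 (@Lb.d (nat_lit 130) (nat_lit 10) (nat_lit 129) (@Lb.fm (nat_lit 9) t2394)))))))))))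
noncomputable def l11666 : Lb := (@Lb.d (nat_lit 9) (nat_lit 545) (nat_lit 132) (@Lb.g g8 (@Lb.g g9 (@Lb.g g10 (@Lb.g g11 (@Lb.r r682 (@Lb.r r676 (@Lb.r r551 (@Lb.r r533 (@Lb.r r36 (@Lb.d (nat_lit 136) (nat_lit 1) (nat_lit 74) (@Lb.fp (nat_lit 9) t68))))))))))))
noncomputable def l11667 : Lb := (@Lb.d (nat_lit 0) (nat_lit 9) (nat_lit 2) (@Lb.g g9 (@Lb.g g10 (@Lb.r r2146 (@Lb.r r97 (@Lb.d (nat_lit 0) (nat_lit 137) (nat_lit 16) (@Lb.fp (nat_lit 3) t1407)))))))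
noncomputable def l11668 : Lb := (@Lb.r r323 (@Lb.d (nat_lit 0) (nat_lit 258) (nat_lit 1) (@Lb.g g8 (@Lb.g g9 (@Lb.g g10 (@Lb.r r2449 (@Lb.r r299 (@Lb.r r2440 (@Lb.r r2122 (@Lb.d (nat_lit 289) (nat_lit 10) (nat_lit 170) (@Lb.t (@Lb.fp (nat_lit 9) t61))))))))))))
noncomputable def l11669 : Lb := (@Lb.r r323 (@Lb.d (nat_lit 0) (nat_lit 516) (nat_lit 2) (@Lb.g g8 (@Lb.g g9 (@Lb.g g10 (@Lb.r r2449 (@Lb.r r299 (@Lb.r r2440 (@Lb.r r2122 (@Lb.d (nat_lit 290) (nat_lit 10) (nat_lit 170) (@Lb.t (@Lb.fp (nat_lit 9) t31))))))))))))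
noncomputable def l11670 : Lb := (@Lb.d (nat_lit 33) (nat_lit 2) (nat_lit 130) (@Lb.g g8 (@Lb.g g9 (@Lb.g g10 (@Lb.g g11 (@Lb.r r675 (@Lb.r r164 (@Lb.r r661 (@Lb.r r150 (@Lb.r r36 (@Lb.d (nat_lit 33) (nat_lit 34) (nat_lit 130) (@Lb.fp (nat_lit 9) t892))))))))))))
noncomputable def l11671 : Lb := (@Lb.d (nat_lit 33) (nat_lit 514) (nat_lit 66) (@Lb.g g8 (@Lb.g g9 (@Lb.g g10 (@Lb.g g11 (@Lb.r r676 (@Lb.r r263 (@Lb.r r2210 (@Lb.r r145 (@Lb.r r516 (@Lb.d (nat_lit 2) (nat_lit 66) (nat_lit 666) (@Lb.fm (nat_lit 9) t925))))))))))))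
noncomputable def l11672 : Lb := (@Lb.d (nat_lit 33) (nat_lit 258) (nat_lit 73) (@Lb.g g8 (@Lb.g g9 (@Lb.g g10 (@Lb.g g11 (@Lb.r r675 (@Lb.r r164 (@Lb.r r661 (@Lb.r r150 (@Lb.r r36 (@Lb.d (nat_lit 33) (nat_lit 34) (nat_lit 130) (@Lb.fp (nat_lit 9) t892))))))))))))
noncomputable def l11673 : Lb := (@Lb.d (nat_lit 129) (nat_lit 2) (nat_lit 132) (@Lb.g g8 (@Lb.g g9 (@Lb.g g10 (@Lb.g g11 (@Lb.r r683 (@Lb.r r618 (@Lb.r r1572 (@Lb.r r37 (@Lb.d (nat_lit 290) (nat_lit 98) (nat_lit 673) (@Lb.fp (nat_lit 9) t1033)))))))))))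
noncomputable def l11674 : Lb := (@Lb.d (nat_lit 33) (nat_lit 514) (nat_lit 130) (@Lb.g g8 (@Lb.g g9 (@Lb.g g10 (@Lb.g g11 (@Lb.r r675 (@Lb.r r164 (@Lb.r r661 (@Lb.r r150 (@Lb.r r36 (@Lb.d (nat_lit 34) (nat_lit 34) (nat_lit 130) (@Lb.fp (nat_lit 9) t892))))))))))))
noncomputable def l11675 : Lb := (@Lb.g g5 (@Lb.r r89 (@Lb.r r166 (@Lb.r r340 (@Lb.r r683 (@Lb.r r657 (@Lb.r r36 (@Lb.t (@Lb.fm (nat_lit 3) t2)))))))))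
noncomputable def l11676 : Lb := (@Lb.d (nat_lit 0) (nat_lit 258) (nat_lit 130) (@Lb.g g8 (@Lb.g g9 (@Lb.g g10 (@Lb.g g11 (@Lb.r r683 (@Lb.r r676 (@Lb.r r166 (@Lb.r r145 (@Lb.d (nat_lit 9) (nat_lit 2) (nat_lit 0) (@Lb.fp (nat_lit 9) t51)))))))))))
noncomputable def l11677 : Lb := (@Lb.d (nat_lit 4) (nat_lit 1) (nat_lit 0) (@Lb.g g5 (@Lb.d (nat_lit 298) (nat_lit 2) (nat_lit 34) (@Lb.t (@Lb.fm (nat_lit 3) t127)))))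
noncomputable def l11678 : Lb := (@Lb.d (nat_lit 394) (nat_lit 516) (nat_lit 38) (@Lb.r r168 (@Lb.r r89 (@Lb.r r386 (@Lb.r r339 (@Lb.g g7 (@Lb.g g6 (@Lb.g g4 (@Lb.d (nat_lit 4) (nat_lit 0) (nat_lit 65) (@Lb.t (@Lb.fp (nat_lit 9) t1436)))))))))))
noncomputable def l11679 : Lb := (@Lb.d (nat_lit 2) (nat_lit 2) (nat_lit 128) (@Lb.g g8 (@Lb.g g9 (@Lb.g g11 (@Lb.r r408 (@Lb.r r1447 (@Lb.r r2178 (@Lb.r r2325 (@Lb.r r1572 (@Lb.d (nat_lit 274) (nat_lit 136) (nat_lit 73) (@Lb.t (@Lb.fm (nat_lit 9) t180))))))))))))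
noncomputable def l11680 : Lb := (@Lb.d (nat_lit 168) (nat_lit 512) (nat_lit 130) (@Lb.g g9 (@Lb.g g10 (@Lb.g g11 (@Lb.r r72 (@Lb.r r86 (@Lb.r r421 (@Lb.r r411 (@Lb.d (nat_lit 9) (nat_lit 26) (nat_lit 8) (@Lb.t (@Lb.fm (nat_lit 9) t2)))))))))))
noncomputable def l11681 : Lb := (@Lb.d (nat_lit 2) (nat_lit 520) (nat_lit 130) (@Lb.g g8 (@Lb.g g9 (@Lb.g g10 (@Lb.g g11 (@Lb.r r1366 (@Lb.r r2472 (@Lb.r r1303 (@Lb.r r2581 (@Lb.d (nat_lit 134) (nat_lit 160) (nat_lit 330) (@Lb.fm (nat_lit 9) t74)))))))))))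
noncomputable def l11682 : Lb := (@Lb.d (nat_lit 8) (nat_lit 8) (nat_lit 89) (@Lb.g g8 (@Lb.g g10 (@Lb.g g11 (@Lb.r r2321 (@Lb.r r1639 (@Lb.r r2436 (@Lb.d (nat_lit 337) (nat_lit 66) (nat_lit 680) (@Lb.t (@Lb.fp (nat_lit 9) t741))))))))))
noncomputable def l11683 : Lb := (@Lb.d (nat_lit 0) (nat_lit 512) (nat_lit 137) (@Lb.g g8 (@Lb.g g10 (@Lb.g g11 (@Lb.r r2435 (@Lb.r r386 (@Lb.d (nat_lit 0) (nat_lit 0) (nat_lit 420) (@Lb.t (@Lb.fp (nat_lit 9) t2)))))))))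
noncomputable def l11684 : Lb := (@Lb.d (nat_lit 0) (nat_lit 0) (nat_lit 137) (@Lb.g g10 (@Lb.g g11 (@Lb.r r2435 (@Lb.r r386 (@Lb.d (nat_lit 1) (nat_lit 0) (nat_lit 420) (@Lb.fp (nat_lit 3) t2)))))))
noncomputable def l11685 : Lb := (@Lb.r r21 (@Lb.d (nat_lit 129) (nat_lit 0) (nat_lit 66) (@Lb.g g8 (@Lb.g g10 (@Lb.g g11 (@Lb.r r1691 (@Lb.r r1689 (@Lb.r r1370 (@Lb.r r1368 (@Lb.d (nat_lit 581) (nat_lit 8) (nat_lit 586) (@Lb.t (@Lb.fm (nat_lit 9) t144))))))))))))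
noncomputable def l11686 : Lb := (@Lb.d (nat_lit 134) (nat_lit 0) (nat_lit 66) (@Lb.g g8 (@Lb.g g9 (@Lb.g g10 (@Lb.g g11 (@Lb.r r1675 (@Lb.r r2405 (@Lb.r r1178 (@Lb.r r1176 (@Lb.d (nat_lit 677) (nat_lit 32) (nat_lit 406) (@Lb.fp (nat_lit 9) t144)))))))))))
noncomputable def l11687 : Lb := (@Lb.r r20 (@Lb.r r275 (@Lb.d (nat_lit 8) (nat_lit 529) (nat_lit 2) (@Lb.g g5 (@Lb.g g10 (@Lb.r r1686 (@Lb.r r2404 (@Lb.r r1563 (@Lb.d (nat_lit 585) (nat_lit 129) (nat_lit 517) (@Lb.fp (nat_lit 3) t144))))))))))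
noncomputable def l11688 : Lb := (@Lb.d (nat_lit 132) (nat_lit 32) (nat_lit 2) (@Lb.g g8 (@Lb.g g9 (@Lb.g g10 (@Lb.r r1619 (@Lb.r r386 (@Lb.r r85 (@Lb.r r2084 (@Lb.d (nat_lit 282) (nat_lit 66) (nat_lit 681) (@Lb.t (@Lb.fm (nat_lit 9) t386)))))))))))
noncomputable def l11689 : Lb := (@Lb.d (nat_lit 32) (nat_lit 0) (nat_lit 2) (@Lb.g g10 (@Lb.g g11 (@Lb.r r545 (@Lb.r r299 (@Lb.r r72 (@Lb.r r390 (@Lb.d (nat_lit 610) (nat_lit 10) (nat_lit 152) (@Lb.fp (nat_lit 3) t126)))))))))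
noncomputable def l11690 : Lb := (@Lb.d (nat_lit 32) (nat_lit 2) (nat_lit 2) (@Lb.g g9 (@Lb.g g10 (@Lb.g g11 (@Lb.r r419 (@Lb.r r149 (@Lb.r r100 (@Lb.r r410 (@Lb.d (nat_lit 153) (nat_lit 26) (nat_lit 137) (@Lb.t (@Lb.fp (nat_lit 9) t61)))))))))))
noncomputable def l11691 : Lb := (@Lb.d (nat_lit 0) (nat_lit 160) (nat_lit 104) (@Lb.g g5 (@Lb.g g6 (@Lb.g g11 (@Lb.r r595 (@Lb.d (nat_lit 0) (nat_lit 102) (nat_lit 154) (@Lb.t (@Lb.fp (nat_lit 9) t1485))))))))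
noncomputable def l11692 : Lb := (@Lb.r r424 (@Lb.r r2473 (@Lb.r r1450 (@Lb.r r343 (@Lb.r r676 (@Lb.d (nat_lit 2) (nat_lit 256) (nat_lit 0) (@Lb.fm (nat_lit 1) t322)))))))
noncomputable def l11693 : Lb := (@Lb.g g9 (@Lb.g g6 (@Lb.r r2577 (@Lb.d (nat_lit 0) (nat_lit 512) (nat_lit 384) (@Lb.fp (nat_lit 3) t121)))))
noncomputable def l11694 : Lb := (@Lb.d (nat_lit 2) (nat_lit 2) (nat_lit 66) (@Lb.g g8 (@Lb.g g9 (@Lb.g g10 (@Lb.g g11 (@Lb.r r1419 (@Lb.r r386 (@Lb.r r97 (@Lb.r r24 (@Lb.d (nat_lit 342) (nat_lit 33) (nat_lit 416) (@Lb.fm (nat_lit 9) t2734)))))))))))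
noncomputable def l11695 : Lb := (@Lb.r r275 (@Lb.d (nat_lit 0) (nat_lit 522) (nat_lit 1) (@Lb.g g9 (@Lb.g g10 (@Lb.r r1443 (@Lb.r r1169 (@Lb.r r146 (@Lb.d (nat_lit 0) (nat_lit 134) (nat_lit 144) (@Lb.fp (nat_lit 3) t1)))))))))
noncomputable def l11696 : Lb := (@Lb.d (nat_lit 390) (nat_lit 582) (nat_lit 26) (@Lb.r r2325 (@Lb.r r598 (@Lb.r r683 (@Lb.g g7 (@Lb.g g6 (@Lb.g g5 (@Lb.g g4 (@Lb.d (nat_lit 1) (nat_lit 25) (nat_lit 133) (@Lb.fm (nat_lit 9) t309))))))))))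
noncomputable def l11697 : Lb := (@Lb.d (nat_lit 9) (nat_lit 256) (nat_lit 130) (@Lb.g g8 (@Lb.g g10 (@Lb.g g11 (@Lb.r r1685 (@Lb.r r2455 (@Lb.r r1608 (@Lb.r r1126 (@Lb.d (nat_lit 277) (nat_lit 16) (nat_lit 258) (@Lb.t (@Lb.fp (nat_lit 9) t185)))))))))))
noncomputable def l11698 : Lb := (@Lb.d (nat_lit 0) (nat_lit 518) (nat_lit 97) (@Lb.r r146 (@Lb.r r2149 (@Lb.r r1304 (@Lb.g g7 (@Lb.d (nat_lit 64) (nat_lit 0) (nat_lit 136) (@Lb.r r578 (@Lb.t (@Lb.fp (nat_lit 3) t2372)))))))))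
noncomputable def l11699 : Lb := (@Lb.r r323 (@Lb.d (nat_lit 137) (nat_lit 512) (nat_lit 18) (@Lb.g g8 (@Lb.g g10 (@Lb.r r661 (@Lb.r r1431 (@Lb.r r2660 (@Lb.d (nat_lit 666) (nat_lit 85) (nat_lit 290) (@Lb.fm (nat_lit 3) t100)))))))))
noncomputable def l11700 : Lb := (@Lb.d (nat_lit 292) (nat_lit 264) (nat_lit 33) (@Lb.r r2129 (@Lb.r r1190 (@Lb.r r2392 (@Lb.r r551 (@Lb.g g6 (@Lb.g g5 (@Lb.d (nat_lit 0) (nat_lit 5) (nat_lit 2) (@Lb.fp (nat_lit 3) t115)))))))))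
noncomputable def l11701 : Lb := (@Lb.d (nat_lit 0) (nat_lit 581) (nat_lit 33) (@Lb.r r37 (@Lb.r r1190 (@Lb.r r2392 (@Lb.r r647 (@Lb.g g6 (@Lb.r r145 (@Lb.t (@Lb.fm (nat_lit 3) t100)))))))))
noncomputable def l11702 : Lb := (@Lb.r r323 (@Lb.d (nat_lit 129) (nat_lit 546) (nat_lit 18) (@Lb.g g8 (@Lb.g g9 (@Lb.g g10 (@Lb.r r595 (@Lb.r r341 (@Lb.r r100 (@Lb.d (nat_lit 73) (nat_lit 5) (nat_lit 361) (@Lb.t (@Lb.fp (nat_lit 9) t88)))))))))))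
noncomputable def l11703 : Lb := (@Lb.d (nat_lit 521) (nat_lit 389) (nat_lit 34) (@Lb.r r1114 (@Lb.r r1620 (@Lb.r r2393 (@Lb.r r615 (@Lb.g g7 (@Lb.g g6 (@Lb.g g5 (@Lb.d (nat_lit 0) (nat_lit 38) (nat_lit 10) (@Lb.t (@Lb.fm (nat_lit 9) t245)))))))))))
noncomputable def l11704 : Lb := (@Lb.d (nat_lit 2) (nat_lit 4) (nat_lit 128) (@Lb.g g8 (@Lb.g g9 (@Lb.g g10 (@Lb.g g11 (@Lb.r r2667 (@Lb.r r162 (@Lb.r r660 (@Lb.r r425 (@Lb.r r2084 (@Lb.d (nat_lit 153) (nat_lit 73) (nat_lit 418) (@Lb.fm (nat_lit 9) t510))))))))))))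
noncomputable def l11705 : Lb := (@Lb.r r323 (@Lb.d (nat_lit 2) (nat_lit 34) (nat_lit 2) (@Lb.g g8 (@Lb.g g9 (@Lb.g g10 (@Lb.r r599 (@Lb.r r74 (@Lb.r r296 (@Lb.r r409 (@Lb.d (nat_lit 149) (nat_lit 86) (nat_lit 393) (@Lb.t (@Lb.fm (nat_lit 9) t51))))))))))))
noncomputable def l11706 : Lb := (@Lb.d (nat_lit 2) (nat_lit 4) (nat_lit 0) (@Lb.g g8 (@Lb.g g9 (@Lb.g g10 (@Lb.r r683 (@Lb.r r2666 (@Lb.r r25 (@Lb.d (nat_lit 9) (nat_lit 89) (nat_lit 537) (@Lb.t (@Lb.fp (nat_lit 9) t1369))))))))))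
noncomputable def l11707 : Lb := (@Lb.d (nat_lit 34) (nat_lit 2) (nat_lit 0) (@Lb.g g8 (@Lb.g g9 (@Lb.r r1387 (@Lb.r r361 (@Lb.r r150 (@Lb.r r1124 (@Lb.d (nat_lit 282) (nat_lit 73) (nat_lit 409) (@Lb.fm (nat_lit 3) t51)))))))))
noncomputable def l11708 : Lb := (@Lb.d (nat_lit 2) (nat_lit 512) (nat_lit 0) (@Lb.g g8 (@Lb.g g9 (@Lb.r r322 (@Lb.r r1667 (@Lb.r r578 (@Lb.r r1561 (@Lb.d (nat_lit 585) (nat_lit 2) (nat_lit 394) (@Lb.fp (nat_lit 3) t1035)))))))))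
noncomputable def l11709 : Lb := (@Lb.d (nat_lit 2) (nat_lit 512) (nat_lit 72) (@Lb.g g8 (@Lb.g g9 (@Lb.g g11 (@Lb.r r1410 (@Lb.r r579 (@Lb.r r1561 (@Lb.d (nat_lit 585) (nat_lit 2) (nat_lit 425) (@Lb.t (@Lb.fm (nat_lit 9) t1035))))))))))
noncomputable def l11710 : Lb := (@Lb.d (nat_lit 34) (nat_lit 512) (nat_lit 0) (@Lb.g g8 (@Lb.g g9 (@Lb.r r363 (@Lb.r r2409 (@Lb.r r150 (@Lb.r r1124 (@Lb.d (nat_lit 282) (nat_lit 73) (nat_lit 169) (@Lb.fm (nat_lit 3) t51)))))))))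
noncomputable def l11711 : Lb := (@Lb.r r2194 (@Lb.r r101 (@Lb.r r1304 (@Lb.r r1543 (@Lb.g g11 (@Lb.g g6 (@Lb.fp (nat_lit 3) t98)))))))
noncomputable def l11712 : Lb := (@Lb.r r37 (@Lb.r r1190 (@Lb.r r2392 (@Lb.r r1543 (@Lb.g g11 (@Lb.g g6 (@Lb.r r145 (@Lb.p (nat_lit 1) (@Lb.fp (nat_lit 3) t98)))))))))
noncomputable def l11713 : Lb := (@Lb.d (nat_lit 292) (nat_lit 134) (nat_lit 81) (@Lb.r r2129 (@Lb.r r1190 (@Lb.r r2392 (@Lb.g g7 (@Lb.g g6 (@Lb.g g5 (@Lb.d (nat_lit 64) (nat_lit 5) (nat_lit 386) (@Lb.t (@Lb.fp (nat_lit 9) t98))))))))))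
noncomputable def l11714 : Lb := (@Lb.d (nat_lit 297) (nat_lit 644) (nat_lit 81) (@Lb.r r2129 (@Lb.r r1190 (@Lb.r r2392 (@Lb.g g7 (@Lb.g g6 (@Lb.g g5 (@Lb.d (nat_lit 64) (nat_lit 5) (nat_lit 386) (@Lb.t (@Lb.fp (nat_lit 9) t98))))))))))
noncomputable def l11715 : Lb := (@Lb.d (nat_lit 2) (nat_lit 2) (nat_lit 130) (@Lb.g g8 (@Lb.g g9 (@Lb.g g10 (@Lb.g g11 (@Lb.r r2691 (@Lb.r r297 (@Lb.r r328 (@Lb.r r614 (@Lb.r r2180 (@Lb.d (nat_lit 645) (nat_lit 40) (nat_lit 329) (@Lb.fm (nat_lit 9) t259))))))))))))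
noncomputable def l11716 : Lb := (@Lb.d (nat_lit 84) (nat_lit 682) (nat_lit 665) (@Lb.r r2661 (@Lb.r r2343 (@Lb.r r1620 (@Lb.g g6 (@Lb.g g5 (@Lb.g g4 (@Lb.d (nat_lit 1) (nat_lit 17) (nat_lit 2) (@Lb.r r387 (@Lb.t (@Lb.fm (nat_lit 9) t2735)))))))))))
noncomputable def l11717 : Lb := (@Lb.d (nat_lit 2) (nat_lit 516) (nat_lit 128) (@Lb.g g8 (@Lb.g g9 (@Lb.g g10 (@Lb.g g11 (@Lb.r r2722 (@Lb.r r584 (@Lb.r r427 (@Lb.r r417 (@Lb.d (nat_lit 649) (nat_lit 129) (nat_lit 329) (@Lb.fm (nat_lit 9) t261)))))))))))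
noncomputable def l11718 : Lb := (@Lb.d (nat_lit 2) (nat_lit 514) (nat_lit 128) (@Lb.g g8 (@Lb.g g9 (@Lb.g g10 (@Lb.g g11 (@Lb.r r1451 (@Lb.r r297 (@Lb.r r104 (@Lb.r r70 (@Lb.r r1156 (@Lb.d (nat_lit 265) (nat_lit 73) (nat_lit 265) (@Lb.fp (nat_lit 9) t369))))))))))))
noncomputable def l11719 : Lb := (@Lb.d (nat_lit 4) (nat_lit 392) (nat_lit 97) (@Lb.r r2213 (@Lb.r r2150 (@Lb.r r1432 (@Lb.g g7 (@Lb.g g5 (@Lb.d (nat_lit 64) (nat_lit 4) (nat_lit 72) (@Lb.fm (nat_lit 3) t2736))))))))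
noncomputable def l11720 : Lb := (@Lb.r r82 (@Lb.d (nat_lit 0) (nat_lit 546) (nat_lit 72) (@Lb.g g9 (@Lb.g g11 (@Lb.r r1426 (@Lb.r r1121 (@Lb.d (nat_lit 0) (nat_lit 73) (nat_lit 128) (@Lb.fm (nat_lit 3) t917))))))))
noncomputable def l11721 : Lb := (@Lb.d (nat_lit 0) (nat_lit 0) (nat_lit 9) (@Lb.g g9 (@Lb.g g10 (@Lb.g g11 (@Lb.r r1419 (@Lb.r r1304 (@Lb.r r2213 (@Lb.r r98 (@Lb.d (nat_lit 0) (nat_lit 73) (nat_lit 33) (@Lb.t (@Lb.fm (nat_lit 9) t307)))))))))))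
noncomputable def l11722 : Lb := (@Lb.d (nat_lit 320) (nat_lit 608) (nat_lit 128) (@Lb.r r289 (@Lb.r r535 (@Lb.r r328 (@Lb.r r2726 (@Lb.g g7 (@Lb.g g6 (@Lb.d (nat_lit 0) (nat_lit 0) (nat_lit 134) (@Lb.fm (nat_lit 3) t795)))))))))
noncomputable def l11723 : Lb := (@Lb.d (nat_lit 518) (nat_lit 32) (nat_lit 384) (@Lb.r r1321 (@Lb.r r1444 (@Lb.r r2374 (@Lb.r r611 (@Lb.g g7 (@Lb.g g6 (@Lb.g g5 (@Lb.d (nat_lit 0) (nat_lit 10) (nat_lit 133) (@Lb.t (@Lb.fp (nat_lit 9) t1490)))))))))))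
noncomputable def l11724 : Lb := (@Lb.d (nat_lit 322) (nat_lit 96) (nat_lit 128) (@Lb.r r289 (@Lb.r r535 (@Lb.r r328 (@Lb.r r2726 (@Lb.g g7 (@Lb.g g6 (@Lb.g g5 (@Lb.d (nat_lit 0) (nat_lit 0) (nat_lit 134) (@Lb.t (@Lb.fp (nat_lit 9) t1490)))))))))))
noncomputable def l11725 : Lb := (@Lb.d (nat_lit 5) (nat_lit 665) (nat_lit 649) (@Lb.r r657 (@Lb.r r2394 (@Lb.r r2148 (@Lb.g g11 (@Lb.g g5 (@Lb.d (nat_lit 4) (nat_lit 0) (nat_lit 384) (@Lb.r r578 (@Lb.fp (nat_lit 3) t1490)))))))))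
noncomputable def l11726 : Lb := (@Lb.d (nat_lit 32) (nat_lit 512) (nat_lit 2) (@Lb.g g10 (@Lb.r r1348 (@Lb.r r2459 (@Lb.r r613 (@Lb.r r410 (@Lb.d (nat_lit 138) (nat_lit 89) (nat_lit 153) (@Lb.t (@Lb.fp (nat_lit 3) t127)))))))))
noncomputable def l11727 : Lb := (@Lb.d (nat_lit 2) (nat_lit 514) (nat_lit 130) (@Lb.g g8 (@Lb.g g9 (@Lb.g g10 (@Lb.g g11 (@Lb.r r1706 (@Lb.r r676 (@Lb.r r551 (@Lb.r r1557 (@Lb.r r1060 (@Lb.d (nat_lit 649) (nat_lit 65) (nat_lit 330) (@Lb.fp (nat_lit 9) t284))))))))))))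
noncomputable def l11728 : Lb := (@Lb.r r323 (@Lb.d (nat_lit 33) (nat_lit 514) (nat_lit 2) (@Lb.g g8 (@Lb.g g9 (@Lb.g g10 (@Lb.r r1689 (@Lb.r r1563 (@Lb.r r1540 (@Lb.d (nat_lit 418) (nat_lit 0) (nat_lit 616) (@Lb.t (@Lb.fp (nat_lit 9) t168)))))))))))
noncomputable def l11729 : Lb := (@Lb.d (nat_lit 294) (nat_lit 390) (nat_lit 17) (@Lb.r r1170 (@Lb.r r2401 (@Lb.r r1687 (@Lb.g g6 (@Lb.g g8 (@Lb.d (nat_lit 34) (nat_lit 0) (nat_lit 0) (@Lb.r r25 (@Lb.fm (nat_lit 3) t329)))))))))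
noncomputable def l11730 : Lb := (@Lb.d (nat_lit 2) (nat_lit 514) (nat_lit 130) (@Lb.g g8 (@Lb.g g9 (@Lb.g g10 (@Lb.g g11 (@Lb.r r1419 (@Lb.r r340 (@Lb.r r170 (@Lb.r r2217 (@Lb.r r2212 (@Lb.d (nat_lit 513) (nat_lit 73) (nat_lit 153) (@Lb.fp (nat_lit 9) t386))))))))))))
noncomputable def l11731 : Lb := (@Lb.d (nat_lit 42) (nat_lit 0) (nat_lit 128) (@Lb.g g8 (@Lb.g g11 (@Lb.r r2331 (@Lb.r r614 (@Lb.r r1637 (@Lb.r r1428 (@Lb.d (nat_lit 358) (nat_lit 20) (nat_lit 393) (@Lb.fp (nat_lit 3) t386)))))))))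
noncomputable def l11732 : Lb := (@Lb.r r2073 (@Lb.d (nat_lit 257) (nat_lit 0) (nat_lit 0) (@Lb.fp (nat_lit 1) t2)))
noncomputable def l11733 : Lb := (@Lb.d (nat_lit 8) (nat_lit 38) (nat_lit 128) (@Lb.g g9 (@Lb.g g10 (@Lb.g g11 (@Lb.r r387 (@Lb.r r386 (@Lb.r r2328 (@Lb.r r2581 (@Lb.d (nat_lit 677) (nat_lit 162) (nat_lit 417) (@Lb.t (@Lb.fm (nat_lit 9) t1118)))))))))))
noncomputable def l11734 : Lb := (@Lb.d (nat_lit 32) (nat_lit 258) (nat_lit 2) (@Lb.g g9 (@Lb.g g10 (@Lb.r r1543 (@Lb.r r149 (@Lb.r r100 (@Lb.r r410 (@Lb.d (nat_lit 148) (nat_lit 82) (nat_lit 138) (@Lb.fm (nat_lit 3) t651)))))))))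
noncomputable def l11735 : Lb := (@Lb.d (nat_lit 0) (nat_lit 645) (nat_lit 596) (@Lb.r r1378 (@Lb.r r2723 (@Lb.g g7 (@Lb.g g6 (@Lb.g g5 (@Lb.d (nat_lit 0) (nat_lit 0) (nat_lit 132) (@Lb.t (@Lb.fm (nat_lit 9) t406)))))))))
noncomputable def l11736 : Lb := (@Lb.d (nat_lit 390) (nat_lit 406) (nat_lit 610) (@Lb.r r2325 (@Lb.r r2390 (@Lb.r r683 (@Lb.g g7 (@Lb.g g6 (@Lb.g g5 (@Lb.g g4 (@Lb.d (nat_lit 1) (nat_lit 18) (nat_lit 8) (@Lb.fm (nat_lit 9) t309))))))))))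
noncomputable def l11737 : Lb := (@Lb.d (nat_lit 8) (nat_lit 546) (nat_lit 514) (@Lb.g g9 (@Lb.g g10 (@Lb.g g7 (@Lb.r r426 (@Lb.r r532 (@Lb.r r361 (@Lb.d (nat_lit 169) (nat_lit 168) (nat_lit 390) (@Lb.t (@Lb.fp (nat_lit 9) t827))))))))))
noncomputable def l11738 : Lb := (@Lb.d (nat_lit 8) (nat_lit 514) (nat_lit 137) (@Lb.g g9 (@Lb.g g10 (@Lb.g g11 (@Lb.r r2695 (@Lb.r r24 (@Lb.r r357 (@Lb.r r146 (@Lb.d (nat_lit 609) (nat_lit 68) (nat_lit 168) (@Lb.t (@Lb.fm (nat_lit 9) t386)))))))))))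
noncomputable def l11739 : Lb := (@Lb.r r323 (@Lb.d (nat_lit 8) (nat_lit 546) (nat_lit 42) (@Lb.g g9 (@Lb.g g6 (@Lb.r r536 (@Lb.r r603 (@Lb.r r341 (@Lb.d (nat_lit 597) (nat_lit 148) (nat_lit 134) (@Lb.fp (nat_lit 3) t386)))))))))
noncomputable def l11740 : Lb := (@Lb.r r323 (@Lb.d (nat_lit 138) (nat_lit 0) (nat_lit 18) (@Lb.g g8 (@Lb.g g10 (@Lb.r r661 (@Lb.r r1431 (@Lb.r r2660 (@Lb.d (nat_lit 666) (nat_lit 90) (nat_lit 288) (@Lb.fm (nat_lit 3) t100)))))))))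
noncomputable def l11741 : Lb := (@Lb.d (nat_lit 649) (nat_lit 640) (nat_lit 258) (@Lb.r r24 (@Lb.r r101 (@Lb.g g10 (@Lb.d (nat_lit 0) (nat_lit 8) (nat_lit 2) (@Lb.t (@Lb.fp (nat_lit 3) t749)))))))
noncomputable def l11742 : Lb := (@Lb.d (nat_lit 129) (nat_lit 256) (nat_lit 0) (@Lb.g g8 (@Lb.r r2473 (@Lb.r r599 (@Lb.r r2178 (@Lb.r r292 (@Lb.d (nat_lit 74) (nat_lit 41) (nat_lit 338) (@Lb.t (@Lb.fm (nat_lit 3) t124)))))))))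
noncomputable def l11743 : Lb := (@Lb.d (nat_lit 129) (nat_lit 0) (nat_lit 0) (@Lb.g g8 (@Lb.r r2473 (@Lb.r r599 (@Lb.r r2178 (@Lb.r r292 (@Lb.d (nat_lit 74) (nat_lit 34) (nat_lit 336) (@Lb.t (@Lb.fm (nat_lit 3) t124)))))))))
noncomputable def l11744 : Lb := (@Lb.r r134 (@Lb.r r328 (@Lb.r r407 (@Lb.r r609 (@Lb.d (nat_lit 0) (nat_lit 129) (nat_lit 2) (@Lb.fm (nat_lit 1) t44))))))
noncomputable def l11745 : Lb := (@Lb.d (nat_lit 328) (nat_lit 260) (nat_lit 84) (@Lb.r r394 (@Lb.r r132 (@Lb.r r279 (@Lb.r r2725 (@Lb.g g7 (@Lb.g g6 (@Lb.g g5 (@Lb.d (nat_lit 16) (nat_lit 0) (nat_lit 65) (@Lb.t (@Lb.fp (nat_lit 9) t588)))))))))))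
noncomputable def l11746 : Lb := (@Lb.d (nat_lit 8) (nat_lit 290) (nat_lit 0) (@Lb.g g9 (@Lb.r r536 (@Lb.r r283 (@Lb.r r2178 (@Lb.r r2597 (@Lb.d (nat_lit 144) (nat_lit 80) (nat_lit 293) (@Lb.t (@Lb.fm (nat_lit 3) t2737)))))))))
noncomputable def l11747 : Lb := (@Lb.d (nat_lit 128) (nat_lit 16) (nat_lit 169) (@Lb.g g9 (@Lb.g g6 (@Lb.g g11 (@Lb.r r533 (@Lb.r r2340 (@Lb.r r1435 (@Lb.d (nat_lit 665) (nat_lit 153) (nat_lit 408) (@Lb.t (@Lb.fp (nat_lit 9) t648))))))))))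
noncomputable def l11748 : Lb := (@Lb.d (nat_lit 4) (nat_lit 385) (nat_lit 66) (@Lb.r r289 (@Lb.r r279 (@Lb.r r584 (@Lb.g g7 (@Lb.g g10 (@Lb.g g5 (@Lb.d (nat_lit 32) (nat_lit 5) (nat_lit 66) (@Lb.t (@Lb.fm (nat_lit 9) t985))))))))))
noncomputable def l11749 : Lb := (@Lb.d (nat_lit 9) (nat_lit 256) (nat_lit 128) (@Lb.g g8 (@Lb.g g10 (@Lb.g g11 (@Lb.r r353 (@Lb.r r663 (@Lb.r r356 (@Lb.r r154 (@Lb.d (nat_lit 18) (nat_lit 0) (nat_lit 16) (@Lb.t (@Lb.fp (nat_lit 9) t285)))))))))))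
noncomputable def l11750 : Lb := (@Lb.d (nat_lit 512) (nat_lit 677) (nat_lit 328) (@Lb.r r1321 (@Lb.r r1444 (@Lb.r r2374 (@Lb.r r611 (@Lb.g g7 (@Lb.g g6 (@Lb.g g5 (@Lb.d (nat_lit 4) (nat_lit 8) (nat_lit 133) (@Lb.t (@Lb.fp (nat_lit 9) t986)))))))))))
noncomputable def l11751 : Lb := (@Lb.d (nat_lit 128) (nat_lit 512) (nat_lit 64) (@Lb.g g8 (@Lb.g g11 (@Lb.r r1291 (@Lb.r r361 (@Lb.r r662 (@Lb.r r292 (@Lb.d (nat_lit 64) (nat_lit 160) (nat_lit 165) (@Lb.fm (nat_lit 3) t2738)))))))))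
noncomputable def l11752 : Lb := (@Lb.d (nat_lit 1) (nat_lit 2) (nat_lit 162) (@Lb.g g8 (@Lb.g g9 (@Lb.g g10 (@Lb.g g11 (@Lb.r r387 (@Lb.r r41 (@Lb.r r36 (@Lb.d (nat_lit 4) (nat_lit 1) (nat_lit 137) (@Lb.fm (nat_lit 9) t2))))))))))
noncomputable def l11753 : Lb := (@Lb.d (nat_lit 0) (nat_lit 34) (nat_lit 65) (@Lb.g g9 (@Lb.g g10 (@Lb.g g11 (@Lb.r r2723 (@Lb.r r673 (@Lb.r r1186 (@Lb.r r145 (@Lb.d (nat_lit 0) (nat_lit 148) (nat_lit 152) (@Lb.t (@Lb.fp (nat_lit 9) t2739)))))))))))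
noncomputable def l11754 : Lb := (@Lb.d (nat_lit 0) (nat_lit 289) (nat_lit 64) (@Lb.g g9 (@Lb.g g11 (@Lb.r r2595 (@Lb.r r2658 (@Lb.r r609 (@Lb.d (nat_lit 0) (nat_lit 32) (nat_lit 680) (@Lb.fm (nat_lit 3) t2740))))))))
noncomputable def l11755 : Lb := (@Lb.r r82 (@Lb.d (nat_lit 34) (nat_lit 514) (nat_lit 580) (@Lb.g g8 (@Lb.g g9 (@Lb.g g7 (@Lb.r r1385 (@Lb.r r150 (@Lb.r r100 (@Lb.d (nat_lit 586) (nat_lit 0) (nat_lit 265) (@Lb.t (@Lb.fp (nat_lit 9) t1207)))))))))))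
noncomputable def l11756 : Lb := (@Lb.d (nat_lit 128) (nat_lit 266) (nat_lit 21) (@Lb.g g9 (@Lb.g g10 (@Lb.g g11 (@Lb.r r2709 (@Lb.r r292 (@Lb.r r411 (@Lb.d (nat_lit 137) (nat_lit 26) (nat_lit 154) (@Lb.t (@Lb.fm (nat_lit 9) t1152))))))))))
noncomputable def l11757 : Lb := (@Lb.d (nat_lit 0) (nat_lit 42) (nat_lit 0) (@Lb.g g9 (@Lb.r r403 (@Lb.r r1426 (@Lb.r r1617 (@Lb.d (nat_lit 0) (nat_lit 134) (nat_lit 410) (@Lb.t (@Lb.fm (nat_lit 3) t1442))))))))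
noncomputable def l11758 : Lb := (@Lb.d (nat_lit 0) (nat_lit 546) (nat_lit 65) (@Lb.g g9 (@Lb.g g10 (@Lb.g g11 (@Lb.r r2723 (@Lb.r r673 (@Lb.r r1186 (@Lb.r r145 (@Lb.d (nat_lit 0) (nat_lit 153) (nat_lit 153) (@Lb.t (@Lb.fp (nat_lit 9) t2741)))))))))))
noncomputable def l11759 : Lb := (@Lb.r r323 (@Lb.d (nat_lit 8) (nat_lit 298) (nat_lit 17) (@Lb.g g9 (@Lb.g g10 (@Lb.r r1624 (@Lb.r r1691 (@Lb.r r2385 (@Lb.d (nat_lit 256) (nat_lit 152) (nat_lit 677) (@Lb.fm (nat_lit 3) t2742)))))))))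
noncomputable def l11760 : Lb := (@Lb.d (nat_lit 298) (nat_lit 581) (nat_lit 4) (@Lb.r r1124 (@Lb.r r1045 (@Lb.r r386 (@Lb.g g11 (@Lb.g g6 (@Lb.g g5 (@Lb.g g4 (@Lb.d (nat_lit 4) (nat_lit 1) (nat_lit 129) (@Lb.fp (nat_lit 9) t710))))))))))
noncomputable def l11761 : Lb := (@Lb.d (nat_lit 273) (nat_lit 512) (nat_lit 17) (@Lb.r r146 (@Lb.r r2149 (@Lb.r r1304 (@Lb.r r2727 (@Lb.g g7 (@Lb.g g5 (@Lb.r r578 (@Lb.fm (nat_lit 3) t308)))))))))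
noncomputable def l11762 : Lb := (@Lb.d (nat_lit 24) (nat_lit 1) (nat_lit 128) (@Lb.g g8 (@Lb.g g9 (@Lb.g g10 (@Lb.g g11 (@Lb.r r1686 (@Lb.r r344 (@Lb.r r1623 (@Lb.r r2345 (@Lb.r r1060 (@Lb.d (nat_lit 545) (nat_lit 169) (nat_lit 338) (@Lb.fp (nat_lit 9) t644))))))))))))
noncomputable def l11763 : Lb := (@Lb.d (nat_lit 65) (nat_lit 546) (nat_lit 130) (@Lb.g g8 (@Lb.g g9 (@Lb.g g10 (@Lb.g g11 (@Lb.r r614 (@Lb.r r408 (@Lb.r r1319 (@Lb.r r2069 (@Lb.r r36 (@Lb.d (nat_lit 520) (nat_lit 97) (nat_lit 362) (@Lb.fm (nat_lit 9) t163))))))))))))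
noncomputable def l11764 : Lb := (@Lb.d (nat_lit 0) (nat_lit 677) (nat_lit 69) (@Lb.r r82 (@Lb.r r1425 (@Lb.r r291 (@Lb.g g11 (@Lb.g g5 (@Lb.r r98 (@Lb.fp (nat_lit 3) t1465))))))))
noncomputable def l11765 : Lb := (@Lb.d (nat_lit 0) (nat_lit 32) (nat_lit 2) (@Lb.g g9 (@Lb.g g10 (@Lb.g g11 (@Lb.r r289 (@Lb.r r403 (@Lb.r r386 (@Lb.r r1169 (@Lb.d (nat_lit 0) (nat_lit 66) (nat_lit 521) (@Lb.t (@Lb.fm (nat_lit 9) t306)))))))))))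
noncomputable def l11766 : Lb := (@Lb.d (nat_lit 2) (nat_lit 521) (nat_lit 65) (@Lb.g g8 (@Lb.g g9 (@Lb.g g10 (@Lb.g g7 (@Lb.r r386 (@Lb.r r2657 (@Lb.r r24 (@Lb.d (nat_lit 10) (nat_lit 169) (nat_lit 421) (@Lb.fp (nat_lit 9) t2743))))))))))
noncomputable def l11767 : Lb := (@Lb.g g7 (@Lb.d (nat_lit 0) (nat_lit 266) (nat_lit 2) (@Lb.t (@Lb.fm (nat_lit 3) t21))))
noncomputable def l11768 : Lb := (@Lb.d (nat_lit 0) (nat_lit 290) (nat_lit 130) (@Lb.g g9 (@Lb.g g10 (@Lb.g g11 (@Lb.r r387 (@Lb.r r161 (@Lb.r r1442 (@Lb.r r2193 (@Lb.d (nat_lit 0) (nat_lit 8) (nat_lit 346) (@Lb.t (@Lb.fm (nat_lit 9) t2744)))))))))))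
noncomputable def l11769 : Lb := (@Lb.r r338 (@Lb.d (nat_lit 2) (nat_lit 514) (nat_lit 516) (@Lb.g g8 (@Lb.g g9 (@Lb.g g7 (@Lb.r r1065 (@Lb.r r2212 (@Lb.r r2182 (@Lb.d (nat_lit 544) (nat_lit 10) (nat_lit 100) (@Lb.t (@Lb.fp (nat_lit 9) t2745)))))))))))
noncomputable def l11770 : Lb := (@Lb.d (nat_lit 0) (nat_lit 257) (nat_lit 136) (@Lb.g g9 (@Lb.g g11 (@Lb.r r2465 (@Lb.d (nat_lit 0) (nat_lit 153) (nat_lit 517) (@Lb.fp (nat_lit 3) t619))))))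
noncomputable def l11771 : Lb := (@Lb.d (nat_lit 0) (nat_lit 9) (nat_lit 2) (@Lb.g g9 (@Lb.g g10 (@Lb.r r1634 (@Lb.r r2657 (@Lb.d (nat_lit 0) (nat_lit 100) (nat_lit 394) (@Lb.fp (nat_lit 3) t2746)))))))
noncomputable def l11772 : Lb := (@Lb.d (nat_lit 290) (nat_lit 322) (nat_lit 0) (@Lb.r r21 (@Lb.r r70 (@Lb.r r263 (@Lb.g g8 (@Lb.d (nat_lit 530) (nat_lit 0) (nat_lit 0) (@Lb.r r267 (@Lb.r r74 (@Lb.r r25 (@Lb.t (@Lb.fp (nat_lit 3) t239)))))))))))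
noncomputable def l11773 : Lb := (@Lb.d (nat_lit 132) (nat_lit 288) (nat_lit 0) (@Lb.g g8 (@Lb.g g9 (@Lb.r r275 (@Lb.r r2178 (@Lb.r r661 (@Lb.r r2084 (@Lb.d (nat_lit 425) (nat_lit 66) (nat_lit 38) (@Lb.fp (nat_lit 3) t124)))))))))
noncomputable def l11774 : Lb := (@Lb.d (nat_lit 512) (nat_lit 617) (nat_lit 344) (@Lb.r r1681 (@Lb.r r1691 (@Lb.r r1624 (@Lb.g g6 (@Lb.g g5 (@Lb.d (nat_lit 4) (nat_lit 16) (nat_lit 33) (@Lb.r r387 (@Lb.fm (nat_lit 3) t1416)))))))))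
noncomputable def l11775 : Lb := (@Lb.d (nat_lit 32) (nat_lit 256) (nat_lit 132) (@Lb.g g10 (@Lb.g g7 (@Lb.r r596 (@Lb.r r74 (@Lb.r r289 (@Lb.d (nat_lit 96) (nat_lit 162) (nat_lit 322) (@Lb.fm (nat_lit 3) t668))))))))
noncomputable def l11776 : Lb := (@Lb.d (nat_lit 0) (nat_lit 514) (nat_lit 0) (@Lb.g g9 (@Lb.g g10 (@Lb.r r1543 (@Lb.r r1685 (@Lb.r r2404 (@Lb.r r1178 (@Lb.d (nat_lit 537) (nat_lit 128) (nat_lit 0) (@Lb.fm (nat_lit 3) t651)))))))))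
noncomputable def l11777 : Lb := (@Lb.d (nat_lit 0) (nat_lit 512) (nat_lit 4) (@Lb.g g10 (@Lb.g g11 (@Lb.r r419 (@Lb.r r386 (@Lb.d (nat_lit 0) (nat_lit 130) (nat_lit 394) (@Lb.fp (nat_lit 3) t51)))))))
noncomputable def l11778 : Lb := (@Lb.d (nat_lit 0) (nat_lit 674) (nat_lit 261) (@Lb.g g11 (@Lb.g g6 (@Lb.fp (nat_lit 3) t371))))
noncomputable def l11779 : Lb := (@Lb.d (nat_lit 32) (nat_lit 512) (nat_lit 132) (@Lb.g g10 (@Lb.g g7 (@Lb.r r596 (@Lb.r r74 (@Lb.r r289 (@Lb.d (nat_lit 106) (nat_lit 161) (nat_lit 322) (@Lb.fm (nat_lit 3) t668))))))))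
noncomputable def l11780 : Lb := (@Lb.d (nat_lit 0) (nat_lit 256) (nat_lit 69) (@Lb.g g6 (@Lb.g g5 (@Lb.fm (nat_lit 3) t2))))
noncomputable def l11781 : Lb := (@Lb.d (nat_lit 0) (nat_lit 138) (nat_lit 324) (@Lb.r r402 (@Lb.g g11 (@Lb.g g5 (@Lb.fm (nat_lit 3) t661)))))
noncomputable def l11782 : Lb := (@Lb.d (nat_lit 0) (nat_lit 0) (nat_lit 4) (@Lb.g g10 (@Lb.g g11 (@Lb.r r419 (@Lb.r r386 (@Lb.d (nat_lit 0) (nat_lit 137) (nat_lit 393) (@Lb.fp (nat_lit 3) t51)))))))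
noncomputable def l11783 : Lb := (@Lb.d (nat_lit 0) (nat_lit 610) (nat_lit 5) (@Lb.r r609 (@Lb.r r363 (@Lb.r r356 (@Lb.r r154 (@Lb.g g5 (@Lb.g g8 (@Lb.fp (nat_lit 3) t167))))))))
noncomputable def l11784 : Lb := (@Lb.r r21 (@Lb.d (nat_lit 25) (nat_lit 264) (nat_lit 128) (@Lb.g g8 (@Lb.g g10 (@Lb.g g11 (@Lb.r r427 (@Lb.r r1377 (@Lb.r r1110 (@Lb.r r388 (@Lb.d (nat_lit 421) (nat_lit 89) (nat_lit 146) (@Lb.t (@Lb.fp (nat_lit 9) t644))))))))))))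
noncomputable def l11785 : Lb := (@Lb.r r323 (@Lb.d (nat_lit 9) (nat_lit 162) (nat_lit 2) (@Lb.g g8 (@Lb.g g9 (@Lb.g g10 (@Lb.r r599 (@Lb.r r392 (@Lb.r r74 (@Lb.d (nat_lit 17) (nat_lit 2) (nat_lit 152) (@Lb.t (@Lb.fm (nat_lit 9) t221)))))))))))
noncomputable def l11786 : Lb := (@Lb.d (nat_lit 9) (nat_lit 389) (nat_lit 128) (@Lb.g g8 (@Lb.g g5 (@Lb.g g10 (@Lb.g g11 (@Lb.r r2707 (@Lb.r r132 (@Lb.r r582 (@Lb.r r2180 (@Lb.d (nat_lit 649) (nat_lit 81) (nat_lit 586) (@Lb.fp (nat_lit 9) t68)))))))))))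
noncomputable def l11787 : Lb := (@Lb.r r1379 (@Lb.r r89 (@Lb.r r1126 (@Lb.r r24 (@Lb.d (nat_lit 538) (nat_lit 128) (nat_lit 0) (@Lb.fm (nat_lit 1) t1767))))))
noncomputable def l11788 : Lb := (@Lb.r r323 (@Lb.d (nat_lit 8) (nat_lit 258) (nat_lit 9) (@Lb.g g9 (@Lb.g g10 (@Lb.r r611 (@Lb.r r322 (@Lb.d (nat_lit 2) (nat_lit 32) (nat_lit 70) (@Lb.fp (nat_lit 3) t1496))))))))
noncomputable def l11789 : Lb := (@Lb.r r21 (@Lb.r r323 (@Lb.d (nat_lit 152) (nat_lit 0) (nat_lit 0) (@Lb.g g8 (@Lb.g g10 (@Lb.r r615 (@Lb.r r533 (@Lb.r r292 (@Lb.d (nat_lit 74) (nat_lit 41) (nat_lit 150) (@Lb.fp (nat_lit 3) t721))))))))))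
noncomputable def l11790 : Lb := (@Lb.r r21 (@Lb.d (nat_lit 16) (nat_lit 256) (nat_lit 74) (@Lb.g g8 (@Lb.g g10 (@Lb.g g11 (@Lb.r r603 (@Lb.r r2401 (@Lb.r r1170 (@Lb.r r1128 (@Lb.d (nat_lit 266) (nat_lit 70) (nat_lit 33) (@Lb.t (@Lb.fm (nat_lit 9) t597))))))))))))
noncomputable def l11791 : Lb := (@Lb.d (nat_lit 34) (nat_lit 1) (nat_lit 100) (@Lb.r r70 (@Lb.r r392 (@Lb.r r599 (@Lb.g g6 (@Lb.g g5 (@Lb.g g4 (@Lb.d (nat_lit 4) (nat_lit 81) (nat_lit 1) (@Lb.r r387 (@Lb.t (@Lb.fp (nat_lit 9) t25)))))))))))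
noncomputable def l11792 : Lb := (@Lb.d (nat_lit 320) (nat_lit 96) (nat_lit 64) (@Lb.r r289 (@Lb.r r535 (@Lb.r r328 (@Lb.r r2726 (@Lb.g g7 (@Lb.g g6 (@Lb.g g5 (@Lb.d (nat_lit 0) (nat_lit 0) (nat_lit 134) (@Lb.t (@Lb.fp (nat_lit 9) t1490)))))))))))
noncomputable def l11793 : Lb := (@Lb.d (nat_lit 34) (nat_lit 0) (nat_lit 0) (@Lb.g g8 (@Lb.r r289 (@Lb.r r2579 (@Lb.r r150 (@Lb.r r2660 (@Lb.d (nat_lit 666) (nat_lit 73) (nat_lit 258) (@Lb.t (@Lb.fm (nat_lit 3) t975)))))))))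
noncomputable def l11794 : Lb := (@Lb.r r21 (@Lb.d (nat_lit 2) (nat_lit 512) (nat_lit 130) (@Lb.g g8 (@Lb.g g10 (@Lb.g g11 (@Lb.r r1691 (@Lb.r r1381 (@Lb.r r2202 (@Lb.r r2180 (@Lb.d (nat_lit 601) (nat_lit 65) (nat_lit 609) (@Lb.t (@Lb.fp (nat_lit 9) t284))))))))))))
noncomputable def l11795 : Lb := (@Lb.d (nat_lit 8) (nat_lit 34) (nat_lit 66) (@Lb.g g9 (@Lb.g g10 (@Lb.g g11 (@Lb.r r1702 (@Lb.r r2392 (@Lb.r r1383 (@Lb.r r1365 (@Lb.d (nat_lit 342) (nat_lit 84) (nat_lit 406) (@Lb.t (@Lb.fm (nat_lit 9) t264)))))))))))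
noncomputable def l11796 : Lb := (@Lb.d (nat_lit 0) (nat_lit 256) (nat_lit 2) (@Lb.g g9 (@Lb.g g10 (@Lb.r r2193 (@Lb.r r146 (@Lb.d (nat_lit 0) (nat_lit 65) (nat_lit 34) (@Lb.fp (nat_lit 3) t1404)))))))
noncomputable def l11797 : Lb := (@Lb.d (nat_lit 0) (nat_lit 256) (nat_lit 128) (@Lb.g g6 (@Lb.g g11 (@Lb.r r387 (@Lb.d (nat_lit 0) (nat_lit 5) (nat_lit 138) (@Lb.fp (nat_lit 3) t45))))))
noncomputable def l11798 : Lb := (@Lb.d (nat_lit 0) (nat_lit 145) (nat_lit 26) (@Lb.r r594 (@Lb.r r2449 (@Lb.g g11 (@Lb.g g6 (@Lb.d (nat_lit 0) (nat_lit 0) (nat_lit 128) (@Lb.fp (nat_lit 3) t65)))))))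
noncomputable def l11799 : Lb := (@Lb.d (nat_lit 0) (nat_lit 512) (nat_lit 130) (@Lb.g g9 (@Lb.g g10 (@Lb.g g11 (@Lb.r r1703 (@Lb.r r2392 (@Lb.r r1190 (@Lb.r r1169 (@Lb.d (nat_lit 2) (nat_lit 64) (nat_lit 32) (@Lb.t (@Lb.fp (nat_lit 9) t51)))))))))))
noncomputable def l11800 : Lb := (@Lb.d (nat_lit 32) (nat_lit 0) (nat_lit 130) (@Lb.g g9 (@Lb.g g10 (@Lb.g g11 (@Lb.r r2725 (@Lb.r r299 (@Lb.r r68 (@Lb.r r394 (@Lb.d (nat_lit 644) (nat_lit 8) (nat_lit 168) (@Lb.t (@Lb.fm (nat_lit 9) t662)))))))))))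
noncomputable def l11801 : Lb := (@Lb.d (nat_lit 2) (nat_lit 9) (nat_lit 129) (@Lb.g g8 (@Lb.g g9 (@Lb.g g10 (@Lb.g g11 (@Lb.r r427 (@Lb.r r106 (@Lb.r r169 (@Lb.d (nat_lit 516) (nat_lit 8) (nat_lit 153) (@Lb.fm (nat_lit 9) t1012))))))))))
noncomputable def l11802 : Lb := (@Lb.r r70 (@Lb.r r263 (@Lb.d (nat_lit 546) (nat_lit 258) (nat_lit 0) (@Lb.g g8 (@Lb.g g9 (@Lb.r r406 (@Lb.r r2627 (@Lb.r r25 (@Lb.d (nat_lit 8) (nat_lit 80) (nat_lit 576) (@Lb.fm (nat_lit 3) t1792))))))))))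
noncomputable def l11803 : Lb := (@Lb.d (nat_lit 9) (nat_lit 260) (nat_lit 128) (@Lb.g g8 (@Lb.g g9 (@Lb.g g10 (@Lb.g g11 (@Lb.r r663 (@Lb.r r342 (@Lb.r r553 (@Lb.r r2580 (@Lb.d (nat_lit 384) (nat_lit 168) (nat_lit 585) (@Lb.fp (nat_lit 9) t2747)))))))))))
noncomputable def l11804 : Lb := (@Lb.d (nat_lit 425) (nat_lit 424) (nat_lit 344) (@Lb.r r1057 (@Lb.r r411 (@Lb.r r344 (@Lb.g g7 (@Lb.g g6 (@Lb.d (nat_lit 64) (nat_lit 8) (nat_lit 150) (@Lb.fm (nat_lit 3) t2748))))))))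
noncomputable def l11805 : Lb := (@Lb.r r2311 (@Lb.r r2118 (@Lb.r r24 (@Lb.d (nat_lit 16) (nat_lit 136) (nat_lit 16) (@Lb.fm (nat_lit 1) t2749)))))
noncomputable def l11806 : Lb := (@Lb.r r2311 (@Lb.r r2118 (@Lb.r r24 (@Lb.d (nat_lit 22) (nat_lit 264) (nat_lit 16) (@Lb.fm (nat_lit 1) t2749)))))
noncomputable def l11807 : Lb := (@Lb.d (nat_lit 0) (nat_lit 516) (nat_lit 33) (@Lb.r r1092 (@Lb.r r138 (@Lb.r r644 (@Lb.r r407 (@Lb.g g9 (@Lb.d (nat_lit 0) (nat_lit 17) (nat_lit 0) (@Lb.t (@Lb.fm (nat_lit 3) t2750)))))))))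
noncomputable def l11808 : Lb := (@Lb.r r580 (@Lb.r r2327 (@Lb.r r402 (@Lb.r r1057 (@Lb.r r1156 (@Lb.d (nat_lit 0) (nat_lit 657) (nat_lit 597) (@Lb.fp (nat_lit 1) t2751)))))))
noncomputable def l11809 : Lb := (@Lb.r r323 (@Lb.d (nat_lit 32) (nat_lit 514) (nat_lit 2) (@Lb.g g8 (@Lb.g g9 (@Lb.g g10 (@Lb.r r2666 (@Lb.r r2391 (@Lb.r r1577 (@Lb.r r1556 (@Lb.d (nat_lit 384) (nat_lit 130) (nat_lit 256) (@Lb.t (@Lb.fp (nat_lit 9) t1792))))))))))))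
noncomputable def l11810 : Lb := (@Lb.d (nat_lit 32) (nat_lit 258) (nat_lit 130) (@Lb.g g8 (@Lb.g g9 (@Lb.g g10 (@Lb.g g11 (@Lb.r r663 (@Lb.r r342 (@Lb.r r1577 (@Lb.r r1556 (@Lb.d (nat_lit 384) (nat_lit 168) (nat_lit 89) (@Lb.fp (nat_lit 9) t2752)))))))))))
noncomputable def l11811 : Lb := (@Lb.g g5 (@Lb.r r2707 (@Lb.r r134 (@Lb.r r2644 (@Lb.r r1321 (@Lb.d (nat_lit 578) (nat_lit 576) (nat_lit 512) (@Lb.t (@Lb.fp (nat_lit 3) t2048))))))))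
noncomputable def l11812 : Lb := (@Lb.r r2707 (@Lb.r r134 (@Lb.r r2644 (@Lb.r r1321 (@Lb.d (nat_lit 576) (nat_lit 320) (nat_lit 512) (@Lb.fm (nat_lit 1) t2048))))))
noncomputable def l11813 : Lb := (@Lb.d (nat_lit 0) (nat_lit 402) (nat_lit 261) (@Lb.r r579 (@Lb.r r1362 (@Lb.g g7 (@Lb.g g6 (@Lb.g g5 (@Lb.d (nat_lit 0) (nat_lit 0) (nat_lit 134) (@Lb.t (@Lb.fm (nat_lit 9) t87)))))))))
noncomputable def l11814 : Lb := (@Lb.r r134 (@Lb.r r324 (@Lb.r r539 (@Lb.r r289 (@Lb.r r36 (@Lb.d (nat_lit 321) (nat_lit 320) (nat_lit 512) (@Lb.fm (nat_lit 1) t1449)))))))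
noncomputable def l11815 : Lb := (@Lb.d (nat_lit 0) (nat_lit 520) (nat_lit 2) (@Lb.g g10 (@Lb.r r609 (@Lb.r r363 (@Lb.r r356 (@Lb.r r154 (@Lb.d (nat_lit 257) (nat_lit 10) (nat_lit 17) (@Lb.t (@Lb.fp (nat_lit 3) t127)))))))))
noncomputable def l11816 : Lb := (@Lb.d (nat_lit 0) (nat_lit 520) (nat_lit 2) (@Lb.g g10 (@Lb.r r609 (@Lb.r r2727 (@Lb.r r1348 (@Lb.r r2186 (@Lb.d (nat_lit 293) (nat_lit 1) (nat_lit 34) (@Lb.t (@Lb.fm (nat_lit 3) t396)))))))))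
noncomputable def l11817 : Lb := (@Lb.g g5 (@Lb.r r2707 (@Lb.r r134 (@Lb.r r2644 (@Lb.r r1321 (@Lb.d (nat_lit 585) (nat_lit 66) (nat_lit 512) (@Lb.t (@Lb.fp (nat_lit 3) t2048))))))))
noncomputable def l11818 : Lb := (@Lb.d (nat_lit 0) (nat_lit 264) (nat_lit 2) (@Lb.g g10 (@Lb.r r609 (@Lb.r r2727 (@Lb.r r1348 (@Lb.r r2186 (@Lb.d (nat_lit 294) (nat_lit 1) (nat_lit 34) (@Lb.t (@Lb.fm (nat_lit 3) t396)))))))))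
noncomputable def l11819 : Lb := (@Lb.d (nat_lit 66) (nat_lit 421) (nat_lit 518) (@Lb.r r68 (@Lb.r r74 (@Lb.r r104 (@Lb.r r297 (@Lb.g g11 (@Lb.g g6 (@Lb.g g5 (@Lb.g g4 (@Lb.d (nat_lit 1) (nat_lit 1) (nat_lit 129) (@Lb.fm (nat_lit 9) t1033)))))))))))
noncomputable def l11820 : Lb := (@Lb.d (nat_lit 385) (nat_lit 640) (nat_lit 256) (@Lb.r r1321 (@Lb.r r1444 (@Lb.r r134 (@Lb.r r2707 (@Lb.g g9 (@Lb.t (@Lb.fm (nat_lit 3) t845))))))))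
noncomputable def l11821 : Lb := (@Lb.r r289 (@Lb.r r420 (@Lb.r r603 (@Lb.r r390 (@Lb.r r516 (@Lb.d (nat_lit 0) (nat_lit 592) (nat_lit 392) (@Lb.fm (nat_lit 1) t845)))))))
noncomputable def l11822 : Lb := (@Lb.d (nat_lit 330) (nat_lit 32) (nat_lit 128) (@Lb.r r289 (@Lb.r r535 (@Lb.r r328 (@Lb.r r2726 (@Lb.g g7 (@Lb.g g6 (@Lb.g g5 (@Lb.d (nat_lit 0) (nat_lit 0) (nat_lit 134) (@Lb.t (@Lb.fp (nat_lit 9) t1490)))))))))))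
noncomputable def l11823 : Lb := (@Lb.r r386 (@Lb.r r1347 (@Lb.r r578 (@Lb.r r24 (@Lb.r r101 (@Lb.d (nat_lit 0) (nat_lit 2) (nat_lit 1) (@Lb.fm (nat_lit 1) t87)))))))
noncomputable def l11824 : Lb := (@Lb.d (nat_lit 9) (nat_lit 32) (nat_lit 130) (@Lb.g g8 (@Lb.g g9 (@Lb.g g10 (@Lb.g g11 (@Lb.r r2666 (@Lb.r r2664 (@Lb.r r587 (@Lb.r r2449 (@Lb.d (nat_lit 97) (nat_lit 32) (nat_lit 422) (@Lb.fp (nat_lit 9) t2753)))))))))))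
noncomputable def l11825 : Lb := (@Lb.r r275 (@Lb.d (nat_lit 9) (nat_lit 2) (nat_lit 2) (@Lb.g g8 (@Lb.g g9 (@Lb.g g10 (@Lb.r r2666 (@Lb.r r2664 (@Lb.r r2585 (@Lb.r r2579 (@Lb.d (nat_lit 265) (nat_lit 73) (nat_lit 130) (@Lb.t (@Lb.fm (nat_lit 9) t244))))))))))))
noncomputable def l11826 : Lb := (@Lb.r r323 (@Lb.d (nat_lit 137) (nat_lit 265) (nat_lit 2) (@Lb.g g8 (@Lb.g g9 (@Lb.g g10 (@Lb.r r1450 (@Lb.r r583 (@Lb.r r1177 (@Lb.r r408 (@Lb.d (nat_lit 600) (nat_lit 26) (nat_lit 586) (@Lb.t (@Lb.fp (nat_lit 9) t74))))))))))))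
noncomputable def l11827 : Lb := (@Lb.r r386 (@Lb.r r1347 (@Lb.r r578 (@Lb.r r24 (@Lb.r r101 (@Lb.d (nat_lit 0) (nat_lit 258) (nat_lit 136) (@Lb.fm (nat_lit 1) t87)))))))
noncomputable def l11828 : Lb := (@Lb.d (nat_lit 0) (nat_lit 8) (nat_lit 2) (@Lb.g g10 (@Lb.g g11 (@Lb.r r387 (@Lb.d (nat_lit 0) (nat_lit 2) (nat_lit 137) (@Lb.fm (nat_lit 3) t51))))))
noncomputable def l11829 : Lb := (@Lb.d (nat_lit 32) (nat_lit 512) (nat_lit 2) (@Lb.g g6 (@Lb.r r24 (@Lb.r r2341 (@Lb.r r659 (@Lb.r r2706 (@Lb.d (nat_lit 0) (nat_lit 84) (nat_lit 357) (@Lb.t (@Lb.fm (nat_lit 3) t87)))))))))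
noncomputable def l11830 : Lb := (@Lb.d (nat_lit 0) (nat_lit 0) (nat_lit 66) (@Lb.g g10 (@Lb.g g11 (@Lb.r r2691 (@Lb.r r578 (@Lb.d (nat_lit 0) (nat_lit 81) (nat_lit 153) (@Lb.fp (nat_lit 3) t885)))))))
noncomputable def l11831 : Lb := (@Lb.d (nat_lit 0) (nat_lit 260) (nat_lit 1) (@Lb.g g6 (@Lb.r r1427 (@Lb.d (nat_lit 0) (nat_lit 129) (nat_lit 16) (@Lb.t (@Lb.fm (nat_lit 3) t44))))))
noncomputable def l11832 : Lb := (@Lb.r r82 (@Lb.r r275 (@Lb.d (nat_lit 8) (nat_lit 18) (nat_lit 0) (@Lb.g g9 (@Lb.r r291 (@Lb.r r98 (@Lb.d (nat_lit 2) (nat_lit 33) (nat_lit 128) (@Lb.t (@Lb.fp (nat_lit 3) t5)))))))))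
noncomputable def l11833 : Lb := (@Lb.g g6 (@Lb.g g7 (@Lb.r r1427 (@Lb.r r402 (@Lb.d (nat_lit 0) (nat_lit 69) (nat_lit 33) (@Lb.fp (nat_lit 3) t2754))))))
noncomputable def l11834 : Lb := (@Lb.d (nat_lit 1) (nat_lit 256) (nat_lit 0) (@Lb.r r1361 (@Lb.r r2471 (@Lb.r r1442 (@Lb.r r425 (@Lb.g g4 (@Lb.d (nat_lit 1) (nat_lit 0) (nat_lit 0) (@Lb.t (@Lb.fm (nat_lit 3) t722)))))))))
noncomputable def l11835 : Lb := (@Lb.r r70 (@Lb.r r263 (@Lb.d (nat_lit 522) (nat_lit 257) (nat_lit 0) (@Lb.g g8 (@Lb.g g9 (@Lb.r r153 (@Lb.r r402 (@Lb.r r2627 (@Lb.d (nat_lit 641) (nat_lit 0) (nat_lit 384) (@Lb.fm (nat_lit 3) t644))))))))))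
noncomputable def l11836 : Lb := (@Lb.r r322 (@Lb.g g9 (@Lb.g g11 (@Lb.r r2727 (@Lb.r r1304 (@Lb.r r2149 (@Lb.r r146 (@Lb.d (nat_lit 545) (nat_lit 512) (nat_lit 34) (@Lb.fm (nat_lit 3) t228)))))))))
noncomputable def l11837 : Lb := (@Lb.d (nat_lit 24) (nat_lit 518) (nat_lit 129) (@Lb.g g8 (@Lb.g g9 (@Lb.g g10 (@Lb.g g11 (@Lb.r r663 (@Lb.r r549 (@Lb.r r404 (@Lb.r r390 (@Lb.d (nat_lit 105) (nat_lit 136) (nat_lit 68) (@Lb.fm (nat_lit 9) t2755)))))))))))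
noncomputable def l11838 : Lb := (@Lb.r r323 (@Lb.d (nat_lit 137) (nat_lit 262) (nat_lit 16) (@Lb.g g8 (@Lb.g g9 (@Lb.g g10 (@Lb.r r1623 (@Lb.r r145 (@Lb.r r2340 (@Lb.d (nat_lit 586) (nat_lit 40) (nat_lit 641) (@Lb.t (@Lb.fp (nat_lit 9) t1142)))))))))))
noncomputable def l11839 : Lb := (@Lb.r r323 (@Lb.d (nat_lit 40) (nat_lit 548) (nat_lit 0) (@Lb.g g9 (@Lb.g g10 (@Lb.r r603 (@Lb.r r600 (@Lb.r r293 (@Lb.d (nat_lit 74) (nat_lit 137) (nat_lit 1) (@Lb.fp (nat_lit 3) t943)))))))))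
noncomputable def l11840 : Lb := (@Lb.r r82 (@Lb.d (nat_lit 9) (nat_lit 18) (nat_lit 0) (@Lb.g g8 (@Lb.g g9 (@Lb.g g11 (@Lb.r r1431 (@Lb.r r386 (@Lb.r r1109 (@Lb.r r24 (@Lb.d (nat_lit 33) (nat_lit 130) (nat_lit 18) (@Lb.t (@Lb.fm (nat_lit 9) t742))))))))))))
noncomputable def l11841 : Lb := (@Lb.d (nat_lit 329) (nat_lit 32) (nat_lit 128) (@Lb.r r289 (@Lb.r r535 (@Lb.r r328 (@Lb.r r2726 (@Lb.g g7 (@Lb.g g6 (@Lb.g g5 (@Lb.d (nat_lit 0) (nat_lit 5) (nat_lit 132) (@Lb.t (@Lb.fp (nat_lit 9) t2756)))))))))))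
noncomputable def l11842 : Lb := (@Lb.r r82 (@Lb.d (nat_lit 34) (nat_lit 609) (nat_lit 128) (@Lb.g g8 (@Lb.g g9 (@Lb.g g11 (@Lb.r r1315 (@Lb.r r390 (@Lb.r r580 (@Lb.d (nat_lit 146) (nat_lit 160) (nat_lit 586) (@Lb.t (@Lb.fp (nat_lit 9) t2333)))))))))))
noncomputable def l11843 : Lb := (@Lb.d (nat_lit 512) (nat_lit 416) (nat_lit 384) (@Lb.r r1321 (@Lb.r r1444 (@Lb.r r2374 (@Lb.r r611 (@Lb.g g7 (@Lb.g g6 (@Lb.g g5 (@Lb.d (nat_lit 0) (nat_lit 0) (nat_lit 134) (@Lb.t (@Lb.fp (nat_lit 9) t2756)))))))))))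
noncomputable def l11844 : Lb := (@Lb.r r82 (@Lb.d (nat_lit 9) (nat_lit 274) (nat_lit 0) (@Lb.g g8 (@Lb.g g9 (@Lb.g g11 (@Lb.r r1431 (@Lb.r r386 (@Lb.r r1109 (@Lb.r r24 (@Lb.d (nat_lit 33) (nat_lit 137) (nat_lit 17) (@Lb.t (@Lb.fm (nat_lit 9) t538))))))))))))
noncomputable def l11845 : Lb := (@Lb.r r21 (@Lb.r r70 (@Lb.r r263 (@Lb.d (nat_lit 1) (nat_lit 0) (nat_lit 0) (@Lb.g g4 (@Lb.r r2631 (@Lb.r r402 (@Lb.r r97 (@Lb.d (nat_lit 262) (nat_lit 10) (nat_lit 2) (@Lb.t (@Lb.fp (nat_lit 3) t739)))))))))))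
noncomputable def l11846 : Lb := (@Lb.d (nat_lit 405) (nat_lit 657) (nat_lit 409) (@Lb.r r275 (@Lb.r r1689 (@Lb.r r1112 (@Lb.r r166 (@Lb.g g7 (@Lb.g g5 (@Lb.d (nat_lit 68) (nat_lit 0) (nat_lit 64) (@Lb.fm (nat_lit 3) t2757)))))))))
noncomputable def l11847 : Lb := (@Lb.d (nat_lit 137) (nat_lit 24) (nat_lit 69) (@Lb.r r422 (@Lb.r r88 (@Lb.r r279 (@Lb.g g6 (@Lb.g g5 (@Lb.d (nat_lit 16) (nat_lit 150) (nat_lit 1) (@Lb.r r387 (@Lb.fm (nat_lit 3) t2758)))))))))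
noncomputable def l11848 : Lb := (@Lb.r r82 (@Lb.r r275 (@Lb.d (nat_lit 1) (nat_lit 514) (nat_lit 0) (@Lb.g g4 (@Lb.g g9 (@Lb.r r2395 (@Lb.r r1189 (@Lb.r r98 (@Lb.d (nat_lit 298) (nat_lit 132) (nat_lit 34) (@Lb.fm (nat_lit 3) t673))))))))))
noncomputable def l11849 : Lb := (@Lb.r r70 (@Lb.r r263 (@Lb.d (nat_lit 544) (nat_lit 258) (nat_lit 0) (@Lb.g g8 (@Lb.g g9 (@Lb.r r406 (@Lb.r r2627 (@Lb.r r25 (@Lb.d (nat_lit 2) (nat_lit 81) (nat_lit 576) (@Lb.fm (nat_lit 3) t394))))))))))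
noncomputable def l11850 : Lb := (@Lb.d (nat_lit 0) (nat_lit 42) (nat_lit 100) (@Lb.r r402 (@Lb.r r2661 (@Lb.r r1304 (@Lb.r r323 (@Lb.g g7 (@Lb.g g6 (@Lb.g g5 (@Lb.d (nat_lit 16) (nat_lit 0) (nat_lit 66) (@Lb.t (@Lb.fm (nat_lit 9) t2759)))))))))))
noncomputable def l11851 : Lb := (@Lb.d (nat_lit 10) (nat_lit 389) (nat_lit 17) (@Lb.r r2129 (@Lb.r r1126 (@Lb.r r2456 (@Lb.r r1575 (@Lb.g g7 (@Lb.g g5 (@Lb.r r578 (@Lb.fm (nat_lit 3) t119)))))))))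
noncomputable def l11852 : Lb := (@Lb.d (nat_lit 298) (nat_lit 512) (nat_lit 17) (@Lb.r r86 (@Lb.r r424 (@Lb.r r2209 (@Lb.r r2727 (@Lb.g g7 (@Lb.g g6 (@Lb.g g5 (@Lb.d (nat_lit 0) (nat_lit 5) (nat_lit 134) (@Lb.t (@Lb.fm (nat_lit 9) t308)))))))))))
noncomputable def l11853 : Lb := (@Lb.d (nat_lit 2) (nat_lit 258) (nat_lit 130) (@Lb.g g8 (@Lb.g g9 (@Lb.g g10 (@Lb.g g11 (@Lb.r r427 (@Lb.r r106 (@Lb.r r25 (@Lb.d (nat_lit 552) (nat_lit 9) (nat_lit 152) (@Lb.fp (nat_lit 9) t1320))))))))))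
noncomputable def l11854 : Lb := (@Lb.d (nat_lit 8) (nat_lit 546) (nat_lit 0) (@Lb.g g9 (@Lb.r r536 (@Lb.r r2715 (@Lb.r r2178 (@Lb.r r341 (@Lb.d (nat_lit 356) (nat_lit 22) (nat_lit 134) (@Lb.t (@Lb.fm (nat_lit 3) t64)))))))))
noncomputable def l11855 : Lb := (@Lb.r r322 (@Lb.g g9 (@Lb.g g7 (@Lb.r r1670 (@Lb.r r2376 (@Lb.r r1559 (@Lb.r r289 (@Lb.p (nat_lit 1) (@Lb.fp (nat_lit 3) t51)))))))))
noncomputable def l11856 : Lb := (@Lb.d (nat_lit 132) (nat_lit 160) (nat_lit 384) (@Lb.r r2631 (@Lb.r r402 (@Lb.g g5 (@Lb.d (nat_lit 4) (nat_lit 1) (nat_lit 0) (@Lb.t (@Lb.fm (nat_lit 3) t2760)))))))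
noncomputable def l11857 : Lb := (@Lb.d (nat_lit 522) (nat_lit 529) (nat_lit 0) (@Lb.r r297 (@Lb.r r420 (@Lb.r r422 (@Lb.g g11 (@Lb.g g5 (@Lb.d (nat_lit 0) (nat_lit 0) (nat_lit 392) (@Lb.r r98 (@Lb.fp (nat_lit 3) t2153)))))))))
noncomputable def l11858 : Lb := (@Lb.d (nat_lit 512) (nat_lit 337) (nat_lit 0) (@Lb.r r297 (@Lb.r r420 (@Lb.r r422 (@Lb.g g11 (@Lb.g g5 (@Lb.d (nat_lit 0) (nat_lit 0) (nat_lit 392) (@Lb.r r98 (@Lb.fp (nat_lit 3) t2153)))))))))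
noncomputable def l11859 : Lb := (@Lb.d (nat_lit 673) (nat_lit 513) (nat_lit 645) (@Lb.r r2129 (@Lb.r r1126 (@Lb.r r2403 (@Lb.r r345 (@Lb.g g7 (@Lb.g g6 (@Lb.g g5 (@Lb.g g8 (@Lb.d (nat_lit 320) (nat_lit 1) (nat_lit 129) (@Lb.fm (nat_lit 9) t2761)))))))))))
noncomputable def l11860 : Lb := (@Lb.d (nat_lit 530) (nat_lit 8) (nat_lit 164) (@Lb.r r81 (@Lb.r r102 (@Lb.r r2407 (@Lb.r r337 (@Lb.g g7 (@Lb.g g6 (@Lb.g g5 (@Lb.g g8 (@Lb.d (nat_lit 320) (nat_lit 1) (nat_lit 65) (@Lb.fm (nat_lit 9) t2762)))))))))))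
noncomputable def l11861 : Lb := (@Lb.d (nat_lit 2) (nat_lit 514) (nat_lit 0) (@Lb.g g8 (@Lb.g g9 (@Lb.r r25 (@Lb.d (nat_lit 9) (nat_lit 0) (nat_lit 64) (@Lb.fm (nat_lit 3) t2))))))
noncomputable def l11862 : Lb := (@Lb.d (nat_lit 0) (nat_lit 256) (nat_lit 74) (@Lb.g g9 (@Lb.g g10 (@Lb.g g11 (@Lb.r r2727 (@Lb.r r2209 (@Lb.r r424 (@Lb.r r106 (@Lb.d (nat_lit 533) (nat_lit 0) (nat_lit 34) (@Lb.t (@Lb.fp (nat_lit 9) t228)))))))))))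
noncomputable def l11863 : Lb := (@Lb.d (nat_lit 1) (nat_lit 0) (nat_lit 168) (@Lb.r r24 (@Lb.r r346 (@Lb.r r423 (@Lb.r r293 (@Lb.g g7 (@Lb.d (nat_lit 0) (nat_lit 16) (nat_lit 128) (@Lb.t (@Lb.fm (nat_lit 3) t98)))))))))
noncomputable def l11864 : Lb := (@Lb.r r21 (@Lb.d (nat_lit 16) (nat_lit 0) (nat_lit 74) (@Lb.g g8 (@Lb.g g10 (@Lb.g g11 (@Lb.r r603 (@Lb.r r2401 (@Lb.r r1170 (@Lb.r r1128 (@Lb.d (nat_lit 258) (nat_lit 73) (nat_lit 34) (@Lb.t (@Lb.fm (nat_lit 9) t68))))))))))))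
noncomputable def l11865 : Lb := (@Lb.r r20 (@Lb.d (nat_lit 0) (nat_lit 258) (nat_lit 2) (@Lb.g g9 (@Lb.g g10 (@Lb.r r2658 (@Lb.r r579 (@Lb.r r8 (@Lb.d (nat_lit 8) (nat_lit 101) (nat_lit 584) (@Lb.fm (nat_lit 3) t51)))))))))
noncomputable def l11866 : Lb := (@Lb.d (nat_lit 657) (nat_lit 512) (nat_lit 390) (@Lb.r r24 (@Lb.r r101 (@Lb.r r386 (@Lb.g g11 (@Lb.g g6 (@Lb.g g5 (@Lb.d (nat_lit 0) (nat_lit 5) (nat_lit 130) (@Lb.t (@Lb.fp (nat_lit 9) t719))))))))))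
noncomputable def l11867 : Lb := (@Lb.d (nat_lit 2) (nat_lit 265) (nat_lit 129) (@Lb.g g8 (@Lb.g g9 (@Lb.g g10 (@Lb.g g11 (@Lb.r r548 (@Lb.r r295 (@Lb.r r357 (@Lb.r r154 (@Lb.r r132 (@Lb.d (nat_lit 297) (nat_lit 1) (nat_lit 106) (@Lb.fp (nat_lit 9) t2763))))))))))))
noncomputable def l11868 : Lb := (@Lb.d (nat_lit 101) (nat_lit 678) (nat_lit 538) (@Lb.r r615 (@Lb.r r420 (@Lb.r r150 (@Lb.g g7 (@Lb.g g5 (@Lb.g g4 (@Lb.d (nat_lit 22) (nat_lit 152) (nat_lit 128) (@Lb.r r98 (@Lb.t (@Lb.fp (nat_lit 9) t2764)))))))))))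
noncomputable def l11869 : Lb := (@Lb.r r323 (@Lb.d (nat_lit 2) (nat_lit 521) (nat_lit 2) (@Lb.g g8 (@Lb.g g9 (@Lb.g g10 (@Lb.r r2347 (@Lb.r r2201 (@Lb.r r146 (@Lb.d (nat_lit 289) (nat_lit 72) (nat_lit 96) (@Lb.t (@Lb.fp (nat_lit 9) t28)))))))))))
noncomputable def l11870 : Lb := (@Lb.r r260 (@Lb.r r273 (@Lb.d (nat_lit 0) (nat_lit 16) (nat_lit 578) (@Lb.g g10 (@Lb.g g7 (@Lb.r r386 (@Lb.r r101 (@Lb.r r1048 (@Lb.d (nat_lit 98) (nat_lit 0) (nat_lit 601) (@Lb.fm (nat_lit 3) t865))))))))))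
noncomputable def l11871 : Lb := (@Lb.d (nat_lit 2) (nat_lit 0) (nat_lit 0) (@Lb.g g8 (@Lb.d (nat_lit 10) (nat_lit 9) (nat_lit 66) (@Lb.t (@Lb.fp (nat_lit 3) t21)))))
noncomputable def l11872 : Lb := (@Lb.d (nat_lit 146) (nat_lit 521) (nat_lit 130) (@Lb.g g8 (@Lb.g g9 (@Lb.g g10 (@Lb.g g11 (@Lb.r r1706 (@Lb.r r1411 (@Lb.r r2201 (@Lb.r r2180 (@Lb.d (nat_lit 553) (nat_lit 146) (nat_lit 170) (@Lb.fm (nat_lit 9) t2765)))))))))))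
noncomputable def l11873 : Lb := (@Lb.d (nat_lit 26) (nat_lit 134) (nat_lit 597) (@Lb.r r165 (@Lb.r r1190 (@Lb.r r340 (@Lb.r r2347 (@Lb.g g6 (@Lb.g g5 (@Lb.g g4 (@Lb.d (nat_lit 33) (nat_lit 16) (nat_lit 1) (@Lb.t (@Lb.fp (nat_lit 9) t2763)))))))))))
noncomputable def l11874 : Lb := (@Lb.d (nat_lit 0) (nat_lit 512) (nat_lit 138) (@Lb.g g10 (@Lb.g g11 (@Lb.r r354 (@Lb.r r1427 (@Lb.d (nat_lit 0) (nat_lit 128) (nat_lit 256) (@Lb.fm (nat_lit 3) t334)))))))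
noncomputable def l11875 : Lb := (@Lb.r r275 (@Lb.d (nat_lit 1) (nat_lit 521) (nat_lit 1) (@Lb.g g8 (@Lb.g g9 (@Lb.g g10 (@Lb.r r2154 (@Lb.r r2408 (@Lb.r r391 (@Lb.r r2449 (@Lb.d (nat_lit 0) (nat_lit 32) (nat_lit 358) (@Lb.t (@Lb.fp (nat_lit 9) t587))))))))))))
noncomputable def l11876 : Lb := (@Lb.r r275 (@Lb.d (nat_lit 2) (nat_lit 265) (nat_lit 1) (@Lb.g g8 (@Lb.g g9 (@Lb.g g10 (@Lb.r r2154 (@Lb.r r2408 (@Lb.r r391 (@Lb.r r2449 (@Lb.d (nat_lit 0) (nat_lit 32) (nat_lit 358) (@Lb.t (@Lb.fp (nat_lit 9) t587))))))))))))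
noncomputable def l11877 : Lb := (@Lb.d (nat_lit 4) (nat_lit 0) (nat_lit 136) (@Lb.g g8 (@Lb.g g9 (@Lb.g g11 (@Lb.r r2585 (@Lb.r r2564 (@Lb.d (nat_lit 9) (nat_lit 0) (nat_lit 386) (@Lb.t (@Lb.fm (nat_lit 9) t2334)))))))))
noncomputable def l11878 : Lb := (@Lb.d (nat_lit 128) (nat_lit 528) (nat_lit 137) (@Lb.g g9 (@Lb.g g10 (@Lb.g g11 (@Lb.r r614 (@Lb.r r388 (@Lb.r r587 (@Lb.r r2085 (@Lb.d (nat_lit 97) (nat_lit 137) (nat_lit 17) (@Lb.t (@Lb.fm (nat_lit 9) t2766)))))))))))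
noncomputable def l11879 : Lb := (@Lb.d (nat_lit 0) (nat_lit 512) (nat_lit 130) (@Lb.g g9 (@Lb.g g10 (@Lb.g g11 (@Lb.r r166 (@Lb.r r584 (@Lb.r r299 (@Lb.r r289 (@Lb.d (nat_lit 328) (nat_lit 97) (nat_lit 640) (@Lb.t (@Lb.fp (nat_lit 9) t668)))))))))))
noncomputable def l11880 : Lb := (@Lb.d (nat_lit 128) (nat_lit 272) (nat_lit 137) (@Lb.g g9 (@Lb.g g10 (@Lb.g g11 (@Lb.r r614 (@Lb.r r388 (@Lb.r r587 (@Lb.r r2085 (@Lb.d (nat_lit 98) (nat_lit 137) (nat_lit 17) (@Lb.t (@Lb.fm (nat_lit 9) t2767)))))))))))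
noncomputable def l11881 : Lb := (@Lb.g g6 (@Lb.d (nat_lit 5) (nat_lit 262) (nat_lit 1) (@Lb.t (@Lb.fm (nat_lit 3) t45))))
noncomputable def l11882 : Lb := (@Lb.r r2663 (@Lb.r r101 (@Lb.r r594 (@Lb.d (nat_lit 96) (nat_lit 384) (nat_lit 2) (@Lb.fp (nat_lit 1) t2768)))))
noncomputable def l11883 : Lb := (@Lb.d (nat_lit 298) (nat_lit 649) (nat_lit 17) (@Lb.r r597 (@Lb.r r279 (@Lb.r r584 (@Lb.r r326 (@Lb.g g7 (@Lb.g g6 (@Lb.g g5 (@Lb.d (nat_lit 4) (nat_lit 1) (nat_lit 65) (@Lb.t (@Lb.fm (nat_lit 9) t504)))))))))))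
noncomputable def l11884 : Lb := (@Lb.r r21 (@Lb.d (nat_lit 16) (nat_lit 516) (nat_lit 1) (@Lb.g g8 (@Lb.g g6 (@Lb.r r97 (@Lb.r r1704 (@Lb.d (nat_lit 598) (nat_lit 41) (nat_lit 388) (@Lb.fp (nat_lit 3) t2769))))))))
noncomputable def l11885 : Lb := (@Lb.d (nat_lit 10) (nat_lit 258) (nat_lit 73) (@Lb.g g8 (@Lb.g g9 (@Lb.g g10 (@Lb.g g11 (@Lb.r r2691 (@Lb.r r1642 (@Lb.r r289 (@Lb.r r2648 (@Lb.d (nat_lit 296) (nat_lit 149) (nat_lit 298) (@Lb.fm (nat_lit 9) t2770)))))))))))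
noncomputable def l11886 : Lb := (@Lb.d (nat_lit 2) (nat_lit 513) (nat_lit 168) (@Lb.r r346 (@Lb.r r423 (@Lb.r r293 (@Lb.g g7 (@Lb.d (nat_lit 0) (nat_lit 16) (nat_lit 128) (@Lb.t (@Lb.fp (nat_lit 3) t98))))))))
noncomputable def l11887 : Lb := (@Lb.d (nat_lit 8) (nat_lit 2) (nat_lit 73) (@Lb.g g8 (@Lb.g g9 (@Lb.g g10 (@Lb.g g11 (@Lb.r r2691 (@Lb.r r1642 (@Lb.r r289 (@Lb.r r2648 (@Lb.d (nat_lit 296) (nat_lit 149) (nat_lit 298) (@Lb.fm (nat_lit 9) t2770)))))))))))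
noncomputable def l11888 : Lb := (@Lb.r r81 (@Lb.d (nat_lit 10) (nat_lit 256) (nat_lit 145) (@Lb.g g8 (@Lb.g g6 (@Lb.g g11 (@Lb.r r579 (@Lb.r r2581 (@Lb.r r1320 (@Lb.d (nat_lit 518) (nat_lit 162) (nat_lit 72) (@Lb.t (@Lb.fp (nat_lit 9) t2771)))))))))))
noncomputable def l11889 : Lb := (@Lb.d (nat_lit 0) (nat_lit 33) (nat_lit 2) (@Lb.g g9 (@Lb.g g10 (@Lb.r r1411 (@Lb.r r418 (@Lb.r r421 (@Lb.r r24 (@Lb.d (nat_lit 134) (nat_lit 64) (nat_lit 137) (@Lb.fp (nat_lit 3) t2772)))))))))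
noncomputable def l11890 : Lb := (@Lb.r r355 (@Lb.d (nat_lit 32) (nat_lit 520) (nat_lit 2) (@Lb.g g9 (@Lb.g g10 (@Lb.r r2567 (@Lb.r r68 (@Lb.r r106 (@Lb.r r101 (@Lb.d (nat_lit 41) (nat_lit 73) (nat_lit 84) (@Lb.fm (nat_lit 3) t2773))))))))))
noncomputable def l11891 : Lb := (@Lb.d (nat_lit 9) (nat_lit 6) (nat_lit 128) (@Lb.g g8 (@Lb.g g9 (@Lb.g g10 (@Lb.g g11 (@Lb.r r1699 (@Lb.r r596 (@Lb.r r682 (@Lb.r r2217 (@Lb.r r2212 (@Lb.d (nat_lit 582) (nat_lit 96) (nat_lit 586) (@Lb.fm (nat_lit 9) t74))))))))))))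
noncomputable def l11892 : Lb := (@Lb.r r70 (@Lb.d (nat_lit 2) (nat_lit 258) (nat_lit 128) (@Lb.g g8 (@Lb.g g9 (@Lb.g g11 (@Lb.r r299 (@Lb.r r1602 (@Lb.r r97 (@Lb.r r408 (@Lb.d (nat_lit 521) (nat_lit 26) (nat_lit 258) (@Lb.t (@Lb.fm (nat_lit 9) t50))))))))))))
noncomputable def l11893 : Lb := (@Lb.r r323 (@Lb.d (nat_lit 129) (nat_lit 516) (nat_lit 26) (@Lb.g g8 (@Lb.g g6 (@Lb.r r407 (@Lb.r r2145 (@Lb.r r1540 (@Lb.d (nat_lit 389) (nat_lit 0) (nat_lit 641) (@Lb.fm (nat_lit 3) t51)))))))))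
noncomputable def l11894 : Lb := (@Lb.d (nat_lit 10) (nat_lit 512) (nat_lit 0) (@Lb.g g8 (@Lb.g g11 (@Lb.r r149 (@Lb.r r402 (@Lb.r r2436 (@Lb.d (nat_lit 610) (nat_lit 164) (nat_lit 325) (@Lb.fp (nat_lit 3) t652))))))))
noncomputable def l11895 : Lb := (@Lb.d (nat_lit 153) (nat_lit 513) (nat_lit 5) (@Lb.g g8 (@Lb.g g9 (@Lb.g g10 (@Lb.g g11 (@Lb.r r1675 (@Lb.r r36 (@Lb.r r1381 (@Lb.r r2202 (@Lb.r r1156 (@Lb.d (nat_lit 386) (nat_lit 130) (nat_lit 618) (@Lb.fm (nat_lit 9) t594))))))))))))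
noncomputable def l11896 : Lb := (@Lb.r r593 (@Lb.d (nat_lit 2) (nat_lit 272) (nat_lit 386) (@Lb.g g8 (@Lb.g g10 (@Lb.g g11 (@Lb.r r2581 (@Lb.r r2212 (@Lb.r r2182 (@Lb.d (nat_lit 290) (nat_lit 10) (nat_lit 132) (@Lb.t (@Lb.fp (nat_lit 9) t1397)))))))))))
noncomputable def l11897 : Lb := (@Lb.d (nat_lit 32) (nat_lit 16) (nat_lit 329) (@Lb.g g10 (@Lb.g g11 (@Lb.r r2392 (@Lb.r r582 (@Lb.r r1057 (@Lb.d (nat_lit 658) (nat_lit 97) (nat_lit 522) (@Lb.fm (nat_lit 3) t324))))))))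
noncomputable def l11898 : Lb := (@Lb.r r529 (@Lb.d (nat_lit 0) (nat_lit 256) (nat_lit 320) (@Lb.g g11 (@Lb.r r1426 (@Lb.r r613 (@Lb.r r24 (@Lb.d (nat_lit 256) (nat_lit 0) (nat_lit 320) (@Lb.t (@Lb.fm (nat_lit 3) t860)))))))))
noncomputable def l11899 : Lb := (@Lb.r r593 (@Lb.d (nat_lit 2) (nat_lit 528) (nat_lit 386) (@Lb.g g8 (@Lb.g g10 (@Lb.g g11 (@Lb.r r2581 (@Lb.r r2212 (@Lb.r r2182 (@Lb.d (nat_lit 289) (nat_lit 10) (nat_lit 132) (@Lb.t (@Lb.fp (nat_lit 9) t1397)))))))))))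
noncomputable def l11900 : Lb := (@Lb.r r355 (@Lb.d (nat_lit 0) (nat_lit 640) (nat_lit 2) (@Lb.g g5 (@Lb.g g6 (@Lb.r r2643 (@Lb.r r386 (@Lb.d (nat_lit 0) (nat_lit 64) (nat_lit 394) (@Lb.fm (nat_lit 3) t144))))))))
noncomputable def l11901 : Lb := (@Lb.d (nat_lit 0) (nat_lit 256) (nat_lit 64) (@Lb.g g7 (@Lb.d (nat_lit 0) (nat_lit 0) (nat_lit 100) (@Lb.t (@Lb.fm (nat_lit 3) t2)))))
noncomputable def l11902 : Lb := (@Lb.d (nat_lit 128) (nat_lit 544) (nat_lit 136) (@Lb.g g11 (@Lb.r r420 (@Lb.r r2469 (@Lb.r r1446 (@Lb.r r347 (@Lb.d (nat_lit 297) (nat_lit 22) (nat_lit 518) (@Lb.t (@Lb.fp (nat_lit 3) t322)))))))))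
noncomputable def l11903 : Lb := (@Lb.r r323 (@Lb.d (nat_lit 6) (nat_lit 512) (nat_lit 2) (@Lb.g g8 (@Lb.g g9 (@Lb.g g10 (@Lb.r r70 (@Lb.r r388 (@Lb.r r1323 (@Lb.r r1313 (@Lb.d (nat_lit 10) (nat_lit 138) (nat_lit 258) (@Lb.t (@Lb.fp (nat_lit 9) t51))))))))))))
noncomputable def l11904 : Lb := (@Lb.d (nat_lit 0) (nat_lit 258) (nat_lit 128) (@Lb.g g9 (@Lb.g g10 (@Lb.g g11 (@Lb.r r1671 (@Lb.r r1685 (@Lb.r r2404 (@Lb.r r1178 (@Lb.d (nat_lit 24) (nat_lit 64) (nat_lit 16) (@Lb.t (@Lb.fm (nat_lit 9) t651)))))))))))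
noncomputable def l11905 : Lb := (@Lb.r r323 (@Lb.d (nat_lit 128) (nat_lit 514) (nat_lit 18) (@Lb.g g8 (@Lb.g g9 (@Lb.g g10 (@Lb.r r2345 (@Lb.r r1431 (@Lb.r r2660 (@Lb.d (nat_lit 666) (nat_lit 90) (nat_lit 342) (@Lb.t (@Lb.fp (nat_lit 9) t596)))))))))))
noncomputable def l11906 : Lb := (@Lb.d (nat_lit 386) (nat_lit 582) (nat_lit 646) (@Lb.r r597 (@Lb.r r1638 (@Lb.r r2692 (@Lb.r r2439 (@Lb.g g7 (@Lb.g g6 (@Lb.g g5 (@Lb.d (nat_lit 20) (nat_lit 1) (nat_lit 68) (@Lb.t (@Lb.fp (nat_lit 9) t721)))))))))))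
noncomputable def l11907 : Lb := (@Lb.d (nat_lit 8) (nat_lit 290) (nat_lit 0) (@Lb.g g5 (@Lb.r r1323 (@Lb.r r2178 (@Lb.r r2408 (@Lb.r r2473 (@Lb.d (nat_lit 617) (nat_lit 153) (nat_lit 133) (@Lb.t (@Lb.fp (nat_lit 3) t124)))))))))
noncomputable def l11908 : Lb := (@Lb.d (nat_lit 2) (nat_lit 41) (nat_lit 582) (@Lb.r r2567 (@Lb.r r1448 (@Lb.r r89 (@Lb.g g10 (@Lb.g g4 (@Lb.d (nat_lit 5) (nat_lit 0) (nat_lit 18) (@Lb.r r387 (@Lb.r r145 (@Lb.fp (nat_lit 3) t823))))))))))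
noncomputable def l11909 : Lb := (@Lb.d (nat_lit 137) (nat_lit 0) (nat_lit 0) (@Lb.g g8 (@Lb.r r1621 (@Lb.r r2391 (@Lb.r r2178 (@Lb.r r1572 (@Lb.d (nat_lit 394) (nat_lit 153) (nat_lit 532) (@Lb.t (@Lb.fm (nat_lit 3) t100)))))))))
noncomputable def l11910 : Lb := (@Lb.d (nat_lit 129) (nat_lit 288) (nat_lit 0) (@Lb.g g8 (@Lb.g g9 (@Lb.r r1299 (@Lb.r r2178 (@Lb.r r2709 (@Lb.r r2084 (@Lb.d (nat_lit 169) (nat_lit 73) (nat_lit 261) (@Lb.fp (nat_lit 3) t124)))))))))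
noncomputable def l11911 : Lb := (@Lb.d (nat_lit 0) (nat_lit 2) (nat_lit 130) (@Lb.g g8 (@Lb.g g9 (@Lb.g g10 (@Lb.g g11 (@Lb.r r427 (@Lb.r r106 (@Lb.r r25 (@Lb.d (nat_lit 9) (nat_lit 9) (nat_lit 137) (@Lb.fp (nat_lit 9) t51))))))))))
noncomputable def l11912 : Lb := (@Lb.g g8 (@Lb.r r273 (@Lb.r r2667 (@Lb.r r1414 (@Lb.r r2600 (@Lb.r r153 (@Lb.d (nat_lit 0) (nat_lit 408) (nat_lit 297) (@Lb.t (@Lb.fm (nat_lit 3) t591)))))))))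
noncomputable def l11913 : Lb := (@Lb.d (nat_lit 1) (nat_lit 258) (nat_lit 2) (@Lb.r r134 (@Lb.r r328 (@Lb.r r535 (@Lb.g g9 (@Lb.d (nat_lit 0) (nat_lit 33) (nat_lit 0) (@Lb.t (@Lb.fm (nat_lit 3) t5))))))))
noncomputable def l11914 : Lb := (@Lb.r r20 (@Lb.d (nat_lit 40) (nat_lit 134) (nat_lit 128) (@Lb.g g5 (@Lb.g g10 (@Lb.g g11 (@Lb.r r2711 (@Lb.r r1352 (@Lb.r r2374 (@Lb.d (nat_lit 601) (nat_lit 81) (nat_lit 40) (@Lb.t (@Lb.fp (nat_lit 9) t68)))))))))))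
noncomputable def l11915 : Lb := (@Lb.d (nat_lit 32) (nat_lit 272) (nat_lit 330) (@Lb.g g10 (@Lb.g g11 (@Lb.r r2376 (@Lb.r r598 (@Lb.r r1057 (@Lb.d (nat_lit 144) (nat_lit 74) (nat_lit 282) (@Lb.fm (nat_lit 3) t820))))))))
noncomputable def l11916 : Lb := (@Lb.d (nat_lit 0) (nat_lit 548) (nat_lit 128) (@Lb.g g9 (@Lb.g g10 (@Lb.g g11 (@Lb.r r387 (@Lb.r r1442 (@Lb.r r2193 (@Lb.d (nat_lit 0) (nat_lit 161) (nat_lit 290) (@Lb.t (@Lb.fp (nat_lit 9) t99))))))))))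
noncomputable def l11917 : Lb := (@Lb.d (nat_lit 0) (nat_lit 520) (nat_lit 130) (@Lb.g g10 (@Lb.g g11 (@Lb.r r387 (@Lb.r r1617 (@Lb.r r354 (@Lb.d (nat_lit 0) (nat_lit 169) (nat_lit 673) (@Lb.fm (nat_lit 3) t1484))))))))
noncomputable def l11918 : Lb := (@Lb.d (nat_lit 128) (nat_lit 544) (nat_lit 64) (@Lb.g g11 (@Lb.r r2345 (@Lb.r r2472 (@Lb.r r2455 (@Lb.r r2178 (@Lb.d (nat_lit 86) (nat_lit 85) (nat_lit 150) (@Lb.t (@Lb.fm (nat_lit 3) t307)))))))))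
noncomputable def l11919 : Lb := (@Lb.d (nat_lit 0) (nat_lit 0) (nat_lit 128) (@Lb.g g11 (@Lb.r r1602 (@Lb.r r579 (@Lb.r r1425 (@Lb.d (nat_lit 0) (nat_lit 5) (nat_lit 408) (@Lb.t (@Lb.fm (nat_lit 3) t29))))))))
noncomputable def l11920 : Lb := (@Lb.d (nat_lit 0) (nat_lit 0) (nat_lit 64) (@Lb.g g5 (@Lb.g g10 (@Lb.g g7 (@Lb.d (nat_lit 0) (nat_lit 0) (nat_lit 148) (@Lb.t (@Lb.fm (nat_lit 9) t2)))))))
noncomputable def l11921 : Lb := (@Lb.d (nat_lit 0) (nat_lit 516) (nat_lit 64) (@Lb.g g9 (@Lb.g g10 (@Lb.g g7 (@Lb.r r386 (@Lb.r r97 (@Lb.d (nat_lit 0) (nat_lit 9) (nat_lit 9) (@Lb.t (@Lb.fp (nat_lit 9) t1400)))))))))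
noncomputable def l11922 : Lb := (@Lb.d (nat_lit 102) (nat_lit 390) (nat_lit 641) (@Lb.r r289 (@Lb.r r362 (@Lb.r r72 (@Lb.g g11 (@Lb.g g6 (@Lb.d (nat_lit 16) (nat_lit 0) (nat_lit 1) (@Lb.fp (nat_lit 3) t501))))))))
noncomputable def l11923 : Lb := (@Lb.r r82 (@Lb.g g9 (@Lb.g g7 (@Lb.r r275 (@Lb.r r2641 (@Lb.r r98 (@Lb.d (nat_lit 0) (nat_lit 346) (nat_lit 138) (@Lb.fp (nat_lit 3) t256))))))))
noncomputable def l11924 : Lb := (@Lb.d (nat_lit 0) (nat_lit 512) (nat_lit 66) (@Lb.g g9 (@Lb.g g10 (@Lb.g g11 (@Lb.r r675 (@Lb.r r2658 (@Lb.r r2577 (@Lb.d (nat_lit 0) (nat_lit 9) (nat_lit 33) (@Lb.t (@Lb.fp (nat_lit 9) t324))))))))))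
noncomputable def l11925 : Lb := (@Lb.d (nat_lit 0) (nat_lit 517) (nat_lit 64) (@Lb.g g9 (@Lb.g g10 (@Lb.g g11 (@Lb.r r675 (@Lb.r r2658 (@Lb.r r2577 (@Lb.d (nat_lit 0) (nat_lit 9) (nat_lit 161) (@Lb.t (@Lb.fp (nat_lit 9) t256))))))))))
noncomputable def l11926 : Lb := (@Lb.d (nat_lit 577) (nat_lit 641) (nat_lit 513) (@Lb.r r289 (@Lb.r r1287 (@Lb.r r2648 (@Lb.g g6 (@Lb.d (nat_lit 16) (nat_lit 8) (nat_lit 21) (@Lb.t (@Lb.fm (nat_lit 3) t2774))))))))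
noncomputable def l11927 : Lb := (@Lb.d (nat_lit 0) (nat_lit 512) (nat_lit 9) (@Lb.g g10 (@Lb.g g7 (@Lb.r r386 (@Lb.r r2577 (@Lb.d (nat_lit 0) (nat_lit 85) (nat_lit 38) (@Lb.fm (nat_lit 3) t1519)))))))
noncomputable def l11928 : Lb := (@Lb.r r82 (@Lb.d (nat_lit 0) (nat_lit 385) (nat_lit 0) (@Lb.g g9 (@Lb.r r98 (@Lb.d (nat_lit 0) (nat_lit 66) (nat_lit 0) (@Lb.t (@Lb.fp (nat_lit 3) t406)))))))
noncomputable def l11929 : Lb := (@Lb.d (nat_lit 2) (nat_lit 258) (nat_lit 66) (@Lb.g g8 (@Lb.g g9 (@Lb.g g10 (@Lb.g g7 (@Lb.r r386 (@Lb.r r2657 (@Lb.r r24 (@Lb.d (nat_lit 10) (nat_lit 169) (nat_lit 421) (@Lb.fp (nat_lit 9) t1403))))))))))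
noncomputable def l11930 : Lb := (@Lb.d (nat_lit 6) (nat_lit 166) (nat_lit 358) (@Lb.r r21 (@Lb.r r1366 (@Lb.r r683 (@Lb.g g6 (@Lb.g g5 (@Lb.g g4 (@Lb.d (nat_lit 1) (nat_lit 8) (nat_lit 0) (@Lb.t (@Lb.fm (nat_lit 9) t40))))))))))
noncomputable def l11931 : Lb := (@Lb.d (nat_lit 0) (nat_lit 4) (nat_lit 1) (@Lb.g g9 (@Lb.g g10 (@Lb.r r679 (@Lb.r r1685 (@Lb.r r2404 (@Lb.r r1178 (@Lb.d (nat_lit 537) (nat_lit 74) (nat_lit 18) (@Lb.fm (nat_lit 3) t602)))))))))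
noncomputable def l11932 : Lb := (@Lb.d (nat_lit 0) (nat_lit 514) (nat_lit 66) (@Lb.g g9 (@Lb.g g10 (@Lb.g g7 (@Lb.r r386 (@Lb.r r2657 (@Lb.d (nat_lit 0) (nat_lit 169) (nat_lit 421) (@Lb.t (@Lb.fp (nat_lit 9) t603)))))))))
noncomputable def l11933 : Lb := (@Lb.d (nat_lit 0) (nat_lit 548) (nat_lit 128) (@Lb.g g9 (@Lb.g g10 (@Lb.g g11 (@Lb.r r387 (@Lb.r r161 (@Lb.r r1442 (@Lb.r r2193 (@Lb.d (nat_lit 0) (nat_lit 8) (nat_lit 410) (@Lb.t (@Lb.fm (nat_lit 9) t406)))))))))))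
noncomputable def l11934 : Lb := (@Lb.d (nat_lit 658) (nat_lit 160) (nat_lit 537) (@Lb.r r146 (@Lb.r r1365 (@Lb.g g7 (@Lb.g g5 (@Lb.g g4 (@Lb.d (nat_lit 1) (nat_lit 18) (nat_lit 64) (@Lb.r r578 (@Lb.t (@Lb.fm (nat_lit 9) t375))))))))))
noncomputable def l11935 : Lb := (@Lb.d (nat_lit 130) (nat_lit 34) (nat_lit 0) (@Lb.g g8 (@Lb.g g9 (@Lb.r r275 (@Lb.r r2178 (@Lb.r r661 (@Lb.r r2084 (@Lb.d (nat_lit 425) (nat_lit 73) (nat_lit 37) (@Lb.fp (nat_lit 3) t124)))))))))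
noncomputable def l11936 : Lb := (@Lb.d (nat_lit 1) (nat_lit 552) (nat_lit 72) (@Lb.r r37 (@Lb.r r411 (@Lb.r r344 (@Lb.g g7 (@Lb.g g6 (@Lb.d (nat_lit 64) (nat_lit 0) (nat_lit 150) (@Lb.r r145 (@Lb.fm (nat_lit 3) t590)))))))))
noncomputable def l11937 : Lb := (@Lb.d (nat_lit 328) (nat_lit 673) (nat_lit 150) (@Lb.r r410 (@Lb.r r148 (@Lb.r r1365 (@Lb.g g7 (@Lb.g g6 (@Lb.g g5 (@Lb.d (nat_lit 80) (nat_lit 5) (nat_lit 386) (@Lb.t (@Lb.fm (nat_lit 9) t98))))))))))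
noncomputable def l11938 : Lb := (@Lb.d (nat_lit 138) (nat_lit 256) (nat_lit 0) (@Lb.g g8 (@Lb.r r1621 (@Lb.r r2391 (@Lb.r r2178 (@Lb.r r1572 (@Lb.d (nat_lit 394) (nat_lit 153) (nat_lit 594) (@Lb.t (@Lb.fm (nat_lit 3) t124)))))))))
noncomputable def l11939 : Lb := (@Lb.g g10 (@Lb.g g7 (@Lb.d (nat_lit 0) (nat_lit 600) (nat_lit 521) (@Lb.fp (nat_lit 3) t633))))
noncomputable def l11940 : Lb := (@Lb.r r323 (@Lb.d (nat_lit 0) (nat_lit 2) (nat_lit 4) (@Lb.g g9 (@Lb.g g6 (@Lb.r r387 (@Lb.r r97 (@Lb.d (nat_lit 0) (nat_lit 9) (nat_lit 9) (@Lb.fm (nat_lit 3) t87))))))))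
noncomputable def l11941 : Lb := (@Lb.d (nat_lit 0) (nat_lit 512) (nat_lit 2) (@Lb.g g10 (@Lb.r r2435 (@Lb.r r386 (@Lb.d (nat_lit 0) (nat_lit 5) (nat_lit 421) (@Lb.t (@Lb.fm (nat_lit 3) t45)))))))
noncomputable def l11942 : Lb := (@Lb.d (nat_lit 128) (nat_lit 272) (nat_lit 384) (@Lb.g g10 (@Lb.g g11 (@Lb.r r1304 (@Lb.r r101 (@Lb.r r2194 (@Lb.d (nat_lit 529) (nat_lit 0) (nat_lit 128) (@Lb.fp (nat_lit 3) t2199))))))))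
noncomputable def l11943 : Lb := (@Lb.d (nat_lit 390) (nat_lit 0) (nat_lit 320) (@Lb.r r2325 (@Lb.r r2390 (@Lb.g g7 (@Lb.g g5 (@Lb.g g4 (@Lb.d (nat_lit 1) (nat_lit 1) (nat_lit 64) (@Lb.r r98 (@Lb.t (@Lb.fp (nat_lit 9) t125))))))))))
noncomputable def l11944 : Lb := (@Lb.d (nat_lit 138) (nat_lit 0) (nat_lit 0) (@Lb.g g8 (@Lb.r r1621 (@Lb.r r2391 (@Lb.r r2178 (@Lb.r r1572 (@Lb.d (nat_lit 394) (nat_lit 153) (nat_lit 660) (@Lb.t (@Lb.fm (nat_lit 3) t100)))))))))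
noncomputable def l11945 : Lb := (@Lb.d (nat_lit 518) (nat_lit 70) (nat_lit 33) (@Lb.r r1105 (@Lb.r r2214 (@Lb.r r1368 (@Lb.r r1703 (@Lb.g g7 (@Lb.g g6 (@Lb.g g5 (@Lb.d (nat_lit 0) (nat_lit 17) (nat_lit 8) (@Lb.t (@Lb.fm (nat_lit 9) t119)))))))))))
noncomputable def l11946 : Lb := (@Lb.r r323 (@Lb.d (nat_lit 138) (nat_lit 512) (nat_lit 18) (@Lb.g g8 (@Lb.g g9 (@Lb.g g10 (@Lb.r r599 (@Lb.r r1617 (@Lb.r r2660 (@Lb.d (nat_lit 666) (nat_lit 24) (nat_lit 273) (@Lb.t (@Lb.fp (nat_lit 9) t596)))))))))))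
noncomputable def l11947 : Lb := (@Lb.d (nat_lit 128) (nat_lit 258) (nat_lit 128) (@Lb.g g9 (@Lb.g g11 (@Lb.r r533 (@Lb.r r292 (@Lb.r r1371 (@Lb.r r2178 (@Lb.d (nat_lit 409) (nat_lit 26) (nat_lit 137) (@Lb.fp (nat_lit 3) t646)))))))))
noncomputable def l11948 : Lb := (@Lb.r r323 (@Lb.d (nat_lit 0) (nat_lit 2) (nat_lit 0) (@Lb.g g8 (@Lb.g g9 (@Lb.g g10 (@Lb.r r427 (@Lb.r r106 (@Lb.r r25 (@Lb.d (nat_lit 9) (nat_lit 2) (nat_lit 0) (@Lb.t (@Lb.fm (nat_lit 9) t51)))))))))))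
noncomputable def l11949 : Lb := (@Lb.d (nat_lit 0) (nat_lit 2) (nat_lit 130) (@Lb.g g8 (@Lb.g g9 (@Lb.g g10 (@Lb.g g11 (@Lb.r r162 (@Lb.r r168 (@Lb.r r425 (@Lb.r r279 (@Lb.r r548 (@Lb.d (nat_lit 265) (nat_lit 2) (nat_lit 106) (@Lb.fm (nat_lit 9) t991))))))))))))
noncomputable def l11950 : Lb := (@Lb.d (nat_lit 512) (nat_lit 512) (nat_lit 1) (@Lb.r r1044 (@Lb.r r2153 (@Lb.r r104 (@Lb.r r2403 (@Lb.g g6 (@Lb.d (nat_lit 0) (nat_lit 4) (nat_lit 1) (@Lb.t (@Lb.fm (nat_lit 3) t58)))))))))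
noncomputable def l11951 : Lb := (@Lb.d (nat_lit 544) (nat_lit 0) (nat_lit 64) (@Lb.r r1416 (@Lb.r r1170 (@Lb.r r2145 (@Lb.g g7 (@Lb.d (nat_lit 64) (nat_lit 32) (nat_lit 576) (@Lb.t (@Lb.fp (nat_lit 3) t472))))))))
noncomputable def l11952 : Lb := (@Lb.r r322 (@Lb.d (nat_lit 10) (nat_lit 0) (nat_lit 576) (@Lb.g g8 (@Lb.g g7 (@Lb.r r661 (@Lb.r r146 (@Lb.r r2436 (@Lb.d (nat_lit 610) (nat_lit 10) (nat_lit 321) (@Lb.fm (nat_lit 3) t311)))))))))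
noncomputable def l11953 : Lb := (@Lb.d (nat_lit 530) (nat_lit 5) (nat_lit 16) (@Lb.r r1094 (@Lb.r r2440 (@Lb.r r535 (@Lb.r r1361 (@Lb.g g7 (@Lb.g g6 (@Lb.g g5 (@Lb.d (nat_lit 0) (nat_lit 1) (nat_lit 70) (@Lb.t (@Lb.fp (nat_lit 9) t590)))))))))))
noncomputable def l11954 : Lb := (@Lb.r r134 (@Lb.r r328 (@Lb.r r535 (@Lb.r r289 (@Lb.g g9 (@Lb.t (@Lb.p (nat_lit 1) (@Lb.fp (nat_lit 3) t594))))))))
noncomputable def l11955 : Lb := (@Lb.d (nat_lit 25) (nat_lit 517) (nat_lit 2) (@Lb.r r89 (@Lb.r r106 (@Lb.r r612 (@Lb.r r663 (@Lb.g g7 (@Lb.g g5 (@Lb.d (nat_lit 0) (nat_lit 38) (nat_lit 0) (@Lb.r r98 (@Lb.fp (nat_lit 3) t50))))))))))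
noncomputable def l11956 : Lb := (@Lb.d (nat_lit 20) (nat_lit 266) (nat_lit 34) (@Lb.r r1176 (@Lb.r r102 (@Lb.r r597 (@Lb.r r1563 (@Lb.g g4 (@Lb.d (nat_lit 1) (nat_lit 0) (nat_lit 0) (@Lb.r r74 (@Lb.r r25 (@Lb.t (@Lb.fm (nat_lit 3) t320)))))))))))
noncomputable def l11957 : Lb := (@Lb.d (nat_lit 0) (nat_lit 512) (nat_lit 128) (@Lb.g g11 (@Lb.r r154 (@Lb.r r404 (@Lb.r r619 (@Lb.r r609 (@Lb.d (nat_lit 8) (nat_lit 129) (nat_lit 256) (@Lb.t (@Lb.fm (nat_lit 3) t334)))))))))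
noncomputable def l11958 : Lb := (@Lb.d (nat_lit 0) (nat_lit 512) (nat_lit 130) (@Lb.g g9 (@Lb.g g10 (@Lb.g g11 (@Lb.r r586 (@Lb.r r584 (@Lb.r r299 (@Lb.r r409 (@Lb.d (nat_lit 537) (nat_lit 5) (nat_lit 34) (@Lb.t (@Lb.fp (nat_lit 9) t1476)))))))))))
noncomputable def l11959 : Lb := (@Lb.r r68 (@Lb.r r323 (@Lb.d (nat_lit 32) (nat_lit 2) (nat_lit 0) (@Lb.g g9 (@Lb.g g10 (@Lb.r r1685 (@Lb.r r1559 (@Lb.r r2312 (@Lb.d (nat_lit 609) (nat_lit 0) (nat_lit 424) (@Lb.fm (nat_lit 3) t86))))))))))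
noncomputable def l11960 : Lb := (@Lb.d (nat_lit 2) (nat_lit 134) (nat_lit 32) (@Lb.fp (nat_lit 1) t45))
noncomputable def l11961 : Lb := (@Lb.g g4 (@Lb.g g9 (@Lb.r r134 (@Lb.r r328 (@Lb.r r535 (@Lb.r r289 (@Lb.d (nat_lit 0) (nat_lit 256) (nat_lit 128) (@Lb.fp (nat_lit 3) t119))))))))
noncomputable def l11962 : Lb := (@Lb.d (nat_lit 133) (nat_lit 8) (nat_lit 68) (@Lb.r r390 (@Lb.r r72 (@Lb.r r279 (@Lb.r r545 (@Lb.g g7 (@Lb.g g6 (@Lb.g g5 (@Lb.d (nat_lit 16) (nat_lit 0) (nat_lit 65) (@Lb.t (@Lb.fm (nat_lit 9) t422)))))))))))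
noncomputable def l11963 : Lb := (@Lb.d (nat_lit 1) (nat_lit 2) (nat_lit 0) (@Lb.g g8 (@Lb.g g9 (@Lb.r r322 (@Lb.r r1667 (@Lb.r r578 (@Lb.r r1129 (@Lb.r r36 (@Lb.d (nat_lit 549) (nat_lit 1) (nat_lit 86) (@Lb.fm (nat_lit 3) t167))))))))))
noncomputable def l11964 : Lb := (@Lb.d (nat_lit 132) (nat_lit 16) (nat_lit 2) (@Lb.g g8 (@Lb.g g9 (@Lb.g g10 (@Lb.g g11 (@Lb.r r614 (@Lb.r r404 (@Lb.r r1307 (@Lb.r r2337 (@Lb.d (nat_lit 69) (nat_lit 25) (nat_lit 402) (@Lb.fm (nat_lit 9) t5)))))))))))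
noncomputable def l11965 : Lb := (@Lb.d (nat_lit 390) (nat_lit 578) (nat_lit 325) (@Lb.r r1563 (@Lb.r r1688 (@Lb.r r1690 (@Lb.g g6 (@Lb.g g9 (@Lb.g g4 (@Lb.d (nat_lit 1) (nat_lit 34) (nat_lit 1) (@Lb.r r291 (@Lb.t (@Lb.fp (nat_lit 9) t5)))))))))))
noncomputable def l11966 : Lb := (@Lb.d (nat_lit 1) (nat_lit 258) (nat_lit 0) (@Lb.g g8 (@Lb.g g9 (@Lb.r r322 (@Lb.r r1667 (@Lb.r r578 (@Lb.r r1129 (@Lb.r r36 (@Lb.d (nat_lit 549) (nat_lit 1) (nat_lit 17) (@Lb.fm (nat_lit 3) t167))))))))))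
noncomputable def l11967 : Lb := (@Lb.g g5 (@Lb.r r1297 (@Lb.d (nat_lit 0) (nat_lit 512) (nat_lit 512) (@Lb.t (@Lb.fm (nat_lit 3) t1378)))))
noncomputable def l11968 : Lb := (@Lb.r r355 (@Lb.d (nat_lit 0) (nat_lit 170) (nat_lit 1) (@Lb.g g5 (@Lb.g g10 (@Lb.r r1347 (@Lb.r r2194 (@Lb.d (nat_lit 0) (nat_lit 21) (nat_lit 33) (@Lb.fm (nat_lit 3) t84))))))))
noncomputable def l11969 : Lb := (@Lb.d (nat_lit 0) (nat_lit 258) (nat_lit 73) (@Lb.g g9 (@Lb.g g10 (@Lb.g g11 (@Lb.r r2705 (@Lb.r r535 (@Lb.r r2440 (@Lb.r r2122 (@Lb.d (nat_lit 294) (nat_lit 8) (nat_lit 32) (@Lb.t (@Lb.fm (nat_lit 9) t61)))))))))))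
noncomputable def l11970 : Lb := (@Lb.d (nat_lit 0) (nat_lit 152) (nat_lit 581) (@Lb.r r2657 (@Lb.r r2386 (@Lb.g g7 (@Lb.g g6 (@Lb.g g5 (@Lb.d (nat_lit 0) (nat_lit 6) (nat_lit 1) (@Lb.t (@Lb.fm (nat_lit 9) t99)))))))))
noncomputable def l11971 : Lb := (@Lb.d (nat_lit 0) (nat_lit 9) (nat_lit 72) (@Lb.g g9 (@Lb.g g10 (@Lb.g g11 (@Lb.r r1699 (@Lb.r r1186 (@Lb.r r2657 (@Lb.d (nat_lit 0) (nat_lit 72) (nat_lit 165) (@Lb.t (@Lb.fp (nat_lit 9) t24))))))))))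
noncomputable def l11972 : Lb := (@Lb.d (nat_lit 0) (nat_lit 0) (nat_lit 40) (@Lb.g g6 (@Lb.g g11 (@Lb.r r579 (@Lb.d (nat_lit 0) (nat_lit 5) (nat_lit 152) (@Lb.fm (nat_lit 3) t45))))))
noncomputable def l11973 : Lb := (@Lb.d (nat_lit 6) (nat_lit 38) (nat_lit 65) (@Lb.r r21 (@Lb.r r342 (@Lb.g g7 (@Lb.g g6 (@Lb.g g5 (@Lb.g g4 (@Lb.d (nat_lit 1) (nat_lit 8) (nat_lit 130) (@Lb.fp (nat_lit 9) t40)))))))))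
noncomputable def l11974 : Lb := (@Lb.d (nat_lit 1) (nat_lit 514) (nat_lit 73) (@Lb.g g8 (@Lb.g g9 (@Lb.g g6 (@Lb.g g11 (@Lb.r r579 (@Lb.r r1129 (@Lb.r r36 (@Lb.d (nat_lit 549) (nat_lit 1) (nat_lit 25) (@Lb.fm (nat_lit 9) t167))))))))))
noncomputable def l11975 : Lb := (@Lb.d (nat_lit 8) (nat_lit 548) (nat_lit 64) (@Lb.g g9 (@Lb.g g10 (@Lb.g g11 (@Lb.r r1702 (@Lb.r r2388 (@Lb.r r1387 (@Lb.r r1369 (@Lb.d (nat_lit 682) (nat_lit 21) (nat_lit 406) (@Lb.t (@Lb.fp (nat_lit 9) t125)))))))))))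
noncomputable def l11976 : Lb := (@Lb.d (nat_lit 0) (nat_lit 0) (nat_lit 74) (@Lb.g g10 (@Lb.g g11 (@Lb.r r595 (@Lb.r r1626 (@Lb.r r2644 (@Lb.r r1321 (@Lb.d (nat_lit 70) (nat_lit 2) (nat_lit 512) (@Lb.fm (nat_lit 3) t2048)))))))))
noncomputable def l11977 : Lb := (@Lb.d (nat_lit 2) (nat_lit 257) (nat_lit 0) (@Lb.g g8 (@Lb.g g9 (@Lb.r r170 (@Lb.r r676 (@Lb.r r551 (@Lb.r r529 (@Lb.d (nat_lit 0) (nat_lit 34) (nat_lit 74) (@Lb.fm (nat_lit 3) t51)))))))))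
noncomputable def l11978 : Lb := (@Lb.d (nat_lit 8) (nat_lit 514) (nat_lit 0) (@Lb.g g9 (@Lb.r r166 (@Lb.r r344 (@Lb.r r359 (@Lb.r r337 (@Lb.d (nat_lit 0) (nat_lit 22) (nat_lit 134) (@Lb.t (@Lb.fp (nat_lit 3) t51)))))))))
noncomputable def l11979 : Lb := (@Lb.d (nat_lit 0) (nat_lit 128) (nat_lit 96) (@Lb.r r402 (@Lb.g g7 (@Lb.d (nat_lit 0) (nat_lit 0) (nat_lit 132) (@Lb.t (@Lb.fp (nat_lit 3) t71))))))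
noncomputable def l11980 : Lb := (@Lb.d (nat_lit 341) (nat_lit 42) (nat_lit 617) (@Lb.r r2709 (@Lb.r r2455 (@Lb.r r1700 (@Lb.r r1702 (@Lb.g g7 (@Lb.g g6 (@Lb.g g5 (@Lb.d (nat_lit 4) (nat_lit 24) (nat_lit 64) (@Lb.t (@Lb.fm (nat_lit 9) t119)))))))))))
noncomputable def l11981 : Lb := (@Lb.d (nat_lit 1) (nat_lit 514) (nat_lit 0) (@Lb.g g8 (@Lb.g g9 (@Lb.r r138 (@Lb.r r644 (@Lb.r r2583 (@Lb.r r1313 (@Lb.d (nat_lit 0) (nat_lit 70) (nat_lit 385) (@Lb.fp (nat_lit 3) t119)))))))))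
noncomputable def l11982 : Lb := (@Lb.d (nat_lit 1) (nat_lit 521) (nat_lit 0) (@Lb.g g8 (@Lb.g g9 (@Lb.r r138 (@Lb.r r644 (@Lb.r r2583 (@Lb.r r1313 (@Lb.d (nat_lit 0) (nat_lit 74) (nat_lit 386) (@Lb.fp (nat_lit 3) t71)))))))))
noncomputable def l11983 : Lb := (@Lb.d (nat_lit 0) (nat_lit 553) (nat_lit 134) (@Lb.r r337 (@Lb.r r679 (@Lb.r r404 (@Lb.r r86 (@Lb.g g9 (@Lb.d (nat_lit 4) (nat_lit 5) (nat_lit 0) (@Lb.t (@Lb.fm (nat_lit 3) t2)))))))))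
noncomputable def l11984 : Lb := (@Lb.r r408 (@Lb.r r327 (@Lb.r r2178 (@Lb.r r2081 (@Lb.r r516 (@Lb.d (nat_lit 0) (nat_lit 66) (nat_lit 33) (@Lb.fm (nat_lit 1) t246)))))))
noncomputable def l11985 : Lb := (@Lb.d (nat_lit 341) (nat_lit 554) (nat_lit 617) (@Lb.r r2709 (@Lb.r r2455 (@Lb.r r1700 (@Lb.r r1702 (@Lb.g g7 (@Lb.g g6 (@Lb.g g5 (@Lb.d (nat_lit 4) (nat_lit 24) (nat_lit 128) (@Lb.t (@Lb.fm (nat_lit 9) t51)))))))))))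
noncomputable def l11986 : Lb := (@Lb.g g9 (@Lb.g g10 (@Lb.g g7 (@Lb.r r1543 (@Lb.r r1304 (@Lb.r r101 (@Lb.r r2194 (@Lb.t (@Lb.p (nat_lit 1) (@Lb.fp (nat_lit 9) t307))))))))))
noncomputable def l11987 : Lb := (@Lb.d (nat_lit 0) (nat_lit 5) (nat_lit 2) (@Lb.g g9 (@Lb.g g10 (@Lb.r r1106 (@Lb.r r1185 (@Lb.d (nat_lit 0) (nat_lit 136) (nat_lit 2) (@Lb.fp (nat_lit 3) t99)))))))
noncomputable def l11988 : Lb := (@Lb.g g10 (@Lb.g g7 (@Lb.r r1543 (@Lb.r r1304 (@Lb.r r101 (@Lb.r r2194 (@Lb.fp (nat_lit 3) t307)))))))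
noncomputable def l11989 : Lb := (@Lb.r r322 (@Lb.d (nat_lit 128) (nat_lit 512) (nat_lit 68) (@Lb.g g11 (@Lb.r r1304 (@Lb.r r2149 (@Lb.r r146 (@Lb.d (nat_lit 0) (nat_lit 9) (nat_lit 146) (@Lb.t (@Lb.fm (nat_lit 3) t307)))))))))
noncomputable def l11990 : Lb := (@Lb.d (nat_lit 0) (nat_lit 512) (nat_lit 73) (@Lb.g g10 (@Lb.g g11 (@Lb.r r289 (@Lb.r r535 (@Lb.r r2440 (@Lb.r r2122 (@Lb.d (nat_lit 276) (nat_lit 74) (nat_lit 32) (@Lb.fp (nat_lit 3) t427)))))))))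
noncomputable def l11991 : Lb := (@Lb.d (nat_lit 138) (nat_lit 512) (nat_lit 0) (@Lb.g g8 (@Lb.r r678 (@Lb.r r661 (@Lb.r r1431 (@Lb.r r2644 (@Lb.d (nat_lit 662) (nat_lit 36) (nat_lit 258) (@Lb.t (@Lb.fm (nat_lit 3) t71)))))))))
noncomputable def l11992 : Lb := (@Lb.d (nat_lit 128) (nat_lit 257) (nat_lit 0) (@Lb.g g8 (@Lb.g g9 (@Lb.r r662 (@Lb.r r361 (@Lb.r r1431 (@Lb.r r2644 (@Lb.d (nat_lit 662) (nat_lit 36) (nat_lit 642) (@Lb.fm (nat_lit 3) t71)))))))))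
noncomputable def l11993 : Lb := (@Lb.d (nat_lit 0) (nat_lit 512) (nat_lit 133) (@Lb.g g10 (@Lb.g g11 (@Lb.r r1347 (@Lb.r r1378 (@Lb.r r101 (@Lb.r r24 (@Lb.d (nat_lit 576) (nat_lit 0) (nat_lit 384) (@Lb.fm (nat_lit 3) t145)))))))))
noncomputable def l11994 : Lb := (@Lb.d (nat_lit 32) (nat_lit 288) (nat_lit 2) (@Lb.g g9 (@Lb.g g10 (@Lb.r r1348 (@Lb.r r2699 (@Lb.r r2730 (@Lb.r r2209 (@Lb.d (nat_lit 106) (nat_lit 164) (nat_lit 130) (@Lb.fp (nat_lit 3) t127)))))))))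
noncomputable def l11995 : Lb := (@Lb.d (nat_lit 2) (nat_lit 258) (nat_lit 66) (@Lb.g g8 (@Lb.g g9 (@Lb.g g10 (@Lb.g g11 (@Lb.r r427 (@Lb.r r386 (@Lb.r r97 (@Lb.r r24 (@Lb.d (nat_lit 74) (nat_lit 4) (nat_lit 136) (@Lb.fm (nat_lit 9) t61)))))))))))
noncomputable def l11996 : Lb := (@Lb.d (nat_lit 8) (nat_lit 32) (nat_lit 2) (@Lb.g g9 (@Lb.g g10 (@Lb.r r1190 (@Lb.r r1624 (@Lb.r r1371 (@Lb.r r1701 (@Lb.d (nat_lit 421) (nat_lit 20) (nat_lit 520) (@Lb.fp (nat_lit 3) t49)))))))))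
noncomputable def l11997 : Lb := (@Lb.d (nat_lit 130) (nat_lit 544) (nat_lit 2) (@Lb.g g8 (@Lb.g g9 (@Lb.g g10 (@Lb.r r263 (@Lb.r r2696 (@Lb.r r2218 (@Lb.r r2209 (@Lb.d (nat_lit 42) (nat_lit 22) (nat_lit 258) (@Lb.t (@Lb.fp (nat_lit 9) t127)))))))))))
noncomputable def l11998 : Lb := (@Lb.d (nat_lit 405) (nat_lit 280) (nat_lit 357) (@Lb.r r1371 (@Lb.r r1304 (@Lb.r r597 (@Lb.g g7 (@Lb.g g6 (@Lb.d (nat_lit 64) (nat_lit 16) (nat_lit 98) (@Lb.fp (nat_lit 3) t115))))))))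
noncomputable def l11999 : Lb := (@Lb.d (nat_lit 288) (nat_lit 256) (nat_lit 34) (@Lb.r r24 (@Lb.r r2197 (@Lb.r r386 (@Lb.r r2403 (@Lb.g g7 (@Lb.g g5 (@Lb.d (nat_lit 0) (nat_lit 34) (nat_lit 0) (@Lb.r r98 (@Lb.fm (nat_lit 3) t719))))))))))
noncomputable def l12000 : Lb := (@Lb.d (nat_lit 528) (nat_lit 512) (nat_lit 24) (@Lb.r r24 (@Lb.r r101 (@Lb.r r2659 (@Lb.g g10 (@Lb.g g5 (@Lb.d (nat_lit 0) (nat_lit 0) (nat_lit 2) (@Lb.r r387 (@Lb.fm (nat_lit 3) t719)))))))))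
noncomputable def l12001 : Lb := (@Lb.r r21 (@Lb.r r70 (@Lb.d (nat_lit 128) (nat_lit 256) (nat_lit 128) (@Lb.g g8 (@Lb.g g11 (@Lb.r r2635 (@Lb.r r402 (@Lb.r r97 (@Lb.r r1044 (@Lb.d (nat_lit 73) (nat_lit 66) (nat_lit 576) (@Lb.fp (nat_lit 3) t739)))))))))))
noncomputable def l12002 : Lb := (@Lb.d (nat_lit 656) (nat_lit 0) (nat_lit 74) (@Lb.r r24 (@Lb.r r101 (@Lb.r r386 (@Lb.r r1603 (@Lb.g g7 (@Lb.g g6 (@Lb.d (nat_lit 0) (nat_lit 0) (nat_lit 129) (@Lb.fm (nat_lit 3) t1795)))))))))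
noncomputable def l12003 : Lb := (@Lb.d (nat_lit 544) (nat_lit 521) (nat_lit 96) (@Lb.r r1416 (@Lb.r r82 (@Lb.r r161 (@Lb.g g7 (@Lb.g g6 (@Lb.d (nat_lit 64) (nat_lit 32) (nat_lit 577) (@Lb.fm (nat_lit 3) t1965))))))))
noncomputable def l12004 : Lb := (@Lb.d (nat_lit 2) (nat_lit 265) (nat_lit 138) (@Lb.g g8 (@Lb.g g9 (@Lb.g g10 (@Lb.g g11 (@Lb.r r599 (@Lb.r r1666 (@Lb.r r25 (@Lb.d (nat_lit 9) (nat_lit 33) (nat_lit 384) (@Lb.fp (nat_lit 9) t2341))))))))))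
noncomputable def l12005 : Lb := (@Lb.d (nat_lit 2) (nat_lit 550) (nat_lit 5) (@Lb.g g8 (@Lb.g g9 (@Lb.g g10 (@Lb.g g11 (@Lb.r r1303 (@Lb.r r1642 (@Lb.r r2201 (@Lb.d (nat_lit 281) (nat_lit 97) (nat_lit 390) (@Lb.fp (nat_lit 9) t650))))))))))
noncomputable def l12006 : Lb := (@Lb.r r323 (@Lb.d (nat_lit 130) (nat_lit 521) (nat_lit 1) (@Lb.g g8 (@Lb.g g9 (@Lb.g g10 (@Lb.r r1625 (@Lb.r r2451 (@Lb.r r2378 (@Lb.r r2660 (@Lb.d (nat_lit 86) (nat_lit 104) (nat_lit 421) (@Lb.t (@Lb.fm (nat_lit 9) t739))))))))))))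
noncomputable def l12007 : Lb := (@Lb.d (nat_lit 2) (nat_lit 514) (nat_lit 137) (@Lb.g g8 (@Lb.g g9 (@Lb.g g10 (@Lb.g g11 (@Lb.r r2666 (@Lb.r r2585 (@Lb.d (nat_lit 329) (nat_lit 9) (nat_lit 384) (@Lb.fp (nat_lit 9) t2775)))))))))
noncomputable def l12008 : Lb := (@Lb.d (nat_lit 0) (nat_lit 4) (nat_lit 41) (@Lb.g g6 (@Lb.r r2579 (@Lb.d (nat_lit 0) (nat_lit 37) (nat_lit 385) (@Lb.t (@Lb.fp (nat_lit 3) t356))))))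
noncomputable def l12009 : Lb := (@Lb.d (nat_lit 8) (nat_lit 32) (nat_lit 2) (@Lb.g g9 (@Lb.g g10 (@Lb.r r1190 (@Lb.r r1624 (@Lb.r r1691 (@Lb.r r1381 (@Lb.d (nat_lit 341) (nat_lit 33) (nat_lit 404) (@Lb.fm (nat_lit 3) t1046)))))))))
noncomputable def l12010 : Lb := (@Lb.d (nat_lit 0) (nat_lit 0) (nat_lit 2) (@Lb.g g10 (@Lb.r r2691 (@Lb.r r2658 (@Lb.r r101 (@Lb.r r24 (@Lb.d (nat_lit 576) (nat_lit 0) (nat_lit 261) (@Lb.t (@Lb.fm (nat_lit 3) t312)))))))))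
noncomputable def l12011 : Lb := (@Lb.d (nat_lit 0) (nat_lit 516) (nat_lit 105) (@Lb.g g6 (@Lb.g g11 (@Lb.r r579 (@Lb.d (nat_lit 0) (nat_lit 82) (nat_lit 538) (@Lb.fm (nat_lit 3) t356))))))
noncomputable def l12012 : Lb := (@Lb.d (nat_lit 0) (nat_lit 514) (nat_lit 66) (@Lb.g g9 (@Lb.g g10 (@Lb.g g7 (@Lb.r r386 (@Lb.r r97 (@Lb.d (nat_lit 0) (nat_lit 9) (nat_lit 73) (@Lb.t (@Lb.fp (nat_lit 9) t87)))))))))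
noncomputable def l12013 : Lb := (@Lb.g g6 (@Lb.r r1411 (@Lb.r r1378 (@Lb.r r101 (@Lb.r r24 (@Lb.d (nat_lit 577) (nat_lit 512) (nat_lit 581) (@Lb.t (@Lb.fm (nat_lit 3) t312))))))))
noncomputable def l12014 : Lb := (@Lb.d (nat_lit 0) (nat_lit 546) (nat_lit 2) (@Lb.g g9 (@Lb.g g10 (@Lb.r r2691 (@Lb.r r2210 (@Lb.r r421 (@Lb.r r24 (@Lb.d (nat_lit 578) (nat_lit 0) (nat_lit 329) (@Lb.fm (nat_lit 3) t1097)))))))))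
noncomputable def l12015 : Lb := (@Lb.r r81 (@Lb.d (nat_lit 0) (nat_lit 0) (nat_lit 105) (@Lb.g g6 (@Lb.g g11 (@Lb.r r1637 (@Lb.r r1639 (@Lb.r r24 (@Lb.d (nat_lit 593) (nat_lit 0) (nat_lit 266) (@Lb.fm (nat_lit 3) t377)))))))))
noncomputable def l12016 : Lb := (@Lb.d (nat_lit 0) (nat_lit 256) (nat_lit 104) (@Lb.g g9 (@Lb.g g6 (@Lb.g g11 (@Lb.r r579 (@Lb.d (nat_lit 0) (nat_lit 0) (nat_lit 154) (@Lb.t (@Lb.fm (nat_lit 9) t2))))))))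
noncomputable def l12017 : Lb := (@Lb.d (nat_lit 550) (nat_lit 402) (nat_lit 585) (@Lb.r r1109 (@Lb.r r2390 (@Lb.r r2347 (@Lb.g g7 (@Lb.g g6 (@Lb.g g5 (@Lb.g g4 (@Lb.d (nat_lit 1) (nat_lit 25) (nat_lit 10) (@Lb.fp (nat_lit 9) t1435))))))))))
noncomputable def l12018 : Lb := (@Lb.r r322 (@Lb.d (nat_lit 0) (nat_lit 256) (nat_lit 576) (@Lb.g g9 (@Lb.g g7 (@Lb.r r1618 (@Lb.r r1425 (@Lb.d (nat_lit 0) (nat_lit 64) (nat_lit 522) (@Lb.fp (nat_lit 3) t2776))))))))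
noncomputable def l12019 : Lb := (@Lb.d (nat_lit 402) (nat_lit 273) (nat_lit 646) (@Lb.r r2658 (@Lb.r r361 (@Lb.r r2347 (@Lb.g g7 (@Lb.g g6 (@Lb.g g5 (@Lb.g g4 (@Lb.d (nat_lit 1) (nat_lit 6) (nat_lit 68) (@Lb.fm (nat_lit 9) t1435))))))))))
noncomputable def l12020 : Lb := (@Lb.g g7 (@Lb.r r1425 (@Lb.r r402 (@Lb.r r1379 (@Lb.d (nat_lit 0) (nat_lit 644) (nat_lit 530) (@Lb.t (@Lb.fp (nat_lit 3) t2777)))))))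
noncomputable def l12021 : Lb := (@Lb.d (nat_lit 0) (nat_lit 0) (nat_lit 72) (@Lb.g g10 (@Lb.g g11 (@Lb.r r2657 (@Lb.r r611 (@Lb.r r82 (@Lb.d (nat_lit 0) (nat_lit 129) (nat_lit 650) (@Lb.fm (nat_lit 3) t2778))))))))
noncomputable def l12022 : Lb := (@Lb.d (nat_lit 8) (nat_lit 10) (nat_lit 0) (@Lb.g g5 (@Lb.r r1380 (@Lb.r r2603 (@Lb.r r674 (@Lb.r r2713 (@Lb.d (nat_lit 677) (nat_lit 81) (nat_lit 584) (@Lb.t (@Lb.fm (nat_lit 3) t154)))))))))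
noncomputable def l12023 : Lb := (@Lb.d (nat_lit 0) (nat_lit 0) (nat_lit 73) (@Lb.g g9 (@Lb.g g10 (@Lb.g g11 (@Lb.r r611 (@Lb.r r1610 (@Lb.r r2644 (@Lb.r r1321 (@Lb.d (nat_lit 256) (nat_lit 80) (nat_lit 576) (@Lb.t (@Lb.fm (nat_lit 9) t1371)))))))))))
noncomputable def l12024 : Lb := (@Lb.d (nat_lit 0) (nat_lit 36) (nat_lit 10) (@Lb.g g9 (@Lb.g g10 (@Lb.g g11 (@Lb.r r595 (@Lb.r r665 (@Lb.r r1178 (@Lb.r r24 (@Lb.d (nat_lit 544) (nat_lit 0) (nat_lit 25) (@Lb.t (@Lb.fp (nat_lit 9) t2779)))))))))))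
noncomputable def l12025 : Lb := (@Lb.d (nat_lit 0) (nat_lit 512) (nat_lit 2) (@Lb.g g10 (@Lb.r r1105 (@Lb.r r98 (@Lb.d (nat_lit 0) (nat_lit 146) (nat_lit 537) (@Lb.t (@Lb.fp (nat_lit 3) t2777)))))))
noncomputable def l12026 : Lb := (@Lb.d (nat_lit 0) (nat_lit 512) (nat_lit 73) (@Lb.g g9 (@Lb.g g10 (@Lb.g g11 (@Lb.r r2726 (@Lb.r r328 (@Lb.r r535 (@Lb.r r289 (@Lb.d (nat_lit 640) (nat_lit 18) (nat_lit 64) (@Lb.t (@Lb.fm (nat_lit 9) t259)))))))))))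
noncomputable def l12027 : Lb := (@Lb.d (nat_lit 0) (nat_lit 288) (nat_lit 130) (@Lb.g g9 (@Lb.g g10 (@Lb.g g11 (@Lb.r r289 (@Lb.r r403 (@Lb.r r386 (@Lb.r r1169 (@Lb.d (nat_lit 0) (nat_lit 66) (nat_lit 521) (@Lb.t (@Lb.fm (nat_lit 9) t306)))))))))))
noncomputable def l12028 : Lb := (@Lb.d (nat_lit 0) (nat_lit 256) (nat_lit 130) (@Lb.g g9 (@Lb.g g10 (@Lb.g g11 (@Lb.r r642 (@Lb.r r1683 (@Lb.r r101 (@Lb.r r24 (@Lb.d (nat_lit 656) (nat_lit 0) (nat_lit 409) (@Lb.t (@Lb.fm (nat_lit 9) t314)))))))))))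
noncomputable def l12029 : Lb := (@Lb.d (nat_lit 0) (nat_lit 544) (nat_lit 130) (@Lb.g g9 (@Lb.g g10 (@Lb.g g11 (@Lb.r r289 (@Lb.r r403 (@Lb.r r386 (@Lb.r r1169 (@Lb.d (nat_lit 0) (nat_lit 73) (nat_lit 520) (@Lb.t (@Lb.fm (nat_lit 9) t661)))))))))))
noncomputable def l12030 : Lb := (@Lb.r r275 (@Lb.d (nat_lit 130) (nat_lit 290) (nat_lit 2) (@Lb.g g8 (@Lb.g g5 (@Lb.g g10 (@Lb.r r359 (@Lb.r r146 (@Lb.r r1636 (@Lb.d (nat_lit 145) (nat_lit 22) (nat_lit 649) (@Lb.t (@Lb.fm (nat_lit 9) t1640)))))))))))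
noncomputable def l12031 : Lb := (@Lb.r r81 (@Lb.r r323 (@Lb.d (nat_lit 10) (nat_lit 256) (nat_lit 42) (@Lb.g g8 (@Lb.g g6 (@Lb.r r149 (@Lb.r r1448 (@Lb.r r2567 (@Lb.d (nat_lit 321) (nat_lit 22) (nat_lit 9) (@Lb.fp (nat_lit 3) t739))))))))))
noncomputable def l12032 : Lb := (@Lb.d (nat_lit 0) (nat_lit 266) (nat_lit 0) (@Lb.g g5 (@Lb.r r1186 (@Lb.r r2209 (@Lb.d (nat_lit 0) (nat_lit 132) (nat_lit 65) (@Lb.t (@Lb.fm (nat_lit 3) t300)))))))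
noncomputable def l12033 : Lb := (@Lb.r r275 (@Lb.d (nat_lit 2) (nat_lit 512) (nat_lit 2) (@Lb.g g8 (@Lb.g g9 (@Lb.g g10 (@Lb.r r1706 (@Lb.r r1700 (@Lb.r r1575 (@Lb.r r2085 (@Lb.d (nat_lit 512) (nat_lit 145) (nat_lit 138) (@Lb.t (@Lb.fp (nat_lit 9) t2012))))))))))))
noncomputable def l12034 : Lb := (@Lb.r r275 (@Lb.d (nat_lit 129) (nat_lit 34) (nat_lit 2) (@Lb.g g8 (@Lb.g g5 (@Lb.g g10 (@Lb.r r359 (@Lb.r r146 (@Lb.r r1636 (@Lb.d (nat_lit 145) (nat_lit 22) (nat_lit 580) (@Lb.t (@Lb.fm (nat_lit 9) t1640)))))))))))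
noncomputable def l12035 : Lb := (@Lb.d (nat_lit 2) (nat_lit 256) (nat_lit 0) (@Lb.g g8 (@Lb.r r289 (@Lb.r r535 (@Lb.r r328 (@Lb.r r134 (@Lb.d (nat_lit 0) (nat_lit 0) (nat_lit 88) (@Lb.t (@Lb.fp (nat_lit 3) t40)))))))))
noncomputable def l12036 : Lb := (@Lb.d (nat_lit 6) (nat_lit 537) (nat_lit 9) (@Lb.r r657 (@Lb.r r666 (@Lb.r r420 (@Lb.r r347 (@Lb.g g7 (@Lb.g g6 (@Lb.g g5 (@Lb.d (nat_lit 4) (nat_lit 0) (nat_lit 65) (@Lb.t (@Lb.fm (nat_lit 9) t68)))))))))))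
noncomputable def l12037 : Lb := (@Lb.d (nat_lit 5) (nat_lit 281) (nat_lit 9) (@Lb.r r657 (@Lb.r r666 (@Lb.r r420 (@Lb.r r347 (@Lb.g g7 (@Lb.g g6 (@Lb.g g5 (@Lb.d (nat_lit 4) (nat_lit 0) (nat_lit 8) (@Lb.t (@Lb.fm (nat_lit 9) t68)))))))))))
noncomputable def l12038 : Lb := (@Lb.r r273 (@Lb.d (nat_lit 2) (nat_lit 544) (nat_lit 576) (@Lb.g g8 (@Lb.g g7 (@Lb.r r2581 (@Lb.r r1124 (@Lb.r r2122 (@Lb.d (nat_lit 0) (nat_lit 10) (nat_lit 68) (@Lb.fp (nat_lit 3) t635)))))))))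
noncomputable def l12039 : Lb := (@Lb.d (nat_lit 0) (nat_lit 401) (nat_lit 41) (@Lb.r r594 (@Lb.r r2465 (@Lb.g g11 (@Lb.g g6 (@Lb.g g5 (@Lb.d (nat_lit 0) (nat_lit 2) (nat_lit 128) (@Lb.t (@Lb.fp (nat_lit 9) t7)))))))))
noncomputable def l12040 : Lb := (@Lb.d (nat_lit 0) (nat_lit 10) (nat_lit 1) (@Lb.g g9 (@Lb.g g10 (@Lb.r r551 (@Lb.r r2392 (@Lb.r r1190 (@Lb.r r1169 (@Lb.d (nat_lit 534) (nat_lit 6) (nat_lit 18) (@Lb.fp (nat_lit 3) t1373)))))))))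
noncomputable def l12041 : Lb := (@Lb.r r594 (@Lb.r r2449 (@Lb.d (nat_lit 0) (nat_lit 36) (nat_lit 85) (@Lb.fp (nat_lit 1) t604))))
noncomputable def l12042 : Lb := (@Lb.d (nat_lit 0) (nat_lit 266) (nat_lit 129) (@Lb.g g9 (@Lb.g g10 (@Lb.g g11 (@Lb.r r1703 (@Lb.r r2392 (@Lb.r r1190 (@Lb.r r1169 (@Lb.d (nat_lit 277) (nat_lit 70) (nat_lit 18) (@Lb.t (@Lb.fp (nat_lit 9) t2444)))))))))))
noncomputable def l12043 : Lb := (@Lb.d (nat_lit 2) (nat_lit 256) (nat_lit 1) (@Lb.g g8 (@Lb.g g9 (@Lb.g g10 (@Lb.r r1610 (@Lb.r r579 (@Lb.r r2577 (@Lb.d (nat_lit 392) (nat_lit 2) (nat_lit 640) (@Lb.t (@Lb.fp (nat_lit 9) t2145))))))))))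
noncomputable def l12044 : Lb := (@Lb.d (nat_lit 0) (nat_lit 138) (nat_lit 96) (@Lb.r r2194 (@Lb.r r101 (@Lb.r r1304 (@Lb.g g7 (@Lb.d (nat_lit 64) (nat_lit 0) (nat_lit 328) (@Lb.t (@Lb.fp (nat_lit 3) t355))))))))
noncomputable def l12045 : Lb := (@Lb.d (nat_lit 4) (nat_lit 514) (nat_lit 81) (@Lb.r r2129 (@Lb.r r1114 (@Lb.r r1620 (@Lb.g g7 (@Lb.g g6 (@Lb.g g5 (@Lb.d (nat_lit 64) (nat_lit 5) (nat_lit 328) (@Lb.t (@Lb.fp (nat_lit 9) t355))))))))))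
noncomputable def l12046 : Lb := (@Lb.r r21 (@Lb.r r70 (@Lb.r r263 (@Lb.g g8 (@Lb.r r1419 (@Lb.r r2182 (@Lb.r r2133 (@Lb.r r1160 (@Lb.d (nat_lit 290) (nat_lit 0) (nat_lit 34) (@Lb.t (@Lb.fp (nat_lit 3) t2780)))))))))))
noncomputable def l12047 : Lb := (@Lb.d (nat_lit 289) (nat_lit 512) (nat_lit 0) (@Lb.r r21 (@Lb.r r70 (@Lb.r r263 (@Lb.g g8 (@Lb.d (nat_lit 530) (nat_lit 0) (nat_lit 0) (@Lb.r r267 (@Lb.r r74 (@Lb.r r25 (@Lb.t (@Lb.fp (nat_lit 3) t239)))))))))))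
noncomputable def l12048 : Lb := (@Lb.d (nat_lit 2) (nat_lit 682) (nat_lit 580) (@Lb.r r1426 (@Lb.r r1637 (@Lb.r r1304 (@Lb.r r2371 (@Lb.g g7 (@Lb.g g6 (@Lb.d (nat_lit 16) (nat_lit 0) (nat_lit 65) (@Lb.fp (nat_lit 3) t681)))))))))
noncomputable def l12049 : Lb := (@Lb.r r323 (@Lb.d (nat_lit 9) (nat_lit 2) (nat_lit 1) (@Lb.g g8 (@Lb.g g9 (@Lb.g g6 (@Lb.r r1323 (@Lb.r r2145 (@Lb.r r24 (@Lb.d (nat_lit 264) (nat_lit 73) (nat_lit 98) (@Lb.t (@Lb.fp (nat_lit 9) t1172)))))))))))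
noncomputable def l12050 : Lb := (@Lb.d (nat_lit 258) (nat_lit 385) (nat_lit 256) (@Lb.r r101 (@Lb.r r2642 (@Lb.r r2691 (@Lb.g g11 (@Lb.g g6 (@Lb.fp (nat_lit 3) t2341)))))))
noncomputable def l12051 : Lb := (@Lb.d (nat_lit 130) (nat_lit 273) (nat_lit 642) (@Lb.r r101 (@Lb.r r2659 (@Lb.g g7 (@Lb.g g10 (@Lb.d (nat_lit 0) (nat_lit 8) (nat_lit 130) (@Lb.fp (nat_lit 3) t749)))))))
noncomputable def l12052 : Lb := (@Lb.d (nat_lit 1) (nat_lit 320) (nat_lit 645) (@Lb.r r277 (@Lb.r r402 (@Lb.r r519 (@Lb.r r264 (@Lb.g g7 (@Lb.d (nat_lit 64) (nat_lit 0) (nat_lit 64) (@Lb.t (@Lb.fp (nat_lit 3) t825)))))))))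
noncomputable def l12053 : Lb := (@Lb.r r323 (@Lb.d (nat_lit 40) (nat_lit 548) (nat_lit 34) (@Lb.g g9 (@Lb.g g6 (@Lb.r r2708 (@Lb.r r2583 (@Lb.r r1385 (@Lb.d (nat_lit 534) (nat_lit 10) (nat_lit 393) (@Lb.fp (nat_lit 3) t2153)))))))))
noncomputable def l12054 : Lb := (@Lb.r r323 (@Lb.d (nat_lit 33) (nat_lit 4) (nat_lit 34) (@Lb.g g8 (@Lb.g g9 (@Lb.g g6 (@Lb.r r1643 (@Lb.r r1561 (@Lb.r r660 (@Lb.d (nat_lit 661) (nat_lit 98) (nat_lit 133) (@Lb.t (@Lb.fm (nat_lit 9) t47)))))))))))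
noncomputable def l12055 : Lb := (@Lb.r r323 (@Lb.d (nat_lit 0) (nat_lit 2) (nat_lit 1) (@Lb.g g9 (@Lb.g g6 (@Lb.r r387 (@Lb.r r104 (@Lb.r r25 (@Lb.d (nat_lit 22) (nat_lit 153) (nat_lit 266) (@Lb.fm (nat_lit 3) t2781)))))))))
noncomputable def l12056 : Lb := (@Lb.d (nat_lit 66) (nat_lit 546) (nat_lit 2) (@Lb.g g8 (@Lb.g g9 (@Lb.g g10 (@Lb.g g11 (@Lb.r r614 (@Lb.r r408 (@Lb.r r1319 (@Lb.r r2069 (@Lb.r r36 (@Lb.d (nat_lit 521) (nat_lit 97) (nat_lit 362) (@Lb.fm (nat_lit 9) t1039))))))))))))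
noncomputable def l12057 : Lb := (@Lb.r r1297 (@Lb.d (nat_lit 0) (nat_lit 256) (nat_lit 576) (@Lb.fp (nat_lit 1) t1378)))
noncomputable def l12058 : Lb := (@Lb.r r273 (@Lb.r r322 (@Lb.d (nat_lit 128) (nat_lit 0) (nat_lit 644) (@Lb.g g11 (@Lb.r r280 (@Lb.r r101 (@Lb.r r146 (@Lb.d (nat_lit 0) (nat_lit 9) (nat_lit 146) (@Lb.t (@Lb.fm (nat_lit 3) t2782))))))))))
noncomputable def l12059 : Lb := (@Lb.r r273 (@Lb.r r322 (@Lb.d (nat_lit 128) (nat_lit 512) (nat_lit 644) (@Lb.g g11 (@Lb.r r280 (@Lb.r r101 (@Lb.r r146 (@Lb.d (nat_lit 5) (nat_lit 10) (nat_lit 146) (@Lb.t (@Lb.fm (nat_lit 3) t2783))))))))))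
noncomputable def l12060 : Lb := (@Lb.d (nat_lit 0) (nat_lit 290) (nat_lit 66) (@Lb.g g9 (@Lb.g g10 (@Lb.g g11 (@Lb.r r419 (@Lb.r r386 (@Lb.r r2145 (@Lb.d (nat_lit 0) (nat_lit 8) (nat_lit 553) (@Lb.t (@Lb.fm (nat_lit 9) t306))))))))))
noncomputable def l12061 : Lb := (@Lb.d (nat_lit 324) (nat_lit 65) (nat_lit 128) (@Lb.r r289 (@Lb.r r2567 (@Lb.r r1368 (@Lb.r r2726 (@Lb.g g7 (@Lb.g g6 (@Lb.d (nat_lit 0) (nat_lit 0) (nat_lit 65) (@Lb.fm (nat_lit 3) t1252)))))))))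
noncomputable def l12062 : Lb := (@Lb.d (nat_lit 518) (nat_lit 161) (nat_lit 384) (@Lb.r r1321 (@Lb.r r1444 (@Lb.r r2374 (@Lb.r r611 (@Lb.g g7 (@Lb.g g6 (@Lb.g g5 (@Lb.d (nat_lit 0) (nat_lit 10) (nat_lit 133) (@Lb.t (@Lb.fp (nat_lit 9) t1490)))))))))))
noncomputable def l12063 : Lb := (@Lb.d (nat_lit 66) (nat_lit 657) (nat_lit 320) (@Lb.r r1577 (@Lb.r r1700 (@Lb.r r358 (@Lb.g g11 (@Lb.g g5 (@Lb.d (nat_lit 0) (nat_lit 4) (nat_lit 384) (@Lb.r r578 (@Lb.fm (nat_lit 3) t2784)))))))))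
noncomputable def l12064 : Lb := (@Lb.r r289 (@Lb.r r2579 (@Lb.r r72 (@Lb.r r582 (@Lb.r r2180 (@Lb.d (nat_lit 0) (nat_lit 256) (nat_lit 133) (@Lb.fm (nat_lit 1) t351)))))))
noncomputable def l12065 : Lb := (@Lb.r r82 (@Lb.d (nat_lit 166) (nat_lit 98) (nat_lit 64) (@Lb.g g8 (@Lb.g g9 (@Lb.g g11 (@Lb.r r2339 (@Lb.r r1414 (@Lb.r r2628 (@Lb.d (nat_lit 658) (nat_lit 96) (nat_lit 362) (@Lb.t (@Lb.fp (nat_lit 9) t1490)))))))))))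
noncomputable def l12066 : Lb := (@Lb.d (nat_lit 4) (nat_lit 513) (nat_lit 9) (@Lb.g g5 (@Lb.g g10 (@Lb.g g11 (@Lb.r r2691 (@Lb.r r1178 (@Lb.r r24 (@Lb.d (nat_lit 128) (nat_lit 1) (nat_lit 424) (@Lb.t (@Lb.fm (nat_lit 9) t282))))))))))
noncomputable def l12067 : Lb := (@Lb.r r323 (@Lb.d (nat_lit 2) (nat_lit 512) (nat_lit 2) (@Lb.g g8 (@Lb.g g10 (@Lb.r r2663 (@Lb.r r74 (@Lb.r r1304 (@Lb.r r2661 (@Lb.d (nat_lit 104) (nat_lit 129) (nat_lit 596) (@Lb.fp (nat_lit 3) t461))))))))))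
noncomputable def l12068 : Lb := (@Lb.r r82 (@Lb.d (nat_lit 34) (nat_lit 290) (nat_lit 64) (@Lb.g g8 (@Lb.g g9 (@Lb.g g11 (@Lb.r r2593 (@Lb.r r1315 (@Lb.r r582 (@Lb.r r2180 (@Lb.d (nat_lit 546) (nat_lit 162) (nat_lit 530) (@Lb.t (@Lb.fp (nat_lit 9) t68))))))))))))
noncomputable def l12069 : Lb := (@Lb.d (nat_lit 0) (nat_lit 256) (nat_lit 73) (@Lb.g g9 (@Lb.g g10 (@Lb.g g11 (@Lb.r r2658 (@Lb.r r579 (@Lb.d (nat_lit 0) (nat_lit 102) (nat_lit 584) (@Lb.t (@Lb.fp (nat_lit 9) t51)))))))))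
noncomputable def l12070 : Lb := (@Lb.d (nat_lit 16) (nat_lit 10) (nat_lit 129) (@Lb.g g9 (@Lb.g g6 (@Lb.g g11 (@Lb.r r584 (@Lb.r r299 (@Lb.r r289 (@Lb.d (nat_lit 8) (nat_lit 66) (nat_lit 129) (@Lb.t (@Lb.fp (nat_lit 9) t2785))))))))))
noncomputable def l12071 : Lb := (@Lb.d (nat_lit 128) (nat_lit 514) (nat_lit 0) (@Lb.g g9 (@Lb.g g11 (@Lb.r r533 (@Lb.r r292 (@Lb.r r1371 (@Lb.r r2178 (@Lb.d (nat_lit 402) (nat_lit 24) (nat_lit 137) (@Lb.fp (nat_lit 3) t646)))))))))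
noncomputable def l12072 : Lb := (@Lb.d (nat_lit 0) (nat_lit 512) (nat_lit 520) (@Lb.r r1297 (@Lb.r r579 (@Lb.g g11 (@Lb.g g6 (@Lb.g g5 (@Lb.t (@Lb.fp (nat_lit 9) t118))))))))
noncomputable def l12073 : Lb := (@Lb.d (nat_lit 0) (nat_lit 160) (nat_lit 64) (@Lb.g g5 (@Lb.g g11 (@Lb.r r531 (@Lb.d (nat_lit 0) (nat_lit 98) (nat_lit 128) (@Lb.fm (nat_lit 3) t1191))))))
noncomputable def l12074 : Lb := (@Lb.d (nat_lit 0) (nat_lit 150) (nat_lit 0) (@Lb.g g5 (@Lb.r r363 (@Lb.r r356 (@Lb.r r154 (@Lb.d (nat_lit 0) (nat_lit 6) (nat_lit 17) (@Lb.t (@Lb.fp (nat_lit 3) t228))))))))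
noncomputable def l12075 : Lb := (@Lb.r r593 (@Lb.d (nat_lit 128) (nat_lit 552) (nat_lit 146) (@Lb.g g6 (@Lb.g g11 (@Lb.r r2457 (@Lb.r r404 (@Lb.r r299 (@Lb.d (nat_lit 404) (nat_lit 160) (nat_lit 145) (@Lb.fp (nat_lit 3) t125)))))))))
noncomputable def l12076 : Lb := (@Lb.d (nat_lit 0) (nat_lit 548) (nat_lit 128) (@Lb.g g9 (@Lb.g g10 (@Lb.g g11 (@Lb.r r387 (@Lb.r r161 (@Lb.r r1442 (@Lb.r r2193 (@Lb.d (nat_lit 0) (nat_lit 1) (nat_lit 342) (@Lb.t (@Lb.fm (nat_lit 9) t2786)))))))))))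
noncomputable def l12077 : Lb := (@Lb.d (nat_lit 0) (nat_lit 290) (nat_lit 130) (@Lb.g g9 (@Lb.g g10 (@Lb.g g11 (@Lb.r r2403 (@Lb.r r386 (@Lb.r r1697 (@Lb.d (nat_lit 0) (nat_lit 170) (nat_lit 74) (@Lb.t (@Lb.fm (nat_lit 9) t661))))))))))
noncomputable def l12078 : Lb := (@Lb.d (nat_lit 0) (nat_lit 34) (nat_lit 130) (@Lb.g g9 (@Lb.g g10 (@Lb.g g11 (@Lb.r r2403 (@Lb.r r386 (@Lb.r r1697 (@Lb.d (nat_lit 0) (nat_lit 160) (nat_lit 72) (@Lb.t (@Lb.fm (nat_lit 9) t306))))))))))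
noncomputable def l12079 : Lb := (@Lb.d (nat_lit 0) (nat_lit 256) (nat_lit 74) (@Lb.g g9 (@Lb.g g10 (@Lb.g g11 (@Lb.r r387 (@Lb.r r2146 (@Lb.d (nat_lit 0) (nat_lit 20) (nat_lit 281) (@Lb.t (@Lb.fm (nat_lit 9) t334)))))))))
noncomputable def l12080 : Lb := (@Lb.r r322 (@Lb.g g9 (@Lb.g g11 (@Lb.r r2727 (@Lb.r r1304 (@Lb.r r2149 (@Lb.r r146 (@Lb.d (nat_lit 546) (nat_lit 256) (nat_lit 34) (@Lb.fm (nat_lit 3) t228)))))))))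
noncomputable def l12081 : Lb := (@Lb.r r323 (@Lb.d (nat_lit 0) (nat_lit 546) (nat_lit 2) (@Lb.g g5 (@Lb.g g10 (@Lb.r r299 (@Lb.r r420 (@Lb.r r102 (@Lb.d (nat_lit 38) (nat_lit 134) (nat_lit 33) (@Lb.fp (nat_lit 3) t126)))))))))
noncomputable def l12082 : Lb := (@Lb.d (nat_lit 0) (nat_lit 256) (nat_lit 128) (@Lb.g g10 (@Lb.g g11 (@Lb.r r387 (@Lb.r r1617 (@Lb.r r354 (@Lb.d (nat_lit 0) (nat_lit 169) (nat_lit 532) (@Lb.fm (nat_lit 3) t2777))))))))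
noncomputable def l12083 : Lb := (@Lb.r r2129 (@Lb.d (nat_lit 129) (nat_lit 512) (nat_lit 9) (@Lb.g g8 (@Lb.g g6 (@Lb.r r391 (@Lb.r r584 (@Lb.d (nat_lit 97) (nat_lit 10) (nat_lit 86) (@Lb.fm (nat_lit 3) t5))))))))
noncomputable def l12084 : Lb := (@Lb.r r2129 (@Lb.d (nat_lit 130) (nat_lit 0) (nat_lit 9) (@Lb.g g8 (@Lb.g g6 (@Lb.r r391 (@Lb.r r584 (@Lb.d (nat_lit 97) (nat_lit 10) (nat_lit 152) (@Lb.fm (nat_lit 3) t5))))))))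
noncomputable def l12085 : Lb := (@Lb.d (nat_lit 2) (nat_lit 41) (nat_lit 1) (@Lb.g g8 (@Lb.g g9 (@Lb.g g10 (@Lb.r r1623 (@Lb.r r386 (@Lb.r r1697 (@Lb.d (nat_lit 641) (nat_lit 36) (nat_lit 24) (@Lb.t (@Lb.fp (nat_lit 9) t2787))))))))))
noncomputable def l12086 : Lb := (@Lb.d (nat_lit 0) (nat_lit 5) (nat_lit 74) (@Lb.g g9 (@Lb.g g10 (@Lb.g g11 (@Lb.r r611 (@Lb.r r1610 (@Lb.r r2644 (@Lb.r r1321 (@Lb.d (nat_lit 258) (nat_lit 80) (nat_lit 576) (@Lb.t (@Lb.fm (nat_lit 9) t261)))))))))))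
noncomputable def l12087 : Lb := (@Lb.d (nat_lit 8) (nat_lit 546) (nat_lit 66) (@Lb.g g9 (@Lb.g g10 (@Lb.g g11 (@Lb.r r387 (@Lb.r r2136 (@Lb.r r2438 (@Lb.r r593 (@Lb.d (nat_lit 544) (nat_lit 38) (nat_lit 169) (@Lb.t (@Lb.fm (nat_lit 9) t1430)))))))))))
noncomputable def l12088 : Lb := (@Lb.d (nat_lit 0) (nat_lit 256) (nat_lit 104) (@Lb.g g6 (@Lb.g g11 (@Lb.r r579 (@Lb.d (nat_lit 0) (nat_lit 5) (nat_lit 17) (@Lb.fm (nat_lit 3) t45))))))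
noncomputable def l12089 : Lb := (@Lb.r r323 (@Lb.d (nat_lit 0) (nat_lit 264) (nat_lit 34) (@Lb.g g10 (@Lb.r r2659 (@Lb.d (nat_lit 0) (nat_lit 21) (nat_lit 424) (@Lb.t (@Lb.fm (nat_lit 3) t334)))))))
noncomputable def l12090 : Lb := (@Lb.d (nat_lit 0) (nat_lit 512) (nat_lit 73) (@Lb.g g9 (@Lb.g g10 (@Lb.g g11 (@Lb.r r2691 (@Lb.r r2658 (@Lb.d (nat_lit 0) (nat_lit 37) (nat_lit 297) (@Lb.t (@Lb.fp (nat_lit 9) t71)))))))))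
noncomputable def l12091 : Lb := (@Lb.d (nat_lit 0) (nat_lit 548) (nat_lit 132) (@Lb.g g9 (@Lb.g g10 (@Lb.g g11 (@Lb.r r2723 (@Lb.r r1362 (@Lb.r r1553 (@Lb.d (nat_lit 0) (nat_lit 64) (nat_lit 385) (@Lb.t (@Lb.fp (nat_lit 9) t2739))))))))))
noncomputable def l12092 : Lb := (@Lb.d (nat_lit 0) (nat_lit 256) (nat_lit 2) (@Lb.g g10 (@Lb.g g7 (@Lb.r r386 (@Lb.r r2449 (@Lb.d (nat_lit 0) (nat_lit 100) (nat_lit 132) (@Lb.fm (nat_lit 3) t2788)))))))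
noncomputable def l12093 : Lb := (@Lb.r r323 (@Lb.d (nat_lit 8) (nat_lit 544) (nat_lit 21) (@Lb.g g9 (@Lb.g g10 (@Lb.r r1624 (@Lb.r r1691 (@Lb.r r2385 (@Lb.d (nat_lit 266) (nat_lit 149) (nat_lit 676) (@Lb.fm (nat_lit 3) t1775)))))))))
noncomputable def l12094 : Lb := (@Lb.d (nat_lit 2) (nat_lit 514) (nat_lit 73) (@Lb.g g8 (@Lb.g g9 (@Lb.g g10 (@Lb.g g11 (@Lb.r r2666 (@Lb.r r579 (@Lb.r r25 (@Lb.d (nat_lit 4) (nat_lit 96) (nat_lit 586) (@Lb.fm (nat_lit 9) t51))))))))))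
noncomputable def l12095 : Lb := (@Lb.r r82 (@Lb.d (nat_lit 0) (nat_lit 289) (nat_lit 64) (@Lb.g g9 (@Lb.g g11 (@Lb.r r2659 (@Lb.r r386 (@Lb.r r2393 (@Lb.r r24 (@Lb.d (nat_lit 528) (nat_lit 0) (nat_lit 329) (@Lb.fp (nat_lit 3) t2789))))))))))
noncomputable def l12096 : Lb := (@Lb.d (nat_lit 0) (nat_lit 512) (nat_lit 66) (@Lb.g g9 (@Lb.g g10 (@Lb.g g11 (@Lb.r r2726 (@Lb.r r1368 (@Lb.r r2567 (@Lb.r r289 (@Lb.d (nat_lit 9) (nat_lit 130) (nat_lit 640) (@Lb.t (@Lb.fm (nat_lit 9) t1412)))))))))))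
noncomputable def l12097 : Lb := (@Lb.d (nat_lit 2) (nat_lit 260) (nat_lit 0) (@Lb.g g8 (@Lb.g g9 (@Lb.g g10 (@Lb.r r2666 (@Lb.r r579 (@Lb.r r145 (@Lb.d (nat_lit 385) (nat_lit 105) (nat_lit 610) (@Lb.t (@Lb.fp (nat_lit 9) t5))))))))))
noncomputable def l12098 : Lb := (@Lb.d (nat_lit 2) (nat_lit 514) (nat_lit 4) (@Lb.g g8 (@Lb.g g9 (@Lb.g g10 (@Lb.g g11 (@Lb.r r2666 (@Lb.r r612 (@Lb.r r615 (@Lb.r r2657 (@Lb.r r2084 (@Lb.d (nat_lit 10) (nat_lit 164) (nat_lit 665) (@Lb.fp (nat_lit 9) t71))))))))))))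
noncomputable def l12099 : Lb := (@Lb.d (nat_lit 33) (nat_lit 256) (nat_lit 138) (@Lb.r r154 (@Lb.r r664 (@Lb.r r667 (@Lb.r r353 (@Lb.g g7 (@Lb.g g4 (@Lb.d (nat_lit 2) (nat_lit 0) (nat_lit 64) (@Lb.fm (nat_lit 3) t51)))))))))
noncomputable def l12100 : Lb := (@Lb.d (nat_lit 161) (nat_lit 2) (nat_lit 1) (@Lb.g g8 (@Lb.g g9 (@Lb.g g6 (@Lb.r r407 (@Lb.r r97 (@Lb.r r536 (@Lb.d (nat_lit 70) (nat_lit 40) (nat_lit 128) (@Lb.t (@Lb.fp (nat_lit 9) t2790))))))))))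
noncomputable def l12101 : Lb := (@Lb.d (nat_lit 1) (nat_lit 2) (nat_lit 4) (@Lb.g g8 (@Lb.g g9 (@Lb.g g10 (@Lb.g g11 (@Lb.r r2666 (@Lb.r r612 (@Lb.r r615 (@Lb.r r2657 (@Lb.r r2084 (@Lb.d (nat_lit 10) (nat_lit 164) (nat_lit 665) (@Lb.fp (nat_lit 9) t71))))))))))))
noncomputable def l12102 : Lb := (@Lb.d (nat_lit 161) (nat_lit 516) (nat_lit 2) (@Lb.g g8 (@Lb.g g9 (@Lb.g g6 (@Lb.r r407 (@Lb.r r97 (@Lb.r r536 (@Lb.d (nat_lit 70) (nat_lit 40) (nat_lit 128) (@Lb.t (@Lb.fp (nat_lit 9) t2791))))))))))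
noncomputable def l12103 : Lb := (@Lb.d (nat_lit 137) (nat_lit 0) (nat_lit 0) (@Lb.g g8 (@Lb.r r678 (@Lb.r r661 (@Lb.r r1559 (@Lb.r r2324 (@Lb.d (nat_lit 582) (nat_lit 21) (nat_lit 640) (@Lb.t (@Lb.fp (nat_lit 3) t295)))))))))
noncomputable def l12104 : Lb := (@Lb.d (nat_lit 138) (nat_lit 256) (nat_lit 0) (@Lb.g g8 (@Lb.r r678 (@Lb.r r661 (@Lb.r r1431 (@Lb.r r2644 (@Lb.d (nat_lit 662) (nat_lit 41) (nat_lit 256) (@Lb.t (@Lb.fm (nat_lit 3) t71)))))))))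
noncomputable def l12105 : Lb := (@Lb.d (nat_lit 169) (nat_lit 513) (nat_lit 0) (@Lb.g g8 (@Lb.g g9 (@Lb.r r598 (@Lb.r r425 (@Lb.r r599 (@Lb.r r404 (@Lb.d (nat_lit 102) (nat_lit 24) (nat_lit 10) (@Lb.fm (nat_lit 3) t2)))))))))
noncomputable def l12106 : Lb := (@Lb.d (nat_lit 37) (nat_lit 138) (nat_lit 104) (@Lb.r r102 (@Lb.r r357 (@Lb.r r2715 (@Lb.r r2724 (@Lb.g g6 (@Lb.g g5 (@Lb.d (nat_lit 4) (nat_lit 0) (nat_lit 2) (@Lb.fm (nat_lit 3) t69)))))))))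
noncomputable def l12107 : Lb := (@Lb.d (nat_lit 1) (nat_lit 36) (nat_lit 4) (@Lb.r r359 (@Lb.r r421 (@Lb.r r106 (@Lb.r r72 (@Lb.g g7 (@Lb.g g6 (@Lb.g g5 (@Lb.d (nat_lit 84) (nat_lit 0) (nat_lit 65) (@Lb.t (@Lb.fp (nat_lit 9) t2)))))))))))
noncomputable def l12108 : Lb := (@Lb.d (nat_lit 4) (nat_lit 257) (nat_lit 0) (@Lb.g g9 (@Lb.r r154 (@Lb.r r660 (@Lb.r r2727 (@Lb.r r2705 (@Lb.d (nat_lit 0) (nat_lit 70) (nat_lit 661) (@Lb.t (@Lb.fp (nat_lit 3) t71)))))))))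
noncomputable def l12109 : Lb := (@Lb.d (nat_lit 168) (nat_lit 0) (nat_lit 2) (@Lb.g g9 (@Lb.g g10 (@Lb.g g11 (@Lb.r r72 (@Lb.r r86 (@Lb.r r421 (@Lb.r r411 (@Lb.d (nat_lit 2) (nat_lit 24) (nat_lit 8) (@Lb.t (@Lb.fm (nat_lit 9) t2)))))))))))
noncomputable def l12110 : Lb := (@Lb.r r323 (@Lb.d (nat_lit 0) (nat_lit 260) (nat_lit 2) (@Lb.g g6 (@Lb.r r2659 (@Lb.d (nat_lit 0) (nat_lit 74) (nat_lit 84) (@Lb.t (@Lb.fp (nat_lit 3) t71)))))))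
noncomputable def l12111 : Lb := (@Lb.d (nat_lit 0) (nat_lit 422) (nat_lit 576) (@Lb.r r1362 (@Lb.g g7 (@Lb.g g6 (@Lb.g g5 (@Lb.d (nat_lit 0) (nat_lit 0) (nat_lit 65) (@Lb.t (@Lb.fp (nat_lit 9) t87))))))))
noncomputable def l12112 : Lb := (@Lb.d (nat_lit 2) (nat_lit 514) (nat_lit 9) (@Lb.g g8 (@Lb.g g9 (@Lb.g g6 (@Lb.r r515 (@Lb.r r97 (@Lb.r r24 (@Lb.d (nat_lit 5) (nat_lit 137) (nat_lit 128) (@Lb.t (@Lb.fm (nat_lit 9) t154))))))))))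
noncomputable def l12113 : Lb := (@Lb.d (nat_lit 9) (nat_lit 513) (nat_lit 9) (@Lb.g g8 (@Lb.g g9 (@Lb.g g6 (@Lb.r r515 (@Lb.r r97 (@Lb.r r24 (@Lb.d (nat_lit 10) (nat_lit 9) (nat_lit 128) (@Lb.t (@Lb.fm (nat_lit 9) t40))))))))))
noncomputable def l12114 : Lb := (@Lb.d (nat_lit 32) (nat_lit 512) (nat_lit 1) (@Lb.g g10 (@Lb.r r84 (@Lb.r r586 (@Lb.r r289 (@Lb.d (nat_lit 169) (nat_lit 161) (nat_lit 330) (@Lb.t (@Lb.fm (nat_lit 3) t259))))))))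
noncomputable def l12115 : Lb := (@Lb.d (nat_lit 2) (nat_lit 256) (nat_lit 130) (@Lb.g g8 (@Lb.g g10 (@Lb.g g11 (@Lb.r r419 (@Lb.r r386 (@Lb.r r101 (@Lb.r r24 (@Lb.d (nat_lit 98) (nat_lit 10) (nat_lit 8) (@Lb.t (@Lb.fp (nat_lit 9) t263)))))))))))
noncomputable def l12116 : Lb := (@Lb.d (nat_lit 8) (nat_lit 289) (nat_lit 130) (@Lb.g g9 (@Lb.g g10 (@Lb.g g11 (@Lb.r r387 (@Lb.r r386 (@Lb.r r2328 (@Lb.r r2581 (@Lb.d (nat_lit 677) (nat_lit 162) (nat_lit 417) (@Lb.t (@Lb.fm (nat_lit 9) t708)))))))))))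
noncomputable def l12117 : Lb := (@Lb.d (nat_lit 0) (nat_lit 256) (nat_lit 136) (@Lb.g g11 (@Lb.r r402 (@Lb.r r101 (@Lb.r r24 (@Lb.d (nat_lit 0) (nat_lit 0) (nat_lit 74) (@Lb.t (@Lb.fm (nat_lit 3) t556))))))))
noncomputable def l12118 : Lb := (@Lb.d (nat_lit 32) (nat_lit 512) (nat_lit 66) (@Lb.g g10 (@Lb.g g7 (@Lb.r r596 (@Lb.r r74 (@Lb.r r289 (@Lb.d (nat_lit 96) (nat_lit 162) (nat_lit 322) (@Lb.fm (nat_lit 3) t668))))))))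
noncomputable def l12119 : Lb := (@Lb.d (nat_lit 2) (nat_lit 514) (nat_lit 130) (@Lb.g g8 (@Lb.g g9 (@Lb.g g10 (@Lb.g g11 (@Lb.r r427 (@Lb.r r386 (@Lb.r r97 (@Lb.r r24 (@Lb.d (nat_lit 74) (nat_lit 9) (nat_lit 137) (@Lb.fm (nat_lit 9) t61)))))))))))
noncomputable def l12120 : Lb := (@Lb.d (nat_lit 8) (nat_lit 512) (nat_lit 137) (@Lb.g g9 (@Lb.g g10 (@Lb.g g11 (@Lb.r r600 (@Lb.r r1638 (@Lb.r r2403 (@Lb.r r337 (@Lb.d (nat_lit 134) (nat_lit 148) (nat_lit 326) (@Lb.t (@Lb.fp (nat_lit 9) t2030)))))))))))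
noncomputable def l12121 : Lb := (@Lb.d (nat_lit 0) (nat_lit 549) (nat_lit 130) (@Lb.g g9 (@Lb.g g10 (@Lb.g g11 (@Lb.r r2691 (@Lb.r r2658 (@Lb.r r1617 (@Lb.d (nat_lit 0) (nat_lit 32) (nat_lit 642) (@Lb.t (@Lb.fp (nat_lit 9) t69))))))))))
noncomputable def l12122 : Lb := (@Lb.d (nat_lit 0) (nat_lit 517) (nat_lit 130) (@Lb.g g9 (@Lb.g g10 (@Lb.g g11 (@Lb.r r2723 (@Lb.r r673 (@Lb.r r2210 (@Lb.r r1169 (@Lb.d (nat_lit 0) (nat_lit 130) (nat_lit 2) (@Lb.t (@Lb.fp (nat_lit 9) t2792)))))))))))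
noncomputable def l12123 : Lb := (@Lb.d (nat_lit 64) (nat_lit 0) (nat_lit 328) (@Lb.g g9 (@Lb.g g7 (@Lb.r r2376 (@Lb.r r1158 (@Lb.r r1169 (@Lb.d (nat_lit 520) (nat_lit 2) (nat_lit 80) (@Lb.fp (nat_lit 3) t669))))))))
noncomputable def l12124 : Lb := (@Lb.d (nat_lit 64) (nat_lit 512) (nat_lit 328) (@Lb.g g9 (@Lb.g g10 (@Lb.g g7 (@Lb.r r1448 (@Lb.r r1130 (@Lb.r r1169 (@Lb.d (nat_lit 261) (nat_lit 65) (nat_lit 80) (@Lb.t (@Lb.fm (nat_lit 9) t2793))))))))))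
noncomputable def l12125 : Lb := (@Lb.d (nat_lit 130) (nat_lit 649) (nat_lit 0) (@Lb.g g8 (@Lb.g g5 (@Lb.r r263 (@Lb.r r2178 (@Lb.r r2692 (@Lb.d (nat_lit 674) (nat_lit 72) (nat_lit 277) (@Lb.fm (nat_lit 3) t124))))))))
noncomputable def l12126 : Lb := (@Lb.d (nat_lit 0) (nat_lit 577) (nat_lit 1) (@Lb.r r20 (@Lb.r r289 (@Lb.r r283 (@Lb.r r388 (@Lb.g g6 (@Lb.d (nat_lit 16) (nat_lit 0) (nat_lit 1) (@Lb.r r387 (@Lb.t (@Lb.fp (nat_lit 3) t68))))))))))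
noncomputable def l12127 : Lb := (@Lb.d (nat_lit 0) (nat_lit 1) (nat_lit 64) (@Lb.g g9 (@Lb.g g10 (@Lb.g g7 (@Lb.r r2465 (@Lb.r r354 (@Lb.d (nat_lit 0) (nat_lit 98) (nat_lit 22) (@Lb.t (@Lb.fm (nat_lit 9) t2777)))))))))
noncomputable def l12128 : Lb := (@Lb.r r81 (@Lb.d (nat_lit 138) (nat_lit 0) (nat_lit 41) (@Lb.g g8 (@Lb.g g6 (@Lb.r r661 (@Lb.r r343 (@Lb.r r680 (@Lb.d (nat_lit 85) (nat_lit 22) (nat_lit 9) (@Lb.fm (nat_lit 3) t98)))))))))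
noncomputable def l12129 : Lb := (@Lb.d (nat_lit 136) (nat_lit 512) (nat_lit 64) (@Lb.g g9 (@Lb.g g11 (@Lb.r r152 (@Lb.r r2405 (@Lb.r r1555 (@Lb.r r2178 (@Lb.d (nat_lit 548) (nat_lit 162) (nat_lit 580) (@Lb.fm (nat_lit 3) t2622)))))))))
noncomputable def l12130 : Lb := (@Lb.d (nat_lit 130) (nat_lit 36) (nat_lit 0) (@Lb.g g8 (@Lb.g g9 (@Lb.g g10 (@Lb.r r1450 (@Lb.r r583 (@Lb.r r408 (@Lb.r r2085 (@Lb.d (nat_lit 69) (nat_lit 150) (nat_lit 602) (@Lb.t (@Lb.fm (nat_lit 9) t1441)))))))))))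
noncomputable def l12131 : Lb := (@Lb.d (nat_lit 0) (nat_lit 516) (nat_lit 1) (@Lb.g g9 (@Lb.g g10 (@Lb.r r679 (@Lb.r r1685 (@Lb.r r2404 (@Lb.r r1178 (@Lb.d (nat_lit 538) (nat_lit 137) (nat_lit 18) (@Lb.fm (nat_lit 3) t600)))))))))
noncomputable def l12132 : Lb := (@Lb.d (nat_lit 136) (nat_lit 0) (nat_lit 64) (@Lb.g g9 (@Lb.g g11 (@Lb.r r152 (@Lb.r r2405 (@Lb.r r1555 (@Lb.r r2178 (@Lb.d (nat_lit 132) (nat_lit 162) (nat_lit 169) (@Lb.fm (nat_lit 3) t2794)))))))))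
noncomputable def l12133 : Lb := (@Lb.d (nat_lit 2) (nat_lit 256) (nat_lit 64) (@Lb.g g8 (@Lb.g g9 (@Lb.g g11 (@Lb.r r356 (@Lb.r r667 (@Lb.r r2178 (@Lb.r r405 (@Lb.r r2596 (@Lb.d (nat_lit 612) (nat_lit 130) (nat_lit 512) (@Lb.t (@Lb.fm (nat_lit 9) t2622))))))))))))
noncomputable def l12134 : Lb := (@Lb.d (nat_lit 2) (nat_lit 2) (nat_lit 128) (@Lb.g g8 (@Lb.g g9 (@Lb.g g10 (@Lb.g g11 (@Lb.r r1435 (@Lb.r r2154 (@Lb.r r2337 (@Lb.r r24 (@Lb.d (nat_lit 534) (nat_lit 170) (nat_lit 329) (@Lb.fp (nat_lit 9) t1371)))))))))))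
noncomputable def l12135 : Lb := (@Lb.d (nat_lit 5) (nat_lit 680) (nat_lit 580) (@Lb.r r1426 (@Lb.r r1637 (@Lb.r r1304 (@Lb.r r2371 (@Lb.g g7 (@Lb.g g6 (@Lb.g g5 (@Lb.d (nat_lit 16) (nat_lit 5) (nat_lit 66) (@Lb.t (@Lb.fm (nat_lit 9) t2795)))))))))))
noncomputable def l12136 : Lb := (@Lb.d (nat_lit 1) (nat_lit 266) (nat_lit 80) (@Lb.r r1158 (@Lb.r r2132 (@Lb.r r2345 (@Lb.g g7 (@Lb.g g6 (@Lb.g g4 (@Lb.d (nat_lit 1) (nat_lit 16) (nat_lit 640) (@Lb.t (@Lb.fp (nat_lit 9) t2796))))))))))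
noncomputable def l12137 : Lb := (@Lb.d (nat_lit 2) (nat_lit 514) (nat_lit 74) (@Lb.g g8 (@Lb.g g9 (@Lb.g g10 (@Lb.g g11 (@Lb.r r1435 (@Lb.r r2154 (@Lb.r r2337 (@Lb.r r24 (@Lb.d (nat_lit 534) (nat_lit 165) (nat_lit 328) (@Lb.fp (nat_lit 9) t1371)))))))))))
noncomputable def l12138 : Lb := (@Lb.r r82 (@Lb.r r275 (@Lb.d (nat_lit 33) (nat_lit 642) (nat_lit 0) (@Lb.g g8 (@Lb.g g5 (@Lb.r r2403 (@Lb.r r102 (@Lb.r r168 (@Lb.d (nat_lit 536) (nat_lit 133) (nat_lit 2) (@Lb.fm (nat_lit 3) t1783))))))))))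
noncomputable def l12139 : Lb := (@Lb.r r82 (@Lb.r r275 (@Lb.d (nat_lit 34) (nat_lit 130) (nat_lit 0) (@Lb.g g8 (@Lb.g g5 (@Lb.r r2403 (@Lb.r r102 (@Lb.r r168 (@Lb.d (nat_lit 536) (nat_lit 138) (nat_lit 0) (@Lb.fm (nat_lit 3) t1783))))))))))
noncomputable def l12140 : Lb := (@Lb.r r82 (@Lb.r r275 (@Lb.d (nat_lit 34) (nat_lit 386) (nat_lit 0) (@Lb.g g8 (@Lb.g g5 (@Lb.r r2403 (@Lb.r r102 (@Lb.r r168 (@Lb.d (nat_lit 536) (nat_lit 133) (nat_lit 2) (@Lb.fm (nat_lit 3) t1783))))))))))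
noncomputable def l12141 : Lb := (@Lb.r r323 (@Lb.d (nat_lit 2) (nat_lit 260) (nat_lit 0) (@Lb.g g8 (@Lb.g g9 (@Lb.g g10 (@Lb.r r1363 (@Lb.r r1194 (@Lb.r r164 (@Lb.r r37 (@Lb.d (nat_lit 514) (nat_lit 73) (nat_lit 2) (@Lb.t (@Lb.fm (nat_lit 9) t2097))))))))))))
noncomputable def l12142 : Lb := (@Lb.d (nat_lit 545) (nat_lit 152) (nat_lit 320) (@Lb.r r260 (@Lb.r r97 (@Lb.r r1611 (@Lb.r r532 (@Lb.g g7 (@Lb.g g10 (@Lb.g g5 (@Lb.g g4 (@Lb.d (nat_lit 1) (nat_lit 1) (nat_lit 22) (@Lb.fm (nat_lit 9) t2797)))))))))))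
noncomputable def l12143 : Lb := (@Lb.d (nat_lit 0) (nat_lit 264) (nat_lit 130) (@Lb.g g8 (@Lb.g g9 (@Lb.g g10 (@Lb.g g11 (@Lb.r r2443 (@Lb.r r340 (@Lb.r r170 (@Lb.r r1193 (@Lb.r r164 (@Lb.d (nat_lit 257) (nat_lit 137) (nat_lit 153) (@Lb.fp (nat_lit 9) t573))))))))))))
noncomputable def l12144 : Lb := (@Lb.d (nat_lit 2) (nat_lit 520) (nat_lit 130) (@Lb.g g8 (@Lb.g g9 (@Lb.g g10 (@Lb.g g11 (@Lb.r r2443 (@Lb.r r340 (@Lb.r r170 (@Lb.r r1193 (@Lb.r r164 (@Lb.d (nat_lit 257) (nat_lit 137) (nat_lit 153) (@Lb.fp (nat_lit 9) t573))))))))))))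
noncomputable def l12145 : Lb := (@Lb.r r82 (@Lb.d (nat_lit 34) (nat_lit 33) (nat_lit 128) (@Lb.g g8 (@Lb.g g9 (@Lb.g g11 (@Lb.r r2665 (@Lb.r r150 (@Lb.r r616 (@Lb.r r587 (@Lb.d (nat_lit 545) (nat_lit 34) (nat_lit 266) (@Lb.t (@Lb.fm (nat_lit 9) t98))))))))))))
noncomputable def l12146 : Lb := (@Lb.r r82 (@Lb.d (nat_lit 0) (nat_lit 514) (nat_lit 64) (@Lb.g g9 (@Lb.g g7 (@Lb.r r594 (@Lb.r r289 (@Lb.d (nat_lit 0) (nat_lit 16) (nat_lit 5) (@Lb.fm (nat_lit 3) t2798))))))))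
noncomputable def l12147 : Lb := (@Lb.d (nat_lit 2) (nat_lit 514) (nat_lit 130) (@Lb.g g8 (@Lb.g g9 (@Lb.g g10 (@Lb.g g11 (@Lb.r r1443 (@Lb.r r1122 (@Lb.r r2585 (@Lb.r r2584 (@Lb.d (nat_lit 614) (nat_lit 161) (nat_lit 601) (@Lb.fm (nat_lit 9) t2145)))))))))))
noncomputable def l12148 : Lb := (@Lb.d (nat_lit 34) (nat_lit 266) (nat_lit 128) (@Lb.g g8 (@Lb.g g9 (@Lb.g g11 (@Lb.r r326 (@Lb.r r387 (@Lb.r r536 (@Lb.r r2069 (@Lb.d (nat_lit 4) (nat_lit 97) (nat_lit 617) (@Lb.t (@Lb.fp (nat_lit 9) t1558)))))))))))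
noncomputable def l12149 : Lb := (@Lb.d (nat_lit 2) (nat_lit 258) (nat_lit 130) (@Lb.g g8 (@Lb.g g9 (@Lb.g g10 (@Lb.g g11 (@Lb.r r1435 (@Lb.r r145 (@Lb.r r2646 (@Lb.r r1416 (@Lb.d (nat_lit 90) (nat_lit 9) (nat_lit 585) (@Lb.fm (nat_lit 9) t1634)))))))))))
noncomputable def l12150 : Lb := (@Lb.d (nat_lit 0) (nat_lit 2) (nat_lit 130) (@Lb.g g8 (@Lb.g g9 (@Lb.g g10 (@Lb.g g11 (@Lb.r r1435 (@Lb.r r145 (@Lb.r r2646 (@Lb.r r1416 (@Lb.d (nat_lit 408) (nat_lit 9) (nat_lit 393) (@Lb.fm (nat_lit 9) t221)))))))))))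
noncomputable def l12151 : Lb := (@Lb.d (nat_lit 34) (nat_lit 6) (nat_lit 128) (@Lb.g g8 (@Lb.g g9 (@Lb.g g10 (@Lb.g g11 (@Lb.r r1435 (@Lb.r r145 (@Lb.r r2646 (@Lb.r r2180 (@Lb.d (nat_lit 166) (nat_lit 105) (nat_lit 97) (@Lb.fp (nat_lit 9) t1857)))))))))))
noncomputable def l12152 : Lb := (@Lb.d (nat_lit 517) (nat_lit 106) (nat_lit 168) (@Lb.r r1621 (@Lb.r r279 (@Lb.r r612 (@Lb.g g7 (@Lb.g g10 (@Lb.g g5 (@Lb.d (nat_lit 20) (nat_lit 32) (nat_lit 68) (@Lb.t (@Lb.fm (nat_lit 9) t504))))))))))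
noncomputable def l12153 : Lb := (@Lb.d (nat_lit 2) (nat_lit 0) (nat_lit 66) (@Lb.g g8 (@Lb.g g9 (@Lb.g g10 (@Lb.g g7 (@Lb.r r386 (@Lb.d (nat_lit 0) (nat_lit 5) (nat_lit 10) (@Lb.fp (nat_lit 9) t45))))))))
noncomputable def l12154 : Lb := (@Lb.d (nat_lit 517) (nat_lit 362) (nat_lit 168) (@Lb.r r1621 (@Lb.r r279 (@Lb.r r612 (@Lb.g g7 (@Lb.g g10 (@Lb.g g5 (@Lb.d (nat_lit 20) (nat_lit 32) (nat_lit 2) (@Lb.t (@Lb.fm (nat_lit 9) t504))))))))))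
noncomputable def l12155 : Lb := (@Lb.d (nat_lit 4) (nat_lit 518) (nat_lit 128) (@Lb.g g5 (@Lb.g g11 (@Lb.r r2587 (@Lb.r r24 (@Lb.d (nat_lit 130) (nat_lit 1) (nat_lit 390) (@Lb.fp (nat_lit 3) t592)))))))
noncomputable def l12156 : Lb := (@Lb.r r21 (@Lb.r r70 (@Lb.r r263 (@Lb.g g8 (@Lb.r r2084 (@Lb.r r101 (@Lb.r r402 (@Lb.r r2627 (@Lb.d (nat_lit 321) (nat_lit 256) (nat_lit 576) (@Lb.t (@Lb.fm (nat_lit 3) t2799)))))))))))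
noncomputable def l12157 : Lb := (@Lb.r r82 (@Lb.r r275 (@Lb.d (nat_lit 2) (nat_lit 386) (nat_lit 0) (@Lb.g g8 (@Lb.g g5 (@Lb.r r2651 (@Lb.r r386 (@Lb.r r24 (@Lb.d (nat_lit 266) (nat_lit 0) (nat_lit 2) (@Lb.fm (nat_lit 3) t538))))))))))
noncomputable def l12158 : Lb := (@Lb.d (nat_lit 274) (nat_lit 646) (nat_lit 1) (@Lb.r r289 (@Lb.r r603 (@Lb.r r516 (@Lb.r r2698 (@Lb.g g7 (@Lb.d (nat_lit 64) (nat_lit 0) (nat_lit 64) (@Lb.t (@Lb.fp (nat_lit 3) t131)))))))))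
noncomputable def l12159 : Lb := (@Lb.d (nat_lit 2) (nat_lit 256) (nat_lit 128) (@Lb.g g8 (@Lb.g g11 (@Lb.r r545 (@Lb.r r299 (@Lb.r r328 (@Lb.r r134 (@Lb.d (nat_lit 0) (nat_lit 5) (nat_lit 89) (@Lb.fp (nat_lit 3) t40)))))))))
noncomputable def l12160 : Lb := (@Lb.r r82 (@Lb.d (nat_lit 166) (nat_lit 256) (nat_lit 128) (@Lb.g g8 (@Lb.g g9 (@Lb.g g11 (@Lb.r r291 (@Lb.r r1414 (@Lb.r r2628 (@Lb.d (nat_lit 658) (nat_lit 37) (nat_lit 550) (@Lb.t (@Lb.fp (nat_lit 9) t1895)))))))))))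
noncomputable def l12161 : Lb := (@Lb.d (nat_lit 101) (nat_lit 390) (nat_lit 513) (@Lb.r r289 (@Lb.r r362 (@Lb.r r72 (@Lb.g g11 (@Lb.g g6 (@Lb.g g5 (@Lb.d (nat_lit 16) (nat_lit 0) (nat_lit 1) (@Lb.t (@Lb.fm (nat_lit 9) t1976))))))))))
noncomputable def l12162 : Lb := (@Lb.d (nat_lit 32) (nat_lit 544) (nat_lit 2) (@Lb.g g9 (@Lb.g g10 (@Lb.r r283 (@Lb.r r72 (@Lb.r r390 (@Lb.r r165 (@Lb.d (nat_lit 608) (nat_lit 2) (nat_lit 153) (@Lb.fp (nat_lit 3) t516)))))))))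
noncomputable def l12163 : Lb := (@Lb.d (nat_lit 0) (nat_lit 293) (nat_lit 130) (@Lb.g g9 (@Lb.g g10 (@Lb.g g11 (@Lb.r r2659 (@Lb.r r2658 (@Lb.r r1617 (@Lb.d (nat_lit 0) (nat_lit 72) (nat_lit 392) (@Lb.t (@Lb.fp (nat_lit 9) t256))))))))))
noncomputable def l12164 : Lb := (@Lb.d (nat_lit 0) (nat_lit 512) (nat_lit 129) (@Lb.g g10 (@Lb.g g11 (@Lb.r r2723 (@Lb.r r610 (@Lb.d (nat_lit 0) (nat_lit 101) (nat_lit 86) (@Lb.fp (nat_lit 3) t640)))))))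
noncomputable def l12165 : Lb := (@Lb.d (nat_lit 0) (nat_lit 0) (nat_lit 130) (@Lb.g g10 (@Lb.g g11 (@Lb.r r2691 (@Lb.r r578 (@Lb.d (nat_lit 0) (nat_lit 88) (nat_lit 152) (@Lb.fp (nat_lit 3) t633)))))))
noncomputable def l12166 : Lb := (@Lb.d (nat_lit 0) (nat_lit 0) (nat_lit 2) (@Lb.g g9 (@Lb.g g10 (@Lb.g g11 (@Lb.r r419 (@Lb.r r98 (@Lb.d (nat_lit 0) (nat_lit 9) (nat_lit 9) (@Lb.t (@Lb.fm (nat_lit 9) t369)))))))))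
noncomputable def l12167 : Lb := (@Lb.d (nat_lit 32) (nat_lit 256) (nat_lit 2) (@Lb.g g9 (@Lb.g g10 (@Lb.r r2599 (@Lb.r r2713 (@Lb.r r100 (@Lb.r r410 (@Lb.d (nat_lit 128) (nat_lit 26) (nat_lit 153) (@Lb.fm (nat_lit 3) t284)))))))))
noncomputable def l12168 : Lb := (@Lb.d (nat_lit 32) (nat_lit 256) (nat_lit 130) (@Lb.g g9 (@Lb.g g10 (@Lb.g g11 (@Lb.r r1411 (@Lb.r r2713 (@Lb.r r100 (@Lb.r r410 (@Lb.d (nat_lit 677) (nat_lit 149) (nat_lit 168) (@Lb.t (@Lb.fp (nat_lit 9) t1600)))))))))))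
noncomputable def l12169 : Lb := (@Lb.d (nat_lit 32) (nat_lit 0) (nat_lit 130) (@Lb.g g9 (@Lb.g g10 (@Lb.g g11 (@Lb.r r1411 (@Lb.r r2713 (@Lb.r r100 (@Lb.r r410 (@Lb.d (nat_lit 674) (nat_lit 85) (nat_lit 168) (@Lb.t (@Lb.fp (nat_lit 9) t1767)))))))))))
noncomputable def l12170 : Lb := (@Lb.r r82 (@Lb.d (nat_lit 0) (nat_lit 129) (nat_lit 0) (@Lb.g g5 (@Lb.g g11 (@Lb.r r595 (@Lb.r r386 (@Lb.d (nat_lit 0) (nat_lit 64) (nat_lit 2) (@Lb.fp (nat_lit 3) t308))))))))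
noncomputable def l12171 : Lb := (@Lb.d (nat_lit 150) (nat_lit 386) (nat_lit 598) (@Lb.r r2632 (@Lb.r r2454 (@Lb.r r1641 (@Lb.r r2347 (@Lb.g g6 (@Lb.g g5 (@Lb.g g4 (@Lb.d (nat_lit 96) (nat_lit 0) (nat_lit 5) (@Lb.t (@Lb.fm (nat_lit 9) t127)))))))))))
noncomputable def l12172 : Lb := (@Lb.r r273 (@Lb.r r322 (@Lb.d (nat_lit 2) (nat_lit 544) (nat_lit 0) (@Lb.g g8 (@Lb.g g11 (@Lb.r r1626 (@Lb.r r2341 (@Lb.d (nat_lit 388) (nat_lit 129) (nat_lit 276) (@Lb.fp (nat_lit 3) t150)))))))))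
noncomputable def l12173 : Lb := (@Lb.d (nat_lit 2) (nat_lit 0) (nat_lit 130) (@Lb.g g8 (@Lb.g g9 (@Lb.g g10 (@Lb.g g11 (@Lb.r r548 (@Lb.r r295 (@Lb.r r357 (@Lb.r r666 (@Lb.r r644 (@Lb.d (nat_lit 296) (nat_lit 1) (nat_lit 34) (@Lb.fp (nat_lit 9) t127))))))))))))
noncomputable def l12174 : Lb := (@Lb.d (nat_lit 0) (nat_lit 4) (nat_lit 1) (@Lb.g g9 (@Lb.g g10 (@Lb.r r1543 (@Lb.r r1685 (@Lb.r r2404 (@Lb.r r1178 (@Lb.d (nat_lit 530) (nat_lit 0) (nat_lit 0) (@Lb.fm (nat_lit 3) t2800)))))))))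
noncomputable def l12175 : Lb := (@Lb.d (nat_lit 32) (nat_lit 36) (nat_lit 5) (@Lb.g g9 (@Lb.g g10 (@Lb.g g11 (@Lb.r r1707 (@Lb.r r1689 (@Lb.r r100 (@Lb.r r410 (@Lb.d (nat_lit 386) (nat_lit 26) (nat_lit 169) (@Lb.t (@Lb.fm (nat_lit 9) t594)))))))))))
noncomputable def l12176 : Lb := (@Lb.d (nat_lit 0) (nat_lit 516) (nat_lit 1) (@Lb.g g9 (@Lb.g g10 (@Lb.r r1543 (@Lb.r r1685 (@Lb.r r2404 (@Lb.r r1178 (@Lb.d (nat_lit 528) (nat_lit 0) (nat_lit 0) (@Lb.fm (nat_lit 3) t1408)))))))))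
noncomputable def l12177 : Lb := (@Lb.d (nat_lit 0) (nat_lit 258) (nat_lit 0) (@Lb.g g9 (@Lb.g g10 (@Lb.r r1363 (@Lb.r r1634 (@Lb.r r2657 (@Lb.d (nat_lit 0) (nat_lit 100) (nat_lit 154) (@Lb.fp (nat_lit 3) t1421))))))))
noncomputable def l12178 : Lb := (@Lb.d (nat_lit 0) (nat_lit 512) (nat_lit 5) (@Lb.g g10 (@Lb.g g11 (@Lb.r r387 (@Lb.r r402 (@Lb.d (nat_lit 0) (nat_lit 149) (nat_lit 393) (@Lb.fp (nat_lit 3) t334)))))))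
noncomputable def l12179 : Lb := (@Lb.d (nat_lit 32) (nat_lit 548) (nat_lit 133) (@Lb.g g9 (@Lb.g g10 (@Lb.g g11 (@Lb.r r1707 (@Lb.r r1689 (@Lb.r r100 (@Lb.r r410 (@Lb.d (nat_lit 385) (nat_lit 26) (nat_lit 169) (@Lb.t (@Lb.fm (nat_lit 9) t594)))))))))))
noncomputable def l12180 : Lb := (@Lb.d (nat_lit 0) (nat_lit 261) (nat_lit 100) (@Lb.r r1105 (@Lb.r r1363 (@Lb.g g6 (@Lb.g g5 (@Lb.r r291 (@Lb.fm (nat_lit 3) t308)))))))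
noncomputable def l12181 : Lb := (@Lb.d (nat_lit 128) (nat_lit 264) (nat_lit 130) (@Lb.g g10 (@Lb.g g11 (@Lb.r r264 (@Lb.r r519 (@Lb.r r101 (@Lb.r r154 (@Lb.d (nat_lit 392) (nat_lit 9) (nat_lit 161) (@Lb.fm (nat_lit 3) t127)))))))))
noncomputable def l12182 : Lb := (@Lb.r r612 (@Lb.r r359 (@Lb.r r2178 (@Lb.r r405 (@Lb.r r2596 (@Lb.d (nat_lit 612) (nat_lit 513) (nat_lit 512) (@Lb.fm (nat_lit 1) t2622)))))))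
noncomputable def l12183 : Lb := (@Lb.d (nat_lit 128) (nat_lit 8) (nat_lit 130) (@Lb.g g10 (@Lb.g g11 (@Lb.r r264 (@Lb.r r519 (@Lb.r r101 (@Lb.r r154 (@Lb.d (nat_lit 393) (nat_lit 9) (nat_lit 161) (@Lb.fm (nat_lit 3) t127)))))))))
noncomputable def l12184 : Lb := (@Lb.d (nat_lit 2) (nat_lit 545) (nat_lit 130) (@Lb.g g8 (@Lb.g g9 (@Lb.g g10 (@Lb.g g11 (@Lb.r r683 (@Lb.r r1700 (@Lb.r r1190 (@Lb.r r1061 (@Lb.d (nat_lit 9) (nat_lit 132) (nat_lit 168) (@Lb.fm (nat_lit 9) t1640)))))))))))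
noncomputable def l12185 : Lb := (@Lb.r r612 (@Lb.r r359 (@Lb.r r2178 (@Lb.r r405 (@Lb.r r2596 (@Lb.d (nat_lit 612) (nat_lit 8) (nat_lit 514) (@Lb.fm (nat_lit 1) t2622)))))))
noncomputable def l12186 : Lb := (@Lb.d (nat_lit 586) (nat_lit 164) (nat_lit 1) (@Lb.r r2584 (@Lb.r r2178 (@Lb.r r2331 (@Lb.r r549 (@Lb.g g8 (@Lb.t (@Lb.fm (nat_lit 3) t2622))))))))
noncomputable def l12187 : Lb := (@Lb.d (nat_lit 130) (nat_lit 266) (nat_lit 0) (@Lb.g g8 (@Lb.g g9 (@Lb.r r599 (@Lb.r r594 (@Lb.r r417 (@Lb.r r104 (@Lb.d (nat_lit 36) (nat_lit 0) (nat_lit 68) (@Lb.fp (nat_lit 3) t119)))))))))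
noncomputable def l12188 : Lb := (@Lb.r r331 (@Lb.d (nat_lit 134) (nat_lit 512) (nat_lit 0) (@Lb.g g8 (@Lb.g g9 (@Lb.g g10 (@Lb.r r1698 (@Lb.r r1415 (@Lb.r r1561 (@Lb.r r1540 (@Lb.d (nat_lit 553) (nat_lit 70) (nat_lit 272) (@Lb.t (@Lb.fp (nat_lit 9) t2801))))))))))))
noncomputable def l12189 : Lb := (@Lb.r r356 (@Lb.r r667 (@Lb.r r2178 (@Lb.r r1445 (@Lb.r r1540 (@Lb.d (nat_lit 4) (nat_lit 2) (nat_lit 101) (@Lb.fm (nat_lit 1) t2802)))))))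
noncomputable def l12190 : Lb := (@Lb.d (nat_lit 8) (nat_lit 546) (nat_lit 0) (@Lb.g g5 (@Lb.r r680 (@Lb.r r427 (@Lb.r r2178 (@Lb.r r2393 (@Lb.d (nat_lit 106) (nat_lit 101) (nat_lit 418) (@Lb.t (@Lb.fm (nat_lit 3) t2794)))))))))
noncomputable def l12191 : Lb := (@Lb.d (nat_lit 8) (nat_lit 290) (nat_lit 0) (@Lb.g g5 (@Lb.r r680 (@Lb.r r427 (@Lb.r r2178 (@Lb.r r2393 (@Lb.d (nat_lit 106) (nat_lit 106) (nat_lit 416) (@Lb.t (@Lb.fm (nat_lit 3) t2794)))))))))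
noncomputable def l12192 : Lb := (@Lb.d (nat_lit 537) (nat_lit 298) (nat_lit 354) (@Lb.r r1129 (@Lb.r r1430 (@Lb.r r2152 (@Lb.g g11 (@Lb.g g5 (@Lb.g g4 (@Lb.d (nat_lit 1) (nat_lit 5) (nat_lit 384) (@Lb.r r610 (@Lb.t (@Lb.fp (nat_lit 9) t2550)))))))))))
noncomputable def l12193 : Lb := (@Lb.d (nat_lit 656) (nat_lit 72) (nat_lit 406) (@Lb.r r2635 (@Lb.r r2660 (@Lb.r r170 (@Lb.g g7 (@Lb.g g6 (@Lb.g g9 (@Lb.g g4 (@Lb.d (nat_lit 97) (nat_lit 134) (nat_lit 66) (@Lb.fm (nat_lit 9) t2803))))))))))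
noncomputable def l12194 : Lb := (@Lb.d (nat_lit 134) (nat_lit 517) (nat_lit 128) (@Lb.g g8 (@Lb.g g9 (@Lb.g g10 (@Lb.g g11 (@Lb.r r1706 (@Lb.r r1411 (@Lb.r r1177 (@Lb.r r1156 (@Lb.d (nat_lit 298) (nat_lit 89) (nat_lit 665) (@Lb.fm (nat_lit 9) t2804)))))))))))
noncomputable def l12195 : Lb := (@Lb.d (nat_lit 2) (nat_lit 258) (nat_lit 130) (@Lb.g g8 (@Lb.g g9 (@Lb.g g10 (@Lb.g g11 (@Lb.r r427 (@Lb.r r424 (@Lb.r r106 (@Lb.r r97 (@Lb.d (nat_lit 617) (nat_lit 9) (nat_lit 545) (@Lb.fp (nat_lit 9) t900)))))))))))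
noncomputable def l12196 : Lb := (@Lb.d (nat_lit 134) (nat_lit 256) (nat_lit 130) (@Lb.g g8 (@Lb.g g9 (@Lb.g g10 (@Lb.g g11 (@Lb.r r1706 (@Lb.r r1411 (@Lb.r r665 (@Lb.r r1156 (@Lb.d (nat_lit 617) (nat_lit 164) (nat_lit 96) (@Lb.fm (nat_lit 9) t605)))))))))))
noncomputable def l12197 : Lb := (@Lb.d (nat_lit 129) (nat_lit 517) (nat_lit 356) (@Lb.r r1608 (@Lb.r r1625 (@Lb.r r1611 (@Lb.g g7 (@Lb.g g10 (@Lb.g g4 (@Lb.d (nat_lit 1) (nat_lit 0) (nat_lit 65) (@Lb.r r145 (@Lb.t (@Lb.fm (nat_lit 9) t826)))))))))))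
noncomputable def l12198 : Lb := (@Lb.r r20 (@Lb.d (nat_lit 0) (nat_lit 4) (nat_lit 74) (@Lb.g g9 (@Lb.g g10 (@Lb.g g11 (@Lb.r r2691 (@Lb.r r1446 (@Lb.r r1317 (@Lb.d (nat_lit 324) (nat_lit 146) (nat_lit 680) (@Lb.t (@Lb.fp (nat_lit 9) t2288)))))))))))
noncomputable def l12199 : Lb := (@Lb.d (nat_lit 1) (nat_lit 256) (nat_lit 130) (@Lb.g g8 (@Lb.g g9 (@Lb.g g10 (@Lb.g g11 (@Lb.r r618 (@Lb.r r612 (@Lb.r r615 (@Lb.r r609 (@Lb.r r36 (@Lb.d (nat_lit 9) (nat_lit 25) (nat_lit 130) (@Lb.fp (nat_lit 9) t71))))))))))))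
noncomputable def l12200 : Lb := (@Lb.r r21 (@Lb.d (nat_lit 2) (nat_lit 8) (nat_lit 130) (@Lb.g g8 (@Lb.g g10 (@Lb.g g11 (@Lb.r r411 (@Lb.r r408 (@Lb.r r101 (@Lb.r r602 (@Lb.d (nat_lit 105) (nat_lit 33) (nat_lit 130) (@Lb.t (@Lb.fm (nat_lit 9) t119))))))))))))
noncomputable def l12201 : Lb := (@Lb.r r21 (@Lb.r r323 (@Lb.d (nat_lit 0) (nat_lit 0) (nat_lit 2) (@Lb.g g8 (@Lb.g g10 (@Lb.r r1579 (@Lb.r r1121 (@Lb.r r154 (@Lb.r r1176 (@Lb.d (nat_lit 274) (nat_lit 10) (nat_lit 2) (@Lb.fm (nat_lit 3) t626)))))))))))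
noncomputable def l12202 : Lb := (@Lb.d (nat_lit 137) (nat_lit 6) (nat_lit 0) (@Lb.g g8 (@Lb.g g9 (@Lb.g g10 (@Lb.r r1699 (@Lb.r r1194 (@Lb.r r2472 (@Lb.r r25 (@Lb.d (nat_lit 9) (nat_lit 20) (nat_lit 90) (@Lb.t (@Lb.fp (nat_lit 9) t584)))))))))))
noncomputable def l12203 : Lb := (@Lb.d (nat_lit 9) (nat_lit 549) (nat_lit 64) (@Lb.g g8 (@Lb.g g5 (@Lb.g g10 (@Lb.g g11 (@Lb.r r1178 (@Lb.r r1432 (@Lb.r r2343 (@Lb.d (nat_lit 586) (nat_lit 32) (nat_lit 266) (@Lb.fm (nat_lit 9) t144))))))))))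
noncomputable def l12204 : Lb := (@Lb.d (nat_lit 9) (nat_lit 549) (nat_lit 64) (@Lb.g g8 (@Lb.g g5 (@Lb.g g10 (@Lb.g g11 (@Lb.r r1178 (@Lb.r r1412 (@Lb.r r2315 (@Lb.d (nat_lit 394) (nat_lit 0) (nat_lit 266) (@Lb.fp (nat_lit 9) t74))))))))))
noncomputable def l12205 : Lb := (@Lb.r r21 (@Lb.d (nat_lit 130) (nat_lit 4) (nat_lit 9) (@Lb.g g8 (@Lb.g g6 (@Lb.r r407 (@Lb.r r97 (@Lb.r r536 (@Lb.d (nat_lit 74) (nat_lit 34) (nat_lit 129) (@Lb.fp (nat_lit 3) t51)))))))))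
noncomputable def l12206 : Lb := (@Lb.d (nat_lit 9) (nat_lit 1) (nat_lit 2) (@Lb.g g8 (@Lb.g g9 (@Lb.g g10 (@Lb.r r683 (@Lb.r r676 (@Lb.r r166 (@Lb.r r145 (@Lb.d (nat_lit 10) (nat_lit 9) (nat_lit 137) (@Lb.t (@Lb.fm (nat_lit 9) t51)))))))))))
noncomputable def l12207 : Lb := (@Lb.d (nat_lit 40) (nat_lit 1) (nat_lit 65) (@Lb.g g8 (@Lb.g g9 (@Lb.g g10 (@Lb.g g7 (@Lb.r r1450 (@Lb.r r153 (@Lb.r r148 (@Lb.d (nat_lit 36) (nat_lit 168) (nat_lit 258) (@Lb.fp (nat_lit 9) t1219))))))))))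
noncomputable def l12208 : Lb := (@Lb.d (nat_lit 9) (nat_lit 513) (nat_lit 2) (@Lb.g g8 (@Lb.g g9 (@Lb.g g10 (@Lb.r r683 (@Lb.r r676 (@Lb.r r166 (@Lb.r r145 (@Lb.d (nat_lit 9) (nat_lit 4) (nat_lit 136) (@Lb.t (@Lb.fm (nat_lit 9) t51)))))))))))
noncomputable def l12209 : Lb := (@Lb.d (nat_lit 2) (nat_lit 544) (nat_lit 130) (@Lb.g g8 (@Lb.g g10 (@Lb.g g11 (@Lb.r r2337 (@Lb.r r531 (@Lb.r r2154 (@Lb.r r2120 (@Lb.d (nat_lit 41) (nat_lit 33) (nat_lit 6) (@Lb.t (@Lb.fp (nat_lit 9) t282)))))))))))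
noncomputable def l12210 : Lb := (@Lb.d (nat_lit 273) (nat_lit 512) (nat_lit 576) (@Lb.r r1671 (@Lb.r r2666 (@Lb.r r612 (@Lb.r r345 (@Lb.g g7 (@Lb.d (nat_lit 64) (nat_lit 16) (nat_lit 64) (@Lb.t (@Lb.fp (nat_lit 3) t51)))))))))
noncomputable def l12211 : Lb := (@Lb.d (nat_lit 41) (nat_lit 513) (nat_lit 0) (@Lb.g g8 (@Lb.g g9 (@Lb.r r2667 (@Lb.r r390 (@Lb.r r145 (@Lb.r r2632 (@Lb.d (nat_lit 357) (nat_lit 10) (nat_lit 425) (@Lb.fp (nat_lit 3) t51)))))))))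
noncomputable def l12212 : Lb := (@Lb.d (nat_lit 41) (nat_lit 1) (nat_lit 0) (@Lb.g g8 (@Lb.g g9 (@Lb.r r2667 (@Lb.r r390 (@Lb.r r145 (@Lb.r r2632 (@Lb.d (nat_lit 357) (nat_lit 5) (nat_lit 424) (@Lb.fp (nat_lit 3) t51)))))))))
noncomputable def l12213 : Lb := (@Lb.r r70 (@Lb.d (nat_lit 41) (nat_lit 257) (nat_lit 64) (@Lb.g g8 (@Lb.g g9 (@Lb.g g7 (@Lb.r r2646 (@Lb.r r153 (@Lb.r r148 (@Lb.d (nat_lit 36) (nat_lit 90) (nat_lit 642) (@Lb.t (@Lb.fp (nat_lit 9) t1219)))))))))))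
noncomputable def l12214 : Lb := (@Lb.d (nat_lit 32) (nat_lit 546) (nat_lit 0) (@Lb.g g9 (@Lb.g g10 (@Lb.r r1559 (@Lb.r r2340 (@Lb.r r2453 (@Lb.r r2130 (@Lb.d (nat_lit 105) (nat_lit 134) (nat_lit 280) (@Lb.fp (nat_lit 3) t2)))))))))
noncomputable def l12215 : Lb := (@Lb.r r275 (@Lb.d (nat_lit 0) (nat_lit 0) (nat_lit 2) (@Lb.g g4 (@Lb.g g9 (@Lb.g g10 (@Lb.r r657 (@Lb.r r531 (@Lb.r r386 (@Lb.d (nat_lit 1) (nat_lit 0) (nat_lit 68) (@Lb.t (@Lb.fp (nat_lit 9) t546)))))))))))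
noncomputable def l12216 : Lb := (@Lb.d (nat_lit 288) (nat_lit 512) (nat_lit 2) (@Lb.r r24 (@Lb.r r85 (@Lb.r r98 (@Lb.r r2371 (@Lb.g g6 (@Lb.g g5 (@Lb.d (nat_lit 0) (nat_lit 2) (nat_lit 1) (@Lb.fp (nat_lit 3) t58)))))))))
noncomputable def l12217 : Lb := (@Lb.d (nat_lit 73) (nat_lit 128) (nat_lit 70) (@Lb.r r24 (@Lb.r r421 (@Lb.r r418 (@Lb.r r2371 (@Lb.g g6 (@Lb.g g5 (@Lb.d (nat_lit 0) (nat_lit 18) (nat_lit 1) (@Lb.fp (nat_lit 3) t233)))))))))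
noncomputable def l12218 : Lb := (@Lb.d (nat_lit 128) (nat_lit 514) (nat_lit 130) (@Lb.g g8 (@Lb.g g9 (@Lb.g g10 (@Lb.g g11 (@Lb.r r2710 (@Lb.r r360 (@Lb.r r1319 (@Lb.r r405 (@Lb.r r2084 (@Lb.d (nat_lit 26) (nat_lit 130) (nat_lit 674) (@Lb.fp (nat_lit 9) t2805))))))))))))
noncomputable def l12219 : Lb := (@Lb.r r323 (@Lb.d (nat_lit 32) (nat_lit 2) (nat_lit 2) (@Lb.g g8 (@Lb.g g9 (@Lb.g g10 (@Lb.r r1689 (@Lb.r r1563 (@Lb.r r2634 (@Lb.r r1540 (@Lb.d (nat_lit 257) (nat_lit 0) (nat_lit 401) (@Lb.t (@Lb.fp (nat_lit 9) t163))))))))))))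
noncomputable def l12220 : Lb := (@Lb.r r323 (@Lb.d (nat_lit 8) (nat_lit 514) (nat_lit 1) (@Lb.g g8 (@Lb.g g9 (@Lb.g g6 (@Lb.r r1323 (@Lb.r r2145 (@Lb.r r24 (@Lb.d (nat_lit 266) (nat_lit 73) (nat_lit 98) (@Lb.t (@Lb.fp (nat_lit 9) t314)))))))))))
noncomputable def l12221 : Lb := (@Lb.d (nat_lit 9) (nat_lit 513) (nat_lit 74) (@Lb.g g8 (@Lb.g g9 (@Lb.g g10 (@Lb.g g11 (@Lb.r r2731 (@Lb.r r2724 (@Lb.r r2214 (@Lb.r r145 (@Lb.d (nat_lit 521) (nat_lit 73) (nat_lit 137) (@Lb.fp (nat_lit 9) t51)))))))))))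
noncomputable def l12222 : Lb := (@Lb.r r21 (@Lb.d (nat_lit 130) (nat_lit 260) (nat_lit 9) (@Lb.g g8 (@Lb.g g6 (@Lb.r r407 (@Lb.r r97 (@Lb.r r536 (@Lb.d (nat_lit 69) (nat_lit 33) (nat_lit 129) (@Lb.fp (nat_lit 3) t51)))))))))
noncomputable def l12223 : Lb := (@Lb.d (nat_lit 9) (nat_lit 257) (nat_lit 2) (@Lb.g g8 (@Lb.g g9 (@Lb.g g10 (@Lb.r r683 (@Lb.r r676 (@Lb.r r166 (@Lb.r r145 (@Lb.d (nat_lit 5) (nat_lit 8) (nat_lit 137) (@Lb.t (@Lb.fm (nat_lit 9) t51)))))))))))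
noncomputable def l12224 : Lb := (@Lb.d (nat_lit 9) (nat_lit 513) (nat_lit 2) (@Lb.g g8 (@Lb.g g9 (@Lb.g g10 (@Lb.r r683 (@Lb.r r676 (@Lb.r r166 (@Lb.r r145 (@Lb.d (nat_lit 5) (nat_lit 6) (nat_lit 136) (@Lb.t (@Lb.fm (nat_lit 9) t51)))))))))))
noncomputable def l12225 : Lb := (@Lb.d (nat_lit 8) (nat_lit 258) (nat_lit 0) (@Lb.g g9 (@Lb.r r402 (@Lb.r r2631 (@Lb.d (nat_lit 72) (nat_lit 80) (nat_lit 576) (@Lb.t (@Lb.fp (nat_lit 3) t899)))))))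
noncomputable def l12226 : Lb := (@Lb.d (nat_lit 2) (nat_lit 514) (nat_lit 2) (@Lb.g g8 (@Lb.g g9 (@Lb.g g10 (@Lb.g g11 (@Lb.r r1706 (@Lb.r r680 (@Lb.r r555 (@Lb.r r1553 (@Lb.r r2084 (@Lb.d (nat_lit 5) (nat_lit 96) (nat_lit 586) (@Lb.fm (nat_lit 9) t51))))))))))))
noncomputable def l12227 : Lb := (@Lb.d (nat_lit 38) (nat_lit 517) (nat_lit 128) (@Lb.g g8 (@Lb.g g9 (@Lb.g g10 (@Lb.g g11 (@Lb.r r1362 (@Lb.r r2715 (@Lb.r r1561 (@Lb.r r612 (@Lb.d (nat_lit 164) (nat_lit 145) (nat_lit 169) (@Lb.fm (nat_lit 9) t2083)))))))))))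
noncomputable def l12228 : Lb := (@Lb.d (nat_lit 9) (nat_lit 1) (nat_lit 128) (@Lb.g g8 (@Lb.g g9 (@Lb.g g10 (@Lb.g g11 (@Lb.r r676 (@Lb.r r263 (@Lb.r r162 (@Lb.r r145 (@Lb.r r516 (@Lb.d (nat_lit 6) (nat_lit 5) (nat_lit 136) (@Lb.fm (nat_lit 9) t51))))))))))))
noncomputable def l12229 : Lb := (@Lb.r r20 (@Lb.d (nat_lit 136) (nat_lit 2) (nat_lit 162) (@Lb.g g9 (@Lb.g g6 (@Lb.g g11 (@Lb.r r264 (@Lb.r r2455 (@Lb.r r1697 (@Lb.d (nat_lit 298) (nat_lit 105) (nat_lit 673) (@Lb.t (@Lb.fp (nat_lit 9) t296)))))))))))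
noncomputable def l12230 : Lb := (@Lb.d (nat_lit 2) (nat_lit 514) (nat_lit 162) (@Lb.g g8 (@Lb.g g9 (@Lb.g g6 (@Lb.g g11 (@Lb.r r612 (@Lb.r r2311 (@Lb.r r97 (@Lb.r r1540 (@Lb.d (nat_lit 1) (nat_lit 105) (nat_lit 640) (@Lb.fp (nat_lit 9) t296)))))))))))
noncomputable def l12231 : Lb := (@Lb.d (nat_lit 32) (nat_lit 0) (nat_lit 2) (@Lb.g g6 (@Lb.r r24 (@Lb.r r2341 (@Lb.r r659 (@Lb.r r2706 (@Lb.d (nat_lit 0) (nat_lit 26) (nat_lit 410) (@Lb.t (@Lb.fm (nat_lit 3) t126)))))))))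
noncomputable def l12232 : Lb := (@Lb.d (nat_lit 0) (nat_lit 2) (nat_lit 132) (@Lb.g g9 (@Lb.g g10 (@Lb.g g7 (@Lb.r r386 (@Lb.r r104 (@Lb.r r25 (@Lb.d (nat_lit 22) (nat_lit 8) (nat_lit 82) (@Lb.t (@Lb.fp (nat_lit 9) t40))))))))))
noncomputable def l12233 : Lb := (@Lb.d (nat_lit 2) (nat_lit 256) (nat_lit 0) (@Lb.g g8 (@Lb.g g5 (@Lb.r r2331 (@Lb.r r24 (@Lb.d (nat_lit 265) (nat_lit 0) (nat_lit 64) (@Lb.fm (nat_lit 3) t1165)))))))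
noncomputable def l12234 : Lb := (@Lb.r r82 (@Lb.d (nat_lit 2) (nat_lit 2) (nat_lit 0) (@Lb.g g8 (@Lb.g g9 (@Lb.g g11 (@Lb.r r1642 (@Lb.r r1561 (@Lb.d (nat_lit 585) (nat_lit 0) (nat_lit 640) (@Lb.t (@Lb.fm (nat_lit 9) t225))))))))))
noncomputable def l12235 : Lb := (@Lb.r r82 (@Lb.d (nat_lit 2) (nat_lit 289) (nat_lit 136) (@Lb.g g8 (@Lb.g g9 (@Lb.g g11 (@Lb.r r1625 (@Lb.r r98 (@Lb.d (nat_lit 609) (nat_lit 152) (nat_lit 665) (@Lb.t (@Lb.fm (nat_lit 9) t225))))))))))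
noncomputable def l12236 : Lb := (@Lb.d (nat_lit 26) (nat_lit 516) (nat_lit 65) (@Lb.r r260 (@Lb.r r619 (@Lb.r r612 (@Lb.r r338 (@Lb.g g7 (@Lb.g g6 (@Lb.g g5 (@Lb.g g4 (@Lb.d (nat_lit 1) (nat_lit 18) (nat_lit 129) (@Lb.fm (nat_lit 9) t242)))))))))))
noncomputable def l12237 : Lb := (@Lb.d (nat_lit 0) (nat_lit 265) (nat_lit 130) (@Lb.g g9 (@Lb.g g10 (@Lb.g g11 (@Lb.r r2663 (@Lb.r r1368 (@Lb.r r2214 (@Lb.r r2197 (@Lb.d (nat_lit 38) (nat_lit 134) (nat_lit 17) (@Lb.t (@Lb.fp (nat_lit 9) t597)))))))))))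
noncomputable def l12238 : Lb := (@Lb.r r323 (@Lb.d (nat_lit 32) (nat_lit 42) (nat_lit 1) (@Lb.g g9 (@Lb.g g10 (@Lb.r r283 (@Lb.r r280 (@Lb.r r613 (@Lb.r r402 (@Lb.d (nat_lit 34) (nat_lit 25) (nat_lit 137) (@Lb.fp (nat_lit 3) t5))))))))))
noncomputable def l12239 : Lb := (@Lb.g g5 (@Lb.r r260 (@Lb.r r523 (@Lb.r r1154 (@Lb.r r1057 (@Lb.r r516 (@Lb.t (@Lb.fp (nat_lit 3) t980))))))))
noncomputable def l12240 : Lb := (@Lb.d (nat_lit 2) (nat_lit 258) (nat_lit 130) (@Lb.g g8 (@Lb.g g9 (@Lb.g g10 (@Lb.g g11 (@Lb.r r1689 (@Lb.r r1691 (@Lb.r r1610 (@Lb.d (nat_lit 97) (nat_lit 10) (nat_lit 665) (@Lb.fm (nat_lit 9) t1756))))))))))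
noncomputable def l12241 : Lb := (@Lb.g g5 (@Lb.r r89 (@Lb.r r1126 (@Lb.r r24 (@Lb.d (nat_lit 513) (nat_lit 512) (nat_lit 32) (@Lb.t (@Lb.fp (nat_lit 3) t2806)))))))
noncomputable def l12242 : Lb := (@Lb.d (nat_lit 2) (nat_lit 9) (nat_lit 129) (@Lb.g g8 (@Lb.g g9 (@Lb.g g10 (@Lb.g g11 (@Lb.r r427 (@Lb.r r106 (@Lb.r r145 (@Lb.d (nat_lit 277) (nat_lit 8) (nat_lit 170) (@Lb.fp (nat_lit 9) t2807))))))))))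
noncomputable def l12243 : Lb := (@Lb.d (nat_lit 401) (nat_lit 522) (nat_lit 128) (@Lb.r r1604 (@Lb.r r402 (@Lb.r r89 (@Lb.g g11 (@Lb.g g4 (@Lb.d (nat_lit 5) (nat_lit 0) (nat_lit 128) (@Lb.fm (nat_lit 3) t2312))))))))
noncomputable def l12244 : Lb := (@Lb.g g5 (@Lb.r r1379 (@Lb.r r89 (@Lb.r r1126 (@Lb.r r24 (@Lb.d (nat_lit 130) (nat_lit 256) (nat_lit 416) (@Lb.t (@Lb.fp (nat_lit 3) t1775))))))))
noncomputable def l12245 : Lb := (@Lb.d (nat_lit 4) (nat_lit 520) (nat_lit 64) (@Lb.g g5 (@Lb.g g11 (@Lb.r r2587 (@Lb.r r1126 (@Lb.r r24 (@Lb.d (nat_lit 577) (nat_lit 1) (nat_lit 578) (@Lb.fp (nat_lit 3) t1775))))))))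
noncomputable def l12246 : Lb := (@Lb.d (nat_lit 4) (nat_lit 257) (nat_lit 2) (@Lb.g g5 (@Lb.g g10 (@Lb.g g7 (@Lb.r r2458 (@Lb.r r24 (@Lb.d (nat_lit 146) (nat_lit 1) (nat_lit 297) (@Lb.t (@Lb.fm (nat_lit 9) t282)))))))))
noncomputable def l12247 : Lb := (@Lb.d (nat_lit 2) (nat_lit 2) (nat_lit 130) (@Lb.g g8 (@Lb.g g9 (@Lb.g g10 (@Lb.g g11 (@Lb.r r1689 (@Lb.r r1691 (@Lb.r r1610 (@Lb.d (nat_lit 97) (nat_lit 0) (nat_lit 666) (@Lb.fm (nat_lit 9) t1756))))))))))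
noncomputable def l12248 : Lb := (@Lb.d (nat_lit 130) (nat_lit 641) (nat_lit 0) (@Lb.g g8 (@Lb.g g9 (@Lb.r r263 (@Lb.r r1154 (@Lb.r r520 (@Lb.d (nat_lit 66) (nat_lit 129) (nat_lit 0) (@Lb.fm (nat_lit 3) t980))))))))
noncomputable def l12249 : Lb := (@Lb.d (nat_lit 2) (nat_lit 514) (nat_lit 130) (@Lb.g g8 (@Lb.g g9 (@Lb.g g10 (@Lb.g g11 (@Lb.r r683 (@Lb.r r161 (@Lb.r r600 (@Lb.r r102 (@Lb.r r132 (@Lb.d (nat_lit 10) (nat_lit 2) (nat_lit 137) (@Lb.fm (nat_lit 9) t61))))))))))))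
noncomputable def l12250 : Lb := (@Lb.d (nat_lit 2) (nat_lit 2) (nat_lit 2) (@Lb.g g8 (@Lb.g g9 (@Lb.g g10 (@Lb.r r1689 (@Lb.r r1691 (@Lb.r r1610 (@Lb.d (nat_lit 336) (nat_lit 10) (nat_lit 648) (@Lb.t (@Lb.fp (nat_lit 9) t1394))))))))))
noncomputable def l12251 : Lb := (@Lb.r r82 (@Lb.g g9 (@Lb.g g7 (@Lb.r r422 (@Lb.r r596 (@Lb.r r297 (@Lb.d (nat_lit 2) (nat_lit 642) (nat_lit 320) (@Lb.fp (nat_lit 3) t2808))))))))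
noncomputable def l12252 : Lb := (@Lb.r r2641 (@Lb.d (nat_lit 0) (nat_lit 544) (nat_lit 576) (@Lb.g g10 (@Lb.g g11 (@Lb.r r1602 (@Lb.d (nat_lit 0) (nat_lit 130) (nat_lit 672) (@Lb.fm (nat_lit 3) t1413)))))))
noncomputable def l12253 : Lb := (@Lb.d (nat_lit 0) (nat_lit 420) (nat_lit 389) (@Lb.g g9 (@Lb.g g10 (@Lb.g g11 (@Lb.r r2658 (@Lb.d (nat_lit 0) (nat_lit 89) (nat_lit 384) (@Lb.t (@Lb.fm (nat_lit 9) t1413))))))))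
noncomputable def l12254 : Lb := (@Lb.d (nat_lit 2) (nat_lit 2) (nat_lit 66) (@Lb.g g8 (@Lb.g g9 (@Lb.g g10 (@Lb.g g11 (@Lb.r r417 (@Lb.r r339 (@Lb.r r1610 (@Lb.r r2193 (@Lb.d (nat_lit 85) (nat_lit 1) (nat_lit 665) (@Lb.fm (nat_lit 9) t1741)))))))))))
noncomputable def l12255 : Lb := (@Lb.d (nat_lit 1) (nat_lit 258) (nat_lit 130) (@Lb.g g8 (@Lb.g g9 (@Lb.g g10 (@Lb.g g11 (@Lb.r r683 (@Lb.r r161 (@Lb.r r600 (@Lb.r r102 (@Lb.r r132 (@Lb.d (nat_lit 10) (nat_lit 2) (nat_lit 68) (@Lb.fm (nat_lit 9) t61))))))))))))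
noncomputable def l12256 : Lb := (@Lb.r r323 (@Lb.d (nat_lit 8) (nat_lit 554) (nat_lit 2) (@Lb.g g9 (@Lb.g g10 (@Lb.r r2470 (@Lb.r r1624 (@Lb.r r1691 (@Lb.r r2469 (@Lb.d (nat_lit 610) (nat_lit 100) (nat_lit 682) (@Lb.fm (nat_lit 3) t255))))))))))
noncomputable def l12257 : Lb := (@Lb.d (nat_lit 0) (nat_lit 416) (nat_lit 596) (@Lb.fp (nat_lit 1) t2809))
noncomputable def l12258 : Lb := (@Lb.d (nat_lit 0) (nat_lit 416) (nat_lit 596) (@Lb.g g5 (@Lb.t (@Lb.fm (nat_lit 3) t2810))))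
noncomputable def l12259 : Lb := (@Lb.d (nat_lit 0) (nat_lit 0) (nat_lit 9) (@Lb.g g10 (@Lb.r r595 (@Lb.r r386 (@Lb.d (nat_lit 0) (nat_lit 100) (nat_lit 144) (@Lb.t (@Lb.fp (nat_lit 3) t356)))))))
noncomputable def l12260 : Lb := (@Lb.d (nat_lit 0) (nat_lit 0) (nat_lit 136) (@Lb.g g7 (@Lb.r r658 (@Lb.r r2707 (@Lb.d (nat_lit 0) (nat_lit 21) (nat_lit 617) (@Lb.t (@Lb.fm (nat_lit 3) t334)))))))
noncomputable def l12261 : Lb := (@Lb.d (nat_lit 0) (nat_lit 512) (nat_lit 2) (@Lb.g g10 (@Lb.r r595 (@Lb.r r386 (@Lb.d (nat_lit 0) (nat_lit 105) (nat_lit 145) (@Lb.t (@Lb.fp (nat_lit 3) t356)))))))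
noncomputable def l12262 : Lb := (@Lb.d (nat_lit 2) (nat_lit 33) (nat_lit 130) (@Lb.g g8 (@Lb.g g9 (@Lb.g g10 (@Lb.g g11 (@Lb.r r1706 (@Lb.r r1704 (@Lb.r r1579 (@Lb.r r1561 (@Lb.d (nat_lit 580) (nat_lit 32) (nat_lit 586) (@Lb.fm (nat_lit 9) t144)))))))))))
noncomputable def l12263 : Lb := (@Lb.d (nat_lit 138) (nat_lit 608) (nat_lit 128) (@Lb.r r273 (@Lb.r r295 (@Lb.r r584 (@Lb.r r342 (@Lb.g g7 (@Lb.g g6 (@Lb.g g5 (@Lb.d (nat_lit 0) (nat_lit 2) (nat_lit 64) (@Lb.t (@Lb.fm (nat_lit 9) t1506)))))))))))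
noncomputable def l12264 : Lb := (@Lb.d (nat_lit 2) (nat_lit 514) (nat_lit 130) (@Lb.g g8 (@Lb.g g9 (@Lb.g g10 (@Lb.g g11 (@Lb.r r427 (@Lb.r r386 (@Lb.r r104 (@Lb.r r2153 (@Lb.d (nat_lit 100) (nat_lit 137) (nat_lit 100) (@Lb.fm (nat_lit 9) t873)))))))))))
noncomputable def l12265 : Lb := (@Lb.d (nat_lit 144) (nat_lit 256) (nat_lit 130) (@Lb.g g6 (@Lb.g g11 (@Lb.r r264 (@Lb.r r599 (@Lb.r r409 (@Lb.d (nat_lit 36) (nat_lit 10) (nat_lit 2) (@Lb.fp (nat_lit 3) t714))))))))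
noncomputable def l12266 : Lb := (@Lb.d (nat_lit 386) (nat_lit 512) (nat_lit 394) (@Lb.r r24 (@Lb.r r101 (@Lb.r r2642 (@Lb.r r2371 (@Lb.g g10 (@Lb.t (@Lb.fp (nat_lit 3) t2811))))))))
noncomputable def l12267 : Lb := (@Lb.d (nat_lit 0) (nat_lit 512) (nat_lit 132) (@Lb.g g7 (@Lb.r r24 (@Lb.r r101 (@Lb.d (nat_lit 0) (nat_lit 133) (nat_lit 70) (@Lb.t (@Lb.fm (nat_lit 3) t126)))))))
noncomputable def l12268 : Lb := (@Lb.d (nat_lit 512) (nat_lit 514) (nat_lit 1) (@Lb.r r24 (@Lb.r r386 (@Lb.r r2651 (@Lb.g g9 (@Lb.d (nat_lit 8) (nat_lit 1) (nat_lit 0) (@Lb.r r291 (@Lb.r r98 (@Lb.t (@Lb.fm (nat_lit 3) t719))))))))))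
noncomputable def l12269 : Lb := (@Lb.r r21 (@Lb.d (nat_lit 130) (nat_lit 512) (nat_lit 66) (@Lb.g g8 (@Lb.g g10 (@Lb.g g11 (@Lb.r r644 (@Lb.r r519 (@Lb.r r386 (@Lb.r r25 (@Lb.d (nat_lit 162) (nat_lit 5) (nat_lit 73) (@Lb.t (@Lb.fm (nat_lit 9) t1178))))))))))))
noncomputable def l12270 : Lb := (@Lb.d (nat_lit 32) (nat_lit 520) (nat_lit 130) (@Lb.g g10 (@Lb.g g11 (@Lb.r r361 (@Lb.r r2711 (@Lb.r r1352 (@Lb.r r1382 (@Lb.d (nat_lit 341) (nat_lit 68) (nat_lit 405) (@Lb.fp (nat_lit 3) t71)))))))))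
noncomputable def l12271 : Lb := (@Lb.d (nat_lit 134) (nat_lit 289) (nat_lit 66) (@Lb.g g8 (@Lb.g g9 (@Lb.g g10 (@Lb.g g11 (@Lb.r r662 (@Lb.r r356 (@Lb.r r1323 (@Lb.r r401 (@Lb.d (nat_lit 549) (nat_lit 129) (nat_lit 641) (@Lb.fm (nat_lit 9) t2812)))))))))))
noncomputable def l12272 : Lb := (@Lb.d (nat_lit 0) (nat_lit 512) (nat_lit 72) (@Lb.g g11 (@Lb.r r1366 (@Lb.r r2692 (@Lb.r r2439 (@Lb.r r1057 (@Lb.d (nat_lit 610) (nat_lit 152) (nat_lit 665) (@Lb.t (@Lb.fm (nat_lit 3) t918)))))))))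
noncomputable def l12273 : Lb := (@Lb.d (nat_lit 34) (nat_lit 512) (nat_lit 0) (@Lb.g g8 (@Lb.r r2635 (@Lb.r r2134 (@Lb.r r1057 (@Lb.r r1156 (@Lb.d (nat_lit 290) (nat_lit 0) (nat_lit 2) (@Lb.t (@Lb.fp (nat_lit 3) t2211)))))))))
noncomputable def l12274 : Lb := (@Lb.d (nat_lit 645) (nat_lit 322) (nat_lit 256) (@Lb.r r1348 (@Lb.r r2699 (@Lb.r r682 (@Lb.r r664 (@Lb.g g9 (@Lb.d (nat_lit 0) (nat_lit 129) (nat_lit 0) (@Lb.t (@Lb.fm (nat_lit 3) t2813)))))))))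
noncomputable def l12275 : Lb := (@Lb.r r323 (@Lb.d (nat_lit 5) (nat_lit 256) (nat_lit 1) (@Lb.g g4 (@Lb.g g6 (@Lb.r r387 (@Lb.d (nat_lit 1) (nat_lit 6) (nat_lit 64) (@Lb.fm (nat_lit 3) t45)))))))
noncomputable def l12276 : Lb := (@Lb.d (nat_lit 32) (nat_lit 0) (nat_lit 2) (@Lb.g g9 (@Lb.g g10 (@Lb.g g11 (@Lb.r r1707 (@Lb.r r2713 (@Lb.r r100 (@Lb.r r410 (@Lb.d (nat_lit 644) (nat_lit 25) (nat_lit 153) (@Lb.t (@Lb.fm (nat_lit 9) t284)))))))))))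
noncomputable def l12277 : Lb := (@Lb.d (nat_lit 0) (nat_lit 18) (nat_lit 0) (@Lb.g g5 (@Lb.r r535 (@Lb.r r328 (@Lb.r r134 (@Lb.d (nat_lit 2) (nat_lit 1) (nat_lit 1) (@Lb.t (@Lb.fp (nat_lit 3) t319))))))))
noncomputable def l12278 : Lb := (@Lb.r r536 (@Lb.r r533 (@Lb.r r663 (@Lb.r r682 (@Lb.r r100 (@Lb.d (nat_lit 0) (nat_lit 0) (nat_lit 16) (@Lb.fm (nat_lit 1) t221)))))))
noncomputable def l12279 : Lb := (@Lb.r r536 (@Lb.r r533 (@Lb.r r663 (@Lb.r r682 (@Lb.r r100 (@Lb.d (nat_lit 0) (nat_lit 512) (nat_lit 85) (@Lb.fm (nat_lit 1) t221)))))))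
noncomputable def l12280 : Lb := (@Lb.d (nat_lit 0) (nat_lit 514) (nat_lit 130) (@Lb.g g8 (@Lb.g g9 (@Lb.g g10 (@Lb.g g11 (@Lb.r r148 (@Lb.r r102 (@Lb.r r357 (@Lb.r r667 (@Lb.r r644 (@Lb.d (nat_lit 9) (nat_lit 4) (nat_lit 72) (@Lb.fp (nat_lit 9) t45))))))))))))
noncomputable def l12281 : Lb := (@Lb.r r82 (@Lb.r r275 (@Lb.d (nat_lit 4) (nat_lit 513) (nat_lit 0) (@Lb.g g8 (@Lb.g g9 (@Lb.r r2201 (@Lb.r r402 (@Lb.r r2631 (@Lb.r r1288 (@Lb.d (nat_lit 64) (nat_lit 0) (nat_lit 576) (@Lb.fp (nat_lit 3) t644)))))))))))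
noncomputable def l12282 : Lb := (@Lb.d (nat_lit 0) (nat_lit 258) (nat_lit 0) (@Lb.g g8 (@Lb.g g9 (@Lb.r r1315 (@Lb.r r1122 (@Lb.r r25 (@Lb.r r24 (@Lb.d (nat_lit 265) (nat_lit 2) (nat_lit 0) (@Lb.fp (nat_lit 3) t284)))))))))
noncomputable def l12283 : Lb := (@Lb.d (nat_lit 1) (nat_lit 258) (nat_lit 2) (@Lb.r r289 (@Lb.r r279 (@Lb.r r584 (@Lb.g g10 (@Lb.d (nat_lit 32) (nat_lit 0) (nat_lit 17) (@Lb.r r387 (@Lb.t (@Lb.fp (nat_lit 3) t41)))))))))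
noncomputable def l12284 : Lb := (@Lb.r r134 (@Lb.r r328 (@Lb.r r535 (@Lb.r r289 (@Lb.d (nat_lit 0) (nat_lit 517) (nat_lit 1) (@Lb.fp (nat_lit 1) t51))))))
noncomputable def l12285 : Lb := (@Lb.d (nat_lit 0) (nat_lit 2) (nat_lit 0) (@Lb.g g8 (@Lb.g g9 (@Lb.r r25 (@Lb.d (nat_lit 9) (nat_lit 10) (nat_lit 2) (@Lb.fm (nat_lit 3) t21))))))
noncomputable def l12286 : Lb := (@Lb.d (nat_lit 0) (nat_lit 258) (nat_lit 0) (@Lb.g g8 (@Lb.g g9 (@Lb.r r1315 (@Lb.r r1122 (@Lb.r r25 (@Lb.r r24 (@Lb.d (nat_lit 257) (nat_lit 0) (nat_lit 0) (@Lb.fp (nat_lit 3) t284)))))))))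
noncomputable def l12287 : Lb := (@Lb.d (nat_lit 532) (nat_lit 33) (nat_lit 170) (@Lb.r r410 (@Lb.r r613 (@Lb.r r299 (@Lb.r r264 (@Lb.g g7 (@Lb.g g6 (@Lb.g g5 (@Lb.d (nat_lit 80) (nat_lit 0) (nat_lit 65) (@Lb.t (@Lb.fm (nat_lit 9) t406)))))))))))
noncomputable def l12288 : Lb := (@Lb.d (nat_lit 4) (nat_lit 37) (nat_lit 4) (@Lb.r r359 (@Lb.r r421 (@Lb.r r106 (@Lb.r r72 (@Lb.g g7 (@Lb.g g6 (@Lb.g g5 (@Lb.d (nat_lit 84) (nat_lit 5) (nat_lit 66) (@Lb.t (@Lb.fp (nat_lit 9) t45)))))))))))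
noncomputable def l12289 : Lb := (@Lb.d (nat_lit 128) (nat_lit 256) (nat_lit 64) (@Lb.g g11 (@Lb.r r264 (@Lb.r r279 (@Lb.r r402 (@Lb.r r609 (@Lb.d (nat_lit 26) (nat_lit 74) (nat_lit 18) (@Lb.t (@Lb.fm (nat_lit 3) t334)))))))))
noncomputable def l12290 : Lb := (@Lb.d (nat_lit 32) (nat_lit 258) (nat_lit 73) (@Lb.g g9 (@Lb.g g10 (@Lb.g g11 (@Lb.r r2709 (@Lb.r r1380 (@Lb.r r2715 (@Lb.r r2634 (@Lb.d (nat_lit 353) (nat_lit 10) (nat_lit 257) (@Lb.t (@Lb.fp (nat_lit 9) t564)))))))))))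
noncomputable def l12291 : Lb := (@Lb.d (nat_lit 128) (nat_lit 256) (nat_lit 292) (@Lb.r r24 (@Lb.r r85 (@Lb.r r1315 (@Lb.g g10 (@Lb.g g9 (@Lb.d (nat_lit 0) (nat_lit 1) (nat_lit 8) (@Lb.r r387 (@Lb.fp (nat_lit 3) t475)))))))))
noncomputable def l12292 : Lb := (@Lb.d (nat_lit 136) (nat_lit 514) (nat_lit 64) (@Lb.g g9 (@Lb.g g11 (@Lb.r r264 (@Lb.r r279 (@Lb.r r402 (@Lb.r r609 (@Lb.d (nat_lit 26) (nat_lit 69) (nat_lit 17) (@Lb.fp (nat_lit 3) t334)))))))))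
noncomputable def l12293 : Lb := (@Lb.d (nat_lit 550) (nat_lit 324) (nat_lit 17) (@Lb.r r1114 (@Lb.r r1096 (@Lb.r r1555 (@Lb.g g6 (@Lb.g g9 (@Lb.d (nat_lit 16) (nat_lit 129) (nat_lit 1) (@Lb.r r387 (@Lb.fp (nat_lit 3) t2814)))))))))
noncomputable def l12294 : Lb := (@Lb.g g4 (@Lb.r r516 (@Lb.r r2439 (@Lb.r r402 (@Lb.r r2137 (@Lb.r r20 (@Lb.t (@Lb.fp (nat_lit 3) t468))))))))
noncomputable def l12295 : Lb := (@Lb.d (nat_lit 2) (nat_lit 256) (nat_lit 0) (@Lb.g g8 (@Lb.r r425 (@Lb.r r1442 (@Lb.r r1371 (@Lb.r r2705 (@Lb.d (nat_lit 1) (nat_lit 0) (nat_lit 0) (@Lb.t (@Lb.fp (nat_lit 3) t468)))))))))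
noncomputable def l12296 : Lb := (@Lb.r r82 (@Lb.d (nat_lit 41) (nat_lit 257) (nat_lit 8) (@Lb.g g8 (@Lb.g g9 (@Lb.g g11 (@Lb.r r402 (@Lb.r r359 (@Lb.r r516 (@Lb.d (nat_lit 153) (nat_lit 1) (nat_lit 128) (@Lb.t (@Lb.fp (nat_lit 9) t720)))))))))))
noncomputable def l12297 : Lb := (@Lb.d (nat_lit 354) (nat_lit 289) (nat_lit 517) (@Lb.r r330 (@Lb.r r360 (@Lb.r r1299 (@Lb.g g7 (@Lb.g g6 (@Lb.g g9 (@Lb.d (nat_lit 16) (nat_lit 129) (nat_lit 134) (@Lb.t (@Lb.fp (nat_lit 9) t2814))))))))))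
noncomputable def l12298 : Lb := (@Lb.d (nat_lit 2) (nat_lit 2) (nat_lit 74) (@Lb.g g8 (@Lb.g g9 (@Lb.g g10 (@Lb.g g11 (@Lb.r r673 (@Lb.r r295 (@Lb.r r664 (@Lb.r r154 (@Lb.d (nat_lit 17) (nat_lit 129) (nat_lit 170) (@Lb.fm (nat_lit 9) t232)))))))))))
noncomputable def l12299 : Lb := (@Lb.r r323 (@Lb.d (nat_lit 0) (nat_lit 256) (nat_lit 2) (@Lb.g g9 (@Lb.g g10 (@Lb.r r675 (@Lb.r r2214 (@Lb.r r2644 (@Lb.r r1321 (@Lb.d (nat_lit 70) (nat_lit 34) (nat_lit 256) (@Lb.fp (nat_lit 3) t1371))))))))))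
noncomputable def l12300 : Lb := (@Lb.r r323 (@Lb.d (nat_lit 0) (nat_lit 2) (nat_lit 0) (@Lb.g g9 (@Lb.g g10 (@Lb.r r1699 (@Lb.r r166 (@Lb.r r88 (@Lb.r r37 (@Lb.d (nat_lit 5) (nat_lit 65) (nat_lit 0) (@Lb.fm (nat_lit 3) t2815))))))))))
noncomputable def l12301 : Lb := (@Lb.r r275 (@Lb.d (nat_lit 0) (nat_lit 0) (nat_lit 2) (@Lb.g g9 (@Lb.g g10 (@Lb.r r1699 (@Lb.r r386 (@Lb.r r613 (@Lb.r r24 (@Lb.d (nat_lit 354) (nat_lit 0) (nat_lit 384) (@Lb.fm (nat_lit 3) t811))))))))))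
noncomputable def l12302 : Lb := (@Lb.d (nat_lit 1) (nat_lit 514) (nat_lit 74) (@Lb.g g8 (@Lb.g g9 (@Lb.g g10 (@Lb.g g11 (@Lb.r r673 (@Lb.r r295 (@Lb.r r664 (@Lb.r r154 (@Lb.d (nat_lit 17) (nat_lit 129) (nat_lit 101) (@Lb.fm (nat_lit 9) t232)))))))))))
noncomputable def l12303 : Lb := (@Lb.d (nat_lit 2) (nat_lit 514) (nat_lit 2) (@Lb.g g8 (@Lb.g g9 (@Lb.g g10 (@Lb.g g7 (@Lb.r r2089 (@Lb.r r104 (@Lb.r r70 (@Lb.r r132 (@Lb.d (nat_lit 130) (nat_lit 10) (nat_lit 613) (@Lb.fm (nat_lit 9) t2816)))))))))))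
noncomputable def l12304 : Lb := (@Lb.d (nat_lit 0) (nat_lit 4) (nat_lit 41) (@Lb.g g6 (@Lb.r r2579 (@Lb.d (nat_lit 0) (nat_lit 100) (nat_lit 385) (@Lb.t (@Lb.fp (nat_lit 3) t356))))))
noncomputable def l12305 : Lb := (@Lb.d (nat_lit 2) (nat_lit 258) (nat_lit 2) (@Lb.g g8 (@Lb.g g9 (@Lb.g g10 (@Lb.r r1689 (@Lb.r r2579 (@Lb.r r386 (@Lb.d (nat_lit 289) (nat_lit 162) (nat_lit 361) (@Lb.t (@Lb.fm (nat_lit 9) t791))))))))))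
noncomputable def l12306 : Lb := (@Lb.r r2118 (@Lb.r r2069 (@Lb.r r8 (@Lb.d (nat_lit 256) (nat_lit 256) (nat_lit 0) (@Lb.fm (nat_lit 1) t2817)))))
noncomputable def l12307 : Lb := (@Lb.d (nat_lit 130) (nat_lit 553) (nat_lit 9) (@Lb.g g8 (@Lb.g g9 (@Lb.g g10 (@Lb.r r275 (@Lb.r r1633 (@Lb.r r2646 (@Lb.r r392 (@Lb.d (nat_lit 280) (nat_lit 129) (nat_lit 74) (@Lb.t (@Lb.fm (nat_lit 9) t5)))))))))))
noncomputable def l12308 : Lb := (@Lb.r r2069 (@Lb.r r2118 (@Lb.d (nat_lit 514) (nat_lit 256) (nat_lit 0) (@Lb.g g4 (@Lb.d (nat_lit 1) (nat_lit 0) (nat_lit 0) (@Lb.t (@Lb.fm (nat_lit 3) t1459)))))))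
noncomputable def l12309 : Lb := (@Lb.d (nat_lit 9) (nat_lit 1) (nat_lit 73) (@Lb.g g8 (@Lb.g g9 (@Lb.g g10 (@Lb.g g11 (@Lb.r r586 (@Lb.r r40 (@Lb.r r1433 (@Lb.r r2343 (@Lb.r r1540 (@Lb.d (nat_lit 89) (nat_lit 65) (nat_lit 342) (@Lb.fm (nat_lit 9) t1025))))))))))))
noncomputable def l12310 : Lb := (@Lb.d (nat_lit 9) (nat_lit 257) (nat_lit 130) (@Lb.g g8 (@Lb.g g9 (@Lb.g g10 (@Lb.g g11 (@Lb.r r586 (@Lb.r r40 (@Lb.r r1433 (@Lb.r r2343 (@Lb.r r1540 (@Lb.d (nat_lit 82) (nat_lit 66) (nat_lit 342) (@Lb.fm (nat_lit 9) t1025))))))))))))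
noncomputable def l12311 : Lb := (@Lb.d (nat_lit 9) (nat_lit 513) (nat_lit 130) (@Lb.g g8 (@Lb.g g9 (@Lb.g g10 (@Lb.g g11 (@Lb.r r427 (@Lb.r r297 (@Lb.r r104 (@Lb.r r70 (@Lb.r r132 (@Lb.d (nat_lit 9) (nat_lit 149) (nat_lit 70) (@Lb.fp (nat_lit 9) t119))))))))))))
noncomputable def l12312 : Lb := (@Lb.d (nat_lit 21) (nat_lit 68) (nat_lit 1) (@Lb.r r1128 (@Lb.r r1129 (@Lb.r r1106 (@Lb.r r1619 (@Lb.g g5 (@Lb.g g4 (@Lb.d (nat_lit 16) (nat_lit 1) (nat_lit 0) (@Lb.r r74 (@Lb.fp (nat_lit 3) t2818))))))))))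
noncomputable def l12313 : Lb := (@Lb.d (nat_lit 5) (nat_lit 0) (nat_lit 130) (@Lb.g g8 (@Lb.g g10 (@Lb.g g11 (@Lb.r r602 (@Lb.r r1429 (@Lb.r r2407 (@Lb.r r1668 (@Lb.d (nat_lit 280) (nat_lit 65) (nat_lit 149) (@Lb.t (@Lb.fm (nat_lit 9) t282)))))))))))
noncomputable def l12314 : Lb := (@Lb.d (nat_lit 9) (nat_lit 257) (nat_lit 130) (@Lb.g g8 (@Lb.g g9 (@Lb.g g10 (@Lb.g g11 (@Lb.r r586 (@Lb.r r40 (@Lb.r r1433 (@Lb.r r2343 (@Lb.r r1540 (@Lb.d (nat_lit 89) (nat_lit 65) (nat_lit 408) (@Lb.fm (nat_lit 9) t1025))))))))))))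
noncomputable def l12315 : Lb := (@Lb.d (nat_lit 385) (nat_lit 401) (nat_lit 86) (@Lb.r r2321 (@Lb.r r323 (@Lb.r r1638 (@Lb.g g7 (@Lb.g g5 (@Lb.g g8 (@Lb.d (nat_lit 10) (nat_lit 4) (nat_lit 64) (@Lb.r r98 (@Lb.t (@Lb.fm (nat_lit 9) t30)))))))))))
noncomputable def l12316 : Lb := (@Lb.d (nat_lit 9) (nat_lit 257) (nat_lit 130) (@Lb.g g8 (@Lb.g g9 (@Lb.g g10 (@Lb.g g11 (@Lb.r r427 (@Lb.r r297 (@Lb.r r104 (@Lb.r r70 (@Lb.r r132 (@Lb.d (nat_lit 9) (nat_lit 154) (nat_lit 68) (@Lb.fp (nat_lit 9) t119))))))))))))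
noncomputable def l12317 : Lb := (@Lb.d (nat_lit 258) (nat_lit 512) (nat_lit 16) (@Lb.r r24 (@Lb.r r21 (@Lb.r r2130 (@Lb.r r2643 (@Lb.g g5 (@Lb.g g4 (@Lb.d (nat_lit 1) (nat_lit 1) (nat_lit 0) (@Lb.fm (nat_lit 3) t1221)))))))))
noncomputable def l12318 : Lb := (@Lb.r r21 (@Lb.d (nat_lit 144) (nat_lit 0) (nat_lit 64) (@Lb.g g8 (@Lb.g g10 (@Lb.g g11 (@Lb.r r1355 (@Lb.r r1382 (@Lb.r r97 (@Lb.r r20 (@Lb.d (nat_lit 68) (nat_lit 80) (nat_lit 576) (@Lb.t (@Lb.fp (nat_lit 9) t2819))))))))))))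
noncomputable def l12319 : Lb := (@Lb.r r323 (@Lb.d (nat_lit 33) (nat_lit 2) (nat_lit 5) (@Lb.g g8 (@Lb.g g9 (@Lb.g g6 (@Lb.r r1643 (@Lb.r r1561 (@Lb.r r1540 (@Lb.d (nat_lit 386) (nat_lit 64) (nat_lit 641) (@Lb.t (@Lb.fm (nat_lit 9) t128)))))))))))
noncomputable def l12320 : Lb := (@Lb.d (nat_lit 0) (nat_lit 512) (nat_lit 128) (@Lb.g g5 (@Lb.g g10 (@Lb.g g11 (@Lb.r r658 (@Lb.r r2707 (@Lb.r r2626 (@Lb.d (nat_lit 0) (nat_lit 96) (nat_lit 276) (@Lb.t (@Lb.fp (nat_lit 9) t334))))))))))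
noncomputable def l12321 : Lb := (@Lb.r r81 (@Lb.d (nat_lit 33) (nat_lit 516) (nat_lit 33) (@Lb.g g8 (@Lb.g g10 (@Lb.r r545 (@Lb.r r615 (@Lb.r r388 (@Lb.d (nat_lit 81) (nat_lit 0) (nat_lit 152) (@Lb.fm (nat_lit 3) t41)))))))))
noncomputable def l12322 : Lb := (@Lb.d (nat_lit 9) (nat_lit 2) (nat_lit 130) (@Lb.g g8 (@Lb.g g9 (@Lb.g g10 (@Lb.g g11 (@Lb.r r660 (@Lb.r r1638 (@Lb.r r2661 (@Lb.r r359 (@Lb.r r644 (@Lb.d (nat_lit 10) (nat_lit 129) (nat_lit 330) (@Lb.fm (nat_lit 9) t2))))))))))))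
noncomputable def l12323 : Lb := (@Lb.d (nat_lit 0) (nat_lit 648) (nat_lit 34) (@Lb.r r24 (@Lb.r r402 (@Lb.r r323 (@Lb.g g7 (@Lb.g g6 (@Lb.g g5 (@Lb.d (nat_lit 4) (nat_lit 1) (nat_lit 64) (@Lb.t (@Lb.fp (nat_lit 9) t381))))))))))
noncomputable def l12324 : Lb := (@Lb.d (nat_lit 0) (nat_lit 134) (nat_lit 33) (@Lb.r r24 (@Lb.r r402 (@Lb.r r323 (@Lb.g g7 (@Lb.g g6 (@Lb.g g5 (@Lb.d (nat_lit 4) (nat_lit 1) (nat_lit 64) (@Lb.t (@Lb.fp (nat_lit 9) t524))))))))))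
noncomputable def l12325 : Lb := (@Lb.d (nat_lit 9) (nat_lit 2) (nat_lit 66) (@Lb.g g8 (@Lb.g g9 (@Lb.g g10 (@Lb.g g11 (@Lb.r r404 (@Lb.r r1563 (@Lb.r r2453 (@Lb.r r2390 (@Lb.r r1700 (@Lb.d (nat_lit 104) (nat_lit 2) (nat_lit 537) (@Lb.fm (nat_lit 9) t1165))))))))))))
noncomputable def l12326 : Lb := (@Lb.d (nat_lit 9) (nat_lit 258) (nat_lit 130) (@Lb.g g8 (@Lb.g g9 (@Lb.g g10 (@Lb.g g11 (@Lb.r r404 (@Lb.r r1563 (@Lb.r r2453 (@Lb.r r2390 (@Lb.r r1700 (@Lb.d (nat_lit 97) (nat_lit 0) (nat_lit 537) (@Lb.fm (nat_lit 9) t1165))))))))))))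
noncomputable def l12327 : Lb := (@Lb.d (nat_lit 9) (nat_lit 514) (nat_lit 130) (@Lb.g g8 (@Lb.g g9 (@Lb.g g10 (@Lb.g g11 (@Lb.r r404 (@Lb.r r1563 (@Lb.r r2453 (@Lb.r r2390 (@Lb.r r1700 (@Lb.d (nat_lit 104) (nat_lit 2) (nat_lit 537) (@Lb.fm (nat_lit 9) t1165))))))))))))
noncomputable def l12328 : Lb := (@Lb.d (nat_lit 9) (nat_lit 264) (nat_lit 130) (@Lb.g g8 (@Lb.g g9 (@Lb.g g10 (@Lb.g g11 (@Lb.r r643 (@Lb.r r297 (@Lb.r r360 (@Lb.r r582 (@Lb.r r132 (@Lb.d (nat_lit 129) (nat_lit 5) (nat_lit 72) (@Lb.fm (nat_lit 9) t98))))))))))))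
noncomputable def l12329 : Lb := (@Lb.d (nat_lit 8) (nat_lit 2) (nat_lit 130) (@Lb.g g8 (@Lb.g g9 (@Lb.g g10 (@Lb.g g11 (@Lb.r r2459 (@Lb.r r2193 (@Lb.r r2646 (@Lb.r r1416 (@Lb.d (nat_lit 154) (nat_lit 9) (nat_lit 393) (@Lb.fm (nat_lit 9) t221)))))))))))
noncomputable def l12330 : Lb := (@Lb.d (nat_lit 10) (nat_lit 260) (nat_lit 128) (@Lb.g g4 (@Lb.g g9 (@Lb.g g10 (@Lb.g g11 (@Lb.r r419 (@Lb.r r98 (@Lb.d (nat_lit 0) (nat_lit 9) (nat_lit 137) (@Lb.fm (nat_lit 9) t5)))))))))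
noncomputable def l12331 : Lb := (@Lb.r r154 (@Lb.r r660 (@Lb.r r407 (@Lb.r r609 (@Lb.d (nat_lit 0) (nat_lit 320) (nat_lit 384) (@Lb.fp (nat_lit 1) t334))))))
noncomputable def l12332 : Lb := (@Lb.r r323 (@Lb.d (nat_lit 2) (nat_lit 258) (nat_lit 0) (@Lb.g g8 (@Lb.g g9 (@Lb.g g10 (@Lb.r r2459 (@Lb.r r297 (@Lb.r r1384 (@Lb.r r2630 (@Lb.d (nat_lit 0) (nat_lit 74) (nat_lit 70) (@Lb.t (@Lb.fm (nat_lit 9) t91))))))))))))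
noncomputable def l12333 : Lb := (@Lb.d (nat_lit 2) (nat_lit 2) (nat_lit 130) (@Lb.g g8 (@Lb.g g9 (@Lb.g g10 (@Lb.g g11 (@Lb.r r1443 (@Lb.r r297 (@Lb.r r104 (@Lb.r r70 (@Lb.r r132 (@Lb.d (nat_lit 545) (nat_lit 5) (nat_lit 362) (@Lb.fp (nat_lit 9) t88))))))))))))
noncomputable def l12334 : Lb := (@Lb.r r609 (@Lb.r r363 (@Lb.r r356 (@Lb.r r154 (@Lb.d (nat_lit 257) (nat_lit 512) (nat_lit 16) (@Lb.fp (nat_lit 1) t743))))))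
noncomputable def l12335 : Lb := (@Lb.d (nat_lit 130) (nat_lit 258) (nat_lit 2) (@Lb.g g8 (@Lb.g g9 (@Lb.g g10 (@Lb.r r2595 (@Lb.r r2705 (@Lb.r r598 (@Lb.r r392 (@Lb.d (nat_lit 82) (nat_lit 2) (nat_lit 330) (@Lb.t (@Lb.fm (nat_lit 9) t284)))))))))))
noncomputable def l12336 : Lb := (@Lb.d (nat_lit 0) (nat_lit 256) (nat_lit 10) (@Lb.g g10 (@Lb.r r323 (@Lb.r r658 (@Lb.d (nat_lit 0) (nat_lit 1) (nat_lit 22) (@Lb.t (@Lb.fm (nat_lit 3) t2820)))))))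
noncomputable def l12337 : Lb := (@Lb.r r322 (@Lb.r r659 (@Lb.r r578 (@Lb.d (nat_lit 0) (nat_lit 518) (nat_lit 16) (@Lb.fm (nat_lit 1) t356)))))
noncomputable def l12338 : Lb := (@Lb.d (nat_lit 128) (nat_lit 0) (nat_lit 128) (@Lb.g g11 (@Lb.r r264 (@Lb.r r279 (@Lb.r r2145 (@Lb.r r1170 (@Lb.d (nat_lit 97) (nat_lit 0) (nat_lit 154) (@Lb.t (@Lb.fm (nat_lit 3) t743)))))))))
noncomputable def l12339 : Lb := (@Lb.r r82 (@Lb.d (nat_lit 1) (nat_lit 514) (nat_lit 128) (@Lb.g g8 (@Lb.g g9 (@Lb.g g11 (@Lb.r r555 (@Lb.r r548 (@Lb.r r165 (@Lb.r r98 (@Lb.d (nat_lit 9) (nat_lit 2) (nat_lit 69) (@Lb.t (@Lb.fm (nat_lit 9) t5))))))))))))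
noncomputable def l12340 : Lb := (@Lb.r r82 (@Lb.d (nat_lit 2) (nat_lit 2) (nat_lit 128) (@Lb.g g8 (@Lb.g g9 (@Lb.g g11 (@Lb.r r555 (@Lb.r r548 (@Lb.r r165 (@Lb.r r98 (@Lb.d (nat_lit 9) (nat_lit 2) (nat_lit 138) (@Lb.t (@Lb.fm (nat_lit 9) t5))))))))))))
noncomputable def l12341 : Lb := (@Lb.d (nat_lit 2) (nat_lit 2) (nat_lit 130) (@Lb.g g8 (@Lb.g g9 (@Lb.g g10 (@Lb.g g11 (@Lb.r r2722 (@Lb.r r404 (@Lb.r r681 (@Lb.r r555 (@Lb.r r1060 (@Lb.d (nat_lit 1) (nat_lit 90) (nat_lit 649) (@Lb.fm (nat_lit 9) t1190))))))))))))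
noncomputable def l12342 : Lb := (@Lb.d (nat_lit 2) (nat_lit 33) (nat_lit 66) (@Lb.g g8 (@Lb.g g9 (@Lb.g g10 (@Lb.g g11 (@Lb.r r1706 (@Lb.r r1704 (@Lb.r r1579 (@Lb.r r281 (@Lb.d (nat_lit 260) (nat_lit 32) (nat_lit 330) (@Lb.fm (nat_lit 9) t144)))))))))))
noncomputable def l12343 : Lb := (@Lb.g g9 (@Lb.g g11 (@Lb.r r2577 (@Lb.d (nat_lit 0) (nat_lit 0) (nat_lit 384) (@Lb.fm (nat_lit 3) t121)))))
noncomputable def l12344 : Lb := (@Lb.d (nat_lit 128) (nat_lit 2) (nat_lit 128) (@Lb.g g9 (@Lb.g g11 (@Lb.r r533 (@Lb.r r292 (@Lb.r r1371 (@Lb.r r2178 (@Lb.d (nat_lit 402) (nat_lit 90) (nat_lit 137) (@Lb.fp (nat_lit 3) t626)))))))))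
noncomputable def l12345 : Lb := (@Lb.d (nat_lit 128) (nat_lit 258) (nat_lit 128) (@Lb.g g9 (@Lb.g g11 (@Lb.r r533 (@Lb.r r292 (@Lb.r r1371 (@Lb.r r2178 (@Lb.d (nat_lit 409) (nat_lit 89) (nat_lit 137) (@Lb.fp (nat_lit 3) t626)))))))))
noncomputable def l12346 : Lb := (@Lb.d (nat_lit 0) (nat_lit 1) (nat_lit 406) (@Lb.r r24 (@Lb.r r323 (@Lb.r r1666 (@Lb.g g7 (@Lb.g g6 (@Lb.g g5 (@Lb.d (nat_lit 4) (nat_lit 1) (nat_lit 66) (@Lb.t (@Lb.fp (nat_lit 9) t2))))))))))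
noncomputable def l12347 : Lb := (@Lb.d (nat_lit 9) (nat_lit 513) (nat_lit 128) (@Lb.g g8 (@Lb.g g9 (@Lb.g g10 (@Lb.g g11 (@Lb.r r676 (@Lb.r r263 (@Lb.r r162 (@Lb.r r145 (@Lb.r r516 (@Lb.d (nat_lit 4) (nat_lit 5) (nat_lit 136) (@Lb.fm (nat_lit 9) t51))))))))))))
noncomputable def l12348 : Lb := (@Lb.d (nat_lit 0) (nat_lit 513) (nat_lit 337) (@Lb.r r24 (@Lb.r r323 (@Lb.r r1666 (@Lb.g g7 (@Lb.g g6 (@Lb.g g5 (@Lb.d (nat_lit 4) (nat_lit 1) (nat_lit 9) (@Lb.t (@Lb.fp (nat_lit 9) t2))))))))))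
noncomputable def l12349 : Lb := (@Lb.d (nat_lit 137) (nat_lit 257) (nat_lit 0) (@Lb.g g8 (@Lb.g g9 (@Lb.r r1449 (@Lb.r r1559 (@Lb.r r2178 (@Lb.r r1444 (@Lb.d (nat_lit 362) (nat_lit 166) (nat_lit 357) (@Lb.fp (nat_lit 3) t296)))))))))
noncomputable def l12350 : Lb := (@Lb.d (nat_lit 42) (nat_lit 9) (nat_lit 2) (@Lb.r r134 (@Lb.r r328 (@Lb.r r279 (@Lb.r r657 (@Lb.g g7 (@Lb.g g5 (@Lb.d (nat_lit 0) (nat_lit 1) (nat_lit 64) (@Lb.fm (nat_lit 3) t2315)))))))))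
noncomputable def l12351 : Lb := (@Lb.d (nat_lit 533) (nat_lit 648) (nat_lit 1) (@Lb.r r1178 (@Lb.r r1684 (@Lb.r r1415 (@Lb.g g6 (@Lb.g g5 (@Lb.d (nat_lit 0) (nat_lit 17) (nat_lit 4) (@Lb.r r387 (@Lb.fp (nat_lit 3) t2821)))))))))
noncomputable def l12352 : Lb := (@Lb.r r323 (@Lb.d (nat_lit 0) (nat_lit 290) (nat_lit 8) (@Lb.g g9 (@Lb.g g10 (@Lb.r r2379 (@Lb.r r2404 (@Lb.r r1178 (@Lb.d (nat_lit 298) (nat_lit 68) (nat_lit 2) (@Lb.fp (nat_lit 3) t626)))))))))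
noncomputable def l12353 : Lb := (@Lb.r r323 (@Lb.d (nat_lit 0) (nat_lit 34) (nat_lit 8) (@Lb.g g9 (@Lb.g g10 (@Lb.r r2379 (@Lb.r r2404 (@Lb.r r1178 (@Lb.d (nat_lit 298) (nat_lit 73) (nat_lit 0) (@Lb.fp (nat_lit 3) t222)))))))))
noncomputable def l12354 : Lb := (@Lb.d (nat_lit 9) (nat_lit 513) (nat_lit 130) (@Lb.g g8 (@Lb.g g9 (@Lb.g g10 (@Lb.g g11 (@Lb.r r614 (@Lb.r r404 (@Lb.r r1307 (@Lb.r r2577 (@Lb.d (nat_lit 2) (nat_lit 102) (nat_lit 278) (@Lb.fp (nat_lit 9) t51)))))))))))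
noncomputable def l12355 : Lb := (@Lb.d (nat_lit 2) (nat_lit 256) (nat_lit 0) (@Lb.g g8 (@Lb.r r1162 (@Lb.r r1188 (@Lb.r r2341 (@Lb.r r2579 (@Lb.d (nat_lit 2) (nat_lit 0) (nat_lit 138) (@Lb.t (@Lb.fm (nat_lit 3) t1593)))))))))
noncomputable def l12356 : Lb := (@Lb.d (nat_lit 41) (nat_lit 513) (nat_lit 0) (@Lb.g g8 (@Lb.g g9 (@Lb.r r1186 (@Lb.r r1065 (@Lb.r r360 (@Lb.r r1543 (@Lb.d (nat_lit 0) (nat_lit 154) (nat_lit 528) (@Lb.fm (nat_lit 3) t242)))))))))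
noncomputable def l12357 : Lb := (@Lb.d (nat_lit 40) (nat_lit 521) (nat_lit 128) (@Lb.g g9 (@Lb.g g6 (@Lb.g g11 (@Lb.r r404 (@Lb.r r299 (@Lb.r r409 (@Lb.d (nat_lit 10) (nat_lit 90) (nat_lit 357) (@Lb.t (@Lb.fp (nat_lit 9) t2822))))))))))
noncomputable def l12358 : Lb := (@Lb.d (nat_lit 33) (nat_lit 258) (nat_lit 129) (@Lb.g g8 (@Lb.g g9 (@Lb.g g6 (@Lb.g g11 (@Lb.r r1643 (@Lb.r r1561 (@Lb.r r1540 (@Lb.d (nat_lit 386) (nat_lit 64) (nat_lit 641) (@Lb.fp (nat_lit 9) t128))))))))))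
noncomputable def l12359 : Lb := (@Lb.r r273 (@Lb.d (nat_lit 0) (nat_lit 0) (nat_lit 642) (@Lb.g g10 (@Lb.g g7 (@Lb.r r386 (@Lb.r r1125 (@Lb.r r24 (@Lb.d (nat_lit 352) (nat_lit 0) (nat_lit 585) (@Lb.fm (nat_lit 3) t1468)))))))))
noncomputable def l12360 : Lb := (@Lb.r r273 (@Lb.d (nat_lit 0) (nat_lit 256) (nat_lit 642) (@Lb.g g10 (@Lb.g g7 (@Lb.r r386 (@Lb.r r1125 (@Lb.r r24 (@Lb.d (nat_lit 354) (nat_lit 0) (nat_lit 585) (@Lb.fm (nat_lit 3) t1388)))))))))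
noncomputable def l12361 : Lb := (@Lb.r r1297 (@Lb.d (nat_lit 0) (nat_lit 512) (nat_lit 642) (@Lb.g g10 (@Lb.g g7 (@Lb.r r386 (@Lb.d (nat_lit 0) (nat_lit 5) (nat_lit 10) (@Lb.fm (nat_lit 3) t2823)))))))
noncomputable def l12362 : Lb := (@Lb.d (nat_lit 2) (nat_lit 0) (nat_lit 0) (@Lb.g g8 (@Lb.g g5 (@Lb.r r24 (@Lb.d (nat_lit 10) (nat_lit 0) (nat_lit 128) (@Lb.fm (nat_lit 3) t2))))))
noncomputable def l12363 : Lb := (@Lb.d (nat_lit 298) (nat_lit 0) (nat_lit 598) (@Lb.r r150 (@Lb.r r72 (@Lb.r r293 (@Lb.r r2395 (@Lb.g g7 (@Lb.g g6 (@Lb.g g5 (@Lb.d (nat_lit 16) (nat_lit 1) (nat_lit 65) (@Lb.t (@Lb.fm (nat_lit 9) t1441)))))))))))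
noncomputable def l12364 : Lb := (@Lb.d (nat_lit 2) (nat_lit 520) (nat_lit 66) (@Lb.g g8 (@Lb.g g10 (@Lb.g g11 (@Lb.r r1419 (@Lb.r r101 (@Lb.r r1434 (@Lb.d (nat_lit 409) (nat_lit 85) (nat_lit 393) (@Lb.t (@Lb.fm (nat_lit 9) t221))))))))))
noncomputable def l12365 : Lb := (@Lb.d (nat_lit 169) (nat_lit 36) (nat_lit 533) (@Lb.r r665 (@Lb.r r600 (@Lb.r r603 (@Lb.g g6 (@Lb.g g5 (@Lb.d (nat_lit 4) (nat_lit 17) (nat_lit 33) (@Lb.r r387 (@Lb.fm (nat_lit 3) t602)))))))))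
noncomputable def l12366 : Lb := (@Lb.r r275 (@Lb.d (nat_lit 2) (nat_lit 657) (nat_lit 2) (@Lb.g g8 (@Lb.g g5 (@Lb.g g10 (@Lb.r r531 (@Lb.r r386 (@Lb.r r1096 (@Lb.d (nat_lit 546) (nat_lit 1) (nat_lit 361) (@Lb.t (@Lb.fm (nat_lit 9) t2725)))))))))))
noncomputable def l12367 : Lb := (@Lb.d (nat_lit 544) (nat_lit 5) (nat_lit 1) (@Lb.r r289 (@Lb.r r599 (@Lb.r r264 (@Lb.r r2434 (@Lb.g g7 (@Lb.d (nat_lit 64) (nat_lit 0) (nat_lit 64) (@Lb.t (@Lb.fm (nat_lit 3) t729)))))))))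
noncomputable def l12368 : Lb := (@Lb.r r289 (@Lb.r r2579 (@Lb.r r72 (@Lb.r r582 (@Lb.r r2180 (@Lb.fm (nat_lit 1) t351))))))
noncomputable def l12369 : Lb := (@Lb.d (nat_lit 0) (nat_lit 256) (nat_lit 128) (@Lb.g g11 (@Lb.r r353 (@Lb.r r663 (@Lb.r r356 (@Lb.r r154 (@Lb.d (nat_lit 18) (nat_lit 0) (nat_lit 0) (@Lb.t (@Lb.fm (nat_lit 3) t285)))))))))
noncomputable def l12370 : Lb := (@Lb.d (nat_lit 2) (nat_lit 2) (nat_lit 66) (@Lb.g g8 (@Lb.g g9 (@Lb.g g10 (@Lb.g g7 (@Lb.r r1442 (@Lb.r r145 (@Lb.r r2120 (@Lb.d (nat_lit 290) (nat_lit 169) (nat_lit 289) (@Lb.fm (nat_lit 9) t940))))))))))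
noncomputable def l12371 : Lb := (@Lb.d (nat_lit 0) (nat_lit 2) (nat_lit 2) (@Lb.g g8 (@Lb.g g9 (@Lb.g g10 (@Lb.r r106 (@Lb.r r100 (@Lb.r r21 (@Lb.r r36 (@Lb.d (nat_lit 9) (nat_lit 130) (nat_lit 0) (@Lb.t (@Lb.fm (nat_lit 9) t240)))))))))))
noncomputable def l12372 : Lb := (@Lb.d (nat_lit 2) (nat_lit 256) (nat_lit 4) (@Lb.g g8 (@Lb.g g10 (@Lb.g g11 (@Lb.r r1419 (@Lb.r r1416 (@Lb.r r1098 (@Lb.r r529 (@Lb.d (nat_lit 545) (nat_lit 0) (nat_lit 329) (@Lb.t (@Lb.fp (nat_lit 9) t88)))))))))))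
noncomputable def l12373 : Lb := (@Lb.r r2579 (@Lb.r r2341 (@Lb.r r2136 (@Lb.r r1158 (@Lb.g g10 (@Lb.t (@Lb.p (nat_lit 1) (@Lb.fp (nat_lit 3) t1038))))))))
noncomputable def l12374 : Lb := (@Lb.r r2579 (@Lb.r r2341 (@Lb.r r2136 (@Lb.r r1158 (@Lb.d (nat_lit 0) (nat_lit 517) (nat_lit 1) (@Lb.fp (nat_lit 1) t296))))))
noncomputable def l12375 : Lb := (@Lb.d (nat_lit 278) (nat_lit 321) (nat_lit 102) (@Lb.r r1158 (@Lb.r r2372 (@Lb.r r667 (@Lb.g g7 (@Lb.g g6 (@Lb.g g9 (@Lb.g g4 (@Lb.d (nat_lit 1) (nat_lit 16) (nat_lit 129) (@Lb.fm (nat_lit 9) t296))))))))))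
noncomputable def l12376 : Lb := (@Lb.d (nat_lit 1) (nat_lit 520) (nat_lit 130) (@Lb.g g8 (@Lb.g g10 (@Lb.g g11 (@Lb.r r545 (@Lb.r r295 (@Lb.r r664 (@Lb.r r154 (@Lb.d (nat_lit 0) (nat_lit 8) (nat_lit 170) (@Lb.t (@Lb.fp (nat_lit 9) t167)))))))))))
noncomputable def l12377 : Lb := (@Lb.r r21 (@Lb.d (nat_lit 10) (nat_lit 0) (nat_lit 73) (@Lb.g g8 (@Lb.g g10 (@Lb.g g11 (@Lb.r r411 (@Lb.r r2645 (@Lb.r r1130 (@Lb.r r1096 (@Lb.d (nat_lit 601) (nat_lit 129) (nat_lit 545) (@Lb.t (@Lb.fp (nat_lit 9) t2824))))))))))))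
noncomputable def l12378 : Lb := (@Lb.d (nat_lit 65) (nat_lit 609) (nat_lit 522) (@Lb.r r276 (@Lb.r r598 (@Lb.r r299 (@Lb.r r293 (@Lb.g g7 (@Lb.g g4 (@Lb.d (nat_lit 5) (nat_lit 0) (nat_lit 128) (@Lb.fp (nat_lit 3) t2825)))))))))
noncomputable def l12379 : Lb := (@Lb.d (nat_lit 610) (nat_lit 421) (nat_lit 340) (@Lb.r r2452 (@Lb.r r97 (@Lb.r r1355 (@Lb.g g10 (@Lb.g g4 (@Lb.d (nat_lit 66) (nat_lit 8) (nat_lit 5) (@Lb.r r387 (@Lb.r r25 (@Lb.fm (nat_lit 3) t1))))))))))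
noncomputable def l12380 : Lb := (@Lb.r r82 (@Lb.r r275 (@Lb.d (nat_lit 34) (nat_lit 538) (nat_lit 0) (@Lb.g g8 (@Lb.g g9 (@Lb.r r427 (@Lb.r r582 (@Lb.r r388 (@Lb.d (nat_lit 610) (nat_lit 9) (nat_lit 161) (@Lb.fm (nat_lit 3) t2144))))))))))
noncomputable def l12381 : Lb := (@Lb.d (nat_lit 134) (nat_lit 0) (nat_lit 130) (@Lb.g g8 (@Lb.g g9 (@Lb.g g10 (@Lb.g g11 (@Lb.r r1706 (@Lb.r r1411 (@Lb.r r665 (@Lb.r r1156 (@Lb.d (nat_lit 617) (nat_lit 169) (nat_lit 97) (@Lb.fm (nat_lit 9) t605)))))))))))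
noncomputable def l12382 : Lb := (@Lb.r r21 (@Lb.r r70 (@Lb.d (nat_lit 409) (nat_lit 512) (nat_lit 128) (@Lb.g g8 (@Lb.g g11 (@Lb.r r2459 (@Lb.r r402 (@Lb.r r97 (@Lb.d (nat_lit 360) (nat_lit 132) (nat_lit 10) (@Lb.fm (nat_lit 3) t2826))))))))))
noncomputable def l12383 : Lb := (@Lb.d (nat_lit 97) (nat_lit 582) (nat_lit 582) (@Lb.r r402 (@Lb.r r101 (@Lb.r r323 (@Lb.g g7 (@Lb.g g6 (@Lb.g g8 (@Lb.d (nat_lit 0) (nat_lit 4) (nat_lit 65) (@Lb.t (@Lb.fm (nat_lit 9) t2827))))))))))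
noncomputable def l12384 : Lb := (@Lb.r r82 (@Lb.d (nat_lit 129) (nat_lit 258) (nat_lit 128) (@Lb.g g8 (@Lb.g g9 (@Lb.g g11 (@Lb.r r299 (@Lb.r r386 (@Lb.r r1169 (@Lb.r r292 (@Lb.d (nat_lit 421) (nat_lit 104) (nat_lit 152) (@Lb.t (@Lb.fp (nat_lit 9) t2828))))))))))))
noncomputable def l12385 : Lb := (@Lb.d (nat_lit 144) (nat_lit 88) (nat_lit 650) (@Lb.r r402 (@Lb.r r101 (@Lb.g g8 (@Lb.t (@Lb.fp (nat_lit 3) t2829))))))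
noncomputable def l12386 : Lb := (@Lb.d (nat_lit 1) (nat_lit 0) (nat_lit 73) (@Lb.g g8 (@Lb.g g9 (@Lb.g g10 (@Lb.g g11 (@Lb.r r618 (@Lb.r r612 (@Lb.r r615 (@Lb.r r1637 (@Lb.d (nat_lit 409) (nat_lit 25) (nat_lit 658) (@Lb.fp (nat_lit 9) t2830)))))))))))
noncomputable def l12387 : Lb := (@Lb.r r21 (@Lb.d (nat_lit 10) (nat_lit 512) (nat_lit 73) (@Lb.g g8 (@Lb.g g10 (@Lb.g g11 (@Lb.r r411 (@Lb.r r2645 (@Lb.r r1130 (@Lb.r r1124 (@Lb.d (nat_lit 425) (nat_lit 21) (nat_lit 614) (@Lb.t (@Lb.fm (nat_lit 9) t2831))))))))))))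
noncomputable def l12388 : Lb := (@Lb.r r82 (@Lb.d (nat_lit 34) (nat_lit 0) (nat_lit 136) (@Lb.g g8 (@Lb.g g9 (@Lb.g g11 (@Lb.r r617 (@Lb.r r150 (@Lb.r r356 (@Lb.r r395 (@Lb.d (nat_lit 129) (nat_lit 41) (nat_lit 72) (@Lb.t (@Lb.fm (nat_lit 9) t355))))))))))))
noncomputable def l12389 : Lb := (@Lb.d (nat_lit 160) (nat_lit 385) (nat_lit 128) (@Lb.g g5 (@Lb.g g10 (@Lb.g g11 (@Lb.r r292 (@Lb.r r2651 (@Lb.r r1378 (@Lb.d (nat_lit 352) (nat_lit 40) (nat_lit 533) (@Lb.t (@Lb.fm (nat_lit 9) t2832))))))))))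
noncomputable def l12390 : Lb := (@Lb.r r82 (@Lb.r r275 (@Lb.d (nat_lit 34) (nat_lit 657) (nat_lit 0) (@Lb.g g8 (@Lb.g g5 (@Lb.r r2579 (@Lb.r r582 (@Lb.r r388 (@Lb.d (nat_lit 100) (nat_lit 2) (nat_lit 330) (@Lb.fm (nat_lit 3) t1390))))))))))
noncomputable def l12391 : Lb := (@Lb.r r323 (@Lb.d (nat_lit 0) (nat_lit 416) (nat_lit 2) (@Lb.g g9 (@Lb.g g10 (@Lb.r r354 (@Lb.r r387 (@Lb.d (nat_lit 0) (nat_lit 33) (nat_lit 321) (@Lb.fm (nat_lit 3) t2833))))))))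
noncomputable def l12392 : Lb := (@Lb.r r82 (@Lb.d (nat_lit 34) (nat_lit 256) (nat_lit 136) (@Lb.g g8 (@Lb.g g9 (@Lb.g g11 (@Lb.r r617 (@Lb.r r150 (@Lb.r r356 (@Lb.r r395 (@Lb.d (nat_lit 130) (nat_lit 34) (nat_lit 73) (@Lb.t (@Lb.fm (nat_lit 9) t355))))))))))))
noncomputable def l12393 : Lb := (@Lb.d (nat_lit 674) (nat_lit 512) (nat_lit 136) (@Lb.r r2438 (@Lb.r r1620 (@Lb.r r1305 (@Lb.r r323 (@Lb.g g7 (@Lb.g g6 (@Lb.g g5 (@Lb.d (nat_lit 0) (nat_lit 17) (nat_lit 65) (@Lb.t (@Lb.fm (nat_lit 9) t2834)))))))))))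
noncomputable def l12394 : Lb := (@Lb.r r280 (@Lb.r r1383 (@Lb.r r2178 (@Lb.r r1429 (@Lb.r r1572 (@Lb.d (nat_lit 0) (nat_lit 256) (nat_lit 16) (@Lb.fp (nat_lit 1) t307)))))))
noncomputable def l12395 : Lb := (@Lb.d (nat_lit 0) (nat_lit 260) (nat_lit 1) (@Lb.g g9 (@Lb.g g10 (@Lb.r r679 (@Lb.r r1685 (@Lb.r r2404 (@Lb.r r1178 (@Lb.d (nat_lit 538) (nat_lit 130) (nat_lit 16) (@Lb.fm (nat_lit 3) t2835)))))))))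
noncomputable def l12396 : Lb := (@Lb.d (nat_lit 0) (nat_lit 0) (nat_lit 74) (@Lb.g g9 (@Lb.g g10 (@Lb.g g11 (@Lb.r r2694 (@Lb.r r328 (@Lb.r r535 (@Lb.r r289 (@Lb.d (nat_lit 581) (nat_lit 2) (nat_lit 512) (@Lb.t (@Lb.fm (nat_lit 9) t1449)))))))))))
noncomputable def l12397 : Lb := (@Lb.r r322 (@Lb.d (nat_lit 8) (nat_lit 0) (nat_lit 576) (@Lb.g g9 (@Lb.g g7 (@Lb.r r1172 (@Lb.r r1638 (@Lb.r r337 (@Lb.d (nat_lit 0) (nat_lit 100) (nat_lit 326) (@Lb.fp (nat_lit 3) t1115)))))))))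
noncomputable def l12398 : Lb := (@Lb.d (nat_lit 136) (nat_lit 0) (nat_lit 64) (@Lb.g g9 (@Lb.g g11 (@Lb.r r152 (@Lb.r r2405 (@Lb.r r2387 (@Lb.r r2178 (@Lb.d (nat_lit 101) (nat_lit 154) (nat_lit 82) (@Lb.fp (nat_lit 3) t1455)))))))))
noncomputable def l12399 : Lb := (@Lb.d (nat_lit 292) (nat_lit 390) (nat_lit 81) (@Lb.r r2129 (@Lb.r r1190 (@Lb.r r2392 (@Lb.g g7 (@Lb.g g6 (@Lb.g g5 (@Lb.d (nat_lit 64) (nat_lit 0) (nat_lit 385) (@Lb.t (@Lb.fp (nat_lit 9) t98))))))))))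
noncomputable def l12400 : Lb := (@Lb.r r82 (@Lb.d (nat_lit 34) (nat_lit 514) (nat_lit 136) (@Lb.g g8 (@Lb.g g9 (@Lb.g g11 (@Lb.r r1641 (@Lb.r r150 (@Lb.r r356 (@Lb.r r395 (@Lb.d (nat_lit 385) (nat_lit 150) (nat_lit 64) (@Lb.t (@Lb.fm (nat_lit 9) t152))))))))))))
noncomputable def l12401 : Lb := (@Lb.d (nat_lit 2) (nat_lit 8) (nat_lit 130) (@Lb.g g8 (@Lb.g g9 (@Lb.g g10 (@Lb.g g11 (@Lb.r r1671 (@Lb.r r2376 (@Lb.r r1190 (@Lb.r r337 (@Lb.d (nat_lit 408) (nat_lit 104) (nat_lit 608) (@Lb.fm (nat_lit 9) t1027)))))))))))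
noncomputable def l12402 : Lb := (@Lb.r r82 (@Lb.d (nat_lit 2) (nat_lit 514) (nat_lit 136) (@Lb.g g8 (@Lb.g g9 (@Lb.g g11 (@Lb.r r138 (@Lb.r r2713 (@Lb.r r664 (@Lb.r r411 (@Lb.d (nat_lit 521) (nat_lit 26) (nat_lit 425) (@Lb.t (@Lb.fm (nat_lit 9) t42))))))))))))
noncomputable def l12403 : Lb := (@Lb.g g4 (@Lb.r r134 (@Lb.r r328 (@Lb.r r407 (@Lb.r r609 (@Lb.d (nat_lit 0) (nat_lit 600) (nat_lit 537) (@Lb.t (@Lb.fp (nat_lit 3) t44))))))))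
noncomputable def l12404 : Lb := (@Lb.d (nat_lit 5) (nat_lit 256) (nat_lit 0) (@Lb.g g4 (@Lb.d (nat_lit 6) (nat_lit 72) (nat_lit 2) (@Lb.t (@Lb.fm (nat_lit 3) t21)))))
noncomputable def l12405 : Lb := (@Lb.d (nat_lit 4) (nat_lit 265) (nat_lit 130) (@Lb.g g8 (@Lb.g g9 (@Lb.g g10 (@Lb.g g11 (@Lb.r r387 (@Lb.r r40 (@Lb.r r1049 (@Lb.d (nat_lit 9) (nat_lit 66) (nat_lit 137) (@Lb.fm (nat_lit 9) t350))))))))))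
noncomputable def l12406 : Lb := (@Lb.d (nat_lit 649) (nat_lit 426) (nat_lit 608) (@Lb.r r2347 (@Lb.r r2472 (@Lb.r r410 (@Lb.r r613 (@Lb.g g7 (@Lb.d (nat_lit 64) (nat_lit 0) (nat_lit 68) (@Lb.t (@Lb.fp (nat_lit 3) t591)))))))))
noncomputable def l12407 : Lb := (@Lb.r r90 (@Lb.r r283 (@Lb.d (nat_lit 5) (nat_lit 514) (nat_lit 0) (@Lb.g g8 (@Lb.g g5 (@Lb.r r1291 (@Lb.r r1098 (@Lb.r r2148 (@Lb.d (nat_lit 293) (nat_lit 134) (nat_lit 1) (@Lb.fp (nat_lit 3) t1364))))))))))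
noncomputable def l12408 : Lb := (@Lb.r r82 (@Lb.d (nat_lit 34) (nat_lit 289) (nat_lit 64) (@Lb.g g8 (@Lb.g g9 (@Lb.g g11 (@Lb.r r1698 (@Lb.r r1577 (@Lb.r r616 (@Lb.r r587 (@Lb.d (nat_lit 384) (nat_lit 150) (nat_lit 361) (@Lb.t (@Lb.fm (nat_lit 9) t152))))))))))))
noncomputable def l12409 : Lb := (@Lb.d (nat_lit 2) (nat_lit 512) (nat_lit 0) (@Lb.g g8 (@Lb.r r101 (@Lb.r r402 (@Lb.d (nat_lit 256) (nat_lit 164) (nat_lit 613) (@Lb.t (@Lb.fp (nat_lit 3) t652)))))))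
noncomputable def l12410 : Lb := (@Lb.r r1287 (@Lb.r r1094 (@Lb.r r1045 (@Lb.r r8 (@Lb.d (nat_lit 2) (nat_lit 522) (nat_lit 2) (@Lb.fm (nat_lit 1) t1406))))))
noncomputable def l12411 : Lb := (@Lb.d (nat_lit 129) (nat_lit 33) (nat_lit 0) (@Lb.g g8 (@Lb.g g9 (@Lb.r r263 (@Lb.r r600 (@Lb.r r134 (@Lb.d (nat_lit 0) (nat_lit 41) (nat_lit 70) (@Lb.fm (nat_lit 3) t40))))))))
noncomputable def l12412 : Lb := (@Lb.d (nat_lit 2) (nat_lit 514) (nat_lit 68) (@Lb.g g8 (@Lb.g g9 (@Lb.g g10 (@Lb.g g11 (@Lb.r r1706 (@Lb.r r680 (@Lb.r r555 (@Lb.r r533 (@Lb.r r2084 (@Lb.d (nat_lit 389) (nat_lit 130) (nat_lit 330) (@Lb.fm (nat_lit 9) t284))))))))))))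
noncomputable def l12413 : Lb := (@Lb.r r1317 (@Lb.r r2651 (@Lb.r r358 (@Lb.r r24 (@Lb.d (nat_lit 258) (nat_lit 512) (nat_lit 33) (@Lb.fm (nat_lit 1) t592))))))
noncomputable def l12414 : Lb := (@Lb.d (nat_lit 0) (nat_lit 294) (nat_lit 133) (@Lb.g g9 (@Lb.g g10 (@Lb.g g11 (@Lb.r r1699 (@Lb.r r337 (@Lb.r r1698 (@Lb.d (nat_lit 0) (nat_lit 21) (nat_lit 154) (@Lb.t (@Lb.fm (nat_lit 9) t24))))))))))
noncomputable def l12415 : Lb := (@Lb.d (nat_lit 164) (nat_lit 8) (nat_lit 0) (@Lb.g g8 (@Lb.g g9 (@Lb.r r391 (@Lb.r r594 (@Lb.r r2725 (@Lb.r r2580 (@Lb.d (nat_lit 37) (nat_lit 162) (nat_lit 674) (@Lb.fp (nat_lit 3) t2)))))))))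
noncomputable def l12416 : Lb := (@Lb.r r323 (@Lb.d (nat_lit 165) (nat_lit 0) (nat_lit 2) (@Lb.g g8 (@Lb.g g9 (@Lb.g g10 (@Lb.r r1369 (@Lb.r r2407 (@Lb.r r1684 (@Lb.d (nat_lit 422) (nat_lit 101) (nat_lit 662) (@Lb.t (@Lb.fm (nat_lit 9) t5)))))))))))
noncomputable def l12417 : Lb := (@Lb.d (nat_lit 0) (nat_lit 258) (nat_lit 130) (@Lb.g g8 (@Lb.g g9 (@Lb.g g10 (@Lb.g g11 (@Lb.r r427 (@Lb.r r145 (@Lb.r r356 (@Lb.r r154 (@Lb.r r132 (@Lb.d (nat_lit 9) (nat_lit 2) (nat_lit 2) (@Lb.fm (nat_lit 9) t61))))))))))))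
noncomputable def l12418 : Lb := (@Lb.d (nat_lit 528) (nat_lit 517) (nat_lit 18) (@Lb.r r1158 (@Lb.r r2132 (@Lb.r r2345 (@Lb.r r2707 (@Lb.g g7 (@Lb.g g6 (@Lb.g g4 (@Lb.d (nat_lit 2) (nat_lit 0) (nat_lit 133) (@Lb.t (@Lb.fm (nat_lit 9) t873)))))))))))
noncomputable def l12419 : Lb := (@Lb.d (nat_lit 0) (nat_lit 154) (nat_lit 138) (@Lb.r r609 (@Lb.r r1427 (@Lb.r r2394 (@Lb.r r1124 (@Lb.g g9 (@Lb.d (nat_lit 8) (nat_lit 1) (nat_lit 0) (@Lb.r r291 (@Lb.r r98 (@Lb.t (@Lb.fm (nat_lit 3) t2174)))))))))))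
noncomputable def l12420 : Lb := (@Lb.r r21 (@Lb.d (nat_lit 129) (nat_lit 256) (nat_lit 130) (@Lb.g g8 (@Lb.g g10 (@Lb.g g11 (@Lb.r r651 (@Lb.r r357 (@Lb.r r154 (@Lb.r r132 (@Lb.d (nat_lit 89) (nat_lit 25) (nat_lit 8) (@Lb.t (@Lb.fp (nat_lit 9) t74))))))))))))
noncomputable def l12421 : Lb := (@Lb.r r21 (@Lb.d (nat_lit 128) (nat_lit 256) (nat_lit 130) (@Lb.g g8 (@Lb.g g10 (@Lb.g g11 (@Lb.r r1684 (@Lb.r r519 (@Lb.r r386 (@Lb.r r25 (@Lb.d (nat_lit 538) (nat_lit 10) (nat_lit 601) (@Lb.t (@Lb.fm (nat_lit 9) t855))))))))))))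
noncomputable def l12422 : Lb := (@Lb.d (nat_lit 6) (nat_lit 288) (nat_lit 4) (@Lb.g g8 (@Lb.g g9 (@Lb.g g10 (@Lb.g g11 (@Lb.r r682 (@Lb.r r676 (@Lb.r r359 (@Lb.r r341 (@Lb.r r36 (@Lb.d (nat_lit 89) (nat_lit 1) (nat_lit 134) (@Lb.fm (nat_lit 9) t74))))))))))))
noncomputable def l12423 : Lb := (@Lb.d (nat_lit 5) (nat_lit 512) (nat_lit 0) (@Lb.g g4 (@Lb.r r101 (@Lb.r r402 (@Lb.d (nat_lit 1) (nat_lit 0) (nat_lit 132) (@Lb.t (@Lb.fm (nat_lit 3) t311)))))))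
noncomputable def l12424 : Lb := (@Lb.r r21 (@Lb.d (nat_lit 65) (nat_lit 512) (nat_lit 2) (@Lb.g g8 (@Lb.g g10 (@Lb.g g11 (@Lb.r r651 (@Lb.r r2665 (@Lb.r r1686 (@Lb.r r2404 (@Lb.d (nat_lit 293) (nat_lit 42) (nat_lit 549) (@Lb.t (@Lb.fp (nat_lit 9) t144))))))))))))
noncomputable def l12425 : Lb := (@Lb.d (nat_lit 9) (nat_lit 528) (nat_lit 2) (@Lb.g g8 (@Lb.g g9 (@Lb.g g10 (@Lb.g g11 (@Lb.r r682 (@Lb.r r680 (@Lb.r r555 (@Lb.r r2597 (@Lb.d (nat_lit 389) (nat_lit 18) (nat_lit 330) (@Lb.fp (nat_lit 9) t144)))))))))))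
noncomputable def l12426 : Lb := (@Lb.d (nat_lit 0) (nat_lit 256) (nat_lit 132) (@Lb.g g4 (@Lb.g g10 (@Lb.g g11 (@Lb.r r2691 (@Lb.r r578 (@Lb.d (nat_lit 0) (nat_lit 0) (nat_lit 402) (@Lb.t (@Lb.fm (nat_lit 9) t2)))))))))
noncomputable def l12427 : Lb := (@Lb.r r326 (@Lb.d (nat_lit 513) (nat_lit 514) (nat_lit 392) (@Lb.g g8 (@Lb.g g9 (@Lb.g g11 (@Lb.r r1426 (@Lb.r r97 (@Lb.d (nat_lit 320) (nat_lit 136) (nat_lit 641) (@Lb.t (@Lb.fm (nat_lit 9) t2836))))))))))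
noncomputable def l12428 : Lb := (@Lb.d (nat_lit 2) (nat_lit 290) (nat_lit 130) (@Lb.g g8 (@Lb.g g9 (@Lb.g g10 (@Lb.g g11 (@Lb.r r387 (@Lb.r r2154 (@Lb.r r2145 (@Lb.d (nat_lit 580) (nat_lit 72) (nat_lit 410) (@Lb.fm (nat_lit 9) t200))))))))))
noncomputable def l12429 : Lb := (@Lb.d (nat_lit 2) (nat_lit 546) (nat_lit 66) (@Lb.g g8 (@Lb.g g9 (@Lb.g g10 (@Lb.g g11 (@Lb.r r1451 (@Lb.r r2154 (@Lb.r r2145 (@Lb.d (nat_lit 21) (nat_lit 20) (nat_lit 132) (@Lb.fm (nat_lit 9) t200))))))))))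
noncomputable def l12430 : Lb := (@Lb.r r323 (@Lb.d (nat_lit 130) (nat_lit 546) (nat_lit 18) (@Lb.g g8 (@Lb.g g9 (@Lb.g g10 (@Lb.r r595 (@Lb.r r341 (@Lb.r r1192 (@Lb.d (nat_lit 132) (nat_lit 134) (nat_lit 592) (@Lb.t (@Lb.fm (nat_lit 9) t88)))))))))))
noncomputable def l12431 : Lb := (@Lb.d (nat_lit 0) (nat_lit 34) (nat_lit 64) (@Lb.g g9 (@Lb.g g11 (@Lb.r r2130 (@Lb.r r2705 (@Lb.r r531 (@Lb.d (nat_lit 0) (nat_lit 86) (nat_lit 298) (@Lb.fp (nat_lit 3) t99))))))))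
noncomputable def l12432 : Lb := (@Lb.r r323 (@Lb.d (nat_lit 2) (nat_lit 290) (nat_lit 2) (@Lb.g g8 (@Lb.g g9 (@Lb.g g10 (@Lb.r r599 (@Lb.r r74 (@Lb.r r296 (@Lb.r r409 (@Lb.d (nat_lit 150) (nat_lit 164) (nat_lit 68) (@Lb.t (@Lb.fm (nat_lit 9) t119))))))))))))
noncomputable def l12433 : Lb := (@Lb.d (nat_lit 146) (nat_lit 258) (nat_lit 130) (@Lb.g g8 (@Lb.g g9 (@Lb.g g10 (@Lb.g g11 (@Lb.r r1415 (@Lb.r r584 (@Lb.r r2150 (@Lb.r r97 (@Lb.r r36 (@Lb.d (nat_lit 258) (nat_lit 105) (nat_lit 385) (@Lb.fp (nat_lit 9) t2836))))))))))))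
noncomputable def l12434 : Lb := (@Lb.d (nat_lit 257) (nat_lit 342) (nat_lit 321) (@Lb.r r2321 (@Lb.r r1635 (@Lb.r r1430 (@Lb.g g7 (@Lb.g g5 (@Lb.g g4 (@Lb.d (nat_lit 1) (nat_lit 5) (nat_lit 64) (@Lb.r r98 (@Lb.t (@Lb.fp (nat_lit 9) t2837)))))))))))
noncomputable def l12435 : Lb := (@Lb.d (nat_lit 324) (nat_lit 148) (nat_lit 129) (@Lb.r r2193 (@Lb.r r658 (@Lb.r r2467 (@Lb.r r425 (@Lb.g g7 (@Lb.g g6 (@Lb.g g5 (@Lb.g g4 (@Lb.d (nat_lit 1) (nat_lit 1) (nat_lit 65) (@Lb.fp (nat_lit 9) t1925)))))))))))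
noncomputable def l12436 : Lb := (@Lb.d (nat_lit 4) (nat_lit 1) (nat_lit 128) (@Lb.g g8 (@Lb.g g9 (@Lb.g g11 (@Lb.r r406 (@Lb.r r1643 (@Lb.r r1633 (@Lb.r r24 (@Lb.d (nat_lit 265) (nat_lit 153) (nat_lit 2) (@Lb.t (@Lb.fm (nat_lit 9) t1741)))))))))))
noncomputable def l12437 : Lb := (@Lb.r r82 (@Lb.r r275 (@Lb.d (nat_lit 0) (nat_lit 593) (nat_lit 0) (@Lb.g g8 (@Lb.g g5 (@Lb.r r1619 (@Lb.r r386 (@Lb.r r1096 (@Lb.d (nat_lit 546) (nat_lit 1) (nat_lit 33) (@Lb.fm (nat_lit 3) t1205))))))))))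
noncomputable def l12438 : Lb := (@Lb.d (nat_lit 2) (nat_lit 0) (nat_lit 130) (@Lb.g g8 (@Lb.g g9 (@Lb.g g10 (@Lb.g g11 (@Lb.r r1602 (@Lb.r r548 (@Lb.r r615 (@Lb.r r533 (@Lb.r r1060 (@Lb.d (nat_lit 1) (nat_lit 73) (nat_lit 345) (@Lb.fm (nat_lit 9) t2838))))))))))))
noncomputable def l12439 : Lb := (@Lb.d (nat_lit 0) (nat_lit 5) (nat_lit 128) (@Lb.g g9 (@Lb.g g10 (@Lb.g g11 (@Lb.r r586 (@Lb.r r584 (@Lb.r r299 (@Lb.r r409 (@Lb.d (nat_lit 538) (nat_lit 68) (nat_lit 34) (@Lb.t (@Lb.fp (nat_lit 9) t2839)))))))))))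
noncomputable def l12440 : Lb := (@Lb.d (nat_lit 0) (nat_lit 512) (nat_lit 136) (@Lb.g g11 (@Lb.r r101 (@Lb.r r402 (@Lb.r r24 (@Lb.d (nat_lit 577) (nat_lit 73) (nat_lit 160) (@Lb.t (@Lb.fm (nat_lit 3) t2840))))))))
noncomputable def l12441 : Lb := (@Lb.d (nat_lit 405) (nat_lit 146) (nat_lit 341) (@Lb.r r1371 (@Lb.r r1304 (@Lb.r r597 (@Lb.g g7 (@Lb.g g6 (@Lb.d (nat_lit 64) (nat_lit 16) (nat_lit 98) (@Lb.fp (nat_lit 3) t2841))))))))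
noncomputable def l12442 : Lb := (@Lb.d (nat_lit 1) (nat_lit 0) (nat_lit 170) (@Lb.r r1635 (@Lb.r r601 (@Lb.r r2132 (@Lb.r r1162 (@Lb.g g5 (@Lb.g g4 (@Lb.d (nat_lit 1) (nat_lit 0) (nat_lit 0) (@Lb.fm (nat_lit 3) t2842)))))))))
noncomputable def l12443 : Lb := (@Lb.d (nat_lit 281) (nat_lit 21) (nat_lit 41) (@Lb.r r598 (@Lb.r r388 (@Lb.r r401 (@Lb.r r331 (@Lb.g g7 (@Lb.g g6 (@Lb.d (nat_lit 16) (nat_lit 0) (nat_lit 64) (@Lb.fm (nat_lit 3) t1436)))))))))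
noncomputable def l12444 : Lb := (@Lb.d (nat_lit 4) (nat_lit 1) (nat_lit 0) (@Lb.g g5 (@Lb.r r1319 (@Lb.r r1126 (@Lb.r r24 (@Lb.d (nat_lit 529) (nat_lit 1) (nat_lit 32) (@Lb.t (@Lb.fp (nat_lit 3) t396))))))))
noncomputable def l12445 : Lb := (@Lb.d (nat_lit 8) (nat_lit 514) (nat_lit 130) (@Lb.g g9 (@Lb.g g10 (@Lb.g g11 (@Lb.r r2658 (@Lb.r r584 (@Lb.r r363 (@Lb.r r353 (@Lb.d (nat_lit 642) (nat_lit 169) (nat_lit 326) (@Lb.t (@Lb.fm (nat_lit 9) t2687)))))))))))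
noncomputable def l12446 : Lb := (@Lb.d (nat_lit 1) (nat_lit 0) (nat_lit 298) (@Lb.r r1635 (@Lb.r r601 (@Lb.r r2132 (@Lb.r r1162 (@Lb.g g5 (@Lb.g g4 (@Lb.d (nat_lit 1) (nat_lit 5) (nat_lit 0) (@Lb.fm (nat_lit 3) t2842)))))))))
noncomputable def l12447 : Lb := (@Lb.d (nat_lit 1) (nat_lit 66) (nat_lit 64) (@Lb.g g4 (@Lb.g g9 (@Lb.g g10 (@Lb.g g11 (@Lb.r r610 (@Lb.d (nat_lit 0) (nat_lit 25) (nat_lit 130) (@Lb.fm (nat_lit 9) t71))))))))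
noncomputable def l12448 : Lb := (@Lb.d (nat_lit 0) (nat_lit 2) (nat_lit 74) (@Lb.g g9 (@Lb.g g10 (@Lb.g g11 (@Lb.r r1671 (@Lb.r r1685 (@Lb.r r2404 (@Lb.r r1178 (@Lb.d (nat_lit 290) (nat_lit 70) (nat_lit 2) (@Lb.t (@Lb.fm (nat_lit 9) t626)))))))))))
noncomputable def l12449 : Lb := (@Lb.d (nat_lit 8) (nat_lit 34) (nat_lit 34) (@Lb.g g9 (@Lb.g g6 (@Lb.r r536 (@Lb.r r603 (@Lb.r r2469 (@Lb.d (nat_lit 74) (nat_lit 97) (nat_lit 664) (@Lb.fm (nat_lit 3) t64))))))))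
noncomputable def l12450 : Lb := (@Lb.r r322 (@Lb.d (nat_lit 0) (nat_lit 42) (nat_lit 128) (@Lb.g g9 (@Lb.g g11 (@Lb.r r146 (@Lb.d (nat_lit 0) (nat_lit 2) (nat_lit 1) (@Lb.fp (nat_lit 3) t717)))))))
noncomputable def l12451 : Lb := (@Lb.d (nat_lit 0) (nat_lit 66) (nat_lit 0) (@Lb.g g9 (@Lb.r r1543 (@Lb.r r2392 (@Lb.r r1190 (@Lb.d (nat_lit 0) (nat_lit 134) (nat_lit 16) (@Lb.t (@Lb.fm (nat_lit 3) t2843))))))))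
noncomputable def l12452 : Lb := (@Lb.d (nat_lit 9) (nat_lit 518) (nat_lit 128) (@Lb.g g8 (@Lb.g g9 (@Lb.g g10 (@Lb.g g11 (@Lb.r r427 (@Lb.r r424 (@Lb.r r106 (@Lb.r r97 (@Lb.d (nat_lit 2) (nat_lit 10) (nat_lit 17) (@Lb.fp (nat_lit 9) t901)))))))))))
noncomputable def l12453 : Lb := (@Lb.d (nat_lit 513) (nat_lit 150) (nat_lit 166) (@Lb.r r2645 (@Lb.r r322 (@Lb.r r2391 (@Lb.g g7 (@Lb.g g6 (@Lb.g g5 (@Lb.g g4 (@Lb.d (nat_lit 1) (nat_lit 24) (nat_lit 128) (@Lb.fp (nat_lit 9) t639))))))))))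
noncomputable def l12454 : Lb := (@Lb.d (nat_lit 358) (nat_lit 8) (nat_lit 406) (@Lb.r r2645 (@Lb.r r322 (@Lb.r r2391 (@Lb.g g7 (@Lb.g g6 (@Lb.g g5 (@Lb.g g4 (@Lb.d (nat_lit 1) (nat_lit 17) (nat_lit 129) (@Lb.fp (nat_lit 9) t795))))))))))
noncomputable def l12455 : Lb := (@Lb.d (nat_lit 17) (nat_lit 258) (nat_lit 128) (@Lb.g g8 (@Lb.g g9 (@Lb.g g10 (@Lb.g g11 (@Lb.r r2727 (@Lb.r r1410 (@Lb.r r1301 (@Lb.r r2596 (@Lb.d (nat_lit 128) (nat_lit 153) (nat_lit 418) (@Lb.fp (nat_lit 9) t2844)))))))))))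
noncomputable def l12456 : Lb := (@Lb.d (nat_lit 4) (nat_lit 294) (nat_lit 74) (@Lb.r r273 (@Lb.r r295 (@Lb.r r580 (@Lb.g g7 (@Lb.g g10 (@Lb.g g5 (@Lb.d (nat_lit 16) (nat_lit 1) (nat_lit 134) (@Lb.r r36 (@Lb.t (@Lb.fm (nat_lit 9) t524)))))))))))
noncomputable def l12457 : Lb := (@Lb.d (nat_lit 64) (nat_lit 257) (nat_lit 66) (@Lb.r r260 (@Lb.r r97 (@Lb.r r363 (@Lb.g g10 (@Lb.g g4 (@Lb.d (nat_lit 65) (nat_lit 8) (nat_lit 5) (@Lb.r r387 (@Lb.r r25 (@Lb.fm (nat_lit 3) t381))))))))))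
noncomputable def l12458 : Lb := (@Lb.d (nat_lit 133) (nat_lit 600) (nat_lit 64) (@Lb.r r85 (@Lb.r r40 (@Lb.r r322 (@Lb.r r1707 (@Lb.g g7 (@Lb.g g6 (@Lb.g g5 (@Lb.d (nat_lit 0) (nat_lit 9) (nat_lit 64) (@Lb.t (@Lb.fp (nat_lit 9) t2845)))))))))))
noncomputable def l12459 : Lb := (@Lb.d (nat_lit 8) (nat_lit 516) (nat_lit 74) (@Lb.g g9 (@Lb.g g10 (@Lb.g g11 (@Lb.r r611 (@Lb.r r1610 (@Lb.r r2644 (@Lb.r r1321 (@Lb.d (nat_lit 256) (nat_lit 90) (nat_lit 644) (@Lb.t (@Lb.fm (nat_lit 9) t629)))))))))))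
noncomputable def l12460 : Lb := (@Lb.r r331 (@Lb.d (nat_lit 394) (nat_lit 2) (nat_lit 2) (@Lb.g g4 (@Lb.g g9 (@Lb.g g10 (@Lb.r r2643 (@Lb.r r2146 (@Lb.d (nat_lit 1) (nat_lit 68) (nat_lit 648) (@Lb.t (@Lb.fm (nat_lit 9) t472))))))))))
noncomputable def l12461 : Lb := (@Lb.r r331 (@Lb.d (nat_lit 392) (nat_lit 518) (nat_lit 0) (@Lb.g g4 (@Lb.g g9 (@Lb.g g10 (@Lb.r r1619 (@Lb.r r98 (@Lb.r r97 (@Lb.d (nat_lit 2) (nat_lit 9) (nat_lit 680) (@Lb.t (@Lb.fp (nat_lit 9) t2846)))))))))))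
noncomputable def l12462 : Lb := (@Lb.d (nat_lit 0) (nat_lit 514) (nat_lit 2) (@Lb.g g9 (@Lb.g g10 (@Lb.r r2583 (@Lb.r r386 (@Lb.r r97 (@Lb.d (nat_lit 137) (nat_lit 153) (nat_lit 356) (@Lb.fp (nat_lit 3) t1231))))))))
noncomputable def l12463 : Lb := (@Lb.r r331 (@Lb.d (nat_lit 392) (nat_lit 518) (nat_lit 0) (@Lb.g g4 (@Lb.g g9 (@Lb.g g10 (@Lb.r r1619 (@Lb.r r98 (@Lb.r r97 (@Lb.d (nat_lit 1) (nat_lit 2) (nat_lit 681) (@Lb.t (@Lb.fp (nat_lit 9) t2847)))))))))))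
noncomputable def l12464 : Lb := (@Lb.r r322 (@Lb.d (nat_lit 8) (nat_lit 258) (nat_lit 136) (@Lb.g g9 (@Lb.g g11 (@Lb.r r1426 (@Lb.r r24 (@Lb.d (nat_lit 9) (nat_lit 2) (nat_lit 144) (@Lb.fm (nat_lit 3) t334))))))))
noncomputable def l12465 : Lb := (@Lb.r r322 (@Lb.d (nat_lit 8) (nat_lit 514) (nat_lit 136) (@Lb.g g9 (@Lb.g g11 (@Lb.r r1426 (@Lb.r r24 (@Lb.d (nat_lit 0) (nat_lit 66) (nat_lit 144) (@Lb.fm (nat_lit 3) t334))))))))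
noncomputable def l12466 : Lb := (@Lb.d (nat_lit 137) (nat_lit 6) (nat_lit 0) (@Lb.g g8 (@Lb.g g9 (@Lb.g g10 (@Lb.r r2721 (@Lb.r r2343 (@Lb.r r648 (@Lb.r r1130 (@Lb.d (nat_lit 545) (nat_lit 101) (nat_lit 404) (@Lb.t (@Lb.fm (nat_lit 9) t1699)))))))))))
noncomputable def l12467 : Lb := (@Lb.r r323 (@Lb.d (nat_lit 5) (nat_lit 0) (nat_lit 1) (@Lb.g g4 (@Lb.g g6 (@Lb.r r387 (@Lb.d (nat_lit 6) (nat_lit 70) (nat_lit 64) (@Lb.fm (nat_lit 3) t45)))))))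
noncomputable def l12468 : Lb := (@Lb.d (nat_lit 1) (nat_lit 514) (nat_lit 2) (@Lb.g g8 (@Lb.g g9 (@Lb.g g10 (@Lb.g g11 (@Lb.r r355 (@Lb.r r386 (@Lb.r r1129 (@Lb.r r36 (@Lb.d (nat_lit 261) (nat_lit 1) (nat_lit 84) (@Lb.fp (nat_lit 9) t61)))))))))))
noncomputable def l12469 : Lb := (@Lb.r r70 (@Lb.d (nat_lit 5) (nat_lit 514) (nat_lit 128) (@Lb.g g8 (@Lb.g g9 (@Lb.g g11 (@Lb.r r1705 (@Lb.r r363 (@Lb.r r1410 (@Lb.r r1700 (@Lb.d (nat_lit 537) (nat_lit 21) (nat_lit 298) (@Lb.t (@Lb.fm (nat_lit 9) t2004))))))))))))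
noncomputable def l12470 : Lb := (@Lb.r r70 (@Lb.d (nat_lit 5) (nat_lit 256) (nat_lit 128) (@Lb.g g8 (@Lb.g g9 (@Lb.g g11 (@Lb.r r681 (@Lb.r r363 (@Lb.r r1410 (@Lb.r r1684 (@Lb.d (nat_lit 534) (nat_lit 82) (nat_lit 266) (@Lb.t (@Lb.fm (nat_lit 9) t2848))))))))))))
noncomputable def l12471 : Lb := (@Lb.r r20 (@Lb.r r323 (@Lb.d (nat_lit 0) (nat_lit 514) (nat_lit 0) (@Lb.g g9 (@Lb.g g10 (@Lb.r r419 (@Lb.r r98 (@Lb.r r2180 (@Lb.d (nat_lit 5) (nat_lit 10) (nat_lit 18) (@Lb.fm (nat_lit 3) t2849))))))))))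
noncomputable def l12472 : Lb := (@Lb.d (nat_lit 128) (nat_lit 0) (nat_lit 136) (@Lb.g g11 (@Lb.r r2452 (@Lb.r r390 (@Lb.r r347 (@Lb.r r1057 (@Lb.d (nat_lit 34) (nat_lit 169) (nat_lit 22) (@Lb.t (@Lb.fp (nat_lit 3) t820)))))))))
noncomputable def l12473 : Lb := (@Lb.d (nat_lit 2) (nat_lit 32) (nat_lit 128) (@Lb.g g8 (@Lb.g g11 (@Lb.r r2712 (@Lb.r r293 (@Lb.r r2587 (@Lb.r r2178 (@Lb.d (nat_lit 106) (nat_lit 34) (nat_lit 276) (@Lb.fm (nat_lit 3) t185)))))))))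
noncomputable def l12474 : Lb := (@Lb.r r70 (@Lb.r r263 (@Lb.g g8 (@Lb.g g5 (@Lb.r r1315 (@Lb.r r1122 (@Lb.r r1192 (@Lb.d (nat_lit 533) (nat_lit 585) (nat_lit 18) (@Lb.fm (nat_lit 3) t2850)))))))))
noncomputable def l12475 : Lb := (@Lb.d (nat_lit 36) (nat_lit 321) (nat_lit 34) (@Lb.r r2068 (@Lb.r r89 (@Lb.r r323 (@Lb.g g10 (@Lb.g g4 (@Lb.d (nat_lit 32) (nat_lit 4) (nat_lit 17) (@Lb.r r387 (@Lb.r r145 (@Lb.fp (nat_lit 3) t1993))))))))))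
noncomputable def l12476 : Lb := (@Lb.d (nat_lit 32) (nat_lit 262) (nat_lit 74) (@Lb.g g9 (@Lb.g g10 (@Lb.g g11 (@Lb.r r1699 (@Lb.r r40 (@Lb.r r1689 (@Lb.r r2650 (@Lb.d (nat_lit 609) (nat_lit 164) (nat_lit 673) (@Lb.t (@Lb.fm (nat_lit 9) t2851)))))))))))
noncomputable def l12477 : Lb := (@Lb.r r70 (@Lb.d (nat_lit 132) (nat_lit 514) (nat_lit 64) (@Lb.g g8 (@Lb.g g9 (@Lb.g g11 (@Lb.r r1705 (@Lb.r r363 (@Lb.r r1410 (@Lb.r r2148 (@Lb.d (nat_lit 424) (nat_lit 137) (nat_lit 392) (@Lb.t (@Lb.fm (nat_lit 9) t2004))))))))))))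
noncomputable def l12478 : Lb := (@Lb.d (nat_lit 0) (nat_lit 24) (nat_lit 585) (@Lb.g g10 (@Lb.g g7 (@Lb.d (nat_lit 0) (nat_lit 74) (nat_lit 150) (@Lb.fp (nat_lit 3) t51)))))
noncomputable def l12479 : Lb := (@Lb.d (nat_lit 0) (nat_lit 256) (nat_lit 74) (@Lb.g g10 (@Lb.g g11 (@Lb.r r2707 (@Lb.r r2626 (@Lb.d (nat_lit 0) (nat_lit 152) (nat_lit 425) (@Lb.fp (nat_lit 3) t119)))))))
noncomputable def l12480 : Lb := (@Lb.d (nat_lit 0) (nat_lit 538) (nat_lit 598) (@Lb.r r1362 (@Lb.r r2691 (@Lb.g g7 (@Lb.g g6 (@Lb.g g5 (@Lb.d (nat_lit 0) (nat_lit 0) (nat_lit 65) (@Lb.t (@Lb.fm (nat_lit 9) t661)))))))))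
noncomputable def l12481 : Lb := (@Lb.d (nat_lit 0) (nat_lit 8) (nat_lit 130) (@Lb.g g10 (@Lb.g g11 (@Lb.r r353 (@Lb.r r663 (@Lb.r r356 (@Lb.r r154 (@Lb.d (nat_lit 264) (nat_lit 2) (nat_lit 18) (@Lb.fp (nat_lit 3) t947)))))))))
noncomputable def l12482 : Lb := (@Lb.d (nat_lit 0) (nat_lit 617) (nat_lit 356) (@Lb.r r146 (@Lb.r r2385 (@Lb.g g7 (@Lb.g g6 (@Lb.g g5 (@Lb.d (nat_lit 0) (nat_lit 0) (nat_lit 65) (@Lb.t (@Lb.fm (nat_lit 9) t254)))))))))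
noncomputable def l12483 : Lb := (@Lb.d (nat_lit 136) (nat_lit 256) (nat_lit 64) (@Lb.g g9 (@Lb.g g11 (@Lb.r r152 (@Lb.r r2405 (@Lb.r r2387 (@Lb.r r2178 (@Lb.d (nat_lit 96) (nat_lit 153) (nat_lit 82) (@Lb.fp (nat_lit 3) t307)))))))))
noncomputable def l12484 : Lb := (@Lb.d (nat_lit 168) (nat_lit 10) (nat_lit 129) (@Lb.g g9 (@Lb.g g10 (@Lb.g g11 (@Lb.r r72 (@Lb.r r86 (@Lb.r r421 (@Lb.r r411 (@Lb.d (nat_lit 8) (nat_lit 16) (nat_lit 9) (@Lb.t (@Lb.fm (nat_lit 9) t1599)))))))))))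
noncomputable def l12485 : Lb := (@Lb.r r275 (@Lb.d (nat_lit 0) (nat_lit 518) (nat_lit 5) (@Lb.g g9 (@Lb.g g6 (@Lb.r r1363 (@Lb.r r545 (@Lb.d (nat_lit 0) (nat_lit 32) (nat_lit 641) (@Lb.fm (nat_lit 3) t256))))))))
noncomputable def l12486 : Lb := (@Lb.d (nat_lit 32) (nat_lit 256) (nat_lit 130) (@Lb.g g9 (@Lb.g g10 (@Lb.g g11 (@Lb.r r545 (@Lb.r r299 (@Lb.r r72 (@Lb.r r390 (@Lb.d (nat_lit 612) (nat_lit 8) (nat_lit 152) (@Lb.t (@Lb.fp (nat_lit 9) t420)))))))))))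
noncomputable def l12487 : Lb := (@Lb.d (nat_lit 0) (nat_lit 0) (nat_lit 128) (@Lb.g g10 (@Lb.g g11 (@Lb.r r2707 (@Lb.r r2626 (@Lb.d (nat_lit 0) (nat_lit 152) (nat_lit 425) (@Lb.fp (nat_lit 3) t119)))))))
noncomputable def l12488 : Lb := (@Lb.d (nat_lit 10) (nat_lit 512) (nat_lit 0) (@Lb.g g8 (@Lb.r r289 (@Lb.r r279 (@Lb.r r584 (@Lb.r r134 (@Lb.d (nat_lit 0) (nat_lit 0) (nat_lit 22) (@Lb.t (@Lb.fm (nat_lit 3) t40)))))))))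
noncomputable def l12489 : Lb := (@Lb.d (nat_lit 418) (nat_lit 160) (nat_lit 161) (@Lb.r r2403 (@Lb.r r1445 (@Lb.r r1112 (@Lb.r r2214 (@Lb.g g7 (@Lb.g g6 (@Lb.g g5 (@Lb.d (nat_lit 68) (nat_lit 0) (nat_lit 8) (@Lb.t (@Lb.fm (nat_lit 9) t2852)))))))))))
noncomputable def l12490 : Lb := (@Lb.d (nat_lit 416) (nat_lit 416) (nat_lit 161) (@Lb.r r2403 (@Lb.r r1445 (@Lb.r r1112 (@Lb.r r2214 (@Lb.g g7 (@Lb.g g6 (@Lb.g g5 (@Lb.d (nat_lit 68) (nat_lit 0) (nat_lit 65) (@Lb.t (@Lb.fm (nat_lit 9) t948)))))))))))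
noncomputable def l12491 : Lb := (@Lb.d (nat_lit 0) (nat_lit 2) (nat_lit 0) (@Lb.g g8 (@Lb.g g9 (@Lb.r r1315 (@Lb.r r1122 (@Lb.r r25 (@Lb.r r24 (@Lb.d (nat_lit 258) (nat_lit 0) (nat_lit 0) (@Lb.fp (nat_lit 3) t284)))))))))
noncomputable def l12492 : Lb := (@Lb.d (nat_lit 682) (nat_lit 18) (nat_lit 616) (@Lb.r r1381 (@Lb.r r1691 (@Lb.r r1624 (@Lb.r r1190 (@Lb.g g6 (@Lb.g g5 (@Lb.d (nat_lit 4) (nat_lit 16) (nat_lit 1) (@Lb.fm (nat_lit 3) t2853)))))))))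
noncomputable def l12493 : Lb := (@Lb.d (nat_lit 4) (nat_lit 544) (nat_lit 6) (@Lb.r r359 (@Lb.r r421 (@Lb.r r106 (@Lb.r r72 (@Lb.g g7 (@Lb.g g6 (@Lb.g g5 (@Lb.d (nat_lit 84) (nat_lit 0) (nat_lit 65) (@Lb.t (@Lb.fp (nat_lit 9) t5)))))))))))
noncomputable def l12494 : Lb := (@Lb.d (nat_lit 6) (nat_lit 32) (nat_lit 6) (@Lb.r r359 (@Lb.r r421 (@Lb.r r106 (@Lb.r r72 (@Lb.g g7 (@Lb.g g6 (@Lb.g g5 (@Lb.d (nat_lit 84) (nat_lit 0) (nat_lit 65) (@Lb.t (@Lb.fp (nat_lit 9) t5)))))))))))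
noncomputable def l12495 : Lb := (@Lb.r r323 (@Lb.d (nat_lit 40) (nat_lit 42) (nat_lit 1) (@Lb.g g9 (@Lb.g g10 (@Lb.r r1307 (@Lb.r r1304 (@Lb.r r2661 (@Lb.r r594 (@Lb.d (nat_lit 594) (nat_lit 65) (nat_lit 416) (@Lb.fm (nat_lit 3) t2854))))))))))
noncomputable def l12496 : Lb := (@Lb.d (nat_lit 418) (nat_lit 672) (nat_lit 161) (@Lb.r r2403 (@Lb.r r1445 (@Lb.r r1112 (@Lb.r r2214 (@Lb.g g7 (@Lb.g g6 (@Lb.g g5 (@Lb.d (nat_lit 68) (nat_lit 0) (nat_lit 65) (@Lb.t (@Lb.fm (nat_lit 9) t948)))))))))))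
noncomputable def l12497 : Lb := (@Lb.r r323 (@Lb.d (nat_lit 9) (nat_lit 289) (nat_lit 2) (@Lb.g g8 (@Lb.g g9 (@Lb.g g10 (@Lb.r r599 (@Lb.r r74 (@Lb.r r296 (@Lb.r r409 (@Lb.d (nat_lit 150) (nat_lit 38) (nat_lit 137) (@Lb.t (@Lb.fm (nat_lit 9) t119))))))))))))
noncomputable def l12498 : Lb := (@Lb.d (nat_lit 128) (nat_lit 8) (nat_lit 130) (@Lb.g g10 (@Lb.g g11 (@Lb.r r264 (@Lb.r r519 (@Lb.r r101 (@Lb.r r154 (@Lb.d (nat_lit 392) (nat_lit 2) (nat_lit 162) (@Lb.fm (nat_lit 3) t947)))))))))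
noncomputable def l12499 : Lb := (@Lb.r r323 (@Lb.d (nat_lit 9) (nat_lit 33) (nat_lit 2) (@Lb.g g8 (@Lb.g g9 (@Lb.g g10 (@Lb.r r599 (@Lb.r r74 (@Lb.r r296 (@Lb.r r409 (@Lb.d (nat_lit 152) (nat_lit 36) (nat_lit 137) (@Lb.t (@Lb.fm (nat_lit 9) t119))))))))))))
noncomputable def l12500 : Lb := (@Lb.r r323 (@Lb.d (nat_lit 2) (nat_lit 546) (nat_lit 2) (@Lb.g g8 (@Lb.g g9 (@Lb.g g10 (@Lb.r r599 (@Lb.r r74 (@Lb.r r296 (@Lb.r r409 (@Lb.d (nat_lit 152) (nat_lit 36) (nat_lit 137) (@Lb.t (@Lb.fm (nat_lit 9) t119))))))))))))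
noncomputable def l12501 : Lb := (@Lb.r r70 (@Lb.d (nat_lit 134) (nat_lit 512) (nat_lit 128) (@Lb.g g8 (@Lb.g g9 (@Lb.g g11 (@Lb.r r1451 (@Lb.r r402 (@Lb.r r97 (@Lb.r r148 (@Lb.d (nat_lit 610) (nat_lit 74) (nat_lit 514) (@Lb.t (@Lb.fm (nat_lit 9) t1383))))))))))))
noncomputable def l12502 : Lb := (@Lb.d (nat_lit 128) (nat_lit 258) (nat_lit 130) (@Lb.g g8 (@Lb.g g9 (@Lb.g g10 (@Lb.g g11 (@Lb.r r683 (@Lb.r r2410 (@Lb.r r537 (@Lb.r r516 (@Lb.d (nat_lit 137) (nat_lit 89) (nat_lit 149) (@Lb.fm (nat_lit 9) t2855)))))))))))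
noncomputable def l12503 : Lb := (@Lb.r r21 (@Lb.r r70 (@Lb.d (nat_lit 129) (nat_lit 256) (nat_lit 128) (@Lb.g g8 (@Lb.g g11 (@Lb.r r1419 (@Lb.r r402 (@Lb.r r97 (@Lb.d (nat_lit 586) (nat_lit 64) (nat_lit 512) (@Lb.fm (nat_lit 3) t1383))))))))))
noncomputable def l12504 : Lb := (@Lb.d (nat_lit 129) (nat_lit 258) (nat_lit 130) (@Lb.g g8 (@Lb.g g9 (@Lb.g g10 (@Lb.g g11 (@Lb.r r1706 (@Lb.r r1411 (@Lb.r r1177 (@Lb.r r1156 (@Lb.d (nat_lit 297) (nat_lit 82) (nat_lit 666) (@Lb.fm (nat_lit 9) t2856)))))))))))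
noncomputable def l12505 : Lb := (@Lb.d (nat_lit 128) (nat_lit 4) (nat_lit 128) (@Lb.g g8 (@Lb.g g9 (@Lb.g g10 (@Lb.g g11 (@Lb.r r683 (@Lb.r r2410 (@Lb.r r537 (@Lb.r r516 (@Lb.d (nat_lit 137) (nat_lit 89) (nat_lit 149) (@Lb.fm (nat_lit 9) t2857)))))))))))
noncomputable def l12506 : Lb := (@Lb.d (nat_lit 16) (nat_lit 0) (nat_lit 601) (@Lb.r r24 (@Lb.r r1435 (@Lb.r r2458 (@Lb.r r597 (@Lb.g g7 (@Lb.d (nat_lit 0) (nat_lit 16) (nat_lit 68) (@Lb.t (@Lb.fm (nat_lit 3) t386)))))))))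
noncomputable def l12507 : Lb := (@Lb.d (nat_lit 577) (nat_lit 1) (nat_lit 585) (@Lb.r r24 (@Lb.r r2138 (@Lb.r r2587 (@Lb.g g7 (@Lb.g g5 (@Lb.d (nat_lit 4) (nat_lit 8) (nat_lit 128) (@Lb.fm (nat_lit 3) t2858))))))))
noncomputable def l12508 : Lb := (@Lb.r r323 (@Lb.d (nat_lit 161) (nat_lit 290) (nat_lit 2) (@Lb.g g8 (@Lb.g g9 (@Lb.g g10 (@Lb.r r2583 (@Lb.r r1348 (@Lb.r r426 (@Lb.r r409 (@Lb.d (nat_lit 277) (nat_lit 65) (nat_lit 394) (@Lb.t (@Lb.fm (nat_lit 9) t2859))))))))))))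
noncomputable def l12509 : Lb := (@Lb.r r21 (@Lb.r r70 (@Lb.d (nat_lit 129) (nat_lit 512) (nat_lit 128) (@Lb.g g8 (@Lb.g g11 (@Lb.r r1419 (@Lb.r r402 (@Lb.r r97 (@Lb.d (nat_lit 581) (nat_lit 66) (nat_lit 512) (@Lb.fm (nat_lit 3) t644))))))))))
noncomputable def l12510 : Lb := (@Lb.r r2311 (@Lb.r r2118 (@Lb.r r24 (@Lb.r r149 (@Lb.d (nat_lit 0) (nat_lit 641) (nat_lit 18) (@Lb.fm (nat_lit 1) t433))))))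
noncomputable def l12511 : Lb := (@Lb.d (nat_lit 512) (nat_lit 0) (nat_lit 576) (@Lb.r r1045 (@Lb.g g4 (@Lb.d (nat_lit 578) (nat_lit 0) (nat_lit 0) (@Lb.r r2311 (@Lb.t (@Lb.fm (nat_lit 3) t1165)))))))
noncomputable def l12512 : Lb := (@Lb.d (nat_lit 136) (nat_lit 512) (nat_lit 130) (@Lb.g g9 (@Lb.g g10 (@Lb.g g11 (@Lb.r r2214 (@Lb.r r1112 (@Lb.r r1445 (@Lb.r r1427 (@Lb.d (nat_lit 593) (nat_lit 80) (nat_lit 82) (@Lb.t (@Lb.fp (nat_lit 9) t1046)))))))))))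
noncomputable def l12513 : Lb := (@Lb.d (nat_lit 256) (nat_lit 522) (nat_lit 146) (@Lb.r r1416 (@Lb.r r82 (@Lb.r r409 (@Lb.g g11 (@Lb.d (nat_lit 128) (nat_lit 16) (nat_lit 320) (@Lb.r r578 (@Lb.t (@Lb.fm (nat_lit 3) t2860)))))))))
noncomputable def l12514 : Lb := (@Lb.d (nat_lit 146) (nat_lit 257) (nat_lit 74) (@Lb.g g8 (@Lb.g g9 (@Lb.g g10 (@Lb.g g11 (@Lb.r r2713 (@Lb.r r1691 (@Lb.r r660 (@Lb.r r2198 (@Lb.d (nat_lit 293) (nat_lit 130) (nat_lit 128) (@Lb.fp (nat_lit 9) t2861)))))))))))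
noncomputable def l12515 : Lb := (@Lb.r r2394 (@Lb.d (nat_lit 2) (nat_lit 289) (nat_lit 128) (@Lb.g g8 (@Lb.g g9 (@Lb.g g11 (@Lb.r r555 (@Lb.r r1553 (@Lb.r r2084 (@Lb.d (nat_lit 41) (nat_lit 101) (nat_lit 272) (@Lb.t (@Lb.fp (nat_lit 9) t2862)))))))))))
noncomputable def l12516 : Lb := (@Lb.r r21 (@Lb.d (nat_lit 145) (nat_lit 512) (nat_lit 128) (@Lb.g g8 (@Lb.g g10 (@Lb.g g11 (@Lb.r r1691 (@Lb.r r409 (@Lb.r r90 (@Lb.r r1156 (@Lb.d (nat_lit 617) (nat_lit 69) (nat_lit 514) (@Lb.t (@Lb.fp (nat_lit 9) t278))))))))))))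
noncomputable def l12517 : Lb := (@Lb.d (nat_lit 169) (nat_lit 256) (nat_lit 72) (@Lb.g g8 (@Lb.g g11 (@Lb.r r1346 (@Lb.r r679 (@Lb.r r2597 (@Lb.r r276 (@Lb.d (nat_lit 70) (nat_lit 89) (nat_lit 145) (@Lb.fm (nat_lit 3) t1952)))))))))
noncomputable def l12518 : Lb := (@Lb.d (nat_lit 329) (nat_lit 80) (nat_lit 64) (@Lb.r r8 (@Lb.r r283 (@Lb.r r593 (@Lb.g g7 (@Lb.g g10 (@Lb.d (nat_lit 0) (nat_lit 16) (nat_lit 150) (@Lb.fm (nat_lit 3) t2863))))))))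
noncomputable def l12519 : Lb := (@Lb.d (nat_lit 256) (nat_lit 256) (nat_lit 144) (@Lb.r r8 (@Lb.r r82 (@Lb.r r421 (@Lb.g g11 (@Lb.d (nat_lit 64) (nat_lit 32) (nat_lit 320) (@Lb.r r578 (@Lb.t (@Lb.fp (nat_lit 3) t2864)))))))))
noncomputable def l12520 : Lb := (@Lb.r r21 (@Lb.d (nat_lit 145) (nat_lit 512) (nat_lit 74) (@Lb.g g8 (@Lb.g g10 (@Lb.g g11 (@Lb.r r1691 (@Lb.r r409 (@Lb.r r90 (@Lb.r r1156 (@Lb.d (nat_lit 618) (nat_lit 69) (nat_lit 514) (@Lb.t (@Lb.fp (nat_lit 9) t278))))))))))))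
noncomputable def l12521 : Lb := (@Lb.r r263 (@Lb.d (nat_lit 5) (nat_lit 2) (nat_lit 2) (@Lb.g g8 (@Lb.g g9 (@Lb.g g10 (@Lb.r r2713 (@Lb.r r343 (@Lb.r r2698 (@Lb.r r2696 (@Lb.d (nat_lit 610) (nat_lit 0) (nat_lit 596) (@Lb.t (@Lb.fm (nat_lit 9) t381))))))))))))
noncomputable def l12522 : Lb := (@Lb.d (nat_lit 129) (nat_lit 18) (nat_lit 2) (@Lb.g g8 (@Lb.g g9 (@Lb.g g10 (@Lb.g g11 (@Lb.r r610 (@Lb.r r552 (@Lb.r r2635 (@Lb.r r2337 (@Lb.r r1060 (@Lb.d (nat_lit 610) (nat_lit 41) (nat_lit 72) (@Lb.fm (nat_lit 9) t381))))))))))))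
noncomputable def l12523 : Lb := (@Lb.d (nat_lit 134) (nat_lit 258) (nat_lit 130) (@Lb.g g8 (@Lb.g g9 (@Lb.g g10 (@Lb.g g11 (@Lb.r r610 (@Lb.r r552 (@Lb.r r1641 (@Lb.r r619 (@Lb.r r1060 (@Lb.d (nat_lit 358) (nat_lit 22) (nat_lit 408) (@Lb.fm (nat_lit 9) t524))))))))))))
noncomputable def l12524 : Lb := (@Lb.d (nat_lit 129) (nat_lit 1) (nat_lit 130) (@Lb.g g8 (@Lb.g g9 (@Lb.g g10 (@Lb.g g11 (@Lb.r r610 (@Lb.r r1603 (@Lb.r r424 (@Lb.r r1321 (@Lb.r r2084 (@Lb.d (nat_lit 386) (nat_lit 86) (nat_lit 72) (@Lb.fm (nat_lit 9) t2865))))))))))))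
noncomputable def l12525 : Lb := (@Lb.r r21 (@Lb.d (nat_lit 10) (nat_lit 528) (nat_lit 386) (@Lb.g g8 (@Lb.g g10 (@Lb.g g11 (@Lb.r r2705 (@Lb.r r2714 (@Lb.r r2692 (@Lb.d (nat_lit 409) (nat_lit 1) (nat_lit 360) (@Lb.t (@Lb.fp (nat_lit 9) t441)))))))))))
noncomputable def l12526 : Lb := (@Lb.d (nat_lit 129) (nat_lit 1) (nat_lit 130) (@Lb.g g8 (@Lb.g g9 (@Lb.g g10 (@Lb.g g11 (@Lb.r r610 (@Lb.r r552 (@Lb.r r1641 (@Lb.r r619 (@Lb.r r1060 (@Lb.d (nat_lit 358) (nat_lit 22) (nat_lit 344) (@Lb.fm (nat_lit 9) t524))))))))))))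
noncomputable def l12527 : Lb := (@Lb.r r2311 (@Lb.r r2118 (@Lb.r r2069 (@Lb.r r8 (@Lb.fm (nat_lit 1) t1155)))))
noncomputable def l12528 : Lb := (@Lb.d (nat_lit 64) (nat_lit 258) (nat_lit 2) (@Lb.g g8 (@Lb.g g9 (@Lb.g g10 (@Lb.g g11 (@Lb.r r586 (@Lb.r r600 (@Lb.r r1317 (@Lb.r r2587 (@Lb.r r516 (@Lb.d (nat_lit 258) (nat_lit 138) (nat_lit 658) (@Lb.fm (nat_lit 9) t2866))))))))))))
noncomputable def l12529 : Lb := (@Lb.r r2069 (@Lb.r r2118 (@Lb.r r2311 (@Lb.g g8 (@Lb.r r8 (@Lb.t (@Lb.p (nat_lit 1) (@Lb.fm (nat_lit 3) t2867))))))))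
noncomputable def l12530 : Lb := (@Lb.d (nat_lit 16) (nat_lit 2) (nat_lit 64) (@Lb.g g8 (@Lb.g g9 (@Lb.g g10 (@Lb.g g7 (@Lb.r r1410 (@Lb.r r2152 (@Lb.r r25 (@Lb.d (nat_lit 522) (nat_lit 73) (nat_lit 297) (@Lb.fm (nat_lit 9) t42))))))))))
noncomputable def l12531 : Lb := (@Lb.d (nat_lit 6) (nat_lit 641) (nat_lit 136) (@Lb.r r603 (@Lb.r r2469 (@Lb.r r2154 (@Lb.r r72 (@Lb.g g7 (@Lb.g g6 (@Lb.g g5 (@Lb.d (nat_lit 80) (nat_lit 0) (nat_lit 65) (@Lb.t (@Lb.fm (nat_lit 9) t284)))))))))))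
noncomputable def l12532 : Lb := (@Lb.d (nat_lit 278) (nat_lit 320) (nat_lit 576) (@Lb.r r1671 (@Lb.r r2666 (@Lb.r r612 (@Lb.r r345 (@Lb.g g7 (@Lb.d (nat_lit 64) (nat_lit 16) (nat_lit 64) (@Lb.t (@Lb.fp (nat_lit 3) t51)))))))))
noncomputable def l12533 : Lb := (@Lb.r r20 (@Lb.r r82 (@Lb.r r275 (@Lb.d (nat_lit 0) (nat_lit 330) (nat_lit 0) (@Lb.g g5 (@Lb.r r603 (@Lb.r r2136 (@Lb.r r1638 (@Lb.d (nat_lit 614) (nat_lit 4) (nat_lit 69) (@Lb.t (@Lb.fm (nat_lit 3) t1045)))))))))))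
noncomputable def l12534 : Lb := (@Lb.d (nat_lit 6) (nat_lit 549) (nat_lit 4) (@Lb.r r359 (@Lb.r r421 (@Lb.r r106 (@Lb.r r72 (@Lb.g g7 (@Lb.g g6 (@Lb.g g5 (@Lb.d (nat_lit 84) (nat_lit 0) (nat_lit 65) (@Lb.t (@Lb.fp (nat_lit 9) t2)))))))))))
noncomputable def l12535 : Lb := (@Lb.d (nat_lit 0) (nat_lit 258) (nat_lit 73) (@Lb.g g8 (@Lb.g g9 (@Lb.g g10 (@Lb.g g11 (@Lb.r r644 (@Lb.r r391 (@Lb.r r2146 (@Lb.r r97 (@Lb.r r2564 (@Lb.d (nat_lit 10) (nat_lit 65) (nat_lit 4) (@Lb.fm (nat_lit 9) t71))))))))))))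
noncomputable def l12536 : Lb := (@Lb.d (nat_lit 8) (nat_lit 2) (nat_lit 130) (@Lb.g g9 (@Lb.g g10 (@Lb.g g11 (@Lb.r r1130 (@Lb.r r24 (@Lb.r r1685 (@Lb.r r1427 (@Lb.d (nat_lit 545) (nat_lit 90) (nat_lit 665) (@Lb.t (@Lb.fp (nat_lit 9) t1741)))))))))))
noncomputable def l12537 : Lb := (@Lb.r r82 (@Lb.d (nat_lit 6) (nat_lit 8) (nat_lit 0) (@Lb.g g4 (@Lb.g g9 (@Lb.r r2731 (@Lb.r r1434 (@Lb.r r2641 (@Lb.d (nat_lit 353) (nat_lit 102) (nat_lit 297) (@Lb.fp (nat_lit 3) t98)))))))))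
noncomputable def l12538 : Lb := (@Lb.d (nat_lit 2) (nat_lit 2) (nat_lit 73) (@Lb.g g8 (@Lb.g g9 (@Lb.g g10 (@Lb.g g11 (@Lb.r r2691 (@Lb.r r2209 (@Lb.r r2658 (@Lb.d (nat_lit 2) (nat_lit 160) (nat_lit 598) (@Lb.fp (nat_lit 9) t311))))))))))
noncomputable def l12539 : Lb := (@Lb.d (nat_lit 17) (nat_lit 160) (nat_lit 646) (@Lb.r r24 (@Lb.r r101 (@Lb.r r386 (@Lb.g g11 (@Lb.g g6 (@Lb.g g5 (@Lb.d (nat_lit 0) (nat_lit 5) (nat_lit 130) (@Lb.t (@Lb.fp (nat_lit 9) t1117))))))))))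
noncomputable def l12540 : Lb := (@Lb.d (nat_lit 6) (nat_lit 256) (nat_lit 0) (@Lb.g g4 (@Lb.r r341 (@Lb.r r675 (@Lb.r r658 (@Lb.r r81 (@Lb.d (nat_lit 0) (nat_lit 128) (nat_lit 266) (@Lb.t (@Lb.fm (nat_lit 3) t242)))))))))
noncomputable def l12541 : Lb := (@Lb.d (nat_lit 4) (nat_lit 0) (nat_lit 73) (@Lb.g g8 (@Lb.g g9 (@Lb.g g10 (@Lb.g g11 (@Lb.r r2666 (@Lb.r r579 (@Lb.r r104 (@Lb.r r25 (@Lb.d (nat_lit 402) (nat_lit 10) (nat_lit 358) (@Lb.fp (nat_lit 9) t61)))))))))))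
noncomputable def l12542 : Lb := (@Lb.d (nat_lit 0) (nat_lit 257) (nat_lit 128) (@Lb.g g9 (@Lb.g g11 (@Lb.r r2694 (@Lb.r r2455 (@Lb.r r1640 (@Lb.r r1561 (@Lb.d (nat_lit 389) (nat_lit 17) (nat_lit 320) (@Lb.fm (nat_lit 3) t1082)))))))))
noncomputable def l12543 : Lb := (@Lb.d (nat_lit 2) (nat_lit 2) (nat_lit 130) (@Lb.g g8 (@Lb.g g9 (@Lb.g g10 (@Lb.g g11 (@Lb.r r675 (@Lb.r r164 (@Lb.r r1685 (@Lb.r r1174 (@Lb.r r2084 (@Lb.d (nat_lit 352) (nat_lit 98) (nat_lit 329) (@Lb.fp (nat_lit 9) t2868))))))))))))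
noncomputable def l12544 : Lb := (@Lb.d (nat_lit 146) (nat_lit 288) (nat_lit 169) (@Lb.r r402 (@Lb.r r85 (@Lb.r r323 (@Lb.g g7 (@Lb.g g6 (@Lb.g g5 (@Lb.g g4 (@Lb.d (nat_lit 1) (nat_lit 9) (nat_lit 132) (@Lb.fm (nat_lit 9) t128))))))))))
noncomputable def l12545 : Lb := (@Lb.r r21 (@Lb.r r70 (@Lb.d (nat_lit 2) (nat_lit 528) (nat_lit 584) (@Lb.g g8 (@Lb.g g7 (@Lb.r r361 (@Lb.r r150 (@Lb.r r2084 (@Lb.d (nat_lit 298) (nat_lit 66) (nat_lit 82) (@Lb.fp (nat_lit 3) t546))))))))))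
noncomputable def l12546 : Lb := (@Lb.d (nat_lit 41) (nat_lit 513) (nat_lit 72) (@Lb.g g8 (@Lb.g g9 (@Lb.g g11 (@Lb.r r162 (@Lb.r r1681 (@Lb.r r1431 (@Lb.r r2632 (@Lb.d (nat_lit 330) (nat_lit 65) (nat_lit 392) (@Lb.t (@Lb.fm (nat_lit 9) t284)))))))))))
noncomputable def l12547 : Lb := (@Lb.d (nat_lit 2) (nat_lit 2) (nat_lit 130) (@Lb.g g8 (@Lb.g g9 (@Lb.g g10 (@Lb.g g11 (@Lb.r r2705 (@Lb.r r535 (@Lb.r r2440 (@Lb.r r2458 (@Lb.d (nat_lit 409) (nat_lit 90) (nat_lit 530) (@Lb.fm (nat_lit 9) t1231)))))))))))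
noncomputable def l12548 : Lb := (@Lb.d (nat_lit 0) (nat_lit 2) (nat_lit 132) (@Lb.g g8 (@Lb.g g9 (@Lb.g g10 (@Lb.g g7 (@Lb.r r2410 (@Lb.r r100 (@Lb.r r21 (@Lb.r r36 (@Lb.d (nat_lit 393) (nat_lit 82) (nat_lit 576) (@Lb.fm (nat_lit 9) t240)))))))))))
noncomputable def l12549 : Lb := (@Lb.d (nat_lit 128) (nat_lit 0) (nat_lit 128) (@Lb.g g11 (@Lb.r r2698 (@Lb.r r260 (@Lb.r r603 (@Lb.r r289 (@Lb.d (nat_lit 548) (nat_lit 74) (nat_lit 2) (@Lb.t (@Lb.fm (nat_lit 3) t51)))))))))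
noncomputable def l12550 : Lb := (@Lb.d (nat_lit 146) (nat_lit 42) (nat_lit 168) (@Lb.r r402 (@Lb.r r85 (@Lb.r r323 (@Lb.g g7 (@Lb.g g6 (@Lb.g g5 (@Lb.g g4 (@Lb.d (nat_lit 1) (nat_lit 9) (nat_lit 66) (@Lb.fm (nat_lit 9) t670))))))))))
noncomputable def l12551 : Lb := (@Lb.g g11 (@Lb.r r402 (@Lb.r r101 (@Lb.r r24 (@Lb.d (nat_lit 256) (nat_lit 256) (nat_lit 512) (@Lb.t (@Lb.fm (nat_lit 3) t145)))))))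
noncomputable def l12552 : Lb := (@Lb.d (nat_lit 0) (nat_lit 2) (nat_lit 73) (@Lb.g g9 (@Lb.g g10 (@Lb.g g11 (@Lb.r r1706 (@Lb.r r168 (@Lb.r r409 (@Lb.r r295 (@Lb.r r516 (@Lb.d (nat_lit 613) (nat_lit 96) (nat_lit 330) (@Lb.t (@Lb.fm (nat_lit 9) t1649))))))))))))
noncomputable def l12553 : Lb := (@Lb.d (nat_lit 9) (nat_lit 513) (nat_lit 0) (@Lb.g g8 (@Lb.g g9 (@Lb.g g10 (@Lb.r r1543 (@Lb.r r657 (@Lb.r r2404 (@Lb.r r1178 (@Lb.d (nat_lit 425) (nat_lit 2) (nat_lit 357) (@Lb.t (@Lb.fm (nat_lit 9) t222)))))))))))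
noncomputable def l12554 : Lb := (@Lb.r r323 (@Lb.d (nat_lit 40) (nat_lit 257) (nat_lit 2) (@Lb.g g8 (@Lb.g g9 (@Lb.g g10 (@Lb.r r1689 (@Lb.r r1563 (@Lb.r r1540 (@Lb.d (nat_lit 417) (nat_lit 0) (nat_lit 616) (@Lb.t (@Lb.fp (nat_lit 9) t321)))))))))))
noncomputable def l12555 : Lb := (@Lb.d (nat_lit 292) (nat_lit 72) (nat_lit 17) (@Lb.r r289 (@Lb.r r1626 (@Lb.r r1384 (@Lb.r r2711 (@Lb.g g7 (@Lb.g g6 (@Lb.d (nat_lit 16) (nat_lit 0) (nat_lit 64) (@Lb.fp (nat_lit 3) t41)))))))))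
noncomputable def l12556 : Lb := (@Lb.d (nat_lit 4) (nat_lit 641) (nat_lit 2) (@Lb.r r289 (@Lb.r r279 (@Lb.r r584 (@Lb.g g7 (@Lb.g g10 (@Lb.d (nat_lit 32) (nat_lit 0) (nat_lit 129) (@Lb.fp (nat_lit 3) t42))))))))
noncomputable def l12557 : Lb := (@Lb.d (nat_lit 4) (nat_lit 518) (nat_lit 0) (@Lb.g g9 (@Lb.r r1319 (@Lb.r r1126 (@Lb.r r24 (@Lb.d (nat_lit 538) (nat_lit 1) (nat_lit 33) (@Lb.t (@Lb.fm (nat_lit 3) t2366))))))))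
noncomputable def l12558 : Lb := (@Lb.r r82 (@Lb.d (nat_lit 33) (nat_lit 258) (nat_lit 0) (@Lb.g g8 (@Lb.g g9 (@Lb.g g11 (@Lb.r r363 (@Lb.r r582 (@Lb.r r388 (@Lb.d (nat_lit 98) (nat_lit 1) (nat_lit 154) (@Lb.t (@Lb.fm (nat_lit 9) t390)))))))))))
noncomputable def l12559 : Lb := (@Lb.d (nat_lit 33) (nat_lit 256) (nat_lit 0) (@Lb.g g8 (@Lb.r r2635 (@Lb.r r2134 (@Lb.r r1057 (@Lb.r r1156 (@Lb.d (nat_lit 290) (nat_lit 10) (nat_lit 1) (@Lb.t (@Lb.fp (nat_lit 3) t2211)))))))))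
noncomputable def l12560 : Lb := (@Lb.g g4 (@Lb.r r417 (@Lb.r r2466 (@Lb.r r2387 (@Lb.r r657 (@Lb.d (nat_lit 1) (nat_lit 512) (nat_lit 0) (@Lb.t (@Lb.fm (nat_lit 3) t246))))))))
noncomputable def l12561 : Lb := (@Lb.d (nat_lit 96) (nat_lit 645) (nat_lit 549) (@Lb.r r1057 (@Lb.r r362 (@Lb.r r2376 (@Lb.g g7 (@Lb.g g6 (@Lb.d (nat_lit 16) (nat_lit 32) (nat_lit 645) (@Lb.fm (nat_lit 3) t2211))))))))
noncomputable def l12562 : Lb := (@Lb.d (nat_lit 353) (nat_lit 545) (nat_lit 517) (@Lb.r r330 (@Lb.r r360 (@Lb.r r1299 (@Lb.g g7 (@Lb.g g6 (@Lb.g g9 (@Lb.d (nat_lit 16) (nat_lit 129) (nat_lit 134) (@Lb.t (@Lb.fp (nat_lit 9) t2814))))))))))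
noncomputable def l12563 : Lb := (@Lb.r r323 (@Lb.d (nat_lit 6) (nat_lit 0) (nat_lit 2) (@Lb.g g8 (@Lb.g g9 (@Lb.g g10 (@Lb.r r70 (@Lb.r r388 (@Lb.r r1323 (@Lb.r r1313 (@Lb.d (nat_lit 1) (nat_lit 136) (nat_lit 258) (@Lb.t (@Lb.fp (nat_lit 9) t51))))))))))))
noncomputable def l12564 : Lb := (@Lb.d (nat_lit 8) (nat_lit 9) (nat_lit 73) (@Lb.g g9 (@Lb.g g10 (@Lb.g g11 (@Lb.r r346 (@Lb.r r1364 (@Lb.r r2411 (@Lb.r r2389 (@Lb.d (nat_lit 338) (nat_lit 80) (nat_lit 677) (@Lb.t (@Lb.fm (nat_lit 9) t789)))))))))))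
noncomputable def l12565 : Lb := (@Lb.r r82 (@Lb.r r275 (@Lb.d (nat_lit 8) (nat_lit 266) (nat_lit 0) (@Lb.g g9 (@Lb.r r664 (@Lb.r r411 (@Lb.r r402 (@Lb.r r601 (@Lb.d (nat_lit 89) (nat_lit 38) (nat_lit 17) (@Lb.t (@Lb.fp (nat_lit 3) t1126)))))))))))
noncomputable def l12566 : Lb := (@Lb.r r82 (@Lb.d (nat_lit 34) (nat_lit 258) (nat_lit 128) (@Lb.g g8 (@Lb.g g9 (@Lb.g g11 (@Lb.r r363 (@Lb.r r582 (@Lb.r r388 (@Lb.d (nat_lit 98) (nat_lit 1) (nat_lit 154) (@Lb.t (@Lb.fm (nat_lit 9) t390)))))))))))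
noncomputable def l12567 : Lb := (@Lb.r r82 (@Lb.d (nat_lit 34) (nat_lit 2) (nat_lit 128) (@Lb.g g8 (@Lb.g g9 (@Lb.g g11 (@Lb.r r363 (@Lb.r r582 (@Lb.r r388 (@Lb.d (nat_lit 98) (nat_lit 1) (nat_lit 16) (@Lb.t (@Lb.fm (nat_lit 9) t390)))))))))))
noncomputable def l12568 : Lb := (@Lb.r r82 (@Lb.d (nat_lit 0) (nat_lit 17) (nat_lit 128) (@Lb.g g9 (@Lb.g g11 (@Lb.r r1427 (@Lb.r r386 (@Lb.r r1113 (@Lb.r r24 (@Lb.d (nat_lit 528) (nat_lit 0) (nat_lit 17) (@Lb.fm (nat_lit 3) t1061))))))))))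
noncomputable def l12569 : Lb := (@Lb.r r21 (@Lb.r r70 (@Lb.r r263 (@Lb.g g8 (@Lb.r r267 (@Lb.r r74 (@Lb.r r25 (@Lb.d (nat_lit 273) (nat_lit 256) (nat_lit 16) (@Lb.t (@Lb.fp (nat_lit 3) t1793))))))))))
noncomputable def l12570 : Lb := (@Lb.r r21 (@Lb.r r70 (@Lb.r r263 (@Lb.d (nat_lit 6) (nat_lit 512) (nat_lit 0) (@Lb.g g4 (@Lb.r r1557 (@Lb.r r283 (@Lb.r r388 (@Lb.r r2182 (@Lb.d (nat_lit 0) (nat_lit 0) (nat_lit 522) (@Lb.t (@Lb.fp (nat_lit 3) t86))))))))))))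
noncomputable def l12571 : Lb := (@Lb.r r21 (@Lb.r r70 (@Lb.r r263 (@Lb.d (nat_lit 289) (nat_lit 256) (nat_lit 0) (@Lb.g g4 (@Lb.r r267 (@Lb.r r74 (@Lb.r r25 (@Lb.d (nat_lit 536) (nat_lit 128) (nat_lit 0) (@Lb.t (@Lb.fm (nat_lit 3) t363)))))))))))
noncomputable def l12572 : Lb := (@Lb.d (nat_lit 576) (nat_lit 586) (nat_lit 322) (@Lb.r r33 (@Lb.r r1287 (@Lb.r r2628 (@Lb.g g7 (@Lb.g g10 (@Lb.d (nat_lit 64) (nat_lit 4) (nat_lit 161) (@Lb.r r401 (@Lb.fm (nat_lit 3) t71)))))))))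
noncomputable def l12573 : Lb := (@Lb.d (nat_lit 577) (nat_lit 549) (nat_lit 86) (@Lb.r r410 (@Lb.r r148 (@Lb.r r2389 (@Lb.r r1707 (@Lb.g g7 (@Lb.g g6 (@Lb.g g5 (@Lb.d (nat_lit 16) (nat_lit 17) (nat_lit 65) (@Lb.t (@Lb.fp (nat_lit 9) t119)))))))))))
noncomputable def l12574 : Lb := (@Lb.d (nat_lit 577) (nat_lit 37) (nat_lit 86) (@Lb.r r410 (@Lb.r r148 (@Lb.r r2389 (@Lb.r r1707 (@Lb.g g7 (@Lb.g g6 (@Lb.g g5 (@Lb.d (nat_lit 16) (nat_lit 17) (nat_lit 8) (@Lb.t (@Lb.fp (nat_lit 9) t119)))))))))))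
noncomputable def l12575 : Lb := (@Lb.d (nat_lit 144) (nat_lit 257) (nat_lit 33) (@Lb.r r1092 (@Lb.r r330 (@Lb.r r2579 (@Lb.g g5 (@Lb.g g4 (@Lb.d (nat_lit 17) (nat_lit 25) (nat_lit 0) (@Lb.fp (nat_lit 3) t546))))))))
noncomputable def l12576 : Lb := (@Lb.r r323 (@Lb.g g10 (@Lb.r r1354 (@Lb.r r1348 (@Lb.r r2587 (@Lb.r r409 (@Lb.d (nat_lit 256) (nat_lit 262) (nat_lit 0) (@Lb.t (@Lb.fm (nat_lit 3) t714)))))))))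
noncomputable def l12577 : Lb := (@Lb.d (nat_lit 9) (nat_lit 549) (nat_lit 74) (@Lb.g g8 (@Lb.g g9 (@Lb.g g10 (@Lb.g g11 (@Lb.r r1706 (@Lb.r r1688 (@Lb.r r1563 (@Lb.r r1561 (@Lb.d (nat_lit 9) (nat_lit 82) (nat_lit 586) (@Lb.fm (nat_lit 9) t125)))))))))))
noncomputable def l12578 : Lb := (@Lb.d (nat_lit 17) (nat_lit 256) (nat_lit 32) (@Lb.r r24 (@Lb.r r1125 (@Lb.r r2659 (@Lb.g g10 (@Lb.g g5 (@Lb.d (nat_lit 0) (nat_lit 10) (nat_lit 17) (@Lb.r r291 (@Lb.fm (nat_lit 3) t719)))))))))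
noncomputable def l12579 : Lb := (@Lb.r r21 (@Lb.d (nat_lit 18) (nat_lit 512) (nat_lit 74) (@Lb.g g4 (@Lb.g g10 (@Lb.g g11 (@Lb.r r1687 (@Lb.r r2401 (@Lb.r r1170 (@Lb.d (nat_lit 532) (nat_lit 72) (nat_lit 34) (@Lb.t (@Lb.fm (nat_lit 9) t68)))))))))))
noncomputable def l12580 : Lb := (@Lb.d (nat_lit 10) (nat_lit 256) (nat_lit 0) (@Lb.g g8 (@Lb.g g10 (@Lb.r r579 (@Lb.r r402 (@Lb.r r149 (@Lb.r r168 (@Lb.d (nat_lit 36) (nat_lit 6) (nat_lit 128) (@Lb.fp (nat_lit 3) t145)))))))))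
noncomputable def l12581 : Lb := (@Lb.r r323 (@Lb.d (nat_lit 0) (nat_lit 512) (nat_lit 10) (@Lb.g g9 (@Lb.g g10 (@Lb.r r595 (@Lb.r r338 (@Lb.d (nat_lit 0) (nat_lit 4) (nat_lit 70) (@Lb.fp (nat_lit 3) t51))))))))
noncomputable def l12582 : Lb := (@Lb.d (nat_lit 136) (nat_lit 256) (nat_lit 130) (@Lb.g g9 (@Lb.g g10 (@Lb.g g11 (@Lb.r r2214 (@Lb.r r1112 (@Lb.r r1445 (@Lb.r r1427 (@Lb.d (nat_lit 592) (nat_lit 90) (nat_lit 81) (@Lb.t (@Lb.fp (nat_lit 9) t284)))))))))))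
noncomputable def l12583 : Lb := (@Lb.d (nat_lit 34) (nat_lit 1) (nat_lit 64) (@Lb.g g8 (@Lb.g g9 (@Lb.g g11 (@Lb.r r1363 (@Lb.r r582 (@Lb.r r2212 (@Lb.r r2581 (@Lb.d (nat_lit 137) (nat_lit 149) (nat_lit 330) (@Lb.t (@Lb.fm (nat_lit 9) t881)))))))))))
noncomputable def l12584 : Lb := (@Lb.g g7 (@Lb.r r593 (@Lb.r r347 (@Lb.r r340 (@Lb.r r170 (@Lb.r r153 (@Lb.d (nat_lit 292) (nat_lit 513) (nat_lit 18) (@Lb.t (@Lb.fp (nat_lit 3) t127)))))))))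
noncomputable def l12585 : Lb := (@Lb.d (nat_lit 656) (nat_lit 0) (nat_lit 262) (@Lb.r r24 (@Lb.r r101 (@Lb.r r386 (@Lb.g g11 (@Lb.g g6 (@Lb.g g5 (@Lb.d (nat_lit 0) (nat_lit 0) (nat_lit 129) (@Lb.t (@Lb.fp (nat_lit 9) t719))))))))))
noncomputable def l12586 : Lb := (@Lb.d (nat_lit 17) (nat_lit 512) (nat_lit 70) (@Lb.r r24 (@Lb.r r101 (@Lb.r r386 (@Lb.g g11 (@Lb.g g6 (@Lb.g g5 (@Lb.d (nat_lit 0) (nat_lit 0) (nat_lit 6) (@Lb.t (@Lb.fp (nat_lit 9) t51))))))))))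
noncomputable def l12587 : Lb := (@Lb.r r326 (@Lb.r r664 (@Lb.r r411 (@Lb.r r533 (@Lb.r r36 (@Lb.d (nat_lit 0) (nat_lit 384) (nat_lit 394) (@Lb.fm (nat_lit 1) t242)))))))
noncomputable def l12588 : Lb := (@Lb.d (nat_lit 32) (nat_lit 0) (nat_lit 130) (@Lb.g g9 (@Lb.g g10 (@Lb.g g11 (@Lb.r r1307 (@Lb.r r2713 (@Lb.r r100 (@Lb.r r410 (@Lb.d (nat_lit 405) (nat_lit 82) (nat_lit 138) (@Lb.t (@Lb.fp (nat_lit 9) t1941)))))))))))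
noncomputable def l12589 : Lb := (@Lb.d (nat_lit 8) (nat_lit 544) (nat_lit 2) (@Lb.g g9 (@Lb.g g10 (@Lb.r r1190 (@Lb.r r1624 (@Lb.r r1691 (@Lb.r r1381 (@Lb.d (nat_lit 336) (nat_lit 42) (nat_lit 406) (@Lb.fm (nat_lit 3) t284)))))))))
noncomputable def l12590 : Lb := (@Lb.d (nat_lit 32) (nat_lit 0) (nat_lit 130) (@Lb.g g9 (@Lb.g g10 (@Lb.g g11 (@Lb.r r1707 (@Lb.r r2713 (@Lb.r r100 (@Lb.r r410 (@Lb.d (nat_lit 648) (nat_lit 16) (nat_lit 154) (@Lb.t (@Lb.fm (nat_lit 9) t1046)))))))))))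
noncomputable def l12591 : Lb := (@Lb.d (nat_lit 17) (nat_lit 256) (nat_lit 6) (@Lb.r r24 (@Lb.r r101 (@Lb.r r386 (@Lb.g g11 (@Lb.g g6 (@Lb.g g5 (@Lb.d (nat_lit 0) (nat_lit 10) (nat_lit 5) (@Lb.t (@Lb.fp (nat_lit 9) t51))))))))))
noncomputable def l12592 : Lb := (@Lb.d (nat_lit 321) (nat_lit 0) (nat_lit 32) (@Lb.r r24 (@Lb.r r1317 (@Lb.r r323 (@Lb.g g10 (@Lb.g g5 (@Lb.d (nat_lit 0) (nat_lit 0) (nat_lit 22) (@Lb.r r387 (@Lb.fp (nat_lit 3) t51)))))))))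
noncomputable def l12593 : Lb := (@Lb.r r21 (@Lb.d (nat_lit 16) (nat_lit 256) (nat_lit 128) (@Lb.g g8 (@Lb.g g10 (@Lb.g g11 (@Lb.r r603 (@Lb.r r2401 (@Lb.r r1170 (@Lb.r r1128 (@Lb.d (nat_lit 256) (nat_lit 73) (nat_lit 34) (@Lb.t (@Lb.fm (nat_lit 9) t74))))))))))))
noncomputable def l12594 : Lb := (@Lb.d (nat_lit 657) (nat_lit 0) (nat_lit 6) (@Lb.r r24 (@Lb.r r2661 (@Lb.r r386 (@Lb.g g11 (@Lb.g g6 (@Lb.g g5 (@Lb.d (nat_lit 0) (nat_lit 0) (nat_lit 1) (@Lb.t (@Lb.fp (nat_lit 9) t334))))))))))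
noncomputable def l12595 : Lb := (@Lb.d (nat_lit 0) (nat_lit 34) (nat_lit 0) (@Lb.g g5 (@Lb.r r419 (@Lb.r r1442 (@Lb.r r2465 (@Lb.d (nat_lit 0) (nat_lit 106) (nat_lit 101) (@Lb.t (@Lb.fm (nat_lit 3) t2869))))))))
noncomputable def l12596 : Lb := (@Lb.d (nat_lit 0) (nat_lit 402) (nat_lit 389) (@Lb.r r579 (@Lb.r r1362 (@Lb.g g6 (@Lb.g g5 (@Lb.d (nat_lit 0) (nat_lit 0) (nat_lit 1) (@Lb.fp (nat_lit 3) t87)))))))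
noncomputable def l12597 : Lb := (@Lb.d (nat_lit 0) (nat_lit 146) (nat_lit 389) (@Lb.r r579 (@Lb.r r1362 (@Lb.g g7 (@Lb.g g6 (@Lb.g g5 (@Lb.d (nat_lit 0) (nat_lit 0) (nat_lit 65) (@Lb.t (@Lb.fm (nat_lit 9) t87)))))))))
noncomputable def l12598 : Lb := (@Lb.r r1045 (@Lb.d (nat_lit 2) (nat_lit 256) (nat_lit 130) (@Lb.g g8 (@Lb.g g10 (@Lb.g g11 (@Lb.r r2379 (@Lb.r r386 (@Lb.r r72 (@Lb.d (nat_lit 290) (nat_lit 0) (nat_lit 136) (@Lb.t (@Lb.fm (nat_lit 9) t873)))))))))))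
noncomputable def l12599 : Lb := (@Lb.d (nat_lit 0) (nat_lit 1) (nat_lit 73) (@Lb.g g9 (@Lb.g g10 (@Lb.g g11 (@Lb.r r1707 (@Lb.r r1685 (@Lb.r r1178 (@Lb.r r24 (@Lb.d (nat_lit 69) (nat_lit 106) (nat_lit 100) (@Lb.t (@Lb.fp (nat_lit 9) t1959)))))))))))
noncomputable def l12600 : Lb := (@Lb.d (nat_lit 0) (nat_lit 258) (nat_lit 73) (@Lb.g g9 (@Lb.g g10 (@Lb.g g11 (@Lb.r r1699 (@Lb.r r1689 (@Lb.r r1178 (@Lb.r r24 (@Lb.d (nat_lit 160) (nat_lit 81) (nat_lit 169) (@Lb.t (@Lb.fp (nat_lit 9) t1959)))))))))))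
noncomputable def l12601 : Lb := (@Lb.d (nat_lit 0) (nat_lit 522) (nat_lit 73) (@Lb.g g9 (@Lb.g g10 (@Lb.g g11 (@Lb.r r2727 (@Lb.r r2209 (@Lb.r r424 (@Lb.r r106 (@Lb.d (nat_lit 533) (nat_lit 0) (nat_lit 34) (@Lb.t (@Lb.fp (nat_lit 9) t525)))))))))))
noncomputable def l12602 : Lb := (@Lb.d (nat_lit 402) (nat_lit 612) (nat_lit 424) (@Lb.r r82 (@Lb.r r2453 (@Lb.g g7 (@Lb.g g5 (@Lb.g g4 (@Lb.d (nat_lit 1) (nat_lit 18) (nat_lit 68) (@Lb.r r98 (@Lb.t (@Lb.fp (nat_lit 9) t1435))))))))))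
noncomputable def l12603 : Lb := (@Lb.d (nat_lit 646) (nat_lit 22) (nat_lit 513) (@Lb.r r1301 (@Lb.r r2667 (@Lb.r r1366 (@Lb.g g7 (@Lb.g g6 (@Lb.g g5 (@Lb.g g4 (@Lb.d (nat_lit 1) (nat_lit 6) (nat_lit 66) (@Lb.fm (nat_lit 9) t966))))))))))
noncomputable def l12604 : Lb := (@Lb.d (nat_lit 0) (nat_lit 650) (nat_lit 2) (@Lb.r r134 (@Lb.r r84 (@Lb.r r41 (@Lb.r r2571 (@Lb.g g4 (@Lb.d (nat_lit 1) (nat_lit 0) (nat_lit 0) (@Lb.t (@Lb.fp (nat_lit 3) t2870)))))))))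
noncomputable def l12605 : Lb := (@Lb.d (nat_lit 646) (nat_lit 344) (nat_lit 394) (@Lb.r r1301 (@Lb.r r1366 (@Lb.g g7 (@Lb.g g6 (@Lb.g g5 (@Lb.g g4 (@Lb.d (nat_lit 1) (nat_lit 1) (nat_lit 65) (@Lb.fp (nat_lit 9) t2871)))))))))
noncomputable def l12606 : Lb := (@Lb.d (nat_lit 0) (nat_lit 260) (nat_lit 105) (@Lb.g g9 (@Lb.g g6 (@Lb.g g11 (@Lb.r r2659 (@Lb.r r97 (@Lb.d (nat_lit 0) (nat_lit 40) (nat_lit 384) (@Lb.t (@Lb.fp (nat_lit 9) t2872)))))))))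
noncomputable def l12607 : Lb := (@Lb.r r273 (@Lb.r r322 (@Lb.g g11 (@Lb.r r267 (@Lb.r r280 (@Lb.r r101 (@Lb.r r146 (@Lb.d (nat_lit 0) (nat_lit 0) (nat_lit 2) (@Lb.t (@Lb.fm (nat_lit 3) t31))))))))))
noncomputable def l12608 : Lb := (@Lb.d (nat_lit 0) (nat_lit 512) (nat_lit 136) (@Lb.g g7 (@Lb.r r1361 (@Lb.r r610 (@Lb.r r2659 (@Lb.d (nat_lit 0) (nat_lit 165) (nat_lit 581) (@Lb.t (@Lb.fp (nat_lit 3) t124))))))))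
noncomputable def l12609 : Lb := (@Lb.d (nat_lit 5) (nat_lit 260) (nat_lit 33) (@Lb.r r1105 (@Lb.r r2214 (@Lb.r r1368 (@Lb.r r1575 (@Lb.g g5 (@Lb.r r98 (@Lb.t (@Lb.fp (nat_lit 3) t71)))))))))
noncomputable def l12610 : Lb := (@Lb.d (nat_lit 17) (nat_lit 0) (nat_lit 6) (@Lb.r r24 (@Lb.r r101 (@Lb.r r386 (@Lb.g g11 (@Lb.g g6 (@Lb.g g5 (@Lb.d (nat_lit 0) (nat_lit 0) (nat_lit 6) (@Lb.t (@Lb.fp (nat_lit 9) t51))))))))))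
noncomputable def l12611 : Lb := (@Lb.r r20 (@Lb.d (nat_lit 0) (nat_lit 514) (nat_lit 73) (@Lb.g g9 (@Lb.g g10 (@Lb.g g11 (@Lb.r r2658 (@Lb.r r579 (@Lb.r r8 (@Lb.d (nat_lit 8) (nat_lit 96) (nat_lit 586) (@Lb.t (@Lb.fm (nat_lit 9) t51)))))))))))
noncomputable def l12612 : Lb := (@Lb.r r20 (@Lb.d (nat_lit 0) (nat_lit 2) (nat_lit 130) (@Lb.g g9 (@Lb.g g10 (@Lb.g g11 (@Lb.r r2658 (@Lb.r r579 (@Lb.r r8 (@Lb.d (nat_lit 8) (nat_lit 96) (nat_lit 640) (@Lb.t (@Lb.fm (nat_lit 9) t51)))))))))))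
noncomputable def l12613 : Lb := (@Lb.r r20 (@Lb.d (nat_lit 0) (nat_lit 2) (nat_lit 74) (@Lb.g g9 (@Lb.g g10 (@Lb.g g11 (@Lb.r r610 (@Lb.r r579 (@Lb.r r8 (@Lb.d (nat_lit 8) (nat_lit 32) (nat_lit 74) (@Lb.t (@Lb.fm (nat_lit 9) t51)))))))))))
noncomputable def l12614 : Lb := (@Lb.d (nat_lit 0) (nat_lit 512) (nat_lit 10) (@Lb.g g9 (@Lb.g g10 (@Lb.r r323 (@Lb.r r658 (@Lb.r r101 (@Lb.r r24 (@Lb.d (nat_lit 2) (nat_lit 0) (nat_lit 20) (@Lb.fp (nat_lit 3) t564)))))))))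
noncomputable def l12615 : Lb := (@Lb.d (nat_lit 128) (nat_lit 0) (nat_lit 644) (@Lb.g g9 (@Lb.g g11 (@Lb.r r2376 (@Lb.r r1158 (@Lb.r r1169 (@Lb.d (nat_lit 530) (nat_lit 0) (nat_lit 128) (@Lb.fm (nat_lit 3) t296))))))))
noncomputable def l12616 : Lb := (@Lb.d (nat_lit 0) (nat_lit 512) (nat_lit 6) (@Lb.g g9 (@Lb.g g10 (@Lb.g g11 (@Lb.r r2443 (@Lb.r r2440 (@Lb.r r2122 (@Lb.r r1169 (@Lb.d (nat_lit 290) (nat_lit 0) (nat_lit 17) (@Lb.t (@Lb.fp (nat_lit 9) t296)))))))))))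
noncomputable def l12617 : Lb := (@Lb.d (nat_lit 1) (nat_lit 518) (nat_lit 1) (@Lb.r r289 (@Lb.r r279 (@Lb.r r584 (@Lb.r r326 (@Lb.g g7 (@Lb.g g6 (@Lb.g g5 (@Lb.d (nat_lit 4) (nat_lit 1) (nat_lit 65) (@Lb.t (@Lb.fp (nat_lit 9) t68)))))))))))
noncomputable def l12618 : Lb := (@Lb.d (nat_lit 9) (nat_lit 289) (nat_lit 132) (@Lb.g g8 (@Lb.g g9 (@Lb.g g10 (@Lb.g g11 (@Lb.r r682 (@Lb.r r676 (@Lb.r r551 (@Lb.r r533 (@Lb.r r36 (@Lb.d (nat_lit 137) (nat_lit 1) (nat_lit 74) (@Lb.fp (nat_lit 9) t74))))))))))))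
noncomputable def l12619 : Lb := (@Lb.d (nat_lit 1) (nat_lit 20) (nat_lit 65) (@Lb.r r657 (@Lb.r r667 (@Lb.r r584 (@Lb.r r326 (@Lb.g g7 (@Lb.g g6 (@Lb.g g5 (@Lb.d (nat_lit 0) (nat_lit 2) (nat_lit 65) (@Lb.t (@Lb.fp (nat_lit 9) t68)))))))))))
noncomputable def l12620 : Lb := (@Lb.d (nat_lit 5) (nat_lit 2) (nat_lit 1) (@Lb.r r289 (@Lb.r r279 (@Lb.r r584 (@Lb.g g6 (@Lb.g g5 (@Lb.d (nat_lit 16) (nat_lit 0) (nat_lit 1) (@Lb.r r387 (@Lb.fm (nat_lit 3) t68)))))))))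
noncomputable def l12621 : Lb := (@Lb.d (nat_lit 530) (nat_lit 256) (nat_lit 22) (@Lb.r r20 (@Lb.r r2153 (@Lb.r r386 (@Lb.g g11 (@Lb.g g6 (@Lb.g g5 (@Lb.g g4 (@Lb.d (nat_lit 10) (nat_lit 0) (nat_lit 129) (@Lb.fm (nat_lit 9) t51))))))))))
noncomputable def l12622 : Lb := (@Lb.d (nat_lit 10) (nat_lit 517) (nat_lit 74) (@Lb.g g8 (@Lb.g g9 (@Lb.g g10 (@Lb.g g11 (@Lb.r r1707 (@Lb.r r680 (@Lb.r r362 (@Lb.r r2665 (@Lb.r r2084 (@Lb.d (nat_lit 677) (nat_lit 96) (nat_lit 640) (@Lb.fm (nat_lit 9) t68))))))))))))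
noncomputable def l12623 : Lb := (@Lb.d (nat_lit 2) (nat_lit 384) (nat_lit 16) (@Lb.r r2129 (@Lb.r r1190 (@Lb.r r2392 (@Lb.r r1703 (@Lb.g g7 (@Lb.g g6 (@Lb.g g5 (@Lb.d (nat_lit 0) (nat_lit 0) (nat_lit 65) (@Lb.t (@Lb.fm (nat_lit 9) t144)))))))))))
noncomputable def l12624 : Lb := (@Lb.r r323 (@Lb.d (nat_lit 0) (nat_lit 553) (nat_lit 1) (@Lb.g g9 (@Lb.g g10 (@Lb.r r603 (@Lb.r r600 (@Lb.r r102 (@Lb.r r101 (@Lb.d (nat_lit 26) (nat_lit 129) (nat_lit 5) (@Lb.fp (nat_lit 3) t2873))))))))))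
noncomputable def l12625 : Lb := (@Lb.d (nat_lit 6) (nat_lit 385) (nat_lit 16) (@Lb.r r2129 (@Lb.r r1190 (@Lb.r r2392 (@Lb.r r1703 (@Lb.g g7 (@Lb.g g6 (@Lb.g g5 (@Lb.d (nat_lit 0) (nat_lit 0) (nat_lit 65) (@Lb.t (@Lb.fm (nat_lit 9) t144)))))))))))
noncomputable def l12626 : Lb := (@Lb.d (nat_lit 32) (nat_lit 266) (nat_lit 72) (@Lb.g g9 (@Lb.g g10 (@Lb.g g11 (@Lb.r r1707 (@Lb.r r609 (@Lb.r r1128 (@Lb.r r2454 (@Lb.d (nat_lit 601) (nat_lit 82) (nat_lit 682) (@Lb.t (@Lb.fm (nat_lit 9) t2390)))))))))))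
noncomputable def l12627 : Lb := (@Lb.d (nat_lit 4) (nat_lit 257) (nat_lit 9) (@Lb.g g5 (@Lb.g g10 (@Lb.g g11 (@Lb.r r2691 (@Lb.r r1178 (@Lb.r r24 (@Lb.d (nat_lit 129) (nat_lit 1) (nat_lit 424) (@Lb.t (@Lb.fm (nat_lit 9) t282))))))))))
noncomputable def l12628 : Lb := (@Lb.d (nat_lit 0) (nat_lit 2) (nat_lit 64) (@Lb.g g9 (@Lb.g g11 (@Lb.r r1371 (@Lb.r r1368 (@Lb.r r2214 (@Lb.r r2197 (@Lb.d (nat_lit 41) (nat_lit 138) (nat_lit 18) (@Lb.fm (nat_lit 3) t881)))))))))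
noncomputable def l12629 : Lb := (@Lb.d (nat_lit 0) (nat_lit 548) (nat_lit 133) (@Lb.g g9 (@Lb.g g10 (@Lb.g g11 (@Lb.r r1703 (@Lb.r r1368 (@Lb.r r2214 (@Lb.r r1177 (@Lb.d (nat_lit 278) (nat_lit 0) (nat_lit 32) (@Lb.t (@Lb.fp (nat_lit 9) t2390)))))))))))
noncomputable def l12630 : Lb := (@Lb.d (nat_lit 32) (nat_lit 266) (nat_lit 72) (@Lb.g g9 (@Lb.g g10 (@Lb.g g11 (@Lb.r r1707 (@Lb.r r609 (@Lb.r r1128 (@Lb.r r2454 (@Lb.d (nat_lit 594) (nat_lit 153) (nat_lit 681) (@Lb.t (@Lb.fm (nat_lit 9) t68)))))))))))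
noncomputable def l12631 : Lb := (@Lb.r r323 (@Lb.d (nat_lit 0) (nat_lit 520) (nat_lit 6) (@Lb.g g10 (@Lb.r r387 (@Lb.d (nat_lit 0) (nat_lit 4) (nat_lit 138) (@Lb.t (@Lb.fp (nat_lit 3) t51)))))))
noncomputable def l12632 : Lb := (@Lb.d (nat_lit 4) (nat_lit 257) (nat_lit 0) (@Lb.g g5 (@Lb.r r2331 (@Lb.r r24 (@Lb.d (nat_lit 66) (nat_lit 1) (nat_lit 512) (@Lb.t (@Lb.fp (nat_lit 3) t1165)))))))
noncomputable def l12633 : Lb := (@Lb.d (nat_lit 10) (nat_lit 132) (nat_lit 17) (@Lb.r r2129 (@Lb.r r1190 (@Lb.r r2392 (@Lb.r r1703 (@Lb.g g7 (@Lb.g g6 (@Lb.g g5 (@Lb.d (nat_lit 0) (nat_lit 5) (nat_lit 2) (@Lb.t (@Lb.fm (nat_lit 9) t119)))))))))))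
noncomputable def l12634 : Lb := (@Lb.d (nat_lit 5) (nat_lit 646) (nat_lit 17) (@Lb.r r2129 (@Lb.r r1190 (@Lb.r r2392 (@Lb.r r1703 (@Lb.g g6 (@Lb.g g5 (@Lb.r r387 (@Lb.fp (nat_lit 3) t119)))))))))
noncomputable def l12635 : Lb := (@Lb.g g9 (@Lb.r r154 (@Lb.r r660 (@Lb.r r407 (@Lb.r r609 (@Lb.d (nat_lit 0) (nat_lit 657) (nat_lit 0) (@Lb.t (@Lb.fp (nat_lit 3) t71))))))))
noncomputable def l12636 : Lb := (@Lb.d (nat_lit 134) (nat_lit 586) (nat_lit 85) (@Lb.r r390 (@Lb.r r72 (@Lb.r r279 (@Lb.r r545 (@Lb.g g7 (@Lb.g g6 (@Lb.g g5 (@Lb.d (nat_lit 16) (nat_lit 0) (nat_lit 65) (@Lb.t (@Lb.fm (nat_lit 9) t422)))))))))))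
noncomputable def l12637 : Lb := (@Lb.r r134 (@Lb.r r328 (@Lb.r r407 (@Lb.r r609 (@Lb.d (nat_lit 0) (nat_lit 512) (nat_lit 85) (@Lb.fm (nat_lit 1) t479))))))
noncomputable def l12638 : Lb := (@Lb.d (nat_lit 0) (nat_lit 290) (nat_lit 66) (@Lb.g g9 (@Lb.g g10 (@Lb.g g11 (@Lb.r r387 (@Lb.r r1634 (@Lb.r r1553 (@Lb.d (nat_lit 0) (nat_lit 137) (nat_lit 10) (@Lb.t (@Lb.fm (nat_lit 9) t719))))))))))
noncomputable def l12639 : Lb := (@Lb.r r579 (@Lb.r r402 (@Lb.r r2145 (@Lb.r r36 (@Lb.fm (nat_lit 1) t940)))))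
noncomputable def l12640 : Lb := (@Lb.d (nat_lit 582) (nat_lit 294) (nat_lit 86) (@Lb.r r410 (@Lb.r r148 (@Lb.r r2389 (@Lb.r r1707 (@Lb.g g7 (@Lb.g g6 (@Lb.g g5 (@Lb.d (nat_lit 16) (nat_lit 17) (nat_lit 65) (@Lb.t (@Lb.fp (nat_lit 9) t119)))))))))))
noncomputable def l12641 : Lb := (@Lb.d (nat_lit 130) (nat_lit 258) (nat_lit 2) (@Lb.g g8 (@Lb.g g9 (@Lb.g g10 (@Lb.r r2691 (@Lb.r r2217 (@Lb.r r2666 (@Lb.r r104 (@Lb.d (nat_lit 677) (nat_lit 10) (nat_lit 329) (@Lb.t (@Lb.fp (nat_lit 9) t242)))))))))))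
noncomputable def l12642 : Lb := (@Lb.r r322 (@Lb.d (nat_lit 128) (nat_lit 256) (nat_lit 132) (@Lb.g g11 (@Lb.r r1304 (@Lb.r r2149 (@Lb.r r146 (@Lb.d (nat_lit 0) (nat_lit 9) (nat_lit 146) (@Lb.t (@Lb.fm (nat_lit 3) t307)))))))))
noncomputable def l12643 : Lb := (@Lb.d (nat_lit 326) (nat_lit 161) (nat_lit 101) (@Lb.r r410 (@Lb.r r148 (@Lb.r r1365 (@Lb.r r1707 (@Lb.g g7 (@Lb.g g6 (@Lb.g g5 (@Lb.d (nat_lit 16) (nat_lit 0) (nat_lit 1) (@Lb.t (@Lb.fp (nat_lit 9) t1389)))))))))))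
noncomputable def l12644 : Lb := (@Lb.r r21 (@Lb.r r70 (@Lb.g g4 (@Lb.r r1559 (@Lb.r r405 (@Lb.r r86 (@Lb.r r2148 (@Lb.d (nat_lit 516) (nat_lit 64) (nat_lit 0) (@Lb.t (@Lb.fp (nat_lit 3) t74))))))))))
noncomputable def l12645 : Lb := (@Lb.r r21 (@Lb.r r70 (@Lb.d (nat_lit 10) (nat_lit 512) (nat_lit 0) (@Lb.g g8 (@Lb.r r1301 (@Lb.r r679 (@Lb.r r1354 (@Lb.r r2440 (@Lb.d (nat_lit 682) (nat_lit 128) (nat_lit 682) (@Lb.t (@Lb.fp (nat_lit 3) t125)))))))))))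
noncomputable def l12646 : Lb := (@Lb.d (nat_lit 657) (nat_lit 512) (nat_lit 384) (@Lb.r r24 (@Lb.r r101 (@Lb.g g10 (@Lb.g g5 (@Lb.fp (nat_lit 3) t2775))))))
noncomputable def l12647 : Lb := (@Lb.d (nat_lit 0) (nat_lit 421) (nat_lit 517) (@Lb.r r2401 (@Lb.r r1687 (@Lb.r r2388 (@Lb.r r1194 (@Lb.g g5 (@Lb.d (nat_lit 4) (nat_lit 1) (nat_lit 0) (@Lb.t (@Lb.fp (nat_lit 3) t40)))))))))
noncomputable def l12648 : Lb := (@Lb.d (nat_lit 32) (nat_lit 0) (nat_lit 74) (@Lb.g g10 (@Lb.g g11 (@Lb.r r361 (@Lb.r r667 (@Lb.r r1124 (@Lb.r r2458 (@Lb.d (nat_lit 168) (nat_lit 146) (nat_lit 649) (@Lb.fp (nat_lit 3) t787)))))))))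
noncomputable def l12649 : Lb := (@Lb.r r360 (@Lb.r r1303 (@Lb.r r2178 (@Lb.r r2081 (@Lb.r r516 (@Lb.d (nat_lit 0) (nat_lit 1) (nat_lit 2) (@Lb.fm (nat_lit 1) t776)))))))
noncomputable def l12650 : Lb := (@Lb.d (nat_lit 128) (nat_lit 514) (nat_lit 644) (@Lb.g g9 (@Lb.g g11 (@Lb.r r2376 (@Lb.r r1158 (@Lb.r r25 (@Lb.d (nat_lit 6) (nat_lit 134) (nat_lit 128) (@Lb.fm (nat_lit 3) t1503))))))))
noncomputable def l12651 : Lb := (@Lb.d (nat_lit 0) (nat_lit 2) (nat_lit 128) (@Lb.g g9 (@Lb.g g11 (@Lb.r r2595 (@Lb.r r1634 (@Lb.r r2657 (@Lb.d (nat_lit 0) (nat_lit 165) (nat_lit 137) (@Lb.fm (nat_lit 3) t1421))))))))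
noncomputable def l12652 : Lb := (@Lb.d (nat_lit 0) (nat_lit 170) (nat_lit 580) (@Lb.r r1426 (@Lb.r r1637 (@Lb.r r1304 (@Lb.r r2371 (@Lb.g g7 (@Lb.g g6 (@Lb.d (nat_lit 16) (nat_lit 0) (nat_lit 129) (@Lb.fp (nat_lit 3) t1549)))))))))
noncomputable def l12653 : Lb := (@Lb.d (nat_lit 0) (nat_lit 338) (nat_lit 320) (@Lb.r r21 (@Lb.r r579 (@Lb.r r1366 (@Lb.g g7 (@Lb.g g6 (@Lb.g g5 (@Lb.g g4 (@Lb.d (nat_lit 0) (nat_lit 1) (nat_lit 65) (@Lb.fm (nat_lit 9) t319))))))))))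
noncomputable def l12654 : Lb := (@Lb.r r134 (@Lb.r r328 (@Lb.r r535 (@Lb.r r289 (@Lb.d (nat_lit 0) (nat_lit 600) (nat_lit 521) (@Lb.fp (nat_lit 1) t51))))))
noncomputable def l12655 : Lb := (@Lb.d (nat_lit 1) (nat_lit 165) (nat_lit 4) (@Lb.r r359 (@Lb.r r421 (@Lb.r r106 (@Lb.r r72 (@Lb.g g7 (@Lb.g g6 (@Lb.g g5 (@Lb.d (nat_lit 84) (nat_lit 0) (nat_lit 65) (@Lb.t (@Lb.fp (nat_lit 9) t2)))))))))))
noncomputable def l12656 : Lb := (@Lb.r r82 (@Lb.r r275 (@Lb.g g4 (@Lb.g g5 (@Lb.r r1291 (@Lb.r r1098 (@Lb.r r2072 (@Lb.r r2069 (@Lb.d (nat_lit 513) (nat_lit 384) (nat_lit 0) (@Lb.fp (nat_lit 3) t367))))))))))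
noncomputable def l12657 : Lb := (@Lb.d (nat_lit 137) (nat_lit 0) (nat_lit 0) (@Lb.g g8 (@Lb.r r1621 (@Lb.r r1559 (@Lb.r r2178 (@Lb.r r1444 (@Lb.d (nat_lit 362) (nat_lit 166) (nat_lit 426) (@Lb.t (@Lb.fp (nat_lit 3) t296)))))))))
noncomputable def l12658 : Lb := (@Lb.d (nat_lit 0) (nat_lit 170) (nat_lit 580) (@Lb.r r1426 (@Lb.r r1637 (@Lb.r r1304 (@Lb.r r2371 (@Lb.g g7 (@Lb.g g6 (@Lb.g g5 (@Lb.d (nat_lit 16) (nat_lit 0) (nat_lit 129) (@Lb.t (@Lb.fm (nat_lit 9) t1549)))))))))))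
noncomputable def l12659 : Lb := (@Lb.d (nat_lit 537) (nat_lit 260) (nat_lit 16) (@Lb.r r1094 (@Lb.r r2440 (@Lb.r r535 (@Lb.r r1361 (@Lb.g g7 (@Lb.g g6 (@Lb.g g5 (@Lb.d (nat_lit 0) (nat_lit 1) (nat_lit 70) (@Lb.t (@Lb.fp (nat_lit 9) t590)))))))))))
noncomputable def l12660 : Lb := (@Lb.d (nat_lit 609) (nat_lit 548) (nat_lit 84) (@Lb.r r359 (@Lb.r r532 (@Lb.r r281 (@Lb.g g7 (@Lb.g g10 (@Lb.g g5 (@Lb.d (nat_lit 64) (nat_lit 1) (nat_lit 17) (@Lb.t (@Lb.fm (nat_lit 9) t246))))))))))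
noncomputable def l12661 : Lb := (@Lb.r r24 (@Lb.r r1045 (@Lb.r r36 (@Lb.d (nat_lit 290) (nat_lit 0) (nat_lit 34) (@Lb.fm (nat_lit 1) t127)))))
noncomputable def l12662 : Lb := (@Lb.d (nat_lit 6) (nat_lit 392) (nat_lit 514) (@Lb.r r1313 (@Lb.r r2327 (@Lb.r r584 (@Lb.r r326 (@Lb.g g7 (@Lb.g g6 (@Lb.g g5 (@Lb.d (nat_lit 0) (nat_lit 1) (nat_lit 65) (@Lb.t (@Lb.fp (nat_lit 9) t728)))))))))))
noncomputable def l12663 : Lb := (@Lb.d (nat_lit 2) (nat_lit 297) (nat_lit 1) (@Lb.g g8 (@Lb.g g9 (@Lb.g g10 (@Lb.r r1194 (@Lb.r r2468 (@Lb.r r1627 (@Lb.r r1445 (@Lb.d (nat_lit 357) (nat_lit 36) (nat_lit 384) (@Lb.t (@Lb.fp (nat_lit 9) t2075)))))))))))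
noncomputable def l12664 : Lb := (@Lb.d (nat_lit 2) (nat_lit 545) (nat_lit 66) (@Lb.g g8 (@Lb.g g9 (@Lb.g g10 (@Lb.g g11 (@Lb.r r1706 (@Lb.r r676 (@Lb.r r551 (@Lb.r r533 (@Lb.r r1060 (@Lb.d (nat_lit 386) (nat_lit 2) (nat_lit 586) (@Lb.fp (nat_lit 9) t74))))))))))))
noncomputable def l12665 : Lb := (@Lb.d (nat_lit 160) (nat_lit 512) (nat_lit 73) (@Lb.g g10 (@Lb.g g11 (@Lb.r r260 (@Lb.r r1627 (@Lb.r r2457 (@Lb.r r2450 (@Lb.d (nat_lit 101) (nat_lit 153) (nat_lit 537) (@Lb.fm (nat_lit 3) t263)))))))))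
noncomputable def l12666 : Lb := (@Lb.d (nat_lit 10) (nat_lit 512) (nat_lit 0) (@Lb.g g4 (@Lb.r r2089 (@Lb.r r1064 (@Lb.d (nat_lit 550) (nat_lit 1) (nat_lit 34) (@Lb.t (@Lb.fm (nat_lit 3) t127)))))))
noncomputable def l12667 : Lb := (@Lb.d (nat_lit 681) (nat_lit 424) (nat_lit 617) (@Lb.r r2713 (@Lb.r r2459 (@Lb.r r2392 (@Lb.r r1702 (@Lb.g g7 (@Lb.g g6 (@Lb.g g5 (@Lb.d (nat_lit 4) (nat_lit 17) (nat_lit 129) (@Lb.t (@Lb.fp (nat_lit 9) t51)))))))))))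
noncomputable def l12668 : Lb := (@Lb.d (nat_lit 680) (nat_lit 424) (nat_lit 617) (@Lb.r r2713 (@Lb.r r2459 (@Lb.r r2392 (@Lb.r r1702 (@Lb.g g7 (@Lb.g g6 (@Lb.g g5 (@Lb.d (nat_lit 4) (nat_lit 22) (nat_lit 130) (@Lb.t (@Lb.fp (nat_lit 9) t51)))))))))))
noncomputable def l12669 : Lb := (@Lb.d (nat_lit 0) (nat_lit 512) (nat_lit 42) (@Lb.r r609 (@Lb.r r363 (@Lb.r r328 (@Lb.r r134 (@Lb.g g4 (@Lb.d (nat_lit 1) (nat_lit 0) (nat_lit 0) (@Lb.t (@Lb.fp (nat_lit 3) t167)))))))))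
noncomputable def l12670 : Lb := (@Lb.r r609 (@Lb.r r363 (@Lb.r r356 (@Lb.r r154 (@Lb.d (nat_lit 257) (nat_lit 10) (nat_lit 18) (@Lb.fp (nat_lit 1) t743))))))
noncomputable def l12671 : Lb := (@Lb.d (nat_lit 0) (nat_lit 256) (nat_lit 132) (@Lb.g g7 (@Lb.r r402 (@Lb.d (nat_lit 0) (nat_lit 8) (nat_lit 65) (@Lb.t (@Lb.fp (nat_lit 3) t44))))))
noncomputable def l12672 : Lb := (@Lb.d (nat_lit 0) (nat_lit 0) (nat_lit 73) (@Lb.g g10 (@Lb.g g11 (@Lb.r r289 (@Lb.r r535 (@Lb.r r2440 (@Lb.r r2122 (@Lb.d (nat_lit 274) (nat_lit 10) (nat_lit 32) (@Lb.fp (nat_lit 3) t167)))))))))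
noncomputable def l12673 : Lb := (@Lb.d (nat_lit 136) (nat_lit 512) (nat_lit 64) (@Lb.g g9 (@Lb.g g11 (@Lb.r r152 (@Lb.r r2405 (@Lb.r r2387 (@Lb.r r2178 (@Lb.d (nat_lit 98) (nat_lit 90) (nat_lit 82) (@Lb.fp (nat_lit 3) t229)))))))))
noncomputable def l12674 : Lb := (@Lb.d (nat_lit 128) (nat_lit 32) (nat_lit 73) (@Lb.g g10 (@Lb.g g11 (@Lb.r r361 (@Lb.r r1448 (@Lb.r r2327 (@Lb.d (nat_lit 582) (nat_lit 146) (nat_lit 657) (@Lb.fm (nat_lit 3) t307))))))))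
noncomputable def l12675 : Lb := (@Lb.g g7 (@Lb.r r609 (@Lb.r r363 (@Lb.r r356 (@Lb.r r154 (@Lb.d (nat_lit 257) (nat_lit 512) (nat_lit 16) (@Lb.t (@Lb.fm (nat_lit 3) t743))))))))
noncomputable def l12676 : Lb := (@Lb.r r1617 (@Lb.r r354 (@Lb.r r1427 (@Lb.d (nat_lit 0) (nat_lit 266) (nat_lit 546) (@Lb.fp (nat_lit 1) t124)))))
noncomputable def l12677 : Lb := (@Lb.d (nat_lit 0) (nat_lit 384) (nat_lit 576) (@Lb.r r609 (@Lb.r r363 (@Lb.r r356 (@Lb.r r154 (@Lb.g g4 (@Lb.d (nat_lit 1) (nat_lit 0) (nat_lit 0) (@Lb.t (@Lb.fm (nat_lit 3) t743)))))))))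
noncomputable def l12678 : Lb := (@Lb.r r280 (@Lb.r r1383 (@Lb.r r2178 (@Lb.r r1429 (@Lb.r r1572 (@Lb.d (nat_lit 4) (nat_lit 257) (nat_lit 16) (@Lb.fp (nat_lit 1) t2874)))))))
noncomputable def l12679 : Lb := (@Lb.d (nat_lit 0) (nat_lit 640) (nat_lit 522) (@Lb.r r609 (@Lb.r r363 (@Lb.r r356 (@Lb.r r154 (@Lb.g g4 (@Lb.d (nat_lit 1) (nat_lit 0) (nat_lit 0) (@Lb.t (@Lb.fm (nat_lit 3) t743)))))))))
noncomputable def l12680 : Lb := (@Lb.d (nat_lit 0) (nat_lit 545) (nat_lit 0) (@Lb.g g5 (@Lb.r r363 (@Lb.r r356 (@Lb.r r154 (@Lb.d (nat_lit 10) (nat_lit 138) (nat_lit 34) (@Lb.t (@Lb.fp (nat_lit 3) t232))))))))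
noncomputable def l12681 : Lb := (@Lb.d (nat_lit 65) (nat_lit 256) (nat_lit 593) (@Lb.r r24 (@Lb.r r101 (@Lb.r r2658 (@Lb.r r2467 (@Lb.g g7 (@Lb.g g6 (@Lb.g g5 (@Lb.d (nat_lit 0) (nat_lit 0) (nat_lit 8) (@Lb.t (@Lb.fp (nat_lit 9) t719)))))))))))
noncomputable def l12682 : Lb := (@Lb.d (nat_lit 326) (nat_lit 416) (nat_lit 150) (@Lb.r r410 (@Lb.r r148 (@Lb.r r1365 (@Lb.g g7 (@Lb.g g6 (@Lb.g g5 (@Lb.d (nat_lit 80) (nat_lit 0) (nat_lit 385) (@Lb.t (@Lb.fm (nat_lit 9) t98))))))))))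
noncomputable def l12683 : Lb := (@Lb.d (nat_lit 326) (nat_lit 353) (nat_lit 150) (@Lb.r r410 (@Lb.r r148 (@Lb.r r1365 (@Lb.g g7 (@Lb.g g6 (@Lb.g g5 (@Lb.d (nat_lit 80) (nat_lit 0) (nat_lit 385) (@Lb.t (@Lb.fm (nat_lit 9) t98))))))))))
noncomputable def l12684 : Lb := (@Lb.d (nat_lit 10) (nat_lit 520) (nat_lit 130) (@Lb.g g8 (@Lb.g g10 (@Lb.g g11 (@Lb.r r293 (@Lb.r r347 (@Lb.r r2658 (@Lb.r r2120 (@Lb.d (nat_lit 545) (nat_lit 73) (nat_lit 146) (@Lb.t (@Lb.fm (nat_lit 9) t2637)))))))))))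
noncomputable def l12685 : Lb := (@Lb.g g9 (@Lb.g g6 (@Lb.r r1543 (@Lb.r r1105 (@Lb.r r2392 (@Lb.r r1190 (@Lb.d (nat_lit 258) (nat_lit 512) (nat_lit 0) (@Lb.fm (nat_lit 3) t2366))))))))
noncomputable def l12686 : Lb := (@Lb.d (nat_lit 656) (nat_lit 512) (nat_lit 522) (@Lb.r r24 (@Lb.r r613 (@Lb.r r386 (@Lb.r r1699 (@Lb.g g6 (@Lb.g g5 (@Lb.d (nat_lit 0) (nat_lit 0) (nat_lit 1) (@Lb.r r291 (@Lb.fm (nat_lit 3) t719))))))))))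
noncomputable def l12687 : Lb := (@Lb.d (nat_lit 514) (nat_lit 2) (nat_lit 1) (@Lb.r r24 (@Lb.r r386 (@Lb.r r2651 (@Lb.g g9 (@Lb.d (nat_lit 8) (nat_lit 1) (nat_lit 0) (@Lb.r r291 (@Lb.r r98 (@Lb.t (@Lb.fm (nat_lit 3) t719))))))))))
noncomputable def l12688 : Lb := (@Lb.d (nat_lit 0) (nat_lit 546) (nat_lit 128) (@Lb.g g9 (@Lb.g g11 (@Lb.r r289 (@Lb.r r2323 (@Lb.r r2577 (@Lb.d (nat_lit 0) (nat_lit 162) (nat_lit 256) (@Lb.fp (nat_lit 3) t2875))))))))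
noncomputable def l12689 : Lb := (@Lb.d (nat_lit 0) (nat_lit 0) (nat_lit 130) (@Lb.g g9 (@Lb.g g10 (@Lb.g g11 (@Lb.r r419 (@Lb.r r386 (@Lb.d (nat_lit 0) (nat_lit 105) (nat_lit 17) (@Lb.t (@Lb.fp (nat_lit 9) t305)))))))))
noncomputable def l12690 : Lb := (@Lb.d (nat_lit 160) (nat_lit 256) (nat_lit 130) (@Lb.g g9 (@Lb.g g10 (@Lb.g g11 (@Lb.r r264 (@Lb.r r279 (@Lb.r r613 (@Lb.r r410 (@Lb.d (nat_lit 289) (nat_lit 26) (nat_lit 84) (@Lb.t (@Lb.fp (nat_lit 9) t127)))))))))))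
noncomputable def l12691 : Lb := (@Lb.d (nat_lit 128) (nat_lit 0) (nat_lit 128) (@Lb.g g9 (@Lb.g g11 (@Lb.r r597 (@Lb.r r292 (@Lb.r r1371 (@Lb.r r2178 (@Lb.d (nat_lit 666) (nat_lit 89) (nat_lit 154) (@Lb.fp (nat_lit 3) t2876)))))))))
noncomputable def l12692 : Lb := (@Lb.d (nat_lit 0) (nat_lit 550) (nat_lit 128) (@Lb.g g9 (@Lb.g g10 (@Lb.g g11 (@Lb.r r387 (@Lb.r r1682 (@Lb.r r1633 (@Lb.d (nat_lit 0) (nat_lit 21) (nat_lit 650) (@Lb.t (@Lb.fm (nat_lit 9) t406))))))))))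
noncomputable def l12693 : Lb := (@Lb.d (nat_lit 128) (nat_lit 512) (nat_lit 145) (@Lb.g g9 (@Lb.g g10 (@Lb.g g11 (@Lb.r r2709 (@Lb.r r292 (@Lb.r r411 (@Lb.d (nat_lit 661) (nat_lit 25) (nat_lit 168) (@Lb.t (@Lb.fm (nat_lit 9) t1775))))))))))
noncomputable def l12694 : Lb := (@Lb.d (nat_lit 128) (nat_lit 0) (nat_lit 130) (@Lb.g g9 (@Lb.g g10 (@Lb.g g11 (@Lb.r r264 (@Lb.r r279 (@Lb.r r161 (@Lb.r r98 (@Lb.d (nat_lit 97) (nat_lit 8) (nat_lit 168) (@Lb.t (@Lb.fm (nat_lit 9) t97)))))))))))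
noncomputable def l12695 : Lb := (@Lb.d (nat_lit 0) (nat_lit 42) (nat_lit 128) (@Lb.g g9 (@Lb.g g11 (@Lb.r r402 (@Lb.r r1379 (@Lb.r r353 (@Lb.d (nat_lit 0) (nat_lit 166) (nat_lit 166) (@Lb.fm (nat_lit 3) t406))))))))
noncomputable def l12696 : Lb := (@Lb.d (nat_lit 2) (nat_lit 258) (nat_lit 2) (@Lb.g g8 (@Lb.g g9 (@Lb.g g10 (@Lb.g g11 (@Lb.r r2666 (@Lb.r r579 (@Lb.r r2337 (@Lb.r r24 (@Lb.d (nat_lit 586) (nat_lit 144) (nat_lit 320) (@Lb.fm (nat_lit 9) t504)))))))))))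
noncomputable def l12697 : Lb := (@Lb.d (nat_lit 0) (nat_lit 546) (nat_lit 0) (@Lb.g g9 (@Lb.r r1303 (@Lb.r r2178 (@Lb.r r1700 (@Lb.r r1573 (@Lb.d (nat_lit 394) (nat_lit 153) (nat_lit 274) (@Lb.t (@Lb.fp (nat_lit 3) t124)))))))))
noncomputable def l12698 : Lb := (@Lb.d (nat_lit 64) (nat_lit 416) (nat_lit 69) (@Lb.r r410 (@Lb.r r148 (@Lb.r r1365 (@Lb.r r2627 (@Lb.g g7 (@Lb.g g6 (@Lb.g g5 (@Lb.d (nat_lit 16) (nat_lit 0) (nat_lit 1) (@Lb.t (@Lb.fp (nat_lit 9) t2697)))))))))))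
noncomputable def l12699 : Lb := (@Lb.d (nat_lit 289) (nat_lit 0) (nat_lit 64) (@Lb.r r2194 (@Lb.r r101 (@Lb.r r1304 (@Lb.g g7 (@Lb.g g6 (@Lb.d (nat_lit 64) (nat_lit 32) (nat_lit 576) (@Lb.fp (nat_lit 3) t152))))))))
noncomputable def l12700 : Lb := (@Lb.d (nat_lit 130) (nat_lit 0) (nat_lit 0) (@Lb.g g4 (@Lb.r r2469 (@Lb.r r603 (@Lb.r r2178 (@Lb.r r536 (@Lb.d (nat_lit 133) (nat_lit 24) (nat_lit 274) (@Lb.t (@Lb.fm (nat_lit 3) t124)))))))))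
noncomputable def l12701 : Lb := (@Lb.d (nat_lit 10) (nat_lit 68) (nat_lit 33) (@Lb.r r37 (@Lb.r r1190 (@Lb.r r2392 (@Lb.r r647 (@Lb.g g6 (@Lb.r r145 (@Lb.t (@Lb.fm (nat_lit 3) t100)))))))))
noncomputable def l12702 : Lb := (@Lb.d (nat_lit 2) (nat_lit 2) (nat_lit 2) (@Lb.g g8 (@Lb.g g9 (@Lb.g g10 (@Lb.g g7 (@Lb.r r386 (@Lb.r r2657 (@Lb.r r24 (@Lb.d (nat_lit 10) (nat_lit 164) (nat_lit 420) (@Lb.fp (nat_lit 9) t2877))))))))))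
noncomputable def l12703 : Lb := (@Lb.d (nat_lit 0) (nat_lit 292) (nat_lit 133) (@Lb.g g9 (@Lb.g g10 (@Lb.g g11 (@Lb.r r1703 (@Lb.r r360 (@Lb.r r150 (@Lb.r r2085 (@Lb.d (nat_lit 16) (nat_lit 4) (nat_lit 2) (@Lb.t (@Lb.fm (nat_lit 9) t2878)))))))))))
noncomputable def l12704 : Lb := (@Lb.d (nat_lit 0) (nat_lit 2) (nat_lit 2) (@Lb.g g9 (@Lb.g g10 (@Lb.g g7 (@Lb.r r386 (@Lb.r r2657 (@Lb.d (nat_lit 0) (nat_lit 169) (nat_lit 421) (@Lb.t (@Lb.fp (nat_lit 9) t603)))))))))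
noncomputable def l12705 : Lb := (@Lb.d (nat_lit 0) (nat_lit 256) (nat_lit 130) (@Lb.g g9 (@Lb.g g10 (@Lb.g g11 (@Lb.r r419 (@Lb.r r386 (@Lb.d (nat_lit 0) (nat_lit 100) (nat_lit 16) (@Lb.t (@Lb.fp (nat_lit 9) t305)))))))))
noncomputable def l12706 : Lb := (@Lb.r r322 (@Lb.d (nat_lit 0) (nat_lit 256) (nat_lit 136) (@Lb.g g9 (@Lb.g g11 (@Lb.r r1426 (@Lb.d (nat_lit 0) (nat_lit 69) (nat_lit 145) (@Lb.fp (nat_lit 3) t334)))))))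
noncomputable def l12707 : Lb := (@Lb.d (nat_lit 0) (nat_lit 258) (nat_lit 2) (@Lb.g g9 (@Lb.g g10 (@Lb.g g7 (@Lb.r r386 (@Lb.r r2657 (@Lb.d (nat_lit 0) (nat_lit 164) (nat_lit 420) (@Lb.t (@Lb.fp (nat_lit 9) t2788)))))))))
noncomputable def l12708 : Lb := (@Lb.r r323 (@Lb.d (nat_lit 37) (nat_lit 256) (nat_lit 2) (@Lb.g g8 (@Lb.g g9 (@Lb.g g10 (@Lb.r r1689 (@Lb.r r1563 (@Lb.r r2634 (@Lb.r r1540 (@Lb.d (nat_lit 258) (nat_lit 0) (nat_lit 401) (@Lb.t (@Lb.fp (nat_lit 9) t1039))))))))))))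
noncomputable def l12709 : Lb := (@Lb.d (nat_lit 0) (nat_lit 325) (nat_lit 33) (@Lb.r r2129 (@Lb.r r1158 (@Lb.r r2376 (@Lb.r r551 (@Lb.g g5 (@Lb.t (@Lb.fp (nat_lit 3) t2879))))))))
noncomputable def l12710 : Lb := (@Lb.d (nat_lit 537) (nat_lit 328) (nat_lit 34) (@Lb.r r2149 (@Lb.r r1178 (@Lb.r r1684 (@Lb.r r1431 (@Lb.g g9 (@Lb.d (nat_lit 0) (nat_lit 17) (nat_lit 0) (@Lb.t (@Lb.fp (nat_lit 3) t45)))))))))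
noncomputable def l12711 : Lb := (@Lb.d (nat_lit 512) (nat_lit 41) (nat_lit 617) (@Lb.r r2705 (@Lb.r r2459 (@Lb.r r2392 (@Lb.r r678 (@Lb.g g7 (@Lb.g g6 (@Lb.g g5 (@Lb.d (nat_lit 4) (nat_lit 0) (nat_lit 64) (@Lb.t (@Lb.fp (nat_lit 9) t356)))))))))))
noncomputable def l12712 : Lb := (@Lb.d (nat_lit 262) (nat_lit 70) (nat_lit 17) (@Lb.r r2129 (@Lb.r r166 (@Lb.r r344 (@Lb.r r679 (@Lb.g g7 (@Lb.g g6 (@Lb.g g5 (@Lb.d (nat_lit 0) (nat_lit 0) (nat_lit 133) (@Lb.t (@Lb.fm (nat_lit 9) t356)))))))))))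
noncomputable def l12713 : Lb := (@Lb.d (nat_lit 554) (nat_lit 66) (nat_lit 32) (@Lb.r r1124 (@Lb.r r2201 (@Lb.r r1178 (@Lb.r r1371 (@Lb.g g5 (@Lb.d (nat_lit 0) (nat_lit 1) (nat_lit 0) (@Lb.t (@Lb.fp (nat_lit 3) t2880)))))))))
noncomputable def l12714 : Lb := (@Lb.d (nat_lit 38) (nat_lit 256) (nat_lit 32) (@Lb.r r1124 (@Lb.r r101 (@Lb.r r1114 (@Lb.r r1307 (@Lb.g g5 (@Lb.t (@Lb.fp (nat_lit 3) t2881))))))))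
noncomputable def l12715 : Lb := (@Lb.d (nat_lit 66) (nat_lit 293) (nat_lit 102) (@Lb.r r410 (@Lb.r r148 (@Lb.r r1365 (@Lb.r r2343 (@Lb.g g7 (@Lb.g g6 (@Lb.g g5 (@Lb.d (nat_lit 16) (nat_lit 0) (nat_lit 129) (@Lb.t (@Lb.fm (nat_lit 9) t591)))))))))))
noncomputable def l12716 : Lb := (@Lb.d (nat_lit 681) (nat_lit 532) (nat_lit 617) (@Lb.r r1381 (@Lb.r r1691 (@Lb.r r1624 (@Lb.r r1190 (@Lb.g g6 (@Lb.g g5 (@Lb.d (nat_lit 4) (nat_lit 21) (nat_lit 2) (@Lb.fm (nat_lit 3) t71)))))))))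
noncomputable def l12717 : Lb := (@Lb.r r21 (@Lb.r r323 (@Lb.d (nat_lit 40) (nat_lit 512) (nat_lit 2) (@Lb.g g8 (@Lb.g g10 (@Lb.r r1190 (@Lb.r r597 (@Lb.r r663 (@Lb.r r328 (@Lb.d (nat_lit 288) (nat_lit 0) (nat_lit 660) (@Lb.fp (nat_lit 3) t1606)))))))))))
noncomputable def l12718 : Lb := (@Lb.d (nat_lit 681) (nat_lit 20) (nat_lit 617) (@Lb.r r1381 (@Lb.r r1691 (@Lb.r r1624 (@Lb.r r1190 (@Lb.g g6 (@Lb.g g5 (@Lb.d (nat_lit 4) (nat_lit 16) (nat_lit 1) (@Lb.fm (nat_lit 3) t71)))))))))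
noncomputable def l12719 : Lb := (@Lb.d (nat_lit 0) (nat_lit 676) (nat_lit 1) (@Lb.g g9 (@Lb.g g10 (@Lb.r r675 (@Lb.r r1698 (@Lb.d (nat_lit 0) (nat_lit 154) (nat_lit 425) (@Lb.fm (nat_lit 3) t76)))))))
noncomputable def l12720 : Lb := (@Lb.d (nat_lit 0) (nat_lit 258) (nat_lit 137) (@Lb.g g9 (@Lb.g g10 (@Lb.g g11 (@Lb.r r2705 (@Lb.r r535 (@Lb.r r2440 (@Lb.r r2122 (@Lb.d (nat_lit 289) (nat_lit 10) (nat_lit 32) (@Lb.t (@Lb.fm (nat_lit 9) t61)))))))))))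
noncomputable def l12721 : Lb := (@Lb.d (nat_lit 0) (nat_lit 516) (nat_lit 2) (@Lb.g g9 (@Lb.g g10 (@Lb.r r1698 (@Lb.r r2705 (@Lb.d (nat_lit 0) (nat_lit 66) (nat_lit 294) (@Lb.fp (nat_lit 3) t99)))))))
noncomputable def l12722 : Lb := (@Lb.r r355 (@Lb.d (nat_lit 0) (nat_lit 640) (nat_lit 2) (@Lb.g g5 (@Lb.g g10 (@Lb.r r2706 (@Lb.r r403 (@Lb.d (nat_lit 0) (nat_lit 64) (nat_lit 276) (@Lb.fm (nat_lit 3) t84))))))))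
noncomputable def l12723 : Lb := (@Lb.d (nat_lit 70) (nat_lit 257) (nat_lit 168) (@Lb.r r533 (@Lb.r r598 (@Lb.g g11 (@Lb.g g5 (@Lb.g g4 (@Lb.d (nat_lit 1) (nat_lit 0) (nat_lit 128) (@Lb.r r98 (@Lb.t (@Lb.fm (nat_lit 9) t68))))))))))
noncomputable def l12724 : Lb := (@Lb.d (nat_lit 64) (nat_lit 514) (nat_lit 328) (@Lb.g g9 (@Lb.g g7 (@Lb.r r2376 (@Lb.r r1158 (@Lb.r r25 (@Lb.d (nat_lit 36) (nat_lit 134) (nat_lit 80) (@Lb.fp (nat_lit 3) t1503))))))))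
noncomputable def l12725 : Lb := (@Lb.r r355 (@Lb.d (nat_lit 0) (nat_lit 2) (nat_lit 8) (@Lb.g g9 (@Lb.g g10 (@Lb.r r2379 (@Lb.r r344 (@Lb.r r166 (@Lb.d (nat_lit 37) (nat_lit 136) (nat_lit 32) (@Lb.fm (nat_lit 3) t224)))))))))
noncomputable def l12726 : Lb := (@Lb.d (nat_lit 128) (nat_lit 132) (nat_lit 64) (@Lb.g g9 (@Lb.g g11 (@Lb.r r264 (@Lb.r r1351 (@Lb.r r2178 (@Lb.d (nat_lit 98) (nat_lit 70) (nat_lit 168) (@Lb.fm (nat_lit 3) t216))))))))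
noncomputable def l12727 : Lb := (@Lb.d (nat_lit 128) (nat_lit 388) (nat_lit 128) (@Lb.g g9 (@Lb.g g11 (@Lb.r r264 (@Lb.r r1351 (@Lb.r r2178 (@Lb.d (nat_lit 96) (nat_lit 70) (nat_lit 168) (@Lb.fm (nat_lit 3) t216))))))))
noncomputable def l12728 : Lb := (@Lb.d (nat_lit 0) (nat_lit 512) (nat_lit 66) (@Lb.g g9 (@Lb.g g10 (@Lb.g g11 (@Lb.r r1307 (@Lb.r r1304 (@Lb.r r2213 (@Lb.r r98 (@Lb.d (nat_lit 513) (nat_lit 8) (nat_lit 33) (@Lb.t (@Lb.fm (nat_lit 9) t662)))))))))))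
noncomputable def l12729 : Lb := (@Lb.r r323 (@Lb.d (nat_lit 130) (nat_lit 2) (nat_lit 17) (@Lb.g g8 (@Lb.g g9 (@Lb.g g6 (@Lb.r r1385 (@Lb.r r2583 (@Lb.r r2468 (@Lb.d (nat_lit 89) (nat_lit 104) (nat_lit 613) (@Lb.t (@Lb.fp (nat_lit 9) t791)))))))))))
noncomputable def l12730 : Lb := (@Lb.d (nat_lit 32) (nat_lit 512) (nat_lit 662) (@Lb.r r24 (@Lb.r r2325 (@Lb.r r386 (@Lb.r r1699 (@Lb.g g7 (@Lb.g g6 (@Lb.g g5 (@Lb.d (nat_lit 0) (nat_lit 18) (nat_lit 65) (@Lb.t (@Lb.fm (nat_lit 9) t1929)))))))))))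
noncomputable def l12731 : Lb := (@Lb.d (nat_lit 656) (nat_lit 0) (nat_lit 390) (@Lb.r r24 (@Lb.r r101 (@Lb.r r386 (@Lb.g g11 (@Lb.g g6 (@Lb.d (nat_lit 0) (nat_lit 0) (nat_lit 1) (@Lb.fm (nat_lit 3) t868))))))))
noncomputable def l12732 : Lb := (@Lb.d (nat_lit 336) (nat_lit 256) (nat_lit 346) (@Lb.r r24 (@Lb.r r1109 (@Lb.r r386 (@Lb.r r2595 (@Lb.g g7 (@Lb.g g6 (@Lb.g g5 (@Lb.d (nat_lit 0) (nat_lit 18) (nat_lit 129) (@Lb.t (@Lb.fm (nat_lit 9) t868)))))))))))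
noncomputable def l12733 : Lb := (@Lb.d (nat_lit 133) (nat_lit 357) (nat_lit 577) (@Lb.r r2456 (@Lb.r r1178 (@Lb.r r2385 (@Lb.r r2691 (@Lb.g g7 (@Lb.g g6 (@Lb.g g4 (@Lb.d (nat_lit 5) (nat_lit 0) (nat_lit 134) (@Lb.t (@Lb.fm (nat_lit 9) t2882)))))))))))
noncomputable def l12734 : Lb := (@Lb.d (nat_lit 674) (nat_lit 0) (nat_lit 6) (@Lb.r r1604 (@Lb.r r2645 (@Lb.r r2698 (@Lb.g g11 (@Lb.g g6 (@Lb.g g4 (@Lb.d (nat_lit 1) (nat_lit 0) (nat_lit 74) (@Lb.t (@Lb.fp (nat_lit 9) t1524))))))))))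
noncomputable def l12735 : Lb := (@Lb.r r323 (@Lb.d (nat_lit 137) (nat_lit 513) (nat_lit 17) (@Lb.g g8 (@Lb.g g9 (@Lb.g g6 (@Lb.r r1385 (@Lb.r r2583 (@Lb.r r2468 (@Lb.d (nat_lit 89) (nat_lit 104) (nat_lit 544) (@Lb.t (@Lb.fp (nat_lit 9) t791)))))))))))
noncomputable def l12736 : Lb := (@Lb.d (nat_lit 0) (nat_lit 256) (nat_lit 130) (@Lb.g g9 (@Lb.g g10 (@Lb.g g11 (@Lb.r r1703 (@Lb.r r2392 (@Lb.r r1190 (@Lb.r r1061 (@Lb.d (nat_lit 521) (nat_lit 137) (nat_lit 34) (@Lb.t (@Lb.fm (nat_lit 9) t1022)))))))))))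
noncomputable def l12737 : Lb := (@Lb.d (nat_lit 0) (nat_lit 0) (nat_lit 130) (@Lb.g g9 (@Lb.g g10 (@Lb.g g11 (@Lb.r r1703 (@Lb.r r2392 (@Lb.r r1190 (@Lb.r r1061 (@Lb.d (nat_lit 512) (nat_lit 133) (nat_lit 33) (@Lb.t (@Lb.fm (nat_lit 9) t1022)))))))))))
noncomputable def l12738 : Lb := (@Lb.d (nat_lit 658) (nat_lit 133) (nat_lit 662) (@Lb.r r146 (@Lb.r r1365 (@Lb.r r323 (@Lb.g g7 (@Lb.g g6 (@Lb.g g5 (@Lb.g g4 (@Lb.d (nat_lit 1) (nat_lit 18) (nat_lit 8) (@Lb.fm (nat_lit 9) t2883))))))))))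
noncomputable def l12739 : Lb := (@Lb.d (nat_lit 2) (nat_lit 277) (nat_lit 586) (@Lb.g g8 (@Lb.g g9 (@Lb.g g10 (@Lb.g g7 (@Lb.r r2642 (@Lb.r r1361 (@Lb.r r24 (@Lb.d (nat_lit 10) (nat_lit 32) (nat_lit 341) (@Lb.fp (nat_lit 9) t1256))))))))))
noncomputable def l12740 : Lb := (@Lb.d (nat_lit 402) (nat_lit 160) (nat_lit 330) (@Lb.r r101 (@Lb.r r24 (@Lb.r r2374 (@Lb.r r1691 (@Lb.g g7 (@Lb.g g6 (@Lb.d (nat_lit 0) (nat_lit 0) (nat_lit 134) (@Lb.fp (nat_lit 3) t2839)))))))))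
noncomputable def l12741 : Lb := (@Lb.r r82 (@Lb.d (nat_lit 34) (nat_lit 258) (nat_lit 128) (@Lb.g g8 (@Lb.g g9 (@Lb.g g11 (@Lb.r r363 (@Lb.r r582 (@Lb.r r677 (@Lb.r r408 (@Lb.d (nat_lit 136) (nat_lit 26) (nat_lit 17) (@Lb.t (@Lb.fm (nat_lit 9) t901))))))))))))
noncomputable def l12742 : Lb := (@Lb.r r82 (@Lb.d (nat_lit 2) (nat_lit 2) (nat_lit 584) (@Lb.g g8 (@Lb.g g9 (@Lb.g g7 (@Lb.r r1377 (@Lb.r r146 (@Lb.r r24 (@Lb.d (nat_lit 10) (nat_lit 153) (nat_lit 361) (@Lb.t (@Lb.fm (nat_lit 9) t795)))))))))))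
noncomputable def l12743 : Lb := (@Lb.d (nat_lit 0) (nat_lit 0) (nat_lit 128) (@Lb.g g11 (@Lb.r r1346 (@Lb.r r387 (@Lb.d (nat_lit 0) (nat_lit 0) (nat_lit 594) (@Lb.t (@Lb.fp (nat_lit 3) t2)))))))
noncomputable def l12744 : Lb := (@Lb.d (nat_lit 8) (nat_lit 34) (nat_lit 0) (@Lb.g g9 (@Lb.r r536 (@Lb.r r2715 (@Lb.r r2178 (@Lb.r r341 (@Lb.d (nat_lit 358) (nat_lit 22) (nat_lit 134) (@Lb.t (@Lb.fm (nat_lit 3) t64)))))))))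
noncomputable def l12745 : Lb := (@Lb.d (nat_lit 128) (nat_lit 528) (nat_lit 169) (@Lb.g g9 (@Lb.g g6 (@Lb.g g11 (@Lb.r r533 (@Lb.r r2340 (@Lb.r r1435 (@Lb.d (nat_lit 665) (nat_lit 146) (nat_lit 409) (@Lb.t (@Lb.fp (nat_lit 9) t224))))))))))
noncomputable def l12746 : Lb := (@Lb.d (nat_lit 128) (nat_lit 2) (nat_lit 576) (@Lb.g g9 (@Lb.g g11 (@Lb.r r2376 (@Lb.r r1158 (@Lb.r r25 (@Lb.d (nat_lit 292) (nat_lit 134) (nat_lit 162) (@Lb.fm (nat_lit 3) t1503))))))))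
noncomputable def l12747 : Lb := (@Lb.d (nat_lit 8) (nat_lit 290) (nat_lit 0) (@Lb.g g5 (@Lb.r r680 (@Lb.r r427 (@Lb.r r2178 (@Lb.r r1449 (@Lb.d (nat_lit 585) (nat_lit 89) (nat_lit 664) (@Lb.t (@Lb.fp (nat_lit 3) t1540)))))))))
noncomputable def l12748 : Lb := (@Lb.d (nat_lit 2) (nat_lit 0) (nat_lit 0) (@Lb.g g8 (@Lb.r r154 (@Lb.r r660 (@Lb.r r407 (@Lb.r r609 (@Lb.d (nat_lit 0) (nat_lit 37) (nat_lit 21) (@Lb.t (@Lb.fp (nat_lit 3) t334)))))))))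
noncomputable def l12749 : Lb := (@Lb.d (nat_lit 130) (nat_lit 32) (nat_lit 0) (@Lb.g g4 (@Lb.g g9 (@Lb.r r267 (@Lb.r r2178 (@Lb.r r2468 (@Lb.r r2133 (@Lb.d (nat_lit 38) (nat_lit 152) (nat_lit 169) (@Lb.fm (nat_lit 3) t2884)))))))))
noncomputable def l12750 : Lb := (@Lb.r r82 (@Lb.d (nat_lit 5) (nat_lit 264) (nat_lit 128) (@Lb.g g4 (@Lb.g g9 (@Lb.g g11 (@Lb.r r586 (@Lb.r r1635 (@Lb.r r1553 (@Lb.d (nat_lit 578) (nat_lit 169) (nat_lit 642) (@Lb.t (@Lb.fm (nat_lit 9) t50)))))))))))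
noncomputable def l12751 : Lb := (@Lb.d (nat_lit 8) (nat_lit 2) (nat_lit 68) (@Lb.g g9 (@Lb.g g7 (@Lb.r r2136 (@Lb.r r2197 (@Lb.d (nat_lit 533) (nat_lit 138) (nat_lit 70) (@Lb.fm (nat_lit 3) t453)))))))
noncomputable def l12752 : Lb := (@Lb.r r21 (@Lb.r r70 (@Lb.d (nat_lit 64) (nat_lit 256) (nat_lit 132) (@Lb.g g8 (@Lb.g g7 (@Lb.r r402 (@Lb.r r97 (@Lb.r r24 (@Lb.d (nat_lit 10) (nat_lit 2) (nat_lit 64) (@Lb.fm (nat_lit 3) t720))))))))))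
noncomputable def l12753 : Lb := (@Lb.d (nat_lit 8) (nat_lit 2) (nat_lit 130) (@Lb.g g8 (@Lb.g g9 (@Lb.g g10 (@Lb.g g11 (@Lb.r r1689 (@Lb.r r2459 (@Lb.r r2456 (@Lb.r r1098 (@Lb.d (nat_lit 545) (nat_lit 170) (nat_lit 169) (@Lb.fm (nat_lit 9) t100)))))))))))
noncomputable def l12754 : Lb := (@Lb.r r323 (@Lb.d (nat_lit 6) (nat_lit 512) (nat_lit 2) (@Lb.g g4 (@Lb.g g9 (@Lb.g g10 (@Lb.r r1355 (@Lb.r r2182 (@Lb.r r97 (@Lb.d (nat_lit 530) (nat_lit 9) (nat_lit 32) (@Lb.t (@Lb.fp (nat_lit 9) t2885)))))))))))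
noncomputable def l12755 : Lb := (@Lb.r r323 (@Lb.d (nat_lit 0) (nat_lit 256) (nat_lit 1) (@Lb.g g9 (@Lb.g g6 (@Lb.r r387 (@Lb.r r2145 (@Lb.r r36 (@Lb.d (nat_lit 5) (nat_lit 72) (nat_lit 34) (@Lb.fm (nat_lit 3) t40)))))))))
noncomputable def l12756 : Lb := (@Lb.d (nat_lit 5) (nat_lit 262) (nat_lit 1) (@Lb.g g5 (@Lb.t (@Lb.fm (nat_lit 3) t87))))
noncomputable def l12757 : Lb := (@Lb.r r323 (@Lb.d (nat_lit 130) (nat_lit 4) (nat_lit 16) (@Lb.g g8 (@Lb.g g9 (@Lb.g g10 (@Lb.r r1623 (@Lb.r r145 (@Lb.r r2340 (@Lb.d (nat_lit 586) (nat_lit 40) (nat_lit 641) (@Lb.t (@Lb.fp (nat_lit 9) t1142)))))))))))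
noncomputable def l12758 : Lb := (@Lb.r r323 (@Lb.d (nat_lit 5) (nat_lit 256) (nat_lit 1) (@Lb.g g8 (@Lb.g g9 (@Lb.g g6 (@Lb.r r515 (@Lb.r r2153 (@Lb.r r36 (@Lb.d (nat_lit 290) (nat_lit 0) (nat_lit 68) (@Lb.t (@Lb.fp (nat_lit 9) t40)))))))))))
noncomputable def l12759 : Lb := (@Lb.d (nat_lit 0) (nat_lit 512) (nat_lit 73) (@Lb.g g10 (@Lb.g g11 (@Lb.r r2691 (@Lb.r r2658 (@Lb.r r24 (@Lb.r r101 (@Lb.d (nat_lit 133) (nat_lit 16) (nat_lit 421) (@Lb.fp (nat_lit 3) t494)))))))))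
noncomputable def l12760 : Lb := (@Lb.d (nat_lit 0) (nat_lit 516) (nat_lit 65) (@Lb.g g6 (@Lb.g g11 (@Lb.r r2659 (@Lb.r r24 (@Lb.d (nat_lit 2) (nat_lit 145) (nat_lit 257) (@Lb.fp (nat_lit 3) t71)))))))
noncomputable def l12761 : Lb := (@Lb.r r323 (@Lb.d (nat_lit 0) (nat_lit 4) (nat_lit 5) (@Lb.g g6 (@Lb.r r2659 (@Lb.r r24 (@Lb.d (nat_lit 2) (nat_lit 40) (nat_lit 680) (@Lb.t (@Lb.fm (nat_lit 3) t71))))))))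
noncomputable def l12762 : Lb := (@Lb.d (nat_lit 9) (nat_lit 512) (nat_lit 0) (@Lb.g g8 (@Lb.r r609 (@Lb.r r363 (@Lb.r r328 (@Lb.r r134 (@Lb.d (nat_lit 512) (nat_lit 10) (nat_lit 162) (@Lb.t (@Lb.fm (nat_lit 3) t40)))))))))
noncomputable def l12763 : Lb := (@Lb.d (nat_lit 10) (nat_lit 2) (nat_lit 2) (@Lb.g g4 (@Lb.g g9 (@Lb.g g10 (@Lb.r r2658 (@Lb.r r579 (@Lb.d (nat_lit 0) (nat_lit 97) (nat_lit 586) (@Lb.t (@Lb.fm (nat_lit 9) t51)))))))))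
noncomputable def l12764 : Lb := (@Lb.d (nat_lit 38) (nat_lit 256) (nat_lit 33) (@Lb.r r1126 (@Lb.r r2456 (@Lb.r r2129 (@Lb.r r2391 (@Lb.g g7 (@Lb.g g6 (@Lb.d (nat_lit 0) (nat_lit 0) (nat_lit 66) (@Lb.fp (nat_lit 3) t2795)))))))))
noncomputable def l12765 : Lb := (@Lb.r r70 (@Lb.r r263 (@Lb.d (nat_lit 513) (nat_lit 512) (nat_lit 0) (@Lb.g g4 (@Lb.g g9 (@Lb.r r267 (@Lb.r r74 (@Lb.d (nat_lit 256) (nat_lit 0) (nat_lit 0) (@Lb.fp (nat_lit 3) t2886)))))))))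
noncomputable def l12766 : Lb := (@Lb.d (nat_lit 64) (nat_lit 278) (nat_lit 65) (@Lb.r r292 (@Lb.r r2370 (@Lb.r r1427 (@Lb.r r358 (@Lb.g g7 (@Lb.g g6 (@Lb.g g9 (@Lb.g g4 (@Lb.d (nat_lit 25) (nat_lit 72) (nat_lit 65) (@Lb.fm (nat_lit 9) t2887)))))))))))
noncomputable def l12767 : Lb := (@Lb.r r21 (@Lb.r r323 (@Lb.d (nat_lit 130) (nat_lit 256) (nat_lit 2) (@Lb.g g8 (@Lb.g g10 (@Lb.r r362 (@Lb.r r361 (@Lb.r r535 (@Lb.r r264 (@Lb.d (nat_lit 128) (nat_lit 18) (nat_lit 5) (@Lb.fp (nat_lit 3) t119)))))))))))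
noncomputable def l12768 : Lb := (@Lb.r r323 (@Lb.d (nat_lit 134) (nat_lit 0) (nat_lit 2) (@Lb.g g8 (@Lb.g g9 (@Lb.g g10 (@Lb.r r599 (@Lb.r r98 (@Lb.r r97 (@Lb.r r408 (@Lb.d (nat_lit 152) (nat_lit 24) (nat_lit 128) (@Lb.t (@Lb.fp (nat_lit 9) t119))))))))))))
noncomputable def l12769 : Lb := (@Lb.r r21 (@Lb.d (nat_lit 10) (nat_lit 264) (nat_lit 73) (@Lb.g g8 (@Lb.g g10 (@Lb.g g11 (@Lb.r r427 (@Lb.r r533 (@Lb.r r360 (@Lb.r r582 (@Lb.d (nat_lit 148) (nat_lit 148) (nat_lit 65) (@Lb.t (@Lb.fp (nat_lit 9) t51))))))))))))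
noncomputable def l12770 : Lb := (@Lb.d (nat_lit 8) (nat_lit 288) (nat_lit 17) (@Lb.g g9 (@Lb.g g10 (@Lb.r r1624 (@Lb.r r1371 (@Lb.r r2645 (@Lb.d (nat_lit 166) (nat_lit 166) (nat_lit 258) (@Lb.fp (nat_lit 3) t1540))))))))
noncomputable def l12771 : Lb := (@Lb.d (nat_lit 8) (nat_lit 32) (nat_lit 17) (@Lb.g g9 (@Lb.g g10 (@Lb.r r1624 (@Lb.r r1371 (@Lb.r r2645 (@Lb.d (nat_lit 164) (nat_lit 166) (nat_lit 258) (@Lb.fp (nat_lit 3) t1561))))))))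
noncomputable def l12772 : Lb := (@Lb.d (nat_lit 0) (nat_lit 0) (nat_lit 138) (@Lb.g g10 (@Lb.g g11 (@Lb.r r354 (@Lb.r r1427 (@Lb.d (nat_lit 0) (nat_lit 138) (nat_lit 258) (@Lb.fm (nat_lit 3) t334)))))))
noncomputable def l12773 : Lb := (@Lb.d (nat_lit 0) (nat_lit 384) (nat_lit 154) (@Lb.r r354 (@Lb.r r1427 (@Lb.g g10 (@Lb.t (@Lb.fp (nat_lit 3) t334))))))
noncomputable def l12774 : Lb := (@Lb.d (nat_lit 2) (nat_lit 514) (nat_lit 73) (@Lb.g g8 (@Lb.g g9 (@Lb.g g10 (@Lb.g g11 (@Lb.r r427 (@Lb.r r297 (@Lb.r r104 (@Lb.r r70 (@Lb.r r132 (@Lb.d (nat_lit 4) (nat_lit 153) (nat_lit 68) (@Lb.fp (nat_lit 9) t119))))))))))))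
noncomputable def l12775 : Lb := (@Lb.d (nat_lit 6) (nat_lit 512) (nat_lit 73) (@Lb.g g8 (@Lb.g g9 (@Lb.g g10 (@Lb.g g11 (@Lb.r r427 (@Lb.r r420 (@Lb.r r102 (@Lb.r r97 (@Lb.r r36 (@Lb.d (nat_lit 4) (nat_lit 136) (nat_lit 2) (@Lb.fm (nat_lit 9) t51))))))))))))
noncomputable def l12776 : Lb := (@Lb.r r21 (@Lb.d (nat_lit 129) (nat_lit 256) (nat_lit 130) (@Lb.g g8 (@Lb.g g10 (@Lb.g g11 (@Lb.r r651 (@Lb.r r357 (@Lb.r r154 (@Lb.r r132 (@Lb.d (nat_lit 82) (nat_lit 26) (nat_lit 134) (@Lb.t (@Lb.fp (nat_lit 9) t74))))))))))))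
noncomputable def l12777 : Lb := (@Lb.d (nat_lit 4) (nat_lit 546) (nat_lit 130) (@Lb.g g8 (@Lb.g g9 (@Lb.g g10 (@Lb.g g11 (@Lb.r r1706 (@Lb.r r676 (@Lb.r r551 (@Lb.r r533 (@Lb.r r1060 (@Lb.d (nat_lit 386) (nat_lit 2) (nat_lit 640) (@Lb.fp (nat_lit 9) t74))))))))))))
noncomputable def l12778 : Lb := (@Lb.d (nat_lit 5) (nat_lit 546) (nat_lit 130) (@Lb.g g4 (@Lb.g g9 (@Lb.g g10 (@Lb.g g11 (@Lb.r r679 (@Lb.r r610 (@Lb.r r529 (@Lb.d (nat_lit 97) (nat_lit 41) (nat_lit 129) (@Lb.fp (nat_lit 9) t175))))))))))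
noncomputable def l12779 : Lb := (@Lb.r r21 (@Lb.d (nat_lit 33) (nat_lit 256) (nat_lit 136) (@Lb.g g8 (@Lb.g g10 (@Lb.g g11 (@Lb.r r651 (@Lb.r r293 (@Lb.r r644 (@Lb.r r614 (@Lb.d (nat_lit 148) (nat_lit 32) (nat_lit 8) (@Lb.t (@Lb.fm (nat_lit 9) t264))))))))))))
noncomputable def l12780 : Lb := (@Lb.d (nat_lit 32) (nat_lit 0) (nat_lit 1) (@Lb.g g10 (@Lb.r r1364 (@Lb.r r2731 (@Lb.r r665 (@Lb.r r602 (@Lb.d (nat_lit 85) (nat_lit 37) (nat_lit 33) (@Lb.t (@Lb.fm (nat_lit 3) t2888)))))))))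
noncomputable def l12781 : Lb := (@Lb.d (nat_lit 6) (nat_lit 546) (nat_lit 130) (@Lb.g g8 (@Lb.g g9 (@Lb.g g10 (@Lb.g g11 (@Lb.r r683 (@Lb.r r616 (@Lb.r r86 (@Lb.r r165 (@Lb.r r20 (@Lb.d (nat_lit 34) (nat_lit 2) (nat_lit 137) (@Lb.fm (nat_lit 9) t74))))))))))))
noncomputable def l12782 : Lb := (@Lb.r r323 (@Lb.d (nat_lit 40) (nat_lit 258) (nat_lit 2) (@Lb.g g9 (@Lb.g g10 (@Lb.r r584 (@Lb.r r299 (@Lb.r r289 (@Lb.d (nat_lit 8) (nat_lit 8) (nat_lit 136) (@Lb.fm (nat_lit 3) t51)))))))))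
noncomputable def l12783 : Lb := (@Lb.d (nat_lit 0) (nat_lit 260) (nat_lit 128) (@Lb.g g8 (@Lb.g g9 (@Lb.g g10 (@Lb.g g11 (@Lb.r r427 (@Lb.r r145 (@Lb.r r356 (@Lb.r r154 (@Lb.r r132 (@Lb.d (nat_lit 9) (nat_lit 2) (nat_lit 137) (@Lb.fm (nat_lit 9) t601))))))))))))
noncomputable def l12784 : Lb := (@Lb.d (nat_lit 144) (nat_lit 281) (nat_lit 70) (@Lb.r r596 (@Lb.r r330 (@Lb.r r407 (@Lb.g g7 (@Lb.g g5 (@Lb.g g4 (@Lb.d (nat_lit 17) (nat_lit 1) (nat_lit 64) (@Lb.r r98 (@Lb.t (@Lb.fp (nat_lit 9) t98)))))))))))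
noncomputable def l12785 : Lb := (@Lb.d (nat_lit 9) (nat_lit 137) (nat_lit 294) (@Lb.r r2196 (@Lb.r r386 (@Lb.r r595 (@Lb.r r2321 (@Lb.g g7 (@Lb.g g6 (@Lb.d (nat_lit 0) (nat_lit 0) (nat_lit 65) (@Lb.fm (nat_lit 3) t1401)))))))))
noncomputable def l12786 : Lb := (@Lb.r r2315 (@Lb.r r152 (@Lb.r r602 (@Lb.r r2453 (@Lb.r r1060 (@Lb.d (nat_lit 0) (nat_lit 0) (nat_lit 665) (@Lb.fm (nat_lit 1) t386)))))))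
noncomputable def l12787 : Lb := (@Lb.d (nat_lit 0) (nat_lit 512) (nat_lit 129) (@Lb.r r402 (@Lb.r r101 (@Lb.r r24 (@Lb.g g11 (@Lb.t (@Lb.fm (nat_lit 3) t145)))))))
noncomputable def l12788 : Lb := (@Lb.r r323 (@Lb.d (nat_lit 40) (nat_lit 258) (nat_lit 2) (@Lb.g g9 (@Lb.g g10 (@Lb.r r584 (@Lb.r r299 (@Lb.r r289 (@Lb.d (nat_lit 10) (nat_lit 137) (nat_lit 1) (@Lb.fm (nat_lit 3) t51)))))))))
noncomputable def l12789 : Lb := (@Lb.r r82 (@Lb.d (nat_lit 34) (nat_lit 2) (nat_lit 128) (@Lb.g g8 (@Lb.g g9 (@Lb.g g11 (@Lb.r r363 (@Lb.r r582 (@Lb.r r408 (@Lb.d (nat_lit 150) (nat_lit 24) (nat_lit 2) (@Lb.t (@Lb.fp (nat_lit 9) t31)))))))))))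
noncomputable def l12790 : Lb := (@Lb.d (nat_lit 0) (nat_lit 0) (nat_lit 130) (@Lb.g g9 (@Lb.g g10 (@Lb.g g11 (@Lb.r r586 (@Lb.r r584 (@Lb.r r299 (@Lb.r r289 (@Lb.d (nat_lit 0) (nat_lit 2) (nat_lit 0) (@Lb.t (@Lb.fm (nat_lit 9) t51)))))))))))
noncomputable def l12791 : Lb := (@Lb.d (nat_lit 8) (nat_lit 0) (nat_lit 73) (@Lb.g g9 (@Lb.g g10 (@Lb.g g11 (@Lb.r r423 (@Lb.r r596 (@Lb.r r666 (@Lb.r r337 (@Lb.d (nat_lit 9) (nat_lit 38) (nat_lit 6) (@Lb.t (@Lb.fp (nat_lit 9) t51)))))))))))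
noncomputable def l12792 : Lb := (@Lb.d (nat_lit 0) (nat_lit 2) (nat_lit 130) (@Lb.g g8 (@Lb.g g9 (@Lb.g g10 (@Lb.g g11 (@Lb.r r427 (@Lb.r r145 (@Lb.r r356 (@Lb.r r154 (@Lb.r r132 (@Lb.d (nat_lit 2) (nat_lit 0) (nat_lit 2) (@Lb.fm (nat_lit 9) t61))))))))))))
noncomputable def l12793 : Lb := (@Lb.d (nat_lit 9) (nat_lit 512) (nat_lit 72) (@Lb.g g8 (@Lb.g g9 (@Lb.g g11 (@Lb.r r134 (@Lb.r r328 (@Lb.r r423 (@Lb.r r401 (@Lb.d (nat_lit 9) (nat_lit 37) (nat_lit 137) (@Lb.t (@Lb.fm (nat_lit 9) t71)))))))))))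
noncomputable def l12794 : Lb := (@Lb.d (nat_lit 5) (nat_lit 530) (nat_lit 10) (@Lb.r r657 (@Lb.r r666 (@Lb.r r420 (@Lb.r r347 (@Lb.g g7 (@Lb.g g6 (@Lb.g g5 (@Lb.d (nat_lit 8) (nat_lit 1) (nat_lit 65) (@Lb.t (@Lb.fm (nat_lit 9) t68)))))))))))
noncomputable def l12795 : Lb := (@Lb.d (nat_lit 6) (nat_lit 18) (nat_lit 10) (@Lb.r r657 (@Lb.r r666 (@Lb.r r420 (@Lb.r r347 (@Lb.g g7 (@Lb.g g6 (@Lb.g g5 (@Lb.d (nat_lit 8) (nat_lit 1) (nat_lit 134) (@Lb.t (@Lb.fm (nat_lit 9) t68)))))))))))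
noncomputable def l12796 : Lb := (@Lb.d (nat_lit 9) (nat_lit 1) (nat_lit 130) (@Lb.g g8 (@Lb.g g9 (@Lb.g g10 (@Lb.g g11 (@Lb.r r427 (@Lb.r r297 (@Lb.r r136 (@Lb.r r154 (@Lb.r r132 (@Lb.d (nat_lit 9) (nat_lit 26) (nat_lit 137) (@Lb.fm (nat_lit 9) t119))))))))))))
noncomputable def l12797 : Lb := (@Lb.d (nat_lit 2) (nat_lit 258) (nat_lit 66) (@Lb.g g8 (@Lb.g g9 (@Lb.g g10 (@Lb.g g7 (@Lb.r r386 (@Lb.r r2153 (@Lb.r r36 (@Lb.d (nat_lit 297) (nat_lit 2) (nat_lit 41) (@Lb.fm (nat_lit 9) t40))))))))))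
noncomputable def l12798 : Lb := (@Lb.d (nat_lit 150) (nat_lit 257) (nat_lit 6) (@Lb.r r24 (@Lb.r r101 (@Lb.r r386 (@Lb.r r339 (@Lb.g g7 (@Lb.g g6 (@Lb.g g4 (@Lb.d (nat_lit 0) (nat_lit 0) (nat_lit 65) (@Lb.t (@Lb.fm (nat_lit 9) t50)))))))))))
noncomputable def l12799 : Lb := (@Lb.d (nat_lit 293) (nat_lit 257) (nat_lit 274) (@Lb.r r24 (@Lb.r r101 (@Lb.r r2450 (@Lb.r r1347 (@Lb.g g7 (@Lb.g g6 (@Lb.g g4 (@Lb.d (nat_lit 2) (nat_lit 0) (nat_lit 65) (@Lb.t (@Lb.fm (nat_lit 9) t399)))))))))))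
noncomputable def l12800 : Lb := (@Lb.d (nat_lit 8) (nat_lit 256) (nat_lit 73) (@Lb.g g9 (@Lb.g g10 (@Lb.g g11 (@Lb.r r423 (@Lb.r r596 (@Lb.r r666 (@Lb.r r337 (@Lb.d (nat_lit 4) (nat_lit 37) (nat_lit 6) (@Lb.t (@Lb.fp (nat_lit 9) t51)))))))))))
noncomputable def l12801 : Lb := (@Lb.d (nat_lit 129) (nat_lit 258) (nat_lit 66) (@Lb.g g8 (@Lb.g g9 (@Lb.g g10 (@Lb.g g11 (@Lb.r r1411 (@Lb.r r152 (@Lb.r r2474 (@Lb.r r153 (@Lb.r r132 (@Lb.d (nat_lit 400) (nat_lit 26) (nat_lit 90) (@Lb.fp (nat_lit 9) t582))))))))))))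
noncomputable def l12802 : Lb := (@Lb.d (nat_lit 0) (nat_lit 8) (nat_lit 130) (@Lb.g g8 (@Lb.g g9 (@Lb.g g10 (@Lb.g g11 (@Lb.r r2443 (@Lb.r r340 (@Lb.r r170 (@Lb.r r1193 (@Lb.r r164 (@Lb.d (nat_lit 257) (nat_lit 137) (nat_lit 18) (@Lb.fp (nat_lit 9) t573))))))))))))
noncomputable def l12803 : Lb := (@Lb.d (nat_lit 8) (nat_lit 265) (nat_lit 16) (@Lb.r r21 (@Lb.r r70 (@Lb.r r263 (@Lb.g g4 (@Lb.r r267 (@Lb.r r74 (@Lb.r r25 (@Lb.t (@Lb.fm (nat_lit 3) t151))))))))))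
noncomputable def l12804 : Lb := (@Lb.d (nat_lit 2) (nat_lit 0) (nat_lit 0) (@Lb.g g8 (@Lb.r r1162 (@Lb.r r1188 (@Lb.r r405 (@Lb.r r1635 (@Lb.d (nat_lit 0) (nat_lit 10) (nat_lit 84) (@Lb.t (@Lb.fp (nat_lit 3) t1594)))))))))
noncomputable def l12805 : Lb := (@Lb.r r21 (@Lb.d (nat_lit 386) (nat_lit 264) (nat_lit 130) (@Lb.g g8 (@Lb.g g10 (@Lb.g g11 (@Lb.r r1419 (@Lb.r r101 (@Lb.r r410 (@Lb.d (nat_lit 9) (nat_lit 154) (nat_lit 650) (@Lb.t (@Lb.fm (nat_lit 9) t2889)))))))))))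
noncomputable def l12806 : Lb := (@Lb.d (nat_lit 0) (nat_lit 2) (nat_lit 130) (@Lb.g g8 (@Lb.g g9 (@Lb.g g10 (@Lb.g g11 (@Lb.r r2691 (@Lb.r r2665 (@Lb.r r1686 (@Lb.r r1124 (@Lb.d (nat_lit 656) (nat_lit 10) (nat_lit 345) (@Lb.fm (nat_lit 9) t833)))))))))))
noncomputable def l12807 : Lb := (@Lb.d (nat_lit 0) (nat_lit 258) (nat_lit 130) (@Lb.g g8 (@Lb.g g9 (@Lb.g g10 (@Lb.g g11 (@Lb.r r2691 (@Lb.r r2665 (@Lb.r r1686 (@Lb.r r1124 (@Lb.d (nat_lit 665) (nat_lit 128) (nat_lit 346) (@Lb.fm (nat_lit 9) t2890)))))))))))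
noncomputable def l12808 : Lb := (@Lb.d (nat_lit 0) (nat_lit 2) (nat_lit 66) (@Lb.g g9 (@Lb.g g10 (@Lb.g g7 (@Lb.r r386 (@Lb.r r97 (@Lb.r r24 (@Lb.d (nat_lit 0) (nat_lit 90) (nat_lit 329) (@Lb.t (@Lb.fm (nat_lit 9) t845))))))))))
noncomputable def l12809 : Lb := (@Lb.d (nat_lit 0) (nat_lit 258) (nat_lit 130) (@Lb.g g8 (@Lb.g g9 (@Lb.g g10 (@Lb.g g11 (@Lb.r r2691 (@Lb.r r2665 (@Lb.r r1686 (@Lb.r r1124 (@Lb.d (nat_lit 658) (nat_lit 10) (nat_lit 345) (@Lb.fm (nat_lit 9) t833)))))))))))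
noncomputable def l12810 : Lb := (@Lb.d (nat_lit 2) (nat_lit 256) (nat_lit 0) (@Lb.g g8 (@Lb.g g9 (@Lb.r r1162 (@Lb.r r1188 (@Lb.r r405 (@Lb.r r1635 (@Lb.d (nat_lit 2) (nat_lit 10) (nat_lit 84) (@Lb.fm (nat_lit 3) t1592)))))))))
noncomputable def l12811 : Lb := (@Lb.d (nat_lit 0) (nat_lit 2) (nat_lit 130) (@Lb.g g8 (@Lb.g g9 (@Lb.g g10 (@Lb.g g11 (@Lb.r r427 (@Lb.r r2146 (@Lb.r r292 (@Lb.r r2069 (@Lb.r r1060 (@Lb.d (nat_lit 289) (nat_lit 74) (nat_lit 33) (@Lb.fp (nat_lit 9) t1089))))))))))))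
noncomputable def l12812 : Lb := (@Lb.d (nat_lit 4) (nat_lit 266) (nat_lit 130) (@Lb.g g8 (@Lb.g g9 (@Lb.g g10 (@Lb.g g11 (@Lb.r r643 (@Lb.r r297 (@Lb.r r360 (@Lb.r r582 (@Lb.r r132 (@Lb.d (nat_lit 129) (nat_lit 10) (nat_lit 73) (@Lb.fm (nat_lit 9) t98))))))))))))
noncomputable def l12813 : Lb := (@Lb.d (nat_lit 0) (nat_lit 521) (nat_lit 130) (@Lb.g g8 (@Lb.g g9 (@Lb.g g10 (@Lb.g g11 (@Lb.r r1451 (@Lb.r r420 (@Lb.r r1094 (@Lb.r r145 (@Lb.r r1060 (@Lb.d (nat_lit 533) (nat_lit 102) (nat_lit 673) (@Lb.fp (nat_lit 9) t916))))))))))))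
noncomputable def l12814 : Lb := (@Lb.d (nat_lit 8) (nat_lit 258) (nat_lit 128) (@Lb.g g9 (@Lb.g g10 (@Lb.g g11 (@Lb.r r387 (@Lb.r r164 (@Lb.r r598 (@Lb.r r673 (@Lb.d (nat_lit 69) (nat_lit 137) (nat_lit 68) (@Lb.t (@Lb.fp (nat_lit 9) t1115)))))))))))
noncomputable def l12815 : Lb := (@Lb.d (nat_lit 0) (nat_lit 0) (nat_lit 130) (@Lb.g g9 (@Lb.g g10 (@Lb.g g11 (@Lb.r r586 (@Lb.r r584 (@Lb.r r299 (@Lb.r r289 (@Lb.d (nat_lit 8) (nat_lit 130) (nat_lit 0) (@Lb.t (@Lb.fm (nat_lit 9) t51)))))))))))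
noncomputable def l12816 : Lb := (@Lb.d (nat_lit 4) (nat_lit 10) (nat_lit 73) (@Lb.g g8 (@Lb.g g9 (@Lb.g g10 (@Lb.g g11 (@Lb.r r643 (@Lb.r r297 (@Lb.r r360 (@Lb.r r582 (@Lb.r r132 (@Lb.d (nat_lit 128) (nat_lit 10) (nat_lit 73) (@Lb.fm (nat_lit 9) t98))))))))))))
noncomputable def l12817 : Lb := (@Lb.d (nat_lit 0) (nat_lit 256) (nat_lit 4) (@Lb.g g8 (@Lb.g g10 (@Lb.g g11 (@Lb.r r419 (@Lb.r r386 (@Lb.r r101 (@Lb.r r24 (@Lb.d (nat_lit 98) (nat_lit 0) (nat_lit 9) (@Lb.t (@Lb.fp (nat_lit 9) t263)))))))))))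
noncomputable def l12818 : Lb := (@Lb.r r322 (@Lb.d (nat_lit 36) (nat_lit 34) (nat_lit 128) (@Lb.g g8 (@Lb.g g9 (@Lb.g g11 (@Lb.r r1625 (@Lb.r r102 (@Lb.r r152 (@Lb.d (nat_lit 417) (nat_lit 8) (nat_lit 642) (@Lb.t (@Lb.fp (nat_lit 9) t2891)))))))))))
noncomputable def l12819 : Lb := (@Lb.d (nat_lit 6) (nat_lit 256) (nat_lit 0) (@Lb.g g4 (@Lb.r r101 (@Lb.r r402 (@Lb.d (nat_lit 2) (nat_lit 164) (nat_lit 394) (@Lb.t (@Lb.fm (nat_lit 3) t652)))))))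
noncomputable def l12820 : Lb := (@Lb.d (nat_lit 0) (nat_lit 521) (nat_lit 66) (@Lb.g g9 (@Lb.g g10 (@Lb.g g7 (@Lb.r r1410 (@Lb.r r97 (@Lb.r r36 (@Lb.d (nat_lit 5) (nat_lit 8) (nat_lit 297) (@Lb.t (@Lb.fp (nat_lit 9) t130))))))))))
noncomputable def l12821 : Lb := (@Lb.d (nat_lit 2) (nat_lit 553) (nat_lit 2) (@Lb.g g8 (@Lb.g g9 (@Lb.g g10 (@Lb.r r1700 (@Lb.r r422 (@Lb.r r595 (@Lb.r r2465 (@Lb.d (nat_lit 390) (nat_lit 41) (nat_lit 600) (@Lb.t (@Lb.fp (nat_lit 9) t429)))))))))))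
noncomputable def l12822 : Lb := (@Lb.d (nat_lit 4) (nat_lit 10) (nat_lit 10) (@Lb.g g8 (@Lb.g g9 (@Lb.g g10 (@Lb.r r1555 (@Lb.r r297 (@Lb.r r1700 (@Lb.r r1670 (@Lb.d (nat_lit 130) (nat_lit 10) (nat_lit 577) (@Lb.t (@Lb.fp (nat_lit 9) t249)))))))))))
noncomputable def l12823 : Lb := (@Lb.d (nat_lit 34) (nat_lit 2) (nat_lit 0) (@Lb.g g8 (@Lb.g g9 (@Lb.r r515 (@Lb.r r361 (@Lb.r r150 (@Lb.r r612 (@Lb.d (nat_lit 154) (nat_lit 21) (nat_lit 2) (@Lb.fp (nat_lit 3) t242)))))))))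
noncomputable def l12824 : Lb := (@Lb.d (nat_lit 0) (nat_lit 0) (nat_lit 66) (@Lb.g g8 (@Lb.g g9 (@Lb.g g10 (@Lb.g g7 (@Lb.r r386 (@Lb.r r2145 (@Lb.d (nat_lit 2) (nat_lit 10) (nat_lit 41) (@Lb.fm (nat_lit 9) t126)))))))))
noncomputable def l12825 : Lb := (@Lb.d (nat_lit 34) (nat_lit 2) (nat_lit 0) (@Lb.g g8 (@Lb.g g9 (@Lb.r r515 (@Lb.r r361 (@Lb.r r150 (@Lb.r r612 (@Lb.d (nat_lit 153) (nat_lit 21) (nat_lit 68) (@Lb.fp (nat_lit 3) t242)))))))))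
noncomputable def l12826 : Lb := (@Lb.d (nat_lit 134) (nat_lit 512) (nat_lit 130) (@Lb.g g8 (@Lb.g g9 (@Lb.g g10 (@Lb.g g11 (@Lb.r r419 (@Lb.r r344 (@Lb.r r1429 (@Lb.r r1110 (@Lb.r r2212 (@Lb.d (nat_lit 33) (nat_lit 105) (nat_lit 673) (@Lb.fm (nat_lit 9) t5))))))))))))
noncomputable def l12827 : Lb := (@Lb.d (nat_lit 4) (nat_lit 256) (nat_lit 66) (@Lb.g g8 (@Lb.g g10 (@Lb.g g7 (@Lb.r r386 (@Lb.r r2073 (@Lb.d (nat_lit 548) (nat_lit 70) (nat_lit 42) (@Lb.t (@Lb.fm (nat_lit 9) t382)))))))))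
noncomputable def l12828 : Lb := (@Lb.d (nat_lit 4) (nat_lit 0) (nat_lit 66) (@Lb.g g8 (@Lb.g g10 (@Lb.g g7 (@Lb.r r386 (@Lb.r r2073 (@Lb.d (nat_lit 2) (nat_lit 6) (nat_lit 10) (@Lb.t (@Lb.fm (nat_lit 9) t45)))))))))
noncomputable def l12829 : Lb := (@Lb.r r273 (@Lb.r r322 (@Lb.d (nat_lit 0) (nat_lit 32) (nat_lit 64) (@Lb.g g8 (@Lb.g g7 (@Lb.r r280 (@Lb.r r101 (@Lb.r r146 (@Lb.d (nat_lit 529) (nat_lit 0) (nat_lit 545) (@Lb.fm (nat_lit 3) t1244))))))))))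
noncomputable def l12830 : Lb := (@Lb.d (nat_lit 2) (nat_lit 514) (nat_lit 0) (@Lb.g g8 (@Lb.g g9 (@Lb.g g10 (@Lb.r r515 (@Lb.r r297 (@Lb.r r360 (@Lb.r r582 (@Lb.r r132 (@Lb.d (nat_lit 2) (nat_lit 5) (nat_lit 70) (@Lb.t (@Lb.fp (nat_lit 9) t242))))))))))))
noncomputable def l12831 : Lb := (@Lb.d (nat_lit 0) (nat_lit 322) (nat_lit 0) (@Lb.g g9 (@Lb.d (nat_lit 1) (nat_lit 10) (nat_lit 2) (@Lb.t (@Lb.fp (nat_lit 3) t21)))))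
noncomputable def l12832 : Lb := (@Lb.d (nat_lit 8) (nat_lit 514) (nat_lit 0) (@Lb.g g5 (@Lb.r r168 (@Lb.r r1193 (@Lb.d (nat_lit 281) (nat_lit 66) (nat_lit 34) (@Lb.t (@Lb.fm (nat_lit 3) t2892)))))))
noncomputable def l12833 : Lb := (@Lb.r r152 (@Lb.r r2133 (@Lb.r r1060 (@Lb.d (nat_lit 0) (nat_lit 261) (nat_lit 16) (@Lb.fm (nat_lit 1) t2893)))))
noncomputable def l12834 : Lb := (@Lb.d (nat_lit 0) (nat_lit 517) (nat_lit 0) (@Lb.g g8 (@Lb.g g5 (@Lb.d (nat_lit 0) (nat_lit 129) (nat_lit 1) (@Lb.fp (nat_lit 3) t126)))))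
noncomputable def l12835 : Lb := (@Lb.d (nat_lit 10) (nat_lit 8) (nat_lit 128) (@Lb.g g8 (@Lb.g g10 (@Lb.g g11 (@Lb.r r2475 (@Lb.r r1121 (@Lb.r r2646 (@Lb.r r2436 (@Lb.d (nat_lit 101) (nat_lit 73) (nat_lit 553) (@Lb.t (@Lb.fp (nat_lit 9) t188)))))))))))
noncomputable def l12836 : Lb := (@Lb.d (nat_lit 2) (nat_lit 520) (nat_lit 74) (@Lb.g g8 (@Lb.g g10 (@Lb.g g11 (@Lb.r r289 (@Lb.r r535 (@Lb.r r1368 (@Lb.r r2646 (@Lb.d (nat_lit 520) (nat_lit 25) (nat_lit 665) (@Lb.t (@Lb.fp (nat_lit 9) t670)))))))))))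
noncomputable def l12837 : Lb := (@Lb.d (nat_lit 5) (nat_lit 512) (nat_lit 73) (@Lb.g g4 (@Lb.g g9 (@Lb.g g10 (@Lb.g g11 (@Lb.r r679 (@Lb.r r1634 (@Lb.r r1553 (@Lb.d (nat_lit 609) (nat_lit 105) (nat_lit 657) (@Lb.fp (nat_lit 9) t490))))))))))
noncomputable def l12838 : Lb := (@Lb.r r323 (@Lb.d (nat_lit 0) (nat_lit 514) (nat_lit 2) (@Lb.g g8 (@Lb.g g9 (@Lb.g g10 (@Lb.r r401 (@Lb.r r299 (@Lb.r r392 (@Lb.r r74 (@Lb.d (nat_lit 32) (nat_lit 129) (nat_lit 136) (@Lb.t (@Lb.fp (nat_lit 9) t1350))))))))))))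
noncomputable def l12839 : Lb := (@Lb.d (nat_lit 32) (nat_lit 4) (nat_lit 1) (@Lb.g g9 (@Lb.g g10 (@Lb.r r515 (@Lb.r r661 (@Lb.r r356 (@Lb.r r346 (@Lb.d (nat_lit 169) (nat_lit 38) (nat_lit 72) (@Lb.fp (nat_lit 3) t1871)))))))))
noncomputable def l12840 : Lb := (@Lb.r r323 (@Lb.d (nat_lit 0) (nat_lit 290) (nat_lit 2) (@Lb.g g8 (@Lb.g g9 (@Lb.g g10 (@Lb.r r599 (@Lb.r r392 (@Lb.r r74 (@Lb.d (nat_lit 17) (nat_lit 2) (nat_lit 152) (@Lb.t (@Lb.fm (nat_lit 9) t221)))))))))))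
noncomputable def l12841 : Lb := (@Lb.d (nat_lit 128) (nat_lit 0) (nat_lit 130) (@Lb.g g9 (@Lb.g g10 (@Lb.g g11 (@Lb.r r1190 (@Lb.r r2136 (@Lb.r r421 (@Lb.r r1619 (@Lb.d (nat_lit 384) (nat_lit 132) (nat_lit 16) (@Lb.t (@Lb.fm (nat_lit 9) t2894)))))))))))
noncomputable def l12842 : Lb := (@Lb.r r323 (@Lb.d (nat_lit 32) (nat_lit 514) (nat_lit 2) (@Lb.g g9 (@Lb.g g10 (@Lb.r r584 (@Lb.r r1323 (@Lb.r r1313 (@Lb.d (nat_lit 10) (nat_lit 66) (nat_lit 258) (@Lb.fm (nat_lit 3) t51)))))))))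
noncomputable def l12843 : Lb := (@Lb.d (nat_lit 2) (nat_lit 1) (nat_lit 64) (@Lb.g g8 (@Lb.g g9 (@Lb.g g11 (@Lb.r r292 (@Lb.r r1371 (@Lb.r r2178 (@Lb.r r1621 (@Lb.r r2084 (@Lb.d (nat_lit 418) (nat_lit 129) (nat_lit 85) (@Lb.t (@Lb.fp (nat_lit 9) t64))))))))))))
noncomputable def l12844 : Lb := (@Lb.d (nat_lit 0) (nat_lit 0) (nat_lit 136) (@Lb.g g11 (@Lb.r r1617 (@Lb.r r354 (@Lb.r r1427 (@Lb.r r1124 (@Lb.d (nat_lit 6) (nat_lit 152) (nat_lit 425) (@Lb.t (@Lb.fp (nat_lit 3) t2895)))))))))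
noncomputable def l12845 : Lb := (@Lb.d (nat_lit 6) (nat_lit 256) (nat_lit 0) (@Lb.g g4 (@Lb.r r417 (@Lb.r r2466 (@Lb.r r2387 (@Lb.r r657 (@Lb.d (nat_lit 274) (nat_lit 0) (nat_lit 1) (@Lb.t (@Lb.fm (nat_lit 3) t246)))))))))
noncomputable def l12846 : Lb := (@Lb.d (nat_lit 96) (nat_lit 361) (nat_lit 582) (@Lb.r r597 (@Lb.r r296 (@Lb.r r418 (@Lb.g g11 (@Lb.g g6 (@Lb.g g5 (@Lb.g g4 (@Lb.d (nat_lit 1) (nat_lit 18) (nat_lit 257) (@Lb.fm (nat_lit 9) t825))))))))))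
noncomputable def l12847 : Lb := (@Lb.r r82 (@Lb.d (nat_lit 5) (nat_lit 546) (nat_lit 64) (@Lb.g g8 (@Lb.g g9 (@Lb.g g11 (@Lb.r r1571 (@Lb.r r2152 (@Lb.r r2438 (@Lb.r r145 (@Lb.d (nat_lit 610) (nat_lit 16) (nat_lit 614) (@Lb.t (@Lb.fp (nat_lit 9) t2896))))))))))))
noncomputable def l12848 : Lb := (@Lb.d (nat_lit 0) (nat_lit 265) (nat_lit 72) (@Lb.g g8 (@Lb.g g9 (@Lb.g g10 (@Lb.g g11 (@Lb.r r2691 (@Lb.r r297 (@Lb.r r648 (@Lb.r r666 (@Lb.r r1156 (@Lb.d (nat_lit 640) (nat_lit 168) (nat_lit 73) (@Lb.fp (nat_lit 9) t2707))))))))))))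
noncomputable def l12849 : Lb := (@Lb.d (nat_lit 101) (nat_lit 545) (nat_lit 34) (@Lb.r r408 (@Lb.r r330 (@Lb.r r343 (@Lb.g g5 (@Lb.g g4 (@Lb.d (nat_lit 17) (nat_lit 4) (nat_lit 0) (@Lb.r r291 (@Lb.r r98 (@Lb.fp (nat_lit 3) t686))))))))))
noncomputable def l12850 : Lb := (@Lb.d (nat_lit 2) (nat_lit 265) (nat_lit 129) (@Lb.g g8 (@Lb.g g9 (@Lb.g g10 (@Lb.g g11 (@Lb.r r2691 (@Lb.r r297 (@Lb.r r360 (@Lb.r r582 (@Lb.r r2180 (@Lb.d (nat_lit 642) (nat_lit 10) (nat_lit 265) (@Lb.fm (nat_lit 9) t50))))))))))))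
noncomputable def l12851 : Lb := (@Lb.d (nat_lit 164) (nat_lit 536) (nat_lit 100) (@Lb.r r596 (@Lb.r r535 (@Lb.r r353 (@Lb.g g7 (@Lb.g g6 (@Lb.g g4 (@Lb.d (nat_lit 6) (nat_lit 16) (nat_lit 133) (@Lb.r r145 (@Lb.t (@Lb.fp (nat_lit 9) t311)))))))))))
noncomputable def l12852 : Lb := (@Lb.d (nat_lit 17) (nat_lit 265) (nat_lit 73) (@Lb.g g8 (@Lb.g g9 (@Lb.g g10 (@Lb.g g11 (@Lb.r r1382 (@Lb.r r404 (@Lb.r r2457 (@Lb.r r1319 (@Lb.r r2564 (@Lb.d (nat_lit 361) (nat_lit 104) (nat_lit 617) (@Lb.fp (nat_lit 9) t2897))))))))))))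
noncomputable def l12853 : Lb := (@Lb.d (nat_lit 0) (nat_lit 521) (nat_lit 8) (@Lb.g g9 (@Lb.g g6 (@Lb.r r515 (@Lb.r r148 (@Lb.r r25 (@Lb.d (nat_lit 34) (nat_lit 73) (nat_lit 144) (@Lb.fm (nat_lit 3) t2898))))))))
noncomputable def l12854 : Lb := (@Lb.d (nat_lit 0) (nat_lit 514) (nat_lit 130) (@Lb.g g9 (@Lb.g g10 (@Lb.g g11 (@Lb.r r427 (@Lb.r r1442 (@Lb.r r1320 (@Lb.r r1433 (@Lb.d (nat_lit 661) (nat_lit 36) (nat_lit 420) (@Lb.t (@Lb.fm (nat_lit 9) t1828)))))))))))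
noncomputable def l12855 : Lb := (@Lb.r r82 (@Lb.r r275 (@Lb.d (nat_lit 34) (nat_lit 282) (nat_lit 0) (@Lb.g g8 (@Lb.g g9 (@Lb.r r427 (@Lb.r r582 (@Lb.r r388 (@Lb.d (nat_lit 610) (nat_lit 9) (nat_lit 33) (@Lb.fm (nat_lit 3) t819))))))))))
noncomputable def l12856 : Lb := (@Lb.d (nat_lit 521) (nat_lit 576) (nat_lit 410) (@Lb.r r1432 (@Lb.r r2641 (@Lb.r r2375 (@Lb.r r586 (@Lb.g g7 (@Lb.d (nat_lit 0) (nat_lit 0) (nat_lit 64) (@Lb.t (@Lb.fp (nat_lit 3) t2899)))))))))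
noncomputable def l12857 : Lb := (@Lb.d (nat_lit 9) (nat_lit 520) (nat_lit 73) (@Lb.g g8 (@Lb.g g9 (@Lb.g g10 (@Lb.g g11 (@Lb.r r2731 (@Lb.r r2724 (@Lb.r r1158 (@Lb.r r97 (@Lb.d (nat_lit 289) (nat_lit 105) (nat_lit 673) (@Lb.fm (nat_lit 9) t1038)))))))))))
noncomputable def l12858 : Lb := (@Lb.d (nat_lit 137) (nat_lit 8) (nat_lit 2) (@Lb.g g8 (@Lb.g g9 (@Lb.g g10 (@Lb.r r643 (@Lb.r r169 (@Lb.r r618 (@Lb.r r104 (@Lb.d (nat_lit 164) (nat_lit 5) (nat_lit 72) (@Lb.t (@Lb.fp (nat_lit 9) t98)))))))))))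
noncomputable def l12859 : Lb := (@Lb.d (nat_lit 9) (nat_lit 33) (nat_lit 130) (@Lb.g g8 (@Lb.g g9 (@Lb.g g10 (@Lb.g g11 (@Lb.r r1194 (@Lb.r r1444 (@Lb.r r2331 (@Lb.r r2085 (@Lb.d (nat_lit 69) (nat_lit 33) (nat_lit 522) (@Lb.fp (nat_lit 9) t270)))))))))))
noncomputable def l12860 : Lb := (@Lb.d (nat_lit 137) (nat_lit 520) (nat_lit 2) (@Lb.g g8 (@Lb.g g9 (@Lb.g g10 (@Lb.r r643 (@Lb.r r169 (@Lb.r r618 (@Lb.r r104 (@Lb.d (nat_lit 164) (nat_lit 10) (nat_lit 73) (@Lb.t (@Lb.fp (nat_lit 9) t98)))))))))))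
noncomputable def l12861 : Lb := (@Lb.g g5 (@Lb.g g7 (@Lb.r r24 (@Lb.r r101 (@Lb.r r402 (@Lb.d (nat_lit 6) (nat_lit 262) (nat_lit 64) (@Lb.fp (nat_lit 3) t1831)))))))
noncomputable def l12862 : Lb := (@Lb.d (nat_lit 549) (nat_lit 6) (nat_lit 16) (@Lb.r r21 (@Lb.r r70 (@Lb.r r263 (@Lb.g g4 (@Lb.r r267 (@Lb.r r74 (@Lb.r r25 (@Lb.t (@Lb.fm (nat_lit 3) t1556))))))))))
noncomputable def l12863 : Lb := (@Lb.d (nat_lit 38) (nat_lit 517) (nat_lit 130) (@Lb.g g8 (@Lb.g g9 (@Lb.g g10 (@Lb.g g11 (@Lb.r r657 (@Lb.r r659 (@Lb.r r644 (@Lb.r r582 (@Lb.r r132 (@Lb.d (nat_lit 137) (nat_lit 2) (nat_lit 66) (@Lb.fm (nat_lit 9) t86))))))))))))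
noncomputable def l12864 : Lb := (@Lb.d (nat_lit 544) (nat_lit 516) (nat_lit 16) (@Lb.r r101 (@Lb.r r402 (@Lb.r r323 (@Lb.g g7 (@Lb.g g6 (@Lb.d (nat_lit 0) (nat_lit 0) (nat_lit 64) (@Lb.fm (nat_lit 3) t218))))))))
noncomputable def l12865 : Lb := (@Lb.d (nat_lit 40) (nat_lit 1) (nat_lit 130) (@Lb.g g9 (@Lb.g g10 (@Lb.g g11 (@Lb.r r2695 (@Lb.r r1352 (@Lb.r r406 (@Lb.r r337 (@Lb.d (nat_lit 132) (nat_lit 5) (nat_lit 100) (@Lb.t (@Lb.fp (nat_lit 9) t2900)))))))))))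
noncomputable def l12866 : Lb := (@Lb.d (nat_lit 134) (nat_lit 261) (nat_lit 74) (@Lb.g g8 (@Lb.g g9 (@Lb.g g10 (@Lb.g g11 (@Lb.r r683 (@Lb.r r2410 (@Lb.r r537 (@Lb.r r516 (@Lb.d (nat_lit 137) (nat_lit 89) (nat_lit 21) (@Lb.fm (nat_lit 9) t606)))))))))))
noncomputable def l12867 : Lb := (@Lb.d (nat_lit 4) (nat_lit 0) (nat_lit 130) (@Lb.g g8 (@Lb.g g9 (@Lb.g g10 (@Lb.g g11 (@Lb.r r2691 (@Lb.r r297 (@Lb.r r360 (@Lb.r r582 (@Lb.r r2180 (@Lb.d (nat_lit 640) (nat_lit 73) (nat_lit 329) (@Lb.fm (nat_lit 9) t758))))))))))))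
noncomputable def l12868 : Lb := (@Lb.d (nat_lit 32) (nat_lit 266) (nat_lit 2) (@Lb.r r134 (@Lb.r r328 (@Lb.r r279 (@Lb.r r657 (@Lb.g g7 (@Lb.g g5 (@Lb.d (nat_lit 0) (nat_lit 1) (nat_lit 128) (@Lb.fm (nat_lit 3) t546)))))))))
noncomputable def l12869 : Lb := (@Lb.d (nat_lit 32) (nat_lit 0) (nat_lit 130) (@Lb.g g9 (@Lb.g g10 (@Lb.g g11 (@Lb.r r2695 (@Lb.r r1352 (@Lb.r r2390 (@Lb.r r1425 (@Lb.d (nat_lit 132) (nat_lit 0) (nat_lit 330) (@Lb.t (@Lb.fm (nat_lit 9) t1255)))))))))))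
noncomputable def l12870 : Lb := (@Lb.d (nat_lit 32) (nat_lit 522) (nat_lit 2) (@Lb.r r134 (@Lb.r r328 (@Lb.r r279 (@Lb.r r657 (@Lb.g g7 (@Lb.g g5 (@Lb.d (nat_lit 0) (nat_lit 1) (nat_lit 64) (@Lb.fm (nat_lit 3) t2315)))))))))
noncomputable def l12871 : Lb := (@Lb.d (nat_lit 40) (nat_lit 258) (nat_lit 73) (@Lb.g g9 (@Lb.g g10 (@Lb.g g11 (@Lb.r r2695 (@Lb.r r1352 (@Lb.r r2390 (@Lb.r r1425 (@Lb.d (nat_lit 132) (nat_lit 66) (nat_lit 330) (@Lb.t (@Lb.fm (nat_lit 9) t1255)))))))))))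
noncomputable def l12872 : Lb := (@Lb.d (nat_lit 682) (nat_lit 393) (nat_lit 342) (@Lb.r r1604 (@Lb.r r535 (@Lb.r r353 (@Lb.g g7 (@Lb.g g6 (@Lb.g g4 (@Lb.d (nat_lit 5) (nat_lit 16) (nat_lit 165) (@Lb.t (@Lb.fp (nat_lit 9) t927))))))))))
noncomputable def l12873 : Lb := (@Lb.d (nat_lit 0) (nat_lit 2) (nat_lit 73) (@Lb.g g9 (@Lb.g g10 (@Lb.g g11 (@Lb.r r2705 (@Lb.r r535 (@Lb.r r2440 (@Lb.r r2122 (@Lb.d (nat_lit 289) (nat_lit 5) (nat_lit 34) (@Lb.t (@Lb.fm (nat_lit 9) t61)))))))))))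
noncomputable def l12874 : Lb := (@Lb.d (nat_lit 168) (nat_lit 512) (nat_lit 130) (@Lb.g g9 (@Lb.g g10 (@Lb.g g11 (@Lb.r r72 (@Lb.r r86 (@Lb.r r421 (@Lb.r r411 (@Lb.d (nat_lit 538) (nat_lit 26) (nat_lit 25) (@Lb.t (@Lb.fm (nat_lit 9) t1607)))))))))))
noncomputable def l12875 : Lb := (@Lb.d (nat_lit 0) (nat_lit 600) (nat_lit 597) (@Lb.r r2641 (@Lb.r r1667 (@Lb.r r2690 (@Lb.g g11 (@Lb.t (@Lb.fp (nat_lit 3) t2901)))))))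
noncomputable def l12876 : Lb := (@Lb.r r275 (@Lb.d (nat_lit 0) (nat_lit 256) (nat_lit 2) (@Lb.g g9 (@Lb.g g10 (@Lb.r r1699 (@Lb.r r386 (@Lb.r r613 (@Lb.r r24 (@Lb.d (nat_lit 352) (nat_lit 0) (nat_lit 261) (@Lb.fm (nat_lit 3) t1937))))))))))
noncomputable def l12877 : Lb := (@Lb.d (nat_lit 34) (nat_lit 550) (nat_lit 0) (@Lb.g g8 (@Lb.g g9 (@Lb.r r2579 (@Lb.r r582 (@Lb.r r2180 (@Lb.d (nat_lit 96) (nat_lit 2) (nat_lit 18) (@Lb.fp (nat_lit 3) t2902))))))))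
noncomputable def l12878 : Lb := (@Lb.r r323 (@Lb.d (nat_lit 162) (nat_lit 290) (nat_lit 2) (@Lb.g g8 (@Lb.g g9 (@Lb.g g10 (@Lb.r r1351 (@Lb.r r2712 (@Lb.r r586 (@Lb.d (nat_lit 145) (nat_lit 137) (nat_lit 552) (@Lb.t (@Lb.fp (nat_lit 9) t2304)))))))))))
noncomputable def l12879 : Lb := (@Lb.d (nat_lit 326) (nat_lit 24) (nat_lit 384) (@Lb.r r1057 (@Lb.r r1563 (@Lb.r r1688 (@Lb.r r1706 (@Lb.g g11 (@Lb.d (nat_lit 64) (nat_lit 0) (nat_lit 68) (@Lb.t (@Lb.fp (nat_lit 3) t324)))))))))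
noncomputable def l12880 : Lb := (@Lb.r r408 (@Lb.r r1418 (@Lb.r r2391 (@Lb.r r1057 (@Lb.r r1156 (@Lb.d (nat_lit 0) (nat_lit 336) (nat_lit 576) (@Lb.fm (nat_lit 1) t324)))))))
noncomputable def l12881 : Lb := (@Lb.d (nat_lit 102) (nat_lit 292) (nat_lit 64) (@Lb.g g8 (@Lb.g g9 (@Lb.g g10 (@Lb.g g11 (@Lb.r r1443 (@Lb.r r2193 (@Lb.r r1622 (@Lb.r r132 (@Lb.d (nat_lit 672) (nat_lit 144) (nat_lit 578) (@Lb.fp (nat_lit 9) t5)))))))))))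
noncomputable def l12882 : Lb := (@Lb.d (nat_lit 128) (nat_lit 2) (nat_lit 64) (@Lb.g g9 (@Lb.g g11 (@Lb.r r345 (@Lb.r r344 (@Lb.r r1319 (@Lb.r r2178 (@Lb.d (nat_lit 356) (nat_lit 105) (nat_lit 402) (@Lb.fm (nat_lit 3) t222)))))))))
noncomputable def l12883 : Lb := (@Lb.d (nat_lit 128) (nat_lit 258) (nat_lit 64) (@Lb.g g9 (@Lb.g g11 (@Lb.r r345 (@Lb.r r344 (@Lb.r r1319 (@Lb.r r2178 (@Lb.d (nat_lit 88) (nat_lit 96) (nat_lit 418) (@Lb.fm (nat_lit 3) t651)))))))))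
noncomputable def l12884 : Lb := (@Lb.r r323 (@Lb.d (nat_lit 6) (nat_lit 512) (nat_lit 2) (@Lb.g g8 (@Lb.g g9 (@Lb.g g10 (@Lb.r r70 (@Lb.r r388 (@Lb.r r1323 (@Lb.r r1313 (@Lb.d (nat_lit 10) (nat_lit 72) (nat_lit 258) (@Lb.t (@Lb.fp (nat_lit 9) t51))))))))))))
noncomputable def l12885 : Lb := (@Lb.d (nat_lit 1) (nat_lit 258) (nat_lit 72) (@Lb.g g8 (@Lb.g g9 (@Lb.g g11 (@Lb.r r1410 (@Lb.r r579 (@Lb.r r1129 (@Lb.r r36 (@Lb.d (nat_lit 549) (nat_lit 1) (nat_lit 0) (@Lb.t (@Lb.fp (nat_lit 9) t167)))))))))))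
noncomputable def l12886 : Lb := (@Lb.d (nat_lit 32) (nat_lit 256) (nat_lit 130) (@Lb.g g10 (@Lb.g g11 (@Lb.r r545 (@Lb.r r299 (@Lb.r r72 (@Lb.r r390 (@Lb.d (nat_lit 73) (nat_lit 133) (nat_lit 170) (@Lb.fp (nat_lit 3) t126)))))))))
noncomputable def l12887 : Lb := (@Lb.d (nat_lit 32) (nat_lit 258) (nat_lit 130) (@Lb.g g9 (@Lb.g g10 (@Lb.g g11 (@Lb.r r419 (@Lb.r r149 (@Lb.r r100 (@Lb.r r410 (@Lb.d (nat_lit 648) (nat_lit 26) (nat_lit 152) (@Lb.t (@Lb.fp (nat_lit 9) t61)))))))))))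
noncomputable def l12888 : Lb := (@Lb.d (nat_lit 0) (nat_lit 0) (nat_lit 550) (@Lb.r r1667 (@Lb.r r2690 (@Lb.g g11 (@Lb.t (@Lb.fp (nat_lit 3) t2))))))
noncomputable def l12889 : Lb := (@Lb.d (nat_lit 0) (nat_lit 260) (nat_lit 74) (@Lb.g g9 (@Lb.g g10 (@Lb.g g11 (@Lb.r r1699 (@Lb.r r1186 (@Lb.r r2705 (@Lb.d (nat_lit 0) (nat_lit 98) (nat_lit 41) (@Lb.t (@Lb.fm (nat_lit 9) t144))))))))))
noncomputable def l12890 : Lb := (@Lb.g g9 (@Lb.r r134 (@Lb.r r328 (@Lb.r r535 (@Lb.r r289 (@Lb.t (@Lb.p (nat_lit 1) (@Lb.fp (nat_lit 3) t51))))))))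
noncomputable def l12891 : Lb := (@Lb.d (nat_lit 0) (nat_lit 514) (nat_lit 64) (@Lb.g g9 (@Lb.g g11 (@Lb.r r529 (@Lb.r r663 (@Lb.r r328 (@Lb.r r134 (@Lb.d (nat_lit 533) (nat_lit 1) (nat_lit 16) (@Lb.fp (nat_lit 3) t61)))))))))
noncomputable def l12892 : Lb := (@Lb.d (nat_lit 0) (nat_lit 512) (nat_lit 64) (@Lb.g g7 (@Lb.r r2626 (@Lb.d (nat_lit 0) (nat_lit 0) (nat_lit 660) (@Lb.t (@Lb.fm (nat_lit 3) t2))))))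
noncomputable def l12893 : Lb := (@Lb.d (nat_lit 0) (nat_lit 0) (nat_lit 128) (@Lb.g g7 (@Lb.r r2626 (@Lb.d (nat_lit 0) (nat_lit 0) (nat_lit 532) (@Lb.t (@Lb.fm (nat_lit 3) t2))))))
noncomputable def l12894 : Lb := (@Lb.d (nat_lit 145) (nat_lit 297) (nat_lit 404) (@Lb.r r419 (@Lb.r r2341 (@Lb.r r1112 (@Lb.g g7 (@Lb.g g6 (@Lb.g g5 (@Lb.d (nat_lit 68) (nat_lit 0) (nat_lit 134) (@Lb.t (@Lb.fp (nat_lit 9) t2903))))))))))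
noncomputable def l12895 : Lb := (@Lb.d (nat_lit 18) (nat_lit 256) (nat_lit 2) (@Lb.r r70 (@Lb.r r392 (@Lb.r r535 (@Lb.r r337 (@Lb.g g6 (@Lb.g g5 (@Lb.d (nat_lit 0) (nat_lit 1) (nat_lit 2) (@Lb.fm (nat_lit 3) t622)))))))))
noncomputable def l12896 : Lb := (@Lb.d (nat_lit 2) (nat_lit 258) (nat_lit 130) (@Lb.g g8 (@Lb.g g9 (@Lb.g g10 (@Lb.g g11 (@Lb.r r427 (@Lb.r r145 (@Lb.r r356 (@Lb.r r154 (@Lb.r r132 (@Lb.d (nat_lit 9) (nat_lit 9) (nat_lit 146) (@Lb.fm (nat_lit 9) t756))))))))))))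
noncomputable def l12897 : Lb := (@Lb.d (nat_lit 133) (nat_lit 65) (nat_lit 101) (@Lb.r r146 (@Lb.r r357 (@Lb.r r24 (@Lb.r r1299 (@Lb.g g6 (@Lb.g g5 (@Lb.d (nat_lit 4) (nat_lit 1) (nat_lit 0) (@Lb.r r387 (@Lb.fp (nat_lit 3) t2686))))))))))
noncomputable def l12898 : Lb := (@Lb.r r323 (@Lb.d (nat_lit 33) (nat_lit 258) (nat_lit 2) (@Lb.g g8 (@Lb.g g9 (@Lb.g g10 (@Lb.r r2666 (@Lb.r r2391 (@Lb.r r1577 (@Lb.r r1556 (@Lb.d (nat_lit 384) (nat_lit 130) (nat_lit 256) (@Lb.t (@Lb.fp (nat_lit 9) t1792))))))))))))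
noncomputable def l12899 : Lb := (@Lb.d (nat_lit 2) (nat_lit 258) (nat_lit 130) (@Lb.g g8 (@Lb.g g9 (@Lb.g g10 (@Lb.g g11 (@Lb.r r2666 (@Lb.r r579 (@Lb.r r25 (@Lb.d (nat_lit 552) (nat_lit 102) (nat_lit 656) (@Lb.fm (nat_lit 9) t1320))))))))))
noncomputable def l12900 : Lb := (@Lb.d (nat_lit 129) (nat_lit 290) (nat_lit 0) (@Lb.g g8 (@Lb.g g9 (@Lb.r r2695 (@Lb.r r2178 (@Lb.r r408 (@Lb.r r2085 (@Lb.d (nat_lit 26) (nat_lit 160) (nat_lit 586) (@Lb.fm (nat_lit 3) t180)))))))))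
noncomputable def l12901 : Lb := (@Lb.d (nat_lit 0) (nat_lit 10) (nat_lit 129) (@Lb.g g9 (@Lb.g g10 (@Lb.g g11 (@Lb.r r1681 (@Lb.r r146 (@Lb.d (nat_lit 0) (nat_lit 150) (nat_lit 664) (@Lb.t (@Lb.fp (nat_lit 9) t225)))))))))
noncomputable def l12902 : Lb := (@Lb.d (nat_lit 32) (nat_lit 512) (nat_lit 130) (@Lb.g g9 (@Lb.g g10 (@Lb.g g11 (@Lb.r r1352 (@Lb.r r2455 (@Lb.r r1633 (@Lb.r r2450 (@Lb.d (nat_lit 0) (nat_lit 144) (nat_lit 666) (@Lb.t (@Lb.fp (nat_lit 9) t45)))))))))))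
noncomputable def l12903 : Lb := (@Lb.d (nat_lit 32) (nat_lit 0) (nat_lit 130) (@Lb.g g9 (@Lb.g g10 (@Lb.g g11 (@Lb.r r1352 (@Lb.r r2455 (@Lb.r r1633 (@Lb.r r2450 (@Lb.d (nat_lit 10) (nat_lit 146) (nat_lit 666) (@Lb.t (@Lb.fp (nat_lit 9) t45)))))))))))
noncomputable def l12904 : Lb := (@Lb.d (nat_lit 0) (nat_lit 644) (nat_lit 1) (@Lb.r r260 (@Lb.r r2178 (@Lb.r r395 (@Lb.r r388 (@Lb.g g9 (@Lb.d (nat_lit 0) (nat_lit 70) (nat_lit 0) (@Lb.t (@Lb.fm (nat_lit 3) t216)))))))))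
noncomputable def l12905 : Lb := (@Lb.d (nat_lit 0) (nat_lit 292) (nat_lit 66) (@Lb.g g9 (@Lb.g g10 (@Lb.g g11 (@Lb.r r2723 (@Lb.r r673 (@Lb.r r1186 (@Lb.r r145 (@Lb.d (nat_lit 0) (nat_lit 153) (nat_lit 153) (@Lb.t (@Lb.fp (nat_lit 9) t257)))))))))))
noncomputable def l12906 : Lb := (@Lb.d (nat_lit 0) (nat_lit 554) (nat_lit 64) (@Lb.g g9 (@Lb.g g11 (@Lb.r r2723 (@Lb.r r1426 (@Lb.r r1617 (@Lb.d (nat_lit 0) (nat_lit 130) (nat_lit 393) (@Lb.fm (nat_lit 3) t2741))))))))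
noncomputable def l12907 : Lb := (@Lb.d (nat_lit 4) (nat_lit 548) (nat_lit 64) (@Lb.g g8 (@Lb.g g9 (@Lb.g g10 (@Lb.g g11 (@Lb.r r1706 (@Lb.r r676 (@Lb.r r551 (@Lb.r r533 (@Lb.r r1060 (@Lb.d (nat_lit 386) (nat_lit 2) (nat_lit 640) (@Lb.fp (nat_lit 9) t594))))))))))))
noncomputable def l12908 : Lb := (@Lb.d (nat_lit 32) (nat_lit 548) (nat_lit 64) (@Lb.g g9 (@Lb.g g10 (@Lb.g g11 (@Lb.r r1707 (@Lb.r r1689 (@Lb.r r100 (@Lb.r r410 (@Lb.d (nat_lit 386) (nat_lit 26) (nat_lit 169) (@Lb.t (@Lb.fm (nat_lit 9) t594)))))))))))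
noncomputable def l12909 : Lb := (@Lb.d (nat_lit 0) (nat_lit 256) (nat_lit 128) (@Lb.g g9 (@Lb.g g10 (@Lb.g g11 (@Lb.r r97 (@Lb.r r1618 (@Lb.r r145 (@Lb.d (nat_lit 0) (nat_lit 10) (nat_lit 642) (@Lb.t (@Lb.fp (nat_lit 9) t1814))))))))))
noncomputable def l12910 : Lb := (@Lb.d (nat_lit 4) (nat_lit 0) (nat_lit 73) (@Lb.g g8 (@Lb.g g9 (@Lb.g g10 (@Lb.g g11 (@Lb.r r1706 (@Lb.r r680 (@Lb.r r555 (@Lb.r r1553 (@Lb.r r2084 (@Lb.d (nat_lit 4) (nat_lit 96) (nat_lit 640) (@Lb.fm (nat_lit 9) t51))))))))))))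
noncomputable def l12911 : Lb := (@Lb.d (nat_lit 0) (nat_lit 512) (nat_lit 138) (@Lb.g g10 (@Lb.g g7 (@Lb.r r402 (@Lb.d (nat_lit 0) (nat_lit 17) (nat_lit 10) (@Lb.fm (nat_lit 3) t44))))))
noncomputable def l12912 : Lb := (@Lb.d (nat_lit 66) (nat_lit 646) (nat_lit 358) (@Lb.r r2442 (@Lb.r r2180 (@Lb.r r535 (@Lb.r r1445 (@Lb.g g7 (@Lb.g g6 (@Lb.g g5 (@Lb.d (nat_lit 16) (nat_lit 0) (nat_lit 133) (@Lb.t (@Lb.fm (nat_lit 9) t2853)))))))))))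
noncomputable def l12913 : Lb := (@Lb.d (nat_lit 8) (nat_lit 546) (nat_lit 0) (@Lb.g g5 (@Lb.r r683 (@Lb.r r2178 (@Lb.r r2728 (@Lb.r r2601 (@Lb.d (nat_lit 649) (nat_lit 161) (nat_lit 101) (@Lb.t (@Lb.fm (nat_lit 3) t88)))))))))
noncomputable def l12914 : Lb := (@Lb.d (nat_lit 0) (nat_lit 25) (nat_lit 5) (@Lb.g g9 (@Lb.g g10 (@Lb.g g11 (@Lb.r r387 (@Lb.r r402 (@Lb.r r2385 (@Lb.d (nat_lit 0) (nat_lit 64) (nat_lit 150) (@Lb.t (@Lb.fp (nat_lit 9) t406))))))))))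
noncomputable def l12915 : Lb := (@Lb.d (nat_lit 0) (nat_lit 550) (nat_lit 74) (@Lb.g g9 (@Lb.g g10 (@Lb.g g11 (@Lb.r r2626 (@Lb.r r2577 (@Lb.r r595 (@Lb.d (nat_lit 0) (nat_lit 137) (nat_lit 353) (@Lb.t (@Lb.fp (nat_lit 9) t484))))))))))
noncomputable def l12916 : Lb := (@Lb.d (nat_lit 10) (nat_lit 512) (nat_lit 0) (@Lb.g g8 (@Lb.g g10 (@Lb.r r2451 (@Lb.r r402 (@Lb.r r149 (@Lb.r r168 (@Lb.d (nat_lit 294) (nat_lit 6) (nat_lit 32) (@Lb.fm (nat_lit 3) t592)))))))))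
noncomputable def l12917 : Lb := (@Lb.d (nat_lit 0) (nat_lit 537) (nat_lit 5) (@Lb.g g9 (@Lb.g g10 (@Lb.g g11 (@Lb.r r1671 (@Lb.r r1685 (@Lb.r r2468 (@Lb.r r2150 (@Lb.d (nat_lit 529) (nat_lit 128) (nat_lit 2) (@Lb.t (@Lb.fp (nat_lit 9) t648)))))))))))
noncomputable def l12918 : Lb := (@Lb.r r354 (@Lb.d (nat_lit 0) (nat_lit 17) (nat_lit 8) (@Lb.g g9 (@Lb.g g11 (@Lb.r r402 (@Lb.r r2129 (@Lb.d (nat_lit 0) (nat_lit 4) (nat_lit 144) (@Lb.fp (nat_lit 3) t917))))))))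
noncomputable def l12919 : Lb := (@Lb.d (nat_lit 0) (nat_lit 537) (nat_lit 5) (@Lb.g g9 (@Lb.g g10 (@Lb.g g11 (@Lb.r r387 (@Lb.r r402 (@Lb.r r2385 (@Lb.d (nat_lit 0) (nat_lit 69) (nat_lit 148) (@Lb.t (@Lb.fp (nat_lit 9) t917))))))))))
noncomputable def l12920 : Lb := (@Lb.r r20 (@Lb.r r322 (@Lb.g g9 (@Lb.g g7 (@Lb.r r2710 (@Lb.r r1384 (@Lb.r r2583 (@Lb.r r2337 (@Lb.fp (nat_lit 3) t51)))))))))
noncomputable def l12921 : Lb := (@Lb.d (nat_lit 130) (nat_lit 288) (nat_lit 0) (@Lb.g g8 (@Lb.g g9 (@Lb.r r659 (@Lb.r r2178 (@Lb.r r2389 (@Lb.r r2084 (@Lb.d (nat_lit 89) (nat_lit 73) (nat_lit 650) (@Lb.fm (nat_lit 3) t88)))))))))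
noncomputable def l12922 : Lb := (@Lb.d (nat_lit 34) (nat_lit 512) (nat_lit 0) (@Lb.g g8 (@Lb.g g9 (@Lb.r r1129 (@Lb.r r150 (@Lb.r r360 (@Lb.r r1543 (@Lb.d (nat_lit 0) (nat_lit 73) (nat_lit 393) (@Lb.fm (nat_lit 3) t2904)))))))))
noncomputable def l12923 : Lb := (@Lb.g g7 (@Lb.r r97 (@Lb.r r2130 (@Lb.r r145 (@Lb.d (nat_lit 0) (nat_lit 81) (nat_lit 576) (@Lb.t (@Lb.fp (nat_lit 3) t980)))))))
noncomputable def l12924 : Lb := (@Lb.r r2403 (@Lb.r r97 (@Lb.r r2130 (@Lb.r r145 (@Lb.d (nat_lit 0) (nat_lit 24) (nat_lit 537) (@Lb.fm (nat_lit 1) t392))))))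
noncomputable def l12925 : Lb := (@Lb.g g10 (@Lb.g g7 (@Lb.r r2691 (@Lb.r r1378 (@Lb.r r101 (@Lb.r r24 (@Lb.d (nat_lit 258) (nat_lit 256) (nat_lit 512) (@Lb.fm (nat_lit 3) t145))))))))
noncomputable def l12926 : Lb := (@Lb.d (nat_lit 0) (nat_lit 520) (nat_lit 2) (@Lb.g g10 (@Lb.g g7 (@Lb.r r2641 (@Lb.r r354 (@Lb.d (nat_lit 0) (nat_lit 169) (nat_lit 6) (@Lb.fp (nat_lit 3) t980)))))))
noncomputable def l12927 : Lb := (@Lb.g g10 (@Lb.g g7 (@Lb.r r402 (@Lb.r r101 (@Lb.r r24 (@Lb.d (nat_lit 258) (nat_lit 256) (nat_lit 512) (@Lb.fm (nat_lit 3) t145)))))))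
noncomputable def l12928 : Lb := (@Lb.d (nat_lit 0) (nat_lit 678) (nat_lit 576) (@Lb.r r1682 (@Lb.r r579 (@Lb.g g7 (@Lb.g g6 (@Lb.g g5 (@Lb.d (nat_lit 0) (nat_lit 5) (nat_lit 132) (@Lb.t (@Lb.fp (nat_lit 9) t1219)))))))))
noncomputable def l12929 : Lb := (@Lb.r r70 (@Lb.r r263 (@Lb.d (nat_lit 521) (nat_lit 513) (nat_lit 0) (@Lb.g g4 (@Lb.g g9 (@Lb.r r267 (@Lb.r r74 (@Lb.r r37 (@Lb.d (nat_lit 264) (nat_lit 130) (nat_lit 0) (@Lb.fm (nat_lit 3) t74))))))))))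
noncomputable def l12930 : Lb := (@Lb.d (nat_lit 520) (nat_lit 360) (nat_lit 345) (@Lb.r r1681 (@Lb.r r1691 (@Lb.r r1624 (@Lb.r r1190 (@Lb.g g6 (@Lb.g g5 (@Lb.d (nat_lit 4) (nat_lit 21) (nat_lit 1) (@Lb.r r387 (@Lb.fp (nat_lit 3) t119))))))))))
noncomputable def l12931 : Lb := (@Lb.d (nat_lit 130) (nat_lit 290) (nat_lit 0) (@Lb.g g8 (@Lb.g g9 (@Lb.r r2707 (@Lb.r r2178 (@Lb.r r341 (@Lb.r r2084 (@Lb.d (nat_lit 345) (nat_lit 73) (nat_lit 168) (@Lb.fm (nat_lit 3) t88)))))))))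
noncomputable def l12932 : Lb := (@Lb.d (nat_lit 530) (nat_lit 514) (nat_lit 17) (@Lb.r r1162 (@Lb.r r1668 (@Lb.r r1447 (@Lb.g g6 (@Lb.g g9 (@Lb.d (nat_lit 0) (nat_lit 41) (nat_lit 2) (@Lb.r r387 (@Lb.fm (nat_lit 3) t5)))))))))
noncomputable def l12933 : Lb := (@Lb.d (nat_lit 258) (nat_lit 105) (nat_lit 345) (@Lb.r r1681 (@Lb.r r1691 (@Lb.r r1624 (@Lb.r r1446 (@Lb.g g6 (@Lb.g g5 (@Lb.d (nat_lit 4) (nat_lit 21) (nat_lit 2) (@Lb.r r387 (@Lb.fp (nat_lit 3) t51))))))))))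
noncomputable def l12934 : Lb := (@Lb.d (nat_lit 528) (nat_lit 10) (nat_lit 16) (@Lb.r r1158 (@Lb.r r2136 (@Lb.r r2341 (@Lb.r r2707 (@Lb.g g7 (@Lb.g g6 (@Lb.d (nat_lit 0) (nat_lit 0) (nat_lit 133) (@Lb.fm (nat_lit 3) t1524)))))))))
noncomputable def l12935 : Lb := (@Lb.d (nat_lit 4) (nat_lit 1) (nat_lit 64) (@Lb.g g5 (@Lb.g g11 (@Lb.r r2587 (@Lb.r r1126 (@Lb.r r24 (@Lb.d (nat_lit 384) (nat_lit 1) (nat_lit 320) (@Lb.fp (nat_lit 3) t1025))))))))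
noncomputable def l12936 : Lb := (@Lb.g g10 (@Lb.r r594 (@Lb.r r1425 (@Lb.d (nat_lit 0) (nat_lit 576) (nat_lit 650) (@Lb.t (@Lb.fp (nat_lit 3) t2776))))))
noncomputable def l12937 : Lb := (@Lb.d (nat_lit 0) (nat_lit 552) (nat_lit 384) (@Lb.g g10 (@Lb.g g11 (@Lb.r r2145 (@Lb.r r2130 (@Lb.d (nat_lit 0) (nat_lit 68) (nat_lit 33) (@Lb.fp (nat_lit 3) t2169)))))))
noncomputable def l12938 : Lb := (@Lb.d (nat_lit 0) (nat_lit 0) (nat_lit 534) (@Lb.r r1105 (@Lb.r r98 (@Lb.r r593 (@Lb.g g11 (@Lb.g g6 (@Lb.g g5 (@Lb.d (nat_lit 0) (nat_lit 6) (nat_lit 129) (@Lb.t (@Lb.fm (nat_lit 9) t1487))))))))))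
noncomputable def l12939 : Lb := (@Lb.d (nat_lit 0) (nat_lit 129) (nat_lit 128) (@Lb.g g9 (@Lb.g g10 (@Lb.g g11 (@Lb.r r299 (@Lb.r r328 (@Lb.r r134 (@Lb.d (nat_lit 0) (nat_lit 137) (nat_lit 17) (@Lb.t (@Lb.fm (nat_lit 9) t309))))))))))
noncomputable def l12940 : Lb := (@Lb.r r515 (@Lb.r r72 (@Lb.r r2134 (@Lb.r r1057 (@Lb.r r1156 (@Lb.d (nat_lit 0) (nat_lit 320) (nat_lit 0) (@Lb.fm (nat_lit 1) t1222)))))))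
noncomputable def l12941 : Lb := (@Lb.d (nat_lit 2) (nat_lit 34) (nat_lit 66) (@Lb.g g8 (@Lb.g g9 (@Lb.g g10 (@Lb.g g11 (@Lb.r r545 (@Lb.r r1315 (@Lb.r r388 (@Lb.r r70 (@Lb.r r132 (@Lb.d (nat_lit 516) (nat_lit 160) (nat_lit 10) (@Lb.fm (nat_lit 9) t2905))))))))))))
noncomputable def l12942 : Lb := (@Lb.r r1297 (@Lb.d (nat_lit 0) (nat_lit 8) (nat_lit 642) (@Lb.g g10 (@Lb.g g7 (@Lb.d (nat_lit 0) (nat_lit 128) (nat_lit 98) (@Lb.fp (nat_lit 3) t2906))))))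
noncomputable def l12943 : Lb := (@Lb.d (nat_lit 0) (nat_lit 512) (nat_lit 10) (@Lb.g g10 (@Lb.r r323 (@Lb.r r658 (@Lb.d (nat_lit 0) (nat_lit 8) (nat_lit 21) (@Lb.t (@Lb.fm (nat_lit 3) t2820)))))))
noncomputable def l12944 : Lb := (@Lb.r r322 (@Lb.r r659 (@Lb.r r578 (@Lb.d (nat_lit 0) (nat_lit 1) (nat_lit 18) (@Lb.fm (nat_lit 1) t356)))))
noncomputable def l12945 : Lb := (@Lb.d (nat_lit 2) (nat_lit 290) (nat_lit 66) (@Lb.g g8 (@Lb.g g9 (@Lb.g g10 (@Lb.g g11 (@Lb.r r545 (@Lb.r r1315 (@Lb.r r388 (@Lb.r r70 (@Lb.r r132 (@Lb.d (nat_lit 514) (nat_lit 162) (nat_lit 10) (@Lb.fm (nat_lit 9) t1440))))))))))))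
noncomputable def l12946 : Lb := (@Lb.d (nat_lit 25) (nat_lit 578) (nat_lit 161) (@Lb.r r21 (@Lb.r r1158 (@Lb.r r2376 (@Lb.g g11 (@Lb.g g5 (@Lb.d (nat_lit 128) (nat_lit 1) (nat_lit 644) (@Lb.fp (nat_lit 3) t2907))))))))
noncomputable def l12947 : Lb := (@Lb.d (nat_lit 1) (nat_lit 617) (nat_lit 617) (@Lb.r r2705 (@Lb.r r2459 (@Lb.r r2392 (@Lb.r r1702 (@Lb.g g7 (@Lb.g g6 (@Lb.g g5 (@Lb.d (nat_lit 4) (nat_lit 0) (nat_lit 1) (@Lb.t (@Lb.fp (nat_lit 9) t119)))))))))))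
noncomputable def l12948 : Lb := (@Lb.d (nat_lit 0) (nat_lit 10) (nat_lit 0) (@Lb.g g9 (@Lb.r r86 (@Lb.r r424 (@Lb.r r599 (@Lb.r r417 (@Lb.d (nat_lit 0) (nat_lit 68) (nat_lit 326) (@Lb.t (@Lb.fm (nat_lit 3) t210)))))))))
noncomputable def l12949 : Lb := (@Lb.d (nat_lit 10) (nat_lit 133) (nat_lit 1) (@Lb.fp (nat_lit 1) t45))
noncomputable def l12950 : Lb := (@Lb.r r323 (@Lb.d (nat_lit 32) (nat_lit 545) (nat_lit 2) (@Lb.g g9 (@Lb.g g10 (@Lb.r r599 (@Lb.r r420 (@Lb.r r341 (@Lb.d (nat_lit 86) (nat_lit 168) (nat_lit 129) (@Lb.fp (nat_lit 3) t51)))))))))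
noncomputable def l12951 : Lb := (@Lb.r r260 (@Lb.r r523 (@Lb.r r1154 (@Lb.r r1057 (@Lb.r r516 (@Lb.fm (nat_lit 1) t980))))))
noncomputable def l12952 : Lb := (@Lb.r r82 (@Lb.d (nat_lit 2) (nat_lit 514) (nat_lit 128) (@Lb.g g8 (@Lb.g g9 (@Lb.g g11 (@Lb.r r299 (@Lb.r r153 (@Lb.r r146 (@Lb.d (nat_lit 265) (nat_lit 4) (nat_lit 168) (@Lb.t (@Lb.fp (nat_lit 9) t2807)))))))))))
noncomputable def l12953 : Lb := (@Lb.r r82 (@Lb.d (nat_lit 2) (nat_lit 258) (nat_lit 64) (@Lb.g g8 (@Lb.g g9 (@Lb.g g11 (@Lb.r r299 (@Lb.r r153 (@Lb.r r146 (@Lb.d (nat_lit 265) (nat_lit 2) (nat_lit 170) (@Lb.t (@Lb.fp (nat_lit 9) t2444)))))))))))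
noncomputable def l12954 : Lb := (@Lb.r r82 (@Lb.d (nat_lit 2) (nat_lit 514) (nat_lit 128) (@Lb.g g8 (@Lb.g g9 (@Lb.g g11 (@Lb.r r299 (@Lb.r r153 (@Lb.r r146 (@Lb.d (nat_lit 265) (nat_lit 2) (nat_lit 32) (@Lb.t (@Lb.fp (nat_lit 9) t2444)))))))))))
noncomputable def l12955 : Lb := (@Lb.d (nat_lit 2) (nat_lit 258) (nat_lit 130) (@Lb.g g8 (@Lb.g g9 (@Lb.g g10 (@Lb.g g11 (@Lb.r r1699 (@Lb.r r164 (@Lb.r r614 (@Lb.r r2149 (@Lb.r r1156 (@Lb.d (nat_lit 522) (nat_lit 97) (nat_lit 74) (@Lb.fp (nat_lit 9) t2542))))))))))))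
noncomputable def l12956 : Lb := (@Lb.d (nat_lit 130) (nat_lit 512) (nat_lit 0) (@Lb.g g8 (@Lb.r r263 (@Lb.r r1154 (@Lb.r r1057 (@Lb.r r520 (@Lb.d (nat_lit 66) (nat_lit 0) (nat_lit 0) (@Lb.t (@Lb.fm (nat_lit 3) t980)))))))))
noncomputable def l12957 : Lb := (@Lb.d (nat_lit 0) (nat_lit 258) (nat_lit 0) (@Lb.g g4 (@Lb.g g9 (@Lb.g g10 (@Lb.g g7 (@Lb.r r422 (@Lb.r r37 (@Lb.d (nat_lit 8) (nat_lit 25) (nat_lit 66) (@Lb.fp (nat_lit 9) t71)))))))))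
noncomputable def l12958 : Lb := (@Lb.d (nat_lit 5) (nat_lit 548) (nat_lit 64) (@Lb.g g4 (@Lb.g g9 (@Lb.g g10 (@Lb.g g11 (@Lb.r r679 (@Lb.r r610 (@Lb.r r613 (@Lb.d (nat_lit 37) (nat_lit 25) (nat_lit 136) (@Lb.fm (nat_lit 9) t1531))))))))))
noncomputable def l12959 : Lb := (@Lb.r r82 (@Lb.d (nat_lit 4) (nat_lit 512) (nat_lit 128) (@Lb.g g8 (@Lb.g g9 (@Lb.g g11 (@Lb.r r1691 (@Lb.r r610 (@Lb.r r1065 (@Lb.r r1416 (@Lb.d (nat_lit 656) (nat_lit 24) (nat_lit 137) (@Lb.t (@Lb.fp (nat_lit 9) t2391))))))))))))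
noncomputable def l12960 : Lb := (@Lb.d (nat_lit 4) (nat_lit 257) (nat_lit 0) (@Lb.g g5 (@Lb.g g10 (@Lb.g g7 (@Lb.r r402 (@Lb.d (nat_lit 0) (nat_lit 24) (nat_lit 66) (@Lb.t (@Lb.fp (nat_lit 9) t71))))))))
noncomputable def l12961 : Lb := (@Lb.d (nat_lit 0) (nat_lit 513) (nat_lit 66) (@Lb.g g9 (@Lb.g g10 (@Lb.g g7 (@Lb.r r593 (@Lb.r r2466 (@Lb.r r145 (@Lb.d (nat_lit 0) (nat_lit 166) (nat_lit 546) (@Lb.t (@Lb.fm (nat_lit 9) t1487))))))))))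
noncomputable def l12962 : Lb := (@Lb.d (nat_lit 34) (nat_lit 1) (nat_lit 0) (@Lb.g g8 (@Lb.g g9 (@Lb.r r2595 (@Lb.r r582 (@Lb.r r529 (@Lb.r r2468 (@Lb.d (nat_lit 618) (nat_lit 85) (nat_lit 602) (@Lb.fp (nat_lit 3) t51)))))))))
noncomputable def l12963 : Lb := (@Lb.d (nat_lit 0) (nat_lit 258) (nat_lit 0) (@Lb.g g9 (@Lb.r r2599 (@Lb.r r1368 (@Lb.r r2214 (@Lb.r r37 (@Lb.d (nat_lit 512) (nat_lit 0) (nat_lit 16) (@Lb.t (@Lb.fp (nat_lit 3) t232)))))))))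
noncomputable def l12964 : Lb := (@Lb.d (nat_lit 0) (nat_lit 0) (nat_lit 132) (@Lb.g g10 (@Lb.g g11 (@Lb.r r675 (@Lb.r r2658 (@Lb.d (nat_lit 0) (nat_lit 89) (nat_lit 33) (@Lb.fp (nat_lit 3) t944)))))))
noncomputable def l12965 : Lb := (@Lb.d (nat_lit 0) (nat_lit 288) (nat_lit 388) (@Lb.g g11 (@Lb.r r2626 (@Lb.d (nat_lit 0) (nat_lit 130) (nat_lit 21) (@Lb.t (@Lb.fp (nat_lit 3) t51))))))
noncomputable def l12966 : Lb := (@Lb.d (nat_lit 0) (nat_lit 264) (nat_lit 2) (@Lb.g g10 (@Lb.d (nat_lit 0) (nat_lit 2) (nat_lit 82) (@Lb.t (@Lb.fp (nat_lit 3) t334)))))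
noncomputable def l12967 : Lb := (@Lb.d (nat_lit 0) (nat_lit 256) (nat_lit 130) (@Lb.g g10 (@Lb.g g11 (@Lb.r r419 (@Lb.r r386 (@Lb.d (nat_lit 0) (nat_lit 137) (nat_lit 393) (@Lb.fp (nat_lit 3) t51)))))))
noncomputable def l12968 : Lb := (@Lb.d (nat_lit 2) (nat_lit 521) (nat_lit 65) (@Lb.g g8 (@Lb.g g9 (@Lb.g g10 (@Lb.g g7 (@Lb.r r402 (@Lb.r r145 (@Lb.r r24 (@Lb.d (nat_lit 10) (nat_lit 21) (nat_lit 6) (@Lb.fm (nat_lit 9) t42))))))))))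
noncomputable def l12969 : Lb := (@Lb.d (nat_lit 4) (nat_lit 5) (nat_lit 64) (@Lb.g g8 (@Lb.g g9 (@Lb.g g10 (@Lb.g g7 (@Lb.r r386 (@Lb.r r97 (@Lb.r r24 (@Lb.d (nat_lit 10) (nat_lit 9) (nat_lit 9) (@Lb.fp (nat_lit 9) t42))))))))))
noncomputable def l12970 : Lb := (@Lb.d (nat_lit 102) (nat_lit 677) (nat_lit 256) (@Lb.r r597 (@Lb.r r322 (@Lb.r r343 (@Lb.g g6 (@Lb.g g5 (@Lb.g g4 (@Lb.d (nat_lit 1) (nat_lit 5) (nat_lit 2) (@Lb.r r291 (@Lb.t (@Lb.fp (nat_lit 9) t898)))))))))))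
noncomputable def l12971 : Lb := (@Lb.d (nat_lit 0) (nat_lit 673) (nat_lit 64) (@Lb.r r289 (@Lb.r r535 (@Lb.r r1428 (@Lb.r r1110 (@Lb.g g9 (@Lb.d (nat_lit 0) (nat_lit 5) (nat_lit 0) (@Lb.t (@Lb.fp (nat_lit 3) t2888)))))))))
noncomputable def l12972 : Lb := (@Lb.d (nat_lit 0) (nat_lit 600) (nat_lit 341) (@Lb.r r1362 (@Lb.g g7 (@Lb.g g6 (@Lb.g g5 (@Lb.d (nat_lit 0) (nat_lit 0) (nat_lit 65) (@Lb.t (@Lb.fp (nat_lit 9) t1400))))))))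
noncomputable def l12973 : Lb := (@Lb.d (nat_lit 0) (nat_lit 677) (nat_lit 341) (@Lb.r r2129 (@Lb.r r2146 (@Lb.r r609 (@Lb.g g7 (@Lb.g g6 (@Lb.g g5 (@Lb.d (nat_lit 0) (nat_lit 5) (nat_lit 65) (@Lb.t (@Lb.fm (nat_lit 9) t99))))))))))
noncomputable def l12974 : Lb := (@Lb.r r322 (@Lb.d (nat_lit 128) (nat_lit 512) (nat_lit 384) (@Lb.g g11 (@Lb.r r1304 (@Lb.r r2149 (@Lb.r r146 (@Lb.d (nat_lit 0) (nat_lit 0) (nat_lit 128) (@Lb.t (@Lb.fm (nat_lit 3) t307)))))))))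
noncomputable def l12975 : Lb := (@Lb.d (nat_lit 0) (nat_lit 520) (nat_lit 66) (@Lb.g g10 (@Lb.g g11 (@Lb.r r353 (@Lb.r r663 (@Lb.r r356 (@Lb.r r154 (@Lb.d (nat_lit 264) (nat_lit 138) (nat_lit 17) (@Lb.fp (nat_lit 3) t127)))))))))
noncomputable def l12976 : Lb := (@Lb.r r323 (@Lb.d (nat_lit 0) (nat_lit 516) (nat_lit 42) (@Lb.g g6 (@Lb.r r387 (@Lb.d (nat_lit 0) (nat_lit 82) (nat_lit 592) (@Lb.t (@Lb.fm (nat_lit 3) t356)))))))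
noncomputable def l12977 : Lb := (@Lb.d (nat_lit 0) (nat_lit 16) (nat_lit 585) (@Lb.g g9 (@Lb.g g10 (@Lb.g g7 (@Lb.r r386 (@Lb.r r1121 (@Lb.d (nat_lit 0) (nat_lit 137) (nat_lit 25) (@Lb.t (@Lb.fp (nat_lit 9) t599)))))))))
noncomputable def l12978 : Lb := (@Lb.d (nat_lit 0) (nat_lit 528) (nat_lit 585) (@Lb.g g10 (@Lb.g g7 (@Lb.r r386 (@Lb.d (nat_lit 0) (nat_lit 70) (nat_lit 10) (@Lb.fm (nat_lit 3) t356))))))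
noncomputable def l12979 : Lb := (@Lb.d (nat_lit 0) (nat_lit 256) (nat_lit 128) (@Lb.g g11 (@Lb.r r658 (@Lb.r r387 (@Lb.d (nat_lit 0) (nat_lit 69) (nat_lit 262) (@Lb.t (@Lb.fm (nat_lit 3) t119)))))))
noncomputable def l12980 : Lb := (@Lb.d (nat_lit 0) (nat_lit 642) (nat_lit 289) (@Lb.r r609 (@Lb.r r363 (@Lb.r r356 (@Lb.r r154 (@Lb.g g4 (@Lb.d (nat_lit 1) (nat_lit 0) (nat_lit 0) (@Lb.t (@Lb.fm (nat_lit 3) t126)))))))))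
noncomputable def l12981 : Lb := (@Lb.d (nat_lit 0) (nat_lit 545) (nat_lit 0) (@Lb.g g5 (@Lb.r r363 (@Lb.r r356 (@Lb.r r154 (@Lb.d (nat_lit 5) (nat_lit 130) (nat_lit 32) (@Lb.t (@Lb.fp (nat_lit 3) t232))))))))
noncomputable def l12982 : Lb := (@Lb.d (nat_lit 0) (nat_lit 90) (nat_lit 426) (@Lb.fp (nat_lit 1) t654))
noncomputable def l12983 : Lb := (@Lb.d (nat_lit 0) (nat_lit 264) (nat_lit 106) (@Lb.g g10 (@Lb.g g11 (@Lb.r r1427 (@Lb.d (nat_lit 0) (nat_lit 153) (nat_lit 297) (@Lb.fm (nat_lit 3) t334))))))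
noncomputable def l12984 : Lb := (@Lb.d (nat_lit 10) (nat_lit 0) (nat_lit 136) (@Lb.g g8 (@Lb.g g10 (@Lb.g g11 (@Lb.r r1347 (@Lb.r r2706 (@Lb.r r149 (@Lb.r r168 (@Lb.d (nat_lit 294) (nat_lit 6) (nat_lit 389) (@Lb.t (@Lb.fm (nat_lit 9) t312)))))))))))
noncomputable def l12985 : Lb := (@Lb.d (nat_lit 0) (nat_lit 292) (nat_lit 4) (@Lb.g g9 (@Lb.g g10 (@Lb.g g11 (@Lb.r r2691 (@Lb.r r1186 (@Lb.r r293 (@Lb.r r24 (@Lb.d (nat_lit 657) (nat_lit 0) (nat_lit 325) (@Lb.t (@Lb.fm (nat_lit 9) t329)))))))))))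
noncomputable def l12986 : Lb := (@Lb.d (nat_lit 32) (nat_lit 512) (nat_lit 2) (@Lb.g g9 (@Lb.g g10 (@Lb.g g11 (@Lb.r r1707 (@Lb.r r2713 (@Lb.r r100 (@Lb.r r410 (@Lb.d (nat_lit 649) (nat_lit 26) (nat_lit 153) (@Lb.t (@Lb.fm (nat_lit 9) t284)))))))))))
noncomputable def l12987 : Lb := (@Lb.d (nat_lit 0) (nat_lit 522) (nat_lit 0) (@Lb.g g5 (@Lb.g g11 (@Lb.r r2466 (@Lb.r r417 (@Lb.d (nat_lit 0) (nat_lit 20) (nat_lit 681) (@Lb.fp (nat_lit 3) t1814)))))))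
noncomputable def l12988 : Lb := (@Lb.d (nat_lit 0) (nat_lit 512) (nat_lit 2) (@Lb.g g9 (@Lb.g g10 (@Lb.g g11 (@Lb.r r1703 (@Lb.r r2392 (@Lb.r r1190 (@Lb.r r1169 (@Lb.d (nat_lit 10) (nat_lit 73) (nat_lit 34) (@Lb.t (@Lb.fp (nat_lit 9) t51)))))))))))
noncomputable def l12989 : Lb := (@Lb.r r323 (@Lb.g g9 (@Lb.g g10 (@Lb.r r1703 (@Lb.r r2392 (@Lb.r r1190 (@Lb.r r1169 (@Lb.d (nat_lit 8) (nat_lit 73) (nat_lit 34) (@Lb.fp (nat_lit 3) t51)))))))))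
noncomputable def l12990 : Lb := (@Lb.r r82 (@Lb.d (nat_lit 0) (nat_lit 546) (nat_lit 136) (@Lb.g g9 (@Lb.g g11 (@Lb.r r1426 (@Lb.r r1121 (@Lb.d (nat_lit 0) (nat_lit 68) (nat_lit 130) (@Lb.fm (nat_lit 3) t406))))))))
noncomputable def l12991 : Lb := (@Lb.r r322 (@Lb.r r659 (@Lb.r r578 (@Lb.d (nat_lit 0) (nat_lit 144) (nat_lit 320) (@Lb.fm (nat_lit 1) t51)))))
noncomputable def l12992 : Lb := (@Lb.d (nat_lit 393) (nat_lit 298) (nat_lit 320) (@Lb.r r1572 (@Lb.r r1559 (@Lb.r r345 (@Lb.r r678 (@Lb.g g4 (@Lb.d (nat_lit 70) (nat_lit 0) (nat_lit 0) (@Lb.t (@Lb.fm (nat_lit 3) t727)))))))))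
noncomputable def l12993 : Lb := (@Lb.d (nat_lit 393) (nat_lit 554) (nat_lit 320) (@Lb.r r1572 (@Lb.r r1559 (@Lb.r r345 (@Lb.r r678 (@Lb.g g4 (@Lb.d (nat_lit 69) (nat_lit 0) (nat_lit 0) (@Lb.t (@Lb.fm (nat_lit 3) t1096)))))))))
noncomputable def l12994 : Lb := (@Lb.d (nat_lit 0) (nat_lit 266) (nat_lit 676) (@Lb.r r2641 (@Lb.r r579 (@Lb.r r2386 (@Lb.g g5 (@Lb.r r98 (@Lb.t (@Lb.fp (nat_lit 3) t2908))))))))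
noncomputable def l12995 : Lb := (@Lb.d (nat_lit 0) (nat_lit 665) (nat_lit 388) (@Lb.r r579 (@Lb.r r1362 (@Lb.g g6 (@Lb.g g5 (@Lb.d (nat_lit 0) (nat_lit 0) (nat_lit 1) (@Lb.fp (nat_lit 3) t667)))))))
noncomputable def l12996 : Lb := (@Lb.d (nat_lit 128) (nat_lit 528) (nat_lit 329) (@Lb.g g10 (@Lb.g g11 (@Lb.r r161 (@Lb.r r1448 (@Lb.r r1130 (@Lb.d (nat_lit 25) (nat_lit 70) (nat_lit 144) (@Lb.fm (nat_lit 3) t662))))))))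
noncomputable def l12997 : Lb := (@Lb.d (nat_lit 128) (nat_lit 16) (nat_lit 386) (@Lb.g g10 (@Lb.g g11 (@Lb.r r161 (@Lb.r r1448 (@Lb.r r1130 (@Lb.d (nat_lit 26) (nat_lit 70) (nat_lit 144) (@Lb.fm (nat_lit 3) t662))))))))
noncomputable def l12998 : Lb := (@Lb.d (nat_lit 128) (nat_lit 256) (nat_lit 130) (@Lb.g g10 (@Lb.g g11 (@Lb.r r264 (@Lb.r r279 (@Lb.r r161 (@Lb.r r98 (@Lb.d (nat_lit 98) (nat_lit 8) (nat_lit 168) (@Lb.fm (nat_lit 3) t97)))))))))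
noncomputable def l12999 : Lb := (@Lb.d (nat_lit 64) (nat_lit 544) (nat_lit 578) (@Lb.g g10 (@Lb.g g7 (@Lb.r r1304 (@Lb.r r2213 (@Lb.r r98 (@Lb.d (nat_lit 292) (nat_lit 134) (nat_lit 64) (@Lb.fp (nat_lit 3) t662))))))))
noncomputable def l13000 : Lb := (@Lb.d (nat_lit 0) (nat_lit 258) (nat_lit 2) (@Lb.g g9 (@Lb.g g10 (@Lb.g g7 (@Lb.r r386 (@Lb.r r2657 (@Lb.d (nat_lit 0) (nat_lit 89) (nat_lit 9) (@Lb.t (@Lb.fp (nat_lit 9) t2788)))))))))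
noncomputable def l13001 : Lb := (@Lb.g g10 (@Lb.g g7 (@Lb.r r402 (@Lb.d (nat_lit 0) (nat_lit 641) (nat_lit 594) (@Lb.fm (nat_lit 3) t44)))))
noncomputable def l13002 : Lb := (@Lb.d (nat_lit 0) (nat_lit 0) (nat_lit 66) (@Lb.g g10 (@Lb.g g7 (@Lb.r r386 (@Lb.d (nat_lit 0) (nat_lit 5) (nat_lit 74) (@Lb.fm (nat_lit 3) t45))))))
noncomputable def l13003 : Lb := (@Lb.d (nat_lit 0) (nat_lit 512) (nat_lit 273) (@Lb.r r1617 (@Lb.g g6 (@Lb.d (nat_lit 0) (nat_lit 0) (nat_lit 5) (@Lb.t (@Lb.fm (nat_lit 3) t99))))))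
noncomputable def l13004 : Lb := (@Lb.d (nat_lit 4) (nat_lit 585) (nat_lit 0) (@Lb.g g5 (@Lb.r r1158 (@Lb.r r2376 (@Lb.r r1543 (@Lb.d (nat_lit 0) (nat_lit 32) (nat_lit 5) (@Lb.t (@Lb.fp (nat_lit 3) t242))))))))
noncomputable def l13005 : Lb := (@Lb.d (nat_lit 0) (nat_lit 514) (nat_lit 128) (@Lb.g g8 (@Lb.g g9 (@Lb.g g10 (@Lb.g g11 (@Lb.r r1451 (@Lb.r r1169 (@Lb.r r356 (@Lb.r r154 (@Lb.r r2180 (@Lb.d (nat_lit 521) (nat_lit 73) (nat_lit 153) (@Lb.fm (nat_lit 9) t221))))))))))))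
noncomputable def l13006 : Lb := (@Lb.d (nat_lit 2) (nat_lit 2) (nat_lit 128) (@Lb.g g8 (@Lb.g g9 (@Lb.g g10 (@Lb.g g11 (@Lb.r r1451 (@Lb.r r1169 (@Lb.r r356 (@Lb.r r154 (@Lb.r r2180 (@Lb.d (nat_lit 521) (nat_lit 73) (nat_lit 153) (@Lb.fm (nat_lit 9) t221))))))))))))
noncomputable def l13007 : Lb := (@Lb.r r323 (@Lb.d (nat_lit 32) (nat_lit 293) (nat_lit 34) (@Lb.g g9 (@Lb.g g10 (@Lb.r r603 (@Lb.r r600 (@Lb.r r293 (@Lb.d (nat_lit 74) (nat_lit 130) (nat_lit 2) (@Lb.fp (nat_lit 3) t943)))))))))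
noncomputable def l13008 : Lb := (@Lb.d (nat_lit 4) (nat_lit 0) (nat_lit 130) (@Lb.g g8 (@Lb.g g9 (@Lb.g g10 (@Lb.g g11 (@Lb.r r162 (@Lb.r r660 (@Lb.r r425 (@Lb.r r279 (@Lb.r r548 (@Lb.d (nat_lit 2) (nat_lit 10) (nat_lit 73) (@Lb.fp (nat_lit 9) t242))))))))))))
noncomputable def l13009 : Lb := (@Lb.d (nat_lit 4) (nat_lit 261) (nat_lit 128) (@Lb.g g8 (@Lb.g g9 (@Lb.g g10 (@Lb.g g11 (@Lb.r r162 (@Lb.r r660 (@Lb.r r425 (@Lb.r r279 (@Lb.r r548 (@Lb.d (nat_lit 2) (nat_lit 10) (nat_lit 130) (@Lb.fp (nat_lit 9) t622))))))))))))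
noncomputable def l13010 : Lb := (@Lb.d (nat_lit 128) (nat_lit 256) (nat_lit 130) (@Lb.g g9 (@Lb.g g10 (@Lb.g g11 (@Lb.r r166 (@Lb.r r264 (@Lb.r r599 (@Lb.r r289 (@Lb.d (nat_lit 16) (nat_lit 42) (nat_lit 66) (@Lb.t (@Lb.fm (nat_lit 9) t1425)))))))))))
noncomputable def l13011 : Lb := (@Lb.d (nat_lit 554) (nat_lit 661) (nat_lit 405) (@Lb.r r21 (@Lb.r r579 (@Lb.r r1366 (@Lb.g g6 (@Lb.g g5 (@Lb.g g4 (@Lb.d (nat_lit 1) (nat_lit 6) (nat_lit 2) (@Lb.t (@Lb.fm (nat_lit 9) t730))))))))))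
noncomputable def l13012 : Lb := (@Lb.d (nat_lit 8) (nat_lit 144) (nat_lit 320) (@Lb.r r21 (@Lb.r r579 (@Lb.r r1366 (@Lb.g g7 (@Lb.g g6 (@Lb.g g5 (@Lb.g g4 (@Lb.d (nat_lit 1) (nat_lit 1) (nat_lit 65) (@Lb.fm (nat_lit 9) t40))))))))))
noncomputable def l13013 : Lb := (@Lb.d (nat_lit 8) (nat_lit 400) (nat_lit 389) (@Lb.r r21 (@Lb.r r579 (@Lb.r r1366 (@Lb.g g7 (@Lb.g g6 (@Lb.g g5 (@Lb.g g4 (@Lb.d (nat_lit 1) (nat_lit 1) (nat_lit 134) (@Lb.fm (nat_lit 9) t40))))))))))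
noncomputable def l13014 : Lb := (@Lb.r r323 (@Lb.d (nat_lit 164) (nat_lit 517) (nat_lit 34) (@Lb.g g8 (@Lb.g g9 (@Lb.g g10 (@Lb.r r1321 (@Lb.r r2455 (@Lb.r r1636 (@Lb.d (nat_lit 410) (nat_lit 154) (nat_lit 648) (@Lb.t (@Lb.fp (nat_lit 9) t2909)))))))))))
noncomputable def l13015 : Lb := (@Lb.d (nat_lit 2) (nat_lit 2) (nat_lit 73) (@Lb.g g8 (@Lb.g g9 (@Lb.g g10 (@Lb.g g11 (@Lb.r r427 (@Lb.r r420 (@Lb.r r102 (@Lb.r r97 (@Lb.r r36 (@Lb.d (nat_lit 4) (nat_lit 136) (nat_lit 137) (@Lb.fm (nat_lit 9) t51))))))))))))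
noncomputable def l13016 : Lb := (@Lb.d (nat_lit 32) (nat_lit 256) (nat_lit 1) (@Lb.g g10 (@Lb.r r328 (@Lb.r r407 (@Lb.r r609 (@Lb.d (nat_lit 0) (nat_lit 2) (nat_lit 84) (@Lb.t (@Lb.fp (nat_lit 3) t479))))))))
noncomputable def l13017 : Lb := (@Lb.d (nat_lit 6) (nat_lit 0) (nat_lit 73) (@Lb.g g8 (@Lb.g g9 (@Lb.g g10 (@Lb.g g11 (@Lb.r r427 (@Lb.r r420 (@Lb.r r102 (@Lb.r r97 (@Lb.r r36 (@Lb.d (nat_lit 4) (nat_lit 136) (nat_lit 137) (@Lb.fm (nat_lit 9) t51))))))))))))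
noncomputable def l13018 : Lb := (@Lb.d (nat_lit 102) (nat_lit 134) (nat_lit 149) (@Lb.r r597 (@Lb.r r427 (@Lb.r r2454 (@Lb.g g6 (@Lb.g g5 (@Lb.g g4 (@Lb.d (nat_lit 1) (nat_lit 8) (nat_lit 0) (@Lb.r r403 (@Lb.t (@Lb.fm (nat_lit 9) t647)))))))))))
noncomputable def l13019 : Lb := (@Lb.d (nat_lit 1) (nat_lit 16) (nat_lit 137) (@Lb.g g8 (@Lb.g g9 (@Lb.g g10 (@Lb.g g11 (@Lb.r r427 (@Lb.r r420 (@Lb.r r102 (@Lb.r r2149 (@Lb.r r132 (@Lb.d (nat_lit 33) (nat_lit 137) (nat_lit 152) (@Lb.fm (nat_lit 9) t1524))))))))))))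
noncomputable def l13020 : Lb := (@Lb.d (nat_lit 6) (nat_lit 608) (nat_lit 640) (@Lb.r r21 (@Lb.r r579 (@Lb.r r1366 (@Lb.g g7 (@Lb.g g6 (@Lb.g g5 (@Lb.g g4 (@Lb.d (nat_lit 1) (nat_lit 1) (nat_lit 1) (@Lb.fm (nat_lit 9) t42))))))))))
noncomputable def l13021 : Lb := (@Lb.d (nat_lit 2) (nat_lit 277) (nat_lit 153) (@Lb.g g8 (@Lb.g g9 (@Lb.g g6 (@Lb.g g11 (@Lb.r r1411 (@Lb.r r1697 (@Lb.r r24 (@Lb.d (nat_lit 10) (nat_lit 149) (nat_lit 644) (@Lb.fm (nat_lit 9) t42))))))))))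
noncomputable def l13022 : Lb := (@Lb.d (nat_lit 128) (nat_lit 514) (nat_lit 73) (@Lb.g g8 (@Lb.g g9 (@Lb.g g10 (@Lb.g g11 (@Lb.r r1639 (@Lb.r r344 (@Lb.r r357 (@Lb.r r154 (@Lb.r r132 (@Lb.d (nat_lit 640) (nat_lit 102) (nat_lit 72) (@Lb.fp (nat_lit 9) t1152))))))))))))
noncomputable def l13023 : Lb := (@Lb.r r21 (@Lb.d (nat_lit 0) (nat_lit 520) (nat_lit 130) (@Lb.g g8 (@Lb.g g10 (@Lb.g g11 (@Lb.r r411 (@Lb.r r408 (@Lb.r r101 (@Lb.r r602 (@Lb.d (nat_lit 105) (nat_lit 33) (nat_lit 137) (@Lb.t (@Lb.fm (nat_lit 9) t51))))))))))))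
noncomputable def l13024 : Lb := (@Lb.r r82 (@Lb.d (nat_lit 25) (nat_lit 2) (nat_lit 128) (@Lb.g g8 (@Lb.g g9 (@Lb.g g11 (@Lb.r r582 (@Lb.r r611 (@Lb.r r661 (@Lb.r r168 (@Lb.d (nat_lit 73) (nat_lit 18) (nat_lit 8) (@Lb.t (@Lb.fm (nat_lit 9) t98))))))))))))
noncomputable def l13025 : Lb := (@Lb.d (nat_lit 2) (nat_lit 258) (nat_lit 130) (@Lb.g g8 (@Lb.g g9 (@Lb.g g10 (@Lb.g g11 (@Lb.r r553 (@Lb.r r299 (@Lb.r r388 (@Lb.r r70 (@Lb.r r132 (@Lb.d (nat_lit 514) (nat_lit 10) (nat_lit 89) (@Lb.fm (nat_lit 9) t126))))))))))))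
noncomputable def l13026 : Lb := (@Lb.g g4 (@Lb.g g7 (@Lb.r r101 (@Lb.r r402 (@Lb.d (nat_lit 96) (nat_lit 261) (nat_lit 64) (@Lb.fm (nat_lit 3) t311))))))
noncomputable def l13027 : Lb := (@Lb.d (nat_lit 5) (nat_lit 18) (nat_lit 10) (@Lb.r r657 (@Lb.r r666 (@Lb.r r420 (@Lb.r r347 (@Lb.g g7 (@Lb.g g6 (@Lb.g g5 (@Lb.d (nat_lit 8) (nat_lit 8) (nat_lit 64) (@Lb.t (@Lb.fm (nat_lit 9) t151)))))))))))
noncomputable def l13028 : Lb := (@Lb.d (nat_lit 6) (nat_lit 274) (nat_lit 10) (@Lb.r r657 (@Lb.r r666 (@Lb.r r420 (@Lb.r r347 (@Lb.g g7 (@Lb.g g6 (@Lb.g g5 (@Lb.d (nat_lit 8) (nat_lit 8) (nat_lit 133) (@Lb.t (@Lb.fm (nat_lit 9) t151)))))))))))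
noncomputable def l13029 : Lb := (@Lb.r r612 (@Lb.r r359 (@Lb.r r2178 (@Lb.r r405 (@Lb.r r2596 (@Lb.d (nat_lit 610) (nat_lit 266) (nat_lit 514) (@Lb.fm (nat_lit 1) t1561)))))))
noncomputable def l13030 : Lb := (@Lb.d (nat_lit 137) (nat_lit 9) (nat_lit 0) (@Lb.g g8 (@Lb.g g9 (@Lb.r r599 (@Lb.r r594 (@Lb.r r417 (@Lb.r r104 (@Lb.d (nat_lit 33) (nat_lit 2) (nat_lit 137) (@Lb.fp (nat_lit 3) t119)))))))))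
noncomputable def l13031 : Lb := (@Lb.d (nat_lit 32) (nat_lit 520) (nat_lit 2) (@Lb.g g10 (@Lb.r r1380 (@Lb.r r2715 (@Lb.r r357 (@Lb.r r666 (@Lb.d (nat_lit 74) (nat_lit 105) (nat_lit 165) (@Lb.t (@Lb.fm (nat_lit 3) t127)))))))))
noncomputable def l13032 : Lb := (@Lb.d (nat_lit 145) (nat_lit 512) (nat_lit 6) (@Lb.r r24 (@Lb.r r101 (@Lb.r r386 (@Lb.r r339 (@Lb.g g7 (@Lb.g g6 (@Lb.g g4 (@Lb.d (nat_lit 0) (nat_lit 0) (nat_lit 65) (@Lb.t (@Lb.fm (nat_lit 9) t50)))))))))))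
noncomputable def l13033 : Lb := (@Lb.d (nat_lit 138) (nat_lit 256) (nat_lit 0) (@Lb.g g8 (@Lb.r r2727 (@Lb.r r2178 (@Lb.r r1621 (@Lb.r r1380 (@Lb.d (nat_lit 346) (nat_lit 165) (nat_lit 392) (@Lb.t (@Lb.fp (nat_lit 3) t2910)))))))))
noncomputable def l13034 : Lb := (@Lb.r r323 (@Lb.d (nat_lit 2) (nat_lit 516) (nat_lit 0) (@Lb.g g8 (@Lb.g g9 (@Lb.g g10 (@Lb.r r401 (@Lb.r r299 (@Lb.r r392 (@Lb.r r74 (@Lb.d (nat_lit 33) (nat_lit 10) (nat_lit 138) (@Lb.t (@Lb.fp (nat_lit 9) t601))))))))))))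
noncomputable def l13035 : Lb := (@Lb.r r323 (@Lb.d (nat_lit 1) (nat_lit 4) (nat_lit 0) (@Lb.g g8 (@Lb.g g9 (@Lb.g g10 (@Lb.r r401 (@Lb.r r299 (@Lb.r r392 (@Lb.r r74 (@Lb.d (nat_lit 33) (nat_lit 10) (nat_lit 138) (@Lb.t (@Lb.fp (nat_lit 9) t601))))))))))))
noncomputable def l13036 : Lb := (@Lb.g g7 (@Lb.r r402 (@Lb.r r101 (@Lb.r r24 (@Lb.d (nat_lit 256) (nat_lit 512) (nat_lit 581) (@Lb.t (@Lb.fp (nat_lit 3) t312)))))))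
noncomputable def l13037 : Lb := (@Lb.d (nat_lit 2) (nat_lit 258) (nat_lit 130) (@Lb.g g8 (@Lb.g g9 (@Lb.g g10 (@Lb.g g11 (@Lb.r r427 (@Lb.r r388 (@Lb.r r70 (@Lb.r r153 (@Lb.r r132 (@Lb.d (nat_lit 4) (nat_lit 2) (nat_lit 137) (@Lb.fp (nat_lit 9) t714))))))))))))
noncomputable def l13038 : Lb := (@Lb.r r82 (@Lb.d (nat_lit 2) (nat_lit 545) (nat_lit 64) (@Lb.g g8 (@Lb.g g9 (@Lb.g g11 (@Lb.r r299 (@Lb.r r360 (@Lb.r r150 (@Lb.r r169 (@Lb.d (nat_lit 33) (nat_lit 9) (nat_lit 137) (@Lb.t (@Lb.fp (nat_lit 9) t594))))))))))))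
noncomputable def l13039 : Lb := (@Lb.r r82 (@Lb.d (nat_lit 32) (nat_lit 258) (nat_lit 128) (@Lb.g g8 (@Lb.g g9 (@Lb.g g11 (@Lb.r r363 (@Lb.r r582 (@Lb.r r408 (@Lb.d (nat_lit 150) (nat_lit 22) (nat_lit 153) (@Lb.t (@Lb.fp (nat_lit 9) t699)))))))))))
noncomputable def l13040 : Lb := (@Lb.d (nat_lit 0) (nat_lit 514) (nat_lit 9) (@Lb.g g8 (@Lb.g g9 (@Lb.g g10 (@Lb.g g7 (@Lb.r r386 (@Lb.r r97 (@Lb.d (nat_lit 2) (nat_lit 138) (nat_lit 9) (@Lb.fm (nat_lit 9) t126)))))))))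
noncomputable def l13041 : Lb := (@Lb.d (nat_lit 0) (nat_lit 290) (nat_lit 1) (@Lb.g g8 (@Lb.g g9 (@Lb.g g10 (@Lb.r r2315 (@Lb.r r424 (@Lb.r r106 (@Lb.r r2137 (@Lb.d (nat_lit 41) (nat_lit 69) (nat_lit 168) (@Lb.t (@Lb.fp (nat_lit 9) t1456)))))))))))
noncomputable def l13042 : Lb := (@Lb.r r81 (@Lb.d (nat_lit 145) (nat_lit 264) (nat_lit 1) (@Lb.g g8 (@Lb.g g6 (@Lb.r r423 (@Lb.r r2469 (@Lb.r r1624 (@Lb.d (nat_lit 329) (nat_lit 102) (nat_lit 529) (@Lb.fp (nat_lit 3) t428)))))))))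
noncomputable def l13043 : Lb := (@Lb.g g9 (@Lb.g g6 (@Lb.r r2579 (@Lb.r r2341 (@Lb.r r1620 (@Lb.r r2442 (@Lb.d (nat_lit 322) (nat_lit 5) (nat_lit 1) (@Lb.fm (nat_lit 3) t2911))))))))
noncomputable def l13044 : Lb := (@Lb.d (nat_lit 0) (nat_lit 258) (nat_lit 130) (@Lb.g g8 (@Lb.g g9 (@Lb.g g10 (@Lb.g g11 (@Lb.r r1419 (@Lb.r r340 (@Lb.r r170 (@Lb.r r2217 (@Lb.r r2212 (@Lb.d (nat_lit 513) (nat_lit 73) (nat_lit 153) (@Lb.fp (nat_lit 9) t386))))))))))))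
noncomputable def l13045 : Lb := (@Lb.d (nat_lit 0) (nat_lit 514) (nat_lit 130) (@Lb.g g8 (@Lb.g g9 (@Lb.g g10 (@Lb.g g11 (@Lb.r r427 (@Lb.r r420 (@Lb.r r1094 (@Lb.r r145 (@Lb.r r36 (@Lb.d (nat_lit 280) (nat_lit 38) (nat_lit 657) (@Lb.fp (nat_lit 9) t1195))))))))))))
noncomputable def l13046 : Lb := (@Lb.d (nat_lit 1) (nat_lit 0) (nat_lit 0) (@Lb.g g8 (@Lb.d (nat_lit 2) (nat_lit 134) (nat_lit 32) (@Lb.t (@Lb.fp (nat_lit 3) t45)))))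
noncomputable def l13047 : Lb := (@Lb.d (nat_lit 154) (nat_lit 258) (nat_lit 130) (@Lb.g g8 (@Lb.g g9 (@Lb.g g10 (@Lb.g g11 (@Lb.r r1707 (@Lb.r r362 (@Lb.r r537 (@Lb.r r1540 (@Lb.d (nat_lit 649) (nat_lit 153) (nat_lit 293) (@Lb.fm (nat_lit 9) t531)))))))))))
noncomputable def l13048 : Lb := (@Lb.d (nat_lit 282) (nat_lit 640) (nat_lit 16) (@Lb.fp (nat_lit 1) t962))
noncomputable def l13049 : Lb := (@Lb.d (nat_lit 9) (nat_lit 389) (nat_lit 32) (@Lb.fp (nat_lit 1) t45))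
noncomputable def l13050 : Lb := (@Lb.d (nat_lit 2) (nat_lit 134) (nat_lit 32) (@Lb.g g4 (@Lb.t (@Lb.fm (nat_lit 3) t45))))
noncomputable def l13051 : Lb := (@Lb.d (nat_lit 1) (nat_lit 646) (nat_lit 160) (@Lb.g g8 (@Lb.g g5 (@Lb.g g10 (@Lb.g g11 (@Lb.r r387 (@Lb.r r24 (@Lb.d (nat_lit 10) (nat_lit 0) (nat_lit 137) (@Lb.fp (nat_lit 9) t68)))))))))
noncomputable def l13052 : Lb := (@Lb.d (nat_lit 2) (nat_lit 618) (nat_lit 582) (@Lb.r r2196 (@Lb.r r2403 (@Lb.r r594 (@Lb.r r2449 (@Lb.g g7 (@Lb.d (nat_lit 0) (nat_lit 0) (nat_lit 68) (@Lb.t (@Lb.fm (nat_lit 3) t1401)))))))))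
noncomputable def l13053 : Lb := (@Lb.r r1427 (@Lb.r r101 (@Lb.r r24 (@Lb.d (nat_lit 536) (nat_lit 514) (nat_lit 0) (@Lb.fp (nat_lit 1) t277)))))
noncomputable def l13054 : Lb := (@Lb.d (nat_lit 8) (nat_lit 2) (nat_lit 73) (@Lb.g g8 (@Lb.g g9 (@Lb.g g10 (@Lb.g g11 (@Lb.r r2691 (@Lb.r r2345 (@Lb.r r360 (@Lb.r r582 (@Lb.r r2180 (@Lb.d (nat_lit 640) (nat_lit 10) (nat_lit 89) (@Lb.fm (nat_lit 9) t242))))))))))))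
noncomputable def l13055 : Lb := (@Lb.d (nat_lit 152) (nat_lit 258) (nat_lit 4) (@Lb.g g8 (@Lb.g g9 (@Lb.g g10 (@Lb.g g11 (@Lb.r r1707 (@Lb.r r1642 (@Lb.r r537 (@Lb.r r1540 (@Lb.d (nat_lit 649) (nat_lit 73) (nat_lit 657) (@Lb.fm (nat_lit 9) t199)))))))))))
noncomputable def l13056 : Lb := (@Lb.d (nat_lit 0) (nat_lit 0) (nat_lit 130) (@Lb.g g9 (@Lb.g g10 (@Lb.g g11 (@Lb.r r614 (@Lb.r r404 (@Lb.r r619 (@Lb.r r609 (@Lb.d (nat_lit 9) (nat_lit 146) (nat_lit 0) (@Lb.t (@Lb.fm (nat_lit 9) t71)))))))))))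
noncomputable def l13057 : Lb := (@Lb.d (nat_lit 0) (nat_lit 2) (nat_lit 130) (@Lb.g g8 (@Lb.g g9 (@Lb.g g10 (@Lb.g g11 (@Lb.r r610 (@Lb.r r404 (@Lb.r r619 (@Lb.r r97 (@Lb.r r516 (@Lb.d (nat_lit 9) (nat_lit 137) (nat_lit 129) (@Lb.fp (nat_lit 9) t44))))))))))))
noncomputable def l13058 : Lb := (@Lb.d (nat_lit 2) (nat_lit 9) (nat_lit 72) (@Lb.g g8 (@Lb.g g9 (@Lb.g g10 (@Lb.g g11 (@Lb.r r427 (@Lb.r r424 (@Lb.r r106 (@Lb.r r97 (@Lb.d (nat_lit 9) (nat_lit 9) (nat_lit 137) (@Lb.fp (nat_lit 9) t594)))))))))))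
noncomputable def l13059 : Lb := (@Lb.d (nat_lit 10) (nat_lit 0) (nat_lit 64) (@Lb.g g8 (@Lb.g g11 (@Lb.r r130 (@Lb.r r149 (@Lb.r r36 (@Lb.d (nat_lit 9) (nat_lit 9) (nat_lit 82) (@Lb.fp (nat_lit 3) t319))))))))
noncomputable def l13060 : Lb := (@Lb.d (nat_lit 1) (nat_lit 258) (nat_lit 73) (@Lb.g g8 (@Lb.g g9 (@Lb.g g10 (@Lb.g g11 (@Lb.r r2691 (@Lb.r r293 (@Lb.r r660 (@Lb.r r582 (@Lb.r r2180 (@Lb.d (nat_lit 162) (nat_lit 5) (nat_lit 362) (@Lb.fp (nat_lit 9) t1013))))))))))))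
noncomputable def l13061 : Lb := (@Lb.r r82 (@Lb.d (nat_lit 2) (nat_lit 33) (nat_lit 64) (@Lb.g g8 (@Lb.g g9 (@Lb.g g11 (@Lb.r r299 (@Lb.r r360 (@Lb.r r150 (@Lb.r r169 (@Lb.d (nat_lit 32) (nat_lit 9) (nat_lit 137) (@Lb.t (@Lb.fp (nat_lit 9) t594))))))))))))
noncomputable def l13062 : Lb := (@Lb.d (nat_lit 0) (nat_lit 289) (nat_lit 0) (@Lb.g g9 (@Lb.r r339 (@Lb.r r2658 (@Lb.r r609 (@Lb.d (nat_lit 0) (nat_lit 41) (nat_lit 650) (@Lb.t (@Lb.fm (nat_lit 3) t1497))))))))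
noncomputable def l13063 : Lb := (@Lb.d (nat_lit 8) (nat_lit 522) (nat_lit 0) (@Lb.g g8 (@Lb.g g9 (@Lb.r r134 (@Lb.r r328 (@Lb.r r1623 (@Lb.r r2465 (@Lb.d (nat_lit 0) (nat_lit 66) (nat_lit 665) (@Lb.fm (nat_lit 3) t119)))))))))
noncomputable def l13064 : Lb := (@Lb.g g4 (@Lb.g g9 (@Lb.r r134 (@Lb.r r328 (@Lb.r r535 (@Lb.r r289 (@Lb.d (nat_lit 0) (nat_lit 5) (nat_lit 129) (@Lb.fp (nat_lit 3) t119))))))))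
noncomputable def l13065 : Lb := (@Lb.d (nat_lit 522) (nat_lit 41) (nat_lit 361) (@Lb.r r1681 (@Lb.r r2178 (@Lb.r r2715 (@Lb.r r536 (@Lb.g g5 (@Lb.d (nat_lit 4) (nat_lit 17) (nat_lit 0) (@Lb.t (@Lb.fp (nat_lit 3) t596)))))))))
noncomputable def l13066 : Lb := (@Lb.d (nat_lit 288) (nat_lit 98) (nat_lit 346) (@Lb.r r1681 (@Lb.r r2178 (@Lb.r r2715 (@Lb.r r536 (@Lb.g g5 (@Lb.d (nat_lit 4) (nat_lit 17) (nat_lit 0) (@Lb.t (@Lb.fp (nat_lit 3) t2169)))))))))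
noncomputable def l13067 : Lb := (@Lb.d (nat_lit 128) (nat_lit 266) (nat_lit 68) (@Lb.r r390 (@Lb.r r72 (@Lb.r r279 (@Lb.r r545 (@Lb.g g7 (@Lb.g g6 (@Lb.g g5 (@Lb.d (nat_lit 16) (nat_lit 0) (nat_lit 65) (@Lb.t (@Lb.fm (nat_lit 9) t422)))))))))))
noncomputable def l13068 : Lb := (@Lb.d (nat_lit 2) (nat_lit 260) (nat_lit 0) (@Lb.g g8 (@Lb.g g9 (@Lb.g g10 (@Lb.g g11 (@Lb.r r1699 (@Lb.r r2705 (@Lb.r r612 (@Lb.r r666 (@Lb.r r1156 (@Lb.d (nat_lit 330) (nat_lit 33) (nat_lit 74) (@Lb.fp (nat_lit 9) t1278))))))))))))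
noncomputable def l13069 : Lb := (@Lb.r r323 (@Lb.d (nat_lit 0) (nat_lit 522) (nat_lit 0) (@Lb.g g9 (@Lb.g g10 (@Lb.r r2339 (@Lb.r r162 (@Lb.d (nat_lit 0) (nat_lit 73) (nat_lit 2) (@Lb.fp (nat_lit 3) t233))))))))
noncomputable def l13070 : Lb := (@Lb.d (nat_lit 0) (nat_lit 512) (nat_lit 128) (@Lb.g g9 (@Lb.g g11 (@Lb.r r338 (@Lb.r r387 (@Lb.r r2577 (@Lb.d (nat_lit 0) (nat_lit 69) (nat_lit 426) (@Lb.fm (nat_lit 3) t2912))))))))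
noncomputable def l13071 : Lb := (@Lb.d (nat_lit 0) (nat_lit 258) (nat_lit 128) (@Lb.g g9 (@Lb.g g11 (@Lb.r r1299 (@Lb.r r1634 (@Lb.r r2657 (@Lb.d (nat_lit 0) (nat_lit 68) (nat_lit 390) (@Lb.fp (nat_lit 3) t2913))))))))
noncomputable def l13072 : Lb := (@Lb.d (nat_lit 2) (nat_lit 25) (nat_lit 73) (@Lb.g g8 (@Lb.g g9 (@Lb.g g10 (@Lb.g g11 (@Lb.r r2691 (@Lb.r r2705 (@Lb.r r148 (@Lb.r r598 (@Lb.r r1156 (@Lb.d (nat_lit 393) (nat_lit 33) (nat_lit 330) (@Lb.fm (nat_lit 9) t2914))))))))))))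
noncomputable def l13073 : Lb := (@Lb.d (nat_lit 2) (nat_lit 512) (nat_lit 130) (@Lb.g g8 (@Lb.g g9 (@Lb.g g10 (@Lb.g g11 (@Lb.r r1419 (@Lb.r r1098 (@Lb.r r2577 (@Lb.d (nat_lit 289) (nat_lit 0) (nat_lit 409) (@Lb.fp (nat_lit 9) t2915))))))))))
noncomputable def l13074 : Lb := (@Lb.d (nat_lit 657) (nat_lit 385) (nat_lit 385) (@Lb.r r289 (@Lb.r r70 (@Lb.r r420 (@Lb.r r347 (@Lb.g g7 (@Lb.g g6 (@Lb.d (nat_lit 16) (nat_lit 0) (nat_lit 129) (@Lb.fp (nat_lit 3) t2916)))))))))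
noncomputable def l13075 : Lb := (@Lb.d (nat_lit 33) (nat_lit 256) (nat_lit 64) (@Lb.g g8 (@Lb.g g11 (@Lb.r r1158 (@Lb.r r1057 (@Lb.r r100 (@Lb.d (nat_lit 26) (nat_lit 128) (nat_lit 98) (@Lb.fm (nat_lit 3) t1222))))))))
noncomputable def l13076 : Lb := (@Lb.g g7 (@Lb.r r1321 (@Lb.r r1444 (@Lb.r r2651 (@Lb.r r134 (@Lb.d (nat_lit 0) (nat_lit 80) (nat_lit 8) (@Lb.t (@Lb.fp (nat_lit 3) t2917))))))))
noncomputable def l13077 : Lb := (@Lb.d (nat_lit 0) (nat_lit 512) (nat_lit 2) (@Lb.g g9 (@Lb.g g10 (@Lb.r r1703 (@Lb.r r2392 (@Lb.r r1190 (@Lb.r r1169 (@Lb.d (nat_lit 9) (nat_lit 73) (nat_lit 34) (@Lb.fp (nat_lit 3) t51)))))))))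
noncomputable def l13078 : Lb := (@Lb.d (nat_lit 0) (nat_lit 0) (nat_lit 130) (@Lb.g g9 (@Lb.g g10 (@Lb.g g11 (@Lb.r r1703 (@Lb.r r2392 (@Lb.r r1190 (@Lb.r r1169 (@Lb.d (nat_lit 10) (nat_lit 73) (nat_lit 34) (@Lb.t (@Lb.fp (nat_lit 9) t51)))))))))))
noncomputable def l13079 : Lb := (@Lb.d (nat_lit 2) (nat_lit 33) (nat_lit 4) (@Lb.g g8 (@Lb.g g9 (@Lb.g g10 (@Lb.g g11 (@Lb.r r1706 (@Lb.r r676 (@Lb.r r551 (@Lb.r r533 (@Lb.r r1060 (@Lb.d (nat_lit 386) (nat_lit 2) (nat_lit 586) (@Lb.fp (nat_lit 9) t74))))))))))))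
noncomputable def l13080 : Lb := (@Lb.d (nat_lit 0) (nat_lit 98) (nat_lit 5) (@Lb.r r609 (@Lb.r r363 (@Lb.r r356 (@Lb.r r154 (@Lb.g g8 (@Lb.t (@Lb.fp (nat_lit 3) t167))))))))
noncomputable def l13081 : Lb := (@Lb.d (nat_lit 2) (nat_lit 0) (nat_lit 0) (@Lb.g g8 (@Lb.r r273 (@Lb.r r555 (@Lb.r r680 (@Lb.r r170 (@Lb.r r153 (@Lb.d (nat_lit 0) (nat_lit 128) (nat_lit 137) (@Lb.t (@Lb.fm (nat_lit 3) t2))))))))))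
noncomputable def l13082 : Lb := (@Lb.d (nat_lit 0) (nat_lit 528) (nat_lit 10) (@Lb.r r1543 (@Lb.r r2376 (@Lb.r r1158 (@Lb.g g9 (@Lb.d (nat_lit 8) (nat_lit 134) (nat_lit 0) (@Lb.t (@Lb.fm (nat_lit 3) t669))))))))
noncomputable def l13083 : Lb := (@Lb.d (nat_lit 0) (nat_lit 26) (nat_lit 0) (@Lb.g g9 (@Lb.r r1543 (@Lb.r r2376 (@Lb.r r1158 (@Lb.d (nat_lit 297) (nat_lit 134) (nat_lit 0) (@Lb.t (@Lb.fm (nat_lit 3) t1503))))))))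
noncomputable def l13084 : Lb := (@Lb.g g9 (@Lb.r r1543 (@Lb.r r2376 (@Lb.r r1158 (@Lb.r r1169 (@Lb.t (@Lb.p (nat_lit 1) (@Lb.fm (nat_lit 3) t296))))))))
noncomputable def l13085 : Lb := (@Lb.d (nat_lit 128) (nat_lit 512) (nat_lit 644) (@Lb.g g9 (@Lb.g g11 (@Lb.r r2376 (@Lb.r r1158 (@Lb.r r1169 (@Lb.d (nat_lit 536) (nat_lit 2) (nat_lit 128) (@Lb.fm (nat_lit 3) t669))))))))
noncomputable def l13086 : Lb := (@Lb.d (nat_lit 0) (nat_lit 272) (nat_lit 64) (@Lb.r r1543 (@Lb.r r2376 (@Lb.r r1158 (@Lb.g g9 (@Lb.d (nat_lit 8) (nat_lit 134) (nat_lit 0) (@Lb.t (@Lb.fm (nat_lit 3) t669))))))))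
noncomputable def l13087 : Lb := (@Lb.r r82 (@Lb.d (nat_lit 2) (nat_lit 2) (nat_lit 128) (@Lb.g g8 (@Lb.g g9 (@Lb.g g11 (@Lb.r r299 (@Lb.r r296 (@Lb.r r89 (@Lb.r r98 (@Lb.d (nat_lit 21) (nat_lit 1) (nat_lit 1) (@Lb.t (@Lb.fp (nat_lit 9) t594))))))))))))
noncomputable def l13088 : Lb := (@Lb.d (nat_lit 134) (nat_lit 256) (nat_lit 68) (@Lb.r r584 (@Lb.r r82 (@Lb.r r347 (@Lb.g g9 (@Lb.g g4 (@Lb.d (nat_lit 65) (nat_lit 22) (nat_lit 0) (@Lb.r r98 (@Lb.fm (nat_lit 3) t1356)))))))))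
noncomputable def l13089 : Lb := (@Lb.d (nat_lit 518) (nat_lit 594) (nat_lit 64) (@Lb.r r2145 (@Lb.r r2198 (@Lb.r r2372 (@Lb.r r1675 (@Lb.g g7 (@Lb.g g6 (@Lb.g g4 (@Lb.d (nat_lit 32) (nat_lit 0) (nat_lit 64) (@Lb.t (@Lb.fm (nat_lit 9) t1613)))))))))))
noncomputable def l13090 : Lb := (@Lb.d (nat_lit 138) (nat_lit 32) (nat_lit 384) (@Lb.r r2085 (@Lb.r r1112 (@Lb.r r2379 (@Lb.r r2726 (@Lb.g g7 (@Lb.g g6 (@Lb.g g5 (@Lb.d (nat_lit 0) (nat_lit 24) (nat_lit 64) (@Lb.t (@Lb.fm (nat_lit 9) t2834)))))))))))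
noncomputable def l13091 : Lb := (@Lb.r r82 (@Lb.r r275 (@Lb.d (nat_lit 32) (nat_lit 642) (nat_lit 0) (@Lb.g g8 (@Lb.g g9 (@Lb.r r2579 (@Lb.r r150 (@Lb.r r100 (@Lb.d (nat_lit 26) (nat_lit 72) (nat_lit 2) (@Lb.fm (nat_lit 3) t634))))))))))
noncomputable def l13092 : Lb := (@Lb.d (nat_lit 0) (nat_lit 70) (nat_lit 518) (@Lb.r r673 (@Lb.r r362 (@Lb.r r84 (@Lb.g g11 (@Lb.g g9 (@Lb.d (nat_lit 4) (nat_lit 1) (nat_lit 0) (@Lb.fp (nat_lit 3) t1976))))))))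
noncomputable def l13093 : Lb := (@Lb.d (nat_lit 0) (nat_lit 512) (nat_lit 2) (@Lb.g g9 (@Lb.g g10 (@Lb.g g7 (@Lb.r r386 (@Lb.r r101 (@Lb.r r24 (@Lb.d (nat_lit 352) (nat_lit 0) (nat_lit 521) (@Lb.t (@Lb.fm (nat_lit 9) t1150))))))))))
noncomputable def l13094 : Lb := (@Lb.r r82 (@Lb.r r275 (@Lb.d (nat_lit 2) (nat_lit 512) (nat_lit 0) (@Lb.g g8 (@Lb.g g9 (@Lb.r r299 (@Lb.r r106 (@Lb.r r25 (@Lb.d (nat_lit 9) (nat_lit 133) (nat_lit 32) (@Lb.fm (nat_lit 3) t7))))))))))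
noncomputable def l13095 : Lb := (@Lb.d (nat_lit 6) (nat_lit 0) (nat_lit 130) (@Lb.g g8 (@Lb.g g9 (@Lb.g g10 (@Lb.g g11 (@Lb.r r1706 (@Lb.r r648 (@Lb.r r1563 (@Lb.r r2337 (@Lb.r r36 (@Lb.d (nat_lit 640) (nat_lit 105) (nat_lit 66) (@Lb.fp (nat_lit 9) t242))))))))))))
noncomputable def l13096 : Lb := (@Lb.r r2196 (@Lb.d (nat_lit 0) (nat_lit 384) (nat_lit 16) (@Lb.fp (nat_lit 1) t2918)))
noncomputable def l13097 : Lb := (@Lb.r r82 (@Lb.d (nat_lit 5) (nat_lit 290) (nat_lit 64) (@Lb.g g4 (@Lb.g g9 (@Lb.g g11 (@Lb.r r1639 (@Lb.r r2450 (@Lb.r r1625 (@Lb.d (nat_lit 132) (nat_lit 166) (nat_lit 664) (@Lb.t (@Lb.fp (nat_lit 9) t218)))))))))))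
noncomputable def l13098 : Lb := (@Lb.d (nat_lit 41) (nat_lit 392) (nat_lit 36) (@Lb.r r21 (@Lb.r r104 (@Lb.r r386 (@Lb.g g11 (@Lb.g g6 (@Lb.g g5 (@Lb.d (nat_lit 0) (nat_lit 1) (nat_lit 129) (@Lb.t (@Lb.fm (nat_lit 9) t74))))))))))
noncomputable def l13099 : Lb := (@Lb.d (nat_lit 550) (nat_lit 260) (nat_lit 128) (@Lb.g g8 (@Lb.g g9 (@Lb.g g10 (@Lb.g g11 (@Lb.r r1411 (@Lb.r r1177 (@Lb.r r1426 (@Lb.d (nat_lit 97) (nat_lit 85) (nat_lit 324) (@Lb.fm (nat_lit 9) t1244))))))))))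
noncomputable def l13100 : Lb := (@Lb.d (nat_lit 32) (nat_lit 0) (nat_lit 130) (@Lb.g g9 (@Lb.g g10 (@Lb.g g11 (@Lb.r r545 (@Lb.r r299 (@Lb.r r72 (@Lb.r r390 (@Lb.d (nat_lit 64) (nat_lit 5) (nat_lit 136) (@Lb.t (@Lb.fp (nat_lit 9) t285)))))))))))
noncomputable def l13101 : Lb := (@Lb.d (nat_lit 2) (nat_lit 514) (nat_lit 130) (@Lb.g g8 (@Lb.g g9 (@Lb.g g10 (@Lb.g g11 (@Lb.r r427 (@Lb.r r420 (@Lb.r r102 (@Lb.r r97 (@Lb.r r36 (@Lb.d (nat_lit 9) (nat_lit 130) (nat_lit 18) (@Lb.fm (nat_lit 9) t356))))))))))))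
noncomputable def l13102 : Lb := (@Lb.d (nat_lit 2) (nat_lit 514) (nat_lit 130) (@Lb.g g8 (@Lb.g g9 (@Lb.g g10 (@Lb.g g11 (@Lb.r r610 (@Lb.r r404 (@Lb.r r619 (@Lb.r r97 (@Lb.r r516 (@Lb.d (nat_lit 9) (nat_lit 130) (nat_lit 2) (@Lb.fp (nat_lit 9) t44))))))))))))
noncomputable def l13103 : Lb := (@Lb.d (nat_lit 2) (nat_lit 520) (nat_lit 130) (@Lb.g g8 (@Lb.g g10 (@Lb.g g11 (@Lb.r r2699 (@Lb.r r2601 (@Lb.r r2724 (@Lb.r r134 (@Lb.d (nat_lit 41) (nat_lit 146) (nat_lit 297) (@Lb.t (@Lb.fp (nat_lit 9) t2919)))))))))))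
noncomputable def l13104 : Lb := (@Lb.r r82 (@Lb.d (nat_lit 642) (nat_lit 514) (nat_lit 128) (@Lb.g g8 (@Lb.g g9 (@Lb.g g11 (@Lb.r r1323 (@Lb.r r89 (@Lb.r r98 (@Lb.d (nat_lit 38) (nat_lit 8) (nat_lit 424) (@Lb.t (@Lb.fm (nat_lit 9) t442)))))))))))
noncomputable def l13105 : Lb := (@Lb.d (nat_lit 2) (nat_lit 258) (nat_lit 132) (@Lb.g g8 (@Lb.g g9 (@Lb.g g10 (@Lb.g g7 (@Lb.r r2410 (@Lb.r r100 (@Lb.r r21 (@Lb.r r36 (@Lb.d (nat_lit 393) (nat_lit 82) (nat_lit 610) (@Lb.fm (nat_lit 9) t1018)))))))))))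
noncomputable def l13106 : Lb := (@Lb.d (nat_lit 0) (nat_lit 258) (nat_lit 4) (@Lb.g g9 (@Lb.g g10 (@Lb.g g11 (@Lb.r r2453 (@Lb.r r1636 (@Lb.r r1383 (@Lb.r r1450 (@Lb.d (nat_lit 661) (nat_lit 6) (nat_lit 298) (@Lb.t (@Lb.fp (nat_lit 9) t2920)))))))))))
noncomputable def l13107 : Lb := (@Lb.d (nat_lit 32) (nat_lit 514) (nat_lit 73) (@Lb.g g9 (@Lb.g g10 (@Lb.g g11 (@Lb.r r2709 (@Lb.r r1380 (@Lb.r r2715 (@Lb.r r2634 (@Lb.d (nat_lit 353) (nat_lit 5) (nat_lit 256) (@Lb.t (@Lb.fp (nat_lit 9) t564)))))))))))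
noncomputable def l13108 : Lb := (@Lb.d (nat_lit 2) (nat_lit 2) (nat_lit 73) (@Lb.g g8 (@Lb.g g9 (@Lb.g g10 (@Lb.g g11 (@Lb.r r358 (@Lb.r r404 (@Lb.r r1433 (@Lb.r r2343 (@Lb.r r1540 (@Lb.d (nat_lit 266) (nat_lit 106) (nat_lit 585) (@Lb.fp (nat_lit 9) t2921))))))))))))
noncomputable def l13109 : Lb := (@Lb.r r21 (@Lb.r r70 (@Lb.d (nat_lit 658) (nat_lit 512) (nat_lit 136) (@Lb.g g8 (@Lb.g g11 (@Lb.r r74 (@Lb.r r25 (@Lb.d (nat_lit 290) (nat_lit 0) (nat_lit 2) (@Lb.fm (nat_lit 3) t164)))))))))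
noncomputable def l13110 : Lb := (@Lb.d (nat_lit 34) (nat_lit 513) (nat_lit 98) (@Lb.r r70 (@Lb.r r392 (@Lb.r r599 (@Lb.g g6 (@Lb.g g5 (@Lb.g g4 (@Lb.d (nat_lit 1) (nat_lit 17) (nat_lit 1) (@Lb.r r387 (@Lb.t (@Lb.fp (nat_lit 9) t546)))))))))))
noncomputable def l13111 : Lb := (@Lb.d (nat_lit 0) (nat_lit 512) (nat_lit 64) (@Lb.g g10 (@Lb.g g7 (@Lb.r r402 (@Lb.r r101 (@Lb.d (nat_lit 65) (nat_lit 34) (nat_lit 0) (@Lb.fp (nat_lit 3) t983)))))))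
noncomputable def l13112 : Lb := (@Lb.d (nat_lit 18) (nat_lit 512) (nat_lit 646) (@Lb.r r24 (@Lb.r r2587 (@Lb.r r1365 (@Lb.r r2722 (@Lb.g g7 (@Lb.g g6 (@Lb.g g5 (@Lb.d (nat_lit 0) (nat_lit 1) (nat_lit 8) (@Lb.t (@Lb.fm (nat_lit 9) t2686)))))))))))
noncomputable def l13113 : Lb := (@Lb.r r21 (@Lb.d (nat_lit 153) (nat_lit 256) (nat_lit 2) (@Lb.g g8 (@Lb.g g10 (@Lb.r r679 (@Lb.r r549 (@Lb.r r276 (@Lb.d (nat_lit 70) (nat_lit 18) (nat_lit 149) (@Lb.fm (nat_lit 3) t721)))))))))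
noncomputable def l13114 : Lb := (@Lb.d (nat_lit 128) (nat_lit 256) (nat_lit 128) (@Lb.g g11 (@Lb.r r586 (@Lb.r r24 (@Lb.r r405 (@Lb.r r611 (@Lb.d (nat_lit 0) (nat_lit 9) (nat_lit 18) (@Lb.t (@Lb.fp (nat_lit 3) t2811)))))))))
noncomputable def l13115 : Lb := (@Lb.d (nat_lit 384) (nat_lit 256) (nat_lit 586) (@Lb.r r24 (@Lb.r r101 (@Lb.r r1362 (@Lb.r r2691 (@Lb.g g7 (@Lb.g g6 (@Lb.d (nat_lit 0) (nat_lit 0) (nat_lit 65) (@Lb.fp (nat_lit 3) t1790)))))))))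
noncomputable def l13116 : Lb := (@Lb.d (nat_lit 657) (nat_lit 512) (nat_lit 262) (@Lb.r r24 (@Lb.r r101 (@Lb.r r386 (@Lb.g g11 (@Lb.g g6 (@Lb.g g5 (@Lb.d (nat_lit 0) (nat_lit 0) (nat_lit 129) (@Lb.t (@Lb.fp (nat_lit 9) t719))))))))))
noncomputable def l13117 : Lb := (@Lb.r r323 (@Lb.d (nat_lit 128) (nat_lit 514) (nat_lit 10) (@Lb.g g8 (@Lb.g g9 (@Lb.g g10 (@Lb.r r2643 (@Lb.r r405 (@Lb.r r612 (@Lb.r r1098 (@Lb.d (nat_lit 545) (nat_lit 154) (nat_lit 681) (@Lb.t (@Lb.fp (nat_lit 9) t1155))))))))))))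
noncomputable def l13118 : Lb := (@Lb.d (nat_lit 8) (nat_lit 538) (nat_lit 4) (@Lb.g g9 (@Lb.g g10 (@Lb.g g11 (@Lb.r r2691 (@Lb.r r1112 (@Lb.r r1606 (@Lb.r r2449 (@Lb.d (nat_lit 160) (nat_lit 154) (nat_lit 342) (@Lb.t (@Lb.fm (nat_lit 9) t2922)))))))))))
noncomputable def l13119 : Lb := (@Lb.d (nat_lit 0) (nat_lit 529) (nat_lit 585) (@Lb.g g9 (@Lb.g g10 (@Lb.g g7 (@Lb.r r338 (@Lb.r r2137 (@Lb.r r24 (@Lb.d (nat_lit 130) (nat_lit 0) (nat_lit 265) (@Lb.t (@Lb.fm (nat_lit 9) t378))))))))))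
noncomputable def l13120 : Lb := (@Lb.d (nat_lit 0) (nat_lit 512) (nat_lit 4) (@Lb.g g9 (@Lb.g g10 (@Lb.g g11 (@Lb.r r1619 (@Lb.r r1618 (@Lb.r r101 (@Lb.r r24 (@Lb.d (nat_lit 66) (nat_lit 0) (nat_lit 549) (@Lb.t (@Lb.fp (nat_lit 9) t1172)))))))))))
noncomputable def l13121 : Lb := (@Lb.d (nat_lit 0) (nat_lit 256) (nat_lit 73) (@Lb.g g9 (@Lb.g g10 (@Lb.g g11 (@Lb.r r2726 (@Lb.r r324 (@Lb.r r539 (@Lb.r r1317 (@Lb.d (nat_lit 321) (nat_lit 144) (nat_lit 64) (@Lb.t (@Lb.fp (nat_lit 9) t2923)))))))))))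
noncomputable def l13122 : Lb := (@Lb.r r275 (@Lb.d (nat_lit 129) (nat_lit 256) (nat_lit 2) (@Lb.g g8 (@Lb.g g9 (@Lb.g g10 (@Lb.r r674 (@Lb.r r391 (@Lb.r r665 (@Lb.r r516 (@Lb.d (nat_lit 666) (nat_lit 5) (nat_lit 90) (@Lb.t (@Lb.fp (nat_lit 9) t234))))))))))))
noncomputable def l13123 : Lb := (@Lb.r r275 (@Lb.d (nat_lit 130) (nat_lit 512) (nat_lit 2) (@Lb.g g8 (@Lb.g g9 (@Lb.g g10 (@Lb.r r674 (@Lb.r r391 (@Lb.r r665 (@Lb.r r516 (@Lb.d (nat_lit 666) (nat_lit 5) (nat_lit 144) (@Lb.t (@Lb.fp (nat_lit 9) t234))))))))))))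
noncomputable def l13124 : Lb := (@Lb.d (nat_lit 32) (nat_lit 329) (nat_lit 9) (@Lb.g g5 (@Lb.g g10 (@Lb.r r587 (@Lb.r r580 (@Lb.r r362 (@Lb.d (nat_lit 290) (nat_lit 136) (nat_lit 262) (@Lb.fm (nat_lit 3) t2924))))))))
noncomputable def l13125 : Lb := (@Lb.d (nat_lit 0) (nat_lit 352) (nat_lit 580) (@Lb.r r402 (@Lb.r r323 (@Lb.g g7 (@Lb.g g6 (@Lb.g g9 (@Lb.d (nat_lit 0) (nat_lit 5) (nat_lit 134) (@Lb.t (@Lb.fp (nat_lit 9) t2925)))))))))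
noncomputable def l13126 : Lb := (@Lb.d (nat_lit 0) (nat_lit 0) (nat_lit 68) (@Lb.g g7 (@Lb.r r402 (@Lb.d (nat_lit 0) (nat_lit 6) (nat_lit 64) (@Lb.t (@Lb.fp (nat_lit 3) t44))))))
noncomputable def l13127 : Lb := (@Lb.d (nat_lit 2) (nat_lit 512) (nat_lit 0) (@Lb.g g8 (@Lb.r r2571 (@Lb.r r2601 (@Lb.r r2724 (@Lb.r r134 (@Lb.d (nat_lit 0) (nat_lit 154) (nat_lit 298) (@Lb.t (@Lb.fm (nat_lit 3) t2926)))))))))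
noncomputable def l13128 : Lb := (@Lb.r r322 (@Lb.d (nat_lit 128) (nat_lit 262) (nat_lit 128) (@Lb.g g9 (@Lb.g g11 (@Lb.r r614 (@Lb.r r388 (@Lb.r r587 (@Lb.d (nat_lit 100) (nat_lit 10) (nat_lit 17) (@Lb.fp (nat_lit 3) t564)))))))))
noncomputable def l13129 : Lb := (@Lb.d (nat_lit 532) (nat_lit 650) (nat_lit 2) (@Lb.r r2197 (@Lb.r r2134 (@Lb.r r1448 (@Lb.r r2327 (@Lb.g g9 (@Lb.d (nat_lit 0) (nat_lit 5) (nat_lit 0) (@Lb.t (@Lb.fm (nat_lit 3) t1519)))))))))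
noncomputable def l13130 : Lb := (@Lb.r r323 (@Lb.d (nat_lit 2) (nat_lit 34) (nat_lit 2) (@Lb.g g8 (@Lb.g g9 (@Lb.g g10 (@Lb.r r599 (@Lb.r r392 (@Lb.r r74 (@Lb.d (nat_lit 17) (nat_lit 2) (nat_lit 88) (@Lb.t (@Lb.fm (nat_lit 9) t756)))))))))))
noncomputable def l13131 : Lb := (@Lb.d (nat_lit 657) (nat_lit 256) (nat_lit 522) (@Lb.r r24 (@Lb.r r613 (@Lb.r r386 (@Lb.r r1699 (@Lb.g g6 (@Lb.g g5 (@Lb.d (nat_lit 0) (nat_lit 0) (nat_lit 1) (@Lb.r r291 (@Lb.fm (nat_lit 3) t719))))))))))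
noncomputable def l13132 : Lb := (@Lb.r r323 (@Lb.d (nat_lit 33) (nat_lit 516) (nat_lit 18) (@Lb.g g8 (@Lb.g g9 (@Lb.g g6 (@Lb.r r1641 (@Lb.r r1315 (@Lb.r r1540 (@Lb.d (nat_lit 673) (nat_lit 0) (nat_lit 160) (@Lb.t (@Lb.fm (nat_lit 9) t2927)))))))))))
noncomputable def l13133 : Lb := (@Lb.d (nat_lit 34) (nat_lit 260) (nat_lit 130) (@Lb.g g8 (@Lb.g g9 (@Lb.g g6 (@Lb.g g11 (@Lb.r r1643 (@Lb.r r97 (@Lb.r r1560 (@Lb.d (nat_lit 73) (nat_lit 105) (nat_lit 640) (@Lb.fp (nat_lit 9) t2179))))))))))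
noncomputable def l13134 : Lb := (@Lb.d (nat_lit 129) (nat_lit 0) (nat_lit 426) (@Lb.r r1416 (@Lb.r r2631 (@Lb.r r402 (@Lb.r r609 (@Lb.g g11 (@Lb.g g8 (@Lb.fm (nat_lit 3) t2639))))))))
noncomputable def l13135 : Lb := (@Lb.d (nat_lit 10) (nat_lit 73) (nat_lit 64) (@Lb.r r21 (@Lb.r r1158 (@Lb.r r2376 (@Lb.g g7 (@Lb.g g5 (@Lb.d (nat_lit 64) (nat_lit 1) (nat_lit 328) (@Lb.fm (nat_lit 3) t355))))))))
noncomputable def l13136 : Lb := (@Lb.d (nat_lit 4) (nat_lit 329) (nat_lit 0) (@Lb.g g5 (@Lb.r r1158 (@Lb.r r2376 (@Lb.r r1543 (@Lb.d (nat_lit 0) (nat_lit 37) (nat_lit 6) (@Lb.t (@Lb.fp (nat_lit 3) t242))))))))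
noncomputable def l13137 : Lb := (@Lb.d (nat_lit 34) (nat_lit 257) (nat_lit 100) (@Lb.r r70 (@Lb.r r392 (@Lb.r r599 (@Lb.g g6 (@Lb.g g5 (@Lb.g g4 (@Lb.d (nat_lit 2) (nat_lit 17) (nat_lit 1) (@Lb.r r387 (@Lb.t (@Lb.fp (nat_lit 9) t546)))))))))))
noncomputable def l13138 : Lb := (@Lb.d (nat_lit 2) (nat_lit 261) (nat_lit 0) (@Lb.g g8 (@Lb.g g5 (@Lb.r r24 (@Lb.d (nat_lit 10) (nat_lit 0) (nat_lit 1) (@Lb.fm (nat_lit 3) t40))))))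
noncomputable def l13139 : Lb := (@Lb.d (nat_lit 1) (nat_lit 2) (nat_lit 2) (@Lb.g g8 (@Lb.g g9 (@Lb.g g10 (@Lb.g g11 (@Lb.r r427 (@Lb.r r388 (@Lb.r r2134 (@Lb.r r145 (@Lb.r r1060 (@Lb.d (nat_lit 289) (nat_lit 169) (nat_lit 401) (@Lb.fp (nat_lit 9) t791))))))))))))
noncomputable def l13140 : Lb := (@Lb.d (nat_lit 656) (nat_lit 256) (nat_lit 262) (@Lb.r r24 (@Lb.r r101 (@Lb.r r386 (@Lb.g g11 (@Lb.g g6 (@Lb.g g5 (@Lb.g g4 (@Lb.d (nat_lit 1) (nat_lit 0) (nat_lit 129) (@Lb.fp (nat_lit 9) t719))))))))))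
noncomputable def l13141 : Lb := (@Lb.d (nat_lit 153) (nat_lit 520) (nat_lit 129) (@Lb.g g8 (@Lb.g g9 (@Lb.g g6 (@Lb.g g11 (@Lb.r r2723 (@Lb.r r36 (@Lb.r r597 (@Lb.r r2084 (@Lb.d (nat_lit 129) (nat_lit 38) (nat_lit 356) (@Lb.fp (nat_lit 9) t2394)))))))))))
noncomputable def l13142 : Lb := (@Lb.d (nat_lit 146) (nat_lit 9) (nat_lit 6) (@Lb.g g8 (@Lb.g g9 (@Lb.g g6 (@Lb.g g11 (@Lb.r r2659 (@Lb.r r36 (@Lb.r r533 (@Lb.r r2084 (@Lb.d (nat_lit 161) (nat_lit 34) (nat_lit 320) (@Lb.fp (nat_lit 9) t2394)))))))))))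
noncomputable def l13143 : Lb := (@Lb.d (nat_lit 577) (nat_lit 266) (nat_lit 265) (@Lb.r r24 (@Lb.r r677 (@Lb.r r354 (@Lb.g g11 (@Lb.g g5 (@Lb.d (nat_lit 0) (nat_lit 5) (nat_lit 0) (@Lb.fp (nat_lit 3) t2928))))))))
noncomputable def l13144 : Lb := (@Lb.d (nat_lit 9) (nat_lit 416) (nat_lit 69) (@Lb.r r1563 (@Lb.r r1688 (@Lb.r r1690 (@Lb.g g6 (@Lb.g g9 (@Lb.g g4 (@Lb.d (nat_lit 1) (nat_lit 1) (nat_lit 1) (@Lb.r r291 (@Lb.t (@Lb.fp (nat_lit 9) t422)))))))))))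
noncomputable def l13145 : Lb := (@Lb.d (nat_lit 33) (nat_lit 514) (nat_lit 73) (@Lb.g g8 (@Lb.g g9 (@Lb.g g10 (@Lb.g g11 (@Lb.r r675 (@Lb.r r164 (@Lb.r r2662 (@Lb.r r2149 (@Lb.r r1156 (@Lb.d (nat_lit 521) (nat_lit 33) (nat_lit 618) (@Lb.fp (nat_lit 9) t2929))))))))))))
noncomputable def l13146 : Lb := (@Lb.d (nat_lit 2) (nat_lit 516) (nat_lit 74) (@Lb.g g8 (@Lb.g g9 (@Lb.g g10 (@Lb.g g11 (@Lb.r r2691 (@Lb.r r297 (@Lb.r r360 (@Lb.r r582 (@Lb.r r2180 (@Lb.d (nat_lit 641) (nat_lit 10) (nat_lit 386) (@Lb.fm (nat_lit 9) t622))))))))))))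
noncomputable def l13147 : Lb := (@Lb.r r273 (@Lb.r r2595 (@Lb.r r2178 (@Lb.r r529 (@Lb.r r8 (@Lb.d (nat_lit 0) (nat_lit 10) (nat_lit 68) (@Lb.fm (nat_lit 1) t271)))))))
noncomputable def l13148 : Lb := (@Lb.d (nat_lit 8) (nat_lit 258) (nat_lit 66) (@Lb.g g9 (@Lb.g g10 (@Lb.g g11 (@Lb.r r419 (@Lb.r r98 (@Lb.d (nat_lit 2) (nat_lit 9) (nat_lit 137) (@Lb.t (@Lb.fm (nat_lit 9) t51)))))))))
noncomputable def l13149 : Lb := (@Lb.d (nat_lit 8) (nat_lit 514) (nat_lit 130) (@Lb.g g9 (@Lb.g g10 (@Lb.g g11 (@Lb.r r419 (@Lb.r r98 (@Lb.d (nat_lit 2) (nat_lit 9) (nat_lit 2) (@Lb.t (@Lb.fm (nat_lit 9) t51)))))))))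
noncomputable def l13150 : Lb := (@Lb.r r82 (@Lb.d (nat_lit 2) (nat_lit 258) (nat_lit 128) (@Lb.g g8 (@Lb.g g9 (@Lb.g g11 (@Lb.r r555 (@Lb.r r548 (@Lb.r r165 (@Lb.r r98 (@Lb.d (nat_lit 10) (nat_lit 4) (nat_lit 136) (@Lb.t (@Lb.fm (nat_lit 9) t892))))))))))))
noncomputable def l13151 : Lb := (@Lb.d (nat_lit 0) (nat_lit 2) (nat_lit 0) (@Lb.g g9 (@Lb.r r260 (@Lb.r r523 (@Lb.r r146 (@Lb.r r97 (@Lb.r r516 (@Lb.d (nat_lit 0) (nat_lit 1) (nat_lit 2) (@Lb.t (@Lb.fm (nat_lit 3) t44))))))))))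
noncomputable def l13152 : Lb := (@Lb.d (nat_lit 2) (nat_lit 512) (nat_lit 0) (@Lb.g g8 (@Lb.r r593 (@Lb.r r343 (@Lb.r r680 (@Lb.r r170 (@Lb.r r153 (@Lb.d (nat_lit 0) (nat_lit 5) (nat_lit 138) (@Lb.t (@Lb.fp (nat_lit 3) t45))))))))))
noncomputable def l13153 : Lb := (@Lb.d (nat_lit 0) (nat_lit 320) (nat_lit 512) (@Lb.r r402 (@Lb.g g9 (@Lb.t (@Lb.fm (nat_lit 3) t2930)))))
noncomputable def l13154 : Lb := (@Lb.d (nat_lit 0) (nat_lit 586) (nat_lit 514) (@Lb.r r402 (@Lb.g g10 (@Lb.g g9 (@Lb.fp (nat_lit 3) t2931)))))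
noncomputable def l13155 : Lb := (@Lb.d (nat_lit 0) (nat_lit 257) (nat_lit 5) (@Lb.g g9 (@Lb.g g10 (@Lb.g g11 (@Lb.r r387 (@Lb.r r418 (@Lb.r r153 (@Lb.r r24 (@Lb.d (nat_lit 16) (nat_lit 0) (nat_lit 1) (@Lb.t (@Lb.fm (nat_lit 9) t145)))))))))))
noncomputable def l13156 : Lb := (@Lb.d (nat_lit 153) (nat_lit 257) (nat_lit 5) (@Lb.g g8 (@Lb.g g9 (@Lb.g g10 (@Lb.g g11 (@Lb.r r683 (@Lb.r r618 (@Lb.r r1561 (@Lb.r r1540 (@Lb.d (nat_lit 393) (nat_lit 73) (nat_lit 673) (@Lb.fm (nat_lit 9) t199)))))))))))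
noncomputable def l13157 : Lb := (@Lb.d (nat_lit 153) (nat_lit 264) (nat_lit 4) (@Lb.g g8 (@Lb.g g9 (@Lb.g g10 (@Lb.g g11 (@Lb.r r683 (@Lb.r r618 (@Lb.r r548 (@Lb.r r37 (@Lb.d (nat_lit 36) (nat_lit 37) (nat_lit 130) (@Lb.fp (nat_lit 9) t1220)))))))))))
noncomputable def l13158 : Lb := (@Lb.d (nat_lit 32) (nat_lit 513) (nat_lit 128) (@Lb.g g9 (@Lb.g g10 (@Lb.g g11 (@Lb.r r391 (@Lb.r r580 (@Lb.r r106 (@Lb.r r529 (@Lb.d (nat_lit 165) (nat_lit 25) (nat_lit 70) (@Lb.t (@Lb.fm (nat_lit 9) t242)))))))))))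
noncomputable def l13159 : Lb := (@Lb.g g5 (@Lb.g g10 (@Lb.r r101 (@Lb.r r24 (@Lb.d (nat_lit 17) (nat_lit 0) (nat_lit 0) (@Lb.fp (nat_lit 3) t40))))))
noncomputable def l13160 : Lb := (@Lb.d (nat_lit 32) (nat_lit 520) (nat_lit 4) (@Lb.g g9 (@Lb.g g10 (@Lb.g g11 (@Lb.r r391 (@Lb.r r580 (@Lb.r r106 (@Lb.r r529 (@Lb.d (nat_lit 165) (nat_lit 25) (nat_lit 70) (@Lb.t (@Lb.fm (nat_lit 9) t98)))))))))))
noncomputable def l13161 : Lb := (@Lb.d (nat_lit 32) (nat_lit 8) (nat_lit 130) (@Lb.g g9 (@Lb.g g10 (@Lb.g g11 (@Lb.r r391 (@Lb.r r580 (@Lb.r r106 (@Lb.r r529 (@Lb.d (nat_lit 165) (nat_lit 25) (nat_lit 70) (@Lb.t (@Lb.fm (nat_lit 9) t98)))))))))))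
noncomputable def l13162 : Lb := (@Lb.r r82 (@Lb.d (nat_lit 2) (nat_lit 514) (nat_lit 128) (@Lb.g g8 (@Lb.g g9 (@Lb.g g11 (@Lb.r r299 (@Lb.r r578 (@Lb.r r296 (@Lb.r r409 (@Lb.d (nat_lit 9) (nat_lit 26) (nat_lit 137) (@Lb.t (@Lb.fp (nat_lit 9) t686))))))))))))
noncomputable def l13163 : Lb := (@Lb.d (nat_lit 0) (nat_lit 256) (nat_lit 128) (@Lb.g g11 (@Lb.r r2626 (@Lb.r r579 (@Lb.r r2341 (@Lb.r r24 (@Lb.d (nat_lit 514) (nat_lit 0) (nat_lit 344) (@Lb.t (@Lb.fm (nat_lit 3) t2027)))))))))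
noncomputable def l13164 : Lb := (@Lb.d (nat_lit 24) (nat_lit 521) (nat_lit 0) (@Lb.r r101 (@Lb.g g6 (@Lb.g g9 (@Lb.fm (nat_lit 3) t44)))))
noncomputable def l13165 : Lb := (@Lb.d (nat_lit 552) (nat_lit 649) (nat_lit 33) (@Lb.r r2129 (@Lb.r r1190 (@Lb.r r2392 (@Lb.r r1703 (@Lb.g g7 (@Lb.g g6 (@Lb.g g5 (@Lb.d (nat_lit 0) (nat_lit 5) (nat_lit 66) (@Lb.t (@Lb.fm (nat_lit 9) t1379)))))))))))
noncomputable def l13166 : Lb := (@Lb.d (nat_lit 282) (nat_lit 160) (nat_lit 584) (@Lb.r r2705 (@Lb.r r1371 (@Lb.r r1304 (@Lb.g g7 (@Lb.g g10 (@Lb.g g5 (@Lb.d (nat_lit 4) (nat_lit 5) (nat_lit 146) (@Lb.t (@Lb.fp (nat_lit 9) t631))))))))))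
noncomputable def l13167 : Lb := (@Lb.d (nat_lit 512) (nat_lit 256) (nat_lit 32) (@Lb.r r154 (@Lb.r r660 (@Lb.r r407 (@Lb.r r609 (@Lb.g g11 (@Lb.t (@Lb.fp (nat_lit 3) t334))))))))
noncomputable def l13168 : Lb := (@Lb.r r2194 (@Lb.r r101 (@Lb.r r1304 (@Lb.r r2663 (@Lb.d (nat_lit 0) (nat_lit 325) (nat_lit 33) (@Lb.fp (nat_lit 1) t2932))))))
noncomputable def l13169 : Lb := (@Lb.d (nat_lit 6) (nat_lit 1) (nat_lit 32) (@Lb.r r2202 (@Lb.r r2708 (@Lb.r r2645 (@Lb.r r1703 (@Lb.g g6 (@Lb.g g5 (@Lb.r r387 (@Lb.fm (nat_lit 3) t1389)))))))))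
noncomputable def l13170 : Lb := (@Lb.d (nat_lit 554) (nat_lit 137) (nat_lit 33) (@Lb.r r2129 (@Lb.r r1190 (@Lb.r r2392 (@Lb.r r1703 (@Lb.g g7 (@Lb.g g6 (@Lb.g g5 (@Lb.d (nat_lit 0) (nat_lit 5) (nat_lit 66) (@Lb.t (@Lb.fm (nat_lit 9) t1379)))))))))))
noncomputable def l13171 : Lb := (@Lb.d (nat_lit 4) (nat_lit 545) (nat_lit 0) (@Lb.g g8 (@Lb.g g9 (@Lb.r r2404 (@Lb.r r603 (@Lb.r r2178 (@Lb.r r1301 (@Lb.d (nat_lit 598) (nat_lit 82) (nat_lit 417) (@Lb.fm (nat_lit 3) t229)))))))))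
noncomputable def l13172 : Lb := (@Lb.d (nat_lit 2) (nat_lit 296) (nat_lit 130) (@Lb.g g8 (@Lb.g g10 (@Lb.g g11 (@Lb.r r1313 (@Lb.r r2583 (@Lb.r r324 (@Lb.r r618 (@Lb.d (nat_lit 2) (nat_lit 90) (nat_lit 137) (@Lb.t (@Lb.fm (nat_lit 9) t2933)))))))))))
noncomputable def l13173 : Lb := (@Lb.r r322 (@Lb.d (nat_lit 0) (nat_lit 0) (nat_lit 576) (@Lb.g g9 (@Lb.g g7 (@Lb.r r338 (@Lb.r r1425 (@Lb.d (nat_lit 0) (nat_lit 64) (nat_lit 138) (@Lb.fp (nat_lit 3) t2776))))))))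
noncomputable def l13174 : Lb := (@Lb.d (nat_lit 146) (nat_lit 256) (nat_lit 130) (@Lb.g g8 (@Lb.g g9 (@Lb.g g10 (@Lb.g g11 (@Lb.r r1672 (@Lb.r r283 (@Lb.r r2705 (@Lb.r r1626 (@Lb.d (nat_lit 82) (nat_lit 2) (nat_lit 340) (@Lb.fm (nat_lit 9) t2681)))))))))))
noncomputable def l13175 : Lb := (@Lb.d (nat_lit 10) (nat_lit 296) (nat_lit 130) (@Lb.g g8 (@Lb.g g10 (@Lb.g g11 (@Lb.r r1313 (@Lb.r r2327 (@Lb.r r580 (@Lb.r r138 (@Lb.d (nat_lit 2) (nat_lit 66) (nat_lit 5) (@Lb.t (@Lb.fm (nat_lit 9) t382)))))))))))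
noncomputable def l13176 : Lb := (@Lb.d (nat_lit 160) (nat_lit 520) (nat_lit 130) (@Lb.g g10 (@Lb.g g11 (@Lb.r r100 (@Lb.r r2645 (@Lb.r r2579 (@Lb.r r650 (@Lb.d (nat_lit 66) (nat_lit 102) (nat_lit 356) (@Lb.fm (nat_lit 3) t382)))))))))
noncomputable def l13177 : Lb := (@Lb.d (nat_lit 6) (nat_lit 64) (nat_lit 130) (@Lb.g g8 (@Lb.g g9 (@Lb.g g10 (@Lb.g g11 (@Lb.r r2658 (@Lb.r r1607 (@Lb.r r1288 (@Lb.d (nat_lit 664) (nat_lit 1) (nat_lit 406) (@Lb.fp (nat_lit 9) t2934))))))))))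
noncomputable def l13178 : Lb := (@Lb.d (nat_lit 8) (nat_lit 0) (nat_lit 1) (@Lb.g g9 (@Lb.g g10 (@Lb.r r1368 (@Lb.r r1670 (@Lb.r r2439 (@Lb.r r2129 (@Lb.d (nat_lit 0) (nat_lit 134) (nat_lit 386) (@Lb.fm (nat_lit 3) t2551)))))))))
noncomputable def l13179 : Lb := (@Lb.d (nat_lit 2) (nat_lit 544) (nat_lit 129) (@Lb.g g8 (@Lb.g g10 (@Lb.g g11 (@Lb.r r1313 (@Lb.r r2583 (@Lb.r r392 (@Lb.r r410 (@Lb.d (nat_lit 102) (nat_lit 101) (nat_lit 68) (@Lb.t (@Lb.fm (nat_lit 9) t2935)))))))))))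
noncomputable def l13180 : Lb := (@Lb.d (nat_lit 2) (nat_lit 40) (nat_lit 130) (@Lb.g g8 (@Lb.g g10 (@Lb.g g11 (@Lb.r r1313 (@Lb.r r2583 (@Lb.r r324 (@Lb.r r618 (@Lb.d (nat_lit 0) (nat_lit 90) (nat_lit 137) (@Lb.t (@Lb.fm (nat_lit 9) t2933)))))))))))
noncomputable def l13181 : Lb := (@Lb.d (nat_lit 0) (nat_lit 264) (nat_lit 1) (@Lb.g g10 (@Lb.g g11 (@Lb.r r2385 (@Lb.r r2339 (@Lb.r r578 (@Lb.d (nat_lit 0) (nat_lit 132) (nat_lit 136) (@Lb.fm (nat_lit 3) t1487))))))))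
noncomputable def l13182 : Lb := (@Lb.d (nat_lit 2) (nat_lit 4) (nat_lit 0) (@Lb.g g8 (@Lb.g g9 (@Lb.g g10 (@Lb.g g11 (@Lb.r r683 (@Lb.r r2666 (@Lb.r r25 (@Lb.d (nat_lit 9) (nat_lit 89) (nat_lit 537) (@Lb.fm (nat_lit 9) t1369))))))))))
noncomputable def l13183 : Lb := (@Lb.d (nat_lit 34) (nat_lit 256) (nat_lit 132) (@Lb.g g8 (@Lb.g g11 (@Lb.r r582 (@Lb.r r529 (@Lb.r r132 (@Lb.d (nat_lit 96) (nat_lit 0) (nat_lit 73) (@Lb.fm (nat_lit 3) t242))))))))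
noncomputable def l13184 : Lb := (@Lb.r r82 (@Lb.d (nat_lit 0) (nat_lit 16) (nat_lit 132) (@Lb.g g8 (@Lb.g g9 (@Lb.g g7 (@Lb.r r386 (@Lb.r r97 (@Lb.d (nat_lit 0) (nat_lit 128) (nat_lit 64) (@Lb.t (@Lb.fp (nat_lit 9) t108))))))))))
noncomputable def l13185 : Lb := (@Lb.d (nat_lit 2) (nat_lit 544) (nat_lit 6) (@Lb.g g8 (@Lb.g g10 (@Lb.g g11 (@Lb.r r598 (@Lb.r r153 (@Lb.r r660 (@Lb.r r535 (@Lb.d (nat_lit 69) (nat_lit 34) (nat_lit 69) (@Lb.t (@Lb.fp (nat_lit 9) t242)))))))))))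
noncomputable def l13186 : Lb := (@Lb.r r81 (@Lb.d (nat_lit 33) (nat_lit 0) (nat_lit 2) (@Lb.g g8 (@Lb.g g10 (@Lb.r r1188 (@Lb.r r37 (@Lb.d (nat_lit 0) (nat_lit 70) (nat_lit 16) (@Lb.fp (nat_lit 3) t894))))))))
noncomputable def l13187 : Lb := (@Lb.r r21 (@Lb.d (nat_lit 34) (nat_lit 512) (nat_lit 129) (@Lb.g g8 (@Lb.g g10 (@Lb.g g11 (@Lb.r r395 (@Lb.r r533 (@Lb.r r420 (@Lb.r r150 (@Lb.d (nat_lit 33) (nat_lit 154) (nat_lit 132) (@Lb.t (@Lb.fp (nat_lit 9) t2936))))))))))))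
noncomputable def l13188 : Lb := (@Lb.d (nat_lit 24) (nat_lit 520) (nat_lit 130) (@Lb.g g8 (@Lb.g g9 (@Lb.g g10 (@Lb.g g11 (@Lb.r r427 (@Lb.r r324 (@Lb.r r170 (@Lb.r r169 (@Lb.r r164 (@Lb.d (nat_lit 96) (nat_lit 9) (nat_lit 18) (@Lb.fp (nat_lit 9) t573))))))))))))
noncomputable def l13189 : Lb := (@Lb.d (nat_lit 0) (nat_lit 520) (nat_lit 130) (@Lb.g g9 (@Lb.g g10 (@Lb.g g11 (@Lb.r r387 (@Lb.r r40 (@Lb.r r153 (@Lb.r r402 (@Lb.d (nat_lit 145) (nat_lit 21) (nat_lit 84) (@Lb.t (@Lb.fm (nat_lit 9) t573)))))))))))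
noncomputable def l13190 : Lb := (@Lb.r r273 (@Lb.r r322 (@Lb.d (nat_lit 128) (nat_lit 512) (nat_lit 64) (@Lb.g g11 (@Lb.r r280 (@Lb.r r101 (@Lb.r r146 (@Lb.d (nat_lit 0) (nat_lit 0) (nat_lit 128) (@Lb.t (@Lb.fm (nat_lit 3) t31))))))))))
noncomputable def l13191 : Lb := (@Lb.d (nat_lit 530) (nat_lit 258) (nat_lit 64) (@Lb.g g8 (@Lb.g g9 (@Lb.g g11 (@Lb.r r657 (@Lb.r r1299 (@Lb.r r2178 (@Lb.r r529 (@Lb.d (nat_lit 530) (nat_lit 66) (nat_lit 648) (@Lb.t (@Lb.fp (nat_lit 9) t229)))))))))))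
noncomputable def l13192 : Lb := (@Lb.d (nat_lit 1) (nat_lit 544) (nat_lit 64) (@Lb.g g8 (@Lb.g g11 (@Lb.r r2344 (@Lb.r r345 (@Lb.r r295 (@Lb.r r2178 (@Lb.d (nat_lit 73) (nat_lit 42) (nat_lit 161) (@Lb.fm (nat_lit 3) t2937)))))))))
noncomputable def l13193 : Lb := (@Lb.d (nat_lit 9) (nat_lit 256) (nat_lit 66) (@Lb.g g8 (@Lb.g g10 (@Lb.g g11 (@Lb.r r1575 (@Lb.r r1109 (@Lb.r r2658 (@Lb.r r2436 (@Lb.d (nat_lit 610) (nat_lit 105) (nat_lit 580) (@Lb.t (@Lb.fp (nat_lit 9) t2938)))))))))))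
noncomputable def l13194 : Lb := (@Lb.r r331 (@Lb.d (nat_lit 672) (nat_lit 258) (nat_lit 2) (@Lb.g g8 (@Lb.g g9 (@Lb.g g10 (@Lb.r r362 (@Lb.r r1411 (@Lb.r r25 (@Lb.d (nat_lit 0) (nat_lit 33) (nat_lit 618) (@Lb.t (@Lb.fm (nat_lit 9) t842)))))))))))
noncomputable def l13195 : Lb := (@Lb.r r664 (@Lb.r r154 (@Lb.r r2133 (@Lb.r r164 (@Lb.d (nat_lit 0) (nat_lit 512) (nat_lit 384) (@Lb.fp (nat_lit 1) t2428))))))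
noncomputable def l13196 : Lb := (@Lb.r r21 (@Lb.r r331 (@Lb.d (nat_lit 416) (nat_lit 4) (nat_lit 2) (@Lb.g g8 (@Lb.g g10 (@Lb.r r409 (@Lb.r r2731 (@Lb.r r1674 (@Lb.d (nat_lit 641) (nat_lit 138) (nat_lit 421) (@Lb.fm (nat_lit 3) t1606))))))))))
noncomputable def l13197 : Lb := (@Lb.d (nat_lit 144) (nat_lit 2) (nat_lit 128) (@Lb.g g8 (@Lb.g g9 (@Lb.g g10 (@Lb.g g11 (@Lb.r r1194 (@Lb.r r2457 (@Lb.r r1319 (@Lb.r r536 (@Lb.d (nat_lit 324) (nat_lit 130) (nat_lit 426) (@Lb.fp (nat_lit 9) t2939)))))))))))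
noncomputable def l13198 : Lb := (@Lb.r r1291 (@Lb.d (nat_lit 9) (nat_lit 0) (nat_lit 0) (@Lb.g g8 (@Lb.r r1173 (@Lb.r r1124 (@Lb.d (nat_lit 282) (nat_lit 26) (nat_lit 298) (@Lb.t (@Lb.fp (nat_lit 3) t412))))))))
noncomputable def l13199 : Lb := (@Lb.d (nat_lit 1) (nat_lit 544) (nat_lit 64) (@Lb.g g8 (@Lb.g g11 (@Lb.r r2337 (@Lb.r r2395 (@Lb.r r2178 (@Lb.d (nat_lit 169) (nat_lit 90) (nat_lit 394) (@Lb.fm (nat_lit 3) t64))))))))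
noncomputable def l13200 : Lb := (@Lb.d (nat_lit 530) (nat_lit 257) (nat_lit 64) (@Lb.g g8 (@Lb.g g9 (@Lb.g g11 (@Lb.r r657 (@Lb.r r275 (@Lb.r r2178 (@Lb.r r1553 (@Lb.d (nat_lit 530) (nat_lit 66) (nat_lit 342) (@Lb.t (@Lb.fp (nat_lit 9) t229)))))))))))
noncomputable def l13201 : Lb := (@Lb.d (nat_lit 2) (nat_lit 512) (nat_lit 0) (@Lb.g g8 (@Lb.r r154 (@Lb.r r660 (@Lb.r r407 (@Lb.r r1057 (@Lb.d (nat_lit 0) (nat_lit 152) (nat_lit 144) (@Lb.t (@Lb.fp (nat_lit 3) t2940)))))))))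
noncomputable def l13202 : Lb := (@Lb.d (nat_lit 0) (nat_lit 258) (nat_lit 97) (@Lb.r r1057 (@Lb.r r134 (@Lb.r r328 (@Lb.g g7 (@Lb.g g6 (@Lb.d (nat_lit 64) (nat_lit 32) (nat_lit 320) (@Lb.fp (nat_lit 3) t2941))))))))
noncomputable def l13203 : Lb := (@Lb.d (nat_lit 24) (nat_lit 518) (nat_lit 129) (@Lb.g g8 (@Lb.g g9 (@Lb.g g10 (@Lb.g g11 (@Lb.r r1686 (@Lb.r r344 (@Lb.r r1623 (@Lb.r r2345 (@Lb.r r1060 (@Lb.d (nat_lit 545) (nat_lit 169) (nat_lit 338) (@Lb.fp (nat_lit 9) t2942))))))))))))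
noncomputable def l13204 : Lb := (@Lb.r r86 (@Lb.d (nat_lit 8) (nat_lit 2) (nat_lit 128) (@Lb.g g8 (@Lb.g g9 (@Lb.g g11 (@Lb.r r599 (@Lb.r r2626 (@Lb.r r1577 (@Lb.r r340 (@Lb.d (nat_lit 545) (nat_lit 16) (nat_lit 152) (@Lb.t (@Lb.fm (nat_lit 9) t2942))))))))))))
noncomputable def l13205 : Lb := (@Lb.r r104 (@Lb.r r2153 (@Lb.r r2134 (@Lb.r r2084 (@Lb.r r2307 (@Lb.d (nat_lit 1) (nat_lit 512) (nat_lit 32) (@Lb.fp (nat_lit 1) t2634)))))))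
noncomputable def l13206 : Lb := (@Lb.d (nat_lit 0) (nat_lit 582) (nat_lit 326) (@Lb.r r673 (@Lb.r r618 (@Lb.r r340 (@Lb.g g11 (@Lb.g g9 (@Lb.d (nat_lit 4) (nat_lit 1) (nat_lit 256) (@Lb.r r578 (@Lb.fp (nat_lit 3) t1940)))))))))
noncomputable def l13207 : Lb := (@Lb.r r322 (@Lb.d (nat_lit 129) (nat_lit 514) (nat_lit 324) (@Lb.g g8 (@Lb.g g9 (@Lb.g g7 (@Lb.r r426 (@Lb.r r1177 (@Lb.r r1176 (@Lb.d (nat_lit 532) (nat_lit 9) (nat_lit 98) (@Lb.t (@Lb.fp (nat_lit 9) t2345)))))))))))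
noncomputable def l13208 : Lb := (@Lb.r r322 (@Lb.d (nat_lit 134) (nat_lit 0) (nat_lit 324) (@Lb.g g8 (@Lb.g g9 (@Lb.g g7 (@Lb.r r426 (@Lb.r r1177 (@Lb.r r1176 (@Lb.d (nat_lit 537) (nat_lit 10) (nat_lit 98) (@Lb.t (@Lb.fp (nat_lit 9) t233)))))))))))
noncomputable def l13209 : Lb := (@Lb.d (nat_lit 129) (nat_lit 74) (nat_lit 514) (@Lb.r r2584 (@Lb.r r1414 (@Lb.r r2587 (@Lb.r r293 (@Lb.g g7 (@Lb.d (nat_lit 0) (nat_lit 0) (nat_lit 64) (@Lb.t (@Lb.fm (nat_lit 3) t2943)))))))))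
noncomputable def l13210 : Lb := (@Lb.d (nat_lit 152) (nat_lit 74) (nat_lit 513) (@Lb.r r2584 (@Lb.r r2587 (@Lb.r r293 (@Lb.g g7 (@Lb.g g10 (@Lb.d (nat_lit 32) (nat_lit 4) (nat_lit 65) (@Lb.fm (nat_lit 3) t2944))))))))
noncomputable def l13211 : Lb := (@Lb.d (nat_lit 150) (nat_lit 89) (nat_lit 518) (@Lb.r r277 (@Lb.r r519 (@Lb.r r264 (@Lb.g g7 (@Lb.g g10 (@Lb.d (nat_lit 80) (nat_lit 0) (nat_lit 66) (@Lb.fp (nat_lit 3) t825))))))))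
noncomputable def l13212 : Lb := (@Lb.r r81 (@Lb.r r323 (@Lb.d (nat_lit 10) (nat_lit 512) (nat_lit 42) (@Lb.g g8 (@Lb.g g6 (@Lb.r r149 (@Lb.r r1448 (@Lb.r r2439 (@Lb.d (nat_lit 402) (nat_lit 42) (nat_lit 89) (@Lb.fm (nat_lit 3) t981))))))))))
noncomputable def l13213 : Lb := (@Lb.d (nat_lit 649) (nat_lit 656) (nat_lit 384) (@Lb.r r289 (@Lb.r r279 (@Lb.r r584 (@Lb.r r166 (@Lb.g g7 (@Lb.g g6 (@Lb.g g5 (@Lb.d (nat_lit 0) (nat_lit 0) (nat_lit 134) (@Lb.t (@Lb.fm (nat_lit 9) t2945)))))))))))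
noncomputable def l13214 : Lb := (@Lb.d (nat_lit 578) (nat_lit 86) (nat_lit 600) (@Lb.r r2129 (@Lb.r r322 (@Lb.r r343 (@Lb.g g7 (@Lb.g g6 (@Lb.g g5 (@Lb.g g4 (@Lb.d (nat_lit 1) (nat_lit 37) (nat_lit 130) (@Lb.fp (nat_lit 9) t898))))))))))
noncomputable def l13215 : Lb := (@Lb.d (nat_lit 0) (nat_lit 512) (nat_lit 4) (@Lb.g g9 (@Lb.g g10 (@Lb.g g11 (@Lb.r r419 (@Lb.r r2470 (@Lb.r r2341 (@Lb.r r24 (@Lb.d (nat_lit 538) (nat_lit 69) (nat_lit 17) (@Lb.t (@Lb.fp (nat_lit 9) t2946)))))))))))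
noncomputable def l13216 : Lb := (@Lb.d (nat_lit 2) (nat_lit 514) (nat_lit 130) (@Lb.g g8 (@Lb.g g9 (@Lb.g g10 (@Lb.g g11 (@Lb.r r427 (@Lb.r r2473 (@Lb.r r2154 (@Lb.r r2120 (@Lb.d (nat_lit 345) (nat_lit 65) (nat_lit 342) (@Lb.fp (nat_lit 9) t1025)))))))))))
noncomputable def l13217 : Lb := (@Lb.d (nat_lit 0) (nat_lit 256) (nat_lit 130) (@Lb.g g8 (@Lb.g g9 (@Lb.g g10 (@Lb.g g11 (@Lb.r r419 (@Lb.r r2465 (@Lb.r r2154 (@Lb.r r2120 (@Lb.d (nat_lit 297) (nat_lit 65) (nat_lit 34) (@Lb.fp (nat_lit 9) t284)))))))))))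
noncomputable def l13218 : Lb := (@Lb.r r86 (@Lb.d (nat_lit 34) (nat_lit 256) (nat_lit 64) (@Lb.g g8 (@Lb.g g9 (@Lb.g g7 (@Lb.r r418 (@Lb.r r681 (@Lb.r r420 (@Lb.d (nat_lit 104) (nat_lit 38) (nat_lit 133) (@Lb.t (@Lb.fp (nat_lit 9) t2353)))))))))))
noncomputable def l13219 : Lb := (@Lb.d (nat_lit 656) (nat_lit 256) (nat_lit 544) (@Lb.r r2628 (@Lb.r r2641 (@Lb.r r579 (@Lb.r r2370 (@Lb.g g7 (@Lb.d (nat_lit 0) (nat_lit 0) (nat_lit 64) (@Lb.t (@Lb.fp (nat_lit 3) t2947)))))))))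
noncomputable def l13220 : Lb := (@Lb.d (nat_lit 8) (nat_lit 0) (nat_lit 130) (@Lb.g g9 (@Lb.g g10 (@Lb.g g11 (@Lb.r r423 (@Lb.r r596 (@Lb.r r666 (@Lb.r r337 (@Lb.d (nat_lit 4) (nat_lit 37) (nat_lit 6) (@Lb.t (@Lb.fp (nat_lit 9) t51)))))))))))
noncomputable def l13221 : Lb := (@Lb.d (nat_lit 578) (nat_lit 342) (nat_lit 600) (@Lb.r r2129 (@Lb.r r322 (@Lb.r r343 (@Lb.g g7 (@Lb.g g6 (@Lb.g g5 (@Lb.g g4 (@Lb.d (nat_lit 1) (nat_lit 32) (nat_lit 129) (@Lb.fp (nat_lit 9) t898))))))))))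
noncomputable def l13222 : Lb := (@Lb.r r260 (@Lb.r r523 (@Lb.r r1154 (@Lb.r r1057 (@Lb.r r516 (@Lb.d (nat_lit 290) (nat_lit 0) (nat_lit 34) (@Lb.fm (nat_lit 1) t980)))))))
noncomputable def l13223 : Lb := (@Lb.d (nat_lit 2) (nat_lit 16) (nat_lit 522) (@Lb.g g8 (@Lb.g g10 (@Lb.g g7 (@Lb.r r594 (@Lb.r r1425 (@Lb.r r36 (@Lb.d (nat_lit 8) (nat_lit 4) (nat_lit 64) (@Lb.t (@Lb.fp (nat_lit 9) t2948))))))))))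
noncomputable def l13224 : Lb := (@Lb.d (nat_lit 2) (nat_lit 2) (nat_lit 130) (@Lb.g g8 (@Lb.g g9 (@Lb.g g10 (@Lb.g g11 (@Lb.r r2411 (@Lb.r r386 (@Lb.r r97 (@Lb.r r24 (@Lb.d (nat_lit 256) (nat_lit 73) (nat_lit 169) (@Lb.fm (nat_lit 9) t741)))))))))))
noncomputable def l13225 : Lb := (@Lb.d (nat_lit 266) (nat_lit 517) (nat_lit 136) (@Lb.r r89 (@Lb.r r1126 (@Lb.g g5 (@Lb.g g8 (@Lb.d (nat_lit 0) (nat_lit 5) (nat_lit 0) (@Lb.fp (nat_lit 3) t2949)))))))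
noncomputable def l13226 : Lb := (@Lb.d (nat_lit 64) (nat_lit 293) (nat_lit 26) (@Lb.r r551 (@Lb.r r1557 (@Lb.r r360 (@Lb.g g7 (@Lb.g g6 (@Lb.d (nat_lit 64) (nat_lit 16) (nat_lit 150) (@Lb.r r388 (@Lb.fm (nat_lit 3) t2075)))))))))
noncomputable def l13227 : Lb := (@Lb.d (nat_lit 266) (nat_lit 5) (nat_lit 136) (@Lb.r r89 (@Lb.r r1126 (@Lb.g g11 (@Lb.g g5 (@Lb.g g8 (@Lb.d (nat_lit 0) (nat_lit 5) (nat_lit 0) (@Lb.t (@Lb.fp (nat_lit 9) t2949)))))))))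
noncomputable def l13228 : Lb := (@Lb.d (nat_lit 417) (nat_lit 646) (nat_lit 538) (@Lb.r r2325 (@Lb.r r2650 (@Lb.r r2731 (@Lb.g g7 (@Lb.g g6 (@Lb.g g5 (@Lb.g g4 (@Lb.d (nat_lit 6) (nat_lit 26) (nat_lit 134) (@Lb.fm (nat_lit 9) t1499))))))))))
noncomputable def l13229 : Lb := (@Lb.d (nat_lit 1) (nat_lit 256) (nat_lit 2) (@Lb.g g8 (@Lb.g g10 (@Lb.r r1707 (@Lb.r r2713 (@Lb.r r2650 (@Lb.r r2628 (@Lb.d (nat_lit 153) (nat_lit 65) (nat_lit 356) (@Lb.fp (nat_lit 3) t2950)))))))))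
noncomputable def l13230 : Lb := (@Lb.r r21 (@Lb.d (nat_lit 0) (nat_lit 264) (nat_lit 130) (@Lb.g g8 (@Lb.g g10 (@Lb.g g11 (@Lb.r r411 (@Lb.r r408 (@Lb.r r101 (@Lb.r r602 (@Lb.d (nat_lit 105) (nat_lit 33) (nat_lit 2) (@Lb.t (@Lb.fm (nat_lit 9) t51))))))))))))
noncomputable def l13231 : Lb := (@Lb.r r82 (@Lb.d (nat_lit 5) (nat_lit 529) (nat_lit 132) (@Lb.g g8 (@Lb.g g9 (@Lb.g g7 (@Lb.r r386 (@Lb.r r2153 (@Lb.r r36 (@Lb.d (nat_lit 290) (nat_lit 0) (nat_lit 98) (@Lb.t (@Lb.fp (nat_lit 9) t42)))))))))))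
noncomputable def l13232 : Lb := (@Lb.r r81 (@Lb.r r102 (@Lb.r r408 (@Lb.r r359 (@Lb.g g11 (@Lb.g g5 (@Lb.g g8 (@Lb.d (nat_lit 2) (nat_lit 513) (nat_lit 132) (@Lb.r r578 (@Lb.t (@Lb.fm (nat_lit 9) t594)))))))))))
noncomputable def l13233 : Lb := (@Lb.d (nat_lit 393) (nat_lit 161) (nat_lit 576) (@Lb.r r2341 (@Lb.r r2406 (@Lb.r r283 (@Lb.g g7 (@Lb.g g5 (@Lb.g g8 (@Lb.d (nat_lit 9) (nat_lit 17) (nat_lit 64) (@Lb.r r98 (@Lb.t (@Lb.fp (nat_lit 9) t148)))))))))))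
noncomputable def l13234 : Lb := (@Lb.d (nat_lit 0) (nat_lit 256) (nat_lit 66) (@Lb.g g9 (@Lb.g g10 (@Lb.g g7 (@Lb.r r386 (@Lb.r r2145 (@Lb.r r36 (@Lb.d (nat_lit 5) (nat_lit 72) (nat_lit 41) (@Lb.t (@Lb.fp (nat_lit 9) t40))))))))))
noncomputable def l13235 : Lb := (@Lb.r r82 (@Lb.d (nat_lit 0) (nat_lit 537) (nat_lit 0) (@Lb.g g9 (@Lb.g g11 (@Lb.r r355 (@Lb.r r602 (@Lb.r r600 (@Lb.r r293 (@Lb.d (nat_lit 74) (nat_lit 130) (nat_lit 0) (@Lb.fm (nat_lit 3) t501))))))))))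
noncomputable def l13236 : Lb := (@Lb.r r275 (@Lb.d (nat_lit 0) (nat_lit 417) (nat_lit 0) (@Lb.g g9 (@Lb.r r291 (@Lb.d (nat_lit 0) (nat_lit 81) (nat_lit 0) (@Lb.t (@Lb.fp (nat_lit 3) t484)))))))
noncomputable def l13237 : Lb := (@Lb.d (nat_lit 0) (nat_lit 514) (nat_lit 0) (@Lb.g g9 (@Lb.r r679 (@Lb.r r2376 (@Lb.r r1158 (@Lb.r r25 (@Lb.d (nat_lit 292) (nat_lit 65) (nat_lit 18) (@Lb.t (@Lb.fm (nat_lit 3) t2951)))))))))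
noncomputable def l13238 : Lb := (@Lb.d (nat_lit 128) (nat_lit 130) (nat_lit 0) (@Lb.g g9 (@Lb.g g11 (@Lb.r r280 (@Lb.r r1383 (@Lb.r r2178 (@Lb.d (nat_lit 96) (nat_lit 42) (nat_lit 138) (@Lb.fm (nat_lit 3) t2414))))))))
noncomputable def l13239 : Lb := (@Lb.d (nat_lit 0) (nat_lit 642) (nat_lit 0) (@Lb.g g9 (@Lb.r r344 (@Lb.r r1319 (@Lb.r r2178 (@Lb.r r2564 (@Lb.d (nat_lit 1) (nat_lit 6) (nat_lit 0) (@Lb.t (@Lb.fp (nat_lit 3) t2952)))))))))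
noncomputable def l13240 : Lb := (@Lb.d (nat_lit 84) (nat_lit 641) (nat_lit 361) (@Lb.r r2579 (@Lb.r r341 (@Lb.r r166 (@Lb.r r72 (@Lb.g g7 (@Lb.g g6 (@Lb.g g5 (@Lb.d (nat_lit 80) (nat_lit 1) (nat_lit 65) (@Lb.t (@Lb.fm (nat_lit 9) t2521)))))))))))
noncomputable def l13241 : Lb := (@Lb.d (nat_lit 405) (nat_lit 641) (nat_lit 169) (@Lb.r r2579 (@Lb.r r341 (@Lb.r r166 (@Lb.r r72 (@Lb.g g7 (@Lb.g g6 (@Lb.g g5 (@Lb.d (nat_lit 80) (nat_lit 1) (nat_lit 65) (@Lb.t (@Lb.fm (nat_lit 9) t1347)))))))))))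
noncomputable def l13242 : Lb := (@Lb.d (nat_lit 1) (nat_lit 514) (nat_lit 130) (@Lb.g g8 (@Lb.g g9 (@Lb.g g10 (@Lb.g g11 (@Lb.r r586 (@Lb.r r600 (@Lb.r r293 (@Lb.r r539 (@Lb.r r516 (@Lb.d (nat_lit 9) (nat_lit 73) (nat_lit 642) (@Lb.fm (nat_lit 9) t387))))))))))))
noncomputable def l13243 : Lb := (@Lb.r r1543 (@Lb.r r2376 (@Lb.r r1158 (@Lb.r r1169 (@Lb.d (nat_lit 8) (nat_lit 2) (nat_lit 0) (@Lb.fm (nat_lit 1) t669))))))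
noncomputable def l13244 : Lb := (@Lb.r r322 (@Lb.d (nat_lit 0) (nat_lit 2) (nat_lit 576) (@Lb.g g9 (@Lb.g g7 (@Lb.r r417 (@Lb.r r98 (@Lb.d (nat_lit 0) (nat_lit 80) (nat_lit 37) (@Lb.fm (nat_lit 3) t311))))))))
noncomputable def l13245 : Lb := (@Lb.d (nat_lit 128) (nat_lit 0) (nat_lit 130) (@Lb.g g10 (@Lb.g g11 (@Lb.r r264 (@Lb.r r519 (@Lb.r r618 (@Lb.r r537 (@Lb.d (nat_lit 26) (nat_lit 41) (nat_lit 132) (@Lb.fm (nat_lit 3) t494)))))))))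
noncomputable def l13246 : Lb := (@Lb.d (nat_lit 2) (nat_lit 33) (nat_lit 130) (@Lb.g g8 (@Lb.g g9 (@Lb.g g10 (@Lb.g g11 (@Lb.r r1706 (@Lb.r r676 (@Lb.r r423 (@Lb.r r405 (@Lb.r r1060 (@Lb.d (nat_lit 354) (nat_lit 2) (nat_lit 384) (@Lb.fm (nat_lit 9) t645))))))))))))
noncomputable def l13247 : Lb := (@Lb.d (nat_lit 2) (nat_lit 0) (nat_lit 0) (@Lb.g g8 (@Lb.g g5 (@Lb.g g6 (@Lb.r r24 (@Lb.d (nat_lit 9) (nat_lit 0) (nat_lit 0) (@Lb.t (@Lb.fp (nat_lit 9) t2))))))))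
noncomputable def l13248 : Lb := (@Lb.d (nat_lit 36) (nat_lit 516) (nat_lit 128) (@Lb.g g8 (@Lb.g g9 (@Lb.g g10 (@Lb.g g11 (@Lb.r r1435 (@Lb.r r145 (@Lb.r r2646 (@Lb.r r2212 (@Lb.d (nat_lit 170) (nat_lit 64) (nat_lit 97) (@Lb.fp (nat_lit 9) t1857)))))))))))
noncomputable def l13249 : Lb := (@Lb.d (nat_lit 17) (nat_lit 258) (nat_lit 34) (@Lb.r r24 (@Lb.r r386 (@Lb.r r2651 (@Lb.g g7 (@Lb.g g9 (@Lb.d (nat_lit 8) (nat_lit 33) (nat_lit 0) (@Lb.r r98 (@Lb.fm (nat_lit 3) t683)))))))))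
noncomputable def l13250 : Lb := (@Lb.d (nat_lit 417) (nat_lit 258) (nat_lit 356) (@Lb.r r24 (@Lb.r r1178 (@Lb.r r1691 (@Lb.g g7 (@Lb.g g6 (@Lb.g g9 (@Lb.d (nat_lit 8) (nat_lit 2) (nat_lit 134) (@Lb.t (@Lb.fp (nat_lit 9) t650))))))))))
noncomputable def l13251 : Lb := (@Lb.d (nat_lit 2) (nat_lit 514) (nat_lit 130) (@Lb.g g8 (@Lb.g g9 (@Lb.g g10 (@Lb.g g11 (@Lb.r r1435 (@Lb.r r145 (@Lb.r r2646 (@Lb.r r1416 (@Lb.d (nat_lit 85) (nat_lit 8) (nat_lit 585) (@Lb.fm (nat_lit 9) t1634)))))))))))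
noncomputable def l13252 : Lb := (@Lb.d (nat_lit 65) (nat_lit 2) (nat_lit 646) (@Lb.r r24 (@Lb.r r386 (@Lb.r r2587 (@Lb.g g7 (@Lb.g g6 (@Lb.g g9 (@Lb.d (nat_lit 8) (nat_lit 9) (nat_lit 64) (@Lb.t (@Lb.fp (nat_lit 9) t1410))))))))))
noncomputable def l13253 : Lb := (@Lb.d (nat_lit 20) (nat_lit 8) (nat_lit 129) (@Lb.g g8 (@Lb.g g9 (@Lb.g g10 (@Lb.g g11 (@Lb.r r1435 (@Lb.r r145 (@Lb.r r2646 (@Lb.r r664 (@Lb.d (nat_lit 84) (nat_lit 132) (nat_lit 341) (@Lb.fm (nat_lit 9) t1857)))))))))))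
noncomputable def l13254 : Lb := (@Lb.r r82 (@Lb.d (nat_lit 8) (nat_lit 24) (nat_lit 0) (@Lb.g g9 (@Lb.g g11 (@Lb.r r355 (@Lb.r r602 (@Lb.r r600 (@Lb.r r293 (@Lb.d (nat_lit 74) (nat_lit 137) (nat_lit 2) (@Lb.fm (nat_lit 3) t501))))))))))
noncomputable def l13255 : Lb := (@Lb.r r323 (@Lb.d (nat_lit 2) (nat_lit 260) (nat_lit 42) (@Lb.g g8 (@Lb.g g9 (@Lb.g g6 (@Lb.r r387 (@Lb.r r1313 (@Lb.r r24 (@Lb.d (nat_lit 10) (nat_lit 161) (nat_lit 85) (@Lb.t (@Lb.fp (nat_lit 9) t41)))))))))))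
noncomputable def l13256 : Lb := (@Lb.d (nat_lit 2) (nat_lit 9) (nat_lit 129) (@Lb.g g8 (@Lb.g g9 (@Lb.g g10 (@Lb.g g11 (@Lb.r r427 (@Lb.r r106 (@Lb.r r25 (@Lb.d (nat_lit 9) (nat_lit 4) (nat_lit 136) (@Lb.fp (nat_lit 9) t546))))))))))
noncomputable def l13257 : Lb := (@Lb.r r20 (@Lb.r r289 (@Lb.r r283 (@Lb.r r388 (@Lb.r r390 (@Lb.g g7 (@Lb.g g10 (@Lb.g g5 (@Lb.g g4 (@Lb.d (nat_lit 0) (nat_lit 0) (nat_lit 66) (@Lb.fm (nat_lit 9) t68)))))))))))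
noncomputable def l13258 : Lb := (@Lb.d (nat_lit 2) (nat_lit 33) (nat_lit 72) (@Lb.g g8 (@Lb.g g9 (@Lb.g g11 (@Lb.r r106 (@Lb.r r2585 (@Lb.r r403 (@Lb.d (nat_lit 353) (nat_lit 21) (nat_lit 516) (@Lb.t (@Lb.fm (nat_lit 9) t2377))))))))))
noncomputable def l13259 : Lb := (@Lb.d (nat_lit 2) (nat_lit 289) (nat_lit 73) (@Lb.g g8 (@Lb.g g9 (@Lb.g g10 (@Lb.g g11 (@Lb.r r387 (@Lb.r r2649 (@Lb.r r98 (@Lb.d (nat_lit 353) (nat_lit 96) (nat_lit 354) (@Lb.fp (nat_lit 9) t475))))))))))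
noncomputable def l13260 : Lb := (@Lb.r r322 (@Lb.d (nat_lit 34) (nat_lit 289) (nat_lit 580) (@Lb.g g8 (@Lb.g g9 (@Lb.g g7 (@Lb.r r418 (@Lb.r r297 (@Lb.r r1384 (@Lb.d (nat_lit 400) (nat_lit 169) (nat_lit 293) (@Lb.t (@Lb.fm (nat_lit 9) t1192)))))))))))
noncomputable def l13261 : Lb := (@Lb.d (nat_lit 89) (nat_lit 165) (nat_lit 293) (@Lb.r r356 (@Lb.r r2405 (@Lb.r r2650 (@Lb.g g7 (@Lb.g g4 (@Lb.d (nat_lit 70) (nat_lit 0) (nat_lit 576) (@Lb.fp (nat_lit 3) t386))))))))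
noncomputable def l13262 : Lb := (@Lb.d (nat_lit 0) (nat_lit 514) (nat_lit 128) (@Lb.g g8 (@Lb.g g9 (@Lb.g g10 (@Lb.g g11 (@Lb.r r1443 (@Lb.r r1414 (@Lb.r r100 (@Lb.r r21 (@Lb.r r36 (@Lb.d (nat_lit 521) (nat_lit 130) (nat_lit 0) (@Lb.fm (nat_lit 9) t825))))))))))))
noncomputable def l13263 : Lb := (@Lb.d (nat_lit 0) (nat_lit 512) (nat_lit 9) (@Lb.g g10 (@Lb.r r595 (@Lb.r r2402 (@Lb.d (nat_lit 0) (nat_lit 153) (nat_lit 614) (@Lb.t (@Lb.fm (nat_lit 3) t1901)))))))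
noncomputable def l13264 : Lb := (@Lb.d (nat_lit 0) (nat_lit 257) (nat_lit 128) (@Lb.g g9 (@Lb.g g10 (@Lb.g g11 (@Lb.r r1451 (@Lb.r r1414 (@Lb.r r36 (@Lb.r r149 (@Lb.d (nat_lit 544) (nat_lit 132) (nat_lit 1) (@Lb.t (@Lb.fp (nat_lit 9) t825)))))))))))
noncomputable def l13265 : Lb := (@Lb.r r82 (@Lb.d (nat_lit 41) (nat_lit 545) (nat_lit 64) (@Lb.g g8 (@Lb.g g9 (@Lb.g g11 (@Lb.r r674 (@Lb.r r553 (@Lb.r r616 (@Lb.r r587 (@Lb.d (nat_lit 129) (nat_lit 41) (nat_lit 69) (@Lb.t (@Lb.fm (nat_lit 9) t355))))))))))))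
noncomputable def l13266 : Lb := (@Lb.r r323 (@Lb.d (nat_lit 0) (nat_lit 264) (nat_lit 6) (@Lb.g g4 (@Lb.g g10 (@Lb.r r387 (@Lb.d (nat_lit 1) (nat_lit 2) (nat_lit 137) (@Lb.fp (nat_lit 3) t51)))))))
noncomputable def l13267 : Lb := (@Lb.r r82 (@Lb.d (nat_lit 34) (nat_lit 512) (nat_lit 136) (@Lb.g g8 (@Lb.g g9 (@Lb.g g11 (@Lb.r r617 (@Lb.r r150 (@Lb.r r356 (@Lb.r r395 (@Lb.d (nat_lit 129) (nat_lit 41) (nat_lit 129) (@Lb.t (@Lb.fm (nat_lit 9) t98))))))))))))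
noncomputable def l13268 : Lb := (@Lb.r r82 (@Lb.d (nat_lit 34) (nat_lit 512) (nat_lit 136) (@Lb.g g8 (@Lb.g g9 (@Lb.g g11 (@Lb.r r617 (@Lb.r r150 (@Lb.r r356 (@Lb.r r395 (@Lb.d (nat_lit 128) (nat_lit 160) (nat_lit 130) (@Lb.t (@Lb.fm (nat_lit 9) t919))))))))))))
noncomputable def l13269 : Lb := (@Lb.r r70 (@Lb.r r263 (@Lb.d (nat_lit 5) (nat_lit 0) (nat_lit 0) (@Lb.g g8 (@Lb.g g9 (@Lb.r r2391 (@Lb.r r1192 (@Lb.r r74 (@Lb.r r25 (@Lb.d (nat_lit 10) (nat_lit 134) (nat_lit 0) (@Lb.fp (nat_lit 3) t68)))))))))))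
noncomputable def l13270 : Lb := (@Lb.r r82 (@Lb.d (nat_lit 34) (nat_lit 290) (nat_lit 64) (@Lb.g g8 (@Lb.g g9 (@Lb.g g11 (@Lb.r r674 (@Lb.r r553 (@Lb.r r616 (@Lb.r r587 (@Lb.d (nat_lit 128) (nat_lit 41) (nat_lit 138) (@Lb.t (@Lb.fm (nat_lit 9) t98))))))))))))
noncomputable def l13271 : Lb := (@Lb.d (nat_lit 0) (nat_lit 265) (nat_lit 0) (@Lb.r r1284 (@Lb.r r2178 (@Lb.r r2331 (@Lb.r r344 (@Lb.g g5 (@Lb.d (nat_lit 0) (nat_lit 65) (nat_lit 0) (@Lb.t (@Lb.fm (nat_lit 3) t124)))))))))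
noncomputable def l13272 : Lb := (@Lb.d (nat_lit 2) (nat_lit 258) (nat_lit 130) (@Lb.g g8 (@Lb.g g9 (@Lb.g g10 (@Lb.g g11 (@Lb.r r582 (@Lb.r r388 (@Lb.r r1323 (@Lb.r r1313 (@Lb.d (nat_lit 9) (nat_lit 73) (nat_lit 386) (@Lb.fm (nat_lit 9) t119)))))))))))
noncomputable def l13273 : Lb := (@Lb.r r90 (@Lb.r r283 (@Lb.d (nat_lit 36) (nat_lit 416) (nat_lit 0) (@Lb.g g8 (@Lb.g g9 (@Lb.r r1555 (@Lb.r r70 (@Lb.r r1668 (@Lb.d (nat_lit 417) (nat_lit 2) (nat_lit 678) (@Lb.fp (nat_lit 3) t123))))))))))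
noncomputable def l13274 : Lb := (@Lb.d (nat_lit 282) (nat_lit 324) (nat_lit 18) (@Lb.r r24 (@Lb.r r82 (@Lb.r r275 (@Lb.g g9 (@Lb.d (nat_lit 8) (nat_lit 69) (nat_lit 0) (@Lb.r r291 (@Lb.r r98 (@Lb.t (@Lb.fm (nat_lit 3) t1993))))))))))
noncomputable def l13275 : Lb := (@Lb.d (nat_lit 24) (nat_lit 521) (nat_lit 0) (@Lb.r r101 (@Lb.g g9 (@Lb.g g4 (@Lb.fm (nat_lit 3) t45)))))
noncomputable def l13276 : Lb := (@Lb.d (nat_lit 26) (nat_lit 582) (nat_lit 0) (@Lb.r r165 (@Lb.r r2214 (@Lb.r r1368 (@Lb.r r295 (@Lb.g g6 (@Lb.g g5 (@Lb.d (nat_lit 0) (nat_lit 16) (nat_lit 1) (@Lb.fp (nat_lit 3) t406)))))))))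
noncomputable def l13277 : Lb := (@Lb.d (nat_lit 5) (nat_lit 353) (nat_lit 357) (@Lb.r r2450 (@Lb.r r1633 (@Lb.r r1387 (@Lb.r r1352 (@Lb.g g7 (@Lb.g g6 (@Lb.g g5 (@Lb.d (nat_lit 16) (nat_lit 0) (nat_lit 65) (@Lb.t (@Lb.fm (nat_lit 9) t406)))))))))))
noncomputable def l13278 : Lb := (@Lb.d (nat_lit 128) (nat_lit 256) (nat_lit 130) (@Lb.g g10 (@Lb.g g11 (@Lb.r r618 (@Lb.r r24 (@Lb.r r405 (@Lb.r r611 (@Lb.d (nat_lit 137) (nat_lit 25) (nat_lit 74) (@Lb.fm (nat_lit 3) t145)))))))))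
noncomputable def l13279 : Lb := (@Lb.g g7 (@Lb.r r609 (@Lb.r r363 (@Lb.r r356 (@Lb.r r154 (@Lb.d (nat_lit 264) (nat_lit 2) (nat_lit 16) (@Lb.t (@Lb.fm (nat_lit 3) t425))))))))
noncomputable def l13280 : Lb := (@Lb.d (nat_lit 136) (nat_lit 2) (nat_lit 64) (@Lb.g g9 (@Lb.g g11 (@Lb.r r24 (@Lb.r r2341 (@Lb.r r2387 (@Lb.r r2178 (@Lb.d (nat_lit 322) (nat_lit 90) (nat_lit 325) (@Lb.fp (nat_lit 3) t64)))))))))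
noncomputable def l13281 : Lb := (@Lb.g g7 (@Lb.r r609 (@Lb.r r363 (@Lb.r r356 (@Lb.r r154 (@Lb.d (nat_lit 32) (nat_lit 261) (nat_lit 32) (@Lb.t (@Lb.fm (nat_lit 3) t39))))))))
noncomputable def l13282 : Lb := (@Lb.d (nat_lit 0) (nat_lit 320) (nat_lit 592) (@Lb.r r97 (@Lb.r r2583 (@Lb.r r1384 (@Lb.r r2198 (@Lb.g g5 (@Lb.d (nat_lit 0) (nat_lit 6) (nat_lit 0) (@Lb.t (@Lb.fm (nat_lit 3) t662)))))))))
noncomputable def l13283 : Lb := (@Lb.d (nat_lit 0) (nat_lit 10) (nat_lit 681) (@Lb.r r2641 (@Lb.r r579 (@Lb.r r2370 (@Lb.g g7 (@Lb.d (nat_lit 0) (nat_lit 0) (nat_lit 64) (@Lb.t (@Lb.fp (nat_lit 3) t1415))))))))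
noncomputable def l13284 : Lb := (@Lb.d (nat_lit 0) (nat_lit 410) (nat_lit 10) (@Lb.r r97 (@Lb.r r2583 (@Lb.r r1384 (@Lb.r r2198 (@Lb.g g5 (@Lb.d (nat_lit 0) (nat_lit 1) (nat_lit 0) (@Lb.t (@Lb.fm (nat_lit 3) t662)))))))))
noncomputable def l13285 : Lb := (@Lb.d (nat_lit 0) (nat_lit 64) (nat_lit 661) (@Lb.r r97 (@Lb.r r2583 (@Lb.r r1384 (@Lb.r r2198 (@Lb.g g5 (@Lb.d (nat_lit 0) (nat_lit 6) (nat_lit 0) (@Lb.t (@Lb.fm (nat_lit 3) t662)))))))))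
noncomputable def l13286 : Lb := (@Lb.d (nat_lit 2) (nat_lit 9) (nat_lit 132) (@Lb.g g8 (@Lb.g g9 (@Lb.g g10 (@Lb.g g7 (@Lb.r r1442 (@Lb.r r36 (@Lb.r r149 (@Lb.r r1060 (@Lb.d (nat_lit 417) (nat_lit 10) (nat_lit 102) (@Lb.fp (nat_lit 9) t2953)))))))))))
noncomputable def l13287 : Lb := (@Lb.r r82 (@Lb.d (nat_lit 34) (nat_lit 514) (nat_lit 64) (@Lb.g g8 (@Lb.g g9 (@Lb.g g7 (@Lb.r r2409 (@Lb.r r150 (@Lb.r r100 (@Lb.d (nat_lit 346) (nat_lit 10) (nat_lit 537) (@Lb.t (@Lb.fp (nat_lit 9) t722)))))))))))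
noncomputable def l13288 : Lb := (@Lb.d (nat_lit 0) (nat_lit 10) (nat_lit 4) (@Lb.g g5 (@Lb.g g10 (@Lb.g g11 (@Lb.r r387 (@Lb.r r402 (@Lb.d (nat_lit 0) (nat_lit 149) (nat_lit 393) (@Lb.t (@Lb.fm (nat_lit 9) t152)))))))))
noncomputable def l13289 : Lb := (@Lb.d (nat_lit 0) (nat_lit 266) (nat_lit 130) (@Lb.g g5 (@Lb.g g10 (@Lb.g g11 (@Lb.r r387 (@Lb.r r402 (@Lb.d (nat_lit 0) (nat_lit 149) (nat_lit 393) (@Lb.t (@Lb.fm (nat_lit 9) t152)))))))))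
noncomputable def l13290 : Lb := (@Lb.d (nat_lit 577) (nat_lit 640) (nat_lit 322) (@Lb.r r2308 (@Lb.r r2325 (@Lb.r r1643 (@Lb.g g7 (@Lb.g g10 (@Lb.g g5 (@Lb.g g4 (@Lb.d (nat_lit 18) (nat_lit 1) (nat_lit 66) (@Lb.fp (nat_lit 9) t694))))))))))
noncomputable def l13291 : Lb := (@Lb.d (nat_lit 153) (nat_lit 8) (nat_lit 130) (@Lb.g g8 (@Lb.g g9 (@Lb.g g10 (@Lb.g g11 (@Lb.r r683 (@Lb.r r618 (@Lb.r r1561 (@Lb.r r1540 (@Lb.d (nat_lit 393) (nat_lit 73) (nat_lit 673) (@Lb.fm (nat_lit 9) t197)))))))))))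
noncomputable def l13292 : Lb := (@Lb.d (nat_lit 9) (nat_lit 0) (nat_lit 128) (@Lb.g g8 (@Lb.g g9 (@Lb.g g11 (@Lb.r r134 (@Lb.r r584 (@Lb.r r603 (@Lb.r r401 (@Lb.d (nat_lit 8) (nat_lit 34) (nat_lit 136) (@Lb.t (@Lb.fp (nat_lit 9) t71)))))))))))
noncomputable def l13293 : Lb := (@Lb.d (nat_lit 346) (nat_lit 40) (nat_lit 617) (@Lb.r r2709 (@Lb.r r2455 (@Lb.r r1700 (@Lb.r r1702 (@Lb.g g7 (@Lb.g g6 (@Lb.g g5 (@Lb.d (nat_lit 4) (nat_lit 17) (nat_lit 129) (@Lb.t (@Lb.fm (nat_lit 9) t51)))))))))))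
noncomputable def l13294 : Lb := (@Lb.d (nat_lit 25) (nat_lit 514) (nat_lit 1) (@Lb.r r104 (@Lb.r r609 (@Lb.r r402 (@Lb.r r551 (@Lb.g g4 (@Lb.d (nat_lit 65) (nat_lit 0) (nat_lit 0) (@Lb.t (@Lb.fm (nat_lit 3) t167)))))))))
noncomputable def l13295 : Lb := (@Lb.r r260 (@Lb.r r523 (@Lb.r r357 (@Lb.r r666 (@Lb.r r516 (@Lb.d (nat_lit 34) (nat_lit 517) (nat_lit 0) (@Lb.fm (nat_lit 1) t39)))))))
noncomputable def l13296 : Lb := (@Lb.d (nat_lit 65) (nat_lit 290) (nat_lit 133) (@Lb.r r264 (@Lb.r r609 (@Lb.r r402 (@Lb.r r519 (@Lb.g g4 (@Lb.d (nat_lit 66) (nat_lit 0) (nat_lit 0) (@Lb.t (@Lb.fm (nat_lit 3) t167)))))))))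
noncomputable def l13297 : Lb := (@Lb.d (nat_lit 24) (nat_lit 2) (nat_lit 1) (@Lb.r r104 (@Lb.r r609 (@Lb.r r402 (@Lb.r r551 (@Lb.g g4 (@Lb.d (nat_lit 65) (nat_lit 0) (nat_lit 0) (@Lb.t (@Lb.fm (nat_lit 3) t167)))))))))
noncomputable def l13298 : Lb := (@Lb.d (nat_lit 152) (nat_lit 260) (nat_lit 130) (@Lb.r r619 (@Lb.r r660 (@Lb.r r89 (@Lb.r r166 (@Lb.g g7 (@Lb.g g4 (@Lb.d (nat_lit 5) (nat_lit 16) (nat_lit 0) (@Lb.fm (nat_lit 3) t167)))))))))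
noncomputable def l13299 : Lb := (@Lb.d (nat_lit 1) (nat_lit 258) (nat_lit 73) (@Lb.g g8 (@Lb.g g9 (@Lb.g g10 (@Lb.g g11 (@Lb.r r610 (@Lb.r r579 (@Lb.r r1129 (@Lb.r r36 (@Lb.d (nat_lit 150) (nat_lit 1) (nat_lit 324) (@Lb.fp (nat_lit 9) t61)))))))))))
noncomputable def l13300 : Lb := (@Lb.d (nat_lit 10) (nat_lit 288) (nat_lit 130) (@Lb.g g8 (@Lb.g g10 (@Lb.g g11 (@Lb.r r618 (@Lb.r r149 (@Lb.r r360 (@Lb.r r2567 (@Lb.d (nat_lit 649) (nat_lit 18) (nat_lit 640) (@Lb.t (@Lb.fm (nat_lit 9) t71)))))))))))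
noncomputable def l13301 : Lb := (@Lb.d (nat_lit 8) (nat_lit 577) (nat_lit 0) (@Lb.g g9 (@Lb.d (nat_lit 2) (nat_lit 66) (nat_lit 0) (@Lb.t (@Lb.fp (nat_lit 3) t2)))))
noncomputable def l13302 : Lb := (@Lb.d (nat_lit 2) (nat_lit 258) (nat_lit 130) (@Lb.g g8 (@Lb.g g9 (@Lb.g g10 (@Lb.g g11 (@Lb.r r427 (@Lb.r r297 (@Lb.r r104 (@Lb.r r70 (@Lb.r r132 (@Lb.d (nat_lit 9) (nat_lit 66) (nat_lit 330) (@Lb.fp (nat_lit 9) t119))))))))))))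
noncomputable def l13303 : Lb := (@Lb.r r323 (@Lb.d (nat_lit 138) (nat_lit 256) (nat_lit 2) (@Lb.g g8 (@Lb.g g10 (@Lb.r r346 (@Lb.r r661 (@Lb.r r1431 (@Lb.r r2632 (@Lb.d (nat_lit 352) (nat_lit 134) (nat_lit 256) (@Lb.fp (nat_lit 3) t71))))))))))
noncomputable def l13304 : Lb := (@Lb.d (nat_lit 0) (nat_lit 256) (nat_lit 128) (@Lb.g g10 (@Lb.g g11 (@Lb.r r387 (@Lb.r r402 (@Lb.r r101 (@Lb.r r24 (@Lb.d (nat_lit 544) (nat_lit 0) (nat_lit 32) (@Lb.fp (nat_lit 3) t313)))))))))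
noncomputable def l13305 : Lb := (@Lb.d (nat_lit 160) (nat_lit 8) (nat_lit 128) (@Lb.g g10 (@Lb.g g11 (@Lb.r r260 (@Lb.r r2667 (@Lb.r r1633 (@Lb.r r338 (@Lb.d (nat_lit 538) (nat_lit 85) (nat_lit 550) (@Lb.fm (nat_lit 3) t2418)))))))))
noncomputable def l13306 : Lb := (@Lb.d (nat_lit 0) (nat_lit 0) (nat_lit 128) (@Lb.g g10 (@Lb.g g11 (@Lb.r r387 (@Lb.d (nat_lit 0) (nat_lit 164) (nat_lit 256) (@Lb.fm (nat_lit 3) t1119))))))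
noncomputable def l13307 : Lb := (@Lb.d (nat_lit 16) (nat_lit 518) (nat_lit 69) (@Lb.r r2118 (@Lb.r r1416 (@Lb.r r407 (@Lb.g g5 (@Lb.g g4 (@Lb.d (nat_lit 1) (nat_lit 37) (nat_lit 0) (@Lb.r r291 (@Lb.r r98 (@Lb.fp (nat_lit 3) t2697))))))))))
noncomputable def l13308 : Lb := (@Lb.d (nat_lit 0) (nat_lit 513) (nat_lit 32) (@Lb.r r1092 (@Lb.r r82 (@Lb.r r275 (@Lb.g g5 (@Lb.r r291 (@Lb.r r98 (@Lb.r r36 (@Lb.t (@Lb.fm (nat_lit 3) t1364))))))))))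
noncomputable def l13309 : Lb := (@Lb.r r82 (@Lb.r r275 (@Lb.d (nat_lit 4) (nat_lit 0) (nat_lit 0) (@Lb.g g8 (@Lb.g g9 (@Lb.r r1303 (@Lb.r r1110 (@Lb.r r2089 (@Lb.r r1108 (@Lb.d (nat_lit 538) (nat_lit 137) (nat_lit 18) (@Lb.fp (nat_lit 3) t1364)))))))))))
noncomputable def l13310 : Lb := (@Lb.d (nat_lit 5) (nat_lit 256) (nat_lit 0) (@Lb.g g4 (@Lb.d (nat_lit 280) (nat_lit 10) (nat_lit 32) (@Lb.t (@Lb.fm (nat_lit 3) t1507)))))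
noncomputable def l13311 : Lb := (@Lb.d (nat_lit 5) (nat_lit 0) (nat_lit 0) (@Lb.g g4 (@Lb.d (nat_lit 281) (nat_lit 10) (nat_lit 32) (@Lb.t (@Lb.fm (nat_lit 3) t1507)))))
noncomputable def l13312 : Lb := (@Lb.d (nat_lit 16) (nat_lit 6) (nat_lit 69) (@Lb.r r2118 (@Lb.r r1416 (@Lb.r r407 (@Lb.g g5 (@Lb.g g4 (@Lb.d (nat_lit 0) (nat_lit 37) (nat_lit 0) (@Lb.r r291 (@Lb.r r98 (@Lb.fp (nat_lit 3) t2697))))))))))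
noncomputable def l13313 : Lb := (@Lb.d (nat_lit 16) (nat_lit 262) (nat_lit 0) (@Lb.r r2118 (@Lb.r r1416 (@Lb.r r407 (@Lb.g g5 (@Lb.g g4 (@Lb.d (nat_lit 0) (nat_lit 37) (nat_lit 0) (@Lb.r r291 (@Lb.r r98 (@Lb.fp (nat_lit 3) t2697))))))))))
noncomputable def l13314 : Lb := (@Lb.d (nat_lit 5) (nat_lit 0) (nat_lit 0) (@Lb.g g4 (@Lb.r r101 (@Lb.r r402 (@Lb.d (nat_lit 1) (nat_lit 164) (nat_lit 394) (@Lb.t (@Lb.fm (nat_lit 3) t652)))))))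
noncomputable def l13315 : Lb := (@Lb.r r280 (@Lb.r r1383 (@Lb.r r2178 (@Lb.r r1429 (@Lb.r r1572 (@Lb.d (nat_lit 0) (nat_lit 522) (nat_lit 18) (@Lb.fp (nat_lit 1) t307)))))))
noncomputable def l13316 : Lb := (@Lb.d (nat_lit 0) (nat_lit 137) (nat_lit 362) (@Lb.r r1361 (@Lb.r r2727 (@Lb.r r356 (@Lb.r r154 (@Lb.g g5 (@Lb.d (nat_lit 8) (nat_lit 2) (nat_lit 0) (@Lb.t (@Lb.fm (nat_lit 3) t1096)))))))))
noncomputable def l13317 : Lb := (@Lb.r r322 (@Lb.d (nat_lit 64) (nat_lit 288) (nat_lit 584) (@Lb.g g7 (@Lb.r r1304 (@Lb.r r2149 (@Lb.r r146 (@Lb.d (nat_lit 289) (nat_lit 128) (nat_lit 66) (@Lb.t (@Lb.fp (nat_lit 3) t228)))))))))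
noncomputable def l13318 : Lb := (@Lb.d (nat_lit 0) (nat_lit 512) (nat_lit 128) (@Lb.g g10 (@Lb.g g11 (@Lb.r r387 (@Lb.r r1617 (@Lb.r r354 (@Lb.d (nat_lit 0) (nat_lit 169) (nat_lit 658) (@Lb.fm (nat_lit 3) t2954))))))))
noncomputable def l13319 : Lb := (@Lb.r r584 (@Lb.r r619 (@Lb.r r1625 (@Lb.r r2470 (@Lb.r r1540 (@Lb.d (nat_lit 5) (nat_lit 328) (nat_lit 18) (@Lb.fm (nat_lit 1) t1096)))))))
noncomputable def l13320 : Lb := (@Lb.d (nat_lit 0) (nat_lit 512) (nat_lit 130) (@Lb.g g10 (@Lb.g g11 (@Lb.r r419 (@Lb.r r386 (@Lb.d (nat_lit 0) (nat_lit 98) (nat_lit 153) (@Lb.fp (nat_lit 3) t305)))))))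
noncomputable def l13321 : Lb := (@Lb.d (nat_lit 0) (nat_lit 324) (nat_lit 2) (@Lb.r r609 (@Lb.r r363 (@Lb.r r328 (@Lb.r r134 (@Lb.g g4 (@Lb.d (nat_lit 1) (nat_lit 0) (nat_lit 0) (@Lb.t (@Lb.fp (nat_lit 3) t39)))))))))
noncomputable def l13322 : Lb := (@Lb.r r609 (@Lb.r r363 (@Lb.r r328 (@Lb.r r134 (@Lb.d (nat_lit 24) (nat_lit 384) (nat_lit 32) (@Lb.fm (nat_lit 1) t154))))))
noncomputable def l13323 : Lb := (@Lb.r r584 (@Lb.r r86 (@Lb.r r289 (@Lb.r r132 (@Lb.d (nat_lit 0) (nat_lit 657) (nat_lit 138) (@Lb.fp (nat_lit 1) t1115))))))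
noncomputable def l13324 : Lb := (@Lb.r r82 (@Lb.g g5 (@Lb.r r2402 (@Lb.r r2321 (@Lb.d (nat_lit 0) (nat_lit 522) (nat_lit 322) (@Lb.t (@Lb.fm (nat_lit 3) t2908)))))))
noncomputable def l13325 : Lb := (@Lb.d (nat_lit 0) (nat_lit 256) (nat_lit 256) (@Lb.r r2321 (@Lb.r r2386 (@Lb.g g7 (@Lb.g g5 (@Lb.r r98 (@Lb.fm (nat_lit 3) t24)))))))
noncomputable def l13326 : Lb := (@Lb.d (nat_lit 0) (nat_lit 290) (nat_lit 0) (@Lb.g g9 (@Lb.r r1563 (@Lb.r r1688 (@Lb.r r602 (@Lb.r r421 (@Lb.d (nat_lit 106) (nat_lit 68) (nat_lit 138) (@Lb.t (@Lb.fm (nat_lit 3) t210)))))))))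
noncomputable def l13327 : Lb := (@Lb.d (nat_lit 1) (nat_lit 512) (nat_lit 0) (@Lb.g g4 (@Lb.r r1291 (@Lb.r r1098 (@Lb.r r1049 (@Lb.d (nat_lit 16) (nat_lit 0) (nat_lit 32) (@Lb.t (@Lb.fm (nat_lit 3) t396))))))))
noncomputable def l13328 : Lb := (@Lb.r r644 (@Lb.r r423 (@Lb.r r2393 (@Lb.r r2214 (@Lb.r r1044 (@Lb.fm (nat_lit 1) t40))))))
noncomputable def l13329 : Lb := (@Lb.d (nat_lit 1) (nat_lit 256) (nat_lit 0) (@Lb.g g4 (@Lb.r r1291 (@Lb.r r1098 (@Lb.r r1049 (@Lb.d (nat_lit 17) (nat_lit 0) (nat_lit 32) (@Lb.t (@Lb.fm (nat_lit 3) t396))))))))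
noncomputable def l13330 : Lb := (@Lb.d (nat_lit 138) (nat_lit 256) (nat_lit 0) (@Lb.g g8 (@Lb.r r1621 (@Lb.r r1559 (@Lb.r r2178 (@Lb.r r2344 (@Lb.d (nat_lit 165) (nat_lit 105) (nat_lit 673) (@Lb.t (@Lb.fm (nat_lit 3) t296)))))))))
noncomputable def l13331 : Lb := (@Lb.d (nat_lit 2) (nat_lit 32) (nat_lit 320) (@Lb.g g8 (@Lb.g g10 (@Lb.g g11 (@Lb.r r2345 (@Lb.r r1188 (@Lb.r r1158 (@Lb.d (nat_lit 2) (nat_lit 5) (nat_lit 160) (@Lb.t (@Lb.fm (nat_lit 9) t296))))))))))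
noncomputable def l13332 : Lb := (@Lb.d (nat_lit 2) (nat_lit 288) (nat_lit 320) (@Lb.g g8 (@Lb.g g11 (@Lb.r r2345 (@Lb.r r1188 (@Lb.r r1158 (@Lb.d (nat_lit 0) (nat_lit 5) (nat_lit 160) (@Lb.fm (nat_lit 3) t296))))))))
noncomputable def l13333 : Lb := (@Lb.d (nat_lit 136) (nat_lit 256) (nat_lit 384) (@Lb.g g8 (@Lb.g g11 (@Lb.r r2662 (@Lb.r r613 (@Lb.r r2452 (@Lb.d (nat_lit 614) (nat_lit 0) (nat_lit 672) (@Lb.fp (nat_lit 3) t568))))))))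
noncomputable def l13334 : Lb := (@Lb.d (nat_lit 32) (nat_lit 520) (nat_lit 130) (@Lb.g g10 (@Lb.g g11 (@Lb.r r324 (@Lb.r r651 (@Lb.r r357 (@Lb.r r666 (@Lb.d (nat_lit 64) (nat_lit 40) (nat_lit 68) (@Lb.fp (nat_lit 3) t167)))))))))
noncomputable def l13335 : Lb := (@Lb.d (nat_lit 18) (nat_lit 9) (nat_lit 137) (@Lb.g g8 (@Lb.g g9 (@Lb.g g10 (@Lb.g g11 (@Lb.r r676 (@Lb.r r647 (@Lb.r r134 (@Lb.r r97 (@Lb.d (nat_lit 82) (nat_lit 21) (nat_lit 133) (@Lb.fm (nat_lit 9) t1185)))))))))))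
noncomputable def l13336 : Lb := (@Lb.r r263 (@Lb.d (nat_lit 2) (nat_lit 521) (nat_lit 1) (@Lb.g g8 (@Lb.g g9 (@Lb.g g10 (@Lb.r r676 (@Lb.r r519 (@Lb.r r386 (@Lb.r r97 (@Lb.d (nat_lit 0) (nat_lit 9) (nat_lit 137) (@Lb.t (@Lb.fp (nat_lit 9) t1220))))))))))))
noncomputable def l13337 : Lb := (@Lb.d (nat_lit 10) (nat_lit 8) (nat_lit 130) (@Lb.g g8 (@Lb.g g10 (@Lb.g g11 (@Lb.r r545 (@Lb.r r555 (@Lb.r r612 (@Lb.r r154 (@Lb.d (nat_lit 0) (nat_lit 8) (nat_lit 6) (@Lb.t (@Lb.fp (nat_lit 9) t167)))))))))))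
noncomputable def l13338 : Lb := (@Lb.d (nat_lit 10) (nat_lit 512) (nat_lit 128) (@Lb.g g8 (@Lb.g g11 (@Lb.r r545 (@Lb.r r555 (@Lb.r r612 (@Lb.r r154 (@Lb.d (nat_lit 10) (nat_lit 10) (nat_lit 4) (@Lb.fp (nat_lit 3) t39)))))))))
noncomputable def l13339 : Lb := (@Lb.d (nat_lit 2) (nat_lit 2) (nat_lit 2) (@Lb.g g8 (@Lb.g g9 (@Lb.g g10 (@Lb.g g11 (@Lb.r r162 (@Lb.r r660 (@Lb.r r425 (@Lb.r r279 (@Lb.r r548 (@Lb.d (nat_lit 2) (nat_lit 10) (nat_lit 73) (@Lb.fp (nat_lit 9) t242))))))))))))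
noncomputable def l13340 : Lb := (@Lb.r r82 (@Lb.d (nat_lit 34) (nat_lit 2) (nat_lit 0) (@Lb.g g8 (@Lb.g g9 (@Lb.g g11 (@Lb.r r2723 (@Lb.r r582 (@Lb.r r2212 (@Lb.r r2661 (@Lb.d (nat_lit 153) (nat_lit 105) (nat_lit 354) (@Lb.t (@Lb.fm (nat_lit 9) t2955))))))))))))
noncomputable def l13341 : Lb := (@Lb.r r82 (@Lb.d (nat_lit 34) (nat_lit 10) (nat_lit 0) (@Lb.g g8 (@Lb.g g9 (@Lb.g g11 (@Lb.r r1635 (@Lb.r r582 (@Lb.r r2712 (@Lb.r r1685 (@Lb.d (nat_lit 677) (nat_lit 65) (nat_lit 601) (@Lb.t (@Lb.fm (nat_lit 9) t2807))))))))))))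
noncomputable def l13342 : Lb := (@Lb.d (nat_lit 0) (nat_lit 4) (nat_lit 128) (@Lb.g g9 (@Lb.g g10 (@Lb.g g11 (@Lb.r r610 (@Lb.r r1611 (@Lb.r r1556 (@Lb.r r25 (@Lb.d (nat_lit 10) (nat_lit 85) (nat_lit 257) (@Lb.t (@Lb.fp (nat_lit 9) t2956)))))))))))
noncomputable def l13343 : Lb := (@Lb.r r82 (@Lb.d (nat_lit 34) (nat_lit 514) (nat_lit 0) (@Lb.g g8 (@Lb.g g9 (@Lb.r r2723 (@Lb.r r582 (@Lb.r r2212 (@Lb.r r2661 (@Lb.d (nat_lit 154) (nat_lit 100) (nat_lit 353) (@Lb.fm (nat_lit 3) t614))))))))))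
noncomputable def l13344 : Lb := (@Lb.d (nat_lit 662) (nat_lit 96) (nat_lit 656) (@Lb.r r24 (@Lb.r r2337 (@Lb.r r579 (@Lb.r r1366 (@Lb.g g6 (@Lb.g g5 (@Lb.g g4 (@Lb.d (nat_lit 1) (nat_lit 1) (nat_lit 1) (@Lb.t (@Lb.fm (nat_lit 9) t2957)))))))))))
noncomputable def l13345 : Lb := (@Lb.d (nat_lit 132) (nat_lit 516) (nat_lit 128) (@Lb.g g8 (@Lb.g g9 (@Lb.g g10 (@Lb.g g11 (@Lb.r r1443 (@Lb.r r164 (@Lb.r r1446 (@Lb.r r421 (@Lb.d (nat_lit 344) (nat_lit 38) (nat_lit 393) (@Lb.fp (nat_lit 9) t2958)))))))))))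
noncomputable def l13346 : Lb := (@Lb.r r322 (@Lb.d (nat_lit 34) (nat_lit 258) (nat_lit 640) (@Lb.g g8 (@Lb.g g9 (@Lb.g g7 (@Lb.r r361 (@Lb.r r150 (@Lb.r r1384 (@Lb.d (nat_lit 36) (nat_lit 170) (nat_lit 17) (@Lb.t (@Lb.fm (nat_lit 9) t242)))))))))))
noncomputable def l13347 : Lb := (@Lb.r r21 (@Lb.d (nat_lit 170) (nat_lit 512) (nat_lit 64) (@Lb.g g8 (@Lb.g g11 (@Lb.r r166 (@Lb.r r2705 (@Lb.r r283 (@Lb.r r1368 (@Lb.d (nat_lit 392) (nat_lit 88) (nat_lit 389) (@Lb.fm (nat_lit 3) t2959))))))))))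
noncomputable def l13348 : Lb := (@Lb.d (nat_lit 344) (nat_lit 582) (nat_lit 602) (@Lb.r r1348 (@Lb.r r2650 (@Lb.r r1371 (@Lb.g g9 (@Lb.g g4 (@Lb.d (nat_lit 86) (nat_lit 80) (nat_lit 0) (@Lb.r r98 (@Lb.fp (nat_lit 3) t1756)))))))))
noncomputable def l13349 : Lb := (@Lb.d (nat_lit 256) (nat_lit 261) (nat_lit 97) (@Lb.r r134 (@Lb.r r328 (@Lb.r r407 (@Lb.r r609 (@Lb.g g4 (@Lb.t (@Lb.fp (nat_lit 3) t479))))))))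
noncomputable def l13350 : Lb := (@Lb.d (nat_lit 337) (nat_lit 324) (nat_lit 602) (@Lb.r r1348 (@Lb.r r2650 (@Lb.r r1371 (@Lb.g g9 (@Lb.g g4 (@Lb.d (nat_lit 86) (nat_lit 80) (nat_lit 0) (@Lb.r r98 (@Lb.fp (nat_lit 3) t1756)))))))))
noncomputable def l13351 : Lb := (@Lb.r r21 (@Lb.d (nat_lit 170) (nat_lit 0) (nat_lit 64) (@Lb.g g8 (@Lb.g g11 (@Lb.r r166 (@Lb.r r2705 (@Lb.r r283 (@Lb.r r1368 (@Lb.d (nat_lit 392) (nat_lit 86) (nat_lit 388) (@Lb.fm (nat_lit 3) t1728))))))))))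
noncomputable def l13352 : Lb := (@Lb.d (nat_lit 153) (nat_lit 513) (nat_lit 128) (@Lb.g g8 (@Lb.g g9 (@Lb.g g10 (@Lb.g g11 (@Lb.r r2666 (@Lb.r r2665 (@Lb.r r291 (@Lb.r r2628 (@Lb.d (nat_lit 657) (nat_lit 38) (nat_lit 550) (@Lb.fm (nat_lit 9) t2040)))))))))))
noncomputable def l13353 : Lb := (@Lb.r r323 (@Lb.d (nat_lit 0) (nat_lit 258) (nat_lit 2) (@Lb.g g8 (@Lb.g g9 (@Lb.g g10 (@Lb.r r401 (@Lb.r r299 (@Lb.r r392 (@Lb.r r74 (@Lb.d (nat_lit 33) (nat_lit 10) (nat_lit 0) (@Lb.t (@Lb.fp (nat_lit 9) t61))))))))))))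
noncomputable def l13354 : Lb := (@Lb.r r82 (@Lb.r r275 (@Lb.d (nat_lit 34) (nat_lit 26) (nat_lit 0) (@Lb.g g8 (@Lb.g g9 (@Lb.r r427 (@Lb.r r582 (@Lb.r r408 (@Lb.d (nat_lit 137) (nat_lit 18) (nat_lit 137) (@Lb.fp (nat_lit 3) t601))))))))))
noncomputable def l13355 : Lb := (@Lb.r r323 (@Lb.d (nat_lit 0) (nat_lit 256) (nat_lit 2) (@Lb.g g9 (@Lb.g g10 (@Lb.r r2467 (@Lb.r r2146 (@Lb.d (nat_lit 0) (nat_lit 73) (nat_lit 0) (@Lb.fm (nat_lit 3) t1673))))))))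
noncomputable def l13356 : Lb := (@Lb.r r82 (@Lb.r r275 (@Lb.d (nat_lit 34) (nat_lit 538) (nat_lit 0) (@Lb.g g8 (@Lb.g g9 (@Lb.r r427 (@Lb.r r582 (@Lb.r r408 (@Lb.d (nat_lit 138) (nat_lit 18) (nat_lit 137) (@Lb.fp (nat_lit 3) t31))))))))))
noncomputable def l13357 : Lb := (@Lb.d (nat_lit 0) (nat_lit 256) (nat_lit 2) (@Lb.g g10 (@Lb.r r260 (@Lb.r r523 (@Lb.r r161 (@Lb.r r98 (@Lb.r r516 (@Lb.d (nat_lit 1) (nat_lit 8) (nat_lit 1) (@Lb.t (@Lb.fp (nat_lit 3) t97))))))))))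
noncomputable def l13358 : Lb := (@Lb.d (nat_lit 8) (nat_lit 513) (nat_lit 0) (@Lb.g g9 (@Lb.r r1284 (@Lb.r r1563 (@Lb.r r2178 (@Lb.r r1425 (@Lb.d (nat_lit 0) (nat_lit 154) (nat_lit 640) (@Lb.t (@Lb.fp (nat_lit 3) t1624)))))))))
noncomputable def l13359 : Lb := (@Lb.r r2311 (@Lb.r r2118 (@Lb.r r2069 (@Lb.r r8 (@Lb.d (nat_lit 273) (nat_lit 266) (nat_lit 32) (@Lb.fm (nat_lit 1) t2960))))))
noncomputable def l13360 : Lb := (@Lb.d (nat_lit 530) (nat_lit 266) (nat_lit 33) (@Lb.r r24 (@Lb.r r101 (@Lb.r r2403 (@Lb.g g6 (@Lb.d (nat_lit 0) (nat_lit 4) (nat_lit 1) (@Lb.t (@Lb.fm (nat_lit 3) t2345))))))))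
noncomputable def l13361 : Lb := (@Lb.r r82 (@Lb.d (nat_lit 32) (nat_lit 289) (nat_lit 64) (@Lb.g g8 (@Lb.g g9 (@Lb.g g11 (@Lb.r r2665 (@Lb.r r658 (@Lb.r r1419 (@Lb.r r1288 (@Lb.d (nat_lit 73) (nat_lit 0) (nat_lit 600) (@Lb.t (@Lb.fp (nat_lit 9) t2961))))))))))))
noncomputable def l13362 : Lb := (@Lb.d (nat_lit 32) (nat_lit 521) (nat_lit 2) (@Lb.g g9 (@Lb.g g10 (@Lb.r r1555 (@Lb.r r293 (@Lb.r r328 (@Lb.r r662 (@Lb.d (nat_lit 646) (nat_lit 42) (nat_lit 82) (@Lb.fm (nat_lit 3) t249)))))))))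
noncomputable def l13363 : Lb := (@Lb.d (nat_lit 145) (nat_lit 9) (nat_lit 73) (@Lb.g g8 (@Lb.g g9 (@Lb.g g10 (@Lb.g g11 (@Lb.r r343 (@Lb.r r2390 (@Lb.r r97 (@Lb.r r1556 (@Lb.d (nat_lit 678) (nat_lit 105) (nat_lit 641) (@Lb.fm (nat_lit 9) t1167)))))))))))
noncomputable def l13364 : Lb := (@Lb.r r21 (@Lb.d (nat_lit 154) (nat_lit 512) (nat_lit 128) (@Lb.g g8 (@Lb.g g10 (@Lb.g g11 (@Lb.r r387 (@Lb.r r1617 (@Lb.r r678 (@Lb.r r2648 (@Lb.d (nat_lit 617) (nat_lit 166) (nat_lit 426) (@Lb.t (@Lb.fm (nat_lit 9) t2962))))))))))))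
noncomputable def l13365 : Lb := (@Lb.d (nat_lit 134) (nat_lit 406) (nat_lit 320) (@Lb.r r1560 (@Lb.r r97 (@Lb.r r1643 (@Lb.g g7 (@Lb.g g10 (@Lb.g g5 (@Lb.g g4 (@Lb.d (nat_lit 18) (nat_lit 8) (nat_lit 65) (@Lb.fp (nat_lit 9) t715))))))))))
noncomputable def l13366 : Lb := (@Lb.d (nat_lit 98) (nat_lit 105) (nat_lit 137) (@Lb.r r676 (@Lb.r r289 (@Lb.r r422 (@Lb.g g7 (@Lb.g g4 (@Lb.d (nat_lit 18) (nat_lit 0) (nat_lit 68) (@Lb.fm (nat_lit 3) t2790))))))))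
noncomputable def l13367 : Lb := (@Lb.d (nat_lit 2) (nat_lit 9) (nat_lit 1) (@Lb.g g8 (@Lb.g g9 (@Lb.g g10 (@Lb.g g11 (@Lb.r r2691 (@Lb.r r297 (@Lb.r r360 (@Lb.r r582 (@Lb.r r2180 (@Lb.d (nat_lit 641) (nat_lit 10) (nat_lit 329) (@Lb.fm (nat_lit 9) t98))))))))))))
noncomputable def l13368 : Lb := (@Lb.d (nat_lit 0) (nat_lit 0) (nat_lit 66) (@Lb.g g10 (@Lb.g g7 (@Lb.r r386 (@Lb.r r101 (@Lb.r r24 (@Lb.d (nat_lit 352) (nat_lit 0) (nat_lit 521) (@Lb.fm (nat_lit 3) t1150))))))))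
noncomputable def l13369 : Lb := (@Lb.r r21 (@Lb.d (nat_lit 129) (nat_lit 512) (nat_lit 130) (@Lb.g g8 (@Lb.g g10 (@Lb.g g11 (@Lb.r r1691 (@Lb.r r1689 (@Lb.r r1370 (@Lb.r r1348 (@Lb.d (nat_lit 393) (nat_lit 25) (nat_lit 586) (@Lb.t (@Lb.fp (nat_lit 9) t74))))))))))))
noncomputable def l13370 : Lb := (@Lb.r r21 (@Lb.d (nat_lit 2) (nat_lit 512) (nat_lit 2) (@Lb.g g8 (@Lb.g g10 (@Lb.g g11 (@Lb.r r1691 (@Lb.r r1381 (@Lb.r r2202 (@Lb.r r2180 (@Lb.d (nat_lit 596) (nat_lit 1) (nat_lit 609) (@Lb.t (@Lb.fp (nat_lit 9) t284))))))))))))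
noncomputable def l13371 : Lb := (@Lb.r r21 (@Lb.d (nat_lit 146) (nat_lit 0) (nat_lit 128) (@Lb.g g8 (@Lb.g g10 (@Lb.g g11 (@Lb.r r2395 (@Lb.r r402 (@Lb.r r97 (@Lb.r r1604 (@Lb.d (nat_lit 676) (nat_lit 9) (nat_lit 665) (@Lb.t (@Lb.fm (nat_lit 9) t2963))))))))))))
noncomputable def l13372 : Lb := (@Lb.d (nat_lit 1) (nat_lit 617) (nat_lit 356) (@Lb.r r1044 (@Lb.r r1379 (@Lb.r r353 (@Lb.g g7 (@Lb.g g6 (@Lb.d (nat_lit 0) (nat_lit 16) (nat_lit 133) (@Lb.r r132 (@Lb.fp (nat_lit 3) t2491)))))))))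
noncomputable def l13373 : Lb := (@Lb.d (nat_lit 2) (nat_lit 294) (nat_lit 128) (@Lb.g g8 (@Lb.g g9 (@Lb.g g10 (@Lb.g g11 (@Lb.r r1706 (@Lb.r r1704 (@Lb.r r1579 (@Lb.r r1561 (@Lb.d (nat_lit 586) (nat_lit 33) (nat_lit 517) (@Lb.fm (nat_lit 9) t125)))))))))))
noncomputable def l13374 : Lb := (@Lb.r r82 (@Lb.d (nat_lit 41) (nat_lit 2) (nat_lit 136) (@Lb.g g8 (@Lb.g g9 (@Lb.g g11 (@Lb.r r617 (@Lb.r r150 (@Lb.r r356 (@Lb.r r395 (@Lb.d (nat_lit 129) (nat_lit 34) (nat_lit 73) (@Lb.t (@Lb.fm (nat_lit 9) t355))))))))))))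
noncomputable def l13375 : Lb := (@Lb.d (nat_lit 9) (nat_lit 258) (nat_lit 130) (@Lb.g g8 (@Lb.g g9 (@Lb.g g10 (@Lb.g g11 (@Lb.r r2475 (@Lb.r r2193 (@Lb.r r356 (@Lb.r r154 (@Lb.r r132 (@Lb.d (nat_lit 521) (nat_lit 9) (nat_lit 153) (@Lb.fm (nat_lit 9) t221))))))))))))
noncomputable def l13376 : Lb := (@Lb.d (nat_lit 0) (nat_lit 522) (nat_lit 130) (@Lb.g g4 (@Lb.g g5 (@Lb.g g10 (@Lb.g g11 (@Lb.r r387 (@Lb.d (nat_lit 1) (nat_lit 0) (nat_lit 137) (@Lb.fp (nat_lit 9) t5))))))))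
noncomputable def l13377 : Lb := (@Lb.r r82 (@Lb.d (nat_lit 41) (nat_lit 545) (nat_lit 64) (@Lb.g g8 (@Lb.g g9 (@Lb.g g11 (@Lb.r r674 (@Lb.r r553 (@Lb.r r616 (@Lb.r r587 (@Lb.d (nat_lit 128) (nat_lit 34) (nat_lit 70) (@Lb.t (@Lb.fm (nat_lit 9) t355))))))))))))
noncomputable def l13378 : Lb := (@Lb.r r82 (@Lb.d (nat_lit 129) (nat_lit 528) (nat_lit 0) (@Lb.g g8 (@Lb.g g9 (@Lb.g g11 (@Lb.r r555 (@Lb.r r618 (@Lb.r r2712 (@Lb.r r2133 (@Lb.d (nat_lit 21) (nat_lit 166) (nat_lit 673) (@Lb.t (@Lb.fm (nat_lit 9) t2964))))))))))))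
noncomputable def l13379 : Lb := (@Lb.r r323 (@Lb.d (nat_lit 2) (nat_lit 290) (nat_lit 2) (@Lb.g g8 (@Lb.g g9 (@Lb.g g10 (@Lb.r r599 (@Lb.r r74 (@Lb.r r296 (@Lb.r r409 (@Lb.d (nat_lit 149) (nat_lit 38) (nat_lit 132) (@Lb.t (@Lb.fm (nat_lit 9) t51))))))))))))
noncomputable def l13380 : Lb := (@Lb.d (nat_lit 2) (nat_lit 258) (nat_lit 130) (@Lb.g g8 (@Lb.g g9 (@Lb.g g10 (@Lb.g g11 (@Lb.r r427 (@Lb.r r297 (@Lb.r r104 (@Lb.r r70 (@Lb.r r132 (@Lb.d (nat_lit 2) (nat_lit 26) (nat_lit 132) (@Lb.fp (nat_lit 9) t51))))))))))))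
noncomputable def l13381 : Lb := (@Lb.d (nat_lit 2) (nat_lit 514) (nat_lit 130) (@Lb.g g8 (@Lb.g g9 (@Lb.g g10 (@Lb.g g11 (@Lb.r r427 (@Lb.r r297 (@Lb.r r104 (@Lb.r r70 (@Lb.r r132 (@Lb.d (nat_lit 2) (nat_lit 21) (nat_lit 134) (@Lb.fp (nat_lit 9) t51))))))))))))
noncomputable def l13382 : Lb := (@Lb.d (nat_lit 5) (nat_lit 2) (nat_lit 0) (@Lb.g g8 (@Lb.g g9 (@Lb.r r1045 (@Lb.r r1064 (@Lb.d (nat_lit 520) (nat_lit 2) (nat_lit 0) (@Lb.fp (nat_lit 3) t2)))))))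
noncomputable def l13383 : Lb := (@Lb.d (nat_lit 8) (nat_lit 512) (nat_lit 130) (@Lb.g g9 (@Lb.g g10 (@Lb.g g11 (@Lb.r r423 (@Lb.r r596 (@Lb.r r666 (@Lb.r r337 (@Lb.d (nat_lit 9) (nat_lit 38) (nat_lit 6) (@Lb.t (@Lb.fp (nat_lit 9) t51)))))))))))
noncomputable def l13384 : Lb := (@Lb.r r24 (@Lb.r r1045 (@Lb.r r36 (@Lb.d (nat_lit 5) (nat_lit 576) (nat_lit 0) (@Lb.fm (nat_lit 1) t2)))))
noncomputable def l13385 : Lb := (@Lb.d (nat_lit 6) (nat_lit 512) (nat_lit 130) (@Lb.g g8 (@Lb.g g9 (@Lb.g g10 (@Lb.g g11 (@Lb.r r427 (@Lb.r r420 (@Lb.r r102 (@Lb.r r97 (@Lb.r r36 (@Lb.d (nat_lit 9) (nat_lit 137) (nat_lit 73) (@Lb.fm (nat_lit 9) t119))))))))))))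
noncomputable def l13386 : Lb := (@Lb.d (nat_lit 0) (nat_lit 522) (nat_lit 1) (@Lb.g g9 (@Lb.g g10 (@Lb.g g11 (@Lb.r r1703 (@Lb.r r2392 (@Lb.r r1190 (@Lb.r r1169 (@Lb.d (nat_lit 4) (nat_lit 72) (nat_lit 34) (@Lb.t (@Lb.fp (nat_lit 9) t264)))))))))))
noncomputable def l13387 : Lb := (@Lb.d (nat_lit 32) (nat_lit 266) (nat_lit 136) (@Lb.g g9 (@Lb.g g10 (@Lb.g g11 (@Lb.r r1707 (@Lb.r r2713 (@Lb.r r100 (@Lb.r r410 (@Lb.d (nat_lit 649) (nat_lit 89) (nat_lit 153) (@Lb.t (@Lb.fm (nat_lit 9) t428)))))))))))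
noncomputable def l13388 : Lb := (@Lb.d (nat_lit 0) (nat_lit 266) (nat_lit 1) (@Lb.g g9 (@Lb.g g10 (@Lb.g g11 (@Lb.r r1703 (@Lb.r r2392 (@Lb.r r1190 (@Lb.r r1169 (@Lb.d (nat_lit 5) (nat_lit 72) (nat_lit 34) (@Lb.t (@Lb.fp (nat_lit 9) t264)))))))))))
noncomputable def l13389 : Lb := (@Lb.d (nat_lit 0) (nat_lit 256) (nat_lit 73) (@Lb.g g9 (@Lb.g g10 (@Lb.g g11 (@Lb.r r1411 (@Lb.r r1617 (@Lb.r r98 (@Lb.d (nat_lit 0) (nat_lit 160) (nat_lit 132) (@Lb.t (@Lb.fm (nat_lit 9) t590))))))))))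
noncomputable def l13390 : Lb := (@Lb.g g4 (@Lb.g g6 (@Lb.r r138 (@Lb.r r644 (@Lb.r r407 (@Lb.r r609 (@Lb.d (nat_lit 0) (nat_lit 134) (nat_lit 69) (@Lb.fm (nat_lit 3) t71))))))))
noncomputable def l13391 : Lb := (@Lb.d (nat_lit 2) (nat_lit 0) (nat_lit 1) (@Lb.g g8 (@Lb.g g10 (@Lb.r r74 (@Lb.r r328 (@Lb.r r407 (@Lb.r r609 (@Lb.d (nat_lit 0) (nat_lit 137) (nat_lit 70) (@Lb.fm (nat_lit 3) t71)))))))))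
noncomputable def l13392 : Lb := (@Lb.d (nat_lit 2) (nat_lit 512) (nat_lit 1) (@Lb.g g8 (@Lb.g g10 (@Lb.r r74 (@Lb.r r328 (@Lb.r r407 (@Lb.r r609 (@Lb.d (nat_lit 0) (nat_lit 130) (nat_lit 68) (@Lb.fm (nat_lit 3) t71)))))))))
noncomputable def l13393 : Lb := (@Lb.d (nat_lit 0) (nat_lit 514) (nat_lit 130) (@Lb.g g8 (@Lb.g g9 (@Lb.g g10 (@Lb.g g11 (@Lb.r r2691 (@Lb.r r88 (@Lb.r r1173 (@Lb.r r1622 (@Lb.r r1188 (@Lb.d (nat_lit 641) (nat_lit 5) (nat_lit 346) (@Lb.fp (nat_lit 9) t1255))))))))))))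
noncomputable def l13394 : Lb := (@Lb.d (nat_lit 0) (nat_lit 258) (nat_lit 130) (@Lb.g g8 (@Lb.g g9 (@Lb.g g10 (@Lb.g g11 (@Lb.r r2691 (@Lb.r r88 (@Lb.r r1173 (@Lb.r r1622 (@Lb.r r1188 (@Lb.d (nat_lit 640) (nat_lit 66) (nat_lit 362) (@Lb.fp (nat_lit 9) t992))))))))))))
noncomputable def l13395 : Lb := (@Lb.d (nat_lit 10) (nat_lit 8) (nat_lit 130) (@Lb.g g8 (@Lb.g g10 (@Lb.g g11 (@Lb.r r1451 (@Lb.r r2145 (@Lb.r r1622 (@Lb.r r1156 (@Lb.d (nat_lit 165) (nat_lit 169) (nat_lit 577) (@Lb.t (@Lb.fp (nat_lit 9) t2910)))))))))))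
noncomputable def l13396 : Lb := (@Lb.d (nat_lit 2) (nat_lit 544) (nat_lit 128) (@Lb.g g8 (@Lb.g g11 (@Lb.r r1162 (@Lb.r r401 (@Lb.r r1572 (@Lb.r r1639 (@Lb.d (nat_lit 410) (nat_lit 0) (nat_lit 533) (@Lb.fm (nat_lit 3) t1594)))))))))
noncomputable def l13397 : Lb := (@Lb.d (nat_lit 0) (nat_lit 258) (nat_lit 73) (@Lb.g g8 (@Lb.g g9 (@Lb.g g10 (@Lb.g g11 (@Lb.r r2691 (@Lb.r r88 (@Lb.r r1173 (@Lb.r r1622 (@Lb.r r1188 (@Lb.d (nat_lit 640) (nat_lit 5) (nat_lit 346) (@Lb.fp (nat_lit 9) t1255))))))))))))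
noncomputable def l13398 : Lb := (@Lb.d (nat_lit 5) (nat_lit 0) (nat_lit 0) (@Lb.g g4 (@Lb.d (nat_lit 1) (nat_lit 1) (nat_lit 64) (@Lb.t (@Lb.fm (nat_lit 3) t2)))))
noncomputable def l13399 : Lb := (@Lb.d (nat_lit 2) (nat_lit 514) (nat_lit 130) (@Lb.g g8 (@Lb.g g9 (@Lb.g g10 (@Lb.g g11 (@Lb.r r427 (@Lb.r r297 (@Lb.r r104 (@Lb.r r70 (@Lb.r r132 (@Lb.d (nat_lit 9) (nat_lit 154) (nat_lit 132) (@Lb.fp (nat_lit 9) t51))))))))))))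
noncomputable def l13400 : Lb := (@Lb.d (nat_lit 2) (nat_lit 2) (nat_lit 130) (@Lb.g g8 (@Lb.g g9 (@Lb.g g10 (@Lb.g g11 (@Lb.r r427 (@Lb.r r297 (@Lb.r r104 (@Lb.r r70 (@Lb.r r132 (@Lb.d (nat_lit 8) (nat_lit 154) (nat_lit 132) (@Lb.fp (nat_lit 9) t51))))))))))))
noncomputable def l13401 : Lb := (@Lb.d (nat_lit 32) (nat_lit 266) (nat_lit 136) (@Lb.g g9 (@Lb.g g10 (@Lb.g g11 (@Lb.r r1707 (@Lb.r r609 (@Lb.r r1128 (@Lb.r r2454 (@Lb.d (nat_lit 601) (nat_lit 89) (nat_lit 681) (@Lb.t (@Lb.fm (nat_lit 9) t125)))))))))))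
noncomputable def l13402 : Lb := (@Lb.r r323 (@Lb.d (nat_lit 0) (nat_lit 298) (nat_lit 2) (@Lb.g g9 (@Lb.g g10 (@Lb.r r347 (@Lb.r r344 (@Lb.r r166 (@Lb.r r1173 (@Lb.d (nat_lit 294) (nat_lit 137) (nat_lit 34) (@Lb.fm (nat_lit 3) t594))))))))))
noncomputable def l13403 : Lb := (@Lb.d (nat_lit 2) (nat_lit 290) (nat_lit 6) (@Lb.g g8 (@Lb.g g9 (@Lb.g g10 (@Lb.g g11 (@Lb.r r2691 (@Lb.r r1193 (@Lb.r r1700 (@Lb.r r1670 (@Lb.d (nat_lit 674) (nat_lit 10) (nat_lit 325) (@Lb.fm (nat_lit 9) t2745)))))))))))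
noncomputable def l13404 : Lb := (@Lb.d (nat_lit 5) (nat_lit 256) (nat_lit 0) (@Lb.g g4 (@Lb.d (nat_lit 1) (nat_lit 6) (nat_lit 129) (@Lb.t (@Lb.fm (nat_lit 3) t45)))))
noncomputable def l13405 : Lb := (@Lb.g g10 (@Lb.g g7 (@Lb.r r402 (@Lb.d (nat_lit 0) (nat_lit 273) (nat_lit 10) (@Lb.fm (nat_lit 3) t44)))))
noncomputable def l13406 : Lb := (@Lb.g g7 (@Lb.r r402 (@Lb.d (nat_lit 0) (nat_lit 325) (nat_lit 592) (@Lb.t (@Lb.fp (nat_lit 3) t44)))))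
noncomputable def l13407 : Lb := (@Lb.r r2579 (@Lb.r r72 (@Lb.r r598 (@Lb.r r289 (@Lb.r r2180 (@Lb.d (nat_lit 2) (nat_lit 322) (nat_lit 0) (@Lb.fm (nat_lit 1) t51)))))))
noncomputable def l13408 : Lb := (@Lb.d (nat_lit 90) (nat_lit 517) (nat_lit 646) (@Lb.r r2321 (@Lb.r r615 (@Lb.r r549 (@Lb.r r2214 (@Lb.g g7 (@Lb.g g6 (@Lb.g g5 (@Lb.g g8 (@Lb.d (nat_lit 320) (nat_lit 1) (nat_lit 129) (@Lb.fp (nat_lit 9) t2953)))))))))))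
noncomputable def l13409 : Lb := (@Lb.d (nat_lit 0) (nat_lit 9) (nat_lit 0) (@Lb.g g9 (@Lb.r r2198 (@Lb.r r1384 (@Lb.r r2583 (@Lb.r r97 (@Lb.d (nat_lit 0) (nat_lit 128) (nat_lit 416) (@Lb.t (@Lb.fp (nat_lit 3) t29)))))))))
noncomputable def l13410 : Lb := (@Lb.r r134 (@Lb.r r328 (@Lb.r r407 (@Lb.r r609 (@Lb.d (nat_lit 0) (nat_lit 256) (nat_lit 144) (@Lb.fm (nat_lit 1) t334))))))
noncomputable def l13411 : Lb := (@Lb.d (nat_lit 128) (nat_lit 9) (nat_lit 0) (@Lb.g g8 (@Lb.g g9 (@Lb.r r263 (@Lb.r r146 (@Lb.r r97 (@Lb.r r548 (@Lb.d (nat_lit 138) (nat_lit 153) (nat_lit 129) (@Lb.fm (nat_lit 3) t2)))))))))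
noncomputable def l13412 : Lb := (@Lb.d (nat_lit 146) (nat_lit 260) (nat_lit 84) (@Lb.r r82 (@Lb.r r161 (@Lb.r r299 (@Lb.r r264 (@Lb.g g7 (@Lb.g g6 (@Lb.g g5 (@Lb.d (nat_lit 64) (nat_lit 0) (nat_lit 65) (@Lb.t (@Lb.fp (nat_lit 9) t87)))))))))))
noncomputable def l13413 : Lb := (@Lb.d (nat_lit 2) (nat_lit 256) (nat_lit 130) (@Lb.g g8 (@Lb.g g10 (@Lb.g g11 (@Lb.r r516 (@Lb.r r263 (@Lb.r r161 (@Lb.r r98 (@Lb.r r516 (@Lb.d (nat_lit 1) (nat_lit 8) (nat_lit 1) (@Lb.t (@Lb.fp (nat_lit 9) t97))))))))))))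
noncomputable def l13414 : Lb := (@Lb.d (nat_lit 2) (nat_lit 521) (nat_lit 1) (@Lb.g g8 (@Lb.g g9 (@Lb.g g10 (@Lb.g g11 (@Lb.r r427 (@Lb.r r106 (@Lb.r r25 (@Lb.d (nat_lit 9) (nat_lit 4) (nat_lit 136) (@Lb.fp (nat_lit 9) t546))))))))))
noncomputable def l13415 : Lb := (@Lb.d (nat_lit 2) (nat_lit 545) (nat_lit 130) (@Lb.g g8 (@Lb.g g9 (@Lb.g g10 (@Lb.g g11 (@Lb.r r1689 (@Lb.r r531 (@Lb.r r386 (@Lb.d (nat_lit 545) (nat_lit 34) (nat_lit 89) (@Lb.fp (nat_lit 9) t892))))))))))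
noncomputable def l13416 : Lb := (@Lb.d (nat_lit 2) (nat_lit 34) (nat_lit 130) (@Lb.g g8 (@Lb.g g9 (@Lb.g g10 (@Lb.g g11 (@Lb.r r665 (@Lb.r r531 (@Lb.r r386 (@Lb.d (nat_lit 33) (nat_lit 34) (nat_lit 73) (@Lb.fp (nat_lit 9) t892))))))))))
noncomputable def l13417 : Lb := (@Lb.d (nat_lit 2) (nat_lit 2) (nat_lit 137) (@Lb.g g8 (@Lb.g g9 (@Lb.g g10 (@Lb.g g11 (@Lb.r r2666 (@Lb.r r579 (@Lb.r r25 (@Lb.d (nat_lit 9) (nat_lit 97) (nat_lit 586) (@Lb.fm (nat_lit 9) t51))))))))))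
noncomputable def l13418 : Lb := (@Lb.d (nat_lit 0) (nat_lit 649) (nat_lit 1) (@Lb.g g5 (@Lb.g g10 (@Lb.r r2711 (@Lb.r r1384 (@Lb.r r2630 (@Lb.d (nat_lit 657) (nat_lit 165) (nat_lit 16) (@Lb.fp (nat_lit 3) t1027))))))))
noncomputable def l13419 : Lb := (@Lb.d (nat_lit 0) (nat_lit 514) (nat_lit 10) (@Lb.g g9 (@Lb.g g10 (@Lb.g g11 (@Lb.r r2407 (@Lb.r r2150 (@Lb.r r148 (@Lb.r r25 (@Lb.d (nat_lit 152) (nat_lit 4) (nat_lit 426) (@Lb.t (@Lb.fm (nat_lit 9) t61)))))))))))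
noncomputable def l13420 : Lb := (@Lb.d (nat_lit 2) (nat_lit 512) (nat_lit 66) (@Lb.g g8 (@Lb.g g9 (@Lb.g g10 (@Lb.g g7 (@Lb.r r386 (@Lb.r r1128 (@Lb.r r1049 (@Lb.d (nat_lit 328) (nat_lit 68) (nat_lit 616) (@Lb.fm (nat_lit 9) t1150))))))))))
noncomputable def l13421 : Lb := (@Lb.d (nat_lit 10) (nat_lit 256) (nat_lit 0) (@Lb.g g8 (@Lb.r r2085 (@Lb.r r2068 (@Lb.d (nat_lit 516) (nat_lit 130) (nat_lit 0) (@Lb.t (@Lb.fm (nat_lit 3) t2)))))))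
noncomputable def l13422 : Lb := (@Lb.d (nat_lit 0) (nat_lit 548) (nat_lit 64) (@Lb.g g9 (@Lb.g g10 (@Lb.g g11 (@Lb.r r1447 (@Lb.r r578 (@Lb.r r1429 (@Lb.r r36 (@Lb.d (nat_lit 356) (nat_lit 169) (nat_lit 617) (@Lb.t (@Lb.fm (nat_lit 9) t898)))))))))))
noncomputable def l13423 : Lb := (@Lb.d (nat_lit 0) (nat_lit 10) (nat_lit 0) (@Lb.g g8 (@Lb.g g9 (@Lb.g g11 (@Lb.r r1683 (@Lb.r r594 (@Lb.r r2449 (@Lb.d (nat_lit 0) (nat_lit 154) (nat_lit 408) (@Lb.t (@Lb.fp (nat_lit 9) t386))))))))))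
noncomputable def l13424 : Lb := (@Lb.d (nat_lit 0) (nat_lit 522) (nat_lit 64) (@Lb.g g8 (@Lb.g g9 (@Lb.g g11 (@Lb.r r1683 (@Lb.r r594 (@Lb.r r2449 (@Lb.d (nat_lit 0) (nat_lit 154) (nat_lit 408) (@Lb.t (@Lb.fp (nat_lit 9) t386))))))))))
noncomputable def l13425 : Lb := (@Lb.r r323 (@Lb.d (nat_lit 1) (nat_lit 516) (nat_lit 0) (@Lb.g g8 (@Lb.g g9 (@Lb.g g10 (@Lb.r r401 (@Lb.r r299 (@Lb.r r392 (@Lb.r r74 (@Lb.d (nat_lit 33) (nat_lit 0) (nat_lit 136) (@Lb.t (@Lb.fp (nat_lit 9) t601))))))))))))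
noncomputable def l13426 : Lb := (@Lb.r r82 (@Lb.d (nat_lit 34) (nat_lit 0) (nat_lit 136) (@Lb.g g8 (@Lb.g g9 (@Lb.g g11 (@Lb.r r617 (@Lb.r r150 (@Lb.r r356 (@Lb.r r395 (@Lb.d (nat_lit 128) (nat_lit 41) (nat_lit 146) (@Lb.t (@Lb.fm (nat_lit 9) t1541))))))))))))
noncomputable def l13427 : Lb := (@Lb.r r82 (@Lb.d (nat_lit 8) (nat_lit 289) (nat_lit 64) (@Lb.g g8 (@Lb.g g9 (@Lb.g g11 (@Lb.r r2466 (@Lb.r r2593 (@Lb.r r2471 (@Lb.r r1556 (@Lb.d (nat_lit 130) (nat_lit 106) (nat_lit 672) (@Lb.t (@Lb.fm (nat_lit 9) t196))))))))))))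
noncomputable def l13428 : Lb := (@Lb.r r82 (@Lb.d (nat_lit 0) (nat_lit 384) (nat_lit 128) (@Lb.g g9 (@Lb.g g11 (@Lb.r r419 (@Lb.r r98 (@Lb.d (nat_lit 0) (nat_lit 69) (nat_lit 10) (@Lb.fm (nat_lit 3) t28))))))))
noncomputable def l13429 : Lb := (@Lb.r r323 (@Lb.d (nat_lit 0) (nat_lit 10) (nat_lit 0) (@Lb.g g9 (@Lb.g g6 (@Lb.r r387 (@Lb.r r101 (@Lb.r r24 (@Lb.d (nat_lit 32) (nat_lit 0) (nat_lit 2) (@Lb.fp (nat_lit 3) t74)))))))))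
noncomputable def l13430 : Lb := (@Lb.d (nat_lit 2) (nat_lit 256) (nat_lit 66) (@Lb.g g8 (@Lb.g g9 (@Lb.g g10 (@Lb.g g7 (@Lb.r r386 (@Lb.r r20 (@Lb.r r105 (@Lb.r r36 (@Lb.d (nat_lit 1) (nat_lit 10) (nat_lit 9) (@Lb.fm (nat_lit 9) t167)))))))))))
noncomputable def l13431 : Lb := (@Lb.d (nat_lit 2) (nat_lit 9) (nat_lit 129) (@Lb.g g8 (@Lb.g g9 (@Lb.g g10 (@Lb.g g11 (@Lb.r r427 (@Lb.r r388 (@Lb.r r70 (@Lb.r r153 (@Lb.r r132 (@Lb.d (nat_lit 4) (nat_lit 72) (nat_lit 153) (@Lb.fp (nat_lit 9) t411))))))))))))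
noncomputable def l13432 : Lb := (@Lb.r r82 (@Lb.d (nat_lit 2) (nat_lit 258) (nat_lit 128) (@Lb.g g8 (@Lb.g g9 (@Lb.g g11 (@Lb.r r299 (@Lb.r r296 (@Lb.r r89 (@Lb.r r98 (@Lb.d (nat_lit 22) (nat_lit 8) (nat_lit 138) (@Lb.t (@Lb.fp (nat_lit 9) t546))))))))))))
noncomputable def l13433 : Lb := (@Lb.d (nat_lit 0) (nat_lit 2) (nat_lit 129) (@Lb.g g8 (@Lb.g g9 (@Lb.g g10 (@Lb.g g11 (@Lb.r r2475 (@Lb.r r2193 (@Lb.r r356 (@Lb.r r154 (@Lb.r r1156 (@Lb.d (nat_lit 265) (nat_lit 130) (nat_lit 2) (@Lb.fm (nat_lit 9) t61))))))))))))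
noncomputable def l13434 : Lb := (@Lb.d (nat_lit 134) (nat_lit 266) (nat_lit 70) (@Lb.r r584 (@Lb.r r82 (@Lb.r r347 (@Lb.g g9 (@Lb.g g4 (@Lb.d (nat_lit 66) (nat_lit 22) (nat_lit 0) (@Lb.r r98 (@Lb.fm (nat_lit 3) t1504)))))))))
noncomputable def l13435 : Lb := (@Lb.r r82 (@Lb.d (nat_lit 8) (nat_lit 16) (nat_lit 132) (@Lb.g g9 (@Lb.g g7 (@Lb.r r2470 (@Lb.r r1620 (@Lb.r r2345 (@Lb.d (nat_lit 40) (nat_lit 96) (nat_lit 546) (@Lb.fp (nat_lit 3) t2965)))))))))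
noncomputable def l13436 : Lb := (@Lb.d (nat_lit 134) (nat_lit 514) (nat_lit 101) (@Lb.r r584 (@Lb.r r82 (@Lb.r r347 (@Lb.g g9 (@Lb.g g4 (@Lb.d (nat_lit 65) (nat_lit 146) (nat_lit 0) (@Lb.r r98 (@Lb.fm (nat_lit 3) t2858)))))))))
noncomputable def l13437 : Lb := (@Lb.r r82 (@Lb.d (nat_lit 8) (nat_lit 258) (nat_lit 580) (@Lb.g g9 (@Lb.g g7 (@Lb.r r422 (@Lb.r r596 (@Lb.r r297 (@Lb.d (nat_lit 553) (nat_lit 42) (nat_lit 33) (@Lb.fp (nat_lit 3) t2966)))))))))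
noncomputable def l13438 : Lb := (@Lb.d (nat_lit 1) (nat_lit 361) (nat_lit 618) (@Lb.r r105 (@Lb.r r36 (@Lb.r r323 (@Lb.g g7 (@Lb.g g6 (@Lb.g g5 (@Lb.d (nat_lit 20) (nat_lit 8) (nat_lit 96) (@Lb.t (@Lb.fm (nat_lit 9) t2967))))))))))
noncomputable def l13439 : Lb := (@Lb.d (nat_lit 134) (nat_lit 258) (nat_lit 101) (@Lb.r r584 (@Lb.r r82 (@Lb.r r347 (@Lb.g g9 (@Lb.g g4 (@Lb.d (nat_lit 66) (nat_lit 146) (nat_lit 0) (@Lb.r r98 (@Lb.fm (nat_lit 3) t2858)))))))))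
noncomputable def l13440 : Lb := (@Lb.r r82 (@Lb.d (nat_lit 8) (nat_lit 2) (nat_lit 580) (@Lb.g g9 (@Lb.g g7 (@Lb.r r422 (@Lb.r r596 (@Lb.r r297 (@Lb.d (nat_lit 553) (nat_lit 32) (nat_lit 34) (@Lb.fp (nat_lit 3) t2966)))))))))
noncomputable def l13441 : Lb := (@Lb.d (nat_lit 2) (nat_lit 2) (nat_lit 130) (@Lb.g g8 (@Lb.g g9 (@Lb.g g10 (@Lb.g g11 (@Lb.r r427 (@Lb.r r420 (@Lb.r r102 (@Lb.r r21 (@Lb.r r36 (@Lb.d (nat_lit 26) (nat_lit 9) (nat_lit 2) (@Lb.fp (nat_lit 9) t61))))))))))))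
noncomputable def l13442 : Lb := (@Lb.d (nat_lit 2) (nat_lit 514) (nat_lit 73) (@Lb.g g8 (@Lb.g g9 (@Lb.g g10 (@Lb.g g11 (@Lb.r r427 (@Lb.r r420 (@Lb.r r102 (@Lb.r r21 (@Lb.r r36 (@Lb.d (nat_lit 26) (nat_lit 9) (nat_lit 137) (@Lb.fp (nat_lit 9) t61))))))))))))
noncomputable def l13443 : Lb := (@Lb.r r323 (@Lb.d (nat_lit 2) (nat_lit 2) (nat_lit 2) (@Lb.g g8 (@Lb.g g9 (@Lb.g g10 (@Lb.r r401 (@Lb.r r299 (@Lb.r r392 (@Lb.r r74 (@Lb.d (nat_lit 38) (nat_lit 1) (nat_lit 1) (@Lb.t (@Lb.fp (nat_lit 9) t61))))))))))))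
noncomputable def l13444 : Lb := (@Lb.r r386 (@Lb.r r1347 (@Lb.r r578 (@Lb.fm (nat_lit 1) t2))))
noncomputable def l13445 : Lb := (@Lb.d (nat_lit 0) (nat_lit 512) (nat_lit 10) (@Lb.g g6 (@Lb.r r2691 (@Lb.r r1666 (@Lb.d (nat_lit 0) (nat_lit 0) (nat_lit 84) (@Lb.t (@Lb.fm (nat_lit 3) t2)))))))
noncomputable def l13446 : Lb := (@Lb.r r82 (@Lb.r r275 (@Lb.d (nat_lit 0) (nat_lit 513) (nat_lit 0) (@Lb.g g5 (@Lb.r r291 (@Lb.r r98 (@Lb.d (nat_lit 0) (nat_lit 2) (nat_lit 64) (@Lb.t (@Lb.fm (nat_lit 3) t2968)))))))))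
noncomputable def l13447 : Lb := (@Lb.r r82 (@Lb.d (nat_lit 4) (nat_lit 98) (nat_lit 0) (@Lb.g g9 (@Lb.r r660 (@Lb.r r407 (@Lb.r r326 (@Lb.r r644 (@Lb.d (nat_lit 0) (nat_lit 82) (nat_lit 282) (@Lb.t (@Lb.fp (nat_lit 3) t2969))))))))))
noncomputable def l13448 : Lb := (@Lb.d (nat_lit 130) (nat_lit 288) (nat_lit 10) (@Lb.g g8 (@Lb.g g9 (@Lb.g g10 (@Lb.r r263 (@Lb.r r584 (@Lb.r r86 (@Lb.r r165 (@Lb.d (nat_lit 642) (nat_lit 16) (nat_lit 34) (@Lb.t (@Lb.fm (nat_lit 9) t516)))))))))))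
noncomputable def l13449 : Lb := (@Lb.d (nat_lit 40) (nat_lit 544) (nat_lit 2) (@Lb.g g9 (@Lb.g g10 (@Lb.r r72 (@Lb.r r598 (@Lb.r r339 (@Lb.r r677 (@Lb.d (nat_lit 576) (nat_lit 18) (nat_lit 102) (@Lb.fm (nat_lit 3) t516)))))))))
noncomputable def l13450 : Lb := (@Lb.d (nat_lit 0) (nat_lit 256) (nat_lit 2) (@Lb.g g9 (@Lb.g g10 (@Lb.r r98 (@Lb.d (nat_lit 0) (nat_lit 9) (nat_lit 64) (@Lb.fm (nat_lit 3) t354))))))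
noncomputable def l13451 : Lb := (@Lb.d (nat_lit 0) (nat_lit 613) (nat_lit 581) (@Lb.r r402 (@Lb.r r323 (@Lb.g g7 (@Lb.g g6 (@Lb.g g9 (@Lb.d (nat_lit 0) (nat_lit 5) (nat_lit 8) (@Lb.t (@Lb.fp (nat_lit 9) t2970)))))))))
noncomputable def l13452 : Lb := (@Lb.d (nat_lit 0) (nat_lit 106) (nat_lit 582) (@Lb.r r402 (@Lb.r r323 (@Lb.g g7 (@Lb.g g6 (@Lb.g g9 (@Lb.d (nat_lit 0) (nat_lit 5) (nat_lit 65) (@Lb.t (@Lb.fp (nat_lit 9) t2971)))))))))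
noncomputable def l13453 : Lb := (@Lb.r r82 (@Lb.r r275 (@Lb.d (nat_lit 2) (nat_lit 520) (nat_lit 0) (@Lb.g g8 (@Lb.g g9 (@Lb.r r2315 (@Lb.r r402 (@Lb.r r601 (@Lb.d (nat_lit 153) (nat_lit 38) (nat_lit 354) (@Lb.fp (nat_lit 3) t2972))))))))))
noncomputable def l13454 : Lb := (@Lb.d (nat_lit 0) (nat_lit 512) (nat_lit 66) (@Lb.g g10 (@Lb.g g11 (@Lb.r r642 (@Lb.r r387 (@Lb.d (nat_lit 0) (nat_lit 0) (nat_lit 89) (@Lb.fp (nat_lit 3) t2)))))))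
noncomputable def l13455 : Lb := (@Lb.d (nat_lit 0) (nat_lit 0) (nat_lit 9) (@Lb.g g10 (@Lb.g g11 (@Lb.r r642 (@Lb.r r387 (@Lb.d (nat_lit 0) (nat_lit 0) (nat_lit 89) (@Lb.fp (nat_lit 3) t2)))))))
noncomputable def l13456 : Lb := (@Lb.d (nat_lit 8) (nat_lit 265) (nat_lit 66) (@Lb.g g9 (@Lb.g g10 (@Lb.g g11 (@Lb.r r610 (@Lb.r r1611 (@Lb.r r24 (@Lb.r r101 (@Lb.d (nat_lit 409) (nat_lit 169) (nat_lit 322) (@Lb.t (@Lb.fp (nat_lit 9) t1783)))))))))))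
noncomputable def l13457 : Lb := (@Lb.d (nat_lit 0) (nat_lit 38) (nat_lit 0) (@Lb.g g9 (@Lb.r r535 (@Lb.r r328 (@Lb.r r134 (@Lb.d (nat_lit 17) (nat_lit 2) (nat_lit 64) (@Lb.t (@Lb.fm (nat_lit 3) t263))))))))
noncomputable def l13458 : Lb := (@Lb.d (nat_lit 2) (nat_lit 517) (nat_lit 74) (@Lb.g g8 (@Lb.g g5 (@Lb.g g10 (@Lb.g g11 (@Lb.r r659 (@Lb.r r578 (@Lb.d (nat_lit 0) (nat_lit 25) (nat_lit 137) (@Lb.fp (nat_lit 9) t50)))))))))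
noncomputable def l13459 : Lb := (@Lb.d (nat_lit 0) (nat_lit 2) (nat_lit 64) (@Lb.g g8 (@Lb.g g9 (@Lb.g g11 (@Lb.r r516 (@Lb.r r263 (@Lb.r r146 (@Lb.r r97 (@Lb.r r516 (@Lb.d (nat_lit 1) (nat_lit 1) (nat_lit 130) (@Lb.t (@Lb.fm (nat_lit 9) t44))))))))))))
noncomputable def l13460 : Lb := (@Lb.d (nat_lit 2) (nat_lit 264) (nat_lit 74) (@Lb.g g8 (@Lb.g g10 (@Lb.g g11 (@Lb.r r357 (@Lb.r r407 (@Lb.r r326 (@Lb.d (nat_lit 81) (nat_lit 10) (nat_lit 133) (@Lb.t (@Lb.fp (nat_lit 9) t145))))))))))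
noncomputable def l13461 : Lb := (@Lb.d (nat_lit 130) (nat_lit 514) (nat_lit 0) (@Lb.g g8 (@Lb.g g9 (@Lb.r r263 (@Lb.r r146 (@Lb.r r97 (@Lb.r r520 (@Lb.d (nat_lit 66) (nat_lit 1) (nat_lit 130) (@Lb.fp (nat_lit 3) t44)))))))))
noncomputable def l13462 : Lb := (@Lb.d (nat_lit 528) (nat_lit 0) (nat_lit 553) (@Lb.r r24 (@Lb.r r2650 (@Lb.r r405 (@Lb.r r355 (@Lb.g g7 (@Lb.g g6 (@Lb.d (nat_lit 0) (nat_lit 4) (nat_lit 64) (@Lb.fp (nat_lit 3) t927)))))))))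
noncomputable def l13463 : Lb := (@Lb.d (nat_lit 38) (nat_lit 548) (nat_lit 66) (@Lb.g g8 (@Lb.g g9 (@Lb.g g10 (@Lb.g g11 (@Lb.r r2659 (@Lb.r r1606 (@Lb.r r1177 (@Lb.r r392 (@Lb.d (nat_lit 408) (nat_lit 32) (nat_lit 330) (@Lb.fp (nat_lit 9) t2408)))))))))))
noncomputable def l13464 : Lb := (@Lb.d (nat_lit 0) (nat_lit 85) (nat_lit 345) (@Lb.r r2401 (@Lb.r r1431 (@Lb.r r584 (@Lb.r r402 (@Lb.g g7 (@Lb.g g5 (@Lb.d (nat_lit 4) (nat_lit 5) (nat_lit 0) (@Lb.fp (nat_lit 3) t2363)))))))))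
noncomputable def l13465 : Lb := (@Lb.d (nat_lit 2) (nat_lit 290) (nat_lit 0) (@Lb.r r1299 (@Lb.r r533 (@Lb.r r360 (@Lb.r r598 (@Lb.g g11 (@Lb.g g5 (@Lb.r r98 (@Lb.fm (nat_lit 3) t865)))))))))
noncomputable def l13466 : Lb := (@Lb.d (nat_lit 518) (nat_lit 80) (nat_lit 512) (@Lb.r r281 (@Lb.r r404 (@Lb.r r614 (@Lb.r r2643 (@Lb.g g7 (@Lb.g g5 (@Lb.d (nat_lit 0) (nat_lit 18) (nat_lit 128) (@Lb.r r98 (@Lb.fp (nat_lit 3) t803))))))))))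
noncomputable def l13467 : Lb := (@Lb.d (nat_lit 0) (nat_lit 550) (nat_lit 70) (@Lb.r r322 (@Lb.r r659 (@Lb.g g6 (@Lb.g g9 (@Lb.g g4 (@Lb.d (nat_lit 0) (nat_lit 10) (nat_lit 0) (@Lb.t (@Lb.fp (nat_lit 9) t546)))))))))
noncomputable def l13468 : Lb := (@Lb.d (nat_lit 0) (nat_lit 38) (nat_lit 70) (@Lb.r r322 (@Lb.r r659 (@Lb.g g7 (@Lb.g g6 (@Lb.g g9 (@Lb.g g4 (@Lb.d (nat_lit 0) (nat_lit 10) (nat_lit 64) (@Lb.fp (nat_lit 9) t1176)))))))))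
noncomputable def l13469 : Lb := (@Lb.d (nat_lit 1) (nat_lit 33) (nat_lit 130) (@Lb.g g8 (@Lb.g g9 (@Lb.g g10 (@Lb.g g11 (@Lb.r r683 (@Lb.r r1642 (@Lb.r r1561 (@Lb.d (nat_lit 585) (nat_lit 105) (nat_lit 273) (@Lb.fm (nat_lit 9) t919))))))))))
noncomputable def l13470 : Lb := (@Lb.d (nat_lit 0) (nat_lit 257) (nat_lit 130) (@Lb.g g9 (@Lb.g g10 (@Lb.g g11 (@Lb.r r2713 (@Lb.r r2587 (@Lb.r r386 (@Lb.r r2564 (@Lb.d (nat_lit 388) (nat_lit 146) (nat_lit 329) (@Lb.t (@Lb.fm (nat_lit 9) t2973)))))))))))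
noncomputable def l13471 : Lb := (@Lb.d (nat_lit 1) (nat_lit 545) (nat_lit 130) (@Lb.g g8 (@Lb.g g9 (@Lb.g g10 (@Lb.g g11 (@Lb.r r683 (@Lb.r r1642 (@Lb.r r1561 (@Lb.d (nat_lit 586) (nat_lit 105) (nat_lit 273) (@Lb.fm (nat_lit 9) t919))))))))))
noncomputable def l13472 : Lb := (@Lb.d (nat_lit 280) (nat_lit 133) (nat_lit 409) (@Lb.r r1431 (@Lb.r r2438 (@Lb.r r1620 (@Lb.g g7 (@Lb.g g5 (@Lb.d (nat_lit 64) (nat_lit 25) (nat_lit 64) (@Lb.fp (nat_lit 3) t2522))))))))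
noncomputable def l13473 : Lb := (@Lb.r r82 (@Lb.d (nat_lit 33) (nat_lit 2) (nat_lit 580) (@Lb.g g8 (@Lb.g g9 (@Lb.g g7 (@Lb.r r1385 (@Lb.r r150 (@Lb.r r100 (@Lb.d (nat_lit 89) (nat_lit 10) (nat_lit 297) (@Lb.t (@Lb.fp (nat_lit 9) t1159)))))))))))
noncomputable def l13474 : Lb := (@Lb.r r21 (@Lb.d (nat_lit 514) (nat_lit 256) (nat_lit 0) (@Lb.g g8 (@Lb.r r293 (@Lb.r r1371 (@Lb.r r2178 (@Lb.r r2577 (@Lb.d (nat_lit 578) (nat_lit 0) (nat_lit 528) (@Lb.t (@Lb.fp (nat_lit 3) t222))))))))))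
noncomputable def l13475 : Lb := (@Lb.g g4 (@Lb.g g9 (@Lb.r r134 (@Lb.r r328 (@Lb.r r535 (@Lb.r r289 (@Lb.d (nat_lit 0) (nat_lit 517) (nat_lit 1) (@Lb.fp (nat_lit 3) t51))))))))
noncomputable def l13476 : Lb := (@Lb.r r597 (@Lb.r r535 (@Lb.r r328 (@Lb.r r134 (@Lb.d (nat_lit 256) (nat_lit 0) (nat_lit 512) (@Lb.fm (nat_lit 1) t221))))))
noncomputable def l13477 : Lb := (@Lb.r r82 (@Lb.d (nat_lit 34) (nat_lit 2) (nat_lit 580) (@Lb.g g8 (@Lb.g g9 (@Lb.g g7 (@Lb.r r1385 (@Lb.r r150 (@Lb.r r100 (@Lb.d (nat_lit 88) (nat_lit 10) (nat_lit 297) (@Lb.t (@Lb.fp (nat_lit 9) t739)))))))))))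
noncomputable def l13478 : Lb := (@Lb.r r1114 (@Lb.r r20 (@Lb.r r1049 (@Lb.d (nat_lit 577) (nat_lit 64) (nat_lit 512) (@Lb.fp (nat_lit 1) t282)))))
noncomputable def l13479 : Lb := (@Lb.d (nat_lit 104) (nat_lit 288) (nat_lit 5) (@Lb.r r101 (@Lb.r r386 (@Lb.r r339 (@Lb.g g7 (@Lb.g g6 (@Lb.d (nat_lit 0) (nat_lit 0) (nat_lit 65) (@Lb.fm (nat_lit 3) t1531))))))))
noncomputable def l13480 : Lb := (@Lb.d (nat_lit 104) (nat_lit 549) (nat_lit 72) (@Lb.r r101 (@Lb.r r386 (@Lb.r r339 (@Lb.g g7 (@Lb.g g6 (@Lb.d (nat_lit 0) (nat_lit 0) (nat_lit 65) (@Lb.fm (nat_lit 3) t50))))))))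
noncomputable def l13481 : Lb := (@Lb.d (nat_lit 166) (nat_lit 276) (nat_lit 65) (@Lb.r r101 (@Lb.r r418 (@Lb.r r355 (@Lb.g g7 (@Lb.g g6 (@Lb.d (nat_lit 0) (nat_lit 0) (nat_lit 66) (@Lb.fm (nat_lit 3) t50))))))))
noncomputable def l13482 : Lb := (@Lb.r r154 (@Lb.r r664 (@Lb.r r411 (@Lb.r r609 (@Lb.r r36 (@Lb.d (nat_lit 0) (nat_lit 273) (nat_lit 10) (@Lb.fm (nat_lit 1) t44)))))))
noncomputable def l13483 : Lb := (@Lb.r r322 (@Lb.d (nat_lit 40) (nat_lit 2) (nat_lit 576) (@Lb.g g8 (@Lb.g g9 (@Lb.g g7 (@Lb.r r2409 (@Lb.r r150 (@Lb.r r1384 (@Lb.d (nat_lit 36) (nat_lit 170) (nat_lit 545) (@Lb.t (@Lb.fm (nat_lit 9) t242)))))))))))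
noncomputable def l13484 : Lb := (@Lb.d (nat_lit 129) (nat_lit 260) (nat_lit 128) (@Lb.g g8 (@Lb.g g9 (@Lb.g g10 (@Lb.g g11 (@Lb.r r419 (@Lb.r r344 (@Lb.r r1429 (@Lb.r r1110 (@Lb.r r2212 (@Lb.d (nat_lit 38) (nat_lit 106) (nat_lit 673) (@Lb.fm (nat_lit 9) t1137))))))))))))
noncomputable def l13485 : Lb := (@Lb.d (nat_lit 9) (nat_lit 290) (nat_lit 0) (@Lb.g g8 (@Lb.g g9 (@Lb.r r2404 (@Lb.r r2331 (@Lb.r r2178 (@Lb.r r1685 (@Lb.d (nat_lit 644) (nat_lit 106) (nat_lit 594) (@Lb.fp (nat_lit 3) t307)))))))))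
noncomputable def l13486 : Lb := (@Lb.d (nat_lit 32) (nat_lit 0) (nat_lit 2) (@Lb.g g6 (@Lb.r r168 (@Lb.r r1193 (@Lb.r r2218 (@Lb.d (nat_lit 25) (nat_lit 72) (nat_lit 18) (@Lb.t (@Lb.fp (nat_lit 3) t2974))))))))
noncomputable def l13487 : Lb := (@Lb.r r21 (@Lb.d (nat_lit 146) (nat_lit 256) (nat_lit 66) (@Lb.g g8 (@Lb.g g10 (@Lb.g g11 (@Lb.r r1707 (@Lb.r r2129 (@Lb.r r2666 (@Lb.r r1636 (@Lb.d (nat_lit 296) (nat_lit 90) (nat_lit 392) (@Lb.t (@Lb.fp (nat_lit 9) t148))))))))))))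
noncomputable def l13488 : Lb := (@Lb.d (nat_lit 2) (nat_lit 2) (nat_lit 130) (@Lb.g g8 (@Lb.g g9 (@Lb.g g10 (@Lb.g g11 (@Lb.r r2691 (@Lb.r r536 (@Lb.r r2197 (@Lb.r r2646 (@Lb.r r164 (@Lb.d (nat_lit 136) (nat_lit 2) (nat_lit 362) (@Lb.fp (nat_lit 9) t991))))))))))))
noncomputable def l13489 : Lb := (@Lb.d (nat_lit 2) (nat_lit 2) (nat_lit 130) (@Lb.g g8 (@Lb.g g9 (@Lb.g g10 (@Lb.g g11 (@Lb.r r2705 (@Lb.r r535 (@Lb.r r2440 (@Lb.r r2122 (@Lb.d (nat_lit 289) (nat_lit 10) (nat_lit 136) (@Lb.fp (nat_lit 9) t221)))))))))))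
noncomputable def l13490 : Lb := (@Lb.d (nat_lit 0) (nat_lit 2) (nat_lit 130) (@Lb.g g8 (@Lb.g g9 (@Lb.g g10 (@Lb.g g11 (@Lb.r r610 (@Lb.r r1607 (@Lb.r r292 (@Lb.r r1045 (@Lb.r r2084 (@Lb.d (nat_lit 9) (nat_lit 168) (nat_lit 642) (@Lb.fm (nat_lit 9) t2815))))))))))))
noncomputable def l13491 : Lb := (@Lb.d (nat_lit 2) (nat_lit 514) (nat_lit 130) (@Lb.g g8 (@Lb.g g9 (@Lb.g g10 (@Lb.g g11 (@Lb.r r2705 (@Lb.r r535 (@Lb.r r2440 (@Lb.r r2122 (@Lb.d (nat_lit 289) (nat_lit 0) (nat_lit 137) (@Lb.fp (nat_lit 9) t221)))))))))))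
noncomputable def l13492 : Lb := (@Lb.d (nat_lit 0) (nat_lit 1) (nat_lit 130) (@Lb.g g8 (@Lb.g g9 (@Lb.g g10 (@Lb.g g11 (@Lb.r r409 (@Lb.r r1383 (@Lb.r r2730 (@Lb.r r1105 (@Lb.r r1608 (@Lb.d (nat_lit 361) (nat_lit 65) (nat_lit 162) (@Lb.fp (nat_lit 9) t282))))))))))))
noncomputable def l13493 : Lb := (@Lb.g g10 (@Lb.r r2579 (@Lb.r r2341 (@Lb.r r2136 (@Lb.r r1158 (@Lb.d (nat_lit 9) (nat_lit 2) (nat_lit 0) (@Lb.t (@Lb.fp (nat_lit 3) t669))))))))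
noncomputable def l13494 : Lb := (@Lb.d (nat_lit 674) (nat_lit 256) (nat_lit 329) (@Lb.r r21 (@Lb.r r1410 (@Lb.r r327 (@Lb.g g7 (@Lb.g g6 (@Lb.g g4 (@Lb.d (nat_lit 32) (nat_lit 0) (nat_lit 133) (@Lb.r r25 (@Lb.t (@Lb.fm (nat_lit 9) t560)))))))))))
noncomputable def l13495 : Lb := (@Lb.g g10 (@Lb.r r2579 (@Lb.r r2341 (@Lb.r r2136 (@Lb.r r1158 (@Lb.d (nat_lit 9) (nat_lit 516) (nat_lit 1) (@Lb.t (@Lb.fp (nat_lit 3) t669))))))))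
noncomputable def l13496 : Lb := (@Lb.d (nat_lit 656) (nat_lit 512) (nat_lit 0) (@Lb.g g8 (@Lb.g g10 (@Lb.r r1347 (@Lb.r r1602 (@Lb.d (nat_lit 0) (nat_lit 0) (nat_lit 400) (@Lb.fm (nat_lit 3) t997)))))))
noncomputable def l13497 : Lb := (@Lb.d (nat_lit 2) (nat_lit 514) (nat_lit 130) (@Lb.g g8 (@Lb.g g9 (@Lb.g g10 (@Lb.g g11 (@Lb.r r427 (@Lb.r r420 (@Lb.r r102 (@Lb.r r21 (@Lb.r r36 (@Lb.d (nat_lit 521) (nat_lit 4) (nat_lit 168) (@Lb.fp (nat_lit 9) t221))))))))))))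
noncomputable def l13498 : Lb := (@Lb.d (nat_lit 0) (nat_lit 514) (nat_lit 2) (@Lb.g g9 (@Lb.g g10 (@Lb.g g7 (@Lb.r r417 (@Lb.r r98 (@Lb.d (nat_lit 0) (nat_lit 73) (nat_lit 644) (@Lb.t (@Lb.fm (nat_lit 9) t2975)))))))))
noncomputable def l13499 : Lb := (@Lb.r r323 (@Lb.d (nat_lit 2) (nat_lit 34) (nat_lit 2) (@Lb.g g8 (@Lb.g g9 (@Lb.g g10 (@Lb.r r599 (@Lb.r r1122 (@Lb.r r2436 (@Lb.d (nat_lit 320) (nat_lit 137) (nat_lit 514) (@Lb.t (@Lb.fp (nat_lit 9) t2103)))))))))))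
noncomputable def l13500 : Lb := (@Lb.d (nat_lit 2) (nat_lit 2) (nat_lit 130) (@Lb.g g8 (@Lb.g g9 (@Lb.g g10 (@Lb.g g11 (@Lb.r r169 (@Lb.r r296 (@Lb.r r391 (@Lb.r r386 (@Lb.r r132 (@Lb.d (nat_lit 2) (nat_lit 10) (nat_lit 146) (@Lb.fm (nat_lit 9) t590))))))))))))
noncomputable def l13501 : Lb := (@Lb.d (nat_lit 0) (nat_lit 264) (nat_lit 2) (@Lb.g g10 (@Lb.r r101 (@Lb.r r1114 (@Lb.d (nat_lit 362) (nat_lit 102) (nat_lit 274) (@Lb.t (@Lb.fm (nat_lit 3) t414)))))))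
noncomputable def l13502 : Lb := (@Lb.r r70 (@Lb.r r263 (@Lb.d (nat_lit 0) (nat_lit 2) (nat_lit 0) (@Lb.g g8 (@Lb.g g9 (@Lb.r r299 (@Lb.r r106 (@Lb.r r97 (@Lb.r r148 (@Lb.d (nat_lit 294) (nat_lit 10) (nat_lit 34) (@Lb.fp (nat_lit 3) t2453)))))))))))
noncomputable def l13503 : Lb := (@Lb.r r21 (@Lb.r r70 (@Lb.r r263 (@Lb.g g8 (@Lb.r r267 (@Lb.r r74 (@Lb.r r97 (@Lb.d (nat_lit 258) (nat_lit 512) (nat_lit 32) (@Lb.t (@Lb.fm (nat_lit 3) t2453))))))))))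
noncomputable def l13504 : Lb := (@Lb.d (nat_lit 40) (nat_lit 2) (nat_lit 73) (@Lb.g g9 (@Lb.g g10 (@Lb.g g11 (@Lb.r r2695 (@Lb.r r1352 (@Lb.r r2390 (@Lb.r r409 (@Lb.d (nat_lit 138) (nat_lit 137) (nat_lit 329) (@Lb.t (@Lb.fm (nat_lit 9) t1097)))))))))))
noncomputable def l13505 : Lb := (@Lb.d (nat_lit 1) (nat_lit 258) (nat_lit 73) (@Lb.g g8 (@Lb.g g9 (@Lb.g g10 (@Lb.g g11 (@Lb.r r1706 (@Lb.r r648 (@Lb.r r1563 (@Lb.r r2337 (@Lb.r r36 (@Lb.d (nat_lit 650) (nat_lit 102) (nat_lit 65) (@Lb.fp (nat_lit 9) t1412))))))))))))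
noncomputable def l13506 : Lb := (@Lb.d (nat_lit 2) (nat_lit 514) (nat_lit 73) (@Lb.g g8 (@Lb.g g9 (@Lb.g g10 (@Lb.g g11 (@Lb.r r1706 (@Lb.r r648 (@Lb.r r1563 (@Lb.r r2337 (@Lb.r r36 (@Lb.d (nat_lit 650) (nat_lit 104) (nat_lit 66) (@Lb.fp (nat_lit 9) t1412))))))))))))
noncomputable def l13507 : Lb := (@Lb.r r70 (@Lb.d (nat_lit 4) (nat_lit 0) (nat_lit 128) (@Lb.g g8 (@Lb.g g9 (@Lb.g g11 (@Lb.r r2698 (@Lb.r r2601 (@Lb.r r2475 (@Lb.r r2440 (@Lb.d (nat_lit 280) (nat_lit 137) (nat_lit 153) (@Lb.t (@Lb.fp (nat_lit 9) t597))))))))))))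
noncomputable def l13508 : Lb := (@Lb.d (nat_lit 2) (nat_lit 514) (nat_lit 130) (@Lb.g g8 (@Lb.g g9 (@Lb.g g10 (@Lb.g g11 (@Lb.r r2705 (@Lb.r r535 (@Lb.r r2440 (@Lb.r r2122 (@Lb.d (nat_lit 289) (nat_lit 10) (nat_lit 1) (@Lb.fp (nat_lit 9) t221)))))))))))
noncomputable def l13509 : Lb := (@Lb.d (nat_lit 8) (nat_lit 514) (nat_lit 130) (@Lb.g g9 (@Lb.g g10 (@Lb.g g11 (@Lb.r r419 (@Lb.r r98 (@Lb.r r24 (@Lb.r r101 (@Lb.d (nat_lit 21) (nat_lit 137) (nat_lit 169) (@Lb.t (@Lb.fm (nat_lit 9) t232)))))))))))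
noncomputable def l13510 : Lb := (@Lb.d (nat_lit 2) (nat_lit 514) (nat_lit 2) (@Lb.g g8 (@Lb.g g9 (@Lb.g g10 (@Lb.r r2705 (@Lb.r r535 (@Lb.r r2440 (@Lb.r r2122 (@Lb.d (nat_lit 528) (nat_lit 10) (nat_lit 170) (@Lb.t (@Lb.fm (nat_lit 9) t221)))))))))))
noncomputable def l13511 : Lb := (@Lb.d (nat_lit 0) (nat_lit 0) (nat_lit 128) (@Lb.g g10 (@Lb.g g11 (@Lb.r r2626 (@Lb.r r579 (@Lb.d (nat_lit 0) (nat_lit 0) (nat_lit 512) (@Lb.fp (nat_lit 3) t2)))))))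
noncomputable def l13512 : Lb := (@Lb.d (nat_lit 0) (nat_lit 264) (nat_lit 74) (@Lb.g g10 (@Lb.g g11 (@Lb.r r403 (@Lb.r r1125 (@Lb.r r90 (@Lb.r r24 (@Lb.d (nat_lit 145) (nat_lit 0) (nat_lit 386) (@Lb.fm (nat_lit 3) t1261)))))))))
noncomputable def l13513 : Lb := (@Lb.d (nat_lit 104) (nat_lit 6) (nat_lit 74) (@Lb.g g8 (@Lb.g g9 (@Lb.g g10 (@Lb.g g11 (@Lb.r r1699 (@Lb.r r1602 (@Lb.r r425 (@Lb.r r420 (@Lb.d (nat_lit 648) (nat_lit 38) (nat_lit 598) (@Lb.fp (nat_lit 9) t2318)))))))))))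
noncomputable def l13514 : Lb := (@Lb.r r82 (@Lb.d (nat_lit 2) (nat_lit 2) (nat_lit 128) (@Lb.g g8 (@Lb.g g9 (@Lb.g g11 (@Lb.r r657 (@Lb.r r1687 (@Lb.r r146 (@Lb.r r2436 (@Lb.d (nat_lit 353) (nat_lit 5) (nat_lit 544) (@Lb.t (@Lb.fm (nat_lit 9) t460))))))))))))
noncomputable def l13515 : Lb := (@Lb.d (nat_lit 2) (nat_lit 2) (nat_lit 33) (@Lb.g g8 (@Lb.g g9 (@Lb.g g6 (@Lb.r r97 (@Lb.r r24 (@Lb.d (nat_lit 10) (nat_lit 9) (nat_lit 18) (@Lb.t (@Lb.fp (nat_lit 9) t40)))))))))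
noncomputable def l13516 : Lb := (@Lb.g g10 (@Lb.g g7 (@Lb.r r579 (@Lb.d (nat_lit 0) (nat_lit 512) (nat_lit 101) (@Lb.fm (nat_lit 3) t2)))))
noncomputable def l13517 : Lb := (@Lb.d (nat_lit 2) (nat_lit 2) (nat_lit 130) (@Lb.g g8 (@Lb.g g9 (@Lb.g g10 (@Lb.g g11 (@Lb.r r610 (@Lb.r r1607 (@Lb.r r2457 (@Lb.r r2436 (@Lb.d (nat_lit 330) (nat_lit 4) (nat_lit 545) (@Lb.fm (nat_lit 9) t2103)))))))))))
noncomputable def l13518 : Lb := (@Lb.d (nat_lit 2) (nat_lit 514) (nat_lit 130) (@Lb.g g8 (@Lb.g g9 (@Lb.g g10 (@Lb.g g11 (@Lb.r r610 (@Lb.r r1607 (@Lb.r r2457 (@Lb.r r2436 (@Lb.d (nat_lit 324) (nat_lit 132) (nat_lit 545) (@Lb.fm (nat_lit 9) t993)))))))))))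
noncomputable def l13519 : Lb := (@Lb.d (nat_lit 8) (nat_lit 290) (nat_lit 2) (@Lb.g g9 (@Lb.g g10 (@Lb.r r536 (@Lb.r r283 (@Lb.r r2122 (@Lb.r r661 (@Lb.d (nat_lit 644) (nat_lit 37) (nat_lit 42) (@Lb.fp (nat_lit 3) t564)))))))))
noncomputable def l13520 : Lb := (@Lb.d (nat_lit 8) (nat_lit 258) (nat_lit 0) (@Lb.g g9 (@Lb.g g7 (@Lb.d (nat_lit 2) (nat_lit 10) (nat_lit 68) (@Lb.fp (nat_lit 3) t21)))))
noncomputable def l13521 : Lb := (@Lb.d (nat_lit 0) (nat_lit 522) (nat_lit 0) (@Lb.g g9 (@Lb.r r2198 (@Lb.r r1377 (@Lb.r r24 (@Lb.d (nat_lit 26) (nat_lit 169) (nat_lit 82) (@Lb.t (@Lb.fm (nat_lit 3) t2976))))))))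
noncomputable def l13522 : Lb := (@Lb.d (nat_lit 8) (nat_lit 337) (nat_lit 576) (@Lb.r r281 (@Lb.r r359 (@Lb.r r664 (@Lb.r r586 (@Lb.g g5 (@Lb.g g4 (@Lb.d (nat_lit 0) (nat_lit 5) (nat_lit 0) (@Lb.fp (nat_lit 3) t573)))))))))
noncomputable def l13523 : Lb := (@Lb.d (nat_lit 1) (nat_lit 388) (nat_lit 64) (@Lb.r r609 (@Lb.r r619 (@Lb.r r584 (@Lb.r r326 (@Lb.g g7 (@Lb.g g6 (@Lb.g g5 (@Lb.d (nat_lit 4) (nat_lit 1) (nat_lit 65) (@Lb.t (@Lb.fm (nat_lit 9) t68)))))))))))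
noncomputable def l13524 : Lb := (@Lb.d (nat_lit 10) (nat_lit 325) (nat_lit 641) (@Lb.r r82 (@Lb.r r421 (@Lb.r r24 (@Lb.g g11 (@Lb.g g6 (@Lb.d (nat_lit 0) (nat_lit 0) (nat_lit 1) (@Lb.fp (nat_lit 3) t2977))))))))
noncomputable def l13525 : Lb := (@Lb.r r82 (@Lb.d (nat_lit 129) (nat_lit 514) (nat_lit 128) (@Lb.g g8 (@Lb.g g9 (@Lb.g g11 (@Lb.r r673 (@Lb.r r423 (@Lb.r r2150 (@Lb.r r1156 (@Lb.d (nat_lit 297) (nat_lit 89) (nat_lit 665) (@Lb.t (@Lb.fp (nat_lit 9) t2978))))))))))))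
noncomputable def l13526 : Lb := (@Lb.r r82 (@Lb.d (nat_lit 128) (nat_lit 289) (nat_lit 64) (@Lb.g g8 (@Lb.g g9 (@Lb.g g11 (@Lb.r r555 (@Lb.r r1686 (@Lb.r r2657 (@Lb.r r516 (@Lb.d (nat_lit 288) (nat_lit 1) (nat_lit 21) (@Lb.t (@Lb.fp (nat_lit 9) t2978))))))))))))
noncomputable def l13527 : Lb := (@Lb.r r322 (@Lb.d (nat_lit 9) (nat_lit 18) (nat_lit 68) (@Lb.g g8 (@Lb.g g9 (@Lb.g g11 (@Lb.r r402 (@Lb.r r2725 (@Lb.r r1156 (@Lb.d (nat_lit 294) (nat_lit 9) (nat_lit 88) (@Lb.t (@Lb.fm (nat_lit 9) t2979)))))))))))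
noncomputable def l13528 : Lb := (@Lb.r r323 (@Lb.d (nat_lit 0) (nat_lit 516) (nat_lit 1) (@Lb.g g9 (@Lb.g g10 (@Lb.r r427 (@Lb.r r106 (@Lb.r r97 (@Lb.d (nat_lit 521) (nat_lit 9) (nat_lit 18) (@Lb.fp (nat_lit 3) t2980)))))))))
noncomputable def l13529 : Lb := (@Lb.d (nat_lit 2) (nat_lit 32) (nat_lit 128) (@Lb.g g8 (@Lb.g g11 (@Lb.r r1162 (@Lb.r r401 (@Lb.r r1572 (@Lb.r r1639 (@Lb.d (nat_lit 408) (nat_lit 0) (nat_lit 602) (@Lb.fm (nat_lit 3) t2981)))))))))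
noncomputable def l13530 : Lb := (@Lb.d (nat_lit 128) (nat_lit 288) (nat_lit 128) (@Lb.g g11 (@Lb.r r1369 (@Lb.r r1304 (@Lb.r r2599 (@Lb.r r2178 (@Lb.d (nat_lit 648) (nat_lit 16) (nat_lit 386) (@Lb.t (@Lb.fm (nat_lit 3) t2982)))))))))
noncomputable def l13531 : Lb := (@Lb.d (nat_lit 9) (nat_lit 580) (nat_lit 0) (@Lb.r r2198 (@Lb.r r1096 (@Lb.r r1611 (@Lb.g g6 (@Lb.g g9 (@Lb.d (nat_lit 24) (nat_lit 65) (nat_lit 1) (@Lb.r r403 (@Lb.fm (nat_lit 3) t2983)))))))))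
noncomputable def l13532 : Lb := (@Lb.d (nat_lit 128) (nat_lit 514) (nat_lit 130) (@Lb.g g9 (@Lb.g g10 (@Lb.g g11 (@Lb.r r264 (@Lb.r r519 (@Lb.r r106 (@Lb.r r97 (@Lb.d (nat_lit 666) (nat_lit 9) (nat_lit 148) (@Lb.t (@Lb.fp (nat_lit 9) t2984)))))))))))
noncomputable def l13533 : Lb := (@Lb.d (nat_lit 2) (nat_lit 4) (nat_lit 138) (@Lb.g g8 (@Lb.g g9 (@Lb.g g10 (@Lb.g g11 (@Lb.r r683 (@Lb.r r2666 (@Lb.r r25 (@Lb.d (nat_lit 2) (nat_lit 90) (nat_lit 537) (@Lb.fm (nat_lit 9) t2985))))))))))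
noncomputable def l13534 : Lb := (@Lb.d (nat_lit 9) (nat_lit 256) (nat_lit 128) (@Lb.g g8 (@Lb.g g11 (@Lb.r r1381 (@Lb.r r2707 (@Lb.r r662 (@Lb.r r2120 (@Lb.d (nat_lit 353) (nat_lit 0) (nat_lit 34) (@Lb.fm (nat_lit 3) t1293)))))))))
noncomputable def l13535 : Lb := (@Lb.r r70 (@Lb.d (nat_lit 129) (nat_lit 10) (nat_lit 136) (@Lb.g g8 (@Lb.g g9 (@Lb.g g11 (@Lb.r r594 (@Lb.r r673 (@Lb.r r612 (@Lb.d (nat_lit 150) (nat_lit 170) (nat_lit 325) (@Lb.t (@Lb.fp (nat_lit 9) t2986)))))))))))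
noncomputable def l13536 : Lb := (@Lb.r r82 (@Lb.d (nat_lit 9) (nat_lit 1) (nat_lit 128) (@Lb.g g8 (@Lb.g g9 (@Lb.g g11 (@Lb.r r299 (@Lb.r r1377 (@Lb.r r146 (@Lb.r r2120 (@Lb.d (nat_lit 354) (nat_lit 5) (nat_lit 581) (@Lb.t (@Lb.fp (nat_lit 9) t2987))))))))))))
noncomputable def l13537 : Lb := (@Lb.d (nat_lit 0) (nat_lit 2) (nat_lit 130) (@Lb.g g9 (@Lb.g g10 (@Lb.g g11 (@Lb.r r586 (@Lb.r r584 (@Lb.r r1323 (@Lb.r r1313 (@Lb.d (nat_lit 2) (nat_lit 97) (nat_lit 640) (@Lb.t (@Lb.fm (nat_lit 9) t51)))))))))))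
noncomputable def l13538 : Lb := (@Lb.d (nat_lit 2) (nat_lit 258) (nat_lit 130) (@Lb.g g8 (@Lb.g g9 (@Lb.g g10 (@Lb.g g11 (@Lb.r r427 (@Lb.r r145 (@Lb.r r356 (@Lb.r r154 (@Lb.r r132 (@Lb.d (nat_lit 9) (nat_lit 9) (nat_lit 136) (@Lb.fm (nat_lit 9) t61))))))))))))
noncomputable def l13539 : Lb := (@Lb.r r323 (@Lb.d (nat_lit 2) (nat_lit 514) (nat_lit 2) (@Lb.g g8 (@Lb.g g9 (@Lb.g g10 (@Lb.r r401 (@Lb.r r299 (@Lb.r r392 (@Lb.r r74 (@Lb.d (nat_lit 38) (nat_lit 8) (nat_lit 138) (@Lb.t (@Lb.fp (nat_lit 9) t61))))))))))))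
noncomputable def l13540 : Lb := (@Lb.d (nat_lit 16) (nat_lit 9) (nat_lit 130) (@Lb.g g8 (@Lb.g g9 (@Lb.g g10 (@Lb.g g11 (@Lb.r r1667 (@Lb.r r1321 (@Lb.r r360 (@Lb.r r1606 (@Lb.r r132 (@Lb.d (nat_lit 385) (nat_lit 138) (nat_lit 601) (@Lb.fm (nat_lit 9) t1161))))))))))))
noncomputable def l13541 : Lb := (@Lb.d (nat_lit 273) (nat_lit 266) (nat_lit 18) (@Lb.fp (nat_lit 1) t1507))
noncomputable def l13542 : Lb := (@Lb.r r82 (@Lb.d (nat_lit 4) (nat_lit 256) (nat_lit 136) (@Lb.g g8 (@Lb.g g9 (@Lb.g g11 (@Lb.r r2665 (@Lb.r r2198 (@Lb.r r1380 (@Lb.r r395 (@Lb.d (nat_lit 384) (nat_lit 162) (nat_lit 361) (@Lb.t (@Lb.fm (nat_lit 9) t2095))))))))))))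
noncomputable def l13543 : Lb := (@Lb.d (nat_lit 16) (nat_lit 265) (nat_lit 130) (@Lb.g g8 (@Lb.g g9 (@Lb.g g10 (@Lb.g g11 (@Lb.r r1667 (@Lb.r r1321 (@Lb.r r360 (@Lb.r r1606 (@Lb.r r132 (@Lb.d (nat_lit 384) (nat_lit 138) (nat_lit 601) (@Lb.fm (nat_lit 9) t1161))))))))))))
noncomputable def l13544 : Lb := (@Lb.d (nat_lit 646) (nat_lit 406) (nat_lit 354) (@Lb.r r1556 (@Lb.r r281 (@Lb.r r615 (@Lb.g g6 (@Lb.g g4 (@Lb.d (nat_lit 68) (nat_lit 4) (nat_lit 17) (@Lb.r r387 (@Lb.fp (nat_lit 3) t1738)))))))))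
noncomputable def l13545 : Lb := (@Lb.r r323 (@Lb.d (nat_lit 0) (nat_lit 2) (nat_lit 2) (@Lb.g g8 (@Lb.g g9 (@Lb.g g10 (@Lb.r r401 (@Lb.r r299 (@Lb.r r392 (@Lb.r r74 (@Lb.d (nat_lit 533) (nat_lit 1) (nat_lit 168) (@Lb.t (@Lb.fp (nat_lit 9) t221))))))))))))
noncomputable def l13546 : Lb := (@Lb.d (nat_lit 290) (nat_lit 5) (nat_lit 272) (@Lb.r r24 (@Lb.r r101 (@Lb.r r402 (@Lb.g g11 (@Lb.t (@Lb.fm (nat_lit 3) t1834)))))))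
noncomputable def l13547 : Lb := (@Lb.d (nat_lit 256) (nat_lit 5) (nat_lit 273) (@Lb.r r24 (@Lb.r r101 (@Lb.r r402 (@Lb.g g11 (@Lb.g g4 (@Lb.d (nat_lit 6) (nat_lit 0) (nat_lit 0) (@Lb.fm (nat_lit 3) t1900))))))))
noncomputable def l13548 : Lb := (@Lb.d (nat_lit 290) (nat_lit 517) (nat_lit 272) (@Lb.r r24 (@Lb.r r101 (@Lb.r r402 (@Lb.g g11 (@Lb.g g4 (@Lb.fm (nat_lit 3) t2123)))))))
noncomputable def l13549 : Lb := (@Lb.d (nat_lit 518) (nat_lit 257) (nat_lit 16) (@Lb.r r289 (@Lb.r r1386 (@Lb.r r1096 (@Lb.r r1371 (@Lb.g g7 (@Lb.g g6 (@Lb.g g5 (@Lb.d (nat_lit 0) (nat_lit 0) (nat_lit 64) (@Lb.t (@Lb.fp (nat_lit 9) t2988)))))))))))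
noncomputable def l13550 : Lb := (@Lb.d (nat_lit 128) (nat_lit 514) (nat_lit 130) (@Lb.g g8 (@Lb.g g9 (@Lb.g g10 (@Lb.g g11 (@Lb.r r1431 (@Lb.r r2329 (@Lb.r r344 (@Lb.r r2630 (@Lb.r r132 (@Lb.d (nat_lit 393) (nat_lit 66) (nat_lit 360) (@Lb.fm (nat_lit 9) t2989))))))))))))
noncomputable def l13551 : Lb := (@Lb.d (nat_lit 9) (nat_lit 601) (nat_lit 9) (@Lb.r r657 (@Lb.r r666 (@Lb.r r420 (@Lb.r r347 (@Lb.g g7 (@Lb.g g6 (@Lb.g g5 (@Lb.d (nat_lit 4) (nat_lit 0) (nat_lit 134) (@Lb.t (@Lb.fm (nat_lit 9) t68)))))))))))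
noncomputable def l13552 : Lb := (@Lb.r r323 (@Lb.d (nat_lit 5) (nat_lit 2) (nat_lit 1) (@Lb.g g8 (@Lb.g g9 (@Lb.g g6 (@Lb.r r387 (@Lb.r r105 (@Lb.r r36 (@Lb.d (nat_lit 34) (nat_lit 0) (nat_lit 2) (@Lb.t (@Lb.fm (nat_lit 9) t40)))))))))))
noncomputable def l13553 : Lb := (@Lb.d (nat_lit 10) (nat_lit 512) (nat_lit 128) (@Lb.g g8 (@Lb.g g10 (@Lb.g g11 (@Lb.r r545 (@Lb.r r555 (@Lb.r r584 (@Lb.r r134 (@Lb.d (nat_lit 0) (nat_lit 136) (nat_lit 4) (@Lb.t (@Lb.fm (nat_lit 9) t154)))))))))))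
noncomputable def l13554 : Lb := (@Lb.d (nat_lit 0) (nat_lit 514) (nat_lit 74) (@Lb.g g8 (@Lb.g g9 (@Lb.g g10 (@Lb.g g11 (@Lb.r r1451 (@Lb.r r98 (@Lb.r r292 (@Lb.r r2069 (@Lb.r r1060 (@Lb.d (nat_lit 38) (nat_lit 70) (nat_lit 0) (@Lb.fp (nat_lit 9) t1089))))))))))))
noncomputable def l13555 : Lb := (@Lb.r r81 (@Lb.d (nat_lit 0) (nat_lit 256) (nat_lit 74) (@Lb.g g8 (@Lb.g g10 (@Lb.g g11 (@Lb.r r1419 (@Lb.r r1304 (@Lb.r r37 (@Lb.d (nat_lit 0) (nat_lit 70) (nat_lit 0) (@Lb.t (@Lb.fm (nat_lit 9) t2990)))))))))))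
noncomputable def l13556 : Lb := (@Lb.d (nat_lit 32) (nat_lit 264) (nat_lit 130) (@Lb.g g10 (@Lb.g g11 (@Lb.r r2711 (@Lb.r r1384 (@Lb.r r361 (@Lb.r r1622 (@Lb.d (nat_lit 405) (nat_lit 102) (nat_lit 144) (@Lb.fp (nat_lit 3) t271)))))))))
noncomputable def l13557 : Lb := (@Lb.d (nat_lit 0) (nat_lit 4) (nat_lit 128) (@Lb.g g8 (@Lb.g g9 (@Lb.g g10 (@Lb.g g11 (@Lb.r r662 (@Lb.r r356 (@Lb.r r1323 (@Lb.r r1313 (@Lb.d (nat_lit 9) (nat_lit 73) (nat_lit 642) (@Lb.fp (nat_lit 9) t1256)))))))))))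
noncomputable def l13558 : Lb := (@Lb.d (nat_lit 32) (nat_lit 8) (nat_lit 73) (@Lb.g g10 (@Lb.g g11 (@Lb.r r2711 (@Lb.r r1384 (@Lb.r r361 (@Lb.r r1622 (@Lb.d (nat_lit 404) (nat_lit 102) (nat_lit 144) (@Lb.fp (nat_lit 3) t271)))))))))
noncomputable def l13559 : Lb := (@Lb.d (nat_lit 2) (nat_lit 256) (nat_lit 0) (@Lb.g g8 (@Lb.r r1162 (@Lb.r r1188 (@Lb.r r405 (@Lb.r r1635 (@Lb.d (nat_lit 2) (nat_lit 10) (nat_lit 84) (@Lb.t (@Lb.fp (nat_lit 3) t1592)))))))))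
noncomputable def l13560 : Lb := (@Lb.d (nat_lit 641) (nat_lit 2) (nat_lit 66) (@Lb.g g4 (@Lb.g g9 (@Lb.g g10 (@Lb.g g11 (@Lb.r r2214 (@Lb.r r417 (@Lb.r r275 (@Lb.r r2577 (@Lb.d (nat_lit 389) (nat_lit 2) (nat_lit 362) (@Lb.fm (nat_lit 9) t2991)))))))))))
noncomputable def l13561 : Lb := (@Lb.d (nat_lit 2) (nat_lit 258) (nat_lit 130) (@Lb.g g8 (@Lb.g g9 (@Lb.g g10 (@Lb.g g11 (@Lb.r r2691 (@Lb.r r297 (@Lb.r r360 (@Lb.r r582 (@Lb.r r2180 (@Lb.d (nat_lit 644) (nat_lit 74) (nat_lit 329) (@Lb.fm (nat_lit 9) t379))))))))))))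
noncomputable def l13562 : Lb := (@Lb.d (nat_lit 641) (nat_lit 258) (nat_lit 66) (@Lb.g g4 (@Lb.g g9 (@Lb.g g10 (@Lb.g g11 (@Lb.r r2214 (@Lb.r r417 (@Lb.r r275 (@Lb.r r2577 (@Lb.d (nat_lit 388) (nat_lit 2) (nat_lit 362) (@Lb.fm (nat_lit 9) t1622)))))))))))
noncomputable def l13563 : Lb := (@Lb.d (nat_lit 2) (nat_lit 0) (nat_lit 0) (@Lb.g g8 (@Lb.r r593 (@Lb.r r343 (@Lb.r r680 (@Lb.r r170 (@Lb.r r153 (@Lb.d (nat_lit 0) (nat_lit 0) (nat_lit 137) (@Lb.t (@Lb.fp (nat_lit 3) t2))))))))))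
noncomputable def l13564 : Lb := (@Lb.d (nat_lit 130) (nat_lit 0) (nat_lit 0) (@Lb.g g8 (@Lb.r r551 (@Lb.r r402 (@Lb.r r609 (@Lb.r r104 (@Lb.d (nat_lit 38) (nat_lit 64) (nat_lit 144) (@Lb.t (@Lb.fp (nat_lit 3) t334)))))))))
noncomputable def l13565 : Lb := (@Lb.d (nat_lit 2) (nat_lit 266) (nat_lit 130) (@Lb.g g8 (@Lb.g g9 (@Lb.g g10 (@Lb.g g11 (@Lb.r r643 (@Lb.r r594 (@Lb.r r36 (@Lb.r r149 (@Lb.r r36 (@Lb.d (nat_lit 33) (nat_lit 10) (nat_lit 1) (@Lb.fm (nat_lit 9) t98))))))))))))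
noncomputable def l13566 : Lb := (@Lb.d (nat_lit 1) (nat_lit 10) (nat_lit 130) (@Lb.g g8 (@Lb.g g9 (@Lb.g g10 (@Lb.g g11 (@Lb.r r643 (@Lb.r r594 (@Lb.r r36 (@Lb.r r149 (@Lb.r r36 (@Lb.d (nat_lit 32) (nat_lit 10) (nat_lit 1) (@Lb.fm (nat_lit 9) t98))))))))))))
noncomputable def l13567 : Lb := (@Lb.d (nat_lit 2) (nat_lit 522) (nat_lit 130) (@Lb.g g8 (@Lb.g g9 (@Lb.g g10 (@Lb.g g11 (@Lb.r r643 (@Lb.r r594 (@Lb.r r36 (@Lb.r r149 (@Lb.r r36 (@Lb.d (nat_lit 32) (nat_lit 136) (nat_lit 1) (@Lb.fm (nat_lit 9) t919))))))))))))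
noncomputable def l13568 : Lb := (@Lb.d (nat_lit 0) (nat_lit 512) (nat_lit 128) (@Lb.g g11 (@Lb.r r1610 (@Lb.r r584 (@Lb.r r299 (@Lb.r r289 (@Lb.d (nat_lit 265) (nat_lit 137) (nat_lit 137) (@Lb.t (@Lb.fp (nat_lit 3) t51)))))))))
noncomputable def l13569 : Lb := (@Lb.d (nat_lit 144) (nat_lit 409) (nat_lit 537) (@Lb.r r21 (@Lb.r r2378 (@Lb.r r343 (@Lb.g g7 (@Lb.g g6 (@Lb.g g5 (@Lb.g g4 (@Lb.d (nat_lit 1) (nat_lit 1) (nat_lit 136) (@Lb.fp (nat_lit 9) t1364))))))))))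
noncomputable def l13570 : Lb := (@Lb.d (nat_lit 8) (nat_lit 521) (nat_lit 0) (@Lb.g g9 (@Lb.r r1319 (@Lb.r r24 (@Lb.d (nat_lit 521) (nat_lit 130) (nat_lit 2) (@Lb.t (@Lb.fm (nat_lit 3) t518)))))))
noncomputable def l13571 : Lb := (@Lb.d (nat_lit 0) (nat_lit 9) (nat_lit 0) (@Lb.g g9 (@Lb.r r104 (@Lb.r r406 (@Lb.r r2649 (@Lb.d (nat_lit 409) (nat_lit 90) (nat_lit 85) (@Lb.t (@Lb.fp (nat_lit 3) t2992))))))))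
noncomputable def l13572 : Lb := (@Lb.d (nat_lit 2) (nat_lit 516) (nat_lit 128) (@Lb.g g8 (@Lb.g g9 (@Lb.g g10 (@Lb.g g11 (@Lb.r r169 (@Lb.r r296 (@Lb.r r391 (@Lb.r r386 (@Lb.r r132 (@Lb.d (nat_lit 2) (nat_lit 10) (nat_lit 146) (@Lb.fm (nat_lit 9) t1397))))))))))))
noncomputable def l13573 : Lb := (@Lb.d (nat_lit 0) (nat_lit 0) (nat_lit 677) (@Lb.r r2641 (@Lb.r r579 (@Lb.r r2386 (@Lb.g g5 (@Lb.r r98 (@Lb.t (@Lb.fp (nat_lit 3) t84))))))))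
noncomputable def l13574 : Lb := (@Lb.d (nat_lit 290) (nat_lit 1) (nat_lit 32) (@Lb.r r134 (@Lb.r r328 (@Lb.r r407 (@Lb.g g5 (@Lb.d (nat_lit 0) (nat_lit 33) (nat_lit 0) (@Lb.t (@Lb.fm (nat_lit 3) t744))))))))
noncomputable def l13575 : Lb := (@Lb.d (nat_lit 256) (nat_lit 513) (nat_lit 33) (@Lb.r r134 (@Lb.r r328 (@Lb.r r407 (@Lb.g g5 (@Lb.d (nat_lit 0) (nat_lit 38) (nat_lit 0) (@Lb.t (@Lb.fm (nat_lit 3) t1602))))))))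
noncomputable def l13576 : Lb := (@Lb.d (nat_lit 264) (nat_lit 260) (nat_lit 34) (@Lb.r r134 (@Lb.r r328 (@Lb.r r279 (@Lb.r r657 (@Lb.g g7 (@Lb.g g6 (@Lb.g g5 (@Lb.d (nat_lit 0) (nat_lit 1) (nat_lit 64) (@Lb.t (@Lb.fp (nat_lit 9) t2993)))))))))))
noncomputable def l13577 : Lb := (@Lb.d (nat_lit 0) (nat_lit 256) (nat_lit 136) (@Lb.g g11 (@Lb.r r24 (@Lb.r r101 (@Lb.r r402 (@Lb.d (nat_lit 0) (nat_lit 26) (nat_lit 16) (@Lb.t (@Lb.fm (nat_lit 3) t590))))))))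
noncomputable def l13578 : Lb := (@Lb.r r323 (@Lb.d (nat_lit 16) (nat_lit 2) (nat_lit 26) (@Lb.g g8 (@Lb.g g9 (@Lb.g g6 (@Lb.r r387 (@Lb.r r97 (@Lb.r r2456 (@Lb.d (nat_lit 410) (nat_lit 144) (nat_lit 8) (@Lb.t (@Lb.fp (nat_lit 9) t819)))))))))))
noncomputable def l13579 : Lb := (@Lb.r r323 (@Lb.d (nat_lit 16) (nat_lit 514) (nat_lit 26) (@Lb.g g8 (@Lb.g g9 (@Lb.g g6 (@Lb.r r387 (@Lb.r r97 (@Lb.r r2456 (@Lb.d (nat_lit 410) (nat_lit 149) (nat_lit 9) (@Lb.t (@Lb.fp (nat_lit 9) t819)))))))))))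
noncomputable def l13580 : Lb := (@Lb.d (nat_lit 0) (nat_lit 260) (nat_lit 1) (@Lb.g g6 (@Lb.r r101 (@Lb.r r24 (@Lb.d (nat_lit 324) (nat_lit 64) (nat_lit 513) (@Lb.t (@Lb.fm (nat_lit 3) t1863)))))))
noncomputable def l13581 : Lb := (@Lb.d (nat_lit 593) (nat_lit 0) (nat_lit 384) (@Lb.r r24 (@Lb.r r1685 (@Lb.r r2210 (@Lb.r r2659 (@Lb.g g7 (@Lb.g g6 (@Lb.g g5 (@Lb.d (nat_lit 0) (nat_lit 4) (nat_lit 65) (@Lb.t (@Lb.fm (nat_lit 9) t50)))))))))))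
noncomputable def l13582 : Lb := (@Lb.d (nat_lit 6) (nat_lit 18) (nat_lit 133) (@Lb.r r21 (@Lb.r r579 (@Lb.r r342 (@Lb.g g7 (@Lb.g g6 (@Lb.g g5 (@Lb.g g4 (@Lb.d (nat_lit 1) (nat_lit 1) (nat_lit 5) (@Lb.fm (nat_lit 9) t40))))))))))
noncomputable def l13583 : Lb := (@Lb.d (nat_lit 513) (nat_lit 512) (nat_lit 586) (@Lb.r r24 (@Lb.r r101 (@Lb.r r2706 (@Lb.r r2435 (@Lb.g g7 (@Lb.g g6 (@Lb.d (nat_lit 0) (nat_lit 0) (nat_lit 132) (@Lb.fp (nat_lit 3) t150)))))))))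
noncomputable def l13584 : Lb := (@Lb.g g5 (@Lb.r r154 (@Lb.r r660 (@Lb.r r407 (@Lb.r r609 (@Lb.d (nat_lit 0) (nat_lit 320) (nat_lit 384) (@Lb.t (@Lb.fm (nat_lit 3) t334))))))))
noncomputable def l13585 : Lb := (@Lb.d (nat_lit 645) (nat_lit 0) (nat_lit 73) (@Lb.g g4 (@Lb.g g9 (@Lb.g g10 (@Lb.g g11 (@Lb.r r677 (@Lb.r r1443 (@Lb.r r98 (@Lb.d (nat_lit 1) (nat_lit 8) (nat_lit 105) (@Lb.fp (nat_lit 9) t211))))))))))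
noncomputable def l13586 : Lb := (@Lb.d (nat_lit 0) (nat_lit 160) (nat_lit 73) (@Lb.g g5 (@Lb.g g10 (@Lb.g g11 (@Lb.r r531 (@Lb.r r386 (@Lb.d (nat_lit 0) (nat_lit 98) (nat_lit 21) (@Lb.t (@Lb.fp (nat_lit 9) t144)))))))))
noncomputable def l13587 : Lb := (@Lb.d (nat_lit 0) (nat_lit 265) (nat_lit 130) (@Lb.g g9 (@Lb.g g10 (@Lb.g g11 (@Lb.r r2723 (@Lb.r r2402 (@Lb.r r2657 (@Lb.d (nat_lit 0) (nat_lit 148) (nat_lit 324) (@Lb.t (@Lb.fm (nat_lit 9) t144))))))))))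
noncomputable def l13588 : Lb := (@Lb.r r323 (@Lb.d (nat_lit 0) (nat_lit 424) (nat_lit 2) (@Lb.g g5 (@Lb.g g10 (@Lb.r r355 (@Lb.r r146 (@Lb.d (nat_lit 0) (nat_lit 86) (nat_lit 24) (@Lb.fm (nat_lit 3) t144))))))))
noncomputable def l13589 : Lb := (@Lb.d (nat_lit 9) (nat_lit 32) (nat_lit 130) (@Lb.g g8 (@Lb.g g10 (@Lb.g g11 (@Lb.r r1618 (@Lb.r r149 (@Lb.r r2340 (@Lb.r r587 (@Lb.d (nat_lit 97) (nat_lit 85) (nat_lit 408) (@Lb.t (@Lb.fp (nat_lit 9) t100)))))))))))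
noncomputable def l13590 : Lb := (@Lb.d (nat_lit 0) (nat_lit 512) (nat_lit 17) (@Lb.g g10 (@Lb.r r664 (@Lb.r r539 (@Lb.r r405 (@Lb.r r2596 (@Lb.d (nat_lit 2) (nat_lit 0) (nat_lit 17) (@Lb.t (@Lb.fp (nat_lit 3) t229)))))))))
noncomputable def l13591 : Lb := (@Lb.d (nat_lit 0) (nat_lit 10) (nat_lit 2) (@Lb.g g9 (@Lb.g g10 (@Lb.r r97 (@Lb.r r2130 (@Lb.r r145 (@Lb.d (nat_lit 0) (nat_lit 0) (nat_lit 138) (@Lb.fp (nat_lit 3) t2994))))))))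
noncomputable def l13592 : Lb := (@Lb.d (nat_lit 0) (nat_lit 512) (nat_lit 64) (@Lb.g g5 (@Lb.g g7 (@Lb.d (nat_lit 0) (nat_lit 0) (nat_lit 148) (@Lb.fm (nat_lit 3) t2)))))
noncomputable def l13593 : Lb := (@Lb.d (nat_lit 0) (nat_lit 265) (nat_lit 129) (@Lb.g g9 (@Lb.g g10 (@Lb.g g11 (@Lb.r r2722 (@Lb.r r2713 (@Lb.r r2587 (@Lb.r r24 (@Lb.d (nat_lit 33) (nat_lit 0) (nat_lit 329) (@Lb.t (@Lb.fp (nat_lit 9) t538)))))))))))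
noncomputable def l13594 : Lb := (@Lb.r r275 (@Lb.d (nat_lit 0) (nat_lit 266) (nat_lit 2) (@Lb.g g9 (@Lb.g g10 (@Lb.r r1411 (@Lb.r r2145 (@Lb.d (nat_lit 0) (nat_lit 66) (nat_lit 32) (@Lb.fp (nat_lit 3) t917))))))))
noncomputable def l13595 : Lb := (@Lb.d (nat_lit 0) (nat_lit 256) (nat_lit 130) (@Lb.g g10 (@Lb.g g11 (@Lb.r r1411 (@Lb.r r2193 (@Lb.r r1426 (@Lb.d (nat_lit 0) (nat_lit 85) (nat_lit 153) (@Lb.fp (nat_lit 3) t590))))))))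
noncomputable def l13596 : Lb := (@Lb.d (nat_lit 0) (nat_lit 521) (nat_lit 2) (@Lb.g g9 (@Lb.g g10 (@Lb.g g7 (@Lb.r r401 (@Lb.r r82 (@Lb.r r2193 (@Lb.d (nat_lit 0) (nat_lit 0) (nat_lit 297) (@Lb.t (@Lb.fp (nat_lit 9) t2995))))))))))
noncomputable def l13597 : Lb := (@Lb.r r275 (@Lb.d (nat_lit 0) (nat_lit 392) (nat_lit 2) (@Lb.g g5 (@Lb.g g10 (@Lb.r r1411 (@Lb.d (nat_lit 0) (nat_lit 0) (nat_lit 66) (@Lb.fp (nat_lit 3) t406)))))))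
noncomputable def l13598 : Lb := (@Lb.d (nat_lit 0) (nat_lit 290) (nat_lit 0) (@Lb.g g9 (@Lb.r r1303 (@Lb.r r2178 (@Lb.r r1681 (@Lb.r r8 (@Lb.d (nat_lit 512) (nat_lit 106) (nat_lit 276) (@Lb.t (@Lb.fp (nat_lit 3) t2014)))))))))
noncomputable def l13599 : Lb := (@Lb.d (nat_lit 137) (nat_lit 290) (nat_lit 0) (@Lb.g g8 (@Lb.g g9 (@Lb.r r1299 (@Lb.r r2178 (@Lb.r r2709 (@Lb.r r2084 (@Lb.d (nat_lit 169) (nat_lit 73) (nat_lit 261) (@Lb.fp (nat_lit 3) t124)))))))))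
noncomputable def l13600 : Lb := (@Lb.r r70 (@Lb.r r263 (@Lb.d (nat_lit 544) (nat_lit 514) (nat_lit 0) (@Lb.g g8 (@Lb.g g9 (@Lb.r r406 (@Lb.r r2627 (@Lb.r r25 (@Lb.d (nat_lit 9) (nat_lit 146) (nat_lit 576) (@Lb.fm (nat_lit 3) t898))))))))))
noncomputable def l13601 : Lb := (@Lb.d (nat_lit 613) (nat_lit 416) (nat_lit 133) (@Lb.r r410 (@Lb.r r148 (@Lb.r r1365 (@Lb.g g7 (@Lb.g g6 (@Lb.d (nat_lit 80) (nat_lit 32) (nat_lit 577) (@Lb.fp (nat_lit 3) t152))))))))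
noncomputable def l13602 : Lb := (@Lb.d (nat_lit 520) (nat_lit 256) (nat_lit 0) (@Lb.r r150 (@Lb.r r360 (@Lb.r r2145 (@Lb.r r2663 (@Lb.g g11 (@Lb.g g6 (@Lb.fp (nat_lit 3) t2996))))))))
noncomputable def l13603 : Lb := (@Lb.r r323 (@Lb.d (nat_lit 33) (nat_lit 2) (nat_lit 2) (@Lb.g g8 (@Lb.g g9 (@Lb.g g10 (@Lb.r r2666 (@Lb.r r2391 (@Lb.r r1577 (@Lb.r r1556 (@Lb.d (nat_lit 385) (nat_lit 1) (nat_lit 256) (@Lb.t (@Lb.fp (nat_lit 9) t898))))))))))))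
noncomputable def l13604 : Lb := (@Lb.r r82 (@Lb.d (nat_lit 2) (nat_lit 2) (nat_lit 64) (@Lb.g g8 (@Lb.g g9 (@Lb.g g7 (@Lb.r r1377 (@Lb.r r146 (@Lb.r r2120 (@Lb.d (nat_lit 290) (nat_lit 81) (nat_lit 260) (@Lb.t (@Lb.fm (nat_lit 9) t2652)))))))))))
noncomputable def l13605 : Lb := (@Lb.r r82 (@Lb.d (nat_lit 2) (nat_lit 514) (nat_lit 128) (@Lb.g g8 (@Lb.g g9 (@Lb.g g11 (@Lb.r r555 (@Lb.r r548 (@Lb.r r165 (@Lb.r r98 (@Lb.d (nat_lit 10) (nat_lit 2) (nat_lit 138) (@Lb.t (@Lb.fm (nat_lit 9) t5))))))))))))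
noncomputable def l13606 : Lb := (@Lb.r r82 (@Lb.d (nat_lit 2) (nat_lit 514) (nat_lit 128) (@Lb.g g8 (@Lb.g g9 (@Lb.g g11 (@Lb.r r555 (@Lb.r r548 (@Lb.r r165 (@Lb.r r98 (@Lb.d (nat_lit 9) (nat_lit 2) (nat_lit 0) (@Lb.t (@Lb.fm (nat_lit 9) t5))))))))))))
noncomputable def l13607 : Lb := (@Lb.r r82 (@Lb.d (nat_lit 2) (nat_lit 289) (nat_lit 64) (@Lb.g g8 (@Lb.g g9 (@Lb.g g11 (@Lb.r r555 (@Lb.r r612 (@Lb.r r90 (@Lb.r r37 (@Lb.d (nat_lit 33) (nat_lit 6) (nat_lit 137) (@Lb.t (@Lb.fm (nat_lit 9) t5))))))))))))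
noncomputable def l13608 : Lb := (@Lb.d (nat_lit 2) (nat_lit 266) (nat_lit 72) (@Lb.g g8 (@Lb.g g9 (@Lb.g g10 (@Lb.g g11 (@Lb.r r675 (@Lb.r r1065 (@Lb.r r1384 (@Lb.r r2630 (@Lb.d (nat_lit 657) (nat_lit 10) (nat_lit 522) (@Lb.fm (nat_lit 9) t98)))))))))))
noncomputable def l13609 : Lb := (@Lb.d (nat_lit 10) (nat_lit 105) (nat_lit 4) (@Lb.r r673 (@Lb.r r427 (@Lb.r r356 (@Lb.r r90 (@Lb.g g7 (@Lb.g g6 (@Lb.g g5 (@Lb.d (nat_lit 4) (nat_lit 1) (nat_lit 5) (@Lb.t (@Lb.fm (nat_lit 9) t71)))))))))))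
noncomputable def l13610 : Lb := (@Lb.d (nat_lit 34) (nat_lit 514) (nat_lit 64) (@Lb.g g8 (@Lb.g g9 (@Lb.g g11 (@Lb.r r1186 (@Lb.r r1065 (@Lb.r r616 (@Lb.r r2315 (@Lb.d (nat_lit 578) (nat_lit 149) (nat_lit 18) (@Lb.t (@Lb.fp (nat_lit 9) t242)))))))))))
noncomputable def l13611 : Lb := (@Lb.d (nat_lit 262) (nat_lit 678) (nat_lit 534) (@Lb.r r2069 (@Lb.r r2390 (@Lb.r r2731 (@Lb.g g7 (@Lb.g g6 (@Lb.g g5 (@Lb.g g4 (@Lb.d (nat_lit 8) (nat_lit 1) (nat_lit 69) (@Lb.fm (nat_lit 9) t154))))))))))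
noncomputable def l13612 : Lb := (@Lb.d (nat_lit 2) (nat_lit 266) (nat_lit 129) (@Lb.g g8 (@Lb.g g9 (@Lb.g g10 (@Lb.g g11 (@Lb.r r675 (@Lb.r r1065 (@Lb.r r1384 (@Lb.r r2630 (@Lb.d (nat_lit 657) (nat_lit 5) (nat_lit 521) (@Lb.fm (nat_lit 9) t98)))))))))))
noncomputable def l13613 : Lb := (@Lb.r r82 (@Lb.r r275 (@Lb.d (nat_lit 2) (nat_lit 538) (nat_lit 0) (@Lb.g g8 (@Lb.g g9 (@Lb.r r363 (@Lb.r r1416 (@Lb.r r1098 (@Lb.d (nat_lit 34) (nat_lit 9) (nat_lit 138) (@Lb.fp (nat_lit 3) t601))))))))))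
noncomputable def l13614 : Lb := (@Lb.r r21 (@Lb.d (nat_lit 8) (nat_lit 512) (nat_lit 130) (@Lb.g g8 (@Lb.g g10 (@Lb.g g11 (@Lb.r r667 (@Lb.r r2405 (@Lb.r r1178 (@Lb.r r1156 (@Lb.d (nat_lit 345) (nat_lit 2) (nat_lit 406) (@Lb.t (@Lb.fp (nat_lit 9) t284))))))))))))
noncomputable def l13615 : Lb := (@Lb.r r82 (@Lb.d (nat_lit 2) (nat_lit 545) (nat_lit 64) (@Lb.g g8 (@Lb.g g9 (@Lb.g g11 (@Lb.r r299 (@Lb.r r1416 (@Lb.r r1098 (@Lb.r r1185 (@Lb.d (nat_lit 1) (nat_lit 8) (nat_lit 153) (@Lb.t (@Lb.fm (nat_lit 9) t74))))))))))))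
noncomputable def l13616 : Lb := (@Lb.d (nat_lit 2) (nat_lit 33) (nat_lit 66) (@Lb.g g8 (@Lb.g g9 (@Lb.g g10 (@Lb.g g11 (@Lb.r r427 (@Lb.r r408 (@Lb.r r90 (@Lb.r r2201 (@Lb.r r1044 (@Lb.d (nat_lit 264) (nat_lit 137) (nat_lit 153) (@Lb.fm (nat_lit 9) t68))))))))))))
noncomputable def l13617 : Lb := (@Lb.d (nat_lit 2) (nat_lit 258) (nat_lit 129) (@Lb.g g8 (@Lb.g g5 (@Lb.g g10 (@Lb.g g11 (@Lb.r r2626 (@Lb.r r579 (@Lb.r r24 (@Lb.d (nat_lit 5) (nat_lit 128) (nat_lit 674) (@Lb.fm (nat_lit 9) t2))))))))))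
noncomputable def l13618 : Lb := (@Lb.r r323 (@Lb.d (nat_lit 2) (nat_lit 258) (nat_lit 33) (@Lb.g g8 (@Lb.g g5 (@Lb.g g10 (@Lb.r r579 (@Lb.r r24 (@Lb.d (nat_lit 5) (nat_lit 128) (nat_lit 33) (@Lb.t (@Lb.fp (nat_lit 9) t2))))))))))
noncomputable def l13619 : Lb := (@Lb.d (nat_lit 4) (nat_lit 0) (nat_lit 64) (@Lb.g g8 (@Lb.g g9 (@Lb.g g11 (@Lb.r r665 (@Lb.r r275 (@Lb.r r2178 (@Lb.r r1553 (@Lb.d (nat_lit 610) (nat_lit 134) (nat_lit 298) (@Lb.t (@Lb.fp (nat_lit 9) t188)))))))))))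
noncomputable def l13620 : Lb := (@Lb.r r82 (@Lb.r r275 (@Lb.d (nat_lit 4) (nat_lit 514) (nat_lit 0) (@Lb.g g5 (@Lb.r r291 (@Lb.r r98 (@Lb.r r24 (@Lb.d (nat_lit 1) (nat_lit 0) (nat_lit 0) (@Lb.t (@Lb.fp (nat_lit 3) t74))))))))))
noncomputable def l13621 : Lb := (@Lb.r r323 (@Lb.d (nat_lit 32) (nat_lit 32) (nat_lit 2) (@Lb.g g9 (@Lb.g g10 (@Lb.r r603 (@Lb.r r600 (@Lb.r r293 (@Lb.d (nat_lit 74) (nat_lit 130) (nat_lit 137) (@Lb.fp (nat_lit 3) t51)))))))))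
noncomputable def l13622 : Lb := (@Lb.d (nat_lit 138) (nat_lit 512) (nat_lit 0) (@Lb.g g8 (@Lb.r r678 (@Lb.r r661 (@Lb.r r1431 (@Lb.r r2664 (@Lb.d (nat_lit 358) (nat_lit 24) (nat_lit 258) (@Lb.t (@Lb.fp (nat_lit 3) t71)))))))))
noncomputable def l13623 : Lb := (@Lb.d (nat_lit 0) (nat_lit 0) (nat_lit 128) (@Lb.r r24 (@Lb.r r85 (@Lb.r r323 (@Lb.g g10 (@Lb.g g5 (@Lb.d (nat_lit 0) (nat_lit 2) (nat_lit 2) (@Lb.r r387 (@Lb.fm (nat_lit 3) t5)))))))))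
noncomputable def l13624 : Lb := (@Lb.d (nat_lit 128) (nat_lit 514) (nat_lit 162) (@Lb.g g9 (@Lb.g g6 (@Lb.g g11 (@Lb.r r533 (@Lb.r r292 (@Lb.r r411 (@Lb.d (nat_lit 402) (nat_lit 80) (nat_lit 169) (@Lb.t (@Lb.fp (nat_lit 9) t222))))))))))
noncomputable def l13625 : Lb := (@Lb.d (nat_lit 128) (nat_lit 258) (nat_lit 0) (@Lb.g g9 (@Lb.g g11 (@Lb.r r597 (@Lb.r r420 (@Lb.r r1435 (@Lb.r r2178 (@Lb.d (nat_lit 674) (nat_lit 24) (nat_lit 660) (@Lb.fp (nat_lit 3) t222)))))))))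
noncomputable def l13626 : Lb := (@Lb.d (nat_lit 530) (nat_lit 81) (nat_lit 662) (@Lb.r r386 (@Lb.r r2579 (@Lb.r r2389 (@Lb.g g6 (@Lb.g g5 (@Lb.g g4 (@Lb.d (nat_lit 1) (nat_lit 1) (nat_lit 1) (@Lb.t (@Lb.fp (nat_lit 9) t501))))))))))
noncomputable def l13627 : Lb := (@Lb.r r323 (@Lb.d (nat_lit 32) (nat_lit 288) (nat_lit 2) (@Lb.g g9 (@Lb.g g10 (@Lb.r r283 (@Lb.r r280 (@Lb.r r613 (@Lb.r r402 (@Lb.d (nat_lit 34) (nat_lit 18) (nat_lit 138) (@Lb.fp (nat_lit 3) t45))))))))))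
noncomputable def l13628 : Lb := (@Lb.d (nat_lit 530) (nat_lit 86) (nat_lit 132) (@Lb.r r386 (@Lb.r r339 (@Lb.r r1557 (@Lb.g g7 (@Lb.g g6 (@Lb.g g5 (@Lb.g g4 (@Lb.d (nat_lit 1) (nat_lit 1) (nat_lit 129) (@Lb.fm (nat_lit 9) t795))))))))))
noncomputable def l13629 : Lb := (@Lb.d (nat_lit 530) (nat_lit 593) (nat_lit 536) (@Lb.r r386 (@Lb.r r2579 (@Lb.r r2389 (@Lb.g g6 (@Lb.g g5 (@Lb.g g4 (@Lb.d (nat_lit 1) (nat_lit 1) (nat_lit 1) (@Lb.t (@Lb.fp (nat_lit 9) t501))))))))))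
noncomputable def l13630 : Lb := (@Lb.d (nat_lit 0) (nat_lit 0) (nat_lit 136) (@Lb.g g4 (@Lb.g g7 (@Lb.r r341 (@Lb.r r1642 (@Lb.r r619 (@Lb.d (nat_lit 678) (nat_lit 101) (nat_lit 85) (@Lb.fp (nat_lit 3) t2997))))))))
noncomputable def l13631 : Lb := (@Lb.d (nat_lit 24) (nat_lit 85) (nat_lit 34) (@Lb.r r1384 (@Lb.r r150 (@Lb.r r361 (@Lb.g g11 (@Lb.g g5 (@Lb.g g4 (@Lb.d (nat_lit 17) (nat_lit 1) (nat_lit 320) (@Lb.r r578 (@Lb.t (@Lb.fp (nat_lit 9) t1526)))))))))))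
noncomputable def l13632 : Lb := (@Lb.d (nat_lit 128) (nat_lit 2) (nat_lit 130) (@Lb.g g8 (@Lb.g g9 (@Lb.g g10 (@Lb.g g11 (@Lb.r r2666 (@Lb.r r612 (@Lb.r r1319 (@Lb.r r1045 (@Lb.r r2084 (@Lb.d (nat_lit 9) (nat_lit 33) (nat_lit 549) (@Lb.fp (nat_lit 9) t1444))))))))))))
noncomputable def l13633 : Lb := (@Lb.r r21 (@Lb.d (nat_lit 385) (nat_lit 520) (nat_lit 130) (@Lb.g g8 (@Lb.g g10 (@Lb.g g11 (@Lb.r r1419 (@Lb.r r101 (@Lb.r r410 (@Lb.d (nat_lit 9) (nat_lit 154) (nat_lit 650) (@Lb.t (@Lb.fm (nat_lit 9) t2889)))))))))))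
noncomputable def l13634 : Lb := (@Lb.r r21 (@Lb.d (nat_lit 128) (nat_lit 512) (nat_lit 130) (@Lb.g g8 (@Lb.g g10 (@Lb.g g11 (@Lb.r r1623 (@Lb.r r341 (@Lb.r r170 (@Lb.r r148 (@Lb.d (nat_lit 81) (nat_lit 68) (nat_lit 529) (@Lb.t (@Lb.fm (nat_lit 9) t2889))))))))))))
noncomputable def l13635 : Lb := (@Lb.d (nat_lit 129) (nat_lit 2) (nat_lit 130) (@Lb.g g8 (@Lb.g g9 (@Lb.g g10 (@Lb.g g11 (@Lb.r r2666 (@Lb.r r612 (@Lb.r r1319 (@Lb.r r1045 (@Lb.r r2084 (@Lb.d (nat_lit 9) (nat_lit 38) (nat_lit 616) (@Lb.fp (nat_lit 9) t2998))))))))))))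
noncomputable def l13636 : Lb := (@Lb.r r82 (@Lb.r r263 (@Lb.d (nat_lit 2) (nat_lit 385) (nat_lit 0) (@Lb.g g8 (@Lb.g g5 (@Lb.r r2651 (@Lb.r r386 (@Lb.r r1048 (@Lb.d (nat_lit 0) (nat_lit 65) (nat_lit 2) (@Lb.fm (nat_lit 3) t2999))))))))))
noncomputable def l13637 : Lb := (@Lb.d (nat_lit 0) (nat_lit 0) (nat_lit 128) (@Lb.g g4 (@Lb.g g11 (@Lb.r r2567 (@Lb.d (nat_lit 128) (nat_lit 0) (nat_lit 320) (@Lb.fm (nat_lit 3) t1168))))))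
noncomputable def l13638 : Lb := (@Lb.d (nat_lit 0) (nat_lit 0) (nat_lit 2) (@Lb.g g4 (@Lb.g g10 (@Lb.g g11 (@Lb.r r533 (@Lb.r r2647 (@Lb.r r386 (@Lb.d (nat_lit 256) (nat_lit 10) (nat_lit 520) (@Lb.t (@Lb.fp (nat_lit 9) t3000))))))))))
noncomputable def l13639 : Lb := (@Lb.d (nat_lit 9) (nat_lit 272) (nat_lit 41) (@Lb.r r657 (@Lb.r r666 (@Lb.r r420 (@Lb.r r347 (@Lb.g g7 (@Lb.g g6 (@Lb.g g5 (@Lb.d (nat_lit 4) (nat_lit 0) (nat_lit 134) (@Lb.t (@Lb.fm (nat_lit 9) t74)))))))))))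
noncomputable def l13640 : Lb := (@Lb.d (nat_lit 0) (nat_lit 258) (nat_lit 130) (@Lb.g g8 (@Lb.g g9 (@Lb.g g10 (@Lb.g g11 (@Lb.r r427 (@Lb.r r420 (@Lb.r r1094 (@Lb.r r145 (@Lb.r r36 (@Lb.d (nat_lit 277) (nat_lit 166) (nat_lit 657) (@Lb.fp (nat_lit 9) t219))))))))))))
noncomputable def l13641 : Lb := (@Lb.d (nat_lit 105) (nat_lit 41) (nat_lit 102) (@Lb.r r408 (@Lb.r r330 (@Lb.r r407 (@Lb.g g7 (@Lb.g g5 (@Lb.g g4 (@Lb.d (nat_lit 16) (nat_lit 1) (nat_lit 64) (@Lb.r r98 (@Lb.t (@Lb.fm (nat_lit 9) t242)))))))))))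
noncomputable def l13642 : Lb := (@Lb.d (nat_lit 5) (nat_lit 256) (nat_lit 0) (@Lb.g g4 (@Lb.d (nat_lit 1) (nat_lit 64) (nat_lit 0) (@Lb.t (@Lb.fm (nat_lit 3) t2)))))
noncomputable def l13643 : Lb := (@Lb.r r24 (@Lb.d (nat_lit 10) (nat_lit 322) (nat_lit 0) (@Lb.fm (nat_lit 1) t2)))
noncomputable def l13644 : Lb := (@Lb.d (nat_lit 0) (nat_lit 4) (nat_lit 36) (@Lb.r r101 (@Lb.r r24 (@Lb.r r386 (@Lb.g g11 (@Lb.g g6 (@Lb.g g5 (@Lb.d (nat_lit 0) (nat_lit 0) (nat_lit 129) (@Lb.t (@Lb.fp (nat_lit 9) t74))))))))))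
noncomputable def l13645 : Lb := (@Lb.d (nat_lit 280) (nat_lit 520) (nat_lit 130) (@Lb.g g4 (@Lb.g g9 (@Lb.g g10 (@Lb.g g11 (@Lb.r r2443 (@Lb.r r1169 (@Lb.r r2458 (@Lb.d (nat_lit 617) (nat_lit 149) (nat_lit 84) (@Lb.fp (nat_lit 9) t1244))))))))))
noncomputable def l13646 : Lb := (@Lb.d (nat_lit 514) (nat_lit 512) (nat_lit 32) (@Lb.r r154 (@Lb.r r660 (@Lb.r r407 (@Lb.r r609 (@Lb.g g11 (@Lb.t (@Lb.fp (nat_lit 3) t334))))))))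
noncomputable def l13647 : Lb := (@Lb.r r154 (@Lb.r r660 (@Lb.r r535 (@Lb.r r289 (@Lb.d (nat_lit 0) (nat_lit 64) (nat_lit 512) (@Lb.fm (nat_lit 1) t51))))))
noncomputable def l13648 : Lb := (@Lb.r r154 (@Lb.r r660 (@Lb.r r407 (@Lb.r r609 (@Lb.d (nat_lit 0) (nat_lit 64) (nat_lit 261) (@Lb.fp (nat_lit 1) t479))))))
noncomputable def l13649 : Lb := (@Lb.d (nat_lit 2) (nat_lit 2) (nat_lit 130) (@Lb.g g8 (@Lb.g g9 (@Lb.g g10 (@Lb.g g11 (@Lb.r r2218 (@Lb.r r392 (@Lb.r r2343 (@Lb.r r2337 (@Lb.r r36 (@Lb.d (nat_lit 2) (nat_lit 105) (nat_lit 578) (@Lb.fm (nat_lit 9) t242))))))))))))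
noncomputable def l13650 : Lb := (@Lb.r r323 (@Lb.d (nat_lit 8) (nat_lit 32) (nat_lit 18) (@Lb.g g9 (@Lb.g g10 (@Lb.r r1624 (@Lb.r r1691 (@Lb.r r2385 (@Lb.d (nat_lit 261) (nat_lit 22) (nat_lit 676) (@Lb.fm (nat_lit 3) t2876)))))))))
noncomputable def l13651 : Lb := (@Lb.d (nat_lit 0) (nat_lit 0) (nat_lit 66) (@Lb.g g10 (@Lb.g g7 (@Lb.r r386 (@Lb.r r2449 (@Lb.d (nat_lit 0) (nat_lit 100) (nat_lit 132) (@Lb.fm (nat_lit 3) t2788)))))))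
noncomputable def l13652 : Lb := (@Lb.d (nat_lit 0) (nat_lit 256) (nat_lit 64) (@Lb.g g7 (@Lb.r r594 (@Lb.r r2449 (@Lb.d (nat_lit 0) (nat_lit 69) (nat_lit 538) (@Lb.t (@Lb.fm (nat_lit 3) t1405)))))))
noncomputable def l13653 : Lb := (@Lb.d (nat_lit 128) (nat_lit 288) (nat_lit 388) (@Lb.g g11 (@Lb.r r2376 (@Lb.r r1158 (@Lb.r r1061 (@Lb.d (nat_lit 256) (nat_lit 69) (nat_lit 128) (@Lb.t (@Lb.fm (nat_lit 3) t3001))))))))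
noncomputable def l13654 : Lb := (@Lb.d (nat_lit 0) (nat_lit 8) (nat_lit 128) (@Lb.g g9 (@Lb.g g11 (@Lb.r r1363 (@Lb.r r2450 (@Lb.r r593 (@Lb.d (nat_lit 0) (nat_lit 6) (nat_lit 680) (@Lb.fp (nat_lit 3) t616))))))))
noncomputable def l13655 : Lb := (@Lb.d (nat_lit 0) (nat_lit 165) (nat_lit 0) (@Lb.g g9 (@Lb.d (nat_lit 0) (nat_lit 90) (nat_lit 64) (@Lb.t (@Lb.fp (nat_lit 3) t1464)))))
noncomputable def l13656 : Lb := (@Lb.r r104 (@Lb.r r2153 (@Lb.r r2084 (@Lb.d (nat_lit 321) (nat_lit 512) (nat_lit 592) (@Lb.fp (nat_lit 1) t3002)))))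
noncomputable def l13657 : Lb := (@Lb.d (nat_lit 32) (nat_lit 512) (nat_lit 130) (@Lb.g g9 (@Lb.g g10 (@Lb.g g11 (@Lb.r r2695 (@Lb.r r1352 (@Lb.r r2390 (@Lb.r r1425 (@Lb.d (nat_lit 133) (nat_lit 0) (nat_lit 330) (@Lb.t (@Lb.fm (nat_lit 9) t1255)))))))))))
noncomputable def l13658 : Lb := (@Lb.r r82 (@Lb.d (nat_lit 0) (nat_lit 33) (nat_lit 64) (@Lb.g g8 (@Lb.g g9 (@Lb.g g11 (@Lb.r r2659 (@Lb.r r1382 (@Lb.r r100 (@Lb.r r2645 (@Lb.d (nat_lit 546) (nat_lit 21) (nat_lit 360) (@Lb.t (@Lb.fp (nat_lit 9) t532))))))))))))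
noncomputable def l13659 : Lb := (@Lb.r r327 (@Lb.d (nat_lit 0) (nat_lit 0) (nat_lit 2) (@Lb.g g8 (@Lb.g g9 (@Lb.g g10 (@Lb.r r2730 (@Lb.r r2692 (@Lb.r r1543 (@Lb.r r2073 (@Lb.d (nat_lit 618) (nat_lit 65) (nat_lit 530) (@Lb.t (@Lb.fm (nat_lit 9) t764))))))))))))
noncomputable def l13660 : Lb := (@Lb.g g8 (@Lb.g g7 (@Lb.r r1114 (@Lb.r r289 (@Lb.r r407 (@Lb.r r1096 (@Lb.d (nat_lit 65) (nat_lit 512) (nat_lit 576) (@Lb.fp (nat_lit 3) t807))))))))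
noncomputable def l13661 : Lb := (@Lb.d (nat_lit 577) (nat_lit 258) (nat_lit 661) (@Lb.r r1297 (@Lb.r r291 (@Lb.r r417 (@Lb.r r2214 (@Lb.g g7 (@Lb.g g6 (@Lb.g g5 (@Lb.g g8 (@Lb.d (nat_lit 322) (nat_lit 1) (nat_lit 129) (@Lb.fm (nat_lit 9) t1561)))))))))))
noncomputable def l13662 : Lb := (@Lb.d (nat_lit 0) (nat_lit 520) (nat_lit 130) (@Lb.g g8 (@Lb.g g10 (@Lb.g g11 (@Lb.r r1451 (@Lb.r r2145 (@Lb.r r1622 (@Lb.r r1156 (@Lb.d (nat_lit 550) (nat_lit 169) (nat_lit 6) (@Lb.t (@Lb.fp (nat_lit 9) t2910)))))))))))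
noncomputable def l13663 : Lb := (@Lb.d (nat_lit 0) (nat_lit 8) (nat_lit 130) (@Lb.g g8 (@Lb.g g10 (@Lb.g g11 (@Lb.r r1451 (@Lb.r r2145 (@Lb.r r1622 (@Lb.r r1156 (@Lb.d (nat_lit 550) (nat_lit 169) (nat_lit 129) (@Lb.t (@Lb.fp (nat_lit 9) t2910)))))))))))
noncomputable def l13664 : Lb := (@Lb.d (nat_lit 32) (nat_lit 256) (nat_lit 73) (@Lb.g g9 (@Lb.g g10 (@Lb.g g11 (@Lb.r r2695 (@Lb.r r1352 (@Lb.r r2390 (@Lb.r r1425 (@Lb.d (nat_lit 132) (nat_lit 0) (nat_lit 330) (@Lb.t (@Lb.fm (nat_lit 9) t1255)))))))))))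
noncomputable def l13665 : Lb := (@Lb.r r82 (@Lb.r r275 (@Lb.d (nat_lit 4) (nat_lit 257) (nat_lit 0) (@Lb.g g8 (@Lb.g g9 (@Lb.r r1307 (@Lb.r r1114 (@Lb.r r2085 (@Lb.r r36 (@Lb.d (nat_lit 518) (nat_lit 129) (nat_lit 0) (@Lb.fp (nat_lit 3) t68)))))))))))
noncomputable def l13666 : Lb := (@Lb.r r20 (@Lb.r r82 (@Lb.r r275 (@Lb.d (nat_lit 8) (nat_lit 1) (nat_lit 0) (@Lb.g g5 (@Lb.r r291 (@Lb.r r98 (@Lb.r r36 (@Lb.t (@Lb.fm (nat_lit 3) t68))))))))))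
noncomputable def l13667 : Lb := (@Lb.r r323 (@Lb.d (nat_lit 2) (nat_lit 514) (nat_lit 2) (@Lb.g g4 (@Lb.g g9 (@Lb.g g10 (@Lb.r r1355 (@Lb.r r2182 (@Lb.r r97 (@Lb.d (nat_lit 530) (nat_lit 138) (nat_lit 32) (@Lb.t (@Lb.fp (nat_lit 9) t228)))))))))))
noncomputable def l13668 : Lb := (@Lb.d (nat_lit 2) (nat_lit 289) (nat_lit 4) (@Lb.g g8 (@Lb.g g9 (@Lb.g g10 (@Lb.g g11 (@Lb.r r2723 (@Lb.r r610 (@Lb.r r529 (@Lb.d (nat_lit 1) (nat_lit 41) (nat_lit 657) (@Lb.fm (nat_lit 9) t218))))))))))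
noncomputable def l13669 : Lb := (@Lb.r r280 (@Lb.r r1621 (@Lb.r r2391 (@Lb.r r2178 (@Lb.r r1572 (@Lb.d (nat_lit 0) (nat_lit 592) (nat_lit 392) (@Lb.fp (nat_lit 1) t124)))))))
noncomputable def l13670 : Lb := (@Lb.d (nat_lit 324) (nat_lit 417) (nat_lit 101) (@Lb.r r410 (@Lb.r r148 (@Lb.r r1365 (@Lb.r r1707 (@Lb.g g7 (@Lb.g g6 (@Lb.g g5 (@Lb.d (nat_lit 16) (nat_lit 0) (nat_lit 65) (@Lb.t (@Lb.fp (nat_lit 9) t719)))))))))))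
noncomputable def l13671 : Lb := (@Lb.g g7 (@Lb.r r402 (@Lb.d (nat_lit 0) (nat_lit 69) (nat_lit 648) (@Lb.t (@Lb.fp (nat_lit 3) t1604)))))
noncomputable def l13672 : Lb := (@Lb.d (nat_lit 0) (nat_lit 650) (nat_lit 98) (@Lb.r r1426 (@Lb.g g7 (@Lb.g g5 (@Lb.d (nat_lit 0) (nat_lit 0) (nat_lit 68) (@Lb.r r578 (@Lb.fp (nat_lit 3) t1369)))))))
noncomputable def l13673 : Lb := (@Lb.d (nat_lit 0) (nat_lit 549) (nat_lit 534) (@Lb.r r2403 (@Lb.g g6 (@Lb.d (nat_lit 0) (nat_lit 4) (nat_lit 1) (@Lb.t (@Lb.fm (nat_lit 3) t1603))))))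
noncomputable def l13674 : Lb := (@Lb.r r323 (@Lb.g g6 (@Lb.r r2695 (@Lb.r r81 (@Lb.r r1368 (@Lb.r r2214 (@Lb.d (nat_lit 258) (nat_lit 129) (nat_lit 0) (@Lb.t (@Lb.fp (nat_lit 3) t1767)))))))))
noncomputable def l13675 : Lb := (@Lb.d (nat_lit 0) (nat_lit 101) (nat_lit 533) (@Lb.r r134 (@Lb.r r1364 (@Lb.r r2601 (@Lb.r r2571 (@Lb.g g4 (@Lb.t (@Lb.fp (nat_lit 3) t1449))))))))
noncomputable def l13676 : Lb := (@Lb.r r322 (@Lb.d (nat_lit 128) (nat_lit 256) (nat_lit 68) (@Lb.g g11 (@Lb.r r1304 (@Lb.r r2149 (@Lb.r r146 (@Lb.d (nat_lit 1) (nat_lit 9) (nat_lit 146) (@Lb.t (@Lb.fm (nat_lit 3) t268)))))))))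
noncomputable def l13677 : Lb := (@Lb.d (nat_lit 0) (nat_lit 33) (nat_lit 130) (@Lb.g g9 (@Lb.g g10 (@Lb.g g11 (@Lb.r r679 (@Lb.r r610 (@Lb.r r280 (@Lb.r r613 (@Lb.d (nat_lit 149) (nat_lit 70) (nat_lit 17) (@Lb.t (@Lb.fp (nat_lit 9) t3003)))))))))))
noncomputable def l13678 : Lb := (@Lb.d (nat_lit 2) (nat_lit 265) (nat_lit 73) (@Lb.g g8 (@Lb.g g9 (@Lb.g g10 (@Lb.g g11 (@Lb.r r682 (@Lb.r r680 (@Lb.r r555 (@Lb.r r1553 (@Lb.r r2084 (@Lb.d (nat_lit 521) (nat_lit 161) (nat_lit 586) (@Lb.fm (nat_lit 9) t594))))))))))))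
noncomputable def l13679 : Lb := (@Lb.d (nat_lit 0) (nat_lit 522) (nat_lit 73) (@Lb.g g9 (@Lb.g g10 (@Lb.g g11 (@Lb.r r679 (@Lb.r r344 (@Lb.r r166 (@Lb.r r1169 (@Lb.d (nat_lit 521) (nat_lit 137) (nat_lit 34) (@Lb.t (@Lb.fp (nat_lit 9) t594)))))))))))
noncomputable def l13680 : Lb := (@Lb.d (nat_lit 0) (nat_lit 256) (nat_lit 138) (@Lb.g g10 (@Lb.g g11 (@Lb.r r418 (@Lb.r r323 (@Lb.r r1602 (@Lb.d (nat_lit 0) (nat_lit 33) (nat_lit 530) (@Lb.fp (nat_lit 3) t371))))))))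
noncomputable def l13681 : Lb := (@Lb.d (nat_lit 0) (nat_lit 0) (nat_lit 130) (@Lb.g g10 (@Lb.g g11 (@Lb.r r419 (@Lb.r r386 (@Lb.d (nat_lit 0) (nat_lit 100) (nat_lit 16) (@Lb.fp (nat_lit 3) t305)))))))
noncomputable def l13682 : Lb := (@Lb.d (nat_lit 148) (nat_lit 513) (nat_lit 134) (@Lb.r r68 (@Lb.r r273 (@Lb.r r330 (@Lb.g g7 (@Lb.g g5 (@Lb.g g4 (@Lb.d (nat_lit 17) (nat_lit 0) (nat_lit 72) (@Lb.t (@Lb.fp (nat_lit 9) t355))))))))))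
noncomputable def l13683 : Lb := (@Lb.r r21 (@Lb.r r323 (@Lb.d (nat_lit 130) (nat_lit 512) (nat_lit 2) (@Lb.g g8 (@Lb.g g10 (@Lb.r r362 (@Lb.r r361 (@Lb.r r535 (@Lb.r r264 (@Lb.d (nat_lit 128) (nat_lit 18) (nat_lit 128) (@Lb.fp (nat_lit 3) t119)))))))))))
noncomputable def l13684 : Lb := (@Lb.d (nat_lit 2) (nat_lit 516) (nat_lit 128) (@Lb.g g8 (@Lb.g g9 (@Lb.g g10 (@Lb.g g11 (@Lb.r r427 (@Lb.r r424 (@Lb.r r106 (@Lb.r r97 (@Lb.d (nat_lit 289) (nat_lit 10) (nat_lit 168) (@Lb.fp (nat_lit 9) t1613)))))))))))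
noncomputable def l13685 : Lb := (@Lb.d (nat_lit 2) (nat_lit 258) (nat_lit 66) (@Lb.g g8 (@Lb.g g9 (@Lb.g g10 (@Lb.g g7 (@Lb.r r386 (@Lb.r r97 (@Lb.d (nat_lit 9) (nat_lit 137) (nat_lit 137) (@Lb.fm (nat_lit 9) t360)))))))))
noncomputable def l13686 : Lb := (@Lb.d (nat_lit 0) (nat_lit 514) (nat_lit 66) (@Lb.g g8 (@Lb.g g9 (@Lb.g g10 (@Lb.g g7 (@Lb.r r386 (@Lb.r r97 (@Lb.d (nat_lit 2) (nat_lit 138) (nat_lit 137) (@Lb.fm (nat_lit 9) t126)))))))))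
noncomputable def l13687 : Lb := (@Lb.r r323 (@Lb.d (nat_lit 2) (nat_lit 289) (nat_lit 42) (@Lb.g g8 (@Lb.g g9 (@Lb.g g6 (@Lb.r r292 (@Lb.r r411 (@Lb.r r533 (@Lb.d (nat_lit 645) (nat_lit 165) (nat_lit 72) (@Lb.t (@Lb.fp (nat_lit 9) t386)))))))))))
noncomputable def l13688 : Lb := (@Lb.r r82 (@Lb.d (nat_lit 2) (nat_lit 514) (nat_lit 64) (@Lb.g g8 (@Lb.g g9 (@Lb.g g7 (@Lb.r r578 (@Lb.r r289 (@Lb.r r24 (@Lb.d (nat_lit 618) (nat_lit 33) (nat_lit 676) (@Lb.t (@Lb.fp (nat_lit 9) t2504)))))))))))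
noncomputable def l13689 : Lb := (@Lb.d (nat_lit 16) (nat_lit 0) (nat_lit 2) (@Lb.g g10 (@Lb.r r1675 (@Lb.r r676 (@Lb.r r341 (@Lb.r r674 (@Lb.d (nat_lit 610) (nat_lit 24) (nat_lit 22) (@Lb.t (@Lb.fp (nat_lit 3) t166)))))))))
noncomputable def l13690 : Lb := (@Lb.d (nat_lit 513) (nat_lit 10) (nat_lit 146) (@Lb.r r24 (@Lb.r r2341 (@Lb.r r354 (@Lb.g g11 (@Lb.g g5 (@Lb.d (nat_lit 0) (nat_lit 32) (nat_lit 324) (@Lb.r r578 (@Lb.fp (nat_lit 3) t750)))))))))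
noncomputable def l13691 : Lb := (@Lb.r r21 (@Lb.r r70 (@Lb.d (nat_lit 130) (nat_lit 0) (nat_lit 0) (@Lb.g g8 (@Lb.r r391 (@Lb.r r1414 (@Lb.r r2197 (@Lb.r r1096 (@Lb.d (nat_lit 33) (nat_lit 98) (nat_lit 658) (@Lb.t (@Lb.fp (nat_lit 3) t3004)))))))))))
noncomputable def l13692 : Lb := (@Lb.d (nat_lit 0) (nat_lit 296) (nat_lit 65) (@Lb.g g8 (@Lb.g g9 (@Lb.g g10 (@Lb.g g11 (@Lb.r r1699 (@Lb.r r610 (@Lb.r r1049 (@Lb.r r1432 (@Lb.d (nat_lit 362) (nat_lit 80) (nat_lit 340) (@Lb.fp (nat_lit 9) t1391)))))))))))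
noncomputable def l13693 : Lb := (@Lb.d (nat_lit 0) (nat_lit 265) (nat_lit 8) (@Lb.g g8 (@Lb.g g9 (@Lb.g g10 (@Lb.g g7 (@Lb.r r386 (@Lb.r r97 (@Lb.r r24 (@Lb.d (nat_lit 328) (nat_lit 9) (nat_lit 521) (@Lb.fp (nat_lit 9) t1333))))))))))
noncomputable def l13694 : Lb := (@Lb.d (nat_lit 0) (nat_lit 265) (nat_lit 129) (@Lb.g g8 (@Lb.g g9 (@Lb.g g10 (@Lb.g g11 (@Lb.r r1706 (@Lb.r r1700 (@Lb.r r1575 (@Lb.r r1553 (@Lb.d (nat_lit 10) (nat_lit 101) (nat_lit 584) (@Lb.fp (nat_lit 9) t2091)))))))))))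
noncomputable def l13695 : Lb := (@Lb.d (nat_lit 0) (nat_lit 40) (nat_lit 65) (@Lb.g g8 (@Lb.g g9 (@Lb.g g10 (@Lb.g g11 (@Lb.r r1699 (@Lb.r r610 (@Lb.r r1049 (@Lb.r r1432 (@Lb.d (nat_lit 352) (nat_lit 81) (nat_lit 340) (@Lb.fp (nat_lit 9) t1393)))))))))))
noncomputable def l13696 : Lb := (@Lb.d (nat_lit 16) (nat_lit 256) (nat_lit 2) (@Lb.g g10 (@Lb.r r1675 (@Lb.r r676 (@Lb.r r341 (@Lb.r r674 (@Lb.d (nat_lit 617) (nat_lit 26) (nat_lit 22) (@Lb.t (@Lb.fp (nat_lit 3) t166)))))))))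
noncomputable def l13697 : Lb := (@Lb.r r2194 (@Lb.r r101 (@Lb.r r1304 (@Lb.r r1543 (@Lb.fp (nat_lit 1) t242)))))
noncomputable def l13698 : Lb := (@Lb.d (nat_lit 326) (nat_lit 422) (nat_lit 102) (@Lb.r r410 (@Lb.r r148 (@Lb.r r1365 (@Lb.r r1707 (@Lb.g g7 (@Lb.g g6 (@Lb.g g5 (@Lb.d (nat_lit 16) (nat_lit 0) (nat_lit 65) (@Lb.t (@Lb.fp (nat_lit 9) t51)))))))))))
noncomputable def l13699 : Lb := (@Lb.d (nat_lit 2) (nat_lit 258) (nat_lit 130) (@Lb.g g8 (@Lb.g g9 (@Lb.g g10 (@Lb.g g11 (@Lb.r r72 (@Lb.r r614 (@Lb.r r359 (@Lb.r r97 (@Lb.r r548 (@Lb.d (nat_lit 265) (nat_lit 9) (nat_lit 402) (@Lb.fp (nat_lit 9) t145))))))))))))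
noncomputable def l13700 : Lb := (@Lb.d (nat_lit 2) (nat_lit 2) (nat_lit 66) (@Lb.g g8 (@Lb.g g9 (@Lb.g g10 (@Lb.g g7 (@Lb.r r386 (@Lb.r r25 (@Lb.d (nat_lit 9) (nat_lit 73) (nat_lit 25) (@Lb.fp (nat_lit 9) t21)))))))))
noncomputable def l13701 : Lb := (@Lb.d (nat_lit 2) (nat_lit 256) (nat_lit 66) (@Lb.g g8 (@Lb.g g9 (@Lb.g g10 (@Lb.g g7 (@Lb.r r386 (@Lb.r r2073 (@Lb.d (nat_lit 265) (nat_lit 2) (nat_lit 26) (@Lb.fp (nat_lit 9) t2)))))))))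
noncomputable def l13702 : Lb := (@Lb.d (nat_lit 0) (nat_lit 514) (nat_lit 66) (@Lb.g g9 (@Lb.g g10 (@Lb.g g7 (@Lb.r r386 (@Lb.r r104 (@Lb.r r25 (@Lb.d (nat_lit 22) (nat_lit 73) (nat_lit 25) (@Lb.t (@Lb.fp (nat_lit 9) t886))))))))))
noncomputable def l13703 : Lb := (@Lb.r r323 (@Lb.d (nat_lit 2) (nat_lit 514) (nat_lit 41) (@Lb.g g8 (@Lb.g g9 (@Lb.g g6 (@Lb.r r387 (@Lb.r r1313 (@Lb.r r24 (@Lb.d (nat_lit 10) (nat_lit 80) (nat_lit 277) (@Lb.t (@Lb.fp (nat_lit 9) t351)))))))))))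
noncomputable def l13704 : Lb := (@Lb.d (nat_lit 6) (nat_lit 321) (nat_lit 581) (@Lb.r r21 (@Lb.r r386 (@Lb.r r343 (@Lb.g g7 (@Lb.g g6 (@Lb.g g5 (@Lb.g g4 (@Lb.d (nat_lit 1) (nat_lit 1) (nat_lit 8) (@Lb.fm (nat_lit 9) t729))))))))))
noncomputable def l13705 : Lb := (@Lb.d (nat_lit 6) (nat_lit 582) (nat_lit 582) (@Lb.r r21 (@Lb.r r386 (@Lb.r r343 (@Lb.g g7 (@Lb.g g6 (@Lb.g g5 (@Lb.g g4 (@Lb.d (nat_lit 1) (nat_lit 1) (nat_lit 65) (@Lb.fm (nat_lit 9) t351))))))))))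
noncomputable def l13706 : Lb := (@Lb.d (nat_lit 4) (nat_lit 256) (nat_lit 66) (@Lb.g g8 (@Lb.g g9 (@Lb.g g10 (@Lb.g g7 (@Lb.r r386 (@Lb.r r97 (@Lb.r r24 (@Lb.d (nat_lit 10) (nat_lit 9) (nat_lit 9) (@Lb.fp (nat_lit 9) t40))))))))))
noncomputable def l13707 : Lb := (@Lb.d (nat_lit 358) (nat_lit 584) (nat_lit 678) (@Lb.r r2645 (@Lb.r r683 (@Lb.r r662 (@Lb.g g6 (@Lb.g g5 (@Lb.g g4 (@Lb.d (nat_lit 1) (nat_lit 8) (nat_lit 0) (@Lb.r r387 (@Lb.t (@Lb.fp (nat_lit 9) t3005)))))))))))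
noncomputable def l13708 : Lb := (@Lb.d (nat_lit 358) (nat_lit 646) (nat_lit 661) (@Lb.r r289 (@Lb.r r1642 (@Lb.r r1352 (@Lb.r r2695 (@Lb.g g6 (@Lb.d (nat_lit 16) (nat_lit 0) (nat_lit 1) (@Lb.t (@Lb.fp (nat_lit 3) t1619)))))))))
noncomputable def l13709 : Lb := (@Lb.d (nat_lit 262) (nat_lit 129) (nat_lit 128) (@Lb.r r2085 (@Lb.r r1112 (@Lb.r r422 (@Lb.g g11 (@Lb.g g5 (@Lb.d (nat_lit 0) (nat_lit 17) (nat_lit 264) (@Lb.r r578 (@Lb.fm (nat_lit 3) t1895)))))))))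
noncomputable def l13710 : Lb := (@Lb.d (nat_lit 640) (nat_lit 258) (nat_lit 66) (@Lb.g g4 (@Lb.g g9 (@Lb.g g10 (@Lb.g g11 (@Lb.r r661 (@Lb.r r1427 (@Lb.r r2138 (@Lb.r r1169 (@Lb.d (nat_lit 338) (nat_lit 2) (nat_lit 330) (@Lb.fm (nat_lit 9) t1347)))))))))))
noncomputable def l13711 : Lb := (@Lb.r r82 (@Lb.r r275 (@Lb.d (nat_lit 9) (nat_lit 266) (nat_lit 0) (@Lb.g g8 (@Lb.g g9 (@Lb.r r2315 (@Lb.r r2122 (@Lb.r r2152 (@Lb.r r105 (@Lb.d (nat_lit 552) (nat_lit 137) (nat_lit 2) (@Lb.fm (nat_lit 3) t2867)))))))))))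
noncomputable def l13712 : Lb := (@Lb.d (nat_lit 1) (nat_lit 256) (nat_lit 0) (@Lb.g g8 (@Lb.r r2315 (@Lb.r r2122 (@Lb.r r2073 (@Lb.d (nat_lit 2) (nat_lit 0) (nat_lit 0) (@Lb.t (@Lb.fp (nat_lit 3) t1155))))))))
noncomputable def l13713 : Lb := (@Lb.d (nat_lit 516) (nat_lit 1) (nat_lit 66) (@Lb.r r24 (@Lb.r r2145 (@Lb.r r1643 (@Lb.g g10 (@Lb.g g4 (@Lb.d (nat_lit 1) (nat_lit 8) (nat_lit 1) (@Lb.r r387 (@Lb.fm (nat_lit 3) t1077)))))))))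
noncomputable def l13714 : Lb := (@Lb.r r263 (@Lb.d (nat_lit 10) (nat_lit 256) (nat_lit 2) (@Lb.g g8 (@Lb.g g10 (@Lb.r r1381 (@Lb.r r1691 (@Lb.r r2634 (@Lb.r r2632 (@Lb.d (nat_lit 585) (nat_lit 2) (nat_lit 256) (@Lb.fp (nat_lit 3) t69))))))))))
noncomputable def l13715 : Lb := (@Lb.d (nat_lit 640) (nat_lit 258) (nat_lit 130) (@Lb.g g4 (@Lb.g g9 (@Lb.g g10 (@Lb.g g11 (@Lb.r r657 (@Lb.r r1435 (@Lb.r r90 (@Lb.r r145 (@Lb.d (nat_lit 289) (nat_lit 2) (nat_lit 90) (@Lb.fm (nat_lit 9) t1347)))))))))))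
noncomputable def l13716 : Lb := (@Lb.d (nat_lit 2) (nat_lit 70) (nat_lit 326) (@Lb.r r673 (@Lb.r r618 (@Lb.r r340 (@Lb.g g11 (@Lb.g g9 (@Lb.d (nat_lit 4) (nat_lit 1) (nat_lit 256) (@Lb.r r578 (@Lb.fp (nat_lit 3) t1940)))))))))
noncomputable def l13717 : Lb := (@Lb.d (nat_lit 2) (nat_lit 402) (nat_lit 5) (@Lb.r r1284 (@Lb.r r579 (@Lb.r r1362 (@Lb.g g7 (@Lb.g g6 (@Lb.g g5 (@Lb.d (nat_lit 0) (nat_lit 129) (nat_lit 134) (@Lb.t (@Lb.fm (nat_lit 9) t2417))))))))))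
noncomputable def l13718 : Lb := (@Lb.d (nat_lit 640) (nat_lit 9) (nat_lit 65) (@Lb.g g4 (@Lb.g g9 (@Lb.g g10 (@Lb.g g11 (@Lb.r r661 (@Lb.r r1427 (@Lb.r r2138 (@Lb.r r1169 (@Lb.d (nat_lit 345) (nat_lit 1) (nat_lit 330) (@Lb.fm (nat_lit 9) t3006)))))))))))
noncomputable def l13719 : Lb := (@Lb.r r21 (@Lb.d (nat_lit 129) (nat_lit 0) (nat_lit 4) (@Lb.g g8 (@Lb.g g10 (@Lb.g g11 (@Lb.r r651 (@Lb.r r357 (@Lb.r r154 (@Lb.r r132 (@Lb.d (nat_lit 82) (nat_lit 26) (nat_lit 134) (@Lb.t (@Lb.fp (nat_lit 9) t74))))))))))))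
noncomputable def l13720 : Lb := (@Lb.d (nat_lit 128) (nat_lit 264) (nat_lit 130) (@Lb.g g10 (@Lb.g g11 (@Lb.r r264 (@Lb.r r519 (@Lb.r r101 (@Lb.r r154 (@Lb.d (nat_lit 153) (nat_lit 74) (nat_lit 145) (@Lb.fm (nat_lit 3) t2)))))))))
noncomputable def l13721 : Lb := (@Lb.r r21 (@Lb.d (nat_lit 33) (nat_lit 256) (nat_lit 1) (@Lb.g g8 (@Lb.g g10 (@Lb.g g11 (@Lb.r r651 (@Lb.r r293 (@Lb.r r644 (@Lb.r r614 (@Lb.d (nat_lit 148) (nat_lit 32) (nat_lit 134) (@Lb.t (@Lb.fm (nat_lit 9) t264))))))))))))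
noncomputable def l13722 : Lb := (@Lb.d (nat_lit 128) (nat_lit 520) (nat_lit 4) (@Lb.g g10 (@Lb.g g11 (@Lb.r r264 (@Lb.r r519 (@Lb.r r101 (@Lb.r r154 (@Lb.d (nat_lit 153) (nat_lit 64) (nat_lit 146) (@Lb.fm (nat_lit 3) t45)))))))))
noncomputable def l13723 : Lb := (@Lb.r r21 (@Lb.d (nat_lit 129) (nat_lit 512) (nat_lit 132) (@Lb.g g8 (@Lb.g g10 (@Lb.g g11 (@Lb.r r651 (@Lb.r r357 (@Lb.r r154 (@Lb.r r132 (@Lb.d (nat_lit 81) (nat_lit 26) (nat_lit 134) (@Lb.t (@Lb.fp (nat_lit 9) t68))))))))))))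
noncomputable def l13724 : Lb := (@Lb.d (nat_lit 32) (nat_lit 256) (nat_lit 130) (@Lb.g g10 (@Lb.g g11 (@Lb.r r340 (@Lb.r r683 (@Lb.r r673 (@Lb.r r610 (@Lb.d (nat_lit 8) (nat_lit 20) (nat_lit 136) (@Lb.fm (nat_lit 3) t167)))))))))
noncomputable def l13725 : Lb := (@Lb.d (nat_lit 1) (nat_lit 545) (nat_lit 4) (@Lb.g g8 (@Lb.g g9 (@Lb.g g10 (@Lb.g g11 (@Lb.r r683 (@Lb.r r616 (@Lb.r r86 (@Lb.r r165 (@Lb.r r20 (@Lb.d (nat_lit 34) (nat_lit 2) (nat_lit 137) (@Lb.fm (nat_lit 9) t74))))))))))))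
noncomputable def l13726 : Lb := (@Lb.d (nat_lit 2) (nat_lit 33) (nat_lit 4) (@Lb.g g8 (@Lb.g g9 (@Lb.g g10 (@Lb.g g11 (@Lb.r r683 (@Lb.r r616 (@Lb.r r86 (@Lb.r r165 (@Lb.r r20 (@Lb.d (nat_lit 34) (nat_lit 2) (nat_lit 2) (@Lb.fm (nat_lit 9) t74))))))))))))
noncomputable def l13727 : Lb := (@Lb.d (nat_lit 64) (nat_lit 0) (nat_lit 328) (@Lb.g g7 (@Lb.r r1304 (@Lb.r r101 (@Lb.r r2194 (@Lb.d (nat_lit 0) (nat_lit 138) (nat_lit 82) (@Lb.t (@Lb.fp (nat_lit 3) t307))))))))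
noncomputable def l13728 : Lb := (@Lb.r r82 (@Lb.d (nat_lit 0) (nat_lit 258) (nat_lit 0) (@Lb.g g9 (@Lb.g g7 (@Lb.r r386 (@Lb.r r289 (@Lb.d (nat_lit 0) (nat_lit 38) (nat_lit 136) (@Lb.fp (nat_lit 3) t1219))))))))
noncomputable def l13729 : Lb := (@Lb.d (nat_lit 288) (nat_lit 256) (nat_lit 169) (@Lb.r r386 (@Lb.r r2579 (@Lb.r r2389 (@Lb.g g7 (@Lb.g g6 (@Lb.g g5 (@Lb.g g4 (@Lb.d (nat_lit 1) (nat_lit 1) (nat_lit 1) (@Lb.fp (nat_lit 9) t1439))))))))))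
noncomputable def l13730 : Lb := (@Lb.d (nat_lit 288) (nat_lit 512) (nat_lit 169) (@Lb.r r386 (@Lb.r r2579 (@Lb.r r2389 (@Lb.g g6 (@Lb.g g5 (@Lb.g g4 (@Lb.d (nat_lit 1) (nat_lit 1) (nat_lit 1) (@Lb.t (@Lb.fp (nat_lit 9) t1439))))))))))
noncomputable def l13731 : Lb := (@Lb.d (nat_lit 2) (nat_lit 289) (nat_lit 132) (@Lb.g g8 (@Lb.g g9 (@Lb.g g10 (@Lb.g g11 (@Lb.r r148 (@Lb.r r1126 (@Lb.r r357 (@Lb.r r2715 (@Lb.r r1668 (@Lb.d (nat_lit 521) (nat_lit 129) (nat_lit 330) (@Lb.fp (nat_lit 9) t5))))))))))))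
noncomputable def l13732 : Lb := (@Lb.r r2579 (@Lb.r r2626 (@Lb.r r101 (@Lb.d (nat_lit 264) (nat_lit 641) (nat_lit 613) (@Lb.fp (nat_lit 1) t1149)))))
noncomputable def l13733 : Lb := (@Lb.d (nat_lit 74) (nat_lit 512) (nat_lit 66) (@Lb.r r260 (@Lb.r r97 (@Lb.r r363 (@Lb.g g10 (@Lb.g g4 (@Lb.d (nat_lit 65) (nat_lit 8) (nat_lit 5) (@Lb.r r387 (@Lb.r r25 (@Lb.fm (nat_lit 3) t381))))))))))
noncomputable def l13734 : Lb := (@Lb.d (nat_lit 512) (nat_lit 582) (nat_lit 513) (@Lb.r r24 (@Lb.r r1414 (@Lb.r r2331 (@Lb.g g6 (@Lb.g g5 (@Lb.d (nat_lit 4) (nat_lit 1) (nat_lit 0) (@Lb.fm (nat_lit 3) t3007))))))))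
noncomputable def l13735 : Lb := (@Lb.r r21 (@Lb.d (nat_lit 16) (nat_lit 0) (nat_lit 128) (@Lb.g g8 (@Lb.g g10 (@Lb.g g11 (@Lb.r r395 (@Lb.r r1320 (@Lb.r r89 (@Lb.r r614 (@Lb.d (nat_lit 601) (nat_lit 146) (nat_lit 390) (@Lb.t (@Lb.fp (nat_lit 9) t3008))))))))))))
noncomputable def l13736 : Lb := (@Lb.d (nat_lit 0) (nat_lit 512) (nat_lit 10) (@Lb.g g9 (@Lb.g g10 (@Lb.r r1425 (@Lb.d (nat_lit 0) (nat_lit 88) (nat_lit 169) (@Lb.fm (nat_lit 3) t1978))))))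
noncomputable def l13737 : Lb := (@Lb.r r82 (@Lb.d (nat_lit 129) (nat_lit 514) (nat_lit 128) (@Lb.g g8 (@Lb.g g9 (@Lb.g g11 (@Lb.r r555 (@Lb.r r2454 (@Lb.r r1561 (@Lb.r r516 (@Lb.d (nat_lit 649) (nat_lit 129) (nat_lit 128) (@Lb.t (@Lb.fm (nat_lit 9) t3009))))))))))))
noncomputable def l13738 : Lb := (@Lb.d (nat_lit 134) (nat_lit 529) (nat_lit 137) (@Lb.g g8 (@Lb.g g9 (@Lb.g g10 (@Lb.g g11 (@Lb.r r683 (@Lb.r r1642 (@Lb.r r1561 (@Lb.r r516 (@Lb.d (nat_lit 649) (nat_lit 68) (nat_lit 144) (@Lb.fm (nat_lit 9) t47)))))))))))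
noncomputable def l13739 : Lb := (@Lb.r r82 (@Lb.d (nat_lit 129) (nat_lit 258) (nat_lit 128) (@Lb.g g8 (@Lb.g g9 (@Lb.g g11 (@Lb.r r555 (@Lb.r r2454 (@Lb.r r1561 (@Lb.r r516 (@Lb.d (nat_lit 649) (nat_lit 129) (nat_lit 0) (@Lb.t (@Lb.fm (nat_lit 9) t3010))))))))))))
noncomputable def l13740 : Lb := (@Lb.d (nat_lit 8) (nat_lit 514) (nat_lit 161) (@Lb.g g8 (@Lb.g g9 (@Lb.g g6 (@Lb.g g11 (@Lb.r r579 (@Lb.r r289 (@Lb.r r24 (@Lb.d (nat_lit 362) (nat_lit 33) (nat_lit 362) (@Lb.fp (nat_lit 9) t317))))))))))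
noncomputable def l13741 : Lb := (@Lb.r r323 (@Lb.d (nat_lit 8) (nat_lit 258) (nat_lit 37) (@Lb.g g8 (@Lb.g g9 (@Lb.g g6 (@Lb.r r579 (@Lb.r r1321 (@Lb.r r36 (@Lb.d (nat_lit 644) (nat_lit 1) (nat_lit 577) (@Lb.t (@Lb.fp (nat_lit 9) t351)))))))))))
noncomputable def l13742 : Lb := (@Lb.d (nat_lit 32) (nat_lit 512) (nat_lit 128) (@Lb.g g10 (@Lb.g g11 (@Lb.r r361 (@Lb.r r2711 (@Lb.r r1380 (@Lb.r r1690 (@Lb.d (nat_lit 594) (nat_lit 136) (nat_lit 69) (@Lb.fp (nat_lit 3) t3011)))))))))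
noncomputable def l13743 : Lb := (@Lb.r r323 (@Lb.d (nat_lit 1) (nat_lit 258) (nat_lit 0) (@Lb.g g8 (@Lb.g g9 (@Lb.g g10 (@Lb.r r683 (@Lb.r r2210 (@Lb.r r145 (@Lb.d (nat_lit 518) (nat_lit 69) (nat_lit 70) (@Lb.t (@Lb.fm (nat_lit 9) t1020)))))))))))
noncomputable def l13744 : Lb := (@Lb.d (nat_lit 32) (nat_lit 256) (nat_lit 128) (@Lb.g g10 (@Lb.g g11 (@Lb.r r361 (@Lb.r r2711 (@Lb.r r1380 (@Lb.r r1690 (@Lb.d (nat_lit 601) (nat_lit 138) (nat_lit 0) (@Lb.fp (nat_lit 3) t3012)))))))))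
noncomputable def l13745 : Lb := (@Lb.r r21 (@Lb.d (nat_lit 80) (nat_lit 256) (nat_lit 64) (@Lb.g g8 (@Lb.g g10 (@Lb.g g11 (@Lb.r r1687 (@Lb.r r277 (@Lb.r r616 (@Lb.r r390 (@Lb.d (nat_lit 650) (nat_lit 96) (nat_lit 354) (@Lb.t (@Lb.fp (nat_lit 9) t2136))))))))))))
noncomputable def l13746 : Lb := (@Lb.r r322 (@Lb.d (nat_lit 33) (nat_lit 514) (nat_lit 8) (@Lb.g g8 (@Lb.g g9 (@Lb.g g11 (@Lb.r r601 (@Lb.r r102 (@Lb.r r168 (@Lb.d (nat_lit 152) (nat_lit 148) (nat_lit 137) (@Lb.t (@Lb.fp (nat_lit 9) t1115)))))))))))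
noncomputable def l13747 : Lb := (@Lb.d (nat_lit 9) (nat_lit 4) (nat_lit 64) (@Lb.g g8 (@Lb.g g9 (@Lb.g g10 (@Lb.g g7 (@Lb.r r386 (@Lb.r r2217 (@Lb.r r2120 (@Lb.d (nat_lit 265) (nat_lit 128) (nat_lit 82) (@Lb.fp (nat_lit 9) t730))))))))))
noncomputable def l13748 : Lb := (@Lb.r r323 (@Lb.d (nat_lit 1) (nat_lit 2) (nat_lit 0) (@Lb.g g8 (@Lb.g g9 (@Lb.g g10 (@Lb.r r683 (@Lb.r r2210 (@Lb.r r145 (@Lb.d (nat_lit 516) (nat_lit 69) (nat_lit 70) (@Lb.t (@Lb.fm (nat_lit 9) t1020)))))))))))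
noncomputable def l13749 : Lb := (@Lb.d (nat_lit 66) (nat_lit 641) (nat_lit 70) (@Lb.r r24 (@Lb.r r421 (@Lb.r r418 (@Lb.r r2371 (@Lb.g g6 (@Lb.g g5 (@Lb.d (nat_lit 0) (nat_lit 18) (nat_lit 1) (@Lb.fp (nat_lit 3) t233)))))))))
noncomputable def l13750 : Lb := (@Lb.d (nat_lit 100) (nat_lit 553) (nat_lit 390) (@Lb.r r408 (@Lb.r r1178 (@Lb.r r1683 (@Lb.g g6 (@Lb.g g9 (@Lb.g g4 (@Lb.d (nat_lit 70) (nat_lit 42) (nat_lit 0) (@Lb.r r387 (@Lb.t (@Lb.fp (nat_lit 9) t3013)))))))))))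
noncomputable def l13751 : Lb := (@Lb.d (nat_lit 32) (nat_lit 0) (nat_lit 128) (@Lb.g g10 (@Lb.g g11 (@Lb.r r361 (@Lb.r r2711 (@Lb.r r1380 (@Lb.r r1690 (@Lb.d (nat_lit 594) (nat_lit 136) (nat_lit 0) (@Lb.fp (nat_lit 3) t3011)))))))))
noncomputable def l13752 : Lb := (@Lb.r r82 (@Lb.r r275 (@Lb.d (nat_lit 6) (nat_lit 65) (nat_lit 0) (@Lb.g g4 (@Lb.g g9 (@Lb.r r291 (@Lb.r r98 (@Lb.d (nat_lit 1) (nat_lit 2) (nat_lit 0) (@Lb.fp (nat_lit 3) t5)))))))))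
noncomputable def l13753 : Lb := (@Lb.d (nat_lit 2) (nat_lit 258) (nat_lit 130) (@Lb.g g8 (@Lb.g g9 (@Lb.g g10 (@Lb.g g11 (@Lb.r r2666 (@Lb.r r2585 (@Lb.d (nat_lit 329) (nat_lit 164) (nat_lit 645) (@Lb.fp (nat_lit 9) t588)))))))))
noncomputable def l13754 : Lb := (@Lb.d (nat_lit 32) (nat_lit 514) (nat_lit 2) (@Lb.g g9 (@Lb.g g10 (@Lb.r r2595 (@Lb.r r2709 (@Lb.r r100 (@Lb.r r410 (@Lb.d (nat_lit 80) (nat_lit 26) (nat_lit 261) (@Lb.fm (nat_lit 3) t284)))))))))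
noncomputable def l13755 : Lb := (@Lb.d (nat_lit 102) (nat_lit 134) (nat_lit 513) (@Lb.r r289 (@Lb.r r362 (@Lb.r r72 (@Lb.g g11 (@Lb.g g6 (@Lb.g g5 (@Lb.d (nat_lit 16) (nat_lit 0) (nat_lit 1) (@Lb.t (@Lb.fm (nat_lit 9) t1976))))))))))
noncomputable def l13756 : Lb := (@Lb.d (nat_lit 6) (nat_lit 402) (nat_lit 261) (@Lb.r r21 (@Lb.r r579 (@Lb.r r1366 (@Lb.g g7 (@Lb.g g6 (@Lb.g g5 (@Lb.g g4 (@Lb.d (nat_lit 1) (nat_lit 1) (nat_lit 134) (@Lb.fm (nat_lit 9) t40))))))))))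
noncomputable def l13757 : Lb := (@Lb.d (nat_lit 0) (nat_lit 256) (nat_lit 129) (@Lb.g g10 (@Lb.g g11 (@Lb.r r2723 (@Lb.r r610 (@Lb.d (nat_lit 0) (nat_lit 106) (nat_lit 84) (@Lb.fp (nat_lit 3) t2754)))))))
noncomputable def l13758 : Lb := (@Lb.d (nat_lit 0) (nat_lit 512) (nat_lit 130) (@Lb.g g10 (@Lb.g g11 (@Lb.r r2691 (@Lb.r r578 (@Lb.d (nat_lit 0) (nat_lit 81) (nat_lit 153) (@Lb.fp (nat_lit 3) t885)))))))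
noncomputable def l13759 : Lb := (@Lb.d (nat_lit 2) (nat_lit 2) (nat_lit 2) (@Lb.g g8 (@Lb.g g9 (@Lb.g g10 (@Lb.g g11 (@Lb.r r610 (@Lb.r r612 (@Lb.r r359 (@Lb.r r277 (@Lb.r r548 (@Lb.d (nat_lit 9) (nat_lit 9) (nat_lit 130) (@Lb.fp (nat_lit 9) t145))))))))))))
noncomputable def l13760 : Lb := (@Lb.g g9 (@Lb.r r134 (@Lb.r r328 (@Lb.r r407 (@Lb.r r609 (@Lb.d (nat_lit 0) (nat_lit 256) (nat_lit 16) (@Lb.t (@Lb.fm (nat_lit 3) t334))))))))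
noncomputable def l13761 : Lb := (@Lb.d (nat_lit 401) (nat_lit 5) (nat_lit 100) (@Lb.r r390 (@Lb.r r72 (@Lb.r r279 (@Lb.r r545 (@Lb.g g7 (@Lb.g g6 (@Lb.g g5 (@Lb.d (nat_lit 16) (nat_lit 0) (nat_lit 1) (@Lb.t (@Lb.fm (nat_lit 9) t1035)))))))))))
noncomputable def l13762 : Lb := (@Lb.d (nat_lit 130) (nat_lit 290) (nat_lit 0) (@Lb.g g8 (@Lb.g g9 (@Lb.r r263 (@Lb.r r2178 (@Lb.r r536 (@Lb.r r149 (@Lb.d (nat_lit 260) (nat_lit 37) (nat_lit 134) (@Lb.fm (nat_lit 3) t3014)))))))))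
noncomputable def l13763 : Lb := (@Lb.r r1045 (@Lb.d (nat_lit 2) (nat_lit 512) (nat_lit 130) (@Lb.g g8 (@Lb.g g10 (@Lb.g g11 (@Lb.r r395 (@Lb.r r386 (@Lb.r r72 (@Lb.d (nat_lit 594) (nat_lit 0) (nat_lit 70) (@Lb.t (@Lb.fm (nat_lit 9) t873)))))))))))
noncomputable def l13764 : Lb := (@Lb.d (nat_lit 10) (nat_lit 512) (nat_lit 10) (@Lb.g g8 (@Lb.g g10 (@Lb.g g7 (@Lb.r r402 (@Lb.r r149 (@Lb.r r168 (@Lb.d (nat_lit 164) (nat_lit 6) (nat_lit 128) (@Lb.t (@Lb.fp (nat_lit 9) t145))))))))))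
noncomputable def l13765 : Lb := (@Lb.d (nat_lit 8) (nat_lit 34) (nat_lit 66) (@Lb.g g9 (@Lb.g g10 (@Lb.g g11 (@Lb.r r1702 (@Lb.r r2392 (@Lb.r r1383 (@Lb.r r1365 (@Lb.d (nat_lit 342) (nat_lit 84) (nat_lit 406) (@Lb.t (@Lb.fm (nat_lit 9) t264)))))))))))
noncomputable def l13766 : Lb := (@Lb.d (nat_lit 0) (nat_lit 292) (nat_lit 10) (@Lb.g g9 (@Lb.g g10 (@Lb.g g11 (@Lb.r r643 (@Lb.r r386 (@Lb.r r293 (@Lb.r r24 (@Lb.d (nat_lit 130) (nat_lit 0) (nat_lit 72) (@Lb.t (@Lb.fm (nat_lit 9) t42)))))))))))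
noncomputable def l13767 : Lb := (@Lb.d (nat_lit 2) (nat_lit 0) (nat_lit 128) (@Lb.g g8 (@Lb.g g9 (@Lb.g g10 (@Lb.g g11 (@Lb.r r387 (@Lb.r r402 (@Lb.r r101 (@Lb.r r24 (@Lb.d (nat_lit 2) (nat_lit 10) (nat_lit 2) (@Lb.fm (nat_lit 9) t145)))))))))))
noncomputable def l13768 : Lb := (@Lb.d (nat_lit 8) (nat_lit 0) (nat_lit 1) (@Lb.g g9 (@Lb.g g10 (@Lb.r r2587 (@Lb.r r88 (@Lb.r r406 (@Lb.r r337 (@Lb.d (nat_lit 392) (nat_lit 5) (nat_lit 70) (@Lb.fp (nat_lit 3) t2367)))))))))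
noncomputable def l13769 : Lb := (@Lb.d (nat_lit 0) (nat_lit 278) (nat_lit 2) (@Lb.g g9 (@Lb.g g10 (@Lb.g g11 (@Lb.r r2723 (@Lb.r r2642 (@Lb.r r2465 (@Lb.d (nat_lit 0) (nat_lit 133) (nat_lit 26) (@Lb.t (@Lb.fm (nat_lit 9) t1498))))))))))
noncomputable def l13770 : Lb := (@Lb.d (nat_lit 130) (nat_lit 514) (nat_lit 1) (@Lb.g g8 (@Lb.g g9 (@Lb.g g10 (@Lb.r r263 (@Lb.r r665 (@Lb.r r664 (@Lb.r r74 (@Lb.d (nat_lit 33) (nat_lit 42) (nat_lit 133) (@Lb.t (@Lb.fp (nat_lit 9) t145)))))))))))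
noncomputable def l13771 : Lb := (@Lb.r r1543 (@Lb.r r1304 (@Lb.r r101 (@Lb.r r2194 (@Lb.d (nat_lit 0) (nat_lit 66) (nat_lit 0) (@Lb.fp (nat_lit 1) t307))))))
noncomputable def l13772 : Lb := (@Lb.d (nat_lit 8) (nat_lit 258) (nat_lit 0) (@Lb.g g9 (@Lb.r r1319 (@Lb.r r1126 (@Lb.r r24 (@Lb.d (nat_lit 258) (nat_lit 2) (nat_lit 0) (@Lb.t (@Lb.fm (nat_lit 3) t284))))))))
noncomputable def l13773 : Lb := (@Lb.d (nat_lit 1) (nat_lit 0) (nat_lit 130) (@Lb.g g8 (@Lb.g g10 (@Lb.g g11 (@Lb.r r618 (@Lb.r r616 (@Lb.r r619 (@Lb.r r609 (@Lb.d (nat_lit 9) (nat_lit 146) (nat_lit 128) (@Lb.t (@Lb.fp (nat_lit 9) t71)))))))))))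
noncomputable def l13774 : Lb := (@Lb.d (nat_lit 136) (nat_lit 549) (nat_lit 72) (@Lb.g g9 (@Lb.g g11 (@Lb.r r2436 (@Lb.r r2454 (@Lb.r r2395 (@Lb.d (nat_lit 550) (nat_lit 160) (nat_lit 37) (@Lb.fp (nat_lit 3) t47))))))))
noncomputable def l13775 : Lb := (@Lb.d (nat_lit 8) (nat_lit 2) (nat_lit 0) (@Lb.g g9 (@Lb.r r1319 (@Lb.r r1126 (@Lb.r r24 (@Lb.d (nat_lit 256) (nat_lit 2) (nat_lit 0) (@Lb.t (@Lb.fm (nat_lit 3) t284))))))))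
noncomputable def l13776 : Lb := (@Lb.d (nat_lit 41) (nat_lit 1) (nat_lit 0) (@Lb.g g8 (@Lb.g g9 (@Lb.r r2667 (@Lb.r r390 (@Lb.r r145 (@Lb.r r2632 (@Lb.d (nat_lit 352) (nat_lit 9) (nat_lit 425) (@Lb.fp (nat_lit 3) t51)))))))))
noncomputable def l13777 : Lb := (@Lb.d (nat_lit 128) (nat_lit 512) (nat_lit 128) (@Lb.g g10 (@Lb.g g11 (@Lb.r r361 (@Lb.r r292 (@Lb.r r539 (@Lb.r r134 (@Lb.d (nat_lit 105) (nat_lit 36) (nat_lit 144) (@Lb.fp (nat_lit 3) t40)))))))))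
noncomputable def l13778 : Lb := (@Lb.d (nat_lit 0) (nat_lit 512) (nat_lit 133) (@Lb.g g6 (@Lb.g g11 (@Lb.r r2659 (@Lb.r r101 (@Lb.r r24 (@Lb.d (nat_lit 162) (nat_lit 0) (nat_lit 389) (@Lb.fm (nat_lit 3) t277))))))))
noncomputable def l13779 : Lb := (@Lb.d (nat_lit 0) (nat_lit 258) (nat_lit 130) (@Lb.g g9 (@Lb.g g10 (@Lb.g g11 (@Lb.r r427 (@Lb.r r409 (@Lb.r r90 (@Lb.r r145 (@Lb.d (nat_lit 392) (nat_lit 9) (nat_lit 34) (@Lb.t (@Lb.fm (nat_lit 9) t3015)))))))))))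
noncomputable def l13780 : Lb := (@Lb.r r20 (@Lb.d (nat_lit 4) (nat_lit 257) (nat_lit 74) (@Lb.g g9 (@Lb.g g10 (@Lb.g g11 (@Lb.r r610 (@Lb.r r579 (@Lb.r r8 (@Lb.d (nat_lit 10) (nat_lit 32) (nat_lit 74) (@Lb.t (@Lb.fm (nat_lit 9) t51)))))))))))
noncomputable def l13781 : Lb := (@Lb.d (nat_lit 40) (nat_lit 514) (nat_lit 73) (@Lb.g g9 (@Lb.g g10 (@Lb.g g11 (@Lb.r r2695 (@Lb.r r1352 (@Lb.r r2390 (@Lb.r r409 (@Lb.d (nat_lit 138) (nat_lit 130) (nat_lit 330) (@Lb.t (@Lb.fm (nat_lit 9) t1087)))))))))))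
noncomputable def l13782 : Lb := (@Lb.d (nat_lit 134) (nat_lit 256) (nat_lit 130) (@Lb.g g8 (@Lb.g g9 (@Lb.g g10 (@Lb.g g11 (@Lb.r r2666 (@Lb.r r612 (@Lb.r r1319 (@Lb.r r405 (@Lb.r r2084 (@Lb.d (nat_lit 617) (nat_lit 137) (nat_lit 169) (@Lb.fp (nat_lit 9) t1039))))))))))))
noncomputable def l13783 : Lb := (@Lb.d (nat_lit 2) (nat_lit 0) (nat_lit 66) (@Lb.g g8 (@Lb.g g10 (@Lb.g g7 (@Lb.r r386 (@Lb.d (nat_lit 0) (nat_lit 5) (nat_lit 10) (@Lb.t (@Lb.fm (nat_lit 9) t45))))))))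
noncomputable def l13784 : Lb := (@Lb.r r21 (@Lb.d (nat_lit 385) (nat_lit 8) (nat_lit 130) (@Lb.g g8 (@Lb.g g10 (@Lb.g g11 (@Lb.r r1419 (@Lb.r r101 (@Lb.r r410 (@Lb.d (nat_lit 9) (nat_lit 149) (nat_lit 649) (@Lb.t (@Lb.fm (nat_lit 9) t1606)))))))))))
noncomputable def l13785 : Lb := (@Lb.d (nat_lit 2) (nat_lit 258) (nat_lit 130) (@Lb.g g8 (@Lb.g g9 (@Lb.g g10 (@Lb.g g11 (@Lb.r r1367 (@Lb.r r386 (@Lb.r r1109 (@Lb.r r24 (@Lb.d (nat_lit 130) (nat_lit 137) (nat_lit 329) (@Lb.fp (nat_lit 9) t3016)))))))))))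
noncomputable def l13786 : Lb := (@Lb.d (nat_lit 1) (nat_lit 258) (nat_lit 130) (@Lb.g g8 (@Lb.g g9 (@Lb.g g10 (@Lb.g g11 (@Lb.r r1443 (@Lb.r r297 (@Lb.r r104 (@Lb.r r70 (@Lb.r r132 (@Lb.d (nat_lit 545) (nat_lit 5) (nat_lit 362) (@Lb.fp (nat_lit 9) t88))))))))))))
noncomputable def l13787 : Lb := (@Lb.d (nat_lit 536) (nat_lit 73) (nat_lit 81) (@Lb.r r21 (@Lb.r r1158 (@Lb.r r2376 (@Lb.g g7 (@Lb.g g5 (@Lb.d (nat_lit 64) (nat_lit 1) (nat_lit 384) (@Lb.fm (nat_lit 3) t98))))))))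
noncomputable def l13788 : Lb := (@Lb.d (nat_lit 8) (nat_lit 258) (nat_lit 130) (@Lb.g g9 (@Lb.g g10 (@Lb.g g11 (@Lb.r r614 (@Lb.r r404 (@Lb.r r683 (@Lb.r r673 (@Lb.d (nat_lit 9) (nat_lit 154) (nat_lit 137) (@Lb.t (@Lb.fm (nat_lit 9) t119)))))))))))
noncomputable def l13789 : Lb := (@Lb.d (nat_lit 2) (nat_lit 548) (nat_lit 4) (@Lb.g g8 (@Lb.g g9 (@Lb.g g10 (@Lb.g g11 (@Lb.r r297 (@Lb.r r2583 (@Lb.r r420 (@Lb.r r390 (@Lb.d (nat_lit 609) (nat_lit 10) (nat_lit 345) (@Lb.fm (nat_lit 9) t1397)))))))))))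
noncomputable def l13790 : Lb := (@Lb.d (nat_lit 529) (nat_lit 261) (nat_lit 2) (@Lb.r r2116 (@Lb.r r1057 (@Lb.r r1130 (@Lb.r r2635 (@Lb.g g4 (@Lb.d (nat_lit 17) (nat_lit 0) (nat_lit 0) (@Lb.t (@Lb.fm (nat_lit 3) t2535)))))))))
noncomputable def l13791 : Lb := (@Lb.d (nat_lit 0) (nat_lit 293) (nat_lit 2) (@Lb.g g9 (@Lb.g g10 (@Lb.r r339 (@Lb.r r2658 (@Lb.r r1617 (@Lb.d (nat_lit 0) (nat_lit 69) (nat_lit 410) (@Lb.fm (nat_lit 3) t256))))))))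
noncomputable def l13792 : Lb := (@Lb.g g7 (@Lb.r r134 (@Lb.r r328 (@Lb.r r535 (@Lb.r r289 (@Lb.d (nat_lit 6) (nat_lit 320) (nat_lit 0) (@Lb.t (@Lb.fm (nat_lit 3) t51))))))))
noncomputable def l13793 : Lb := (@Lb.r r323 (@Lb.d (nat_lit 0) (nat_lit 289) (nat_lit 2) (@Lb.g g8 (@Lb.g g9 (@Lb.g g10 (@Lb.r r2647 (@Lb.r r74 (@Lb.r r1320 (@Lb.r r1433 (@Lb.d (nat_lit 661) (nat_lit 150) (nat_lit 681) (@Lb.t (@Lb.fm (nat_lit 9) t51))))))))))))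
noncomputable def l13794 : Lb := (@Lb.d (nat_lit 322) (nat_lit 514) (nat_lit 576) (@Lb.r r24 (@Lb.r r1575 (@Lb.g g7 (@Lb.g g9 (@Lb.d (nat_lit 8) (nat_lit 2) (nat_lit 0) (@Lb.fp (nat_lit 3) t650)))))))
noncomputable def l13795 : Lb := (@Lb.d (nat_lit 1) (nat_lit 0) (nat_lit 66) (@Lb.g g8 (@Lb.g g10 (@Lb.g g11 (@Lb.r r1303 (@Lb.r r2713 (@Lb.r r2650 (@Lb.r r2628 (@Lb.d (nat_lit 400) (nat_lit 2) (nat_lit 425) (@Lb.t (@Lb.fm (nat_lit 9) t441)))))))))))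
noncomputable def l13796 : Lb := (@Lb.d (nat_lit 2) (nat_lit 1) (nat_lit 66) (@Lb.g g8 (@Lb.g g9 (@Lb.g g10 (@Lb.g g11 (@Lb.r r1287 (@Lb.r r532 (@Lb.r r2201 (@Lb.r r2202 (@Lb.r r2180 (@Lb.d (nat_lit 384) (nat_lit 2) (nat_lit 385) (@Lb.fm (nat_lit 9) t441))))))))))))
noncomputable def l13797 : Lb := (@Lb.d (nat_lit 129) (nat_lit 512) (nat_lit 282) (@Lb.r r24 (@Lb.r r101 (@Lb.r r2402 (@Lb.r r1619 (@Lb.g g7 (@Lb.g g6 (@Lb.g g5 (@Lb.d (nat_lit 0) (nat_lit 0) (nat_lit 8) (@Lb.t (@Lb.fm (nat_lit 9) t719)))))))))))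
noncomputable def l13798 : Lb := (@Lb.d (nat_lit 40) (nat_lit 514) (nat_lit 72) (@Lb.g g9 (@Lb.g g10 (@Lb.g g11 (@Lb.r r1355 (@Lb.r r1348 (@Lb.r r2394 (@Lb.r r409 (@Lb.d (nat_lit 577) (nat_lit 130) (nat_lit 330) (@Lb.t (@Lb.fm (nat_lit 9) t1087)))))))))))
noncomputable def l13799 : Lb := (@Lb.d (nat_lit 544) (nat_lit 512) (nat_lit 166) (@Lb.r r24 (@Lb.r r101 (@Lb.r r2466 (@Lb.r r1555 (@Lb.g g7 (@Lb.g g6 (@Lb.g g5 (@Lb.d (nat_lit 0) (nat_lit 5) (nat_lit 132) (@Lb.t (@Lb.fp (nat_lit 9) t719)))))))))))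
noncomputable def l13800 : Lb := (@Lb.r r323 (@Lb.d (nat_lit 1) (nat_lit 258) (nat_lit 2) (@Lb.g g8 (@Lb.g g9 (@Lb.g g10 (@Lb.r r401 (@Lb.r r299 (@Lb.r r392 (@Lb.r r74 (@Lb.d (nat_lit 33) (nat_lit 10) (nat_lit 152) (@Lb.t (@Lb.fp (nat_lit 9) t221))))))))))))
noncomputable def l13801 : Lb := (@Lb.r r323 (@Lb.d (nat_lit 0) (nat_lit 34) (nat_lit 17) (@Lb.g g9 (@Lb.g g6 (@Lb.r r403 (@Lb.r r1561 (@Lb.r r24 (@Lb.d (nat_lit 65) (nat_lit 81) (nat_lit 672) (@Lb.fm (nat_lit 3) t1959)))))))))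
noncomputable def l13802 : Lb := (@Lb.d (nat_lit 0) (nat_lit 0) (nat_lit 74) (@Lb.g g10 (@Lb.g g11 (@Lb.r r595 (@Lb.r r1626 (@Lb.r r2644 (@Lb.r r1321 (@Lb.d (nat_lit 532) (nat_lit 2) (nat_lit 32) (@Lb.fm (nat_lit 3) t507)))))))))
noncomputable def l13803 : Lb := (@Lb.r r323 (@Lb.d (nat_lit 0) (nat_lit 545) (nat_lit 17) (@Lb.g g9 (@Lb.g g6 (@Lb.r r407 (@Lb.r r1557 (@Lb.r r24 (@Lb.d (nat_lit 256) (nat_lit 34) (nat_lit 618) (@Lb.fm (nat_lit 3) t1959)))))))))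
noncomputable def l13804 : Lb := (@Lb.r r21 (@Lb.r r70 (@Lb.d (nat_lit 2) (nat_lit 256) (nat_lit 0) (@Lb.g g8 (@Lb.r r2635 (@Lb.r r402 (@Lb.r r97 (@Lb.r r2084 (@Lb.d (nat_lit 581) (nat_lit 129) (nat_lit 576) (@Lb.t (@Lb.fm (nat_lit 3) t98)))))))))))
noncomputable def l13805 : Lb := (@Lb.d (nat_lit 545) (nat_lit 512) (nat_lit 166) (@Lb.r r24 (@Lb.r r101 (@Lb.r r1683 (@Lb.r r642 (@Lb.g g7 (@Lb.g g6 (@Lb.g g5 (@Lb.d (nat_lit 0) (nat_lit 0) (nat_lit 134) (@Lb.t (@Lb.fp (nat_lit 9) t719)))))))))))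
noncomputable def l13806 : Lb := (@Lb.r r68 (@Lb.r r81 (@Lb.d (nat_lit 0) (nat_lit 512) (nat_lit 18) (@Lb.g g10 (@Lb.r r1419 (@Lb.r r24 (@Lb.r r1317 (@Lb.d (nat_lit 0) (nat_lit 152) (nat_lit 513) (@Lb.t (@Lb.fp (nat_lit 3) t719))))))))))
noncomputable def l13807 : Lb := (@Lb.d (nat_lit 385) (nat_lit 512) (nat_lit 596) (@Lb.r r24 (@Lb.r r1317 (@Lb.r r2466 (@Lb.r r2691 (@Lb.g g7 (@Lb.g g6 (@Lb.g g5 (@Lb.d (nat_lit 0) (nat_lit 0) (nat_lit 134) (@Lb.t (@Lb.fp (nat_lit 9) t719)))))))))))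
noncomputable def l13808 : Lb := (@Lb.d (nat_lit 130) (nat_lit 514) (nat_lit 256) (@Lb.r r24 (@Lb.r r1319 (@Lb.g g9 (@Lb.d (nat_lit 8) (nat_lit 2) (nat_lit 0) (@Lb.t (@Lb.fm (nat_lit 3) t650)))))))
noncomputable def l13809 : Lb := (@Lb.r r21 (@Lb.r r70 (@Lb.d (nat_lit 2) (nat_lit 0) (nat_lit 0) (@Lb.g g8 (@Lb.r r1563 (@Lb.r r409 (@Lb.r r90 (@Lb.r r1176 (@Lb.d (nat_lit 40) (nat_lit 5) (nat_lit 17) (@Lb.t (@Lb.fp (nat_lit 3) t68)))))))))))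
noncomputable def l13810 : Lb := (@Lb.r r81 (@Lb.d (nat_lit 130) (nat_lit 260) (nat_lit 25) (@Lb.g g8 (@Lb.g g6 (@Lb.r r1385 (@Lb.r r2583 (@Lb.r r1320 (@Lb.d (nat_lit 645) (nat_lit 162) (nat_lit 328) (@Lb.fm (nat_lit 3) t2095)))))))))
noncomputable def l13811 : Lb := (@Lb.d (nat_lit 137) (nat_lit 6) (nat_lit 26) (@Lb.g g8 (@Lb.g g9 (@Lb.g g6 (@Lb.r r1385 (@Lb.r r2583 (@Lb.r r1320 (@Lb.d (nat_lit 645) (nat_lit 162) (nat_lit 328) (@Lb.t (@Lb.fm (nat_lit 9) t2095))))))))))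
noncomputable def l13812 : Lb := (@Lb.r r82 (@Lb.d (nat_lit 130) (nat_lit 353) (nat_lit 0) (@Lb.g g8 (@Lb.g g5 (@Lb.r r423 (@Lb.r r98 (@Lb.r r584 (@Lb.d (nat_lit 73) (nat_lit 1) (nat_lit 154) (@Lb.fm (nat_lit 3) t7)))))))))
noncomputable def l13813 : Lb := (@Lb.r r82 (@Lb.d (nat_lit 129) (nat_lit 609) (nat_lit 0) (@Lb.g g8 (@Lb.g g5 (@Lb.r r423 (@Lb.r r98 (@Lb.r r584 (@Lb.d (nat_lit 73) (nat_lit 1) (nat_lit 154) (@Lb.fm (nat_lit 3) t7)))))))))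
noncomputable def l13814 : Lb := (@Lb.r r82 (@Lb.d (nat_lit 130) (nat_lit 97) (nat_lit 0) (@Lb.g g8 (@Lb.g g5 (@Lb.r r423 (@Lb.r r98 (@Lb.r r584 (@Lb.d (nat_lit 73) (nat_lit 1) (nat_lit 16) (@Lb.fm (nat_lit 3) t7)))))))))
noncomputable def l13815 : Lb := (@Lb.d (nat_lit 2) (nat_lit 516) (nat_lit 128) (@Lb.g g8 (@Lb.g g9 (@Lb.g g10 (@Lb.g g11 (@Lb.r r162 (@Lb.r r660 (@Lb.r r425 (@Lb.r r279 (@Lb.r r548 (@Lb.d (nat_lit 2) (nat_lit 10) (nat_lit 130) (@Lb.fp (nat_lit 9) t622))))))))))))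
noncomputable def l13816 : Lb := (@Lb.d (nat_lit 0) (nat_lit 256) (nat_lit 5) (@Lb.g g10 (@Lb.g g11 (@Lb.r r387 (@Lb.r r402 (@Lb.d (nat_lit 0) (nat_lit 149) (nat_lit 265) (@Lb.fp (nat_lit 3) t334)))))))
noncomputable def l13817 : Lb := (@Lb.d (nat_lit 8) (nat_lit 514) (nat_lit 0) (@Lb.g g9 (@Lb.g g10 (@Lb.r r2136 (@Lb.r r2197 (@Lb.d (nat_lit 534) (nat_lit 138) (nat_lit 0) (@Lb.fp (nat_lit 3) t1096)))))))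
noncomputable def l13818 : Lb := (@Lb.d (nat_lit 0) (nat_lit 256) (nat_lit 130) (@Lb.g g9 (@Lb.g g10 (@Lb.g g11 (@Lb.r r642 (@Lb.r r387 (@Lb.r r101 (@Lb.r r24 (@Lb.d (nat_lit 34) (nat_lit 0) (nat_lit 129) (@Lb.t (@Lb.fp (nat_lit 9) t40)))))))))))
noncomputable def l13819 : Lb := (@Lb.d (nat_lit 32) (nat_lit 512) (nat_lit 2) (@Lb.g g9 (@Lb.g g10 (@Lb.r r1543 (@Lb.r r2713 (@Lb.r r100 (@Lb.r r410 (@Lb.d (nat_lit 649) (nat_lit 146) (nat_lit 138) (@Lb.fm (nat_lit 3) t2366)))))))))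
noncomputable def l13820 : Lb := (@Lb.d (nat_lit 0) (nat_lit 0) (nat_lit 130) (@Lb.g g9 (@Lb.g g10 (@Lb.g g11 (@Lb.r r642 (@Lb.r r387 (@Lb.r r101 (@Lb.r r24 (@Lb.d (nat_lit 32) (nat_lit 0) (nat_lit 129) (@Lb.t (@Lb.fp (nat_lit 9) t167)))))))))))
noncomputable def l13821 : Lb := (@Lb.d (nat_lit 0) (nat_lit 256) (nat_lit 9) (@Lb.g g9 (@Lb.g g10 (@Lb.r r339 (@Lb.r r2658 (@Lb.d (nat_lit 0) (nat_lit 169) (nat_lit 426) (@Lb.fm (nat_lit 3) t591)))))))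
noncomputable def l13822 : Lb := (@Lb.d (nat_lit 1) (nat_lit 512) (nat_lit 0) (@Lb.g g4 (@Lb.r r1158 (@Lb.r r2136 (@Lb.r r2341 (@Lb.r r2579 (@Lb.t (@Lb.fm (nat_lit 3) t2604))))))))
noncomputable def l13823 : Lb := (@Lb.d (nat_lit 136) (nat_lit 2) (nat_lit 130) (@Lb.g g9 (@Lb.g g10 (@Lb.g g11 (@Lb.r r166 (@Lb.r r264 (@Lb.r r599 (@Lb.r r289 (@Lb.d (nat_lit 26) (nat_lit 36) (nat_lit 65) (@Lb.t (@Lb.fm (nat_lit 9) t242)))))))))))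
noncomputable def l13824 : Lb := (@Lb.r r273 (@Lb.d (nat_lit 2) (nat_lit 544) (nat_lit 578) (@Lb.g g8 (@Lb.g g10 (@Lb.g g7 (@Lb.r r2641 (@Lb.r r98 (@Lb.r r24 (@Lb.d (nat_lit 10) (nat_lit 137) (nat_lit 148) (@Lb.t (@Lb.fm (nat_lit 9) t1900)))))))))))
noncomputable def l13825 : Lb := (@Lb.d (nat_lit 2) (nat_lit 2) (nat_lit 130) (@Lb.g g8 (@Lb.g g9 (@Lb.g g10 (@Lb.g g11 (@Lb.r r427 (@Lb.r r388 (@Lb.r r70 (@Lb.r r153 (@Lb.r r132 (@Lb.d (nat_lit 9) (nat_lit 73) (nat_lit 18) (@Lb.fp (nat_lit 9) t1022))))))))))))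
noncomputable def l13826 : Lb := (@Lb.d (nat_lit 2) (nat_lit 514) (nat_lit 66) (@Lb.g g8 (@Lb.g g9 (@Lb.g g10 (@Lb.g g7 (@Lb.r r417 (@Lb.r r98 (@Lb.r r24 (@Lb.d (nat_lit 10) (nat_lit 137) (nat_lit 265) (@Lb.fm (nat_lit 9) t988))))))))))
noncomputable def l13827 : Lb := (@Lb.r r1158 (@Lb.r r2136 (@Lb.r r2341 (@Lb.r r2579 (@Lb.g g11 (@Lb.g g6 (@Lb.fp (nat_lit 3) t1956)))))))
noncomputable def l13828 : Lb := (@Lb.d (nat_lit 618) (nat_lit 609) (nat_lit 548) (@Lb.r r1637 (@Lb.r r344 (@Lb.r r2386 (@Lb.r r427 (@Lb.g g6 (@Lb.g g5 (@Lb.g g4 (@Lb.d (nat_lit 70) (nat_lit 18) (nat_lit 1) (@Lb.t (@Lb.fp (nat_lit 9) t71)))))))))))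
noncomputable def l13829 : Lb := (@Lb.r r323 (@Lb.d (nat_lit 8) (nat_lit 2) (nat_lit 2) (@Lb.g g9 (@Lb.g g10 (@Lb.r r354 (@Lb.r r387 (@Lb.d (nat_lit 2) (nat_lit 149) (nat_lit 264) (@Lb.fm (nat_lit 3) t51))))))))
noncomputable def l13830 : Lb := (@Lb.d (nat_lit 278) (nat_lit 96) (nat_lit 81) (@Lb.r r2116 (@Lb.r r1178 (@Lb.r r2385 (@Lb.g g7 (@Lb.g g6 (@Lb.g g4 (@Lb.d (nat_lit 5) (nat_lit 32) (nat_lit 321) (@Lb.t (@Lb.fm (nat_lit 9) t152))))))))))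
noncomputable def l13831 : Lb := (@Lb.d (nat_lit 5) (nat_lit 598) (nat_lit 345) (@Lb.r r2401 (@Lb.r r1431 (@Lb.r r584 (@Lb.r r402 (@Lb.g g7 (@Lb.g g5 (@Lb.d (nat_lit 4) (nat_lit 5) (nat_lit 0) (@Lb.fp (nat_lit 3) t2363)))))))))
noncomputable def l13832 : Lb := (@Lb.r r81 (@Lb.r r323 (@Lb.d (nat_lit 2) (nat_lit 520) (nat_lit 5) (@Lb.g g8 (@Lb.g g6 (@Lb.r r1429 (@Lb.r r2664 (@Lb.r r1611 (@Lb.d (nat_lit 576) (nat_lit 162) (nat_lit 577) (@Lb.fp (nat_lit 3) t3017))))))))))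
noncomputable def l13833 : Lb := (@Lb.d (nat_lit 5) (nat_lit 86) (nat_lit 345) (@Lb.r r2401 (@Lb.r r1431 (@Lb.r r584 (@Lb.r r402 (@Lb.g g5 (@Lb.d (nat_lit 4) (nat_lit 5) (nat_lit 0) (@Lb.t (@Lb.fp (nat_lit 3) t3018)))))))))
noncomputable def l13834 : Lb := (@Lb.d (nat_lit 5) (nat_lit 290) (nat_lit 130) (@Lb.g g4 (@Lb.g g9 (@Lb.g g10 (@Lb.g g11 (@Lb.r r1702 (@Lb.r r1415 (@Lb.r r1169 (@Lb.d (nat_lit 65) (nat_lit 149) (nat_lit 665) (@Lb.fp (nat_lit 9) t809))))))))))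
noncomputable def l13835 : Lb := (@Lb.d (nat_lit 145) (nat_lit 265) (nat_lit 73) (@Lb.g g8 (@Lb.g g9 (@Lb.g g10 (@Lb.g g11 (@Lb.r r2723 (@Lb.r r134 (@Lb.r r2657 (@Lb.r r1284 (@Lb.d (nat_lit 358) (nat_lit 136) (nat_lit 661) (@Lb.fm (nat_lit 9) t1660)))))))))))
noncomputable def l13836 : Lb := (@Lb.d (nat_lit 2) (nat_lit 266) (nat_lit 137) (@Lb.g g11 (@Lb.g g8 (@Lb.fm (nat_lit 3) t21))))
noncomputable def l13837 : Lb := (@Lb.d (nat_lit 2) (nat_lit 10) (nat_lit 2) (@Lb.g g8 (@Lb.t (@Lb.fp (nat_lit 3) t21))))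
noncomputable def l13838 : Lb := (@Lb.d (nat_lit 0) (nat_lit 550) (nat_lit 133) (@Lb.g g8 (@Lb.g g9 (@Lb.g g10 (@Lb.g g11 (@Lb.r r387 (@Lb.r r418 (@Lb.r r1561 (@Lb.r r24 (@Lb.d (nat_lit 17) (nat_lit 0) (nat_lit 149) (@Lb.fp (nat_lit 9) t893)))))))))))
noncomputable def l13839 : Lb := (@Lb.d (nat_lit 582) (nat_lit 160) (nat_lit 289) (@Lb.r r2645 (@Lb.r r1316 (@Lb.r r603 (@Lb.g g6 (@Lb.g g5 (@Lb.d (nat_lit 4) (nat_lit 17) (nat_lit 33) (@Lb.r r387 (@Lb.fp (nat_lit 3) t3019)))))))))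
noncomputable def l13840 : Lb := (@Lb.r r21 (@Lb.d (nat_lit 146) (nat_lit 512) (nat_lit 64) (@Lb.g g8 (@Lb.g g10 (@Lb.g g11 (@Lb.r r1691 (@Lb.r r1689 (@Lb.r r1370 (@Lb.r r1156 (@Lb.d (nat_lit 297) (nat_lit 37) (nat_lit 406) (@Lb.t (@Lb.fp (nat_lit 9) t264))))))))))))
noncomputable def l13841 : Lb := (@Lb.d (nat_lit 0) (nat_lit 38) (nat_lit 133) (@Lb.g g8 (@Lb.g g9 (@Lb.g g10 (@Lb.g g11 (@Lb.r r387 (@Lb.r r418 (@Lb.r r1561 (@Lb.r r24 (@Lb.d (nat_lit 16) (nat_lit 0) (nat_lit 149) (@Lb.fp (nat_lit 9) t560)))))))))))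
noncomputable def l13842 : Lb := (@Lb.d (nat_lit 2) (nat_lit 513) (nat_lit 10) (@Lb.g g8 (@Lb.g g9 (@Lb.g g10 (@Lb.r r2315 (@Lb.r r425 (@Lb.r r2468 (@Lb.r r2150 (@Lb.d (nat_lit 281) (nat_lit 9) (nat_lit 168) (@Lb.t (@Lb.fp (nat_lit 9) t626)))))))))))
noncomputable def l13843 : Lb := (@Lb.r r21 (@Lb.d (nat_lit 129) (nat_lit 256) (nat_lit 66) (@Lb.g g8 (@Lb.g g10 (@Lb.g g11 (@Lb.r r1691 (@Lb.r r1689 (@Lb.r r1370 (@Lb.r r1368 (@Lb.d (nat_lit 580) (nat_lit 8) (nat_lit 586) (@Lb.t (@Lb.fm (nat_lit 9) t144))))))))))))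
noncomputable def l13844 : Lb := (@Lb.d (nat_lit 582) (nat_lit 677) (nat_lit 256) (@Lb.r r2645 (@Lb.r r1316 (@Lb.r r603 (@Lb.g g6 (@Lb.g g5 (@Lb.d (nat_lit 4) (nat_lit 17) (nat_lit 33) (@Lb.r r387 (@Lb.fp (nat_lit 3) t1916)))))))))
noncomputable def l13845 : Lb := (@Lb.d (nat_lit 0) (nat_lit 33) (nat_lit 66) (@Lb.g g8 (@Lb.g g9 (@Lb.g g10 (@Lb.g g11 (@Lb.r r2626 (@Lb.r r2627 (@Lb.r r2201 (@Lb.r r24 (@Lb.d (nat_lit 338) (nat_lit 0) (nat_lit 152) (@Lb.fp (nat_lit 9) t2504)))))))))))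
noncomputable def l13846 : Lb := (@Lb.r r323 (@Lb.d (nat_lit 2) (nat_lit 521) (nat_lit 1) (@Lb.g g8 (@Lb.g g9 (@Lb.g g10 (@Lb.r r401 (@Lb.r r299 (@Lb.r r420 (@Lb.r r102 (@Lb.d (nat_lit 20) (nat_lit 5) (nat_lit 138) (@Lb.t (@Lb.fm (nat_lit 9) t1506))))))))))))
noncomputable def l13847 : Lb := (@Lb.r r82 (@Lb.d (nat_lit 2) (nat_lit 2) (nat_lit 128) (@Lb.g g8 (@Lb.g g9 (@Lb.g g11 (@Lb.r r1307 (@Lb.r r418 (@Lb.r r289 (@Lb.r r24 (@Lb.d (nat_lit 266) (nat_lit 160) (nat_lit 384) (@Lb.t (@Lb.fp (nat_lit 9) t897))))))))))))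
noncomputable def l13848 : Lb := (@Lb.d (nat_lit 0) (nat_lit 38) (nat_lit 133) (@Lb.g g8 (@Lb.g g9 (@Lb.g g10 (@Lb.g g11 (@Lb.r r387 (@Lb.r r418 (@Lb.r r1561 (@Lb.r r24 (@Lb.d (nat_lit 24) (nat_lit 2) (nat_lit 149) (@Lb.fp (nat_lit 9) t893)))))))))))
noncomputable def l13849 : Lb := (@Lb.d (nat_lit 17) (nat_lit 265) (nat_lit 130) (@Lb.g g8 (@Lb.g g9 (@Lb.g g10 (@Lb.g g11 (@Lb.r r2379 (@Lb.r r402 (@Lb.r r2729 (@Lb.r r2728 (@Lb.d (nat_lit 336) (nat_lit 154) (nat_lit 420) (@Lb.fm (nat_lit 9) t3020)))))))))))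
noncomputable def l13850 : Lb := (@Lb.d (nat_lit 0) (nat_lit 1) (nat_lit 73) (@Lb.g g8 (@Lb.g g9 (@Lb.g g10 (@Lb.g g11 (@Lb.r r2691 (@Lb.r r2401 (@Lb.r r1178 (@Lb.r r2436 (@Lb.d (nat_lit 289) (nat_lit 160) (nat_lit 90) (@Lb.fm (nat_lit 9) t521)))))))))))
noncomputable def l13851 : Lb := (@Lb.d (nat_lit 0) (nat_lit 512) (nat_lit 73) (@Lb.g g5 (@Lb.g g10 (@Lb.g g11 (@Lb.r r2691 (@Lb.r r2658 (@Lb.d (nat_lit 5) (nat_lit 33) (nat_lit 424) (@Lb.t (@Lb.fm (nat_lit 9) t71)))))))))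
noncomputable def l13852 : Lb := (@Lb.d (nat_lit 0) (nat_lit 512) (nat_lit 10) (@Lb.g g5 (@Lb.g g10 (@Lb.d (nat_lit 0) (nat_lit 88) (nat_lit 514) (@Lb.fp (nat_lit 3) t633)))))
noncomputable def l13853 : Lb := (@Lb.d (nat_lit 66) (nat_lit 145) (nat_lit 384) (@Lb.r r1313 (@Lb.r r323 (@Lb.r r598 (@Lb.g g6 (@Lb.g g5 (@Lb.g g4 (@Lb.d (nat_lit 1) (nat_lit 1) (nat_lit 1) (@Lb.r r387 (@Lb.t (@Lb.fm (nat_lit 9) t390)))))))))))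
noncomputable def l13854 : Lb := (@Lb.d (nat_lit 2) (nat_lit 544) (nat_lit 130) (@Lb.g g8 (@Lb.g g10 (@Lb.g g11 (@Lb.r r353 (@Lb.r r2714 (@Lb.r r2712 (@Lb.r r2587 (@Lb.d (nat_lit 329) (nat_lit 33) (nat_lit 522) (@Lb.t (@Lb.fm (nat_lit 9) t2)))))))))))
noncomputable def l13855 : Lb := (@Lb.d (nat_lit 2) (nat_lit 256) (nat_lit 2) (@Lb.g g8 (@Lb.g g10 (@Lb.r r337 (@Lb.r r2730 (@Lb.r r2728 (@Lb.r r2603 (@Lb.r r537 (@Lb.d (nat_lit 262) (nat_lit 1) (nat_lit 330) (@Lb.fp (nat_lit 3) t2))))))))))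
noncomputable def l13856 : Lb := (@Lb.d (nat_lit 65) (nat_lit 0) (nat_lit 288) (@Lb.r r20 (@Lb.r r297 (@Lb.r r323 (@Lb.g g10 (@Lb.g g5 (@Lb.g g4 (@Lb.d (nat_lit 10) (nat_lit 0) (nat_lit 22) (@Lb.r r387 (@Lb.t (@Lb.fp (nat_lit 9) t51)))))))))))
noncomputable def l13857 : Lb := (@Lb.d (nat_lit 8) (nat_lit 545) (nat_lit 0) (@Lb.g g9 (@Lb.r r2587 (@Lb.r r1414 (@Lb.r r2580 (@Lb.r r105 (@Lb.d (nat_lit 38) (nat_lit 22) (nat_lit 257) (@Lb.t (@Lb.fm (nat_lit 3) t71)))))))))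
noncomputable def l13858 : Lb := (@Lb.g g4 (@Lb.g g5 (@Lb.d (nat_lit 5) (nat_lit 257) (nat_lit 0) (@Lb.fm (nat_lit 3) t2))))
noncomputable def l13859 : Lb := (@Lb.d (nat_lit 9) (nat_lit 6) (nat_lit 128) (@Lb.g g8 (@Lb.g g9 (@Lb.g g10 (@Lb.g g11 (@Lb.r r1699 (@Lb.r r596 (@Lb.r r682 (@Lb.r r2217 (@Lb.r r2212 (@Lb.d (nat_lit 586) (nat_lit 97) (nat_lit 586) (@Lb.fm (nat_lit 9) t68))))))))))))
noncomputable def l13860 : Lb := (@Lb.d (nat_lit 536) (nat_lit 258) (nat_lit 17) (@Lb.r r20 (@Lb.r r2073 (@Lb.r r24 (@Lb.g g5 (@Lb.g g8 (@Lb.fm (nat_lit 3) t87)))))))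
noncomputable def l13861 : Lb := (@Lb.d (nat_lit 2) (nat_lit 512) (nat_lit 130) (@Lb.g g8 (@Lb.g g9 (@Lb.g g10 (@Lb.g g11 (@Lb.r r1194 (@Lb.r r420 (@Lb.r r283 (@Lb.r r1557 (@Lb.r r36 (@Lb.d (nat_lit 385) (nat_lit 66) (nat_lit 586) (@Lb.fm (nat_lit 9) t284))))))))))))
noncomputable def l13862 : Lb := (@Lb.r r82 (@Lb.d (nat_lit 5) (nat_lit 0) (nat_lit 64) (@Lb.g g8 (@Lb.g g9 (@Lb.g g7 (@Lb.r r386 (@Lb.r r2345 (@Lb.r r36 (@Lb.d (nat_lit 386) (nat_lit 0) (nat_lit 650) (@Lb.t (@Lb.fp (nat_lit 9) t42)))))))))))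
noncomputable def l13863 : Lb := (@Lb.d (nat_lit 2) (nat_lit 0) (nat_lit 130) (@Lb.g g8 (@Lb.g g9 (@Lb.g g10 (@Lb.g g11 (@Lb.r r1194 (@Lb.r r420 (@Lb.r r283 (@Lb.r r1557 (@Lb.r r36 (@Lb.d (nat_lit 385) (nat_lit 66) (nat_lit 517) (@Lb.fm (nat_lit 9) t284))))))))))))
noncomputable def l13864 : Lb := (@Lb.d (nat_lit 2) (nat_lit 2) (nat_lit 64) (@Lb.g g8 (@Lb.g g9 (@Lb.g g10 (@Lb.g g11 (@Lb.r r618 (@Lb.r r25 (@Lb.d (nat_lit 2) (nat_lit 26) (nat_lit 130) (@Lb.fp (nat_lit 9) t71)))))))))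
noncomputable def l13865 : Lb := (@Lb.r r323 (@Lb.d (nat_lit 2) (nat_lit 546) (nat_lit 2) (@Lb.g g8 (@Lb.g g9 (@Lb.g g10 (@Lb.r r599 (@Lb.r r74 (@Lb.r r296 (@Lb.r r409 (@Lb.d (nat_lit 149) (nat_lit 149) (nat_lit 258) (@Lb.t (@Lb.fm (nat_lit 9) t51))))))))))))
noncomputable def l13866 : Lb := (@Lb.r r323 (@Lb.d (nat_lit 0) (nat_lit 34) (nat_lit 2) (@Lb.g g8 (@Lb.g g9 (@Lb.g g10 (@Lb.r r599 (@Lb.r r74 (@Lb.r r296 (@Lb.r r409 (@Lb.d (nat_lit 149) (nat_lit 154) (nat_lit 256) (@Lb.t (@Lb.fm (nat_lit 9) t51))))))))))))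
noncomputable def l13867 : Lb := (@Lb.d (nat_lit 1) (nat_lit 128) (nat_lit 1) (@Lb.r r85 (@Lb.r r36 (@Lb.r r579 (@Lb.r r1410 (@Lb.g g7 (@Lb.d (nat_lit 0) (nat_lit 0) (nat_lit 132) (@Lb.t (@Lb.fm (nat_lit 3) t979)))))))))
noncomputable def l13868 : Lb := (@Lb.d (nat_lit 24) (nat_lit 257) (nat_lit 128) (@Lb.g g8 (@Lb.g g9 (@Lb.g g10 (@Lb.g g11 (@Lb.r r1547 (@Lb.r r418 (@Lb.r r145 (@Lb.r r1540 (@Lb.d (nat_lit 266) (nat_lit 137) (nat_lit 418) (@Lb.fp (nat_lit 9) t50)))))))))))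
noncomputable def l13869 : Lb := (@Lb.d (nat_lit 389) (nat_lit 673) (nat_lit 576) (@Lb.r r2600 (@Lb.r r2666 (@Lb.r r1559 (@Lb.g g7 (@Lb.g g5 (@Lb.g g4 (@Lb.d (nat_lit 130) (nat_lit 129) (nat_lit 0) (@Lb.r r74 (@Lb.t (@Lb.fp (nat_lit 9) t68)))))))))))
noncomputable def l13870 : Lb := (@Lb.r r323 (@Lb.d (nat_lit 0) (nat_lit 290) (nat_lit 2) (@Lb.g g8 (@Lb.g g9 (@Lb.g g10 (@Lb.r r599 (@Lb.r r74 (@Lb.r r296 (@Lb.r r409 (@Lb.d (nat_lit 149) (nat_lit 149) (nat_lit 258) (@Lb.t (@Lb.fm (nat_lit 9) t51))))))))))))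
noncomputable def l13871 : Lb := (@Lb.r r323 (@Lb.d (nat_lit 0) (nat_lit 546) (nat_lit 2) (@Lb.g g8 (@Lb.g g9 (@Lb.g g10 (@Lb.r r599 (@Lb.r r74 (@Lb.r r296 (@Lb.r r409 (@Lb.d (nat_lit 152) (nat_lit 150) (nat_lit 258) (@Lb.t (@Lb.fm (nat_lit 9) t51))))))))))))
noncomputable def l13872 : Lb := (@Lb.r r70 (@Lb.d (nat_lit 10) (nat_lit 257) (nat_lit 128) (@Lb.g g8 (@Lb.g g9 (@Lb.g g11 (@Lb.r r1611 (@Lb.r r418 (@Lb.r r145 (@Lb.r r1060 (@Lb.d (nat_lit 326) (nat_lit 72) (nat_lit 546) (@Lb.t (@Lb.fm (nat_lit 9) t50))))))))))))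
noncomputable def l13873 : Lb := (@Lb.d (nat_lit 0) (nat_lit 8) (nat_lit 130) (@Lb.g g10 (@Lb.g g11 (@Lb.r r2707 (@Lb.r r1385 (@Lb.r r1174 (@Lb.r r8 (@Lb.d (nat_lit 69) (nat_lit 73) (nat_lit 393) (@Lb.fm (nat_lit 3) t1866)))))))))
noncomputable def l13874 : Lb := (@Lb.r r323 (@Lb.d (nat_lit 130) (nat_lit 264) (nat_lit 34) (@Lb.g g8 (@Lb.g g10 (@Lb.r r583 (@Lb.r r2145 (@Lb.r r408 (@Lb.d (nat_lit 149) (nat_lit 88) (nat_lit 100) (@Lb.fp (nat_lit 3) t51)))))))))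
noncomputable def l13875 : Lb := (@Lb.r r323 (@Lb.d (nat_lit 8) (nat_lit 514) (nat_lit 2) (@Lb.g g8 (@Lb.g g9 (@Lb.g g10 (@Lb.r r74 (@Lb.r r584 (@Lb.r r299 (@Lb.r r289 (@Lb.d (nat_lit 10) (nat_lit 10) (nat_lit 2) (@Lb.t (@Lb.fm (nat_lit 9) t51))))))))))))
noncomputable def l13876 : Lb := (@Lb.r r322 (@Lb.d (nat_lit 64) (nat_lit 288) (nat_lit 640) (@Lb.g g11 (@Lb.r r1684 (@Lb.r r1174 (@Lb.r r2145 (@Lb.d (nat_lit 2) (nat_lit 74) (nat_lit 36) (@Lb.t (@Lb.fp (nat_lit 3) t51)))))))))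
noncomputable def l13877 : Lb := (@Lb.d (nat_lit 2) (nat_lit 258) (nat_lit 64) (@Lb.g g8 (@Lb.g g9 (@Lb.g g11 (@Lb.r r662 (@Lb.r r387 (@Lb.r r25 (@Lb.d (nat_lit 9) (nat_lit 21) (nat_lit 134) (@Lb.t (@Lb.fp (nat_lit 9) t51))))))))))
noncomputable def l13878 : Lb := (@Lb.d (nat_lit 128) (nat_lit 512) (nat_lit 64) (@Lb.g g11 (@Lb.r r264 (@Lb.r r519 (@Lb.r r81 (@Lb.r r162 (@Lb.r r145 (@Lb.d (nat_lit 129) (nat_lit 65) (nat_lit 146) (@Lb.t (@Lb.fm (nat_lit 3) t2))))))))))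
noncomputable def l13879 : Lb := (@Lb.d (nat_lit 32) (nat_lit 0) (nat_lit 128) (@Lb.g g10 (@Lb.g g11 (@Lb.r r2711 (@Lb.r r1384 (@Lb.r r2198 (@Lb.r r289 (@Lb.d (nat_lit 617) (nat_lit 166) (nat_lit 341) (@Lb.fm (nat_lit 3) t51)))))))))
noncomputable def l13880 : Lb := (@Lb.d (nat_lit 1) (nat_lit 288) (nat_lit 128) (@Lb.g g8 (@Lb.g g10 (@Lb.g g11 (@Lb.r r2726 (@Lb.r r105 (@Lb.r r616 (@Lb.r r299 (@Lb.d (nat_lit 641) (nat_lit 161) (nat_lit 517) (@Lb.t (@Lb.fp (nat_lit 9) t51)))))))))))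
noncomputable def l13881 : Lb := (@Lb.r r21 (@Lb.d (nat_lit 138) (nat_lit 256) (nat_lit 130) (@Lb.g g8 (@Lb.g g10 (@Lb.g g11 (@Lb.r r1553 (@Lb.r r1435 (@Lb.r r386 (@Lb.r r88 (@Lb.d (nat_lit 274) (nat_lit 70) (nat_lit 520) (@Lb.t (@Lb.fm (nat_lit 9) t3021))))))))))))
noncomputable def l13882 : Lb := (@Lb.d (nat_lit 4) (nat_lit 514) (nat_lit 72) (@Lb.g g8 (@Lb.g g9 (@Lb.g g11 (@Lb.r r1410 (@Lb.r r579 (@Lb.r r1049 (@Lb.d (nat_lit 522) (nat_lit 18) (nat_lit 297) (@Lb.t (@Lb.fm (nat_lit 9) t210))))))))))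
noncomputable def l13883 : Lb := (@Lb.d (nat_lit 0) (nat_lit 32) (nat_lit 73) (@Lb.g g8 (@Lb.g g10 (@Lb.g g11 (@Lb.r r2138 (@Lb.r r149 (@Lb.r r328 (@Lb.r r2599 (@Lb.d (nat_lit 650) (nat_lit 168) (nat_lit 386) (@Lb.t (@Lb.fm (nat_lit 9) t71)))))))))))
noncomputable def l13884 : Lb := (@Lb.r r21 (@Lb.r r70 (@Lb.d (nat_lit 294) (nat_lit 0) (nat_lit 0) (@Lb.g g8 (@Lb.r r1291 (@Lb.r r402 (@Lb.r r97 (@Lb.d (nat_lit 521) (nat_lit 152) (nat_lit 18) (@Lb.t (@Lb.fp (nat_lit 3) t644))))))))))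
noncomputable def l13885 : Lb := (@Lb.r r21 (@Lb.d (nat_lit 2) (nat_lit 512) (nat_lit 73) (@Lb.g g8 (@Lb.g g10 (@Lb.g g11 (@Lb.r r1691 (@Lb.r r2580 (@Lb.r r2473 (@Lb.r r2154 (@Lb.d (nat_lit 68) (nat_lit 69) (nat_lit 610) (@Lb.t (@Lb.fm (nat_lit 9) t228))))))))))))
noncomputable def l13886 : Lb := (@Lb.r r331 (@Lb.d (nat_lit 37) (nat_lit 2) (nat_lit 2) (@Lb.g g8 (@Lb.g g9 (@Lb.g g10 (@Lb.r r1430 (@Lb.r r347 (@Lb.r r1573 (@Lb.r r2708 (@Lb.d (nat_lit 549) (nat_lit 101) (nat_lit 390) (@Lb.t (@Lb.fm (nat_lit 9) t163))))))))))))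
noncomputable def l13887 : Lb := (@Lb.d (nat_lit 4) (nat_lit 514) (nat_lit 2) (@Lb.g g8 (@Lb.g g9 (@Lb.g g10 (@Lb.g g7 (@Lb.r r386 (@Lb.r r2665 (@Lb.r r36 (@Lb.d (nat_lit 361) (nat_lit 89) (nat_lit 420) (@Lb.fm (nat_lit 9) t2877))))))))))
noncomputable def l13888 : Lb := (@Lb.r r21 (@Lb.d (nat_lit 2) (nat_lit 0) (nat_lit 73) (@Lb.g g8 (@Lb.g g10 (@Lb.g g11 (@Lb.r r1691 (@Lb.r r2580 (@Lb.r r2473 (@Lb.r r2154 (@Lb.d (nat_lit 68) (nat_lit 64) (nat_lit 609) (@Lb.t (@Lb.fm (nat_lit 9) t228))))))))))))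
noncomputable def l13889 : Lb := (@Lb.r r331 (@Lb.d (nat_lit 166) (nat_lit 2) (nat_lit 2) (@Lb.g g8 (@Lb.g g9 (@Lb.g g10 (@Lb.r r2457 (@Lb.r r2343 (@Lb.r r1604 (@Lb.r r1098 (@Lb.d (nat_lit 592) (nat_lit 138) (nat_lit 424) (@Lb.t (@Lb.fm (nat_lit 9) t163))))))))))))
noncomputable def l13890 : Lb := (@Lb.r r21 (@Lb.d (nat_lit 2) (nat_lit 256) (nat_lit 73) (@Lb.g g8 (@Lb.g g10 (@Lb.g g11 (@Lb.r r1691 (@Lb.r r2580 (@Lb.r r2473 (@Lb.r r2154 (@Lb.d (nat_lit 73) (nat_lit 70) (nat_lit 610) (@Lb.t (@Lb.fm (nat_lit 9) t662))))))))))))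
noncomputable def l13891 : Lb := (@Lb.d (nat_lit 2) (nat_lit 38) (nat_lit 64) (@Lb.g g8 (@Lb.g g9 (@Lb.g g10 (@Lb.g g11 (@Lb.r r2390 (@Lb.r r2711 (@Lb.r r609 (@Lb.r r24 (@Lb.d (nat_lit 168) (nat_lit 25) (nat_lit 41) (@Lb.fm (nat_lit 9) t811)))))))))))
noncomputable def l13892 : Lb := (@Lb.r r21 (@Lb.d (nat_lit 64) (nat_lit 256) (nat_lit 514) (@Lb.g g8 (@Lb.g g10 (@Lb.g g11 (@Lb.r r386 (@Lb.r r2709 (@Lb.r r1352 (@Lb.d (nat_lit 17) (nat_lit 0) (nat_lit 656) (@Lb.t (@Lb.fm (nat_lit 9) t3022)))))))))))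
noncomputable def l13893 : Lb := (@Lb.d (nat_lit 4) (nat_lit 544) (nat_lit 130) (@Lb.g g8 (@Lb.g g9 (@Lb.g g10 (@Lb.g g11 (@Lb.r r1540 (@Lb.r r1623 (@Lb.r r386 (@Lb.r r89 (@Lb.d (nat_lit 42) (nat_lit 65) (nat_lit 520) (@Lb.fp (nat_lit 9) t1801)))))))))))
noncomputable def l13894 : Lb := (@Lb.d (nat_lit 2) (nat_lit 257) (nat_lit 72) (@Lb.g g8 (@Lb.g g9 (@Lb.g g11 (@Lb.r r1410 (@Lb.r r579 (@Lb.r r1049 (@Lb.d (nat_lit 521) (nat_lit 18) (nat_lit 297) (@Lb.t (@Lb.fm (nat_lit 9) t210))))))))))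
noncomputable def l13895 : Lb := (@Lb.d (nat_lit 144) (nat_lit 281) (nat_lit 4) (@Lb.g g8 (@Lb.g g9 (@Lb.g g10 (@Lb.g g11 (@Lb.r r2467 (@Lb.r r1410 (@Lb.r r105 (@Lb.r r612 (@Lb.d (nat_lit 81) (nat_lit 24) (nat_lit 260) (@Lb.fp (nat_lit 9) t175)))))))))))
noncomputable def l13896 : Lb := (@Lb.d (nat_lit 10) (nat_lit 513) (nat_lit 130) (@Lb.g g8 (@Lb.g g9 (@Lb.g g10 (@Lb.g g11 (@Lb.r r683 (@Lb.r r1689 (@Lb.r r1178 (@Lb.r r1156 (@Lb.d (nat_lit 342) (nat_lit 1) (nat_lit 280) (@Lb.fp (nat_lit 9) t284)))))))))))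
noncomputable def l13897 : Lb := (@Lb.r r323 (@Lb.d (nat_lit 26) (nat_lit 264) (nat_lit 2) (@Lb.g g8 (@Lb.g g9 (@Lb.g g10 (@Lb.r r610 (@Lb.r r583 (@Lb.r r2468 (@Lb.r r2197 (@Lb.d (nat_lit 8) (nat_lit 101) (nat_lit 162) (@Lb.t (@Lb.fp (nat_lit 9) t803))))))))))))
noncomputable def l13898 : Lb := (@Lb.d (nat_lit 2) (nat_lit 40) (nat_lit 66) (@Lb.g g8 (@Lb.g g10 (@Lb.g g11 (@Lb.r r1121 (@Lb.r r1178 (@Lb.r r2692 (@Lb.r r2567 (@Lb.d (nat_lit 641) (nat_lit 97) (nat_lit 394) (@Lb.t (@Lb.fp (nat_lit 9) t2)))))))))))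
noncomputable def l13899 : Lb := (@Lb.d (nat_lit 32) (nat_lit 264) (nat_lit 130) (@Lb.g g10 (@Lb.g g11 (@Lb.r r361 (@Lb.r r2711 (@Lb.r r1352 (@Lb.r r2374 (@Lb.d (nat_lit 594) (nat_lit 154) (nat_lit 554) (@Lb.fp (nat_lit 3) t633)))))))))
noncomputable def l13900 : Lb := (@Lb.d (nat_lit 10) (nat_lit 513) (nat_lit 66) (@Lb.g g8 (@Lb.g g9 (@Lb.g g10 (@Lb.g g11 (@Lb.r r388 (@Lb.r r2667 (@Lb.r r1641 (@Lb.r r2134 (@Lb.r r1188 (@Lb.d (nat_lit 262) (nat_lit 130) (nat_lit 552) (@Lb.fp (nat_lit 9) t2))))))))))))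
noncomputable def l13901 : Lb := (@Lb.r r82 (@Lb.r r275 (@Lb.d (nat_lit 130) (nat_lit 522) (nat_lit 0) (@Lb.g g8 (@Lb.g g9 (@Lb.r r663 (@Lb.r r146 (@Lb.r r2456 (@Lb.d (nat_lit 405) (nat_lit 88) (nat_lit 650) (@Lb.fp (nat_lit 3) t3023))))))))))
noncomputable def l13902 : Lb := (@Lb.d (nat_lit 5) (nat_lit 258) (nat_lit 64) (@Lb.g g8 (@Lb.g g9 (@Lb.g g10 (@Lb.g g11 (@Lb.r r1642 (@Lb.r r1049 (@Lb.d (nat_lit 521) (nat_lit 89) (nat_lit 130) (@Lb.fp (nat_lit 9) t71)))))))))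
noncomputable def l13903 : Lb := (@Lb.d (nat_lit 5) (nat_lit 4) (nat_lit 128) (@Lb.g g8 (@Lb.g g9 (@Lb.g g10 (@Lb.g g11 (@Lb.r r2721 (@Lb.r r2471 (@Lb.r r1624 (@Lb.r r2438 (@Lb.d (nat_lit 609) (nat_lit 26) (nat_lit 537) (@Lb.fm (nat_lit 9) t98)))))))))))
noncomputable def l13904 : Lb := (@Lb.d (nat_lit 2) (nat_lit 512) (nat_lit 130) (@Lb.g g8 (@Lb.g g9 (@Lb.g g10 (@Lb.g g11 (@Lb.r r148 (@Lb.r r1126 (@Lb.r r1381 (@Lb.r r1691 (@Lb.r r1668 (@Lb.d (nat_lit 2) (nat_lit 0) (nat_lit 330) (@Lb.fp (nat_lit 9) t2))))))))))))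
noncomputable def l13905 : Lb := (@Lb.d (nat_lit 2) (nat_lit 256) (nat_lit 130) (@Lb.g g8 (@Lb.g g9 (@Lb.g g10 (@Lb.g g11 (@Lb.r r2691 (@Lb.r r2345 (@Lb.r r360 (@Lb.r r582 (@Lb.r r2180 (@Lb.d (nat_lit 642) (nat_lit 10) (nat_lit 89) (@Lb.fm (nat_lit 9) t242))))))))))))
noncomputable def l13906 : Lb := (@Lb.r r21 (@Lb.r r70 (@Lb.g g8 (@Lb.r r586 (@Lb.r r537 (@Lb.r r516 (@Lb.d (nat_lit 0) (nat_lit 256) (nat_lit 128) (@Lb.t (@Lb.fp (nat_lit 3) t329)))))))))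
noncomputable def l13907 : Lb := (@Lb.r r580 (@Lb.r r593 (@Lb.d (nat_lit 0) (nat_lit 288) (nat_lit 89) (@Lb.g g6 (@Lb.g g11 (@Lb.r r2449 (@Lb.r r1319 (@Lb.r r2632 (@Lb.d (nat_lit 260) (nat_lit 136) (nat_lit 85) (@Lb.fm (nat_lit 3) t428))))))))))
noncomputable def l13908 : Lb := (@Lb.d (nat_lit 10) (nat_lit 0) (nat_lit 65) (@Lb.g g8 (@Lb.g g10 (@Lb.g g11 (@Lb.r r1575 (@Lb.r r1121 (@Lb.r r2646 (@Lb.r r2436 (@Lb.d (nat_lit 353) (nat_lit 130) (nat_lit 648) (@Lb.t (@Lb.fm (nat_lit 9) t3024)))))))))))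
noncomputable def l13909 : Lb := (@Lb.d (nat_lit 5) (nat_lit 102) (nat_lit 130) (@Lb.r r1284 (@Lb.r r2587 (@Lb.r r676 (@Lb.r r89 (@Lb.g g6 (@Lb.d (nat_lit 16) (nat_lit 8) (nat_lit 1) (@Lb.r r387 (@Lb.t (@Lb.fp (nat_lit 3) t428))))))))))
noncomputable def l13910 : Lb := (@Lb.d (nat_lit 388) (nat_lit 385) (nat_lit 256) (@Lb.r r2341 (@Lb.r r1624 (@Lb.r r2470 (@Lb.r r339 (@Lb.g g7 (@Lb.g g6 (@Lb.g g5 (@Lb.d (nat_lit 0) (nat_lit 0) (nat_lit 8) (@Lb.t (@Lb.fm (nat_lit 9) t1330)))))))))))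
noncomputable def l13911 : Lb := (@Lb.r r21 (@Lb.r r326 (@Lb.d (nat_lit 160) (nat_lit 544) (nat_lit 128) (@Lb.g g8 (@Lb.g g11 (@Lb.r r2198 (@Lb.r r97 (@Lb.d (nat_lit 609) (nat_lit 129) (nat_lit 665) (@Lb.fm (nat_lit 3) t523)))))))))
noncomputable def l13912 : Lb := (@Lb.d (nat_lit 8) (nat_lit 264) (nat_lit 64) (@Lb.g g8 (@Lb.g g10 (@Lb.g g11 (@Lb.r r1575 (@Lb.r r1121 (@Lb.r r2646 (@Lb.r r2436 (@Lb.d (nat_lit 101) (nat_lit 128) (nat_lit 648) (@Lb.t (@Lb.fm (nat_lit 9) t386)))))))))))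
noncomputable def l13913 : Lb := (@Lb.d (nat_lit 2) (nat_lit 5) (nat_lit 74) (@Lb.g g8 (@Lb.g g9 (@Lb.g g10 (@Lb.g g11 (@Lb.r r2691 (@Lb.r r1450 (@Lb.r r289 (@Lb.r r24 (@Lb.d (nat_lit 136) (nat_lit 33) (nat_lit 168) (@Lb.fp (nat_lit 9) t378)))))))))))
noncomputable def l13914 : Lb := (@Lb.d (nat_lit 0) (nat_lit 100) (nat_lit 129) (@Lb.r r20 (@Lb.r r1633 (@Lb.r r2403 (@Lb.r r2706 (@Lb.g g11 (@Lb.g g8 (@Lb.fm (nat_lit 3) t2001))))))))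
noncomputable def l13915 : Lb := (@Lb.r r323 (@Lb.d (nat_lit 128) (nat_lit 0) (nat_lit 2) (@Lb.g g8 (@Lb.g g10 (@Lb.r r346 (@Lb.r r661 (@Lb.r r1431 (@Lb.r r2632 (@Lb.d (nat_lit 354) (nat_lit 129) (nat_lit 66) (@Lb.fp (nat_lit 3) t71))))))))))
noncomputable def l13916 : Lb := (@Lb.r r322 (@Lb.d (nat_lit 2) (nat_lit 17) (nat_lit 648) (@Lb.g g8 (@Lb.g g9 (@Lb.g g7 (@Lb.r r1450 (@Lb.r r2389 (@Lb.r r24 (@Lb.d (nat_lit 512) (nat_lit 105) (nat_lit 68) (@Lb.t (@Lb.fp (nat_lit 9) t1610)))))))))))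
noncomputable def l13917 : Lb := (@Lb.r r82 (@Lb.d (nat_lit 4) (nat_lit 0) (nat_lit 0) (@Lb.g g8 (@Lb.g g9 (@Lb.r r555 (@Lb.r r2713 (@Lb.r r146 (@Lb.d (nat_lit 353) (nat_lit 5) (nat_lit 26) (@Lb.fm (nat_lit 3) t2001)))))))))
noncomputable def l13918 : Lb := (@Lb.r r21 (@Lb.d (nat_lit 8) (nat_lit 0) (nat_lit 2) (@Lb.g g8 (@Lb.g g10 (@Lb.r r667 (@Lb.r r2405 (@Lb.r r1178 (@Lb.r r1156 (@Lb.d (nat_lit 345) (nat_lit 65) (nat_lit 406) (@Lb.fp (nat_lit 3) t284))))))))))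
noncomputable def l13919 : Lb := (@Lb.d (nat_lit 0) (nat_lit 82) (nat_lit 650) (@Lb.r r657 (@Lb.r r346 (@Lb.r r100 (@Lb.g g11 (@Lb.g g5 (@Lb.d (nat_lit 8) (nat_lit 1) (nat_lit 0) (@Lb.fp (nat_lit 3) t1137))))))))
noncomputable def l13920 : Lb := (@Lb.d (nat_lit 32) (nat_lit 8) (nat_lit 74) (@Lb.g g10 (@Lb.g g11 (@Lb.r r289 (@Lb.r r1620 (@Lb.r r1367 (@Lb.r r2698 (@Lb.d (nat_lit 324) (nat_lit 74) (nat_lit 298) (@Lb.fm (nat_lit 3) t743)))))))))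
noncomputable def l13921 : Lb := (@Lb.d (nat_lit 2) (nat_lit 261) (nat_lit 74) (@Lb.g g8 (@Lb.g g9 (@Lb.g g10 (@Lb.g g11 (@Lb.r r2691 (@Lb.r r1450 (@Lb.r r289 (@Lb.r r24 (@Lb.d (nat_lit 134) (nat_lit 32) (nat_lit 168) (@Lb.fp (nat_lit 9) t378)))))))))))
noncomputable def l13922 : Lb := (@Lb.d (nat_lit 0) (nat_lit 2) (nat_lit 128) (@Lb.g g8 (@Lb.g g9 (@Lb.g g10 (@Lb.g g11 (@Lb.r r1443 (@Lb.r r1414 (@Lb.r r100 (@Lb.r r21 (@Lb.r r36 (@Lb.d (nat_lit 520) (nat_lit 130) (nat_lit 0) (@Lb.fm (nat_lit 9) t825))))))))))))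
noncomputable def l13923 : Lb := (@Lb.d (nat_lit 128) (nat_lit 8) (nat_lit 66) (@Lb.g g10 (@Lb.g g11 (@Lb.r r264 (@Lb.r r519 (@Lb.r r101 (@Lb.r r154 (@Lb.d (nat_lit 386) (nat_lit 10) (nat_lit 161) (@Lb.fm (nat_lit 3) t127)))))))))
noncomputable def l13924 : Lb := (@Lb.d (nat_lit 128) (nat_lit 264) (nat_lit 66) (@Lb.g g10 (@Lb.g g11 (@Lb.r r264 (@Lb.r r519 (@Lb.r r101 (@Lb.r r154 (@Lb.d (nat_lit 385) (nat_lit 10) (nat_lit 161) (@Lb.fm (nat_lit 3) t127)))))))))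
noncomputable def l13925 : Lb := (@Lb.r r21 (@Lb.d (nat_lit 168) (nat_lit 264) (nat_lit 130) (@Lb.g g8 (@Lb.g g10 (@Lb.g g11 (@Lb.r r1451 (@Lb.r r2581 (@Lb.r r2408 (@Lb.r r2150 (@Lb.d (nat_lit 277) (nat_lit 144) (nat_lit 389) (@Lb.t (@Lb.fp (nat_lit 9) t3025))))))))))))
noncomputable def l13926 : Lb := (@Lb.d (nat_lit 33) (nat_lit 258) (nat_lit 129) (@Lb.g g8 (@Lb.g g9 (@Lb.g g10 (@Lb.g g11 (@Lb.r r2375 (@Lb.r r1689 (@Lb.r r1170 (@Lb.r r612 (@Lb.d (nat_lit 404) (nat_lit 145) (nat_lit 152) (@Lb.fm (nat_lit 9) t1668)))))))))))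
noncomputable def l13927 : Lb := (@Lb.d (nat_lit 16) (nat_lit 580) (nat_lit 33) (@Lb.r r1109 (@Lb.r r2210 (@Lb.r r1287 (@Lb.g g6 (@Lb.g g5 (@Lb.g g4 (@Lb.d (nat_lit 1) (nat_lit 6) (nat_lit 2) (@Lb.r r291 (@Lb.t (@Lb.fm (nat_lit 9) t2248)))))))))))
noncomputable def l13928 : Lb := (@Lb.r r21 (@Lb.r r263 (@Lb.d (nat_lit 42) (nat_lit 0) (nat_lit 41) (@Lb.g g8 (@Lb.g g10 (@Lb.r r2449 (@Lb.r r679 (@Lb.r r1432 (@Lb.d (nat_lit 153) (nat_lit 90) (nat_lit 258) (@Lb.fm (nat_lit 3) t3026))))))))))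
noncomputable def l13929 : Lb := (@Lb.d (nat_lit 0) (nat_lit 512) (nat_lit 130) (@Lb.g g9 (@Lb.g g10 (@Lb.g g11 (@Lb.r r586 (@Lb.r r584 (@Lb.r r299 (@Lb.r r409 (@Lb.d (nat_lit 2) (nat_lit 74) (nat_lit 18) (@Lb.t (@Lb.fp (nat_lit 9) t1022)))))))))))
noncomputable def l13930 : Lb := (@Lb.r r1624 (@Lb.r r2341 (@Lb.d (nat_lit 0) (nat_lit 2) (nat_lit 608) (@Lb.fp (nat_lit 1) t3027))))
noncomputable def l13931 : Lb := (@Lb.d (nat_lit 129) (nat_lit 258) (nat_lit 130) (@Lb.g g8 (@Lb.g g9 (@Lb.g g10 (@Lb.g g11 (@Lb.r r2666 (@Lb.r r612 (@Lb.r r1319 (@Lb.r r405 (@Lb.r r2084 (@Lb.d (nat_lit 608) (nat_lit 9) (nat_lit 100) (@Lb.fp (nat_lit 9) t3028))))))))))))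
noncomputable def l13932 : Lb := (@Lb.r r21 (@Lb.r r70 (@Lb.r r263 (@Lb.d (nat_lit 2) (nat_lit 0) (nat_lit 0) (@Lb.g g8 (@Lb.r r267 (@Lb.r r74 (@Lb.r r25 (@Lb.d (nat_lit 2) (nat_lit 0) (nat_lit 0) (@Lb.t (@Lb.fp (nat_lit 3) t321)))))))))))
noncomputable def l13933 : Lb := (@Lb.r r82 (@Lb.r r275 (@Lb.d (nat_lit 8) (nat_lit 2) (nat_lit 0) (@Lb.g g8 (@Lb.g g9 (@Lb.r r299 (@Lb.r r106 (@Lb.r r25 (@Lb.r r40 (@Lb.d (nat_lit 8) (nat_lit 66) (nat_lit 0) (@Lb.fp (nat_lit 3) t1565)))))))))))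
noncomputable def l13934 : Lb := (@Lb.d (nat_lit 153) (nat_lit 513) (nat_lit 128) (@Lb.g g8 (@Lb.g g9 (@Lb.g g10 (@Lb.g g11 (@Lb.r r1706 (@Lb.r r1411 (@Lb.r r1065 (@Lb.r r1060 (@Lb.d (nat_lit 264) (nat_lit 130) (nat_lit 170) (@Lb.fp (nat_lit 9) t98)))))))))))
noncomputable def l13935 : Lb := (@Lb.r r70 (@Lb.d (nat_lit 1) (nat_lit 514) (nat_lit 0) (@Lb.g g8 (@Lb.g g9 (@Lb.r r1547 (@Lb.r r613 (@Lb.r r666 (@Lb.r r1560 (@Lb.d (nat_lit 88) (nat_lit 41) (nat_lit 674) (@Lb.fm (nat_lit 3) t68))))))))))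
noncomputable def l13936 : Lb := (@Lb.r r70 (@Lb.d (nat_lit 1) (nat_lit 2) (nat_lit 0) (@Lb.g g8 (@Lb.g g9 (@Lb.r r1547 (@Lb.r r613 (@Lb.r r666 (@Lb.r r1560 (@Lb.d (nat_lit 86) (nat_lit 169) (nat_lit 674) (@Lb.fm (nat_lit 3) t125))))))))))
noncomputable def l13937 : Lb := (@Lb.r r323 (@Lb.d (nat_lit 9) (nat_lit 528) (nat_lit 18) (@Lb.g g8 (@Lb.g g5 (@Lb.g g10 (@Lb.r r2587 (@Lb.r r2584 (@Lb.d (nat_lit 341) (nat_lit 162) (nat_lit 386) (@Lb.t (@Lb.fp (nat_lit 9) t414))))))))))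
noncomputable def l13938 : Lb := (@Lb.d (nat_lit 0) (nat_lit 258) (nat_lit 0) (@Lb.g g9 (@Lb.r r388 (@Lb.r r342 (@Lb.r r681 (@Lb.r r555 (@Lb.r r548 (@Lb.d (nat_lit 0) (nat_lit 145) (nat_lit 262) (@Lb.t (@Lb.fp (nat_lit 3) t210))))))))))
noncomputable def l13939 : Lb := (@Lb.r r89 (@Lb.r r166 (@Lb.r r340 (@Lb.r r683 (@Lb.r r657 (@Lb.r r36 (@Lb.d (nat_lit 0) (nat_lit 657) (nat_lit 394) (@Lb.fp (nat_lit 1) t210))))))))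
noncomputable def l13940 : Lb := (@Lb.d (nat_lit 513) (nat_lit 677) (nat_lit 70) (@Lb.r r1434 (@Lb.r r404 (@Lb.r r363 (@Lb.r r353 (@Lb.g g7 (@Lb.g g6 (@Lb.g g4 (@Lb.d (nat_lit 0) (nat_lit 4) (nat_lit 129) (@Lb.t (@Lb.fp (nat_lit 9) t591)))))))))))
noncomputable def l13941 : Lb := (@Lb.r r331 (@Lb.d (nat_lit 672) (nat_lit 258) (nat_lit 2) (@Lb.g g8 (@Lb.g g9 (@Lb.g g10 (@Lb.r r362 (@Lb.r r1411 (@Lb.r r25 (@Lb.d (nat_lit 8) (nat_lit 161) (nat_lit 618) (@Lb.t (@Lb.fm (nat_lit 9) t1792)))))))))))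
noncomputable def l13942 : Lb := (@Lb.r r323 (@Lb.d (nat_lit 8) (nat_lit 545) (nat_lit 18) (@Lb.g g9 (@Lb.g g10 (@Lb.r r2651 (@Lb.r r1556 (@Lb.r r2457 (@Lb.d (nat_lit 137) (nat_lit 154) (nat_lit 136) (@Lb.fp (nat_lit 3) t296)))))))))
noncomputable def l13943 : Lb := (@Lb.r r323 (@Lb.d (nat_lit 137) (nat_lit 256) (nat_lit 18) (@Lb.g g8 (@Lb.g g10 (@Lb.r r661 (@Lb.r r1431 (@Lb.r r680 (@Lb.d (nat_lit 581) (nat_lit 17) (nat_lit 10) (@Lb.fp (nat_lit 3) t100)))))))))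
noncomputable def l13944 : Lb := (@Lb.r r331 (@Lb.d (nat_lit 672) (nat_lit 258) (nat_lit 2) (@Lb.g g8 (@Lb.g g9 (@Lb.g g10 (@Lb.r r362 (@Lb.r r1411 (@Lb.r r25 (@Lb.d (nat_lit 8) (nat_lit 32) (nat_lit 618) (@Lb.t (@Lb.fm (nat_lit 9) t3029)))))))))))
noncomputable def l13945 : Lb := (@Lb.r r331 (@Lb.d (nat_lit 32) (nat_lit 2) (nat_lit 2) (@Lb.g g8 (@Lb.g g9 (@Lb.g g10 (@Lb.r r2666 (@Lb.r r1641 (@Lb.r r1707 (@Lb.r r660 (@Lb.d (nat_lit 673) (nat_lit 68) (nat_lit 362) (@Lb.t (@Lb.fm (nat_lit 9) t3030))))))))))))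
noncomputable def l13946 : Lb := (@Lb.r r323 (@Lb.g g6 (@Lb.r r1411 (@Lb.r r1090 (@Lb.d (nat_lit 2) (nat_lit 512) (nat_lit 0) (@Lb.t (@Lb.fm (nat_lit 3) t2)))))))
noncomputable def l13947 : Lb := (@Lb.d (nat_lit 2) (nat_lit 521) (nat_lit 72) (@Lb.g g8 (@Lb.g g9 (@Lb.g g10 (@Lb.g g11 (@Lb.r r1699 (@Lb.r r664 (@Lb.r r346 (@Lb.r r2585 (@Lb.d (nat_lit 409) (nat_lit 169) (nat_lit 74) (@Lb.fp (nat_lit 9) t509)))))))))))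
noncomputable def l13948 : Lb := (@Lb.d (nat_lit 2) (nat_lit 514) (nat_lit 73) (@Lb.g g8 (@Lb.g g9 (@Lb.g g10 (@Lb.g g11 (@Lb.r r1559 (@Lb.r r1434 (@Lb.r r292 (@Lb.r r405 (@Lb.r r2084 (@Lb.d (nat_lit 32) (nat_lit 104) (nat_lit 665) (@Lb.fp (nat_lit 9) t3031))))))))))))
noncomputable def l13949 : Lb := (@Lb.r r322 (@Lb.d (nat_lit 34) (nat_lit 258) (nat_lit 576) (@Lb.g g8 (@Lb.g g9 (@Lb.g g7 (@Lb.r r361 (@Lb.r r150 (@Lb.r r1364 (@Lb.d (nat_lit 342) (nat_lit 164) (nat_lit 593) (@Lb.t (@Lb.fp (nat_lit 9) t1115)))))))))))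
noncomputable def l13950 : Lb := (@Lb.d (nat_lit 522) (nat_lit 4) (nat_lit 17) (@Lb.r r101 (@Lb.g g4 (@Lb.t (@Lb.fp (nat_lit 3) t253)))))
noncomputable def l13951 : Lb := (@Lb.d (nat_lit 133) (nat_lit 288) (nat_lit 64) (@Lb.r r553 (@Lb.r r618 (@Lb.r r535 (@Lb.g g7 (@Lb.g g5 (@Lb.g g4 (@Lb.d (nat_lit 1) (nat_lit 34) (nat_lit 0) (@Lb.r r98 (@Lb.t (@Lb.fp (nat_lit 9) t68)))))))))))
noncomputable def l13952 : Lb := (@Lb.r r323 (@Lb.d (nat_lit 8) (nat_lit 514) (nat_lit 2) (@Lb.g g9 (@Lb.g g10 (@Lb.r r2467 (@Lb.r r2146 (@Lb.d (nat_lit 2) (nat_lit 73) (nat_lit 0) (@Lb.fm (nat_lit 3) t1673))))))))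
noncomputable def l13953 : Lb := (@Lb.d (nat_lit 8) (nat_lit 258) (nat_lit 130) (@Lb.g g8 (@Lb.g g9 (@Lb.g g10 (@Lb.g g11 (@Lb.r r2730 (@Lb.r r648 (@Lb.r r539 (@Lb.r r289 (@Lb.r r36 (@Lb.d (nat_lit 644) (nat_lit 37) (nat_lit 321) (@Lb.fp (nat_lit 9) t1425))))))))))))
noncomputable def l13954 : Lb := (@Lb.r r20 (@Lb.d (nat_lit 0) (nat_lit 260) (nat_lit 0) (@Lb.g g9 (@Lb.g g10 (@Lb.r r675 (@Lb.r r2658 (@Lb.d (nat_lit 2) (nat_lit 89) (nat_lit 537) (@Lb.fp (nat_lit 3) t1369))))))))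
noncomputable def l13955 : Lb := (@Lb.d (nat_lit 8) (nat_lit 2) (nat_lit 130) (@Lb.g g8 (@Lb.g g9 (@Lb.g g10 (@Lb.g g11 (@Lb.r r2730 (@Lb.r r648 (@Lb.r r539 (@Lb.r r289 (@Lb.r r36 (@Lb.d (nat_lit 641) (nat_lit 36) (nat_lit 321) (@Lb.fp (nat_lit 9) t242))))))))))))
noncomputable def l13956 : Lb := (@Lb.d (nat_lit 354) (nat_lit 657) (nat_lit 613) (@Lb.r r1444 (@Lb.r r2665 (@Lb.r r363 (@Lb.g g10 (@Lb.g g5 (@Lb.g g4 (@Lb.d (nat_lit 84) (nat_lit 2) (nat_lit 4) (@Lb.t (@Lb.fp (nat_lit 9) t521))))))))))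
noncomputable def l13957 : Lb := (@Lb.r r323 (@Lb.d (nat_lit 1) (nat_lit 258) (nat_lit 1) (@Lb.g g8 (@Lb.g g9 (@Lb.g g6 (@Lb.r r387 (@Lb.r r20 (@Lb.r r105 (@Lb.r r1060 (@Lb.d (nat_lit 34) (nat_lit 5) (nat_lit 0) (@Lb.t (@Lb.fm (nat_lit 9) t40))))))))))))
noncomputable def l13958 : Lb := (@Lb.d (nat_lit 613) (nat_lit 409) (nat_lit 361) (@Lb.r r2404 (@Lb.r r1563 (@Lb.r r2389 (@Lb.g g6 (@Lb.g g5 (@Lb.g g4 (@Lb.d (nat_lit 26) (nat_lit 0) (nat_lit 1) (@Lb.r r391 (@Lb.t (@Lb.fm (nat_lit 9) t68)))))))))))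
noncomputable def l13959 : Lb := (@Lb.r r323 (@Lb.d (nat_lit 9) (nat_lit 257) (nat_lit 1) (@Lb.g g8 (@Lb.g g9 (@Lb.g g6 (@Lb.r r387 (@Lb.r r104 (@Lb.r r25 (@Lb.d (nat_lit 522) (nat_lit 9) (nat_lit 18) (@Lb.t (@Lb.fm (nat_lit 9) t40)))))))))))
noncomputable def l13960 : Lb := (@Lb.d (nat_lit 2) (nat_lit 4) (nat_lit 128) (@Lb.g g8 (@Lb.g g9 (@Lb.g g10 (@Lb.g g11 (@Lb.r r427 (@Lb.r r417 (@Lb.r r1126 (@Lb.r r24 (@Lb.d (nat_lit 361) (nat_lit 102) (nat_lit 90) (@Lb.fp (nat_lit 9) t502)))))))))))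
noncomputable def l13961 : Lb := (@Lb.r r323 (@Lb.d (nat_lit 9) (nat_lit 2) (nat_lit 1) (@Lb.g g8 (@Lb.g g9 (@Lb.g g6 (@Lb.r r387 (@Lb.r r2152 (@Lb.r r2073 (@Lb.d (nat_lit 10) (nat_lit 137) (nat_lit 18) (@Lb.t (@Lb.fm (nat_lit 9) t40)))))))))))
noncomputable def l13962 : Lb := (@Lb.r r82 (@Lb.d (nat_lit 0) (nat_lit 586) (nat_lit 128) (@Lb.g g8 (@Lb.g g9 (@Lb.g g11 (@Lb.r r2411 (@Lb.r r1606 (@Lb.r r2436 (@Lb.d (nat_lit 101) (nat_lit 9) (nat_lit 546) (@Lb.t (@Lb.fm (nat_lit 9) t981)))))))))))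
noncomputable def l13963 : Lb := (@Lb.r r2145 (@Lb.r r402 (@Lb.r r2436 (@Lb.d (nat_lit 2) (nat_lit 0) (nat_lit 85) (@Lb.fp (nat_lit 1) t590)))))
noncomputable def l13964 : Lb := (@Lb.d (nat_lit 2) (nat_lit 521) (nat_lit 129) (@Lb.g g8 (@Lb.g g9 (@Lb.g g10 (@Lb.g g11 (@Lb.r r427 (@Lb.r r145 (@Lb.r r356 (@Lb.r r154 (@Lb.r r132 (@Lb.d (nat_lit 9) (nat_lit 9) (nat_lit 153) (@Lb.fm (nat_lit 9) t1499))))))))))))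
noncomputable def l13965 : Lb := (@Lb.r r323 (@Lb.d (nat_lit 2) (nat_lit 41) (nat_lit 1) (@Lb.g g8 (@Lb.g g9 (@Lb.g g10 (@Lb.r r599 (@Lb.r r392 (@Lb.r r74 (@Lb.d (nat_lit 17) (nat_lit 2) (nat_lit 152) (@Lb.t (@Lb.fm (nat_lit 9) t41)))))))))))
noncomputable def l13966 : Lb := (@Lb.d (nat_lit 641) (nat_lit 17) (nat_lit 261) (@Lb.r r2587 (@Lb.r r2712 (@Lb.r r2714 (@Lb.r r353 (@Lb.g g7 (@Lb.g g6 (@Lb.g g4 (@Lb.d (nat_lit 1) (nat_lit 16) (nat_lit 65) (@Lb.t (@Lb.fp (nat_lit 9) t2)))))))))))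
noncomputable def l13967 : Lb := (@Lb.d (nat_lit 0) (nat_lit 512) (nat_lit 138) (@Lb.g g10 (@Lb.g g11 (@Lb.r r2707 (@Lb.r r2626 (@Lb.d (nat_lit 0) (nat_lit 152) (nat_lit 297) (@Lb.fp (nat_lit 3) t51)))))))
noncomputable def l13968 : Lb := (@Lb.r r21 (@Lb.d (nat_lit 2) (nat_lit 256) (nat_lit 137) (@Lb.g g8 (@Lb.g g10 (@Lb.g g11 (@Lb.r r651 (@Lb.r r1642 (@Lb.r r1561 (@Lb.r r1540 (@Lb.d (nat_lit 409) (nat_lit 5) (nat_lit 657) (@Lb.t (@Lb.fp (nat_lit 9) t825))))))))))))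
noncomputable def l13969 : Lb := (@Lb.r r21 (@Lb.r r323 (@Lb.d (nat_lit 16) (nat_lit 4) (nat_lit 42) (@Lb.g g8 (@Lb.g g6 (@Lb.r r387 (@Lb.r r97 (@Lb.r r1432 (@Lb.d (nat_lit 666) (nat_lit 2) (nat_lit 17) (@Lb.fp (nat_lit 3) t390))))))))))
noncomputable def l13970 : Lb := (@Lb.r r323 (@Lb.d (nat_lit 0) (nat_lit 516) (nat_lit 42) (@Lb.g g6 (@Lb.r r387 (@Lb.r r101 (@Lb.r r24 (@Lb.d (nat_lit 657) (nat_lit 0) (nat_lit 614) (@Lb.t (@Lb.fm (nat_lit 3) t221)))))))))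
noncomputable def l13971 : Lb := (@Lb.d (nat_lit 329) (nat_lit 336) (nat_lit 554) (@Lb.r r1384 (@Lb.r r297 (@Lb.r r418 (@Lb.g g11 (@Lb.g g5 (@Lb.g g4 (@Lb.d (nat_lit 16) (nat_lit 18) (nat_lit 264) (@Lb.r r578 (@Lb.t (@Lb.fp (nat_lit 9) t3032)))))))))))
noncomputable def l13972 : Lb := (@Lb.d (nat_lit 2) (nat_lit 514) (nat_lit 130) (@Lb.g g8 (@Lb.g g9 (@Lb.g g10 (@Lb.g g11 (@Lb.r r427 (@Lb.r r388 (@Lb.r r70 (@Lb.r r153 (@Lb.r r132 (@Lb.d (nat_lit 0) (nat_lit 9) (nat_lit 153) (@Lb.fp (nat_lit 9) t1149))))))))))))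
noncomputable def l13973 : Lb := (@Lb.d (nat_lit 346) (nat_lit 393) (nat_lit 661) (@Lb.r r421 (@Lb.r r1642 (@Lb.r r1352 (@Lb.r r2695 (@Lb.g g7 (@Lb.g g6 (@Lb.g g5 (@Lb.d (nat_lit 20) (nat_lit 1) (nat_lit 65) (@Lb.t (@Lb.fm (nat_lit 9) t386)))))))))))
noncomputable def l13974 : Lb := (@Lb.d (nat_lit 17) (nat_lit 521) (nat_lit 130) (@Lb.g g8 (@Lb.g g9 (@Lb.g g10 (@Lb.g g11 (@Lb.r r427 (@Lb.r r1169 (@Lb.r r356 (@Lb.r r2202 (@Lb.r r1156 (@Lb.d (nat_lit 520) (nat_lit 73) (nat_lit 546) (@Lb.fm (nat_lit 9) t1246))))))))))))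
noncomputable def l13975 : Lb := (@Lb.d (nat_lit 72) (nat_lit 513) (nat_lit 137) (@Lb.g g8 (@Lb.g g9 (@Lb.g g10 (@Lb.g g11 (@Lb.r r2696 (@Lb.r r2699 (@Lb.r r2650 (@Lb.r r37 (@Lb.d (nat_lit 149) (nat_lit 164) (nat_lit 425) (@Lb.fm (nat_lit 9) t795)))))))))))
noncomputable def l13976 : Lb := (@Lb.d (nat_lit 10) (nat_lit 0) (nat_lit 130) (@Lb.g g8 (@Lb.g g10 (@Lb.g g11 (@Lb.r r2443 (@Lb.r r2193 (@Lb.r r2458 (@Lb.r r2436 (@Lb.d (nat_lit 358) (nat_lit 8) (nat_lit 681) (@Lb.t (@Lb.fp (nat_lit 9) t221)))))))))))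
noncomputable def l13977 : Lb := (@Lb.r r21 (@Lb.r r323 (@Lb.d (nat_lit 8) (nat_lit 0) (nat_lit 1) (@Lb.g g8 (@Lb.g g6 (@Lb.r r387 (@Lb.r r1173 (@Lb.r r1192 (@Lb.d (nat_lit 10) (nat_lit 132) (nat_lit 17) (@Lb.fm (nat_lit 3) t40))))))))))
noncomputable def l13978 : Lb := (@Lb.d (nat_lit 9) (nat_lit 1) (nat_lit 66) (@Lb.g g8 (@Lb.g g9 (@Lb.g g10 (@Lb.g g11 (@Lb.r r593 (@Lb.r r426 (@Lb.r r424 (@Lb.r r279 (@Lb.r r1561 (@Lb.d (nat_lit 262) (nat_lit 130) (nat_lit 74) (@Lb.fp (nat_lit 9) t2))))))))))))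
noncomputable def l13979 : Lb := (@Lb.r r21 (@Lb.d (nat_lit 16) (nat_lit 0) (nat_lit 128) (@Lb.g g8 (@Lb.g g10 (@Lb.g g11 (@Lb.r r1611 (@Lb.r r1642 (@Lb.r r2153 (@Lb.r r296 (@Lb.d (nat_lit 512) (nat_lit 161) (nat_lit 384) (@Lb.t (@Lb.fp (nat_lit 9) t830))))))))))))
noncomputable def l13980 : Lb := (@Lb.d (nat_lit 9) (nat_lit 2) (nat_lit 2) (@Lb.g g8 (@Lb.g g9 (@Lb.g g10 (@Lb.r r1188 (@Lb.r r1158 (@Lb.d (nat_lit 17) (nat_lit 4) (nat_lit 34) (@Lb.t (@Lb.fp (nat_lit 9) t2551)))))))))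
noncomputable def l13981 : Lb := (@Lb.d (nat_lit 128) (nat_lit 256) (nat_lit 64) (@Lb.g g10 (@Lb.g g11 (@Lb.r r1622 (@Lb.r r20 (@Lb.r r409 (@Lb.r r2663 (@Lb.d (nat_lit 665) (nat_lit 26) (nat_lit 682) (@Lb.fp (nat_lit 3) t242)))))))))
noncomputable def l13982 : Lb := (@Lb.g g10 (@Lb.g g7 (@Lb.r r2145 (@Lb.r r402 (@Lb.r r579 (@Lb.r r2564 (@Lb.d (nat_lit 2) (nat_lit 256) (nat_lit 0) (@Lb.fm (nat_lit 3) t242))))))))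
noncomputable def l13983 : Lb := (@Lb.d (nat_lit 264) (nat_lit 326) (nat_lit 33) (@Lb.r r2073 (@Lb.r r2456 (@Lb.r r1354 (@Lb.g g7 (@Lb.g g5 (@Lb.g g4 (@Lb.d (nat_lit 64) (nat_lit 4) (nat_lit 576) (@Lb.t (@Lb.fm (nat_lit 9) t386))))))))))
noncomputable def l13984 : Lb := (@Lb.g g4 (@Lb.g g10 (@Lb.r r2707 (@Lb.r r2626 (@Lb.d (nat_lit 0) (nat_lit 152) (nat_lit 297) (@Lb.fm (nat_lit 3) t51))))))
noncomputable def l13985 : Lb := (@Lb.d (nat_lit 2) (nat_lit 530) (nat_lit 128) (@Lb.g g8 (@Lb.g g5 (@Lb.g g10 (@Lb.g g11 (@Lb.r r1307 (@Lb.r r614 (@Lb.r r24 (@Lb.d (nat_lit 64) (nat_lit 1) (nat_lit 640) (@Lb.fp (nat_lit 9) t2389))))))))))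
noncomputable def l13986 : Lb := (@Lb.d (nat_lit 264) (nat_lit 644) (nat_lit 406) (@Lb.r r2073 (@Lb.r r1432 (@Lb.r r330 (@Lb.g g7 (@Lb.g g5 (@Lb.g g4 (@Lb.d (nat_lit 17) (nat_lit 4) (nat_lit 132) (@Lb.t (@Lb.fm (nat_lit 9) t386))))))))))
noncomputable def l13987 : Lb := (@Lb.d (nat_lit 1) (nat_lit 0) (nat_lit 128) (@Lb.g g8 (@Lb.g g10 (@Lb.g g11 (@Lb.r r2707 (@Lb.r r1385 (@Lb.r r2194 (@Lb.r r36 (@Lb.d (nat_lit 516) (nat_lit 129) (nat_lit 32) (@Lb.t (@Lb.fp (nat_lit 9) t232)))))))))))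
noncomputable def l13988 : Lb := (@Lb.d (nat_lit 5) (nat_lit 256) (nat_lit 66) (@Lb.g g8 (@Lb.g g9 (@Lb.g g10 (@Lb.g g7 (@Lb.r r386 (@Lb.r r2153 (@Lb.r r36 (@Lb.d (nat_lit 290) (nat_lit 0) (nat_lit 41) (@Lb.fm (nat_lit 9) t40))))))))))
noncomputable def l13989 : Lb := (@Lb.d (nat_lit 5) (nat_lit 258) (nat_lit 1) (@Lb.r r289 (@Lb.r r279 (@Lb.r r584 (@Lb.g g6 (@Lb.d (nat_lit 16) (nat_lit 0) (nat_lit 1) (@Lb.r r387 (@Lb.t (@Lb.fm (nat_lit 3) t68)))))))))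
noncomputable def l13990 : Lb := (@Lb.d (nat_lit 5) (nat_lit 512) (nat_lit 130) (@Lb.g g8 (@Lb.g g9 (@Lb.g g10 (@Lb.g g11 (@Lb.r r642 (@Lb.r r387 (@Lb.r r2153 (@Lb.r r36 (@Lb.d (nat_lit 290) (nat_lit 0) (nat_lit 161) (@Lb.fp (nat_lit 9) t40)))))))))))
noncomputable def l13991 : Lb := (@Lb.d (nat_lit 128) (nat_lit 257) (nat_lit 64) (@Lb.g g9 (@Lb.g g11 (@Lb.r r150 (@Lb.r r105 (@Lb.r r264 (@Lb.r r2663 (@Lb.d (nat_lit 665) (nat_lit 102) (nat_lit 105) (@Lb.fm (nat_lit 3) t71)))))))))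
noncomputable def l13992 : Lb := (@Lb.d (nat_lit 1) (nat_lit 520) (nat_lit 130) (@Lb.g g8 (@Lb.g g10 (@Lb.g g11 (@Lb.r r2707 (@Lb.r r2345 (@Lb.r r1188 (@Lb.r r1638 (@Lb.d (nat_lit 410) (nat_lit 154) (nat_lit 5) (@Lb.t (@Lb.fm (nat_lit 9) t242)))))))))))
noncomputable def l13993 : Lb := (@Lb.d (nat_lit 4) (nat_lit 513) (nat_lit 128) (@Lb.g g9 (@Lb.g g10 (@Lb.g g11 (@Lb.r r2731 (@Lb.r r2724 (@Lb.r r2390 (@Lb.r r673 (@Lb.d (nat_lit 512) (nat_lit 150) (nat_lit 646) (@Lb.t (@Lb.fm (nat_lit 9) t51)))))))))))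
noncomputable def l13994 : Lb := (@Lb.d (nat_lit 10) (nat_lit 258) (nat_lit 66) (@Lb.g g8 (@Lb.g g9 (@Lb.g g10 (@Lb.g g11 (@Lb.r r612 (@Lb.r r2458 (@Lb.r r597 (@Lb.r r1367 (@Lb.r r2724 (@Lb.d (nat_lit 1) (nat_lit 129) (nat_lit 18) (@Lb.fm (nat_lit 9) t2))))))))))))
noncomputable def l13995 : Lb := (@Lb.r r70 (@Lb.d (nat_lit 2) (nat_lit 133) (nat_lit 128) (@Lb.g g8 (@Lb.g g5 (@Lb.g g11 (@Lb.r r1691 (@Lb.r r1610 (@Lb.r r612 (@Lb.d (nat_lit 1) (nat_lit 146) (nat_lit 666) (@Lb.t (@Lb.fm (nat_lit 9) t50)))))))))))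
noncomputable def l13996 : Lb := (@Lb.d (nat_lit 4) (nat_lit 257) (nat_lit 128) (@Lb.g g9 (@Lb.g g10 (@Lb.g g11 (@Lb.r r2731 (@Lb.r r2724 (@Lb.r r2390 (@Lb.r r673 (@Lb.d (nat_lit 512) (nat_lit 145) (nat_lit 576) (@Lb.t (@Lb.fm (nat_lit 9) t51)))))))))))
noncomputable def l13997 : Lb := (@Lb.d (nat_lit 2) (nat_lit 0) (nat_lit 130) (@Lb.g g8 (@Lb.g g9 (@Lb.g g10 (@Lb.g g11 (@Lb.r r148 (@Lb.r r1126 (@Lb.r r1381 (@Lb.r r1691 (@Lb.r r1668 (@Lb.d (nat_lit 9) (nat_lit 2) (nat_lit 330) (@Lb.fp (nat_lit 9) t2))))))))))))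
noncomputable def l13998 : Lb := (@Lb.d (nat_lit 2) (nat_lit 1) (nat_lit 2) (@Lb.g g8 (@Lb.g g9 (@Lb.g g10 (@Lb.r r515 (@Lb.r r1130 (@Lb.r r1049 (@Lb.d (nat_lit 521) (nat_lit 73) (nat_lit 70) (@Lb.t (@Lb.fp (nat_lit 9) t71))))))))))
noncomputable def l13999 : Lb := (@Lb.d (nat_lit 4) (nat_lit 258) (nat_lit 2) (@Lb.g g8 (@Lb.g g9 (@Lb.g g10 (@Lb.r r515 (@Lb.r r1130 (@Lb.r r1049 (@Lb.d (nat_lit 522) (nat_lit 73) (nat_lit 70) (@Lb.t (@Lb.fp (nat_lit 9) t71))))))))))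
noncomputable def l14000 : Lb := (@Lb.d (nat_lit 0) (nat_lit 4) (nat_lit 128) (@Lb.g g9 (@Lb.g g10 (@Lb.g g11 (@Lb.r r586 (@Lb.r r584 (@Lb.r r1323 (@Lb.r r1313 (@Lb.d (nat_lit 9) (nat_lit 66) (nat_lit 256) (@Lb.t (@Lb.fm (nat_lit 9) t501)))))))))))
noncomputable def l14001 : Lb := (@Lb.d (nat_lit 4) (nat_lit 513) (nat_lit 130) (@Lb.g g9 (@Lb.g g10 (@Lb.g g11 (@Lb.r r614 (@Lb.r r404 (@Lb.r r1371 (@Lb.r r2705 (@Lb.d (nat_lit 9) (nat_lit 68) (nat_lit 661) (@Lb.t (@Lb.fm (nat_lit 9) t71)))))))))))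
noncomputable def l14002 : Lb := (@Lb.d (nat_lit 529) (nat_lit 0) (nat_lit 86) (@Lb.r r20 (@Lb.r r2153 (@Lb.r r386 (@Lb.g g11 (@Lb.g g6 (@Lb.g g5 (@Lb.g g4 (@Lb.d (nat_lit 10) (nat_lit 0) (nat_lit 6) (@Lb.fm (nat_lit 9) t51))))))))))
noncomputable def l14003 : Lb := (@Lb.d (nat_lit 4) (nat_lit 0) (nat_lit 64) (@Lb.g g8 (@Lb.g g9 (@Lb.g g10 (@Lb.g g11 (@Lb.r r618 (@Lb.r r1060 (@Lb.r r37 (@Lb.d (nat_lit 354) (nat_lit 66) (nat_lit 418) (@Lb.fm (nat_lit 9) t282))))))))))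
noncomputable def l14004 : Lb := (@Lb.d (nat_lit 4) (nat_lit 256) (nat_lit 2) (@Lb.g g8 (@Lb.g g9 (@Lb.g g10 (@Lb.r r683 (@Lb.r r2666 (@Lb.r r1060 (@Lb.r r37 (@Lb.d (nat_lit 610) (nat_lit 66) (nat_lit 9) (@Lb.t (@Lb.fm (nat_lit 9) t1165)))))))))))
noncomputable def l14005 : Lb := (@Lb.d (nat_lit 36) (nat_lit 256) (nat_lit 72) (@Lb.g g8 (@Lb.g g9 (@Lb.g g11 (@Lb.r r86 (@Lb.r r1433 (@Lb.r r2343 (@Lb.r r1540 (@Lb.d (nat_lit 386) (nat_lit 66) (nat_lit 642) (@Lb.t (@Lb.fm (nat_lit 9) t2)))))))))))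
noncomputable def l14006 : Lb := (@Lb.d (nat_lit 2) (nat_lit 514) (nat_lit 64) (@Lb.g g8 (@Lb.g g9 (@Lb.g g10 (@Lb.g g11 (@Lb.r r618 (@Lb.r r25 (@Lb.r r24 (@Lb.d (nat_lit 4) (nat_lit 152) (nat_lit 130) (@Lb.fm (nat_lit 9) t71))))))))))
noncomputable def l14007 : Lb := (@Lb.r r21 (@Lb.d (nat_lit 258) (nat_lit 0) (nat_lit 64) (@Lb.g g8 (@Lb.g g10 (@Lb.g g11 (@Lb.r r2634 (@Lb.r r37 (@Lb.d (nat_lit 358) (nat_lit 1) (nat_lit 418) (@Lb.t (@Lb.fp (nat_lit 9) t282))))))))))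
noncomputable def l14008 : Lb := (@Lb.r r21 (@Lb.d (nat_lit 258) (nat_lit 256) (nat_lit 64) (@Lb.g g8 (@Lb.g g10 (@Lb.g g11 (@Lb.r r2634 (@Lb.r r37 (@Lb.d (nat_lit 353) (nat_lit 0) (nat_lit 418) (@Lb.t (@Lb.fp (nat_lit 9) t282))))))))))
noncomputable def l14009 : Lb := (@Lb.r r20 (@Lb.d (nat_lit 8) (nat_lit 322) (nat_lit 64) (@Lb.g g9 (@Lb.g g10 (@Lb.g g11 (@Lb.r r610 (@Lb.d (nat_lit 1) (nat_lit 25) (nat_lit 130) (@Lb.t (@Lb.fm (nat_lit 9) t71)))))))))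
noncomputable def l14010 : Lb := (@Lb.d (nat_lit 4) (nat_lit 0) (nat_lit 64) (@Lb.g g8 (@Lb.g g9 (@Lb.g g10 (@Lb.g g11 (@Lb.r r618 (@Lb.r r25 (@Lb.d (nat_lit 9) (nat_lit 25) (nat_lit 130) (@Lb.fp (nat_lit 9) t71)))))))))
noncomputable def l14011 : Lb := (@Lb.r r323 (@Lb.d (nat_lit 0) (nat_lit 546) (nat_lit 2) (@Lb.g g8 (@Lb.g g9 (@Lb.g g10 (@Lb.r r599 (@Lb.r r74 (@Lb.r r296 (@Lb.r r409 (@Lb.d (nat_lit 149) (nat_lit 164) (nat_lit 9) (@Lb.t (@Lb.fm (nat_lit 9) t51))))))))))))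
noncomputable def l14012 : Lb := (@Lb.r r21 (@Lb.d (nat_lit 385) (nat_lit 0) (nat_lit 66) (@Lb.g g4 (@Lb.g g10 (@Lb.g g11 (@Lb.r r519 (@Lb.r r386 (@Lb.r r25 (@Lb.d (nat_lit 640) (nat_lit 0) (nat_lit 90) (@Lb.t (@Lb.fp (nat_lit 9) t74)))))))))))
noncomputable def l14013 : Lb := (@Lb.r r70 (@Lb.d (nat_lit 129) (nat_lit 258) (nat_lit 64) (@Lb.g g8 (@Lb.g g9 (@Lb.g g11 (@Lb.r r279 (@Lb.r r362 (@Lb.r r145 (@Lb.r r356 (@Lb.d (nat_lit 130) (nat_lit 38) (nat_lit 4) (@Lb.t (@Lb.fm (nat_lit 9) t1506))))))))))))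
noncomputable def l14014 : Lb := (@Lb.d (nat_lit 164) (nat_lit 280) (nat_lit 34) (@Lb.r r596 (@Lb.r r535 (@Lb.r r353 (@Lb.g g7 (@Lb.g g6 (@Lb.g g4 (@Lb.d (nat_lit 5) (nat_lit 16) (nat_lit 133) (@Lb.r r145 (@Lb.t (@Lb.fp (nat_lit 9) t311)))))))))))
noncomputable def l14015 : Lb := (@Lb.d (nat_lit 8) (nat_lit 512) (nat_lit 130) (@Lb.g g8 (@Lb.g g10 (@Lb.g g11 (@Lb.r r2443 (@Lb.r r2193 (@Lb.r r2458 (@Lb.r r2436 (@Lb.d (nat_lit 360) (nat_lit 2) (nat_lit 544) (@Lb.t (@Lb.fp (nat_lit 9) t221)))))))))))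
noncomputable def l14016 : Lb := (@Lb.d (nat_lit 5) (nat_lit 582) (nat_lit 2) (@Lb.r r289 (@Lb.r r279 (@Lb.r r584 (@Lb.g g6 (@Lb.g g5 (@Lb.d (nat_lit 20) (nat_lit 1) (nat_lit 1) (@Lb.r r387 (@Lb.fm (nat_lit 3) t68)))))))))
noncomputable def l14017 : Lb := (@Lb.r r21 (@Lb.d (nat_lit 129) (nat_lit 0) (nat_lit 132) (@Lb.g g8 (@Lb.g g10 (@Lb.g g11 (@Lb.r r1691 (@Lb.r r1689 (@Lb.r r1370 (@Lb.r r1348 (@Lb.d (nat_lit 392) (nat_lit 25) (nat_lit 586) (@Lb.t (@Lb.fp (nat_lit 9) t68))))))))))))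
noncomputable def l14018 : Lb := (@Lb.r r21 (@Lb.d (nat_lit 146) (nat_lit 0) (nat_lit 133) (@Lb.g g8 (@Lb.g g10 (@Lb.g g11 (@Lb.r r1674 (@Lb.r r1637 (@Lb.r r1703 (@Lb.r r1176 (@Lb.d (nat_lit 417) (nat_lit 9) (nat_lit 166) (@Lb.t (@Lb.fm (nat_lit 9) t125))))))))))))
noncomputable def l14019 : Lb := (@Lb.r r323 (@Lb.d (nat_lit 9) (nat_lit 257) (nat_lit 1) (@Lb.g g8 (@Lb.g g9 (@Lb.g g6 (@Lb.r r387 (@Lb.r r97 (@Lb.r r24 (@Lb.d (nat_lit 10) (nat_lit 4) (nat_lit 65) (@Lb.t (@Lb.fp (nat_lit 9) t40)))))))))))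
noncomputable def l14020 : Lb := (@Lb.r r323 (@Lb.d (nat_lit 137) (nat_lit 545) (nat_lit 10) (@Lb.g g8 (@Lb.g g9 (@Lb.g g10 (@Lb.r r275 (@Lb.r r609 (@Lb.r r598 (@Lb.r r408 (@Lb.d (nat_lit 25) (nat_lit 74) (nat_lit 74) (@Lb.t (@Lb.fm (nat_lit 9) t2))))))))))))
noncomputable def l14021 : Lb := (@Lb.d (nat_lit 2) (nat_lit 514) (nat_lit 130) (@Lb.g g8 (@Lb.g g9 (@Lb.g g10 (@Lb.g g11 (@Lb.r r586 (@Lb.r r600 (@Lb.r r293 (@Lb.r r539 (@Lb.r r516 (@Lb.d (nat_lit 9) (nat_lit 73) (nat_lit 585) (@Lb.fm (nat_lit 9) t1604))))))))))))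
noncomputable def l14022 : Lb := (@Lb.d (nat_lit 0) (nat_lit 2) (nat_lit 130) (@Lb.g g8 (@Lb.g g9 (@Lb.g g10 (@Lb.g g11 (@Lb.r r148 (@Lb.r r102 (@Lb.r r357 (@Lb.r r667 (@Lb.r r644 (@Lb.d (nat_lit 9) (nat_lit 2) (nat_lit 74) (@Lb.fp (nat_lit 9) t2))))))))))))
noncomputable def l14023 : Lb := (@Lb.r r82 (@Lb.d (nat_lit 2) (nat_lit 258) (nat_lit 64) (@Lb.g g8 (@Lb.g g9 (@Lb.g g7 (@Lb.r r386 (@Lb.r r289 (@Lb.r r24 (@Lb.d (nat_lit 10) (nat_lit 33) (nat_lit 138) (@Lb.t (@Lb.fm (nat_lit 9) t42)))))))))))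
noncomputable def l14024 : Lb := (@Lb.d (nat_lit 0) (nat_lit 2) (nat_lit 130) (@Lb.g g9 (@Lb.g g10 (@Lb.g g11 (@Lb.r r610 (@Lb.r r1611 (@Lb.r r1560 (@Lb.r r1125 (@Lb.d (nat_lit 281) (nat_lit 130) (nat_lit 100) (@Lb.t (@Lb.fp (nat_lit 9) t2336)))))))))))
noncomputable def l14025 : Lb := (@Lb.r r402 (@Lb.d (nat_lit 0) (nat_lit 320) (nat_lit 650) (@Lb.fm (nat_lit 1) t1604)))
noncomputable def l14026 : Lb := (@Lb.d (nat_lit 0) (nat_lit 520) (nat_lit 9) (@Lb.g g10 (@Lb.d (nat_lit 0) (nat_lit 90) (nat_lit 649) (@Lb.t (@Lb.fp (nat_lit 3) t387)))))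
noncomputable def l14027 : Lb := (@Lb.d (nat_lit 2) (nat_lit 514) (nat_lit 130) (@Lb.g g8 (@Lb.g g9 (@Lb.g g10 (@Lb.g g11 (@Lb.r r148 (@Lb.r r102 (@Lb.r r357 (@Lb.r r667 (@Lb.r r644 (@Lb.d (nat_lit 9) (nat_lit 9) (nat_lit 73) (@Lb.fp (nat_lit 9) t21))))))))))))
noncomputable def l14028 : Lb := (@Lb.d (nat_lit 138) (nat_lit 592) (nat_lit 576) (@Lb.r r553 (@Lb.r r683 (@Lb.r r662 (@Lb.g g5 (@Lb.g g4 (@Lb.d (nat_lit 1) (nat_lit 5) (nat_lit 0) (@Lb.fp (nat_lit 3) t41))))))))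
noncomputable def l14029 : Lb := (@Lb.d (nat_lit 138) (nat_lit 336) (nat_lit 512) (@Lb.r r553 (@Lb.r r683 (@Lb.r r662 (@Lb.g g5 (@Lb.g g4 (@Lb.d (nat_lit 0) (nat_lit 5) (nat_lit 0) (@Lb.fp (nat_lit 3) t3033))))))))
noncomputable def l14030 : Lb := (@Lb.r r275 (@Lb.d (nat_lit 2) (nat_lit 2) (nat_lit 2) (@Lb.g g8 (@Lb.g g9 (@Lb.g g10 (@Lb.r r2603 (@Lb.r r386 (@Lb.r r609 (@Lb.r r24 (@Lb.d (nat_lit 266) (nat_lit 25) (nat_lit 90) (@Lb.t (@Lb.fm (nat_lit 9) t811))))))))))))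
noncomputable def l14031 : Lb := (@Lb.d (nat_lit 0) (nat_lit 1) (nat_lit 130) (@Lb.g g8 (@Lb.g g9 (@Lb.g g10 (@Lb.g g11 (@Lb.r r618 (@Lb.r r1611 (@Lb.r r100 (@Lb.r r1301 (@Lb.r r1060 (@Lb.d (nat_lit 577) (nat_lit 82) (nat_lit 128) (@Lb.fm (nat_lit 9) t2336))))))))))))
noncomputable def l14032 : Lb := (@Lb.d (nat_lit 2) (nat_lit 258) (nat_lit 130) (@Lb.g g8 (@Lb.g g9 (@Lb.g g10 (@Lb.g g11 (@Lb.r r1706 (@Lb.r r648 (@Lb.r r1563 (@Lb.r r2337 (@Lb.r r36 (@Lb.d (nat_lit 642) (nat_lit 105) (nat_lit 66) (@Lb.fp (nat_lit 9) t242))))))))))))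
noncomputable def l14033 : Lb := (@Lb.d (nat_lit 1) (nat_lit 2) (nat_lit 130) (@Lb.g g8 (@Lb.g g9 (@Lb.g g10 (@Lb.g g11 (@Lb.r r1706 (@Lb.r r648 (@Lb.r r1563 (@Lb.r r2337 (@Lb.r r36 (@Lb.d (nat_lit 641) (nat_lit 105) (nat_lit 66) (@Lb.fp (nat_lit 9) t242))))))))))))
noncomputable def l14034 : Lb := (@Lb.d (nat_lit 2) (nat_lit 258) (nat_lit 130) (@Lb.g g8 (@Lb.g g9 (@Lb.g g10 (@Lb.g g11 (@Lb.r r1706 (@Lb.r r648 (@Lb.r r1563 (@Lb.r r2337 (@Lb.r r36 (@Lb.d (nat_lit 641) (nat_lit 98) (nat_lit 64) (@Lb.fp (nat_lit 9) t242))))))))))))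
noncomputable def l14035 : Lb := (@Lb.d (nat_lit 8) (nat_lit 546) (nat_lit 0) (@Lb.g g9 (@Lb.r r659 (@Lb.r r134 (@Lb.r r596 (@Lb.r r297 (@Lb.d (nat_lit 134) (nat_lit 74) (nat_lit 2) (@Lb.t (@Lb.fm (nat_lit 3) t51)))))))))
noncomputable def l14036 : Lb := (@Lb.d (nat_lit 577) (nat_lit 0) (nat_lit 80) (@Lb.r r154 (@Lb.r r101 (@Lb.r r519 (@Lb.r r264 (@Lb.g g7 (@Lb.d (nat_lit 64) (nat_lit 0) (nat_lit 128) (@Lb.t (@Lb.fm (nat_lit 3) t334)))))))))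
noncomputable def l14037 : Lb := (@Lb.d (nat_lit 2) (nat_lit 2) (nat_lit 73) (@Lb.g g8 (@Lb.g g9 (@Lb.g g10 (@Lb.g g11 (@Lb.r r1706 (@Lb.r r648 (@Lb.r r1563 (@Lb.r r2337 (@Lb.r r36 (@Lb.d (nat_lit 641) (nat_lit 105) (nat_lit 66) (@Lb.fp (nat_lit 9) t242))))))))))))
noncomputable def l14038 : Lb := (@Lb.g g10 (@Lb.g g7 (@Lb.r r579 (@Lb.d (nat_lit 0) (nat_lit 512) (nat_lit 68) (@Lb.fm (nat_lit 3) t2)))))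
noncomputable def l14039 : Lb := (@Lb.d (nat_lit 0) (nat_lit 512) (nat_lit 128) (@Lb.g g10 (@Lb.g g11 (@Lb.r r387 (@Lb.d (nat_lit 0) (nat_lit 0) (nat_lit 2) (@Lb.fm (nat_lit 3) t2))))))
noncomputable def l14040 : Lb := (@Lb.r r2324 (@Lb.r r2649 (@Lb.r r2178 (@Lb.r r2587 (@Lb.r r600 (@Lb.g g10 (@Lb.t (@Lb.p (nat_lit 1) (@Lb.fm (nat_lit 3) t1038)))))))))
noncomputable def l14041 : Lb := (@Lb.d (nat_lit 2) (nat_lit 258) (nat_lit 0) (@Lb.g g8 (@Lb.g g9 (@Lb.r r406 (@Lb.r r579 (@Lb.r r25 (@Lb.d (nat_lit 9) (nat_lit 16) (nat_lit 10) (@Lb.fm (nat_lit 3) t51))))))))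
noncomputable def l14042 : Lb := (@Lb.d (nat_lit 2) (nat_lit 514) (nat_lit 64) (@Lb.g g8 (@Lb.g g9 (@Lb.g g11 (@Lb.r r662 (@Lb.r r387 (@Lb.r r25 (@Lb.d (nat_lit 9) (nat_lit 16) (nat_lit 133) (@Lb.t (@Lb.fp (nat_lit 9) t51))))))))))
noncomputable def l14043 : Lb := (@Lb.d (nat_lit 2) (nat_lit 266) (nat_lit 0) (@Lb.g g8 (@Lb.g g9 (@Lb.r r662 (@Lb.r r683 (@Lb.r r553 (@Lb.d (nat_lit 69) (nat_lit 160) (nat_lit 394) (@Lb.fp (nat_lit 3) t51))))))))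
noncomputable def l14044 : Lb := (@Lb.d (nat_lit 2) (nat_lit 522) (nat_lit 64) (@Lb.g g8 (@Lb.g g9 (@Lb.g g11 (@Lb.r r406 (@Lb.r r343 (@Lb.r r553 (@Lb.d (nat_lit 69) (nat_lit 165) (nat_lit 257) (@Lb.t (@Lb.fm (nat_lit 9) t51))))))))))
noncomputable def l14045 : Lb := (@Lb.d (nat_lit 90) (nat_lit 6) (nat_lit 1) (@Lb.g g8 (@Lb.g g9 (@Lb.g g10 (@Lb.r r343 (@Lb.r r661 (@Lb.r r356 (@Lb.r r2666 (@Lb.d (nat_lit 353) (nat_lit 17) (nat_lit 520) (@Lb.t (@Lb.fm (nat_lit 9) t979)))))))))))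
noncomputable def l14046 : Lb := (@Lb.r r323 (@Lb.d (nat_lit 138) (nat_lit 512) (nat_lit 2) (@Lb.g g8 (@Lb.g g10 (@Lb.r r346 (@Lb.r r661 (@Lb.r r1431 (@Lb.r r2632 (@Lb.d (nat_lit 354) (nat_lit 134) (nat_lit 256) (@Lb.fp (nat_lit 3) t71))))))))))
noncomputable def l14047 : Lb := (@Lb.d (nat_lit 5) (nat_lit 358) (nat_lit 592) (@Lb.r r24 (@Lb.r r1633 (@Lb.g g7 (@Lb.g g10 (@Lb.g g5 (@Lb.g g4 (@Lb.d (nat_lit 4) (nat_lit 1) (nat_lit 164) (@Lb.fm (nat_lit 9) t51)))))))))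
noncomputable def l14048 : Lb := (@Lb.d (nat_lit 401) (nat_lit 256) (nat_lit 534) (@Lb.r r20 (@Lb.r r1641 (@Lb.r r386 (@Lb.g g11 (@Lb.g g6 (@Lb.g g5 (@Lb.g g4 (@Lb.d (nat_lit 1) (nat_lit 1) (nat_lit 1) (@Lb.fm (nat_lit 9) t334))))))))))
noncomputable def l14049 : Lb := (@Lb.r r323 (@Lb.d (nat_lit 2) (nat_lit 546) (nat_lit 2) (@Lb.g g8 (@Lb.g g9 (@Lb.g g10 (@Lb.r r599 (@Lb.r r74 (@Lb.r r296 (@Lb.r r409 (@Lb.d (nat_lit 149) (nat_lit 154) (nat_lit 394) (@Lb.t (@Lb.fm (nat_lit 9) t51))))))))))))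
noncomputable def l14050 : Lb := (@Lb.r r323 (@Lb.d (nat_lit 2) (nat_lit 289) (nat_lit 2) (@Lb.g g8 (@Lb.g g9 (@Lb.g g10 (@Lb.r r2647 (@Lb.r r74 (@Lb.r r1320 (@Lb.r r1433 (@Lb.d (nat_lit 661) (nat_lit 26) (nat_lit 682) (@Lb.t (@Lb.fm (nat_lit 9) t51))))))))))))
noncomputable def l14051 : Lb := (@Lb.r r323 (@Lb.d (nat_lit 2) (nat_lit 546) (nat_lit 2) (@Lb.g g8 (@Lb.g g9 (@Lb.g g10 (@Lb.r r599 (@Lb.r r74 (@Lb.r r296 (@Lb.r r409 (@Lb.d (nat_lit 152) (nat_lit 152) (nat_lit 256) (@Lb.t (@Lb.fm (nat_lit 9) t51))))))))))))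
noncomputable def l14052 : Lb := (@Lb.d (nat_lit 26) (nat_lit 512) (nat_lit 74) (@Lb.g g8 (@Lb.g g10 (@Lb.g g11 (@Lb.r r1691 (@Lb.r r1602 (@Lb.r r21 (@Lb.r r2084 (@Lb.d (nat_lit 522) (nat_lit 21) (nat_lit 664) (@Lb.t (@Lb.fp (nat_lit 9) t50)))))))))))
noncomputable def l14053 : Lb := (@Lb.d (nat_lit 2) (nat_lit 514) (nat_lit 66) (@Lb.g g8 (@Lb.g g9 (@Lb.g g10 (@Lb.g g11 (@Lb.r r596 (@Lb.r r410 (@Lb.r r2645 (@Lb.r r2391 (@Lb.r r1700 (@Lb.d (nat_lit 1) (nat_lit 129) (nat_lit 74) (@Lb.fm (nat_lit 9) t2))))))))))))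
noncomputable def l14054 : Lb := (@Lb.d (nat_lit 406) (nat_lit 1) (nat_lit 534) (@Lb.r r20 (@Lb.r r1641 (@Lb.r r386 (@Lb.g g11 (@Lb.g g6 (@Lb.g g5 (@Lb.g g4 (@Lb.d (nat_lit 1) (nat_lit 1) (nat_lit 1) (@Lb.fm (nat_lit 9) t334))))))))))
noncomputable def l14055 : Lb := (@Lb.r r323 (@Lb.d (nat_lit 130) (nat_lit 546) (nat_lit 10) (@Lb.g g8 (@Lb.g g9 (@Lb.g g10 (@Lb.r r275 (@Lb.r r609 (@Lb.r r598 (@Lb.r r408 (@Lb.d (nat_lit 24) (nat_lit 74) (nat_lit 74) (@Lb.t (@Lb.fm (nat_lit 9) t2))))))))))))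
noncomputable def l14056 : Lb := (@Lb.r r82 (@Lb.r r275 (@Lb.d (nat_lit 2) (nat_lit 256) (nat_lit 0) (@Lb.g g8 (@Lb.g g9 (@Lb.r r299 (@Lb.r r106 (@Lb.r r25 (@Lb.d (nat_lit 8) (nat_lit 2) (nat_lit 0) (@Lb.fm (nat_lit 3) t5))))))))))
noncomputable def l14057 : Lb := (@Lb.d (nat_lit 10) (nat_lit 514) (nat_lit 130) (@Lb.g g8 (@Lb.g g9 (@Lb.g g10 (@Lb.g g11 (@Lb.r r2731 (@Lb.r r2601 (@Lb.r r616 (@Lb.r r2118 (@Lb.r r1156 (@Lb.d (nat_lit 2) (nat_lit 25) (nat_lit 297) (@Lb.fm (nat_lit 9) t591))))))))))))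
noncomputable def l14058 : Lb := (@Lb.d (nat_lit 136) (nat_lit 258) (nat_lit 130) (@Lb.g g9 (@Lb.g g10 (@Lb.g g11 (@Lb.r r618 (@Lb.r r24 (@Lb.r r405 (@Lb.r r2663 (@Lb.d (nat_lit 69) (nat_lit 89) (nat_lit 402) (@Lb.t (@Lb.fm (nat_lit 9) t312)))))))))))
noncomputable def l14059 : Lb := (@Lb.d (nat_lit 0) (nat_lit 256) (nat_lit 128) (@Lb.g g10 (@Lb.g g11 (@Lb.r r387 (@Lb.d (nat_lit 1) (nat_lit 0) (nat_lit 9) (@Lb.fm (nat_lit 3) t2))))))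
noncomputable def l14060 : Lb := (@Lb.d (nat_lit 8) (nat_lit 258) (nat_lit 130) (@Lb.g g9 (@Lb.g g10 (@Lb.g g11 (@Lb.r r614 (@Lb.r r404 (@Lb.r r619 (@Lb.r r609 (@Lb.d (nat_lit 9) (nat_lit 146) (nat_lit 138) (@Lb.t (@Lb.fm (nat_lit 9) t44)))))))))))
noncomputable def l14061 : Lb := (@Lb.r r323 (@Lb.d (nat_lit 33) (nat_lit 9) (nat_lit 1) (@Lb.g g8 (@Lb.g g9 (@Lb.g g10 (@Lb.r r1689 (@Lb.r r1563 (@Lb.r r2634 (@Lb.r r1540 (@Lb.d (nat_lit 258) (nat_lit 0) (nat_lit 344) (@Lb.t (@Lb.fp (nat_lit 9) t1328))))))))))))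
noncomputable def l14062 : Lb := (@Lb.r r70 (@Lb.d (nat_lit 0) (nat_lit 66) (nat_lit 128) (@Lb.g g8 (@Lb.g g9 (@Lb.g g11 (@Lb.r r1623 (@Lb.r r2730 (@Lb.r r2660 (@Lb.d (nat_lit 2) (nat_lit 90) (nat_lit 420) (@Lb.t (@Lb.fm (nat_lit 9) t1605)))))))))))
noncomputable def l14063 : Lb := (@Lb.r r21 (@Lb.d (nat_lit 8) (nat_lit 512) (nat_lit 73) (@Lb.g g8 (@Lb.g g10 (@Lb.g g11 (@Lb.r r667 (@Lb.r r2405 (@Lb.r r1178 (@Lb.r r1156 (@Lb.d (nat_lit 344) (nat_lit 65) (nat_lit 337) (@Lb.t (@Lb.fp (nat_lit 9) t284))))))))))))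
noncomputable def l14064 : Lb := (@Lb.d (nat_lit 0) (nat_lit 256) (nat_lit 73) (@Lb.g g4 (@Lb.g g10 (@Lb.g g11 (@Lb.r r2691 (@Lb.r r2658 (@Lb.d (nat_lit 1) (nat_lit 37) (nat_lit 425) (@Lb.t (@Lb.fm (nat_lit 9) t71)))))))))
noncomputable def l14065 : Lb := (@Lb.d (nat_lit 0) (nat_lit 256) (nat_lit 74) (@Lb.g g10 (@Lb.g g11 (@Lb.r r658 (@Lb.r r1683 (@Lb.r r1602 (@Lb.d (nat_lit 0) (nat_lit 160) (nat_lit 674) (@Lb.fm (nat_lit 3) t1604))))))))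
noncomputable def l14066 : Lb := (@Lb.g g10 (@Lb.g g7 (@Lb.r r1379 (@Lb.r r594 (@Lb.d (nat_lit 0) (nat_lit 576) (nat_lit 32) (@Lb.fp (nat_lit 3) t1563))))))
noncomputable def l14067 : Lb := (@Lb.d (nat_lit 2) (nat_lit 514) (nat_lit 73) (@Lb.g g8 (@Lb.g g9 (@Lb.g g10 (@Lb.g g11 (@Lb.r r2691 (@Lb.r r297 (@Lb.r r360 (@Lb.r r582 (@Lb.r r2180 (@Lb.d (nat_lit 641) (nat_lit 10) (nat_lit 265) (@Lb.fm (nat_lit 9) t242))))))))))))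
noncomputable def l14068 : Lb := (@Lb.d (nat_lit 32) (nat_lit 8) (nat_lit 128) (@Lb.g g10 (@Lb.g g11 (@Lb.r r360 (@Lb.r r1641 (@Lb.r r2667 (@Lb.r r1446 (@Lb.d (nat_lit 338) (nat_lit 164) (nat_lit 425) (@Lb.fm (nat_lit 3) t97)))))))))
noncomputable def l14069 : Lb := (@Lb.r r70 (@Lb.d (nat_lit 385) (nat_lit 10) (nat_lit 128) (@Lb.g g8 (@Lb.g g9 (@Lb.g g11 (@Lb.r r2454 (@Lb.r r2391 (@Lb.r r2601 (@Lb.d (nat_lit 325) (nat_lit 18) (nat_lit 400) (@Lb.t (@Lb.fm (nat_lit 9) t2390)))))))))))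
noncomputable def l14070 : Lb := (@Lb.r r21 (@Lb.d (nat_lit 18) (nat_lit 8) (nat_lit 128) (@Lb.g g4 (@Lb.g g10 (@Lb.g g11 (@Lb.r r1703 (@Lb.r r2137 (@Lb.r r1446 (@Lb.d (nat_lit 104) (nat_lit 161) (nat_lit 424) (@Lb.t (@Lb.fp (nat_lit 9) t601)))))))))))
noncomputable def l14071 : Lb := (@Lb.d (nat_lit 0) (nat_lit 8) (nat_lit 128) (@Lb.g g10 (@Lb.g g11 (@Lb.r r403 (@Lb.r r1636 (@Lb.r r613 (@Lb.r r1370 (@Lb.d (nat_lit 40) (nat_lit 5) (nat_lit 406) (@Lb.fp (nat_lit 3) t1495)))))))))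
noncomputable def l14072 : Lb := (@Lb.d (nat_lit 0) (nat_lit 0) (nat_lit 136) (@Lb.g g11 (@Lb.r r596 (@Lb.r r1433 (@Lb.r r410 (@Lb.r r132 (@Lb.d (nat_lit 257) (nat_lit 130) (nat_lit 128) (@Lb.t (@Lb.fm (nat_lit 3) t1495)))))))))
noncomputable def l14073 : Lb := (@Lb.d (nat_lit 32) (nat_lit 514) (nat_lit 128) (@Lb.g g9 (@Lb.g g10 (@Lb.g g11 (@Lb.r r328 (@Lb.r r2471 (@Lb.r r1369 (@Lb.r r2214 (@Lb.d (nat_lit 530) (nat_lit 68) (nat_lit 266) (@Lb.t (@Lb.fm (nat_lit 9) t97)))))))))))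
noncomputable def l14074 : Lb := (@Lb.d (nat_lit 2) (nat_lit 2) (nat_lit 130) (@Lb.g g8 (@Lb.g g9 (@Lb.g g10 (@Lb.g g11 (@Lb.r r427 (@Lb.r r424 (@Lb.r r106 (@Lb.r r97 (@Lb.d (nat_lit 4) (nat_lit 1) (nat_lit 18) (@Lb.fp (nat_lit 9) t356)))))))))))
noncomputable def l14075 : Lb := (@Lb.r r323 (@Lb.d (nat_lit 130) (nat_lit 514) (nat_lit 2) (@Lb.g g8 (@Lb.g g9 (@Lb.g g10 (@Lb.r r599 (@Lb.r r98 (@Lb.r r97 (@Lb.r r408 (@Lb.d (nat_lit 152) (nat_lit 24) (nat_lit 18) (@Lb.t (@Lb.fp (nat_lit 9) t356))))))))))))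
noncomputable def l14076 : Lb := (@Lb.r r275 (@Lb.d (nat_lit 0) (nat_lit 514) (nat_lit 2) (@Lb.g g9 (@Lb.g g10 (@Lb.r r675 (@Lb.r r161 (@Lb.r r98 (@Lb.r r24 (@Lb.d (nat_lit 10) (nat_lit 132) (nat_lit 5) (@Lb.fp (nat_lit 3) t1436))))))))))
noncomputable def l14077 : Lb := (@Lb.d (nat_lit 100) (nat_lit 532) (nat_lit 10) (@Lb.r r408 (@Lb.r r273 (@Lb.r r330 (@Lb.g g7 (@Lb.g g4 (@Lb.d (nat_lit 17) (nat_lit 32) (nat_lit 64) (@Lb.r r578 (@Lb.fp (nat_lit 3) t5)))))))))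
noncomputable def l14078 : Lb := (@Lb.r r323 (@Lb.d (nat_lit 130) (nat_lit 2) (nat_lit 2) (@Lb.g g8 (@Lb.g g9 (@Lb.g g10 (@Lb.r r599 (@Lb.r r98 (@Lb.r r97 (@Lb.r r408 (@Lb.d (nat_lit 152) (nat_lit 22) (nat_lit 17) (@Lb.t (@Lb.fp (nat_lit 9) t356))))))))))))
noncomputable def l14079 : Lb := (@Lb.r r323 (@Lb.d (nat_lit 1) (nat_lit 0) (nat_lit 1) (@Lb.g g8 (@Lb.g g6 (@Lb.r r387 (@Lb.r r2073 (@Lb.d (nat_lit 33) (nat_lit 0) (nat_lit 98) (@Lb.fp (nat_lit 3) t183))))))))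
noncomputable def l14080 : Lb := (@Lb.r r323 (@Lb.d (nat_lit 9) (nat_lit 514) (nat_lit 1) (@Lb.g g8 (@Lb.g g9 (@Lb.g g6 (@Lb.r r387 (@Lb.r r104 (@Lb.r r1129 (@Lb.r r1060 (@Lb.d (nat_lit 548) (nat_lit 128) (nat_lit 66) (@Lb.t (@Lb.fp (nat_lit 9) t3034))))))))))))
noncomputable def l14081 : Lb := (@Lb.r r323 (@Lb.d (nat_lit 1) (nat_lit 256) (nat_lit 1) (@Lb.g g8 (@Lb.g g6 (@Lb.r r387 (@Lb.r r2073 (@Lb.d (nat_lit 34) (nat_lit 5) (nat_lit 96) (@Lb.fp (nat_lit 3) t382))))))))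
noncomputable def l14082 : Lb := (@Lb.r r323 (@Lb.d (nat_lit 1) (nat_lit 512) (nat_lit 1) (@Lb.g g8 (@Lb.g g6 (@Lb.r r387 (@Lb.r r2073 (@Lb.d (nat_lit 33) (nat_lit 5) (nat_lit 96) (@Lb.fp (nat_lit 3) t382))))))))
noncomputable def l14083 : Lb := (@Lb.r r323 (@Lb.d (nat_lit 130) (nat_lit 2) (nat_lit 2) (@Lb.g g8 (@Lb.g g9 (@Lb.g g10 (@Lb.r r599 (@Lb.r r98 (@Lb.r r97 (@Lb.r r408 (@Lb.d (nat_lit 150) (nat_lit 26) (nat_lit 18) (@Lb.t (@Lb.fp (nat_lit 9) t356))))))))))))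
noncomputable def l14084 : Lb := (@Lb.d (nat_lit 534) (nat_lit 1) (nat_lit 22) (@Lb.r r20 (@Lb.r r2153 (@Lb.r r386 (@Lb.g g11 (@Lb.g g6 (@Lb.g g5 (@Lb.g g4 (@Lb.d (nat_lit 1) (nat_lit 8) (nat_lit 128) (@Lb.fm (nat_lit 9) t51))))))))))
noncomputable def l14085 : Lb := (@Lb.r r21 (@Lb.d (nat_lit 6) (nat_lit 512) (nat_lit 130) (@Lb.g g8 (@Lb.g g10 (@Lb.g g11 (@Lb.r r427 (@Lb.r r106 (@Lb.r r25 (@Lb.d (nat_lit 0) (nat_lit 68) (nat_lit 136) (@Lb.t (@Lb.fm (nat_lit 9) t51)))))))))))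
noncomputable def l14086 : Lb := (@Lb.d (nat_lit 0) (nat_lit 256) (nat_lit 133) (@Lb.g g10 (@Lb.g g11 (@Lb.r r643 (@Lb.r r2626 (@Lb.d (nat_lit 0) (nat_lit 5) (nat_lit 34) (@Lb.fp (nat_lit 3) t45)))))))
noncomputable def l14087 : Lb := (@Lb.d (nat_lit 2) (nat_lit 2) (nat_lit 64) (@Lb.g g8 (@Lb.g g9 (@Lb.g g10 (@Lb.g g11 (@Lb.r r1323 (@Lb.r r356 (@Lb.r r154 (@Lb.r r2069 (@Lb.r r1060 (@Lb.d (nat_lit 296) (nat_lit 2) (nat_lit 2) (@Lb.fm (nat_lit 9) t221))))))))))))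
noncomputable def l14088 : Lb := (@Lb.d (nat_lit 0) (nat_lit 512) (nat_lit 128) (@Lb.g g4 (@Lb.g g10 (@Lb.g g11 (@Lb.r r2626 (@Lb.d (nat_lit 1) (nat_lit 0) (nat_lit 256) (@Lb.t (@Lb.fp (nat_lit 9) t2))))))))
noncomputable def l14089 : Lb := (@Lb.d (nat_lit 38) (nat_lit 0) (nat_lit 73) (@Lb.g g8 (@Lb.g g9 (@Lb.g g10 (@Lb.g g11 (@Lb.r r419 (@Lb.r r1177 (@Lb.r r1626 (@Lb.r r1540 (@Lb.d (nat_lit 404) (nat_lit 5) (nat_lit 673) (@Lb.fp (nat_lit 9) t168)))))))))))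
noncomputable def l14090 : Lb := (@Lb.r r323 (@Lb.d (nat_lit 36) (nat_lit 512) (nat_lit 2) (@Lb.g g8 (@Lb.g g9 (@Lb.g g10 (@Lb.r r1689 (@Lb.r r1563 (@Lb.r r1540 (@Lb.d (nat_lit 418) (nat_lit 0) (nat_lit 673) (@Lb.t (@Lb.fp (nat_lit 9) t168)))))))))))
noncomputable def l14091 : Lb := (@Lb.d (nat_lit 4) (nat_lit 512) (nat_lit 130) (@Lb.g g8 (@Lb.g g9 (@Lb.g g10 (@Lb.g g11 (@Lb.r r427 (@Lb.r r297 (@Lb.r r104 (@Lb.r r70 (@Lb.r r132 (@Lb.d (nat_lit 9) (nat_lit 66) (nat_lit 384) (@Lb.fp (nat_lit 9) t119))))))))))))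
noncomputable def l14092 : Lb := (@Lb.d (nat_lit 72) (nat_lit 388) (nat_lit 424) (@Lb.r r1412 (@Lb.r r2730 (@Lb.r r1623 (@Lb.g g7 (@Lb.g g6 (@Lb.g g5 (@Lb.g g4 (@Lb.d (nat_lit 18) (nat_lit 134) (nat_lit 66) (@Lb.fp (nat_lit 9) t277))))))))))
noncomputable def l14093 : Lb := (@Lb.d (nat_lit 2) (nat_lit 322) (nat_lit 130) (@Lb.g g8 (@Lb.g g9 (@Lb.g g10 (@Lb.g g11 (@Lb.r r2475 (@Lb.r r2154 (@Lb.r r36 (@Lb.d (nat_lit 24) (nat_lit 1) (nat_lit 152) (@Lb.fp (nat_lit 9) t284))))))))))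
noncomputable def l14094 : Lb := (@Lb.d (nat_lit 16) (nat_lit 257) (nat_lit 74) (@Lb.g g8 (@Lb.g g9 (@Lb.g g10 (@Lb.g g11 (@Lb.r r1707 (@Lb.r r1602 (@Lb.r r41 (@Lb.r r2084 (@Lb.d (nat_lit 265) (nat_lit 21) (nat_lit 664) (@Lb.fp (nat_lit 9) t50)))))))))))
noncomputable def l14095 : Lb := (@Lb.d (nat_lit 37) (nat_lit 64) (nat_lit 106) (@Lb.r r24 (@Lb.r r2325 (@Lb.r r418 (@Lb.r r323 (@Lb.g g7 (@Lb.g g6 (@Lb.g g5 (@Lb.d (nat_lit 0) (nat_lit 25) (nat_lit 74) (@Lb.t (@Lb.fp (nat_lit 9) t98)))))))))))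
noncomputable def l14096 : Lb := (@Lb.r r21 (@Lb.d (nat_lit 2) (nat_lit 256) (nat_lit 74) (@Lb.g g8 (@Lb.g g10 (@Lb.g g11 (@Lb.r r170 (@Lb.r r1433 (@Lb.r r2343 (@Lb.r r1540 (@Lb.d (nat_lit 42) (nat_lit 128) (nat_lit 34) (@Lb.t (@Lb.fp (nat_lit 9) t284))))))))))))
noncomputable def l14097 : Lb := (@Lb.d (nat_lit 0) (nat_lit 256) (nat_lit 73) (@Lb.g g10 (@Lb.g g11 (@Lb.r r323 (@Lb.r r322 (@Lb.d (nat_lit 0) (nat_lit 5) (nat_lit 74) (@Lb.fm (nat_lit 3) t45)))))))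
noncomputable def l14098 : Lb := (@Lb.r r580 (@Lb.r r593 (@Lb.d (nat_lit 16) (nat_lit 8) (nat_lit 73) (@Lb.g g6 (@Lb.g g11 (@Lb.r r1429 (@Lb.r r2339 (@Lb.r r2632 (@Lb.d (nat_lit 577) (nat_lit 32) (nat_lit 72) (@Lb.fm (nat_lit 3) t428))))))))))
noncomputable def l14099 : Lb := (@Lb.d (nat_lit 32) (nat_lit 256) (nat_lit 64) (@Lb.g g10 (@Lb.g g7 (@Lb.r r593 (@Lb.r r580 (@Lb.r r362 (@Lb.d (nat_lit 548) (nat_lit 42) (nat_lit 614) (@Lb.fp (nat_lit 3) t145))))))))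
noncomputable def l14100 : Lb := (@Lb.r r21 (@Lb.d (nat_lit 10) (nat_lit 256) (nat_lit 2) (@Lb.g g8 (@Lb.g g10 (@Lb.r r667 (@Lb.r r2405 (@Lb.r r1178 (@Lb.r r1156 (@Lb.d (nat_lit 346) (nat_lit 65) (nat_lit 337) (@Lb.fp (nat_lit 3) t284))))))))))
noncomputable def l14101 : Lb := (@Lb.d (nat_lit 32) (nat_lit 4) (nat_lit 73) (@Lb.g g10 (@Lb.g g11 (@Lb.r r661 (@Lb.r r2664 (@Lb.r r2411 (@Lb.r r2714 (@Lb.d (nat_lit 105) (nat_lit 162) (nat_lit 404) (@Lb.fm (nat_lit 3) t3035)))))))))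
noncomputable def l14102 : Lb := (@Lb.d (nat_lit 1) (nat_lit 2) (nat_lit 74) (@Lb.g g8 (@Lb.g g9 (@Lb.g g10 (@Lb.g g11 (@Lb.r r162 (@Lb.r r1425 (@Lb.r r612 (@Lb.r r295 (@Lb.r r516 (@Lb.d (nat_lit 42) (nat_lit 128) (nat_lit 169) (@Lb.fm (nat_lit 9) t284))))))))))))
noncomputable def l14103 : Lb := (@Lb.d (nat_lit 2) (nat_lit 258) (nat_lit 74) (@Lb.g g8 (@Lb.g g9 (@Lb.g g10 (@Lb.g g11 (@Lb.r r162 (@Lb.r r1425 (@Lb.r r612 (@Lb.r r295 (@Lb.r r516 (@Lb.d (nat_lit 42) (nat_lit 128) (nat_lit 34) (@Lb.fm (nat_lit 9) t284))))))))))))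
noncomputable def l14104 : Lb := (@Lb.d (nat_lit 102) (nat_lit 165) (nat_lit 256) (@Lb.r r597 (@Lb.r r322 (@Lb.r r343 (@Lb.g g6 (@Lb.g g5 (@Lb.g g4 (@Lb.d (nat_lit 1) (nat_lit 0) (nat_lit 1) (@Lb.r r291 (@Lb.t (@Lb.fp (nat_lit 9) t898)))))))))))
noncomputable def l14105 : Lb := (@Lb.d (nat_lit 2) (nat_lit 514) (nat_lit 130) (@Lb.g g8 (@Lb.g g9 (@Lb.g g10 (@Lb.g g11 (@Lb.r r427 (@Lb.r r2473 (@Lb.r r2472 (@Lb.r r2154 (@Lb.d (nat_lit 292) (nat_lit 132) (nat_lit 152) (@Lb.fp (nat_lit 9) t2316)))))))))))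
noncomputable def l14106 : Lb := (@Lb.d (nat_lit 2) (nat_lit 130) (nat_lit 4) (@Lb.g g8 (@Lb.g g9 (@Lb.g g10 (@Lb.g g11 (@Lb.r r1451 (@Lb.r r324 (@Lb.r r138 (@Lb.r r132 (@Lb.d (nat_lit 1) (nat_lit 130) (nat_lit 137) (@Lb.fm (nat_lit 9) t455)))))))))))
noncomputable def l14107 : Lb := (@Lb.d (nat_lit 2) (nat_lit 4) (nat_lit 128) (@Lb.g g8 (@Lb.g g9 (@Lb.g g10 (@Lb.g g11 (@Lb.r r427 (@Lb.r r2440 (@Lb.r r2122 (@Lb.r r37 (@Lb.d (nat_lit 289) (nat_lit 74) (nat_lit 152) (@Lb.fp (nat_lit 9) t1524)))))))))))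
noncomputable def l14108 : Lb := (@Lb.d (nat_lit 0) (nat_lit 2) (nat_lit 128) (@Lb.g g9 (@Lb.g g10 (@Lb.g g11 (@Lb.r r2727 (@Lb.r r1368 (@Lb.r r2214 (@Lb.r r145 (@Lb.d (nat_lit 521) (nat_lit 66) (nat_lit 0) (@Lb.t (@Lb.fp (nat_lit 9) t51)))))))))))
noncomputable def l14109 : Lb := (@Lb.d (nat_lit 2) (nat_lit 257) (nat_lit 128) (@Lb.g g8 (@Lb.g g9 (@Lb.g g10 (@Lb.g g11 (@Lb.r r2730 (@Lb.r r680 (@Lb.r r555 (@Lb.r r529 (@Lb.r r36 (@Lb.d (nat_lit 512) (nat_lit 98) (nat_lit 74) (@Lb.fm (nat_lit 9) t51))))))))))))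
noncomputable def l14110 : Lb := (@Lb.r r2069 (@Lb.r r2118 (@Lb.r r2311 (@Lb.d (nat_lit 1) (nat_lit 512) (nat_lit 0) (@Lb.g g4 (@Lb.d (nat_lit 8) (nat_lit 64) (nat_lit 0) (@Lb.t (@Lb.fm (nat_lit 3) t3036))))))))
noncomputable def l14111 : Lb := (@Lb.d (nat_lit 262) (nat_lit 134) (nat_lit 1) (@Lb.r r81 (@Lb.r r2214 (@Lb.r r1368 (@Lb.r r2727 (@Lb.g g7 (@Lb.g g6 (@Lb.g g5 (@Lb.d (nat_lit 0) (nat_lit 1) (nat_lit 64) (@Lb.t (@Lb.fm (nat_lit 9) t356)))))))))))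
noncomputable def l14112 : Lb := (@Lb.d (nat_lit 513) (nat_lit 5) (nat_lit 24) (@Lb.r r154 (@Lb.r r404 (@Lb.r r363 (@Lb.r r353 (@Lb.g g7 (@Lb.g g6 (@Lb.g g4 (@Lb.d (nat_lit 4) (nat_lit 4) (nat_lit 129) (@Lb.t (@Lb.fp (nat_lit 9) t591)))))))))))
noncomputable def l14113 : Lb := (@Lb.d (nat_lit 25) (nat_lit 257) (nat_lit 128) (@Lb.g g8 (@Lb.g g9 (@Lb.g g10 (@Lb.g g11 (@Lb.r r683 (@Lb.r r676 (@Lb.r r1190 (@Lb.r r145 (@Lb.d (nat_lit 265) (nat_lit 137) (nat_lit 425) (@Lb.fp (nat_lit 9) t152)))))))))))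
noncomputable def l14114 : Lb := (@Lb.d (nat_lit 25) (nat_lit 257) (nat_lit 0) (@Lb.g g8 (@Lb.g g9 (@Lb.g g10 (@Lb.r r683 (@Lb.r r1602 (@Lb.r r2089 (@Lb.r r2084 (@Lb.d (nat_lit 520) (nat_lit 26) (nat_lit 537) (@Lb.t (@Lb.fm (nat_lit 9) t98)))))))))))
noncomputable def l14115 : Lb := (@Lb.d (nat_lit 9) (nat_lit 2) (nat_lit 0) (@Lb.g g9 (@Lb.t (@Lb.fp (nat_lit 3) t2))))
noncomputable def l14116 : Lb := (@Lb.r r21 (@Lb.d (nat_lit 130) (nat_lit 0) (nat_lit 132) (@Lb.g g8 (@Lb.g g10 (@Lb.g g11 (@Lb.r r651 (@Lb.r r357 (@Lb.r r154 (@Lb.r r132 (@Lb.d (nat_lit 81) (nat_lit 26) (nat_lit 8) (@Lb.t (@Lb.fp (nat_lit 9) t68))))))))))))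
noncomputable def l14117 : Lb := (@Lb.d (nat_lit 0) (nat_lit 514) (nat_lit 130) (@Lb.g g8 (@Lb.g g9 (@Lb.g g10 (@Lb.g g11 (@Lb.r r2666 (@Lb.r r2153 (@Lb.r r612 (@Lb.r r1287 (@Lb.r r2564 (@Lb.d (nat_lit 9) (nat_lit 18) (nat_lit 384) (@Lb.fm (nat_lit 9) t71))))))))))))
noncomputable def l14118 : Lb := (@Lb.d (nat_lit 8) (nat_lit 256) (nat_lit 4) (@Lb.g g9 (@Lb.g g10 (@Lb.g g11 (@Lb.r r423 (@Lb.r r596 (@Lb.r r666 (@Lb.r r337 (@Lb.d (nat_lit 9) (nat_lit 38) (nat_lit 6) (@Lb.t (@Lb.fp (nat_lit 9) t51)))))))))))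
noncomputable def l14119 : Lb := (@Lb.d (nat_lit 0) (nat_lit 544) (nat_lit 130) (@Lb.g g8 (@Lb.g g10 (@Lb.g g11 (@Lb.r r618 (@Lb.r r149 (@Lb.r r360 (@Lb.r r2567 (@Lb.d (nat_lit 649) (nat_lit 25) (nat_lit 258) (@Lb.t (@Lb.fm (nat_lit 9) t71)))))))))))
noncomputable def l14120 : Lb := (@Lb.d (nat_lit 4) (nat_lit 290) (nat_lit 4) (@Lb.g g8 (@Lb.g g9 (@Lb.g g10 (@Lb.g g11 (@Lb.r r2723 (@Lb.r r610 (@Lb.r r529 (@Lb.d (nat_lit 2) (nat_lit 34) (nat_lit 658) (@Lb.fm (nat_lit 9) t218))))))))))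
noncomputable def l14121 : Lb := (@Lb.r r70 (@Lb.r r263 (@Lb.d (nat_lit 9) (nat_lit 585) (nat_lit 0) (@Lb.g g8 (@Lb.g g9 (@Lb.r r402 (@Lb.r r1607 (@Lb.r r264 (@Lb.d (nat_lit 672) (nat_lit 2) (nat_lit 36) (@Lb.fp (nat_lit 3) t580))))))))))
noncomputable def l14122 : Lb := (@Lb.r r323 (@Lb.d (nat_lit 129) (nat_lit 1) (nat_lit 2) (@Lb.g g8 (@Lb.g g9 (@Lb.g g10 (@Lb.r r519 (@Lb.r r661 (@Lb.r r662 (@Lb.r r2376 (@Lb.d (nat_lit 150) (nat_lit 70) (nat_lit 649) (@Lb.t (@Lb.fp (nat_lit 9) t40))))))))))))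
noncomputable def l14123 : Lb := (@Lb.d (nat_lit 10) (nat_lit 258) (nat_lit 66) (@Lb.g g8 (@Lb.g g9 (@Lb.g g10 (@Lb.g g11 (@Lb.r r537 (@Lb.r r1307 (@Lb.r r404 (@Lb.r r1366 (@Lb.r r2705 (@Lb.r r36 (@Lb.d (nat_lit 262) (nat_lit 130) (nat_lit 18) (@Lb.fp (nat_lit 9) t2)))))))))))))
noncomputable def l14124 : Lb := (@Lb.d (nat_lit 4) (nat_lit 9) (nat_lit 73) (@Lb.g g8 (@Lb.g g9 (@Lb.g g10 (@Lb.g g11 (@Lb.r r407 (@Lb.r r1188 (@Lb.r r326 (@Lb.r r673 (@Lb.d (nat_lit 288) (nat_lit 85) (nat_lit 529) (@Lb.fm (nat_lit 9) t3037)))))))))))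
noncomputable def l14125 : Lb := (@Lb.r r323 (@Lb.d (nat_lit 2) (nat_lit 514) (nat_lit 1) (@Lb.g g8 (@Lb.g g9 (@Lb.g g6 (@Lb.r r387 (@Lb.r r97 (@Lb.d (nat_lit 2) (nat_lit 138) (nat_lit 66) (@Lb.t (@Lb.fm (nat_lit 9) t126))))))))))
noncomputable def l14126 : Lb := (@Lb.d (nat_lit 8) (nat_lit 514) (nat_lit 0) (@Lb.g g9 (@Lb.r r1319 (@Lb.r r1126 (@Lb.r r24 (@Lb.d (nat_lit 265) (nat_lit 1) (nat_lit 0) (@Lb.t (@Lb.fm (nat_lit 3) t284))))))))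
noncomputable def l14127 : Lb := (@Lb.r r82 (@Lb.d (nat_lit 2) (nat_lit 74) (nat_lit 128) (@Lb.g g8 (@Lb.g g9 (@Lb.g g11 (@Lb.r r2411 (@Lb.r r1606 (@Lb.r r2436 (@Lb.d (nat_lit 101) (nat_lit 9) (nat_lit 546) (@Lb.t (@Lb.fm (nat_lit 9) t981)))))))))))
noncomputable def l14128 : Lb := (@Lb.d (nat_lit 8) (nat_lit 2) (nat_lit 0) (@Lb.g g9 (@Lb.d (nat_lit 528) (nat_lit 10) (nat_lit 16) (@Lb.t (@Lb.fp (nat_lit 3) t516)))))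
noncomputable def l14129 : Lb := (@Lb.d (nat_lit 2) (nat_lit 258) (nat_lit 130) (@Lb.g g8 (@Lb.g g9 (@Lb.g g10 (@Lb.g g11 (@Lb.r r427 (@Lb.r r2473 (@Lb.r r2472 (@Lb.r r2154 (@Lb.d (nat_lit 292) (nat_lit 137) (nat_lit 153) (@Lb.fp (nat_lit 9) t3038)))))))))))
noncomputable def l14130 : Lb := (@Lb.g g8 (@Lb.g g9 (@Lb.r r402 (@Lb.r r101 (@Lb.r r24 (@Lb.d (nat_lit 65) (nat_lit 512) (nat_lit 0) (@Lb.fp (nat_lit 3) t145)))))))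
noncomputable def l14131 : Lb := (@Lb.d (nat_lit 530) (nat_lit 410) (nat_lit 70) (@Lb.r r1379 (@Lb.r r2393 (@Lb.r r1112 (@Lb.r r170 (@Lb.g g7 (@Lb.g g6 (@Lb.g g5 (@Lb.d (nat_lit 0) (nat_lit 1) (nat_lit 5) (@Lb.t (@Lb.fp (nat_lit 9) t3039)))))))))))
noncomputable def l14132 : Lb := (@Lb.d (nat_lit 0) (nat_lit 550) (nat_lit 64) (@Lb.g g8 (@Lb.g g9 (@Lb.g g10 (@Lb.g g11 (@Lb.r r24 (@Lb.r r661 (@Lb.r r343 (@Lb.r r386 (@Lb.r r164 (@Lb.d (nat_lit 409) (nat_lit 2) (nat_lit 102) (@Lb.fp (nat_lit 9) t1707))))))))))))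
noncomputable def l14133 : Lb := (@Lb.g g9 (@Lb.r r402 (@Lb.r r101 (@Lb.r r24 (@Lb.d (nat_lit 65) (nat_lit 512) (nat_lit 0) (@Lb.t (@Lb.fm (nat_lit 3) t145)))))))
noncomputable def l14134 : Lb := (@Lb.d (nat_lit 2) (nat_lit 38) (nat_lit 64) (@Lb.g g8 (@Lb.g g9 (@Lb.g g10 (@Lb.g g11 (@Lb.r r41 (@Lb.r r360 (@Lb.r r327 (@Lb.r r386 (@Lb.r r132 (@Lb.d (nat_lit 146) (nat_lit 10) (nat_lit 69) (@Lb.fm (nat_lit 9) t50))))))))))))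
noncomputable def l14135 : Lb := (@Lb.r r323 (@Lb.d (nat_lit 2) (nat_lit 34) (nat_lit 2) (@Lb.g g8 (@Lb.g g9 (@Lb.g g10 (@Lb.r r599 (@Lb.r r392 (@Lb.r r74 (@Lb.d (nat_lit 22) (nat_lit 68) (nat_lit 153) (@Lb.t (@Lb.fm (nat_lit 9) t741)))))))))))
noncomputable def l14136 : Lb := (@Lb.r r323 (@Lb.d (nat_lit 2) (nat_lit 290) (nat_lit 2) (@Lb.g g8 (@Lb.g g9 (@Lb.g g10 (@Lb.r r599 (@Lb.r r392 (@Lb.r r74 (@Lb.d (nat_lit 22) (nat_lit 66) (nat_lit 152) (@Lb.t (@Lb.fm (nat_lit 9) t741)))))))))))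
noncomputable def l14137 : Lb := (@Lb.d (nat_lit 2) (nat_lit 642) (nat_lit 4) (@Lb.g g8 (@Lb.g g9 (@Lb.g g10 (@Lb.g g11 (@Lb.r r1451 (@Lb.r r420 (@Lb.r r102 (@Lb.r r132 (@Lb.d (nat_lit 553) (nat_lit 128) (nat_lit 169) (@Lb.fp (nat_lit 9) t1194)))))))))))
noncomputable def l14138 : Lb := (@Lb.r r323 (@Lb.d (nat_lit 10) (nat_lit 514) (nat_lit 2) (@Lb.g g4 (@Lb.g g9 (@Lb.g g10 (@Lb.r r354 (@Lb.r r387 (@Lb.d (nat_lit 0) (nat_lit 149) (nat_lit 321) (@Lb.t (@Lb.fp (nat_lit 9) t51))))))))))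
noncomputable def l14139 : Lb := (@Lb.d (nat_lit 1) (nat_lit 512) (nat_lit 0) (@Lb.g g4 (@Lb.t (@Lb.fm (nat_lit 3) t2))))
noncomputable def l14140 : Lb := (@Lb.r r323 (@Lb.d (nat_lit 0) (nat_lit 2) (nat_lit 18) (@Lb.g g8 (@Lb.g g9 (@Lb.g g10 (@Lb.r r1419 (@Lb.r r424 (@Lb.r r25 (@Lb.d (nat_lit 517) (nat_lit 5) (nat_lit 34) (@Lb.t (@Lb.fp (nat_lit 9) t2607)))))))))))
noncomputable def l14141 : Lb := (@Lb.r r82 (@Lb.d (nat_lit 641) (nat_lit 266) (nat_lit 72) (@Lb.g g4 (@Lb.g g9 (@Lb.g g11 (@Lb.r r1114 (@Lb.r r421 (@Lb.r r2451 (@Lb.d (nat_lit 388) (nat_lit 26) (nat_lit 128) (@Lb.t (@Lb.fm (nat_lit 9) t3040)))))))))))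
noncomputable def l14142 : Lb := (@Lb.d (nat_lit 144) (nat_lit 26) (nat_lit 73) (@Lb.g g8 (@Lb.g g9 (@Lb.g g10 (@Lb.g g11 (@Lb.r r427 (@Lb.r r1188 (@Lb.r r614 (@Lb.r r2145 (@Lb.d (nat_lit 104) (nat_lit 170) (nat_lit 321) (@Lb.fm (nat_lit 9) t3041)))))))))))
noncomputable def l14143 : Lb := (@Lb.r r21 (@Lb.r r326 (@Lb.d (nat_lit 160) (nat_lit 256) (nat_lit 8) (@Lb.g g8 (@Lb.g g11 (@Lb.r r2198 (@Lb.r r97 (@Lb.d (nat_lit 66) (nat_lit 129) (nat_lit 512) (@Lb.fm (nat_lit 3) t4)))))))))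
noncomputable def l14144 : Lb := (@Lb.d (nat_lit 128) (nat_lit 256) (nat_lit 72) (@Lb.g g11 (@Lb.r r1378 (@Lb.r r101 (@Lb.r r280 (@Lb.r r2567 (@Lb.d (nat_lit 644) (nat_lit 17) (nat_lit 325) (@Lb.t (@Lb.fm (nat_lit 3) t51)))))))))
noncomputable def l14145 : Lb := (@Lb.r r82 (@Lb.r r275 (@Lb.d (nat_lit 2) (nat_lit 256) (nat_lit 0) (@Lb.g g8 (@Lb.g g9 (@Lb.r r2201 (@Lb.r r402 (@Lb.r r1603 (@Lb.d (nat_lit 8) (nat_lit 2) (nat_lit 0) (@Lb.fm (nat_lit 3) t823))))))))))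
noncomputable def l14146 : Lb := (@Lb.r r1045 (@Lb.r r323 (@Lb.d (nat_lit 261) (nat_lit 264) (nat_lit 0) (@Lb.g g4 (@Lb.g g10 (@Lb.r r387 (@Lb.d (nat_lit 8) (nat_lit 65) (nat_lit 2) (@Lb.fp (nat_lit 3) t51))))))))
noncomputable def l14147 : Lb := (@Lb.d (nat_lit 0) (nat_lit 265) (nat_lit 130) (@Lb.g g8 (@Lb.g g9 (@Lb.g g10 (@Lb.g g11 (@Lb.r r548 (@Lb.r r295 (@Lb.r r346 (@Lb.r r405 (@Lb.r r2084 (@Lb.d (nat_lit 672) (nat_lit 41) (nat_lit 73) (@Lb.fp (nat_lit 9) t2953))))))))))))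
noncomputable def l14148 : Lb := (@Lb.d (nat_lit 0) (nat_lit 2) (nat_lit 130) (@Lb.g g8 (@Lb.g g9 (@Lb.g g10 (@Lb.g g11 (@Lb.r r610 (@Lb.r r404 (@Lb.r r619 (@Lb.r r97 (@Lb.r r516 (@Lb.d (nat_lit 9) (nat_lit 130) (nat_lit 68) (@Lb.fp (nat_lit 9) t71))))))))))))
noncomputable def l14149 : Lb := (@Lb.d (nat_lit 0) (nat_lit 521) (nat_lit 130) (@Lb.g g8 (@Lb.g g9 (@Lb.g g10 (@Lb.g g11 (@Lb.r r548 (@Lb.r r295 (@Lb.r r346 (@Lb.r r405 (@Lb.r r2084 (@Lb.d (nat_lit 682) (nat_lit 40) (nat_lit 73) (@Lb.fp (nat_lit 9) t800))))))))))))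
noncomputable def l14150 : Lb := (@Lb.r r21 (@Lb.r r323 (@Lb.d (nat_lit 130) (nat_lit 264) (nat_lit 8) (@Lb.g g8 (@Lb.g g10 (@Lb.r r615 (@Lb.r r533 (@Lb.r r292 (@Lb.d (nat_lit 681) (nat_lit 34) (nat_lit 674) (@Lb.fp (nat_lit 3) t221))))))))))
noncomputable def l14151 : Lb := (@Lb.d (nat_lit 33) (nat_lit 1) (nat_lit 136) (@Lb.g g8 (@Lb.g g9 (@Lb.g g11 (@Lb.r r401 (@Lb.r r402 (@Lb.r r615 (@Lb.r r388 (@Lb.d (nat_lit 105) (nat_lit 9) (nat_lit 144) (@Lb.t (@Lb.fm (nat_lit 9) t40)))))))))))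
noncomputable def l14152 : Lb := (@Lb.d (nat_lit 10) (nat_lit 2) (nat_lit 130) (@Lb.g g8 (@Lb.g g9 (@Lb.g g10 (@Lb.g g11 (@Lb.r r164 (@Lb.r r1126 (@Lb.r r1381 (@Lb.r r1691 (@Lb.r r1668 (@Lb.d (nat_lit 9) (nat_lit 2) (nat_lit 18) (@Lb.fp (nat_lit 9) t2))))))))))))
noncomputable def l14153 : Lb := (@Lb.d (nat_lit 129) (nat_lit 289) (nat_lit 0) (@Lb.g g8 (@Lb.g g9 (@Lb.r r519 (@Lb.r r344 (@Lb.r r134 (@Lb.d (nat_lit 0) (nat_lit 25) (nat_lit 18) (@Lb.fp (nat_lit 3) t40))))))))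
noncomputable def l14154 : Lb := (@Lb.r r323 (@Lb.d (nat_lit 1) (nat_lit 516) (nat_lit 8) (@Lb.g g8 (@Lb.g g9 (@Lb.g g10 (@Lb.r r599 (@Lb.r r297 (@Lb.r r2436 (@Lb.d (nat_lit 341) (nat_lit 136) (nat_lit 666) (@Lb.t (@Lb.fm (nat_lit 9) t803)))))))))))
noncomputable def l14155 : Lb := (@Lb.r r1319 (@Lb.r r1126 (@Lb.r r24 (@Lb.d (nat_lit 256) (nat_lit 9) (nat_lit 2) (@Lb.fm (nat_lit 1) t1406)))))
noncomputable def l14156 : Lb := (@Lb.d (nat_lit 4) (nat_lit 34) (nat_lit 0) (@Lb.g g8 (@Lb.g g9 (@Lb.r r1435 (@Lb.r r1354 (@Lb.r r1416 (@Lb.d (nat_lit 386) (nat_lit 2) (nat_lit 400) (@Lb.fp (nat_lit 3) t277))))))))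
noncomputable def l14157 : Lb := (@Lb.d (nat_lit 5) (nat_lit 8) (nat_lit 2) (@Lb.fp (nat_lit 1) t21))
noncomputable def l14158 : Lb := (@Lb.r r70 (@Lb.d (nat_lit 2) (nat_lit 74) (nat_lit 128) (@Lb.g g8 (@Lb.g g9 (@Lb.g g11 (@Lb.r r2411 (@Lb.r r1174 (@Lb.r r72 (@Lb.d (nat_lit 24) (nat_lit 1) (nat_lit 152) (@Lb.t (@Lb.fm (nat_lit 9) t2791)))))))))))
noncomputable def l14159 : Lb := (@Lb.d (nat_lit 38) (nat_lit 9) (nat_lit 129) (@Lb.g g8 (@Lb.g g9 (@Lb.g g10 (@Lb.g g11 (@Lb.r r2705 (@Lb.r r1683 (@Lb.r r132 (@Lb.r r2630 (@Lb.r r2180 (@Lb.d (nat_lit 393) (nat_lit 2) (nat_lit 682) (@Lb.fm (nat_lit 9) t148))))))))))))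
noncomputable def l14160 : Lb := (@Lb.g g5 (@Lb.d (nat_lit 292) (nat_lit 513) (nat_lit 34) (@Lb.t (@Lb.fm (nat_lit 3) t127))))
noncomputable def l14161 : Lb := (@Lb.g g5 (@Lb.r r1379 (@Lb.r r89 (@Lb.r r1126 (@Lb.r r24 (@Lb.d (nat_lit 256) (nat_lit 256) (nat_lit 32) (@Lb.t (@Lb.fp (nat_lit 3) t1775))))))))
noncomputable def l14162 : Lb := (@Lb.d (nat_lit 4) (nat_lit 10) (nat_lit 129) (@Lb.g g8 (@Lb.g g9 (@Lb.g g10 (@Lb.g g11 (@Lb.r r427 (@Lb.r r145 (@Lb.r r356 (@Lb.r r154 (@Lb.r r132 (@Lb.d (nat_lit 9) (nat_lit 9) (nat_lit 18) (@Lb.fm (nat_lit 9) t1499))))))))))))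
noncomputable def l14163 : Lb := (@Lb.d (nat_lit 338) (nat_lit 133) (nat_lit 290) (@Lb.r r20 (@Lb.r r2137 (@Lb.r r20 (@Lb.r r418 (@Lb.g g11 (@Lb.g g6 (@Lb.g g5 (@Lb.g g4 (@Lb.d (nat_lit 37) (nat_lit 2) (nat_lit 128) (@Lb.fp (nat_lit 9) t714)))))))))))
noncomputable def l14164 : Lb := (@Lb.r r70 (@Lb.r r263 (@Lb.d (nat_lit 32) (nat_lit 330) (nat_lit 0) (@Lb.g g8 (@Lb.g g9 (@Lb.r r2475 (@Lb.r r1606 (@Lb.r r408 (@Lb.d (nat_lit 149) (nat_lit 24) (nat_lit 16) (@Lb.fp (nat_lit 3) t3042))))))))))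
noncomputable def l14165 : Lb := (@Lb.r r323 (@Lb.d (nat_lit 1) (nat_lit 256) (nat_lit 1) (@Lb.g g8 (@Lb.g g6 (@Lb.r r387 (@Lb.r r2152 (@Lb.r r2073 (@Lb.d (nat_lit 0) (nat_lit 138) (nat_lit 18) (@Lb.fm (nat_lit 3) t40)))))))))
noncomputable def l14166 : Lb := (@Lb.r r323 (@Lb.d (nat_lit 2) (nat_lit 546) (nat_lit 2) (@Lb.g g8 (@Lb.g g9 (@Lb.g g10 (@Lb.r r599 (@Lb.r r1702 (@Lb.r r1444 (@Lb.r r149 (@Lb.d (nat_lit 294) (nat_lit 38) (nat_lit 385) (@Lb.t (@Lb.fm (nat_lit 9) t1351))))))))))))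
noncomputable def l14167 : Lb := (@Lb.r r82 (@Lb.d (nat_lit 0) (nat_lit 258) (nat_lit 128) (@Lb.g g8 (@Lb.g g9 (@Lb.g g11 (@Lb.r r2659 (@Lb.r r386 (@Lb.r r1109 (@Lb.r r1124 (@Lb.d (nat_lit 610) (nat_lit 136) (nat_lit 576) (@Lb.t (@Lb.fm (nat_lit 9) t3043))))))))))))
noncomputable def l14168 : Lb := (@Lb.d (nat_lit 146) (nat_lit 514) (nat_lit 64) (@Lb.g g8 (@Lb.g g9 (@Lb.g g10 (@Lb.g g11 (@Lb.r r427 (@Lb.r r426 (@Lb.r r409 (@Lb.r r388 (@Lb.d (nat_lit 100) (nat_lit 129) (nat_lit 136) (@Lb.fm (nat_lit 9) t1436)))))))))))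
noncomputable def l14169 : Lb := (@Lb.d (nat_lit 128) (nat_lit 256) (nat_lit 384) (@Lb.g g11 (@Lb.d (nat_lit 64) (nat_lit 0) (nat_lit 576) (@Lb.t (@Lb.fp (nat_lit 3) t959)))))
noncomputable def l14170 : Lb := (@Lb.d (nat_lit 146) (nat_lit 130) (nat_lit 133) (@Lb.g g8 (@Lb.g g9 (@Lb.g g10 (@Lb.g g11 (@Lb.r r1451 (@Lb.r r404 (@Lb.r r2134 (@Lb.d (nat_lit 5) (nat_lit 9) (nat_lit 425) (@Lb.fp (nat_lit 9) t3044))))))))))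
noncomputable def l14171 : Lb := (@Lb.d (nat_lit 2) (nat_lit 258) (nat_lit 0) (@Lb.g g8 (@Lb.g g9 (@Lb.r r322 (@Lb.r r1667 (@Lb.r r578 (@Lb.r r25 (@Lb.d (nat_lit 9) (nat_lit 146) (nat_lit 320) (@Lb.fp (nat_lit 3) t210)))))))))
noncomputable def l14172 : Lb := (@Lb.d (nat_lit 401) (nat_lit 0) (nat_lit 289) (@Lb.g g7 (@Lb.d (nat_lit 0) (nat_lit 0) (nat_lit 68) (@Lb.t (@Lb.fm (nat_lit 3) t469)))))
noncomputable def l14173 : Lb := (@Lb.r r21 (@Lb.r r70 (@Lb.d (nat_lit 129) (nat_lit 256) (nat_lit 256) (@Lb.g g8 (@Lb.g g7 (@Lb.r r1606 (@Lb.r r1557 (@Lb.r r2312 (@Lb.d (nat_lit 642) (nat_lit 0) (nat_lit 261) (@Lb.fm (nat_lit 3) t3045))))))))))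
noncomputable def l14174 : Lb := (@Lb.d (nat_lit 1) (nat_lit 321) (nat_lit 512) (@Lb.r r1313 (@Lb.r r2327 (@Lb.r r584 (@Lb.r r326 (@Lb.g g7 (@Lb.g g6 (@Lb.g g5 (@Lb.d (nat_lit 0) (nat_lit 1) (nat_lit 65) (@Lb.t (@Lb.fp (nat_lit 9) t125)))))))))))
noncomputable def l14175 : Lb := (@Lb.d (nat_lit 0) (nat_lit 265) (nat_lit 65) (@Lb.g g9 (@Lb.g g10 (@Lb.g g11 (@Lb.r r1443 (@Lb.r r386 (@Lb.r r97 (@Lb.r r36 (@Lb.d (nat_lit 5) (nat_lit 24) (nat_lit 393) (@Lb.t (@Lb.fm (nat_lit 9) t304)))))))))))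
noncomputable def l14176 : Lb := (@Lb.d (nat_lit 390) (nat_lit 145) (nat_lit 545) (@Lb.r r2325 (@Lb.r r2390 (@Lb.r r683 (@Lb.g g7 (@Lb.g g6 (@Lb.g g5 (@Lb.g g4 (@Lb.d (nat_lit 8) (nat_lit 17) (nat_lit 65) (@Lb.fm (nat_lit 9) t304))))))))))
noncomputable def l14177 : Lb := (@Lb.d (nat_lit 390) (nat_lit 401) (nat_lit 545) (@Lb.r r2325 (@Lb.r r2390 (@Lb.r r683 (@Lb.g g7 (@Lb.g g6 (@Lb.g g5 (@Lb.g g4 (@Lb.d (nat_lit 8) (nat_lit 24) (nat_lit 64) (@Lb.fm (nat_lit 9) t1285))))))))))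
noncomputable def l14178 : Lb := (@Lb.d (nat_lit 132) (nat_lit 528) (nat_lit 130) (@Lb.g g8 (@Lb.g g9 (@Lb.g g10 (@Lb.g g11 (@Lb.r r1443 (@Lb.r r386 (@Lb.r r104 (@Lb.r r2409 (@Lb.d (nat_lit 677) (nat_lit 24) (nat_lit 289) (@Lb.fm (nat_lit 9) t3046)))))))))))
noncomputable def l14179 : Lb := (@Lb.d (nat_lit 390) (nat_lit 401) (nat_lit 545) (@Lb.r r2325 (@Lb.r r2390 (@Lb.r r683 (@Lb.g g7 (@Lb.g g6 (@Lb.g g5 (@Lb.g g4 (@Lb.d (nat_lit 8) (nat_lit 17) (nat_lit 8) (@Lb.fm (nat_lit 9) t1986))))))))))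
noncomputable def l14180 : Lb := (@Lb.d (nat_lit 8) (nat_lit 8) (nat_lit 128) (@Lb.g g8 (@Lb.g g10 (@Lb.g g11 (@Lb.r r403 (@Lb.r r2085 (@Lb.r r1624 (@Lb.r r1350 (@Lb.d (nat_lit 337) (nat_lit 68) (nat_lit 69) (@Lb.t (@Lb.fm (nat_lit 9) t322)))))))))))
noncomputable def l14181 : Lb := (@Lb.d (nat_lit 0) (nat_lit 18) (nat_lit 133) (@Lb.r r579 (@Lb.r r338 (@Lb.g g7 (@Lb.g g6 (@Lb.g g5 (@Lb.g g8 (@Lb.d (nat_lit 5) (nat_lit 1) (nat_lit 133) (@Lb.fp (nat_lit 9) t285)))))))))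
noncomputable def l14182 : Lb := (@Lb.d (nat_lit 32) (nat_lit 512) (nat_lit 73) (@Lb.g g10 (@Lb.g g11 (@Lb.r r289 (@Lb.r r1380 (@Lb.r r2715 (@Lb.r r2634 (@Lb.d (nat_lit 340) (nat_lit 74) (nat_lit 392) (@Lb.fm (nat_lit 3) t427)))))))))
noncomputable def l14183 : Lb := (@Lb.d (nat_lit 2) (nat_lit 517) (nat_lit 128) (@Lb.g g8 (@Lb.g g9 (@Lb.g g10 (@Lb.g g11 (@Lb.r r1686 (@Lb.r r360 (@Lb.r r343 (@Lb.r r553 (@Lb.r r1060 (@Lb.d (nat_lit 648) (nat_lit 9) (nat_lit 89) (@Lb.fm (nat_lit 9) t19))))))))))))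
noncomputable def l14184 : Lb := (@Lb.d (nat_lit 4) (nat_lit 36) (nat_lit 128) (@Lb.g g8 (@Lb.g g9 (@Lb.g g10 (@Lb.g g11 (@Lb.r r683 (@Lb.r r1642 (@Lb.r r1561 (@Lb.d (nat_lit 585) (nat_lit 105) (nat_lit 273) (@Lb.fm (nat_lit 9) t2714))))))))))
noncomputable def l14185 : Lb := (@Lb.d (nat_lit 9) (nat_lit 294) (nat_lit 133) (@Lb.g g8 (@Lb.g g9 (@Lb.g g10 (@Lb.g g11 (@Lb.r r682 (@Lb.r r676 (@Lb.r r551 (@Lb.r r2601 (@Lb.r r2068 (@Lb.d (nat_lit 582) (nat_lit 162) (nat_lit 74) (@Lb.fm (nat_lit 9) t125))))))))))))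
noncomputable def l14186 : Lb := (@Lb.d (nat_lit 9) (nat_lit 2) (nat_lit 73) (@Lb.g g8 (@Lb.g g9 (@Lb.g g10 (@Lb.g g11 (@Lb.r r2691 (@Lb.r r2345 (@Lb.r r360 (@Lb.r r582 (@Lb.r r2180 (@Lb.d (nat_lit 641) (nat_lit 10) (nat_lit 153) (@Lb.fm (nat_lit 9) t242))))))))))))
noncomputable def l14187 : Lb := (@Lb.r r82 (@Lb.d (nat_lit 4) (nat_lit 546) (nat_lit 64) (@Lb.g g8 (@Lb.g g9 (@Lb.g g11 (@Lb.r r1563 (@Lb.r r1129 (@Lb.r r2646 (@Lb.r r1416 (@Lb.d (nat_lit 545) (nat_lit 5) (nat_lit 68) (@Lb.t (@Lb.fp (nat_lit 9) t3047))))))))))))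
noncomputable def l14188 : Lb := (@Lb.d (nat_lit 2) (nat_lit 265) (nat_lit 129) (@Lb.g g8 (@Lb.g g9 (@Lb.g g10 (@Lb.g g11 (@Lb.r r1371 (@Lb.r r386 (@Lb.r r97 (@Lb.r r24 (@Lb.d (nat_lit 265) (nat_lit 8) (nat_lit 137) (@Lb.fm (nat_lit 9) t3048)))))))))))
noncomputable def l14189 : Lb := (@Lb.d (nat_lit 137) (nat_lit 40) (nat_lit 1) (@Lb.g g8 (@Lb.g g9 (@Lb.g g10 (@Lb.r r343 (@Lb.r r1634 (@Lb.r r344 (@Lb.r r1637 (@Lb.d (nat_lit 405) (nat_lit 146) (nat_lit 280) (@Lb.t (@Lb.fm (nat_lit 9) t2081)))))))))))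
noncomputable def l14190 : Lb := (@Lb.r r82 (@Lb.d (nat_lit 34) (nat_lit 545) (nat_lit 64) (@Lb.g g8 (@Lb.g g9 (@Lb.g g11 (@Lb.r r1571 (@Lb.r r582 (@Lb.r r1445 (@Lb.r r408 (@Lb.d (nat_lit 346) (nat_lit 16) (nat_lit 356) (@Lb.t (@Lb.fp (nat_lit 9) t3049))))))))))))
noncomputable def l14191 : Lb := (@Lb.d (nat_lit 32) (nat_lit 289) (nat_lit 2) (@Lb.g g9 (@Lb.g g10 (@Lb.r r1348 (@Lb.r r2699 (@Lb.r r2666 (@Lb.r r2145 (@Lb.d (nat_lit 106) (nat_lit 168) (nat_lit 21) (@Lb.fm (nat_lit 3) t127)))))))))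
noncomputable def l14192 : Lb := (@Lb.r r21 (@Lb.d (nat_lit 2) (nat_lit 512) (nat_lit 2) (@Lb.g g8 (@Lb.g g10 (@Lb.r r1684 (@Lb.r r2583 (@Lb.r r386 (@Lb.r r25 (@Lb.d (nat_lit 290) (nat_lit 100) (nat_lit 361) (@Lb.fm (nat_lit 3) t1214))))))))))
noncomputable def l14193 : Lb := (@Lb.r r21 (@Lb.d (nat_lit 18) (nat_lit 512) (nat_lit 0) (@Lb.g g8 (@Lb.g g10 (@Lb.r r1684 (@Lb.r r1687 (@Lb.r r1602 (@Lb.r r25 (@Lb.d (nat_lit 10) (nat_lit 153) (nat_lit 409) (@Lb.fp (nat_lit 3) t898))))))))))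
noncomputable def l14194 : Lb := (@Lb.d (nat_lit 2) (nat_lit 2) (nat_lit 73) (@Lb.g g8 (@Lb.g g9 (@Lb.g g10 (@Lb.g g11 (@Lb.r r2691 (@Lb.r r297 (@Lb.r r648 (@Lb.r r666 (@Lb.r r1156 (@Lb.d (nat_lit 641) (nat_lit 42) (nat_lit 73) (@Lb.fp (nat_lit 9) t668))))))))))))
noncomputable def l14195 : Lb := (@Lb.r r21 (@Lb.d (nat_lit 16) (nat_lit 0) (nat_lit 74) (@Lb.g g8 (@Lb.g g10 (@Lb.g g11 (@Lb.r r603 (@Lb.r r2401 (@Lb.r r1170 (@Lb.r r1128 (@Lb.d (nat_lit 256) (nat_lit 68) (nat_lit 33) (@Lb.t (@Lb.fm (nat_lit 9) t597))))))))))))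
noncomputable def l14196 : Lb := (@Lb.d (nat_lit 18) (nat_lit 2) (nat_lit 0) (@Lb.g g8 (@Lb.g g9 (@Lb.g g10 (@Lb.r r1689 (@Lb.r r1683 (@Lb.r r1602 (@Lb.r r292 (@Lb.d (nat_lit 74) (nat_lit 137) (nat_lit 409) (@Lb.t (@Lb.fp (nat_lit 9) t898)))))))))))
noncomputable def l14197 : Lb := (@Lb.r r20 (@Lb.d (nat_lit 32) (nat_lit 549) (nat_lit 8) (@Lb.g g5 (@Lb.g g10 (@Lb.r r2411 (@Lb.r r2404 (@Lb.r r1370 (@Lb.d (nat_lit 98) (nat_lit 165) (nat_lit 406) (@Lb.fp (nat_lit 3) t144)))))))))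
noncomputable def l14198 : Lb := (@Lb.d (nat_lit 2) (nat_lit 521) (nat_lit 65) (@Lb.g g8 (@Lb.g g9 (@Lb.g g10 (@Lb.g g11 (@Lb.r r1299 (@Lb.r r2705 (@Lb.r r356 (@Lb.r r154 (@Lb.r r132 (@Lb.d (nat_lit 138) (nat_lit 1) (nat_lit 330) (@Lb.fm (nat_lit 9) t1608))))))))))))
noncomputable def l14199 : Lb := (@Lb.d (nat_lit 5) (nat_lit 646) (nat_lit 518) (@Lb.r r673 (@Lb.r r362 (@Lb.r r84 (@Lb.g g11 (@Lb.g g6 (@Lb.g g9 (@Lb.d (nat_lit 4) (nat_lit 1) (nat_lit 0) (@Lb.t (@Lb.fm (nat_lit 9) t1976))))))))))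
noncomputable def l14200 : Lb := (@Lb.d (nat_lit 2) (nat_lit 2) (nat_lit 66) (@Lb.g g8 (@Lb.g g9 (@Lb.g g10 (@Lb.g g11 (@Lb.r r148 (@Lb.r r102 (@Lb.r r357 (@Lb.r r667 (@Lb.r r644 (@Lb.d (nat_lit 538) (nat_lit 9) (nat_lit 90) (@Lb.fp (nat_lit 9) t516))))))))))))
noncomputable def l14201 : Lb := (@Lb.r r21 (@Lb.d (nat_lit 128) (nat_lit 256) (nat_lit 132) (@Lb.g g8 (@Lb.g g10 (@Lb.g g11 (@Lb.r r1415 (@Lb.r r169 (@Lb.r r1698 (@Lb.r r2404 (@Lb.d (nat_lit 546) (nat_lit 88) (nat_lit 344) (@Lb.t (@Lb.fm (nat_lit 9) t3050))))))))))))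
noncomputable def l14202 : Lb := (@Lb.r r21 (@Lb.r r70 (@Lb.d (nat_lit 128) (nat_lit 0) (nat_lit 64) (@Lb.g g8 (@Lb.g g11 (@Lb.r r263 (@Lb.r r330 (@Lb.r r281 (@Lb.r r260 (@Lb.d (nat_lit 130) (nat_lit 0) (nat_lit 0) (@Lb.fm (nat_lit 3) t68)))))))))))
noncomputable def l14203 : Lb := (@Lb.d (nat_lit 2) (nat_lit 296) (nat_lit 65) (@Lb.g g8 (@Lb.g g9 (@Lb.g g10 (@Lb.g g11 (@Lb.r r2218 (@Lb.r r580 (@Lb.r r1431 (@Lb.r r1685 (@Lb.r r1044 (@Lb.d (nat_lit 388) (nat_lit 85) (nat_lit 344) (@Lb.fm (nat_lit 9) t378))))))))))))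
noncomputable def l14204 : Lb := (@Lb.d (nat_lit 0) (nat_lit 133) (nat_lit 518) (@Lb.r r673 (@Lb.r r362 (@Lb.r r84 (@Lb.g g11 (@Lb.g g9 (@Lb.d (nat_lit 4) (nat_lit 1) (nat_lit 0) (@Lb.fp (nat_lit 3) t1976))))))))
noncomputable def l14205 : Lb := (@Lb.d (nat_lit 138) (nat_lit 134) (nat_lit 614) (@Lb.r r532 (@Lb.r r2370 (@Lb.r r1683 (@Lb.r r2389 (@Lb.g g6 (@Lb.g g5 (@Lb.g g4 (@Lb.d (nat_lit 33) (nat_lit 1) (nat_lit 0) (@Lb.t (@Lb.fm (nat_lit 9) t378)))))))))))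
noncomputable def l14206 : Lb := (@Lb.d (nat_lit 512) (nat_lit 256) (nat_lit 384) (@Lb.r r24 (@Lb.r r101 (@Lb.r r402 (@Lb.g g11 (@Lb.g g6 (@Lb.fm (nat_lit 3) t393)))))))
noncomputable def l14207 : Lb := (@Lb.r r21 (@Lb.d (nat_lit 10) (nat_lit 256) (nat_lit 66) (@Lb.g g8 (@Lb.g g10 (@Lb.g g11 (@Lb.r r2343 (@Lb.r r2405 (@Lb.r r1178 (@Lb.r r1156 (@Lb.d (nat_lit 593) (nat_lit 2) (nat_lit 337) (@Lb.t (@Lb.fm (nat_lit 9) t284))))))))))))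
noncomputable def l14208 : Lb := (@Lb.r r21 (@Lb.d (nat_lit 10) (nat_lit 264) (nat_lit 130) (@Lb.g g8 (@Lb.g g10 (@Lb.g g11 (@Lb.r r353 (@Lb.r r1431 (@Lb.r r2632 (@Lb.r r390 (@Lb.d (nat_lit 98) (nat_lit 0) (nat_lit 552) (@Lb.t (@Lb.fp (nat_lit 9) t2))))))))))))
noncomputable def l14209 : Lb := (@Lb.r r323 (@Lb.d (nat_lit 2) (nat_lit 265) (nat_lit 1) (@Lb.g g8 (@Lb.g g9 (@Lb.g g10 (@Lb.r r1433 (@Lb.r r2339 (@Lb.r r2434 (@Lb.d (nat_lit 545) (nat_lit 98) (nat_lit 361) (@Lb.t (@Lb.fp (nat_lit 9) t1038)))))))))))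
noncomputable def l14210 : Lb := (@Lb.r r21 (@Lb.d (nat_lit 10) (nat_lit 512) (nat_lit 66) (@Lb.g g8 (@Lb.g g10 (@Lb.g g11 (@Lb.r r2343 (@Lb.r r2405 (@Lb.r r1178 (@Lb.r r1156 (@Lb.d (nat_lit 600) (nat_lit 1) (nat_lit 337) (@Lb.t (@Lb.fm (nat_lit 9) t284))))))))))))
noncomputable def l14211 : Lb := (@Lb.d (nat_lit 128) (nat_lit 512) (nat_lit 64) (@Lb.g g11 (@Lb.r r549 (@Lb.r r344 (@Lb.r r679 (@Lb.r r134 (@Lb.d (nat_lit 0) (nat_lit 21) (nat_lit 153) (@Lb.t (@Lb.fp (nat_lit 3) t40)))))))))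
noncomputable def l14212 : Lb := (@Lb.r r21 (@Lb.d (nat_lit 10) (nat_lit 512) (nat_lit 66) (@Lb.g g8 (@Lb.g g10 (@Lb.g g11 (@Lb.r r2343 (@Lb.r r2405 (@Lb.r r1178 (@Lb.r r1156 (@Lb.d (nat_lit 592) (nat_lit 2) (nat_lit 337) (@Lb.t (@Lb.fm (nat_lit 9) t284))))))))))))
noncomputable def l14213 : Lb := (@Lb.d (nat_lit 1) (nat_lit 2) (nat_lit 66) (@Lb.g g8 (@Lb.g g9 (@Lb.g g10 (@Lb.g g11 (@Lb.r r2327 (@Lb.r r616 (@Lb.r r86 (@Lb.r r2213 (@Lb.r r2068 (@Lb.d (nat_lit 545) (nat_lit 2) (nat_lit 169) (@Lb.fp (nat_lit 9) t284))))))))))))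
noncomputable def l14214 : Lb := (@Lb.d (nat_lit 2) (nat_lit 258) (nat_lit 66) (@Lb.g g8 (@Lb.g g9 (@Lb.g g10 (@Lb.g g11 (@Lb.r r2327 (@Lb.r r616 (@Lb.r r86 (@Lb.r r2213 (@Lb.r r2068 (@Lb.d (nat_lit 545) (nat_lit 2) (nat_lit 34) (@Lb.fp (nat_lit 9) t284))))))))))))
noncomputable def l14215 : Lb := (@Lb.d (nat_lit 41) (nat_lit 392) (nat_lit 102) (@Lb.r r70 (@Lb.r r392 (@Lb.r r599 (@Lb.g g6 (@Lb.g g5 (@Lb.g g4 (@Lb.d (nat_lit 1) (nat_lit 17) (nat_lit 1) (@Lb.r r387 (@Lb.t (@Lb.fp (nat_lit 9) t242)))))))))))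
noncomputable def l14216 : Lb := (@Lb.d (nat_lit 516) (nat_lit 642) (nat_lit 384) (@Lb.r r20 (@Lb.r r2145 (@Lb.r r402 (@Lb.r r1291 (@Lb.g g11 (@Lb.t (@Lb.fp (nat_lit 3) t580))))))))
noncomputable def l14217 : Lb := (@Lb.d (nat_lit 9) (nat_lit 512) (nat_lit 64) (@Lb.g g8 (@Lb.g g11 (@Lb.r r545 (@Lb.r r299 (@Lb.r r328 (@Lb.r r134 (@Lb.d (nat_lit 0) (nat_lit 5) (nat_lit 145) (@Lb.fp (nat_lit 3) t40)))))))))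
noncomputable def l14218 : Lb := (@Lb.d (nat_lit 9) (nat_lit 512) (nat_lit 64) (@Lb.g g8 (@Lb.g g11 (@Lb.r r353 (@Lb.r r663 (@Lb.r r328 (@Lb.r r134 (@Lb.d (nat_lit 517) (nat_lit 1) (nat_lit 160) (@Lb.fm (nat_lit 3) t40)))))))))
noncomputable def l14219 : Lb := (@Lb.d (nat_lit 2) (nat_lit 297) (nat_lit 1) (@Lb.g g8 (@Lb.g g9 (@Lb.g g10 (@Lb.r r1194 (@Lb.r r2468 (@Lb.r r1307 (@Lb.r r1573 (@Lb.d (nat_lit 389) (nat_lit 16) (nat_lit 650) (@Lb.t (@Lb.fm (nat_lit 9) t3051)))))))))))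
noncomputable def l14220 : Lb := (@Lb.d (nat_lit 8) (nat_lit 514) (nat_lit 0) (@Lb.g g9 (@Lb.g g7 (@Lb.r r426 (@Lb.r r20 (@Lb.r r105 (@Lb.d (nat_lit 102) (nat_lit 138) (nat_lit 322) (@Lb.fp (nat_lit 3) t1628))))))))
noncomputable def l14221 : Lb := (@Lb.d (nat_lit 32) (nat_lit 0) (nat_lit 2) (@Lb.g g10 (@Lb.g g7 (@Lb.r r596 (@Lb.r r74 (@Lb.r r289 (@Lb.d (nat_lit 96) (nat_lit 162) (nat_lit 322) (@Lb.fm (nat_lit 3) t668))))))))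
noncomputable def l14222 : Lb := (@Lb.d (nat_lit 2) (nat_lit 258) (nat_lit 130) (@Lb.g g8 (@Lb.g g9 (@Lb.g g10 (@Lb.g g11 (@Lb.r r2691 (@Lb.r r297 (@Lb.r r360 (@Lb.r r582 (@Lb.r r2180 (@Lb.d (nat_lit 644) (nat_lit 8) (nat_lit 329) (@Lb.fm (nat_lit 9) t1425))))))))))))
noncomputable def l14223 : Lb := (@Lb.r r275 (@Lb.d (nat_lit 2) (nat_lit 258) (nat_lit 2) (@Lb.g g8 (@Lb.g g9 (@Lb.g g10 (@Lb.r r1707 (@Lb.r r386 (@Lb.r r609 (@Lb.r r24 (@Lb.d (nat_lit 264) (nat_lit 25) (nat_lit 261) (@Lb.t (@Lb.fm (nat_lit 9) t1937))))))))))))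
noncomputable def l14224 : Lb := (@Lb.r r323 (@Lb.d (nat_lit 2) (nat_lit 258) (nat_lit 0) (@Lb.g g8 (@Lb.g g9 (@Lb.g g10 (@Lb.r r427 (@Lb.r r106 (@Lb.r r25 (@Lb.d (nat_lit 10) (nat_lit 9) (nat_lit 2) (@Lb.t (@Lb.fm (nat_lit 9) t51)))))))))))
noncomputable def l14225 : Lb := (@Lb.d (nat_lit 4) (nat_lit 328) (nat_lit 362) (@Lb.r r1361 (@Lb.r r2471 (@Lb.r r612 (@Lb.r r154 (@Lb.g g7 (@Lb.g g5 (@Lb.d (nat_lit 8) (nat_lit 2) (nat_lit 64) (@Lb.fp (nat_lit 3) t1096)))))))))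
noncomputable def l14226 : Lb := (@Lb.d (nat_lit 100) (nat_lit 38) (nat_lit 101) (@Lb.r r408 (@Lb.r r330 (@Lb.r r343 (@Lb.g g5 (@Lb.g g4 (@Lb.d (nat_lit 18) (nat_lit 4) (nat_lit 0) (@Lb.r r291 (@Lb.r r98 (@Lb.fp (nat_lit 3) t50))))))))))
noncomputable def l14227 : Lb := (@Lb.d (nat_lit 138) (nat_lit 256) (nat_lit 0) (@Lb.g g8 (@Lb.r r1621 (@Lb.r r2391 (@Lb.r r2178 (@Lb.r r2664 (@Lb.d (nat_lit 85) (nat_lit 85) (nat_lit 424) (@Lb.t (@Lb.fp (nat_lit 3) t124)))))))))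
noncomputable def l14228 : Lb := (@Lb.d (nat_lit 102) (nat_lit 292) (nat_lit 64) (@Lb.g g8 (@Lb.g g9 (@Lb.g g10 (@Lb.g g11 (@Lb.r r1443 (@Lb.r r98 (@Lb.r r420 (@Lb.r r1317 (@Lb.d (nat_lit 676) (nat_lit 104) (nat_lit 582) (@Lb.fm (nat_lit 9) t163)))))))))))
noncomputable def l14229 : Lb := (@Lb.d (nat_lit 2) (nat_lit 514) (nat_lit 64) (@Lb.g g8 (@Lb.g g9 (@Lb.g g11 (@Lb.r r356 (@Lb.r r1307 (@Lb.r r2178 (@Lb.r r533 (@Lb.r r2084 (@Lb.d (nat_lit 146) (nat_lit 66) (nat_lit 328) (@Lb.t (@Lb.fp (nat_lit 9) t229))))))))))))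
noncomputable def l14230 : Lb := (@Lb.r r21 (@Lb.r r70 (@Lb.d (nat_lit 294) (nat_lit 512) (nat_lit 0) (@Lb.g g8 (@Lb.r r1291 (@Lb.r r402 (@Lb.r r97 (@Lb.d (nat_lit 521) (nat_lit 145) (nat_lit 16) (@Lb.t (@Lb.fp (nat_lit 3) t644))))))))))
noncomputable def l14231 : Lb := (@Lb.r r331 (@Lb.d (nat_lit 166) (nat_lit 514) (nat_lit 2) (@Lb.g g8 (@Lb.g g9 (@Lb.g g10 (@Lb.r r2457 (@Lb.r r2343 (@Lb.r r1604 (@Lb.r r1098 (@Lb.d (nat_lit 593) (nat_lit 138) (nat_lit 424) (@Lb.t (@Lb.fm (nat_lit 9) t1039))))))))))))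
noncomputable def l14232 : Lb := (@Lb.r r21 (@Lb.d (nat_lit 1) (nat_lit 256) (nat_lit 2) (@Lb.g g8 (@Lb.g g10 (@Lb.g g7 (@Lb.r r386 (@Lb.r r1429 (@Lb.r r2632 (@Lb.d (nat_lit 657) (nat_lit 0) (nat_lit 420) (@Lb.t (@Lb.fp (nat_lit 9) t2877)))))))))))
noncomputable def l14233 : Lb := (@Lb.d (nat_lit 133) (nat_lit 2) (nat_lit 130) (@Lb.g g8 (@Lb.g g9 (@Lb.g g10 (@Lb.g g11 (@Lb.r r1443 (@Lb.r r106 (@Lb.r r100 (@Lb.r r405 (@Lb.r r36 (@Lb.d (nat_lit 104) (nat_lit 21) (nat_lit 150) (@Lb.fp (nat_lit 9) t163))))))))))))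
noncomputable def l14234 : Lb := (@Lb.d (nat_lit 130) (nat_lit 512) (nat_lit 292) (@Lb.r r24 (@Lb.r r85 (@Lb.r r1315 (@Lb.g g10 (@Lb.g g9 (@Lb.d (nat_lit 0) (nat_lit 1) (nat_lit 8) (@Lb.r r387 (@Lb.fp (nat_lit 3) t475)))))))))
noncomputable def l14235 : Lb := (@Lb.d (nat_lit 130) (nat_lit 546) (nat_lit 2) (@Lb.g g8 (@Lb.g g9 (@Lb.g g10 (@Lb.r r343 (@Lb.r r162 (@Lb.r r2712 (@Lb.r r165 (@Lb.d (nat_lit 32) (nat_lit 145) (nat_lit 425) (@Lb.t (@Lb.fp (nat_lit 9) t284)))))))))))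
noncomputable def l14236 : Lb := (@Lb.d (nat_lit 128) (nat_lit 0) (nat_lit 128) (@Lb.g g10 (@Lb.g g11 (@Lb.r r264 (@Lb.r r519 (@Lb.r r101 (@Lb.r r2194 (@Lb.d (nat_lit 657) (nat_lit 0) (nat_lit 144) (@Lb.fm (nat_lit 3) t3052)))))))))
noncomputable def l14237 : Lb := (@Lb.r r323 (@Lb.d (nat_lit 2) (nat_lit 4) (nat_lit 0) (@Lb.g g8 (@Lb.g g9 (@Lb.g g10 (@Lb.r r362 (@Lb.r r387 (@Lb.r r1433 (@Lb.d (nat_lit 665) (nat_lit 73) (nat_lit 362) (@Lb.t (@Lb.fm (nat_lit 9) t5)))))))))))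
noncomputable def l14238 : Lb := (@Lb.d (nat_lit 128) (nat_lit 512) (nat_lit 128) (@Lb.g g10 (@Lb.g g11 (@Lb.r r264 (@Lb.r r519 (@Lb.r r101 (@Lb.r r2194 (@Lb.d (nat_lit 256) (nat_lit 0) (nat_lit 672) (@Lb.fm (nat_lit 3) t939)))))))))
noncomputable def l14239 : Lb := (@Lb.d (nat_lit 649) (nat_lit 586) (nat_lit 150) (@Lb.r r21 (@Lb.r r1320 (@Lb.r r2634 (@Lb.r r2691 (@Lb.g g7 (@Lb.g g6 (@Lb.g g5 (@Lb.d (nat_lit 0) (nat_lit 1) (nat_lit 65) (@Lb.t (@Lb.fp (nat_lit 9) t3053)))))))))))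
noncomputable def l14240 : Lb := (@Lb.d (nat_lit 144) (nat_lit 81) (nat_lit 641) (@Lb.r r289 (@Lb.r r70 (@Lb.r r420 (@Lb.g g11 (@Lb.g g6 (@Lb.d (nat_lit 16) (nat_lit 0) (nat_lit 1) (@Lb.fm (nat_lit 3) t501))))))))
noncomputable def l14241 : Lb := (@Lb.d (nat_lit 6) (nat_lit 594) (nat_lit 389) (@Lb.r r2321 (@Lb.r r1575 (@Lb.r r2388 (@Lb.r r1706 (@Lb.g g6 (@Lb.g g5 (@Lb.g g4 (@Lb.d (nat_lit 1) (nat_lit 1) (nat_lit 1) (@Lb.t (@Lb.fp (nat_lit 9) t71)))))))))))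
noncomputable def l14242 : Lb := (@Lb.r r1045 (@Lb.r r36 (@Lb.d (nat_lit 512) (nat_lit 578) (nat_lit 0) (@Lb.fp (nat_lit 1) t2))))
noncomputable def l14243 : Lb := (@Lb.d (nat_lit 2) (nat_lit 256) (nat_lit 0) (@Lb.g g8 (@Lb.g g9 (@Lb.r r36 (@Lb.d (nat_lit 1) (nat_lit 2) (nat_lit 0) (@Lb.fm (nat_lit 3) t2))))))
noncomputable def l14244 : Lb := (@Lb.d (nat_lit 0) (nat_lit 128) (nat_lit 0) (@Lb.r r24 (@Lb.g g9 (@Lb.g g4 (@Lb.fm (nat_lit 3) t2)))))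
noncomputable def l14245 : Lb := (@Lb.r r273 (@Lb.r r322 (@Lb.d (nat_lit 129) (nat_lit 256) (nat_lit 128) (@Lb.g g8 (@Lb.g g11 (@Lb.r r1668 (@Lb.r r1174 (@Lb.r r2145 (@Lb.d (nat_lit 2) (nat_lit 82) (nat_lit 325) (@Lb.fm (nat_lit 3) t321))))))))))
noncomputable def l14246 : Lb := (@Lb.d (nat_lit 9) (nat_lit 2) (nat_lit 128) (@Lb.g g8 (@Lb.g g9 (@Lb.g g11 (@Lb.r r548 (@Lb.r r2727 (@Lb.r r2178 (@Lb.r r533 (@Lb.r r1060 (@Lb.d (nat_lit 658) (nat_lit 136) (nat_lit 532) (@Lb.t (@Lb.fm (nat_lit 9) t229))))))))))))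
noncomputable def l14247 : Lb := (@Lb.r r275 (@Lb.d (nat_lit 9) (nat_lit 546) (nat_lit 2) (@Lb.g g8 (@Lb.g g9 (@Lb.g g10 (@Lb.r r362 (@Lb.r r360 (@Lb.r r535 (@Lb.r r1433 (@Lb.d (nat_lit 426) (nat_lit 90) (nat_lit 358) (@Lb.t (@Lb.fm (nat_lit 9) t238))))))))))))
noncomputable def l14248 : Lb := (@Lb.r r21 (@Lb.d (nat_lit 2) (nat_lit 264) (nat_lit 130) (@Lb.g g8 (@Lb.g g10 (@Lb.g g11 (@Lb.r r2443 (@Lb.r r2345 (@Lb.r r2468 (@Lb.r r390 (@Lb.d (nat_lit 105) (nat_lit 33) (nat_lit 674) (@Lb.t (@Lb.fm (nat_lit 9) t295))))))))))))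
noncomputable def l14249 : Lb := (@Lb.d (nat_lit 2) (nat_lit 38) (nat_lit 64) (@Lb.g g8 (@Lb.g g9 (@Lb.g g10 (@Lb.g g11 (@Lb.r r1699 (@Lb.r r1192 (@Lb.r r1642 (@Lb.r r1633 (@Lb.d (nat_lit 600) (nat_lit 153) (nat_lit 422) (@Lb.fm (nat_lit 9) t3054)))))))))))
noncomputable def l14250 : Lb := (@Lb.d (nat_lit 2) (nat_lit 516) (nat_lit 74) (@Lb.g g8 (@Lb.g g9 (@Lb.g g10 (@Lb.g g11 (@Lb.r r619 (@Lb.r r1610 (@Lb.r r660 (@Lb.r r425 (@Lb.r r2084 (@Lb.d (nat_lit 277) (nat_lit 170) (nat_lit 674) (@Lb.fp (nat_lit 9) t510))))))))))))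
noncomputable def l14251 : Lb := (@Lb.d (nat_lit 1) (nat_lit 514) (nat_lit 10) (@Lb.g g8 (@Lb.g g9 (@Lb.g g10 (@Lb.g g11 (@Lb.r r593 (@Lb.r r663 (@Lb.r r392 (@Lb.r r74 (@Lb.d (nat_lit 38) (nat_lit 1) (nat_lit 153) (@Lb.fp (nat_lit 9) t221)))))))))))
noncomputable def l14252 : Lb := (@Lb.d (nat_lit 146) (nat_lit 258) (nat_lit 64) (@Lb.g g8 (@Lb.g g9 (@Lb.g g10 (@Lb.g g11 (@Lb.r r427 (@Lb.r r1602 (@Lb.r r409 (@Lb.r r388 (@Lb.d (nat_lit 104) (nat_lit 33) (nat_lit 74) (@Lb.fp (nat_lit 9) t1792)))))))))))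
noncomputable def l14253 : Lb := (@Lb.d (nat_lit 146) (nat_lit 514) (nat_lit 64) (@Lb.g g8 (@Lb.g g9 (@Lb.g g10 (@Lb.g g11 (@Lb.r r427 (@Lb.r r1602 (@Lb.r r409 (@Lb.r r388 (@Lb.d (nat_lit 104) (nat_lit 40) (nat_lit 73) (@Lb.fp (nat_lit 9) t1792)))))))))))
noncomputable def l14254 : Lb := (@Lb.d (nat_lit 32) (nat_lit 264) (nat_lit 64) (@Lb.g g10 (@Lb.g g11 (@Lb.r r360 (@Lb.r r1641 (@Lb.r r2411 (@Lb.r r598 (@Lb.d (nat_lit 678) (nat_lit 38) (nat_lit 2) (@Lb.fm (nat_lit 3) t100)))))))))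
noncomputable def l14255 : Lb := (@Lb.d (nat_lit 9) (nat_lit 0) (nat_lit 64) (@Lb.g g8 (@Lb.g g10 (@Lb.g g11 (@Lb.r r2581 (@Lb.r r279 (@Lb.r r676 (@Lb.r r1158 (@Lb.d (nat_lit 4) (nat_lit 86) (nat_lit 272) (@Lb.t (@Lb.fp (nat_lit 9) t1951)))))))))))
noncomputable def l14256 : Lb := (@Lb.d (nat_lit 2) (nat_lit 4) (nat_lit 74) (@Lb.g g8 (@Lb.g g9 (@Lb.g g10 (@Lb.g g11 (@Lb.r r619 (@Lb.r r1610 (@Lb.r r660 (@Lb.r r425 (@Lb.r r2084 (@Lb.d (nat_lit 277) (nat_lit 170) (nat_lit 617) (@Lb.fp (nat_lit 9) t261))))))))))))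
noncomputable def l14257 : Lb := (@Lb.d (nat_lit 37) (nat_lit 288) (nat_lit 532) (@Lb.r r85 (@Lb.r r2600 (@Lb.r r1414 (@Lb.r r2347 (@Lb.g g5 (@Lb.d (nat_lit 0) (nat_lit 17) (nat_lit 0) (@Lb.t (@Lb.fm (nat_lit 3) t427)))))))))
noncomputable def l14258 : Lb := (@Lb.d (nat_lit 4) (nat_lit 0) (nat_lit 64) (@Lb.g g8 (@Lb.g g10 (@Lb.g g7 (@Lb.r r402 (@Lb.r r2073 (@Lb.d (nat_lit 646) (nat_lit 84) (nat_lit 520) (@Lb.t (@Lb.fm (nat_lit 9) t3055)))))))))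
noncomputable def l14259 : Lb := (@Lb.d (nat_lit 4) (nat_lit 34) (nat_lit 4) (@Lb.g g8 (@Lb.g g9 (@Lb.g g10 (@Lb.g g11 (@Lb.r r2454 (@Lb.r r1620 (@Lb.r r1303 (@Lb.r r149 (@Lb.d (nat_lit 676) (nat_lit 5) (nat_lit 104) (@Lb.fm (nat_lit 9) t1244)))))))))))
noncomputable def l14260 : Lb := (@Lb.r r323 (@Lb.d (nat_lit 0) (nat_lit 256) (nat_lit 1) (@Lb.g g8 (@Lb.g g9 (@Lb.g g6 (@Lb.r r387 (@Lb.r r2145 (@Lb.d (nat_lit 2) (nat_lit 10) (nat_lit 34) (@Lb.t (@Lb.fm (nat_lit 9) t126))))))))))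
noncomputable def l14261 : Lb := (@Lb.r r323 (@Lb.d (nat_lit 0) (nat_lit 512) (nat_lit 1) (@Lb.g g9 (@Lb.g g6 (@Lb.r r387 (@Lb.r r2145 (@Lb.r r36 (@Lb.d (nat_lit 4) (nat_lit 72) (nat_lit 34) (@Lb.fm (nat_lit 3) t319)))))))))
noncomputable def l14262 : Lb := (@Lb.d (nat_lit 584) (nat_lit 290) (nat_lit 74) (@Lb.r r68 (@Lb.r r154 (@Lb.r r660 (@Lb.r r2385 (@Lb.g g7 (@Lb.g g6 (@Lb.g g5 (@Lb.g g4 (@Lb.d (nat_lit 1) (nat_lit 0) (nat_lit 129) (@Lb.fm (nat_lit 9) t98)))))))))))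
noncomputable def l14263 : Lb := (@Lb.r r323 (@Lb.d (nat_lit 0) (nat_lit 256) (nat_lit 1) (@Lb.g g8 (@Lb.g g9 (@Lb.g g6 (@Lb.r r387 (@Lb.r r104 (@Lb.r r1129 (@Lb.r r1060 (@Lb.d (nat_lit 548) (nat_lit 128) (nat_lit 2) (@Lb.t (@Lb.fp (nat_lit 9) t3034))))))))))))
noncomputable def l14264 : Lb := (@Lb.r r323 (@Lb.d (nat_lit 4) (nat_lit 256) (nat_lit 1) (@Lb.g g8 (@Lb.g g6 (@Lb.r r387 (@Lb.r r2073 (@Lb.d (nat_lit 548) (nat_lit 70) (nat_lit 32) (@Lb.fp (nat_lit 3) t382))))))))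
noncomputable def l14265 : Lb := (@Lb.r r21 (@Lb.d (nat_lit 130) (nat_lit 512) (nat_lit 4) (@Lb.g g8 (@Lb.g g10 (@Lb.g g11 (@Lb.r r651 (@Lb.r r357 (@Lb.r r154 (@Lb.r r132 (@Lb.d (nat_lit 89) (nat_lit 25) (nat_lit 8) (@Lb.t (@Lb.fp (nat_lit 9) t74))))))))))))
noncomputable def l14266 : Lb := (@Lb.d (nat_lit 0) (nat_lit 260) (nat_lit 128) (@Lb.g g8 (@Lb.g g9 (@Lb.g g10 (@Lb.g g11 (@Lb.r r553 (@Lb.r r299 (@Lb.r r356 (@Lb.r r154 (@Lb.r r132 (@Lb.d (nat_lit 586) (nat_lit 9) (nat_lit 618) (@Lb.fp (nat_lit 9) t1244))))))))))))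
noncomputable def l14267 : Lb := (@Lb.d (nat_lit 4) (nat_lit 0) (nat_lit 130) (@Lb.g g8 (@Lb.g g10 (@Lb.g g11 (@Lb.r r642 (@Lb.r r387 (@Lb.r r2073 (@Lb.d (nat_lit 550) (nat_lit 70) (nat_lit 162) (@Lb.t (@Lb.fp (nat_lit 9) t382))))))))))
noncomputable def l14268 : Lb := (@Lb.g g10 (@Lb.r r2451 (@Lb.r r402 (@Lb.r r101 (@Lb.r r24 (@Lb.d (nat_lit 256) (nat_lit 0) (nat_lit 170) (@Lb.t (@Lb.fm (nat_lit 3) t335))))))))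
noncomputable def l14269 : Lb := (@Lb.d (nat_lit 2) (nat_lit 2) (nat_lit 130) (@Lb.g g8 (@Lb.g g9 (@Lb.g g10 (@Lb.g g11 (@Lb.r r427 (@Lb.r r424 (@Lb.r r106 (@Lb.r r97 (@Lb.d (nat_lit 296) (nat_lit 9) (nat_lit 33) (@Lb.fp (nat_lit 9) t3056)))))))))))
noncomputable def l14270 : Lb := (@Lb.r r21 (@Lb.d (nat_lit 656) (nat_lit 0) (nat_lit 128) (@Lb.g g8 (@Lb.g g10 (@Lb.g g11 (@Lb.r r387 (@Lb.r r74 (@Lb.r r25 (@Lb.d (nat_lit 337) (nat_lit 0) (nat_lit 9) (@Lb.t (@Lb.fm (nat_lit 9) t164)))))))))))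
noncomputable def l14271 : Lb := (@Lb.r r323 (@Lb.d (nat_lit 2) (nat_lit 546) (nat_lit 0) (@Lb.g g8 (@Lb.g g9 (@Lb.g g10 (@Lb.r r2474 (@Lb.r r2468 (@Lb.r r1307 (@Lb.r r2661 (@Lb.d (nat_lit 665) (nat_lit 90) (nat_lit 325) (@Lb.t (@Lb.fm (nat_lit 9) t228))))))))))))
noncomputable def l14272 : Lb := (@Lb.d (nat_lit 1) (nat_lit 538) (nat_lit 576) (@Lb.r r37 (@Lb.r r1304 (@Lb.r r2375 (@Lb.g g7 (@Lb.g g6 (@Lb.g g4 (@Lb.d (nat_lit 1) (nat_lit 0) (nat_lit 64) (@Lb.r r145 (@Lb.t (@Lb.fp (nat_lit 9) t1780)))))))))))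
noncomputable def l14273 : Lb := (@Lb.d (nat_lit 4) (nat_lit 554) (nat_lit 73) (@Lb.r r21 (@Lb.r r682 (@Lb.r r599 (@Lb.g g7 (@Lb.g g6 (@Lb.g g5 (@Lb.g g4 (@Lb.d (nat_lit 2) (nat_lit 1) (nat_lit 10) (@Lb.fp (nat_lit 9) t167))))))))))
noncomputable def l14274 : Lb := (@Lb.d (nat_lit 33) (nat_lit 256) (nat_lit 662) (@Lb.r r24 (@Lb.r r2325 (@Lb.r r386 (@Lb.r r1699 (@Lb.g g7 (@Lb.g g6 (@Lb.g g5 (@Lb.d (nat_lit 0) (nat_lit 25) (nat_lit 128) (@Lb.t (@Lb.fm (nat_lit 9) t393)))))))))))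
noncomputable def l14275 : Lb := (@Lb.d (nat_lit 0) (nat_lit 2) (nat_lit 130) (@Lb.g g8 (@Lb.g g9 (@Lb.g g10 (@Lb.g g11 (@Lb.r r2691 (@Lb.r r297 (@Lb.r r360 (@Lb.r r582 (@Lb.r r2180 (@Lb.d (nat_lit 644) (nat_lit 8) (nat_lit 329) (@Lb.fm (nat_lit 9) t1425))))))))))))
noncomputable def l14276 : Lb := (@Lb.d (nat_lit 0) (nat_lit 260) (nat_lit 74) (@Lb.g g8 (@Lb.g g9 (@Lb.g g10 (@Lb.g g11 (@Lb.r r2691 (@Lb.r r2474 (@Lb.r r1313 (@Lb.r r24 (@Lb.d (nat_lit 136) (nat_lit 161) (nat_lit 424) (@Lb.fp (nat_lit 9) t378)))))))))))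
noncomputable def l14277 : Lb := (@Lb.d (nat_lit 32) (nat_lit 516) (nat_lit 89) (@Lb.g g9 (@Lb.g g6 (@Lb.g g11 (@Lb.r r1607 (@Lb.r r1313 (@Lb.r r8 (@Lb.d (nat_lit 666) (nat_lit 162) (nat_lit 394) (@Lb.t (@Lb.fm (nat_lit 9) t2019))))))))))
noncomputable def l14278 : Lb := (@Lb.d (nat_lit 0) (nat_lit 514) (nat_lit 73) (@Lb.g g8 (@Lb.g g9 (@Lb.g g10 (@Lb.g g11 (@Lb.r r1559 (@Lb.r r2474 (@Lb.r r97 (@Lb.r r24 (@Lb.d (nat_lit 296) (nat_lit 9) (nat_lit 89) (@Lb.fp (nat_lit 9) t1172)))))))))))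
noncomputable def l14279 : Lb := (@Lb.d (nat_lit 2) (nat_lit 4) (nat_lit 128) (@Lb.g g8 (@Lb.g g9 (@Lb.g g10 (@Lb.g g11 (@Lb.r r516 (@Lb.r r263 (@Lb.r r618 (@Lb.r r97 (@Lb.r r516 (@Lb.d (nat_lit 610) (nat_lit 10) (nat_lit 657) (@Lb.fm (nat_lit 9) t2020))))))))))))
noncomputable def l14280 : Lb := (@Lb.d (nat_lit 32) (nat_lit 32) (nat_lit 2) (@Lb.g g9 (@Lb.g g10 (@Lb.r r283 (@Lb.r r72 (@Lb.r r390 (@Lb.r r2209 (@Lb.d (nat_lit 66) (nat_lit 70) (nat_lit 170) (@Lb.fp (nat_lit 3) t1607)))))))))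
noncomputable def l14281 : Lb := (@Lb.d (nat_lit 168) (nat_lit 289) (nat_lit 106) (@Lb.r r676 (@Lb.r r678 (@Lb.r r411 (@Lb.g g6 (@Lb.g g9 (@Lb.g g4 (@Lb.d (nat_lit 129) (nat_lit 1) (nat_lit 1) (@Lb.r r291 (@Lb.t (@Lb.fp (nat_lit 9) t2657)))))))))))
noncomputable def l14282 : Lb := (@Lb.d (nat_lit 0) (nat_lit 0) (nat_lit 73) (@Lb.g g9 (@Lb.g g10 (@Lb.g g11 (@Lb.r r323 (@Lb.r r322 (@Lb.r r101 (@Lb.r r24 (@Lb.d (nat_lit 32) (nat_lit 0) (nat_lit 9) (@Lb.t (@Lb.fm (nat_lit 9) t167)))))))))))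
noncomputable def l14283 : Lb := (@Lb.d (nat_lit 98) (nat_lit 260) (nat_lit 74) (@Lb.g g8 (@Lb.g g9 (@Lb.g g10 (@Lb.g g11 (@Lb.r r1619 (@Lb.r r2406 (@Lb.r r424 (@Lb.r r25 (@Lb.d (nat_lit 642) (nat_lit 164) (nat_lit 394) (@Lb.fp (nat_lit 9) t841)))))))))))
noncomputable def l14284 : Lb := (@Lb.d (nat_lit 128) (nat_lit 513) (nat_lit 130) (@Lb.g g9 (@Lb.g g10 (@Lb.g g11 (@Lb.r r610 (@Lb.r r105 (@Lb.r r264 (@Lb.r r2663 (@Lb.d (nat_lit 656) (nat_lit 102) (nat_lit 105) (@Lb.t (@Lb.fp (nat_lit 9) t71)))))))))))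
noncomputable def l14285 : Lb := (@Lb.r r323 (@Lb.d (nat_lit 4) (nat_lit 257) (nat_lit 2) (@Lb.g g9 (@Lb.g g10 (@Lb.r r102 (@Lb.r r404 (@Lb.r r1371 (@Lb.r r2705 (@Lb.d (nat_lit 1) (nat_lit 134) (nat_lit 661) (@Lb.fm (nat_lit 3) t71))))))))))
noncomputable def l14286 : Lb := (@Lb.r r323 (@Lb.d (nat_lit 1) (nat_lit 256) (nat_lit 1) (@Lb.g g8 (@Lb.g g6 (@Lb.r r387 (@Lb.r r2145 (@Lb.r r24 (@Lb.d (nat_lit 10) (nat_lit 73) (nat_lit 98) (@Lb.fp (nat_lit 3) t40)))))))))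
noncomputable def l14287 : Lb := (@Lb.r r323 (@Lb.d (nat_lit 2) (nat_lit 34) (nat_lit 2) (@Lb.g g8 (@Lb.g g9 (@Lb.g g10 (@Lb.r r599 (@Lb.r r74 (@Lb.r r296 (@Lb.r r409 (@Lb.d (nat_lit 152) (nat_lit 152) (nat_lit 384) (@Lb.t (@Lb.fm (nat_lit 9) t119))))))))))))
noncomputable def l14288 : Lb := (@Lb.r r323 (@Lb.d (nat_lit 138) (nat_lit 34) (nat_lit 10) (@Lb.g g8 (@Lb.g g9 (@Lb.g g10 (@Lb.r r1299 (@Lb.r r2657 (@Lb.r r1110 (@Lb.r r2200 (@Lb.d (nat_lit 601) (nat_lit 170) (nat_lit 18) (@Lb.t (@Lb.fm (nat_lit 9) t2))))))))))))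
noncomputable def l14289 : Lb := (@Lb.r r323 (@Lb.d (nat_lit 2) (nat_lit 514) (nat_lit 1) (@Lb.g g8 (@Lb.g g9 (@Lb.g g6 (@Lb.r r387 (@Lb.r r2153 (@Lb.r r2120 (@Lb.d (nat_lit 290) (nat_lit 128) (nat_lit 66) (@Lb.t (@Lb.fp (nat_lit 9) t40)))))))))))
noncomputable def l14290 : Lb := (@Lb.r r323 (@Lb.d (nat_lit 4) (nat_lit 513) (nat_lit 2) (@Lb.g g9 (@Lb.g g10 (@Lb.r r102 (@Lb.r r404 (@Lb.r r1371 (@Lb.r r2705 (@Lb.d (nat_lit 8) (nat_lit 133) (nat_lit 661) (@Lb.fm (nat_lit 3) t71))))))))))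
noncomputable def l14291 : Lb := (@Lb.g g8 (@Lb.g g5 (@Lb.r r24 (@Lb.r r1045 (@Lb.r r36 (@Lb.d (nat_lit 0) (nat_lit 66) (nat_lit 0) (@Lb.fm (nat_lit 3) t2)))))))
noncomputable def l14292 : Lb := (@Lb.r r82 (@Lb.d (nat_lit 0) (nat_lit 512) (nat_lit 128) (@Lb.g g9 (@Lb.g g11 (@Lb.r r1575 (@Lb.r r386 (@Lb.r r2328 (@Lb.r r1637 (@Lb.d (nat_lit 265) (nat_lit 66) (nat_lit 16) (@Lb.fm (nat_lit 3) t152))))))))))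
noncomputable def l14293 : Lb := (@Lb.d (nat_lit 392) (nat_lit 80) (nat_lit 576) (@Lb.r r1685 (@Lb.r r662 (@Lb.r r600 (@Lb.r r347 (@Lb.g g7 (@Lb.g g6 (@Lb.g g5 (@Lb.d (nat_lit 8) (nat_lit 1) (nat_lit 65) (@Lb.t (@Lb.fp (nat_lit 9) t68)))))))))))
noncomputable def l14294 : Lb := (@Lb.g g8 (@Lb.g g5 (@Lb.r r24 (@Lb.r r1045 (@Lb.r r36 (@Lb.fm (nat_lit 3) t2))))))
noncomputable def l14295 : Lb := (@Lb.r r1045 (@Lb.d (nat_lit 261) (nat_lit 8) (nat_lit 130) (@Lb.g g4 (@Lb.g g10 (@Lb.g g11 (@Lb.r r387 (@Lb.d (nat_lit 8) (nat_lit 65) (nat_lit 2) (@Lb.t (@Lb.fp (nat_lit 9) t51)))))))))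
noncomputable def l14296 : Lb := (@Lb.d (nat_lit 32) (nat_lit 520) (nat_lit 66) (@Lb.g g10 (@Lb.g g11 (@Lb.r r324 (@Lb.r r651 (@Lb.r r357 (@Lb.r r666 (@Lb.d (nat_lit 73) (nat_lit 37) (nat_lit 148) (@Lb.fp (nat_lit 3) t40)))))))))
noncomputable def l14297 : Lb := (@Lb.d (nat_lit 32) (nat_lit 256) (nat_lit 128) (@Lb.g g10 (@Lb.g g11 (@Lb.r r2711 (@Lb.r r1384 (@Lb.r r361 (@Lb.r r1622 (@Lb.d (nat_lit 5) (nat_lit 102) (nat_lit 544) (@Lb.fp (nat_lit 3) t386)))))))))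
noncomputable def l14298 : Lb := (@Lb.r r21 (@Lb.d (nat_lit 2) (nat_lit 520) (nat_lit 2) (@Lb.g g8 (@Lb.g g10 (@Lb.g g11 (@Lb.r r353 (@Lb.r r407 (@Lb.r r584 (@Lb.r r390 (@Lb.d (nat_lit 98) (nat_lit 0) (nat_lit 8) (@Lb.t (@Lb.fp (nat_lit 9) t2))))))))))))
noncomputable def l14299 : Lb := (@Lb.d (nat_lit 409) (nat_lit 512) (nat_lit 336) (@Lb.r r1636 (@Lb.r r613 (@Lb.r r1370 (@Lb.g g7 (@Lb.g g4 (@Lb.d (nat_lit 68) (nat_lit 0) (nat_lit 576) (@Lb.fp (nat_lit 3) t1561))))))))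
noncomputable def l14300 : Lb := (@Lb.d (nat_lit 32) (nat_lit 0) (nat_lit 129) (@Lb.g g10 (@Lb.g g11 (@Lb.r r2651 (@Lb.r r2644 (@Lb.r r2457 (@Lb.r r1434 (@Lb.d (nat_lit 361) (nat_lit 90) (nat_lit 325) (@Lb.fm (nat_lit 3) t386)))))))))
noncomputable def l14301 : Lb := (@Lb.d (nat_lit 32) (nat_lit 512) (nat_lit 128) (@Lb.g g10 (@Lb.g g11 (@Lb.r r2711 (@Lb.r r1384 (@Lb.r r361 (@Lb.r r1622 (@Lb.d (nat_lit 4) (nat_lit 102) (nat_lit 544) (@Lb.fp (nat_lit 3) t386)))))))))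
noncomputable def l14302 : Lb := (@Lb.d (nat_lit 0) (nat_lit 512) (nat_lit 64) (@Lb.g g7 (@Lb.r r2145 (@Lb.r r402 (@Lb.r r579 (@Lb.r r2564 (@Lb.t (@Lb.fp (nat_lit 3) t242))))))))
noncomputable def l14303 : Lb := (@Lb.g g7 (@Lb.r r134 (@Lb.r r328 (@Lb.r r535 (@Lb.r r289 (@Lb.t (@Lb.fm (nat_lit 3) t51)))))))
noncomputable def l14304 : Lb := (@Lb.d (nat_lit 0) (nat_lit 512) (nat_lit 66) (@Lb.g g10 (@Lb.g g11 (@Lb.r r586 (@Lb.r r584 (@Lb.r r299 (@Lb.r r289 (@Lb.d (nat_lit 9) (nat_lit 1) (nat_lit 0) (@Lb.fm (nat_lit 3) t51)))))))))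
noncomputable def l14305 : Lb := (@Lb.d (nat_lit 2) (nat_lit 9) (nat_lit 129) (@Lb.g g8 (@Lb.g g9 (@Lb.g g10 (@Lb.g g11 (@Lb.r r148 (@Lb.r r102 (@Lb.r r357 (@Lb.r r667 (@Lb.r r644 (@Lb.d (nat_lit 8) (nat_lit 2) (nat_lit 74) (@Lb.fp (nat_lit 9) t321))))))))))))
noncomputable def l14306 : Lb := (@Lb.d (nat_lit 10) (nat_lit 512) (nat_lit 0) (@Lb.g g8 (@Lb.g g10 (@Lb.r r289 (@Lb.r r279 (@Lb.r r584 (@Lb.r r134 (@Lb.d (nat_lit 0) (nat_lit 0) (nat_lit 22) (@Lb.fp (nat_lit 3) t40)))))))))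
noncomputable def l14307 : Lb := (@Lb.d (nat_lit 32) (nat_lit 512) (nat_lit 2) (@Lb.g g10 (@Lb.r r2579 (@Lb.r r72 (@Lb.r r598 (@Lb.r r289 (@Lb.d (nat_lit 274) (nat_lit 10) (nat_lit 66) (@Lb.t (@Lb.fm (nat_lit 3) t369)))))))))
noncomputable def l14308 : Lb := (@Lb.d (nat_lit 5) (nat_lit 528) (nat_lit 609) (@Lb.r r417 (@Lb.r r599 (@Lb.r r2472 (@Lb.r r2154 (@Lb.g g7 (@Lb.g g5 (@Lb.g g4 (@Lb.d (nat_lit 25) (nat_lit 4) (nat_lit 132) (@Lb.t (@Lb.fm (nat_lit 9) t40)))))))))))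
noncomputable def l14309 : Lb := (@Lb.d (nat_lit 2) (nat_lit 2) (nat_lit 73) (@Lb.g g8 (@Lb.g g9 (@Lb.g g10 (@Lb.g g11 (@Lb.r r2691 (@Lb.r r297 (@Lb.r r360 (@Lb.r r582 (@Lb.r r2180 (@Lb.d (nat_lit 641) (nat_lit 10) (nat_lit 393) (@Lb.fm (nat_lit 9) t242))))))))))))
noncomputable def l14310 : Lb := (@Lb.d (nat_lit 0) (nat_lit 17) (nat_lit 585) (@Lb.g g8 (@Lb.g g9 (@Lb.g g10 (@Lb.g g7 (@Lb.r r386 (@Lb.r r97 (@Lb.d (nat_lit 5) (nat_lit 136) (nat_lit 9) (@Lb.fm (nat_lit 9) t3057)))))))))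
noncomputable def l14311 : Lb := (@Lb.r r529 (@Lb.r r659 (@Lb.r r674 (@Lb.r r1105 (@Lb.r r36 (@Lb.d (nat_lit 5) (nat_lit 513) (nat_lit 16) (@Lb.fp (nat_lit 1) t1242)))))))
noncomputable def l14312 : Lb := (@Lb.r r323 (@Lb.d (nat_lit 0) (nat_lit 516) (nat_lit 42) (@Lb.g g8 (@Lb.g g9 (@Lb.g g6 (@Lb.r r387 (@Lb.r r1313 (@Lb.d (nat_lit 5) (nat_lit 162) (nat_lit 16) (@Lb.t (@Lb.fm (nat_lit 9) t901))))))))))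
noncomputable def l14313 : Lb := (@Lb.d (nat_lit 2) (nat_lit 512) (nat_lit 1) (@Lb.g g8 (@Lb.g g10 (@Lb.r r289 (@Lb.r r2579 (@Lb.r r68 (@Lb.r r394 (@Lb.r r2180 (@Lb.d (nat_lit 322) (nat_lit 0) (nat_lit 645) (@Lb.fp (nat_lit 3) t3058))))))))))
noncomputable def l14314 : Lb := (@Lb.d (nat_lit 0) (nat_lit 528) (nat_lit 585) (@Lb.g g8 (@Lb.g g9 (@Lb.g g10 (@Lb.g g7 (@Lb.r r386 (@Lb.r r1121 (@Lb.d (nat_lit 5) (nat_lit 138) (nat_lit 25) (@Lb.fm (nat_lit 9) t901)))))))))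
noncomputable def l14315 : Lb := (@Lb.d (nat_lit 0) (nat_lit 2) (nat_lit 9) (@Lb.g g8 (@Lb.g g9 (@Lb.g g10 (@Lb.g g7 (@Lb.r r386 (@Lb.r r97 (@Lb.d (nat_lit 5) (nat_lit 10) (nat_lit 9) (@Lb.fm (nat_lit 9) t285)))))))))
noncomputable def l14316 : Lb := (@Lb.d (nat_lit 2) (nat_lit 256) (nat_lit 0) (@Lb.g g8 (@Lb.r r2665 (@Lb.r r402 (@Lb.r r2596 (@Lb.r r2663 (@Lb.d (nat_lit 512) (nat_lit 0) (nat_lit 85) (@Lb.t (@Lb.fm (nat_lit 3) t2299)))))))))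
noncomputable def l14317 : Lb := (@Lb.d (nat_lit 320) (nat_lit 289) (nat_lit 128) (@Lb.r r289 (@Lb.r r1323 (@Lb.r r1428 (@Lb.r r2726 (@Lb.g g7 (@Lb.g g6 (@Lb.d (nat_lit 0) (nat_lit 0) (nat_lit 6) (@Lb.fm (nat_lit 3) t1260)))))))))
noncomputable def l14318 : Lb := (@Lb.d (nat_lit 9) (nat_lit 518) (nat_lit 128) (@Lb.g g8 (@Lb.g g9 (@Lb.g g10 (@Lb.g g11 (@Lb.r r427 (@Lb.r r388 (@Lb.r r70 (@Lb.r r153 (@Lb.r r132 (@Lb.d (nat_lit 0) (nat_lit 9) (nat_lit 153) (@Lb.fp (nat_lit 9) t1499))))))))))))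
noncomputable def l14319 : Lb := (@Lb.d (nat_lit 168) (nat_lit 256) (nat_lit 130) (@Lb.g g9 (@Lb.g g10 (@Lb.g g11 (@Lb.r r72 (@Lb.r r86 (@Lb.r r421 (@Lb.r r539 (@Lb.d (nat_lit 2) (nat_lit 32) (nat_lit 22) (@Lb.t (@Lb.fp (nat_lit 9) t2)))))))))))
noncomputable def l14320 : Lb := (@Lb.r r323 (@Lb.d (nat_lit 130) (nat_lit 34) (nat_lit 2) (@Lb.g g8 (@Lb.g g9 (@Lb.g g10 (@Lb.r r263 (@Lb.r r584 (@Lb.r r598 (@Lb.r r409 (@Lb.d (nat_lit 16) (nat_lit 10) (nat_lit 90) (@Lb.t (@Lb.fp (nat_lit 9) t2))))))))))))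
noncomputable def l14321 : Lb := (@Lb.r r70 (@Lb.d (nat_lit 129) (nat_lit 514) (nat_lit 64) (@Lb.g g8 (@Lb.g g9 (@Lb.g g11 (@Lb.r r1707 (@Lb.r r2394 (@Lb.r r1641 (@Lb.r r1620 (@Lb.d (nat_lit 2) (nat_lit 170) (nat_lit 0) (@Lb.t (@Lb.fm (nat_lit 9) t128))))))))))))
noncomputable def l14322 : Lb := (@Lb.r r323 (@Lb.d (nat_lit 2) (nat_lit 2) (nat_lit 2) (@Lb.g g8 (@Lb.g g9 (@Lb.g g10 (@Lb.r r362 (@Lb.r r387 (@Lb.r r97 (@Lb.d (nat_lit 665) (nat_lit 21) (nat_lit 84) (@Lb.t (@Lb.fp (nat_lit 9) t232)))))))))))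
noncomputable def l14323 : Lb := (@Lb.r r323 (@Lb.d (nat_lit 136) (nat_lit 256) (nat_lit 1) (@Lb.g g8 (@Lb.g g10 (@Lb.r r295 (@Lb.r r405 (@Lb.r r2596 (@Lb.d (nat_lit 650) (nat_lit 89) (nat_lit 288) (@Lb.fm (nat_lit 3) t2551)))))))))
noncomputable def l14324 : Lb := (@Lb.d (nat_lit 1) (nat_lit 258) (nat_lit 130) (@Lb.g g8 (@Lb.g g9 (@Lb.g g10 (@Lb.g g11 (@Lb.r r1706 (@Lb.r r648 (@Lb.r r1563 (@Lb.r r2337 (@Lb.r r36 (@Lb.d (nat_lit 641) (nat_lit 100) (nat_lit 65) (@Lb.fp (nat_lit 9) t242))))))))))))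
noncomputable def l14325 : Lb := (@Lb.r r323 (@Lb.d (nat_lit 40) (nat_lit 514) (nat_lit 2) (@Lb.g g9 (@Lb.g g10 (@Lb.r r584 (@Lb.r r299 (@Lb.r r289 (@Lb.d (nat_lit 10) (nat_lit 137) (nat_lit 136) (@Lb.fm (nat_lit 3) t51)))))))))
noncomputable def l14326 : Lb := (@Lb.r r323 (@Lb.d (nat_lit 2) (nat_lit 290) (nat_lit 2) (@Lb.g g8 (@Lb.g g9 (@Lb.g g10 (@Lb.r r599 (@Lb.r r74 (@Lb.r r296 (@Lb.r r409 (@Lb.d (nat_lit 149) (nat_lit 164) (nat_lit 132) (@Lb.t (@Lb.fm (nat_lit 9) t51))))))))))))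
noncomputable def l14327 : Lb := (@Lb.d (nat_lit 6) (nat_lit 550) (nat_lit 65) (@Lb.r r21 (@Lb.r r342 (@Lb.g g7 (@Lb.g g6 (@Lb.g g5 (@Lb.g g4 (@Lb.d (nat_lit 1) (nat_lit 1) (nat_lit 128) (@Lb.fp (nat_lit 9) t40)))))))))
noncomputable def l14328 : Lb := (@Lb.d (nat_lit 32) (nat_lit 264) (nat_lit 2) (@Lb.g g10 (@Lb.r r1380 (@Lb.r r2715 (@Lb.r r357 (@Lb.r r666 (@Lb.d (nat_lit 74) (nat_lit 105) (nat_lit 42) (@Lb.t (@Lb.fm (nat_lit 3) t127)))))))))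
noncomputable def l14329 : Lb := (@Lb.d (nat_lit 32) (nat_lit 520) (nat_lit 2) (@Lb.g g10 (@Lb.r r1380 (@Lb.r r2715 (@Lb.r r357 (@Lb.r r666 (@Lb.d (nat_lit 69) (nat_lit 104) (nat_lit 42) (@Lb.t (@Lb.fm (nat_lit 3) t127)))))))))
noncomputable def l14330 : Lb := (@Lb.d (nat_lit 10) (nat_lit 154) (nat_lit 553) (@Lb.r r2705 (@Lb.r r2714 (@Lb.r r1444 (@Lb.r r2395 (@Lb.g g7 (@Lb.g g6 (@Lb.g g5 (@Lb.d (nat_lit 4) (nat_lit 1) (nat_lit 65) (@Lb.t (@Lb.fm (nat_lit 9) t125)))))))))))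
noncomputable def l14331 : Lb := (@Lb.d (nat_lit 512) (nat_lit 0) (nat_lit 128) (@Lb.r r1291 (@Lb.g g11 (@Lb.g g8 (@Lb.fm (nat_lit 3) t997)))))
noncomputable def l14332 : Lb := (@Lb.d (nat_lit 0) (nat_lit 544) (nat_lit 136) (@Lb.g g11 (@Lb.r r421 (@Lb.r r2470 (@Lb.r r2395 (@Lb.d (nat_lit 160) (nat_lit 148) (nat_lit 678) (@Lb.t (@Lb.fp (nat_lit 3) t414))))))))
noncomputable def l14333 : Lb := (@Lb.d (nat_lit 0) (nat_lit 8) (nat_lit 66) (@Lb.g g10 (@Lb.g g11 (@Lb.r r353 (@Lb.r r663 (@Lb.r r356 (@Lb.r r154 (@Lb.d (nat_lit 577) (nat_lit 10) (nat_lit 529) (@Lb.fp (nat_lit 3) t698)))))))))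
noncomputable def l14334 : Lb := (@Lb.d (nat_lit 10) (nat_lit 512) (nat_lit 66) (@Lb.g g8 (@Lb.g g10 (@Lb.g g11 (@Lb.r r1319 (@Lb.r r1381 (@Lb.r r2714 (@Lb.r r2692 (@Lb.d (nat_lit 416) (nat_lit 2) (nat_lit 406) (@Lb.t (@Lb.fm (nat_lit 9) t441)))))))))))
noncomputable def l14335 : Lb := (@Lb.d (nat_lit 160) (nat_lit 256) (nat_lit 66) (@Lb.g g9 (@Lb.g g10 (@Lb.g g11 (@Lb.r r264 (@Lb.r r279 (@Lb.r r613 (@Lb.r r410 (@Lb.d (nat_lit 609) (nat_lit 26) (nat_lit 596) (@Lb.t (@Lb.fp (nat_lit 9) t698)))))))))))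
noncomputable def l14336 : Lb := (@Lb.d (nat_lit 2) (nat_lit 0) (nat_lit 66) (@Lb.g g8 (@Lb.g g9 (@Lb.g g10 (@Lb.g g11 (@Lb.r r1287 (@Lb.r r548 (@Lb.r r1125 (@Lb.r r2202 (@Lb.r r2180 (@Lb.d (nat_lit 394) (nat_lit 1) (nat_lit 384) (@Lb.fp (nat_lit 9) t441))))))))))))
noncomputable def l14337 : Lb := (@Lb.d (nat_lit 65) (nat_lit 514) (nat_lit 2) (@Lb.g g8 (@Lb.g g9 (@Lb.g g10 (@Lb.g g11 (@Lb.r r427 (@Lb.r r1706 (@Lb.r r1625 (@Lb.r r1604 (@Lb.d (nat_lit 409) (nat_lit 9) (nat_lit 290) (@Lb.fm (nat_lit 9) t394)))))))))))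
noncomputable def l14338 : Lb := (@Lb.d (nat_lit 2) (nat_lit 512) (nat_lit 66) (@Lb.g g8 (@Lb.g g9 (@Lb.g g10 (@Lb.g g11 (@Lb.r r1287 (@Lb.r r548 (@Lb.r r1125 (@Lb.r r2202 (@Lb.r r2180 (@Lb.d (nat_lit 384) (nat_lit 2) (nat_lit 384) (@Lb.fp (nat_lit 9) t441))))))))))))
noncomputable def l14339 : Lb := (@Lb.d (nat_lit 144) (nat_lit 514) (nat_lit 133) (@Lb.g g8 (@Lb.g g9 (@Lb.g g10 (@Lb.g g11 (@Lb.r r427 (@Lb.r r2154 (@Lb.r r409 (@Lb.r r388 (@Lb.d (nat_lit 105) (nat_lit 90) (nat_lit 338) (@Lb.fp (nat_lit 9) t394)))))))))))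
noncomputable def l14340 : Lb := (@Lb.d (nat_lit 144) (nat_lit 2) (nat_lit 133) (@Lb.g g8 (@Lb.g g9 (@Lb.g g10 (@Lb.g g11 (@Lb.r r427 (@Lb.r r2154 (@Lb.r r409 (@Lb.r r388 (@Lb.d (nat_lit 105) (nat_lit 85) (nat_lit 337) (@Lb.fp (nat_lit 9) t394)))))))))))
noncomputable def l14341 : Lb := (@Lb.d (nat_lit 0) (nat_lit 8) (nat_lit 130) (@Lb.g g10 (@Lb.g g11 (@Lb.r r353 (@Lb.r r663 (@Lb.r r356 (@Lb.r r154 (@Lb.d (nat_lit 18) (nat_lit 10) (nat_lit 1) (@Lb.fp (nat_lit 3) t2)))))))))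
noncomputable def l14342 : Lb := (@Lb.d (nat_lit 1) (nat_lit 512) (nat_lit 130) (@Lb.g g8 (@Lb.g g9 (@Lb.g g10 (@Lb.g g11 (@Lb.r r532 (@Lb.r r295 (@Lb.r r357 (@Lb.r r666 (@Lb.r r644 (@Lb.d (nat_lit 2) (nat_lit 2) (nat_lit 68) (@Lb.fp (nat_lit 9) t2))))))))))))
noncomputable def l14343 : Lb := (@Lb.d (nat_lit 1) (nat_lit 520) (nat_lit 130) (@Lb.g g8 (@Lb.g g10 (@Lb.g g11 (@Lb.r r353 (@Lb.r r667 (@Lb.r r664 (@Lb.r r154 (@Lb.d (nat_lit 18) (nat_lit 10) (nat_lit 70) (@Lb.t (@Lb.fm (nat_lit 9) t2)))))))))))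
noncomputable def l14344 : Lb := (@Lb.d (nat_lit 10) (nat_lit 8) (nat_lit 130) (@Lb.g g8 (@Lb.g g10 (@Lb.g g11 (@Lb.r r353 (@Lb.r r407 (@Lb.r r612 (@Lb.r r154 (@Lb.d (nat_lit 18) (nat_lit 10) (nat_lit 133) (@Lb.t (@Lb.fm (nat_lit 9) t2)))))))))))
noncomputable def l14345 : Lb := (@Lb.d (nat_lit 128) (nat_lit 264) (nat_lit 130) (@Lb.g g10 (@Lb.g g11 (@Lb.r r264 (@Lb.r r519 (@Lb.r r101 (@Lb.r r154 (@Lb.d (nat_lit 146) (nat_lit 10) (nat_lit 66) (@Lb.fm (nat_lit 3) t2)))))))))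
noncomputable def l14346 : Lb := (@Lb.d (nat_lit 2) (nat_lit 1) (nat_lit 130) (@Lb.g g8 (@Lb.g g9 (@Lb.g g10 (@Lb.g g11 (@Lb.r r532 (@Lb.r r279 (@Lb.r r665 (@Lb.r r666 (@Lb.r r644 (@Lb.d (nat_lit 2) (nat_lit 2) (nat_lit 1) (@Lb.fm (nat_lit 9) t2))))))))))))
noncomputable def l14347 : Lb := (@Lb.d (nat_lit 2) (nat_lit 258) (nat_lit 130) (@Lb.g g8 (@Lb.g g9 (@Lb.g g10 (@Lb.g g11 (@Lb.r r2691 (@Lb.r r88 (@Lb.r r1173 (@Lb.r r1622 (@Lb.r r1188 (@Lb.d (nat_lit 641) (nat_lit 0) (nat_lit 345) (@Lb.fp (nat_lit 9) t1558))))))))))))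
noncomputable def l14348 : Lb := (@Lb.d (nat_lit 160) (nat_lit 256) (nat_lit 130) (@Lb.g g9 (@Lb.g g10 (@Lb.g g11 (@Lb.r r264 (@Lb.r r279 (@Lb.r r613 (@Lb.r r410 (@Lb.d (nat_lit 2) (nat_lit 26) (nat_lit 68) (@Lb.t (@Lb.fp (nat_lit 9) t2)))))))))))
noncomputable def l14349 : Lb := (@Lb.d (nat_lit 2) (nat_lit 512) (nat_lit 104) (@Lb.g g8 (@Lb.g g6 (@Lb.g g11 (@Lb.r r579 (@Lb.d (nat_lit 0) (nat_lit 0) (nat_lit 154) (@Lb.t (@Lb.fm (nat_lit 9) t2))))))))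
noncomputable def l14350 : Lb := (@Lb.d (nat_lit 145) (nat_lit 550) (nat_lit 136) (@Lb.r r402 (@Lb.r r609 (@Lb.r r299 (@Lb.r r264 (@Lb.g g7 (@Lb.g g6 (@Lb.g g5 (@Lb.d (nat_lit 84) (nat_lit 1) (nat_lit 66) (@Lb.t (@Lb.fm (nat_lit 9) t2)))))))))))
noncomputable def l14351 : Lb := (@Lb.d (nat_lit 32) (nat_lit 550) (nat_lit 70) (@Lb.r r402 (@Lb.r r617 (@Lb.r r548 (@Lb.r r295 (@Lb.g g6 (@Lb.g g5 (@Lb.d (nat_lit 20) (nat_lit 17) (nat_lit 2) (@Lb.fm (nat_lit 3) t2)))))))))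
noncomputable def l14352 : Lb := (@Lb.d (nat_lit 0) (nat_lit 544) (nat_lit 64) (@Lb.r r545 (@Lb.r r299 (@Lb.r r424 (@Lb.r r106 (@Lb.g g7 (@Lb.g g5 (@Lb.d (nat_lit 0) (nat_lit 5) (nat_lit 0) (@Lb.fm (nat_lit 3) t2)))))))))
noncomputable def l14353 : Lb := (@Lb.d (nat_lit 145) (nat_lit 545) (nat_lit 133) (@Lb.r r545 (@Lb.r r331 (@Lb.r r264 (@Lb.r r106 (@Lb.g g7 (@Lb.g g5 (@Lb.d (nat_lit 64) (nat_lit 5) (nat_lit 128) (@Lb.fm (nat_lit 3) t2)))))))))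
noncomputable def l14354 : Lb := (@Lb.r r21 (@Lb.d (nat_lit 2) (nat_lit 0) (nat_lit 2) (@Lb.g g8 (@Lb.g g10 (@Lb.r r651 (@Lb.r r2634 (@Lb.r r2596 (@Lb.r r37 (@Lb.d (nat_lit 5) (nat_lit 104) (nat_lit 417) (@Lb.fm (nat_lit 3) t820))))))))))
noncomputable def l14355 : Lb := (@Lb.d (nat_lit 290) (nat_lit 258) (nat_lit 16) (@Lb.r r24 (@Lb.r r2138 (@Lb.r r2331 (@Lb.g g9 (@Lb.d (nat_lit 8) (nat_lit 2) (nat_lit 0) (@Lb.t (@Lb.fm (nat_lit 3) t8))))))))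
noncomputable def l14356 : Lb := (@Lb.r r2311 (@Lb.r r2118 (@Lb.r r24 (@Lb.r r101 (@Lb.d (nat_lit 0) (nat_lit 522) (nat_lit 18) (@Lb.fp (nat_lit 1) t3059))))))
noncomputable def l14357 : Lb := (@Lb.d (nat_lit 521) (nat_lit 581) (nat_lit 33) (@Lb.r r1321 (@Lb.r r599 (@Lb.r r264 (@Lb.r r2434 (@Lb.g g7 (@Lb.d (nat_lit 64) (nat_lit 0) (nat_lit 64) (@Lb.t (@Lb.fm (nat_lit 3) t3060)))))))))
noncomputable def l14358 : Lb := (@Lb.r r323 (@Lb.d (nat_lit 0) (nat_lit 514) (nat_lit 1) (@Lb.g g9 (@Lb.g g6 (@Lb.r r579 (@Lb.r r97 (@Lb.d (nat_lit 534) (nat_lit 10) (nat_lit 38) (@Lb.fp (nat_lit 3) t3061))))))))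
noncomputable def l14359 : Lb := (@Lb.d (nat_lit 0) (nat_lit 512) (nat_lit 2) (@Lb.g g10 (@Lb.g g7 (@Lb.r r1418 (@Lb.d (nat_lit 674) (nat_lit 0) (nat_lit 281) (@Lb.fm (nat_lit 3) t3062))))))
noncomputable def l14360 : Lb := (@Lb.d (nat_lit 89) (nat_lit 550) (nat_lit 102) (@Lb.r r359 (@Lb.r r532 (@Lb.r r1369 (@Lb.g g7 (@Lb.g g6 (@Lb.d (nat_lit 64) (nat_lit 8) (nat_lit 97) (@Lb.fm (nat_lit 3) t406))))))))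
noncomputable def l14361 : Lb := (@Lb.d (nat_lit 0) (nat_lit 0) (nat_lit 130) (@Lb.g g8 (@Lb.g g9 (@Lb.g g10 (@Lb.g g11 (@Lb.r r2731 (@Lb.r r2601 (@Lb.r r616 (@Lb.r r2118 (@Lb.r r1156 (@Lb.d (nat_lit 9) (nat_lit 153) (nat_lit 425) (@Lb.fm (nat_lit 9) t851))))))))))))
noncomputable def l14362 : Lb := (@Lb.r r2311 (@Lb.r r2118 (@Lb.r r24 (@Lb.d (nat_lit 266) (nat_lit 9) (nat_lit 2) (@Lb.fm (nat_lit 1) t3063)))))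
noncomputable def l14363 : Lb := (@Lb.d (nat_lit 129) (nat_lit 256) (nat_lit 0) (@Lb.g g8 (@Lb.g g9 (@Lb.r r2473 (@Lb.r r599 (@Lb.r r2178 (@Lb.r r292 (@Lb.d (nat_lit 74) (nat_lit 41) (nat_lit 338) (@Lb.fp (nat_lit 3) t124)))))))))
noncomputable def l14364 : Lb := (@Lb.d (nat_lit 9) (nat_lit 2) (nat_lit 130) (@Lb.g g8 (@Lb.g g9 (@Lb.g g10 (@Lb.g g11 (@Lb.r r2391 (@Lb.r r2390 (@Lb.r r2145 (@Lb.r r24 (@Lb.d (nat_lit 617) (nat_lit 73) (nat_lit 585) (@Lb.fp (nat_lit 9) t277)))))))))))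
noncomputable def l14365 : Lb := (@Lb.d (nat_lit 1) (nat_lit 96) (nat_lit 384) (@Lb.r r21 (@Lb.r r579 (@Lb.r r2454 (@Lb.g g7 (@Lb.g g5 (@Lb.g g4 (@Lb.d (nat_lit 529) (nat_lit 1) (nat_lit 0) (@Lb.r r74 (@Lb.t (@Lb.fp (nat_lit 9) t42)))))))))))
noncomputable def l14366 : Lb := (@Lb.r r323 (@Lb.d (nat_lit 9) (nat_lit 2) (nat_lit 1) (@Lb.g g8 (@Lb.g g9 (@Lb.g g6 (@Lb.r r579 (@Lb.r r2145 (@Lb.r r24 (@Lb.d (nat_lit 536) (nat_lit 73) (nat_lit 22) (@Lb.t (@Lb.fm (nat_lit 9) t40)))))))))))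
noncomputable def l14367 : Lb := (@Lb.d (nat_lit 8) (nat_lit 34) (nat_lit 0) (@Lb.g g5 (@Lb.r r1323 (@Lb.r r2178 (@Lb.r r2408 (@Lb.r r2473 (@Lb.d (nat_lit 617) (nat_lit 41) (nat_lit 353) (@Lb.t (@Lb.fp (nat_lit 3) t124)))))))))
noncomputable def l14368 : Lb := (@Lb.d (nat_lit 101) (nat_lit 98) (nat_lit 84) (@Lb.r r2178 (@Lb.r r2471 (@Lb.r r532 (@Lb.g g7 (@Lb.g g5 (@Lb.d (nat_lit 64) (nat_lit 72) (nat_lit 128) (@Lb.fp (nat_lit 3) t124))))))))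
noncomputable def l14369 : Lb := (@Lb.d (nat_lit 4) (nat_lit 256) (nat_lit 66) (@Lb.g g8 (@Lb.g g9 (@Lb.g g10 (@Lb.g g7 (@Lb.r r386 (@Lb.r r25 (@Lb.d (nat_lit 9) (nat_lit 66) (nat_lit 26) (@Lb.fp (nat_lit 9) t2)))))))))
noncomputable def l14370 : Lb := (@Lb.d (nat_lit 536) (nat_lit 516) (nat_lit 36) (@Lb.r r2145 (@Lb.r r386 (@Lb.g g11 (@Lb.g g6 (@Lb.g g4 (@Lb.d (nat_lit 1) (nat_lit 0) (nat_lit 129) (@Lb.t (@Lb.fm (nat_lit 9) t125)))))))))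
noncomputable def l14371 : Lb := (@Lb.d (nat_lit 32) (nat_lit 256) (nat_lit 128) (@Lb.g g10 (@Lb.g g11 (@Lb.r r2711 (@Lb.r r1384 (@Lb.r r361 (@Lb.r r1622 (@Lb.d (nat_lit 5) (nat_lit 165) (nat_lit 544) (@Lb.fp (nat_lit 3) t386)))))))))
noncomputable def l14372 : Lb := (@Lb.d (nat_lit 678) (nat_lit 21) (nat_lit 356) (@Lb.r r1624 (@Lb.r r1627 (@Lb.r r273 (@Lb.g g7 (@Lb.g g10 (@Lb.g g4 (@Lb.d (nat_lit 18) (nat_lit 0) (nat_lit 66) (@Lb.r r25 (@Lb.t (@Lb.fm (nat_lit 9) t240)))))))))))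
noncomputable def l14373 : Lb := (@Lb.d (nat_lit 649) (nat_lit 289) (nat_lit 134) (@Lb.r r2596 (@Lb.r r2405 (@Lb.r r2198 (@Lb.r r1307 (@Lb.g g5 (@Lb.g g4 (@Lb.d (nat_lit 25) (nat_lit 0) (nat_lit 0) (@Lb.r r98 (@Lb.fm (nat_lit 3) t981))))))))))
noncomputable def l14374 : Lb := (@Lb.d (nat_lit 0) (nat_lit 10) (nat_lit 66) (@Lb.r r20 (@Lb.r r2145 (@Lb.r r402 (@Lb.r r579 (@Lb.g g6 (@Lb.t (@Lb.fp (nat_lit 3) t758))))))))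
noncomputable def l14375 : Lb := (@Lb.r r101 (@Lb.d (nat_lit 24) (nat_lit 521) (nat_lit 0) (@Lb.fm (nat_lit 1) t87)))
noncomputable def l14376 : Lb := (@Lb.d (nat_lit 520) (nat_lit 322) (nat_lit 0) (@Lb.r r24 (@Lb.r r2138 (@Lb.r r2331 (@Lb.g g5 (@Lb.d (nat_lit 0) (nat_lit 129) (nat_lit 0) (@Lb.t (@Lb.fp (nat_lit 3) t264))))))))
noncomputable def l14377 : Lb := (@Lb.r r82 (@Lb.r r275 (@Lb.d (nat_lit 2) (nat_lit 257) (nat_lit 0) (@Lb.g g8 (@Lb.g g5 (@Lb.r r2315 (@Lb.r r2122 (@Lb.d (nat_lit 257) (nat_lit 129) (nat_lit 0) (@Lb.fp (nat_lit 3) t264)))))))))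
noncomputable def l14378 : Lb := (@Lb.r r21 (@Lb.r r70 (@Lb.d (nat_lit 2) (nat_lit 512) (nat_lit 128) (@Lb.g g8 (@Lb.g g11 (@Lb.r r2635 (@Lb.r r402 (@Lb.r r97 (@Lb.r r2068 (@Lb.d (nat_lit 578) (nat_lit 98) (nat_lit 512) (@Lb.fp (nat_lit 3) t1515)))))))))))
noncomputable def l14379 : Lb := (@Lb.d (nat_lit 260) (nat_lit 514) (nat_lit 256) (@Lb.r r97 (@Lb.r r402 (@Lb.r r2311 (@Lb.g g8 (@Lb.d (nat_lit 401) (nat_lit 0) (nat_lit 0) (@Lb.r r74 (@Lb.r r25 (@Lb.t (@Lb.fp (nat_lit 3) t3064))))))))))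
noncomputable def l14380 : Lb := (@Lb.d (nat_lit 2) (nat_lit 514) (nat_lit 2) (@Lb.g g8 (@Lb.g g9 (@Lb.g g10 (@Lb.g g11 (@Lb.r r1706 (@Lb.r r676 (@Lb.r r551 (@Lb.r r1557 (@Lb.r r1060 (@Lb.d (nat_lit 644) (nat_lit 64) (nat_lit 330) (@Lb.fp (nat_lit 9) t284))))))))))))
noncomputable def l14381 : Lb := (@Lb.d (nat_lit 8) (nat_lit 2) (nat_lit 130) (@Lb.g g9 (@Lb.g g10 (@Lb.g g11 (@Lb.r r614 (@Lb.r r404 (@Lb.r r1371 (@Lb.r r2705 (@Lb.d (nat_lit 2) (nat_lit 98) (nat_lit 296) (@Lb.t (@Lb.fm (nat_lit 9) t71)))))))))))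
noncomputable def l14382 : Lb := (@Lb.d (nat_lit 0) (nat_lit 512) (nat_lit 128) (@Lb.g g5 (@Lb.g g11 (@Lb.d (nat_lit 1) (nat_lit 0) (nat_lit 64) (@Lb.fp (nat_lit 3) t2)))))
noncomputable def l14383 : Lb := (@Lb.d (nat_lit 0) (nat_lit 512) (nat_lit 2) (@Lb.g g10 (@Lb.g g11 (@Lb.r r386 (@Lb.r r101 (@Lb.r r24 (@Lb.d (nat_lit 352) (nat_lit 0) (nat_lit 521) (@Lb.fp (nat_lit 3) t1150))))))))
noncomputable def l14384 : Lb := (@Lb.d (nat_lit 262) (nat_lit 422) (nat_lit 534) (@Lb.r r2069 (@Lb.r r2390 (@Lb.r r2731 (@Lb.g g6 (@Lb.g g5 (@Lb.g g4 (@Lb.d (nat_lit 8) (nat_lit 1) (nat_lit 0) (@Lb.t (@Lb.fm (nat_lit 9) t154))))))))))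
noncomputable def l14385 : Lb := (@Lb.d (nat_lit 0) (nat_lit 0) (nat_lit 128) (@Lb.g g5 (@Lb.g g11 (@Lb.d (nat_lit 0) (nat_lit 0) (nat_lit 64) (@Lb.fp (nat_lit 3) t2)))))
noncomputable def l14386 : Lb := (@Lb.d (nat_lit 70) (nat_lit 608) (nat_lit 70) (@Lb.r r1621 (@Lb.r r2340 (@Lb.r r2651 (@Lb.g g6 (@Lb.g g5 (@Lb.d (nat_lit 4) (nat_lit 18) (nat_lit 33) (@Lb.r r387 (@Lb.fp (nat_lit 3) t3019)))))))))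
noncomputable def l14387 : Lb := (@Lb.d (nat_lit 6) (nat_lit 133) (nat_lit 420) (@Lb.r r21 (@Lb.r r342 (@Lb.r r1643 (@Lb.g g7 (@Lb.g g6 (@Lb.g g5 (@Lb.g g4 (@Lb.d (nat_lit 8) (nat_lit 0) (nat_lit 133) (@Lb.fm (nat_lit 9) t42))))))))))
noncomputable def l14388 : Lb := (@Lb.d (nat_lit 2) (nat_lit 258) (nat_lit 73) (@Lb.g g8 (@Lb.g g9 (@Lb.g g10 (@Lb.g g11 (@Lb.r r2459 (@Lb.r r297 (@Lb.r r1348 (@Lb.r r2666 (@Lb.d (nat_lit 665) (nat_lit 150) (nat_lit 136) (@Lb.fm (nat_lit 9) t91)))))))))))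
noncomputable def l14389 : Lb := (@Lb.d (nat_lit 1) (nat_lit 38) (nat_lit 534) (@Lb.r r338 (@Lb.r r1699 (@Lb.g g6 (@Lb.g g5 (@Lb.d (nat_lit 0) (nat_lit 130) (nat_lit 0) (@Lb.r r36 (@Lb.fp (nat_lit 3) t154))))))))
noncomputable def l14390 : Lb := (@Lb.d (nat_lit 0) (nat_lit 256) (nat_lit 128) (@Lb.g g8 (@Lb.g g5 (@Lb.g g11 (@Lb.d (nat_lit 0) (nat_lit 0) (nat_lit 64) (@Lb.t (@Lb.fp (nat_lit 9) t2)))))))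
noncomputable def l14391 : Lb := (@Lb.r r323 (@Lb.d (nat_lit 130) (nat_lit 516) (nat_lit 0) (@Lb.g g8 (@Lb.g g9 (@Lb.g g10 (@Lb.r r599 (@Lb.r r98 (@Lb.r r97 (@Lb.r r2312 (@Lb.d (nat_lit 386) (nat_lit 138) (nat_lit 673) (@Lb.t (@Lb.fp (nat_lit 9) t2060))))))))))))
noncomputable def l14392 : Lb := (@Lb.d (nat_lit 2) (nat_lit 258) (nat_lit 130) (@Lb.g g8 (@Lb.g g9 (@Lb.g g10 (@Lb.g g11 (@Lb.r r427 (@Lb.r r424 (@Lb.r r106 (@Lb.r r97 (@Lb.d (nat_lit 296) (nat_lit 9) (nat_lit 168) (@Lb.fp (nat_lit 9) t3056)))))))))))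
noncomputable def l14393 : Lb := (@Lb.d (nat_lit 0) (nat_lit 516) (nat_lit 74) (@Lb.g g8 (@Lb.g g9 (@Lb.g g10 (@Lb.g g11 (@Lb.r r2643 (@Lb.r r678 (@Lb.r r104 (@Lb.r r25 (@Lb.d (nat_lit 130) (nat_lit 1) (nat_lit 256) (@Lb.fm (nat_lit 9) t47)))))))))))
noncomputable def l14394 : Lb := (@Lb.d (nat_lit 8) (nat_lit 512) (nat_lit 66) (@Lb.g g9 (@Lb.g g10 (@Lb.g g11 (@Lb.r r344 (@Lb.r r1415 (@Lb.r r2438 (@Lb.r r2705 (@Lb.d (nat_lit 162) (nat_lit 160) (nat_lit 577) (@Lb.t (@Lb.fm (nat_lit 9) t3065)))))))))))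
noncomputable def l14395 : Lb := (@Lb.d (nat_lit 4) (nat_lit 512) (nat_lit 0) (@Lb.g g8 (@Lb.g g9 (@Lb.r r40 (@Lb.r r105 (@Lb.r r1060 (@Lb.d (nat_lit 258) (nat_lit 136) (nat_lit 18) (@Lb.fm (nat_lit 3) t253))))))))
noncomputable def l14396 : Lb := (@Lb.r r82 (@Lb.r r275 (@Lb.d (nat_lit 2) (nat_lit 258) (nat_lit 0) (@Lb.g g8 (@Lb.g g9 (@Lb.r r281 (@Lb.r r291 (@Lb.r r98 (@Lb.d (nat_lit 128) (nat_lit 165) (nat_lit 96) (@Lb.fm (nat_lit 3) t7))))))))))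
noncomputable def l14397 : Lb := (@Lb.d (nat_lit 4) (nat_lit 256) (nat_lit 73) (@Lb.g g8 (@Lb.g g9 (@Lb.g g10 (@Lb.g g11 (@Lb.r r1706 (@Lb.r r648 (@Lb.r r1563 (@Lb.r r2337 (@Lb.r r36 (@Lb.d (nat_lit 641) (nat_lit 98) (nat_lit 64) (@Lb.fp (nat_lit 9) t242))))))))))))
noncomputable def l14398 : Lb := (@Lb.d (nat_lit 4) (nat_lit 512) (nat_lit 130) (@Lb.g g8 (@Lb.g g9 (@Lb.g g10 (@Lb.g g11 (@Lb.r r1706 (@Lb.r r648 (@Lb.r r1563 (@Lb.r r2337 (@Lb.r r36 (@Lb.d (nat_lit 642) (nat_lit 98) (nat_lit 64) (@Lb.fp (nat_lit 9) t242))))))))))))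
noncomputable def l14399 : Lb := (@Lb.r r82 (@Lb.d (nat_lit 2) (nat_lit 290) (nat_lit 64) (@Lb.g g8 (@Lb.g g9 (@Lb.g g11 (@Lb.r r537 (@Lb.r r531 (@Lb.r r98 (@Lb.d (nat_lit 128) (nat_lit 148) (nat_lit 101) (@Lb.t (@Lb.fp (nat_lit 9) t7)))))))))))
noncomputable def l14400 : Lb := (@Lb.d (nat_lit 6) (nat_lit 2) (nat_lit 130) (@Lb.g g8 (@Lb.g g9 (@Lb.g g10 (@Lb.g g11 (@Lb.r r2691 (@Lb.r r2341 (@Lb.r r660 (@Lb.r r582 (@Lb.r r2180 (@Lb.d (nat_lit 641) (nat_lit 5) (nat_lit 88) (@Lb.fp (nat_lit 9) t242))))))))))))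
noncomputable def l14401 : Lb := (@Lb.g g8 (@Lb.r r2196 (@Lb.d (nat_lit 0) (nat_lit 640) (nat_lit 16) (@Lb.t (@Lb.fp (nat_lit 3) t2918)))))
noncomputable def l14402 : Lb := (@Lb.d (nat_lit 4) (nat_lit 256) (nat_lit 130) (@Lb.g g8 (@Lb.g g9 (@Lb.g g10 (@Lb.g g11 (@Lb.r r1706 (@Lb.r r648 (@Lb.r r1563 (@Lb.r r2337 (@Lb.r r36 (@Lb.d (nat_lit 641) (nat_lit 105) (nat_lit 66) (@Lb.fp (nat_lit 9) t242))))))))))))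
noncomputable def l14403 : Lb := (@Lb.r r82 (@Lb.d (nat_lit 5) (nat_lit 289) (nat_lit 64) (@Lb.g g4 (@Lb.g g9 (@Lb.g g11 (@Lb.r r1635 (@Lb.r r2454 (@Lb.r r1621 (@Lb.d (nat_lit 546) (nat_lit 168) (nat_lit 665) (@Lb.t (@Lb.fp (nat_lit 9) t218)))))))))))
noncomputable def l14404 : Lb := (@Lb.d (nat_lit 17) (nat_lit 642) (nat_lit 162) (@Lb.r r169 (@Lb.r r100 (@Lb.r r323 (@Lb.g g10 (@Lb.g g5 (@Lb.d (nat_lit 4) (nat_lit 0) (nat_lit 2) (@Lb.r r387 (@Lb.fm (nat_lit 3) t74)))))))))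
noncomputable def l14405 : Lb := (@Lb.d (nat_lit 0) (nat_lit 0) (nat_lit 130) (@Lb.g g9 (@Lb.g g10 (@Lb.g g11 (@Lb.r r419 (@Lb.r r98 (@Lb.d (nat_lit 0) (nat_lit 168) (nat_lit 258) (@Lb.t (@Lb.fm (nat_lit 9) t369)))))))))
noncomputable def l14406 : Lb := (@Lb.d (nat_lit 2) (nat_lit 260) (nat_lit 128) (@Lb.g g8 (@Lb.g g9 (@Lb.g g10 (@Lb.g g11 (@Lb.r r427 (@Lb.r r388 (@Lb.r r70 (@Lb.r r153 (@Lb.r r132 (@Lb.d (nat_lit 10) (nat_lit 130) (nat_lit 137) (@Lb.fp (nat_lit 9) t1067))))))))))))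
noncomputable def l14407 : Lb := (@Lb.d (nat_lit 2) (nat_lit 516) (nat_lit 128) (@Lb.g g8 (@Lb.g g9 (@Lb.g g10 (@Lb.g g11 (@Lb.r r427 (@Lb.r r145 (@Lb.r r1384 (@Lb.r r2198 (@Lb.d (nat_lit 546) (nat_lit 137) (nat_lit 136) (@Lb.fp (nat_lit 9) t390)))))))))))
noncomputable def l14408 : Lb := (@Lb.d (nat_lit 2) (nat_lit 18) (nat_lit 133) (@Lb.r r579 (@Lb.r r338 (@Lb.g g7 (@Lb.g g6 (@Lb.g g5 (@Lb.g g8 (@Lb.d (nat_lit 2) (nat_lit 129) (nat_lit 133) (@Lb.fp (nat_lit 9) t126)))))))))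
noncomputable def l14409 : Lb := (@Lb.d (nat_lit 9) (nat_lit 0) (nat_lit 128) (@Lb.g g8 (@Lb.g g10 (@Lb.g g11 (@Lb.r r353 (@Lb.r r663 (@Lb.r r328 (@Lb.r r134 (@Lb.d (nat_lit 41) (nat_lit 4) (nat_lit 144) (@Lb.t (@Lb.fm (nat_lit 9) t40)))))))))))
noncomputable def l14410 : Lb := (@Lb.d (nat_lit 5) (nat_lit 646) (nat_lit 86) (@Lb.r r597 (@Lb.r r2730 (@Lb.r r2468 (@Lb.g g11 (@Lb.g g6 (@Lb.g g5 (@Lb.d (nat_lit 4) (nat_lit 1) (nat_lit 5) (@Lb.t (@Lb.fp (nat_lit 9) t61))))))))))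
noncomputable def l14411 : Lb := (@Lb.r r323 (@Lb.d (nat_lit 10) (nat_lit 514) (nat_lit 10) (@Lb.g g4 (@Lb.g g9 (@Lb.g g10 (@Lb.r r595 (@Lb.r r338 (@Lb.d (nat_lit 0) (nat_lit 4) (nat_lit 136) (@Lb.t (@Lb.fm (nat_lit 9) t51))))))))))
noncomputable def l14412 : Lb := (@Lb.r r323 (@Lb.d (nat_lit 1) (nat_lit 514) (nat_lit 1) (@Lb.g g8 (@Lb.g g9 (@Lb.g g6 (@Lb.r r387 (@Lb.r r97 (@Lb.r r24 (@Lb.d (nat_lit 5) (nat_lit 8) (nat_lit 2) (@Lb.t (@Lb.fp (nat_lit 9) t40)))))))))))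
noncomputable def l14413 : Lb := (@Lb.d (nat_lit 1) (nat_lit 2) (nat_lit 130) (@Lb.g g8 (@Lb.g g9 (@Lb.g g10 (@Lb.g g11 (@Lb.r r610 (@Lb.r r612 (@Lb.r r359 (@Lb.r r277 (@Lb.r r548 (@Lb.d (nat_lit 9) (nat_lit 9) (nat_lit 66) (@Lb.fp (nat_lit 9) t145))))))))))))
noncomputable def l14414 : Lb := (@Lb.d (nat_lit 1) (nat_lit 258) (nat_lit 66) (@Lb.g g8 (@Lb.g g9 (@Lb.g g10 (@Lb.g g7 (@Lb.r r386 (@Lb.r r97 (@Lb.r r24 (@Lb.d (nat_lit 5) (nat_lit 8) (nat_lit 9) (@Lb.fp (nat_lit 9) t40))))))))))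
noncomputable def l14415 : Lb := (@Lb.d (nat_lit 38) (nat_lit 514) (nat_lit 72) (@Lb.g g8 (@Lb.g g9 (@Lb.g g10 (@Lb.g g11 (@Lb.r r1707 (@Lb.r r358 (@Lb.r r552 (@Lb.r r1065 (@Lb.r r36 (@Lb.d (nat_lit 337) (nat_lit 162) (nat_lit 145) (@Lb.fm (nat_lit 9) t50))))))))))))
noncomputable def l14416 : Lb := (@Lb.r r82 (@Lb.d (nat_lit 34) (nat_lit 545) (nat_lit 64) (@Lb.g g8 (@Lb.g g9 (@Lb.g g11 (@Lb.r r1571 (@Lb.r r582 (@Lb.r r273 (@Lb.r r2180 (@Lb.d (nat_lit 546) (nat_lit 33) (nat_lit 402) (@Lb.t (@Lb.fp (nat_lit 9) t125))))))))))))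
noncomputable def l14417 : Lb := (@Lb.r r2331 (@Lb.r r24 (@Lb.d (nat_lit 74) (nat_lit 322) (nat_lit 512) (@Lb.fm (nat_lit 1) t1165))))
noncomputable def l14418 : Lb := (@Lb.r r2331 (@Lb.r r24 (@Lb.d (nat_lit 64) (nat_lit 64) (nat_lit 512) (@Lb.fm (nat_lit 1) t1165))))
noncomputable def l14419 : Lb := (@Lb.r r21 (@Lb.r r323 (@Lb.d (nat_lit 129) (nat_lit 516) (nat_lit 2) (@Lb.g g8 (@Lb.g g10 (@Lb.r r2631 (@Lb.r r145 (@Lb.r r1432 (@Lb.d (nat_lit 661) (nat_lit 42) (nat_lit 660) (@Lb.fm (nat_lit 3) t51))))))))))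
noncomputable def l14420 : Lb := (@Lb.d (nat_lit 38) (nat_lit 2) (nat_lit 72) (@Lb.g g8 (@Lb.g g9 (@Lb.g g10 (@Lb.g g11 (@Lb.r r1707 (@Lb.r r358 (@Lb.r r552 (@Lb.r r1065 (@Lb.r r36 (@Lb.d (nat_lit 337) (nat_lit 169) (nat_lit 144) (@Lb.fm (nat_lit 9) t50))))))))))))
noncomputable def l14421 : Lb := (@Lb.d (nat_lit 2) (nat_lit 550) (nat_lit 64) (@Lb.g g8 (@Lb.g g9 (@Lb.g g10 (@Lb.g g11 (@Lb.r r1706 (@Lb.r r168 (@Lb.r r1577 (@Lb.r r1315 (@Lb.r r2084 (@Lb.d (nat_lit 586) (nat_lit 65) (nat_lit 74) (@Lb.fm (nat_lit 9) t125))))))))))))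
noncomputable def l14422 : Lb := (@Lb.d (nat_lit 129) (nat_lit 512) (nat_lit 0) (@Lb.g g8 (@Lb.r r394 (@Lb.r r599 (@Lb.r r289 (@Lb.r r152 (@Lb.d (nat_lit 26) (nat_lit 69) (nat_lit 1) (@Lb.t (@Lb.fp (nat_lit 3) t51)))))))))
noncomputable def l14423 : Lb := (@Lb.r r323 (@Lb.d (nat_lit 2) (nat_lit 260) (nat_lit 0) (@Lb.g g8 (@Lb.g g9 (@Lb.g g10 (@Lb.r r362 (@Lb.r r387 (@Lb.r r25 (@Lb.d (nat_lit 2) (nat_lit 34) (nat_lit 74) (@Lb.t (@Lb.fm (nat_lit 9) t238)))))))))))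
noncomputable def l14424 : Lb := (@Lb.d (nat_lit 278) (nat_lit 608) (nat_lit 150) (@Lb.r r2116 (@Lb.r r1178 (@Lb.r r2385 (@Lb.g g7 (@Lb.g g6 (@Lb.g g4 (@Lb.d (nat_lit 5) (nat_lit 32) (nat_lit 321) (@Lb.t (@Lb.fm (nat_lit 9) t152))))))))))
noncomputable def l14425 : Lb := (@Lb.d (nat_lit 130) (nat_lit 512) (nat_lit 0) (@Lb.g g4 (@Lb.r r682 (@Lb.r r665 (@Lb.r r1435 (@Lb.r r1428 (@Lb.d (nat_lit 665) (nat_lit 104) (nat_lit 426) (@Lb.t (@Lb.fp (nat_lit 3) t71)))))))))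
noncomputable def l14426 : Lb := (@Lb.d (nat_lit 128) (nat_lit 1) (nat_lit 0) (@Lb.g g8 (@Lb.g g9 (@Lb.r r662 (@Lb.r r361 (@Lb.r r1431 (@Lb.r r2664 (@Lb.d (nat_lit 358) (nat_lit 17) (nat_lit 640) (@Lb.fp (nat_lit 3) t71)))))))))
noncomputable def l14427 : Lb := (@Lb.d (nat_lit 130) (nat_lit 256) (nat_lit 0) (@Lb.g g4 (@Lb.r r682 (@Lb.r r665 (@Lb.r r1435 (@Lb.r r1428 (@Lb.d (nat_lit 660) (nat_lit 101) (nat_lit 425) (@Lb.t (@Lb.fp (nat_lit 3) t71)))))))))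
noncomputable def l14428 : Lb := (@Lb.d (nat_lit 0) (nat_lit 32) (nat_lit 64) (@Lb.g g8 (@Lb.g g11 (@Lb.r r166 (@Lb.r r149 (@Lb.r r360 (@Lb.r r2567 (@Lb.d (nat_lit 641) (nat_lit 24) (nat_lit 386) (@Lb.fp (nat_lit 3) t71)))))))))
noncomputable def l14429 : Lb := (@Lb.d (nat_lit 130) (nat_lit 0) (nat_lit 0) (@Lb.g g4 (@Lb.r r682 (@Lb.r r665 (@Lb.r r1435 (@Lb.r r1428 (@Lb.d (nat_lit 665) (nat_lit 102) (nat_lit 425) (@Lb.t (@Lb.fp (nat_lit 3) t71)))))))))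
noncomputable def l14430 : Lb := (@Lb.r r2145 (@Lb.r r402 (@Lb.r r579 (@Lb.r r2564 (@Lb.d (nat_lit 2) (nat_lit 256) (nat_lit 0) (@Lb.fm (nat_lit 1) t242))))))
noncomputable def l14431 : Lb := (@Lb.r r337 (@Lb.r r2723 (@Lb.r r1682 (@Lb.r r2129 (@Lb.r r2564 (@Lb.d (nat_lit 0) (nat_lit 128) (nat_lit 256) (@Lb.fp (nat_lit 1) t242)))))))
noncomputable def l14432 : Lb := (@Lb.r r2145 (@Lb.r r402 (@Lb.r r579 (@Lb.r r2564 (@Lb.d (nat_lit 2) (nat_lit 512) (nat_lit 138) (@Lb.fm (nat_lit 1) t242))))))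
noncomputable def l14433 : Lb := (@Lb.g g7 (@Lb.r r2145 (@Lb.r r402 (@Lb.r r579 (@Lb.r r2564 (@Lb.d (nat_lit 2) (nat_lit 256) (nat_lit 0) (@Lb.t (@Lb.fp (nat_lit 3) t242))))))))
noncomputable def l14434 : Lb := (@Lb.d (nat_lit 10) (nat_lit 640) (nat_lit 168) (@Lb.r r20 (@Lb.r r1362 (@Lb.r r2467 (@Lb.r r2337 (@Lb.g g7 (@Lb.d (nat_lit 0) (nat_lit 16) (nat_lit 128) (@Lb.t (@Lb.fp (nat_lit 3) t98)))))))))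
noncomputable def l14435 : Lb := (@Lb.d (nat_lit 128) (nat_lit 512) (nat_lit 64) (@Lb.g g11 (@Lb.r r1622 (@Lb.r r20 (@Lb.r r409 (@Lb.r r2663 (@Lb.d (nat_lit 665) (nat_lit 21) (nat_lit 681) (@Lb.t (@Lb.fm (nat_lit 3) t242)))))))))
noncomputable def l14436 : Lb := (@Lb.d (nat_lit 0) (nat_lit 0) (nat_lit 74) (@Lb.g g10 (@Lb.g g11 (@Lb.r r2707 (@Lb.r r2626 (@Lb.d (nat_lit 0) (nat_lit 152) (nat_lit 297) (@Lb.fp (nat_lit 3) t51)))))))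
noncomputable def l14437 : Lb := (@Lb.d (nat_lit 2) (nat_lit 16) (nat_lit 585) (@Lb.g g8 (@Lb.g g9 (@Lb.g g10 (@Lb.g g7 (@Lb.r r386 (@Lb.r r1121 (@Lb.d (nat_lit 9) (nat_lit 73) (nat_lit 25) (@Lb.fm (nat_lit 9) t2297)))))))))
noncomputable def l14438 : Lb := (@Lb.d (nat_lit 2) (nat_lit 256) (nat_lit 0) (@Lb.g g8 (@Lb.r r101 (@Lb.r r402 (@Lb.r r579 (@Lb.d (nat_lit 64) (nat_lit 0) (nat_lit 0) (@Lb.t (@Lb.fm (nat_lit 3) t242))))))))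
noncomputable def l14439 : Lb := (@Lb.d (nat_lit 5) (nat_lit 514) (nat_lit 74) (@Lb.g g4 (@Lb.g g9 (@Lb.g g10 (@Lb.g g11 (@Lb.r r1703 (@Lb.r r1681 (@Lb.r r2194 (@Lb.d (nat_lit 73) (nat_lit 137) (nat_lit 393) (@Lb.fm (nat_lit 9) t61))))))))))
noncomputable def l14440 : Lb := (@Lb.r r82 (@Lb.d (nat_lit 2) (nat_lit 266) (nat_lit 0) (@Lb.g g8 (@Lb.g g9 (@Lb.r r2723 (@Lb.r r1430 (@Lb.r r2645 (@Lb.d (nat_lit 4) (nat_lit 102) (nat_lit 297) (@Lb.fm (nat_lit 3) t98)))))))))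
noncomputable def l14441 : Lb := (@Lb.d (nat_lit 2) (nat_lit 530) (nat_lit 74) (@Lb.g g8 (@Lb.g g5 (@Lb.g g10 (@Lb.g g11 (@Lb.r r1419 (@Lb.r r104 (@Lb.r r70 (@Lb.r r2180 (@Lb.d (nat_lit 153) (nat_lit 25) (nat_lit 665) (@Lb.fp (nat_lit 9) t50)))))))))))
noncomputable def l14442 : Lb := (@Lb.d (nat_lit 2) (nat_lit 288) (nat_lit 64) (@Lb.g g8 (@Lb.g g11 (@Lb.r r618 (@Lb.r r401 (@Lb.r r615 (@Lb.d (nat_lit 26) (nat_lit 149) (nat_lit 265) (@Lb.fp (nat_lit 3) t242))))))))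
noncomputable def l14443 : Lb := (@Lb.d (nat_lit 0) (nat_lit 256) (nat_lit 130) (@Lb.g g8 (@Lb.g g9 (@Lb.g g10 (@Lb.g g11 (@Lb.r r153 (@Lb.r r90 (@Lb.r r1368 (@Lb.r r2727 (@Lb.r r2705 (@Lb.d (nat_lit 10) (nat_lit 129) (nat_lit 18) (@Lb.fp (nat_lit 9) t2))))))))))))
noncomputable def l14444 : Lb := (@Lb.d (nat_lit 1) (nat_lit 514) (nat_lit 130) (@Lb.g g8 (@Lb.g g9 (@Lb.g g10 (@Lb.g g11 (@Lb.r r2666 (@Lb.r r612 (@Lb.r r615 (@Lb.r r533 (@Lb.r r2084 (@Lb.d (nat_lit 649) (nat_lit 9) (nat_lit 258) (@Lb.fm (nat_lit 9) t145))))))))))))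
noncomputable def l14445 : Lb := (@Lb.d (nat_lit 0) (nat_lit 66) (nat_lit 130) (@Lb.g g4 (@Lb.g g9 (@Lb.g g10 (@Lb.g g11 (@Lb.r r419 (@Lb.r r98 (@Lb.d (nat_lit 0) (nat_lit 168) (nat_lit 386) (@Lb.fm (nat_lit 9) t51)))))))))
noncomputable def l14446 : Lb := (@Lb.d (nat_lit 534) (nat_lit 1) (nat_lit 86) (@Lb.r r20 (@Lb.r r2153 (@Lb.r r386 (@Lb.g g11 (@Lb.g g6 (@Lb.g g5 (@Lb.g g4 (@Lb.d (nat_lit 1) (nat_lit 1) (nat_lit 6) (@Lb.fm (nat_lit 9) t51))))))))))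
noncomputable def l14447 : Lb := (@Lb.r r2118 (@Lb.d (nat_lit 10) (nat_lit 513) (nat_lit 0) (@Lb.g g8 (@Lb.g g9 (@Lb.r r1065 (@Lb.r r1060 (@Lb.d (nat_lit 265) (nat_lit 130) (nat_lit 0) (@Lb.fp (nat_lit 3) t1221))))))))
noncomputable def l14448 : Lb := (@Lb.d (nat_lit 10) (nat_lit 512) (nat_lit 66) (@Lb.g g8 (@Lb.g g10 (@Lb.g g11 (@Lb.r r2138 (@Lb.r r1685 (@Lb.r r2455 (@Lb.r r1608 (@Lb.d (nat_lit 104) (nat_lit 2) (nat_lit 546) (@Lb.t (@Lb.fp (nat_lit 9) t282)))))))))))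
noncomputable def l14449 : Lb := (@Lb.d (nat_lit 74) (nat_lit 513) (nat_lit 74) (@Lb.g g8 (@Lb.g g9 (@Lb.g g10 (@Lb.g g11 (@Lb.r r2667 (@Lb.r r2626 (@Lb.r r2473 (@Lb.r r2468 (@Lb.d (nat_lit 616) (nat_lit 137) (nat_lit 678) (@Lb.fp (nat_lit 9) t5)))))))))))
noncomputable def l14450 : Lb := (@Lb.d (nat_lit 2) (nat_lit 288) (nat_lit 130) (@Lb.g g8 (@Lb.g g10 (@Lb.g g11 (@Lb.r r2122 (@Lb.r r360 (@Lb.r r281 (@Lb.r r2599 (@Lb.d (nat_lit 640) (nat_lit 89) (nat_lit 278) (@Lb.t (@Lb.fm (nat_lit 9) t71)))))))))))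
noncomputable def l14451 : Lb := (@Lb.d (nat_lit 2) (nat_lit 544) (nat_lit 130) (@Lb.g g8 (@Lb.g g10 (@Lb.g g11 (@Lb.r r2122 (@Lb.r r360 (@Lb.r r281 (@Lb.r r2599 (@Lb.d (nat_lit 650) (nat_lit 88) (nat_lit 278) (@Lb.t (@Lb.fm (nat_lit 9) t71)))))))))))
noncomputable def l14452 : Lb := (@Lb.d (nat_lit 257) (nat_lit 257) (nat_lit 0) (@Lb.r r24 (@Lb.r r2138 (@Lb.g g5 (@Lb.d (nat_lit 4) (nat_lit 1) (nat_lit 0) (@Lb.t (@Lb.fp (nat_lit 3) t1221)))))))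
noncomputable def l14453 : Lb := (@Lb.d (nat_lit 2) (nat_lit 9) (nat_lit 97) (@Lb.g g8 (@Lb.g g9 (@Lb.g g6 (@Lb.g g11 (@Lb.r r601 (@Lb.r r2323 (@Lb.r r2577 (@Lb.d (nat_lit 609) (nat_lit 129) (nat_lit 280) (@Lb.fm (nat_lit 9) t1849))))))))))
noncomputable def l14454 : Lb := (@Lb.r r21 (@Lb.d (nat_lit 33) (nat_lit 256) (nat_lit 129) (@Lb.g g8 (@Lb.g g10 (@Lb.g g11 (@Lb.r r1691 (@Lb.r r1561 (@Lb.r r1640 (@Lb.r r614 (@Lb.d (nat_lit 149) (nat_lit 72) (nat_lit 586) (@Lb.t (@Lb.fm (nat_lit 9) t264))))))))))))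
noncomputable def l14455 : Lb := (@Lb.r r21 (@Lb.d (nat_lit 33) (nat_lit 256) (nat_lit 72) (@Lb.g g8 (@Lb.g g10 (@Lb.g g11 (@Lb.r r1674 (@Lb.r r1637 (@Lb.r r1703 (@Lb.r r2372 (@Lb.d (nat_lit 601) (nat_lit 101) (nat_lit 618) (@Lb.t (@Lb.fp (nat_lit 9) t125))))))))))))
noncomputable def l14456 : Lb := (@Lb.d (nat_lit 5) (nat_lit 614) (nat_lit 6) (@Lb.r r673 (@Lb.r r683 (@Lb.r r612 (@Lb.r r90 (@Lb.g g6 (@Lb.g g5 (@Lb.d (nat_lit 4) (nat_lit 1) (nat_lit 1) (@Lb.r r387 (@Lb.fm (nat_lit 3) t594))))))))))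
noncomputable def l14457 : Lb := (@Lb.d (nat_lit 4) (nat_lit 522) (nat_lit 97) (@Lb.g g8 (@Lb.g g9 (@Lb.g g6 (@Lb.g g11 (@Lb.r r601 (@Lb.r r2323 (@Lb.r r2577 (@Lb.d (nat_lit 609) (nat_lit 129) (nat_lit 280) (@Lb.fm (nat_lit 9) t1849))))))))))
noncomputable def l14458 : Lb := (@Lb.d (nat_lit 8) (nat_lit 389) (nat_lit 0) (@Lb.g g8 (@Lb.g g5 (@Lb.r r24 (@Lb.d (nat_lit 9) (nat_lit 0) (nat_lit 1) (@Lb.fm (nat_lit 3) t319))))))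
noncomputable def l14459 : Lb := (@Lb.r r1319 (@Lb.r r1126 (@Lb.r r24 (@Lb.d (nat_lit 538) (nat_lit 261) (nat_lit 33) (@Lb.fm (nat_lit 1) t1941)))))
noncomputable def l14460 : Lb := (@Lb.d (nat_lit 6) (nat_lit 512) (nat_lit 130) (@Lb.g g8 (@Lb.g g9 (@Lb.g g10 (@Lb.g g11 (@Lb.r r582 (@Lb.r r388 (@Lb.r r1323 (@Lb.r r1313 (@Lb.d (nat_lit 2) (nat_lit 137) (nat_lit 258) (@Lb.fm (nat_lit 9) t51)))))))))))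
noncomputable def l14461 : Lb := (@Lb.d (nat_lit 0) (nat_lit 260) (nat_lit 64) (@Lb.g g8 (@Lb.g g9 (@Lb.g g10 (@Lb.g g7 (@Lb.r r386 (@Lb.r r97 (@Lb.d (nat_lit 5) (nat_lit 10) (nat_lit 9) (@Lb.fm (nat_lit 9) t607)))))))))
noncomputable def l14462 : Lb := (@Lb.r r21 (@Lb.d (nat_lit 146) (nat_lit 0) (nat_lit 5) (@Lb.g g8 (@Lb.g g10 (@Lb.g g11 (@Lb.r r1691 (@Lb.r r1689 (@Lb.r r1370 (@Lb.r r1156 (@Lb.d (nat_lit 297) (nat_lit 37) (nat_lit 406) (@Lb.t (@Lb.fp (nat_lit 9) t264))))))))))))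
noncomputable def l14463 : Lb := (@Lb.d (nat_lit 0) (nat_lit 516) (nat_lit 128) (@Lb.g g8 (@Lb.g g9 (@Lb.g g10 (@Lb.g g11 (@Lb.r r1367 (@Lb.r r386 (@Lb.r r1109 (@Lb.r r24 (@Lb.d (nat_lit 129) (nat_lit 130) (nat_lit 330) (@Lb.fp (nat_lit 9) t742)))))))))))
noncomputable def l14464 : Lb := (@Lb.g g10 (@Lb.r r579 (@Lb.r r402 (@Lb.r r2145 (@Lb.r r36 (@Lb.d (nat_lit 5) (nat_lit 1) (nat_lit 0) (@Lb.t (@Lb.fm (nat_lit 3) t940))))))))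
noncomputable def l14465 : Lb := (@Lb.d (nat_lit 2) (nat_lit 1) (nat_lit 0) (@Lb.g g8 (@Lb.g g9 (@Lb.r r2347 (@Lb.r r2154 (@Lb.r r1049 (@Lb.d (nat_lit 521) (nat_lit 129) (nat_lit 0) (@Lb.fm (nat_lit 3) t51))))))))
noncomputable def l14466 : Lb := (@Lb.r r20 (@Lb.r r2081 (@Lb.g g5 (@Lb.g g8 (@Lb.r r1315 (@Lb.r r1122 (@Lb.p (nat_lit 1) (@Lb.fm (nat_lit 3) t51))))))))
noncomputable def l14467 : Lb := (@Lb.d (nat_lit 34) (nat_lit 257) (nat_lit 128) (@Lb.g g8 (@Lb.g g9 (@Lb.g g11 (@Lb.r r342 (@Lb.r r387 (@Lb.r r2585 (@Lb.r r1556 (@Lb.d (nat_lit 133) (nat_lit 98) (nat_lit 105) (@Lb.t (@Lb.fm (nat_lit 9) t1558)))))))))))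
noncomputable def l14468 : Lb := (@Lb.d (nat_lit 0) (nat_lit 514) (nat_lit 130) (@Lb.g g9 (@Lb.g g10 (@Lb.g g11 (@Lb.r r586 (@Lb.r r584 (@Lb.r r1323 (@Lb.r r1433 (@Lb.d (nat_lit 272) (nat_lit 133) (nat_lit 274) (@Lb.t (@Lb.fp (nat_lit 9) t1233)))))))))))
noncomputable def l14469 : Lb := (@Lb.d (nat_lit 149) (nat_lit 0) (nat_lit 133) (@Lb.g g8 (@Lb.g g9 (@Lb.g g10 (@Lb.g g11 (@Lb.r r595 (@Lb.r r1177 (@Lb.r r1604 (@Lb.r r2218 (@Lb.d (nat_lit 69) (nat_lit 89) (nat_lit 645) (@Lb.fp (nat_lit 9) t1039)))))))))))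
noncomputable def l14470 : Lb := (@Lb.r r82 (@Lb.d (nat_lit 2) (nat_lit 258) (nat_lit 128) (@Lb.g g8 (@Lb.g g9 (@Lb.g g11 (@Lb.r r2649 (@Lb.r r595 (@Lb.r r98 (@Lb.d (nat_lit 385) (nat_lit 98) (nat_lit 660) (@Lb.t (@Lb.fp (nat_lit 9) t294)))))))))))
noncomputable def l14471 : Lb := (@Lb.d (nat_lit 32) (nat_lit 0) (nat_lit 73) (@Lb.g g10 (@Lb.g g11 (@Lb.r r423 (@Lb.r r596 (@Lb.r r1433 (@Lb.r r410 (@Lb.d (nat_lit 152) (nat_lit 26) (nat_lit 537) (@Lb.fp (nat_lit 3) t188)))))))))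
noncomputable def l14472 : Lb := (@Lb.r r21 (@Lb.d (nat_lit 33) (nat_lit 256) (nat_lit 72) (@Lb.g g8 (@Lb.g g10 (@Lb.g g11 (@Lb.r r1674 (@Lb.r r1637 (@Lb.r r1703 (@Lb.r r2392 (@Lb.d (nat_lit 18) (nat_lit 9) (nat_lit 330) (@Lb.t (@Lb.fm (nat_lit 9) t3066))))))))))))
noncomputable def l14473 : Lb := (@Lb.d (nat_lit 8) (nat_lit 256) (nat_lit 73) (@Lb.g g8 (@Lb.g g10 (@Lb.g g11 (@Lb.r r419 (@Lb.r r2085 (@Lb.r r1432 (@Lb.r r2442 (@Lb.d (nat_lit 402) (nat_lit 68) (nat_lit 280) (@Lb.t (@Lb.fp (nat_lit 9) t188)))))))))))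
noncomputable def l14474 : Lb := (@Lb.r r21 (@Lb.d (nat_lit 144) (nat_lit 256) (nat_lit 133) (@Lb.g g8 (@Lb.g g10 (@Lb.g g11 (@Lb.r r595 (@Lb.r r2726 (@Lb.r r97 (@Lb.r r2648 (@Lb.d (nat_lit 1) (nat_lit 37) (nat_lit 660) (@Lb.t (@Lb.fm (nat_lit 9) t1377))))))))))))
noncomputable def l14475 : Lb := (@Lb.d (nat_lit 32) (nat_lit 256) (nat_lit 73) (@Lb.g g10 (@Lb.g g11 (@Lb.r r423 (@Lb.r r596 (@Lb.r r1433 (@Lb.r r410 (@Lb.d (nat_lit 154) (nat_lit 152) (nat_lit 537) (@Lb.fp (nat_lit 3) t188)))))))))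
noncomputable def l14476 : Lb := (@Lb.d (nat_lit 0) (nat_lit 0) (nat_lit 74) (@Lb.g g4 (@Lb.g g10 (@Lb.g g11 (@Lb.r r2707 (@Lb.r r2626 (@Lb.d (nat_lit 0) (nat_lit 152) (nat_lit 297) (@Lb.t (@Lb.fm (nat_lit 9) t51)))))))))
noncomputable def l14477 : Lb := (@Lb.d (nat_lit 521) (nat_lit 384) (nat_lit 384) (@Lb.r r20 (@Lb.r r2145 (@Lb.r r402 (@Lb.r r1291 (@Lb.g g11 (@Lb.g g8 (@Lb.fm (nat_lit 3) t981))))))))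
noncomputable def l14478 : Lb := (@Lb.d (nat_lit 145) (nat_lit 401) (nat_lit 70) (@Lb.r r358 (@Lb.r r683 (@Lb.r r1688 (@Lb.r r2389 (@Lb.g g6 (@Lb.g g5 (@Lb.g g4 (@Lb.d (nat_lit 33) (nat_lit 1) (nat_lit 0) (@Lb.t (@Lb.fp (nat_lit 9) t981)))))))))))
noncomputable def l14479 : Lb := (@Lb.r r323 (@Lb.d (nat_lit 2) (nat_lit 260) (nat_lit 22) (@Lb.g g8 (@Lb.g g10 (@Lb.r r1689 (@Lb.r r2459 (@Lb.r r24 (@Lb.d (nat_lit 98) (nat_lit 80) (nat_lit 594) (@Lb.fp (nat_lit 3) t521)))))))))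
noncomputable def l14480 : Lb := (@Lb.d (nat_lit 529) (nat_lit 596) (nat_lit 294) (@Lb.r r2466 (@Lb.r r1449 (@Lb.r r1303 (@Lb.g g6 (@Lb.g g5 (@Lb.g g4 (@Lb.d (nat_lit 1) (nat_lit 6) (nat_lit 5) (@Lb.r r387 (@Lb.t (@Lb.fp (nat_lit 9) t125)))))))))))
noncomputable def l14481 : Lb := (@Lb.d (nat_lit 4) (nat_lit 1) (nat_lit 66) (@Lb.g g9 (@Lb.g g10 (@Lb.g g11 (@Lb.r r614 (@Lb.r r404 (@Lb.r r1371 (@Lb.r r2705 (@Lb.d (nat_lit 9) (nat_lit 68) (nat_lit 661) (@Lb.t (@Lb.fm (nat_lit 9) t71)))))))))))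
noncomputable def l14482 : Lb := (@Lb.r r82 (@Lb.r r275 (@Lb.d (nat_lit 41) (nat_lit 400) (nat_lit 0) (@Lb.g g8 (@Lb.g g5 (@Lb.r r2579 (@Lb.r r582 (@Lb.r r2180 (@Lb.d (nat_lit 546) (nat_lit 1) (nat_lit 658) (@Lb.fm (nat_lit 3) t68))))))))))
noncomputable def l14483 : Lb := (@Lb.r r322 (@Lb.d (nat_lit 10) (nat_lit 0) (nat_lit 512) (@Lb.g g8 (@Lb.g g7 (@Lb.r r661 (@Lb.r r146 (@Lb.r r2436 (@Lb.d (nat_lit 610) (nat_lit 0) (nat_lit 322) (@Lb.fm (nat_lit 3) t311)))))))))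
noncomputable def l14484 : Lb := (@Lb.d (nat_lit 2) (nat_lit 265) (nat_lit 72) (@Lb.g g8 (@Lb.g g9 (@Lb.g g10 (@Lb.g g11 (@Lb.r r1706 (@Lb.r r676 (@Lb.r r551 (@Lb.r r1557 (@Lb.r r1060 (@Lb.d (nat_lit 649) (nat_lit 65) (nat_lit 330) (@Lb.fp (nat_lit 9) t428))))))))))))
noncomputable def l14485 : Lb := (@Lb.r r82 (@Lb.d (nat_lit 34) (nat_lit 34) (nat_lit 64) (@Lb.g g8 (@Lb.g g9 (@Lb.g g11 (@Lb.r r674 (@Lb.r r553 (@Lb.r r616 (@Lb.r r587 (@Lb.d (nat_lit 129) (nat_lit 34) (nat_lit 70) (@Lb.t (@Lb.fm (nat_lit 9) t355))))))))))))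
noncomputable def l14486 : Lb := (@Lb.d (nat_lit 0) (nat_lit 512) (nat_lit 74) (@Lb.g g11 (@Lb.g g5 (@Lb.fp (nat_lit 3) t2))))
noncomputable def l14487 : Lb := (@Lb.d (nat_lit 2) (nat_lit 9) (nat_lit 72) (@Lb.g g8 (@Lb.g g9 (@Lb.g g10 (@Lb.g g11 (@Lb.r r1706 (@Lb.r r676 (@Lb.r r551 (@Lb.r r1557 (@Lb.r r1060 (@Lb.d (nat_lit 650) (nat_lit 65) (nat_lit 330) (@Lb.fp (nat_lit 9) t577))))))))))))
noncomputable def l14488 : Lb := (@Lb.d (nat_lit 329) (nat_lit 344) (nat_lit 645) (@Lb.r r2583 (@Lb.r r1384 (@Lb.r r361 (@Lb.r r1622 (@Lb.g g7 (@Lb.d (nat_lit 64) (nat_lit 16) (nat_lit 132) (@Lb.t (@Lb.fp (nat_lit 3) t188)))))))))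
noncomputable def l14489 : Lb := (@Lb.d (nat_lit 1) (nat_lit 2) (nat_lit 130) (@Lb.g g8 (@Lb.g g9 (@Lb.g g10 (@Lb.g g11 (@Lb.r r1435 (@Lb.r r404 (@Lb.r r2150 (@Lb.r r97 (@Lb.r r1060 (@Lb.d (nat_lit 2) (nat_lit 104) (nat_lit 642) (@Lb.fm (nat_lit 9) t51))))))))))))
noncomputable def l14490 : Lb := (@Lb.r r260 (@Lb.r r273 (@Lb.d (nat_lit 0) (nat_lit 256) (nat_lit 258) (@Lb.g g10 (@Lb.g g7 (@Lb.r r386 (@Lb.r r1169 (@Lb.r r1156 (@Lb.d (nat_lit 0) (nat_lit 0) (nat_lit 41) (@Lb.fm (nat_lit 3) t68))))))))))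
noncomputable def l14491 : Lb := (@Lb.d (nat_lit 9) (nat_lit 544) (nat_lit 74) (@Lb.g g8 (@Lb.g g10 (@Lb.g g11 (@Lb.r r2730 (@Lb.r r101 (@Lb.r r404 (@Lb.r r299 (@Lb.d (nat_lit 641) (nat_lit 104) (nat_lit 73) (@Lb.t (@Lb.fm (nat_lit 9) t51)))))))))))
noncomputable def l14492 : Lb := (@Lb.d (nat_lit 9) (nat_lit 513) (nat_lit 73) (@Lb.g g8 (@Lb.g g9 (@Lb.g g10 (@Lb.g g11 (@Lb.r r2691 (@Lb.r r297 (@Lb.r r360 (@Lb.r r582 (@Lb.r r2180 (@Lb.d (nat_lit 641) (nat_lit 10) (nat_lit 329) (@Lb.fm (nat_lit 9) t242))))))))))))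
noncomputable def l14493 : Lb := (@Lb.d (nat_lit 2) (nat_lit 2) (nat_lit 88) (@Lb.g g8 (@Lb.g g9 (@Lb.g g6 (@Lb.g g11 (@Lb.r r2657 (@Lb.r r24 (@Lb.d (nat_lit 10) (nat_lit 89) (nat_lit 128) (@Lb.fm (nat_lit 9) t2877)))))))))
noncomputable def l14494 : Lb := (@Lb.d (nat_lit 586) (nat_lit 401) (nat_lit 322) (@Lb.r r2344 (@Lb.r r1559 (@Lb.r r345 (@Lb.g g10 (@Lb.g g4 (@Lb.d (nat_lit 70) (nat_lit 0) (nat_lit 37) (@Lb.fp (nat_lit 3) t3067))))))))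
noncomputable def l14495 : Lb := (@Lb.d (nat_lit 153) (nat_lit 520) (nat_lit 73) (@Lb.g g8 (@Lb.g g9 (@Lb.g g10 (@Lb.g g11 (@Lb.r r683 (@Lb.r r2410 (@Lb.r r1561 (@Lb.r r1540 (@Lb.d (nat_lit 393) (nat_lit 153) (nat_lit 128) (@Lb.fm (nat_lit 9) t1755)))))))))))
noncomputable def l14496 : Lb := (@Lb.d (nat_lit 10) (nat_lit 256) (nat_lit 128) (@Lb.g g8 (@Lb.g g11 (@Lb.r r293 (@Lb.r r2587 (@Lb.r r2178 (@Lb.r r2584 (@Lb.d (nat_lit 90) (nat_lit 2) (nat_lit 680) (@Lb.fm (nat_lit 3) t3068)))))))))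
noncomputable def l14497 : Lb := (@Lb.d (nat_lit 9) (nat_lit 265) (nat_lit 130) (@Lb.g g8 (@Lb.g g9 (@Lb.g g10 (@Lb.g g11 (@Lb.r r1699 (@Lb.r r134 (@Lb.r r1633 (@Lb.r r24 (@Lb.d (nat_lit 277) (nat_lit 22) (nat_lit 281) (@Lb.fp (nat_lit 9) t3069)))))))))))
noncomputable def l14498 : Lb := (@Lb.r r327 (@Lb.d (nat_lit 34) (nat_lit 514) (nat_lit 2) (@Lb.g g8 (@Lb.g g9 (@Lb.g g10 (@Lb.r r683 (@Lb.r r1194 (@Lb.r r1177 (@Lb.r r1156 (@Lb.d (nat_lit 297) (nat_lit 1) (nat_lit 2) (@Lb.t (@Lb.fm (nat_lit 9) t1692))))))))))))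
noncomputable def l14499 : Lb := (@Lb.d (nat_lit 2) (nat_lit 32) (nat_lit 128) (@Lb.g g8 (@Lb.g g11 (@Lb.r r2712 (@Lb.r r293 (@Lb.r r2587 (@Lb.r r2178 (@Lb.d (nat_lit 96) (nat_lit 98) (nat_lit 402) (@Lb.fm (nat_lit 3) t1282)))))))))
noncomputable def l14500 : Lb := (@Lb.d (nat_lit 9) (nat_lit 257) (nat_lit 128) (@Lb.g g8 (@Lb.g g9 (@Lb.g g11 (@Lb.r r1707 (@Lb.r r162 (@Lb.r r145 (@Lb.r r1608 (@Lb.d (nat_lit 102) (nat_lit 10) (nat_lit 537) (@Lb.t (@Lb.fp (nat_lit 9) t2639)))))))))))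
noncomputable def l14501 : Lb := (@Lb.d (nat_lit 360) (nat_lit 386) (nat_lit 597) (@Lb.r r1412 (@Lb.r r1445 (@Lb.r r2715 (@Lb.g g7 (@Lb.g g10 (@Lb.g g4 (@Lb.d (nat_lit 2) (nat_lit 4) (nat_lit 81) (@Lb.r r145 (@Lb.t (@Lb.fm (nat_lit 9) t498)))))))))))
noncomputable def l14502 : Lb := (@Lb.g g4 (@Lb.r r134 (@Lb.r r328 (@Lb.r r535 (@Lb.r r289 (@Lb.t (@Lb.fm (nat_lit 3) t51)))))))
noncomputable def l14503 : Lb := (@Lb.d (nat_lit 6) (nat_lit 577) (nat_lit 136) (@Lb.r r609 (@Lb.r r619 (@Lb.r r584 (@Lb.r r326 (@Lb.g g7 (@Lb.g g6 (@Lb.g g4 (@Lb.d (nat_lit 1) (nat_lit 0) (nat_lit 65) (@Lb.t (@Lb.fm (nat_lit 9) t74)))))))))))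
noncomputable def l14504 : Lb := (@Lb.d (nat_lit 6) (nat_lit 353) (nat_lit 64) (@Lb.r r609 (@Lb.r r619 (@Lb.r r616 (@Lb.r r342 (@Lb.g g7 (@Lb.g g6 (@Lb.g g4 (@Lb.d (nat_lit 2) (nat_lit 0) (nat_lit 65) (@Lb.t (@Lb.fm (nat_lit 9) t74)))))))))))
noncomputable def l14505 : Lb := (@Lb.r r323 (@Lb.d (nat_lit 24) (nat_lit 256) (nat_lit 0) (@Lb.g g8 (@Lb.g g10 (@Lb.r r90 (@Lb.r r2709 (@Lb.r r407 (@Lb.r r584 (@Lb.d (nat_lit 97) (nat_lit 0) (nat_lit 18) (@Lb.fp (nat_lit 3) t320))))))))))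
noncomputable def l14506 : Lb := (@Lb.d (nat_lit 2) (nat_lit 2) (nat_lit 2) (@Lb.g g8 (@Lb.g g9 (@Lb.g g10 (@Lb.g g11 (@Lb.r r427 (@Lb.r r106 (@Lb.r r25 (@Lb.d (nat_lit 0) (nat_lit 73) (nat_lit 2) (@Lb.fp (nat_lit 9) t51))))))))))
noncomputable def l14507 : Lb := (@Lb.d (nat_lit 529) (nat_lit 256) (nat_lit 86) (@Lb.r r20 (@Lb.r r2153 (@Lb.r r386 (@Lb.g g11 (@Lb.g g6 (@Lb.g g5 (@Lb.g g4 (@Lb.d (nat_lit 1) (nat_lit 1) (nat_lit 6) (@Lb.fm (nat_lit 9) t51))))))))))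
noncomputable def l14508 : Lb := (@Lb.d (nat_lit 2) (nat_lit 514) (nat_lit 0) (@Lb.r r24 (@Lb.g g9 (@Lb.d (nat_lit 8) (nat_lit 2) (nat_lit 0) (@Lb.t (@Lb.fm (nat_lit 3) t2))))))
noncomputable def l14509 : Lb := (@Lb.r r21 (@Lb.d (nat_lit 18) (nat_lit 512) (nat_lit 128) (@Lb.g g4 (@Lb.g g10 (@Lb.g g11 (@Lb.r r1687 (@Lb.r r2401 (@Lb.r r1170 (@Lb.d (nat_lit 530) (nat_lit 74) (nat_lit 34) (@Lb.t (@Lb.fm (nat_lit 9) t68)))))))))))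
noncomputable def l14510 : Lb := (@Lb.d (nat_lit 10) (nat_lit 512) (nat_lit 0) (@Lb.g g8 (@Lb.g g7 (@Lb.r r149 (@Lb.r r402 (@Lb.r r2436 (@Lb.d (nat_lit 610) (nat_lit 5) (nat_lit 64) (@Lb.fm (nat_lit 3) t311))))))))
noncomputable def l14511 : Lb := (@Lb.r r81 (@Lb.r r323 (@Lb.d (nat_lit 138) (nat_lit 0) (nat_lit 2) (@Lb.g g8 (@Lb.g g6 (@Lb.r r661 (@Lb.r r343 (@Lb.r r648 (@Lb.d (nat_lit 81) (nat_lit 1) (nat_lit 9) (@Lb.fm (nat_lit 3) t792))))))))))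
noncomputable def l14512 : Lb := (@Lb.r r82 (@Lb.d (nat_lit 2) (nat_lit 258) (nat_lit 128) (@Lb.g g8 (@Lb.g g9 (@Lb.g g11 (@Lb.r r1571 (@Lb.r r1192 (@Lb.r r1642 (@Lb.r r1633 (@Lb.d (nat_lit 612) (nat_lit 89) (nat_lit 356) (@Lb.t (@Lb.fp (nat_lit 9) t243))))))))))))
noncomputable def l14513 : Lb := (@Lb.d (nat_lit 2) (nat_lit 260) (nat_lit 128) (@Lb.g g8 (@Lb.g g9 (@Lb.g g10 (@Lb.g g11 (@Lb.r r1699 (@Lb.r r1160 (@Lb.r r1610 (@Lb.r r37 (@Lb.d (nat_lit 610) (nat_lit 88) (nat_lit 356) (@Lb.fm (nat_lit 9) t243)))))))))))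
noncomputable def l14514 : Lb := (@Lb.r r21 (@Lb.d (nat_lit 2) (nat_lit 512) (nat_lit 130) (@Lb.g g8 (@Lb.g g10 (@Lb.g g11 (@Lb.r r1691 (@Lb.r r1381 (@Lb.r r2202 (@Lb.r r2180 (@Lb.d (nat_lit 601) (nat_lit 2) (nat_lit 609) (@Lb.t (@Lb.fp (nat_lit 9) t284))))))))))))
noncomputable def l14515 : Lb := (@Lb.r r21 (@Lb.d (nat_lit 33) (nat_lit 0) (nat_lit 129) (@Lb.g g8 (@Lb.g g10 (@Lb.g g11 (@Lb.r r2439 (@Lb.r r1608 (@Lb.r r2662 (@Lb.r r97 (@Lb.d (nat_lit 646) (nat_lit 162) (nat_lit 325) (@Lb.t (@Lb.fm (nat_lit 9) t1372))))))))))))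
noncomputable def l14516 : Lb := (@Lb.d (nat_lit 0) (nat_lit 512) (nat_lit 74) (@Lb.g g10 (@Lb.g g11 (@Lb.r r2626 (@Lb.d (nat_lit 0) (nat_lit 0) (nat_lit 384) (@Lb.fm (nat_lit 3) t2))))))
noncomputable def l14517 : Lb := (@Lb.d (nat_lit 9) (nat_lit 513) (nat_lit 130) (@Lb.g g8 (@Lb.g g9 (@Lb.g g10 (@Lb.g g11 (@Lb.r r427 (@Lb.r r420 (@Lb.r r102 (@Lb.r r97 (@Lb.r r36 (@Lb.d (nat_lit 9) (nat_lit 10) (nat_lit 152) (@Lb.fm (nat_lit 9) t356))))))))))))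
noncomputable def l14518 : Lb := (@Lb.d (nat_lit 160) (nat_lit 2) (nat_lit 130) (@Lb.g g9 (@Lb.g g10 (@Lb.g g11 (@Lb.r r72 (@Lb.r r166 (@Lb.r r665 (@Lb.r r411 (@Lb.d (nat_lit 9) (nat_lit 26) (nat_lit 128) (@Lb.t (@Lb.fm (nat_lit 9) t2)))))))))))
noncomputable def l14519 : Lb := (@Lb.d (nat_lit 4) (nat_lit 513) (nat_lit 0) (@Lb.g g5 (@Lb.r r24 (@Lb.d (nat_lit 1) (nat_lit 1) (nat_lit 0) (@Lb.t (@Lb.fp (nat_lit 3) t2))))))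
noncomputable def l14520 : Lb := (@Lb.r r21 (@Lb.r r323 (@Lb.d (nat_lit 6) (nat_lit 512) (nat_lit 2) (@Lb.g g8 (@Lb.g g10 (@Lb.r r362 (@Lb.r r387 (@Lb.r r25 (@Lb.d (nat_lit 0) (nat_lit 97) (nat_lit 74) (@Lb.fm (nat_lit 3) t51))))))))))
noncomputable def l14521 : Lb := (@Lb.d (nat_lit 0) (nat_lit 258) (nat_lit 0) (@Lb.r r24 (@Lb.g g9 (@Lb.d (nat_lit 8) (nat_lit 2) (nat_lit 0) (@Lb.t (@Lb.fm (nat_lit 3) t2))))))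
noncomputable def l14522 : Lb := (@Lb.d (nat_lit 160) (nat_lit 520) (nat_lit 74) (@Lb.g g10 (@Lb.g g11 (@Lb.r r105 (@Lb.r r280 (@Lb.r r1623 (@Lb.r r1362 (@Lb.d (nat_lit 538) (nat_lit 145) (nat_lit 389) (@Lb.fp (nat_lit 3) t2)))))))))
noncomputable def l14523 : Lb := (@Lb.r r20 (@Lb.r r275 (@Lb.d (nat_lit 0) (nat_lit 5) (nat_lit 0) (@Lb.g g5 (@Lb.g g10 (@Lb.r r1174 (@Lb.r r2376 (@Lb.r r1543 (@Lb.d (nat_lit 10) (nat_lit 0) (nat_lit 640) (@Lb.fm (nat_lit 3) t68))))))))))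
noncomputable def l14524 : Lb := (@Lb.r r21 (@Lb.d (nat_lit 17) (nat_lit 0) (nat_lit 128) (@Lb.g g4 (@Lb.g g10 (@Lb.g g11 (@Lb.r r1687 (@Lb.r r2401 (@Lb.r r1170 (@Lb.d (nat_lit 530) (nat_lit 74) (nat_lit 34) (@Lb.t (@Lb.fm (nat_lit 9) t68)))))))))))
noncomputable def l14525 : Lb := (@Lb.r r323 (@Lb.d (nat_lit 2) (nat_lit 2) (nat_lit 41) (@Lb.g g8 (@Lb.g g9 (@Lb.g g6 (@Lb.r r387 (@Lb.r r1313 (@Lb.r r24 (@Lb.d (nat_lit 10) (nat_lit 161) (nat_lit 16) (@Lb.t (@Lb.fp (nat_lit 9) t351)))))))))))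
noncomputable def l14526 : Lb := (@Lb.d (nat_lit 138) (nat_lit 609) (nat_lit 576) (@Lb.r r553 (@Lb.r r683 (@Lb.r r662 (@Lb.g g5 (@Lb.g g4 (@Lb.d (nat_lit 1) (nat_lit 10) (nat_lit 0) (@Lb.fp (nat_lit 3) t1987))))))))
noncomputable def l14527 : Lb := (@Lb.d (nat_lit 138) (nat_lit 353) (nat_lit 645) (@Lb.r r553 (@Lb.r r683 (@Lb.r r662 (@Lb.g g5 (@Lb.g g4 (@Lb.d (nat_lit 1) (nat_lit 10) (nat_lit 0) (@Lb.fp (nat_lit 3) t1987))))))))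
noncomputable def l14528 : Lb := (@Lb.d (nat_lit 133) (nat_lit 512) (nat_lit 68) (@Lb.r r390 (@Lb.r r72 (@Lb.r r535 (@Lb.g g6 (@Lb.g g9 (@Lb.d (nat_lit 16) (nat_lit 33) (nat_lit 1) (@Lb.fm (nat_lit 3) t5))))))))
noncomputable def l14529 : Lb := (@Lb.d (nat_lit 138) (nat_lit 80) (nat_lit 512) (@Lb.r r553 (@Lb.r r683 (@Lb.r r662 (@Lb.g g5 (@Lb.g g4 (@Lb.d (nat_lit 1) (nat_lit 5) (nat_lit 0) (@Lb.fp (nat_lit 3) t41))))))))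
noncomputable def l14530 : Lb := (@Lb.d (nat_lit 129) (nat_lit 258) (nat_lit 4) (@Lb.g g8 (@Lb.g g9 (@Lb.g g10 (@Lb.g g11 (@Lb.r r683 (@Lb.r r618 (@Lb.r r537 (@Lb.r r516 (@Lb.d (nat_lit 137) (nat_lit 2) (nat_lit 130) (@Lb.fm (nat_lit 9) t128)))))))))))
noncomputable def l14531 : Lb := (@Lb.d (nat_lit 0) (nat_lit 0) (nat_lit 5) (@Lb.g g5 (@Lb.g g6 (@Lb.d (nat_lit 5) (nat_lit 1) (nat_lit 64) (@Lb.fm (nat_lit 3) t2)))))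
noncomputable def l14532 : Lb := (@Lb.d (nat_lit 0) (nat_lit 512) (nat_lit 4) (@Lb.g g10 (@Lb.g g11 (@Lb.r r419 (@Lb.r r386 (@Lb.d (nat_lit 0) (nat_lit 137) (nat_lit 265) (@Lb.fp (nat_lit 3) t369)))))))
noncomputable def l14533 : Lb := (@Lb.r r89 (@Lb.r r166 (@Lb.r r344 (@Lb.r r679 (@Lb.r r657 (@Lb.d (nat_lit 2) (nat_lit 520) (nat_lit 2) (@Lb.fm (nat_lit 1) t21)))))))
noncomputable def l14534 : Lb := (@Lb.d (nat_lit 9) (nat_lit 1) (nat_lit 73) (@Lb.g g8 (@Lb.g g9 (@Lb.g g10 (@Lb.g g11 (@Lb.r r2122 (@Lb.r r296 (@Lb.r r409 (@Lb.r r295 (@Lb.r r516 (@Lb.d (nat_lit 10) (nat_lit 89) (nat_lit 137) (@Lb.fm (nat_lit 9) t119))))))))))))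
noncomputable def l14535 : Lb := (@Lb.d (nat_lit 129) (nat_lit 546) (nat_lit 2) (@Lb.g g8 (@Lb.g g9 (@Lb.g g10 (@Lb.r r343 (@Lb.r r162 (@Lb.r r2712 (@Lb.r r165 (@Lb.d (nat_lit 37) (nat_lit 146) (nat_lit 425) (@Lb.t (@Lb.fp (nat_lit 9) t284)))))))))))
noncomputable def l14536 : Lb := (@Lb.d (nat_lit 130) (nat_lit 34) (nat_lit 2) (@Lb.g g8 (@Lb.g g9 (@Lb.g g10 (@Lb.r r343 (@Lb.r r162 (@Lb.r r2712 (@Lb.r r165 (@Lb.d (nat_lit 37) (nat_lit 146) (nat_lit 290) (@Lb.t (@Lb.fp (nat_lit 9) t284)))))))))))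
noncomputable def l14537 : Lb := (@Lb.r r355 (@Lb.d (nat_lit 9) (nat_lit 513) (nat_lit 2) (@Lb.g g8 (@Lb.g g9 (@Lb.g g10 (@Lb.r r2454 (@Lb.r r2627 (@Lb.r r1301 (@Lb.r r24 (@Lb.d (nat_lit 146) (nat_lit 161) (nat_lit 618) (@Lb.t (@Lb.fp (nat_lit 9) t1120))))))))))))
noncomputable def l14538 : Lb := (@Lb.d (nat_lit 129) (nat_lit 513) (nat_lit 0) (@Lb.g g8 (@Lb.g g9 (@Lb.r r1623 (@Lb.r r418 (@Lb.r r401 (@Lb.r r2120 (@Lb.d (nat_lit 297) (nat_lit 169) (nat_lit 169) (@Lb.fp (nat_lit 3) t591)))))))))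
noncomputable def l14539 : Lb := (@Lb.r r355 (@Lb.d (nat_lit 9) (nat_lit 106) (nat_lit 17) (@Lb.g g8 (@Lb.g g5 (@Lb.g g10 (@Lb.r r2627 (@Lb.r r24 (@Lb.d (nat_lit 10) (nat_lit 0) (nat_lit 408) (@Lb.t (@Lb.fp (nat_lit 9) t42))))))))))
noncomputable def l14540 : Lb := (@Lb.r r21 (@Lb.d (nat_lit 33) (nat_lit 256) (nat_lit 1) (@Lb.g g8 (@Lb.g g10 (@Lb.r r651 (@Lb.r r2665 (@Lb.r r1686 (@Lb.r r1156 (@Lb.d (nat_lit 288) (nat_lit 165) (nat_lit 646) (@Lb.fp (nat_lit 3) t74))))))))))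
noncomputable def l14541 : Lb := (@Lb.r r323 (@Lb.d (nat_lit 32) (nat_lit 256) (nat_lit 1) (@Lb.g g10 (@Lb.r r1112 (@Lb.r r2597 (@Lb.r r355 (@Lb.r r2630 (@Lb.d (nat_lit 424) (nat_lit 74) (nat_lit 392) (@Lb.t (@Lb.fp (nat_lit 3) t3070))))))))))
noncomputable def l14542 : Lb := (@Lb.r r82 (@Lb.d (nat_lit 2) (nat_lit 514) (nat_lit 0) (@Lb.g g8 (@Lb.g g9 (@Lb.r r1561 (@Lb.r r2579 (@Lb.r r146 (@Lb.d (nat_lit 385) (nat_lit 128) (nat_lit 74) (@Lb.fm (nat_lit 3) t2095)))))))))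
noncomputable def l14543 : Lb := (@Lb.d (nat_lit 658) (nat_lit 2) (nat_lit 10) (@Lb.g g8 (@Lb.g g9 (@Lb.g g10 (@Lb.g g11 (@Lb.r r2347 (@Lb.r r1602 (@Lb.r r25 (@Lb.d (nat_lit 9) (nat_lit 33) (nat_lit 362) (@Lb.fp (nat_lit 9) t394))))))))))
noncomputable def l14544 : Lb := (@Lb.d (nat_lit 26) (nat_lit 296) (nat_lit 66) (@Lb.g g8 (@Lb.g g10 (@Lb.g g11 (@Lb.r r2145 (@Lb.r r1174 (@Lb.r r328 (@Lb.r r2567 (@Lb.d (nat_lit 641) (nat_lit 33) (nat_lit 578) (@Lb.t (@Lb.fm (nat_lit 9) t69)))))))))))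
noncomputable def l14545 : Lb := (@Lb.r r1098 (@Lb.d (nat_lit 18) (nat_lit 256) (nat_lit 32) (@Lb.fp (nat_lit 1) t3071)))
noncomputable def l14546 : Lb := (@Lb.d (nat_lit 2) (nat_lit 514) (nat_lit 130) (@Lb.g g8 (@Lb.g g9 (@Lb.g g10 (@Lb.g g11 (@Lb.r r427 (@Lb.r r106 (@Lb.r r25 (@Lb.d (nat_lit 8) (nat_lit 9) (nat_lit 137) (@Lb.fp (nat_lit 9) t51))))))))))
noncomputable def l14547 : Lb := (@Lb.r r323 (@Lb.d (nat_lit 2) (nat_lit 66) (nat_lit 2) (@Lb.g g8 (@Lb.g g9 (@Lb.g g10 (@Lb.r r2410 (@Lb.r r387 (@Lb.r r36 (@Lb.d (nat_lit 649) (nat_lit 1) (nat_lit 586) (@Lb.t (@Lb.fm (nat_lit 9) t284)))))))))))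
noncomputable def l14548 : Lb := (@Lb.d (nat_lit 16) (nat_lit 1) (nat_lit 74) (@Lb.g g8 (@Lb.g g9 (@Lb.g g10 (@Lb.g g11 (@Lb.r r1707 (@Lb.r r1602 (@Lb.r r41 (@Lb.r r2084 (@Lb.d (nat_lit 265) (nat_lit 26) (nat_lit 665) (@Lb.fp (nat_lit 9) t50)))))))))))
noncomputable def l14549 : Lb := (@Lb.g g8 (@Lb.r r609 (@Lb.r r363 (@Lb.r r328 (@Lb.r r134 (@Lb.d (nat_lit 512) (nat_lit 10) (nat_lit 146) (@Lb.t (@Lb.fm (nat_lit 3) t40))))))))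
noncomputable def l14550 : Lb := (@Lb.g g8 (@Lb.g g7 (@Lb.r r609 (@Lb.r r363 (@Lb.r r328 (@Lb.r r134 (@Lb.d (nat_lit 512) (nat_lit 256) (nat_lit 144) (@Lb.fm (nat_lit 3) t40))))))))
noncomputable def l14551 : Lb := (@Lb.d (nat_lit 4) (nat_lit 513) (nat_lit 32) (@Lb.r r2193 (@Lb.r r674 (@Lb.r r659 (@Lb.r r273 (@Lb.g g8 (@Lb.d (nat_lit 322) (nat_lit 0) (nat_lit 0) (@Lb.t (@Lb.fp (nat_lit 3) t242)))))))))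
noncomputable def l14552 : Lb := (@Lb.d (nat_lit 10) (nat_lit 518) (nat_lit 145) (@Lb.r r24 (@Lb.r r2145 (@Lb.r r323 (@Lb.g g10 (@Lb.g g4 (@Lb.d (nat_lit 1) (nat_lit 0) (nat_lit 2) (@Lb.r r387 (@Lb.fp (nat_lit 3) t594)))))))))
noncomputable def l14553 : Lb := (@Lb.r r21 (@Lb.r r70 (@Lb.r r263 (@Lb.g g4 (@Lb.r r516 (@Lb.r r2631 (@Lb.r r402 (@Lb.r r97 (@Lb.t (@Lb.fp (nat_lit 3) t739))))))))))
noncomputable def l14554 : Lb := (@Lb.r r21 (@Lb.r r70 (@Lb.d (nat_lit 512) (nat_lit 256) (nat_lit 128) (@Lb.g g4 (@Lb.g g11 (@Lb.r r583 (@Lb.r r402 (@Lb.r r25 (@Lb.d (nat_lit 256) (nat_lit 1) (nat_lit 2) (@Lb.fp (nat_lit 3) t375))))))))))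
noncomputable def l14555 : Lb := (@Lb.r r263 (@Lb.d (nat_lit 642) (nat_lit 546) (nat_lit 2) (@Lb.g g4 (@Lb.g g9 (@Lb.g g10 (@Lb.r r2470 (@Lb.r r595 (@Lb.r r1441 (@Lb.d (nat_lit 386) (nat_lit 102) (nat_lit 602) (@Lb.t (@Lb.fm (nat_lit 9) t3072)))))))))))
noncomputable def l14556 : Lb := (@Lb.r r263 (@Lb.d (nat_lit 642) (nat_lit 290) (nat_lit 2) (@Lb.g g4 (@Lb.g g9 (@Lb.g g10 (@Lb.r r2470 (@Lb.r r595 (@Lb.r r1441 (@Lb.d (nat_lit 388) (nat_lit 100) (nat_lit 602) (@Lb.t (@Lb.fm (nat_lit 9) t1622)))))))))))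
noncomputable def l14557 : Lb := (@Lb.d (nat_lit 2) (nat_lit 258) (nat_lit 130) (@Lb.g g8 (@Lb.g g9 (@Lb.g g10 (@Lb.g g11 (@Lb.r r162 (@Lb.r r168 (@Lb.r r425 (@Lb.r r279 (@Lb.r r548 (@Lb.d (nat_lit 258) (nat_lit 10) (nat_lit 105) (@Lb.fm (nat_lit 9) t1636))))))))))))
noncomputable def l14558 : Lb := (@Lb.d (nat_lit 2) (nat_lit 9) (nat_lit 72) (@Lb.g g8 (@Lb.g g9 (@Lb.g g10 (@Lb.g g11 (@Lb.r r1706 (@Lb.r r680 (@Lb.r r555 (@Lb.r r1573 (@Lb.r r1044 (@Lb.d (nat_lit 642) (nat_lit 129) (nat_lit 330) (@Lb.fp (nat_lit 9) t68))))))))))))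
noncomputable def l14559 : Lb := (@Lb.d (nat_lit 32) (nat_lit 533) (nat_lit 64) (@Lb.r r289 (@Lb.r r599 (@Lb.r r264 (@Lb.g g7 (@Lb.g g10 (@Lb.d (nat_lit 96) (nat_lit 4) (nat_lit 66) (@Lb.fm (nat_lit 3) t985))))))))
noncomputable def l14560 : Lb := (@Lb.d (nat_lit 325) (nat_lit 33) (nat_lit 256) (@Lb.r r101 (@Lb.r r1362 (@Lb.g g7 (@Lb.g g6 (@Lb.g g5 (@Lb.d (nat_lit 0) (nat_lit 0) (nat_lit 134) (@Lb.t (@Lb.fm (nat_lit 9) t482)))))))))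
noncomputable def l14561 : Lb := (@Lb.d (nat_lit 2) (nat_lit 25) (nat_lit 137) (@Lb.g g8 (@Lb.g g9 (@Lb.g g10 (@Lb.g g11 (@Lb.r r1366 (@Lb.r r424 (@Lb.r r279 (@Lb.r r1557 (@Lb.d (nat_lit 385) (nat_lit 162) (nat_lit 586) (@Lb.fm (nat_lit 9) t264)))))))))))
noncomputable def l14562 : Lb := (@Lb.d (nat_lit 393) (nat_lit 553) (nat_lit 320) (@Lb.r r1572 (@Lb.r r1559 (@Lb.r r345 (@Lb.r r614 (@Lb.g g6 (@Lb.g g4 (@Lb.d (nat_lit 70) (nat_lit 0) (nat_lit 2) (@Lb.fp (nat_lit 3) t3073)))))))))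
noncomputable def l14563 : Lb := (@Lb.d (nat_lit 9) (nat_lit 329) (nat_lit 64) (@Lb.r r21 (@Lb.r r1158 (@Lb.r r2376 (@Lb.g g7 (@Lb.g g5 (@Lb.d (nat_lit 64) (nat_lit 1) (nat_lit 328) (@Lb.fm (nat_lit 3) t355))))))))
noncomputable def l14564 : Lb := (@Lb.r r323 (@Lb.d (nat_lit 0) (nat_lit 258) (nat_lit 1) (@Lb.g g8 (@Lb.g g9 (@Lb.g g6 (@Lb.r r579 (@Lb.r r104 (@Lb.r r25 (@Lb.d (nat_lit 522) (nat_lit 2) (nat_lit 38) (@Lb.t (@Lb.fp (nat_lit 9) t40)))))))))))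
noncomputable def l14565 : Lb := (@Lb.d (nat_lit 138) (nat_lit 0) (nat_lit 0) (@Lb.g g8 (@Lb.r r1621 (@Lb.r r1559 (@Lb.r r2178 (@Lb.r r1416 (@Lb.d (nat_lit 658) (nat_lit 74) (nat_lit 425) (@Lb.t (@Lb.fm (nat_lit 3) t2117)))))))))
noncomputable def l14566 : Lb := (@Lb.d (nat_lit 0) (nat_lit 0) (nat_lit 64) (@Lb.g g8 (@Lb.g g7 (@Lb.d (nat_lit 1) (nat_lit 0) (nat_lit 69) (@Lb.fp (nat_lit 3) t2)))))
noncomputable def l14567 : Lb := (@Lb.d (nat_lit 40) (nat_lit 256) (nat_lit 136) (@Lb.g g8 (@Lb.g g11 (@Lb.r r2370 (@Lb.r r1703 (@Lb.r r1573 (@Lb.r r1300 (@Lb.d (nat_lit 326) (nat_lit 82) (nat_lit 290) (@Lb.fm (nat_lit 3) t322)))))))))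
noncomputable def l14568 : Lb := (@Lb.r r323 (@Lb.d (nat_lit 0) (nat_lit 258) (nat_lit 0) (@Lb.g g8 (@Lb.g g9 (@Lb.g g10 (@Lb.r r427 (@Lb.r r106 (@Lb.r r25 (@Lb.d (nat_lit 0) (nat_lit 66) (nat_lit 0) (@Lb.t (@Lb.fm (nat_lit 9) t51)))))))))))
noncomputable def l14569 : Lb := (@Lb.r r322 (@Lb.d (nat_lit 0) (nat_lit 258) (nat_lit 72) (@Lb.g g8 (@Lb.g g9 (@Lb.g g7 (@Lb.r r360 (@Lb.r r150 (@Lb.r r25 (@Lb.d (nat_lit 522) (nat_lit 4) (nat_lit 545) (@Lb.t (@Lb.fp (nat_lit 9) t988)))))))))))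
noncomputable def l14570 : Lb := (@Lb.r r323 (@Lb.d (nat_lit 130) (nat_lit 265) (nat_lit 1) (@Lb.g g8 (@Lb.g g9 (@Lb.g g10 (@Lb.r r1450 (@Lb.r r583 (@Lb.r r2201 (@Lb.r r408 (@Lb.d (nat_lit 341) (nat_lit 25) (nat_lit 330) (@Lb.t (@Lb.fp (nat_lit 9) t68))))))))))))
noncomputable def l14571 : Lb := (@Lb.d (nat_lit 2) (nat_lit 545) (nat_lit 66) (@Lb.g g8 (@Lb.g g9 (@Lb.g g10 (@Lb.g g11 (@Lb.r r2585 (@Lb.r r531 (@Lb.r r98 (@Lb.d (nat_lit 385) (nat_lit 88) (nat_lit 546) (@Lb.fm (nat_lit 9) t948))))))))))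
noncomputable def l14572 : Lb := (@Lb.d (nat_lit 128) (nat_lit 256) (nat_lit 136) (@Lb.g g11 (@Lb.r r613 (@Lb.r r410 (@Lb.r r2472 (@Lb.r r1303 (@Lb.d (nat_lit 326) (nat_lit 80) (nat_lit 402) (@Lb.t (@Lb.fm (nat_lit 3) t154)))))))))
noncomputable def l14573 : Lb := (@Lb.r r323 (@Lb.d (nat_lit 2) (nat_lit 265) (nat_lit 1) (@Lb.g g8 (@Lb.g g9 (@Lb.g g10 (@Lb.r r2347 (@Lb.r r2154 (@Lb.r r25 (@Lb.d (nat_lit 9) (nat_lit 132) (nat_lit 17) (@Lb.t (@Lb.fm (nat_lit 9) t853)))))))))))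
noncomputable def l14574 : Lb := (@Lb.d (nat_lit 42) (nat_lit 512) (nat_lit 128) (@Lb.g g8 (@Lb.g g11 (@Lb.r r545 (@Lb.r r619 (@Lb.r r326 (@Lb.r r1700 (@Lb.d (nat_lit 426) (nat_lit 146) (nat_lit 532) (@Lb.fm (nat_lit 3) t154)))))))))
noncomputable def l14575 : Lb := (@Lb.d (nat_lit 128) (nat_lit 256) (nat_lit 136) (@Lb.g g11 (@Lb.r r613 (@Lb.r r410 (@Lb.r r2472 (@Lb.r r1623 (@Lb.d (nat_lit 406) (nat_lit 100) (nat_lit 649) (@Lb.t (@Lb.fp (nat_lit 3) t154)))))))))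
noncomputable def l14576 : Lb := (@Lb.r r323 (@Lb.d (nat_lit 130) (nat_lit 9) (nat_lit 1) (@Lb.g g8 (@Lb.g g9 (@Lb.g g10 (@Lb.r r1450 (@Lb.r r583 (@Lb.r r2201 (@Lb.r r408 (@Lb.d (nat_lit 346) (nat_lit 26) (nat_lit 330) (@Lb.t (@Lb.fp (nat_lit 9) t68))))))))))))
noncomputable def l14577 : Lb := (@Lb.r r323 (@Lb.d (nat_lit 8) (nat_lit 554) (nat_lit 1) (@Lb.g g9 (@Lb.g g10 (@Lb.r r1446 (@Lb.r r1624 (@Lb.r r1691 (@Lb.r r2385 (@Lb.d (nat_lit 513) (nat_lit 152) (nat_lit 676) (@Lb.fp (nat_lit 3) t260))))))))))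
noncomputable def l14578 : Lb := (@Lb.d (nat_lit 32) (nat_lit 256) (nat_lit 130) (@Lb.g g10 (@Lb.g g11 (@Lb.r r545 (@Lb.r r299 (@Lb.r r72 (@Lb.r r390 (@Lb.d (nat_lit 610) (nat_lit 10) (nat_lit 152) (@Lb.fp (nat_lit 3) t126)))))))))
noncomputable def l14579 : Lb := (@Lb.d (nat_lit 128) (nat_lit 32) (nat_lit 128) (@Lb.g g11 (@Lb.r r426 (@Lb.r r409 (@Lb.r r1304 (@Lb.r r2471 (@Lb.d (nat_lit 337) (nat_lit 36) (nat_lit 649) (@Lb.t (@Lb.fp (nat_lit 3) t3074)))))))))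
noncomputable def l14580 : Lb := (@Lb.d (nat_lit 1) (nat_lit 258) (nat_lit 73) (@Lb.g g8 (@Lb.g g9 (@Lb.g g10 (@Lb.g g11 (@Lb.r r1706 (@Lb.r r648 (@Lb.r r1563 (@Lb.r r2337 (@Lb.r r36 (@Lb.d (nat_lit 641) (nat_lit 105) (nat_lit 66) (@Lb.fp (nat_lit 9) t242))))))))))))
noncomputable def l14581 : Lb := (@Lb.d (nat_lit 2) (nat_lit 514) (nat_lit 73) (@Lb.g g8 (@Lb.g g9 (@Lb.g g10 (@Lb.g g11 (@Lb.r r1706 (@Lb.r r648 (@Lb.r r1563 (@Lb.r r2337 (@Lb.r r36 (@Lb.d (nat_lit 641) (nat_lit 98) (nat_lit 64) (@Lb.fp (nat_lit 9) t242))))))))))))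
noncomputable def l14582 : Lb := (@Lb.d (nat_lit 100) (nat_lit 425) (nat_lit 33) (@Lb.r r408 (@Lb.r r330 (@Lb.r r407 (@Lb.g g7 (@Lb.g g5 (@Lb.g g4 (@Lb.d (nat_lit 17) (nat_lit 1) (nat_lit 64) (@Lb.r r98 (@Lb.t (@Lb.fm (nat_lit 9) t242)))))))))))
noncomputable def l14583 : Lb := (@Lb.d (nat_lit 2) (nat_lit 514) (nat_lit 130) (@Lb.g g8 (@Lb.g g9 (@Lb.g g10 (@Lb.g g11 (@Lb.r r2722 (@Lb.r r2467 (@Lb.r r292 (@Lb.r r405 (@Lb.r r2084 (@Lb.d (nat_lit 97) (nat_lit 10) (nat_lit 601) (@Lb.fm (nat_lit 9) t1756))))))))))))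
noncomputable def l14584 : Lb := (@Lb.r r82 (@Lb.d (nat_lit 9) (nat_lit 325) (nat_lit 136) (@Lb.g g8 (@Lb.g g9 (@Lb.g g11 (@Lb.r r402 (@Lb.r r2667 (@Lb.r r2564 (@Lb.d (nat_lit 416) (nat_lit 72) (nat_lit 386) (@Lb.t (@Lb.fm (nat_lit 9) t3075)))))))))))
noncomputable def l14585 : Lb := (@Lb.r r273 (@Lb.d (nat_lit 2) (nat_lit 32) (nat_lit 578) (@Lb.g g8 (@Lb.g g10 (@Lb.g g7 (@Lb.r r2641 (@Lb.r r98 (@Lb.r r24 (@Lb.d (nat_lit 10) (nat_lit 137) (nat_lit 84) (@Lb.t (@Lb.fm (nat_lit 9) t1921)))))))))))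
noncomputable def l14586 : Lb := (@Lb.d (nat_lit 2) (nat_lit 258) (nat_lit 130) (@Lb.g g8 (@Lb.g g9 (@Lb.g g10 (@Lb.g g11 (@Lb.r r610 (@Lb.r r404 (@Lb.r r619 (@Lb.r r537 (@Lb.r r516 (@Lb.d (nat_lit 9) (nat_lit 73) (nat_lit 130) (@Lb.fm (nat_lit 9) t1618))))))))))))
noncomputable def l14587 : Lb := (@Lb.d (nat_lit 9) (nat_lit 513) (nat_lit 73) (@Lb.g g8 (@Lb.g g9 (@Lb.g g10 (@Lb.g g11 (@Lb.r r2705 (@Lb.r r535 (@Lb.r r2440 (@Lb.r r2122 (@Lb.d (nat_lit 289) (nat_lit 10) (nat_lit 136) (@Lb.fp (nat_lit 9) t221)))))))))))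
noncomputable def l14588 : Lb := (@Lb.d (nat_lit 10) (nat_lit 2) (nat_lit 73) (@Lb.g g8 (@Lb.g g9 (@Lb.g g10 (@Lb.g g11 (@Lb.r r1681 (@Lb.r r535 (@Lb.r r2440 (@Lb.r r2122 (@Lb.d (nat_lit 33) (nat_lit 10) (nat_lit 136) (@Lb.fp (nat_lit 9) t221)))))))))))
noncomputable def l14589 : Lb := (@Lb.d (nat_lit 9) (nat_lit 258) (nat_lit 73) (@Lb.g g8 (@Lb.g g9 (@Lb.g g10 (@Lb.g g11 (@Lb.r r1681 (@Lb.r r535 (@Lb.r r2440 (@Lb.r r2122 (@Lb.d (nat_lit 33) (nat_lit 10) (nat_lit 136) (@Lb.fp (nat_lit 9) t221)))))))))))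
noncomputable def l14590 : Lb := (@Lb.d (nat_lit 2) (nat_lit 514) (nat_lit 64) (@Lb.g g8 (@Lb.g g9 (@Lb.g g11 (@Lb.r r662 (@Lb.r r2455 (@Lb.r r97 (@Lb.r r24 (@Lb.d (nat_lit 73) (nat_lit 9) (nat_lit 678) (@Lb.t (@Lb.fp (nat_lit 9) t564)))))))))))
noncomputable def l14591 : Lb := (@Lb.g g8 (@Lb.r r1178 (@Lb.r r1381 (@Lb.r r2579 (@Lb.r r1156 (@Lb.d (nat_lit 96) (nat_lit 0) (nat_lit 297) (@Lb.t (@Lb.fm (nat_lit 3) t2604))))))))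
noncomputable def l14592 : Lb := (@Lb.d (nat_lit 5) (nat_lit 256) (nat_lit 73) (@Lb.g g8 (@Lb.g g9 (@Lb.g g10 (@Lb.g g11 (@Lb.r r642 (@Lb.r r387 (@Lb.r r2153 (@Lb.r r36 (@Lb.d (nat_lit 290) (nat_lit 0) (nat_lit 73) (@Lb.fp (nat_lit 9) t40)))))))))))
noncomputable def l14593 : Lb := (@Lb.d (nat_lit 4) (nat_lit 256) (nat_lit 130) (@Lb.g g8 (@Lb.g g9 (@Lb.g g10 (@Lb.g g11 (@Lb.r r162 (@Lb.r r168 (@Lb.r r425 (@Lb.r r279 (@Lb.r r548 (@Lb.d (nat_lit 265) (nat_lit 9) (nat_lit 105) (@Lb.fm (nat_lit 9) t1636))))))))))))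
noncomputable def l14594 : Lb := (@Lb.d (nat_lit 136) (nat_lit 0) (nat_lit 130) (@Lb.g g9 (@Lb.g g10 (@Lb.g g11 (@Lb.r r2214 (@Lb.r r264 (@Lb.r r1623 (@Lb.r r2385 (@Lb.d (nat_lit 260) (nat_lit 150) (nat_lit 596) (@Lb.t (@Lb.fp (nat_lit 9) t3076)))))))))))
noncomputable def l14595 : Lb := (@Lb.d (nat_lit 4) (nat_lit 256) (nat_lit 130) (@Lb.g g8 (@Lb.g g9 (@Lb.g g10 (@Lb.g g11 (@Lb.r r2218 (@Lb.r r392 (@Lb.r r2343 (@Lb.r r2337 (@Lb.r r36 (@Lb.d (nat_lit 2) (nat_lit 98) (nat_lit 576) (@Lb.fm (nat_lit 9) t242))))))))))))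
noncomputable def l14596 : Lb := (@Lb.d (nat_lit 128) (nat_lit 256) (nat_lit 130) (@Lb.g g9 (@Lb.g g10 (@Lb.g g11 (@Lb.r r166 (@Lb.r r264 (@Lb.r r599 (@Lb.r r409 (@Lb.d (nat_lit 400) (nat_lit 26) (nat_lit 106) (@Lb.t (@Lb.fp (nat_lit 9) t991)))))))))))
noncomputable def l14597 : Lb := (@Lb.d (nat_lit 0) (nat_lit 512) (nat_lit 72) (@Lb.g g8 (@Lb.g g11 (@Lb.d (nat_lit 0) (nat_lit 0) (nat_lit 106) (@Lb.fm (nat_lit 3) t2)))))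
noncomputable def l14598 : Lb := (@Lb.d (nat_lit 2) (nat_lit 0) (nat_lit 130) (@Lb.g g8 (@Lb.g g9 (@Lb.g g10 (@Lb.g g11 (@Lb.r r2691 (@Lb.r r2345 (@Lb.r r360 (@Lb.r r582 (@Lb.r r2180 (@Lb.d (nat_lit 644) (nat_lit 8) (nat_lit 89) (@Lb.fm (nat_lit 9) t1425))))))))))))
noncomputable def l14599 : Lb := (@Lb.d (nat_lit 2) (nat_lit 2) (nat_lit 64) (@Lb.g g8 (@Lb.g g9 (@Lb.g g11 (@Lb.r r662 (@Lb.r r2711 (@Lb.r r25 (@Lb.d (nat_lit 9) (nat_lit 148) (nat_lit 425) (@Lb.t (@Lb.fm (nat_lit 9) t334))))))))))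
noncomputable def l14600 : Lb := (@Lb.r r21 (@Lb.r r70 (@Lb.d (nat_lit 265) (nat_lit 256) (nat_lit 0) (@Lb.g g4 (@Lb.r r74 (@Lb.r r25 (@Lb.d (nat_lit 512) (nat_lit 128) (nat_lit 0) (@Lb.t (@Lb.fm (nat_lit 3) t1043)))))))))
noncomputable def l14601 : Lb := (@Lb.d (nat_lit 10) (nat_lit 258) (nat_lit 130) (@Lb.g g4 (@Lb.g g9 (@Lb.g g10 (@Lb.g g11 (@Lb.r r2658 (@Lb.r r579 (@Lb.d (nat_lit 0) (nat_lit 97) (nat_lit 586) (@Lb.fp (nat_lit 9) t51)))))))))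
noncomputable def l14602 : Lb := (@Lb.r r82 (@Lb.d (nat_lit 34) (nat_lit 2) (nat_lit 128) (@Lb.g g8 (@Lb.g g9 (@Lb.g g11 (@Lb.r r363 (@Lb.r r582 (@Lb.r r408 (@Lb.d (nat_lit 152) (nat_lit 86) (nat_lit 18) (@Lb.t (@Lb.fp (nat_lit 9) t1640)))))))))))
noncomputable def l14603 : Lb := (@Lb.d (nat_lit 40) (nat_lit 0) (nat_lit 130) (@Lb.g g9 (@Lb.g g10 (@Lb.g g11 (@Lb.r r2695 (@Lb.r r1352 (@Lb.r r1686 (@Lb.r r2129 (@Lb.d (nat_lit 549) (nat_lit 165) (nat_lit 4) (@Lb.t (@Lb.fp (nat_lit 9) t1827)))))))))))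
noncomputable def l14604 : Lb := (@Lb.d (nat_lit 2) (nat_lit 512) (nat_lit 130) (@Lb.g g8 (@Lb.g g9 (@Lb.g g10 (@Lb.g g11 (@Lb.r r532 (@Lb.r r295 (@Lb.r r357 (@Lb.r r666 (@Lb.r r644 (@Lb.d (nat_lit 2) (nat_lit 4) (nat_lit 138) (@Lb.fp (nat_lit 9) t45))))))))))))
noncomputable def l14605 : Lb := (@Lb.d (nat_lit 145) (nat_lit 166) (nat_lit 645) (@Lb.r r580 (@Lb.r r2386 (@Lb.r r2201 (@Lb.g g7 (@Lb.g g6 (@Lb.g g4 (@Lb.d (nat_lit 100) (nat_lit 0) (nat_lit 577) (@Lb.t (@Lb.fp (nat_lit 9) t1561))))))))))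
noncomputable def l14606 : Lb := (@Lb.r r323 (@Lb.d (nat_lit 130) (nat_lit 578) (nat_lit 0) (@Lb.g g8 (@Lb.g g9 (@Lb.g g10 (@Lb.r r2658 (@Lb.r r583 (@Lb.r r2312 (@Lb.d (nat_lit 386) (nat_lit 65) (nat_lit 533) (@Lb.t (@Lb.fm (nat_lit 9) t1242)))))))))))
noncomputable def l14607 : Lb := (@Lb.d (nat_lit 2) (nat_lit 2) (nat_lit 130) (@Lb.g g8 (@Lb.g g9 (@Lb.g g10 (@Lb.g g11 (@Lb.r r169 (@Lb.r r296 (@Lb.r r391 (@Lb.r r386 (@Lb.r r132 (@Lb.d (nat_lit 2) (nat_lit 10) (nat_lit 129) (@Lb.fm (nat_lit 9) t311))))))))))))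
noncomputable def l14608 : Lb := (@Lb.d (nat_lit 357) (nat_lit 353) (nat_lit 532) (@Lb.r r1428 (@Lb.r r150 (@Lb.r r2579 (@Lb.g g5 (@Lb.g g4 (@Lb.d (nat_lit 17) (nat_lit 80) (nat_lit 0) (@Lb.r r291 (@Lb.r r98 (@Lb.fm (nat_lit 3) t270))))))))))
noncomputable def l14609 : Lb := (@Lb.d (nat_lit 0) (nat_lit 522) (nat_lit 2) (@Lb.r r579 (@Lb.r r402 (@Lb.r r101 (@Lb.r r24 (@Lb.g g11 (@Lb.t (@Lb.fp (nat_lit 3) t263))))))))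
noncomputable def l14610 : Lb := (@Lb.r r21 (@Lb.r r70 (@Lb.r r263 (@Lb.g g8 (@Lb.r r2084 (@Lb.r r101 (@Lb.r r402 (@Lb.r r2627 (@Lb.t (@Lb.p (nat_lit 1) (@Lb.fm (nat_lit 3) t2799)))))))))))
noncomputable def l14611 : Lb := (@Lb.r r21 (@Lb.d (nat_lit 2) (nat_lit 296) (nat_lit 129) (@Lb.g g8 (@Lb.g g6 (@Lb.g g11 (@Lb.r r149 (@Lb.r r360 (@Lb.r r391 (@Lb.d (nat_lit 98) (nat_lit 34) (nat_lit 6) (@Lb.t (@Lb.fm (nat_lit 9) t242)))))))))))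
noncomputable def l14612 : Lb := (@Lb.d (nat_lit 8) (nat_lit 521) (nat_lit 0) (@Lb.g g9 (@Lb.d (nat_lit 538) (nat_lit 9) (nat_lit 18) (@Lb.t (@Lb.fp (nat_lit 3) t126)))))
noncomputable def l14613 : Lb := (@Lb.d (nat_lit 0) (nat_lit 262) (nat_lit 0) (@Lb.g g9 (@Lb.g g10 (@Lb.r r2209 (@Lb.r r98 (@Lb.d (nat_lit 0) (nat_lit 66) (nat_lit 18) (@Lb.fp (nat_lit 3) t99)))))))
noncomputable def l14614 : Lb := (@Lb.d (nat_lit 2) (nat_lit 514) (nat_lit 2) (@Lb.g g8 (@Lb.g g9 (@Lb.g g10 (@Lb.g g11 (@Lb.r r427 (@Lb.r r145 (@Lb.r r356 (@Lb.r r154 (@Lb.r r132 (@Lb.d (nat_lit 9) (nat_lit 9) (nat_lit 18) (@Lb.fm (nat_lit 9) t221))))))))))))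
noncomputable def l14615 : Lb := (@Lb.r r134 (@Lb.r r328 (@Lb.r r535 (@Lb.r r289 (@Lb.d (nat_lit 5) (nat_lit 513) (nat_lit 0) (@Lb.fp (nat_lit 1) t51))))))
noncomputable def l14616 : Lb := (@Lb.d (nat_lit 8) (nat_lit 10) (nat_lit 0) (@Lb.g g9 (@Lb.g g11 (@Lb.r r402 (@Lb.r r1379 (@Lb.r r2584 (@Lb.r r1381 (@Lb.d (nat_lit 597) (nat_lit 41) (nat_lit 406) (@Lb.fp (nat_lit 3) t240)))))))))
noncomputable def l14617 : Lb := (@Lb.d (nat_lit 160) (nat_lit 258) (nat_lit 1) (@Lb.g g9 (@Lb.g g10 (@Lb.g g11 (@Lb.r r533 (@Lb.r r292 (@Lb.r r1371 (@Lb.r r2658 (@Lb.d (nat_lit 289) (nat_lit 154) (nat_lit 617) (@Lb.t (@Lb.fm (nat_lit 9) t240)))))))))))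
noncomputable def l14618 : Lb := (@Lb.d (nat_lit 2) (nat_lit 513) (nat_lit 64) (@Lb.g g8 (@Lb.g g9 (@Lb.g g11 (@Lb.r r673 (@Lb.r r674 (@Lb.r r2471 (@Lb.r r1620 (@Lb.r r153 (@Lb.d (nat_lit 2) (nat_lit 166) (nat_lit 642) (@Lb.t (@Lb.fm (nat_lit 9) t660))))))))))))
noncomputable def l14619 : Lb := (@Lb.d (nat_lit 1) (nat_lit 514) (nat_lit 130) (@Lb.g g8 (@Lb.g g9 (@Lb.g g10 (@Lb.g g11 (@Lb.r r427 (@Lb.r r145 (@Lb.r r356 (@Lb.r r154 (@Lb.r r132 (@Lb.d (nat_lit 9) (nat_lit 9) (nat_lit 153) (@Lb.fm (nat_lit 9) t221))))))))))))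
noncomputable def l14620 : Lb := (@Lb.d (nat_lit 2) (nat_lit 513) (nat_lit 128) (@Lb.g g8 (@Lb.g g9 (@Lb.g g11 (@Lb.r r673 (@Lb.r r674 (@Lb.r r2471 (@Lb.r r1620 (@Lb.r r153 (@Lb.d (nat_lit 2) (nat_lit 161) (nat_lit 641) (@Lb.t (@Lb.fm (nat_lit 9) t2243))))))))))))
noncomputable def l14621 : Lb := (@Lb.d (nat_lit 2) (nat_lit 257) (nat_lit 128) (@Lb.g g8 (@Lb.g g9 (@Lb.g g11 (@Lb.r r673 (@Lb.r r674 (@Lb.r r2471 (@Lb.r r1620 (@Lb.r r153 (@Lb.d (nat_lit 2) (nat_lit 166) (nat_lit 642) (@Lb.t (@Lb.fm (nat_lit 9) t660))))))))))))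
noncomputable def l14622 : Lb := (@Lb.d (nat_lit 384) (nat_lit 64) (nat_lit 512) (@Lb.r r2341 (@Lb.r r1624 (@Lb.r r2406 (@Lb.g g11 (@Lb.g g5 (@Lb.d (nat_lit 0) (nat_lit 4) (nat_lit 128) (@Lb.r r98 (@Lb.fp (nat_lit 3) t634)))))))))
noncomputable def l14623 : Lb := (@Lb.d (nat_lit 0) (nat_lit 261) (nat_lit 74) (@Lb.g g5 (@Lb.g g10 (@Lb.g g11 (@Lb.r r659 (@Lb.r r578 (@Lb.d (nat_lit 0) (nat_lit 25) (nat_lit 137) (@Lb.t (@Lb.fm (nat_lit 9) t50)))))))))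
noncomputable def l14624 : Lb := (@Lb.d (nat_lit 2) (nat_lit 0) (nat_lit 0) (@Lb.g g8 (@Lb.d (nat_lit 10) (nat_lit 128) (nat_lit 0) (@Lb.t (@Lb.fp (nat_lit 3) t2)))))
noncomputable def l14625 : Lb := (@Lb.d (nat_lit 1) (nat_lit 512) (nat_lit 0) (@Lb.g g4 (@Lb.r r1098 (@Lb.r r1049 (@Lb.d (nat_lit 4) (nat_lit 128) (nat_lit 0) (@Lb.t (@Lb.fm (nat_lit 3) t994)))))))
noncomputable def l14626 : Lb := (@Lb.d (nat_lit 9) (nat_lit 257) (nat_lit 130) (@Lb.g g8 (@Lb.g g9 (@Lb.g g10 (@Lb.g g11 (@Lb.r r427 (@Lb.r r388 (@Lb.r r70 (@Lb.r r153 (@Lb.r r132 (@Lb.d (nat_lit 10) (nat_lit 8) (nat_lit 153) (@Lb.fp (nat_lit 9) t1149))))))))))))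
noncomputable def l14627 : Lb := (@Lb.d (nat_lit 1) (nat_lit 2) (nat_lit 130) (@Lb.g g8 (@Lb.g g9 (@Lb.g g10 (@Lb.g g11 (@Lb.r r427 (@Lb.r r324 (@Lb.r r2218 (@Lb.r r1193 (@Lb.r r1188 (@Lb.d (nat_lit 609) (nat_lit 73) (nat_lit 681) (@Lb.fp (nat_lit 9) t386))))))))))))
noncomputable def l14628 : Lb := (@Lb.d (nat_lit 8) (nat_lit 521) (nat_lit 129) (@Lb.g g9 (@Lb.g g10 (@Lb.g g11 (@Lb.r r419 (@Lb.r r98 (@Lb.d (nat_lit 2) (nat_lit 4) (nat_lit 136) (@Lb.t (@Lb.fm (nat_lit 9) t546)))))))))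
noncomputable def l14629 : Lb := (@Lb.g g6 (@Lb.r r101 (@Lb.d (nat_lit 517) (nat_lit 513) (nat_lit 16) (@Lb.t (@Lb.fp (nat_lit 3) t420)))))
noncomputable def l14630 : Lb := (@Lb.d (nat_lit 33) (nat_lit 512) (nat_lit 73) (@Lb.r r154 (@Lb.r r404 (@Lb.r r363 (@Lb.r r353 (@Lb.g g7 (@Lb.g g6 (@Lb.g g4 (@Lb.d (nat_lit 5) (nat_lit 4) (nat_lit 65) (@Lb.t (@Lb.fp (nat_lit 9) t51)))))))))))
noncomputable def l14631 : Lb := (@Lb.d (nat_lit 2) (nat_lit 258) (nat_lit 74) (@Lb.g g8 (@Lb.g g9 (@Lb.g g10 (@Lb.g g11 (@Lb.r r387 (@Lb.r r2154 (@Lb.r r25 (@Lb.d (nat_lit 9) (nat_lit 18) (nat_lit 280) (@Lb.fp (nat_lit 9) t334))))))))))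
noncomputable def l14632 : Lb := (@Lb.d (nat_lit 2) (nat_lit 260) (nat_lit 128) (@Lb.g g8 (@Lb.g g9 (@Lb.g g10 (@Lb.g g11 (@Lb.r r610 (@Lb.r r1607 (@Lb.r r97 (@Lb.r r2436 (@Lb.d (nat_lit 144) (nat_lit 10) (nat_lit 392) (@Lb.fp (nat_lit 9) t1667)))))))))))
noncomputable def l14633 : Lb := (@Lb.d (nat_lit 388) (nat_lit 577) (nat_lit 640) (@Lb.r r2341 (@Lb.r r1624 (@Lb.r r2470 (@Lb.g g11 (@Lb.g g6 (@Lb.d (nat_lit 0) (nat_lit 0) (nat_lit 1) (@Lb.fm (nat_lit 3) t3077))))))))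
noncomputable def l14634 : Lb := (@Lb.d (nat_lit 68) (nat_lit 321) (nat_lit 512) (@Lb.r r1061 (@Lb.r r2136 (@Lb.r r2470 (@Lb.g g11 (@Lb.g g6 (@Lb.g g5 (@Lb.d (nat_lit 0) (nat_lit 0) (nat_lit 6) (@Lb.t (@Lb.fp (nat_lit 9) t1419))))))))))
noncomputable def l14635 : Lb := (@Lb.r r82 (@Lb.d (nat_lit 2) (nat_lit 522) (nat_lit 128) (@Lb.g g8 (@Lb.g g9 (@Lb.g g11 (@Lb.r r402 (@Lb.r r1607 (@Lb.r r1685 (@Lb.r r2436 (@Lb.d (nat_lit 161) (nat_lit 134) (nat_lit 392) (@Lb.t (@Lb.fm (nat_lit 9) t2019))))))))))))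
noncomputable def l14636 : Lb := (@Lb.d (nat_lit 2) (nat_lit 65) (nat_lit 640) (@Lb.r r2341 (@Lb.r r1624 (@Lb.r r2390 (@Lb.g g11 (@Lb.g g10 (@Lb.fm (nat_lit 3) t3078)))))))
noncomputable def l14637 : Lb := (@Lb.d (nat_lit 2) (nat_lit 32) (nat_lit 2) (@Lb.g g8 (@Lb.g g9 (@Lb.g g10 (@Lb.r r170 (@Lb.r r1444 (@Lb.r r2331 (@Lb.r r549 (@Lb.d (nat_lit 133) (nat_lit 80) (nat_lit 5) (@Lb.t (@Lb.fm (nat_lit 9) t284)))))))))))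
noncomputable def l14638 : Lb := (@Lb.r r21 (@Lb.r r70 (@Lb.d (nat_lit 266) (nat_lit 256) (nat_lit 0) (@Lb.g g4 (@Lb.r r74 (@Lb.r r25 (@Lb.d (nat_lit 518) (nat_lit 129) (nat_lit 0) (@Lb.t (@Lb.fm (nat_lit 3) t3079)))))))))
noncomputable def l14639 : Lb := (@Lb.d (nat_lit 128) (nat_lit 256) (nat_lit 64) (@Lb.g g11 (@Lb.r r361 (@Lb.r r292 (@Lb.r r539 (@Lb.r r134 (@Lb.d (nat_lit 581) (nat_lit 33) (nat_lit 37) (@Lb.t (@Lb.fm (nat_lit 3) t40)))))))))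
noncomputable def l14640 : Lb := (@Lb.r r609 (@Lb.r r548 (@Lb.r r295 (@Lb.r r390 (@Lb.r r516 (@Lb.d (nat_lit 512) (nat_lit 256) (nat_lit 165) (@Lb.fp (nat_lit 1) t40)))))))
noncomputable def l14641 : Lb := (@Lb.d (nat_lit 4) (nat_lit 257) (nat_lit 2) (@Lb.g g8 (@Lb.g g9 (@Lb.g g10 (@Lb.r r2731 (@Lb.r r1642 (@Lb.r r1561 (@Lb.d (nat_lit 586) (nat_lit 105) (nat_lit 417) (@Lb.t (@Lb.fp (nat_lit 9) t324))))))))))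
noncomputable def l14642 : Lb := (@Lb.d (nat_lit 68) (nat_lit 577) (nat_lit 512) (@Lb.r r1061 (@Lb.r r2136 (@Lb.r r2470 (@Lb.g g11 (@Lb.g g6 (@Lb.g g5 (@Lb.d (nat_lit 0) (nat_lit 0) (nat_lit 129) (@Lb.t (@Lb.fp (nat_lit 9) t1419))))))))))
noncomputable def l14643 : Lb := (@Lb.r r327 (@Lb.d (nat_lit 2) (nat_lit 2) (nat_lit 0) (@Lb.g g8 (@Lb.g g9 (@Lb.g g10 (@Lb.r r2451 (@Lb.r r1321 (@Lb.r r2408 (@Lb.r r2630 (@Lb.d (nat_lit 0) (nat_lit 138) (nat_lit 102) (@Lb.t (@Lb.fm (nat_lit 9) t3080))))))))))))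
noncomputable def l14644 : Lb := (@Lb.d (nat_lit 89) (nat_lit 25) (nat_lit 74) (@Lb.r r356 (@Lb.r r2178 (@Lb.r r1307 (@Lb.g g9 (@Lb.g g4 (@Lb.d (nat_lit 65) (nat_lit 70) (nat_lit 0) (@Lb.fm (nat_lit 3) t1385))))))))
noncomputable def l14645 : Lb := (@Lb.d (nat_lit 0) (nat_lit 4) (nat_lit 138) (@Lb.g g9 (@Lb.g g10 (@Lb.g g11 (@Lb.r r679 (@Lb.r r1685 (@Lb.r r2404 (@Lb.r r1610 (@Lb.d (nat_lit 609) (nat_lit 100) (nat_lit 256) (@Lb.t (@Lb.fp (nat_lit 9) t3081)))))))))))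
noncomputable def l14646 : Lb := (@Lb.d (nat_lit 2) (nat_lit 258) (nat_lit 130) (@Lb.g g8 (@Lb.g g9 (@Lb.g g10 (@Lb.g g11 (@Lb.r r610 (@Lb.r r2667 (@Lb.r r97 (@Lb.r r2564 (@Lb.d (nat_lit 392) (nat_lit 137) (nat_lit 385) (@Lb.fp (nat_lit 9) t826)))))))))))
noncomputable def l14647 : Lb := (@Lb.d (nat_lit 2) (nat_lit 258) (nat_lit 73) (@Lb.g g8 (@Lb.g g9 (@Lb.g g10 (@Lb.g g11 (@Lb.r r610 (@Lb.r r579 (@Lb.r r1129 (@Lb.r r36 (@Lb.d (nat_lit 153) (nat_lit 2) (nat_lit 324) (@Lb.fp (nat_lit 9) t61)))))))))))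
noncomputable def l14648 : Lb := (@Lb.d (nat_lit 2) (nat_lit 258) (nat_lit 130) (@Lb.g g8 (@Lb.g g9 (@Lb.g g10 (@Lb.g g11 (@Lb.r r355 (@Lb.r r386 (@Lb.r r1129 (@Lb.r r36 (@Lb.d (nat_lit 266) (nat_lit 2) (nat_lit 84) (@Lb.fp (nat_lit 9) t61)))))))))))
noncomputable def l14649 : Lb := (@Lb.r r323 (@Lb.d (nat_lit 32) (nat_lit 512) (nat_lit 2) (@Lb.g g10 (@Lb.r r584 (@Lb.r r619 (@Lb.r r609 (@Lb.d (nat_lit 10) (nat_lit 1) (nat_lit 84) (@Lb.t (@Lb.fm (nat_lit 3) t479)))))))))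
noncomputable def l14650 : Lb := (@Lb.d (nat_lit 2) (nat_lit 2) (nat_lit 73) (@Lb.g g8 (@Lb.g g9 (@Lb.g g10 (@Lb.g g11 (@Lb.r r2705 (@Lb.r r356 (@Lb.r r667 (@Lb.r r586 (@Lb.r r1540 (@Lb.d (nat_lit 294) (nat_lit 8) (nat_lit 161) (@Lb.fm (nat_lit 9) t145))))))))))))
noncomputable def l14651 : Lb := (@Lb.d (nat_lit 34) (nat_lit 330) (nat_lit 0) (@Lb.g g8 (@Lb.g g9 (@Lb.r r427 (@Lb.r r582 (@Lb.r r1432 (@Lb.d (nat_lit 665) (nat_lit 89) (nat_lit 394) (@Lb.fp (nat_lit 3) t221))))))))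
noncomputable def l14652 : Lb := (@Lb.d (nat_lit 2) (nat_lit 649) (nat_lit 128) (@Lb.g g8 (@Lb.g g5 (@Lb.g g11 (@Lb.r r532 (@Lb.r r2311 (@Lb.r r2178 (@Lb.r r1540 (@Lb.d (nat_lit 282) (nat_lit 105) (nat_lit 642) (@Lb.t (@Lb.fm (nat_lit 9) t669)))))))))))
noncomputable def l14653 : Lb := (@Lb.d (nat_lit 0) (nat_lit 674) (nat_lit 138) (@Lb.r r275 (@Lb.g g9 (@Lb.d (nat_lit 0) (nat_lit 82) (nat_lit 0) (@Lb.r r291 (@Lb.t (@Lb.fp (nat_lit 3) t484)))))))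
noncomputable def l14654 : Lb := (@Lb.d (nat_lit 33) (nat_lit 586) (nat_lit 0) (@Lb.g g8 (@Lb.g g9 (@Lb.r r427 (@Lb.r r582 (@Lb.r r1432 (@Lb.d (nat_lit 665) (nat_lit 89) (nat_lit 394) (@Lb.fp (nat_lit 3) t221))))))))
noncomputable def l14655 : Lb := (@Lb.d (nat_lit 2) (nat_lit 353) (nat_lit 8) (@Lb.g g8 (@Lb.g g5 (@Lb.g g10 (@Lb.r r2371 (@Lb.r r2690 (@Lb.r r24 (@Lb.d (nat_lit 10) (nat_lit 10) (nat_lit 549) (@Lb.t (@Lb.fp (nat_lit 9) t40))))))))))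
noncomputable def l14656 : Lb := (@Lb.d (nat_lit 1) (nat_lit 514) (nat_lit 2) (@Lb.g g8 (@Lb.g g9 (@Lb.g g10 (@Lb.r r2657 (@Lb.r r679 (@Lb.r r2122 (@Lb.r r2120 (@Lb.d (nat_lit 86) (nat_lit 1) (nat_lit 102) (@Lb.t (@Lb.fp (nat_lit 9) t3082)))))))))))
noncomputable def l14657 : Lb := (@Lb.d (nat_lit 1) (nat_lit 273) (nat_lit 421) (@Lb.r r1681 (@Lb.r r2450 (@Lb.r r1543 (@Lb.g g5 (@Lb.g g4 (@Lb.d (nat_lit 353) (nat_lit 4) (nat_lit 0) (@Lb.fm (nat_lit 3) t1419))))))))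
noncomputable def l14658 : Lb := (@Lb.d (nat_lit 9) (nat_lit 513) (nat_lit 64) (@Lb.g g8 (@Lb.g g9 (@Lb.g g10 (@Lb.g g11 (@Lb.r r676 (@Lb.r r423 (@Lb.r r2469 (@Lb.r r2150 (@Lb.r r132 (@Lb.d (nat_lit 2) (nat_lit 130) (nat_lit 90) (@Lb.fm (nat_lit 9) t2))))))))))))
noncomputable def l14659 : Lb := (@Lb.d (nat_lit 2) (nat_lit 272) (nat_lit 74) (@Lb.g g8 (@Lb.g g9 (@Lb.g g10 (@Lb.g g11 (@Lb.r r2218 (@Lb.r r680 (@Lb.r r427 (@Lb.r r1429 (@Lb.r r2068 (@Lb.d (nat_lit 100) (nat_lit 165) (nat_lit 144) (@Lb.fp (nat_lit 9) t3083))))))))))))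
noncomputable def l14660 : Lb := (@Lb.d (nat_lit 8) (nat_lit 294) (nat_lit 129) (@Lb.r r2661 (@Lb.r r2659 (@Lb.r r406 (@Lb.g g7 (@Lb.d (nat_lit 0) (nat_lit 0) (nat_lit 64) (@Lb.t (@Lb.fp (nat_lit 3) t1116))))))))
noncomputable def l14661 : Lb := (@Lb.d (nat_lit 144) (nat_lit 256) (nat_lit 106) (@Lb.g g10 (@Lb.g g11 (@Lb.r r24 (@Lb.r r357 (@Lb.r r659 (@Lb.d (nat_lit 0) (nat_lit 72) (nat_lit 517) (@Lb.fp (nat_lit 3) t242))))))))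
noncomputable def l14662 : Lb := (@Lb.g g7 (@Lb.r r24 (@Lb.r r101 (@Lb.r r402 (@Lb.r r579 (@Lb.d (nat_lit 0) (nat_lit 517) (nat_lit 1) (@Lb.t (@Lb.fm (nat_lit 3) t242))))))))
noncomputable def l14663 : Lb := (@Lb.d (nat_lit 2) (nat_lit 260) (nat_lit 0) (@Lb.g g8 (@Lb.g g9 (@Lb.g g10 (@Lb.r r2666 (@Lb.r r2585 (@Lb.d (nat_lit 329) (nat_lit 9) (nat_lit 330) (@Lb.t (@Lb.fm (nat_lit 9) t406)))))))))
noncomputable def l14664 : Lb := (@Lb.d (nat_lit 10) (nat_lit 38) (nat_lit 129) (@Lb.r r2661 (@Lb.r r2659 (@Lb.r r406 (@Lb.g g7 (@Lb.g g5 (@Lb.g g4 (@Lb.d (nat_lit 1) (nat_lit 0) (nat_lit 64) (@Lb.t (@Lb.fm (nat_lit 9) t47))))))))))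
noncomputable def l14665 : Lb := (@Lb.d (nat_lit 522) (nat_lit 420) (nat_lit 129) (@Lb.r r2661 (@Lb.r r2452 (@Lb.r r1174 (@Lb.r r647 (@Lb.g g7 (@Lb.g g4 (@Lb.d (nat_lit 1) (nat_lit 0) (nat_lit 128) (@Lb.fp (nat_lit 3) t3077)))))))))
noncomputable def l14666 : Lb := (@Lb.r r323 (@Lb.d (nat_lit 9) (nat_lit 257) (nat_lit 0) (@Lb.g g8 (@Lb.g g9 (@Lb.g g10 (@Lb.r r427 (@Lb.r r106 (@Lb.r r25 (@Lb.d (nat_lit 4) (nat_lit 8) (nat_lit 2) (@Lb.t (@Lb.fm (nat_lit 9) t51)))))))))))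
noncomputable def l14667 : Lb := (@Lb.d (nat_lit 1) (nat_lit 264) (nat_lit 130) (@Lb.g g8 (@Lb.g g10 (@Lb.g g11 (@Lb.r r353 (@Lb.r r667 (@Lb.r r664 (@Lb.r r154 (@Lb.d (nat_lit 18) (nat_lit 10) (nat_lit 136) (@Lb.t (@Lb.fm (nat_lit 9) t2)))))))))))
noncomputable def l14668 : Lb := (@Lb.d (nat_lit 22) (nat_lit 1) (nat_lit 1) (@Lb.r r20 (@Lb.r r105 (@Lb.r r323 (@Lb.g g10 (@Lb.g g5 (@Lb.g g4 (@Lb.d (nat_lit 2) (nat_lit 0) (nat_lit 2) (@Lb.r r387 (@Lb.t (@Lb.fp (nat_lit 9) t51)))))))))))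
noncomputable def l14669 : Lb := (@Lb.d (nat_lit 2) (nat_lit 514) (nat_lit 128) (@Lb.g g8 (@Lb.g g9 (@Lb.g g10 (@Lb.g g11 (@Lb.r r657 (@Lb.r r100 (@Lb.r r666 (@Lb.r r387 (@Lb.r r132 (@Lb.d (nat_lit 105) (nat_lit 2) (nat_lit 68) (@Lb.fm (nat_lit 9) t1097))))))))))))
noncomputable def l14670 : Lb := (@Lb.d (nat_lit 2) (nat_lit 517) (nat_lit 74) (@Lb.g g8 (@Lb.g g9 (@Lb.g g10 (@Lb.g g11 (@Lb.r r2691 (@Lb.r r1450 (@Lb.r r289 (@Lb.r r24 (@Lb.d (nat_lit 133) (nat_lit 161) (nat_lit 168) (@Lb.fp (nat_lit 9) t3084)))))))))))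
noncomputable def l14671 : Lb := (@Lb.d (nat_lit 0) (nat_lit 260) (nat_lit 128) (@Lb.g g8 (@Lb.g g9 (@Lb.g g10 (@Lb.g g11 (@Lb.r r2647 (@Lb.r r2726 (@Lb.r r97 (@Lb.r r1416 (@Lb.d (nat_lit 514) (nat_lit 10) (nat_lit 17) (@Lb.fp (nat_lit 9) t3085)))))))))))
noncomputable def l14672 : Lb := (@Lb.d (nat_lit 0) (nat_lit 516) (nat_lit 128) (@Lb.g g8 (@Lb.g g9 (@Lb.g g10 (@Lb.g g11 (@Lb.r r2647 (@Lb.r r2726 (@Lb.r r97 (@Lb.r r1416 (@Lb.d (nat_lit 521) (nat_lit 9) (nat_lit 17) (@Lb.fp (nat_lit 9) t3086)))))))))))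
noncomputable def l14673 : Lb := (@Lb.d (nat_lit 2) (nat_lit 0) (nat_lit 130) (@Lb.g g8 (@Lb.g g10 (@Lb.g g11 (@Lb.r r642 (@Lb.r r387 (@Lb.r r2073 (@Lb.d (nat_lit 33) (nat_lit 5) (nat_lit 162) (@Lb.t (@Lb.fp (nat_lit 9) t382))))))))))
noncomputable def l14674 : Lb := (@Lb.d (nat_lit 0) (nat_lit 265) (nat_lit 72) (@Lb.g g9 (@Lb.g g10 (@Lb.g g11 (@Lb.r r1699 (@Lb.r r346 (@Lb.r r2585 (@Lb.d (nat_lit 664) (nat_lit 169) (nat_lit 416) (@Lb.t (@Lb.fp (nat_lit 9) t50))))))))))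
noncomputable def l14675 : Lb := (@Lb.d (nat_lit 0) (nat_lit 522) (nat_lit 72) (@Lb.g g9 (@Lb.g g10 (@Lb.g g11 (@Lb.r r1703 (@Lb.r r342 (@Lb.r r2577 (@Lb.d (nat_lit 338) (nat_lit 162) (nat_lit 417) (@Lb.t (@Lb.fp (nat_lit 9) t50))))))))))
noncomputable def l14676 : Lb := (@Lb.r r1045 (@Lb.r r323 (@Lb.d (nat_lit 261) (nat_lit 8) (nat_lit 6) (@Lb.g g4 (@Lb.g g10 (@Lb.r r387 (@Lb.d (nat_lit 1) (nat_lit 68) (nat_lit 138) (@Lb.fp (nat_lit 3) t51))))))))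
noncomputable def l14677 : Lb := (@Lb.d (nat_lit 9) (nat_lit 513) (nat_lit 130) (@Lb.g g8 (@Lb.g g9 (@Lb.g g10 (@Lb.g g11 (@Lb.r r427 (@Lb.r r145 (@Lb.r r356 (@Lb.r r154 (@Lb.r r132 (@Lb.d (nat_lit 9) (nat_lit 9) (nat_lit 153) (@Lb.fm (nat_lit 9) t221))))))))))))
noncomputable def l14678 : Lb := (@Lb.r r21 (@Lb.r r323 (@Lb.d (nat_lit 129) (nat_lit 520) (nat_lit 2) (@Lb.g g8 (@Lb.g g10 (@Lb.r r2631 (@Lb.r r97 (@Lb.r r1432 (@Lb.d (nat_lit 661) (nat_lit 153) (nat_lit 393) (@Lb.fp (nat_lit 3) t51))))))))))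
noncomputable def l14679 : Lb := (@Lb.d (nat_lit 2) (nat_lit 2) (nat_lit 130) (@Lb.g g8 (@Lb.g g9 (@Lb.g g10 (@Lb.g g11 (@Lb.r r610 (@Lb.r r612 (@Lb.r r359 (@Lb.r r277 (@Lb.r r548 (@Lb.d (nat_lit 282) (nat_lit 2) (nat_lit 144) (@Lb.fp (nat_lit 9) t505))))))))))))
noncomputable def l14680 : Lb := (@Lb.d (nat_lit 518) (nat_lit 166) (nat_lit 20) (@Lb.r r24 (@Lb.r r2657 (@Lb.r r2667 (@Lb.g g7 (@Lb.g g10 (@Lb.g g5 (@Lb.g g4 (@Lb.d (nat_lit 8) (nat_lit 0) (nat_lit 81) (@Lb.fp (nat_lit 9) t820))))))))))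
noncomputable def l14681 : Lb := (@Lb.d (nat_lit 32) (nat_lit 522) (nat_lit 72) (@Lb.g g9 (@Lb.g g10 (@Lb.g g11 (@Lb.r r1707 (@Lb.r r609 (@Lb.r r1128 (@Lb.r r2454 (@Lb.d (nat_lit 601) (nat_lit 89) (nat_lit 681) (@Lb.t (@Lb.fm (nat_lit 9) t125)))))))))))
noncomputable def l14682 : Lb := (@Lb.r r323 (@Lb.d (nat_lit 134) (nat_lit 512) (nat_lit 2) (@Lb.g g8 (@Lb.g g9 (@Lb.g g10 (@Lb.r r599 (@Lb.r r98 (@Lb.r r97 (@Lb.r r408 (@Lb.d (nat_lit 149) (nat_lit 152) (nat_lit 138) (@Lb.t (@Lb.fp (nat_lit 9) t51))))))))))))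
noncomputable def l14683 : Lb := (@Lb.d (nat_lit 640) (nat_lit 128) (nat_lit 513) (@Lb.r r1317 (@Lb.r r2648 (@Lb.r r2651 (@Lb.g g6 (@Lb.g g5 (@Lb.d (nat_lit 16) (nat_lit 17) (nat_lit 1) (@Lb.r r387 (@Lb.fp (nat_lit 3) t125)))))))))
noncomputable def l14684 : Lb := (@Lb.d (nat_lit 0) (nat_lit 512) (nat_lit 417) (@Lb.r r323 (@Lb.r r2626 (@Lb.g g7 (@Lb.t (@Lb.fm (nat_lit 3) t2))))))
noncomputable def l14685 : Lb := (@Lb.d (nat_lit 530) (nat_lit 517) (nat_lit 18) (@Lb.r r1158 (@Lb.r r2132 (@Lb.r r2345 (@Lb.r r2707 (@Lb.g g7 (@Lb.g g6 (@Lb.g g4 (@Lb.d (nat_lit 1) (nat_lit 0) (nat_lit 64) (@Lb.t (@Lb.fm (nat_lit 9) t873)))))))))))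
noncomputable def l14686 : Lb := (@Lb.d (nat_lit 2) (nat_lit 550) (nat_lit 534) (@Lb.r r8 (@Lb.r r338 (@Lb.r r1699 (@Lb.g g6 (@Lb.g g5 (@Lb.d (nat_lit 0) (nat_lit 2) (nat_lit 0) (@Lb.fm (nat_lit 3) t97))))))))
noncomputable def l14687 : Lb := (@Lb.d (nat_lit 2) (nat_lit 548) (nat_lit 64) (@Lb.g g8 (@Lb.g g9 (@Lb.g g10 (@Lb.g g11 (@Lb.r r419 (@Lb.r r2154 (@Lb.r r293 (@Lb.d (nat_lit 4) (nat_lit 33) (nat_lit 596) (@Lb.fm (nat_lit 9) t1444))))))))))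
noncomputable def l14688 : Lb := (@Lb.d (nat_lit 4) (nat_lit 1) (nat_lit 0) (@Lb.g g5 (@Lb.g g11 (@Lb.r r1575 (@Lb.r r24 (@Lb.d (nat_lit 642) (nat_lit 1) (nat_lit 384) (@Lb.fp (nat_lit 3) t1165)))))))
noncomputable def l14689 : Lb := (@Lb.d (nat_lit 4) (nat_lit 10) (nat_lit 72) (@Lb.g g8 (@Lb.g g9 (@Lb.g g10 (@Lb.g g11 (@Lb.r r1706 (@Lb.r r2451 (@Lb.r r1553 (@Lb.r r1416 (@Lb.d (nat_lit 34) (nat_lit 105) (nat_lit 672) (@Lb.fp (nat_lit 9) t2391)))))))))))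
noncomputable def l14690 : Lb := (@Lb.d (nat_lit 1) (nat_lit 550) (nat_lit 534) (@Lb.r r338 (@Lb.r r1699 (@Lb.g g6 (@Lb.g g5 (@Lb.g g4 (@Lb.d (nat_lit 1) (nat_lit 2) (nat_lit 0) (@Lb.t (@Lb.fm (nat_lit 9) t97)))))))))
noncomputable def l14691 : Lb := (@Lb.d (nat_lit 8) (nat_lit 546) (nat_lit 0) (@Lb.g g5 (@Lb.r r680 (@Lb.r r427 (@Lb.r r2178 (@Lb.r r2393 (@Lb.d (nat_lit 106) (nat_lit 106) (nat_lit 362) (@Lb.t (@Lb.fm (nat_lit 3) t3087)))))))))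
noncomputable def l14692 : Lb := (@Lb.d (nat_lit 2) (nat_lit 2) (nat_lit 2) (@Lb.g g8 (@Lb.g g9 (@Lb.g g10 (@Lb.r r2666 (@Lb.r r2585 (@Lb.d (nat_lit 644) (nat_lit 168) (nat_lit 640) (@Lb.t (@Lb.fm (nat_lit 9) t2775)))))))))
noncomputable def l14693 : Lb := (@Lb.d (nat_lit 2) (nat_lit 260) (nat_lit 72) (@Lb.g g8 (@Lb.g g9 (@Lb.g g10 (@Lb.g g11 (@Lb.r r618 (@Lb.r r579 (@Lb.r r145 (@Lb.d (nat_lit 129) (nat_lit 41) (nat_lit 66) (@Lb.fm (nat_lit 9) t5))))))))))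
noncomputable def l14694 : Lb := (@Lb.d (nat_lit 2) (nat_lit 34) (nat_lit 128) (@Lb.g g8 (@Lb.g g9 (@Lb.g g11 (@Lb.r r330 (@Lb.r r1415 (@Lb.r r2073 (@Lb.d (nat_lit 102) (nat_lit 97) (nat_lit 258) (@Lb.t (@Lb.fm (nat_lit 9) t2377))))))))))
noncomputable def l14695 : Lb := (@Lb.d (nat_lit 2) (nat_lit 34) (nat_lit 66) (@Lb.g g8 (@Lb.g g9 (@Lb.g g10 (@Lb.g g11 (@Lb.r r2650 (@Lb.r r2659 (@Lb.r r2145 (@Lb.d (nat_lit 409) (nat_lit 4) (nat_lit 345) (@Lb.fp (nat_lit 9) t3088))))))))))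
noncomputable def l14696 : Lb := (@Lb.r r21 (@Lb.r r323 (@Lb.d (nat_lit 42) (nat_lit 0) (nat_lit 1) (@Lb.g g8 (@Lb.g g10 (@Lb.r r2465 (@Lb.r r1431 (@Lb.r r138 (@Lb.r r1348 (@Lb.d (nat_lit 42) (nat_lit 128) (nat_lit 160) (@Lb.fm (nat_lit 3) t125)))))))))))
noncomputable def l14697 : Lb := (@Lb.r r2315 (@Lb.r r356 (@Lb.r r154 (@Lb.r r2133 (@Lb.r r164 (@Lb.d (nat_lit 353) (nat_lit 0) (nat_lit 596) (@Lb.fm (nat_lit 1) t386)))))))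
noncomputable def l14698 : Lb := (@Lb.r r21 (@Lb.r r323 (@Lb.d (nat_lit 42) (nat_lit 512) (nat_lit 1) (@Lb.g g8 (@Lb.g g10 (@Lb.r r2465 (@Lb.r r1431 (@Lb.r r138 (@Lb.r r1348 (@Lb.d (nat_lit 32) (nat_lit 129) (nat_lit 160) (@Lb.fm (nat_lit 3) t125)))))))))))
noncomputable def l14699 : Lb := (@Lb.d (nat_lit 153) (nat_lit 257) (nat_lit 128) (@Lb.g g8 (@Lb.g g9 (@Lb.g g10 (@Lb.g g11 (@Lb.r r387 (@Lb.r r164 (@Lb.r r2470 (@Lb.r r145 (@Lb.d (nat_lit 330) (nat_lit 69) (nat_lit 408) (@Lb.fm (nat_lit 9) t1156)))))))))))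
noncomputable def l14700 : Lb := (@Lb.d (nat_lit 0) (nat_lit 0) (nat_lit 128) (@Lb.g g11 (@Lb.r r406 (@Lb.r r2659 (@Lb.r r2661 (@Lb.d (nat_lit 4) (nat_lit 25) (nat_lit 66) (@Lb.t (@Lb.fm (nat_lit 3) t1675))))))))
noncomputable def l14701 : Lb := (@Lb.d (nat_lit 152) (nat_lit 257) (nat_lit 74) (@Lb.g g8 (@Lb.g g9 (@Lb.g g10 (@Lb.g g11 (@Lb.r r683 (@Lb.r r2410 (@Lb.r r1561 (@Lb.r r1540 (@Lb.d (nat_lit 393) (nat_lit 153) (nat_lit 5) (@Lb.fm (nat_lit 9) t531)))))))))))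
noncomputable def l14702 : Lb := (@Lb.d (nat_lit 273) (nat_lit 256) (nat_lit 2) (@Lb.r r24 (@Lb.r r101 (@Lb.r r2403 (@Lb.g g6 (@Lb.g g4 (@Lb.d (nat_lit 6) (nat_lit 4) (nat_lit 1) (@Lb.fm (nat_lit 3) t759))))))))
noncomputable def l14703 : Lb := (@Lb.d (nat_lit 594) (nat_lit 512) (nat_lit 578) (@Lb.r r24 (@Lb.r r101 (@Lb.r r2659 (@Lb.g g6 (@Lb.g g4 (@Lb.d (nat_lit 5) (nat_lit 4) (nat_lit 17) (@Lb.r r387 (@Lb.fp (nat_lit 3) t809)))))))))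
noncomputable def l14704 : Lb := (@Lb.d (nat_lit 0) (nat_lit 513) (nat_lit 136) (@Lb.g g9 (@Lb.g g11 (@Lb.r r40 (@Lb.r r153 (@Lb.d (nat_lit 37) (nat_lit 144) (nat_lit 266) (@Lb.fp (nat_lit 3) t1174)))))))
noncomputable def l14705 : Lb := (@Lb.d (nat_lit 74) (nat_lit 612) (nat_lit 1) (@Lb.r r101 (@Lb.r r2403 (@Lb.r r594 (@Lb.g g11 (@Lb.t (@Lb.fm (nat_lit 3) t3089)))))))
noncomputable def l14706 : Lb := (@Lb.r r82 (@Lb.d (nat_lit 34) (nat_lit 545) (nat_lit 72) (@Lb.g g8 (@Lb.g g9 (@Lb.g g11 (@Lb.r r1362 (@Lb.r r2645 (@Lb.r r2404 (@Lb.r r1419 (@Lb.d (nat_lit 640) (nat_lit 34) (nat_lit 344) (@Lb.t (@Lb.fm (nat_lit 9) t718))))))))))))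
noncomputable def l14707 : Lb := (@Lb.d (nat_lit 1) (nat_lit 324) (nat_lit 0) (@Lb.g g4 (@Lb.g g9 (@Lb.g g10 (@Lb.r r515 (@Lb.r r98 (@Lb.d (nat_lit 0) (nat_lit 128) (nat_lit 68) (@Lb.t (@Lb.fm (nat_lit 9) t657)))))))))
noncomputable def l14708 : Lb := (@Lb.d (nat_lit 4) (nat_lit 5) (nat_lit 74) (@Lb.g g8 (@Lb.g g9 (@Lb.g g10 (@Lb.g g11 (@Lb.r r427 (@Lb.r r2630 (@Lb.r r420 (@Lb.r r2197 (@Lb.d (nat_lit 521) (nat_lit 102) (nat_lit 262) (@Lb.fp (nat_lit 9) t2774)))))))))))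
noncomputable def l14709 : Lb := (@Lb.d (nat_lit 1) (nat_lit 260) (nat_lit 128) (@Lb.g g8 (@Lb.g g9 (@Lb.g g10 (@Lb.g g11 (@Lb.r r427 (@Lb.r r145 (@Lb.r r356 (@Lb.r r154 (@Lb.r r132 (@Lb.d (nat_lit 9) (nat_lit 9) (nat_lit 136) (@Lb.fm (nat_lit 9) t601))))))))))))
noncomputable def l14710 : Lb := (@Lb.d (nat_lit 101) (nat_lit 613) (nat_lit 324) (@Lb.r r2452 (@Lb.r r2665 (@Lb.r r363 (@Lb.g g10 (@Lb.g g5 (@Lb.g g4 (@Lb.d (nat_lit 66) (nat_lit 5) (nat_lit 18) (@Lb.t (@Lb.fp (nat_lit 9) t1621))))))))))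
noncomputable def l14711 : Lb := (@Lb.d (nat_lit 128) (nat_lit 2) (nat_lit 130) (@Lb.g g8 (@Lb.g g9 (@Lb.g g10 (@Lb.g g11 (@Lb.r r1675 (@Lb.r r164 (@Lb.r r2197 (@Lb.r r2646 (@Lb.r r164 (@Lb.d (nat_lit 393) (nat_lit 128) (nat_lit 362) (@Lb.fm (nat_lit 9) t1622))))))))))))
noncomputable def l14712 : Lb := (@Lb.d (nat_lit 145) (nat_lit 514) (nat_lit 74) (@Lb.g g8 (@Lb.g g9 (@Lb.g g10 (@Lb.g g11 (@Lb.r r2347 (@Lb.r r1366 (@Lb.r r1433 (@Lb.r r1432 (@Lb.d (nat_lit 26) (nat_lit 66) (nat_lit 657) (@Lb.fm (nat_lit 9) t3090)))))))))))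
noncomputable def l14713 : Lb := (@Lb.r r82 (@Lb.d (nat_lit 41) (nat_lit 258) (nat_lit 128) (@Lb.g g8 (@Lb.g g9 (@Lb.g g11 (@Lb.r r2723 (@Lb.r r582 (@Lb.r r2137 (@Lb.r r2180 (@Lb.d (nat_lit 96) (nat_lit 170) (nat_lit 5) (@Lb.t (@Lb.fp (nat_lit 9) t525))))))))))))
noncomputable def l14714 : Lb := (@Lb.r r323 (@Lb.d (nat_lit 32) (nat_lit 546) (nat_lit 2) (@Lb.g g8 (@Lb.g g9 (@Lb.g g10 (@Lb.r r595 (@Lb.r r2154 (@Lb.r r2660 (@Lb.r r101 (@Lb.d (nat_lit 153) (nat_lit 152) (nat_lit 514) (@Lb.t (@Lb.fm (nat_lit 9) t823))))))))))))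
noncomputable def l14715 : Lb := (@Lb.d (nat_lit 640) (nat_lit 34) (nat_lit 0) (@Lb.g g4 (@Lb.g g5 (@Lb.r r1315 (@Lb.r r2178 (@Lb.r r2405 (@Lb.d (nat_lit 417) (nat_lit 20) (nat_lit 169) (@Lb.fm (nat_lit 3) t1282))))))))
noncomputable def l14716 : Lb := (@Lb.d (nat_lit 86) (nat_lit 614) (nat_lit 581) (@Lb.r r2178 (@Lb.r r1447 (@Lb.r r2337 (@Lb.g g7 (@Lb.g g4 (@Lb.d (nat_lit 1) (nat_lit 16) (nat_lit 128) (@Lb.fm (nat_lit 3) t3091))))))))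
noncomputable def l14717 : Lb := (@Lb.d (nat_lit 66) (nat_lit 514) (nat_lit 614) (@Lb.r r1412 (@Lb.r r2634 (@Lb.r r2731 (@Lb.g g6 (@Lb.g g9 (@Lb.g g4 (@Lb.d (nat_lit 2) (nat_lit 150) (nat_lit 2) (@Lb.r r387 (@Lb.t (@Lb.fp (nat_lit 9) t1385)))))))))))
noncomputable def l14718 : Lb := (@Lb.d (nat_lit 0) (nat_lit 8) (nat_lit 2) (@Lb.g g10 (@Lb.r r101 (@Lb.r r24 (@Lb.d (nat_lit 0) (nat_lit 10) (nat_lit 1) (@Lb.t (@Lb.fp (nat_lit 3) t145)))))))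
noncomputable def l14719 : Lb := (@Lb.d (nat_lit 33) (nat_lit 289) (nat_lit 65) (@Lb.g g8 (@Lb.g g9 (@Lb.g g10 (@Lb.g g11 (@Lb.r r1706 (@Lb.r r676 (@Lb.r r1575 (@Lb.r r2577 (@Lb.d (nat_lit 586) (nat_lit 97) (nat_lit 602) (@Lb.fp (nat_lit 9) t3092)))))))))))
noncomputable def l14720 : Lb := (@Lb.d (nat_lit 40) (nat_lit 544) (nat_lit 65) (@Lb.g g8 (@Lb.g g9 (@Lb.g g10 (@Lb.g g11 (@Lb.r r2595 (@Lb.r r2442 (@Lb.r r1177 (@Lb.r r1412 (@Lb.d (nat_lit 550) (nat_lit 161) (nat_lit 106) (@Lb.fp (nat_lit 9) t1638)))))))))))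
noncomputable def l14721 : Lb := (@Lb.d (nat_lit 1) (nat_lit 522) (nat_lit 97) (@Lb.g g8 (@Lb.g g9 (@Lb.g g6 (@Lb.g g11 (@Lb.r r324 (@Lb.r r555 (@Lb.r r2601 (@Lb.r r1572 (@Lb.d (nat_lit 401) (nat_lit 129) (nat_lit 408) (@Lb.fm (nat_lit 9) t3093)))))))))))
noncomputable def l14722 : Lb := (@Lb.d (nat_lit 129) (nat_lit 512) (nat_lit 2) (@Lb.g g8 (@Lb.g g10 (@Lb.r r519 (@Lb.r r161 (@Lb.r r98 (@Lb.r r264 (@Lb.d (nat_lit 130) (nat_lit 8) (nat_lit 134) (@Lb.fp (nat_lit 3) t97)))))))))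
noncomputable def l14723 : Lb := (@Lb.d (nat_lit 2) (nat_lit 512) (nat_lit 0) (@Lb.g g8 (@Lb.g g9 (@Lb.r r1162 (@Lb.r r1188 (@Lb.r r405 (@Lb.r r1635 (@Lb.d (nat_lit 0) (nat_lit 0) (nat_lit 85) (@Lb.fm (nat_lit 3) t1594)))))))))
noncomputable def l14724 : Lb := (@Lb.d (nat_lit 2) (nat_lit 256) (nat_lit 0) (@Lb.g g8 (@Lb.g g9 (@Lb.g g11 (@Lb.r r1162 (@Lb.r r1188 (@Lb.r r405 (@Lb.r r1635 (@Lb.d (nat_lit 2) (nat_lit 0) (nat_lit 85) (@Lb.t (@Lb.fm (nat_lit 9) t1592)))))))))))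
noncomputable def l14725 : Lb := (@Lb.d (nat_lit 2) (nat_lit 0) (nat_lit 0) (@Lb.g g8 (@Lb.g g9 (@Lb.r r1162 (@Lb.r r1188 (@Lb.r r405 (@Lb.r r1635 (@Lb.d (nat_lit 2) (nat_lit 0) (nat_lit 85) (@Lb.fm (nat_lit 3) t1592)))))))))
noncomputable def l14726 : Lb := (@Lb.r r322 (@Lb.d (nat_lit 4) (nat_lit 1) (nat_lit 640) (@Lb.g g8 (@Lb.g g9 (@Lb.g g11 (@Lb.r r2454 (@Lb.r r1640 (@Lb.r r1705 (@Lb.d (nat_lit 290) (nat_lit 149) (nat_lit 664) (@Lb.t (@Lb.fp (nat_lit 9) t2118)))))))))))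
noncomputable def l14727 : Lb := (@Lb.d (nat_lit 160) (nat_lit 512) (nat_lit 345) (@Lb.r r24 (@Lb.r r1447 (@Lb.r r2470 (@Lb.r r421 (@Lb.g g7 (@Lb.d (nat_lit 0) (nat_lit 16) (nat_lit 68) (@Lb.t (@Lb.fp (nat_lit 3) t322)))))))))
noncomputable def l14728 : Lb := (@Lb.d (nat_lit 512) (nat_lit 256) (nat_lit 0) (@Lb.r r1045 (@Lb.g g4 (@Lb.d (nat_lit 1) (nat_lit 0) (nat_lit 0) (@Lb.t (@Lb.fm (nat_lit 3) t2))))))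
noncomputable def l14729 : Lb := (@Lb.d (nat_lit 8) (nat_lit 258) (nat_lit 130) (@Lb.g g9 (@Lb.g g10 (@Lb.g g11 (@Lb.r r586 (@Lb.r r584 (@Lb.r r619 (@Lb.r r609 (@Lb.d (nat_lit 9) (nat_lit 137) (nat_lit 162) (@Lb.t (@Lb.fp (nat_lit 9) t387)))))))))))
noncomputable def l14730 : Lb := (@Lb.d (nat_lit 1) (nat_lit 128) (nat_lit 32) (@Lb.r r597 (@Lb.r r279 (@Lb.r r584 (@Lb.r r326 (@Lb.g g7 (@Lb.g g6 (@Lb.g g5 (@Lb.d (nat_lit 0) (nat_lit 0) (nat_lit 65) (@Lb.t (@Lb.fm (nat_lit 9) t1023)))))))))))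
noncomputable def l14731 : Lb := (@Lb.d (nat_lit 0) (nat_lit 138) (nat_lit 649) (@Lb.r r579 (@Lb.r r402 (@Lb.g g11 (@Lb.t (@Lb.fp (nat_lit 3) t305))))))
noncomputable def l14732 : Lb := (@Lb.r r323 (@Lb.d (nat_lit 33) (nat_lit 546) (nat_lit 2) (@Lb.g g8 (@Lb.g g9 (@Lb.g g10 (@Lb.r r1444 (@Lb.r r331 (@Lb.r r342 (@Lb.r r409 (@Lb.d (nat_lit 289) (nat_lit 6) (nat_lit 601) (@Lb.t (@Lb.fm (nat_lit 9) t3094))))))))))))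
noncomputable def l14733 : Lb := (@Lb.d (nat_lit 0) (nat_lit 0) (nat_lit 136) (@Lb.g g11 (@Lb.r r1617 (@Lb.r r354 (@Lb.r r1427 (@Lb.r r1124 (@Lb.d (nat_lit 10) (nat_lit 90) (nat_lit 394) (@Lb.t (@Lb.fp (nat_lit 3) t772)))))))))
noncomputable def l14734 : Lb := (@Lb.d (nat_lit 0) (nat_lit 256) (nat_lit 136) (@Lb.g g11 (@Lb.r r1617 (@Lb.r r354 (@Lb.r r1427 (@Lb.r r1124 (@Lb.d (nat_lit 280) (nat_lit 85) (nat_lit 409) (@Lb.t (@Lb.fp (nat_lit 3) t2895)))))))))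
noncomputable def l14735 : Lb := (@Lb.r r82 (@Lb.r r275 (@Lb.d (nat_lit 9) (nat_lit 385) (nat_lit 0) (@Lb.g g8 (@Lb.g g5 (@Lb.r r2651 (@Lb.r r386 (@Lb.r r24 (@Lb.d (nat_lit 264) (nat_lit 0) (nat_lit 2) (@Lb.fm (nat_lit 3) t1061))))))))))
noncomputable def l14736 : Lb := (@Lb.d (nat_lit 642) (nat_lit 0) (nat_lit 320) (@Lb.r r24 (@Lb.r r101 (@Lb.r r1426 (@Lb.g g7 (@Lb.g g5 (@Lb.d (nat_lit 0) (nat_lit 0) (nat_lit 68) (@Lb.r r578 (@Lb.fp (nat_lit 3) t2033)))))))))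
noncomputable def l14737 : Lb := (@Lb.d (nat_lit 612) (nat_lit 38) (nat_lit 102) (@Lb.r r597 (@Lb.r r599 (@Lb.r r264 (@Lb.r r2150 (@Lb.g g7 (@Lb.g g5 (@Lb.d (nat_lit 68) (nat_lit 6) (nat_lit 64) (@Lb.fm (nat_lit 3) t322)))))))))
noncomputable def l14738 : Lb := (@Lb.r r275 (@Lb.d (nat_lit 130) (nat_lit 2) (nat_lit 2) (@Lb.g g8 (@Lb.g g9 (@Lb.g g10 (@Lb.r r599 (@Lb.r r98 (@Lb.r r324 (@Lb.d (nat_lit 81) (nat_lit 9) (nat_lit 26) (@Lb.t (@Lb.fp (nat_lit 9) t3095)))))))))))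
noncomputable def l14739 : Lb := (@Lb.d (nat_lit 4) (nat_lit 513) (nat_lit 1) (@Lb.g g5 (@Lb.g g10 (@Lb.r r2202 (@Lb.r r24 (@Lb.d (nat_lit 82) (nat_lit 1) (nat_lit 545) (@Lb.fp (nat_lit 3) t282)))))))
noncomputable def l14740 : Lb := (@Lb.r r20 (@Lb.d (nat_lit 0) (nat_lit 33) (nat_lit 130) (@Lb.g g9 (@Lb.g g10 (@Lb.g g11 (@Lb.r r675 (@Lb.r r1634 (@Lb.r r1553 (@Lb.d (nat_lit 2) (nat_lit 98) (nat_lit 274) (@Lb.t (@Lb.fp (nat_lit 9) t919)))))))))))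
noncomputable def l14741 : Lb := (@Lb.r r323 (@Lb.d (nat_lit 130) (nat_lit 265) (nat_lit 1) (@Lb.g g8 (@Lb.g g9 (@Lb.g g10 (@Lb.r r1450 (@Lb.r r583 (@Lb.r r2201 (@Lb.r r408 (@Lb.d (nat_lit 341) (nat_lit 154) (nat_lit 330) (@Lb.t (@Lb.fp (nat_lit 9) t125))))))))))))
noncomputable def l14742 : Lb := (@Lb.r r323 (@Lb.d (nat_lit 130) (nat_lit 9) (nat_lit 1) (@Lb.g g8 (@Lb.g g9 (@Lb.g g10 (@Lb.r r1450 (@Lb.r r583 (@Lb.r r2201 (@Lb.r r408 (@Lb.d (nat_lit 346) (nat_lit 152) (nat_lit 330) (@Lb.t (@Lb.fp (nat_lit 9) t125))))))))))))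
noncomputable def l14743 : Lb := (@Lb.d (nat_lit 4) (nat_lit 673) (nat_lit 0) (@Lb.g g8 (@Lb.g g5 (@Lb.r r322 (@Lb.r r1667 (@Lb.r r578 (@Lb.r r24 (@Lb.d (nat_lit 8) (nat_lit 0) (nat_lit 68) (@Lb.fp (nat_lit 3) t167)))))))))
noncomputable def l14744 : Lb := (@Lb.d (nat_lit 130) (nat_lit 1) (nat_lit 0) (@Lb.g g8 (@Lb.g g9 (@Lb.r r2695 (@Lb.r r2178 (@Lb.r r2201 (@Lb.r r2392 (@Lb.d (nat_lit 89) (nat_lit 145) (nat_lit 608) (@Lb.fp (nat_lit 3) t626)))))))))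
noncomputable def l14745 : Lb := (@Lb.r r21 (@Lb.d (nat_lit 146) (nat_lit 0) (nat_lit 132) (@Lb.g g8 (@Lb.g g10 (@Lb.g g11 (@Lb.r r2699 (@Lb.r r2184 (@Lb.r r394 (@Lb.r r25 (@Lb.d (nat_lit 385) (nat_lit 5) (nat_lit 362) (@Lb.t (@Lb.fp (nat_lit 9) t766))))))))))))
noncomputable def l14746 : Lb := (@Lb.d (nat_lit 641) (nat_lit 514) (nat_lit 130) (@Lb.g g8 (@Lb.g g9 (@Lb.g g10 (@Lb.g g11 (@Lb.r r1451 (@Lb.r r106 (@Lb.r r25 (@Lb.d (nat_lit 9) (nat_lit 72) (nat_lit 425) (@Lb.fp (nat_lit 9) t898))))))))))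
noncomputable def l14747 : Lb := (@Lb.d (nat_lit 9) (nat_lit 257) (nat_lit 73) (@Lb.g g8 (@Lb.g g9 (@Lb.g g10 (@Lb.g g11 (@Lb.r r2666 (@Lb.r r579 (@Lb.r r25 (@Lb.r r24 (@Lb.d (nat_lit 6) (nat_lit 160) (nat_lit 586) (@Lb.fp (nat_lit 9) t51)))))))))))
noncomputable def l14748 : Lb := (@Lb.d (nat_lit 2) (nat_lit 2) (nat_lit 73) (@Lb.g g8 (@Lb.g g9 (@Lb.g g10 (@Lb.g g11 (@Lb.r r2666 (@Lb.r r579 (@Lb.r r25 (@Lb.d (nat_lit 0) (nat_lit 161) (nat_lit 522) (@Lb.fm (nat_lit 9) t119))))))))))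
noncomputable def l14749 : Lb := (@Lb.d (nat_lit 2) (nat_lit 258) (nat_lit 73) (@Lb.g g8 (@Lb.g g9 (@Lb.g g10 (@Lb.g g11 (@Lb.r r2666 (@Lb.r r579 (@Lb.r r97 (@Lb.r r24 (@Lb.d (nat_lit 145) (nat_lit 0) (nat_lit 324) (@Lb.fm (nat_lit 9) t61)))))))))))
noncomputable def l14750 : Lb := (@Lb.d (nat_lit 2) (nat_lit 544) (nat_lit 73) (@Lb.g g8 (@Lb.g g10 (@Lb.g g11 (@Lb.r r2122 (@Lb.r r360 (@Lb.r r281 (@Lb.r r2599 (@Lb.d (nat_lit 650) (nat_lit 81) (nat_lit 276) (@Lb.t (@Lb.fm (nat_lit 9) t71)))))))))))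
noncomputable def l14751 : Lb := (@Lb.d (nat_lit 2) (nat_lit 2) (nat_lit 73) (@Lb.g g8 (@Lb.g g9 (@Lb.g g10 (@Lb.g g11 (@Lb.r r2666 (@Lb.r r579 (@Lb.r r97 (@Lb.r r24 (@Lb.d (nat_lit 146) (nat_lit 0) (nat_lit 324) (@Lb.fm (nat_lit 9) t61)))))))))))
noncomputable def l14752 : Lb := (@Lb.d (nat_lit 9) (nat_lit 518) (nat_lit 74) (@Lb.g g8 (@Lb.g g9 (@Lb.g g10 (@Lb.g g11 (@Lb.r r1699 (@Lb.r r596 (@Lb.r r682 (@Lb.r r2217 (@Lb.r r2212 (@Lb.d (nat_lit 586) (nat_lit 104) (nat_lit 585) (@Lb.fm (nat_lit 9) t151))))))))))))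
noncomputable def l14753 : Lb := (@Lb.r r337 (@Lb.r r2723 (@Lb.r r1682 (@Lb.r r2129 (@Lb.r r2564 (@Lb.d (nat_lit 2) (nat_lit 640) (nat_lit 394) (@Lb.fp (nat_lit 1) t242)))))))
noncomputable def l14754 : Lb := (@Lb.d (nat_lit 0) (nat_lit 264) (nat_lit 2) (@Lb.g g10 (@Lb.g g7 (@Lb.r r101 (@Lb.r r24 (@Lb.d (nat_lit 0) (nat_lit 0) (nat_lit 2) (@Lb.fp (nat_lit 3) t145)))))))
noncomputable def l14755 : Lb := (@Lb.d (nat_lit 8) (nat_lit 336) (nat_lit 593) (@Lb.r r2182 (@Lb.r r2323 (@Lb.r r661 (@Lb.g g7 (@Lb.g g8 (@Lb.d (nat_lit 352) (nat_lit 16) (nat_lit 128) (@Lb.r r74 (@Lb.r r25 (@Lb.fm (nat_lit 3) t329))))))))))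
noncomputable def l14756 : Lb := (@Lb.r r263 (@Lb.d (nat_lit 2) (nat_lit 265) (nat_lit 1) (@Lb.g g8 (@Lb.g g9 (@Lb.g g10 (@Lb.r r1689 (@Lb.r r343 (@Lb.r r2698 (@Lb.r r72 (@Lb.d (nat_lit 146) (nat_lit 0) (nat_lit 356) (@Lb.t (@Lb.fm (nat_lit 9) t3096))))))))))))
noncomputable def l14757 : Lb := (@Lb.d (nat_lit 1) (nat_lit 513) (nat_lit 128) (@Lb.g g8 (@Lb.g g9 (@Lb.g g11 (@Lb.r r680 (@Lb.r r1561 (@Lb.r r539 (@Lb.r r2178 (@Lb.r r516 (@Lb.d (nat_lit 544) (nat_lit 137) (nat_lit 662) (@Lb.t (@Lb.fp (nat_lit 9) t1624))))))))))))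
noncomputable def l14758 : Lb := (@Lb.d (nat_lit 1) (nat_lit 257) (nat_lit 128) (@Lb.g g8 (@Lb.g g9 (@Lb.g g11 (@Lb.r r680 (@Lb.r r1561 (@Lb.r r539 (@Lb.r r2178 (@Lb.r r516 (@Lb.d (nat_lit 544) (nat_lit 130) (nat_lit 660) (@Lb.t (@Lb.fp (nat_lit 9) t1624))))))))))))
noncomputable def l14759 : Lb := (@Lb.d (nat_lit 640) (nat_lit 33) (nat_lit 0) (@Lb.g g4 (@Lb.g g9 (@Lb.r r2579 (@Lb.r r2178 (@Lb.r r409 (@Lb.d (nat_lit 150) (nat_lit 84) (nat_lit 402) (@Lb.fp (nat_lit 3) t1624))))))))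
noncomputable def l14760 : Lb := (@Lb.d (nat_lit 602) (nat_lit 592) (nat_lit 344) (@Lb.r r2408 (@Lb.r r2409 (@Lb.r r1447 (@Lb.r r406 (@Lb.g g7 (@Lb.g g5 (@Lb.g g4 (@Lb.d (nat_lit 17) (nat_lit 1) (nat_lit 0) (@Lb.t (@Lb.fm (nat_lit 9) t3097)))))))))))
noncomputable def l14761 : Lb := (@Lb.d (nat_lit 26) (nat_lit 352) (nat_lit 522) (@Lb.r r85 (@Lb.r r40 (@Lb.r r323 (@Lb.g g7 (@Lb.g g6 (@Lb.g g5 (@Lb.d (nat_lit 0) (nat_lit 2) (nat_lit 64) (@Lb.t (@Lb.fm (nat_lit 9) t1061))))))))))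
noncomputable def l14762 : Lb := (@Lb.r r1284 (@Lb.d (nat_lit 0) (nat_lit 16) (nat_lit 66) (@Lb.g g9 (@Lb.g g10 (@Lb.g g11 (@Lb.r r2721 (@Lb.r r2722 (@Lb.r r2467 (@Lb.d (nat_lit 0) (nat_lit 36) (nat_lit 674) (@Lb.t (@Lb.fm (nat_lit 9) t730)))))))))))
noncomputable def l14763 : Lb := (@Lb.d (nat_lit 32) (nat_lit 256) (nat_lit 2) (@Lb.g g9 (@Lb.g g10 (@Lb.r r1284 (@Lb.r r2379 (@Lb.r r1686 (@Lb.r r2145 (@Lb.d (nat_lit 128) (nat_lit 0) (nat_lit 532) (@Lb.fm (nat_lit 3) t578)))))))))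
noncomputable def l14764 : Lb := (@Lb.d (nat_lit 2) (nat_lit 258) (nat_lit 130) (@Lb.g g8 (@Lb.g g9 (@Lb.g g10 (@Lb.g g11 (@Lb.r r427 (@Lb.r r324 (@Lb.r r2218 (@Lb.r r1193 (@Lb.r r1188 (@Lb.d (nat_lit 400) (nat_lit 73) (nat_lit 393) (@Lb.fp (nat_lit 9) t386))))))))))))
noncomputable def l14765 : Lb := (@Lb.d (nat_lit 2) (nat_lit 2) (nat_lit 130) (@Lb.g g8 (@Lb.g g9 (@Lb.g g10 (@Lb.g g11 (@Lb.r r427 (@Lb.r r324 (@Lb.r r2218 (@Lb.r r1193 (@Lb.r r1188 (@Lb.d (nat_lit 608) (nat_lit 73) (nat_lit 681) (@Lb.fp (nat_lit 9) t386))))))))))))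
noncomputable def l14766 : Lb := (@Lb.r r82 (@Lb.d (nat_lit 34) (nat_lit 258) (nat_lit 580) (@Lb.g g8 (@Lb.g g9 (@Lb.g g7 (@Lb.r r1385 (@Lb.r r150 (@Lb.r r100 (@Lb.d (nat_lit 88) (nat_lit 5) (nat_lit 296) (@Lb.t (@Lb.fp (nat_lit 9) t739)))))))))))
noncomputable def l14767 : Lb := (@Lb.d (nat_lit 10) (nat_lit 296) (nat_lit 80) (@Lb.r r359 (@Lb.r r1297 (@Lb.r r362 (@Lb.g g7 (@Lb.g g6 (@Lb.g g5 (@Lb.g g8 (@Lb.d (nat_lit 2) (nat_lit 18) (nat_lit 129) (@Lb.fm (nat_lit 9) t3098))))))))))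
noncomputable def l14768 : Lb := (@Lb.r r273 (@Lb.r r322 (@Lb.d (nat_lit 129) (nat_lit 528) (nat_lit 256) (@Lb.g g8 (@Lb.g g7 (@Lb.r r361 (@Lb.r r146 (@Lb.r r264 (@Lb.d (nat_lit 168) (nat_lit 128) (nat_lit 518) (@Lb.fm (nat_lit 3) t541))))))))))
noncomputable def l14769 : Lb := (@Lb.r r21 (@Lb.d (nat_lit 129) (nat_lit 512) (nat_lit 130) (@Lb.g g8 (@Lb.g g10 (@Lb.g g11 (@Lb.r r419 (@Lb.r r132 (@Lb.r r2438 (@Lb.r r97 (@Lb.d (nat_lit 361) (nat_lit 26) (nat_lit 420) (@Lb.t (@Lb.fm (nat_lit 9) t1377))))))))))))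
noncomputable def l14770 : Lb := (@Lb.d (nat_lit 2) (nat_lit 289) (nat_lit 130) (@Lb.g g8 (@Lb.g g9 (@Lb.g g10 (@Lb.g g11 (@Lb.r r387 (@Lb.r r1561 (@Lb.r r1624 (@Lb.r r2438 (@Lb.d (nat_lit 336) (nat_lit 10) (nat_lit 424) (@Lb.fp (nat_lit 9) t3099)))))))))))
noncomputable def l14771 : Lb := (@Lb.d (nat_lit 152) (nat_lit 520) (nat_lit 130) (@Lb.g g8 (@Lb.g g9 (@Lb.g g10 (@Lb.g g11 (@Lb.r r683 (@Lb.r r2410 (@Lb.r r1561 (@Lb.r r1540 (@Lb.d (nat_lit 393) (nat_lit 153) (nat_lit 133) (@Lb.fm (nat_lit 9) t3100)))))))))))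
noncomputable def l14772 : Lb := (@Lb.r r323 (@Lb.d (nat_lit 137) (nat_lit 257) (nat_lit 2) (@Lb.g g8 (@Lb.g g9 (@Lb.g g10 (@Lb.r r1450 (@Lb.r r583 (@Lb.r r280 (@Lb.r r37 (@Lb.d (nat_lit 586) (nat_lit 162) (nat_lit 336) (@Lb.t (@Lb.fm (nat_lit 9) t3101))))))))))))
noncomputable def l14773 : Lb := (@Lb.d (nat_lit 161) (nat_lit 513) (nat_lit 0) (@Lb.g g8 (@Lb.g g9 (@Lb.r r407 (@Lb.r r1430 (@Lb.r r1625 (@Lb.r r596 (@Lb.d (nat_lit 661) (nat_lit 38) (nat_lit 74) (@Lb.fp (nat_lit 3) t322)))))))))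
noncomputable def l14774 : Lb := (@Lb.d (nat_lit 2) (nat_lit 264) (nat_lit 2) (@Lb.g g8 (@Lb.g g10 (@Lb.d (nat_lit 10) (nat_lit 1) (nat_lit 0) (@Lb.fm (nat_lit 3) t354)))))
noncomputable def l14775 : Lb := (@Lb.d (nat_lit 2) (nat_lit 258) (nat_lit 130) (@Lb.g g8 (@Lb.g g9 (@Lb.g g10 (@Lb.g g11 (@Lb.r r427 (@Lb.r r424 (@Lb.r r106 (@Lb.r r97 (@Lb.d (nat_lit 10) (nat_lit 4) (nat_lit 136) (@Lb.fp (nat_lit 9) t51)))))))))))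
noncomputable def l14776 : Lb := (@Lb.d (nat_lit 6) (nat_lit 362) (nat_lit 642) (@Lb.r r21 (@Lb.r r579 (@Lb.r r1366 (@Lb.g g6 (@Lb.g g5 (@Lb.g g4 (@Lb.d (nat_lit 1) (nat_lit 1) (nat_lit 1) (@Lb.t (@Lb.fm (nat_lit 9) t2877))))))))))
noncomputable def l14777 : Lb := (@Lb.d (nat_lit 0) (nat_lit 256) (nat_lit 128) (@Lb.g g10 (@Lb.g g11 (@Lb.r r545 (@Lb.r r299 (@Lb.r r328 (@Lb.r r134 (@Lb.d (nat_lit 0) (nat_lit 134) (nat_lit 32) (@Lb.fp (nat_lit 3) t154)))))))))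
noncomputable def l14778 : Lb := (@Lb.d (nat_lit 4) (nat_lit 66) (nat_lit 70) (@Lb.r r24 (@Lb.r r417 (@Lb.r r322 (@Lb.r r675 (@Lb.g g6 (@Lb.g g5 (@Lb.d (nat_lit 0) (nat_lit 8) (nat_lit 0) (@Lb.r r291 (@Lb.fp (nat_lit 3) t546))))))))))
noncomputable def l14779 : Lb := (@Lb.r r275 (@Lb.d (nat_lit 9) (nat_lit 258) (nat_lit 2) (@Lb.g g8 (@Lb.g g9 (@Lb.g g10 (@Lb.r r1689 (@Lb.r r531 (@Lb.r r386 (@Lb.d (nat_lit 545) (nat_lit 0) (nat_lit 84) (@Lb.t (@Lb.fm (nat_lit 9) t546)))))))))))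
noncomputable def l14780 : Lb := (@Lb.d (nat_lit 10) (nat_lit 264) (nat_lit 2) (@Lb.g g8 (@Lb.g g10 (@Lb.r r1427 (@Lb.r r101 (@Lb.r r24 (@Lb.d (nat_lit 546) (nat_lit 0) (nat_lit 1) (@Lb.fm (nat_lit 3) t145))))))))
noncomputable def l14781 : Lb := (@Lb.d (nat_lit 0) (nat_lit 264) (nat_lit 2) (@Lb.g g10 (@Lb.r r1427 (@Lb.r r101 (@Lb.r r24 (@Lb.d (nat_lit 512) (nat_lit 10) (nat_lit 1) (@Lb.t (@Lb.fp (nat_lit 3) t145))))))))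
noncomputable def l14782 : Lb := (@Lb.d (nat_lit 0) (nat_lit 520) (nat_lit 2) (@Lb.g g10 (@Lb.r r1427 (@Lb.r r101 (@Lb.r r24 (@Lb.d (nat_lit 514) (nat_lit 10) (nat_lit 1) (@Lb.t (@Lb.fp (nat_lit 3) t145))))))))
noncomputable def l14783 : Lb := (@Lb.d (nat_lit 0) (nat_lit 521) (nat_lit 129) (@Lb.g g8 (@Lb.g g9 (@Lb.g g10 (@Lb.g g11 (@Lb.r r162 (@Lb.r r552 (@Lb.r r665 (@Lb.r r539 (@Lb.r r516 (@Lb.d (nat_lit 328) (nat_lit 73) (nat_lit 585) (@Lb.fm (nat_lit 9) t1234))))))))))))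
noncomputable def l14784 : Lb := (@Lb.d (nat_lit 70) (nat_lit 522) (nat_lit 645) (@Lb.r r24 (@Lb.r r386 (@Lb.r r2587 (@Lb.g g7 (@Lb.g g6 (@Lb.g g9 (@Lb.d (nat_lit 0) (nat_lit 0) (nat_lit 65) (@Lb.t (@Lb.fp (nat_lit 9) t896))))))))))
noncomputable def l14785 : Lb := (@Lb.d (nat_lit 144) (nat_lit 265) (nat_lit 145) (@Lb.g g9 (@Lb.g g6 (@Lb.g g11 (@Lb.r r264 (@Lb.r r583 (@Lb.r r97 (@Lb.d (nat_lit 258) (nat_lit 34) (nat_lit 341) (@Lb.t (@Lb.fm (nat_lit 9) t3102))))))))))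
noncomputable def l14786 : Lb := (@Lb.r r323 (@Lb.d (nat_lit 0) (nat_lit 553) (nat_lit 1) (@Lb.g g9 (@Lb.g g10 (@Lb.r r603 (@Lb.r r600 (@Lb.r r102 (@Lb.r r101 (@Lb.d (nat_lit 26) (nat_lit 136) (nat_lit 68) (@Lb.fp (nat_lit 3) t144))))))))))
noncomputable def l14787 : Lb := (@Lb.r r82 (@Lb.d (nat_lit 0) (nat_lit 164) (nat_lit 64) (@Lb.g g5 (@Lb.g g11 (@Lb.r r595 (@Lb.r r578 (@Lb.d (nat_lit 0) (nat_lit 162) (nat_lit 416) (@Lb.fm (nat_lit 3) t943))))))))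
noncomputable def l14788 : Lb := (@Lb.d (nat_lit 0) (nat_lit 521) (nat_lit 0) (@Lb.g g9 (@Lb.g g10 (@Lb.r r2595 (@Lb.r r1682 (@Lb.r r2657 (@Lb.d (nat_lit 0) (nat_lit 134) (nat_lit 329) (@Lb.fp (nat_lit 3) t3103))))))))
noncomputable def l14789 : Lb := (@Lb.d (nat_lit 6) (nat_lit 514) (nat_lit 170) (@Lb.r r609 (@Lb.r r619 (@Lb.r r584 (@Lb.r r326 (@Lb.g g7 (@Lb.g g6 (@Lb.d (nat_lit 0) (nat_lit 0) (nat_lit 129) (@Lb.fp (nat_lit 3) t1085)))))))))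
noncomputable def l14790 : Lb := (@Lb.d (nat_lit 0) (nat_lit 1) (nat_lit 168) (@Lb.r r609 (@Lb.r r363 (@Lb.r r328 (@Lb.g g6 (@Lb.d (nat_lit 16) (nat_lit 0) (nat_lit 2) (@Lb.t (@Lb.fm (nat_lit 3) t130))))))))
noncomputable def l14791 : Lb := (@Lb.r r82 (@Lb.r r283 (@Lb.d (nat_lit 133) (nat_lit 672) (nat_lit 0) (@Lb.g g8 (@Lb.g g9 (@Lb.r r663 (@Lb.r r1606 (@Lb.r r2456 (@Lb.d (nat_lit 137) (nat_lit 89) (nat_lit 658) (@Lb.fm (nat_lit 3) t3104))))))))))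
noncomputable def l14792 : Lb := (@Lb.r r82 (@Lb.d (nat_lit 105) (nat_lit 16) (nat_lit 64) (@Lb.g g8 (@Lb.g g9 (@Lb.g g11 (@Lb.r r406 (@Lb.r r2391 (@Lb.r r357 (@Lb.r r1096 (@Lb.d (nat_lit 602) (nat_lit 152) (nat_lit 614) (@Lb.t (@Lb.fp (nat_lit 9) t3104))))))))))))
noncomputable def l14793 : Lb := (@Lb.r r326 (@Lb.d (nat_lit 272) (nat_lit 514) (nat_lit 128) (@Lb.g g4 (@Lb.g g9 (@Lb.g g11 (@Lb.r r2379 (@Lb.r r1638 (@Lb.r r1125 (@Lb.d (nat_lit 594) (nat_lit 40) (nat_lit 657) (@Lb.t (@Lb.fm (nat_lit 9) t3105)))))))))))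
noncomputable def l14794 : Lb := (@Lb.d (nat_lit 0) (nat_lit 521) (nat_lit 136) (@Lb.g g9 (@Lb.g g10 (@Lb.g g11 (@Lb.r r401 (@Lb.r r611 (@Lb.r r1378 (@Lb.r r2129 (@Lb.d (nat_lit 0) (nat_lit 40) (nat_lit 578) (@Lb.t (@Lb.fp (nat_lit 9) t943)))))))))))
noncomputable def l14795 : Lb := (@Lb.d (nat_lit 612) (nat_lit 294) (nat_lit 17) (@Lb.r r408 (@Lb.r r330 (@Lb.r r343 (@Lb.g g5 (@Lb.g g4 (@Lb.d (nat_lit 17) (nat_lit 37) (nat_lit 0) (@Lb.r r291 (@Lb.r r98 (@Lb.fp (nat_lit 3) t152))))))))))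
noncomputable def l14796 : Lb := (@Lb.d (nat_lit 0) (nat_lit 512) (nat_lit 66) (@Lb.g g9 (@Lb.g g10 (@Lb.g g7 (@Lb.r r386 (@Lb.r r101 (@Lb.d (nat_lit 16) (nat_lit 152) (nat_lit 329) (@Lb.t (@Lb.fp (nat_lit 9) t3106)))))))))
noncomputable def l14797 : Lb := (@Lb.d (nat_lit 0) (nat_lit 0) (nat_lit 66) (@Lb.g g4 (@Lb.g g9 (@Lb.g g10 (@Lb.g g7 (@Lb.r r386 (@Lb.r r101 (@Lb.d (nat_lit 17) (nat_lit 152) (nat_lit 329) (@Lb.fp (nat_lit 9) t3106)))))))))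
noncomputable def l14798 : Lb := (@Lb.r r81 (@Lb.r r323 (@Lb.d (nat_lit 10) (nat_lit 0) (nat_lit 42) (@Lb.g g8 (@Lb.g g6 (@Lb.r r149 (@Lb.r r1448 (@Lb.r r2567 (@Lb.d (nat_lit 322) (nat_lit 22) (nat_lit 9) (@Lb.fp (nat_lit 3) t1159))))))))))
noncomputable def l14799 : Lb := (@Lb.d (nat_lit 2) (nat_lit 2) (nat_lit 64) (@Lb.g g8 (@Lb.g g9 (@Lb.g g11 (@Lb.r r1323 (@Lb.r r2626 (@Lb.r r25 (@Lb.d (nat_lit 9) (nat_lit 97) (nat_lit 640) (@Lb.t (@Lb.fm (nat_lit 9) t51))))))))))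
noncomputable def l14800 : Lb := (@Lb.d (nat_lit 2) (nat_lit 514) (nat_lit 130) (@Lb.g g8 (@Lb.g g9 (@Lb.g g10 (@Lb.g g11 (@Lb.r r2411 (@Lb.r r386 (@Lb.r r97 (@Lb.r r24 (@Lb.d (nat_lit 265) (nat_lit 9) (nat_lit 169) (@Lb.fm (nat_lit 9) t221)))))))))))
noncomputable def l14801 : Lb := (@Lb.d (nat_lit 2) (nat_lit 2) (nat_lit 66) (@Lb.g g8 (@Lb.g g9 (@Lb.g g10 (@Lb.g g11 (@Lb.r r427 (@Lb.r r386 (@Lb.r r97 (@Lb.r r24 (@Lb.d (nat_lit 617) (nat_lit 9) (nat_lit 169) (@Lb.fm (nat_lit 9) t221)))))))))))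
noncomputable def l14802 : Lb := (@Lb.d (nat_lit 1) (nat_lit 514) (nat_lit 130) (@Lb.g g8 (@Lb.g g9 (@Lb.g g10 (@Lb.g g11 (@Lb.r r427 (@Lb.r r388 (@Lb.r r70 (@Lb.r r153 (@Lb.r r132 (@Lb.d (nat_lit 9) (nat_lit 73) (nat_lit 153) (@Lb.fp (nat_lit 9) t1022))))))))))))
noncomputable def l14803 : Lb := (@Lb.d (nat_lit 0) (nat_lit 512) (nat_lit 128) (@Lb.g g10 (@Lb.g g11 (@Lb.r r353 (@Lb.r r663 (@Lb.r r328 (@Lb.r r134 (@Lb.d (nat_lit 41) (nat_lit 4) (nat_lit 0) (@Lb.fm (nat_lit 3) t40)))))))))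
noncomputable def l14804 : Lb := (@Lb.d (nat_lit 328) (nat_lit 388) (nat_lit 425) (@Lb.r r1317 (@Lb.r r2395 (@Lb.r r614 (@Lb.g g7 (@Lb.g g4 (@Lb.d (nat_lit 1) (nat_lit 0) (nat_lit 64) (@Lb.fp (nat_lit 3) t996))))))))
noncomputable def l14805 : Lb := (@Lb.d (nat_lit 2) (nat_lit 258) (nat_lit 130) (@Lb.g g8 (@Lb.g g9 (@Lb.g g10 (@Lb.g g11 (@Lb.r r2691 (@Lb.r r297 (@Lb.r r360 (@Lb.r r582 (@Lb.r r2180 (@Lb.d (nat_lit 641) (nat_lit 10) (nat_lit 265) (@Lb.fm (nat_lit 9) t242))))))))))))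
noncomputable def l14806 : Lb := (@Lb.d (nat_lit 97) (nat_lit 258) (nat_lit 73) (@Lb.g g8 (@Lb.g g9 (@Lb.g g10 (@Lb.g g11 (@Lb.r r2691 (@Lb.r r2345 (@Lb.r r648 (@Lb.r r1690 (@Lb.r r1156 (@Lb.d (nat_lit 133) (nat_lit 40) (nat_lit 617) (@Lb.fp (nat_lit 9) t2528))))))))))))
noncomputable def l14807 : Lb := (@Lb.d (nat_lit 5) (nat_lit 320) (nat_lit 1) (@Lb.r r24 (@Lb.r r101 (@Lb.g g6 (@Lb.d (nat_lit 0) (nat_lit 4) (nat_lit 1) (@Lb.t (@Lb.fm (nat_lit 3) t1219)))))))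
noncomputable def l14808 : Lb := (@Lb.d (nat_lit 2) (nat_lit 514) (nat_lit 74) (@Lb.g g8 (@Lb.g g9 (@Lb.g g10 (@Lb.g g11 (@Lb.r r1194 (@Lb.r r680 (@Lb.r r555 (@Lb.r r1573 (@Lb.r r1044 (@Lb.d (nat_lit 394) (nat_lit 128) (nat_lit 330) (@Lb.fp (nat_lit 9) t284))))))))))))
noncomputable def l14809 : Lb := (@Lb.d (nat_lit 0) (nat_lit 0) (nat_lit 20) (@Lb.r r2579 (@Lb.r r2465 (@Lb.r r2154 (@Lb.r r84 (@Lb.g g5 (@Lb.d (nat_lit 8) (nat_lit 2) (nat_lit 0) (@Lb.t (@Lb.fm (nat_lit 3) t594)))))))))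
noncomputable def l14810 : Lb := (@Lb.d (nat_lit 10) (nat_lit 512) (nat_lit 64) (@Lb.g g8 (@Lb.g g11 (@Lb.r r353 (@Lb.r r407 (@Lb.r r584 (@Lb.r r134 (@Lb.d (nat_lit 522) (nat_lit 2) (nat_lit 38) (@Lb.fp (nat_lit 3) t40)))))))))
noncomputable def l14811 : Lb := (@Lb.d (nat_lit 128) (nat_lit 256) (nat_lit 64) (@Lb.g g11 (@Lb.r r361 (@Lb.r r292 (@Lb.r r539 (@Lb.r r134 (@Lb.d (nat_lit 586) (nat_lit 34) (nat_lit 160) (@Lb.t (@Lb.fm (nat_lit 3) t40)))))))))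
noncomputable def l14812 : Lb := (@Lb.d (nat_lit 409) (nat_lit 517) (nat_lit 273) (@Lb.r r1636 (@Lb.r r613 (@Lb.r r1370 (@Lb.g g7 (@Lb.g g4 (@Lb.d (nat_lit 68) (nat_lit 0) (nat_lit 576) (@Lb.fp (nat_lit 3) t386))))))))
noncomputable def l14813 : Lb := (@Lb.d (nat_lit 32) (nat_lit 280) (nat_lit 522) (@Lb.g g10 (@Lb.g g7 (@Lb.r r1128 (@Lb.r r105 (@Lb.r r1110 (@Lb.d (nat_lit 326) (nat_lit 70) (nat_lit 578) (@Lb.fp (nat_lit 3) t386))))))))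
noncomputable def l14814 : Lb := (@Lb.d (nat_lit 160) (nat_lit 256) (nat_lit 130) (@Lb.g g10 (@Lb.g g11 (@Lb.r r264 (@Lb.r r2647 (@Lb.r r1433 (@Lb.r r410 (@Lb.d (nat_lit 408) (nat_lit 25) (nat_lit 537) (@Lb.fp (nat_lit 3) t2728)))))))))
noncomputable def l14815 : Lb := (@Lb.d (nat_lit 1) (nat_lit 0) (nat_lit 2) (@Lb.g g8 (@Lb.g g10 (@Lb.r r2603 (@Lb.r r161 (@Lb.r r98 (@Lb.r r2628 (@Lb.d (nat_lit 162) (nat_lit 8) (nat_lit 392) (@Lb.fm (nat_lit 3) t1127)))))))))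
noncomputable def l14816 : Lb := (@Lb.d (nat_lit 512) (nat_lit 10) (nat_lit 386) (@Lb.r r24 (@Lb.r r101 (@Lb.r r402 (@Lb.g g11 (@Lb.g g9 (@Lb.fp (nat_lit 3) t3107)))))))
noncomputable def l14817 : Lb := (@Lb.d (nat_lit 2) (nat_lit 521) (nat_lit 1) (@Lb.g g8 (@Lb.g g9 (@Lb.g g10 (@Lb.r r2571 (@Lb.r r1689 (@Lb.r r146 (@Lb.r r2564 (@Lb.d (nat_lit 422) (nat_lit 10) (nat_lit 417) (@Lb.t (@Lb.fm (nat_lit 9) t1171)))))))))))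
noncomputable def l14818 : Lb := (@Lb.d (nat_lit 128) (nat_lit 10) (nat_lit 73) (@Lb.r r323 (@Lb.r r658 (@Lb.r r101 (@Lb.g g7 (@Lb.g g4 (@Lb.d (nat_lit 1) (nat_lit 0) (nat_lit 128) (@Lb.fm (nat_lit 3) t3108))))))))
noncomputable def l14819 : Lb := (@Lb.d (nat_lit 0) (nat_lit 520) (nat_lit 66) (@Lb.g g10 (@Lb.g g11 (@Lb.r r1419 (@Lb.d (nat_lit 402) (nat_lit 2) (nat_lit 425) (@Lb.fm (nat_lit 3) t899))))))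
noncomputable def l14820 : Lb := (@Lb.d (nat_lit 530) (nat_lit 256) (nat_lit 152) (@Lb.r r386 (@Lb.r r2579 (@Lb.r r2389 (@Lb.g g7 (@Lb.g g6 (@Lb.g g5 (@Lb.g g4 (@Lb.d (nat_lit 1) (nat_lit 1) (nat_lit 1) (@Lb.fp (nat_lit 9) t1436))))))))))
noncomputable def l14821 : Lb := (@Lb.d (nat_lit 2) (nat_lit 2) (nat_lit 130) (@Lb.g g8 (@Lb.g g9 (@Lb.g g10 (@Lb.g g11 (@Lb.r r2729 (@Lb.r r2475 (@Lb.r r2468 (@Lb.r r2438 (@Lb.d (nat_lit 609) (nat_lit 10) (nat_lit 617) (@Lb.fp (nat_lit 9) t590)))))))))))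
noncomputable def l14822 : Lb := (@Lb.d (nat_lit 536) (nat_lit 521) (nat_lit 384) (@Lb.r r168 (@Lb.r r89 (@Lb.r r402 (@Lb.g g11 (@Lb.g g4 (@Lb.d (nat_lit 5) (nat_lit 0) (nat_lit 0) (@Lb.fp (nat_lit 3) t945))))))))
noncomputable def l14823 : Lb := (@Lb.d (nat_lit 2) (nat_lit 265) (nat_lit 129) (@Lb.g g8 (@Lb.g g9 (@Lb.g g10 (@Lb.g g11 (@Lb.r r2729 (@Lb.r r2475 (@Lb.r r2468 (@Lb.r r2438 (@Lb.d (nat_lit 609) (nat_lit 10) (nat_lit 617) (@Lb.fp (nat_lit 9) t150)))))))))))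
noncomputable def l14824 : Lb := (@Lb.d (nat_lit 2) (nat_lit 9) (nat_lit 129) (@Lb.g g8 (@Lb.g g9 (@Lb.g g10 (@Lb.g g11 (@Lb.r r2729 (@Lb.r r2475 (@Lb.r r2468 (@Lb.r r2438 (@Lb.d (nat_lit 610) (nat_lit 10) (nat_lit 617) (@Lb.fp (nat_lit 9) t150)))))))))))
noncomputable def l14825 : Lb := (@Lb.d (nat_lit 0) (nat_lit 578) (nat_lit 0) (@Lb.g g9 (@Lb.d (nat_lit 0) (nat_lit 10) (nat_lit 2) (@Lb.t (@Lb.fp (nat_lit 3) t21)))))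
noncomputable def l14826 : Lb := (@Lb.d (nat_lit 613) (nat_lit 161) (nat_lit 324) (@Lb.r r2456 (@Lb.r r146 (@Lb.r r663 (@Lb.g g5 (@Lb.g g4 (@Lb.d (nat_lit 65) (nat_lit 5) (nat_lit 0) (@Lb.r r291 (@Lb.r r98 (@Lb.fp (nat_lit 3) t2095))))))))))
noncomputable def l14827 : Lb := (@Lb.r r289 (@Lb.r r535 (@Lb.r r328 (@Lb.r r134 (@Lb.d (nat_lit 0) (nat_lit 256) (nat_lit 128) (@Lb.fp (nat_lit 1) t40))))))
noncomputable def l14828 : Lb := (@Lb.d (nat_lit 273) (nat_lit 513) (nat_lit 86) (@Lb.r r70 (@Lb.r r392 (@Lb.r r599 (@Lb.g g6 (@Lb.g g5 (@Lb.g g4 (@Lb.d (nat_lit 1) (nat_lit 17) (nat_lit 1) (@Lb.r r387 (@Lb.t (@Lb.fp (nat_lit 9) t791)))))))))))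
noncomputable def l14829 : Lb := (@Lb.g g7 (@Lb.r r402 (@Lb.r r20 (@Lb.r r105 (@Lb.r r36 (@Lb.d (nat_lit 512) (nat_lit 0) (nat_lit 544) (@Lb.t (@Lb.fm (nat_lit 3) t145))))))))
noncomputable def l14830 : Lb := (@Lb.d (nat_lit 0) (nat_lit 512) (nat_lit 130) (@Lb.g g10 (@Lb.g g11 (@Lb.r r419 (@Lb.r r386 (@Lb.r r101 (@Lb.d (nat_lit 154) (nat_lit 154) (nat_lit 132) (@Lb.fm (nat_lit 3) t1725))))))))
noncomputable def l14831 : Lb := (@Lb.r r82 (@Lb.r r275 (@Lb.d (nat_lit 0) (nat_lit 165) (nat_lit 0) (@Lb.g g5 (@Lb.r r291 (@Lb.r r386 (@Lb.d (nat_lit 0) (nat_lit 133) (nat_lit 522) (@Lb.t (@Lb.fp (nat_lit 3) t1656)))))))))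
noncomputable def l14832 : Lb := (@Lb.d (nat_lit 32) (nat_lit 264) (nat_lit 128) (@Lb.g g10 (@Lb.g g11 (@Lb.r r2409 (@Lb.r r360 (@Lb.r r342 (@Lb.d (nat_lit 86) (nat_lit 164) (nat_lit 72) (@Lb.fm (nat_lit 3) t2428))))))))
noncomputable def l14833 : Lb := (@Lb.d (nat_lit 0) (nat_lit 0) (nat_lit 73) (@Lb.g g8 (@Lb.g g9 (@Lb.g g10 (@Lb.g g11 (@Lb.r r579 (@Lb.r r1682 (@Lb.r r101 (@Lb.r r24 (@Lb.d (nat_lit 642) (nat_lit 0) (nat_lit 256) (@Lb.fp (nat_lit 9) t145)))))))))))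
noncomputable def l14834 : Lb := (@Lb.r r82 (@Lb.d (nat_lit 0) (nat_lit 545) (nat_lit 64) (@Lb.g g8 (@Lb.g g9 (@Lb.g g11 (@Lb.r r2643 (@Lb.r r346 (@Lb.r r612 (@Lb.r r533 (@Lb.d (nat_lit 260) (nat_lit 162) (nat_lit 256) (@Lb.t (@Lb.fp (nat_lit 9) t47))))))))))))
noncomputable def l14835 : Lb := (@Lb.d (nat_lit 1) (nat_lit 265) (nat_lit 130) (@Lb.g g8 (@Lb.g g9 (@Lb.g g10 (@Lb.g g11 (@Lb.r r328 (@Lb.r r614 (@Lb.r r597 (@Lb.r r279 (@Lb.r r548 (@Lb.d (nat_lit 1) (nat_lit 0) (nat_lit 73) (@Lb.fm (nat_lit 9) t1112))))))))))))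
noncomputable def l14836 : Lb := (@Lb.d (nat_lit 4) (nat_lit 266) (nat_lit 1) (@Lb.g g8 (@Lb.g g9 (@Lb.g g10 (@Lb.g g11 (@Lb.r r1706 (@Lb.r r680 (@Lb.r r555 (@Lb.r r1553 (@Lb.r r2084 (@Lb.d (nat_lit 5) (nat_lit 96) (nat_lit 640) (@Lb.fm (nat_lit 9) t264))))))))))))
noncomputable def l14837 : Lb := (@Lb.d (nat_lit 2) (nat_lit 2) (nat_lit 2) (@Lb.g g8 (@Lb.g g9 (@Lb.g g10 (@Lb.g g11 (@Lb.r r2666 (@Lb.r r579 (@Lb.r r2337 (@Lb.r r24 (@Lb.d (nat_lit 580) (nat_lit 33) (nat_lit 640) (@Lb.fm (nat_lit 9) t3109)))))))))))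
noncomputable def l14838 : Lb := (@Lb.d (nat_lit 128) (nat_lit 256) (nat_lit 130) (@Lb.g g10 (@Lb.g g11 (@Lb.r r264 (@Lb.r r519 (@Lb.r r161 (@Lb.r r98 (@Lb.d (nat_lit 129) (nat_lit 8) (nat_lit 6) (@Lb.fp (nat_lit 3) t97)))))))))
noncomputable def l14839 : Lb := (@Lb.d (nat_lit 128) (nat_lit 0) (nat_lit 128) (@Lb.g g11 (@Lb.r r264 (@Lb.r r519 (@Lb.r r81 (@Lb.r r162 (@Lb.r r145 (@Lb.d (nat_lit 134) (nat_lit 8) (nat_lit 4) (@Lb.t (@Lb.fm (nat_lit 3) t21))))))))))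
noncomputable def l14840 : Lb := (@Lb.r r21 (@Lb.d (nat_lit 33) (nat_lit 512) (nat_lit 1) (@Lb.g g8 (@Lb.g g10 (@Lb.g g11 (@Lb.r r651 (@Lb.r r293 (@Lb.r r644 (@Lb.r r614 (@Lb.d (nat_lit 149) (nat_lit 32) (nat_lit 8) (@Lb.t (@Lb.fm (nat_lit 9) t264))))))))))))
noncomputable def l14841 : Lb := (@Lb.d (nat_lit 6) (nat_lit 266) (nat_lit 1) (@Lb.g g8 (@Lb.g g9 (@Lb.g g10 (@Lb.g g11 (@Lb.r r683 (@Lb.r r676 (@Lb.r r166 (@Lb.r r145 (@Lb.d (nat_lit 5) (nat_lit 8) (nat_lit 137) (@Lb.fp (nat_lit 9) t264)))))))))))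
noncomputable def l14842 : Lb := (@Lb.d (nat_lit 642) (nat_lit 384) (nat_lit 384) (@Lb.r r24 (@Lb.g g9 (@Lb.t (@Lb.fm (nat_lit 3) t2308)))))
noncomputable def l14843 : Lb := (@Lb.d (nat_lit 129) (nat_lit 264) (nat_lit 1) (@Lb.g g8 (@Lb.g g10 (@Lb.r r519 (@Lb.r r97 (@Lb.r r146 (@Lb.r r264 (@Lb.d (nat_lit 422) (nat_lit 10) (nat_lit 166) (@Lb.fm (nat_lit 3) t127)))))))))
noncomputable def l14844 : Lb := (@Lb.d (nat_lit 137) (nat_lit 1) (nat_lit 130) (@Lb.g g8 (@Lb.g g9 (@Lb.g g10 (@Lb.g g11 (@Lb.r r2666 (@Lb.r r612 (@Lb.r r1319 (@Lb.r r405 (@Lb.r r2084 (@Lb.d (nat_lit 617) (nat_lit 137) (nat_lit 100) (@Lb.fp (nat_lit 9) t2106))))))))))))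
noncomputable def l14845 : Lb := (@Lb.d (nat_lit 8) (nat_lit 97) (nat_lit 66) (@Lb.g g9 (@Lb.g g10 (@Lb.g g11 (@Lb.r r2467 (@Lb.r r98 (@Lb.d (nat_lit 9) (nat_lit 8) (nat_lit 665) (@Lb.t (@Lb.fm (nat_lit 9) t1117)))))))))
noncomputable def l14846 : Lb := (@Lb.d (nat_lit 34) (nat_lit 100) (nat_lit 646) (@Lb.r r101 (@Lb.r r386 (@Lb.g g11 (@Lb.g g6 (@Lb.g g5 (@Lb.g g8 (@Lb.d (nat_lit 0) (nat_lit 0) (nat_lit 129) (@Lb.fp (nat_lit 9) t842)))))))))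
noncomputable def l14847 : Lb := (@Lb.d (nat_lit 148) (nat_lit 25) (nat_lit 74) (@Lb.r r596 (@Lb.r r681 (@Lb.r r418 (@Lb.g g11 (@Lb.g g5 (@Lb.g g4 (@Lb.d (nat_lit 17) (nat_lit 0) (nat_lit 128) (@Lb.r r106 (@Lb.t (@Lb.fm (nat_lit 9) t264)))))))))))
noncomputable def l14848 : Lb := (@Lb.d (nat_lit 154) (nat_lit 265) (nat_lit 10) (@Lb.r r168 (@Lb.r r89 (@Lb.r r418 (@Lb.g g11 (@Lb.g g6 (@Lb.g g5 (@Lb.g g4 (@Lb.d (nat_lit 22) (nat_lit 8) (nat_lit 130) (@Lb.fm (nat_lit 9) t264))))))))))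
noncomputable def l14849 : Lb := (@Lb.d (nat_lit 9) (nat_lit 257) (nat_lit 130) (@Lb.g g8 (@Lb.g g9 (@Lb.g g10 (@Lb.g g11 (@Lb.r r427 (@Lb.r r106 (@Lb.r r25 (@Lb.d (nat_lit 4) (nat_lit 6) (nat_lit 136) (@Lb.fp (nat_lit 9) t51))))))))))
noncomputable def l14850 : Lb := (@Lb.d (nat_lit 2) (nat_lit 2) (nat_lit 66) (@Lb.g g8 (@Lb.g g9 (@Lb.g g10 (@Lb.g g7 (@Lb.r r417 (@Lb.r r98 (@Lb.r r24 (@Lb.d (nat_lit 10) (nat_lit 148) (nat_lit 72) (@Lb.fm (nat_lit 9) t3110))))))))))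
noncomputable def l14851 : Lb := (@Lb.d (nat_lit 65) (nat_lit 513) (nat_lit 133) (@Lb.r r535 (@Lb.r r356 (@Lb.r r85 (@Lb.r r346 (@Lb.g g7 (@Lb.g g6 (@Lb.g g4 (@Lb.d (nat_lit 1) (nat_lit 16) (nat_lit 8) (@Lb.t (@Lb.fm (nat_lit 9) t5)))))))))))
noncomputable def l14852 : Lb := (@Lb.r r323 (@Lb.d (nat_lit 129) (nat_lit 520) (nat_lit 2) (@Lb.g g8 (@Lb.g g10 (@Lb.r r279 (@Lb.r r97 (@Lb.r r146 (@Lb.r r600 (@Lb.d (nat_lit 102) (nat_lit 38) (nat_lit 68) (@Lb.fp (nat_lit 3) t45))))))))))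
noncomputable def l14853 : Lb := (@Lb.d (nat_lit 153) (nat_lit 33) (nat_lit 529) (@Lb.r r2116 (@Lb.r r2133 (@Lb.r r1354 (@Lb.g g7 (@Lb.g g5 (@Lb.g g4 (@Lb.d (nat_lit 0) (nat_lit 1) (nat_lit 72) (@Lb.t (@Lb.fp (nat_lit 9) t493))))))))))
noncomputable def l14854 : Lb := (@Lb.r r323 (@Lb.d (nat_lit 130) (nat_lit 520) (nat_lit 2) (@Lb.g g8 (@Lb.g g10 (@Lb.r r1351 (@Lb.r r97 (@Lb.r r146 (@Lb.r r2632 (@Lb.d (nat_lit 362) (nat_lit 129) (nat_lit 297) (@Lb.fp (nat_lit 3) t2919))))))))))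
noncomputable def l14855 : Lb := (@Lb.d (nat_lit 5) (nat_lit 553) (nat_lit 129) (@Lb.g g4 (@Lb.g g9 (@Lb.g g10 (@Lb.g g11 (@Lb.r r679 (@Lb.r r2450 (@Lb.r r1697 (@Lb.d (nat_lit 585) (nat_lit 26) (nat_lit 676) (@Lb.fp (nat_lit 9) t1116))))))))))
noncomputable def l14856 : Lb := (@Lb.d (nat_lit 5) (nat_lit 36) (nat_lit 5) (@Lb.g g4 (@Lb.g g9 (@Lb.g g10 (@Lb.g g11 (@Lb.r r679 (@Lb.r r610 (@Lb.r r529 (@Lb.d (nat_lit 97) (nat_lit 41) (nat_lit 129) (@Lb.fp (nat_lit 9) t522))))))))))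
noncomputable def l14857 : Lb := (@Lb.d (nat_lit 2) (nat_lit 288) (nat_lit 128) (@Lb.g g8 (@Lb.g g10 (@Lb.g g11 (@Lb.r r293 (@Lb.r r531 (@Lb.r r614 (@Lb.d (nat_lit 330) (nat_lit 97) (nat_lit 256) (@Lb.t (@Lb.fm (nat_lit 9) t3111))))))))))
noncomputable def l14858 : Lb := (@Lb.r r323 (@Lb.d (nat_lit 2) (nat_lit 0) (nat_lit 0) (@Lb.g g8 (@Lb.g g10 (@Lb.r r2597 (@Lb.r r2339 (@Lb.r r578 (@Lb.d (nat_lit 64) (nat_lit 10) (nat_lit 290) (@Lb.fp (nat_lit 3) t242)))))))))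
noncomputable def l14859 : Lb := (@Lb.d (nat_lit 0) (nat_lit 2) (nat_lit 0) (@Lb.g g4 (@Lb.g g9 (@Lb.r r37 (@Lb.d (nat_lit 8) (nat_lit 1) (nat_lit 0) (@Lb.fm (nat_lit 3) t2))))))
noncomputable def l14860 : Lb := (@Lb.r r323 (@Lb.d (nat_lit 137) (nat_lit 257) (nat_lit 2) (@Lb.g g8 (@Lb.g g9 (@Lb.g g10 (@Lb.r r2410 (@Lb.r r2409 (@Lb.r r1559 (@Lb.r r2312 (@Lb.d (nat_lit 393) (nat_lit 70) (nat_lit 586) (@Lb.t (@Lb.fp (nat_lit 9) t295))))))))))))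
noncomputable def l14861 : Lb := (@Lb.r r323 (@Lb.d (nat_lit 130) (nat_lit 514) (nat_lit 0) (@Lb.g g8 (@Lb.g g9 (@Lb.g g10 (@Lb.r r2667 (@Lb.r r1177 (@Lb.r r1626 (@Lb.r r72 (@Lb.d (nat_lit 34) (nat_lit 2) (nat_lit 137) (@Lb.t (@Lb.fm (nat_lit 9) t808))))))))))))
noncomputable def l14862 : Lb := (@Lb.d (nat_lit 33) (nat_lit 258) (nat_lit 73) (@Lb.g g8 (@Lb.g g9 (@Lb.g g10 (@Lb.g g11 (@Lb.r r419 (@Lb.r r1177 (@Lb.r r1626 (@Lb.r r1540 (@Lb.d (nat_lit 404) (nat_lit 5) (nat_lit 673) (@Lb.fp (nat_lit 9) t168)))))))))))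
noncomputable def l14863 : Lb := (@Lb.d (nat_lit 410) (nat_lit 353) (nat_lit 5) (@Lb.r r24 (@Lb.r r593 (@Lb.r r1442 (@Lb.g g11 (@Lb.g g6 (@Lb.g g5 (@Lb.d (nat_lit 0) (nat_lit 17) (nat_lit 393) (@Lb.t (@Lb.fm (nat_lit 9) t200))))))))))
noncomputable def l14864 : Lb := (@Lb.d (nat_lit 10) (nat_lit 257) (nat_lit 0) (@Lb.g g4 (@Lb.g g9 (@Lb.r r37 (@Lb.d (nat_lit 8) (nat_lit 1) (nat_lit 0) (@Lb.fm (nat_lit 3) t2))))))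
noncomputable def l14865 : Lb := (@Lb.d (nat_lit 4) (nat_lit 34) (nat_lit 4) (@Lb.g g8 (@Lb.g g9 (@Lb.g g10 (@Lb.g g11 (@Lb.r r683 (@Lb.r r1642 (@Lb.r r1561 (@Lb.d (nat_lit 585) (nat_lit 105) (nat_lit 273) (@Lb.fm (nat_lit 9) t919))))))))))
noncomputable def l14866 : Lb := (@Lb.d (nat_lit 0) (nat_lit 610) (nat_lit 517) (@Lb.r r146 (@Lb.r r101 (@Lb.r r280 (@Lb.g g11 (@Lb.d (nat_lit 0) (nat_lit 0) (nat_lit 388) (@Lb.r r578 (@Lb.r r529 (@Lb.t (@Lb.fm (nat_lit 3) t262))))))))))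
noncomputable def l14867 : Lb := (@Lb.r r355 (@Lb.d (nat_lit 4) (nat_lit 9) (nat_lit 2) (@Lb.g g8 (@Lb.g g9 (@Lb.g g10 (@Lb.r r683 (@Lb.r r1642 (@Lb.r r2649 (@Lb.d (nat_lit 362) (nat_lit 42) (nat_lit 10) (@Lb.t (@Lb.fp (nat_lit 9) t919)))))))))))
noncomputable def l14868 : Lb := (@Lb.r r1362 (@Lb.d (nat_lit 4) (nat_lit 32) (nat_lit 128) (@Lb.g g8 (@Lb.g g9 (@Lb.g g11 (@Lb.r r683 (@Lb.r r1569 (@Lb.r r24 (@Lb.d (nat_lit 41) (nat_lit 145) (nat_lit 256) (@Lb.t (@Lb.fp (nat_lit 9) t1923)))))))))))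
noncomputable def l14869 : Lb := (@Lb.r r355 (@Lb.d (nat_lit 4) (nat_lit 265) (nat_lit 2) (@Lb.g g8 (@Lb.g g9 (@Lb.g g10 (@Lb.r r683 (@Lb.r r1642 (@Lb.r r2649 (@Lb.d (nat_lit 361) (nat_lit 42) (nat_lit 10) (@Lb.t (@Lb.fp (nat_lit 9) t919)))))))))))
noncomputable def l14870 : Lb := (@Lb.d (nat_lit 0) (nat_lit 513) (nat_lit 130) (@Lb.g g8 (@Lb.g g9 (@Lb.g g10 (@Lb.g g11 (@Lb.r r618 (@Lb.r r105 (@Lb.r r340 (@Lb.r r2587 (@Lb.r r2564 (@Lb.d (nat_lit 8) (nat_lit 146) (nat_lit 640) (@Lb.fp (nat_lit 9) t71))))))))))))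
noncomputable def l14871 : Lb := (@Lb.d (nat_lit 512) (nat_lit 522) (nat_lit 258) (@Lb.r r24 (@Lb.r r101 (@Lb.r r402 (@Lb.g g11 (@Lb.t (@Lb.fm (nat_lit 3) t945)))))))
noncomputable def l14872 : Lb := (@Lb.d (nat_lit 129) (nat_lit 2) (nat_lit 130) (@Lb.g g8 (@Lb.g g9 (@Lb.g g10 (@Lb.g g11 (@Lb.r r419 (@Lb.r r344 (@Lb.r r1429 (@Lb.r r1110 (@Lb.r r2212 (@Lb.d (nat_lit 33) (nat_lit 105) (nat_lit 673) (@Lb.fm (nat_lit 9) t5))))))))))))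
noncomputable def l14873 : Lb := (@Lb.d (nat_lit 38) (nat_lit 266) (nat_lit 129) (@Lb.g g8 (@Lb.g g9 (@Lb.g g10 (@Lb.g g11 (@Lb.r r533 (@Lb.r r347 (@Lb.r r138 (@Lb.r r612 (@Lb.d (nat_lit 278) (nat_lit 9) (nat_lit 166) (@Lb.fm (nat_lit 9) t1237)))))))))))
noncomputable def l14874 : Lb := (@Lb.d (nat_lit 2) (nat_lit 2) (nat_lit 0) (@Lb.g g8 (@Lb.g g9 (@Lb.r r1186 (@Lb.r r1576 (@Lb.r r1689 (@Lb.r r1563 (@Lb.d (nat_lit 0) (nat_lit 69) (nat_lit 70) (@Lb.fp (nat_lit 3) t384)))))))))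
noncomputable def l14875 : Lb := (@Lb.d (nat_lit 8) (nat_lit 514) (nat_lit 0) (@Lb.g g9 (@Lb.r r1190 (@Lb.r r2392 (@Lb.r r1543 (@Lb.r r337 (@Lb.d (nat_lit 0) (nat_lit 24) (nat_lit 66) (@Lb.t (@Lb.fm (nat_lit 3) t242)))))))))
noncomputable def l14876 : Lb := (@Lb.d (nat_lit 2) (nat_lit 514) (nat_lit 136) (@Lb.g g8 (@Lb.g g9 (@Lb.g g11 (@Lb.r r1186 (@Lb.r r1576 (@Lb.r r1689 (@Lb.r r1563 (@Lb.d (nat_lit 10) (nat_lit 5) (nat_lit 518) (@Lb.t (@Lb.fp (nat_lit 9) t1324)))))))))))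
noncomputable def l14877 : Lb := (@Lb.d (nat_lit 290) (nat_lit 74) (nat_lit 0) (@Lb.r r1114 (@Lb.r r1620 (@Lb.r r2393 (@Lb.r r1671 (@Lb.g g7 (@Lb.g g6 (@Lb.g g5 (@Lb.d (nat_lit 0) (nat_lit 38) (nat_lit 10) (@Lb.t (@Lb.fm (nat_lit 9) t546)))))))))))
noncomputable def l14878 : Lb := (@Lb.d (nat_lit 137) (nat_lit 1) (nat_lit 0) (@Lb.g g8 (@Lb.g g9 (@Lb.r r343 (@Lb.r r2178 (@Lb.r r617 (@Lb.r r616 (@Lb.d (nat_lit 660) (nat_lit 26) (nat_lit 537) (@Lb.fp (nat_lit 3) t188)))))))))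
noncomputable def l14879 : Lb := (@Lb.d (nat_lit 0) (nat_lit 353) (nat_lit 388) (@Lb.r r2324 (@Lb.r r2454 (@Lb.g g7 (@Lb.g g5 (@Lb.g g4 (@Lb.d (nat_lit 6) (nat_lit 148) (nat_lit 64) (@Lb.r r614 (@Lb.t (@Lb.fm (nat_lit 9) t375))))))))))
noncomputable def l14880 : Lb := (@Lb.d (nat_lit 129) (nat_lit 2) (nat_lit 130) (@Lb.g g8 (@Lb.g g9 (@Lb.g g10 (@Lb.g g11 (@Lb.r r2666 (@Lb.r r612 (@Lb.r r1319 (@Lb.r r405 (@Lb.r r2084 (@Lb.d (nat_lit 10) (nat_lit 137) (nat_lit 409) (@Lb.fp (nat_lit 9) t2106))))))))))))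
noncomputable def l14881 : Lb := (@Lb.r r322 (@Lb.d (nat_lit 8) (nat_lit 33) (nat_lit 516) (@Lb.g g9 (@Lb.g g7 (@Lb.r r422 (@Lb.r r1112 (@Lb.r r2085 (@Lb.d (nat_lit 40) (nat_lit 66) (nat_lit 98) (@Lb.fm (nat_lit 3) t3112)))))))))
noncomputable def l14882 : Lb := (@Lb.d (nat_lit 153) (nat_lit 162) (nat_lit 533) (@Lb.r r2628 (@Lb.r r1637 (@Lb.r r2442 (@Lb.g g11 (@Lb.g g6 (@Lb.g g4 (@Lb.d (nat_lit 18) (nat_lit 0) (nat_lit 386) (@Lb.r r529 (@Lb.t (@Lb.fm (nat_lit 9) t1175)))))))))))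
noncomputable def l14883 : Lb := (@Lb.r r323 (@Lb.d (nat_lit 130) (nat_lit 2) (nat_lit 2) (@Lb.g g8 (@Lb.g g9 (@Lb.g g10 (@Lb.r r1639 (@Lb.r r2193 (@Lb.r r2642 (@Lb.r r72 (@Lb.d (nat_lit 346) (nat_lit 42) (nat_lit 137) (@Lb.t (@Lb.fm (nat_lit 9) t91))))))))))))
noncomputable def l14884 : Lb := (@Lb.d (nat_lit 9) (nat_lit 545) (nat_lit 66) (@Lb.g g8 (@Lb.g g9 (@Lb.g g10 (@Lb.g g11 (@Lb.r r387 (@Lb.r r1177 (@Lb.r r2458 (@Lb.r r2436 (@Lb.d (nat_lit 20) (nat_lit 33) (nat_lit 144) (@Lb.fm (nat_lit 9) t1039)))))))))))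
noncomputable def l14885 : Lb := (@Lb.d (nat_lit 0) (nat_lit 97) (nat_lit 388) (@Lb.r r2324 (@Lb.r r2454 (@Lb.g g7 (@Lb.g g5 (@Lb.g g4 (@Lb.d (nat_lit 8) (nat_lit 149) (nat_lit 64) (@Lb.r r614 (@Lb.t (@Lb.fm (nat_lit 9) t375))))))))))
noncomputable def l14886 : Lb := (@Lb.r r322 (@Lb.d (nat_lit 32) (nat_lit 33) (nat_lit 516) (@Lb.g g8 (@Lb.g g9 (@Lb.g g7 (@Lb.r r418 (@Lb.r r297 (@Lb.r r1384 (@Lb.d (nat_lit 646) (nat_lit 160) (nat_lit 277) (@Lb.t (@Lb.fm (nat_lit 9) t3112)))))))))))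
noncomputable def l14887 : Lb := (@Lb.d (nat_lit 0) (nat_lit 6) (nat_lit 72) (@Lb.g g9 (@Lb.g g10 (@Lb.g g11 (@Lb.r r2201 (@Lb.r r1434 (@Lb.r r579 (@Lb.r r2564 (@Lb.d (nat_lit 393) (nat_lit 144) (nat_lit 522) (@Lb.t (@Lb.fm (nat_lit 9) t3113)))))))))))
noncomputable def l14888 : Lb := (@Lb.r r323 (@Lb.d (nat_lit 8) (nat_lit 2) (nat_lit 2) (@Lb.g g9 (@Lb.g g10 (@Lb.r r2406 (@Lb.r r1419 (@Lb.r r24 (@Lb.r r1317 (@Lb.d (nat_lit 581) (nat_lit 168) (nat_lit 386) (@Lb.fm (nat_lit 3) t1089))))))))))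
noncomputable def l14889 : Lb := (@Lb.d (nat_lit 128) (nat_lit 132) (nat_lit 353) (@Lb.r r2438 (@Lb.r r347 (@Lb.r r677 (@Lb.g g7 (@Lb.g g6 (@Lb.g g5 (@Lb.g g8 (@Lb.d (nat_lit 320) (nat_lit 1) (nat_lit 65) (@Lb.fm (nat_lit 9) t2953))))))))))
noncomputable def l14890 : Lb := (@Lb.d (nat_lit 0) (nat_lit 512) (nat_lit 73) (@Lb.g g10 (@Lb.g g11 (@Lb.r r1691 (@Lb.r r1610 (@Lb.r r24 (@Lb.d (nat_lit 678) (nat_lit 32) (nat_lit 681) (@Lb.fm (nat_lit 3) t3114))))))))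
noncomputable def l14891 : Lb := (@Lb.d (nat_lit 136) (nat_lit 2) (nat_lit 64) (@Lb.g g9 (@Lb.g g11 (@Lb.r r264 (@Lb.r r279 (@Lb.r r402 (@Lb.r r609 (@Lb.d (nat_lit 25) (nat_lit 69) (nat_lit 17) (@Lb.fp (nat_lit 3) t334)))))))))
noncomputable def l14892 : Lb := (@Lb.r r21 (@Lb.d (nat_lit 138) (nat_lit 0) (nat_lit 25) (@Lb.g g8 (@Lb.g g6 (@Lb.r r2709 (@Lb.r r2583 (@Lb.r r1320 (@Lb.d (nat_lit 645) (nat_lit 162) (nat_lit 385) (@Lb.fp (nat_lit 3) t791)))))))))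
noncomputable def l14893 : Lb := (@Lb.d (nat_lit 2) (nat_lit 544) (nat_lit 64) (@Lb.g g8 (@Lb.g g11 (@Lb.r r2337 (@Lb.r r531 (@Lb.r r2178 (@Lb.d (nat_lit 322) (nat_lit 34) (nat_lit 640) (@Lb.fp (nat_lit 3) t322))))))))
noncomputable def l14894 : Lb := (@Lb.d (nat_lit 128) (nat_lit 265) (nat_lit 128) (@Lb.g g9 (@Lb.g g11 (@Lb.r r264 (@Lb.r r519 (@Lb.r r146 (@Lb.r r97 (@Lb.d (nat_lit 260) (nat_lit 96) (nat_lit 322) (@Lb.fm (nat_lit 3) t3115)))))))))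
noncomputable def l14895 : Lb := (@Lb.d (nat_lit 2) (nat_lit 256) (nat_lit 128) (@Lb.g g8 (@Lb.g g11 (@Lb.r r2731 (@Lb.r r81 (@Lb.r r162 (@Lb.r r145 (@Lb.r r2648 (@Lb.d (nat_lit 610) (nat_lit 38) (nat_lit 425) (@Lb.fp (nat_lit 3) t1855))))))))))
noncomputable def l14896 : Lb := (@Lb.d (nat_lit 128) (nat_lit 265) (nat_lit 128) (@Lb.g g9 (@Lb.g g11 (@Lb.r r264 (@Lb.r r519 (@Lb.r r146 (@Lb.r r97 (@Lb.d (nat_lit 258) (nat_lit 98) (nat_lit 386) (@Lb.fm (nat_lit 3) t3115)))))))))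
noncomputable def l14897 : Lb := (@Lb.d (nat_lit 129) (nat_lit 4) (nat_lit 5) (@Lb.g g8 (@Lb.g g9 (@Lb.g g10 (@Lb.g g11 (@Lb.r r683 (@Lb.r r618 (@Lb.r r537 (@Lb.r r516 (@Lb.d (nat_lit 137) (nat_lit 9) (nat_lit 1) (@Lb.fm (nat_lit 9) t1798)))))))))))
noncomputable def l14898 : Lb := (@Lb.d (nat_lit 4) (nat_lit 294) (nat_lit 134) (@Lb.r r609 (@Lb.r r619 (@Lb.r r616 (@Lb.r r150 (@Lb.g g7 (@Lb.g g4 (@Lb.d (nat_lit 2) (nat_lit 0) (nat_lit 64) (@Lb.fm (nat_lit 3) t97)))))))))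
noncomputable def l14899 : Lb := (@Lb.d (nat_lit 70) (nat_lit 520) (nat_lit 134) (@Lb.r r293 (@Lb.r r340 (@Lb.r r427 (@Lb.r r406 (@Lb.g g7 (@Lb.g g5 (@Lb.g g4 (@Lb.d (nat_lit 33) (nat_lit 2) (nat_lit 128) (@Lb.t (@Lb.fp (nat_lit 9) t3116)))))))))))
noncomputable def l14900 : Lb := (@Lb.d (nat_lit 1) (nat_lit 512) (nat_lit 128) (@Lb.g g8 (@Lb.g g10 (@Lb.g g11 (@Lb.r r586 (@Lb.r r616 (@Lb.r r619 (@Lb.r r609 (@Lb.d (nat_lit 149) (nat_lit 146) (nat_lit 128) (@Lb.t (@Lb.fp (nat_lit 9) t3110)))))))))))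
noncomputable def l14901 : Lb := (@Lb.r r81 (@Lb.d (nat_lit 22) (nat_lit 512) (nat_lit 2) (@Lb.g g4 (@Lb.g g10 (@Lb.g g11 (@Lb.r r387 (@Lb.r r37 (@Lb.d (nat_lit 1) (nat_lit 8) (nat_lit 1) (@Lb.t (@Lb.fm (nat_lit 9) t546))))))))))
noncomputable def l14902 : Lb := (@Lb.d (nat_lit 2) (nat_lit 258) (nat_lit 73) (@Lb.g g8 (@Lb.g g9 (@Lb.g g10 (@Lb.g g11 (@Lb.r r2691 (@Lb.r r145 (@Lb.r r594 (@Lb.r r1169 (@Lb.d (nat_lit 545) (nat_lit 160) (nat_lit 617) (@Lb.fm (nat_lit 9) t3117)))))))))))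
noncomputable def l14903 : Lb := (@Lb.d (nat_lit 5) (nat_lit 1) (nat_lit 0) (@Lb.r r24 (@Lb.r r82 (@Lb.r r275 (@Lb.g g9 (@Lb.d (nat_lit 0) (nat_lit 2) (nat_lit 0) (@Lb.r r291 (@Lb.r r98 (@Lb.t (@Lb.fm (nat_lit 3) t5))))))))))
noncomputable def l14904 : Lb := (@Lb.d (nat_lit 64) (nat_lit 260) (nat_lit 138) (@Lb.g g8 (@Lb.g g9 (@Lb.g g10 (@Lb.g g11 (@Lb.r r680 (@Lb.r r1707 (@Lb.r r2666 (@Lb.r r25 (@Lb.d (nat_lit 266) (nat_lit 89) (nat_lit 649) (@Lb.fp (nat_lit 9) t1490)))))))))))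
noncomputable def l14905 : Lb := (@Lb.d (nat_lit 0) (nat_lit 514) (nat_lit 130) (@Lb.g g8 (@Lb.g g9 (@Lb.g g10 (@Lb.g g11 (@Lb.r r516 (@Lb.r r263 (@Lb.r r618 (@Lb.r r97 (@Lb.r r516 (@Lb.d (nat_lit 538) (nat_lit 9) (nat_lit 20) (@Lb.fm (nat_lit 9) t2984))))))))))))
noncomputable def l14906 : Lb := (@Lb.d (nat_lit 0) (nat_lit 258) (nat_lit 130) (@Lb.g g8 (@Lb.g g9 (@Lb.g g10 (@Lb.g g11 (@Lb.r r548 (@Lb.r r295 (@Lb.r r145 (@Lb.r r154 (@Lb.r r132 (@Lb.d (nat_lit 9) (nat_lit 16) (nat_lit 69) (@Lb.fm (nat_lit 9) t1087))))))))))))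
noncomputable def l14907 : Lb := (@Lb.d (nat_lit 2) (nat_lit 256) (nat_lit 0) (@Lb.g g8 (@Lb.g g5 (@Lb.fp (nat_lit 3) t2))))
noncomputable def l14908 : Lb := (@Lb.r r68 (@Lb.r r323 (@Lb.d (nat_lit 16) (nat_lit 521) (nat_lit 1) (@Lb.g g9 (@Lb.g g10 (@Lb.r r1681 (@Lb.r r1559 (@Lb.r r2312 (@Lb.d (nat_lit 656) (nat_lit 0) (nat_lit 661) (@Lb.fm (nat_lit 3) t123))))))))))
noncomputable def l14909 : Lb := (@Lb.g g4 (@Lb.g g5 (@Lb.r r1049 (@Lb.r r24 (@Lb.d (nat_lit 518) (nat_lit 513) (nat_lit 0) (@Lb.fp (nat_lit 3) t2))))))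
noncomputable def l14910 : Lb := (@Lb.d (nat_lit 2) (nat_lit 128) (nat_lit 138) (@Lb.r r24 (@Lb.g g11 (@Lb.t (@Lb.fm (nat_lit 3) t2)))))
noncomputable def l14911 : Lb := (@Lb.d (nat_lit 9) (nat_lit 545) (nat_lit 0) (@Lb.g g8 (@Lb.g g9 (@Lb.r r2340 (@Lb.r r2395 (@Lb.r r2178 (@Lb.r r1637 (@Lb.d (nat_lit 680) (nat_lit 154) (nat_lit 613) (@Lb.fm (nat_lit 3) t64)))))))))
noncomputable def l14912 : Lb := (@Lb.r r21 (@Lb.r r326 (@Lb.d (nat_lit 130) (nat_lit 0) (nat_lit 136) (@Lb.g g8 (@Lb.g g11 (@Lb.r r1426 (@Lb.r r97 (@Lb.d (nat_lit 330) (nat_lit 0) (nat_lit 640) (@Lb.fm (nat_lit 3) t4)))))))))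
noncomputable def l14913 : Lb := (@Lb.d (nat_lit 9) (nat_lit 513) (nat_lit 64) (@Lb.g g8 (@Lb.g g9 (@Lb.g g11 (@Lb.r r292 (@Lb.r r1371 (@Lb.r r2178 (@Lb.r r1621 (@Lb.r r1060 (@Lb.d (nat_lit 160) (nat_lit 129) (nat_lit 325) (@Lb.t (@Lb.fp (nat_lit 9) t64))))))))))))
noncomputable def l14914 : Lb := (@Lb.d (nat_lit 33) (nat_lit 514) (nat_lit 73) (@Lb.g g8 (@Lb.g g9 (@Lb.g g10 (@Lb.g g11 (@Lb.r r419 (@Lb.r r1177 (@Lb.r r1626 (@Lb.r r1540 (@Lb.d (nat_lit 406) (nat_lit 5) (nat_lit 673) (@Lb.fp (nat_lit 9) t321)))))))))))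
noncomputable def l14915 : Lb := (@Lb.d (nat_lit 10) (nat_lit 6) (nat_lit 74) (@Lb.g g8 (@Lb.g g9 (@Lb.g g10 (@Lb.g g11 (@Lb.r r2691 (@Lb.r r132 (@Lb.r r1622 (@Lb.r r145 (@Lb.r r1060 (@Lb.d (nat_lit 641) (nat_lit 152) (nat_lit 100) (@Lb.fm (nat_lit 9) t1038))))))))))))
noncomputable def l14916 : Lb := (@Lb.d (nat_lit 10) (nat_lit 262) (nat_lit 128) (@Lb.g g8 (@Lb.g g9 (@Lb.g g10 (@Lb.g g11 (@Lb.r r2691 (@Lb.r r132 (@Lb.r r1622 (@Lb.r r145 (@Lb.r r1060 (@Lb.d (nat_lit 642) (nat_lit 152) (nat_lit 100) (@Lb.fm (nat_lit 9) t1038))))))))))))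
noncomputable def l14917 : Lb := (@Lb.d (nat_lit 138) (nat_lit 0) (nat_lit 0) (@Lb.g g8 (@Lb.r r678 (@Lb.r r661 (@Lb.r r1559 (@Lb.r r2344 (@Lb.d (nat_lit 390) (nat_lit 32) (nat_lit 642) (@Lb.t (@Lb.fm (nat_lit 3) t295)))))))))
noncomputable def l14918 : Lb := (@Lb.r r70 (@Lb.d (nat_lit 16) (nat_lit 2) (nat_lit 128) (@Lb.g g8 (@Lb.g g9 (@Lb.g g11 (@Lb.r r1706 (@Lb.r r2469 (@Lb.r r1307 (@Lb.r r1300 (@Lb.d (nat_lit 385) (nat_lit 34) (nat_lit 42) (@Lb.t (@Lb.fm (nat_lit 9) t1549))))))))))))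
noncomputable def l14919 : Lb := (@Lb.d (nat_lit 2) (nat_lit 0) (nat_lit 128) (@Lb.g g8 (@Lb.g g10 (@Lb.g g11 (@Lb.r r2707 (@Lb.r r2345 (@Lb.r r1188 (@Lb.r r1158 (@Lb.d (nat_lit 289) (nat_lit 5) (nat_lit 32) (@Lb.t (@Lb.fp (nat_lit 9) t296)))))))))))
noncomputable def l14920 : Lb := (@Lb.d (nat_lit 2) (nat_lit 512) (nat_lit 128) (@Lb.g g8 (@Lb.g g10 (@Lb.g g11 (@Lb.r r2707 (@Lb.r r2345 (@Lb.r r1188 (@Lb.r r1158 (@Lb.d (nat_lit 289) (nat_lit 10) (nat_lit 33) (@Lb.t (@Lb.fp (nat_lit 9) t296)))))))))))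
noncomputable def l14921 : Lb := (@Lb.r r323 (@Lb.d (nat_lit 2) (nat_lit 258) (nat_lit 2) (@Lb.g g8 (@Lb.g g9 (@Lb.g g10 (@Lb.r r401 (@Lb.r r299 (@Lb.r r392 (@Lb.r r74 (@Lb.d (nat_lit 38) (nat_lit 1) (nat_lit 136) (@Lb.t (@Lb.fp (nat_lit 9) t61))))))))))))
noncomputable def l14922 : Lb := (@Lb.d (nat_lit 1) (nat_lit 66) (nat_lit 130) (@Lb.g g4 (@Lb.g g9 (@Lb.g g10 (@Lb.g g11 (@Lb.r r2658 (@Lb.r r579 (@Lb.d (nat_lit 1) (nat_lit 97) (nat_lit 640) (@Lb.fp (nat_lit 9) t51)))))))))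
noncomputable def l14923 : Lb := (@Lb.d (nat_lit 536) (nat_lit 677) (nat_lit 530) (@Lb.r r1362 (@Lb.r r679 (@Lb.r r344 (@Lb.g g7 (@Lb.g g6 (@Lb.g g5 (@Lb.d (nat_lit 16) (nat_lit 66) (nat_lit 133) (@Lb.t (@Lb.fp (nat_lit 9) t452))))))))))
noncomputable def l14924 : Lb := (@Lb.d (nat_lit 9) (nat_lit 0) (nat_lit 0) (@Lb.g g8 (@Lb.g g7 (@Lb.r r402 (@Lb.d (nat_lit 10) (nat_lit 18) (nat_lit 64) (@Lb.fm (nat_lit 3) t71))))))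
noncomputable def l14925 : Lb := (@Lb.d (nat_lit 9) (nat_lit 256) (nat_lit 0) (@Lb.g g8 (@Lb.g g7 (@Lb.r r402 (@Lb.d (nat_lit 9) (nat_lit 18) (nat_lit 64) (@Lb.fm (nat_lit 3) t71))))))
noncomputable def l14926 : Lb := (@Lb.d (nat_lit 129) (nat_lit 258) (nat_lit 0) (@Lb.g g8 (@Lb.g g9 (@Lb.r r1450 (@Lb.r r1433 (@Lb.r r2663 (@Lb.r r1432 (@Lb.d (nat_lit 661) (nat_lit 20) (nat_lit 361) (@Lb.fp (nat_lit 3) t334)))))))))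
noncomputable def l14927 : Lb := (@Lb.d (nat_lit 2) (nat_lit 256) (nat_lit 0) (@Lb.g g8 (@Lb.r r593 (@Lb.r r343 (@Lb.r r680 (@Lb.r r170 (@Lb.r r153 (@Lb.d (nat_lit 10) (nat_lit 2) (nat_lit 137) (@Lb.t (@Lb.fp (nat_lit 3) t2))))))))))
noncomputable def l14928 : Lb := (@Lb.d (nat_lit 600) (nat_lit 385) (nat_lit 262) (@Lb.r r1057 (@Lb.r r1671 (@Lb.r r2376 (@Lb.g g7 (@Lb.g g6 (@Lb.d (nat_lit 64) (nat_lit 8) (nat_lit 165) (@Lb.fp (nat_lit 3) t1814))))))))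
noncomputable def l14929 : Lb := (@Lb.d (nat_lit 1) (nat_lit 66) (nat_lit 66) (@Lb.g g4 (@Lb.g g9 (@Lb.g g10 (@Lb.g g11 (@Lb.r r419 (@Lb.r r98 (@Lb.d (nat_lit 1) (nat_lit 9) (nat_lit 137) (@Lb.fm (nat_lit 9) t51)))))))))
noncomputable def l14930 : Lb := (@Lb.d (nat_lit 152) (nat_lit 356) (nat_lit 358) (@Lb.r r1633 (@Lb.r r2390 (@Lb.r r1571 (@Lb.g g7 (@Lb.g g5 (@Lb.g g4 (@Lb.d (nat_lit 1) (nat_lit 1) (nat_lit 64) (@Lb.r r98 (@Lb.t (@Lb.fp (nat_lit 9) t3118)))))))))))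
noncomputable def l14931 : Lb := (@Lb.d (nat_lit 517) (nat_lit 274) (nat_lit 384) (@Lb.r r2603 (@Lb.r r549 (@Lb.r r344 (@Lb.r r598 (@Lb.g g11 (@Lb.d (nat_lit 0) (nat_lit 16) (nat_lit 64) (@Lb.t (@Lb.fm (nat_lit 3) t3119)))))))))
noncomputable def l14932 : Lb := (@Lb.r r584 (@Lb.r r86 (@Lb.r r289 (@Lb.r r132 (@Lb.d (nat_lit 0) (nat_lit 386) (nat_lit 389) (@Lb.fp (nat_lit 1) t259))))))
noncomputable def l14933 : Lb := (@Lb.d (nat_lit 390) (nat_lit 641) (nat_lit 576) (@Lb.r r2584 (@Lb.r r1362 (@Lb.r r2587 (@Lb.r r293 (@Lb.g g7 (@Lb.g g4 (@Lb.d (nat_lit 5) (nat_lit 0) (nat_lit 64) (@Lb.fp (nat_lit 3) t2072)))))))))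
noncomputable def l14934 : Lb := (@Lb.d (nat_lit 530) (nat_lit 101) (nat_lit 406) (@Lb.r r1362 (@Lb.r r2471 (@Lb.r r532 (@Lb.r r281 (@Lb.g g7 (@Lb.g g6 (@Lb.g g5 (@Lb.d (nat_lit 80) (nat_lit 1) (nat_lit 2) (@Lb.t (@Lb.fp (nat_lit 9) t3120)))))))))))
noncomputable def l14935 : Lb := (@Lb.d (nat_lit 106) (nat_lit 102) (nat_lit 405) (@Lb.r r2661 (@Lb.r r1304 (@Lb.r r2659 (@Lb.r r338 (@Lb.g g7 (@Lb.g g5 (@Lb.d (nat_lit 4) (nat_lit 2) (nat_lit 0) (@Lb.fp (nat_lit 3) t3121)))))))))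
noncomputable def l14936 : Lb := (@Lb.d (nat_lit 0) (nat_lit 97) (nat_lit 357) (@Lb.r r404 (@Lb.r r2374 (@Lb.r r1691 (@Lb.g g7 (@Lb.g g9 (@Lb.g g4 (@Lb.d (nat_lit 1) (nat_lit 74) (nat_lit 64) (@Lb.r r74 (@Lb.t (@Lb.fp (nat_lit 9) t3122)))))))))))
noncomputable def l14937 : Lb := (@Lb.d (nat_lit 416) (nat_lit 649) (nat_lit 406) (@Lb.r r2645 (@Lb.r r1320 (@Lb.r r2467 (@Lb.r r410 (@Lb.g g7 (@Lb.g g6 (@Lb.g g5 (@Lb.d (nat_lit 0) (nat_lit 1) (nat_lit 129) (@Lb.t (@Lb.fp (nat_lit 9) t3123)))))))))))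
noncomputable def l14938 : Lb := (@Lb.d (nat_lit 72) (nat_lit 97) (nat_lit 576) (@Lb.r r2347 (@Lb.r r293 (@Lb.r r600 (@Lb.r r342 (@Lb.g g7 (@Lb.d (nat_lit 0) (nat_lit 16) (nat_lit 64) (@Lb.t (@Lb.fm (nat_lit 3) t3124)))))))))
noncomputable def l14939 : Lb := (@Lb.d (nat_lit 426) (nat_lit 22) (nat_lit 617) (@Lb.r r1381 (@Lb.r r2584 (@Lb.r r2451 (@Lb.r r402 (@Lb.g g7 (@Lb.g g5 (@Lb.d (nat_lit 4) (nat_lit 5) (nat_lit 0) (@Lb.fp (nat_lit 3) t3120)))))))))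
noncomputable def l14940 : Lb := (@Lb.d (nat_lit 146) (nat_lit 514) (nat_lit 128) (@Lb.g g8 (@Lb.g g9 (@Lb.g g10 (@Lb.g g11 (@Lb.r r387 (@Lb.r r418 (@Lb.r r617 (@Lb.r r612 (@Lb.d (nat_lit 554) (nat_lit 26) (nat_lit 681) (@Lb.fp (nat_lit 9) t3125)))))))))))
noncomputable def l14941 : Lb := (@Lb.r r70 (@Lb.d (nat_lit 4) (nat_lit 0) (nat_lit 0) (@Lb.g g8 (@Lb.g g9 (@Lb.r r2601 (@Lb.r r2475 (@Lb.r r1410 (@Lb.r r1124 (@Lb.d (nat_lit 585) (nat_lit 128) (nat_lit 546) (@Lb.fm (nat_lit 3) t1399))))))))))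
noncomputable def l14942 : Lb := (@Lb.d (nat_lit 33) (nat_lit 6) (nat_lit 73) (@Lb.g g8 (@Lb.g g9 (@Lb.g g10 (@Lb.g g11 (@Lb.r r1667 (@Lb.r r353 (@Lb.r r1178 (@Lb.r r388 (@Lb.d (nat_lit 38) (nat_lit 97) (nat_lit 586) (@Lb.fm (nat_lit 9) t68)))))))))))
noncomputable def l14943 : Lb := (@Lb.d (nat_lit 4) (nat_lit 258) (nat_lit 130) (@Lb.g g8 (@Lb.g g9 (@Lb.g g10 (@Lb.g g11 (@Lb.r r363 (@Lb.r r386 (@Lb.r r1121 (@Lb.r r24 (@Lb.d (nat_lit 256) (nat_lit 138) (nat_lit 168) (@Lb.fm (nat_lit 9) t61)))))))))))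
noncomputable def l14944 : Lb := (@Lb.d (nat_lit 273) (nat_lit 1) (nat_lit 17) (@Lb.r r70 (@Lb.r r392 (@Lb.r r599 (@Lb.g g6 (@Lb.g g5 (@Lb.g g4 (@Lb.d (nat_lit 1) (nat_lit 17) (nat_lit 1) (@Lb.r r387 (@Lb.t (@Lb.fp (nat_lit 9) t791)))))))))))
noncomputable def l14945 : Lb := (@Lb.r r283 (@Lb.d (nat_lit 40) (nat_lit 10) (nat_lit 1) (@Lb.g g8 (@Lb.g g9 (@Lb.g g10 (@Lb.r r1699 (@Lb.r r1642 (@Lb.r r1621 (@Lb.r r580 (@Lb.d (nat_lit 257) (nat_lit 101) (nat_lit 356) (@Lb.t (@Lb.fp (nat_lit 9) t841))))))))))))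
noncomputable def l14946 : Lb := (@Lb.d (nat_lit 1) (nat_lit 4) (nat_lit 64) (@Lb.g g8 (@Lb.g g9 (@Lb.g g10 (@Lb.g g7 (@Lb.r r386 (@Lb.r r97 (@Lb.r r24 (@Lb.d (nat_lit 5) (nat_lit 8) (nat_lit 9) (@Lb.fp (nat_lit 9) t42))))))))))
noncomputable def l14947 : Lb := (@Lb.r r323 (@Lb.d (nat_lit 129) (nat_lit 290) (nat_lit 2) (@Lb.g g8 (@Lb.g g9 (@Lb.g g10 (@Lb.r r263 (@Lb.r r358 (@Lb.r r536 (@Lb.d (nat_lit 88) (nat_lit 33) (nat_lit 65) (@Lb.t (@Lb.fp (nat_lit 9) t145)))))))))))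
noncomputable def l14948 : Lb := (@Lb.r r323 (@Lb.d (nat_lit 0) (nat_lit 322) (nat_lit 0) (@Lb.g g4 (@Lb.g g9 (@Lb.g g10 (@Lb.r r419 (@Lb.r r98 (@Lb.d (nat_lit 0) (nat_lit 2) (nat_lit 0) (@Lb.t (@Lb.fp (nat_lit 9) t51))))))))))
noncomputable def l14949 : Lb := (@Lb.r r82 (@Lb.d (nat_lit 34) (nat_lit 266) (nat_lit 128) (@Lb.g g8 (@Lb.g g9 (@Lb.g g11 (@Lb.r r427 (@Lb.r r582 (@Lb.r r2456 (@Lb.r r1125 (@Lb.d (nat_lit 533) (nat_lit 105) (nat_lit 129) (@Lb.t (@Lb.fm (nat_lit 9) t2420))))))))))))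
noncomputable def l14950 : Lb := (@Lb.g g8 (@Lb.r r101 (@Lb.r r24 (@Lb.d (nat_lit 576) (nat_lit 0) (nat_lit 528) (@Lb.t (@Lb.fp (nat_lit 3) t166))))))
noncomputable def l14951 : Lb := (@Lb.d (nat_lit 2) (nat_lit 258) (nat_lit 2) (@Lb.g g8 (@Lb.g g9 (@Lb.g g10 (@Lb.g g11 (@Lb.r r427 (@Lb.r r388 (@Lb.r r70 (@Lb.r r153 (@Lb.r r132 (@Lb.d (nat_lit 9) (nat_lit 66) (nat_lit 16) (@Lb.fp (nat_lit 9) t1022))))))))))))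
noncomputable def l14952 : Lb := (@Lb.d (nat_lit 2) (nat_lit 258) (nat_lit 130) (@Lb.g g8 (@Lb.g g9 (@Lb.g g10 (@Lb.g g11 (@Lb.r r642 (@Lb.r r1687 (@Lb.r r1602 (@Lb.r r25 (@Lb.d (nat_lit 9) (nat_lit 73) (nat_lit 649) (@Lb.fp (nat_lit 9) t51)))))))))))
noncomputable def l14953 : Lb := (@Lb.r r323 (@Lb.d (nat_lit 2) (nat_lit 2) (nat_lit 2) (@Lb.g g8 (@Lb.g g9 (@Lb.g g10 (@Lb.r r1623 (@Lb.r r2434 (@Lb.r r25 (@Lb.d (nat_lit 9) (nat_lit 26) (nat_lit 660) (@Lb.t (@Lb.fm (nat_lit 9) t51)))))))))))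
noncomputable def l14954 : Lb := (@Lb.g g7 (@Lb.r r402 (@Lb.r r20 (@Lb.r r105 (@Lb.r r36 (@Lb.d (nat_lit 512) (nat_lit 266) (nat_lit 546) (@Lb.t (@Lb.fm (nat_lit 3) t145))))))))
noncomputable def l14955 : Lb := (@Lb.d (nat_lit 9) (nat_lit 256) (nat_lit 0) (@Lb.g g8 (@Lb.g g7 (@Lb.r r402 (@Lb.r r101 (@Lb.r r24 (@Lb.d (nat_lit 522) (nat_lit 9) (nat_lit 546) (@Lb.fm (nat_lit 3) t145))))))))
noncomputable def l14956 : Lb := (@Lb.d (nat_lit 9) (nat_lit 0) (nat_lit 0) (@Lb.g g8 (@Lb.g g7 (@Lb.r r402 (@Lb.r r101 (@Lb.r r24 (@Lb.d (nat_lit 512) (nat_lit 10) (nat_lit 546) (@Lb.fm (nat_lit 3) t145))))))))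
noncomputable def l14957 : Lb := (@Lb.r r323 (@Lb.d (nat_lit 0) (nat_lit 8) (nat_lit 34) (@Lb.g g10 (@Lb.r r387 (@Lb.d (nat_lit 0) (nat_lit 2) (nat_lit 144) (@Lb.t (@Lb.fp (nat_lit 3) t333)))))))
noncomputable def l14958 : Lb := (@Lb.d (nat_lit 2) (nat_lit 2) (nat_lit 130) (@Lb.g g8 (@Lb.g g9 (@Lb.g g10 (@Lb.g g11 (@Lb.r r2666 (@Lb.r r579 (@Lb.r r25 (@Lb.d (nat_lit 9) (nat_lit 97) (nat_lit 586) (@Lb.fm (nat_lit 9) t51))))))))))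
noncomputable def l14959 : Lb := (@Lb.d (nat_lit 6) (nat_lit 256) (nat_lit 130) (@Lb.g g8 (@Lb.g g9 (@Lb.g g10 (@Lb.g g11 (@Lb.r r2411 (@Lb.r r386 (@Lb.r r104 (@Lb.r r25 (@Lb.d (nat_lit 522) (nat_lit 9) (nat_lit 136) (@Lb.fp (nat_lit 9) t61)))))))))))
noncomputable def l14960 : Lb := (@Lb.d (nat_lit 6) (nat_lit 256) (nat_lit 130) (@Lb.g g8 (@Lb.g g9 (@Lb.g g10 (@Lb.g g11 (@Lb.r r2411 (@Lb.r r386 (@Lb.r r104 (@Lb.r r25 (@Lb.d (nat_lit 514) (nat_lit 10) (nat_lit 136) (@Lb.fp (nat_lit 9) t61)))))))))))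
noncomputable def l14961 : Lb := (@Lb.d (nat_lit 2) (nat_lit 258) (nat_lit 2) (@Lb.g g8 (@Lb.g g9 (@Lb.g g10 (@Lb.g g11 (@Lb.r r425 (@Lb.r r599 (@Lb.r r2394 (@Lb.r r81 (@Lb.r r2436 (@Lb.d (nat_lit 100) (nat_lit 1) (nat_lit 602) (@Lb.fp (nat_lit 9) t994))))))))))))
noncomputable def l14962 : Lb := (@Lb.d (nat_lit 4) (nat_lit 258) (nat_lit 2) (@Lb.g g8 (@Lb.g g9 (@Lb.g g10 (@Lb.g g11 (@Lb.r r363 (@Lb.r r386 (@Lb.r r1121 (@Lb.r r24 (@Lb.d (nat_lit 256) (nat_lit 138) (nat_lit 102) (@Lb.fm (nat_lit 9) t61)))))))))))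
noncomputable def l14963 : Lb := (@Lb.d (nat_lit 2) (nat_lit 258) (nat_lit 130) (@Lb.g g8 (@Lb.g g9 (@Lb.g g10 (@Lb.g g11 (@Lb.r r427 (@Lb.r r388 (@Lb.r r70 (@Lb.r r153 (@Lb.r r132 (@Lb.d (nat_lit 9) (nat_lit 73) (nat_lit 153) (@Lb.fp (nat_lit 9) t1022))))))))))))
noncomputable def l14964 : Lb := (@Lb.d (nat_lit 2) (nat_lit 2) (nat_lit 128) (@Lb.g g8 (@Lb.g g9 (@Lb.g g10 (@Lb.g g11 (@Lb.r r643 (@Lb.r r618 (@Lb.r r97 (@Lb.r r24 (@Lb.d (nat_lit 40) (nat_lit 9) (nat_lit 70) (@Lb.fm (nat_lit 9) t312)))))))))))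
noncomputable def l14965 : Lb := (@Lb.d (nat_lit 2) (nat_lit 32) (nat_lit 66) (@Lb.g g8 (@Lb.g g10 (@Lb.g g11 (@Lb.r r2337 (@Lb.r r531 (@Lb.r r2122 (@Lb.r r2120 (@Lb.d (nat_lit 37) (nat_lit 98) (nat_lit 6) (@Lb.t (@Lb.fp (nat_lit 9) t282)))))))))))
noncomputable def l14966 : Lb := (@Lb.r r323 (@Lb.d (nat_lit 0) (nat_lit 514) (nat_lit 1) (@Lb.g g9 (@Lb.g g6 (@Lb.r r1419 (@Lb.r r2153 (@Lb.r r36 (@Lb.d (nat_lit 40) (nat_lit 0) (nat_lit 34) (@Lb.fm (nat_lit 3) t3126)))))))))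
noncomputable def l14967 : Lb := (@Lb.d (nat_lit 130) (nat_lit 2) (nat_lit 2) (@Lb.g g8 (@Lb.g g9 (@Lb.g g10 (@Lb.r r1623 (@Lb.r r426 (@Lb.r r345 (@Lb.r r324 (@Lb.d (nat_lit 89) (nat_lit 4) (nat_lit 134) (@Lb.t (@Lb.fm (nat_lit 9) t2211)))))))))))
noncomputable def l14968 : Lb := (@Lb.g g7 (@Lb.r r1291 (@Lb.d (nat_lit 522) (nat_lit 514) (nat_lit 0) (@Lb.t (@Lb.fm (nat_lit 3) t441)))))
noncomputable def l14969 : Lb := (@Lb.d (nat_lit 256) (nat_lit 513) (nat_lit 0) (@Lb.r r24 (@Lb.r r2138 (@Lb.g g5 (@Lb.d (nat_lit 4) (nat_lit 1) (nat_lit 0) (@Lb.t (@Lb.fp (nat_lit 3) t1221)))))))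
noncomputable def l14970 : Lb := (@Lb.d (nat_lit 521) (nat_lit 640) (nat_lit 0) (@Lb.r r2069 (@Lb.r r2118 (@Lb.g g8 (@Lb.d (nat_lit 2) (nat_lit 0) (nat_lit 0) (@Lb.t (@Lb.fp (nat_lit 3) t3127)))))))
noncomputable def l14971 : Lb := (@Lb.d (nat_lit 9) (nat_lit 2) (nat_lit 130) (@Lb.g g8 (@Lb.g g9 (@Lb.g g10 (@Lb.g g11 (@Lb.r r1681 (@Lb.r r535 (@Lb.r r2440 (@Lb.r r2122 (@Lb.d (nat_lit 33) (nat_lit 10) (nat_lit 136) (@Lb.fp (nat_lit 9) t221)))))))))))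
noncomputable def l14972 : Lb := (@Lb.d (nat_lit 585) (nat_lit 4) (nat_lit 88) (@Lb.r r2698 (@Lb.r r2475 (@Lb.r r1365 (@Lb.g g7 (@Lb.g g6 (@Lb.g g4 (@Lb.d (nat_lit 257) (nat_lit 8) (nat_lit 134) (@Lb.r r25 (@Lb.t (@Lb.fm (nat_lit 9) t988)))))))))))
noncomputable def l14973 : Lb := (@Lb.d (nat_lit 0) (nat_lit 261) (nat_lit 0) (@Lb.g g5 (@Lb.d (nat_lit 292) (nat_lit 1) (nat_lit 32) (@Lb.t (@Lb.fm (nat_lit 3) t743)))))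
noncomputable def l14974 : Lb := (@Lb.d (nat_lit 2) (nat_lit 2) (nat_lit 128) (@Lb.g g8 (@Lb.g g9 (@Lb.g g10 (@Lb.g g11 (@Lb.r r643 (@Lb.r r297 (@Lb.r r360 (@Lb.r r582 (@Lb.r r132 (@Lb.d (nat_lit 130) (nat_lit 10) (nat_lit 73) (@Lb.fm (nat_lit 9) t242))))))))))))
noncomputable def l14975 : Lb := (@Lb.r r21 (@Lb.r r70 (@Lb.d (nat_lit 0) (nat_lit 512) (nat_lit 324) (@Lb.g g8 (@Lb.g g7 (@Lb.r r402 (@Lb.r r1129 (@Lb.r r2084 (@Lb.d (nat_lit 66) (nat_lit 74) (nat_lit 578) (@Lb.fp (nat_lit 3) t1674))))))))))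
noncomputable def l14976 : Lb := (@Lb.d (nat_lit 10) (nat_lit 288) (nat_lit 66) (@Lb.g g8 (@Lb.g g10 (@Lb.g g11 (@Lb.r r2138 (@Lb.r r149 (@Lb.r r360 (@Lb.r r2567 (@Lb.d (nat_lit 641) (nat_lit 86) (nat_lit 641) (@Lb.t (@Lb.fm (nat_lit 9) t71)))))))))))
noncomputable def l14977 : Lb := (@Lb.d (nat_lit 674) (nat_lit 258) (nat_lit 105) (@Lb.r r644 (@Lb.r r614 (@Lb.r r1435 (@Lb.g g7 (@Lb.g g6 (@Lb.g g9 (@Lb.g g4 (@Lb.d (nat_lit 132) (nat_lit 74) (nat_lit 0) (@Lb.fm (nat_lit 9) t145))))))))))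
noncomputable def l14978 : Lb := (@Lb.r r21 (@Lb.d (nat_lit 66) (nat_lit 256) (nat_lit 74) (@Lb.g g8 (@Lb.g g10 (@Lb.g g11 (@Lb.r r2184 (@Lb.r r2634 (@Lb.r r587 (@Lb.r r25 (@Lb.d (nat_lit 32) (nat_lit 0) (nat_lit 536) (@Lb.t (@Lb.fm (nat_lit 9) t647))))))))))))
noncomputable def l14979 : Lb := (@Lb.d (nat_lit 2) (nat_lit 258) (nat_lit 128) (@Lb.g g8 (@Lb.g g9 (@Lb.g g10 (@Lb.g g11 (@Lb.r r1666 (@Lb.r r1431 (@Lb.r r2657 (@Lb.r r24 (@Lb.d (nat_lit 553) (nat_lit 89) (nat_lit 25) (@Lb.fm (nat_lit 9) t2031)))))))))))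
noncomputable def l14980 : Lb := (@Lb.d (nat_lit 10) (nat_lit 520) (nat_lit 128) (@Lb.g g8 (@Lb.g g10 (@Lb.g g11 (@Lb.r r2401 (@Lb.r r1366 (@Lb.r r2436 (@Lb.d (nat_lit 549) (nat_lit 128) (nat_lit 597) (@Lb.t (@Lb.fp (nat_lit 9) t2428))))))))))
noncomputable def l14981 : Lb := (@Lb.d (nat_lit 2) (nat_lit 2) (nat_lit 130) (@Lb.g g8 (@Lb.g g9 (@Lb.g g10 (@Lb.g g11 (@Lb.r r2691 (@Lb.r r536 (@Lb.r r2197 (@Lb.r r2646 (@Lb.r r164 (@Lb.d (nat_lit 137) (nat_lit 2) (nat_lit 298) (@Lb.fp (nat_lit 9) t991))))))))))))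
noncomputable def l14982 : Lb := (@Lb.d (nat_lit 152) (nat_lit 0) (nat_lit 386) (@Lb.g g8 (@Lb.g g10 (@Lb.g g11 (@Lb.r r1382 (@Lb.r r533 (@Lb.r r2340 (@Lb.d (nat_lit 586) (nat_lit 86) (nat_lit 346) (@Lb.t (@Lb.fm (nat_lit 9) t399))))))))))
noncomputable def l14983 : Lb := (@Lb.r r355 (@Lb.d (nat_lit 5) (nat_lit 265) (nat_lit 2) (@Lb.g g4 (@Lb.g g9 (@Lb.g g10 (@Lb.r r679 (@Lb.r r610 (@Lb.r r601 (@Lb.d (nat_lit 150) (nat_lit 37) (nat_lit 137) (@Lb.t (@Lb.fm (nat_lit 9) t175)))))))))))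
noncomputable def l14984 : Lb := (@Lb.d (nat_lit 6) (nat_lit 512) (nat_lit 74) (@Lb.g g8 (@Lb.g g9 (@Lb.g g10 (@Lb.g g11 (@Lb.r r162 (@Lb.r r1425 (@Lb.r r612 (@Lb.r r295 (@Lb.r r516 (@Lb.d (nat_lit 42) (nat_lit 128) (nat_lit 169) (@Lb.fm (nat_lit 9) t284))))))))))))
noncomputable def l14985 : Lb := (@Lb.d (nat_lit 34) (nat_lit 256) (nat_lit 0) (@Lb.g g8 (@Lb.g g9 (@Lb.r r2379 (@Lb.r r582 (@Lb.r r388 (@Lb.d (nat_lit 105) (nat_lit 2) (nat_lit 154) (@Lb.fm (nat_lit 3) t3128))))))))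
noncomputable def l14986 : Lb := (@Lb.d (nat_lit 2) (nat_lit 260) (nat_lit 0) (@Lb.g g8 (@Lb.g g9 (@Lb.g g10 (@Lb.g g11 (@Lb.r r427 (@Lb.r r324 (@Lb.r r2218 (@Lb.r r1193 (@Lb.r r1188 (@Lb.d (nat_lit 609) (nat_lit 66) (nat_lit 544) (@Lb.fp (nat_lit 9) t1246))))))))))))
noncomputable def l14987 : Lb := (@Lb.d (nat_lit 0) (nat_lit 266) (nat_lit 0) (@Lb.g g9 (@Lb.r r2198 (@Lb.r r2137 (@Lb.d (nat_lit 17) (nat_lit 132) (nat_lit 34) (@Lb.t (@Lb.fm (nat_lit 3) t1078)))))))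
noncomputable def l14988 : Lb := (@Lb.r r81 (@Lb.d (nat_lit 24) (nat_lit 32) (nat_lit 18) (@Lb.g g8 (@Lb.g g6 (@Lb.g g11 (@Lb.r r1173 (@Lb.r r2408 (@Lb.r r263 (@Lb.d (nat_lit 66) (nat_lit 106) (nat_lit 644) (@Lb.t (@Lb.fm (nat_lit 9) t393)))))))))))
noncomputable def l14989 : Lb := (@Lb.r r82 (@Lb.g g9 (@Lb.r r1122 (@Lb.r r1041 (@Lb.d (nat_lit 0) (nat_lit 517) (nat_lit 1) (@Lb.t (@Lb.fp (nat_lit 3) t3129)))))))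
noncomputable def l14990 : Lb := (@Lb.d (nat_lit 8) (nat_lit 258) (nat_lit 0) (@Lb.g g9 (@Lb.d (nat_lit 538) (nat_lit 9) (nat_lit 16) (@Lb.t (@Lb.fp (nat_lit 3) t516)))))
noncomputable def l14991 : Lb := (@Lb.d (nat_lit 38) (nat_lit 262) (nat_lit 137) (@Lb.r r154 (@Lb.r r664 (@Lb.r r667 (@Lb.r r353 (@Lb.g g7 (@Lb.g g6 (@Lb.g g4 (@Lb.d (nat_lit 2) (nat_lit 4) (nat_lit 65) (@Lb.t (@Lb.fp (nat_lit 9) t2)))))))))))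
noncomputable def l14992 : Lb := (@Lb.d (nat_lit 34) (nat_lit 512) (nat_lit 0) (@Lb.g g8 (@Lb.g g9 (@Lb.r r1635 (@Lb.r r582 (@Lb.r r2389 (@Lb.r r2468 (@Lb.d (nat_lit 290) (nat_lit 36) (nat_lit 346) (@Lb.fp (nat_lit 3) t284)))))))))
noncomputable def l14993 : Lb := (@Lb.d (nat_lit 2) (nat_lit 0) (nat_lit 130) (@Lb.g g8 (@Lb.g g9 (@Lb.g g10 (@Lb.g g11 (@Lb.r r2475 (@Lb.r r2193 (@Lb.r r356 (@Lb.r r154 (@Lb.r r132 (@Lb.d (nat_lit 521) (nat_lit 9) (nat_lit 153) (@Lb.fm (nat_lit 9) t221))))))))))))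
noncomputable def l14994 : Lb := (@Lb.d (nat_lit 4) (nat_lit 512) (nat_lit 64) (@Lb.g g8 (@Lb.g g9 (@Lb.g g10 (@Lb.g g11 (@Lb.r r618 (@Lb.r r2411 (@Lb.r r97 (@Lb.r r24 (@Lb.d (nat_lit 73) (nat_lit 9) (nat_lit 422) (@Lb.fp (nat_lit 9) t564)))))))))))
noncomputable def l14995 : Lb := (@Lb.d (nat_lit 130) (nat_lit 298) (nat_lit 401) (@Lb.r r665 (@Lb.r r1688 (@Lb.r r386 (@Lb.g g7 (@Lb.g g5 (@Lb.d (nat_lit 4) (nat_lit 18) (nat_lit 68) (@Lb.r r98 (@Lb.fm (nat_lit 3) t399)))))))))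
noncomputable def l14996 : Lb := (@Lb.d (nat_lit 5) (nat_lit 258) (nat_lit 522) (@Lb.r r1284 (@Lb.r r323 (@Lb.r r658 (@Lb.g g7 (@Lb.g g5 (@Lb.d (nat_lit 0) (nat_lit 134) (nat_lit 64) (@Lb.fp (nat_lit 3) t2652))))))))
noncomputable def l14997 : Lb := (@Lb.d (nat_lit 4) (nat_lit 0) (nat_lit 130) (@Lb.g g8 (@Lb.g g9 (@Lb.g g10 (@Lb.g g11 (@Lb.r r427 (@Lb.r r1450 (@Lb.r r2457 (@Lb.r r2436 (@Lb.d (nat_lit 617) (nat_lit 128) (nat_lit 665) (@Lb.fm (nat_lit 9) t2211)))))))))))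
noncomputable def l14998 : Lb := (@Lb.d (nat_lit 2) (nat_lit 9) (nat_lit 129) (@Lb.g g8 (@Lb.g g9 (@Lb.g g10 (@Lb.g g11 (@Lb.r r1706 (@Lb.r r648 (@Lb.r r1563 (@Lb.r r2337 (@Lb.r r36 (@Lb.d (nat_lit 642) (nat_lit 105) (nat_lit 2) (@Lb.fp (nat_lit 9) t50))))))))))))
noncomputable def l14999 : Lb := (@Lb.d (nat_lit 9) (nat_lit 513) (nat_lit 130) (@Lb.g g8 (@Lb.g g9 (@Lb.g g10 (@Lb.g g11 (@Lb.r r2411 (@Lb.r r386 (@Lb.r r97 (@Lb.r r24 (@Lb.d (nat_lit 536) (nat_lit 9) (nat_lit 137) (@Lb.fm (nat_lit 9) t61)))))))))))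
noncomputable def l15000 : Lb := (@Lb.d (nat_lit 9) (nat_lit 1) (nat_lit 130) (@Lb.g g8 (@Lb.g g9 (@Lb.g g10 (@Lb.g g11 (@Lb.r r2411 (@Lb.r r386 (@Lb.r r97 (@Lb.r r24 (@Lb.d (nat_lit 538) (nat_lit 9) (nat_lit 137) (@Lb.fm (nat_lit 9) t61)))))))))))
noncomputable def l15001 : Lb := (@Lb.d (nat_lit 2) (nat_lit 258) (nat_lit 66) (@Lb.g g8 (@Lb.g g9 (@Lb.g g10 (@Lb.g g11 (@Lb.r r1687 (@Lb.r r386 (@Lb.r r97 (@Lb.r r24 (@Lb.d (nat_lit 609) (nat_lit 0) (nat_lit 681) (@Lb.fp (nat_lit 9) t61)))))))))))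
noncomputable def l15002 : Lb := (@Lb.d (nat_lit 9) (nat_lit 518) (nat_lit 0) (@Lb.g g8 (@Lb.g g9 (@Lb.g g10 (@Lb.g g11 (@Lb.r r1699 (@Lb.r r596 (@Lb.r r682 (@Lb.r r2217 (@Lb.r r2212 (@Lb.d (nat_lit 586) (nat_lit 97) (nat_lit 586) (@Lb.fm (nat_lit 9) t68))))))))))))
noncomputable def l15003 : Lb := (@Lb.d (nat_lit 128) (nat_lit 512) (nat_lit 384) (@Lb.g g10 (@Lb.g g11 (@Lb.r r1606 (@Lb.r r1557 (@Lb.r r1316 (@Lb.d (nat_lit 5) (nat_lit 82) (nat_lit 256) (@Lb.fm (nat_lit 3) t2102))))))))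
noncomputable def l15004 : Lb := (@Lb.r r331 (@Lb.d (nat_lit 37) (nat_lit 0) (nat_lit 2) (@Lb.g g8 (@Lb.g g9 (@Lb.g g10 (@Lb.r r2454 (@Lb.r r1371 (@Lb.r r549 (@Lb.r r2708 (@Lb.d (nat_lit 296) (nat_lit 102) (nat_lit 150) (@Lb.t (@Lb.fm (nat_lit 9) t1039))))))))))))
noncomputable def l15005 : Lb := (@Lb.r r323 (@Lb.d (nat_lit 0) (nat_lit 514) (nat_lit 2) (@Lb.g g8 (@Lb.g g9 (@Lb.g g10 (@Lb.r r2643 (@Lb.r r2154 (@Lb.r r104 (@Lb.r r25 (@Lb.d (nat_lit 521) (nat_lit 72) (nat_lit 2) (@Lb.t (@Lb.fm (nat_lit 9) t490))))))))))))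
noncomputable def l15006 : Lb := (@Lb.r r82 (@Lb.d (nat_lit 6) (nat_lit 264) (nat_lit 0) (@Lb.g g4 (@Lb.g g9 (@Lb.r r90 (@Lb.r r145 (@Lb.d (nat_lit 16) (nat_lit 10) (nat_lit 2) (@Lb.fp (nat_lit 3) t1219))))))))
noncomputable def l15007 : Lb := (@Lb.d (nat_lit 5) (nat_lit 512) (nat_lit 130) (@Lb.g g8 (@Lb.g g9 (@Lb.g g10 (@Lb.g g11 (@Lb.r r2666 (@Lb.r r1619 (@Lb.r r2153 (@Lb.r r680 (@Lb.d (nat_lit 152) (nat_lit 153) (nat_lit 660) (@Lb.fm (nat_lit 9) t1954)))))))))))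
noncomputable def l15008 : Lb := (@Lb.r r331 (@Lb.d (nat_lit 2) (nat_lit 512) (nat_lit 32) (@Lb.g g8 (@Lb.g g10 (@Lb.r r1301 (@Lb.r r291 (@Lb.r r1540 (@Lb.d (nat_lit 640) (nat_lit 10) (nat_lit 66) (@Lb.fm (nat_lit 3) t2004)))))))))
noncomputable def l15009 : Lb := (@Lb.d (nat_lit 0) (nat_lit 32) (nat_lit 73) (@Lb.g g8 (@Lb.g g10 (@Lb.g g11 (@Lb.r r618 (@Lb.r r149 (@Lb.r r328 (@Lb.r r2599 (@Lb.d (nat_lit 649) (nat_lit 105) (nat_lit 258) (@Lb.t (@Lb.fm (nat_lit 9) t71)))))))))))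
noncomputable def l15010 : Lb := (@Lb.d (nat_lit 0) (nat_lit 0) (nat_lit 130) (@Lb.g g8 (@Lb.g g10 (@Lb.g g11 (@Lb.r r419 (@Lb.r r386 (@Lb.r r101 (@Lb.d (nat_lit 154) (nat_lit 154) (nat_lit 132) (@Lb.t (@Lb.fm (nat_lit 9) t1725))))))))))
noncomputable def l15011 : Lb := (@Lb.d (nat_lit 6) (nat_lit 5) (nat_lit 0) (@Lb.g g4 (@Lb.g g9 (@Lb.g g10 (@Lb.g g7 (@Lb.r r386 (@Lb.r r1637 (@Lb.d (nat_lit 8) (nat_lit 153) (nat_lit 9) (@Lb.fp (nat_lit 9) t1664)))))))))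
noncomputable def l15012 : Lb := (@Lb.r r275 (@Lb.d (nat_lit 1) (nat_lit 266) (nat_lit 9) (@Lb.g g8 (@Lb.g g9 (@Lb.g g10 (@Lb.r r595 (@Lb.r r1177 (@Lb.r r1688 (@Lb.r r1610 (@Lb.d (nat_lit 673) (nat_lit 85) (nat_lit 424) (@Lb.t (@Lb.fm (nat_lit 9) t3130))))))))))))
noncomputable def l15013 : Lb := (@Lb.r r82 (@Lb.d (nat_lit 160) (nat_lit 2) (nat_lit 128) (@Lb.g g8 (@Lb.g g9 (@Lb.g g11 (@Lb.r r291 (@Lb.r r1414 (@Lb.r r2628 (@Lb.d (nat_lit 658) (nat_lit 37) (nat_lit 550) (@Lb.t (@Lb.fp (nat_lit 9) t1895)))))))))))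
noncomputable def l15014 : Lb := (@Lb.d (nat_lit 128) (nat_lit 288) (nat_lit 128) (@Lb.g g11 (@Lb.r r661 (@Lb.r r404 (@Lb.r r1366 (@Lb.r r1671 (@Lb.d (nat_lit 552) (nat_lit 128) (nat_lit 384) (@Lb.t (@Lb.fm (nat_lit 3) t3131)))))))))
noncomputable def l15015 : Lb := (@Lb.d (nat_lit 128) (nat_lit 544) (nat_lit 128) (@Lb.g g11 (@Lb.r r661 (@Lb.r r404 (@Lb.r r1366 (@Lb.r r1671 (@Lb.d (nat_lit 546) (nat_lit 0) (nat_lit 384) (@Lb.t (@Lb.fm (nat_lit 3) t3011)))))))))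
noncomputable def l15016 : Lb := (@Lb.r r21 (@Lb.r r70 (@Lb.d (nat_lit 409) (nat_lit 0) (nat_lit 128) (@Lb.g g8 (@Lb.g g11 (@Lb.r r1419 (@Lb.r r402 (@Lb.r r97 (@Lb.d (nat_lit 586) (nat_lit 36) (nat_lit 272) (@Lb.fm (nat_lit 3) t3132))))))))))
noncomputable def l15017 : Lb := (@Lb.d (nat_lit 8) (nat_lit 2) (nat_lit 73) (@Lb.g g8 (@Lb.g g9 (@Lb.g g10 (@Lb.g g11 (@Lb.r r2691 (@Lb.r r578 (@Lb.r r1321 (@Lb.r r36 (@Lb.d (nat_lit 644) (nat_lit 1) (nat_lit 360) (@Lb.fp (nat_lit 9) t351)))))))))))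
noncomputable def l15018 : Lb := (@Lb.d (nat_lit 128) (nat_lit 288) (nat_lit 128) (@Lb.g g11 (@Lb.r r661 (@Lb.r r404 (@Lb.r r1366 (@Lb.r r1671 (@Lb.d (nat_lit 546) (nat_lit 0) (nat_lit 261) (@Lb.t (@Lb.fm (nat_lit 3) t3011)))))))))
noncomputable def l15019 : Lb := (@Lb.g g7 (@Lb.r r101 (@Lb.r r402 (@Lb.d (nat_lit 106) (nat_lit 258) (nat_lit 66) (@Lb.t (@Lb.fm (nat_lit 3) t3133))))))
noncomputable def l15020 : Lb := (@Lb.r r2343 (@Lb.r r584 (@Lb.r r86 (@Lb.r r289 (@Lb.r r132 (@Lb.d (nat_lit 0) (nat_lit 642) (nat_lit 682) (@Lb.fp (nat_lit 1) t3134)))))))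
noncomputable def l15021 : Lb := (@Lb.d (nat_lit 257) (nat_lit 384) (nat_lit 0) (@Lb.r r1114 (@Lb.g g5 (@Lb.d (nat_lit 4) (nat_lit 1) (nat_lit 0) (@Lb.t (@Lb.fm (nat_lit 3) t99))))))
noncomputable def l15022 : Lb := (@Lb.d (nat_lit 9) (nat_lit 264) (nat_lit 130) (@Lb.g g8 (@Lb.g g9 (@Lb.g g10 (@Lb.g g11 (@Lb.r r2731 (@Lb.r r680 (@Lb.r r2186 (@Lb.r r97 (@Lb.r r1060 (@Lb.d (nat_lit 533) (nat_lit 102) (nat_lit 673) (@Lb.fp (nat_lit 9) t916))))))))))))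
noncomputable def l15023 : Lb := (@Lb.d (nat_lit 2) (nat_lit 289) (nat_lit 132) (@Lb.g g8 (@Lb.g g9 (@Lb.g g10 (@Lb.g g11 (@Lb.r r643 (@Lb.r r2345 (@Lb.r r360 (@Lb.r r582 (@Lb.r r2180 (@Lb.d (nat_lit 514) (nat_lit 10) (nat_lit 601) (@Lb.fm (nat_lit 9) t739))))))))))))
noncomputable def l15024 : Lb := (@Lb.d (nat_lit 2) (nat_lit 2) (nat_lit 130) (@Lb.g g8 (@Lb.g g9 (@Lb.g g10 (@Lb.g g11 (@Lb.r r427 (@Lb.r r145 (@Lb.r r356 (@Lb.r r154 (@Lb.r r132 (@Lb.d (nat_lit 4) (nat_lit 8) (nat_lit 89) (@Lb.fm (nat_lit 9) t756))))))))))))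
noncomputable def l15025 : Lb := (@Lb.d (nat_lit 356) (nat_lit 529) (nat_lit 613) (@Lb.r r1444 (@Lb.r r2665 (@Lb.r r363 (@Lb.g g10 (@Lb.g g5 (@Lb.g g4 (@Lb.d (nat_lit 82) (nat_lit 1) (nat_lit 4) (@Lb.t (@Lb.fp (nat_lit 9) t521))))))))))
noncomputable def l15026 : Lb := (@Lb.d (nat_lit 146) (nat_lit 2) (nat_lit 128) (@Lb.g g8 (@Lb.g g9 (@Lb.g g10 (@Lb.g g11 (@Lb.r r1689 (@Lb.r r1688 (@Lb.r r1419 (@Lb.r r1410 (@Lb.d (nat_lit 549) (nat_lit 42) (nat_lit 161) (@Lb.fp (nat_lit 9) t2644)))))))))))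
noncomputable def l15027 : Lb := (@Lb.d (nat_lit 2) (nat_lit 256) (nat_lit 128) (@Lb.g g8 (@Lb.g g11 (@Lb.r r353 (@Lb.r r2707 (@Lb.r r662 (@Lb.r r2120 (@Lb.d (nat_lit 33) (nat_lit 0) (nat_lit 582) (@Lb.fm (nat_lit 3) t1293)))))))))
noncomputable def l15028 : Lb := (@Lb.d (nat_lit 38) (nat_lit 0) (nat_lit 130) (@Lb.g g8 (@Lb.g g9 (@Lb.g g10 (@Lb.g g11 (@Lb.r r1451 (@Lb.r r420 (@Lb.r r1126 (@Lb.r r97 (@Lb.r r1060 (@Lb.d (nat_lit 521) (nat_lit 130) (nat_lit 666) (@Lb.fm (nat_lit 9) t394))))))))))))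
noncomputable def l15029 : Lb := (@Lb.d (nat_lit 0) (nat_lit 385) (nat_lit 96) (@Lb.r r24 (@Lb.r r1426 (@Lb.g g7 (@Lb.g g5 (@Lb.d (nat_lit 4) (nat_lit 1) (nat_lit 68) (@Lb.r r578 (@Lb.fm (nat_lit 3) t524))))))))
noncomputable def l15030 : Lb := (@Lb.d (nat_lit 9) (nat_lit 258) (nat_lit 66) (@Lb.g g8 (@Lb.g g9 (@Lb.g g10 (@Lb.g g11 (@Lb.r r2323 (@Lb.r r1681 (@Lb.r r356 (@Lb.r r154 (@Lb.r r132 (@Lb.d (nat_lit 648) (nat_lit 1) (nat_lit 586) (@Lb.fm (nat_lit 9) t284))))))))))))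
noncomputable def l15031 : Lb := (@Lb.r r331 (@Lb.d (nat_lit 161) (nat_lit 258) (nat_lit 2) (@Lb.g g8 (@Lb.g g9 (@Lb.g g10 (@Lb.r r1433 (@Lb.r r2343 (@Lb.r r1604 (@Lb.r r1098 (@Lb.d (nat_lit 342) (nat_lit 136) (nat_lit 136) (@Lb.t (@Lb.fm (nat_lit 9) t1039))))))))))))
noncomputable def l15032 : Lb := (@Lb.r r1291 (@Lb.d (nat_lit 392) (nat_lit 258) (nat_lit 0) (@Lb.g g8 (@Lb.g g9 (@Lb.r r2073 (@Lb.d (nat_lit 265) (nat_lit 128) (nat_lit 384) (@Lb.fm (nat_lit 3) t1044)))))))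
noncomputable def l15033 : Lb := (@Lb.d (nat_lit 9) (nat_lit 2) (nat_lit 66) (@Lb.g g8 (@Lb.g g9 (@Lb.g g10 (@Lb.g g11 (@Lb.r r2323 (@Lb.r r1681 (@Lb.r r356 (@Lb.r r154 (@Lb.r r132 (@Lb.d (nat_lit 641) (nat_lit 2) (nat_lit 586) (@Lb.fm (nat_lit 9) t284))))))))))))
noncomputable def l15034 : Lb := (@Lb.d (nat_lit 324) (nat_lit 290) (nat_lit 384) (@Lb.r r1556 (@Lb.r r2657 (@Lb.r r1426 (@Lb.r r1543 (@Lb.g g11 (@Lb.g g8 (@Lb.r r25 (@Lb.fp (nat_lit 3) t1346)))))))))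
noncomputable def l15035 : Lb := (@Lb.d (nat_lit 1) (nat_lit 72) (nat_lit 362) (@Lb.r r1361 (@Lb.r r2471 (@Lb.r r612 (@Lb.r r346 (@Lb.g g7 (@Lb.g g6 (@Lb.g g5 (@Lb.d (nat_lit 8) (nat_lit 2) (nat_lit 65) (@Lb.t (@Lb.fp (nat_lit 9) t428)))))))))))
noncomputable def l15036 : Lb := (@Lb.d (nat_lit 9) (nat_lit 2) (nat_lit 74) (@Lb.g g8 (@Lb.g g9 (@Lb.g g10 (@Lb.g g11 (@Lb.r r170 (@Lb.r r680 (@Lb.r r555 (@Lb.r r2597 (@Lb.r r2068 (@Lb.d (nat_lit 138) (nat_lit 128) (nat_lit 586) (@Lb.fp (nat_lit 9) t284))))))))))))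
noncomputable def l15037 : Lb := (@Lb.d (nat_lit 36) (nat_lit 672) (nat_lit 297) (@Lb.r r2696 (@Lb.r r2475 (@Lb.r r2405 (@Lb.r r1130 (@Lb.g g7 (@Lb.g g6 (@Lb.g g4 (@Lb.d (nat_lit 9) (nat_lit 0) (nat_lit 9) (@Lb.t (@Lb.fp (nat_lit 9) t1812)))))))))))
noncomputable def l15038 : Lb := (@Lb.r r323 (@Lb.d (nat_lit 16) (nat_lit 329) (nat_lit 0) (@Lb.g g8 (@Lb.g g9 (@Lb.g g10 (@Lb.r r2475 (@Lb.r r2442 (@Lb.r r2084 (@Lb.d (nat_lit 521) (nat_lit 65) (nat_lit 544) (@Lb.t (@Lb.fp (nat_lit 9) t580)))))))))))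
noncomputable def l15039 : Lb := (@Lb.r r82 (@Lb.d (nat_lit 2) (nat_lit 514) (nat_lit 128) (@Lb.g g8 (@Lb.g g9 (@Lb.g g11 (@Lb.r r657 (@Lb.r r1687 (@Lb.r r146 (@Lb.r r2436 (@Lb.d (nat_lit 146) (nat_lit 0) (nat_lit 393) (@Lb.t (@Lb.fm (nat_lit 9) t1667))))))))))))
noncomputable def l15040 : Lb := (@Lb.g g5 (@Lb.g g10 (@Lb.r r2579 (@Lb.r r2341 (@Lb.r r2136 (@Lb.r r1158 (@Lb.d (nat_lit 2) (nat_lit 517) (nat_lit 70) (@Lb.fp (nat_lit 3) t296))))))))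
noncomputable def l15041 : Lb := (@Lb.d (nat_lit 10) (nat_lit 1) (nat_lit 2) (@Lb.g g8 (@Lb.g g9 (@Lb.g g10 (@Lb.g g11 (@Lb.r r683 (@Lb.r r404 (@Lb.r r1641 (@Lb.r r2134 (@Lb.r r1188 (@Lb.d (nat_lit 274) (nat_lit 9) (nat_lit 521) (@Lb.fp (nat_lit 9) t3135))))))))))))
noncomputable def l15042 : Lb := (@Lb.r r323 (@Lb.d (nat_lit 0) (nat_lit 514) (nat_lit 1) (@Lb.g g8 (@Lb.g g9 (@Lb.g g6 (@Lb.r r2347 (@Lb.r r97 (@Lb.r r24 (@Lb.d (nat_lit 266) (nat_lit 2) (nat_lit 64) (@Lb.t (@Lb.fp (nat_lit 9) t314)))))))))))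
noncomputable def l15043 : Lb := (@Lb.r r263 (@Lb.d (nat_lit 0) (nat_lit 513) (nat_lit 2) (@Lb.g g8 (@Lb.g g9 (@Lb.g g10 (@Lb.r r1707 (@Lb.r r169 (@Lb.r r98 (@Lb.r r2180 (@Lb.d (nat_lit 294) (nat_lit 6) (nat_lit 5) (@Lb.t (@Lb.fm (nat_lit 9) t175))))))))))))
noncomputable def l15044 : Lb := (@Lb.d (nat_lit 8) (nat_lit 257) (nat_lit 130) (@Lb.g g8 (@Lb.g g9 (@Lb.g g10 (@Lb.g g11 (@Lb.r r1435 (@Lb.r r404 (@Lb.r r2150 (@Lb.r r97 (@Lb.r r1060 (@Lb.d (nat_lit 2) (nat_lit 104) (nat_lit 642) (@Lb.fm (nat_lit 9) t51))))))))))))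
noncomputable def l15045 : Lb := (@Lb.r r323 (@Lb.d (nat_lit 136) (nat_lit 513) (nat_lit 2) (@Lb.g g8 (@Lb.g g9 (@Lb.g g10 (@Lb.r r2663 (@Lb.r r98 (@Lb.r r97 (@Lb.r r1384 (@Lb.d (nat_lit 676) (nat_lit 130) (nat_lit 642) (@Lb.t (@Lb.fp (nat_lit 9) t51))))))))))))
noncomputable def l15046 : Lb := (@Lb.r r323 (@Lb.d (nat_lit 32) (nat_lit 514) (nat_lit 2) (@Lb.g g9 (@Lb.g g10 (@Lb.r r584 (@Lb.r r1323 (@Lb.r r1313 (@Lb.d (nat_lit 10) (nat_lit 129) (nat_lit 258) (@Lb.fm (nat_lit 3) t51)))))))))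
noncomputable def l15047 : Lb := (@Lb.d (nat_lit 32) (nat_lit 512) (nat_lit 130) (@Lb.g g10 (@Lb.g g11 (@Lb.r r423 (@Lb.r r153 (@Lb.r r100 (@Lb.r r410 (@Lb.d (nat_lit 4) (nat_lit 20) (nat_lit 84) (@Lb.fp (nat_lit 3) t221)))))))))
noncomputable def l15048 : Lb := (@Lb.g g4 (@Lb.r r2311 (@Lb.r r2118 (@Lb.r r2069 (@Lb.r r8 (@Lb.t (@Lb.fp (nat_lit 3) t1155)))))))
noncomputable def l15049 : Lb := (@Lb.r r82 (@Lb.r r275 (@Lb.d (nat_lit 9) (nat_lit 0) (nat_lit 0) (@Lb.g g8 (@Lb.g g5 (@Lb.r r2315 (@Lb.r r2122 (@Lb.d (nat_lit 260) (nat_lit 1) (nat_lit 0) (@Lb.fp (nat_lit 3) t116)))))))))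
noncomputable def l15050 : Lb := (@Lb.d (nat_lit 1) (nat_lit 512) (nat_lit 136) (@Lb.g g8 (@Lb.g g9 (@Lb.g g11 (@Lb.r r1162 (@Lb.r r1188 (@Lb.r r405 (@Lb.r r1635 (@Lb.d (nat_lit 2) (nat_lit 0) (nat_lit 533) (@Lb.t (@Lb.fm (nat_lit 9) t1592)))))))))))
noncomputable def l15051 : Lb := (@Lb.d (nat_lit 1) (nat_lit 544) (nat_lit 128) (@Lb.g g8 (@Lb.g g11 (@Lb.r r2712 (@Lb.r r293 (@Lb.r r2587 (@Lb.r r2178 (@Lb.d (nat_lit 96) (nat_lit 105) (nat_lit 401) (@Lb.fm (nat_lit 3) t1282)))))))))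
noncomputable def l15052 : Lb := (@Lb.d (nat_lit 1) (nat_lit 256) (nat_lit 128) (@Lb.g g8 (@Lb.g g9 (@Lb.g g11 (@Lb.r r664 (@Lb.r r2341 (@Lb.r r539 (@Lb.r r2178 (@Lb.r r516 (@Lb.d (nat_lit 544) (nat_lit 137) (nat_lit 17) (@Lb.t (@Lb.fm (nat_lit 9) t1282))))))))))))
noncomputable def l15053 : Lb := (@Lb.r r263 (@Lb.d (nat_lit 641) (nat_lit 546) (nat_lit 2) (@Lb.g g4 (@Lb.g g9 (@Lb.g g10 (@Lb.r r2470 (@Lb.r r595 (@Lb.r r1441 (@Lb.d (nat_lit 388) (nat_lit 100) (nat_lit 602) (@Lb.t (@Lb.fm (nat_lit 9) t1622)))))))))))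
noncomputable def l15054 : Lb := (@Lb.d (nat_lit 0) (nat_lit 2) (nat_lit 66) (@Lb.g g9 (@Lb.g g10 (@Lb.g g7 (@Lb.r r386 (@Lb.r r97 (@Lb.r r24 (@Lb.d (nat_lit 330) (nat_lit 9) (nat_lit 521) (@Lb.t (@Lb.fm (nat_lit 9) t166))))))))))
noncomputable def l15055 : Lb := (@Lb.d (nat_lit 390) (nat_lit 341) (nat_lit 608) (@Lb.r r2325 (@Lb.r r1387 (@Lb.r r1666 (@Lb.g g7 (@Lb.g g6 (@Lb.g g5 (@Lb.g g4 (@Lb.d (nat_lit 1) (nat_lit 5) (nat_lit 134) (@Lb.fm (nat_lit 9) t3136))))))))))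
noncomputable def l15056 : Lb := (@Lb.d (nat_lit 150) (nat_lit 90) (nat_lit 324) (@Lb.r r405 (@Lb.r r1643 (@Lb.g g10 (@Lb.g g5 (@Lb.g g4 (@Lb.d (nat_lit 1) (nat_lit 6) (nat_lit 34) (@Lb.r r403 (@Lb.t (@Lb.fp (nat_lit 9) t2700))))))))))
noncomputable def l15057 : Lb := (@Lb.d (nat_lit 165) (nat_lit 597) (nat_lit 577) (@Lb.r r2584 (@Lb.r r2178 (@Lb.r r2587 (@Lb.g g7 (@Lb.g g9 (@Lb.g g4 (@Lb.d (nat_lit 0) (nat_lit 70) (nat_lit 64) (@Lb.t (@Lb.fp (nat_lit 9) t1063))))))))))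
noncomputable def l15058 : Lb := (@Lb.d (nat_lit 4) (nat_lit 0) (nat_lit 130) (@Lb.g g8 (@Lb.g g9 (@Lb.g g10 (@Lb.g g11 (@Lb.r r2666 (@Lb.r r579 (@Lb.r r97 (@Lb.r r24 (@Lb.d (nat_lit 152) (nat_lit 9) (nat_lit 392) (@Lb.fm (nat_lit 9) t61)))))))))))
noncomputable def l15059 : Lb := (@Lb.d (nat_lit 8) (nat_lit 32) (nat_lit 90) (@Lb.g g8 (@Lb.g g10 (@Lb.g g11 (@Lb.r r353 (@Lb.r r535 (@Lb.r r2436 (@Lb.d (nat_lit 342) (nat_lit 72) (nat_lit 682) (@Lb.t (@Lb.fm (nat_lit 9) t386))))))))))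
noncomputable def l15060 : Lb := (@Lb.d (nat_lit 5) (nat_lit 0) (nat_lit 73) (@Lb.g g8 (@Lb.g g9 (@Lb.g g10 (@Lb.g g11 (@Lb.r r2459 (@Lb.r r1557 (@Lb.r r580 (@Lb.r r2218 (@Lb.r r2180 (@Lb.d (nat_lit 8) (nat_lit 26) (nat_lit 420) (@Lb.fm (nat_lit 9) t51))))))))))))
noncomputable def l15061 : Lb := (@Lb.d (nat_lit 0) (nat_lit 264) (nat_lit 2) (@Lb.g g10 (@Lb.g g7 (@Lb.r r1617 (@Lb.r r354 (@Lb.d (nat_lit 546) (nat_lit 98) (nat_lit 22) (@Lb.fp (nat_lit 3) t1487)))))))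
noncomputable def l15062 : Lb := (@Lb.d (nat_lit 8) (nat_lit 296) (nat_lit 134) (@Lb.g g8 (@Lb.g g9 (@Lb.g g10 (@Lb.g g11 (@Lb.r r1691 (@Lb.r r1689 (@Lb.r r2650 (@Lb.r r2628 (@Lb.d (nat_lit 153) (nat_lit 137) (nat_lit 426) (@Lb.fm (nat_lit 9) t3137)))))))))))
noncomputable def l15063 : Lb := (@Lb.d (nat_lit 8) (nat_lit 521) (nat_lit 9) (@Lb.r r281 (@Lb.r r536 (@Lb.r r323 (@Lb.r r586 (@Lb.g g7 (@Lb.g g5 (@Lb.g g4 (@Lb.d (nat_lit 16) (nat_lit 5) (nat_lit 64) (@Lb.t (@Lb.fm (nat_lit 9) t601)))))))))))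
noncomputable def l15064 : Lb := (@Lb.d (nat_lit 292) (nat_lit 554) (nat_lit 278) (@Lb.r r289 (@Lb.r r1626 (@Lb.r r1384 (@Lb.r r2711 (@Lb.g g7 (@Lb.g g6 (@Lb.d (nat_lit 16) (nat_lit 0) (nat_lit 64) (@Lb.fp (nat_lit 3) t366)))))))))
noncomputable def l15065 : Lb := (@Lb.d (nat_lit 8) (nat_lit 33) (nat_lit 132) (@Lb.g g8 (@Lb.g g9 (@Lb.g g10 (@Lb.g g11 (@Lb.r r1691 (@Lb.r r1689 (@Lb.r r2650 (@Lb.r r2628 (@Lb.d (nat_lit 153) (nat_lit 137) (nat_lit 426) (@Lb.fm (nat_lit 9) t830)))))))))))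
noncomputable def l15066 : Lb := (@Lb.d (nat_lit 9) (nat_lit 521) (nat_lit 129) (@Lb.g g8 (@Lb.g g9 (@Lb.g g10 (@Lb.g g11 (@Lb.r r1194 (@Lb.r r420 (@Lb.r r283 (@Lb.r r1557 (@Lb.r r36 (@Lb.d (nat_lit 384) (nat_lit 66) (nat_lit 586) (@Lb.fm (nat_lit 9) t367))))))))))))
noncomputable def l15067 : Lb := (@Lb.d (nat_lit 256) (nat_lit 361) (nat_lit 386) (@Lb.r r673 (@Lb.r r1642 (@Lb.r r1364 (@Lb.r r2731 (@Lb.g g7 (@Lb.g g6 (@Lb.g g5 (@Lb.d (nat_lit 8) (nat_lit 2) (nat_lit 64) (@Lb.t (@Lb.fp (nat_lit 9) t3138)))))))))))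
noncomputable def l15068 : Lb := (@Lb.r r82 (@Lb.r r275 (@Lb.d (nat_lit 33) (nat_lit 8) (nat_lit 0) (@Lb.g g8 (@Lb.g g9 (@Lb.r r427 (@Lb.r r582 (@Lb.r r408 (@Lb.d (nat_lit 152) (nat_lit 25) (nat_lit 154) (@Lb.fp (nat_lit 3) t699))))))))))
noncomputable def l15069 : Lb := (@Lb.r r263 (@Lb.d (nat_lit 26) (nat_lit 257) (nat_lit 0) (@Lb.g g8 (@Lb.g g9 (@Lb.g g10 (@Lb.r r2347 (@Lb.r r1186 (@Lb.r r1425 (@Lb.r r2120 (@Lb.d (nat_lit 548) (nat_lit 165) (nat_lit 408) (@Lb.t (@Lb.fm (nat_lit 9) t3139))))))))))))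
noncomputable def l15070 : Lb := (@Lb.d (nat_lit 32) (nat_lit 8) (nat_lit 74) (@Lb.g g10 (@Lb.g g11 (@Lb.r r407 (@Lb.r r612 (@Lb.r r2661 (@Lb.r r2394 (@Lb.d (nat_lit 426) (nat_lit 150) (nat_lit 294) (@Lb.fp (nat_lit 3) t322)))))))))
noncomputable def l15071 : Lb := (@Lb.r r580 (@Lb.d (nat_lit 16) (nat_lit 32) (nat_lit 105) (@Lb.g g10 (@Lb.g g11 (@Lb.r r2405 (@Lb.r r667 (@Lb.r r1048 (@Lb.d (nat_lit 657) (nat_lit 68) (nat_lit 265) (@Lb.fp (nat_lit 3) t3140)))))))))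
noncomputable def l15072 : Lb := (@Lb.d (nat_lit 9) (nat_lit 518) (nat_lit 128) (@Lb.g g8 (@Lb.g g9 (@Lb.g g10 (@Lb.g g11 (@Lb.r r2666 (@Lb.r r579 (@Lb.r r104 (@Lb.r r25 (@Lb.d (nat_lit 618) (nat_lit 84) (nat_lit 8) (@Lb.fp (nat_lit 9) t2153)))))))))))
noncomputable def l15073 : Lb := (@Lb.d (nat_lit 673) (nat_lit 2) (nat_lit 105) (@Lb.r r644 (@Lb.r r614 (@Lb.r r1435 (@Lb.g g7 (@Lb.g g9 (@Lb.g g4 (@Lb.d (nat_lit 132) (nat_lit 72) (nat_lit 0) (@Lb.r r98 (@Lb.t (@Lb.fm (nat_lit 9) t145)))))))))))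
noncomputable def l15074 : Lb := (@Lb.d (nat_lit 136) (nat_lit 256) (nat_lit 384) (@Lb.g g8 (@Lb.g g11 (@Lb.r r1382 (@Lb.r r2405 (@Lb.r r660 (@Lb.d (nat_lit 166) (nat_lit 90) (nat_lit 538) (@Lb.fp (nat_lit 3) t927))))))))
noncomputable def l15075 : Lb := (@Lb.d (nat_lit 9) (nat_lit 513) (nat_lit 130) (@Lb.g g8 (@Lb.g g9 (@Lb.g g10 (@Lb.g g11 (@Lb.r r2691 (@Lb.r r1193 (@Lb.r r2658 (@Lb.r r2436 (@Lb.d (nat_lit 613) (nat_lit 168) (nat_lit 597) (@Lb.fp (nat_lit 9) t1831)))))))))))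
noncomputable def l15076 : Lb := (@Lb.r r21 (@Lb.d (nat_lit 10) (nat_lit 544) (nat_lit 130) (@Lb.g g8 (@Lb.g g10 (@Lb.g g11 (@Lb.r r1706 (@Lb.r r353 (@Lb.r r1431 (@Lb.r r2584 (@Lb.d (nat_lit 664) (nat_lit 65) (nat_lit 96) (@Lb.t (@Lb.fp (nat_lit 9) t3141))))))))))))
noncomputable def l15077 : Lb := (@Lb.r r21 (@Lb.d (nat_lit 18) (nat_lit 256) (nat_lit 0) (@Lb.g g8 (@Lb.g g10 (@Lb.g g7 (@Lb.r r402 (@Lb.r r1641 (@Lb.r r2596 (@Lb.d (nat_lit 393) (nat_lit 89) (nat_lit 130) (@Lb.t (@Lb.fp (nat_lit 9) t3142)))))))))))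
noncomputable def l15078 : Lb := (@Lb.r r21 (@Lb.r r70 (@Lb.g g4 (@Lb.r r1412 (@Lb.r r1291 (@Lb.r r402 (@Lb.r r97 (@Lb.d (nat_lit 0) (nat_lit 266) (nat_lit 514) (@Lb.t (@Lb.fm (nat_lit 3) t739))))))))))
noncomputable def l15079 : Lb := (@Lb.d (nat_lit 0) (nat_lit 258) (nat_lit 137) (@Lb.g g9 (@Lb.g g10 (@Lb.g g7 (@Lb.r r386 (@Lb.r r97 (@Lb.d (nat_lit 5) (nat_lit 10) (nat_lit 9) (@Lb.t (@Lb.fp (nat_lit 9) t285)))))))))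
noncomputable def l15080 : Lb := (@Lb.d (nat_lit 10) (nat_lit 512) (nat_lit 73) (@Lb.g g8 (@Lb.g g10 (@Lb.g g11 (@Lb.r r1381 (@Lb.r r1691 (@Lb.r r1178 (@Lb.r r2584 (@Lb.d (nat_lit 274) (nat_lit 0) (nat_lit 544) (@Lb.t (@Lb.fm (nat_lit 9) t521)))))))))))
noncomputable def l15081 : Lb := (@Lb.d (nat_lit 137) (nat_lit 33) (nat_lit 10) (@Lb.g g8 (@Lb.g g9 (@Lb.g g10 (@Lb.r r275 (@Lb.r r1633 (@Lb.r r2646 (@Lb.r r420 (@Lb.d (nat_lit 546) (nat_lit 4) (nat_lit 74) (@Lb.t (@Lb.fp (nat_lit 9) t2)))))))))))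
noncomputable def l15082 : Lb := (@Lb.d (nat_lit 9) (nat_lit 532) (nat_lit 586) (@Lb.g g8 (@Lb.g g9 (@Lb.g g10 (@Lb.g g7 (@Lb.r r425 (@Lb.r r1188 (@Lb.r r1158 (@Lb.d (nat_lit 34) (nat_lit 10) (nat_lit 65) (@Lb.fm (nat_lit 9) t981))))))))))
noncomputable def l15083 : Lb := (@Lb.d (nat_lit 8) (nat_lit 2) (nat_lit 9) (@Lb.g g9 (@Lb.g g10 (@Lb.g g11 (@Lb.r r1575 (@Lb.r r2458 (@Lb.r r24 (@Lb.d (nat_lit 530) (nat_lit 2) (nat_lit 105) (@Lb.t (@Lb.fp (nat_lit 9) t3143))))))))))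
noncomputable def l15084 : Lb := (@Lb.g g7 (@Lb.r r1414 (@Lb.r r149 (@Lb.r r2120 (@Lb.d (nat_lit 256) (nat_lit 266) (nat_lit 514) (@Lb.t (@Lb.fm (nat_lit 3) t145)))))))
noncomputable def l15085 : Lb := (@Lb.d (nat_lit 9) (nat_lit 260) (nat_lit 74) (@Lb.g g8 (@Lb.g g9 (@Lb.g g10 (@Lb.g g11 (@Lb.r r342 (@Lb.r r2712 (@Lb.r r2587 (@Lb.r r1321 (@Lb.d (nat_lit 265) (nat_lit 33) (nat_lit 586) (@Lb.fm (nat_lit 9) t125)))))))))))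
noncomputable def l15086 : Lb := (@Lb.d (nat_lit 128) (nat_lit 66) (nat_lit 136) (@Lb.g g9 (@Lb.g g11 (@Lb.r r420 (@Lb.r r390 (@Lb.r r1387 (@Lb.d (nat_lit 36) (nat_lit 24) (nat_lit 150) (@Lb.fp (nat_lit 3) t820))))))))
noncomputable def l15087 : Lb := (@Lb.g g5 (@Lb.r r579 (@Lb.r r402 (@Lb.r r2145 (@Lb.r r36 (@Lb.d (nat_lit 5) (nat_lit 513) (nat_lit 0) (@Lb.t (@Lb.fp (nat_lit 3) t940))))))))
noncomputable def l15088 : Lb := (@Lb.d (nat_lit 0) (nat_lit 264) (nat_lit 2) (@Lb.g g8 (@Lb.g g10 (@Lb.r r101 (@Lb.r r24 (@Lb.d (nat_lit 0) (nat_lit 0) (nat_lit 66) (@Lb.fm (nat_lit 3) t145)))))))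
noncomputable def l15089 : Lb := (@Lb.r r1284 (@Lb.d (nat_lit 0) (nat_lit 258) (nat_lit 642) (@Lb.g g9 (@Lb.g g10 (@Lb.g g7 (@Lb.r r386 (@Lb.r r97 (@Lb.d (nat_lit 0) (nat_lit 138) (nat_lit 9) (@Lb.t (@Lb.fp (nat_lit 9) t217))))))))))
noncomputable def l15090 : Lb := (@Lb.d (nat_lit 70) (nat_lit 32) (nat_lit 384) (@Lb.r r1284 (@Lb.r r579 (@Lb.r r2458 (@Lb.r r85 (@Lb.g g6 (@Lb.g g5 (@Lb.g g4 (@Lb.d (nat_lit 0) (nat_lit 9) (nat_lit 0) (@Lb.t (@Lb.fp (nat_lit 9) t1502)))))))))))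
noncomputable def l15091 : Lb := (@Lb.d (nat_lit 2) (nat_lit 42) (nat_lit 1) (@Lb.g g8 (@Lb.g g9 (@Lb.g g10 (@Lb.r r2387 (@Lb.r r2729 (@Lb.r r2404 (@Lb.r r1610 (@Lb.d (nat_lit 672) (nat_lit 5) (nat_lit 661) (@Lb.t (@Lb.fp (nat_lit 9) t2842)))))))))))
noncomputable def l15092 : Lb := (@Lb.d (nat_lit 0) (nat_lit 2) (nat_lit 130) (@Lb.g g8 (@Lb.g g9 (@Lb.g g10 (@Lb.g g11 (@Lb.r r1367 (@Lb.r r386 (@Lb.r r1109 (@Lb.r r24 (@Lb.d (nat_lit 130) (nat_lit 137) (nat_lit 329) (@Lb.fp (nat_lit 9) t3016)))))))))))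
noncomputable def l15093 : Lb := (@Lb.d (nat_lit 1) (nat_lit 10) (nat_lit 2) (@Lb.r r1158 (@Lb.r r2136 (@Lb.r r2341 (@Lb.r r2579 (@Lb.g g6 (@Lb.t (@Lb.fm (nat_lit 3) t1593))))))))
noncomputable def l15094 : Lb := (@Lb.r r323 (@Lb.d (nat_lit 0) (nat_lit 290) (nat_lit 2) (@Lb.g g9 (@Lb.g g10 (@Lb.r r599 (@Lb.r r420 (@Lb.r r102 (@Lb.d (nat_lit 37) (nat_lit 8) (nat_lit 18) (@Lb.fp (nat_lit 3) t1149)))))))))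
noncomputable def l15095 : Lb := (@Lb.d (nat_lit 128) (nat_lit 8) (nat_lit 384) (@Lb.g g8 (@Lb.g g9 (@Lb.g g11 (@Lb.r r2630 (@Lb.r r2456 (@Lb.r r1045 (@Lb.d (nat_lit 516) (nat_lit 137) (nat_lit 18) (@Lb.t (@Lb.fp (nat_lit 9) t745))))))))))
noncomputable def l15096 : Lb := (@Lb.d (nat_lit 2) (nat_lit 4) (nat_lit 0) (@Lb.g g8 (@Lb.g g9 (@Lb.g g10 (@Lb.r r2723 (@Lb.r r1685 (@Lb.r r2404 (@Lb.r r1610 (@Lb.d (nat_lit 609) (nat_lit 5) (nat_lit 42) (@Lb.t (@Lb.fp (nat_lit 9) t3144)))))))))))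
noncomputable def l15097 : Lb := (@Lb.d (nat_lit 0) (nat_lit 260) (nat_lit 0) (@Lb.g g8 (@Lb.g g9 (@Lb.g g10 (@Lb.r r2723 (@Lb.r r1685 (@Lb.r r2404 (@Lb.r r1610 (@Lb.d (nat_lit 609) (nat_lit 10) (nat_lit 40) (@Lb.t (@Lb.fp (nat_lit 9) t3144)))))))))))
noncomputable def l15098 : Lb := (@Lb.d (nat_lit 4) (nat_lit 520) (nat_lit 0) (@Lb.g g8 (@Lb.g g9 (@Lb.r r1636 (@Lb.r r1383 (@Lb.r r1626 (@Lb.r r1429 (@Lb.d (nat_lit 609) (nat_lit 89) (nat_lit 258) (@Lb.fm (nat_lit 3) t3145)))))))))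
noncomputable def l15099 : Lb := (@Lb.d (nat_lit 2) (nat_lit 2) (nat_lit 2) (@Lb.g g8 (@Lb.g g9 (@Lb.g g10 (@Lb.r r2723 (@Lb.r r1685 (@Lb.r r2404 (@Lb.r r1610 (@Lb.d (nat_lit 609) (nat_lit 10) (nat_lit 40) (@Lb.t (@Lb.fp (nat_lit 9) t1346)))))))))))
noncomputable def l15100 : Lb := (@Lb.d (nat_lit 2) (nat_lit 516) (nat_lit 0) (@Lb.g g8 (@Lb.g g9 (@Lb.g g10 (@Lb.r r2723 (@Lb.r r1685 (@Lb.r r2404 (@Lb.r r1610 (@Lb.d (nat_lit 609) (nat_lit 10) (nat_lit 40) (@Lb.t (@Lb.fp (nat_lit 9) t3144)))))))))))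
noncomputable def l15101 : Lb := (@Lb.d (nat_lit 2) (nat_lit 260) (nat_lit 0) (@Lb.g g8 (@Lb.g g9 (@Lb.g g10 (@Lb.r r2723 (@Lb.r r1685 (@Lb.r r2404 (@Lb.r r1610 (@Lb.d (nat_lit 610) (nat_lit 10) (nat_lit 40) (@Lb.t (@Lb.fp (nat_lit 9) t3146)))))))))))
noncomputable def l15102 : Lb := (@Lb.r r82 (@Lb.d (nat_lit 8) (nat_lit 546) (nat_lit 64) (@Lb.g g9 (@Lb.g g11 (@Lb.r r1443 (@Lb.r r1048 (@Lb.r r2469 (@Lb.r r98 (@Lb.d (nat_lit 69) (nat_lit 2) (nat_lit 682) (@Lb.fm (nat_lit 3) t2420))))))))))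
noncomputable def l15103 : Lb := (@Lb.d (nat_lit 146) (nat_lit 0) (nat_lit 73) (@Lb.g g8 (@Lb.g g9 (@Lb.g g10 (@Lb.g g11 (@Lb.r r1415 (@Lb.r r1096 (@Lb.r r614 (@Lb.r r2145 (@Lb.d (nat_lit 581) (nat_lit 64) (nat_lit 128) (@Lb.fp (nat_lit 9) t472)))))))))))
noncomputable def l15104 : Lb := (@Lb.d (nat_lit 2) (nat_lit 0) (nat_lit 0) (@Lb.g g8 (@Lb.g g9 (@Lb.r r338 (@Lb.r r1699 (@Lb.r r661 (@Lb.r r1124 (@Lb.r r2122 (@Lb.d (nat_lit 2) (nat_lit 10) (nat_lit 681) (@Lb.fp (nat_lit 3) t3147))))))))))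
noncomputable def l15105 : Lb := (@Lb.d (nat_lit 6) (nat_lit 256) (nat_lit 130) (@Lb.g g8 (@Lb.g g9 (@Lb.g g10 (@Lb.g g11 (@Lb.r r1443 (@Lb.r r40 (@Lb.r r425 (@Lb.r r98 (@Lb.r r2084 (@Lb.d (nat_lit 409) (nat_lit 90) (nat_lit 409) (@Lb.fp (nat_lit 9) t1231))))))))))))
noncomputable def l15106 : Lb := (@Lb.d (nat_lit 1) (nat_lit 150) (nat_lit 320) (@Lb.r r2308 (@Lb.r r97 (@Lb.r r1291 (@Lb.r r404 (@Lb.g g7 (@Lb.g g10 (@Lb.g g5 (@Lb.g g4 (@Lb.d (nat_lit 1) (nat_lit 6) (nat_lit 146) (@Lb.fp (nat_lit 9) t1018)))))))))))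
noncomputable def l15107 : Lb := (@Lb.r r82 (@Lb.r r275 (@Lb.d (nat_lit 4) (nat_lit 514) (nat_lit 0) (@Lb.g g5 (@Lb.r r1619 (@Lb.r r386 (@Lb.r r24 (@Lb.d (nat_lit 1) (nat_lit 70) (nat_lit 0) (@Lb.t (@Lb.fp (nat_lit 3) t251))))))))))
noncomputable def l15108 : Lb := (@Lb.r r82 (@Lb.r r275 (@Lb.d (nat_lit 0) (nat_lit 513) (nat_lit 0) (@Lb.g g4 (@Lb.g g5 (@Lb.r r291 (@Lb.r r98 (@Lb.r r36 (@Lb.fm (nat_lit 3) t68)))))))))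
noncomputable def l15109 : Lb := (@Lb.d (nat_lit 74) (nat_lit 133) (nat_lit 0) (@Lb.g g8 (@Lb.g g5 (@Lb.g g10 (@Lb.g g11 (@Lb.r r2407 (@Lb.r r346 (@Lb.r r324 (@Lb.d (nat_lit 337) (nat_lit 1) (nat_lit 150) (@Lb.fm (nat_lit 9) t2085))))))))))
noncomputable def l15110 : Lb := (@Lb.r r263 (@Lb.d (nat_lit 17) (nat_lit 2) (nat_lit 0) (@Lb.g g8 (@Lb.g g9 (@Lb.g g10 (@Lb.r r2666 (@Lb.r r2627 (@Lb.r r1577 (@Lb.r r1576 (@Lb.d (nat_lit 129) (nat_lit 145) (nat_lit 512) (@Lb.t (@Lb.fp (nat_lit 9) t823))))))))))))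
noncomputable def l15111 : Lb := (@Lb.d (nat_lit 72) (nat_lit 133) (nat_lit 0) (@Lb.g g8 (@Lb.g g5 (@Lb.g g10 (@Lb.g g11 (@Lb.r r2407 (@Lb.r r346 (@Lb.r r324 (@Lb.d (nat_lit 344) (nat_lit 0) (nat_lit 150) (@Lb.fm (nat_lit 9) t3148))))))))))
noncomputable def l15112 : Lb := (@Lb.d (nat_lit 72) (nat_lit 645) (nat_lit 0) (@Lb.g g8 (@Lb.g g5 (@Lb.g g10 (@Lb.g g11 (@Lb.r r2407 (@Lb.r r346 (@Lb.r r324 (@Lb.d (nat_lit 337) (nat_lit 1) (nat_lit 150) (@Lb.fm (nat_lit 9) t2085))))))))))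
noncomputable def l15113 : Lb := (@Lb.d (nat_lit 128) (nat_lit 2) (nat_lit 64) (@Lb.g g9 (@Lb.g g11 (@Lb.r r260 (@Lb.r r363 (@Lb.r r1602 (@Lb.r r97 (@Lb.d (nat_lit 522) (nat_lit 136) (nat_lit 100) (@Lb.fp (nat_lit 3) t386)))))))))
noncomputable def l15114 : Lb := (@Lb.d (nat_lit 74) (nat_lit 640) (nat_lit 2) (@Lb.g g8 (@Lb.g g5 (@Lb.g g10 (@Lb.g g11 (@Lb.r r2407 (@Lb.r r346 (@Lb.r r324 (@Lb.d (nat_lit 344) (nat_lit 0) (nat_lit 150) (@Lb.fm (nat_lit 9) t3149))))))))))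
noncomputable def l15115 : Lb := (@Lb.d (nat_lit 9) (nat_lit 85) (nat_lit 641) (@Lb.r r1346 (@Lb.r r2323 (@Lb.r r549 (@Lb.g g7 (@Lb.g g8 (@Lb.d (nat_lit 584) (nat_lit 0) (nat_lit 64) (@Lb.r r586 (@Lb.r r25 (@Lb.fm (nat_lit 3) t344))))))))))
noncomputable def l15116 : Lb := (@Lb.d (nat_lit 8) (nat_lit 514) (nat_lit 2) (@Lb.g g9 (@Lb.g g10 (@Lb.g g11 (@Lb.r r419 (@Lb.r r98 (@Lb.d (nat_lit 2) (nat_lit 4) (nat_lit 1) (@Lb.t (@Lb.fm (nat_lit 9) t51)))))))))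
noncomputable def l15117 : Lb := (@Lb.r r82 (@Lb.d (nat_lit 8) (nat_lit 522) (nat_lit 0) (@Lb.g g9 (@Lb.g g11 (@Lb.r r355 (@Lb.r r146 (@Lb.d (nat_lit 2) (nat_lit 9) (nat_lit 2) (@Lb.fp (nat_lit 3) t610))))))))
noncomputable def l15118 : Lb := (@Lb.d (nat_lit 128) (nat_lit 512) (nat_lit 128) (@Lb.g g11 (@Lb.r r549 (@Lb.r r344 (@Lb.r r679 (@Lb.r r134 (@Lb.d (nat_lit 5) (nat_lit 24) (nat_lit 137) (@Lb.t (@Lb.fp (nat_lit 3) t40)))))))))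
noncomputable def l15119 : Lb := (@Lb.d (nat_lit 9) (nat_lit 649) (nat_lit 148) (@Lb.r r82 (@Lb.r r2387 (@Lb.r r677 (@Lb.g g7 (@Lb.g g6 (@Lb.g g8 (@Lb.d (nat_lit 328) (nat_lit 0) (nat_lit 65) (@Lb.r r25 (@Lb.t (@Lb.fp (nat_lit 9) t2436)))))))))))
noncomputable def l15120 : Lb := (@Lb.d (nat_lit 25) (nat_lit 514) (nat_lit 529) (@Lb.r r2116 (@Lb.r r2133 (@Lb.r r394 (@Lb.g g11 (@Lb.g g6 (@Lb.g g4 (@Lb.d (nat_lit 97) (nat_lit 0) (nat_lit 512) (@Lb.r r25 (@Lb.t (@Lb.fp (nat_lit 9) t1643)))))))))))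
noncomputable def l15121 : Lb := (@Lb.d (nat_lit 1) (nat_lit 9) (nat_lit 1) (@Lb.g g8 (@Lb.g g9 (@Lb.g g10 (@Lb.g g11 (@Lb.r r427 (@Lb.r r388 (@Lb.r r70 (@Lb.r r153 (@Lb.r r132 (@Lb.d (nat_lit 6) (nat_lit 65) (nat_lit 154) (@Lb.fp (nat_lit 9) t408))))))))))))
noncomputable def l15122 : Lb := (@Lb.d (nat_lit 2) (nat_lit 137) (nat_lit 128) (@Lb.g g8 (@Lb.g g5 (@Lb.g g11 (@Lb.r r532 (@Lb.r r2311 (@Lb.r r2178 (@Lb.r r1540 (@Lb.d (nat_lit 2) (nat_lit 96) (nat_lit 658) (@Lb.t (@Lb.fm (nat_lit 9) t296)))))))))))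
noncomputable def l15123 : Lb := (@Lb.d (nat_lit 2) (nat_lit 2) (nat_lit 137) (@Lb.g g8 (@Lb.g g9 (@Lb.g g10 (@Lb.g g11 (@Lb.r r1706 (@Lb.r r1177 (@Lb.r r2452 (@Lb.r r1323 (@Lb.d (nat_lit 4) (nat_lit 81) (nat_lit 330) (@Lb.fm (nat_lit 9) t3150)))))))))))
noncomputable def l15124 : Lb := (@Lb.r r323 (@Lb.d (nat_lit 2) (nat_lit 514) (nat_lit 0) (@Lb.g g8 (@Lb.g g9 (@Lb.g g10 (@Lb.r r1706 (@Lb.r r2692 (@Lb.r r2567 (@Lb.r r1553 (@Lb.d (nat_lit 0) (nat_lit 161) (nat_lit 330) (@Lb.t (@Lb.fm (nat_lit 9) t3150))))))))))))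
noncomputable def l15125 : Lb := (@Lb.d (nat_lit 2) (nat_lit 393) (nat_lit 128) (@Lb.g g8 (@Lb.g g5 (@Lb.g g11 (@Lb.r r532 (@Lb.r r2311 (@Lb.r r2178 (@Lb.r r1540 (@Lb.d (nat_lit 1) (nat_lit 96) (nat_lit 658) (@Lb.t (@Lb.fm (nat_lit 9) t296)))))))))))
noncomputable def l15126 : Lb := (@Lb.d (nat_lit 2) (nat_lit 34) (nat_lit 17) (@Lb.g g8 (@Lb.g g9 (@Lb.g g10 (@Lb.r r2571 (@Lb.r r1188 (@Lb.r r2389 (@Lb.d (nat_lit 100) (nat_lit 97) (nat_lit 149) (@Lb.t (@Lb.fp (nat_lit 9) t3151))))))))))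
noncomputable def l15127 : Lb := (@Lb.d (nat_lit 41) (nat_lit 2) (nat_lit 0) (@Lb.g g8 (@Lb.g g9 (@Lb.r r1635 (@Lb.r r582 (@Lb.r r2389 (@Lb.r r2468 (@Lb.d (nat_lit 290) (nat_lit 36) (nat_lit 346) (@Lb.fp (nat_lit 3) t284)))))))))
noncomputable def l15128 : Lb := (@Lb.d (nat_lit 32) (nat_lit 512) (nat_lit 66) (@Lb.g g8 (@Lb.g g10 (@Lb.g g11 (@Lb.r r2699 (@Lb.r r1610 (@Lb.r r2585 (@Lb.r r536 (@Lb.d (nat_lit 657) (nat_lit 40) (nat_lit 641) (@Lb.t (@Lb.fm (nat_lit 9) t412)))))))))))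
noncomputable def l15129 : Lb := (@Lb.d (nat_lit 10) (nat_lit 644) (nat_lit 17) (@Lb.r r421 (@Lb.r r1126 (@Lb.r r2456 (@Lb.g g11 (@Lb.g g6 (@Lb.d (nat_lit 0) (nat_lit 0) (nat_lit 5) (@Lb.fp (nat_lit 3) t61))))))))
noncomputable def l15130 : Lb := (@Lb.d (nat_lit 128) (nat_lit 550) (nat_lit 72) (@Lb.g g9 (@Lb.g g11 (@Lb.r r2436 (@Lb.r r2454 (@Lb.r r2395 (@Lb.d (nat_lit 550) (nat_lit 160) (nat_lit 37) (@Lb.fp (nat_lit 3) t47))))))))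
noncomputable def l15131 : Lb := (@Lb.g g10 (@Lb.r r579 (@Lb.r r402 (@Lb.r r101 (@Lb.r r24 (@Lb.d (nat_lit 273) (nat_lit 512) (nat_lit 161) (@Lb.t (@Lb.fp (nat_lit 3) t145))))))))
noncomputable def l15132 : Lb := (@Lb.d (nat_lit 41) (nat_lit 678) (nat_lit 0) (@Lb.g g8 (@Lb.g g9 (@Lb.r r150 (@Lb.r r360 (@Lb.d (nat_lit 517) (nat_lit 41) (nat_lit 148) (@Lb.fm (nat_lit 3) t145)))))))
noncomputable def l15133 : Lb := (@Lb.d (nat_lit 0) (nat_lit 0) (nat_lit 64) (@Lb.g g4 (@Lb.g g10 (@Lb.g g7 (@Lb.d (nat_lit 0) (nat_lit 0) (nat_lit 148) (@Lb.t (@Lb.fm (nat_lit 9) t2)))))))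
noncomputable def l15134 : Lb := (@Lb.d (nat_lit 9) (nat_lit 262) (nat_lit 64) (@Lb.g g8 (@Lb.g g9 (@Lb.g g10 (@Lb.g g7 (@Lb.r r386 (@Lb.r r2153 (@Lb.r r2120 (@Lb.d (nat_lit 292) (nat_lit 129) (nat_lit 9) (@Lb.fp (nat_lit 9) t3142))))))))))
noncomputable def l15135 : Lb := (@Lb.d (nat_lit 2) (nat_lit 516) (nat_lit 128) (@Lb.g g8 (@Lb.g g9 (@Lb.g g10 (@Lb.g g11 (@Lb.r r2699 (@Lb.r r1610 (@Lb.r r40 (@Lb.r r2345 (@Lb.r r1060 (@Lb.d (nat_lit 386) (nat_lit 169) (nat_lit 97) (@Lb.fm (nat_lit 9) t3152))))))))))))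
noncomputable def l15136 : Lb := (@Lb.d (nat_lit 8) (nat_lit 422) (nat_lit 0) (@Lb.g g9 (@Lb.r r1414 (@Lb.r r2120 (@Lb.d (nat_lit 101) (nat_lit 74) (nat_lit 33) (@Lb.t (@Lb.fp (nat_lit 3) t145)))))))
noncomputable def l15137 : Lb := (@Lb.d (nat_lit 128) (nat_lit 294) (nat_lit 128) (@Lb.g g9 (@Lb.g g11 (@Lb.r r2468 (@Lb.r r2438 (@Lb.r r2411 (@Lb.d (nat_lit 546) (nat_lit 73) (nat_lit 614) (@Lb.fp (nat_lit 3) t47))))))))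
noncomputable def l15138 : Lb := (@Lb.g g9 (@Lb.r r402 (@Lb.r r2436 (@Lb.d (nat_lit 608) (nat_lit 292) (nat_lit 256) (@Lb.t (@Lb.fm (nat_lit 3) t3153))))))
noncomputable def l15139 : Lb := (@Lb.d (nat_lit 9) (nat_lit 549) (nat_lit 64) (@Lb.g g8 (@Lb.g g9 (@Lb.g g10 (@Lb.g g11 (@Lb.r r41 (@Lb.r r360 (@Lb.r r327 (@Lb.r r386 (@Lb.r r132 (@Lb.d (nat_lit 145) (nat_lit 10) (nat_lit 69) (@Lb.fm (nat_lit 9) t50))))))))))))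
noncomputable def l15140 : Lb := (@Lb.d (nat_lit 2) (nat_lit 548) (nat_lit 64) (@Lb.g g8 (@Lb.g g9 (@Lb.g g10 (@Lb.g g11 (@Lb.r r2411 (@Lb.r r2154 (@Lb.r r601 (@Lb.d (nat_lit 105) (nat_lit 161) (nat_lit 153) (@Lb.fp (nat_lit 9) t892))))))))))
noncomputable def l15141 : Lb := (@Lb.d (nat_lit 0) (nat_lit 512) (nat_lit 128) (@Lb.g g10 (@Lb.g g11 (@Lb.r r387 (@Lb.r r1617 (@Lb.r r354 (@Lb.d (nat_lit 0) (nat_lit 74) (nat_lit 18) (@Lb.fm (nat_lit 3) t124))))))))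
noncomputable def l15142 : Lb := (@Lb.d (nat_lit 4) (nat_lit 528) (nat_lit 682) (@Lb.r r24 (@Lb.r r2705 (@Lb.r r1378 (@Lb.g g11 (@Lb.g g6 (@Lb.g g5 (@Lb.d (nat_lit 0) (nat_lit 42) (nat_lit 389) (@Lb.t (@Lb.fp (nat_lit 9) t925))))))))))
noncomputable def l15143 : Lb := (@Lb.d (nat_lit 9) (nat_lit 289) (nat_lit 66) (@Lb.g g8 (@Lb.g g9 (@Lb.g g10 (@Lb.g g11 (@Lb.r r1451 (@Lb.r r2198 (@Lb.r r1193 (@Lb.d (nat_lit 533) (nat_lit 89) (nat_lit 421) (@Lb.fp (nat_lit 9) t925))))))))))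
noncomputable def l15144 : Lb := (@Lb.d (nat_lit 2) (nat_lit 536) (nat_lit 5) (@Lb.g g8 (@Lb.g g9 (@Lb.g g10 (@Lb.g g11 (@Lb.r r342 (@Lb.r r1700 (@Lb.r r1575 (@Lb.r r537 (@Lb.d (nat_lit 577) (nat_lit 104) (nat_lit 73) (@Lb.fm (nat_lit 9) t3154)))))))))))
noncomputable def l15145 : Lb := (@Lb.d (nat_lit 8) (nat_lit 516) (nat_lit 74) (@Lb.g g9 (@Lb.g g10 (@Lb.g g11 (@Lb.r r1703 (@Lb.r r1610 (@Lb.r r20 (@Lb.r r105 (@Lb.d (nat_lit 617) (nat_lit 89) (nat_lit 578) (@Lb.t (@Lb.fm (nat_lit 9) t261)))))))))))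
noncomputable def l15146 : Lb := (@Lb.d (nat_lit 0) (nat_lit 21) (nat_lit 21) (@Lb.r r1426 (@Lb.r r2691 (@Lb.g g7 (@Lb.g g6 (@Lb.g g5 (@Lb.d (nat_lit 0) (nat_lit 0) (nat_lit 8) (@Lb.t (@Lb.fp (nat_lit 9) t406)))))))))
noncomputable def l15147 : Lb := (@Lb.d (nat_lit 0) (nat_lit 536) (nat_lit 5) (@Lb.g g9 (@Lb.g g10 (@Lb.g g11 (@Lb.r r611 (@Lb.r r1642 (@Lb.r r616 (@Lb.r r537 (@Lb.d (nat_lit 577) (nat_lit 80) (nat_lit 64) (@Lb.t (@Lb.fm (nat_lit 9) t3155)))))))))))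
noncomputable def l15148 : Lb := (@Lb.d (nat_lit 2) (nat_lit 664) (nat_lit 148) (@Lb.r r2371 (@Lb.r r658 (@Lb.r r101 (@Lb.g g7 (@Lb.g g6 (@Lb.g g4 (@Lb.d (nat_lit 613) (nat_lit 0) (nat_lit 64) (@Lb.r r25 (@Lb.t (@Lb.fp (nat_lit 9) t2139)))))))))))
noncomputable def l15149 : Lb := (@Lb.d (nat_lit 138) (nat_lit 512) (nat_lit 22) (@Lb.g g8 (@Lb.g g10 (@Lb.r r661 (@Lb.r r1559 (@Lb.r r1444 (@Lb.d (nat_lit 584) (nat_lit 161) (nat_lit 296) (@Lb.fp (nat_lit 3) t3156))))))))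
noncomputable def l15150 : Lb := (@Lb.d (nat_lit 1) (nat_lit 644) (nat_lit 66) (@Lb.r r37 (@Lb.r r1304 (@Lb.r r2375 (@Lb.g g6 (@Lb.d (nat_lit 0) (nat_lit 0) (nat_lit 33) (@Lb.r r145 (@Lb.r r132 (@Lb.t (@Lb.fm (nat_lit 3) t1246))))))))))
noncomputable def l15151 : Lb := (@Lb.d (nat_lit 1) (nat_lit 533) (nat_lit 642) (@Lb.r r37 (@Lb.r r1304 (@Lb.r r2375 (@Lb.g g6 (@Lb.d (nat_lit 32) (nat_lit 0) (nat_lit 34) (@Lb.r r145 (@Lb.r r132 (@Lb.t (@Lb.fm (nat_lit 3) t981))))))))))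
noncomputable def l15152 : Lb := (@Lb.d (nat_lit 648) (nat_lit 82) (nat_lit 64) (@Lb.r r536 (@Lb.r r2145 (@Lb.r r1387 (@Lb.r r658 (@Lb.g g7 (@Lb.g g6 (@Lb.g g4 (@Lb.d (nat_lit 96) (nat_lit 0) (nat_lit 64) (@Lb.t (@Lb.fm (nat_lit 9) t1667)))))))))))
noncomputable def l15153 : Lb := (@Lb.d (nat_lit 136) (nat_lit 546) (nat_lit 66) (@Lb.g g9 (@Lb.g g10 (@Lb.g g11 (@Lb.r r2666 (@Lb.r r2436 (@Lb.r r2651 (@Lb.r r273 (@Lb.d (nat_lit 170) (nat_lit 149) (nat_lit 354) (@Lb.t (@Lb.fp (nat_lit 9) t3157)))))))))))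
noncomputable def l15154 : Lb := (@Lb.r r81 (@Lb.r r323 (@Lb.g g10 (@Lb.r r1697 (@Lb.r r299 (@Lb.r r2376 (@Lb.r r1158 (@Lb.d (nat_lit 522) (nat_lit 258) (nat_lit 2) (@Lb.t (@Lb.fm (nat_lit 3) t347))))))))))
noncomputable def l15155 : Lb := (@Lb.d (nat_lit 401) (nat_lit 298) (nat_lit 132) (@Lb.r r1604 (@Lb.r r82 (@Lb.r r409 (@Lb.g g11 (@Lb.g g6 (@Lb.g g4 (@Lb.d (nat_lit 5) (nat_lit 0) (nat_lit 129) (@Lb.t (@Lb.fm (nat_lit 9) t2312))))))))))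
noncomputable def l15156 : Lb := (@Lb.d (nat_lit 401) (nat_lit 42) (nat_lit 132) (@Lb.r r1604 (@Lb.r r82 (@Lb.r r409 (@Lb.g g11 (@Lb.g g6 (@Lb.g g4 (@Lb.d (nat_lit 6) (nat_lit 0) (nat_lit 129) (@Lb.t (@Lb.fm (nat_lit 9) t732))))))))))
noncomputable def l15157 : Lb := (@Lb.d (nat_lit 5) (nat_lit 33) (nat_lit 128) (@Lb.r r402 (@Lb.g g11 (@Lb.g g4 (@Lb.d (nat_lit 6) (nat_lit 0) (nat_lit 0) (@Lb.fm (nat_lit 3) t369))))))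
noncomputable def l15158 : Lb := (@Lb.d (nat_lit 0) (nat_lit 288) (nat_lit 128) (@Lb.r r24 (@Lb.r r402 (@Lb.g g11 (@Lb.t (@Lb.fp (nat_lit 3) t369))))))
noncomputable def l15159 : Lb := (@Lb.d (nat_lit 133) (nat_lit 326) (nat_lit 2) (@Lb.r r293 (@Lb.r r600 (@Lb.r r603 (@Lb.g g6 (@Lb.g g5 (@Lb.d (nat_lit 20) (nat_lit 24) (nat_lit 0) (@Lb.r r387 (@Lb.fp (nat_lit 3) t151)))))))))
noncomputable def l15160 : Lb := (@Lb.d (nat_lit 8) (nat_lit 258) (nat_lit 2) (@Lb.g g9 (@Lb.g g10 (@Lb.r r2392 (@Lb.r r1671 (@Lb.r r1158 (@Lb.r r1297 (@Lb.d (nat_lit 336) (nat_lit 82) (nat_lit 664) (@Lb.fp (nat_lit 3) t1744)))))))))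
noncomputable def l15161 : Lb := (@Lb.r r323 (@Lb.d (nat_lit 130) (nat_lit 34) (nat_lit 0) (@Lb.g g8 (@Lb.g g9 (@Lb.g g10 (@Lb.r r2410 (@Lb.r r391 (@Lb.r r580 (@Lb.d (nat_lit 528) (nat_lit 97) (nat_lit 74) (@Lb.t (@Lb.fm (nat_lit 9) t3158)))))))))))
noncomputable def l15162 : Lb := (@Lb.d (nat_lit 9) (nat_lit 6) (nat_lit 64) (@Lb.g g8 (@Lb.g g9 (@Lb.g g10 (@Lb.g g7 (@Lb.r r2466 (@Lb.r r145 (@Lb.r r1096 (@Lb.d (nat_lit 546) (nat_lit 105) (nat_lit 529) (@Lb.fm (nat_lit 9) t3159))))))))))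
noncomputable def l15163 : Lb := (@Lb.r r323 (@Lb.d (nat_lit 2) (nat_lit 34) (nat_lit 2) (@Lb.g g8 (@Lb.g g9 (@Lb.g g10 (@Lb.r r599 (@Lb.r r1122 (@Lb.r r2436 (@Lb.d (nat_lit 328) (nat_lit 136) (nat_lit 514) (@Lb.t (@Lb.fp (nat_lit 9) t2103)))))))))))
noncomputable def l15164 : Lb := (@Lb.r r323 (@Lb.d (nat_lit 2) (nat_lit 546) (nat_lit 2) (@Lb.g g8 (@Lb.g g9 (@Lb.g g10 (@Lb.r r599 (@Lb.r r1122 (@Lb.r r2436 (@Lb.d (nat_lit 321) (nat_lit 137) (nat_lit 514) (@Lb.t (@Lb.fp (nat_lit 9) t2103)))))))))))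
noncomputable def l15165 : Lb := (@Lb.d (nat_lit 6) (nat_lit 256) (nat_lit 137) (@Lb.g g8 (@Lb.g g9 (@Lb.g g10 (@Lb.g g11 (@Lb.r r1675 (@Lb.r r145 (@Lb.r r594 (@Lb.r r1169 (@Lb.r r36 (@Lb.d (nat_lit 290) (nat_lit 166) (nat_lit 586) (@Lb.fm (nat_lit 9) t445))))))))))))
noncomputable def l15166 : Lb := (@Lb.d (nat_lit 2) (nat_lit 256) (nat_lit 64) (@Lb.g g8 (@Lb.t (@Lb.fp (nat_lit 3) t2))))
noncomputable def l15167 : Lb := (@Lb.d (nat_lit 133) (nat_lit 256) (nat_lit 130) (@Lb.g g8 (@Lb.g g9 (@Lb.g g10 (@Lb.g g11 (@Lb.r r1675 (@Lb.r r613 (@Lb.r r666 (@Lb.r r1176 (@Lb.d (nat_lit 677) (nat_lit 64) (nat_lit 362) (@Lb.fp (nat_lit 9) t1758)))))))))))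
noncomputable def l15168 : Lb := (@Lb.d (nat_lit 297) (nat_lit 21) (nat_lit 82) (@Lb.r r657 (@Lb.r r666 (@Lb.r r420 (@Lb.r r1559 (@Lb.g g7 (@Lb.g g6 (@Lb.g g5 (@Lb.d (nat_lit 8) (nat_lit 1) (nat_lit 129) (@Lb.t (@Lb.fp (nat_lit 9) t1714)))))))))))
noncomputable def l15169 : Lb := (@Lb.d (nat_lit 2) (nat_lit 514) (nat_lit 130) (@Lb.g g8 (@Lb.g g9 (@Lb.g g10 (@Lb.g g11 (@Lb.r r680 (@Lb.r r683 (@Lb.r r2666 (@Lb.r r2585 (@Lb.d (nat_lit 394) (nat_lit 169) (nat_lit 97) (@Lb.fp (nat_lit 9) t430)))))))))))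
noncomputable def l15170 : Lb := (@Lb.d (nat_lit 645) (nat_lit 0) (nat_lit 66) (@Lb.g g4 (@Lb.g g9 (@Lb.g g10 (@Lb.g g11 (@Lb.r r2214 (@Lb.r r549 (@Lb.r r615 (@Lb.r r1553 (@Lb.d (nat_lit 165) (nat_lit 10) (nat_lit 329) (@Lb.fp (nat_lit 9) t1758)))))))))))
noncomputable def l15171 : Lb := (@Lb.d (nat_lit 0) (nat_lit 522) (nat_lit 128) (@Lb.g g9 (@Lb.g g11 (@Lb.r r2450 (@Lb.r r2659 (@Lb.r r2452 (@Lb.r r1561 (@Lb.d (nat_lit 602) (nat_lit 170) (nat_lit 518) (@Lb.fm (nat_lit 3) t3160)))))))))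
noncomputable def l15172 : Lb := (@Lb.d (nat_lit 390) (nat_lit 342) (nat_lit 576) (@Lb.r r2584 (@Lb.r r97 (@Lb.r r2667 (@Lb.g g7 (@Lb.g g10 (@Lb.g g5 (@Lb.g g4 (@Lb.d (nat_lit 6) (nat_lit 4) (nat_lit 82) (@Lb.fp (nat_lit 9) t1852))))))))))
noncomputable def l15173 : Lb := (@Lb.d (nat_lit 266) (nat_lit 514) (nat_lit 32) (@Lb.r r2150 (@Lb.r r101 (@Lb.g g10 (@Lb.t (@Lb.fm (nat_lit 3) t3161))))))
noncomputable def l15174 : Lb := (@Lb.r r273 (@Lb.d (nat_lit 0) (nat_lit 0) (nat_lit 578) (@Lb.g g10 (@Lb.g g7 (@Lb.r r386 (@Lb.r r613 (@Lb.r r24 (@Lb.d (nat_lit 354) (nat_lit 5) (nat_lit 10) (@Lb.fm (nat_lit 3) t2273)))))))))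
noncomputable def l15175 : Lb := (@Lb.d (nat_lit 662) (nat_lit 592) (nat_lit 609) (@Lb.r r2584 (@Lb.r r2178 (@Lb.r r2651 (@Lb.g g9 (@Lb.g g4 (@Lb.d (nat_lit 6) (nat_lit 68) (nat_lit 0) (@Lb.fm (nat_lit 3) t3162))))))))
noncomputable def l15176 : Lb := (@Lb.d (nat_lit 390) (nat_lit 598) (nat_lit 576) (@Lb.r r2584 (@Lb.r r97 (@Lb.r r2667 (@Lb.g g7 (@Lb.g g10 (@Lb.g g5 (@Lb.g g4 (@Lb.d (nat_lit 6) (nat_lit 2) (nat_lit 81) (@Lb.fp (nat_lit 9) t1852))))))))))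
noncomputable def l15177 : Lb := (@Lb.d (nat_lit 390) (nat_lit 598) (nat_lit 576) (@Lb.r r2584 (@Lb.r r97 (@Lb.r r2667 (@Lb.g g7 (@Lb.g g10 (@Lb.g g5 (@Lb.g g4 (@Lb.d (nat_lit 5) (nat_lit 4) (nat_lit 82) (@Lb.fp (nat_lit 9) t1852))))))))))
noncomputable def l15178 : Lb := (@Lb.r r613 (@Lb.r r611 (@Lb.r r2386 (@Lb.r r657 (@Lb.d (nat_lit 96) (nat_lit 0) (nat_lit 528) (@Lb.fp (nat_lit 1) t3163))))))
noncomputable def l15179 : Lb := (@Lb.d (nat_lit 10) (nat_lit 130) (nat_lit 0) (@Lb.r r24 (@Lb.r r1045 (@Lb.r r1094 (@Lb.r r1287 (@Lb.g g4 (@Lb.d (nat_lit 1) (nat_lit 0) (nat_lit 0) (@Lb.t (@Lb.fp (nat_lit 3) t367)))))))))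
noncomputable def l15180 : Lb := (@Lb.d (nat_lit 553) (nat_lit 262) (nat_lit 16) (@Lb.r r101 (@Lb.r r402 (@Lb.r r323 (@Lb.g g7 (@Lb.g g6 (@Lb.d (nat_lit 0) (nat_lit 0) (nat_lit 64) (@Lb.fm (nat_lit 3) t218))))))))
noncomputable def l15181 : Lb := (@Lb.r r24 (@Lb.r r101 (@Lb.r r402 (@Lb.r r579 (@Lb.d (nat_lit 5) (nat_lit 576) (nat_lit 0) (@Lb.fp (nat_lit 1) t379))))))
noncomputable def l15182 : Lb := (@Lb.d (nat_lit 128) (nat_lit 288) (nat_lit 136) (@Lb.g g11 (@Lb.r r420 (@Lb.r r2469 (@Lb.r r1446 (@Lb.r r347 (@Lb.d (nat_lit 298) (nat_lit 85) (nat_lit 518) (@Lb.t (@Lb.fp (nat_lit 3) t322)))))))))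
noncomputable def l15183 : Lb := (@Lb.d (nat_lit 152) (nat_lit 264) (nat_lit 130) (@Lb.g g8 (@Lb.g g9 (@Lb.g g10 (@Lb.g g11 (@Lb.r r683 (@Lb.r r2410 (@Lb.r r1561 (@Lb.r r1540 (@Lb.d (nat_lit 394) (nat_lit 153) (nat_lit 133) (@Lb.fm (nat_lit 9) t3164)))))))))))
noncomputable def l15184 : Lb := (@Lb.d (nat_lit 9) (nat_lit 264) (nat_lit 130) (@Lb.g g8 (@Lb.g g9 (@Lb.g g10 (@Lb.g g11 (@Lb.r r2730 (@Lb.r r420 (@Lb.r r283 (@Lb.r r1577 (@Lb.r r2068 (@Lb.d (nat_lit 681) (nat_lit 161) (nat_lit 90) (@Lb.fp (nat_lit 9) t3066))))))))))))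
noncomputable def l15185 : Lb := (@Lb.d (nat_lit 152) (nat_lit 8) (nat_lit 73) (@Lb.g g8 (@Lb.g g9 (@Lb.g g10 (@Lb.g g11 (@Lb.r r683 (@Lb.r r2410 (@Lb.r r1561 (@Lb.r r1540 (@Lb.d (nat_lit 393) (nat_lit 153) (nat_lit 133) (@Lb.fm (nat_lit 9) t3100)))))))))))
noncomputable def l15186 : Lb := (@Lb.d (nat_lit 34) (nat_lit 512) (nat_lit 0) (@Lb.g g4 (@Lb.r r2407 (@Lb.r r602 (@Lb.r r2453 (@Lb.r r612 (@Lb.d (nat_lit 612) (nat_lit 37) (nat_lit 85) (@Lb.t (@Lb.fm (nat_lit 3) t386)))))))))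
noncomputable def l15187 : Lb := (@Lb.d (nat_lit 137) (nat_lit 0) (nat_lit 0) (@Lb.g g8 (@Lb.r r1621 (@Lb.r r2391 (@Lb.r r2178 (@Lb.r r1572 (@Lb.d (nat_lit 394) (nat_lit 146) (nat_lit 656) (@Lb.t (@Lb.fm (nat_lit 3) t124)))))))))
noncomputable def l15188 : Lb := (@Lb.d (nat_lit 9) (nat_lit 518) (nat_lit 138) (@Lb.g g8 (@Lb.g g9 (@Lb.g g10 (@Lb.g g11 (@Lb.r r1699 (@Lb.r r596 (@Lb.r r682 (@Lb.r r2217 (@Lb.r r2212 (@Lb.d (nat_lit 584) (nat_lit 97) (nat_lit 586) (@Lb.fm (nat_lit 9) t74))))))))))))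
noncomputable def l15189 : Lb := (@Lb.r r70 (@Lb.r r263 (@Lb.d (nat_lit 545) (nat_lit 2) (nat_lit 0) (@Lb.g g4 (@Lb.g g9 (@Lb.r r267 (@Lb.r r74 (@Lb.r r97 (@Lb.d (nat_lit 273) (nat_lit 138) (nat_lit 0) (@Lb.fm (nat_lit 3) t217))))))))))
noncomputable def l15190 : Lb := (@Lb.d (nat_lit 8) (nat_lit 546) (nat_lit 1) (@Lb.g g9 (@Lb.g g10 (@Lb.r r2470 (@Lb.r r603 (@Lb.r r600 (@Lb.r r1429 (@Lb.d (nat_lit 357) (nat_lit 80) (nat_lit 586) (@Lb.fp (nat_lit 3) t1255)))))))))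
noncomputable def l15191 : Lb := (@Lb.d (nat_lit 8) (nat_lit 2) (nat_lit 2) (@Lb.g g9 (@Lb.g g10 (@Lb.r r98 (@Lb.d (nat_lit 2) (nat_lit 9) (nat_lit 0) (@Lb.fm (nat_lit 3) t354))))))
noncomputable def l15192 : Lb := (@Lb.d (nat_lit 0) (nat_lit 514) (nat_lit 0) (@Lb.g g9 (@Lb.g g10 (@Lb.r r2599 (@Lb.r r1368 (@Lb.r r2214 (@Lb.r r145 (@Lb.d (nat_lit 2) (nat_lit 0) (nat_lit 0) (@Lb.fp (nat_lit 3) t51)))))))))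
noncomputable def l15193 : Lb := (@Lb.d (nat_lit 416) (nat_lit 165) (nat_lit 162) (@Lb.r r2403 (@Lb.r r1445 (@Lb.r r1112 (@Lb.r r2214 (@Lb.g g7 (@Lb.g g6 (@Lb.g g5 (@Lb.d (nat_lit 68) (nat_lit 0) (nat_lit 65) (@Lb.t (@Lb.fm (nat_lit 9) t387)))))))))))
noncomputable def l15194 : Lb := (@Lb.d (nat_lit 1) (nat_lit 5) (nat_lit 1) (@Lb.r r81 (@Lb.r r2214 (@Lb.r r1368 (@Lb.r r2599 (@Lb.g g6 (@Lb.g g5 (@Lb.d (nat_lit 0) (nat_lit 1) (nat_lit 0) (@Lb.fp (nat_lit 3) t885)))))))))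
noncomputable def l15195 : Lb := (@Lb.r r275 (@Lb.d (nat_lit 65) (nat_lit 258) (nat_lit 2) (@Lb.g g8 (@Lb.g g5 (@Lb.g g10 (@Lb.r r359 (@Lb.r r678 (@Lb.r r340 (@Lb.d (nat_lit 84) (nat_lit 18) (nat_lit 149) (@Lb.t (@Lb.fm (nat_lit 9) t1790)))))))))))
noncomputable def l15196 : Lb := (@Lb.d (nat_lit 1) (nat_lit 2) (nat_lit 129) (@Lb.g g4 (@Lb.g g9 (@Lb.g g10 (@Lb.g g11 (@Lb.r r2707 (@Lb.r r1698 (@Lb.r r97 (@Lb.d (nat_lit 1) (nat_lit 24) (nat_lit 324) (@Lb.fp (nat_lit 9) t433))))))))))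
noncomputable def l15197 : Lb := (@Lb.d (nat_lit 2) (nat_lit 514) (nat_lit 2) (@Lb.g g8 (@Lb.g g9 (@Lb.g g10 (@Lb.g g11 (@Lb.r r162 (@Lb.r r660 (@Lb.r r425 (@Lb.r r279 (@Lb.r r548 (@Lb.d (nat_lit 0) (nat_lit 10) (nat_lit 73) (@Lb.fp (nat_lit 9) t242))))))))))))
noncomputable def l15198 : Lb := (@Lb.d (nat_lit 6) (nat_lit 320) (nat_lit 130) (@Lb.g g4 (@Lb.g g9 (@Lb.g g10 (@Lb.g g11 (@Lb.r r419 (@Lb.r r98 (@Lb.d (nat_lit 1) (nat_lit 9) (nat_lit 137) (@Lb.fm (nat_lit 9) t51)))))))))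
noncomputable def l15199 : Lb := (@Lb.r r289 (@Lb.r r420 (@Lb.r r603 (@Lb.r r390 (@Lb.r r516 (@Lb.d (nat_lit 0) (nat_lit 346) (nat_lit 320) (@Lb.fm (nat_lit 1) t845)))))))
noncomputable def l15200 : Lb := (@Lb.d (nat_lit 320) (nat_lit 294) (nat_lit 129) (@Lb.r r289 (@Lb.r r535 (@Lb.r r328 (@Lb.r r2726 (@Lb.g g7 (@Lb.g g6 (@Lb.g g5 (@Lb.d (nat_lit 4) (nat_lit 1) (nat_lit 134) (@Lb.t (@Lb.fp (nat_lit 9) t986)))))))))))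
noncomputable def l15201 : Lb := (@Lb.r r21 (@Lb.r r70 (@Lb.d (nat_lit 130) (nat_lit 512) (nat_lit 256) (@Lb.g g8 (@Lb.g g7 (@Lb.r r2646 (@Lb.r r1320 (@Lb.r r25 (@Lb.d (nat_lit 516) (nat_lit 96) (nat_lit 5) (@Lb.fm (nat_lit 3) t3165))))))))))
noncomputable def l15202 : Lb := (@Lb.d (nat_lit 134) (nat_lit 546) (nat_lit 66) (@Lb.g g8 (@Lb.g g9 (@Lb.g g10 (@Lb.g g11 (@Lb.r r1706 (@Lb.r r1419 (@Lb.r r657 (@Lb.r r1156 (@Lb.d (nat_lit 656) (nat_lit 37) (nat_lit 360) (@Lb.fm (nat_lit 9) t605)))))))))))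
noncomputable def l15203 : Lb := (@Lb.r r275 (@Lb.d (nat_lit 2) (nat_lit 0) (nat_lit 2) (@Lb.g g8 (@Lb.g g9 (@Lb.g g10 (@Lb.r r683 (@Lb.r r386 (@Lb.r r2657 (@Lb.r r24 (@Lb.d (nat_lit 264) (nat_lit 89) (nat_lit 549) (@Lb.t (@Lb.fm (nat_lit 9) t1937))))))))))))
noncomputable def l15204 : Lb := (@Lb.d (nat_lit 34) (nat_lit 512) (nat_lit 0) (@Lb.g g4 (@Lb.r r289 (@Lb.r r2579 (@Lb.r r1434 (@Lb.r r2712 (@Lb.d (nat_lit 677) (nat_lit 73) (nat_lit 258) (@Lb.t (@Lb.fm (nat_lit 3) t975)))))))))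
noncomputable def l15205 : Lb := (@Lb.r r323 (@Lb.d (nat_lit 128) (nat_lit 256) (nat_lit 2) (@Lb.g g8 (@Lb.g g10 (@Lb.r r346 (@Lb.r r661 (@Lb.r r1431 (@Lb.r r2632 (@Lb.d (nat_lit 361) (nat_lit 65) (nat_lit 66) (@Lb.fp (nat_lit 3) t71))))))))))
noncomputable def l15206 : Lb := (@Lb.d (nat_lit 1) (nat_lit 0) (nat_lit 0) (@Lb.g g4 (@Lb.r r1291 (@Lb.r r1098 (@Lb.r r1049 (@Lb.d (nat_lit 516) (nat_lit 128) (nat_lit 0) (@Lb.t (@Lb.fm (nat_lit 3) t284))))))))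
noncomputable def l15207 : Lb := (@Lb.r r1307 (@Lb.r r1114 (@Lb.r r20 (@Lb.r r1049 (@Lb.d (nat_lit 262) (nat_lit 0) (nat_lit 0) (@Lb.fp (nat_lit 1) t284))))))
noncomputable def l15208 : Lb := (@Lb.r r21 (@Lb.d (nat_lit 10) (nat_lit 520) (nat_lit 130) (@Lb.g g8 (@Lb.g g10 (@Lb.g g11 (@Lb.r r353 (@Lb.r r1431 (@Lb.r r2632 (@Lb.r r390 (@Lb.d (nat_lit 105) (nat_lit 2) (nat_lit 552) (@Lb.t (@Lb.fp (nat_lit 9) t2))))))))))))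
noncomputable def l15209 : Lb := (@Lb.d (nat_lit 144) (nat_lit 72) (nat_lit 409) (@Lb.r r82 (@Lb.r r1559 (@Lb.g g6 (@Lb.g g5 (@Lb.d (nat_lit 4) (nat_lit 1) (nat_lit 1) (@Lb.fp (nat_lit 3) t3166)))))))
noncomputable def l15210 : Lb := (@Lb.d (nat_lit 2) (nat_lit 256) (nat_lit 130) (@Lb.g g8 (@Lb.g g9 (@Lb.g g10 (@Lb.g g11 (@Lb.r r1579 (@Lb.r r1641 (@Lb.r r2454 (@Lb.r r1636 (@Lb.d (nat_lit 148) (nat_lit 18) (nat_lit 666) (@Lb.fm (nat_lit 9) t3167)))))))))))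
noncomputable def l15211 : Lb := (@Lb.d (nat_lit 2) (nat_lit 512) (nat_lit 130) (@Lb.g g8 (@Lb.g g9 (@Lb.g g10 (@Lb.g g11 (@Lb.r r1579 (@Lb.r r1641 (@Lb.r r2454 (@Lb.r r1636 (@Lb.d (nat_lit 148) (nat_lit 25) (nat_lit 665) (@Lb.fm (nat_lit 9) t1860)))))))))))
noncomputable def l15212 : Lb := (@Lb.d (nat_lit 2) (nat_lit 5) (nat_lit 128) (@Lb.g g8 (@Lb.g g9 (@Lb.g g10 (@Lb.g g11 (@Lb.r r2731 (@Lb.r r161 (@Lb.r r2406 (@Lb.r r2584 (@Lb.d (nat_lit 612) (nat_lit 37) (nat_lit 402) (@Lb.fm (nat_lit 9) t3168)))))))))))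
noncomputable def l15213 : Lb := (@Lb.d (nat_lit 545) (nat_lit 5) (nat_lit 1) (@Lb.r r101 (@Lb.r r24 (@Lb.r r426 (@Lb.r r2651 (@Lb.g g5 (@Lb.d (nat_lit 4) (nat_lit 1) (nat_lit 0) (@Lb.t (@Lb.fm (nat_lit 3) t3169)))))))))
noncomputable def l15214 : Lb := (@Lb.g g8 (@Lb.d (nat_lit 10) (nat_lit 640) (nat_lit 0) (@Lb.t (@Lb.fp (nat_lit 3) t2))))
noncomputable def l15215 : Lb := (@Lb.d (nat_lit 642) (nat_lit 128) (nat_lit 256) (@Lb.r r24 (@Lb.r r1603 (@Lb.r r402 (@Lb.r r2129 (@Lb.g g5 (@Lb.r r291 (@Lb.r r98 (@Lb.t (@Lb.fp (nat_lit 3) t3170))))))))))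
noncomputable def l15216 : Lb := (@Lb.r r20 (@Lb.d (nat_lit 0) (nat_lit 2) (nat_lit 66) (@Lb.g g9 (@Lb.g g10 (@Lb.g g7 (@Lb.r r386 (@Lb.r r101 (@Lb.d (nat_lit 20) (nat_lit 90) (nat_lit 265) (@Lb.t (@Lb.fp (nat_lit 9) t2432))))))))))
noncomputable def l15217 : Lb := (@Lb.d (nat_lit 529) (nat_lit 22) (nat_lit 153) (@Lb.r r2409 (@Lb.r r2340 (@Lb.r r1450 (@Lb.g g11 (@Lb.g g6 (@Lb.g g5 (@Lb.d (nat_lit 4) (nat_lit 32) (nat_lit 389) (@Lb.t (@Lb.fm (nat_lit 9) t3171))))))))))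
noncomputable def l15218 : Lb := (@Lb.r r20 (@Lb.r r275 (@Lb.d (nat_lit 0) (nat_lit 2) (nat_lit 2) (@Lb.g g9 (@Lb.g g10 (@Lb.r r679 (@Lb.r r386 (@Lb.r r613 (@Lb.d (nat_lit 148) (nat_lit 90) (nat_lit 261) (@Lb.fp (nat_lit 3) t2292))))))))))
noncomputable def l15219 : Lb := (@Lb.r r81 (@Lb.r r323 (@Lb.d (nat_lit 10) (nat_lit 0) (nat_lit 24) (@Lb.g g8 (@Lb.g g10 (@Lb.r r1619 (@Lb.r r101 (@Lb.r r152 (@Lb.d (nat_lit 152) (nat_lit 10) (nat_lit 421) (@Lb.fp (nat_lit 3) t523))))))))))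
noncomputable def l15220 : Lb := (@Lb.d (nat_lit 1) (nat_lit 0) (nat_lit 66) (@Lb.g g8 (@Lb.g g9 (@Lb.g g10 (@Lb.g g7 (@Lb.r r386 (@Lb.r r105 (@Lb.r r36 (@Lb.d (nat_lit 42) (nat_lit 82) (nat_lit 265) (@Lb.fm (nat_lit 9) t1926))))))))))
noncomputable def l15221 : Lb := (@Lb.r r20 (@Lb.d (nat_lit 0) (nat_lit 514) (nat_lit 66) (@Lb.g g9 (@Lb.g g10 (@Lb.g g7 (@Lb.r r386 (@Lb.r r101 (@Lb.d (nat_lit 21) (nat_lit 90) (nat_lit 265) (@Lb.t (@Lb.fp (nat_lit 9) t2432))))))))))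
noncomputable def l15222 : Lb := (@Lb.r r82 (@Lb.d (nat_lit 640) (nat_lit 514) (nat_lit 136) (@Lb.g g4 (@Lb.g g9 (@Lb.g g11 (@Lb.r r613 (@Lb.r r2450 (@Lb.r r1635 (@Lb.d (nat_lit 544) (nat_lit 88) (nat_lit 545) (@Lb.t (@Lb.fm (nat_lit 9) t328)))))))))))
noncomputable def l15223 : Lb := (@Lb.d (nat_lit 5) (nat_lit 514) (nat_lit 168) (@Lb.r r609 (@Lb.r r619 (@Lb.r r584 (@Lb.g g6 (@Lb.d (nat_lit 16) (nat_lit 0) (nat_lit 1) (@Lb.r r387 (@Lb.t (@Lb.fp (nat_lit 3) t68)))))))))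
noncomputable def l15224 : Lb := (@Lb.r r81 (@Lb.r r323 (@Lb.d (nat_lit 16) (nat_lit 0) (nat_lit 2) (@Lb.g g6 (@Lb.r r1611 (@Lb.r r104 (@Lb.r r25 (@Lb.d (nat_lit 321) (nat_lit 32) (nat_lit 385) (@Lb.t (@Lb.fm (nat_lit 3) t3172))))))))))
noncomputable def l15225 : Lb := (@Lb.r r82 (@Lb.d (nat_lit 8) (nat_lit 0) (nat_lit 584) (@Lb.g g9 (@Lb.g g7 (@Lb.r r2708 (@Lb.r r1382 (@Lb.r r1361 (@Lb.d (nat_lit 72) (nat_lit 21) (nat_lit 598) (@Lb.fp (nat_lit 3) t3173)))))))))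
noncomputable def l15226 : Lb := (@Lb.d (nat_lit 8) (nat_lit 258) (nat_lit 73) (@Lb.g g9 (@Lb.g g10 (@Lb.g g11 (@Lb.r r1703 (@Lb.r r2658 (@Lb.r r1304 (@Lb.r r2661 (@Lb.d (nat_lit 660) (nat_lit 138) (nat_lit 416) (@Lb.t (@Lb.fp (nat_lit 9) t638)))))))))))
noncomputable def l15227 : Lb := (@Lb.d (nat_lit 0) (nat_lit 513) (nat_lit 40) (@Lb.g g6 (@Lb.d (nat_lit 0) (nat_lit 4) (nat_lit 21) (@Lb.t (@Lb.fm (nat_lit 3) t45)))))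
noncomputable def l15228 : Lb := (@Lb.r r82 (@Lb.d (nat_lit 4) (nat_lit 640) (nat_lit 0) (@Lb.g g8 (@Lb.g g9 (@Lb.g g11 (@Lb.r r1323 (@Lb.r r98 (@Lb.r r36 (@Lb.d (nat_lit 521) (nat_lit 129) (nat_lit 0) (@Lb.t (@Lb.fm (nat_lit 9) t2521)))))))))))
noncomputable def l15229 : Lb := (@Lb.d (nat_lit 265) (nat_lit 144) (nat_lit 0) (@Lb.r r289 (@Lb.r r1579 (@Lb.r r1684 (@Lb.r r2694 (@Lb.g g7 (@Lb.g g6 (@Lb.d (nat_lit 0) (nat_lit 0) (nat_lit 10) (@Lb.fp (nat_lit 3) t1256)))))))))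
noncomputable def l15230 : Lb := (@Lb.g g10 (@Lb.r r1619 (@Lb.r r1378 (@Lb.d (nat_lit 0) (nat_lit 674) (nat_lit 672) (@Lb.t (@Lb.fm (nat_lit 3) t1901))))))
noncomputable def l15231 : Lb := (@Lb.d (nat_lit 102) (nat_lit 641) (nat_lit 32) (@Lb.r r1121 (@Lb.r r330 (@Lb.r r72 (@Lb.r r2391 (@Lb.g g7 (@Lb.g g6 (@Lb.d (nat_lit 16) (nat_lit 0) (nat_lit 65) (@Lb.fm (nat_lit 3) t144)))))))))
noncomputable def l15232 : Lb := (@Lb.d (nat_lit 2) (nat_lit 9) (nat_lit 129) (@Lb.g g8 (@Lb.g g9 (@Lb.g g10 (@Lb.g g11 (@Lb.r r1706 (@Lb.r r680 (@Lb.r r555 (@Lb.r r1553 (@Lb.r r2084 (@Lb.d (nat_lit 10) (nat_lit 32) (nat_lit 586) (@Lb.fm (nat_lit 9) t144))))))))))))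
noncomputable def l15233 : Lb := (@Lb.d (nat_lit 6) (nat_lit 421) (nat_lit 344) (@Lb.r r1697 (@Lb.r r1707 (@Lb.r r1636 (@Lb.r r2394 (@Lb.g g7 (@Lb.g g6 (@Lb.g g5 (@Lb.d (nat_lit 4) (nat_lit 0) (nat_lit 65) (@Lb.t (@Lb.fp (nat_lit 9) t144)))))))))))
noncomputable def l15234 : Lb := (@Lb.d (nat_lit 2) (nat_lit 137) (nat_lit 0) (@Lb.g g8 (@Lb.g g5 (@Lb.g g11 (@Lb.r r596 (@Lb.r r2375 (@Lb.r r2178 (@Lb.r r1540 (@Lb.d (nat_lit 0) (nat_lit 106) (nat_lit 642) (@Lb.t (@Lb.fm (nat_lit 9) t296)))))))))))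
noncomputable def l15235 : Lb := (@Lb.g g11 (@Lb.r r24 (@Lb.r r101 (@Lb.d (nat_lit 0) (nat_lit 389) (nat_lit 168) (@Lb.t (@Lb.fp (nat_lit 3) t126))))))
noncomputable def l15236 : Lb := (@Lb.d (nat_lit 1) (nat_lit 256) (nat_lit 0) (@Lb.g g4 (@Lb.g g7 (@Lb.r r1098 (@Lb.r r1049 (@Lb.d (nat_lit 6) (nat_lit 128) (nat_lit 69) (@Lb.fm (nat_lit 3) t49)))))))
noncomputable def l15237 : Lb := (@Lb.r r82 (@Lb.d (nat_lit 8) (nat_lit 2) (nat_lit 0) (@Lb.g g5 (@Lb.g g7 (@Lb.r r386 (@Lb.r r1064 (@Lb.r r41 (@Lb.d (nat_lit 40) (nat_lit 1) (nat_lit 546) (@Lb.fp (nat_lit 3) t2302)))))))))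
noncomputable def l15238 : Lb := (@Lb.d (nat_lit 134) (nat_lit 0) (nat_lit 66) (@Lb.g g8 (@Lb.g g9 (@Lb.g g10 (@Lb.g g11 (@Lb.r r680 (@Lb.r r267 (@Lb.r r1634 (@Lb.r r1553 (@Lb.d (nat_lit 674) (nat_lit 100) (nat_lit 84) (@Lb.fm (nat_lit 9) t47)))))))))))
noncomputable def l15239 : Lb := (@Lb.d (nat_lit 5) (nat_lit 256) (nat_lit 130) (@Lb.g g4 (@Lb.g g9 (@Lb.g g10 (@Lb.g g11 (@Lb.r r679 (@Lb.r r1634 (@Lb.r r1553 (@Lb.d (nat_lit 609) (nat_lit 105) (nat_lit 657) (@Lb.fp (nat_lit 9) t490))))))))))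
noncomputable def l15240 : Lb := (@Lb.d (nat_lit 134) (nat_lit 512) (nat_lit 66) (@Lb.g g8 (@Lb.g g9 (@Lb.g g10 (@Lb.g g11 (@Lb.r r680 (@Lb.r r267 (@Lb.r r1634 (@Lb.r r1553 (@Lb.d (nat_lit 674) (nat_lit 105) (nat_lit 85) (@Lb.fm (nat_lit 9) t47)))))))))))
noncomputable def l15241 : Lb := (@Lb.d (nat_lit 150) (nat_lit 258) (nat_lit 514) (@Lb.r r2628 (@Lb.r r1621 (@Lb.r r1303 (@Lb.g g10 (@Lb.g g5 (@Lb.g g4 (@Lb.d (nat_lit 24) (nat_lit 1) (nat_lit 10) (@Lb.r r387 (@Lb.t (@Lb.fm (nat_lit 9) t1026)))))))))))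
noncomputable def l15242 : Lb := (@Lb.d (nat_lit 5) (nat_lit 256) (nat_lit 130) (@Lb.g g4 (@Lb.g g9 (@Lb.g g10 (@Lb.g g11 (@Lb.r r679 (@Lb.r r1634 (@Lb.r r1553 (@Lb.d (nat_lit 66) (nat_lit 105) (nat_lit 642) (@Lb.fp (nat_lit 9) t490))))))))))
noncomputable def l15243 : Lb := (@Lb.d (nat_lit 40) (nat_lit 256) (nat_lit 130) (@Lb.g g9 (@Lb.g g10 (@Lb.g g11 (@Lb.r r676 (@Lb.r r2455 (@Lb.r r1633 (@Lb.r r594 (@Lb.d (nat_lit 10) (nat_lit 37) (nat_lit 337) (@Lb.t (@Lb.fp (nat_lit 9) t1644)))))))))))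
noncomputable def l15244 : Lb := (@Lb.d (nat_lit 4) (nat_lit 2) (nat_lit 2) (@Lb.g g8 (@Lb.g g9 (@Lb.g g10 (@Lb.r r675 (@Lb.r r2658 (@Lb.r r2577 (@Lb.d (nat_lit 2) (nat_lit 164) (nat_lit 160) (@Lb.t (@Lb.fp (nat_lit 9) t324))))))))))
noncomputable def l15245 : Lb := (@Lb.d (nat_lit 144) (nat_lit 133) (nat_lit 641) (@Lb.r r289 (@Lb.r r358 (@Lb.r r132 (@Lb.g g11 (@Lb.g g6 (@Lb.d (nat_lit 16) (nat_lit 0) (nat_lit 1) (@Lb.fm (nat_lit 3) t501))))))))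
noncomputable def l15246 : Lb := (@Lb.d (nat_lit 2) (nat_lit 585) (nat_lit 129) (@Lb.g g8 (@Lb.g g9 (@Lb.g g10 (@Lb.g g11 (@Lb.r r2475 (@Lb.r r420 (@Lb.r r102 (@Lb.r r132 (@Lb.d (nat_lit 298) (nat_lit 64) (nat_lit 2) (@Lb.fp (nat_lit 9) t1470)))))))))))
noncomputable def l15247 : Lb := (@Lb.d (nat_lit 0) (nat_lit 257) (nat_lit 5) (@Lb.g g9 (@Lb.g g6 (@Lb.r r1633 (@Lb.d (nat_lit 0) (nat_lit 153) (nat_lit 408) (@Lb.fm (nat_lit 3) t3174))))))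
noncomputable def l15248 : Lb := (@Lb.d (nat_lit 0) (nat_lit 512) (nat_lit 10) (@Lb.g g11 (@Lb.d (nat_lit 0) (nat_lit 0) (nat_lit 128) (@Lb.t (@Lb.fp (nat_lit 3) t2)))))
noncomputable def l15249 : Lb := (@Lb.d (nat_lit 0) (nat_lit 546) (nat_lit 1) (@Lb.g g9 (@Lb.g g10 (@Lb.r r643 (@Lb.r r162 (@Lb.r r421 (@Lb.r r24 (@Lb.d (nat_lit 64) (nat_lit 0) (nat_lit 73) (@Lb.fm (nat_lit 3) t1097)))))))))
noncomputable def l15250 : Lb := (@Lb.d (nat_lit 2) (nat_lit 260) (nat_lit 128) (@Lb.g g8 (@Lb.g g9 (@Lb.g g10 (@Lb.g g11 (@Lb.r r610 (@Lb.r r1607 (@Lb.r r97 (@Lb.r r2436 (@Lb.d (nat_lit 353) (nat_lit 10) (nat_lit 545) (@Lb.fp (nat_lit 9) t1667)))))))))))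
noncomputable def l15251 : Lb := (@Lb.d (nat_lit 6) (nat_lit 32) (nat_lit 128) (@Lb.r r21 (@Lb.r r579 (@Lb.r r406 (@Lb.g g5 (@Lb.g g4 (@Lb.d (nat_lit 1) (nat_lit 1) (nat_lit 0) (@Lb.fm (nat_lit 3) t42))))))))
noncomputable def l15252 : Lb := (@Lb.g g7 (@Lb.r r1287 (@Lb.r r1094 (@Lb.r r1045 (@Lb.r r8 (@Lb.t (@Lb.fp (nat_lit 3) t284)))))))
noncomputable def l15253 : Lb := (@Lb.r r1094 (@Lb.r r1045 (@Lb.r r8 (@Lb.d (nat_lit 256) (nat_lit 512) (nat_lit 0) (@Lb.fm (nat_lit 1) t994)))))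
noncomputable def l15254 : Lb := (@Lb.d (nat_lit 2) (nat_lit 8) (nat_lit 2) (@Lb.g g8 (@Lb.g g10 (@Lb.r r1559 (@Lb.r r1321 (@Lb.r r1416 (@Lb.r r1434 (@Lb.d (nat_lit 5) (nat_lit 86) (nat_lit 8) (@Lb.fm (nat_lit 3) t1663)))))))))
noncomputable def l15255 : Lb := (@Lb.r r1094 (@Lb.r r1045 (@Lb.r r8 (@Lb.d (nat_lit 257) (nat_lit 256) (nat_lit 0) (@Lb.fm (nat_lit 1) t994)))))
noncomputable def l15256 : Lb := (@Lb.d (nat_lit 2) (nat_lit 18) (nat_lit 2) (@Lb.g g8 (@Lb.g g9 (@Lb.g g10 (@Lb.r r2387 (@Lb.r r678 (@Lb.r r612 (@Lb.r r533 (@Lb.d (nat_lit 136) (nat_lit 41) (nat_lit 386) (@Lb.t (@Lb.fp (nat_lit 9) t1122)))))))))))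
noncomputable def l15257 : Lb := (@Lb.d (nat_lit 0) (nat_lit 256) (nat_lit 74) (@Lb.g g10 (@Lb.g g11 (@Lb.r r1415 (@Lb.r r2434 (@Lb.r r1045 (@Lb.r r8 (@Lb.d (nat_lit 338) (nat_lit 0) (nat_lit 166) (@Lb.fm (nat_lit 3) t284)))))))))
noncomputable def l15258 : Lb := (@Lb.d (nat_lit 2) (nat_lit 260) (nat_lit 128) (@Lb.g g8 (@Lb.g g9 (@Lb.g g10 (@Lb.g g11 (@Lb.r r516 (@Lb.r r263 (@Lb.r r618 (@Lb.r r97 (@Lb.r r516 (@Lb.d (nat_lit 617) (nat_lit 9) (nat_lit 657) (@Lb.fm (nat_lit 9) t1664))))))))))))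
noncomputable def l15259 : Lb := (@Lb.r r323 (@Lb.d (nat_lit 0) (nat_lit 578) (nat_lit 2) (@Lb.g g4 (@Lb.g g9 (@Lb.g g10 (@Lb.r r354 (@Lb.r r387 (@Lb.d (nat_lit 1) (nat_lit 33) (nat_lit 74) (@Lb.t (@Lb.fp (nat_lit 9) t51))))))))))
noncomputable def l15260 : Lb := (@Lb.d (nat_lit 0) (nat_lit 69) (nat_lit 161) (@Lb.r r1045 (@Lb.r r2152 (@Lb.r r323 (@Lb.g g10 (@Lb.g g5 (@Lb.g g4 (@Lb.d (nat_lit 2) (nat_lit 0) (nat_lit 2) (@Lb.r r387 (@Lb.t (@Lb.fp (nat_lit 9) t284)))))))))))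
noncomputable def l15261 : Lb := (@Lb.d (nat_lit 1) (nat_lit 322) (nat_lit 130) (@Lb.g g4 (@Lb.g g9 (@Lb.g g10 (@Lb.g g11 (@Lb.r r419 (@Lb.r r98 (@Lb.d (nat_lit 1) (nat_lit 9) (nat_lit 2) (@Lb.fm (nat_lit 9) t51)))))))))
noncomputable def l15262 : Lb := (@Lb.r r68 (@Lb.r r323 (@Lb.d (nat_lit 32) (nat_lit 514) (nat_lit 33) (@Lb.g g9 (@Lb.g g6 (@Lb.r r387 (@Lb.r r2196 (@Lb.r r25 (@Lb.d (nat_lit 522) (nat_lit 68) (nat_lit 1) (@Lb.fp (nat_lit 3) t68))))))))))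
noncomputable def l15263 : Lb := (@Lb.d (nat_lit 534) (nat_lit 514) (nat_lit 134) (@Lb.r r68 (@Lb.r r90 (@Lb.r r596 (@Lb.r r1367 (@Lb.g g7 (@Lb.g g6 (@Lb.g g5 (@Lb.g g4 (@Lb.d (nat_lit 1) (nat_lit 129) (nat_lit 65) (@Lb.fp (nat_lit 9) t242)))))))))))
noncomputable def l15264 : Lb := (@Lb.d (nat_lit 534) (nat_lit 2) (nat_lit 65) (@Lb.r r68 (@Lb.r r90 (@Lb.r r596 (@Lb.r r1367 (@Lb.g g7 (@Lb.g g6 (@Lb.g g5 (@Lb.g g4 (@Lb.d (nat_lit 1) (nat_lit 129) (nat_lit 65) (@Lb.fp (nat_lit 9) t242)))))))))))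
noncomputable def l15265 : Lb := (@Lb.d (nat_lit 677) (nat_lit 577) (nat_lit 552) (@Lb.r r2650 (@Lb.r r1352 (@Lb.r r2711 (@Lb.r r361 (@Lb.g g7 (@Lb.g g6 (@Lb.d (nat_lit 16) (nat_lit 4) (nat_lit 65) (@Lb.fp (nat_lit 3) t1609)))))))))
noncomputable def l15266 : Lb := (@Lb.d (nat_lit 4) (nat_lit 258) (nat_lit 130) (@Lb.g g9 (@Lb.g g10 (@Lb.g g11 (@Lb.r r423 (@Lb.r r600 (@Lb.r r662 (@Lb.r r2393 (@Lb.d (nat_lit 580) (nat_lit 160) (nat_lit 384) (@Lb.t (@Lb.fm (nat_lit 9) t1121)))))))))))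
noncomputable def l15267 : Lb := (@Lb.r r323 (@Lb.d (nat_lit 2) (nat_lit 290) (nat_lit 2) (@Lb.g g8 (@Lb.g g9 (@Lb.g g10 (@Lb.r r599 (@Lb.r r74 (@Lb.r r296 (@Lb.r r409 (@Lb.d (nat_lit 149) (nat_lit 149) (nat_lit 329) (@Lb.t (@Lb.fm (nat_lit 9) t119))))))))))))
noncomputable def l15268 : Lb := (@Lb.d (nat_lit 9) (nat_lit 257) (nat_lit 162) (@Lb.g g8 (@Lb.g g9 (@Lb.g g6 (@Lb.g g11 (@Lb.r r612 (@Lb.r r679 (@Lb.r r597 (@Lb.r r2084 (@Lb.d (nat_lit 162) (nat_lit 136) (nat_lit 325) (@Lb.fp (nat_lit 9) t64)))))))))))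
noncomputable def l15269 : Lb := (@Lb.d (nat_lit 1) (nat_lit 256) (nat_lit 32) (@Lb.r r24 (@Lb.r r2453 (@Lb.r r2371 (@Lb.g g10 (@Lb.g g5 (@Lb.r r291 (@Lb.fm (nat_lit 3) t3175))))))))
noncomputable def l15270 : Lb := (@Lb.d (nat_lit 1) (nat_lit 512) (nat_lit 130) (@Lb.g g4 (@Lb.g g9 (@Lb.g g10 (@Lb.g g11 (@Lb.r r419 (@Lb.r r2122 (@Lb.r r1425 (@Lb.d (nat_lit 336) (nat_lit 73) (nat_lit 513) (@Lb.fm (nat_lit 9) t968))))))))))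
noncomputable def l15271 : Lb := (@Lb.g g8 (@Lb.r r2118 (@Lb.r r2069 (@Lb.r r36 (@Lb.d (nat_lit 513) (nat_lit 322) (nat_lit 0) (@Lb.t (@Lb.fp (nat_lit 3) t1651)))))))
noncomputable def l15272 : Lb := (@Lb.d (nat_lit 2) (nat_lit 2) (nat_lit 130) (@Lb.g g8 (@Lb.g g9 (@Lb.g g10 (@Lb.g g11 (@Lb.r r610 (@Lb.r r1607 (@Lb.r r97 (@Lb.r r2436 (@Lb.d (nat_lit 154) (nat_lit 9) (nat_lit 392) (@Lb.fp (nat_lit 9) t3176)))))))))))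
noncomputable def l15273 : Lb := (@Lb.r r21 (@Lb.d (nat_lit 2) (nat_lit 256) (nat_lit 2) (@Lb.g g8 (@Lb.g g10 (@Lb.r r1691 (@Lb.r r1381 (@Lb.r r2202 (@Lb.r r2180 (@Lb.d (nat_lit 596) (nat_lit 64) (nat_lit 609) (@Lb.fp (nat_lit 3) t284))))))))))
noncomputable def l15274 : Lb := (@Lb.d (nat_lit 145) (nat_lit 256) (nat_lit 384) (@Lb.g g8 (@Lb.g g10 (@Lb.g g11 (@Lb.r r1602 (@Lb.r r388 (@Lb.d (nat_lit 96) (nat_lit 0) (nat_lit 330) (@Lb.t (@Lb.fm (nat_lit 9) t997)))))))))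
noncomputable def l15275 : Lb := (@Lb.d (nat_lit 2) (nat_lit 516) (nat_lit 128) (@Lb.g g8 (@Lb.g g9 (@Lb.g g10 (@Lb.g g11 (@Lb.r r610 (@Lb.r r1607 (@Lb.r r97 (@Lb.r r2436 (@Lb.d (nat_lit 154) (nat_lit 9) (nat_lit 392) (@Lb.fp (nat_lit 9) t2108)))))))))))
noncomputable def l15276 : Lb := (@Lb.d (nat_lit 2) (nat_lit 4) (nat_lit 128) (@Lb.g g8 (@Lb.g g9 (@Lb.g g10 (@Lb.g g11 (@Lb.r r610 (@Lb.r r1607 (@Lb.r r97 (@Lb.r r2436 (@Lb.d (nat_lit 145) (nat_lit 10) (nat_lit 392) (@Lb.fp (nat_lit 9) t1667)))))))))))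
noncomputable def l15277 : Lb := (@Lb.d (nat_lit 2) (nat_lit 337) (nat_lit 2) (@Lb.g g8 (@Lb.g g5 (@Lb.g g10 (@Lb.r r2435 (@Lb.r r386 (@Lb.r r2584 (@Lb.d (nat_lit 645) (nat_lit 162) (nat_lit 613) (@Lb.t (@Lb.fp (nat_lit 9) t996))))))))))
noncomputable def l15278 : Lb := (@Lb.r r331 (@Lb.d (nat_lit 514) (nat_lit 258) (nat_lit 1) (@Lb.g g8 (@Lb.g g9 (@Lb.g g6 (@Lb.r r1411 (@Lb.r r97 (@Lb.d (nat_lit 9) (nat_lit 137) (nat_lit 66) (@Lb.t (@Lb.fm (nat_lit 9) t3177))))))))))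
noncomputable def l15279 : Lb := (@Lb.d (nat_lit 0) (nat_lit 264) (nat_lit 2) (@Lb.g g10 (@Lb.r r2196 (@Lb.r r89 (@Lb.r r2150 (@Lb.d (nat_lit 280) (nat_lit 137) (nat_lit 34) (@Lb.t (@Lb.fp (nat_lit 3) t3178))))))))
noncomputable def l15280 : Lb := (@Lb.d (nat_lit 0) (nat_lit 0) (nat_lit 2) (@Lb.g g9 (@Lb.g g10 (@Lb.r r1411 (@Lb.r r98 (@Lb.r r101 (@Lb.r r24 (@Lb.d (nat_lit 514) (nat_lit 0) (nat_lit 0) (@Lb.fm (nat_lit 3) t145)))))))))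
noncomputable def l15281 : Lb := (@Lb.d (nat_lit 0) (nat_lit 520) (nat_lit 2) (@Lb.g g10 (@Lb.r r1427 (@Lb.r r101 (@Lb.r r24 (@Lb.d (nat_lit 512) (nat_lit 5) (nat_lit 0) (@Lb.t (@Lb.fp (nat_lit 3) t145))))))))
noncomputable def l15282 : Lb := (@Lb.r r273 (@Lb.d (nat_lit 2) (nat_lit 296) (nat_lit 578) (@Lb.g g8 (@Lb.g g10 (@Lb.g g7 (@Lb.r r2581 (@Lb.r r1364 (@Lb.r r2650 (@Lb.d (nat_lit 608) (nat_lit 34) (nat_lit 258) (@Lb.t (@Lb.fp (nat_lit 9) t1436)))))))))))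
noncomputable def l15283 : Lb := (@Lb.d (nat_lit 386) (nat_lit 64) (nat_lit 640) (@Lb.r r2341 (@Lb.r r1624 (@Lb.r r2470 (@Lb.g g11 (@Lb.g g6 (@Lb.d (nat_lit 0) (nat_lit 0) (nat_lit 1) (@Lb.fm (nat_lit 3) t3077))))))))
noncomputable def l15284 : Lb := (@Lb.d (nat_lit 384) (nat_lit 320) (nat_lit 640) (@Lb.r r2341 (@Lb.r r1624 (@Lb.r r2406 (@Lb.g g11 (@Lb.g g5 (@Lb.d (nat_lit 0) (nat_lit 4) (nat_lit 128) (@Lb.r r98 (@Lb.fp (nat_lit 3) t634)))))))))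
noncomputable def l15285 : Lb := (@Lb.d (nat_lit 0) (nat_lit 545) (nat_lit 532) (@Lb.r r24 (@Lb.r r82 (@Lb.r r2371 (@Lb.g g7 (@Lb.g g6 (@Lb.g g5 (@Lb.d (nat_lit 4) (nat_lit 1) (nat_lit 70) (@Lb.t (@Lb.fm (nat_lit 9) t2866))))))))))
noncomputable def l15286 : Lb := (@Lb.d (nat_lit 330) (nat_lit 661) (nat_lit 532) (@Lb.r r1444 (@Lb.r r2665 (@Lb.r r2651 (@Lb.g g7 (@Lb.g g10 (@Lb.g g4 (@Lb.d (nat_lit 18) (nat_lit 0) (nat_lit 66) (@Lb.r r25 (@Lb.t (@Lb.fm (nat_lit 9) t825)))))))))))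
noncomputable def l15287 : Lb := (@Lb.d (nat_lit 0) (nat_lit 40) (nat_lit 534) (@Lb.r r24 (@Lb.r r82 (@Lb.r r2371 (@Lb.g g7 (@Lb.g g6 (@Lb.g g5 (@Lb.d (nat_lit 4) (nat_lit 1) (nat_lit 70) (@Lb.t (@Lb.fm (nat_lit 9) t3179))))))))))
noncomputable def l15288 : Lb := (@Lb.d (nat_lit 8) (nat_lit 514) (nat_lit 130) (@Lb.g g9 (@Lb.g g10 (@Lb.g g11 (@Lb.r r586 (@Lb.r r584 (@Lb.r r299 (@Lb.r r409 (@Lb.d (nat_lit 9) (nat_lit 66) (nat_lit 16) (@Lb.t (@Lb.fp (nat_lit 9) t1022)))))))))))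
noncomputable def l15289 : Lb := (@Lb.d (nat_lit 0) (nat_lit 646) (nat_lit 33) (@Lb.r r24 (@Lb.r r402 (@Lb.r r323 (@Lb.g g7 (@Lb.g g6 (@Lb.g g5 (@Lb.d (nat_lit 4) (nat_lit 1) (nat_lit 128) (@Lb.t (@Lb.fp (nat_lit 9) t524))))))))))
noncomputable def l15290 : Lb := (@Lb.d (nat_lit 33) (nat_lit 258) (nat_lit 130) (@Lb.g g8 (@Lb.g g9 (@Lb.g g10 (@Lb.g g11 (@Lb.r r676 (@Lb.r r263 (@Lb.r r2210 (@Lb.r r145 (@Lb.r r516 (@Lb.d (nat_lit 2) (nat_lit 66) (nat_lit 666) (@Lb.fm (nat_lit 9) t925))))))))))))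
noncomputable def l15291 : Lb := (@Lb.d (nat_lit 0) (nat_lit 264) (nat_lit 130) (@Lb.g g10 (@Lb.g g11 (@Lb.r r1419 (@Lb.d (nat_lit 97) (nat_lit 2) (nat_lit 596) (@Lb.fm (nat_lit 3) t899))))))
noncomputable def l15292 : Lb := (@Lb.d (nat_lit 2) (nat_lit 130) (nat_lit 73) (@Lb.g g8 (@Lb.g g9 (@Lb.g g10 (@Lb.g g11 (@Lb.r r1451 (@Lb.r r1444 (@Lb.r r1126 (@Lb.d (nat_lit 280) (nat_lit 130) (nat_lit 137) (@Lb.fp (nat_lit 9) t455))))))))))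
noncomputable def l15293 : Lb := (@Lb.d (nat_lit 66) (nat_lit 169) (nat_lit 258) (@Lb.r r386 (@Lb.r r531 (@Lb.r r277 (@Lb.g g7 (@Lb.g g5 (@Lb.g g4 (@Lb.d (nat_lit 1) (nat_lit 17) (nat_lit 128) (@Lb.r r98 (@Lb.t (@Lb.fp (nat_lit 9) t3180)))))))))))
noncomputable def l15294 : Lb := (@Lb.d (nat_lit 274) (nat_lit 612) (nat_lit 329) (@Lb.r r81 (@Lb.r r2466 (@Lb.r r425 (@Lb.r r343 (@Lb.g g7 (@Lb.g g6 (@Lb.g g5 (@Lb.g g4 (@Lb.d (nat_lit 1) (nat_lit 1) (nat_lit 134) (@Lb.fp (nat_lit 9) t704)))))))))))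
noncomputable def l15295 : Lb := (@Lb.r r82 (@Lb.d (nat_lit 0) (nat_lit 384) (nat_lit 128) (@Lb.g g9 (@Lb.g g11 (@Lb.r r419 (@Lb.r r386 (@Lb.d (nat_lit 0) (nat_lit 26) (nat_lit 266) (@Lb.fp (nat_lit 3) t3181))))))))
noncomputable def l15296 : Lb := (@Lb.r r82 (@Lb.d (nat_lit 0) (nat_lit 640) (nat_lit 128) (@Lb.g g9 (@Lb.g g11 (@Lb.r r419 (@Lb.r r386 (@Lb.d (nat_lit 0) (nat_lit 21) (nat_lit 265) (@Lb.fp (nat_lit 3) t3181))))))))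
noncomputable def l15297 : Lb := (@Lb.r r82 (@Lb.r r275 (@Lb.g g9 (@Lb.r r2449 (@Lb.r r291 (@Lb.r r386 (@Lb.d (nat_lit 0) (nat_lit 10) (nat_lit 290) (@Lb.t (@Lb.fm (nat_lit 3) t3181)))))))))
noncomputable def l15298 : Lb := (@Lb.d (nat_lit 128) (nat_lit 130) (nat_lit 73) (@Lb.g g9 (@Lb.g g10 (@Lb.g g11 (@Lb.r r260 (@Lb.r r523 (@Lb.r r1126 (@Lb.d (nat_lit 344) (nat_lit 130) (nat_lit 6) (@Lb.t (@Lb.fp (nat_lit 9) t3182))))))))))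
noncomputable def l15299 : Lb := (@Lb.d (nat_lit 0) (nat_lit 290) (nat_lit 0) (@Lb.g g9 (@Lb.r r275 (@Lb.r r2178 (@Lb.r r2593 (@Lb.r r8 (@Lb.d (nat_lit 290) (nat_lit 16) (nat_lit 34) (@Lb.t (@Lb.fm (nat_lit 3) t3183)))))))))
noncomputable def l15300 : Lb := (@Lb.d (nat_lit 8) (nat_lit 513) (nat_lit 2) (@Lb.g g8 (@Lb.g g9 (@Lb.g g10 (@Lb.g g11 (@Lb.r r427 (@Lb.r r145 (@Lb.r r356 (@Lb.r r154 (@Lb.r r132 (@Lb.d (nat_lit 9) (nat_lit 9) (nat_lit 153) (@Lb.fm (nat_lit 9) t221))))))))))))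
noncomputable def l15301 : Lb := (@Lb.d (nat_lit 0) (nat_lit 5) (nat_lit 0) (@Lb.g g5 (@Lb.d (nat_lit 292) (nat_lit 1) (nat_lit 96) (@Lb.t (@Lb.fm (nat_lit 3) t743)))))
noncomputable def l15302 : Lb := (@Lb.d (nat_lit 0) (nat_lit 512) (nat_lit 128) (@Lb.g g11 (@Lb.r r337 (@Lb.r r679 (@Lb.r r340 (@Lb.r r170 (@Lb.r r153 (@Lb.d (nat_lit 2) (nat_lit 90) (nat_lit 290) (@Lb.t (@Lb.fp (nat_lit 3) t654))))))))))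
noncomputable def l15303 : Lb := (@Lb.d (nat_lit 266) (nat_lit 258) (nat_lit 96) (@Lb.r r134 (@Lb.r r328 (@Lb.r r407 (@Lb.r r609 (@Lb.g g11 (@Lb.t (@Lb.fm (nat_lit 3) t334))))))))
noncomputable def l15304 : Lb := (@Lb.d (nat_lit 0) (nat_lit 256) (nat_lit 128) (@Lb.g g11 (@Lb.r r337 (@Lb.r r679 (@Lb.r r340 (@Lb.r r170 (@Lb.r r153 (@Lb.d (nat_lit 2) (nat_lit 80) (nat_lit 288) (@Lb.t (@Lb.fp (nat_lit 3) t210))))))))))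
noncomputable def l15305 : Lb := (@Lb.d (nat_lit 128) (nat_lit 16) (nat_lit 578) (@Lb.g g10 (@Lb.g g7 (@Lb.r r386 (@Lb.r r24 (@Lb.d (nat_lit 256) (nat_lit 69) (nat_lit 10) (@Lb.fp (nat_lit 3) t1941)))))))
noncomputable def l15306 : Lb := (@Lb.d (nat_lit 288) (nat_lit 4) (nat_lit 96) (@Lb.r r337 (@Lb.r r679 (@Lb.r r344 (@Lb.r r166 (@Lb.r r149 (@Lb.g g4 (@Lb.t (@Lb.fp (nat_lit 3) t210)))))))))
noncomputable def l15307 : Lb := (@Lb.d (nat_lit 0) (nat_lit 578) (nat_lit 2) (@Lb.g g4 (@Lb.g g9 (@Lb.g g10 (@Lb.g g11 (@Lb.r r419 (@Lb.r r98 (@Lb.d (nat_lit 1) (nat_lit 9) (nat_lit 137) (@Lb.fm (nat_lit 9) t51)))))))))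
noncomputable def l15308 : Lb := (@Lb.d (nat_lit 146) (nat_lit 2) (nat_lit 74) (@Lb.g g8 (@Lb.g g9 (@Lb.g g10 (@Lb.g g11 (@Lb.r r683 (@Lb.r r2410 (@Lb.r r1561 (@Lb.r r1540 (@Lb.d (nat_lit 393) (nat_lit 90) (nat_lit 128) (@Lb.fm (nat_lit 9) t2228)))))))))))
noncomputable def l15309 : Lb := (@Lb.r r82 (@Lb.d (nat_lit 0) (nat_lit 2) (nat_lit 128) (@Lb.g g8 (@Lb.g g9 (@Lb.g g11 (@Lb.r r1315 (@Lb.r r613 (@Lb.r r146 (@Lb.r r1608 (@Lb.d (nat_lit 521) (nat_lit 2) (nat_lit 160) (@Lb.t (@Lb.fp (nat_lit 9) t3184))))))))))))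
noncomputable def l15310 : Lb := (@Lb.r r82 (@Lb.d (nat_lit 129) (nat_lit 545) (nat_lit 64) (@Lb.g g8 (@Lb.g g9 (@Lb.g g11 (@Lb.r r1559 (@Lb.r r578 (@Lb.r r553 (@Lb.r r532 (@Lb.d (nat_lit 129) (nat_lit 66) (nat_lit 512) (@Lb.t (@Lb.fm (nat_lit 9) t3185))))))))))))
noncomputable def l15311 : Lb := (@Lb.d (nat_lit 152) (nat_lit 513) (nat_lit 74) (@Lb.g g8 (@Lb.g g9 (@Lb.g g10 (@Lb.g g11 (@Lb.r r423 (@Lb.r r1681 (@Lb.r r1432 (@Lb.r r2202 (@Lb.d (nat_lit 169) (nat_lit 69) (nat_lit 81) (@Lb.fp (nat_lit 9) t2593)))))))))))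
noncomputable def l15312 : Lb := (@Lb.d (nat_lit 128) (nat_lit 520) (nat_lit 130) (@Lb.g g10 (@Lb.g g11 (@Lb.r r264 (@Lb.r r519 (@Lb.r r101 (@Lb.r r154 (@Lb.d (nat_lit 282) (nat_lit 2) (nat_lit 586) (@Lb.fm (nat_lit 3) t1021)))))))))
noncomputable def l15313 : Lb := (@Lb.d (nat_lit 256) (nat_lit 660) (nat_lit 596) (@Lb.r r24 (@Lb.r r1433 (@Lb.r r2471 (@Lb.g g10 (@Lb.g g5 (@Lb.d (nat_lit 32) (nat_lit 4) (nat_lit 6) (@Lb.r r387 (@Lb.fm (nat_lit 3) t3186)))))))))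
noncomputable def l15314 : Lb := (@Lb.r r327 (@Lb.d (nat_lit 0) (nat_lit 265) (nat_lit 2) (@Lb.g g8 (@Lb.g g9 (@Lb.g g10 (@Lb.r r683 (@Lb.r r1194 (@Lb.r r2201 (@Lb.r r2180 (@Lb.d (nat_lit 554) (nat_lit 65) (nat_lit 34) (@Lb.t (@Lb.fm (nat_lit 9) t3187))))))))))))
noncomputable def l15315 : Lb := (@Lb.d (nat_lit 2) (nat_lit 0) (nat_lit 130) (@Lb.g g8 (@Lb.g g10 (@Lb.g g11 (@Lb.r r1579 (@Lb.r r1641 (@Lb.r r2454 (@Lb.r r1608 (@Lb.d (nat_lit 105) (nat_lit 1) (nat_lit 537) (@Lb.t (@Lb.fm (nat_lit 9) t1165)))))))))))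
noncomputable def l15316 : Lb := (@Lb.d (nat_lit 2) (nat_lit 256) (nat_lit 128) (@Lb.g g8 (@Lb.g g10 (@Lb.g g11 (@Lb.r r1579 (@Lb.r r2453 (@Lb.r r2390 (@Lb.r r1608 (@Lb.d (nat_lit 73) (nat_lit 2) (nat_lit 538) (@Lb.t (@Lb.fm (nat_lit 9) t3188)))))))))))
noncomputable def l15317 : Lb := (@Lb.d (nat_lit 146) (nat_lit 26) (nat_lit 130) (@Lb.g g8 (@Lb.g g9 (@Lb.g g10 (@Lb.g g11 (@Lb.r r1415 (@Lb.r r584 (@Lb.r r422 (@Lb.r r1441 (@Lb.r r36 (@Lb.d (nat_lit 258) (nat_lit 85) (nat_lit 586) (@Lb.fm (nat_lit 9) t997))))))))))))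
noncomputable def l15318 : Lb := (@Lb.d (nat_lit 2) (nat_lit 256) (nat_lit 64) (@Lb.g g8 (@Lb.g g11 (@Lb.r r101 (@Lb.r r658 (@Lb.r r387 (@Lb.d (nat_lit 64) (nat_lit 5) (nat_lit 70) (@Lb.fm (nat_lit 3) t242))))))))
noncomputable def l15319 : Lb := (@Lb.d (nat_lit 132) (nat_lit 0) (nat_lit 130) (@Lb.g g8 (@Lb.g g9 (@Lb.g g10 (@Lb.g g11 (@Lb.r r2327 (@Lb.r r2217 (@Lb.r r424 (@Lb.r r2122 (@Lb.d (nat_lit 17) (nat_lit 100) (nat_lit 72) (@Lb.fp (nat_lit 9) t3189)))))))))))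
noncomputable def l15320 : Lb := (@Lb.d (nat_lit 5) (nat_lit 514) (nat_lit 64) (@Lb.g g4 (@Lb.g g9 (@Lb.g g11 (@Lb.r r273 (@Lb.r r2727 (@Lb.r r134 (@Lb.r r2577 (@Lb.d (nat_lit 614) (nat_lit 8) (nat_lit 392) (@Lb.t (@Lb.fp (nat_lit 9) t61)))))))))))
noncomputable def l15321 : Lb := (@Lb.d (nat_lit 69) (nat_lit 0) (nat_lit 2) (@Lb.g g8 (@Lb.g g9 (@Lb.g g10 (@Lb.g g11 (@Lb.r r2327 (@Lb.r r1634 (@Lb.r r1553 (@Lb.r r1620 (@Lb.d (nat_lit 4) (nat_lit 16) (nat_lit 641) (@Lb.fp (nat_lit 9) t47)))))))))))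
noncomputable def l15322 : Lb := (@Lb.d (nat_lit 69) (nat_lit 256) (nat_lit 2) (@Lb.g g8 (@Lb.g g9 (@Lb.g g10 (@Lb.g g11 (@Lb.r r2327 (@Lb.r r1634 (@Lb.r r1553 (@Lb.r r1620 (@Lb.d (nat_lit 9) (nat_lit 22) (nat_lit 642) (@Lb.fp (nat_lit 9) t1783)))))))))))
noncomputable def l15323 : Lb := (@Lb.d (nat_lit 0) (nat_lit 256) (nat_lit 73) (@Lb.g g10 (@Lb.g g11 (@Lb.r r2691 (@Lb.r r2658 (@Lb.d (nat_lit 0) (nat_lit 37) (nat_lit 297) (@Lb.fp (nat_lit 3) t71)))))))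
noncomputable def l15324 : Lb := (@Lb.r r323 (@Lb.d (nat_lit 2) (nat_lit 265) (nat_lit 1) (@Lb.g g8 (@Lb.g g9 (@Lb.g g10 (@Lb.r r1323 (@Lb.r r1441 (@Lb.r r422 (@Lb.r r24 (@Lb.d (nat_lit 133) (nat_lit 137) (nat_lit 84) (@Lb.t (@Lb.fp (nat_lit 9) t74))))))))))))
noncomputable def l15325 : Lb := (@Lb.d (nat_lit 69) (nat_lit 512) (nat_lit 2) (@Lb.g g8 (@Lb.g g9 (@Lb.g g10 (@Lb.g g11 (@Lb.r r2327 (@Lb.r r1634 (@Lb.r r1553 (@Lb.r r1620 (@Lb.d (nat_lit 4) (nat_lit 21) (nat_lit 642) (@Lb.fp (nat_lit 9) t47)))))))))))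
noncomputable def l15326 : Lb := (@Lb.d (nat_lit 2) (nat_lit 512) (nat_lit 0) (@Lb.g g8 (@Lb.r r289 (@Lb.r r535 (@Lb.r r328 (@Lb.r r614 (@Lb.d (nat_lit 0) (nat_lit 165) (nat_lit 68) (@Lb.t (@Lb.fm (nat_lit 3) t3110)))))))))
noncomputable def l15327 : Lb := (@Lb.d (nat_lit 674) (nat_lit 533) (nat_lit 32) (@Lb.r r1284 (@Lb.r r2405 (@Lb.r r1435 (@Lb.r r356 (@Lb.g g7 (@Lb.g g10 (@Lb.g g5 (@Lb.g g4 (@Lb.d (nat_lit 145) (nat_lit 18) (nat_lit 130) (@Lb.fp (nat_lit 9) t240)))))))))))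
noncomputable def l15328 : Lb := (@Lb.d (nat_lit 2) (nat_lit 258) (nat_lit 128) (@Lb.g g8 (@Lb.g g9 (@Lb.g g10 (@Lb.g g11 (@Lb.r r657 (@Lb.r r100 (@Lb.r r666 (@Lb.r r387 (@Lb.r r132 (@Lb.d (nat_lit 98) (nat_lit 0) (nat_lit 68) (@Lb.fm (nat_lit 9) t1097))))))))))))
noncomputable def l15329 : Lb := (@Lb.d (nat_lit 256) (nat_lit 257) (nat_lit 0) (@Lb.r r2138 (@Lb.r r2331 (@Lb.g g5 (@Lb.d (nat_lit 4) (nat_lit 1) (nat_lit 0) (@Lb.t (@Lb.fm (nat_lit 3) t116)))))))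
noncomputable def l15330 : Lb := (@Lb.d (nat_lit 282) (nat_lit 256) (nat_lit 0) (@Lb.g g8 (@Lb.d (nat_lit 10) (nat_lit 130) (nat_lit 16) (@Lb.t (@Lb.fp (nat_lit 3) t2893)))))
noncomputable def l15331 : Lb := (@Lb.d (nat_lit 656) (nat_lit 72) (nat_lit 273) (@Lb.r r2136 (@Lb.r r1189 (@Lb.r r2146 (@Lb.g g5 (@Lb.g g4 (@Lb.d (nat_lit 17) (nat_lit 1) (nat_lit 0) (@Lb.fm (nat_lit 3) t225))))))))
noncomputable def l15332 : Lb := (@Lb.d (nat_lit 24) (nat_lit 282) (nat_lit 346) (@Lb.r r662 (@Lb.r r2401 (@Lb.r r647 (@Lb.r r328 (@Lb.g g7 (@Lb.g g6 (@Lb.d (nat_lit 16) (nat_lit 0) (nat_lit 128) (@Lb.fm (nat_lit 3) t3190)))))))))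
noncomputable def l15333 : Lb := (@Lb.d (nat_lit 153) (nat_lit 257) (nat_lit 128) (@Lb.g g8 (@Lb.g g9 (@Lb.g g10 (@Lb.g g11 (@Lb.r r292 (@Lb.r r651 (@Lb.r r2210 (@Lb.r r145 (@Lb.r r516 (@Lb.d (nat_lit 520) (nat_lit 6) (nat_lit 664) (@Lb.fp (nat_lit 9) t152))))))))))))
noncomputable def l15334 : Lb := (@Lb.d (nat_lit 153) (nat_lit 1) (nat_lit 64) (@Lb.g g8 (@Lb.g g9 (@Lb.g g10 (@Lb.g g11 (@Lb.r r676 (@Lb.r r263 (@Lb.r r2210 (@Lb.r r145 (@Lb.r r1540 (@Lb.d (nat_lit 258) (nat_lit 68) (nat_lit 664) (@Lb.fm (nat_lit 9) t1948))))))))))))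
noncomputable def l15335 : Lb := (@Lb.d (nat_lit 153) (nat_lit 257) (nat_lit 128) (@Lb.g g8 (@Lb.g g9 (@Lb.g g10 (@Lb.g g11 (@Lb.r r676 (@Lb.r r263 (@Lb.r r2210 (@Lb.r r145 (@Lb.r r1540 (@Lb.d (nat_lit 256) (nat_lit 68) (nat_lit 664) (@Lb.fm (nat_lit 9) t3191))))))))))))
noncomputable def l15336 : Lb := (@Lb.d (nat_lit 0) (nat_lit 546) (nat_lit 0) (@Lb.g g9 (@Lb.r r1303 (@Lb.r r2178 (@Lb.r r2600 (@Lb.r r2665 (@Lb.d (nat_lit 90) (nat_lit 86) (nat_lit 40) (@Lb.t (@Lb.fm (nat_lit 3) t1805)))))))))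
noncomputable def l15337 : Lb := (@Lb.d (nat_lit 153) (nat_lit 2) (nat_lit 132) (@Lb.g g8 (@Lb.g g9 (@Lb.g g10 (@Lb.g g11 (@Lb.r r1543 (@Lb.r r420 (@Lb.r r2150 (@Lb.r r21 (@Lb.r r2084 (@Lb.d (nat_lit 0) (nat_lit 9) (nat_lit 392) (@Lb.fm (nat_lit 9) t1952))))))))))))
noncomputable def l15338 : Lb := (@Lb.d (nat_lit 24) (nat_lit 258) (nat_lit 145) (@Lb.g g9 (@Lb.g g6 (@Lb.g g11 (@Lb.r r1611 (@Lb.d (nat_lit 97) (nat_lit 0) (nat_lit 544) (@Lb.t (@Lb.fm (nat_lit 9) t282))))))))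
noncomputable def l15339 : Lb := (@Lb.d (nat_lit 393) (nat_lit 642) (nat_lit 256) (@Lb.r r24 (@Lb.r r2138 (@Lb.g g9 (@Lb.d (nat_lit 8) (nat_lit 2) (nat_lit 0) (@Lb.t (@Lb.fm (nat_lit 3) t225)))))))
noncomputable def l15340 : Lb := (@Lb.d (nat_lit 165) (nat_lit 597) (nat_lit 649) (@Lb.r r2650 (@Lb.r r2632 (@Lb.r r2645 (@Lb.r r2439 (@Lb.g g7 (@Lb.g g6 (@Lb.d (nat_lit 16) (nat_lit 0) (nat_lit 74) (@Lb.fp (nat_lit 3) t2402)))))))))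
noncomputable def l15341 : Lb := (@Lb.d (nat_lit 34) (nat_lit 1) (nat_lit 98) (@Lb.r r134 (@Lb.r r328 (@Lb.r r535 (@Lb.g g5 (@Lb.g g4 (@Lb.d (nat_lit 1) (nat_lit 25) (nat_lit 0) (@Lb.fp (nat_lit 3) t546))))))))
noncomputable def l15342 : Lb := (@Lb.d (nat_lit 34) (nat_lit 264) (nat_lit 166) (@Lb.r r70 (@Lb.r r392 (@Lb.r r599 (@Lb.g g6 (@Lb.g g5 (@Lb.g g4 (@Lb.d (nat_lit 2) (nat_lit 17) (nat_lit 1) (@Lb.r r387 (@Lb.t (@Lb.fp (nat_lit 9) t242)))))))))))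
noncomputable def l15343 : Lb := (@Lb.d (nat_lit 33) (nat_lit 0) (nat_lit 73) (@Lb.r r154 (@Lb.r r404 (@Lb.r r363 (@Lb.r r353 (@Lb.g g7 (@Lb.g g6 (@Lb.g g4 (@Lb.d (nat_lit 4) (nat_lit 4) (nat_lit 65) (@Lb.t (@Lb.fp (nat_lit 9) t51)))))))))))
noncomputable def l15344 : Lb := (@Lb.d (nat_lit 1) (nat_lit 521) (nat_lit 129) (@Lb.g g4 (@Lb.g g9 (@Lb.g g10 (@Lb.g g11 (@Lb.r r1443 (@Lb.r r386 (@Lb.r r97 (@Lb.d (nat_lit 9) (nat_lit 89) (nat_lit 324) (@Lb.fm (nat_lit 9) t3192))))))))))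
noncomputable def l15345 : Lb := (@Lb.d (nat_lit 128) (nat_lit 16) (nat_lit 386) (@Lb.g g10 (@Lb.g g11 (@Lb.r r2709 (@Lb.r r2646 (@Lb.r r1416 (@Lb.d (nat_lit 512) (nat_lit 4) (nat_lit 128) (@Lb.fp (nat_lit 3) t528))))))))
noncomputable def l15346 : Lb := (@Lb.d (nat_lit 326) (nat_lit 598) (nat_lit 102) (@Lb.r r2648 (@Lb.r r2438 (@Lb.r r1563 (@Lb.g g7 (@Lb.g g9 (@Lb.g g4 (@Lb.d (nat_lit 89) (nat_lit 10) (nat_lit 128) (@Lb.r r74 (@Lb.t (@Lb.fp (nat_lit 9) t3193)))))))))))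
noncomputable def l15347 : Lb := (@Lb.d (nat_lit 128) (nat_lit 272) (nat_lit 386) (@Lb.g g10 (@Lb.g g11 (@Lb.r r2709 (@Lb.r r2646 (@Lb.r r1416 (@Lb.d (nat_lit 512) (nat_lit 2) (nat_lit 130) (@Lb.fp (nat_lit 3) t441))))))))
noncomputable def l15348 : Lb := (@Lb.d (nat_lit 2) (nat_lit 98) (nat_lit 0) (@Lb.r r68 (@Lb.r r289 (@Lb.r r106 (@Lb.r r584 (@Lb.g g7 (@Lb.g g10 (@Lb.g g4 (@Lb.t (@Lb.fm (nat_lit 9) t261))))))))))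
noncomputable def l15349 : Lb := (@Lb.d (nat_lit 273) (nat_lit 265) (nat_lit 342) (@Lb.r r388 (@Lb.r r2406 (@Lb.r r1643 (@Lb.g g7 (@Lb.g g9 (@Lb.g g4 (@Lb.d (nat_lit 72) (nat_lit 10) (nat_lit 128) (@Lb.r r74 (@Lb.t (@Lb.fp (nat_lit 9) t3193)))))))))))
noncomputable def l15350 : Lb := (@Lb.r r323 (@Lb.d (nat_lit 0) (nat_lit 2) (nat_lit 2) (@Lb.g g8 (@Lb.g g9 (@Lb.g g10 (@Lb.r r401 (@Lb.r r299 (@Lb.r r392 (@Lb.r r74 (@Lb.d (nat_lit 38) (nat_lit 8) (nat_lit 17) (@Lb.t (@Lb.fp (nat_lit 9) t221))))))))))))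
noncomputable def l15351 : Lb := (@Lb.d (nat_lit 528) (nat_lit 289) (nat_lit 0) (@Lb.g g8 (@Lb.g g9 (@Lb.r r339 (@Lb.r r2178 (@Lb.r r609 (@Lb.d (nat_lit 530) (nat_lit 26) (nat_lit 582) (@Lb.fm (nat_lit 3) t229))))))))
noncomputable def l15352 : Lb := (@Lb.g g8 (@Lb.g g5 (@Lb.r r24 (@Lb.r r2069 (@Lb.r r36 (@Lb.fm (nat_lit 3) t2))))))
noncomputable def l15353 : Lb := (@Lb.d (nat_lit 1) (nat_lit 66) (nat_lit 0) (@Lb.g g9 (@Lb.t (@Lb.fp (nat_lit 3) t2))))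
noncomputable def l15354 : Lb := (@Lb.d (nat_lit 338) (nat_lit 134) (nat_lit 338) (@Lb.r r2312 (@Lb.r r1106 (@Lb.r r1623 (@Lb.g g6 (@Lb.g g5 (@Lb.g g4 (@Lb.d (nat_lit 65) (nat_lit 134) (nat_lit 2) (@Lb.r r387 (@Lb.t (@Lb.fp (nat_lit 9) t98)))))))))))
noncomputable def l15355 : Lb := (@Lb.d (nat_lit 0) (nat_lit 258) (nat_lit 130) (@Lb.g g8 (@Lb.g g9 (@Lb.g g10 (@Lb.g g11 (@Lb.r r427 (@Lb.r r145 (@Lb.r r356 (@Lb.r r154 (@Lb.r r132 (@Lb.d (nat_lit 9) (nat_lit 2) (nat_lit 16) (@Lb.fm (nat_lit 9) t221))))))))))))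
noncomputable def l15356 : Lb := (@Lb.d (nat_lit 338) (nat_lit 390) (nat_lit 281) (@Lb.r r2312 (@Lb.r r1106 (@Lb.r r1623 (@Lb.g g6 (@Lb.g g5 (@Lb.g g4 (@Lb.d (nat_lit 65) (nat_lit 134) (nat_lit 2) (@Lb.r r387 (@Lb.t (@Lb.fp (nat_lit 9) t98)))))))))))
noncomputable def l15357 : Lb := (@Lb.d (nat_lit 0) (nat_lit 522) (nat_lit 0) (@Lb.g g8 (@Lb.g g9 (@Lb.r r2403 (@Lb.r r594 (@Lb.r r2449 (@Lb.d (nat_lit 0) (nat_lit 154) (nat_lit 394) (@Lb.fm (nat_lit 3) t386))))))))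
noncomputable def l15358 : Lb := (@Lb.d (nat_lit 16) (nat_lit 521) (nat_lit 130) (@Lb.g g8 (@Lb.g g9 (@Lb.g g10 (@Lb.g g11 (@Lb.r r1667 (@Lb.r r1321 (@Lb.r r360 (@Lb.r r1606 (@Lb.r r132 (@Lb.d (nat_lit 386) (nat_lit 138) (nat_lit 601) (@Lb.fm (nat_lit 9) t1161))))))))))))
noncomputable def l15359 : Lb := (@Lb.d (nat_lit 0) (nat_lit 272) (nat_lit 585) (@Lb.g g9 (@Lb.g g10 (@Lb.g g7 (@Lb.r r386 (@Lb.r r1121 (@Lb.r r24 (@Lb.d (nat_lit 10) (nat_lit 137) (nat_lit 25) (@Lb.t (@Lb.fm (nat_lit 9) t41))))))))))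
noncomputable def l15360 : Lb := (@Lb.d (nat_lit 2) (nat_lit 258) (nat_lit 2) (@Lb.g g8 (@Lb.g g9 (@Lb.g g10 (@Lb.r r1689 (@Lb.r r2579 (@Lb.r r386 (@Lb.d (nat_lit 294) (nat_lit 160) (nat_lit 292) (@Lb.t (@Lb.fm (nat_lit 9) t1961))))))))))
noncomputable def l15361 : Lb := (@Lb.r r82 (@Lb.d (nat_lit 0) (nat_lit 545) (nat_lit 72) (@Lb.g g9 (@Lb.g g11 (@Lb.r r1625 (@Lb.r r98 (@Lb.d (nat_lit 401) (nat_lit 152) (nat_lit 356) (@Lb.fm (nat_lit 3) t3194))))))))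
noncomputable def l15362 : Lb := (@Lb.d (nat_lit 0) (nat_lit 0) (nat_lit 2) (@Lb.g g10 (@Lb.g g7 (@Lb.r r2470 (@Lb.r r1624 (@Lb.r r2341 (@Lb.d (nat_lit 577) (nat_lit 128) (nat_lit 320) (@Lb.fm (nat_lit 3) t1756))))))))
noncomputable def l15363 : Lb := (@Lb.d (nat_lit 32) (nat_lit 256) (nat_lit 2) (@Lb.g g6 (@Lb.g g7 (@Lb.r r644 (@Lb.r r166 (@Lb.r r289 (@Lb.d (nat_lit 149) (nat_lit 148) (nat_lit 265) (@Lb.fm (nat_lit 3) t1412))))))))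
noncomputable def l15364 : Lb := (@Lb.r r82 (@Lb.d (nat_lit 2) (nat_lit 545) (nat_lit 64) (@Lb.g g8 (@Lb.g g9 (@Lb.g g11 (@Lb.r r2454 (@Lb.r r2627 (@Lb.r r2457 (@Lb.r r24 (@Lb.d (nat_lit 402) (nat_lit 26) (nat_lit 594) (@Lb.t (@Lb.fp (nat_lit 9) t931))))))))))))
noncomputable def l15365 : Lb := (@Lb.r r82 (@Lb.d (nat_lit 2) (nat_lit 2) (nat_lit 128) (@Lb.g g8 (@Lb.g g9 (@Lb.g g11 (@Lb.r r1307 (@Lb.r r418 (@Lb.r r289 (@Lb.r r24 (@Lb.d (nat_lit 258) (nat_lit 161) (nat_lit 384) (@Lb.t (@Lb.fp (nat_lit 9) t3195))))))))))))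
noncomputable def l15366 : Lb := (@Lb.d (nat_lit 32) (nat_lit 512) (nat_lit 2) (@Lb.g g10 (@Lb.g g7 (@Lb.r r72 (@Lb.r r598 (@Lb.r r289 (@Lb.d (nat_lit 153) (nat_lit 73) (nat_lit 322) (@Lb.fp (nat_lit 3) t1190))))))))
noncomputable def l15367 : Lb := (@Lb.r r82 (@Lb.d (nat_lit 2) (nat_lit 258) (nat_lit 128) (@Lb.g g8 (@Lb.g g9 (@Lb.g g11 (@Lb.r r1307 (@Lb.r r418 (@Lb.r r289 (@Lb.r r24 (@Lb.d (nat_lit 256) (nat_lit 166) (nat_lit 385) (@Lb.t (@Lb.fp (nat_lit 9) t3196))))))))))))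
noncomputable def l15368 : Lb := (@Lb.d (nat_lit 0) (nat_lit 512) (nat_lit 2) (@Lb.g g10 (@Lb.g g7 (@Lb.r r2470 (@Lb.r r1624 (@Lb.r r2341 (@Lb.d (nat_lit 578) (nat_lit 128) (nat_lit 320) (@Lb.fm (nat_lit 3) t1756))))))))
noncomputable def l15369 : Lb := (@Lb.r r82 (@Lb.d (nat_lit 0) (nat_lit 33) (nat_lit 72) (@Lb.g g9 (@Lb.g g11 (@Lb.r r1625 (@Lb.r r98 (@Lb.d (nat_lit 400) (nat_lit 152) (nat_lit 356) (@Lb.fm (nat_lit 3) t3194))))))))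
noncomputable def l15370 : Lb := (@Lb.d (nat_lit 660) (nat_lit 26) (nat_lit 537) (@Lb.r r1685 (@Lb.r r662 (@Lb.r r600 (@Lb.r r347 (@Lb.g g7 (@Lb.g g6 (@Lb.g g5 (@Lb.d (nat_lit 4) (nat_lit 0) (nat_lit 65) (@Lb.t (@Lb.fp (nat_lit 9) t68)))))))))))
noncomputable def l15371 : Lb := (@Lb.r r82 (@Lb.d (nat_lit 0) (nat_lit 514) (nat_lit 128) (@Lb.g g8 (@Lb.g g9 (@Lb.g g11 (@Lb.r r1571 (@Lb.r r1642 (@Lb.r r1633 (@Lb.d (nat_lit 100) (nat_lit 152) (nat_lit 665) (@Lb.t (@Lb.fm (nat_lit 9) t50)))))))))))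
noncomputable def l15372 : Lb := (@Lb.r r82 (@Lb.d (nat_lit 0) (nat_lit 297) (nat_lit 64) (@Lb.g g8 (@Lb.g g9 (@Lb.g g11 (@Lb.r r1635 (@Lb.r r2454 (@Lb.r r1621 (@Lb.d (nat_lit 292) (nat_lit 102) (nat_lit 664) (@Lb.t (@Lb.fm (nat_lit 9) t50)))))))))))
noncomputable def l15373 : Lb := (@Lb.r r1045 (@Lb.d (nat_lit 261) (nat_lit 264) (nat_lit 130) (@Lb.g g4 (@Lb.g g10 (@Lb.g g11 (@Lb.r r387 (@Lb.d (nat_lit 8) (nat_lit 72) (nat_lit 1) (@Lb.t (@Lb.fp (nat_lit 9) t51)))))))))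
noncomputable def l15374 : Lb := (@Lb.r r1045 (@Lb.r r323 (@Lb.d (nat_lit 261) (nat_lit 8) (nat_lit 6) (@Lb.g g4 (@Lb.g g10 (@Lb.r r387 (@Lb.d (nat_lit 8) (nat_lit 37) (nat_lit 384) (@Lb.fp (nat_lit 3) t51))))))))
noncomputable def l15375 : Lb := (@Lb.d (nat_lit 161) (nat_lit 149) (nat_lit 609) (@Lb.r r1685 (@Lb.r r662 (@Lb.r r600 (@Lb.r r347 (@Lb.g g7 (@Lb.g g6 (@Lb.g g5 (@Lb.d (nat_lit 0) (nat_lit 2) (nat_lit 65) (@Lb.t (@Lb.fp (nat_lit 9) t68)))))))))))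
noncomputable def l15376 : Lb := (@Lb.d (nat_lit 257) (nat_lit 325) (nat_lit 422) (@Lb.r r2068 (@Lb.r r1065 (@Lb.r r168 (@Lb.r r2370 (@Lb.g g7 (@Lb.g g6 (@Lb.g g5 (@Lb.g g4 (@Lb.d (nat_lit 32) (nat_lit 1) (nat_lit 69) (@Lb.fp (nat_lit 9) t1025)))))))))))
noncomputable def l15377 : Lb := (@Lb.r r21 (@Lb.d (nat_lit 16) (nat_lit 0) (nat_lit 128) (@Lb.g g8 (@Lb.g g10 (@Lb.g g11 (@Lb.r r395 (@Lb.r r297 (@Lb.r r392 (@Lb.r r602 (@Lb.d (nat_lit 96) (nat_lit 22) (nat_lit 10) (@Lb.t (@Lb.fm (nat_lit 9) t381))))))))))))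
noncomputable def l15378 : Lb := (@Lb.d (nat_lit 1) (nat_lit 5) (nat_lit 74) (@Lb.g g8 (@Lb.g g9 (@Lb.g g10 (@Lb.g g11 (@Lb.r r419 (@Lb.r r578 (@Lb.r r424 (@Lb.r r297 (@Lb.r r2084 (@Lb.d (nat_lit 337) (nat_lit 10) (nat_lit 86) (@Lb.fp (nat_lit 9) t523))))))))))))
noncomputable def l15379 : Lb := (@Lb.d (nat_lit 258) (nat_lit 129) (nat_lit 0) (@Lb.r r20 (@Lb.r r1049 (@Lb.r r1098 (@Lb.g g4 (@Lb.t (@Lb.fm (nat_lit 3) t3197)))))))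
noncomputable def l15380 : Lb := (@Lb.d (nat_lit 646) (nat_lit 406) (nat_lit 169) (@Lb.r r1317 (@Lb.r r2395 (@Lb.r r614 (@Lb.g g7 (@Lb.g g5 (@Lb.g g8 (@Lb.d (nat_lit 2) (nat_lit 0) (nat_lit 64) (@Lb.t (@Lb.fp (nat_lit 9) t1632))))))))))
noncomputable def l15381 : Lb := (@Lb.r r21 (@Lb.d (nat_lit 16) (nat_lit 256) (nat_lit 74) (@Lb.g g8 (@Lb.g g10 (@Lb.g g11 (@Lb.r r1607 (@Lb.r r2698 (@Lb.r r145 (@Lb.r r168 (@Lb.d (nat_lit 678) (nat_lit 162) (nat_lit 262) (@Lb.t (@Lb.fp (nat_lit 9) t31))))))))))))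
noncomputable def l15382 : Lb := (@Lb.d (nat_lit 18) (nat_lit 256) (nat_lit 33) (@Lb.r r68 (@Lb.r r90 (@Lb.r r667 (@Lb.g g9 (@Lb.g g4 (@Lb.d (nat_lit 17) (nat_lit 5) (nat_lit 0) (@Lb.r r291 (@Lb.r r98 (@Lb.fm (nat_lit 3) t61))))))))))
noncomputable def l15383 : Lb := (@Lb.r r323 (@Lb.d (nat_lit 9) (nat_lit 1) (nat_lit 2) (@Lb.g g8 (@Lb.g g9 (@Lb.g g10 (@Lb.r r1623 (@Lb.r r2154 (@Lb.r r104 (@Lb.r r169 (@Lb.d (nat_lit 533) (nat_lit 8) (nat_lit 2) (@Lb.t (@Lb.fp (nat_lit 9) t61))))))))))))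
noncomputable def l15384 : Lb := (@Lb.d (nat_lit 16) (nat_lit 0) (nat_lit 33) (@Lb.r r68 (@Lb.r r90 (@Lb.r r667 (@Lb.g g9 (@Lb.g g4 (@Lb.d (nat_lit 17) (nat_lit 5) (nat_lit 0) (@Lb.r r291 (@Lb.r r98 (@Lb.fm (nat_lit 3) t61))))))))))
noncomputable def l15385 : Lb := (@Lb.r r323 (@Lb.d (nat_lit 32) (nat_lit 260) (nat_lit 0) (@Lb.g g9 (@Lb.g g10 (@Lb.r r1425 (@Lb.r r2339 (@Lb.d (nat_lit 146) (nat_lit 0) (nat_lit 362) (@Lb.fm (nat_lit 3) t1812))))))))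
noncomputable def l15386 : Lb := (@Lb.d (nat_lit 16) (nat_lit 517) (nat_lit 34) (@Lb.r r68 (@Lb.r r90 (@Lb.r r667 (@Lb.g g9 (@Lb.g g4 (@Lb.d (nat_lit 17) (nat_lit 5) (nat_lit 0) (@Lb.r r291 (@Lb.r r98 (@Lb.fm (nat_lit 3) t601))))))))))
noncomputable def l15387 : Lb := (@Lb.d (nat_lit 0) (nat_lit 0) (nat_lit 130) (@Lb.g g4 (@Lb.g g9 (@Lb.g g10 (@Lb.g g11 (@Lb.r r2658 (@Lb.d (nat_lit 1) (nat_lit 164) (nat_lit 682) (@Lb.fm (nat_lit 9) t479))))))))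
noncomputable def l15388 : Lb := (@Lb.d (nat_lit 16) (nat_lit 2) (nat_lit 22) (@Lb.g g9 (@Lb.g g6 (@Lb.r r2084 (@Lb.r r37 (@Lb.d (nat_lit 264) (nat_lit 102) (nat_lit 326) (@Lb.fm (nat_lit 3) t334)))))))
noncomputable def l15389 : Lb := (@Lb.d (nat_lit 658) (nat_lit 258) (nat_lit 5) (@Lb.g g8 (@Lb.g g9 (@Lb.g g10 (@Lb.g g11 (@Lb.r r2347 (@Lb.r r1602 (@Lb.r r25 (@Lb.d (nat_lit 0) (nat_lit 97) (nat_lit 362) (@Lb.fp (nat_lit 9) t842))))))))))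
noncomputable def l15390 : Lb := (@Lb.d (nat_lit 0) (nat_lit 265) (nat_lit 128) (@Lb.g g9 (@Lb.g g11 (@Lb.r r1642 (@Lb.r r2395 (@Lb.r r2392 (@Lb.r r293 (@Lb.d (nat_lit 320) (nat_lit 138) (nat_lit 386) (@Lb.fm (nat_lit 3) t71)))))))))
noncomputable def l15391 : Lb := (@Lb.d (nat_lit 36) (nat_lit 257) (nat_lit 4) (@Lb.g g9 (@Lb.g g10 (@Lb.g g11 (@Lb.r r68 (@Lb.r r2458 (@Lb.r r2387 (@Lb.r r2705 (@Lb.d (nat_lit 97) (nat_lit 82) (nat_lit 64) (@Lb.t (@Lb.fp (nat_lit 9) t71)))))))))))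
noncomputable def l15392 : Lb := (@Lb.d (nat_lit 18) (nat_lit 512) (nat_lit 64) (@Lb.g g8 (@Lb.g g10 (@Lb.g g7 (@Lb.r r1410 (@Lb.r r1128 (@Lb.r r2073 (@Lb.d (nat_lit 0) (nat_lit 10) (nat_lit 297) (@Lb.t (@Lb.fp (nat_lit 9) t42))))))))))
noncomputable def l15393 : Lb := (@Lb.d (nat_lit 0) (nat_lit 521) (nat_lit 128) (@Lb.g g9 (@Lb.g g11 (@Lb.r r1642 (@Lb.r r2395 (@Lb.r r2392 (@Lb.r r293 (@Lb.d (nat_lit 322) (nat_lit 138) (nat_lit 386) (@Lb.fm (nat_lit 3) t71)))))))))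
noncomputable def l15394 : Lb := (@Lb.d (nat_lit 26) (nat_lit 1) (nat_lit 64) (@Lb.g g8 (@Lb.g g9 (@Lb.g g10 (@Lb.g g7 (@Lb.r r2473 (@Lb.r r2468 (@Lb.r r390 (@Lb.d (nat_lit 417) (nat_lit 74) (nat_lit 521) (@Lb.fm (nat_lit 9) t2020))))))))))
noncomputable def l15395 : Lb := (@Lb.d (nat_lit 16) (nat_lit 258) (nat_lit 64) (@Lb.g g8 (@Lb.g g9 (@Lb.g g10 (@Lb.g g7 (@Lb.r r1410 (@Lb.r r1129 (@Lb.r r1096 (@Lb.d (nat_lit 546) (nat_lit 128) (nat_lit 281) (@Lb.fp (nat_lit 9) t42))))))))))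
noncomputable def l15396 : Lb := (@Lb.d (nat_lit 261) (nat_lit 422) (nat_lit 352) (@Lb.r r346 (@Lb.r r1429 (@Lb.r r1387 (@Lb.r r2376 (@Lb.g g7 (@Lb.g g6 (@Lb.g g5 (@Lb.d (nat_lit 20) (nat_lit 0) (nat_lit 65) (@Lb.t (@Lb.fm (nat_lit 9) t284)))))))))))
noncomputable def l15397 : Lb := (@Lb.r r82 (@Lb.d (nat_lit 4) (nat_lit 546) (nat_lit 128) (@Lb.g g8 (@Lb.g g9 (@Lb.g g11 (@Lb.r r555 (@Lb.r r1430 (@Lb.r r2585 (@Lb.d (nat_lit 329) (nat_lit 97) (nat_lit 0) (@Lb.t (@Lb.fm (nat_lit 9) t2001)))))))))))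
noncomputable def l15398 : Lb := (@Lb.d (nat_lit 618) (nat_lit 610) (nat_lit 100) (@Lb.r r1637 (@Lb.r r2324 (@Lb.r r2386 (@Lb.r r683 (@Lb.g g6 (@Lb.g g5 (@Lb.g g4 (@Lb.d (nat_lit 1) (nat_lit 1) (nat_lit 1) (@Lb.t (@Lb.fp (nat_lit 9) t3198)))))))))))
noncomputable def l15399 : Lb := (@Lb.r r21 (@Lb.d (nat_lit 17) (nat_lit 0) (nat_lit 74) (@Lb.g g8 (@Lb.g g10 (@Lb.g g11 (@Lb.r r2731 (@Lb.r r2218 (@Lb.r r2657 (@Lb.r r2408 (@Lb.d (nat_lit 22) (nat_lit 84) (nat_lit 644) (@Lb.t (@Lb.fm (nat_lit 9) t3199))))))))))))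
noncomputable def l15400 : Lb := (@Lb.r r323 (@Lb.d (nat_lit 2) (nat_lit 516) (nat_lit 42) (@Lb.g g8 (@Lb.g g9 (@Lb.g g6 (@Lb.r r387 (@Lb.r r1313 (@Lb.d (nat_lit 2) (nat_lit 98) (nat_lit 16) (@Lb.t (@Lb.fm (nat_lit 9) t388))))))))))
noncomputable def l15401 : Lb := (@Lb.d (nat_lit 548) (nat_lit 577) (nat_lit 70) (@Lb.r r2138 (@Lb.r r2644 (@Lb.r r2391 (@Lb.g g7 (@Lb.g g6 (@Lb.g g5 (@Lb.g g4 (@Lb.d (nat_lit 2) (nat_lit 65) (nat_lit 134) (@Lb.fp (nat_lit 9) t892))))))))))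
noncomputable def l15402 : Lb := (@Lb.d (nat_lit 10) (nat_lit 0) (nat_lit 0) (@Lb.g g4 (@Lb.r r2089 (@Lb.r r1064 (@Lb.d (nat_lit 553) (nat_lit 65) (nat_lit 34) (@Lb.t (@Lb.fm (nat_lit 3) t127)))))))
noncomputable def l15403 : Lb := (@Lb.d (nat_lit 2) (nat_lit 256) (nat_lit 0) (@Lb.g g8 (@Lb.r r1049 (@Lb.r r24 (@Lb.d (nat_lit 553) (nat_lit 2) (nat_lit 34) (@Lb.t (@Lb.fm (nat_lit 3) t127)))))))
noncomputable def l15404 : Lb := (@Lb.d (nat_lit 10) (nat_lit 256) (nat_lit 0) (@Lb.g g4 (@Lb.r r2089 (@Lb.r r1064 (@Lb.d (nat_lit 552) (nat_lit 2) (nat_lit 34) (@Lb.t (@Lb.fm (nat_lit 3) t127)))))))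
noncomputable def l15405 : Lb := (@Lb.d (nat_lit 548) (nat_lit 321) (nat_lit 1) (@Lb.r r2138 (@Lb.r r2644 (@Lb.r r2391 (@Lb.g g7 (@Lb.g g6 (@Lb.g g5 (@Lb.g g4 (@Lb.d (nat_lit 1) (nat_lit 65) (nat_lit 134) (@Lb.fp (nat_lit 9) t892))))))))))
noncomputable def l15406 : Lb := (@Lb.d (nat_lit 130) (nat_lit 256) (nat_lit 0) (@Lb.g g4 (@Lb.r r555 (@Lb.r r402 (@Lb.r r609 (@Lb.r r148 (@Lb.d (nat_lit 25) (nat_lit 74) (nat_lit 84) (@Lb.t (@Lb.fp (nat_lit 3) t479)))))))))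
noncomputable def l15407 : Lb := (@Lb.d (nat_lit 130) (nat_lit 258) (nat_lit 2) (@Lb.g g8 (@Lb.g g9 (@Lb.g g10 (@Lb.r r263 (@Lb.r r2713 (@Lb.r r2712 (@Lb.r r2122 (@Lb.d (nat_lit 533) (nat_lit 38) (nat_lit 150) (@Lb.t (@Lb.fp (nat_lit 9) t145)))))))))))
noncomputable def l15408 : Lb := (@Lb.r r323 (@Lb.d (nat_lit 32) (nat_lit 0) (nat_lit 2) (@Lb.g g10 (@Lb.r r584 (@Lb.r r619 (@Lb.r r609 (@Lb.d (nat_lit 1) (nat_lit 65) (nat_lit 84) (@Lb.t (@Lb.fm (nat_lit 3) t479)))))))))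
noncomputable def l15409 : Lb := (@Lb.d (nat_lit 0) (nat_lit 514) (nat_lit 130) (@Lb.g g8 (@Lb.g g9 (@Lb.g g10 (@Lb.g g11 (@Lb.r r2691 (@Lb.r r2209 (@Lb.r r2658 (@Lb.d (nat_lit 0) (nat_lit 165) (nat_lit 596) (@Lb.fp (nat_lit 9) t311))))))))))
noncomputable def l15410 : Lb := (@Lb.d (nat_lit 5) (nat_lit 408) (nat_lit 72) (@Lb.r r1045 (@Lb.r r1640 (@Lb.r r386 (@Lb.g g11 (@Lb.g g6 (@Lb.g g5 (@Lb.g g4 (@Lb.d (nat_lit 6) (nat_lit 1) (nat_lit 1) (@Lb.fm (nat_lit 9) t3200))))))))))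
noncomputable def l15411 : Lb := (@Lb.d (nat_lit 0) (nat_lit 2) (nat_lit 130) (@Lb.g g8 (@Lb.g g9 (@Lb.g g10 (@Lb.g g11 (@Lb.r r2691 (@Lb.r r2209 (@Lb.r r2658 (@Lb.d (nat_lit 2) (nat_lit 165) (nat_lit 596) (@Lb.fp (nat_lit 9) t311))))))))))
noncomputable def l15412 : Lb := (@Lb.d (nat_lit 0) (nat_lit 408) (nat_lit 101) (@Lb.r r1635 (@Lb.g g7 (@Lb.g g10 (@Lb.g g5 (@Lb.g g8 (@Lb.d (nat_lit 0) (nat_lit 145) (nat_lit 128) (@Lb.fm (nat_lit 9) t412))))))))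
noncomputable def l15413 : Lb := (@Lb.d (nat_lit 2) (nat_lit 258) (nat_lit 64) (@Lb.g g8 (@Lb.g g9 (@Lb.g g10 (@Lb.g g11 (@Lb.r r1610 (@Lb.r r40 (@Lb.r r2089 (@Lb.r r2084 (@Lb.d (nat_lit 514) (nat_lit 153) (nat_lit 130) (@Lb.fp (nat_lit 9) t71)))))))))))
noncomputable def l15414 : Lb := (@Lb.d (nat_lit 389) (nat_lit 164) (nat_lit 277) (@Lb.r r1705 (@Lb.r r683 (@Lb.r r2666 (@Lb.r r1380 (@Lb.g g7 (@Lb.g g5 (@Lb.d (nat_lit 68) (nat_lit 5) (nat_lit 128) (@Lb.fm (nat_lit 3) t979)))))))))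
noncomputable def l15415 : Lb := (@Lb.d (nat_lit 2) (nat_lit 257) (nat_lit 130) (@Lb.g g8 (@Lb.g g9 (@Lb.g g10 (@Lb.g g11 (@Lb.r r363 (@Lb.r r386 (@Lb.r r1121 (@Lb.r r24 (@Lb.d (nat_lit 266) (nat_lit 137) (nat_lit 102) (@Lb.fm (nat_lit 9) t61)))))))))))
noncomputable def l15416 : Lb := (@Lb.r r323 (@Lb.d (nat_lit 0) (nat_lit 33) (nat_lit 2) (@Lb.g g8 (@Lb.g g9 (@Lb.g g10 (@Lb.r r2647 (@Lb.r r74 (@Lb.r r1320 (@Lb.r r1433 (@Lb.d (nat_lit 661) (nat_lit 26) (nat_lit 682) (@Lb.t (@Lb.fm (nat_lit 9) t51))))))))))))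
noncomputable def l15417 : Lb := (@Lb.r r323 (@Lb.d (nat_lit 0) (nat_lit 289) (nat_lit 2) (@Lb.g g8 (@Lb.g g9 (@Lb.g g10 (@Lb.r r2647 (@Lb.r r74 (@Lb.r r1320 (@Lb.r r1433 (@Lb.d (nat_lit 664) (nat_lit 24) (nat_lit 682) (@Lb.t (@Lb.fm (nat_lit 9) t51))))))))))))
noncomputable def l15418 : Lb := (@Lb.d (nat_lit 4) (nat_lit 418) (nat_lit 17) (@Lb.r r2118 (@Lb.r r2663 (@Lb.r r1432 (@Lb.g g7 (@Lb.g g5 (@Lb.d (nat_lit 64) (nat_lit 1) (nat_lit 64) (@Lb.r r98 (@Lb.fm (nat_lit 3) t1549)))))))))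
noncomputable def l15419 : Lb := (@Lb.d (nat_lit 4) (nat_lit 256) (nat_lit 2) (@Lb.g g8 (@Lb.g g9 (@Lb.g g10 (@Lb.g g7 (@Lb.r r386 (@Lb.r r2657 (@Lb.r r24 (@Lb.d (nat_lit 0) (nat_lit 90) (nat_lit 9) (@Lb.fp (nat_lit 9) t2877))))))))))
noncomputable def l15420 : Lb := (@Lb.d (nat_lit 8) (nat_lit 514) (nat_lit 136) (@Lb.g g9 (@Lb.g g11 (@Lb.r r2136 (@Lb.r r2197 (@Lb.d (nat_lit 533) (nat_lit 138) (nat_lit 160) (@Lb.fp (nat_lit 3) t453)))))))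
noncomputable def l15421 : Lb := (@Lb.d (nat_lit 128) (nat_lit 266) (nat_lit 64) (@Lb.g g9 (@Lb.g g11 (@Lb.r r264 (@Lb.r r1687 (@Lb.r r594 (@Lb.r r417 (@Lb.d (nat_lit 289) (nat_lit 132) (nat_lit 169) (@Lb.fp (nat_lit 3) t210)))))))))
noncomputable def l15422 : Lb := (@Lb.r r81 (@Lb.d (nat_lit 21) (nat_lit 0) (nat_lit 128) (@Lb.g g4 (@Lb.g g10 (@Lb.g g11 (@Lb.r r2341 (@Lb.r r659 (@Lb.r r578 (@Lb.d (nat_lit 1) (nat_lit 10) (nat_lit 418) (@Lb.t (@Lb.fp (nat_lit 9) t50)))))))))))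
noncomputable def l15423 : Lb := (@Lb.d (nat_lit 10) (nat_lit 544) (nat_lit 64) (@Lb.g g8 (@Lb.g g11 (@Lb.r r166 (@Lb.r r149 (@Lb.r r360 (@Lb.r r615 (@Lb.d (nat_lit 154) (nat_lit 8) (nat_lit 65) (@Lb.fp (nat_lit 3) t44)))))))))
noncomputable def l15424 : Lb := (@Lb.d (nat_lit 273) (nat_lit 581) (nat_lit 5) (@Lb.r r1193 (@Lb.r r1124 (@Lb.r r386 (@Lb.g g11 (@Lb.g g6 (@Lb.g g5 (@Lb.d (nat_lit 4) (nat_lit 1) (nat_lit 129) (@Lb.t (@Lb.fm (nat_lit 9) t728))))))))))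
noncomputable def l15425 : Lb := (@Lb.d (nat_lit 273) (nat_lit 69) (nat_lit 133) (@Lb.r r1193 (@Lb.r r1124 (@Lb.r r386 (@Lb.g g11 (@Lb.g g6 (@Lb.g g5 (@Lb.d (nat_lit 4) (nat_lit 1) (nat_lit 129) (@Lb.t (@Lb.fm (nat_lit 9) t728))))))))))
noncomputable def l15426 : Lb := (@Lb.d (nat_lit 273) (nat_lit 325) (nat_lit 5) (@Lb.r r1193 (@Lb.r r1124 (@Lb.r r386 (@Lb.g g11 (@Lb.g g6 (@Lb.g g5 (@Lb.d (nat_lit 4) (nat_lit 1) (nat_lit 6) (@Lb.t (@Lb.fm (nat_lit 9) t728))))))))))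
noncomputable def l15427 : Lb := (@Lb.d (nat_lit 68) (nat_lit 522) (nat_lit 137) (@Lb.g g8 (@Lb.g g9 (@Lb.g g10 (@Lb.g g11 (@Lb.r r2731 (@Lb.r r2705 (@Lb.r r2194 (@Lb.r r296 (@Lb.d (nat_lit 130) (nat_lit 137) (nat_lit 89) (@Lb.fm (nat_lit 9) t1220)))))))))))
noncomputable def l15428 : Lb := (@Lb.r r338 (@Lb.d (nat_lit 128) (nat_lit 680) (nat_lit 128) (@Lb.g g9 (@Lb.g g11 (@Lb.r r356 (@Lb.r r2650 (@Lb.r r331 (@Lb.d (nat_lit 288) (nat_lit 2) (nat_lit 518) (@Lb.fm (nat_lit 3) t2557)))))))))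
noncomputable def l15429 : Lb := (@Lb.d (nat_lit 128) (nat_lit 10) (nat_lit 64) (@Lb.g g9 (@Lb.g g11 (@Lb.r r264 (@Lb.r r1687 (@Lb.r r594 (@Lb.r r417 (@Lb.d (nat_lit 290) (nat_lit 132) (nat_lit 169) (@Lb.fp (nat_lit 3) t210)))))))))
noncomputable def l15430 : Lb := (@Lb.d (nat_lit 72) (nat_lit 529) (nat_lit 2) (@Lb.g g8 (@Lb.g g9 (@Lb.g g10 (@Lb.g g11 (@Lb.r r423 (@Lb.r r2154 (@Lb.r r1129 (@Lb.r r516 (@Lb.d (nat_lit 105) (nat_lit 42) (nat_lit 136) (@Lb.fm (nat_lit 9) t3201)))))))))))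
noncomputable def l15431 : Lb := (@Lb.d (nat_lit 10) (nat_lit 512) (nat_lit 66) (@Lb.g g8 (@Lb.g g10 (@Lb.g g7 (@Lb.r r386 (@Lb.r r149 (@Lb.r r168 (@Lb.d (nat_lit 22) (nat_lit 86) (nat_lit 329) (@Lb.t (@Lb.fp (nat_lit 9) t845))))))))))
noncomputable def l15432 : Lb := (@Lb.r r82 (@Lb.d (nat_lit 405) (nat_lit 512) (nat_lit 128) (@Lb.g g4 (@Lb.g g9 (@Lb.g g11 (@Lb.r r678 (@Lb.r r1411 (@Lb.r r2577 (@Lb.d (nat_lit 1) (nat_lit 10) (nat_lit 330) (@Lb.t (@Lb.fm (nat_lit 9) t1169)))))))))))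
noncomputable def l15433 : Lb := (@Lb.d (nat_lit 2) (nat_lit 289) (nat_lit 73) (@Lb.g g8 (@Lb.g g9 (@Lb.g g10 (@Lb.g g11 (@Lb.r r387 (@Lb.r r1682 (@Lb.r r1561 (@Lb.r r24 (@Lb.d (nat_lit 514) (nat_lit 0) (nat_lit 344) (@Lb.fp (nat_lit 9) t3202)))))))))))
noncomputable def l15434 : Lb := (@Lb.r r323 (@Lb.d (nat_lit 6) (nat_lit 522) (nat_lit 2) (@Lb.g g8 (@Lb.g g9 (@Lb.g g10 (@Lb.r r1706 (@Lb.r r1681 (@Lb.r r1555 (@Lb.r r36 (@Lb.d (nat_lit 106) (nat_lit 68) (nat_lit 138) (@Lb.t (@Lb.fm (nat_lit 9) t251))))))))))))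
noncomputable def l15435 : Lb := (@Lb.d (nat_lit 10) (nat_lit 512) (nat_lit 66) (@Lb.g g8 (@Lb.g g10 (@Lb.g g7 (@Lb.r r386 (@Lb.r r149 (@Lb.r r168 (@Lb.d (nat_lit 20) (nat_lit 86) (nat_lit 265) (@Lb.t (@Lb.fp (nat_lit 9) t1926))))))))))
noncomputable def l15436 : Lb := (@Lb.d (nat_lit 10) (nat_lit 256) (nat_lit 66) (@Lb.g g8 (@Lb.g g10 (@Lb.g g7 (@Lb.r r386 (@Lb.r r149 (@Lb.r r168 (@Lb.d (nat_lit 20) (nat_lit 86) (nat_lit 329) (@Lb.t (@Lb.fp (nat_lit 9) t1926))))))))))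
noncomputable def l15437 : Lb := (@Lb.d (nat_lit 0) (nat_lit 33) (nat_lit 66) (@Lb.g g9 (@Lb.g g10 (@Lb.g g11 (@Lb.r r679 (@Lb.r r610 (@Lb.r r529 (@Lb.d (nat_lit 104) (nat_lit 40) (nat_lit 129) (@Lb.t (@Lb.fp (nat_lit 9) t50))))))))))
noncomputable def l15438 : Lb := (@Lb.d (nat_lit 2) (nat_lit 258) (nat_lit 74) (@Lb.g g8 (@Lb.g g9 (@Lb.g g10 (@Lb.g g11 (@Lb.r r1194 (@Lb.r r680 (@Lb.r r427 (@Lb.r r1445 (@Lb.r r1044 (@Lb.d (nat_lit 362) (nat_lit 128) (nat_lit 672) (@Lb.fm (nat_lit 9) t49))))))))))))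
noncomputable def l15439 : Lb := (@Lb.d (nat_lit 105) (nat_lit 536) (nat_lit 598) (@Lb.r r597 (@Lb.r r279 (@Lb.r r584 (@Lb.r r166 (@Lb.g g7 (@Lb.g g6 (@Lb.g g5 (@Lb.d (nat_lit 4) (nat_lit 1) (nat_lit 65) (@Lb.t (@Lb.fp (nat_lit 9) t2972)))))))))))
noncomputable def l15440 : Lb := (@Lb.d (nat_lit 260) (nat_lit 550) (nat_lit 358) (@Lb.r r1386 (@Lb.r r1368 (@Lb.r r535 (@Lb.r r289 (@Lb.g g7 (@Lb.g g6 (@Lb.g g4 (@Lb.d (nat_lit 1) (nat_lit 4) (nat_lit 133) (@Lb.t (@Lb.fm (nat_lit 9) t3003)))))))))))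
noncomputable def l15441 : Lb := (@Lb.d (nat_lit 101) (nat_lit 260) (nat_lit 130) (@Lb.r r615 (@Lb.r r360 (@Lb.r r89 (@Lb.r r166 (@Lb.g g7 (@Lb.g g4 (@Lb.d (nat_lit 5) (nat_lit 16) (nat_lit 128) (@Lb.fp (nat_lit 3) t167)))))))))
noncomputable def l15442 : Lb := (@Lb.d (nat_lit 129) (nat_lit 289) (nat_lit 0) (@Lb.g g8 (@Lb.g g9 (@Lb.r r2579 (@Lb.r r2178 (@Lb.r r1429 (@Lb.r r104 (@Lb.d (nat_lit 404) (nat_lit 5) (nat_lit 645) (@Lb.fp (nat_lit 3) t100)))))))))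
noncomputable def l15443 : Lb := (@Lb.d (nat_lit 101) (nat_lit 516) (nat_lit 73) (@Lb.r r615 (@Lb.r r360 (@Lb.r r89 (@Lb.r r166 (@Lb.g g7 (@Lb.g g4 (@Lb.d (nat_lit 5) (nat_lit 16) (nat_lit 128) (@Lb.fp (nat_lit 3) t167)))))))))
noncomputable def l15444 : Lb := (@Lb.d (nat_lit 4) (nat_lit 104) (nat_lit 132) (@Lb.r r24 (@Lb.r r82 (@Lb.r r417 (@Lb.g g11 (@Lb.g g6 (@Lb.g g5 (@Lb.d (nat_lit 0) (nat_lit 1) (nat_lit 129) (@Lb.t (@Lb.fm (nat_lit 9) t546))))))))))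
noncomputable def l15445 : Lb := (@Lb.d (nat_lit 266) (nat_lit 321) (nat_lit 424) (@Lb.r r609 (@Lb.r r619 (@Lb.r r584 (@Lb.r r358 (@Lb.g g7 (@Lb.g g4 (@Lb.d (nat_lit 1) (nat_lit 0) (nat_lit 128) (@Lb.fp (nat_lit 3) t3003)))))))))
noncomputable def l15446 : Lb := (@Lb.d (nat_lit 360) (nat_lit 386) (nat_lit 136) (@Lb.r r2438 (@Lb.r r1620 (@Lb.r r535 (@Lb.r r289 (@Lb.g g7 (@Lb.g g6 (@Lb.g g4 (@Lb.d (nat_lit 1) (nat_lit 0) (nat_lit 134) (@Lb.t (@Lb.fm (nat_lit 9) t3003)))))))))))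
noncomputable def l15447 : Lb := (@Lb.d (nat_lit 0) (nat_lit 290) (nat_lit 128) (@Lb.r r402 (@Lb.g g11 (@Lb.g g9 (@Lb.g g4 (@Lb.t (@Lb.fm (nat_lit 9) t1761)))))))
noncomputable def l15448 : Lb := (@Lb.r r21 (@Lb.d (nat_lit 9) (nat_lit 0) (nat_lit 2) (@Lb.g g8 (@Lb.g g10 (@Lb.r r2405 (@Lb.r r659 (@Lb.r r146 (@Lb.r r1284 (@Lb.d (nat_lit 640) (nat_lit 22) (nat_lit 392) (@Lb.fp (nat_lit 3) t242))))))))))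
noncomputable def l15449 : Lb := (@Lb.d (nat_lit 1) (nat_lit 66) (nat_lit 64) (@Lb.g g4 (@Lb.g g9 (@Lb.g g10 (@Lb.g g11 (@Lb.r r1315 (@Lb.r r2626 (@Lb.d (nat_lit 0) (nat_lit 104) (nat_lit 642) (@Lb.fm (nat_lit 9) t51)))))))))
noncomputable def l15450 : Lb := (@Lb.g g7 (@Lb.r r24 (@Lb.r r101 (@Lb.r r402 (@Lb.d (nat_lit 0) (nat_lit 512) (nat_lit 66) (@Lb.t (@Lb.fp (nat_lit 3) t311)))))))
noncomputable def l15451 : Lb := (@Lb.g g5 (@Lb.g g7 (@Lb.r r24 (@Lb.r r101 (@Lb.r r402 (@Lb.d (nat_lit 1) (nat_lit 0) (nat_lit 66) (@Lb.fp (nat_lit 3) t311)))))))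
noncomputable def l15452 : Lb := (@Lb.d (nat_lit 146) (nat_lit 512) (nat_lit 128) (@Lb.g g8 (@Lb.g g10 (@Lb.g g11 (@Lb.r r658 (@Lb.r r2455 (@Lb.r r2145 (@Lb.r r536 (@Lb.d (nat_lit 324) (nat_lit 161) (nat_lit 128) (@Lb.t (@Lb.fp (nat_lit 9) t1666)))))))))))
noncomputable def l15453 : Lb := (@Lb.d (nat_lit 2) (nat_lit 546) (nat_lit 2) (@Lb.g g8 (@Lb.g g9 (@Lb.g g10 (@Lb.r r1675 (@Lb.r r1194 (@Lb.r r2465 (@Lb.r r2564 (@Lb.d (nat_lit 548) (nat_lit 166) (nat_lit 546) (@Lb.t (@Lb.fp (nat_lit 9) t284)))))))))))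
noncomputable def l15454 : Lb := (@Lb.d (nat_lit 2) (nat_lit 514) (nat_lit 2) (@Lb.g g8 (@Lb.g g9 (@Lb.g g10 (@Lb.r r2411 (@Lb.r r386 (@Lb.r r97 (@Lb.r r24 (@Lb.d (nat_lit 256) (nat_lit 0) (nat_lit 84) (@Lb.t (@Lb.fp (nat_lit 9) t61)))))))))))
noncomputable def l15455 : Lb := (@Lb.r r326 (@Lb.d (nat_lit 386) (nat_lit 514) (nat_lit 128) (@Lb.g g8 (@Lb.g g9 (@Lb.g g11 (@Lb.r r1323 (@Lb.r r2626 (@Lb.r r25 (@Lb.d (nat_lit 0) (nat_lit 168) (nat_lit 642) (@Lb.t (@Lb.fm (nat_lit 9) t842)))))))))))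
noncomputable def l15456 : Lb := (@Lb.r r70 (@Lb.d (nat_lit 18) (nat_lit 514) (nat_lit 0) (@Lb.g g8 (@Lb.g g9 (@Lb.r r1706 (@Lb.r r2469 (@Lb.r r1307 (@Lb.r r1300 (@Lb.d (nat_lit 385) (nat_lit 34) (nat_lit 42) (@Lb.fm (nat_lit 3) t1549))))))))))
noncomputable def l15457 : Lb := (@Lb.d (nat_lit 144) (nat_lit 258) (nat_lit 64) (@Lb.g g8 (@Lb.g g9 (@Lb.g g10 (@Lb.g g11 (@Lb.r r427 (@Lb.r r1602 (@Lb.r r409 (@Lb.r r388 (@Lb.d (nat_lit 98) (nat_lit 97) (nat_lit 74) (@Lb.fp (nat_lit 9) t898)))))))))))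
noncomputable def l15458 : Lb := (@Lb.d (nat_lit 406) (nat_lit 658) (nat_lit 145) (@Lb.r r1604 (@Lb.r r1621 (@Lb.r r1706 (@Lb.g g11 (@Lb.g g6 (@Lb.g g5 (@Lb.g g4 (@Lb.d (nat_lit 6) (nat_lit 4) (nat_lit 72) (@Lb.fp (nat_lit 9) t61))))))))))
noncomputable def l15459 : Lb := (@Lb.r r331 (@Lb.d (nat_lit 32) (nat_lit 289) (nat_lit 2) (@Lb.g g8 (@Lb.g g5 (@Lb.g g10 (@Lb.r r1675 (@Lb.r r1178 (@Lb.r r1384 (@Lb.d (nat_lit 536) (nat_lit 104) (nat_lit 586) (@Lb.t (@Lb.fm (nat_lit 9) t144)))))))))))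
noncomputable def l15460 : Lb := (@Lb.g g10 (@Lb.g g7 (@Lb.r r1414 (@Lb.r r149 (@Lb.r r2120 (@Lb.d (nat_lit 258) (nat_lit 266) (nat_lit 578) (@Lb.fp (nat_lit 3) t145)))))))
noncomputable def l15461 : Lb := (@Lb.d (nat_lit 146) (nat_lit 258) (nat_lit 128) (@Lb.g g8 (@Lb.g g9 (@Lb.g g10 (@Lb.g g11 (@Lb.r r2459 (@Lb.r r1177 (@Lb.r r1626 (@Lb.r r72 (@Lb.d (nat_lit 36) (nat_lit 34) (nat_lit 361) (@Lb.fm (nat_lit 9) t3203)))))))))))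
noncomputable def l15462 : Lb := (@Lb.d (nat_lit 146) (nat_lit 258) (nat_lit 5) (@Lb.g g8 (@Lb.g g9 (@Lb.g g10 (@Lb.g g11 (@Lb.r r2459 (@Lb.r r1173 (@Lb.r r1622 (@Lb.r r72 (@Lb.d (nat_lit 170) (nat_lit 37) (nat_lit 353) (@Lb.fm (nat_lit 9) t3080)))))))))))
noncomputable def l15463 : Lb := (@Lb.d (nat_lit 160) (nat_lit 520) (nat_lit 128) (@Lb.g g10 (@Lb.g g11 (@Lb.r r260 (@Lb.r r2667 (@Lb.r r1633 (@Lb.r r338 (@Lb.d (nat_lit 72) (nat_lit 80) (nat_lit 261) (@Lb.fm (nat_lit 3) t322)))))))))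
noncomputable def l15464 : Lb := (@Lb.g g7 (@Lb.d (nat_lit 10) (nat_lit 258) (nat_lit 0) (@Lb.t (@Lb.fm (nat_lit 3) t2))))
noncomputable def l15465 : Lb := (@Lb.d (nat_lit 32) (nat_lit 264) (nat_lit 128) (@Lb.g g10 (@Lb.g g11 (@Lb.r r407 (@Lb.r r616 (@Lb.r r2665 (@Lb.r r2390 (@Lb.d (nat_lit 597) (nat_lit 145) (nat_lit 293) (@Lb.fm (nat_lit 3) t322)))))))))
noncomputable def l15466 : Lb := (@Lb.d (nat_lit 128) (nat_lit 544) (nat_lit 136) (@Lb.g g11 (@Lb.r r420 (@Lb.r r2469 (@Lb.r r1446 (@Lb.r r347 (@Lb.d (nat_lit 296) (nat_lit 17) (nat_lit 645) (@Lb.t (@Lb.fp (nat_lit 3) t322)))))))))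
noncomputable def l15467 : Lb := (@Lb.d (nat_lit 10) (nat_lit 256) (nat_lit 0) (@Lb.g g8 (@Lb.d (nat_lit 5) (nat_lit 0) (nat_lit 0) (@Lb.t (@Lb.fp (nat_lit 3) t2)))))
noncomputable def l15468 : Lb := (@Lb.d (nat_lit 402) (nat_lit 0) (nat_lit 353) (@Lb.r r1633 (@Lb.r r2390 (@Lb.g g7 (@Lb.g g5 (@Lb.g g4 (@Lb.d (nat_lit 552) (nat_lit 0) (nat_lit 128) (@Lb.r r98 (@Lb.t (@Lb.fm (nat_lit 9) t40))))))))))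
noncomputable def l15469 : Lb := (@Lb.d (nat_lit 0) (nat_lit 1) (nat_lit 73) (@Lb.g g8 (@Lb.g g9 (@Lb.g g10 (@Lb.g g11 (@Lb.r r618 (@Lb.r r105 (@Lb.r r596 (@Lb.r r1319 (@Lb.r r2564 (@Lb.d (nat_lit 9) (nat_lit 25) (nat_lit 642) (@Lb.fm (nat_lit 9) t71))))))))))))
noncomputable def l15470 : Lb := (@Lb.g g5 (@Lb.g g10 (@Lb.g g7 (@Lb.r r2579 (@Lb.r r2341 (@Lb.r r2136 (@Lb.r r1158 (@Lb.d (nat_lit 2) (nat_lit 517) (nat_lit 70) (@Lb.t (@Lb.fm (nat_lit 9) t296))))))))))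
noncomputable def l15471 : Lb := (@Lb.r r21 (@Lb.d (nat_lit 144) (nat_lit 512) (nat_lit 64) (@Lb.g g8 (@Lb.g g10 (@Lb.g g11 (@Lb.r r395 (@Lb.r r1602 (@Lb.r r404 (@Lb.r r25 (@Lb.d (nat_lit 10) (nat_lit 69) (nat_lit 73) (@Lb.t (@Lb.fm (nat_lit 9) t898))))))))))))
noncomputable def l15472 : Lb := (@Lb.r r323 (@Lb.d (nat_lit 128) (nat_lit 513) (nat_lit 2) (@Lb.g g8 (@Lb.g g9 (@Lb.g g10 (@Lb.r r362 (@Lb.r r361 (@Lb.r r1431 (@Lb.r r2632 (@Lb.d (nat_lit 354) (nat_lit 134) (nat_lit 640) (@Lb.t (@Lb.fm (nat_lit 9) t71))))))))))))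
noncomputable def l15473 : Lb := (@Lb.d (nat_lit 144) (nat_lit 514) (nat_lit 384) (@Lb.g g8 (@Lb.g g9 (@Lb.g g10 (@Lb.g g11 (@Lb.r r1602 (@Lb.r r424 (@Lb.r r1065 (@Lb.r r1060 (@Lb.d (nat_lit 512) (nat_lit 154) (nat_lit 154) (@Lb.fp (nat_lit 9) t650)))))))))))
noncomputable def l15474 : Lb := (@Lb.d (nat_lit 144) (nat_lit 514) (nat_lit 128) (@Lb.g g8 (@Lb.g g9 (@Lb.g g10 (@Lb.g g11 (@Lb.r r2722 (@Lb.r r2439 (@Lb.r r145 (@Lb.r r2632 (@Lb.d (nat_lit 610) (nat_lit 138) (nat_lit 425) (@Lb.fp (nat_lit 9) t3204)))))))))))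
noncomputable def l15475 : Lb := (@Lb.d (nat_lit 0) (nat_lit 258) (nat_lit 133) (@Lb.g g8 (@Lb.g g9 (@Lb.g g10 (@Lb.g g7 (@Lb.r r1706 (@Lb.r r2457 (@Lb.r r2436 (@Lb.d (nat_lit 617) (nat_lit 97) (nat_lit 98) (@Lb.fp (nat_lit 9) t918))))))))))
noncomputable def l15476 : Lb := (@Lb.r r323 (@Lb.d (nat_lit 38) (nat_lit 517) (nat_lit 0) (@Lb.g g8 (@Lb.g g9 (@Lb.g g10 (@Lb.r r683 (@Lb.r r170 (@Lb.r r1188 (@Lb.r r37 (@Lb.d (nat_lit 258) (nat_lit 74) (nat_lit 68) (@Lb.t (@Lb.fp (nat_lit 9) t1754))))))))))))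
noncomputable def l15477 : Lb := (@Lb.r r82 (@Lb.d (nat_lit 8) (nat_lit 17) (nat_lit 0) (@Lb.g g9 (@Lb.g g11 (@Lb.r r1364 (@Lb.r r1434 (@Lb.r r2641 (@Lb.r r411 (@Lb.d (nat_lit 130) (nat_lit 65) (nat_lit 422) (@Lb.fp (nat_lit 3) t217))))))))))
noncomputable def l15478 : Lb := (@Lb.r r323 (@Lb.d (nat_lit 2) (nat_lit 2) (nat_lit 0) (@Lb.g g8 (@Lb.g g9 (@Lb.g g10 (@Lb.r r683 (@Lb.r r170 (@Lb.r r1177 (@Lb.r r1156 (@Lb.d (nat_lit 292) (nat_lit 64) (nat_lit 68) (@Lb.t (@Lb.fm (nat_lit 9) t1242))))))))))))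
noncomputable def l15479 : Lb := (@Lb.r r323 (@Lb.d (nat_lit 2) (nat_lit 258) (nat_lit 0) (@Lb.g g8 (@Lb.g g9 (@Lb.g g10 (@Lb.r r683 (@Lb.r r170 (@Lb.r r1177 (@Lb.r r1156 (@Lb.d (nat_lit 298) (nat_lit 65) (nat_lit 68) (@Lb.t (@Lb.fm (nat_lit 9) t3205))))))))))))
noncomputable def l15480 : Lb := (@Lb.r r20 (@Lb.d (nat_lit 136) (nat_lit 258) (nat_lit 162) (@Lb.g g9 (@Lb.g g6 (@Lb.g g11 (@Lb.r r264 (@Lb.r r2455 (@Lb.r r1697 (@Lb.d (nat_lit 293) (nat_lit 104) (nat_lit 673) (@Lb.t (@Lb.fp (nat_lit 9) t669)))))))))))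
noncomputable def l15481 : Lb := (@Lb.d (nat_lit 2) (nat_lit 256) (nat_lit 0) (@Lb.g g8 (@Lb.g g11 (@Lb.r r657 (@Lb.r r594 (@Lb.r r2391 (@Lb.r r1624 (@Lb.r r149 (@Lb.d (nat_lit 2) (nat_lit 164) (nat_lit 641) (@Lb.fp (nat_lit 3) t660))))))))))
noncomputable def l15482 : Lb := (@Lb.r r82 (@Lb.r r275 (@Lb.d (nat_lit 2) (nat_lit 130) (nat_lit 0) (@Lb.g g8 (@Lb.g g5 (@Lb.r r1563 (@Lb.r r1178 (@Lb.r r1156 (@Lb.d (nat_lit 550) (nat_lit 128) (nat_lit 68) (@Lb.fp (nat_lit 3) t1754))))))))))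
noncomputable def l15483 : Lb := (@Lb.g g5 (@Lb.g g10 (@Lb.g g7 (@Lb.r r402 (@Lb.r r24 (@Lb.r r101 (@Lb.d (nat_lit 96) (nat_lit 130) (nat_lit 320) (@Lb.t (@Lb.fp (nat_lit 9) t1628)))))))))
noncomputable def l15484 : Lb := (@Lb.d (nat_lit 10) (nat_lit 2) (nat_lit 74) (@Lb.g g8 (@Lb.g g9 (@Lb.g g10 (@Lb.g g11 (@Lb.r r387 (@Lb.r r2146 (@Lb.r r2436 (@Lb.d (nat_lit 608) (nat_lit 18) (nat_lit 646) (@Lb.fp (nat_lit 9) t3153))))))))))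
noncomputable def l15485 : Lb := (@Lb.d (nat_lit 8) (nat_lit 2) (nat_lit 2) (@Lb.g g9 (@Lb.g g10 (@Lb.r r2658 (@Lb.r r579 (@Lb.d (nat_lit 2) (nat_lit 144) (nat_lit 266) (@Lb.fp (nat_lit 3) t51)))))))
noncomputable def l15486 : Lb := (@Lb.d (nat_lit 144) (nat_lit 130) (nat_lit 64) (@Lb.g g8 (@Lb.g g9 (@Lb.g g10 (@Lb.g g11 (@Lb.r r2339 (@Lb.r r1602 (@Lb.r r420 (@Lb.d (nat_lit 106) (nat_lit 82) (nat_lit 73) (@Lb.fp (nat_lit 9) t1258))))))))))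
noncomputable def l15487 : Lb := (@Lb.d (nat_lit 2) (nat_lit 0) (nat_lit 64) (@Lb.g g8 (@Lb.g g10 (@Lb.g g7 (@Lb.r r402 (@Lb.r r2145 (@Lb.r r24 (@Lb.d (nat_lit 328) (nat_lit 97) (nat_lit 320) (@Lb.t (@Lb.fm (nat_lit 9) t3206))))))))))
noncomputable def l15488 : Lb := (@Lb.d (nat_lit 144) (nat_lit 258) (nat_lit 64) (@Lb.g g8 (@Lb.g g9 (@Lb.g g10 (@Lb.g g11 (@Lb.r r1315 (@Lb.r r390 (@Lb.r r1621 (@Lb.r r2440 (@Lb.d (nat_lit 282) (nat_lit 168) (nat_lit 345) (@Lb.fp (nat_lit 9) t898)))))))))))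
noncomputable def l15489 : Lb := (@Lb.d (nat_lit 9) (nat_lit 1) (nat_lit 10) (@Lb.g g8 (@Lb.g g9 (@Lb.g g10 (@Lb.g g11 (@Lb.r r593 (@Lb.r r663 (@Lb.r r392 (@Lb.r r74 (@Lb.d (nat_lit 37) (nat_lit 1) (nat_lit 153) (@Lb.fp (nat_lit 9) t221)))))))))))
noncomputable def l15490 : Lb := (@Lb.d (nat_lit 8) (nat_lit 260) (nat_lit 74) (@Lb.g g9 (@Lb.g g10 (@Lb.g g11 (@Lb.r r611 (@Lb.r r1610 (@Lb.r r2644 (@Lb.r r1321 (@Lb.d (nat_lit 265) (nat_lit 89) (nat_lit 644) (@Lb.t (@Lb.fm (nat_lit 9) t510)))))))))))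
noncomputable def l15491 : Lb := (@Lb.d (nat_lit 10) (nat_lit 546) (nat_lit 2) (@Lb.g g8 (@Lb.g g9 (@Lb.g g10 (@Lb.r r1299 (@Lb.r r2730 (@Lb.r r1569 (@Lb.r r1156 (@Lb.d (nat_lit 554) (nat_lit 16) (nat_lit 290) (@Lb.t (@Lb.fm (nat_lit 9) t994)))))))))))
noncomputable def l15492 : Lb := (@Lb.d (nat_lit 512) (nat_lit 128) (nat_lit 170) (@Lb.r r24 (@Lb.r r1383 (@Lb.g g10 (@Lb.d (nat_lit 16) (nat_lit 8) (nat_lit 38) (@Lb.r r387 (@Lb.t (@Lb.fm (nat_lit 3) t1855))))))))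
noncomputable def l15493 : Lb := (@Lb.r r323 (@Lb.d (nat_lit 0) (nat_lit 2) (nat_lit 2) (@Lb.g g9 (@Lb.g g10 (@Lb.r r401 (@Lb.r r299 (@Lb.r r2434 (@Lb.r r1096 (@Lb.d (nat_lit 361) (nat_lit 102) (nat_lit 272) (@Lb.fm (nat_lit 3) t3207))))))))))
noncomputable def l15494 : Lb := (@Lb.d (nat_lit 2) (nat_lit 0) (nat_lit 2) (@Lb.g g8 (@Lb.g g10 (@Lb.r r425 (@Lb.r r2647 (@Lb.r r1370 (@Lb.r r1105 (@Lb.r r2436 (@Lb.d (nat_lit 106) (nat_lit 65) (nat_lit 90) (@Lb.fm (nat_lit 3) t994))))))))))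
noncomputable def l15495 : Lb := (@Lb.d (nat_lit 8) (nat_lit 2) (nat_lit 130) (@Lb.g g9 (@Lb.g g10 (@Lb.g g11 (@Lb.r r1451 (@Lb.r r98 (@Lb.d (nat_lit 133) (nat_lit 104) (nat_lit 642) (@Lb.t (@Lb.fm (nat_lit 9) t899)))))))))
noncomputable def l15496 : Lb := (@Lb.r r323 (@Lb.d (nat_lit 8) (nat_lit 514) (nat_lit 2) (@Lb.g g9 (@Lb.g g10 (@Lb.r r354 (@Lb.r r1419 (@Lb.d (nat_lit 282) (nat_lit 21) (nat_lit 296) (@Lb.fm (nat_lit 3) t899))))))))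
noncomputable def l15497 : Lb := (@Lb.d (nat_lit 33) (nat_lit 5) (nat_lit 72) (@Lb.r r1121 (@Lb.r r2374 (@Lb.g g11 (@Lb.g g5 (@Lb.g g8 (@Lb.d (nat_lit 2) (nat_lit 32) (nat_lit 324) (@Lb.r r578 (@Lb.t (@Lb.fm (nat_lit 9) t1258))))))))))
noncomputable def l15498 : Lb := (@Lb.r r323 (@Lb.d (nat_lit 8) (nat_lit 2) (nat_lit 2) (@Lb.g g9 (@Lb.g g10 (@Lb.r r354 (@Lb.r r1419 (@Lb.d (nat_lit 282) (nat_lit 16) (nat_lit 298) (@Lb.fm (nat_lit 3) t899))))))))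
noncomputable def l15499 : Lb := (@Lb.r r323 (@Lb.d (nat_lit 137) (nat_lit 1) (nat_lit 0) (@Lb.g g8 (@Lb.g g9 (@Lb.g g10 (@Lb.r r674 (@Lb.r r391 (@Lb.r r145 (@Lb.r r612 (@Lb.d (nat_lit 154) (nat_lit 18) (nat_lit 136) (@Lb.t (@Lb.fp (nat_lit 9) t51))))))))))))
noncomputable def l15500 : Lb := (@Lb.d (nat_lit 4) (nat_lit 2) (nat_lit 0) (@Lb.g g9 (@Lb.r r148 (@Lb.r r614 (@Lb.r r337 (@Lb.d (nat_lit 1) (nat_lit 161) (nat_lit 325) (@Lb.t (@Lb.fp (nat_lit 3) t668))))))))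
noncomputable def l15501 : Lb := (@Lb.r r21 (@Lb.r r323 (@Lb.d (nat_lit 130) (nat_lit 516) (nat_lit 10) (@Lb.g g8 (@Lb.g g6 (@Lb.r r407 (@Lb.r r97 (@Lb.r r516 (@Lb.d (nat_lit 128) (nat_lit 2) (nat_lit 129) (@Lb.fm (nat_lit 3) t51))))))))))
noncomputable def l15502 : Lb := (@Lb.r r323 (@Lb.d (nat_lit 137) (nat_lit 513) (nat_lit 0) (@Lb.g g8 (@Lb.g g9 (@Lb.g g10 (@Lb.r r674 (@Lb.r r391 (@Lb.r r145 (@Lb.r r612 (@Lb.d (nat_lit 154) (nat_lit 20) (nat_lit 137) (@Lb.t (@Lb.fp (nat_lit 9) t51))))))))))))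
noncomputable def l15503 : Lb := (@Lb.d (nat_lit 9) (nat_lit 257) (nat_lit 137) (@Lb.g g8 (@Lb.g g9 (@Lb.g g10 (@Lb.g g11 (@Lb.r r683 (@Lb.r r676 (@Lb.r r166 (@Lb.r r145 (@Lb.d (nat_lit 4) (nat_lit 6) (nat_lit 136) (@Lb.fp (nat_lit 9) t51)))))))))))
noncomputable def l15504 : Lb := (@Lb.d (nat_lit 137) (nat_lit 514) (nat_lit 2) (@Lb.g g8 (@Lb.g g9 (@Lb.g g10 (@Lb.r r279 (@Lb.r r681 (@Lb.r r618 (@Lb.r r584 (@Lb.d (nat_lit 100) (nat_lit 2) (nat_lit 9) (@Lb.t (@Lb.fm (nat_lit 9) t2)))))))))))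
noncomputable def l15505 : Lb := (@Lb.r r2311 (@Lb.d (nat_lit 261) (nat_lit 257) (nat_lit 0) (@Lb.fp (nat_lit 1) t469)))
noncomputable def l15506 : Lb := (@Lb.g g8 (@Lb.d (nat_lit 9) (nat_lit 128) (nat_lit 0) (@Lb.t (@Lb.fp (nat_lit 3) t2))))
noncomputable def l15507 : Lb := (@Lb.d (nat_lit 262) (nat_lit 513) (nat_lit 1) (@Lb.r r24 (@Lb.r r101 (@Lb.r r2403 (@Lb.g g6 (@Lb.d (nat_lit 0) (nat_lit 4) (nat_lit 1) (@Lb.t (@Lb.fm (nat_lit 3) t58))))))))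
noncomputable def l15508 : Lb := (@Lb.d (nat_lit 8) (nat_lit 512) (nat_lit 130) (@Lb.g g9 (@Lb.g g10 (@Lb.g g11 (@Lb.r r423 (@Lb.r r596 (@Lb.r r682 (@Lb.r r601 (@Lb.d (nat_lit 74) (nat_lit 40) (nat_lit 17) (@Lb.t (@Lb.fp (nat_lit 9) t1149)))))))))))
noncomputable def l15509 : Lb := (@Lb.d (nat_lit 0) (nat_lit 0) (nat_lit 130) (@Lb.g g10 (@Lb.g g11 (@Lb.r r419 (@Lb.r r386 (@Lb.r r101 (@Lb.d (nat_lit 148) (nat_lit 16) (nat_lit 133) (@Lb.fm (nat_lit 3) t1113))))))))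
noncomputable def l15510 : Lb := (@Lb.r r323 (@Lb.d (nat_lit 4) (nat_lit 0) (nat_lit 1) (@Lb.g g8 (@Lb.g g9 (@Lb.g g6 (@Lb.r r387 (@Lb.r r97 (@Lb.d (nat_lit 9) (nat_lit 137) (nat_lit 2) (@Lb.t (@Lb.fm (nat_lit 9) t360))))))))))
noncomputable def l15511 : Lb := (@Lb.d (nat_lit 0) (nat_lit 256) (nat_lit 128) (@Lb.g g10 (@Lb.g g11 (@Lb.r r387 (@Lb.r r402 (@Lb.r r101 (@Lb.d (nat_lit 4) (nat_lit 4) (nat_lit 1) (@Lb.fm (nat_lit 3) t1163))))))))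
noncomputable def l15512 : Lb := (@Lb.d (nat_lit 618) (nat_lit 341) (nat_lit 345) (@Lb.r r1385 (@Lb.r r1320 (@Lb.r r599 (@Lb.g g6 (@Lb.g g5 (@Lb.d (nat_lit 0) (nat_lit 18) (nat_lit 33) (@Lb.r r387 (@Lb.fp (nat_lit 3) t3208)))))))))
noncomputable def l15513 : Lb := (@Lb.d (nat_lit 70) (nat_lit 326) (nat_lit 66) (@Lb.r r264 (@Lb.r r97 (@Lb.r r615 (@Lb.g g6 (@Lb.g g4 (@Lb.d (nat_lit 66) (nat_lit 4) (nat_lit 1) (@Lb.r r387 (@Lb.r r25 (@Lb.fp (nat_lit 3) t594))))))))))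
noncomputable def l15514 : Lb := (@Lb.d (nat_lit 0) (nat_lit 550) (nat_lit 133) (@Lb.g g8 (@Lb.g g9 (@Lb.g g10 (@Lb.g g11 (@Lb.r r387 (@Lb.r r1666 (@Lb.r r1561 (@Lb.r r24 (@Lb.d (nat_lit 33) (nat_lit 0) (nat_lit 133) (@Lb.fp (nat_lit 9) t3209)))))))))))
noncomputable def l15515 : Lb := (@Lb.d (nat_lit 2) (nat_lit 256) (nat_lit 64) (@Lb.g g8 (@Lb.g g11 (@Lb.r r2450 (@Lb.r r2659 (@Lb.r r1633 (@Lb.r r24 (@Lb.d (nat_lit 5) (nat_lit 153) (nat_lit 66) (@Lb.fm (nat_lit 3) t918)))))))))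
noncomputable def l15516 : Lb := (@Lb.d (nat_lit 582) (nat_lit 672) (nat_lit 324) (@Lb.r r2645 (@Lb.r r1316 (@Lb.r r603 (@Lb.g g6 (@Lb.g g5 (@Lb.d (nat_lit 4) (nat_lit 17) (nat_lit 33) (@Lb.r r387 (@Lb.fp (nat_lit 3) t3019)))))))))
noncomputable def l15517 : Lb := (@Lb.r r21 (@Lb.d (nat_lit 146) (nat_lit 512) (nat_lit 133) (@Lb.g g8 (@Lb.g g10 (@Lb.g g11 (@Lb.r r2465 (@Lb.r r2391 (@Lb.r r1370 (@Lb.r r1156 (@Lb.d (nat_lit 33) (nat_lit 38) (nat_lit 406) (@Lb.t (@Lb.fp (nat_lit 9) t3210))))))))))))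
noncomputable def l15518 : Lb := (@Lb.d (nat_lit 618) (nat_lit 90) (nat_lit 346) (@Lb.r r1385 (@Lb.r r1320 (@Lb.r r599 (@Lb.g g6 (@Lb.g g5 (@Lb.d (nat_lit 0) (nat_lit 18) (nat_lit 33) (@Lb.r r387 (@Lb.fp (nat_lit 3) t3211)))))))))
noncomputable def l15519 : Lb := (@Lb.d (nat_lit 2) (nat_lit 256) (nat_lit 64) (@Lb.g g8 (@Lb.g g11 (@Lb.r r2450 (@Lb.r r2659 (@Lb.r r1633 (@Lb.r r24 (@Lb.d (nat_lit 5) (nat_lit 90) (nat_lit 66) (@Lb.fm (nat_lit 3) t918)))))))))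
noncomputable def l15520 : Lb := (@Lb.d (nat_lit 0) (nat_lit 256) (nat_lit 66) (@Lb.g g10 (@Lb.g g11 (@Lb.r r2726 (@Lb.r r1368 (@Lb.r r2567 (@Lb.r r289 (@Lb.d (nat_lit 648) (nat_lit 130) (nat_lit 64) (@Lb.fm (nat_lit 3) t1412)))))))))
noncomputable def l15521 : Lb := (@Lb.d (nat_lit 0) (nat_lit 294) (nat_lit 133) (@Lb.g g8 (@Lb.g g9 (@Lb.g g10 (@Lb.g g11 (@Lb.r r387 (@Lb.r r1666 (@Lb.r r1561 (@Lb.r r24 (@Lb.d (nat_lit 34) (nat_lit 0) (nat_lit 133) (@Lb.fp (nat_lit 9) t2504)))))))))))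
noncomputable def l15522 : Lb := (@Lb.d (nat_lit 0) (nat_lit 550) (nat_lit 133) (@Lb.g g8 (@Lb.g g9 (@Lb.g g10 (@Lb.g g11 (@Lb.r r387 (@Lb.r r1666 (@Lb.r r1561 (@Lb.r r24 (@Lb.d (nat_lit 41) (nat_lit 2) (nat_lit 133) (@Lb.fp (nat_lit 9) t2504)))))))))))
noncomputable def l15523 : Lb := (@Lb.r r322 (@Lb.d (nat_lit 0) (nat_lit 272) (nat_lit 648) (@Lb.g g8 (@Lb.g g9 (@Lb.g g7 (@Lb.r r682 (@Lb.r r2133 (@Lb.r r24 (@Lb.d (nat_lit 256) (nat_lit 73) (nat_lit 148) (@Lb.t (@Lb.fp (nat_lit 9) t378)))))))))))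
noncomputable def l15524 : Lb := (@Lb.r r323 (@Lb.d (nat_lit 8) (nat_lit 258) (nat_lit 2) (@Lb.g g9 (@Lb.g g10 (@Lb.r r354 (@Lb.r r387 (@Lb.d (nat_lit 2) (nat_lit 144) (nat_lit 266) (@Lb.fm (nat_lit 3) t51))))))))
noncomputable def l15525 : Lb := (@Lb.d (nat_lit 128) (nat_lit 258) (nat_lit 64) (@Lb.g g9 (@Lb.g g10 (@Lb.g g11 (@Lb.r r328 (@Lb.r r678 (@Lb.r r1681 (@Lb.r r1555 (@Lb.d (nat_lit 2) (nat_lit 2) (nat_lit 6) (@Lb.t (@Lb.fp (nat_lit 9) t210)))))))))))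
noncomputable def l15526 : Lb := (@Lb.d (nat_lit 32) (nat_lit 520) (nat_lit 64) (@Lb.g g10 (@Lb.g g11 (@Lb.r r360 (@Lb.r r663 (@Lb.r r1369 (@Lb.r r2726 (@Lb.d (nat_lit 162) (nat_lit 38) (nat_lit 657) (@Lb.fp (nat_lit 3) t210)))))))))
noncomputable def l15527 : Lb := (@Lb.d (nat_lit 9) (nat_lit 513) (nat_lit 2) (@Lb.g g8 (@Lb.g g9 (@Lb.g g10 (@Lb.r r683 (@Lb.r r2666 (@Lb.r r1572 (@Lb.r r37 (@Lb.d (nat_lit 548) (nat_lit 96) (nat_lit 641) (@Lb.t (@Lb.fm (nat_lit 9) t468)))))))))))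
noncomputable def l15528 : Lb := (@Lb.d (nat_lit 0) (nat_lit 516) (nat_lit 74) (@Lb.g g9 (@Lb.g g10 (@Lb.g g11 (@Lb.r r2691 (@Lb.r r1442 (@Lb.r r1313 (@Lb.r r24 (@Lb.d (nat_lit 10) (nat_lit 145) (nat_lit 680) (@Lb.t (@Lb.fm (nat_lit 9) t1256)))))))))))
noncomputable def l15529 : Lb := (@Lb.d (nat_lit 8) (nat_lit 6) (nat_lit 128) (@Lb.g g8 (@Lb.g g9 (@Lb.g g10 (@Lb.g g11 (@Lb.r r1642 (@Lb.r r612 (@Lb.r r295 (@Lb.r r1313 (@Lb.r r1060 (@Lb.d (nat_lit 2) (nat_lit 162) (nat_lit 345) (@Lb.fm (nat_lit 9) t901))))))))))))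
noncomputable def l15530 : Lb := (@Lb.d (nat_lit 2) (nat_lit 516) (nat_lit 128) (@Lb.g g8 (@Lb.g g9 (@Lb.g g10 (@Lb.g g11 (@Lb.r r427 (@Lb.r r424 (@Lb.r r106 (@Lb.r r97 (@Lb.d (nat_lit 9) (nat_lit 9) (nat_lit 17) (@Lb.fp (nat_lit 9) t599)))))))))))
noncomputable def l15531 : Lb := (@Lb.d (nat_lit 2) (nat_lit 521) (nat_lit 72) (@Lb.g g8 (@Lb.g g9 (@Lb.g g10 (@Lb.g g11 (@Lb.r r1699 (@Lb.r r664 (@Lb.r r346 (@Lb.r r2585 (@Lb.d (nat_lit 408) (nat_lit 162) (nat_lit 72) (@Lb.fp (nat_lit 9) t3049)))))))))))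
noncomputable def l15532 : Lb := (@Lb.r r331 (@Lb.d (nat_lit 673) (nat_lit 2) (nat_lit 2) (@Lb.g g8 (@Lb.g g9 (@Lb.g g10 (@Lb.r r362 (@Lb.r r1411 (@Lb.r r25 (@Lb.d (nat_lit 2) (nat_lit 164) (nat_lit 616) (@Lb.t (@Lb.fm (nat_lit 9) t394)))))))))))
noncomputable def l15533 : Lb := (@Lb.r r331 (@Lb.d (nat_lit 673) (nat_lit 258) (nat_lit 2) (@Lb.g g8 (@Lb.g g9 (@Lb.g g10 (@Lb.r r362 (@Lb.r r1411 (@Lb.r r25 (@Lb.d (nat_lit 2) (nat_lit 162) (nat_lit 618) (@Lb.t (@Lb.fm (nat_lit 9) t394)))))))))))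
noncomputable def l15534 : Lb := (@Lb.r r2069 (@Lb.r r1291 (@Lb.d (nat_lit 134) (nat_lit 0) (nat_lit 0) (@Lb.g g4 (@Lb.d (nat_lit 1) (nat_lit 128) (nat_lit 256) (@Lb.t (@Lb.fm (nat_lit 3) t3212)))))))
noncomputable def l15535 : Lb := (@Lb.r r331 (@Lb.d (nat_lit 166) (nat_lit 256) (nat_lit 2) (@Lb.g g8 (@Lb.g g9 (@Lb.g g10 (@Lb.r r1433 (@Lb.r r2343 (@Lb.r r1604 (@Lb.r r1098 (@Lb.d (nat_lit 337) (nat_lit 138) (nat_lit 136) (@Lb.t (@Lb.fm (nat_lit 9) t1039))))))))))))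
noncomputable def l15536 : Lb := (@Lb.r r338 (@Lb.d (nat_lit 2) (nat_lit 418) (nat_lit 128) (@Lb.g g8 (@Lb.g g9 (@Lb.g g11 (@Lb.r r535 (@Lb.r r420 (@Lb.r r390 (@Lb.d (nat_lit 4) (nat_lit 90) (nat_lit 530) (@Lb.t (@Lb.fm (nat_lit 9) t2619)))))))))))
noncomputable def l15537 : Lb := (@Lb.r r331 (@Lb.d (nat_lit 42) (nat_lit 257) (nat_lit 2) (@Lb.g g8 (@Lb.g g9 (@Lb.g g10 (@Lb.r r2666 (@Lb.r r1641 (@Lb.r r1707 (@Lb.r r660 (@Lb.d (nat_lit 673) (nat_lit 68) (nat_lit 362) (@Lb.t (@Lb.fm (nat_lit 9) t3030))))))))))))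
noncomputable def l15538 : Lb := (@Lb.r r21 (@Lb.r r267 (@Lb.d (nat_lit 645) (nat_lit 256) (nat_lit 0) (@Lb.g g8 (@Lb.r r263 (@Lb.r r25 (@Lb.d (nat_lit 329) (nat_lit 0) (nat_lit 0) (@Lb.t (@Lb.fp (nat_lit 3) t2688)))))))))
noncomputable def l15539 : Lb := (@Lb.d (nat_lit 2) (nat_lit 9) (nat_lit 72) (@Lb.g g8 (@Lb.g g9 (@Lb.g g10 (@Lb.g g11 (@Lb.r r1699 (@Lb.r r664 (@Lb.r r346 (@Lb.r r2585 (@Lb.d (nat_lit 408) (nat_lit 169) (nat_lit 74) (@Lb.fp (nat_lit 9) t3049)))))))))))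
noncomputable def l15540 : Lb := (@Lb.d (nat_lit 389) (nat_lit 128) (nat_lit 256) (@Lb.r r2069 (@Lb.r r1291 (@Lb.g g4 (@Lb.d (nat_lit 1) (nat_lit 0) (nat_lit 0) (@Lb.t (@Lb.fm (nat_lit 3) t3212)))))))
noncomputable def l15541 : Lb := (@Lb.d (nat_lit 128) (nat_lit 2) (nat_lit 130) (@Lb.g g8 (@Lb.g g9 (@Lb.g g10 (@Lb.g g11 (@Lb.r r2410 (@Lb.r r1411 (@Lb.r r409 (@Lb.r r388 (@Lb.d (nat_lit 98) (nat_lit 10) (nat_lit 137) (@Lb.fp (nat_lit 9) t394)))))))))))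
noncomputable def l15542 : Lb := (@Lb.d (nat_lit 2) (nat_lit 0) (nat_lit 0) (@Lb.g g8 (@Lb.r r1045 (@Lb.r r36 (@Lb.d (nat_lit 513) (nat_lit 66) (nat_lit 0) (@Lb.t (@Lb.fp (nat_lit 3) t2)))))))
noncomputable def l15543 : Lb := (@Lb.r r323 (@Lb.d (nat_lit 2) (nat_lit 2) (nat_lit 0) (@Lb.g g8 (@Lb.g g9 (@Lb.g g10 (@Lb.r r427 (@Lb.r r106 (@Lb.r r25 (@Lb.d (nat_lit 4) (nat_lit 8) (nat_lit 2) (@Lb.t (@Lb.fm (nat_lit 9) t51)))))))))))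
noncomputable def l15544 : Lb := (@Lb.d (nat_lit 581) (nat_lit 0) (nat_lit 586) (@Lb.r r1287 (@Lb.r r2632 (@Lb.r r1174 (@Lb.g g7 (@Lb.g g6 (@Lb.g g9 (@Lb.d (nat_lit 4) (nat_lit 25) (nat_lit 128) (@Lb.r r36 (@Lb.t (@Lb.fm (nat_lit 9) t320)))))))))))
noncomputable def l15545 : Lb := (@Lb.d (nat_lit 513) (nat_lit 512) (nat_lit 80) (@Lb.r r154 (@Lb.r r660 (@Lb.r r663 (@Lb.r r353 (@Lb.g g7 (@Lb.g g4 (@Lb.d (nat_lit 6) (nat_lit 0) (nat_lit 128) (@Lb.fp (nat_lit 3) t334)))))))))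
noncomputable def l15546 : Lb := (@Lb.d (nat_lit 581) (nat_lit 256) (nat_lit 517) (@Lb.r r1287 (@Lb.r r2628 (@Lb.r r1178 (@Lb.g g7 (@Lb.g g6 (@Lb.g g9 (@Lb.g g4 (@Lb.d (nat_lit 6) (nat_lit 26) (nat_lit 128) (@Lb.fp (nat_lit 9) t524))))))))))
noncomputable def l15547 : Lb := (@Lb.r r323 (@Lb.d (nat_lit 2) (nat_lit 514) (nat_lit 0) (@Lb.g g8 (@Lb.g g9 (@Lb.g g10 (@Lb.r r427 (@Lb.r r106 (@Lb.r r25 (@Lb.d (nat_lit 4) (nat_lit 1) (nat_lit 0) (@Lb.t (@Lb.fm (nat_lit 9) t51)))))))))))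
noncomputable def l15548 : Lb := (@Lb.d (nat_lit 34) (nat_lit 513) (nat_lit 72) (@Lb.g g8 (@Lb.g g9 (@Lb.g g11 (@Lb.r r2134 (@Lb.r r2457 (@Lb.r r2343 (@Lb.r r1540 (@Lb.d (nat_lit 386) (nat_lit 66) (nat_lit 105) (@Lb.t (@Lb.fm (nat_lit 9) t2)))))))))))
noncomputable def l15549 : Lb := (@Lb.d (nat_lit 656) (nat_lit 522) (nat_lit 598) (@Lb.r r2200 (@Lb.r r101 (@Lb.r r386 (@Lb.r r1347 (@Lb.g g7 (@Lb.g g6 (@Lb.d (nat_lit 0) (nat_lit 0) (nat_lit 65) (@Lb.fp (nat_lit 3) t1666)))))))))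
noncomputable def l15550 : Lb := (@Lb.d (nat_lit 0) (nat_lit 266) (nat_lit 0) (@Lb.g g8 (@Lb.g g9 (@Lb.d (nat_lit 282) (nat_lit 2) (nat_lit 32) (@Lb.fm (nat_lit 3) t743)))))
noncomputable def l15551 : Lb := (@Lb.d (nat_lit 128) (nat_lit 266) (nat_lit 64) (@Lb.g g9 (@Lb.g g11 (@Lb.r r90 (@Lb.r r2136 (@Lb.r r2453 (@Lb.r r2339 (@Lb.d (nat_lit 356) (nat_lit 162) (nat_lit 169) (@Lb.fp (nat_lit 3) t2)))))))))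
noncomputable def l15552 : Lb := (@Lb.r r90 (@Lb.r r283 (@Lb.d (nat_lit 406) (nat_lit 264) (nat_lit 0) (@Lb.g g4 (@Lb.g g9 (@Lb.r r146 (@Lb.r r357 (@Lb.r r2459 (@Lb.d (nat_lit 8) (nat_lit 80) (nat_lit 401) (@Lb.fp (nat_lit 3) t394))))))))))
noncomputable def l15553 : Lb := (@Lb.r r323 (@Lb.d (nat_lit 128) (nat_lit 521) (nat_lit 1) (@Lb.g g8 (@Lb.g g9 (@Lb.g g10 (@Lb.r r1639 (@Lb.r r2193 (@Lb.r r2642 (@Lb.r r72 (@Lb.d (nat_lit 41) (nat_lit 37) (nat_lit 258) (@Lb.t (@Lb.fm (nat_lit 9) t394))))))))))))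
noncomputable def l15554 : Lb := (@Lb.d (nat_lit 4) (nat_lit 258) (nat_lit 64) (@Lb.g g8 (@Lb.g g9 (@Lb.g g10 (@Lb.g g11 (@Lb.r r1642 (@Lb.r r1049 (@Lb.d (nat_lit 522) (nat_lit 89) (nat_lit 130) (@Lb.fp (nat_lit 9) t71)))))))))
noncomputable def l15555 : Lb := (@Lb.d (nat_lit 656) (nat_lit 522) (nat_lit 581) (@Lb.r r2200 (@Lb.r r101 (@Lb.r r386 (@Lb.r r1347 (@Lb.g g7 (@Lb.g g6 (@Lb.d (nat_lit 0) (nat_lit 0) (nat_lit 65) (@Lb.fp (nat_lit 3) t1666)))))))))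
noncomputable def l15556 : Lb := (@Lb.r r82 (@Lb.r r275 (@Lb.d (nat_lit 32) (nat_lit 130) (nat_lit 0) (@Lb.g g8 (@Lb.g g9 (@Lb.r r150 (@Lb.r r340 (@Lb.r r411 (@Lb.d (nat_lit 0) (nat_lit 136) (nat_lit 672) (@Lb.fp (nat_lit 3) t898))))))))))
noncomputable def l15557 : Lb := (@Lb.d (nat_lit 4) (nat_lit 514) (nat_lit 64) (@Lb.g g8 (@Lb.g g9 (@Lb.g g10 (@Lb.g g11 (@Lb.r r1642 (@Lb.r r1049 (@Lb.d (nat_lit 521) (nat_lit 89) (nat_lit 130) (@Lb.fp (nat_lit 9) t71)))))))))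
noncomputable def l15558 : Lb := (@Lb.r r21 (@Lb.r r323 (@Lb.d (nat_lit 130) (nat_lit 8) (nat_lit 2) (@Lb.g g8 (@Lb.g g10 (@Lb.r r615 (@Lb.r r97 (@Lb.r r264 (@Lb.d (nat_lit 137) (nat_lit 130) (nat_lit 130) (@Lb.fp (nat_lit 3) t51))))))))))
noncomputable def l15559 : Lb := (@Lb.d (nat_lit 34) (nat_lit 1) (nat_lit 72) (@Lb.g g8 (@Lb.g g9 (@Lb.g g11 (@Lb.r r2134 (@Lb.r r2457 (@Lb.r r2343 (@Lb.r r1540 (@Lb.d (nat_lit 393) (nat_lit 65) (nat_lit 105) (@Lb.t (@Lb.fm (nat_lit 9) t2)))))))))))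
noncomputable def l15560 : Lb := (@Lb.d (nat_lit 2) (nat_lit 514) (nat_lit 130) (@Lb.g g8 (@Lb.g g9 (@Lb.g g10 (@Lb.g g11 (@Lb.r r2691 (@Lb.r r153 (@Lb.r r602 (@Lb.r r2193 (@Lb.d (nat_lit 678) (nat_lit 161) (nat_lit 105) (@Lb.fm (nat_lit 9) t466)))))))))))
noncomputable def l15561 : Lb := (@Lb.d (nat_lit 144) (nat_lit 165) (nat_lit 581) (@Lb.r r2641 (@Lb.r r358 (@Lb.r r2451 (@Lb.g g5 (@Lb.g g4 (@Lb.d (nat_lit 9) (nat_lit 5) (nat_lit 0) (@Lb.fm (nat_lit 3) t3152))))))))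
noncomputable def l15562 : Lb := (@Lb.d (nat_lit 260) (nat_lit 421) (nat_lit 581) (@Lb.r r2645 (@Lb.r r354 (@Lb.r r2455 (@Lb.g g5 (@Lb.g g4 (@Lb.d (nat_lit 9) (nat_lit 4) (nat_lit 0) (@Lb.fm (nat_lit 3) t3152))))))))
noncomputable def l15563 : Lb := (@Lb.r r1045 (@Lb.r r36 (@Lb.d (nat_lit 261) (nat_lit 1) (nat_lit 0) (@Lb.fp (nat_lit 1) t2))))
noncomputable def l15564 : Lb := (@Lb.d (nat_lit 0) (nat_lit 258) (nat_lit 130) (@Lb.g g8 (@Lb.g g9 (@Lb.g g10 (@Lb.g g11 (@Lb.r r610 (@Lb.r r404 (@Lb.r r619 (@Lb.r r97 (@Lb.r r516 (@Lb.d (nat_lit 9) (nat_lit 137) (nat_lit 70) (@Lb.fp (nat_lit 9) t71))))))))))))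
noncomputable def l15565 : Lb := (@Lb.r r82 (@Lb.d (nat_lit 32) (nat_lit 1) (nat_lit 64) (@Lb.g g8 (@Lb.g g9 (@Lb.g g11 (@Lb.r r1350 (@Lb.r r2727 (@Lb.r r665 (@Lb.r r84 (@Lb.d (nat_lit 656) (nat_lit 72) (nat_lit 410) (@Lb.t (@Lb.fp (nat_lit 9) t3213))))))))))))
noncomputable def l15566 : Lb := (@Lb.d (nat_lit 2) (nat_lit 2) (nat_lit 9) (@Lb.g g8 (@Lb.g g9 (@Lb.g g10 (@Lb.g g7 (@Lb.r r386 (@Lb.r r104 (@Lb.r r2153 (@Lb.r r36 (@Lb.d (nat_lit 32) (nat_lit 129) (nat_lit 169) (@Lb.fp (nat_lit 9) t1096)))))))))))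
noncomputable def l15567 : Lb := (@Lb.r r81 (@Lb.d (nat_lit 138) (nat_lit 512) (nat_lit 0) (@Lb.g g4 (@Lb.g g6 (@Lb.r r427 (@Lb.r r2473 (@Lb.r r2468 (@Lb.d (nat_lit 166) (nat_lit 153) (nat_lit 424) (@Lb.fp (nat_lit 3) t428)))))))))
noncomputable def l15568 : Lb := (@Lb.d (nat_lit 360) (nat_lit 69) (nat_lit 592) (@Lb.r r2661 (@Lb.r r1304 (@Lb.r r1362 (@Lb.r r1703 (@Lb.g g7 (@Lb.g g6 (@Lb.g g5 (@Lb.d (nat_lit 4) (nat_lit 1) (nat_lit 134) (@Lb.t (@Lb.fm (nat_lit 9) t1648)))))))))))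
noncomputable def l15569 : Lb := (@Lb.d (nat_lit 2) (nat_lit 544) (nat_lit 1) (@Lb.g g8 (@Lb.g g9 (@Lb.g g10 (@Lb.r r426 (@Lb.r r1444 (@Lb.r r2651 (@Lb.r r2453 (@Lb.d (nat_lit 101) (nat_lit 154) (nat_lit 658) (@Lb.t (@Lb.fm (nat_lit 9) t282)))))))))))
noncomputable def l15570 : Lb := (@Lb.d (nat_lit 2) (nat_lit 258) (nat_lit 9) (@Lb.g g8 (@Lb.g g9 (@Lb.g g10 (@Lb.g g7 (@Lb.r r386 (@Lb.r r97 (@Lb.d (nat_lit 2) (nat_lit 138) (nat_lit 137) (@Lb.fm (nat_lit 9) t126)))))))))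
noncomputable def l15571 : Lb := (@Lb.d (nat_lit 0) (nat_lit 514) (nat_lit 9) (@Lb.g g8 (@Lb.g g9 (@Lb.g g10 (@Lb.g g7 (@Lb.r r386 (@Lb.r r97 (@Lb.d (nat_lit 0) (nat_lit 138) (nat_lit 137) (@Lb.fm (nat_lit 9) t126)))))))))
noncomputable def l15572 : Lb := (@Lb.d (nat_lit 138) (nat_lit 262) (nat_lit 2) (@Lb.g g8 (@Lb.g g9 (@Lb.g g10 (@Lb.r r343 (@Lb.r r1689 (@Lb.r r1178 (@Lb.r r2196 (@Lb.d (nat_lit 85) (nat_lit 138) (nat_lit 392) (@Lb.t (@Lb.fp (nat_lit 9) t2491)))))))))))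
noncomputable def l15573 : Lb := (@Lb.r r323 (@Lb.d (nat_lit 138) (nat_lit 514) (nat_lit 2) (@Lb.g g8 (@Lb.g g9 (@Lb.g g10 (@Lb.r r1607 (@Lb.r r1169 (@Lb.r r2450 (@Lb.r r72 (@Lb.d (nat_lit 41) (nat_lit 25) (nat_lit 153) (@Lb.t (@Lb.fp (nat_lit 9) t790))))))))))))
noncomputable def l15574 : Lb := (@Lb.d (nat_lit 4) (nat_lit 530) (nat_lit 10) (@Lb.r r657 (@Lb.r r666 (@Lb.r r420 (@Lb.r r347 (@Lb.g g7 (@Lb.g g6 (@Lb.g g5 (@Lb.d (nat_lit 8) (nat_lit 1) (nat_lit 134) (@Lb.t (@Lb.fm (nat_lit 9) t68)))))))))))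
noncomputable def l15575 : Lb := (@Lb.d (nat_lit 2) (nat_lit 514) (nat_lit 0) (@Lb.g g8 (@Lb.g g9 (@Lb.r r322 (@Lb.r r1667 (@Lb.r r578 (@Lb.r r25 (@Lb.d (nat_lit 9) (nat_lit 146) (nat_lit 266) (@Lb.fp (nat_lit 3) t210)))))))))
noncomputable def l15576 : Lb := (@Lb.d (nat_lit 664) (nat_lit 165) (nat_lit 72) (@Lb.r r8 (@Lb.r r101 (@Lb.r r386 (@Lb.r r2395 (@Lb.g g7 (@Lb.g g6 (@Lb.d (nat_lit 0) (nat_lit 0) (nat_lit 65) (@Lb.fp (nat_lit 3) t109)))))))))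
noncomputable def l15577 : Lb := (@Lb.d (nat_lit 2) (nat_lit 521) (nat_lit 1) (@Lb.g g8 (@Lb.g g9 (@Lb.g g10 (@Lb.r r2723 (@Lb.r r1634 (@Lb.r r1553 (@Lb.d (nat_lit 1) (nat_lit 105) (nat_lit 417) (@Lb.t (@Lb.fp (nat_lit 9) t1399))))))))))
noncomputable def l15578 : Lb := (@Lb.d (nat_lit 2) (nat_lit 512) (nat_lit 130) (@Lb.g g8 (@Lb.g g9 (@Lb.g g10 (@Lb.g g11 (@Lb.r r586 (@Lb.r r405 (@Lb.r r611 (@Lb.r r529 (@Lb.d (nat_lit 9) (nat_lit 9) (nat_lit 130) (@Lb.fm (nat_lit 9) t145)))))))))))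
noncomputable def l15579 : Lb := (@Lb.d (nat_lit 2) (nat_lit 2) (nat_lit 130) (@Lb.g g8 (@Lb.g g9 (@Lb.g g10 (@Lb.g g11 (@Lb.r r586 (@Lb.r r405 (@Lb.r r2659 (@Lb.r r2577 (@Lb.d (nat_lit 522) (nat_lit 9) (nat_lit 386) (@Lb.fm (nat_lit 9) t145)))))))))))
noncomputable def l15580 : Lb := (@Lb.d (nat_lit 2) (nat_lit 265) (nat_lit 1) (@Lb.g g8 (@Lb.g g9 (@Lb.g g10 (@Lb.r r2723 (@Lb.r r1634 (@Lb.r r1553 (@Lb.d (nat_lit 2) (nat_lit 105) (nat_lit 417) (@Lb.t (@Lb.fp (nat_lit 9) t1399))))))))))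
noncomputable def l15581 : Lb := (@Lb.d (nat_lit 2) (nat_lit 520) (nat_lit 73) (@Lb.g g8 (@Lb.g g9 (@Lb.g g10 (@Lb.g g11 (@Lb.r r1635 (@Lb.r r610 (@Lb.r r2641 (@Lb.d (nat_lit 2) (nat_lit 34) (nat_lit 153) (@Lb.fm (nat_lit 9) t1397))))))))))
noncomputable def l15582 : Lb := (@Lb.d (nat_lit 96) (nat_lit 37) (nat_lit 101) (@Lb.r r408 (@Lb.r r330 (@Lb.r r343 (@Lb.g g5 (@Lb.g g4 (@Lb.d (nat_lit 18) (nat_lit 4) (nat_lit 0) (@Lb.r r291 (@Lb.r r98 (@Lb.fp (nat_lit 3) t50))))))))))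
noncomputable def l15583 : Lb := (@Lb.r r82 (@Lb.d (nat_lit 9) (nat_lit 393) (nat_lit 64) (@Lb.g g8 (@Lb.g g5 (@Lb.g g11 (@Lb.r r532 (@Lb.r r2311 (@Lb.r r98 (@Lb.r r1540 (@Lb.d (nat_lit 2) (nat_lit 162) (nat_lit 673) (@Lb.t (@Lb.fp (nat_lit 9) t2083))))))))))))
noncomputable def l15584 : Lb := (@Lb.d (nat_lit 8) (nat_lit 33) (nat_lit 0) (@Lb.g g9 (@Lb.r r2331 (@Lb.r r2328 (@Lb.r r2581 (@Lb.r r2114 (@Lb.d (nat_lit 645) (nat_lit 162) (nat_lit 133) (@Lb.t (@Lb.fm (nat_lit 3) t1514)))))))))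
noncomputable def l15585 : Lb := (@Lb.d (nat_lit 409) (nat_lit 676) (nat_lit 294) (@Lb.r r1387 (@Lb.r r1384 (@Lb.r r361 (@Lb.g g7 (@Lb.g g6 (@Lb.d (nat_lit 64) (nat_lit 16) (nat_lit 96) (@Lb.fm (nat_lit 3) t572))))))))
noncomputable def l15586 : Lb := (@Lb.d (nat_lit 0) (nat_lit 1) (nat_lit 66) (@Lb.g g8 (@Lb.g g9 (@Lb.g g10 (@Lb.g g11 (@Lb.r r2713 (@Lb.r r2587 (@Lb.r r386 (@Lb.r r2584 (@Lb.d (nat_lit 585) (nat_lit 2) (nat_lit 393) (@Lb.fm (nat_lit 9) t3214)))))))))))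
noncomputable def l15587 : Lb := (@Lb.r r82 (@Lb.d (nat_lit 9) (nat_lit 649) (nat_lit 64) (@Lb.g g8 (@Lb.g g5 (@Lb.g g11 (@Lb.r r532 (@Lb.r r2311 (@Lb.r r98 (@Lb.r r1540 (@Lb.d (nat_lit 1) (nat_lit 162) (nat_lit 673) (@Lb.t (@Lb.fp (nat_lit 9) t2083))))))))))))
noncomputable def l15588 : Lb := (@Lb.d (nat_lit 40) (nat_lit 544) (nat_lit 2) (@Lb.g g9 (@Lb.g g10 (@Lb.r r72 (@Lb.r r598 (@Lb.r r339 (@Lb.r r2721 (@Lb.d (nat_lit 390) (nat_lit 84) (nat_lit 358) (@Lb.fm (nat_lit 3) t2)))))))))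
noncomputable def l15589 : Lb := (@Lb.r r275 (@Lb.d (nat_lit 5) (nat_lit 32) (nat_lit 2) (@Lb.g g4 (@Lb.g g9 (@Lb.g g10 (@Lb.r r347 (@Lb.r r610 (@Lb.r r673 (@Lb.d (nat_lit 322) (nat_lit 24) (nat_lit 164) (@Lb.t (@Lb.fm (nat_lit 9) t3215)))))))))))
noncomputable def l15590 : Lb := (@Lb.d (nat_lit 32) (nat_lit 512) (nat_lit 137) (@Lb.g g9 (@Lb.g g10 (@Lb.g g11 (@Lb.r r149 (@Lb.r r1380 (@Lb.r r1291 (@Lb.r r594 (@Lb.d (nat_lit 0) (nat_lit 149) (nat_lit 10) (@Lb.t (@Lb.fm (nat_lit 9) t1644)))))))))))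
noncomputable def l15591 : Lb := (@Lb.r r263 (@Lb.d (nat_lit 38) (nat_lit 0) (nat_lit 1) (@Lb.g g8 (@Lb.g g9 (@Lb.g g10 (@Lb.r r683 (@Lb.r r168 (@Lb.r r1130 (@Lb.r r1553 (@Lb.d (nat_lit 662) (nat_lit 84) (nat_lit 88) (@Lb.t (@Lb.fm (nat_lit 9) t47))))))))))))
noncomputable def l15592 : Lb := (@Lb.r r68 (@Lb.r r323 (@Lb.d (nat_lit 0) (nat_lit 4) (nat_lit 34) (@Lb.g g9 (@Lb.g g6 (@Lb.r r1639 (@Lb.r r1557 (@Lb.r r360 (@Lb.d (nat_lit 546) (nat_lit 66) (nat_lit 1) (@Lb.fp (nat_lit 3) t47))))))))))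
noncomputable def l15593 : Lb := (@Lb.r r82 (@Lb.d (nat_lit 5) (nat_lit 42) (nat_lit 64) (@Lb.g g4 (@Lb.g g9 (@Lb.g g11 (@Lb.r r615 (@Lb.r r402 (@Lb.r r601 (@Lb.d (nat_lit 128) (nat_lit 36) (nat_lit 136) (@Lb.t (@Lb.fp (nat_lit 9) t175)))))))))))
noncomputable def l15594 : Lb := (@Lb.d (nat_lit 2) (nat_lit 514) (nat_lit 130) (@Lb.g g8 (@Lb.g g9 (@Lb.g g10 (@Lb.g g11 (@Lb.r r427 (@Lb.r r106 (@Lb.r r25 (@Lb.d (nat_lit 9) (nat_lit 161) (nat_lit 384) (@Lb.fp (nat_lit 9) t51))))))))))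
noncomputable def l15595 : Lb := (@Lb.d (nat_lit 8) (nat_lit 512) (nat_lit 1) (@Lb.g g9 (@Lb.g g10 (@Lb.r r1368 (@Lb.r r1670 (@Lb.r r2129 (@Lb.d (nat_lit 145) (nat_lit 134) (nat_lit 649) (@Lb.fm (nat_lit 3) t1561))))))))
noncomputable def l15596 : Lb := (@Lb.d (nat_lit 362) (nat_lit 516) (nat_lit 645) (@Lb.r r2116 (@Lb.r r1109 (@Lb.r r2474 (@Lb.r r152 (@Lb.g g11 (@Lb.g g6 (@Lb.g g5 (@Lb.g g4 (@Lb.d (nat_lit 24) (nat_lit 1) (nat_lit 6) (@Lb.fm (nat_lit 9) t651)))))))))))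
noncomputable def l15597 : Lb := (@Lb.d (nat_lit 6) (nat_lit 256) (nat_lit 128) (@Lb.g g8 (@Lb.g g11 (@Lb.r r1419 (@Lb.r r1098 (@Lb.r r1049 (@Lb.d (nat_lit 353) (nat_lit 65) (nat_lit 537) (@Lb.fm (nat_lit 3) t284))))))))
noncomputable def l15598 : Lb := (@Lb.d (nat_lit 0) (nat_lit 4) (nat_lit 0) (@Lb.g g9 (@Lb.g g10 (@Lb.r r161 (@Lb.r r418 (@Lb.r r1169 (@Lb.d (nat_lit 0) (nat_lit 73) (nat_lit 426) (@Lb.fm (nat_lit 3) t406))))))))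
noncomputable def l15599 : Lb := (@Lb.d (nat_lit 149) (nat_lit 518) (nat_lit 4) (@Lb.r r21 (@Lb.r r86 (@Lb.r r424 (@Lb.g g11 (@Lb.g g6 (@Lb.g g5 (@Lb.d (nat_lit 0) (nat_lit 8) (nat_lit 5) (@Lb.t (@Lb.fp (nat_lit 9) t61))))))))))
noncomputable def l15600 : Lb := (@Lb.d (nat_lit 0) (nat_lit 258) (nat_lit 0) (@Lb.g g9 (@Lb.r r406 (@Lb.r r97 (@Lb.r r24 (@Lb.d (nat_lit 89) (nat_lit 4) (nat_lit 2) (@Lb.t (@Lb.fm (nat_lit 3) t145))))))))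
noncomputable def l15601 : Lb := (@Lb.d (nat_lit 2) (nat_lit 294) (nat_lit 64) (@Lb.g g8 (@Lb.g g9 (@Lb.g g10 (@Lb.g g11 (@Lb.r r41 (@Lb.r r360 (@Lb.r r327 (@Lb.r r386 (@Lb.r r132 (@Lb.d (nat_lit 145) (nat_lit 10) (nat_lit 69) (@Lb.fm (nat_lit 9) t50))))))))))))
noncomputable def l15602 : Lb := (@Lb.d (nat_lit 0) (nat_lit 0) (nat_lit 136) (@Lb.g g11 (@Lb.d (nat_lit 608) (nat_lit 0) (nat_lit 530) (@Lb.t (@Lb.fp (nat_lit 3) t698)))))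
noncomputable def l15603 : Lb := (@Lb.d (nat_lit 130) (nat_lit 546) (nat_lit 0) (@Lb.g g8 (@Lb.g g9 (@Lb.r r1418 (@Lb.r r583 (@Lb.r r408 (@Lb.r r2085 (@Lb.d (nat_lit 330) (nat_lit 84) (nat_lit 346) (@Lb.fm (nat_lit 3) t643)))))))))
noncomputable def l15604 : Lb := (@Lb.r r82 (@Lb.d (nat_lit 0) (nat_lit 33) (nat_lit 64) (@Lb.g g9 (@Lb.g g11 (@Lb.r r2659 (@Lb.r r386 (@Lb.r r2393 (@Lb.r r24 (@Lb.d (nat_lit 528) (nat_lit 5) (nat_lit 330) (@Lb.fp (nat_lit 3) t3216))))))))))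
noncomputable def l15605 : Lb := (@Lb.r r322 (@Lb.d (nat_lit 0) (nat_lit 512) (nat_lit 136) (@Lb.g g9 (@Lb.g g11 (@Lb.r r1426 (@Lb.r r101 (@Lb.d (nat_lit 0) (nat_lit 128) (nat_lit 128) (@Lb.fm (nat_lit 3) t240))))))))
noncomputable def l15606 : Lb := (@Lb.r r82 (@Lb.d (nat_lit 0) (nat_lit 34) (nat_lit 72) (@Lb.g g9 (@Lb.g g11 (@Lb.r r1426 (@Lb.r r1121 (@Lb.d (nat_lit 0) (nat_lit 68) (nat_lit 130) (@Lb.fm (nat_lit 3) t406))))))))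
noncomputable def l15607 : Lb := (@Lb.d (nat_lit 6) (nat_lit 278) (nat_lit 41) (@Lb.r r293 (@Lb.r r70 (@Lb.r r595 (@Lb.g g6 (@Lb.g g5 (@Lb.g g4 (@Lb.d (nat_lit 1) (nat_lit 16) (nat_lit 1) (@Lb.r r387 (@Lb.t (@Lb.fp (nat_lit 9) t3217)))))))))))
noncomputable def l15608 : Lb := (@Lb.r r82 (@Lb.d (nat_lit 74) (nat_lit 289) (nat_lit 64) (@Lb.g g8 (@Lb.g g9 (@Lb.g g11 (@Lb.r r1705 (@Lb.r r2154 (@Lb.r r356 (@Lb.r r2635 (@Lb.d (nat_lit 289) (nat_lit 86) (nat_lit 513) (@Lb.t (@Lb.fm (nat_lit 9) t3218))))))))))))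
noncomputable def l15609 : Lb := (@Lb.d (nat_lit 548) (nat_lit 577) (nat_lit 1) (@Lb.r r2138 (@Lb.r r2644 (@Lb.r r2391 (@Lb.g g7 (@Lb.g g6 (@Lb.g g5 (@Lb.g g4 (@Lb.d (nat_lit 1) (nat_lit 65) (nat_lit 65) (@Lb.fp (nat_lit 9) t892))))))))))
noncomputable def l15610 : Lb := (@Lb.d (nat_lit 2) (nat_lit 577) (nat_lit 0) (@Lb.g g8 (@Lb.g g5 (@Lb.g g7 (@Lb.r r402 (@Lb.d (nat_lit 2) (nat_lit 17) (nat_lit 64) (@Lb.t (@Lb.fp (nat_lit 9) t71))))))))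
noncomputable def l15611 : Lb := (@Lb.d (nat_lit 138) (nat_lit 280) (nat_lit 1) (@Lb.g g8 (@Lb.g g9 (@Lb.g g10 (@Lb.r r2643 (@Lb.r r358 (@Lb.r r420 (@Lb.r r277 (@Lb.d (nat_lit 65) (nat_lit 86) (nat_lit 534) (@Lb.t (@Lb.fp (nat_lit 9) t3219)))))))))))
noncomputable def l15612 : Lb := (@Lb.d (nat_lit 130) (nat_lit 2) (nat_lit 2) (@Lb.g g8 (@Lb.g g9 (@Lb.g g10 (@Lb.r r263 (@Lb.r r2713 (@Lb.r r2712 (@Lb.r r2122 (@Lb.d (nat_lit 289) (nat_lit 37) (nat_lit 100) (@Lb.t (@Lb.fp (nat_lit 9) t145)))))))))))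
noncomputable def l15613 : Lb := (@Lb.d (nat_lit 658) (nat_lit 0) (nat_lit 593) (@Lb.r r37 (@Lb.r r1350 (@Lb.g g7 (@Lb.g g6 (@Lb.g g4 (@Lb.d (nat_lit 513) (nat_lit 0) (nat_lit 128) (@Lb.r r25 (@Lb.t (@Lb.fm (nat_lit 9) t40))))))))))
noncomputable def l15614 : Lb := (@Lb.d (nat_lit 9) (nat_lit 1) (nat_lit 0) (@Lb.g g8 (@Lb.g g9 (@Lb.g g7 (@Lb.r r2153 (@Lb.r r402 (@Lb.r r2436 (@Lb.d (nat_lit 609) (nat_lit 0) (nat_lit 66) (@Lb.t (@Lb.fp (nat_lit 9) t311))))))))))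
noncomputable def l15615 : Lb := (@Lb.d (nat_lit 8) (nat_lit 258) (nat_lit 130) (@Lb.g g8 (@Lb.g g9 (@Lb.g g10 (@Lb.g g11 (@Lb.r r2691 (@Lb.r r2345 (@Lb.r r360 (@Lb.r r582 (@Lb.r r2180 (@Lb.d (nat_lit 642) (nat_lit 10) (nat_lit 25) (@Lb.fm (nat_lit 9) t242))))))))))))
noncomputable def l15616 : Lb := (@Lb.d (nat_lit 9) (nat_lit 38) (nat_lit 64) (@Lb.g g8 (@Lb.g g9 (@Lb.g g10 (@Lb.g g11 (@Lb.r r682 (@Lb.r r680 (@Lb.r r555 (@Lb.r r537 (@Lb.d (nat_lit 74) (nat_lit 161) (nat_lit 74) (@Lb.fm (nat_lit 9) t125)))))))))))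
noncomputable def l15617 : Lb := (@Lb.d (nat_lit 546) (nat_lit 662) (nat_lit 170) (@Lb.r r24 (@Lb.r r1689 (@Lb.r r1386 (@Lb.g g11 (@Lb.g g6 (@Lb.g g5 (@Lb.g g4 (@Lb.d (nat_lit 1) (nat_lit 41) (nat_lit 389) (@Lb.fp (nat_lit 9) t898))))))))))
noncomputable def l15618 : Lb := (@Lb.d (nat_lit 146) (nat_lit 2) (nat_lit 64) (@Lb.g g8 (@Lb.g g9 (@Lb.g g10 (@Lb.g g11 (@Lb.r r427 (@Lb.r r1602 (@Lb.r r409 (@Lb.r r388 (@Lb.d (nat_lit 105) (nat_lit 96) (nat_lit 74) (@Lb.fp (nat_lit 9) t898)))))))))))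
noncomputable def l15619 : Lb := (@Lb.d (nat_lit 146) (nat_lit 258) (nat_lit 64) (@Lb.g g8 (@Lb.g g9 (@Lb.g g10 (@Lb.g g11 (@Lb.r r427 (@Lb.r r1602 (@Lb.r r409 (@Lb.r r388 (@Lb.d (nat_lit 105) (nat_lit 106) (nat_lit 73) (@Lb.fp (nat_lit 9) t898)))))))))))
noncomputable def l15620 : Lb := (@Lb.r r21 (@Lb.d (nat_lit 538) (nat_lit 256) (nat_lit 74) (@Lb.g g4 (@Lb.g g10 (@Lb.g g11 (@Lb.r r1687 (@Lb.r r2401 (@Lb.r r1170 (@Lb.d (nat_lit 532) (nat_lit 9) (nat_lit 514) (@Lb.t (@Lb.fm (nat_lit 9) t125)))))))))))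
noncomputable def l15621 : Lb := (@Lb.r r1126 (@Lb.r r24 (@Lb.d (nat_lit 586) (nat_lit 512) (nat_lit 512) (@Lb.fm (nat_lit 1) t282))))
noncomputable def l15622 : Lb := (@Lb.d (nat_lit 42) (nat_lit 0) (nat_lit 0) (@Lb.g g8 (@Lb.r r2213 (@Lb.r r1190 (@Lb.r r2388 (@Lb.r r1291 (@Lb.d (nat_lit 2) (nat_lit 148) (nat_lit 646) (@Lb.t (@Lb.fp (nat_lit 3) t322)))))))))
noncomputable def l15623 : Lb := (@Lb.d (nat_lit 0) (nat_lit 260) (nat_lit 0) (@Lb.g g9 (@Lb.g g10 (@Lb.r r679 (@Lb.r r1685 (@Lb.r r2404 (@Lb.r r1610 (@Lb.d (nat_lit 609) (nat_lit 100) (nat_lit 256) (@Lb.fp (nat_lit 3) t3081)))))))))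
noncomputable def l15624 : Lb := (@Lb.d (nat_lit 1) (nat_lit 516) (nat_lit 0) (@Lb.g g8 (@Lb.g g9 (@Lb.g g10 (@Lb.r r683 (@Lb.r r1689 (@Lb.r r1688 (@Lb.r r1610 (@Lb.d (nat_lit 609) (nat_lit 98) (nat_lit 258) (@Lb.t (@Lb.fm (nat_lit 9) t3081)))))))))))
noncomputable def l15625 : Lb := (@Lb.d (nat_lit 1) (nat_lit 4) (nat_lit 0) (@Lb.g g8 (@Lb.g g9 (@Lb.g g10 (@Lb.r r683 (@Lb.r r1689 (@Lb.r r1688 (@Lb.r r1610 (@Lb.d (nat_lit 609) (nat_lit 105) (nat_lit 257) (@Lb.t (@Lb.fm (nat_lit 9) t3081)))))))))))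
noncomputable def l15626 : Lb := (@Lb.d (nat_lit 9) (nat_lit 553) (nat_lit 66) (@Lb.r r82 (@Lb.r r421 (@Lb.g g11 (@Lb.g g6 (@Lb.g g8 (@Lb.d (nat_lit 10) (nat_lit 0) (nat_lit 72) (@Lb.t (@Lb.fm (nat_lit 9) t31)))))))))
noncomputable def l15627 : Lb := (@Lb.d (nat_lit 406) (nat_lit 549) (nat_lit 534) (@Lb.r r2474 (@Lb.r r2216 (@Lb.r r1193 (@Lb.g g11 (@Lb.g g10 (@Lb.d (nat_lit 80) (nat_lit 4) (nat_lit 513) (@Lb.fp (nat_lit 3) t322))))))))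
noncomputable def l15628 : Lb := (@Lb.r r338 (@Lb.d (nat_lit 0) (nat_lit 34) (nat_lit 136) (@Lb.g g4 (@Lb.g g9 (@Lb.g g11 (@Lb.r r1410 (@Lb.d (nat_lit 1) (nat_lit 90) (nat_lit 384) (@Lb.t (@Lb.fm (nat_lit 9) t749)))))))))
noncomputable def l15629 : Lb := (@Lb.d (nat_lit 33) (nat_lit 514) (nat_lit 73) (@Lb.g g8 (@Lb.g g9 (@Lb.g g10 (@Lb.g g11 (@Lb.r r2658 (@Lb.r r1412 (@Lb.r r1611 (@Lb.r r97 (@Lb.d (nat_lit 149) (nat_lit 165) (nat_lit 20) (@Lb.fp (nat_lit 9) t1265)))))))))))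
noncomputable def l15630 : Lb := (@Lb.d (nat_lit 0) (nat_lit 33) (nat_lit 0) (@Lb.g g9 (@Lb.r r292 (@Lb.r r539 (@Lb.r r2178 (@Lb.r r2341 (@Lb.d (nat_lit 90) (nat_lit 98) (nat_lit 677) (@Lb.t (@Lb.fm (nat_lit 3) t287)))))))))
noncomputable def l15631 : Lb := (@Lb.d (nat_lit 10) (nat_lit 553) (nat_lit 8) (@Lb.r r134 (@Lb.r r679 (@Lb.r r344 (@Lb.r r545 (@Lb.g g7 (@Lb.g g5 (@Lb.d (nat_lit 64) (nat_lit 1) (nat_lit 64) (@Lb.fm (nat_lit 3) t381)))))))))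
noncomputable def l15632 : Lb := (@Lb.d (nat_lit 2) (nat_lit 10) (nat_lit 650) (@Lb.r r618 (@Lb.r r341 (@Lb.r r2579 (@Lb.g g8 (@Lb.t (@Lb.fm (nat_lit 3) t3220)))))))
noncomputable def l15633 : Lb := (@Lb.g g4 (@Lb.r r2571 (@Lb.r r154 (@Lb.r r101 (@Lb.r r2564 (@Lb.d (nat_lit 536) (nat_lit 593) (nat_lit 42) (@Lb.t (@Lb.fp (nat_lit 3) t826))))))))
noncomputable def l15634 : Lb := (@Lb.d (nat_lit 137) (nat_lit 0) (nat_lit 0) (@Lb.g g8 (@Lb.r r551 (@Lb.r r2178 (@Lb.r r1557 (@Lb.r r1444 (@Lb.d (nat_lit 362) (nat_lit 166) (nat_lit 272) (@Lb.t (@Lb.fp (nat_lit 3) t1561)))))))))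
noncomputable def l15635 : Lb := (@Lb.r r338 (@Lb.d (nat_lit 1) (nat_lit 546) (nat_lit 136) (@Lb.g g4 (@Lb.g g9 (@Lb.g g11 (@Lb.r r1410 (@Lb.d (nat_lit 1) (nat_lit 90) (nat_lit 384) (@Lb.t (@Lb.fm (nat_lit 9) t749)))))))))
noncomputable def l15636 : Lb := (@Lb.r r331 (@Lb.d (nat_lit 129) (nat_lit 521) (nat_lit 2) (@Lb.g g8 (@Lb.g g9 (@Lb.g g10 (@Lb.r r1698 (@Lb.r r1415 (@Lb.r r1561 (@Lb.r r1540 (@Lb.d (nat_lit 553) (nat_lit 65) (nat_lit 274) (@Lb.t (@Lb.fp (nat_lit 9) t328))))))))))))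
noncomputable def l15637 : Lb := (@Lb.r r612 (@Lb.r r359 (@Lb.r r2178 (@Lb.r r405 (@Lb.r r2596 (@Lb.d (nat_lit 610) (nat_lit 0) (nat_lit 512) (@Lb.fm (nat_lit 1) t1561)))))))
noncomputable def l15638 : Lb := (@Lb.d (nat_lit 8) (nat_lit 265) (nat_lit 72) (@Lb.g g9 (@Lb.g g10 (@Lb.g g11 (@Lb.r r1555 (@Lb.r r1430 (@Lb.r r1624 (@Lb.r r2341 (@Lb.d (nat_lit 584) (nat_lit 154) (nat_lit 322) (@Lb.t (@Lb.fm (nat_lit 9) t1006)))))))))))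
noncomputable def l15639 : Lb := (@Lb.d (nat_lit 137) (nat_lit 512) (nat_lit 0) (@Lb.g g8 (@Lb.r r551 (@Lb.r r2178 (@Lb.r r1557 (@Lb.r r1444 (@Lb.d (nat_lit 361) (nat_lit 161) (nat_lit 274) (@Lb.t (@Lb.fp (nat_lit 3) t1540)))))))))
noncomputable def l15640 : Lb := (@Lb.d (nat_lit 32) (nat_lit 258) (nat_lit 128) (@Lb.g g9 (@Lb.g g10 (@Lb.g g11 (@Lb.r r391 (@Lb.r r584 (@Lb.r r1366 (@Lb.r r145 (@Lb.d (nat_lit 325) (nat_lit 26) (nat_lit 17) (@Lb.t (@Lb.fp (nat_lit 9) t322)))))))))))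
noncomputable def l15641 : Lb := (@Lb.d (nat_lit 132) (nat_lit 512) (nat_lit 130) (@Lb.g g8 (@Lb.g g9 (@Lb.g g10 (@Lb.g g11 (@Lb.r r419 (@Lb.r r1177 (@Lb.r r1626 (@Lb.r r1624 (@Lb.d (nat_lit 616) (nat_lit 34) (nat_lit 649) (@Lb.fm (nat_lit 9) t1250)))))))))))
noncomputable def l15642 : Lb := (@Lb.d (nat_lit 362) (nat_lit 274) (nat_lit 34) (@Lb.r r420 (@Lb.r r97 (@Lb.r r427 (@Lb.r r406 (@Lb.g g7 (@Lb.g g5 (@Lb.g g4 (@Lb.d (nat_lit 17) (nat_lit 1) (nat_lit 128) (@Lb.t (@Lb.fp (nat_lit 9) t451)))))))))))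
noncomputable def l15643 : Lb := (@Lb.d (nat_lit 338) (nat_lit 592) (nat_lit 150) (@Lb.r r1105 (@Lb.r r358 (@Lb.r r85 (@Lb.r r2691 (@Lb.g g7 (@Lb.g g6 (@Lb.g g5 (@Lb.g g4 (@Lb.d (nat_lit 1) (nat_lit 1) (nat_lit 134) (@Lb.fm (nat_lit 9) t3221)))))))))))
noncomputable def l15644 : Lb := (@Lb.r r323 (@Lb.d (nat_lit 2) (nat_lit 514) (nat_lit 2) (@Lb.g g8 (@Lb.g g9 (@Lb.g g10 (@Lb.r r2347 (@Lb.r r2154 (@Lb.r r97 (@Lb.r r24 (@Lb.d (nat_lit 73) (nat_lit 4) (nat_lit 529) (@Lb.t (@Lb.fm (nat_lit 9) t61))))))))))))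
noncomputable def l15645 : Lb := (@Lb.d (nat_lit 89) (nat_lit 2) (nat_lit 261) (@Lb.r r20 (@Lb.r r2393 (@Lb.r r1443 (@Lb.r r2450 (@Lb.g g7 (@Lb.g g5 (@Lb.g g4 (@Lb.d (nat_lit 2) (nat_lit 5) (nat_lit 128) (@Lb.t (@Lb.fm (nat_lit 9) t2714)))))))))))
noncomputable def l15646 : Lb := (@Lb.d (nat_lit 0) (nat_lit 266) (nat_lit 129) (@Lb.g g9 (@Lb.g g10 (@Lb.g g11 (@Lb.r r2721 (@Lb.r r2708 (@Lb.r r1703 (@Lb.r r1622 (@Lb.d (nat_lit 80) (nat_lit 1) (nat_lit 601) (@Lb.t (@Lb.fm (nat_lit 9) t532)))))))))))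
noncomputable def l15647 : Lb := (@Lb.d (nat_lit 0) (nat_lit 402) (nat_lit 320) (@Lb.r r579 (@Lb.r r1362 (@Lb.g g7 (@Lb.g g6 (@Lb.g g5 (@Lb.d (nat_lit 0) (nat_lit 0) (nat_lit 65) (@Lb.t (@Lb.fm (nat_lit 9) t87)))))))))
noncomputable def l15648 : Lb := (@Lb.d (nat_lit 1) (nat_lit 352) (nat_lit 640) (@Lb.r r579 (@Lb.r r1362 (@Lb.g g6 (@Lb.g g5 (@Lb.d (nat_lit 4) (nat_lit 1) (nat_lit 1) (@Lb.fp (nat_lit 3) t607)))))))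
noncomputable def l15649 : Lb := (@Lb.r r21 (@Lb.r r323 (@Lb.d (nat_lit 34) (nat_lit 0) (nat_lit 2) (@Lb.g g8 (@Lb.g g10 (@Lb.r r2475 (@Lb.r r2154 (@Lb.r r97 (@Lb.d (nat_lit 277) (nat_lit 130) (nat_lit 16) (@Lb.fp (nat_lit 3) t525))))))))))
noncomputable def l15650 : Lb := (@Lb.r r21 (@Lb.d (nat_lit 34) (nat_lit 256) (nat_lit 73) (@Lb.g g8 (@Lb.g g10 (@Lb.g g11 (@Lb.r r2666 (@Lb.r r579 (@Lb.r r97 (@Lb.d (nat_lit 421) (nat_lit 154) (nat_lit 613) (@Lb.t (@Lb.fm (nat_lit 9) t525)))))))))))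
noncomputable def l15651 : Lb := (@Lb.r r21 (@Lb.d (nat_lit 34) (nat_lit 512) (nat_lit 73) (@Lb.g g8 (@Lb.g g10 (@Lb.g g11 (@Lb.r r2666 (@Lb.r r579 (@Lb.r r97 (@Lb.d (nat_lit 421) (nat_lit 154) (nat_lit 544) (@Lb.t (@Lb.fm (nat_lit 9) t525)))))))))))
noncomputable def l15652 : Lb := (@Lb.d (nat_lit 8) (nat_lit 264) (nat_lit 137) (@Lb.g g8 (@Lb.g g10 (@Lb.g g11 (@Lb.r r2331 (@Lb.r r1105 (@Lb.r r2662 (@Lb.r r2436 (@Lb.d (nat_lit 98) (nat_lit 66) (nat_lit 665) (@Lb.t (@Lb.fm (nat_lit 9) t632)))))))))))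
noncomputable def l15653 : Lb := (@Lb.r r82 (@Lb.d (nat_lit 2) (nat_lit 98) (nat_lit 64) (@Lb.g g8 (@Lb.g g9 (@Lb.g g11 (@Lb.r r427 (@Lb.r r1416 (@Lb.r r1098 (@Lb.d (nat_lit 261) (nat_lit 128) (nat_lit 154) (@Lb.t (@Lb.fp (nat_lit 9) t573)))))))))))
noncomputable def l15654 : Lb := (@Lb.r r21 (@Lb.d (nat_lit 293) (nat_lit 512) (nat_lit 73) (@Lb.g g8 (@Lb.g g10 (@Lb.g g11 (@Lb.r r2666 (@Lb.r r579 (@Lb.r r97 (@Lb.d (nat_lit 420) (nat_lit 90) (nat_lit 512) (@Lb.t (@Lb.fm (nat_lit 9) t217)))))))))))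
noncomputable def l15655 : Lb := (@Lb.d (nat_lit 0) (nat_lit 256) (nat_lit 73) (@Lb.g g10 (@Lb.g g11 (@Lb.r r642 (@Lb.r r387 (@Lb.d (nat_lit 0) (nat_lit 5) (nat_lit 90) (@Lb.fp (nat_lit 3) t45)))))))
noncomputable def l15656 : Lb := (@Lb.r r21 (@Lb.d (nat_lit 33) (nat_lit 512) (nat_lit 73) (@Lb.g g8 (@Lb.g g10 (@Lb.g g11 (@Lb.r r2715 (@Lb.r r1561 (@Lb.r r616 (@Lb.r r1638 (@Lb.d (nat_lit 408) (nat_lit 9) (nat_lit 346) (@Lb.t (@Lb.fm (nat_lit 9) t594))))))))))))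
noncomputable def l15657 : Lb := (@Lb.d (nat_lit 2) (nat_lit 521) (nat_lit 72) (@Lb.g g8 (@Lb.g g9 (@Lb.g g10 (@Lb.g g11 (@Lb.r r1626 (@Lb.r r579 (@Lb.r r97 (@Lb.r r24 (@Lb.d (nat_lit 641) (nat_lit 101) (nat_lit 584) (@Lb.fm (nat_lit 9) t3222)))))))))))
noncomputable def l15658 : Lb := (@Lb.r r323 (@Lb.d (nat_lit 136) (nat_lit 264) (nat_lit 34) (@Lb.g g8 (@Lb.g g10 (@Lb.r r615 (@Lb.r r533 (@Lb.r r2340 (@Lb.d (nat_lit 329) (nat_lit 105) (nat_lit 534) (@Lb.fp (nat_lit 3) t221)))))))))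
noncomputable def l15659 : Lb := (@Lb.d (nat_lit 262) (nat_lit 673) (nat_lit 64) (@Lb.r r2069 (@Lb.r r2390 (@Lb.g g7 (@Lb.g g6 (@Lb.g g5 (@Lb.g g4 (@Lb.d (nat_lit 8) (nat_lit 1) (nat_lit 128) (@Lb.fp (nat_lit 9) t2354)))))))))
noncomputable def l15660 : Lb := (@Lb.r r323 (@Lb.d (nat_lit 133) (nat_lit 258) (nat_lit 2) (@Lb.g g8 (@Lb.g g9 (@Lb.g g10 (@Lb.r r362 (@Lb.r r361 (@Lb.r r1367 (@Lb.r r2696 (@Lb.d (nat_lit 346) (nat_lit 70) (nat_lit 660) (@Lb.t (@Lb.fm (nat_lit 9) t51))))))))))))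
noncomputable def l15661 : Lb := (@Lb.r r21 (@Lb.r r70 (@Lb.d (nat_lit 129) (nat_lit 512) (nat_lit 64) (@Lb.g g8 (@Lb.g g11 (@Lb.r r1563 (@Lb.r r281 (@Lb.r r2196 (@Lb.r r2182 (@Lb.d (nat_lit 0) (nat_lit 9) (nat_lit 18) (@Lb.fm (nat_lit 3) t125)))))))))))
noncomputable def l15662 : Lb := (@Lb.r r323 (@Lb.d (nat_lit 128) (nat_lit 1) (nat_lit 2) (@Lb.g g8 (@Lb.g g9 (@Lb.g g10 (@Lb.r r362 (@Lb.r r361 (@Lb.r r1431 (@Lb.r r2632 (@Lb.d (nat_lit 361) (nat_lit 70) (nat_lit 640) (@Lb.t (@Lb.fm (nat_lit 9) t71))))))))))))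
noncomputable def l15663 : Lb := (@Lb.r r323 (@Lb.d (nat_lit 4) (nat_lit 289) (nat_lit 2) (@Lb.g g8 (@Lb.g g9 (@Lb.g g10 (@Lb.r r1623 (@Lb.r r74 (@Lb.r r2344 (@Lb.r r2457 (@Lb.d (nat_lit 405) (nat_lit 22) (nat_lit 153) (@Lb.t (@Lb.fm (nat_lit 9) t51))))))))))))
noncomputable def l15664 : Lb := (@Lb.r r323 (@Lb.d (nat_lit 133) (nat_lit 514) (nat_lit 2) (@Lb.g g8 (@Lb.g g9 (@Lb.g g10 (@Lb.r r362 (@Lb.r r361 (@Lb.r r1367 (@Lb.r r2696 (@Lb.d (nat_lit 345) (nat_lit 70) (nat_lit 660) (@Lb.t (@Lb.fm (nat_lit 9) t51))))))))))))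
noncomputable def l15665 : Lb := (@Lb.d (nat_lit 4) (nat_lit 2) (nat_lit 130) (@Lb.g g8 (@Lb.g g9 (@Lb.g g10 (@Lb.g g11 (@Lb.r r363 (@Lb.r r386 (@Lb.r r1121 (@Lb.r r24 (@Lb.d (nat_lit 266) (nat_lit 137) (nat_lit 102) (@Lb.fm (nat_lit 9) t61)))))))))))
noncomputable def l15666 : Lb := (@Lb.d (nat_lit 5) (nat_lit 514) (nat_lit 130) (@Lb.g g8 (@Lb.g g9 (@Lb.g g10 (@Lb.g g11 (@Lb.r r1435 (@Lb.r r2581 (@Lb.r r676 (@Lb.r r1094 (@Lb.r r2180 (@Lb.d (nat_lit 2) (nat_lit 152) (nat_lit 660) (@Lb.fp (nat_lit 9) t51))))))))))))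
noncomputable def l15667 : Lb := (@Lb.d (nat_lit 537) (nat_lit 344) (nat_lit 80) (@Lb.r r1129 (@Lb.r r1636 (@Lb.r r583 (@Lb.g g6 (@Lb.g g5 (@Lb.g g4 (@Lb.d (nat_lit 65) (nat_lit 18) (nat_lit 16) (@Lb.r r387 (@Lb.t (@Lb.fp (nat_lit 9) t1136)))))))))))
noncomputable def l15668 : Lb := (@Lb.d (nat_lit 544) (nat_lit 149) (nat_lit 321) (@Lb.r r2308 (@Lb.r r2178 (@Lb.r r1291 (@Lb.r r292 (@Lb.g g7 (@Lb.g g9 (@Lb.g g4 (@Lb.d (nat_lit 1) (nat_lit 70) (nat_lit 64) (@Lb.t (@Lb.fp (nat_lit 9) t1385)))))))))))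
noncomputable def l15669 : Lb := (@Lb.d (nat_lit 0) (nat_lit 149) (nat_lit 321) (@Lb.r r2308 (@Lb.r r2178 (@Lb.r r1419 (@Lb.r r420 (@Lb.g g7 (@Lb.g g9 (@Lb.g g4 (@Lb.d (nat_lit 6) (nat_lit 68) (nat_lit 0) (@Lb.t (@Lb.fp (nat_lit 9) t417)))))))))))
noncomputable def l15670 : Lb := (@Lb.d (nat_lit 1) (nat_lit 260) (nat_lit 138) (@Lb.g g8 (@Lb.g g9 (@Lb.g g10 (@Lb.g g11 (@Lb.r r683 (@Lb.r r1689 (@Lb.r r1688 (@Lb.r r1610 (@Lb.d (nat_lit 609) (nat_lit 105) (nat_lit 257) (@Lb.fp (nat_lit 9) t3081)))))))))))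
noncomputable def l15671 : Lb := (@Lb.r r323 (@Lb.d (nat_lit 2) (nat_lit 521) (nat_lit 2) (@Lb.g g8 (@Lb.g g9 (@Lb.g g10 (@Lb.r r683 (@Lb.r r170 (@Lb.r r1177 (@Lb.r r1156 (@Lb.d (nat_lit 298) (nat_lit 65) (nat_lit 68) (@Lb.t (@Lb.fm (nat_lit 9) t497))))))))))))
noncomputable def l15672 : Lb := (@Lb.d (nat_lit 2) (nat_lit 520) (nat_lit 4) (@Lb.g g8 (@Lb.g g10 (@Lb.g g11 (@Lb.r r353 (@Lb.r r667 (@Lb.r r664 (@Lb.r r154 (@Lb.d (nat_lit 26) (nat_lit 9) (nat_lit 136) (@Lb.t (@Lb.fm (nat_lit 9) t2)))))))))))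
noncomputable def l15673 : Lb := (@Lb.d (nat_lit 2) (nat_lit 514) (nat_lit 162) (@Lb.g g8 (@Lb.g g9 (@Lb.g g6 (@Lb.g g11 (@Lb.r r612 (@Lb.r r2311 (@Lb.r r97 (@Lb.r r1540 (@Lb.d (nat_lit 274) (nat_lit 105) (nat_lit 673) (@Lb.fp (nat_lit 9) t296)))))))))))
noncomputable def l15674 : Lb := (@Lb.d (nat_lit 2) (nat_lit 520) (nat_lit 4) (@Lb.g g8 (@Lb.g g10 (@Lb.g g11 (@Lb.r r353 (@Lb.r r667 (@Lb.r r664 (@Lb.r r154 (@Lb.d (nat_lit 25) (nat_lit 2) (nat_lit 137) (@Lb.t (@Lb.fm (nat_lit 9) t45)))))))))))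
noncomputable def l15675 : Lb := (@Lb.r r21 (@Lb.d (nat_lit 146) (nat_lit 0) (nat_lit 128) (@Lb.g g8 (@Lb.g g10 (@Lb.g g11 (@Lb.r r387 (@Lb.r r132 (@Lb.r r2454 (@Lb.r r97 (@Lb.d (nat_lit 330) (nat_lit 162) (nat_lit 384) (@Lb.t (@Lb.fm (nat_lit 9) t1156))))))))))))
noncomputable def l15676 : Lb := (@Lb.d (nat_lit 5) (nat_lit 256) (nat_lit 0) (@Lb.g g4 (@Lb.r r2311 (@Lb.d (nat_lit 257) (nat_lit 6) (nat_lit 65) (@Lb.t (@Lb.fm (nat_lit 3) t2264))))))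
noncomputable def l15677 : Lb := (@Lb.r r81 (@Lb.r r323 (@Lb.d (nat_lit 10) (nat_lit 512) (nat_lit 33) (@Lb.g g8 (@Lb.g g6 (@Lb.r r2347 (@Lb.r r149 (@Lb.r r1704 (@Lb.d (nat_lit 100) (nat_lit 22) (nat_lit 537) (@Lb.fm (nat_lit 3) t1006))))))))))
noncomputable def l15678 : Lb := (@Lb.d (nat_lit 2) (nat_lit 256) (nat_lit 64) (@Lb.g g9 (@Lb.g g8 (@Lb.fm (nat_lit 3) t2))))
noncomputable def l15679 : Lb := (@Lb.d (nat_lit 0) (nat_lit 16) (nat_lit 128) (@Lb.g g9 (@Lb.g g10 (@Lb.g g11 (@Lb.r r1619 (@Lb.r r409 (@Lb.r r2136 (@Lb.r r1158 (@Lb.d (nat_lit 642) (nat_lit 5) (nat_lit 160) (@Lb.t (@Lb.fp (nat_lit 9) t2351)))))))))))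
noncomputable def l15680 : Lb := (@Lb.r r82 (@Lb.r r275 (@Lb.d (nat_lit 2) (nat_lit 514) (nat_lit 0) (@Lb.g g8 (@Lb.g g9 (@Lb.r r281 (@Lb.r r291 (@Lb.r r386 (@Lb.d (nat_lit 593) (nat_lit 0) (nat_lit 552) (@Lb.fp (nat_lit 3) t3223))))))))))
noncomputable def l15681 : Lb := (@Lb.d (nat_lit 165) (nat_lit 666) (nat_lit 648) (@Lb.r r1382 (@Lb.r r1109 (@Lb.r r1320 (@Lb.r r2695 (@Lb.g g7 (@Lb.g g6 (@Lb.g g5 (@Lb.d (nat_lit 16) (nat_lit 1) (nat_lit 65) (@Lb.t (@Lb.fp (nat_lit 9) t1499)))))))))))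
noncomputable def l15682 : Lb := (@Lb.d (nat_lit 545) (nat_lit 2) (nat_lit 129) (@Lb.g g8 (@Lb.g g9 (@Lb.g g10 (@Lb.g g11 (@Lb.r r1451 (@Lb.r r409 (@Lb.r r90 (@Lb.r r1169 (@Lb.d (nat_lit 265) (nat_lit 73) (nat_lit 681) (@Lb.fp (nat_lit 9) t1499)))))))))))
noncomputable def l15683 : Lb := (@Lb.d (nat_lit 618) (nat_lit 341) (nat_lit 358) (@Lb.r r2710 (@Lb.r r72 (@Lb.r r659 (@Lb.r r2401 (@Lb.g g7 (@Lb.g g6 (@Lb.d (nat_lit 16) (nat_lit 0) (nat_lit 65) (@Lb.fm (nat_lit 3) t3224)))))))))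
noncomputable def l15684 : Lb := (@Lb.d (nat_lit 0) (nat_lit 289) (nat_lit 0) (@Lb.g g9 (@Lb.r r339 (@Lb.r r2658 (@Lb.r r609 (@Lb.d (nat_lit 0) (nat_lit 41) (nat_lit 650) (@Lb.t (@Lb.fm (nat_lit 3) t1497))))))))
noncomputable def l15685 : Lb := (@Lb.d (nat_lit 2) (nat_lit 9) (nat_lit 129) (@Lb.g g8 (@Lb.g g9 (@Lb.g g10 (@Lb.g g11 (@Lb.r r427 (@Lb.r r106 (@Lb.r r97 (@Lb.d (nat_lit 521) (nat_lit 4) (nat_lit 152) (@Lb.fm (nat_lit 9) t1938))))))))))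
noncomputable def l15686 : Lb := (@Lb.d (nat_lit 5) (nat_lit 265) (nat_lit 0) (@Lb.r r289 (@Lb.r r279 (@Lb.r r584 (@Lb.g g6 (@Lb.g g5 (@Lb.d (nat_lit 20) (nat_lit 1) (nat_lit 1) (@Lb.r r387 (@Lb.fm (nat_lit 3) t74)))))))))
noncomputable def l15687 : Lb := (@Lb.r r21 (@Lb.d (nat_lit 130) (nat_lit 512) (nat_lit 66) (@Lb.g g8 (@Lb.g g10 (@Lb.g g11 (@Lb.r r651 (@Lb.r r357 (@Lb.r r154 (@Lb.r r132 (@Lb.d (nat_lit 88) (nat_lit 25) (nat_lit 8) (@Lb.t (@Lb.fp (nat_lit 9) t68))))))))))))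
noncomputable def l15688 : Lb := (@Lb.d (nat_lit 6) (nat_lit 2) (nat_lit 0) (@Lb.r r289 (@Lb.r r279 (@Lb.r r584 (@Lb.r r326 (@Lb.g g7 (@Lb.g g6 (@Lb.g g5 (@Lb.d (nat_lit 0) (nat_lit 0) (nat_lit 8) (@Lb.t (@Lb.fp (nat_lit 9) t68)))))))))))
noncomputable def l15689 : Lb := (@Lb.d (nat_lit 9) (nat_lit 272) (nat_lit 10) (@Lb.r r657 (@Lb.r r666 (@Lb.r r420 (@Lb.r r347 (@Lb.g g7 (@Lb.g g6 (@Lb.g g5 (@Lb.d (nat_lit 8) (nat_lit 1) (nat_lit 134) (@Lb.t (@Lb.fm (nat_lit 9) t68)))))))))))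
noncomputable def l15690 : Lb := (@Lb.d (nat_lit 6) (nat_lit 516) (nat_lit 1) (@Lb.r r289 (@Lb.r r279 (@Lb.r r584 (@Lb.r r326 (@Lb.g g7 (@Lb.g g6 (@Lb.g g5 (@Lb.d (nat_lit 4) (nat_lit 1) (nat_lit 8) (@Lb.t (@Lb.fp (nat_lit 9) t68)))))))))))
noncomputable def l15691 : Lb := (@Lb.d (nat_lit 5) (nat_lit 516) (nat_lit 2) (@Lb.r r289 (@Lb.r r279 (@Lb.r r584 (@Lb.g g6 (@Lb.g g5 (@Lb.d (nat_lit 20) (nat_lit 1) (nat_lit 1) (@Lb.r r387 (@Lb.fm (nat_lit 3) t68)))))))))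
noncomputable def l15692 : Lb := (@Lb.d (nat_lit 5) (nat_lit 585) (nat_lit 512) (@Lb.r r1313 (@Lb.r r2327 (@Lb.r r584 (@Lb.g g6 (@Lb.g g5 (@Lb.d (nat_lit 16) (nat_lit 1) (nat_lit 1) (@Lb.r r387 (@Lb.fm (nat_lit 3) t728)))))))))
noncomputable def l15693 : Lb := (@Lb.r r21 (@Lb.d (nat_lit 130) (nat_lit 0) (nat_lit 66) (@Lb.g g8 (@Lb.g g10 (@Lb.g g11 (@Lb.r r651 (@Lb.r r357 (@Lb.r r154 (@Lb.r r132 (@Lb.d (nat_lit 82) (nat_lit 26) (nat_lit 8) (@Lb.t (@Lb.fp (nat_lit 9) t74))))))))))))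
noncomputable def l15694 : Lb := (@Lb.d (nat_lit 8) (nat_lit 33) (nat_lit 0) (@Lb.g g9 (@Lb.r r2587 (@Lb.r r1414 (@Lb.r r2580 (@Lb.r r105 (@Lb.d (nat_lit 33) (nat_lit 21) (nat_lit 257) (@Lb.t (@Lb.fm (nat_lit 3) t71)))))))))
noncomputable def l15695 : Lb := (@Lb.r r70 (@Lb.d (nat_lit 161) (nat_lit 389) (nat_lit 128) (@Lb.g g8 (@Lb.g g5 (@Lb.g g11 (@Lb.r r1563 (@Lb.r r2438 (@Lb.r r2648 (@Lb.d (nat_lit 649) (nat_lit 169) (nat_lit 25) (@Lb.t (@Lb.fm (nat_lit 9) t98)))))))))))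
noncomputable def l15696 : Lb := (@Lb.r r24 (@Lb.r r2069 (@Lb.r r36 (@Lb.d (nat_lit 10) (nat_lit 4) (nat_lit 1) (@Lb.fm (nat_lit 1) t45)))))
noncomputable def l15697 : Lb := (@Lb.d (nat_lit 26) (nat_lit 513) (nat_lit 128) (@Lb.g g8 (@Lb.g g9 (@Lb.g g10 (@Lb.g g11 (@Lb.r r427 (@Lb.r r420 (@Lb.r r1126 (@Lb.r r97 (@Lb.r r36 (@Lb.d (nat_lit 265) (nat_lit 85) (nat_lit 152) (@Lb.fm (nat_lit 9) t1436))))))))))))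
noncomputable def l15698 : Lb := (@Lb.d (nat_lit 529) (nat_lit 256) (nat_lit 86) (@Lb.r r20 (@Lb.r r2153 (@Lb.r r386 (@Lb.g g11 (@Lb.g g6 (@Lb.g g5 (@Lb.g g4 (@Lb.d (nat_lit 10) (nat_lit 10) (nat_lit 5) (@Lb.fm (nat_lit 9) t51))))))))))
noncomputable def l15699 : Lb := (@Lb.d (nat_lit 4) (nat_lit 513) (nat_lit 128) (@Lb.g g9 (@Lb.g g11 (@Lb.r r154 (@Lb.r r404 (@Lb.r r1371 (@Lb.r r2705 (@Lb.d (nat_lit 8) (nat_lit 132) (nat_lit 661) (@Lb.fp (nat_lit 3) t71)))))))))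
noncomputable def l15700 : Lb := (@Lb.d (nat_lit 32) (nat_lit 512) (nat_lit 2) (@Lb.r r24 (@Lb.r r85 (@Lb.r r418 (@Lb.r r323 (@Lb.g g7 (@Lb.g g6 (@Lb.g g5 (@Lb.d (nat_lit 0) (nat_lit 2) (nat_lit 64) (@Lb.t (@Lb.fp (nat_lit 9) t50)))))))))))
noncomputable def l15701 : Lb := (@Lb.r r82 (@Lb.d (nat_lit 2) (nat_lit 514) (nat_lit 128) (@Lb.g g8 (@Lb.g g9 (@Lb.g g11 (@Lb.r r299 (@Lb.r r153 (@Lb.r r146 (@Lb.d (nat_lit 33) (nat_lit 169) (nat_lit 385) (@Lb.t (@Lb.fp (nat_lit 9) t3225)))))))))))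
noncomputable def l15702 : Lb := (@Lb.d (nat_lit 2) (nat_lit 8) (nat_lit 0) (@Lb.r r289 (@Lb.r r279 (@Lb.r r584 (@Lb.g g6 (@Lb.g g5 (@Lb.d (nat_lit 20) (nat_lit 1) (nat_lit 1) (@Lb.r r387 (@Lb.fm (nat_lit 3) t74)))))))))
noncomputable def l15703 : Lb := (@Lb.r r21 (@Lb.d (nat_lit 129) (nat_lit 256) (nat_lit 66) (@Lb.g g8 (@Lb.g g10 (@Lb.g g11 (@Lb.r r651 (@Lb.r r357 (@Lb.r r154 (@Lb.r r132 (@Lb.d (nat_lit 88) (nat_lit 25) (nat_lit 134) (@Lb.t (@Lb.fp (nat_lit 9) t68))))))))))))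
noncomputable def l15704 : Lb := (@Lb.d (nat_lit 25) (nat_lit 553) (nat_lit 514) (@Lb.r r105 (@Lb.r r1316 (@Lb.r r1414 (@Lb.r r2587 (@Lb.g g5 (@Lb.d (nat_lit 4) (nat_lit 18) (nat_lit 0) (@Lb.t (@Lb.fp (nat_lit 3) t1096)))))))))
noncomputable def l15705 : Lb := (@Lb.d (nat_lit 0) (nat_lit 512) (nat_lit 130) (@Lb.g g8 (@Lb.g g9 (@Lb.g g10 (@Lb.g g11 (@Lb.r r586 (@Lb.r r580 (@Lb.r r295 (@Lb.r r289 (@Lb.r r36 (@Lb.d (nat_lit 9) (nat_lit 2) (nat_lit 0) (@Lb.fm (nat_lit 9) t51))))))))))))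
noncomputable def l15706 : Lb := (@Lb.d (nat_lit 8) (nat_lit 258) (nat_lit 130) (@Lb.g g8 (@Lb.g g9 (@Lb.g g10 (@Lb.g g11 (@Lb.r r2459 (@Lb.r r2193 (@Lb.r r2646 (@Lb.r r1416 (@Lb.d (nat_lit 149) (nat_lit 8) (nat_lit 393) (@Lb.fm (nat_lit 9) t221)))))))))))
noncomputable def l15707 : Lb := (@Lb.d (nat_lit 40) (nat_lit 262) (nat_lit 74) (@Lb.g g8 (@Lb.g g9 (@Lb.g g10 (@Lb.g g11 (@Lb.r r666 (@Lb.r r545 (@Lb.r r615 (@Lb.r r388 (@Lb.d (nat_lit 164) (nat_lit 32) (nat_lit 74) (@Lb.fm (nat_lit 9) t68)))))))))))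
noncomputable def l15708 : Lb := (@Lb.r r323 (@Lb.d (nat_lit 2) (nat_lit 260) (nat_lit 0) (@Lb.g g8 (@Lb.g g9 (@Lb.g g10 (@Lb.r r401 (@Lb.r r299 (@Lb.r r392 (@Lb.r r74 (@Lb.d (nat_lit 34) (nat_lit 10) (nat_lit 138) (@Lb.t (@Lb.fp (nat_lit 9) t31))))))))))))
noncomputable def l15709 : Lb := (@Lb.r r82 (@Lb.d (nat_lit 34) (nat_lit 34) (nat_lit 64) (@Lb.g g8 (@Lb.g g9 (@Lb.g g11 (@Lb.r r674 (@Lb.r r553 (@Lb.r r616 (@Lb.r r587 (@Lb.d (nat_lit 129) (nat_lit 41) (nat_lit 138) (@Lb.t (@Lb.fm (nat_lit 9) t98))))))))))))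
noncomputable def l15710 : Lb := (@Lb.d (nat_lit 2) (nat_lit 258) (nat_lit 73) (@Lb.g g8 (@Lb.g g9 (@Lb.g g10 (@Lb.g g11 (@Lb.r r2666 (@Lb.r r579 (@Lb.r r97 (@Lb.r r24 (@Lb.d (nat_lit 421) (nat_lit 6) (nat_lit 358) (@Lb.fm (nat_lit 9) t61)))))))))))
noncomputable def l15711 : Lb := (@Lb.d (nat_lit 4) (nat_lit 514) (nat_lit 73) (@Lb.g g9 (@Lb.g g10 (@Lb.g g11 (@Lb.r r423 (@Lb.r r596 (@Lb.r r666 (@Lb.r r337 (@Lb.d (nat_lit 4) (nat_lit 32) (nat_lit 5) (@Lb.t (@Lb.fp (nat_lit 9) t51)))))))))))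
noncomputable def l15712 : Lb := (@Lb.d (nat_lit 8) (nat_lit 521) (nat_lit 129) (@Lb.g g8 (@Lb.g g9 (@Lb.g g10 (@Lb.g g11 (@Lb.r r2691 (@Lb.r r2345 (@Lb.r r360 (@Lb.r r582 (@Lb.r r2180 (@Lb.d (nat_lit 642) (nat_lit 10) (nat_lit 25) (@Lb.fm (nat_lit 9) t50))))))))))))
noncomputable def l15713 : Lb := (@Lb.d (nat_lit 4) (nat_lit 2) (nat_lit 73) (@Lb.g g9 (@Lb.g g10 (@Lb.g g11 (@Lb.r r423 (@Lb.r r596 (@Lb.r r666 (@Lb.r r337 (@Lb.d (nat_lit 6) (nat_lit 161) (nat_lit 5) (@Lb.t (@Lb.fp (nat_lit 9) t51)))))))))))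
noncomputable def l15714 : Lb := (@Lb.d (nat_lit 680) (nat_lit 680) (nat_lit 617) (@Lb.r r2713 (@Lb.r r2459 (@Lb.r r2392 (@Lb.r r1702 (@Lb.g g7 (@Lb.g g6 (@Lb.g g5 (@Lb.d (nat_lit 4) (nat_lit 17) (nat_lit 129) (@Lb.t (@Lb.fp (nat_lit 9) t51)))))))))))
noncomputable def l15715 : Lb := (@Lb.d (nat_lit 37) (nat_lit 512) (nat_lit 130) (@Lb.g g8 (@Lb.g g9 (@Lb.g g10 (@Lb.g g11 (@Lb.r r419 (@Lb.r r2597 (@Lb.r r1668 (@Lb.r r102 (@Lb.d (nat_lit 21) (nat_lit 96) (nat_lit 662) (@Lb.fm (nat_lit 9) t168)))))))))))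
noncomputable def l15716 : Lb := (@Lb.d (nat_lit 273) (nat_lit 266) (nat_lit 154) (@Lb.r r2635 (@Lb.r r2438 (@Lb.r r1620 (@Lb.r r1193 (@Lb.g g5 (@Lb.g g4 (@Lb.d (nat_lit 2) (nat_lit 1) (nat_lit 0) (@Lb.fp (nat_lit 3) t2239)))))))))
noncomputable def l15717 : Lb := (@Lb.r r323 (@Lb.d (nat_lit 0) (nat_lit 0) (nat_lit 2) (@Lb.g g8 (@Lb.g g9 (@Lb.g g10 (@Lb.r r74 (@Lb.r r584 (@Lb.r r299 (@Lb.r r289 (@Lb.d (nat_lit 1) (nat_lit 8) (nat_lit 2) (@Lb.t (@Lb.fm (nat_lit 9) t51))))))))))))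
noncomputable def l15718 : Lb := (@Lb.d (nat_lit 132) (nat_lit 517) (nat_lit 128) (@Lb.g g8 (@Lb.g g9 (@Lb.g g10 (@Lb.g g11 (@Lb.r r1706 (@Lb.r r1411 (@Lb.r r1177 (@Lb.r r1156 (@Lb.d (nat_lit 297) (nat_lit 89) (nat_lit 665) (@Lb.fm (nat_lit 9) t606)))))))))))
noncomputable def l15719 : Lb := (@Lb.d (nat_lit 5) (nat_lit 512) (nat_lit 130) (@Lb.g g8 (@Lb.g g9 (@Lb.g g10 (@Lb.g g11 (@Lb.r r2691 (@Lb.r r2665 (@Lb.r r1686 (@Lb.r r1124 (@Lb.d (nat_lit 656) (nat_lit 10) (nat_lit 345) (@Lb.fm (nat_lit 9) t833)))))))))))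
noncomputable def l15720 : Lb := (@Lb.d (nat_lit 5) (nat_lit 256) (nat_lit 130) (@Lb.g g8 (@Lb.g g9 (@Lb.g g10 (@Lb.g g11 (@Lb.r r2691 (@Lb.r r2665 (@Lb.r r1686 (@Lb.r r1124 (@Lb.d (nat_lit 665) (nat_lit 138) (nat_lit 345) (@Lb.fm (nat_lit 9) t836)))))))))))
noncomputable def l15721 : Lb := (@Lb.d (nat_lit 0) (nat_lit 256) (nat_lit 128) (@Lb.g g8 (@Lb.g g11 (@Lb.r r1114 (@Lb.r r1540 (@Lb.r r1447 (@Lb.r r1317 (@Lb.d (nat_lit 144) (nat_lit 72) (nat_lit 598) (@Lb.fp (nat_lit 3) t1861)))))))))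
noncomputable def l15722 : Lb := (@Lb.d (nat_lit 5) (nat_lit 0) (nat_lit 130) (@Lb.g g8 (@Lb.g g9 (@Lb.g g10 (@Lb.g g11 (@Lb.r r2691 (@Lb.r r2665 (@Lb.r r1686 (@Lb.r r1124 (@Lb.d (nat_lit 658) (nat_lit 10) (nat_lit 345) (@Lb.fm (nat_lit 9) t833)))))))))))
noncomputable def l15723 : Lb := (@Lb.r r82 (@Lb.r r263 (@Lb.d (nat_lit 0) (nat_lit 258) (nat_lit 0) (@Lb.g g8 (@Lb.g g9 (@Lb.r r1561 (@Lb.r r1555 (@Lb.r r410 (@Lb.r r388 (@Lb.d (nat_lit 64) (nat_lit 128) (nat_lit 545) (@Lb.fm (nat_lit 3) t3226)))))))))))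
noncomputable def l15724 : Lb := (@Lb.d (nat_lit 406) (nat_lit 518) (nat_lit 404) (@Lb.r r24 (@Lb.r r101 (@Lb.r r386 (@Lb.g g11 (@Lb.g g6 (@Lb.g g4 (@Lb.d (nat_lit 6) (nat_lit 0) (nat_lit 129) (@Lb.t (@Lb.fp (nat_lit 9) t835))))))))))
noncomputable def l15725 : Lb := (@Lb.d (nat_lit 4) (nat_lit 256) (nat_lit 64) (@Lb.g g8 (@Lb.g g10 (@Lb.g g7 (@Lb.r r402 (@Lb.r r2073 (@Lb.d (nat_lit 646) (nat_lit 82) (nat_lit 522) (@Lb.t (@Lb.fm (nat_lit 9) t3227)))))))))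
noncomputable def l15726 : Lb := (@Lb.d (nat_lit 0) (nat_lit 517) (nat_lit 64) (@Lb.g g8 (@Lb.g g9 (@Lb.g g10 (@Lb.g g7 (@Lb.r r386 (@Lb.r r104 (@Lb.r r1129 (@Lb.r r1060 (@Lb.d (nat_lit 548) (nat_lit 128) (nat_lit 9) (@Lb.fp (nat_lit 9) t3228)))))))))))
noncomputable def l15727 : Lb := (@Lb.d (nat_lit 4) (nat_lit 0) (nat_lit 64) (@Lb.g g8 (@Lb.g g10 (@Lb.g g7 (@Lb.r r402 (@Lb.r r2073 (@Lb.d (nat_lit 644) (nat_lit 82) (nat_lit 522) (@Lb.t (@Lb.fm (nat_lit 9) t3227)))))))))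
noncomputable def l15728 : Lb := (@Lb.d (nat_lit 5) (nat_lit 545) (nat_lit 650) (@Lb.r r1284 (@Lb.r r323 (@Lb.r r658 (@Lb.g g7 (@Lb.g g5 (@Lb.d (nat_lit 0) (nat_lit 129) (nat_lit 64) (@Lb.fp (nat_lit 3) t1502))))))))
noncomputable def l15729 : Lb := (@Lb.r r21 (@Lb.d (nat_lit 144) (nat_lit 256) (nat_lit 5) (@Lb.g g8 (@Lb.g g10 (@Lb.g g11 (@Lb.r r651 (@Lb.r r357 (@Lb.r r154 (@Lb.r r516 (@Lb.d (nat_lit 137) (nat_lit 37) (nat_lit 137) (@Lb.t (@Lb.fp (nat_lit 9) t264))))))))))))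
noncomputable def l15730 : Lb := (@Lb.r r273 (@Lb.r r322 (@Lb.d (nat_lit 0) (nat_lit 544) (nat_lit 64) (@Lb.g g8 (@Lb.g g7 (@Lb.r r280 (@Lb.r r101 (@Lb.r r146 (@Lb.d (nat_lit 534) (nat_lit 1) (nat_lit 545) (@Lb.fm (nat_lit 3) t3229))))))))))
noncomputable def l15731 : Lb := (@Lb.d (nat_lit 5) (nat_lit 289) (nat_lit 650) (@Lb.r r1284 (@Lb.r r323 (@Lb.r r658 (@Lb.g g7 (@Lb.g g5 (@Lb.d (nat_lit 0) (nat_lit 129) (nat_lit 128) (@Lb.fp (nat_lit 3) t1502))))))))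
noncomputable def l15732 : Lb := (@Lb.d (nat_lit 8) (nat_lit 512) (nat_lit 130) (@Lb.g g9 (@Lb.g g10 (@Lb.g g11 (@Lb.r r423 (@Lb.r r600 (@Lb.r r662 (@Lb.r r2393 (@Lb.d (nat_lit 580) (nat_lit 165) (nat_lit 262) (@Lb.t (@Lb.fm (nat_lit 9) t3230)))))))))))
noncomputable def l15733 : Lb := (@Lb.d (nat_lit 169) (nat_lit 258) (nat_lit 73) (@Lb.r r586 (@Lb.r r595 (@Lb.r r405 (@Lb.g g7 (@Lb.g g6 (@Lb.g g4 (@Lb.d (nat_lit 1) (nat_lit 4) (nat_lit 5) (@Lb.t (@Lb.fm (nat_lit 9) t2318))))))))))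
noncomputable def l15734 : Lb := (@Lb.d (nat_lit 145) (nat_lit 324) (nat_lit 72) (@Lb.g g8 (@Lb.g g9 (@Lb.g g10 (@Lb.g g11 (@Lb.r r2731 (@Lb.r r1386 (@Lb.r r1540 (@Lb.d (nat_lit 38) (nat_lit 154) (nat_lit 293) (@Lb.fm (nat_lit 9) t3231))))))))))
noncomputable def l15735 : Lb := (@Lb.d (nat_lit 133) (nat_lit 512) (nat_lit 130) (@Lb.g g8 (@Lb.g g9 (@Lb.g g10 (@Lb.g g11 (@Lb.r r578 (@Lb.r r345 (@Lb.r r359 (@Lb.r r536 (@Lb.d (nat_lit 66) (nat_lit 42) (nat_lit 129) (@Lb.fm (nat_lit 9) t238)))))))))))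
noncomputable def l15736 : Lb := (@Lb.r r263 (@Lb.d (nat_lit 16) (nat_lit 258) (nat_lit 0) (@Lb.g g8 (@Lb.g g9 (@Lb.g g10 (@Lb.r r1689 (@Lb.r r1555 (@Lb.r r74 (@Lb.r r2376 (@Lb.d (nat_lit 417) (nat_lit 0) (nat_lit 552) (@Lb.t (@Lb.fm (nat_lit 9) t123))))))))))))
noncomputable def l15737 : Lb := (@Lb.d (nat_lit 2) (nat_lit 260) (nat_lit 1) (@Lb.g g8 (@Lb.g g9 (@Lb.g g10 (@Lb.r r515 (@Lb.r r657 (@Lb.r r612 (@Lb.r r666 (@Lb.r r132 (@Lb.d (nat_lit 74) (nat_lit 2) (nat_lit 69) (@Lb.t (@Lb.fm (nat_lit 9) t1185))))))))))))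
noncomputable def l15738 : Lb := (@Lb.d (nat_lit 1) (nat_lit 1) (nat_lit 0) (@Lb.g g4 (@Lb.g g5 (@Lb.g g10 (@Lb.r r515 (@Lb.r r537 (@Lb.r r660 (@Lb.r r582 (@Lb.r r132 (@Lb.t (@Lb.fp (nat_lit 9) t242)))))))))))
noncomputable def l15739 : Lb := (@Lb.d (nat_lit 528) (nat_lit 400) (nat_lit 677) (@Lb.r r2129 (@Lb.r r358 (@Lb.r r81 (@Lb.r r1667 (@Lb.g g7 (@Lb.g g6 (@Lb.g g5 (@Lb.g g8 (@Lb.d (nat_lit 548) (nat_lit 6) (nat_lit 134) (@Lb.fp (nat_lit 9) t3232)))))))))))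
noncomputable def l15740 : Lb := (@Lb.d (nat_lit 32) (nat_lit 258) (nat_lit 2) (@Lb.g g9 (@Lb.g g10 (@Lb.r r515 (@Lb.r r149 (@Lb.r r100 (@Lb.r r602 (@Lb.d (nat_lit 105) (nat_lit 6) (nat_lit 64) (@Lb.fp (nat_lit 3) t521)))))))))
noncomputable def l15741 : Lb := (@Lb.r r21 (@Lb.d (nat_lit 2) (nat_lit 512) (nat_lit 73) (@Lb.g g8 (@Lb.g g10 (@Lb.g g11 (@Lb.r r1699 (@Lb.r r2184 (@Lb.r r1610 (@Lb.r r145 (@Lb.d (nat_lit 408) (nat_lit 130) (nat_lit 420) (@Lb.t (@Lb.fm (nat_lit 9) t3180))))))))))))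
noncomputable def l15742 : Lb := (@Lb.d (nat_lit 662) (nat_lit 357) (nat_lit 360) (@Lb.r r673 (@Lb.r r2438 (@Lb.r r2459 (@Lb.g g7 (@Lb.g g6 (@Lb.g g5 (@Lb.g g8 (@Lb.d (nat_lit 0) (nat_lit 10) (nat_lit 64) (@Lb.fm (nat_lit 9) t3233))))))))))
noncomputable def l15743 : Lb := (@Lb.d (nat_lit 656) (nat_lit 512) (nat_lit 390) (@Lb.r r24 (@Lb.r r101 (@Lb.r r386 (@Lb.g g11 (@Lb.g g6 (@Lb.g g5 (@Lb.g g4 (@Lb.d (nat_lit 1) (nat_lit 0) (nat_lit 129) (@Lb.fp (nat_lit 9) t719))))))))))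
noncomputable def l15744 : Lb := (@Lb.d (nat_lit 2) (nat_lit 258) (nat_lit 73) (@Lb.g g8 (@Lb.g g9 (@Lb.g g10 (@Lb.g g11 (@Lb.r r2666 (@Lb.r r579 (@Lb.r r104 (@Lb.r r25 (@Lb.d (nat_lit 402) (nat_lit 10) (nat_lit 358) (@Lb.fp (nat_lit 9) t61)))))))))))
noncomputable def l15745 : Lb := (@Lb.d (nat_lit 0) (nat_lit 262) (nat_lit 128) (@Lb.g g8 (@Lb.g g9 (@Lb.g g10 (@Lb.g g11 (@Lb.r r1602 (@Lb.r r516 (@Lb.r r599 (@Lb.r r297 (@Lb.r r1060 (@Lb.d (nat_lit 680) (nat_lit 72) (nat_lit 134) (@Lb.fp (nat_lit 9) t3234))))))))))))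
noncomputable def l15746 : Lb := (@Lb.d (nat_lit 256) (nat_lit 322) (nat_lit 1) (@Lb.r r21 (@Lb.r r402 (@Lb.r r2631 (@Lb.g g8 (@Lb.d (nat_lit 262) (nat_lit 0) (nat_lit 0) (@Lb.r r267 (@Lb.r r74 (@Lb.r r25 (@Lb.t (@Lb.fp (nat_lit 3) t842)))))))))))
noncomputable def l15747 : Lb := (@Lb.d (nat_lit 0) (nat_lit 6) (nat_lit 128) (@Lb.g g8 (@Lb.g g9 (@Lb.g g10 (@Lb.g g11 (@Lb.r r1602 (@Lb.r r516 (@Lb.r r599 (@Lb.r r297 (@Lb.r r1060 (@Lb.d (nat_lit 673) (nat_lit 73) (nat_lit 134) (@Lb.fp (nat_lit 9) t1700))))))))))))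
noncomputable def l15748 : Lb := (@Lb.d (nat_lit 0) (nat_lit 256) (nat_lit 2) (@Lb.g g10 (@Lb.r r533 (@Lb.r r2711 (@Lb.r r578 (@Lb.r r1096 (@Lb.d (nat_lit 17) (nat_lit 0) (nat_lit 360) (@Lb.t (@Lb.fp (nat_lit 3) t1024)))))))))
noncomputable def l15749 : Lb := (@Lb.r r21 (@Lb.d (nat_lit 657) (nat_lit 256) (nat_lit 128) (@Lb.g g4 (@Lb.g g10 (@Lb.g g11 (@Lb.r r662 (@Lb.r r391 (@Lb.r r97 (@Lb.d (nat_lit 354) (nat_lit 154) (nat_lit 154) (@Lb.t (@Lb.fp (nat_lit 9) t2331)))))))))))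
noncomputable def l15750 : Lb := (@Lb.g g7 (@Lb.r r597 (@Lb.r r1386 (@Lb.r r407 (@Lb.r r1096 (@Lb.d (nat_lit 22) (nat_lit 513) (nat_lit 645) (@Lb.t (@Lb.fp (nat_lit 3) t421))))))))
noncomputable def l15751 : Lb := (@Lb.r r21 (@Lb.d (nat_lit 145) (nat_lit 512) (nat_lit 74) (@Lb.g g8 (@Lb.g g10 (@Lb.g g11 (@Lb.r r1691 (@Lb.r r346 (@Lb.r r1556 (@Lb.r r25 (@Lb.d (nat_lit 98) (nat_lit 162) (nat_lit 533) (@Lb.t (@Lb.fp (nat_lit 9) t283))))))))))))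
noncomputable def l15752 : Lb := (@Lb.d (nat_lit 0) (nat_lit 6) (nat_lit 128) (@Lb.g g8 (@Lb.g g9 (@Lb.g g10 (@Lb.g g11 (@Lb.r r618 (@Lb.r r105 (@Lb.r r340 (@Lb.r r2587 (@Lb.r r2564 (@Lb.d (nat_lit 9) (nat_lit 146) (nat_lit 640) (@Lb.fp (nat_lit 9) t795))))))))))))
noncomputable def l15753 : Lb := (@Lb.d (nat_lit 153) (nat_lit 257) (nat_lit 128) (@Lb.g g8 (@Lb.g g9 (@Lb.g g10 (@Lb.g g11 (@Lb.r r1706 (@Lb.r r1411 (@Lb.r r1188 (@Lb.r r37 (@Lb.d (nat_lit 356) (nat_lit 72) (nat_lit 665) (@Lb.fp (nat_lit 9) t283)))))))))))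
noncomputable def l15754 : Lb := (@Lb.d (nat_lit 152) (nat_lit 1) (nat_lit 74) (@Lb.g g8 (@Lb.g g9 (@Lb.g g10 (@Lb.g g11 (@Lb.r r683 (@Lb.r r2410 (@Lb.r r548 (@Lb.r r37 (@Lb.d (nat_lit 356) (nat_lit 32) (nat_lit 21) (@Lb.fp (nat_lit 9) t283)))))))))))
noncomputable def l15755 : Lb := (@Lb.d (nat_lit 152) (nat_lit 257) (nat_lit 128) (@Lb.g g8 (@Lb.g g9 (@Lb.g g10 (@Lb.g g11 (@Lb.r r683 (@Lb.r r2410 (@Lb.r r548 (@Lb.r r37 (@Lb.d (nat_lit 361) (nat_lit 33) (nat_lit 21) (@Lb.fp (nat_lit 9) t283)))))))))))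
noncomputable def l15756 : Lb := (@Lb.d (nat_lit 10) (nat_lit 2) (nat_lit 128) (@Lb.g g8 (@Lb.g g9 (@Lb.g g10 (@Lb.g g11 (@Lb.r r1579 (@Lb.r r81 (@Lb.r r162 (@Lb.r r145 (@Lb.r r1608 (@Lb.d (nat_lit 97) (nat_lit 0) (nat_lit 537) (@Lb.fm (nat_lit 9) t1165))))))))))))
noncomputable def l15757 : Lb := (@Lb.d (nat_lit 662) (nat_lit 362) (nat_lit 658) (@Lb.r r24 (@Lb.r r2337 (@Lb.r r579 (@Lb.r r1366 (@Lb.g g6 (@Lb.g g5 (@Lb.g g4 (@Lb.d (nat_lit 1) (nat_lit 1) (nat_lit 1) (@Lb.t (@Lb.fm (nat_lit 9) t3235)))))))))))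
noncomputable def l15758 : Lb := (@Lb.d (nat_lit 153) (nat_lit 537) (nat_lit 136) (@Lb.g g8 (@Lb.g g9 (@Lb.g g6 (@Lb.g g11 (@Lb.r r2723 (@Lb.r r36 (@Lb.r r597 (@Lb.r r1060 (@Lb.d (nat_lit 385) (nat_lit 38) (nat_lit 612) (@Lb.fp (nat_lit 9) t1074)))))))))))
noncomputable def l15759 : Lb := (@Lb.d (nat_lit 153) (nat_lit 281) (nat_lit 136) (@Lb.g g8 (@Lb.g g9 (@Lb.g g6 (@Lb.g g11 (@Lb.r r2723 (@Lb.r r36 (@Lb.r r597 (@Lb.r r1060 (@Lb.d (nat_lit 385) (nat_lit 40) (nat_lit 613) (@Lb.fp (nat_lit 9) t1955)))))))))))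
noncomputable def l15760 : Lb := (@Lb.d (nat_lit 160) (nat_lit 596) (nat_lit 593) (@Lb.r r1178 (@Lb.r r1381 (@Lb.r r1176 (@Lb.r r2707 (@Lb.g g7 (@Lb.g g6 (@Lb.g g4 (@Lb.d (nat_lit 0) (nat_lit 4) (nat_lit 134) (@Lb.t (@Lb.fp (nat_lit 9) t1916)))))))))))
noncomputable def l15761 : Lb := (@Lb.d (nat_lit 0) (nat_lit 8) (nat_lit 2) (@Lb.g g10 (@Lb.r r101 (@Lb.r r24 (@Lb.d (nat_lit 546) (nat_lit 5) (nat_lit 82) (@Lb.t (@Lb.fp (nat_lit 3) t145)))))))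
noncomputable def l15762 : Lb := (@Lb.d (nat_lit 592) (nat_lit 36) (nat_lit 148) (@Lb.r r1445 (@Lb.r r2708 (@Lb.r r1442 (@Lb.r r2459 (@Lb.g g7 (@Lb.g g6 (@Lb.g g5 (@Lb.d (nat_lit 0) (nat_lit 1) (nat_lit 65) (@Lb.t (@Lb.fp (nat_lit 9) t3236)))))))))))
noncomputable def l15763 : Lb := (@Lb.d (nat_lit 662) (nat_lit 36) (nat_lit 66) (@Lb.r r1382 (@Lb.r r2724 (@Lb.r r2725 (@Lb.r r423 (@Lb.g g7 (@Lb.g g6 (@Lb.g g5 (@Lb.d (nat_lit 0) (nat_lit 1) (nat_lit 70) (@Lb.t (@Lb.fm (nat_lit 9) t635)))))))))))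
noncomputable def l15764 : Lb := (@Lb.d (nat_lit 0) (nat_lit 594) (nat_lit 405) (@Lb.r r275 (@Lb.r r601 (@Lb.r r24 (@Lb.r r1354 (@Lb.g g7 (@Lb.d (nat_lit 64) (nat_lit 0) (nat_lit 64) (@Lb.t (@Lb.fp (nat_lit 3) t3237)))))))))
noncomputable def l15765 : Lb := (@Lb.d (nat_lit 146) (nat_lit 256) (nat_lit 4) (@Lb.g g8 (@Lb.g g9 (@Lb.g g10 (@Lb.g g11 (@Lb.r r1303 (@Lb.r r2713 (@Lb.r r2650 (@Lb.r r612 (@Lb.d (nat_lit 400) (nat_lit 89) (nat_lit 137) (@Lb.fp (nat_lit 9) t3238)))))))))))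
noncomputable def l15766 : Lb := (@Lb.d (nat_lit 2) (nat_lit 2) (nat_lit 2) (@Lb.g g8 (@Lb.g g9 (@Lb.g g10 (@Lb.g g11 (@Lb.r r2729 (@Lb.r r2475 (@Lb.r r2468 (@Lb.r r2438 (@Lb.d (nat_lit 610) (nat_lit 10) (nat_lit 674) (@Lb.fp (nat_lit 9) t590)))))))))))
noncomputable def l15767 : Lb := (@Lb.d (nat_lit 146) (nat_lit 0) (nat_lit 4) (@Lb.g g8 (@Lb.g g9 (@Lb.g g10 (@Lb.g g11 (@Lb.r r1303 (@Lb.r r2713 (@Lb.r r2650 (@Lb.r r612 (@Lb.d (nat_lit 400) (nat_lit 82) (nat_lit 138) (@Lb.fp (nat_lit 9) t3239)))))))))))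
noncomputable def l15768 : Lb := (@Lb.r r21 (@Lb.d (nat_lit 16) (nat_lit 544) (nat_lit 128) (@Lb.g g8 (@Lb.g g10 (@Lb.g g11 (@Lb.r r1690 (@Lb.r r353 (@Lb.r r2715 (@Lb.r r2596 (@Lb.d (nat_lit 400) (nat_lit 88) (nat_lit 418) (@Lb.t (@Lb.fp (nat_lit 9) t375))))))))))))
noncomputable def l15769 : Lb := (@Lb.d (nat_lit 0) (nat_lit 256) (nat_lit 74) (@Lb.g g10 (@Lb.g g11 (@Lb.r r2626 (@Lb.r r579 (@Lb.r r24 (@Lb.d (nat_lit 330) (nat_lit 98) (nat_lit 150) (@Lb.fm (nat_lit 3) t2327))))))))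
noncomputable def l15770 : Lb := (@Lb.d (nat_lit 130) (nat_lit 258) (nat_lit 66) (@Lb.g g8 (@Lb.g g9 (@Lb.g g10 (@Lb.g g11 (@Lb.r r1315 (@Lb.r r1610 (@Lb.r r1621 (@Lb.r r1636 (@Lb.d (nat_lit 272) (nat_lit 81) (nat_lit 393) (@Lb.fp (nat_lit 9) t1039)))))))))))
noncomputable def l15771 : Lb := (@Lb.r r277 (@Lb.d (nat_lit 130) (nat_lit 544) (nat_lit 386) (@Lb.g g8 (@Lb.g g10 (@Lb.g g11 (@Lb.r r1618 (@Lb.r r2469 (@Lb.r r40 (@Lb.d (nat_lit 598) (nat_lit 134) (nat_lit 640) (@Lb.t (@Lb.fm (nat_lit 9) t1039)))))))))))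
noncomputable def l15772 : Lb := (@Lb.d (nat_lit 32) (nat_lit 264) (nat_lit 2) (@Lb.g g10 (@Lb.r r1380 (@Lb.r r2715 (@Lb.r r357 (@Lb.r r666 (@Lb.d (nat_lit 68) (nat_lit 41) (nat_lit 165) (@Lb.t (@Lb.fm (nat_lit 3) t127)))))))))
noncomputable def l15773 : Lb := (@Lb.r r20 (@Lb.d (nat_lit 160) (nat_lit 258) (nat_lit 130) (@Lb.g g9 (@Lb.g g6 (@Lb.g g11 (@Lb.r r264 (@Lb.r r407 (@Lb.r r529 (@Lb.d (nat_lit 37) (nat_lit 22) (nat_lit 132) (@Lb.t (@Lb.fm (nat_lit 9) t51)))))))))))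
noncomputable def l15774 : Lb := (@Lb.d (nat_lit 0) (nat_lit 522) (nat_lit 0) (@Lb.g g9 (@Lb.r r86 (@Lb.r r424 (@Lb.r r599 (@Lb.r r417 (@Lb.d (nat_lit 320) (nat_lit 36) (nat_lit 518) (@Lb.t (@Lb.fm (nat_lit 3) t716)))))))))
noncomputable def l15775 : Lb := (@Lb.r r70 (@Lb.r r263 (@Lb.d (nat_lit 545) (nat_lit 260) (nat_lit 0) (@Lb.g g4 (@Lb.g g9 (@Lb.r r1315 (@Lb.r r1122 (@Lb.d (nat_lit 1) (nat_lit 68) (nat_lit 33) (@Lb.fp (nat_lit 3) t3240)))))))))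
noncomputable def l15776 : Lb := (@Lb.d (nat_lit 0) (nat_lit 516) (nat_lit 1) (@Lb.g g6 (@Lb.r r101 (@Lb.d (nat_lit 8) (nat_lit 1) (nat_lit 1) (@Lb.t (@Lb.fp (nat_lit 3) t983))))))
noncomputable def l15777 : Lb := (@Lb.d (nat_lit 0) (nat_lit 258) (nat_lit 130) (@Lb.g g8 (@Lb.g g9 (@Lb.g g10 (@Lb.g g11 (@Lb.r r2435 (@Lb.r r2665 (@Lb.r r2450 (@Lb.r r1156 (@Lb.d (nat_lit 289) (nat_lit 73) (nat_lit 658) (@Lb.fp (nat_lit 9) t761)))))))))))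
noncomputable def l15778 : Lb := (@Lb.d (nat_lit 65) (nat_lit 2) (nat_lit 2) (@Lb.g g8 (@Lb.g g9 (@Lb.g g10 (@Lb.g g11 (@Lb.r r162 (@Lb.r r297 (@Lb.r r407 (@Lb.r r1553 (@Lb.r r1108 (@Lb.d (nat_lit 534) (nat_lit 70) (nat_lit 89) (@Lb.fp (nat_lit 9) t3241))))))))))))
noncomputable def l15779 : Lb := (@Lb.d (nat_lit 274) (nat_lit 514) (nat_lit 32) (@Lb.r r1288 (@Lb.r r2375 (@Lb.r r658 (@Lb.g g7 (@Lb.g g6 (@Lb.g g9 (@Lb.d (nat_lit 0) (nat_lit 154) (nat_lit 64) (@Lb.r r36 (@Lb.t (@Lb.fm (nat_lit 9) t4)))))))))))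
noncomputable def l15780 : Lb := (@Lb.d (nat_lit 137) (nat_lit 678) (nat_lit 33) (@Lb.r r2663 (@Lb.r r613 (@Lb.r r20 (@Lb.r r338 (@Lb.g g7 (@Lb.g g6 (@Lb.g g5 (@Lb.d (nat_lit 64) (nat_lit 2) (nat_lit 65) (@Lb.t (@Lb.fp (nat_lit 9) t552)))))))))))
noncomputable def l15781 : Lb := (@Lb.d (nat_lit 160) (nat_lit 512) (nat_lit 130) (@Lb.g g10 (@Lb.g g11 (@Lb.r r97 (@Lb.r r72 (@Lb.r r406 (@Lb.r r2635 (@Lb.d (nat_lit 576) (nat_lit 105) (nat_lit 402) (@Lb.fm (nat_lit 3) t494)))))))))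
noncomputable def l15782 : Lb := (@Lb.r r21 (@Lb.r r323 (@Lb.d (nat_lit 6) (nat_lit 0) (nat_lit 0) (@Lb.g g8 (@Lb.g g10 (@Lb.r r427 (@Lb.r r106 (@Lb.r r25 (@Lb.d (nat_lit 0) (nat_lit 66) (nat_lit 0) (@Lb.fm (nat_lit 3) t51))))))))))
noncomputable def l15783 : Lb := (@Lb.d (nat_lit 160) (nat_lit 0) (nat_lit 130) (@Lb.g g10 (@Lb.g g11 (@Lb.r r97 (@Lb.r r72 (@Lb.r r406 (@Lb.r r2635 (@Lb.d (nat_lit 586) (nat_lit 104) (nat_lit 402) (@Lb.fm (nat_lit 3) t494)))))))))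
noncomputable def l15784 : Lb := (@Lb.r r70 (@Lb.r r263 (@Lb.d (nat_lit 10) (nat_lit 577) (nat_lit 0) (@Lb.g g8 (@Lb.g g9 (@Lb.r r2347 (@Lb.r r2154 (@Lb.r r2084 (@Lb.d (nat_lit 10) (nat_lit 65) (nat_lit 0) (@Lb.fm (nat_lit 3) t350))))))))))
noncomputable def l15785 : Lb := (@Lb.r r21 (@Lb.r r323 (@Lb.d (nat_lit 6) (nat_lit 520) (nat_lit 0) (@Lb.g g8 (@Lb.g g10 (@Lb.r r395 (@Lb.r r101 (@Lb.r r410 (@Lb.d (nat_lit 2) (nat_lit 24) (nat_lit 154) (@Lb.fm (nat_lit 3) t221))))))))))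
noncomputable def l15786 : Lb := (@Lb.d (nat_lit 168) (nat_lit 514) (nat_lit 130) (@Lb.g g9 (@Lb.g g10 (@Lb.g g11 (@Lb.r r72 (@Lb.r r2134 (@Lb.r r1445 (@Lb.r r539 (@Lb.d (nat_lit 9) (nat_lit 66) (nat_lit 34) (@Lb.t (@Lb.fp (nat_lit 9) t210)))))))))))
noncomputable def l15787 : Lb := (@Lb.d (nat_lit 5) (nat_lit 514) (nat_lit 130) (@Lb.g g8 (@Lb.g g9 (@Lb.g g10 (@Lb.g g11 (@Lb.r r1451 (@Lb.r r1321 (@Lb.r r104 (@Lb.r r70 (@Lb.r r132 (@Lb.d (nat_lit 9) (nat_lit 73) (nat_lit 617) (@Lb.fp (nat_lit 9) t119))))))))))))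
noncomputable def l15788 : Lb := (@Lb.d (nat_lit 0) (nat_lit 8) (nat_lit 130) (@Lb.g g8 (@Lb.g g10 (@Lb.g g11 (@Lb.r r545 (@Lb.r r299 (@Lb.r r356 (@Lb.r r154 (@Lb.d (nat_lit 9) (nat_lit 5) (nat_lit 128) (@Lb.t (@Lb.fm (nat_lit 9) t40)))))))))))
noncomputable def l15789 : Lb := (@Lb.d (nat_lit 96) (nat_lit 132) (nat_lit 662) (@Lb.r r1297 (@Lb.r r611 (@Lb.r r545 (@Lb.r r2214 (@Lb.g g7 (@Lb.g g6 (@Lb.g g5 (@Lb.g g8 (@Lb.d (nat_lit 330) (nat_lit 0) (nat_lit 65) (@Lb.fp (nat_lit 9) t800)))))))))))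
noncomputable def l15790 : Lb := (@Lb.d (nat_lit 2) (nat_lit 514) (nat_lit 130) (@Lb.g g8 (@Lb.g g9 (@Lb.g g10 (@Lb.g g11 (@Lb.r r427 (@Lb.r r420 (@Lb.r r102 (@Lb.r r97 (@Lb.r r36 (@Lb.d (nat_lit 9) (nat_lit 90) (nat_lit 388) (@Lb.fm (nat_lit 9) t51))))))))))))
noncomputable def l15791 : Lb := (@Lb.r r275 (@Lb.d (nat_lit 2) (nat_lit 258) (nat_lit 2) (@Lb.g g8 (@Lb.g g9 (@Lb.g g10 (@Lb.r r1305 (@Lb.r r2467 (@Lb.r r386 (@Lb.d (nat_lit 33) (nat_lit 10) (nat_lit 358) (@Lb.t (@Lb.fp (nat_lit 9) t5)))))))))))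
noncomputable def l15792 : Lb := (@Lb.d (nat_lit 1) (nat_lit 514) (nat_lit 130) (@Lb.g g8 (@Lb.g g9 (@Lb.g g10 (@Lb.g g11 (@Lb.r r427 (@Lb.r r106 (@Lb.r r25 (@Lb.d (nat_lit 8) (nat_lit 168) (nat_lit 386) (@Lb.fp (nat_lit 9) t51))))))))))
noncomputable def l15793 : Lb := (@Lb.d (nat_lit 10) (nat_lit 32) (nat_lit 90) (@Lb.g g8 (@Lb.g g10 (@Lb.g g11 (@Lb.r r353 (@Lb.r r535 (@Lb.r r2436 (@Lb.d (nat_lit 341) (nat_lit 70) (nat_lit 681) (@Lb.t (@Lb.fm (nat_lit 9) t386))))))))))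
noncomputable def l15794 : Lb := (@Lb.d (nat_lit 1) (nat_lit 393) (nat_lit 0) (@Lb.r r37 (@Lb.r r1304 (@Lb.r r2375 (@Lb.g g7 (@Lb.g g6 (@Lb.g g4 (@Lb.d (nat_lit 1) (nat_lit 0) (nat_lit 133) (@Lb.r r145 (@Lb.t (@Lb.fp (nat_lit 9) t2391)))))))))))
noncomputable def l15795 : Lb := (@Lb.d (nat_lit 9) (nat_lit 1) (nat_lit 130) (@Lb.g g8 (@Lb.g g9 (@Lb.g g10 (@Lb.g g11 (@Lb.r r427 (@Lb.r r145 (@Lb.r r356 (@Lb.r r154 (@Lb.r r132 (@Lb.d (nat_lit 6) (nat_lit 130) (nat_lit 137) (@Lb.fm (nat_lit 9) t1350))))))))))))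
noncomputable def l15796 : Lb := (@Lb.g g10 (@Lb.g g7 (@Lb.r r323 (@Lb.r r2626 (@Lb.d (nat_lit 0) (nat_lit 261) (nat_lit 86) (@Lb.fp (nat_lit 3) t45))))))
noncomputable def l15797 : Lb := (@Lb.d (nat_lit 0) (nat_lit 5) (nat_lit 1) (@Lb.g g5 (@Lb.g g6 (@Lb.d (nat_lit 5) (nat_lit 1) (nat_lit 0) (@Lb.fm (nat_lit 3) t607)))))
noncomputable def l15798 : Lb := (@Lb.r r21 (@Lb.d (nat_lit 129) (nat_lit 0) (nat_lit 66) (@Lb.g g8 (@Lb.g g10 (@Lb.g g11 (@Lb.r r651 (@Lb.r r586 (@Lb.r r601 (@Lb.r r580 (@Lb.d (nat_lit 144) (nat_lit 5) (nat_lit 137) (@Lb.t (@Lb.fp (nat_lit 9) t1955))))))))))))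
noncomputable def l15799 : Lb := (@Lb.d (nat_lit 0) (nat_lit 577) (nat_lit 513) (@Lb.r r1313 (@Lb.r r2327 (@Lb.r r584 (@Lb.g g6 (@Lb.g g5 (@Lb.d (nat_lit 16) (nat_lit 1) (nat_lit 1) (@Lb.r r387 (@Lb.fm (nat_lit 3) t125)))))))))
noncomputable def l15800 : Lb := (@Lb.r r323 (@Lb.d (nat_lit 40) (nat_lit 4) (nat_lit 0) (@Lb.g g9 (@Lb.g g10 (@Lb.r r584 (@Lb.r r299 (@Lb.r r289 (@Lb.d (nat_lit 10) (nat_lit 8) (nat_lit 1) (@Lb.fm (nat_lit 3) t2301)))))))))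
noncomputable def l15801 : Lb := (@Lb.d (nat_lit 10) (nat_lit 4) (nat_lit 1) (@Lb.g g5 (@Lb.t (@Lb.fm (nat_lit 3) t87))))
noncomputable def l15802 : Lb := (@Lb.d (nat_lit 32) (nat_lit 514) (nat_lit 73) (@Lb.g g8 (@Lb.g g9 (@Lb.g g10 (@Lb.g g11 (@Lb.r r407 (@Lb.r r618 (@Lb.r r553 (@Lb.r r532 (@Lb.d (nat_lit 129) (nat_lit 40) (nat_lit 128) (@Lb.fm (nat_lit 9) t128)))))))))))
noncomputable def l15803 : Lb := (@Lb.r r82 (@Lb.d (nat_lit 34) (nat_lit 258) (nat_lit 580) (@Lb.g g8 (@Lb.g g9 (@Lb.g g7 (@Lb.r r418 (@Lb.r r297 (@Lb.r r1384 (@Lb.d (nat_lit 85) (nat_lit 170) (nat_lit 613) (@Lb.t (@Lb.fm (nat_lit 9) t3242)))))))))))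
noncomputable def l15804 : Lb := (@Lb.d (nat_lit 2) (nat_lit 36) (nat_lit 64) (@Lb.g g8 (@Lb.g g9 (@Lb.g g10 (@Lb.g g11 (@Lb.r r419 (@Lb.r r1177 (@Lb.r r1684 (@Lb.r r1606 (@Lb.d (nat_lit 129) (nat_lit 10) (nat_lit 358) (@Lb.fp (nat_lit 9) t355)))))))))))
noncomputable def l15805 : Lb := (@Lb.r r322 (@Lb.d (nat_lit 128) (nat_lit 264) (nat_lit 640) (@Lb.g g9 (@Lb.g g11 (@Lb.r r410 (@Lb.r r1365 (@Lb.d (nat_lit 2) (nat_lit 85) (nat_lit 150) (@Lb.fp (nat_lit 3) t1649))))))))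
noncomputable def l15806 : Lb := (@Lb.d (nat_lit 4) (nat_lit 1) (nat_lit 0) (@Lb.g g5 (@Lb.r r2331 (@Lb.r r24 (@Lb.d (nat_lit 64) (nat_lit 1) (nat_lit 512) (@Lb.t (@Lb.fp (nat_lit 3) t1165)))))))
noncomputable def l15807 : Lb := (@Lb.d (nat_lit 321) (nat_lit 400) (nat_lit 576) (@Lb.r r1608 (@Lb.r r105 (@Lb.r r1611 (@Lb.r r342 (@Lb.g g7 (@Lb.g g6 (@Lb.g g5 (@Lb.d (nat_lit 0) (nat_lit 4) (nat_lit 66) (@Lb.t (@Lb.fm (nat_lit 9) t394)))))))))))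
noncomputable def l15808 : Lb := (@Lb.d (nat_lit 2) (nat_lit 522) (nat_lit 73) (@Lb.g g8 (@Lb.g g9 (@Lb.g g10 (@Lb.g g11 (@Lb.r r643 (@Lb.r r1065 (@Lb.r r360 (@Lb.r r582 (@Lb.r r132 (@Lb.d (nat_lit 129) (nat_lit 10) (nat_lit 289) (@Lb.fm (nat_lit 9) t98))))))))))))
noncomputable def l15809 : Lb := (@Lb.r r323 (@Lb.d (nat_lit 32) (nat_lit 512) (nat_lit 2) (@Lb.g g9 (@Lb.g g10 (@Lb.r r584 (@Lb.r r299 (@Lb.r r289 (@Lb.d (nat_lit 8) (nat_lit 130) (nat_lit 2) (@Lb.fm (nat_lit 3) t51)))))))))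
noncomputable def l15810 : Lb := (@Lb.r r322 (@Lb.d (nat_lit 128) (nat_lit 522) (nat_lit 640) (@Lb.g g9 (@Lb.g g11 (@Lb.r r402 (@Lb.r r1361 (@Lb.d (nat_lit 682) (nat_lit 85) (nat_lit 150) (@Lb.fp (nat_lit 3) t1649))))))))
noncomputable def l15811 : Lb := (@Lb.d (nat_lit 262) (nat_lit 166) (nat_lit 534) (@Lb.r r2069 (@Lb.r r2390 (@Lb.r r2731 (@Lb.g g6 (@Lb.g g5 (@Lb.g g4 (@Lb.d (nat_lit 1) (nat_lit 2) (nat_lit 0) (@Lb.t (@Lb.fm (nat_lit 9) t154))))))))))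
noncomputable def l15812 : Lb := (@Lb.d (nat_lit 150) (nat_lit 1) (nat_lit 600) (@Lb.r r24 (@Lb.r r2725 (@Lb.r r386 (@Lb.r r1427 (@Lb.g g7 (@Lb.g g6 (@Lb.g g5 (@Lb.d (nat_lit 0) (nat_lit 10) (nat_lit 64) (@Lb.t (@Lb.fm (nat_lit 9) t50)))))))))))
noncomputable def l15813 : Lb := (@Lb.r r323 (@Lb.d (nat_lit 32) (nat_lit 0) (nat_lit 2) (@Lb.g g10 (@Lb.r r584 (@Lb.r r299 (@Lb.r r289 (@Lb.d (nat_lit 10) (nat_lit 130) (nat_lit 2) (@Lb.t (@Lb.fp (nat_lit 3) t51)))))))))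
noncomputable def l15814 : Lb := (@Lb.d (nat_lit 1) (nat_lit 38) (nat_lit 534) (@Lb.r r8 (@Lb.r r338 (@Lb.r r1699 (@Lb.g g6 (@Lb.g g5 (@Lb.d (nat_lit 8) (nat_lit 130) (nat_lit 0) (@Lb.fm (nat_lit 3) t3243))))))))
noncomputable def l15815 : Lb := (@Lb.d (nat_lit 1) (nat_lit 292) (nat_lit 64) (@Lb.g g8 (@Lb.g g9 (@Lb.g g10 (@Lb.g g11 (@Lb.r r419 (@Lb.r r1177 (@Lb.r r1684 (@Lb.r r1606 (@Lb.d (nat_lit 129) (nat_lit 10) (nat_lit 358) (@Lb.fp (nat_lit 9) t355)))))))))))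
noncomputable def l15816 : Lb := (@Lb.d (nat_lit 0) (nat_lit 0) (nat_lit 128) (@Lb.g g11 (@Lb.r r602 (@Lb.r r584 (@Lb.r r299 (@Lb.r r289 (@Lb.d (nat_lit 69) (nat_lit 130) (nat_lit 0) (@Lb.t (@Lb.fp (nat_lit 3) t1115)))))))))
noncomputable def l15817 : Lb := (@Lb.d (nat_lit 2) (nat_lit 0) (nat_lit 128) (@Lb.g g8 (@Lb.g g9 (@Lb.g g11 (@Lb.r r1666 (@Lb.r r387 (@Lb.r r1561 (@Lb.d (nat_lit 585) (nat_lit 2) (nat_lit 88) (@Lb.t (@Lb.fp (nat_lit 9) t1035))))))))))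
noncomputable def l15818 : Lb := (@Lb.d (nat_lit 0) (nat_lit 258) (nat_lit 1) (@Lb.g g8 (@Lb.g g9 (@Lb.g g10 (@Lb.r r1555 (@Lb.r r1177 (@Lb.r r1626 (@Lb.r r24 (@Lb.d (nat_lit 145) (nat_lit 0) (nat_lit 596) (@Lb.t (@Lb.fm (nat_lit 9) t3244)))))))))))
noncomputable def l15819 : Lb := (@Lb.d (nat_lit 278) (nat_lit 65) (nat_lit 33) (@Lb.r r1158 (@Lb.r r2372 (@Lb.r r667 (@Lb.g g7 (@Lb.g g6 (@Lb.g g9 (@Lb.g g4 (@Lb.d (nat_lit 0) (nat_lit 16) (nat_lit 129) (@Lb.fm (nat_lit 9) t296))))))))))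
noncomputable def l15820 : Lb := (@Lb.d (nat_lit 10) (nat_lit 256) (nat_lit 0) (@Lb.g g8 (@Lb.r r515 (@Lb.r r130 (@Lb.r r149 (@Lb.r r36 (@Lb.d (nat_lit 10) (nat_lit 9) (nat_lit 18) (@Lb.t (@Lb.fp (nat_lit 3) t40)))))))))
noncomputable def l15821 : Lb := (@Lb.d (nat_lit 0) (nat_lit 34) (nat_lit 1) (@Lb.g g8 (@Lb.g g9 (@Lb.g g10 (@Lb.r r2315 (@Lb.r r424 (@Lb.r r106 (@Lb.r r2137 (@Lb.d (nat_lit 41) (nat_lit 69) (nat_lit 33) (@Lb.t (@Lb.fp (nat_lit 9) t1456)))))))))))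
noncomputable def l15822 : Lb := (@Lb.r r81 (@Lb.d (nat_lit 33) (nat_lit 256) (nat_lit 9) (@Lb.g g8 (@Lb.g g10 (@Lb.r r1188 (@Lb.r r37 (@Lb.d (nat_lit 0) (nat_lit 70) (nat_lit 144) (@Lb.fp (nat_lit 3) t894))))))))
noncomputable def l15823 : Lb := (@Lb.d (nat_lit 2) (nat_lit 2) (nat_lit 137) (@Lb.g g8 (@Lb.g g9 (@Lb.g g10 (@Lb.g g11 (@Lb.r r1675 (@Lb.r r536 (@Lb.r r2197 (@Lb.r r2646 (@Lb.r r164 (@Lb.d (nat_lit 392) (nat_lit 137) (nat_lit 361) (@Lb.fp (nat_lit 9) t3245))))))))))))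
noncomputable def l15824 : Lb := (@Lb.d (nat_lit 5) (nat_lit 582) (nat_lit 2) (@Lb.r r289 (@Lb.r r279 (@Lb.r r584 (@Lb.g g6 (@Lb.g g5 (@Lb.d (nat_lit 16) (nat_lit 0) (nat_lit 1) (@Lb.r r387 (@Lb.fm (nat_lit 3) t74)))))))))
noncomputable def l15825 : Lb := (@Lb.d (nat_lit 0) (nat_lit 257) (nat_lit 128) (@Lb.g g8 (@Lb.g g9 (@Lb.g g10 (@Lb.g g11 (@Lb.r r2475 (@Lb.r r324 (@Lb.r r170 (@Lb.r r1193 (@Lb.r r164 (@Lb.d (nat_lit 353) (nat_lit 137) (nat_lit 610) (@Lb.fp (nat_lit 9) t188))))))))))))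
noncomputable def l15826 : Lb := (@Lb.d (nat_lit 0) (nat_lit 514) (nat_lit 130) (@Lb.g g9 (@Lb.g g10 (@Lb.g g11 (@Lb.r r586 (@Lb.r r584 (@Lb.r r1323 (@Lb.r r1313 (@Lb.d (nat_lit 8) (nat_lit 66) (nat_lit 256) (@Lb.t (@Lb.fm (nat_lit 9) t51)))))))))))
noncomputable def l15827 : Lb := (@Lb.d (nat_lit 4) (nat_lit 5) (nat_lit 138) (@Lb.g g8 (@Lb.g g9 (@Lb.g g10 (@Lb.g g11 (@Lb.r r683 (@Lb.r r2666 (@Lb.r r25 (@Lb.d (nat_lit 9) (nat_lit 89) (nat_lit 537) (@Lb.fm (nat_lit 9) t1369))))))))))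
noncomputable def l15828 : Lb := (@Lb.d (nat_lit 4) (nat_lit 261) (nat_lit 138) (@Lb.g g8 (@Lb.g g9 (@Lb.g g10 (@Lb.g g11 (@Lb.r r683 (@Lb.r r2666 (@Lb.r r25 (@Lb.d (nat_lit 0) (nat_lit 90) (nat_lit 537) (@Lb.fm (nat_lit 9) t2985))))))))))
noncomputable def l15829 : Lb := (@Lb.d (nat_lit 2) (nat_lit 516) (nat_lit 128) (@Lb.g g8 (@Lb.g g9 (@Lb.g g10 (@Lb.g g11 (@Lb.r r427 (@Lb.r r420 (@Lb.r r1094 (@Lb.r r145 (@Lb.r r36 (@Lb.d (nat_lit 277) (nat_lit 166) (nat_lit 593) (@Lb.fp (nat_lit 9) t3246))))))))))))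
noncomputable def l15830 : Lb := (@Lb.d (nat_lit 134) (nat_lit 5) (nat_lit 128) (@Lb.g g8 (@Lb.g g9 (@Lb.g g10 (@Lb.g g11 (@Lb.r r419 (@Lb.r r344 (@Lb.r r1429 (@Lb.r r1110 (@Lb.r r2212 (@Lb.d (nat_lit 38) (nat_lit 106) (nat_lit 673) (@Lb.fm (nat_lit 9) t1137))))))))))))
noncomputable def l15831 : Lb := (@Lb.d (nat_lit 2) (nat_lit 2) (nat_lit 130) (@Lb.g g8 (@Lb.g g9 (@Lb.g g10 (@Lb.g g11 (@Lb.r r427 (@Lb.r r420 (@Lb.r r1094 (@Lb.r r145 (@Lb.r r36 (@Lb.d (nat_lit 277) (nat_lit 166) (nat_lit 593) (@Lb.fp (nat_lit 9) t3247))))))))))))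
noncomputable def l15832 : Lb := (@Lb.d (nat_lit 150) (nat_lit 512) (nat_lit 81) (@Lb.r r24 (@Lb.r r1383 (@Lb.r r1690 (@Lb.g g7 (@Lb.g g6 (@Lb.g g9 (@Lb.d (nat_lit 0) (nat_lit 0) (nat_lit 137) (@Lb.t (@Lb.fm (nat_lit 9) t2308))))))))))
noncomputable def l15833 : Lb := (@Lb.d (nat_lit 10) (nat_lit 288) (nat_lit 66) (@Lb.g g8 (@Lb.g g9 (@Lb.g g10 (@Lb.g g11 (@Lb.r r427 (@Lb.r r356 (@Lb.r r154 (@Lb.r r89 (@Lb.r r36 (@Lb.d (nat_lit 41) (nat_lit 9) (nat_lit 137) (@Lb.fm (nat_lit 9) t594))))))))))))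
noncomputable def l15834 : Lb := (@Lb.d (nat_lit 8) (nat_lit 289) (nat_lit 66) (@Lb.g g9 (@Lb.g g10 (@Lb.g g11 (@Lb.r r614 (@Lb.r r404 (@Lb.r r683 (@Lb.r r681 (@Lb.d (nat_lit 89) (nat_lit 21) (nat_lit 8) (@Lb.t (@Lb.fm (nat_lit 9) t594)))))))))))
noncomputable def l15835 : Lb := (@Lb.d (nat_lit 610) (nat_lit 514) (nat_lit 358) (@Lb.r r24 (@Lb.r r1690 (@Lb.g g6 (@Lb.g g9 (@Lb.d (nat_lit 8) (nat_lit 2) (nat_lit 2) (@Lb.fp (nat_lit 3) t225)))))))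
noncomputable def l15836 : Lb := (@Lb.d (nat_lit 2) (nat_lit 2) (nat_lit 145) (@Lb.g g8 (@Lb.g g9 (@Lb.g g10 (@Lb.g g11 (@Lb.r r292 (@Lb.r r603 (@Lb.r r2473 (@Lb.r r1044 (@Lb.d (nat_lit 402) (nat_lit 144) (nat_lit 409) (@Lb.fp (nat_lit 9) t1019)))))))))))
noncomputable def l15837 : Lb := (@Lb.d (nat_lit 2) (nat_lit 545) (nat_lit 65) (@Lb.g g8 (@Lb.g g9 (@Lb.g g10 (@Lb.g g11 (@Lb.r r338 (@Lb.r r2723 (@Lb.r r1602 (@Lb.r r2201 (@Lb.d (nat_lit 274) (nat_lit 72) (nat_lit 678) (@Lb.fm (nat_lit 9) t3248)))))))))))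
noncomputable def l15838 : Lb := (@Lb.d (nat_lit 2) (nat_lit 258) (nat_lit 2) (@Lb.g g8 (@Lb.g g9 (@Lb.g g10 (@Lb.g g11 (@Lb.r r1699 (@Lb.r r36 (@Lb.r r661 (@Lb.r r146 (@Lb.r r1060 (@Lb.d (nat_lit 665) (nat_lit 154) (nat_lit 581) (@Lb.fp (nat_lit 9) t1022))))))))))))
noncomputable def l15839 : Lb := (@Lb.d (nat_lit 2) (nat_lit 33) (nat_lit 66) (@Lb.g g8 (@Lb.g g9 (@Lb.g g10 (@Lb.g g11 (@Lb.r r1699 (@Lb.r r578 (@Lb.r r2201 (@Lb.d (nat_lit 274) (nat_lit 72) (nat_lit 402) (@Lb.fm (nat_lit 9) t3249))))))))))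
noncomputable def l15840 : Lb := (@Lb.d (nat_lit 2) (nat_lit 297) (nat_lit 66) (@Lb.g g8 (@Lb.g g9 (@Lb.g g10 (@Lb.g g11 (@Lb.r r601 (@Lb.r r354 (@Lb.r r1427 (@Lb.r r1553 (@Lb.d (nat_lit 33) (nat_lit 133) (nat_lit 32) (@Lb.fp (nat_lit 9) t3250)))))))))))
noncomputable def l15841 : Lb := (@Lb.r r273 (@Lb.d (nat_lit 10) (nat_lit 256) (nat_lit 584) (@Lb.g g8 (@Lb.g g7 (@Lb.r r166 (@Lb.r r149 (@Lb.r r680 (@Lb.d (nat_lit 402) (nat_lit 137) (nat_lit 148) (@Lb.fp (nat_lit 3) t472)))))))))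
noncomputable def l15842 : Lb := (@Lb.d (nat_lit 681) (nat_lit 610) (nat_lit 585) (@Lb.r r2728 (@Lb.r r1121 (@Lb.r r2411 (@Lb.g g10 (@Lb.g g5 (@Lb.g g4 (@Lb.d (nat_lit 70) (nat_lit 4) (nat_lit 34) (@Lb.r r403 (@Lb.t (@Lb.fm (nat_lit 9) t448)))))))))))
noncomputable def l15843 : Lb := (@Lb.d (nat_lit 9) (nat_lit 257) (nat_lit 74) (@Lb.g g8 (@Lb.g g9 (@Lb.g g10 (@Lb.g g11 (@Lb.r r1699 (@Lb.r r164 (@Lb.r r1685 (@Lb.r r1174 (@Lb.r r36 (@Lb.d (nat_lit 289) (nat_lit 98) (nat_lit 617) (@Lb.fp (nat_lit 9) t296))))))))))))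
noncomputable def l15844 : Lb := (@Lb.d (nat_lit 9) (nat_lit 513) (nat_lit 128) (@Lb.g g8 (@Lb.g g9 (@Lb.g g10 (@Lb.g g11 (@Lb.r r1699 (@Lb.r r164 (@Lb.r r1685 (@Lb.r r1174 (@Lb.r r36 (@Lb.d (nat_lit 290) (nat_lit 98) (nat_lit 617) (@Lb.fp (nat_lit 9) t296))))))))))))
noncomputable def l15845 : Lb := (@Lb.d (nat_lit 8) (nat_lit 133) (nat_lit 0) (@Lb.g g8 (@Lb.g g5 (@Lb.r r24 (@Lb.d (nat_lit 10) (nat_lit 0) (nat_lit 1) (@Lb.fm (nat_lit 3) t40))))))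
noncomputable def l15846 : Lb := (@Lb.d (nat_lit 16) (nat_lit 385) (nat_lit 153) (@Lb.r r2648 (@Lb.r r539 (@Lb.r r337 (@Lb.r r1634 (@Lb.g g7 (@Lb.d (nat_lit 0) (nat_lit 0) (nat_lit 132) (@Lb.t (@Lb.fm (nat_lit 3) t430)))))))))
noncomputable def l15847 : Lb := (@Lb.d (nat_lit 72) (nat_lit 322) (nat_lit 329) (@Lb.r r1192 (@Lb.r r665 (@Lb.r r595 (@Lb.g g6 (@Lb.g g5 (@Lb.g g4 (@Lb.d (nat_lit 66) (nat_lit 17) (nat_lit 33) (@Lb.r r387 (@Lb.t (@Lb.fp (nat_lit 9) t1916)))))))))))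
noncomputable def l15848 : Lb := (@Lb.d (nat_lit 8) (nat_lit 514) (nat_lit 0) (@Lb.g g9 (@Lb.r r2343 (@Lb.r r2438 (@Lb.r r24 (@Lb.r r101 (@Lb.d (nat_lit 281) (nat_lit 73) (nat_lit 644) (@Lb.t (@Lb.fm (nat_lit 3) t3251)))))))))
noncomputable def l15849 : Lb := (@Lb.r r21 (@Lb.r r70 (@Lb.d (nat_lit 128) (nat_lit 256) (nat_lit 136) (@Lb.g g4 (@Lb.g g11 (@Lb.r r402 (@Lb.r r97 (@Lb.d (nat_lit 1) (nat_lit 128) (nat_lit 128) (@Lb.fp (nat_lit 3) t2248)))))))))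
noncomputable def l15850 : Lb := (@Lb.d (nat_lit 148) (nat_lit 512) (nat_lit 128) (@Lb.g g8 (@Lb.g g9 (@Lb.g g10 (@Lb.g g11 (@Lb.r r2467 (@Lb.r r1065 (@Lb.r r616 (@Lb.r r1094 (@Lb.r r1156 (@Lb.d (nat_lit 545) (nat_lit 154) (nat_lit 681) (@Lb.fp (nat_lit 9) t3252))))))))))))
noncomputable def l15851 : Lb := (@Lb.d (nat_lit 345) (nat_lit 2) (nat_lit 345) (@Lb.r r1606 (@Lb.r r1627 (@Lb.r r405 (@Lb.g g7 (@Lb.g g6 (@Lb.g g4 (@Lb.d (nat_lit 1) (nat_lit 4) (nat_lit 5) (@Lb.t (@Lb.fm (nat_lit 9) t2491))))))))))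
noncomputable def l15852 : Lb := (@Lb.d (nat_lit 132) (nat_lit 257) (nat_lit 0) (@Lb.r r24 (@Lb.r r101 (@Lb.r r402 (@Lb.g g4 (@Lb.t (@Lb.fp (nat_lit 3) t311)))))))
noncomputable def l15853 : Lb := (@Lb.d (nat_lit 2) (nat_lit 4) (nat_lit 136) (@Lb.g g8 (@Lb.g g9 (@Lb.g g10 (@Lb.g g11 (@Lb.r r2723 (@Lb.r r657 (@Lb.r r612 (@Lb.r r666 (@Lb.r r132 (@Lb.d (nat_lit 74) (nat_lit 97) (nat_lit 586) (@Lb.fp (nat_lit 9) t1278))))))))))))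
noncomputable def l15854 : Lb := (@Lb.d (nat_lit 32) (nat_lit 546) (nat_lit 514) (@Lb.g g9 (@Lb.g g10 (@Lb.g g7 (@Lb.r r421 (@Lb.r r88 (@Lb.r r422 (@Lb.d (nat_lit 42) (nat_lit 130) (nat_lit 393) (@Lb.t (@Lb.fm (nat_lit 9) t3253))))))))))
noncomputable def l15855 : Lb := (@Lb.r r70 (@Lb.d (nat_lit 129) (nat_lit 2) (nat_lit 64) (@Lb.g g8 (@Lb.g g9 (@Lb.g g11 (@Lb.r r299 (@Lb.r r610 (@Lb.r r97 (@Lb.r r168 (@Lb.d (nat_lit 153) (nat_lit 152) (nat_lit 389) (@Lb.t (@Lb.fm (nat_lit 9) t2672))))))))))))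
noncomputable def l15856 : Lb := (@Lb.d (nat_lit 66) (nat_lit 88) (nat_lit 516) (@Lb.r r323 (@Lb.r r658 (@Lb.r r85 (@Lb.g g7 (@Lb.g g5 (@Lb.g g4 (@Lb.d (nat_lit 1) (nat_lit 2) (nat_lit 128) (@Lb.t (@Lb.fm (nat_lit 9) t1800))))))))))
noncomputable def l15857 : Lb := (@Lb.d (nat_lit 0) (nat_lit 256) (nat_lit 138) (@Lb.g g7 (@Lb.t (@Lb.fm (nat_lit 3) t2))))
noncomputable def l15858 : Lb := (@Lb.r r82 (@Lb.d (nat_lit 34) (nat_lit 2) (nat_lit 128) (@Lb.g g8 (@Lb.g g9 (@Lb.g g11 (@Lb.r r363 (@Lb.r r582 (@Lb.r r677 (@Lb.r r408 (@Lb.d (nat_lit 421) (nat_lit 154) (nat_lit 168) (@Lb.t (@Lb.fm (nat_lit 9) t3254))))))))))))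
noncomputable def l15859 : Lb := (@Lb.d (nat_lit 2) (nat_lit 528) (nat_lit 137) (@Lb.g g8 (@Lb.g g9 (@Lb.g g10 (@Lb.g g11 (@Lb.r r427 (@Lb.r r2440 (@Lb.r r2122 (@Lb.r r1061 (@Lb.d (nat_lit 553) (nat_lit 137) (nat_lit 152) (@Lb.fp (nat_lit 9) t1696)))))))))))
noncomputable def l15860 : Lb := (@Lb.r r21 (@Lb.d (nat_lit 34) (nat_lit 0) (nat_lit 72) (@Lb.g g8 (@Lb.g g10 (@Lb.g g11 (@Lb.r r657 (@Lb.r r2327 (@Lb.r r1382 (@Lb.r r1572 (@Lb.d (nat_lit 649) (nat_lit 25) (nat_lit 534) (@Lb.t (@Lb.fm (nat_lit 9) t3255))))))))))))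
noncomputable def l15861 : Lb := (@Lb.d (nat_lit 32) (nat_lit 528) (nat_lit 584) (@Lb.g g10 (@Lb.g g11 (@Lb.r r2409 (@Lb.r r1640 (@Lb.r r2134 (@Lb.d (nat_lit 400) (nat_lit 86) (nat_lit 676) (@Lb.fm (nat_lit 3) t3256))))))))
noncomputable def l15862 : Lb := (@Lb.r r81 (@Lb.d (nat_lit 10) (nat_lit 276) (nat_lit 594) (@Lb.g g8 (@Lb.g g6 (@Lb.g g11 (@Lb.r r149 (@Lb.r r104 (@Lb.d (nat_lit 517) (nat_lit 169) (nat_lit 389) (@Lb.t (@Lb.fm (nat_lit 9) t3257))))))))))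
noncomputable def l15863 : Lb := (@Lb.g g7 (@Lb.d (nat_lit 0) (nat_lit 344) (nat_lit 578) (@Lb.t (@Lb.fm (nat_lit 3) t633))))
noncomputable def l15864 : Lb := (@Lb.d (nat_lit 10) (nat_lit 544) (nat_lit 64) (@Lb.g g8 (@Lb.g g11 (@Lb.r r166 (@Lb.r r149 (@Lb.r r360 (@Lb.r r2567 (@Lb.d (nat_lit 641) (nat_lit 24) (nat_lit 642) (@Lb.fp (nat_lit 3) t71)))))))))
noncomputable def l15865 : Lb := (@Lb.r r21 (@Lb.d (nat_lit 536) (nat_lit 32) (nat_lit 128) (@Lb.g g8 (@Lb.g g10 (@Lb.g g11 (@Lb.r r618 (@Lb.r r401 (@Lb.r r2663 (@Lb.d (nat_lit 665) (nat_lit 9) (nat_lit 618) (@Lb.t (@Lb.fp (nat_lit 9) t644)))))))))))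
noncomputable def l15866 : Lb := (@Lb.r r21 (@Lb.d (nat_lit 16) (nat_lit 0) (nat_lit 128) (@Lb.g g8 (@Lb.g g10 (@Lb.g g11 (@Lb.r r651 (@Lb.r r644 (@Lb.r r1174 (@Lb.r r97 (@Lb.d (nat_lit 265) (nat_lit 97) (nat_lit 384) (@Lb.t (@Lb.fp (nat_lit 9) t152))))))))))))
noncomputable def l15867 : Lb := (@Lb.d (nat_lit 26) (nat_lit 1) (nat_lit 128) (@Lb.g g8 (@Lb.g g9 (@Lb.g g10 (@Lb.g g11 (@Lb.r r683 (@Lb.r r676 (@Lb.r r1190 (@Lb.r r145 (@Lb.d (nat_lit 265) (nat_lit 137) (nat_lit 425) (@Lb.fp (nat_lit 9) t152)))))))))))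
noncomputable def l15868 : Lb := (@Lb.d (nat_lit 0) (nat_lit 0) (nat_lit 72) (@Lb.g g11 (@Lb.r r2370 (@Lb.r r1427 (@Lb.d (nat_lit 0) (nat_lit 64) (nat_lit 98) (@Lb.t (@Lb.fp (nat_lit 3) t591)))))))
noncomputable def l15869 : Lb := (@Lb.r r82 (@Lb.d (nat_lit 2) (nat_lit 514) (nat_lit 580) (@Lb.g g8 (@Lb.g g9 (@Lb.g g7 (@Lb.r r2474 (@Lb.r r1188 (@Lb.r r1061 (@Lb.d (nat_lit 138) (nat_lit 137) (nat_lit 386) (@Lb.t (@Lb.fp (nat_lit 9) t3242)))))))))))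
noncomputable def l15870 : Lb := (@Lb.d (nat_lit 2) (nat_lit 514) (nat_lit 73) (@Lb.g g8 (@Lb.g g9 (@Lb.g g10 (@Lb.g g11 (@Lb.r r323 (@Lb.r r322 (@Lb.r r2153 (@Lb.r r36 (@Lb.d (nat_lit 297) (nat_lit 2) (nat_lit 41) (@Lb.fm (nat_lit 9) t40)))))))))))
noncomputable def l15871 : Lb := (@Lb.d (nat_lit 2) (nat_lit 1) (nat_lit 74) (@Lb.g g8 (@Lb.g g9 (@Lb.g g10 (@Lb.g g11 (@Lb.r r2667 (@Lb.r r616 (@Lb.r r86 (@Lb.r r165 (@Lb.r r1060 (@Lb.d (nat_lit 34) (nat_lit 9) (nat_lit 169) (@Lb.fm (nat_lit 9) t881))))))))))))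
noncomputable def l15872 : Lb := (@Lb.d (nat_lit 0) (nat_lit 516) (nat_lit 64) (@Lb.g g9 (@Lb.g g10 (@Lb.g g11 (@Lb.r r2723 (@Lb.r r1634 (@Lb.r r1553 (@Lb.r r24 (@Lb.d (nat_lit 0) (nat_lit 138) (nat_lit 417) (@Lb.t (@Lb.fm (nat_lit 9) t148)))))))))))
noncomputable def l15873 : Lb := (@Lb.r r1092 (@Lb.r r1105 (@Lb.d (nat_lit 0) (nat_lit 512) (nat_lit 2) (@Lb.g g10 (@Lb.r r643 (@Lb.r r2626 (@Lb.d (nat_lit 10) (nat_lit 128) (nat_lit 537) (@Lb.t (@Lb.fm (nat_lit 3) t2688)))))))))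
noncomputable def l15874 : Lb := (@Lb.r r81 (@Lb.r r323 (@Lb.d (nat_lit 10) (nat_lit 512) (nat_lit 2) (@Lb.g g8 (@Lb.g g10 (@Lb.r r2661 (@Lb.r r2339 (@Lb.r r388 (@Lb.d (nat_lit 257) (nat_lit 0) (nat_lit 585) (@Lb.fp (nat_lit 3) t2661))))))))))
noncomputable def l15875 : Lb := (@Lb.r r323 (@Lb.d (nat_lit 128) (nat_lit 513) (nat_lit 32) (@Lb.g g8 (@Lb.g g9 (@Lb.g g10 (@Lb.r r599 (@Lb.r r297 (@Lb.r r2340 (@Lb.d (nat_lit 329) (nat_lit 105) (nat_lit 534) (@Lb.t (@Lb.fm (nat_lit 9) t386)))))))))))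
noncomputable def l15876 : Lb := (@Lb.d (nat_lit 257) (nat_lit 105) (nat_lit 100) (@Lb.r r24 (@Lb.r r146 (@Lb.r r357 (@Lb.r r2691 (@Lb.g g7 (@Lb.g g6 (@Lb.g g5 (@Lb.d (nat_lit 0) (nat_lit 0) (nat_lit 129) (@Lb.t (@Lb.fp (nat_lit 9) t3258)))))))))))
noncomputable def l15877 : Lb := (@Lb.d (nat_lit 257) (nat_lit 356) (nat_lit 102) (@Lb.r r24 (@Lb.r r146 (@Lb.r r357 (@Lb.r r2691 (@Lb.g g7 (@Lb.g g6 (@Lb.g g5 (@Lb.d (nat_lit 0) (nat_lit 0) (nat_lit 129) (@Lb.t (@Lb.fp (nat_lit 9) t3259)))))))))))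
noncomputable def l15878 : Lb := (@Lb.d (nat_lit 552) (nat_lit 362) (nat_lit 105) (@Lb.r r21 (@Lb.r r682 (@Lb.r r599 (@Lb.g g7 (@Lb.g g6 (@Lb.g g5 (@Lb.g g4 (@Lb.d (nat_lit 2) (nat_lit 1) (nat_lit 10) (@Lb.fp (nat_lit 9) t525))))))))))
noncomputable def l15879 : Lb := (@Lb.r r323 (@Lb.d (nat_lit 36) (nat_lit 514) (nat_lit 33) (@Lb.g g8 (@Lb.g g9 (@Lb.g g6 (@Lb.r r387 (@Lb.r r1121 (@Lb.r r2072 (@Lb.d (nat_lit 266) (nat_lit 73) (nat_lit 18) (@Lb.t (@Lb.fp (nat_lit 9) t217)))))))))))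
noncomputable def l15880 : Lb := (@Lb.d (nat_lit 408) (nat_lit 550) (nat_lit 582) (@Lb.r r24 (@Lb.r r146 (@Lb.r r2435 (@Lb.g g6 (@Lb.g g9 (@Lb.d (nat_lit 8) (nat_lit 97) (nat_lit 1) (@Lb.fp (nat_lit 3) t3260))))))))
noncomputable def l15881 : Lb := (@Lb.d (nat_lit 5) (nat_lit 9) (nat_lit 130) (@Lb.g g8 (@Lb.g g9 (@Lb.g g10 (@Lb.g g11 (@Lb.r r643 (@Lb.r r1321 (@Lb.r r360 (@Lb.r r582 (@Lb.r r132 (@Lb.d (nat_lit 132) (nat_lit 8) (nat_lit 361) (@Lb.fm (nat_lit 9) t2545))))))))))))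
noncomputable def l15882 : Lb := (@Lb.d (nat_lit 401) (nat_lit 64) (nat_lit 102) (@Lb.r r24 (@Lb.r r146 (@Lb.r r353 (@Lb.r r2691 (@Lb.g g7 (@Lb.g g6 (@Lb.g g5 (@Lb.d (nat_lit 0) (nat_lit 1) (nat_lit 129) (@Lb.t (@Lb.fp (nat_lit 9) t3261)))))))))))
noncomputable def l15883 : Lb := (@Lb.r r21 (@Lb.g g4 (@Lb.g g10 (@Lb.g g7 (@Lb.r r593 (@Lb.r r599 (@Lb.r r2410 (@Lb.r r292 (@Lb.d (nat_lit 36) (nat_lit 337) (nat_lit 576) (@Lb.t (@Lb.fp (nat_lit 9) t2238)))))))))))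
noncomputable def l15884 : Lb := (@Lb.d (nat_lit 5) (nat_lit 258) (nat_lit 128) (@Lb.g g8 (@Lb.g g9 (@Lb.g g10 (@Lb.g g11 (@Lb.r r643 (@Lb.r r1321 (@Lb.r r360 (@Lb.r r582 (@Lb.r r132 (@Lb.d (nat_lit 129) (nat_lit 10) (nat_lit 361) (@Lb.fm (nat_lit 9) t242))))))))))))
noncomputable def l15885 : Lb := (@Lb.r r20 (@Lb.d (nat_lit 8) (nat_lit 578) (nat_lit 64) (@Lb.g g9 (@Lb.g g10 (@Lb.g g11 (@Lb.r r610 (@Lb.d (nat_lit 0) (nat_lit 154) (nat_lit 130) (@Lb.t (@Lb.fm (nat_lit 9) t71)))))))))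
noncomputable def l15886 : Lb := (@Lb.d (nat_lit 4) (nat_lit 10) (nat_lit 129) (@Lb.g g8 (@Lb.g g9 (@Lb.g g10 (@Lb.g g11 (@Lb.r r1699 (@Lb.r r1124 (@Lb.r r2458 (@Lb.r r1625 (@Lb.d (nat_lit 616) (nat_lit 36) (nat_lit 596) (@Lb.fp (nat_lit 9) t3262)))))))))))
noncomputable def l15887 : Lb := (@Lb.r r323 (@Lb.d (nat_lit 32) (nat_lit 258) (nat_lit 2) (@Lb.g g9 (@Lb.g g10 (@Lb.r r584 (@Lb.r r1323 (@Lb.r r1313 (@Lb.d (nat_lit 10) (nat_lit 134) (nat_lit 256) (@Lb.fm (nat_lit 3) t51)))))))))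
noncomputable def l15888 : Lb := (@Lb.r r323 (@Lb.d (nat_lit 130) (nat_lit 258) (nat_lit 2) (@Lb.g g8 (@Lb.g g9 (@Lb.g g10 (@Lb.r r599 (@Lb.r r98 (@Lb.r r97 (@Lb.r r408 (@Lb.d (nat_lit 149) (nat_lit 166) (nat_lit 388) (@Lb.t (@Lb.fp (nat_lit 9) t51))))))))))))
noncomputable def l15889 : Lb := (@Lb.r r323 (@Lb.d (nat_lit 133) (nat_lit 514) (nat_lit 2) (@Lb.g g8 (@Lb.g g9 (@Lb.g g10 (@Lb.r r362 (@Lb.r r361 (@Lb.r r1367 (@Lb.r r2696 (@Lb.d (nat_lit 345) (nat_lit 133) (nat_lit 660) (@Lb.t (@Lb.fm (nat_lit 9) t51))))))))))))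
noncomputable def l15890 : Lb := (@Lb.d (nat_lit 394) (nat_lit 677) (nat_lit 277) (@Lb.r r1705 (@Lb.r r683 (@Lb.r r2666 (@Lb.r r1380 (@Lb.g g7 (@Lb.g g5 (@Lb.d (nat_lit 68) (nat_lit 5) (nat_lit 128) (@Lb.fm (nat_lit 3) t979)))))))))
noncomputable def l15891 : Lb := (@Lb.r r323 (@Lb.d (nat_lit 32) (nat_lit 2) (nat_lit 2) (@Lb.g g9 (@Lb.g g10 (@Lb.r r584 (@Lb.r r1323 (@Lb.r r1313 (@Lb.d (nat_lit 1) (nat_lit 130) (nat_lit 258) (@Lb.fm (nat_lit 3) t51)))))))))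
noncomputable def l15892 : Lb := (@Lb.d (nat_lit 0) (nat_lit 2) (nat_lit 73) (@Lb.g g9 (@Lb.g g10 (@Lb.g g11 (@Lb.r r586 (@Lb.r r328 (@Lb.r r2583 (@Lb.r r1313 (@Lb.d (nat_lit 8) (nat_lit 130) (nat_lit 256) (@Lb.t (@Lb.fp (nat_lit 9) t51)))))))))))
noncomputable def l15893 : Lb := (@Lb.d (nat_lit 6) (nat_lit 73) (nat_lit 362) (@Lb.r r1361 (@Lb.r r2471 (@Lb.r r612 (@Lb.r r346 (@Lb.g g7 (@Lb.g g6 (@Lb.g g5 (@Lb.d (nat_lit 8) (nat_lit 2) (nat_lit 8) (@Lb.t (@Lb.fp (nat_lit 9) t428)))))))))))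
noncomputable def l15894 : Lb := (@Lb.d (nat_lit 0) (nat_lit 294) (nat_lit 64) (@Lb.g g8 (@Lb.g g9 (@Lb.g g10 (@Lb.g g11 (@Lb.r r1699 (@Lb.r r1192 (@Lb.r r1642 (@Lb.r r1633 (@Lb.d (nat_lit 594) (nat_lit 154) (nat_lit 358) (@Lb.fm (nat_lit 9) t509)))))))))))
noncomputable def l15895 : Lb := (@Lb.r r355 (@Lb.d (nat_lit 4) (nat_lit 0) (nat_lit 18) (@Lb.g g8 (@Lb.g g9 (@Lb.g g6 (@Lb.r r1643 (@Lb.r r601 (@Lb.d (nat_lit 106) (nat_lit 170) (nat_lit 649) (@Lb.t (@Lb.fm (nat_lit 9) t1399))))))))))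
noncomputable def l15896 : Lb := (@Lb.d (nat_lit 144) (nat_lit 2) (nat_lit 384) (@Lb.g g8 (@Lb.g g9 (@Lb.g g10 (@Lb.g g11 (@Lb.r r1602 (@Lb.r r424 (@Lb.r r1065 (@Lb.r r1060 (@Lb.d (nat_lit 514) (nat_lit 154) (nat_lit 154) (@Lb.fp (nat_lit 9) t650)))))))))))
noncomputable def l15897 : Lb := (@Lb.d (nat_lit 10) (nat_lit 512) (nat_lit 64) (@Lb.g g8 (@Lb.g g10 (@Lb.g g11 (@Lb.r r2581 (@Lb.r r279 (@Lb.r r676 (@Lb.r r1158 (@Lb.d (nat_lit 610) (nat_lit 85) (nat_lit 170) (@Lb.t (@Lb.fp (nat_lit 9) t3263)))))))))))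
noncomputable def l15898 : Lb := (@Lb.d (nat_lit 5) (nat_lit 36) (nat_lit 130) (@Lb.r r1284 (@Lb.r r2587 (@Lb.r r676 (@Lb.r r89 (@Lb.g g6 (@Lb.d (nat_lit 16) (nat_lit 8) (nat_lit 1) (@Lb.r r387 (@Lb.t (@Lb.fp (nat_lit 3) t428))))))))))
noncomputable def l15899 : Lb := (@Lb.r r331 (@Lb.d (nat_lit 38) (nat_lit 256) (nat_lit 2) (@Lb.g g8 (@Lb.g g9 (@Lb.g g10 (@Lb.r r553 (@Lb.r r619 (@Lb.r r548 (@Lb.d (nat_lit 169) (nat_lit 20) (nat_lit 129) (@Lb.t (@Lb.fm (nat_lit 9) t594)))))))))))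
noncomputable def l15900 : Lb := (@Lb.d (nat_lit 5) (nat_lit 521) (nat_lit 0) (@Lb.r r289 (@Lb.r r279 (@Lb.r r584 (@Lb.g g6 (@Lb.g g5 (@Lb.d (nat_lit 20) (nat_lit 8) (nat_lit 0) (@Lb.r r387 (@Lb.fm (nat_lit 3) t597)))))))))
noncomputable def l15901 : Lb := (@Lb.r r21 (@Lb.d (nat_lit 130) (nat_lit 0) (nat_lit 66) (@Lb.g g8 (@Lb.g g10 (@Lb.g g11 (@Lb.r r651 (@Lb.r r357 (@Lb.r r154 (@Lb.r r132 (@Lb.d (nat_lit 88) (nat_lit 20) (nat_lit 10) (@Lb.t (@Lb.fp (nat_lit 9) t151))))))))))))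
noncomputable def l15902 : Lb := (@Lb.r r21 (@Lb.r r70 (@Lb.d (nat_lit 33) (nat_lit 512) (nat_lit 128) (@Lb.g g4 (@Lb.g g11 (@Lb.r r583 (@Lb.r r74 (@Lb.r r25 (@Lb.d (nat_lit 17) (nat_lit 129) (nat_lit 129) (@Lb.fm (nat_lit 3) t1435))))))))))
noncomputable def l15903 : Lb := (@Lb.r r355 (@Lb.d (nat_lit 4) (nat_lit 258) (nat_lit 18) (@Lb.g g8 (@Lb.g g9 (@Lb.g g6 (@Lb.r r1635 (@Lb.r r593 (@Lb.d (nat_lit 2) (nat_lit 170) (nat_lit 649) (@Lb.t (@Lb.fm (nat_lit 9) t1399))))))))))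
noncomputable def l15904 : Lb := (@Lb.d (nat_lit 134) (nat_lit 280) (nat_lit 6) (@Lb.g g8 (@Lb.g g9 (@Lb.g g10 (@Lb.g g11 (@Lb.r r2666 (@Lb.r r105 (@Lb.r r1384 (@Lb.r r1559 (@Lb.d (nat_lit 390) (nat_lit 98) (nat_lit 42) (@Lb.fm (nat_lit 9) t1000)))))))))))
noncomputable def l15905 : Lb := (@Lb.d (nat_lit 2) (nat_lit 514) (nat_lit 129) (@Lb.g g8 (@Lb.g g9 (@Lb.g g10 (@Lb.g g11 (@Lb.r r136 (@Lb.r r410 (@Lb.r r2407 (@Lb.r r97 (@Lb.r r1572 (@Lb.d (nat_lit 533) (nat_lit 6) (nat_lit 406) (@Lb.fm (nat_lit 9) t564))))))))))))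
noncomputable def l15906 : Lb := (@Lb.d (nat_lit 2) (nat_lit 2) (nat_lit 130) (@Lb.g g8 (@Lb.g g9 (@Lb.g g10 (@Lb.g g11 (@Lb.r r427 (@Lb.r r386 (@Lb.r r97 (@Lb.r r24 (@Lb.d (nat_lit 533) (nat_lit 6) (nat_lit 674) (@Lb.fm (nat_lit 9) t756)))))))))))
noncomputable def l15907 : Lb := (@Lb.d (nat_lit 0) (nat_lit 266) (nat_lit 129) (@Lb.g g9 (@Lb.g g10 (@Lb.g g11 (@Lb.r r614 (@Lb.r r404 (@Lb.r r299 (@Lb.r r409 (@Lb.d (nat_lit 150) (nat_lit 84) (nat_lit 18) (@Lb.t (@Lb.fm (nat_lit 9) t408)))))))))))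
noncomputable def l15908 : Lb := (@Lb.r r273 (@Lb.d (nat_lit 33) (nat_lit 288) (nat_lit 577) (@Lb.g g8 (@Lb.g g10 (@Lb.g g7 (@Lb.r r597 (@Lb.r r2154 (@Lb.r r168 (@Lb.d (nat_lit 292) (nat_lit 1) (nat_lit 100) (@Lb.t (@Lb.fm (nat_lit 9) t1439)))))))))))
noncomputable def l15909 : Lb := (@Lb.d (nat_lit 0) (nat_lit 256) (nat_lit 10) (@Lb.g g8 (@Lb.g g10 (@Lb.r r2449 (@Lb.r r2436 (@Lb.d (nat_lit 608) (nat_lit 0) (nat_lit 18) (@Lb.fm (nat_lit 3) t3264)))))))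
noncomputable def l15910 : Lb := (@Lb.d (nat_lit 0) (nat_lit 258) (nat_lit 0) (@Lb.g g8 (@Lb.g g9 (@Lb.r r2084 (@Lb.r r37 (@Lb.d (nat_lit 257) (nat_lit 130) (nat_lit 0) (@Lb.fp (nat_lit 3) t2)))))))
noncomputable def l15911 : Lb := (@Lb.d (nat_lit 4) (nat_lit 513) (nat_lit 0) (@Lb.g g5 (@Lb.d (nat_lit 9) (nat_lit 2) (nat_lit 0) (@Lb.t (@Lb.fm (nat_lit 3) t2)))))
noncomputable def l15912 : Lb := (@Lb.g g8 (@Lb.g g5 (@Lb.r r20 (@Lb.r r2073 (@Lb.d (nat_lit 0) (nat_lit 128) (nat_lit 0) (@Lb.fp (nat_lit 3) t2))))))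
noncomputable def l15913 : Lb := (@Lb.r r323 (@Lb.d (nat_lit 9) (nat_lit 1) (nat_lit 1) (@Lb.g g8 (@Lb.g g9 (@Lb.g g6 (@Lb.r r387 (@Lb.r r2153 (@Lb.r r1192 (@Lb.d (nat_lit 292) (nat_lit 129) (nat_lit 2) (@Lb.t (@Lb.fp (nat_lit 9) t40)))))))))))
noncomputable def l15914 : Lb := (@Lb.d (nat_lit 10) (nat_lit 1) (nat_lit 130) (@Lb.g g8 (@Lb.g g9 (@Lb.g g10 (@Lb.g g11 (@Lb.r r2443 (@Lb.r r660 (@Lb.r r2665 (@Lb.r r1110 (@Lb.r r2212 (@Lb.d (nat_lit 2) (nat_lit 38) (nat_lit 600) (@Lb.fm (nat_lit 9) t51))))))))))))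
noncomputable def l15915 : Lb := (@Lb.r r70 (@Lb.r r263 (@Lb.d (nat_lit 10) (nat_lit 257) (nat_lit 0) (@Lb.g g8 (@Lb.g g9 (@Lb.r r2391 (@Lb.r r1192 (@Lb.r r74 (@Lb.r r145 (@Lb.d (nat_lit 272) (nat_lit 132) (nat_lit 34) (@Lb.fp (nat_lit 3) t217)))))))))))
noncomputable def l15916 : Lb := (@Lb.d (nat_lit 273) (nat_lit 401) (nat_lit 598) (@Lb.r r2116 (@Lb.r r2666 (@Lb.r r2401 (@Lb.g g7 (@Lb.g g6 (@Lb.g g4 (@Lb.d (nat_lit 5) (nat_lit 32) (nat_lit 388) (@Lb.t (@Lb.fm (nat_lit 9) t1027))))))))))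
noncomputable def l15917 : Lb := (@Lb.d (nat_lit 16) (nat_lit 258) (nat_lit 74) (@Lb.g g8 (@Lb.g g9 (@Lb.g g10 (@Lb.g g11 (@Lb.r r683 (@Lb.r r1602 (@Lb.r r2089 (@Lb.r r2084 (@Lb.d (nat_lit 522) (nat_lit 21) (nat_lit 664) (@Lb.fp (nat_lit 9) t50)))))))))))
noncomputable def l15918 : Lb := (@Lb.d (nat_lit 9) (nat_lit 1) (nat_lit 130) (@Lb.g g8 (@Lb.g g9 (@Lb.g g10 (@Lb.g g11 (@Lb.r r427 (@Lb.r r297 (@Lb.r r676 (@Lb.r r70 (@Lb.r r132 (@Lb.d (nat_lit 2) (nat_lit 149) (nat_lit 392) (@Lb.fm (nat_lit 9) t119))))))))))))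
noncomputable def l15919 : Lb := (@Lb.d (nat_lit 0) (nat_lit 1) (nat_lit 130) (@Lb.g g8 (@Lb.g g9 (@Lb.g g10 (@Lb.g g11 (@Lb.r r2459 (@Lb.r r1121 (@Lb.r r356 (@Lb.r r154 (@Lb.r r132 (@Lb.d (nat_lit 8) (nat_lit 9) (nat_lit 153) (@Lb.fp (nat_lit 9) t221))))))))))))
noncomputable def l15920 : Lb := (@Lb.d (nat_lit 2) (nat_lit 1) (nat_lit 130) (@Lb.g g8 (@Lb.g g9 (@Lb.g g10 (@Lb.g g11 (@Lb.r r2459 (@Lb.r r1121 (@Lb.r r356 (@Lb.r r154 (@Lb.r r132 (@Lb.d (nat_lit 5) (nat_lit 8) (nat_lit 153) (@Lb.fp (nat_lit 9) t221))))))))))))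
noncomputable def l15921 : Lb := (@Lb.r r21 (@Lb.d (nat_lit 384) (nat_lit 512) (nat_lit 66) (@Lb.g g4 (@Lb.g g10 (@Lb.g g11 (@Lb.r r519 (@Lb.r r386 (@Lb.r r25 (@Lb.d (nat_lit 642) (nat_lit 0) (nat_lit 90) (@Lb.t (@Lb.fp (nat_lit 9) t68)))))))))))
noncomputable def l15922 : Lb := (@Lb.d (nat_lit 2) (nat_lit 97) (nat_lit 0) (@Lb.g g8 (@Lb.g g5 (@Lb.r r322 (@Lb.r r1667 (@Lb.r r578 (@Lb.r r24 (@Lb.d (nat_lit 8) (nat_lit 0) (nat_lit 68) (@Lb.fp (nat_lit 3) t167)))))))))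
noncomputable def l15923 : Lb := (@Lb.r r21 (@Lb.r r70 (@Lb.d (nat_lit 130) (nat_lit 512) (nat_lit 64) (@Lb.g g8 (@Lb.g g11 (@Lb.r r1419 (@Lb.r r402 (@Lb.r r97 (@Lb.d (nat_lit 581) (nat_lit 66) (nat_lit 512) (@Lb.fm (nat_lit 3) t644))))))))))
noncomputable def l15924 : Lb := (@Lb.d (nat_lit 132) (nat_lit 402) (nat_lit 613) (@Lb.r r2129 (@Lb.r r354 (@Lb.r r81 (@Lb.r r1671 (@Lb.g g7 (@Lb.g g6 (@Lb.g g5 (@Lb.g g8 (@Lb.d (nat_lit 2) (nat_lit 1) (nat_lit 134) (@Lb.fp (nat_lit 9) t3265)))))))))))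
noncomputable def l15925 : Lb := (@Lb.d (nat_lit 546) (nat_lit 265) (nat_lit 0) (@Lb.g g8 (@Lb.g g9 (@Lb.r r1379 (@Lb.r r1618 (@Lb.r r1425 (@Lb.d (nat_lit 2) (nat_lit 26) (nat_lit 137) (@Lb.fm (nat_lit 3) t2503))))))))
noncomputable def l15926 : Lb := (@Lb.d (nat_lit 9) (nat_lit 352) (nat_lit 0) (@Lb.g g8 (@Lb.g g5 (@Lb.r r322 (@Lb.r r1667 (@Lb.r r578 (@Lb.r r24 (@Lb.d (nat_lit 8) (nat_lit 0) (nat_lit 68) (@Lb.fp (nat_lit 3) t167)))))))))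
noncomputable def l15927 : Lb := (@Lb.d (nat_lit 129) (nat_lit 258) (nat_lit 66) (@Lb.g g8 (@Lb.g g9 (@Lb.g g10 (@Lb.g g11 (@Lb.r r419 (@Lb.r r344 (@Lb.r r1429 (@Lb.r r1110 (@Lb.r r2212 (@Lb.d (nat_lit 33) (nat_lit 105) (nat_lit 673) (@Lb.fm (nat_lit 9) t5))))))))))))
noncomputable def l15928 : Lb := (@Lb.g g5 (@Lb.g g7 (@Lb.r r659 (@Lb.r r2178 (@Lb.r r1441 (@Lb.r r36 (@Lb.d (nat_lit 328) (nat_lit 320) (nat_lit 613) (@Lb.fp (nat_lit 3) t3266))))))))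
noncomputable def l15929 : Lb := (@Lb.d (nat_lit 0) (nat_lit 514) (nat_lit 130) (@Lb.g g9 (@Lb.g g10 (@Lb.g g11 (@Lb.r r1706 (@Lb.r r168 (@Lb.r r409 (@Lb.r r295 (@Lb.r r516 (@Lb.d (nat_lit 617) (nat_lit 97) (nat_lit 330) (@Lb.t (@Lb.fm (nat_lit 9) t1649))))))))))))
noncomputable def l15930 : Lb := (@Lb.d (nat_lit 2) (nat_lit 258) (nat_lit 0) (@Lb.g g8 (@Lb.g g9 (@Lb.g g10 (@Lb.r r515 (@Lb.r r297 (@Lb.r r360 (@Lb.r r582 (@Lb.r r132 (@Lb.d (nat_lit 2) (nat_lit 136) (nat_lit 73) (@Lb.t (@Lb.fp (nat_lit 9) t3267))))))))))))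
noncomputable def l15931 : Lb := (@Lb.d (nat_lit 2) (nat_lit 353) (nat_lit 0) (@Lb.g g8 (@Lb.g g5 (@Lb.r r322 (@Lb.r r1667 (@Lb.r r578 (@Lb.r r24 (@Lb.d (nat_lit 8) (nat_lit 0) (nat_lit 2) (@Lb.fp (nat_lit 3) t167)))))))))
noncomputable def l15932 : Lb := (@Lb.d (nat_lit 129) (nat_lit 258) (nat_lit 64) (@Lb.g g8 (@Lb.g g9 (@Lb.g g11 (@Lb.r r2218 (@Lb.r r1425 (@Lb.r r299 (@Lb.r r1416 (@Lb.d (nat_lit 389) (nat_lit 5) (nat_lit 584) (@Lb.t (@Lb.fm (nat_lit 9) t3268)))))))))))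
noncomputable def l15933 : Lb := (@Lb.d (nat_lit 129) (nat_lit 514) (nat_lit 17) (@Lb.g g8 (@Lb.g g9 (@Lb.g g10 (@Lb.r r2583 (@Lb.r r297 (@Lb.r r296 (@Lb.d (nat_lit 132) (nat_lit 34) (nat_lit 81) (@Lb.t (@Lb.fp (nat_lit 9) t322))))))))))
noncomputable def l15934 : Lb := (@Lb.d (nat_lit 8) (nat_lit 514) (nat_lit 64) (@Lb.g g9 (@Lb.g g11 (@Lb.r r24 (@Lb.r r2581 (@Lb.r r2323 (@Lb.r r2178 (@Lb.d (nat_lit 6) (nat_lit 98) (nat_lit 576) (@Lb.fm (nat_lit 3) t3269)))))))))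
noncomputable def l15935 : Lb := (@Lb.d (nat_lit 134) (nat_lit 256) (nat_lit 130) (@Lb.g g8 (@Lb.g g9 (@Lb.g g10 (@Lb.g g11 (@Lb.r r419 (@Lb.r r164 (@Lb.r r2438 (@Lb.r r97 (@Lb.d (nat_lit 522) (nat_lit 33) (nat_lit 128) (@Lb.fp (nat_lit 9) t3270)))))))))))
noncomputable def l15936 : Lb := (@Lb.d (nat_lit 0) (nat_lit 281) (nat_lit 0) (@Lb.g g9 (@Lb.g g11 (@Lb.r r1427 (@Lb.r r2408 (@Lb.r r2710 (@Lb.r r1385 (@Lb.d (nat_lit 644) (nat_lit 165) (nat_lit 390) (@Lb.fp (nat_lit 3) t3271)))))))))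
noncomputable def l15937 : Lb := (@Lb.d (nat_lit 4) (nat_lit 290) (nat_lit 66) (@Lb.g g8 (@Lb.g g9 (@Lb.g g10 (@Lb.g g11 (@Lb.r r2715 (@Lb.r r2217 (@Lb.r r1450 (@Lb.r r1444 (@Lb.d (nat_lit 105) (nat_lit 9) (nat_lit 326) (@Lb.fm (nat_lit 9) t3272)))))))))))
noncomputable def l15938 : Lb := (@Lb.d (nat_lit 134) (nat_lit 546) (nat_lit 9) (@Lb.g g8 (@Lb.g g9 (@Lb.g g10 (@Lb.g g11 (@Lb.r r683 (@Lb.r r2129 (@Lb.r r2658 (@Lb.r r536 (@Lb.d (nat_lit 585) (nat_lit 9) (nat_lit 21) (@Lb.fp (nat_lit 9) t3273)))))))))))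
noncomputable def l15939 : Lb := (@Lb.d (nat_lit 130) (nat_lit 514) (nat_lit 0) (@Lb.g g8 (@Lb.g g9 (@Lb.r r343 (@Lb.r r2178 (@Lb.r r617 (@Lb.r r616 (@Lb.d (nat_lit 660) (nat_lit 26) (nat_lit 537) (@Lb.fp (nat_lit 3) t188)))))))))
noncomputable def l15940 : Lb := (@Lb.d (nat_lit 32) (nat_lit 512) (nat_lit 1) (@Lb.g g10 (@Lb.r r24 (@Lb.r r2341 (@Lb.r r2387 (@Lb.r r2658 (@Lb.d (nat_lit 0) (nat_lit 89) (nat_lit 673) (@Lb.t (@Lb.fp (nat_lit 3) t87)))))))))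
noncomputable def l15941 : Lb := (@Lb.d (nat_lit 9) (nat_lit 2) (nat_lit 4) (@Lb.g g8 (@Lb.g g9 (@Lb.g g10 (@Lb.g g11 (@Lb.r r2391 (@Lb.r r2390 (@Lb.r r2145 (@Lb.r r24 (@Lb.d (nat_lit 153) (nat_lit 73) (nat_lit 402) (@Lb.fp (nat_lit 9) t592)))))))))))
noncomputable def l15942 : Lb := (@Lb.r r263 (@Lb.d (nat_lit 640) (nat_lit 2) (nat_lit 2) (@Lb.g g8 (@Lb.g g9 (@Lb.g g10 (@Lb.r r2647 (@Lb.r r106 (@Lb.r r25 (@Lb.d (nat_lit 9) (nat_lit 72) (nat_lit 596) (@Lb.t (@Lb.fp (nat_lit 9) t898)))))))))))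
noncomputable def l15943 : Lb := (@Lb.r r323 (@Lb.d (nat_lit 137) (nat_lit 9) (nat_lit 2) (@Lb.g g8 (@Lb.g g9 (@Lb.g g10 (@Lb.r r675 (@Lb.r r170 (@Lb.r r1177 (@Lb.r r408 (@Lb.d (nat_lit 593) (nat_lit 24) (nat_lit 586) (@Lb.t (@Lb.fp (nat_lit 9) t125))))))))))))
noncomputable def l15944 : Lb := (@Lb.d (nat_lit 129) (nat_lit 277) (nat_lit 0) (@Lb.g g8 (@Lb.g g9 (@Lb.g g10 (@Lb.g g11 (@Lb.r r1706 (@Lb.r r1451 (@Lb.r r1433 (@Lb.r r1156 (@Lb.d (nat_lit 425) (nat_lit 81) (nat_lit 162) (@Lb.fm (nat_lit 9) t1895)))))))))))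
noncomputable def l15945 : Lb := (@Lb.d (nat_lit 33) (nat_lit 521) (nat_lit 129) (@Lb.g g8 (@Lb.g g9 (@Lb.g g10 (@Lb.g g11 (@Lb.r r1667 (@Lb.r r2345 (@Lb.r r360 (@Lb.r r2630 (@Lb.r r2180 (@Lb.d (nat_lit 386) (nat_lit 74) (nat_lit 617) (@Lb.fm (nat_lit 9) t2697))))))))))))
noncomputable def l15946 : Lb := (@Lb.d (nat_lit 160) (nat_lit 272) (nat_lit 258) (@Lb.g g10 (@Lb.g g7 (@Lb.r r596 (@Lb.r r74 (@Lb.r r289 (@Lb.d (nat_lit 522) (nat_lit 9) (nat_lit 8) (@Lb.fm (nat_lit 3) t1195))))))))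
noncomputable def l15947 : Lb := (@Lb.d (nat_lit 33) (nat_lit 9) (nat_lit 129) (@Lb.g g8 (@Lb.g g9 (@Lb.g g10 (@Lb.g g11 (@Lb.r r1667 (@Lb.r r2345 (@Lb.r r360 (@Lb.r r2630 (@Lb.r r2180 (@Lb.d (nat_lit 385) (nat_lit 74) (nat_lit 617) (@Lb.fm (nat_lit 9) t2697))))))))))))
noncomputable def l15948 : Lb := (@Lb.r r323 (@Lb.d (nat_lit 40) (nat_lit 1) (nat_lit 36) (@Lb.g g8 (@Lb.g g9 (@Lb.g g6 (@Lb.r r1643 (@Lb.r r1561 (@Lb.r r1556 (@Lb.d (nat_lit 388) (nat_lit 161) (nat_lit 641) (@Lb.t (@Lb.fm (nat_lit 9) t50)))))))))))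
noncomputable def l15949 : Lb := (@Lb.d (nat_lit 529) (nat_lit 520) (nat_lit 86) (@Lb.r r70 (@Lb.r r392 (@Lb.r r599 (@Lb.g g6 (@Lb.g g5 (@Lb.g g4 (@Lb.d (nat_lit 2) (nat_lit 17) (nat_lit 1) (@Lb.r r387 (@Lb.t (@Lb.fp (nat_lit 9) t1549)))))))))))
noncomputable def l15950 : Lb := (@Lb.d (nat_lit 8) (nat_lit 521) (nat_lit 0) (@Lb.g g9 (@Lb.g g7 (@Lb.r r24 (@Lb.d (nat_lit 9) (nat_lit 130) (nat_lit 68) (@Lb.fm (nat_lit 3) t253))))))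
noncomputable def l15951 : Lb := (@Lb.d (nat_lit 150) (nat_lit 9) (nat_lit 133) (@Lb.r r358 (@Lb.r r148 (@Lb.r r89 (@Lb.g g7 (@Lb.g g6 (@Lb.g g5 (@Lb.d (nat_lit 16) (nat_lit 1) (nat_lit 129) (@Lb.t (@Lb.fp (nat_lit 9) t98))))))))))
noncomputable def l15952 : Lb := (@Lb.d (nat_lit 4) (nat_lit 258) (nat_lit 66) (@Lb.g g9 (@Lb.g g10 (@Lb.g g11 (@Lb.r r1559 (@Lb.r r596 (@Lb.r r666 (@Lb.r r337 (@Lb.d (nat_lit 533) (nat_lit 42) (nat_lit 38) (@Lb.t (@Lb.fm (nat_lit 9) t1040)))))))))))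
noncomputable def l15953 : Lb := (@Lb.d (nat_lit 134) (nat_lit 593) (nat_lit 576) (@Lb.r r1096 (@Lb.r r619 (@Lb.r r2390 (@Lb.r r657 (@Lb.g g7 (@Lb.g g5 (@Lb.d (nat_lit 0) (nat_lit 1) (nat_lit 128) (@Lb.fm (nat_lit 3) t3252)))))))))
noncomputable def l15954 : Lb := (@Lb.d (nat_lit 9) (nat_lit 265) (nat_lit 73) (@Lb.g g8 (@Lb.g g9 (@Lb.g g10 (@Lb.g g11 (@Lb.r r170 (@Lb.r r680 (@Lb.r r555 (@Lb.r r2597 (@Lb.r r2068 (@Lb.d (nat_lit 138) (nat_lit 128) (nat_lit 586) (@Lb.fp (nat_lit 9) t125))))))))))))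
noncomputable def l15955 : Lb := (@Lb.d (nat_lit 136) (nat_lit 2) (nat_lit 2) (@Lb.g g8 (@Lb.g g9 (@Lb.g g10 (@Lb.r r2691 (@Lb.r r1193 (@Lb.r r2666 (@Lb.r r104 (@Lb.d (nat_lit 676) (nat_lit 10) (nat_lit 89) (@Lb.t (@Lb.fp (nat_lit 9) t242)))))))))))
noncomputable def l15956 : Lb := (@Lb.d (nat_lit 1) (nat_lit 326) (nat_lit 361) (@Lb.r r1361 (@Lb.r r2471 (@Lb.r r612 (@Lb.r r346 (@Lb.g g7 (@Lb.g g6 (@Lb.g g5 (@Lb.d (nat_lit 8) (nat_lit 2) (nat_lit 65) (@Lb.t (@Lb.fp (nat_lit 9) t125)))))))))))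
noncomputable def l15957 : Lb := (@Lb.r r82 (@Lb.d (nat_lit 2) (nat_lit 528) (nat_lit 0) (@Lb.g g8 (@Lb.g g9 (@Lb.g g11 (@Lb.r r1431 (@Lb.r r386 (@Lb.r r1109 (@Lb.r r24 (@Lb.d (nat_lit 33) (nat_lit 130) (nat_lit 18) (@Lb.t (@Lb.fm (nat_lit 9) t742))))))))))))
noncomputable def l15958 : Lb := (@Lb.d (nat_lit 1) (nat_lit 258) (nat_lit 2) (@Lb.g g8 (@Lb.g g9 (@Lb.g g10 (@Lb.g g11 (@Lb.r r427 (@Lb.r r145 (@Lb.r r356 (@Lb.r r154 (@Lb.r r132 (@Lb.d (nat_lit 0) (nat_lit 66) (nat_lit 154) (@Lb.fm (nat_lit 9) t741))))))))))))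
noncomputable def l15959 : Lb := (@Lb.d (nat_lit 2) (nat_lit 521) (nat_lit 129) (@Lb.g g8 (@Lb.g g9 (@Lb.g g10 (@Lb.g g11 (@Lb.r r1367 (@Lb.r r1366 (@Lb.r r97 (@Lb.r r24 (@Lb.d (nat_lit 617) (nat_lit 9) (nat_lit 532) (@Lb.fp (nat_lit 9) t3274)))))))))))
noncomputable def l15960 : Lb := (@Lb.d (nat_lit 104) (nat_lit 341) (nat_lit 522) (@Lb.r r1384 (@Lb.r r2345 (@Lb.r r2466 (@Lb.g g11 (@Lb.g g5 (@Lb.g g4 (@Lb.d (nat_lit 22) (nat_lit 18) (nat_lit 264) (@Lb.r r578 (@Lb.t (@Lb.fp (nat_lit 9) t1209)))))))))))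
noncomputable def l15961 : Lb := (@Lb.r r82 (@Lb.d (nat_lit 128) (nat_lit 2) (nat_lit 136) (@Lb.g g9 (@Lb.g g11 (@Lb.r r410 (@Lb.r r388 (@Lb.r r587 (@Lb.d (nat_lit 96) (nat_lit 65) (nat_lit 18) (@Lb.fm (nat_lit 3) t2032)))))))))
noncomputable def l15962 : Lb := (@Lb.d (nat_lit 138) (nat_lit 512) (nat_lit 0) (@Lb.g g8 (@Lb.r r678 (@Lb.r r661 (@Lb.r r1431 (@Lb.r r2664 (@Lb.d (nat_lit 353) (nat_lit 16) (nat_lit 256) (@Lb.t (@Lb.fp (nat_lit 3) t71)))))))))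
noncomputable def l15963 : Lb := (@Lb.r r70 (@Lb.d (nat_lit 130) (nat_lit 2) (nat_lit 64) (@Lb.g g8 (@Lb.g g9 (@Lb.g g11 (@Lb.r r2713 (@Lb.r r658 (@Lb.r r1411 (@Lb.r r2148 (@Lb.d (nat_lit 533) (nat_lit 144) (nat_lit 389) (@Lb.t (@Lb.fp (nat_lit 9) t394))))))))))))
noncomputable def l15964 : Lb := (@Lb.r r323 (@Lb.d (nat_lit 137) (nat_lit 294) (nat_lit 0) (@Lb.g g8 (@Lb.g g9 (@Lb.g g10 (@Lb.r r2387 (@Lb.r r1382 (@Lb.r r404 (@Lb.r r105 (@Lb.d (nat_lit 546) (nat_lit 40) (nat_lit 594) (@Lb.t (@Lb.fp (nat_lit 9) t234))))))))))))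
noncomputable def l15965 : Lb := (@Lb.d (nat_lit 538) (nat_lit 290) (nat_lit 0) (@Lb.g g8 (@Lb.g g9 (@Lb.r r1299 (@Lb.r r2178 (@Lb.r r1569 (@Lb.d (nat_lit 322) (nat_lit 153) (nat_lit 16) (@Lb.fm (nat_lit 3) t1561))))))))
noncomputable def l15966 : Lb := (@Lb.d (nat_lit 9) (nat_lit 518) (nat_lit 74) (@Lb.g g8 (@Lb.g g9 (@Lb.g g10 (@Lb.g g11 (@Lb.r r1699 (@Lb.r r596 (@Lb.r r682 (@Lb.r r2217 (@Lb.r r2212 (@Lb.d (nat_lit 582) (nat_lit 106) (nat_lit 585) (@Lb.fm (nat_lit 9) t597))))))))))))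
noncomputable def l15967 : Lb := (@Lb.d (nat_lit 5) (nat_lit 4) (nat_lit 2) (@Lb.r r289 (@Lb.r r279 (@Lb.r r584 (@Lb.g g6 (@Lb.g g5 (@Lb.d (nat_lit 20) (nat_lit 8) (nat_lit 0) (@Lb.r r387 (@Lb.fm (nat_lit 3) t151)))))))))
noncomputable def l15968 : Lb := (@Lb.d (nat_lit 4) (nat_lit 10) (nat_lit 1) (@Lb.g g8 (@Lb.g g9 (@Lb.g g10 (@Lb.r r2723 (@Lb.r r1634 (@Lb.r r1553 (@Lb.d (nat_lit 2) (nat_lit 105) (nat_lit 417) (@Lb.t (@Lb.fp (nat_lit 9) t1399))))))))))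
noncomputable def l15969 : Lb := (@Lb.r r82 (@Lb.d (nat_lit 2) (nat_lit 536) (nat_lit 64) (@Lb.g g8 (@Lb.g g9 (@Lb.g g11 (@Lb.r r363 (@Lb.r r402 (@Lb.r r601 (@Lb.d (nat_lit 40) (nat_lit 38) (nat_lit 5) (@Lb.t (@Lb.fp (nat_lit 9) t1084)))))))))))
noncomputable def l15970 : Lb := (@Lb.d (nat_lit 273) (nat_lit 0) (nat_lit 16) (@Lb.fp (nat_lit 1) t962))
noncomputable def l15971 : Lb := (@Lb.d (nat_lit 5) (nat_lit 170) (nat_lit 582) (@Lb.r r2196 (@Lb.r r2403 (@Lb.r r594 (@Lb.r r2449 (@Lb.g g7 (@Lb.d (nat_lit 0) (nat_lit 0) (nat_lit 68) (@Lb.t (@Lb.fm (nat_lit 3) t1401)))))))))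
noncomputable def l15972 : Lb := (@Lb.r r82 (@Lb.d (nat_lit 134) (nat_lit 528) (nat_lit 0) (@Lb.g g8 (@Lb.g g9 (@Lb.g g11 (@Lb.r r2667 (@Lb.r r2649 (@Lb.r r98 (@Lb.r r1636 (@Lb.d (nat_lit 149) (nat_lit 152) (nat_lit 682) (@Lb.t (@Lb.fp (nat_lit 9) t1065))))))))))))
noncomputable def l15973 : Lb := (@Lb.d (nat_lit 136) (nat_lit 514) (nat_lit 130) (@Lb.g g9 (@Lb.g g10 (@Lb.g g11 (@Lb.r r618 (@Lb.r r24 (@Lb.r r405 (@Lb.r r611 (@Lb.d (nat_lit 132) (nat_lit 24) (nat_lit 146) (@Lb.t (@Lb.fm (nat_lit 9) t564)))))))))))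
noncomputable def l15974 : Lb := (@Lb.d (nat_lit 2) (nat_lit 258) (nat_lit 130) (@Lb.g g8 (@Lb.g g9 (@Lb.g g10 (@Lb.g g11 (@Lb.r r580 (@Lb.r r1367 (@Lb.r r2218 (@Lb.r r1193 (@Lb.r r1188 (@Lb.d (nat_lit 641) (nat_lit 90) (nat_lit 324) (@Lb.fp (nat_lit 9) t1558))))))))))))
noncomputable def l15975 : Lb := (@Lb.d (nat_lit 657) (nat_lit 0) (nat_lit 328) (@Lb.r r2120 (@Lb.r r146 (@Lb.r r1377 (@Lb.r r279 (@Lb.g g7 (@Lb.g g5 (@Lb.d (nat_lit 0) (nat_lit 1) (nat_lit 64) (@Lb.r r98 (@Lb.fp (nat_lit 3) t3213))))))))))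
noncomputable def l15976 : Lb := (@Lb.d (nat_lit 128) (nat_lit 516) (nat_lit 128) (@Lb.g g9 (@Lb.g g10 (@Lb.g g11 (@Lb.r r264 (@Lb.r r519 (@Lb.r r417 (@Lb.r r98 (@Lb.d (nat_lit 258) (nat_lit 96) (nat_lit 266) (@Lb.t (@Lb.fp (nat_lit 9) t3275)))))))))))
noncomputable def l15977 : Lb := (@Lb.d (nat_lit 521) (nat_lit 389) (nat_lit 386) (@Lb.r r8 (@Lb.r r1297 (@Lb.r r2403 (@Lb.r r353 (@Lb.g g7 (@Lb.g g6 (@Lb.g g5 (@Lb.d (nat_lit 32) (nat_lit 2) (nat_lit 81) (@Lb.t (@Lb.fp (nat_lit 9) t205)))))))))))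
noncomputable def l15978 : Lb := (@Lb.d (nat_lit 288) (nat_lit 394) (nat_lit 17) (@Lb.r r597 (@Lb.r r279 (@Lb.r r584 (@Lb.r r326 (@Lb.g g7 (@Lb.g g6 (@Lb.g g5 (@Lb.d (nat_lit 0) (nat_lit 0) (nat_lit 65) (@Lb.t (@Lb.fm (nat_lit 9) t504)))))))))))
noncomputable def l15979 : Lb := (@Lb.d (nat_lit 8) (nat_lit 258) (nat_lit 130) (@Lb.g g8 (@Lb.g g9 (@Lb.g g10 (@Lb.g g11 (@Lb.r r660 (@Lb.r r2311 (@Lb.r r161 (@Lb.r r98 (@Lb.r r1540 (@Lb.d (nat_lit 2) (nat_lit 161) (nat_lit 666) (@Lb.fm (nat_lit 9) t391))))))))))))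
noncomputable def l15980 : Lb := (@Lb.d (nat_lit 1) (nat_lit 517) (nat_lit 1) (@Lb.r r2120 (@Lb.r r89 (@Lb.r r1414 (@Lb.r r323 (@Lb.g g7 (@Lb.g g6 (@Lb.d (nat_lit 0) (nat_lit 0) (nat_lit 64) (@Lb.fm (nat_lit 3) t3276)))))))))
noncomputable def l15981 : Lb := (@Lb.d (nat_lit 9) (nat_lit 258) (nat_lit 130) (@Lb.g g8 (@Lb.g g9 (@Lb.g g10 (@Lb.g g11 (@Lb.r r2217 (@Lb.r r296 (@Lb.r r391 (@Lb.r r386 (@Lb.r r132 (@Lb.d (nat_lit 2) (nat_lit 10) (nat_lit 345) (@Lb.fm (nat_lit 9) t590))))))))))))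
noncomputable def l15982 : Lb := (@Lb.d (nat_lit 25) (nat_lit 162) (nat_lit 85) (@Lb.r r2713 (@Lb.r r1430 (@Lb.r r519 (@Lb.r r264 (@Lb.g g7 (@Lb.g g5 (@Lb.d (nat_lit 64) (nat_lit 4) (nat_lit 64) (@Lb.fp (nat_lit 3) t2006)))))))))
noncomputable def l15983 : Lb := (@Lb.r r82 (@Lb.r r275 (@Lb.d (nat_lit 2) (nat_lit 257) (nat_lit 0) (@Lb.g g8 (@Lb.g g5 (@Lb.r r291 (@Lb.r r98 (@Lb.r r24 (@Lb.fm (nat_lit 3) t68)))))))))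
noncomputable def l15984 : Lb := (@Lb.d (nat_lit 129) (nat_lit 16) (nat_lit 130) (@Lb.g g8 (@Lb.g g9 (@Lb.g g10 (@Lb.g g11 (@Lb.r r1681 (@Lb.r r659 (@Lb.r r644 (@Lb.r r1606 (@Lb.r r1156 (@Lb.d (nat_lit 393) (nat_lit 129) (nat_lit 594) (@Lb.fm (nat_lit 9) t3277))))))))))))
noncomputable def l15985 : Lb := (@Lb.d (nat_lit 4) (nat_lit 514) (nat_lit 2) (@Lb.r r101 (@Lb.g g10 (@Lb.d (nat_lit 0) (nat_lit 8) (nat_lit 2) (@Lb.t (@Lb.fm (nat_lit 3) t374))))))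
noncomputable def l15986 : Lb := (@Lb.d (nat_lit 553) (nat_lit 10) (nat_lit 1) (@Lb.r r1432 (@Lb.r r1106 (@Lb.r r343 (@Lb.g g6 (@Lb.g g5 (@Lb.g g4 (@Lb.d (nat_lit 0) (nat_lit 33) (nat_lit 1) (@Lb.r r387 (@Lb.t (@Lb.fm (nat_lit 9) t1719)))))))))))
noncomputable def l15987 : Lb := (@Lb.d (nat_lit 2) (nat_lit 33) (nat_lit 66) (@Lb.g g8 (@Lb.g g9 (@Lb.g g10 (@Lb.g g11 (@Lb.r r2595 (@Lb.r r386 (@Lb.r r612 (@Lb.r r533 (@Lb.r r1060 (@Lb.d (nat_lit 641) (nat_lit 10) (nat_lit 601) (@Lb.fp (nat_lit 9) t3278))))))))))))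
noncomputable def l15988 : Lb := (@Lb.r r70 (@Lb.d (nat_lit 132) (nat_lit 5) (nat_lit 0) (@Lb.g g8 (@Lb.g g5 (@Lb.r r1383 (@Lb.r r1626 (@Lb.r r580 (@Lb.d (nat_lit 528) (nat_lit 1) (nat_lit 650) (@Lb.fp (nat_lit 3) t412)))))))))
noncomputable def l15989 : Lb := (@Lb.r r82 (@Lb.d (nat_lit 34) (nat_lit 289) (nat_lit 72) (@Lb.g g8 (@Lb.g g9 (@Lb.g g11 (@Lb.r r1362 (@Lb.r r2645 (@Lb.r r2404 (@Lb.r r1611 (@Lb.d (nat_lit 592) (nat_lit 22) (nat_lit 661) (@Lb.t (@Lb.fp (nat_lit 9) t1246))))))))))))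
noncomputable def l15990 : Lb := (@Lb.d (nat_lit 2) (nat_lit 545) (nat_lit 66) (@Lb.g g8 (@Lb.g g9 (@Lb.g g10 (@Lb.g g11 (@Lb.r r2595 (@Lb.r r386 (@Lb.r r612 (@Lb.r r533 (@Lb.r r1060 (@Lb.d (nat_lit 640) (nat_lit 10) (nat_lit 532) (@Lb.fp (nat_lit 9) t1244))))))))))))
noncomputable def l15991 : Lb := (@Lb.d (nat_lit 1) (nat_lit 18) (nat_lit 133) (@Lb.r r579 (@Lb.r r338 (@Lb.g g7 (@Lb.g g6 (@Lb.g g5 (@Lb.d (nat_lit 4) (nat_lit 1) (nat_lit 133) (@Lb.t (@Lb.fm (nat_lit 9) t285)))))))))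
noncomputable def l15992 : Lb := (@Lb.d (nat_lit 1) (nat_lit 258) (nat_lit 130) (@Lb.g g8 (@Lb.g g9 (@Lb.g g10 (@Lb.g g11 (@Lb.r r427 (@Lb.r r106 (@Lb.r r25 (@Lb.d (nat_lit 8) (nat_lit 4) (nat_lit 136) (@Lb.fp (nat_lit 9) t51))))))))))
noncomputable def l15993 : Lb := (@Lb.r r81 (@Lb.d (nat_lit 128) (nat_lit 256) (nat_lit 74) (@Lb.g g10 (@Lb.g g11 (@Lb.r r344 (@Lb.r r423 (@Lb.r r37 (@Lb.d (nat_lit 2) (nat_lit 24) (nat_lit 137) (@Lb.fm (nat_lit 3) t765)))))))))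
noncomputable def l15994 : Lb := (@Lb.d (nat_lit 64) (nat_lit 514) (nat_lit 2) (@Lb.g g8 (@Lb.g g9 (@Lb.g g10 (@Lb.g g11 (@Lb.r r675 (@Lb.r r2406 (@Lb.r r533 (@Lb.r r264 (@Lb.d (nat_lit 297) (nat_lit 89) (nat_lit 665) (@Lb.fp (nat_lit 9) t773)))))))))))
noncomputable def l15995 : Lb := (@Lb.d (nat_lit 0) (nat_lit 546) (nat_lit 0) (@Lb.g g9 (@Lb.r r1619 (@Lb.r r392 (@Lb.r r1418 (@Lb.r r2180 (@Lb.d (nat_lit 0) (nat_lit 2) (nat_lit 0) (@Lb.t (@Lb.fm (nat_lit 3) t468)))))))))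
noncomputable def l15996 : Lb := (@Lb.r r81 (@Lb.d (nat_lit 128) (nat_lit 512) (nat_lit 74) (@Lb.g g10 (@Lb.g g11 (@Lb.r r344 (@Lb.r r423 (@Lb.r r37 (@Lb.d (nat_lit 2) (nat_lit 22) (nat_lit 136) (@Lb.fm (nat_lit 3) t765)))))))))
noncomputable def l15997 : Lb := (@Lb.r r82 (@Lb.d (nat_lit 2) (nat_lit 10) (nat_lit 0) (@Lb.g g8 (@Lb.g g9 (@Lb.g g11 (@Lb.r r363 (@Lb.r r150 (@Lb.r r85 (@Lb.d (nat_lit 4) (nat_lit 6) (nat_lit 1) (@Lb.t (@Lb.fp (nat_lit 9) t546)))))))))))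
noncomputable def l15998 : Lb := (@Lb.d (nat_lit 2) (nat_lit 258) (nat_lit 130) (@Lb.g g8 (@Lb.g g9 (@Lb.g g10 (@Lb.g g11 (@Lb.r r2666 (@Lb.r r579 (@Lb.r r97 (@Lb.r r24 (@Lb.d (nat_lit 152) (nat_lit 9) (nat_lit 392) (@Lb.fm (nat_lit 9) t61)))))))))))
noncomputable def l15999 : Lb := (@Lb.d (nat_lit 0) (nat_lit 0) (nat_lit 5) (@Lb.g g4 (@Lb.g g10 (@Lb.g g11 (@Lb.r r387 (@Lb.r r1346 (@Lb.d (nat_lit 1) (nat_lit 0) (nat_lit 22) (@Lb.t (@Lb.fp (nat_lit 9) t2)))))))))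
noncomputable def l16000 : Lb := (@Lb.r r82 (@Lb.d (nat_lit 41) (nat_lit 2) (nat_lit 128) (@Lb.g g8 (@Lb.g g9 (@Lb.g g11 (@Lb.r r547 (@Lb.r r582 (@Lb.r r153 (@Lb.r r408 (@Lb.d (nat_lit 80) (nat_lit 154) (nat_lit 74) (@Lb.t (@Lb.fm (nat_lit 9) t144))))))))))))
noncomputable def l16001 : Lb := (@Lb.g g10 (@Lb.g g11 (@Lb.r r402 (@Lb.r r101 (@Lb.r r24 (@Lb.d (nat_lit 256) (nat_lit 256) (nat_lit 512) (@Lb.fp (nat_lit 3) t145)))))))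
noncomputable def l16002 : Lb := (@Lb.d (nat_lit 0) (nat_lit 0) (nat_lit 128) (@Lb.g g10 (@Lb.g g11 (@Lb.r r387 (@Lb.d (nat_lit 0) (nat_lit 0) (nat_lit 132) (@Lb.fm (nat_lit 3) t2))))))
noncomputable def l16003 : Lb := (@Lb.d (nat_lit 0) (nat_lit 256) (nat_lit 90) (@Lb.g g6 (@Lb.g g11 (@Lb.r r579 (@Lb.d (nat_lit 0) (nat_lit 0) (nat_lit 518) (@Lb.fm (nat_lit 3) t2))))))
noncomputable def l16004 : Lb := (@Lb.d (nat_lit 10) (nat_lit 258) (nat_lit 130) (@Lb.g g8 (@Lb.g g9 (@Lb.g g10 (@Lb.g g11 (@Lb.r r419 (@Lb.r r386 (@Lb.r r101 (@Lb.r r24 (@Lb.d (nat_lit 98) (nat_lit 0) (nat_lit 132) (@Lb.fm (nat_lit 9) t263)))))))))))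
noncomputable def l16005 : Lb := (@Lb.d (nat_lit 0) (nat_lit 256) (nat_lit 2) (@Lb.g g10 (@Lb.r r1105 (@Lb.r r98 (@Lb.d (nat_lit 546) (nat_lit 73) (nat_lit 2) (@Lb.t (@Lb.fp (nat_lit 3) t2777)))))))
noncomputable def l16006 : Lb := (@Lb.d (nat_lit 0) (nat_lit 258) (nat_lit 130) (@Lb.g g9 (@Lb.g g10 (@Lb.g g11 (@Lb.r r1623 (@Lb.r r2730 (@Lb.r r2649 (@Lb.d (nat_lit 361) (nat_lit 168) (nat_lit 617) (@Lb.t (@Lb.fm (nat_lit 9) t2833))))))))))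
noncomputable def l16007 : Lb := (@Lb.d (nat_lit 9) (nat_lit 37) (nat_lit 10) (@Lb.g g8 (@Lb.g g9 (@Lb.g g10 (@Lb.g g11 (@Lb.r r1706 (@Lb.r r1688 (@Lb.r r1563 (@Lb.r r1561 (@Lb.d (nat_lit 9) (nat_lit 145) (nat_lit 586) (@Lb.fm (nat_lit 9) t68)))))))))))
noncomputable def l16008 : Lb := (@Lb.d (nat_lit 8) (nat_lit 258) (nat_lit 128) (@Lb.g g9 (@Lb.g g10 (@Lb.g g11 (@Lb.r r387 (@Lb.r r402 (@Lb.r r24 (@Lb.r r101 (@Lb.d (nat_lit 21) (nat_lit 137) (nat_lit 2) (@Lb.t (@Lb.fp (nat_lit 9) t240)))))))))))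
noncomputable def l16009 : Lb := (@Lb.g g4 (@Lb.g g6 (@Lb.g g7 (@Lb.r r323 (@Lb.r r2626 (@Lb.d (nat_lit 0) (nat_lit 512) (nat_lit 16) (@Lb.t (@Lb.fp (nat_lit 9) t2))))))))
noncomputable def l16010 : Lb := (@Lb.d (nat_lit 8) (nat_lit 2) (nat_lit 128) (@Lb.g g9 (@Lb.g g10 (@Lb.g g11 (@Lb.r r1447 (@Lb.r r1414 (@Lb.r r24 (@Lb.r r101 (@Lb.d (nat_lit 533) (nat_lit 132) (nat_lit 1) (@Lb.t (@Lb.fp (nat_lit 9) t825)))))))))))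
noncomputable def l16011 : Lb := (@Lb.d (nat_lit 0) (nat_lit 256) (nat_lit 128) (@Lb.g g10 (@Lb.g g11 (@Lb.r r387 (@Lb.r r1414 (@Lb.r r149 (@Lb.r r2120 (@Lb.d (nat_lit 2) (nat_lit 10) (nat_lit 2) (@Lb.fm (nat_lit 3) t145)))))))))
noncomputable def l16012 : Lb := (@Lb.d (nat_lit 8) (nat_lit 2) (nat_lit 136) (@Lb.g g9 (@Lb.g g11 (@Lb.r r402 (@Lb.r r24 (@Lb.r r101 (@Lb.d (nat_lit 26) (nat_lit 138) (nat_lit 130) (@Lb.fp (nat_lit 3) t240))))))))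
noncomputable def l16013 : Lb := (@Lb.r r21 (@Lb.d (nat_lit 9) (nat_lit 264) (nat_lit 130) (@Lb.g g8 (@Lb.g g10 (@Lb.g g11 (@Lb.r r427 (@Lb.r r533 (@Lb.r r360 (@Lb.r r102 (@Lb.d (nat_lit 21) (nat_lit 144) (nat_lit 69) (@Lb.t (@Lb.fp (nat_lit 9) t119))))))))))))
noncomputable def l16014 : Lb := (@Lb.d (nat_lit 0) (nat_lit 0) (nat_lit 130) (@Lb.g g10 (@Lb.g g11 (@Lb.r r614 (@Lb.r r2659 (@Lb.r r101 (@Lb.r r2564 (@Lb.d (nat_lit 517) (nat_lit 18) (nat_lit 0) (@Lb.fm (nat_lit 3) t461)))))))))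
noncomputable def l16015 : Lb := (@Lb.d (nat_lit 2) (nat_lit 2) (nat_lit 128) (@Lb.g g8 (@Lb.g g9 (@Lb.g g11 (@Lb.r r548 (@Lb.r r295 (@Lb.r r2178 (@Lb.r r405 (@Lb.r r2084 (@Lb.d (nat_lit 66) (nat_lit 136) (nat_lit 642) (@Lb.t (@Lb.fp (nat_lit 9) t1540))))))))))))
noncomputable def l16016 : Lb := (@Lb.r r580 (@Lb.r r593 (@Lb.d (nat_lit 128) (nat_lit 8) (nat_lit 66) (@Lb.g g6 (@Lb.g g11 (@Lb.r r388 (@Lb.r r667 (@Lb.r r33 (@Lb.d (nat_lit 82) (nat_lit 26) (nat_lit 132) (@Lb.fp (nat_lit 3) t74))))))))))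
noncomputable def l16017 : Lb := (@Lb.g g7 (@Lb.r r584 (@Lb.r r86 (@Lb.r r289 (@Lb.r r132 (@Lb.d (nat_lit 5) (nat_lit 640) (nat_lit 266) (@Lb.t (@Lb.fm (nat_lit 3) t259))))))))
noncomputable def l16018 : Lb := (@Lb.d (nat_lit 32) (nat_lit 512) (nat_lit 2) (@Lb.g g10 (@Lb.g g7 (@Lb.r r596 (@Lb.r r74 (@Lb.r r289 (@Lb.d (nat_lit 105) (nat_lit 161) (nat_lit 322) (@Lb.fm (nat_lit 3) t259))))))))
noncomputable def l16019 : Lb := (@Lb.d (nat_lit 8) (nat_lit 8) (nat_lit 130) (@Lb.g g8 (@Lb.g g10 (@Lb.g g11 (@Lb.r r353 (@Lb.r r407 (@Lb.r r584 (@Lb.r r134 (@Lb.d (nat_lit 34) (nat_lit 6) (nat_lit 6) (@Lb.t (@Lb.fp (nat_lit 9) t45)))))))))))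
noncomputable def l16020 : Lb := (@Lb.d (nat_lit 2) (nat_lit 2) (nat_lit 129) (@Lb.g g8 (@Lb.g g9 (@Lb.g g10 (@Lb.g g11 (@Lb.r r663 (@Lb.r r2726 (@Lb.r r40 (@Lb.r r105 (@Lb.r r2084 (@Lb.d (nat_lit 362) (nat_lit 26) (nat_lit 337) (@Lb.fp (nat_lit 9) t490))))))))))))
noncomputable def l16021 : Lb := (@Lb.d (nat_lit 0) (nat_lit 520) (nat_lit 2) (@Lb.g g10 (@Lb.r r1427 (@Lb.r r1172 (@Lb.r r89 (@Lb.r r1126 (@Lb.d (nat_lit 280) (nat_lit 74) (nat_lit 18) (@Lb.t (@Lb.fp (nat_lit 3) t1495)))))))))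
noncomputable def l16022 : Lb := (@Lb.r r21 (@Lb.d (nat_lit 81) (nat_lit 512) (nat_lit 64) (@Lb.g g8 (@Lb.g g10 (@Lb.g g11 (@Lb.r r1687 (@Lb.r r402 (@Lb.r r97 (@Lb.r r1640 (@Lb.d (nat_lit 336) (nat_lit 154) (nat_lit 648) (@Lb.t (@Lb.fm (nat_lit 9) t34))))))))))))
noncomputable def l16023 : Lb := (@Lb.d (nat_lit 390) (nat_lit 345) (nat_lit 322) (@Lb.r r2321 (@Lb.r r2182 (@Lb.r r679 (@Lb.g g6 (@Lb.g g5 (@Lb.g g8 (@Lb.d (nat_lit 10) (nat_lit 0) (nat_lit 0) (@Lb.r r387 (@Lb.t (@Lb.fm (nat_lit 9) t3279)))))))))))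
noncomputable def l16024 : Lb := (@Lb.r r82 (@Lb.d (nat_lit 34) (nat_lit 10) (nat_lit 128) (@Lb.g g8 (@Lb.g g9 (@Lb.g g11 (@Lb.r r2403 (@Lb.r r390 (@Lb.r r1364 (@Lb.r r1577 (@Lb.d (nat_lit 325) (nat_lit 72) (nat_lit 546) (@Lb.t (@Lb.fm (nat_lit 9) t443))))))))))))
noncomputable def l16025 : Lb := (@Lb.r r82 (@Lb.d (nat_lit 0) (nat_lit 514) (nat_lit 128) (@Lb.g g9 (@Lb.g g11 (@Lb.r r299 (@Lb.r r386 (@Lb.r r289 (@Lb.r r24 (@Lb.d (nat_lit 74) (nat_lit 144) (nat_lit 266) (@Lb.fp (nat_lit 3) t12))))))))))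
noncomputable def l16026 : Lb := (@Lb.r r82 (@Lb.d (nat_lit 0) (nat_lit 258) (nat_lit 128) (@Lb.g g9 (@Lb.g g11 (@Lb.r r299 (@Lb.r r386 (@Lb.r r289 (@Lb.r r24 (@Lb.d (nat_lit 74) (nat_lit 144) (nat_lit 330) (@Lb.fp (nat_lit 3) t3280))))))))))
noncomputable def l16027 : Lb := (@Lb.r r82 (@Lb.d (nat_lit 34) (nat_lit 258) (nat_lit 128) (@Lb.g g8 (@Lb.g g9 (@Lb.g g11 (@Lb.r r363 (@Lb.r r582 (@Lb.r r408 (@Lb.d (nat_lit 149) (nat_lit 24) (nat_lit 2) (@Lb.t (@Lb.fp (nat_lit 9) t601)))))))))))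
noncomputable def l16028 : Lb := (@Lb.r r82 (@Lb.d (nat_lit 34) (nat_lit 2) (nat_lit 128) (@Lb.g g8 (@Lb.g g9 (@Lb.g g11 (@Lb.r r363 (@Lb.r r582 (@Lb.r r408 (@Lb.r r101 (@Lb.d (nat_lit 38) (nat_lit 162) (nat_lit 5) (@Lb.t (@Lb.fm (nat_lit 9) t789))))))))))))
noncomputable def l16029 : Lb := (@Lb.d (nat_lit 32) (nat_lit 265) (nat_lit 130) (@Lb.g g9 (@Lb.g g10 (@Lb.g g11 (@Lb.r r647 (@Lb.r r293 (@Lb.r r328 (@Lb.r r662 (@Lb.d (nat_lit 165) (nat_lit 37) (nat_lit 64) (@Lb.t (@Lb.fm (nat_lit 9) t98)))))))))))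
noncomputable def l16030 : Lb := (@Lb.d (nat_lit 42) (nat_lit 282) (nat_lit 1) (@Lb.r r360 (@Lb.r r297 (@Lb.r r418 (@Lb.g g11 (@Lb.g g5 (@Lb.g g4 (@Lb.d (nat_lit 17) (nat_lit 17) (nat_lit 128) (@Lb.r r610 (@Lb.t (@Lb.fp (nat_lit 9) t2404)))))))))))
noncomputable def l16031 : Lb := (@Lb.d (nat_lit 1) (nat_lit 516) (nat_lit 1) (@Lb.g g8 (@Lb.g g9 (@Lb.g g10 (@Lb.r r1547 (@Lb.r r1689 (@Lb.r r1688 (@Lb.r r1178 (@Lb.d (nat_lit 537) (nat_lit 2) (nat_lit 138) (@Lb.t (@Lb.fp (nat_lit 9) t224)))))))))))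
noncomputable def l16032 : Lb := (@Lb.r r273 (@Lb.r r322 (@Lb.d (nat_lit 64) (nat_lit 32) (nat_lit 648) (@Lb.g g7 (@Lb.r r280 (@Lb.r r101 (@Lb.r r146 (@Lb.d (nat_lit 66) (nat_lit 145) (nat_lit 330) (@Lb.t (@Lb.fp (nat_lit 3) t3281))))))))))
noncomputable def l16033 : Lb := (@Lb.d (nat_lit 2) (nat_lit 258) (nat_lit 8) (@Lb.g g8 (@Lb.g g9 (@Lb.g g10 (@Lb.r r1555 (@Lb.r r297 (@Lb.r r1700 (@Lb.r r1670 (@Lb.d (nat_lit 130) (nat_lit 10) (nat_lit 520) (@Lb.t (@Lb.fp (nat_lit 9) t3282)))))))))))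
noncomputable def l16034 : Lb := (@Lb.r r323 (@Lb.d (nat_lit 2) (nat_lit 260) (nat_lit 0) (@Lb.g g8 (@Lb.g g9 (@Lb.g g10 (@Lb.r r401 (@Lb.r r299 (@Lb.r r392 (@Lb.r r74 (@Lb.d (nat_lit 36) (nat_lit 1) (nat_lit 1) (@Lb.t (@Lb.fp (nat_lit 9) t1045))))))))))))
noncomputable def l16035 : Lb := (@Lb.d (nat_lit 2) (nat_lit 4) (nat_lit 128) (@Lb.g g8 (@Lb.g g9 (@Lb.g g10 (@Lb.g g11 (@Lb.r r427 (@Lb.r r420 (@Lb.r r102 (@Lb.r r21 (@Lb.r r36 (@Lb.d (nat_lit 26) (nat_lit 133) (nat_lit 1) (@Lb.fp (nat_lit 9) t789))))))))))))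
noncomputable def l16036 : Lb := (@Lb.d (nat_lit 656) (nat_lit 256) (nat_lit 657) (@Lb.r r402 (@Lb.r r101 (@Lb.r r24 (@Lb.g g11 (@Lb.t (@Lb.fm (nat_lit 3) t1637)))))))
noncomputable def l16037 : Lb := (@Lb.d (nat_lit 2) (nat_lit 4) (nat_lit 5) (@Lb.g g8 (@Lb.g g9 (@Lb.g g10 (@Lb.g g11 (@Lb.r r427 (@Lb.r r145 (@Lb.r r356 (@Lb.r r154 (@Lb.r r132 (@Lb.d (nat_lit 9) (nat_lit 2) (nat_lit 2) (@Lb.fm (nat_lit 9) t601))))))))))))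
noncomputable def l16038 : Lb := (@Lb.r r323 (@Lb.d (nat_lit 2) (nat_lit 4) (nat_lit 0) (@Lb.g g8 (@Lb.g g9 (@Lb.g g10 (@Lb.r r401 (@Lb.r r299 (@Lb.r r392 (@Lb.r r74 (@Lb.d (nat_lit 33) (nat_lit 0) (nat_lit 1) (@Lb.t (@Lb.fp (nat_lit 9) t601))))))))))))
noncomputable def l16039 : Lb := (@Lb.d (nat_lit 132) (nat_lit 17) (nat_lit 641) (@Lb.r r2068 (@Lb.r r146 (@Lb.r r361 (@Lb.g g11 (@Lb.g g4 (@Lb.d (nat_lit 65) (nat_lit 0) (nat_lit 580) (@Lb.r r578 (@Lb.r r537 (@Lb.fp (nat_lit 3) t3283))))))))))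
noncomputable def l16040 : Lb := (@Lb.d (nat_lit 160) (nat_lit 514) (nat_lit 65) (@Lb.g g8 (@Lb.g g9 (@Lb.g g10 (@Lb.g g11 (@Lb.r r683 (@Lb.r r618 (@Lb.r r1636 (@Lb.r r37 (@Lb.d (nat_lit 258) (nat_lit 102) (nat_lit 664) (@Lb.fp (nat_lit 9) t1033)))))))))))
noncomputable def l16041 : Lb := (@Lb.d (nat_lit 2) (nat_lit 2) (nat_lit 0) (@Lb.g g8 (@Lb.g g9 (@Lb.g g10 (@Lb.r r515 (@Lb.r r657 (@Lb.r r612 (@Lb.r r666 (@Lb.r r132 (@Lb.d (nat_lit 73) (nat_lit 2) (nat_lit 69) (@Lb.t (@Lb.fm (nat_lit 9) t521))))))))))))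
noncomputable def l16042 : Lb := (@Lb.r r323 (@Lb.d (nat_lit 0) (nat_lit 514) (nat_lit 2) (@Lb.g g8 (@Lb.g g9 (@Lb.g g10 (@Lb.r r401 (@Lb.r r299 (@Lb.r r392 (@Lb.r r74 (@Lb.d (nat_lit 38) (nat_lit 1) (nat_lit 1) (@Lb.t (@Lb.fp (nat_lit 9) t61))))))))))))
noncomputable def l16043 : Lb := (@Lb.d (nat_lit 2) (nat_lit 10) (nat_lit 65) (@Lb.g g8 (@Lb.g g9 (@Lb.g g10 (@Lb.g g11 (@Lb.r r164 (@Lb.r r614 (@Lb.r r529 (@Lb.r r132 (@Lb.d (nat_lit 70) (nat_lit 32) (nat_lit 133) (@Lb.fp (nat_lit 9) t1185)))))))))))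
noncomputable def l16044 : Lb := (@Lb.d (nat_lit 0) (nat_lit 2) (nat_lit 130) (@Lb.g g8 (@Lb.g g9 (@Lb.g g10 (@Lb.g g11 (@Lb.r r427 (@Lb.r r420 (@Lb.r r102 (@Lb.r r21 (@Lb.r r36 (@Lb.d (nat_lit 26) (nat_lit 4) (nat_lit 1) (@Lb.fp (nat_lit 9) t61))))))))))))
noncomputable def l16045 : Lb := (@Lb.r r323 (@Lb.d (nat_lit 128) (nat_lit 290) (nat_lit 18) (@Lb.g g8 (@Lb.g g9 (@Lb.g g10 (@Lb.r r583 (@Lb.r r404 (@Lb.r r105 (@Lb.d (nat_lit 549) (nat_lit 36) (nat_lit 144) (@Lb.t (@Lb.fm (nat_lit 9) t386)))))))))))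
noncomputable def l16046 : Lb := (@Lb.r r323 (@Lb.d (nat_lit 128) (nat_lit 258) (nat_lit 18) (@Lb.g g8 (@Lb.g g9 (@Lb.g g10 (@Lb.r r1623 (@Lb.r r145 (@Lb.r r2312 (@Lb.d (nat_lit 393) (nat_lit 137) (nat_lit 641) (@Lb.t (@Lb.fm (nat_lit 9) t219)))))))))))
noncomputable def l16047 : Lb := (@Lb.d (nat_lit 32) (nat_lit 512) (nat_lit 73) (@Lb.g g9 (@Lb.g g10 (@Lb.g g11 (@Lb.r r2695 (@Lb.r r2341 (@Lb.r r1352 (@Lb.r r2710 (@Lb.d (nat_lit 677) (nat_lit 165) (nat_lit 96) (@Lb.t (@Lb.fm (nat_lit 9) t242)))))))))))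
noncomputable def l16048 : Lb := (@Lb.d (nat_lit 32) (nat_lit 0) (nat_lit 130) (@Lb.g g9 (@Lb.g g10 (@Lb.g g11 (@Lb.r r2695 (@Lb.r r2341 (@Lb.r r1352 (@Lb.r r2710 (@Lb.d (nat_lit 678) (nat_lit 165) (nat_lit 96) (@Lb.t (@Lb.fm (nat_lit 9) t242)))))))))))
noncomputable def l16049 : Lb := (@Lb.d (nat_lit 0) (nat_lit 2) (nat_lit 130) (@Lb.g g8 (@Lb.g g9 (@Lb.g g10 (@Lb.g g11 (@Lb.r r2691 (@Lb.r r88 (@Lb.r r1173 (@Lb.r r1622 (@Lb.r r1188 (@Lb.d (nat_lit 641) (nat_lit 66) (nat_lit 362) (@Lb.fp (nat_lit 9) t992))))))))))))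
noncomputable def l16050 : Lb := (@Lb.r r82 (@Lb.d (nat_lit 5) (nat_lit 0) (nat_lit 128) (@Lb.g g8 (@Lb.g g9 (@Lb.g g11 (@Lb.r r1643 (@Lb.r r386 (@Lb.r r1188 (@Lb.r r1061 (@Lb.d (nat_lit 361) (nat_lit 130) (nat_lit 594) (@Lb.t (@Lb.fp (nat_lit 9) t98))))))))))))
noncomputable def l16051 : Lb := (@Lb.d (nat_lit 129) (nat_lit 528) (nat_lit 137) (@Lb.g g8 (@Lb.g g9 (@Lb.g g10 (@Lb.g g11 (@Lb.r r1706 (@Lb.r r1672 (@Lb.r r1563 (@Lb.r r2341 (@Lb.d (nat_lit 336) (nat_lit 153) (nat_lit 354) (@Lb.fp (nat_lit 9) t3284)))))))))))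
noncomputable def l16052 : Lb := (@Lb.d (nat_lit 134) (nat_lit 17) (nat_lit 137) (@Lb.g g8 (@Lb.g g9 (@Lb.g g10 (@Lb.g g11 (@Lb.r r1706 (@Lb.r r1672 (@Lb.r r1563 (@Lb.r r2341 (@Lb.d (nat_lit 341) (nat_lit 154) (nat_lit 354) (@Lb.fp (nat_lit 9) t3285)))))))))))
noncomputable def l16053 : Lb := (@Lb.r r21 (@Lb.d (nat_lit 2) (nat_lit 264) (nat_lit 130) (@Lb.g g8 (@Lb.g g10 (@Lb.g g11 (@Lb.r r411 (@Lb.r r408 (@Lb.r r101 (@Lb.r r602 (@Lb.d (nat_lit 586) (nat_lit 33) (nat_lit 90) (@Lb.t (@Lb.fm (nat_lit 9) t3286))))))))))))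
noncomputable def l16054 : Lb := (@Lb.d (nat_lit 129) (nat_lit 272) (nat_lit 137) (@Lb.g g8 (@Lb.g g9 (@Lb.g g10 (@Lb.g g11 (@Lb.r r1706 (@Lb.r r1672 (@Lb.r r1563 (@Lb.r r2341 (@Lb.d (nat_lit 341) (nat_lit 154) (nat_lit 354) (@Lb.fp (nat_lit 9) t3285)))))))))))
noncomputable def l16055 : Lb := (@Lb.d (nat_lit 0) (nat_lit 514) (nat_lit 130) (@Lb.g g8 (@Lb.g g9 (@Lb.g g10 (@Lb.g g11 (@Lb.r r1443 (@Lb.r r678 (@Lb.r r1313 (@Lb.r r1608 (@Lb.d (nat_lit 586) (nat_lit 161) (nat_lit 74) (@Lb.fm (nat_lit 9) t3287)))))))))))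
noncomputable def l16056 : Lb := (@Lb.d (nat_lit 5) (nat_lit 641) (nat_lit 512) (@Lb.r r289 (@Lb.r r279 (@Lb.r r584 (@Lb.r r2406 (@Lb.g g10 (@Lb.r r387 (@Lb.t (@Lb.fp (nat_lit 3) t1260)))))))))
noncomputable def l16057 : Lb := (@Lb.r r82 (@Lb.d (nat_lit 6) (nat_lit 546) (nat_lit 128) (@Lb.g g4 (@Lb.g g9 (@Lb.g g11 (@Lb.r r295 (@Lb.r r1626 (@Lb.r r2341 (@Lb.d (nat_lit 585) (nat_lit 80) (nat_lit 384) (@Lb.t (@Lb.fm (nat_lit 9) t2666)))))))))))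
noncomputable def l16058 : Lb := (@Lb.r r81 (@Lb.r r263 (@Lb.d (nat_lit 34) (nat_lit 516) (nat_lit 17) (@Lb.g g8 (@Lb.g g10 (@Lb.r r2475 (@Lb.r r2212 (@Lb.r r37 (@Lb.d (nat_lit 536) (nat_lit 69) (nat_lit 17) (@Lb.fp (nat_lit 3) t3288))))))))))
noncomputable def l16059 : Lb := (@Lb.d (nat_lit 554) (nat_lit 585) (nat_lit 1) (@Lb.r r1432 (@Lb.r r1106 (@Lb.r r343 (@Lb.g g6 (@Lb.g g5 (@Lb.g g4 (@Lb.d (nat_lit 0) (nat_lit 0) (nat_lit 1) (@Lb.r r387 (@Lb.t (@Lb.fm (nat_lit 9) t3289)))))))))))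
noncomputable def l16060 : Lb := (@Lb.d (nat_lit 138) (nat_lit 594) (nat_lit 640) (@Lb.r r539 (@Lb.r r281 (@Lb.r r404 (@Lb.r r614 (@Lb.g g7 (@Lb.g g6 (@Lb.g g5 (@Lb.d (nat_lit 0) (nat_lit 24) (nat_lit 128) (@Lb.t (@Lb.fm (nat_lit 9) t480)))))))))))
noncomputable def l16061 : Lb := (@Lb.d (nat_lit 138) (nat_lit 530) (nat_lit 66) (@Lb.r r536 (@Lb.r r97 (@Lb.r r363 (@Lb.g g10 (@Lb.g g4 (@Lb.d (nat_lit 65) (nat_lit 8) (nat_lit 6) (@Lb.r r25 (@Lb.fp (nat_lit 3) t524)))))))))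
noncomputable def l16062 : Lb := (@Lb.r r82 (@Lb.d (nat_lit 41) (nat_lit 513) (nat_lit 128) (@Lb.g g8 (@Lb.g g9 (@Lb.g g11 (@Lb.r r363 (@Lb.r r390 (@Lb.r r101 (@Lb.r r600 (@Lb.d (nat_lit 136) (nat_lit 38) (nat_lit 136) (@Lb.t (@Lb.fp (nat_lit 9) t381))))))))))))
noncomputable def l16063 : Lb := (@Lb.d (nat_lit 132) (nat_lit 18) (nat_lit 128) (@Lb.r r276 (@Lb.r r2443 (@Lb.r r402 (@Lb.r r2133 (@Lb.g g8 (@Lb.d (nat_lit 5) (nat_lit 0) (nat_lit 0) (@Lb.t (@Lb.fm (nat_lit 3) t1699)))))))))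
noncomputable def l16064 : Lb := (@Lb.d (nat_lit 10) (nat_lit 256) (nat_lit 0) (@Lb.r r2088 (@Lb.r r1065 (@Lb.r r1114 (@Lb.r r1307 (@Lb.g g8 (@Lb.d (nat_lit 5) (nat_lit 0) (nat_lit 0) (@Lb.t (@Lb.fp (nat_lit 3) t584)))))))))
noncomputable def l16065 : Lb := (@Lb.r r82 (@Lb.d (nat_lit 34) (nat_lit 2) (nat_lit 128) (@Lb.g g8 (@Lb.g g9 (@Lb.g g11 (@Lb.r r363 (@Lb.r r582 (@Lb.r r392 (@Lb.d (nat_lit 152) (nat_lit 9) (nat_lit 18) (@Lb.t (@Lb.fp (nat_lit 9) t540)))))))))))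
noncomputable def l16066 : Lb := (@Lb.r r70 (@Lb.r r263 (@Lb.d (nat_lit 10) (nat_lit 257) (nat_lit 0) (@Lb.g g8 (@Lb.g g9 (@Lb.r r1561 (@Lb.r r407 (@Lb.r r1350 (@Lb.r r1604 (@Lb.d (nat_lit 274) (nat_lit 0) (nat_lit 352) (@Lb.fm (nat_lit 3) t3290)))))))))))
noncomputable def l16067 : Lb := (@Lb.r r70 (@Lb.d (nat_lit 34) (nat_lit 650) (nat_lit 128) (@Lb.g g8 (@Lb.g g9 (@Lb.g g11 (@Lb.r r1707 (@Lb.r r2454 (@Lb.r r584 (@Lb.d (nat_lit 98) (nat_lit 0) (nat_lit 137) (@Lb.t (@Lb.fp (nat_lit 9) t10)))))))))))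
noncomputable def l16068 : Lb := (@Lb.d (nat_lit 401) (nat_lit 512) (nat_lit 104) (@Lb.r r24 (@Lb.r r1125 (@Lb.r r386 (@Lb.r r2387 (@Lb.g g7 (@Lb.g g6 (@Lb.g g5 (@Lb.d (nat_lit 0) (nat_lit 1) (nat_lit 65) (@Lb.t (@Lb.fm (nat_lit 9) t218)))))))))))
noncomputable def l16069 : Lb := (@Lb.d (nat_lit 646) (nat_lit 342) (nat_lit 18) (@Lb.r r1301 (@Lb.r r1366 (@Lb.r r683 (@Lb.g g6 (@Lb.g g5 (@Lb.g g4 (@Lb.d (nat_lit 1) (nat_lit 6) (nat_lit 2) (@Lb.t (@Lb.fm (nat_lit 9) t578))))))))))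
noncomputable def l16070 : Lb := (@Lb.r r322 (@Lb.d (nat_lit 678) (nat_lit 17) (nat_lit 264) (@Lb.g g8 (@Lb.g g9 (@Lb.g g11 (@Lb.r r2666 (@Lb.r r2729 (@Lb.d (nat_lit 341) (nat_lit 40) (nat_lit 320) (@Lb.t (@Lb.fp (nat_lit 9) t829))))))))))
noncomputable def l16071 : Lb := (@Lb.d (nat_lit 0) (nat_lit 288) (nat_lit 128) (@Lb.g g11 (@Lb.r r1361 (@Lb.r r295 (@Lb.r r2178 (@Lb.r r2564 (@Lb.d (nat_lit 265) (nat_lit 0) (nat_lit 2) (@Lb.t (@Lb.fm (nat_lit 3) t229)))))))))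
noncomputable def l16072 : Lb := (@Lb.r r82 (@Lb.r r275 (@Lb.g g4 (@Lb.g g9 (@Lb.r r1291 (@Lb.r r1098 (@Lb.r r1044 (@Lb.r r25 (@Lb.d (nat_lit 258) (nat_lit 640) (nat_lit 0) (@Lb.fp (nat_lit 3) t367))))))))))
noncomputable def l16073 : Lb := (@Lb.d (nat_lit 100) (nat_lit 681) (nat_lit 166) (@Lb.r r408 (@Lb.r r330 (@Lb.r r407 (@Lb.g g7 (@Lb.g g5 (@Lb.g g4 (@Lb.d (nat_lit 17) (nat_lit 1) (nat_lit 64) (@Lb.r r98 (@Lb.t (@Lb.fm (nat_lit 9) t242)))))))))))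
noncomputable def l16074 : Lb := (@Lb.d (nat_lit 260) (nat_lit 325) (nat_lit 102) (@Lb.r r68 (@Lb.r r90 (@Lb.r r596 (@Lb.r r279 (@Lb.g g7 (@Lb.g g6 (@Lb.g g5 (@Lb.g g4 (@Lb.d (nat_lit 1) (nat_lit 133) (nat_lit 66) (@Lb.fp (nat_lit 9) t3291)))))))))))
noncomputable def l16075 : Lb := (@Lb.d (nat_lit 2) (nat_lit 138) (nat_lit 98) (@Lb.r r154 (@Lb.r r660 (@Lb.r r279 (@Lb.r r545 (@Lb.g g7 (@Lb.g g4 (@Lb.d (nat_lit 6) (nat_lit 0) (nat_lit 64) (@Lb.fm (nat_lit 3) t119)))))))))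
noncomputable def l16076 : Lb := (@Lb.r r82 (@Lb.r r275 (@Lb.d (nat_lit 9) (nat_lit 2) (nat_lit 0) (@Lb.g g8 (@Lb.g g9 (@Lb.r r299 (@Lb.r r106 (@Lb.r r25 (@Lb.d (nat_lit 9) (nat_lit 133) (nat_lit 32) (@Lb.fm (nat_lit 3) t7))))))))))
noncomputable def l16077 : Lb := (@Lb.r r82 (@Lb.r r275 (@Lb.g g4 (@Lb.g g9 (@Lb.r r1291 (@Lb.r r1098 (@Lb.r r1044 (@Lb.r r25 (@Lb.d (nat_lit 256) (nat_lit 384) (nat_lit 0) (@Lb.fp (nat_lit 3) t428))))))))))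
noncomputable def l16078 : Lb := (@Lb.d (nat_lit 2) (nat_lit 258) (nat_lit 130) (@Lb.g g8 (@Lb.g g9 (@Lb.g g10 (@Lb.g g11 (@Lb.r r427 (@Lb.r r145 (@Lb.r r356 (@Lb.r r154 (@Lb.r r132 (@Lb.d (nat_lit 4) (nat_lit 8) (nat_lit 18) (@Lb.fm (nat_lit 9) t221))))))))))))
noncomputable def l16079 : Lb := (@Lb.d (nat_lit 2) (nat_lit 514) (nat_lit 130) (@Lb.g g8 (@Lb.g g9 (@Lb.g g10 (@Lb.g g11 (@Lb.r r427 (@Lb.r r145 (@Lb.r r356 (@Lb.r r154 (@Lb.r r132 (@Lb.d (nat_lit 4) (nat_lit 8) (nat_lit 146) (@Lb.fm (nat_lit 9) t756))))))))))))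
noncomputable def l16080 : Lb := (@Lb.g g7 (@Lb.r r152 (@Lb.r r602 (@Lb.r r2453 (@Lb.r r1060 (@Lb.d (nat_lit 0) (nat_lit 0) (nat_lit 354) (@Lb.t (@Lb.fp (nat_lit 3) t572))))))))
noncomputable def l16081 : Lb := (@Lb.d (nat_lit 6) (nat_lit 166) (nat_lit 294) (@Lb.r r21 (@Lb.r r1366 (@Lb.r r683 (@Lb.g g6 (@Lb.g g5 (@Lb.g g4 (@Lb.d (nat_lit 1) (nat_lit 1) (nat_lit 1) (@Lb.t (@Lb.fm (nat_lit 9) t40))))))))))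
noncomputable def l16082 : Lb := (@Lb.d (nat_lit 9) (nat_lit 1) (nat_lit 0) (@Lb.g g8 (@Lb.g g9 (@Lb.g g10 (@Lb.r r2723 (@Lb.r r657 (@Lb.r r2404 (@Lb.r r1178 (@Lb.d (nat_lit 426) (nat_lit 137) (nat_lit 324) (@Lb.t (@Lb.fm (nat_lit 9) t66)))))))))))
noncomputable def l16083 : Lb := (@Lb.r r21 (@Lb.d (nat_lit 2) (nat_lit 256) (nat_lit 130) (@Lb.g g8 (@Lb.g g10 (@Lb.g g11 (@Lb.r r395 (@Lb.r r386 (@Lb.r r1313 (@Lb.r r72 (@Lb.d (nat_lit 294) (nat_lit 8) (nat_lit 401) (@Lb.t (@Lb.fp (nat_lit 9) t3292))))))))))))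
noncomputable def l16084 : Lb := (@Lb.d (nat_lit 345) (nat_lit 82) (nat_lit 342) (@Lb.r r24 (@Lb.r r2374 (@Lb.r r1691 (@Lb.g g7 (@Lb.g g6 (@Lb.g g9 (@Lb.d (nat_lit 0) (nat_lit 10) (nat_lit 133) (@Lb.t (@Lb.fm (nat_lit 9) t1109))))))))))
noncomputable def l16085 : Lb := (@Lb.d (nat_lit 2) (nat_lit 514) (nat_lit 130) (@Lb.g g8 (@Lb.g g9 (@Lb.g g10 (@Lb.g g11 (@Lb.r r427 (@Lb.r r386 (@Lb.r r104 (@Lb.r r25 (@Lb.d (nat_lit 586) (nat_lit 9) (nat_lit 153) (@Lb.fp (nat_lit 9) t61)))))))))))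
noncomputable def l16086 : Lb := (@Lb.d (nat_lit 400) (nat_lit 88) (nat_lit 598) (@Lb.r r1382 (@Lb.r r89 (@Lb.r r1556 (@Lb.r r1383 (@Lb.g g7 (@Lb.g g6 (@Lb.g g5 (@Lb.d (nat_lit 16) (nat_lit 8) (nat_lit 133) (@Lb.t (@Lb.fp (nat_lit 9) t3293)))))))))))
noncomputable def l16087 : Lb := (@Lb.d (nat_lit 645) (nat_lit 406) (nat_lit 354) (@Lb.r r1556 (@Lb.r r281 (@Lb.r r615 (@Lb.g g6 (@Lb.g g4 (@Lb.d (nat_lit 69) (nat_lit 4) (nat_lit 17) (@Lb.r r387 (@Lb.fp (nat_lit 3) t1738)))))))))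
noncomputable def l16088 : Lb := (@Lb.d (nat_lit 128) (nat_lit 258) (nat_lit 73) (@Lb.g g8 (@Lb.g g9 (@Lb.g g10 (@Lb.g g11 (@Lb.r r683 (@Lb.r r2410 (@Lb.r r537 (@Lb.r r516 (@Lb.d (nat_lit 137) (nat_lit 89) (nat_lit 21) (@Lb.fm (nat_lit 9) t773)))))))))))
noncomputable def l16089 : Lb := (@Lb.d (nat_lit 0) (nat_lit 256) (nat_lit 130) (@Lb.g g9 (@Lb.g g10 (@Lb.g g11 (@Lb.r r614 (@Lb.r r2659 (@Lb.r r101 (@Lb.r r2564 (@Lb.d (nat_lit 517) (nat_lit 18) (nat_lit 0) (@Lb.t (@Lb.fm (nat_lit 9) t461)))))))))))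
noncomputable def l16090 : Lb := (@Lb.r r323 (@Lb.d (nat_lit 134) (nat_lit 512) (nat_lit 2) (@Lb.g g8 (@Lb.g g9 (@Lb.g g10 (@Lb.r r599 (@Lb.r r98 (@Lb.r r97 (@Lb.r r408 (@Lb.d (nat_lit 150) (nat_lit 26) (nat_lit 74) (@Lb.t (@Lb.fp (nat_lit 9) t119))))))))))))
noncomputable def l16091 : Lb := (@Lb.d (nat_lit 4) (nat_lit 518) (nat_lit 74) (@Lb.g g5 (@Lb.g g10 (@Lb.g g11 (@Lb.r r659 (@Lb.r r578 (@Lb.d (nat_lit 0) (nat_lit 20) (nat_lit 136) (@Lb.t (@Lb.fm (nat_lit 9) t50)))))))))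
noncomputable def l16092 : Lb := (@Lb.d (nat_lit 6) (nat_lit 0) (nat_lit 130) (@Lb.g g8 (@Lb.g g9 (@Lb.g g10 (@Lb.g g11 (@Lb.r r427 (@Lb.r r420 (@Lb.r r102 (@Lb.r r97 (@Lb.r r36 (@Lb.d (nat_lit 2) (nat_lit 9) (nat_lit 137) (@Lb.fm (nat_lit 9) t51))))))))))))
noncomputable def l16093 : Lb := (@Lb.r r82 (@Lb.d (nat_lit 277) (nat_lit 290) (nat_lit 64) (@Lb.g g4 (@Lb.g g9 (@Lb.g g11 (@Lb.r r1571 (@Lb.r r2438 (@Lb.r r145 (@Lb.d (nat_lit 1) (nat_lit 96) (nat_lit 552) (@Lb.t (@Lb.fp (nat_lit 9) t68)))))))))))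
noncomputable def l16094 : Lb := (@Lb.d (nat_lit 682) (nat_lit 144) (nat_lit 338) (@Lb.r r2321 (@Lb.r r2666 (@Lb.r r679 (@Lb.g g7 (@Lb.g g6 (@Lb.g g5 (@Lb.g g8 (@Lb.d (nat_lit 10) (nat_lit 5) (nat_lit 68) (@Lb.fp (nat_lit 9) t3294))))))))))
noncomputable def l16095 : Lb := (@Lb.d (nat_lit 10) (nat_lit 514) (nat_lit 130) (@Lb.g g8 (@Lb.g g9 (@Lb.g g10 (@Lb.g g11 (@Lb.r r2403 (@Lb.r r386 (@Lb.r r2725 (@Lb.r r24 (@Lb.d (nat_lit 98) (nat_lit 0) (nat_lit 420) (@Lb.fm (nat_lit 9) t2191)))))))))))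
noncomputable def l16096 : Lb := (@Lb.d (nat_lit 136) (nat_lit 8) (nat_lit 65) (@Lb.g g8 (@Lb.g g9 (@Lb.g g10 (@Lb.g g11 (@Lb.r r683 (@Lb.r r618 (@Lb.r r1625 (@Lb.r r1604 (@Lb.d (nat_lit 408) (nat_lit 65) (nat_lit 664) (@Lb.fm (nat_lit 9) t1264)))))))))))
noncomputable def l16097 : Lb := (@Lb.d (nat_lit 136) (nat_lit 8) (nat_lit 65) (@Lb.g g8 (@Lb.g g9 (@Lb.g g10 (@Lb.g g11 (@Lb.r r683 (@Lb.r r618 (@Lb.r r1625 (@Lb.r r1604 (@Lb.d (nat_lit 408) (nat_lit 128) (nat_lit 664) (@Lb.fm (nat_lit 9) t3295)))))))))))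
noncomputable def l16098 : Lb := (@Lb.d (nat_lit 0) (nat_lit 512) (nat_lit 128) (@Lb.g g11 (@Lb.r r602 (@Lb.r r584 (@Lb.r r299 (@Lb.r r289 (@Lb.d (nat_lit 538) (nat_lit 9) (nat_lit 544) (@Lb.t (@Lb.fp (nat_lit 3) t2706)))))))))
noncomputable def l16099 : Lb := (@Lb.d (nat_lit 0) (nat_lit 266) (nat_lit 1) (@Lb.g g4 (@Lb.g g5 (@Lb.g g10 (@Lb.r r146 (@Lb.d (nat_lit 0) (nat_lit 8) (nat_lit 1) (@Lb.t (@Lb.fp (nat_lit 9) t2365))))))))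
noncomputable def l16100 : Lb := (@Lb.d (nat_lit 136) (nat_lit 264) (nat_lit 65) (@Lb.g g8 (@Lb.g g9 (@Lb.g g10 (@Lb.g g11 (@Lb.r r683 (@Lb.r r618 (@Lb.r r612 (@Lb.r r37 (@Lb.d (nat_lit 9) (nat_lit 164) (nat_lit 136) (@Lb.fp (nat_lit 9) t3296)))))))))))
noncomputable def l16101 : Lb := (@Lb.d (nat_lit 136) (nat_lit 513) (nat_lit 66) (@Lb.g g8 (@Lb.g g9 (@Lb.g g10 (@Lb.g g11 (@Lb.r r683 (@Lb.r r618 (@Lb.r r612 (@Lb.r r37 (@Lb.d (nat_lit 10) (nat_lit 164) (nat_lit 136) (@Lb.fp (nat_lit 9) t3297)))))))))))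
noncomputable def l16102 : Lb := (@Lb.d (nat_lit 0) (nat_lit 512) (nat_lit 128) (@Lb.g g10 (@Lb.g g11 (@Lb.r r1415 (@Lb.r r402 (@Lb.r r1121 (@Lb.r r8 (@Lb.d (nat_lit 266) (nat_lit 130) (nat_lit 0) (@Lb.fp (nat_lit 3) t825)))))))))
noncomputable def l16103 : Lb := (@Lb.d (nat_lit 2) (nat_lit 258) (nat_lit 130) (@Lb.g g8 (@Lb.g g9 (@Lb.g g10 (@Lb.g g11 (@Lb.r r610 (@Lb.r r612 (@Lb.r r359 (@Lb.r r277 (@Lb.r r548 (@Lb.d (nat_lit 4) (nat_lit 130) (nat_lit 162) (@Lb.fp (nat_lit 9) t1480))))))))))))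
noncomputable def l16104 : Lb := (@Lb.r r21 (@Lb.d (nat_lit 1) (nat_lit 512) (nat_lit 130) (@Lb.g g8 (@Lb.g g10 (@Lb.g g11 (@Lb.r r395 (@Lb.r r386 (@Lb.r r149 (@Lb.r r72 (@Lb.d (nat_lit 81) (nat_lit 0) (nat_lit 70) (@Lb.t (@Lb.fm (nat_lit 9) t61))))))))))))
noncomputable def l16105 : Lb := (@Lb.d (nat_lit 2) (nat_lit 0) (nat_lit 128) (@Lb.g g8 (@Lb.g g10 (@Lb.g g11 (@Lb.r r387 (@Lb.r r402 (@Lb.r r101 (@Lb.r r24 (@Lb.d (nat_lit 2) (nat_lit 10) (nat_lit 2) (@Lb.t (@Lb.fp (nat_lit 9) t145)))))))))))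
noncomputable def l16106 : Lb := (@Lb.d (nat_lit 0) (nat_lit 265) (nat_lit 294) (@Lb.r r2196 (@Lb.r r386 (@Lb.r r595 (@Lb.r r2321 (@Lb.g g7 (@Lb.g g6 (@Lb.d (nat_lit 0) (nat_lit 0) (nat_lit 65) (@Lb.fm (nat_lit 3) t1401)))))))))
noncomputable def l16107 : Lb := (@Lb.r r82 (@Lb.d (nat_lit 34) (nat_lit 33) (nat_lit 64) (@Lb.g g8 (@Lb.g g9 (@Lb.g g11 (@Lb.r r1698 (@Lb.r r1577 (@Lb.r r616 (@Lb.r r587 (@Lb.d (nat_lit 385) (nat_lit 150) (nat_lit 361) (@Lb.t (@Lb.fm (nat_lit 9) t152))))))))))))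
noncomputable def l16108 : Lb := (@Lb.r r82 (@Lb.d (nat_lit 34) (nat_lit 258) (nat_lit 136) (@Lb.g g8 (@Lb.g g9 (@Lb.g g11 (@Lb.r r1641 (@Lb.r r150 (@Lb.r r356 (@Lb.r r395 (@Lb.d (nat_lit 386) (nat_lit 150) (nat_lit 64) (@Lb.t (@Lb.fm (nat_lit 9) t152))))))))))))
noncomputable def l16109 : Lb := (@Lb.d (nat_lit 129) (nat_lit 9) (nat_lit 0) (@Lb.g g8 (@Lb.g g9 (@Lb.r r394 (@Lb.r r2647 (@Lb.r r1313 (@Lb.r r152 (@Lb.d (nat_lit 26) (nat_lit 133) (nat_lit 385) (@Lb.fm (nat_lit 3) t71)))))))))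
noncomputable def l16110 : Lb := (@Lb.d (nat_lit 168) (nat_lit 513) (nat_lit 8) (@Lb.g g8 (@Lb.g g9 (@Lb.g g6 (@Lb.r r407 (@Lb.r r2665 (@Lb.r r2644 (@Lb.d (nat_lit 657) (nat_lit 32) (nat_lit 410) (@Lb.t (@Lb.fm (nat_lit 9) t199))))))))))
noncomputable def l16111 : Lb := (@Lb.d (nat_lit 40) (nat_lit 544) (nat_lit 8) (@Lb.g g8 (@Lb.g g5 (@Lb.g g6 (@Lb.r r423 (@Lb.r r600 (@Lb.d (nat_lit 89) (nat_lit 36) (nat_lit 138) (@Lb.t (@Lb.fp (nat_lit 9) t1074)))))))))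
noncomputable def l16112 : Lb := (@Lb.r r70 (@Lb.d (nat_lit 41) (nat_lit 32) (nat_lit 0) (@Lb.g g8 (@Lb.g g5 (@Lb.r r322 (@Lb.r r423 (@Lb.r r600 (@Lb.d (nat_lit 101) (nat_lit 38) (nat_lit 138) (@Lb.fm (nat_lit 3) t1074)))))))))
noncomputable def l16113 : Lb := (@Lb.r r323 (@Lb.d (nat_lit 40) (nat_lit 258) (nat_lit 26) (@Lb.g g9 (@Lb.g g10 (@Lb.r r1627 (@Lb.r r1624 (@Lb.r r2341 (@Lb.d (nat_lit 273) (nat_lit 10) (nat_lit 33) (@Lb.fp (nat_lit 3) t3298)))))))))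
noncomputable def l16114 : Lb := (@Lb.r r323 (@Lb.d (nat_lit 161) (nat_lit 258) (nat_lit 9) (@Lb.g g8 (@Lb.g g9 (@Lb.g g6 (@Lb.r r407 (@Lb.r r537 (@Lb.r r516 (@Lb.d (nat_lit 130) (nat_lit 6) (nat_lit 129) (@Lb.t (@Lb.fp (nat_lit 9) t128)))))))))))
noncomputable def l16115 : Lb := (@Lb.d (nat_lit 0) (nat_lit 2) (nat_lit 130) (@Lb.g g9 (@Lb.g g10 (@Lb.g g11 (@Lb.r r427 (@Lb.r r409 (@Lb.r r90 (@Lb.r r145 (@Lb.d (nat_lit 393) (nat_lit 9) (nat_lit 34) (@Lb.t (@Lb.fm (nat_lit 9) t3015)))))))))))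
noncomputable def l16116 : Lb := (@Lb.d (nat_lit 154) (nat_lit 257) (nat_lit 128) (@Lb.g g8 (@Lb.g g9 (@Lb.g g10 (@Lb.g g11 (@Lb.r r387 (@Lb.r r164 (@Lb.r r2470 (@Lb.r r145 (@Lb.d (nat_lit 325) (nat_lit 68) (nat_lit 408) (@Lb.fm (nat_lit 9) t4)))))))))))
noncomputable def l16117 : Lb := (@Lb.d (nat_lit 401) (nat_lit 138) (nat_lit 138) (@Lb.r r2069 (@Lb.r r1124 (@Lb.r r386 (@Lb.r r2395 (@Lb.g g7 (@Lb.g g6 (@Lb.g g5 (@Lb.d (nat_lit 0) (nat_lit 0) (nat_lit 65) (@Lb.t (@Lb.fm (nat_lit 9) t2101)))))))))))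
noncomputable def l16118 : Lb := (@Lb.d (nat_lit 153) (nat_lit 1) (nat_lit 5) (@Lb.g g8 (@Lb.g g9 (@Lb.g g10 (@Lb.g g11 (@Lb.r r683 (@Lb.r r618 (@Lb.r r1561 (@Lb.r r1540 (@Lb.d (nat_lit 386) (nat_lit 74) (nat_lit 673) (@Lb.fm (nat_lit 9) t199)))))))))))
noncomputable def l16119 : Lb := (@Lb.d (nat_lit 153) (nat_lit 1) (nat_lit 5) (@Lb.g g8 (@Lb.g g9 (@Lb.g g10 (@Lb.g g11 (@Lb.r r683 (@Lb.r r618 (@Lb.r r552 (@Lb.r r41 (@Lb.r r36 (@Lb.d (nat_lit 25) (nat_lit 169) (nat_lit 129) (@Lb.fm (nat_lit 9) t3299))))))))))))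
noncomputable def l16120 : Lb := (@Lb.d (nat_lit 9) (nat_lit 289) (nat_lit 130) (@Lb.g g8 (@Lb.g g9 (@Lb.g g10 (@Lb.g g11 (@Lb.r r2721 (@Lb.r r2343 (@Lb.r r1668 (@Lb.r r1158 (@Lb.d (nat_lit 545) (nat_lit 8) (nat_lit 154) (@Lb.fp (nat_lit 9) t85)))))))))))
noncomputable def l16121 : Lb := (@Lb.d (nat_lit 0) (nat_lit 512) (nat_lit 128) (@Lb.g g10 (@Lb.g g11 (@Lb.r r293 (@Lb.r r2587 (@Lb.r r1126 (@Lb.r r2584 (@Lb.d (nat_lit 66) (nat_lit 0) (nat_lit 0) (@Lb.fp (nat_lit 3) t521)))))))))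
noncomputable def l16122 : Lb := (@Lb.r r68 (@Lb.d (nat_lit 0) (nat_lit 288) (nat_lit 74) (@Lb.g g10 (@Lb.g g11 (@Lb.r r353 (@Lb.r r2451 (@Lb.r r2084 (@Lb.d (nat_lit 2) (nat_lit 150) (nat_lit 664) (@Lb.fp (nat_lit 3) t765)))))))))
noncomputable def l16123 : Lb := (@Lb.d (nat_lit 2) (nat_lit 2) (nat_lit 130) (@Lb.g g8 (@Lb.g g9 (@Lb.g g10 (@Lb.g g11 (@Lb.r r1443 (@Lb.r r386 (@Lb.r r1129 (@Lb.r r36 (@Lb.d (nat_lit 612) (nat_lit 1) (nat_lit 84) (@Lb.fp (nat_lit 9) t61)))))))))))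
noncomputable def l16124 : Lb := (@Lb.d (nat_lit 0) (nat_lit 514) (nat_lit 130) (@Lb.g g9 (@Lb.g g10 (@Lb.g g11 (@Lb.r r423 (@Lb.r r386 (@Lb.r r148 (@Lb.r r25 (@Lb.d (nat_lit 98) (nat_lit 5) (nat_lit 69) (@Lb.t (@Lb.fp (nat_lit 9) t61)))))))))))
noncomputable def l16125 : Lb := (@Lb.d (nat_lit 2) (nat_lit 258) (nat_lit 130) (@Lb.g g8 (@Lb.g g9 (@Lb.g g10 (@Lb.g g11 (@Lb.r r427 (@Lb.r r2473 (@Lb.r r2472 (@Lb.r r2154 (@Lb.d (nat_lit 293) (nat_lit 132) (nat_lit 152) (@Lb.fp (nat_lit 9) t2316)))))))))))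
noncomputable def l16126 : Lb := (@Lb.r r323 (@Lb.d (nat_lit 0) (nat_lit 258) (nat_lit 2) (@Lb.g g8 (@Lb.g g9 (@Lb.g g10 (@Lb.r r401 (@Lb.r r299 (@Lb.r r392 (@Lb.r r74 (@Lb.d (nat_lit 33) (nat_lit 129) (nat_lit 136) (@Lb.t (@Lb.fp (nat_lit 9) t1350))))))))))))
noncomputable def l16127 : Lb := (@Lb.d (nat_lit 400) (nat_lit 297) (nat_lit 410) (@Lb.r r610 (@Lb.r r617 (@Lb.r r424 (@Lb.g g11 (@Lb.g g6 (@Lb.d (nat_lit 32) (nat_lit 0) (nat_lit 129) (@Lb.fp (nat_lit 3) t835))))))))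
noncomputable def l16128 : Lb := (@Lb.d (nat_lit 17) (nat_lit 640) (nat_lit 145) (@Lb.r r2085 (@Lb.r r1112 (@Lb.r r422 (@Lb.g g11 (@Lb.g g5 (@Lb.d (nat_lit 4) (nat_lit 18) (nat_lit 264) (@Lb.r r578 (@Lb.fm (nat_lit 3) t3032)))))))))
noncomputable def l16129 : Lb := (@Lb.d (nat_lit 577) (nat_lit 256) (nat_lit 609) (@Lb.r r1418 (@Lb.r r1448 (@Lb.r r2665 (@Lb.r r2467 (@Lb.g g7 (@Lb.g g6 (@Lb.d (nat_lit 0) (nat_lit 0) (nat_lit 8) (@Lb.fp (nat_lit 3) t835)))))))))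
noncomputable def l16130 : Lb := (@Lb.d (nat_lit 586) (nat_lit 513) (nat_lit 661) (@Lb.r r1297 (@Lb.r r291 (@Lb.r r417 (@Lb.r r2214 (@Lb.g g7 (@Lb.g g6 (@Lb.g g5 (@Lb.g g8 (@Lb.d (nat_lit 320) (nat_lit 1) (nat_lit 129) (@Lb.fm (nat_lit 9) t3300)))))))))))
noncomputable def l16131 : Lb := (@Lb.d (nat_lit 6) (nat_lit 0) (nat_lit 130) (@Lb.g g8 (@Lb.g g9 (@Lb.g g10 (@Lb.g g11 (@Lb.r r427 (@Lb.r r420 (@Lb.r r102 (@Lb.r r97 (@Lb.r r36 (@Lb.d (nat_lit 2) (nat_lit 2) (nat_lit 74) (@Lb.fm (nat_lit 9) t119))))))))))))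
noncomputable def l16132 : Lb := (@Lb.d (nat_lit 2) (nat_lit 294) (nat_lit 128) (@Lb.g g8 (@Lb.g g9 (@Lb.g g10 (@Lb.g g11 (@Lb.r r2666 (@Lb.r r2657 (@Lb.r r295 (@Lb.d (nat_lit 533) (nat_lit 38) (nat_lit 614) (@Lb.fm (nat_lit 9) t2040))))))))))
noncomputable def l16133 : Lb := (@Lb.d (nat_lit 130) (nat_lit 9) (nat_lit 0) (@Lb.g g8 (@Lb.g g9 (@Lb.r r263 (@Lb.r r146 (@Lb.r r97 (@Lb.r r520 (@Lb.d (nat_lit 66) (nat_lit 0) (nat_lit 130) (@Lb.fp (nat_lit 3) t45)))))))))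
noncomputable def l16134 : Lb := (@Lb.d (nat_lit 0) (nat_lit 320) (nat_lit 137) (@Lb.r r346 (@Lb.r r423 (@Lb.r r293 (@Lb.g g7 (@Lb.d (nat_lit 0) (nat_lit 16) (nat_lit 128) (@Lb.t (@Lb.fp (nat_lit 3) t98))))))))
noncomputable def l16135 : Lb := (@Lb.r r134 (@Lb.r r324 (@Lb.r r411 (@Lb.r r609 (@Lb.r r36 (@Lb.d (nat_lit 0) (nat_lit 320) (nat_lit 154) (@Lb.fp (nat_lit 1) t1482)))))))
noncomputable def l16136 : Lb := (@Lb.d (nat_lit 36) (nat_lit 258) (nat_lit 66) (@Lb.g g8 (@Lb.g g9 (@Lb.g g10 (@Lb.g g11 (@Lb.r r2705 (@Lb.r r1683 (@Lb.r r644 (@Lb.r r582 (@Lb.r r1156 (@Lb.d (nat_lit 393) (nat_lit 2) (nat_lit 66) (@Lb.fm (nat_lit 9) t329))))))))))))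
noncomputable def l16137 : Lb := (@Lb.d (nat_lit 36) (nat_lit 514) (nat_lit 130) (@Lb.g g8 (@Lb.g g9 (@Lb.g g10 (@Lb.g g11 (@Lb.r r2705 (@Lb.r r1683 (@Lb.r r644 (@Lb.r r582 (@Lb.r r1156 (@Lb.d (nat_lit 386) (nat_lit 0) (nat_lit 66) (@Lb.fm (nat_lit 9) t329))))))))))))
noncomputable def l16138 : Lb := (@Lb.d (nat_lit 101) (nat_lit 357) (nat_lit 6) (@Lb.r r101 (@Lb.r r386 (@Lb.r r339 (@Lb.g g7 (@Lb.g g6 (@Lb.d (nat_lit 0) (nat_lit 0) (nat_lit 129) (@Lb.fm (nat_lit 3) t98))))))))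
noncomputable def l16139 : Lb := (@Lb.d (nat_lit 128) (nat_lit 521) (nat_lit 0) (@Lb.g g8 (@Lb.g g9 (@Lb.r r263 (@Lb.r r146 (@Lb.r r97 (@Lb.r r520 (@Lb.d (nat_lit 66) (nat_lit 0) (nat_lit 130) (@Lb.fp (nat_lit 3) t45)))))))))
noncomputable def l16140 : Lb := (@Lb.r r24 (@Lb.r r2069 (@Lb.r r36 (@Lb.d (nat_lit 5) (nat_lit 262) (nat_lit 1) (@Lb.fm (nat_lit 1) t45)))))
noncomputable def l16141 : Lb := (@Lb.r r24 (@Lb.r r2069 (@Lb.r r36 (@Lb.d (nat_lit 0) (nat_lit 517) (nat_lit 1) (@Lb.fm (nat_lit 1) t45)))))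
noncomputable def l16142 : Lb := (@Lb.d (nat_lit 0) (nat_lit 518) (nat_lit 128) (@Lb.g g8 (@Lb.g g9 (@Lb.g g10 (@Lb.g g11 (@Lb.r r1602 (@Lb.r r516 (@Lb.r r599 (@Lb.r r297 (@Lb.r r1060 (@Lb.d (nat_lit 674) (nat_lit 73) (nat_lit 134) (@Lb.fp (nat_lit 9) t400))))))))))))
noncomputable def l16143 : Lb := (@Lb.d (nat_lit 534) (nat_lit 257) (nat_lit 86) (@Lb.r r20 (@Lb.r r2153 (@Lb.r r386 (@Lb.g g11 (@Lb.g g6 (@Lb.g g5 (@Lb.g g4 (@Lb.d (nat_lit 1) (nat_lit 8) (nat_lit 5) (@Lb.fm (nat_lit 9) t51))))))))))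
noncomputable def l16144 : Lb := (@Lb.d (nat_lit 8) (nat_lit 258) (nat_lit 128) (@Lb.g g9 (@Lb.g g11 (@Lb.r r154 (@Lb.r r404 (@Lb.r r1371 (@Lb.r r2705 (@Lb.d (nat_lit 8) (nat_lit 98) (nat_lit 296) (@Lb.fp (nat_lit 3) t71)))))))))
noncomputable def l16145 : Lb := (@Lb.d (nat_lit 5) (nat_lit 1) (nat_lit 0) (@Lb.r r20 (@Lb.r r2137 (@Lb.r r323 (@Lb.g g10 (@Lb.g g4 (@Lb.d (nat_lit 1) (nat_lit 4) (nat_lit 2) (@Lb.r r387 (@Lb.r r145 (@Lb.fp (nat_lit 3) t892))))))))))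
noncomputable def l16146 : Lb := (@Lb.r r20 (@Lb.d (nat_lit 0) (nat_lit 577) (nat_lit 0) (@Lb.g g9 (@Lb.r r322 (@Lb.r r1667 (@Lb.r r578 (@Lb.d (nat_lit 0) (nat_lit 146) (nat_lit 320) (@Lb.t (@Lb.fm (nat_lit 3) t210)))))))))
noncomputable def l16147 : Lb := (@Lb.d (nat_lit 96) (nat_lit 137) (nat_lit 426) (@Lb.r r1317 (@Lb.r r2395 (@Lb.r r2308 (@Lb.r r2150 (@Lb.g g7 (@Lb.g g4 (@Lb.d (nat_lit 1) (nat_lit 0) (nat_lit 64) (@Lb.fp (nat_lit 3) t3301)))))))))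
noncomputable def l16148 : Lb := (@Lb.d (nat_lit 6) (nat_lit 390) (nat_lit 361) (@Lb.r r1361 (@Lb.r r2471 (@Lb.r r612 (@Lb.r r346 (@Lb.g g7 (@Lb.g g6 (@Lb.g g5 (@Lb.d (nat_lit 8) (nat_lit 9) (nat_lit 64) (@Lb.t (@Lb.fp (nat_lit 9) t789)))))))))))
noncomputable def l16149 : Lb := (@Lb.d (nat_lit 101) (nat_lit 96) (nat_lit 128) (@Lb.r r101 (@Lb.r r24 (@Lb.r r338 (@Lb.r r387 (@Lb.g g7 (@Lb.g g6 (@Lb.g g5 (@Lb.d (nat_lit 0) (nat_lit 0) (nat_lit 66) (@Lb.t (@Lb.fp (nat_lit 9) t2657)))))))))))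
noncomputable def l16150 : Lb := (@Lb.d (nat_lit 6) (nat_lit 321) (nat_lit 136) (@Lb.r r24 (@Lb.g g11 (@Lb.g g5 (@Lb.d (nat_lit 4) (nat_lit 6) (nat_lit 0) (@Lb.fm (nat_lit 3) t45))))))
noncomputable def l16151 : Lb := (@Lb.d (nat_lit 96) (nat_lit 644) (nat_lit 425) (@Lb.r r1317 (@Lb.r r2395 (@Lb.r r2308 (@Lb.r r2150 (@Lb.g g7 (@Lb.g g4 (@Lb.d (nat_lit 0) (nat_lit 0) (nat_lit 64) (@Lb.fp (nat_lit 3) t3302)))))))))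
noncomputable def l16152 : Lb := (@Lb.d (nat_lit 2) (nat_lit 257) (nat_lit 128) (@Lb.g g8 (@Lb.g g9 (@Lb.g g10 (@Lb.g g11 (@Lb.r r1671 (@Lb.r r1681 (@Lb.r r2404 (@Lb.r r1178 (@Lb.d (nat_lit 164) (nat_lit 73) (nat_lit 84) (@Lb.fp (nat_lit 9) t646)))))))))))
noncomputable def l16153 : Lb := (@Lb.d (nat_lit 6) (nat_lit 326) (nat_lit 137) (@Lb.r r609 (@Lb.r r619 (@Lb.r r584 (@Lb.r r326 (@Lb.g g7 (@Lb.g g6 (@Lb.g g4 (@Lb.d (nat_lit 1) (nat_lit 0) (nat_lit 65) (@Lb.t (@Lb.fm (nat_lit 9) t264)))))))))))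
noncomputable def l16154 : Lb := (@Lb.d (nat_lit 42) (nat_lit 321) (nat_lit 0) (@Lb.r r101 (@Lb.r r24 (@Lb.r r402 (@Lb.r r323 (@Lb.g g7 (@Lb.g g6 (@Lb.d (nat_lit 0) (nat_lit 0) (nat_lit 64) (@Lb.fp (nat_lit 3) t1778)))))))))
noncomputable def l16155 : Lb := (@Lb.d (nat_lit 4) (nat_lit 514) (nat_lit 128) (@Lb.g g8 (@Lb.g g9 (@Lb.g g10 (@Lb.g g11 (@Lb.r r643 (@Lb.r r1642 (@Lb.r r1121 (@Lb.r r24 (@Lb.d (nat_lit 40) (nat_lit 137) (nat_lit 17) (@Lb.fm (nat_lit 9) t145)))))))))))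
noncomputable def l16156 : Lb := (@Lb.d (nat_lit 2) (nat_lit 1) (nat_lit 128) (@Lb.g g8 (@Lb.g g9 (@Lb.g g10 (@Lb.g g11 (@Lb.r r1671 (@Lb.r r1681 (@Lb.r r2404 (@Lb.r r1178 (@Lb.d (nat_lit 169) (nat_lit 74) (nat_lit 84) (@Lb.fp (nat_lit 9) t646)))))))))))
noncomputable def l16157 : Lb := (@Lb.d (nat_lit 390) (nat_lit 384) (nat_lit 405) (@Lb.r r101 (@Lb.r r24 (@Lb.r r2394 (@Lb.g g7 (@Lb.g g6 (@Lb.g g5 (@Lb.d (nat_lit 64) (nat_lit 0) (nat_lit 646) (@Lb.t (@Lb.fp (nat_lit 9) t3303))))))))))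
noncomputable def l16158 : Lb := (@Lb.r r2343 (@Lb.r r1096 (@Lb.r r2646 (@Lb.r r289 (@Lb.d (nat_lit 0) (nat_lit 130) (nat_lit 154) (@Lb.fp (nat_lit 1) t1040))))))
noncomputable def l16159 : Lb := (@Lb.d (nat_lit 136) (nat_lit 1) (nat_lit 132) (@Lb.g g8 (@Lb.g g9 (@Lb.g g10 (@Lb.g g11 (@Lb.r r683 (@Lb.r r618 (@Lb.r r537 (@Lb.r r532 (@Lb.d (nat_lit 138) (nat_lit 41) (nat_lit 129) (@Lb.fm (nat_lit 9) t175)))))))))))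
noncomputable def l16160 : Lb := (@Lb.d (nat_lit 33) (nat_lit 265) (nat_lit 72) (@Lb.g g8 (@Lb.g g9 (@Lb.g g10 (@Lb.g g11 (@Lb.r r1667 (@Lb.r r2345 (@Lb.r r360 (@Lb.r r2630 (@Lb.r r2180 (@Lb.d (nat_lit 385) (nat_lit 74) (nat_lit 617) (@Lb.fm (nat_lit 9) t2697))))))))))))
noncomputable def l16161 : Lb := (@Lb.d (nat_lit 394) (nat_lit 514) (nat_lit 672) (@Lb.r r1096 (@Lb.r r363 (@Lb.r r2646 (@Lb.r r409 (@Lb.g g11 (@Lb.t (@Lb.fm (nat_lit 3) t450))))))))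
noncomputable def l16162 : Lb := (@Lb.d (nat_lit 2) (nat_lit 2) (nat_lit 130) (@Lb.g g8 (@Lb.g g9 (@Lb.g g10 (@Lb.g g11 (@Lb.r r427 (@Lb.r r424 (@Lb.r r106 (@Lb.r r97 (@Lb.d (nat_lit 2) (nat_lit 90) (nat_lit 265) (@Lb.fp (nat_lit 9) t51)))))))))))
noncomputable def l16163 : Lb := (@Lb.d (nat_lit 0) (nat_lit 265) (nat_lit 73) (@Lb.g g9 (@Lb.g g10 (@Lb.g g11 (@Lb.r r1671 (@Lb.r r644 (@Lb.r r326 (@Lb.r r97 (@Lb.d (nat_lit 288) (nat_lit 22) (nat_lit 73) (@Lb.t (@Lb.fm (nat_lit 9) t3304)))))))))))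
noncomputable def l16164 : Lb := (@Lb.d (nat_lit 292) (nat_lit 320) (nat_lit 33) (@Lb.r r24 (@Lb.r r2150 (@Lb.r r101 (@Lb.r r2403 (@Lb.g g6 (@Lb.d (nat_lit 0) (nat_lit 4) (nat_lit 1) (@Lb.t (@Lb.fm (nat_lit 3) t2708)))))))))
noncomputable def l16165 : Lb := (@Lb.r r323 (@Lb.d (nat_lit 128) (nat_lit 1) (nat_lit 2) (@Lb.g g8 (@Lb.g g9 (@Lb.g g10 (@Lb.r r362 (@Lb.r r361 (@Lb.r r1431 (@Lb.r r2632 (@Lb.d (nat_lit 362) (nat_lit 128) (nat_lit 642) (@Lb.t (@Lb.fm (nat_lit 9) t71))))))))))))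
noncomputable def l16166 : Lb := (@Lb.r r21 (@Lb.d (nat_lit 137) (nat_lit 512) (nat_lit 66) (@Lb.g g8 (@Lb.g g10 (@Lb.g g11 (@Lb.r r411 (@Lb.r r2645 (@Lb.r r1706 (@Lb.r r1704 (@Lb.d (nat_lit 345) (nat_lit 21) (nat_lit 166) (@Lb.t (@Lb.fm (nat_lit 9) t594))))))))))))
noncomputable def l16167 : Lb := (@Lb.d (nat_lit 0) (nat_lit 258) (nat_lit 130) (@Lb.g g8 (@Lb.g g9 (@Lb.g g10 (@Lb.g g11 (@Lb.r r427 (@Lb.r r297 (@Lb.r r104 (@Lb.r r70 (@Lb.r r132 (@Lb.d (nat_lit 2) (nat_lit 137) (nat_lit 258) (@Lb.fp (nat_lit 9) t51))))))))))))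
noncomputable def l16168 : Lb := (@Lb.d (nat_lit 356) (nat_lit 256) (nat_lit 356) (@Lb.r r2436 (@Lb.r r2406 (@Lb.r r1691 (@Lb.g g7 (@Lb.g g6 (@Lb.g g9 (@Lb.g g4 (@Lb.d (nat_lit 68) (nat_lit 64) (nat_lit 129) (@Lb.fp (nat_lit 9) t145))))))))))
noncomputable def l16169 : Lb := (@Lb.d (nat_lit 10) (nat_lit 256) (nat_lit 130) (@Lb.g g8 (@Lb.g g10 (@Lb.g g11 (@Lb.r r2443 (@Lb.r r2193 (@Lb.r r2458 (@Lb.r r2436 (@Lb.d (nat_lit 90) (nat_lit 2) (nat_lit 649) (@Lb.t (@Lb.fp (nat_lit 9) t221)))))))))))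
noncomputable def l16170 : Lb := (@Lb.r r21 (@Lb.d (nat_lit 10) (nat_lit 520) (nat_lit 130) (@Lb.g g8 (@Lb.g g10 (@Lb.g g11 (@Lb.r r427 (@Lb.r r533 (@Lb.r r360 (@Lb.r r390 (@Lb.d (nat_lit 98) (nat_lit 149) (nat_lit 264) (@Lb.t (@Lb.fm (nat_lit 9) t51))))))))))))
noncomputable def l16171 : Lb := (@Lb.d (nat_lit 356) (nat_lit 0) (nat_lit 356) (@Lb.r r2436 (@Lb.r r2406 (@Lb.r r1691 (@Lb.g g7 (@Lb.g g6 (@Lb.g g9 (@Lb.g g4 (@Lb.d (nat_lit 68) (nat_lit 69) (nat_lit 130) (@Lb.fp (nat_lit 9) t145))))))))))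
noncomputable def l16172 : Lb := (@Lb.d (nat_lit 357) (nat_lit 682) (nat_lit 166) (@Lb.r r667 (@Lb.r r1690 (@Lb.g g11 (@Lb.g g8 (@Lb.d (nat_lit 0) (nat_lit 0) (nat_lit 68) (@Lb.fm (nat_lit 3) t2761)))))))
noncomputable def l16173 : Lb := (@Lb.d (nat_lit 1) (nat_lit 601) (nat_lit 424) (@Lb.r r101 (@Lb.r r1575 (@Lb.g g7 (@Lb.g g4 (@Lb.d (nat_lit 6) (nat_lit 0) (nat_lit 0) (@Lb.fm (nat_lit 3) t3305)))))))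
noncomputable def l16174 : Lb := (@Lb.d (nat_lit 6) (nat_lit 577) (nat_lit 138) (@Lb.r r24 (@Lb.g g11 (@Lb.g g5 (@Lb.d (nat_lit 4) (nat_lit 6) (nat_lit 136) (@Lb.fm (nat_lit 3) t45))))))
noncomputable def l16175 : Lb := (@Lb.d (nat_lit 610) (nat_lit 321) (nat_lit 664) (@Lb.r r1412 (@Lb.r r1382 (@Lb.r r2731 (@Lb.g g7 (@Lb.g g9 (@Lb.g g4 (@Lb.d (nat_lit 4) (nat_lit 130) (nat_lit 64) (@Lb.r r98 (@Lb.t (@Lb.fp (nat_lit 9) t3306)))))))))))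
noncomputable def l16176 : Lb := (@Lb.d (nat_lit 38) (nat_lit 389) (nat_lit 68) (@Lb.r r101 (@Lb.r r1383 (@Lb.g g7 (@Lb.g g6 (@Lb.g g4 (@Lb.d (nat_lit 6) (nat_lit 4) (nat_lit 1) (@Lb.t (@Lb.fm (nat_lit 9) t1000)))))))))
noncomputable def l16177 : Lb := (@Lb.r r21 (@Lb.r r70 (@Lb.d (nat_lit 129) (nat_lit 256) (nat_lit 136) (@Lb.g g8 (@Lb.g g11 (@Lb.r r1620 (@Lb.r r74 (@Lb.r r25 (@Lb.d (nat_lit 410) (nat_lit 166) (nat_lit 596) (@Lb.fm (nat_lit 3) t42))))))))))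
noncomputable def l16178 : Lb := (@Lb.g g10 (@Lb.g g7 (@Lb.r r24 (@Lb.r r101 (@Lb.r r402 (@Lb.d (nat_lit 0) (nat_lit 512) (nat_lit 66) (@Lb.fm (nat_lit 3) t311)))))))
noncomputable def l16179 : Lb := (@Lb.r r82 (@Lb.d (nat_lit 0) (nat_lit 41) (nat_lit 64) (@Lb.g g9 (@Lb.g g11 (@Lb.r r1635 (@Lb.r r2454 (@Lb.r r1636 (@Lb.r r1557 (@Lb.d (nat_lit 390) (nat_lit 82) (nat_lit 645) (@Lb.fm (nat_lit 3) t510))))))))))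
noncomputable def l16180 : Lb := (@Lb.d (nat_lit 130) (nat_lit 514) (nat_lit 130) (@Lb.g g8 (@Lb.g g9 (@Lb.g g10 (@Lb.g g11 (@Lb.r r2666 (@Lb.r r612 (@Lb.r r1319 (@Lb.r r405 (@Lb.r r2084 (@Lb.d (nat_lit 10) (nat_lit 137) (nat_lit 409) (@Lb.fp (nat_lit 9) t2106))))))))))))
noncomputable def l16181 : Lb := (@Lb.d (nat_lit 8) (nat_lit 9) (nat_lit 128) (@Lb.g g9 (@Lb.g g11 (@Lb.r r1114 (@Lb.r r1540 (@Lb.r r1447 (@Lb.r r1317 (@Lb.d (nat_lit 325) (nat_lit 169) (nat_lit 417) (@Lb.fp (nat_lit 3) t772)))))))))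
noncomputable def l16182 : Lb := (@Lb.d (nat_lit 129) (nat_lit 514) (nat_lit 130) (@Lb.g g8 (@Lb.g g9 (@Lb.g g10 (@Lb.g g11 (@Lb.r r2666 (@Lb.r r612 (@Lb.r r1319 (@Lb.r r405 (@Lb.r r2084 (@Lb.d (nat_lit 10) (nat_lit 130) (nat_lit 410) (@Lb.fp (nat_lit 9) t3307))))))))))))
noncomputable def l16183 : Lb := (@Lb.d (nat_lit 8) (nat_lit 2) (nat_lit 130) (@Lb.g g9 (@Lb.g g10 (@Lb.g g11 (@Lb.r r419 (@Lb.r r386 (@Lb.r r1172 (@Lb.r r89 (@Lb.d (nat_lit 264) (nat_lit 0) (nat_lit 665) (@Lb.t (@Lb.fp (nat_lit 9) t1469)))))))))))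
noncomputable def l16184 : Lb := (@Lb.d (nat_lit 2) (nat_lit 33) (nat_lit 9) (@Lb.g g8 (@Lb.g g9 (@Lb.g g10 (@Lb.g g11 (@Lb.r r1699 (@Lb.r r2088 (@Lb.r r89 (@Lb.r r2658 (@Lb.d (nat_lit 548) (nat_lit 136) (nat_lit 416) (@Lb.fp (nat_lit 9) t3308)))))))))))
noncomputable def l16185 : Lb := (@Lb.d (nat_lit 642) (nat_lit 0) (nat_lit 320) (@Lb.r r24 (@Lb.r r101 (@Lb.r r1426 (@Lb.g g7 (@Lb.g g5 (@Lb.g g4 (@Lb.d (nat_lit 0) (nat_lit 0) (nat_lit 68) (@Lb.r r578 (@Lb.t (@Lb.fm (nat_lit 9) t2033)))))))))))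
noncomputable def l16186 : Lb := (@Lb.r r21 (@Lb.r r70 (@Lb.r r2311 (@Lb.g g8 (@Lb.r r2084 (@Lb.r r101 (@Lb.r r2450 (@Lb.d (nat_lit 401) (nat_lit 256) (nat_lit 325) (@Lb.t (@Lb.fp (nat_lit 3) t1817))))))))))
noncomputable def l16187 : Lb := (@Lb.d (nat_lit 418) (nat_lit 512) (nat_lit 422) (@Lb.r r24 (@Lb.r r101 (@Lb.r r2658 (@Lb.r r2467 (@Lb.g g7 (@Lb.g g6 (@Lb.d (nat_lit 0) (nat_lit 0) (nat_lit 129) (@Lb.fm (nat_lit 3) t3309)))))))))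
noncomputable def l16188 : Lb := (@Lb.d (nat_lit 144) (nat_lit 258) (nat_lit 74) (@Lb.g g8 (@Lb.g g9 (@Lb.g g10 (@Lb.g g11 (@Lb.r r1706 (@Lb.r r1411 (@Lb.r r2201 (@Lb.r r2180 (@Lb.d (nat_lit 548) (nat_lit 152) (nat_lit 100) (@Lb.fm (nat_lit 9) t2228)))))))))))
noncomputable def l16189 : Lb := (@Lb.d (nat_lit 33) (nat_lit 424) (nat_lit 105) (@Lb.r r2709 (@Lb.r r2642 (@Lb.r r2651 (@Lb.r r1700 (@Lb.g g6 (@Lb.g g5 (@Lb.d (nat_lit 4) (nat_lit 0) (nat_lit 1) (@Lb.r r291 (@Lb.fp (nat_lit 3) t3310))))))))))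
noncomputable def l16190 : Lb := (@Lb.r r323 (@Lb.d (nat_lit 32) (nat_lit 260) (nat_lit 33) (@Lb.g g9 (@Lb.g g10 (@Lb.r r387 (@Lb.r r145 (@Lb.d (nat_lit 16) (nat_lit 8) (nat_lit 17) (@Lb.fm (nat_lit 3) t778))))))))
noncomputable def l16191 : Lb := (@Lb.r r20 (@Lb.d (nat_lit 136) (nat_lit 258) (nat_lit 162) (@Lb.g g9 (@Lb.g g6 (@Lb.g g11 (@Lb.r r264 (@Lb.r r2455 (@Lb.r r1697 (@Lb.d (nat_lit 296) (nat_lit 98) (nat_lit 674) (@Lb.t (@Lb.fp (nat_lit 9) t296)))))))))))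
noncomputable def l16192 : Lb := (@Lb.d (nat_lit 144) (nat_lit 514) (nat_lit 74) (@Lb.g g8 (@Lb.g g9 (@Lb.g g10 (@Lb.g g11 (@Lb.r r1706 (@Lb.r r1411 (@Lb.r r2201 (@Lb.r r2180 (@Lb.d (nat_lit 554) (nat_lit 153) (nat_lit 100) (@Lb.fm (nat_lit 9) t3311)))))))))))
noncomputable def l16193 : Lb := (@Lb.r r20 (@Lb.d (nat_lit 136) (nat_lit 2) (nat_lit 162) (@Lb.g g9 (@Lb.g g6 (@Lb.g g11 (@Lb.r r264 (@Lb.r r2455 (@Lb.r r1697 (@Lb.d (nat_lit 294) (nat_lit 104) (nat_lit 673) (@Lb.t (@Lb.fp (nat_lit 9) t669)))))))))))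
noncomputable def l16194 : Lb := (@Lb.d (nat_lit 0) (nat_lit 260) (nat_lit 128) (@Lb.g g9 (@Lb.g g10 (@Lb.g g11 (@Lb.r r1706 (@Lb.r r168 (@Lb.r r409 (@Lb.r r295 (@Lb.r r516 (@Lb.d (nat_lit 617) (nat_lit 97) (nat_lit 330) (@Lb.t (@Lb.fm (nat_lit 9) t1889))))))))))))
noncomputable def l16195 : Lb := (@Lb.d (nat_lit 0) (nat_lit 261) (nat_lit 0) (@Lb.g g4 (@Lb.g g5 (@Lb.d (nat_lit 1) (nat_lit 0) (nat_lit 129) (@Lb.fm (nat_lit 3) t87)))))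
noncomputable def l16196 : Lb := (@Lb.r r323 (@Lb.d (nat_lit 40) (nat_lit 514) (nat_lit 8) (@Lb.g g9 (@Lb.g g6 (@Lb.r r404 (@Lb.r r299 (@Lb.r r409 (@Lb.d (nat_lit 10) (nat_lit 32) (nat_lit 66) (@Lb.fp (nat_lit 3) t670)))))))))
noncomputable def l16197 : Lb := (@Lb.d (nat_lit 130) (nat_lit 517) (nat_lit 129) (@Lb.r r24 (@Lb.r r101 (@Lb.r r402 (@Lb.g g4 (@Lb.t (@Lb.fp (nat_lit 3) t1832)))))))
noncomputable def l16198 : Lb := (@Lb.d (nat_lit 33) (nat_lit 40) (nat_lit 133) (@Lb.g g8 (@Lb.g g9 (@Lb.g g10 (@Lb.g g11 (@Lb.r r1706 (@Lb.r r680 (@Lb.r r1579 (@Lb.r r549 (@Lb.r r1044 (@Lb.d (nat_lit 257) (nat_lit 1) (nat_lit 90) (@Lb.fp (nat_lit 9) t2408))))))))))))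
noncomputable def l16199 : Lb := (@Lb.d (nat_lit 2) (nat_lit 614) (nat_lit 9) (@Lb.g g8 (@Lb.g g5 (@Lb.g g10 (@Lb.r r2371 (@Lb.r r2690 (@Lb.r r24 (@Lb.d (nat_lit 10) (nat_lit 0) (nat_lit 533) (@Lb.t (@Lb.fp (nat_lit 9) t883))))))))))
noncomputable def l16200 : Lb := (@Lb.d (nat_lit 0) (nat_lit 512) (nat_lit 2) (@Lb.g g10 (@Lb.g g7 (@Lb.r r386 (@Lb.r r1624 (@Lb.r r2341 (@Lb.d (nat_lit 5) (nat_lit 152) (nat_lit 617) (@Lb.fm (nat_lit 3) t3305))))))))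
noncomputable def l16201 : Lb := (@Lb.d (nat_lit 129) (nat_lit 4) (nat_lit 133) (@Lb.g g8 (@Lb.g g9 (@Lb.g g10 (@Lb.g g11 (@Lb.r r683 (@Lb.r r618 (@Lb.r r537 (@Lb.r r516 (@Lb.d (nat_lit 136) (nat_lit 9) (nat_lit 129) (@Lb.fm (nat_lit 9) t2657)))))))))))
noncomputable def l16202 : Lb := (@Lb.d (nat_lit 34) (nat_lit 260) (nat_lit 128) (@Lb.g g8 (@Lb.g g9 (@Lb.g g10 (@Lb.g g11 (@Lb.r r1698 (@Lb.r r2467 (@Lb.r r36 (@Lb.r r2453 (@Lb.r r36 (@Lb.d (nat_lit 98) (nat_lit 154) (nat_lit 357) (@Lb.fm (nat_lit 9) t200))))))))))))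
noncomputable def l16203 : Lb := (@Lb.d (nat_lit 130) (nat_lit 516) (nat_lit 10) (@Lb.g g8 (@Lb.g g9 (@Lb.g g10 (@Lb.g g11 (@Lb.r r1706 (@Lb.r r1411 (@Lb.r r1177 (@Lb.r r1156 (@Lb.d (nat_lit 290) (nat_lit 90) (nat_lit 596) (@Lb.fm (nat_lit 9) t2554)))))))))))
noncomputable def l16204 : Lb := (@Lb.r r1379 (@Lb.r r89 (@Lb.r r1126 (@Lb.r r24 (@Lb.d (nat_lit 538) (nat_lit 394) (nat_lit 2) (@Lb.fm (nat_lit 1) t1775))))))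
noncomputable def l16205 : Lb := (@Lb.r r82 (@Lb.d (nat_lit 8) (nat_lit 522) (nat_lit 128) (@Lb.g g9 (@Lb.g g11 (@Lb.r r355 (@Lb.r r146 (@Lb.d (nat_lit 2) (nat_lit 4) (nat_lit 136) (@Lb.fp (nat_lit 3) t594))))))))
noncomputable def l16206 : Lb := (@Lb.r r82 (@Lb.d (nat_lit 8) (nat_lit 266) (nat_lit 128) (@Lb.g g9 (@Lb.g g11 (@Lb.r r355 (@Lb.r r146 (@Lb.d (nat_lit 2) (nat_lit 9) (nat_lit 137) (@Lb.fp (nat_lit 3) t610))))))))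
noncomputable def l16207 : Lb := (@Lb.d (nat_lit 10) (nat_lit 422) (nat_lit 385) (@Lb.r r81 (@Lb.r r1122 (@Lb.r r97 (@Lb.g g11 (@Lb.t (@Lb.fm (nat_lit 3) t372)))))))
noncomputable def l16208 : Lb := (@Lb.d (nat_lit 405) (nat_lit 26) (nat_lit 548) (@Lb.r r2453 (@Lb.r r2667 (@Lb.g g10 (@Lb.g g5 (@Lb.g g4 (@Lb.d (nat_lit 9) (nat_lit 6) (nat_lit 34) (@Lb.r r403 (@Lb.t (@Lb.fp (nat_lit 9) t3312))))))))))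
noncomputable def l16209 : Lb := (@Lb.d (nat_lit 0) (nat_lit 24) (nat_lit 665) (@Lb.r r1681 (@Lb.r r1690 (@Lb.r r2468 (@Lb.g g11 (@Lb.g g5 (@Lb.d (nat_lit 4) (nat_lit 0) (nat_lit 128) (@Lb.r r98 (@Lb.fm (nat_lit 3) t634)))))))))
noncomputable def l16210 : Lb := (@Lb.r r291 (@Lb.r r680 (@Lb.r r154 (@Lb.r r2133 (@Lb.r r164 (@Lb.d (nat_lit 593) (nat_lit 0) (nat_lit 106) (@Lb.fp (nat_lit 1) t3313)))))))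
noncomputable def l16211 : Lb := (@Lb.d (nat_lit 88) (nat_lit 538) (nat_lit 22) (@Lb.r r662 (@Lb.r r2401 (@Lb.r r647 (@Lb.r r328 (@Lb.g g7 (@Lb.g g6 (@Lb.d (nat_lit 16) (nat_lit 4) (nat_lit 65) (@Lb.fm (nat_lit 3) t681)))))))))
noncomputable def l16212 : Lb := (@Lb.r r21 (@Lb.r r70 (@Lb.d (nat_lit 266) (nat_lit 256) (nat_lit 0) (@Lb.g g8 (@Lb.r r1291 (@Lb.r r101 (@Lb.r r410 (@Lb.d (nat_lit 546) (nat_lit 5) (nat_lit 38) (@Lb.t (@Lb.fp (nat_lit 3) t3314))))))))))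
noncomputable def l16213 : Lb := (@Lb.d (nat_lit 145) (nat_lit 580) (nat_lit 386) (@Lb.r r70 (@Lb.r r148 (@Lb.g g6 (@Lb.g g9 (@Lb.d (nat_lit 20) (nat_lit 64) (nat_lit 1) (@Lb.fp (nat_lit 3) t2107)))))))
noncomputable def l16214 : Lb := (@Lb.d (nat_lit 586) (nat_lit 538) (nat_lit 37) (@Lb.r r662 (@Lb.r r2401 (@Lb.r r647 (@Lb.r r328 (@Lb.g g7 (@Lb.g g6 (@Lb.d (nat_lit 16) (nat_lit 0) (nat_lit 64) (@Lb.fm (nat_lit 3) t1573)))))))))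
noncomputable def l16215 : Lb := (@Lb.r r21 (@Lb.r r70 (@Lb.d (nat_lit 266) (nat_lit 512) (nat_lit 0) (@Lb.g g8 (@Lb.r r1291 (@Lb.r r101 (@Lb.r r410 (@Lb.d (nat_lit 545) (nat_lit 5) (nat_lit 38) (@Lb.t (@Lb.fp (nat_lit 3) t3315))))))))))
noncomputable def l16216 : Lb := (@Lb.r r21 (@Lb.r r70 (@Lb.d (nat_lit 657) (nat_lit 512) (nat_lit 64) (@Lb.g g8 (@Lb.g g11 (@Lb.r r1419 (@Lb.r r74 (@Lb.r r25 (@Lb.d (nat_lit 354) (nat_lit 5) (nat_lit 25) (@Lb.fm (nat_lit 3) t742))))))))))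
noncomputable def l16217 : Lb := (@Lb.d (nat_lit 2) (nat_lit 258) (nat_lit 73) (@Lb.g g8 (@Lb.g g9 (@Lb.g g10 (@Lb.g g11 (@Lb.r r2691 (@Lb.r r536 (@Lb.r r2197 (@Lb.r r2646 (@Lb.r r164 (@Lb.d (nat_lit 129) (nat_lit 10) (nat_lit 361) (@Lb.fp (nat_lit 9) t1636))))))))))))
noncomputable def l16218 : Lb := (@Lb.d (nat_lit 2) (nat_lit 258) (nat_lit 2) (@Lb.g g8 (@Lb.g g9 (@Lb.g g10 (@Lb.g g7 (@Lb.r r386 (@Lb.r r97 (@Lb.r r24 (@Lb.d (nat_lit 330) (nat_lit 9) (nat_lit 585) (@Lb.fp (nat_lit 9) t166))))))))))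
noncomputable def l16219 : Lb := (@Lb.d (nat_lit 160) (nat_lit 258) (nat_lit 129) (@Lb.g g9 (@Lb.g g10 (@Lb.g g11 (@Lb.r r260 (@Lb.r r1355 (@Lb.r r610 (@Lb.r r25 (@Lb.d (nat_lit 530) (nat_lit 84) (nat_lit 153) (@Lb.t (@Lb.fm (nat_lit 9) t1639)))))))))))
noncomputable def l16220 : Lb := (@Lb.d (nat_lit 612) (nat_lit 321) (nat_lit 324) (@Lb.r r2436 (@Lb.r r363 (@Lb.r r273 (@Lb.g g7 (@Lb.g g10 (@Lb.g g5 (@Lb.g g4 (@Lb.d (nat_lit 146) (nat_lit 17) (nat_lit 4) (@Lb.fm (nat_lit 9) t421))))))))))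
noncomputable def l16221 : Lb := (@Lb.d (nat_lit 1) (nat_lit 0) (nat_lit 128) (@Lb.g g8 (@Lb.g g11 (@Lb.r r138 (@Lb.r r388 (@Lb.r r299 (@Lb.r r289 (@Lb.d (nat_lit 8) (nat_lit 70) (nat_lit 1) (@Lb.fm (nat_lit 3) t51)))))))))
noncomputable def l16222 : Lb := (@Lb.d (nat_lit 8) (nat_lit 265) (nat_lit 0) (@Lb.g g9 (@Lb.g g10 (@Lb.r r1190 (@Lb.d (nat_lit 42) (nat_lit 133) (nat_lit 33) (@Lb.fp (nat_lit 3) t362))))))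
noncomputable def l16223 : Lb := (@Lb.r r21 (@Lb.d (nat_lit 2) (nat_lit 0) (nat_lit 137) (@Lb.g g8 (@Lb.g g10 (@Lb.g g11 (@Lb.r r651 (@Lb.r r644 (@Lb.r r150 (@Lb.r r97 (@Lb.d (nat_lit 4) (nat_lit 32) (nat_lit 128) (@Lb.t (@Lb.fp (nat_lit 9) t51))))))))))))
noncomputable def l16224 : Lb := (@Lb.r r1126 (@Lb.r r24 (@Lb.d (nat_lit 586) (nat_lit 261) (nat_lit 513) (@Lb.fm (nat_lit 1) t3316))))
noncomputable def l16225 : Lb := (@Lb.d (nat_lit 10) (nat_lit 0) (nat_lit 128) (@Lb.g g8 (@Lb.g g11 (@Lb.r r390 (@Lb.r r1611 (@Lb.r r149 (@Lb.r r1636 (@Lb.d (nat_lit 650) (nat_lit 89) (nat_lit 258) (@Lb.fm (nat_lit 3) t3317)))))))))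
noncomputable def l16226 : Lb := (@Lb.d (nat_lit 10) (nat_lit 256) (nat_lit 130) (@Lb.g g8 (@Lb.g g10 (@Lb.g g11 (@Lb.r r602 (@Lb.r r1611 (@Lb.r r149 (@Lb.r r1636 (@Lb.d (nat_lit 266) (nat_lit 26) (nat_lit 258) (@Lb.t (@Lb.fp (nat_lit 9) t461)))))))))))
noncomputable def l16227 : Lb := (@Lb.g g7 (@Lb.r r2690 (@Lb.r r1667 (@Lb.r r1425 (@Lb.r r1412 (@Lb.d (nat_lit 0) (nat_lit 420) (nat_lit 138) (@Lb.t (@Lb.fm (nat_lit 3) t3318))))))))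
noncomputable def l16228 : Lb := (@Lb.r r275 (@Lb.d (nat_lit 2) (nat_lit 517) (nat_lit 34) (@Lb.g g8 (@Lb.g g9 (@Lb.g g6 (@Lb.r r1643 (@Lb.r r97 (@Lb.r r24 (@Lb.d (nat_lit 260) (nat_lit 137) (nat_lit 0) (@Lb.t (@Lb.fm (nat_lit 9) t3319)))))))))))
noncomputable def l16229 : Lb := (@Lb.r r275 (@Lb.d (nat_lit 2) (nat_lit 5) (nat_lit 34) (@Lb.g g8 (@Lb.g g9 (@Lb.g g6 (@Lb.r r1643 (@Lb.r r97 (@Lb.r r24 (@Lb.d (nat_lit 266) (nat_lit 9) (nat_lit 0) (@Lb.t (@Lb.fm (nat_lit 9) t458)))))))))))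
noncomputable def l16230 : Lb := (@Lb.d (nat_lit 2) (nat_lit 292) (nat_lit 98) (@Lb.g g8 (@Lb.g g9 (@Lb.g g6 (@Lb.g g11 (@Lb.r r609 (@Lb.r r2343 (@Lb.r r24 (@Lb.d (nat_lit 278) (nat_lit 153) (nat_lit 24) (@Lb.fm (nat_lit 9) t458))))))))))
noncomputable def l16231 : Lb := (@Lb.r r82 (@Lb.d (nat_lit 10) (nat_lit 513) (nat_lit 128) (@Lb.g g8 (@Lb.g g9 (@Lb.g g11 (@Lb.r r1431 (@Lb.r r1686 (@Lb.r r2473 (@Lb.r r1432 (@Lb.d (nat_lit 152) (nat_lit 26) (nat_lit 72) (@Lb.t (@Lb.fp (nat_lit 9) t3320))))))))))))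
noncomputable def l16232 : Lb := (@Lb.d (nat_lit 426) (nat_lit 520) (nat_lit 418) (@Lb.r r1109 (@Lb.r r2088 (@Lb.r r418 (@Lb.g g11 (@Lb.g g6 (@Lb.g g5 (@Lb.g g4 (@Lb.d (nat_lit 1) (nat_lit 25) (nat_lit 394) (@Lb.fm (nat_lit 9) t1343))))))))))
noncomputable def l16233 : Lb := (@Lb.d (nat_lit 4) (nat_lit 37) (nat_lit 128) (@Lb.g g8 (@Lb.g g9 (@Lb.g g10 (@Lb.g g11 (@Lb.r r682 (@Lb.r r387 (@Lb.r r1177 (@Lb.d (nat_lit 538) (nat_lit 149) (nat_lit 409) (@Lb.fm (nat_lit 9) t1370))))))))))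
noncomputable def l16234 : Lb := (@Lb.d (nat_lit 2) (nat_lit 2) (nat_lit 128) (@Lb.g g8 (@Lb.g g9 (@Lb.g g11 (@Lb.r r88 (@Lb.r r661 (@Lb.r r1303 (@Lb.r r2178 (@Lb.r r2596 (@Lb.d (nat_lit 265) (nat_lit 134) (nat_lit 661) (@Lb.t (@Lb.fm (nat_lit 9) t1210))))))))))))
noncomputable def l16235 : Lb := (@Lb.d (nat_lit 0) (nat_lit 528) (nat_lit 585) (@Lb.g g8 (@Lb.g g9 (@Lb.g g10 (@Lb.g g7 (@Lb.r r342 (@Lb.r r2133 (@Lb.r r24 (@Lb.d (nat_lit 657) (nat_lit 66) (nat_lit 266) (@Lb.fp (nat_lit 9) t3321))))))))))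
noncomputable def l16236 : Lb := (@Lb.r r322 (@Lb.d (nat_lit 0) (nat_lit 258) (nat_lit 576) (@Lb.g g8 (@Lb.g g9 (@Lb.g g7 (@Lb.r r1442 (@Lb.r r1433 (@Lb.r r24 (@Lb.d (nat_lit 401) (nat_lit 5) (nat_lit 298) (@Lb.t (@Lb.fp (nat_lit 9) t3322)))))))))))
noncomputable def l16237 : Lb := (@Lb.r r21 (@Lb.d (nat_lit 2) (nat_lit 256) (nat_lit 2) (@Lb.g g8 (@Lb.g g10 (@Lb.g g11 (@Lb.r r1691 (@Lb.r r1381 (@Lb.r r2202 (@Lb.r r2180 (@Lb.d (nat_lit 601) (nat_lit 65) (nat_lit 609) (@Lb.t (@Lb.fp (nat_lit 9) t284))))))))))))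
noncomputable def l16238 : Lb := (@Lb.d (nat_lit 0) (nat_lit 272) (nat_lit 585) (@Lb.g g8 (@Lb.g g9 (@Lb.g g10 (@Lb.g g7 (@Lb.r r342 (@Lb.r r2133 (@Lb.r r24 (@Lb.d (nat_lit 656) (nat_lit 73) (nat_lit 265) (@Lb.fp (nat_lit 9) t377))))))))))
noncomputable def l16239 : Lb := (@Lb.d (nat_lit 2) (nat_lit 32) (nat_lit 2) (@Lb.g g8 (@Lb.g g9 (@Lb.g g10 (@Lb.r r1299 (@Lb.r r553 (@Lb.r r2468 (@Lb.r r2438 (@Lb.d (nat_lit 322) (nat_lit 5) (nat_lit 645) (@Lb.t (@Lb.fm (nat_lit 9) t3323)))))))))))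
noncomputable def l16240 : Lb := (@Lb.d (nat_lit 41) (nat_lit 522) (nat_lit 169) (@Lb.r r153 (@Lb.r r2726 (@Lb.r r1435 (@Lb.r r2308 (@Lb.g g7 (@Lb.g g5 (@Lb.d (nat_lit 4) (nat_lit 1) (nat_lit 128) (@Lb.fp (nat_lit 3) t2714)))))))))
noncomputable def l16241 : Lb := (@Lb.d (nat_lit 2) (nat_lit 516) (nat_lit 128) (@Lb.g g8 (@Lb.g g9 (@Lb.g g10 (@Lb.g g11 (@Lb.r r2443 (@Lb.r r533 (@Lb.r r2468 (@Lb.r r2438 (@Lb.d (nat_lit 610) (nat_lit 137) (nat_lit 664) (@Lb.fm (nat_lit 9) t2595)))))))))))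
noncomputable def l16242 : Lb := (@Lb.d (nat_lit 2) (nat_lit 517) (nat_lit 128) (@Lb.g g8 (@Lb.g g9 (@Lb.g g10 (@Lb.g g11 (@Lb.r r2443 (@Lb.r r2440 (@Lb.r r618 (@Lb.r r1369 (@Lb.d (nat_lit 586) (nat_lit 149) (nat_lit 264) (@Lb.fm (nat_lit 9) t3324)))))))))))
noncomputable def l16243 : Lb := (@Lb.d (nat_lit 128) (nat_lit 0) (nat_lit 64) (@Lb.g g11 (@Lb.r r549 (@Lb.r r344 (@Lb.r r2662 (@Lb.r r611 (@Lb.d (nat_lit 1) (nat_lit 169) (nat_lit 138) (@Lb.t (@Lb.fm (nat_lit 3) t3325)))))))))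
noncomputable def l16244 : Lb := (@Lb.d (nat_lit 136) (nat_lit 4) (nat_lit 128) (@Lb.g g9 (@Lb.g g10 (@Lb.g g11 (@Lb.r r618 (@Lb.r r24 (@Lb.r r405 (@Lb.r r611 (@Lb.d (nat_lit 137) (nat_lit 88) (nat_lit 146) (@Lb.t (@Lb.fm (nat_lit 9) t3326)))))))))))
noncomputable def l16245 : Lb := (@Lb.d (nat_lit 32) (nat_lit 0) (nat_lit 128) (@Lb.g g10 (@Lb.g g11 (@Lb.r r324 (@Lb.r r651 (@Lb.r r357 (@Lb.r r666 (@Lb.d (nat_lit 74) (nat_lit 42) (nat_lit 10) (@Lb.fp (nat_lit 3) t39)))))))))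
noncomputable def l16246 : Lb := (@Lb.r r21 (@Lb.r r70 (@Lb.r r263 (@Lb.d (nat_lit 289) (nat_lit 0) (nat_lit 0) (@Lb.g g4 (@Lb.r r267 (@Lb.r r74 (@Lb.r r25 (@Lb.d (nat_lit 529) (nat_lit 129) (nat_lit 0) (@Lb.t (@Lb.fm (nat_lit 3) t363)))))))))))
noncomputable def l16247 : Lb := (@Lb.r r323 (@Lb.d (nat_lit 2) (nat_lit 514) (nat_lit 0) (@Lb.g g8 (@Lb.g g9 (@Lb.g g10 (@Lb.r r427 (@Lb.r r1177 (@Lb.r r146 (@Lb.d (nat_lit 546) (nat_lit 0) (nat_lit 1) (@Lb.t (@Lb.fp (nat_lit 9) t296)))))))))))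
noncomputable def l16248 : Lb := (@Lb.d (nat_lit 10) (nat_lit 2) (nat_lit 64) (@Lb.r r20 (@Lb.r r2145 (@Lb.r r402 (@Lb.r r579 (@Lb.g g6 (@Lb.t (@Lb.fp (nat_lit 3) t242))))))))
noncomputable def l16249 : Lb := (@Lb.d (nat_lit 264) (nat_lit 294) (nat_lit 517) (@Lb.r r2073 (@Lb.r r664 (@Lb.r r2634 (@Lb.g g7 (@Lb.g g5 (@Lb.g g4 (@Lb.d (nat_lit 66) (nat_lit 4) (nat_lit 576) (@Lb.t (@Lb.fm (nat_lit 9) t386))))))))))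
noncomputable def l16250 : Lb := (@Lb.d (nat_lit 2) (nat_lit 265) (nat_lit 1) (@Lb.g g8 (@Lb.g g9 (@Lb.g g10 (@Lb.r r683 (@Lb.r r2666 (@Lb.r r2585 (@Lb.d (nat_lit 329) (nat_lit 169) (nat_lit 161) (@Lb.t (@Lb.fp (nat_lit 9) t1399))))))))))
noncomputable def l16251 : Lb := (@Lb.r r323 (@Lb.d (nat_lit 0) (nat_lit 8) (nat_lit 34) (@Lb.g g8 (@Lb.g g10 (@Lb.r r1419 (@Lb.r r1621 (@Lb.r r1444 (@Lb.d (nat_lit 34) (nat_lit 68) (nat_lit 18) (@Lb.fm (nat_lit 3) t3327)))))))))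
noncomputable def l16252 : Lb := (@Lb.d (nat_lit 2) (nat_lit 0) (nat_lit 64) (@Lb.g g8 (@Lb.g g11 (@Lb.r r1543 (@Lb.r r2345 (@Lb.r r2468 (@Lb.r r2438 (@Lb.d (nat_lit 5) (nat_lit 161) (nat_lit 662) (@Lb.fp (nat_lit 3) t3328)))))))))
noncomputable def l16253 : Lb := (@Lb.d (nat_lit 128) (nat_lit 512) (nat_lit 384) (@Lb.g g8 (@Lb.g g11 (@Lb.r r2630 (@Lb.r r2581 (@Lb.r r292 (@Lb.d (nat_lit 0) (nat_lit 128) (nat_lit 128) (@Lb.fm (nat_lit 3) t2538))))))))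
noncomputable def l16254 : Lb := (@Lb.d (nat_lit 138) (nat_lit 0) (nat_lit 0) (@Lb.g g8 (@Lb.r r1621 (@Lb.r r2391 (@Lb.r r2178 (@Lb.r r1544 (@Lb.d (nat_lit 578) (nat_lit 74) (nat_lit 658) (@Lb.t (@Lb.fp (nat_lit 3) t1282)))))))))
noncomputable def l16255 : Lb := (@Lb.d (nat_lit 2) (nat_lit 266) (nat_lit 73) (@Lb.g g8 (@Lb.g g9 (@Lb.g g10 (@Lb.g g11 (@Lb.r r1666 (@Lb.r r2455 (@Lb.r r1633 (@Lb.r r24 (@Lb.d (nat_lit 552) (nat_lit 153) (nat_lit 265) (@Lb.fm (nat_lit 9) t1923)))))))))))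
noncomputable def l16256 : Lb := (@Lb.d (nat_lit 2) (nat_lit 32) (nat_lit 64) (@Lb.g g8 (@Lb.g g11 (@Lb.r r2344 (@Lb.r r345 (@Lb.r r2727 (@Lb.r r2178 (@Lb.d (nat_lit 422) (nat_lit 26) (nat_lit 170) (@Lb.fp (nat_lit 3) t2895)))))))))
noncomputable def l16257 : Lb := (@Lb.d (nat_lit 144) (nat_lit 1) (nat_lit 64) (@Lb.g g8 (@Lb.g g9 (@Lb.g g10 (@Lb.g g11 (@Lb.r r1451 (@Lb.r r2469 (@Lb.r r1160 (@Lb.r r154 (@Lb.d (nat_lit 73) (nat_lit 137) (nat_lit 392) (@Lb.fm (nat_lit 9) t2500)))))))))))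
noncomputable def l16258 : Lb := (@Lb.d (nat_lit 152) (nat_lit 258) (nat_lit 73) (@Lb.g g8 (@Lb.g g9 (@Lb.g g10 (@Lb.g g11 (@Lb.r r1707 (@Lb.r r362 (@Lb.r r537 (@Lb.r r1540 (@Lb.d (nat_lit 649) (nat_lit 153) (nat_lit 293) (@Lb.fm (nat_lit 9) t531)))))))))))
noncomputable def l16259 : Lb := (@Lb.d (nat_lit 100) (nat_lit 682) (nat_lit 609) (@Lb.r r597 (@Lb.r r2178 (@Lb.r r2579 (@Lb.g g5 (@Lb.g g8 (@Lb.d (nat_lit 322) (nat_lit 18) (nat_lit 0) (@Lb.fp (nat_lit 3) t229))))))))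
noncomputable def l16260 : Lb := (@Lb.d (nat_lit 577) (nat_lit 512) (nat_lit 66) (@Lb.r r2308 (@Lb.r r2323 (@Lb.r r1641 (@Lb.g g10 (@Lb.g g4 (@Lb.d (nat_lit 18) (nat_lit 8) (nat_lit 34) (@Lb.r r387 (@Lb.r r145 (@Lb.fm (nat_lit 3) t1893))))))))))
noncomputable def l16261 : Lb := (@Lb.d (nat_lit 82) (nat_lit 17) (nat_lit 640) (@Lb.r r1044 (@Lb.r r281 (@Lb.r r20 (@Lb.r r2659 (@Lb.g g7 (@Lb.g g10 (@Lb.g g5 (@Lb.g g4 (@Lb.d (nat_lit 97) (nat_lit 6) (nat_lit 9) (@Lb.fp (nat_lit 9) t445)))))))))))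
noncomputable def l16262 : Lb := (@Lb.r r323 (@Lb.d (nat_lit 40) (nat_lit 277) (nat_lit 0) (@Lb.g g5 (@Lb.g g10 (@Lb.r r1687 (@Lb.r r2376 (@Lb.r r1638 (@Lb.d (nat_lit 24) (nat_lit 133) (nat_lit 658) (@Lb.fp (nat_lit 3) t510)))))))))
noncomputable def l16263 : Lb := (@Lb.r r323 (@Lb.d (nat_lit 138) (nat_lit 6) (nat_lit 0) (@Lb.g g8 (@Lb.g g9 (@Lb.g g10 (@Lb.r r2473 (@Lb.r r2583 (@Lb.r r1130 (@Lb.r r360 (@Lb.d (nat_lit 165) (nat_lit 42) (nat_lit 582) (@Lb.t (@Lb.fp (nat_lit 9) t208))))))))))))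
noncomputable def l16264 : Lb := (@Lb.d (nat_lit 32) (nat_lit 2) (nat_lit 130) (@Lb.g g8 (@Lb.g g9 (@Lb.g g10 (@Lb.g g11 (@Lb.r r1686 (@Lb.r r529 (@Lb.r r2391 (@Lb.r r1672 (@Lb.d (nat_lit 36) (nat_lit 42) (nat_lit 264) (@Lb.fp (nat_lit 9) t3329)))))))))))
noncomputable def l16265 : Lb := (@Lb.d (nat_lit 4) (nat_lit 1) (nat_lit 0) (@Lb.g g8 (@Lb.g g9 (@Lb.r r322 (@Lb.r r1667 (@Lb.r r578 (@Lb.r r1561 (@Lb.d (nat_lit 586) (nat_lit 2) (nat_lit 394) (@Lb.fp (nat_lit 3) t1035)))))))))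
noncomputable def l16266 : Lb := (@Lb.r r82 (@Lb.d (nat_lit 132) (nat_lit 512) (nat_lit 128) (@Lb.g g8 (@Lb.g g9 (@Lb.g g11 (@Lb.r r2467 (@Lb.r r386 (@Lb.r r36 (@Lb.r r1125 (@Lb.d (nat_lit 70) (nat_lit 9) (nat_lit 530) (@Lb.t (@Lb.fm (nat_lit 9) t3330))))))))))))
noncomputable def l16267 : Lb := (@Lb.d (nat_lit 130) (nat_lit 4) (nat_lit 64) (@Lb.g g8 (@Lb.g g9 (@Lb.g g10 (@Lb.g g11 (@Lb.r r292 (@Lb.r r651 (@Lb.r r650 (@Lb.r r2133 (@Lb.r r1188 (@Lb.d (nat_lit 329) (nat_lit 101) (nat_lit 546) (@Lb.fp (nat_lit 9) t3331))))))))))))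
noncomputable def l16268 : Lb := (@Lb.d (nat_lit 2) (nat_lit 2) (nat_lit 73) (@Lb.g g8 (@Lb.g g9 (@Lb.g g10 (@Lb.g g11 (@Lb.r r2666 (@Lb.r r579 (@Lb.r r97 (@Lb.r r24 (@Lb.d (nat_lit 152) (nat_lit 9) (nat_lit 326) (@Lb.fm (nat_lit 9) t61)))))))))))
noncomputable def l16269 : Lb := (@Lb.r r532 (@Lb.r r82 (@Lb.d (nat_lit 8) (nat_lit 358) (nat_lit 328) (@Lb.g g9 (@Lb.g g11 (@Lb.r r1112 (@Lb.r r2438 (@Lb.d (nat_lit 610) (nat_lit 2) (nat_lit 256) (@Lb.fm (nat_lit 3) t1816)))))))))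
noncomputable def l16270 : Lb := (@Lb.d (nat_lit 0) (nat_lit 2) (nat_lit 130) (@Lb.g g8 (@Lb.g g9 (@Lb.g g10 (@Lb.g g11 (@Lb.r r663 (@Lb.r r2394 (@Lb.r r1573 (@Lb.r r2344 (@Lb.d (nat_lit 265) (nat_lit 72) (nat_lit 2) (@Lb.fm (nat_lit 9) t3332)))))))))))
noncomputable def l16271 : Lb := (@Lb.d (nat_lit 144) (nat_lit 516) (nat_lit 65) (@Lb.g g8 (@Lb.g g9 (@Lb.g g10 (@Lb.g g11 (@Lb.r r427 (@Lb.r r1172 (@Lb.r r598 (@Lb.r r37 (@Lb.d (nat_lit 101) (nat_lit 69) (nat_lit 601) (@Lb.fm (nat_lit 9) t2564)))))))))))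
noncomputable def l16272 : Lb := (@Lb.d (nat_lit 2) (nat_lit 256) (nat_lit 9) (@Lb.g g8 (@Lb.g g9 (@Lb.g g10 (@Lb.g g11 (@Lb.r r2630 (@Lb.r r1188 (@Lb.r r661 (@Lb.r r2451 (@Lb.d (nat_lit 0) (nat_lit 144) (nat_lit 417) (@Lb.fp (nat_lit 9) t1594)))))))))))
noncomputable def l16273 : Lb := (@Lb.d (nat_lit 0) (nat_lit 2) (nat_lit 130) (@Lb.g g9 (@Lb.g g10 (@Lb.g g11 (@Lb.r r1379 (@Lb.r r2438 (@Lb.r r104 (@Lb.r r25 (@Lb.d (nat_lit 522) (nat_lit 160) (nat_lit 640) (@Lb.t (@Lb.fm (nat_lit 9) t490)))))))))))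
noncomputable def l16274 : Lb := (@Lb.r r70 (@Lb.r r263 (@Lb.d (nat_lit 6) (nat_lit 257) (nat_lit 0) (@Lb.g g8 (@Lb.g g5 (@Lb.r r1315 (@Lb.r r1122 (@Lb.r r1160 (@Lb.d (nat_lit 532) (nat_lit 133) (nat_lit 18) (@Lb.fm (nat_lit 3) t1041))))))))))
noncomputable def l16275 : Lb := (@Lb.d (nat_lit 326) (nat_lit 406) (nat_lit 649) (@Lb.r r353 (@Lb.r r407 (@Lb.r r584 (@Lb.r r1362 (@Lb.g g7 (@Lb.g g6 (@Lb.g g5 (@Lb.d (nat_lit 4) (nat_lit 1) (nat_lit 65) (@Lb.t (@Lb.fp (nat_lit 9) t217)))))))))))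
noncomputable def l16276 : Lb := (@Lb.r r82 (@Lb.d (nat_lit 34) (nat_lit 33) (nat_lit 64) (@Lb.g g8 (@Lb.g g9 (@Lb.g g11 (@Lb.r r1698 (@Lb.r r1577 (@Lb.r r616 (@Lb.r r587 (@Lb.d (nat_lit 384) (nat_lit 34) (nat_lit 102) (@Lb.t (@Lb.fm (nat_lit 9) t355))))))))))))
noncomputable def l16277 : Lb := (@Lb.d (nat_lit 128) (nat_lit 256) (nat_lit 128) (@Lb.g g11 (@Lb.r r264 (@Lb.r r1351 (@Lb.r r2178 (@Lb.r r2201 (@Lb.d (nat_lit 66) (nat_lit 0) (nat_lit 138) (@Lb.t (@Lb.fp (nat_lit 3) t417)))))))))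
noncomputable def l16278 : Lb := (@Lb.r r82 (@Lb.d (nat_lit 8) (nat_lit 545) (nat_lit 128) (@Lb.g g9 (@Lb.g g11 (@Lb.r r555 (@Lb.r r2458 (@Lb.r r2452 (@Lb.r r1705 (@Lb.d (nat_lit 130) (nat_lit 10) (nat_lit 280) (@Lb.fp (nat_lit 3) t3081))))))))))
noncomputable def l16279 : Lb := (@Lb.d (nat_lit 0) (nat_lit 2) (nat_lit 73) (@Lb.g g9 (@Lb.g g10 (@Lb.g g11 (@Lb.r r2691 (@Lb.r r145 (@Lb.r r594 (@Lb.r r1169 (@Lb.d (nat_lit 0) (nat_lit 160) (nat_lit 601) (@Lb.t (@Lb.fp (nat_lit 9) t247)))))))))))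
noncomputable def l16280 : Lb := (@Lb.d (nat_lit 128) (nat_lit 512) (nat_lit 128) (@Lb.g g11 (@Lb.r r264 (@Lb.r r1351 (@Lb.r r2178 (@Lb.r r2201 (@Lb.d (nat_lit 73) (nat_lit 2) (nat_lit 138) (@Lb.t (@Lb.fp (nat_lit 3) t1385)))))))))
noncomputable def l16281 : Lb := (@Lb.r r322 (@Lb.d (nat_lit 128) (nat_lit 16) (nat_lit 136) (@Lb.g g11 (@Lb.r r1106 (@Lb.r r1557 (@Lb.r r1416 (@Lb.d (nat_lit 16) (nat_lit 128) (nat_lit 144) (@Lb.t (@Lb.fm (nat_lit 3) t3333)))))))))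
noncomputable def l16282 : Lb := (@Lb.r r82 (@Lb.d (nat_lit 2) (nat_lit 2) (nat_lit 64) (@Lb.g g8 (@Lb.g g9 (@Lb.g g7 (@Lb.r r2465 (@Lb.r r98 (@Lb.d (nat_lit 0) (nat_lit 100) (nat_lit 528) (@Lb.t (@Lb.fm (nat_lit 9) t99))))))))))
noncomputable def l16283 : Lb := (@Lb.r r322 (@Lb.d (nat_lit 34) (nat_lit 258) (nat_lit 72) (@Lb.g g8 (@Lb.g g9 (@Lb.g g7 (@Lb.r r361 (@Lb.r r150 (@Lb.r r84 (@Lb.d (nat_lit 282) (nat_lit 21) (nat_lit 521) (@Lb.t (@Lb.fp (nat_lit 9) t2026)))))))))))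
noncomputable def l16284 : Lb := (@Lb.d (nat_lit 2) (nat_lit 4) (nat_lit 64) (@Lb.g g8 (@Lb.g g9 (@Lb.g g10 (@Lb.g g7 (@Lb.r r1366 (@Lb.r r1193 (@Lb.d (nat_lit 533) (nat_lit 168) (nat_lit 514) (@Lb.fp (nat_lit 9) t99)))))))))
noncomputable def l16285 : Lb := (@Lb.r r322 (@Lb.d (nat_lit 34) (nat_lit 2) (nat_lit 72) (@Lb.g g8 (@Lb.g g9 (@Lb.g g7 (@Lb.r r361 (@Lb.r r150 (@Lb.r r84 (@Lb.d (nat_lit 550) (nat_lit 18) (nat_lit 553) (@Lb.t (@Lb.fp (nat_lit 9) t2706)))))))))))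
noncomputable def l16286 : Lb := (@Lb.d (nat_lit 1) (nat_lit 617) (nat_lit 105) (@Lb.r r1681 (@Lb.r r2182 (@Lb.r r2711 (@Lb.g g5 (@Lb.g g4 (@Lb.d (nat_lit 272) (nat_lit 17) (nat_lit 0) (@Lb.r r267 (@Lb.r r74 (@Lb.fm (nat_lit 3) t367))))))))))
noncomputable def l16287 : Lb := (@Lb.d (nat_lit 5) (nat_lit 16) (nat_lit 129) (@Lb.r r597 (@Lb.r r279 (@Lb.r r612 (@Lb.g g10 (@Lb.g g5 (@Lb.d (nat_lit 20) (nat_lit 6) (nat_lit 5) (@Lb.r r387 (@Lb.fp (nat_lit 3) t3334)))))))))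
noncomputable def l16288 : Lb := (@Lb.d (nat_lit 2) (nat_lit 512) (nat_lit 1) (@Lb.r r402 (@Lb.r r101 (@Lb.r r24 (@Lb.g g9 (@Lb.t (@Lb.fm (nat_lit 3) t145)))))))
noncomputable def l16289 : Lb := (@Lb.d (nat_lit 4) (nat_lit 261) (nat_lit 0) (@Lb.g g8 (@Lb.g g9 (@Lb.g g10 (@Lb.r r683 (@Lb.r r2666 (@Lb.r r25 (@Lb.d (nat_lit 10) (nat_lit 89) (nat_lit 537) (@Lb.t (@Lb.fp (nat_lit 9) t1369))))))))))
noncomputable def l16290 : Lb := (@Lb.r r338 (@Lb.d (nat_lit 2) (nat_lit 674) (nat_lit 128) (@Lb.g g8 (@Lb.g g9 (@Lb.g g11 (@Lb.r r2212 (@Lb.r r2182 (@Lb.d (nat_lit 610) (nat_lit 4) (nat_lit 513) (@Lb.t (@Lb.fp (nat_lit 9) t1377))))))))))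
noncomputable def l16291 : Lb := (@Lb.d (nat_lit 2) (nat_lit 256) (nat_lit 0) (@Lb.g g8 (@Lb.g g5 (@Lb.g g11 (@Lb.r r1575 (@Lb.r r24 (@Lb.d (nat_lit 648) (nat_lit 0) (nat_lit 384) (@Lb.t (@Lb.fp (nat_lit 9) t1165)))))))))
noncomputable def l16292 : Lb := (@Lb.r r21 (@Lb.r r70 (@Lb.d (nat_lit 390) (nat_lit 0) (nat_lit 0) (@Lb.g g8 (@Lb.r r74 (@Lb.r r25 (@Lb.d (nat_lit 576) (nat_lit 64) (nat_lit 0) (@Lb.t (@Lb.fp (nat_lit 3) t329)))))))))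
noncomputable def l16293 : Lb := (@Lb.d (nat_lit 2) (nat_lit 1) (nat_lit 0) (@Lb.g g8 (@Lb.g g9 (@Lb.g g10 (@Lb.r r675 (@Lb.r r1681 (@Lb.r r2404 (@Lb.r r1178 (@Lb.d (nat_lit 682) (nat_lit 137) (nat_lit 84) (@Lb.t (@Lb.fm (nat_lit 9) t66)))))))))))
noncomputable def l16294 : Lb := (@Lb.d (nat_lit 2) (nat_lit 9) (nat_lit 72) (@Lb.g g8 (@Lb.g g9 (@Lb.g g10 (@Lb.g g11 (@Lb.r r2691 (@Lb.r r297 (@Lb.r r648 (@Lb.r r666 (@Lb.r r1156 (@Lb.d (nat_lit 646) (nat_lit 40) (nat_lit 73) (@Lb.fp (nat_lit 9) t1234))))))))))))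
noncomputable def l16295 : Lb := (@Lb.r r21 (@Lb.r r326 (@Lb.d (nat_lit 422) (nat_lit 32) (nat_lit 128) (@Lb.g g8 (@Lb.g g11 (@Lb.r r2198 (@Lb.r r97 (@Lb.d (nat_lit 609) (nat_lit 65) (nat_lit 546) (@Lb.fm (nat_lit 3) t1377)))))))))
noncomputable def l16296 : Lb := (@Lb.d (nat_lit 2) (nat_lit 2) (nat_lit 2) (@Lb.g g8 (@Lb.g g9 (@Lb.g g10 (@Lb.g g11 (@Lb.r r2411 (@Lb.r r386 (@Lb.r r97 (@Lb.r r24 (@Lb.d (nat_lit 256) (nat_lit 10) (nat_lit 86) (@Lb.fm (nat_lit 9) t61)))))))))))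
noncomputable def l16297 : Lb := (@Lb.d (nat_lit 1) (nat_lit 258) (nat_lit 130) (@Lb.g g8 (@Lb.g g9 (@Lb.g g10 (@Lb.g g11 (@Lb.r r1602 (@Lb.r r1607 (@Lb.r r404 (@Lb.r r25 (@Lb.d (nat_lit 522) (nat_lit 96) (nat_lit 168) (@Lb.fm (nat_lit 9) t2700)))))))))))
noncomputable def l16298 : Lb := (@Lb.d (nat_lit 280) (nat_lit 593) (nat_lit 534) (@Lb.r r2116 (@Lb.r r2410 (@Lb.r r2145 (@Lb.g g7 (@Lb.g g4 (@Lb.d (nat_lit 5) (nat_lit 32) (nat_lit 388) (@Lb.fp (nat_lit 3) t1027))))))))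
noncomputable def l16299 : Lb := (@Lb.d (nat_lit 0) (nat_lit 2) (nat_lit 130) (@Lb.g g9 (@Lb.g g10 (@Lb.g g11 (@Lb.r r2411 (@Lb.r r386 (@Lb.r r97 (@Lb.d (nat_lit 292) (nat_lit 64) (nat_lit 137) (@Lb.t (@Lb.fm (nat_lit 9) t1231))))))))))
noncomputable def l16300 : Lb := (@Lb.d (nat_lit 1) (nat_lit 421) (nat_lit 294) (@Lb.r r21 (@Lb.r r1366 (@Lb.r r683 (@Lb.g g7 (@Lb.g g6 (@Lb.g g5 (@Lb.g g4 (@Lb.d (nat_lit 8) (nat_lit 10) (nat_lit 69) (@Lb.fm (nat_lit 9) t40))))))))))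
noncomputable def l16301 : Lb := (@Lb.d (nat_lit 1) (nat_lit 677) (nat_lit 294) (@Lb.r r21 (@Lb.r r1366 (@Lb.r r683 (@Lb.g g7 (@Lb.g g6 (@Lb.g g5 (@Lb.g g4 (@Lb.d (nat_lit 1) (nat_lit 1) (nat_lit 70) (@Lb.fm (nat_lit 9) t40))))))))))
noncomputable def l16302 : Lb := (@Lb.d (nat_lit 40) (nat_lit 521) (nat_lit 72) (@Lb.g g9 (@Lb.g g10 (@Lb.g g11 (@Lb.r r2695 (@Lb.r r1352 (@Lb.r r2390 (@Lb.r r409 (@Lb.d (nat_lit 136) (nat_lit 130) (nat_lit 330) (@Lb.t (@Lb.fm (nat_lit 9) t3216)))))))))))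
noncomputable def l16303 : Lb := (@Lb.d (nat_lit 1) (nat_lit 165) (nat_lit 294) (@Lb.r r21 (@Lb.r r1366 (@Lb.r r683 (@Lb.g g7 (@Lb.g g6 (@Lb.g g5 (@Lb.g g4 (@Lb.d (nat_lit 1) (nat_lit 8) (nat_lit 69) (@Lb.fm (nat_lit 9) t40))))))))))
noncomputable def l16304 : Lb := (@Lb.r r322 (@Lb.d (nat_lit 34) (nat_lit 514) (nat_lit 576) (@Lb.g g8 (@Lb.g g9 (@Lb.g g7 (@Lb.r r361 (@Lb.r r150 (@Lb.r r84 (@Lb.d (nat_lit 17) (nat_lit 149) (nat_lit 585) (@Lb.t (@Lb.fp (nat_lit 9) t259)))))))))))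
noncomputable def l16305 : Lb := (@Lb.r r1284 (@Lb.d (nat_lit 0) (nat_lit 2) (nat_lit 2) (@Lb.g g9 (@Lb.g g10 (@Lb.g g11 (@Lb.r r2721 (@Lb.r r427 (@Lb.r r98 (@Lb.d (nat_lit 656) (nat_lit 8) (nat_lit 585) (@Lb.t (@Lb.fp (nat_lit 9) t211)))))))))))
noncomputable def l16306 : Lb := (@Lb.d (nat_lit 132) (nat_lit 258) (nat_lit 130) (@Lb.g g8 (@Lb.g g9 (@Lb.g g10 (@Lb.g g11 (@Lb.r r618 (@Lb.r r612 (@Lb.r r1319 (@Lb.r r405 (@Lb.r r36 (@Lb.d (nat_lit 104) (nat_lit 130) (nat_lit 410) (@Lb.fp (nat_lit 9) t3335))))))))))))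
noncomputable def l16307 : Lb := (@Lb.d (nat_lit 2) (nat_lit 2) (nat_lit 4) (@Lb.g g8 (@Lb.g g9 (@Lb.g g10 (@Lb.g g11 (@Lb.r r1367 (@Lb.r r1366 (@Lb.r r97 (@Lb.r r24 (@Lb.d (nat_lit 153) (nat_lit 9) (nat_lit 418) (@Lb.fp (nat_lit 9) t592)))))))))))
noncomputable def l16308 : Lb := (@Lb.d (nat_lit 6) (nat_lit 554) (nat_lit 128) (@Lb.g g4 (@Lb.g g9 (@Lb.g g11 (@Lb.r r410 (@Lb.r r1383 (@Lb.r r357 (@Lb.d (nat_lit 89) (nat_lit 36) (nat_lit 166) (@Lb.t (@Lb.fp (nat_lit 9) t3336))))))))))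
noncomputable def l16309 : Lb := (@Lb.d (nat_lit 6) (nat_lit 298) (nat_lit 128) (@Lb.g g4 (@Lb.g g9 (@Lb.g g11 (@Lb.r r410 (@Lb.r r1383 (@Lb.r r357 (@Lb.d (nat_lit 86) (nat_lit 38) (nat_lit 166) (@Lb.t (@Lb.fp (nat_lit 9) t3337))))))))))
noncomputable def l16310 : Lb := (@Lb.d (nat_lit 164) (nat_lit 577) (nat_lit 257) (@Lb.r r24 (@Lb.r r386 (@Lb.r r2395 (@Lb.g g7 (@Lb.g g5 (@Lb.d (nat_lit 4) (nat_lit 145) (nat_lit 128) (@Lb.r r98 (@Lb.fm (nat_lit 3) t311)))))))))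
noncomputable def l16311 : Lb := (@Lb.r r323 (@Lb.d (nat_lit 2) (nat_lit 258) (nat_lit 1) (@Lb.g g8 (@Lb.g g9 (@Lb.g g6 (@Lb.r r2667 (@Lb.r r97 (@Lb.r r24 (@Lb.d (nat_lit 266) (nat_lit 9) (nat_lit 69) (@Lb.t (@Lb.fm (nat_lit 9) t1529)))))))))))
noncomputable def l16312 : Lb := (@Lb.d (nat_lit 389) (nat_lit 328) (nat_lit 2) (@Lb.r r1128 (@Lb.r r1313 (@Lb.r r1686 (@Lb.r r2387 (@Lb.g g7 (@Lb.g g6 (@Lb.g g5 (@Lb.d (nat_lit 0) (nat_lit 1) (nat_lit 65) (@Lb.t (@Lb.fm (nat_lit 9) t1014)))))))))))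
noncomputable def l16313 : Lb := (@Lb.d (nat_lit 129) (nat_lit 512) (nat_lit 1) (@Lb.g g8 (@Lb.g g10 (@Lb.r r519 (@Lb.r r2472 (@Lb.r r153 (@Lb.r r90 (@Lb.d (nat_lit 26) (nat_lit 164) (nat_lit 677) (@Lb.fm (nat_lit 3) t1096)))))))))
noncomputable def l16314 : Lb := (@Lb.d (nat_lit 320) (nat_lit 357) (nat_lit 129) (@Lb.r r289 (@Lb.r r535 (@Lb.r r328 (@Lb.r r2726 (@Lb.g g7 (@Lb.g g6 (@Lb.g g5 (@Lb.d (nat_lit 4) (nat_lit 1) (nat_lit 134) (@Lb.t (@Lb.fp (nat_lit 9) t986)))))))))))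
noncomputable def l16315 : Lb := (@Lb.d (nat_lit 128) (nat_lit 544) (nat_lit 136) (@Lb.g g11 (@Lb.r r420 (@Lb.r r2469 (@Lb.r r1446 (@Lb.r r347 (@Lb.d (nat_lit 298) (nat_lit 17) (nat_lit 517) (@Lb.t (@Lb.fp (nat_lit 3) t322)))))))))
noncomputable def l16316 : Lb := (@Lb.d (nat_lit 128) (nat_lit 544) (nat_lit 64) (@Lb.g g11 (@Lb.r r356 (@Lb.r r2405 (@Lb.r r2650 (@Lb.r r1627 (@Lb.d (nat_lit 169) (nat_lit 97) (nat_lit 665) (@Lb.t (@Lb.fp (nat_lit 3) t322)))))))))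
noncomputable def l16317 : Lb := (@Lb.d (nat_lit 656) (nat_lit 10) (nat_lit 261) (@Lb.r r24 (@Lb.r r101 (@Lb.r r386 (@Lb.g g11 (@Lb.g g6 (@Lb.d (nat_lit 0) (nat_lit 0) (nat_lit 1) (@Lb.fm (nat_lit 3) t3338))))))))
noncomputable def l16318 : Lb := (@Lb.d (nat_lit 406) (nat_lit 65) (nat_lit 294) (@Lb.r r24 (@Lb.r r386 (@Lb.g g11 (@Lb.g g6 (@Lb.g g5 (@Lb.d (nat_lit 4) (nat_lit 1) (nat_lit 1) (@Lb.t (@Lb.fm (nat_lit 9) t1221)))))))))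
noncomputable def l16319 : Lb := (@Lb.d (nat_lit 2) (nat_lit 265) (nat_lit 72) (@Lb.g g8 (@Lb.g g9 (@Lb.g g10 (@Lb.g g11 (@Lb.r r1559 (@Lb.r r2474 (@Lb.r r97 (@Lb.r r24 (@Lb.d (nat_lit 298) (nat_lit 9) (nat_lit 146) (@Lb.fp (nat_lit 9) t3339)))))))))))
noncomputable def l16320 : Lb := (@Lb.d (nat_lit 656) (nat_lit 266) (nat_lit 5) (@Lb.r r24 (@Lb.r r613 (@Lb.r r386 (@Lb.g g11 (@Lb.g g6 (@Lb.d (nat_lit 0) (nat_lit 0) (nat_lit 385) (@Lb.r r529 (@Lb.fm (nat_lit 3) t495)))))))))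
noncomputable def l16321 : Lb := (@Lb.d (nat_lit 0) (nat_lit 9) (nat_lit 130) (@Lb.g g9 (@Lb.g g10 (@Lb.g g11 (@Lb.r r1671 (@Lb.r r644 (@Lb.r r326 (@Lb.r r97 (@Lb.d (nat_lit 641) (nat_lit 22) (nat_lit 418) (@Lb.t (@Lb.fm (nat_lit 9) t3304)))))))))))
noncomputable def l16322 : Lb := (@Lb.d (nat_lit 0) (nat_lit 546) (nat_lit 130) (@Lb.g g8 (@Lb.g g9 (@Lb.g g10 (@Lb.g g11 (@Lb.r r387 (@Lb.r r2581 (@Lb.r r2468 (@Lb.r r2438 (@Lb.d (nat_lit 337) (nat_lit 0) (nat_lit 68) (@Lb.fm (nat_lit 9) t523)))))))))))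
noncomputable def l16323 : Lb := (@Lb.d (nat_lit 0) (nat_lit 546) (nat_lit 130) (@Lb.g g9 (@Lb.g g10 (@Lb.g g11 (@Lb.r r387 (@Lb.r r2581 (@Lb.r r2468 (@Lb.r r2438 (@Lb.d (nat_lit 337) (nat_lit 0) (nat_lit 68) (@Lb.t (@Lb.fp (nat_lit 9) t523)))))))))))
noncomputable def l16324 : Lb := (@Lb.d (nat_lit 513) (nat_lit 289) (nat_lit 661) (@Lb.r r545 (@Lb.r r331 (@Lb.r r264 (@Lb.r r106 (@Lb.g g7 (@Lb.g g5 (@Lb.d (nat_lit 64) (nat_lit 5) (nat_lit 64) (@Lb.fm (nat_lit 3) t441)))))))))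
noncomputable def l16325 : Lb := (@Lb.d (nat_lit 36) (nat_lit 678) (nat_lit 160) (@Lb.g g5 (@Lb.g g10 (@Lb.g g11 (@Lb.r r1415 (@Lb.d (nat_lit 100) (nat_lit 1) (nat_lit 297) (@Lb.t (@Lb.fp (nat_lit 9) t1221))))))))
noncomputable def l16326 : Lb := (@Lb.g g9 (@Lb.r r2599 (@Lb.r r134 (@Lb.r r1304 (@Lb.r r2661 (@Lb.d (nat_lit 514) (nat_lit 64) (nat_lit 16) (@Lb.t (@Lb.fp (nat_lit 3) t1122))))))))
noncomputable def l16327 : Lb := (@Lb.d (nat_lit 0) (nat_lit 266) (nat_lit 72) (@Lb.g g9 (@Lb.g g10 (@Lb.g g11 (@Lb.r r1555 (@Lb.r r2466 (@Lb.r r101 (@Lb.r r24 (@Lb.d (nat_lit 272) (nat_lit 0) (nat_lit 146) (@Lb.t (@Lb.fm (nat_lit 9) t1727)))))))))))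
noncomputable def l16328 : Lb := (@Lb.g g9 (@Lb.r r2599 (@Lb.r r134 (@Lb.r r1304 (@Lb.r r2661 (@Lb.d (nat_lit 521) (nat_lit 322) (nat_lit 16) (@Lb.t (@Lb.fp (nat_lit 3) t1122))))))))
noncomputable def l16329 : Lb := (@Lb.d (nat_lit 513) (nat_lit 18) (nat_lit 661) (@Lb.r r273 (@Lb.r r331 (@Lb.r r264 (@Lb.r r170 (@Lb.g g7 (@Lb.g g5 (@Lb.d (nat_lit 64) (nat_lit 2) (nat_lit 64) (@Lb.fm (nat_lit 3) t528)))))))))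
noncomputable def l16330 : Lb := (@Lb.d (nat_lit 0) (nat_lit 256) (nat_lit 161) (@Lb.g g9 (@Lb.g g6 (@Lb.g g11 (@Lb.r r579 (@Lb.r r1317 (@Lb.r r24 (@Lb.d (nat_lit 34) (nat_lit 0) (nat_lit 544) (@Lb.t (@Lb.fm (nat_lit 9) t317))))))))))
noncomputable def l16331 : Lb := (@Lb.d (nat_lit 2) (nat_lit 258) (nat_lit 130) (@Lb.g g8 (@Lb.g g9 (@Lb.g g10 (@Lb.g g11 (@Lb.r r2218 (@Lb.r r548 (@Lb.r r615 (@Lb.r r533 (@Lb.r r2084 (@Lb.d (nat_lit 641) (nat_lit 10) (nat_lit 345) (@Lb.fp (nat_lit 9) t228))))))))))))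
noncomputable def l16332 : Lb := (@Lb.d (nat_lit 0) (nat_lit 578) (nat_lit 2) (@Lb.g g4 (@Lb.g g9 (@Lb.g g10 (@Lb.g g11 (@Lb.r r419 (@Lb.r r98 (@Lb.d (nat_lit 0) (nat_lit 9) (nat_lit 2) (@Lb.fm (nat_lit 9) t51)))))))))
noncomputable def l16333 : Lb := (@Lb.r r277 (@Lb.d (nat_lit 517) (nat_lit 520) (nat_lit 2) (@Lb.g g8 (@Lb.g g10 (@Lb.g g11 (@Lb.r r1411 (@Lb.r r101 (@Lb.r r1434 (@Lb.d (nat_lit 20) (nat_lit 85) (nat_lit 393) (@Lb.t (@Lb.fm (nat_lit 9) t1039)))))))))))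
noncomputable def l16334 : Lb := (@Lb.d (nat_lit 0) (nat_lit 0) (nat_lit 128) (@Lb.g g11 (@Lb.r r1602 (@Lb.r r579 (@Lb.r r1425 (@Lb.r r1412 (@Lb.d (nat_lit 0) (nat_lit 88) (nat_lit 581) (@Lb.t (@Lb.fm (nat_lit 3) t3340)))))))))
noncomputable def l16335 : Lb := (@Lb.g g4 (@Lb.d (nat_lit 6) (nat_lit 320) (nat_lit 0) (@Lb.t (@Lb.fm (nat_lit 3) t2))))
noncomputable def l16336 : Lb := (@Lb.r r21 (@Lb.r r70 (@Lb.d (nat_lit 129) (nat_lit 256) (nat_lit 136) (@Lb.g g8 (@Lb.g g11 (@Lb.r r1620 (@Lb.r r74 (@Lb.r r25 (@Lb.d (nat_lit 405) (nat_lit 102) (nat_lit 665) (@Lb.fm (nat_lit 3) t1742))))))))))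
noncomputable def l16337 : Lb := (@Lb.d (nat_lit 6) (nat_lit 385) (nat_lit 16) (@Lb.r r21 (@Lb.r r1110 (@Lb.r r1623 (@Lb.g g6 (@Lb.g g5 (@Lb.g g4 (@Lb.d (nat_lit 1) (nat_lit 1) (nat_lit 0) (@Lb.t (@Lb.fm (nat_lit 9) t1043))))))))))
noncomputable def l16338 : Lb := (@Lb.d (nat_lit 130) (nat_lit 34) (nat_lit 2) (@Lb.g g8 (@Lb.g g9 (@Lb.g g10 (@Lb.r r599 (@Lb.r r98 (@Lb.r r408 (@Lb.r r101 (@Lb.d (nat_lit 21) (nat_lit 38) (nat_lit 145) (@Lb.t (@Lb.fp (nat_lit 9) t221)))))))))))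
noncomputable def l16339 : Lb := (@Lb.d (nat_lit 2) (nat_lit 514) (nat_lit 2) (@Lb.g g8 (@Lb.g g9 (@Lb.g g10 (@Lb.r r2729 (@Lb.r r2475 (@Lb.r r2468 (@Lb.r r2438 (@Lb.d (nat_lit 609) (nat_lit 10) (nat_lit 617) (@Lb.t (@Lb.fm (nat_lit 9) t590)))))))))))
noncomputable def l16340 : Lb := (@Lb.d (nat_lit 0) (nat_lit 256) (nat_lit 128) (@Lb.g g7 (@Lb.r r97 (@Lb.r r1106 (@Lb.r r145 (@Lb.t (@Lb.fp (nat_lit 3) t246)))))))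
noncomputable def l16341 : Lb := (@Lb.g g7 (@Lb.r r97 (@Lb.r r1106 (@Lb.r r145 (@Lb.t (@Lb.fp (nat_lit 3) t246))))))
noncomputable def l16342 : Lb := (@Lb.d (nat_lit 1) (nat_lit 257) (nat_lit 0) (@Lb.r r1346 (@Lb.r r2579 (@Lb.g g5 (@Lb.d (nat_lit 4) (nat_lit 82) (nat_lit 0) (@Lb.t (@Lb.fp (nat_lit 3) t3341)))))))
noncomputable def l16343 : Lb := (@Lb.d (nat_lit 2) (nat_lit 2) (nat_lit 0) (@Lb.g g8 (@Lb.g g9 (@Lb.g g10 (@Lb.r r1623 (@Lb.r r2154 (@Lb.r r25 (@Lb.r r24 (@Lb.d (nat_lit 9) (nat_lit 130) (nat_lit 32) (@Lb.t (@Lb.fm (nat_lit 9) t51)))))))))))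
noncomputable def l16344 : Lb := (@Lb.d (nat_lit 0) (nat_lit 1) (nat_lit 130) (@Lb.g g8 (@Lb.g g9 (@Lb.g g10 (@Lb.g g11 (@Lb.r r2154 (@Lb.r r2409 (@Lb.r r2455 (@Lb.r r1608 (@Lb.d (nat_lit 104) (nat_lit 2) (nat_lit 162) (@Lb.fp (nat_lit 9) t282)))))))))))
noncomputable def l16345 : Lb := (@Lb.r r21 (@Lb.r r70 (@Lb.g g8 (@Lb.r r2122 (@Lb.r r2073 (@Lb.r r2052 (@Lb.t (@Lb.fp (nat_lit 3) t164))))))))
noncomputable def l16346 : Lb := (@Lb.d (nat_lit 0) (nat_lit 512) (nat_lit 130) (@Lb.g g8 (@Lb.g g10 (@Lb.g g11 (@Lb.r r2138 (@Lb.r r1685 (@Lb.r r2455 (@Lb.r r1608 (@Lb.d (nat_lit 104) (nat_lit 2) (nat_lit 290) (@Lb.t (@Lb.fp (nat_lit 9) t282)))))))))))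
noncomputable def l16347 : Lb := (@Lb.r r21 (@Lb.r r70 (@Lb.d (nat_lit 10) (nat_lit 512) (nat_lit 0) (@Lb.g g8 (@Lb.r r1301 (@Lb.r r679 (@Lb.r r1354 (@Lb.r r2440 (@Lb.d (nat_lit 672) (nat_lit 10) (nat_lit 681) (@Lb.t (@Lb.fp (nat_lit 3) t151)))))))))))
noncomputable def l16348 : Lb := (@Lb.d (nat_lit 36) (nat_lit 146) (nat_lit 74) (@Lb.g g5 (@Lb.g g10 (@Lb.g g11 (@Lb.r r2439 (@Lb.r r1096 (@Lb.r r2198 (@Lb.d (nat_lit 128) (nat_lit 138) (nat_lit 128) (@Lb.t (@Lb.fp (nat_lit 9) t3215))))))))))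
noncomputable def l16349 : Lb := (@Lb.d (nat_lit 134) (nat_lit 273) (nat_lit 40) (@Lb.r r134 (@Lb.r r539 (@Lb.r r532 (@Lb.r r281 (@Lb.g g7 (@Lb.g g5 (@Lb.d (nat_lit 64) (nat_lit 1) (nat_lit 64) (@Lb.fm (nat_lit 3) t374)))))))))
noncomputable def l16350 : Lb := (@Lb.d (nat_lit 0) (nat_lit 530) (nat_lit 74) (@Lb.g g9 (@Lb.g g10 (@Lb.g g11 (@Lb.r r2579 (@Lb.r r1442 (@Lb.r r2337 (@Lb.r r24 (@Lb.d (nat_lit 610) (nat_lit 144) (nat_lit 674) (@Lb.t (@Lb.fm (nat_lit 9) t3342)))))))))))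
noncomputable def l16351 : Lb := (@Lb.r r81 (@Lb.d (nat_lit 152) (nat_lit 512) (nat_lit 10) (@Lb.g g8 (@Lb.g g6 (@Lb.r r1685 (@Lb.r r1687 (@Lb.r r2408 (@Lb.d (nat_lit 421) (nat_lit 106) (nat_lit 516) (@Lb.fp (nat_lit 3) t393)))))))))
noncomputable def l16352 : Lb := (@Lb.r r322 (@Lb.d (nat_lit 0) (nat_lit 272) (nat_lit 648) (@Lb.g g9 (@Lb.g g7 (@Lb.r r594 (@Lb.r r2341 (@Lb.r r24 (@Lb.d (nat_lit 258) (nat_lit 5) (nat_lit 40) (@Lb.fp (nat_lit 3) t3343)))))))))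
noncomputable def l16353 : Lb := (@Lb.d (nat_lit 130) (nat_lit 264) (nat_lit 0) (@Lb.g g8 (@Lb.g g9 (@Lb.r r407 (@Lb.r r82 (@Lb.r r161 (@Lb.r r612 (@Lb.d (nat_lit 149) (nat_lit 17) (nat_lit 137) (@Lb.fp (nat_lit 3) t2)))))))))
noncomputable def l16354 : Lb := (@Lb.d (nat_lit 338) (nat_lit 534) (nat_lit 261) (@Lb.r r2393 (@Lb.r r1451 (@Lb.r r1444 (@Lb.r r1370 (@Lb.g g5 (@Lb.d (nat_lit 4) (nat_lit 5) (nat_lit 0) (@Lb.t (@Lb.fm (nat_lit 3) t749)))))))))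
noncomputable def l16355 : Lb := (@Lb.d (nat_lit 0) (nat_lit 0) (nat_lit 74) (@Lb.g g10 (@Lb.g g11 (@Lb.r r2707 (@Lb.r r2626 (@Lb.r r24 (@Lb.r r101 (@Lb.d (nat_lit 609) (nat_lit 102) (nat_lit 401) (@Lb.fp (nat_lit 3) t519)))))))))
noncomputable def l16356 : Lb := (@Lb.d (nat_lit 0) (nat_lit 18) (nat_lit 74) (@Lb.g g9 (@Lb.g g10 (@Lb.g g11 (@Lb.r r1544 (@Lb.r r539 (@Lb.r r422 (@Lb.r r1317 (@Lb.d (nat_lit 164) (nat_lit 80) (nat_lit 418) (@Lb.t (@Lb.fm (nat_lit 9) t3342)))))))))))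
noncomputable def l16357 : Lb := (@Lb.d (nat_lit 18) (nat_lit 0) (nat_lit 64) (@Lb.g g8 (@Lb.g g9 (@Lb.g g10 (@Lb.g g11 (@Lb.r r2327 (@Lb.r r2713 (@Lb.r r2650 (@Lb.r r1604 (@Lb.d (nat_lit 657) (nat_lit 68) (nat_lit 666) (@Lb.fp (nat_lit 9) t1749)))))))))))
noncomputable def l16358 : Lb := (@Lb.r r20 (@Lb.r r82 (@Lb.r r275 (@Lb.d (nat_lit 4) (nat_lit 610) (nat_lit 0) (@Lb.g g9 (@Lb.r r1559 (@Lb.r r578 (@Lb.r r2120 (@Lb.d (nat_lit 32) (nat_lit 2) (nat_lit 33) (@Lb.t (@Lb.fp (nat_lit 3) t3344)))))))))))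
noncomputable def l16359 : Lb := (@Lb.r r82 (@Lb.d (nat_lit 8) (nat_lit 258) (nat_lit 580) (@Lb.g g9 (@Lb.g g7 (@Lb.r r422 (@Lb.r r596 (@Lb.r r297 (@Lb.d (nat_lit 548) (nat_lit 34) (nat_lit 34) (@Lb.fp (nat_lit 3) t3112)))))))))
noncomputable def l16360 : Lb := (@Lb.r r21 (@Lb.d (nat_lit 0) (nat_lit 8) (nat_lit 162) (@Lb.g g8 (@Lb.g g10 (@Lb.g g11 (@Lb.r r1435 (@Lb.r r2581 (@Lb.r r1316 (@Lb.d (nat_lit 329) (nat_lit 74) (nat_lit 1) (@Lb.t (@Lb.fm (nat_lit 9) t1089)))))))))))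
noncomputable def l16361 : Lb := (@Lb.d (nat_lit 150) (nat_lit 136) (nat_lit 410) (@Lb.r r2452 (@Lb.r r146 (@Lb.r r1691 (@Lb.r r337 (@Lb.g g7 (@Lb.g g5 (@Lb.d (nat_lit 0) (nat_lit 1) (nat_lit 64) (@Lb.r r98 (@Lb.fm (nat_lit 3) t3345))))))))))
noncomputable def l16362 : Lb := (@Lb.r r21 (@Lb.d (nat_lit 646) (nat_lit 256) (nat_lit 130) (@Lb.g g8 (@Lb.g g10 (@Lb.g g11 (@Lb.r r419 (@Lb.r r106 (@Lb.r r25 (@Lb.d (nat_lit 522) (nat_lit 9) (nat_lit 354) (@Lb.t (@Lb.fm (nat_lit 9) t3346)))))))))))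
noncomputable def l16363 : Lb := (@Lb.d (nat_lit 146) (nat_lit 521) (nat_lit 73) (@Lb.g g8 (@Lb.g g9 (@Lb.g g10 (@Lb.g g11 (@Lb.r r1706 (@Lb.r r1419 (@Lb.r r1553 (@Lb.r r420 (@Lb.d (nat_lit 85) (nat_lit 85) (nat_lit 601) (@Lb.fm (nat_lit 9) t783)))))))))))
noncomputable def l16364 : Lb := (@Lb.d (nat_lit 0) (nat_lit 520) (nat_lit 130) (@Lb.g g10 (@Lb.g g11 (@Lb.r r353 (@Lb.r r663 (@Lb.r r356 (@Lb.r r154 (@Lb.d (nat_lit 18) (nat_lit 0) (nat_lit 2) (@Lb.fp (nat_lit 3) t45)))))))))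
noncomputable def l16365 : Lb := (@Lb.d (nat_lit 1) (nat_lit 258) (nat_lit 130) (@Lb.g g8 (@Lb.g g9 (@Lb.g g10 (@Lb.g g11 (@Lb.r r582 (@Lb.r r388 (@Lb.r r1323 (@Lb.r r1433 (@Lb.d (nat_lit 277) (nat_lit 134) (nat_lit 402) (@Lb.fp (nat_lit 9) t519)))))))))))
noncomputable def l16366 : Lb := (@Lb.r r90 (@Lb.d (nat_lit 38) (nat_lit 256) (nat_lit 128) (@Lb.g g8 (@Lb.g g9 (@Lb.g g11 (@Lb.r r1315 (@Lb.r r2646 (@Lb.r r1425 (@Lb.r r1572 (@Lb.d (nat_lit 394) (nat_lit 86) (nat_lit 82) (@Lb.t (@Lb.fm (nat_lit 9) t535))))))))))))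
noncomputable def l16367 : Lb := (@Lb.d (nat_lit 4) (nat_lit 256) (nat_lit 130) (@Lb.g g8 (@Lb.g g9 (@Lb.g g10 (@Lb.g g11 (@Lb.r r1443 (@Lb.r r2725 (@Lb.r r2406 (@Lb.r r2584 (@Lb.d (nat_lit 361) (nat_lit 102) (nat_lit 346) (@Lb.fp (nat_lit 9) t1385)))))))))))
noncomputable def l16368 : Lb := (@Lb.d (nat_lit 1) (nat_lit 265) (nat_lit 129) (@Lb.g g8 (@Lb.g g9 (@Lb.g g10 (@Lb.g g11 (@Lb.r r1443 (@Lb.r r168 (@Lb.r r2473 (@Lb.r r2154 (@Lb.r r1060 (@Lb.d (nat_lit 545) (nat_lit 33) (nat_lit 601) (@Lb.fp (nat_lit 9) t1379))))))))))))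
noncomputable def l16369 : Lb := (@Lb.d (nat_lit 1) (nat_lit 514) (nat_lit 130) (@Lb.g g8 (@Lb.g g9 (@Lb.g g10 (@Lb.g g11 (@Lb.r r1443 (@Lb.r r40 (@Lb.r r425 (@Lb.r r98 (@Lb.r r2084 (@Lb.d (nat_lit 402) (nat_lit 88) (nat_lit 340) (@Lb.fp (nat_lit 9) t1231))))))))))))
noncomputable def l16370 : Lb := (@Lb.d (nat_lit 36) (nat_lit 2) (nat_lit 128) (@Lb.g g8 (@Lb.g g9 (@Lb.g g11 (@Lb.r r342 (@Lb.r r387 (@Lb.r r2585 (@Lb.r r1556 (@Lb.d (nat_lit 262) (nat_lit 98) (nat_lit 681) (@Lb.t (@Lb.fm (nat_lit 9) t1558)))))))))))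
noncomputable def l16371 : Lb := (@Lb.r r323 (@Lb.d (nat_lit 2) (nat_lit 9) (nat_lit 0) (@Lb.g g8 (@Lb.g g9 (@Lb.g g6 (@Lb.r r2347 (@Lb.r r97 (@Lb.r r24 (@Lb.d (nat_lit 106) (nat_lit 9) (nat_lit 594) (@Lb.t (@Lb.fp (nat_lit 9) t1727)))))))))))
noncomputable def l16372 : Lb := (@Lb.d (nat_lit 2) (nat_lit 521) (nat_lit 6) (@Lb.g g8 (@Lb.g g9 (@Lb.g g10 (@Lb.g g11 (@Lb.r r1367 (@Lb.r r1366 (@Lb.r r97 (@Lb.r r24 (@Lb.d (nat_lit 153) (nat_lit 9) (nat_lit 361) (@Lb.fp (nat_lit 9) t3347)))))))))))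
noncomputable def l16373 : Lb := (@Lb.d (nat_lit 146) (nat_lit 514) (nat_lit 128) (@Lb.g g8 (@Lb.g g9 (@Lb.g g10 (@Lb.g g11 (@Lb.r r683 (@Lb.r r1689 (@Lb.r r1178 (@Lb.r r132 (@Lb.d (nat_lit 34) (nat_lit 130) (nat_lit 649) (@Lb.fp (nat_lit 9) t594)))))))))))
noncomputable def l16374 : Lb := (@Lb.d (nat_lit 8) (nat_lit 514) (nat_lit 128) (@Lb.g g9 (@Lb.g g10 (@Lb.g g11 (@Lb.r r387 (@Lb.r r402 (@Lb.r r24 (@Lb.d (nat_lit 0) (nat_lit 68) (nat_lit 17) (@Lb.t (@Lb.fm (nat_lit 9) t334))))))))))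
noncomputable def l16375 : Lb := (@Lb.r r70 (@Lb.d (nat_lit 129) (nat_lit 514) (nat_lit 64) (@Lb.g g8 (@Lb.g g9 (@Lb.g g11 (@Lb.r r299 (@Lb.r r1602 (@Lb.r r97 (@Lb.r r1048 (@Lb.d (nat_lit 153) (nat_lit 66) (nat_lit 681) (@Lb.t (@Lb.fm (nat_lit 9) t50))))))))))))
noncomputable def l16376 : Lb := (@Lb.r r323 (@Lb.d (nat_lit 129) (nat_lit 4) (nat_lit 26) (@Lb.g g8 (@Lb.g g6 (@Lb.r r407 (@Lb.r r2145 (@Lb.r r1540 (@Lb.d (nat_lit 384) (nat_lit 2) (nat_lit 641) (@Lb.fm (nat_lit 3) t51)))))))))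
noncomputable def l16377 : Lb := (@Lb.d (nat_lit 10) (nat_lit 256) (nat_lit 64) (@Lb.g g8 (@Lb.g g7 (@Lb.r r149 (@Lb.r r402 (@Lb.r r2436 (@Lb.d (nat_lit 610) (nat_lit 5) (nat_lit 64) (@Lb.fm (nat_lit 3) t311))))))))
noncomputable def l16378 : Lb := (@Lb.d (nat_lit 9) (nat_lit 37) (nat_lit 74) (@Lb.g g8 (@Lb.g g9 (@Lb.g g10 (@Lb.g g11 (@Lb.r r1706 (@Lb.r r1688 (@Lb.r r1563 (@Lb.r r1561 (@Lb.d (nat_lit 4) (nat_lit 81) (nat_lit 586) (@Lb.fm (nat_lit 9) t125)))))))))))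
noncomputable def l16379 : Lb := (@Lb.d (nat_lit 9) (nat_lit 262) (nat_lit 138) (@Lb.g g8 (@Lb.g g9 (@Lb.g g10 (@Lb.g g11 (@Lb.r r1699 (@Lb.r r596 (@Lb.r r682 (@Lb.r r2217 (@Lb.r r2212 (@Lb.d (nat_lit 581) (nat_lit 33) (nat_lit 586) (@Lb.fm (nat_lit 9) t125))))))))))))
noncomputable def l16380 : Lb := (@Lb.d (nat_lit 153) (nat_lit 1) (nat_lit 128) (@Lb.g g8 (@Lb.g g9 (@Lb.g g10 (@Lb.g g11 (@Lb.r r1675 (@Lb.r r36 (@Lb.r r1381 (@Lb.r r2202 (@Lb.r r1156 (@Lb.d (nat_lit 386) (nat_lit 130) (nat_lit 618) (@Lb.fm (nat_lit 9) t594))))))))))))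
noncomputable def l16381 : Lb := (@Lb.r r323 (@Lb.d (nat_lit 2) (nat_lit 34) (nat_lit 0) (@Lb.g g8 (@Lb.g g9 (@Lb.g g10 (@Lb.r r2474 (@Lb.r r2468 (@Lb.r r1307 (@Lb.r r2661 (@Lb.d (nat_lit 656) (nat_lit 88) (nat_lit 325) (@Lb.t (@Lb.fm (nat_lit 9) t662))))))))))))
noncomputable def l16382 : Lb := (@Lb.d (nat_lit 2) (nat_lit 514) (nat_lit 9) (@Lb.g g8 (@Lb.g g9 (@Lb.g g10 (@Lb.g g7 (@Lb.r r386 (@Lb.r r97 (@Lb.r r24 (@Lb.d (nat_lit 330) (nat_lit 9) (nat_lit 521) (@Lb.fp (nat_lit 9) t166))))))))))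
noncomputable def l16383 : Lb := (@Lb.d (nat_lit 8) (nat_lit 258) (nat_lit 130) (@Lb.g g9 (@Lb.g g10 (@Lb.g g11 (@Lb.r r2388 (@Lb.r r1451 (@Lb.r r362 (@Lb.r r281 (@Lb.d (nat_lit 10) (nat_lit 25) (nat_lit 673) (@Lb.t (@Lb.fm (nat_lit 9) t430)))))))))))
noncomputable def l16384 : Lb := (@Lb.d (nat_lit 4) (nat_lit 548) (nat_lit 128) (@Lb.g g8 (@Lb.g g9 (@Lb.g g10 (@Lb.g g11 (@Lb.r r683 (@Lb.r r1642 (@Lb.r r1561 (@Lb.d (nat_lit 586) (nat_lit 105) (nat_lit 273) (@Lb.fm (nat_lit 9) t2714))))))))))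
noncomputable def l16385 : Lb := (@Lb.d (nat_lit 130) (nat_lit 257) (nat_lit 0) (@Lb.g g8 (@Lb.g g9 (@Lb.r r535 (@Lb.r r418 (@Lb.r r401 (@Lb.r r104 (@Lb.d (nat_lit 33) (nat_lit 32) (nat_lit 136) (@Lb.fp (nat_lit 3) t71)))))))))
noncomputable def l16386 : Lb := (@Lb.d (nat_lit 146) (nat_lit 521) (nat_lit 130) (@Lb.g g8 (@Lb.g g9 (@Lb.g g10 (@Lb.g g11 (@Lb.r r683 (@Lb.r r2724 (@Lb.r r134 (@Lb.r r97 (@Lb.d (nat_lit 545) (nat_lit 169) (nat_lit 385) (@Lb.fm (nat_lit 9) t1167)))))))))))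
noncomputable def l16387 : Lb := (@Lb.r r323 (@Lb.d (nat_lit 130) (nat_lit 265) (nat_lit 1) (@Lb.g g8 (@Lb.g g9 (@Lb.g g10 (@Lb.r r1639 (@Lb.r r2193 (@Lb.r r2642 (@Lb.r r72 (@Lb.d (nat_lit 34) (nat_lit 101) (nat_lit 358) (@Lb.t (@Lb.fm (nat_lit 9) t55))))))))))))
noncomputable def l16388 : Lb := (@Lb.d (nat_lit 129) (nat_lit 2) (nat_lit 73) (@Lb.g g8 (@Lb.g g9 (@Lb.g g10 (@Lb.g g11 (@Lb.r r683 (@Lb.r r2410 (@Lb.r r537 (@Lb.r r516 (@Lb.d (nat_lit 130) (nat_lit 90) (nat_lit 144) (@Lb.fm (nat_lit 9) t1692)))))))))))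
noncomputable def l16389 : Lb := (@Lb.d (nat_lit 576) (nat_lit 258) (nat_lit 582) (@Lb.r r1412 (@Lb.r r1382 (@Lb.r r2667 (@Lb.g g7 (@Lb.g g6 (@Lb.g g9 (@Lb.g g4 (@Lb.d (nat_lit 2) (nat_lit 153) (nat_lit 128) (@Lb.fp (nat_lit 9) t2118))))))))))
noncomputable def l16390 : Lb := (@Lb.r r327 (@Lb.d (nat_lit 34) (nat_lit 258) (nat_lit 2) (@Lb.g g8 (@Lb.g g9 (@Lb.g g10 (@Lb.r r683 (@Lb.r r1194 (@Lb.r r1177 (@Lb.r r1156 (@Lb.d (nat_lit 290) (nat_lit 2) (nat_lit 2) (@Lb.t (@Lb.fm (nat_lit 9) t1692))))))))))))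
noncomputable def l16391 : Lb := (@Lb.r r327 (@Lb.d (nat_lit 10) (nat_lit 520) (nat_lit 2) (@Lb.g g8 (@Lb.g g9 (@Lb.g g10 (@Lb.r r683 (@Lb.r r1194 (@Lb.r r1188 (@Lb.r r37 (@Lb.d (nat_lit 4) (nat_lit 72) (nat_lit 2) (@Lb.t (@Lb.fp (nat_lit 9) t1833))))))))))))
noncomputable def l16392 : Lb := (@Lb.d (nat_lit 134) (nat_lit 326) (nat_lit 582) (@Lb.r r2194 (@Lb.r r2385 (@Lb.r r1703 (@Lb.g g7 (@Lb.g g6 (@Lb.g g5 (@Lb.g g8 (@Lb.d (nat_lit 10) (nat_lit 1) (nat_lit 133) (@Lb.fm (nat_lit 9) t1747))))))))))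
noncomputable def l16393 : Lb := (@Lb.d (nat_lit 129) (nat_lit 0) (nat_lit 426) (@Lb.r r1416 (@Lb.r r2631 (@Lb.r r402 (@Lb.r r609 (@Lb.g g11 (@Lb.g g6 (@Lb.g g8 (@Lb.t (@Lb.fp (nat_lit 9) t2639))))))))))
noncomputable def l16394 : Lb := (@Lb.d (nat_lit 661) (nat_lit 328) (nat_lit 133) (@Lb.r r358 (@Lb.r r148 (@Lb.r r2393 (@Lb.g g7 (@Lb.g g6 (@Lb.d (nat_lit 16) (nat_lit 32) (nat_lit 321) (@Lb.fm (nat_lit 3) t152))))))))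
noncomputable def l16395 : Lb := (@Lb.d (nat_lit 128) (nat_lit 33) (nat_lit 132) (@Lb.g g8 (@Lb.g g9 (@Lb.g g10 (@Lb.g g11 (@Lb.r r683 (@Lb.r r1386 (@Lb.r r1305 (@Lb.r r516 (@Lb.d (nat_lit 521) (nat_lit 98) (nat_lit 154) (@Lb.fm (nat_lit 9) t3348)))))))))))
noncomputable def l16396 : Lb := (@Lb.d (nat_lit 9) (nat_lit 257) (nat_lit 130) (@Lb.g g8 (@Lb.g g9 (@Lb.g g10 (@Lb.g g11 (@Lb.r r427 (@Lb.r r297 (@Lb.r r136 (@Lb.r r154 (@Lb.r r132 (@Lb.d (nat_lit 9) (nat_lit 26) (nat_lit 68) (@Lb.fm (nat_lit 9) t119))))))))))))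
noncomputable def l16397 : Lb := (@Lb.d (nat_lit 661) (nat_lit 584) (nat_lit 69) (@Lb.r r358 (@Lb.r r148 (@Lb.r r2393 (@Lb.r r1315 (@Lb.g g7 (@Lb.g g6 (@Lb.g g5 (@Lb.d (nat_lit 16) (nat_lit 0) (nat_lit 65) (@Lb.t (@Lb.fp (nat_lit 9) t850)))))))))))
noncomputable def l16398 : Lb := (@Lb.d (nat_lit 10) (nat_lit 544) (nat_lit 130) (@Lb.g g8 (@Lb.g g10 (@Lb.g g11 (@Lb.r r618 (@Lb.r r149 (@Lb.r r360 (@Lb.r r2567 (@Lb.d (nat_lit 649) (nat_lit 25) (nat_lit 642) (@Lb.t (@Lb.fm (nat_lit 9) t71)))))))))))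
noncomputable def l16399 : Lb := (@Lb.d (nat_lit 9) (nat_lit 8) (nat_lit 130) (@Lb.g g8 (@Lb.g g10 (@Lb.g g11 (@Lb.r r353 (@Lb.r r663 (@Lb.r r356 (@Lb.r r586 (@Lb.d (nat_lit 97) (nat_lit 26) (nat_lit 137) (@Lb.t (@Lb.fm (nat_lit 9) t71)))))))))))
noncomputable def l16400 : Lb := (@Lb.d (nat_lit 40) (nat_lit 6) (nat_lit 0) (@Lb.g g8 (@Lb.g g9 (@Lb.g g10 (@Lb.g g11 (@Lb.r r675 (@Lb.r r164 (@Lb.r r661 (@Lb.r r150 (@Lb.r r36 (@Lb.d (nat_lit 33) (nat_lit 34) (nat_lit 73) (@Lb.fp (nat_lit 9) t355))))))))))))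
noncomputable def l16401 : Lb := (@Lb.d (nat_lit 33) (nat_lit 260) (nat_lit 0) (@Lb.g g8 (@Lb.g g9 (@Lb.g g10 (@Lb.g g11 (@Lb.r r675 (@Lb.r r164 (@Lb.r r661 (@Lb.r r150 (@Lb.r r36 (@Lb.d (nat_lit 33) (nat_lit 34) (nat_lit 130) (@Lb.fp (nat_lit 9) t98))))))))))))
noncomputable def l16402 : Lb := (@Lb.r r24 (@Lb.r r101 (@Lb.r r402 (@Lb.d (nat_lit 5) (nat_lit 257) (nat_lit 66) (@Lb.fm (nat_lit 1) t1831)))))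
noncomputable def l16403 : Lb := (@Lb.d (nat_lit 129) (nat_lit 516) (nat_lit 5) (@Lb.g g8 (@Lb.g g9 (@Lb.g g10 (@Lb.g g11 (@Lb.r r683 (@Lb.r r618 (@Lb.r r1572 (@Lb.r r37 (@Lb.d (nat_lit 297) (nat_lit 97) (nat_lit 673) (@Lb.fp (nat_lit 9) t2964)))))))))))
noncomputable def l16404 : Lb := (@Lb.d (nat_lit 8) (nat_lit 4) (nat_lit 128) (@Lb.g g9 (@Lb.g g10 (@Lb.g g11 (@Lb.r r419 (@Lb.r r98 (@Lb.r r24 (@Lb.r r101 (@Lb.d (nat_lit 21) (nat_lit 6) (nat_lit 68) (@Lb.t (@Lb.fm (nat_lit 9) t3349)))))))))))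
noncomputable def l16405 : Lb := (@Lb.d (nat_lit 385) (nat_lit 266) (nat_lit 292) (@Lb.r r20 (@Lb.r r25 (@Lb.r r148 (@Lb.r r386 (@Lb.g g11 (@Lb.g g6 (@Lb.g g5 (@Lb.g g4 (@Lb.d (nat_lit 1) (nat_lit 1) (nat_lit 129) (@Lb.fp (nat_lit 9) t3350)))))))))))
noncomputable def l16406 : Lb := (@Lb.d (nat_lit 2) (nat_lit 0) (nat_lit 128) (@Lb.r r24 (@Lb.r r101 (@Lb.r r1426 (@Lb.g g7 (@Lb.g g5 (@Lb.g g4 (@Lb.d (nat_lit 5) (nat_lit 1) (nat_lit 68) (@Lb.r r578 (@Lb.t (@Lb.fm (nat_lit 9) t809)))))))))))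
noncomputable def l16407 : Lb := (@Lb.d (nat_lit 2) (nat_lit 512) (nat_lit 129) (@Lb.g g8 (@Lb.g g10 (@Lb.g g11 (@Lb.r r618 (@Lb.r r1643 (@Lb.r r1633 (@Lb.r r24 (@Lb.d (nat_lit 265) (nat_lit 153) (nat_lit 386) (@Lb.t (@Lb.fp (nat_lit 9) t1741)))))))))))
noncomputable def l16408 : Lb := (@Lb.d (nat_lit 390) (nat_lit 641) (nat_lit 357) (@Lb.r r146 (@Lb.r r2385 (@Lb.r r679 (@Lb.g g7 (@Lb.g g6 (@Lb.g g5 (@Lb.g g8 (@Lb.d (nat_lit 10) (nat_lit 24) (nat_lit 64) (@Lb.fm (nat_lit 9) t1678))))))))))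
noncomputable def l16409 : Lb := (@Lb.d (nat_lit 106) (nat_lit 1) (nat_lit 1) (@Lb.g g8 (@Lb.g g9 (@Lb.g g10 (@Lb.g g11 (@Lb.r r343 (@Lb.r r2410 (@Lb.r r2393 (@Lb.r r2388 (@Lb.d (nat_lit 601) (nat_lit 149) (nat_lit 646) (@Lb.fp (nat_lit 9) t737)))))))))))
noncomputable def l16410 : Lb := (@Lb.d (nat_lit 2) (nat_lit 256) (nat_lit 129) (@Lb.g g8 (@Lb.g g10 (@Lb.g g11 (@Lb.r r618 (@Lb.r r1643 (@Lb.r r1633 (@Lb.r r24 (@Lb.d (nat_lit 258) (nat_lit 154) (nat_lit 386) (@Lb.t (@Lb.fp (nat_lit 9) t1741)))))))))))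
noncomputable def l16411 : Lb := (@Lb.g g5 (@Lb.g g6 (@Lb.d (nat_lit 0) (nat_lit 261) (nat_lit 1) (@Lb.fm (nat_lit 3) t45))))
noncomputable def l16412 : Lb := (@Lb.d (nat_lit 9) (nat_lit 521) (nat_lit 129) (@Lb.g g8 (@Lb.g g9 (@Lb.g g10 (@Lb.g g11 (@Lb.r r1579 (@Lb.r r1641 (@Lb.r r2454 (@Lb.r r1608 (@Lb.d (nat_lit 344) (nat_lit 1) (nat_lit 520) (@Lb.fp (nat_lit 9) t1731)))))))))))
noncomputable def l16413 : Lb := (@Lb.d (nat_lit 2) (nat_lit 512) (nat_lit 72) (@Lb.r r402 (@Lb.r r101 (@Lb.g g11 (@Lb.g g6 (@Lb.g g8 (@Lb.d (nat_lit 10) (nat_lit 0) (nat_lit 0) (@Lb.t (@Lb.fp (nat_lit 9) t30)))))))))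
noncomputable def l16414 : Lb := (@Lb.g g5 (@Lb.r r24 (@Lb.r r101 (@Lb.d (nat_lit 0) (nat_lit 666) (nat_lit 266) (@Lb.t (@Lb.fm (nat_lit 3) t1174))))))
noncomputable def l16415 : Lb := (@Lb.d (nat_lit 2) (nat_lit 514) (nat_lit 0) (@Lb.g g8 (@Lb.g g9 (@Lb.g g10 (@Lb.r r1707 (@Lb.r r618 (@Lb.r r25 (@Lb.d (nat_lit 9) (nat_lit 25) (nat_lit 297) (@Lb.t (@Lb.fp (nat_lit 9) t591))))))))))
noncomputable def l16416 : Lb := (@Lb.d (nat_lit 145) (nat_lit 0) (nat_lit 6) (@Lb.r r24 (@Lb.r r101 (@Lb.r r386 (@Lb.r r339 (@Lb.g g7 (@Lb.g g6 (@Lb.g g4 (@Lb.d (nat_lit 0) (nat_lit 0) (nat_lit 8) (@Lb.t (@Lb.fm (nat_lit 9) t686)))))))))))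
noncomputable def l16417 : Lb := (@Lb.r r322 (@Lb.d (nat_lit 2) (nat_lit 33) (nat_lit 64) (@Lb.g g8 (@Lb.g g9 (@Lb.g g7 (@Lb.r r418 (@Lb.r r296 (@Lb.r r409 (@Lb.d (nat_lit 84) (nat_lit 37) (nat_lit 9) (@Lb.t (@Lb.fp (nat_lit 9) t792)))))))))))
noncomputable def l16418 : Lb := (@Lb.d (nat_lit 0) (nat_lit 512) (nat_lit 1) (@Lb.r r24 (@Lb.r r101 (@Lb.g g11 (@Lb.g g6 (@Lb.g g4 (@Lb.d (nat_lit 0) (nat_lit 4) (nat_lit 1) (@Lb.t (@Lb.fm (nat_lit 9) t1219)))))))))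
noncomputable def l16419 : Lb := (@Lb.d (nat_lit 546) (nat_lit 266) (nat_lit 0) (@Lb.g g8 (@Lb.g g9 (@Lb.r r2403 (@Lb.r r594 (@Lb.r r2449 (@Lb.d (nat_lit 9) (nat_lit 89) (nat_lit 297) (@Lb.fm (nat_lit 3) t3351))))))))
noncomputable def l16420 : Lb := (@Lb.r r82 (@Lb.r r275 (@Lb.d (nat_lit 130) (nat_lit 262) (nat_lit 0) (@Lb.g g8 (@Lb.g g9 (@Lb.r r599 (@Lb.r r98 (@Lb.r r264 (@Lb.d (nat_lit 130) (nat_lit 138) (nat_lit 6) (@Lb.fm (nat_lit 3) t789))))))))))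
noncomputable def l16421 : Lb := (@Lb.d (nat_lit 0) (nat_lit 514) (nat_lit 0) (@Lb.g g9 (@Lb.r r2339 (@Lb.r r297 (@Lb.r r1096 (@Lb.r r2150 (@Lb.d (nat_lit 0) (nat_lit 154) (nat_lit 148) (@Lb.t (@Lb.fp (nat_lit 3) t1040)))))))))
noncomputable def l16422 : Lb := (@Lb.r r275 (@Lb.d (nat_lit 8) (nat_lit 258) (nat_lit 2) (@Lb.g g9 (@Lb.g g10 (@Lb.r r603 (@Lb.r r2146 (@Lb.r r1048 (@Lb.r r2149 (@Lb.d (nat_lit 538) (nat_lit 9) (nat_lit 34) (@Lb.fp (nat_lit 3) t1001))))))))))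
noncomputable def l16423 : Lb := (@Lb.d (nat_lit 1) (nat_lit 266) (nat_lit 129) (@Lb.g g8 (@Lb.g g9 (@Lb.g g10 (@Lb.g g11 (@Lb.r r1691 (@Lb.r r665 (@Lb.r r146 (@Lb.r r2628 (@Lb.d (nat_lit 657) (nat_lit 10) (nat_lit 409) (@Lb.fp (nat_lit 9) t2709)))))))))))
noncomputable def l16424 : Lb := (@Lb.d (nat_lit 2) (nat_lit 258) (nat_lit 130) (@Lb.g g8 (@Lb.g g9 (@Lb.g g10 (@Lb.g g11 (@Lb.r r2666 (@Lb.r r579 (@Lb.r r292 (@Lb.r r405 (@Lb.r r2084 (@Lb.d (nat_lit 610) (nat_lit 154) (nat_lit 420) (@Lb.fm (nat_lit 9) t1199))))))))))))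
noncomputable def l16425 : Lb := (@Lb.d (nat_lit 2) (nat_lit 9) (nat_lit 1) (@Lb.g g8 (@Lb.g g9 (@Lb.g g10 (@Lb.r r683 (@Lb.r r2666 (@Lb.r r2585 (@Lb.d (nat_lit 329) (nat_lit 169) (nat_lit 33) (@Lb.t (@Lb.fp (nat_lit 9) t2001))))))))))
noncomputable def l16426 : Lb := (@Lb.d (nat_lit 2) (nat_lit 264) (nat_lit 2) (@Lb.g g8 (@Lb.g g10 (@Lb.r r2385 (@Lb.r r675 (@Lb.r r2658 (@Lb.d (nat_lit 322) (nat_lit 10) (nat_lit 665) (@Lb.fp (nat_lit 3) t3352))))))))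
noncomputable def l16427 : Lb := (@Lb.g g5 (@Lb.r r24 (@Lb.r r101 (@Lb.d (nat_lit 0) (nat_lit 154) (nat_lit 394) (@Lb.t (@Lb.fm (nat_lit 3) t1174))))))
noncomputable def l16428 : Lb := (@Lb.d (nat_lit 129) (nat_lit 2) (nat_lit 130) (@Lb.g g8 (@Lb.g g9 (@Lb.g g10 (@Lb.g g11 (@Lb.r r1706 (@Lb.r r1411 (@Lb.r r552 (@Lb.r r1641 (@Lb.r r36 (@Lb.d (nat_lit 617) (nat_lit 73) (nat_lit 649) (@Lb.fm (nat_lit 9) t3353))))))))))))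
noncomputable def l16429 : Lb := (@Lb.d (nat_lit 105) (nat_lit 513) (nat_lit 1) (@Lb.g g8 (@Lb.g g9 (@Lb.g g10 (@Lb.g g11 (@Lb.r r343 (@Lb.r r2410 (@Lb.r r2393 (@Lb.r r2388 (@Lb.d (nat_lit 596) (nat_lit 148) (nat_lit 646) (@Lb.fp (nat_lit 9) t2033)))))))))))
noncomputable def l16430 : Lb := (@Lb.d (nat_lit 0) (nat_lit 264) (nat_lit 2) (@Lb.g g10 (@Lb.r r1427 (@Lb.r r101 (@Lb.d (nat_lit 256) (nat_lit 74) (nat_lit 1) (@Lb.t (@Lb.fm (nat_lit 3) t240)))))))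
noncomputable def l16431 : Lb := (@Lb.d (nat_lit 2) (nat_lit 258) (nat_lit 130) (@Lb.g g8 (@Lb.g g9 (@Lb.g g10 (@Lb.g g11 (@Lb.r r2459 (@Lb.r r297 (@Lb.r r1384 (@Lb.r r2630 (@Lb.d (nat_lit 10) (nat_lit 66) (nat_lit 137) (@Lb.fp (nat_lit 9) t91)))))))))))
noncomputable def l16432 : Lb := (@Lb.d (nat_lit 2) (nat_lit 4) (nat_lit 128) (@Lb.g g8 (@Lb.g g9 (@Lb.g g10 (@Lb.g g11 (@Lb.r r2331 (@Lb.r r361 (@Lb.r r1448 (@Lb.r r1418 (@Lb.d (nat_lit 153) (nat_lit 66) (nat_lit 290) (@Lb.fm (nat_lit 9) t248)))))))))))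
noncomputable def l16433 : Lb := (@Lb.d (nat_lit 665) (nat_lit 677) (nat_lit 346) (@Lb.r r2660 (@Lb.r r1637 (@Lb.r r346 (@Lb.g g7 (@Lb.g g4 (@Lb.d (nat_lit 21) (nat_lit 0) (nat_lit 64) (@Lb.fp (nat_lit 3) t322))))))))
noncomputable def l16434 : Lb := (@Lb.d (nat_lit 0) (nat_lit 608) (nat_lit 129) (@Lb.r r609 (@Lb.r r363 (@Lb.r r356 (@Lb.g g6 (@Lb.d (nat_lit 32) (nat_lit 4) (nat_lit 2) (@Lb.t (@Lb.fp (nat_lit 3) t2569))))))))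
noncomputable def l16435 : Lb := (@Lb.d (nat_lit 0) (nat_lit 165) (nat_lit 64) (@Lb.g g5 (@Lb.g g10 (@Lb.g g11 (@Lb.r r531 (@Lb.r r386 (@Lb.d (nat_lit 0) (nat_lit 100) (nat_lit 74) (@Lb.t (@Lb.fp (nat_lit 9) t308)))))))))
noncomputable def l16436 : Lb := (@Lb.r r323 (@Lb.d (nat_lit 130) (nat_lit 666) (nat_lit 0) (@Lb.g g8 (@Lb.g g9 (@Lb.g g10 (@Lb.r r2663 (@Lb.r r1442 (@Lb.r r72 (@Lb.d (nat_lit 646) (nat_lit 69) (nat_lit 425) (@Lb.t (@Lb.fp (nat_lit 9) t1806)))))))))))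
noncomputable def l16437 : Lb := (@Lb.d (nat_lit 0) (nat_lit 2) (nat_lit 0) (@Lb.g g9 (@Lb.r r2595 (@Lb.r r2402 (@Lb.r r2657 (@Lb.d (nat_lit 0) (nat_lit 165) (nat_lit 265) (@Lb.t (@Lb.fp (nat_lit 3) t3354))))))))
noncomputable def l16438 : Lb := (@Lb.r r1371 (@Lb.r r81 (@Lb.r r162 (@Lb.r r145 (@Lb.r r1416 (@Lb.d (nat_lit 282) (nat_lit 0) (nat_lit 16) (@Lb.fp (nat_lit 1) t3355)))))))
noncomputable def l16439 : Lb := (@Lb.g g4 (@Lb.r r273 (@Lb.r r551 (@Lb.r r340 (@Lb.r r170 (@Lb.r r153 (@Lb.d (nat_lit 538) (nat_lit 512) (nat_lit 16) (@Lb.t (@Lb.fm (nat_lit 3) t1607)))))))))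
noncomputable def l16440 : Lb := (@Lb.d (nat_lit 2) (nat_lit 512) (nat_lit 0) (@Lb.g g8 (@Lb.r r273 (@Lb.r r555 (@Lb.r r680 (@Lb.r r170 (@Lb.r r153 (@Lb.d (nat_lit 538) (nat_lit 0) (nat_lit 154) (@Lb.t (@Lb.fm (nat_lit 3) t1607))))))))))
noncomputable def l16441 : Lb := (@Lb.g g10 (@Lb.r r609 (@Lb.r r363 (@Lb.r r356 (@Lb.r r154 (@Lb.d (nat_lit 256) (nat_lit 522) (nat_lit 18) (@Lb.t (@Lb.fp (nat_lit 3) t743))))))))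
noncomputable def l16442 : Lb := (@Lb.r r275 (@Lb.d (nat_lit 9) (nat_lit 9) (nat_lit 1) (@Lb.g g8 (@Lb.g g9 (@Lb.g g10 (@Lb.r r1706 (@Lb.r r1700 (@Lb.r r1575 (@Lb.r r2085 (@Lb.d (nat_lit 521) (nat_lit 144) (nat_lit 138) (@Lb.t (@Lb.fp (nat_lit 9) t270))))))))))))
noncomputable def l16443 : Lb := (@Lb.d (nat_lit 9) (nat_lit 264) (nat_lit 161) (@Lb.g g8 (@Lb.g g9 (@Lb.g g6 (@Lb.g g11 (@Lb.r r612 (@Lb.r r2311 (@Lb.r r97 (@Lb.r r1540 (@Lb.d (nat_lit 1) (nat_lit 105) (nat_lit 640) (@Lb.fp (nat_lit 9) t1038)))))))))))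
noncomputable def l16444 : Lb := (@Lb.d (nat_lit 9) (nat_lit 8) (nat_lit 161) (@Lb.g g8 (@Lb.g g9 (@Lb.g g6 (@Lb.g g11 (@Lb.r r612 (@Lb.r r2311 (@Lb.r r97 (@Lb.r r1540 (@Lb.d (nat_lit 2) (nat_lit 105) (nat_lit 640) (@Lb.fp (nat_lit 9) t1038)))))))))))
noncomputable def l16445 : Lb := (@Lb.d (nat_lit 9) (nat_lit 89) (nat_lit 294) (@Lb.r r1362 (@Lb.r r2213 (@Lb.r r2691 (@Lb.g g7 (@Lb.g g6 (@Lb.g g8 (@Lb.d (nat_lit 10) (nat_lit 0) (nat_lit 134) (@Lb.t (@Lb.fm (nat_lit 9) t3356))))))))))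
noncomputable def l16446 : Lb := (@Lb.d (nat_lit 154) (nat_lit 545) (nat_lit 132) (@Lb.g g8 (@Lb.g g9 (@Lb.g g10 (@Lb.g g11 (@Lb.r r1698 (@Lb.r r1415 (@Lb.r r548 (@Lb.r r149 (@Lb.r r1060 (@Lb.d (nat_lit 553) (nat_lit 152) (nat_lit 41) (@Lb.fm (nat_lit 9) t3357))))))))))))
noncomputable def l16447 : Lb := (@Lb.g g4 (@Lb.r r154 (@Lb.r r660 (@Lb.r r407 (@Lb.r r537 (@Lb.d (nat_lit 101) (nat_lit 128) (nat_lit 266) (@Lb.t (@Lb.fp (nat_lit 3) t2509))))))))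
noncomputable def l16448 : Lb := (@Lb.d (nat_lit 154) (nat_lit 601) (nat_lit 360) (@Lb.r r1362 (@Lb.r r2213 (@Lb.r r2691 (@Lb.g g7 (@Lb.g g6 (@Lb.g g8 (@Lb.d (nat_lit 0) (nat_lit 0) (nat_lit 134) (@Lb.t (@Lb.fm (nat_lit 9) t3358))))))))))
noncomputable def l16449 : Lb := (@Lb.d (nat_lit 9) (nat_lit 33) (nat_lit 66) (@Lb.g g8 (@Lb.g g9 (@Lb.g g10 (@Lb.g g11 (@Lb.r r387 (@Lb.r r164 (@Lb.r r2438 (@Lb.r r1553 (@Lb.d (nat_lit 337) (nat_lit 100) (nat_lit 400) (@Lb.fm (nat_lit 9) t1377)))))))))))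
noncomputable def l16450 : Lb := (@Lb.r r21 (@Lb.r r263 (@Lb.d (nat_lit 34) (nat_lit 0) (nat_lit 1) (@Lb.g g8 (@Lb.g g10 (@Lb.r r395 (@Lb.r r132 (@Lb.r r134 (@Lb.r r25 (@Lb.d (nat_lit 17) (nat_lit 0) (nat_lit 0) (@Lb.fp (nat_lit 3) t321)))))))))))
noncomputable def l16451 : Lb := (@Lb.d (nat_lit 4) (nat_lit 34) (nat_lit 130) (@Lb.g g8 (@Lb.g g9 (@Lb.g g10 (@Lb.g g11 (@Lb.r r683 (@Lb.r r1642 (@Lb.r r1561 (@Lb.d (nat_lit 585) (nat_lit 98) (nat_lit 274) (@Lb.fm (nat_lit 9) t919))))))))))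
noncomputable def l16452 : Lb := (@Lb.d (nat_lit 10) (nat_lit 8) (nat_lit 132) (@Lb.g g8 (@Lb.g g9 (@Lb.g g10 (@Lb.g g7 (@Lb.r r1706 (@Lb.r r2457 (@Lb.r r2436 (@Lb.d (nat_lit 617) (nat_lit 97) (nat_lit 98) (@Lb.fp (nat_lit 9) t3359))))))))))
noncomputable def l16453 : Lb := (@Lb.d (nat_lit 280) (nat_lit 265) (nat_lit 33) (@Lb.r r24 (@Lb.r r101 (@Lb.g g11 (@Lb.g g6 (@Lb.d (nat_lit 0) (nat_lit 4) (nat_lit 1) (@Lb.fp (nat_lit 3) t2129)))))))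
noncomputable def l16454 : Lb := (@Lb.d (nat_lit 0) (nat_lit 264) (nat_lit 130) (@Lb.g g9 (@Lb.g g10 (@Lb.g g11 (@Lb.r r387 (@Lb.r r40 (@Lb.r r153 (@Lb.d (nat_lit 37) (nat_lit 4) (nat_lit 70) (@Lb.t (@Lb.fp (nat_lit 9) t3349))))))))))
noncomputable def l16455 : Lb := (@Lb.r r323 (@Lb.d (nat_lit 137) (nat_lit 264) (nat_lit 17) (@Lb.g g8 (@Lb.g g9 (@Lb.g g6 (@Lb.r r2455 (@Lb.r r97 (@Lb.r r1556 (@Lb.d (nat_lit 390) (nat_lit 105) (nat_lit 640) (@Lb.t (@Lb.fm (nat_lit 9) t1038)))))))))))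
noncomputable def l16456 : Lb := (@Lb.d (nat_lit 0) (nat_lit 8) (nat_lit 66) (@Lb.g g9 (@Lb.g g10 (@Lb.g g7 (@Lb.r r2472 (@Lb.r r2154 (@Lb.r r601 (@Lb.d (nat_lit 154) (nat_lit 85) (nat_lit 100) (@Lb.t (@Lb.fm (nat_lit 9) t3360))))))))))
noncomputable def l16457 : Lb := (@Lb.d (nat_lit 0) (nat_lit 9) (nat_lit 65) (@Lb.g g9 (@Lb.g g10 (@Lb.g g11 (@Lb.r r1443 (@Lb.r r386 (@Lb.r r97 (@Lb.r r36 (@Lb.d (nat_lit 0) (nat_lit 21) (nat_lit 392) (@Lb.t (@Lb.fm (nat_lit 9) t1285)))))))))))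
noncomputable def l16458 : Lb := (@Lb.d (nat_lit 389) (nat_lit 70) (nat_lit 26) (@Lb.r r2325 (@Lb.r r598 (@Lb.r r683 (@Lb.g g7 (@Lb.g g6 (@Lb.g g5 (@Lb.g g4 (@Lb.d (nat_lit 8) (nat_lit 17) (nat_lit 134) (@Lb.fm (nat_lit 9) t309))))))))))
noncomputable def l16459 : Lb := (@Lb.d (nat_lit 6) (nat_lit 552) (nat_lit 1) (@Lb.g g8 (@Lb.g g9 (@Lb.g g10 (@Lb.r r170 (@Lb.r r1444 (@Lb.r r2715 (@Lb.r r357 (@Lb.d (nat_lit 85) (nat_lit 104) (nat_lit 134) (@Lb.t (@Lb.fp (nat_lit 9) t428)))))))))))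
noncomputable def l16460 : Lb := (@Lb.r r82 (@Lb.d (nat_lit 34) (nat_lit 33) (nat_lit 64) (@Lb.g g8 (@Lb.g g9 (@Lb.g g11 (@Lb.r r1571 (@Lb.r r582 (@Lb.r r1445 (@Lb.r r408 (@Lb.d (nat_lit 341) (nat_lit 18) (nat_lit 356) (@Lb.t (@Lb.fp (nat_lit 9) t3361))))))))))))
noncomputable def l16461 : Lb := (@Lb.d (nat_lit 2) (nat_lit 521) (nat_lit 72) (@Lb.g g8 (@Lb.g g9 (@Lb.g g10 (@Lb.g g11 (@Lb.r r2691 (@Lb.r r297 (@Lb.r r648 (@Lb.r r666 (@Lb.r r1156 (@Lb.d (nat_lit 640) (nat_lit 168) (nat_lit 73) (@Lb.fp (nat_lit 9) t2707))))))))))))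
noncomputable def l16462 : Lb := (@Lb.d (nat_lit 2) (nat_lit 265) (nat_lit 72) (@Lb.g g8 (@Lb.g g9 (@Lb.g g10 (@Lb.g g11 (@Lb.r r2691 (@Lb.r r297 (@Lb.r r648 (@Lb.r r666 (@Lb.r r1156 (@Lb.d (nat_lit 645) (nat_lit 40) (nat_lit 73) (@Lb.fp (nat_lit 9) t3362))))))))))))

end Pool.Agent.MP_61a8e3_al.G4.K
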