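import Pool.Agent.MP_61a8e3_al.G4.KR
import Pool.Agent.MP_61a8e3_al.G4.KT0
import Pool.Agent.MP_61a8e3_al.G4.KT1

/-! Part K: labels, part 3. -/

set_option autoImplicit false
set_option maxRecDepth 100000
set_option linter.all false

namespace Pool.Agent.MP_61a8e3_al.G4.K

noncomputable def l16463 : Lb := (@Lb.r r21 (@Lb.d (nat_lit 32) (nat_lit 512) (nat_lit 1) (@Lb.g g8 (@Lb.g g10 (@Lb.r r1691 (@Lb.r r1381 (@Lb.r r2202 (@Lb.r r2372 (@Lb.d (nat_lit 553) (nat_lit 101) (nat_lit 330) (@Lb.fp (nat_lit 3) t428))))))))))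
noncomputable def l16464 : Lb := (@Lb.r r82 (@Lb.d (nat_lit 34) (nat_lit 289) (nat_lit 64) (@Lb.g g8 (@Lb.g g9 (@Lb.g g11 (@Lb.r r1571 (@Lb.r r582 (@Lb.r r1445 (@Lb.r r408 (@Lb.d (nat_lit 344) (nat_lit 16) (nat_lit 356) (@Lb.t (@Lb.fp (nat_lit 9) t509))))))))))))
noncomputable def l16465 : Lb := (@Lb.d (nat_lit 2) (nat_lit 9) (nat_lit 72) (@Lb.g g8 (@Lb.g g9 (@Lb.g g10 (@Lb.g g11 (@Lb.r r1559 (@Lb.r r1434 (@Lb.r r292 (@Lb.r r405 (@Lb.r r2084 (@Lb.d (nat_lit 610) (nat_lit 104) (nat_lit 345) (@Lb.fp (nat_lit 9) t2301))))))))))))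
noncomputable def l16466 : Lb := (@Lb.r r21 (@Lb.d (nat_lit 6) (nat_lit 0) (nat_lit 0) (@Lb.g g8 (@Lb.r r25 (@Lb.d (nat_lit 10) (nat_lit 0) (nat_lit 64) (@Lb.t (@Lb.fp (nat_lit 3) t2)))))))
noncomputable def l16467 : Lb := (@Lb.r r20 (@Lb.d (nat_lit 32) (nat_lit 96) (nat_lit 2) (@Lb.g g5 (@Lb.g g6 (@Lb.r r515 (@Lb.r r392 (@Lb.r r410 (@Lb.d (nat_lit 165) (nat_lit 144) (nat_lit 324) (@Lb.fp (nat_lit 3) t242)))))))))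
noncomputable def l16468 : Lb := (@Lb.d (nat_lit 36) (nat_lit 2) (nat_lit 0) (@Lb.g g8 (@Lb.g g9 (@Lb.r r515 (@Lb.r r1385 (@Lb.r r150 (@Lb.r r612 (@Lb.d (nat_lit 153) (nat_lit 137) (nat_lit 549) (@Lb.fp (nat_lit 3) t242)))))))))
noncomputable def l16469 : Lb := (@Lb.d (nat_lit 129) (nat_lit 18) (nat_lit 2) (@Lb.g g8 (@Lb.g g9 (@Lb.g g10 (@Lb.g g11 (@Lb.r r610 (@Lb.r r552 (@Lb.r r2635 (@Lb.r r2337 (@Lb.r r1060 (@Lb.d (nat_lit 617) (nat_lit 40) (nat_lit 136) (@Lb.fm (nat_lit 9) t5))))))))))))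
noncomputable def l16470 : Lb := (@Lb.d (nat_lit 130) (nat_lit 266) (nat_lit 0) (@Lb.g g8 (@Lb.g g9 (@Lb.r r599 (@Lb.r r594 (@Lb.r r417 (@Lb.r r104 (@Lb.d (nat_lit 356) (nat_lit 66) (nat_lit 521) (@Lb.fp (nat_lit 3) t1449)))))))))
noncomputable def l16471 : Lb := (@Lb.r r322 (@Lb.d (nat_lit 34) (nat_lit 514) (nat_lit 576) (@Lb.g g8 (@Lb.g g9 (@Lb.g g7 (@Lb.r r361 (@Lb.r r150 (@Lb.r r84 (@Lb.d (nat_lit 17) (nat_lit 86) (nat_lit 585) (@Lb.t (@Lb.fp (nat_lit 9) t1115)))))))))))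
noncomputable def l16472 : Lb := (@Lb.d (nat_lit 2) (nat_lit 514) (nat_lit 4) (@Lb.g g8 (@Lb.g g9 (@Lb.g g10 (@Lb.g g11 (@Lb.r r1367 (@Lb.r r1366 (@Lb.r r97 (@Lb.r r24 (@Lb.d (nat_lit 154) (nat_lit 9) (nat_lit 418) (@Lb.fp (nat_lit 9) t277)))))))))))
noncomputable def l16473 : Lb := (@Lb.d (nat_lit 9) (nat_lit 518) (nat_lit 128) (@Lb.g g8 (@Lb.g g9 (@Lb.g g10 (@Lb.g g11 (@Lb.r r1699 (@Lb.r r164 (@Lb.r r614 (@Lb.r r2149 (@Lb.r r1156 (@Lb.d (nat_lit 384) (nat_lit 130) (nat_lit 586) (@Lb.fp (nat_lit 9) t144))))))))))))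
noncomputable def l16474 : Lb := (@Lb.r r82 (@Lb.d (nat_lit 34) (nat_lit 258) (nat_lit 128) (@Lb.g g8 (@Lb.g g9 (@Lb.g g11 (@Lb.r r1571 (@Lb.r r582 (@Lb.r r1177 (@Lb.r r408 (@Lb.d (nat_lit 336) (nat_lit 154) (nat_lit 586) (@Lb.t (@Lb.fm (nat_lit 9) t144))))))))))))
noncomputable def l16475 : Lb := (@Lb.d (nat_lit 0) (nat_lit 264) (nat_lit 73) (@Lb.g g10 (@Lb.g g11 (@Lb.r r611 (@Lb.r r2393 (@Lb.r r2662 (@Lb.r r24 (@Lb.d (nat_lit 162) (nat_lit 0) (nat_lit 42) (@Lb.fm (nat_lit 3) t1261)))))))))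
noncomputable def l16476 : Lb := (@Lb.d (nat_lit 0) (nat_lit 512) (nat_lit 74) (@Lb.g g10 (@Lb.g g11 (@Lb.r r387 (@Lb.r r642 (@Lb.d (nat_lit 0) (nat_lit 0) (nat_lit 8) (@Lb.fp (nat_lit 3) t2)))))))
noncomputable def l16477 : Lb := (@Lb.d (nat_lit 2) (nat_lit 514) (nat_lit 130) (@Lb.g g8 (@Lb.g g9 (@Lb.g g10 (@Lb.g g11 (@Lb.r r2666 (@Lb.r r579 (@Lb.r r97 (@Lb.r r24 (@Lb.d (nat_lit 146) (nat_lit 73) (nat_lit 409) (@Lb.fm (nat_lit 9) t741)))))))))))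
noncomputable def l16478 : Lb := (@Lb.d (nat_lit 165) (nat_lit 88) (nat_lit 592) (@Lb.r r2584 (@Lb.r r97 (@Lb.r r2667 (@Lb.g g7 (@Lb.g g10 (@Lb.g g5 (@Lb.g g4 (@Lb.d (nat_lit 0) (nat_lit 1) (nat_lit 81) (@Lb.fp (nat_lit 9) t3363))))))))))
noncomputable def l16479 : Lb := (@Lb.d (nat_lit 544) (nat_lit 152) (nat_lit 336) (@Lb.r r2308 (@Lb.r r97 (@Lb.r r1291 (@Lb.r r404 (@Lb.g g7 (@Lb.g g10 (@Lb.g g5 (@Lb.g g4 (@Lb.d (nat_lit 6) (nat_lit 2) (nat_lit 81) (@Lb.fp (nat_lit 9) t1723)))))))))))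
noncomputable def l16480 : Lb := (@Lb.d (nat_lit 129) (nat_lit 514) (nat_lit 66) (@Lb.g g8 (@Lb.g g9 (@Lb.g g10 (@Lb.g g11 (@Lb.r r162 (@Lb.r r552 (@Lb.r r1689 (@Lb.r r1563 (@Lb.r r516 (@Lb.d (nat_lit 522) (nat_lit 9) (nat_lit 105) (@Lb.fm (nat_lit 9) t3364))))))))))))
noncomputable def l16481 : Lb := (@Lb.r r82 (@Lb.r r275 (@Lb.d (nat_lit 34) (nat_lit 264) (nat_lit 0) (@Lb.g g8 (@Lb.g g9 (@Lb.r r427 (@Lb.r r582 (@Lb.r r408 (@Lb.d (nat_lit 145) (nat_lit 89) (nat_lit 154) (@Lb.fp (nat_lit 3) t1640))))))))))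
noncomputable def l16482 : Lb := (@Lb.d (nat_lit 0) (nat_lit 256) (nat_lit 4) (@Lb.g g9 (@Lb.g g10 (@Lb.g g11 (@Lb.r r1363 (@Lb.r r1362 (@Lb.r r101 (@Lb.r r24 (@Lb.d (nat_lit 130) (nat_lit 0) (nat_lit 361) (@Lb.t (@Lb.fm (nat_lit 9) t335)))))))))))
noncomputable def l16483 : Lb := (@Lb.d (nat_lit 0) (nat_lit 288) (nat_lit 136) (@Lb.g g7 (@Lb.r r677 (@Lb.r r2726 (@Lb.r r1703 (@Lb.r r24 (@Lb.d (nat_lit 674) (nat_lit 0) (nat_lit 345) (@Lb.t (@Lb.fm (nat_lit 3) t1261)))))))))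
noncomputable def l16484 : Lb := (@Lb.r r323 (@Lb.d (nat_lit 2) (nat_lit 516) (nat_lit 22) (@Lb.g g8 (@Lb.g g10 (@Lb.r r1689 (@Lb.r r2459 (@Lb.r r24 (@Lb.d (nat_lit 105) (nat_lit 82) (nat_lit 594) (@Lb.fp (nat_lit 3) t521)))))))))
noncomputable def l16485 : Lb := (@Lb.d (nat_lit 0) (nat_lit 256) (nat_lit 2) (@Lb.g g9 (@Lb.g g10 (@Lb.g g7 (@Lb.r r98 (@Lb.d (nat_lit 0) (nat_lit 85) (nat_lit 521) (@Lb.t (@Lb.fp (nat_lit 9) t387))))))))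
noncomputable def l16486 : Lb := (@Lb.d (nat_lit 0) (nat_lit 64) (nat_lit 512) (@Lb.r r2403 (@Lb.r r594 (@Lb.g g11 (@Lb.g g6 (@Lb.fp (nat_lit 3) t1901))))))
noncomputable def l16487 : Lb := (@Lb.g g7 (@Lb.r r402 (@Lb.d (nat_lit 0) (nat_lit 581) (nat_lit 513) (@Lb.t (@Lb.fp (nat_lit 3) t387)))))
noncomputable def l16488 : Lb := (@Lb.d (nat_lit 520) (nat_lit 600) (nat_lit 338) (@Lb.r r1109 (@Lb.r r1444 (@Lb.r r2178 (@Lb.r r1435 (@Lb.g g7 (@Lb.g g4 (@Lb.d (nat_lit 1) (nat_lit 0) (nat_lit 64) (@Lb.fp (nat_lit 3) t3365)))))))))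
noncomputable def l16489 : Lb := (@Lb.d (nat_lit 362) (nat_lit 276) (nat_lit 106) (@Lb.r r356 (@Lb.r r2178 (@Lb.r r1307 (@Lb.g g9 (@Lb.g g4 (@Lb.d (nat_lit 65) (nat_lit 70) (nat_lit 0) (@Lb.fm (nat_lit 3) t1210))))))))
noncomputable def l16490 : Lb := (@Lb.d (nat_lit 137) (nat_lit 528) (nat_lit 0) (@Lb.r r101 (@Lb.r r402 (@Lb.g g11 (@Lb.g g6 (@Lb.d (nat_lit 0) (nat_lit 0) (nat_lit 128) (@Lb.fp (nat_lit 3) t546)))))))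
noncomputable def l16491 : Lb := (@Lb.d (nat_lit 512) (nat_lit 512) (nat_lit 18) (@Lb.r r24 (@Lb.r r101 (@Lb.r r2659 (@Lb.r r322 (@Lb.g g10 (@Lb.r r387 (@Lb.t (@Lb.fm (nat_lit 3) t868)))))))))
noncomputable def l16492 : Lb := (@Lb.d (nat_lit 0) (nat_lit 256) (nat_lit 138) (@Lb.g g10 (@Lb.g g11 (@Lb.r r2434 (@Lb.d (nat_lit 0) (nat_lit 0) (nat_lit 530) (@Lb.fp (nat_lit 3) t2))))))
noncomputable def l16493 : Lb := (@Lb.d (nat_lit 0) (nat_lit 512) (nat_lit 38) (@Lb.g g6 (@Lb.d (nat_lit 0) (nat_lit 0) (nat_lit 69) (@Lb.t (@Lb.fm (nat_lit 3) t2)))))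
noncomputable def l16494 : Lb := (@Lb.d (nat_lit 2) (nat_lit 6) (nat_lit 1) (@Lb.g g8 (@Lb.g g9 (@Lb.g g10 (@Lb.r r675 (@Lb.r r1681 (@Lb.r r2404 (@Lb.r r1178 (@Lb.d (nat_lit 681) (nat_lit 137) (nat_lit 84) (@Lb.t (@Lb.fm (nat_lit 9) t602)))))))))))
noncomputable def l16495 : Lb := (@Lb.r r21 (@Lb.d (nat_lit 1) (nat_lit 0) (nat_lit 2) (@Lb.g g8 (@Lb.g g10 (@Lb.g g7 (@Lb.r r386 (@Lb.r r1429 (@Lb.r r2632 (@Lb.d (nat_lit 657) (nat_lit 5) (nat_lit 421) (@Lb.t (@Lb.fp (nat_lit 9) t1403)))))))))))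
noncomputable def l16496 : Lb := (@Lb.d (nat_lit 0) (nat_lit 289) (nat_lit 0) (@Lb.g g8 (@Lb.g g9 (@Lb.r r292 (@Lb.r r1371 (@Lb.r r2178 (@Lb.r r2661 (@Lb.d (nat_lit 170) (nat_lit 90) (nat_lit 325) (@Lb.fm (nat_lit 3) t64)))))))))
noncomputable def l16497 : Lb := (@Lb.d (nat_lit 0) (nat_lit 290) (nat_lit 0) (@Lb.g g8 (@Lb.g g9 (@Lb.r r356 (@Lb.r r1307 (@Lb.r r2178 (@Lb.r r1573 (@Lb.d (nat_lit 666) (nat_lit 146) (nat_lit 584) (@Lb.fm (nat_lit 3) t229)))))))))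
noncomputable def l16498 : Lb := (@Lb.d (nat_lit 0) (nat_lit 516) (nat_lit 74) (@Lb.g g8 (@Lb.g g9 (@Lb.g g10 (@Lb.g g11 (@Lb.r r619 (@Lb.r r1610 (@Lb.r r660 (@Lb.r r425 (@Lb.r r2084 (@Lb.d (nat_lit 277) (nat_lit 104) (nat_lit 617) (@Lb.fp (nat_lit 9) t658))))))))))))
noncomputable def l16499 : Lb := (@Lb.d (nat_lit 0) (nat_lit 546) (nat_lit 0) (@Lb.g g8 (@Lb.g g9 (@Lb.r r356 (@Lb.r r1307 (@Lb.r r2178 (@Lb.r r1573 (@Lb.d (nat_lit 666) (nat_lit 153) (nat_lit 586) (@Lb.fm (nat_lit 3) t229)))))))))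
noncomputable def l16500 : Lb := (@Lb.d (nat_lit 2) (nat_lit 288) (nat_lit 128) (@Lb.g g8 (@Lb.g g11 (@Lb.r r2712 (@Lb.r r293 (@Lb.r r2587 (@Lb.r r2178 (@Lb.d (nat_lit 106) (nat_lit 41) (nat_lit 278) (@Lb.fm (nat_lit 3) t185)))))))))
noncomputable def l16501 : Lb := (@Lb.d (nat_lit 2) (nat_lit 514) (nat_lit 2) (@Lb.g g8 (@Lb.g g9 (@Lb.g g10 (@Lb.r r683 (@Lb.r r2666 (@Lb.r r2585 (@Lb.r r2564 (@Lb.d (nat_lit 644) (nat_lit 8) (nat_lit 417) (@Lb.t (@Lb.fp (nat_lit 9) t820)))))))))))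
noncomputable def l16502 : Lb := (@Lb.d (nat_lit 4) (nat_lit 0) (nat_lit 130) (@Lb.g g8 (@Lb.g g9 (@Lb.g g10 (@Lb.g g11 (@Lb.r r2411 (@Lb.r r386 (@Lb.r r104 (@Lb.r r25 (@Lb.d (nat_lit 514) (nat_lit 10) (nat_lit 136) (@Lb.fp (nat_lit 9) t61)))))))))))
noncomputable def l16503 : Lb := (@Lb.d (nat_lit 0) (nat_lit 512) (nat_lit 137) (@Lb.g g9 (@Lb.g g10 (@Lb.g g11 (@Lb.r r2435 (@Lb.r r386 (@Lb.d (nat_lit 0) (nat_lit 0) (nat_lit 420) (@Lb.t (@Lb.fp (nat_lit 9) t2)))))))))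
noncomputable def l16504 : Lb := (@Lb.d (nat_lit 2) (nat_lit 2) (nat_lit 2) (@Lb.g g8 (@Lb.g g9 (@Lb.g g10 (@Lb.r r683 (@Lb.r r2666 (@Lb.r r2585 (@Lb.r r2564 (@Lb.d (nat_lit 650) (nat_lit 9) (nat_lit 417) (@Lb.t (@Lb.fp (nat_lit 9) t2507)))))))))))
noncomputable def l16505 : Lb := (@Lb.d (nat_lit 0) (nat_lit 0) (nat_lit 137) (@Lb.g g10 (@Lb.g g11 (@Lb.r r2435 (@Lb.r r386 (@Lb.d (nat_lit 5) (nat_lit 1) (nat_lit 420) (@Lb.fp (nat_lit 3) t2)))))))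
noncomputable def l16506 : Lb := (@Lb.d (nat_lit 2) (nat_lit 289) (nat_lit 66) (@Lb.g g8 (@Lb.g g9 (@Lb.g g10 (@Lb.g g11 (@Lb.r r2722 (@Lb.r r404 (@Lb.r r681 (@Lb.r r1643 (@Lb.r r1060 (@Lb.d (nat_lit 98) (nat_lit 10) (nat_lit 329) (@Lb.fm (nat_lit 9) t98))))))))))))
noncomputable def l16507 : Lb := (@Lb.r r21 (@Lb.d (nat_lit 16) (nat_lit 0) (nat_lit 10) (@Lb.g g8 (@Lb.g g10 (@Lb.g g11 (@Lb.r r603 (@Lb.r r2401 (@Lb.r r1170 (@Lb.r r1128 (@Lb.d (nat_lit 265) (nat_lit 70) (nat_lit 33) (@Lb.t (@Lb.fm (nat_lit 9) t151))))))))))))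
noncomputable def l16508 : Lb := (@Lb.d (nat_lit 146) (nat_lit 258) (nat_lit 130) (@Lb.g g8 (@Lb.g g9 (@Lb.g g10 (@Lb.g g11 (@Lb.r r2705 (@Lb.r r535 (@Lb.r r2440 (@Lb.r r1098 (@Lb.d (nat_lit 545) (nat_lit 74) (nat_lit 328) (@Lb.fp (nat_lit 9) t1526)))))))))))
noncomputable def l16509 : Lb := (@Lb.d (nat_lit 1) (nat_lit 2) (nat_lit 2) (@Lb.g g8 (@Lb.g g9 (@Lb.g g10 (@Lb.r r1689 (@Lb.r r1688 (@Lb.r r1691 (@Lb.r r1610 (@Lb.d (nat_lit 614) (nat_lit 88) (nat_lit 409) (@Lb.t (@Lb.fm (nat_lit 9) t1756)))))))))))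
noncomputable def l16510 : Lb := (@Lb.d (nat_lit 0) (nat_lit 2) (nat_lit 130) (@Lb.g g9 (@Lb.g g10 (@Lb.g g11 (@Lb.r r2705 (@Lb.r r1691 (@Lb.r r578 (@Lb.r r2564 (@Lb.d (nat_lit 522) (nat_lit 154) (nat_lit 137) (@Lb.t (@Lb.fp (nat_lit 9) t1097)))))))))))
noncomputable def l16511 : Lb := (@Lb.d (nat_lit 401) (nat_lit 293) (nat_lit 424) (@Lb.r r410 (@Lb.r r613 (@Lb.r r299 (@Lb.r r264 (@Lb.g g7 (@Lb.g g6 (@Lb.g g5 (@Lb.d (nat_lit 80) (nat_lit 0) (nat_lit 129) (@Lb.t (@Lb.fm (nat_lit 9) t1165)))))))))))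
noncomputable def l16512 : Lb := (@Lb.d (nat_lit 402) (nat_lit 37) (nat_lit 424) (@Lb.r r410 (@Lb.r r613 (@Lb.r r299 (@Lb.r r264 (@Lb.g g7 (@Lb.g g6 (@Lb.g g5 (@Lb.d (nat_lit 80) (nat_lit 0) (nat_lit 129) (@Lb.t (@Lb.fm (nat_lit 9) t1165)))))))))))
noncomputable def l16513 : Lb := (@Lb.d (nat_lit 128) (nat_lit 520) (nat_lit 130) (@Lb.g g10 (@Lb.g g11 (@Lb.r r361 (@Lb.r r292 (@Lb.r r539 (@Lb.r r134 (@Lb.d (nat_lit 105) (nat_lit 66) (nat_lit 393) (@Lb.fp (nat_lit 3) t210)))))))))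
noncomputable def l16514 : Lb := (@Lb.d (nat_lit 289) (nat_lit 0) (nat_lit 64) (@Lb.r r154 (@Lb.r r101 (@Lb.r r1304 (@Lb.g g7 (@Lb.g g6 (@Lb.d (nat_lit 64) (nat_lit 32) (nat_lit 576) (@Lb.fp (nat_lit 3) t472))))))))
noncomputable def l16515 : Lb := (@Lb.d (nat_lit 5) (nat_lit 290) (nat_lit 132) (@Lb.g g8 (@Lb.g g9 (@Lb.g g10 (@Lb.g g11 (@Lb.r r683 (@Lb.r r616 (@Lb.r r86 (@Lb.r r165 (@Lb.r r20 (@Lb.d (nat_lit 40) (nat_lit 1) (nat_lit 2) (@Lb.fm (nat_lit 9) t68))))))))))))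
noncomputable def l16516 : Lb := (@Lb.d (nat_lit 657) (nat_lit 678) (nat_lit 72) (@Lb.r r8 (@Lb.r r101 (@Lb.r r386 (@Lb.r r2395 (@Lb.g g7 (@Lb.g g6 (@Lb.d (nat_lit 0) (nat_lit 0) (nat_lit 65) (@Lb.fp (nat_lit 3) t109)))))))))
noncomputable def l16517 : Lb := (@Lb.d (nat_lit 33) (nat_lit 514) (nat_lit 129) (@Lb.g g8 (@Lb.g g9 (@Lb.g g6 (@Lb.g g11 (@Lb.r r1643 (@Lb.r r1640 (@Lb.r r25 (@Lb.d (nat_lit 514) (nat_lit 154) (nat_lit 648) (@Lb.fm (nat_lit 9) t1326))))))))))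
noncomputable def l16518 : Lb := (@Lb.d (nat_lit 386) (nat_lit 0) (nat_lit 0) (@Lb.r r1178 (@Lb.r r1684 (@Lb.r r2401 (@Lb.r r1543 (@Lb.g g6 (@Lb.g g9 (@Lb.g g4 (@Lb.t (@Lb.fp (nat_lit 9) t385))))))))))
noncomputable def l16519 : Lb := (@Lb.d (nat_lit 34) (nat_lit 258) (nat_lit 129) (@Lb.g g8 (@Lb.g g9 (@Lb.g g6 (@Lb.g g11 (@Lb.r r1643 (@Lb.r r1640 (@Lb.r r25 (@Lb.d (nat_lit 514) (nat_lit 154) (nat_lit 648) (@Lb.fm (nat_lit 9) t1326))))))))))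
noncomputable def l16520 : Lb := (@Lb.r r82 (@Lb.d (nat_lit 10) (nat_lit 257) (nat_lit 128) (@Lb.g g8 (@Lb.g g5 (@Lb.g g11 (@Lb.r r1691 (@Lb.r r146 (@Lb.r r1608 (@Lb.d (nat_lit 97) (nat_lit 2) (nat_lit 665) (@Lb.t (@Lb.fm (nat_lit 9) t2179)))))))))))
noncomputable def l16521 : Lb := (@Lb.d (nat_lit 0) (nat_lit 9) (nat_lit 65) (@Lb.g g9 (@Lb.g g10 (@Lb.g g7 (@Lb.r r386 (@Lb.r r97 (@Lb.d (nat_lit 5) (nat_lit 10) (nat_lit 9) (@Lb.t (@Lb.fp (nat_lit 9) t3366)))))))))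
noncomputable def l16522 : Lb := (@Lb.d (nat_lit 400) (nat_lit 512) (nat_lit 324) (@Lb.g g4 (@Lb.g g7 (@Lb.d (nat_lit 0) (nat_lit 0) (nat_lit 102) (@Lb.fm (nat_lit 3) t3367)))))
noncomputable def l16523 : Lb := (@Lb.d (nat_lit 550) (nat_lit 42) (nat_lit 641) (@Lb.r r1109 (@Lb.r r386 (@Lb.r r1643 (@Lb.g g5 (@Lb.g g4 (@Lb.d (nat_lit 1) (nat_lit 1) (nat_lit 0) (@Lb.r r98 (@Lb.fm (nat_lit 3) t3368)))))))))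
noncomputable def l16524 : Lb := (@Lb.d (nat_lit 0) (nat_lit 550) (nat_lit 133) (@Lb.g g9 (@Lb.g g10 (@Lb.g g11 (@Lb.r r1699 (@Lb.r r2392 (@Lb.r r1190 (@Lb.r r1561 (@Lb.d (nat_lit 321) (nat_lit 85) (nat_lit 37) (@Lb.t (@Lb.fp (nat_lit 9) t3369)))))))))))
noncomputable def l16525 : Lb := (@Lb.d (nat_lit 0) (nat_lit 258) (nat_lit 73) (@Lb.g g9 (@Lb.g g10 (@Lb.g g11 (@Lb.r r2666 (@Lb.r r1611 (@Lb.r r104 (@Lb.r r25 (@Lb.d (nat_lit 646) (nat_lit 144) (nat_lit 576) (@Lb.t (@Lb.fm (nat_lit 9) t490)))))))))))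
noncomputable def l16526 : Lb := (@Lb.d (nat_lit 0) (nat_lit 257) (nat_lit 73) (@Lb.g g9 (@Lb.g g10 (@Lb.g g11 (@Lb.r r618 (@Lb.r r1611 (@Lb.r r1128 (@Lb.r r1049 (@Lb.d (nat_lit 385) (nat_lit 18) (nat_lit 576) (@Lb.t (@Lb.fm (nat_lit 9) t490)))))))))))
noncomputable def l16527 : Lb := (@Lb.d (nat_lit 0) (nat_lit 514) (nat_lit 73) (@Lb.g g9 (@Lb.g g10 (@Lb.g g11 (@Lb.r r2666 (@Lb.r r1611 (@Lb.r r104 (@Lb.r r25 (@Lb.d (nat_lit 641) (nat_lit 146) (nat_lit 576) (@Lb.t (@Lb.fm (nat_lit 9) t490)))))))))))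
noncomputable def l16528 : Lb := (@Lb.d (nat_lit 0) (nat_lit 550) (nat_lit 133) (@Lb.g g9 (@Lb.g g10 (@Lb.g g11 (@Lb.r r1699 (@Lb.r r2392 (@Lb.r r1190 (@Lb.r r1561 (@Lb.d (nat_lit 325) (nat_lit 86) (nat_lit 37) (@Lb.t (@Lb.fp (nat_lit 9) t3370)))))))))))
noncomputable def l16529 : Lb := (@Lb.d (nat_lit 0) (nat_lit 514) (nat_lit 130) (@Lb.g g9 (@Lb.g g10 (@Lb.g g11 (@Lb.r r1379 (@Lb.r r2438 (@Lb.r r104 (@Lb.r r25 (@Lb.d (nat_lit 512) (nat_lit 16) (nat_lit 320) (@Lb.t (@Lb.fm (nat_lit 9) t490)))))))))))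
noncomputable def l16530 : Lb := (@Lb.r r323 (@Lb.d (nat_lit 2) (nat_lit 258) (nat_lit 2) (@Lb.g g8 (@Lb.g g9 (@Lb.g g10 (@Lb.r r2347 (@Lb.r r2154 (@Lb.r r104 (@Lb.r r25 (@Lb.d (nat_lit 97) (nat_lit 90) (nat_lit 9) (@Lb.t (@Lb.fp (nat_lit 9) t492))))))))))))
noncomputable def l16531 : Lb := (@Lb.d (nat_lit 0) (nat_lit 514) (nat_lit 73) (@Lb.g g9 (@Lb.g g10 (@Lb.g g11 (@Lb.r r2666 (@Lb.r r1611 (@Lb.r r104 (@Lb.r r25 (@Lb.d (nat_lit 646) (nat_lit 154) (nat_lit 578) (@Lb.t (@Lb.fm (nat_lit 9) t490)))))))))))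
noncomputable def l16532 : Lb := (@Lb.r r20 (@Lb.r r82 (@Lb.d (nat_lit 64) (nat_lit 354) (nat_lit 64) (@Lb.g g9 (@Lb.g g11 (@Lb.r r676 (@Lb.r r1366 (@Lb.r r1699 (@Lb.d (nat_lit 5) (nat_lit 69) (nat_lit 358) (@Lb.fp (nat_lit 3) t86))))))))))
noncomputable def l16533 : Lb := (@Lb.r r355 (@Lb.d (nat_lit 2) (nat_lit 265) (nat_lit 2) (@Lb.g g8 (@Lb.g g9 (@Lb.g g10 (@Lb.r r2731 (@Lb.r r618 (@Lb.r r1625 (@Lb.d (nat_lit 617) (nat_lit 165) (nat_lit 425) (@Lb.t (@Lb.fp (nat_lit 9) t218)))))))))))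
noncomputable def l16534 : Lb := (@Lb.r r260 (@Lb.r r523 (@Lb.r r357 (@Lb.r r666 (@Lb.r r516 (@Lb.d (nat_lit 256) (nat_lit 266) (nat_lit 34) (@Lb.fm (nat_lit 1) t743)))))))
noncomputable def l16535 : Lb := (@Lb.r r90 (@Lb.d (nat_lit 34) (nat_lit 514) (nat_lit 128) (@Lb.g g8 (@Lb.g g9 (@Lb.g g11 (@Lb.r r1315 (@Lb.r r2646 (@Lb.r r1425 (@Lb.r r1572 (@Lb.d (nat_lit 393) (nat_lit 86) (nat_lit 82) (@Lb.t (@Lb.fm (nat_lit 9) t3371))))))))))))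
noncomputable def l16536 : Lb := (@Lb.d (nat_lit 512) (nat_lit 128) (nat_lit 1) (@Lb.r r101 (@Lb.r r2403 (@Lb.g g6 (@Lb.g g4 (@Lb.d (nat_lit 0) (nat_lit 4) (nat_lit 1) (@Lb.fp (nat_lit 3) t58)))))))
noncomputable def l16537 : Lb := (@Lb.d (nat_lit 0) (nat_lit 256) (nat_lit 136) (@Lb.g g11 (@Lb.r r101 (@Lb.d (nat_lit 256) (nat_lit 90) (nat_lit 281) (@Lb.t (@Lb.fm (nat_lit 3) t1174))))))
noncomputable def l16538 : Lb := (@Lb.d (nat_lit 528) (nat_lit 0) (nat_lit 168) (@Lb.r r1361 (@Lb.r r2722 (@Lb.r r2467 (@Lb.r r401 (@Lb.g g8 (@Lb.d (nat_lit 322) (nat_lit 0) (nat_lit 0) (@Lb.t (@Lb.fm (nat_lit 3) t3372)))))))))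
noncomputable def l16539 : Lb := (@Lb.d (nat_lit 2) (nat_lit 258) (nat_lit 73) (@Lb.g g8 (@Lb.g g9 (@Lb.g g10 (@Lb.g g11 (@Lb.r r2705 (@Lb.r r535 (@Lb.r r2440 (@Lb.r r2122 (@Lb.d (nat_lit 289) (nat_lit 86) (nat_lit 581) (@Lb.fp (nat_lit 9) t3373)))))))))))
noncomputable def l16540 : Lb := (@Lb.d (nat_lit 642) (nat_lit 514) (nat_lit 66) (@Lb.g g8 (@Lb.g g9 (@Lb.g g10 (@Lb.g g11 (@Lb.r r1451 (@Lb.r r106 (@Lb.r r25 (@Lb.d (nat_lit 8) (nat_lit 2) (nat_lit 426) (@Lb.fp (nat_lit 9) t1792))))))))))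
noncomputable def l16541 : Lb := (@Lb.d (nat_lit 2) (nat_lit 514) (nat_lit 73) (@Lb.g g8 (@Lb.g g9 (@Lb.g g10 (@Lb.g g11 (@Lb.r r2705 (@Lb.r r535 (@Lb.r r2440 (@Lb.r r2122 (@Lb.d (nat_lit 289) (nat_lit 10) (nat_lit 72) (@Lb.fp (nat_lit 9) t756)))))))))))
noncomputable def l16542 : Lb := (@Lb.r r82 (@Lb.d (nat_lit 9) (nat_lit 288) (nat_lit 64) (@Lb.g g8 (@Lb.g g9 (@Lb.g g11 (@Lb.r r1299 (@Lb.r r1129 (@Lb.r r2394 (@Lb.r r2372 (@Lb.d (nat_lit 577) (nat_lit 5) (nat_lit 613) (@Lb.t (@Lb.fp (nat_lit 9) t3374))))))))))))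
noncomputable def l16543 : Lb := (@Lb.d (nat_lit 528) (nat_lit 256) (nat_lit 2) (@Lb.g g8 (@Lb.g g10 (@Lb.r r2731 (@Lb.r r665 (@Lb.r r602 (@Lb.d (nat_lit 361) (nat_lit 101) (nat_lit 132) (@Lb.fp (nat_lit 3) t3375))))))))
noncomputable def l16544 : Lb := (@Lb.d (nat_lit 0) (nat_lit 0) (nat_lit 137) (@Lb.g g10 (@Lb.g g11 (@Lb.r r642 (@Lb.r r2707 (@Lb.r r2626 (@Lb.d (nat_lit 0) (nat_lit 17) (nat_lit 276) (@Lb.fm (nat_lit 3) t305))))))))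
noncomputable def l16545 : Lb := (@Lb.r r323 (@Lb.d (nat_lit 33) (nat_lit 258) (nat_lit 2) (@Lb.g g8 (@Lb.g g9 (@Lb.g g10 (@Lb.r r683 (@Lb.r r170 (@Lb.r r153 (@Lb.r r132 (@Lb.d (nat_lit 41) (nat_lit 1) (nat_lit 84) (@Lb.t (@Lb.fm (nat_lit 9) t1987))))))))))))
noncomputable def l16546 : Lb := (@Lb.d (nat_lit 9) (nat_lit 521) (nat_lit 6) (@Lb.g g8 (@Lb.g g9 (@Lb.g g10 (@Lb.g g11 (@Lb.r r532 (@Lb.r r295 (@Lb.r r357 (@Lb.r r666 (@Lb.r r644 (@Lb.d (nat_lit 9) (nat_lit 1) (nat_lit 137) (@Lb.fp (nat_lit 9) t5))))))))))))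
noncomputable def l16547 : Lb := (@Lb.g g7 (@Lb.r r1321 (@Lb.r r1444 (@Lb.r r2651 (@Lb.r r134 (@Lb.d (nat_lit 0) (nat_lit 592) (nat_lit 72) (@Lb.t (@Lb.fp (nat_lit 3) t2917))))))))
noncomputable def l16548 : Lb := (@Lb.g g7 (@Lb.r r2661 (@Lb.r r1304 (@Lb.r r2599 (@Lb.r r134 (@Lb.d (nat_lit 512) (nat_lit 256) (nat_lit 608) (@Lb.t (@Lb.fm (nat_lit 3) t3376))))))))
noncomputable def l16549 : Lb := (@Lb.d (nat_lit 658) (nat_lit 129) (nat_lit 385) (@Lb.r r289 (@Lb.r r70 (@Lb.r r420 (@Lb.r r347 (@Lb.g g7 (@Lb.g g6 (@Lb.d (nat_lit 16) (nat_lit 0) (nat_lit 129) (@Lb.fp (nat_lit 3) t2916)))))))))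
noncomputable def l16550 : Lb := (@Lb.d (nat_lit 330) (nat_lit 293) (nat_lit 129) (@Lb.r r289 (@Lb.r r535 (@Lb.r r328 (@Lb.r r2726 (@Lb.g g7 (@Lb.g g6 (@Lb.g g5 (@Lb.d (nat_lit 4) (nat_lit 6) (nat_lit 132) (@Lb.t (@Lb.fp (nat_lit 9) t3377)))))))))))
noncomputable def l16551 : Lb := (@Lb.d (nat_lit 644) (nat_lit 146) (nat_lit 384) (@Lb.r r289 (@Lb.r r279 (@Lb.r r584 (@Lb.r r166 (@Lb.g g7 (@Lb.g g6 (@Lb.g g5 (@Lb.d (nat_lit 0) (nat_lit 5) (nat_lit 66) (@Lb.t (@Lb.fm (nat_lit 9) t1935)))))))))))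
noncomputable def l16552 : Lb := (@Lb.d (nat_lit 145) (nat_lit 258) (nat_lit 74) (@Lb.g g8 (@Lb.g g9 (@Lb.g g10 (@Lb.g g11 (@Lb.r r683 (@Lb.r r2410 (@Lb.r r548 (@Lb.r r37 (@Lb.d (nat_lit 361) (nat_lit 33) (nat_lit 21) (@Lb.fp (nat_lit 9) t283)))))))))))
noncomputable def l16553 : Lb := (@Lb.r r70 (@Lb.r r263 (@Lb.d (nat_lit 546) (nat_lit 2) (nat_lit 0) (@Lb.g g8 (@Lb.g g9 (@Lb.r r406 (@Lb.r r2627 (@Lb.r r25 (@Lb.d (nat_lit 9) (nat_lit 80) (nat_lit 576) (@Lb.fm (nat_lit 3) t394))))))))))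
noncomputable def l16554 : Lb := (@Lb.d (nat_lit 2) (nat_lit 8) (nat_lit 130) (@Lb.g g8 (@Lb.g g10 (@Lb.g g11 (@Lb.r r2699 (@Lb.r r2601 (@Lb.r r2724 (@Lb.r r134 (@Lb.d (nat_lit 41) (nat_lit 153) (nat_lit 296) (@Lb.t (@Lb.fp (nat_lit 9) t591)))))))))))
noncomputable def l16555 : Lb := (@Lb.r r323 (@Lb.d (nat_lit 32) (nat_lit 258) (nat_lit 2) (@Lb.g g8 (@Lb.g g9 (@Lb.g g10 (@Lb.r r2666 (@Lb.r r2391 (@Lb.r r1577 (@Lb.r r1556 (@Lb.d (nat_lit 385) (nat_lit 130) (nat_lit 256) (@Lb.t (@Lb.fp (nat_lit 9) t394))))))))))))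
noncomputable def l16556 : Lb := (@Lb.r r20 (@Lb.d (nat_lit 0) (nat_lit 258) (nat_lit 128) (@Lb.g g9 (@Lb.g g11 (@Lb.r r1699 (@Lb.r r2178 (@Lb.r r2661 (@Lb.d (nat_lit 402) (nat_lit 153) (nat_lit 9) (@Lb.fp (nat_lit 3) t3378)))))))))
noncomputable def l16557 : Lb := (@Lb.d (nat_lit 24) (nat_lit 576) (nat_lit 128) (@Lb.r r97 (@Lb.r r1430 (@Lb.g g7 (@Lb.g g5 (@Lb.d (nat_lit 0) (nat_lit 1) (nat_lit 68) (@Lb.r r578 (@Lb.fm (nat_lit 3) t809))))))))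
noncomputable def l16558 : Lb := (@Lb.d (nat_lit 2) (nat_lit 10) (nat_lit 128) (@Lb.g g8 (@Lb.g g9 (@Lb.g g11 (@Lb.r r2450 (@Lb.r r2659 (@Lb.r r2665 (@Lb.r r36 (@Lb.d (nat_lit 616) (nat_lit 2) (nat_lit 274) (@Lb.t (@Lb.fp (nat_lit 9) t564)))))))))))
noncomputable def l16559 : Lb := (@Lb.d (nat_lit 0) (nat_lit 64) (nat_lit 128) (@Lb.r r101 (@Lb.r r1426 (@Lb.g g7 (@Lb.g g5 (@Lb.d (nat_lit 0) (nat_lit 0) (nat_lit 68) (@Lb.r r578 (@Lb.fm (nat_lit 3) t482))))))))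
noncomputable def l16560 : Lb := (@Lb.d (nat_lit 0) (nat_lit 514) (nat_lit 66) (@Lb.g g8 (@Lb.g g9 (@Lb.g g10 (@Lb.g g7 (@Lb.r r386 (@Lb.r r97 (@Lb.r r24 (@Lb.d (nat_lit 328) (nat_lit 9) (nat_lit 521) (@Lb.fp (nat_lit 9) t1150))))))))))
noncomputable def l16561 : Lb := (@Lb.d (nat_lit 0) (nat_lit 2) (nat_lit 66) (@Lb.g g8 (@Lb.g g9 (@Lb.g g10 (@Lb.g g7 (@Lb.r r386 (@Lb.r r25 (@Lb.d (nat_lit 9) (nat_lit 5) (nat_lit 10) (@Lb.fp (nat_lit 9) t45)))))))))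
noncomputable def l16562 : Lb := (@Lb.d (nat_lit 81) (nat_lit 2) (nat_lit 4) (@Lb.g g8 (@Lb.g g9 (@Lb.g g10 (@Lb.g g11 (@Lb.r r2329 (@Lb.r r1443 (@Lb.r r2626 (@Lb.r r1700 (@Lb.d (nat_lit 421) (nat_lit 68) (nat_lit 648) (@Lb.fp (nat_lit 9) t394)))))))))))
noncomputable def l16563 : Lb := (@Lb.r r322 (@Lb.d (nat_lit 32) (nat_lit 2) (nat_lit 576) (@Lb.g g8 (@Lb.g g9 (@Lb.g g7 (@Lb.r r361 (@Lb.r r150 (@Lb.r r1364 (@Lb.d (nat_lit 342) (nat_lit 164) (nat_lit 593) (@Lb.t (@Lb.fp (nat_lit 9) t1115)))))))))))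
noncomputable def l16564 : Lb := (@Lb.r r322 (@Lb.d (nat_lit 8) (nat_lit 512) (nat_lit 576) (@Lb.g g9 (@Lb.g g7 (@Lb.r r1172 (@Lb.r r1638 (@Lb.r r337 (@Lb.d (nat_lit 0) (nat_lit 100) (nat_lit 390) (@Lb.fp (nat_lit 3) t1115)))))))))
noncomputable def l16565 : Lb := (@Lb.d (nat_lit 128) (nat_lit 514) (nat_lit 130) (@Lb.g g8 (@Lb.g g9 (@Lb.g g10 (@Lb.g g11 (@Lb.r r2410 (@Lb.r r2731 (@Lb.r r2409 (@Lb.r r2388 (@Lb.d (nat_lit 593) (nat_lit 90) (nat_lit 644) (@Lb.fp (nat_lit 9) t394)))))))))))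
noncomputable def l16566 : Lb := (@Lb.r r323 (@Lb.d (nat_lit 38) (nat_lit 260) (nat_lit 0) (@Lb.g g8 (@Lb.g g9 (@Lb.g g10 (@Lb.r r401 (@Lb.r r2727 (@Lb.r r2694 (@Lb.r r2180 (@Lb.d (nat_lit 673) (nat_lit 0) (nat_lit 88) (@Lb.t (@Lb.fm (nat_lit 9) t3379))))))))))))
noncomputable def l16567 : Lb := (@Lb.d (nat_lit 149) (nat_lit 17) (nat_lit 538) (@Lb.r r2587 (@Lb.r r293 (@Lb.r r600 (@Lb.g g7 (@Lb.g g6 (@Lb.g g4 (@Lb.d (nat_lit 1) (nat_lit 16) (nat_lit 98) (@Lb.t (@Lb.fm (nat_lit 9) t3380))))))))))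
noncomputable def l16568 : Lb := (@Lb.d (nat_lit 644) (nat_lit 262) (nat_lit 262) (@Lb.r r24 (@Lb.r r97 (@Lb.r r386 (@Lb.g g11 (@Lb.g g6 (@Lb.g g5 (@Lb.d (nat_lit 0) (nat_lit 1) (nat_lit 1) (@Lb.t (@Lb.fp (nat_lit 9) t928))))))))))
noncomputable def l16569 : Lb := (@Lb.r r21 (@Lb.r r323 (@Lb.g g4 (@Lb.g g10 (@Lb.r r2459 (@Lb.r r1128 (@Lb.r r2630 (@Lb.r r97 (@Lb.d (nat_lit 0) (nat_lit 325) (nat_lit 0) (@Lb.fp (nat_lit 3) t91))))))))))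
noncomputable def l16570 : Lb := (@Lb.r r21 (@Lb.r r70 (@Lb.d (nat_lit 658) (nat_lit 512) (nat_lit 64) (@Lb.g g4 (@Lb.g g11 (@Lb.r r519 (@Lb.r r402 (@Lb.r r97 (@Lb.d (nat_lit 66) (nat_lit 130) (nat_lit 576) (@Lb.fm (nat_lit 3) t1515))))))))))
noncomputable def l16571 : Lb := (@Lb.r r21 (@Lb.r r70 (@Lb.r r263 (@Lb.g g4 (@Lb.r r1412 (@Lb.r r267 (@Lb.r r402 (@Lb.r r97 (@Lb.d (nat_lit 0) (nat_lit 576) (nat_lit 512) (@Lb.t (@Lb.fm (nat_lit 3) t1515)))))))))))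
noncomputable def l16572 : Lb := (@Lb.d (nat_lit 2) (nat_lit 32) (nat_lit 0) (@Lb.g g8 (@Lb.g g11 (@Lb.r r2584 (@Lb.r r421 (@Lb.r r2651 (@Lb.r r2178 (@Lb.d (nat_lit 320) (nat_lit 37) (nat_lit 554) (@Lb.fm (nat_lit 3) t1624)))))))))
noncomputable def l16573 : Lb := (@Lb.d (nat_lit 138) (nat_lit 512) (nat_lit 0) (@Lb.g g8 (@Lb.r r1621 (@Lb.r r2391 (@Lb.r r2178 (@Lb.r r1544 (@Lb.d (nat_lit 578) (nat_lit 74) (nat_lit 532) (@Lb.t (@Lb.fp (nat_lit 3) t1624)))))))))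
noncomputable def l16574 : Lb := (@Lb.d (nat_lit 549) (nat_lit 69) (nat_lit 33) (@Lb.r r70 (@Lb.r r2200 (@Lb.r r2459 (@Lb.g g9 (@Lb.g g4 (@Lb.r r267 (@Lb.r r74 (@Lb.fm (nat_lit 3) t806)))))))))
noncomputable def l16575 : Lb := (@Lb.r r82 (@Lb.r r275 (@Lb.d (nat_lit 32) (nat_lit 386) (nat_lit 0) (@Lb.g g8 (@Lb.g g5 (@Lb.r r427 (@Lb.r r582 (@Lb.r r408 (@Lb.d (nat_lit 256) (nat_lit 89) (nat_lit 544) (@Lb.fm (nat_lit 3) t3278))))))))))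
noncomputable def l16576 : Lb := (@Lb.d (nat_lit 130) (nat_lit 546) (nat_lit 0) (@Lb.g g8 (@Lb.g g9 (@Lb.r r2707 (@Lb.r r2178 (@Lb.r r341 (@Lb.r r2084 (@Lb.d (nat_lit 345) (nat_lit 73) (nat_lit 102) (@Lb.fm (nat_lit 3) t88)))))))))
noncomputable def l16577 : Lb := (@Lb.d (nat_lit 16) (nat_lit 9) (nat_lit 137) (@Lb.g g8 (@Lb.g g9 (@Lb.g g10 (@Lb.g g11 (@Lb.r r1706 (@Lb.r r1419 (@Lb.r r1553 (@Lb.r r2340 (@Lb.d (nat_lit 325) (nat_lit 18) (nat_lit 320) (@Lb.fm (nat_lit 9) t11)))))))))))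
noncomputable def l16578 : Lb := (@Lb.d (nat_lit 70) (nat_lit 550) (nat_lit 102) (@Lb.r r408 (@Lb.r r330 (@Lb.r r343 (@Lb.g g5 (@Lb.g g4 (@Lb.d (nat_lit 17) (nat_lit 100) (nat_lit 0) (@Lb.r r291 (@Lb.r r98 (@Lb.fp (nat_lit 3) t1888))))))))))
noncomputable def l16579 : Lb := (@Lb.d (nat_lit 645) (nat_lit 6) (nat_lit 262) (@Lb.r r24 (@Lb.r r97 (@Lb.r r386 (@Lb.g g11 (@Lb.g g6 (@Lb.g g5 (@Lb.d (nat_lit 0) (nat_lit 1) (nat_lit 1) (@Lb.t (@Lb.fp (nat_lit 9) t928))))))))))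
noncomputable def l16580 : Lb := (@Lb.d (nat_lit 0) (nat_lit 2) (nat_lit 128) (@Lb.g g8 (@Lb.g g9 (@Lb.g g11 (@Lb.r r548 (@Lb.r r2727 (@Lb.r r2178 (@Lb.r r533 (@Lb.r r2084 (@Lb.d (nat_lit 146) (nat_lit 136) (nat_lit 345) (@Lb.t (@Lb.fm (nat_lit 9) t229))))))))))))
noncomputable def l16581 : Lb := (@Lb.d (nat_lit 130) (nat_lit 2) (nat_lit 66) (@Lb.g g8 (@Lb.g g9 (@Lb.g g10 (@Lb.g g11 (@Lb.r r2323 (@Lb.r r2217 (@Lb.r r98 (@Lb.r r392 (@Lb.d (nat_lit 352) (nat_lit 8) (nat_lit 345) (@Lb.fp (nat_lit 9) t211)))))))))))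
noncomputable def l16582 : Lb := (@Lb.r r21 (@Lb.r r323 (@Lb.d (nat_lit 2) (nat_lit 512) (nat_lit 0) (@Lb.g g8 (@Lb.g g10 (@Lb.r r2455 (@Lb.r r2196 (@Lb.r r2630 (@Lb.r r97 (@Lb.d (nat_lit 0) (nat_lit 86) (nat_lit 64) (@Lb.fp (nat_lit 3) t91)))))))))))
noncomputable def l16583 : Lb := (@Lb.r r21 (@Lb.r r70 (@Lb.d (nat_lit 656) (nat_lit 256) (nat_lit 64) (@Lb.g g4 (@Lb.g g11 (@Lb.r r519 (@Lb.r r402 (@Lb.r r97 (@Lb.d (nat_lit 66) (nat_lit 130) (nat_lit 576) (@Lb.fm (nat_lit 3) t1515))))))))))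
noncomputable def l16584 : Lb := (@Lb.r r21 (@Lb.r r70 (@Lb.r r263 (@Lb.d (nat_lit 657) (nat_lit 0) (nat_lit 0) (@Lb.g g4 (@Lb.r r267 (@Lb.r r402 (@Lb.r r97 (@Lb.d (nat_lit 1) (nat_lit 130) (nat_lit 512) (@Lb.t (@Lb.fm (nat_lit 3) t1515)))))))))))
noncomputable def l16585 : Lb := (@Lb.d (nat_lit 0) (nat_lit 514) (nat_lit 130) (@Lb.g g8 (@Lb.g g9 (@Lb.g g10 (@Lb.g g11 (@Lb.r r610 (@Lb.r r404 (@Lb.r r619 (@Lb.r r97 (@Lb.r r516 (@Lb.d (nat_lit 9) (nat_lit 137) (nat_lit 1) (@Lb.fp (nat_lit 9) t44))))))))))))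
noncomputable def l16586 : Lb := (@Lb.r r20 (@Lb.d (nat_lit 0) (nat_lit 521) (nat_lit 161) (@Lb.g g9 (@Lb.g g6 (@Lb.g g11 (@Lb.r r2659 (@Lb.r r2661 (@Lb.d (nat_lit 406) (nat_lit 25) (nat_lit 40) (@Lb.t (@Lb.fp (nat_lit 9) t1822))))))))))
noncomputable def l16587 : Lb := (@Lb.r r21 (@Lb.r r70 (@Lb.d (nat_lit 0) (nat_lit 512) (nat_lit 128) (@Lb.g g8 (@Lb.g g11 (@Lb.r r583 (@Lb.r r650 (@Lb.r r601 (@Lb.r r580 (@Lb.d (nat_lit 4) (nat_lit 1) (nat_lit 132) (@Lb.fm (nat_lit 3) t321)))))))))))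
noncomputable def l16588 : Lb := (@Lb.d (nat_lit 586) (nat_lit 97) (nat_lit 578) (@Lb.r r37 (@Lb.r r2311 (@Lb.r r1624 (@Lb.g g7 (@Lb.g g10 (@Lb.d (nat_lit 32) (nat_lit 0) (nat_lit 100) (@Lb.r r145 (@Lb.r r132 (@Lb.fp (nat_lit 3) t539))))))))))
noncomputable def l16589 : Lb := (@Lb.r r21 (@Lb.r r70 (@Lb.r r263 (@Lb.d (nat_lit 2) (nat_lit 512) (nat_lit 0) (@Lb.g g8 (@Lb.r r267 (@Lb.r r101 (@Lb.r r410 (@Lb.d (nat_lit 97) (nat_lit 0) (nat_lit 16) (@Lb.t (@Lb.fp (nat_lit 3) t540)))))))))))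
noncomputable def l16590 : Lb := (@Lb.d (nat_lit 0) (nat_lit 512) (nat_lit 128) (@Lb.g g9 (@Lb.g g11 (@Lb.r r134 (@Lb.r r584 (@Lb.r r619 (@Lb.r r609 (@Lb.d (nat_lit 8) (nat_lit 65) (nat_lit 16) (@Lb.fm (nat_lit 3) t334)))))))))
noncomputable def l16591 : Lb := (@Lb.d (nat_lit 2) (nat_lit 6) (nat_lit 136) (@Lb.g g8 (@Lb.g g9 (@Lb.g g10 (@Lb.g g11 (@Lb.r r2475 (@Lb.r r1188 (@Lb.r r1414 (@Lb.r r529 (@Lb.d (nat_lit 33) (nat_lit 41) (nat_lit 66) (@Lb.fm (nat_lit 9) t644)))))))))))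
noncomputable def l16592 : Lb := (@Lb.d (nat_lit 2) (nat_lit 33) (nat_lit 0) (@Lb.g g8 (@Lb.g g9 (@Lb.r r292 (@Lb.r r1371 (@Lb.r r2178 (@Lb.r r2661 (@Lb.d (nat_lit 169) (nat_lit 24) (nat_lit 325) (@Lb.fm (nat_lit 3) t64)))))))))
noncomputable def l16593 : Lb := (@Lb.d (nat_lit 4) (nat_lit 258) (nat_lit 0) (@Lb.g g8 (@Lb.g g9 (@Lb.g g10 (@Lb.r r515 (@Lb.r r1321 (@Lb.r r360 (@Lb.r r582 (@Lb.r r132 (@Lb.d (nat_lit 2) (nat_lit 106) (nat_lit 617) (@Lb.t (@Lb.fp (nat_lit 9) t3267))))))))))))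
noncomputable def l16594 : Lb := (@Lb.r r260 (@Lb.r r273 (@Lb.d (nat_lit 0) (nat_lit 528) (nat_lit 578) (@Lb.g g10 (@Lb.g g7 (@Lb.r r386 (@Lb.r r101 (@Lb.r r1048 (@Lb.d (nat_lit 96) (nat_lit 0) (nat_lit 601) (@Lb.fm (nat_lit 3) t2429))))))))))
noncomputable def l16595 : Lb := (@Lb.d (nat_lit 4) (nat_lit 161) (nat_lit 0) (@Lb.g g8 (@Lb.g g5 (@Lb.r r322 (@Lb.r r1667 (@Lb.r r578 (@Lb.r r24 (@Lb.d (nat_lit 554) (nat_lit 0) (nat_lit 34) (@Lb.fp (nat_lit 3) t167)))))))))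
noncomputable def l16596 : Lb := (@Lb.d (nat_lit 2) (nat_lit 33) (nat_lit 132) (@Lb.g g8 (@Lb.g g9 (@Lb.g g10 (@Lb.g g11 (@Lb.r r1686 (@Lb.r r360 (@Lb.r r343 (@Lb.r r533 (@Lb.r r1060 (@Lb.d (nat_lit 146) (nat_lit 73) (nat_lit 600) (@Lb.fp (nat_lit 9) t74))))))))))))
noncomputable def l16597 : Lb := (@Lb.d (nat_lit 2) (nat_lit 521) (nat_lit 0) (@Lb.g g8 (@Lb.g g9 (@Lb.g g10 (@Lb.g g11 (@Lb.r r1691 (@Lb.r r1684 (@Lb.r r1366 (@Lb.r r1553 (@Lb.d (nat_lit 529) (nat_lit 98) (nat_lit 600) (@Lb.fm (nat_lit 9) t264)))))))))))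
noncomputable def l16598 : Lb := (@Lb.d (nat_lit 65) (nat_lit 522) (nat_lit 665) (@Lb.r r24 (@Lb.r r1701 (@Lb.r r354 (@Lb.g g11 (@Lb.g g5 (@Lb.d (nat_lit 0) (nat_lit 5) (nat_lit 384) (@Lb.r r578 (@Lb.fp (nat_lit 3) t1444)))))))))
noncomputable def l16599 : Lb := (@Lb.d (nat_lit 2) (nat_lit 512) (nat_lit 0) (@Lb.g g8 (@Lb.r r593 (@Lb.r r1303 (@Lb.r r1414 (@Lb.r r2600 (@Lb.r r153 (@Lb.d (nat_lit 0) (nat_lit 24) (nat_lit 297) (@Lb.t (@Lb.fp (nat_lit 3) t591))))))))))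
noncomputable def l16600 : Lb := (@Lb.d (nat_lit 18) (nat_lit 258) (nat_lit 0) (@Lb.g g8 (@Lb.g g9 (@Lb.g g10 (@Lb.r r1689 (@Lb.r r1683 (@Lb.r r1602 (@Lb.r r292 (@Lb.d (nat_lit 69) (nat_lit 73) (nat_lit 409) (@Lb.t (@Lb.fp (nat_lit 9) t394)))))))))))
noncomputable def l16601 : Lb := (@Lb.d (nat_lit 146) (nat_lit 258) (nat_lit 128) (@Lb.g g8 (@Lb.g g9 (@Lb.g g10 (@Lb.g g11 (@Lb.r r683 (@Lb.r r2724 (@Lb.r r1190 (@Lb.r r145 (@Lb.d (nat_lit 9) (nat_lit 132) (nat_lit 664) (@Lb.fp (nat_lit 9) t472)))))))))))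
noncomputable def l16602 : Lb := (@Lb.d (nat_lit 129) (nat_lit 550) (nat_lit 0) (@Lb.g g8 (@Lb.g g9 (@Lb.r r1559 (@Lb.r r2376 (@Lb.r r134 (@Lb.d (nat_lit 17) (nat_lit 66) (nat_lit 600) (@Lb.fp (nat_lit 3) t2113))))))))
noncomputable def l16603 : Lb := (@Lb.d (nat_lit 145) (nat_lit 521) (nat_lit 130) (@Lb.g g8 (@Lb.g g9 (@Lb.g g10 (@Lb.g g11 (@Lb.r r2467 (@Lb.r r344 (@Lb.r r2453 (@Lb.r r2134 (@Lb.r r164 (@Lb.d (nat_lit 545) (nat_lit 169) (nat_lit 360) (@Lb.fm (nat_lit 9) t1169))))))))))))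
noncomputable def l16604 : Lb := (@Lb.d (nat_lit 25) (nat_lit 257) (nat_lit 0) (@Lb.g g8 (@Lb.g g9 (@Lb.g g10 (@Lb.g g11 (@Lb.r r675 (@Lb.r r1681 (@Lb.r r2404 (@Lb.r r2202 (@Lb.d (nat_lit 169) (nat_lit 9) (nat_lit 596) (@Lb.fp (nat_lit 9) t3381)))))))))))
noncomputable def l16605 : Lb := (@Lb.r r2311 (@Lb.r r2196 (@Lb.r r2454 (@Lb.r r673 (@Lb.d (nat_lit 0) (nat_lit 154) (nat_lit 42) (@Lb.fp (nat_lit 1) t1040))))))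
noncomputable def l16606 : Lb := (@Lb.d (nat_lit 2) (nat_lit 258) (nat_lit 9) (@Lb.g g8 (@Lb.g g9 (@Lb.g g10 (@Lb.g g7 (@Lb.r r386 (@Lb.r r97 (@Lb.r r24 (@Lb.d (nat_lit 328) (nat_lit 9) (nat_lit 521) (@Lb.fp (nat_lit 9) t1150))))))))))
noncomputable def l16607 : Lb := (@Lb.d (nat_lit 656) (nat_lit 10) (nat_lit 261) (@Lb.r r24 (@Lb.r r101 (@Lb.r r386 (@Lb.g g11 (@Lb.g g6 (@Lb.g g5 (@Lb.d (nat_lit 0) (nat_lit 0) (nat_lit 1) (@Lb.t (@Lb.fp (nat_lit 9) t2690))))))))))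
noncomputable def l16608 : Lb := (@Lb.d (nat_lit 614) (nat_lit 64) (nat_lit 645) (@Lb.r r24 (@Lb.r r603 (@Lb.r r2406 (@Lb.r r357 (@Lb.g g7 (@Lb.d (nat_lit 0) (nat_lit 16) (nat_lit 64) (@Lb.t (@Lb.fp (nat_lit 3) t271)))))))))
noncomputable def l16609 : Lb := (@Lb.d (nat_lit 325) (nat_lit 80) (nat_lit 645) (@Lb.r r597 (@Lb.r r2730 (@Lb.r r2440 (@Lb.g g11 (@Lb.g g5 (@Lb.d (nat_lit 4) (nat_lit 1) (nat_lit 384) (@Lb.r r578 (@Lb.fp (nat_lit 3) t1444)))))))))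
noncomputable def l16610 : Lb := (@Lb.d (nat_lit 4) (nat_lit 0) (nat_lit 162) (@Lb.g g8 (@Lb.g g9 (@Lb.g g6 (@Lb.g g11 (@Lb.r r580 (@Lb.r r2327 (@Lb.r r1553 (@Lb.r r36 (@Lb.d (nat_lit 274) (nat_lit 10) (nat_lit 648) (@Lb.fm (nat_lit 9) t296)))))))))))
noncomputable def l16611 : Lb := (@Lb.d (nat_lit 32) (nat_lit 516) (nat_lit 1) (@Lb.g g9 (@Lb.g g10 (@Lb.r r515 (@Lb.r r661 (@Lb.r r356 (@Lb.r r346 (@Lb.d (nat_lit 170) (nat_lit 38) (nat_lit 72) (@Lb.fp (nat_lit 3) t1185)))))))))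
noncomputable def l16612 : Lb := (@Lb.d (nat_lit 38) (nat_lit 256) (nat_lit 130) (@Lb.g g8 (@Lb.g g9 (@Lb.g g10 (@Lb.g g11 (@Lb.r r1366 (@Lb.r r2711 (@Lb.r r1553 (@Lb.r r612 (@Lb.d (nat_lit 520) (nat_lit 26) (nat_lit 401) (@Lb.fm (nat_lit 9) t1038)))))))))))
noncomputable def l16613 : Lb := (@Lb.d (nat_lit 4) (nat_lit 512) (nat_lit 162) (@Lb.g g8 (@Lb.g g9 (@Lb.g g6 (@Lb.g g11 (@Lb.r r580 (@Lb.r r2327 (@Lb.r r1553 (@Lb.r r36 (@Lb.d (nat_lit 272) (nat_lit 10) (nat_lit 648) (@Lb.fm (nat_lit 9) t296)))))))))))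
noncomputable def l16614 : Lb := (@Lb.d (nat_lit 20) (nat_lit 552) (nat_lit 72) (@Lb.r r273 (@Lb.r r363 (@Lb.r r264 (@Lb.g g7 (@Lb.g g10 (@Lb.g g5 (@Lb.d (nat_lit 80) (nat_lit 1) (nat_lit 65) (@Lb.r r36 (@Lb.t (@Lb.fp (nat_lit 9) t607)))))))))))
noncomputable def l16615 : Lb := (@Lb.d (nat_lit 2) (nat_lit 2) (nat_lit 130) (@Lb.g g8 (@Lb.g g9 (@Lb.g g10 (@Lb.g g11 (@Lb.r r548 (@Lb.r r295 (@Lb.r r145 (@Lb.r r154 (@Lb.r r132 (@Lb.d (nat_lit 9) (nat_lit 26) (nat_lit 68) (@Lb.fm (nat_lit 9) t1097))))))))))))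
noncomputable def l16616 : Lb := (@Lb.d (nat_lit 1) (nat_lit 17) (nat_lit 66) (@Lb.r r260 (@Lb.r r97 (@Lb.r r267 (@Lb.r r404 (@Lb.g g7 (@Lb.g g10 (@Lb.g g5 (@Lb.g g4 (@Lb.d (nat_lit 18) (nat_lit 8) (nat_lit 65) (@Lb.fp (nat_lit 9) t607)))))))))))
noncomputable def l16617 : Lb := (@Lb.d (nat_lit 2) (nat_lit 521) (nat_lit 129) (@Lb.g g8 (@Lb.g g9 (@Lb.g g10 (@Lb.g g11 (@Lb.r r516 (@Lb.r r263 (@Lb.r r2713 (@Lb.r r146 (@Lb.r r516 (@Lb.d (nat_lit 38) (nat_lit 5) (nat_lit 160) (@Lb.fm (nat_lit 9) t847))))))))))))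
noncomputable def l16618 : Lb := (@Lb.d (nat_lit 550) (nat_lit 256) (nat_lit 33) (@Lb.r r1109 (@Lb.r r1367 (@Lb.g g6 (@Lb.g g5 (@Lb.g g4 (@Lb.d (nat_lit 1) (nat_lit 1) (nat_lit 0) (@Lb.r r291 (@Lb.t (@Lb.fp (nat_lit 9) t363))))))))))
noncomputable def l16619 : Lb := (@Lb.d (nat_lit 96) (nat_lit 325) (nat_lit 65) (@Lb.r r24 (@Lb.r r273 (@Lb.r r338 (@Lb.r r679 (@Lb.g g7 (@Lb.g g6 (@Lb.g g5 (@Lb.d (nat_lit 0) (nat_lit 18) (nat_lit 8) (@Lb.t (@Lb.fp (nat_lit 9) t785)))))))))))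
noncomputable def l16620 : Lb := (@Lb.d (nat_lit 0) (nat_lit 520) (nat_lit 74) (@Lb.g g10 (@Lb.g g11 (@Lb.r r679 (@Lb.r r1385 (@Lb.r r2408 (@Lb.r r1174 (@Lb.d (nat_lit 2) (nat_lit 73) (nat_lit 169) (@Lb.fm (nat_lit 3) t61)))))))))
noncomputable def l16621 : Lb := (@Lb.r r323 (@Lb.d (nat_lit 0) (nat_lit 66) (nat_lit 10) (@Lb.g g9 (@Lb.g g10 (@Lb.r r1623 (@Lb.r r2440 (@Lb.r r2458 (@Lb.d (nat_lit 405) (nat_lit 34) (nat_lit 296) (@Lb.fp (nat_lit 3) t2142)))))))))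
noncomputable def l16622 : Lb := (@Lb.d (nat_lit 8) (nat_lit 258) (nat_lit 0) (@Lb.g g9 (@Lb.r r1126 (@Lb.r r24 (@Lb.d (nat_lit 521) (nat_lit 1) (nat_lit 0) (@Lb.t (@Lb.fm (nat_lit 3) t994)))))))
noncomputable def l16623 : Lb := (@Lb.d (nat_lit 9) (nat_lit 256) (nat_lit 73) (@Lb.g g8 (@Lb.g g10 (@Lb.g g11 (@Lb.r r2691 (@Lb.r r1681 (@Lb.r r1178 (@Lb.r r2436 (@Lb.d (nat_lit 548) (nat_lit 161) (nat_lit 90) (@Lb.t (@Lb.fm (nat_lit 9) t521)))))))))))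
noncomputable def l16624 : Lb := (@Lb.d (nat_lit 160) (nat_lit 66) (nat_lit 128) (@Lb.g g9 (@Lb.g g10 (@Lb.g g11 (@Lb.r r292 (@Lb.r r2667 (@Lb.r r1362 (@Lb.d (nat_lit 352) (nat_lit 16) (nat_lit 532) (@Lb.t (@Lb.fp (nat_lit 9) t820))))))))))
noncomputable def l16625 : Lb := (@Lb.r r70 (@Lb.r r263 (@Lb.d (nat_lit 586) (nat_lit 321) (nat_lit 0) (@Lb.g g4 (@Lb.g g9 (@Lb.r r1315 (@Lb.r r1122 (@Lb.d (nat_lit 1) (nat_lit 32) (nat_lit 384) (@Lb.fp (nat_lit 3) t1751)))))))))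
noncomputable def l16626 : Lb := (@Lb.d (nat_lit 8) (nat_lit 258) (nat_lit 64) (@Lb.g g9 (@Lb.g g11 (@Lb.r r2587 (@Lb.r r1126 (@Lb.r r24 (@Lb.d (nat_lit 586) (nat_lit 1) (nat_lit 576) (@Lb.fm (nat_lit 3) t284))))))))
noncomputable def l16627 : Lb := (@Lb.d (nat_lit 8) (nat_lit 2) (nat_lit 2) (@Lb.g g9 (@Lb.g g10 (@Lb.g g7 (@Lb.r r386 (@Lb.r r24 (@Lb.d (nat_lit 618) (nat_lit 1) (nat_lit 537) (@Lb.t (@Lb.fp (nat_lit 9) t698)))))))))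
noncomputable def l16628 : Lb := (@Lb.d (nat_lit 8) (nat_lit 258) (nat_lit 0) (@Lb.g g9 (@Lb.g g7 (@Lb.r r1126 (@Lb.r r24 (@Lb.d (nat_lit 522) (nat_lit 1) (nat_lit 69) (@Lb.fm (nat_lit 3) t49)))))))
noncomputable def l16629 : Lb := (@Lb.d (nat_lit 1) (nat_lit 0) (nat_lit 130) (@Lb.g g8 (@Lb.g g9 (@Lb.g g10 (@Lb.g g11 (@Lb.r r665 (@Lb.r r1435 (@Lb.r r2122 (@Lb.r r1553 (@Lb.d (nat_lit 545) (nat_lit 10) (nat_lit 161) (@Lb.fp (nat_lit 9) t145)))))))))))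
noncomputable def l16630 : Lb := (@Lb.d (nat_lit 2) (nat_lit 266) (nat_lit 128) (@Lb.g g8 (@Lb.g g9 (@Lb.g g11 (@Lb.r r2450 (@Lb.r r2387 (@Lb.r r2705 (@Lb.r r24 (@Lb.d (nat_lit 10) (nat_lit 32) (nat_lit 296) (@Lb.t (@Lb.fm (nat_lit 9) t309)))))))))))
noncomputable def l16631 : Lb := (@Lb.d (nat_lit 529) (nat_lit 346) (nat_lit 329) (@Lb.r r2116 (@Lb.r r1686 (@Lb.r r2665 (@Lb.r r651 (@Lb.g g6 (@Lb.g g4 (@Lb.d (nat_lit 18) (nat_lit 0) (nat_lit 2) (@Lb.r r25 (@Lb.fp (nat_lit 3) t71))))))))))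
noncomputable def l16632 : Lb := (@Lb.r r323 (@Lb.d (nat_lit 8) (nat_lit 514) (nat_lit 10) (@Lb.g g9 (@Lb.g g10 (@Lb.r r595 (@Lb.r r338 (@Lb.d (nat_lit 2) (nat_lit 4) (nat_lit 136) (@Lb.fp (nat_lit 3) t51))))))))
noncomputable def l16633 : Lb := (@Lb.d (nat_lit 8) (nat_lit 2) (nat_lit 0) (@Lb.g g9 (@Lb.g g10 (@Lb.d (nat_lit 2) (nat_lit 0) (nat_lit 138) (@Lb.fm (nat_lit 3) t2)))))
noncomputable def l16634 : Lb := (@Lb.d (nat_lit 8) (nat_lit 514) (nat_lit 64) (@Lb.g g9 (@Lb.g g10 (@Lb.g g11 (@Lb.r r1315 (@Lb.r r2626 (@Lb.d (nat_lit 2) (nat_lit 97) (nat_lit 640) (@Lb.t (@Lb.fm (nat_lit 9) t51)))))))))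
noncomputable def l16635 : Lb := (@Lb.d (nat_lit 8) (nat_lit 258) (nat_lit 130) (@Lb.g g9 (@Lb.g g10 (@Lb.g g11 (@Lb.r r419 (@Lb.r r386 (@Lb.d (nat_lit 2) (nat_lit 137) (nat_lit 324) (@Lb.t (@Lb.fp (nat_lit 9) t51)))))))))
noncomputable def l16636 : Lb := (@Lb.d (nat_lit 517) (nat_lit 70) (nat_lit 129) (@Lb.r r1061 (@Lb.r r2132 (@Lb.r r2474 (@Lb.g g11 (@Lb.g g5 (@Lb.g g4 (@Lb.d (nat_lit 1) (nat_lit 18) (nat_lit 392) (@Lb.r r578 (@Lb.t (@Lb.fm (nat_lit 9) t3382)))))))))))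
noncomputable def l16637 : Lb := (@Lb.d (nat_lit 8) (nat_lit 514) (nat_lit 130) (@Lb.g g9 (@Lb.g g10 (@Lb.g g11 (@Lb.r r614 (@Lb.r r404 (@Lb.r r619 (@Lb.r r537 (@Lb.d (nat_lit 73) (nat_lit 105) (nat_lit 150) (@Lb.t (@Lb.fp (nat_lit 9) t822)))))))))))
noncomputable def l16638 : Lb := (@Lb.d (nat_lit 2) (nat_lit 258) (nat_lit 130) (@Lb.g g8 (@Lb.g g9 (@Lb.g g10 (@Lb.g g11 (@Lb.r r2722 (@Lb.r r2467 (@Lb.r r292 (@Lb.r r405 (@Lb.r r2084 (@Lb.d (nat_lit 102) (nat_lit 74) (nat_lit 601) (@Lb.fm (nat_lit 9) t3383))))))))))))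
noncomputable def l16639 : Lb := (@Lb.d (nat_lit 545) (nat_lit 408) (nat_lit 336) (@Lb.r r2308 (@Lb.r r97 (@Lb.r r1291 (@Lb.r r404 (@Lb.g g7 (@Lb.g g10 (@Lb.g g5 (@Lb.g g4 (@Lb.d (nat_lit 6) (nat_lit 2) (nat_lit 150) (@Lb.fp (nat_lit 9) t3384)))))))))))
noncomputable def l16640 : Lb := (@Lb.d (nat_lit 290) (nat_lit 5) (nat_lit 272) (@Lb.r r24 (@Lb.r r101 (@Lb.r r402 (@Lb.g g11 (@Lb.g g9 (@Lb.fp (nat_lit 3) t3385)))))))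
noncomputable def l16641 : Lb := (@Lb.d (nat_lit 512) (nat_lit 256) (nat_lit 256) (@Lb.r r1096 (@Lb.r r89 (@Lb.r r2438 (@Lb.g g11 (@Lb.t (@Lb.fp (nat_lit 3) t3386)))))))
noncomputable def l16642 : Lb := (@Lb.d (nat_lit 10) (nat_lit 257) (nat_lit 0) (@Lb.g g8 (@Lb.g g9 (@Lb.r r1122 (@Lb.r r25 (@Lb.r r24 (@Lb.d (nat_lit 513) (nat_lit 0) (nat_lit 0) (@Lb.fp (nat_lit 3) t994))))))))
noncomputable def l16643 : Lb := (@Lb.r r273 (@Lb.d (nat_lit 160) (nat_lit 32) (nat_lit 650) (@Lb.g g10 (@Lb.g g7 (@Lb.r r1445 (@Lb.r r1112 (@Lb.r r2134 (@Lb.d (nat_lit 673) (nat_lit 145) (nat_lit 521) (@Lb.fp (nat_lit 3) t842)))))))))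
noncomputable def l16644 : Lb := (@Lb.d (nat_lit 8) (nat_lit 258) (nat_lit 0) (@Lb.g g9 (@Lb.r r1126 (@Lb.r r24 (@Lb.d (nat_lit 521) (nat_lit 130) (nat_lit 0) (@Lb.t (@Lb.fm (nat_lit 3) t994)))))))
noncomputable def l16645 : Lb := (@Lb.d (nat_lit 0) (nat_lit 0) (nat_lit 2) (@Lb.g g4 (@Lb.g g10 (@Lb.r r2691 (@Lb.r r2658 (@Lb.d (nat_lit 1) (nat_lit 37) (nat_lit 297) (@Lb.fm (nat_lit 3) t71)))))))
noncomputable def l16646 : Lb := (@Lb.d (nat_lit 0) (nat_lit 18) (nat_lit 586) (@Lb.g g9 (@Lb.g g10 (@Lb.g g7 (@Lb.r r1442 (@Lb.r r2344 (@Lb.r r2457 (@Lb.d (nat_lit 277) (nat_lit 84) (nat_lit 89) (@Lb.t (@Lb.fp (nat_lit 9) t898))))))))))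
noncomputable def l16647 : Lb := (@Lb.d (nat_lit 0) (nat_lit 257) (nat_lit 74) (@Lb.g g9 (@Lb.g g10 (@Lb.g g11 (@Lb.r r2723 (@Lb.r r40 (@Lb.r r2713 (@Lb.r r2194 (@Lb.d (nat_lit 682) (nat_lit 137) (nat_lit 612) (@Lb.t (@Lb.fp (nat_lit 9) t61)))))))))))
noncomputable def l16648 : Lb := (@Lb.d (nat_lit 0) (nat_lit 530) (nat_lit 0) (@Lb.g g9 (@Lb.g g10 (@Lb.g g11 (@Lb.r r1576 (@Lb.r r523 (@Lb.r r422 (@Lb.r r1425 (@Lb.d (nat_lit 585) (nat_lit 20) (nat_lit 169) (@Lb.t (@Lb.fp (nat_lit 9) t898)))))))))))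
noncomputable def l16649 : Lb := (@Lb.r r346 (@Lb.d (nat_lit 36) (nat_lit 546) (nat_lit 128) (@Lb.g g8 (@Lb.g g9 (@Lb.g g11 (@Lb.r r1430 (@Lb.r r2665 (@Lb.r r2664 (@Lb.d (nat_lit 352) (nat_lit 89) (nat_lit 682) (@Lb.t (@Lb.fp (nat_lit 9) t3387)))))))))))
noncomputable def l16650 : Lb := (@Lb.r r21 (@Lb.d (nat_lit 33) (nat_lit 264) (nat_lit 2) (@Lb.g g8 (@Lb.g g10 (@Lb.r r97 (@Lb.r r1108 (@Lb.d (nat_lit 273) (nat_lit 66) (nat_lit 1) (@Lb.fp (nat_lit 3) t3388))))))))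
noncomputable def l16651 : Lb := (@Lb.r r359 (@Lb.d (nat_lit 138) (nat_lit 8) (nat_lit 34) (@Lb.g g8 (@Lb.g g9 (@Lb.g g10 (@Lb.r r2467 (@Lb.r r25 (@Lb.r r596 (@Lb.d (nat_lit 586) (nat_lit 36) (nat_lit 69) (@Lb.t (@Lb.fm (nat_lit 9) t1157)))))))))))
noncomputable def l16652 : Lb := (@Lb.d (nat_lit 0) (nat_lit 33) (nat_lit 4) (@Lb.g g9 (@Lb.g g10 (@Lb.g g11 (@Lb.r r679 (@Lb.r r610 (@Lb.r r1557 (@Lb.r r36 (@Lb.d (nat_lit 278) (nat_lit 37) (nat_lit 673) (@Lb.t (@Lb.fp (nat_lit 9) t3389)))))))))))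
noncomputable def l16653 : Lb := (@Lb.g g8 (@Lb.g g5 (@Lb.r r402 (@Lb.d (nat_lit 0) (nat_lit 640) (nat_lit 325) (@Lb.fm (nat_lit 3) t479)))))
noncomputable def l16654 : Lb := (@Lb.r r148 (@Lb.d (nat_lit 32) (nat_lit 290) (nat_lit 2) (@Lb.g g9 (@Lb.g g10 (@Lb.r r1288 (@Lb.r r1623 (@Lb.r r1386 (@Lb.d (nat_lit 36) (nat_lit 162) (nat_lit 417) (@Lb.fm (nat_lit 3) t3390)))))))))
noncomputable def l16655 : Lb := (@Lb.r r82 (@Lb.r r275 (@Lb.d (nat_lit 0) (nat_lit 649) (nat_lit 0) (@Lb.g g8 (@Lb.g g5 (@Lb.r r291 (@Lb.r r98 (@Lb.r r24 (@Lb.d (nat_lit 544) (nat_lit 133) (nat_lit 32) (@Lb.fm (nat_lit 3) t957))))))))))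
noncomputable def l16656 : Lb := (@Lb.r r355 (@Lb.d (nat_lit 8) (nat_lit 520) (nat_lit 34) (@Lb.g g9 (@Lb.g g10 (@Lb.r r1288 (@Lb.r r1687 (@Lb.r r1441 (@Lb.d (nat_lit 5) (nat_lit 5) (nat_lit 422) (@Lb.fp (nat_lit 3) t394)))))))))
noncomputable def l16657 : Lb := (@Lb.r r21 (@Lb.d (nat_lit 33) (nat_lit 264) (nat_lit 2) (@Lb.g g8 (@Lb.g g10 (@Lb.g g7 (@Lb.r r97 (@Lb.r r1108 (@Lb.d (nat_lit 273) (nat_lit 66) (nat_lit 1) (@Lb.t (@Lb.fm (nat_lit 9) t3388))))))))))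
noncomputable def l16658 : Lb := (@Lb.d (nat_lit 582) (nat_lit 418) (nat_lit 592) (@Lb.r r1432 (@Lb.r r2202 (@Lb.r r2459 (@Lb.g g6 (@Lb.g g9 (@Lb.d (nat_lit 8) (nat_lit 82) (nat_lit 1) (@Lb.r r387 (@Lb.fp (nat_lit 3) t3391)))))))))
noncomputable def l16659 : Lb := (@Lb.r r82 (@Lb.r r263 (@Lb.d (nat_lit 4) (nat_lit 130) (nat_lit 0) (@Lb.g g8 (@Lb.g g5 (@Lb.r r2651 (@Lb.r r386 (@Lb.r r1048 (@Lb.d (nat_lit 0) (nat_lit 65) (nat_lit 2) (@Lb.fm (nat_lit 3) t2999))))))))))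
noncomputable def l16660 : Lb := (@Lb.d (nat_lit 662) (nat_lit 0) (nat_lit 74) (@Lb.g g8 (@Lb.g g9 (@Lb.g g10 (@Lb.g g11 (@Lb.r r1707 (@Lb.r r362 (@Lb.r r2585 (@Lb.d (nat_lit 330) (nat_lit 73) (nat_lit 261) (@Lb.fm (nat_lit 9) t3392))))))))))
noncomputable def l16661 : Lb := (@Lb.d (nat_lit 644) (nat_lit 337) (nat_lit 256) (@Lb.r r1121 (@Lb.r r402 (@Lb.r r2375 (@Lb.r r2564 (@Lb.g g7 (@Lb.g g6 (@Lb.g g4 (@Lb.d (nat_lit 1) (nat_lit 0) (nat_lit 64) (@Lb.t (@Lb.fp (nat_lit 9) t3393)))))))))))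
noncomputable def l16662 : Lb := (@Lb.d (nat_lit 137) (nat_lit 512) (nat_lit 72) (@Lb.g g8 (@Lb.g g11 (@Lb.r r1378 (@Lb.r r2401 (@Lb.r r2711 (@Lb.r r1284 (@Lb.d (nat_lit 37) (nat_lit 10) (nat_lit 673) (@Lb.fm (nat_lit 3) t1952)))))))))
noncomputable def l16663 : Lb := (@Lb.d (nat_lit 4) (nat_lit 256) (nat_lit 66) (@Lb.g g8 (@Lb.g g9 (@Lb.g g10 (@Lb.g g7 (@Lb.r r386 (@Lb.r r2657 (@Lb.r r1304 (@Lb.d (nat_lit 0) (nat_lit 170) (nat_lit 165) (@Lb.fp (nat_lit 9) t3394))))))))))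
noncomputable def l16664 : Lb := (@Lb.d (nat_lit 138) (nat_lit 256) (nat_lit 72) (@Lb.g g8 (@Lb.g g11 (@Lb.r r1378 (@Lb.r r2401 (@Lb.r r2711 (@Lb.r r1284 (@Lb.d (nat_lit 292) (nat_lit 10) (nat_lit 673) (@Lb.fm (nat_lit 3) t1952)))))))))
noncomputable def l16665 : Lb := (@Lb.d (nat_lit 6) (nat_lit 288) (nat_lit 130) (@Lb.g g8 (@Lb.g g9 (@Lb.g g10 (@Lb.g g11 (@Lb.r r1627 (@Lb.r r674 (@Lb.r r612 (@Lb.r r677 (@Lb.d (nat_lit 165) (nat_lit 68) (nat_lit 1) (@Lb.fm (nat_lit 9) t1349)))))))))))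
noncomputable def l16666 : Lb := (@Lb.d (nat_lit 656) (nat_lit 288) (nat_lit 296) (@Lb.r r2658 (@Lb.r r2667 (@Lb.r r532 (@Lb.g g7 (@Lb.g g6 (@Lb.g g5 (@Lb.d (nat_lit 80) (nat_lit 129) (nat_lit 64) (@Lb.t (@Lb.fm (nat_lit 9) t3395))))))))))
noncomputable def l16667 : Lb := (@Lb.d (nat_lit 361) (nat_lit 164) (nat_lit 326) (@Lb.r r678 (@Lb.r r1701 (@Lb.r r1364 (@Lb.g g11 (@Lb.g g10 (@Lb.d (nat_lit 0) (nat_lit 4) (nat_lit 513) (@Lb.fm (nat_lit 3) t1059))))))))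
noncomputable def l16668 : Lb := (@Lb.d (nat_lit 148) (nat_lit 390) (nat_lit 265) (@Lb.r r20 (@Lb.r r97 (@Lb.r r346 (@Lb.g g7 (@Lb.g g5 (@Lb.d (nat_lit 64) (nat_lit 1) (nat_lit 584) (@Lb.fp (nat_lit 3) t3396))))))))
noncomputable def l16669 : Lb := (@Lb.d (nat_lit 0) (nat_lit 512) (nat_lit 66) (@Lb.g g10 (@Lb.g g7 (@Lb.r r386 (@Lb.r r149 (@Lb.r r2120 (@Lb.d (nat_lit 32) (nat_lit 5) (nat_lit 82) (@Lb.fp (nat_lit 3) t167))))))))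
noncomputable def l16670 : Lb := (@Lb.d (nat_lit 656) (nat_lit 554) (nat_lit 298) (@Lb.r r2658 (@Lb.r r2667 (@Lb.r r532 (@Lb.g g7 (@Lb.g g6 (@Lb.g g5 (@Lb.d (nat_lit 80) (nat_lit 129) (nat_lit 64) (@Lb.t (@Lb.fm (nat_lit 9) t2085))))))))))
noncomputable def l16671 : Lb := (@Lb.r r21 (@Lb.d (nat_lit 282) (nat_lit 512) (nat_lit 128) (@Lb.g g4 (@Lb.g g10 (@Lb.g g11 (@Lb.r r647 (@Lb.r r89 (@Lb.r r614 (@Lb.d (nat_lit 8) (nat_lit 21) (nat_lit 529) (@Lb.t (@Lb.fm (nat_lit 9) t601)))))))))))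
noncomputable def l16672 : Lb := (@Lb.d (nat_lit 128) (nat_lit 256) (nat_lit 128) (@Lb.g g9 (@Lb.g g11 (@Lb.r r264 (@Lb.r r519 (@Lb.r r402 (@Lb.r r537 (@Lb.d (nat_lit 2) (nat_lit 133) (nat_lit 385) (@Lb.fp (nat_lit 3) t1628)))))))))
noncomputable def l16673 : Lb := (@Lb.d (nat_lit 18) (nat_lit 512) (nat_lit 130) (@Lb.g g8 (@Lb.g g9 (@Lb.g g10 (@Lb.g g11 (@Lb.r r610 (@Lb.r r1640 (@Lb.r r619 (@Lb.r r609 (@Lb.d (nat_lit 73) (nat_lit 146) (nat_lit 512) (@Lb.fm (nat_lit 9) t795)))))))))))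
noncomputable def l16674 : Lb := (@Lb.r r21 (@Lb.d (nat_lit 24) (nat_lit 8) (nat_lit 128) (@Lb.g g8 (@Lb.g g10 (@Lb.g g11 (@Lb.r r427 (@Lb.r r2581 (@Lb.r r2408 (@Lb.r r2630 (@Lb.d (nat_lit 665) (nat_lit 90) (nat_lit 258) (@Lb.t (@Lb.fp (nat_lit 9) t1252))))))))))))
noncomputable def l16675 : Lb := (@Lb.d (nat_lit 4) (nat_lit 512) (nat_lit 130) (@Lb.g g8 (@Lb.g g9 (@Lb.g g10 (@Lb.g g11 (@Lb.r r516 (@Lb.r r263 (@Lb.r r2713 (@Lb.r r146 (@Lb.r r516 (@Lb.d (nat_lit 38) (nat_lit 5) (nat_lit 32) (@Lb.fm (nat_lit 9) t3052))))))))))))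
noncomputable def l16676 : Lb := (@Lb.d (nat_lit 18) (nat_lit 256) (nat_lit 128) (@Lb.g g8 (@Lb.g g9 (@Lb.g g10 (@Lb.g g11 (@Lb.r r1451 (@Lb.r r392 (@Lb.r r2138 (@Lb.r r1173 (@Lb.r r1060 (@Lb.d (nat_lit 162) (nat_lit 9) (nat_lit 646) (@Lb.fm (nat_lit 9) t400))))))))))))
noncomputable def l16677 : Lb := (@Lb.d (nat_lit 128) (nat_lit 0) (nat_lit 130) (@Lb.g g9 (@Lb.g g10 (@Lb.g g11 (@Lb.r r264 (@Lb.r r519 (@Lb.r r2713 (@Lb.r r146 (@Lb.d (nat_lit 38) (nat_lit 10) (nat_lit 418) (@Lb.t (@Lb.fp (nat_lit 9) t939)))))))))))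
noncomputable def l16678 : Lb := (@Lb.d (nat_lit 18) (nat_lit 278) (nat_lit 66) (@Lb.r r273 (@Lb.r r355 (@Lb.r r1686 (@Lb.g g5 (@Lb.g g4 (@Lb.d (nat_lit 257) (nat_lit 21) (nat_lit 0) (@Lb.r r74 (@Lb.fp (nat_lit 3) t3397)))))))))
noncomputable def l16679 : Lb := (@Lb.d (nat_lit 18) (nat_lit 256) (nat_lit 128) (@Lb.g g8 (@Lb.g g9 (@Lb.g g10 (@Lb.g g11 (@Lb.r r532 (@Lb.r r1319 (@Lb.r r357 (@Lb.r r666 (@Lb.r r2692 (@Lb.d (nat_lit 514) (nat_lit 68) (nat_lit 426) (@Lb.fp (nat_lit 9) t3398))))))))))))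
noncomputable def l16680 : Lb := (@Lb.d (nat_lit 25) (nat_lit 514) (nat_lit 128) (@Lb.g g8 (@Lb.g g9 (@Lb.g g10 (@Lb.g g11 (@Lb.r r2715 (@Lb.r r1185 (@Lb.r r1122 (@Lb.r r1624 (@Lb.d (nat_lit 105) (nat_lit 97) (nat_lit 682) (@Lb.fm (nat_lit 9) t3399)))))))))))
noncomputable def l16681 : Lb := (@Lb.d (nat_lit 616) (nat_lit 552) (nat_lit 85) (@Lb.r r404 (@Lb.r r363 (@Lb.r r273 (@Lb.g g7 (@Lb.g g10 (@Lb.g g4 (@Lb.d (nat_lit 18) (nat_lit 8) (nat_lit 66) (@Lb.r r145 (@Lb.t (@Lb.fm (nat_lit 9) t3400)))))))))))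
noncomputable def l16682 : Lb := (@Lb.d (nat_lit 261) (nat_lit 258) (nat_lit 65) (@Lb.r r1416 (@Lb.r r1386 (@Lb.r r1369 (@Lb.g g7 (@Lb.g g6 (@Lb.d (nat_lit 64) (nat_lit 32) (nat_lit 577) (@Lb.fp (nat_lit 3) t1101))))))))
noncomputable def l16683 : Lb := (@Lb.d (nat_lit 8) (nat_lit 514) (nat_lit 130) (@Lb.g g8 (@Lb.g g9 (@Lb.g g10 (@Lb.g g11 (@Lb.r r2715 (@Lb.r r161 (@Lb.r r98 (@Lb.r r2648 (@Lb.d (nat_lit 617) (nat_lit 33) (nat_lit 298) (@Lb.fm (nat_lit 9) t3401)))))))))))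
noncomputable def l16684 : Lb := (@Lb.d (nat_lit 2) (nat_lit 2) (nat_lit 130) (@Lb.g g8 (@Lb.g g9 (@Lb.g g10 (@Lb.g g11 (@Lb.r r2666 (@Lb.r r579 (@Lb.r r97 (@Lb.r r24 (@Lb.d (nat_lit 354) (nat_lit 0) (nat_lit 681) (@Lb.fm (nat_lit 9) t61)))))))))))
noncomputable def l16685 : Lb := (@Lb.r r323 (@Lb.d (nat_lit 2) (nat_lit 514) (nat_lit 2) (@Lb.g g8 (@Lb.g g9 (@Lb.g g10 (@Lb.r r1623 (@Lb.r r2154 (@Lb.r r97 (@Lb.r r24 (@Lb.d (nat_lit 258) (nat_lit 0) (nat_lit 18) (@Lb.t (@Lb.fp (nat_lit 9) t61))))))))))))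
noncomputable def l16686 : Lb := (@Lb.d (nat_lit 9) (nat_lit 257) (nat_lit 2) (@Lb.g g8 (@Lb.g g9 (@Lb.g g10 (@Lb.r r2666 (@Lb.r r579 (@Lb.r r25 (@Lb.r r24 (@Lb.d (nat_lit 6) (nat_lit 165) (nat_lit 584) (@Lb.t (@Lb.fm (nat_lit 9) t51)))))))))))
noncomputable def l16687 : Lb := (@Lb.g g5 (@Lb.g g7 (@Lb.r r402 (@Lb.r r101 (@Lb.r r24 (@Lb.d (nat_lit 529) (nat_lit 512) (nat_lit 545) (@Lb.fp (nat_lit 3) t145)))))))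
noncomputable def l16688 : Lb := (@Lb.d (nat_lit 138) (nat_lit 34) (nat_lit 10) (@Lb.g g8 (@Lb.g g9 (@Lb.g g10 (@Lb.r r1299 (@Lb.r r609 (@Lb.r r86 (@Lb.r r2212 (@Lb.d (nat_lit 160) (nat_lit 148) (nat_lit 18) (@Lb.t (@Lb.fp (nat_lit 9) t2)))))))))))
noncomputable def l16689 : Lb := (@Lb.g g5 (@Lb.g g7 (@Lb.r r1414 (@Lb.r r2145 (@Lb.r r2120 (@Lb.d (nat_lit 512) (nat_lit 512) (nat_lit 544) (@Lb.fp (nat_lit 3) t145)))))))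
noncomputable def l16690 : Lb := (@Lb.d (nat_lit 9) (nat_lit 1) (nat_lit 130) (@Lb.g g8 (@Lb.g g9 (@Lb.g g10 (@Lb.g g11 (@Lb.r r2666 (@Lb.r r579 (@Lb.r r25 (@Lb.r r24 (@Lb.d (nat_lit 6) (nat_lit 160) (nat_lit 586) (@Lb.fp (nat_lit 9) t51)))))))))))
noncomputable def l16691 : Lb := (@Lb.r r580 (@Lb.r r593 (@Lb.d (nat_lit 0) (nat_lit 8) (nat_lit 130) (@Lb.g g6 (@Lb.g g11 (@Lb.r r1425 (@Lb.r r2343 (@Lb.r r2632 (@Lb.d (nat_lit 5) (nat_lit 72) (nat_lit 32) (@Lb.fm (nat_lit 3) t428))))))))))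
noncomputable def l16692 : Lb := (@Lb.r r323 (@Lb.d (nat_lit 0) (nat_lit 514) (nat_lit 2) (@Lb.g g9 (@Lb.g g10 (@Lb.r r2210 (@Lb.r r2600 (@Lb.r r2713 (@Lb.r r1555 (@Lb.d (nat_lit 82) (nat_lit 74) (nat_lit 297) (@Lb.fp (nat_lit 3) t1371))))))))))
noncomputable def l16693 : Lb := (@Lb.d (nat_lit 0) (nat_lit 36) (nat_lit 128) (@Lb.g g9 (@Lb.g g10 (@Lb.g g11 (@Lb.r r387 (@Lb.r r2154 (@Lb.r r601 (@Lb.d (nat_lit 105) (nat_lit 20) (nat_lit 616) (@Lb.t (@Lb.fm (nat_lit 9) t3402))))))))))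
noncomputable def l16694 : Lb := (@Lb.d (nat_lit 0) (nat_lit 514) (nat_lit 130) (@Lb.g g9 (@Lb.g g10 (@Lb.g g11 (@Lb.r r2411 (@Lb.r r386 (@Lb.r r97 (@Lb.d (nat_lit 290) (nat_lit 66) (nat_lit 68) (@Lb.t (@Lb.fm (nat_lit 9) t1231))))))))))
noncomputable def l16695 : Lb := (@Lb.d (nat_lit 0) (nat_lit 38) (nat_lit 581) (@Lb.g g9 (@Lb.g g10 (@Lb.g g7 (@Lb.r r418 (@Lb.r r2088 (@Lb.r r2201 (@Lb.d (nat_lit 597) (nat_lit 4) (nat_lit 593) (@Lb.t (@Lb.fp (nat_lit 9) t3362))))))))))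
noncomputable def l16696 : Lb := (@Lb.d (nat_lit 40) (nat_lit 101) (nat_lit 64) (@Lb.g g5 (@Lb.g g10 (@Lb.g g11 (@Lb.r r667 (@Lb.r r100 (@Lb.r r410 (@Lb.d (nat_lit 546) (nat_lit 25) (nat_lit 598) (@Lb.t (@Lb.fp (nat_lit 9) t509))))))))))
noncomputable def l16697 : Lb := (@Lb.d (nat_lit 0) (nat_lit 290) (nat_lit 130) (@Lb.g g9 (@Lb.g g10 (@Lb.g g11 (@Lb.r r387 (@Lb.r r2154 (@Lb.r r601 (@Lb.d (nat_lit 105) (nat_lit 20) (nat_lit 616) (@Lb.t (@Lb.fm (nat_lit 9) t3403))))))))))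
noncomputable def l16698 : Lb := (@Lb.r r323 (@Lb.d (nat_lit 128) (nat_lit 0) (nat_lit 2) (@Lb.g g8 (@Lb.g g10 (@Lb.r r346 (@Lb.r r661 (@Lb.r r1431 (@Lb.r r2632 (@Lb.d (nat_lit 362) (nat_lit 65) (nat_lit 66) (@Lb.fp (nat_lit 3) t71))))))))))
noncomputable def l16699 : Lb := (@Lb.d (nat_lit 146) (nat_lit 292) (nat_lit 133) (@Lb.g g8 (@Lb.g g9 (@Lb.g g10 (@Lb.g g11 (@Lb.r r2731 (@Lb.r r2724 (@Lb.r r1190 (@Lb.r r1177 (@Lb.d (nat_lit 272) (nat_lit 73) (nat_lit 649) (@Lb.fp (nat_lit 9) t1014)))))))))))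
noncomputable def l16700 : Lb := (@Lb.d (nat_lit 4) (nat_lit 256) (nat_lit 73) (@Lb.g g8 (@Lb.g g9 (@Lb.g g10 (@Lb.g g11 (@Lb.r r2666 (@Lb.r r579 (@Lb.r r97 (@Lb.r r24 (@Lb.d (nat_lit 153) (nat_lit 9) (nat_lit 326) (@Lb.fm (nat_lit 9) t61)))))))))))
noncomputable def l16701 : Lb := (@Lb.r r24 (@Lb.r r101 (@Lb.d (nat_lit 1) (nat_lit 400) (nat_lit 392) (@Lb.fp (nat_lit 1) t1174))))
noncomputable def l16702 : Lb := (@Lb.r r323 (@Lb.d (nat_lit 128) (nat_lit 0) (nat_lit 2) (@Lb.g g8 (@Lb.g g10 (@Lb.r r346 (@Lb.r r661 (@Lb.r r1431 (@Lb.r r2632 (@Lb.d (nat_lit 361) (nat_lit 70) (nat_lit 64) (@Lb.fp (nat_lit 3) t71))))))))))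
noncomputable def l16703 : Lb := (@Lb.d (nat_lit 0) (nat_lit 256) (nat_lit 73) (@Lb.g g9 (@Lb.g g10 (@Lb.g g11 (@Lb.r r2691 (@Lb.r r536 (@Lb.r r1637 (@Lb.r r1690 (@Lb.r r2180 (@Lb.d (nat_lit 677) (nat_lit 161) (nat_lit 666) (@Lb.t (@Lb.fm (nat_lit 9) t1866))))))))))))
noncomputable def l16704 : Lb := (@Lb.d (nat_lit 4) (nat_lit 256) (nat_lit 130) (@Lb.g g8 (@Lb.g g9 (@Lb.g g10 (@Lb.g g11 (@Lb.r r2411 (@Lb.r r386 (@Lb.r r97 (@Lb.r r24 (@Lb.d (nat_lit 266) (nat_lit 9) (nat_lit 86) (@Lb.fm (nat_lit 9) t61)))))))))))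
noncomputable def l16705 : Lb := (@Lb.d (nat_lit 0) (nat_lit 2) (nat_lit 130) (@Lb.g g9 (@Lb.g g10 (@Lb.g g11 (@Lb.r r2691 (@Lb.r r353 (@Lb.r r146 (@Lb.r r24 (@Lb.d (nat_lit 610) (nat_lit 26) (nat_lit 324) (@Lb.t (@Lb.fm (nat_lit 9) t1832)))))))))))
noncomputable def l16706 : Lb := (@Lb.d (nat_lit 33) (nat_lit 512) (nat_lit 138) (@Lb.r r154 (@Lb.r r664 (@Lb.r r667 (@Lb.r r353 (@Lb.g g7 (@Lb.g g4 (@Lb.d (nat_lit 1) (nat_lit 0) (nat_lit 64) (@Lb.fm (nat_lit 3) t51)))))))))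
noncomputable def l16707 : Lb := (@Lb.r r275 (@Lb.d (nat_lit 9) (nat_lit 2) (nat_lit 2) (@Lb.g g8 (@Lb.g g9 (@Lb.g g10 (@Lb.r r683 (@Lb.r r2218 (@Lb.r r1380 (@Lb.r r1445 (@Lb.d (nat_lit 362) (nat_lit 161) (nat_lit 546) (@Lb.t (@Lb.fp (nat_lit 9) t2306))))))))))))
noncomputable def l16708 : Lb := (@Lb.d (nat_lit 33) (nat_lit 512) (nat_lit 138) (@Lb.r r154 (@Lb.r r664 (@Lb.r r667 (@Lb.r r353 (@Lb.g g7 (@Lb.g g6 (@Lb.g g4 (@Lb.d (nat_lit 1) (nat_lit 0) (nat_lit 64) (@Lb.t (@Lb.fp (nat_lit 9) t51)))))))))))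
noncomputable def l16709 : Lb := (@Lb.d (nat_lit 9) (nat_lit 1) (nat_lit 2) (@Lb.g g8 (@Lb.g g9 (@Lb.g g10 (@Lb.g g11 (@Lb.r r683 (@Lb.r r680 (@Lb.r r170 (@Lb.r r145 (@Lb.r r36 (@Lb.d (nat_lit 0) (nat_lit 69) (nat_lit 136) (@Lb.fm (nat_lit 9) t51))))))))))))
noncomputable def l16710 : Lb := (@Lb.d (nat_lit 0) (nat_lit 258) (nat_lit 130) (@Lb.g g9 (@Lb.g g10 (@Lb.g g11 (@Lb.r r427 (@Lb.r r420 (@Lb.r r2438 (@Lb.r r97 (@Lb.d (nat_lit 401) (nat_lit 73) (nat_lit 164) (@Lb.t (@Lb.fm (nat_lit 9) t188)))))))))))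
noncomputable def l16711 : Lb := (@Lb.r r21 (@Lb.r r263 (@Lb.d (nat_lit 16) (nat_lit 0) (nat_lit 0) (@Lb.g g8 (@Lb.g g10 (@Lb.r r2212 (@Lb.r r101 (@Lb.r r402 (@Lb.r r2627 (@Lb.d (nat_lit 2) (nat_lit 146) (nat_lit 640) (@Lb.fp (nat_lit 3) t3404)))))))))))
noncomputable def l16712 : Lb := (@Lb.d (nat_lit 337) (nat_lit 550) (nat_lit 337) (@Lb.r r2324 (@Lb.r r617 (@Lb.r r1387 (@Lb.g g10 (@Lb.g g5 (@Lb.g g4 (@Lb.d (nat_lit 65) (nat_lit 6) (nat_lit 20) (@Lb.t (@Lb.fp (nat_lit 9) t2086))))))))))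
noncomputable def l16713 : Lb := (@Lb.r r21 (@Lb.r r263 (@Lb.d (nat_lit 17) (nat_lit 256) (nat_lit 0) (@Lb.g g8 (@Lb.g g10 (@Lb.r r2212 (@Lb.r r101 (@Lb.r r402 (@Lb.r r2627 (@Lb.d (nat_lit 0) (nat_lit 146) (nat_lit 640) (@Lb.fp (nat_lit 3) t644)))))))))))
noncomputable def l16714 : Lb := (@Lb.d (nat_lit 98) (nat_lit 166) (nat_lit 32) (@Lb.r r408 (@Lb.r r330 (@Lb.r r343 (@Lb.g g5 (@Lb.g g4 (@Lb.d (nat_lit 17) (nat_lit 4) (nat_lit 0) (@Lb.r r291 (@Lb.r r98 (@Lb.fp (nat_lit 3) t50))))))))))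
noncomputable def l16715 : Lb := (@Lb.d (nat_lit 665) (nat_lit 600) (nat_lit 274) (@Lb.r r101 (@Lb.r r579 (@Lb.g g7 (@Lb.g g10 (@Lb.d (nat_lit 0) (nat_lit 8) (nat_lit 150) (@Lb.fp (nat_lit 3) t1161)))))))
noncomputable def l16716 : Lb := (@Lb.d (nat_lit 8) (nat_lit 514) (nat_lit 73) (@Lb.g g8 (@Lb.g g9 (@Lb.g g10 (@Lb.g g11 (@Lb.r r2691 (@Lb.r r2345 (@Lb.r r360 (@Lb.r r582 (@Lb.r r2180 (@Lb.d (nat_lit 641) (nat_lit 10) (nat_lit 89) (@Lb.fm (nat_lit 9) t242))))))))))))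
noncomputable def l16717 : Lb := (@Lb.d (nat_lit 660) (nat_lit 90) (nat_lit 274) (@Lb.r r101 (@Lb.r r579 (@Lb.g g7 (@Lb.g g10 (@Lb.d (nat_lit 0) (nat_lit 8) (nat_lit 150) (@Lb.fp (nat_lit 3) t1161)))))))
noncomputable def l16718 : Lb := (@Lb.d (nat_lit 2) (nat_lit 514) (nat_lit 130) (@Lb.g g8 (@Lb.g g9 (@Lb.g g10 (@Lb.g g11 (@Lb.r r1130 (@Lb.r r356 (@Lb.r r411 (@Lb.r r533 (@Lb.r r2084 (@Lb.d (nat_lit 161) (nat_lit 10) (nat_lit 353) (@Lb.fp (nat_lit 9) t145))))))))))))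
noncomputable def l16719 : Lb := (@Lb.d (nat_lit 129) (nat_lit 4) (nat_lit 74) (@Lb.g g8 (@Lb.g g9 (@Lb.g g10 (@Lb.g g11 (@Lb.r r683 (@Lb.r r2724 (@Lb.r r1158 (@Lb.r r97 (@Lb.d (nat_lit 33) (nat_lit 105) (nat_lit 673) (@Lb.fm (nat_lit 9) t1144)))))))))))
noncomputable def l16720 : Lb := (@Lb.r r21 (@Lb.d (nat_lit 137) (nat_lit 256) (nat_lit 258) (@Lb.g g8 (@Lb.g g10 (@Lb.g g7 (@Lb.r r410 (@Lb.r r2149 (@Lb.r r1172 (@Lb.d (nat_lit 294) (nat_lit 168) (nat_lit 546) (@Lb.t (@Lb.fp (nat_lit 9) t58)))))))))))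
noncomputable def l16721 : Lb := (@Lb.r r24 (@Lb.r r101 (@Lb.d (nat_lit 0) (nat_lit 666) (nat_lit 266) (@Lb.fp (nat_lit 1) t1174))))
noncomputable def l16722 : Lb := (@Lb.d (nat_lit 129) (nat_lit 516) (nat_lit 128) (@Lb.g g8 (@Lb.g g9 (@Lb.g g10 (@Lb.g g11 (@Lb.r r683 (@Lb.r r2724 (@Lb.r r1158 (@Lb.r r97 (@Lb.d (nat_lit 33) (nat_lit 105) (nat_lit 673) (@Lb.fm (nat_lit 9) t1144)))))))))))
noncomputable def l16723 : Lb := (@Lb.d (nat_lit 8) (nat_lit 520) (nat_lit 128) (@Lb.g g8 (@Lb.g g10 (@Lb.g g11 (@Lb.r r403 (@Lb.r r2085 (@Lb.r r1624 (@Lb.r r1350 (@Lb.d (nat_lit 338) (nat_lit 68) (nat_lit 69) (@Lb.t (@Lb.fm (nat_lit 9) t322)))))))))))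
noncomputable def l16724 : Lb := (@Lb.d (nat_lit 0) (nat_lit 18) (nat_lit 10) (@Lb.r r322 (@Lb.r r339 (@Lb.g g7 (@Lb.g g6 (@Lb.g g5 (@Lb.g g8 (@Lb.d (nat_lit 5) (nat_lit 1) (nat_lit 136) (@Lb.fm (nat_lit 9) t607)))))))))
noncomputable def l16725 : Lb := (@Lb.d (nat_lit 0) (nat_lit 256) (nat_lit 10) (@Lb.g g10 (@Lb.g g7 (@Lb.r r402 (@Lb.r r2145 (@Lb.r r36 (@Lb.d (nat_lit 5) (nat_lit 33) (nat_lit 640) (@Lb.fp (nat_lit 3) t940))))))))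
noncomputable def l16726 : Lb := (@Lb.d (nat_lit 578) (nat_lit 21) (nat_lit 420) (@Lb.r r2068 (@Lb.r r345 (@Lb.r r20 (@Lb.r r2659 (@Lb.g g7 (@Lb.g g6 (@Lb.g g5 (@Lb.g g4 (@Lb.d (nat_lit 152) (nat_lit 24) (nat_lit 136) (@Lb.fm (nat_lit 9) t445)))))))))))
noncomputable def l16727 : Lb := (@Lb.d (nat_lit 9) (nat_lit 257) (nat_lit 64) (@Lb.g g8 (@Lb.g g9 (@Lb.g g11 (@Lb.r r2327 (@Lb.r r162 (@Lb.r r145 (@Lb.r r1608 (@Lb.d (nat_lit 106) (nat_lit 70) (nat_lit 664) (@Lb.t (@Lb.fm (nat_lit 9) t1082)))))))))))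
noncomputable def l16728 : Lb := (@Lb.d (nat_lit 657) (nat_lit 1) (nat_lit 288) (@Lb.r r24 (@Lb.r r1319 (@Lb.g g5 (@Lb.d (nat_lit 4) (nat_lit 1) (nat_lit 0) (@Lb.t (@Lb.fp (nat_lit 3) t3405)))))))
noncomputable def l16729 : Lb := (@Lb.d (nat_lit 166) (nat_lit 550) (nat_lit 133) (@Lb.g g8 (@Lb.g g9 (@Lb.g g10 (@Lb.g g11 (@Lb.r r1698 (@Lb.r r2439 (@Lb.r r1365 (@Lb.r r1608 (@Lb.d (nat_lit 320) (nat_lit 9) (nat_lit 681) (@Lb.fp (nat_lit 9) t3406)))))))))))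
noncomputable def l16730 : Lb := (@Lb.r r331 (@Lb.d (nat_lit 1) (nat_lit 514) (nat_lit 2) (@Lb.g g8 (@Lb.g g9 (@Lb.g g10 (@Lb.r r2347 (@Lb.r r1130 (@Lb.r r2152 (@Lb.r r25 (@Lb.d (nat_lit 97) (nat_lit 154) (nat_lit 41) (@Lb.t (@Lb.fp (nat_lit 9) t3407))))))))))))
noncomputable def l16731 : Lb := (@Lb.r r331 (@Lb.d (nat_lit 672) (nat_lit 2) (nat_lit 2) (@Lb.g g8 (@Lb.g g9 (@Lb.g g10 (@Lb.r r362 (@Lb.r r1411 (@Lb.r r25 (@Lb.d (nat_lit 9) (nat_lit 32) (nat_lit 618) (@Lb.t (@Lb.fm (nat_lit 9) t898)))))))))))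
noncomputable def l16732 : Lb := (@Lb.r r601 (@Lb.d (nat_lit 161) (nat_lit 256) (nat_lit 25) (@Lb.g g8 (@Lb.g g6 (@Lb.g g11 (@Lb.r r2455 (@Lb.r r1365 (@Lb.r r2728 (@Lb.d (nat_lit 72) (nat_lit 17) (nat_lit 422) (@Lb.t (@Lb.fm (nat_lit 9) t3406)))))))))))
noncomputable def l16733 : Lb := (@Lb.d (nat_lit 130) (nat_lit 4) (nat_lit 128) (@Lb.g g8 (@Lb.g g9 (@Lb.g g10 (@Lb.g g11 (@Lb.r r2690 (@Lb.r r2455 (@Lb.r r97 (@Lb.r r2584 (@Lb.d (nat_lit 616) (nat_lit 169) (nat_lit 417) (@Lb.fm (nat_lit 9) t3408)))))))))))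
noncomputable def l16734 : Lb := (@Lb.d (nat_lit 9) (nat_lit 321) (nat_lit 73) (@Lb.g g8 (@Lb.g g5 (@Lb.g g10 (@Lb.g g11 (@Lb.r r148 (@Lb.r r2630 (@Lb.r r579 (@Lb.r r132 (@Lb.d (nat_lit 658) (nat_lit 96) (nat_lit 293) (@Lb.fp (nat_lit 9) t3409)))))))))))
noncomputable def l16735 : Lb := (@Lb.d (nat_lit 130) (nat_lit 2) (nat_lit 130) (@Lb.g g8 (@Lb.g g9 (@Lb.g g10 (@Lb.g g11 (@Lb.r r419 (@Lb.r r2154 (@Lb.r r100 (@Lb.r r405 (@Lb.r r2084 (@Lb.d (nat_lit 617) (nat_lit 21) (nat_lit 678) (@Lb.fp (nat_lit 9) t1039))))))))))))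
noncomputable def l16736 : Lb := (@Lb.d (nat_lit 0) (nat_lit 0) (nat_lit 73) (@Lb.g g9 (@Lb.g g10 (@Lb.g g11 (@Lb.r r2691 (@Lb.r r2213 (@Lb.r r2658 (@Lb.r r1096 (@Lb.d (nat_lit 640) (nat_lit 160) (nat_lit 136) (@Lb.t (@Lb.fp (nat_lit 9) t3410)))))))))))
noncomputable def l16737 : Lb := (@Lb.d (nat_lit 0) (nat_lit 256) (nat_lit 130) (@Lb.g g9 (@Lb.g g10 (@Lb.g g11 (@Lb.r r614 (@Lb.r r404 (@Lb.r r619 (@Lb.r r609 (@Lb.d (nat_lit 9) (nat_lit 153) (nat_lit 2) (@Lb.t (@Lb.fm (nat_lit 9) t71)))))))))))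
noncomputable def l16738 : Lb := (@Lb.r r82 (@Lb.d (nat_lit 2) (nat_lit 2) (nat_lit 128) (@Lb.g g8 (@Lb.g g9 (@Lb.g g11 (@Lb.r r2659 (@Lb.r r386 (@Lb.r r1176 (@Lb.r r2213 (@Lb.d (nat_lit 602) (nat_lit 165) (nat_lit 544) (@Lb.t (@Lb.fm (nat_lit 9) t1515))))))))))))
noncomputable def l16739 : Lb := (@Lb.d (nat_lit 150) (nat_lit 85) (nat_lit 326) (@Lb.r r405 (@Lb.r r1643 (@Lb.g g10 (@Lb.g g5 (@Lb.g g4 (@Lb.d (nat_lit 8) (nat_lit 0) (nat_lit 33) (@Lb.r r403 (@Lb.t (@Lb.fp (nat_lit 9) t918))))))))))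
noncomputable def l16740 : Lb := (@Lb.d (nat_lit 0) (nat_lit 512) (nat_lit 2) (@Lb.g g10 (@Lb.g g11 (@Lb.r r2193 (@Lb.r r146 (@Lb.d (nat_lit 0) (nat_lit 72) (nat_lit 33) (@Lb.fp (nat_lit 3) t1404)))))))
noncomputable def l16741 : Lb := (@Lb.d (nat_lit 150) (nat_lit 597) (nat_lit 326) (@Lb.r r405 (@Lb.r r1643 (@Lb.g g10 (@Lb.g g5 (@Lb.g g4 (@Lb.d (nat_lit 1) (nat_lit 1) (nat_lit 33) (@Lb.r r403 (@Lb.t (@Lb.fp (nat_lit 9) t918))))))))))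
noncomputable def l16742 : Lb := (@Lb.d (nat_lit 128) (nat_lit 649) (nat_lit 161) (@Lb.g g5 (@Lb.g g6 (@Lb.g g11 (@Lb.r r264 (@Lb.r r391 (@Lb.d (nat_lit 97) (nat_lit 25) (nat_lit 280) (@Lb.t (@Lb.fp (nat_lit 9) t1549)))))))))
noncomputable def l16743 : Lb := (@Lb.d (nat_lit 2) (nat_lit 521) (nat_lit 1) (@Lb.g g8 (@Lb.g g9 (@Lb.g g10 (@Lb.g g11 (@Lb.r r1706 (@Lb.r r680 (@Lb.r r555 (@Lb.r r1553 (@Lb.r r2084 (@Lb.d (nat_lit 10) (nat_lit 97) (nat_lit 586) (@Lb.fm (nat_lit 9) t594))))))))))))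
noncomputable def l16744 : Lb := (@Lb.d (nat_lit 390) (nat_lit 406) (nat_lit 594) (@Lb.r r2325 (@Lb.r r2390 (@Lb.r r2731 (@Lb.g g7 (@Lb.g g6 (@Lb.g g5 (@Lb.g g4 (@Lb.d (nat_lit 1) (nat_lit 5) (nat_lit 68) (@Lb.fm (nat_lit 9) t2488))))))))))
noncomputable def l16745 : Lb := (@Lb.d (nat_lit 2) (nat_lit 393) (nat_lit 161) (@Lb.g g8 (@Lb.g g5 (@Lb.g g6 (@Lb.g g11 (@Lb.r r532 (@Lb.r r2311 (@Lb.r r1540 (@Lb.d (nat_lit 1) (nat_lit 96) (nat_lit 674) (@Lb.fp (nat_lit 9) t1038))))))))))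
noncomputable def l16746 : Lb := (@Lb.d (nat_lit 2) (nat_lit 514) (nat_lit 2) (@Lb.g g8 (@Lb.g g9 (@Lb.g g10 (@Lb.g g11 (@Lb.r r1706 (@Lb.r r2443 (@Lb.r r1177 (@Lb.r r2436 (@Lb.d (nat_lit 105) (nat_lit 2) (nat_lit 666) (@Lb.fm (nat_lit 9) t1082)))))))))))
noncomputable def l16747 : Lb := (@Lb.r r82 (@Lb.d (nat_lit 1) (nat_lit 514) (nat_lit 128) (@Lb.g g8 (@Lb.g g9 (@Lb.g g11 (@Lb.r r299 (@Lb.r r1416 (@Lb.r r1098 (@Lb.d (nat_lit 8) (nat_lit 65) (nat_lit 105) (@Lb.t (@Lb.fp (nat_lit 9) t1684)))))))))))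
noncomputable def l16748 : Lb := (@Lb.d (nat_lit 1) (nat_lit 2) (nat_lit 73) (@Lb.g g8 (@Lb.g g9 (@Lb.g g10 (@Lb.g g11 (@Lb.r r427 (@Lb.r r145 (@Lb.r r356 (@Lb.r r154 (@Lb.r r132 (@Lb.d (nat_lit 282) (nat_lit 9) (nat_lit 169) (@Lb.fm (nat_lit 9) t61))))))))))))
noncomputable def l16749 : Lb := (@Lb.d (nat_lit 390) (nat_lit 256) (nat_lit 69) (@Lb.r r1543 (@Lb.r r2372 (@Lb.r r1178 (@Lb.g g6 (@Lb.g g9 (@Lb.g g4 (@Lb.d (nat_lit 6) (nat_lit 25) (nat_lit 0) (@Lb.r r291 (@Lb.t (@Lb.fm (nat_lit 9) t381)))))))))))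
noncomputable def l16750 : Lb := (@Lb.d (nat_lit 2) (nat_lit 74) (nat_lit 69) (@Lb.r r354 (@Lb.r r1427 (@Lb.g g6 (@Lb.g g9 (@Lb.d (nat_lit 8) (nat_lit 9) (nat_lit 4) (@Lb.fp (nat_lit 3) t3411)))))))
noncomputable def l16751 : Lb := (@Lb.d (nat_lit 1) (nat_lit 2) (nat_lit 2) (@Lb.g g8 (@Lb.g g9 (@Lb.g g10 (@Lb.g g11 (@Lb.r r2666 (@Lb.r r2664 (@Lb.r r2585 (@Lb.r r2651 (@Lb.d (nat_lit 361) (nat_lit 73) (nat_lit 134) (@Lb.fp (nat_lit 9) t2459)))))))))))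
noncomputable def l16752 : Lb := (@Lb.r r275 (@Lb.d (nat_lit 0) (nat_lit 0) (nat_lit 2) (@Lb.g g9 (@Lb.g g10 (@Lb.r r1634 (@Lb.r r1603 (@Lb.r r293 (@Lb.r r24 (@Lb.d (nat_lit 514) (nat_lit 10) (nat_lit 2) (@Lb.fp (nat_lit 3) t933))))))))))
noncomputable def l16753 : Lb := (@Lb.d (nat_lit 610) (nat_lit 280) (nat_lit 548) (@Lb.r r1608 (@Lb.r r1625 (@Lb.r r2651 (@Lb.g g7 (@Lb.g g10 (@Lb.g g4 (@Lb.d (nat_lit 18) (nat_lit 4) (nat_lit 82) (@Lb.r r25 (@Lb.t (@Lb.fm (nat_lit 9) t820)))))))))))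
noncomputable def l16754 : Lb := (@Lb.r r355 (@Lb.d (nat_lit 2) (nat_lit 514) (nat_lit 2) (@Lb.g g8 (@Lb.g g9 (@Lb.g g10 (@Lb.r r1636 (@Lb.r r519 (@Lb.r r1442 (@Lb.r r1441 (@Lb.d (nat_lit 0) (nat_lit 18) (nat_lit 105) (@Lb.t (@Lb.fp (nat_lit 9) t937))))))))))))
noncomputable def l16755 : Lb := (@Lb.d (nat_lit 537) (nat_lit 262) (nat_lit 2) (@Lb.r r2641 (@Lb.r r279 (@Lb.r r584 (@Lb.g g6 (@Lb.g g5 (@Lb.d (nat_lit 20) (nat_lit 1) (nat_lit 1) (@Lb.r r387 (@Lb.fp (nat_lit 3) t1023)))))))))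
noncomputable def l16756 : Lb := (@Lb.d (nat_lit 10) (nat_lit 256) (nat_lit 73) (@Lb.g g8 (@Lb.g g10 (@Lb.g g11 (@Lb.r r1381 (@Lb.r r1691 (@Lb.r r1178 (@Lb.r r2584 (@Lb.d (nat_lit 280) (nat_lit 2) (nat_lit 544) (@Lb.t (@Lb.fm (nat_lit 9) t521)))))))))))
noncomputable def l16757 : Lb := (@Lb.d (nat_lit 537) (nat_lit 325) (nat_lit 2) (@Lb.r r2641 (@Lb.r r279 (@Lb.r r584 (@Lb.g g6 (@Lb.g g5 (@Lb.d (nat_lit 16) (nat_lit 0) (nat_lit 1) (@Lb.r r387 (@Lb.fp (nat_lit 3) t1023)))))))))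
noncomputable def l16758 : Lb := (@Lb.r r86 (@Lb.d (nat_lit 129) (nat_lit 514) (nat_lit 64) (@Lb.g g8 (@Lb.g g9 (@Lb.g g11 (@Lb.r r1611 (@Lb.r r1410 (@Lb.r r1364 (@Lb.r r1049 (@Lb.d (nat_lit 265) (nat_lit 72) (nat_lit 330) (@Lb.t (@Lb.fm (nat_lit 9) t3412))))))))))))
noncomputable def l16759 : Lb := (@Lb.d (nat_lit 512) (nat_lit 640) (nat_lit 106) (@Lb.r r613 (@Lb.r r280 (@Lb.r r402 (@Lb.g g11 (@Lb.d (nat_lit 128) (nat_lit 16) (nat_lit 576) (@Lb.r r578 (@Lb.r r529 (@Lb.t (@Lb.fm (nat_lit 3) t819))))))))))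
noncomputable def l16760 : Lb := (@Lb.d (nat_lit 10) (nat_lit 0) (nat_lit 73) (@Lb.g g8 (@Lb.g g10 (@Lb.g g11 (@Lb.r r1381 (@Lb.r r1691 (@Lb.r r1178 (@Lb.r r2584 (@Lb.d (nat_lit 281) (nat_lit 2) (nat_lit 544) (@Lb.t (@Lb.fm (nat_lit 9) t521)))))))))))
noncomputable def l16761 : Lb := (@Lb.d (nat_lit 0) (nat_lit 258) (nat_lit 0) (@Lb.g g8 (@Lb.g g9 (@Lb.r r1122 (@Lb.r r25 (@Lb.r r24 (@Lb.d (nat_lit 353) (nat_lit 0) (nat_lit 528) (@Lb.fp (nat_lit 3) t49))))))))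
noncomputable def l16762 : Lb := (@Lb.d (nat_lit 130) (nat_lit 514) (nat_lit 0) (@Lb.g g8 (@Lb.g g9 (@Lb.r r263 (@Lb.r r1430 (@Lb.r r2665 (@Lb.r r548 (@Lb.d (nat_lit 164) (nat_lit 18) (nat_lit 161) (@Lb.fm (nat_lit 3) t3071)))))))))
noncomputable def l16763 : Lb := (@Lb.r r322 (@Lb.d (nat_lit 66) (nat_lit 512) (nat_lit 392) (@Lb.g g8 (@Lb.g g9 (@Lb.g g11 (@Lb.r r1426 (@Lb.r r664 (@Lb.r r2661 (@Lb.d (nat_lit 256) (nat_lit 32) (nat_lit 256) (@Lb.t (@Lb.fp (nat_lit 9) t3413)))))))))))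
noncomputable def l16764 : Lb := (@Lb.r r101 (@Lb.d (nat_lit 261) (nat_lit 344) (nat_lit 282) (@Lb.fm (nat_lit 1) t3106)))
noncomputable def l16765 : Lb := (@Lb.r r273 (@Lb.r r322 (@Lb.d (nat_lit 64) (nat_lit 544) (nat_lit 384) (@Lb.g g7 (@Lb.r r402 (@Lb.r r280 (@Lb.r r613 (@Lb.d (nat_lit 256) (nat_lit 64) (nat_lit 149) (@Lb.t (@Lb.fp (nat_lit 3) t3414))))))))))
noncomputable def l16766 : Lb := (@Lb.r r101 (@Lb.d (nat_lit 261) (nat_lit 81) (nat_lit 280) (@Lb.fm (nat_lit 1) t3106)))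
noncomputable def l16767 : Lb := (@Lb.d (nat_lit 128) (nat_lit 258) (nat_lit 0) (@Lb.g g8 (@Lb.g g9 (@Lb.r r263 (@Lb.r r1430 (@Lb.r r2665 (@Lb.r r548 (@Lb.d (nat_lit 164) (nat_lit 18) (nat_lit 161) (@Lb.fm (nat_lit 3) t3071)))))))))
noncomputable def l16768 : Lb := (@Lb.d (nat_lit 130) (nat_lit 32) (nat_lit 0) (@Lb.g g4 (@Lb.g g9 (@Lb.r r267 (@Lb.r r2178 (@Lb.r r2468 (@Lb.r r1189 (@Lb.d (nat_lit 362) (nat_lit 100) (nat_lit 400) (@Lb.fp (nat_lit 3) t1561)))))))))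
noncomputable def l16769 : Lb := (@Lb.r r134 (@Lb.r r324 (@Lb.r r411 (@Lb.r r609 (@Lb.r r36 (@Lb.d (nat_lit 10) (nat_lit 66) (nat_lit 85) (@Lb.fp (nat_lit 1) t479)))))))
noncomputable def l16770 : Lb := (@Lb.d (nat_lit 2) (nat_lit 289) (nat_lit 130) (@Lb.g g8 (@Lb.g g9 (@Lb.g g10 (@Lb.g g11 (@Lb.r r427 (@Lb.r r388 (@Lb.r r1110 (@Lb.r r1169 (@Lb.r r1060 (@Lb.d (nat_lit 550) (nat_lit 37) (nat_lit 416) (@Lb.fp (nat_lit 9) t3415))))))))))))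
noncomputable def l16771 : Lb := (@Lb.r r283 (@Lb.d (nat_lit 6) (nat_lit 512) (nat_lit 2) (@Lb.g g8 (@Lb.g g9 (@Lb.g g10 (@Lb.r r2459 (@Lb.r r98 (@Lb.r r297 (@Lb.r r420 (@Lb.d (nat_lit 361) (nat_lit 102) (nat_lit 138) (@Lb.t (@Lb.fp (nat_lit 9) t3416))))))))))))
noncomputable def l16772 : Lb := (@Lb.d (nat_lit 8) (nat_lit 2) (nat_lit 0) (@Lb.g g9 (@Lb.r r2343 (@Lb.r r2150 (@Lb.d (nat_lit 266) (nat_lit 1) (nat_lit 64) (@Lb.t (@Lb.fp (nat_lit 3) t3417)))))))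
noncomputable def l16773 : Lb := (@Lb.r r82 (@Lb.r r275 (@Lb.d (nat_lit 8) (nat_lit 258) (nat_lit 0) (@Lb.g g5 (@Lb.r r1128 (@Lb.r r2150 (@Lb.r r2641 (@Lb.r r2451 (@Lb.d (nat_lit 2) (nat_lit 80) (nat_lit 2) (@Lb.t (@Lb.fp (nat_lit 3) t3418)))))))))))
noncomputable def l16774 : Lb := (@Lb.d (nat_lit 146) (nat_lit 2) (nat_lit 128) (@Lb.g g8 (@Lb.g g9 (@Lb.g g10 (@Lb.g g11 (@Lb.r r1287 (@Lb.r r2713 (@Lb.r r2712 (@Lb.r r2650 (@Lb.d (nat_lit 354) (nat_lit 100) (nat_lit 681) (@Lb.fm (nat_lit 9) t1643)))))))))))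
noncomputable def l16775 : Lb := (@Lb.d (nat_lit 145) (nat_lit 514) (nat_lit 73) (@Lb.g g8 (@Lb.g g9 (@Lb.g g10 (@Lb.g g11 (@Lb.r r610 (@Lb.r r2667 (@Lb.r r97 (@Lb.r r1540 (@Lb.d (nat_lit 390) (nat_lit 1) (nat_lit 642) (@Lb.fp (nat_lit 9) t1965)))))))))))
noncomputable def l16776 : Lb := (@Lb.d (nat_lit 404) (nat_lit 421) (nat_lit 650) (@Lb.r r1432 (@Lb.r r2069 (@Lb.r r330 (@Lb.r r2395 (@Lb.g g5 (@Lb.g g4 (@Lb.d (nat_lit 22) (nat_lit 0) (nat_lit 0) (@Lb.fp (nat_lit 3) t3419)))))))))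
noncomputable def l16777 : Lb := (@Lb.d (nat_lit 1) (nat_lit 66) (nat_lit 128) (@Lb.g g4 (@Lb.g g9 (@Lb.g g10 (@Lb.g g11 (@Lb.r r595 (@Lb.r r674 (@Lb.d (nat_lit 1) (nat_lit 26) (nat_lit 132) (@Lb.fm (nat_lit 9) t51)))))))))
noncomputable def l16778 : Lb := (@Lb.r r82 (@Lb.d (nat_lit 8) (nat_lit 0) (nat_lit 128) (@Lb.g g9 (@Lb.g g11 (@Lb.r r1368 (@Lb.r r2727 (@Lb.r r2438 (@Lb.r r357 (@Lb.d (nat_lit 644) (nat_lit 162) (nat_lit 72) (@Lb.fm (nat_lit 3) t3420))))))))))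
noncomputable def l16779 : Lb := (@Lb.d (nat_lit 128) (nat_lit 265) (nat_lit 130) (@Lb.g g9 (@Lb.g g10 (@Lb.g g11 (@Lb.r r586 (@Lb.r r2212 (@Lb.r r2597 (@Lb.r r611 (@Lb.d (nat_lit 672) (nat_lit 9) (nat_lit 5) (@Lb.t (@Lb.fm (nat_lit 9) t2953)))))))))))
noncomputable def l16780 : Lb := (@Lb.r r82 (@Lb.d (nat_lit 1) (nat_lit 0) (nat_lit 128) (@Lb.g g4 (@Lb.g g9 (@Lb.g g11 (@Lb.r r2643 (@Lb.r r1698 (@Lb.r r1617 (@Lb.d (nat_lit 0) (nat_lit 0) (nat_lit 660) (@Lb.t (@Lb.fp (nat_lit 9) t1250)))))))))))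
noncomputable def l16781 : Lb := (@Lb.d (nat_lit 601) (nat_lit 681) (nat_lit 389) (@Lb.r r596 (@Lb.r r583 (@Lb.r r1434 (@Lb.g g6 (@Lb.g g5 (@Lb.g g4 (@Lb.d (nat_lit 65) (nat_lit 38) (nat_lit 1) (@Lb.t (@Lb.fp (nat_lit 9) t3421))))))))))
noncomputable def l16782 : Lb := (@Lb.d (nat_lit 0) (nat_lit 9) (nat_lit 130) (@Lb.g g9 (@Lb.g g10 (@Lb.g g11 (@Lb.r r2347 (@Lb.r r2661 (@Lb.r r328 (@Lb.r r614 (@Lb.d (nat_lit 617) (nat_lit 153) (nat_lit 325) (@Lb.t (@Lb.fm (nat_lit 9) t173)))))))))))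
noncomputable def l16783 : Lb := (@Lb.r r82 (@Lb.d (nat_lit 41) (nat_lit 522) (nat_lit 128) (@Lb.g g8 (@Lb.g g9 (@Lb.g g11 (@Lb.r r1158 (@Lb.r r596 (@Lb.r r1623 (@Lb.r r2453 (@Lb.d (nat_lit 657) (nat_lit 70) (nat_lit 106) (@Lb.t (@Lb.fm (nat_lit 9) t3419))))))))))))
noncomputable def l16784 : Lb := (@Lb.d (nat_lit 0) (nat_lit 516) (nat_lit 146) (@Lb.g g10 (@Lb.g g11 (@Lb.r r1419 (@Lb.r r1557 (@Lb.r r1416 (@Lb.d (nat_lit 260) (nat_lit 69) (nat_lit 2) (@Lb.fp (nat_lit 3) t1215))))))))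
noncomputable def l16785 : Lb := (@Lb.d (nat_lit 1) (nat_lit 514) (nat_lit 137) (@Lb.g g8 (@Lb.g g9 (@Lb.g g10 (@Lb.g g11 (@Lb.r r2691 (@Lb.r r297 (@Lb.r r360 (@Lb.r r582 (@Lb.r r2180 (@Lb.d (nat_lit 641) (nat_lit 5) (nat_lit 328) (@Lb.fm (nat_lit 9) t242))))))))))))
noncomputable def l16786 : Lb := (@Lb.d (nat_lit 0) (nat_lit 0) (nat_lit 145) (@Lb.g g10 (@Lb.g g11 (@Lb.r r1419 (@Lb.r r1557 (@Lb.r r1416 (@Lb.d (nat_lit 529) (nat_lit 0) (nat_lit 17) (@Lb.fp (nat_lit 3) t1743))))))))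
noncomputable def l16787 : Lb := (@Lb.d (nat_lit 1) (nat_lit 258) (nat_lit 137) (@Lb.g g8 (@Lb.g g9 (@Lb.g g10 (@Lb.g g11 (@Lb.r r1675 (@Lb.r r145 (@Lb.r r594 (@Lb.r r1169 (@Lb.r r36 (@Lb.d (nat_lit 297) (nat_lit 160) (nat_lit 585) (@Lb.fm (nat_lit 9) t3422))))))))))))
noncomputable def l16788 : Lb := (@Lb.d (nat_lit 8) (nat_lit 2) (nat_lit 137) (@Lb.g g9 (@Lb.g g10 (@Lb.g g11 (@Lb.r r1671 (@Lb.r r2376 (@Lb.r r1366 (@Lb.r r409 (@Lb.d (nat_lit 386) (nat_lit 137) (nat_lit 585) (@Lb.t (@Lb.fm (nat_lit 9) t3422)))))))))))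
noncomputable def l16789 : Lb := (@Lb.d (nat_lit 578) (nat_lit 418) (nat_lit 330) (@Lb.r r2329 (@Lb.r r2452 (@Lb.r r1702 (@Lb.r r1443 (@Lb.g g7 (@Lb.g g6 (@Lb.g g5 (@Lb.d (nat_lit 0) (nat_lit 16) (nat_lit 65) (@Lb.t (@Lb.fm (nat_lit 9) t1436)))))))))))
noncomputable def l16790 : Lb := (@Lb.r r263 (@Lb.d (nat_lit 38) (nat_lit 32) (nat_lit 1) (@Lb.g g8 (@Lb.g g9 (@Lb.g g10 (@Lb.r r1675 (@Lb.r r1194 (@Lb.r r1384 (@Lb.r r1369 (@Lb.d (nat_lit 585) (nat_lit 154) (nat_lit 337) (@Lb.t (@Lb.fp (nat_lit 9) t3423))))))))))))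
noncomputable def l16791 : Lb := (@Lb.d (nat_lit 0) (nat_lit 640) (nat_lit 1) (@Lb.r r24 (@Lb.r r37 (@Lb.r r386 (@Lb.r r1639 (@Lb.g g5 (@Lb.g g8 (@Lb.r r291 (@Lb.r r98 (@Lb.fp (nat_lit 3) t842))))))))))
noncomputable def l16792 : Lb := (@Lb.r r273 (@Lb.r r322 (@Lb.d (nat_lit 2) (nat_lit 32) (nat_lit 0) (@Lb.g g8 (@Lb.g g11 (@Lb.r r1381 (@Lb.r r146 (@Lb.d (nat_lit 656) (nat_lit 80) (nat_lit 529) (@Lb.fm (nat_lit 3) t475)))))))))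
noncomputable def l16793 : Lb := (@Lb.d (nat_lit 0) (nat_lit 0) (nat_lit 128) (@Lb.g g8 (@Lb.g g9 (@Lb.g g11 (@Lb.r r548 (@Lb.r r295 (@Lb.r r2178 (@Lb.r r405 (@Lb.r r2596 (@Lb.d (nat_lit 610) (nat_lit 136) (nat_lit 529) (@Lb.t (@Lb.fp (nat_lit 9) t1561))))))))))))
noncomputable def l16794 : Lb := (@Lb.r r283 (@Lb.d (nat_lit 146) (nat_lit 0) (nat_lit 2) (@Lb.g g8 (@Lb.g g9 (@Lb.g g10 (@Lb.r r98 (@Lb.r r1385 (@Lb.r r1559 (@Lb.r r420 (@Lb.d (nat_lit 96) (nat_lit 36) (nat_lit 10) (@Lb.t (@Lb.fm (nat_lit 9) t3424))))))))))))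
noncomputable def l16795 : Lb := (@Lb.d (nat_lit 517) (nat_lit 646) (nat_lit 2) (@Lb.r r101 (@Lb.r r2403 (@Lb.g g6 (@Lb.d (nat_lit 0) (nat_lit 4) (nat_lit 1) (@Lb.t (@Lb.fp (nat_lit 3) t759)))))))
noncomputable def l16796 : Lb := (@Lb.d (nat_lit 390) (nat_lit 592) (nat_lit 609) (@Lb.r r2584 (@Lb.r r2178 (@Lb.r r2587 (@Lb.g g7 (@Lb.g g9 (@Lb.g g4 (@Lb.d (nat_lit 1) (nat_lit 70) (nat_lit 64) (@Lb.t (@Lb.fp (nat_lit 9) t3425))))))))))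
noncomputable def l16797 : Lb := (@Lb.d (nat_lit 390) (nat_lit 80) (nat_lit 609) (@Lb.r r2584 (@Lb.r r2178 (@Lb.r r2587 (@Lb.g g7 (@Lb.g g9 (@Lb.g g4 (@Lb.d (nat_lit 0) (nat_lit 70) (nat_lit 64) (@Lb.t (@Lb.fp (nat_lit 9) t3425))))))))))
noncomputable def l16798 : Lb := (@Lb.d (nat_lit 384) (nat_lit 512) (nat_lit 256) (@Lb.r r2120 (@Lb.r r106 (@Lb.r r601 (@Lb.r r1559 (@Lb.g g8 (@Lb.r r74 (@Lb.r r25 (@Lb.t (@Lb.fp (nat_lit 3) t3420))))))))))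
noncomputable def l16799 : Lb := (@Lb.d (nat_lit 4) (nat_lit 518) (nat_lit 0) (@Lb.g g9 (@Lb.r r1126 (@Lb.r r24 (@Lb.d (nat_lit 21) (nat_lit 129) (nat_lit 33) (@Lb.t (@Lb.fm (nat_lit 3) t3426)))))))
noncomputable def l16800 : Lb := (@Lb.d (nat_lit 10) (nat_lit 581) (nat_lit 129) (@Lb.r r1317 (@Lb.r r24 (@Lb.r r74 (@Lb.r r2371 (@Lb.g g10 (@Lb.r r387 (@Lb.t (@Lb.fp (nat_lit 3) t1727)))))))))
noncomputable def l16801 : Lb := (@Lb.g g10 (@Lb.g g7 (@Lb.r r402 (@Lb.r r24 (@Lb.r r101 (@Lb.d (nat_lit 101) (nat_lit 640) (nat_lit 320) (@Lb.fm (nat_lit 3) t1628)))))))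
noncomputable def l16802 : Lb := (@Lb.d (nat_lit 8) (nat_lit 2) (nat_lit 64) (@Lb.g g9 (@Lb.g g10 (@Lb.g g11 (@Lb.r r1315 (@Lb.r r2626 (@Lb.d (nat_lit 2) (nat_lit 104) (nat_lit 642) (@Lb.t (@Lb.fm (nat_lit 9) t51)))))))))
noncomputable def l16803 : Lb := (@Lb.g g9 (@Lb.r r89 (@Lb.r r1126 (@Lb.r r24 (@Lb.d (nat_lit 26) (nat_lit 128) (nat_lit 0) (@Lb.t (@Lb.fm (nat_lit 3) t3426)))))))
noncomputable def l16804 : Lb := (@Lb.r r82 (@Lb.d (nat_lit 41) (nat_lit 514) (nat_lit 136) (@Lb.g g8 (@Lb.g g9 (@Lb.g g11 (@Lb.r r2386 (@Lb.r r1621 (@Lb.r r356 (@Lb.r r587 (@Lb.d (nat_lit 81) (nat_lit 22) (nat_lit 133) (@Lb.t (@Lb.fp (nat_lit 9) t580))))))))))))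
noncomputable def l16805 : Lb := (@Lb.d (nat_lit 8) (nat_lit 4) (nat_lit 0) (@Lb.g g9 (@Lb.g g10 (@Lb.g g7 (@Lb.r r386 (@Lb.r r24 (@Lb.d (nat_lit 617) (nat_lit 130) (nat_lit 537) (@Lb.t (@Lb.fp (nat_lit 9) t3427)))))))))
noncomputable def l16806 : Lb := (@Lb.r r82 (@Lb.d (nat_lit 8) (nat_lit 514) (nat_lit 128) (@Lb.g g8 (@Lb.g g9 (@Lb.g g11 (@Lb.r r667 (@Lb.r r1689 (@Lb.r r146 (@Lb.r r2628 (@Lb.d (nat_lit 680) (nat_lit 64) (nat_lit 394) (@Lb.t (@Lb.fm (nat_lit 9) t3428))))))))))))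
noncomputable def l16807 : Lb := (@Lb.d (nat_lit 8) (nat_lit 2) (nat_lit 68) (@Lb.g g9 (@Lb.g g7 (@Lb.r r24 (@Lb.d (nat_lit 9) (nat_lit 130) (nat_lit 70) (@Lb.fm (nat_lit 3) t2))))))
noncomputable def l16808 : Lb := (@Lb.d (nat_lit 34) (nat_lit 4) (nat_lit 130) (@Lb.g g8 (@Lb.g g9 (@Lb.g g6 (@Lb.g g11 (@Lb.r r1643 (@Lb.r r97 (@Lb.r r1560 (@Lb.d (nat_lit 73) (nat_lit 98) (nat_lit 641) (@Lb.fp (nat_lit 9) t3429))))))))))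
noncomputable def l16809 : Lb := (@Lb.d (nat_lit 546) (nat_lit 517) (nat_lit 16) (@Lb.g g10 (@Lb.g g5 (@Lb.fp (nat_lit 3) t2127))))
noncomputable def l16810 : Lb := (@Lb.d (nat_lit 33) (nat_lit 294) (nat_lit 66) (@Lb.g g8 (@Lb.g g9 (@Lb.g g10 (@Lb.g g11 (@Lb.r r1706 (@Lb.r r676 (@Lb.r r1575 (@Lb.r r2577 (@Lb.d (nat_lit 581) (nat_lit 96) (nat_lit 602) (@Lb.fp (nat_lit 9) t2408)))))))))))
noncomputable def l16811 : Lb := (@Lb.d (nat_lit 32) (nat_lit 261) (nat_lit 144) (@Lb.g g5 (@Lb.g g10 (@Lb.g g11 (@Lb.r r387 (@Lb.d (nat_lit 514) (nat_lit 0) (nat_lit 9) (@Lb.t (@Lb.fp (nat_lit 9) t3430))))))))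
noncomputable def l16812 : Lb := (@Lb.d (nat_lit 8) (nat_lit 258) (nat_lit 0) (@Lb.g g9 (@Lb.r r1319 (@Lb.r r24 (@Lb.d (nat_lit 521) (nat_lit 130) (nat_lit 0) (@Lb.t (@Lb.fm (nat_lit 3) t441)))))))
noncomputable def l16813 : Lb := (@Lb.r r323 (@Lb.d (nat_lit 2) (nat_lit 2) (nat_lit 32) (@Lb.g g8 (@Lb.g g9 (@Lb.g g10 (@Lb.r r2713 (@Lb.r r2587 (@Lb.r r2564 (@Lb.d (nat_lit 673) (nat_lit 0) (nat_lit 360) (@Lb.t (@Lb.fp (nat_lit 9) t1775)))))))))))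
noncomputable def l16814 : Lb := (@Lb.r r82 (@Lb.r r275 (@Lb.d (nat_lit 4) (nat_lit 394) (nat_lit 0) (@Lb.g g8 (@Lb.g g5 (@Lb.r r291 (@Lb.r r98 (@Lb.r r1096 (@Lb.d (nat_lit 546) (nat_lit 69) (nat_lit 0) (@Lb.fm (nat_lit 3) t299))))))))))
noncomputable def l16815 : Lb := (@Lb.d (nat_lit 145) (nat_lit 514) (nat_lit 128) (@Lb.g g8 (@Lb.g g9 (@Lb.g g10 (@Lb.g g11 (@Lb.r r683 (@Lb.r r2410 (@Lb.r r1561 (@Lb.r r1540 (@Lb.d (nat_lit 389) (nat_lit 152) (nat_lit 5) (@Lb.fm (nat_lit 9) t1051)))))))))))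
noncomputable def l16816 : Lb := (@Lb.d (nat_lit 2) (nat_lit 406) (nat_lit 320) (@Lb.r r2308 (@Lb.r r97 (@Lb.r r1291 (@Lb.r r404 (@Lb.g g7 (@Lb.g g10 (@Lb.g g5 (@Lb.g g4 (@Lb.d (nat_lit 1) (nat_lit 1) (nat_lit 81) (@Lb.fp (nat_lit 9) t1018)))))))))))
noncomputable def l16817 : Lb := (@Lb.d (nat_lit 145) (nat_lit 514) (nat_lit 128) (@Lb.g g8 (@Lb.g g9 (@Lb.g g10 (@Lb.g g11 (@Lb.r r683 (@Lb.r r2410 (@Lb.r r1561 (@Lb.r r1540 (@Lb.d (nat_lit 393) (nat_lit 153) (nat_lit 5) (@Lb.fm (nat_lit 9) t531)))))))))))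
noncomputable def l16818 : Lb := (@Lb.d (nat_lit 17) (nat_lit 2) (nat_lit 128) (@Lb.g g8 (@Lb.g g9 (@Lb.g g10 (@Lb.g g11 (@Lb.r r1703 (@Lb.r r2597 (@Lb.r r660 (@Lb.r r2118 (@Lb.r r132 (@Lb.d (nat_lit 521) (nat_lit 32) (nat_lit 609) (@Lb.fp (nat_lit 9) t220))))))))))))
noncomputable def l16819 : Lb := (@Lb.d (nat_lit 10) (nat_lit 1) (nat_lit 129) (@Lb.g g8 (@Lb.g g9 (@Lb.g g10 (@Lb.g g11 (@Lb.r r1642 (@Lb.r r2667 (@Lb.r r97 (@Lb.r r2584 (@Lb.d (nat_lit 585) (nat_lit 169) (nat_lit 422) (@Lb.fm (nat_lit 9) t3431)))))))))))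
noncomputable def l16820 : Lb := (@Lb.r r322 (@Lb.d (nat_lit 0) (nat_lit 289) (nat_lit 516) (@Lb.g g8 (@Lb.g g9 (@Lb.g g7 (@Lb.r r418 (@Lb.r r1169 (@Lb.r r1096 (@Lb.d (nat_lit 549) (nat_lit 10) (nat_lit 65) (@Lb.t (@Lb.fp (nat_lit 9) t3432)))))))))))
noncomputable def l16821 : Lb := (@Lb.r r322 (@Lb.d (nat_lit 0) (nat_lit 545) (nat_lit 516) (@Lb.g g8 (@Lb.g g9 (@Lb.g g7 (@Lb.r r418 (@Lb.r r1169 (@Lb.r r1096 (@Lb.d (nat_lit 544) (nat_lit 9) (nat_lit 65) (@Lb.t (@Lb.fp (nat_lit 9) t3433)))))))))))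
noncomputable def l16822 : Lb := (@Lb.d (nat_lit 34) (nat_lit 514) (nat_lit 128) (@Lb.g g8 (@Lb.g g9 (@Lb.g g11 (@Lb.r r406 (@Lb.r r1643 (@Lb.r r1640 (@Lb.r r25 (@Lb.d (nat_lit 514) (nat_lit 154) (nat_lit 546) (@Lb.t (@Lb.fp (nat_lit 9) t564)))))))))))
noncomputable def l16823 : Lb := (@Lb.d (nat_lit 0) (nat_lit 258) (nat_lit 128) (@Lb.g g8 (@Lb.g g9 (@Lb.g g11 (@Lb.r r2454 (@Lb.r r2667 (@Lb.r r97 (@Lb.r r2584 (@Lb.d (nat_lit 585) (nat_lit 169) (nat_lit 38) (@Lb.t (@Lb.fm (nat_lit 9) t3431)))))))))))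
noncomputable def l16824 : Lb := (@Lb.r r322 (@Lb.d (nat_lit 34) (nat_lit 33) (nat_lit 516) (@Lb.g g8 (@Lb.g g9 (@Lb.g g7 (@Lb.r r418 (@Lb.r r297 (@Lb.r r1384 (@Lb.d (nat_lit 402) (nat_lit 169) (nat_lit 293) (@Lb.t (@Lb.fm (nat_lit 9) t512)))))))))))
noncomputable def l16825 : Lb := (@Lb.r r323 (@Lb.d (nat_lit 24) (nat_lit 265) (nat_lit 33) (@Lb.g g9 (@Lb.g g6 (@Lb.r r2339 (@Lb.d (nat_lit 266) (nat_lit 70) (nat_lit 1) (@Lb.fp (nat_lit 3) t58)))))))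
noncomputable def l16826 : Lb := (@Lb.d (nat_lit 545) (nat_lit 649) (nat_lit 33) (@Lb.r r2644 (@Lb.r r2375 (@Lb.r r594 (@Lb.g g6 (@Lb.g g5 (@Lb.g g4 (@Lb.d (nat_lit 0) (nat_lit 17) (nat_lit 1) (@Lb.r r387 (@Lb.t (@Lb.fp (nat_lit 9) t2597)))))))))))
noncomputable def l16827 : Lb := (@Lb.d (nat_lit 533) (nat_lit 137) (nat_lit 33) (@Lb.r r2150 (@Lb.r r101 (@Lb.r r2403 (@Lb.g g6 (@Lb.d (nat_lit 0) (nat_lit 4) (nat_lit 1) (@Lb.t (@Lb.fp (nat_lit 3) t2708))))))))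
noncomputable def l16828 : Lb := (@Lb.d (nat_lit 128) (nat_lit 521) (nat_lit 130) (@Lb.g g9 (@Lb.g g10 (@Lb.g g11 (@Lb.r r586 (@Lb.r r2212 (@Lb.r r2597 (@Lb.r r611 (@Lb.d (nat_lit 682) (nat_lit 8) (nat_lit 5) (@Lb.t (@Lb.fm (nat_lit 9) t800)))))))))))
noncomputable def l16829 : Lb := (@Lb.d (nat_lit 9) (nat_lit 288) (nat_lit 130) (@Lb.g g8 (@Lb.g g9 (@Lb.g g10 (@Lb.g g11 (@Lb.r r2666 (@Lb.r r2657 (@Lb.r r1315 (@Lb.d (nat_lit 521) (nat_lit 166) (nat_lit 518) (@Lb.fm (nat_lit 9) t495))))))))))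
noncomputable def l16830 : Lb := (@Lb.r r21 (@Lb.d (nat_lit 2) (nat_lit 8) (nat_lit 74) (@Lb.g g8 (@Lb.g g10 (@Lb.g g11 (@Lb.r r2731 (@Lb.r r2341 (@Lb.r r596 (@Lb.r r1418 (@Lb.d (nat_lit 665) (nat_lit 149) (nat_lit 520) (@Lb.t (@Lb.fp (nat_lit 9) t51))))))))))))
noncomputable def l16831 : Lb := (@Lb.d (nat_lit 406) (nat_lit 390) (nat_lit 356) (@Lb.r r2438 (@Lb.r r1620 (@Lb.r r2345 (@Lb.r r1351 (@Lb.g g7 (@Lb.g g6 (@Lb.g g4 (@Lb.d (nat_lit 1) (nat_lit 4) (nat_lit 8) (@Lb.t (@Lb.fp (nat_lit 9) t284)))))))))))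
noncomputable def l16832 : Lb := (@Lb.d (nat_lit 70) (nat_lit 2) (nat_lit 65) (@Lb.r r263 (@Lb.r r580 (@Lb.r r410 (@Lb.g g7 (@Lb.g g5 (@Lb.d (nat_lit 64) (nat_lit 1) (nat_lit 68) (@Lb.r r98 (@Lb.fp (nat_lit 3) t242)))))))))
noncomputable def l16833 : Lb := (@Lb.r r21 (@Lb.r r323 (@Lb.d (nat_lit 138) (nat_lit 512) (nat_lit 0) (@Lb.g g8 (@Lb.g g10 (@Lb.r r2458 (@Lb.r r2661 (@Lb.r r2727 (@Lb.r r1384 (@Lb.d (nat_lit 678) (nat_lit 133) (nat_lit 517) (@Lb.fm (nat_lit 3) t51)))))))))))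
noncomputable def l16834 : Lb := (@Lb.d (nat_lit 2) (nat_lit 514) (nat_lit 73) (@Lb.g g8 (@Lb.g g9 (@Lb.g g10 (@Lb.g g11 (@Lb.r r2691 (@Lb.r r297 (@Lb.r r360 (@Lb.r r582 (@Lb.r r2180 (@Lb.d (nat_lit 648) (nat_lit 9) (nat_lit 329) (@Lb.fm (nat_lit 9) t1412))))))))))))
noncomputable def l16835 : Lb := (@Lb.d (nat_lit 65) (nat_lit 512) (nat_lit 678) (@Lb.r r24 (@Lb.r r386 (@Lb.r r2587 (@Lb.r r341 (@Lb.g g7 (@Lb.g g6 (@Lb.d (nat_lit 0) (nat_lit 0) (nat_lit 129) (@Lb.fp (nat_lit 3) t1255)))))))))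
noncomputable def l16836 : Lb := (@Lb.d (nat_lit 294) (nat_lit 646) (nat_lit 17) (@Lb.r r1170 (@Lb.r r2401 (@Lb.r r1687 (@Lb.g g6 (@Lb.g g8 (@Lb.d (nat_lit 33) (nat_lit 0) (nat_lit 0) (@Lb.r r25 (@Lb.fm (nat_lit 3) t320)))))))))
noncomputable def l16837 : Lb := (@Lb.d (nat_lit 0) (nat_lit 0) (nat_lit 136) (@Lb.g g11 (@Lb.r r402 (@Lb.r r101 (@Lb.r r24 (@Lb.d (nat_lit 2) (nat_lit 0) (nat_lit 0) (@Lb.t (@Lb.fm (nat_lit 3) t145))))))))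
noncomputable def l16838 : Lb := (@Lb.d (nat_lit 528) (nat_lit 546) (nat_lit 0) (@Lb.g g8 (@Lb.g g9 (@Lb.r r1363 (@Lb.r r2178 (@Lb.r r2657 (@Lb.d (nat_lit 530) (nat_lit 90) (nat_lit 168) (@Lb.fm (nat_lit 3) t229))))))))
noncomputable def l16839 : Lb := (@Lb.d (nat_lit 2) (nat_lit 0) (nat_lit 0) (@Lb.g g8 (@Lb.r r617 (@Lb.r r2595 (@Lb.r r2178 (@Lb.r r529 (@Lb.d (nat_lit 274) (nat_lit 10) (nat_lit 18) (@Lb.t (@Lb.fm (nat_lit 3) t64)))))))))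
noncomputable def l16840 : Lb := (@Lb.d (nat_lit 136) (nat_lit 256) (nat_lit 384) (@Lb.g g8 (@Lb.g g11 (@Lb.r r661 (@Lb.r r2404 (@Lb.d (nat_lit 602) (nat_lit 138) (nat_lit 642) (@Lb.fm (nat_lit 3) t412)))))))
noncomputable def l16841 : Lb := (@Lb.d (nat_lit 2) (nat_lit 512) (nat_lit 0) (@Lb.g g8 (@Lb.r r617 (@Lb.r r2595 (@Lb.r r2178 (@Lb.r r529 (@Lb.d (nat_lit 274) (nat_lit 0) (nat_lit 16) (@Lb.t (@Lb.fm (nat_lit 3) t64)))))))))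
noncomputable def l16842 : Lb := (@Lb.d (nat_lit 25) (nat_lit 341) (nat_lit 34) (@Lb.r r1384 (@Lb.r r150 (@Lb.r r361 (@Lb.g g11 (@Lb.g g5 (@Lb.g g4 (@Lb.d (nat_lit 17) (nat_lit 1) (nat_lit 384) (@Lb.r r578 (@Lb.t (@Lb.fp (nat_lit 9) t1444)))))))))))
noncomputable def l16843 : Lb := (@Lb.d (nat_lit 665) (nat_lit 677) (nat_lit 129) (@Lb.r r2660 (@Lb.r r1637 (@Lb.r r346 (@Lb.g g11 (@Lb.g g4 (@Lb.d (nat_lit 22) (nat_lit 0) (nat_lit 128) (@Lb.fm (nat_lit 3) t322))))))))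
noncomputable def l16844 : Lb := (@Lb.d (nat_lit 138) (nat_lit 512) (nat_lit 0) (@Lb.g g8 (@Lb.r r1621 (@Lb.r r2391 (@Lb.r r2178 (@Lb.r r2664 (@Lb.d (nat_lit 85) (nat_lit 90) (nat_lit 290) (@Lb.t (@Lb.fp (nat_lit 3) t100)))))))))
noncomputable def l16845 : Lb := (@Lb.d (nat_lit 10) (nat_lit 512) (nat_lit 0) (@Lb.g g8 (@Lb.r r277 (@Lb.r r2603 (@Lb.r r2178 (@Lb.r r2596 (@Lb.d (nat_lit 394) (nat_lit 82) (nat_lit 261) (@Lb.t (@Lb.fp (nat_lit 3) t421)))))))))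
noncomputable def l16846 : Lb := (@Lb.r r277 (@Lb.r r2603 (@Lb.r r2178 (@Lb.r r2577 (@Lb.r r36 (@Lb.d (nat_lit 522) (nat_lit 258) (nat_lit 69) (@Lb.fp (nat_lit 1) t421)))))))
noncomputable def l16847 : Lb := (@Lb.r r82 (@Lb.d (nat_lit 0) (nat_lit 352) (nat_lit 0) (@Lb.g g5 (@Lb.g g11 (@Lb.r r531 (@Lb.r r98 (@Lb.d (nat_lit 0) (nat_lit 162) (nat_lit 128) (@Lb.fm (nat_lit 3) t144))))))))
noncomputable def l16848 : Lb := (@Lb.d (nat_lit 9) (nat_lit 265) (nat_lit 4) (@Lb.g g8 (@Lb.g g9 (@Lb.g g10 (@Lb.g g11 (@Lb.r r1699 (@Lb.r r1429 (@Lb.r r356 (@Lb.r r154 (@Lb.d (nat_lit 409) (nat_lit 10) (nat_lit 601) (@Lb.fp (nat_lit 9) t525)))))))))))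
noncomputable def l16849 : Lb := (@Lb.d (nat_lit 9) (nat_lit 514) (nat_lit 132) (@Lb.g g8 (@Lb.g g9 (@Lb.g g10 (@Lb.g g7 (@Lb.r r2730 (@Lb.r r1433 (@Lb.r r2436 (@Lb.d (nat_lit 105) (nat_lit 97) (nat_lit 610) (@Lb.fp (nat_lit 9) t918))))))))))
noncomputable def l16850 : Lb := (@Lb.r r323 (@Lb.d (nat_lit 2) (nat_lit 546) (nat_lit 2) (@Lb.g g8 (@Lb.g g9 (@Lb.g g10 (@Lb.r r599 (@Lb.r r74 (@Lb.r r296 (@Lb.r r409 (@Lb.d (nat_lit 152) (nat_lit 36) (nat_lit 132) (@Lb.t (@Lb.fm (nat_lit 9) t51))))))))))))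
noncomputable def l16851 : Lb := (@Lb.d (nat_lit 136) (nat_lit 0) (nat_lit 64) (@Lb.g g9 (@Lb.g g11 (@Lb.r r152 (@Lb.r r2405 (@Lb.r r1555 (@Lb.r r2178 (@Lb.d (nat_lit 128) (nat_lit 161) (nat_lit 169) (@Lb.fm (nat_lit 3) t1561)))))))))
noncomputable def l16852 : Lb := (@Lb.d (nat_lit 146) (nat_lit 265) (nat_lit 73) (@Lb.g g8 (@Lb.g g9 (@Lb.g g10 (@Lb.g g11 (@Lb.r r599 (@Lb.r r1706 (@Lb.r r1636 (@Lb.r r2581 (@Lb.d (nat_lit 677) (nat_lit 41) (nat_lit 262) (@Lb.fp (nat_lit 9) t3434)))))))))))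
noncomputable def l16853 : Lb := (@Lb.r r327 (@Lb.d (nat_lit 0) (nat_lit 553) (nat_lit 2) (@Lb.g g8 (@Lb.g g9 (@Lb.g g10 (@Lb.r r1363 (@Lb.r r1194 (@Lb.r r1188 (@Lb.r r1685 (@Lb.d (nat_lit 421) (nat_lit 153) (nat_lit 614) (@Lb.t (@Lb.fp (nat_lit 9) t3435))))))))))))
noncomputable def l16854 : Lb := (@Lb.d (nat_lit 0) (nat_lit 8) (nat_lit 130) (@Lb.g g8 (@Lb.g g10 (@Lb.g g11 (@Lb.r r353 (@Lb.r r2707 (@Lb.r r1174 (@Lb.r r1608 (@Lb.d (nat_lit 425) (nat_lit 161) (nat_lit 674) (@Lb.t (@Lb.fm (nat_lit 9) t282)))))))))))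
noncomputable def l16855 : Lb := (@Lb.d (nat_lit 102) (nat_lit 262) (nat_lit 593) (@Lb.r r24 (@Lb.r r97 (@Lb.r r2666 (@Lb.r r2475 (@Lb.g g7 (@Lb.g g6 (@Lb.g g5 (@Lb.d (nat_lit 0) (nat_lit 1) (nat_lit 72) (@Lb.t (@Lb.fp (nat_lit 9) t928)))))))))))
noncomputable def l16856 : Lb := (@Lb.d (nat_lit 0) (nat_lit 514) (nat_lit 66) (@Lb.g g8 (@Lb.g g9 (@Lb.g g10 (@Lb.g g7 (@Lb.r r682 (@Lb.r r2457 (@Lb.r r2436 (@Lb.d (nat_lit 617) (nat_lit 161) (nat_lit 610) (@Lb.fp (nat_lit 9) t918))))))))))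
noncomputable def l16857 : Lb := (@Lb.d (nat_lit 98) (nat_lit 512) (nat_lit 613) (@Lb.r r24 (@Lb.r r1690 (@Lb.r r667 (@Lb.r r1317 (@Lb.g g11 (@Lb.g g10 (@Lb.fm (nat_lit 3) t3436))))))))
noncomputable def l16858 : Lb := (@Lb.d (nat_lit 134) (nat_lit 2) (nat_lit 73) (@Lb.g g8 (@Lb.g g9 (@Lb.g g10 (@Lb.g g11 (@Lb.r r1443 (@Lb.r r2726 (@Lb.r r344 (@Lb.r r1429 (@Lb.r r2084 (@Lb.d (nat_lit 104) (nat_lit 166) (nat_lit 641) (@Lb.fp (nat_lit 9) t163))))))))))))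
noncomputable def l16859 : Lb := (@Lb.d (nat_lit 66) (nat_lit 512) (nat_lit 593) (@Lb.r r24 (@Lb.r r101 (@Lb.r r2658 (@Lb.r r2467 (@Lb.g g7 (@Lb.g g6 (@Lb.g g5 (@Lb.d (nat_lit 0) (nat_lit 0) (nat_lit 72) (@Lb.t (@Lb.fp (nat_lit 9) t475)))))))))))
noncomputable def l16860 : Lb := (@Lb.r r82 (@Lb.d (nat_lit 134) (nat_lit 34) (nat_lit 64) (@Lb.g g8 (@Lb.g g9 (@Lb.g g11 (@Lb.r r599 (@Lb.r r2390 (@Lb.r r2641 (@Lb.r r2120 (@Lb.d (nat_lit 132) (nat_lit 81) (nat_lit 98) (@Lb.t (@Lb.fm (nat_lit 9) t1964))))))))))))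
noncomputable def l16861 : Lb := (@Lb.d (nat_lit 128) (nat_lit 544) (nat_lit 64) (@Lb.g g11 (@Lb.r r356 (@Lb.r r2405 (@Lb.r r2650 (@Lb.r r1627 (@Lb.d (nat_lit 164) (nat_lit 101) (nat_lit 666) (@Lb.t (@Lb.fp (nat_lit 3) t1079)))))))))
noncomputable def l16862 : Lb := (@Lb.r r327 (@Lb.d (nat_lit 34) (nat_lit 260) (nat_lit 0) (@Lb.g g8 (@Lb.g g9 (@Lb.g g10 (@Lb.r r683 (@Lb.r r1194 (@Lb.r r1177 (@Lb.r r1156 (@Lb.d (nat_lit 297) (nat_lit 1) (nat_lit 2) (@Lb.t (@Lb.fm (nat_lit 9) t1833))))))))))))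
noncomputable def l16863 : Lb := (@Lb.d (nat_lit 10) (nat_lit 522) (nat_lit 128) (@Lb.g g8 (@Lb.g g9 (@Lb.g g11 (@Lb.r r1643 (@Lb.r r82 (@Lb.r r161 (@Lb.r r1608 (@Lb.d (nat_lit 102) (nat_lit 4) (nat_lit 537) (@Lb.t (@Lb.fp (nat_lit 9) t1165)))))))))))
noncomputable def l16864 : Lb := (@Lb.d (nat_lit 9) (nat_lit 258) (nat_lit 130) (@Lb.g g8 (@Lb.g g9 (@Lb.g g10 (@Lb.g g11 (@Lb.r r1579 (@Lb.r r1641 (@Lb.r r2454 (@Lb.r r1608 (@Lb.d (nat_lit 105) (nat_lit 1) (nat_lit 537) (@Lb.fp (nat_lit 9) t1165)))))))))))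
noncomputable def l16865 : Lb := (@Lb.r r82 (@Lb.d (nat_lit 2) (nat_lit 545) (nat_lit 64) (@Lb.g g8 (@Lb.g g9 (@Lb.g g11 (@Lb.r r1543 (@Lb.r r2152 (@Lb.r r2438 (@Lb.r r1361 (@Lb.d (nat_lit 5) (nat_lit 4) (nat_lit 345) (@Lb.t (@Lb.fp (nat_lit 9) t2301))))))))))))
noncomputable def l16866 : Lb := (@Lb.d (nat_lit 545) (nat_lit 522) (nat_lit 296) (@Lb.r r1670 (@Lb.r r2388 (@Lb.r r361 (@Lb.r r1683 (@Lb.g g6 (@Lb.g g5 (@Lb.g g4 (@Lb.d (nat_lit 1) (nat_lit 16) (nat_lit 4) (@Lb.t (@Lb.fm (nat_lit 9) t3437)))))))))))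
noncomputable def l16867 : Lb := (@Lb.d (nat_lit 409) (nat_lit 169) (nat_lit 585) (@Lb.r r2475 (@Lb.r r1446 (@Lb.r r2469 (@Lb.r r596 (@Lb.g g7 (@Lb.d (nat_lit 64) (nat_lit 16) (nat_lit 68) (@Lb.t (@Lb.fm (nat_lit 3) t3438)))))))))
noncomputable def l16868 : Lb := (@Lb.d (nat_lit 4) (nat_lit 1) (nat_lit 130) (@Lb.g g8 (@Lb.g g9 (@Lb.g g10 (@Lb.g g11 (@Lb.r r2435 (@Lb.r r1686 (@Lb.r r1640 (@Lb.r r1705 (@Lb.d (nat_lit 289) (nat_lit 149) (nat_lit 408) (@Lb.fm (nat_lit 9) t2118)))))))))))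
noncomputable def l16869 : Lb := (@Lb.d (nat_lit 530) (nat_lit 278) (nat_lit 353) (@Lb.r r153 (@Lb.r r1688 (@Lb.r r2379 (@Lb.g g7 (@Lb.g g6 (@Lb.g g5 (@Lb.g g4 (@Lb.d (nat_lit 6) (nat_lit 16) (nat_lit 98) (@Lb.fm (nat_lit 9) t1095))))))))))
noncomputable def l16870 : Lb := (@Lb.d (nat_lit 4) (nat_lit 520) (nat_lit 128) (@Lb.g g8 (@Lb.g g9 (@Lb.g g11 (@Lb.r r1572 (@Lb.r r1319 (@Lb.r r1626 (@Lb.r r1429 (@Lb.d (nat_lit 612) (nat_lit 20) (nat_lit 274) (@Lb.t (@Lb.fm (nat_lit 9) t3300)))))))))))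
noncomputable def l16871 : Lb := (@Lb.d (nat_lit 134) (nat_lit 256) (nat_lit 73) (@Lb.g g8 (@Lb.g g9 (@Lb.g g10 (@Lb.g g11 (@Lb.r r419 (@Lb.r r1702 (@Lb.r r344 (@Lb.r r1429 (@Lb.r r1060 (@Lb.d (nat_lit 617) (nat_lit 166) (nat_lit 401) (@Lb.fp (nat_lit 9) t1039))))))))))))
noncomputable def l16872 : Lb := (@Lb.d (nat_lit 128) (nat_lit 2) (nat_lit 130) (@Lb.g g9 (@Lb.g g10 (@Lb.g g11 (@Lb.r r264 (@Lb.r r2599 (@Lb.r r2666 (@Lb.r r2657 (@Lb.d (nat_lit 598) (nat_lit 96) (nat_lit 134) (@Lb.t (@Lb.fp (nat_lit 9) t1994)))))))))))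
noncomputable def l16873 : Lb := (@Lb.d (nat_lit 4) (nat_lit 512) (nat_lit 66) (@Lb.g g8 (@Lb.g g9 (@Lb.g g10 (@Lb.g g7 (@Lb.r r386 (@Lb.r r2153 (@Lb.r r360 (@Lb.d (nat_lit 165) (nat_lit 42) (nat_lit 657) (@Lb.fp (nat_lit 9) t3147))))))))))
noncomputable def l16874 : Lb := (@Lb.d (nat_lit 2) (nat_lit 530) (nat_lit 137) (@Lb.g g8 (@Lb.g g5 (@Lb.g g10 (@Lb.g g11 (@Lb.r r411 (@Lb.r r2458 (@Lb.r r2436 (@Lb.d (nat_lit 104) (nat_lit 129) (nat_lit 514) (@Lb.fp (nat_lit 9) t3439))))))))))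
noncomputable def l16875 : Lb := (@Lb.r r1307 (@Lb.r r1114 (@Lb.r r41 (@Lb.r r24 (@Lb.d (nat_lit 262) (nat_lit 0) (nat_lit 0) (@Lb.fp (nat_lit 1) t284))))))
noncomputable def l16876 : Lb := (@Lb.d (nat_lit 2) (nat_lit 330) (nat_lit 362) (@Lb.r r1317 (@Lb.r r2395 (@Lb.r r614 (@Lb.g g7 (@Lb.g g8 (@Lb.d (nat_lit 10) (nat_lit 0) (nat_lit 64) (@Lb.fm (nat_lit 3) t3440))))))))
noncomputable def l16877 : Lb := (@Lb.d (nat_lit 160) (nat_lit 8) (nat_lit 128) (@Lb.g g10 (@Lb.g g11 (@Lb.r r260 (@Lb.r r2667 (@Lb.r r1633 (@Lb.r r338 (@Lb.d (nat_lit 536) (nat_lit 85) (nat_lit 673) (@Lb.fm (nat_lit 3) t465)))))))))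
noncomputable def l16878 : Lb := (@Lb.d (nat_lit 105) (nat_lit 290) (nat_lit 656) (@Lb.r r2379 (@Lb.r r408 (@Lb.r r101 (@Lb.r r154 (@Lb.g g7 (@Lb.g g4 (@Lb.d (nat_lit 5) (nat_lit 16) (nat_lit 128) (@Lb.fp (nat_lit 3) t3441)))))))))
noncomputable def l16879 : Lb := (@Lb.d (nat_lit 682) (nat_lit 278) (nat_lit 21) (@Lb.r r2650 (@Lb.r r1352 (@Lb.r r2711 (@Lb.r r361 (@Lb.g g7 (@Lb.g g6 (@Lb.d (nat_lit 16) (nat_lit 4) (nat_lit 65) (@Lb.fp (nat_lit 3) t367)))))))))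
noncomputable def l16880 : Lb := (@Lb.r r82 (@Lb.d (nat_lit 132) (nat_lit 512) (nat_lit 64) (@Lb.g g8 (@Lb.g g9 (@Lb.g g11 (@Lb.r r1443 (@Lb.r r2438 (@Lb.r r2449 (@Lb.r r1636 (@Lb.d (nat_lit 673) (nat_lit 40) (nat_lit 393) (@Lb.t (@Lb.fp (nat_lit 9) t3442))))))))))))
noncomputable def l16881 : Lb := (@Lb.d (nat_lit 144) (nat_lit 520) (nat_lit 128) (@Lb.g g8 (@Lb.g g10 (@Lb.g g11 (@Lb.r r2327 (@Lb.r r660 (@Lb.r r2137 (@Lb.r r1190 (@Lb.d (nat_lit 266) (nat_lit 1) (nat_lit 681) (@Lb.t (@Lb.fp (nat_lit 9) t3443)))))))))))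
noncomputable def l16882 : Lb := (@Lb.d (nat_lit 0) (nat_lit 516) (nat_lit 128) (@Lb.g g8 (@Lb.g g9 (@Lb.g g10 (@Lb.g g11 (@Lb.r r427 (@Lb.r r682 (@Lb.r r1320 (@Lb.r r25 (@Lb.d (nat_lit 617) (nat_lit 8) (nat_lit 153) (@Lb.fp (nat_lit 9) t3444)))))))))))
noncomputable def l16883 : Lb := (@Lb.r r82 (@Lb.d (nat_lit 2) (nat_lit 2) (nat_lit 0) (@Lb.g g8 (@Lb.g g9 (@Lb.r r555 (@Lb.r r2713 (@Lb.r r146 (@Lb.d (nat_lit 353) (nat_lit 10) (nat_lit 24) (@Lb.fm (nat_lit 3) t3445)))))))))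
noncomputable def l16884 : Lb := (@Lb.d (nat_lit 106) (nat_lit 34) (nat_lit 656) (@Lb.r r2379 (@Lb.r r408 (@Lb.r r101 (@Lb.r r154 (@Lb.g g7 (@Lb.g g4 (@Lb.d (nat_lit 5) (nat_lit 16) (nat_lit 128) (@Lb.fp (nat_lit 3) t3441)))))))))
noncomputable def l16885 : Lb := (@Lb.r r82 (@Lb.d (nat_lit 4) (nat_lit 512) (nat_lit 0) (@Lb.g g8 (@Lb.g g9 (@Lb.r r555 (@Lb.r r2713 (@Lb.r r146 (@Lb.d (nat_lit 353) (nat_lit 10) (nat_lit 24) (@Lb.fm (nat_lit 3) t3445)))))))))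
noncomputable def l16886 : Lb := (@Lb.d (nat_lit 2) (nat_lit 4) (nat_lit 128) (@Lb.g g8 (@Lb.g g9 (@Lb.g g10 (@Lb.g g11 (@Lb.r r2666 (@Lb.r r579 (@Lb.r r104 (@Lb.r r25 (@Lb.d (nat_lit 617) (nat_lit 84) (nat_lit 134) (@Lb.fp (nat_lit 9) t3446)))))))))))
noncomputable def l16887 : Lb := (@Lb.d (nat_lit 394) (nat_lit 426) (nat_lit 278) (@Lb.r r1705 (@Lb.r r683 (@Lb.r r2666 (@Lb.r r1380 (@Lb.g g7 (@Lb.g g5 (@Lb.d (nat_lit 68) (nat_lit 5) (nat_lit 128) (@Lb.fm (nat_lit 3) t3447)))))))))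
noncomputable def l16888 : Lb := (@Lb.r r322 (@Lb.d (nat_lit 0) (nat_lit 16) (nat_lit 648) (@Lb.g g8 (@Lb.g g9 (@Lb.g g7 (@Lb.r r2474 (@Lb.r r341 (@Lb.r r24 (@Lb.d (nat_lit 256) (nat_lit 41) (nat_lit 340) (@Lb.t (@Lb.fp (nat_lit 9) t1610)))))))))))
noncomputable def l16889 : Lb := (@Lb.d (nat_lit 0) (nat_lit 289) (nat_lit 0) (@Lb.g g8 (@Lb.g g5 (@Lb.r r1319 (@Lb.r r1414 (@Lb.r r2584 (@Lb.d (nat_lit 256) (nat_lit 65) (nat_lit 0) (@Lb.fp (nat_lit 3) t240))))))))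
noncomputable def l16890 : Lb := (@Lb.d (nat_lit 642) (nat_lit 2) (nat_lit 2) (@Lb.g g8 (@Lb.g g9 (@Lb.g g10 (@Lb.g g11 (@Lb.r r2471 (@Lb.r r106 (@Lb.r r25 (@Lb.d (nat_lit 145) (nat_lit 73) (nat_lit 665) (@Lb.fp (nat_lit 9) t842))))))))))
noncomputable def l16891 : Lb := (@Lb.d (nat_lit 530) (nat_lit 133) (nat_lit 642) (@Lb.r r2068 (@Lb.r r2137 (@Lb.r r20 (@Lb.r r1442 (@Lb.g g11 (@Lb.g g6 (@Lb.g g5 (@Lb.g g4 (@Lb.d (nat_lit 25) (nat_lit 24) (nat_lit 392) (@Lb.fp (nat_lit 9) t200)))))))))))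
noncomputable def l16892 : Lb := (@Lb.d (nat_lit 1) (nat_lit 256) (nat_lit 9) (@Lb.g g4 (@Lb.g g10 (@Lb.g g11 (@Lb.r r2691 (@Lb.r r1158 (@Lb.d (nat_lit 128) (nat_lit 0) (nat_lit 424) (@Lb.t (@Lb.fp (nat_lit 9) t282)))))))))
noncomputable def l16893 : Lb := (@Lb.d (nat_lit 0) (nat_lit 2) (nat_lit 73) (@Lb.g g8 (@Lb.g g9 (@Lb.g g10 (@Lb.g g11 (@Lb.r r2666 (@Lb.r r579 (@Lb.r r25 (@Lb.d (nat_lit 9) (nat_lit 97) (nat_lit 586) (@Lb.fm (nat_lit 9) t51))))))))))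
noncomputable def l16894 : Lb := (@Lb.d (nat_lit 262) (nat_lit 518) (nat_lit 104) (@Lb.r r21 (@Lb.r r86 (@Lb.r r420 (@Lb.g g11 (@Lb.g g6 (@Lb.g g5 (@Lb.d (nat_lit 64) (nat_lit 1) (nat_lit 513) (@Lb.t (@Lb.fm (nat_lit 9) t188))))))))))
noncomputable def l16895 : Lb := (@Lb.r r263 (@Lb.d (nat_lit 0) (nat_lit 82) (nat_lit 2) (@Lb.g g8 (@Lb.g g9 (@Lb.g g10 (@Lb.r r2475 (@Lb.r r392 (@Lb.r r2122 (@Lb.d (nat_lit 82) (nat_lit 166) (nat_lit 169) (@Lb.t (@Lb.fp (nat_lit 9) t1771)))))))))))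
noncomputable def l16896 : Lb := (@Lb.d (nat_lit 16) (nat_lit 258) (nat_lit 72) (@Lb.g g8 (@Lb.g g9 (@Lb.g g10 (@Lb.g g11 (@Lb.r r2713 (@Lb.r r2712 (@Lb.r r1707 (@Lb.r r1626 (@Lb.d (nat_lit 617) (nat_lit 161) (nat_lit 665) (@Lb.fp (nat_lit 9) t823)))))))))))
noncomputable def l16897 : Lb := (@Lb.d (nat_lit 0) (nat_lit 258) (nat_lit 74) (@Lb.g g8 (@Lb.g g9 (@Lb.g g10 (@Lb.g g11 (@Lb.r r618 (@Lb.r r579 (@Lb.r r25 (@Lb.d (nat_lit 9) (nat_lit 33) (nat_lit 74) (@Lb.fm (nat_lit 9) t51))))))))))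
noncomputable def l16898 : Lb := (@Lb.d (nat_lit 288) (nat_lit 261) (nat_lit 72) (@Lb.r r1114 (@Lb.r r1624 (@Lb.r r405 (@Lb.g g11 (@Lb.g g6 (@Lb.d (nat_lit 64) (nat_lit 4) (nat_lit 513) (@Lb.fm (nat_lit 3) t188))))))))
noncomputable def l16899 : Lb := (@Lb.d (nat_lit 384) (nat_lit 5) (nat_lit 294) (@Lb.r r20 (@Lb.r r25 (@Lb.r r148 (@Lb.r r386 (@Lb.g g11 (@Lb.g g6 (@Lb.g g5 (@Lb.g g4 (@Lb.d (nat_lit 1) (nat_lit 1) (nat_lit 129) (@Lb.fp (nat_lit 9) t1771)))))))))))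
noncomputable def l16900 : Lb := (@Lb.r r20 (@Lb.r r82 (@Lb.d (nat_lit 128) (nat_lit 610) (nat_lit 64) (@Lb.g g9 (@Lb.g g11 (@Lb.r r344 (@Lb.r r423 (@Lb.r r2438 (@Lb.d (nat_lit 5) (nat_lit 85) (nat_lit 326) (@Lb.fm (nat_lit 3) t329))))))))))
noncomputable def l16901 : Lb := (@Lb.r r154 (@Lb.r r664 (@Lb.r r411 (@Lb.r r609 (@Lb.r r36 (@Lb.d (nat_lit 0) (nat_lit 128) (nat_lit 256) (@Lb.fm (nat_lit 1) t334)))))))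
noncomputable def l16902 : Lb := (@Lb.d (nat_lit 0) (nat_lit 34) (nat_lit 0) (@Lb.g g9 (@Lb.r r360 (@Lb.r r663 (@Lb.r r134 (@Lb.r r421 (@Lb.d (nat_lit 72) (nat_lit 33) (nat_lit 74) (@Lb.t (@Lb.fp (nat_lit 3) t40)))))))))
noncomputable def l16903 : Lb := (@Lb.d (nat_lit 38) (nat_lit 617) (nat_lit 356) (@Lb.r r100 (@Lb.r r609 (@Lb.r r402 (@Lb.r r555 (@Lb.g g8 (@Lb.d (nat_lit 65) (nat_lit 0) (nat_lit 0) (@Lb.t (@Lb.fm (nat_lit 3) t154)))))))))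
noncomputable def l16904 : Lb := (@Lb.d (nat_lit 65) (nat_lit 546) (nat_lit 64) (@Lb.r r264 (@Lb.r r609 (@Lb.r r402 (@Lb.r r519 (@Lb.g g4 (@Lb.d (nat_lit 66) (nat_lit 0) (nat_lit 0) (@Lb.t (@Lb.fm (nat_lit 3) t167)))))))))
noncomputable def l16905 : Lb := (@Lb.d (nat_lit 128) (nat_lit 33) (nat_lit 132) (@Lb.g g8 (@Lb.g g9 (@Lb.g g10 (@Lb.g g11 (@Lb.r r683 (@Lb.r r1700 (@Lb.r r2438 (@Lb.r r1633 (@Lb.d (nat_lit 97) (nat_lit 9) (nat_lit 293) (@Lb.fm (nat_lit 9) t3448)))))))))))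
noncomputable def l16906 : Lb := (@Lb.r r263 (@Lb.d (nat_lit 24) (nat_lit 1) (nat_lit 0) (@Lb.g g8 (@Lb.g g9 (@Lb.g g10 (@Lb.r r1689 (@Lb.r r1691 (@Lb.r r2634 (@Lb.r r648 (@Lb.d (nat_lit 89) (nat_lit 2) (nat_lit 152) (@Lb.t (@Lb.fm (nat_lit 9) t329))))))))))))
noncomputable def l16907 : Lb := (@Lb.r r21 (@Lb.d (nat_lit 2) (nat_lit 512) (nat_lit 130) (@Lb.g g8 (@Lb.g g10 (@Lb.g g11 (@Lb.r r2379 (@Lb.r r386 (@Lb.r r97 (@Lb.r r72 (@Lb.d (nat_lit 294) (nat_lit 1) (nat_lit 152) (@Lb.t (@Lb.fp (nat_lit 9) t61))))))))))))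
noncomputable def l16908 : Lb := (@Lb.r r82 (@Lb.d (nat_lit 0) (nat_lit 528) (nat_lit 128) (@Lb.g g9 (@Lb.g g11 (@Lb.r r1431 (@Lb.r r386 (@Lb.r r1109 (@Lb.r r24 (@Lb.d (nat_lit 33) (nat_lit 137) (nat_lit 17) (@Lb.fm (nat_lit 3) t538))))))))))
noncomputable def l16909 : Lb := (@Lb.r r82 (@Lb.d (nat_lit 0) (nat_lit 272) (nat_lit 128) (@Lb.g g9 (@Lb.g g11 (@Lb.r r1431 (@Lb.r r386 (@Lb.r r1109 (@Lb.r r24 (@Lb.d (nat_lit 33) (nat_lit 130) (nat_lit 18) (@Lb.fm (nat_lit 3) t742))))))))))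
noncomputable def l16910 : Lb := (@Lb.r r283 (@Lb.d (nat_lit 2) (nat_lit 2) (nat_lit 2) (@Lb.g g8 (@Lb.g g9 (@Lb.g g10 (@Lb.r r2643 (@Lb.r r98 (@Lb.r r2212 (@Lb.r r101 (@Lb.d (nat_lit 21) (nat_lit 17) (nat_lit 552) (@Lb.t (@Lb.fm (nat_lit 9) t3449))))))))))))
noncomputable def l16911 : Lb := (@Lb.d (nat_lit 2) (nat_lit 514) (nat_lit 73) (@Lb.g g8 (@Lb.g g9 (@Lb.g g10 (@Lb.g g11 (@Lb.r r2666 (@Lb.r r579 (@Lb.r r25 (@Lb.d (nat_lit 9) (nat_lit 97) (nat_lit 522) (@Lb.fm (nat_lit 9) t119))))))))))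
noncomputable def l16912 : Lb := (@Lb.d (nat_lit 40) (nat_lit 514) (nat_lit 130) (@Lb.g g9 (@Lb.g g10 (@Lb.g g11 (@Lb.r r1411 (@Lb.r r20 (@Lb.r r2153 (@Lb.r r1426 (@Lb.d (nat_lit 1) (nat_lit 85) (nat_lit 84) (@Lb.t (@Lb.fm (nat_lit 9) t386)))))))))))
noncomputable def l16913 : Lb := (@Lb.d (nat_lit 38) (nat_lit 256) (nat_lit 134) (@Lb.g g8 (@Lb.g g9 (@Lb.g g10 (@Lb.g g7 (@Lb.r r418 (@Lb.r r36 (@Lb.r r1173 (@Lb.r r36 (@Lb.d (nat_lit 672) (nat_lit 74) (nat_lit 529) (@Lb.fp (nat_lit 9) t3450)))))))))))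
noncomputable def l16914 : Lb := (@Lb.d (nat_lit 2) (nat_lit 514) (nat_lit 130) (@Lb.g g8 (@Lb.g g9 (@Lb.g g10 (@Lb.g g11 (@Lb.r r427 (@Lb.r r324 (@Lb.r r2218 (@Lb.r r1193 (@Lb.r r1188 (@Lb.d (nat_lit 608) (nat_lit 73) (nat_lit 546) (@Lb.fp (nat_lit 9) t386))))))))))))
noncomputable def l16915 : Lb := (@Lb.r r82 (@Lb.d (nat_lit 34) (nat_lit 272) (nat_lit 132) (@Lb.g g8 (@Lb.g g9 (@Lb.g g7 (@Lb.r r361 (@Lb.r r150 (@Lb.r r100 (@Lb.d (nat_lit 88) (nat_lit 10) (nat_lit 9) (@Lb.t (@Lb.fp (nat_lit 9) t984)))))))))))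
noncomputable def l16916 : Lb := (@Lb.d (nat_lit 548) (nat_lit 518) (nat_lit 16) (@Lb.g g10 (@Lb.t (@Lb.fp (nat_lit 3) t3451))))
noncomputable def l16917 : Lb := (@Lb.d (nat_lit 38) (nat_lit 512) (nat_lit 65) (@Lb.g g8 (@Lb.g g9 (@Lb.g g10 (@Lb.g g7 (@Lb.r r418 (@Lb.r r36 (@Lb.r r1173 (@Lb.r r36 (@Lb.d (nat_lit 672) (nat_lit 74) (nat_lit 529) (@Lb.fp (nat_lit 9) t3450)))))))))))
noncomputable def l16918 : Lb := (@Lb.d (nat_lit 0) (nat_lit 1) (nat_lit 74) (@Lb.r r101 (@Lb.r r24 (@Lb.r r323 (@Lb.g g7 (@Lb.g g6 (@Lb.d (nat_lit 0) (nat_lit 0) (nat_lit 64) (@Lb.fm (nat_lit 3) t42))))))))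
noncomputable def l16919 : Lb := (@Lb.d (nat_lit 4) (nat_lit 512) (nat_lit 130) (@Lb.g g8 (@Lb.g g9 (@Lb.g g10 (@Lb.g g11 (@Lb.r r2459 (@Lb.r r1557 (@Lb.r r676 (@Lb.r r1094 (@Lb.r r2180 (@Lb.d (nat_lit 9) (nat_lit 154) (nat_lit 406) (@Lb.fp (nat_lit 9) t295))))))))))))
noncomputable def l16920 : Lb := (@Lb.r r21 (@Lb.r r323 (@Lb.d (nat_lit 4) (nat_lit 0) (nat_lit 2) (@Lb.g g8 (@Lb.g g6 (@Lb.r r363 (@Lb.r r150 (@Lb.r r25 (@Lb.d (nat_lit 9) (nat_lit 4) (nat_lit 1) (@Lb.fm (nat_lit 3) t51))))))))))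
noncomputable def l16921 : Lb := (@Lb.d (nat_lit 0) (nat_lit 514) (nat_lit 2) (@Lb.g g8 (@Lb.g g9 (@Lb.g g10 (@Lb.g g11 (@Lb.r r427 (@Lb.r r106 (@Lb.r r25 (@Lb.d (nat_lit 9) (nat_lit 9) (nat_lit 137) (@Lb.fp (nat_lit 9) t51))))))))))
noncomputable def l16922 : Lb := (@Lb.d (nat_lit 0) (nat_lit 2) (nat_lit 130) (@Lb.g g8 (@Lb.g g9 (@Lb.g g10 (@Lb.g g11 (@Lb.r r1447 (@Lb.r r106 (@Lb.r r25 (@Lb.d (nat_lit 408) (nat_lit 9) (nat_lit 425) (@Lb.fp (nat_lit 9) t899))))))))))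
noncomputable def l16923 : Lb := (@Lb.r r323 (@Lb.d (nat_lit 8) (nat_lit 258) (nat_lit 0) (@Lb.g g8 (@Lb.g g9 (@Lb.g g10 (@Lb.r r2459 (@Lb.r r2193 (@Lb.r r2646 (@Lb.r r1416 (@Lb.d (nat_lit 154) (nat_lit 2) (nat_lit 394) (@Lb.t (@Lb.fp (nat_lit 9) t221))))))))))))
noncomputable def l16924 : Lb := (@Lb.d (nat_lit 8) (nat_lit 2) (nat_lit 130) (@Lb.g g9 (@Lb.g g10 (@Lb.g g11 (@Lb.r r1451 (@Lb.r r98 (@Lb.d (nat_lit 401) (nat_lit 9) (nat_lit 425) (@Lb.t (@Lb.fm (nat_lit 9) t899)))))))))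
noncomputable def l16925 : Lb := (@Lb.d (nat_lit 2) (nat_lit 36) (nat_lit 64) (@Lb.g g8 (@Lb.g g9 (@Lb.g g10 (@Lb.g g11 (@Lb.r r2730 (@Lb.r r2435 (@Lb.r r2212 (@Lb.r r2085 (@Lb.d (nat_lit 361) (nat_lit 73) (nat_lit 324) (@Lb.fp (nat_lit 9) t750)))))))))))
noncomputable def l16926 : Lb := (@Lb.d (nat_lit 42) (nat_lit 0) (nat_lit 64) (@Lb.g g8 (@Lb.g g11 (@Lb.r r677 (@Lb.r r2726 (@Lb.r r1703 (@Lb.r r2392 (@Lb.d (nat_lit 41) (nat_lit 82) (nat_lit 421) (@Lb.fm (nat_lit 3) t690)))))))))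
noncomputable def l16927 : Lb := (@Lb.r r616 (@Lb.r r2665 (@Lb.r r2390 (@Lb.r r2475 (@Lb.r r1188 (@Lb.d (nat_lit 641) (nat_lit 0) (nat_lit 128) (@Lb.fp (nat_lit 1) t322)))))))
noncomputable def l16928 : Lb := (@Lb.d (nat_lit 2) (nat_lit 258) (nat_lit 2) (@Lb.g g8 (@Lb.g g9 (@Lb.g g10 (@Lb.r r2666 (@Lb.r r579 (@Lb.r r25 (@Lb.d (nat_lit 9) (nat_lit 149) (nat_lit 264) (@Lb.t (@Lb.fp (nat_lit 9) t51))))))))))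
noncomputable def l16929 : Lb := (@Lb.d (nat_lit 406) (nat_lit 322) (nat_lit 276) (@Lb.r r1604 (@Lb.r r1621 (@Lb.r r1303 (@Lb.g g10 (@Lb.g g5 (@Lb.g g4 (@Lb.d (nat_lit 1) (nat_lit 1) (nat_lit 42) (@Lb.r r387 (@Lb.t (@Lb.fm (nat_lit 9) t1444)))))))))))
noncomputable def l16930 : Lb := (@Lb.d (nat_lit 42) (nat_lit 512) (nat_lit 64) (@Lb.g g8 (@Lb.g g11 (@Lb.r r677 (@Lb.r r2726 (@Lb.r r1703 (@Lb.r r2392 (@Lb.d (nat_lit 41) (nat_lit 84) (nat_lit 422) (@Lb.fm (nat_lit 3) t1639)))))))))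
noncomputable def l16931 : Lb := (@Lb.d (nat_lit 134) (nat_lit 256) (nat_lit 4) (@Lb.g g8 (@Lb.g g9 (@Lb.g g10 (@Lb.g g11 (@Lb.r r2435 (@Lb.r r1689 (@Lb.r r1178 (@Lb.r r1156 (@Lb.d (nat_lit 297) (nat_lit 130) (nat_lit 674) (@Lb.fm (nat_lit 9) t1260)))))))))))
noncomputable def l16932 : Lb := (@Lb.d (nat_lit 4) (nat_lit 293) (nat_lit 128) (@Lb.g g8 (@Lb.g g9 (@Lb.g g10 (@Lb.g g11 (@Lb.r r387 (@Lb.r r1177 (@Lb.r r2454 (@Lb.r r1608 (@Lb.d (nat_lit 533) (nat_lit 33) (nat_lit 394) (@Lb.fp (nat_lit 9) t2605)))))))))))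
noncomputable def l16933 : Lb := (@Lb.d (nat_lit 2) (nat_lit 2) (nat_lit 2) (@Lb.g g8 (@Lb.g g9 (@Lb.g g10 (@Lb.r r515 (@Lb.r r297 (@Lb.r r104 (@Lb.r r70 (@Lb.r r132 (@Lb.d (nat_lit 66) (nat_lit 5) (nat_lit 70) (@Lb.t (@Lb.fp (nat_lit 9) t242))))))))))))
noncomputable def l16934 : Lb := (@Lb.r r68 (@Lb.r r81 (@Lb.d (nat_lit 16) (nat_lit 512) (nat_lit 17) (@Lb.g g10 (@Lb.r r1419 (@Lb.r r1304 (@Lb.r r37 (@Lb.d (nat_lit 2) (nat_lit 42) (nat_lit 321) (@Lb.t (@Lb.fp (nat_lit 3) t3404))))))))))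
noncomputable def l16935 : Lb := (@Lb.d (nat_lit 129) (nat_lit 2) (nat_lit 66) (@Lb.g g8 (@Lb.g g9 (@Lb.g g10 (@Lb.g g11 (@Lb.r r419 (@Lb.r r386 (@Lb.r r616 (@Lb.r r2153 (@Lb.r r36 (@Lb.d (nat_lit 354) (nat_lit 98) (nat_lit 105) (@Lb.fm (nat_lit 9) t3452))))))))))))
noncomputable def l16936 : Lb := (@Lb.d (nat_lit 8) (nat_lit 2) (nat_lit 2) (@Lb.g g8 (@Lb.g g9 (@Lb.g g10 (@Lb.r r1705 (@Lb.r r2475 (@Lb.r r2468 (@Lb.r r2438 (@Lb.d (nat_lit 609) (nat_lit 5) (nat_lit 161) (@Lb.t (@Lb.fm (nat_lit 9) t590)))))))))))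
noncomputable def l16937 : Lb := (@Lb.d (nat_lit 136) (nat_lit 290) (nat_lit 0) (@Lb.g g8 (@Lb.g g9 (@Lb.r r1299 (@Lb.r r2178 (@Lb.r r2709 (@Lb.r r104 (@Lb.d (nat_lit 84) (nat_lit 5) (nat_lit 0) (@Lb.fm (nat_lit 3) t124)))))))))
noncomputable def l16938 : Lb := (@Lb.d (nat_lit 9) (nat_lit 1) (nat_lit 73) (@Lb.g g8 (@Lb.g g9 (@Lb.g g10 (@Lb.g g11 (@Lb.r r619 (@Lb.r r1610 (@Lb.r r660 (@Lb.r r425 (@Lb.r r2084 (@Lb.d (nat_lit 170) (nat_lit 168) (nat_lit 20) (@Lb.fp (nat_lit 9) t1371))))))))))))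
noncomputable def l16939 : Lb := (@Lb.d (nat_lit 130) (nat_lit 512) (nat_lit 0) (@Lb.g g4 (@Lb.r r2469 (@Lb.r r603 (@Lb.r r2178 (@Lb.r r2708 (@Lb.d (nat_lit 72) (nat_lit 80) (nat_lit 42) (@Lb.t (@Lb.fp (nat_lit 3) t124)))))))))
noncomputable def l16940 : Lb := (@Lb.d (nat_lit 41) (nat_lit 0) (nat_lit 0) (@Lb.g g8 (@Lb.g g11 (@Lb.r r1173 (@Lb.r r150 (@Lb.r r596 (@Lb.r r2599 (@Lb.d (nat_lit 645) (nat_lit 152) (nat_lit 342) (@Lb.fm (nat_lit 3) t430)))))))))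
noncomputable def l16941 : Lb := (@Lb.d (nat_lit 8) (nat_lit 258) (nat_lit 2) (@Lb.g g9 (@Lb.g g10 (@Lb.r r2658 (@Lb.r r579 (@Lb.d (nat_lit 1) (nat_lit 97) (nat_lit 586) (@Lb.fp (nat_lit 3) t51)))))))
noncomputable def l16942 : Lb := (@Lb.r r70 (@Lb.d (nat_lit 40) (nat_lit 514) (nat_lit 0) (@Lb.g g8 (@Lb.g g9 (@Lb.r r1641 (@Lb.r r2454 (@Lb.r r1371 (@Lb.r r1364 (@Lb.d (nat_lit 401) (nat_lit 17) (nat_lit 148) (@Lb.fm (nat_lit 3) t1481))))))))))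
noncomputable def l16943 : Lb := (@Lb.d (nat_lit 169) (nat_lit 256) (nat_lit 0) (@Lb.g g8 (@Lb.r r1685 (@Lb.r r662 (@Lb.r r2711 (@Lb.r r1352 (@Lb.d (nat_lit 36) (nat_lit 65) (nat_lit 150) (@Lb.t (@Lb.fm (nat_lit 3) t430)))))))))
noncomputable def l16944 : Lb := (@Lb.d (nat_lit 0) (nat_lit 256) (nat_lit 5) (@Lb.g g6 (@Lb.r r2449 (@Lb.d (nat_lit 608) (nat_lit 100) (nat_lit 538) (@Lb.t (@Lb.fm (nat_lit 3) t3453))))))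
noncomputable def l16945 : Lb := (@Lb.r r275 (@Lb.d (nat_lit 0) (nat_lit 5) (nat_lit 5) (@Lb.g g9 (@Lb.g g6 (@Lb.r r2659 (@Lb.r r1553 (@Lb.d (nat_lit 0) (nat_lit 2) (nat_lit 257) (@Lb.fm (nat_lit 3) t1369))))))))
noncomputable def l16946 : Lb := (@Lb.d (nat_lit 262) (nat_lit 658) (nat_lit 10) (@Lb.r r2406 (@Lb.r r2133 (@Lb.r r343 (@Lb.g g7 (@Lb.g g6 (@Lb.g g5 (@Lb.g g4 (@Lb.d (nat_lit 1) (nat_lit 8) (nat_lit 64) (@Lb.fp (nat_lit 9) t3454))))))))))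
noncomputable def l16947 : Lb := (@Lb.g g11 (@Lb.r r101 (@Lb.r r24 (@Lb.d (nat_lit 577) (nat_lit 512) (nat_lit 528) (@Lb.t (@Lb.fp (nat_lit 3) t1150))))))
noncomputable def l16948 : Lb := (@Lb.d (nat_lit 8) (nat_lit 656) (nat_lit 389) (@Lb.r r21 (@Lb.r r579 (@Lb.r r1366 (@Lb.g g7 (@Lb.g g6 (@Lb.g g5 (@Lb.g g4 (@Lb.d (nat_lit 1) (nat_lit 1) (nat_lit 65) (@Lb.fm (nat_lit 9) t40))))))))))
noncomputable def l16949 : Lb := (@Lb.d (nat_lit 4) (nat_lit 518) (nat_lit 0) (@Lb.g g5 (@Lb.g g11 (@Lb.d (nat_lit 549) (nat_lit 6) (nat_lit 17) (@Lb.fp (nat_lit 3) t126)))))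
noncomputable def l16950 : Lb := (@Lb.r r1427 (@Lb.r r101 (@Lb.r r24 (@Lb.d (nat_lit 66) (nat_lit 512) (nat_lit 528) (@Lb.fp (nat_lit 1) t335)))))
noncomputable def l16951 : Lb := (@Lb.r r275 (@Lb.d (nat_lit 0) (nat_lit 517) (nat_lit 5) (@Lb.g g9 (@Lb.g g6 (@Lb.r r2659 (@Lb.r r1553 (@Lb.d (nat_lit 5) (nat_lit 0) (nat_lit 257) (@Lb.fm (nat_lit 3) t2985))))))))
noncomputable def l16952 : Lb := (@Lb.d (nat_lit 0) (nat_lit 516) (nat_lit 18) (@Lb.g g6 (@Lb.r r1427 (@Lb.r r2661 (@Lb.r r24 (@Lb.d (nat_lit 129) (nat_lit 5) (nat_lit 662) (@Lb.t (@Lb.fm (nat_lit 3) t2259))))))))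
noncomputable def l16953 : Lb := (@Lb.r r1284 (@Lb.r r273 (@Lb.d (nat_lit 0) (nat_lit 260) (nat_lit 86) (@Lb.g g6 (@Lb.g g11 (@Lb.r r1633 (@Lb.r r2339 (@Lb.d (nat_lit 536) (nat_lit 34) (nat_lit 358) (@Lb.fm (nat_lit 3) t3455)))))))))
noncomputable def l16954 : Lb := (@Lb.r r21 (@Lb.d (nat_lit 33) (nat_lit 0) (nat_lit 1) (@Lb.g g8 (@Lb.g g10 (@Lb.r r1691 (@Lb.r r1561 (@Lb.r r1640 (@Lb.r r614 (@Lb.d (nat_lit 148) (nat_lit 72) (nat_lit 586) (@Lb.fm (nat_lit 3) t264))))))))))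
noncomputable def l16955 : Lb := (@Lb.d (nat_lit 128) (nat_lit 544) (nat_lit 64) (@Lb.g g11 (@Lb.r r356 (@Lb.r r2341 (@Lb.r r539 (@Lb.r r2178 (@Lb.d (nat_lit 72) (nat_lit 36) (nat_lit 128) (@Lb.t (@Lb.fm (nat_lit 3) t124)))))))))
noncomputable def l16956 : Lb := (@Lb.d (nat_lit 10) (nat_lit 256) (nat_lit 66) (@Lb.g g8 (@Lb.g g10 (@Lb.g g11 (@Lb.r r1575 (@Lb.r r597 (@Lb.r r98 (@Lb.r r2436 (@Lb.d (nat_lit 612) (nat_lit 138) (nat_lit 664) (@Lb.t (@Lb.fp (nat_lit 9) t632)))))))))))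
noncomputable def l16957 : Lb := (@Lb.d (nat_lit 8) (nat_lit 0) (nat_lit 66) (@Lb.g g8 (@Lb.g g10 (@Lb.g g11 (@Lb.r r1575 (@Lb.r r597 (@Lb.r r98 (@Lb.r r2436 (@Lb.d (nat_lit 612) (nat_lit 138) (nat_lit 664) (@Lb.t (@Lb.fp (nat_lit 9) t632)))))))))))
noncomputable def l16958 : Lb := (@Lb.r r291 (@Lb.r r680 (@Lb.r r154 (@Lb.r r2133 (@Lb.r r164 (@Lb.d (nat_lit 130) (nat_lit 0) (nat_lit 640) (@Lb.fp (nat_lit 1) t3313)))))))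
noncomputable def l16959 : Lb := (@Lb.d (nat_lit 38) (nat_lit 514) (nat_lit 73) (@Lb.g g8 (@Lb.g g9 (@Lb.g g10 (@Lb.g g11 (@Lb.r r2722 (@Lb.r r1415 (@Lb.r r552 (@Lb.r r1065 (@Lb.r r36 (@Lb.d (nat_lit 325) (nat_lit 42) (nat_lit 130) (@Lb.fm (nat_lit 9) t50))))))))))))
noncomputable def l16960 : Lb := (@Lb.r r21 (@Lb.d (nat_lit 2) (nat_lit 0) (nat_lit 73) (@Lb.g g8 (@Lb.g g10 (@Lb.g g11 (@Lb.r r1683 (@Lb.r r2184 (@Lb.r r1610 (@Lb.r r97 (@Lb.d (nat_lit 408) (nat_lit 102) (nat_lit 682) (@Lb.t (@Lb.fp (nat_lit 9) t3180))))))))))))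
noncomputable def l16961 : Lb := (@Lb.r r323 (@Lb.d (nat_lit 8) (nat_lit 514) (nat_lit 2) (@Lb.g g9 (@Lb.g g10 (@Lb.r r102 (@Lb.r r404 (@Lb.r r1371 (@Lb.r r2705 (@Lb.d (nat_lit 10) (nat_lit 33) (nat_lit 296) (@Lb.fm (nat_lit 3) t71))))))))))
noncomputable def l16962 : Lb := (@Lb.r r331 (@Lb.d (nat_lit 38) (nat_lit 512) (nat_lit 21) (@Lb.g g8 (@Lb.g g9 (@Lb.g g10 (@Lb.r r1579 (@Lb.r r617 (@Lb.r r584 (@Lb.d (nat_lit 105) (nat_lit 25) (nat_lit 296) (@Lb.t (@Lb.fp (nat_lit 9) t979)))))))))))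
noncomputable def l16963 : Lb := (@Lb.d (nat_lit 134) (nat_lit 16) (nat_lit 130) (@Lb.g g8 (@Lb.g g9 (@Lb.g g10 (@Lb.g g11 (@Lb.r r363 (@Lb.r r386 (@Lb.r r1129 (@Lb.r r1604 (@Lb.d (nat_lit 336) (nat_lit 97) (nat_lit 674) (@Lb.fp (nat_lit 9) t601)))))))))))
noncomputable def l16964 : Lb := (@Lb.r r82 (@Lb.d (nat_lit 2) (nat_lit 33) (nat_lit 64) (@Lb.g g8 (@Lb.g g9 (@Lb.g g11 (@Lb.r r2152 (@Lb.r r102 (@Lb.r r337 (@Lb.r r1315 (@Lb.d (nat_lit 0) (nat_lit 162) (nat_lit 344) (@Lb.t (@Lb.fp (nat_lit 9) t68))))))))))))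
noncomputable def l16965 : Lb := (@Lb.r r82 (@Lb.d (nat_lit 34) (nat_lit 290) (nat_lit 64) (@Lb.g g8 (@Lb.g g9 (@Lb.g g11 (@Lb.r r2593 (@Lb.r r1315 (@Lb.r r582 (@Lb.r r2180 (@Lb.d (nat_lit 546) (nat_lit 96) (nat_lit 530) (@Lb.t (@Lb.fp (nat_lit 9) t125))))))))))))
noncomputable def l16966 : Lb := (@Lb.r r323 (@Lb.d (nat_lit 0) (nat_lit 256) (nat_lit 1) (@Lb.g g10 (@Lb.r r401 (@Lb.r r2659 (@Lb.r r2577 (@Lb.r r1156 (@Lb.d (nat_lit 0) (nat_lit 10) (nat_lit 101) (@Lb.t (@Lb.fm (nat_lit 3) t1561))))))))))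
noncomputable def l16967 : Lb := (@Lb.r r323 (@Lb.d (nat_lit 8) (nat_lit 258) (nat_lit 2) (@Lb.g g9 (@Lb.g g10 (@Lb.r r102 (@Lb.r r404 (@Lb.r r1371 (@Lb.r r2705 (@Lb.d (nat_lit 8) (nat_lit 33) (nat_lit 296) (@Lb.fm (nat_lit 3) t71))))))))))
noncomputable def l16968 : Lb := (@Lb.d (nat_lit 162) (nat_lit 66) (nat_lit 128) (@Lb.g g8 (@Lb.g g5 (@Lb.g g11 (@Lb.r r1638 (@Lb.r r1371 (@Lb.r r2580 (@Lb.d (nat_lit 132) (nat_lit 170) (nat_lit 402) (@Lb.t (@Lb.fp (nat_lit 9) t941))))))))))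
noncomputable def l16969 : Lb := (@Lb.d (nat_lit 33) (nat_lit 518) (nat_lit 73) (@Lb.g g8 (@Lb.g g9 (@Lb.g g10 (@Lb.g g11 (@Lb.r r618 (@Lb.r r579 (@Lb.r r1129 (@Lb.r r2660 (@Lb.d (nat_lit 84) (nat_lit 64) (nat_lit 418) (@Lb.fp (nat_lit 9) t601)))))))))))
noncomputable def l16970 : Lb := (@Lb.r r21 (@Lb.d (nat_lit 2) (nat_lit 512) (nat_lit 73) (@Lb.g g8 (@Lb.g g10 (@Lb.g g11 (@Lb.r r1683 (@Lb.r r2184 (@Lb.r r1610 (@Lb.r r97 (@Lb.d (nat_lit 408) (nat_lit 104) (nat_lit 680) (@Lb.t (@Lb.fp (nat_lit 9) t3180))))))))))))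
noncomputable def l16971 : Lb := (@Lb.d (nat_lit 256) (nat_lit 522) (nat_lit 81) (@Lb.r r24 (@Lb.r r101 (@Lb.r r579 (@Lb.g g7 (@Lb.g g10 (@Lb.d (nat_lit 0) (nat_lit 0) (nat_lit 64) (@Lb.fm (nat_lit 3) t2127))))))))
noncomputable def l16972 : Lb := (@Lb.r r323 (@Lb.d (nat_lit 2) (nat_lit 520) (nat_lit 2) (@Lb.g g8 (@Lb.g g9 (@Lb.g g10 (@Lb.r r342 (@Lb.r r2472 (@Lb.r r1303 (@Lb.r r2581 (@Lb.d (nat_lit 133) (nat_lit 168) (nat_lit 329) (@Lb.t (@Lb.fp (nat_lit 9) t789))))))))))))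
noncomputable def l16973 : Lb := (@Lb.r r21 (@Lb.d (nat_lit 2) (nat_lit 256) (nat_lit 0) (@Lb.g g8 (@Lb.g g6 (@Lb.g g11 (@Lb.r r97 (@Lb.r r2632 (@Lb.d (nat_lit 356) (nat_lit 88) (nat_lit 42) (@Lb.t (@Lb.fp (nat_lit 9) t3305))))))))))
noncomputable def l16974 : Lb := (@Lb.d (nat_lit 6) (nat_lit 577) (nat_lit 2) (@Lb.r r24 (@Lb.g g11 (@Lb.g g5 (@Lb.d (nat_lit 4) (nat_lit 1) (nat_lit 136) (@Lb.fm (nat_lit 3) t2))))))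
noncomputable def l16975 : Lb := (@Lb.d (nat_lit 150) (nat_lit 409) (nat_lit 132) (@Lb.r r1299 (@Lb.r r2657 (@Lb.r r1366 (@Lb.g g7 (@Lb.g g6 (@Lb.g g5 (@Lb.g g4 (@Lb.d (nat_lit 1) (nat_lit 1) (nat_lit 1) (@Lb.fm (nat_lit 9) t2408))))))))))
noncomputable def l16976 : Lb := (@Lb.r r21 (@Lb.r r322 (@Lb.d (nat_lit 129) (nat_lit 288) (nat_lit 128) (@Lb.g g8 (@Lb.g g11 (@Lb.r r1626 (@Lb.r r97 (@Lb.r r1684 (@Lb.d (nat_lit 322) (nat_lit 144) (nat_lit 576) (@Lb.fp (nat_lit 3) t501))))))))))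
noncomputable def l16977 : Lb := (@Lb.d (nat_lit 6) (nat_lit 101) (nat_lit 70) (@Lb.r r673 (@Lb.r r683 (@Lb.r r612 (@Lb.r r346 (@Lb.g g7 (@Lb.g g6 (@Lb.g g5 (@Lb.d (nat_lit 4) (nat_lit 1) (nat_lit 65) (@Lb.t (@Lb.fp (nat_lit 9) t594)))))))))))
noncomputable def l16978 : Lb := (@Lb.d (nat_lit 2) (nat_lit 2) (nat_lit 0) (@Lb.g g8 (@Lb.g g9 (@Lb.r r552 (@Lb.r r2089 (@Lb.r r2084 (@Lb.d (nat_lit 514) (nat_lit 98) (nat_lit 64) (@Lb.fm (nat_lit 3) t121))))))))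
noncomputable def l16979 : Lb := (@Lb.d (nat_lit 0) (nat_lit 146) (nat_lit 389) (@Lb.r r579 (@Lb.r r1362 (@Lb.g g7 (@Lb.g g6 (@Lb.g g5 (@Lb.g g8 (@Lb.d (nat_lit 2) (nat_lit 129) (nat_lit 134) (@Lb.fp (nat_lit 9) t126)))))))))
noncomputable def l16980 : Lb := (@Lb.d (nat_lit 0) (nat_lit 258) (nat_lit 4) (@Lb.g g8 (@Lb.g g9 (@Lb.g g10 (@Lb.g g11 (@Lb.r r2691 (@Lb.r r1385 (@Lb.r r2198 (@Lb.r r1096 (@Lb.d (nat_lit 37) (nat_lit 81) (nat_lit 665) (@Lb.fp (nat_lit 9) t807)))))))))))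
noncomputable def l16981 : Lb := (@Lb.d (nat_lit 32) (nat_lit 8) (nat_lit 66) (@Lb.g g10 (@Lb.g g11 (@Lb.r r2401 (@Lb.r r659 (@Lb.r r1352 (@Lb.r r2710 (@Lb.d (nat_lit 405) (nat_lit 160) (nat_lit 282) (@Lb.fm (nat_lit 3) t100)))))))))
noncomputable def l16982 : Lb := (@Lb.r r323 (@Lb.d (nat_lit 32) (nat_lit 264) (nat_lit 1) (@Lb.g g10 (@Lb.r r355 (@Lb.r r89 (@Lb.r r1112 (@Lb.r r2662 (@Lb.d (nat_lit 666) (nat_lit 89) (nat_lit 256) (@Lb.t (@Lb.fm (nat_lit 3) t386))))))))))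
noncomputable def l16983 : Lb := (@Lb.d (nat_lit 642) (nat_lit 0) (nat_lit 0) (@Lb.g g8 (@Lb.r r2073 (@Lb.d (nat_lit 258) (nat_lit 0) (nat_lit 384) (@Lb.t (@Lb.fp (nat_lit 3) t1644))))))
noncomputable def l16984 : Lb := (@Lb.r r323 (@Lb.d (nat_lit 164) (nat_lit 258) (nat_lit 2) (@Lb.g g8 (@Lb.g g9 (@Lb.g g10 (@Lb.r r409 (@Lb.r r1319 (@Lb.r r1604 (@Lb.r r1098 (@Lb.d (nat_lit 592) (nat_lit 138) (nat_lit 424) (@Lb.t (@Lb.fm (nat_lit 9) t3456))))))))))))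
noncomputable def l16985 : Lb := (@Lb.r r323 (@Lb.d (nat_lit 0) (nat_lit 546) (nat_lit 18) (@Lb.g g9 (@Lb.g g10 (@Lb.r r595 (@Lb.r r289 (@Lb.r r8 (@Lb.d (nat_lit 328) (nat_lit 169) (nat_lit 161) (@Lb.fp (nat_lit 3) t32)))))))))
noncomputable def l16986 : Lb := (@Lb.d (nat_lit 2) (nat_lit 265) (nat_lit 73) (@Lb.g g8 (@Lb.g g9 (@Lb.g g10 (@Lb.g g11 (@Lb.r r1666 (@Lb.r r1431 (@Lb.r r2657 (@Lb.r r24 (@Lb.d (nat_lit 552) (nat_lit 89) (nat_lit 25) (@Lb.fm (nat_lit 9) t1923)))))))))))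
noncomputable def l16987 : Lb := (@Lb.d (nat_lit 6) (nat_lit 37) (nat_lit 294) (@Lb.r r21 (@Lb.r r1366 (@Lb.r r683 (@Lb.g g7 (@Lb.g g6 (@Lb.g g5 (@Lb.g g4 (@Lb.d (nat_lit 8) (nat_lit 10) (nat_lit 69) (@Lb.fm (nat_lit 9) t40))))))))))
noncomputable def l16988 : Lb := (@Lb.d (nat_lit 0) (nat_lit 9) (nat_lit 72) (@Lb.g g8 (@Lb.g g9 (@Lb.g g10 (@Lb.g g11 (@Lb.r r2691 (@Lb.r r297 (@Lb.r r648 (@Lb.r r666 (@Lb.r r1156 (@Lb.d (nat_lit 641) (nat_lit 168) (nat_lit 73) (@Lb.fp (nat_lit 9) t3457))))))))))))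
noncomputable def l16989 : Lb := (@Lb.d (nat_lit 4) (nat_lit 0) (nat_lit 73) (@Lb.g g8 (@Lb.g g10 (@Lb.g g11 (@Lb.r r2691 (@Lb.r r1185 (@Lb.r r2658 (@Lb.d (nat_lit 402) (nat_lit 160) (nat_lit 25) (@Lb.t (@Lb.fm (nat_lit 9) t590))))))))))
noncomputable def l16990 : Lb := (@Lb.g g8 (@Lb.r r674 (@Lb.r r665 (@Lb.r r340 (@Lb.r r1675 (@Lb.r r586 (@Lb.d (nat_lit 9) (nat_lit 2) (nat_lit 394) (@Lb.t (@Lb.fp (nat_lit 3) t2027)))))))))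
noncomputable def l16991 : Lb := (@Lb.d (nat_lit 5) (nat_lit 641) (nat_lit 513) (@Lb.r r1313 (@Lb.r r2327 (@Lb.r r584 (@Lb.g g6 (@Lb.g g5 (@Lb.d (nat_lit 16) (nat_lit 8) (nat_lit 0) (@Lb.r r387 (@Lb.fm (nat_lit 3) t789)))))))))
noncomputable def l16992 : Lb := (@Lb.r r21 (@Lb.d (nat_lit 6) (nat_lit 8) (nat_lit 2) (@Lb.g g8 (@Lb.g g10 (@Lb.r r1691 (@Lb.r r1381 (@Lb.r r2202 (@Lb.d (nat_lit 330) (nat_lit 9) (nat_lit 537) (@Lb.fp (nat_lit 3) t172)))))))))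
noncomputable def l16993 : Lb := (@Lb.d (nat_lit 4) (nat_lit 512) (nat_lit 73) (@Lb.g g8 (@Lb.g g10 (@Lb.g g11 (@Lb.r r2691 (@Lb.r r1185 (@Lb.r r2658 (@Lb.d (nat_lit 400) (nat_lit 160) (nat_lit 25) (@Lb.t (@Lb.fm (nat_lit 9) t590))))))))))
noncomputable def l16994 : Lb := (@Lb.d (nat_lit 106) (nat_lit 292) (nat_lit 32) (@Lb.r r408 (@Lb.r r330 (@Lb.r r407 (@Lb.g g7 (@Lb.g g5 (@Lb.g g4 (@Lb.d (nat_lit 24) (nat_lit 0) (nat_lit 64) (@Lb.r r98 (@Lb.t (@Lb.fm (nat_lit 9) t1698)))))))))))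
noncomputable def l16995 : Lb := (@Lb.r r21 (@Lb.d (nat_lit 32) (nat_lit 512) (nat_lit 73) (@Lb.g g8 (@Lb.g g10 (@Lb.g g11 (@Lb.r r603 (@Lb.r r1689 (@Lb.r r1370 (@Lb.r r2580 (@Lb.d (nat_lit 338) (nat_lit 68) (nat_lit 257) (@Lb.t (@Lb.fp (nat_lit 9) t789))))))))))))
noncomputable def l16996 : Lb := (@Lb.d (nat_lit 2) (nat_lit 512) (nat_lit 73) (@Lb.g g8 (@Lb.g g10 (@Lb.g g11 (@Lb.r r2691 (@Lb.r r1642 (@Lb.r r2145 (@Lb.r r24 (@Lb.d (nat_lit 136) (nat_lit 33) (nat_lit 64) (@Lb.t (@Lb.fp (nat_lit 9) t1772)))))))))))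
noncomputable def l16997 : Lb := (@Lb.r r260 (@Lb.d (nat_lit 0) (nat_lit 513) (nat_lit 585) (@Lb.g g9 (@Lb.g g10 (@Lb.g g7 (@Lb.r r409 (@Lb.r r410 (@Lb.r r1048 (@Lb.d (nat_lit 162) (nat_lit 0) (nat_lit 281) (@Lb.t (@Lb.fp (nat_lit 9) t2239)))))))))))
noncomputable def l16998 : Lb := (@Lb.d (nat_lit 96) (nat_lit 644) (nat_lit 662) (@Lb.r r1297 (@Lb.r r611 (@Lb.r r545 (@Lb.r r2214 (@Lb.g g7 (@Lb.g g6 (@Lb.g g5 (@Lb.g g8 (@Lb.d (nat_lit 320) (nat_lit 1) (nat_lit 65) (@Lb.fp (nat_lit 9) t2953)))))))))))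
noncomputable def l16999 : Lb := (@Lb.d (nat_lit 101) (nat_lit 133) (nat_lit 662) (@Lb.r r1297 (@Lb.r r611 (@Lb.r r545 (@Lb.r r2214 (@Lb.g g7 (@Lb.g g6 (@Lb.g g5 (@Lb.g g8 (@Lb.d (nat_lit 320) (nat_lit 1) (nat_lit 129) (@Lb.fp (nat_lit 9) t2953)))))))))))
noncomputable def l17000 : Lb := (@Lb.d (nat_lit 0) (nat_lit 2) (nat_lit 0) (@Lb.g g9 (@Lb.r r2068 (@Lb.r r25 (@Lb.d (nat_lit 514) (nat_lit 65) (nat_lit 0) (@Lb.t (@Lb.fp (nat_lit 3) t2)))))))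
noncomputable def l17001 : Lb := (@Lb.r r82 (@Lb.d (nat_lit 32) (nat_lit 513) (nat_lit 136) (@Lb.g g8 (@Lb.g g9 (@Lb.g g11 (@Lb.r r618 (@Lb.r r677 (@Lb.r r340 (@Lb.r r411 (@Lb.d (nat_lit 9) (nat_lit 66) (nat_lit 602) (@Lb.t (@Lb.fp (nat_lit 9) t375))))))))))))
noncomputable def l17002 : Lb := (@Lb.d (nat_lit 34) (nat_lit 257) (nat_lit 64) (@Lb.g g8 (@Lb.g g9 (@Lb.g g11 (@Lb.r r2153 (@Lb.r r150 (@Lb.r r596 (@Lb.r r2599 (@Lb.d (nat_lit 650) (nat_lit 153) (nat_lit 357) (@Lb.t (@Lb.fp (nat_lit 9) t430)))))))))))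
noncomputable def l17003 : Lb := (@Lb.r r21 (@Lb.r r70 (@Lb.d (nat_lit 656) (nat_lit 544) (nat_lit 64) (@Lb.g g4 (@Lb.g g11 (@Lb.r r345 (@Lb.r r1315 (@Lb.r r2182 (@Lb.d (nat_lit 4) (nat_lit 160) (nat_lit 418) (@Lb.fm (nat_lit 3) t74))))))))))
noncomputable def l17004 : Lb := (@Lb.r r21 (@Lb.r r70 (@Lb.d (nat_lit 656) (nat_lit 288) (nat_lit 128) (@Lb.g g4 (@Lb.g g11 (@Lb.r r345 (@Lb.r r1315 (@Lb.r r2182 (@Lb.d (nat_lit 4) (nat_lit 160) (nat_lit 418) (@Lb.fm (nat_lit 3) t74))))))))))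
noncomputable def l17005 : Lb := (@Lb.d (nat_lit 137) (nat_lit 256) (nat_lit 0) (@Lb.g g8 (@Lb.r r1621 (@Lb.r r2391 (@Lb.r r2178 (@Lb.r r2664 (@Lb.d (nat_lit 85) (nat_lit 85) (nat_lit 289) (@Lb.t (@Lb.fp (nat_lit 3) t100)))))))))
noncomputable def l17006 : Lb := (@Lb.d (nat_lit 9) (nat_lit 336) (nat_lit 593) (@Lb.r r2182 (@Lb.r r2323 (@Lb.r r661 (@Lb.g g7 (@Lb.g g8 (@Lb.d (nat_lit 352) (nat_lit 16) (nat_lit 64) (@Lb.r r74 (@Lb.r r25 (@Lb.fm (nat_lit 3) t329))))))))))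
noncomputable def l17007 : Lb := (@Lb.r r21 (@Lb.d (nat_lit 2) (nat_lit 512) (nat_lit 66) (@Lb.g g8 (@Lb.g g10 (@Lb.g g7 (@Lb.r r386 (@Lb.r r97 (@Lb.r r72 (@Lb.d (nat_lit 356) (nat_lit 8) (nat_lit 520) (@Lb.t (@Lb.fm (nat_lit 9) t166)))))))))))
noncomputable def l17008 : Lb := (@Lb.d (nat_lit 2) (nat_lit 24) (nat_lit 74) (@Lb.g g8 (@Lb.g g9 (@Lb.g g10 (@Lb.g g11 (@Lb.r r423 (@Lb.r r1681 (@Lb.r r1432 (@Lb.r r1114 (@Lb.d (nat_lit 666) (nat_lit 137) (nat_lit 80) (@Lb.fm (nat_lit 9) t570)))))))))))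
noncomputable def l17009 : Lb := (@Lb.d (nat_lit 2) (nat_lit 265) (nat_lit 130) (@Lb.g g8 (@Lb.g g9 (@Lb.g g10 (@Lb.g g11 (@Lb.r r2730 (@Lb.r r420 (@Lb.r r283 (@Lb.r r1557 (@Lb.r r1060 (@Lb.d (nat_lit 425) (nat_lit 137) (nat_lit 361) (@Lb.fm (nat_lit 9) t3458))))))))))))
noncomputable def l17010 : Lb := (@Lb.d (nat_lit 424) (nat_lit 101) (nat_lit 8) (@Lb.r r1618 (@Lb.r r2721 (@Lb.r r2731 (@Lb.g g7 (@Lb.g g5 (@Lb.g g8 (@Lb.d (nat_lit 544) (nat_lit 1) (nat_lit 64) (@Lb.r r70 (@Lb.t (@Lb.fm (nat_lit 9) t3459)))))))))))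
noncomputable def l17011 : Lb := (@Lb.r r21 (@Lb.d (nat_lit 2) (nat_lit 256) (nat_lit 128) (@Lb.g g8 (@Lb.g g10 (@Lb.g g11 (@Lb.r r387 (@Lb.r r2580 (@Lb.r r25 (@Lb.d (nat_lit 321) (nat_lit 34) (nat_lit 393) (@Lb.t (@Lb.fm (nat_lit 9) t1644)))))))))))
noncomputable def l17012 : Lb := (@Lb.r r21 (@Lb.d (nat_lit 145) (nat_lit 256) (nat_lit 128) (@Lb.g g8 (@Lb.g g10 (@Lb.g g11 (@Lb.r r1691 (@Lb.r r409 (@Lb.r r90 (@Lb.r r1156 (@Lb.d (nat_lit 618) (nat_lit 69) (nat_lit 514) (@Lb.t (@Lb.fp (nat_lit 9) t278))))))))))))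
noncomputable def l17013 : Lb := (@Lb.d (nat_lit 2) (nat_lit 514) (nat_lit 128) (@Lb.g g8 (@Lb.g g9 (@Lb.g g10 (@Lb.g g11 (@Lb.r r1451 (@Lb.r r98 (@Lb.r r292 (@Lb.r r2069 (@Lb.r r1060 (@Lb.d (nat_lit 33) (nat_lit 41) (nat_lit 385) (@Lb.fp (nat_lit 9) t1089))))))))))))
noncomputable def l17014 : Lb := (@Lb.r r20 (@Lb.r r275 (@Lb.d (nat_lit 0) (nat_lit 138) (nat_lit 1) (@Lb.g g9 (@Lb.g g10 (@Lb.r r610 (@Lb.r r2631 (@Lb.r r1288 (@Lb.d (nat_lit 264) (nat_lit 1) (nat_lit 128) (@Lb.fm (nat_lit 3) t1383))))))))))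
noncomputable def l17015 : Lb := (@Lb.r r323 (@Lb.d (nat_lit 8) (nat_lit 514) (nat_lit 21) (@Lb.g g9 (@Lb.g g6 (@Lb.r r404 (@Lb.r r299 (@Lb.r r409 (@Lb.d (nat_lit 10) (nat_lit 153) (nat_lit 680) (@Lb.fp (nat_lit 3) t2231)))))))))
noncomputable def l17016 : Lb := (@Lb.d (nat_lit 273) (nat_lit 512) (nat_lit 17) (@Lb.r r24 (@Lb.r r101 (@Lb.g g11 (@Lb.g g6 (@Lb.d (nat_lit 0) (nat_lit 4) (nat_lit 1) (@Lb.fp (nat_lit 3) t108)))))))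
noncomputable def l17017 : Lb := (@Lb.d (nat_lit 656) (nat_lit 512) (nat_lit 262) (@Lb.r r24 (@Lb.r r101 (@Lb.r r386 (@Lb.g g11 (@Lb.g g6 (@Lb.d (nat_lit 0) (nat_lit 0) (nat_lit 1) (@Lb.fm (nat_lit 3) t868))))))))
noncomputable def l17018 : Lb := (@Lb.r r24 (@Lb.r r101 (@Lb.r r402 (@Lb.d (nat_lit 0) (nat_lit 600) (nat_lit 537) (@Lb.fm (nat_lit 1) t452)))))
noncomputable def l17019 : Lb := (@Lb.d (nat_lit 9) (nat_lit 258) (nat_lit 66) (@Lb.g g8 (@Lb.g g9 (@Lb.g g10 (@Lb.g g7 (@Lb.r r386 (@Lb.r r2145 (@Lb.r r24 (@Lb.d (nat_lit 8) (nat_lit 73) (nat_lit 41) (@Lb.fp (nat_lit 9) t167))))))))))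
noncomputable def l17020 : Lb := (@Lb.d (nat_lit 645) (nat_lit 512) (nat_lit 130) (@Lb.g g4 (@Lb.g g9 (@Lb.g g10 (@Lb.g g11 (@Lb.r r2214 (@Lb.r r545 (@Lb.r r611 (@Lb.r r2577 (@Lb.d (nat_lit 145) (nat_lit 138) (nat_lit 361) (@Lb.fp (nat_lit 9) t3460)))))))))))
noncomputable def l17021 : Lb := (@Lb.d (nat_lit 40) (nat_lit 513) (nat_lit 130) (@Lb.g g9 (@Lb.g g10 (@Lb.g g11 (@Lb.r r2695 (@Lb.r r1352 (@Lb.r r406 (@Lb.r r337 (@Lb.d (nat_lit 133) (nat_lit 5) (nat_lit 100) (@Lb.t (@Lb.fp (nat_lit 9) t2900)))))))))))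
noncomputable def l17022 : Lb := (@Lb.d (nat_lit 1) (nat_lit 522) (nat_lit 586) (@Lb.r r2321 (@Lb.r r134 (@Lb.r r1703 (@Lb.r r677 (@Lb.g g7 (@Lb.g g5 (@Lb.g g4 (@Lb.d (nat_lit 281) (nat_lit 1) (nat_lit 64) (@Lb.t (@Lb.fm (nat_lit 9) t3461)))))))))))
noncomputable def l17023 : Lb := (@Lb.d (nat_lit 134) (nat_lit 5) (nat_lit 128) (@Lb.g g8 (@Lb.g g9 (@Lb.g g10 (@Lb.g g11 (@Lb.r r1706 (@Lb.r r1411 (@Lb.r r1177 (@Lb.r r1156 (@Lb.d (nat_lit 297) (nat_lit 89) (nat_lit 665) (@Lb.fm (nat_lit 9) t606)))))))))))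
noncomputable def l17024 : Lb := (@Lb.d (nat_lit 150) (nat_lit 262) (nat_lit 96) (@Lb.r r580 (@Lb.r r615 (@Lb.r r402 (@Lb.r r593 (@Lb.g g7 (@Lb.g g5 (@Lb.g g4 (@Lb.d (nat_lit 18) (nat_lit 2) (nat_lit 68) (@Lb.t (@Lb.fp (nat_lit 9) t709)))))))))))
noncomputable def l17025 : Lb := (@Lb.d (nat_lit 645) (nat_lit 0) (nat_lit 130) (@Lb.g g4 (@Lb.g g9 (@Lb.g g10 (@Lb.g g11 (@Lb.r r2214 (@Lb.r r545 (@Lb.r r611 (@Lb.r r2577 (@Lb.d (nat_lit 144) (nat_lit 72) (nat_lit 361) (@Lb.fp (nat_lit 9) t3462)))))))))))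
noncomputable def l17026 : Lb := (@Lb.g g7 (@Lb.r r402 (@Lb.r r101 (@Lb.d (nat_lit 513) (nat_lit 640) (nat_lit 512) (@Lb.t (@Lb.fm (nat_lit 3) t1618))))))
noncomputable def l17027 : Lb := (@Lb.r r21 (@Lb.r r70 (@Lb.d (nat_lit 64) (nat_lit 256) (nat_lit 512) (@Lb.g g8 (@Lb.g g11 (@Lb.r r2374 (@Lb.r r2325 (@Lb.r r1544 (@Lb.d (nat_lit 66) (nat_lit 0) (nat_lit 5) (@Lb.fp (nat_lit 3) t3045))))))))))
noncomputable def l17028 : Lb := (@Lb.d (nat_lit 0) (nat_lit 512) (nat_lit 128) (@Lb.g g10 (@Lb.g g11 (@Lb.r r1691 (@Lb.r r2401 (@Lb.r r1174 (@Lb.r r8 (@Lb.d (nat_lit 26) (nat_lit 74) (nat_lit 18) (@Lb.fm (nat_lit 3) t646)))))))))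
noncomputable def l17029 : Lb := (@Lb.d (nat_lit 144) (nat_lit 9) (nat_lit 130) (@Lb.g g8 (@Lb.g g9 (@Lb.g g10 (@Lb.g g11 (@Lb.r r1666 (@Lb.r r1431 (@Lb.r r97 (@Lb.r r536 (@Lb.d (nat_lit 105) (nat_lit 41) (nat_lit 129) (@Lb.fm (nat_lit 9) t1167)))))))))))
noncomputable def l17030 : Lb := (@Lb.r r101 (@Lb.d (nat_lit 36) (nat_lit 262) (nat_lit 0) (@Lb.fm (nat_lit 1) t97)))
noncomputable def l17031 : Lb := (@Lb.d (nat_lit 2) (nat_lit 258) (nat_lit 130) (@Lb.g g8 (@Lb.g g9 (@Lb.g g10 (@Lb.g g11 (@Lb.r r1130 (@Lb.r r356 (@Lb.r r411 (@Lb.r r533 (@Lb.r r2084 (@Lb.d (nat_lit 166) (nat_lit 74) (nat_lit 353) (@Lb.fp (nat_lit 9) t1863))))))))))))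
noncomputable def l17032 : Lb := (@Lb.d (nat_lit 64) (nat_lit 422) (nat_lit 102) (@Lb.r r408 (@Lb.r r330 (@Lb.r r343 (@Lb.g g5 (@Lb.g g4 (@Lb.d (nat_lit 17) (nat_lit 37) (nat_lit 0) (@Lb.r r291 (@Lb.r r98 (@Lb.fp (nat_lit 3) t98))))))))))
noncomputable def l17033 : Lb := (@Lb.d (nat_lit 98) (nat_lit 422) (nat_lit 101) (@Lb.r r408 (@Lb.r r330 (@Lb.r r343 (@Lb.g g5 (@Lb.g g4 (@Lb.d (nat_lit 18) (nat_lit 4) (nat_lit 0) (@Lb.r r291 (@Lb.r r98 (@Lb.fp (nat_lit 3) t50))))))))))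
noncomputable def l17034 : Lb := (@Lb.d (nat_lit 9) (nat_lit 290) (nat_lit 0) (@Lb.g g8 (@Lb.g g9 (@Lb.r r2404 (@Lb.r r2331 (@Lb.r r2178 (@Lb.r r549 (@Lb.d (nat_lit 410) (nat_lit 18) (nat_lit 72) (@Lb.fm (nat_lit 3) t229)))))))))
noncomputable def l17035 : Lb := (@Lb.d (nat_lit 616) (nat_lit 38) (nat_lit 20) (@Lb.r r2661 (@Lb.r r2659 (@Lb.g g7 (@Lb.g g10 (@Lb.g g5 (@Lb.d (nat_lit 0) (nat_lit 6) (nat_lit 82) (@Lb.r r36 (@Lb.t (@Lb.fm (nat_lit 9) t820))))))))))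
noncomputable def l17036 : Lb := (@Lb.r r1045 (@Lb.r r36 (@Lb.d (nat_lit 512) (nat_lit 512) (nat_lit 0) (@Lb.fp (nat_lit 1) t2))))
noncomputable def l17037 : Lb := (@Lb.d (nat_lit 128) (nat_lit 38) (nat_lit 10) (@Lb.g g8 (@Lb.g g9 (@Lb.g g10 (@Lb.g g11 (@Lb.r r683 (@Lb.r r106 (@Lb.r r1305 (@Lb.r r516 (@Lb.d (nat_lit 521) (nat_lit 137) (nat_lit 97) (@Lb.fm (nat_lit 9) t3463)))))))))))
noncomputable def l17038 : Lb := (@Lb.r r323 (@Lb.d (nat_lit 161) (nat_lit 2) (nat_lit 2) (@Lb.g g8 (@Lb.g g9 (@Lb.g g10 (@Lb.r r2457 (@Lb.r r1319 (@Lb.r r1604 (@Lb.r r1098 (@Lb.d (nat_lit 342) (nat_lit 136) (nat_lit 136) (@Lb.t (@Lb.fm (nat_lit 9) t3464))))))))))))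
noncomputable def l17039 : Lb := (@Lb.r r24 (@Lb.r r2085 (@Lb.r r1122 (@Lb.r r1315 (@Lb.g g9 (@Lb.t (@Lb.p (nat_lit 1) (@Lb.fp (nat_lit 3) t594))))))))
noncomputable def l17040 : Lb := (@Lb.r r81 (@Lb.d (nat_lit 2) (nat_lit 520) (nat_lit 128) (@Lb.g g8 (@Lb.g g10 (@Lb.g g11 (@Lb.r r387 (@Lb.r r1317 (@Lb.r r2564 (@Lb.d (nat_lit 646) (nat_lit 9) (nat_lit 584) (@Lb.t (@Lb.fp (nat_lit 9) t2609)))))))))))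
noncomputable def l17041 : Lb := (@Lb.d (nat_lit 145) (nat_lit 517) (nat_lit 4) (@Lb.r r24 (@Lb.r r101 (@Lb.r r386 (@Lb.r r339 (@Lb.g g7 (@Lb.g g6 (@Lb.d (nat_lit 0) (nat_lit 0) (nat_lit 8) (@Lb.fp (nat_lit 3) t1523)))))))))
noncomputable def l17042 : Lb := (@Lb.r r24 (@Lb.r r101 (@Lb.d (nat_lit 5) (nat_lit 401) (nat_lit 392) (@Lb.fp (nat_lit 1) t3106))))
noncomputable def l17043 : Lb := (@Lb.g g7 (@Lb.r r24 (@Lb.r r101 (@Lb.r r402 (@Lb.d (nat_lit 5) (nat_lit 6) (nat_lit 64) (@Lb.t (@Lb.fp (nat_lit 3) t1831)))))))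
noncomputable def l17044 : Lb := (@Lb.d (nat_lit 130) (nat_lit 522) (nat_lit 0) (@Lb.g g8 (@Lb.g g9 (@Lb.r r599 (@Lb.r r594 (@Lb.r r417 (@Lb.r r104 (@Lb.d (nat_lit 33) (nat_lit 2) (nat_lit 137) (@Lb.fp (nat_lit 3) t119)))))))))
noncomputable def l17045 : Lb := (@Lb.r r24 (@Lb.r r101 (@Lb.d (nat_lit 5) (nat_lit 408) (nat_lit 266) (@Lb.fp (nat_lit 1) t3106))))
noncomputable def l17046 : Lb := (@Lb.d (nat_lit 0) (nat_lit 514) (nat_lit 0) (@Lb.g g9 (@Lb.r r104 (@Lb.r r406 (@Lb.r r25 (@Lb.d (nat_lit 106) (nat_lit 36) (nat_lit 66) (@Lb.t (@Lb.fp (nat_lit 3) t670))))))))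
noncomputable def l17047 : Lb := (@Lb.d (nat_lit 0) (nat_lit 261) (nat_lit 2) (@Lb.r r24 (@Lb.r r101 (@Lb.g g11 (@Lb.g g6 (@Lb.d (nat_lit 0) (nat_lit 4) (nat_lit 1) (@Lb.fp (nat_lit 3) t1037)))))))
noncomputable def l17048 : Lb := (@Lb.r r24 (@Lb.r r101 (@Lb.d (nat_lit 5) (nat_lit 145) (nat_lit 264) (@Lb.fp (nat_lit 1) t3106))))
noncomputable def l17049 : Lb := (@Lb.d (nat_lit 0) (nat_lit 0) (nat_lit 73) (@Lb.g g10 (@Lb.g g11 (@Lb.r r419 (@Lb.r r674 (@Lb.d (nat_lit 0) (nat_lit 132) (nat_lit 392) (@Lb.fp (nat_lit 3) t51)))))))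
noncomputable def l17050 : Lb := (@Lb.d (nat_lit 6) (nat_lit 345) (nat_lit 66) (@Lb.r r657 (@Lb.r r667 (@Lb.r r584 (@Lb.r r326 (@Lb.g g7 (@Lb.g g6 (@Lb.g g5 (@Lb.d (nat_lit 0) (nat_lit 2) (nat_lit 65) (@Lb.t (@Lb.fp (nat_lit 9) t74)))))))))))
noncomputable def l17051 : Lb := (@Lb.d (nat_lit 2) (nat_lit 520) (nat_lit 130) (@Lb.g g8 (@Lb.g g9 (@Lb.g g10 (@Lb.g g11 (@Lb.r r342 (@Lb.r r2728 (@Lb.r r2603 (@Lb.r r2581 (@Lb.d (nat_lit 388) (nat_lit 98) (nat_lit 330) (@Lb.fp (nat_lit 9) t125)))))))))))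
noncomputable def l17052 : Lb := (@Lb.d (nat_lit 10) (nat_lit 296) (nat_lit 64) (@Lb.g g8 (@Lb.g g10 (@Lb.g g11 (@Lb.r r2337 (@Lb.r r1303 (@Lb.r r1604 (@Lb.r r2186 (@Lb.d (nat_lit 256) (nat_lit 137) (nat_lit 38) (@Lb.t (@Lb.fm (nat_lit 9) t127)))))))))))
noncomputable def l17053 : Lb := (@Lb.d (nat_lit 0) (nat_lit 153) (nat_lit 410) (@Lb.r r2403 (@Lb.g g10 (@Lb.d (nat_lit 0) (nat_lit 8) (nat_lit 2) (@Lb.t (@Lb.fp (nat_lit 3) t3465))))))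
noncomputable def l17054 : Lb := (@Lb.d (nat_lit 0) (nat_lit 404) (nat_lit 409) (@Lb.r r2403 (@Lb.g g10 (@Lb.d (nat_lit 0) (nat_lit 8) (nat_lit 2) (@Lb.t (@Lb.fp (nat_lit 3) t333))))))
noncomputable def l17055 : Lb := (@Lb.d (nat_lit 130) (nat_lit 512) (nat_lit 0) (@Lb.r r24 (@Lb.r r101 (@Lb.r r402 (@Lb.g g7 (@Lb.t (@Lb.fp (nat_lit 3) t686)))))))
noncomputable def l17056 : Lb := (@Lb.d (nat_lit 0) (nat_lit 256) (nat_lit 130) (@Lb.g g10 (@Lb.g g11 (@Lb.r r419 (@Lb.r r386 (@Lb.d (nat_lit 0) (nat_lit 100) (nat_lit 154) (@Lb.fp (nat_lit 3) t305)))))))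
noncomputable def l17057 : Lb := (@Lb.d (nat_lit 0) (nat_lit 384) (nat_lit 598) (@Lb.r r1378 (@Lb.r r2723 (@Lb.g g7 (@Lb.g g6 (@Lb.g g5 (@Lb.d (nat_lit 0) (nat_lit 0) (nat_lit 66) (@Lb.t (@Lb.fm (nat_lit 9) t661)))))))))
noncomputable def l17058 : Lb := (@Lb.d (nat_lit 2) (nat_lit 258) (nat_lit 2) (@Lb.g g8 (@Lb.g g9 (@Lb.g g10 (@Lb.g g7 (@Lb.r r1193 (@Lb.r r1188 (@Lb.r r1158 (@Lb.d (nat_lit 289) (nat_lit 10) (nat_lit 85) (@Lb.fm (nat_lit 9) t939))))))))))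
noncomputable def l17059 : Lb := (@Lb.d (nat_lit 0) (nat_lit 256) (nat_lit 128) (@Lb.g g10 (@Lb.g g11 (@Lb.r r387 (@Lb.r r402 (@Lb.d (nat_lit 0) (nat_lit 74) (nat_lit 153) (@Lb.fp (nat_lit 3) t1482)))))))
noncomputable def l17060 : Lb := (@Lb.r r21 (@Lb.d (nat_lit 2) (nat_lit 0) (nat_lit 130) (@Lb.g g8 (@Lb.g g10 (@Lb.g g11 (@Lb.r r1691 (@Lb.r r1381 (@Lb.r r2202 (@Lb.r r2180 (@Lb.d (nat_lit 600) (nat_lit 2) (nat_lit 609) (@Lb.t (@Lb.fp (nat_lit 9) t284))))))))))))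
noncomputable def l17061 : Lb := (@Lb.g g10 (@Lb.g g7 (@Lb.d (nat_lit 0) (nat_lit 337) (nat_lit 522) (@Lb.fp (nat_lit 3) t885))))
noncomputable def l17062 : Lb := (@Lb.d (nat_lit 657) (nat_lit 596) (nat_lit 649) (@Lb.r r1185 (@Lb.r r594 (@Lb.r r1383 (@Lb.r r516 (@Lb.g g7 (@Lb.g g5 (@Lb.d (nat_lit 68) (nat_lit 1) (nat_lit 64) (@Lb.fp (nat_lit 3) t2316)))))))))
noncomputable def l17063 : Lb := (@Lb.r r323 (@Lb.d (nat_lit 130) (nat_lit 260) (nat_lit 0) (@Lb.g g8 (@Lb.g g9 (@Lb.g g10 (@Lb.r r599 (@Lb.r r98 (@Lb.r r97 (@Lb.r r2312 (@Lb.d (nat_lit 384) (nat_lit 9) (nat_lit 673) (@Lb.t (@Lb.fp (nat_lit 9) t3466))))))))))))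
noncomputable def l17064 : Lb := (@Lb.d (nat_lit 2) (nat_lit 528) (nat_lit 128) (@Lb.g g8 (@Lb.g g9 (@Lb.g g10 (@Lb.g g11 (@Lb.r r1619 (@Lb.r r405 (@Lb.r r1188 (@Lb.r r1158 (@Lb.d (nat_lit 641) (nat_lit 5) (nat_lit 160) (@Lb.fp (nat_lit 9) t1781)))))))))))
noncomputable def l17065 : Lb := (@Lb.r r82 (@Lb.r r275 (@Lb.d (nat_lit 130) (nat_lit 10) (nat_lit 0) (@Lb.g g8 (@Lb.g g9 (@Lb.r r663 (@Lb.r r146 (@Lb.r r2456 (@Lb.d (nat_lit 410) (nat_lit 82) (nat_lit 648) (@Lb.fp (nat_lit 3) t1754))))))))))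
noncomputable def l17066 : Lb := (@Lb.d (nat_lit 17) (nat_lit 641) (nat_lit 37) (@Lb.r r21 (@Lb.r r100 (@Lb.r r579 (@Lb.g g7 (@Lb.g g10 (@Lb.g g5 (@Lb.d (nat_lit 0) (nat_lit 1) (nat_lit 134) (@Lb.t (@Lb.fp (nat_lit 9) t3467))))))))))
noncomputable def l17067 : Lb := (@Lb.d (nat_lit 0) (nat_lit 0) (nat_lit 130) (@Lb.g g10 (@Lb.g g11 (@Lb.r r2691 (@Lb.r r2658 (@Lb.d (nat_lit 1) (nat_lit 37) (nat_lit 425) (@Lb.fp (nat_lit 3) t71)))))))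
noncomputable def l17068 : Lb := (@Lb.r r323 (@Lb.d (nat_lit 130) (nat_lit 516) (nat_lit 0) (@Lb.g g8 (@Lb.g g9 (@Lb.g g10 (@Lb.r r599 (@Lb.r r98 (@Lb.r r97 (@Lb.r r2312 (@Lb.d (nat_lit 386) (nat_lit 9) (nat_lit 673) (@Lb.t (@Lb.fp (nat_lit 9) t2369))))))))))))
noncomputable def l17069 : Lb := (@Lb.d (nat_lit 0) (nat_lit 1) (nat_lit 128) (@Lb.g g8 (@Lb.g g9 (@Lb.g g10 (@Lb.g g11 (@Lb.r r1379 (@Lb.r r1414 (@Lb.r r2660 (@Lb.r r2581 (@Lb.d (nat_lit 390) (nat_lit 17) (nat_lit 576) (@Lb.fm (nat_lit 9) t331)))))))))))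
noncomputable def l17070 : Lb := (@Lb.r r21 (@Lb.d (nat_lit 33) (nat_lit 0) (nat_lit 72) (@Lb.g g8 (@Lb.g g10 (@Lb.g g11 (@Lb.r r2439 (@Lb.r r1608 (@Lb.r r2662 (@Lb.r r97 (@Lb.d (nat_lit 645) (nat_lit 162) (nat_lit 256) (@Lb.t (@Lb.fm (nat_lit 9) t50))))))))))))
noncomputable def l17071 : Lb := (@Lb.r r323 (@Lb.d (nat_lit 0) (nat_lit 33) (nat_lit 2) (@Lb.g g8 (@Lb.g g9 (@Lb.g g10 (@Lb.r r2647 (@Lb.r r74 (@Lb.r r1320 (@Lb.r r1433 (@Lb.d (nat_lit 662) (nat_lit 150) (nat_lit 681) (@Lb.t (@Lb.fm (nat_lit 9) t51))))))))))))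
noncomputable def l17072 : Lb := (@Lb.d (nat_lit 10) (nat_lit 520) (nat_lit 72) (@Lb.g g8 (@Lb.g g9 (@Lb.g g10 (@Lb.g g11 (@Lb.r r1699 (@Lb.r r664 (@Lb.r r346 (@Lb.r r2585 (@Lb.d (nat_lit 409) (nat_lit 169) (nat_lit 88) (@Lb.fp (nat_lit 9) t3278)))))))))))
noncomputable def l17073 : Lb := (@Lb.r r323 (@Lb.d (nat_lit 10) (nat_lit 512) (nat_lit 2) (@Lb.g g8 (@Lb.g g9 (@Lb.g g10 (@Lb.r r74 (@Lb.r r584 (@Lb.r r667 (@Lb.r r337 (@Lb.d (nat_lit 10) (nat_lit 170) (nat_lit 130) (@Lb.t (@Lb.fm (nat_lit 9) t51))))))))))))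
noncomputable def l17074 : Lb := (@Lb.r r323 (@Lb.d (nat_lit 0) (nat_lit 33) (nat_lit 2) (@Lb.g g8 (@Lb.g g9 (@Lb.g g10 (@Lb.r r2647 (@Lb.r r74 (@Lb.r r1320 (@Lb.r r1433 (@Lb.d (nat_lit 661) (nat_lit 152) (nat_lit 682) (@Lb.t (@Lb.fm (nat_lit 9) t51))))))))))))
noncomputable def l17075 : Lb := (@Lb.r r21 (@Lb.d (nat_lit 6) (nat_lit 8) (nat_lit 130) (@Lb.g g8 (@Lb.g g10 (@Lb.g g11 (@Lb.r r395 (@Lb.r r101 (@Lb.r r410 (@Lb.d (nat_lit 282) (nat_lit 26) (nat_lit 101) (@Lb.t (@Lb.fm (nat_lit 9) t61)))))))))))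
noncomputable def l17076 : Lb := (@Lb.d (nat_lit 146) (nat_lit 2) (nat_lit 64) (@Lb.g g8 (@Lb.g g9 (@Lb.g g10 (@Lb.g g11 (@Lb.r r1675 (@Lb.r r613 (@Lb.r r666 (@Lb.r r1560 (@Lb.d (nat_lit 586) (nat_lit 101) (nat_lit 656) (@Lb.fp (nat_lit 9) t125)))))))))))
noncomputable def l17077 : Lb := (@Lb.d (nat_lit 0) (nat_lit 257) (nat_lit 130) (@Lb.g g8 (@Lb.g g9 (@Lb.g g10 (@Lb.g g11 (@Lb.r r1451 (@Lb.r r1321 (@Lb.r r104 (@Lb.r r70 (@Lb.r r132 (@Lb.d (nat_lit 2) (nat_lit 74) (nat_lit 681) (@Lb.fp (nat_lit 9) t51))))))))))))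
noncomputable def l17078 : Lb := (@Lb.d (nat_lit 101) (nat_lit 410) (nat_lit 360) (@Lb.r r408 (@Lb.r r330 (@Lb.r r343 (@Lb.g g5 (@Lb.g g4 (@Lb.d (nat_lit 17) (nat_lit 4) (nat_lit 0) (@Lb.r r291 (@Lb.r r98 (@Lb.fp (nat_lit 3) t718))))))))))
noncomputable def l17079 : Lb := (@Lb.r r323 (@Lb.d (nat_lit 8) (nat_lit 8) (nat_lit 34) (@Lb.g g8 (@Lb.g g10 (@Lb.r r2577 (@Lb.r r2459 (@Lb.r r2436 (@Lb.d (nat_lit 336) (nat_lit 5) (nat_lit 681) (@Lb.fm (nat_lit 3) t221)))))))))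
noncomputable def l17080 : Lb := (@Lb.d (nat_lit 101) (nat_lit 357) (nat_lit 72) (@Lb.r r101 (@Lb.r r386 (@Lb.r r339 (@Lb.g g7 (@Lb.g g6 (@Lb.g g4 (@Lb.d (nat_lit 0) (nat_lit 0) (nat_lit 65) (@Lb.t (@Lb.fp (nat_lit 9) t50))))))))))
noncomputable def l17081 : Lb := (@Lb.r r323 (@Lb.d (nat_lit 1) (nat_lit 258) (nat_lit 2) (@Lb.g g8 (@Lb.g g9 (@Lb.g g10 (@Lb.r r401 (@Lb.r r299 (@Lb.r r392 (@Lb.r r74 (@Lb.d (nat_lit 33) (nat_lit 10) (nat_lit 138) (@Lb.t (@Lb.fp (nat_lit 9) t61))))))))))))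
noncomputable def l17082 : Lb := (@Lb.d (nat_lit 8) (nat_lit 514) (nat_lit 73) (@Lb.g g9 (@Lb.g g10 (@Lb.g g11 (@Lb.r r586 (@Lb.r r328 (@Lb.r r535 (@Lb.r r289 (@Lb.d (nat_lit 8) (nat_lit 9) (nat_lit 2) (@Lb.t (@Lb.fp (nat_lit 9) t51)))))))))))
noncomputable def l17083 : Lb := (@Lb.d (nat_lit 1) (nat_lit 582) (nat_lit 582) (@Lb.r r1313 (@Lb.r r2327 (@Lb.r r584 (@Lb.r r326 (@Lb.g g7 (@Lb.g g6 (@Lb.g g5 (@Lb.d (nat_lit 4) (nat_lit 2) (nat_lit 65) (@Lb.t (@Lb.fp (nat_lit 9) t125)))))))))))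
noncomputable def l17084 : Lb := (@Lb.d (nat_lit 0) (nat_lit 276) (nat_lit 66) (@Lb.r r657 (@Lb.r r667 (@Lb.r r584 (@Lb.g g6 (@Lb.g g5 (@Lb.d (nat_lit 16) (nat_lit 2) (nat_lit 1) (@Lb.r r387 (@Lb.fm (nat_lit 3) t68)))))))))
noncomputable def l17085 : Lb := (@Lb.d (nat_lit 0) (nat_lit 66) (nat_lit 32) (@Lb.r r2403 (@Lb.g g10 (@Lb.d (nat_lit 0) (nat_lit 8) (nat_lit 2) (@Lb.t (@Lb.fp (nat_lit 3) t3468))))))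
noncomputable def l17086 : Lb := (@Lb.r r275 (@Lb.d (nat_lit 2) (nat_lit 546) (nat_lit 2) (@Lb.g g8 (@Lb.g g9 (@Lb.g g10 (@Lb.r r419 (@Lb.r r1702 (@Lb.r r1636 (@Lb.r r1557 (@Lb.d (nat_lit 385) (nat_lit 42) (nat_lit 642) (@Lb.t (@Lb.fp (nat_lit 9) t1001))))))))))))
noncomputable def l17087 : Lb := (@Lb.d (nat_lit 0) (nat_lit 514) (nat_lit 0) (@Lb.g g9 (@Lb.r r2339 (@Lb.r r2146 (@Lb.r r97 (@Lb.d (nat_lit 5) (nat_lit 145) (nat_lit 552) (@Lb.t (@Lb.fm (nat_lit 3) t1970))))))))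
noncomputable def l17088 : Lb := (@Lb.r r275 (@Lb.d (nat_lit 2) (nat_lit 521) (nat_lit 1) (@Lb.g g8 (@Lb.g g9 (@Lb.g g10 (@Lb.r r1194 (@Lb.r r1188 (@Lb.r r2341 (@Lb.r r2579 (@Lb.d (nat_lit 385) (nat_lit 0) (nat_lit 10) (@Lb.t (@Lb.fp (nat_lit 9) t270))))))))))))
noncomputable def l17089 : Lb := (@Lb.r r275 (@Lb.d (nat_lit 2) (nat_lit 258) (nat_lit 2) (@Lb.g g8 (@Lb.g g9 (@Lb.g g10 (@Lb.r r1194 (@Lb.r r1188 (@Lb.r r2341 (@Lb.r r2579 (@Lb.d (nat_lit 385) (nat_lit 0) (nat_lit 10) (@Lb.t (@Lb.fp (nat_lit 9) t278))))))))))))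
noncomputable def l17090 : Lb := (@Lb.d (nat_lit 1) (nat_lit 545) (nat_lit 66) (@Lb.g g8 (@Lb.g g9 (@Lb.g g10 (@Lb.g g11 (@Lb.r r595 (@Lb.r r1702 (@Lb.r r1636 (@Lb.r r1557 (@Lb.d (nat_lit 385) (nat_lit 72) (nat_lit 258) (@Lb.fp (nat_lit 9) t1001)))))))))))
noncomputable def l17091 : Lb := (@Lb.d (nat_lit 297) (nat_lit 325) (nat_lit 0) (@Lb.r r164 (@Lb.r r150 (@Lb.r r1619 (@Lb.g g5 (@Lb.g g4 (@Lb.d (nat_lit 16) (nat_lit 65) (nat_lit 0) (@Lb.r r291 (@Lb.r r98 (@Lb.fm (nat_lit 3) t803))))))))))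
noncomputable def l17092 : Lb := (@Lb.d (nat_lit 100) (nat_lit 133) (nat_lit 662) (@Lb.r r1297 (@Lb.r r611 (@Lb.r r545 (@Lb.r r2214 (@Lb.g g7 (@Lb.g g6 (@Lb.g g5 (@Lb.g g8 (@Lb.d (nat_lit 329) (nat_lit 0) (nat_lit 129) (@Lb.fp (nat_lit 9) t3469)))))))))))
noncomputable def l17093 : Lb := (@Lb.r r21 (@Lb.d (nat_lit 98) (nat_lit 512) (nat_lit 1) (@Lb.g g8 (@Lb.g g10 (@Lb.g g11 (@Lb.r r327 (@Lb.r r1370 (@Lb.r r145 (@Lb.r r1444 (@Lb.d (nat_lit 324) (nat_lit 98) (nat_lit 408) (@Lb.t (@Lb.fm (nat_lit 9) t803))))))))))))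
noncomputable def l17094 : Lb := (@Lb.d (nat_lit 389) (nat_lit 160) (nat_lit 384) (@Lb.r r24 (@Lb.r r2337 (@Lb.r r1363 (@Lb.r r582 (@Lb.g g6 (@Lb.g g5 (@Lb.g g4 (@Lb.d (nat_lit 1) (nat_lit 1) (nat_lit 1) (@Lb.t (@Lb.fp (nat_lit 9) t1895)))))))))))
noncomputable def l17095 : Lb := (@Lb.d (nat_lit 130) (nat_lit 514) (nat_lit 130) (@Lb.g g8 (@Lb.g g9 (@Lb.g g10 (@Lb.g g11 (@Lb.r r276 (@Lb.r r1563 (@Lb.r r405 (@Lb.r r1366 (@Lb.r r2724 (@Lb.d (nat_lit 521) (nat_lit 66) (nat_lit 393) (@Lb.fm (nat_lit 9) t2666))))))))))))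
noncomputable def l17096 : Lb := (@Lb.r r81 (@Lb.r r323 (@Lb.d (nat_lit 33) (nat_lit 260) (nat_lit 41) (@Lb.g g8 (@Lb.g g6 (@Lb.r r105 (@Lb.r r2596 (@Lb.r r2439 (@Lb.d (nat_lit 401) (nat_lit 26) (nat_lit 17) (@Lb.fm (nat_lit 3) t1246))))))))))
noncomputable def l17097 : Lb := (@Lb.r r81 (@Lb.r r323 (@Lb.d (nat_lit 33) (nat_lit 4) (nat_lit 41) (@Lb.g g8 (@Lb.g g6 (@Lb.r r105 (@Lb.r r2596 (@Lb.r r2439 (@Lb.d (nat_lit 402) (nat_lit 26) (nat_lit 17) (@Lb.fm (nat_lit 3) t981))))))))))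
noncomputable def l17098 : Lb := (@Lb.d (nat_lit 128) (nat_lit 322) (nat_lit 136) (@Lb.g g9 (@Lb.g g11 (@Lb.r r420 (@Lb.r r390 (@Lb.r r1387 (@Lb.d (nat_lit 34) (nat_lit 26) (nat_lit 150) (@Lb.fp (nat_lit 3) t820))))))))
noncomputable def l17099 : Lb := (@Lb.d (nat_lit 0) (nat_lit 536) (nat_lit 585) (@Lb.g g10 (@Lb.g g7 (@Lb.d (nat_lit 0) (nat_lit 64) (nat_lit 148) (@Lb.fp (nat_lit 3) t51)))))
noncomputable def l17100 : Lb := (@Lb.d (nat_lit 0) (nat_lit 74) (nat_lit 514) (@Lb.r r402 (@Lb.g g11 (@Lb.d (nat_lit 0) (nat_lit 0) (nat_lit 128) (@Lb.t (@Lb.fm (nat_lit 3) t295))))))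
noncomputable def l17101 : Lb := (@Lb.d (nat_lit 0) (nat_lit 8) (nat_lit 137) (@Lb.g g10 (@Lb.g g11 (@Lb.r r2451 (@Lb.d (nat_lit 0) (nat_lit 26) (nat_lit 537) (@Lb.fm (nat_lit 3) t387))))))
noncomputable def l17102 : Lb := (@Lb.d (nat_lit 1) (nat_lit 26) (nat_lit 136) (@Lb.g g8 (@Lb.g g9 (@Lb.g g10 (@Lb.g g11 (@Lb.r r427 (@Lb.r r2474 (@Lb.r r409 (@Lb.r r2436 (@Lb.d (nat_lit 361) (nat_lit 0) (nat_lit 649) (@Lb.fm (nat_lit 9) t803)))))))))))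
noncomputable def l17103 : Lb := (@Lb.d (nat_lit 10) (nat_lit 602) (nat_lit 650) (@Lb.r r402 (@Lb.r r101 (@Lb.r r24 (@Lb.g g10 (@Lb.t (@Lb.fm (nat_lit 3) t1811)))))))
noncomputable def l17104 : Lb := (@Lb.d (nat_lit 38) (nat_lit 389) (nat_lit 97) (@Lb.r r100 (@Lb.r r609 (@Lb.r r402 (@Lb.r r555 (@Lb.g g8 (@Lb.d (nat_lit 65) (nat_lit 0) (nat_lit 0) (@Lb.t (@Lb.fm (nat_lit 3) t40)))))))))
noncomputable def l17105 : Lb := (@Lb.r r1346 (@Lb.d (nat_lit 0) (nat_lit 289) (nat_lit 4) (@Lb.g g9 (@Lb.g g7 (@Lb.r r417 (@Lb.d (nat_lit 5) (nat_lit 38) (nat_lit 532) (@Lb.fm (nat_lit 3) t2196)))))))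
noncomputable def l17106 : Lb := (@Lb.d (nat_lit 128) (nat_lit 2) (nat_lit 130) (@Lb.g g8 (@Lb.g g9 (@Lb.g g10 (@Lb.g g11 (@Lb.r r2327 (@Lb.r r2713 (@Lb.r r602 (@Lb.r r600 (@Lb.d (nat_lit 105) (nat_lit 38) (nat_lit 153) (@Lb.fm (nat_lit 9) t2666)))))))))))
noncomputable def l17107 : Lb := (@Lb.r r21 (@Lb.d (nat_lit 130) (nat_lit 512) (nat_lit 132) (@Lb.g g8 (@Lb.g g10 (@Lb.g g11 (@Lb.r r651 (@Lb.r r357 (@Lb.r r154 (@Lb.r r132 (@Lb.d (nat_lit 88) (nat_lit 25) (nat_lit 134) (@Lb.t (@Lb.fp (nat_lit 9) t68))))))))))))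
noncomputable def l17108 : Lb := (@Lb.r r21 (@Lb.r r323 (@Lb.d (nat_lit 17) (nat_lit 0) (nat_lit 0) (@Lb.g g8 (@Lb.g g10 (@Lb.r r2379 (@Lb.r r1158 (@Lb.r r2133 (@Lb.r r1160 (@Lb.d (nat_lit 530) (nat_lit 0) (nat_lit 34) (@Lb.fm (nat_lit 3) t321)))))))))))
noncomputable def l17109 : Lb := (@Lb.d (nat_lit 0) (nat_lit 256) (nat_lit 128) (@Lb.g g8 (@Lb.g g10 (@Lb.g g11 (@Lb.r r602 (@Lb.r r584 (@Lb.r r299 (@Lb.r r289 (@Lb.d (nat_lit 69) (nat_lit 130) (nat_lit 0) (@Lb.t (@Lb.fm (nat_lit 9) t1115)))))))))))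
noncomputable def l17110 : Lb := (@Lb.d (nat_lit 0) (nat_lit 261) (nat_lit 128) (@Lb.g g9 (@Lb.g g10 (@Lb.g g11 (@Lb.r r586 (@Lb.r r584 (@Lb.r r299 (@Lb.r r289 (@Lb.d (nat_lit 9) (nat_lit 130) (nat_lit 0) (@Lb.t (@Lb.fm (nat_lit 9) t501)))))))))))
noncomputable def l17111 : Lb := (@Lb.d (nat_lit 548) (nat_lit 33) (nat_lit 0) (@Lb.g g8 (@Lb.g g9 (@Lb.r r1363 (@Lb.r r1634 (@Lb.r r2657 (@Lb.d (nat_lit 0) (nat_lit 169) (nat_lit 170) (@Lb.fp (nat_lit 3) t2065))))))))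
noncomputable def l17112 : Lb := (@Lb.d (nat_lit 0) (nat_lit 534) (nat_lit 522) (@Lb.g g9 (@Lb.g g10 (@Lb.g g7 (@Lb.r r1618 (@Lb.r r345 (@Lb.r r24 (@Lb.d (nat_lit 129) (nat_lit 0) (nat_lit 357) (@Lb.t (@Lb.fm (nat_lit 9) t377))))))))))
noncomputable def l17113 : Lb := (@Lb.d (nat_lit 0) (nat_lit 22) (nat_lit 586) (@Lb.g g9 (@Lb.g g10 (@Lb.g g7 (@Lb.r r1618 (@Lb.r r345 (@Lb.r r24 (@Lb.d (nat_lit 130) (nat_lit 0) (nat_lit 357) (@Lb.t (@Lb.fm (nat_lit 9) t378))))))))))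
noncomputable def l17114 : Lb := (@Lb.d (nat_lit 0) (nat_lit 0) (nat_lit 73) (@Lb.g g9 (@Lb.g g10 (@Lb.g g11 (@Lb.r r611 (@Lb.r r1610 (@Lb.r r2644 (@Lb.r r1321 (@Lb.d (nat_lit 153) (nat_lit 16) (nat_lit 96) (@Lb.t (@Lb.fm (nat_lit 9) t3470)))))))))))
noncomputable def l17115 : Lb := (@Lb.d (nat_lit 0) (nat_lit 256) (nat_lit 73) (@Lb.g g10 (@Lb.g g11 (@Lb.r r1691 (@Lb.r r1610 (@Lb.r r24 (@Lb.r r101 (@Lb.d (nat_lit 616) (nat_lit 82) (nat_lit 645) (@Lb.fp (nat_lit 3) t3471)))))))))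
noncomputable def l17116 : Lb := (@Lb.d (nat_lit 4) (nat_lit 266) (nat_lit 1) (@Lb.g g8 (@Lb.g g9 (@Lb.g g10 (@Lb.r r2729 (@Lb.r r1642 (@Lb.r r1643 (@Lb.r r1636 (@Lb.d (nat_lit 521) (nat_lit 154) (nat_lit 161) (@Lb.t (@Lb.fm (nat_lit 9) t971)))))))))))
noncomputable def l17117 : Lb := (@Lb.d (nat_lit 582) (nat_lit 582) (nat_lit 322) (@Lb.r r2312 (@Lb.r r81 (@Lb.r r1623 (@Lb.g g6 (@Lb.g g5 (@Lb.g g4 (@Lb.d (nat_lit 65) (nat_lit 1) (nat_lit 33) (@Lb.r r387 (@Lb.t (@Lb.fp (nat_lit 9) t1022)))))))))))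
noncomputable def l17118 : Lb := (@Lb.d (nat_lit 0) (nat_lit 8) (nat_lit 2) (@Lb.g g10 (@Lb.r r1427 (@Lb.r r101 (@Lb.r r24 (@Lb.d (nat_lit 290) (nat_lit 0) (nat_lit 17) (@Lb.t (@Lb.fp (nat_lit 3) t145))))))))
noncomputable def l17119 : Lb := (@Lb.r r21 (@Lb.d (nat_lit 160) (nat_lit 256) (nat_lit 65) (@Lb.g g8 (@Lb.g g10 (@Lb.g g11 (@Lb.r r1691 (@Lb.r r1689 (@Lb.r r1370 (@Lb.r r1556 (@Lb.d (nat_lit 341) (nat_lit 84) (nat_lit 169) (@Lb.t (@Lb.fp (nat_lit 9) t74))))))))))))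
noncomputable def l17120 : Lb := (@Lb.r r21 (@Lb.r r263 (@Lb.d (nat_lit 2) (nat_lit 512) (nat_lit 2) (@Lb.g g8 (@Lb.g g10 (@Lb.r r327 (@Lb.r r85 (@Lb.r r98 (@Lb.r r152 (@Lb.d (nat_lit 37) (nat_lit 4) (nat_lit 2) (@Lb.fp (nat_lit 3) t510)))))))))))
noncomputable def l17121 : Lb := (@Lb.d (nat_lit 2) (nat_lit 265) (nat_lit 8) (@Lb.g g8 (@Lb.g g9 (@Lb.g g11 (@Lb.r r150 (@Lb.r r1369 (@Lb.r r547 (@Lb.d (nat_lit 609) (nat_lit 144) (nat_lit 585) (@Lb.t (@Lb.fm (nat_lit 9) t980))))))))))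
noncomputable def l17122 : Lb := (@Lb.d (nat_lit 4) (nat_lit 522) (nat_lit 8) (@Lb.g g8 (@Lb.g g9 (@Lb.g g11 (@Lb.r r150 (@Lb.r r1369 (@Lb.r r547 (@Lb.d (nat_lit 610) (nat_lit 144) (nat_lit 585) (@Lb.t (@Lb.fm (nat_lit 9) t980))))))))))
noncomputable def l17123 : Lb := (@Lb.d (nat_lit 4) (nat_lit 514) (nat_lit 130) (@Lb.g g8 (@Lb.g g9 (@Lb.g g10 (@Lb.g g11 (@Lb.r r1451 (@Lb.r r386 (@Lb.r r1121 (@Lb.r r24 (@Lb.d (nat_lit 265) (nat_lit 137) (nat_lit 658) (@Lb.fm (nat_lit 9) t756)))))))))))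
noncomputable def l17124 : Lb := (@Lb.d (nat_lit 582) (nat_lit 582) (nat_lit 322) (@Lb.r r2312 (@Lb.r r81 (@Lb.r r1623 (@Lb.g g6 (@Lb.g g5 (@Lb.g g4 (@Lb.d (nat_lit 64) (nat_lit 6) (nat_lit 34) (@Lb.r r387 (@Lb.t (@Lb.fp (nat_lit 9) t1022)))))))))))
noncomputable def l17125 : Lb := (@Lb.d (nat_lit 0) (nat_lit 0) (nat_lit 17) (@Lb.g g10 (@Lb.r r264 (@Lb.r r279 (@Lb.r r2081 (@Lb.r r1540 (@Lb.d (nat_lit 0) (nat_lit 64) (nat_lit 17) (@Lb.t (@Lb.fp (nat_lit 3) t1123)))))))))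
noncomputable def l17126 : Lb := (@Lb.d (nat_lit 2) (nat_lit 512) (nat_lit 10) (@Lb.g g8 (@Lb.g g10 (@Lb.r r2449 (@Lb.d (nat_lit 410) (nat_lit 154) (nat_lit 258) (@Lb.fm (nat_lit 3) t1375))))))
noncomputable def l17127 : Lb := (@Lb.r r264 (@Lb.r r279 (@Lb.r r2178 (@Lb.r r2081 (@Lb.r r1540 (@Lb.d (nat_lit 0) (nat_lit 576) (nat_lit 0) (@Lb.fm (nat_lit 1) t1123)))))))
noncomputable def l17128 : Lb := (@Lb.d (nat_lit 8) (nat_lit 5) (nat_lit 128) (@Lb.g g9 (@Lb.g g10 (@Lb.g g11 (@Lb.r r582 (@Lb.r r388 (@Lb.r r2715 (@Lb.r r1445 (@Lb.d (nat_lit 608) (nat_lit 97) (nat_lit 18) (@Lb.t (@Lb.fm (nat_lit 9) t3472)))))))))))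
noncomputable def l17129 : Lb := (@Lb.d (nat_lit 1) (nat_lit 258) (nat_lit 130) (@Lb.g g4 (@Lb.g g9 (@Lb.g g10 (@Lb.g g11 (@Lb.r r2435 (@Lb.r r2193 (@Lb.r r2450 (@Lb.d (nat_lit 1) (nat_lit 149) (nat_lit 612) (@Lb.fp (nat_lit 9) t590))))))))))
noncomputable def l17130 : Lb := (@Lb.d (nat_lit 128) (nat_lit 256) (nat_lit 128) (@Lb.g g11 (@Lb.r r264 (@Lb.r r1351 (@Lb.r r89 (@Lb.r r2658 (@Lb.d (nat_lit 272) (nat_lit 138) (nat_lit 612) (@Lb.t (@Lb.fm (nat_lit 3) t3473)))))))))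
noncomputable def l17131 : Lb := (@Lb.d (nat_lit 17) (nat_lit 42) (nat_lit 37) (@Lb.r r665 (@Lb.r r603 (@Lb.g g6 (@Lb.g g5 (@Lb.d (nat_lit 16) (nat_lit 16) (nat_lit 1) (@Lb.r r387 (@Lb.fp (nat_lit 3) t1108))))))))
noncomputable def l17132 : Lb := (@Lb.r r82 (@Lb.d (nat_lit 2) (nat_lit 2) (nat_lit 136) (@Lb.g g8 (@Lb.g g9 (@Lb.g g11 (@Lb.r r138 (@Lb.r r597 (@Lb.r r664 (@Lb.r r411 (@Lb.d (nat_lit 105) (nat_lit 26) (nat_lit 21) (@Lb.t (@Lb.fm (nat_lit 9) t3474))))))))))))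
noncomputable def l17133 : Lb := (@Lb.r r82 (@Lb.r r275 (@Lb.d (nat_lit 34) (nat_lit 0) (nat_lit 0) (@Lb.g g8 (@Lb.g g9 (@Lb.r r2471 (@Lb.r r582 (@Lb.r r2073 (@Lb.r r408 (@Lb.d (nat_lit 154) (nat_lit 26) (nat_lit 68) (@Lb.fp (nat_lit 3) t19)))))))))))
noncomputable def l17134 : Lb := (@Lb.r r21 (@Lb.d (nat_lit 386) (nat_lit 8) (nat_lit 66) (@Lb.g g8 (@Lb.g g10 (@Lb.g g11 (@Lb.r r1419 (@Lb.r r101 (@Lb.r r410 (@Lb.d (nat_lit 9) (nat_lit 149) (nat_lit 649) (@Lb.t (@Lb.fm (nat_lit 9) t1606)))))))))))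
noncomputable def l17135 : Lb := (@Lb.d (nat_lit 2) (nat_lit 550) (nat_lit 10) (@Lb.g g8 (@Lb.g g9 (@Lb.g g10 (@Lb.g g11 (@Lb.r r599 (@Lb.r r661 (@Lb.r r1178 (@Lb.r r24 (@Lb.d (nat_lit 389) (nat_lit 89) (nat_lit 25) (@Lb.fm (nat_lit 9) t2779)))))))))))
noncomputable def l17136 : Lb := (@Lb.r r21 (@Lb.r r70 (@Lb.d (nat_lit 390) (nat_lit 0) (nat_lit 0) (@Lb.g g4 (@Lb.r r74 (@Lb.r r25 (@Lb.d (nat_lit 586) (nat_lit 0) (nat_lit 0) (@Lb.t (@Lb.fm (nat_lit 3) t2691)))))))))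
noncomputable def l17137 : Lb := (@Lb.r r21 (@Lb.d (nat_lit 1) (nat_lit 256) (nat_lit 130) (@Lb.g g8 (@Lb.g g10 (@Lb.g g11 (@Lb.r r1691 (@Lb.r r386 (@Lb.r r1429 (@Lb.r r2632 (@Lb.d (nat_lit 657) (nat_lit 37) (nat_lit 549) (@Lb.t (@Lb.fp (nat_lit 9) t3475))))))))))))
noncomputable def l17138 : Lb := (@Lb.d (nat_lit 2) (nat_lit 260) (nat_lit 74) (@Lb.g g8 (@Lb.g g9 (@Lb.g g10 (@Lb.g g11 (@Lb.r r619 (@Lb.r r1610 (@Lb.r r660 (@Lb.r r425 (@Lb.r r2084 (@Lb.d (nat_lit 280) (nat_lit 168) (nat_lit 617) (@Lb.fp (nat_lit 9) t848))))))))))))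
noncomputable def l17139 : Lb := (@Lb.d (nat_lit 406) (nat_lit 328) (nat_lit 514) (@Lb.r r1604 (@Lb.r r1621 (@Lb.r r427 (@Lb.r r2454 (@Lb.g g6 (@Lb.g g5 (@Lb.g g4 (@Lb.d (nat_lit 1) (nat_lit 1) (nat_lit 1) (@Lb.t (@Lb.fm (nat_lit 9) t377)))))))))))
noncomputable def l17140 : Lb := (@Lb.d (nat_lit 2) (nat_lit 33) (nat_lit 66) (@Lb.g g8 (@Lb.g g9 (@Lb.g g10 (@Lb.g g11 (@Lb.r r2390 (@Lb.r r2711 (@Lb.r r609 (@Lb.r r24 (@Lb.d (nat_lit 168) (nat_lit 25) (nat_lit 105) (@Lb.fm (nat_lit 9) t3476)))))))))))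
noncomputable def l17141 : Lb := (@Lb.d (nat_lit 530) (nat_lit 25) (nat_lit 612) (@Lb.r r2706 (@Lb.r r2389 (@Lb.g g7 (@Lb.g g6 (@Lb.g g5 (@Lb.d (nat_lit 0) (nat_lit 6) (nat_lit 132) (@Lb.t (@Lb.fm (nat_lit 9) t1352)))))))))
noncomputable def l17142 : Lb := (@Lb.d (nat_lit 0) (nat_lit 537) (nat_lit 612) (@Lb.r r2706 (@Lb.r r2385 (@Lb.g g7 (@Lb.g g6 (@Lb.g g5 (@Lb.d (nat_lit 0) (nat_lit 5) (nat_lit 66) (@Lb.t (@Lb.fm (nat_lit 9) t144)))))))))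
noncomputable def l17143 : Lb := (@Lb.d (nat_lit 138) (nat_lit 0) (nat_lit 26) (@Lb.g g8 (@Lb.g g6 (@Lb.r r661 (@Lb.r r1431 (@Lb.r r2664 (@Lb.d (nat_lit 357) (nat_lit 90) (nat_lit 257) (@Lb.fm (nat_lit 3) t100))))))))
noncomputable def l17144 : Lb := (@Lb.d (nat_lit 10) (nat_lit 256) (nat_lit 64) (@Lb.g g8 (@Lb.g g10 (@Lb.g g11 (@Lb.r r2581 (@Lb.r r279 (@Lb.r r676 (@Lb.r r1158 (@Lb.d (nat_lit 0) (nat_lit 90) (nat_lit 273) (@Lb.t (@Lb.fp (nat_lit 9) t100)))))))))))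
noncomputable def l17145 : Lb := (@Lb.d (nat_lit 144) (nat_lit 258) (nat_lit 64) (@Lb.g g8 (@Lb.g g9 (@Lb.g g10 (@Lb.g g11 (@Lb.r r427 (@Lb.r r1602 (@Lb.r r409 (@Lb.r r388 (@Lb.d (nat_lit 104) (nat_lit 40) (nat_lit 73) (@Lb.fp (nat_lit 9) t1792)))))))))))
noncomputable def l17146 : Lb := (@Lb.d (nat_lit 4) (nat_lit 514) (nat_lit 64) (@Lb.g g9 (@Lb.g g10 (@Lb.g g11 (@Lb.r r2347 (@Lb.r r1606 (@Lb.r r8 (@Lb.d (nat_lit 321) (nat_lit 104) (nat_lit 130) (@Lb.t (@Lb.fp (nat_lit 9) t2050))))))))))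
noncomputable def l17147 : Lb := (@Lb.d (nat_lit 10) (nat_lit 512) (nat_lit 64) (@Lb.g g8 (@Lb.g g10 (@Lb.g g11 (@Lb.r r2581 (@Lb.r r279 (@Lb.r r676 (@Lb.r r1158 (@Lb.d (nat_lit 2) (nat_lit 90) (nat_lit 273) (@Lb.t (@Lb.fp (nat_lit 9) t100)))))))))))
noncomputable def l17148 : Lb := (@Lb.d (nat_lit 0) (nat_lit 518) (nat_lit 74) (@Lb.g g9 (@Lb.g g10 (@Lb.g g11 (@Lb.r r1707 (@Lb.r r1610 (@Lb.r r40 (@Lb.r r153 (@Lb.d (nat_lit 593) (nat_lit 84) (nat_lit 646) (@Lb.t (@Lb.fm (nat_lit 9) t510)))))))))))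
noncomputable def l17149 : Lb := (@Lb.d (nat_lit 149) (nat_lit 512) (nat_lit 128) (@Lb.g g8 (@Lb.g g9 (@Lb.g g10 (@Lb.g g11 (@Lb.r r2217 (@Lb.r r1130 (@Lb.r r1380 (@Lb.r r2635 (@Lb.d (nat_lit 352) (nat_lit 22) (nat_lit 64) (@Lb.fp (nat_lit 9) t1481)))))))))))
noncomputable def l17150 : Lb := (@Lb.d (nat_lit 32) (nat_lit 256) (nat_lit 1) (@Lb.g g10 (@Lb.r r2727 (@Lb.r r1368 (@Lb.r r1606 (@Lb.r r1057 (@Lb.d (nat_lit 401) (nat_lit 161) (nat_lit 90) (@Lb.t (@Lb.fm (nat_lit 3) t324)))))))))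
noncomputable def l17151 : Lb := (@Lb.d (nat_lit 0) (nat_lit 514) (nat_lit 64) (@Lb.g g9 (@Lb.g g11 (@Lb.r r2595 (@Lb.r r1414 (@Lb.r r88 (@Lb.r r37 (@Lb.d (nat_lit 69) (nat_lit 97) (nat_lit 128) (@Lb.fm (nat_lit 3) t2815)))))))))
noncomputable def l17152 : Lb := (@Lb.d (nat_lit 2) (nat_lit 2) (nat_lit 2) (@Lb.g g8 (@Lb.g g9 (@Lb.g g10 (@Lb.r r2411 (@Lb.r r386 (@Lb.r r97 (@Lb.r r24 (@Lb.d (nat_lit 153) (nat_lit 72) (nat_lit 340) (@Lb.t (@Lb.fp (nat_lit 9) t741)))))))))))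
noncomputable def l17153 : Lb := (@Lb.d (nat_lit 0) (nat_lit 2) (nat_lit 64) (@Lb.g g9 (@Lb.g g11 (@Lb.r r2595 (@Lb.r r1414 (@Lb.r r88 (@Lb.r r37 (@Lb.d (nat_lit 64) (nat_lit 96) (nat_lit 128) (@Lb.fm (nat_lit 3) t2815)))))))))
noncomputable def l17154 : Lb := (@Lb.d (nat_lit 2) (nat_lit 288) (nat_lit 2) (@Lb.g g8 (@Lb.g g9 (@Lb.g g10 (@Lb.r r1675 (@Lb.r r1706 (@Lb.r r2209 (@Lb.r r2564 (@Lb.d (nat_lit 138) (nat_lit 132) (nat_lit 400) (@Lb.t (@Lb.fp (nat_lit 9) t441)))))))))))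
noncomputable def l17155 : Lb := (@Lb.d (nat_lit 134) (nat_lit 662) (nat_lit 258) (@Lb.r r277 (@Lb.r r1366 (@Lb.r r1707 (@Lb.g g7 (@Lb.g g6 (@Lb.g g5 (@Lb.g g4 (@Lb.d (nat_lit 1) (nat_lit 24) (nat_lit 65) (@Lb.fm (nat_lit 9) t1242))))))))))
noncomputable def l17156 : Lb := (@Lb.d (nat_lit 2) (nat_lit 514) (nat_lit 2) (@Lb.g g8 (@Lb.g g9 (@Lb.g g10 (@Lb.r r2411 (@Lb.r r386 (@Lb.r r97 (@Lb.r r24 (@Lb.d (nat_lit 146) (nat_lit 73) (nat_lit 340) (@Lb.t (@Lb.fp (nat_lit 9) t741)))))))))))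
noncomputable def l17157 : Lb := (@Lb.d (nat_lit 134) (nat_lit 262) (nat_lit 356) (@Lb.r r1608 (@Lb.r r1625 (@Lb.r r1611 (@Lb.g g7 (@Lb.g g10 (@Lb.g g4 (@Lb.d (nat_lit 1) (nat_lit 0) (nat_lit 65) (@Lb.r r145 (@Lb.t (@Lb.fm (nat_lit 9) t826)))))))))))
noncomputable def l17158 : Lb := (@Lb.d (nat_lit 2) (nat_lit 4) (nat_lit 128) (@Lb.g g8 (@Lb.g g9 (@Lb.g g10 (@Lb.g g11 (@Lb.r r1287 (@Lb.r r2666 (@Lb.r r97 (@Lb.r r2564 (@Lb.d (nat_lit 392) (nat_lit 9) (nat_lit 385) (@Lb.fm (nat_lit 9) t2441)))))))))))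
noncomputable def l17159 : Lb := (@Lb.d (nat_lit 2) (nat_lit 4) (nat_lit 128) (@Lb.g g8 (@Lb.g g9 (@Lb.g g10 (@Lb.g g11 (@Lb.r r2595 (@Lb.r r386 (@Lb.r r612 (@Lb.r r533 (@Lb.r r2084 (@Lb.d (nat_lit 546) (nat_lit 10) (nat_lit 145) (@Lb.fp (nat_lit 9) t50))))))))))))
noncomputable def l17160 : Lb := (@Lb.r r20 (@Lb.d (nat_lit 16) (nat_lit 260) (nat_lit 89) (@Lb.g g9 (@Lb.g g6 (@Lb.g g11 (@Lb.r r1611 (@Lb.r r1317 (@Lb.d (nat_lit 22) (nat_lit 162) (nat_lit 394) (@Lb.t (@Lb.fp (nat_lit 9) t2019))))))))))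
noncomputable def l17161 : Lb := (@Lb.r r580 (@Lb.r r593 (@Lb.d (nat_lit 32) (nat_lit 16) (nat_lit 642) (@Lb.g g10 (@Lb.g g11 (@Lb.r r344 (@Lb.r r1382 (@Lb.r r1637 (@Lb.d (nat_lit 618) (nat_lit 20) (nat_lit 70) (@Lb.fm (nat_lit 3) t547))))))))))
noncomputable def l17162 : Lb := (@Lb.d (nat_lit 2) (nat_lit 256) (nat_lit 130) (@Lb.g g8 (@Lb.g g9 (@Lb.g g10 (@Lb.g g11 (@Lb.r r618 (@Lb.r r612 (@Lb.r r295 (@Lb.r r289 (@Lb.r r36 (@Lb.d (nat_lit 9) (nat_lit 33) (nat_lit 74) (@Lb.fm (nat_lit 9) t51))))))))))))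
noncomputable def l17163 : Lb := (@Lb.d (nat_lit 0) (nat_lit 261) (nat_lit 64) (@Lb.g g9 (@Lb.g g10 (@Lb.g g11 (@Lb.r r1563 (@Lb.r r421 (@Lb.r r98 (@Lb.r r24 (@Lb.d (nat_lit 280) (nat_lit 9) (nat_lit 136) (@Lb.t (@Lb.fp (nat_lit 9) t2557)))))))))))
noncomputable def l17164 : Lb := (@Lb.r r322 (@Lb.d (nat_lit 128) (nat_lit 25) (nat_lit 256) (@Lb.g g9 (@Lb.g g11 (@Lb.r r2458 (@Lb.r r2389 (@Lb.d (nat_lit 390) (nat_lit 150) (nat_lit 422) (@Lb.fp (nat_lit 3) t3477))))))))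
noncomputable def l17165 : Lb := (@Lb.d (nat_lit 0) (nat_lit 517) (nat_lit 64) (@Lb.g g9 (@Lb.g g10 (@Lb.g g11 (@Lb.r r1563 (@Lb.r r421 (@Lb.r r98 (@Lb.r r24 (@Lb.d (nat_lit 282) (nat_lit 9) (nat_lit 136) (@Lb.t (@Lb.fp (nat_lit 9) t2899)))))))))))
noncomputable def l17166 : Lb := (@Lb.d (nat_lit 9) (nat_lit 266) (nat_lit 128) (@Lb.g g8 (@Lb.g g9 (@Lb.g g11 (@Lb.r r1643 (@Lb.r r82 (@Lb.r r161 (@Lb.r r1608 (@Lb.d (nat_lit 97) (nat_lit 6) (nat_lit 537) (@Lb.t (@Lb.fp (nat_lit 9) t1165)))))))))))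
noncomputable def l17167 : Lb := (@Lb.d (nat_lit 8) (nat_lit 1) (nat_lit 2) (@Lb.g g8 (@Lb.g g9 (@Lb.g g10 (@Lb.g g11 (@Lb.r r427 (@Lb.r r145 (@Lb.r r356 (@Lb.r r154 (@Lb.r r132 (@Lb.d (nat_lit 8) (nat_lit 9) (nat_lit 153) (@Lb.fm (nat_lit 9) t221))))))))))))
noncomputable def l17168 : Lb := (@Lb.r r70 (@Lb.d (nat_lit 64) (nat_lit 2) (nat_lit 0) (@Lb.g g8 (@Lb.g g9 (@Lb.g g11 (@Lb.r r1431 (@Lb.r r402 (@Lb.r r97 (@Lb.r r1188 (@Lb.d (nat_lit 554) (nat_lit 133) (nat_lit 34) (@Lb.t (@Lb.fm (nat_lit 9) t512))))))))))))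
noncomputable def l17169 : Lb := (@Lb.r r68 (@Lb.r r323 (@Lb.d (nat_lit 16) (nat_lit 258) (nat_lit 41) (@Lb.g g9 (@Lb.g g6 (@Lb.r r1384 (@Lb.r r2567 (@Lb.r r97 (@Lb.d (nat_lit 328) (nat_lit 40) (nat_lit 5) (@Lb.fm (nat_lit 3) t512))))))))))
noncomputable def l17170 : Lb := (@Lb.r r322 (@Lb.d (nat_lit 9) (nat_lit 1) (nat_lit 576) (@Lb.g g8 (@Lb.g g9 (@Lb.g g7 (@Lb.r r2409 (@Lb.r r146 (@Lb.r r2436 (@Lb.d (nat_lit 608) (nat_lit 0) (nat_lit 322) (@Lb.t (@Lb.fp (nat_lit 9) t311)))))))))))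
noncomputable def l17171 : Lb := (@Lb.d (nat_lit 41) (nat_lit 256) (nat_lit 64) (@Lb.g g8 (@Lb.g g7 (@Lb.r r614 (@Lb.r r1637 (@Lb.r r1428 (@Lb.d (nat_lit 358) (nat_lit 90) (nat_lit 66) (@Lb.fm (nat_lit 3) t572))))))))
noncomputable def l17172 : Lb := (@Lb.r r322 (@Lb.d (nat_lit 9) (nat_lit 513) (nat_lit 576) (@Lb.g g8 (@Lb.g g9 (@Lb.g g7 (@Lb.r r2409 (@Lb.r r146 (@Lb.r r2436 (@Lb.d (nat_lit 609) (nat_lit 0) (nat_lit 322) (@Lb.t (@Lb.fp (nat_lit 9) t311)))))))))))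
noncomputable def l17173 : Lb := (@Lb.r r21 (@Lb.d (nat_lit 136) (nat_lit 520) (nat_lit 73) (@Lb.g g8 (@Lb.g g10 (@Lb.g g11 (@Lb.r r1415 (@Lb.r r1573 (@Lb.r r600 (@Lb.r r2662 (@Lb.d (nat_lit 405) (nat_lit 10) (nat_lit 86) (@Lb.t (@Lb.fm (nat_lit 9) t3478))))))))))))
noncomputable def l17174 : Lb := (@Lb.r r82 (@Lb.r r279 (@Lb.d (nat_lit 34) (nat_lit 520) (nat_lit 0) (@Lb.g g4 (@Lb.g g9 (@Lb.r r423 (@Lb.r r2202 (@Lb.r r2180 (@Lb.d (nat_lit 273) (nat_lit 132) (nat_lit 18) (@Lb.fm (nat_lit 3) t3479))))))))))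
noncomputable def l17175 : Lb := (@Lb.d (nat_lit 394) (nat_lit 6) (nat_lit 257) (@Lb.r r289 (@Lb.r r535 (@Lb.r r328 (@Lb.r r2694 (@Lb.g g7 (@Lb.g g6 (@Lb.g g5 (@Lb.d (nat_lit 4) (nat_lit 1) (nat_lit 133) (@Lb.t (@Lb.fp (nat_lit 9) t1100)))))))))))
noncomputable def l17176 : Lb := (@Lb.r r81 (@Lb.d (nat_lit 145) (nat_lit 512) (nat_lit 106) (@Lb.g g8 (@Lb.g g10 (@Lb.g g11 (@Lb.r r1419 (@Lb.r r280 (@Lb.r r37 (@Lb.d (nat_lit 2) (nat_lit 165) (nat_lit 160) (@Lb.t (@Lb.fm (nat_lit 9) t2343)))))))))))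
noncomputable def l17177 : Lb := (@Lb.d (nat_lit 1) (nat_lit 0) (nat_lit 128) (@Lb.g g8 (@Lb.g g11 (@Lb.r r2370 (@Lb.r r1451 (@Lb.r r1321 (@Lb.r r2344 (@Lb.d (nat_lit 133) (nat_lit 32) (nat_lit 674) (@Lb.fm (nat_lit 3) t680)))))))))
noncomputable def l17178 : Lb := (@Lb.d (nat_lit 34) (nat_lit 258) (nat_lit 130) (@Lb.g g8 (@Lb.g g9 (@Lb.g g10 (@Lb.g g11 (@Lb.r r419 (@Lb.r r1702 (@Lb.r r344 (@Lb.r r2453 (@Lb.r r36 (@Lb.d (nat_lit 361) (nat_lit 168) (nat_lit 130) (@Lb.fp (nat_lit 9) t3480))))))))))))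
noncomputable def l17179 : Lb := (@Lb.d (nat_lit 97) (nat_lit 646) (nat_lit 680) (@Lb.r r24 (@Lb.r r97 (@Lb.r r386 (@Lb.r r1431 (@Lb.g g6 (@Lb.g g5 (@Lb.g g4 (@Lb.d (nat_lit 1) (nat_lit 1) (nat_lit 1) (@Lb.t (@Lb.fm (nat_lit 9) t908)))))))))))
noncomputable def l17180 : Lb := (@Lb.d (nat_lit 33) (nat_lit 514) (nat_lit 130) (@Lb.g g8 (@Lb.g g9 (@Lb.g g10 (@Lb.g g11 (@Lb.r r2699 (@Lb.r r164 (@Lb.r r1173 (@Lb.r r1622 (@Lb.r r2212 (@Lb.d (nat_lit 130) (nat_lit 1) (nat_lit 106) (@Lb.fm (nat_lit 9) t1620))))))))))))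
noncomputable def l17181 : Lb := (@Lb.r r24 (@Lb.r r421 (@Lb.r r2651 (@Lb.r r2178 (@Lb.r r2564 (@Lb.d (nat_lit 34) (nat_lit 0) (nat_lit 16) (@Lb.fp (nat_lit 1) t690)))))))
noncomputable def l17182 : Lb := (@Lb.d (nat_lit 9) (nat_lit 1) (nat_lit 128) (@Lb.g g8 (@Lb.g g9 (@Lb.g g10 (@Lb.g g11 (@Lb.r r1707 (@Lb.r r162 (@Lb.r r145 (@Lb.r r1608 (@Lb.d (nat_lit 102) (nat_lit 5) (nat_lit 664) (@Lb.fm (nat_lit 9) t1082)))))))))))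
noncomputable def l17183 : Lb := (@Lb.d (nat_lit 2) (nat_lit 512) (nat_lit 128) (@Lb.g g8 (@Lb.g g11 (@Lb.r r2370 (@Lb.r r1451 (@Lb.r r1321 (@Lb.r r2344 (@Lb.d (nat_lit 134) (nat_lit 42) (nat_lit 673) (@Lb.fm (nat_lit 3) t680)))))))))
noncomputable def l17184 : Lb := (@Lb.d (nat_lit 33) (nat_lit 512) (nat_lit 0) (@Lb.g g8 (@Lb.r r2411 (@Lb.r r598 (@Lb.r r2457 (@Lb.r r408 (@Lb.d (nat_lit 666) (nat_lit 26) (nat_lit 154) (@Lb.t (@Lb.fm (nat_lit 3) t386)))))))))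
noncomputable def l17185 : Lb := (@Lb.g g7 (@Lb.r r101 (@Lb.r r402 (@Lb.d (nat_lit 96) (nat_lit 0) (nat_lit 66) (@Lb.t (@Lb.fm (nat_lit 3) t311))))))
noncomputable def l17186 : Lb := (@Lb.g g10 (@Lb.r r1415 (@Lb.r r402 (@Lb.r r101 (@Lb.r r24 (@Lb.d (nat_lit 258) (nat_lit 650) (nat_lit 2) (@Lb.t (@Lb.fm (nat_lit 3) t1920))))))))
noncomputable def l17187 : Lb := (@Lb.d (nat_lit 0) (nat_lit 294) (nat_lit 128) (@Lb.g g9 (@Lb.g g10 (@Lb.g g11 (@Lb.r r1443 (@Lb.r r2465 (@Lb.r r98 (@Lb.d (nat_lit 0) (nat_lit 33) (nat_lit 154) (@Lb.t (@Lb.fp (nat_lit 9) t2181))))))))))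
noncomputable def l17188 : Lb := (@Lb.r r359 (@Lb.d (nat_lit 21) (nat_lit 10) (nat_lit 33) (@Lb.g g8 (@Lb.g g9 (@Lb.g g6 (@Lb.r r2435 (@Lb.r r1185 (@Lb.r r152 (@Lb.d (nat_lit 26) (nat_lit 129) (nat_lit 1) (@Lb.t (@Lb.fp (nat_lit 9) t3481)))))))))))
noncomputable def l17189 : Lb := (@Lb.g g10 (@Lb.g g7 (@Lb.r r101 (@Lb.r r402 (@Lb.d (nat_lit 96) (nat_lit 0) (nat_lit 66) (@Lb.fp (nat_lit 3) t311))))))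
noncomputable def l17190 : Lb := (@Lb.d (nat_lit 64) (nat_lit 289) (nat_lit 130) (@Lb.g g8 (@Lb.g g9 (@Lb.g g10 (@Lb.g g11 (@Lb.r r427 (@Lb.r r425 (@Lb.r r98 (@Lb.r r1444 (@Lb.d (nat_lit 612) (nat_lit 106) (nat_lit 273) (@Lb.fm (nat_lit 9) t573)))))))))))
noncomputable def l17191 : Lb := (@Lb.d (nat_lit 666) (nat_lit 389) (nat_lit 674) (@Lb.r r1686 (@Lb.r r616 (@Lb.r r2391 (@Lb.g g7 (@Lb.g g6 (@Lb.g g5 (@Lb.g g4 (@Lb.d (nat_lit 106) (nat_lit 64) (nat_lit 74) (@Lb.fp (nat_lit 9) t3482))))))))))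
noncomputable def l17192 : Lb := (@Lb.r r21 (@Lb.r r70 (@Lb.d (nat_lit 129) (nat_lit 512) (nat_lit 64) (@Lb.g g8 (@Lb.g g11 (@Lb.r r263 (@Lb.r r330 (@Lb.r r281 (@Lb.r r260 (@Lb.d (nat_lit 130) (nat_lit 10) (nat_lit 68) (@Lb.fm (nat_lit 3) t151)))))))))))
noncomputable def l17193 : Lb := (@Lb.d (nat_lit 101) (nat_lit 33) (nat_lit 100) (@Lb.r r408 (@Lb.r r330 (@Lb.r r343 (@Lb.g g5 (@Lb.g g4 (@Lb.d (nat_lit 18) (nat_lit 4) (nat_lit 0) (@Lb.r r291 (@Lb.r r98 (@Lb.fp (nat_lit 3) t686))))))))))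
noncomputable def l17194 : Lb := (@Lb.r r355 (@Lb.d (nat_lit 2) (nat_lit 8) (nat_lit 2) (@Lb.g g8 (@Lb.g g9 (@Lb.g g10 (@Lb.r r683 (@Lb.r r1642 (@Lb.r r2649 (@Lb.d (nat_lit 361) (nat_lit 37) (nat_lit 9) (@Lb.t (@Lb.fp (nat_lit 9) t919)))))))))))
noncomputable def l17195 : Lb := (@Lb.r r323 (@Lb.d (nat_lit 138) (nat_lit 1) (nat_lit 2) (@Lb.g g8 (@Lb.g g9 (@Lb.g g10 (@Lb.r r1607 (@Lb.r r2193 (@Lb.r r2450 (@Lb.r r72 (@Lb.d (nat_lit 41) (nat_lit 25) (nat_lit 681) (@Lb.t (@Lb.fp (nat_lit 9) t790))))))))))))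
noncomputable def l17196 : Lb := (@Lb.d (nat_lit 136) (nat_lit 521) (nat_lit 64) (@Lb.g g9 (@Lb.g g11 (@Lb.r r2196 (@Lb.r r662 (@Lb.r r1411 (@Lb.r r281 (@Lb.d (nat_lit 10) (nat_lit 20) (nat_lit 154) (@Lb.fp (nat_lit 3) t322)))))))))
noncomputable def l17197 : Lb := (@Lb.r r21 (@Lb.r r323 (@Lb.d (nat_lit 6) (nat_lit 516) (nat_lit 2) (@Lb.g g8 (@Lb.g g10 (@Lb.r r409 (@Lb.r r683 (@Lb.r r650 (@Lb.d (nat_lit 129) (nat_lit 10) (nat_lit 66) (@Lb.fm (nat_lit 3) t61))))))))))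
noncomputable def l17198 : Lb := (@Lb.d (nat_lit 34) (nat_lit 257) (nat_lit 72) (@Lb.g g8 (@Lb.g g9 (@Lb.g g11 (@Lb.r r2134 (@Lb.r r2457 (@Lb.r r2343 (@Lb.r r1540 (@Lb.d (nat_lit 386) (nat_lit 66) (nat_lit 162) (@Lb.t (@Lb.fm (nat_lit 9) t2)))))))))))
noncomputable def l17199 : Lb := (@Lb.r r21 (@Lb.r r70 (@Lb.d (nat_lit 129) (nat_lit 0) (nat_lit 64) (@Lb.g g8 (@Lb.g g11 (@Lb.r r263 (@Lb.r r330 (@Lb.r r281 (@Lb.r r260 (@Lb.d (nat_lit 130) (nat_lit 10) (nat_lit 2) (@Lb.fm (nat_lit 3) t151)))))))))))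
noncomputable def l17200 : Lb := (@Lb.d (nat_lit 134) (nat_lit 292) (nat_lit 64) (@Lb.g g8 (@Lb.g g9 (@Lb.g g10 (@Lb.g g11 (@Lb.r r1411 (@Lb.r r537 (@Lb.r r600 (@Lb.r r2438 (@Lb.d (nat_lit 80) (nat_lit 138) (nat_lit 408) (@Lb.fp (nat_lit 9) t3483)))))))))))
noncomputable def l17201 : Lb := (@Lb.r r322 (@Lb.d (nat_lit 36) (nat_lit 0) (nat_lit 8) (@Lb.g g8 (@Lb.g g9 (@Lb.g g11 (@Lb.r r2450 (@Lb.r r1701 (@Lb.r r152 (@Lb.d (nat_lit 24) (nat_lit 10) (nat_lit 642) (@Lb.t (@Lb.fp (nat_lit 9) t1756)))))))))))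
noncomputable def l17202 : Lb := (@Lb.d (nat_lit 32) (nat_lit 4) (nat_lit 0) (@Lb.g g9 (@Lb.g g10 (@Lb.r r515 (@Lb.r r149 (@Lb.r r100 (@Lb.r r602 (@Lb.d (nat_lit 105) (nat_lit 6) (nat_lit 64) (@Lb.fp (nat_lit 3) t1871)))))))))
noncomputable def l17203 : Lb := (@Lb.r r2311 (@Lb.r r664 (@Lb.r r154 (@Lb.r r2133 (@Lb.r r164 (@Lb.d (nat_lit 0) (nat_lit 641) (nat_lit 85) (@Lb.fp (nat_lit 1) t386)))))))
noncomputable def l17204 : Lb := (@Lb.r r273 (@Lb.r r322 (@Lb.d (nat_lit 0) (nat_lit 512) (nat_lit 320) (@Lb.g g8 (@Lb.g g7 (@Lb.r r280 (@Lb.r r101 (@Lb.r r146 (@Lb.d (nat_lit 0) (nat_lit 129) (nat_lit 514) (@Lb.fm (nat_lit 3) t243))))))))))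
noncomputable def l17205 : Lb := (@Lb.d (nat_lit 8) (nat_lit 10) (nat_lit 0) (@Lb.g g5 (@Lb.r r2311 (@Lb.r r1192 (@Lb.r r1450 (@Lb.r r2473 (@Lb.d (nat_lit 106) (nat_lit 90) (nat_lit 394) (@Lb.t (@Lb.fp (nat_lit 3) t386)))))))))
noncomputable def l17206 : Lb := (@Lb.r r323 (@Lb.d (nat_lit 130) (nat_lit 514) (nat_lit 2) (@Lb.g g8 (@Lb.g g9 (@Lb.g g10 (@Lb.r r599 (@Lb.r r98 (@Lb.r r2456 (@Lb.r r1125 (@Lb.d (nat_lit 533) (nat_lit 105) (nat_lit 129) (@Lb.t (@Lb.fp (nat_lit 9) t3484))))))))))))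
noncomputable def l17207 : Lb := (@Lb.r r323 (@Lb.r r2626 (@Lb.r r2577 (@Lb.d (nat_lit 0) (nat_lit 592) (nat_lit 96) (@Lb.fp (nat_lit 1) t1035)))))
noncomputable def l17208 : Lb := (@Lb.d (nat_lit 0) (nat_lit 512) (nat_lit 68) (@Lb.g g7 (@Lb.r r402 (@Lb.r r101 (@Lb.r r24 (@Lb.d (nat_lit 321) (nat_lit 0) (nat_lit 576) (@Lb.t (@Lb.fp (nat_lit 3) t145))))))))
noncomputable def l17209 : Lb := (@Lb.d (nat_lit 0) (nat_lit 256) (nat_lit 68) (@Lb.g g7 (@Lb.r r402 (@Lb.r r101 (@Lb.r r24 (@Lb.d (nat_lit 322) (nat_lit 0) (nat_lit 576) (@Lb.t (@Lb.fp (nat_lit 3) t145))))))))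
noncomputable def l17210 : Lb := (@Lb.d (nat_lit 0) (nat_lit 344) (nat_lit 410) (@Lb.r r2641 (@Lb.r r323 (@Lb.r r2626 (@Lb.g g7 (@Lb.d (nat_lit 0) (nat_lit 0) (nat_lit 64) (@Lb.t (@Lb.fm (nat_lit 3) t3485))))))))
noncomputable def l17211 : Lb := (@Lb.r r82 (@Lb.d (nat_lit 0) (nat_lit 514) (nat_lit 520) (@Lb.g g9 (@Lb.g g7 (@Lb.r r1377 (@Lb.r r146 (@Lb.d (nat_lit 5) (nat_lit 22) (nat_lit 294) (@Lb.fp (nat_lit 3) t3486))))))))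
noncomputable def l17212 : Lb := (@Lb.r r82 (@Lb.d (nat_lit 0) (nat_lit 514) (nat_lit 520) (@Lb.g g9 (@Lb.g g7 (@Lb.r r1377 (@Lb.r r146 (@Lb.d (nat_lit 0) (nat_lit 26) (nat_lit 292) (@Lb.fp (nat_lit 3) t2033))))))))
noncomputable def l17213 : Lb := (@Lb.d (nat_lit 0) (nat_lit 272) (nat_lit 521) (@Lb.g g9 (@Lb.g g10 (@Lb.g g7 (@Lb.r r386 (@Lb.r r1121 (@Lb.d (nat_lit 0) (nat_lit 137) (nat_lit 25) (@Lb.t (@Lb.fp (nat_lit 9) t599)))))))))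
noncomputable def l17214 : Lb := (@Lb.g g7 (@Lb.r r2641 (@Lb.r r354 (@Lb.r r2451 (@Lb.d (nat_lit 0) (nat_lit 261) (nat_lit 529) (@Lb.t (@Lb.fm (nat_lit 3) t1875)))))))
noncomputable def l17215 : Lb := (@Lb.d (nat_lit 128) (nat_lit 550) (nat_lit 133) (@Lb.g g8 (@Lb.g g9 (@Lb.g g10 (@Lb.g g11 (@Lb.r r683 (@Lb.r r1386 (@Lb.r r1305 (@Lb.r r516 (@Lb.d (nat_lit 521) (nat_lit 98) (nat_lit 154) (@Lb.fm (nat_lit 9) t2450)))))))))))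
noncomputable def l17216 : Lb := (@Lb.d (nat_lit 153) (nat_lit 40) (nat_lit 134) (@Lb.g g8 (@Lb.g g9 (@Lb.g g10 (@Lb.g g11 (@Lb.r r2730 (@Lb.r r2435 (@Lb.r r2137 (@Lb.r r2180 (@Lb.d (nat_lit 521) (nat_lit 150) (nat_lit 389) (@Lb.fm (nat_lit 9) t2448)))))))))))
noncomputable def l17217 : Lb := (@Lb.d (nat_lit 129) (nat_lit 514) (nat_lit 130) (@Lb.g g8 (@Lb.g g9 (@Lb.g g10 (@Lb.g g11 (@Lb.r r1366 (@Lb.r r2711 (@Lb.r r617 (@Lb.r r2084 (@Lb.d (nat_lit 361) (nat_lit 68) (nat_lit 344) (@Lb.fp (nat_lit 9) t344)))))))))))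
noncomputable def l17218 : Lb := (@Lb.d (nat_lit 4) (nat_lit 544) (nat_lit 64) (@Lb.g g8 (@Lb.g g11 (@Lb.r r2337 (@Lb.r r531 (@Lb.r r2658 (@Lb.d (nat_lit 322) (nat_lit 161) (nat_lit 0) (@Lb.fm (nat_lit 3) t3487))))))))
noncomputable def l17219 : Lb := (@Lb.r r20 (@Lb.r r82 (@Lb.d (nat_lit 8) (nat_lit 164) (nat_lit 128) (@Lb.g g9 (@Lb.g g11 (@Lb.r r1560 (@Lb.r r1419 (@Lb.r r386 (@Lb.d (nat_lit 96) (nat_lit 2) (nat_lit 265) (@Lb.fm (nat_lit 3) t2439))))))))))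
noncomputable def l17220 : Lb := (@Lb.d (nat_lit 2) (nat_lit 258) (nat_lit 73) (@Lb.g g8 (@Lb.g g9 (@Lb.g g10 (@Lb.g g11 (@Lb.r r427 (@Lb.r r2440 (@Lb.r r2122 (@Lb.r r1125 (@Lb.d (nat_lit 521) (nat_lit 129) (nat_lit 104) (@Lb.fp (nat_lit 9) t3488)))))))))))
noncomputable def l17221 : Lb := (@Lb.d (nat_lit 362) (nat_lit 406) (nat_lit 642) (@Lb.r r337 (@Lb.r r2438 (@Lb.r r663 (@Lb.r r344 (@Lb.g g7 (@Lb.g g6 (@Lb.g g5 (@Lb.d (nat_lit 4) (nat_lit 5) (nat_lit 130) (@Lb.t (@Lb.fm (nat_lit 9) t3489)))))))))))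
noncomputable def l17222 : Lb := (@Lb.d (nat_lit 2) (nat_lit 536) (nat_lit 410) (@Lb.r r2450 (@Lb.r r101 (@Lb.g g8 (@Lb.d (nat_lit 282) (nat_lit 0) (nat_lit 0) (@Lb.r r1291 (@Lb.r r74 (@Lb.r r25 (@Lb.t (@Lb.fp (nat_lit 3) t2439))))))))))
noncomputable def l17223 : Lb := (@Lb.d (nat_lit 8) (nat_lit 512) (nat_lit 64) (@Lb.g g8 (@Lb.g g11 (@Lb.r r353 (@Lb.r r407 (@Lb.r r584 (@Lb.r r134 (@Lb.d (nat_lit 517) (nat_lit 1) (nat_lit 38) (@Lb.fp (nat_lit 3) t40)))))))))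
noncomputable def l17224 : Lb := (@Lb.d (nat_lit 362) (nat_lit 662) (nat_lit 642) (@Lb.r r337 (@Lb.r r2438 (@Lb.r r663 (@Lb.r r344 (@Lb.g g7 (@Lb.g g6 (@Lb.g g5 (@Lb.d (nat_lit 4) (nat_lit 0) (nat_lit 129) (@Lb.t (@Lb.fm (nat_lit 9) t3490)))))))))))
noncomputable def l17225 : Lb := (@Lb.d (nat_lit 130) (nat_lit 521) (nat_lit 65) (@Lb.g g8 (@Lb.g g9 (@Lb.g g10 (@Lb.g g11 (@Lb.r r2217 (@Lb.r r1130 (@Lb.r r340 (@Lb.r r1563 (@Lb.r r516 (@Lb.d (nat_lit 518) (nat_lit 166) (nat_lit 584) (@Lb.fp (nat_lit 9) t3491))))))))))))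
noncomputable def l17226 : Lb := (@Lb.d (nat_lit 642) (nat_lit 512) (nat_lit 384) (@Lb.r r24 (@Lb.r r101 (@Lb.r r402 (@Lb.g g11 (@Lb.d (nat_lit 0) (nat_lit 0) (nat_lit 136) (@Lb.t (@Lb.fm (nat_lit 3) t1790))))))))
noncomputable def l17227 : Lb := (@Lb.d (nat_lit 0) (nat_lit 593) (nat_lit 420) (@Lb.r r2129 (@Lb.r r354 (@Lb.r r81 (@Lb.r r2667 (@Lb.g g7 (@Lb.g g6 (@Lb.g g5 (@Lb.g g8 (@Lb.d (nat_lit 320) (nat_lit 1) (nat_lit 6) (@Lb.fp (nat_lit 9) t3492)))))))))))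
noncomputable def l17228 : Lb := (@Lb.d (nat_lit 2) (nat_lit 2) (nat_lit 130) (@Lb.g g8 (@Lb.g g9 (@Lb.g g10 (@Lb.g g11 (@Lb.r r427 (@Lb.r r424 (@Lb.r r106 (@Lb.r r25 (@Lb.d (nat_lit 581) (nat_lit 6) (nat_lit 545) (@Lb.fm (nat_lit 9) t2258)))))))))))
noncomputable def l17229 : Lb := (@Lb.d (nat_lit 1) (nat_lit 2) (nat_lit 130) (@Lb.g g8 (@Lb.g g9 (@Lb.g g10 (@Lb.g g11 (@Lb.r r610 (@Lb.r r1607 (@Lb.r r2457 (@Lb.r r2436 (@Lb.d (nat_lit 166) (nat_lit 6) (nat_lit 392) (@Lb.fm (nat_lit 9) t2103)))))))))))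
noncomputable def l17230 : Lb := (@Lb.d (nat_lit 146) (nat_lit 292) (nat_lit 416) (@Lb.r r584 (@Lb.r r1313 (@Lb.r r331 (@Lb.g g10 (@Lb.g g4 (@Lb.d (nat_lit 96) (nat_lit 8) (nat_lit 37) (@Lb.r r25 (@Lb.fp (nat_lit 3) t1126)))))))))
noncomputable def l17231 : Lb := (@Lb.d (nat_lit 2) (nat_lit 258) (nat_lit 130) (@Lb.g g8 (@Lb.g g9 (@Lb.g g10 (@Lb.g g11 (@Lb.r r427 (@Lb.r r424 (@Lb.r r106 (@Lb.r r25 (@Lb.d (nat_lit 581) (nat_lit 6) (nat_lit 680) (@Lb.fm (nat_lit 9) t2258)))))))))))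
noncomputable def l17232 : Lb := (@Lb.r r275 (@Lb.d (nat_lit 162) (nat_lit 258) (nat_lit 0) (@Lb.g g8 (@Lb.g g9 (@Lb.r r662 (@Lb.r r2455 (@Lb.r r548 (@Lb.d (nat_lit 137) (nat_lit 24) (nat_lit 36) (@Lb.fp (nat_lit 3) t1126)))))))))
noncomputable def l17233 : Lb := (@Lb.d (nat_lit 4) (nat_lit 257) (nat_lit 0) (@Lb.g g5 (@Lb.r r24 (@Lb.d (nat_lit 325) (nat_lit 2) (nat_lit 512) (@Lb.t (@Lb.fp (nat_lit 3) t716))))))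
noncomputable def l17234 : Lb := (@Lb.d (nat_lit 164) (nat_lit 522) (nat_lit 0) (@Lb.g g8 (@Lb.g g9 (@Lb.r r391 (@Lb.r r2642 (@Lb.r r677 (@Lb.r r2580 (@Lb.d (nat_lit 293) (nat_lit 162) (nat_lit 18) (@Lb.fp (nat_lit 3) t2)))))))))
noncomputable def l17235 : Lb := (@Lb.d (nat_lit 4) (nat_lit 257) (nat_lit 0) (@Lb.g g5 (@Lb.r r24 (@Lb.d (nat_lit 321) (nat_lit 1) (nat_lit 512) (@Lb.t (@Lb.fp (nat_lit 3) t716))))))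
noncomputable def l17236 : Lb := (@Lb.r r82 (@Lb.d (nat_lit 34) (nat_lit 545) (nat_lit 64) (@Lb.g g8 (@Lb.g g9 (@Lb.g g11 (@Lb.r r1698 (@Lb.r r1577 (@Lb.r r616 (@Lb.r r587 (@Lb.d (nat_lit 88) (nat_lit 33) (nat_lit 601) (@Lb.t (@Lb.fm (nat_lit 9) t1876))))))))))))
noncomputable def l17237 : Lb := (@Lb.d (nat_lit 2) (nat_lit 2) (nat_lit 2) (@Lb.g g8 (@Lb.g g9 (@Lb.g g10 (@Lb.g g11 (@Lb.r r283 (@Lb.r r386 (@Lb.r r97 (@Lb.r r24 (@Lb.d (nat_lit 144) (nat_lit 168) (nat_lit 20) (@Lb.fm (nat_lit 9) t432)))))))))))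
noncomputable def l17238 : Lb := (@Lb.d (nat_lit 128) (nat_lit 264) (nat_lit 2) (@Lb.g g8 (@Lb.g g10 (@Lb.r r263 (@Lb.r r2712 (@Lb.r r101 (@Lb.r r154 (@Lb.d (nat_lit 10) (nat_lit 152) (nat_lit 289) (@Lb.fp (nat_lit 3) t127)))))))))
noncomputable def l17239 : Lb := (@Lb.r r82 (@Lb.d (nat_lit 0) (nat_lit 289) (nat_lit 64) (@Lb.g g9 (@Lb.g g11 (@Lb.r r1571 (@Lb.r r386 (@Lb.r r1177 (@Lb.r r24 (@Lb.d (nat_lit 64) (nat_lit 0) (nat_lit 664) (@Lb.fp (nat_lit 3) t860))))))))))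
noncomputable def l17240 : Lb := (@Lb.d (nat_lit 32) (nat_lit 4) (nat_lit 74) (@Lb.g g9 (@Lb.g g10 (@Lb.g g11 (@Lb.r r2709 (@Lb.r r1380 (@Lb.r r2715 (@Lb.r r2634 (@Lb.d (nat_lit 353) (nat_lit 10) (nat_lit 257) (@Lb.t (@Lb.fp (nat_lit 9) t1126)))))))))))
noncomputable def l17241 : Lb := (@Lb.d (nat_lit 32) (nat_lit 8) (nat_lit 1) (@Lb.g g10 (@Lb.r r356 (@Lb.r r2405 (@Lb.r r2650 (@Lb.d (nat_lit 425) (nat_lit 166) (nat_lit 106) (@Lb.t (@Lb.fm (nat_lit 3) t322))))))))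
noncomputable def l17242 : Lb := (@Lb.d (nat_lit 401) (nat_lit 6) (nat_lit 1) (@Lb.r r584 (@Lb.r r619 (@Lb.r r1625 (@Lb.r r1370 (@Lb.g g6 (@Lb.g g4 (@Lb.d (nat_lit 37) (nat_lit 0) (nat_lit 0) (@Lb.fm (nat_lit 3) t2075)))))))))
noncomputable def l17243 : Lb := (@Lb.r r20 (@Lb.d (nat_lit 0) (nat_lit 577) (nat_lit 73) (@Lb.g g9 (@Lb.g g10 (@Lb.g g11 (@Lb.r r2658 (@Lb.r r579 (@Lb.d (nat_lit 0) (nat_lit 160) (nat_lit 586) (@Lb.t (@Lb.fp (nat_lit 9) t51))))))))))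
noncomputable def l17244 : Lb := (@Lb.d (nat_lit 2) (nat_lit 514) (nat_lit 73) (@Lb.g g8 (@Lb.g g9 (@Lb.g g10 (@Lb.g g11 (@Lb.r r136 (@Lb.r r90 (@Lb.r r661 (@Lb.r r407 (@Lb.r r1572 (@Lb.d (nat_lit 8) (nat_lit 133) (nat_lit 90) (@Lb.fm (nat_lit 9) t453))))))))))))
noncomputable def l17245 : Lb := (@Lb.d (nat_lit 34) (nat_lit 0) (nat_lit 64) (@Lb.g g8 (@Lb.g g11 (@Lb.r r1703 (@Lb.r r582 (@Lb.r r1057 (@Lb.r r1444 (@Lb.d (nat_lit 72) (nat_lit 132) (nat_lit 152) (@Lb.fm (nat_lit 3) t309)))))))))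
noncomputable def l17246 : Lb := (@Lb.d (nat_lit 2) (nat_lit 257) (nat_lit 73) (@Lb.g g8 (@Lb.g g9 (@Lb.g g10 (@Lb.g g11 (@Lb.r r2713 (@Lb.r r535 (@Lb.r r2440 (@Lb.r r2122 (@Lb.d (nat_lit 385) (nat_lit 10) (nat_lit 101) (@Lb.fp (nat_lit 9) t61)))))))))))
noncomputable def l17247 : Lb := (@Lb.d (nat_lit 2) (nat_lit 258) (nat_lit 74) (@Lb.g g8 (@Lb.g g9 (@Lb.g g10 (@Lb.g g11 (@Lb.r r2217 (@Lb.r r264 (@Lb.r r2471 (@Lb.r r2146 (@Lb.r r1540 (@Lb.d (nat_lit 290) (nat_lit 72) (nat_lit 104) (@Lb.fp (nat_lit 9) t154))))))))))))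
noncomputable def l17248 : Lb := (@Lb.d (nat_lit 34) (nat_lit 512) (nat_lit 64) (@Lb.g g8 (@Lb.g g11 (@Lb.r r1639 (@Lb.r r582 (@Lb.r r1057 (@Lb.r r1444 (@Lb.d (nat_lit 596) (nat_lit 129) (nat_lit 168) (@Lb.fm (nat_lit 3) t309)))))))))
noncomputable def l17249 : Lb := (@Lb.r r580 (@Lb.r r593 (@Lb.d (nat_lit 0) (nat_lit 548) (nat_lit 297) (@Lb.g g6 (@Lb.g g11 (@Lb.r r101 (@Lb.r r1048 (@Lb.d (nat_lit 96) (nat_lit 0) (nat_lit 673) (@Lb.fp (nat_lit 3) t3278)))))))))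
noncomputable def l17250 : Lb := (@Lb.d (nat_lit 2) (nat_lit 9) (nat_lit 72) (@Lb.g g8 (@Lb.g g9 (@Lb.g g10 (@Lb.g g11 (@Lb.r r2729 (@Lb.r r2475 (@Lb.r r2440 (@Lb.r r2458 (@Lb.d (nat_lit 400) (nat_lit 22) (nat_lit 617) (@Lb.fm (nat_lit 9) t1900)))))))))))
noncomputable def l17251 : Lb := (@Lb.d (nat_lit 2) (nat_lit 2) (nat_lit 130) (@Lb.g g8 (@Lb.g g9 (@Lb.g g10 (@Lb.g g11 (@Lb.r r1689 (@Lb.r r2579 (@Lb.r r386 (@Lb.d (nat_lit 289) (nat_lit 10) (nat_lit 168) (@Lb.fp (nat_lit 9) t791))))))))))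
noncomputable def l17252 : Lb := (@Lb.d (nat_lit 1) (nat_lit 258) (nat_lit 130) (@Lb.g g8 (@Lb.g g9 (@Lb.g g10 (@Lb.g g11 (@Lb.r r1371 (@Lb.r r386 (@Lb.r r97 (@Lb.r r24 (@Lb.d (nat_lit 266) (nat_lit 6) (nat_lit 136) (@Lb.fm (nat_lit 9) t432)))))))))))
noncomputable def l17253 : Lb := (@Lb.d (nat_lit 2) (nat_lit 2) (nat_lit 130) (@Lb.g g8 (@Lb.g g9 (@Lb.g g10 (@Lb.g g11 (@Lb.r r1371 (@Lb.r r386 (@Lb.r r97 (@Lb.r r24 (@Lb.d (nat_lit 266) (nat_lit 6) (nat_lit 136) (@Lb.fm (nat_lit 9) t432)))))))))))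
noncomputable def l17254 : Lb := (@Lb.d (nat_lit 2) (nat_lit 514) (nat_lit 130) (@Lb.g g8 (@Lb.g g9 (@Lb.g g10 (@Lb.g g11 (@Lb.r r1371 (@Lb.r r386 (@Lb.r r97 (@Lb.r r24 (@Lb.d (nat_lit 256) (nat_lit 4) (nat_lit 136) (@Lb.fm (nat_lit 9) t432)))))))))))
noncomputable def l17255 : Lb := (@Lb.d (nat_lit 2) (nat_lit 289) (nat_lit 132) (@Lb.g g8 (@Lb.g g9 (@Lb.g g10 (@Lb.g g11 (@Lb.r r1699 (@Lb.r r1681 (@Lb.r r1380 (@Lb.r r2202 (@Lb.d (nat_lit 168) (nat_lit 137) (nat_lit 342) (@Lb.fp (nat_lit 9) t3459)))))))))))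
noncomputable def l17256 : Lb := (@Lb.d (nat_lit 2) (nat_lit 545) (nat_lit 132) (@Lb.g g8 (@Lb.g g9 (@Lb.g g10 (@Lb.g g11 (@Lb.r r1686 (@Lb.r r2600 (@Lb.r r2667 (@Lb.r r1633 (@Lb.d (nat_lit 33) (nat_lit 17) (nat_lit 614) (@Lb.fp (nat_lit 9) t3493)))))))))))
noncomputable def l17257 : Lb := (@Lb.d (nat_lit 0) (nat_lit 98) (nat_lit 277) (@Lb.r r2196 (@Lb.r r2210 (@Lb.r r161 (@Lb.r r2323 (@Lb.g g10 (@Lb.r r387 (@Lb.t (@Lb.fp (nat_lit 3) t3494)))))))))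
noncomputable def l17258 : Lb := (@Lb.d (nat_lit 2) (nat_lit 6) (nat_lit 136) (@Lb.g g8 (@Lb.g g9 (@Lb.g g10 (@Lb.g g11 (@Lb.r r675 (@Lb.r r1681 (@Lb.r r2404 (@Lb.r r1178 (@Lb.d (nat_lit 682) (nat_lit 137) (nat_lit 84) (@Lb.fp (nat_lit 9) t600)))))))))))
noncomputable def l17259 : Lb := (@Lb.r r21 (@Lb.r r70 (@Lb.d (nat_lit 389) (nat_lit 256) (nat_lit 128) (@Lb.g g8 (@Lb.g g11 (@Lb.r r1419 (@Lb.r r402 (@Lb.r r97 (@Lb.d (nat_lit 580) (nat_lit 2) (nat_lit 528) (@Lb.fm (nat_lit 3) t3404))))))))))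
noncomputable def l17260 : Lb := (@Lb.r r21 (@Lb.d (nat_lit 33) (nat_lit 512) (nat_lit 130) (@Lb.g g8 (@Lb.g g10 (@Lb.g g11 (@Lb.r r2643 (@Lb.r r345 (@Lb.r r2218 (@Lb.r r1624 (@Lb.d (nat_lit 552) (nat_lit 68) (nat_lit 345) (@Lb.t (@Lb.fp (nat_lit 9) t3495))))))))))))
noncomputable def l17261 : Lb := (@Lb.r r21 (@Lb.d (nat_lit 146) (nat_lit 512) (nat_lit 128) (@Lb.g g8 (@Lb.g g10 (@Lb.g g11 (@Lb.r r1319 (@Lb.r r1626 (@Lb.r r2196 (@Lb.r r25 (@Lb.d (nat_lit 665) (nat_lit 138) (nat_lit 321) (@Lb.t (@Lb.fm (nat_lit 9) t3496))))))))))))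
noncomputable def l17262 : Lb := (@Lb.r r21 (@Lb.d (nat_lit 645) (nat_lit 512) (nat_lit 132) (@Lb.g g8 (@Lb.g g10 (@Lb.g g11 (@Lb.r r2699 (@Lb.r r1381 (@Lb.r r2202 (@Lb.d (nat_lit 328) (nat_lit 149) (nat_lit 648) (@Lb.t (@Lb.fp (nat_lit 9) t3459)))))))))))
noncomputable def l17263 : Lb := (@Lb.r r82 (@Lb.r r275 (@Lb.d (nat_lit 4) (nat_lit 2) (nat_lit 0) (@Lb.g g8 (@Lb.g g9 (@Lb.r r1451 (@Lb.r r2198 (@Lb.r r1193 (@Lb.r r36 (@Lb.d (nat_lit 530) (nat_lit 134) (nat_lit 34) (@Lb.fm (nat_lit 3) t239)))))))))))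
noncomputable def l17264 : Lb := (@Lb.r r82 (@Lb.d (nat_lit 41) (nat_lit 514) (nat_lit 136) (@Lb.g g8 (@Lb.g g9 (@Lb.g g11 (@Lb.r r617 (@Lb.r r150 (@Lb.r r356 (@Lb.r r395 (@Lb.d (nat_lit 130) (nat_lit 34) (nat_lit 73) (@Lb.t (@Lb.fm (nat_lit 9) t355))))))))))))
noncomputable def l17265 : Lb := (@Lb.d (nat_lit 129) (nat_lit 0) (nat_lit 0) (@Lb.g g8 (@Lb.r r519 (@Lb.r r402 (@Lb.r r609 (@Lb.r r264 (@Lb.d (nat_lit 130) (nat_lit 17) (nat_lit 74) (@Lb.t (@Lb.fp (nat_lit 3) t44)))))))))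
noncomputable def l17266 : Lb := (@Lb.d (nat_lit 40) (nat_lit 513) (nat_lit 130) (@Lb.g g8 (@Lb.g g9 (@Lb.g g10 (@Lb.g g11 (@Lb.r r675 (@Lb.r r164 (@Lb.r r661 (@Lb.r r150 (@Lb.r r36 (@Lb.d (nat_lit 33) (nat_lit 34) (nat_lit 73) (@Lb.fp (nat_lit 9) t892))))))))))))
noncomputable def l17267 : Lb := (@Lb.d (nat_lit 522) (nat_lit 258) (nat_lit 0) (@Lb.r r20 (@Lb.r r2073 (@Lb.g g8 (@Lb.t (@Lb.fp (nat_lit 3) t2))))))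
noncomputable def l17268 : Lb := (@Lb.d (nat_lit 8) (nat_lit 514) (nat_lit 0) (@Lb.g g9 (@Lb.r r20 (@Lb.r r2073 (@Lb.d (nat_lit 2) (nat_lit 66) (nat_lit 0) (@Lb.t (@Lb.fp (nat_lit 3) t2)))))))
noncomputable def l17269 : Lb := (@Lb.r r82 (@Lb.d (nat_lit 41) (nat_lit 289) (nat_lit 64) (@Lb.g g8 (@Lb.g g9 (@Lb.g g11 (@Lb.r r674 (@Lb.r r553 (@Lb.r r616 (@Lb.r r587 (@Lb.d (nat_lit 129) (nat_lit 34) (nat_lit 70) (@Lb.t (@Lb.fm (nat_lit 9) t355))))))))))))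
noncomputable def l17270 : Lb := (@Lb.d (nat_lit 134) (nat_lit 2) (nat_lit 132) (@Lb.g g8 (@Lb.g g9 (@Lb.g g10 (@Lb.g g11 (@Lb.r r1707 (@Lb.r r1610 (@Lb.r r552 (@Lb.r r2089 (@Lb.r r1060 (@Lb.d (nat_lit 105) (nat_lit 168) (nat_lit 401) (@Lb.fm (nat_lit 9) t50))))))))))))
noncomputable def l17271 : Lb := (@Lb.r r82 (@Lb.d (nat_lit 34) (nat_lit 522) (nat_lit 128) (@Lb.g g8 (@Lb.g g9 (@Lb.g g11 (@Lb.r r1635 (@Lb.r r582 (@Lb.r r2712 (@Lb.r r1637 (@Lb.d (nat_lit 422) (nat_lit 89) (nat_lit 86) (@Lb.t (@Lb.fp (nat_lit 9) t1549))))))))))))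
noncomputable def l17272 : Lb := (@Lb.d (nat_lit 128) (nat_lit 514) (nat_lit 0) (@Lb.g g8 (@Lb.g g9 (@Lb.r r1319 (@Lb.r r146 (@Lb.r r97 (@Lb.r r2664 (@Lb.d (nat_lit 358) (nat_lit 129) (nat_lit 18) (@Lb.fp (nat_lit 3) t44)))))))))
noncomputable def l17273 : Lb := (@Lb.d (nat_lit 512) (nat_lit 66) (nat_lit 0) (@Lb.r r20 (@Lb.r r2073 (@Lb.g g8 (@Lb.t (@Lb.fp (nat_lit 3) t2))))))
noncomputable def l17274 : Lb := (@Lb.d (nat_lit 4) (nat_lit 257) (nat_lit 0) (@Lb.g g8 (@Lb.g g5 (@Lb.r r24 (@Lb.d (nat_lit 2) (nat_lit 1) (nat_lit 0) (@Lb.fm (nat_lit 3) t2))))))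
noncomputable def l17275 : Lb := (@Lb.r r82 (@Lb.d (nat_lit 34) (nat_lit 289) (nat_lit 64) (@Lb.g g8 (@Lb.g g9 (@Lb.g g11 (@Lb.r r1571 (@Lb.r r582 (@Lb.r r2712 (@Lb.r r1637 (@Lb.d (nat_lit 385) (nat_lit 82) (nat_lit 84) (@Lb.t (@Lb.fp (nat_lit 9) t1549))))))))))))
noncomputable def l17276 : Lb := (@Lb.d (nat_lit 9) (nat_lit 256) (nat_lit 136) (@Lb.g g8 (@Lb.g g10 (@Lb.g g11 (@Lb.r r1347 (@Lb.r r2706 (@Lb.r r101 (@Lb.r r24 (@Lb.d (nat_lit 514) (nat_lit 10) (nat_lit 420) (@Lb.t (@Lb.fp (nat_lit 9) t312)))))))))))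
noncomputable def l17277 : Lb := (@Lb.d (nat_lit 128) (nat_lit 256) (nat_lit 128) (@Lb.g g11 (@Lb.r r264 (@Lb.r r519 (@Lb.r r81 (@Lb.r r162 (@Lb.r r145 (@Lb.d (nat_lit 134) (nat_lit 8) (nat_lit 130) (@Lb.t (@Lb.fm (nat_lit 3) t21))))))))))
noncomputable def l17278 : Lb := (@Lb.d (nat_lit 36) (nat_lit 518) (nat_lit 41) (@Lb.r r21 (@Lb.r r104 (@Lb.r r579 (@Lb.g g10 (@Lb.g g5 (@Lb.d (nat_lit 0) (nat_lit 1) (nat_lit 2) (@Lb.r r387 (@Lb.fp (nat_lit 3) t68)))))))))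
noncomputable def l17279 : Lb := (@Lb.r r21 (@Lb.d (nat_lit 10) (nat_lit 0) (nat_lit 137) (@Lb.g g8 (@Lb.g g10 (@Lb.g g11 (@Lb.r r667 (@Lb.r r2405 (@Lb.r r1178 (@Lb.r r1156 (@Lb.d (nat_lit 346) (nat_lit 65) (nat_lit 337) (@Lb.t (@Lb.fp (nat_lit 9) t284))))))))))))
noncomputable def l17280 : Lb := (@Lb.d (nat_lit 128) (nat_lit 256) (nat_lit 128) (@Lb.g g11 (@Lb.r r264 (@Lb.r r519 (@Lb.r r81 (@Lb.r r162 (@Lb.r r145 (@Lb.d (nat_lit 129) (nat_lit 0) (nat_lit 128) (@Lb.t (@Lb.fm (nat_lit 3) t2))))))))))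
noncomputable def l17281 : Lb := (@Lb.g g11 (@Lb.r r89 (@Lb.r r166 (@Lb.r r344 (@Lb.r r679 (@Lb.r r657 (@Lb.d (nat_lit 2) (nat_lit 513) (nat_lit 0) (@Lb.t (@Lb.fm (nat_lit 3) t2)))))))))
noncomputable def l17282 : Lb := (@Lb.d (nat_lit 32) (nat_lit 256) (nat_lit 136) (@Lb.g g10 (@Lb.g g11 (@Lb.r r1355 (@Lb.r r1361 (@Lb.r r1348 (@Lb.r r2666 (@Lb.d (nat_lit 550) (nat_lit 85) (nat_lit 402) (@Lb.fm (nat_lit 3) t312)))))))))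
noncomputable def l17283 : Lb := (@Lb.d (nat_lit 9) (nat_lit 512) (nat_lit 136) (@Lb.g g8 (@Lb.g g10 (@Lb.g g11 (@Lb.r r1347 (@Lb.r r2706 (@Lb.r r101 (@Lb.r r24 (@Lb.d (nat_lit 521) (nat_lit 9) (nat_lit 420) (@Lb.t (@Lb.fp (nat_lit 9) t312)))))))))))
noncomputable def l17284 : Lb := (@Lb.d (nat_lit 34) (nat_lit 512) (nat_lit 132) (@Lb.g g8 (@Lb.g g9 (@Lb.g g11 (@Lb.r r582 (@Lb.r r529 (@Lb.r r132 (@Lb.d (nat_lit 104) (nat_lit 2) (nat_lit 73) (@Lb.t (@Lb.fm (nat_lit 9) t1412))))))))))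
noncomputable def l17285 : Lb := (@Lb.r r82 (@Lb.d (nat_lit 34) (nat_lit 258) (nat_lit 128) (@Lb.g g8 (@Lb.g g9 (@Lb.g g11 (@Lb.r r363 (@Lb.r r582 (@Lb.r r408 (@Lb.d (nat_lit 152) (nat_lit 86) (nat_lit 153) (@Lb.t (@Lb.fp (nat_lit 9) t1640)))))))))))
noncomputable def l17286 : Lb := (@Lb.d (nat_lit 34) (nat_lit 2) (nat_lit 132) (@Lb.g g8 (@Lb.g g9 (@Lb.g g11 (@Lb.r r582 (@Lb.r r153 (@Lb.r r132 (@Lb.d (nat_lit 37) (nat_lit 18) (nat_lit 73) (@Lb.t (@Lb.fm (nat_lit 9) t1087))))))))))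
noncomputable def l17287 : Lb := (@Lb.d (nat_lit 34) (nat_lit 256) (nat_lit 64) (@Lb.g g8 (@Lb.g g9 (@Lb.g g11 (@Lb.r r582 (@Lb.r r529 (@Lb.r r132 (@Lb.d (nat_lit 41) (nat_lit 2) (nat_lit 9) (@Lb.t (@Lb.fm (nat_lit 9) t1412))))))))))
noncomputable def l17288 : Lb := (@Lb.d (nat_lit 34) (nat_lit 0) (nat_lit 132) (@Lb.g g8 (@Lb.g g9 (@Lb.g g11 (@Lb.r r582 (@Lb.r r529 (@Lb.r r132 (@Lb.d (nat_lit 106) (nat_lit 2) (nat_lit 73) (@Lb.t (@Lb.fm (nat_lit 9) t1412))))))))))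
noncomputable def l17289 : Lb := (@Lb.r r70 (@Lb.d (nat_lit 5) (nat_lit 512) (nat_lit 128) (@Lb.g g8 (@Lb.g g9 (@Lb.g g11 (@Lb.r r386 (@Lb.r r619 (@Lb.r r145 (@Lb.r r680 (@Lb.d (nat_lit 98) (nat_lit 21) (nat_lit 8) (@Lb.t (@Lb.fp (nat_lit 9) t1698))))))))))))
noncomputable def l17290 : Lb := (@Lb.d (nat_lit 128) (nat_lit 0) (nat_lit 128) (@Lb.g g9 (@Lb.g g11 (@Lb.r r386 (@Lb.r r264 (@Lb.r r583 (@Lb.r r529 (@Lb.d (nat_lit 24) (nat_lit 2) (nat_lit 0) (@Lb.fp (nat_lit 3) t1412)))))))))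
noncomputable def l17291 : Lb := (@Lb.d (nat_lit 0) (nat_lit 265) (nat_lit 130) (@Lb.g g9 (@Lb.g g10 (@Lb.g g11 (@Lb.r r643 (@Lb.r r536 (@Lb.r r613 (@Lb.r r666 (@Lb.r r132 (@Lb.d (nat_lit 421) (nat_lit 33) (nat_lit 586) (@Lb.t (@Lb.fm (nat_lit 9) t283))))))))))))
noncomputable def l17292 : Lb := (@Lb.d (nat_lit 0) (nat_lit 521) (nat_lit 130) (@Lb.g g9 (@Lb.g g10 (@Lb.g g11 (@Lb.r r643 (@Lb.r r536 (@Lb.r r613 (@Lb.r r666 (@Lb.r r132 (@Lb.d (nat_lit 426) (nat_lit 36) (nat_lit 584) (@Lb.t (@Lb.fm (nat_lit 9) t2998))))))))))))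
noncomputable def l17293 : Lb := (@Lb.r r20 (@Lb.d (nat_lit 8) (nat_lit 66) (nat_lit 2) (@Lb.g g9 (@Lb.g g10 (@Lb.r r2727 (@Lb.r r1638 (@Lb.d (nat_lit 666) (nat_lit 153) (nat_lit 9) (@Lb.fp (nat_lit 3) t3497))))))))
noncomputable def l17294 : Lb := (@Lb.d (nat_lit 0) (nat_lit 9) (nat_lit 130) (@Lb.g g9 (@Lb.g g10 (@Lb.g g11 (@Lb.r r643 (@Lb.r r536 (@Lb.r r613 (@Lb.r r666 (@Lb.r r132 (@Lb.d (nat_lit 422) (nat_lit 33) (nat_lit 586) (@Lb.t (@Lb.fm (nat_lit 9) t283))))))))))))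
noncomputable def l17295 : Lb := (@Lb.r r82 (@Lb.r r275 (@Lb.d (nat_lit 4) (nat_lit 385) (nat_lit 0) (@Lb.g g5 (@Lb.r r359 (@Lb.r r2200 (@Lb.r r2122 (@Lb.d (nat_lit 514) (nat_lit 6) (nat_lit 33) (@Lb.t (@Lb.fp (nat_lit 3) t601))))))))))
noncomputable def l17296 : Lb := (@Lb.r r323 (@Lb.d (nat_lit 132) (nat_lit 266) (nat_lit 33) (@Lb.g g8 (@Lb.g g9 (@Lb.g g10 (@Lb.r r2647 (@Lb.r r145 (@Lb.r r360 (@Lb.d (nat_lit 166) (nat_lit 37) (nat_lit 166) (@Lb.t (@Lb.fm (nat_lit 9) t208)))))))))))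
noncomputable def l17297 : Lb := (@Lb.d (nat_lit 2) (nat_lit 33) (nat_lit 132) (@Lb.g g8 (@Lb.g g9 (@Lb.g g10 (@Lb.g g11 (@Lb.r r2666 (@Lb.r r584 (@Lb.r r1307 (@Lb.r r533 (@Lb.r r1060 (@Lb.d (nat_lit 161) (nat_lit 66) (nat_lit 594) (@Lb.fm (nat_lit 9) t1205))))))))))))
noncomputable def l17298 : Lb := (@Lb.r r275 (@Lb.d (nat_lit 641) (nat_lit 265) (nat_lit 1) (@Lb.g g4 (@Lb.g g9 (@Lb.g g10 (@Lb.r r2470 (@Lb.r r2635 (@Lb.r r1561 (@Lb.d (nat_lit 390) (nat_lit 97) (nat_lit 656) (@Lb.t (@Lb.fp (nat_lit 9) t3498)))))))))))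
noncomputable def l17299 : Lb := (@Lb.r r82 (@Lb.d (nat_lit 1) (nat_lit 2) (nat_lit 128) (@Lb.g g8 (@Lb.g g9 (@Lb.g g11 (@Lb.r r593 (@Lb.r r1623 (@Lb.r r98 (@Lb.r r2436 (@Lb.d (nat_lit 642) (nat_lit 10) (nat_lit 410) (@Lb.t (@Lb.fp (nat_lit 9) t3499))))))))))))
noncomputable def l17300 : Lb := (@Lb.r r275 (@Lb.d (nat_lit 2) (nat_lit 32) (nat_lit 2) (@Lb.g g8 (@Lb.g g9 (@Lb.g g10 (@Lb.r r1442 (@Lb.r r2635 (@Lb.r r548 (@Lb.r r661 (@Lb.d (nat_lit 166) (nat_lit 101) (nat_lit 133) (@Lb.t (@Lb.fm (nat_lit 9) t823))))))))))))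
noncomputable def l17301 : Lb := (@Lb.d (nat_lit 2) (nat_lit 2) (nat_lit 130) (@Lb.g g8 (@Lb.g g9 (@Lb.g g10 (@Lb.g g11 (@Lb.r r1699 (@Lb.r r1064 (@Lb.r r1689 (@Lb.r r146 (@Lb.d (nat_lit 153) (nat_lit 2) (nat_lit 324) (@Lb.fm (nat_lit 9) t61)))))))))))
noncomputable def l17302 : Lb := (@Lb.r r82 (@Lb.d (nat_lit 642) (nat_lit 2) (nat_lit 128) (@Lb.g g8 (@Lb.g g9 (@Lb.g g11 (@Lb.r r1323 (@Lb.r r89 (@Lb.r r98 (@Lb.d (nat_lit 33) (nat_lit 10) (nat_lit 424) (@Lb.t (@Lb.fm (nat_lit 9) t1169)))))))))))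
noncomputable def l17303 : Lb := (@Lb.r r82 (@Lb.d (nat_lit 129) (nat_lit 258) (nat_lit 128) (@Lb.g g8 (@Lb.g g9 (@Lb.g g11 (@Lb.r r291 (@Lb.r r1124 (@Lb.r r1626 (@Lb.r r2449 (@Lb.d (nat_lit 10) (nat_lit 89) (nat_lit 101) (@Lb.t (@Lb.fm (nat_lit 9) t3500))))))))))))
noncomputable def l17304 : Lb := (@Lb.r r82 (@Lb.d (nat_lit 2) (nat_lit 258) (nat_lit 128) (@Lb.g g8 (@Lb.g g9 (@Lb.g g11 (@Lb.r r299 (@Lb.r r296 (@Lb.r r89 (@Lb.r r98 (@Lb.d (nat_lit 337) (nat_lit 10) (nat_lit 650) (@Lb.t (@Lb.fp (nat_lit 9) t3501))))))))))))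
noncomputable def l17305 : Lb := (@Lb.d (nat_lit 0) (nat_lit 649) (nat_lit 1) (@Lb.g g5 (@Lb.g g10 (@Lb.r r260 (@Lb.r r523 (@Lb.r r2454 (@Lb.r r516 (@Lb.d (nat_lit 549) (nat_lit 74) (nat_lit 0) (@Lb.fp (nat_lit 3) t917)))))))))
noncomputable def l17306 : Lb := (@Lb.d (nat_lit 146) (nat_lit 548) (nat_lit 69) (@Lb.g g8 (@Lb.g g9 (@Lb.g g10 (@Lb.g g11 (@Lb.r r2698 (@Lb.r r2451 (@Lb.r r24 (@Lb.r r2085 (@Lb.d (nat_lit 673) (nat_lit 21) (nat_lit 106) (@Lb.fm (nat_lit 9) t50)))))))))))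
noncomputable def l17307 : Lb := (@Lb.d (nat_lit 5) (nat_lit 512) (nat_lit 0) (@Lb.g g4 (@Lb.g g7 (@Lb.r r101 (@Lb.r r402 (@Lb.d (nat_lit 2) (nat_lit 5) (nat_lit 133) (@Lb.fm (nat_lit 3) t311)))))))
noncomputable def l17308 : Lb := (@Lb.d (nat_lit 6) (nat_lit 422) (nat_lit 294) (@Lb.r r21 (@Lb.r r1366 (@Lb.r r683 (@Lb.g g6 (@Lb.g g5 (@Lb.g g4 (@Lb.d (nat_lit 1) (nat_lit 8) (nat_lit 0) (@Lb.t (@Lb.fm (nat_lit 9) t40))))))))))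
noncomputable def l17309 : Lb := (@Lb.d (nat_lit 356) (nat_lit 8) (nat_lit 425) (@Lb.r r1044 (@Lb.r r2406 (@Lb.r r2389 (@Lb.r r679 (@Lb.r r344 (@Lb.g g10 (@Lb.g g9 (@Lb.fm (nat_lit 3) t2062)))))))))
noncomputable def l17310 : Lb := (@Lb.d (nat_lit 136) (nat_lit 256) (nat_lit 64) (@Lb.g g9 (@Lb.g g11 (@Lb.r r152 (@Lb.r r2405 (@Lb.r r1555 (@Lb.r r2178 (@Lb.d (nat_lit 130) (nat_lit 98) (nat_lit 169) (@Lb.fm (nat_lit 3) t1540)))))))))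
noncomputable def l17311 : Lb := (@Lb.g g4 (@Lb.r r1049 (@Lb.r r24 (@Lb.d (nat_lit 513) (nat_lit 256) (nat_lit 0) (@Lb.t (@Lb.fp (nat_lit 3) t2))))))
noncomputable def l17312 : Lb := (@Lb.d (nat_lit 161) (nat_lit 0) (nat_lit 72) (@Lb.g g8 (@Lb.g g11 (@Lb.r r1346 (@Lb.r r647 (@Lb.r r2324 (@Lb.r r2073 (@Lb.d (nat_lit 610) (nat_lit 2) (nat_lit 641) (@Lb.fp (nat_lit 3) t3149)))))))))
noncomputable def l17313 : Lb := (@Lb.d (nat_lit 146) (nat_lit 258) (nat_lit 128) (@Lb.g g8 (@Lb.g g9 (@Lb.g g10 (@Lb.g g11 (@Lb.r r2467 (@Lb.r r2341 (@Lb.r r2388 (@Lb.r r2698 (@Lb.d (nat_lit 153) (nat_lit 98) (nat_lit 166) (@Lb.fp (nat_lit 9) t3502)))))))))))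
noncomputable def l17314 : Lb := (@Lb.d (nat_lit 130) (nat_lit 256) (nat_lit 128) (@Lb.g g8 (@Lb.g g11 (@Lb.r r2376 (@Lb.r r1686 (@Lb.r r407 (@Lb.r r1633 (@Lb.d (nat_lit 66) (nat_lit 64) (nat_lit 512) (@Lb.fp (nat_lit 3) t3503)))))))))
noncomputable def l17315 : Lb := (@Lb.d (nat_lit 134) (nat_lit 16) (nat_lit 137) (@Lb.g g8 (@Lb.g g9 (@Lb.g g10 (@Lb.g g11 (@Lb.r r610 (@Lb.r r1607 (@Lb.r r420 (@Lb.r r2453 (@Lb.d (nat_lit 80) (nat_lit 18) (nat_lit 393) (@Lb.fm (nat_lit 9) t3504)))))))))))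
noncomputable def l17316 : Lb := (@Lb.d (nat_lit 17) (nat_lit 32) (nat_lit 104) (@Lb.r r2455 (@Lb.r r390 (@Lb.r r596 (@Lb.g g7 (@Lb.g g5 (@Lb.d (nat_lit 72) (nat_lit 128) (nat_lit 68) (@Lb.fp (nat_lit 3) t3505))))))))
noncomputable def l17317 : Lb := (@Lb.d (nat_lit 6) (nat_lit 548) (nat_lit 128) (@Lb.g g8 (@Lb.g g9 (@Lb.g g10 (@Lb.g g11 (@Lb.r r1303 (@Lb.r r1642 (@Lb.r r2201 (@Lb.r r1608 (@Lb.d (nat_lit 128) (nat_lit 161) (nat_lit 517) (@Lb.fm (nat_lit 9) t3506)))))))))))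
noncomputable def l17318 : Lb := (@Lb.d (nat_lit 17) (nat_lit 298) (nat_lit 106) (@Lb.r r2455 (@Lb.r r390 (@Lb.r r596 (@Lb.g g7 (@Lb.g g5 (@Lb.d (nat_lit 64) (nat_lit 129) (nat_lit 68) (@Lb.fp (nat_lit 3) t1470))))))))
noncomputable def l17319 : Lb := (@Lb.d (nat_lit 34) (nat_lit 256) (nat_lit 0) (@Lb.g g8 (@Lb.r r2395 (@Lb.r r582 (@Lb.r r404 (@Lb.r r2073 (@Lb.d (nat_lit 354) (nat_lit 64) (nat_lit 154) (@Lb.t (@Lb.fp (nat_lit 3) t1882)))))))))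
noncomputable def l17320 : Lb := (@Lb.d (nat_lit 2) (nat_lit 521) (nat_lit 130) (@Lb.g g8 (@Lb.g g9 (@Lb.g g10 (@Lb.g g11 (@Lb.r r387 (@Lb.r r1686 (@Lb.r r2585 (@Lb.r r24 (@Lb.d (nat_lit 168) (nat_lit 85) (nat_lit 360) (@Lb.fp (nat_lit 9) t3507)))))))))))
noncomputable def l17321 : Lb := (@Lb.d (nat_lit 6) (nat_lit 34) (nat_lit 130) (@Lb.g g8 (@Lb.g g9 (@Lb.g g10 (@Lb.g g11 (@Lb.r r387 (@Lb.r r1169 (@Lb.r r2454 (@Lb.r r36 (@Lb.d (nat_lit 662) (nat_lit 160) (nat_lit 68) (@Lb.fm (nat_lit 9) t3508)))))))))))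
noncomputable def l17322 : Lb := (@Lb.d (nat_lit 4) (nat_lit 258) (nat_lit 128) (@Lb.g g8 (@Lb.g g9 (@Lb.g g10 (@Lb.g g11 (@Lb.r r643 (@Lb.r r328 (@Lb.r r2662 (@Lb.r r1121 (@Lb.r r2084 (@Lb.d (nat_lit 544) (nat_lit 138) (nat_lit 17) (@Lb.fm (nat_lit 9) t3183))))))))))))
noncomputable def l17323 : Lb := (@Lb.d (nat_lit 26) (nat_lit 513) (nat_lit 0) (@Lb.g g8 (@Lb.g g9 (@Lb.g g10 (@Lb.r r683 (@Lb.r r2666 (@Lb.r r36 (@Lb.r r37 (@Lb.d (nat_lit 357) (nat_lit 0) (nat_lit 537) (@Lb.t (@Lb.fm (nat_lit 9) t979)))))))))))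
noncomputable def l17324 : Lb := (@Lb.r r21 (@Lb.r r70 (@Lb.d (nat_lit 656) (nat_lit 0) (nat_lit 256) (@Lb.g g4 (@Lb.g g7 (@Lb.r r2454 (@Lb.r r97 (@Lb.d (nat_lit 1) (nat_lit 130) (nat_lit 320) (@Lb.fm (nat_lit 3) t2301)))))))))
noncomputable def l17325 : Lb := (@Lb.r r82 (@Lb.d (nat_lit 42) (nat_lit 544) (nat_lit 64) (@Lb.g g8 (@Lb.g g9 (@Lb.g g11 (@Lb.r r1571 (@Lb.r r582 (@Lb.r r1445 (@Lb.r r408 (@Lb.d (nat_lit 344) (nat_lit 26) (nat_lit 324) (@Lb.t (@Lb.fp (nat_lit 9) t3278))))))))))))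
noncomputable def l17326 : Lb := (@Lb.r r355 (@Lb.d (nat_lit 2) (nat_lit 513) (nat_lit 0) (@Lb.g g8 (@Lb.g g9 (@Lb.g g10 (@Lb.r r683 (@Lb.r r1642 (@Lb.r r2649 (@Lb.d (nat_lit 361) (nat_lit 37) (nat_lit 9) (@Lb.t (@Lb.fp (nat_lit 9) t2714)))))))))))
noncomputable def l17327 : Lb := (@Lb.d (nat_lit 2) (nat_lit 544) (nat_lit 73) (@Lb.g g8 (@Lb.g g10 (@Lb.g g11 (@Lb.r r602 (@Lb.r r360 (@Lb.r r281 (@Lb.r r2599 (@Lb.d (nat_lit 648) (nat_lit 25) (nat_lit 278) (@Lb.t (@Lb.fm (nat_lit 9) t71)))))))))))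
noncomputable def l17328 : Lb := (@Lb.d (nat_lit 2) (nat_lit 522) (nat_lit 0) (@Lb.g g8 (@Lb.g g9 (@Lb.r r1636 (@Lb.r r1383 (@Lb.r r1626 (@Lb.r r1429 (@Lb.d (nat_lit 612) (nat_lit 90) (nat_lit 386) (@Lb.fm (nat_lit 3) t3300)))))))))
noncomputable def l17329 : Lb := (@Lb.d (nat_lit 282) (nat_lit 520) (nat_lit 2) (@Lb.g g8 (@Lb.g g9 (@Lb.g g10 (@Lb.r r2731 (@Lb.r r1642 (@Lb.r r2069 (@Lb.d (nat_lit 665) (nat_lit 153) (nat_lit 537) (@Lb.t (@Lb.fp (nat_lit 9) t979))))))))))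
noncomputable def l17330 : Lb := (@Lb.r r20 (@Lb.r r322 (@Lb.d (nat_lit 0) (nat_lit 0) (nat_lit 72) (@Lb.g g9 (@Lb.g g7 (@Lb.r r663 (@Lb.r r360 (@Lb.r r150 (@Lb.r r97 (@Lb.fp (nat_lit 3) t51))))))))))
noncomputable def l17331 : Lb := (@Lb.d (nat_lit 6) (nat_lit 257) (nat_lit 0) (@Lb.g g4 (@Lb.t (@Lb.fm (nat_lit 3) t2))))
noncomputable def l17332 : Lb := (@Lb.r r323 (@Lb.d (nat_lit 0) (nat_lit 34) (nat_lit 2) (@Lb.g g8 (@Lb.g g9 (@Lb.g g10 (@Lb.r r599 (@Lb.r r74 (@Lb.r r296 (@Lb.r r409 (@Lb.d (nat_lit 149) (nat_lit 38) (nat_lit 132) (@Lb.t (@Lb.fm (nat_lit 9) t51))))))))))))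
noncomputable def l17333 : Lb := (@Lb.r r323 (@Lb.d (nat_lit 0) (nat_lit 290) (nat_lit 2) (@Lb.g g8 (@Lb.g g9 (@Lb.g g10 (@Lb.r r599 (@Lb.r r74 (@Lb.r r296 (@Lb.r r409 (@Lb.d (nat_lit 152) (nat_lit 36) (nat_lit 132) (@Lb.t (@Lb.fm (nat_lit 9) t51))))))))))))
noncomputable def l17334 : Lb := (@Lb.d (nat_lit 272) (nat_lit 514) (nat_lit 0) (@Lb.g g8 (@Lb.g g9 (@Lb.g g10 (@Lb.r r2731 (@Lb.r r1642 (@Lb.r r25 (@Lb.d (nat_lit 4) (nat_lit 89) (nat_lit 9) (@Lb.t (@Lb.fp (nat_lit 9) t979))))))))))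
noncomputable def l17335 : Lb := (@Lb.d (nat_lit 130) (nat_lit 10) (nat_lit 1) (@Lb.g g8 (@Lb.g g9 (@Lb.g g10 (@Lb.r r675 (@Lb.r r170 (@Lb.r r529 (@Lb.r r392 (@Lb.d (nat_lit 150) (nat_lit 32) (nat_lit 5) (@Lb.t (@Lb.fp (nat_lit 9) t264)))))))))))
noncomputable def l17336 : Lb := (@Lb.r r21 (@Lb.d (nat_lit 33) (nat_lit 512) (nat_lit 130) (@Lb.g g8 (@Lb.g g10 (@Lb.g g11 (@Lb.r r1674 (@Lb.r r545 (@Lb.r r1451 (@Lb.r r1444 (@Lb.d (nat_lit 682) (nat_lit 68) (nat_lit 362) (@Lb.t (@Lb.fm (nat_lit 9) t2544))))))))))))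
noncomputable def l17337 : Lb := (@Lb.d (nat_lit 2) (nat_lit 9) (nat_lit 72) (@Lb.g g8 (@Lb.g g9 (@Lb.g g10 (@Lb.g g11 (@Lb.r r1699 (@Lb.r r2401 (@Lb.r r148 (@Lb.r r598 (@Lb.r r1156 (@Lb.d (nat_lit 0) (nat_lit 97) (nat_lit 586) (@Lb.fp (nat_lit 9) t74))))))))))))
noncomputable def l17338 : Lb := (@Lb.r r323 (@Lb.d (nat_lit 2) (nat_lit 258) (nat_lit 2) (@Lb.g g8 (@Lb.g g9 (@Lb.g g10 (@Lb.r r1363 (@Lb.r r2210 (@Lb.r r2664 (@Lb.r r2585 (@Lb.d (nat_lit 421) (nat_lit 80) (nat_lit 152) (@Lb.t (@Lb.fm (nat_lit 9) t3509))))))))))))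
noncomputable def l17339 : Lb := (@Lb.d (nat_lit 421) (nat_lit 153) (nat_lit 536) (@Lb.r r1626 (@Lb.r r1429 (@Lb.r r1355 (@Lb.r r2308 (@Lb.g g7 (@Lb.g g6 (@Lb.d (nat_lit 16) (nat_lit 0) (nat_lit 64) (@Lb.fm (nat_lit 3) t430)))))))))
noncomputable def l17340 : Lb := (@Lb.r r323 (@Lb.d (nat_lit 2) (nat_lit 514) (nat_lit 2) (@Lb.g g8 (@Lb.g g9 (@Lb.g g10 (@Lb.r r1363 (@Lb.r r2210 (@Lb.r r2664 (@Lb.r r2585 (@Lb.d (nat_lit 416) (nat_lit 82) (nat_lit 152) (@Lb.t (@Lb.fm (nat_lit 9) t3509))))))))))))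
noncomputable def l17341 : Lb := (@Lb.r r21 (@Lb.d (nat_lit 33) (nat_lit 512) (nat_lit 130) (@Lb.g g8 (@Lb.g g10 (@Lb.g g11 (@Lb.r r1674 (@Lb.r r545 (@Lb.r r1451 (@Lb.r r1444 (@Lb.d (nat_lit 678) (nat_lit 70) (nat_lit 362) (@Lb.t (@Lb.fm (nat_lit 9) t2544))))))))))))
noncomputable def l17342 : Lb := (@Lb.d (nat_lit 665) (nat_lit 261) (nat_lit 409) (@Lb.r r2393 (@Lb.r r2328 (@Lb.r r2390 (@Lb.g g7 (@Lb.g g5 (@Lb.g g4 (@Lb.d (nat_lit 8) (nat_lit 17) (nat_lit 64) (@Lb.r r578 (@Lb.t (@Lb.fm (nat_lit 9) t3262)))))))))))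
noncomputable def l17343 : Lb := (@Lb.d (nat_lit 0) (nat_lit 264) (nat_lit 130) (@Lb.g g9 (@Lb.g g10 (@Lb.g g11 (@Lb.r r2403 (@Lb.r r418 (@Lb.r r1448 (@Lb.r r1369 (@Lb.d (nat_lit 154) (nat_lit 102) (nat_lit 385) (@Lb.t (@Lb.fm (nat_lit 9) t394)))))))))))
noncomputable def l17344 : Lb := (@Lb.r r82 (@Lb.d (nat_lit 4) (nat_lit 256) (nat_lit 128) (@Lb.g g8 (@Lb.g g9 (@Lb.g g11 (@Lb.r r2587 (@Lb.r r610 (@Lb.r r529 (@Lb.r r2344 (@Lb.d (nat_lit 256) (nat_lit 33) (nat_lit 128) (@Lb.t (@Lb.fm (nat_lit 9) t3510))))))))))))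
noncomputable def l17345 : Lb := (@Lb.d (nat_lit 4) (nat_lit 522) (nat_lit 129) (@Lb.g g8 (@Lb.g g9 (@Lb.g g10 (@Lb.g g11 (@Lb.r r2651 (@Lb.r r657 (@Lb.r r146 (@Lb.r r2344 (@Lb.d (nat_lit 256) (nat_lit 4) (nat_lit 136) (@Lb.fm (nat_lit 9) t3510)))))))))))
noncomputable def l17346 : Lb := (@Lb.d (nat_lit 0) (nat_lit 266) (nat_lit 0) (@Lb.g g5 (@Lb.g g7 (@Lb.r r618 (@Lb.r r1641 (@Lb.d (nat_lit 409) (nat_lit 101) (nat_lit 537) (@Lb.fp (nat_lit 3) t572)))))))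
noncomputable def l17347 : Lb := (@Lb.d (nat_lit 170) (nat_lit 257) (nat_lit 65) (@Lb.g g8 (@Lb.g g9 (@Lb.g g10 (@Lb.g g11 (@Lb.r r683 (@Lb.r r618 (@Lb.r r601 (@Lb.r r596 (@Lb.d (nat_lit 148) (nat_lit 36) (nat_lit 136) (@Lb.fm (nat_lit 9) t50)))))))))))
noncomputable def l17348 : Lb := (@Lb.d (nat_lit 146) (nat_lit 2) (nat_lit 64) (@Lb.g g8 (@Lb.g g9 (@Lb.g g10 (@Lb.g g11 (@Lb.r r427 (@Lb.r r426 (@Lb.r r292 (@Lb.r r21 (@Lb.r r36 (@Lb.d (nat_lit 25) (nat_lit 33) (nat_lit 130) (@Lb.fm (nat_lit 9) t1108))))))))))))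
noncomputable def l17349 : Lb := (@Lb.d (nat_lit 146) (nat_lit 2) (nat_lit 10) (@Lb.g g8 (@Lb.g g9 (@Lb.g g10 (@Lb.g g11 (@Lb.r r427 (@Lb.r r426 (@Lb.r r409 (@Lb.r r388 (@Lb.d (nat_lit 100) (nat_lit 129) (nat_lit 136) (@Lb.fm (nat_lit 9) t1436)))))))))))
noncomputable def l17350 : Lb := (@Lb.r r82 (@Lb.d (nat_lit 132) (nat_lit 546) (nat_lit 328) (@Lb.g g8 (@Lb.g g9 (@Lb.g g11 (@Lb.r r1113 (@Lb.r r1112 (@Lb.r r2438 (@Lb.d (nat_lit 614) (nat_lit 24) (nat_lit 394) (@Lb.t (@Lb.fm (nat_lit 9) t3511)))))))))))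
noncomputable def l17351 : Lb := (@Lb.r r21 (@Lb.r r70 (@Lb.d (nat_lit 388) (nat_lit 0) (nat_lit 256) (@Lb.g g4 (@Lb.g g7 (@Lb.r r101 (@Lb.r r2450 (@Lb.d (nat_lit 1) (nat_lit 0) (nat_lit 66) (@Lb.fm (nat_lit 3) t3512)))))))))
noncomputable def l17352 : Lb := (@Lb.d (nat_lit 0) (nat_lit 258) (nat_lit 130) (@Lb.g g9 (@Lb.g g10 (@Lb.g g11 (@Lb.r r355 (@Lb.r r386 (@Lb.r r97 (@Lb.r r36 (@Lb.d (nat_lit 353) (nat_lit 97) (nat_lit 680) (@Lb.t (@Lb.fm (nat_lit 9) t3513)))))))))))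
noncomputable def l17353 : Lb := (@Lb.r r21 (@Lb.r r70 (@Lb.d (nat_lit 130) (nat_lit 256) (nat_lit 256) (@Lb.g g8 (@Lb.g g7 (@Lb.r r402 (@Lb.r r97 (@Lb.r r2312 (@Lb.d (nat_lit 386) (nat_lit 128) (nat_lit 128) (@Lb.fm (nat_lit 3) t3514))))))))))
noncomputable def l17354 : Lb := (@Lb.r r81 (@Lb.r r323 (@Lb.d (nat_lit 10) (nat_lit 512) (nat_lit 33) (@Lb.g g8 (@Lb.g g6 (@Lb.r r2453 (@Lb.r r1707 (@Lb.r r1700 (@Lb.d (nat_lit 169) (nat_lit 150) (nat_lit 681) (@Lb.fm (nat_lit 3) t3515))))))))))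
noncomputable def l17355 : Lb := (@Lb.d (nat_lit 554) (nat_lit 609) (nat_lit 640) (@Lb.r r2138 (@Lb.r r1608 (@Lb.r r1387 (@Lb.r r2385 (@Lb.g g7 (@Lb.g g6 (@Lb.g g5 (@Lb.d (nat_lit 0) (nat_lit 1) (nat_lit 65) (@Lb.t (@Lb.fm (nat_lit 9) t1640)))))))))))
noncomputable def l17356 : Lb := (@Lb.d (nat_lit 106) (nat_lit 136) (nat_lit 362) (@Lb.r r1361 (@Lb.r r2471 (@Lb.r r612 (@Lb.r r2390 (@Lb.g g7 (@Lb.g g6 (@Lb.g g5 (@Lb.d (nat_lit 8) (nat_lit 2) (nat_lit 64) (@Lb.t (@Lb.fp (nat_lit 9) t2312)))))))))))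
noncomputable def l17357 : Lb := (@Lb.d (nat_lit 6) (nat_lit 273) (nat_lit 532) (@Lb.r r1361 (@Lb.r r2471 (@Lb.r r612 (@Lb.r r346 (@Lb.g g7 (@Lb.g g6 (@Lb.g g5 (@Lb.d (nat_lit 4) (nat_lit 8) (nat_lit 64) (@Lb.t (@Lb.fp (nat_lit 9) t789)))))))))))
noncomputable def l17358 : Lb := (@Lb.d (nat_lit 6) (nat_lit 17) (nat_lit 532) (@Lb.r r1361 (@Lb.r r2471 (@Lb.r r612 (@Lb.r r346 (@Lb.g g7 (@Lb.g g6 (@Lb.g g5 (@Lb.d (nat_lit 4) (nat_lit 1) (nat_lit 65) (@Lb.t (@Lb.fp (nat_lit 9) t125)))))))))))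
noncomputable def l17359 : Lb := (@Lb.d (nat_lit 0) (nat_lit 546) (nat_lit 0) (@Lb.g g9 (@Lb.r r360 (@Lb.r r407 (@Lb.r r1430 (@Lb.r r1625 (@Lb.d (nat_lit 682) (nat_lit 164) (nat_lit 346) (@Lb.t (@Lb.fp (nat_lit 3) t430)))))))))
noncomputable def l17360 : Lb := (@Lb.r r323 (@Lb.d (nat_lit 40) (nat_lit 514) (nat_lit 2) (@Lb.g g9 (@Lb.g g10 (@Lb.r r584 (@Lb.r r299 (@Lb.r r289 (@Lb.d (nat_lit 10) (nat_lit 8) (nat_lit 136) (@Lb.fm (nat_lit 3) t51)))))))))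
noncomputable def l17361 : Lb := (@Lb.r r323 (@Lb.d (nat_lit 32) (nat_lit 1) (nat_lit 2) (@Lb.g g9 (@Lb.g g10 (@Lb.r r584 (@Lb.r r667 (@Lb.r r337 (@Lb.d (nat_lit 10) (nat_lit 42) (nat_lit 129) (@Lb.fm (nat_lit 3) t51)))))))))
noncomputable def l17362 : Lb := (@Lb.r r323 (@Lb.d (nat_lit 32) (nat_lit 257) (nat_lit 2) (@Lb.g g9 (@Lb.g g10 (@Lb.r r584 (@Lb.r r667 (@Lb.r r337 (@Lb.d (nat_lit 1) (nat_lit 40) (nat_lit 129) (@Lb.fm (nat_lit 3) t51)))))))))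
noncomputable def l17363 : Lb := (@Lb.d (nat_lit 548) (nat_lit 324) (nat_lit 144) (@Lb.r r1045 (@Lb.r r2152 (@Lb.r r2438 (@Lb.g g11 (@Lb.g g5 (@Lb.g g4 (@Lb.d (nat_lit 1) (nat_lit 17) (nat_lit 264) (@Lb.r r578 (@Lb.t (@Lb.fm (nat_lit 9) t3516)))))))))))
noncomputable def l17364 : Lb := (@Lb.d (nat_lit 2) (nat_lit 514) (nat_lit 73) (@Lb.g g8 (@Lb.g g9 (@Lb.g g10 (@Lb.g g11 (@Lb.r r2691 (@Lb.r r297 (@Lb.r r360 (@Lb.r r582 (@Lb.r r2180 (@Lb.d (nat_lit 640) (nat_lit 73) (nat_lit 329) (@Lb.fm (nat_lit 9) t758))))))))))))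
noncomputable def l17365 : Lb := (@Lb.r r322 (@Lb.d (nat_lit 0) (nat_lit 10) (nat_lit 576) (@Lb.g g9 (@Lb.g g7 (@Lb.r r594 (@Lb.r r421 (@Lb.r r24 (@Lb.d (nat_lit 260) (nat_lit 69) (nat_lit 10) (@Lb.fp (nat_lit 3) t3517)))))))))
noncomputable def l17366 : Lb := (@Lb.d (nat_lit 612) (nat_lit 682) (nat_lit 582) (@Lb.r r1434 (@Lb.r r101 (@Lb.r r2375 (@Lb.g g7 (@Lb.g g6 (@Lb.g g4 (@Lb.d (nat_lit 1) (nat_lit 4) (nat_lit 65) (@Lb.t (@Lb.fp (nat_lit 9) t473))))))))))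
noncomputable def l17367 : Lb := (@Lb.d (nat_lit 9) (nat_lit 513) (nat_lit 9) (@Lb.g g8 (@Lb.g g9 (@Lb.g g10 (@Lb.g g7 (@Lb.r r386 (@Lb.r r97 (@Lb.r r24 (@Lb.d (nat_lit 10) (nat_lit 9) (nat_lit 137) (@Lb.fp (nat_lit 9) t40))))))))))
noncomputable def l17368 : Lb := (@Lb.d (nat_lit 260) (nat_lit 518) (nat_lit 33) (@Lb.r r2129 (@Lb.r r1126 (@Lb.r r597 (@Lb.r r2391 (@Lb.g g7 (@Lb.g g6 (@Lb.g g5 (@Lb.g g4 (@Lb.d (nat_lit 2) (nat_lit 0) (nat_lit 65) (@Lb.fp (nat_lit 9) t1848)))))))))))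
noncomputable def l17369 : Lb := (@Lb.d (nat_lit 257) (nat_lit 5) (nat_lit 600) (@Lb.r r24 (@Lb.r r101 (@Lb.r r2706 (@Lb.r r2435 (@Lb.g g7 (@Lb.g g6 (@Lb.g g4 (@Lb.d (nat_lit 6) (nat_lit 0) (nat_lit 68) (@Lb.t (@Lb.fm (nat_lit 9) t1921)))))))))))
noncomputable def l17370 : Lb := (@Lb.r r275 (@Lb.d (nat_lit 2) (nat_lit 554) (nat_lit 1) (@Lb.g g8 (@Lb.g g9 (@Lb.g g10 (@Lb.r r1442 (@Lb.r r2635 (@Lb.r r548 (@Lb.r r661 (@Lb.d (nat_lit 165) (nat_lit 101) (nat_lit 133) (@Lb.t (@Lb.fm (nat_lit 9) t1879))))))))))))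
noncomputable def l17371 : Lb := (@Lb.d (nat_lit 8) (nat_lit 514) (nat_lit 128) (@Lb.g g9 (@Lb.g g11 (@Lb.r r2471 (@Lb.r r1624 (@Lb.r r405 (@Lb.d (nat_lit 149) (nat_lit 26) (nat_lit 660) (@Lb.fp (nat_lit 3) t3518))))))))
noncomputable def l17372 : Lb := (@Lb.r r275 (@Lb.d (nat_lit 2) (nat_lit 2) (nat_lit 2) (@Lb.g g8 (@Lb.g g9 (@Lb.g g10 (@Lb.r r1194 (@Lb.r r1188 (@Lb.r r2341 (@Lb.r r2579 (@Lb.d (nat_lit 386) (nat_lit 0) (nat_lit 10) (@Lb.t (@Lb.fp (nat_lit 9) t278))))))))))))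
noncomputable def l17373 : Lb := (@Lb.d (nat_lit 4) (nat_lit 0) (nat_lit 130) (@Lb.g g8 (@Lb.g g9 (@Lb.g g10 (@Lb.g g11 (@Lb.r r2459 (@Lb.r r297 (@Lb.r r1384 (@Lb.r r2630 (@Lb.d (nat_lit 10) (nat_lit 66) (nat_lit 137) (@Lb.fp (nat_lit 9) t91)))))))))))
noncomputable def l17374 : Lb := (@Lb.r r68 (@Lb.d (nat_lit 0) (nat_lit 258) (nat_lit 169) (@Lb.g g9 (@Lb.g g10 (@Lb.g g11 (@Lb.r r2705 (@Lb.r r2579 (@Lb.r r2312 (@Lb.d (nat_lit 290) (nat_lit 162) (nat_lit 97) (@Lb.t (@Lb.fm (nat_lit 9) t3519)))))))))))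
noncomputable def l17375 : Lb := (@Lb.d (nat_lit 2) (nat_lit 297) (nat_lit 65) (@Lb.g g8 (@Lb.g g9 (@Lb.g g10 (@Lb.g g11 (@Lb.r r1698 (@Lb.r r1415 (@Lb.r r548 (@Lb.r r661 (@Lb.d (nat_lit 165) (nat_lit 134) (nat_lit 517) (@Lb.fm (nat_lit 9) t1879)))))))))))
noncomputable def l17376 : Lb := (@Lb.d (nat_lit 134) (nat_lit 522) (nat_lit 129) (@Lb.g g8 (@Lb.g g9 (@Lb.g g10 (@Lb.g g11 (@Lb.r r1706 (@Lb.r r1411 (@Lb.r r617 (@Lb.r r2084 (@Lb.d (nat_lit 361) (nat_lit 20) (nat_lit 164) (@Lb.fp (nat_lit 9) t3520)))))))))))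
noncomputable def l17377 : Lb := (@Lb.d (nat_lit 1) (nat_lit 512) (nat_lit 145) (@Lb.g g8 (@Lb.g g9 (@Lb.g g10 (@Lb.g g11 (@Lb.r r1607 (@Lb.r r1369 (@Lb.r r2436 (@Lb.d (nat_lit 170) (nat_lit 2) (nat_lit 409) (@Lb.fm (nat_lit 9) t3521))))))))))
noncomputable def l17378 : Lb := (@Lb.d (nat_lit 130) (nat_lit 256) (nat_lit 352) (@Lb.r r24 (@Lb.r r1125 (@Lb.r r402 (@Lb.g g7 (@Lb.g g5 (@Lb.d (nat_lit 0) (nat_lit 1) (nat_lit 68) (@Lb.r r578 (@Lb.fp (nat_lit 3) t3522)))))))))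
noncomputable def l17379 : Lb := (@Lb.d (nat_lit 134) (nat_lit 266) (nat_lit 129) (@Lb.g g8 (@Lb.g g9 (@Lb.g g10 (@Lb.g g11 (@Lb.r r1706 (@Lb.r r1411 (@Lb.r r617 (@Lb.r r2084 (@Lb.d (nat_lit 81) (nat_lit 26) (nat_lit 68) (@Lb.fp (nat_lit 9) t3523)))))))))))
noncomputable def l17380 : Lb := (@Lb.d (nat_lit 1) (nat_lit 2) (nat_lit 130) (@Lb.g g8 (@Lb.g g9 (@Lb.g g10 (@Lb.g g11 (@Lb.r r610 (@Lb.r r1607 (@Lb.r r2457 (@Lb.r r2436 (@Lb.d (nat_lit 666) (nat_lit 2) (nat_lit 409) (@Lb.fm (nat_lit 9) t2487)))))))))))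
noncomputable def l17381 : Lb := (@Lb.r r275 (@Lb.d (nat_lit 649) (nat_lit 264) (nat_lit 2) (@Lb.g g4 (@Lb.g g9 (@Lb.g g10 (@Lb.r r1371 (@Lb.r r2658 (@Lb.r r2641 (@Lb.d (nat_lit 1) (nat_lit 165) (nat_lit 25) (@Lb.t (@Lb.fp (nat_lit 9) t3524)))))))))))
noncomputable def l17382 : Lb := (@Lb.r r20 (@Lb.d (nat_lit 0) (nat_lit 681) (nat_lit 66) (@Lb.g g9 (@Lb.g g10 (@Lb.g g11 (@Lb.r r1642 (@Lb.r r619 (@Lb.r r1608 (@Lb.d (nat_lit 8) (nat_lit 129) (nat_lit 256) (@Lb.t (@Lb.fm (nat_lit 9) t3525)))))))))))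
noncomputable def l17383 : Lb := (@Lb.r r20 (@Lb.d (nat_lit 32) (nat_lit 74) (nat_lit 130) (@Lb.g g9 (@Lb.g g10 (@Lb.g g11 (@Lb.r r2471 (@Lb.r r1624 (@Lb.r r2150 (@Lb.d (nat_lit 537) (nat_lit 73) (nat_lit 34) (@Lb.t (@Lb.fp (nat_lit 9) t3526)))))))))))
noncomputable def l17384 : Lb := (@Lb.d (nat_lit 10) (nat_lit 256) (nat_lit 0) (@Lb.g g8 (@Lb.r r421 (@Lb.r r2651 (@Lb.r r2178 (@Lb.r r2584 (@Lb.d (nat_lit 586) (nat_lit 9) (nat_lit 682) (@Lb.t (@Lb.fp (nat_lit 3) t1892)))))))))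
noncomputable def l17385 : Lb := (@Lb.d (nat_lit 128) (nat_lit 0) (nat_lit 128) (@Lb.g g11 (@Lb.r r1114 (@Lb.r r260 (@Lb.r r603 (@Lb.r r1317 (@Lb.d (nat_lit 72) (nat_lit 73) (nat_lit 338) (@Lb.t (@Lb.fp (nat_lit 3) t3527)))))))))
noncomputable def l17386 : Lb := (@Lb.r r21 (@Lb.d (nat_lit 160) (nat_lit 512) (nat_lit 66) (@Lb.g g8 (@Lb.g g10 (@Lb.g g11 (@Lb.r r2715 (@Lb.r r161 (@Lb.r r610 (@Lb.r r1368 (@Lb.d (nat_lit 425) (nat_lit 73) (nat_lit 586) (@Lb.t (@Lb.fp (nat_lit 9) t3528))))))))))))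
noncomputable def l17387 : Lb := (@Lb.d (nat_lit 2) (nat_lit 544) (nat_lit 128) (@Lb.g g8 (@Lb.g g11 (@Lb.r r2712 (@Lb.r r293 (@Lb.r r2587 (@Lb.r r2178 (@Lb.d (nat_lit 98) (nat_lit 42) (nat_lit 401) (@Lb.fm (nat_lit 3) t1740)))))))))
noncomputable def l17388 : Lb := (@Lb.r r275 (@Lb.d (nat_lit 10) (nat_lit 264) (nat_lit 2) (@Lb.g g8 (@Lb.g g9 (@Lb.g g10 (@Lb.r r2571 (@Lb.r r2218 (@Lb.r r1188 (@Lb.r r1173 (@Lb.d (nat_lit 37) (nat_lit 136) (nat_lit 32) (@Lb.t (@Lb.fm (nat_lit 9) t3529))))))))))))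
noncomputable def l17389 : Lb := (@Lb.d (nat_lit 32) (nat_lit 512) (nat_lit 10) (@Lb.g g10 (@Lb.r r2651 (@Lb.r r2648 (@Lb.r r2453 (@Lb.r r1430 (@Lb.d (nat_lit 353) (nat_lit 26) (nat_lit 9) (@Lb.t (@Lb.fm (nat_lit 3) t2600)))))))))
noncomputable def l17390 : Lb := (@Lb.r r21 (@Lb.d (nat_lit 20) (nat_lit 256) (nat_lit 129) (@Lb.g g8 (@Lb.g g10 (@Lb.g g11 (@Lb.r r2713 (@Lb.r r347 (@Lb.r r646 (@Lb.r r1624 (@Lb.d (nat_lit 80) (nat_lit 102) (nat_lit 105) (@Lb.t (@Lb.fm (nat_lit 9) t3530))))))))))))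
noncomputable def l17391 : Lb := (@Lb.d (nat_lit 645) (nat_lit 256) (nat_lit 0) (@Lb.g g4 (@Lb.r r2651 (@Lb.r r101 (@Lb.d (nat_lit 1) (nat_lit 154) (nat_lit 42) (@Lb.t (@Lb.fm (nat_lit 3) t3531)))))))
noncomputable def l17392 : Lb := (@Lb.d (nat_lit 0) (nat_lit 0) (nat_lit 128) (@Lb.g g4 (@Lb.g g10 (@Lb.g g11 (@Lb.r r387 (@Lb.r r402 (@Lb.d (nat_lit 292) (nat_lit 5) (nat_lit 33) (@Lb.t (@Lb.fm (nat_lit 9) t3532)))))))))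
noncomputable def l17393 : Lb := (@Lb.r r273 (@Lb.r r322 (@Lb.d (nat_lit 2) (nat_lit 512) (nat_lit 512) (@Lb.g g8 (@Lb.g g11 (@Lb.r r548 (@Lb.r r101 (@Lb.r r146 (@Lb.d (nat_lit 610) (nat_lit 0) (nat_lit 170) (@Lb.fm (nat_lit 3) t573))))))))))
noncomputable def l17394 : Lb := (@Lb.r r21 (@Lb.r r70 (@Lb.r r2311 (@Lb.g g8 (@Lb.r r1156 (@Lb.r r2454 (@Lb.r r97 (@Lb.d (nat_lit 0) (nat_lit 320) (nat_lit 256) (@Lb.t (@Lb.fp (nat_lit 3) t394))))))))))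
noncomputable def l17395 : Lb := (@Lb.d (nat_lit 41) (nat_lit 512) (nat_lit 0) (@Lb.g g8 (@Lb.r r2395 (@Lb.r r1173 (@Lb.r r150 (@Lb.r r356 (@Lb.d (nat_lit 90) (nat_lit 169) (nat_lit 518) (@Lb.t (@Lb.fm (nat_lit 3) t1818)))))))))
noncomputable def l17396 : Lb := (@Lb.d (nat_lit 2) (nat_lit 2) (nat_lit 130) (@Lb.g g8 (@Lb.g g9 (@Lb.g g10 (@Lb.g g11 (@Lb.r r2705 (@Lb.r r535 (@Lb.r r2440 (@Lb.r r2122 (@Lb.d (nat_lit 294) (nat_lit 152) (nat_lit 646) (@Lb.fp (nat_lit 9) t3533)))))))))))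
noncomputable def l17397 : Lb := (@Lb.d (nat_lit 390) (nat_lit 406) (nat_lit 354) (@Lb.r r1556 (@Lb.r r2345 (@Lb.r r1623 (@Lb.g g6 (@Lb.g g5 (@Lb.g g4 (@Lb.d (nat_lit 66) (nat_lit 1) (nat_lit 33) (@Lb.r r387 (@Lb.t (@Lb.fp (nat_lit 9) t1643)))))))))))
noncomputable def l17398 : Lb := (@Lb.d (nat_lit 2) (nat_lit 514) (nat_lit 130) (@Lb.g g8 (@Lb.g g9 (@Lb.g g10 (@Lb.g g11 (@Lb.r r2666 (@Lb.r r579 (@Lb.r r97 (@Lb.r r24 (@Lb.d (nat_lit 420) (nat_lit 6) (nat_lit 296) (@Lb.fm (nat_lit 9) t263)))))))))))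
noncomputable def l17399 : Lb := (@Lb.d (nat_lit 0) (nat_lit 512) (nat_lit 128) (@Lb.g g11 (@Lb.r r664 (@Lb.r r154 (@Lb.r r2133 (@Lb.r r164 (@Lb.d (nat_lit 0) (nat_lit 0) (nat_lit 320) (@Lb.t (@Lb.fp (nat_lit 3) t2428)))))))))
noncomputable def l17400 : Lb := (@Lb.d (nat_lit 2) (nat_lit 2) (nat_lit 130) (@Lb.g g8 (@Lb.g g9 (@Lb.g g10 (@Lb.g g11 (@Lb.r r427 (@Lb.r r424 (@Lb.r r106 (@Lb.r r25 (@Lb.d (nat_lit 362) (nat_lit 2) (nat_lit 649) (@Lb.fm (nat_lit 9) t1306)))))))))))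
noncomputable def l17401 : Lb := (@Lb.r r20 (@Lb.r r82 (@Lb.d (nat_lit 4) (nat_lit 320) (nat_lit 64) (@Lb.g g5 (@Lb.g g11 (@Lb.r r1368 (@Lb.r r2567 (@Lb.r r386 (@Lb.d (nat_lit 321) (nat_lit 1) (nat_lit 354) (@Lb.fm (nat_lit 3) t739))))))))))
noncomputable def l17402 : Lb := (@Lb.d (nat_lit 128) (nat_lit 512) (nat_lit 324) (@Lb.g g7 (@Lb.r r402 (@Lb.r r2145 (@Lb.r r36 (@Lb.d (nat_lit 66) (nat_lit 64) (nat_lit 576) (@Lb.t (@Lb.fm (nat_lit 3) t1351))))))))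
noncomputable def l17403 : Lb := (@Lb.r r82 (@Lb.d (nat_lit 34) (nat_lit 514) (nat_lit 136) (@Lb.g g8 (@Lb.g g9 (@Lb.g g11 (@Lb.r r1362 (@Lb.r r2645 (@Lb.r r356 (@Lb.r r395 (@Lb.d (nat_lit 548) (nat_lit 42) (nat_lit 682) (@Lb.t (@Lb.fm (nat_lit 9) t2545))))))))))))
noncomputable def l17404 : Lb := (@Lb.r r1291 (@Lb.d (nat_lit 514) (nat_lit 512) (nat_lit 0) (@Lb.fp (nat_lit 1) t441)))
noncomputable def l17405 : Lb := (@Lb.d (nat_lit 529) (nat_lit 256) (nat_lit 1) (@Lb.r r21 (@Lb.r r70 (@Lb.g g7 (@Lb.g g4 (@Lb.d (nat_lit 353) (nat_lit 0) (nat_lit 68) (@Lb.r r74 (@Lb.r r25 (@Lb.fm (nat_lit 3) t647)))))))))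
noncomputable def l17406 : Lb := (@Lb.r r82 (@Lb.d (nat_lit 134) (nat_lit 546) (nat_lit 64) (@Lb.g g8 (@Lb.g g9 (@Lb.g g11 (@Lb.r r1561 (@Lb.r r1560 (@Lb.r r2443 (@Lb.r r386 (@Lb.d (nat_lit 337) (nat_lit 138) (nat_lit 513) (@Lb.t (@Lb.fm (nat_lit 9) t1774))))))))))))
noncomputable def l17407 : Lb := (@Lb.d (nat_lit 274) (nat_lit 278) (nat_lit 338) (@Lb.r r289 (@Lb.r r70 (@Lb.r r599 (@Lb.g g6 (@Lb.g g5 (@Lb.g g4 (@Lb.d (nat_lit 1) (nat_lit 17) (nat_lit 1) (@Lb.r r387 (@Lb.t (@Lb.fp (nat_lit 9) t1809)))))))))))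
noncomputable def l17408 : Lb := (@Lb.d (nat_lit 146) (nat_lit 265) (nat_lit 130) (@Lb.g g8 (@Lb.g g9 (@Lb.g g10 (@Lb.g g11 (@Lb.r r2729 (@Lb.r r2347 (@Lb.r r2376 (@Lb.r r2182 (@Lb.d (nat_lit 128) (nat_lit 72) (nat_lit 645) (@Lb.fm (nat_lit 9) t328)))))))))))
noncomputable def l17409 : Lb := (@Lb.d (nat_lit 2) (nat_lit 2) (nat_lit 4) (@Lb.g g8 (@Lb.g g9 (@Lb.g g10 (@Lb.g g11 (@Lb.r r2691 (@Lb.r r1385 (@Lb.r r2198 (@Lb.r r1096 (@Lb.d (nat_lit 36) (nat_lit 81) (nat_lit 665) (@Lb.fp (nat_lit 9) t476)))))))))))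
noncomputable def l17410 : Lb := (@Lb.d (nat_lit 129) (nat_lit 512) (nat_lit 66) (@Lb.g g8 (@Lb.g g5 (@Lb.g g10 (@Lb.g g11 (@Lb.r r2587 (@Lb.r r386 (@Lb.r r2072 (@Lb.d (nat_lit 644) (nat_lit 130) (nat_lit 73) (@Lb.fp (nat_lit 9) t630))))))))))
noncomputable def l17411 : Lb := (@Lb.d (nat_lit 129) (nat_lit 256) (nat_lit 66) (@Lb.g g8 (@Lb.g g5 (@Lb.g g10 (@Lb.g g11 (@Lb.r r2587 (@Lb.r r386 (@Lb.r r2072 (@Lb.d (nat_lit 649) (nat_lit 128) (nat_lit 73) (@Lb.fp (nat_lit 9) t1041))))))))))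
noncomputable def l17412 : Lb := (@Lb.d (nat_lit 129) (nat_lit 512) (nat_lit 66) (@Lb.g g8 (@Lb.g g10 (@Lb.g g11 (@Lb.r r665 (@Lb.r r2587 (@Lb.r r386 (@Lb.r r2072 (@Lb.d (nat_lit 644) (nat_lit 73) (nat_lit 88) (@Lb.t (@Lb.fp (nat_lit 9) t3534)))))))))))
noncomputable def l17413 : Lb := (@Lb.d (nat_lit 137) (nat_lit 256) (nat_lit 0) (@Lb.g g8 (@Lb.r r1621 (@Lb.r r2391 (@Lb.r r2178 (@Lb.r r1544 (@Lb.d (nat_lit 578) (nat_lit 74) (nat_lit 658) (@Lb.t (@Lb.fp (nat_lit 3) t1282)))))))))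
noncomputable def l17414 : Lb := (@Lb.r r82 (@Lb.d (nat_lit 6) (nat_lit 512) (nat_lit 0) (@Lb.g g8 (@Lb.g g9 (@Lb.r r555 (@Lb.r r1642 (@Lb.r r1561 (@Lb.d (nat_lit 585) (nat_lit 98) (nat_lit 256) (@Lb.fp (nat_lit 3) t2714)))))))))
noncomputable def l17415 : Lb := (@Lb.r r82 (@Lb.r r275 (@Lb.d (nat_lit 2) (nat_lit 265) (nat_lit 0) (@Lb.g g8 (@Lb.g g9 (@Lb.r r2315 (@Lb.r r1110 (@Lb.r r2197 (@Lb.d (nat_lit 261) (nat_lit 138) (nat_lit 18) (@Lb.fm (nat_lit 3) t58))))))))))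
noncomputable def l17416 : Lb := (@Lb.d (nat_lit 656) (nat_lit 617) (nat_lit 298) (@Lb.r r2658 (@Lb.r r2667 (@Lb.r r532 (@Lb.g g7 (@Lb.g g6 (@Lb.g g5 (@Lb.d (nat_lit 80) (nat_lit 129) (nat_lit 64) (@Lb.t (@Lb.fm (nat_lit 9) t2085))))))))))
noncomputable def l17417 : Lb := (@Lb.d (nat_lit 129) (nat_lit 18) (nat_lit 130) (@Lb.g g8 (@Lb.g g9 (@Lb.g g10 (@Lb.g g11 (@Lb.r r552 (@Lb.r r2585 (@Lb.r r2651 (@Lb.r r386 (@Lb.r r1156 (@Lb.d (nat_lit 393) (nat_lit 128) (nat_lit 73) (@Lb.fm (nat_lit 9) t3535))))))))))))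
noncomputable def l17418 : Lb := (@Lb.d (nat_lit 40) (nat_lit 517) (nat_lit 128) (@Lb.g g8 (@Lb.g g9 (@Lb.g g10 (@Lb.g g11 (@Lb.r r1443 (@Lb.r r392 (@Lb.r r2138 (@Lb.r r1705 (@Lb.r r1060 (@Lb.d (nat_lit 272) (nat_lit 104) (nat_lit 682) (@Lb.fp (nat_lit 9) t3349))))))))))))
noncomputable def l17419 : Lb := (@Lb.r r21 (@Lb.d (nat_lit 33) (nat_lit 0) (nat_lit 128) (@Lb.g g8 (@Lb.g g11 (@Lb.r r2470 (@Lb.r r2651 (@Lb.r r2453 (@Lb.r r1608 (@Lb.d (nat_lit 593) (nat_lit 132) (nat_lit 514) (@Lb.fp (nat_lit 3) t578))))))))))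
noncomputable def l17420 : Lb := (@Lb.d (nat_lit 4) (nat_lit 2) (nat_lit 130) (@Lb.g g8 (@Lb.g g9 (@Lb.g g10 (@Lb.g g11 (@Lb.r r681 (@Lb.r r419 (@Lb.r r98 (@Lb.r r2564 (@Lb.d (nat_lit 514) (nat_lit 137) (nat_lit 393) (@Lb.fm (nat_lit 9) t758)))))))))))
noncomputable def l17421 : Lb := (@Lb.d (nat_lit 36) (nat_lit 514) (nat_lit 128) (@Lb.g g8 (@Lb.g g9 (@Lb.g g11 (@Lb.r r342 (@Lb.r r387 (@Lb.r r2585 (@Lb.r r1556 (@Lb.d (nat_lit 262) (nat_lit 100) (nat_lit 682) (@Lb.t (@Lb.fm (nat_lit 9) t1255)))))))))))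
noncomputable def l17422 : Lb := (@Lb.d (nat_lit 17) (nat_lit 612) (nat_lit 105) (@Lb.r r2455 (@Lb.r r390 (@Lb.r r596 (@Lb.g g7 (@Lb.g g5 (@Lb.d (nat_lit 64) (nat_lit 129) (nat_lit 68) (@Lb.fp (nat_lit 3) t1443))))))))
noncomputable def l17423 : Lb := (@Lb.r r21 (@Lb.d (nat_lit 33) (nat_lit 0) (nat_lit 128) (@Lb.g g8 (@Lb.g g11 (@Lb.r r2470 (@Lb.r r2651 (@Lb.r r2453 (@Lb.r r1608 (@Lb.d (nat_lit 593) (nat_lit 6) (nat_lit 514) (@Lb.fp (nat_lit 3) t578))))))))))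
noncomputable def l17424 : Lb := (@Lb.r r21 (@Lb.d (nat_lit 1) (nat_lit 0) (nat_lit 137) (@Lb.g g8 (@Lb.g g10 (@Lb.g g11 (@Lb.r r1622 (@Lb.r r2651 (@Lb.r r149 (@Lb.r r72 (@Lb.d (nat_lit 385) (nat_lit 36) (nat_lit 601) (@Lb.t (@Lb.fm (nat_lit 9) t1227))))))))))))
noncomputable def l17425 : Lb := (@Lb.r r263 (@Lb.d (nat_lit 644) (nat_lit 10) (nat_lit 0) (@Lb.g g8 (@Lb.g g9 (@Lb.r r1686 (@Lb.r r407 (@Lb.r r2657 (@Lb.d (nat_lit 1) (nat_lit 88) (nat_lit 274) (@Lb.fm (nat_lit 3) t1126)))))))))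
noncomputable def l17426 : Lb := (@Lb.d (nat_lit 96) (nat_lit 1) (nat_lit 73) (@Lb.g g8 (@Lb.g g9 (@Lb.g g10 (@Lb.g g11 (@Lb.r r2146 (@Lb.r r1125 (@Lb.r r2328 (@Lb.r r1415 (@Lb.d (nat_lit 356) (nat_lit 102) (nat_lit 402) (@Lb.fp (nat_lit 9) t524)))))))))))
noncomputable def l17427 : Lb := (@Lb.d (nat_lit 0) (nat_lit 2) (nat_lit 130) (@Lb.g g9 (@Lb.g g10 (@Lb.g g11 (@Lb.r r2691 (@Lb.r r2376 (@Lb.r r1158 (@Lb.r r97 (@Lb.d (nat_lit 289) (nat_lit 138) (nat_lit 529) (@Lb.t (@Lb.fm (nat_lit 9) t3536)))))))))))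
noncomputable def l17428 : Lb := (@Lb.r r580 (@Lb.d (nat_lit 128) (nat_lit 544) (nat_lit 105) (@Lb.g g10 (@Lb.g g11 (@Lb.r r360 (@Lb.r r2329 (@Lb.r r551 (@Lb.d (nat_lit 128) (nat_lit 26) (nat_lit 37) (@Lb.fm (nat_lit 3) t524)))))))))
noncomputable def l17429 : Lb := (@Lb.d (nat_lit 0) (nat_lit 512) (nat_lit 130) (@Lb.g g4 (@Lb.g g10 (@Lb.g g11 (@Lb.r r2691 (@Lb.r r1158 (@Lb.d (nat_lit 338) (nat_lit 0) (nat_lit 529) (@Lb.t (@Lb.fp (nat_lit 9) t282)))))))))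
noncomputable def l17430 : Lb := (@Lb.r r331 (@Lb.d (nat_lit 672) (nat_lit 514) (nat_lit 2) (@Lb.g g8 (@Lb.g g9 (@Lb.g g10 (@Lb.r r362 (@Lb.r r1411 (@Lb.r r25 (@Lb.d (nat_lit 2) (nat_lit 33) (nat_lit 618) (@Lb.t (@Lb.fm (nat_lit 9) t898)))))))))))
noncomputable def l17431 : Lb := (@Lb.r r326 (@Lb.d (nat_lit 418) (nat_lit 2) (nat_lit 128) (@Lb.g g8 (@Lb.g g9 (@Lb.g g11 (@Lb.r r291 (@Lb.r r2198 (@Lb.r r97 (@Lb.d (nat_lit 609) (nat_lit 88) (nat_lit 676) (@Lb.t (@Lb.fm (nat_lit 9) t523)))))))))))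
noncomputable def l17432 : Lb := (@Lb.r r82 (@Lb.d (nat_lit 9) (nat_lit 545) (nat_lit 64) (@Lb.g g8 (@Lb.g g9 (@Lb.g g11 (@Lb.r r2730 (@Lb.r r2089 (@Lb.r r2340 (@Lb.r r1435 (@Lb.d (nat_lit 676) (nat_lit 0) (nat_lit 154) (@Lb.t (@Lb.fm (nat_lit 9) t525))))))))))))
noncomputable def l17433 : Lb := (@Lb.d (nat_lit 1) (nat_lit 32) (nat_lit 64) (@Lb.g g8 (@Lb.g g11 (@Lb.r r2337 (@Lb.r r2395 (@Lb.r r2178 (@Lb.d (nat_lit 164) (nat_lit 89) (nat_lit 394) (@Lb.fm (nat_lit 3) t32))))))))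
noncomputable def l17434 : Lb := (@Lb.d (nat_lit 2) (nat_lit 548) (nat_lit 10) (@Lb.g g8 (@Lb.g g9 (@Lb.g g10 (@Lb.g g11 (@Lb.r r2667 (@Lb.r r578 (@Lb.r r2212 (@Lb.r r2085 (@Lb.d (nat_lit 408) (nat_lit 73) (nat_lit 84) (@Lb.fp (nat_lit 9) t750)))))))))))
noncomputable def l17435 : Lb := (@Lb.d (nat_lit 0) (nat_lit 261) (nat_lit 74) (@Lb.g g9 (@Lb.g g10 (@Lb.g g11 (@Lb.r r611 (@Lb.r r1610 (@Lb.r r2644 (@Lb.r r1321 (@Lb.d (nat_lit 265) (nat_lit 82) (nat_lit 576) (@Lb.t (@Lb.fm (nat_lit 9) t261)))))))))))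
noncomputable def l17436 : Lb := (@Lb.d (nat_lit 406) (nat_lit 338) (nat_lit 401) (@Lb.r r1604 (@Lb.r r1621 (@Lb.r r682 (@Lb.g g11 (@Lb.g g6 (@Lb.g g5 (@Lb.g g4 (@Lb.d (nat_lit 1) (nat_lit 1) (nat_lit 72) (@Lb.fp (nat_lit 9) t221))))))))))
noncomputable def l17437 : Lb := (@Lb.d (nat_lit 128) (nat_lit 520) (nat_lit 74) (@Lb.g g10 (@Lb.g g11 (@Lb.r r1369 (@Lb.r r280 (@Lb.r r551 (@Lb.r r2186 (@Lb.d (nat_lit 648) (nat_lit 144) (nat_lit 6) (@Lb.fp (nat_lit 3) t127)))))))))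
noncomputable def l17438 : Lb := (@Lb.r r355 (@Lb.d (nat_lit 2) (nat_lit 260) (nat_lit 0) (@Lb.g g8 (@Lb.g g9 (@Lb.g g10 (@Lb.r r2454 (@Lb.r r343 (@Lb.r r296 (@Lb.r r409 (@Lb.d (nat_lit 144) (nat_lit 102) (nat_lit 660) (@Lb.t (@Lb.fm (nat_lit 9) t3537))))))))))))
noncomputable def l17439 : Lb := (@Lb.d (nat_lit 2) (nat_lit 258) (nat_lit 73) (@Lb.g g8 (@Lb.g g9 (@Lb.g g10 (@Lb.g g11 (@Lb.r r2666 (@Lb.r r579 (@Lb.r r97 (@Lb.r r24 (@Lb.d (nat_lit 425) (nat_lit 4) (nat_lit 358) (@Lb.fm (nat_lit 9) t61)))))))))))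
noncomputable def l17440 : Lb := (@Lb.d (nat_lit 2) (nat_lit 258) (nat_lit 2) (@Lb.g g8 (@Lb.g g9 (@Lb.g g10 (@Lb.g g11 (@Lb.r r2454 (@Lb.r r2388 (@Lb.r r1577 (@Lb.r r2663 (@Lb.d (nat_lit 358) (nat_lit 153) (nat_lit 420) (@Lb.fm (nat_lit 9) t3509)))))))))))
noncomputable def l17441 : Lb := (@Lb.d (nat_lit 2) (nat_lit 517) (nat_lit 74) (@Lb.g g8 (@Lb.g g9 (@Lb.g g10 (@Lb.g g11 (@Lb.r r342 (@Lb.r r2712 (@Lb.r r2587 (@Lb.r r1321 (@Lb.d (nat_lit 265) (nat_lit 146) (nat_lit 320) (@Lb.fm (nat_lit 9) t3538)))))))))))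
noncomputable def l17442 : Lb := (@Lb.d (nat_lit 152) (nat_lit 34) (nat_lit 420) (@Lb.r r1048 (@Lb.r r613 (@Lb.g g7 (@Lb.g g10 (@Lb.g g5 (@Lb.d (nat_lit 64) (nat_lit 1) (nat_lit 612) (@Lb.r r516 (@Lb.t (@Lb.fm (nat_lit 9) t3539))))))))))
noncomputable def l17443 : Lb := (@Lb.d (nat_lit 2) (nat_lit 34) (nat_lit 66) (@Lb.g g8 (@Lb.g g9 (@Lb.g g10 (@Lb.g g11 (@Lb.r r419 (@Lb.r r2154 (@Lb.r r2145 (@Lb.d (nat_lit 104) (nat_lit 148) (nat_lit 676) (@Lb.fm (nat_lit 9) t200))))))))))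
noncomputable def l17444 : Lb := (@Lb.d (nat_lit 662) (nat_lit 353) (nat_lit 420) (@Lb.r r1044 (@Lb.r r617 (@Lb.g g7 (@Lb.g g10 (@Lb.g g5 (@Lb.g g4 (@Lb.d (nat_lit 66) (nat_lit 1) (nat_lit 610) (@Lb.fp (nat_lit 9) t1001)))))))))
noncomputable def l17445 : Lb := (@Lb.g g7 (@Lb.r r1425 (@Lb.r r402 (@Lb.r r1379 (@Lb.d (nat_lit 0) (nat_lit 132) (nat_lit 665) (@Lb.t (@Lb.fp (nat_lit 3) t2954)))))))
noncomputable def l17446 : Lb := (@Lb.r r148 (@Lb.d (nat_lit 0) (nat_lit 357) (nat_lit 134) (@Lb.g g5 (@Lb.g g10 (@Lb.g g11 (@Lb.r r1698 (@Lb.r r1419 (@Lb.r r2456 (@Lb.d (nat_lit 530) (nat_lit 132) (nat_lit 34) (@Lb.t (@Lb.fp (nat_lit 9) t3540)))))))))))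
noncomputable def l17447 : Lb := (@Lb.d (nat_lit 0) (nat_lit 8) (nat_lit 73) (@Lb.g g10 (@Lb.g g11 (@Lb.r r387 (@Lb.r r1617 (@Lb.r r354 (@Lb.d (nat_lit 0) (nat_lit 164) (nat_lit 549) (@Lb.fm (nat_lit 3) t1484))))))))
noncomputable def l17448 : Lb := (@Lb.d (nat_lit 148) (nat_lit 266) (nat_lit 129) (@Lb.g g8 (@Lb.g g9 (@Lb.g g10 (@Lb.g g11 (@Lb.r r1303 (@Lb.r r2452 (@Lb.r r2406 (@Lb.r r1553 (@Lb.d (nat_lit 149) (nat_lit 10) (nat_lit 548) (@Lb.fp (nat_lit 9) t3541)))))))))))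
noncomputable def l17449 : Lb := (@Lb.d (nat_lit 133) (nat_lit 65) (nat_lit 576) (@Lb.r r532 (@Lb.r r1305 (@Lb.r r2407 (@Lb.r r2714 (@Lb.g g6 (@Lb.g g4 (@Lb.d (nat_lit 37) (nat_lit 0) (nat_lit 0) (@Lb.fp (nat_lit 3) t3542)))))))))
noncomputable def l17450 : Lb := (@Lb.d (nat_lit 149) (nat_lit 522) (nat_lit 129) (@Lb.g g8 (@Lb.g g9 (@Lb.g g10 (@Lb.g g11 (@Lb.r r666 (@Lb.r r1411 (@Lb.r r1553 (@Lb.r r2728 (@Lb.d (nat_lit 362) (nat_lit 42) (nat_lit 352) (@Lb.fp (nat_lit 9) t3540)))))))))))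
noncomputable def l17451 : Lb := (@Lb.d (nat_lit 2) (nat_lit 34) (nat_lit 64) (@Lb.g g8 (@Lb.g g9 (@Lb.g g11 (@Lb.r r2347 (@Lb.r r360 (@Lb.r r582 (@Lb.r r2145 (@Lb.d (nat_lit 0) (nat_lit 137) (nat_lit 324) (@Lb.t (@Lb.fm (nat_lit 9) t3543)))))))))))
noncomputable def l17452 : Lb := (@Lb.g g5 (@Lb.r r2323 (@Lb.r r2130 (@Lb.r r2085 (@Lb.r r24 (@Lb.t (@Lb.fm (nat_lit 3) t284)))))))
noncomputable def l17453 : Lb := (@Lb.d (nat_lit 4) (nat_lit 40) (nat_lit 97) (@Lb.g g8 (@Lb.g g6 (@Lb.g g11 (@Lb.r r2337 (@Lb.r r531 (@Lb.d (nat_lit 322) (nat_lit 97) (nat_lit 617) (@Lb.t (@Lb.fp (nat_lit 9) t3544)))))))))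
noncomputable def l17454 : Lb := (@Lb.d (nat_lit 10) (nat_lit 256) (nat_lit 64) (@Lb.g g8 (@Lb.g g11 (@Lb.r r677 (@Lb.r r1447 (@Lb.r r2178 (@Lb.r r2584 (@Lb.d (nat_lit 89) (nat_lit 2) (nat_lit 648) (@Lb.fp (nat_lit 3) t3068)))))))))
noncomputable def l17455 : Lb := (@Lb.r r82 (@Lb.d (nat_lit 132) (nat_lit 328) (nat_lit 64) (@Lb.g g8 (@Lb.g g9 (@Lb.g g11 (@Lb.r r2411 (@Lb.r r2198 (@Lb.r r1096 (@Lb.d (nat_lit 82) (nat_lit 2) (nat_lit 150) (@Lb.t (@Lb.fm (nat_lit 9) t3545)))))))))))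
noncomputable def l17456 : Lb := (@Lb.d (nat_lit 149) (nat_lit 266) (nat_lit 66) (@Lb.g g8 (@Lb.g g9 (@Lb.g g10 (@Lb.g g11 (@Lb.r r1698 (@Lb.r r1415 (@Lb.r r36 (@Lb.r r2197 (@Lb.r r2084 (@Lb.d (nat_lit 105) (nat_lit 152) (nat_lit 321) (@Lb.fm (nat_lit 9) t3546))))))))))))
noncomputable def l17457 : Lb := (@Lb.d (nat_lit 4) (nat_lit 10) (nat_lit 97) (@Lb.g g8 (@Lb.g g9 (@Lb.g g6 (@Lb.g g11 (@Lb.r r601 (@Lb.r r2323 (@Lb.r r2577 (@Lb.d (nat_lit 612) (nat_lit 130) (nat_lit 280) (@Lb.fm (nat_lit 9) t3547))))))))))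
noncomputable def l17458 : Lb := (@Lb.r r82 (@Lb.d (nat_lit 32) (nat_lit 289) (nat_lit 64) (@Lb.g g8 (@Lb.g g9 (@Lb.g g11 (@Lb.r r150 (@Lb.r r537 (@Lb.r r411 (@Lb.r r280 (@Lb.d (nat_lit 152) (nat_lit 18) (nat_lit 72) (@Lb.t (@Lb.fm (nat_lit 9) t765))))))))))))
noncomputable def l17459 : Lb := (@Lb.d (nat_lit 296) (nat_lit 326) (nat_lit 1) (@Lb.r r101 (@Lb.r r24 (@Lb.r r1414 (@Lb.r r2395 (@Lb.g g7 (@Lb.g g5 (@Lb.d (nat_lit 4) (nat_lit 1) (nat_lit 64) (@Lb.fp (nat_lit 3) t208)))))))))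
noncomputable def l17460 : Lb := (@Lb.d (nat_lit 394) (nat_lit 65) (nat_lit 288) (@Lb.r r101 (@Lb.r r24 (@Lb.r r402 (@Lb.r r323 (@Lb.g g7 (@Lb.g g6 (@Lb.d (nat_lit 0) (nat_lit 0) (nat_lit 64) (@Lb.fp (nat_lit 3) t3548)))))))))
noncomputable def l17461 : Lb := (@Lb.d (nat_lit 281) (nat_lit 598) (nat_lit 265) (@Lb.r r292 (@Lb.r r2341 (@Lb.r r2651 (@Lb.g g6 (@Lb.g g4 (@Lb.d (nat_lit 17) (nat_lit 4) (nat_lit 1) (@Lb.r r391 (@Lb.fm (nat_lit 3) t3549)))))))))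
noncomputable def l17462 : Lb := (@Lb.r r323 (@Lb.d (nat_lit 32) (nat_lit 514) (nat_lit 2) (@Lb.g g8 (@Lb.g g9 (@Lb.g g10 (@Lb.r r683 (@Lb.r r2134 (@Lb.r r1193 (@Lb.r r1172 (@Lb.d (nat_lit 289) (nat_lit 74) (nat_lit 68) (@Lb.t (@Lb.fm (nat_lit 9) t773))))))))))))
noncomputable def l17463 : Lb := (@Lb.d (nat_lit 133) (nat_lit 292) (nat_lit 10) (@Lb.g g8 (@Lb.g g9 (@Lb.g g10 (@Lb.g g11 (@Lb.r r2658 (@Lb.r r1643 (@Lb.r r165 (@Lb.r r1156 (@Lb.d (nat_lit 360) (nat_lit 37) (nat_lit 612) (@Lb.fp (nat_lit 9) t1816)))))))))))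
noncomputable def l17464 : Lb := (@Lb.d (nat_lit 128) (nat_lit 38) (nat_lit 133) (@Lb.g g8 (@Lb.g g9 (@Lb.g g10 (@Lb.g g11 (@Lb.r r419 (@Lb.r r2393 (@Lb.r r2474 (@Lb.r r516 (@Lb.d (nat_lit 528) (nat_lit 101) (nat_lit 274) (@Lb.fm (nat_lit 9) t902)))))))))))
noncomputable def l17465 : Lb := (@Lb.d (nat_lit 9) (nat_lit 512) (nat_lit 136) (@Lb.g g8 (@Lb.g g11 (@Lb.d (nat_lit 10) (nat_lit 130) (nat_lit 2) (@Lb.fm (nat_lit 3) t2)))))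
noncomputable def l17466 : Lb := (@Lb.r r1284 (@Lb.r r273 (@Lb.d (nat_lit 32) (nat_lit 8) (nat_lit 129) (@Lb.g g6 (@Lb.g g11 (@Lb.r r405 (@Lb.r r1315 (@Lb.d (nat_lit 328) (nat_lit 98) (nat_lit 584) (@Lb.fp (nat_lit 3) t1758)))))))))
noncomputable def l17467 : Lb := (@Lb.d (nat_lit 64) (nat_lit 0) (nat_lit 392) (@Lb.g g11 (@Lb.r r402 (@Lb.r r1045 (@Lb.r r8 (@Lb.d (nat_lit 256) (nat_lit 74) (nat_lit 146) (@Lb.t (@Lb.fp (nat_lit 3) t1122))))))))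
noncomputable def l17468 : Lb := (@Lb.r r323 (@Lb.d (nat_lit 8) (nat_lit 290) (nat_lit 0) (@Lb.g g9 (@Lb.g g10 (@Lb.r r347 (@Lb.r r344 (@Lb.r r166 (@Lb.r r1173 (@Lb.d (nat_lit 294) (nat_lit 137) (nat_lit 169) (@Lb.fm (nat_lit 3) t51))))))))))
noncomputable def l17469 : Lb := (@Lb.d (nat_lit 128) (nat_lit 132) (nat_lit 128) (@Lb.g g9 (@Lb.g g11 (@Lb.r r264 (@Lb.r r1351 (@Lb.r r2178 (@Lb.d (nat_lit 97) (nat_lit 70) (nat_lit 168) (@Lb.fm (nat_lit 3) t216))))))))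
noncomputable def l17470 : Lb := (@Lb.d (nat_lit 2) (nat_lit 2) (nat_lit 66) (@Lb.g g8 (@Lb.g g9 (@Lb.g g10 (@Lb.g g7 (@Lb.r r386 (@Lb.r r2657 (@Lb.r r24 (@Lb.d (nat_lit 10) (nat_lit 89) (nat_lit 137) (@Lb.fp (nat_lit 9) t2877))))))))))
noncomputable def l17471 : Lb := (@Lb.d (nat_lit 0) (nat_lit 512) (nat_lit 130) (@Lb.g g10 (@Lb.g g11 (@Lb.r r1447 (@Lb.r r386 (@Lb.r r1045 (@Lb.r r8 (@Lb.d (nat_lit 354) (nat_lit 105) (nat_lit 545) (@Lb.fm (nat_lit 3) t1663)))))))))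
noncomputable def l17472 : Lb := (@Lb.d (nat_lit 2) (nat_lit 258) (nat_lit 128) (@Lb.g g8 (@Lb.g g9 (@Lb.g g10 (@Lb.g g11 (@Lb.r r1194 (@Lb.r r424 (@Lb.r r279 (@Lb.r r1553 (@Lb.r r2084 (@Lb.d (nat_lit 1) (nat_lit 97) (nat_lit 586) (@Lb.fp (nat_lit 9) t51))))))))))))
noncomputable def l17473 : Lb := (@Lb.d (nat_lit 6) (nat_lit 594) (nat_lit 97) (@Lb.r r289 (@Lb.r r279 (@Lb.r r612 (@Lb.r r346 (@Lb.g g7 (@Lb.g g6 (@Lb.g g5 (@Lb.d (nat_lit 4) (nat_lit 1) (nat_lit 65) (@Lb.t (@Lb.fm (nat_lit 9) t51)))))))))))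
noncomputable def l17474 : Lb := (@Lb.d (nat_lit 0) (nat_lit 256) (nat_lit 136) (@Lb.g g11 (@Lb.r r402 (@Lb.d (nat_lit 0) (nat_lit 74) (nat_lit 146) (@Lb.t (@Lb.fm (nat_lit 3) t334))))))
noncomputable def l17475 : Lb := (@Lb.r r323 (@Lb.d (nat_lit 2) (nat_lit 256) (nat_lit 2) (@Lb.g g8 (@Lb.g g9 (@Lb.g g10 (@Lb.r r2411 (@Lb.r r2434 (@Lb.r r1625 (@Lb.d (nat_lit 617) (nat_lit 166) (nat_lit 341) (@Lb.t (@Lb.fp (nat_lit 9) t2459)))))))))))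
noncomputable def l17476 : Lb := (@Lb.d (nat_lit 0) (nat_lit 512) (nat_lit 128) (@Lb.g g11 (@Lb.r r658 (@Lb.r r387 (@Lb.d (nat_lit 0) (nat_lit 37) (nat_lit 90) (@Lb.t (@Lb.fm (nat_lit 3) t356)))))))
noncomputable def l17477 : Lb := (@Lb.d (nat_lit 10) (nat_lit 256) (nat_lit 128) (@Lb.g g8 (@Lb.g g11 (@Lb.r r353 (@Lb.r r407 (@Lb.r r612 (@Lb.r r154 (@Lb.d (nat_lit 24) (nat_lit 128) (nat_lit 4) (@Lb.fm (nat_lit 3) t126)))))))))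
noncomputable def l17478 : Lb := (@Lb.d (nat_lit 128) (nat_lit 0) (nat_lit 128) (@Lb.g g11 (@Lb.r r264 (@Lb.r r519 (@Lb.r r101 (@Lb.r r154 (@Lb.d (nat_lit 152) (nat_lit 128) (nat_lit 129) (@Lb.t (@Lb.fp (nat_lit 3) t126)))))))))
noncomputable def l17479 : Lb := (@Lb.d (nat_lit 290) (nat_lit 512) (nat_lit 18) (@Lb.r r146 (@Lb.r r101 (@Lb.g g7 (@Lb.g g8 (@Lb.d (nat_lit 137) (nat_lit 16) (nat_lit 384) (@Lb.r r578 (@Lb.r r529 (@Lb.fp (nat_lit 3) t3550)))))))))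
noncomputable def l17480 : Lb := (@Lb.d (nat_lit 2) (nat_lit 258) (nat_lit 73) (@Lb.g g8 (@Lb.g g9 (@Lb.g g10 (@Lb.g g11 (@Lb.r r2691 (@Lb.r r2665 (@Lb.r r1686 (@Lb.r r1124 (@Lb.d (nat_lit 408) (nat_lit 138) (nat_lit 345) (@Lb.fm (nat_lit 9) t3551)))))))))))
noncomputable def l17481 : Lb := (@Lb.d (nat_lit 2) (nat_lit 2) (nat_lit 73) (@Lb.g g8 (@Lb.g g9 (@Lb.g g10 (@Lb.g g11 (@Lb.r r2691 (@Lb.r r297 (@Lb.r r360 (@Lb.r r582 (@Lb.r r2180 (@Lb.d (nat_lit 642) (nat_lit 10) (nat_lit 329) (@Lb.fm (nat_lit 9) t242))))))))))))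
noncomputable def l17482 : Lb := (@Lb.g g7 (@Lb.r r402 (@Lb.r r101 (@Lb.r r24 (@Lb.d (nat_lit 262) (nat_lit 320) (nat_lit 512) (@Lb.t (@Lb.fp (nat_lit 3) t1863)))))))
noncomputable def l17483 : Lb := (@Lb.r r21 (@Lb.r r70 (@Lb.d (nat_lit 514) (nat_lit 0) (nat_lit 0) (@Lb.g g8 (@Lb.r r1291 (@Lb.r r402 (@Lb.r r97 (@Lb.d (nat_lit 520) (nat_lit 130) (nat_lit 512) (@Lb.t (@Lb.fp (nat_lit 3) t1847))))))))))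
noncomputable def l17484 : Lb := (@Lb.d (nat_lit 0) (nat_lit 598) (nat_lit 406) (@Lb.r r2721 (@Lb.r r2475 (@Lb.r r2408 (@Lb.r r1174 (@Lb.g g7 (@Lb.g g9 (@Lb.d (nat_lit 4) (nat_lit 1) (nat_lit 0) (@Lb.fm (nat_lit 3) t45)))))))))
noncomputable def l17485 : Lb := (@Lb.d (nat_lit 260) (nat_lit 582) (nat_lit 17) (@Lb.r r2129 (@Lb.r r166 (@Lb.r r344 (@Lb.r r679 (@Lb.g g7 (@Lb.g g6 (@Lb.g g5 (@Lb.d (nat_lit 0) (nat_lit 0) (nat_lit 133) (@Lb.t (@Lb.fm (nat_lit 9) t356)))))))))))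
noncomputable def l17486 : Lb := (@Lb.d (nat_lit 32) (nat_lit 0) (nat_lit 69) (@Lb.r r583 (@Lb.r r264 (@Lb.r r1174 (@Lb.r r361 (@Lb.g g7 (@Lb.d (nat_lit 64) (nat_lit 0) (nat_lit 64) (@Lb.t (@Lb.fm (nat_lit 3) t152)))))))))
noncomputable def l17487 : Lb := (@Lb.d (nat_lit 2) (nat_lit 9) (nat_lit 136) (@Lb.g g8 (@Lb.g g9 (@Lb.g g10 (@Lb.g g11 (@Lb.r r1706 (@Lb.r r680 (@Lb.r r555 (@Lb.r r1573 (@Lb.r r1044 (@Lb.d (nat_lit 649) (nat_lit 65) (nat_lit 330) (@Lb.fp (nat_lit 9) t125))))))))))))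
noncomputable def l17488 : Lb := (@Lb.d (nat_lit 0) (nat_lit 0) (nat_lit 136) (@Lb.g g10 (@Lb.g g11 (@Lb.r r1347 (@Lb.r r2706 (@Lb.r r101 (@Lb.r r24 (@Lb.d (nat_lit 258) (nat_lit 0) (nat_lit 389) (@Lb.fp (nat_lit 3) t312)))))))))
noncomputable def l17489 : Lb := (@Lb.d (nat_lit 0) (nat_lit 256) (nat_lit 128) (@Lb.g g11 (@Lb.r r353 (@Lb.r r663 (@Lb.r r356 (@Lb.r r154 (@Lb.d (nat_lit 257) (nat_lit 0) (nat_lit 16) (@Lb.t (@Lb.fm (nat_lit 3) t743)))))))))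
noncomputable def l17490 : Lb := (@Lb.d (nat_lit 5) (nat_lit 0) (nat_lit 0) (@Lb.g g4 (@Lb.r r579 (@Lb.d (nat_lit 6) (nat_lit 65) (nat_lit 32) (@Lb.t (@Lb.fp (nat_lit 3) t2))))))
noncomputable def l17491 : Lb := (@Lb.d (nat_lit 6) (nat_lit 678) (nat_lit 645) (@Lb.r r21 (@Lb.r r1366 (@Lb.g g7 (@Lb.g g6 (@Lb.g g5 (@Lb.g g4 (@Lb.d (nat_lit 1) (nat_lit 1) (nat_lit 134) (@Lb.fp (nat_lit 9) t40)))))))))
noncomputable def l17492 : Lb := (@Lb.d (nat_lit 2) (nat_lit 514) (nat_lit 10) (@Lb.g g8 (@Lb.g g9 (@Lb.g g10 (@Lb.g g11 (@Lb.r r682 (@Lb.r r680 (@Lb.r r555 (@Lb.r r1553 (@Lb.r r2084 (@Lb.d (nat_lit 520) (nat_lit 161) (nat_lit 586) (@Lb.fm (nat_lit 9) t51))))))))))))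
noncomputable def l17493 : Lb := (@Lb.d (nat_lit 2) (nat_lit 2) (nat_lit 5) (@Lb.g g8 (@Lb.g g9 (@Lb.g g10 (@Lb.g g11 (@Lb.r r682 (@Lb.r r424 (@Lb.r r279 (@Lb.r r1553 (@Lb.r r2084 (@Lb.d (nat_lit 262) (nat_lit 161) (nat_lit 586) (@Lb.fp (nat_lit 9) t51))))))))))))
noncomputable def l17494 : Lb := (@Lb.d (nat_lit 2) (nat_lit 2) (nat_lit 74) (@Lb.g g8 (@Lb.g g9 (@Lb.g g10 (@Lb.g g11 (@Lb.r r682 (@Lb.r r680 (@Lb.r r555 (@Lb.r r1553 (@Lb.r r2084 (@Lb.d (nat_lit 521) (nat_lit 161) (nat_lit 586) (@Lb.fm (nat_lit 9) t51))))))))))))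
noncomputable def l17495 : Lb := (@Lb.d (nat_lit 406) (nat_lit 641) (nat_lit 422) (@Lb.r r1044 (@Lb.r r105 (@Lb.r r386 (@Lb.g g11 (@Lb.g g6 (@Lb.g g5 (@Lb.g g4 (@Lb.d (nat_lit 66) (nat_lit 32) (nat_lit 385) (@Lb.fm (nat_lit 9) t536))))))))))
noncomputable def l17496 : Lb := (@Lb.r r70 (@Lb.r r263 (@Lb.d (nat_lit 0) (nat_lit 66) (nat_lit 0) (@Lb.g g8 (@Lb.g g9 (@Lb.r r2347 (@Lb.r r2154 (@Lb.r r2084 (@Lb.d (nat_lit 0) (nat_lit 66) (nat_lit 0) (@Lb.fm (nat_lit 3) t213))))))))))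
noncomputable def l17497 : Lb := (@Lb.d (nat_lit 2) (nat_lit 0) (nat_lit 66) (@Lb.g g8 (@Lb.g g10 (@Lb.g g7 (@Lb.r r386 (@Lb.r r2073 (@Lb.d (nat_lit 33) (nat_lit 0) (nat_lit 41) (@Lb.t (@Lb.fm (nat_lit 9) t183)))))))))
noncomputable def l17498 : Lb := (@Lb.r r323 (@Lb.d (nat_lit 38) (nat_lit 266) (nat_lit 1) (@Lb.g g8 (@Lb.g g9 (@Lb.g g10 (@Lb.r r1689 (@Lb.r r1563 (@Lb.r r2634 (@Lb.r r1540 (@Lb.d (nat_lit 258) (nat_lit 0) (nat_lit 401) (@Lb.t (@Lb.fp (nat_lit 9) t3552))))))))))))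
noncomputable def l17499 : Lb := (@Lb.r r21 (@Lb.r r1094 (@Lb.r r263 (@Lb.d (nat_lit 266) (nat_lit 256) (nat_lit 0) (@Lb.g g8 (@Lb.r r2331 (@Lb.r r1125 (@Lb.d (nat_lit 2) (nat_lit 69) (nat_lit 1) (@Lb.t (@Lb.fm (nat_lit 3) t3553))))))))))
noncomputable def l17500 : Lb := (@Lb.d (nat_lit 1) (nat_lit 258) (nat_lit 2) (@Lb.g g8 (@Lb.g g9 (@Lb.g g10 (@Lb.g g11 (@Lb.r r2691 (@Lb.r r297 (@Lb.r r360 (@Lb.r r582 (@Lb.r r2180 (@Lb.d (nat_lit 641) (nat_lit 5) (nat_lit 328) (@Lb.fm (nat_lit 9) t242))))))))))))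
noncomputable def l17501 : Lb := (@Lb.g g9 (@Lb.r r1045 (@Lb.d (nat_lit 258) (nat_lit 0) (nat_lit 0) (@Lb.t (@Lb.fp (nat_lit 3) t2)))))
noncomputable def l17502 : Lb := (@Lb.d (nat_lit 618) (nat_lit 358) (nat_lit 294) (@Lb.r r410 (@Lb.r r2645 (@Lb.r r2647 (@Lb.r r264 (@Lb.g g7 (@Lb.g g6 (@Lb.d (nat_lit 80) (nat_lit 0) (nat_lit 1) (@Lb.fp (nat_lit 3) t322)))))))))
noncomputable def l17503 : Lb := (@Lb.d (nat_lit 529) (nat_lit 512) (nat_lit 537) (@Lb.r r24 (@Lb.r r1435 (@Lb.r r2458 (@Lb.r r597 (@Lb.g g7 (@Lb.d (nat_lit 0) (nat_lit 16) (nat_lit 68) (@Lb.t (@Lb.fm (nat_lit 3) t386)))))))))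
noncomputable def l17504 : Lb := (@Lb.d (nat_lit 0) (nat_lit 516) (nat_lit 74) (@Lb.g g9 (@Lb.g g10 (@Lb.g g11 (@Lb.r r1675 (@Lb.r r648 (@Lb.r r1194 (@Lb.r r425 (@Lb.r r2084 (@Lb.d (nat_lit 266) (nat_lit 97) (nat_lit 618) (@Lb.t (@Lb.fm (nat_lit 9) t1889))))))))))))
noncomputable def l17505 : Lb := (@Lb.r r323 (@Lb.d (nat_lit 2) (nat_lit 514) (nat_lit 2) (@Lb.g g8 (@Lb.g g9 (@Lb.g g10 (@Lb.r r401 (@Lb.r r2727 (@Lb.r r2694 (@Lb.r r1416 (@Lb.d (nat_lit 389) (nat_lit 8) (nat_lit 392) (@Lb.t (@Lb.fp (nat_lit 9) t221))))))))))))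
noncomputable def l17506 : Lb := (@Lb.d (nat_lit 0) (nat_lit 4) (nat_lit 128) (@Lb.g g9 (@Lb.g g10 (@Lb.g g11 (@Lb.r r1675 (@Lb.r r648 (@Lb.r r1194 (@Lb.r r425 (@Lb.r r2084 (@Lb.d (nat_lit 256) (nat_lit 98) (nat_lit 618) (@Lb.t (@Lb.fm (nat_lit 9) t1889))))))))))))
noncomputable def l17507 : Lb := (@Lb.r r1045 (@Lb.r r36 (@Lb.d (nat_lit 260) (nat_lit 386) (nat_lit 0) (@Lb.fp (nat_lit 1) t2))))
noncomputable def l17508 : Lb := (@Lb.d (nat_lit 2) (nat_lit 514) (nat_lit 130) (@Lb.g g8 (@Lb.g g9 (@Lb.g g10 (@Lb.g g11 (@Lb.r r1706 (@Lb.r r676 (@Lb.r r551 (@Lb.r r1557 (@Lb.r r1060 (@Lb.d (nat_lit 649) (nat_lit 2) (nat_lit 330) (@Lb.fp (nat_lit 9) t284))))))))))))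
noncomputable def l17509 : Lb := (@Lb.d (nat_lit 2) (nat_lit 2) (nat_lit 130) (@Lb.g g8 (@Lb.g g9 (@Lb.g g10 (@Lb.g g11 (@Lb.r r1706 (@Lb.r r676 (@Lb.r r551 (@Lb.r r1557 (@Lb.r r1060 (@Lb.d (nat_lit 644) (nat_lit 1) (nat_lit 330) (@Lb.fp (nat_lit 9) t284))))))))))))
noncomputable def l17510 : Lb := (@Lb.d (nat_lit 0) (nat_lit 256) (nat_lit 72) (@Lb.g g10 (@Lb.g g11 (@Lb.r r1347 (@Lb.r r2706 (@Lb.r r101 (@Lb.r r24 (@Lb.d (nat_lit 258) (nat_lit 0) (nat_lit 389) (@Lb.fp (nat_lit 3) t312)))))))))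
noncomputable def l17511 : Lb := (@Lb.d (nat_lit 0) (nat_lit 546) (nat_lit 344) (@Lb.r r2370 (@Lb.r r1683 (@Lb.r r642 (@Lb.g g7 (@Lb.g g6 (@Lb.g g5 (@Lb.d (nat_lit 0) (nat_lit 0) (nat_lit 70) (@Lb.t (@Lb.fp (nat_lit 9) t599))))))))))
noncomputable def l17512 : Lb := (@Lb.r r323 (@Lb.d (nat_lit 2) (nat_lit 2) (nat_lit 0) (@Lb.g g8 (@Lb.g g9 (@Lb.g g10 (@Lb.r r427 (@Lb.r r2201 (@Lb.r r146 (@Lb.d (nat_lit 294) (nat_lit 8) (nat_lit 33) (@Lb.t (@Lb.fp (nat_lit 9) t1961)))))))))))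
noncomputable def l17513 : Lb := (@Lb.d (nat_lit 0) (nat_lit 258) (nat_lit 130) (@Lb.g g8 (@Lb.g g9 (@Lb.g g10 (@Lb.g g11 (@Lb.r r2705 (@Lb.r r535 (@Lb.r r2440 (@Lb.r r2122 (@Lb.d (nat_lit 289) (nat_lit 0) (nat_lit 137) (@Lb.fp (nat_lit 9) t221)))))))))))
noncomputable def l17514 : Lb := (@Lb.d (nat_lit 128) (nat_lit 256) (nat_lit 324) (@Lb.g g7 (@Lb.r r402 (@Lb.r r2145 (@Lb.r r36 (@Lb.d (nat_lit 68) (nat_lit 65) (nat_lit 576) (@Lb.t (@Lb.fm (nat_lit 3) t1351))))))))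
noncomputable def l17515 : Lb := (@Lb.d (nat_lit 168) (nat_lit 256) (nat_lit 136) (@Lb.g g8 (@Lb.g g11 (@Lb.r r386 (@Lb.r r1639 (@Lb.r r2597 (@Lb.r r276 (@Lb.d (nat_lit 70) (nat_lit 149) (nat_lit 138) (@Lb.fp (nat_lit 3) t3554)))))))))
noncomputable def l17516 : Lb := (@Lb.d (nat_lit 2) (nat_lit 514) (nat_lit 130) (@Lb.g g8 (@Lb.g g9 (@Lb.g g10 (@Lb.g g11 (@Lb.r r2691 (@Lb.r r536 (@Lb.r r2197 (@Lb.r r2646 (@Lb.r r164 (@Lb.d (nat_lit 137) (nat_lit 2) (nat_lit 362) (@Lb.fp (nat_lit 9) t991))))))))))))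
noncomputable def l17517 : Lb := (@Lb.d (nat_lit 0) (nat_lit 256) (nat_lit 128) (@Lb.g g11 (@Lb.r r664 (@Lb.r r154 (@Lb.r r2133 (@Lb.r r164 (@Lb.d (nat_lit 0) (nat_lit 0) (nat_lit 389) (@Lb.t (@Lb.fp (nat_lit 3) t2428)))))))))
noncomputable def l17518 : Lb := (@Lb.d (nat_lit 0) (nat_lit 258) (nat_lit 130) (@Lb.g g8 (@Lb.g g9 (@Lb.g g10 (@Lb.g g11 (@Lb.r r2691 (@Lb.r r536 (@Lb.r r2197 (@Lb.r r2646 (@Lb.r r164 (@Lb.d (nat_lit 137) (nat_lit 2) (nat_lit 362) (@Lb.fp (nat_lit 9) t991))))))))))))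
noncomputable def l17519 : Lb := (@Lb.d (nat_lit 136) (nat_lit 256) (nat_lit 64) (@Lb.g g8 (@Lb.g g11 (@Lb.r r1307 (@Lb.r r2662 (@Lb.r r613 (@Lb.r r2452 (@Lb.d (nat_lit 614) (nat_lit 149) (nat_lit 649) (@Lb.fp (nat_lit 3) t568)))))))))
noncomputable def l17520 : Lb := (@Lb.d (nat_lit 0) (nat_lit 514) (nat_lit 130) (@Lb.g g8 (@Lb.g g9 (@Lb.g g10 (@Lb.g g11 (@Lb.r r427 (@Lb.r r2146 (@Lb.r r292 (@Lb.r r2069 (@Lb.r r1060 (@Lb.d (nat_lit 289) (nat_lit 34) (nat_lit 418) (@Lb.fp (nat_lit 9) t1089))))))))))))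
noncomputable def l17521 : Lb := (@Lb.d (nat_lit 128) (nat_lit 512) (nat_lit 393) (@Lb.g g10 (@Lb.g g7 (@Lb.r r386 (@Lb.r r2069 (@Lb.r r8 (@Lb.d (nat_lit 288) (nat_lit 0) (nat_lit 41) (@Lb.fp (nat_lit 3) t1155))))))))
noncomputable def l17522 : Lb := (@Lb.d (nat_lit 144) (nat_lit 258) (nat_lit 10) (@Lb.g g8 (@Lb.g g9 (@Lb.g g10 (@Lb.g g11 (@Lb.r r427 (@Lb.r r1169 (@Lb.r r356 (@Lb.r r1178 (@Lb.r r132 (@Lb.d (nat_lit 514) (nat_lit 5) (nat_lit 408) (@Lb.fm (nat_lit 9) t2185))))))))))))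
noncomputable def l17523 : Lb := (@Lb.d (nat_lit 136) (nat_lit 256) (nat_lit 64) (@Lb.g g8 (@Lb.g g11 (@Lb.r r1307 (@Lb.r r2662 (@Lb.r r613 (@Lb.r r2452 (@Lb.d (nat_lit 614) (nat_lit 144) (nat_lit 520) (@Lb.fp (nat_lit 3) t745)))))))))
noncomputable def l17524 : Lb := (@Lb.d (nat_lit 390) (nat_lit 662) (nat_lit 594) (@Lb.r r2325 (@Lb.r r2390 (@Lb.r r2731 (@Lb.g g6 (@Lb.g g5 (@Lb.g g4 (@Lb.d (nat_lit 8) (nat_lit 2) (nat_lit 1) (@Lb.t (@Lb.fm (nat_lit 9) t578))))))))))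
noncomputable def l17525 : Lb := (@Lb.r r82 (@Lb.d (nat_lit 4) (nat_lit 274) (nat_lit 0) (@Lb.g g5 (@Lb.g g11 (@Lb.r r2651 (@Lb.r r386 (@Lb.r r24 (@Lb.d (nat_lit 34) (nat_lit 6) (nat_lit 18) (@Lb.fm (nat_lit 3) t742)))))))))
noncomputable def l17526 : Lb := (@Lb.d (nat_lit 8) (nat_lit 514) (nat_lit 130) (@Lb.g g9 (@Lb.g g10 (@Lb.g g11 (@Lb.r r586 (@Lb.r r584 (@Lb.r r299 (@Lb.r r409 (@Lb.d (nat_lit 9) (nat_lit 68) (nat_lit 152) (@Lb.t (@Lb.fp (nat_lit 9) t1022)))))))))))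
noncomputable def l17527 : Lb := (@Lb.d (nat_lit 390) (nat_lit 597) (nat_lit 608) (@Lb.r r2325 (@Lb.r r1387 (@Lb.r r1666 (@Lb.g g7 (@Lb.g g6 (@Lb.g g5 (@Lb.g g4 (@Lb.d (nat_lit 1) (nat_lit 0) (nat_lit 133) (@Lb.fm (nat_lit 9) t918))))))))))
noncomputable def l17528 : Lb := (@Lb.r r323 (@Lb.g g6 (@Lb.r r1626 (@Lb.r r584 (@Lb.r r299 (@Lb.r r289 (@Lb.d (nat_lit 0) (nat_lit 64) (nat_lit 320) (@Lb.t (@Lb.fm (nat_lit 3) t1115)))))))))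
noncomputable def l17529 : Lb := (@Lb.r r323 (@Lb.d (nat_lit 2) (nat_lit 290) (nat_lit 21) (@Lb.g g8 (@Lb.g g9 (@Lb.g g10 (@Lb.r r595 (@Lb.r r296 (@Lb.r r409 (@Lb.d (nat_lit 645) (nat_lit 89) (nat_lit 401) (@Lb.t (@Lb.fm (nat_lit 9) t775)))))))))))
noncomputable def l17530 : Lb := (@Lb.d (nat_lit 2) (nat_lit 290) (nat_lit 130) (@Lb.g g8 (@Lb.g g9 (@Lb.g g10 (@Lb.g g11 (@Lb.r r387 (@Lb.r r2154 (@Lb.r r2073 (@Lb.d (nat_lit 258) (nat_lit 21) (nat_lit 9) (@Lb.fp (nat_lit 9) t928))))))))))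
noncomputable def l17531 : Lb := (@Lb.d (nat_lit 150) (nat_lit 161) (nat_lit 417) (@Lb.r r24 (@Lb.r r1383 (@Lb.r r2389 (@Lb.g g6 (@Lb.g g4 (@Lb.d (nat_lit 2) (nat_lit 8) (nat_lit 41) (@Lb.r r387 (@Lb.fp (nat_lit 3) t1051)))))))))
noncomputable def l17532 : Lb := (@Lb.d (nat_lit 642) (nat_lit 258) (nat_lit 66) (@Lb.g g8 (@Lb.g g9 (@Lb.g g10 (@Lb.g g11 (@Lb.r r1451 (@Lb.r r106 (@Lb.r r25 (@Lb.d (nat_lit 2) (nat_lit 10) (nat_lit 425) (@Lb.fp (nat_lit 9) t394))))))))))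
noncomputable def l17533 : Lb := (@Lb.r r323 (@Lb.g g6 (@Lb.r r1626 (@Lb.r r584 (@Lb.r r299 (@Lb.r r289 (@Lb.d (nat_lit 0) (nat_lit 130) (nat_lit 320) (@Lb.t (@Lb.fm (nat_lit 3) t259)))))))))
noncomputable def l17534 : Lb := (@Lb.d (nat_lit 0) (nat_lit 673) (nat_lit 640) (@Lb.r r260 (@Lb.r r390 (@Lb.r r603 (@Lb.r r596 (@Lb.g g5 (@Lb.d (nat_lit 0) (nat_lit 18) (nat_lit 0) (@Lb.t (@Lb.fm (nat_lit 3) t2012)))))))))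
noncomputable def l17535 : Lb := (@Lb.r r323 (@Lb.g g6 (@Lb.r r1626 (@Lb.r r584 (@Lb.r r299 (@Lb.r r289 (@Lb.d (nat_lit 10) (nat_lit 322) (nat_lit 320) (@Lb.t (@Lb.fm (nat_lit 3) t1115)))))))))
noncomputable def l17536 : Lb := (@Lb.d (nat_lit 148) (nat_lit 401) (nat_lit 338) (@Lb.r r1556 (@Lb.r r281 (@Lb.r r615 (@Lb.g g6 (@Lb.g g4 (@Lb.d (nat_lit 69) (nat_lit 4) (nat_lit 17) (@Lb.r r387 (@Lb.fp (nat_lit 3) t2280)))))))))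
noncomputable def l17537 : Lb := (@Lb.d (nat_lit 0) (nat_lit 10) (nat_lit 0) (@Lb.g g9 (@Lb.d (nat_lit 280) (nat_lit 2) (nat_lit 32) (@Lb.t (@Lb.fp (nat_lit 3) t743)))))
noncomputable def l17538 : Lb := (@Lb.d (nat_lit 256) (nat_lit 513) (nat_lit 80) (@Lb.r r134 (@Lb.r r328 (@Lb.r r407 (@Lb.g g5 (@Lb.g g4 (@Lb.d (nat_lit 1) (nat_lit 38) (nat_lit 0) (@Lb.fm (nat_lit 3) t1602))))))))
noncomputable def l17539 : Lb := (@Lb.r r21 (@Lb.d (nat_lit 10) (nat_lit 256) (nat_lit 130) (@Lb.g g8 (@Lb.g g10 (@Lb.g g11 (@Lb.r r331 (@Lb.r r386 (@Lb.r r2197 (@Lb.r r676 (@Lb.d (nat_lit 320) (nat_lit 38) (nat_lit 296) (@Lb.t (@Lb.fp (nat_lit 9) t3555))))))))))))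
noncomputable def l17540 : Lb := (@Lb.r r323 (@Lb.d (nat_lit 2) (nat_lit 9) (nat_lit 2) (@Lb.g g8 (@Lb.g g9 (@Lb.g g10 (@Lb.r r2666 (@Lb.r r1635 (@Lb.r r1553 (@Lb.d (nat_lit 385) (nat_lit 17) (nat_lit 512) (@Lb.t (@Lb.fp (nat_lit 9) t823)))))))))))
noncomputable def l17541 : Lb := (@Lb.d (nat_lit 0) (nat_lit 64) (nat_lit 64) (@Lb.r r2580 (@Lb.r r2329 (@Lb.r r2378 (@Lb.g g7 (@Lb.g g6 (@Lb.d (nat_lit 64) (nat_lit 0) (nat_lit 576) (@Lb.fm (nat_lit 3) t2491))))))))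
noncomputable def l17542 : Lb := (@Lb.d (nat_lit 538) (nat_lit 650) (nat_lit 0) (@Lb.r r2138 (@Lb.r r149 (@Lb.r r2451 (@Lb.g g5 (@Lb.t (@Lb.fm (nat_lit 3) t784)))))))
noncomputable def l17543 : Lb := (@Lb.d (nat_lit 128) (nat_lit 10) (nat_lit 130) (@Lb.g g9 (@Lb.g g10 (@Lb.g g11 (@Lb.r r2724 (@Lb.r r2645 (@Lb.r r418 (@Lb.r r611 (@Lb.d (nat_lit 608) (nat_lit 9) (nat_lit 393) (@Lb.t (@Lb.fm (nat_lit 9) t2953)))))))))))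
noncomputable def l17544 : Lb := (@Lb.d (nat_lit 592) (nat_lit 344) (nat_lit 74) (@Lb.r r2120 (@Lb.r r2145 (@Lb.r r2374 (@Lb.r r2691 (@Lb.g g7 (@Lb.g g6 (@Lb.g g4 (@Lb.d (nat_lit 0) (nat_lit 0) (nat_lit 134) (@Lb.t (@Lb.fm (nat_lit 9) t3482)))))))))))
noncomputable def l17545 : Lb := (@Lb.d (nat_lit 6) (nat_lit 546) (nat_lit 130) (@Lb.g g8 (@Lb.g g9 (@Lb.g g10 (@Lb.g g11 (@Lb.r r683 (@Lb.r r1642 (@Lb.r r1561 (@Lb.d (nat_lit 585) (nat_lit 105) (nat_lit 273) (@Lb.fm (nat_lit 9) t919))))))))))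
noncomputable def l17546 : Lb := (@Lb.d (nat_lit 6) (nat_lit 390) (nat_lit 33) (@Lb.r r597 (@Lb.r r279 (@Lb.r r584 (@Lb.r r326 (@Lb.g g7 (@Lb.g g6 (@Lb.g g5 (@Lb.d (nat_lit 4) (nat_lit 1) (nat_lit 65) (@Lb.t (@Lb.fm (nat_lit 9) t521)))))))))))
noncomputable def l17547 : Lb := (@Lb.d (nat_lit 320) (nat_lit 545) (nat_lit 64) (@Lb.r r24 (@Lb.r r2145 (@Lb.r r402 (@Lb.r r1543 (@Lb.g g7 (@Lb.g g6 (@Lb.g g4 (@Lb.d (nat_lit 1) (nat_lit 0) (nat_lit 128) (@Lb.t (@Lb.fp (nat_lit 9) t2017)))))))))))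
noncomputable def l17548 : Lb := (@Lb.d (nat_lit 0) (nat_lit 514) (nat_lit 130) (@Lb.g g8 (@Lb.g g9 (@Lb.g g10 (@Lb.g g11 (@Lb.r r1299 (@Lb.r r2705 (@Lb.r r2646 (@Lb.r r1416 (@Lb.d (nat_lit 90) (nat_lit 1) (nat_lit 618) (@Lb.fm (nat_lit 9) t441)))))))))))
noncomputable def l17549 : Lb := (@Lb.d (nat_lit 0) (nat_lit 512) (nat_lit 128) (@Lb.g g8 (@Lb.g g11 (@Lb.r r545 (@Lb.r r299 (@Lb.r r328 (@Lb.r r134 (@Lb.d (nat_lit 0) (nat_lit 5) (nat_lit 129) (@Lb.fp (nat_lit 3) t40)))))))))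
noncomputable def l17550 : Lb := (@Lb.d (nat_lit 320) (nat_lit 289) (nat_lit 330) (@Lb.r r24 (@Lb.r r2145 (@Lb.r r1690 (@Lb.r r1419 (@Lb.g g7 (@Lb.g g6 (@Lb.g g4 (@Lb.d (nat_lit 1) (nat_lit 0) (nat_lit 68) (@Lb.t (@Lb.fm (nat_lit 9) t1700)))))))))))
noncomputable def l17551 : Lb := (@Lb.d (nat_lit 650) (nat_lit 530) (nat_lit 640) (@Lb.r r24 (@Lb.r r2145 (@Lb.r r402 (@Lb.g g11 (@Lb.g g6 (@Lb.g g4 (@Lb.d (nat_lit 1) (nat_lit 0) (nat_lit 128) (@Lb.t (@Lb.fp (nat_lit 9) t1077))))))))))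
noncomputable def l17552 : Lb := (@Lb.d (nat_lit 4) (nat_lit 512) (nat_lit 2) (@Lb.g g8 (@Lb.g g9 (@Lb.g g10 (@Lb.g g7 (@Lb.r r386 (@Lb.r r97 (@Lb.r r2584 (@Lb.d (nat_lit 330) (nat_lit 9) (nat_lit 9) (@Lb.fp (nat_lit 9) t996))))))))))
noncomputable def l17553 : Lb := (@Lb.d (nat_lit 96) (nat_lit 100) (nat_lit 129) (@Lb.r r101 (@Lb.r r24 (@Lb.r r402 (@Lb.g g5 (@Lb.d (nat_lit 4) (nat_lit 1) (nat_lit 0) (@Lb.t (@Lb.fp (nat_lit 3) t2175))))))))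
noncomputable def l17554 : Lb := (@Lb.d (nat_lit 646) (nat_lit 150) (nat_lit 641) (@Lb.r r20 (@Lb.r r25 (@Lb.r r148 (@Lb.r r1366 (@Lb.g g7 (@Lb.g g6 (@Lb.g g5 (@Lb.g g4 (@Lb.d (nat_lit 0) (nat_lit 1) (nat_lit 134) (@Lb.fp (nat_lit 9) t221)))))))))))
noncomputable def l17555 : Lb := (@Lb.r r82 (@Lb.r r283 (@Lb.d (nat_lit 649) (nat_lit 2) (nat_lit 0) (@Lb.g g8 (@Lb.g g9 (@Lb.r r281 (@Lb.r r1315 (@Lb.r r98 (@Lb.d (nat_lit 641) (nat_lit 162) (nat_lit 576) (@Lb.fm (nat_lit 3) t1169))))))))))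
noncomputable def l17556 : Lb := (@Lb.r r1291 (@Lb.d (nat_lit 385) (nat_lit 256) (nat_lit 0) (@Lb.g g8 (@Lb.d (nat_lit 10) (nat_lit 2) (nat_lit 384) (@Lb.t (@Lb.fp (nat_lit 3) t828))))))
noncomputable def l17557 : Lb := (@Lb.r r1291 (@Lb.d (nat_lit 386) (nat_lit 0) (nat_lit 0) (@Lb.g g8 (@Lb.d (nat_lit 10) (nat_lit 2) (nat_lit 384) (@Lb.t (@Lb.fp (nat_lit 3) t828))))))
noncomputable def l17558 : Lb := (@Lb.r r323 (@Lb.d (nat_lit 1) (nat_lit 578) (nat_lit 0) (@Lb.g g4 (@Lb.g g9 (@Lb.g g10 (@Lb.r r419 (@Lb.r r98 (@Lb.d (nat_lit 1) (nat_lit 2) (nat_lit 0) (@Lb.t (@Lb.fp (nat_lit 9) t51))))))))))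
noncomputable def l17559 : Lb := (@Lb.d (nat_lit 0) (nat_lit 0) (nat_lit 130) (@Lb.g g10 (@Lb.g g11 (@Lb.r r586 (@Lb.r r584 (@Lb.r r299 (@Lb.r r289 (@Lb.d (nat_lit 9) (nat_lit 1) (nat_lit 64) (@Lb.fm (nat_lit 3) t369)))))))))
noncomputable def l17560 : Lb := (@Lb.d (nat_lit 8) (nat_lit 258) (nat_lit 0) (@Lb.g g9 (@Lb.r r1319 (@Lb.r r1126 (@Lb.d (nat_lit 522) (nat_lit 1) (nat_lit 0) (@Lb.t (@Lb.fp (nat_lit 3) t353)))))))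
noncomputable def l17561 : Lb := (@Lb.d (nat_lit 2) (nat_lit 2) (nat_lit 73) (@Lb.g g8 (@Lb.g g9 (@Lb.g g10 (@Lb.g g11 (@Lb.r r1706 (@Lb.r r676 (@Lb.r r551 (@Lb.r r1557 (@Lb.r r1060 (@Lb.d (nat_lit 649) (nat_lit 65) (nat_lit 330) (@Lb.fp (nat_lit 9) t284))))))))))))
noncomputable def l17562 : Lb := (@Lb.r r21 (@Lb.r r323 (@Lb.d (nat_lit 16) (nat_lit 0) (nat_lit 0) (@Lb.g g8 (@Lb.g g10 (@Lb.r r330 (@Lb.r r387 (@Lb.r r25 (@Lb.d (nat_lit 129) (nat_lit 0) (nat_lit 74) (@Lb.fm (nat_lit 3) t321))))))))))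
noncomputable def l17563 : Lb := (@Lb.d (nat_lit 130) (nat_lit 520) (nat_lit 0) (@Lb.g g8 (@Lb.g g9 (@Lb.r r1367 (@Lb.r r82 (@Lb.r r161 (@Lb.r r2664 (@Lb.d (nat_lit 358) (nat_lit 18) (nat_lit 297) (@Lb.fm (nat_lit 3) t591)))))))))
noncomputable def l17564 : Lb := (@Lb.d (nat_lit 149) (nat_lit 512) (nat_lit 42) (@Lb.g g8 (@Lb.g g9 (@Lb.g g6 (@Lb.r r361 (@Lb.r r663 (@Lb.r r360 (@Lb.d (nat_lit 165) (nat_lit 42) (nat_lit 148) (@Lb.t (@Lb.fm (nat_lit 9) t744))))))))))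
noncomputable def l17565 : Lb := (@Lb.r r70 (@Lb.d (nat_lit 4) (nat_lit 0) (nat_lit 0) (@Lb.g g8 (@Lb.g g9 (@Lb.r r2601 (@Lb.r r2475 (@Lb.r r1410 (@Lb.r r1124 (@Lb.d (nat_lit 585) (nat_lit 138) (nat_lit 609) (@Lb.fm (nat_lit 3) t3556))))))))))
noncomputable def l17566 : Lb := (@Lb.d (nat_lit 424) (nat_lit 38) (nat_lit 24) (@Lb.r r553 (@Lb.r r134 (@Lb.r r295 (@Lb.r r536 (@Lb.g g5 (@Lb.d (nat_lit 4) (nat_lit 17) (nat_lit 0) (@Lb.t (@Lb.fp (nat_lit 3) t3557)))))))))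
noncomputable def l17567 : Lb := (@Lb.r r82 (@Lb.d (nat_lit 2) (nat_lit 258) (nat_lit 136) (@Lb.g g8 (@Lb.g g9 (@Lb.g g11 (@Lb.r r2665 (@Lb.r r2198 (@Lb.r r1380 (@Lb.r r395 (@Lb.d (nat_lit 385) (nat_lit 162) (nat_lit 361) (@Lb.t (@Lb.fm (nat_lit 9) t2095))))))))))))
noncomputable def l17568 : Lb := (@Lb.d (nat_lit 2) (nat_lit 2) (nat_lit 130) (@Lb.g g8 (@Lb.g g9 (@Lb.g g10 (@Lb.g g11 (@Lb.r r610 (@Lb.r r612 (@Lb.r r359 (@Lb.r r277 (@Lb.r r548 (@Lb.d (nat_lit 9) (nat_lit 2) (nat_lit 128) (@Lb.fp (nat_lit 9) t145))))))))))))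
noncomputable def l17569 : Lb := (@Lb.r r323 (@Lb.d (nat_lit 40) (nat_lit 277) (nat_lit 10) (@Lb.g g5 (@Lb.g g10 (@Lb.r r2411 (@Lb.r r2388 (@Lb.r r1626 (@Lb.d (nat_lit 422) (nat_lit 22) (nat_lit 642) (@Lb.fp (nat_lit 3) t1830)))))))))
noncomputable def l17570 : Lb := (@Lb.r r82 (@Lb.d (nat_lit 2) (nat_lit 2) (nat_lit 136) (@Lb.g g8 (@Lb.g g9 (@Lb.g g11 (@Lb.r r2665 (@Lb.r r2198 (@Lb.r r1380 (@Lb.r r395 (@Lb.d (nat_lit 385) (nat_lit 162) (nat_lit 418) (@Lb.t (@Lb.fm (nat_lit 9) t1161))))))))))))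
noncomputable def l17571 : Lb := (@Lb.r r82 (@Lb.d (nat_lit 2) (nat_lit 514) (nat_lit 136) (@Lb.g g8 (@Lb.g g9 (@Lb.g g11 (@Lb.r r2665 (@Lb.r r2198 (@Lb.r r1380 (@Lb.r r395 (@Lb.d (nat_lit 386) (nat_lit 162) (nat_lit 418) (@Lb.t (@Lb.fm (nat_lit 9) t1161))))))))))))
noncomputable def l17572 : Lb := (@Lb.d (nat_lit 34) (nat_lit 1) (nat_lit 0) (@Lb.g g8 (@Lb.g g9 (@Lb.r r2723 (@Lb.r r582 (@Lb.r r2212 (@Lb.r r2581 (@Lb.d (nat_lit 138) (nat_lit 144) (nat_lit 329) (@Lb.fp (nat_lit 3) t3558)))))))))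
noncomputable def l17573 : Lb := (@Lb.d (nat_lit 130) (nat_lit 2) (nat_lit 9) (@Lb.g g8 (@Lb.g g9 (@Lb.g g10 (@Lb.r r2595 (@Lb.r r2705 (@Lb.r r598 (@Lb.r r392 (@Lb.d (nat_lit 80) (nat_lit 2) (nat_lit 330) (@Lb.t (@Lb.fm (nat_lit 9) t284)))))))))))
noncomputable def l17574 : Lb := (@Lb.d (nat_lit 2) (nat_lit 289) (nat_lit 64) (@Lb.g g8 (@Lb.g g9 (@Lb.g g11 (@Lb.r r2218 (@Lb.r r1700 (@Lb.r r1575 (@Lb.r r2577 (@Lb.d (nat_lit 521) (nat_lit 40) (nat_lit 329) (@Lb.t (@Lb.fm (nat_lit 9) t3154)))))))))))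
noncomputable def l17575 : Lb := (@Lb.d (nat_lit 4) (nat_lit 258) (nat_lit 73) (@Lb.g g9 (@Lb.g g10 (@Lb.g g11 (@Lb.r r423 (@Lb.r r596 (@Lb.r r666 (@Lb.r r337 (@Lb.d (nat_lit 6) (nat_lit 32) (nat_lit 128) (@Lb.t (@Lb.fp (nat_lit 9) t51)))))))))))
noncomputable def l17576 : Lb := (@Lb.r r323 (@Lb.d (nat_lit 2) (nat_lit 514) (nat_lit 2) (@Lb.g g8 (@Lb.g g9 (@Lb.g g10 (@Lb.r r401 (@Lb.r r299 (@Lb.r r392 (@Lb.r r74 (@Lb.d (nat_lit 33) (nat_lit 10) (nat_lit 0) (@Lb.t (@Lb.fp (nat_lit 9) t61))))))))))))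
noncomputable def l17577 : Lb := (@Lb.r r323 (@Lb.g g6 (@Lb.r r579 (@Lb.r r642 (@Lb.t (@Lb.p (nat_lit 1) (@Lb.fm (nat_lit 3) t2)))))))
noncomputable def l17578 : Lb := (@Lb.d (nat_lit 33) (nat_lit 0) (nat_lit 0) (@Lb.r r154 (@Lb.r r660 (@Lb.r r663 (@Lb.r r353 (@Lb.g g7 (@Lb.d (nat_lit 0) (nat_lit 0) (nat_lit 64) (@Lb.t (@Lb.fp (nat_lit 3) t51)))))))))
noncomputable def l17579 : Lb := (@Lb.d (nat_lit 0) (nat_lit 512) (nat_lit 132) (@Lb.g g10 (@Lb.g g11 (@Lb.r r2691 (@Lb.r r578 (@Lb.d (nat_lit 10) (nat_lit 2) (nat_lit 402) (@Lb.fp (nat_lit 3) t2)))))))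
noncomputable def l17580 : Lb := (@Lb.d (nat_lit 336) (nat_lit 0) (nat_lit 337) (@Lb.r r24 (@Lb.r r2709 (@Lb.r r418 (@Lb.r r1427 (@Lb.g g7 (@Lb.g g6 (@Lb.g g5 (@Lb.d (nat_lit 0) (nat_lit 9) (nat_lit 66) (@Lb.t (@Lb.fp (nat_lit 9) t50)))))))))))
noncomputable def l17581 : Lb := (@Lb.d (nat_lit 256) (nat_lit 0) (nat_lit 170) (@Lb.r r2663 (@Lb.r r1300 (@Lb.r r402 (@Lb.r r2665 (@Lb.g g4 (@Lb.d (nat_lit 1) (nat_lit 0) (nat_lit 0) (@Lb.t (@Lb.fp (nat_lit 3) t149)))))))))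
noncomputable def l17582 : Lb := (@Lb.r r20 (@Lb.d (nat_lit 64) (nat_lit 258) (nat_lit 644) (@Lb.g g9 (@Lb.g g10 (@Lb.g g7 (@Lb.r r386 (@Lb.r r1121 (@Lb.d (nat_lit 72) (nat_lit 138) (nat_lit 537) (@Lb.t (@Lb.fp (nat_lit 9) t3559))))))))))
noncomputable def l17583 : Lb := (@Lb.r r322 (@Lb.d (nat_lit 4) (nat_lit 298) (nat_lit 0) (@Lb.g g8 (@Lb.g g9 (@Lb.g g7 (@Lb.r r1618 (@Lb.r r145 (@Lb.r r1096 (@Lb.d (nat_lit 546) (nat_lit 0) (nat_lit 18) (@Lb.t (@Lb.fm (nat_lit 9) t3560)))))))))))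
noncomputable def l17584 : Lb := (@Lb.d (nat_lit 130) (nat_lit 265) (nat_lit 33) (@Lb.g g8 (@Lb.g g9 (@Lb.g g6 (@Lb.r r2455 (@Lb.r r617 (@Lb.r r1572 (@Lb.d (nat_lit 682) (nat_lit 146) (nat_lit 672) (@Lb.t (@Lb.fm (nat_lit 9) t2119))))))))))
noncomputable def l17585 : Lb := (@Lb.r r20 (@Lb.d (nat_lit 64) (nat_lit 514) (nat_lit 578) (@Lb.g g9 (@Lb.g g10 (@Lb.g g7 (@Lb.r r386 (@Lb.r r1121 (@Lb.d (nat_lit 72) (nat_lit 138) (nat_lit 537) (@Lb.t (@Lb.fp (nat_lit 9) t3559))))))))))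
noncomputable def l17586 : Lb := (@Lb.r r20 (@Lb.d (nat_lit 0) (nat_lit 258) (nat_lit 66) (@Lb.g g9 (@Lb.g g10 (@Lb.g g7 (@Lb.r r2438 (@Lb.r r1121 (@Lb.d (nat_lit 424) (nat_lit 138) (nat_lit 297) (@Lb.t (@Lb.fp (nat_lit 9) t3561))))))))))
noncomputable def l17587 : Lb := (@Lb.d (nat_lit 128) (nat_lit 258) (nat_lit 388) (@Lb.g g9 (@Lb.g g11 (@Lb.r r614 (@Lb.r r97 (@Lb.r r36 (@Lb.d (nat_lit 97) (nat_lit 74) (nat_lit 518) (@Lb.fp (nat_lit 3) t2934))))))))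
noncomputable def l17588 : Lb := (@Lb.r r82 (@Lb.d (nat_lit 0) (nat_lit 273) (nat_lit 132) (@Lb.g g9 (@Lb.g g7 (@Lb.r r2470 (@Lb.r r1620 (@Lb.r r2345 (@Lb.d (nat_lit 516) (nat_lit 32) (nat_lit 512) (@Lb.fp (nat_lit 3) t3562)))))))))
noncomputable def l17589 : Lb := (@Lb.d (nat_lit 544) (nat_lit 612) (nat_lit 362) (@Lb.r r81 (@Lb.r r2466 (@Lb.r r425 (@Lb.r r343 (@Lb.g g7 (@Lb.g g6 (@Lb.g g5 (@Lb.g g4 (@Lb.d (nat_lit 1) (nat_lit 1) (nat_lit 134) (@Lb.fp (nat_lit 9) t3563)))))))))))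
noncomputable def l17590 : Lb := (@Lb.r r273 (@Lb.d (nat_lit 16) (nat_lit 8) (nat_lit 522) (@Lb.g g8 (@Lb.g g10 (@Lb.g g7 (@Lb.r r593 (@Lb.r r2146 (@Lb.r r1048 (@Lb.d (nat_lit 522) (nat_lit 73) (nat_lit 354) (@Lb.t (@Lb.fm (nat_lit 9) t3563)))))))))))
noncomputable def l17591 : Lb := (@Lb.d (nat_lit 1) (nat_lit 2) (nat_lit 130) (@Lb.g g8 (@Lb.g g9 (@Lb.g g10 (@Lb.g g11 (@Lb.r r427 (@Lb.r r2726 (@Lb.r r2457 (@Lb.r r2436 (@Lb.d (nat_lit 576) (nat_lit 137) (nat_lit 680) (@Lb.fm (nat_lit 9) t3564)))))))))))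
noncomputable def l17592 : Lb := (@Lb.d (nat_lit 9) (nat_lit 260) (nat_lit 2) (@Lb.g g8 (@Lb.g g9 (@Lb.g g10 (@Lb.r r1707 (@Lb.r r1700 (@Lb.r r165 (@Lb.r r102 (@Lb.d (nat_lit 21) (nat_lit 168) (nat_lit 641) (@Lb.t (@Lb.fm (nat_lit 9) t3565)))))))))))
noncomputable def l17593 : Lb := (@Lb.r r82 (@Lb.d (nat_lit 137) (nat_lit 36) (nat_lit 0) (@Lb.g g8 (@Lb.g g5 (@Lb.r r2343 (@Lb.r r98 (@Lb.r r1560 (@Lb.d (nat_lit 593) (nat_lit 169) (nat_lit 642) (@Lb.fm (nat_lit 3) t2345)))))))))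
noncomputable def l17594 : Lb := (@Lb.d (nat_lit 544) (nat_lit 517) (nat_lit 320) (@Lb.r r24 (@Lb.r r402 (@Lb.r r101 (@Lb.g g7 (@Lb.d (nat_lit 0) (nat_lit 0) (nat_lit 68) (@Lb.t (@Lb.fp (nat_lit 3) t3566))))))))
noncomputable def l17595 : Lb := (@Lb.d (nat_lit 0) (nat_lit 0) (nat_lit 73) (@Lb.g g10 (@Lb.g g11 (@Lb.r r1691 (@Lb.r r578 (@Lb.r r24 (@Lb.d (nat_lit 546) (nat_lit 89) (nat_lit 168) (@Lb.fm (nat_lit 3) t3567))))))))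
noncomputable def l17596 : Lb := (@Lb.d (nat_lit 10) (nat_lit 0) (nat_lit 137) (@Lb.g g8 (@Lb.g g10 (@Lb.g g11 (@Lb.r r659 (@Lb.r r578 (@Lb.d (nat_lit 0) (nat_lit 24) (nat_lit 137) (@Lb.t (@Lb.fp (nat_lit 9) t119)))))))))
noncomputable def l17597 : Lb := (@Lb.d (nat_lit 2) (nat_lit 520) (nat_lit 74) (@Lb.g g8 (@Lb.g g10 (@Lb.g g11 (@Lb.r r357 (@Lb.r r407 (@Lb.r r326 (@Lb.d (nat_lit 81) (nat_lit 5) (nat_lit 132) (@Lb.t (@Lb.fp (nat_lit 9) t145))))))))))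
noncomputable def l17598 : Lb := (@Lb.d (nat_lit 290) (nat_lit 256) (nat_lit 162) (@Lb.r r24 (@Lb.r r1109 (@Lb.r r418 (@Lb.g g11 (@Lb.g g5 (@Lb.d (nat_lit 0) (nat_lit 18) (nat_lit 264) (@Lb.r r578 (@Lb.fp (nat_lit 3) t868)))))))))
noncomputable def l17599 : Lb := (@Lb.d (nat_lit 34) (nat_lit 258) (nat_lit 128) (@Lb.g g8 (@Lb.g g9 (@Lb.g g11 (@Lb.r r146 (@Lb.r r529 (@Lb.r r667 (@Lb.r r664 (@Lb.d (nat_lit 89) (nat_lit 34) (nat_lit 132) (@Lb.t (@Lb.fp (nat_lit 9) t983)))))))))))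
noncomputable def l17600 : Lb := (@Lb.d (nat_lit 2) (nat_lit 2) (nat_lit 130) (@Lb.g g8 (@Lb.g g9 (@Lb.g g10 (@Lb.g g11 (@Lb.r r2666 (@Lb.r r579 (@Lb.r r97 (@Lb.r r24 (@Lb.d (nat_lit 586) (nat_lit 4) (nat_lit 664) (@Lb.fm (nat_lit 9) t61)))))))))))
noncomputable def l17601 : Lb := (@Lb.r r323 (@Lb.d (nat_lit 2) (nat_lit 514) (nat_lit 2) (@Lb.g g8 (@Lb.g g9 (@Lb.g g10 (@Lb.r r1623 (@Lb.r r2154 (@Lb.r r97 (@Lb.r r24 (@Lb.d (nat_lit 538) (nat_lit 4) (nat_lit 1) (@Lb.t (@Lb.fp (nat_lit 9) t61))))))))))))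
noncomputable def l17602 : Lb := (@Lb.g g7 (@Lb.r r402 (@Lb.r r20 (@Lb.r r105 (@Lb.r r36 (@Lb.d (nat_lit 517) (nat_lit 8) (nat_lit 546) (@Lb.t (@Lb.fm (nat_lit 3) t145))))))))
noncomputable def l17603 : Lb := (@Lb.d (nat_lit 10) (nat_lit 0) (nat_lit 0) (@Lb.g g8 (@Lb.g g7 (@Lb.r r402 (@Lb.r r149 (@Lb.r r168 (@Lb.d (nat_lit 290) (nat_lit 5) (nat_lit 512) (@Lb.fp (nat_lit 3) t145))))))))
noncomputable def l17604 : Lb := (@Lb.d (nat_lit 5) (nat_lit 10) (nat_lit 129) (@Lb.g g4 (@Lb.g g9 (@Lb.g g10 (@Lb.g g11 (@Lb.r r679 (@Lb.r r677 (@Lb.r r166 (@Lb.r r145 (@Lb.d (nat_lit 104) (nat_lit 2) (nat_lit 137) (@Lb.fp (nat_lit 9) t50)))))))))))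
noncomputable def l17605 : Lb := (@Lb.d (nat_lit 9) (nat_lit 257) (nat_lit 9) (@Lb.g g8 (@Lb.g g9 (@Lb.g g10 (@Lb.g g7 (@Lb.r r386 (@Lb.r r1377 (@Lb.r r2584 (@Lb.d (nat_lit 330) (nat_lit 89) (nat_lit 17) (@Lb.fp (nat_lit 9) t2200))))))))))
noncomputable def l17606 : Lb := (@Lb.g g7 (@Lb.r r402 (@Lb.r r101 (@Lb.r r24 (@Lb.d (nat_lit 530) (nat_lit 10) (nat_lit 530) (@Lb.t (@Lb.fp (nat_lit 3) t505)))))))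
noncomputable def l17607 : Lb := (@Lb.d (nat_lit 164) (nat_lit 356) (nat_lit 520) (@Lb.r r676 (@Lb.r r289 (@Lb.r r422 (@Lb.g g11 (@Lb.g g4 (@Lb.d (nat_lit 17) (nat_lit 0) (nat_lit 0) (@Lb.fp (nat_lit 3) t3568))))))))
noncomputable def l17608 : Lb := (@Lb.r r532 (@Lb.r r82 (@Lb.d (nat_lit 4) (nat_lit 613) (nat_lit 0) (@Lb.g g5 (@Lb.g g11 (@Lb.r r2726 (@Lb.r r1364 (@Lb.r r2699 (@Lb.d (nat_lit 337) (nat_lit 165) (nat_lit 596) (@Lb.fp (nat_lit 3) t3569))))))))))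
noncomputable def l17609 : Lb := (@Lb.d (nat_lit 0) (nat_lit 516) (nat_lit 0) (@Lb.g g9 (@Lb.g g10 (@Lb.r r161 (@Lb.r r418 (@Lb.r r1169 (@Lb.d (nat_lit 0) (nat_lit 66) (nat_lit 424) (@Lb.fm (nat_lit 3) t917))))))))
noncomputable def l17610 : Lb := (@Lb.d (nat_lit 128) (nat_lit 256) (nat_lit 644) (@Lb.g g9 (@Lb.g g11 (@Lb.r r1304 (@Lb.r r101 (@Lb.r r2194 (@Lb.d (nat_lit 0) (nat_lit 6) (nat_lit 144) (@Lb.fp (nat_lit 3) t307))))))))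
noncomputable def l17611 : Lb := (@Lb.d (nat_lit 530) (nat_lit 5) (nat_lit 324) (@Lb.r r386 (@Lb.r r595 (@Lb.r r1301 (@Lb.g g6 (@Lb.g g5 (@Lb.g g4 (@Lb.d (nat_lit 1) (nat_lit 1) (nat_lit 1) (@Lb.t (@Lb.fp (nat_lit 9) t3570))))))))))
noncomputable def l17612 : Lb := (@Lb.g g9 (@Lb.r r2641 (@Lb.d (nat_lit 0) (nat_lit 512) (nat_lit 288) (@Lb.t (@Lb.fp (nat_lit 3) t3571)))))
noncomputable def l17613 : Lb := (@Lb.d (nat_lit 0) (nat_lit 518) (nat_lit 0) (@Lb.g g9 (@Lb.g g10 (@Lb.g g7 (@Lb.r r593 (@Lb.r r2466 (@Lb.r r145 (@Lb.d (nat_lit 0) (nat_lit 166) (nat_lit 546) (@Lb.t (@Lb.fm (nat_lit 9) t99))))))))))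
noncomputable def l17614 : Lb := (@Lb.d (nat_lit 0) (nat_lit 0) (nat_lit 132) (@Lb.g g10 (@Lb.g g11 (@Lb.r r1363 (@Lb.r r1362 (@Lb.r r101 (@Lb.r r24 (@Lb.d (nat_lit 130) (nat_lit 0) (nat_lit 418) (@Lb.fm (nat_lit 3) t277)))))))))
noncomputable def l17615 : Lb := (@Lb.d (nat_lit 128) (nat_lit 272) (nat_lit 384) (@Lb.g g11 (@Lb.r r1304 (@Lb.r r101 (@Lb.r r2194 (@Lb.d (nat_lit 529) (nat_lit 0) (nat_lit 128) (@Lb.t (@Lb.fm (nat_lit 3) t2199))))))))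
noncomputable def l17616 : Lb := (@Lb.r r82 (@Lb.d (nat_lit 2) (nat_lit 0) (nat_lit 64) (@Lb.g g8 (@Lb.g g9 (@Lb.g g11 (@Lb.r r2475 (@Lb.r r2154 (@Lb.r r2073 (@Lb.d (nat_lit 265) (nat_lit 2) (nat_lit 170) (@Lb.t (@Lb.fm (nat_lit 9) t5)))))))))))
noncomputable def l17617 : Lb := (@Lb.d (nat_lit 10) (nat_lit 512) (nat_lit 0) (@Lb.g g8 (@Lb.r r609 (@Lb.r r619 (@Lb.r r584 (@Lb.r r134 (@Lb.d (nat_lit 512) (nat_lit 0) (nat_lit 38) (@Lb.t (@Lb.fp (nat_lit 3) t40)))))))))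
noncomputable def l17618 : Lb := (@Lb.d (nat_lit 130) (nat_lit 520) (nat_lit 2) (@Lb.g g8 (@Lb.g g10 (@Lb.r r263 (@Lb.r r2712 (@Lb.r r101 (@Lb.r r154 (@Lb.d (nat_lit 10) (nat_lit 152) (nat_lit 289) (@Lb.fp (nat_lit 3) t127)))))))))
noncomputable def l17619 : Lb := (@Lb.d (nat_lit 422) (nat_lit 16) (nat_lit 354) (@Lb.r r1307 (@Lb.r r1432 (@Lb.r r1621 (@Lb.g g7 (@Lb.g g10 (@Lb.g g5 (@Lb.d (nat_lit 64) (nat_lit 38) (nat_lit 166) (@Lb.t (@Lb.fp (nat_lit 9) t1356))))))))))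
noncomputable def l17620 : Lb := (@Lb.d (nat_lit 673) (nat_lit 682) (nat_lit 345) (@Lb.r r1689 (@Lb.r r1431 (@Lb.r r2724 (@Lb.r r614 (@Lb.g g7 (@Lb.g g6 (@Lb.g g5 (@Lb.d (nat_lit 4) (nat_lit 6) (nat_lit 134) (@Lb.t (@Lb.fp (nat_lit 9) t2166)))))))))))
noncomputable def l17621 : Lb := (@Lb.d (nat_lit 0) (nat_lit 537) (nat_lit 64) (@Lb.g g9 (@Lb.g g11 (@Lb.r r402 (@Lb.r r1379 (@Lb.r r2385 (@Lb.d (nat_lit 0) (nat_lit 150) (nat_lit 660) (@Lb.fp (nat_lit 3) t917))))))))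
noncomputable def l17622 : Lb := (@Lb.d (nat_lit 128) (nat_lit 4) (nat_lit 146) (@Lb.g g10 (@Lb.g g11 (@Lb.r r2709 (@Lb.r r292 (@Lb.r r411 (@Lb.d (nat_lit 164) (nat_lit 25) (nat_lit 153) (@Lb.fm (nat_lit 3) t396))))))))
noncomputable def l17623 : Lb := (@Lb.d (nat_lit 0) (nat_lit 512) (nat_lit 136) (@Lb.g g7 (@Lb.r r658 (@Lb.r r2707 (@Lb.d (nat_lit 0) (nat_lit 26) (nat_lit 618) (@Lb.t (@Lb.fm (nat_lit 3) t334)))))))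
noncomputable def l17624 : Lb := (@Lb.d (nat_lit 0) (nat_lit 256) (nat_lit 136) (@Lb.g g7 (@Lb.r r1361 (@Lb.r r610 (@Lb.r r2659 (@Lb.d (nat_lit 0) (nat_lit 170) (nat_lit 582) (@Lb.t (@Lb.fp (nat_lit 3) t124))))))))
noncomputable def l17625 : Lb := (@Lb.d (nat_lit 0) (nat_lit 0) (nat_lit 136) (@Lb.g g11 (@Lb.r r402 (@Lb.d (nat_lit 0) (nat_lit 150) (nat_lit 664) (@Lb.t (@Lb.fm (nat_lit 3) t44))))))
noncomputable def l17626 : Lb := (@Lb.r r21 (@Lb.r r323 (@Lb.d (nat_lit 2) (nat_lit 256) (nat_lit 1) (@Lb.g g8 (@Lb.g g6 (@Lb.r r387 (@Lb.r r97 (@Lb.r r72 (@Lb.d (nat_lit 34) (nat_lit 10) (nat_lit 1) (@Lb.fp (nat_lit 3) t40))))))))))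
noncomputable def l17627 : Lb := (@Lb.r r82 (@Lb.d (nat_lit 2) (nat_lit 74) (nat_lit 128) (@Lb.g g8 (@Lb.g g9 (@Lb.g g11 (@Lb.r r2411 (@Lb.r r1606 (@Lb.r r2436 (@Lb.d (nat_lit 660) (nat_lit 9) (nat_lit 393) (@Lb.t (@Lb.fm (nat_lit 9) t981)))))))))))
noncomputable def l17628 : Lb := (@Lb.d (nat_lit 17) (nat_lit 392) (nat_lit 97) (@Lb.r r21 (@Lb.r r100 (@Lb.r r515 (@Lb.g g10 (@Lb.g g5 (@Lb.d (nat_lit 0) (nat_lit 1) (nat_lit 6) (@Lb.fm (nat_lit 3) t329))))))))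
noncomputable def l17629 : Lb := (@Lb.r r21 (@Lb.r r323 (@Lb.d (nat_lit 2) (nat_lit 512) (nat_lit 1) (@Lb.g g8 (@Lb.g g6 (@Lb.r r387 (@Lb.r r97 (@Lb.r r72 (@Lb.d (nat_lit 534) (nat_lit 1) (nat_lit 17) (@Lb.fp (nat_lit 3) t40))))))))))
noncomputable def l17630 : Lb := (@Lb.r r82 (@Lb.d (nat_lit 34) (nat_lit 10) (nat_lit 128) (@Lb.g g8 (@Lb.g g9 (@Lb.g g11 (@Lb.r r427 (@Lb.r r582 (@Lb.r r2456 (@Lb.r r1173 (@Lb.d (nat_lit 277) (nat_lit 81) (nat_lit 132) (@Lb.t (@Lb.fp (nat_lit 9) t2411))))))))))))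
noncomputable def l17631 : Lb := (@Lb.r r327 (@Lb.d (nat_lit 2) (nat_lit 265) (nat_lit 2) (@Lb.g g8 (@Lb.g g9 (@Lb.g g10 (@Lb.r r683 (@Lb.r r1194 (@Lb.r r2201 (@Lb.r r2180 (@Lb.d (nat_lit 548) (nat_lit 64) (nat_lit 34) (@Lb.t (@Lb.fm (nat_lit 9) t3545))))))))))))
noncomputable def l17632 : Lb := (@Lb.d (nat_lit 2) (nat_lit 552) (nat_lit 65) (@Lb.g g8 (@Lb.g g9 (@Lb.g g10 (@Lb.g g11 (@Lb.r r1699 (@Lb.r r610 (@Lb.r r100 (@Lb.r r2645 (@Lb.r r1060 (@Lb.d (nat_lit 145) (nat_lit 162) (nat_lit 344) (@Lb.fm (nat_lit 9) t3572))))))))))))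
noncomputable def l17633 : Lb := (@Lb.d (nat_lit 2) (nat_lit 552) (nat_lit 65) (@Lb.g g8 (@Lb.g g9 (@Lb.g g10 (@Lb.g g11 (@Lb.r r1699 (@Lb.r r610 (@Lb.r r100 (@Lb.r r2645 (@Lb.r r1060 (@Lb.d (nat_lit 144) (nat_lit 164) (nat_lit 345) (@Lb.fm (nat_lit 9) t3573))))))))))))
noncomputable def l17634 : Lb := (@Lb.d (nat_lit 0) (nat_lit 545) (nat_lit 66) (@Lb.g g8 (@Lb.g g9 (@Lb.g g10 (@Lb.g g11 (@Lb.r r595 (@Lb.r r1702 (@Lb.r r1636 (@Lb.r r1557 (@Lb.d (nat_lit 385) (nat_lit 2) (nat_lit 256) (@Lb.fp (nat_lit 9) t827)))))))))))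
noncomputable def l17635 : Lb := (@Lb.d (nat_lit 1) (nat_lit 512) (nat_lit 384) (@Lb.r r2132 (@Lb.r r1642 (@Lb.r r2665 (@Lb.r r616 (@Lb.g g11 (@Lb.t (@Lb.fp (nat_lit 3) t3574))))))))
noncomputable def l17636 : Lb := (@Lb.d (nat_lit 2) (nat_lit 130) (nat_lit 130) (@Lb.g g8 (@Lb.g g9 (@Lb.g g10 (@Lb.g g11 (@Lb.r r264 (@Lb.r r423 (@Lb.r r98 (@Lb.r r2564 (@Lb.d (nat_lit 0) (nat_lit 9) (nat_lit 153) (@Lb.fm (nat_lit 9) t1194)))))))))))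
noncomputable def l17637 : Lb := (@Lb.d (nat_lit 105) (nat_lit 256) (nat_lit 64) (@Lb.g g8 (@Lb.g g11 (@Lb.r r2651 (@Lb.r r2726 (@Lb.r r677 (@Lb.r r2388 (@Lb.d (nat_lit 598) (nat_lit 150) (nat_lit 330) (@Lb.fp (nat_lit 3) t3574)))))))))
noncomputable def l17638 : Lb := (@Lb.d (nat_lit 2) (nat_lit 2) (nat_lit 2) (@Lb.g g8 (@Lb.g g9 (@Lb.g g10 (@Lb.g g7 (@Lb.r r386 (@Lb.r r2657 (@Lb.r r24 (@Lb.d (nat_lit 10) (nat_lit 169) (nat_lit 357) (@Lb.fp (nat_lit 9) t1403))))))))))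
noncomputable def l17639 : Lb := (@Lb.r r82 (@Lb.d (nat_lit 0) (nat_lit 2) (nat_lit 136) (@Lb.g g8 (@Lb.g g9 (@Lb.g g11 (@Lb.r r138 (@Lb.r r2713 (@Lb.r r664 (@Lb.r r411 (@Lb.d (nat_lit 514) (nat_lit 90) (nat_lit 425) (@Lb.t (@Lb.fm (nat_lit 9) t155))))))))))))
noncomputable def l17640 : Lb := (@Lb.d (nat_lit 5) (nat_lit 328) (nat_lit 2) (@Lb.r r101 (@Lb.r r402 (@Lb.r r323 (@Lb.g g7 (@Lb.g g6 (@Lb.d (nat_lit 0) (nat_lit 0) (nat_lit 64) (@Lb.fm (nat_lit 3) t1531))))))))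
noncomputable def l17641 : Lb := (@Lb.d (nat_lit 0) (nat_lit 34) (nat_lit 66) (@Lb.g g9 (@Lb.g g10 (@Lb.g g11 (@Lb.r r1703 (@Lb.r r386 (@Lb.r r2328 (@Lb.r r1637 (@Lb.d (nat_lit 360) (nat_lit 66) (nat_lit 85) (@Lb.t (@Lb.fm (nat_lit 9) t3575)))))))))))
noncomputable def l17642 : Lb := (@Lb.d (nat_lit 4) (nat_lit 522) (nat_lit 129) (@Lb.g g8 (@Lb.g g9 (@Lb.g g10 (@Lb.g g11 (@Lb.r r427 (@Lb.r r388 (@Lb.r r70 (@Lb.r r153 (@Lb.r r132 (@Lb.d (nat_lit 6) (nat_lit 72) (nat_lit 18) (@Lb.fp (nat_lit 9) t408))))))))))))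
noncomputable def l17643 : Lb := (@Lb.g g9 (@Lb.g g6 (@Lb.r r97 (@Lb.r r2130 (@Lb.r r145 (@Lb.d (nat_lit 5) (nat_lit 513) (nat_lit 0) (@Lb.fm (nat_lit 3) t1899)))))))
noncomputable def l17644 : Lb := (@Lb.r r82 (@Lb.d (nat_lit 130) (nat_lit 514) (nat_lit 128) (@Lb.g g8 (@Lb.g g9 (@Lb.g g11 (@Lb.r r2593 (@Lb.r r2343 (@Lb.r r146 (@Lb.r r2584 (@Lb.d (nat_lit 616) (nat_lit 164) (nat_lit 416) (@Lb.t (@Lb.fp (nat_lit 9) t3576))))))))))))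
noncomputable def l17645 : Lb := (@Lb.r r277 (@Lb.r r326 (@Lb.d (nat_lit 392) (nat_lit 0) (nat_lit 128) (@Lb.g g8 (@Lb.g g11 (@Lb.r r101 (@Lb.r r2194 (@Lb.d (nat_lit 609) (nat_lit 0) (nat_lit 544) (@Lb.fm (nat_lit 3) t1846)))))))))
noncomputable def l17646 : Lb := (@Lb.d (nat_lit 33) (nat_lit 512) (nat_lit 64) (@Lb.g g8 (@Lb.g g11 (@Lb.r r1687 (@Lb.r r598 (@Lb.r r2457 (@Lb.r r408 (@Lb.d (nat_lit 665) (nat_lit 26) (nat_lit 168) (@Lb.fm (nat_lit 3) t386)))))))))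
noncomputable def l17647 : Lb := (@Lb.d (nat_lit 32) (nat_lit 258) (nat_lit 73) (@Lb.g g9 (@Lb.g g10 (@Lb.g g11 (@Lb.r r2695 (@Lb.r r297 (@Lb.r r1352 (@Lb.r r2662 (@Lb.d (nat_lit 129) (nat_lit 88) (nat_lit 340) (@Lb.t (@Lb.fp (nat_lit 9) t2154)))))))))))
noncomputable def l17648 : Lb := (@Lb.d (nat_lit 33) (nat_lit 256) (nat_lit 64) (@Lb.g g8 (@Lb.g g11 (@Lb.r r1687 (@Lb.r r598 (@Lb.r r2457 (@Lb.r r408 (@Lb.d (nat_lit 665) (nat_lit 16) (nat_lit 169) (@Lb.fm (nat_lit 3) t386)))))))))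
noncomputable def l17649 : Lb := (@Lb.d (nat_lit 2) (nat_lit 34) (nat_lit 2) (@Lb.g g8 (@Lb.g g9 (@Lb.g g10 (@Lb.r r1675 (@Lb.r r1194 (@Lb.r r425 (@Lb.r r36 (@Lb.d (nat_lit 385) (nat_lit 166) (nat_lit 586) (@Lb.t (@Lb.fp (nat_lit 9) t445)))))))))))
noncomputable def l17650 : Lb := (@Lb.d (nat_lit 9) (nat_lit 514) (nat_lit 66) (@Lb.g g8 (@Lb.g g9 (@Lb.g g10 (@Lb.g g7 (@Lb.r r386 (@Lb.r r2145 (@Lb.r r24 (@Lb.d (nat_lit 328) (nat_lit 73) (nat_lit 617) (@Lb.fp (nat_lit 9) t1150))))))))))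
noncomputable def l17651 : Lb := (@Lb.d (nat_lit 169) (nat_lit 257) (nat_lit 0) (@Lb.g g8 (@Lb.g g9 (@Lb.r r279 (@Lb.r r162 (@Lb.r r2601 (@Lb.r r1640 (@Lb.d (nat_lit 341) (nat_lit 154) (nat_lit 649) (@Lb.fp (nat_lit 3) t284)))))))))
noncomputable def l17652 : Lb := (@Lb.d (nat_lit 9) (nat_lit 72) (nat_lit 129) (@Lb.g g8 (@Lb.g g9 (@Lb.g g10 (@Lb.g g11 (@Lb.r r2475 (@Lb.r r2442 (@Lb.r r2436 (@Lb.d (nat_lit 656) (nat_lit 8) (nat_lit 393) (@Lb.fm (nat_lit 9) t3577))))))))))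
noncomputable def l17653 : Lb := (@Lb.d (nat_lit 0) (nat_lit 512) (nat_lit 128) (@Lb.g g9 (@Lb.g g11 (@Lb.r r1387 (@Lb.r r1414 (@Lb.r r1432 (@Lb.r r2725 (@Lb.d (nat_lit 420) (nat_lit 130) (nat_lit 597) (@Lb.fp (nat_lit 3) t3578)))))))))
noncomputable def l17654 : Lb := (@Lb.d (nat_lit 26) (nat_lit 18) (nat_lit 586) (@Lb.g g8 (@Lb.g g9 (@Lb.g g10 (@Lb.g g7 (@Lb.r r425 (@Lb.r r1188 (@Lb.r r2182 (@Lb.d (nat_lit 289) (nat_lit 74) (nat_lit 81) (@Lb.fm (nat_lit 9) t1077))))))))))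
noncomputable def l17655 : Lb := (@Lb.d (nat_lit 74) (nat_lit 98) (nat_lit 0) (@Lb.r r101 (@Lb.r r2403 (@Lb.r r594 (@Lb.g g11 (@Lb.t (@Lb.fm (nat_lit 3) t3579)))))))
noncomputable def l17656 : Lb := (@Lb.r r1114 (@Lb.r r149 (@Lb.d (nat_lit 34) (nat_lit 640) (nat_lit 18) (@Lb.fp (nat_lit 1) t3580))))
noncomputable def l17657 : Lb := (@Lb.d (nat_lit 584) (nat_lit 33) (nat_lit 64) (@Lb.r r280 (@Lb.r r2343 (@Lb.r r2401 (@Lb.r r1174 (@Lb.g g7 (@Lb.g g4 (@Lb.d (nat_lit 82) (nat_lit 0) (nat_lit 64) (@Lb.fp (nat_lit 3) t3581)))))))))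
noncomputable def l17658 : Lb := (@Lb.r r613 (@Lb.r r611 (@Lb.r r2386 (@Lb.r r1169 (@Lb.d (nat_lit 256) (nat_lit 0) (nat_lit 576) (@Lb.fp (nat_lit 1) t1807))))))
noncomputable def l17659 : Lb := (@Lb.d (nat_lit 1) (nat_lit 514) (nat_lit 130) (@Lb.g g8 (@Lb.g g9 (@Lb.g g10 (@Lb.g g11 (@Lb.r r427 (@Lb.r r145 (@Lb.r r356 (@Lb.r r154 (@Lb.r r132 (@Lb.d (nat_lit 9) (nat_lit 9) (nat_lit 136) (@Lb.fm (nat_lit 9) t61))))))))))))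
noncomputable def l17660 : Lb := (@Lb.d (nat_lit 261) (nat_lit 385) (nat_lit 0) (@Lb.r r1114 (@Lb.g g5 (@Lb.t (@Lb.fm (nat_lit 3) t3582)))))
noncomputable def l17661 : Lb := (@Lb.d (nat_lit 74) (nat_lit 610) (nat_lit 0) (@Lb.r r101 (@Lb.r r2403 (@Lb.r r594 (@Lb.g g11 (@Lb.g g6 (@Lb.fm (nat_lit 3) t3583)))))))
noncomputable def l17662 : Lb := (@Lb.r r82 (@Lb.r r275 (@Lb.d (nat_lit 2) (nat_lit 137) (nat_lit 0) (@Lb.g g8 (@Lb.g g5 (@Lb.r r291 (@Lb.r r98 (@Lb.r r1096 (@Lb.d (nat_lit 546) (nat_lit 64) (nat_lit 2) (@Lb.fm (nat_lit 3) t2056))))))))))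
noncomputable def l17663 : Lb := (@Lb.d (nat_lit 10) (nat_lit 512) (nat_lit 66) (@Lb.g g8 (@Lb.g g10 (@Lb.g g11 (@Lb.r r1602 (@Lb.r r1637 (@Lb.r r2407 (@Lb.r r2584 (@Lb.d (nat_lit 90) (nat_lit 2) (nat_lit 545) (@Lb.t (@Lb.fm (nat_lit 9) t2238)))))))))))
noncomputable def l17664 : Lb := (@Lb.r r1291 (@Lb.r r24 (@Lb.d (nat_lit 581) (nat_lit 545) (nat_lit 384) (@Lb.fm (nat_lit 1) t1855))))
noncomputable def l17665 : Lb := (@Lb.d (nat_lit 1) (nat_lit 2) (nat_lit 66) (@Lb.g g8 (@Lb.g g9 (@Lb.g g10 (@Lb.g g11 (@Lb.r r1130 (@Lb.r r1385 (@Lb.r r2583 (@Lb.r r1288 (@Lb.d (nat_lit 134) (nat_lit 1) (nat_lit 329) (@Lb.fm (nat_lit 9) t396)))))))))))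
noncomputable def l17666 : Lb := (@Lb.d (nat_lit 2) (nat_lit 258) (nat_lit 130) (@Lb.g g8 (@Lb.g g9 (@Lb.g g10 (@Lb.g g11 (@Lb.r r2666 (@Lb.r r579 (@Lb.r r292 (@Lb.r r405 (@Lb.r r2084 (@Lb.d (nat_lit 617) (nat_lit 90) (nat_lit 297) (@Lb.fm (nat_lit 9) t2387))))))))))))
noncomputable def l17667 : Lb := (@Lb.d (nat_lit 2) (nat_lit 258) (nat_lit 130) (@Lb.g g8 (@Lb.g g9 (@Lb.g g10 (@Lb.g g11 (@Lb.r r2585 (@Lb.r r595 (@Lb.r r386 (@Lb.d (nat_lit 289) (nat_lit 0) (nat_lit 649) (@Lb.fp (nat_lit 9) t791))))))))))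
noncomputable def l17668 : Lb := (@Lb.d (nat_lit 2) (nat_lit 514) (nat_lit 130) (@Lb.g g8 (@Lb.g g9 (@Lb.g g10 (@Lb.g g11 (@Lb.r r2666 (@Lb.r r579 (@Lb.r r292 (@Lb.r r405 (@Lb.r r2084 (@Lb.d (nat_lit 617) (nat_lit 85) (nat_lit 296) (@Lb.fm (nat_lit 9) t2387))))))))))))
noncomputable def l17669 : Lb := (@Lb.d (nat_lit 0) (nat_lit 33) (nat_lit 66) (@Lb.g g8 (@Lb.g g9 (@Lb.g g10 (@Lb.g g11 (@Lb.r r595 (@Lb.r r1702 (@Lb.r r1636 (@Lb.r r1557 (@Lb.d (nat_lit 385) (nat_lit 9) (nat_lit 258) (@Lb.fp (nat_lit 9) t827)))))))))))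
noncomputable def l17670 : Lb := (@Lb.r r21 (@Lb.d (nat_lit 2) (nat_lit 264) (nat_lit 130) (@Lb.g g8 (@Lb.g g10 (@Lb.g g11 (@Lb.r r1707 (@Lb.r r2341 (@Lb.r r1620 (@Lb.r r394 (@Lb.d (nat_lit 152) (nat_lit 86) (nat_lit 280) (@Lb.t (@Lb.fp (nat_lit 9) t51))))))))))))
noncomputable def l17671 : Lb := (@Lb.d (nat_lit 9) (nat_lit 2) (nat_lit 130) (@Lb.g g8 (@Lb.g g9 (@Lb.g g10 (@Lb.g g11 (@Lb.r r1571 (@Lb.r r1681 (@Lb.r r356 (@Lb.r r154 (@Lb.r r132 (@Lb.d (nat_lit 640) (nat_lit 2) (nat_lit 586) (@Lb.fp (nat_lit 9) t284))))))))))))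
noncomputable def l17672 : Lb := (@Lb.d (nat_lit 0) (nat_lit 289) (nat_lit 66) (@Lb.g g9 (@Lb.g g10 (@Lb.g g11 (@Lb.r r427 (@Lb.r r386 (@Lb.r r361 (@Lb.d (nat_lit 165) (nat_lit 8) (nat_lit 129) (@Lb.t (@Lb.fm (nat_lit 9) t892))))))))))
noncomputable def l17673 : Lb := (@Lb.d (nat_lit 9) (nat_lit 514) (nat_lit 162) (@Lb.g g8 (@Lb.g g9 (@Lb.g g6 (@Lb.g g11 (@Lb.r r1571 (@Lb.r r36 (@Lb.r r1557 (@Lb.r r36 (@Lb.d (nat_lit 642) (nat_lit 98) (nat_lit 354) (@Lb.fp (nat_lit 9) t468)))))))))))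
noncomputable def l17674 : Lb := (@Lb.r r82 (@Lb.d (nat_lit 41) (nat_lit 513) (nat_lit 128) (@Lb.g g8 (@Lb.g g9 (@Lb.g g11 (@Lb.r r1571 (@Lb.r r582 (@Lb.r r665 (@Lb.r r2200 (@Lb.d (nat_lit 665) (nat_lit 138) (nat_lit 82) (@Lb.t (@Lb.fm (nat_lit 9) t278))))))))))))
noncomputable def l17675 : Lb := (@Lb.d (nat_lit 0) (nat_lit 512) (nat_lit 136) (@Lb.g g7 (@Lb.r r610 (@Lb.r r2659 (@Lb.d (nat_lit 0) (nat_lit 106) (nat_lit 598) (@Lb.t (@Lb.fp (nat_lit 3) t334)))))))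
noncomputable def l17676 : Lb := (@Lb.d (nat_lit 0) (nat_lit 597) (nat_lit 345) (@Lb.r r134 (@Lb.r r1620 (@Lb.r r2345 (@Lb.r r1287 (@Lb.g g4 (@Lb.t (@Lb.fm (nat_lit 3) t1449))))))))
noncomputable def l17677 : Lb := (@Lb.d (nat_lit 9) (nat_lit 2) (nat_lit 145) (@Lb.g g8 (@Lb.g g9 (@Lb.g g10 (@Lb.g g11 (@Lb.r r1571 (@Lb.r r36 (@Lb.r r1557 (@Lb.r r36 (@Lb.d (nat_lit 642) (nat_lit 98) (nat_lit 337) (@Lb.fm (nat_lit 9) t468)))))))))))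
noncomputable def l17678 : Lb := (@Lb.d (nat_lit 2) (nat_lit 33) (nat_lit 9) (@Lb.g g8 (@Lb.g g9 (@Lb.g g10 (@Lb.g g11 (@Lb.r r2722 (@Lb.r r1415 (@Lb.r r36 (@Lb.r r149 (@Lb.r r2084 (@Lb.d (nat_lit 105) (nat_lit 152) (nat_lit 593) (@Lb.fm (nat_lit 9) t1879))))))))))))
noncomputable def l17679 : Lb := (@Lb.d (nat_lit 146) (nat_lit 9) (nat_lit 73) (@Lb.g g8 (@Lb.g g9 (@Lb.g g10 (@Lb.g g11 (@Lb.r r683 (@Lb.r r2724 (@Lb.r r134 (@Lb.r r97 (@Lb.d (nat_lit 545) (nat_lit 169) (nat_lit 385) (@Lb.fm (nat_lit 9) t1167)))))))))))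
noncomputable def l17680 : Lb := (@Lb.d (nat_lit 328) (nat_lit 344) (nat_lit 522) (@Lb.r r2583 (@Lb.r r1384 (@Lb.r r361 (@Lb.r r1622 (@Lb.g g7 (@Lb.d (nat_lit 64) (nat_lit 16) (nat_lit 132) (@Lb.t (@Lb.fp (nat_lit 3) t188)))))))))
noncomputable def l17681 : Lb := (@Lb.d (nat_lit 273) (nat_lit 657) (nat_lit 40) (@Lb.r r594 (@Lb.r r2449 (@Lb.g g11 (@Lb.g g6 (@Lb.d (nat_lit 0) (nat_lit 36) (nat_lit 262) (@Lb.fp (nat_lit 3) t1917)))))))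
noncomputable def l17682 : Lb := (@Lb.d (nat_lit 273) (nat_lit 401) (nat_lit 97) (@Lb.r r594 (@Lb.r r2449 (@Lb.g g11 (@Lb.g g6 (@Lb.d (nat_lit 0) (nat_lit 36) (nat_lit 262) (@Lb.fp (nat_lit 3) t1917)))))))
noncomputable def l17683 : Lb := (@Lb.r r81 (@Lb.d (nat_lit 0) (nat_lit 256) (nat_lit 160) (@Lb.g g10 (@Lb.g g11 (@Lb.r r387 (@Lb.r r2577 (@Lb.d (nat_lit 0) (nat_lit 0) (nat_lit 393) (@Lb.fm (nat_lit 3) t1))))))))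
noncomputable def l17684 : Lb := (@Lb.d (nat_lit 164) (nat_lit 514) (nat_lit 0) (@Lb.g g8 (@Lb.g g9 (@Lb.r r407 (@Lb.r r1430 (@Lb.r r1625 (@Lb.r r596 (@Lb.d (nat_lit 24) (nat_lit 36) (nat_lit 650) (@Lb.fp (nat_lit 3) t748)))))))))
noncomputable def l17685 : Lb := (@Lb.g g9 (@Lb.g g6 (@Lb.r r97 (@Lb.r r2130 (@Lb.r r145 (@Lb.d (nat_lit 5) (nat_lit 8) (nat_lit 2) (@Lb.fm (nat_lit 3) t92)))))))
noncomputable def l17686 : Lb := (@Lb.d (nat_lit 145) (nat_lit 521) (nat_lit 73) (@Lb.g g8 (@Lb.g g9 (@Lb.g g10 (@Lb.g g11 (@Lb.r r683 (@Lb.r r2410 (@Lb.r r1561 (@Lb.r r1540 (@Lb.d (nat_lit 388) (nat_lit 152) (nat_lit 5) (@Lb.fm (nat_lit 9) t1846)))))))))))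
noncomputable def l17687 : Lb := (@Lb.r r323 (@Lb.d (nat_lit 130) (nat_lit 514) (nat_lit 2) (@Lb.g g8 (@Lb.g g9 (@Lb.g g10 (@Lb.r r2473 (@Lb.r r1683 (@Lb.r r1610 (@Lb.r r72 (@Lb.d (nat_lit 642) (nat_lit 64) (nat_lit 617) (@Lb.t (@Lb.fp (nat_lit 9) t1371))))))))))))
noncomputable def l17688 : Lb := (@Lb.d (nat_lit 24) (nat_lit 36) (nat_lit 105) (@Lb.r r2455 (@Lb.r r390 (@Lb.r r596 (@Lb.g g7 (@Lb.g g5 (@Lb.d (nat_lit 64) (nat_lit 129) (nat_lit 68) (@Lb.fp (nat_lit 3) t1443))))))))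
noncomputable def l17689 : Lb := (@Lb.d (nat_lit 2) (nat_lit 265) (nat_lit 129) (@Lb.g g8 (@Lb.g g9 (@Lb.g g10 (@Lb.g g11 (@Lb.r r1371 (@Lb.r r386 (@Lb.r r97 (@Lb.r r24 (@Lb.d (nat_lit 266) (nat_lit 6) (nat_lit 136) (@Lb.fm (nat_lit 9) t3510)))))))))))
noncomputable def l17690 : Lb := (@Lb.d (nat_lit 2) (nat_lit 258) (nat_lit 130) (@Lb.g g8 (@Lb.g g9 (@Lb.g g10 (@Lb.g g11 (@Lb.r r1445 (@Lb.r r2644 (@Lb.r r586 (@Lb.r r1379 (@Lb.d (nat_lit 329) (nat_lit 162) (nat_lit 538) (@Lb.fm (nat_lit 9) t3584)))))))))))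
noncomputable def l17691 : Lb := (@Lb.d (nat_lit 144) (nat_lit 514) (nat_lit 64) (@Lb.g g8 (@Lb.g g9 (@Lb.g g10 (@Lb.g g11 (@Lb.r r427 (@Lb.r r1177 (@Lb.r r1176 (@Lb.r r602 (@Lb.d (nat_lit 98) (nat_lit 81) (nat_lit 601) (@Lb.fm (nat_lit 9) t2185)))))))))))
noncomputable def l17692 : Lb := (@Lb.d (nat_lit 2) (nat_lit 0) (nat_lit 64) (@Lb.g g8 (@Lb.g g11 (@Lb.r r1543 (@Lb.r r402 (@Lb.r r2145 (@Lb.r r24 (@Lb.d (nat_lit 641) (nat_lit 18) (nat_lit 128) (@Lb.fm (nat_lit 3) t2257)))))))))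
noncomputable def l17693 : Lb := (@Lb.d (nat_lit 8) (nat_lit 533) (nat_lit 613) (@Lb.r r1635 (@Lb.r r2394 (@Lb.r r661 (@Lb.r r2404 (@Lb.g g7 (@Lb.d (nat_lit 0) (nat_lit 16) (nat_lit 128) (@Lb.t (@Lb.fp (nat_lit 3) t1915)))))))))
noncomputable def l17694 : Lb := (@Lb.d (nat_lit 0) (nat_lit 546) (nat_lit 130) (@Lb.g g9 (@Lb.g g10 (@Lb.g g11 (@Lb.r r297 (@Lb.r r403 (@Lb.r r386 (@Lb.r r1169 (@Lb.d (nat_lit 33) (nat_lit 66) (nat_lit 521) (@Lb.t (@Lb.fm (nat_lit 9) t306)))))))))))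
noncomputable def l17695 : Lb := (@Lb.d (nat_lit 65) (nat_lit 256) (nat_lit 64) (@Lb.g g8 (@Lb.g g11 (@Lb.r r260 (@Lb.r r2571 (@Lb.r r1540 (@Lb.d (nat_lit 64) (nat_lit 0) (nat_lit 128) (@Lb.fp (nat_lit 3) t997))))))))
noncomputable def l17696 : Lb := (@Lb.g g10 (@Lb.g g7 (@Lb.r r579 (@Lb.r r402 (@Lb.d (nat_lit 0) (nat_lit 581) (nat_lit 17) (@Lb.fp (nat_lit 3) t334))))))
noncomputable def l17697 : Lb := (@Lb.d (nat_lit 0) (nat_lit 0) (nat_lit 10) (@Lb.g g10 (@Lb.g g11 (@Lb.r r387 (@Lb.r r402 (@Lb.d (nat_lit 0) (nat_lit 69) (nat_lit 17) (@Lb.fp (nat_lit 3) t334)))))))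
noncomputable def l17698 : Lb := (@Lb.d (nat_lit 0) (nat_lit 1) (nat_lit 170) (@Lb.r r579 (@Lb.g g6 (@Lb.d (nat_lit 0) (nat_lit 4) (nat_lit 1) (@Lb.t (@Lb.fp (nat_lit 3) t45))))))
noncomputable def l17699 : Lb := (@Lb.r r277 (@Lb.r r326 (@Lb.d (nat_lit 410) (nat_lit 0) (nat_lit 128) (@Lb.g g8 (@Lb.g g11 (@Lb.r r101 (@Lb.r r2194 (@Lb.d (nat_lit 609) (nat_lit 138) (nat_lit 514) (@Lb.fm (nat_lit 3) t1846)))))))))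
noncomputable def l17700 : Lb := (@Lb.d (nat_lit 8) (nat_lit 258) (nat_lit 0) (@Lb.g g9 (@Lb.r r1126 (@Lb.r r24 (@Lb.d (nat_lit 354) (nat_lit 2) (nat_lit 528) (@Lb.t (@Lb.fm (nat_lit 3) t49)))))))
noncomputable def l17701 : Lb := (@Lb.d (nat_lit 0) (nat_lit 128) (nat_lit 32) (@Lb.r r402 (@Lb.r r579 (@Lb.g g11 (@Lb.g g6 (@Lb.fp (nat_lit 3) t51))))))
noncomputable def l17702 : Lb := (@Lb.d (nat_lit 70) (nat_lit 530) (nat_lit 74) (@Lb.r r24 (@Lb.r r2145 (@Lb.r r2390 (@Lb.r r2691 (@Lb.g g7 (@Lb.g g6 (@Lb.g g4 (@Lb.d (nat_lit 1) (nat_lit 0) (nat_lit 65) (@Lb.t (@Lb.fm (nat_lit 9) t803)))))))))))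
noncomputable def l17703 : Lb := (@Lb.r r323 (@Lb.d (nat_lit 0) (nat_lit 264) (nat_lit 6) (@Lb.g g10 (@Lb.r r387 (@Lb.d (nat_lit 0) (nat_lit 166) (nat_lit 394) (@Lb.t (@Lb.fp (nat_lit 3) t369)))))))
noncomputable def l17704 : Lb := (@Lb.d (nat_lit 650) (nat_lit 18) (nat_lit 576) (@Lb.r r1317 (@Lb.r r24 (@Lb.r r2631 (@Lb.r r346 (@Lb.g g6 (@Lb.g g5 (@Lb.d (nat_lit 4) (nat_lit 1) (nat_lit 1) (@Lb.fp (nat_lit 3) t739)))))))))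
noncomputable def l17705 : Lb := (@Lb.d (nat_lit 0) (nat_lit 513) (nat_lit 1) (@Lb.r r289 (@Lb.r r279 (@Lb.r r584 (@Lb.g g6 (@Lb.d (nat_lit 16) (nat_lit 0) (nat_lit 1) (@Lb.r r387 (@Lb.t (@Lb.fm (nat_lit 3) t68)))))))))
noncomputable def l17706 : Lb := (@Lb.d (nat_lit 0) (nat_lit 256) (nat_lit 128) (@Lb.g g10 (@Lb.g g11 (@Lb.r r387 (@Lb.d (nat_lit 0) (nat_lit 162) (nat_lit 258) (@Lb.fm (nat_lit 3) t373))))))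
noncomputable def l17707 : Lb := (@Lb.d (nat_lit 321) (nat_lit 512) (nat_lit 640) (@Lb.r r24 (@Lb.r r101 (@Lb.r r1362 (@Lb.g g7 (@Lb.g g6 (@Lb.g g5 (@Lb.d (nat_lit 0) (nat_lit 0) (nat_lit 134) (@Lb.t (@Lb.fp (nat_lit 9) t2326))))))))))
noncomputable def l17708 : Lb := (@Lb.d (nat_lit 130) (nat_lit 2) (nat_lit 0) (@Lb.g g8 (@Lb.g g9 (@Lb.r r2345 (@Lb.r r1559 (@Lb.r r2178 (@Lb.r r1444 (@Lb.d (nat_lit 362) (nat_lit 166) (nat_lit 344) (@Lb.fp (nat_lit 3) t246)))))))))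
noncomputable def l17709 : Lb := (@Lb.d (nat_lit 130) (nat_lit 512) (nat_lit 0) (@Lb.g g8 (@Lb.r r1321 (@Lb.r r1559 (@Lb.r r2178 (@Lb.r r1444 (@Lb.d (nat_lit 362) (nat_lit 166) (nat_lit 600) (@Lb.t (@Lb.fm (nat_lit 3) t246)))))))))
noncomputable def l17710 : Lb := (@Lb.d (nat_lit 144) (nat_lit 512) (nat_lit 130) (@Lb.g g6 (@Lb.g g11 (@Lb.r r264 (@Lb.r r599 (@Lb.r r409 (@Lb.d (nat_lit 36) (nat_lit 5) (nat_lit 1) (@Lb.fp (nat_lit 3) t714))))))))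
noncomputable def l17711 : Lb := (@Lb.r r323 (@Lb.d (nat_lit 0) (nat_lit 0) (nat_lit 2) (@Lb.g g9 (@Lb.g g10 (@Lb.r r1315 (@Lb.r r153 (@Lb.r r2202 (@Lb.d (nat_lit 293) (nat_lit 69) (nat_lit 0) (@Lb.fp (nat_lit 3) t417)))))))))
noncomputable def l17712 : Lb := (@Lb.d (nat_lit 0) (nat_lit 256) (nat_lit 64) (@Lb.g g10 (@Lb.g g7 (@Lb.r r402 (@Lb.r r101 (@Lb.d (nat_lit 70) (nat_lit 32) (nat_lit 0) (@Lb.fp (nat_lit 3) t983)))))))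
noncomputable def l17713 : Lb := (@Lb.r r322 (@Lb.d (nat_lit 128) (nat_lit 518) (nat_lit 128) (@Lb.g g9 (@Lb.g g11 (@Lb.r r614 (@Lb.r r388 (@Lb.r r587 (@Lb.d (nat_lit 100) (nat_lit 90) (nat_lit 265) (@Lb.fp (nat_lit 3) t2244)))))))))
noncomputable def l17714 : Lb := (@Lb.r r323 (@Lb.d (nat_lit 129) (nat_lit 34) (nat_lit 2) (@Lb.g g8 (@Lb.g g9 (@Lb.g g10 (@Lb.r r1559 (@Lb.r r1606 (@Lb.r r2312 (@Lb.d (nat_lit 400) (nat_lit 66) (nat_lit 641) (@Lb.t (@Lb.fm (nat_lit 9) t2815)))))))))))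
noncomputable def l17715 : Lb := (@Lb.d (nat_lit 2) (nat_lit 520) (nat_lit 130) (@Lb.g g8 (@Lb.g g10 (@Lb.g g11 (@Lb.r r1419 (@Lb.r r101 (@Lb.r r1434 (@Lb.d (nat_lit 408) (nat_lit 85) (nat_lit 393) (@Lb.t (@Lb.fm (nat_lit 9) t221))))))))))
noncomputable def l17716 : Lb := (@Lb.d (nat_lit 0) (nat_lit 297) (nat_lit 64) (@Lb.g g9 (@Lb.g g11 (@Lb.r r2659 (@Lb.r r1430 (@Lb.r r1625 (@Lb.d (nat_lit 392) (nat_lit 102) (nat_lit 664) (@Lb.fm (nat_lit 3) t927))))))))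
noncomputable def l17717 : Lb := (@Lb.d (nat_lit 2) (nat_lit 258) (nat_lit 128) (@Lb.g g8 (@Lb.g g9 (@Lb.g g11 (@Lb.r r529 (@Lb.r r292 (@Lb.r r539 (@Lb.r r2178 (@Lb.r r516 (@Lb.d (nat_lit 265) (nat_lit 2) (nat_lit 128) (@Lb.t (@Lb.fm (nat_lit 9) t2014))))))))))))
noncomputable def l17718 : Lb := (@Lb.d (nat_lit 128) (nat_lit 258) (nat_lit 162) (@Lb.g g9 (@Lb.g g6 (@Lb.g g11 (@Lb.r r533 (@Lb.r r292 (@Lb.r r411 (@Lb.d (nat_lit 409) (nat_lit 26) (nat_lit 168) (@Lb.t (@Lb.fp (nat_lit 9) t646))))))))))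
noncomputable def l17719 : Lb := (@Lb.d (nat_lit 2) (nat_lit 258) (nat_lit 34) (@Lb.g g8 (@Lb.g g9 (@Lb.g g6 (@Lb.g g11 (@Lb.r r529 (@Lb.r r292 (@Lb.r r539 (@Lb.r r516 (@Lb.d (nat_lit 258) (nat_lit 0) (nat_lit 162) (@Lb.fp (nat_lit 9) t2014)))))))))))
noncomputable def l17720 : Lb := (@Lb.d (nat_lit 2) (nat_lit 264) (nat_lit 130) (@Lb.g g8 (@Lb.g g10 (@Lb.g g11 (@Lb.r r1419 (@Lb.r r101 (@Lb.r r1434 (@Lb.d (nat_lit 409) (nat_lit 85) (nat_lit 393) (@Lb.t (@Lb.fm (nat_lit 9) t221))))))))))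
noncomputable def l17721 : Lb := (@Lb.d (nat_lit 0) (nat_lit 256) (nat_lit 74) (@Lb.g g10 (@Lb.g g11 (@Lb.r r2707 (@Lb.r r1381 (@Lb.r r2194 (@Lb.r r24 (@Lb.d (nat_lit 38) (nat_lit 129) (nat_lit 18) (@Lb.fm (nat_lit 3) t714)))))))))
noncomputable def l17722 : Lb := (@Lb.r r82 (@Lb.d (nat_lit 41) (nat_lit 257) (nat_lit 0) (@Lb.g g8 (@Lb.g g9 (@Lb.g g11 (@Lb.r r363 (@Lb.r r582 (@Lb.r r388 (@Lb.d (nat_lit 100) (nat_lit 9) (nat_lit 153) (@Lb.t (@Lb.fm (nat_lit 9) t1499)))))))))))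
noncomputable def l17723 : Lb := (@Lb.d (nat_lit 128) (nat_lit 258) (nat_lit 130) (@Lb.g g9 (@Lb.g g10 (@Lb.g g11 (@Lb.r r169 (@Lb.r r264 (@Lb.r r423 (@Lb.r r98 (@Lb.d (nat_lit 97) (nat_lit 88) (nat_lit 356) (@Lb.t (@Lb.fm (nat_lit 9) t153)))))))))))
noncomputable def l17724 : Lb := (@Lb.d (nat_lit 9) (nat_lit 516) (nat_lit 128) (@Lb.g g8 (@Lb.g g9 (@Lb.g g10 (@Lb.g g11 (@Lb.r r676 (@Lb.r r2311 (@Lb.r r161 (@Lb.r r98 (@Lb.r r1540 (@Lb.d (nat_lit 1) (nat_lit 162) (nat_lit 642) (@Lb.fm (nat_lit 9) t233))))))))))))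
noncomputable def l17725 : Lb := (@Lb.d (nat_lit 8) (nat_lit 2) (nat_lit 130) (@Lb.g g9 (@Lb.g g10 (@Lb.g g11 (@Lb.r r1451 (@Lb.r r98 (@Lb.d (nat_lit 96) (nat_lit 9) (nat_lit 596) (@Lb.t (@Lb.fm (nat_lit 9) t899)))))))))
noncomputable def l17726 : Lb := (@Lb.d (nat_lit 9) (nat_lit 2) (nat_lit 2) (@Lb.g g8 (@Lb.g g9 (@Lb.g g10 (@Lb.g g11 (@Lb.r r1705 (@Lb.r r2475 (@Lb.r r2468 (@Lb.r r2438 (@Lb.d (nat_lit 610) (nat_lit 10) (nat_lit 162) (@Lb.fp (nat_lit 9) t590)))))))))))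
noncomputable def l17727 : Lb := (@Lb.r r21 (@Lb.r r70 (@Lb.d (nat_lit 266) (nat_lit 512) (nat_lit 0) (@Lb.g g8 (@Lb.g g11 (@Lb.r r101 (@Lb.r r2450 (@Lb.r r579 (@Lb.d (nat_lit 1) (nat_lit 0) (nat_lit 0) (@Lb.fp (nat_lit 3) t1913))))))))))
noncomputable def l17728 : Lb := (@Lb.r r20 (@Lb.d (nat_lit 168) (nat_lit 258) (nat_lit 130) (@Lb.g g9 (@Lb.g g6 (@Lb.g g11 (@Lb.r r264 (@Lb.r r2455 (@Lb.r r1553 (@Lb.d (nat_lit 37) (nat_lit 81) (nat_lit 646) (@Lb.t (@Lb.fm (nat_lit 9) t51)))))))))))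
noncomputable def l17729 : Lb := (@Lb.r r21 (@Lb.d (nat_lit 2) (nat_lit 256) (nat_lit 2) (@Lb.g g8 (@Lb.g g10 (@Lb.g g11 (@Lb.r r1691 (@Lb.r r1684 (@Lb.r r150 (@Lb.r r97 (@Lb.d (nat_lit 5) (nat_lit 129) (nat_lit 682) (@Lb.t (@Lb.fp (nat_lit 9) t51))))))))))))
noncomputable def l17730 : Lb := (@Lb.r r20 (@Lb.d (nat_lit 160) (nat_lit 513) (nat_lit 130) (@Lb.g g9 (@Lb.g g6 (@Lb.g g11 (@Lb.r r264 (@Lb.r r2455 (@Lb.r r1553 (@Lb.d (nat_lit 37) (nat_lit 88) (nat_lit 645) (@Lb.t (@Lb.fm (nat_lit 9) t51)))))))))))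
noncomputable def l17731 : Lb := (@Lb.d (nat_lit 2) (nat_lit 514) (nat_lit 137) (@Lb.g g8 (@Lb.g g9 (@Lb.g g10 (@Lb.g g11 (@Lb.r r1706 (@Lb.r r680 (@Lb.r r555 (@Lb.r r1573 (@Lb.r r1044 (@Lb.d (nat_lit 649) (nat_lit 65) (nat_lit 330) (@Lb.fp (nat_lit 9) t284))))))))))))
noncomputable def l17732 : Lb := (@Lb.d (nat_lit 160) (nat_lit 256) (nat_lit 128) (@Lb.g g10 (@Lb.g g11 (@Lb.r r264 (@Lb.r r279 (@Lb.r r593 (@Lb.r r418 (@Lb.d (nat_lit 97) (nat_lit 68) (nat_lit 421) (@Lb.fm (nat_lit 3) t210)))))))))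
noncomputable def l17733 : Lb := (@Lb.d (nat_lit 33) (nat_lit 256) (nat_lit 138) (@Lb.r r154 (@Lb.r r664 (@Lb.r r667 (@Lb.r r353 (@Lb.g g7 (@Lb.g g6 (@Lb.g g4 (@Lb.d (nat_lit 2) (nat_lit 0) (nat_lit 64) (@Lb.t (@Lb.fp (nat_lit 9) t51)))))))))))
noncomputable def l17734 : Lb := (@Lb.r r21 (@Lb.d (nat_lit 130) (nat_lit 4) (nat_lit 9) (@Lb.g g8 (@Lb.g g6 (@Lb.r r2439 (@Lb.r r97 (@Lb.r r1608 (@Lb.d (nat_lit 614) (nat_lit 129) (nat_lit 680) (@Lb.fp (nat_lit 3) t51)))))))))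
noncomputable def l17735 : Lb := (@Lb.d (nat_lit 36) (nat_lit 64) (nat_lit 8) (@Lb.r r154 (@Lb.r r404 (@Lb.r r363 (@Lb.r r353 (@Lb.g g7 (@Lb.g g4 (@Lb.d (nat_lit 4) (nat_lit 0) (nat_lit 64) (@Lb.fm (nat_lit 3) t51)))))))))
noncomputable def l17736 : Lb := (@Lb.d (nat_lit 38) (nat_lit 64) (nat_lit 8) (@Lb.r r154 (@Lb.r r404 (@Lb.r r363 (@Lb.r r353 (@Lb.g g7 (@Lb.g g4 (@Lb.d (nat_lit 5) (nat_lit 0) (nat_lit 64) (@Lb.fm (nat_lit 3) t51)))))))))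
noncomputable def l17737 : Lb := (@Lb.d (nat_lit 0) (nat_lit 258) (nat_lit 1) (@Lb.g g8 (@Lb.g g9 (@Lb.g g10 (@Lb.g g7 (@Lb.r r426 (@Lb.r r2457 (@Lb.r r2436 (@Lb.d (nat_lit 617) (nat_lit 129) (nat_lit 354) (@Lb.fp (nat_lit 9) t918))))))))))
noncomputable def l17738 : Lb := (@Lb.d (nat_lit 0) (nat_lit 160) (nat_lit 0) (@Lb.g g5 (@Lb.g g11 (@Lb.r r531 (@Lb.d (nat_lit 5) (nat_lit 96) (nat_lit 128) (@Lb.fm (nat_lit 3) t3585))))))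
noncomputable def l17739 : Lb := (@Lb.d (nat_lit 32) (nat_lit 640) (nat_lit 522) (@Lb.r r134 (@Lb.r r603 (@Lb.r r596 (@Lb.r r409 (@Lb.g g7 (@Lb.g g5 (@Lb.d (nat_lit 64) (nat_lit 1) (nat_lit 0) (@Lb.fm (nat_lit 3) t3586)))))))))
noncomputable def l17740 : Lb := (@Lb.r r579 (@Lb.r r402 (@Lb.d (nat_lit 0) (nat_lit 1) (nat_lit 2) (@Lb.fp (nat_lit 1) t44))))
noncomputable def l17741 : Lb := (@Lb.d (nat_lit 400) (nat_lit 677) (nat_lit 678) (@Lb.r r1044 (@Lb.r r601 (@Lb.r r532 (@Lb.r r2466 (@Lb.g g11 (@Lb.g g6 (@Lb.g g5 (@Lb.g g4 (@Lb.d (nat_lit 1) (nat_lit 6) (nat_lit 130) (@Lb.fp (nat_lit 9) t827)))))))))))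
noncomputable def l17742 : Lb := (@Lb.d (nat_lit 2) (nat_lit 2) (nat_lit 4) (@Lb.g g8 (@Lb.g g9 (@Lb.g g10 (@Lb.g g11 (@Lb.r r2439 (@Lb.r r1604 (@Lb.r r106 (@Lb.r r97 (@Lb.d (nat_lit 10) (nat_lit 170) (nat_lit 641) (@Lb.fm (nat_lit 9) t295)))))))))))
noncomputable def l17743 : Lb := (@Lb.d (nat_lit 2) (nat_lit 512) (nat_lit 4) (@Lb.g g8 (@Lb.g g9 (@Lb.g g10 (@Lb.g g11 (@Lb.r r532 (@Lb.r r295 (@Lb.r r357 (@Lb.r r666 (@Lb.r r644 (@Lb.d (nat_lit 10) (nat_lit 1) (nat_lit 137) (@Lb.fp (nat_lit 9) t2))))))))))))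
noncomputable def l17744 : Lb := (@Lb.d (nat_lit 0) (nat_lit 0) (nat_lit 128) (@Lb.g g10 (@Lb.g g11 (@Lb.r r1419 (@Lb.d (nat_lit 418) (nat_lit 0) (nat_lit 404) (@Lb.fm (nat_lit 3) t441))))))
noncomputable def l17745 : Lb := (@Lb.d (nat_lit 657) (nat_lit 10) (nat_lit 261) (@Lb.r r24 (@Lb.r r101 (@Lb.r r386 (@Lb.g g11 (@Lb.g g6 (@Lb.g g5 (@Lb.d (nat_lit 0) (nat_lit 0) (nat_lit 129) (@Lb.t (@Lb.fp (nat_lit 9) t3587))))))))))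
noncomputable def l17746 : Lb := (@Lb.d (nat_lit 24) (nat_lit 169) (nat_lit 532) (@Lb.r r101 (@Lb.g g4 (@Lb.d (nat_lit 1) (nat_lit 0) (nat_lit 0) (@Lb.t (@Lb.fp (nat_lit 3) t3588))))))
noncomputable def l17747 : Lb := (@Lb.r r21 (@Lb.d (nat_lit 646) (nat_lit 256) (nat_lit 130) (@Lb.g g8 (@Lb.g g10 (@Lb.g g11 (@Lb.r r419 (@Lb.r r106 (@Lb.r r25 (@Lb.d (nat_lit 361) (nat_lit 9) (nat_lit 9) (@Lb.t (@Lb.fm (nat_lit 9) t1713)))))))))))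
noncomputable def l17748 : Lb := (@Lb.d (nat_lit 0) (nat_lit 0) (nat_lit 2) (@Lb.g g10 (@Lb.r r595 (@Lb.r r386 (@Lb.d (nat_lit 0) (nat_lit 100) (nat_lit 144) (@Lb.t (@Lb.fp (nat_lit 3) t356)))))))
noncomputable def l17749 : Lb := (@Lb.d (nat_lit 137) (nat_lit 256) (nat_lit 0) (@Lb.g g8 (@Lb.g g9 (@Lb.r r263 (@Lb.r r580 (@Lb.r r2154 (@Lb.r r2137 (@Lb.d (nat_lit 160) (nat_lit 148) (nat_lit 161) (@Lb.fm (nat_lit 3) t3589)))))))))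
noncomputable def l17750 : Lb := (@Lb.d (nat_lit 138) (nat_lit 512) (nat_lit 0) (@Lb.g g8 (@Lb.g g9 (@Lb.r r263 (@Lb.r r580 (@Lb.r r2154 (@Lb.r r2137 (@Lb.d (nat_lit 160) (nat_lit 148) (nat_lit 38) (@Lb.fm (nat_lit 3) t3590)))))))))
noncomputable def l17751 : Lb := (@Lb.d (nat_lit 138) (nat_lit 0) (nat_lit 0) (@Lb.g g8 (@Lb.g g9 (@Lb.r r263 (@Lb.r r580 (@Lb.r r2154 (@Lb.r r2137 (@Lb.d (nat_lit 160) (nat_lit 148) (nat_lit 161) (@Lb.fm (nat_lit 3) t3589)))))))))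
noncomputable def l17752 : Lb := (@Lb.d (nat_lit 2) (nat_lit 338) (nat_lit 353) (@Lb.r r2466 (@Lb.r r2473 (@Lb.r r1640 (@Lb.r r1419 (@Lb.g g7 (@Lb.g g6 (@Lb.d (nat_lit 0) (nat_lit 0) (nat_lit 8) (@Lb.fp (nat_lit 3) t2389)))))))))
noncomputable def l17753 : Lb := (@Lb.r r82 (@Lb.r r275 (@Lb.d (nat_lit 33) (nat_lit 264) (nat_lit 0) (@Lb.g g8 (@Lb.g g9 (@Lb.r r427 (@Lb.r r582 (@Lb.r r408 (@Lb.d (nat_lit 146) (nat_lit 89) (nat_lit 154) (@Lb.fp (nat_lit 3) t1492))))))))))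
noncomputable def l17754 : Lb := (@Lb.r r82 (@Lb.r r275 (@Lb.d (nat_lit 33) (nat_lit 520) (nat_lit 0) (@Lb.g g8 (@Lb.g g9 (@Lb.r r427 (@Lb.r r582 (@Lb.r r408 (@Lb.d (nat_lit 145) (nat_lit 89) (nat_lit 154) (@Lb.fp (nat_lit 3) t1640))))))))))
noncomputable def l17755 : Lb := (@Lb.d (nat_lit 10) (nat_lit 0) (nat_lit 128) (@Lb.g g8 (@Lb.g g11 (@Lb.r r353 (@Lb.r r407 (@Lb.r r612 (@Lb.r r154 (@Lb.d (nat_lit 18) (nat_lit 0) (nat_lit 132) (@Lb.fm (nat_lit 3) t285)))))))))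
noncomputable def l17756 : Lb := (@Lb.d (nat_lit 128) (nat_lit 512) (nat_lit 128) (@Lb.g g11 (@Lb.r r264 (@Lb.r r519 (@Lb.r r101 (@Lb.r r154 (@Lb.d (nat_lit 146) (nat_lit 0) (nat_lit 65) (@Lb.t (@Lb.fp (nat_lit 3) t285)))))))))
noncomputable def l17757 : Lb := (@Lb.d (nat_lit 353) (nat_lit 146) (nat_lit 261) (@Lb.r r1057 (@Lb.r r330 (@Lb.r r2392 (@Lb.g g7 (@Lb.g g6 (@Lb.d (nat_lit 16) (nat_lit 32) (nat_lit 646) (@Lb.fm (nat_lit 3) t2211))))))))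
noncomputable def l17758 : Lb := (@Lb.d (nat_lit 288) (nat_lit 512) (nat_lit 69) (@Lb.r r2129 (@Lb.r r1158 (@Lb.r r2372 (@Lb.r r1419 (@Lb.g g7 (@Lb.g g4 (@Lb.d (nat_lit 2) (nat_lit 0) (nat_lit 64) (@Lb.fp (nat_lit 3) t355)))))))))
noncomputable def l17759 : Lb := (@Lb.r r21 (@Lb.r r263 (@Lb.d (nat_lit 34) (nat_lit 512) (nat_lit 1) (@Lb.g g8 (@Lb.g g10 (@Lb.r r395 (@Lb.r r132 (@Lb.r r134 (@Lb.r r25 (@Lb.d (nat_lit 17) (nat_lit 5) (nat_lit 1) (@Lb.fp (nat_lit 3) t1599)))))))))))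
noncomputable def l17760 : Lb := (@Lb.d (nat_lit 24) (nat_lit 9) (nat_lit 8) (@Lb.g g9 (@Lb.g g6 (@Lb.r r1284 (@Lb.r r2459 (@Lb.r r673 (@Lb.d (nat_lit 292) (nat_lit 70) (nat_lit 152) (@Lb.fm (nat_lit 3) t3591))))))))
noncomputable def l17761 : Lb := (@Lb.r r1284 (@Lb.d (nat_lit 16) (nat_lit 521) (nat_lit 144) (@Lb.g g9 (@Lb.g g6 (@Lb.g g11 (@Lb.r r2585 (@Lb.r r2459 (@Lb.d (nat_lit 1) (nat_lit 21) (nat_lit 101) (@Lb.t (@Lb.fp (nat_lit 9) t3592))))))))))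
noncomputable def l17762 : Lb := (@Lb.d (nat_lit 0) (nat_lit 514) (nat_lit 73) (@Lb.g g8 (@Lb.g g9 (@Lb.g g10 (@Lb.g g11 (@Lb.r r610 (@Lb.r r2657 (@Lb.r r548 (@Lb.r r295 (@Lb.r r516 (@Lb.d (nat_lit 36) (nat_lit 64) (nat_lit 161) (@Lb.fm (nat_lit 9) t3071))))))))))))
noncomputable def l17763 : Lb := (@Lb.d (nat_lit 518) (nat_lit 257) (nat_lit 336) (@Lb.r r1288 (@Lb.r r82 (@Lb.r r595 (@Lb.r r1429 (@Lb.g g5 (@Lb.g g4 (@Lb.d (nat_lit 9) (nat_lit 0) (nat_lit 0) (@Lb.r r98 (@Lb.fm (nat_lit 3) t3593))))))))))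
noncomputable def l17764 : Lb := (@Lb.d (nat_lit 2) (nat_lit 0) (nat_lit 132) (@Lb.g g8 (@Lb.g g9 (@Lb.g g10 (@Lb.g g7 (@Lb.r r2730 (@Lb.r r1433 (@Lb.r r2436 (@Lb.d (nat_lit 665) (nat_lit 97) (nat_lit 265) (@Lb.fp (nat_lit 9) t3594))))))))))
noncomputable def l17765 : Lb := (@Lb.d (nat_lit 324) (nat_lit 0) (nat_lit 345) (@Lb.r r395 (@Lb.r r328 (@Lb.r r662 (@Lb.g g7 (@Lb.g g9 (@Lb.d (nat_lit 64) (nat_lit 154) (nat_lit 128) (@Lb.r r98 (@Lb.fp (nat_lit 3) t2118)))))))))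
noncomputable def l17766 : Lb := (@Lb.r r21 (@Lb.r r70 (@Lb.r r2311 (@Lb.d (nat_lit 2) (nat_lit 0) (nat_lit 0) (@Lb.g g4 (@Lb.r r101 (@Lb.r r2450 (@Lb.d (nat_lit 146) (nat_lit 0) (nat_lit 85) (@Lb.t (@Lb.fm (nat_lit 3) t1246))))))))))
noncomputable def l17767 : Lb := (@Lb.r r273 (@Lb.r r322 (@Lb.d (nat_lit 70) (nat_lit 32) (nat_lit 576) (@Lb.g g4 (@Lb.g g11 (@Lb.r r101 (@Lb.r r146 (@Lb.d (nat_lit 530) (nat_lit 0) (nat_lit 33) (@Lb.fp (nat_lit 3) t150)))))))))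
noncomputable def l17768 : Lb := (@Lb.d (nat_lit 4) (nat_lit 512) (nat_lit 66) (@Lb.g g8 (@Lb.g g10 (@Lb.g g7 (@Lb.r r386 (@Lb.r r2073 (@Lb.d (nat_lit 550) (nat_lit 70) (nat_lit 42) (@Lb.t (@Lb.fm (nat_lit 9) t382)))))))))
noncomputable def l17769 : Lb := (@Lb.r r327 (@Lb.d (nat_lit 0) (nat_lit 512) (nat_lit 2) (@Lb.g g8 (@Lb.g g9 (@Lb.g g10 (@Lb.r r2730 (@Lb.r r2692 (@Lb.r r1543 (@Lb.r r2073 (@Lb.d (nat_lit 616) (nat_lit 65) (nat_lit 530) (@Lb.t (@Lb.fm (nat_lit 9) t3595))))))))))))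
noncomputable def l17770 : Lb := (@Lb.d (nat_lit 0) (nat_lit 0) (nat_lit 66) (@Lb.g g8 (@Lb.g g9 (@Lb.g g10 (@Lb.g g7 (@Lb.r r386 (@Lb.r r104 (@Lb.r r1129 (@Lb.r r1060 (@Lb.d (nat_lit 548) (nat_lit 128) (nat_lit 9) (@Lb.fp (nat_lit 9) t3034)))))))))))
noncomputable def l17771 : Lb := (@Lb.g g6 (@Lb.d (nat_lit 0) (nat_lit 512) (nat_lit 69) (@Lb.t (@Lb.fm (nat_lit 3) t2))))
noncomputable def l17772 : Lb := (@Lb.d (nat_lit 0) (nat_lit 258) (nat_lit 73) (@Lb.g g9 (@Lb.g g10 (@Lb.g g11 (@Lb.r r2666 (@Lb.r r97 (@Lb.r r24 (@Lb.d (nat_lit 666) (nat_lit 9) (nat_lit 256) (@Lb.t (@Lb.fm (nat_lit 9) t145))))))))))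
noncomputable def l17773 : Lb := (@Lb.d (nat_lit 0) (nat_lit 514) (nat_lit 130) (@Lb.g g9 (@Lb.g g10 (@Lb.g g11 (@Lb.r r2666 (@Lb.r r97 (@Lb.r r24 (@Lb.d (nat_lit 666) (nat_lit 9) (nat_lit 320) (@Lb.t (@Lb.fm (nat_lit 9) t145))))))))))
noncomputable def l17774 : Lb := (@Lb.r r323 (@Lb.d (nat_lit 9) (nat_lit 257) (nat_lit 2) (@Lb.g g8 (@Lb.g g9 (@Lb.g g10 (@Lb.r r1623 (@Lb.r r2154 (@Lb.r r97 (@Lb.r r24 (@Lb.d (nat_lit 538) (nat_lit 4) (nat_lit 136) (@Lb.t (@Lb.fp (nat_lit 9) t61))))))))))))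
noncomputable def l17775 : Lb := (@Lb.d (nat_lit 4) (nat_lit 514) (nat_lit 73) (@Lb.g g9 (@Lb.g g10 (@Lb.g g11 (@Lb.r r423 (@Lb.r r596 (@Lb.r r666 (@Lb.r r337 (@Lb.d (nat_lit 8) (nat_lit 33) (nat_lit 5) (@Lb.t (@Lb.fp (nat_lit 9) t51)))))))))))
noncomputable def l17776 : Lb := (@Lb.d (nat_lit 40) (nat_lit 513) (nat_lit 129) (@Lb.g g8 (@Lb.g g9 (@Lb.g g10 (@Lb.g g11 (@Lb.r r683 (@Lb.r r600 (@Lb.r r86 (@Lb.r r169 (@Lb.r r164 (@Lb.d (nat_lit 144) (nat_lit 2) (nat_lit 137) (@Lb.fm (nat_lit 9) t50))))))))))))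
noncomputable def l17777 : Lb := (@Lb.g g5 (@Lb.g g7 (@Lb.r r402 (@Lb.r r101 (@Lb.r r24 (@Lb.d (nat_lit 256) (nat_lit 512) (nat_lit 512) (@Lb.fp (nat_lit 3) t145)))))))
noncomputable def l17778 : Lb := (@Lb.d (nat_lit 2) (nat_lit 521) (nat_lit 129) (@Lb.g g8 (@Lb.g g9 (@Lb.g g10 (@Lb.g g11 (@Lb.r r2691 (@Lb.r r297 (@Lb.r r360 (@Lb.r r582 (@Lb.r r2180 (@Lb.d (nat_lit 641) (nat_lit 10) (nat_lit 265) (@Lb.fm (nat_lit 9) t50))))))))))))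
noncomputable def l17779 : Lb := (@Lb.g g10 (@Lb.g g7 (@Lb.r r394 (@Lb.r r2375 (@Lb.r r2626 (@Lb.d (nat_lit 256) (nat_lit 512) (nat_lit 0) (@Lb.fm (nat_lit 3) t3062)))))))
noncomputable def l17780 : Lb := (@Lb.d (nat_lit 0) (nat_lit 264) (nat_lit 2) (@Lb.g g10 (@Lb.r r1427 (@Lb.r r1172 (@Lb.r r89 (@Lb.r r1126 (@Lb.d (nat_lit 273) (nat_lit 138) (nat_lit 18) (@Lb.t (@Lb.fp (nat_lit 3) t1495)))))))))
noncomputable def l17781 : Lb := (@Lb.d (nat_lit 326) (nat_lit 344) (nat_lit 100) (@Lb.r r2648 (@Lb.r r2438 (@Lb.r r1563 (@Lb.g g7 (@Lb.g g9 (@Lb.g g4 (@Lb.d (nat_lit 89) (nat_lit 10) (nat_lit 128) (@Lb.r r74 (@Lb.t (@Lb.fp (nat_lit 9) t894)))))))))))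
noncomputable def l17782 : Lb := (@Lb.g g4 (@Lb.r r551 (@Lb.r r1606 (@Lb.r r1557 (@Lb.r r1416 (@Lb.d (nat_lit 66) (nat_lit 138) (nat_lit 612) (@Lb.t (@Lb.fm (nat_lit 3) t915))))))))
noncomputable def l17783 : Lb := (@Lb.g g5 (@Lb.g g10 (@Lb.g g7 (@Lb.r r1617 (@Lb.r r354 (@Lb.d (nat_lit 0) (nat_lit 354) (nat_lit 37) (@Lb.t (@Lb.fm (nat_lit 9) t2777))))))))
noncomputable def l17784 : Lb := (@Lb.g g4 (@Lb.r r551 (@Lb.r r1606 (@Lb.r r1557 (@Lb.r r1416 (@Lb.d (nat_lit 73) (nat_lit 393) (nat_lit 612) (@Lb.t (@Lb.fm (nat_lit 3) t915))))))))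
noncomputable def l17785 : Lb := (@Lb.r r323 (@Lb.d (nat_lit 0) (nat_lit 513) (nat_lit 2) (@Lb.g g9 (@Lb.g g10 (@Lb.r r2465 (@Lb.r r354 (@Lb.r r387 (@Lb.d (nat_lit 0) (nat_lit 102) (nat_lit 153) (@Lb.fp (nat_lit 3) t1484)))))))))
noncomputable def l17786 : Lb := (@Lb.r r323 (@Lb.d (nat_lit 2) (nat_lit 41) (nat_lit 1) (@Lb.g g8 (@Lb.g g9 (@Lb.g g10 (@Lb.r r599 (@Lb.r r1122 (@Lb.r r2436 (@Lb.d (nat_lit 321) (nat_lit 137) (nat_lit 514) (@Lb.t (@Lb.fp (nat_lit 9) t460)))))))))))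
noncomputable def l17787 : Lb := (@Lb.d (nat_lit 152) (nat_lit 257) (nat_lit 74) (@Lb.g g8 (@Lb.g g9 (@Lb.g g10 (@Lb.g g11 (@Lb.r r683 (@Lb.r r2410 (@Lb.r r548 (@Lb.r r37 (@Lb.d (nat_lit 362) (nat_lit 33) (nat_lit 21) (@Lb.fp (nat_lit 9) t283)))))))))))
noncomputable def l17788 : Lb := (@Lb.d (nat_lit 130) (nat_lit 548) (nat_lit 0) (@Lb.g g8 (@Lb.g g9 (@Lb.g g10 (@Lb.r r1450 (@Lb.r r583 (@Lb.r r408 (@Lb.r r2085 (@Lb.d (nat_lit 70) (nat_lit 150) (nat_lit 602) (@Lb.t (@Lb.fm (nat_lit 9) t1278)))))))))))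
noncomputable def l17789 : Lb := (@Lb.d (nat_lit 0) (nat_lit 256) (nat_lit 130) (@Lb.g g8 (@Lb.g g9 (@Lb.g g10 (@Lb.g g11 (@Lb.r r586 (@Lb.r r584 (@Lb.r r299 (@Lb.r r289 (@Lb.d (nat_lit 2) (nat_lit 128) (nat_lit 0) (@Lb.fp (nat_lit 9) t51)))))))))))
noncomputable def l17790 : Lb := (@Lb.d (nat_lit 2) (nat_lit 258) (nat_lit 2) (@Lb.g g8 (@Lb.g g9 (@Lb.g g10 (@Lb.r r683 (@Lb.r r2666 (@Lb.r r25 (@Lb.d (nat_lit 9) (nat_lit 89) (nat_lit 537) (@Lb.t (@Lb.fp (nat_lit 9) t591))))))))))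
noncomputable def l17791 : Lb := (@Lb.r r82 (@Lb.d (nat_lit 32) (nat_lit 514) (nat_lit 136) (@Lb.g g8 (@Lb.g g9 (@Lb.g g11 (@Lb.r r1362 (@Lb.r r2645 (@Lb.r r356 (@Lb.r r395 (@Lb.d (nat_lit 545) (nat_lit 34) (nat_lit 680) (@Lb.t (@Lb.fm (nat_lit 9) t98))))))))))))
noncomputable def l17792 : Lb := (@Lb.d (nat_lit 2) (nat_lit 514) (nat_lit 130) (@Lb.g g8 (@Lb.g g9 (@Lb.g g10 (@Lb.g g11 (@Lb.r r2705 (@Lb.r r2707 (@Lb.r r644 (@Lb.r r2630 (@Lb.r r132 (@Lb.d (nat_lit 649) (nat_lit 2) (nat_lit 354) (@Lb.fm (nat_lit 9) t1644))))))))))))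
noncomputable def l17793 : Lb := (@Lb.d (nat_lit 2) (nat_lit 258) (nat_lit 130) (@Lb.g g8 (@Lb.g g9 (@Lb.g g10 (@Lb.g g11 (@Lb.r r2705 (@Lb.r r2707 (@Lb.r r644 (@Lb.r r2630 (@Lb.r r132 (@Lb.d (nat_lit 642) (nat_lit 66) (nat_lit 354) (@Lb.fm (nat_lit 9) t3596))))))))))))
noncomputable def l17794 : Lb := (@Lb.d (nat_lit 1) (nat_lit 0) (nat_lit 1) (@Lb.r r597 (@Lb.r r599 (@Lb.r r264 (@Lb.r r134 (@Lb.g g7 (@Lb.d (nat_lit 64) (nat_lit 0) (nat_lit 64) (@Lb.t (@Lb.fp (nat_lit 3) t145)))))))))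
noncomputable def l17795 : Lb := (@Lb.d (nat_lit 26) (nat_lit 520) (nat_lit 66) (@Lb.g g8 (@Lb.g g9 (@Lb.g g10 (@Lb.g g7 (@Lb.r r2434 (@Lb.r r97 (@Lb.r r1048 (@Lb.d (nat_lit 522) (nat_lit 73) (nat_lit 537) (@Lb.fp (nat_lit 9) t3481))))))))))
noncomputable def l17796 : Lb := (@Lb.d (nat_lit 2) (nat_lit 2) (nat_lit 130) (@Lb.g g8 (@Lb.g g9 (@Lb.g g10 (@Lb.g g11 (@Lb.r r610 (@Lb.r r404 (@Lb.r r619 (@Lb.r r97 (@Lb.r r516 (@Lb.d (nat_lit 617) (nat_lit 130) (nat_lit 530) (@Lb.fp (nat_lit 9) t1994))))))))))))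
noncomputable def l17797 : Lb := (@Lb.d (nat_lit 6) (nat_lit 0) (nat_lit 0) (@Lb.g g8 (@Lb.g g9 (@Lb.r r2154 (@Lb.r r2585 (@Lb.r r1427 (@Lb.r r1608 (@Lb.d (nat_lit 610) (nat_lit 0) (nat_lit 394) (@Lb.fp (nat_lit 3) t590)))))))))
noncomputable def l17798 : Lb := (@Lb.d (nat_lit 262) (nat_lit 601) (nat_lit 265) (@Lb.r r2323 (@Lb.r r2657 (@Lb.r r1366 (@Lb.g g7 (@Lb.g g6 (@Lb.g g5 (@Lb.g g4 (@Lb.d (nat_lit 1) (nat_lit 18) (nat_lit 129) (@Lb.fm (nat_lit 9) t3597))))))))))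
noncomputable def l17799 : Lb := (@Lb.d (nat_lit 0) (nat_lit 256) (nat_lit 130) (@Lb.g g10 (@Lb.g g11 (@Lb.r r614 (@Lb.r r2659 (@Lb.r r101 (@Lb.r r2564 (@Lb.d (nat_lit 516) (nat_lit 18) (nat_lit 0) (@Lb.fm (nat_lit 3) t461)))))))))
noncomputable def l17800 : Lb := (@Lb.d (nat_lit 278) (nat_lit 2) (nat_lit 26) (@Lb.r r2661 (@Lb.r r1304 (@Lb.r r2659 (@Lb.r r326 (@Lb.g g7 (@Lb.g g6 (@Lb.g g4 (@Lb.d (nat_lit 1) (nat_lit 0) (nat_lit 65) (@Lb.t (@Lb.fm (nat_lit 9) t2681)))))))))))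
noncomputable def l17801 : Lb := (@Lb.d (nat_lit 34) (nat_lit 278) (nat_lit 666) (@Lb.r r24 (@Lb.r r665 (@Lb.r r2410 (@Lb.g g11 (@Lb.g g6 (@Lb.g g5 (@Lb.g g4 (@Lb.d (nat_lit 1) (nat_lit 42) (nat_lit 389) (@Lb.fp (nat_lit 9) t394))))))))))
noncomputable def l17802 : Lb := (@Lb.r r21 (@Lb.r r70 (@Lb.d (nat_lit 138) (nat_lit 256) (nat_lit 256) (@Lb.g g8 (@Lb.g g7 (@Lb.r r1617 (@Lb.r r2150 (@Lb.r r408 (@Lb.d (nat_lit 168) (nat_lit 26) (nat_lit 424) (@Lb.fm (nat_lit 3) t1108))))))))))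
noncomputable def l17803 : Lb := (@Lb.r r21 (@Lb.r r70 (@Lb.d (nat_lit 138) (nat_lit 256) (nat_lit 256) (@Lb.g g8 (@Lb.g g7 (@Lb.r r1617 (@Lb.r r2150 (@Lb.r r408 (@Lb.d (nat_lit 666) (nat_lit 26) (nat_lit 394) (@Lb.fm (nat_lit 3) t491))))))))))
noncomputable def l17804 : Lb := (@Lb.d (nat_lit 74) (nat_lit 289) (nat_lit 40) (@Lb.r r280 (@Lb.r r1639 (@Lb.g g6 (@Lb.g g9 (@Lb.g g4 (@Lb.d (nat_lit 81) (nat_lit 73) (nat_lit 21) (@Lb.r r267 (@Lb.t (@Lb.fm (nat_lit 9) t522))))))))))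
noncomputable def l17805 : Lb := (@Lb.d (nat_lit 0) (nat_lit 258) (nat_lit 66) (@Lb.g g9 (@Lb.g g10 (@Lb.g g11 (@Lb.r r1443 (@Lb.r r386 (@Lb.r r97 (@Lb.r r36 (@Lb.d (nat_lit 5) (nat_lit 22) (nat_lit 392) (@Lb.t (@Lb.fm (nat_lit 9) t309)))))))))))
noncomputable def l17806 : Lb := (@Lb.d (nat_lit 0) (nat_lit 514) (nat_lit 66) (@Lb.g g9 (@Lb.g g10 (@Lb.g g11 (@Lb.r r1443 (@Lb.r r386 (@Lb.r r97 (@Lb.r r36 (@Lb.d (nat_lit 0) (nat_lit 21) (nat_lit 392) (@Lb.t (@Lb.fm (nat_lit 9) t309)))))))))))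
noncomputable def l17807 : Lb := (@Lb.d (nat_lit 0) (nat_lit 144) (nat_lit 105) (@Lb.r r101 (@Lb.r r24 (@Lb.r r2374 (@Lb.r r651 (@Lb.g g7 (@Lb.g g6 (@Lb.d (nat_lit 0) (nat_lit 0) (nat_lit 72) (@Lb.fp (nat_lit 3) t2025)))))))))
noncomputable def l17808 : Lb := (@Lb.d (nat_lit 0) (nat_lit 353) (nat_lit 356) (@Lb.r r101 (@Lb.r r24 (@Lb.r r1354 (@Lb.r r2691 (@Lb.g g7 (@Lb.g g6 (@Lb.d (nat_lit 0) (nat_lit 0) (nat_lit 72) (@Lb.fp (nat_lit 3) t3598)))))))))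
noncomputable def l17809 : Lb := (@Lb.d (nat_lit 0) (nat_lit 134) (nat_lit 417) (@Lb.r r97 (@Lb.r r1355 (@Lb.r r1606 (@Lb.r r1428 (@Lb.g g5 (@Lb.g g4 (@Lb.d (nat_lit 1) (nat_lit 1) (nat_lit 0) (@Lb.fp (nat_lit 3) t2848)))))))))
noncomputable def l17810 : Lb := (@Lb.d (nat_lit 1) (nat_lit 257) (nat_lit 72) (@Lb.g g4 (@Lb.g g9 (@Lb.g g11 (@Lb.r r1410 (@Lb.r r579 (@Lb.r r101 (@Lb.d (nat_lit 26) (nat_lit 69) (nat_lit 0) (@Lb.t (@Lb.fm (nat_lit 9) t743))))))))))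
noncomputable def l17811 : Lb := (@Lb.r r82 (@Lb.d (nat_lit 36) (nat_lit 290) (nat_lit 64) (@Lb.g g8 (@Lb.g g9 (@Lb.g g11 (@Lb.r r1430 (@Lb.r r1367 (@Lb.r r1577 (@Lb.r r1576 (@Lb.d (nat_lit 586) (nat_lit 20) (nat_lit 550) (@Lb.t (@Lb.fp (nat_lit 9) t151))))))))))))
noncomputable def l17812 : Lb := (@Lb.r r21 (@Lb.r r323 (@Lb.d (nat_lit 129) (nat_lit 8) (nat_lit 2) (@Lb.g g8 (@Lb.g g10 (@Lb.r r615 (@Lb.r r97 (@Lb.r r264 (@Lb.d (nat_lit 137) (nat_lit 130) (nat_lit 4) (@Lb.fp (nat_lit 3) t51))))))))))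
noncomputable def l17813 : Lb := (@Lb.d (nat_lit 4) (nat_lit 65) (nat_lit 512) (@Lb.r r1346 (@Lb.g g7 (@Lb.g g8 (@Lb.d (nat_lit 72) (nat_lit 0) (nat_lit 0) (@Lb.r r586 (@Lb.r r1049 (@Lb.fp (nat_lit 3) t282))))))))
noncomputable def l17814 : Lb := (@Lb.r r323 (@Lb.g g6 (@Lb.r r1411 (@Lb.r r2138 (@Lb.r r20 (@Lb.r r1049 (@Lb.d (nat_lit 577) (nat_lit 320) (nat_lit 512) (@Lb.t (@Lb.fm (nat_lit 3) t282)))))))))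
noncomputable def l17815 : Lb := (@Lb.d (nat_lit 1) (nat_lit 512) (nat_lit 72) (@Lb.g g4 (@Lb.g g11 (@Lb.r r1410 (@Lb.r r579 (@Lb.r r33 (@Lb.d (nat_lit 8) (nat_lit 138) (nat_lit 33) (@Lb.fm (nat_lit 3) t21))))))))
noncomputable def l17816 : Lb := (@Lb.d (nat_lit 4) (nat_lit 257) (nat_lit 0) (@Lb.g g8 (@Lb.g g5 (@Lb.r r24 (@Lb.d (nat_lit 0) (nat_lit 1) (nat_lit 128) (@Lb.fm (nat_lit 3) t2))))))
noncomputable def l17817 : Lb := (@Lb.d (nat_lit 36) (nat_lit 258) (nat_lit 64) (@Lb.g g8 (@Lb.g g9 (@Lb.g g11 (@Lb.r r1363 (@Lb.r r582 (@Lb.r r2212 (@Lb.r r2581 (@Lb.d (nat_lit 137) (nat_lit 149) (nat_lit 384) (@Lb.t (@Lb.fm (nat_lit 9) t881)))))))))))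
noncomputable def l17818 : Lb := (@Lb.d (nat_lit 8) (nat_lit 388) (nat_lit 361) (@Lb.r r1361 (@Lb.r r2471 (@Lb.r r612 (@Lb.r r346 (@Lb.g g7 (@Lb.g g6 (@Lb.g g5 (@Lb.d (nat_lit 8) (nat_lit 2) (nat_lit 134) (@Lb.t (@Lb.fp (nat_lit 9) t125)))))))))))
noncomputable def l17819 : Lb := (@Lb.d (nat_lit 582) (nat_lit 166) (nat_lit 614) (@Lb.r r1432 (@Lb.r r330 (@Lb.r r343 (@Lb.g g5 (@Lb.g g4 (@Lb.d (nat_lit 17) (nat_lit 133) (nat_lit 0) (@Lb.fp (nat_lit 3) t3599))))))))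
noncomputable def l17820 : Lb := (@Lb.r r323 (@Lb.d (nat_lit 8) (nat_lit 265) (nat_lit 2) (@Lb.g g9 (@Lb.g g10 (@Lb.r r2339 (@Lb.r r578 (@Lb.r r1624 (@Lb.r r2341 (@Lb.d (nat_lit 682) (nat_lit 33) (nat_lit 362) (@Lb.fm (nat_lit 3) t173))))))))))
noncomputable def l17821 : Lb := (@Lb.d (nat_lit 128) (nat_lit 256) (nat_lit 64) (@Lb.g g11 (@Lb.r r1045 (@Lb.r r324 (@Lb.r r618 (@Lb.r r2667 (@Lb.d (nat_lit 678) (nat_lit 90) (nat_lit 394) (@Lb.t (@Lb.fm (nat_lit 3) t322)))))))))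
noncomputable def l17822 : Lb := (@Lb.d (nat_lit 128) (nat_lit 0) (nat_lit 136) (@Lb.g g11 (@Lb.r r1045 (@Lb.r r388 (@Lb.r r406 (@Lb.r r1387 (@Lb.d (nat_lit 36) (nat_lit 170) (nat_lit 38) (@Lb.t (@Lb.fm (nat_lit 3) t322)))))))))
noncomputable def l17823 : Lb := (@Lb.d (nat_lit 145) (nat_lit 385) (nat_lit 66) (@Lb.r r2133 (@Lb.r r339 (@Lb.r r666 (@Lb.g g7 (@Lb.g g6 (@Lb.g g5 (@Lb.g g4 (@Lb.d (nat_lit 1) (nat_lit 17) (nat_lit 129) (@Lb.fm (nat_lit 9) t3046))))))))))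
noncomputable def l17824 : Lb := (@Lb.r r323 (@Lb.d (nat_lit 37) (nat_lit 10) (nat_lit 0) (@Lb.g g8 (@Lb.g g9 (@Lb.g g10 (@Lb.r r339 (@Lb.r r2217 (@Lb.r r1128 (@Lb.r r1094 (@Lb.d (nat_lit 32) (nat_lit 74) (nat_lit 17) (@Lb.t (@Lb.fm (nat_lit 9) t68))))))))))))
noncomputable def l17825 : Lb := (@Lb.d (nat_lit 553) (nat_lit 132) (nat_lit 32) (@Lb.r r2129 (@Lb.r r1190 (@Lb.r r2392 (@Lb.r r1703 (@Lb.g g7 (@Lb.g g6 (@Lb.g g5 (@Lb.d (nat_lit 0) (nat_lit 5) (nat_lit 2) (@Lb.t (@Lb.fm (nat_lit 9) t1389)))))))))))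
noncomputable def l17826 : Lb := (@Lb.d (nat_lit 6) (nat_lit 258) (nat_lit 0) (@Lb.g g8 (@Lb.g g9 (@Lb.r r20 (@Lb.r r153 (@Lb.r r402 (@Lb.d (nat_lit 145) (nat_lit 0) (nat_lit 16) (@Lb.fp (nat_lit 3) t590))))))))
noncomputable def l17827 : Lb := (@Lb.d (nat_lit 0) (nat_lit 260) (nat_lit 128) (@Lb.g g9 (@Lb.g g10 (@Lb.g g11 (@Lb.r r2385 (@Lb.r r1699 (@Lb.r r1378 (@Lb.d (nat_lit 0) (nat_lit 105) (nat_lit 593) (@Lb.t (@Lb.fp (nat_lit 9) t3600))))))))))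
noncomputable def l17828 : Lb := (@Lb.r r2311 (@Lb.r r24 (@Lb.r r101 (@Lb.d (nat_lit 0) (nat_lit 642) (nat_lit 17) (@Lb.fp (nat_lit 1) t969)))))
noncomputable def l17829 : Lb := (@Lb.d (nat_lit 128) (nat_lit 2) (nat_lit 130) (@Lb.g g9 (@Lb.g g10 (@Lb.g g11 (@Lb.r r2146 (@Lb.r r2409 (@Lb.r r292 (@Lb.r r603 (@Lb.d (nat_lit 88) (nat_lit 38) (nat_lit 162) (@Lb.t (@Lb.fm (nat_lit 9) t1025)))))))))))
noncomputable def l17830 : Lb := (@Lb.d (nat_lit 32) (nat_lit 256) (nat_lit 74) (@Lb.g g10 (@Lb.g g11 (@Lb.r r391 (@Lb.r r2201 (@Lb.r r1096 (@Lb.r r2150 (@Lb.d (nat_lit 665) (nat_lit 74) (nat_lit 386) (@Lb.fp (nat_lit 3) t145)))))))))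
noncomputable def l17831 : Lb := (@Lb.d (nat_lit 8) (nat_lit 546) (nat_lit 0) (@Lb.g g9 (@Lb.r r536 (@Lb.r r2715 (@Lb.r r2178 (@Lb.r r425 (@Lb.d (nat_lit 678) (nat_lit 38) (nat_lit 154) (@Lb.t (@Lb.fp (nat_lit 3) t222)))))))))
noncomputable def l17832 : Lb := (@Lb.d (nat_lit 2) (nat_lit 642) (nat_lit 130) (@Lb.g g8 (@Lb.g g9 (@Lb.g g10 (@Lb.g g11 (@Lb.r r516 (@Lb.r r263 (@Lb.r r98 (@Lb.r r516 (@Lb.d (nat_lit 2) (nat_lit 2) (nat_lit 146) (@Lb.fp (nat_lit 9) t543)))))))))))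
noncomputable def l17833 : Lb := (@Lb.r r81 (@Lb.d (nat_lit 2) (nat_lit 288) (nat_lit 145) (@Lb.g g8 (@Lb.g g6 (@Lb.g g11 (@Lb.r r401 (@Lb.r r675 (@Lb.r r24 (@Lb.d (nat_lit 10) (nat_lit 102) (nat_lit 420) (@Lb.t (@Lb.fp (nat_lit 9) t375)))))))))))
noncomputable def l17834 : Lb := (@Lb.d (nat_lit 2) (nat_lit 514) (nat_lit 130) (@Lb.g g8 (@Lb.g g9 (@Lb.g g10 (@Lb.g g11 (@Lb.r r2146 (@Lb.r r2401 (@Lb.r r2587 (@Lb.r r2564 (@Lb.d (nat_lit 426) (nat_lit 2) (nat_lit 417) (@Lb.fp (nat_lit 9) t396)))))))))))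
noncomputable def l17835 : Lb := (@Lb.d (nat_lit 6) (nat_lit 0) (nat_lit 130) (@Lb.g g8 (@Lb.g g9 (@Lb.g g10 (@Lb.g g11 (@Lb.r r2146 (@Lb.r r2401 (@Lb.r r664 (@Lb.r r539 (@Lb.r r516 (@Lb.d (nat_lit 40) (nat_lit 2) (nat_lit 105) (@Lb.fm (nat_lit 9) t1025))))))))))))
noncomputable def l17836 : Lb := (@Lb.d (nat_lit 1) (nat_lit 329) (nat_lit 129) (@Lb.g g4 (@Lb.g g9 (@Lb.g g10 (@Lb.g g11 (@Lb.r r419 (@Lb.r r98 (@Lb.d (nat_lit 1) (nat_lit 4) (nat_lit 136) (@Lb.fm (nat_lit 9) t546)))))))))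
noncomputable def l17837 : Lb := (@Lb.r r1045 (@Lb.d (nat_lit 552) (nat_lit 260) (nat_lit 161) (@Lb.g g4 (@Lb.g g10 (@Lb.g g11 (@Lb.r r387 (@Lb.d (nat_lit 1) (nat_lit 136) (nat_lit 136) (@Lb.t (@Lb.fp (nat_lit 9) t3601)))))))))
noncomputable def l17838 : Lb := (@Lb.d (nat_lit 10) (nat_lit 132) (nat_lit 17) (@Lb.r r2129 (@Lb.r r1190 (@Lb.r r2392 (@Lb.r r1703 (@Lb.g g6 (@Lb.g g5 (@Lb.d (nat_lit 0) (nat_lit 5) (nat_lit 2) (@Lb.fp (nat_lit 3) t71)))))))))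
noncomputable def l17839 : Lb := (@Lb.d (nat_lit 137) (nat_lit 521) (nat_lit 0) (@Lb.g g8 (@Lb.g g5 (@Lb.r r423 (@Lb.r r2178 (@Lb.r r1620 (@Lb.d (nat_lit 406) (nat_lit 98) (nat_lit 681) (@Lb.fm (nat_lit 3) t124))))))))
noncomputable def l17840 : Lb := (@Lb.r r323 (@Lb.d (nat_lit 0) (nat_lit 649) (nat_lit 10) (@Lb.g g5 (@Lb.g g10 (@Lb.r r363 (@Lb.r r360 (@Lb.r r582 (@Lb.d (nat_lit 146) (nat_lit 165) (nat_lit 544) (@Lb.fm (nat_lit 3) t1027)))))))))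
noncomputable def l17841 : Lb := (@Lb.d (nat_lit 0) (nat_lit 258) (nat_lit 0) (@Lb.g g9 (@Lb.r r2214 (@Lb.r r1368 (@Lb.r r2597 (@Lb.r r2663 (@Lb.d (nat_lit 0) (nat_lit 128) (nat_lit 85) (@Lb.t (@Lb.fp (nat_lit 3) t2518)))))))))
noncomputable def l17842 : Lb := (@Lb.d (nat_lit 2) (nat_lit 2) (nat_lit 137) (@Lb.g g8 (@Lb.g g9 (@Lb.g g10 (@Lb.g g11 (@Lb.r r1706 (@Lb.r r676 (@Lb.r r551 (@Lb.r r1557 (@Lb.r r1060 (@Lb.d (nat_lit 644) (nat_lit 64) (nat_lit 330) (@Lb.fp (nat_lit 9) t284))))))))))))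
noncomputable def l17843 : Lb := (@Lb.d (nat_lit 0) (nat_lit 280) (nat_lit 102) (@Lb.r r593 (@Lb.r r347 (@Lb.r r328 (@Lb.g g6 (@Lb.g g5 (@Lb.d (nat_lit 16) (nat_lit 2) (nat_lit 2) (@Lb.fp (nat_lit 3) t130))))))))
noncomputable def l17844 : Lb := (@Lb.d (nat_lit 577) (nat_lit 514) (nat_lit 73) (@Lb.r r549 (@Lb.r r344 (@Lb.r r2727 (@Lb.g g10 (@Lb.g g5 (@Lb.d (nat_lit 32) (nat_lit 5) (nat_lit 18) (@Lb.r r403 (@Lb.fm (nat_lit 3) t795)))))))))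
noncomputable def l17845 : Lb := (@Lb.d (nat_lit 346) (nat_lit 608) (nat_lit 161) (@Lb.r r1092 (@Lb.r r2405 (@Lb.r r1114 (@Lb.r r2579 (@Lb.g g6 (@Lb.g g5 (@Lb.g g4 (@Lb.d (nat_lit 24) (nat_lit 17) (nat_lit 1) (@Lb.t (@Lb.fp (nat_lit 9) t3602)))))))))))
noncomputable def l17846 : Lb := (@Lb.d (nat_lit 2) (nat_lit 18) (nat_lit 74) (@Lb.r r260 (@Lb.r r161 (@Lb.r r267 (@Lb.r r404 (@Lb.g g7 (@Lb.g g6 (@Lb.g g5 (@Lb.g g4 (@Lb.d (nat_lit 41) (nat_lit 8) (nat_lit 64) (@Lb.fm (nat_lit 9) t983)))))))))))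
noncomputable def l17847 : Lb := (@Lb.r r21 (@Lb.d (nat_lit 2) (nat_lit 520) (nat_lit 130) (@Lb.g g8 (@Lb.g g10 (@Lb.g g11 (@Lb.r r353 (@Lb.r r667 (@Lb.r r664 (@Lb.r r602 (@Lb.d (nat_lit 105) (nat_lit 37) (nat_lit 128) (@Lb.t (@Lb.fp (nat_lit 9) t2))))))))))))
noncomputable def l17848 : Lb := (@Lb.d (nat_lit 0) (nat_lit 0) (nat_lit 64) (@Lb.g g10 (@Lb.g g7 (@Lb.r r402 (@Lb.r r101 (@Lb.r r24 (@Lb.d (nat_lit 128) (nat_lit 80) (nat_lit 320) (@Lb.fm (nat_lit 3) t2244))))))))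
noncomputable def l17849 : Lb := (@Lb.r r21 (@Lb.r r323 (@Lb.d (nat_lit 24) (nat_lit 0) (nat_lit 0) (@Lb.g g8 (@Lb.g g10 (@Lb.r r619 (@Lb.r r1109 (@Lb.r r2474 (@Lb.r r1320 (@Lb.d (nat_lit 646) (nat_lit 34) (nat_lit 402) (@Lb.fp (nat_lit 3) t151)))))))))))
noncomputable def l17850 : Lb := (@Lb.d (nat_lit 134) (nat_lit 512) (nat_lit 130) (@Lb.g g8 (@Lb.g g9 (@Lb.g g10 (@Lb.g g11 (@Lb.r r2459 (@Lb.r r1177 (@Lb.r r1626 (@Lb.r r1604 (@Lb.d (nat_lit 152) (nat_lit 137) (nat_lit 580) (@Lb.fp (nat_lit 9) t1152)))))))))))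
noncomputable def l17851 : Lb := (@Lb.d (nat_lit 37) (nat_lit 256) (nat_lit 129) (@Lb.g g8 (@Lb.g g9 (@Lb.g g10 (@Lb.g g11 (@Lb.r r427 (@Lb.r r420 (@Lb.r r1126 (@Lb.r r97 (@Lb.r r36 (@Lb.d (nat_lit 265) (nat_lit 130) (nat_lit 666) (@Lb.fm (nat_lit 9) t394))))))))))))
noncomputable def l17852 : Lb := (@Lb.r r89 (@Lb.d (nat_lit 516) (nat_lit 264) (nat_lit 130) (@Lb.g g8 (@Lb.g g10 (@Lb.g g11 (@Lb.r r2443 (@Lb.r r2149 (@Lb.r r2458 (@Lb.d (nat_lit 153) (nat_lit 149) (nat_lit 258) (@Lb.t (@Lb.fm (nat_lit 9) t981)))))))))))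
noncomputable def l17853 : Lb := (@Lb.r r21 (@Lb.d (nat_lit 2) (nat_lit 256) (nat_lit 2) (@Lb.g g8 (@Lb.g g10 (@Lb.g g11 (@Lb.r r651 (@Lb.r r2634 (@Lb.r r2596 (@Lb.r r37 (@Lb.d (nat_lit 5) (nat_lit 104) (nat_lit 417) (@Lb.t (@Lb.fm (nat_lit 9) t820))))))))))))
noncomputable def l17854 : Lb := (@Lb.r r21 (@Lb.d (nat_lit 2) (nat_lit 512) (nat_lit 137) (@Lb.g g8 (@Lb.g g10 (@Lb.g g11 (@Lb.r r651 (@Lb.r r2634 (@Lb.r r2596 (@Lb.r r37 (@Lb.d (nat_lit 5) (nat_lit 104) (nat_lit 417) (@Lb.t (@Lb.fm (nat_lit 9) t820))))))))))))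
noncomputable def l17855 : Lb := (@Lb.d (nat_lit 0) (nat_lit 0) (nat_lit 66) (@Lb.g g10 (@Lb.g g7 (@Lb.r r386 (@Lb.r r149 (@Lb.d (nat_lit 17) (nat_lit 10) (nat_lit 9) (@Lb.fm (nat_lit 3) t285)))))))
noncomputable def l17856 : Lb := (@Lb.d (nat_lit 680) (nat_lit 338) (nat_lit 645) (@Lb.r r2584 (@Lb.r r2178 (@Lb.r r2587 (@Lb.r r401 (@Lb.g g7 (@Lb.g g4 (@Lb.d (nat_lit 6) (nat_lit 0) (nat_lit 64) (@Lb.fp (nat_lit 3) t296)))))))))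
noncomputable def l17857 : Lb := (@Lb.d (nat_lit 132) (nat_lit 256) (nat_lit 130) (@Lb.g g8 (@Lb.g g9 (@Lb.g g10 (@Lb.g g11 (@Lb.r r2459 (@Lb.r r1177 (@Lb.r r1626 (@Lb.r r1604 (@Lb.d (nat_lit 152) (nat_lit 137) (nat_lit 580) (@Lb.fp (nat_lit 9) t1152)))))))))))
noncomputable def l17858 : Lb := (@Lb.r r2331 (@Lb.r r2138 (@Lb.r r41 (@Lb.d (nat_lit 264) (nat_lit 513) (nat_lit 0) (@Lb.fm (nat_lit 1) t710)))))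
noncomputable def l17859 : Lb := (@Lb.d (nat_lit 0) (nat_lit 520) (nat_lit 130) (@Lb.g g10 (@Lb.g g11 (@Lb.r r387 (@Lb.d (nat_lit 608) (nat_lit 2) (nat_lit 660) (@Lb.fm (nat_lit 3) t3603))))))
noncomputable def l17860 : Lb := (@Lb.d (nat_lit 0) (nat_lit 264) (nat_lit 130) (@Lb.g g10 (@Lb.g g11 (@Lb.r r387 (@Lb.d (nat_lit 0) (nat_lit 2) (nat_lit 132) (@Lb.fm (nat_lit 3) t369))))))
noncomputable def l17861 : Lb := (@Lb.d (nat_lit 0) (nat_lit 516) (nat_lit 6) (@Lb.g g10 (@Lb.r r1427 (@Lb.d (nat_lit 0) (nat_lit 98) (nat_lit 598) (@Lb.t (@Lb.fp (nat_lit 3) t697))))))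
noncomputable def l17862 : Lb := (@Lb.r r82 (@Lb.d (nat_lit 4) (nat_lit 529) (nat_lit 0) (@Lb.g g9 (@Lb.g g11 (@Lb.r r2724 (@Lb.r r1110 (@Lb.r r2465 (@Lb.r r2579 (@Lb.d (nat_lit 0) (nat_lit 64) (nat_lit 678) (@Lb.fm (nat_lit 3) t3604))))))))))
noncomputable def l17863 : Lb := (@Lb.d (nat_lit 9) (nat_lit 265) (nat_lit 6) (@Lb.g g8 (@Lb.g g9 (@Lb.g g10 (@Lb.g g11 (@Lb.r r532 (@Lb.r r295 (@Lb.r r357 (@Lb.r r666 (@Lb.r r644 (@Lb.d (nat_lit 10) (nat_lit 1) (nat_lit 137) (@Lb.fp (nat_lit 9) t5))))))))))))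
noncomputable def l17864 : Lb := (@Lb.d (nat_lit 0) (nat_lit 265) (nat_lit 6) (@Lb.g g9 (@Lb.g g10 (@Lb.g g11 (@Lb.r r1443 (@Lb.r r417 (@Lb.r r98 (@Lb.r r8 (@Lb.d (nat_lit 610) (nat_lit 10) (nat_lit 168) (@Lb.t (@Lb.fm (nat_lit 9) t3605)))))))))))
noncomputable def l17865 : Lb := (@Lb.r r386 (@Lb.r r1347 (@Lb.r r578 (@Lb.r r24 (@Lb.r r101 (@Lb.d (nat_lit 666) (nat_lit 272) (nat_lit 273) (@Lb.fm (nat_lit 1) t3606)))))))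
noncomputable def l17866 : Lb := (@Lb.d (nat_lit 2) (nat_lit 1) (nat_lit 0) (@Lb.g g8 (@Lb.g g9 (@Lb.g g11 (@Lb.r r353 (@Lb.r r594 (@Lb.r r2391 (@Lb.r r1624 (@Lb.r r149 (@Lb.d (nat_lit 2) (nat_lit 164) (nat_lit 642) (@Lb.t (@Lb.fm (nat_lit 9) t660))))))))))))
noncomputable def l17867 : Lb := (@Lb.d (nat_lit 2) (nat_lit 521) (nat_lit 130) (@Lb.g g8 (@Lb.g g9 (@Lb.g g10 (@Lb.g g11 (@Lb.r r2730 (@Lb.r r1419 (@Lb.r r1553 (@Lb.r r1416 (@Lb.d (nat_lit 145) (nat_lit 97) (nat_lit 106) (@Lb.fp (nat_lit 9) t876)))))))))))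
noncomputable def l17868 : Lb := (@Lb.r r21 (@Lb.d (nat_lit 33) (nat_lit 8) (nat_lit 161) (@Lb.g g8 (@Lb.g g6 (@Lb.g g11 (@Lb.r r2651 (@Lb.r r145 (@Lb.r r2584 (@Lb.d (nat_lit 85) (nat_lit 168) (nat_lit 417) (@Lb.t (@Lb.fp (nat_lit 9) t3607)))))))))))
noncomputable def l17869 : Lb := (@Lb.d (nat_lit 402) (nat_lit 266) (nat_lit 410) (@Lb.r r1416 (@Lb.r r2631 (@Lb.r r402 (@Lb.r r609 (@Lb.g g8 (@Lb.t (@Lb.fp (nat_lit 3) t3608))))))))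
noncomputable def l17870 : Lb := (@Lb.d (nat_lit 657) (nat_lit 549) (nat_lit 72) (@Lb.r r8 (@Lb.r r101 (@Lb.r r386 (@Lb.r r2395 (@Lb.g g7 (@Lb.g g6 (@Lb.d (nat_lit 0) (nat_lit 0) (nat_lit 65) (@Lb.fp (nat_lit 3) t109)))))))))
noncomputable def l17871 : Lb := (@Lb.r r2069 (@Lb.r r2118 (@Lb.r r2311 (@Lb.d (nat_lit 2) (nat_lit 0) (nat_lit 0) (@Lb.g g8 (@Lb.d (nat_lit 2) (nat_lit 0) (nat_lit 0) (@Lb.t (@Lb.fp (nat_lit 3) t3609))))))))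
noncomputable def l17872 : Lb := (@Lb.d (nat_lit 0) (nat_lit 513) (nat_lit 74) (@Lb.g g9 (@Lb.g g10 (@Lb.g g11 (@Lb.r r2723 (@Lb.r r2709 (@Lb.r r1174 (@Lb.r r8 (@Lb.d (nat_lit 278) (nat_lit 73) (nat_lit 324) (@Lb.t (@Lb.fp (nat_lit 9) t646)))))))))))
noncomputable def l17873 : Lb := (@Lb.d (nat_lit 389) (nat_lit 72) (nat_lit 514) (@Lb.r r8 (@Lb.r r101 (@Lb.r r1434 (@Lb.r r1347 (@Lb.g g7 (@Lb.g g6 (@Lb.d (nat_lit 0) (nat_lit 0) (nat_lit 65) (@Lb.fp (nat_lit 3) t1876)))))))))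
noncomputable def l17874 : Lb := (@Lb.r r20 (@Lb.r r82 (@Lb.d (nat_lit 128) (nat_lit 293) (nat_lit 256) (@Lb.g g9 (@Lb.g g7 (@Lb.r r386 (@Lb.r r1156 (@Lb.d (nat_lit 70) (nat_lit 74) (nat_lit 522) (@Lb.fm (nat_lit 3) t2185)))))))))
noncomputable def l17875 : Lb := (@Lb.d (nat_lit 144) (nat_lit 274) (nat_lit 74) (@Lb.g g8 (@Lb.g g9 (@Lb.g g10 (@Lb.g g11 (@Lb.r r618 (@Lb.r r616 (@Lb.r r2347 (@Lb.r r1321 (@Lb.r r1060 (@Lb.d (nat_lit 394) (nat_lit 146) (nat_lit 90) (@Lb.fp (nat_lit 9) t3009))))))))))))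
noncomputable def l17876 : Lb := (@Lb.r r2069 (@Lb.d (nat_lit 129) (nat_lit 512) (nat_lit 393) (@Lb.g g8 (@Lb.g g10 (@Lb.g g7 (@Lb.r r386 (@Lb.r r2116 (@Lb.d (nat_lit 530) (nat_lit 0) (nat_lit 24) (@Lb.t (@Lb.fm (nat_lit 9) t3609))))))))))
noncomputable def l17877 : Lb := (@Lb.r r21 (@Lb.r r70 (@Lb.r r263 (@Lb.d (nat_lit 658) (nat_lit 0) (nat_lit 0) (@Lb.g g4 (@Lb.r r267 (@Lb.r r402 (@Lb.r r97 (@Lb.d (nat_lit 8) (nat_lit 66) (nat_lit 512) (@Lb.t (@Lb.fm (nat_lit 3) t128)))))))))))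
noncomputable def l17878 : Lb := (@Lb.d (nat_lit 0) (nat_lit 258) (nat_lit 130) (@Lb.g g8 (@Lb.g g9 (@Lb.g g10 (@Lb.g g11 (@Lb.r r1443 (@Lb.r r386 (@Lb.r r2405 (@Lb.r r2584 (@Lb.d (nat_lit 610) (nat_lit 0) (nat_lit 340) (@Lb.fm (nat_lit 9) t3610)))))))))))
noncomputable def l17879 : Lb := (@Lb.d (nat_lit 2) (nat_lit 2) (nat_lit 130) (@Lb.g g8 (@Lb.g g9 (@Lb.g g10 (@Lb.g g11 (@Lb.r r427 (@Lb.r r386 (@Lb.r r104 (@Lb.r r25 (@Lb.d (nat_lit 586) (nat_lit 9) (nat_lit 84) (@Lb.fp (nat_lit 9) t61)))))))))))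
noncomputable def l17880 : Lb := (@Lb.d (nat_lit 1) (nat_lit 2) (nat_lit 130) (@Lb.g g8 (@Lb.g g9 (@Lb.g g10 (@Lb.g g11 (@Lb.r r1443 (@Lb.r r1414 (@Lb.r r1313 (@Lb.r r2648 (@Lb.d (nat_lit 613) (nat_lit 150) (nat_lit 585) (@Lb.fm (nat_lit 9) t3611)))))))))))
noncomputable def l17881 : Lb := (@Lb.r r21 (@Lb.d (nat_lit 145) (nat_lit 256) (nat_lit 74) (@Lb.g g8 (@Lb.g g10 (@Lb.g g11 (@Lb.r r1691 (@Lb.r r409 (@Lb.r r90 (@Lb.r r1156 (@Lb.d (nat_lit 618) (nat_lit 69) (nat_lit 578) (@Lb.t (@Lb.fp (nat_lit 9) t3612))))))))))))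
noncomputable def l17882 : Lb := (@Lb.d (nat_lit 96) (nat_lit 258) (nat_lit 5) (@Lb.g g8 (@Lb.g g9 (@Lb.g g10 (@Lb.g g11 (@Lb.r r2723 (@Lb.r r2453 (@Lb.r r356 (@Lb.r r1130 (@Lb.d (nat_lit 422) (nat_lit 86) (nat_lit 614) (@Lb.fm (nat_lit 9) t1423)))))))))))
noncomputable def l17883 : Lb := (@Lb.d (nat_lit 1) (nat_lit 8) (nat_lit 130) (@Lb.g g8 (@Lb.g g10 (@Lb.g g11 (@Lb.r r353 (@Lb.r r1367 (@Lb.r r1350 (@Lb.r r2648 (@Lb.d (nat_lit 581) (nat_lit 36) (nat_lit 420) (@Lb.t (@Lb.fm (nat_lit 9) t3613)))))))))))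
noncomputable def l17884 : Lb := (@Lb.d (nat_lit 0) (nat_lit 514) (nat_lit 137) (@Lb.g g9 (@Lb.g g10 (@Lb.g g7 (@Lb.r r386 (@Lb.r r97 (@Lb.d (nat_lit 0) (nat_lit 9) (nat_lit 9) (@Lb.t (@Lb.fp (nat_lit 9) t87)))))))))
noncomputable def l17885 : Lb := (@Lb.d (nat_lit 2) (nat_lit 578) (nat_lit 73) (@Lb.g g8 (@Lb.g g9 (@Lb.g g10 (@Lb.g g11 (@Lb.r r2475 (@Lb.r r2440 (@Lb.r r2122 (@Lb.d (nat_lit 536) (nat_lit 5) (nat_lit 137) (@Lb.fm (nat_lit 9) t1242))))))))))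
noncomputable def l17886 : Lb := (@Lb.d (nat_lit 390) (nat_lit 336) (nat_lit 593) (@Lb.r r2584 (@Lb.r r2587 (@Lb.g g7 (@Lb.g g10 (@Lb.g g9 (@Lb.g g4 (@Lb.d (nat_lit 1) (nat_lit 70) (nat_lit 82) (@Lb.fp (nat_lit 9) t3425)))))))))
noncomputable def l17887 : Lb := (@Lb.d (nat_lit 134) (nat_lit 537) (nat_lit 594) (@Lb.r r2584 (@Lb.r r2178 (@Lb.r r2587 (@Lb.r r401 (@Lb.g g7 (@Lb.g g4 (@Lb.d (nat_lit 1) (nat_lit 0) (nat_lit 64) (@Lb.fp (nat_lit 3) t669)))))))))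
noncomputable def l17888 : Lb := (@Lb.d (nat_lit 2) (nat_lit 514) (nat_lit 129) (@Lb.g g8 (@Lb.g g9 (@Lb.g g10 (@Lb.g g11 (@Lb.r r1287 (@Lb.r r580 (@Lb.r r1130 (@Lb.r r1129 (@Lb.r r2084 (@Lb.d (nat_lit 416) (nat_lit 1) (nat_lit 417) (@Lb.fm (nat_lit 9) t396))))))))))))
noncomputable def l17889 : Lb := (@Lb.r r82 (@Lb.d (nat_lit 8) (nat_lit 0) (nat_lit 64) (@Lb.g g9 (@Lb.g g7 (@Lb.r r1620 (@Lb.r r1690 (@Lb.r r2385 (@Lb.d (nat_lit 0) (nat_lit 36) (nat_lit 358) (@Lb.fm (nat_lit 3) t4)))))))))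
noncomputable def l17890 : Lb := (@Lb.d (nat_lit 16) (nat_lit 521) (nat_lit 130) (@Lb.g g8 (@Lb.g g9 (@Lb.g g10 (@Lb.g g11 (@Lb.r r427 (@Lb.r r388 (@Lb.r r86 (@Lb.r r153 (@Lb.r r132 (@Lb.d (nat_lit 100) (nat_lit 32) (nat_lit 18) (@Lb.fp (nat_lit 9) t573))))))))))))
noncomputable def l17891 : Lb := (@Lb.d (nat_lit 2) (nat_lit 33) (nat_lit 66) (@Lb.g g8 (@Lb.g g9 (@Lb.g g10 (@Lb.g g11 (@Lb.r r1706 (@Lb.r r1700 (@Lb.r r1575 (@Lb.r r2577 (@Lb.d (nat_lit 70) (nat_lit 96) (nat_lit 74) (@Lb.fp (nat_lit 9) t278)))))))))))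
noncomputable def l17892 : Lb := (@Lb.d (nat_lit 297) (nat_lit 516) (nat_lit 84) (@Lb.r r260 (@Lb.r r1317 (@Lb.r r347 (@Lb.r r276 (@Lb.g g7 (@Lb.g g6 (@Lb.g g5 (@Lb.g g4 (@Lb.d (nat_lit 9) (nat_lit 17) (nat_lit 98) (@Lb.fm (nat_lit 9) t3614)))))))))))
noncomputable def l17893 : Lb := (@Lb.d (nat_lit 129) (nat_lit 2) (nat_lit 66) (@Lb.g g8 (@Lb.g g9 (@Lb.g g10 (@Lb.g g11 (@Lb.r r2455 (@Lb.r r1177 (@Lb.r r1626 (@Lb.r r1604 (@Lb.d (nat_lit 161) (nat_lit 33) (nat_lit 576) (@Lb.fp (nat_lit 9) t3615)))))))))))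
noncomputable def l17894 : Lb := (@Lb.r r263 (@Lb.d (nat_lit 2) (nat_lit 258) (nat_lit 2) (@Lb.g g8 (@Lb.g g9 (@Lb.g g10 (@Lb.r r2666 (@Lb.r r2627 (@Lb.r r2337 (@Lb.r r1048 (@Lb.d (nat_lit 105) (nat_lit 21) (nat_lit 336) (@Lb.t (@Lb.fp (nat_lit 9) t3616))))))))))))
noncomputable def l17895 : Lb := (@Lb.g g5 (@Lb.g g6 (@Lb.r r24 (@Lb.r r101 (@Lb.r r402 (@Lb.d (nat_lit 0) (nat_lit 256) (nat_lit 66) (@Lb.fp (nat_lit 3) t311)))))))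
noncomputable def l17896 : Lb := (@Lb.d (nat_lit 8) (nat_lit 258) (nat_lit 130) (@Lb.g g9 (@Lb.g g10 (@Lb.g g11 (@Lb.r r586 (@Lb.r r584 (@Lb.r r299 (@Lb.r r409 (@Lb.d (nat_lit 9) (nat_lit 68) (nat_lit 17) (@Lb.t (@Lb.fp (nat_lit 9) t1022)))))))))))
noncomputable def l17897 : Lb := (@Lb.d (nat_lit 0) (nat_lit 512) (nat_lit 128) (@Lb.g g9 (@Lb.g g11 (@Lb.r r2471 (@Lb.r r1096 (@Lb.r r2646 (@Lb.r r409 (@Lb.d (nat_lit 514) (nat_lit 10) (nat_lit 18) (@Lb.fp (nat_lit 3) t1456)))))))))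
noncomputable def l17898 : Lb := (@Lb.d (nat_lit 2) (nat_lit 258) (nat_lit 2) (@Lb.g g8 (@Lb.g g9 (@Lb.g g10 (@Lb.g g11 (@Lb.r r2699 (@Lb.r r664 (@Lb.r r154 (@Lb.r r21 (@Lb.r r36 (@Lb.d (nat_lit 513) (nat_lit 66) (nat_lit 170) (@Lb.fm (nat_lit 9) t386))))))))))))
noncomputable def l17899 : Lb := (@Lb.d (nat_lit 97) (nat_lit 546) (nat_lit 8) (@Lb.g g8 (@Lb.g g9 (@Lb.g g6 (@Lb.g g11 (@Lb.r r529 (@Lb.r r407 (@Lb.r r1604 (@Lb.d (nat_lit 408) (nat_lit 130) (nat_lit 648) (@Lb.fm (nat_lit 9) t3617))))))))))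
noncomputable def l17900 : Lb := (@Lb.d (nat_lit 0) (nat_lit 0) (nat_lit 128) (@Lb.g g9 (@Lb.g g11 (@Lb.r r2471 (@Lb.r r1096 (@Lb.r r2646 (@Lb.r r409 (@Lb.d (nat_lit 514) (nat_lit 5) (nat_lit 17) (@Lb.fp (nat_lit 3) t1456)))))))))
noncomputable def l17901 : Lb := (@Lb.d (nat_lit 2) (nat_lit 258) (nat_lit 2) (@Lb.g g8 (@Lb.g g9 (@Lb.g g10 (@Lb.g g11 (@Lb.r r1706 (@Lb.r r2089 (@Lb.r r648 (@Lb.r r1691 (@Lb.r r2564 (@Lb.d (nat_lit 1) (nat_lit 162) (nat_lit 576) (@Lb.fp (nat_lit 9) t1344))))))))))))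
noncomputable def l17902 : Lb := (@Lb.d (nat_lit 672) (nat_lit 528) (nat_lit 164) (@Lb.r r1158 (@Lb.r r1299 (@Lb.r r677 (@Lb.g g7 (@Lb.g g6 (@Lb.g g5 (@Lb.g g8 (@Lb.d (nat_lit 330) (nat_lit 5) (nat_lit 66) (@Lb.fm (nat_lit 9) t1185))))))))))
noncomputable def l17903 : Lb := (@Lb.d (nat_lit 2) (nat_lit 258) (nat_lit 130) (@Lb.g g8 (@Lb.g g9 (@Lb.g g10 (@Lb.g g11 (@Lb.r r427 (@Lb.r r386 (@Lb.r r104 (@Lb.r r25 (@Lb.d (nat_lit 586) (nat_lit 4) (nat_lit 86) (@Lb.fp (nat_lit 9) t61)))))))))))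
noncomputable def l17904 : Lb := (@Lb.d (nat_lit 5) (nat_lit 512) (nat_lit 0) (@Lb.g g4 (@Lb.r r2311 (@Lb.d (nat_lit 257) (nat_lit 1) (nat_lit 64) (@Lb.t (@Lb.fm (nat_lit 3) t1165))))))
noncomputable def l17905 : Lb := (@Lb.d (nat_lit 128) (nat_lit 256) (nat_lit 644) (@Lb.g g9 (@Lb.g g11 (@Lb.r r2178 (@Lb.r r1557 (@Lb.r r1416 (@Lb.d (nat_lit 537) (nat_lit 2) (nat_lit 128) (@Lb.fm (nat_lit 3) t1063))))))))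
noncomputable def l17906 : Lb := (@Lb.r r82 (@Lb.d (nat_lit 0) (nat_lit 529) (nat_lit 0) (@Lb.g g5 (@Lb.g g11 (@Lb.r r2651 (@Lb.r r386 (@Lb.r r24 (@Lb.d (nat_lit 41) (nat_lit 5) (nat_lit 18) (@Lb.fm (nat_lit 3) t742)))))))))
noncomputable def l17907 : Lb := (@Lb.r r82 (@Lb.d (nat_lit 10) (nat_lit 337) (nat_lit 0) (@Lb.g g8 (@Lb.g g5 (@Lb.g g11 (@Lb.r r1619 (@Lb.r r386 (@Lb.r r1096 (@Lb.d (nat_lit 546) (nat_lit 1) (nat_lit 33) (@Lb.t (@Lb.fm (nat_lit 9) t1205)))))))))))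
noncomputable def l17908 : Lb := (@Lb.d (nat_lit 34) (nat_lit 262) (nat_lit 128) (@Lb.g g8 (@Lb.g g9 (@Lb.g g10 (@Lb.g g11 (@Lb.r r1435 (@Lb.r r145 (@Lb.r r2646 (@Lb.r r2180 (@Lb.d (nat_lit 161) (nat_lit 104) (nat_lit 97) (@Lb.fp (nat_lit 9) t535)))))))))))
noncomputable def l17909 : Lb := (@Lb.r r424 (@Lb.r r2473 (@Lb.r r1450 (@Lb.r r343 (@Lb.r r676 (@Lb.d (nat_lit 0) (nat_lit 266) (nat_lit 2) (@Lb.fm (nat_lit 1) t322)))))))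
noncomputable def l17910 : Lb := (@Lb.r r21 (@Lb.r r70 (@Lb.r r263 (@Lb.d (nat_lit 1) (nat_lit 512) (nat_lit 0) (@Lb.g g4 (@Lb.r r2631 (@Lb.r r402 (@Lb.r r25 (@Lb.d (nat_lit 24) (nat_lit 0) (nat_lit 16) (@Lb.t (@Lb.fm (nat_lit 3) t2350)))))))))))
noncomputable def l17911 : Lb := (@Lb.d (nat_lit 10) (nat_lit 322) (nat_lit 128) (@Lb.r r101 (@Lb.r r1426 (@Lb.g g7 (@Lb.g g5 (@Lb.d (nat_lit 0) (nat_lit 0) (nat_lit 68) (@Lb.r r578 (@Lb.fm (nat_lit 3) t482))))))))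
noncomputable def l17912 : Lb := (@Lb.d (nat_lit 153) (nat_lit 1) (nat_lit 128) (@Lb.g g8 (@Lb.g g9 (@Lb.g g10 (@Lb.g g11 (@Lb.r r1706 (@Lb.r r1411 (@Lb.r r1188 (@Lb.r r37 (@Lb.d (nat_lit 361) (nat_lit 73) (nat_lit 665) (@Lb.fp (nat_lit 9) t283)))))))))))
noncomputable def l17913 : Lb := (@Lb.d (nat_lit 18) (nat_lit 384) (nat_lit 145) (@Lb.r r2085 (@Lb.r r1112 (@Lb.r r422 (@Lb.g g11 (@Lb.g g5 (@Lb.d (nat_lit 4) (nat_lit 18) (nat_lit 264) (@Lb.r r578 (@Lb.fm (nat_lit 3) t3032)))))))))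
noncomputable def l17914 : Lb := (@Lb.d (nat_lit 26) (nat_lit 265) (nat_lit 73) (@Lb.g g8 (@Lb.g g9 (@Lb.g g10 (@Lb.g g11 (@Lb.r r2201 (@Lb.r r644 (@Lb.r r295 (@Lb.r r1170 (@Lb.r r516 (@Lb.d (nat_lit 5) (nat_lit 72) (nat_lit 162) (@Lb.fm (nat_lit 9) t979))))))))))))
noncomputable def l17915 : Lb := (@Lb.d (nat_lit 0) (nat_lit 512) (nat_lit 128) (@Lb.g g11 (@Lb.r r2145 (@Lb.r r658 (@Lb.r r387 (@Lb.r r2564 (@Lb.d (nat_lit 0) (nat_lit 164) (nat_lit 328) (@Lb.t (@Lb.fp (nat_lit 3) t242)))))))))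
noncomputable def l17916 : Lb := (@Lb.d (nat_lit 646) (nat_lit 593) (nat_lit 261) (@Lb.r r2587 (@Lb.r r2712 (@Lb.r r2714 (@Lb.r r353 (@Lb.g g7 (@Lb.g g6 (@Lb.g g4 (@Lb.d (nat_lit 1) (nat_lit 16) (nat_lit 65) (@Lb.t (@Lb.fp (nat_lit 9) t2)))))))))))
noncomputable def l17917 : Lb := (@Lb.d (nat_lit 2) (nat_lit 514) (nat_lit 73) (@Lb.g g8 (@Lb.g g9 (@Lb.g g10 (@Lb.g g11 (@Lb.r r660 (@Lb.r r614 (@Lb.r r1637 (@Lb.r r1383 (@Lb.r r2692 (@Lb.d (nat_lit 5) (nat_lit 128) (nat_lit 74) (@Lb.fm (nat_lit 9) t2))))))))))))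
noncomputable def l17918 : Lb := (@Lb.d (nat_lit 6) (nat_lit 260) (nat_lit 64) (@Lb.r r609 (@Lb.r r619 (@Lb.r r584 (@Lb.r r326 (@Lb.g g7 (@Lb.g g6 (@Lb.g g5 (@Lb.d (nat_lit 4) (nat_lit 8) (nat_lit 64) (@Lb.t (@Lb.fm (nat_lit 9) t151)))))))))))
noncomputable def l17919 : Lb := (@Lb.d (nat_lit 106) (nat_lit 165) (nat_lit 32) (@Lb.r r1425 (@Lb.r r2470 (@Lb.r r328 (@Lb.r r1367 (@Lb.g g7 (@Lb.g g6 (@Lb.g g5 (@Lb.d (nat_lit 0) (nat_lit 4) (nat_lit 65) (@Lb.t (@Lb.fp (nat_lit 9) t1364)))))))))))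
noncomputable def l17920 : Lb := (@Lb.d (nat_lit 617) (nat_lit 262) (nat_lit 592) (@Lb.r r2661 (@Lb.r r1304 (@Lb.r r2403 (@Lb.r r2694 (@Lb.g g7 (@Lb.g g6 (@Lb.g g5 (@Lb.d (nat_lit 4) (nat_lit 6) (nat_lit 134) (@Lb.t (@Lb.fm (nat_lit 9) t795)))))))))))
noncomputable def l17921 : Lb := (@Lb.d (nat_lit 529) (nat_lit 580) (nat_lit 521) (@Lb.r r598 (@Lb.r r388 (@Lb.r r587 (@Lb.g g6 (@Lb.g g9 (@Lb.d (nat_lit 16) (nat_lit 134) (nat_lit 6) (@Lb.fm (nat_lit 3) t2803))))))))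
noncomputable def l17922 : Lb := (@Lb.d (nat_lit 0) (nat_lit 0) (nat_lit 66) (@Lb.g g9 (@Lb.g g10 (@Lb.g g7 (@Lb.r r386 (@Lb.r r101 (@Lb.r r24 (@Lb.d (nat_lit 32) (nat_lit 80) (nat_lit 265) (@Lb.t (@Lb.fm (nat_lit 9) t1926))))))))))
noncomputable def l17923 : Lb := (@Lb.r r263 (@Lb.d (nat_lit 38) (nat_lit 288) (nat_lit 1) (@Lb.g g8 (@Lb.g g9 (@Lb.g g10 (@Lb.r r1675 (@Lb.r r1194 (@Lb.r r1384 (@Lb.r r1369 (@Lb.d (nat_lit 584) (nat_lit 154) (nat_lit 337) (@Lb.t (@Lb.fp (nat_lit 9) t3284))))))))))))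
noncomputable def l17924 : Lb := (@Lb.d (nat_lit 9) (nat_lit 0) (nat_lit 128) (@Lb.g g8 (@Lb.g g11 (@Lb.r r593 (@Lb.r r2587 (@Lb.r r2178 (@Lb.r r2584 (@Lb.d (nat_lit 345) (nat_lit 162) (nat_lit 384) (@Lb.fp (nat_lit 3) t417)))))))))
noncomputable def l17925 : Lb := (@Lb.d (nat_lit 1) (nat_lit 514) (nat_lit 137) (@Lb.g g8 (@Lb.g g9 (@Lb.g g10 (@Lb.g g11 (@Lb.r r1675 (@Lb.r r145 (@Lb.r r594 (@Lb.r r1169 (@Lb.r r36 (@Lb.d (nat_lit 290) (nat_lit 166) (nat_lit 586) (@Lb.fm (nat_lit 9) t445))))))))))))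
noncomputable def l17926 : Lb := (@Lb.r r82 (@Lb.d (nat_lit 1) (nat_lit 33) (nat_lit 128) (@Lb.g g8 (@Lb.g g9 (@Lb.g g11 (@Lb.r r1636 (@Lb.r r1639 (@Lb.r r2450 (@Lb.r r1625 (@Lb.d (nat_lit 388) (nat_lit 42) (nat_lit 409) (@Lb.t (@Lb.fm (nat_lit 9) t4))))))))))))
noncomputable def l17927 : Lb := (@Lb.d (nat_lit 0) (nat_lit 258) (nat_lit 73) (@Lb.g g4 (@Lb.g g9 (@Lb.g g10 (@Lb.g g11 (@Lb.r r2691 (@Lb.r r145 (@Lb.r r594 (@Lb.r r1169 (@Lb.d (nat_lit 1) (nat_lit 160) (nat_lit 601) (@Lb.fp (nat_lit 9) t247)))))))))))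
noncomputable def l17928 : Lb := (@Lb.d (nat_lit 640) (nat_lit 258) (nat_lit 130) (@Lb.g g4 (@Lb.g g9 (@Lb.g g10 (@Lb.g g11 (@Lb.r r2214 (@Lb.r r545 (@Lb.r r611 (@Lb.r r2577 (@Lb.d (nat_lit 152) (nat_lit 74) (nat_lit 361) (@Lb.fp (nat_lit 9) t1758)))))))))))
noncomputable def l17929 : Lb := (@Lb.d (nat_lit 0) (nat_lit 258) (nat_lit 66) (@Lb.g g9 (@Lb.g g10 (@Lb.g g7 (@Lb.r r386 (@Lb.r r97 (@Lb.r r24 (@Lb.d (nat_lit 10) (nat_lit 89) (nat_lit 329) (@Lb.t (@Lb.fm (nat_lit 9) t845))))))))))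
noncomputable def l17930 : Lb := (@Lb.r r70 (@Lb.r r263 (@Lb.d (nat_lit 0) (nat_lit 578) (nat_lit 0) (@Lb.g g8 (@Lb.g g9 (@Lb.r r2347 (@Lb.r r2154 (@Lb.r r2084 (@Lb.d (nat_lit 2) (nat_lit 73) (nat_lit 2) (@Lb.fm (nat_lit 3) t3618))))))))))
noncomputable def l17931 : Lb := (@Lb.d (nat_lit 546) (nat_lit 9) (nat_lit 2) (@Lb.r r70 (@Lb.r r263 (@Lb.g g8 (@Lb.d (nat_lit 281) (nat_lit 0) (nat_lit 0) (@Lb.r r267 (@Lb.r r74 (@Lb.t (@Lb.fp (nat_lit 3) t3619)))))))))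
noncomputable def l17932 : Lb := (@Lb.r r82 (@Lb.r r275 (@Lb.d (nat_lit 10) (nat_lit 10) (nat_lit 0) (@Lb.g g8 (@Lb.g g9 (@Lb.r r2315 (@Lb.r r2122 (@Lb.r r2152 (@Lb.r r105 (@Lb.d (nat_lit 552) (nat_lit 137) (nat_lit 2) (@Lb.fm (nat_lit 3) t2867)))))))))))
noncomputable def l17933 : Lb := (@Lb.d (nat_lit 2) (nat_lit 0) (nat_lit 0) (@Lb.g g8 (@Lb.r r2315 (@Lb.r r2122 (@Lb.r r2073 (@Lb.d (nat_lit 2) (nat_lit 0) (nat_lit 0) (@Lb.t (@Lb.fp (nat_lit 3) t1155))))))))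
noncomputable def l17934 : Lb := (@Lb.r r70 (@Lb.d (nat_lit 0) (nat_lit 322) (nat_lit 128) (@Lb.g g8 (@Lb.g g9 (@Lb.g g11 (@Lb.r r1623 (@Lb.r r2730 (@Lb.r r2660 (@Lb.d (nat_lit 2) (nat_lit 85) (nat_lit 422) (@Lb.t (@Lb.fm (nat_lit 9) t3618)))))))))))
noncomputable def l17935 : Lb := (@Lb.d (nat_lit 2) (nat_lit 516) (nat_lit 0) (@Lb.g g8 (@Lb.g g9 (@Lb.g g10 (@Lb.g g11 (@Lb.r r683 (@Lb.r r2666 (@Lb.r r25 (@Lb.d (nat_lit 2) (nat_lit 90) (nat_lit 537) (@Lb.fm (nat_lit 9) t2985))))))))))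
noncomputable def l17936 : Lb := (@Lb.d (nat_lit 1) (nat_lit 261) (nat_lit 0) (@Lb.g g4 (@Lb.g g5 (@Lb.d (nat_lit 2) (nat_lit 0) (nat_lit 1) (@Lb.fm (nat_lit 3) t87)))))
noncomputable def l17937 : Lb := (@Lb.r r21 (@Lb.d (nat_lit 8) (nat_lit 0) (nat_lit 2) (@Lb.g g8 (@Lb.g g10 (@Lb.r r667 (@Lb.r r2405 (@Lb.r r1178 (@Lb.r r1156 (@Lb.d (nat_lit 346) (nat_lit 65) (nat_lit 337) (@Lb.fp (nat_lit 3) t284))))))))))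
noncomputable def l17938 : Lb := (@Lb.d (nat_lit 8) (nat_lit 2) (nat_lit 73) (@Lb.g g9 (@Lb.g g10 (@Lb.g g11 (@Lb.r r2726 (@Lb.r r328 (@Lb.r r535 (@Lb.r r289 (@Lb.d (nat_lit 640) (nat_lit 154) (nat_lit 66) (@Lb.t (@Lb.fm (nat_lit 9) t1115)))))))))))
noncomputable def l17939 : Lb := (@Lb.d (nat_lit 385) (nat_lit 69) (nat_lit 26) (@Lb.r r2325 (@Lb.r r598 (@Lb.r r683 (@Lb.g g7 (@Lb.g g6 (@Lb.g g5 (@Lb.g g4 (@Lb.d (nat_lit 1) (nat_lit 25) (nat_lit 133) (@Lb.fm (nat_lit 9) t309))))))))))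
noncomputable def l17940 : Lb := (@Lb.d (nat_lit 256) (nat_lit 512) (nat_lit 410) (@Lb.r r402 (@Lb.r r101 (@Lb.g g8 (@Lb.t (@Lb.fp (nat_lit 3) t1615))))))
noncomputable def l17941 : Lb := (@Lb.r r21 (@Lb.r r70 (@Lb.d (nat_lit 658) (nat_lit 256) (nat_lit 0) (@Lb.g g8 (@Lb.r r74 (@Lb.r r25 (@Lb.d (nat_lit 354) (nat_lit 0) (nat_lit 0) (@Lb.t (@Lb.fp (nat_lit 3) t3474)))))))))
noncomputable def l17942 : Lb := (@Lb.d (nat_lit 2) (nat_lit 2) (nat_lit 130) (@Lb.g g8 (@Lb.g g9 (@Lb.g g10 (@Lb.g g11 (@Lb.r r660 (@Lb.r r614 (@Lb.r r1637 (@Lb.r r1383 (@Lb.r r2692 (@Lb.d (nat_lit 10) (nat_lit 129) (nat_lit 74) (@Lb.fm (nat_lit 9) t2))))))))))))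
noncomputable def l17943 : Lb := (@Lb.r r21 (@Lb.d (nat_lit 10) (nat_lit 8) (nat_lit 130) (@Lb.g g8 (@Lb.g g10 (@Lb.g g11 (@Lb.r r427 (@Lb.r r533 (@Lb.r r360 (@Lb.r r390 (@Lb.d (nat_lit 105) (nat_lit 90) (nat_lit 393) (@Lb.t (@Lb.fm (nat_lit 9) t119))))))))))))
noncomputable def l17944 : Lb := (@Lb.d (nat_lit 2) (nat_lit 258) (nat_lit 137) (@Lb.g g8 (@Lb.g g9 (@Lb.g g10 (@Lb.g g11 (@Lb.r r683 (@Lb.r r2666 (@Lb.r r25 (@Lb.d (nat_lit 2) (nat_lit 90) (nat_lit 537) (@Lb.fm (nat_lit 9) t591))))))))))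
noncomputable def l17945 : Lb := (@Lb.d (nat_lit 273) (nat_lit 89) (nat_lit 356) (@Lb.r r2457 (@Lb.r r2454 (@Lb.r r1635 (@Lb.g g7 (@Lb.g g5 (@Lb.g g4 (@Lb.d (nat_lit 0) (nat_lit 16) (nat_lit 128) (@Lb.r r98 (@Lb.t (@Lb.fp (nat_lit 9) t3620)))))))))))
noncomputable def l17946 : Lb := (@Lb.d (nat_lit 0) (nat_lit 0) (nat_lit 128) (@Lb.g g10 (@Lb.g g11 (@Lb.r r387 (@Lb.r r402 (@Lb.r r101 (@Lb.d (nat_lit 277) (nat_lit 9) (nat_lit 32) (@Lb.fm (nat_lit 3) t2158))))))))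
noncomputable def l17947 : Lb := (@Lb.r r21 (@Lb.d (nat_lit 17) (nat_lit 512) (nat_lit 128) (@Lb.g g8 (@Lb.g g10 (@Lb.g g11 (@Lb.r r647 (@Lb.r r402 (@Lb.r r97 (@Lb.r r548 (@Lb.d (nat_lit 674) (nat_lit 18) (nat_lit 160) (@Lb.t (@Lb.fp (nat_lit 9) t3621))))))))))))
noncomputable def l17948 : Lb := (@Lb.d (nat_lit 72) (nat_lit 601) (nat_lit 356) (@Lb.r r2453 (@Lb.r r2450 (@Lb.r r1639 (@Lb.g g7 (@Lb.g g5 (@Lb.g g8 (@Lb.d (nat_lit 0) (nat_lit 18) (nat_lit 128) (@Lb.r r98 (@Lb.t (@Lb.fm (nat_lit 9) t3622)))))))))))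
noncomputable def l17949 : Lb := (@Lb.r r21 (@Lb.d (nat_lit 146) (nat_lit 0) (nat_lit 128) (@Lb.g g8 (@Lb.g g10 (@Lb.g g11 (@Lb.r r2395 (@Lb.r r402 (@Lb.r r97 (@Lb.r r1604 (@Lb.d (nat_lit 676) (nat_lit 72) (nat_lit 682) (@Lb.t (@Lb.fm (nat_lit 9) t3623))))))))))))
noncomputable def l17950 : Lb := (@Lb.d (nat_lit 68) (nat_lit 544) (nat_lit 130) (@Lb.g g8 (@Lb.g g9 (@Lb.g g10 (@Lb.g g11 (@Lb.r r2727 (@Lb.r r340 (@Lb.r r2474 (@Lb.r r2393 (@Lb.d (nat_lit 138) (nat_lit 152) (nat_lit 74) (@Lb.fp (nat_lit 9) t3624)))))))))))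
noncomputable def l17951 : Lb := (@Lb.d (nat_lit 4) (nat_lit 1) (nat_lit 130) (@Lb.g g9 (@Lb.g g10 (@Lb.g g11 (@Lb.r r614 (@Lb.r r404 (@Lb.r r1371 (@Lb.r r2705 (@Lb.d (nat_lit 2) (nat_lit 137) (nat_lit 662) (@Lb.t (@Lb.fm (nat_lit 9) t71)))))))))))
noncomputable def l17952 : Lb := (@Lb.d (nat_lit 2) (nat_lit 514) (nat_lit 0) (@Lb.g g8 (@Lb.g g9 (@Lb.r r152 (@Lb.r r21 (@Lb.r r36 (@Lb.d (nat_lit 34) (nat_lit 10) (nat_lit 1) (@Lb.fp (nat_lit 3) t39))))))))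
noncomputable def l17953 : Lb := (@Lb.d (nat_lit 129) (nat_lit 2) (nat_lit 66) (@Lb.g g8 (@Lb.g g9 (@Lb.g g10 (@Lb.g g11 (@Lb.r r2666 (@Lb.r r612 (@Lb.r r1319 (@Lb.r r1045 (@Lb.r r2084 (@Lb.d (nat_lit 9) (nat_lit 33) (nat_lit 549) (@Lb.fp (nat_lit 9) t1444))))))))))))
noncomputable def l17954 : Lb := (@Lb.r r273 (@Lb.r r2595 (@Lb.r r2178 (@Lb.r r529 (@Lb.r r8 (@Lb.d (nat_lit 1) (nat_lit 256) (nat_lit 69) (@Lb.fm (nat_lit 1) t271)))))))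
noncomputable def l17955 : Lb := (@Lb.d (nat_lit 10) (nat_lit 512) (nat_lit 0) (@Lb.g g8 (@Lb.r r101 (@Lb.d (nat_lit 2) (nat_lit 6) (nat_lit 0) (@Lb.t (@Lb.fm (nat_lit 3) t97))))))
noncomputable def l17956 : Lb := (@Lb.d (nat_lit 129) (nat_lit 516) (nat_lit 74) (@Lb.g g8 (@Lb.g g9 (@Lb.g g10 (@Lb.g g11 (@Lb.r r683 (@Lb.r r1634 (@Lb.r r36 (@Lb.r r2069 (@Lb.r r1060 (@Lb.d (nat_lit 610) (nat_lit 134) (nat_lit 8) (@Lb.fm (nat_lit 9) t3625))))))))))))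
noncomputable def l17957 : Lb := (@Lb.d (nat_lit 134) (nat_lit 0) (nat_lit 130) (@Lb.g g8 (@Lb.g g9 (@Lb.g g10 (@Lb.g g11 (@Lb.r r2666 (@Lb.r r612 (@Lb.r r1319 (@Lb.r r405 (@Lb.r r2084 (@Lb.d (nat_lit 617) (nat_lit 130) (nat_lit 170) (@Lb.fp (nat_lit 9) t2805))))))))))))
noncomputable def l17958 : Lb := (@Lb.d (nat_lit 129) (nat_lit 4) (nat_lit 74) (@Lb.g g8 (@Lb.g g9 (@Lb.g g10 (@Lb.g g11 (@Lb.r r683 (@Lb.r r1634 (@Lb.r r36 (@Lb.r r2069 (@Lb.r r1060 (@Lb.d (nat_lit 609) (nat_lit 134) (nat_lit 8) (@Lb.fm (nat_lit 9) t3626))))))))))))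
noncomputable def l17959 : Lb := (@Lb.d (nat_lit 129) (nat_lit 516) (nat_lit 64) (@Lb.g g8 (@Lb.g g9 (@Lb.g g10 (@Lb.g g11 (@Lb.r r1702 (@Lb.r r1419 (@Lb.r r36 (@Lb.r r2069 (@Lb.r r1060 (@Lb.d (nat_lit 329) (nat_lit 149) (nat_lit 597) (@Lb.fm (nat_lit 9) t3627))))))))))))
noncomputable def l17960 : Lb := (@Lb.d (nat_lit 129) (nat_lit 516) (nat_lit 74) (@Lb.g g8 (@Lb.g g9 (@Lb.g g10 (@Lb.g g11 (@Lb.r r683 (@Lb.r r1634 (@Lb.r r36 (@Lb.r r2069 (@Lb.r r1060 (@Lb.d (nat_lit 609) (nat_lit 136) (nat_lit 9) (@Lb.fm (nat_lit 9) t3628))))))))))))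
noncomputable def l17961 : Lb := (@Lb.r r21 (@Lb.d (nat_lit 146) (nat_lit 256) (nat_lit 130) (@Lb.g g8 (@Lb.g g10 (@Lb.g g11 (@Lb.r r2435 (@Lb.r r2180 (@Lb.r r1430 (@Lb.r r97 (@Lb.d (nat_lit 73) (nat_lit 34) (nat_lit 128) (@Lb.t (@Lb.fm (nat_lit 9) t3629))))))))))))
noncomputable def l17962 : Lb := (@Lb.r r81 (@Lb.r r323 (@Lb.d (nat_lit 138) (nat_lit 0) (nat_lit 33) (@Lb.g g8 (@Lb.g g6 (@Lb.r r661 (@Lb.r r343 (@Lb.r r648 (@Lb.d (nat_lit 81) (nat_lit 64) (nat_lit 9) (@Lb.fm (nat_lit 3) t3630))))))))))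
noncomputable def l17963 : Lb := (@Lb.d (nat_lit 134) (nat_lit 512) (nat_lit 130) (@Lb.g g8 (@Lb.g g9 (@Lb.g g10 (@Lb.g g11 (@Lb.r r2666 (@Lb.r r612 (@Lb.r r1319 (@Lb.r r405 (@Lb.r r2084 (@Lb.d (nat_lit 617) (nat_lit 130) (nat_lit 42) (@Lb.fp (nat_lit 9) t3631))))))))))))
noncomputable def l17964 : Lb := (@Lb.d (nat_lit 129) (nat_lit 258) (nat_lit 73) (@Lb.g g8 (@Lb.g g9 (@Lb.g g10 (@Lb.g g11 (@Lb.r r683 (@Lb.r r1634 (@Lb.r r36 (@Lb.r r2069 (@Lb.r r1060 (@Lb.d (nat_lit 609) (nat_lit 134) (nat_lit 8) (@Lb.fm (nat_lit 9) t3632))))))))))))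
noncomputable def l17965 : Lb := (@Lb.r r82 (@Lb.d (nat_lit 34) (nat_lit 2) (nat_lit 136) (@Lb.g g8 (@Lb.g g9 (@Lb.g g11 (@Lb.r r1641 (@Lb.r r150 (@Lb.r r356 (@Lb.r r395 (@Lb.d (nat_lit 386) (nat_lit 34) (nat_lit 585) (@Lb.t (@Lb.fm (nat_lit 9) t355))))))))))))
noncomputable def l17966 : Lb := (@Lb.r r82 (@Lb.d (nat_lit 41) (nat_lit 9) (nat_lit 128) (@Lb.g g8 (@Lb.g g9 (@Lb.g g11 (@Lb.r r1635 (@Lb.r r582 (@Lb.r r2712 (@Lb.r r1637 (@Lb.d (nat_lit 421) (nat_lit 136) (nat_lit 600) (@Lb.t (@Lb.fp (nat_lit 9) t5))))))))))))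
noncomputable def l17967 : Lb := (@Lb.r r70 (@Lb.d (nat_lit 5) (nat_lit 2) (nat_lit 128) (@Lb.g g8 (@Lb.g g9 (@Lb.g g11 (@Lb.r r1563 (@Lb.r r1410 (@Lb.r r1169 (@Lb.r r2708 (@Lb.d (nat_lit 21) (nat_lit 82) (nat_lit 280) (@Lb.t (@Lb.fm (nat_lit 9) t152))))))))))))
noncomputable def l17968 : Lb := (@Lb.r r82 (@Lb.d (nat_lit 34) (nat_lit 258) (nat_lit 136) (@Lb.g g8 (@Lb.g g9 (@Lb.g g11 (@Lb.r r1641 (@Lb.r r150 (@Lb.r r356 (@Lb.r r395 (@Lb.d (nat_lit 385) (nat_lit 34) (nat_lit 585) (@Lb.t (@Lb.fm (nat_lit 9) t355))))))))))))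
noncomputable def l17969 : Lb := (@Lb.r r70 (@Lb.d (nat_lit 5) (nat_lit 258) (nat_lit 128) (@Lb.g g8 (@Lb.g g9 (@Lb.g g11 (@Lb.r r1563 (@Lb.r r1410 (@Lb.r r1169 (@Lb.r r2708 (@Lb.d (nat_lit 21) (nat_lit 89) (nat_lit 282) (@Lb.t (@Lb.fm (nat_lit 9) t152))))))))))))
noncomputable def l17970 : Lb := (@Lb.r r82 (@Lb.d (nat_lit 34) (nat_lit 545) (nat_lit 64) (@Lb.g g8 (@Lb.g g9 (@Lb.g g11 (@Lb.r r1698 (@Lb.r r1577 (@Lb.r r616 (@Lb.r r587 (@Lb.d (nat_lit 385) (nat_lit 34) (nat_lit 102) (@Lb.t (@Lb.fm (nat_lit 9) t355))))))))))))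
noncomputable def l17971 : Lb := (@Lb.d (nat_lit 0) (nat_lit 516) (nat_lit 293) (@Lb.r r2196 (@Lb.r r386 (@Lb.r r595 (@Lb.r r2321 (@Lb.g g7 (@Lb.g g6 (@Lb.d (nat_lit 0) (nat_lit 0) (nat_lit 65) (@Lb.fm (nat_lit 3) t430)))))))))
noncomputable def l17972 : Lb := (@Lb.r r323 (@Lb.d (nat_lit 2) (nat_lit 256) (nat_lit 4) (@Lb.g g8 (@Lb.g g5 (@Lb.g g10 (@Lb.r r387 (@Lb.r r24 (@Lb.d (nat_lit 10) (nat_lit 0) (nat_lit 137) (@Lb.t (@Lb.fm (nat_lit 9) t2))))))))))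
noncomputable def l17973 : Lb := (@Lb.d (nat_lit 128) (nat_lit 256) (nat_lit 64) (@Lb.g g11 (@Lb.r r264 (@Lb.r r519 (@Lb.r r402 (@Lb.r r609 (@Lb.d (nat_lit 129) (nat_lit 17) (nat_lit 74) (@Lb.t (@Lb.fp (nat_lit 3) t44)))))))))
noncomputable def l17974 : Lb := (@Lb.r r154 (@Lb.r r664 (@Lb.r r411 (@Lb.r r609 (@Lb.r r36 (@Lb.d (nat_lit 0) (nat_lit 529) (nat_lit 138) (@Lb.fm (nat_lit 1) t44)))))))
noncomputable def l17975 : Lb := (@Lb.d (nat_lit 281) (nat_lit 518) (nat_lit 72) (@Lb.g g4 (@Lb.g g9 (@Lb.g g10 (@Lb.g g11 (@Lb.r r1667 (@Lb.r r145 (@Lb.r r1626 (@Lb.r r145 (@Lb.d (nat_lit 38) (nat_lit 97) (nat_lit 106) (@Lb.fp (nat_lit 9) t830)))))))))))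
noncomputable def l17976 : Lb := (@Lb.r r154 (@Lb.r r664 (@Lb.r r411 (@Lb.r r609 (@Lb.r r36 (@Lb.d (nat_lit 0) (nat_lit 24) (nat_lit 137) (@Lb.fm (nat_lit 1) t44)))))))
noncomputable def l17977 : Lb := (@Lb.r r154 (@Lb.r r664 (@Lb.r r411 (@Lb.r r609 (@Lb.r r36 (@Lb.d (nat_lit 10) (nat_lit 16) (nat_lit 138) (@Lb.fm (nat_lit 1) t44)))))))
noncomputable def l17978 : Lb := (@Lb.g g9 (@Lb.g g10 (@Lb.g g7 (@Lb.r r354 (@Lb.r r1427 (@Lb.r r101 (@Lb.r r24 (@Lb.d (nat_lit 65) (nat_lit 512) (nat_lit 0) (@Lb.t (@Lb.fp (nat_lit 9) t145))))))))))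
noncomputable def l17979 : Lb := (@Lb.d (nat_lit 150) (nat_lit 513) (nat_lit 72) (@Lb.r r405 (@Lb.r r682 (@Lb.r r599 (@Lb.g g7 (@Lb.g g5 (@Lb.g g4 (@Lb.d (nat_lit 1) (nat_lit 0) (nat_lit 64) (@Lb.r r98 (@Lb.t (@Lb.fp (nat_lit 9) t68)))))))))))
noncomputable def l17980 : Lb := (@Lb.g g8 (@Lb.g g9 (@Lb.g g10 (@Lb.g g7 (@Lb.r r354 (@Lb.r r1427 (@Lb.r r101 (@Lb.r r24 (@Lb.d (nat_lit 65) (nat_lit 512) (nat_lit 0) (@Lb.fm (nat_lit 9) t145))))))))))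
noncomputable def l17981 : Lb := (@Lb.d (nat_lit 2) (nat_lit 386) (nat_lit 130) (@Lb.g g8 (@Lb.g g9 (@Lb.g g10 (@Lb.g g11 (@Lb.r r1451 (@Lb.r r1444 (@Lb.r r1126 (@Lb.d (nat_lit 281) (nat_lit 130) (nat_lit 137) (@Lb.fp (nat_lit 9) t455))))))))))
noncomputable def l17982 : Lb := (@Lb.d (nat_lit 602) (nat_lit 585) (nat_lit 421) (@Lb.r r82 (@Lb.r r531 (@Lb.r r1429 (@Lb.g g7 (@Lb.g g5 (@Lb.g g4 (@Lb.d (nat_lit 1) (nat_lit 18) (nat_lit 64) (@Lb.r r98 (@Lb.t (@Lb.fm (nat_lit 9) t1799)))))))))))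
noncomputable def l17983 : Lb := (@Lb.d (nat_lit 2) (nat_lit 642) (nat_lit 73) (@Lb.g g8 (@Lb.g g9 (@Lb.g g10 (@Lb.g g11 (@Lb.r r1451 (@Lb.r r1444 (@Lb.r r1126 (@Lb.d (nat_lit 281) (nat_lit 130) (nat_lit 137) (@Lb.fp (nat_lit 9) t455))))))))))
noncomputable def l17984 : Lb := (@Lb.d (nat_lit 2) (nat_lit 130) (nat_lit 130) (@Lb.g g8 (@Lb.g g9 (@Lb.g g10 (@Lb.g g11 (@Lb.r r1451 (@Lb.r r1444 (@Lb.r r1126 (@Lb.d (nat_lit 282) (nat_lit 130) (nat_lit 137) (@Lb.fp (nat_lit 9) t455))))))))))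
noncomputable def l17985 : Lb := (@Lb.d (nat_lit 0) (nat_lit 130) (nat_lit 130) (@Lb.g g8 (@Lb.g g9 (@Lb.g g10 (@Lb.g g11 (@Lb.r r1451 (@Lb.r r1444 (@Lb.r r1126 (@Lb.d (nat_lit 281) (nat_lit 130) (nat_lit 137) (@Lb.fp (nat_lit 9) t455))))))))))
noncomputable def l17986 : Lb := (@Lb.d (nat_lit 2) (nat_lit 9) (nat_lit 129) (@Lb.g g8 (@Lb.g g9 (@Lb.g g10 (@Lb.g g11 (@Lb.r r2691 (@Lb.r r297 (@Lb.r r360 (@Lb.r r582 (@Lb.r r2180 (@Lb.d (nat_lit 642) (nat_lit 10) (nat_lit 329) (@Lb.fm (nat_lit 9) t98))))))))))))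
noncomputable def l17987 : Lb := (@Lb.d (nat_lit 32) (nat_lit 0) (nat_lit 130) (@Lb.g g9 (@Lb.g g10 (@Lb.g g11 (@Lb.r r2695 (@Lb.r r1352 (@Lb.r r2390 (@Lb.r r409 (@Lb.d (nat_lit 388) (nat_lit 5) (nat_lit 328) (@Lb.t (@Lb.fm (nat_lit 9) t3633)))))))))))
noncomputable def l17988 : Lb := (@Lb.d (nat_lit 0) (nat_lit 265) (nat_lit 129) (@Lb.g g8 (@Lb.g g9 (@Lb.g g10 (@Lb.g g11 (@Lb.r r1443 (@Lb.r r596 (@Lb.r r1449 (@Lb.r r1130 (@Lb.r r36 (@Lb.d (nat_lit 545) (nat_lit 130) (nat_lit 345) (@Lb.fm (nat_lit 9) t3634))))))))))))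
noncomputable def l17989 : Lb := (@Lb.r r2311 (@Lb.r r101 (@Lb.r r402 (@Lb.r r24 (@Lb.d (nat_lit 613) (nat_lit 677) (nat_lit 85) (@Lb.fm (nat_lit 1) t3635))))))
noncomputable def l17990 : Lb := (@Lb.r r82 (@Lb.r r275 (@Lb.d (nat_lit 0) (nat_lit 69) (nat_lit 0) (@Lb.g g8 (@Lb.g g5 (@Lb.r r2403 (@Lb.r r2122 (@Lb.r r2148 (@Lb.d (nat_lit 281) (nat_lit 129) (nat_lit 32) (@Lb.fp (nat_lit 3) t3636))))))))))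
noncomputable def l17991 : Lb := (@Lb.r r263 (@Lb.d (nat_lit 2) (nat_lit 82) (nat_lit 10) (@Lb.g g8 (@Lb.g g5 (@Lb.g g10 (@Lb.r r539 (@Lb.r r660 (@Lb.r r2198 (@Lb.d (nat_lit 516) (nat_lit 136) (nat_lit 682) (@Lb.t (@Lb.fp (nat_lit 9) t3637)))))))))))
noncomputable def l17992 : Lb := (@Lb.r r82 (@Lb.r r275 (@Lb.d (nat_lit 0) (nat_lit 337) (nat_lit 0) (@Lb.g g5 (@Lb.r r1619 (@Lb.r r386 (@Lb.d (nat_lit 273) (nat_lit 1) (nat_lit 18) (@Lb.t (@Lb.fm (nat_lit 3) t3638)))))))))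
noncomputable def l17993 : Lb := (@Lb.d (nat_lit 548) (nat_lit 128) (nat_lit 18) (@Lb.r r1321 (@Lb.r r1444 (@Lb.r r2651 (@Lb.g g10 (@Lb.d (nat_lit 32) (nat_lit 0) (nat_lit 1) (@Lb.t (@Lb.fp (nat_lit 3) t3639))))))))
noncomputable def l17994 : Lb := (@Lb.d (nat_lit 100) (nat_lit 32) (nat_lit 144) (@Lb.r r1321 (@Lb.r r1444 (@Lb.r r2374 (@Lb.r r611 (@Lb.g g7 (@Lb.g g6 (@Lb.g g5 (@Lb.d (nat_lit 0) (nat_lit 0) (nat_lit 134) (@Lb.t (@Lb.fp (nat_lit 9) t3640)))))))))))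
noncomputable def l17995 : Lb := (@Lb.r r275 (@Lb.d (nat_lit 8) (nat_lit 0) (nat_lit 2) (@Lb.g g9 (@Lb.g g10 (@Lb.r r683 (@Lb.r r84 (@Lb.r r426 (@Lb.r r345 (@Lb.d (nat_lit 280) (nat_lit 17) (nat_lit 676) (@Lb.fm (nat_lit 3) t3641))))))))))
noncomputable def l17996 : Lb := (@Lb.r r81 (@Lb.r r323 (@Lb.d (nat_lit 0) (nat_lit 264) (nat_lit 1) (@Lb.g g6 (@Lb.r r2439 (@Lb.r r88 (@Lb.r r37 (@Lb.d (nat_lit 17) (nat_lit 138) (nat_lit 16) (@Lb.t (@Lb.fm (nat_lit 3) t3642))))))))))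
noncomputable def l17997 : Lb := (@Lb.r r20 (@Lb.d (nat_lit 0) (nat_lit 2) (nat_lit 130) (@Lb.g g9 (@Lb.g g10 (@Lb.g g11 (@Lb.r r1451 (@Lb.r r386 (@Lb.r r1121 (@Lb.d (nat_lit 405) (nat_lit 90) (nat_lit 100) (@Lb.t (@Lb.fm (nat_lit 9) t714)))))))))))
noncomputable def l17998 : Lb := (@Lb.r r263 (@Lb.d (nat_lit 5) (nat_lit 2) (nat_lit 2) (@Lb.g g8 (@Lb.g g9 (@Lb.g g10 (@Lb.r r1430 (@Lb.r r343 (@Lb.r r1433 (@Lb.r r388 (@Lb.d (nat_lit 617) (nat_lit 70) (nat_lit 545) (@Lb.t (@Lb.fp (nat_lit 9) t898))))))))))))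
noncomputable def l17999 : Lb := (@Lb.d (nat_lit 530) (nat_lit 10) (nat_lit 640) (@Lb.r r2321 (@Lb.r r70 (@Lb.r r1383 (@Lb.r r341 (@Lb.g g7 (@Lb.g g6 (@Lb.g g5 (@Lb.g g4 (@Lb.d (nat_lit 1) (nat_lit 2) (nat_lit 133) (@Lb.fp (nat_lit 9) t2491)))))))))))
noncomputable def l18000 : Lb := (@Lb.d (nat_lit 0) (nat_lit 514) (nat_lit 130) (@Lb.g g9 (@Lb.g g10 (@Lb.g g11 (@Lb.r r1443 (@Lb.r r536 (@Lb.r r357 (@Lb.r r154 (@Lb.r r132 (@Lb.d (nat_lit 581) (nat_lit 130) (nat_lit 153) (@Lb.t (@Lb.fp (nat_lit 9) t651))))))))))))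
noncomputable def l18001 : Lb := (@Lb.d (nat_lit 134) (nat_lit 662) (nat_lit 320) (@Lb.r r1560 (@Lb.r r97 (@Lb.r r1643 (@Lb.g g7 (@Lb.g g10 (@Lb.g g5 (@Lb.g g4 (@Lb.d (nat_lit 25) (nat_lit 10) (nat_lit 65) (@Lb.fp (nat_lit 9) t715))))))))))
noncomputable def l18002 : Lb := (@Lb.d (nat_lit 5) (nat_lit 0) (nat_lit 130) (@Lb.g g8 (@Lb.g g9 (@Lb.g g10 (@Lb.g g11 (@Lb.r r1443 (@Lb.r r2089 (@Lb.r r616 (@Lb.r r2118 (@Lb.r r1156 (@Lb.d (nat_lit 545) (nat_lit 90) (nat_lit 326) (@Lb.fp (nat_lit 9) t596))))))))))))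
noncomputable def l18003 : Lb := (@Lb.d (nat_lit 338) (nat_lit 266) (nat_lit 344) (@Lb.r r1606 (@Lb.r r1383 (@Lb.r r357 (@Lb.g g7 (@Lb.g g6 (@Lb.g g4 (@Lb.d (nat_lit 1) (nat_lit 4) (nat_lit 133) (@Lb.t (@Lb.fm (nat_lit 9) t2491))))))))))
noncomputable def l18004 : Lb := (@Lb.r r2451 (@Lb.r r1186 (@Lb.r r2209 (@Lb.r r2196 (@Lb.d (nat_lit 280) (nat_lit 0) (nat_lit 0) (@Lb.fp (nat_lit 1) t3643))))))
noncomputable def l18005 : Lb := (@Lb.d (nat_lit 616) (nat_lit 101) (nat_lit 168) (@Lb.r r1125 (@Lb.r r386 (@Lb.r r2387 (@Lb.g g7 (@Lb.g g6 (@Lb.g g5 (@Lb.g g8 (@Lb.d (nat_lit 2) (nat_lit 1) (nat_lit 65) (@Lb.fm (nat_lit 9) t218))))))))))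
noncomputable def l18006 : Lb := (@Lb.d (nat_lit 517) (nat_lit 321) (nat_lit 0) (@Lb.r r8 (@Lb.r r1121 (@Lb.r r402 (@Lb.r r2379 (@Lb.g g7 (@Lb.g g6 (@Lb.d (nat_lit 0) (nat_lit 0) (nat_lit 64) (@Lb.fp (nat_lit 3) t109)))))))))
noncomputable def l18007 : Lb := (@Lb.d (nat_lit 326) (nat_lit 130) (nat_lit 389) (@Lb.r r597 (@Lb.r r2666 (@Lb.r r2376 (@Lb.r r2691 (@Lb.g g7 (@Lb.g g6 (@Lb.g g5 (@Lb.d (nat_lit 4) (nat_lit 1) (nat_lit 65) (@Lb.t (@Lb.fp (nat_lit 9) t221)))))))))))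
noncomputable def l18008 : Lb := (@Lb.d (nat_lit 132) (nat_lit 74) (nat_lit 128) (@Lb.g g9 (@Lb.g g11 (@Lb.r r2148 (@Lb.r r1354 (@Lb.r r391 (@Lb.d (nat_lit 256) (nat_lit 98) (nat_lit 4) (@Lb.fm (nat_lit 3) t3644))))))))
noncomputable def l18009 : Lb := (@Lb.d (nat_lit 40) (nat_lit 256) (nat_lit 41) (@Lb.r r1284 (@Lb.r r1611 (@Lb.r r1362 (@Lb.g g7 (@Lb.g g6 (@Lb.g g5 (@Lb.d (nat_lit 0) (nat_lit 129) (nat_lit 65) (@Lb.t (@Lb.fm (nat_lit 9) t644))))))))))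
noncomputable def l18010 : Lb := (@Lb.d (nat_lit 38) (nat_lit 514) (nat_lit 41) (@Lb.r r1284 (@Lb.r r1611 (@Lb.r r1362 (@Lb.g g7 (@Lb.g g6 (@Lb.g g5 (@Lb.d (nat_lit 0) (nat_lit 129) (nat_lit 65) (@Lb.t (@Lb.fm (nat_lit 9) t644))))))))))
noncomputable def l18011 : Lb := (@Lb.r r21 (@Lb.d (nat_lit 42) (nat_lit 288) (nat_lit 128) (@Lb.g g8 (@Lb.g g11 (@Lb.r r102 (@Lb.r r85 (@Lb.r r424 (@Lb.r r583 (@Lb.d (nat_lit 150) (nat_lit 26) (nat_lit 64) (@Lb.fm (nat_lit 3) t21))))))))))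
noncomputable def l18012 : Lb := (@Lb.d (nat_lit 160) (nat_lit 0) (nat_lit 130) (@Lb.g g10 (@Lb.g g11 (@Lb.r r97 (@Lb.r r72 (@Lb.r r406 (@Lb.r r1603 (@Lb.d (nat_lit 5) (nat_lit 88) (nat_lit 338) (@Lb.fm (nat_lit 3) t3471)))))))))
noncomputable def l18013 : Lb := (@Lb.r r21 (@Lb.d (nat_lit 17) (nat_lit 0) (nat_lit 128) (@Lb.g g4 (@Lb.g g10 (@Lb.g g11 (@Lb.r r2451 (@Lb.r r2438 (@Lb.r r37 (@Lb.d (nat_lit 614) (nat_lit 41) (nat_lit 658) (@Lb.t (@Lb.fp (nat_lit 9) t510)))))))))))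
noncomputable def l18014 : Lb := (@Lb.d (nat_lit 512) (nat_lit 640) (nat_lit 96) (@Lb.r r8 (@Lb.r r2073 (@Lb.r r402 (@Lb.g g7 (@Lb.d (nat_lit 128) (nat_lit 0) (nat_lit 580) (@Lb.t (@Lb.fm (nat_lit 3) t2335))))))))
noncomputable def l18015 : Lb := (@Lb.d (nat_lit 2) (nat_lit 18) (nat_lit 352) (@Lb.r r2434 (@Lb.r r1619 (@Lb.g g6 (@Lb.g g5 (@Lb.g g8 (@Lb.d (nat_lit 2) (nat_lit 129) (nat_lit 5) (@Lb.t (@Lb.fm (nat_lit 9) t388)))))))))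
noncomputable def l18016 : Lb := (@Lb.d (nat_lit 0) (nat_lit 0) (nat_lit 136) (@Lb.g g11 (@Lb.r r402 (@Lb.r r101 (@Lb.d (nat_lit 581) (nat_lit 161) (nat_lit 640) (@Lb.t (@Lb.fp (nat_lit 3) t1618)))))))
noncomputable def l18017 : Lb := (@Lb.d (nat_lit 514) (nat_lit 650) (nat_lit 34) (@Lb.r r2069 (@Lb.r r402 (@Lb.r r2375 (@Lb.g g7 (@Lb.g g4 (@Lb.d (nat_lit 2) (nat_lit 0) (nat_lit 64) (@Lb.fp (nat_lit 3) t3645))))))))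
noncomputable def l18018 : Lb := (@Lb.r r82 (@Lb.d (nat_lit 34) (nat_lit 514) (nat_lit 128) (@Lb.g g8 (@Lb.g g9 (@Lb.g g11 (@Lb.r r363 (@Lb.r r582 (@Lb.r r677 (@Lb.r r408 (@Lb.d (nat_lit 549) (nat_lit 154) (nat_lit 680) (@Lb.t (@Lb.fm (nat_lit 9) t3646))))))))))))
noncomputable def l18019 : Lb := (@Lb.d (nat_lit 0) (nat_lit 256) (nat_lit 136) (@Lb.g g11 (@Lb.r r402 (@Lb.r r101 (@Lb.d (nat_lit 361) (nat_lit 164) (nat_lit 656) (@Lb.t (@Lb.fp (nat_lit 3) t3647)))))))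
noncomputable def l18020 : Lb := (@Lb.r r82 (@Lb.d (nat_lit 34) (nat_lit 258) (nat_lit 128) (@Lb.g g8 (@Lb.g g9 (@Lb.g g11 (@Lb.r r363 (@Lb.r r582 (@Lb.r r677 (@Lb.r r408 (@Lb.d (nat_lit 133) (nat_lit 154) (nat_lit 152) (@Lb.t (@Lb.fm (nat_lit 9) t388))))))))))))
noncomputable def l18021 : Lb := (@Lb.d (nat_lit 544) (nat_lit 136) (nat_lit 17) (@Lb.r r24 (@Lb.r r1414 (@Lb.r r2395 (@Lb.g g7 (@Lb.g g5 (@Lb.d (nat_lit 0) (nat_lit 129) (nat_lit 64) (@Lb.fm (nat_lit 3) t3648))))))))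
noncomputable def l18022 : Lb := (@Lb.r r82 (@Lb.d (nat_lit 0) (nat_lit 266) (nat_lit 128) (@Lb.g g9 (@Lb.g g11 (@Lb.r r363 (@Lb.r r360 (@Lb.r r150 (@Lb.r r85 (@Lb.d (nat_lit 18) (nat_lit 134) (nat_lit 17) (@Lb.fm (nat_lit 3) t388))))))))))
noncomputable def l18023 : Lb := (@Lb.d (nat_lit 512) (nat_lit 389) (nat_lit 97) (@Lb.r r8 (@Lb.r r2073 (@Lb.r r402 (@Lb.g g7 (@Lb.d (nat_lit 128) (nat_lit 0) (nat_lit 580) (@Lb.t (@Lb.fm (nat_lit 3) t2305))))))))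
noncomputable def l18024 : Lb := (@Lb.d (nat_lit 618) (nat_lit 357) (nat_lit 168) (@Lb.r r1125 (@Lb.r r386 (@Lb.r r2387 (@Lb.g g7 (@Lb.g g6 (@Lb.g g5 (@Lb.g g8 (@Lb.d (nat_lit 2) (nat_lit 1) (nat_lit 65) (@Lb.fm (nat_lit 9) t218))))))))))
noncomputable def l18025 : Lb := (@Lb.d (nat_lit 36) (nat_lit 545) (nat_lit 0) (@Lb.g g5 (@Lb.g g10 (@Lb.r r515 (@Lb.r r328 (@Lb.r r662 (@Lb.d (nat_lit 38) (nat_lit 40) (nat_lit 129) (@Lb.fm (nat_lit 3) t242))))))))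
noncomputable def l18026 : Lb := (@Lb.d (nat_lit 2) (nat_lit 258) (nat_lit 64) (@Lb.g g8 (@Lb.g g9 (@Lb.g g10 (@Lb.g g11 (@Lb.r r297 (@Lb.r r360 (@Lb.r r582 (@Lb.r r132 (@Lb.d (nat_lit 546) (nat_lit 10) (nat_lit 150) (@Lb.fp (nat_lit 9) t120)))))))))))
noncomputable def l18027 : Lb := (@Lb.r r86 (@Lb.d (nat_lit 34) (nat_lit 512) (nat_lit 64) (@Lb.g g8 (@Lb.g g9 (@Lb.g g7 (@Lb.r r418 (@Lb.r r681 (@Lb.r r420 (@Lb.d (nat_lit 106) (nat_lit 38) (nat_lit 133) (@Lb.t (@Lb.fp (nat_lit 9) t42)))))))))))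
noncomputable def l18028 : Lb := (@Lb.d (nat_lit 134) (nat_lit 1) (nat_lit 0) (@Lb.r r2584 (@Lb.r r2138 (@Lb.r r2587 (@Lb.r r293 (@Lb.g g7 (@Lb.g g4 (@Lb.d (nat_lit 0) (nat_lit 0) (nat_lit 64) (@Lb.fp (nat_lit 3) t199)))))))))
noncomputable def l18029 : Lb := (@Lb.d (nat_lit 256) (nat_lit 513) (nat_lit 0) (@Lb.r r24 (@Lb.r r2331 (@Lb.g g10 (@Lb.g g5 (@Lb.d (nat_lit 4) (nat_lit 1) (nat_lit 0) (@Lb.fm (nat_lit 3) t3649)))))))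
noncomputable def l18030 : Lb := (@Lb.d (nat_lit 262) (nat_lit 65) (nat_lit 0) (@Lb.r r24 (@Lb.r r2331 (@Lb.g g10 (@Lb.g g5 (@Lb.d (nat_lit 4) (nat_lit 1) (nat_lit 0) (@Lb.fm (nat_lit 3) t3649)))))))
noncomputable def l18031 : Lb := (@Lb.d (nat_lit 33) (nat_lit 2) (nat_lit 130) (@Lb.g g8 (@Lb.g g9 (@Lb.g g10 (@Lb.g g11 (@Lb.r r663 (@Lb.r r342 (@Lb.r r1577 (@Lb.r r1556 (@Lb.d (nat_lit 385) (nat_lit 166) (nat_lit 88) (@Lb.fp (nat_lit 9) t474)))))))))))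
noncomputable def l18032 : Lb := (@Lb.g g10 (@Lb.r r2311 (@Lb.r r24 (@Lb.d (nat_lit 517) (nat_lit 136) (nat_lit 2) (@Lb.t (@Lb.fm (nat_lit 3) t3650))))))
noncomputable def l18033 : Lb := (@Lb.r r323 (@Lb.d (nat_lit 0) (nat_lit 258) (nat_lit 1) (@Lb.g g9 (@Lb.g g6 (@Lb.r r2439 (@Lb.r r104 (@Lb.r r25 (@Lb.d (nat_lit 22) (nat_lit 136) (nat_lit 16) (@Lb.fm (nat_lit 3) t3651)))))))))
noncomputable def l18034 : Lb := (@Lb.d (nat_lit 261) (nat_lit 258) (nat_lit 0) (@Lb.r r24 (@Lb.r r2331 (@Lb.g g10 (@Lb.g g5 (@Lb.d (nat_lit 4) (nat_lit 1) (nat_lit 0) (@Lb.fm (nat_lit 3) t3649)))))))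
noncomputable def l18035 : Lb := (@Lb.d (nat_lit 273) (nat_lit 0) (nat_lit 522) (@Lb.r r1671 (@Lb.r r2666 (@Lb.r r612 (@Lb.r r345 (@Lb.g g7 (@Lb.d (nat_lit 64) (nat_lit 16) (nat_lit 64) (@Lb.t (@Lb.fp (nat_lit 3) t51)))))))))
noncomputable def l18036 : Lb := (@Lb.r r82 (@Lb.d (nat_lit 34) (nat_lit 2) (nat_lit 8) (@Lb.g g8 (@Lb.g g9 (@Lb.g g11 (@Lb.r r1641 (@Lb.r r150 (@Lb.r r356 (@Lb.r r395 (@Lb.d (nat_lit 386) (nat_lit 150) (nat_lit 64) (@Lb.t (@Lb.fm (nat_lit 9) t152))))))))))))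
noncomputable def l18037 : Lb := (@Lb.d (nat_lit 1) (nat_lit 2) (nat_lit 2) (@Lb.g g8 (@Lb.g g9 (@Lb.g g10 (@Lb.g g11 (@Lb.r r2691 (@Lb.r r297 (@Lb.r r360 (@Lb.r r582 (@Lb.r r2180 (@Lb.d (nat_lit 642) (nat_lit 5) (nat_lit 328) (@Lb.fm (nat_lit 9) t242))))))))))))
noncomputable def l18038 : Lb := (@Lb.d (nat_lit 5) (nat_lit 0) (nat_lit 72) (@Lb.g g4 (@Lb.g g11 (@Lb.d (nat_lit 6) (nat_lit 65) (nat_lit 160) (@Lb.fp (nat_lit 3) t2)))))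
noncomputable def l18039 : Lb := (@Lb.d (nat_lit 597) (nat_lit 609) (nat_lit 296) (@Lb.r r2388 (@Lb.r r586 (@Lb.r r619 (@Lb.r r545 (@Lb.g g7 (@Lb.g g4 (@Lb.d (nat_lit 20) (nat_lit 0) (nat_lit 64) (@Lb.fm (nat_lit 3) t210)))))))))
noncomputable def l18040 : Lb := (@Lb.d (nat_lit 597) (nat_lit 353) (nat_lit 296) (@Lb.r r2388 (@Lb.r r586 (@Lb.r r619 (@Lb.r r545 (@Lb.g g7 (@Lb.g g4 (@Lb.d (nat_lit 21) (nat_lit 0) (nat_lit 64) (@Lb.fm (nat_lit 3) t210)))))))))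
noncomputable def l18041 : Lb := (@Lb.d (nat_lit 129) (nat_lit 258) (nat_lit 2) (@Lb.g g8 (@Lb.g g9 (@Lb.g g10 (@Lb.r r2691 (@Lb.r r2217 (@Lb.r r2666 (@Lb.r r104 (@Lb.d (nat_lit 676) (nat_lit 5) (nat_lit 328) (@Lb.t (@Lb.fp (nat_lit 9) t242)))))))))))
noncomputable def l18042 : Lb := (@Lb.d (nat_lit 357) (nat_lit 262) (nat_lit 129) (@Lb.r r1432 (@Lb.r r2645 (@Lb.r r1706 (@Lb.g g11 (@Lb.g g6 (@Lb.g g5 (@Lb.g g4 (@Lb.d (nat_lit 25) (nat_lit 0) (nat_lit 129) (@Lb.fm (nat_lit 9) t61))))))))))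
noncomputable def l18043 : Lb := (@Lb.d (nat_lit 4) (nat_lit 2) (nat_lit 130) (@Lb.g g9 (@Lb.g g10 (@Lb.g g11 (@Lb.r r1451 (@Lb.r r1130 (@Lb.r r8 (@Lb.d (nat_lit 576) (nat_lit 128) (nat_lit 425) (@Lb.t (@Lb.fp (nat_lit 9) t3652))))))))))
noncomputable def l18044 : Lb := (@Lb.r r1366 (@Lb.r r1284 (@Lb.r r2651 (@Lb.r r289 (@Lb.d (nat_lit 72) (nat_lit 66) (nat_lit 336) (@Lb.fp (nat_lit 1) t3653))))))
noncomputable def l18045 : Lb := (@Lb.d (nat_lit 129) (nat_lit 521) (nat_lit 66) (@Lb.g g8 (@Lb.g g9 (@Lb.g g10 (@Lb.g g11 (@Lb.r r2730 (@Lb.r r1419 (@Lb.r r1553 (@Lb.r r392 (@Lb.d (nat_lit 657) (nat_lit 97) (nat_lit 586) (@Lb.fp (nat_lit 9) t3654)))))))))))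
noncomputable def l18046 : Lb := (@Lb.r r322 (@Lb.d (nat_lit 0) (nat_lit 33) (nat_lit 516) (@Lb.g g9 (@Lb.g g7 (@Lb.r r2440 (@Lb.r r2122 (@Lb.r r1061 (@Lb.d (nat_lit 105) (nat_lit 154) (nat_lit 4) (@Lb.fp (nat_lit 3) t3655)))))))))
noncomputable def l18047 : Lb := (@Lb.d (nat_lit 613) (nat_lit 665) (nat_lit 404) (@Lb.r r2129 (@Lb.r r354 (@Lb.r r85 (@Lb.r r1671 (@Lb.g g7 (@Lb.g g6 (@Lb.g g5 (@Lb.g g4 (@Lb.d (nat_lit 1) (nat_lit 0) (nat_lit 65) (@Lb.fm (nat_lit 9) t3656)))))))))))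
noncomputable def l18048 : Lb := (@Lb.d (nat_lit 33) (nat_lit 514) (nat_lit 129) (@Lb.g g8 (@Lb.g g9 (@Lb.g g6 (@Lb.g g11 (@Lb.r r1643 (@Lb.r r97 (@Lb.r r1560 (@Lb.d (nat_lit 73) (nat_lit 98) (nat_lit 641) (@Lb.fp (nat_lit 9) t1739))))))))))
noncomputable def l18049 : Lb := (@Lb.d (nat_lit 0) (nat_lit 2) (nat_lit 130) (@Lb.g g9 (@Lb.g g10 (@Lb.g g11 (@Lb.r r1443 (@Lb.r r401 (@Lb.r r82 (@Lb.r r1169 (@Lb.r r8 (@Lb.d (nat_lit 330) (nat_lit 72) (nat_lit 34) (@Lb.t (@Lb.fp (nat_lit 9) t32))))))))))))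
noncomputable def l18050 : Lb := (@Lb.d (nat_lit 34) (nat_lit 514) (nat_lit 130) (@Lb.g g8 (@Lb.g g9 (@Lb.g g10 (@Lb.g g11 (@Lb.r r599 (@Lb.r r682 (@Lb.r r2649 (@Lb.r r2628 (@Lb.d (nat_lit 658) (nat_lit 138) (nat_lit 612) (@Lb.fp (nat_lit 9) t474)))))))))))
noncomputable def l18051 : Lb := (@Lb.r r283 (@Lb.d (nat_lit 18) (nat_lit 522) (nat_lit 1) (@Lb.g g8 (@Lb.g g9 (@Lb.g g10 (@Lb.r r1699 (@Lb.r r2585 (@Lb.r r1620 (@Lb.r r362 (@Lb.d (nat_lit 662) (nat_lit 85) (nat_lit 64) (@Lb.t (@Lb.fp (nat_lit 9) t47))))))))))))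
noncomputable def l18052 : Lb := (@Lb.d (nat_lit 1) (nat_lit 2) (nat_lit 9) (@Lb.g g8 (@Lb.g g9 (@Lb.g g10 (@Lb.g g7 (@Lb.r r386 (@Lb.r r97 (@Lb.r r24 (@Lb.d (nat_lit 5) (nat_lit 8) (nat_lit 137) (@Lb.fp (nat_lit 9) t40))))))))))
noncomputable def l18053 : Lb := (@Lb.r r323 (@Lb.d (nat_lit 2) (nat_lit 512) (nat_lit 1) (@Lb.g g8 (@Lb.g g6 (@Lb.r r387 (@Lb.d (nat_lit 0) (nat_lit 5) (nat_lit 64) (@Lb.fp (nat_lit 3) t45)))))))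
noncomputable def l18054 : Lb := (@Lb.r r323 (@Lb.d (nat_lit 2) (nat_lit 32) (nat_lit 2) (@Lb.g g8 (@Lb.g g9 (@Lb.g g10 (@Lb.r r1367 (@Lb.r r2634 (@Lb.r r2600 (@Lb.r r153 (@Lb.d (nat_lit 24) (nat_lit 22) (nat_lit 297) (@Lb.t (@Lb.fp (nat_lit 9) t591))))))))))))
noncomputable def l18055 : Lb := (@Lb.d (nat_lit 1) (nat_lit 512) (nat_lit 128) (@Lb.g g8 (@Lb.g g11 (@Lb.r r644 (@Lb.r r2311 (@Lb.r r1170 (@Lb.r r2145 (@Lb.r r1540 (@Lb.d (nat_lit 2) (nat_lit 97) (nat_lit 640) (@Lb.fm (nat_lit 3) t51))))))))))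
noncomputable def l18056 : Lb := (@Lb.d (nat_lit 9) (nat_lit 288) (nat_lit 128) (@Lb.g g8 (@Lb.g g11 (@Lb.r r1109 (@Lb.r r2340 (@Lb.r r267 (@Lb.r r2178 (@Lb.d (nat_lit 674) (nat_lit 98) (nat_lit 577) (@Lb.fp (nat_lit 3) t296)))))))))
noncomputable def l18057 : Lb := (@Lb.d (nat_lit 8) (nat_lit 258) (nat_lit 130) (@Lb.g g9 (@Lb.g g10 (@Lb.g g11 (@Lb.r r2587 (@Lb.r r1446 (@Lb.r r24 (@Lb.d (nat_lit 88) (nat_lit 6) (nat_lit 618) (@Lb.t (@Lb.fp (nat_lit 9) t528))))))))))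
noncomputable def l18058 : Lb := (@Lb.g g4 (@Lb.g g11 (@Lb.r r264 (@Lb.r r2375 (@Lb.r r1170 (@Lb.r r2145 (@Lb.r r1540 (@Lb.d (nat_lit 0) (nat_lit 145) (nat_lit 320) (@Lb.fm (nat_lit 3) t51)))))))))
noncomputable def l18059 : Lb := (@Lb.d (nat_lit 2) (nat_lit 256) (nat_lit 0) (@Lb.g g8 (@Lb.r r2571 (@Lb.r r1170 (@Lb.r r2145 (@Lb.r r2584 (@Lb.d (nat_lit 586) (nat_lit 162) (nat_lit 384) (@Lb.t (@Lb.fp (nat_lit 3) t1082)))))))))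
noncomputable def l18060 : Lb := (@Lb.d (nat_lit 129) (nat_lit 0) (nat_lit 0) (@Lb.g g8 (@Lb.r r2375 (@Lb.r r1170 (@Lb.r r2145 (@Lb.r r1540 (@Lb.d (nat_lit 386) (nat_lit 0) (nat_lit 640) (@Lb.t (@Lb.fp (nat_lit 3) t51)))))))))
noncomputable def l18061 : Lb := (@Lb.r r355 (@Lb.d (nat_lit 1) (nat_lit 20) (nat_lit 0) (@Lb.g g8 (@Lb.g g9 (@Lb.g g10 (@Lb.r r2698 (@Lb.r r644 (@Lb.r r519 (@Lb.d (nat_lit 328) (nat_lit 18) (nat_lit 10) (@Lb.t (@Lb.fm (nat_lit 9) t1185)))))))))))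
noncomputable def l18062 : Lb := (@Lb.r r70 (@Lb.r r263 (@Lb.d (nat_lit 520) (nat_lit 321) (nat_lit 0) (@Lb.g g4 (@Lb.g g9 (@Lb.r r1315 (@Lb.r r1122 (@Lb.d (nat_lit 1) (nat_lit 65) (nat_lit 0) (@Lb.fp (nat_lit 3) t1751)))))))))
noncomputable def l18063 : Lb := (@Lb.d (nat_lit 2) (nat_lit 2) (nat_lit 130) (@Lb.g g8 (@Lb.g g9 (@Lb.g g10 (@Lb.g g11 (@Lb.r r1706 (@Lb.r r648 (@Lb.r r1563 (@Lb.r r2337 (@Lb.r r36 (@Lb.d (nat_lit 641) (nat_lit 105) (nat_lit 9) (@Lb.fp (nat_lit 9) t242))))))))))))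
noncomputable def l18064 : Lb := (@Lb.d (nat_lit 33) (nat_lit 256) (nat_lit 128) (@Lb.r r154 (@Lb.r r660 (@Lb.r r663 (@Lb.r r353 (@Lb.g g7 (@Lb.d (nat_lit 0) (nat_lit 0) (nat_lit 64) (@Lb.t (@Lb.fp (nat_lit 3) t51)))))))))
noncomputable def l18065 : Lb := (@Lb.d (nat_lit 578) (nat_lit 512) (nat_lit 80) (@Lb.r r154 (@Lb.r r101 (@Lb.r r519 (@Lb.r r264 (@Lb.g g7 (@Lb.d (nat_lit 64) (nat_lit 0) (nat_lit 128) (@Lb.t (@Lb.fm (nat_lit 3) t334)))))))))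
noncomputable def l18066 : Lb := (@Lb.r r104 (@Lb.r r1129 (@Lb.r r1060 (@Lb.d (nat_lit 0) (nat_lit 256) (nat_lit 16) (@Lb.fp (nat_lit 1) t2918)))))
noncomputable def l18067 : Lb := (@Lb.d (nat_lit 0) (nat_lit 261) (nat_lit 0) (@Lb.g g5 (@Lb.d (nat_lit 0) (nat_lit 134) (nat_lit 33) (@Lb.t (@Lb.fm (nat_lit 3) t126)))))
noncomputable def l18068 : Lb := (@Lb.r r24 (@Lb.r r1045 (@Lb.r r36 (@Lb.d (nat_lit 0) (nat_lit 266) (nat_lit 2) (@Lb.fm (nat_lit 1) t21)))))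
noncomputable def l18069 : Lb := (@Lb.d (nat_lit 134) (nat_lit 1) (nat_lit 0) (@Lb.g g8 (@Lb.g g9 (@Lb.r r2343 (@Lb.r r2466 (@Lb.r r2449 (@Lb.r r152 (@Lb.d (nat_lit 26) (nat_lit 32) (nat_lit 612) (@Lb.fm (nat_lit 3) t334)))))))))
noncomputable def l18070 : Lb := (@Lb.d (nat_lit 4) (nat_lit 386) (nat_lit 86) (@Lb.r r2118 (@Lb.r r1416 (@Lb.r r279 (@Lb.g g7 (@Lb.g g5 (@Lb.g g4 (@Lb.d (nat_lit 1) (nat_lit 1) (nat_lit 64) (@Lb.r r98 (@Lb.t (@Lb.fm (nat_lit 9) t1549)))))))))))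
noncomputable def l18071 : Lb := (@Lb.r r82 (@Lb.r r275 (@Lb.d (nat_lit 2) (nat_lit 514) (nat_lit 0) (@Lb.g g8 (@Lb.g g9 (@Lb.r r281 (@Lb.r r291 (@Lb.r r98 (@Lb.d (nat_lit 677) (nat_lit 37) (nat_lit 80) (@Lb.fm (nat_lit 3) t2099))))))))))
noncomputable def l18072 : Lb := (@Lb.d (nat_lit 4) (nat_lit 642) (nat_lit 17) (@Lb.r r2118 (@Lb.r r1416 (@Lb.r r279 (@Lb.g g7 (@Lb.g g5 (@Lb.g g4 (@Lb.d (nat_lit 1) (nat_lit 1) (nat_lit 64) (@Lb.r r98 (@Lb.t (@Lb.fm (nat_lit 9) t1549)))))))))))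
noncomputable def l18073 : Lb := (@Lb.r r68 (@Lb.r r323 (@Lb.d (nat_lit 8) (nat_lit 514) (nat_lit 33) (@Lb.g g9 (@Lb.g g6 (@Lb.r r660 (@Lb.r r359 (@Lb.r r337 (@Lb.d (nat_lit 8) (nat_lit 20) (nat_lit 132) (@Lb.fp (nat_lit 3) t629))))))))))
noncomputable def l18074 : Lb := (@Lb.d (nat_lit 4) (nat_lit 130) (nat_lit 86) (@Lb.r r2118 (@Lb.r r1416 (@Lb.r r279 (@Lb.g g7 (@Lb.g g5 (@Lb.g g4 (@Lb.d (nat_lit 2) (nat_lit 1) (nat_lit 64) (@Lb.r r98 (@Lb.t (@Lb.fm (nat_lit 9) t1549)))))))))))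
noncomputable def l18075 : Lb := (@Lb.r r82 (@Lb.d (nat_lit 2) (nat_lit 546) (nat_lit 64) (@Lb.g g8 (@Lb.g g9 (@Lb.g g11 (@Lb.r r537 (@Lb.r r531 (@Lb.r r98 (@Lb.d (nat_lit 677) (nat_lit 20) (nat_lit 85) (@Lb.t (@Lb.fp (nat_lit 9) t2099)))))))))))
noncomputable def l18076 : Lb := (@Lb.d (nat_lit 130) (nat_lit 0) (nat_lit 0) (@Lb.g g8 (@Lb.r r263 (@Lb.r r402 (@Lb.r r609 (@Lb.r r520 (@Lb.d (nat_lit 66) (nat_lit 128) (nat_lit 384) (@Lb.t (@Lb.fm (nat_lit 3) t334)))))))))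
noncomputable def l18077 : Lb := (@Lb.d (nat_lit 32) (nat_lit 257) (nat_lit 64) (@Lb.g g8 (@Lb.g g9 (@Lb.g g11 (@Lb.r r673 (@Lb.r r674 (@Lb.r r683 (@Lb.r r680 (@Lb.r r153 (@Lb.d (nat_lit 1) (nat_lit 20) (nat_lit 130) (@Lb.t (@Lb.fm (nat_lit 9) t45))))))))))))
noncomputable def l18078 : Lb := (@Lb.d (nat_lit 128) (nat_lit 9) (nat_lit 0) (@Lb.g g8 (@Lb.g g9 (@Lb.r r263 (@Lb.r r146 (@Lb.r r97 (@Lb.r r520 (@Lb.d (nat_lit 73) (nat_lit 2) (nat_lit 130) (@Lb.fp (nat_lit 3) t45)))))))))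
noncomputable def l18079 : Lb := (@Lb.d (nat_lit 514) (nat_lit 512) (nat_lit 25) (@Lb.r r154 (@Lb.r r404 (@Lb.r r363 (@Lb.r r353 (@Lb.g g7 (@Lb.g g6 (@Lb.g g4 (@Lb.d (nat_lit 4) (nat_lit 0) (nat_lit 64) (@Lb.t (@Lb.fp (nat_lit 9) t334)))))))))))
noncomputable def l18080 : Lb := (@Lb.d (nat_lit 138) (nat_lit 522) (nat_lit 0) (@Lb.g g8 (@Lb.g g9 (@Lb.r r1367 (@Lb.r r82 (@Lb.r r161 (@Lb.r r2664 (@Lb.d (nat_lit 358) (nat_lit 18) (nat_lit 297) (@Lb.fm (nat_lit 3) t591)))))))))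
noncomputable def l18081 : Lb := (@Lb.d (nat_lit 138) (nat_lit 1) (nat_lit 0) (@Lb.g g8 (@Lb.g g9 (@Lb.r r1303 (@Lb.r r162 (@Lb.r r145 (@Lb.r r2664 (@Lb.d (nat_lit 353) (nat_lit 18) (nat_lit 424) (@Lb.fm (nat_lit 3) t334)))))))))
noncomputable def l18082 : Lb := (@Lb.r r21 (@Lb.r r323 (@Lb.d (nat_lit 6) (nat_lit 512) (nat_lit 1) (@Lb.g g8 (@Lb.g g6 (@Lb.r r387 (@Lb.r r25 (@Lb.d (nat_lit 10) (nat_lit 66) (nat_lit 80) (@Lb.fp (nat_lit 3) t2)))))))))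
noncomputable def l18083 : Lb := (@Lb.d (nat_lit 2) (nat_lit 514) (nat_lit 64) (@Lb.g g8 (@Lb.g g9 (@Lb.g g10 (@Lb.g g11 (@Lb.r r618 (@Lb.r r25 (@Lb.d (nat_lit 2) (nat_lit 16) (nat_lit 128) (@Lb.fp (nat_lit 9) t71)))))))))
noncomputable def l18084 : Lb := (@Lb.r r323 (@Lb.d (nat_lit 0) (nat_lit 514) (nat_lit 1) (@Lb.g g8 (@Lb.g g9 (@Lb.g g6 (@Lb.r r387 (@Lb.r r97 (@Lb.d (nat_lit 0) (nat_lit 128) (nat_lit 64) (@Lb.t (@Lb.fm (nat_lit 9) t126))))))))))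
noncomputable def l18085 : Lb := (@Lb.r r323 (@Lb.d (nat_lit 2) (nat_lit 512) (nat_lit 1) (@Lb.g g8 (@Lb.g g6 (@Lb.r r387 (@Lb.r r2145 (@Lb.r r24 (@Lb.d (nat_lit 8) (nat_lit 73) (nat_lit 98) (@Lb.fp (nat_lit 3) t167)))))))))
noncomputable def l18086 : Lb := (@Lb.r r323 (@Lb.d (nat_lit 32) (nat_lit 512) (nat_lit 2) (@Lb.g g10 (@Lb.r r584 (@Lb.r r299 (@Lb.r r289 (@Lb.d (nat_lit 8) (nat_lit 1) (nat_lit 2) (@Lb.t (@Lb.fp (nat_lit 3) t51)))))))))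
noncomputable def l18087 : Lb := (@Lb.d (nat_lit 32) (nat_lit 512) (nat_lit 130) (@Lb.g g10 (@Lb.g g11 (@Lb.r r423 (@Lb.r r596 (@Lb.r r74 (@Lb.r r289 (@Lb.d (nat_lit 40) (nat_lit 2) (nat_lit 2) (@Lb.fp (nat_lit 3) t51)))))))))
noncomputable def l18088 : Lb := (@Lb.r r323 (@Lb.d (nat_lit 32) (nat_lit 256) (nat_lit 2) (@Lb.g g10 (@Lb.r r584 (@Lb.r r299 (@Lb.r r289 (@Lb.d (nat_lit 1) (nat_lit 2) (nat_lit 2) (@Lb.t (@Lb.fp (nat_lit 3) t51)))))))))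
noncomputable def l18089 : Lb := (@Lb.r r323 (@Lb.d (nat_lit 2) (nat_lit 290) (nat_lit 2) (@Lb.g g8 (@Lb.g g9 (@Lb.g g10 (@Lb.r r599 (@Lb.r r74 (@Lb.r r296 (@Lb.r r409 (@Lb.d (nat_lit 152) (nat_lit 150) (nat_lit 386) (@Lb.t (@Lb.fm (nat_lit 9) t119))))))))))))
noncomputable def l18090 : Lb := (@Lb.d (nat_lit 2) (nat_lit 256) (nat_lit 64) (@Lb.g g8 (@Lb.g g10 (@Lb.g g7 (@Lb.r r402 (@Lb.r r2073 (@Lb.d (nat_lit 129) (nat_lit 17) (nat_lit 522) (@Lb.t (@Lb.fm (nat_lit 9) t3227)))))))))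
noncomputable def l18091 : Lb := (@Lb.d (nat_lit 2) (nat_lit 0) (nat_lit 65) (@Lb.g g8 (@Lb.g g10 (@Lb.g g7 (@Lb.r r1350 (@Lb.r r2073 (@Lb.d (nat_lit 610) (nat_lit 0) (nat_lit 292) (@Lb.t (@Lb.fp (nat_lit 9) t3657)))))))))
noncomputable def l18092 : Lb := (@Lb.d (nat_lit 2) (nat_lit 288) (nat_lit 130) (@Lb.g g8 (@Lb.g g10 (@Lb.g g11 (@Lb.r r602 (@Lb.r r600 (@Lb.r r293 (@Lb.r r2587 (@Lb.d (nat_lit 328) (nat_lit 41) (nat_lit 278) (@Lb.t (@Lb.fp (nat_lit 9) t71)))))))))))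
noncomputable def l18093 : Lb := (@Lb.d (nat_lit 1) (nat_lit 401) (nat_lit 161) (@Lb.r r68 (@Lb.r r154 (@Lb.r r660 (@Lb.r r81 (@Lb.g g11 (@Lb.g g6 (@Lb.g g5 (@Lb.g g4 (@Lb.d (nat_lit 1) (nat_lit 1) (nat_lit 129) (@Lb.fp (nat_lit 9) t50)))))))))))
noncomputable def l18094 : Lb := (@Lb.d (nat_lit 8) (nat_lit 0) (nat_lit 66) (@Lb.g g9 (@Lb.g g10 (@Lb.g g11 (@Lb.r r344 (@Lb.r r1415 (@Lb.r r2438 (@Lb.r r2705 (@Lb.d (nat_lit 162) (nat_lit 170) (nat_lit 576) (@Lb.t (@Lb.fm (nat_lit 9) t3065)))))))))))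
noncomputable def l18095 : Lb := (@Lb.d (nat_lit 389) (nat_lit 321) (nat_lit 640) (@Lb.r r2341 (@Lb.r r1624 (@Lb.r r2470 (@Lb.g g11 (@Lb.g g6 (@Lb.g g5 (@Lb.d (nat_lit 0) (nat_lit 0) (nat_lit 1) (@Lb.t (@Lb.fp (nat_lit 9) t3658))))))))))
noncomputable def l18096 : Lb := (@Lb.d (nat_lit 320) (nat_lit 352) (nat_lit 128) (@Lb.r r289 (@Lb.r r535 (@Lb.r r328 (@Lb.r r2726 (@Lb.g g7 (@Lb.g g6 (@Lb.g g5 (@Lb.d (nat_lit 0) (nat_lit 5) (nat_lit 132) (@Lb.t (@Lb.fp (nat_lit 9) t2756)))))))))))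
noncomputable def l18097 : Lb := (@Lb.d (nat_lit 104) (nat_lit 68) (nat_lit 582) (@Lb.r r1604 (@Lb.r r1450 (@Lb.r r2407 (@Lb.g g7 (@Lb.g g6 (@Lb.g g9 (@Lb.g g4 (@Lb.d (nat_lit 1) (nat_lit 73) (nat_lit 64) (@Lb.fp (nat_lit 9) t3659))))))))))
noncomputable def l18098 : Lb := (@Lb.d (nat_lit 2) (nat_lit 4) (nat_lit 0) (@Lb.g g8 (@Lb.g g9 (@Lb.g g10 (@Lb.r r683 (@Lb.r r1689 (@Lb.r r1688 (@Lb.r r1610 (@Lb.d (nat_lit 609) (nat_lit 138) (nat_lit 8) (@Lb.t (@Lb.fm (nat_lit 9) t3660)))))))))))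
noncomputable def l18099 : Lb := (@Lb.d (nat_lit 352) (nat_lit 260) (nat_lit 582) (@Lb.r r1604 (@Lb.r r2442 (@Lb.r r1367 (@Lb.g g7 (@Lb.g g6 (@Lb.g g5 (@Lb.g g4 (@Lb.d (nat_lit 1) (nat_lit 134) (nat_lit 66) (@Lb.fm (nat_lit 9) t3661))))))))))
noncomputable def l18100 : Lb := (@Lb.r r82 (@Lb.d (nat_lit 33) (nat_lit 162) (nat_lit 0) (@Lb.g g8 (@Lb.g g9 (@Lb.r r150 (@Lb.r r100 (@Lb.d (nat_lit 26) (nat_lit 104) (nat_lit 322) (@Lb.fp (nat_lit 3) t3662))))))))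
noncomputable def l18101 : Lb := (@Lb.d (nat_lit 352) (nat_lit 516) (nat_lit 582) (@Lb.r r1604 (@Lb.r r2442 (@Lb.r r1367 (@Lb.g g7 (@Lb.g g6 (@Lb.g g5 (@Lb.g g4 (@Lb.d (nat_lit 4) (nat_lit 132) (nat_lit 66) (@Lb.fm (nat_lit 9) t3663))))))))))
noncomputable def l18102 : Lb := (@Lb.d (nat_lit 608) (nat_lit 680) (nat_lit 102) (@Lb.r r2660 (@Lb.r r1450 (@Lb.r r2407 (@Lb.g g7 (@Lb.g g6 (@Lb.g g9 (@Lb.g g4 (@Lb.d (nat_lit 6) (nat_lit 69) (nat_lit 66) (@Lb.fp (nat_lit 9) t3664))))))))))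
noncomputable def l18103 : Lb := (@Lb.d (nat_lit 0) (nat_lit 256) (nat_lit 130) (@Lb.g g9 (@Lb.g g10 (@Lb.g g11 (@Lb.r r2691 (@Lb.r r2376 (@Lb.r r1366 (@Lb.r r409 (@Lb.d (nat_lit 644) (nat_lit 69) (nat_lit 584) (@Lb.t (@Lb.fm (nat_lit 9) t3665)))))))))))
noncomputable def l18104 : Lb := (@Lb.r r322 (@Lb.d (nat_lit 0) (nat_lit 16) (nat_lit 648) (@Lb.g g9 (@Lb.g g7 (@Lb.r r361 (@Lb.r r1124 (@Lb.r r2122 (@Lb.d (nat_lit 514) (nat_lit 10) (nat_lit 25) (@Lb.fm (nat_lit 3) t2422)))))))))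
noncomputable def l18105 : Lb := (@Lb.r r82 (@Lb.d (nat_lit 2) (nat_lit 553) (nat_lit 64) (@Lb.g g4 (@Lb.g g9 (@Lb.g g11 (@Lb.r r615 (@Lb.r r2458 (@Lb.r r1617 (@Lb.d (nat_lit 513) (nat_lit 104) (nat_lit 393) (@Lb.t (@Lb.fp (nat_lit 9) t107)))))))))))
noncomputable def l18106 : Lb := (@Lb.d (nat_lit 0) (nat_lit 0) (nat_lit 384) (@Lb.r r2132 (@Lb.r r1642 (@Lb.r r2665 (@Lb.r r616 (@Lb.g g11 (@Lb.t (@Lb.fp (nat_lit 3) t3574))))))))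
noncomputable def l18107 : Lb := (@Lb.d (nat_lit 128) (nat_lit 512) (nat_lit 384) (@Lb.g g11 (@Lb.r r152 (@Lb.r r2202 (@Lb.r r85 (@Lb.r r2212 (@Lb.d (nat_lit 0) (nat_lit 0) (nat_lit 37) (@Lb.t (@Lb.fp (nat_lit 3) t1982)))))))))
noncomputable def l18108 : Lb := (@Lb.d (nat_lit 42) (nat_lit 256) (nat_lit 72) (@Lb.g g8 (@Lb.g g11 (@Lb.r r614 (@Lb.r r1637 (@Lb.r r1428 (@Lb.d (nat_lit 358) (nat_lit 137) (nat_lit 329) (@Lb.fp (nat_lit 3) t572))))))))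
noncomputable def l18109 : Lb := (@Lb.d (nat_lit 406) (nat_lit 585) (nat_lit 326) (@Lb.r r1604 (@Lb.r r1621 (@Lb.r r2391 (@Lb.g g6 (@Lb.g g5 (@Lb.g g4 (@Lb.d (nat_lit 1) (nat_lit 1) (nat_lit 34) (@Lb.t (@Lb.fp (nat_lit 9) t1537))))))))))
noncomputable def l18110 : Lb := (@Lb.r r82 (@Lb.d (nat_lit 6) (nat_lit 257) (nat_lit 0) (@Lb.g g4 (@Lb.g g9 (@Lb.r r2122 (@Lb.r r1065 (@Lb.d (nat_lit 261) (nat_lit 66) (nat_lit 0) (@Lb.fm (nat_lit 3) t2818))))))))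
noncomputable def l18111 : Lb := (@Lb.r r82 (@Lb.d (nat_lit 10) (nat_lit 257) (nat_lit 128) (@Lb.g g8 (@Lb.g g9 (@Lb.g g11 (@Lb.r r1571 (@Lb.r r1192 (@Lb.r r1642 (@Lb.r r1633 (@Lb.d (nat_lit 608) (nat_lit 88) (nat_lit 356) (@Lb.t (@Lb.fp (nat_lit 9) t3666))))))))))))
noncomputable def l18112 : Lb := (@Lb.d (nat_lit 2) (nat_lit 9) (nat_lit 130) (@Lb.g g8 (@Lb.g g9 (@Lb.g g10 (@Lb.g g11 (@Lb.r r1666 (@Lb.r r1431 (@Lb.r r2657 (@Lb.r r24 (@Lb.d (nat_lit 552) (nat_lit 89) (nat_lit 25) (@Lb.fm (nat_lit 9) t1923)))))))))))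
noncomputable def l18113 : Lb := (@Lb.d (nat_lit 34) (nat_lit 514) (nat_lit 128) (@Lb.g g8 (@Lb.g g9 (@Lb.g g11 (@Lb.r r662 (@Lb.r r2455 (@Lb.r r97 (@Lb.r r1560 (@Lb.d (nat_lit 265) (nat_lit 105) (nat_lit 38) (@Lb.t (@Lb.fp (nat_lit 9) t564)))))))))))
noncomputable def l18114 : Lb := (@Lb.d (nat_lit 144) (nat_lit 265) (nat_lit 132) (@Lb.g g8 (@Lb.g g9 (@Lb.g g10 (@Lb.g g11 (@Lb.r r1706 (@Lb.r r2201 (@Lb.r r2328 (@Lb.r r519 (@Lb.d (nat_lit 642) (nat_lit 33) (nat_lit 298) (@Lb.fm (nat_lit 9) t3667)))))))))))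
noncomputable def l18115 : Lb := (@Lb.d (nat_lit 2) (nat_lit 516) (nat_lit 128) (@Lb.g g8 (@Lb.g g9 (@Lb.g g10 (@Lb.g g11 (@Lb.r r1699 (@Lb.r r596 (@Lb.r r682 (@Lb.r r2217 (@Lb.r r2212 (@Lb.d (nat_lit 361) (nat_lit 97) (nat_lit 601) (@Lb.fm (nat_lit 9) t1028))))))))))))
noncomputable def l18116 : Lb := (@Lb.r r275 (@Lb.d (nat_lit 2) (nat_lit 514) (nat_lit 2) (@Lb.g g8 (@Lb.g g9 (@Lb.g g10 (@Lb.r r1707 (@Lb.r r2202 (@Lb.r r2201 (@Lb.r r24 (@Lb.d (nat_lit 514) (nat_lit 9) (nat_lit 85) (@Lb.t (@Lb.fp (nat_lit 9) t3668))))))))))))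
noncomputable def l18117 : Lb := (@Lb.d (nat_lit 8) (nat_lit 4) (nat_lit 128) (@Lb.g g9 (@Lb.g g10 (@Lb.g g11 (@Lb.r r614 (@Lb.r r404 (@Lb.r r1371 (@Lb.r r2705 (@Lb.d (nat_lit 9) (nat_lit 34) (nat_lit 296) (@Lb.t (@Lb.fm (nat_lit 9) t795)))))))))))
noncomputable def l18118 : Lb := (@Lb.d (nat_lit 2) (nat_lit 516) (nat_lit 128) (@Lb.g g8 (@Lb.g g9 (@Lb.g g10 (@Lb.g g11 (@Lb.r r427 (@Lb.r r420 (@Lb.r r102 (@Lb.r r97 (@Lb.r r36 (@Lb.d (nat_lit 9) (nat_lit 90) (nat_lit 324) (@Lb.fm (nat_lit 9) t1252))))))))))))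
noncomputable def l18119 : Lb := (@Lb.d (nat_lit 0) (nat_lit 544) (nat_lit 128) (@Lb.g g11 (@Lb.r r1361 (@Lb.r r1699 (@Lb.r r2178 (@Lb.r r1156 (@Lb.d (nat_lit 2) (nat_lit 24) (nat_lit 290) (@Lb.t (@Lb.fp (nat_lit 3) t1540)))))))))
noncomputable def l18120 : Lb := (@Lb.r r275 (@Lb.d (nat_lit 0) (nat_lit 546) (nat_lit 2) (@Lb.g g8 (@Lb.g g9 (@Lb.g g10 (@Lb.r r419 (@Lb.r r1702 (@Lb.r r1636 (@Lb.r r1557 (@Lb.d (nat_lit 390) (nat_lit 33) (nat_lit 640) (@Lb.t (@Lb.fp (nat_lit 9) t1001))))))))))))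
noncomputable def l18121 : Lb := (@Lb.d (nat_lit 166) (nat_lit 2) (nat_lit 0) (@Lb.g g8 (@Lb.g g9 (@Lb.r r423 (@Lb.r r2469 (@Lb.r r1126 (@Lb.r r148 (@Lb.d (nat_lit 38) (nat_lit 10) (nat_lit 536) (@Lb.fp (nat_lit 3) t2)))))))))
noncomputable def l18122 : Lb := (@Lb.r r82 (@Lb.d (nat_lit 34) (nat_lit 514) (nat_lit 128) (@Lb.g g8 (@Lb.g g9 (@Lb.g g11 (@Lb.r r363 (@Lb.r r582 (@Lb.r r408 (@Lb.d (nat_lit 149) (nat_lit 24) (nat_lit 137) (@Lb.t (@Lb.fp (nat_lit 9) t601)))))))))))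
noncomputable def l18123 : Lb := (@Lb.d (nat_lit 425) (nat_lit 265) (nat_lit 38) (@Lb.r r24 (@Lb.r r101 (@Lb.r r386 (@Lb.r r339 (@Lb.g g7 (@Lb.g g6 (@Lb.d (nat_lit 0) (nat_lit 0) (nat_lit 65) (@Lb.fp (nat_lit 3) t106)))))))))
noncomputable def l18124 : Lb := (@Lb.d (nat_lit 146) (nat_lit 265) (nat_lit 9) (@Lb.g g8 (@Lb.g g9 (@Lb.g g10 (@Lb.g g11 (@Lb.r r611 (@Lb.r r2630 (@Lb.r r2201 (@Lb.r r2200 (@Lb.d (nat_lit 22) (nat_lit 41) (nat_lit 274) (@Lb.fp (nat_lit 9) t113)))))))))))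
noncomputable def l18125 : Lb := (@Lb.d (nat_lit 273) (nat_lit 517) (nat_lit 34) (@Lb.fp (nat_lit 1) t2512))
noncomputable def l18126 : Lb := (@Lb.r r323 (@Lb.d (nat_lit 0) (nat_lit 264) (nat_lit 34) (@Lb.g g9 (@Lb.g g10 (@Lb.r r584 (@Lb.r r667 (@Lb.r r337 (@Lb.d (nat_lit 10) (nat_lit 97) (nat_lit 146) (@Lb.fm (nat_lit 3) t394)))))))))
noncomputable def l18127 : Lb := (@Lb.d (nat_lit 2) (nat_lit 10) (nat_lit 129) (@Lb.g g8 (@Lb.g g9 (@Lb.g g10 (@Lb.g g11 (@Lb.r r675 (@Lb.r r578 (@Lb.r r36 (@Lb.r r149 (@Lb.r r36 (@Lb.d (nat_lit 81) (nat_lit 5) (nat_lit 9) (@Lb.fm (nat_lit 9) t98))))))))))))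
noncomputable def l18128 : Lb := (@Lb.d (nat_lit 0) (nat_lit 330) (nat_lit 129) (@Lb.g g8 (@Lb.g g9 (@Lb.g g10 (@Lb.g g11 (@Lb.r r299 (@Lb.r r420 (@Lb.r r102 (@Lb.r r132 (@Lb.d (nat_lit 520) (nat_lit 138) (nat_lit 153) (@Lb.fp (nat_lit 9) t1640)))))))))))
noncomputable def l18129 : Lb := (@Lb.d (nat_lit 2) (nat_lit 266) (nat_lit 129) (@Lb.g g8 (@Lb.g g9 (@Lb.g g10 (@Lb.g g11 (@Lb.r r675 (@Lb.r r578 (@Lb.r r36 (@Lb.r r149 (@Lb.r r36 (@Lb.d (nat_lit 80) (nat_lit 5) (nat_lit 9) (@Lb.fm (nat_lit 9) t98))))))))))))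
noncomputable def l18130 : Lb := (@Lb.d (nat_lit 326) (nat_lit 329) (nat_lit 608) (@Lb.r r1284 (@Lb.r r1301 (@Lb.r r2667 (@Lb.g g10 (@Lb.g g5 (@Lb.g g4 (@Lb.d (nat_lit 1) (nat_lit 1) (nat_lit 33) (@Lb.r r387 (@Lb.t (@Lb.fp (nat_lit 9) t1526)))))))))))
noncomputable def l18131 : Lb := (@Lb.d (nat_lit 294) (nat_lit 257) (nat_lit 17) (@Lb.r r2133 (@Lb.r r2391 (@Lb.g g6 (@Lb.g g5 (@Lb.g g4 (@Lb.d (nat_lit 1) (nat_lit 0) (nat_lit 17) (@Lb.r r291 (@Lb.t (@Lb.fp (nat_lit 9) t68))))))))))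
noncomputable def l18132 : Lb := (@Lb.r r82 (@Lb.d (nat_lit 34) (nat_lit 2) (nat_lit 128) (@Lb.g g8 (@Lb.g g9 (@Lb.g g11 (@Lb.r r363 (@Lb.r r582 (@Lb.r r408 (@Lb.d (nat_lit 149) (nat_lit 85) (nat_lit 153) (@Lb.t (@Lb.fp (nat_lit 9) t408)))))))))))
noncomputable def l18133 : Lb := (@Lb.d (nat_lit 134) (nat_lit 256) (nat_lit 66) (@Lb.g g8 (@Lb.g g9 (@Lb.g g10 (@Lb.g g11 (@Lb.r r1706 (@Lb.r r1700 (@Lb.r r2597 (@Lb.r r611 (@Lb.d (nat_lit 610) (nat_lit 160) (nat_lit 390) (@Lb.fm (nat_lit 9) t1686)))))))))))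
noncomputable def l18134 : Lb := (@Lb.d (nat_lit 2) (nat_lit 528) (nat_lit 137) (@Lb.g g8 (@Lb.g g9 (@Lb.g g10 (@Lb.g g11 (@Lb.r r427 (@Lb.r r420 (@Lb.r r102 (@Lb.r r2149 (@Lb.r r132 (@Lb.d (nat_lit 33) (nat_lit 137) (nat_lit 152) (@Lb.fm (nat_lit 9) t1524))))))))))))
noncomputable def l18135 : Lb := (@Lb.d (nat_lit 2) (nat_lit 514) (nat_lit 74) (@Lb.g g8 (@Lb.g g9 (@Lb.g g10 (@Lb.g g11 (@Lb.r r1666 (@Lb.r r1431 (@Lb.r r2657 (@Lb.r r24 (@Lb.d (nat_lit 552) (nat_lit 89) (nat_lit 82) (@Lb.fm (nat_lit 9) t3669)))))))))))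
noncomputable def l18136 : Lb := (@Lb.r r21 (@Lb.r r70 (@Lb.d (nat_lit 390) (nat_lit 512) (nat_lit 136) (@Lb.g g8 (@Lb.g g11 (@Lb.r r74 (@Lb.r r25 (@Lb.d (nat_lit 522) (nat_lit 66) (nat_lit 2) (@Lb.fm (nat_lit 3) t42)))))))))
noncomputable def l18137 : Lb := (@Lb.r r21 (@Lb.d (nat_lit 2) (nat_lit 512) (nat_lit 73) (@Lb.g g8 (@Lb.g g10 (@Lb.g g11 (@Lb.r r2691 (@Lb.r r2184 (@Lb.r r2666 (@Lb.r r97 (@Lb.d (nat_lit 646) (nat_lit 2) (nat_lit 69) (@Lb.t (@Lb.fp (nat_lit 9) t668))))))))))))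
noncomputable def l18138 : Lb := (@Lb.d (nat_lit 8) (nat_lit 422) (nat_lit 6) (@Lb.r r21 (@Lb.r r2390 (@Lb.r r2731 (@Lb.g g7 (@Lb.g g6 (@Lb.g g5 (@Lb.g g4 (@Lb.d (nat_lit 549) (nat_lit 4) (nat_lit 70) (@Lb.fm (nat_lit 9) t40))))))))))
noncomputable def l18139 : Lb := (@Lb.d (nat_lit 132) (nat_lit 266) (nat_lit 1) (@Lb.g g8 (@Lb.g g9 (@Lb.g g10 (@Lb.r r2345 (@Lb.r r1683 (@Lb.r r1610 (@Lb.r r104 (@Lb.d (nat_lit 424) (nat_lit 168) (nat_lit 17) (@Lb.t (@Lb.fp (nat_lit 9) t98)))))))))))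
noncomputable def l18140 : Lb := (@Lb.d (nat_lit 0) (nat_lit 258) (nat_lit 0) (@Lb.g g9 (@Lb.r r102 (@Lb.r r1125 (@Lb.r r2196 (@Lb.d (nat_lit 281) (nat_lit 98) (nat_lit 293) (@Lb.t (@Lb.fm (nat_lit 3) t700))))))))
noncomputable def l18141 : Lb := (@Lb.d (nat_lit 4) (nat_lit 281) (nat_lit 9) (@Lb.g g8 (@Lb.g g9 (@Lb.g g10 (@Lb.g g11 (@Lb.r r2567 (@Lb.r r1418 (@Lb.r r1633 (@Lb.r r36 (@Lb.d (nat_lit 90) (nat_lit 21) (nat_lit 261) (@Lb.fm (nat_lit 9) t2178)))))))))))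
noncomputable def l18142 : Lb := (@Lb.d (nat_lit 37) (nat_lit 512) (nat_lit 73) (@Lb.g g8 (@Lb.g g9 (@Lb.g g10 (@Lb.g g11 (@Lb.r r1366 (@Lb.r r2711 (@Lb.r r1449 (@Lb.r r612 (@Lb.d (nat_lit 521) (nat_lit 66) (nat_lit 22) (@Lb.fp (nat_lit 9) t1377)))))))))))
noncomputable def l18143 : Lb := (@Lb.d (nat_lit 0) (nat_lit 512) (nat_lit 2) (@Lb.g g10 (@Lb.r r1411 (@Lb.r r1169 (@Lb.r r146 (@Lb.r r1124 (@Lb.d (nat_lit 0) (nat_lit 6) (nat_lit 0) (@Lb.t (@Lb.fm (nat_lit 3) t772)))))))))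
noncomputable def l18144 : Lb := (@Lb.r r21 (@Lb.d (nat_lit 80) (nat_lit 0) (nat_lit 64) (@Lb.g g8 (@Lb.g g10 (@Lb.g g11 (@Lb.r r647 (@Lb.r r402 (@Lb.r r97 (@Lb.r r520 (@Lb.d (nat_lit 68) (nat_lit 1) (nat_lit 128) (@Lb.t (@Lb.fm (nat_lit 9) t3670))))))))))))
noncomputable def l18145 : Lb := (@Lb.r r263 (@Lb.d (nat_lit 41) (nat_lit 512) (nat_lit 2) (@Lb.g g8 (@Lb.g g10 (@Lb.r r1411 (@Lb.r r101 (@Lb.r r1114 (@Lb.r r88 (@Lb.d (nat_lit 553) (nat_lit 132) (nat_lit 2) (@Lb.fm (nat_lit 3) t3671))))))))))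
noncomputable def l18146 : Lb := (@Lb.d (nat_lit 168) (nat_lit 546) (nat_lit 66) (@Lb.g g8 (@Lb.g g9 (@Lb.g g10 (@Lb.g g11 (@Lb.r r343 (@Lb.r r1410 (@Lb.r r85 (@Lb.r r2580 (@Lb.d (nat_lit 82) (nat_lit 9) (nat_lit 277) (@Lb.fm (nat_lit 9) t3672)))))))))))
noncomputable def l18147 : Lb := (@Lb.r r82 (@Lb.d (nat_lit 133) (nat_lit 290) (nat_lit 64) (@Lb.g g8 (@Lb.g g9 (@Lb.g g11 (@Lb.r r555 (@Lb.r r1369 (@Lb.r r98 (@Lb.r r516 (@Lb.d (nat_lit 545) (nat_lit 0) (nat_lit 37) (@Lb.t (@Lb.fp (nat_lit 9) t2448))))))))))))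
noncomputable def l18148 : Lb := (@Lb.d (nat_lit 133) (nat_lit 292) (nat_lit 64) (@Lb.g g8 (@Lb.g g9 (@Lb.g g10 (@Lb.g g11 (@Lb.r r683 (@Lb.r r1386 (@Lb.r r1305 (@Lb.r r516 (@Lb.d (nat_lit 521) (nat_lit 98) (nat_lit 26) (@Lb.fm (nat_lit 9) t2448)))))))))))
noncomputable def l18149 : Lb := (@Lb.d (nat_lit 406) (nat_lit 277) (nat_lit 550) (@Lb.r r2453 (@Lb.r r2667 (@Lb.g g10 (@Lb.g g5 (@Lb.g g4 (@Lb.d (nat_lit 1) (nat_lit 2) (nat_lit 33) (@Lb.r r403 (@Lb.t (@Lb.fp (nat_lit 9) t918))))))))))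
noncomputable def l18150 : Lb := (@Lb.d (nat_lit 656) (nat_lit 256) (nat_lit 262) (@Lb.r r24 (@Lb.r r101 (@Lb.r r386 (@Lb.g g11 (@Lb.g g6 (@Lb.d (nat_lit 0) (nat_lit 0) (nat_lit 70) (@Lb.fm (nat_lit 3) t2558))))))))
noncomputable def l18151 : Lb := (@Lb.d (nat_lit 0) (nat_lit 0) (nat_lit 73) (@Lb.g g10 (@Lb.g g11 (@Lb.r r419 (@Lb.r r1620 (@Lb.r r409 (@Lb.r r2458 (@Lb.d (nat_lit 402) (nat_lit 24) (nat_lit 297) (@Lb.fp (nat_lit 3) t3673)))))))))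
noncomputable def l18152 : Lb := (@Lb.r r21 (@Lb.r r70 (@Lb.d (nat_lit 657) (nat_lit 256) (nat_lit 128) (@Lb.g g8 (@Lb.g g11 (@Lb.r r1419 (@Lb.r r74 (@Lb.r r25 (@Lb.d (nat_lit 354) (nat_lit 0) (nat_lit 98) (@Lb.fm (nat_lit 3) t3674))))))))))
noncomputable def l18153 : Lb := (@Lb.d (nat_lit 128) (nat_lit 32) (nat_lit 136) (@Lb.g g11 (@Lb.r r420 (@Lb.r r2469 (@Lb.r r1446 (@Lb.r r347 (@Lb.d (nat_lit 289) (nat_lit 86) (nat_lit 646) (@Lb.t (@Lb.fp (nat_lit 3) t748)))))))))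
noncomputable def l18154 : Lb := (@Lb.d (nat_lit 129) (nat_lit 258) (nat_lit 73) (@Lb.g g8 (@Lb.g g9 (@Lb.g g10 (@Lb.g g11 (@Lb.r r2411 (@Lb.r r386 (@Lb.r r1625 (@Lb.r r1604 (@Lb.d (nat_lit 409) (nat_lit 73) (nat_lit 274) (@Lb.fm (nat_lit 9) t474)))))))))))
noncomputable def l18155 : Lb := (@Lb.d (nat_lit 642) (nat_lit 2) (nat_lit 130) (@Lb.g g8 (@Lb.g g9 (@Lb.g g10 (@Lb.g g11 (@Lb.r r1451 (@Lb.r r106 (@Lb.r r25 (@Lb.d (nat_lit 9) (nat_lit 9) (nat_lit 290) (@Lb.fp (nat_lit 9) t575))))))))))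
noncomputable def l18156 : Lb := (@Lb.r r20 (@Lb.r r82 (@Lb.d (nat_lit 4) (nat_lit 102) (nat_lit 128) (@Lb.g g5 (@Lb.g g11 (@Lb.r r1560 (@Lb.r r1419 (@Lb.r r386 (@Lb.d (nat_lit 96) (nat_lit 1) (nat_lit 264) (@Lb.fp (nat_lit 3) t739))))))))))
noncomputable def l18157 : Lb := (@Lb.d (nat_lit 0) (nat_lit 288) (nat_lit 64) (@Lb.g g11 (@Lb.r r1684 (@Lb.r r345 (@Lb.r r1638 (@Lb.r r1635 (@Lb.d (nat_lit 5) (nat_lit 42) (nat_lit 410) (@Lb.t (@Lb.fm (nat_lit 3) t1818)))))))))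
noncomputable def l18158 : Lb := (@Lb.d (nat_lit 400) (nat_lit 512) (nat_lit 288) (@Lb.g g6 (@Lb.t (@Lb.fm (nat_lit 3) t3675))))
noncomputable def l18159 : Lb := (@Lb.d (nat_lit 0) (nat_lit 288) (nat_lit 64) (@Lb.g g11 (@Lb.r r1684 (@Lb.r r345 (@Lb.r r1638 (@Lb.r r615 (@Lb.d (nat_lit 596) (nat_lit 169) (nat_lit 74) (@Lb.t (@Lb.fm (nat_lit 3) t2260)))))))))
noncomputable def l18160 : Lb := (@Lb.d (nat_lit 0) (nat_lit 544) (nat_lit 64) (@Lb.g g11 (@Lb.r r1684 (@Lb.r r345 (@Lb.r r1638 (@Lb.r r1635 (@Lb.d (nat_lit 4) (nat_lit 42) (nat_lit 410) (@Lb.t (@Lb.fm (nat_lit 3) t3676)))))))))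
noncomputable def l18161 : Lb := (@Lb.d (nat_lit 129) (nat_lit 2) (nat_lit 130) (@Lb.g g8 (@Lb.g g9 (@Lb.g g10 (@Lb.g g11 (@Lb.r r2666 (@Lb.r r612 (@Lb.r r1319 (@Lb.r r405 (@Lb.r r2084 (@Lb.d (nat_lit 610) (nat_lit 128) (nat_lit 170) (@Lb.fp (nat_lit 9) t2805))))))))))))
noncomputable def l18162 : Lb := (@Lb.d (nat_lit 10) (nat_lit 616) (nat_lit 658) (@Lb.r r1346 (@Lb.r r2707 (@Lb.g g7 (@Lb.g g6 (@Lb.g g9 (@Lb.d (nat_lit 0) (nat_lit 0) (nat_lit 133) (@Lb.t (@Lb.fp (nat_lit 9) t1602)))))))))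
noncomputable def l18163 : Lb := (@Lb.r r275 (@Lb.d (nat_lit 0) (nat_lit 265) (nat_lit 1) (@Lb.g g9 (@Lb.g g10 (@Lb.r r595 (@Lb.r r2154 (@Lb.r r1636 (@Lb.r r1557 (@Lb.d (nat_lit 69) (nat_lit 81) (nat_lit 256) (@Lb.fp (nat_lit 3) t827))))))))))
noncomputable def l18164 : Lb := (@Lb.d (nat_lit 8) (nat_lit 21) (nat_lit 544) (@Lb.r r1635 (@Lb.r r2394 (@Lb.r r661 (@Lb.r r2404 (@Lb.g g7 (@Lb.d (nat_lit 0) (nat_lit 16) (nat_lit 128) (@Lb.t (@Lb.fp (nat_lit 3) t1915)))))))))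
noncomputable def l18165 : Lb := (@Lb.r r81 (@Lb.d (nat_lit 33) (nat_lit 548) (nat_lit 104) (@Lb.g g8 (@Lb.g g10 (@Lb.g g11 (@Lb.r r353 (@Lb.r r347 (@Lb.r r408 (@Lb.d (nat_lit 134) (nat_lit 26) (nat_lit 152) (@Lb.t (@Lb.fm (nat_lit 9) t573)))))))))))
noncomputable def l18166 : Lb := (@Lb.d (nat_lit 2) (nat_lit 0) (nat_lit 72) (@Lb.g g8 (@Lb.g g9 (@Lb.g g10 (@Lb.g g11 (@Lb.r r1411 (@Lb.r r2154 (@Lb.r r1633 (@Lb.r r24 (@Lb.d (nat_lit 584) (nat_lit 153) (nat_lit 130) (@Lb.fp (nat_lit 9) t1741)))))))))))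
noncomputable def l18167 : Lb := (@Lb.d (nat_lit 42) (nat_lit 256) (nat_lit 72) (@Lb.g g8 (@Lb.g g11 (@Lb.r r614 (@Lb.r r1637 (@Lb.r r1428 (@Lb.d (nat_lit 358) (nat_lit 25) (nat_lit 682) (@Lb.fp (nat_lit 3) t2428))))))))
noncomputable def l18168 : Lb := (@Lb.d (nat_lit 2) (nat_lit 8) (nat_lit 73) (@Lb.g g8 (@Lb.g g10 (@Lb.g g11 (@Lb.r r2707 (@Lb.r r2345 (@Lb.r r1188 (@Lb.r r1158 (@Lb.d (nat_lit 289) (nat_lit 10) (nat_lit 648) (@Lb.t (@Lb.fp (nat_lit 9) t242)))))))))))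
noncomputable def l18169 : Lb := (@Lb.r r323 (@Lb.d (nat_lit 32) (nat_lit 41) (nat_lit 10) (@Lb.g g9 (@Lb.g g10 (@Lb.r r587 (@Lb.r r612 (@Lb.r r330 (@Lb.d (nat_lit 98) (nat_lit 146) (nat_lit 6) (@Lb.fp (nat_lit 3) t501)))))))))
noncomputable def l18170 : Lb := (@Lb.r r323 (@Lb.d (nat_lit 2) (nat_lit 265) (nat_lit 1) (@Lb.g g8 (@Lb.g g9 (@Lb.g g10 (@Lb.r r401 (@Lb.r r299 (@Lb.r r392 (@Lb.r r74 (@Lb.d (nat_lit 528) (nat_lit 10) (nat_lit 170) (@Lb.t (@Lb.fp (nat_lit 9) t819))))))))))))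
noncomputable def l18171 : Lb := (@Lb.d (nat_lit 10) (nat_lit 257) (nat_lit 130) (@Lb.g g8 (@Lb.g g9 (@Lb.g g10 (@Lb.g g11 (@Lb.r r683 (@Lb.r r1689 (@Lb.r r1178 (@Lb.r r1156 (@Lb.d (nat_lit 344) (nat_lit 2) (nat_lit 280) (@Lb.fp (nat_lit 9) t284)))))))))))
noncomputable def l18172 : Lb := (@Lb.d (nat_lit 16) (nat_lit 585) (nat_lit 2) (@Lb.g g8 (@Lb.g g9 (@Lb.g g10 (@Lb.r r1675 (@Lb.r r1642 (@Lb.r r2084 (@Lb.d (nat_lit 354) (nat_lit 89) (nat_lit 297) (@Lb.t (@Lb.fp (nat_lit 9) t98))))))))))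
noncomputable def l18173 : Lb := (@Lb.r r323 (@Lb.d (nat_lit 0) (nat_lit 9) (nat_lit 1) (@Lb.g g8 (@Lb.g g9 (@Lb.g g10 (@Lb.r r401 (@Lb.r r299 (@Lb.r r392 (@Lb.r r74 (@Lb.d (nat_lit 528) (nat_lit 10) (nat_lit 170) (@Lb.t (@Lb.fp (nat_lit 9) t819))))))))))))
noncomputable def l18174 : Lb := (@Lb.d (nat_lit 16) (nat_lit 585) (nat_lit 64) (@Lb.g g8 (@Lb.g g9 (@Lb.g g10 (@Lb.g g11 (@Lb.r r1315 (@Lb.r r1610 (@Lb.r r2084 (@Lb.d (nat_lit 361) (nat_lit 82) (nat_lit 642) (@Lb.fp (nat_lit 9) t1161))))))))))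
noncomputable def l18175 : Lb := (@Lb.r r1126 (@Lb.r r24 (@Lb.d (nat_lit 356) (nat_lit 512) (nat_lit 528) (@Lb.fm (nat_lit 1) t49))))
noncomputable def l18176 : Lb := (@Lb.d (nat_lit 0) (nat_lit 2) (nat_lit 0) (@Lb.g g8 (@Lb.g g9 (@Lb.r r1122 (@Lb.r r25 (@Lb.r r24 (@Lb.d (nat_lit 354) (nat_lit 0) (nat_lit 528) (@Lb.fp (nat_lit 3) t49))))))))
noncomputable def l18177 : Lb := (@Lb.d (nat_lit 0) (nat_lit 1) (nat_lit 73) (@Lb.g g8 (@Lb.g g9 (@Lb.g g10 (@Lb.g g11 (@Lb.r r2713 (@Lb.r r1691 (@Lb.r r1178 (@Lb.r r2584 (@Lb.d (nat_lit 280) (nat_lit 2) (nat_lit 160) (@Lb.fm (nat_lit 9) t521)))))))))))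
noncomputable def l18178 : Lb := (@Lb.d (nat_lit 128) (nat_lit 256) (nat_lit 136) (@Lb.g g11 (@Lb.r r1045 (@Lb.r r420 (@Lb.r r390 (@Lb.r r1387 (@Lb.d (nat_lit 36) (nat_lit 18) (nat_lit 166) (@Lb.t (@Lb.fm (nat_lit 3) t820)))))))))
noncomputable def l18179 : Lb := (@Lb.d (nat_lit 16) (nat_lit 585) (nat_lit 130) (@Lb.g g8 (@Lb.g g9 (@Lb.g g10 (@Lb.g g11 (@Lb.r r2475 (@Lb.r r2442 (@Lb.r r1444 (@Lb.d (nat_lit 361) (nat_lit 160) (nat_lit 393) (@Lb.fm (nat_lit 9) t803))))))))))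
noncomputable def l18180 : Lb := (@Lb.d (nat_lit 128) (nat_lit 512) (nat_lit 136) (@Lb.g g11 (@Lb.r r1045 (@Lb.r r420 (@Lb.r r390 (@Lb.r r1387 (@Lb.d (nat_lit 34) (nat_lit 17) (nat_lit 166) (@Lb.t (@Lb.fm (nat_lit 3) t820)))))))))
noncomputable def l18181 : Lb := (@Lb.r r21 (@Lb.d (nat_lit 6) (nat_lit 512) (nat_lit 64) (@Lb.g g8 (@Lb.g g10 (@Lb.g g11 (@Lb.r r618 (@Lb.r r25 (@Lb.d (nat_lit 10) (nat_lit 25) (nat_lit 130) (@Lb.t (@Lb.fm (nat_lit 9) t71))))))))))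
noncomputable def l18182 : Lb := (@Lb.d (nat_lit 0) (nat_lit 2) (nat_lit 130) (@Lb.g g8 (@Lb.g g9 (@Lb.g g10 (@Lb.g g11 (@Lb.r r427 (@Lb.r r145 (@Lb.r r356 (@Lb.r r154 (@Lb.r r132 (@Lb.d (nat_lit 10) (nat_lit 2) (nat_lit 2) (@Lb.fm (nat_lit 9) t61))))))))))))
noncomputable def l18183 : Lb := (@Lb.r r82 (@Lb.r r275 (@Lb.d (nat_lit 32) (nat_lit 282) (nat_lit 0) (@Lb.g g8 (@Lb.g g9 (@Lb.r r427 (@Lb.r r582 (@Lb.r r392 (@Lb.d (nat_lit 130) (nat_lit 9) (nat_lit 1) (@Lb.fp (nat_lit 3) t31))))))))))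
noncomputable def l18184 : Lb := (@Lb.r r323 (@Lb.d (nat_lit 32) (nat_lit 0) (nat_lit 2) (@Lb.g g10 (@Lb.r r584 (@Lb.r r299 (@Lb.r r289 (@Lb.d (nat_lit 10) (nat_lit 1) (nat_lit 2) (@Lb.t (@Lb.fp (nat_lit 3) t51)))))))))
noncomputable def l18185 : Lb := (@Lb.d (nat_lit 2) (nat_lit 514) (nat_lit 73) (@Lb.g g8 (@Lb.g g9 (@Lb.g g10 (@Lb.g g11 (@Lb.r r2666 (@Lb.r r579 (@Lb.r r97 (@Lb.r r24 (@Lb.d (nat_lit 152) (nat_lit 2) (nat_lit 324) (@Lb.fm (nat_lit 9) t61)))))))))))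
noncomputable def l18186 : Lb := (@Lb.r r82 (@Lb.d (nat_lit 8) (nat_lit 256) (nat_lit 128) (@Lb.g g9 (@Lb.g g11 (@Lb.r r551 (@Lb.r r386 (@Lb.r r280 (@Lb.r r661 (@Lb.d (nat_lit 20) (nat_lit 32) (nat_lit 72) (@Lb.fp (nat_lit 3) t98))))))))))
noncomputable def l18187 : Lb := (@Lb.r r82 (@Lb.d (nat_lit 8) (nat_lit 0) (nat_lit 128) (@Lb.g g9 (@Lb.g g11 (@Lb.r r551 (@Lb.r r386 (@Lb.r r280 (@Lb.r r661 (@Lb.d (nat_lit 21) (nat_lit 32) (nat_lit 72) (@Lb.fp (nat_lit 3) t98))))))))))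
noncomputable def l18188 : Lb := (@Lb.r r322 (@Lb.d (nat_lit 36) (nat_lit 512) (nat_lit 8) (@Lb.g g8 (@Lb.g g9 (@Lb.g g11 (@Lb.r r2450 (@Lb.r r1701 (@Lb.r r152 (@Lb.d (nat_lit 17) (nat_lit 8) (nat_lit 642) (@Lb.t (@Lb.fp (nat_lit 9) t3677)))))))))))
noncomputable def l18189 : Lb := (@Lb.d (nat_lit 0) (nat_lit 258) (nat_lit 64) (@Lb.g g9 (@Lb.g g10 (@Lb.g g7 (@Lb.r r1410 (@Lb.r r97 (@Lb.r r36 (@Lb.d (nat_lit 5) (nat_lit 8) (nat_lit 297) (@Lb.t (@Lb.fp (nat_lit 9) t40))))))))))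
noncomputable def l18190 : Lb := (@Lb.d (nat_lit 0) (nat_lit 512) (nat_lit 129) (@Lb.r r402 (@Lb.r r101 (@Lb.r r24 (@Lb.g g11 (@Lb.g g9 (@Lb.fp (nat_lit 3) t145)))))))
noncomputable def l18191 : Lb := (@Lb.r r82 (@Lb.r r275 (@Lb.d (nat_lit 32) (nat_lit 642) (nat_lit 0) (@Lb.g g8 (@Lb.g g5 (@Lb.r r427 (@Lb.r r582 (@Lb.r r408 (@Lb.d (nat_lit 258) (nat_lit 89) (nat_lit 544) (@Lb.fm (nat_lit 3) t1244))))))))))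
noncomputable def l18192 : Lb := (@Lb.d (nat_lit 0) (nat_lit 514) (nat_lit 64) (@Lb.g g9 (@Lb.g g10 (@Lb.g g7 (@Lb.r r1410 (@Lb.r r97 (@Lb.r r36 (@Lb.d (nat_lit 5) (nat_lit 6) (nat_lit 296) (@Lb.t (@Lb.fp (nat_lit 9) t40))))))))))
noncomputable def l18193 : Lb := (@Lb.r r323 (@Lb.d (nat_lit 2) (nat_lit 4) (nat_lit 0) (@Lb.g g8 (@Lb.g g9 (@Lb.g g10 (@Lb.r r401 (@Lb.r r299 (@Lb.r r392 (@Lb.r r74 (@Lb.d (nat_lit 34) (nat_lit 0) (nat_lit 136) (@Lb.t (@Lb.fp (nat_lit 9) t31))))))))))))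
noncomputable def l18194 : Lb := (@Lb.r r323 (@Lb.d (nat_lit 5) (nat_lit 5) (nat_lit 42) (@Lb.g g8 (@Lb.g g9 (@Lb.g g6 (@Lb.r r387 (@Lb.r r297 (@Lb.r r36 (@Lb.d (nat_lit 130) (nat_lit 0) (nat_lit 528) (@Lb.t (@Lb.fm (nat_lit 9) t41)))))))))))
noncomputable def l18195 : Lb := (@Lb.d (nat_lit 169) (nat_lit 101) (nat_lit 520) (@Lb.r r676 (@Lb.r r289 (@Lb.r r422 (@Lb.g g11 (@Lb.g g4 (@Lb.d (nat_lit 17) (nat_lit 0) (nat_lit 0) (@Lb.fp (nat_lit 3) t3568))))))))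
noncomputable def l18196 : Lb := (@Lb.d (nat_lit 5) (nat_lit 512) (nat_lit 9) (@Lb.g g8 (@Lb.g g9 (@Lb.g g10 (@Lb.g g7 (@Lb.r r386 (@Lb.r r2153 (@Lb.r r36 (@Lb.d (nat_lit 290) (nat_lit 0) (nat_lit 41) (@Lb.fm (nat_lit 9) t40))))))))))
noncomputable def l18197 : Lb := (@Lb.d (nat_lit 4) (nat_lit 529) (nat_lit 585) (@Lb.g g8 (@Lb.g g9 (@Lb.g g10 (@Lb.g g7 (@Lb.r r386 (@Lb.r r1121 (@Lb.d (nat_lit 9) (nat_lit 73) (nat_lit 25) (@Lb.fm (nat_lit 9) t2297)))))))))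
noncomputable def l18198 : Lb := (@Lb.d (nat_lit 0) (nat_lit 17) (nat_lit 585) (@Lb.g g9 (@Lb.g g10 (@Lb.g g7 (@Lb.r r386 (@Lb.r r97 (@Lb.r r36 (@Lb.d (nat_lit 5) (nat_lit 8) (nat_lit 9) (@Lb.t (@Lb.fp (nat_lit 9) t41))))))))))
noncomputable def l18199 : Lb := (@Lb.r r21 (@Lb.d (nat_lit 72) (nat_lit 520) (nat_lit 2) (@Lb.g g8 (@Lb.g g10 (@Lb.r r1555 (@Lb.r r101 (@Lb.r r410 (@Lb.d (nat_lit 9) (nat_lit 146) (nat_lit 336) (@Lb.fp (nat_lit 3) t2366)))))))))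
noncomputable def l18200 : Lb := (@Lb.d (nat_lit 2) (nat_lit 516) (nat_lit 0) (@Lb.g g8 (@Lb.g g9 (@Lb.g g10 (@Lb.r r683 (@Lb.r r1689 (@Lb.r r1688 (@Lb.r r1610 (@Lb.d (nat_lit 609) (nat_lit 128) (nat_lit 9) (@Lb.t (@Lb.fm (nat_lit 9) t3660)))))))))))
noncomputable def l18201 : Lb := (@Lb.d (nat_lit 2) (nat_lit 256) (nat_lit 0) (@Lb.g g8 (@Lb.g g9 (@Lb.g g7 (@Lb.d (nat_lit 0) (nat_lit 0) (nat_lit 64) (@Lb.t (@Lb.fp (nat_lit 9) t2)))))))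
noncomputable def l18202 : Lb := (@Lb.d (nat_lit 402) (nat_lit 256) (nat_lit 513) (@Lb.r r1604 (@Lb.r r146 (@Lb.r r2409 (@Lb.g g11 (@Lb.g g5 (@Lb.g g4 (@Lb.d (nat_lit 6) (nat_lit 2) (nat_lit 384) (@Lb.r r578 (@Lb.t (@Lb.fm (nat_lit 9) t143)))))))))))
noncomputable def l18203 : Lb := (@Lb.d (nat_lit 33) (nat_lit 4) (nat_lit 2) (@Lb.g g8 (@Lb.g g9 (@Lb.g g10 (@Lb.r r683 (@Lb.r r1689 (@Lb.r r1688 (@Lb.r r602 (@Lb.d (nat_lit 105) (nat_lit 101) (nat_lit 280) (@Lb.t (@Lb.fm (nat_lit 9) t2796)))))))))))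
noncomputable def l18204 : Lb := (@Lb.r r323 (@Lb.d (nat_lit 129) (nat_lit 34) (nat_lit 18) (@Lb.g g8 (@Lb.g g9 (@Lb.g g10 (@Lb.r r595 (@Lb.r r341 (@Lb.r r1192 (@Lb.d (nat_lit 133) (nat_lit 129) (nat_lit 577) (@Lb.t (@Lb.fm (nat_lit 9) t88)))))))))))
noncomputable def l18205 : Lb := (@Lb.r r81 (@Lb.r r323 (@Lb.d (nat_lit 2) (nat_lit 512) (nat_lit 42) (@Lb.g g8 (@Lb.g g6 (@Lb.r r1381 (@Lb.r r2587 (@Lb.r r24 (@Lb.d (nat_lit 353) (nat_lit 0) (nat_lit 69) (@Lb.fm (nat_lit 3) t1061))))))))))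
noncomputable def l18206 : Lb := (@Lb.d (nat_lit 1) (nat_lit 36) (nat_lit 128) (@Lb.g g8 (@Lb.g g9 (@Lb.g g10 (@Lb.g g11 (@Lb.r r387 (@Lb.r r1177 (@Lb.r r2458 (@Lb.r r24 (@Lb.d (nat_lit 600) (nat_lit 2) (nat_lit 169) (@Lb.fp (nat_lit 9) t2504)))))))))))
noncomputable def l18207 : Lb := (@Lb.d (nat_lit 1) (nat_lit 32) (nat_lit 0) (@Lb.g g8 (@Lb.g g9 (@Lb.r r1162 (@Lb.r r1444 (@Lb.r r2331 (@Lb.r r549 (@Lb.d (nat_lit 522) (nat_lit 129) (nat_lit 5) (@Lb.fm (nat_lit 3) t1593)))))))))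
noncomputable def l18208 : Lb := (@Lb.d (nat_lit 0) (nat_lit 40) (nat_lit 361) (@Lb.r r2438 (@Lb.r r2395 (@Lb.r r2388 (@Lb.g g7 (@Lb.g g5 (@Lb.d (nat_lit 8) (nat_lit 145) (nat_lit 128) (@Lb.r r98 (@Lb.fp (nat_lit 3) t278)))))))))
noncomputable def l18209 : Lb := (@Lb.d (nat_lit 1) (nat_lit 514) (nat_lit 10) (@Lb.g g8 (@Lb.g g9 (@Lb.g g10 (@Lb.r r1623 (@Lb.r r2193 (@Lb.r r340 (@Lb.r r602 (@Lb.d (nat_lit 264) (nat_lit 73) (nat_lit 65) (@Lb.t (@Lb.fp (nat_lit 9) t2387)))))))))))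
noncomputable def l18210 : Lb := (@Lb.g g7 (@Lb.r r597 (@Lb.r r1386 (@Lb.r r407 (@Lb.r r1096 (@Lb.d (nat_lit 582) (nat_lit 257) (nat_lit 336) (@Lb.t (@Lb.fp (nat_lit 3) t2238))))))))
noncomputable def l18211 : Lb := (@Lb.d (nat_lit 609) (nat_lit 661) (nat_lit 538) (@Lb.r r1384 (@Lb.r r297 (@Lb.r r418 (@Lb.g g11 (@Lb.g g5 (@Lb.g g4 (@Lb.d (nat_lit 16) (nat_lit 18) (nat_lit 264) (@Lb.r r578 (@Lb.t (@Lb.fp (nat_lit 9) t495)))))))))))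
noncomputable def l18212 : Lb := (@Lb.r r70 (@Lb.r r263 (@Lb.d (nat_lit 5) (nat_lit 261) (nat_lit 0) (@Lb.g g8 (@Lb.g g5 (@Lb.r r2403 (@Lb.r r2202 (@Lb.r r1156 (@Lb.d (nat_lit 2) (nat_lit 1) (nat_lit 18) (@Lb.fm (nat_lit 3) t58))))))))))
noncomputable def l18213 : Lb := (@Lb.d (nat_lit 96) (nat_lit 18) (nat_lit 165) (@Lb.r r2465 (@Lb.r r595 (@Lb.r r2470 (@Lb.g g6 (@Lb.g g5 (@Lb.g g8 (@Lb.d (nat_lit 329) (nat_lit 16) (nat_lit 1) (@Lb.t (@Lb.fp (nat_lit 9) t3469))))))))))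
noncomputable def l18214 : Lb := (@Lb.r r70 (@Lb.r r263 (@Lb.d (nat_lit 5) (nat_lit 5) (nat_lit 0) (@Lb.g g8 (@Lb.g g5 (@Lb.r r2403 (@Lb.r r2202 (@Lb.r r1156 (@Lb.d (nat_lit 0) (nat_lit 1) (nat_lit 18) (@Lb.fm (nat_lit 3) t58))))))))))
noncomputable def l18215 : Lb := (@Lb.d (nat_lit 549) (nat_lit 520) (nat_lit 17) (@Lb.r r597 (@Lb.r r1386 (@Lb.r r1096 (@Lb.r r1371 (@Lb.g g7 (@Lb.g g6 (@Lb.g g5 (@Lb.d (nat_lit 0) (nat_lit 0) (nat_lit 64) (@Lb.t (@Lb.fm (nat_lit 9) t946)))))))))))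
noncomputable def l18216 : Lb := (@Lb.d (nat_lit 0) (nat_lit 258) (nat_lit 0) (@Lb.g g9 (@Lb.r r2068 (@Lb.r r25 (@Lb.d (nat_lit 521) (nat_lit 64) (nat_lit 0) (@Lb.t (@Lb.fp (nat_lit 3) t2)))))))
noncomputable def l18217 : Lb := (@Lb.r r323 (@Lb.d (nat_lit 42) (nat_lit 4) (nat_lit 2) (@Lb.g g8 (@Lb.g g10 (@Lb.r r1381 (@Lb.r r1691 (@Lb.r r1668 (@Lb.d (nat_lit 529) (nat_lit 0) (nat_lit 4) (@Lb.fm (nat_lit 3) t320)))))))))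
noncomputable def l18218 : Lb := (@Lb.r r21 (@Lb.d (nat_lit 8) (nat_lit 256) (nat_lit 2) (@Lb.g g8 (@Lb.g g10 (@Lb.r r667 (@Lb.r r2405 (@Lb.r r1178 (@Lb.r r1156 (@Lb.d (nat_lit 340) (nat_lit 64) (nat_lit 406) (@Lb.fp (nat_lit 3) t284))))))))))
noncomputable def l18219 : Lb := (@Lb.d (nat_lit 390) (nat_lit 65) (nat_lit 640) (@Lb.r r2341 (@Lb.r r1624 (@Lb.r r2470 (@Lb.g g11 (@Lb.g g6 (@Lb.g g5 (@Lb.d (nat_lit 0) (nat_lit 0) (nat_lit 1) (@Lb.t (@Lb.fp (nat_lit 9) t3658))))))))))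
noncomputable def l18220 : Lb := (@Lb.r r82 (@Lb.d (nat_lit 34) (nat_lit 674) (nat_lit 0) (@Lb.g g8 (@Lb.g g9 (@Lb.r r150 (@Lb.r r100 (@Lb.d (nat_lit 26) (nat_lit 104) (nat_lit 322) (@Lb.fp (nat_lit 3) t3662))))))))
noncomputable def l18221 : Lb := (@Lb.r r68 (@Lb.r r81 (@Lb.d (nat_lit 32) (nat_lit 288) (nat_lit 168) (@Lb.g g10 (@Lb.g g11 (@Lb.r r2453 (@Lb.r r1315 (@Lb.r r584 (@Lb.d (nat_lit 385) (nat_lit 2) (nat_lit 322) (@Lb.fp (nat_lit 3) t1940))))))))))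
noncomputable def l18222 : Lb := (@Lb.d (nat_lit 38) (nat_lit 0) (nat_lit 1) (@Lb.g g8 (@Lb.g g9 (@Lb.g g10 (@Lb.r r1675 (@Lb.r r2580 (@Lb.r r153 (@Lb.r r602 (@Lb.d (nat_lit 644) (nat_lit 100) (nat_lit 678) (@Lb.t (@Lb.fp (nat_lit 9) t1751)))))))))))
noncomputable def l18223 : Lb := (@Lb.d (nat_lit 6) (nat_lit 256) (nat_lit 73) (@Lb.g g8 (@Lb.g g9 (@Lb.g g10 (@Lb.g g11 (@Lb.r r2666 (@Lb.r r579 (@Lb.r r104 (@Lb.r r25 (@Lb.d (nat_lit 402) (nat_lit 10) (nat_lit 358) (@Lb.fp (nat_lit 9) t61)))))))))))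
noncomputable def l18224 : Lb := (@Lb.r r322 (@Lb.d (nat_lit 64) (nat_lit 512) (nat_lit 392) (@Lb.g g9 (@Lb.g g11 (@Lb.r r1426 (@Lb.r r101 (@Lb.r r2564 (@Lb.d (nat_lit 522) (nat_lit 17) (nat_lit 128) (@Lb.fm (nat_lit 3) t461)))))))))
noncomputable def l18225 : Lb := (@Lb.r r81 (@Lb.r r323 (@Lb.d (nat_lit 138) (nat_lit 0) (nat_lit 33) (@Lb.g g8 (@Lb.g g6 (@Lb.r r661 (@Lb.r r343 (@Lb.r r648 (@Lb.d (nat_lit 82) (nat_lit 64) (nat_lit 137) (@Lb.fm (nat_lit 3) t1515))))))))))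
noncomputable def l18226 : Lb := (@Lb.d (nat_lit 4) (nat_lit 1) (nat_lit 0) (@Lb.g g4 (@Lb.t (@Lb.fm (nat_lit 3) t2))))
noncomputable def l18227 : Lb := (@Lb.d (nat_lit 1) (nat_lit 2) (nat_lit 73) (@Lb.g g8 (@Lb.g g9 (@Lb.g g10 (@Lb.g g11 (@Lb.r r2666 (@Lb.r r579 (@Lb.r r104 (@Lb.r r25 (@Lb.d (nat_lit 409) (nat_lit 9) (nat_lit 358) (@Lb.fp (nat_lit 9) t61)))))))))))
noncomputable def l18228 : Lb := (@Lb.d (nat_lit 2) (nat_lit 265) (nat_lit 72) (@Lb.g g8 (@Lb.g g9 (@Lb.g g10 (@Lb.g g11 (@Lb.r r331 (@Lb.r r2657 (@Lb.r r344 (@Lb.r r598 (@Lb.d (nat_lit 601) (nat_lit 98) (nat_lit 329) (@Lb.fp (nat_lit 9) t2301)))))))))))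
noncomputable def l18229 : Lb := (@Lb.d (nat_lit 0) (nat_lit 512) (nat_lit 73) (@Lb.g g9 (@Lb.g g10 (@Lb.g g11 (@Lb.r r2691 (@Lb.r r2132 (@Lb.r r1610 (@Lb.r r289 (@Lb.d (nat_lit 408) (nat_lit 162) (nat_lit 409) (@Lb.t (@Lb.fm (nat_lit 9) t3678)))))))))))
noncomputable def l18230 : Lb := (@Lb.d (nat_lit 4) (nat_lit 10) (nat_lit 72) (@Lb.g g8 (@Lb.g g9 (@Lb.g g10 (@Lb.g g11 (@Lb.r r1699 (@Lb.r r2216 (@Lb.r r1689 (@Lb.r r598 (@Lb.d (nat_lit 297) (nat_lit 22) (nat_lit 664) (@Lb.fp (nat_lit 9) t2317)))))))))))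
noncomputable def l18231 : Lb := (@Lb.d (nat_lit 150) (nat_lit 513) (nat_lit 360) (@Lb.r r1382 (@Lb.r r1109 (@Lb.r r1383 (@Lb.g g6 (@Lb.g g5 (@Lb.g g4 (@Lb.d (nat_lit 1) (nat_lit 1) (nat_lit 0) (@Lb.r r387 (@Lb.t (@Lb.fp (nat_lit 9) t1205)))))))))))
noncomputable def l18232 : Lb := (@Lb.r r323 (@Lb.d (nat_lit 130) (nat_lit 2) (nat_lit 2) (@Lb.g g8 (@Lb.g g9 (@Lb.g g10 (@Lb.r r263 (@Lb.r r98 (@Lb.r r97 (@Lb.r r536 (@Lb.d (nat_lit 677) (nat_lit 170) (nat_lit 529) (@Lb.t (@Lb.fm (nat_lit 9) t1994))))))))))))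
noncomputable def l18233 : Lb := (@Lb.d (nat_lit 6) (nat_lit 512) (nat_lit 73) (@Lb.g g8 (@Lb.g g9 (@Lb.g g10 (@Lb.g g11 (@Lb.r r2666 (@Lb.r r579 (@Lb.r r104 (@Lb.r r25 (@Lb.d (nat_lit 409) (nat_lit 9) (nat_lit 358) (@Lb.fp (nat_lit 9) t61)))))))))))
noncomputable def l18234 : Lb := (@Lb.r r82 (@Lb.r r275 (@Lb.d (nat_lit 0) (nat_lit 513) (nat_lit 0) (@Lb.g g8 (@Lb.g g5 (@Lb.r r2651 (@Lb.r r386 (@Lb.r r24 (@Lb.d (nat_lit 264) (nat_lit 0) (nat_lit 2) (@Lb.fm (nat_lit 3) t1061))))))))))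
noncomputable def l18235 : Lb := (@Lb.d (nat_lit 644) (nat_lit 256) (nat_lit 130) (@Lb.g g8 (@Lb.g g9 (@Lb.g g10 (@Lb.g g11 (@Lb.r r419 (@Lb.r r106 (@Lb.r r25 (@Lb.d (nat_lit 361) (nat_lit 9) (nat_lit 9) (@Lb.fp (nat_lit 9) t1713))))))))))
noncomputable def l18236 : Lb := (@Lb.r r275 (@Lb.d (nat_lit 641) (nat_lit 521) (nat_lit 1) (@Lb.g g4 (@Lb.g g9 (@Lb.g g10 (@Lb.r r2470 (@Lb.r r2635 (@Lb.r r1561 (@Lb.d (nat_lit 385) (nat_lit 96) (nat_lit 656) (@Lb.t (@Lb.fp (nat_lit 9) t3308)))))))))))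
noncomputable def l18237 : Lb := (@Lb.d (nat_lit 2) (nat_lit 258) (nat_lit 130) (@Lb.g g8 (@Lb.g g9 (@Lb.g g10 (@Lb.g g11 (@Lb.r r2691 (@Lb.r r2705 (@Lb.r r612 (@Lb.r r666 (@Lb.r r1156 (@Lb.d (nat_lit 582) (nat_lit 161) (nat_lit 74) (@Lb.fp (nat_lit 9) t1866))))))))))))
noncomputable def l18238 : Lb := (@Lb.d (nat_lit 2) (nat_lit 2) (nat_lit 130) (@Lb.g g8 (@Lb.g g9 (@Lb.g g10 (@Lb.g g11 (@Lb.r r2691 (@Lb.r r2705 (@Lb.r r612 (@Lb.r r666 (@Lb.r r1156 (@Lb.d (nat_lit 584) (nat_lit 162) (nat_lit 74) (@Lb.fp (nat_lit 9) t1866))))))))))))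
noncomputable def l18239 : Lb := (@Lb.d (nat_lit 136) (nat_lit 10) (nat_lit 64) (@Lb.g g9 (@Lb.g g11 (@Lb.r r2708 (@Lb.r r1366 (@Lb.r r683 (@Lb.r r1705 (@Lb.d (nat_lit 581) (nat_lit 80) (nat_lit 552) (@Lb.fm (nat_lit 3) t40)))))))))
noncomputable def l18240 : Lb := (@Lb.d (nat_lit 0) (nat_lit 512) (nat_lit 2) (@Lb.g g9 (@Lb.g g10 (@Lb.g g7 (@Lb.r r386 (@Lb.r r101 (@Lb.r r24 (@Lb.d (nat_lit 354) (nat_lit 0) (nat_lit 585) (@Lb.t (@Lb.fm (nat_lit 9) t166))))))))))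
noncomputable def l18241 : Lb := (@Lb.d (nat_lit 101) (nat_lit 88) (nat_lit 20) (@Lb.r r37 (@Lb.r r2648 (@Lb.r r2651 (@Lb.g g7 (@Lb.g g10 (@Lb.g g4 (@Lb.d (nat_lit 18) (nat_lit 4) (nat_lit 82) (@Lb.r r25 (@Lb.t (@Lb.fp (nat_lit 9) t820)))))))))))
noncomputable def l18242 : Lb := (@Lb.d (nat_lit 0) (nat_lit 256) (nat_lit 2) (@Lb.g g9 (@Lb.g g10 (@Lb.g g7 (@Lb.r r386 (@Lb.r r101 (@Lb.r r24 (@Lb.d (nat_lit 352) (nat_lit 0) (nat_lit 585) (@Lb.t (@Lb.fm (nat_lit 9) t1150))))))))))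
noncomputable def l18243 : Lb := (@Lb.d (nat_lit 144) (nat_lit 546) (nat_lit 0) (@Lb.g g8 (@Lb.g g9 (@Lb.g g10 (@Lb.r r1450 (@Lb.r r2631 (@Lb.r r1432 (@Lb.r r2085 (@Lb.d (nat_lit 325) (nat_lit 22) (nat_lit 330) (@Lb.t (@Lb.fm (nat_lit 9) t3679)))))))))))
noncomputable def l18244 : Lb := (@Lb.d (nat_lit 0) (nat_lit 294) (nat_lit 64) (@Lb.g g9 (@Lb.g g10 (@Lb.g g11 (@Lb.r r2595 (@Lb.r r386 (@Lb.r r2201 (@Lb.r r24 (@Lb.d (nat_lit 672) (nat_lit 5) (nat_lit 678) (@Lb.t (@Lb.fp (nat_lit 9) t3216)))))))))))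
noncomputable def l18245 : Lb := (@Lb.d (nat_lit 341) (nat_lit 426) (nat_lit 105) (@Lb.r r2705 (@Lb.r r402 (@Lb.g g7 (@Lb.g g5 (@Lb.d (nat_lit 64) (nat_lit 5) (nat_lit 320) (@Lb.r r578 (@Lb.fp (nat_lit 3) t1023))))))))
noncomputable def l18246 : Lb := (@Lb.d (nat_lit 0) (nat_lit 258) (nat_lit 130) (@Lb.g g9 (@Lb.g g10 (@Lb.g g11 (@Lb.r r1443 (@Lb.r r536 (@Lb.r r357 (@Lb.r r154 (@Lb.r r132 (@Lb.d (nat_lit 86) (nat_lit 132) (nat_lit 136) (@Lb.t (@Lb.fp (nat_lit 9) t626))))))))))))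
noncomputable def l18247 : Lb := (@Lb.d (nat_lit 0) (nat_lit 258) (nat_lit 130) (@Lb.g g8 (@Lb.g g9 (@Lb.g g10 (@Lb.g g11 (@Lb.r r1443 (@Lb.r r2089 (@Lb.r r616 (@Lb.r r2118 (@Lb.r r1156 (@Lb.d (nat_lit 272) (nat_lit 90) (nat_lit 358) (@Lb.fp (nat_lit 9) t596))))))))))))
noncomputable def l18248 : Lb := (@Lb.d (nat_lit 2) (nat_lit 2) (nat_lit 130) (@Lb.g g8 (@Lb.g g9 (@Lb.g g10 (@Lb.g g11 (@Lb.r r2439 (@Lb.r r584 (@Lb.r r1126 (@Lb.r r97 (@Lb.r r2084 (@Lb.d (nat_lit 4) (nat_lit 170) (nat_lit 641) (@Lb.fp (nat_lit 9) t295))))))))))))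
noncomputable def l18249 : Lb := (@Lb.d (nat_lit 137) (nat_lit 512) (nat_lit 130) (@Lb.g g8 (@Lb.g g9 (@Lb.g g10 (@Lb.g g11 (@Lb.r r2459 (@Lb.r r404 (@Lb.r r1126 (@Lb.r r2145 (@Lb.r r1060 (@Lb.d (nat_lit 521) (nat_lit 21) (nat_lit 134) (@Lb.fm (nat_lit 9) t3680))))))))))))
noncomputable def l18250 : Lb := (@Lb.d (nat_lit 21) (nat_lit 512) (nat_lit 2) (@Lb.g g8 (@Lb.g g9 (@Lb.g g6 (@Lb.g g11 (@Lb.r r2665 (@Lb.r r2731 (@Lb.r r2724 (@Lb.d (nat_lit 26) (nat_lit 86) (nat_lit 164) (@Lb.fm (nat_lit 9) t2479))))))))))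
noncomputable def l18251 : Lb := (@Lb.d (nat_lit 0) (nat_lit 2) (nat_lit 130) (@Lb.g g9 (@Lb.g g10 (@Lb.g g11 (@Lb.r r1443 (@Lb.r r536 (@Lb.r r357 (@Lb.r r154 (@Lb.r r132 (@Lb.d (nat_lit 581) (nat_lit 137) (nat_lit 169) (@Lb.t (@Lb.fp (nat_lit 9) t646))))))))))))
noncomputable def l18252 : Lb := (@Lb.d (nat_lit 154) (nat_lit 1) (nat_lit 2) (@Lb.g g8 (@Lb.g g9 (@Lb.g g6 (@Lb.r r2659 (@Lb.r r2153 (@Lb.r r296 (@Lb.d (nat_lit 84) (nat_lit 34) (nat_lit 360) (@Lb.t (@Lb.fm (nat_lit 9) t2643))))))))))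
noncomputable def l18253 : Lb := (@Lb.d (nat_lit 134) (nat_lit 392) (nat_lit 514) (@Lb.r r134 (@Lb.r r539 (@Lb.r r532 (@Lb.r r281 (@Lb.g g7 (@Lb.g g5 (@Lb.d (nat_lit 64) (nat_lit 1) (nat_lit 64) (@Lb.fm (nat_lit 3) t2643)))))))))
noncomputable def l18254 : Lb := (@Lb.r r21 (@Lb.d (nat_lit 1) (nat_lit 512) (nat_lit 66) (@Lb.g g8 (@Lb.g g10 (@Lb.g g11 (@Lb.r r610 (@Lb.r r1639 (@Lb.r r97 (@Lb.r r2312 (@Lb.d (nat_lit 648) (nat_lit 66) (nat_lit 576) (@Lb.t (@Lb.fp (nat_lit 9) t3681))))))))))))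
noncomputable def l18255 : Lb := (@Lb.r r21 (@Lb.d (nat_lit 130) (nat_lit 256) (nat_lit 130) (@Lb.g g8 (@Lb.g g10 (@Lb.g g11 (@Lb.r r1634 (@Lb.r r1639 (@Lb.r r97 (@Lb.r r264 (@Lb.d (nat_lit 136) (nat_lit 130) (nat_lit 128) (@Lb.t (@Lb.fp (nat_lit 9) t3682))))))))))))
noncomputable def l18256 : Lb := (@Lb.d (nat_lit 400) (nat_lit 165) (nat_lit 678) (@Lb.r r1044 (@Lb.r r601 (@Lb.r r532 (@Lb.r r2466 (@Lb.g g11 (@Lb.g g6 (@Lb.g g5 (@Lb.g g4 (@Lb.d (nat_lit 0) (nat_lit 6) (nat_lit 130) (@Lb.fp (nat_lit 9) t1702)))))))))))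
noncomputable def l18257 : Lb := (@Lb.d (nat_lit 72) (nat_lit 418) (nat_lit 384) (@Lb.g g9 (@Lb.g g7 (@Lb.d (nat_lit 265) (nat_lit 2) (nat_lit 0) (@Lb.fp (nat_lit 3) t484)))))
noncomputable def l18258 : Lb := (@Lb.r r323 (@Lb.d (nat_lit 0) (nat_lit 256) (nat_lit 1) (@Lb.g g9 (@Lb.g g6 (@Lb.r r2659 (@Lb.r r101 (@Lb.r r24 (@Lb.d (nat_lit 288) (nat_lit 0) (nat_lit 5) (@Lb.fm (nat_lit 3) t277)))))))))
noncomputable def l18259 : Lb := (@Lb.d (nat_lit 16) (nat_lit 258) (nat_lit 0) (@Lb.g g8 (@Lb.g g9 (@Lb.g g10 (@Lb.r r1706 (@Lb.r r2475 (@Lb.r r409 (@Lb.r r388 (@Lb.d (nat_lit 106) (nat_lit 129) (nat_lit 138) (@Lb.t (@Lb.fp (nat_lit 9) t3683)))))))))))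
noncomputable def l18260 : Lb := (@Lb.d (nat_lit 0) (nat_lit 0) (nat_lit 66) (@Lb.g g9 (@Lb.g g10 (@Lb.g g11 (@Lb.r r2691 (@Lb.r r357 (@Lb.r r146 (@Lb.r r24 (@Lb.d (nat_lit 514) (nat_lit 152) (nat_lit 153) (@Lb.t (@Lb.fm (nat_lit 9) t1832)))))))))))
noncomputable def l18261 : Lb := (@Lb.r r82 (@Lb.d (nat_lit 137) (nat_lit 18) (nat_lit 128) (@Lb.g g8 (@Lb.g g9 (@Lb.g g11 (@Lb.r r531 (@Lb.r r1177 (@Lb.r r342 (@Lb.r r648 (@Lb.d (nat_lit 513) (nat_lit 0) (nat_lit 418) (@Lb.t (@Lb.fm (nat_lit 9) t1846))))))))))))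
noncomputable def l18262 : Lb := (@Lb.d (nat_lit 42) (nat_lit 256) (nat_lit 0) (@Lb.g g8 (@Lb.r r2395 (@Lb.r r614 (@Lb.r r1637 (@Lb.r r1428 (@Lb.d (nat_lit 356) (nat_lit 90) (nat_lit 425) (@Lb.t (@Lb.fm (nat_lit 3) t386)))))))))
noncomputable def l18263 : Lb := (@Lb.r r21 (@Lb.d (nat_lit 34) (nat_lit 256) (nat_lit 72) (@Lb.g g8 (@Lb.g g10 (@Lb.g g11 (@Lb.r r651 (@Lb.r r2665 (@Lb.r r1686 (@Lb.r r1156 (@Lb.d (nat_lit 297) (nat_lit 101) (nat_lit 520) (@Lb.t (@Lb.fp (nat_lit 9) t125))))))))))))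
noncomputable def l18264 : Lb := (@Lb.r r21 (@Lb.d (nat_lit 34) (nat_lit 512) (nat_lit 129) (@Lb.g g8 (@Lb.g g10 (@Lb.g g11 (@Lb.r r651 (@Lb.r r293 (@Lb.r r644 (@Lb.r r614 (@Lb.d (nat_lit 149) (nat_lit 32) (nat_lit 8) (@Lb.t (@Lb.fm (nat_lit 9) t264))))))))))))
noncomputable def l18265 : Lb := (@Lb.d (nat_lit 6) (nat_lit 102) (nat_lit 6) (@Lb.r r21 (@Lb.r r2390 (@Lb.r r2731 (@Lb.g g6 (@Lb.g g5 (@Lb.g g4 (@Lb.d (nat_lit 544) (nat_lit 1) (nat_lit 0) (@Lb.t (@Lb.fm (nat_lit 9) t40))))))))))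
noncomputable def l18266 : Lb := (@Lb.r r355 (@Lb.d (nat_lit 2) (nat_lit 9) (nat_lit 2) (@Lb.g g8 (@Lb.g g9 (@Lb.g g10 (@Lb.r r2731 (@Lb.r r2634 (@Lb.r r2712 (@Lb.r r1445 (@Lb.d (nat_lit 677) (nat_lit 129) (nat_lit 105) (@Lb.t (@Lb.fp (nat_lit 9) t98))))))))))))
noncomputable def l18267 : Lb := (@Lb.d (nat_lit 2) (nat_lit 522) (nat_lit 73) (@Lb.g g8 (@Lb.g g9 (@Lb.g g10 (@Lb.g g11 (@Lb.r r552 (@Lb.r r1355 (@Lb.r r2646 (@Lb.r r165 (@Lb.r r20 (@Lb.d (nat_lit 678) (nat_lit 104) (nat_lit 257) (@Lb.fp (nat_lit 9) t98))))))))))))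
noncomputable def l18268 : Lb := (@Lb.d (nat_lit 40) (nat_lit 512) (nat_lit 64) (@Lb.g g8 (@Lb.g g11 (@Lb.r r1627 (@Lb.r r422 (@Lb.r r1445 (@Lb.r r1620 (@Lb.d (nat_lit 6) (nat_lit 104) (nat_lit 274) (@Lb.fp (nat_lit 3) t386)))))))))
noncomputable def l18269 : Lb := (@Lb.d (nat_lit 0) (nat_lit 257) (nat_lit 130) (@Lb.g g9 (@Lb.g g10 (@Lb.g g11 (@Lb.r r1451 (@Lb.r r132 (@Lb.r r598 (@Lb.r r421 (@Lb.r r20 (@Lb.d (nat_lit 678) (nat_lit 137) (nat_lit 169) (@Lb.t (@Lb.fp (nat_lit 9) t646))))))))))))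
noncomputable def l18270 : Lb := (@Lb.d (nat_lit 642) (nat_lit 2) (nat_lit 130) (@Lb.g g8 (@Lb.g g9 (@Lb.g g10 (@Lb.g g11 (@Lb.r r1451 (@Lb.r r106 (@Lb.r r25 (@Lb.d (nat_lit 2) (nat_lit 73) (nat_lit 425) (@Lb.fp (nat_lit 9) t898))))))))))
noncomputable def l18271 : Lb := (@Lb.d (nat_lit 642) (nat_lit 258) (nat_lit 130) (@Lb.g g8 (@Lb.g g9 (@Lb.g g10 (@Lb.g g11 (@Lb.r r1451 (@Lb.r r106 (@Lb.r r25 (@Lb.d (nat_lit 9) (nat_lit 72) (nat_lit 425) (@Lb.fp (nat_lit 9) t898))))))))))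
noncomputable def l18272 : Lb := (@Lb.d (nat_lit 536) (nat_lit 297) (nat_lit 534) (@Lb.r r1172 (@Lb.g g9 (@Lb.d (nat_lit 0) (nat_lit 10) (nat_lit 0) (@Lb.t (@Lb.fp (nat_lit 3) t3684))))))
noncomputable def l18273 : Lb := (@Lb.r r21 (@Lb.r r263 (@Lb.d (nat_lit 290) (nat_lit 516) (nat_lit 2) (@Lb.g g8 (@Lb.g g10 (@Lb.r r1689 (@Lb.r r343 (@Lb.r r2698 (@Lb.d (nat_lit 385) (nat_lit 0) (nat_lit 134) (@Lb.fp (nat_lit 3) t1606))))))))))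
noncomputable def l18274 : Lb := (@Lb.r r263 (@Lb.d (nat_lit 36) (nat_lit 256) (nat_lit 2) (@Lb.g g8 (@Lb.g g9 (@Lb.g g10 (@Lb.r r2713 (@Lb.r r1563 (@Lb.r r580 (@Lb.r r2122 (@Lb.d (nat_lit 81) (nat_lit 0) (nat_lit 137) (@Lb.t (@Lb.fp (nat_lit 9) t1039))))))))))))
noncomputable def l18275 : Lb := (@Lb.d (nat_lit 262) (nat_lit 601) (nat_lit 265) (@Lb.r r2323 (@Lb.r r2657 (@Lb.r r1366 (@Lb.g g7 (@Lb.g g6 (@Lb.g g5 (@Lb.g g4 (@Lb.d (nat_lit 6) (nat_lit 16) (nat_lit 65) (@Lb.fm (nat_lit 9) t1206))))))))))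
noncomputable def l18276 : Lb := (@Lb.d (nat_lit 1) (nat_lit 256) (nat_lit 2) (@Lb.g g8 (@Lb.g g9 (@Lb.g g10 (@Lb.r r1707 (@Lb.r r2713 (@Lb.r r2650 (@Lb.r r2628 (@Lb.d (nat_lit 153) (nat_lit 65) (nat_lit 425) (@Lb.t (@Lb.fp (nat_lit 9) t441)))))))))))
noncomputable def l18277 : Lb := (@Lb.d (nat_lit 2) (nat_lit 4) (nat_lit 128) (@Lb.g g8 (@Lb.g g9 (@Lb.g g10 (@Lb.g g11 (@Lb.r r1699 (@Lb.r r2705 (@Lb.r r148 (@Lb.r r598 (@Lb.r r2180 (@Lb.d (nat_lit 2) (nat_lit 161) (nat_lit 330) (@Lb.fm (nat_lit 9) t1751))))))))))))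
noncomputable def l18278 : Lb := (@Lb.d (nat_lit 6) (nat_lit 18) (nat_lit 320) (@Lb.r r1313 (@Lb.r r2327 (@Lb.r r584 (@Lb.r r326 (@Lb.g g7 (@Lb.g g6 (@Lb.g g5 (@Lb.d (nat_lit 0) (nat_lit 1) (nat_lit 65) (@Lb.t (@Lb.fp (nat_lit 9) t1751)))))))))))
noncomputable def l18279 : Lb := (@Lb.r r21 (@Lb.d (nat_lit 81) (nat_lit 532) (nat_lit 617) (@Lb.g g8 (@Lb.g g6 (@Lb.g g7 (@Lb.r r97 (@Lb.r r2472 (@Lb.d (nat_lit 406) (nat_lit 152) (nat_lit 321) (@Lb.t (@Lb.fm (nat_lit 9) t390))))))))))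
noncomputable def l18280 : Lb := (@Lb.r r322 (@Lb.d (nat_lit 34) (nat_lit 514) (nat_lit 576) (@Lb.g g8 (@Lb.g g9 (@Lb.g g7 (@Lb.r r361 (@Lb.r r150 (@Lb.r r100 (@Lb.d (nat_lit 26) (nat_lit 10) (nat_lit 521) (@Lb.t (@Lb.fp (nat_lit 9) t242)))))))))))
noncomputable def l18281 : Lb := (@Lb.r r21 (@Lb.d (nat_lit 18) (nat_lit 256) (nat_lit 128) (@Lb.g g4 (@Lb.g g10 (@Lb.g g11 (@Lb.r r1687 (@Lb.r r2401 (@Lb.r r1170 (@Lb.d (nat_lit 257) (nat_lit 64) (nat_lit 2) (@Lb.t (@Lb.fm (nat_lit 9) t1556)))))))))))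
noncomputable def l18282 : Lb := (@Lb.r r70 (@Lb.d (nat_lit 130) (nat_lit 258) (nat_lit 64) (@Lb.g g8 (@Lb.g g9 (@Lb.g g11 (@Lb.r r2713 (@Lb.r r658 (@Lb.r r1411 (@Lb.r r2148 (@Lb.d (nat_lit 532) (nat_lit 144) (nat_lit 389) (@Lb.t (@Lb.fp (nat_lit 9) t1792))))))))))))
noncomputable def l18283 : Lb := (@Lb.r r21 (@Lb.d (nat_lit 17) (nat_lit 512) (nat_lit 128) (@Lb.g g8 (@Lb.g g10 (@Lb.g g11 (@Lb.r r647 (@Lb.r r328 (@Lb.r r2454 (@Lb.r r97 (@Lb.d (nat_lit 585) (nat_lit 82) (nat_lit 128) (@Lb.t (@Lb.fm (nat_lit 9) t3685))))))))))))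
noncomputable def l18284 : Lb := (@Lb.d (nat_lit 2) (nat_lit 321) (nat_lit 256) (@Lb.r r97 (@Lb.r r402 (@Lb.r r263 (@Lb.g g8 (@Lb.d (nat_lit 354) (nat_lit 0) (nat_lit 0) (@Lb.r r267 (@Lb.r r74 (@Lb.r r25 (@Lb.t (@Lb.fp (nat_lit 3) t573)))))))))))
noncomputable def l18285 : Lb := (@Lb.d (nat_lit 41) (nat_lit 512) (nat_lit 0) (@Lb.g g8 (@Lb.r r2395 (@Lb.r r614 (@Lb.r r1637 (@Lb.r r1428 (@Lb.d (nat_lit 356) (nat_lit 90) (nat_lit 394) (@Lb.t (@Lb.fm (nat_lit 3) t386)))))))))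
noncomputable def l18286 : Lb := (@Lb.r r21 (@Lb.d (nat_lit 138) (nat_lit 8) (nat_lit 130) (@Lb.g g8 (@Lb.g g10 (@Lb.g g11 (@Lb.r r1419 (@Lb.r r101 (@Lb.r r410 (@Lb.d (nat_lit 9) (nat_lit 149) (nat_lit 274) (@Lb.t (@Lb.fm (nat_lit 9) t1606)))))))))))
noncomputable def l18287 : Lb := (@Lb.d (nat_lit 34) (nat_lit 256) (nat_lit 0) (@Lb.g g4 (@Lb.r r2407 (@Lb.r r602 (@Lb.r r2453 (@Lb.r r612 (@Lb.d (nat_lit 613) (nat_lit 37) (nat_lit 85) (@Lb.t (@Lb.fm (nat_lit 3) t386)))))))))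
noncomputable def l18288 : Lb := (@Lb.d (nat_lit 129) (nat_lit 256) (nat_lit 72) (@Lb.g g8 (@Lb.g g11 (@Lb.r r1378 (@Lb.r r2401 (@Lb.r r411 (@Lb.r r264 (@Lb.d (nat_lit 612) (nat_lit 10) (nat_lit 417) (@Lb.fm (nat_lit 3) t1952)))))))))
noncomputable def l18289 : Lb := (@Lb.r r21 (@Lb.r r323 (@Lb.d (nat_lit 514) (nat_lit 520) (nat_lit 0) (@Lb.g g8 (@Lb.g g10 (@Lb.r r395 (@Lb.r r101 (@Lb.r r410 (@Lb.d (nat_lit 9) (nat_lit 26) (nat_lit 682) (@Lb.fm (nat_lit 3) t221))))))))))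
noncomputable def l18290 : Lb := (@Lb.d (nat_lit 2) (nat_lit 321) (nat_lit 512) (@Lb.r r289 (@Lb.r r279 (@Lb.r r584 (@Lb.r r2406 (@Lb.g g10 (@Lb.r r387 (@Lb.t (@Lb.fp (nat_lit 3) t1260)))))))))
noncomputable def l18291 : Lb := (@Lb.d (nat_lit 512) (nat_lit 256) (nat_lit 64) (@Lb.r r2567 (@Lb.g g11 (@Lb.g g8 (@Lb.fp (nat_lit 3) t997)))))
noncomputable def l18292 : Lb := (@Lb.r r82 (@Lb.d (nat_lit 73) (nat_lit 290) (nat_lit 64) (@Lb.g g8 (@Lb.g g9 (@Lb.g g11 (@Lb.r r291 (@Lb.r r1177 (@Lb.r r342 (@Lb.r r648 (@Lb.d (nat_lit 513) (nat_lit 0) (nat_lit 418) (@Lb.t (@Lb.fp (nat_lit 9) t1846))))))))))))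
noncomputable def l18293 : Lb := (@Lb.d (nat_lit 0) (nat_lit 0) (nat_lit 128) (@Lb.g g11 (@Lb.r r664 (@Lb.r r154 (@Lb.r r2133 (@Lb.r r164 (@Lb.d (nat_lit 1) (nat_lit 0) (nat_lit 389) (@Lb.t (@Lb.fp (nat_lit 3) t2428)))))))))
noncomputable def l18294 : Lb := (@Lb.r r21 (@Lb.d (nat_lit 8) (nat_lit 256) (nat_lit 130) (@Lb.g g8 (@Lb.g g10 (@Lb.g g11 (@Lb.r r667 (@Lb.r r2405 (@Lb.r r1178 (@Lb.r r1156 (@Lb.d (nat_lit 345) (nat_lit 4) (nat_lit 404) (@Lb.t (@Lb.fp (nat_lit 9) t1046))))))))))))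
noncomputable def l18295 : Lb := (@Lb.d (nat_lit 2) (nat_lit 36) (nat_lit 133) (@Lb.g g8 (@Lb.g g9 (@Lb.g g10 (@Lb.g g11 (@Lb.r r2475 (@Lb.r r616 (@Lb.r r662 (@Lb.r r2149 (@Lb.d (nat_lit 81) (nat_lit 153) (nat_lit 548) (@Lb.fm (nat_lit 9) t1606)))))))))))
noncomputable def l18296 : Lb := (@Lb.d (nat_lit 0) (nat_lit 0) (nat_lit 128) (@Lb.g g11 (@Lb.d (nat_lit 5) (nat_lit 1) (nat_lit 64) (@Lb.t (@Lb.fp (nat_lit 3) t2)))))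
noncomputable def l18297 : Lb := (@Lb.r r21 (@Lb.d (nat_lit 34) (nat_lit 0) (nat_lit 129) (@Lb.g g8 (@Lb.g g10 (@Lb.g g11 (@Lb.r r651 (@Lb.r r1556 (@Lb.r r153 (@Lb.r r602 (@Lb.d (nat_lit 393) (nat_lit 38) (nat_lit 280) (@Lb.t (@Lb.fp (nat_lit 9) t428))))))))))))
noncomputable def l18298 : Lb := (@Lb.g g7 (@Lb.r r402 (@Lb.d (nat_lit 608) (nat_lit 325) (nat_lit 421) (@Lb.t (@Lb.fp (nat_lit 3) t781)))))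
noncomputable def l18299 : Lb := (@Lb.r r323 (@Lb.d (nat_lit 130) (nat_lit 4) (nat_lit 0) (@Lb.g g8 (@Lb.g g9 (@Lb.g g10 (@Lb.r r599 (@Lb.r r98 (@Lb.r r2456 (@Lb.r r1125 (@Lb.d (nat_lit 265) (nat_lit 169) (nat_lit 161) (@Lb.t (@Lb.fp (nat_lit 9) t573))))))))))))
noncomputable def l18300 : Lb := (@Lb.r r21 (@Lb.d (nat_lit 16) (nat_lit 256) (nat_lit 74) (@Lb.g g8 (@Lb.g g10 (@Lb.g g11 (@Lb.r r2707 (@Lb.r r2408 (@Lb.r r1174 (@Lb.r r97 (@Lb.d (nat_lit 660) (nat_lit 165) (nat_lit 154) (@Lb.t (@Lb.fm (nat_lit 9) t3577))))))))))))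
noncomputable def l18301 : Lb := (@Lb.r r21 (@Lb.d (nat_lit 16) (nat_lit 0) (nat_lit 74) (@Lb.g g8 (@Lb.g g10 (@Lb.g g11 (@Lb.r r2707 (@Lb.r r2408 (@Lb.r r1174 (@Lb.r r97 (@Lb.d (nat_lit 665) (nat_lit 166) (nat_lit 154) (@Lb.t (@Lb.fm (nat_lit 9) t981))))))))))))
noncomputable def l18302 : Lb := (@Lb.r r323 (@Lb.d (nat_lit 130) (nat_lit 66) (nat_lit 2) (@Lb.g g8 (@Lb.g g9 (@Lb.g g10 (@Lb.r r1623 (@Lb.r r2146 (@Lb.r r2312 (@Lb.d (nat_lit 678) (nat_lit 132) (nat_lit 672) (@Lb.t (@Lb.fm (nat_lit 9) t1242)))))))))))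
noncomputable def l18303 : Lb := (@Lb.r r70 (@Lb.d (nat_lit 42) (nat_lit 73) (nat_lit 64) (@Lb.g g8 (@Lb.g g9 (@Lb.g g11 (@Lb.r r1315 (@Lb.r r2438 (@Lb.r r2648 (@Lb.d (nat_lit 153) (nat_lit 134) (nat_lit 402) (@Lb.t (@Lb.fm (nat_lit 9) t1161)))))))))))
noncomputable def l18304 : Lb := (@Lb.r r70 (@Lb.d (nat_lit 137) (nat_lit 266) (nat_lit 64) (@Lb.g g8 (@Lb.g g9 (@Lb.g g11 (@Lb.r r2194 (@Lb.r r2149 (@Lb.r r2564 (@Lb.r r2663 (@Lb.d (nat_lit 661) (nat_lit 128) (nat_lit 544) (@Lb.t (@Lb.fp (nat_lit 9) t979))))))))))))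
noncomputable def l18305 : Lb := (@Lb.d (nat_lit 8) (nat_lit 65) (nat_lit 128) (@Lb.g g9 (@Lb.g g11 (@Lb.r r1447 (@Lb.r r1126 (@Lb.r r24 (@Lb.d (nat_lit 361) (nat_lit 1) (nat_lit 537) (@Lb.fp (nat_lit 3) t284))))))))
noncomputable def l18306 : Lb := (@Lb.r r70 (@Lb.d (nat_lit 9) (nat_lit 585) (nat_lit 128) (@Lb.g g8 (@Lb.g g9 (@Lb.g g11 (@Lb.r r2411 (@Lb.r r1174 (@Lb.r r72 (@Lb.d (nat_lit 16) (nat_lit 166) (nat_lit 402) (@Lb.t (@Lb.fm (nat_lit 9) t3686)))))))))))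
noncomputable def l18307 : Lb := (@Lb.r r70 (@Lb.d (nat_lit 128) (nat_lit 0) (nat_lit 64) (@Lb.g g8 (@Lb.g g5 (@Lb.g g11 (@Lb.r r1547 (@Lb.r r2454 (@Lb.r r2632 (@Lb.d (nat_lit 385) (nat_lit 64) (nat_lit 152) (@Lb.t (@Lb.fm (nat_lit 9) t3687)))))))))))
noncomputable def l18308 : Lb := (@Lb.d (nat_lit 138) (nat_lit 514) (nat_lit 2) (@Lb.g g8 (@Lb.g g9 (@Lb.g g10 (@Lb.r r337 (@Lb.r r2723 (@Lb.r r1706 (@Lb.r r1704 (@Lb.r r537 (@Lb.d (nat_lit 262) (nat_lit 132) (nat_lit 34) (@Lb.t (@Lb.fp (nat_lit 9) t2))))))))))))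
noncomputable def l18309 : Lb := (@Lb.d (nat_lit 33) (nat_lit 265) (nat_lit 129) (@Lb.g g8 (@Lb.g g9 (@Lb.g g10 (@Lb.g g11 (@Lb.r r2202 (@Lb.r r529 (@Lb.r r411 (@Lb.r r388 (@Lb.d (nat_lit 424) (nat_lit 2) (nat_lit 330) (@Lb.fm (nat_lit 9) t68)))))))))))
noncomputable def l18310 : Lb := (@Lb.d (nat_lit 128) (nat_lit 322) (nat_lit 136) (@Lb.g g9 (@Lb.g g11 (@Lb.r r420 (@Lb.r r390 (@Lb.r r1387 (@Lb.d (nat_lit 34) (nat_lit 152) (nat_lit 150) (@Lb.fp (nat_lit 3) t820))))))))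
noncomputable def l18311 : Lb := (@Lb.d (nat_lit 0) (nat_lit 522) (nat_lit 0) (@Lb.g g8 (@Lb.g g9 (@Lb.g g7 (@Lb.r r594 (@Lb.r r2449 (@Lb.d (nat_lit 0) (nat_lit 154) (nat_lit 66) (@Lb.t (@Lb.fp (nat_lit 9) t572)))))))))
noncomputable def l18312 : Lb := (@Lb.r r21 (@Lb.d (nat_lit 2) (nat_lit 0) (nat_lit 130) (@Lb.g g8 (@Lb.g g10 (@Lb.g g11 (@Lb.r r2587 (@Lb.r r386 (@Lb.r r1429 (@Lb.r r2632 (@Lb.d (nat_lit 657) (nat_lit 37) (nat_lit 425) (@Lb.t (@Lb.fp (nat_lit 9) t2434))))))))))))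
noncomputable def l18313 : Lb := (@Lb.r r82 (@Lb.d (nat_lit 2) (nat_lit 2) (nat_lit 128) (@Lb.g g8 (@Lb.g g9 (@Lb.g g11 (@Lb.r r1571 (@Lb.r r2630 (@Lb.r r2201 (@Lb.r r1432 (@Lb.d (nat_lit 100) (nat_lit 148) (nat_lit 90) (@Lb.t (@Lb.fm (nat_lit 9) t3688))))))))))))
noncomputable def l18314 : Lb := (@Lb.r r82 (@Lb.d (nat_lit 0) (nat_lit 258) (nat_lit 128) (@Lb.g g9 (@Lb.g g11 (@Lb.r r1571 (@Lb.r r610 (@Lb.r r1557 (@Lb.r r36 (@Lb.d (nat_lit 516) (nat_lit 160) (nat_lit 640) (@Lb.fp (nat_lit 3) t3689))))))))))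
noncomputable def l18315 : Lb := (@Lb.d (nat_lit 0) (nat_lit 9) (nat_lit 129) (@Lb.g g8 (@Lb.g g9 (@Lb.g g10 (@Lb.g g11 (@Lb.r r1706 (@Lb.r r680 (@Lb.r r555 (@Lb.r r1553 (@Lb.r r2084 (@Lb.d (nat_lit 278) (nat_lit 96) (nat_lit 616) (@Lb.fm (nat_lit 9) t2807))))))))))))
noncomputable def l18316 : Lb := (@Lb.d (nat_lit 645) (nat_lit 262) (nat_lit 390) (@Lb.r r24 (@Lb.r r97 (@Lb.r r386 (@Lb.g g11 (@Lb.g g6 (@Lb.g g5 (@Lb.d (nat_lit 0) (nat_lit 1) (nat_lit 1) (@Lb.t (@Lb.fp (nat_lit 9) t928))))))))))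
noncomputable def l18317 : Lb := (@Lb.d (nat_lit 578) (nat_lit 257) (nat_lit 645) (@Lb.r r597 (@Lb.r r1642 (@Lb.r r1352 (@Lb.r r2695 (@Lb.g g7 (@Lb.g g6 (@Lb.g g5 (@Lb.d (nat_lit 20) (nat_lit 1) (nat_lit 65) (@Lb.t (@Lb.fp (nat_lit 9) t221)))))))))))
noncomputable def l18318 : Lb := (@Lb.d (nat_lit 548) (nat_lit 262) (nat_lit 16) (@Lb.g g6 (@Lb.t (@Lb.fm (nat_lit 3) t3227))))
noncomputable def l18319 : Lb := (@Lb.d (nat_lit 612) (nat_lit 614) (nat_lit 592) (@Lb.r r101 (@Lb.r r2451 (@Lb.r r402 (@Lb.g g7 (@Lb.d (nat_lit 0) (nat_lit 0) (nat_lit 68) (@Lb.t (@Lb.fm (nat_lit 3) t1399))))))))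
noncomputable def l18320 : Lb := (@Lb.d (nat_lit 10) (nat_lit 288) (nat_lit 64) (@Lb.g g8 (@Lb.g g11 (@Lb.r r154 (@Lb.r r101 (@Lb.r r408 (@Lb.r r1415 (@Lb.d (nat_lit 150) (nat_lit 22) (nat_lit 353) (@Lb.fp (nat_lit 3) t171)))))))))
noncomputable def l18321 : Lb := (@Lb.d (nat_lit 38) (nat_lit 266) (nat_lit 74) (@Lb.g g8 (@Lb.g g9 (@Lb.g g10 (@Lb.g g11 (@Lb.r r2327 (@Lb.r r2404 (@Lb.r r1690 (@Lb.r r1553 (@Lb.d (nat_lit 394) (nat_lit 66) (nat_lit 322) (@Lb.fm (nat_lit 9) t3690)))))))))))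
noncomputable def l18322 : Lb := (@Lb.d (nat_lit 538) (nat_lit 170) (nat_lit 550) (@Lb.r r1176 (@Lb.r r85 (@Lb.r r2347 (@Lb.g g8 (@Lb.d (nat_lit 5) (nat_lit 0) (nat_lit 0) (@Lb.t (@Lb.fm (nat_lit 3) t3691))))))))
noncomputable def l18323 : Lb := (@Lb.r r323 (@Lb.d (nat_lit 32) (nat_lit 0) (nat_lit 1) (@Lb.g g10 (@Lb.r r600 (@Lb.r r347 (@Lb.r r657 (@Lb.r r1626 (@Lb.d (nat_lit 596) (nat_lit 101) (nat_lit 513) (@Lb.t (@Lb.fm (nat_lit 3) t403))))))))))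
noncomputable def l18324 : Lb := (@Lb.r r82 (@Lb.d (nat_lit 2) (nat_lit 258) (nat_lit 128) (@Lb.g g8 (@Lb.g g9 (@Lb.g g11 (@Lb.r r299 (@Lb.r r1130 (@Lb.r r1049 (@Lb.d (nat_lit 521) (nat_lit 66) (nat_lit 138) (@Lb.t (@Lb.fm (nat_lit 9) t2078)))))))))))
noncomputable def l18325 : Lb := (@Lb.r r323 (@Lb.d (nat_lit 0) (nat_lit 0) (nat_lit 1) (@Lb.g g10 (@Lb.r r548 (@Lb.r r295 (@Lb.r r405 (@Lb.r r2596 (@Lb.d (nat_lit 1) (nat_lit 10) (nat_lit 101) (@Lb.t (@Lb.fp (nat_lit 3) t3300))))))))))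
noncomputable def l18326 : Lb := (@Lb.r r82 (@Lb.r r275 (@Lb.d (nat_lit 2) (nat_lit 258) (nat_lit 0) (@Lb.g g8 (@Lb.g g9 (@Lb.r r1433 (@Lb.r r2403 (@Lb.r r1098 (@Lb.d (nat_lit 612) (nat_lit 96) (nat_lit 68) (@Lb.fm (nat_lit 3) t3692))))))))))
noncomputable def l18327 : Lb := (@Lb.r r82 (@Lb.r r275 (@Lb.d (nat_lit 2) (nat_lit 514) (nat_lit 0) (@Lb.g g8 (@Lb.g g9 (@Lb.r r1433 (@Lb.r r2403 (@Lb.r r1098 (@Lb.d (nat_lit 610) (nat_lit 98) (nat_lit 68) (@Lb.fm (nat_lit 3) t3693))))))))))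
noncomputable def l18328 : Lb := (@Lb.d (nat_lit 41) (nat_lit 322) (nat_lit 153) (@Lb.r r21 (@Lb.r r104 (@Lb.r r2567 (@Lb.g g10 (@Lb.g g5 (@Lb.d (nat_lit 0) (nat_lit 1) (nat_lit 2) (@Lb.r r387 (@Lb.fp (nat_lit 3) t3694)))))))))
noncomputable def l18329 : Lb := (@Lb.r r323 (@Lb.d (nat_lit 0) (nat_lit 256) (nat_lit 1) (@Lb.g g10 (@Lb.r r548 (@Lb.r r295 (@Lb.r r405 (@Lb.r r2596 (@Lb.d (nat_lit 0) (nat_lit 10) (nat_lit 101) (@Lb.t (@Lb.fp (nat_lit 3) t1561))))))))))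
noncomputable def l18330 : Lb := (@Lb.d (nat_lit 10) (nat_lit 32) (nat_lit 64) (@Lb.g g8 (@Lb.g g11 (@Lb.r r154 (@Lb.r r101 (@Lb.r r408 (@Lb.r r1415 (@Lb.d (nat_lit 149) (nat_lit 17) (nat_lit 352) (@Lb.fp (nat_lit 3) t171)))))))))
noncomputable def l18331 : Lb := (@Lb.d (nat_lit 6) (nat_lit 2) (nat_lit 64) (@Lb.g g8 (@Lb.g g9 (@Lb.g g11 (@Lb.r r2391 (@Lb.r r1700 (@Lb.r r1190 (@Lb.r r1173 (@Lb.d (nat_lit 553) (nat_lit 74) (nat_lit 169) (@Lb.t (@Lb.fp (nat_lit 9) t881)))))))))))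
noncomputable def l18332 : Lb := (@Lb.d (nat_lit 2) (nat_lit 516) (nat_lit 0) (@Lb.g g8 (@Lb.g g9 (@Lb.g g10 (@Lb.r r683 (@Lb.r r2666 (@Lb.r r25 (@Lb.d (nat_lit 2) (nat_lit 90) (nat_lit 537) (@Lb.t (@Lb.fp (nat_lit 9) t2985))))))))))
noncomputable def l18333 : Lb := (@Lb.d (nat_lit 641) (nat_lit 546) (nat_lit 2) (@Lb.g g4 (@Lb.g g9 (@Lb.g g10 (@Lb.r r2470 (@Lb.r r595 (@Lb.r r2465 (@Lb.d (nat_lit 386) (nat_lit 33) (nat_lit 73) (@Lb.t (@Lb.fm (nat_lit 9) t3245))))))))))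
noncomputable def l18334 : Lb := (@Lb.d (nat_lit 1) (nat_lit 258) (nat_lit 73) (@Lb.g g4 (@Lb.g g9 (@Lb.g g10 (@Lb.g g11 (@Lb.r r1671 (@Lb.r r145 (@Lb.r r594 (@Lb.r r1169 (@Lb.d (nat_lit 73) (nat_lit 97) (nat_lit 410) (@Lb.fp (nat_lit 9) t3695)))))))))))
noncomputable def l18335 : Lb := (@Lb.d (nat_lit 2) (nat_lit 256) (nat_lit 130) (@Lb.g g8 (@Lb.g g9 (@Lb.g g10 (@Lb.g g11 (@Lb.r r586 (@Lb.r r405 (@Lb.r r611 (@Lb.r r529 (@Lb.d (nat_lit 9) (nat_lit 2) (nat_lit 128) (@Lb.fm (nat_lit 9) t145)))))))))))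
noncomputable def l18336 : Lb := (@Lb.r r82 (@Lb.r r275 (@Lb.d (nat_lit 2) (nat_lit 258) (nat_lit 0) (@Lb.g g8 (@Lb.g g9 (@Lb.r r362 (@Lb.r r1705 (@Lb.r r1699 (@Lb.d (nat_lit 325) (nat_lit 32) (nat_lit 650) (@Lb.fm (nat_lit 3) t1566))))))))))
noncomputable def l18337 : Lb := (@Lb.r r322 (@Lb.d (nat_lit 2) (nat_lit 258) (nat_lit 512) (@Lb.g g8 (@Lb.g g9 (@Lb.g g7 (@Lb.r r360 (@Lb.r r150 (@Lb.r r25 (@Lb.d (nat_lit 105) (nat_lit 36) (nat_lit 322) (@Lb.t (@Lb.fp (nat_lit 9) t1832)))))))))))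
noncomputable def l18338 : Lb := (@Lb.g g7 (@Lb.r r644 (@Lb.r r423 (@Lb.r r2393 (@Lb.r r2214 (@Lb.r r1044 (@Lb.t (@Lb.fp (nat_lit 3) t40))))))))
noncomputable def l18339 : Lb := (@Lb.r r323 (@Lb.d (nat_lit 2) (nat_lit 514) (nat_lit 2) (@Lb.g g8 (@Lb.g g9 (@Lb.g g10 (@Lb.r r362 (@Lb.r r387 (@Lb.r r97 (@Lb.d (nat_lit 658) (nat_lit 22) (nat_lit 84) (@Lb.t (@Lb.fp (nat_lit 9) t232)))))))))))
noncomputable def l18340 : Lb := (@Lb.d (nat_lit 273) (nat_lit 129) (nat_lit 149) (@Lb.r r1193 (@Lb.r r1124 (@Lb.r r2375 (@Lb.r r642 (@Lb.g g7 (@Lb.g g6 (@Lb.g g5 (@Lb.d (nat_lit 4) (nat_lit 1) (nat_lit 134) (@Lb.t (@Lb.fp (nat_lit 9) t3428)))))))))))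
noncomputable def l18341 : Lb := (@Lb.r r323 (@Lb.d (nat_lit 2) (nat_lit 512) (nat_lit 1) (@Lb.g g8 (@Lb.g g10 (@Lb.r r330 (@Lb.r r387 (@Lb.r r2577 (@Lb.d (nat_lit 641) (nat_lit 0) (nat_lit 266) (@Lb.fm (nat_lit 3) t3696)))))))))
noncomputable def l18342 : Lb := (@Lb.d (nat_lit 134) (nat_lit 529) (nat_lit 2) (@Lb.g g8 (@Lb.g g9 (@Lb.g g10 (@Lb.g g11 (@Lb.r r2666 (@Lb.r r2664 (@Lb.r r299 (@Lb.r r553 (@Lb.d (nat_lit 385) (nat_lit 81) (nat_lit 426) (@Lb.fp (nat_lit 9) t3697)))))))))))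
noncomputable def l18343 : Lb := (@Lb.d (nat_lit 0) (nat_lit 273) (nat_lit 2) (@Lb.g g9 (@Lb.g g10 (@Lb.g g11 (@Lb.r r419 (@Lb.r r1702 (@Lb.r r2388 (@Lb.r r1577 (@Lb.d (nat_lit 129) (nat_lit 17) (nat_lit 512) (@Lb.t (@Lb.fm (nat_lit 9) t948)))))))))))
noncomputable def l18344 : Lb := (@Lb.g g5 (@Lb.g g11 (@Lb.r r1297 (@Lb.d (nat_lit 5) (nat_lit 1) (nat_lit 576) (@Lb.fp (nat_lit 3) t3698)))))
noncomputable def l18345 : Lb := (@Lb.d (nat_lit 0) (nat_lit 32) (nat_lit 130) (@Lb.g g9 (@Lb.g g10 (@Lb.g g11 (@Lb.r r387 (@Lb.r r1686 (@Lb.r r2389 (@Lb.r r24 (@Lb.d (nat_lit 129) (nat_lit 5) (nat_lit 161) (@Lb.t (@Lb.fm (nat_lit 9) t3699)))))))))))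
noncomputable def l18346 : Lb := (@Lb.d (nat_lit 132) (nat_lit 272) (nat_lit 2) (@Lb.g g8 (@Lb.g g9 (@Lb.g g10 (@Lb.g g11 (@Lb.r r610 (@Lb.r r2627 (@Lb.r r297 (@Lb.r r2084 (@Lb.d (nat_lit 552) (nat_lit 66) (nat_lit 585) (@Lb.fp (nat_lit 9) t245)))))))))))
noncomputable def l18347 : Lb := (@Lb.d (nat_lit 0) (nat_lit 17) (nat_lit 2) (@Lb.g g9 (@Lb.g g10 (@Lb.g g11 (@Lb.r r419 (@Lb.r r1702 (@Lb.r r2388 (@Lb.r r1577 (@Lb.d (nat_lit 134) (nat_lit 18) (nat_lit 512) (@Lb.t (@Lb.fm (nat_lit 9) t854)))))))))))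
noncomputable def l18348 : Lb := (@Lb.d (nat_lit 0) (nat_lit 273) (nat_lit 2) (@Lb.g g9 (@Lb.g g10 (@Lb.g g11 (@Lb.r r419 (@Lb.r r1702 (@Lb.r r1705 (@Lb.r r24 (@Lb.d (nat_lit 294) (nat_lit 37) (nat_lit 549) (@Lb.t (@Lb.fp (nat_lit 9) t3699)))))))))))
noncomputable def l18349 : Lb := (@Lb.d (nat_lit 0) (nat_lit 2) (nat_lit 4) (@Lb.g g9 (@Lb.g g10 (@Lb.g g11 (@Lb.r r1699 (@Lb.r r1429 (@Lb.r r2664 (@Lb.r r1686 (@Lb.d (nat_lit 546) (nat_lit 10) (nat_lit 129) (@Lb.t (@Lb.fp (nat_lit 9) t1146)))))))))))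
noncomputable def l18350 : Lb := (@Lb.r r82 (@Lb.d (nat_lit 0) (nat_lit 2) (nat_lit 580) (@Lb.g g9 (@Lb.g g7 (@Lb.r r1441 (@Lb.r r98 (@Lb.r r24 (@Lb.d (nat_lit 608) (nat_lit 66) (nat_lit 266) (@Lb.fp (nat_lit 3) t3700)))))))))
noncomputable def l18351 : Lb := (@Lb.d (nat_lit 10) (nat_lit 512) (nat_lit 0) (@Lb.g g4 (@Lb.g g11 (@Lb.r r281 (@Lb.r r2599 (@Lb.r r2178 (@Lb.r r1304 (@Lb.d (nat_lit 69) (nat_lit 161) (nat_lit 576) (@Lb.fm (nat_lit 3) t414)))))))))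
noncomputable def l18352 : Lb := (@Lb.r r275 (@Lb.d (nat_lit 0) (nat_lit 673) (nat_lit 2) (@Lb.g g5 (@Lb.g g10 (@Lb.r r291 (@Lb.r r386 (@Lb.d (nat_lit 5) (nat_lit 82) (nat_lit 9) (@Lb.fm (nat_lit 3) t1055))))))))
noncomputable def l18353 : Lb := (@Lb.r r323 (@Lb.d (nat_lit 8) (nat_lit 0) (nat_lit 1) (@Lb.g g9 (@Lb.g g6 (@Lb.r r387 (@Lb.r r148 (@Lb.r r169 (@Lb.d (nat_lit 34) (nat_lit 145) (nat_lit 265) (@Lb.fm (nat_lit 3) t2781)))))))))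
noncomputable def l18354 : Lb := (@Lb.r r323 (@Lb.d (nat_lit 0) (nat_lit 258) (nat_lit 1) (@Lb.g g9 (@Lb.g g6 (@Lb.r r387 (@Lb.r r104 (@Lb.r r25 (@Lb.d (nat_lit 22) (nat_lit 148) (nat_lit 265) (@Lb.fm (nat_lit 3) t2781)))))))))
noncomputable def l18355 : Lb := (@Lb.r r323 (@Lb.d (nat_lit 8) (nat_lit 512) (nat_lit 1) (@Lb.g g9 (@Lb.g g6 (@Lb.r r387 (@Lb.r r148 (@Lb.r r169 (@Lb.d (nat_lit 32) (nat_lit 145) (nat_lit 265) (@Lb.fm (nat_lit 3) t3701)))))))))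
noncomputable def l18356 : Lb := (@Lb.d (nat_lit 641) (nat_lit 514) (nat_lit 130) (@Lb.g g8 (@Lb.g g9 (@Lb.g g10 (@Lb.g g11 (@Lb.r r1451 (@Lb.r r106 (@Lb.r r25 (@Lb.d (nat_lit 9) (nat_lit 9) (nat_lit 425) (@Lb.fp (nat_lit 9) t394))))))))))
noncomputable def l18357 : Lb := (@Lb.r r21 (@Lb.d (nat_lit 146) (nat_lit 512) (nat_lit 128) (@Lb.g g8 (@Lb.g g10 (@Lb.g g11 (@Lb.r r1355 (@Lb.r r402 (@Lb.r r97 (@Lb.r r532 (@Lb.d (nat_lit 409) (nat_lit 97) (nat_lit 106) (@Lb.t (@Lb.fm (nat_lit 9) t1164))))))))))))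
noncomputable def l18358 : Lb := (@Lb.r r323 (@Lb.d (nat_lit 2) (nat_lit 256) (nat_lit 0) (@Lb.g g8 (@Lb.g g10 (@Lb.r r1675 (@Lb.r r2601 (@Lb.r r1700 (@Lb.r r2182 (@Lb.d (nat_lit 0) (nat_lit 154) (nat_lit 298) (@Lb.fp (nat_lit 3) t2926))))))))))
noncomputable def l18359 : Lb := (@Lb.r r326 (@Lb.d (nat_lit 134) (nat_lit 272) (nat_lit 648) (@Lb.g g8 (@Lb.g g9 (@Lb.g g7 (@Lb.r r1622 (@Lb.r r2088 (@Lb.r r1129 (@Lb.d (nat_lit 260) (nat_lit 5) (nat_lit 134) (@Lb.t (@Lb.fp (nat_lit 9) t3702)))))))))))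
noncomputable def l18360 : Lb := (@Lb.r r70 (@Lb.d (nat_lit 385) (nat_lit 514) (nat_lit 64) (@Lb.g g8 (@Lb.g g9 (@Lb.g g11 (@Lb.r r2347 (@Lb.r r1602 (@Lb.r r25 (@Lb.d (nat_lit 8) (nat_lit 40) (nat_lit 130) (@Lb.t (@Lb.fm (nat_lit 9) t1792)))))))))))
noncomputable def l18361 : Lb := (@Lb.d (nat_lit 2) (nat_lit 260) (nat_lit 74) (@Lb.g g8 (@Lb.g g9 (@Lb.g g10 (@Lb.g g11 (@Lb.r r1699 (@Lb.r r1160 (@Lb.r r1610 (@Lb.r r37 (@Lb.d (nat_lit 610) (nat_lit 154) (nat_lit 420) (@Lb.fm (nat_lit 9) t865)))))))))))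
noncomputable def l18362 : Lb := (@Lb.r r82 (@Lb.d (nat_lit 34) (nat_lit 289) (nat_lit 64) (@Lb.g g8 (@Lb.g g9 (@Lb.g g11 (@Lb.r r1571 (@Lb.r r582 (@Lb.r r1445 (@Lb.r r408 (@Lb.d (nat_lit 346) (nat_lit 16) (nat_lit 420) (@Lb.t (@Lb.fp (nat_lit 9) t865))))))))))))
noncomputable def l18363 : Lb := (@Lb.r r82 (@Lb.d (nat_lit 34) (nat_lit 289) (nat_lit 64) (@Lb.g g8 (@Lb.g g9 (@Lb.g g11 (@Lb.r r2665 (@Lb.r r658 (@Lb.r r1419 (@Lb.r r1288 (@Lb.d (nat_lit 66) (nat_lit 64) (nat_lit 600) (@Lb.t (@Lb.fp (nat_lit 9) t2424))))))))))))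
noncomputable def l18364 : Lb := (@Lb.d (nat_lit 100) (nat_lit 33) (nat_lit 4) (@Lb.g g8 (@Lb.g g9 (@Lb.g g10 (@Lb.g g11 (@Lb.r r675 (@Lb.r r2406 (@Lb.r r1301 (@Lb.r r2312 (@Lb.d (nat_lit 104) (nat_lit 169) (nat_lit 417) (@Lb.fp (nat_lit 9) t2730)))))))))))
noncomputable def l18365 : Lb := (@Lb.r r82 (@Lb.d (nat_lit 2) (nat_lit 2) (nat_lit 128) (@Lb.g g8 (@Lb.g g9 (@Lb.g g11 (@Lb.r r1571 (@Lb.r r1416 (@Lb.r r1642 (@Lb.r r1633 (@Lb.d (nat_lit 612) (nat_lit 133) (nat_lit 600) (@Lb.t (@Lb.fp (nat_lit 9) t2424))))))))))))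
noncomputable def l18366 : Lb := (@Lb.d (nat_lit 0) (nat_lit 258) (nat_lit 130) (@Lb.g g9 (@Lb.g g10 (@Lb.g g11 (@Lb.r r2705 (@Lb.r r667 (@Lb.r r644 (@Lb.r r2630 (@Lb.d (nat_lit 665) (nat_lit 6) (nat_lit 357) (@Lb.t (@Lb.fp (nat_lit 9) t3703)))))))))))
noncomputable def l18367 : Lb := (@Lb.r r21 (@Lb.r r70 (@Lb.d (nat_lit 129) (nat_lit 512) (nat_lit 64) (@Lb.g g8 (@Lb.g g11 (@Lb.r r2375 (@Lb.r r2694 (@Lb.r r2645 (@Lb.r r1416 (@Lb.d (nat_lit 593) (nat_lit 0) (nat_lit 64) (@Lb.fm (nat_lit 3) t3704)))))))))))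
noncomputable def l18368 : Lb := (@Lb.d (nat_lit 394) (nat_lit 578) (nat_lit 0) (@Lb.r r1128 (@Lb.r r1313 (@Lb.r r1686 (@Lb.r r2387 (@Lb.g g7 (@Lb.g g6 (@Lb.g g5 (@Lb.d (nat_lit 0) (nat_lit 1) (nat_lit 65) (@Lb.t (@Lb.fm (nat_lit 9) t3705)))))))))))
noncomputable def l18369 : Lb := (@Lb.d (nat_lit 4) (nat_lit 256) (nat_lit 2) (@Lb.g g8 (@Lb.g g9 (@Lb.g g10 (@Lb.r r683 (@Lb.r r2666 (@Lb.r r2585 (@Lb.d (nat_lit 329) (nat_lit 169) (nat_lit 33) (@Lb.t (@Lb.fp (nat_lit 9) t3706))))))))))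
noncomputable def l18370 : Lb := (@Lb.d (nat_lit 2) (nat_lit 2) (nat_lit 2) (@Lb.g g8 (@Lb.g g9 (@Lb.g g10 (@Lb.g g11 (@Lb.r r2327 (@Lb.r r386 (@Lb.r r97 (@Lb.r r24 (@Lb.d (nat_lit 88) (nat_lit 9) (nat_lit 276) (@Lb.fm (nat_lit 9) t3707)))))))))))
noncomputable def l18371 : Lb := (@Lb.d (nat_lit 4) (nat_lit 520) (nat_lit 2) (@Lb.g g8 (@Lb.g g10 (@Lb.r r2385 (@Lb.r r675 (@Lb.r r2658 (@Lb.d (nat_lit 322) (nat_lit 10) (nat_lit 409) (@Lb.fp (nat_lit 3) t3352))))))))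
noncomputable def l18372 : Lb := (@Lb.r r21 (@Lb.r r70 (@Lb.r r2311 (@Lb.g g8 (@Lb.r r2084 (@Lb.r r101 (@Lb.r r2450 (@Lb.d (nat_lit 5) (nat_lit 1) (nat_lit 16) (@Lb.t (@Lb.fp (nat_lit 3) t3708))))))))))
noncomputable def l18373 : Lb := (@Lb.d (nat_lit 90) (nat_lit 596) (nat_lit 264) (@Lb.r r677 (@Lb.r r408 (@Lb.r r674 (@Lb.r r1623 (@Lb.g g7 (@Lb.g g6 (@Lb.g g5 (@Lb.d (nat_lit 0) (nat_lit 18) (nat_lit 129) (@Lb.t (@Lb.fp (nat_lit 9) t3709)))))))))))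
noncomputable def l18374 : Lb := (@Lb.r r273 (@Lb.r r322 (@Lb.d (nat_lit 2) (nat_lit 512) (nat_lit 584) (@Lb.g g8 (@Lb.g g7 (@Lb.r r280 (@Lb.r r101 (@Lb.r r146 (@Lb.d (nat_lit 1) (nat_lit 16) (nat_lit 266) (@Lb.fm (nat_lit 3) t3710))))))))))
noncomputable def l18375 : Lb := (@Lb.d (nat_lit 2) (nat_lit 260) (nat_lit 64) (@Lb.g g8 (@Lb.g g9 (@Lb.g g10 (@Lb.g g7 (@Lb.r r2466 (@Lb.r r1688 (@Lb.r r2469 (@Lb.d (nat_lit 618) (nat_lit 1) (nat_lit 281) (@Lb.fp (nat_lit 9) t3711))))))))))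
noncomputable def l18376 : Lb := (@Lb.r r273 (@Lb.r r322 (@Lb.d (nat_lit 2) (nat_lit 256) (nat_lit 320) (@Lb.g g8 (@Lb.g g7 (@Lb.r r280 (@Lb.r r101 (@Lb.r r146 (@Lb.d (nat_lit 548) (nat_lit 6) (nat_lit 530) (@Lb.fm (nat_lit 3) t3712))))))))))
noncomputable def l18377 : Lb := (@Lb.r r21 (@Lb.d (nat_lit 80) (nat_lit 0) (nat_lit 133) (@Lb.g g8 (@Lb.g g10 (@Lb.g g11 (@Lb.r r1674 (@Lb.r r2657 (@Lb.r r2723 (@Lb.r r2116 (@Lb.d (nat_lit 537) (nat_lit 97) (nat_lit 657) (@Lb.t (@Lb.fp (nat_lit 9) t3713))))))))))))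
noncomputable def l18378 : Lb := (@Lb.r r21 (@Lb.d (nat_lit 128) (nat_lit 32) (nat_lit 386) (@Lb.g g8 (@Lb.g g10 (@Lb.g g11 (@Lb.r r362 (@Lb.r r2337 (@Lb.r r1108 (@Lb.d (nat_lit 80) (nat_lit 0) (nat_lit 674) (@Lb.t (@Lb.fp (nat_lit 9) t3714)))))))))))
noncomputable def l18379 : Lb := (@Lb.d (nat_lit 129) (nat_lit 260) (nat_lit 64) (@Lb.g g8 (@Lb.g g9 (@Lb.g g10 (@Lb.g g11 (@Lb.r r1411 (@Lb.r r164 (@Lb.r r2438 (@Lb.r r2721 (@Lb.d (nat_lit 81) (nat_lit 17) (nat_lit 134) (@Lb.fp (nat_lit 9) t3715)))))))))))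
noncomputable def l18380 : Lb := (@Lb.d (nat_lit 66) (nat_lit 266) (nat_lit 665) (@Lb.r r24 (@Lb.r r1701 (@Lb.r r354 (@Lb.g g11 (@Lb.g g5 (@Lb.d (nat_lit 0) (nat_lit 5) (nat_lit 384) (@Lb.r r578 (@Lb.fp (nat_lit 3) t1444)))))))))
noncomputable def l18381 : Lb := (@Lb.d (nat_lit 616) (nat_lit 352) (nat_lit 170) (@Lb.r r1125 (@Lb.r r386 (@Lb.r r2387 (@Lb.g g7 (@Lb.g g6 (@Lb.g g5 (@Lb.g g8 (@Lb.d (nat_lit 2) (nat_lit 1) (nat_lit 65) (@Lb.fm (nat_lit 9) t3716))))))))))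
noncomputable def l18382 : Lb := (@Lb.r r21 (@Lb.d (nat_lit 33) (nat_lit 0) (nat_lit 2) (@Lb.g g8 (@Lb.g g10 (@Lb.g g11 (@Lb.r r1626 (@Lb.r r2665 (@Lb.r r2644 (@Lb.d (nat_lit 514) (nat_lit 166) (nat_lit 394) (@Lb.t (@Lb.fp (nat_lit 9) t3717)))))))))))
noncomputable def l18383 : Lb := (@Lb.d (nat_lit 153) (nat_lit 264) (nat_lit 130) (@Lb.g g8 (@Lb.g g9 (@Lb.g g10 (@Lb.g g11 (@Lb.r r423 (@Lb.r r1681 (@Lb.r r1432 (@Lb.r r2202 (@Lb.d (nat_lit 169) (nat_lit 69) (nat_lit 81) (@Lb.fp (nat_lit 9) t269)))))))))))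
noncomputable def l18384 : Lb := (@Lb.d (nat_lit 18) (nat_lit 10) (nat_lit 645) (@Lb.r r24 (@Lb.r r2587 (@Lb.r r1365 (@Lb.r r2722 (@Lb.g g7 (@Lb.g g6 (@Lb.g g5 (@Lb.d (nat_lit 0) (nat_lit 1) (nat_lit 8) (@Lb.t (@Lb.fm (nat_lit 9) t1444)))))))))))
noncomputable def l18385 : Lb := (@Lb.r r85 (@Lb.d (nat_lit 22) (nat_lit 256) (nat_lit 137) (@Lb.g g8 (@Lb.g g10 (@Lb.g g11 (@Lb.r r643 (@Lb.r r594 (@Lb.r r1061 (@Lb.d (nat_lit 97) (nat_lit 37) (nat_lit 425) (@Lb.t (@Lb.fm (nat_lit 9) t10)))))))))))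
noncomputable def l18386 : Lb := (@Lb.d (nat_lit 18) (nat_lit 266) (nat_lit 576) (@Lb.r r597 (@Lb.r r2567 (@Lb.r r1348 (@Lb.r r2698 (@Lb.g g7 (@Lb.g g6 (@Lb.d (nat_lit 0) (nat_lit 0) (nat_lit 129) (@Lb.fm (nat_lit 3) t3718)))))))))
noncomputable def l18387 : Lb := (@Lb.d (nat_lit 337) (nat_lit 421) (nat_lit 152) (@Lb.r r1125 (@Lb.r r386 (@Lb.r r2387 (@Lb.g g7 (@Lb.g g6 (@Lb.g g5 (@Lb.g g8 (@Lb.d (nat_lit 2) (nat_lit 1) (nat_lit 65) (@Lb.fm (nat_lit 9) t3719))))))))))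
noncomputable def l18388 : Lb := (@Lb.d (nat_lit 144) (nat_lit 258) (nat_lit 64) (@Lb.g g8 (@Lb.g g9 (@Lb.g g10 (@Lb.g g11 (@Lb.r r2407 (@Lb.r r1156 (@Lb.r r582 (@Lb.r r25 (@Lb.d (nat_lit 80) (nat_lit 168) (nat_lit 89) (@Lb.fp (nat_lit 9) t3720)))))))))))
noncomputable def l18389 : Lb := (@Lb.d (nat_lit 2) (nat_lit 356) (nat_lit 258) (@Lb.r r1633 (@Lb.r r2403 (@Lb.g g6 (@Lb.g g8 (@Lb.d (nat_lit 322) (nat_lit 4) (nat_lit 42) (@Lb.fm (nat_lit 3) t3721)))))))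
noncomputable def l18390 : Lb := (@Lb.d (nat_lit 2) (nat_lit 550) (nat_lit 128) (@Lb.g g8 (@Lb.g g9 (@Lb.g g10 (@Lb.g g11 (@Lb.r r683 (@Lb.r r386 (@Lb.r r1561 (@Lb.r r24 (@Lb.d (nat_lit 40) (nat_lit 73) (nat_lit 345) (@Lb.fm (nat_lit 9) t3722)))))))))))
noncomputable def l18391 : Lb := (@Lb.d (nat_lit 2) (nat_lit 514) (nat_lit 130) (@Lb.g g8 (@Lb.g g9 (@Lb.g g10 (@Lb.g g11 (@Lb.r r2411 (@Lb.r r386 (@Lb.r r97 (@Lb.r r24 (@Lb.d (nat_lit 265) (nat_lit 2) (nat_lit 84) (@Lb.fm (nat_lit 9) t61)))))))))))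
noncomputable def l18392 : Lb := (@Lb.d (nat_lit 0) (nat_lit 2) (nat_lit 130) (@Lb.g g8 (@Lb.g g9 (@Lb.g g10 (@Lb.g g11 (@Lb.r r427 (@Lb.r r2146 (@Lb.r r292 (@Lb.r r2069 (@Lb.r r1060 (@Lb.d (nat_lit 296) (nat_lit 66) (nat_lit 34) (@Lb.fp (nat_lit 9) t1089))))))))))))
noncomputable def l18393 : Lb := (@Lb.r r21 (@Lb.r r326 (@Lb.d (nat_lit 130) (nat_lit 256) (nat_lit 128) (@Lb.g g8 (@Lb.g g11 (@Lb.r r1323 (@Lb.r r1377 (@Lb.r r2194 (@Lb.d (nat_lit 344) (nat_lit 2) (nat_lit 530) (@Lb.fm (nat_lit 3) t1606))))))))))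
noncomputable def l18394 : Lb := (@Lb.r r331 (@Lb.d (nat_lit 37) (nat_lit 256) (nat_lit 2) (@Lb.g g8 (@Lb.g g9 (@Lb.g g10 (@Lb.r r2454 (@Lb.r r1371 (@Lb.r r549 (@Lb.r r2708 (@Lb.d (nat_lit 294) (nat_lit 101) (nat_lit 150) (@Lb.t (@Lb.fm (nat_lit 9) t1039))))))))))))
noncomputable def l18395 : Lb := (@Lb.d (nat_lit 144) (nat_lit 256) (nat_lit 384) (@Lb.g g8 (@Lb.g g10 (@Lb.g g11 (@Lb.r r1602 (@Lb.r r388 (@Lb.d (nat_lit 96) (nat_lit 0) (nat_lit 394) (@Lb.t (@Lb.fm (nat_lit 9) t3723)))))))))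
noncomputable def l18396 : Lb := (@Lb.r r82 (@Lb.d (nat_lit 64) (nat_lit 272) (nat_lit 644) (@Lb.g g9 (@Lb.g g7 (@Lb.r r386 (@Lb.r r1129 (@Lb.d (nat_lit 265) (nat_lit 138) (nat_lit 66) (@Lb.fp (nat_lit 3) t2760))))))))
noncomputable def l18397 : Lb := (@Lb.g g11 (@Lb.r r2150 (@Lb.r r1065 (@Lb.r r2088 (@Lb.d (nat_lit 149) (nat_lit 25) (nat_lit 288) (@Lb.t (@Lb.fp (nat_lit 3) t3724)))))))
noncomputable def l18398 : Lb := (@Lb.d (nat_lit 41) (nat_lit 512) (nat_lit 0) (@Lb.g g8 (@Lb.g g11 (@Lb.r r2395 (@Lb.r r614 (@Lb.r r1637 (@Lb.r r1428 (@Lb.d (nat_lit 356) (nat_lit 90) (nat_lit 394) (@Lb.fp (nat_lit 3) t386)))))))))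
noncomputable def l18399 : Lb := (@Lb.d (nat_lit 2) (nat_lit 256) (nat_lit 0) (@Lb.g g8 (@Lb.g g11 (@Lb.r r1291 (@Lb.d (nat_lit 522) (nat_lit 128) (nat_lit 0) (@Lb.fm (nat_lit 3) t441))))))
noncomputable def l18400 : Lb := (@Lb.d (nat_lit 34) (nat_lit 0) (nat_lit 0) (@Lb.g g8 (@Lb.r r2470 (@Lb.r r421 (@Lb.r r2644 (@Lb.r r1283 (@Lb.d (nat_lit 5) (nat_lit 102) (nat_lit 682) (@Lb.t (@Lb.fp (nat_lit 3) t3409)))))))))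
noncomputable def l18401 : Lb := (@Lb.g g11 (@Lb.r r2150 (@Lb.r r1065 (@Lb.r r2088 (@Lb.d (nat_lit 649) (nat_lit 272) (nat_lit 256) (@Lb.t (@Lb.fp (nat_lit 3) t2830)))))))
noncomputable def l18402 : Lb := (@Lb.d (nat_lit 2) (nat_lit 2) (nat_lit 130) (@Lb.g g8 (@Lb.g g9 (@Lb.g g10 (@Lb.g g11 (@Lb.r r427 (@Lb.r r106 (@Lb.r r25 (@Lb.d (nat_lit 9) (nat_lit 128) (nat_lit 169) (@Lb.fp (nat_lit 9) t295))))))))))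
noncomputable def l18403 : Lb := (@Lb.r r391 (@Lb.r r2150 (@Lb.r r101 (@Lb.r r24 (@Lb.d (nat_lit 258) (nat_lit 128) (nat_lit 0) (@Lb.fp (nat_lit 1) t1920))))))
noncomputable def l18404 : Lb := (@Lb.d (nat_lit 130) (nat_lit 514) (nat_lit 130) (@Lb.g g8 (@Lb.g g9 (@Lb.g g10 (@Lb.g g11 (@Lb.r r2666 (@Lb.r r612 (@Lb.r r1319 (@Lb.r r405 (@Lb.r r2084 (@Lb.d (nat_lit 608) (nat_lit 9) (nat_lit 169) (@Lb.fp (nat_lit 9) t3725))))))))))))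
noncomputable def l18405 : Lb := (@Lb.r r21 (@Lb.r r263 (@Lb.d (nat_lit 288) (nat_lit 520) (nat_lit 2) (@Lb.g g4 (@Lb.g g10 (@Lb.r r1427 (@Lb.r r97 (@Lb.d (nat_lit 1) (nat_lit 74) (nat_lit 1) (@Lb.fm (nat_lit 3) t2248)))))))))
noncomputable def l18406 : Lb := (@Lb.d (nat_lit 321) (nat_lit 0) (nat_lit 512) (@Lb.r r24 (@Lb.r r101 (@Lb.r r1362 (@Lb.g g7 (@Lb.g g6 (@Lb.g g5 (@Lb.g g4 (@Lb.d (nat_lit 0) (nat_lit 0) (nat_lit 134) (@Lb.fp (nat_lit 9) t2326))))))))))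
noncomputable def l18407 : Lb := (@Lb.d (nat_lit 288) (nat_lit 613) (nat_lit 272) (@Lb.r r2196 (@Lb.r r2709 (@Lb.r r2150 (@Lb.g g7 (@Lb.d (nat_lit 0) (nat_lit 0) (nat_lit 68) (@Lb.t (@Lb.fm (nat_lit 3) t3726))))))))
noncomputable def l18408 : Lb := (@Lb.r r323 (@Lb.d (nat_lit 0) (nat_lit 258) (nat_lit 4) (@Lb.g g5 (@Lb.g g6 (@Lb.r r2643 (@Lb.r r153 (@Lb.r r24 (@Lb.d (nat_lit 144) (nat_lit 0) (nat_lit 322) (@Lb.fm (nat_lit 3) t457)))))))))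
noncomputable def l18409 : Lb := (@Lb.d (nat_lit 38) (nat_lit 256) (nat_lit 73) (@Lb.g g8 (@Lb.g g9 (@Lb.g g10 (@Lb.g g11 (@Lb.r r2690 (@Lb.r r2455 (@Lb.r r1561 (@Lb.r r1540 (@Lb.d (nat_lit 393) (nat_lit 10) (nat_lit 656) (@Lb.fm (nat_lit 9) t2722)))))))))))
noncomputable def l18410 : Lb := (@Lb.d (nat_lit 38) (nat_lit 0) (nat_lit 8) (@Lb.g g8 (@Lb.g g9 (@Lb.g g6 (@Lb.g g11 (@Lb.r r601 (@Lb.r r275 (@Lb.r r1553 (@Lb.r r1540 (@Lb.d (nat_lit 673) (nat_lit 129) (nat_lit 672) (@Lb.fm (nat_lit 9) t3727)))))))))))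
noncomputable def l18411 : Lb := (@Lb.g g7 (@Lb.r r101 (@Lb.r r24 (@Lb.d (nat_lit 17) (nat_lit 256) (nat_lit 133) (@Lb.t (@Lb.fm (nat_lit 3) t40))))))
noncomputable def l18412 : Lb := (@Lb.d (nat_lit 0) (nat_lit 0) (nat_lit 2) (@Lb.g g10 (@Lb.g g7 (@Lb.r r386 (@Lb.r r1624 (@Lb.r r2341 (@Lb.d (nat_lit 405) (nat_lit 152) (nat_lit 146) (@Lb.fm (nat_lit 3) t3728))))))))
noncomputable def l18413 : Lb := (@Lb.d (nat_lit 32) (nat_lit 0) (nat_lit 73) (@Lb.g g9 (@Lb.g g10 (@Lb.g g11 (@Lb.r r2695 (@Lb.r r1352 (@Lb.r r2390 (@Lb.r r409 (@Lb.d (nat_lit 129) (nat_lit 128) (nat_lit 330) (@Lb.t (@Lb.fm (nat_lit 9) t1087)))))))))))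
noncomputable def l18414 : Lb := (@Lb.r r1291 (@Lb.r r101 (@Lb.r r402 (@Lb.d (nat_lit 130) (nat_lit 600) (nat_lit 546) (@Lb.fp (nat_lit 1) t3729)))))
noncomputable def l18415 : Lb := (@Lb.d (nat_lit 0) (nat_lit 513) (nat_lit 2) (@Lb.g g9 (@Lb.g g10 (@Lb.r r1698 (@Lb.r r1443 (@Lb.r r2449 (@Lb.r r36 (@Lb.d (nat_lit 5) (nat_lit 86) (nat_lit 585) (@Lb.fp (nat_lit 3) t918)))))))))
noncomputable def l18416 : Lb := (@Lb.d (nat_lit 424) (nat_lit 10) (nat_lit 353) (@Lb.r r148 (@Lb.r r2337 (@Lb.r r2406 (@Lb.g g7 (@Lb.g g6 (@Lb.g g4 (@Lb.d (nat_lit 66) (nat_lit 16) (nat_lit 577) (@Lb.r r25 (@Lb.t (@Lb.fm (nat_lit 9) t2578)))))))))))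
noncomputable def l18417 : Lb := (@Lb.d (nat_lit 2) (nat_lit 256) (nat_lit 0) (@Lb.g g8 (@Lb.g g9 (@Lb.r r610 (@Lb.r r2403 (@Lb.r r1365 (@Lb.r r1384 (@Lb.r r2630 (@Lb.d (nat_lit 2) (nat_lit 5) (nat_lit 86) (@Lb.fp (nat_lit 3) t319))))))))))
noncomputable def l18418 : Lb := (@Lb.r r323 (@Lb.d (nat_lit 2) (nat_lit 516) (nat_lit 16) (@Lb.g g8 (@Lb.g g10 (@Lb.r r1689 (@Lb.r r2459 (@Lb.r r24 (@Lb.d (nat_lit 266) (nat_lit 82) (nat_lit 132) (@Lb.fp (nat_lit 3) t521)))))))))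
noncomputable def l18419 : Lb := (@Lb.d (nat_lit 9) (nat_lit 514) (nat_lit 130) (@Lb.g g8 (@Lb.g g9 (@Lb.g g10 (@Lb.g g11 (@Lb.r r1602 (@Lb.r r1065 (@Lb.r r616 (@Lb.r r1611 (@Lb.r r516 (@Lb.d (nat_lit 545) (nat_lit 98) (nat_lit 65) (@Lb.fm (nat_lit 9) t246))))))))))))
noncomputable def l18420 : Lb := (@Lb.d (nat_lit 601) (nat_lit 357) (nat_lit 517) (@Lb.r r2409 (@Lb.r r548 (@Lb.r r1414 (@Lb.r r295 (@Lb.g g5 (@Lb.d (nat_lit 4) (nat_lit 17) (nat_lit 0) (@Lb.t (@Lb.fm (nat_lit 3) t40)))))))))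
noncomputable def l18421 : Lb := (@Lb.d (nat_lit 144) (nat_lit 521) (nat_lit 9) (@Lb.g g8 (@Lb.g g9 (@Lb.g g10 (@Lb.g g11 (@Lb.r r1291 (@Lb.r r340 (@Lb.r r1194 (@Lb.r r1177 (@Lb.r r1156 (@Lb.d (nat_lit 522) (nat_lit 1) (nat_lit 424) (@Lb.fm (nat_lit 9) t3730))))))))))))
noncomputable def l18422 : Lb := (@Lb.d (nat_lit 389) (nat_lit 9) (nat_lit 514) (@Lb.r r8 (@Lb.r r101 (@Lb.r r1434 (@Lb.r r1347 (@Lb.g g7 (@Lb.g g6 (@Lb.d (nat_lit 0) (nat_lit 0) (nat_lit 65) (@Lb.fp (nat_lit 3) t1876)))))))))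
noncomputable def l18423 : Lb := (@Lb.d (nat_lit 144) (nat_lit 258) (nat_lit 64) (@Lb.g g8 (@Lb.g g9 (@Lb.g g10 (@Lb.g g11 (@Lb.r r427 (@Lb.r r426 (@Lb.r r292 (@Lb.r r21 (@Lb.r r36 (@Lb.d (nat_lit 26) (nat_lit 33) (nat_lit 130) (@Lb.fm (nat_lit 9) t1108))))))))))))
noncomputable def l18424 : Lb := (@Lb.d (nat_lit 128) (nat_lit 512) (nat_lit 64) (@Lb.g g8 (@Lb.g g11 (@Lb.r r1291 (@Lb.r r2630 (@Lb.r r2581 (@Lb.r r292 (@Lb.d (nat_lit 581) (nat_lit 33) (nat_lit 128) (@Lb.fm (nat_lit 3) t2538)))))))))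
noncomputable def l18425 : Lb := (@Lb.d (nat_lit 88) (nat_lit 657) (nat_lit 392) (@Lb.r r2340 (@Lb.r r97 (@Lb.r r2198 (@Lb.g g11 (@Lb.g g5 (@Lb.g g4 (@Lb.d (nat_lit 17) (nat_lit 1) (nat_lit 132) (@Lb.t (@Lb.fm (nat_lit 9) t3730))))))))))
noncomputable def l18426 : Lb := (@Lb.d (nat_lit 144) (nat_lit 257) (nat_lit 10) (@Lb.g g8 (@Lb.g g9 (@Lb.g g10 (@Lb.g g11 (@Lb.r r1451 (@Lb.r r1442 (@Lb.r r292 (@Lb.r r2453 (@Lb.r r1060 (@Lb.d (nat_lit 609) (nat_lit 8) (nat_lit 409) (@Lb.fm (nat_lit 9) t2500))))))))))))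
noncomputable def l18427 : Lb := (@Lb.r r90 (@Lb.d (nat_lit 5) (nat_lit 512) (nat_lit 128) (@Lb.g g8 (@Lb.g g9 (@Lb.g g11 (@Lb.r r1315 (@Lb.r r2646 (@Lb.r r1425 (@Lb.r r1572 (@Lb.d (nat_lit 1) (nat_lit 84) (nat_lit 402) (@Lb.t (@Lb.fm (nat_lit 9) t400))))))))))))
noncomputable def l18428 : Lb := (@Lb.d (nat_lit 16) (nat_lit 258) (nat_lit 130) (@Lb.g g9 (@Lb.g g6 (@Lb.g g11 (@Lb.r r2667 (@Lb.r r2657 (@Lb.r r24 (@Lb.d (nat_lit 642) (nat_lit 42) (nat_lit 296) (@Lb.t (@Lb.fm (nat_lit 9) t3731))))))))))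
noncomputable def l18429 : Lb := (@Lb.d (nat_lit 392) (nat_lit 70) (nat_lit 390) (@Lb.r r597 (@Lb.r r2662 (@Lb.r r1668 (@Lb.r r1415 (@Lb.g g7 (@Lb.g g6 (@Lb.g g5 (@Lb.d (nat_lit 4) (nat_lit 1) (nat_lit 68) (@Lb.t (@Lb.fp (nat_lit 9) t1766)))))))))))
noncomputable def l18430 : Lb := (@Lb.d (nat_lit 6) (nat_lit 512) (nat_lit 130) (@Lb.g g8 (@Lb.g g9 (@Lb.g g10 (@Lb.g g11 (@Lb.r r427 (@Lb.r r420 (@Lb.r r102 (@Lb.r r97 (@Lb.r r36 (@Lb.d (nat_lit 2) (nat_lit 2) (nat_lit 138) (@Lb.fm (nat_lit 9) t51))))))))))))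
noncomputable def l18431 : Lb := (@Lb.r r82 (@Lb.d (nat_lit 32) (nat_lit 2) (nat_lit 136) (@Lb.g g8 (@Lb.g g9 (@Lb.g g11 (@Lb.r r1362 (@Lb.r r2645 (@Lb.r r356 (@Lb.r r395 (@Lb.d (nat_lit 548) (nat_lit 32) (nat_lit 680) (@Lb.t (@Lb.fm (nat_lit 9) t2545))))))))))))
noncomputable def l18432 : Lb := (@Lb.d (nat_lit 2) (nat_lit 258) (nat_lit 130) (@Lb.g g8 (@Lb.g g9 (@Lb.g g10 (@Lb.g g11 (@Lb.r r2705 (@Lb.r r535 (@Lb.r r2440 (@Lb.r r2122 (@Lb.d (nat_lit 294) (nat_lit 64) (nat_lit 137) (@Lb.fp (nat_lit 9) t741)))))))))))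
noncomputable def l18433 : Lb := (@Lb.d (nat_lit 130) (nat_lit 0) (nat_lit 0) (@Lb.g g4 (@Lb.r r1387 (@Lb.r r2178 (@Lb.r r1433 (@Lb.r r2328 (@Lb.d (nat_lit 646) (nat_lit 97) (nat_lit 160) (@Lb.t (@Lb.fm (nat_lit 3) t307)))))))))
noncomputable def l18434 : Lb := (@Lb.d (nat_lit 132) (nat_lit 256) (nat_lit 2) (@Lb.g g8 (@Lb.g g9 (@Lb.g g10 (@Lb.r r2691 (@Lb.r r2217 (@Lb.r r2666 (@Lb.r r104 (@Lb.d (nat_lit 676) (nat_lit 10) (nat_lit 329) (@Lb.t (@Lb.fp (nat_lit 9) t242)))))))))))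
noncomputable def l18435 : Lb := (@Lb.d (nat_lit 6) (nat_lit 545) (nat_lit 0) (@Lb.g g8 (@Lb.g g9 (@Lb.r r2404 (@Lb.r r603 (@Lb.r r2178 (@Lb.r r357 (@Lb.d (nat_lit 362) (nat_lit 42) (nat_lit 132) (@Lb.fp (nat_lit 3) t229)))))))))
noncomputable def l18436 : Lb := (@Lb.d (nat_lit 130) (nat_lit 256) (nat_lit 0) (@Lb.g g4 (@Lb.r r1387 (@Lb.r r2178 (@Lb.r r1433 (@Lb.r r2328 (@Lb.d (nat_lit 645) (nat_lit 97) (nat_lit 160) (@Lb.t (@Lb.fm (nat_lit 3) t229)))))))))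
noncomputable def l18437 : Lb := (@Lb.d (nat_lit 40) (nat_lit 512) (nat_lit 73) (@Lb.g g9 (@Lb.g g10 (@Lb.g g11 (@Lb.r r676 (@Lb.r r2455 (@Lb.r r1633 (@Lb.r r594 (@Lb.d (nat_lit 10) (nat_lit 37) (nat_lit 337) (@Lb.t (@Lb.fp (nat_lit 9) t1644)))))))))))
noncomputable def l18438 : Lb := (@Lb.d (nat_lit 8) (nat_lit 258) (nat_lit 64) (@Lb.g g9 (@Lb.g g11 (@Lb.r r134 (@Lb.r r584 (@Lb.r r299 (@Lb.r r289 (@Lb.d (nat_lit 8) (nat_lit 72) (nat_lit 2) (@Lb.fp (nat_lit 3) t51)))))))))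
noncomputable def l18439 : Lb := (@Lb.r r323 (@Lb.d (nat_lit 129) (nat_lit 2) (nat_lit 18) (@Lb.g g8 (@Lb.g g9 (@Lb.g g10 (@Lb.r r1623 (@Lb.r r2345 (@Lb.r r2340 (@Lb.d (nat_lit 585) (nat_lit 105) (nat_lit 657) (@Lb.t (@Lb.fm (nat_lit 9) t386)))))))))))
noncomputable def l18440 : Lb := (@Lb.d (nat_lit 257) (nat_lit 357) (nat_lit 260) (@Lb.r r21 (@Lb.r r1640 (@Lb.r r1643 (@Lb.g g7 (@Lb.g g10 (@Lb.g g5 (@Lb.g g4 (@Lb.d (nat_lit 24) (nat_lit 0) (nat_lit 66) (@Lb.fm (nat_lit 9) t468))))))))))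
noncomputable def l18441 : Lb := (@Lb.d (nat_lit 162) (nat_lit 514) (nat_lit 0) (@Lb.g g8 (@Lb.g g9 (@Lb.r r2595 (@Lb.r r1110 (@Lb.r r2217 (@Lb.r r424 (@Lb.d (nat_lit 89) (nat_lit 34) (nat_lit 329) (@Lb.fp (nat_lit 3) t1406)))))))))
noncomputable def l18442 : Lb := (@Lb.d (nat_lit 2) (nat_lit 258) (nat_lit 0) (@Lb.g g8 (@Lb.g g9 (@Lb.r r2595 (@Lb.r r2453 (@Lb.r r356 (@Lb.r r154 (@Lb.d (nat_lit 641) (nat_lit 5) (nat_lit 344) (@Lb.fm (nat_lit 3) t228)))))))))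
noncomputable def l18443 : Lb := (@Lb.d (nat_lit 34) (nat_lit 256) (nat_lit 0) (@Lb.g g4 (@Lb.r r2391 (@Lb.r r618 (@Lb.r r1641 (@Lb.r r2664 (@Lb.d (nat_lit 154) (nat_lit 165) (nat_lit 665) (@Lb.t (@Lb.fm (nat_lit 3) t386)))))))))
noncomputable def l18444 : Lb := (@Lb.r r21 (@Lb.d (nat_lit 1) (nat_lit 256) (nat_lit 2) (@Lb.g g8 (@Lb.g g10 (@Lb.g g7 (@Lb.r r386 (@Lb.r r1429 (@Lb.r r2632 (@Lb.d (nat_lit 657) (nat_lit 5) (nat_lit 357) (@Lb.t (@Lb.fp (nat_lit 9) t1403)))))))))))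
noncomputable def l18445 : Lb := (@Lb.r r21 (@Lb.r r70 (@Lb.d (nat_lit 512) (nat_lit 0) (nat_lit 128) (@Lb.g g4 (@Lb.g g11 (@Lb.r r583 (@Lb.r r402 (@Lb.r r25 (@Lb.d (nat_lit 256) (nat_lit 6) (nat_lit 0) (@Lb.fp (nat_lit 3) t375))))))))))
noncomputable def l18446 : Lb := (@Lb.d (nat_lit 2) (nat_lit 256) (nat_lit 0) (@Lb.g g8 (@Lb.d (nat_lit 10) (nat_lit 2) (nat_lit 128) (@Lb.t (@Lb.fp (nat_lit 3) t2)))))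
noncomputable def l18447 : Lb := (@Lb.r r327 (@Lb.d (nat_lit 1) (nat_lit 9) (nat_lit 2) (@Lb.g g8 (@Lb.g g9 (@Lb.g g10 (@Lb.r r343 (@Lb.r r2410 (@Lb.r r345 (@Lb.r r324 (@Lb.d (nat_lit 89) (nat_lit 65) (nat_lit 552) (@Lb.t (@Lb.fm (nat_lit 9) t1755))))))))))))
noncomputable def l18448 : Lb := (@Lb.d (nat_lit 144) (nat_lit 9) (nat_lit 73) (@Lb.g g8 (@Lb.g g9 (@Lb.g g10 (@Lb.g g11 (@Lb.r r1706 (@Lb.r r1411 (@Lb.r r2201 (@Lb.r r2180 (@Lb.d (nat_lit 553) (nat_lit 146) (nat_lit 101) (@Lb.fm (nat_lit 9) t3732)))))))))))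
noncomputable def l18449 : Lb := (@Lb.d (nat_lit 641) (nat_lit 521) (nat_lit 258) (@Lb.r r24 (@Lb.g g9 (@Lb.d (nat_lit 8) (nat_lit 2) (nat_lit 0) (@Lb.t (@Lb.fm (nat_lit 3) t3733))))))
noncomputable def l18450 : Lb := (@Lb.d (nat_lit 153) (nat_lit 264) (nat_lit 130) (@Lb.g g8 (@Lb.g g9 (@Lb.g g10 (@Lb.g g11 (@Lb.r r683 (@Lb.r r2724 (@Lb.r r134 (@Lb.r r97 (@Lb.d (nat_lit 544) (nat_lit 169) (nat_lit 385) (@Lb.fm (nat_lit 9) t3734)))))))))))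
noncomputable def l18451 : Lb := (@Lb.d (nat_lit 146) (nat_lit 9) (nat_lit 130) (@Lb.g g8 (@Lb.g g9 (@Lb.g g10 (@Lb.g g11 (@Lb.r r683 (@Lb.r r2724 (@Lb.r r134 (@Lb.r r97 (@Lb.d (nat_lit 544) (nat_lit 106) (nat_lit 385) (@Lb.fm (nat_lit 9) t3735)))))))))))
noncomputable def l18452 : Lb := (@Lb.d (nat_lit 153) (nat_lit 520) (nat_lit 130) (@Lb.g g8 (@Lb.g g9 (@Lb.g g10 (@Lb.g g11 (@Lb.r r2666 (@Lb.r r2665 (@Lb.r r291 (@Lb.r r2628 (@Lb.d (nat_lit 656) (nat_lit 33) (nat_lit 549) (@Lb.fm (nat_lit 9) t2343)))))))))))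
noncomputable def l18453 : Lb := (@Lb.d (nat_lit 8) (nat_lit 9) (nat_lit 130) (@Lb.g g9 (@Lb.g g10 (@Lb.g g11 (@Lb.r r1364 (@Lb.r r2475 (@Lb.r r1386 (@Lb.r r281 (@Lb.d (nat_lit 10) (nat_lit 153) (nat_lit 513) (@Lb.t (@Lb.fm (nat_lit 9) t3736)))))))))))
noncomputable def l18454 : Lb := (@Lb.d (nat_lit 0) (nat_lit 521) (nat_lit 65) (@Lb.g g8 (@Lb.g g9 (@Lb.g g10 (@Lb.g g7 (@Lb.r r2466 (@Lb.r r292 (@Lb.r r405 (@Lb.r r2084 (@Lb.d (nat_lit 609) (nat_lit 90) (nat_lit 345) (@Lb.fp (nat_lit 9) t2655)))))))))))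
noncomputable def l18455 : Lb := (@Lb.d (nat_lit 146) (nat_lit 265) (nat_lit 73) (@Lb.g g8 (@Lb.g g9 (@Lb.g g10 (@Lb.g g11 (@Lb.r r683 (@Lb.r r2724 (@Lb.r r134 (@Lb.r r97 (@Lb.d (nat_lit 544) (nat_lit 169) (nat_lit 385) (@Lb.fm (nat_lit 9) t3734)))))))))))
noncomputable def l18456 : Lb := (@Lb.d (nat_lit 34) (nat_lit 512) (nat_lit 128) (@Lb.g g8 (@Lb.g g11 (@Lb.r r405 (@Lb.r r2454 (@Lb.r r2411 (@Lb.r r2404 (@Lb.d (nat_lit 666) (nat_lit 169) (nat_lit 404) (@Lb.fp (nat_lit 3) t2570)))))))))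
noncomputable def l18457 : Lb := (@Lb.d (nat_lit 5) (nat_lit 512) (nat_lit 0) (@Lb.g g4 (@Lb.r r417 (@Lb.r r2466 (@Lb.r r2387 (@Lb.r r657 (@Lb.d (nat_lit 1) (nat_lit 0) (nat_lit 16) (@Lb.t (@Lb.fm (nat_lit 3) t246)))))))))
noncomputable def l18458 : Lb := (@Lb.d (nat_lit 1) (nat_lit 2) (nat_lit 130) (@Lb.g g8 (@Lb.g g9 (@Lb.g g10 (@Lb.g g11 (@Lb.r r1443 (@Lb.r r40 (@Lb.r r425 (@Lb.r r98 (@Lb.r r2084 (@Lb.d (nat_lit 409) (nat_lit 90) (nat_lit 340) (@Lb.fp (nat_lit 9) t1231))))))))))))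
noncomputable def l18459 : Lb := (@Lb.r r82 (@Lb.r r275 (@Lb.d (nat_lit 2) (nat_lit 0) (nat_lit 0) (@Lb.g g8 (@Lb.g g9 (@Lb.r r2315 (@Lb.r r2122 (@Lb.r r37 (@Lb.d (nat_lit 256) (nat_lit 2) (nat_lit 0) (@Lb.fp (nat_lit 3) t116))))))))))
noncomputable def l18460 : Lb := (@Lb.d (nat_lit 4) (nat_lit 0) (nat_lit 66) (@Lb.g g8 (@Lb.g g9 (@Lb.g g10 (@Lb.g g7 (@Lb.r r386 (@Lb.r r97 (@Lb.r r24 (@Lb.d (nat_lit 0) (nat_lit 90) (nat_lit 329) (@Lb.fp (nat_lit 9) t845))))))))))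
noncomputable def l18461 : Lb := (@Lb.d (nat_lit 2) (nat_lit 1) (nat_lit 66) (@Lb.g g8 (@Lb.g g9 (@Lb.g g10 (@Lb.g g7 (@Lb.r r593 (@Lb.r r2466 (@Lb.r r145 (@Lb.d (nat_lit 0) (nat_lit 166) (nat_lit 546) (@Lb.fp (nat_lit 9) t1487))))))))))
noncomputable def l18462 : Lb := (@Lb.r r323 (@Lb.d (nat_lit 129) (nat_lit 546) (nat_lit 0) (@Lb.g g8 (@Lb.g g9 (@Lb.g g10 (@Lb.r r599 (@Lb.r r98 (@Lb.r r408 (@Lb.r r101 (@Lb.d (nat_lit 26) (nat_lit 41) (nat_lit 146) (@Lb.t (@Lb.fp (nat_lit 9) t221))))))))))))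
noncomputable def l18463 : Lb := (@Lb.r r20 (@Lb.r r275 (@Lb.d (nat_lit 0) (nat_lit 38) (nat_lit 0) (@Lb.g g5 (@Lb.g g10 (@Lb.r r1174 (@Lb.r r2376 (@Lb.r r1543 (@Lb.d (nat_lit 584) (nat_lit 0) (nat_lit 0) (@Lb.fm (nat_lit 3) t68))))))))))
noncomputable def l18464 : Lb := (@Lb.d (nat_lit 2) (nat_lit 256) (nat_lit 66) (@Lb.g g8 (@Lb.g g10 (@Lb.g g7 (@Lb.r r386 (@Lb.d (nat_lit 0) (nat_lit 0) (nat_lit 9) (@Lb.t (@Lb.fm (nat_lit 9) t2))))))))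
noncomputable def l18465 : Lb := (@Lb.r r1284 (@Lb.d (nat_lit 64) (nat_lit 258) (nat_lit 66) (@Lb.g g9 (@Lb.g g10 (@Lb.g g7 (@Lb.r r386 (@Lb.r r97 (@Lb.d (nat_lit 258) (nat_lit 138) (nat_lit 9) (@Lb.t (@Lb.fp (nat_lit 9) t217))))))))))
noncomputable def l18466 : Lb := (@Lb.g g7 (@Lb.r r1114 (@Lb.r r289 (@Lb.r r407 (@Lb.r r1096 (@Lb.d (nat_lit 70) (nat_lit 257) (nat_lit 576) (@Lb.t (@Lb.fm (nat_lit 3) t807))))))))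
noncomputable def l18467 : Lb := (@Lb.d (nat_lit 298) (nat_lit 516) (nat_lit 32) (@Lb.r r289 (@Lb.r r1386 (@Lb.r r1096 (@Lb.r r1371 (@Lb.g g7 (@Lb.g g6 (@Lb.g g5 (@Lb.d (nat_lit 0) (nat_lit 0) (nat_lit 64) (@Lb.t (@Lb.fp (nat_lit 9) t957)))))))))))
noncomputable def l18468 : Lb := (@Lb.g g7 (@Lb.r r1114 (@Lb.r r289 (@Lb.r r407 (@Lb.r r1096 (@Lb.d (nat_lit 65) (nat_lit 512) (nat_lit 576) (@Lb.t (@Lb.fm (nat_lit 3) t807))))))))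
noncomputable def l18469 : Lb := (@Lb.d (nat_lit 32) (nat_lit 520) (nat_lit 128) (@Lb.g g10 (@Lb.g g11 (@Lb.r r1284 (@Lb.r r1643 (@Lb.r r1633 (@Lb.r r338 (@Lb.d (nat_lit 320) (nat_lit 132) (nat_lit 262) (@Lb.fm (nat_lit 3) t3737)))))))))
noncomputable def l18470 : Lb := (@Lb.r r82 (@Lb.r r275 (@Lb.g g8 (@Lb.g g9 (@Lb.r r299 (@Lb.r r106 (@Lb.r r25 (@Lb.d (nat_lit 9) (nat_lit 514) (nat_lit 0) (@Lb.fm (nat_lit 3) t5)))))))))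
noncomputable def l18471 : Lb := (@Lb.d (nat_lit 516) (nat_lit 321) (nat_lit 0) (@Lb.r r24 (@Lb.r r2138 (@Lb.r r2331 (@Lb.g g5 (@Lb.d (nat_lit 4) (nat_lit 1) (nat_lit 0) (@Lb.t (@Lb.fp (nat_lit 3) t116))))))))
noncomputable def l18472 : Lb := (@Lb.r r21 (@Lb.d (nat_lit 144) (nat_lit 0) (nat_lit 10) (@Lb.g g8 (@Lb.g g10 (@Lb.g g11 (@Lb.r r2343 (@Lb.r r2401 (@Lb.r r1170 (@Lb.r r20 (@Lb.d (nat_lit 549) (nat_lit 73) (nat_lit 32) (@Lb.t (@Lb.fm (nat_lit 9) t1028))))))))))))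
noncomputable def l18473 : Lb := (@Lb.r r86 (@Lb.d (nat_lit 134) (nat_lit 546) (nat_lit 64) (@Lb.g g8 (@Lb.g g9 (@Lb.g g11 (@Lb.r r343 (@Lb.r r2626 (@Lb.r r85 (@Lb.r r148 (@Lb.d (nat_lit 546) (nat_lit 9) (nat_lit 84) (@Lb.t (@Lb.fm (nat_lit 9) t3448))))))))))))
noncomputable def l18474 : Lb := (@Lb.d (nat_lit 0) (nat_lit 258) (nat_lit 73) (@Lb.g g8 (@Lb.g g9 (@Lb.g g10 (@Lb.g g11 (@Lb.r r2691 (@Lb.r r2665 (@Lb.r r1686 (@Lb.r r1096 (@Lb.d (nat_lit 674) (nat_lit 160) (nat_lit 89) (@Lb.fp (nat_lit 9) t476)))))))))))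
noncomputable def l18475 : Lb := (@Lb.d (nat_lit 33) (nat_lit 514) (nat_lit 130) (@Lb.g g8 (@Lb.g g9 (@Lb.g g10 (@Lb.g g11 (@Lb.r r663 (@Lb.r r342 (@Lb.r r1577 (@Lb.r r1556 (@Lb.d (nat_lit 385) (nat_lit 168) (nat_lit 89) (@Lb.fp (nat_lit 9) t3738)))))))))))
noncomputable def l18476 : Lb := (@Lb.d (nat_lit 518) (nat_lit 514) (nat_lit 0) (@Lb.r r24 (@Lb.r r2138 (@Lb.r r2331 (@Lb.g g5 (@Lb.d (nat_lit 4) (nat_lit 1) (nat_lit 0) (@Lb.t (@Lb.fp (nat_lit 3) t116))))))))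
noncomputable def l18477 : Lb := (@Lb.g g10 (@Lb.g g7 (@Lb.r r394 (@Lb.r r2375 (@Lb.r r2626 (@Lb.d (nat_lit 257) (nat_lit 256) (nat_lit 0) (@Lb.fm (nat_lit 3) t3062)))))))
noncomputable def l18478 : Lb := (@Lb.r r260 (@Lb.r r273 (@Lb.r r322 (@Lb.g g11 (@Lb.r r2708 (@Lb.r r89 (@Lb.r r2662 (@Lb.d (nat_lit 0) (nat_lit 645) (nat_lit 16) (@Lb.t (@Lb.fp (nat_lit 3) t3739))))))))))
noncomputable def l18479 : Lb := (@Lb.r r21 (@Lb.d (nat_lit 2) (nat_lit 512) (nat_lit 162) (@Lb.g g8 (@Lb.g g6 (@Lb.g g11 (@Lb.r r2635 (@Lb.r r2665 (@Lb.r r2632 (@Lb.d (nat_lit 260) (nat_lit 88) (nat_lit 40) (@Lb.t (@Lb.fm (nat_lit 9) t2031)))))))))))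
noncomputable def l18480 : Lb := (@Lb.d (nat_lit 37) (nat_lit 133) (nat_lit 1) (@Lb.r r81 (@Lb.r r102 (@Lb.r r1287 (@Lb.g g5 (@Lb.g g4 (@Lb.r r291 (@Lb.r r98 (@Lb.fm (nat_lit 3) t3740)))))))))
noncomputable def l18481 : Lb := (@Lb.d (nat_lit 2) (nat_lit 514) (nat_lit 128) (@Lb.g g8 (@Lb.g g9 (@Lb.g g10 (@Lb.g g11 (@Lb.r r2730 (@Lb.r r424 (@Lb.r r279 (@Lb.r r1573 (@Lb.r r1044 (@Lb.d (nat_lit 137) (nat_lit 137) (nat_lit 329) (@Lb.fm (nat_lit 9) t1406))))))))))))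
noncomputable def l18482 : Lb := (@Lb.d (nat_lit 9) (nat_lit 2) (nat_lit 2) (@Lb.g g8 (@Lb.g g9 (@Lb.g g10 (@Lb.g g11 (@Lb.r r682 (@Lb.r r676 (@Lb.r r551 (@Lb.r r1557 (@Lb.r r36 (@Lb.d (nat_lit 388) (nat_lit 1) (nat_lit 586) (@Lb.fp (nat_lit 9) t284))))))))))))
noncomputable def l18483 : Lb := (@Lb.d (nat_lit 1) (nat_lit 514) (nat_lit 2) (@Lb.g g8 (@Lb.g g9 (@Lb.g g10 (@Lb.g g11 (@Lb.r r2411 (@Lb.r r386 (@Lb.r r97 (@Lb.r r24 (@Lb.d (nat_lit 266) (nat_lit 9) (nat_lit 86) (@Lb.fm (nat_lit 9) t61)))))))))))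
noncomputable def l18484 : Lb := (@Lb.r r322 (@Lb.d (nat_lit 2) (nat_lit 544) (nat_lit 72) (@Lb.g g8 (@Lb.g g9 (@Lb.g g7 (@Lb.r r2390 (@Lb.r r2457 (@Lb.d (nat_lit 409) (nat_lit 104) (nat_lit 10) (@Lb.t (@Lb.fp (nat_lit 9) t233))))))))))
noncomputable def l18485 : Lb := (@Lb.r r2180 (@Lb.r r582 (@Lb.r r331 (@Lb.r r260 (@Lb.g g8 (@Lb.r r2073 (@Lb.t (@Lb.fp (nat_lit 3) t74))))))))
noncomputable def l18486 : Lb := (@Lb.r r322 (@Lb.d (nat_lit 4) (nat_lit 289) (nat_lit 72) (@Lb.g g8 (@Lb.g g9 (@Lb.g g7 (@Lb.r r2390 (@Lb.r r2457 (@Lb.d (nat_lit 409) (nat_lit 104) (nat_lit 10) (@Lb.t (@Lb.fp (nat_lit 9) t233))))))))))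
noncomputable def l18487 : Lb := (@Lb.d (nat_lit 138) (nat_lit 417) (nat_lit 320) (@Lb.r r1576 (@Lb.r r2475 (@Lb.r r1366 (@Lb.g g5 (@Lb.g g4 (@Lb.d (nat_lit 41) (nat_lit 128) (nat_lit 0) (@Lb.fp (nat_lit 3) t74))))))))
noncomputable def l18488 : Lb := (@Lb.r r82 (@Lb.d (nat_lit 0) (nat_lit 2) (nat_lit 128) (@Lb.g g9 (@Lb.g g11 (@Lb.r r1571 (@Lb.r r1098 (@Lb.r r661 (@Lb.r r1124 (@Lb.d (nat_lit 514) (nat_lit 34) (nat_lit 133) (@Lb.fp (nat_lit 3) t3741))))))))))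
noncomputable def l18489 : Lb := (@Lb.d (nat_lit 289) (nat_lit 266) (nat_lit 33) (@Lb.r r24 (@Lb.r r2197 (@Lb.r r386 (@Lb.r r2403 (@Lb.g g7 (@Lb.g g5 (@Lb.d (nat_lit 0) (nat_lit 34) (nat_lit 0) (@Lb.r r98 (@Lb.fm (nat_lit 3) t1825))))))))))
noncomputable def l18490 : Lb := (@Lb.d (nat_lit 0) (nat_lit 393) (nat_lit 0) (@Lb.r r24 (@Lb.r r386 (@Lb.r r1619 (@Lb.g g9 (@Lb.d (nat_lit 8) (nat_lit 1) (nat_lit 0) (@Lb.r r291 (@Lb.r r98 (@Lb.t (@Lb.fm (nat_lit 3) t1826))))))))))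
noncomputable def l18491 : Lb := (@Lb.r r21 (@Lb.d (nat_lit 34) (nat_lit 520) (nat_lit 161) (@Lb.g g8 (@Lb.g g6 (@Lb.g g11 (@Lb.r r2651 (@Lb.r r145 (@Lb.r r2584 (@Lb.d (nat_lit 85) (nat_lit 168) (nat_lit 417) (@Lb.t (@Lb.fp (nat_lit 9) t3607)))))))))))
noncomputable def l18492 : Lb := (@Lb.d (nat_lit 0) (nat_lit 9) (nat_lit 161) (@Lb.g g8 (@Lb.g g9 (@Lb.g g6 (@Lb.g g11 (@Lb.r r2667 (@Lb.r r97 (@Lb.r r2584 (@Lb.d (nat_lit 585) (nat_lit 169) (nat_lit 384) (@Lb.fp (nat_lit 9) t1095))))))))))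
noncomputable def l18493 : Lb := (@Lb.d (nat_lit 6) (nat_lit 10) (nat_lit 129) (@Lb.g g8 (@Lb.g g9 (@Lb.g g10 (@Lb.g g11 (@Lb.r r1443 (@Lb.r r168 (@Lb.r r2473 (@Lb.r r2154 (@Lb.r r1060 (@Lb.d (nat_lit 545) (nat_lit 33) (nat_lit 601) (@Lb.fp (nat_lit 9) t1379))))))))))))
noncomputable def l18494 : Lb := (@Lb.d (nat_lit 546) (nat_lit 256) (nat_lit 0) (@Lb.g g8 (@Lb.r r609 (@Lb.r r2659 (@Lb.r r338 (@Lb.r r2705 (@Lb.d (nat_lit 9) (nat_lit 130) (nat_lit 0) (@Lb.t (@Lb.fp (nat_lit 3) t1222)))))))))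
noncomputable def l18495 : Lb := (@Lb.d (nat_lit 130) (nat_lit 546) (nat_lit 0) (@Lb.g g8 (@Lb.g g9 (@Lb.r r2695 (@Lb.r r2178 (@Lb.r r408 (@Lb.r r149 (@Lb.d (nat_lit 260) (nat_lit 17) (nat_lit 86) (@Lb.fp (nat_lit 3) t180)))))))))
noncomputable def l18496 : Lb := (@Lb.r r609 (@Lb.r r2659 (@Lb.r r338 (@Lb.r r2705 (@Lb.r r24 (@Lb.d (nat_lit 1) (nat_lit 640) (nat_lit 0) (@Lb.fm (nat_lit 1) t1495)))))))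
noncomputable def l18497 : Lb := (@Lb.d (nat_lit 8) (nat_lit 290) (nat_lit 0) (@Lb.g g9 (@Lb.r r536 (@Lb.r r283 (@Lb.r r2178 (@Lb.r r661 (@Lb.d (nat_lit 388) (nat_lit 42) (nat_lit 24) (@Lb.t (@Lb.fp (nat_lit 3) t287)))))))))
noncomputable def l18498 : Lb := (@Lb.d (nat_lit 128) (nat_lit 514) (nat_lit 128) (@Lb.g g9 (@Lb.g g11 (@Lb.r r533 (@Lb.r r292 (@Lb.r r539 (@Lb.r r2178 (@Lb.d (nat_lit 322) (nat_lit 98) (nat_lit 20) (@Lb.fm (nat_lit 3) t3742)))))))))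
noncomputable def l18499 : Lb := (@Lb.d (nat_lit 2) (nat_lit 258) (nat_lit 128) (@Lb.g g8 (@Lb.g g9 (@Lb.g g11 (@Lb.r r2312 (@Lb.r r2375 (@Lb.r r2666 (@Lb.r r97 (@Lb.d (nat_lit 656) (nat_lit 21) (nat_lit 342) (@Lb.t (@Lb.fm (nat_lit 9) t3743)))))))))))
noncomputable def l18500 : Lb := (@Lb.r r323 (@Lb.d (nat_lit 130) (nat_lit 514) (nat_lit 18) (@Lb.g g8 (@Lb.g g9 (@Lb.g g10 (@Lb.r r1623 (@Lb.r r2345 (@Lb.r r2340 (@Lb.d (nat_lit 585) (nat_lit 105) (nat_lit 657) (@Lb.t (@Lb.fm (nat_lit 9) t386)))))))))))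
noncomputable def l18501 : Lb := (@Lb.r r323 (@Lb.d (nat_lit 2) (nat_lit 2) (nat_lit 2) (@Lb.g g8 (@Lb.g g9 (@Lb.g g10 (@Lb.r r401 (@Lb.r r299 (@Lb.r r420 (@Lb.r r102 (@Lb.d (nat_lit 21) (nat_lit 68) (nat_lit 152) (@Lb.t (@Lb.fm (nat_lit 9) t1022))))))))))))
noncomputable def l18502 : Lb := (@Lb.r r82 (@Lb.r r275 (@Lb.d (nat_lit 34) (nat_lit 26) (nat_lit 0) (@Lb.g g8 (@Lb.g g9 (@Lb.r r427 (@Lb.r r582 (@Lb.r r408 (@Lb.d (nat_lit 138) (nat_lit 25) (nat_lit 153) (@Lb.fp (nat_lit 3) t699))))))))))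
noncomputable def l18503 : Lb := (@Lb.d (nat_lit 394) (nat_lit 353) (nat_lit 280) (@Lb.r r1572 (@Lb.r r677 (@Lb.r r615 (@Lb.g g6 (@Lb.g g4 (@Lb.d (nat_lit 69) (nat_lit 0) (nat_lit 34) (@Lb.fm (nat_lit 3) t1038))))))))
noncomputable def l18504 : Lb := (@Lb.d (nat_lit 32) (nat_lit 256) (nat_lit 73) (@Lb.g g10 (@Lb.g g11 (@Lb.r r423 (@Lb.r r596 (@Lb.r r1433 (@Lb.r r410 (@Lb.d (nat_lit 154) (nat_lit 26) (nat_lit 537) (@Lb.fp (nat_lit 3) t188)))))))))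
noncomputable def l18505 : Lb := (@Lb.r r82 (@Lb.d (nat_lit 2) (nat_lit 546) (nat_lit 64) (@Lb.g g8 (@Lb.g g9 (@Lb.g g11 (@Lb.r r547 (@Lb.r r386 (@Lb.r r40 (@Lb.r r153 (@Lb.d (nat_lit 66) (nat_lit 40) (nat_lit 133) (@Lb.t (@Lb.fp (nat_lit 9) t3744))))))))))))
noncomputable def l18506 : Lb := (@Lb.d (nat_lit 17) (nat_lit 512) (nat_lit 64) (@Lb.r r21 (@Lb.r r104 (@Lb.r r515 (@Lb.g g10 (@Lb.g g5 (@Lb.g g4 (@Lb.d (nat_lit 9) (nat_lit 0) (nat_lit 6) (@Lb.t (@Lb.fm (nat_lit 9) t69))))))))))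
noncomputable def l18507 : Lb := (@Lb.d (nat_lit 0) (nat_lit 513) (nat_lit 128) (@Lb.g g8 (@Lb.g g9 (@Lb.g g10 (@Lb.g g11 (@Lb.r r2443 (@Lb.r r340 (@Lb.r r170 (@Lb.r r1193 (@Lb.r r164 (@Lb.d (nat_lit 257) (nat_lit 137) (nat_lit 18) (@Lb.fp (nat_lit 9) t386))))))))))))
noncomputable def l18508 : Lb := (@Lb.g g5 (@Lb.d (nat_lit 0) (nat_lit 646) (nat_lit 1) (@Lb.t (@Lb.fm (nat_lit 3) t45))))
noncomputable def l18509 : Lb := (@Lb.d (nat_lit 138) (nat_lit 256) (nat_lit 0) (@Lb.g g8 (@Lb.g g9 (@Lb.r r279 (@Lb.r r610 (@Lb.r r1561 (@Lb.r r2196 (@Lb.d (nat_lit 133) (nat_lit 138) (nat_lit 680) (@Lb.fm (nat_lit 3) t282)))))))))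
noncomputable def l18510 : Lb := (@Lb.d (nat_lit 5) (nat_lit 256) (nat_lit 73) (@Lb.g g8 (@Lb.g g9 (@Lb.g g10 (@Lb.g g11 (@Lb.r r427 (@Lb.r r1634 (@Lb.r r292 (@Lb.r r2069 (@Lb.r r1060 (@Lb.d (nat_lit 609) (nat_lit 149) (nat_lit 324) (@Lb.fp (nat_lit 9) t3745))))))))))))
noncomputable def l18511 : Lb := (@Lb.d (nat_lit 354) (nat_lit 256) (nat_lit 341) (@Lb.r r402 (@Lb.r r101 (@Lb.g g8 (@Lb.d (nat_lit 9) (nat_lit 0) (nat_lit 0) (@Lb.t (@Lb.fp (nat_lit 3) t3550)))))))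
noncomputable def l18512 : Lb := (@Lb.d (nat_lit 530) (nat_lit 0) (nat_lit 262) (@Lb.r r24 (@Lb.r r101 (@Lb.r r386 (@Lb.r r339 (@Lb.g g7 (@Lb.g g6 (@Lb.d (nat_lit 0) (nat_lit 0) (nat_lit 65) (@Lb.fp (nat_lit 3) t1399)))))))))
noncomputable def l18513 : Lb := (@Lb.d (nat_lit 257) (nat_lit 512) (nat_lit 410) (@Lb.r r402 (@Lb.r r101 (@Lb.g g8 (@Lb.d (nat_lit 2) (nat_lit 0) (nat_lit 0) (@Lb.t (@Lb.fp (nat_lit 3) t3746)))))))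
noncomputable def l18514 : Lb := (@Lb.d (nat_lit 26) (nat_lit 521) (nat_lit 129) (@Lb.g g8 (@Lb.g g9 (@Lb.g g10 (@Lb.g g11 (@Lb.r r70 (@Lb.r r424 (@Lb.r r1303 (@Lb.r r549 (@Lb.r r1044 (@Lb.d (nat_lit 649) (nat_lit 2) (nat_lit 682) (@Lb.fp (nat_lit 9) t1919))))))))))))
noncomputable def l18515 : Lb := (@Lb.d (nat_lit 1) (nat_lit 322) (nat_lit 130) (@Lb.g g4 (@Lb.g g9 (@Lb.g g10 (@Lb.g g11 (@Lb.r r419 (@Lb.r r98 (@Lb.d (nat_lit 1) (nat_lit 128) (nat_lit 169) (@Lb.fm (nat_lit 9) t295)))))))))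
noncomputable def l18516 : Lb := (@Lb.d (nat_lit 274) (nat_lit 657) (nat_lit 257) (@Lb.r r81 (@Lb.r r2466 (@Lb.g g11 (@Lb.g g6 (@Lb.g g5 (@Lb.g g4 (@Lb.d (nat_lit 1) (nat_lit 8) (nat_lit 128) (@Lb.fp (nat_lit 9) t1715)))))))))
noncomputable def l18517 : Lb := (@Lb.d (nat_lit 128) (nat_lit 393) (nat_lit 130) (@Lb.g g5 (@Lb.g g10 (@Lb.g g11 (@Lb.r r264 (@Lb.r r1351 (@Lb.r r2658 (@Lb.d (nat_lit 26) (nat_lit 136) (nat_lit 18) (@Lb.t (@Lb.fm (nat_lit 9) t1027))))))))))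
noncomputable def l18518 : Lb := (@Lb.d (nat_lit 37) (nat_lit 260) (nat_lit 128) (@Lb.g g8 (@Lb.g g9 (@Lb.g g10 (@Lb.g g11 (@Lb.r r70 (@Lb.r r424 (@Lb.r r2583 (@Lb.r r2341 (@Lb.r r1044 (@Lb.d (nat_lit 329) (nat_lit 2) (nat_lit 342) (@Lb.fm (nat_lit 9) t1919))))))))))))
noncomputable def l18519 : Lb := (@Lb.r r21 (@Lb.d (nat_lit 34) (nat_lit 512) (nat_lit 72) (@Lb.g g8 (@Lb.g g10 (@Lb.g g11 (@Lb.r r651 (@Lb.r r1556 (@Lb.r r153 (@Lb.r r602 (@Lb.d (nat_lit 393) (nat_lit 101) (nat_lit 406) (@Lb.t (@Lb.fp (nat_lit 9) t428))))))))))))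
noncomputable def l18520 : Lb := (@Lb.d (nat_lit 0) (nat_lit 256) (nat_lit 72) (@Lb.g g4 (@Lb.g g11 (@Lb.d (nat_lit 1) (nat_lit 0) (nat_lit 2) (@Lb.fp (nat_lit 3) t2)))))
noncomputable def l18521 : Lb := (@Lb.d (nat_lit 9) (nat_lit 265) (nat_lit 72) (@Lb.g g8 (@Lb.g g9 (@Lb.g g10 (@Lb.g g11 (@Lb.r r682 (@Lb.r r676 (@Lb.r r551 (@Lb.r r1557 (@Lb.r r36 (@Lb.d (nat_lit 394) (nat_lit 65) (nat_lit 586) (@Lb.fp (nat_lit 9) t577))))))))))))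
noncomputable def l18522 : Lb := (@Lb.d (nat_lit 394) (nat_lit 289) (nat_lit 384) (@Lb.r r1561 (@Lb.r r1684 (@Lb.r r1686 (@Lb.r r1443 (@Lb.g g7 (@Lb.g g6 (@Lb.g g5 (@Lb.d (nat_lit 0) (nat_lit 34) (nat_lit 65) (@Lb.t (@Lb.fm (nat_lit 9) t1976)))))))))))
noncomputable def l18523 : Lb := (@Lb.d (nat_lit 2) (nat_lit 514) (nat_lit 130) (@Lb.g g8 (@Lb.g g9 (@Lb.g g10 (@Lb.g g11 (@Lb.r r1299 (@Lb.r r2705 (@Lb.r r356 (@Lb.r r154 (@Lb.r r132 (@Lb.d (nat_lit 128) (nat_lit 2) (nat_lit 330) (@Lb.fm (nat_lit 9) t284))))))))))))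
noncomputable def l18524 : Lb := (@Lb.d (nat_lit 2) (nat_lit 426) (nat_lit 580) (@Lb.r r1426 (@Lb.r r1637 (@Lb.r r1304 (@Lb.r r2371 (@Lb.g g7 (@Lb.g g6 (@Lb.g g5 (@Lb.d (nat_lit 16) (nat_lit 0) (nat_lit 129) (@Lb.t (@Lb.fm (nat_lit 9) t1549)))))))))))
noncomputable def l18525 : Lb := (@Lb.d (nat_lit 0) (nat_lit 256) (nat_lit 9) (@Lb.g g10 (@Lb.g g11 (@Lb.r r2691 (@Lb.r r2658 (@Lb.d (nat_lit 0) (nat_lit 97) (nat_lit 424) (@Lb.fp (nat_lit 3) t71)))))))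
noncomputable def l18526 : Lb := (@Lb.d (nat_lit 0) (nat_lit 512) (nat_lit 4) (@Lb.g g10 (@Lb.g g11 (@Lb.r r2691 (@Lb.r r2706 (@Lb.d (nat_lit 0) (nat_lit 136) (nat_lit 406) (@Lb.fm (nat_lit 3) t71)))))))
noncomputable def l18527 : Lb := (@Lb.d (nat_lit 0) (nat_lit 24) (nat_lit 170) (@Lb.r r402 (@Lb.g g5 (@Lb.t (@Lb.fp (nat_lit 3) t1400)))))
noncomputable def l18528 : Lb := (@Lb.d (nat_lit 130) (nat_lit 514) (nat_lit 9) (@Lb.g g8 (@Lb.g g9 (@Lb.g g10 (@Lb.r r2595 (@Lb.r r2705 (@Lb.r r598 (@Lb.r r392 (@Lb.d (nat_lit 81) (nat_lit 2) (nat_lit 330) (@Lb.t (@Lb.fm (nat_lit 9) t284)))))))))))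
noncomputable def l18529 : Lb := (@Lb.d (nat_lit 160) (nat_lit 264) (nat_lit 130) (@Lb.g g10 (@Lb.g g11 (@Lb.r r2712 (@Lb.r r2645 (@Lb.r r599 (@Lb.r r1370 (@Lb.d (nat_lit 298) (nat_lit 17) (nat_lit 37) (@Lb.fm (nat_lit 3) t716)))))))))
noncomputable def l18530 : Lb := (@Lb.r r82 (@Lb.r r275 (@Lb.d (nat_lit 9) (nat_lit 514) (nat_lit 0) (@Lb.g g8 (@Lb.g g9 (@Lb.r r2201 (@Lb.r r402 (@Lb.r r2375 (@Lb.r r1544 (@Lb.d (nat_lit 128) (nat_lit 0) (nat_lit 256) (@Lb.fm (nat_lit 3) t3747)))))))))))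
noncomputable def l18531 : Lb := (@Lb.d (nat_lit 0) (nat_lit 546) (nat_lit 0) (@Lb.g g5 (@Lb.r r675 (@Lb.r r134 (@Lb.r r612 (@Lb.r r533 (@Lb.d (nat_lit 74) (nat_lit 98) (nat_lit 64) (@Lb.t (@Lb.fm (nat_lit 3) t119)))))))))
noncomputable def l18532 : Lb := (@Lb.r r1346 (@Lb.d (nat_lit 0) (nat_lit 512) (nat_lit 648) (@Lb.g g11 (@Lb.d (nat_lit 0) (nat_lit 0) (nat_lit 160) (@Lb.t (@Lb.fp (nat_lit 3) t2))))))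
noncomputable def l18533 : Lb := (@Lb.d (nat_lit 32) (nat_lit 256) (nat_lit 2) (@Lb.g g10 (@Lb.r r1543 (@Lb.r r1304 (@Lb.r r1637 (@Lb.r r1426 (@Lb.d (nat_lit 0) (nat_lit 18) (nat_lit 394) (@Lb.t (@Lb.fp (nat_lit 3) t307)))))))))
noncomputable def l18534 : Lb := (@Lb.g g6 (@Lb.r r2626 (@Lb.d (nat_lit 0) (nat_lit 256) (nat_lit 256) (@Lb.t (@Lb.fm (nat_lit 3) t2)))))
noncomputable def l18535 : Lb := (@Lb.d (nat_lit 0) (nat_lit 2) (nat_lit 128) (@Lb.g g9 (@Lb.g g10 (@Lb.g g11 (@Lb.r r529 (@Lb.r r663 (@Lb.r r328 (@Lb.r r134 (@Lb.d (nat_lit 9) (nat_lit 4) (nat_lit 0) (@Lb.t (@Lb.fp (nat_lit 9) t61)))))))))))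
noncomputable def l18536 : Lb := (@Lb.d (nat_lit 8) (nat_lit 258) (nat_lit 64) (@Lb.g g9 (@Lb.g g10 (@Lb.g g11 (@Lb.r r1315 (@Lb.r r24 (@Lb.r r1381 (@Lb.r r2194 (@Lb.d (nat_lit 337) (nat_lit 0) (nat_lit 168) (@Lb.t (@Lb.fp (nat_lit 9) t61)))))))))))
noncomputable def l18537 : Lb := (@Lb.r r82 (@Lb.d (nat_lit 0) (nat_lit 0) (nat_lit 128) (@Lb.g g9 (@Lb.g g11 (@Lb.r r1634 (@Lb.r r1553 (@Lb.d (nat_lit 0) (nat_lit 0) (nat_lit 512) (@Lb.fm (nat_lit 3) t225))))))))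
noncomputable def l18538 : Lb := (@Lb.d (nat_lit 529) (nat_lit 5) (nat_lit 72) (@Lb.r r2182 (@Lb.r r1108 (@Lb.r r1305 (@Lb.g g7 (@Lb.g g6 (@Lb.g g4 (@Lb.d (nat_lit 1) (nat_lit 32) (nat_lit 577) (@Lb.r r401 (@Lb.t (@Lb.fm (nat_lit 9) t3748)))))))))))
noncomputable def l18539 : Lb := (@Lb.d (nat_lit 664) (nat_lit 41) (nat_lit 166) (@Lb.r r680 (@Lb.r r89 (@Lb.r r1426 (@Lb.g g7 (@Lb.g g4 (@Lb.d (nat_lit 5) (nat_lit 32) (nat_lit 580) (@Lb.r r273 (@Lb.fm (nat_lit 3) t3748)))))))))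
noncomputable def l18540 : Lb := (@Lb.d (nat_lit 326) (nat_lit 549) (nat_lit 102) (@Lb.r r410 (@Lb.r r148 (@Lb.r r1365 (@Lb.r r1707 (@Lb.g g7 (@Lb.g g6 (@Lb.g g5 (@Lb.d (nat_lit 16) (nat_lit 0) (nat_lit 1) (@Lb.t (@Lb.fp (nat_lit 9) t119)))))))))))
noncomputable def l18541 : Lb := (@Lb.r r323 (@Lb.d (nat_lit 40) (nat_lit 290) (nat_lit 2) (@Lb.g g9 (@Lb.g g10 (@Lb.r r283 (@Lb.r r280 (@Lb.r r613 (@Lb.d (nat_lit 154) (nat_lit 8) (nat_lit 130) (@Lb.fm (nat_lit 3) t354)))))))))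
noncomputable def l18542 : Lb := (@Lb.d (nat_lit 390) (nat_lit 662) (nat_lit 610) (@Lb.r r2325 (@Lb.r r2390 (@Lb.r r683 (@Lb.g g7 (@Lb.g g6 (@Lb.g g5 (@Lb.g g4 (@Lb.d (nat_lit 8) (nat_lit 17) (nat_lit 8) (@Lb.fm (nat_lit 9) t309))))))))))
noncomputable def l18543 : Lb := (@Lb.d (nat_lit 1) (nat_lit 512) (nat_lit 128) (@Lb.g g8 (@Lb.g g10 (@Lb.g g11 (@Lb.r r353 (@Lb.r r658 (@Lb.r r1415 (@Lb.r r2628 (@Lb.d (nat_lit 417) (nat_lit 0) (nat_lit 426) (@Lb.t (@Lb.fm (nat_lit 9) t1069)))))))))))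
noncomputable def l18544 : Lb := (@Lb.d (nat_lit 134) (nat_lit 22) (nat_lit 354) (@Lb.r r277 (@Lb.r r342 (@Lb.r r2731 (@Lb.g g7 (@Lb.g g6 (@Lb.g g5 (@Lb.g g4 (@Lb.d (nat_lit 1) (nat_lit 17) (nat_lit 8) (@Lb.fm (nat_lit 9) t309))))))))))
noncomputable def l18545 : Lb := (@Lb.d (nat_lit 10) (nat_lit 577) (nat_lit 130) (@Lb.g g4 (@Lb.g g9 (@Lb.g g10 (@Lb.g g11 (@Lb.r r419 (@Lb.r r98 (@Lb.d (nat_lit 0) (nat_lit 72) (nat_lit 137) (@Lb.fm (nat_lit 9) t51)))))))))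
noncomputable def l18546 : Lb := (@Lb.d (nat_lit 34) (nat_lit 258) (nat_lit 0) (@Lb.g g8 (@Lb.g g9 (@Lb.r r515 (@Lb.r r361 (@Lb.r r150 (@Lb.r r612 (@Lb.d (nat_lit 154) (nat_lit 137) (nat_lit 261) (@Lb.fp (nat_lit 3) t242)))))))))
noncomputable def l18547 : Lb := (@Lb.d (nat_lit 530) (nat_lit 522) (nat_lit 16) (@Lb.r r1158 (@Lb.r r2136 (@Lb.r r2341 (@Lb.r r2707 (@Lb.g g7 (@Lb.g g6 (@Lb.d (nat_lit 0) (nat_lit 0) (nat_lit 64) (@Lb.fm (nat_lit 3) t1524)))))))))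
noncomputable def l18548 : Lb := (@Lb.d (nat_lit 530) (nat_lit 266) (nat_lit 16) (@Lb.r r1158 (@Lb.r r2136 (@Lb.r r2341 (@Lb.r r2707 (@Lb.g g7 (@Lb.g g6 (@Lb.d (nat_lit 0) (nat_lit 0) (nat_lit 133) (@Lb.fm (nat_lit 3) t1524)))))))))
noncomputable def l18549 : Lb := (@Lb.d (nat_lit 529) (nat_lit 10) (nat_lit 16) (@Lb.r r1158 (@Lb.r r2136 (@Lb.r r2341 (@Lb.r r2707 (@Lb.g g7 (@Lb.g g6 (@Lb.d (nat_lit 0) (nat_lit 0) (nat_lit 64) (@Lb.fm (nat_lit 3) t1524)))))))))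
noncomputable def l18550 : Lb := (@Lb.d (nat_lit 0) (nat_lit 520) (nat_lit 2) (@Lb.g g6 (@Lb.r r1185 (@Lb.r r2210 (@Lb.d (nat_lit 0) (nat_lit 5) (nat_lit 32) (@Lb.t (@Lb.fm (nat_lit 3) t300)))))))
noncomputable def l18551 : Lb := (@Lb.d (nat_lit 0) (nat_lit 8) (nat_lit 2) (@Lb.g g10 (@Lb.r r1427 (@Lb.d (nat_lit 0) (nat_lit 21) (nat_lit 296) (@Lb.t (@Lb.fp (nat_lit 3) t334))))))
noncomputable def l18552 : Lb := (@Lb.d (nat_lit 530) (nat_lit 266) (nat_lit 16) (@Lb.r r1158 (@Lb.r r2136 (@Lb.r r2341 (@Lb.r r2707 (@Lb.g g6 (@Lb.t (@Lb.fm (nat_lit 3) t2766))))))))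
noncomputable def l18553 : Lb := (@Lb.d (nat_lit 0) (nat_lit 2) (nat_lit 88) (@Lb.g g9 (@Lb.g g6 (@Lb.g g11 (@Lb.r r2657 (@Lb.d (nat_lit 5) (nat_lit 90) (nat_lit 128) (@Lb.t (@Lb.fm (nat_lit 9) t3749))))))))
noncomputable def l18554 : Lb := (@Lb.d (nat_lit 1) (nat_lit 522) (nat_lit 80) (@Lb.r r1158 (@Lb.r r2136 (@Lb.r r2341 (@Lb.g g7 (@Lb.g g6 (@Lb.d (nat_lit 0) (nat_lit 16) (nat_lit 640) (@Lb.fp (nat_lit 3) t2796))))))))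
noncomputable def l18555 : Lb := (@Lb.d (nat_lit 136) (nat_lit 9) (nat_lit 129) (@Lb.g g9 (@Lb.g g10 (@Lb.g g11 (@Lb.r r166 (@Lb.r r264 (@Lb.r r599 (@Lb.r r409 (@Lb.d (nat_lit 137) (nat_lit 25) (nat_lit 73) (@Lb.t (@Lb.fp (nat_lit 9) t2789)))))))))))
noncomputable def l18556 : Lb := (@Lb.g g5 (@Lb.r r579 (@Lb.d (nat_lit 0) (nat_lit 512) (nat_lit 85) (@Lb.t (@Lb.fp (nat_lit 3) t2)))))
noncomputable def l18557 : Lb := (@Lb.d (nat_lit 16) (nat_lit 8) (nat_lit 129) (@Lb.g g6 (@Lb.g g11 (@Lb.r r584 (@Lb.r r299 (@Lb.r r289 (@Lb.d (nat_lit 328) (nat_lit 97) (nat_lit 641) (@Lb.fp (nat_lit 3) t668))))))))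
noncomputable def l18558 : Lb := (@Lb.d (nat_lit 136) (nat_lit 521) (nat_lit 129) (@Lb.g g9 (@Lb.g g10 (@Lb.g g11 (@Lb.r r166 (@Lb.r r264 (@Lb.r r599 (@Lb.r r409 (@Lb.d (nat_lit 137) (nat_lit 18) (nat_lit 74) (@Lb.t (@Lb.fp (nat_lit 9) t3216)))))))))))
noncomputable def l18559 : Lb := (@Lb.d (nat_lit 16) (nat_lit 264) (nat_lit 136) (@Lb.g g6 (@Lb.g g11 (@Lb.r r1624 (@Lb.r r1291 (@Lb.r r289 (@Lb.d (nat_lit 10) (nat_lit 130) (nat_lit 641) (@Lb.fp (nat_lit 3) t1412))))))))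
noncomputable def l18560 : Lb := (@Lb.r r82 (@Lb.d (nat_lit 8) (nat_lit 546) (nat_lit 64) (@Lb.g g9 (@Lb.g g11 (@Lb.r r551 (@Lb.r r386 (@Lb.r r88 (@Lb.r r85 (@Lb.d (nat_lit 385) (nat_lit 10) (nat_lit 42) (@Lb.fp (nat_lit 3) t2603))))))))))
noncomputable def l18561 : Lb := (@Lb.d (nat_lit 8) (nat_lit 514) (nat_lit 0) (@Lb.g g5 (@Lb.g g7 (@Lb.r r164 (@Lb.r r598 (@Lb.r r673 (@Lb.d (nat_lit 5) (nat_lit 138) (nat_lit 265) (@Lb.fp (nat_lit 3) t259))))))))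
noncomputable def l18562 : Lb := (@Lb.d (nat_lit 130) (nat_lit 290) (nat_lit 0) (@Lb.g g8 (@Lb.g g9 (@Lb.r r2707 (@Lb.r r2178 (@Lb.r r341 (@Lb.r r104 (@Lb.d (nat_lit 676) (nat_lit 10) (nat_lit 361) (@Lb.fp (nat_lit 3) t88)))))))))
noncomputable def l18563 : Lb := (@Lb.r r82 (@Lb.d (nat_lit 34) (nat_lit 546) (nat_lit 64) (@Lb.g g8 (@Lb.g g9 (@Lb.g g11 (@Lb.r r674 (@Lb.r r553 (@Lb.r r616 (@Lb.r r587 (@Lb.d (nat_lit 402) (nat_lit 34) (nat_lit 169) (@Lb.t (@Lb.fm (nat_lit 9) t3750))))))))))))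
noncomputable def l18564 : Lb := (@Lb.d (nat_lit 2) (nat_lit 32) (nat_lit 0) (@Lb.g g8 (@Lb.g g9 (@Lb.r r1162 (@Lb.r r1444 (@Lb.r r2331 (@Lb.r r549 (@Lb.d (nat_lit 520) (nat_lit 129) (nat_lit 74) (@Lb.fm (nat_lit 3) t2604)))))))))
noncomputable def l18565 : Lb := (@Lb.d (nat_lit 518) (nat_lit 641) (nat_lit 32) (@Lb.r r1637 (@Lb.r r2328 (@Lb.r r386 (@Lb.r r1575 (@Lb.g g7 (@Lb.g g5 (@Lb.r r98 (@Lb.fm (nat_lit 3) t2144)))))))))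
noncomputable def l18566 : Lb := (@Lb.r r82 (@Lb.d (nat_lit 166) (nat_lit 610) (nat_lit 64) (@Lb.g g8 (@Lb.g g9 (@Lb.g g11 (@Lb.r r2339 (@Lb.r r1414 (@Lb.r r2628 (@Lb.d (nat_lit 658) (nat_lit 96) (nat_lit 426) (@Lb.t (@Lb.fp (nat_lit 9) t3751)))))))))))
noncomputable def l18567 : Lb := (@Lb.d (nat_lit 146) (nat_lit 70) (nat_lit 641) (@Lb.r r105 (@Lb.r r36 (@Lb.r r426 (@Lb.g g11 (@Lb.g g6 (@Lb.g g5 (@Lb.d (nat_lit 4) (nat_lit 1) (nat_lit 0) (@Lb.t (@Lb.fm (nat_lit 9) t523))))))))))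
noncomputable def l18568 : Lb := (@Lb.d (nat_lit 9) (nat_lit 258) (nat_lit 130) (@Lb.g g8 (@Lb.g g9 (@Lb.g g10 (@Lb.g g11 (@Lb.r r2691 (@Lb.r r2345 (@Lb.r r360 (@Lb.r r582 (@Lb.r r2180 (@Lb.d (nat_lit 644) (nat_lit 8) (nat_lit 89) (@Lb.fm (nat_lit 9) t1425))))))))))))
noncomputable def l18569 : Lb := (@Lb.d (nat_lit 154) (nat_lit 69) (nat_lit 641) (@Lb.r r105 (@Lb.r r36 (@Lb.r r426 (@Lb.g g11 (@Lb.g g5 (@Lb.d (nat_lit 4) (nat_lit 1) (nat_lit 0) (@Lb.fp (nat_lit 3) t3752))))))))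
noncomputable def l18570 : Lb := (@Lb.d (nat_lit 5) (nat_lit 385) (nat_lit 34) (@Lb.r r609 (@Lb.r r619 (@Lb.r r584 (@Lb.g g7 (@Lb.g g10 (@Lb.d (nat_lit 32) (nat_lit 0) (nat_lit 129) (@Lb.fm (nat_lit 3) t42))))))))
noncomputable def l18571 : Lb := (@Lb.d (nat_lit 322) (nat_lit 608) (nat_lit 128) (@Lb.r r289 (@Lb.r r535 (@Lb.r r328 (@Lb.r r2726 (@Lb.g g7 (@Lb.g g6 (@Lb.g g5 (@Lb.d (nat_lit 0) (nat_lit 5) (nat_lit 132) (@Lb.t (@Lb.fp (nat_lit 9) t2756)))))))))))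
noncomputable def l18572 : Lb := (@Lb.d (nat_lit 517) (nat_lit 641) (nat_lit 160) (@Lb.r r2661 (@Lb.r r1304 (@Lb.r r402 (@Lb.g g11 (@Lb.g g6 (@Lb.d (nat_lit 128) (nat_lit 16) (nat_lit 384) (@Lb.fm (nat_lit 3) t3753))))))))
noncomputable def l18573 : Lb := (@Lb.r r82 (@Lb.r r275 (@Lb.d (nat_lit 2) (nat_lit 513) (nat_lit 0) (@Lb.g g8 (@Lb.g g5 (@Lb.r r291 (@Lb.r r98 (@Lb.d (nat_lit 2) (nat_lit 128) (nat_lit 0) (@Lb.fp (nat_lit 3) t144)))))))))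
noncomputable def l18574 : Lb := (@Lb.r r82 (@Lb.r r2311 (@Lb.d (nat_lit 2) (nat_lit 129) (nat_lit 0) (@Lb.g g8 (@Lb.g g5 (@Lb.r r98 (@Lb.r r1048 (@Lb.d (nat_lit 522) (nat_lit 130) (nat_lit 0) (@Lb.fm (nat_lit 3) t3754)))))))))
noncomputable def l18575 : Lb := (@Lb.d (nat_lit 32) (nat_lit 274) (nat_lit 2) (@Lb.g g5 (@Lb.g g10 (@Lb.r r2579 (@Lb.r r72 (@Lb.r r582 (@Lb.d (nat_lit 272) (nat_lit 1) (nat_lit 522) (@Lb.fp (nat_lit 3) t3011))))))))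
noncomputable def l18576 : Lb := (@Lb.r r82 (@Lb.d (nat_lit 1) (nat_lit 2) (nat_lit 0) (@Lb.g g4 (@Lb.g g9 (@Lb.r r2138 (@Lb.r r1061 (@Lb.d (nat_lit 265) (nat_lit 65) (nat_lit 0) (@Lb.fm (nat_lit 3) t1221))))))))
noncomputable def l18577 : Lb := (@Lb.r r20 (@Lb.d (nat_lit 32) (nat_lit 641) (nat_lit 2) (@Lb.g g5 (@Lb.g g10 (@Lb.r r539 (@Lb.r r72 (@Lb.r r582 (@Lb.d (nat_lit 170) (nat_lit 88) (nat_lit 410) (@Lb.fp (nat_lit 3) t1416)))))))))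
noncomputable def l18578 : Lb := (@Lb.d (nat_lit 144) (nat_lit 266) (nat_lit 129) (@Lb.g g9 (@Lb.g g6 (@Lb.g g11 (@Lb.r r264 (@Lb.r r599 (@Lb.r r289 (@Lb.d (nat_lit 26) (nat_lit 10) (nat_lit 128) (@Lb.t (@Lb.fm (nat_lit 9) t50))))))))))
noncomputable def l18579 : Lb := (@Lb.r r323 (@Lb.d (nat_lit 0) (nat_lit 522) (nat_lit 0) (@Lb.g g9 (@Lb.g g10 (@Lb.r r2198 (@Lb.r r1368 (@Lb.r r2567 (@Lb.r r289 (@Lb.d (nat_lit 0) (nat_lit 160) (nat_lit 128) (@Lb.fm (nat_lit 3) t739))))))))))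
noncomputable def l18580 : Lb := (@Lb.d (nat_lit 128) (nat_lit 10) (nat_lit 129) (@Lb.g g9 (@Lb.g g10 (@Lb.g g11 (@Lb.r r166 (@Lb.r r264 (@Lb.r r599 (@Lb.r r289 (@Lb.d (nat_lit 16) (nat_lit 42) (nat_lit 2) (@Lb.t (@Lb.fm (nat_lit 9) t175)))))))))))
noncomputable def l18581 : Lb := (@Lb.d (nat_lit 0) (nat_lit 10) (nat_lit 129) (@Lb.g g9 (@Lb.g g10 (@Lb.g g11 (@Lb.r r166 (@Lb.r r584 (@Lb.r r299 (@Lb.r r289 (@Lb.d (nat_lit 8) (nat_lit 97) (nat_lit 0) (@Lb.t (@Lb.fp (nat_lit 9) t2785)))))))))))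
noncomputable def l18582 : Lb := (@Lb.d (nat_lit 0) (nat_lit 512) (nat_lit 66) (@Lb.g g9 (@Lb.g g10 (@Lb.g g7 (@Lb.r r386 (@Lb.r r101 (@Lb.r r24 (@Lb.d (nat_lit 32) (nat_lit 80) (nat_lit 329) (@Lb.t (@Lb.fm (nat_lit 9) t1926))))))))))
noncomputable def l18583 : Lb := (@Lb.d (nat_lit 4) (nat_lit 512) (nat_lit 137) (@Lb.g g8 (@Lb.g g9 (@Lb.g g10 (@Lb.g g11 (@Lb.r r2691 (@Lb.r r297 (@Lb.r r360 (@Lb.r r582 (@Lb.r r2180 (@Lb.d (nat_lit 641) (nat_lit 10) (nat_lit 329) (@Lb.fm (nat_lit 9) t242))))))))))))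
noncomputable def l18584 : Lb := (@Lb.d (nat_lit 4) (nat_lit 0) (nat_lit 2) (@Lb.g g8 (@Lb.g g9 (@Lb.g g10 (@Lb.g g11 (@Lb.r r2691 (@Lb.r r297 (@Lb.r r360 (@Lb.r r582 (@Lb.r r2180 (@Lb.d (nat_lit 642) (nat_lit 10) (nat_lit 329) (@Lb.fm (nat_lit 9) t242))))))))))))
noncomputable def l18585 : Lb := (@Lb.d (nat_lit 6) (nat_lit 256) (nat_lit 2) (@Lb.g g8 (@Lb.g g9 (@Lb.g g10 (@Lb.g g11 (@Lb.r r1706 (@Lb.r r648 (@Lb.r r1563 (@Lb.r r2337 (@Lb.r r36 (@Lb.d (nat_lit 641) (nat_lit 105) (nat_lit 66) (@Lb.fp (nat_lit 9) t242))))))))))))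
noncomputable def l18586 : Lb := (@Lb.d (nat_lit 2) (nat_lit 641) (nat_lit 162) (@Lb.g g8 (@Lb.g g5 (@Lb.g g10 (@Lb.g g11 (@Lb.r r387 (@Lb.r r24 (@Lb.d (nat_lit 10) (nat_lit 66) (nat_lit 137) (@Lb.fp (nat_lit 9) t2)))))))))
noncomputable def l18587 : Lb := (@Lb.d (nat_lit 9) (nat_lit 514) (nat_lit 128) (@Lb.g g8 (@Lb.g g9 (@Lb.g g11 (@Lb.r r548 (@Lb.r r2727 (@Lb.r r2178 (@Lb.r r533 (@Lb.r r1060 (@Lb.d (nat_lit 658) (nat_lit 136) (nat_lit 601) (@Lb.t (@Lb.fm (nat_lit 9) t229))))))))))))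
noncomputable def l18588 : Lb := (@Lb.d (nat_lit 9) (nat_lit 258) (nat_lit 128) (@Lb.g g8 (@Lb.g g9 (@Lb.g g11 (@Lb.r r548 (@Lb.r r2727 (@Lb.r r2178 (@Lb.r r533 (@Lb.r r1060 (@Lb.d (nat_lit 656) (nat_lit 136) (nat_lit 601) (@Lb.t (@Lb.fm (nat_lit 9) t307))))))))))))
noncomputable def l18589 : Lb := (@Lb.d (nat_lit 9) (nat_lit 546) (nat_lit 0) (@Lb.g g8 (@Lb.g g9 (@Lb.r r2404 (@Lb.r r2331 (@Lb.r r2178 (@Lb.r r549 (@Lb.d (nat_lit 410) (nat_lit 25) (nat_lit 74) (@Lb.fm (nat_lit 3) t229)))))))))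
noncomputable def l18590 : Lb := (@Lb.d (nat_lit 70) (nat_lit 294) (nat_lit 134) (@Lb.r r597 (@Lb.r r599 (@Lb.r r264 (@Lb.r r166 (@Lb.g g7 (@Lb.g g6 (@Lb.g g5 (@Lb.d (nat_lit 68) (nat_lit 6) (nat_lit 66) (@Lb.t (@Lb.fm (nat_lit 9) t50)))))))))))
noncomputable def l18591 : Lb := (@Lb.d (nat_lit 518) (nat_lit 614) (nat_lit 548) (@Lb.r r24 (@Lb.r r1633 (@Lb.r r1643 (@Lb.g g7 (@Lb.g g10 (@Lb.g g5 (@Lb.g g4 (@Lb.d (nat_lit 1) (nat_lit 0) (nat_lit 81) (@Lb.fp (nat_lit 9) t820))))))))))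
noncomputable def l18592 : Lb := (@Lb.d (nat_lit 0) (nat_lit 512) (nat_lit 133) (@Lb.g g10 (@Lb.g g11 (@Lb.r r1347 (@Lb.r r1378 (@Lb.r r101 (@Lb.r r24 (@Lb.d (nat_lit 581) (nat_lit 64) (nat_lit 320) (@Lb.fm (nat_lit 3) t1863)))))))))
noncomputable def l18593 : Lb := (@Lb.g g10 (@Lb.g g7 (@Lb.r r2691 (@Lb.r r1378 (@Lb.r r101 (@Lb.r r24 (@Lb.d (nat_lit 261) (nat_lit 576) (nat_lit 512) (@Lb.fm (nat_lit 3) t1863))))))))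
noncomputable def l18594 : Lb := (@Lb.d (nat_lit 2) (nat_lit 258) (nat_lit 64) (@Lb.g g8 (@Lb.g g9 (@Lb.g g11 (@Lb.r r2327 (@Lb.r r2178 (@Lb.r r2585 (@Lb.r r2564 (@Lb.d (nat_lit 649) (nat_lit 68) (nat_lit 385) (@Lb.t (@Lb.fp (nat_lit 9) t820)))))))))))
noncomputable def l18595 : Lb := (@Lb.g g10 (@Lb.g g7 (@Lb.r r402 (@Lb.r r101 (@Lb.r r24 (@Lb.d (nat_lit 261) (nat_lit 576) (nat_lit 512) (@Lb.fm (nat_lit 3) t1863)))))))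
noncomputable def l18596 : Lb := (@Lb.r r20 (@Lb.d (nat_lit 8) (nat_lit 36) (nat_lit 136) (@Lb.g g9 (@Lb.g g11 (@Lb.r r1624 (@Lb.r r2438 (@Lb.r r327 (@Lb.d (nat_lit 160) (nat_lit 65) (nat_lit 400) (@Lb.fm (nat_lit 3) t1847)))))))))
noncomputable def l18597 : Lb := (@Lb.d (nat_lit 38) (nat_lit 512) (nat_lit 130) (@Lb.g g8 (@Lb.g g9 (@Lb.g g10 (@Lb.g g11 (@Lb.r r1639 (@Lb.r r344 (@Lb.r r2405 (@Lb.r r1178 (@Lb.r r132 (@Lb.d (nat_lit 640) (nat_lit 104) (nat_lit 617) (@Lb.fp (nat_lit 9) t3755))))))))))))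
noncomputable def l18598 : Lb := (@Lb.d (nat_lit 662) (nat_lit 82) (nat_lit 664) (@Lb.r r1313 (@Lb.r r1110 (@Lb.r r2391 (@Lb.g g7 (@Lb.g g6 (@Lb.g g5 (@Lb.g g4 (@Lb.d (nat_lit 1) (nat_lit 24) (nat_lit 128) (@Lb.fm (nat_lit 9) t1809))))))))))
noncomputable def l18599 : Lb := (@Lb.d (nat_lit 0) (nat_lit 2) (nat_lit 130) (@Lb.g g9 (@Lb.g g10 (@Lb.g g11 (@Lb.r r1443 (@Lb.r r401 (@Lb.r r82 (@Lb.r r1169 (@Lb.r r8 (@Lb.d (nat_lit 320) (nat_lit 73) (nat_lit 169) (@Lb.t (@Lb.fp (nat_lit 9) t64))))))))))))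
noncomputable def l18600 : Lb := (@Lb.d (nat_lit 128) (nat_lit 0) (nat_lit 128) (@Lb.g g10 (@Lb.g g11 (@Lb.r r361 (@Lb.r r292 (@Lb.r r539 (@Lb.r r134 (@Lb.d (nat_lit 105) (nat_lit 68) (nat_lit 392) (@Lb.fp (nat_lit 3) t845)))))))))
noncomputable def l18601 : Lb := (@Lb.d (nat_lit 42) (nat_lit 134) (nat_lit 65) (@Lb.r r346 (@Lb.r r423 (@Lb.r r293 (@Lb.g g7 (@Lb.g g6 (@Lb.d (nat_lit 0) (nat_lit 20) (nat_lit 65) (@Lb.fp (nat_lit 3) t50))))))))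
noncomputable def l18602 : Lb := (@Lb.d (nat_lit 550) (nat_lit 0) (nat_lit 128) (@Lb.g g8 (@Lb.g g9 (@Lb.g g11 (@Lb.r r545 (@Lb.r r679 (@Lb.r r134 (@Lb.r r529 (@Lb.d (nat_lit 2) (nat_lit 5) (nat_lit 657) (@Lb.t (@Lb.fp (nat_lit 9) t40)))))))))))
noncomputable def l18603 : Lb := (@Lb.d (nat_lit 40) (nat_lit 0) (nat_lit 73) (@Lb.g g9 (@Lb.g g10 (@Lb.g g11 (@Lb.r r676 (@Lb.r r2455 (@Lb.r r1633 (@Lb.r r594 (@Lb.d (nat_lit 5) (nat_lit 36) (nat_lit 337) (@Lb.t (@Lb.fp (nat_lit 9) t1644)))))))))))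
noncomputable def l18604 : Lb := (@Lb.d (nat_lit 256) (nat_lit 320) (nat_lit 256) (@Lb.r r101 (@Lb.r r402 (@Lb.g g11 (@Lb.t (@Lb.fp (nat_lit 3) t150))))))
noncomputable def l18605 : Lb := (@Lb.r r101 (@Lb.r r402 (@Lb.d (nat_lit 144) (nat_lit 256) (nat_lit 85) (@Lb.fp (nat_lit 1) t590))))
noncomputable def l18606 : Lb := (@Lb.r r101 (@Lb.r r402 (@Lb.d (nat_lit 512) (nat_lit 0) (nat_lit 544) (@Lb.fp (nat_lit 1) t590))))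
noncomputable def l18607 : Lb := (@Lb.r r323 (@Lb.d (nat_lit 0) (nat_lit 512) (nat_lit 2) (@Lb.g g9 (@Lb.g g10 (@Lb.r r675 (@Lb.r r2214 (@Lb.r r2644 (@Lb.r r1321 (@Lb.d (nat_lit 65) (nat_lit 162) (nat_lit 256) (@Lb.fp (nat_lit 3) t331))))))))))
noncomputable def l18608 : Lb := (@Lb.r r323 (@Lb.d (nat_lit 8) (nat_lit 2) (nat_lit 2) (@Lb.g g9 (@Lb.g g10 (@Lb.r r426 (@Lb.r r1611 (@Lb.r r20 (@Lb.r r105 (@Lb.d (nat_lit 421) (nat_lit 41) (nat_lit 258) (@Lb.fp (nat_lit 3) t3756))))))))))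
noncomputable def l18609 : Lb := (@Lb.r r323 (@Lb.d (nat_lit 0) (nat_lit 256) (nat_lit 2) (@Lb.g g9 (@Lb.g g10 (@Lb.r r675 (@Lb.r r2214 (@Lb.r r2644 (@Lb.r r1321 (@Lb.d (nat_lit 70) (nat_lit 160) (nat_lit 256) (@Lb.fp (nat_lit 3) t331))))))))))
noncomputable def l18610 : Lb := (@Lb.r r82 (@Lb.d (nat_lit 4) (nat_lit 0) (nat_lit 128) (@Lb.g g8 (@Lb.g g9 (@Lb.g g11 (@Lb.r r1691 (@Lb.r r610 (@Lb.r r1065 (@Lb.r r1416 (@Lb.d (nat_lit 658) (nat_lit 24) (nat_lit 137) (@Lb.t (@Lb.fp (nat_lit 9) t718))))))))))))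
noncomputable def l18611 : Lb := (@Lb.d (nat_lit 401) (nat_lit 512) (nat_lit 129) (@Lb.r r1604 (@Lb.r r402 (@Lb.r r89 (@Lb.g g4 (@Lb.d (nat_lit 6) (nat_lit 0) (nat_lit 0) (@Lb.t (@Lb.fp (nat_lit 3) t376))))))))
noncomputable def l18612 : Lb := (@Lb.r r277 (@Lb.r r326 (@Lb.d (nat_lit 293) (nat_lit 256) (nat_lit 0) (@Lb.g g4 (@Lb.g g11 (@Lb.r r551 (@Lb.r r2626 (@Lb.r r2661 (@Lb.d (nat_lit 1) (nat_lit 88) (nat_lit 514) (@Lb.fp (nat_lit 3) t2430))))))))))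
noncomputable def l18613 : Lb := (@Lb.d (nat_lit 1) (nat_lit 514) (nat_lit 2) (@Lb.g g8 (@Lb.g g9 (@Lb.g g10 (@Lb.g g11 (@Lb.r r1371 (@Lb.r r386 (@Lb.r r97 (@Lb.r r24 (@Lb.d (nat_lit 266) (nat_lit 170) (nat_lit 329) (@Lb.fm (nat_lit 9) t499)))))))))))
noncomputable def l18614 : Lb := (@Lb.d (nat_lit 130) (nat_lit 514) (nat_lit 9) (@Lb.g g8 (@Lb.g g9 (@Lb.g g10 (@Lb.r r2595 (@Lb.r r2705 (@Lb.r r598 (@Lb.r r392 (@Lb.d (nat_lit 80) (nat_lit 2) (nat_lit 394) (@Lb.t (@Lb.fm (nat_lit 9) t3757)))))))))))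
noncomputable def l18615 : Lb := (@Lb.d (nat_lit 2) (nat_lit 521) (nat_lit 72) (@Lb.g g8 (@Lb.g g9 (@Lb.g g10 (@Lb.g g11 (@Lb.r r1706 (@Lb.r r680 (@Lb.r r555 (@Lb.r r1573 (@Lb.r r1044 (@Lb.d (nat_lit 640) (nat_lit 129) (nat_lit 330) (@Lb.fp (nat_lit 9) t74))))))))))))
noncomputable def l18616 : Lb := (@Lb.d (nat_lit 2) (nat_lit 265) (nat_lit 129) (@Lb.g g8 (@Lb.g g9 (@Lb.g g10 (@Lb.g g11 (@Lb.r r1706 (@Lb.r r424 (@Lb.r r279 (@Lb.r r1573 (@Lb.r r1044 (@Lb.d (nat_lit 129) (nat_lit 66) (nat_lit 330) (@Lb.fm (nat_lit 9) t68))))))))))))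
noncomputable def l18617 : Lb := (@Lb.d (nat_lit 0) (nat_lit 0) (nat_lit 128) (@Lb.g g10 (@Lb.g g11 (@Lb.r r2722 (@Lb.r r387 (@Lb.d (nat_lit 0) (nat_lit 81) (nat_lit 402) (@Lb.fp (nat_lit 3) t2053)))))))
noncomputable def l18618 : Lb := (@Lb.r r323 (@Lb.d (nat_lit 32) (nat_lit 512) (nat_lit 2) (@Lb.g g10 (@Lb.r r584 (@Lb.r r299 (@Lb.r r289 (@Lb.d (nat_lit 10) (nat_lit 160) (nat_lit 258) (@Lb.t (@Lb.fp (nat_lit 3) t369)))))))))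
noncomputable def l18619 : Lb := (@Lb.d (nat_lit 0) (nat_lit 0) (nat_lit 137) (@Lb.g g10 (@Lb.g g7 (@Lb.r r386 (@Lb.r r101 (@Lb.r r24 (@Lb.d (nat_lit 354) (nat_lit 0) (nat_lit 521) (@Lb.fm (nat_lit 3) t166))))))))
noncomputable def l18620 : Lb := (@Lb.d (nat_lit 0) (nat_lit 266) (nat_lit 0) (@Lb.g g9 (@Lb.d (nat_lit 273) (nat_lit 5) (nat_lit 33) (@Lb.t (@Lb.fp (nat_lit 3) t1591)))))
noncomputable def l18621 : Lb := (@Lb.r r82 (@Lb.r r275 (@Lb.d (nat_lit 4) (nat_lit 138) (nat_lit 0) (@Lb.g g5 (@Lb.r r291 (@Lb.r r98 (@Lb.r r24 (@Lb.d (nat_lit 549) (nat_lit 136) (nat_lit 33) (@Lb.t (@Lb.fp (nat_lit 3) t1461))))))))))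
noncomputable def l18622 : Lb := (@Lb.d (nat_lit 0) (nat_lit 33) (nat_lit 66) (@Lb.g g9 (@Lb.g g10 (@Lb.g g11 (@Lb.r r2666 (@Lb.r r2664 (@Lb.r r267 (@Lb.r r2577 (@Lb.d (nat_lit 129) (nat_lit 17) (nat_lit 512) (@Lb.t (@Lb.fp (nat_lit 9) t948)))))))))))
noncomputable def l18623 : Lb := (@Lb.d (nat_lit 0) (nat_lit 256) (nat_lit 132) (@Lb.g g10 (@Lb.g g11 (@Lb.r r1363 (@Lb.r r1362 (@Lb.r r101 (@Lb.r r24 (@Lb.d (nat_lit 129) (nat_lit 0) (nat_lit 418) (@Lb.fm (nat_lit 3) t592)))))))))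
noncomputable def l18624 : Lb := (@Lb.r r82 (@Lb.d (nat_lit 2) (nat_lit 641) (nat_lit 128) (@Lb.g g8 (@Lb.g g5 (@Lb.g g11 (@Lb.r r595 (@Lb.r r386 (@Lb.r r1096 (@Lb.d (nat_lit 546) (nat_lit 129) (nat_lit 1) (@Lb.t (@Lb.fm (nat_lit 9) t3758)))))))))))
noncomputable def l18625 : Lb := (@Lb.d (nat_lit 2) (nat_lit 2) (nat_lit 130) (@Lb.g g8 (@Lb.g g9 (@Lb.g g10 (@Lb.g g11 (@Lb.r r427 (@Lb.r r424 (@Lb.r r106 (@Lb.r r25 (@Lb.d (nat_lit 521) (nat_lit 2) (nat_lit 169) (@Lb.fm (nat_lit 9) t1231)))))))))))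
noncomputable def l18626 : Lb := (@Lb.d (nat_lit 0) (nat_lit 258) (nat_lit 130) (@Lb.g g9 (@Lb.g g10 (@Lb.g g11 (@Lb.r r427 (@Lb.r r424 (@Lb.r r106 (@Lb.r r25 (@Lb.d (nat_lit 521) (nat_lit 2) (nat_lit 34) (@Lb.t (@Lb.fp (nat_lit 9) t1231)))))))))))
noncomputable def l18627 : Lb := (@Lb.d (nat_lit 0) (nat_lit 0) (nat_lit 130) (@Lb.g g9 (@Lb.g g10 (@Lb.g g11 (@Lb.r r419 (@Lb.r r98 (@Lb.r r24 (@Lb.r r101 (@Lb.d (nat_lit 21) (nat_lit 90) (nat_lit 420) (@Lb.t (@Lb.fm (nat_lit 9) t1080)))))))))))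
noncomputable def l18628 : Lb := (@Lb.r r82 (@Lb.d (nat_lit 0) (nat_lit 2) (nat_lit 128) (@Lb.g g9 (@Lb.g g11 (@Lb.r r299 (@Lb.r r296 (@Lb.r r89 (@Lb.r r98 (@Lb.d (nat_lit 545) (nat_lit 10) (nat_lit 32) (@Lb.fp (nat_lit 3) t1147))))))))))
noncomputable def l18629 : Lb := (@Lb.d (nat_lit 0) (nat_lit 640) (nat_lit 640) (@Lb.r r68 (@Lb.r r289 (@Lb.r r106 (@Lb.r r584 (@Lb.g g11 (@Lb.t (@Lb.fp (nat_lit 3) t501))))))))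
noncomputable def l18630 : Lb := (@Lb.d (nat_lit 4) (nat_lit 256) (nat_lit 2) (@Lb.g g8 (@Lb.g g9 (@Lb.g g10 (@Lb.r r683 (@Lb.r r2666 (@Lb.r r2585 (@Lb.d (nat_lit 330) (nat_lit 169) (nat_lit 161) (@Lb.t (@Lb.fp (nat_lit 9) t324))))))))))
noncomputable def l18631 : Lb := (@Lb.d (nat_lit 0) (nat_lit 266) (nat_lit 66) (@Lb.g g9 (@Lb.t (@Lb.fp (nat_lit 3) t97))))
noncomputable def l18632 : Lb := (@Lb.d (nat_lit 2) (nat_lit 514) (nat_lit 2) (@Lb.g g8 (@Lb.g g9 (@Lb.g g10 (@Lb.g g11 (@Lb.r r1699 (@Lb.r r2705 (@Lb.r r612 (@Lb.r r666 (@Lb.r r1156 (@Lb.d (nat_lit 322) (nat_lit 34) (nat_lit 74) (@Lb.fp (nat_lit 9) t1472))))))))))))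
noncomputable def l18633 : Lb := (@Lb.r r70 (@Lb.d (nat_lit 34) (nat_lit 650) (nat_lit 0) (@Lb.g g8 (@Lb.g g9 (@Lb.g g11 (@Lb.r r1707 (@Lb.r r2454 (@Lb.r r584 (@Lb.d (nat_lit 97) (nat_lit 0) (nat_lit 137) (@Lb.t (@Lb.fp (nat_lit 9) t10)))))))))))
noncomputable def l18634 : Lb := (@Lb.r r322 (@Lb.d (nat_lit 8) (nat_lit 546) (nat_lit 516) (@Lb.g g9 (@Lb.g g7 (@Lb.r r426 (@Lb.r r532 (@Lb.r r361 (@Lb.d (nat_lit 162) (nat_lit 74) (nat_lit 518) (@Lb.fp (nat_lit 3) t3457)))))))))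
noncomputable def l18635 : Lb := (@Lb.d (nat_lit 4) (nat_lit 678) (nat_lit 100) (@Lb.r r609 (@Lb.r r619 (@Lb.r r584 (@Lb.g g7 (@Lb.g g10 (@Lb.d (nat_lit 32) (nat_lit 4) (nat_lit 66) (@Lb.fm (nat_lit 3) t985))))))))
noncomputable def l18636 : Lb := (@Lb.d (nat_lit 0) (nat_lit 2) (nat_lit 130) (@Lb.g g8 (@Lb.g g9 (@Lb.g g10 (@Lb.g g11 (@Lb.r r427 (@Lb.r r145 (@Lb.r r356 (@Lb.r r154 (@Lb.r r132 (@Lb.d (nat_lit 4) (nat_lit 8) (nat_lit 18) (@Lb.fm (nat_lit 9) t221))))))))))))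
noncomputable def l18637 : Lb := (@Lb.d (nat_lit 0) (nat_lit 266) (nat_lit 2) (@Lb.r r2209 (@Lb.r r1186 (@Lb.g g5 (@Lb.t (@Lb.fm (nat_lit 3) t1487))))))
noncomputable def l18638 : Lb := (@Lb.d (nat_lit 8) (nat_lit 258) (nat_lit 130) (@Lb.g g9 (@Lb.g g10 (@Lb.g g11 (@Lb.r r419 (@Lb.r r386 (@Lb.r r24 (@Lb.r r101 (@Lb.d (nat_lit 533) (nat_lit 149) (nat_lit 662) (@Lb.t (@Lb.fp (nat_lit 9) t1080)))))))))))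
noncomputable def l18639 : Lb := (@Lb.d (nat_lit 2) (nat_lit 258) (nat_lit 2) (@Lb.g g8 (@Lb.g g9 (@Lb.g g10 (@Lb.g g11 (@Lb.r r1371 (@Lb.r r386 (@Lb.r r97 (@Lb.r r24 (@Lb.d (nat_lit 266) (nat_lit 170) (nat_lit 329) (@Lb.fm (nat_lit 9) t499)))))))))))
noncomputable def l18640 : Lb := (@Lb.d (nat_lit 2) (nat_lit 514) (nat_lit 0) (@Lb.g g8 (@Lb.g g9 (@Lb.g g10 (@Lb.r r515 (@Lb.r r657 (@Lb.r r612 (@Lb.r r666 (@Lb.r r132 (@Lb.d (nat_lit 73) (nat_lit 2) (nat_lit 138) (@Lb.t (@Lb.fm (nat_lit 9) t521))))))))))))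
noncomputable def l18641 : Lb := (@Lb.r r322 (@Lb.d (nat_lit 8) (nat_lit 258) (nat_lit 512) (@Lb.g g5 (@Lb.g g7 (@Lb.r r676 (@Lb.r r342 (@Lb.r r673 (@Lb.d (nat_lit 10) (nat_lit 73) (nat_lit 521) (@Lb.fp (nat_lit 3) t1115)))))))))
noncomputable def l18642 : Lb := (@Lb.r r322 (@Lb.d (nat_lit 8) (nat_lit 2) (nat_lit 512) (@Lb.g g5 (@Lb.g g7 (@Lb.r r676 (@Lb.r r342 (@Lb.r r673 (@Lb.d (nat_lit 0) (nat_lit 137) (nat_lit 521) (@Lb.fp (nat_lit 3) t259)))))))))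
noncomputable def l18643 : Lb := (@Lb.d (nat_lit 2) (nat_lit 2) (nat_lit 66) (@Lb.g g8 (@Lb.g g9 (@Lb.g g10 (@Lb.g g11 (@Lb.r r1443 (@Lb.r r297 (@Lb.r r104 (@Lb.r r70 (@Lb.r r132 (@Lb.d (nat_lit 545) (nat_lit 10) (nat_lit 360) (@Lb.fp (nat_lit 9) t88))))))))))))
noncomputable def l18644 : Lb := (@Lb.d (nat_lit 2) (nat_lit 258) (nat_lit 22) (@Lb.g g8 (@Lb.g g9 (@Lb.g g10 (@Lb.r r1579 (@Lb.r r2585 (@Lb.r r2564 (@Lb.d (nat_lit 650) (nat_lit 68) (nat_lit 402) (@Lb.t (@Lb.fp (nat_lit 9) t2507))))))))))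
noncomputable def l18645 : Lb := (@Lb.d (nat_lit 0) (nat_lit 672) (nat_lit 132) (@Lb.r r134 (@Lb.r r2651 (@Lb.r r2644 (@Lb.r r1321 (@Lb.g g11 (@Lb.t (@Lb.fm (nat_lit 3) t1449))))))))
noncomputable def l18646 : Lb := (@Lb.d (nat_lit 522) (nat_lit 550) (nat_lit 513) (@Lb.r r2452 (@Lb.r r89 (@Lb.r r1611 (@Lb.r r358 (@Lb.g g7 (@Lb.g g6 (@Lb.g g4 (@Lb.d (nat_lit 5) (nat_lit 0) (nat_lit 65) (@Lb.t (@Lb.fm (nat_lit 9) t2521)))))))))))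
noncomputable def l18647 : Lb := (@Lb.d (nat_lit 529) (nat_lit 256) (nat_lit 17) (@Lb.r r24 (@Lb.r r101 (@Lb.r r2403 (@Lb.g g6 (@Lb.d (nat_lit 0) (nat_lit 4) (nat_lit 1) (@Lb.t (@Lb.fm (nat_lit 3) t233))))))))
noncomputable def l18648 : Lb := (@Lb.d (nat_lit 660) (nat_lit 402) (nat_lit 80) (@Lb.r r2321 (@Lb.r r2371 (@Lb.r r2726 (@Lb.g g6 (@Lb.g g5 (@Lb.g g8 (@Lb.d (nat_lit 266) (nat_lit 5) (nat_lit 1) (@Lb.r r391 (@Lb.t (@Lb.fp (nat_lit 9) t2379)))))))))))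
noncomputable def l18649 : Lb := (@Lb.d (nat_lit 356) (nat_lit 42) (nat_lit 266) (@Lb.r r2321 (@Lb.r r2214 (@Lb.r r1447 (@Lb.g g6 (@Lb.g g5 (@Lb.g g8 (@Lb.d (nat_lit 344) (nat_lit 0) (nat_lit 1) (@Lb.r r391 (@Lb.t (@Lb.fp (nat_lit 9) t2379)))))))))))
noncomputable def l18650 : Lb := (@Lb.d (nat_lit 356) (nat_lit 554) (nat_lit 266) (@Lb.r r2321 (@Lb.r r2214 (@Lb.r r1447 (@Lb.g g6 (@Lb.g g5 (@Lb.g g8 (@Lb.d (nat_lit 344) (nat_lit 5) (nat_lit 2) (@Lb.r r391 (@Lb.t (@Lb.fp (nat_lit 9) t2379)))))))))))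
noncomputable def l18651 : Lb := (@Lb.r r1045 (@Lb.r r1094 (@Lb.r r1287 (@Lb.d (nat_lit 1) (nat_lit 256) (nat_lit 0) (@Lb.g g4 (@Lb.d (nat_lit 1) (nat_lit 0) (nat_lit 0) (@Lb.t (@Lb.fm (nat_lit 3) t367))))))))
noncomputable def l18652 : Lb := (@Lb.d (nat_lit 0) (nat_lit 258) (nat_lit 0) (@Lb.g g9 (@Lb.r r388 (@Lb.r r342 (@Lb.r r681 (@Lb.r r555 (@Lb.r r548 (@Lb.d (nat_lit 10) (nat_lit 144) (nat_lit 326) (@Lb.t (@Lb.fp (nat_lit 3) t210))))))))))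
noncomputable def l18653 : Lb := (@Lb.d (nat_lit 2) (nat_lit 36) (nat_lit 70) (@Lb.r r613 (@Lb.r r338 (@Lb.r r551 (@Lb.g g5 (@Lb.g g8 (@Lb.d (nat_lit 10) (nat_lit 0) (nat_lit 0) (@Lb.r r98 (@Lb.fp (nat_lit 3) t31)))))))))
noncomputable def l18654 : Lb := (@Lb.r r82 (@Lb.d (nat_lit 2) (nat_lit 34) (nat_lit 0) (@Lb.g g8 (@Lb.g g9 (@Lb.g g11 (@Lb.r r537 (@Lb.r r531 (@Lb.r r98 (@Lb.d (nat_lit 129) (nat_lit 17) (nat_lit 0) (@Lb.t (@Lb.fp (nat_lit 9) t5)))))))))))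
noncomputable def l18655 : Lb := (@Lb.d (nat_lit 0) (nat_lit 0) (nat_lit 73) (@Lb.g g10 (@Lb.g g11 (@Lb.r r2691 (@Lb.r r2658 (@Lb.r r101 (@Lb.r r24 (@Lb.d (nat_lit 576) (nat_lit 0) (nat_lit 389) (@Lb.fp (nat_lit 3) t312)))))))))
noncomputable def l18656 : Lb := (@Lb.d (nat_lit 34) (nat_lit 513) (nat_lit 0) (@Lb.g g8 (@Lb.g g9 (@Lb.r r2210 (@Lb.r r2089 (@Lb.r r360 (@Lb.r r1543 (@Lb.d (nat_lit 0) (nat_lit 73) (nat_lit 261) (@Lb.fm (nat_lit 3) t242)))))))))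
noncomputable def l18657 : Lb := (@Lb.d (nat_lit 36) (nat_lit 2) (nat_lit 0) (@Lb.g g8 (@Lb.g g9 (@Lb.r r2210 (@Lb.r r2089 (@Lb.r r360 (@Lb.r r1543 (@Lb.d (nat_lit 0) (nat_lit 66) (nat_lit 262) (@Lb.fm (nat_lit 3) t242)))))))))
noncomputable def l18658 : Lb := (@Lb.d (nat_lit 6) (nat_lit 658) (nat_lit 576) (@Lb.r r2145 (@Lb.r r2198 (@Lb.r r324 (@Lb.r r1675 (@Lb.g g7 (@Lb.g g6 (@Lb.g g4 (@Lb.d (nat_lit 97) (nat_lit 0) (nat_lit 64) (@Lb.t (@Lb.fm (nat_lit 9) t905)))))))))))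
noncomputable def l18659 : Lb := (@Lb.d (nat_lit 2) (nat_lit 265) (nat_lit 129) (@Lb.g g8 (@Lb.g g9 (@Lb.g g10 (@Lb.g g11 (@Lb.r r1387 (@Lb.r r1442 (@Lb.r r660 (@Lb.r r425 (@Lb.r r2084 (@Lb.d (nat_lit 601) (nat_lit 73) (nat_lit 105) (@Lb.fp (nat_lit 9) t3759))))))))))))
noncomputable def l18660 : Lb := (@Lb.d (nat_lit 640) (nat_lit 520) (nat_lit 130) (@Lb.g g8 (@Lb.g g10 (@Lb.g g11 (@Lb.r r1411 (@Lb.d (nat_lit 0) (nat_lit 2) (nat_lit 425) (@Lb.t (@Lb.fm (nat_lit 9) t3760))))))))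
noncomputable def l18661 : Lb := (@Lb.r r82 (@Lb.r r275 (@Lb.d (nat_lit 4) (nat_lit 258) (nat_lit 0) (@Lb.g g5 (@Lb.r r2196 (@Lb.r r1638 (@Lb.r r2403 (@Lb.r r609 (@Lb.d (nat_lit 0) (nat_lit 101) (nat_lit 69) (@Lb.t (@Lb.fp (nat_lit 3) t3604)))))))))))
noncomputable def l18662 : Lb := (@Lb.d (nat_lit 4) (nat_lit 257) (nat_lit 0) (@Lb.g g8 (@Lb.g g5 (@Lb.r r2584 (@Lb.d (nat_lit 330) (nat_lit 0) (nat_lit 0) (@Lb.fm (nat_lit 3) t1894))))))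
noncomputable def l18663 : Lb := (@Lb.d (nat_lit 642) (nat_lit 2) (nat_lit 130) (@Lb.g g8 (@Lb.g g9 (@Lb.g g10 (@Lb.g g11 (@Lb.r r1451 (@Lb.r r106 (@Lb.r r25 (@Lb.d (nat_lit 2) (nat_lit 10) (nat_lit 425) (@Lb.fp (nat_lit 9) t394))))))))))
noncomputable def l18664 : Lb := (@Lb.d (nat_lit 128) (nat_lit 264) (nat_lit 130) (@Lb.g g10 (@Lb.g g11 (@Lb.r r361 (@Lb.r r292 (@Lb.r r539 (@Lb.r r134 (@Lb.d (nat_lit 105) (nat_lit 68) (nat_lit 394) (@Lb.fp (nat_lit 3) t2476)))))))))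
noncomputable def l18665 : Lb := (@Lb.d (nat_lit 8) (nat_lit 514) (nat_lit 130) (@Lb.g g9 (@Lb.g g10 (@Lb.g g11 (@Lb.r r614 (@Lb.r r404 (@Lb.r r619 (@Lb.r r609 (@Lb.d (nat_lit 9) (nat_lit 106) (nat_lit 265) (@Lb.t (@Lb.fm (nat_lit 9) t3761)))))))))))
noncomputable def l18666 : Lb := (@Lb.r r2069 (@Lb.r r2118 (@Lb.d (nat_lit 133) (nat_lit 512) (nat_lit 0) (@Lb.g g4 (@Lb.d (nat_lit 1) (nat_lit 128) (nat_lit 394) (@Lb.t (@Lb.fm (nat_lit 3) t3762)))))))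
noncomputable def l18667 : Lb := (@Lb.r r21 (@Lb.d (nat_lit 2) (nat_lit 256) (nat_lit 2) (@Lb.g g8 (@Lb.g g10 (@Lb.r r1684 (@Lb.r r2583 (@Lb.r r386 (@Lb.r r25 (@Lb.d (nat_lit 290) (nat_lit 105) (nat_lit 362) (@Lb.fm (nat_lit 3) t1214))))))))))
noncomputable def l18668 : Lb := (@Lb.d (nat_lit 130) (nat_lit 261) (nat_lit 258) (@Lb.r r2341 (@Lb.r r1624 (@Lb.r r1627 (@Lb.g g6 (@Lb.g g5 (@Lb.d (nat_lit 20) (nat_lit 1) (nat_lit 37) (@Lb.r r387 (@Lb.fp (nat_lit 3) t3763)))))))))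
noncomputable def l18669 : Lb := (@Lb.d (nat_lit 390) (nat_lit 390) (nat_lit 257) (@Lb.r r2341 (@Lb.r r1624 (@Lb.r r2470 (@Lb.r r339 (@Lb.g g7 (@Lb.g g6 (@Lb.g g5 (@Lb.d (nat_lit 4) (nat_lit 1) (nat_lit 8) (@Lb.t (@Lb.fm (nat_lit 9) t1330)))))))))))
noncomputable def l18670 : Lb := (@Lb.d (nat_lit 128) (nat_lit 522) (nat_lit 256) (@Lb.r r2341 (@Lb.r r1624 (@Lb.r r1627 (@Lb.g g6 (@Lb.g g5 (@Lb.d (nat_lit 20) (nat_lit 1) (nat_lit 37) (@Lb.r r387 (@Lb.fp (nat_lit 3) t3764)))))))))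
noncomputable def l18671 : Lb := (@Lb.r r82 (@Lb.d (nat_lit 0) (nat_lit 289) (nat_lit 64) (@Lb.g g8 (@Lb.g g9 (@Lb.g g11 (@Lb.r r1563 (@Lb.r r1129 (@Lb.r r2646 (@Lb.r r1416 (@Lb.d (nat_lit 546) (nat_lit 5) (nat_lit 68) (@Lb.t (@Lb.fp (nat_lit 9) t2419))))))))))))
noncomputable def l18672 : Lb := (@Lb.d (nat_lit 1) (nat_lit 608) (nat_lit 0) (@Lb.r r82 (@Lb.g g5 (@Lb.d (nat_lit 4) (nat_lit 145) (nat_lit 0) (@Lb.r r98 (@Lb.t (@Lb.fm (nat_lit 3) t3765)))))))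
noncomputable def l18673 : Lb := (@Lb.d (nat_lit 0) (nat_lit 512) (nat_lit 74) (@Lb.g g5 (@Lb.g g10 (@Lb.g g11 (@Lb.r r2626 (@Lb.r r24 (@Lb.d (nat_lit 401) (nat_lit 88) (nat_lit 144) (@Lb.t (@Lb.fm (nat_lit 9) t3766)))))))))
noncomputable def l18674 : Lb := (@Lb.d (nat_lit 512) (nat_lit 662) (nat_lit 9) (@Lb.r r331 (@Lb.r r2630 (@Lb.r r1172 (@Lb.g g7 (@Lb.g g5 (@Lb.d (nat_lit 72) (nat_lit 133) (nat_lit 64) (@Lb.fm (nat_lit 3) t3767))))))))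
noncomputable def l18675 : Lb := (@Lb.r r2069 (@Lb.d (nat_lit 130) (nat_lit 288) (nat_lit 130) (@Lb.g g8 (@Lb.g g10 (@Lb.g g11 (@Lb.r r578 (@Lb.r r408 (@Lb.d (nat_lit 154) (nat_lit 165) (nat_lit 21) (@Lb.t (@Lb.fp (nat_lit 9) t3768))))))))))
noncomputable def l18676 : Lb := (@Lb.d (nat_lit 666) (nat_lit 578) (nat_lit 512) (@Lb.r r82 (@Lb.r r2631 (@Lb.r r1304 (@Lb.g g9 (@Lb.d (nat_lit 8) (nat_lit 82) (nat_lit 0) (@Lb.r r291 (@Lb.r r98 (@Lb.r r36 (@Lb.t (@Lb.fp (nat_lit 3) t143)))))))))))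
noncomputable def l18677 : Lb := (@Lb.r r323 (@Lb.d (nat_lit 0) (nat_lit 514) (nat_lit 41) (@Lb.g g9 (@Lb.g g6 (@Lb.r r387 (@Lb.r r1313 (@Lb.d (nat_lit 5) (nat_lit 162) (nat_lit 16) (@Lb.fm (nat_lit 3) t3011))))))))
noncomputable def l18678 : Lb := (@Lb.d (nat_lit 129) (nat_lit 514) (nat_lit 73) (@Lb.g g8 (@Lb.g g9 (@Lb.g g10 (@Lb.g g11 (@Lb.r r2729 (@Lb.r r1443 (@Lb.r r98 (@Lb.r r2084 (@Lb.d (nat_lit 69) (nat_lit 137) (nat_lit 617) (@Lb.fm (nat_lit 9) t605)))))))))))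
noncomputable def l18679 : Lb := (@Lb.d (nat_lit 9) (nat_lit 514) (nat_lit 130) (@Lb.g g8 (@Lb.g g9 (@Lb.g g10 (@Lb.g g11 (@Lb.r r2731 (@Lb.r r1186 (@Lb.r r548 (@Lb.r r1173 (@Lb.r r36 (@Lb.d (nat_lit 289) (nat_lit 89) (nat_lit 281) (@Lb.fp (nat_lit 9) t3769))))))))))))
noncomputable def l18680 : Lb := (@Lb.d (nat_lit 66) (nat_lit 533) (nat_lit 577) (@Lb.r r281 (@Lb.r r404 (@Lb.r r678 (@Lb.r r1443 (@Lb.g g6 (@Lb.g g5 (@Lb.g g4 (@Lb.d (nat_lit 1) (nat_lit 33) (nat_lit 1) (@Lb.t (@Lb.fm (nat_lit 9) t2335)))))))))))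
noncomputable def l18681 : Lb := (@Lb.d (nat_lit 64) (nat_lit 514) (nat_lit 2) (@Lb.g g8 (@Lb.g g9 (@Lb.g g10 (@Lb.g g11 (@Lb.r r675 (@Lb.r r2406 (@Lb.r r664 (@Lb.r r533 (@Lb.r r2084 (@Lb.d (nat_lit 650) (nat_lit 88) (nat_lit 330) (@Lb.fp (nat_lit 9) t1347))))))))))))
noncomputable def l18682 : Lb := (@Lb.d (nat_lit 357) (nat_lit 129) (nat_lit 528) (@Lb.r r8 (@Lb.r r2073 (@Lb.g g11 (@Lb.g g6 (@Lb.d (nat_lit 96) (nat_lit 4) (nat_lit 289) (@Lb.fm (nat_lit 3) t3770)))))))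
noncomputable def l18683 : Lb := (@Lb.d (nat_lit 1) (nat_lit 1) (nat_lit 272) (@Lb.r r1434 (@Lb.r r1172 (@Lb.r r407 (@Lb.g g5 (@Lb.d (nat_lit 0) (nat_lit 134) (nat_lit 0) (@Lb.t (@Lb.fp (nat_lit 3) t2160))))))))
noncomputable def l18684 : Lb := (@Lb.d (nat_lit 64) (nat_lit 258) (nat_lit 2) (@Lb.g g8 (@Lb.g g9 (@Lb.g g10 (@Lb.g g11 (@Lb.r r675 (@Lb.r r2705 (@Lb.r r152 (@Lb.r r154 (@Lb.r r132 (@Lb.d (nat_lit 649) (nat_lit 129) (nat_lit 73) (@Lb.fm (nat_lit 9) t3771))))))))))))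
noncomputable def l18685 : Lb := (@Lb.d (nat_lit 65) (nat_lit 514) (nat_lit 2) (@Lb.g g8 (@Lb.g g9 (@Lb.g g10 (@Lb.g g11 (@Lb.r r675 (@Lb.r r2705 (@Lb.r r152 (@Lb.r r154 (@Lb.r r132 (@Lb.d (nat_lit 649) (nat_lit 129) (nat_lit 130) (@Lb.fm (nat_lit 9) t3772))))))))))))
noncomputable def l18686 : Lb := (@Lb.d (nat_lit 657) (nat_lit 408) (nat_lit 650) (@Lb.r r1434 (@Lb.r r101 (@Lb.r r2311 (@Lb.g g4 (@Lb.d (nat_lit 549) (nat_lit 0) (nat_lit 0) (@Lb.t (@Lb.fm (nat_lit 3) t3773))))))))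
noncomputable def l18687 : Lb := (@Lb.g g6 (@Lb.g g11 (@Lb.r r2311 (@Lb.r r2118 (@Lb.r r2069 (@Lb.r r8 (@Lb.fm (nat_lit 3) t1155)))))))
noncomputable def l18688 : Lb := (@Lb.d (nat_lit 144) (nat_lit 0) (nat_lit 344) (@Lb.g g6 (@Lb.g g11 (@Lb.d (nat_lit 130) (nat_lit 5) (nat_lit 385) (@Lb.fp (nat_lit 3) t3774)))))
noncomputable def l18689 : Lb := (@Lb.d (nat_lit 64) (nat_lit 514) (nat_lit 2) (@Lb.g g8 (@Lb.g g9 (@Lb.g g10 (@Lb.g g11 (@Lb.r r427 (@Lb.r r2146 (@Lb.r r292 (@Lb.r r1045 (@Lb.r r2084 (@Lb.d (nat_lit 294) (nat_lit 106) (nat_lit 641) (@Lb.fp (nat_lit 9) t2185))))))))))))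
noncomputable def l18690 : Lb := (@Lb.d (nat_lit 64) (nat_lit 552) (nat_lit 2) (@Lb.g g8 (@Lb.g g10 (@Lb.g g11 (@Lb.r r2321 (@Lb.r r299 (@Lb.r r2456 (@Lb.r r2458 (@Lb.d (nat_lit 10) (nat_lit 129) (nat_lit 422) (@Lb.t (@Lb.fm (nat_lit 9) t3775)))))))))))
noncomputable def l18691 : Lb := (@Lb.d (nat_lit 65) (nat_lit 514) (nat_lit 2) (@Lb.g g8 (@Lb.g g9 (@Lb.g g10 (@Lb.g g11 (@Lb.r r675 (@Lb.r r2406 (@Lb.r r664 (@Lb.r r533 (@Lb.r r2084 (@Lb.d (nat_lit 649) (nat_lit 88) (nat_lit 330) (@Lb.fp (nat_lit 9) t2521))))))))))))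
noncomputable def l18692 : Lb := (@Lb.d (nat_lit 64) (nat_lit 2) (nat_lit 2) (@Lb.g g8 (@Lb.g g9 (@Lb.g g10 (@Lb.g g11 (@Lb.r r675 (@Lb.r r2406 (@Lb.r r664 (@Lb.r r533 (@Lb.r r2084 (@Lb.d (nat_lit 649) (nat_lit 88) (nat_lit 330) (@Lb.fp (nat_lit 9) t2521))))))))))))
noncomputable def l18693 : Lb := (@Lb.d (nat_lit 64) (nat_lit 265) (nat_lit 1) (@Lb.g g8 (@Lb.g g9 (@Lb.g g10 (@Lb.g g11 (@Lb.r r675 (@Lb.r r2406 (@Lb.r r664 (@Lb.r r533 (@Lb.r r2084 (@Lb.d (nat_lit 649) (nat_lit 88) (nat_lit 330) (@Lb.fp (nat_lit 9) t3776))))))))))))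
noncomputable def l18694 : Lb := (@Lb.d (nat_lit 9) (nat_lit 0) (nat_lit 132) (@Lb.g g8 (@Lb.g g10 (@Lb.g g7 (@Lb.r r597 (@Lb.r r98 (@Lb.r r2436 (@Lb.d (nat_lit 610) (nat_lit 21) (nat_lit 72) (@Lb.t (@Lb.fp (nat_lit 9) t311))))))))))
noncomputable def l18695 : Lb := (@Lb.d (nat_lit 26) (nat_lit 0) (nat_lit 128) (@Lb.g g8 (@Lb.g g10 (@Lb.g g11 (@Lb.r r2691 (@Lb.r r1602 (@Lb.r r2581 (@Lb.r r292 (@Lb.d (nat_lit 74) (nat_lit 66) (nat_lit 393) (@Lb.t (@Lb.fp (nat_lit 9) t412)))))))))))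
noncomputable def l18696 : Lb := (@Lb.d (nat_lit 8) (nat_lit 258) (nat_lit 0) (@Lb.g g9 (@Lb.g g10 (@Lb.r r1319 (@Lb.r r1414 (@Lb.r r24 (@Lb.d (nat_lit 266) (nat_lit 129) (nat_lit 256) (@Lb.fm (nat_lit 3) t1122))))))))
noncomputable def l18697 : Lb := (@Lb.d (nat_lit 0) (nat_lit 264) (nat_lit 9) (@Lb.g g10 (@Lb.d (nat_lit 0) (nat_lit 144) (nat_lit 394) (@Lb.t (@Lb.fp (nat_lit 3) t334)))))
noncomputable def l18698 : Lb := (@Lb.g g5 (@Lb.g g6 (@Lb.r r402 (@Lb.d (nat_lit 0) (nat_lit 640) (nat_lit 256) (@Lb.fp (nat_lit 3) t334)))))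
noncomputable def l18699 : Lb := (@Lb.g g5 (@Lb.r r402 (@Lb.d (nat_lit 0) (nat_lit 128) (nat_lit 256) (@Lb.t (@Lb.fp (nat_lit 3) t334)))))
noncomputable def l18700 : Lb := (@Lb.d (nat_lit 134) (nat_lit 0) (nat_lit 73) (@Lb.g g8 (@Lb.g g9 (@Lb.g g10 (@Lb.g g11 (@Lb.r r2729 (@Lb.r r1443 (@Lb.r r98 (@Lb.r r2084 (@Lb.d (nat_lit 70) (nat_lit 137) (nat_lit 617) (@Lb.fm (nat_lit 9) t754)))))))))))
noncomputable def l18701 : Lb := (@Lb.r r21 (@Lb.r r70 (@Lb.r r263 (@Lb.g g8 (@Lb.r r267 (@Lb.r r402 (@Lb.r r25 (@Lb.d (nat_lit 2) (nat_lit 64) (nat_lit 650) (@Lb.t (@Lb.fm (nat_lit 3) t3777))))))))))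
noncomputable def l18702 : Lb := (@Lb.r r21 (@Lb.r r263 (@Lb.d (nat_lit 34) (nat_lit 0) (nat_lit 1) (@Lb.g g8 (@Lb.g g10 (@Lb.r r395 (@Lb.r r610 (@Lb.r r404 (@Lb.r r25 (@Lb.d (nat_lit 101) (nat_lit 64) (nat_lit 512) (@Lb.fm (nat_lit 3) t3778)))))))))))
noncomputable def l18703 : Lb := (@Lb.d (nat_lit 160) (nat_lit 520) (nat_lit 73) (@Lb.g g10 (@Lb.g g11 (@Lb.r r2712 (@Lb.r r2645 (@Lb.r r599 (@Lb.r r1370 (@Lb.d (nat_lit 298) (nat_lit 80) (nat_lit 37) (@Lb.fm (nat_lit 3) t716)))))))))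
noncomputable def l18704 : Lb := (@Lb.r r21 (@Lb.r r323 (@Lb.d (nat_lit 0) (nat_lit 256) (nat_lit 2) (@Lb.g g8 (@Lb.g g10 (@Lb.r r2411 (@Lb.r r2434 (@Lb.r r1625 (@Lb.r r1604 (@Lb.d (nat_lit 2) (nat_lit 164) (nat_lit 410) (@Lb.fp (nat_lit 3) t1254)))))))))))
noncomputable def l18705 : Lb := (@Lb.d (nat_lit 160) (nat_lit 520) (nat_lit 73) (@Lb.g g10 (@Lb.g g11 (@Lb.r r2712 (@Lb.r r2645 (@Lb.r r599 (@Lb.r r1370 (@Lb.d (nat_lit 298) (nat_lit 17) (nat_lit 37) (@Lb.fm (nat_lit 3) t716)))))))))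
noncomputable def l18706 : Lb := (@Lb.d (nat_lit 2) (nat_lit 264) (nat_lit 130) (@Lb.g g8 (@Lb.g g10 (@Lb.g g11 (@Lb.r r1579 (@Lb.r r2601 (@Lb.r r2728 (@Lb.r r138 (@Lb.d (nat_lit 2) (nat_lit 82) (nat_lit 281) (@Lb.t (@Lb.fm (nat_lit 9) t3779)))))))))))
noncomputable def l18707 : Lb := (@Lb.r r21 (@Lb.r r70 (@Lb.r r263 (@Lb.g g8 (@Lb.r r267 (@Lb.r r402 (@Lb.r r25 (@Lb.d (nat_lit 2) (nat_lit 642) (nat_lit 512) (@Lb.t (@Lb.fm (nat_lit 3) t3780))))))))))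
noncomputable def l18708 : Lb := (@Lb.d (nat_lit 8) (nat_lit 514) (nat_lit 130) (@Lb.g g9 (@Lb.g g10 (@Lb.g g11 (@Lb.r r586 (@Lb.r r584 (@Lb.r r619 (@Lb.r r609 (@Lb.d (nat_lit 9) (nat_lit 8) (nat_lit 74) (@Lb.t (@Lb.fp (nat_lit 9) t884)))))))))))
noncomputable def l18709 : Lb := (@Lb.d (nat_lit 328) (nat_lit 273) (nat_lit 384) (@Lb.r r1321 (@Lb.r r1444 (@Lb.r r2214 (@Lb.r r611 (@Lb.g g6 (@Lb.g g5 (@Lb.d (nat_lit 0) (nat_lit 0) (nat_lit 1) (@Lb.r r387 (@Lb.fp (nat_lit 3) t3781))))))))))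
noncomputable def l18710 : Lb := (@Lb.r r2311 (@Lb.r r2118 (@Lb.r r2069 (@Lb.r r36 (@Lb.d (nat_lit 1) (nat_lit 514) (nat_lit 0) (@Lb.fp (nat_lit 1) t710))))))
noncomputable def l18711 : Lb := (@Lb.d (nat_lit 0) (nat_lit 512) (nat_lit 66) (@Lb.g g4 (@Lb.g g10 (@Lb.g g7 (@Lb.r r386 (@Lb.d (nat_lit 321) (nat_lit 5) (nat_lit 522) (@Lb.t (@Lb.fp (nat_lit 9) t1021))))))))
noncomputable def l18712 : Lb := (@Lb.d (nat_lit 9) (nat_lit 513) (nat_lit 66) (@Lb.g g8 (@Lb.g g9 (@Lb.g g10 (@Lb.g g7 (@Lb.r r386 (@Lb.r r97 (@Lb.r r24 (@Lb.d (nat_lit 330) (nat_lit 9) (nat_lit 521) (@Lb.fp (nat_lit 9) t166))))))))))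
noncomputable def l18713 : Lb := (@Lb.d (nat_lit 1) (nat_lit 256) (nat_lit 0) (@Lb.g g8 (@Lb.r r2315 (@Lb.r r2122 (@Lb.r r2073 (@Lb.d (nat_lit 1) (nat_lit 0) (nat_lit 64) (@Lb.t (@Lb.fp (nat_lit 3) t3782))))))))
noncomputable def l18714 : Lb := (@Lb.d (nat_lit 10) (nat_lit 520) (nat_lit 130) (@Lb.g g8 (@Lb.g g10 (@Lb.g g11 (@Lb.r r1451 (@Lb.r r2145 (@Lb.r r1622 (@Lb.r r1156 (@Lb.d (nat_lit 166) (nat_lit 169) (nat_lit 577) (@Lb.t (@Lb.fp (nat_lit 9) t2838)))))))))))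
noncomputable def l18715 : Lb := (@Lb.d (nat_lit 522) (nat_lit 514) (nat_lit 582) (@Lb.r r1114 (@Lb.r r347 (@Lb.r r344 (@Lb.r r1685 (@Lb.g g7 (@Lb.d (nat_lit 64) (nat_lit 0) (nat_lit 128) (@Lb.t (@Lb.fp (nat_lit 3) t745)))))))))
noncomputable def l18716 : Lb := (@Lb.d (nat_lit 9) (nat_lit 512) (nat_lit 0) (@Lb.g g8 (@Lb.r r277 (@Lb.r r363 (@Lb.r r356 (@Lb.r r154 (@Lb.d (nat_lit 10) (nat_lit 130) (nat_lit 170) (@Lb.t (@Lb.fm (nat_lit 3) t232)))))))))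
noncomputable def l18717 : Lb := (@Lb.r r70 (@Lb.d (nat_lit 129) (nat_lit 544) (nat_lit 64) (@Lb.g g8 (@Lb.g g11 (@Lb.r r2708 (@Lb.r r345 (@Lb.r r2727 (@Lb.r r2182 (@Lb.d (nat_lit 4) (nat_lit 85) (nat_lit 34) (@Lb.fm (nat_lit 3) t320))))))))))
noncomputable def l18718 : Lb := (@Lb.r r273 (@Lb.r r322 (@Lb.d (nat_lit 129) (nat_lit 16) (nat_lit 584) (@Lb.g g8 (@Lb.g g7 (@Lb.r r361 (@Lb.r r146 (@Lb.r r2084 (@Lb.d (nat_lit 534) (nat_lit 66) (nat_lit 80) (@Lb.fp (nat_lit 3) t525))))))))))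
noncomputable def l18719 : Lb := (@Lb.r r70 (@Lb.d (nat_lit 385) (nat_lit 258) (nat_lit 64) (@Lb.g g8 (@Lb.g g9 (@Lb.g g11 (@Lb.r r2347 (@Lb.r r1602 (@Lb.r r25 (@Lb.d (nat_lit 8) (nat_lit 33) (nat_lit 128) (@Lb.t (@Lb.fm (nat_lit 9) t1792)))))))))))
noncomputable def l18720 : Lb := (@Lb.d (nat_lit 134) (nat_lit 0) (nat_lit 130) (@Lb.g g8 (@Lb.g g9 (@Lb.g g10 (@Lb.g g11 (@Lb.r r342 (@Lb.r r663 (@Lb.r r2657 (@Lb.r r2584 (@Lb.d (nat_lit 169) (nat_lit 9) (nat_lit 517) (@Lb.fm (nat_lit 9) t3783)))))))))))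
noncomputable def l18721 : Lb := (@Lb.d (nat_lit 389) (nat_lit 65) (nat_lit 0) (@Lb.r r1128 (@Lb.r r1313 (@Lb.r r1686 (@Lb.r r2387 (@Lb.g g7 (@Lb.g g6 (@Lb.g g5 (@Lb.d (nat_lit 0) (nat_lit 1) (nat_lit 65) (@Lb.t (@Lb.fm (nat_lit 9) t3705)))))))))))
noncomputable def l18722 : Lb := (@Lb.g g7 (@Lb.r r2311 (@Lb.r r1617 (@Lb.r r1604 (@Lb.r r2410 (@Lb.d (nat_lit 512) (nat_lit 336) (nat_lit 24) (@Lb.t (@Lb.fm (nat_lit 3) t3784))))))))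
noncomputable def l18723 : Lb := (@Lb.d (nat_lit 32) (nat_lit 2) (nat_lit 73) (@Lb.g g8 (@Lb.g g9 (@Lb.g g10 (@Lb.g g11 (@Lb.r r2411 (@Lb.r r1410 (@Lb.r r601 (@Lb.r r580 (@Lb.d (nat_lit 152) (nat_lit 132) (nat_lit 17) (@Lb.fm (nat_lit 9) t1792)))))))))))
noncomputable def l18724 : Lb := (@Lb.r r21 (@Lb.d (nat_lit 32) (nat_lit 512) (nat_lit 1) (@Lb.g g8 (@Lb.g g10 (@Lb.r r1178 (@Lb.r r97 (@Lb.r r276 (@Lb.d (nat_lit 264) (nat_lit 98) (nat_lit 69) (@Lb.fm (nat_lit 3) t1547)))))))))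
noncomputable def l18725 : Lb := (@Lb.r r323 (@Lb.d (nat_lit 128) (nat_lit 260) (nat_lit 0) (@Lb.g g8 (@Lb.g g9 (@Lb.g g10 (@Lb.r r2473 (@Lb.r r1683 (@Lb.r r1610 (@Lb.r r72 (@Lb.d (nat_lit 641) (nat_lit 64) (nat_lit 617) (@Lb.t (@Lb.fp (nat_lit 9) t261))))))))))))
noncomputable def l18726 : Lb := (@Lb.d (nat_lit 134) (nat_lit 258) (nat_lit 130) (@Lb.g g8 (@Lb.g g9 (@Lb.g g10 (@Lb.g g11 (@Lb.r r1686 (@Lb.r r360 (@Lb.r r295 (@Lb.r r2453 (@Lb.r r1060 (@Lb.d (nat_lit 282) (nat_lit 130) (nat_lit 146) (@Lb.fp (nat_lit 9) t2805))))))))))))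
noncomputable def l18727 : Lb := (@Lb.r r323 (@Lb.d (nat_lit 6) (nat_lit 520) (nat_lit 0) (@Lb.g g4 (@Lb.g g10 (@Lb.r r2401 (@Lb.r r1555 (@Lb.r r1346 (@Lb.d (nat_lit 274) (nat_lit 0) (nat_lit 276) (@Lb.fp (nat_lit 3) t246)))))))))
noncomputable def l18728 : Lb := (@Lb.d (nat_lit 2) (nat_lit 514) (nat_lit 132) (@Lb.g g8 (@Lb.g g9 (@Lb.g g10 (@Lb.g g7 (@Lb.r r420 (@Lb.r r102 (@Lb.r r21 (@Lb.r r36 (@Lb.d (nat_lit 153) (nat_lit 149) (nat_lit 72) (@Lb.fm (nat_lit 9) t1308)))))))))))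
noncomputable def l18729 : Lb := (@Lb.d (nat_lit 5) (nat_lit 256) (nat_lit 0) (@Lb.g g4 (@Lb.r r101 (@Lb.r r402 (@Lb.d (nat_lit 1) (nat_lit 164) (nat_lit 325) (@Lb.t (@Lb.fm (nat_lit 3) t652)))))))
noncomputable def l18730 : Lb := (@Lb.d (nat_lit 16) (nat_lit 2) (nat_lit 64) (@Lb.g g8 (@Lb.g g9 (@Lb.g g10 (@Lb.g g7 (@Lb.r r2442 (@Lb.r r101 (@Lb.r r1048 (@Lb.d (nat_lit 89) (nat_lit 166) (nat_lit 265) (@Lb.fp (nat_lit 9) t3481))))))))))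
noncomputable def l18731 : Lb := (@Lb.d (nat_lit 2) (nat_lit 512) (nat_lit 0) (@Lb.g g8 (@Lb.g g9 (@Lb.r r24 (@Lb.r r101 (@Lb.r r402 (@Lb.d (nat_lit 0) (nat_lit 164) (nat_lit 325) (@Lb.fp (nat_lit 3) t652))))))))
noncomputable def l18732 : Lb := (@Lb.d (nat_lit 405) (nat_lit 134) (nat_lit 132) (@Lb.r r2069 (@Lb.r r2134 (@Lb.r r1448 (@Lb.g g11 (@Lb.g g6 (@Lb.g g5 (@Lb.d (nat_lit 0) (nat_lit 32) (nat_lit 390) (@Lb.t (@Lb.fp (nat_lit 9) t139))))))))))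
noncomputable def l18733 : Lb := (@Lb.r r86 (@Lb.d (nat_lit 34) (nat_lit 512) (nat_lit 64) (@Lb.g g8 (@Lb.g g9 (@Lb.g g7 (@Lb.r r1606 (@Lb.r r1705 (@Lb.r r1444 (@Lb.d (nat_lit 89) (nat_lit 26) (nat_lit 138) (@Lb.t (@Lb.fm (nat_lit 9) t3481)))))))))))
noncomputable def l18734 : Lb := (@Lb.d (nat_lit 661) (nat_lit 521) (nat_lit 597) (@Lb.r r68 (@Lb.r r2130 (@Lb.r r2643 (@Lb.g g5 (@Lb.g g4 (@Lb.d (nat_lit 1) (nat_lit 26) (nat_lit 0) (@Lb.r r74 (@Lb.fp (nat_lit 3) t3360)))))))))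
noncomputable def l18735 : Lb := (@Lb.d (nat_lit 2) (nat_lit 2) (nat_lit 130) (@Lb.g g8 (@Lb.g g9 (@Lb.g g10 (@Lb.g g11 (@Lb.r r138 (@Lb.r r529 (@Lb.r r664 (@Lb.r r539 (@Lb.r r516 (@Lb.d (nat_lit 258) (nat_lit 66) (nat_lit 586) (@Lb.fm (nat_lit 9) t1008))))))))))))
noncomputable def l18736 : Lb := (@Lb.d (nat_lit 578) (nat_lit 150) (nat_lit 401) (@Lb.r r81 (@Lb.r r579 (@Lb.r r1366 (@Lb.g g6 (@Lb.g g5 (@Lb.g g4 (@Lb.d (nat_lit 1) (nat_lit 8) (nat_lit 0) (@Lb.t (@Lb.fm (nat_lit 9) t647))))))))))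
noncomputable def l18737 : Lb := (@Lb.g g10 (@Lb.r r2707 (@Lb.r r2341 (@Lb.r r2136 (@Lb.r r1158 (@Lb.d (nat_lit 289) (nat_lit 5) (nat_lit 32) (@Lb.t (@Lb.fp (nat_lit 3) t296))))))))
noncomputable def l18738 : Lb := (@Lb.d (nat_lit 2) (nat_lit 10) (nat_lit 64) (@Lb.g g8 (@Lb.g g9 (@Lb.g g11 (@Lb.r r2450 (@Lb.r r2387 (@Lb.r r2705 (@Lb.r r24 (@Lb.d (nat_lit 5) (nat_lit 160) (nat_lit 296) (@Lb.t (@Lb.fm (nat_lit 9) t309)))))))))))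
noncomputable def l18739 : Lb := (@Lb.d (nat_lit 144) (nat_lit 2) (nat_lit 0) (@Lb.g g8 (@Lb.g g9 (@Lb.g g10 (@Lb.r r1194 (@Lb.r r409 (@Lb.r r295 (@Lb.r r536 (@Lb.d (nat_lit 324) (nat_lit 130) (nat_lit 426) (@Lb.t (@Lb.fm (nat_lit 9) t1549)))))))))))
noncomputable def l18740 : Lb := (@Lb.r r323 (@Lb.d (nat_lit 32) (nat_lit 256) (nat_lit 10) (@Lb.g g6 (@Lb.r r1704 (@Lb.r r1451 (@Lb.r r1441 (@Lb.r r1378 (@Lb.d (nat_lit 273) (nat_lit 165) (nat_lit 86) (@Lb.t (@Lb.fm (nat_lit 3) t845))))))))))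
noncomputable def l18741 : Lb := (@Lb.r r21 (@Lb.d (nat_lit 8) (nat_lit 512) (nat_lit 2) (@Lb.g g8 (@Lb.g g10 (@Lb.g g11 (@Lb.r r667 (@Lb.r r2405 (@Lb.r r1178 (@Lb.r r1156 (@Lb.d (nat_lit 345) (nat_lit 65) (nat_lit 337) (@Lb.t (@Lb.fp (nat_lit 9) t284))))))))))))
noncomputable def l18742 : Lb := (@Lb.d (nat_lit 280) (nat_lit 38) (nat_lit 98) (@Lb.r r1380 (@Lb.r r2149 (@Lb.r r346 (@Lb.g g7 (@Lb.g g4 (@Lb.d (nat_lit 21) (nat_lit 32) (nat_lit 388) (@Lb.fp (nat_lit 3) t1027))))))))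
noncomputable def l18743 : Lb := (@Lb.r r21 (@Lb.r r70 (@Lb.g g8 (@Lb.g g11 (@Lb.r r586 (@Lb.r r537 (@Lb.r r516 (@Lb.d (nat_lit 0) (nat_lit 256) (nat_lit 128) (@Lb.fm (nat_lit 3) t329)))))))))
noncomputable def l18744 : Lb := (@Lb.d (nat_lit 2) (nat_lit 258) (nat_lit 2) (@Lb.g g8 (@Lb.g g9 (@Lb.g g10 (@Lb.r r515 (@Lb.r r297 (@Lb.r r104 (@Lb.r r70 (@Lb.r r132 (@Lb.d (nat_lit 66) (nat_lit 169) (nat_lit 329) (@Lb.t (@Lb.fp (nat_lit 9) t242))))))))))))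
noncomputable def l18745 : Lb := (@Lb.r r21 (@Lb.d (nat_lit 20) (nat_lit 32) (nat_lit 0) (@Lb.g g8 (@Lb.g g10 (@Lb.g g11 (@Lb.r r1193 (@Lb.r r618 (@Lb.r r327 (@Lb.r r2584 (@Lb.d (nat_lit 356) (nat_lit 37) (nat_lit 384) (@Lb.t (@Lb.fm (nat_lit 9) t148))))))))))))
noncomputable def l18746 : Lb := (@Lb.r r323 (@Lb.d (nat_lit 9) (nat_lit 2) (nat_lit 1) (@Lb.g g8 (@Lb.g g9 (@Lb.g g6 (@Lb.r r387 (@Lb.r r2073 (@Lb.r r2196 (@Lb.d (nat_lit 533) (nat_lit 138) (nat_lit 65) (@Lb.t (@Lb.fp (nat_lit 9) t2918)))))))))))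
noncomputable def l18747 : Lb := (@Lb.d (nat_lit 128) (nat_lit 32) (nat_lit 72) (@Lb.g g11 (@Lb.r r2410 (@Lb.r r361 (@Lb.r r1384 (@Lb.r r2583 (@Lb.d (nat_lit 646) (nat_lit 162) (nat_lit 386) (@Lb.t (@Lb.fm (nat_lit 3) t386)))))))))
noncomputable def l18748 : Lb := (@Lb.d (nat_lit 2) (nat_lit 256) (nat_lit 73) (@Lb.g g8 (@Lb.g g6 (@Lb.g g11 (@Lb.r r579 (@Lb.r r2193 (@Lb.d (nat_lit 272) (nat_lit 10) (nat_lit 26) (@Lb.t (@Lb.fm (nat_lit 9) t285)))))))))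
noncomputable def l18749 : Lb := (@Lb.d (nat_lit 2) (nat_lit 0) (nat_lit 73) (@Lb.g g8 (@Lb.g g6 (@Lb.g g11 (@Lb.r r579 (@Lb.r r2193 (@Lb.d (nat_lit 272) (nat_lit 0) (nat_lit 24) (@Lb.t (@Lb.fm (nat_lit 9) t285)))))))))
noncomputable def l18750 : Lb := (@Lb.d (nat_lit 2) (nat_lit 294) (nat_lit 65) (@Lb.r r338 (@Lb.g g7 (@Lb.g g6 (@Lb.g g5 (@Lb.g g8 (@Lb.d (nat_lit 2) (nat_lit 129) (nat_lit 128) (@Lb.fm (nat_lit 9) t126))))))))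
noncomputable def l18751 : Lb := (@Lb.d (nat_lit 2) (nat_lit 2) (nat_lit 73) (@Lb.g g8 (@Lb.g g9 (@Lb.g g10 (@Lb.g g11 (@Lb.r r1559 (@Lb.r r2474 (@Lb.r r25 (@Lb.d (nat_lit 9) (nat_lit 86) (nat_lit 293) (@Lb.fp (nat_lit 9) t3465))))))))))
noncomputable def l18752 : Lb := (@Lb.d (nat_lit 2) (nat_lit 258) (nat_lit 73) (@Lb.g g8 (@Lb.g g9 (@Lb.g g10 (@Lb.g g11 (@Lb.r r2691 (@Lb.r r297 (@Lb.r r648 (@Lb.r r666 (@Lb.r r1156 (@Lb.d (nat_lit 640) (nat_lit 42) (nat_lit 73) (@Lb.fp (nat_lit 9) t259))))))))))))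
noncomputable def l18753 : Lb := (@Lb.d (nat_lit 130) (nat_lit 514) (nat_lit 130) (@Lb.g g8 (@Lb.g g9 (@Lb.g g10 (@Lb.g g11 (@Lb.r r2327 (@Lb.r r2217 (@Lb.r r98 (@Lb.r r420 (@Lb.d (nat_lit 421) (nat_lit 97) (nat_lit 329) (@Lb.fm (nat_lit 9) t605)))))))))))
noncomputable def l18754 : Lb := (@Lb.d (nat_lit 153) (nat_lit 2) (nat_lit 130) (@Lb.g g8 (@Lb.g g9 (@Lb.g g10 (@Lb.g g11 (@Lb.r r276 (@Lb.r r1563 (@Lb.r r2453 (@Lb.r r2390 (@Lb.r r676 (@Lb.d (nat_lit 258) (nat_lit 64) (nat_lit 665) (@Lb.fm (nat_lit 9) t3785))))))))))))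
noncomputable def l18755 : Lb := (@Lb.d (nat_lit 130) (nat_lit 265) (nat_lit 129) (@Lb.g g8 (@Lb.g g9 (@Lb.g g10 (@Lb.g g11 (@Lb.r r2327 (@Lb.r r2217 (@Lb.r r98 (@Lb.r r420 (@Lb.d (nat_lit 421) (nat_lit 104) (nat_lit 328) (@Lb.fm (nat_lit 9) t3786)))))))))))
noncomputable def l18756 : Lb := (@Lb.d (nat_lit 130) (nat_lit 2) (nat_lit 130) (@Lb.g g8 (@Lb.g g9 (@Lb.g g10 (@Lb.g g11 (@Lb.r r2327 (@Lb.r r2217 (@Lb.r r98 (@Lb.r r420 (@Lb.d (nat_lit 421) (nat_lit 104) (nat_lit 328) (@Lb.fm (nat_lit 9) t605)))))))))))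
noncomputable def l18757 : Lb := (@Lb.d (nat_lit 529) (nat_lit 680) (nat_lit 528) (@Lb.r r1362 (@Lb.r r423 (@Lb.r r600 (@Lb.g g6 (@Lb.g g5 (@Lb.d (nat_lit 16) (nat_lit 129) (nat_lit 1) (@Lb.r r387 (@Lb.fp (nat_lit 3) t1161)))))))))
noncomputable def l18758 : Lb := (@Lb.r r21 (@Lb.r r70 (@Lb.d (nat_lit 10) (nat_lit 256) (nat_lit 0) (@Lb.g g8 (@Lb.r r1705 (@Lb.r r2470 (@Lb.r r1355 (@Lb.r r1348 (@Lb.d (nat_lit 409) (nat_lit 144) (nat_lit 1) (@Lb.t (@Lb.fp (nat_lit 3) t1549)))))))))))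
noncomputable def l18759 : Lb := (@Lb.r r21 (@Lb.d (nat_lit 658) (nat_lit 544) (nat_lit 128) (@Lb.g g4 (@Lb.g g10 (@Lb.g g11 (@Lb.r r2341 (@Lb.r r2391 (@Lb.r r2182 (@Lb.d (nat_lit 640) (nat_lit 154) (nat_lit 425) (@Lb.t (@Lb.fp (nat_lit 9) t3787)))))))))))
noncomputable def l18760 : Lb := (@Lb.r r70 (@Lb.d (nat_lit 388) (nat_lit 522) (nat_lit 0) (@Lb.g g8 (@Lb.g g9 (@Lb.r r2710 (@Lb.r r683 (@Lb.r r553 (@Lb.d (nat_lit 69) (nat_lit 98) (nat_lit 426) (@Lb.fp (nat_lit 3) t898)))))))))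
noncomputable def l18761 : Lb := (@Lb.d (nat_lit 0) (nat_lit 36) (nat_lit 74) (@Lb.g g8 (@Lb.g g10 (@Lb.g g11 (@Lb.r r353 (@Lb.r r2707 (@Lb.r r1156 (@Lb.d (nat_lit 610) (nat_lit 170) (nat_lit 532) (@Lb.t (@Lb.fm (nat_lit 9) t1719))))))))))
noncomputable def l18762 : Lb := (@Lb.d (nat_lit 144) (nat_lit 257) (nat_lit 128) (@Lb.g g8 (@Lb.g g9 (@Lb.g g10 (@Lb.g g11 (@Lb.r r674 (@Lb.r r2439 (@Lb.r r1169 (@Lb.r r2632 (@Lb.d (nat_lit 616) (nat_lit 4) (nat_lit 408) (@Lb.fp (nat_lit 9) t1666)))))))))))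
noncomputable def l18763 : Lb := (@Lb.d (nat_lit 21) (nat_lit 258) (nat_lit 0) (@Lb.g g8 (@Lb.g g9 (@Lb.g g10 (@Lb.r r2713 (@Lb.r r1683 (@Lb.r r1602 (@Lb.r r292 (@Lb.d (nat_lit 581) (nat_lit 8) (nat_lit 409) (@Lb.t (@Lb.fp (nat_lit 9) t898)))))))))))
noncomputable def l18764 : Lb := (@Lb.d (nat_lit 16) (nat_lit 513) (nat_lit 0) (@Lb.g g8 (@Lb.g g9 (@Lb.g g10 (@Lb.r r2713 (@Lb.r r1683 (@Lb.r r1602 (@Lb.r r292 (@Lb.d (nat_lit 581) (nat_lit 8) (nat_lit 409) (@Lb.t (@Lb.fp (nat_lit 9) t898)))))))))))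
noncomputable def l18765 : Lb := (@Lb.d (nat_lit 0) (nat_lit 514) (nat_lit 73) (@Lb.g g8 (@Lb.g g9 (@Lb.g g10 (@Lb.g g11 (@Lb.r r2691 (@Lb.r r297 (@Lb.r r648 (@Lb.r r666 (@Lb.r r1156 (@Lb.d (nat_lit 645) (nat_lit 40) (nat_lit 73) (@Lb.fp (nat_lit 9) t259))))))))))))
noncomputable def l18766 : Lb := (@Lb.d (nat_lit 138) (nat_lit 0) (nat_lit 0) (@Lb.g g8 (@Lb.r r1621 (@Lb.r r2391 (@Lb.r r2178 (@Lb.r r2664 (@Lb.d (nat_lit 85) (nat_lit 85) (nat_lit 289) (@Lb.t (@Lb.fp (nat_lit 3) t100)))))))))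
noncomputable def l18767 : Lb := (@Lb.d (nat_lit 345) (nat_lit 537) (nat_lit 1) (@Lb.r r362 (@Lb.r r1431 (@Lb.r r1641 (@Lb.r r360 (@Lb.g g7 (@Lb.g g6 (@Lb.d (nat_lit 16) (nat_lit 4) (nat_lit 128) (@Lb.fm (nat_lit 3) t1956)))))))))
noncomputable def l18768 : Lb := (@Lb.d (nat_lit 34) (nat_lit 260) (nat_lit 2) (@Lb.g g8 (@Lb.g g9 (@Lb.g g10 (@Lb.r r683 (@Lb.r r1689 (@Lb.r r1688 (@Lb.r r602 (@Lb.d (nat_lit 106) (nat_lit 101) (nat_lit 280) (@Lb.t (@Lb.fm (nat_lit 9) t1956)))))))))))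
noncomputable def l18769 : Lb := (@Lb.d (nat_lit 608) (nat_lit 0) (nat_lit 666) (@Lb.g g10 (@Lb.t (@Lb.fp (nat_lit 3) t49))))
noncomputable def l18770 : Lb := (@Lb.d (nat_lit 2) (nat_lit 258) (nat_lit 130) (@Lb.g g8 (@Lb.g g9 (@Lb.g g10 (@Lb.g g11 (@Lb.r r1371 (@Lb.r r386 (@Lb.r r97 (@Lb.r r24 (@Lb.d (nat_lit 265) (nat_lit 6) (nat_lit 136) (@Lb.fm (nat_lit 9) t3788)))))))))))
noncomputable def l18771 : Lb := (@Lb.d (nat_lit 8) (nat_lit 258) (nat_lit 0) (@Lb.g g5 (@Lb.g g7 (@Lb.r r164 (@Lb.r r598 (@Lb.r r673 (@Lb.d (nat_lit 6) (nat_lit 138) (nat_lit 265) (@Lb.fp (nat_lit 3) t668))))))))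
noncomputable def l18772 : Lb := (@Lb.d (nat_lit 8) (nat_lit 2) (nat_lit 0) (@Lb.g g5 (@Lb.g g7 (@Lb.r r164 (@Lb.r r598 (@Lb.r r673 (@Lb.d (nat_lit 0) (nat_lit 74) (nat_lit 265) (@Lb.fp (nat_lit 3) t1115))))))))
noncomputable def l18773 : Lb := (@Lb.d (nat_lit 2) (nat_lit 2) (nat_lit 130) (@Lb.g g8 (@Lb.g g9 (@Lb.g g10 (@Lb.g g11 (@Lb.r r1371 (@Lb.r r386 (@Lb.r r97 (@Lb.r r24 (@Lb.d (nat_lit 258) (nat_lit 4) (nat_lit 136) (@Lb.fm (nat_lit 9) t3788)))))))))))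
noncomputable def l18774 : Lb := (@Lb.r r82 (@Lb.r r283 (@Lb.d (nat_lit 401) (nat_lit 10) (nat_lit 0) (@Lb.g g4 (@Lb.g g9 (@Lb.r r1555 (@Lb.r r146 (@Lb.d (nat_lit 1) (nat_lit 6) (nat_lit 680) (@Lb.fp (nat_lit 3) t2847)))))))))
noncomputable def l18775 : Lb := (@Lb.r r70 (@Lb.d (nat_lit 386) (nat_lit 522) (nat_lit 0) (@Lb.g g8 (@Lb.g g9 (@Lb.r r662 (@Lb.r r2731 (@Lb.r r2601 (@Lb.d (nat_lit 325) (nat_lit 96) (nat_lit 682) (@Lb.fp (nat_lit 3) t394)))))))))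
noncomputable def l18776 : Lb := (@Lb.r r323 (@Lb.d (nat_lit 289) (nat_lit 585) (nat_lit 1) (@Lb.g g8 (@Lb.g g9 (@Lb.g g10 (@Lb.r r618 (@Lb.r r579 (@Lb.d (nat_lit 388) (nat_lit 96) (nat_lit 128) (@Lb.t (@Lb.fp (nat_lit 9) t68))))))))))
noncomputable def l18777 : Lb := (@Lb.r r323 (@Lb.d (nat_lit 9) (nat_lit 4) (nat_lit 0) (@Lb.g g8 (@Lb.g g9 (@Lb.g g10 (@Lb.r r342 (@Lb.r r2456 (@Lb.r r1319 (@Lb.r r1321 (@Lb.d (nat_lit 644) (nat_lit 10) (nat_lit 585) (@Lb.t (@Lb.fm (nat_lit 9) t597))))))))))))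
noncomputable def l18778 : Lb := (@Lb.d (nat_lit 289) (nat_lit 2) (nat_lit 1) (@Lb.g g8 (@Lb.g g9 (@Lb.g g10 (@Lb.g g11 (@Lb.r r1642 (@Lb.r r579 (@Lb.r r25 (@Lb.d (nat_lit 2) (nat_lit 33) (nat_lit 384) (@Lb.fm (nat_lit 9) t68))))))))))
noncomputable def l18779 : Lb := (@Lb.r r323 (@Lb.d (nat_lit 289) (nat_lit 514) (nat_lit 2) (@Lb.g g8 (@Lb.g g9 (@Lb.g g10 (@Lb.r r1642 (@Lb.r r579 (@Lb.r r25 (@Lb.d (nat_lit 2) (nat_lit 33) (nat_lit 261) (@Lb.t (@Lb.fp (nat_lit 9) t68)))))))))))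
noncomputable def l18780 : Lb := (@Lb.r r323 (@Lb.d (nat_lit 129) (nat_lit 260) (nat_lit 2) (@Lb.g g8 (@Lb.g g6 (@Lb.r r407 (@Lb.r r2145 (@Lb.r r1556 (@Lb.d (nat_lit 390) (nat_lit 98) (nat_lit 641) (@Lb.fm (nat_lit 3) t51)))))))))
noncomputable def l18781 : Lb := (@Lb.d (nat_lit 154) (nat_lit 256) (nat_lit 4) (@Lb.g g8 (@Lb.g g10 (@Lb.g g11 (@Lb.r r2691 (@Lb.r r1178 (@Lb.r r533 (@Lb.r r2340 (@Lb.d (nat_lit 586) (nat_lit 36) (nat_lit 133) (@Lb.t (@Lb.fm (nat_lit 9) t69)))))))))))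
noncomputable def l18782 : Lb := (@Lb.r r82 (@Lb.d (nat_lit 41) (nat_lit 544) (nat_lit 128) (@Lb.g g8 (@Lb.g g9 (@Lb.g g11 (@Lb.r r1571 (@Lb.r r582 (@Lb.r r273 (@Lb.r r2180 (@Lb.d (nat_lit 546) (nat_lit 33) (nat_lit 402) (@Lb.t (@Lb.fp (nat_lit 9) t125))))))))))))
noncomputable def l18783 : Lb := (@Lb.r r82 (@Lb.d (nat_lit 41) (nat_lit 9) (nat_lit 0) (@Lb.g g8 (@Lb.g g9 (@Lb.g g11 (@Lb.r r1635 (@Lb.r r582 (@Lb.r r2712 (@Lb.r r2325 (@Lb.d (nat_lit 10) (nat_lit 26) (nat_lit 354) (@Lb.t (@Lb.fm (nat_lit 9) t594))))))))))))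
noncomputable def l18784 : Lb := (@Lb.d (nat_lit 9) (nat_lit 512) (nat_lit 0) (@Lb.r r24 (@Lb.r r322 (@Lb.r r1411 (@Lb.r r386 (@Lb.g g5 (@Lb.g g8 (@Lb.fp (nat_lit 3) t2))))))))
noncomputable def l18785 : Lb := (@Lb.d (nat_lit 145) (nat_lit 9) (nat_lit 73) (@Lb.g g8 (@Lb.g g9 (@Lb.g g10 (@Lb.g g11 (@Lb.r r387 (@Lb.r r1369 (@Lb.r r2406 (@Lb.r r132 (@Lb.d (nat_lit 98) (nat_lit 160) (nat_lit 585) (@Lb.fp (nat_lit 9) t1976)))))))))))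
noncomputable def l18786 : Lb := (@Lb.r r323 (@Lb.d (nat_lit 0) (nat_lit 2) (nat_lit 8) (@Lb.g g4 (@Lb.g g9 (@Lb.g g10 (@Lb.r r579 (@Lb.r r37 (@Lb.d (nat_lit 8) (nat_lit 1) (nat_lit 66) (@Lb.t (@Lb.fp (nat_lit 9) t2))))))))))
noncomputable def l18787 : Lb := (@Lb.d (nat_lit 133) (nat_lit 512) (nat_lit 130) (@Lb.g g8 (@Lb.g g9 (@Lb.g g10 (@Lb.g g11 (@Lb.r r419 (@Lb.r r344 (@Lb.r r1429 (@Lb.r r1110 (@Lb.r r2212 (@Lb.d (nat_lit 38) (nat_lit 106) (nat_lit 673) (@Lb.fm (nat_lit 9) t238))))))))))))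
noncomputable def l18788 : Lb := (@Lb.r r21 (@Lb.d (nat_lit 128) (nat_lit 512) (nat_lit 73) (@Lb.g g8 (@Lb.g g10 (@Lb.g g11 (@Lb.r r419 (@Lb.r r2726 (@Lb.r r97 (@Lb.r r612 (@Lb.d (nat_lit 2) (nat_lit 100) (nat_lit 594) (@Lb.t (@Lb.fm (nat_lit 9) t523))))))))))))
noncomputable def l18789 : Lb := (@Lb.d (nat_lit 100) (nat_lit 36) (nat_lit 389) (@Lb.r r408 (@Lb.r r1178 (@Lb.r r1683 (@Lb.g g6 (@Lb.g g9 (@Lb.g g4 (@Lb.d (nat_lit 70) (nat_lit 42) (nat_lit 0) (@Lb.r r387 (@Lb.t (@Lb.fp (nat_lit 9) t238)))))))))))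
noncomputable def l18790 : Lb := (@Lb.d (nat_lit 6) (nat_lit 293) (nat_lit 289) (@Lb.r r81 (@Lb.r r418 (@Lb.r r519 (@Lb.g g7 (@Lb.g g5 (@Lb.g g8 (@Lb.d (nat_lit 680) (nat_lit 17) (nat_lit 64) (@Lb.r r614 (@Lb.t (@Lb.fm (nat_lit 9) t3789)))))))))))
noncomputable def l18791 : Lb := (@Lb.d (nat_lit 134) (nat_lit 512) (nat_lit 130) (@Lb.g g8 (@Lb.g g9 (@Lb.g g10 (@Lb.g g11 (@Lb.r r1706 (@Lb.r r1411 (@Lb.r r548 (@Lb.r r2581 (@Lb.r r36 (@Lb.d (nat_lit 644) (nat_lit 17) (nat_lit 328) (@Lb.fm (nat_lit 9) t3790))))))))))))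
noncomputable def l18792 : Lb := (@Lb.d (nat_lit 514) (nat_lit 0) (nat_lit 1) (@Lb.r r1044 (@Lb.r r2153 (@Lb.r r104 (@Lb.r r2403 (@Lb.g g6 (@Lb.d (nat_lit 0) (nat_lit 4) (nat_lit 1) (@Lb.t (@Lb.fm (nat_lit 3) t58)))))))))
noncomputable def l18793 : Lb := (@Lb.d (nat_lit 9) (nat_lit 10) (nat_lit 130) (@Lb.g g8 (@Lb.g g9 (@Lb.g g10 (@Lb.g g11 (@Lb.r r387 (@Lb.r r40 (@Lb.r r2089 (@Lb.d (nat_lit 517) (nat_lit 0) (nat_lit 137) (@Lb.fp (nat_lit 9) t350))))))))))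
noncomputable def l18794 : Lb := (@Lb.r r82 (@Lb.r r275 (@Lb.d (nat_lit 2) (nat_lit 393) (nat_lit 0) (@Lb.g g8 (@Lb.g g5 (@Lb.r r291 (@Lb.r r98 (@Lb.r r24 (@Lb.d (nat_lit 546) (nat_lit 133) (nat_lit 32) (@Lb.fm (nat_lit 3) t1028))))))))))
noncomputable def l18795 : Lb := (@Lb.d (nat_lit 2) (nat_lit 522) (nat_lit 130) (@Lb.g g8 (@Lb.g g5 (@Lb.g g10 (@Lb.g g11 (@Lb.r r387 (@Lb.r r24 (@Lb.d (nat_lit 0) (nat_lit 64) (nat_lit 137) (@Lb.fp (nat_lit 9) t755)))))))))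
noncomputable def l18796 : Lb := (@Lb.r r2196 (@Lb.d (nat_lit 0) (nat_lit 4) (nat_lit 34) (@Lb.fp (nat_lit 1) t3791)))
noncomputable def l18797 : Lb := (@Lb.d (nat_lit 40) (nat_lit 1) (nat_lit 128) (@Lb.g g9 (@Lb.g g10 (@Lb.g g11 (@Lb.r r2435 (@Lb.r r2068 (@Lb.r r2153 (@Lb.r r2450 (@Lb.d (nat_lit 514) (nat_lit 149) (nat_lit 612) (@Lb.t (@Lb.fm (nat_lit 9) t386)))))))))))
noncomputable def l18798 : Lb := (@Lb.d (nat_lit 2) (nat_lit 512) (nat_lit 0) (@Lb.g g8 (@Lb.r r154 (@Lb.r r660 (@Lb.r r407 (@Lb.r r609 (@Lb.d (nat_lit 0) (nat_lit 65) (nat_lit 530) (@Lb.t (@Lb.fp (nat_lit 3) t44)))))))))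
noncomputable def l18799 : Lb := (@Lb.r r2196 (@Lb.d (nat_lit 0) (nat_lit 521) (nat_lit 32) (@Lb.fp (nat_lit 1) t3792)))
noncomputable def l18800 : Lb := (@Lb.d (nat_lit 0) (nat_lit 256) (nat_lit 73) (@Lb.g g10 (@Lb.g g11 (@Lb.r r2691 (@Lb.r r1610 (@Lb.r r164 (@Lb.r r85 (@Lb.d (nat_lit 357) (nat_lit 133) (nat_lit 645) (@Lb.fp (nat_lit 3) t3793)))))))))
noncomputable def l18801 : Lb := (@Lb.d (nat_lit 0) (nat_lit 256) (nat_lit 74) (@Lb.g g10 (@Lb.g g11 (@Lb.r r2707 (@Lb.r r2626 (@Lb.r r24 (@Lb.r r101 (@Lb.d (nat_lit 608) (nat_lit 102) (nat_lit 401) (@Lb.fp (nat_lit 3) t519)))))))))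
noncomputable def l18802 : Lb := (@Lb.d (nat_lit 0) (nat_lit 520) (nat_lit 73) (@Lb.g g10 (@Lb.g g11 (@Lb.r r1381 (@Lb.r r2707 (@Lb.r r2194 (@Lb.d (nat_lit 410) (nat_lit 154) (nat_lit 393) (@Lb.fp (nat_lit 3) t3794))))))))
noncomputable def l18803 : Lb := (@Lb.d (nat_lit 522) (nat_lit 320) (nat_lit 346) (@Lb.r r101 (@Lb.r r24 (@Lb.r r402 (@Lb.g g11 (@Lb.t (@Lb.fm (nat_lit 3) t1900)))))))
noncomputable def l18804 : Lb := (@Lb.d (nat_lit 2) (nat_lit 258) (nat_lit 130) (@Lb.g g8 (@Lb.g g9 (@Lb.g g10 (@Lb.g g11 (@Lb.r r1130 (@Lb.r r356 (@Lb.r r411 (@Lb.r r533 (@Lb.r r2084 (@Lb.d (nat_lit 161) (nat_lit 0) (nat_lit 354) (@Lb.fp (nat_lit 9) t145))))))))))))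
noncomputable def l18805 : Lb := (@Lb.d (nat_lit 9) (nat_lit 2) (nat_lit 73) (@Lb.g g8 (@Lb.g g9 (@Lb.g g10 (@Lb.g g11 (@Lb.r r2691 (@Lb.r r1642 (@Lb.r r289 (@Lb.r r2648 (@Lb.d (nat_lit 296) (nat_lit 149) (nat_lit 421) (@Lb.fm (nat_lit 9) t3795)))))))))))
noncomputable def l18806 : Lb := (@Lb.d (nat_lit 0) (nat_lit 514) (nat_lit 73) (@Lb.g g9 (@Lb.g g10 (@Lb.g g11 (@Lb.r r2691 (@Lb.r r1610 (@Lb.r r1320 (@Lb.r r1433 (@Lb.d (nat_lit 673) (nat_lit 130) (nat_lit 89) (@Lb.t (@Lb.fm (nat_lit 9) t3796)))))))))))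
noncomputable def l18807 : Lb := (@Lb.d (nat_lit 4) (nat_lit 513) (nat_lit 1) (@Lb.g g9 (@Lb.g g10 (@Lb.r r102 (@Lb.r r660 (@Lb.r r2727 (@Lb.r r2705 (@Lb.d (nat_lit 0) (nat_lit 68) (nat_lit 661) (@Lb.fp (nat_lit 3) t71)))))))))
noncomputable def l18808 : Lb := (@Lb.d (nat_lit 9) (nat_lit 32) (nat_lit 128) (@Lb.g g8 (@Lb.g g11 (@Lb.r r1109 (@Lb.r r2472 (@Lb.r r327 (@Lb.r r2178 (@Lb.d (nat_lit 610) (nat_lit 98) (nat_lit 361) (@Lb.fm (nat_lit 3) t296)))))))))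
noncomputable def l18809 : Lb := (@Lb.d (nat_lit 8) (nat_lit 514) (nat_lit 137) (@Lb.g g9 (@Lb.g g10 (@Lb.g g11 (@Lb.r r1411 (@Lb.r r98 (@Lb.r r24 (@Lb.d (nat_lit 0) (nat_lit 18) (nat_lit 296) (@Lb.t (@Lb.fp (nat_lit 9) t334))))))))))
noncomputable def l18810 : Lb := (@Lb.d (nat_lit 129) (nat_lit 260) (nat_lit 25) (@Lb.g g8 (@Lb.g g6 (@Lb.r r407 (@Lb.r r2145 (@Lb.r r1560 (@Lb.d (nat_lit 586) (nat_lit 98) (nat_lit 641) (@Lb.fp (nat_lit 3) t51))))))))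
noncomputable def l18811 : Lb := (@Lb.d (nat_lit 42) (nat_lit 512) (nat_lit 0) (@Lb.g g8 (@Lb.r r614 (@Lb.r r1637 (@Lb.r r1428 (@Lb.d (nat_lit 358) (nat_lit 9) (nat_lit 258) (@Lb.t (@Lb.fm (nat_lit 3) t572))))))))
noncomputable def l18812 : Lb := (@Lb.d (nat_lit 138) (nat_lit 512) (nat_lit 1) (@Lb.g g8 (@Lb.g g10 (@Lb.r r346 (@Lb.r r661 (@Lb.r r1431 (@Lb.r r2644 (@Lb.d (nat_lit 662) (nat_lit 42) (nat_lit 256) (@Lb.fm (nat_lit 3) t71)))))))))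
noncomputable def l18813 : Lb := (@Lb.d (nat_lit 8) (nat_lit 514) (nat_lit 73) (@Lb.g g9 (@Lb.g g10 (@Lb.g g11 (@Lb.r r419 (@Lb.r r98 (@Lb.d (nat_lit 2) (nat_lit 9) (nat_lit 68) (@Lb.t (@Lb.fm (nat_lit 9) t51)))))))))
noncomputable def l18814 : Lb := (@Lb.r r82 (@Lb.r r275 (@Lb.d (nat_lit 2) (nat_lit 649) (nat_lit 0) (@Lb.g g8 (@Lb.g g5 (@Lb.r r291 (@Lb.r r98 (@Lb.r r1096 (@Lb.d (nat_lit 546) (nat_lit 64) (nat_lit 66) (@Lb.fm (nat_lit 3) t3797))))))))))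
noncomputable def l18815 : Lb := (@Lb.r r90 (@Lb.r r283 (@Lb.d (nat_lit 1) (nat_lit 585) (nat_lit 0) (@Lb.g g8 (@Lb.g g5 (@Lb.r r2339 (@Lb.r r2146 (@Lb.r r2136 (@Lb.d (nat_lit 298) (nat_lit 70) (nat_lit 18) (@Lb.fm (nat_lit 3) t151))))))))))
noncomputable def l18816 : Lb := (@Lb.d (nat_lit 10) (nat_lit 514) (nat_lit 130) (@Lb.g g8 (@Lb.g g9 (@Lb.g g10 (@Lb.g g11 (@Lb.r r2475 (@Lb.r r2345 (@Lb.r r360 (@Lb.r r2118 (@Lb.r r1156 (@Lb.d (nat_lit 9) (nat_lit 169) (nat_lit 613) (@Lb.fp (nat_lit 9) t368))))))))))))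
noncomputable def l18817 : Lb := (@Lb.d (nat_lit 8) (nat_lit 258) (nat_lit 4) (@Lb.g g8 (@Lb.g g9 (@Lb.g g10 (@Lb.g g11 (@Lb.r r2391 (@Lb.r r2390 (@Lb.r r2145 (@Lb.r r24 (@Lb.d (nat_lit 154) (nat_lit 73) (nat_lit 345) (@Lb.fp (nat_lit 9) t335)))))))))))
noncomputable def l18818 : Lb := (@Lb.r r323 (@Lb.d (nat_lit 8) (nat_lit 258) (nat_lit 1) (@Lb.g g8 (@Lb.g g9 (@Lb.g g6 (@Lb.r r1323 (@Lb.r r2145 (@Lb.r r24 (@Lb.d (nat_lit 264) (nat_lit 73) (nat_lit 98) (@Lb.t (@Lb.fp (nat_lit 9) t1172)))))))))))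
noncomputable def l18819 : Lb := (@Lb.r r82 (@Lb.r r275 (@Lb.d (nat_lit 8) (nat_lit 641) (nat_lit 0) (@Lb.g g8 (@Lb.g g5 (@Lb.r r2651 (@Lb.r r386 (@Lb.r r24 (@Lb.d (nat_lit 264) (nat_lit 0) (nat_lit 2) (@Lb.fm (nat_lit 3) t1061))))))))))
noncomputable def l18820 : Lb := (@Lb.d (nat_lit 576) (nat_lit 32) (nat_lit 512) (@Lb.r r1284 (@Lb.r r1691 (@Lb.r r2726 (@Lb.r r165 (@Lb.g g5 (@Lb.g g4 (@Lb.d (nat_lit 0) (nat_lit 1) (nat_lit 0) (@Lb.fp (nat_lit 3) t2060)))))))))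
noncomputable def l18821 : Lb := (@Lb.r r2311 (@Lb.r r2118 (@Lb.r r25 (@Lb.r r36 (@Lb.d (nat_lit 518) (nat_lit 64) (nat_lit 0) (@Lb.fp (nat_lit 1) t710))))))
noncomputable def l18822 : Lb := (@Lb.d (nat_lit 1) (nat_lit 256) (nat_lit 66) (@Lb.g g8 (@Lb.g g9 (@Lb.g g10 (@Lb.g g7 (@Lb.r r386 (@Lb.r r105 (@Lb.r r36 (@Lb.d (nat_lit 41) (nat_lit 82) (nat_lit 265) (@Lb.fm (nat_lit 9) t845))))))))))
noncomputable def l18823 : Lb := (@Lb.r r89 (@Lb.r r166 (@Lb.r r344 (@Lb.r r679 (@Lb.r r657 (@Lb.d (nat_lit 538) (nat_lit 0) (nat_lit 145) (@Lb.fm (nat_lit 1) t1607)))))))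
noncomputable def l18824 : Lb := (@Lb.d (nat_lit 8) (nat_lit 546) (nat_lit 66) (@Lb.g g9 (@Lb.g g10 (@Lb.g g11 (@Lb.r r387 (@Lb.r r2136 (@Lb.r r2438 (@Lb.r r593 (@Lb.d (nat_lit 338) (nat_lit 38) (nat_lit 580) (@Lb.t (@Lb.fm (nat_lit 9) t1430)))))))))))
noncomputable def l18825 : Lb := (@Lb.d (nat_lit 2) (nat_lit 34) (nat_lit 66) (@Lb.g g8 (@Lb.g g9 (@Lb.g g10 (@Lb.g g11 (@Lb.r r1451 (@Lb.r r2154 (@Lb.r r2073 (@Lb.d (nat_lit 260) (nat_lit 136) (nat_lit 665) (@Lb.fp (nat_lit 9) t1117))))))))))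
noncomputable def l18826 : Lb := (@Lb.d (nat_lit 2) (nat_lit 292) (nat_lit 64) (@Lb.g g8 (@Lb.g g9 (@Lb.g g10 (@Lb.g g11 (@Lb.r r2730 (@Lb.r r2435 (@Lb.r r2212 (@Lb.r r2085 (@Lb.d (nat_lit 361) (nat_lit 68) (nat_lit 326) (@Lb.fp (nat_lit 9) t750)))))))))))
noncomputable def l18827 : Lb := (@Lb.d (nat_lit 2) (nat_lit 512) (nat_lit 0) (@Lb.g g8 (@Lb.r r89 (@Lb.r r166 (@Lb.r r344 (@Lb.r r679 (@Lb.r r657 (@Lb.d (nat_lit 538) (nat_lit 0) (nat_lit 145) (@Lb.t (@Lb.fm (nat_lit 3) t1607))))))))))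
noncomputable def l18828 : Lb := (@Lb.d (nat_lit 642) (nat_lit 329) (nat_lit 129) (@Lb.g g8 (@Lb.g g9 (@Lb.g g10 (@Lb.g g11 (@Lb.r r427 (@Lb.r r2154 (@Lb.d (nat_lit 554) (nat_lit 137) (nat_lit 409) (@Lb.fp (nat_lit 9) t3798)))))))))
noncomputable def l18829 : Lb := (@Lb.d (nat_lit 0) (nat_lit 258) (nat_lit 136) (@Lb.g g9 (@Lb.g g11 (@Lb.r r401 (@Lb.r r2454 (@Lb.r r2411 (@Lb.r r1096 (@Lb.d (nat_lit 521) (nat_lit 2) (nat_lit 0) (@Lb.fm (nat_lit 3) t414)))))))))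
noncomputable def l18830 : Lb := (@Lb.d (nat_lit 642) (nat_lit 2) (nat_lit 66) (@Lb.g g8 (@Lb.g g9 (@Lb.g g10 (@Lb.g g11 (@Lb.r r1451 (@Lb.r r106 (@Lb.r r25 (@Lb.d (nat_lit 0) (nat_lit 73) (nat_lit 425) (@Lb.fp (nat_lit 9) t842))))))))))
noncomputable def l18831 : Lb := (@Lb.d (nat_lit 10) (nat_lit 512) (nat_lit 73) (@Lb.g g8 (@Lb.g g10 (@Lb.g g11 (@Lb.r r2691 (@Lb.r r1109 (@Lb.r r2658 (@Lb.r r2436 (@Lb.d (nat_lit 610) (nat_lit 160) (nat_lit 662) (@Lb.t (@Lb.fp (nat_lit 9) t311)))))))))))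
noncomputable def l18832 : Lb := (@Lb.r r70 (@Lb.d (nat_lit 9) (nat_lit 0) (nat_lit 0) (@Lb.g g8 (@Lb.r r1563 (@Lb.r r346 (@Lb.r r2453 (@Lb.r r612 (@Lb.d (nat_lit 154) (nat_lit 104) (nat_lit 613) (@Lb.t (@Lb.fm (nat_lit 3) t50))))))))))
noncomputable def l18833 : Lb := (@Lb.d (nat_lit 257) (nat_lit 256) (nat_lit 676) (@Lb.r r24 (@Lb.r r2325 (@Lb.r r1682 (@Lb.r r323 (@Lb.g g7 (@Lb.g g6 (@Lb.g g5 (@Lb.d (nat_lit 0) (nat_lit 18) (nat_lit 129) (@Lb.t (@Lb.fp (nat_lit 9) t355)))))))))))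
noncomputable def l18834 : Lb := (@Lb.d (nat_lit 0) (nat_lit 0) (nat_lit 145) (@Lb.g g9 (@Lb.g g10 (@Lb.g g11 (@Lb.r r1419 (@Lb.r r1557 (@Lb.r r1416 (@Lb.d (nat_lit 530) (nat_lit 0) (nat_lit 17) (@Lb.t (@Lb.fp (nat_lit 9) t1743))))))))))
noncomputable def l18835 : Lb := (@Lb.d (nat_lit 128) (nat_lit 8) (nat_lit 128) (@Lb.g g9 (@Lb.g g11 (@Lb.r r264 (@Lb.r r519 (@Lb.r r1430 (@Lb.r r1365 (@Lb.d (nat_lit 38) (nat_lit 81) (nat_lit 170) (@Lb.fp (nat_lit 3) t3799)))))))))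
noncomputable def l18836 : Lb := (@Lb.d (nat_lit 38) (nat_lit 517) (nat_lit 130) (@Lb.g g8 (@Lb.g g9 (@Lb.g g10 (@Lb.g g11 (@Lb.r r427 (@Lb.r r1410 (@Lb.r r2152 (@Lb.r r2649 (@Lb.d (nat_lit 98) (nat_lit 34) (nat_lit 601) (@Lb.fp (nat_lit 9) t3800)))))))))))
noncomputable def l18837 : Lb := (@Lb.d (nat_lit 2) (nat_lit 256) (nat_lit 129) (@Lb.g g8 (@Lb.g g9 (@Lb.g g10 (@Lb.g g11 (@Lb.r r618 (@Lb.r r2659 (@Lb.r r2661 (@Lb.r r24 (@Lb.d (nat_lit 644) (nat_lit 97) (nat_lit 640) (@Lb.fm (nat_lit 9) t1253)))))))))))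
noncomputable def l18838 : Lb := (@Lb.d (nat_lit 2) (nat_lit 2) (nat_lit 130) (@Lb.g g8 (@Lb.g g9 (@Lb.g g10 (@Lb.g g11 (@Lb.r r427 (@Lb.r r417 (@Lb.r r98 (@Lb.r r24 (@Lb.d (nat_lit 74) (nat_lit 137) (nat_lit 324) (@Lb.fp (nat_lit 9) t2258)))))))))))
noncomputable def l18839 : Lb := (@Lb.d (nat_lit 362) (nat_lit 662) (nat_lit 72) (@Lb.r r356 (@Lb.r r2325 (@Lb.r r1643 (@Lb.g g10 (@Lb.g g5 (@Lb.g g4 (@Lb.d (nat_lit 18) (nat_lit 1) (nat_lit 18) (@Lb.r r387 (@Lb.t (@Lb.fp (nat_lit 9) t891)))))))))))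
noncomputable def l18840 : Lb := (@Lb.r r323 (@Lb.d (nat_lit 2) (nat_lit 260) (nat_lit 1) (@Lb.g g8 (@Lb.g g9 (@Lb.g g10 (@Lb.r r427 (@Lb.r r106 (@Lb.r r145 (@Lb.d (nat_lit 38) (nat_lit 1) (nat_lit 2) (@Lb.t (@Lb.fm (nat_lit 9) t3801)))))))))))
noncomputable def l18841 : Lb := (@Lb.r r21 (@Lb.r r323 (@Lb.d (nat_lit 33) (nat_lit 0) (nat_lit 1) (@Lb.g g8 (@Lb.g g10 (@Lb.r r2465 (@Lb.r r407 (@Lb.r r1162 (@Lb.r r2372 (@Lb.d (nat_lit 298) (nat_lit 128) (nat_lit 618) (@Lb.fm (nat_lit 3) t125)))))))))))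
noncomputable def l18842 : Lb := (@Lb.r r21 (@Lb.d (nat_lit 129) (nat_lit 0) (nat_lit 132) (@Lb.g g8 (@Lb.g g10 (@Lb.g g11 (@Lb.r r2375 (@Lb.r r362 (@Lb.r r97 (@Lb.r r2132 (@Lb.d (nat_lit 546) (nat_lit 162) (nat_lit 401) (@Lb.t (@Lb.fp (nat_lit 9) t2391))))))))))))
noncomputable def l18843 : Lb := (@Lb.d (nat_lit 2) (nat_lit 2) (nat_lit 130) (@Lb.g g8 (@Lb.g g9 (@Lb.g g10 (@Lb.g g11 (@Lb.r r2666 (@Lb.r r2664 (@Lb.r r2585 (@Lb.r r2651 (@Lb.d (nat_lit 361) (nat_lit 73) (nat_lit 134) (@Lb.fp (nat_lit 9) t2459)))))))))))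
noncomputable def l18844 : Lb := (@Lb.r r21 (@Lb.r r323 (@Lb.d (nat_lit 33) (nat_lit 512) (nat_lit 1) (@Lb.g g8 (@Lb.g g10 (@Lb.r r2465 (@Lb.r r407 (@Lb.r r1162 (@Lb.r r2372 (@Lb.d (nat_lit 288) (nat_lit 129) (nat_lit 618) (@Lb.fm (nat_lit 3) t125)))))))))))
noncomputable def l18845 : Lb := (@Lb.r r275 (@Lb.d (nat_lit 0) (nat_lit 258) (nat_lit 2) (@Lb.g g8 (@Lb.g g9 (@Lb.g g10 (@Lb.r r595 (@Lb.r r2154 (@Lb.r r2152 (@Lb.r r2073 (@Lb.d (nat_lit 581) (nat_lit 160) (nat_lit 256) (@Lb.t (@Lb.fm (nat_lit 9) t948))))))))))))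
noncomputable def l18846 : Lb := (@Lb.r r275 (@Lb.d (nat_lit 130) (nat_lit 258) (nat_lit 10) (@Lb.g g8 (@Lb.g g9 (@Lb.g g10 (@Lb.r r2387 (@Lb.r r405 (@Lb.r r1380 (@Lb.r r1610 (@Lb.d (nat_lit 34) (nat_lit 74) (nat_lit 521) (@Lb.t (@Lb.fm (nat_lit 9) t3802))))))))))))
noncomputable def l18847 : Lb := (@Lb.r r82 (@Lb.d (nat_lit 2) (nat_lit 258) (nat_lit 128) (@Lb.g g8 (@Lb.g g9 (@Lb.g g11 (@Lb.r r2395 (@Lb.r r361 (@Lb.r r1384 (@Lb.r r2630 (@Lb.d (nat_lit 520) (nat_lit 73) (nat_lit 1) (@Lb.t (@Lb.fm (nat_lit 9) t2189))))))))))))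
noncomputable def l18848 : Lb := (@Lb.d (nat_lit 0) (nat_lit 516) (nat_lit 1) (@Lb.g g6 (@Lb.d (nat_lit 5) (nat_lit 9) (nat_lit 2) (@Lb.t (@Lb.fm (nat_lit 3) t44)))))
noncomputable def l18849 : Lb := (@Lb.r r82 (@Lb.d (nat_lit 2) (nat_lit 2) (nat_lit 128) (@Lb.g g8 (@Lb.g g9 (@Lb.g g11 (@Lb.r r2395 (@Lb.r r361 (@Lb.r r1384 (@Lb.r r2630 (@Lb.d (nat_lit 520) (nat_lit 66) (nat_lit 2) (@Lb.t (@Lb.fm (nat_lit 9) t2189))))))))))))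
noncomputable def l18850 : Lb := (@Lb.d (nat_lit 582) (nat_lit 134) (nat_lit 320) (@Lb.r r2308 (@Lb.r r2325 (@Lb.r r1643 (@Lb.g g7 (@Lb.g g10 (@Lb.g g5 (@Lb.g g4 (@Lb.d (nat_lit 18) (nat_lit 8) (nat_lit 134) (@Lb.fp (nat_lit 9) t3803))))))))))
noncomputable def l18851 : Lb := (@Lb.d (nat_lit 0) (nat_lit 0) (nat_lit 2) (@Lb.g g9 (@Lb.g g10 (@Lb.r r2470 (@Lb.r r1624 (@Lb.r r2341 (@Lb.d (nat_lit 586) (nat_lit 130) (nat_lit 320) (@Lb.fp (nat_lit 3) t2118))))))))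
noncomputable def l18852 : Lb := (@Lb.d (nat_lit 618) (nat_lit 294) (nat_lit 20) (@Lb.r r2661 (@Lb.r r2659 (@Lb.g g7 (@Lb.g g10 (@Lb.g g5 (@Lb.d (nat_lit 0) (nat_lit 6) (nat_lit 82) (@Lb.r r36 (@Lb.t (@Lb.fm (nat_lit 9) t820))))))))))
noncomputable def l18853 : Lb := (@Lb.d (nat_lit 2) (nat_lit 513) (nat_lit 2) (@Lb.r r101 (@Lb.g g7 (@Lb.g g10 (@Lb.d (nat_lit 0) (nat_lit 8) (nat_lit 2) (@Lb.fm (nat_lit 3) t374))))))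
noncomputable def l18854 : Lb := (@Lb.d (nat_lit 517) (nat_lit 258) (nat_lit 128) (@Lb.r r1114 (@Lb.r r1307 (@Lb.g g5 (@Lb.d (nat_lit 4) (nat_lit 1) (nat_lit 0) (@Lb.t (@Lb.fm (nat_lit 3) t144)))))))
noncomputable def l18855 : Lb := (@Lb.d (nat_lit 617) (nat_lit 38) (nat_lit 20) (@Lb.r r2661 (@Lb.r r2659 (@Lb.g g7 (@Lb.g g10 (@Lb.g g5 (@Lb.d (nat_lit 0) (nat_lit 1) (nat_lit 81) (@Lb.r r36 (@Lb.t (@Lb.fm (nat_lit 9) t820))))))))))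
noncomputable def l18856 : Lb := (@Lb.d (nat_lit 324) (nat_lit 326) (nat_lit 321) (@Lb.r r24 (@Lb.r r2709 (@Lb.r r1450 (@Lb.r r2459 (@Lb.g g7 (@Lb.g g6 (@Lb.g g5 (@Lb.d (nat_lit 0) (nat_lit 2) (nat_lit 65) (@Lb.t (@Lb.fp (nat_lit 9) t1312)))))))))))
noncomputable def l18857 : Lb := (@Lb.d (nat_lit 129) (nat_lit 256) (nat_lit 34) (@Lb.g g8 (@Lb.g g6 (@Lb.r r519 (@Lb.r r2081 (@Lb.r r264 (@Lb.d (nat_lit 130) (nat_lit 145) (nat_lit 418) (@Lb.fm (nat_lit 3) t246))))))))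
noncomputable def l18858 : Lb := (@Lb.d (nat_lit 529) (nat_lit 512) (nat_lit 553) (@Lb.r r24 (@Lb.r r2650 (@Lb.r r405 (@Lb.r r355 (@Lb.g g7 (@Lb.g g6 (@Lb.d (nat_lit 0) (nat_lit 4) (nat_lit 64) (@Lb.fp (nat_lit 3) t927)))))))))
noncomputable def l18859 : Lb := (@Lb.d (nat_lit 38) (nat_lit 292) (nat_lit 66) (@Lb.g g8 (@Lb.g g9 (@Lb.g g10 (@Lb.g g11 (@Lb.r r2659 (@Lb.r r1606 (@Lb.r r1177 (@Lb.r r392 (@Lb.d (nat_lit 401) (nat_lit 33) (nat_lit 330) (@Lb.fp (nat_lit 9) t1000)))))))))))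
noncomputable def l18860 : Lb := (@Lb.d (nat_lit 5) (nat_lit 321) (nat_lit 1) (@Lb.r r289 (@Lb.r r279 (@Lb.r r584 (@Lb.g g6 (@Lb.d (nat_lit 16) (nat_lit 0) (nat_lit 1) (@Lb.r r387 (@Lb.t (@Lb.fm (nat_lit 3) t68)))))))))
noncomputable def l18861 : Lb := (@Lb.d (nat_lit 129) (nat_lit 2) (nat_lit 130) (@Lb.g g8 (@Lb.g g9 (@Lb.g g10 (@Lb.g g11 (@Lb.r r2666 (@Lb.r r2664 (@Lb.r r299 (@Lb.r r2337 (@Lb.d (nat_lit 521) (nat_lit 2) (nat_lit 426) (@Lb.fp (nat_lit 9) t631)))))))))))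
noncomputable def l18862 : Lb := (@Lb.d (nat_lit 128) (nat_lit 2) (nat_lit 130) (@Lb.g g8 (@Lb.g g9 (@Lb.g g10 (@Lb.g g11 (@Lb.r r419 (@Lb.r r344 (@Lb.r r1429 (@Lb.r r1110 (@Lb.r r2212 (@Lb.d (nat_lit 33) (nat_lit 98) (nat_lit 674) (@Lb.fm (nat_lit 9) t892))))))))))))
noncomputable def l18863 : Lb := (@Lb.d (nat_lit 0) (nat_lit 256) (nat_lit 73) (@Lb.g g10 (@Lb.g g11 (@Lb.r r642 (@Lb.r r2707 (@Lb.r r2626 (@Lb.d (nat_lit 0) (nat_lit 17) (nat_lit 276) (@Lb.fm (nat_lit 3) t305))))))))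
noncomputable def l18864 : Lb := (@Lb.r r323 (@Lb.d (nat_lit 32) (nat_lit 9) (nat_lit 1) (@Lb.g g8 (@Lb.g g9 (@Lb.g g10 (@Lb.r r2666 (@Lb.r r2391 (@Lb.r r1577 (@Lb.r r1556 (@Lb.d (nat_lit 384) (nat_lit 130) (nat_lit 256) (@Lb.t (@Lb.fp (nat_lit 9) t3804))))))))))))
noncomputable def l18865 : Lb := (@Lb.r r323 (@Lb.d (nat_lit 2) (nat_lit 290) (nat_lit 2) (@Lb.g g8 (@Lb.g g9 (@Lb.g g10 (@Lb.r r599 (@Lb.r r392 (@Lb.r r74 (@Lb.d (nat_lit 290) (nat_lit 2) (nat_lit 33) (@Lb.t (@Lb.fm (nat_lit 9) t61)))))))))))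
noncomputable def l18866 : Lb := (@Lb.d (nat_lit 0) (nat_lit 266) (nat_lit 6) (@Lb.g g9 (@Lb.g g10 (@Lb.g g11 (@Lb.r r1681 (@Lb.r r2706 (@Lb.r r387 (@Lb.d (nat_lit 0) (nat_lit 42) (nat_lit 385) (@Lb.t (@Lb.fp (nat_lit 9) t1250))))))))))
noncomputable def l18867 : Lb := (@Lb.d (nat_lit 42) (nat_lit 9) (nat_lit 1) (@Lb.r r169 (@Lb.r r150 (@Lb.r r343 (@Lb.g g6 (@Lb.g g5 (@Lb.g g4 (@Lb.d (nat_lit 1) (nat_lit 10) (nat_lit 0) (@Lb.r r291 (@Lb.t (@Lb.fp (nat_lit 9) t68)))))))))))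
noncomputable def l18868 : Lb := (@Lb.g g9 (@Lb.g g6 (@Lb.fp (nat_lit 3) t2)))
noncomputable def l18869 : Lb := (@Lb.d (nat_lit 128) (nat_lit 386) (nat_lit 130) (@Lb.g g9 (@Lb.g g10 (@Lb.g g11 (@Lb.r r260 (@Lb.r r523 (@Lb.r r1126 (@Lb.d (nat_lit 345) (nat_lit 130) (nat_lit 6) (@Lb.t (@Lb.fp (nat_lit 9) t3182))))))))))
noncomputable def l18870 : Lb := (@Lb.d (nat_lit 586) (nat_lit 657) (nat_lit 322) (@Lb.r r2344 (@Lb.r r1559 (@Lb.r r345 (@Lb.g g10 (@Lb.g g4 (@Lb.d (nat_lit 69) (nat_lit 0) (nat_lit 37) (@Lb.fp (nat_lit 3) t3067))))))))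
noncomputable def l18871 : Lb := (@Lb.d (nat_lit 0) (nat_lit 0) (nat_lit 4) (@Lb.g g10 (@Lb.g g11 (@Lb.r r1577 (@Lb.r r1124 (@Lb.r r586 (@Lb.r r1379 (@Lb.d (nat_lit 362) (nat_lit 169) (nat_lit 576) (@Lb.fp (nat_lit 3) t3805)))))))))
noncomputable def l18872 : Lb := (@Lb.d (nat_lit 9) (nat_lit 288) (nat_lit 130) (@Lb.g g8 (@Lb.g g9 (@Lb.g g10 (@Lb.g g11 (@Lb.r r1689 (@Lb.r r531 (@Lb.r r386 (@Lb.r r24 (@Lb.d (nat_lit 598) (nat_lit 40) (nat_lit 601) (@Lb.fm (nat_lit 9) t855)))))))))))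
noncomputable def l18873 : Lb := (@Lb.d (nat_lit 0) (nat_lit 256) (nat_lit 65) (@Lb.r r24 (@Lb.r r101 (@Lb.g g6 (@Lb.d (nat_lit 0) (nat_lit 4) (nat_lit 6) (@Lb.t (@Lb.fm (nat_lit 3) t70)))))))
noncomputable def l18874 : Lb := (@Lb.d (nat_lit 641) (nat_lit 514) (nat_lit 130) (@Lb.g g8 (@Lb.g g9 (@Lb.g g10 (@Lb.g g11 (@Lb.r r1451 (@Lb.r r106 (@Lb.r r25 (@Lb.d (nat_lit 1) (nat_lit 10) (nat_lit 425) (@Lb.fp (nat_lit 9) t1792))))))))))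
noncomputable def l18875 : Lb := (@Lb.d (nat_lit 2) (nat_lit 289) (nat_lit 66) (@Lb.g g8 (@Lb.g g9 (@Lb.g g10 (@Lb.g g11 (@Lb.r r2666 (@Lb.r r2664 (@Lb.r r587 (@Lb.r r2449 (@Lb.d (nat_lit 97) (nat_lit 32) (nat_lit 358) (@Lb.fp (nat_lit 9) t587)))))))))))
noncomputable def l18876 : Lb := (@Lb.d (nat_lit 2) (nat_lit 2) (nat_lit 2) (@Lb.g g8 (@Lb.g g9 (@Lb.g g10 (@Lb.g g11 (@Lb.r r2459 (@Lb.r r106 (@Lb.r r25 (@Lb.d (nat_lit 105) (nat_lit 33) (nat_lit 665) (@Lb.fp (nat_lit 9) t3806))))))))))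
noncomputable def l18877 : Lb := (@Lb.d (nat_lit 2) (nat_lit 33) (nat_lit 66) (@Lb.g g8 (@Lb.g g9 (@Lb.g g10 (@Lb.g g11 (@Lb.r r2666 (@Lb.r r2664 (@Lb.r r587 (@Lb.r r2449 (@Lb.d (nat_lit 97) (nat_lit 37) (nat_lit 356) (@Lb.fp (nat_lit 9) t587)))))))))))
noncomputable def l18878 : Lb := (@Lb.r r275 (@Lb.d (nat_lit 130) (nat_lit 512) (nat_lit 17) (@Lb.g g8 (@Lb.g g9 (@Lb.g g10 (@Lb.r r391 (@Lb.r r2193 (@Lb.r r1636 (@Lb.d (nat_lit 410) (nat_lit 154) (nat_lit 680) (@Lb.t (@Lb.fm (nat_lit 9) t3240)))))))))))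
noncomputable def l18879 : Lb := (@Lb.d (nat_lit 392) (nat_lit 400) (nat_lit 644) (@Lb.r r2321 (@Lb.r r2371 (@Lb.r r2726 (@Lb.g g7 (@Lb.g g6 (@Lb.g g5 (@Lb.g g8 (@Lb.d (nat_lit 330) (nat_lit 5) (nat_lit 66) (@Lb.fp (nat_lit 9) t4))))))))))
noncomputable def l18880 : Lb := (@Lb.d (nat_lit 0) (nat_lit 170) (nat_lit 38) (@Lb.r r2451 (@Lb.r r402 (@Lb.r r2641 (@Lb.g g11 (@Lb.g g6 (@Lb.fm (nat_lit 3) t3807)))))))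
noncomputable def l18881 : Lb := (@Lb.d (nat_lit 2) (nat_lit 34) (nat_lit 65) (@Lb.g g8 (@Lb.g g9 (@Lb.g g10 (@Lb.g g11 (@Lb.r r660 (@Lb.r r1638 (@Lb.r r1637 (@Lb.r r2407 (@Lb.r r1156 (@Lb.d (nat_lit 394) (nat_lit 33) (nat_lit 266) (@Lb.fm (nat_lit 9) t895))))))))))))
noncomputable def l18882 : Lb := (@Lb.r r275 (@Lb.d (nat_lit 129) (nat_lit 256) (nat_lit 17) (@Lb.g g8 (@Lb.g g9 (@Lb.g g10 (@Lb.r r391 (@Lb.r r2193 (@Lb.r r1636 (@Lb.d (nat_lit 410) (nat_lit 154) (nat_lit 614) (@Lb.t (@Lb.fm (nat_lit 9) t3240)))))))))))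
noncomputable def l18883 : Lb := (@Lb.d (nat_lit 34) (nat_lit 256) (nat_lit 0) (@Lb.g g4 (@Lb.r r426 (@Lb.r r289 (@Lb.r r680 (@Lb.d (nat_lit 169) (nat_lit 138) (nat_lit 73) (@Lb.t (@Lb.fp (nat_lit 3) t1115))))))))
noncomputable def l18884 : Lb := (@Lb.d (nat_lit 1) (nat_lit 256) (nat_lit 2) (@Lb.g g8 (@Lb.g g9 (@Lb.g g10 (@Lb.r r2731 (@Lb.r r1642 (@Lb.r r1561 (@Lb.r r2628 (@Lb.d (nat_lit 169) (nat_lit 133) (nat_lit 410) (@Lb.t (@Lb.fp (nat_lit 9) t3808)))))))))))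
noncomputable def l18885 : Lb := (@Lb.d (nat_lit 0) (nat_lit 0) (nat_lit 68) (@Lb.g g7 (@Lb.r r402 (@Lb.r r101 (@Lb.r r24 (@Lb.d (nat_lit 322) (nat_lit 5) (nat_lit 577) (@Lb.t (@Lb.fp (nat_lit 3) t145))))))))
noncomputable def l18886 : Lb := (@Lb.d (nat_lit 8) (nat_lit 2) (nat_lit 2) (@Lb.g g9 (@Lb.g g10 (@Lb.g g7 (@Lb.r r386 (@Lb.r r24 (@Lb.d (nat_lit 610) (nat_lit 2) (nat_lit 537) (@Lb.t (@Lb.fp (nat_lit 9) t698)))))))))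
noncomputable def l18887 : Lb := (@Lb.d (nat_lit 1) (nat_lit 512) (nat_lit 2) (@Lb.g g8 (@Lb.g g9 (@Lb.g g10 (@Lb.r r2731 (@Lb.r r1642 (@Lb.r r1561 (@Lb.r r2628 (@Lb.d (nat_lit 169) (nat_lit 128) (nat_lit 409) (@Lb.t (@Lb.fp (nat_lit 9) t3808)))))))))))
noncomputable def l18888 : Lb := (@Lb.r r82 (@Lb.d (nat_lit 0) (nat_lit 529) (nat_lit 68) (@Lb.g g9 (@Lb.g g7 (@Lb.r r386 (@Lb.r r161 (@Lb.d (nat_lit 0) (nat_lit 10) (nat_lit 65) (@Lb.fp (nat_lit 3) t1219))))))))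
noncomputable def l18889 : Lb := (@Lb.d (nat_lit 0) (nat_lit 256) (nat_lit 68) (@Lb.g g7 (@Lb.r r402 (@Lb.r r101 (@Lb.r r24 (@Lb.d (nat_lit 321) (nat_lit 5) (nat_lit 577) (@Lb.t (@Lb.fp (nat_lit 3) t145))))))))
noncomputable def l18890 : Lb := (@Lb.d (nat_lit 1) (nat_lit 512) (nat_lit 2) (@Lb.g g8 (@Lb.g g9 (@Lb.g g10 (@Lb.r r2731 (@Lb.r r1642 (@Lb.r r1561 (@Lb.r r2628 (@Lb.d (nat_lit 169) (nat_lit 133) (nat_lit 341) (@Lb.t (@Lb.fp (nat_lit 9) t3809)))))))))))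
noncomputable def l18891 : Lb := (@Lb.r r323 (@Lb.d (nat_lit 2) (nat_lit 2) (nat_lit 2) (@Lb.g g8 (@Lb.g g9 (@Lb.g g10 (@Lb.r r1687 (@Lb.r r2154 (@Lb.r r97 (@Lb.r r24 (@Lb.d (nat_lit 8) (nat_lit 9) (nat_lit 17) (@Lb.t (@Lb.fp (nat_lit 9) t61))))))))))))
noncomputable def l18892 : Lb := (@Lb.d (nat_lit 8) (nat_lit 514) (nat_lit 73) (@Lb.g g9 (@Lb.g g10 (@Lb.g g11 (@Lb.r r419 (@Lb.r r674 (@Lb.d (nat_lit 2) (nat_lit 132) (nat_lit 392) (@Lb.t (@Lb.fp (nat_lit 9) t51)))))))))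
noncomputable def l18893 : Lb := (@Lb.d (nat_lit 2) (nat_lit 0) (nat_lit 0) (@Lb.r r24 (@Lb.r r101 (@Lb.r r323 (@Lb.g g10 (@Lb.d (nat_lit 0) (nat_lit 8) (nat_lit 1) (@Lb.r r387 (@Lb.t (@Lb.fp (nat_lit 3) t546)))))))))
noncomputable def l18894 : Lb := (@Lb.d (nat_lit 2) (nat_lit 265) (nat_lit 65) (@Lb.g g8 (@Lb.g g9 (@Lb.g g10 (@Lb.g g11 (@Lb.r r2705 (@Lb.r r347 (@Lb.r r1674 (@Lb.r r2120 (@Lb.d (nat_lit 392) (nat_lit 2) (nat_lit 342) (@Lb.fp (nat_lit 9) t3810)))))))))))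
noncomputable def l18895 : Lb := (@Lb.d (nat_lit 2) (nat_lit 521) (nat_lit 129) (@Lb.g g8 (@Lb.g g9 (@Lb.g g10 (@Lb.g g11 (@Lb.r r2705 (@Lb.r r347 (@Lb.r r1674 (@Lb.r r2120 (@Lb.d (nat_lit 385) (nat_lit 0) (nat_lit 342) (@Lb.fp (nat_lit 9) t3810)))))))))))
noncomputable def l18896 : Lb := (@Lb.d (nat_lit 2) (nat_lit 265) (nat_lit 73) (@Lb.g g8 (@Lb.g g9 (@Lb.g g10 (@Lb.g g11 (@Lb.r r2731 (@Lb.r r2724 (@Lb.r r1158 (@Lb.r r97 (@Lb.d (nat_lit 289) (nat_lit 105) (nat_lit 673) (@Lb.fm (nat_lit 9) t1038)))))))))))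
noncomputable def l18897 : Lb := (@Lb.d (nat_lit 545) (nat_lit 5) (nat_lit 18) (@Lb.r r2341 (@Lb.r r1624 (@Lb.r r1627 (@Lb.g g6 (@Lb.g g5 (@Lb.d (nat_lit 20) (nat_lit 1) (nat_lit 37) (@Lb.r r387 (@Lb.fp (nat_lit 3) t3811)))))))))
noncomputable def l18898 : Lb := (@Lb.d (nat_lit 2) (nat_lit 9) (nat_lit 129) (@Lb.g g8 (@Lb.g g9 (@Lb.g g10 (@Lb.g g11 (@Lb.r r264 (@Lb.r r1431 (@Lb.r r1169 (@Lb.r r1618 (@Lb.r r132 (@Lb.d (nat_lit 10) (nat_lit 160) (nat_lit 598) (@Lb.fm (nat_lit 9) t539))))))))))))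
noncomputable def l18899 : Lb := (@Lb.d (nat_lit 2) (nat_lit 265) (nat_lit 129) (@Lb.g g8 (@Lb.g g9 (@Lb.g g10 (@Lb.g g11 (@Lb.r r264 (@Lb.r r1431 (@Lb.r r1169 (@Lb.r r1618 (@Lb.r r132 (@Lb.d (nat_lit 0) (nat_lit 166) (nat_lit 596) (@Lb.fm (nat_lit 9) t539))))))))))))
noncomputable def l18900 : Lb := (@Lb.d (nat_lit 2) (nat_lit 521) (nat_lit 129) (@Lb.g g8 (@Lb.g g9 (@Lb.g g10 (@Lb.g g11 (@Lb.r r264 (@Lb.r r1431 (@Lb.r r1169 (@Lb.r r1618 (@Lb.r r132 (@Lb.d (nat_lit 10) (nat_lit 165) (nat_lit 596) (@Lb.fm (nat_lit 9) t539))))))))))))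
noncomputable def l18901 : Lb := (@Lb.r r82 (@Lb.d (nat_lit 73) (nat_lit 545) (nat_lit 64) (@Lb.g g8 (@Lb.g g9 (@Lb.g g11 (@Lb.r r1571 (@Lb.r r2442 (@Lb.r r1065 (@Lb.r r2468 (@Lb.d (nat_lit 42) (nat_lit 168) (nat_lit 612) (@Lb.t (@Lb.fp (nat_lit 9) t3812))))))))))))
noncomputable def l18902 : Lb := (@Lb.d (nat_lit 2) (nat_lit 9) (nat_lit 130) (@Lb.g g8 (@Lb.g g9 (@Lb.g g10 (@Lb.g g11 (@Lb.r r2731 (@Lb.r r2724 (@Lb.r r1158 (@Lb.r r97 (@Lb.d (nat_lit 289) (nat_lit 105) (nat_lit 673) (@Lb.fm (nat_lit 9) t1038)))))))))))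
noncomputable def l18903 : Lb := (@Lb.d (nat_lit 2) (nat_lit 265) (nat_lit 65) (@Lb.g g8 (@Lb.g g9 (@Lb.g g10 (@Lb.g g11 (@Lb.r r520 (@Lb.r r2667 (@Lb.r r1641 (@Lb.r r2710 (@Lb.r r164 (@Lb.d (nat_lit 645) (nat_lit 130) (nat_lit 342) (@Lb.fp (nat_lit 9) t3813))))))))))))
noncomputable def l18904 : Lb := (@Lb.d (nat_lit 281) (nat_lit 512) (nat_lit 1) (@Lb.r r2118 (@Lb.r r1172 (@Lb.g g5 (@Lb.d (nat_lit 8) (nat_lit 133) (nat_lit 0) (@Lb.t (@Lb.fm (nat_lit 3) t3814)))))))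
noncomputable def l18905 : Lb := (@Lb.r r323 (@Lb.d (nat_lit 2) (nat_lit 290) (nat_lit 2) (@Lb.g g8 (@Lb.g g9 (@Lb.g g10 (@Lb.r r599 (@Lb.r r74 (@Lb.r r296 (@Lb.r r409 (@Lb.d (nat_lit 152) (nat_lit 150) (nat_lit 393) (@Lb.t (@Lb.fm (nat_lit 9) t51))))))))))))
noncomputable def l18906 : Lb := (@Lb.d (nat_lit 144) (nat_lit 641) (nat_lit 289) (@Lb.r r24 (@Lb.r r2085 (@Lb.r r1122 (@Lb.g g7 (@Lb.d (nat_lit 0) (nat_lit 32) (nat_lit 324) (@Lb.t (@Lb.fm (nat_lit 3) t51))))))))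
noncomputable def l18907 : Lb := (@Lb.r r323 (@Lb.d (nat_lit 2) (nat_lit 34) (nat_lit 2) (@Lb.g g8 (@Lb.g g9 (@Lb.g g10 (@Lb.r r599 (@Lb.r r74 (@Lb.r r296 (@Lb.r r409 (@Lb.d (nat_lit 149) (nat_lit 149) (nat_lit 393) (@Lb.t (@Lb.fm (nat_lit 9) t51))))))))))))
noncomputable def l18908 : Lb := (@Lb.d (nat_lit 2) (nat_lit 2) (nat_lit 130) (@Lb.g g8 (@Lb.g g9 (@Lb.g g10 (@Lb.g g11 (@Lb.r r427 (@Lb.r r297 (@Lb.r r104 (@Lb.r r70 (@Lb.r r132 (@Lb.d (nat_lit 2) (nat_lit 74) (nat_lit 393) (@Lb.fp (nat_lit 9) t51))))))))))))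
noncomputable def l18909 : Lb := (@Lb.d (nat_lit 101) (nat_lit 420) (nat_lit 32) (@Lb.r r408 (@Lb.r r330 (@Lb.r r343 (@Lb.g g5 (@Lb.g g4 (@Lb.d (nat_lit 17) (nat_lit 4) (nat_lit 0) (@Lb.r r291 (@Lb.r r98 (@Lb.fp (nat_lit 3) t50))))))))))
noncomputable def l18910 : Lb := (@Lb.r r21 (@Lb.r r70 (@Lb.r r2311 (@Lb.g g8 (@Lb.r r2084 (@Lb.r r101 (@Lb.r r2450 (@Lb.d (nat_lit 0) (nat_lit 256) (nat_lit 16) (@Lb.t (@Lb.fp (nat_lit 3) t1817))))))))))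
noncomputable def l18911 : Lb := (@Lb.d (nat_lit 0) (nat_lit 426) (nat_lit 273) (@Lb.r r1169 (@Lb.r r594 (@Lb.r r2311 (@Lb.r r2660 (@Lb.g g5 (@Lb.d (nat_lit 4) (nat_lit 1) (nat_lit 0) (@Lb.t (@Lb.fm (nat_lit 3) t2420)))))))))
noncomputable def l18912 : Lb := (@Lb.d (nat_lit 10) (nat_lit 264) (nat_lit 130) (@Lb.g g8 (@Lb.g g10 (@Lb.g g11 (@Lb.r r2385 (@Lb.r r1703 (@Lb.r r614 (@Lb.r r2308 (@Lb.d (nat_lit 338) (nat_lit 10) (nat_lit 529) (@Lb.t (@Lb.fp (nat_lit 9) t748)))))))))))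
noncomputable def l18913 : Lb := (@Lb.d (nat_lit 81) (nat_lit 389) (nat_lit 265) (@Lb.r r361 (@Lb.r r292 (@Lb.r r426 (@Lb.g g11 (@Lb.g g5 (@Lb.d (nat_lit 4) (nat_lit 17) (nat_lit 264) (@Lb.r r578 (@Lb.fp (nat_lit 3) t3781)))))))))
noncomputable def l18914 : Lb := (@Lb.d (nat_lit 2) (nat_lit 2) (nat_lit 66) (@Lb.g g8 (@Lb.g g9 (@Lb.g g10 (@Lb.g g11 (@Lb.r r2327 (@Lb.r r2666 (@Lb.r r2585 (@Lb.d (nat_lit 329) (nat_lit 160) (nat_lit 146) (@Lb.fp (nat_lit 9) t324))))))))))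
noncomputable def l18915 : Lb := (@Lb.d (nat_lit 128) (nat_lit 0) (nat_lit 64) (@Lb.g g11 (@Lb.r r2393 (@Lb.r r344 (@Lb.r r423 (@Lb.r r2150 (@Lb.d (nat_lit 261) (nat_lit 8) (nat_lit 392) (@Lb.t (@Lb.fm (nat_lit 3) t2772)))))))))
noncomputable def l18916 : Lb := (@Lb.d (nat_lit 2) (nat_lit 256) (nat_lit 66) (@Lb.g g8 (@Lb.g g9 (@Lb.g g10 (@Lb.g g11 (@Lb.r r279 (@Lb.r r1642 (@Lb.r r1561 (@Lb.d (nat_lit 585) (nat_lit 106) (nat_lit 401) (@Lb.fp (nat_lit 9) t324))))))))))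
noncomputable def l18917 : Lb := (@Lb.d (nat_lit 2) (nat_lit 0) (nat_lit 66) (@Lb.g g8 (@Lb.g g9 (@Lb.g g10 (@Lb.g g11 (@Lb.r r279 (@Lb.r r1642 (@Lb.r r1561 (@Lb.d (nat_lit 585) (nat_lit 96) (nat_lit 402) (@Lb.fp (nat_lit 9) t324))))))))))
noncomputable def l18918 : Lb := (@Lb.d (nat_lit 32) (nat_lit 264) (nat_lit 66) (@Lb.g g10 (@Lb.g g11 (@Lb.r r2393 (@Lb.r r344 (@Lb.r r423 (@Lb.r r2406 (@Lb.d (nat_lit 592) (nat_lit 42) (nat_lit 661) (@Lb.fp (nat_lit 3) t748)))))))))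
noncomputable def l18919 : Lb := (@Lb.d (nat_lit 2) (nat_lit 102) (nat_lit 548) (@Lb.r r1633 (@Lb.r r2659 (@Lb.g g7 (@Lb.g g10 (@Lb.g g5 (@Lb.g g8 (@Lb.d (nat_lit 2) (nat_lit 5) (nat_lit 82) (@Lb.fp (nat_lit 9) t324)))))))))
noncomputable def l18920 : Lb := (@Lb.r r82 (@Lb.d (nat_lit 0) (nat_lit 522) (nat_lit 0) (@Lb.g g5 (@Lb.r r1642 (@Lb.r r1640 (@Lb.r r1561 (@Lb.d (nat_lit 389) (nat_lit 33) (nat_lit 0) (@Lb.t (@Lb.fp (nat_lit 3) t2073)))))))))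
noncomputable def l18921 : Lb := (@Lb.d (nat_lit 258) (nat_lit 385) (nat_lit 2) (@Lb.r r101 (@Lb.r r2403 (@Lb.g g10 (@Lb.d (nat_lit 0) (nat_lit 8) (nat_lit 2) (@Lb.t (@Lb.fm (nat_lit 3) t3477)))))))
noncomputable def l18922 : Lb := (@Lb.d (nat_lit 0) (nat_lit 256) (nat_lit 2) (@Lb.g g9 (@Lb.g g10 (@Lb.g g7 (@Lb.r r386 (@Lb.r r1617 (@Lb.d (nat_lit 0) (nat_lit 100) (nat_lit 410) (@Lb.t (@Lb.fm (nat_lit 9) t2931)))))))))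
noncomputable def l18923 : Lb := (@Lb.d (nat_lit 0) (nat_lit 258) (nat_lit 130) (@Lb.g g9 (@Lb.g g10 (@Lb.g g11 (@Lb.r r427 (@Lb.r r1442 (@Lb.r r1320 (@Lb.r r1433 (@Lb.d (nat_lit 662) (nat_lit 36) (nat_lit 420) (@Lb.t (@Lb.fm (nat_lit 9) t1828)))))))))))
noncomputable def l18924 : Lb := (@Lb.d (nat_lit 0) (nat_lit 256) (nat_lit 2) (@Lb.g g10 (@Lb.g g7 (@Lb.r r386 (@Lb.r r101 (@Lb.r r24 (@Lb.d (nat_lit 577) (nat_lit 0) (nat_lit 537) (@Lb.fm (nat_lit 3) t1150))))))))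
noncomputable def l18925 : Lb := (@Lb.d (nat_lit 144) (nat_lit 321) (nat_lit 640) (@Lb.r r101 (@Lb.r r24 (@Lb.r r402 (@Lb.g g11 (@Lb.g g6 (@Lb.g g9 (@Lb.t (@Lb.fm (nat_lit 9) t3815)))))))))
noncomputable def l18926 : Lb := (@Lb.r r20 (@Lb.r r82 (@Lb.g g5 (@Lb.r r296 (@Lb.r r279 (@Lb.r r2438 (@Lb.r r545 (@Lb.d (nat_lit 512) (nat_lit 648) (nat_lit 2) (@Lb.t (@Lb.fp (nat_lit 3) t42))))))))))
noncomputable def l18927 : Lb := (@Lb.r r82 (@Lb.d (nat_lit 9) (nat_lit 544) (nat_lit 64) (@Lb.g g8 (@Lb.g g9 (@Lb.g g11 (@Lb.r r1561 (@Lb.r r531 (@Lb.r r98 (@Lb.r r24 (@Lb.d (nat_lit 641) (nat_lit 89) (nat_lit 578) (@Lb.t (@Lb.fm (nat_lit 9) t3222))))))))))))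
noncomputable def l18928 : Lb := (@Lb.r r82 (@Lb.d (nat_lit 41) (nat_lit 612) (nat_lit 64) (@Lb.g g8 (@Lb.g g9 (@Lb.g g11 (@Lb.r r150 (@Lb.r r596 (@Lb.r r615 (@Lb.d (nat_lit 154) (nat_lit 89) (nat_lit 293) (@Lb.t (@Lb.fm (nat_lit 9) t375)))))))))))
noncomputable def l18929 : Lb := (@Lb.g g5 (@Lb.g g7 (@Lb.r r402 (@Lb.r r24 (@Lb.r r101 (@Lb.d (nat_lit 101) (nat_lit 384) (nat_lit 320) (@Lb.fp (nat_lit 3) t1628)))))))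
noncomputable def l18930 : Lb := (@Lb.d (nat_lit 0) (nat_lit 514) (nat_lit 66) (@Lb.g g9 (@Lb.g g10 (@Lb.g g11 (@Lb.r r427 (@Lb.r r386 (@Lb.r r97 (@Lb.d (nat_lit 130) (nat_lit 154) (nat_lit 137) (@Lb.t (@Lb.fm (nat_lit 9) t1231))))))))))
noncomputable def l18931 : Lb := (@Lb.d (nat_lit 293) (nat_lit 394) (nat_lit 34) (@Lb.r r24 (@Lb.r r2341 (@Lb.r r2470 (@Lb.r r339 (@Lb.g g7 (@Lb.g g6 (@Lb.g g5 (@Lb.d (nat_lit 0) (nat_lit 0) (nat_lit 65) (@Lb.t (@Lb.fm (nat_lit 9) t3816)))))))))))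
noncomputable def l18932 : Lb := (@Lb.r r90 (@Lb.d (nat_lit 128) (nat_lit 528) (nat_lit 0) (@Lb.g g8 (@Lb.g g9 (@Lb.g g11 (@Lb.r r1579 (@Lb.r r618 (@Lb.r r1561 (@Lb.r r1540 (@Lb.d (nat_lit 393) (nat_lit 1) (nat_lit 640) (@Lb.t (@Lb.fp (nat_lit 9) t3152))))))))))))
noncomputable def l18933 : Lb := (@Lb.r r21 (@Lb.r r322 (@Lb.d (nat_lit 137) (nat_lit 512) (nat_lit 260) (@Lb.g g8 (@Lb.g g7 (@Lb.r r410 (@Lb.r r2149 (@Lb.r r1172 (@Lb.d (nat_lit 294) (nat_lit 73) (nat_lit 98) (@Lb.fp (nat_lit 3) t58))))))))))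
noncomputable def l18934 : Lb := (@Lb.d (nat_lit 0) (nat_lit 576) (nat_lit 1) (@Lb.r r24 (@Lb.r r2341 (@Lb.r r1371 (@Lb.g g7 (@Lb.g g6 (@Lb.g g5 (@Lb.d (nat_lit 16) (nat_lit 0) (nat_lit 97) (@Lb.t (@Lb.fp (nat_lit 9) t3817))))))))))
noncomputable def l18935 : Lb := (@Lb.d (nat_lit 0) (nat_lit 290) (nat_lit 66) (@Lb.g g9 (@Lb.g g10 (@Lb.g g11 (@Lb.r r419 (@Lb.r r1122 (@Lb.r r2072 (@Lb.r r1125 (@Lb.d (nat_lit 277) (nat_lit 26) (nat_lit 148) (@Lb.t (@Lb.fm (nat_lit 9) t1343)))))))))))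
noncomputable def l18936 : Lb := (@Lb.r r275 (@Lb.d (nat_lit 132) (nat_lit 256) (nat_lit 2) (@Lb.g g8 (@Lb.g g9 (@Lb.g g10 (@Lb.r r599 (@Lb.r r98 (@Lb.r r324 (@Lb.d (nat_lit 82) (nat_lit 9) (nat_lit 26) (@Lb.t (@Lb.fp (nat_lit 9) t390)))))))))))
noncomputable def l18937 : Lb := (@Lb.r r82 (@Lb.r r275 (@Lb.d (nat_lit 4) (nat_lit 608) (nat_lit 0) (@Lb.g g8 (@Lb.g g9 (@Lb.r r1559 (@Lb.r r1606 (@Lb.r r2436 (@Lb.d (nat_lit 65) (nat_lit 2) (nat_lit 544) (@Lb.fp (nat_lit 3) t981))))))))))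
noncomputable def l18938 : Lb := (@Lb.d (nat_lit 0) (nat_lit 256) (nat_lit 130) (@Lb.g g10 (@Lb.g g11 (@Lb.r r419 (@Lb.r r386 (@Lb.d (nat_lit 5) (nat_lit 41) (nat_lit 2) (@Lb.fp (nat_lit 3) t369)))))))
noncomputable def l18939 : Lb := (@Lb.d (nat_lit 152) (nat_lit 16) (nat_lit 529) (@Lb.r r405 (@Lb.r r682 (@Lb.r r2647 (@Lb.g g7 (@Lb.g g6 (@Lb.g g5 (@Lb.g g4 (@Lb.d (nat_lit 1) (nat_lit 18) (nat_lit 65) (@Lb.fp (nat_lit 9) t954))))))))))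
noncomputable def l18940 : Lb := (@Lb.d (nat_lit 0) (nat_lit 0) (nat_lit 128) (@Lb.g g10 (@Lb.g g11 (@Lb.r r387 (@Lb.r r402 (@Lb.d (nat_lit 5) (nat_lit 5) (nat_lit 2) (@Lb.fp (nat_lit 3) t354)))))))
noncomputable def l18941 : Lb := (@Lb.d (nat_lit 0) (nat_lit 0) (nat_lit 136) (@Lb.g g11 (@Lb.r r1617 (@Lb.r r354 (@Lb.r r1427 (@Lb.d (nat_lit 273) (nat_lit 145) (nat_lit 392) (@Lb.t (@Lb.fp (nat_lit 3) t932))))))))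
noncomputable def l18942 : Lb := (@Lb.d (nat_lit 0) (nat_lit 512) (nat_lit 136) (@Lb.g g11 (@Lb.r r402 (@Lb.d (nat_lit 5) (nat_lit 86) (nat_lit 649) (@Lb.t (@Lb.fm (nat_lit 3) t387))))))
noncomputable def l18943 : Lb := (@Lb.d (nat_lit 5) (nat_lit 544) (nat_lit 512) (@Lb.g g4 (@Lb.g g7 (@Lb.d (nat_lit 1) (nat_lit 144) (nat_lit 320) (@Lb.fm (nat_lit 3) t591)))))
noncomputable def l18944 : Lb := (@Lb.d (nat_lit 4) (nat_lit 512) (nat_lit 66) (@Lb.g g8 (@Lb.g g9 (@Lb.g g10 (@Lb.g g7 (@Lb.r r386 (@Lb.r r97 (@Lb.r r24 (@Lb.d (nat_lit 10) (nat_lit 89) (nat_lit 265) (@Lb.fp (nat_lit 9) t845))))))))))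
noncomputable def l18945 : Lb := (@Lb.d (nat_lit 129) (nat_lit 2) (nat_lit 130) (@Lb.g g8 (@Lb.g g9 (@Lb.g g10 (@Lb.g g11 (@Lb.r r2666 (@Lb.r r612 (@Lb.r r1319 (@Lb.r r405 (@Lb.r r2084 (@Lb.d (nat_lit 617) (nat_lit 137) (nat_lit 100) (@Lb.fp (nat_lit 9) t2106))))))))))))
noncomputable def l18946 : Lb := (@Lb.d (nat_lit 2) (nat_lit 258) (nat_lit 130) (@Lb.g g8 (@Lb.g g9 (@Lb.g g10 (@Lb.g g11 (@Lb.r r2666 (@Lb.r r2664 (@Lb.r r2585 (@Lb.r r2651 (@Lb.d (nat_lit 361) (nat_lit 73) (nat_lit 70) (@Lb.fp (nat_lit 9) t1384)))))))))))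
noncomputable def l18947 : Lb := (@Lb.d (nat_lit 2) (nat_lit 258) (nat_lit 0) (@Lb.g g8 (@Lb.g g9 (@Lb.r r2585 (@Lb.d (nat_lit 649) (nat_lit 160) (nat_lit 576) (@Lb.fm (nat_lit 3) t2308))))))
noncomputable def l18948 : Lb := (@Lb.d (nat_lit 644) (nat_lit 512) (nat_lit 0) (@Lb.g g8 (@Lb.g g9 (@Lb.r r25 (@Lb.d (nat_lit 329) (nat_lit 0) (nat_lit 0) (@Lb.fm (nat_lit 3) t2334))))))
noncomputable def l18949 : Lb := (@Lb.d (nat_lit 2) (nat_lit 2) (nat_lit 130) (@Lb.g g8 (@Lb.g g9 (@Lb.g g10 (@Lb.g g11 (@Lb.r r2666 (@Lb.r r2664 (@Lb.r r2585 (@Lb.r r2651 (@Lb.d (nat_lit 361) (nat_lit 66) (nat_lit 68) (@Lb.fp (nat_lit 9) t1384)))))))))))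
noncomputable def l18950 : Lb := (@Lb.r r82 (@Lb.d (nat_lit 0) (nat_lit 33) (nat_lit 128) (@Lb.g g9 (@Lb.g g11 (@Lb.r r2339 (@Lb.r r2642 (@Lb.r r1313 (@Lb.d (nat_lit 0) (nat_lit 144) (nat_lit 128) (@Lb.fp (nat_lit 3) t2666)))))))))
noncomputable def l18951 : Lb := (@Lb.r r2069 (@Lb.r r2118 (@Lb.r r2311 (@Lb.d (nat_lit 2) (nat_lit 0) (nat_lit 0) (@Lb.g g4 (@Lb.d (nat_lit 1) (nat_lit 0) (nat_lit 0) (@Lb.t (@Lb.fm (nat_lit 3) t3818))))))))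
noncomputable def l18952 : Lb := (@Lb.d (nat_lit 614) (nat_lit 512) (nat_lit 612) (@Lb.r r20 (@Lb.r r1622 (@Lb.r r343 (@Lb.g g10 (@Lb.g g9 (@Lb.d (nat_lit 4) (nat_lit 144) (nat_lit 5) (@Lb.fm (nat_lit 3) t653))))))))
noncomputable def l18953 : Lb := (@Lb.d (nat_lit 0) (nat_lit 512) (nat_lit 130) (@Lb.g g9 (@Lb.g g10 (@Lb.g g11 (@Lb.r r2443 (@Lb.r r2440 (@Lb.r r2154 (@Lb.r r2145 (@Lb.d (nat_lit 2) (nat_lit 130) (nat_lit 138) (@Lb.t (@Lb.fm (nat_lit 9) t51)))))))))))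
noncomputable def l18954 : Lb := (@Lb.r r275 (@Lb.d (nat_lit 1) (nat_lit 512) (nat_lit 2) (@Lb.g g8 (@Lb.g g9 (@Lb.g g10 (@Lb.r r106 (@Lb.r r1572 (@Lb.r r1447 (@Lb.r r401 (@Lb.d (nat_lit 0) (nat_lit 24) (nat_lit 100) (@Lb.t (@Lb.fm (nat_lit 9) t1067))))))))))))
noncomputable def l18955 : Lb := (@Lb.d (nat_lit 0) (nat_lit 512) (nat_lit 66) (@Lb.g g10 (@Lb.g g7 (@Lb.r r386 (@Lb.r r2145 (@Lb.r r2120 (@Lb.d (nat_lit 293) (nat_lit 1) (nat_lit 65) (@Lb.fm (nat_lit 3) t167))))))))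
noncomputable def l18956 : Lb := (@Lb.d (nat_lit 0) (nat_lit 544) (nat_lit 128) (@Lb.g g11 (@Lb.r r1178 (@Lb.r r2405 (@Lb.r r1555 (@Lb.r r1156 (@Lb.d (nat_lit 546) (nat_lit 2) (nat_lit 34) (@Lb.t (@Lb.fm (nat_lit 3) t1988)))))))))
noncomputable def l18957 : Lb := (@Lb.r r323 (@Lb.d (nat_lit 5) (nat_lit 512) (nat_lit 8) (@Lb.g g4 (@Lb.g g9 (@Lb.g g10 (@Lb.r r579 (@Lb.r r37 (@Lb.d (nat_lit 8) (nat_lit 1) (nat_lit 66) (@Lb.t (@Lb.fp (nat_lit 9) t2))))))))))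
noncomputable def l18958 : Lb := (@Lb.d (nat_lit 150) (nat_lit 522) (nat_lit 73) (@Lb.g g8 (@Lb.g g9 (@Lb.g g10 (@Lb.g g11 (@Lb.r r387 (@Lb.r r1369 (@Lb.r r2406 (@Lb.r r132 (@Lb.d (nat_lit 98) (nat_lit 160) (nat_lit 585) (@Lb.fp (nat_lit 9) t1976)))))))))))
noncomputable def l18959 : Lb := (@Lb.d (nat_lit 9) (nat_lit 321) (nat_lit 133) (@Lb.r r260 (@Lb.r r283 (@Lb.r r408 (@Lb.r r1178 (@Lb.g g7 (@Lb.g g6 (@Lb.g g9 (@Lb.g g4 (@Lb.d (nat_lit 6) (nat_lit 74) (nat_lit 128) (@Lb.fm (nat_lit 9) t869)))))))))))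
noncomputable def l18960 : Lb := (@Lb.d (nat_lit 8) (nat_lit 2) (nat_lit 128) (@Lb.g g9 (@Lb.g g11 (@Lb.r r390 (@Lb.r r1611 (@Lb.r r24 (@Lb.r r1557 (@Lb.d (nat_lit 2) (nat_lit 24) (nat_lit 678) (@Lb.fp (nat_lit 3) t588)))))))))
noncomputable def l18961 : Lb := (@Lb.r r82 (@Lb.d (nat_lit 6) (nat_lit 288) (nat_lit 128) (@Lb.g g8 (@Lb.g g9 (@Lb.g g11 (@Lb.r r1451 (@Lb.r r386 (@Lb.r r36 (@Lb.d (nat_lit 618) (nat_lit 1) (nat_lit 528) (@Lb.t (@Lb.fp (nat_lit 9) t3819)))))))))))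
noncomputable def l18962 : Lb := (@Lb.r r70 (@Lb.r r263 (@Lb.d (nat_lit 4) (nat_lit 0) (nat_lit 0) (@Lb.g g8 (@Lb.g g9 (@Lb.r r279 (@Lb.r r86 (@Lb.r r97 (@Lb.r r152 (@Lb.d (nat_lit 532) (nat_lit 4) (nat_lit 17) (@Lb.fm (nat_lit 3) t347)))))))))))
noncomputable def l18963 : Lb := (@Lb.r r70 (@Lb.r r263 (@Lb.d (nat_lit 4) (nat_lit 256) (nat_lit 0) (@Lb.g g8 (@Lb.g g9 (@Lb.r r279 (@Lb.r r86 (@Lb.r r97 (@Lb.r r152 (@Lb.d (nat_lit 537) (nat_lit 10) (nat_lit 18) (@Lb.fm (nat_lit 3) t217)))))))))))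
noncomputable def l18964 : Lb := (@Lb.d (nat_lit 133) (nat_lit 577) (nat_lit 1) (@Lb.r r293 (@Lb.r r600 (@Lb.r r603 (@Lb.g g6 (@Lb.g g5 (@Lb.d (nat_lit 16) (nat_lit 26) (nat_lit 17) (@Lb.r r387 (@Lb.fp (nat_lit 3) t3820)))))))))
noncomputable def l18965 : Lb := (@Lb.d (nat_lit 2) (nat_lit 258) (nat_lit 130) (@Lb.g g8 (@Lb.g g9 (@Lb.g g10 (@Lb.g g11 (@Lb.r r2729 (@Lb.r r2475 (@Lb.r r2468 (@Lb.r r2438 (@Lb.d (nat_lit 401) (nat_lit 10) (nat_lit 360) (@Lb.fp (nat_lit 9) t311)))))))))))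
noncomputable def l18966 : Lb := (@Lb.d (nat_lit 0) (nat_lit 148) (nat_lit 41) (@Lb.r r2193 (@Lb.r r1442 (@Lb.g g11 (@Lb.g g6 (@Lb.g g5 (@Lb.d (nat_lit 0) (nat_lit 40) (nat_lit 260) (@Lb.t (@Lb.fp (nat_lit 9) t3821)))))))))
noncomputable def l18967 : Lb := (@Lb.d (nat_lit 150) (nat_lit 276) (nat_lit 68) (@Lb.r r405 (@Lb.r r618 (@Lb.r r599 (@Lb.g g7 (@Lb.g g6 (@Lb.g g5 (@Lb.g g4 (@Lb.d (nat_lit 1) (nat_lit 36) (nat_lit 2) (@Lb.fm (nat_lit 9) t68))))))))))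
noncomputable def l18968 : Lb := (@Lb.d (nat_lit 578) (nat_lit 5) (nat_lit 150) (@Lb.r r1346 (@Lb.r r2707 (@Lb.r r2389 (@Lb.g g7 (@Lb.g g6 (@Lb.g g5 (@Lb.g g4 (@Lb.d (nat_lit 1) (nat_lit 6) (nat_lit 65) (@Lb.fm (nat_lit 9) t3822))))))))))
noncomputable def l18969 : Lb := (@Lb.d (nat_lit 153) (nat_lit 102) (nat_lit 358) (@Lb.r r2374 (@Lb.r r1691 (@Lb.g g7 (@Lb.g g6 (@Lb.g g9 (@Lb.g g4 (@Lb.d (nat_lit 1) (nat_lit 10) (nat_lit 133) (@Lb.fp (nat_lit 9) t3193)))))))))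
noncomputable def l18970 : Lb := (@Lb.d (nat_lit 2) (nat_lit 545) (nat_lit 130) (@Lb.g g8 (@Lb.g g9 (@Lb.g g10 (@Lb.g g11 (@Lb.r r1706 (@Lb.r r676 (@Lb.r r551 (@Lb.r r533 (@Lb.r r1060 (@Lb.d (nat_lit 386) (nat_lit 9) (nat_lit 585) (@Lb.fp (nat_lit 9) t597))))))))))))
noncomputable def l18971 : Lb := (@Lb.d (nat_lit 2) (nat_lit 9) (nat_lit 136) (@Lb.g g8 (@Lb.g g9 (@Lb.g g10 (@Lb.g g11 (@Lb.r r1626 (@Lb.r r579 (@Lb.r r97 (@Lb.r r24 (@Lb.d (nat_lit 646) (nat_lit 102) (nat_lit 584) (@Lb.fm (nat_lit 9) t3222)))))))))))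
noncomputable def l18972 : Lb := (@Lb.d (nat_lit 2) (nat_lit 521) (nat_lit 1) (@Lb.g g8 (@Lb.g g9 (@Lb.g g10 (@Lb.g g11 (@Lb.r r1371 (@Lb.r r386 (@Lb.r r97 (@Lb.r r24 (@Lb.d (nat_lit 256) (nat_lit 4) (nat_lit 136) (@Lb.fm (nat_lit 9) t3510)))))))))))
noncomputable def l18973 : Lb := (@Lb.d (nat_lit 390) (nat_lit 657) (nat_lit 609) (@Lb.r r2325 (@Lb.r r2390 (@Lb.r r683 (@Lb.g g7 (@Lb.g g6 (@Lb.g g5 (@Lb.g g4 (@Lb.d (nat_lit 1) (nat_lit 18) (nat_lit 8) (@Lb.fm (nat_lit 9) t1986))))))))))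
noncomputable def l18974 : Lb := (@Lb.d (nat_lit 2) (nat_lit 258) (nat_lit 2) (@Lb.g g8 (@Lb.g g9 (@Lb.g g10 (@Lb.g g11 (@Lb.r r1371 (@Lb.r r386 (@Lb.r r97 (@Lb.r r24 (@Lb.d (nat_lit 256) (nat_lit 161) (nat_lit 384) (@Lb.fm (nat_lit 9) t499)))))))))))
noncomputable def l18975 : Lb := (@Lb.r r82 (@Lb.d (nat_lit 2) (nat_lit 545) (nat_lit 128) (@Lb.g g8 (@Lb.g g9 (@Lb.g g11 (@Lb.r r1561 (@Lb.r r531 (@Lb.r r386 (@Lb.r r24 (@Lb.d (nat_lit 646) (nat_lit 16) (nat_lit 10) (@Lb.t (@Lb.fp (nat_lit 9) t3823))))))))))))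
noncomputable def l18976 : Lb := (@Lb.d (nat_lit 2) (nat_lit 2) (nat_lit 137) (@Lb.g g8 (@Lb.g g9 (@Lb.g g10 (@Lb.g g11 (@Lb.r r2666 (@Lb.r r612 (@Lb.r r533 (@Lb.r r599 (@Lb.r r2084 (@Lb.d (nat_lit 660) (nat_lit 154) (nat_lit 137) (@Lb.fm (nat_lit 9) t91))))))))))))
noncomputable def l18977 : Lb := (@Lb.d (nat_lit 1) (nat_lit 521) (nat_lit 1) (@Lb.g g8 (@Lb.g g9 (@Lb.g g10 (@Lb.g g11 (@Lb.r r1371 (@Lb.r r386 (@Lb.r r97 (@Lb.r r24 (@Lb.d (nat_lit 266) (nat_lit 6) (nat_lit 70) (@Lb.fm (nat_lit 9) t3824)))))))))))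
noncomputable def l18978 : Lb := (@Lb.d (nat_lit 2) (nat_lit 265) (nat_lit 1) (@Lb.g g8 (@Lb.g g9 (@Lb.g g10 (@Lb.g g11 (@Lb.r r1371 (@Lb.r r386 (@Lb.r r97 (@Lb.r r24 (@Lb.d (nat_lit 266) (nat_lit 6) (nat_lit 70) (@Lb.fm (nat_lit 9) t3824)))))))))))
noncomputable def l18979 : Lb := (@Lb.r r323 (@Lb.d (nat_lit 0) (nat_lit 516) (nat_lit 5) (@Lb.g g6 (@Lb.r r2659 (@Lb.r r24 (@Lb.d (nat_lit 401) (nat_lit 106) (nat_lit 17) (@Lb.t (@Lb.fm (nat_lit 3) t3825))))))))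
noncomputable def l18980 : Lb := (@Lb.d (nat_lit 128) (nat_lit 256) (nat_lit 324) (@Lb.g g7 (@Lb.r r24 (@Lb.r r2069 (@Lb.r r36 (@Lb.d (nat_lit 0) (nat_lit 68) (nat_lit 150) (@Lb.t (@Lb.fp (nat_lit 3) t591))))))))
noncomputable def l18981 : Lb := (@Lb.d (nat_lit 2) (nat_lit 513) (nat_lit 73) (@Lb.g g8 (@Lb.g g9 (@Lb.g g10 (@Lb.g g11 (@Lb.r r2691 (@Lb.r r2217 (@Lb.r r2658 (@Lb.r r2436 (@Lb.d (nat_lit 353) (nat_lit 160) (nat_lit 662) (@Lb.fp (nat_lit 9) t311)))))))))))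
noncomputable def l18982 : Lb := (@Lb.d (nat_lit 102) (nat_lit 585) (nat_lit 341) (@Lb.r r2213 (@Lb.r r2178 (@Lb.r r2443 (@Lb.r r2456 (@Lb.g g7 (@Lb.d (nat_lit 64) (nat_lit 0) (nat_lit 64) (@Lb.t (@Lb.fp (nat_lit 3) t3826)))))))))
noncomputable def l18983 : Lb := (@Lb.r r21 (@Lb.r r70 (@Lb.g g4 (@Lb.r r1559 (@Lb.r r405 (@Lb.r r86 (@Lb.r r2148 (@Lb.d (nat_lit 513) (nat_lit 261) (nat_lit 1) (@Lb.t (@Lb.fp (nat_lit 3) t2390))))))))))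
noncomputable def l18984 : Lb := (@Lb.r r21 (@Lb.d (nat_lit 146) (nat_lit 544) (nat_lit 64) (@Lb.g g8 (@Lb.g g10 (@Lb.g g11 (@Lb.r r1313 (@Lb.r r1367 (@Lb.r r1162 (@Lb.r r132 (@Lb.d (nat_lit 593) (nat_lit 25) (nat_lit 296) (@Lb.t (@Lb.fm (nat_lit 9) t3827))))))))))))
noncomputable def l18985 : Lb := (@Lb.d (nat_lit 610) (nat_lit 69) (nat_lit 550) (@Lb.r r24 (@Lb.r r153 (@Lb.r r1642 (@Lb.g g11 (@Lb.g g6 (@Lb.g g5 (@Lb.g g4 (@Lb.d (nat_lit 1) (nat_lit 10) (nat_lit 128) (@Lb.fp (nat_lit 9) t1950))))))))))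
noncomputable def l18986 : Lb := (@Lb.d (nat_lit 34) (nat_lit 514) (nat_lit 72) (@Lb.g g8 (@Lb.g g9 (@Lb.g g11 (@Lb.r r86 (@Lb.r r1433 (@Lb.r r2343 (@Lb.r r1540 (@Lb.d (nat_lit 386) (nat_lit 66) (nat_lit 642) (@Lb.t (@Lb.fm (nat_lit 9) t2)))))))))))
noncomputable def l18987 : Lb := (@Lb.d (nat_lit 2) (nat_lit 2) (nat_lit 2) (@Lb.g g8 (@Lb.g g9 (@Lb.g g10 (@Lb.r r683 (@Lb.r r2666 (@Lb.r r25 (@Lb.d (nat_lit 2) (nat_lit 90) (nat_lit 537) (@Lb.t (@Lb.fp (nat_lit 9) t591))))))))))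
noncomputable def l18988 : Lb := (@Lb.r r323 (@Lb.d (nat_lit 10) (nat_lit 33) (nat_lit 2) (@Lb.g g8 (@Lb.g g9 (@Lb.g g10 (@Lb.r r599 (@Lb.r r74 (@Lb.r r296 (@Lb.r r409 (@Lb.d (nat_lit 149) (nat_lit 164) (nat_lit 9) (@Lb.t (@Lb.fm (nat_lit 9) t51))))))))))))
noncomputable def l18989 : Lb := (@Lb.d (nat_lit 2) (nat_lit 265) (nat_lit 129) (@Lb.g g8 (@Lb.g g9 (@Lb.g g10 (@Lb.g g11 (@Lb.r r2691 (@Lb.r r297 (@Lb.r r360 (@Lb.r r582 (@Lb.r r2180 (@Lb.d (nat_lit 641) (nat_lit 10) (nat_lit 329) (@Lb.fm (nat_lit 9) t98))))))))))))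
noncomputable def l18990 : Lb := (@Lb.r r323 (@Lb.d (nat_lit 10) (nat_lit 289) (nat_lit 2) (@Lb.g g8 (@Lb.g g9 (@Lb.g g10 (@Lb.r r599 (@Lb.r r74 (@Lb.r r296 (@Lb.r r409 (@Lb.d (nat_lit 149) (nat_lit 38) (nat_lit 132) (@Lb.t (@Lb.fm (nat_lit 9) t51))))))))))))
noncomputable def l18991 : Lb := (@Lb.d (nat_lit 42) (nat_lit 513) (nat_lit 0) (@Lb.g g8 (@Lb.g g9 (@Lb.r r1387 (@Lb.r r361 (@Lb.r r150 (@Lb.r r1124 (@Lb.d (nat_lit 282) (nat_lit 149) (nat_lit 150) (@Lb.fm (nat_lit 3) t51)))))))))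
noncomputable def l18992 : Lb := (@Lb.d (nat_lit 34) (nat_lit 2) (nat_lit 72) (@Lb.g g8 (@Lb.g g9 (@Lb.g g11 (@Lb.r r86 (@Lb.r r1433 (@Lb.r r2343 (@Lb.r r1540 (@Lb.d (nat_lit 393) (nat_lit 65) (nat_lit 642) (@Lb.t (@Lb.fm (nat_lit 9) t2)))))))))))
noncomputable def l18993 : Lb := (@Lb.d (nat_lit 0) (nat_lit 8) (nat_lit 130) (@Lb.g g10 (@Lb.g g11 (@Lb.r r387 (@Lb.d (nat_lit 0) (nat_lit 9) (nat_lit 65) (@Lb.fm (nat_lit 3) t369))))))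
noncomputable def l18994 : Lb := (@Lb.d (nat_lit 0) (nat_lit 100) (nat_lit 534) (@Lb.r r1346 (@Lb.r r2707 (@Lb.g g6 (@Lb.t (@Lb.fp (nat_lit 3) t356))))))
noncomputable def l18995 : Lb := (@Lb.d (nat_lit 2) (nat_lit 546) (nat_lit 4) (@Lb.g g8 (@Lb.g g9 (@Lb.g g10 (@Lb.g g11 (@Lb.r r2731 (@Lb.r r618 (@Lb.r r537 (@Lb.d (nat_lit 73) (nat_lit 34) (nat_lit 658) (@Lb.fm (nat_lit 9) t218))))))))))
noncomputable def l18996 : Lb := (@Lb.d (nat_lit 10) (nat_lit 288) (nat_lit 4) (@Lb.g g8 (@Lb.g g10 (@Lb.g g11 (@Lb.r r618 (@Lb.r r149 (@Lb.r r360 (@Lb.r r2567 (@Lb.d (nat_lit 649) (nat_lit 25) (nat_lit 642) (@Lb.t (@Lb.fm (nat_lit 9) t71)))))))))))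
noncomputable def l18997 : Lb := (@Lb.d (nat_lit 2) (nat_lit 514) (nat_lit 132) (@Lb.g g8 (@Lb.g g9 (@Lb.g g11 (@Lb.r r618 (@Lb.r r25 (@Lb.d (nat_lit 9) (nat_lit 4) (nat_lit 5) (@Lb.t (@Lb.fm (nat_lit 9) t71)))))))))
noncomputable def l18998 : Lb := (@Lb.d (nat_lit 2) (nat_lit 545) (nat_lit 4) (@Lb.g g8 (@Lb.g g9 (@Lb.g g10 (@Lb.g g11 (@Lb.r r2723 (@Lb.r r610 (@Lb.r r529 (@Lb.d (nat_lit 2) (nat_lit 34) (nat_lit 658) (@Lb.fm (nat_lit 9) t218))))))))))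
noncomputable def l18999 : Lb := (@Lb.g g4 (@Lb.g g7 (@Lb.r r584 (@Lb.r r1547 (@Lb.r r1170 (@Lb.r r2145 (@Lb.r r1540 (@Lb.d (nat_lit 0) (nat_lit 656) (nat_lit 320) (@Lb.fm (nat_lit 3) t51)))))))))
noncomputable def l19000 : Lb := (@Lb.d (nat_lit 1) (nat_lit 0) (nat_lit 128) (@Lb.g g8 (@Lb.g g11 (@Lb.r r644 (@Lb.r r2311 (@Lb.r r1170 (@Lb.r r2145 (@Lb.r r1540 (@Lb.d (nat_lit 1) (nat_lit 97) (nat_lit 640) (@Lb.fm (nat_lit 3) t51))))))))))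
noncomputable def l19001 : Lb := (@Lb.g g11 (@Lb.r r1291 (@Lb.d (nat_lit 514) (nat_lit 0) (nat_lit 0) (@Lb.t (@Lb.fp (nat_lit 3) t441)))))
noncomputable def l19002 : Lb := (@Lb.d (nat_lit 9) (nat_lit 0) (nat_lit 136) (@Lb.g g8 (@Lb.g g10 (@Lb.g g11 (@Lb.r r1347 (@Lb.r r2453 (@Lb.r r2706 (@Lb.r r2436 (@Lb.d (nat_lit 610) (nat_lit 10) (nat_lit 641) (@Lb.t (@Lb.fp (nat_lit 9) t311)))))))))))
noncomputable def l19003 : Lb := (@Lb.d (nat_lit 8) (nat_lit 2) (nat_lit 130) (@Lb.g g9 (@Lb.g g10 (@Lb.g g11 (@Lb.r r419 (@Lb.r r98 (@Lb.r r24 (@Lb.r r101 (@Lb.d (nat_lit 289) (nat_lit 129) (nat_lit 86) (@Lb.t (@Lb.fm (nat_lit 9) t1233)))))))))))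
noncomputable def l19004 : Lb := (@Lb.d (nat_lit 33) (nat_lit 0) (nat_lit 72) (@Lb.r r154 (@Lb.r r404 (@Lb.r r363 (@Lb.r r353 (@Lb.g g7 (@Lb.g g4 (@Lb.d (nat_lit 5) (nat_lit 0) (nat_lit 64) (@Lb.fm (nat_lit 3) t51)))))))))
noncomputable def l19005 : Lb := (@Lb.d (nat_lit 18) (nat_lit 256) (nat_lit 601) (@Lb.r r24 (@Lb.r r1435 (@Lb.r r2458 (@Lb.r r597 (@Lb.g g7 (@Lb.d (nat_lit 0) (nat_lit 16) (nat_lit 68) (@Lb.t (@Lb.fm (nat_lit 3) t386)))))))))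
noncomputable def l19006 : Lb := (@Lb.d (nat_lit 9) (nat_lit 1) (nat_lit 130) (@Lb.g g8 (@Lb.g g9 (@Lb.g g10 (@Lb.g g11 (@Lb.r r1706 (@Lb.r r664 (@Lb.r r1579 (@Lb.r r1553 (@Lb.r r36 (@Lb.d (nat_lit 641) (nat_lit 100) (nat_lit 353) (@Lb.fm (nat_lit 9) t242))))))))))))
noncomputable def l19007 : Lb := (@Lb.d (nat_lit 32) (nat_lit 258) (nat_lit 0) (@Lb.g g8 (@Lb.g g9 (@Lb.r r1387 (@Lb.r r1622 (@Lb.r r1433 (@Lb.r r1428 (@Lb.d (nat_lit 358) (nat_lit 90) (nat_lit 425) (@Lb.fm (nat_lit 3) t386)))))))))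
noncomputable def l19008 : Lb := (@Lb.d (nat_lit 16) (nat_lit 514) (nat_lit 74) (@Lb.g g8 (@Lb.g g9 (@Lb.g g10 (@Lb.g g11 (@Lb.r r683 (@Lb.r r676 (@Lb.r r1190 (@Lb.r r145 (@Lb.d (nat_lit 265) (nat_lit 130) (nat_lit 426) (@Lb.fp (nat_lit 9) t152)))))))))))
noncomputable def l19009 : Lb := (@Lb.d (nat_lit 16) (nat_lit 2) (nat_lit 128) (@Lb.g g8 (@Lb.g g9 (@Lb.g g10 (@Lb.g g11 (@Lb.r r683 (@Lb.r r676 (@Lb.r r1190 (@Lb.r r145 (@Lb.d (nat_lit 266) (nat_lit 130) (nat_lit 426) (@Lb.fp (nat_lit 9) t152)))))))))))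
noncomputable def l19010 : Lb := (@Lb.d (nat_lit 9) (nat_lit 257) (nat_lit 73) (@Lb.g g8 (@Lb.g g9 (@Lb.g g10 (@Lb.g g11 (@Lb.r r2666 (@Lb.r r579 (@Lb.r r145 (@Lb.r r168 (@Lb.d (nat_lit 165) (nat_lit 8) (nat_lit 324) (@Lb.fp (nat_lit 9) t61)))))))))))
noncomputable def l19011 : Lb := (@Lb.d (nat_lit 1) (nat_lit 258) (nat_lit 0) (@Lb.g g8 (@Lb.g g9 (@Lb.r r40 (@Lb.r r1065 (@Lb.r r1060 (@Lb.d (nat_lit 512) (nat_lit 130) (nat_lit 0) (@Lb.fm (nat_lit 3) t2))))))))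
noncomputable def l19012 : Lb := (@Lb.d (nat_lit 337) (nat_lit 512) (nat_lit 69) (@Lb.r r24 (@Lb.r r615 (@Lb.r r2394 (@Lb.r r661 (@Lb.g g7 (@Lb.d (nat_lit 0) (nat_lit 16) (nat_lit 128) (@Lb.t (@Lb.fm (nat_lit 3) t386)))))))))
noncomputable def l19013 : Lb := (@Lb.d (nat_lit 612) (nat_lit 550) (nat_lit 294) (@Lb.r r410 (@Lb.r r2645 (@Lb.r r2647 (@Lb.r r264 (@Lb.g g7 (@Lb.g g6 (@Lb.d (nat_lit 80) (nat_lit 0) (nat_lit 65) (@Lb.fp (nat_lit 3) t322)))))))))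
noncomputable def l19014 : Lb := (@Lb.d (nat_lit 10) (nat_lit 32) (nat_lit 64) (@Lb.g g8 (@Lb.g g11 (@Lb.r r166 (@Lb.r r149 (@Lb.r r360 (@Lb.r r615 (@Lb.d (nat_lit 153) (nat_lit 8) (nat_lit 65) (@Lb.fp (nat_lit 3) t44)))))))))
noncomputable def l19015 : Lb := (@Lb.d (nat_lit 0) (nat_lit 6) (nat_lit 2) (@Lb.r r289 (@Lb.r r279 (@Lb.r r584 (@Lb.g g6 (@Lb.g g5 (@Lb.d (nat_lit 20) (nat_lit 1) (nat_lit 1) (@Lb.r r387 (@Lb.fm (nat_lit 3) t68)))))))))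
noncomputable def l19016 : Lb := (@Lb.d (nat_lit 136) (nat_lit 256) (nat_lit 64) (@Lb.g g9 (@Lb.g g11 (@Lb.r r152 (@Lb.r r2405 (@Lb.r r1555 (@Lb.r r2178 (@Lb.d (nat_lit 130) (nat_lit 161) (nat_lit 169) (@Lb.fm (nat_lit 3) t1540)))))))))
noncomputable def l19017 : Lb := (@Lb.r r82 (@Lb.r r275 (@Lb.d (nat_lit 2) (nat_lit 256) (nat_lit 0) (@Lb.g g8 (@Lb.g g9 (@Lb.r r299 (@Lb.r r106 (@Lb.r r25 (@Lb.d (nat_lit 545) (nat_lit 5) (nat_lit 16) (@Lb.fm (nat_lit 3) t2099))))))))))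
noncomputable def l19018 : Lb := (@Lb.d (nat_lit 130) (nat_lit 512) (nat_lit 0) (@Lb.g g8 (@Lb.g g9 (@Lb.r r551 (@Lb.r r402 (@Lb.r r609 (@Lb.r r104 (@Lb.d (nat_lit 38) (nat_lit 1) (nat_lit 2) (@Lb.fm (nat_lit 3) t44)))))))))
noncomputable def l19019 : Lb := (@Lb.d (nat_lit 549) (nat_lit 549) (nat_lit 422) (@Lb.r r2196 (@Lb.r r150 (@Lb.r r361 (@Lb.g g11 (@Lb.g g5 (@Lb.g g4 (@Lb.d (nat_lit 17) (nat_lit 1) (nat_lit 128) (@Lb.t (@Lb.fm (nat_lit 9) t2557))))))))))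
noncomputable def l19020 : Lb := (@Lb.d (nat_lit 0) (nat_lit 298) (nat_lit 0) (@Lb.g g9 (@Lb.r r1691 (@Lb.r r1684 (@Lb.r r598 (@Lb.r r425 (@Lb.d (nat_lit 150) (nat_lit 132) (nat_lit 138) (@Lb.t (@Lb.fp (nat_lit 3) t210)))))))))
noncomputable def l19021 : Lb := (@Lb.d (nat_lit 2) (nat_lit 289) (nat_lit 130) (@Lb.g g8 (@Lb.g g9 (@Lb.g g10 (@Lb.g g11 (@Lb.r r387 (@Lb.r r386 (@Lb.r r1561 (@Lb.r r24 (@Lb.d (nat_lit 680) (nat_lit 2) (nat_lit 673) (@Lb.fp (nat_lit 9) t3828)))))))))))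
noncomputable def l19022 : Lb := (@Lb.d (nat_lit 536) (nat_lit 148) (nat_lit 358) (@Lb.r r2457 (@Lb.r r2454 (@Lb.r r1635 (@Lb.g g7 (@Lb.g g5 (@Lb.g g4 (@Lb.d (nat_lit 1) (nat_lit 22) (nat_lit 128) (@Lb.r r98 (@Lb.t (@Lb.fp (nat_lit 9) t3118)))))))))))
noncomputable def l19023 : Lb := (@Lb.d (nat_lit 32) (nat_lit 0) (nat_lit 66) (@Lb.g g10 (@Lb.g g7 (@Lb.r r596 (@Lb.r r74 (@Lb.r r289 (@Lb.d (nat_lit 96) (nat_lit 162) (nat_lit 258) (@Lb.fm (nat_lit 3) t668))))))))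
noncomputable def l19024 : Lb := (@Lb.d (nat_lit 1) (nat_lit 545) (nat_lit 130) (@Lb.g g8 (@Lb.g g9 (@Lb.g g10 (@Lb.g g11 (@Lb.r r387 (@Lb.r r386 (@Lb.r r1561 (@Lb.r r24 (@Lb.d (nat_lit 680) (nat_lit 2) (nat_lit 673) (@Lb.fp (nat_lit 9) t3828)))))))))))
noncomputable def l19025 : Lb := (@Lb.d (nat_lit 536) (nat_lit 404) (nat_lit 358) (@Lb.r r2457 (@Lb.r r2454 (@Lb.r r1635 (@Lb.g g7 (@Lb.g g5 (@Lb.g g4 (@Lb.d (nat_lit 1) (nat_lit 22) (nat_lit 64) (@Lb.r r98 (@Lb.t (@Lb.fp (nat_lit 9) t1067)))))))))))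
noncomputable def l19026 : Lb := (@Lb.r r21 (@Lb.r r70 (@Lb.d (nat_lit 128) (nat_lit 512) (nat_lit 136) (@Lb.g g4 (@Lb.g g11 (@Lb.r r402 (@Lb.r r97 (@Lb.d (nat_lit 1) (nat_lit 128) (nat_lit 74) (@Lb.fp (nat_lit 3) t3829)))))))))
noncomputable def l19027 : Lb := (@Lb.d (nat_lit 0) (nat_lit 256) (nat_lit 130) (@Lb.g g10 (@Lb.g g11 (@Lb.r r419 (@Lb.r r386 (@Lb.r r101 (@Lb.d (nat_lit 154) (nat_lit 154) (nat_lit 9) (@Lb.fm (nat_lit 3) t1725))))))))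
noncomputable def l19028 : Lb := (@Lb.r r323 (@Lb.d (nat_lit 32) (nat_lit 1) (nat_lit 2) (@Lb.g g9 (@Lb.g g10 (@Lb.r r584 (@Lb.r r667 (@Lb.r r337 (@Lb.d (nat_lit 10) (nat_lit 168) (nat_lit 129) (@Lb.fm (nat_lit 3) t51)))))))))
noncomputable def l19029 : Lb := (@Lb.d (nat_lit 145) (nat_lit 0) (nat_lit 600) (@Lb.r r24 (@Lb.r r2725 (@Lb.r r386 (@Lb.r r1427 (@Lb.g g7 (@Lb.g g6 (@Lb.g g5 (@Lb.d (nat_lit 0) (nat_lit 0) (nat_lit 65) (@Lb.t (@Lb.fm (nat_lit 9) t50)))))))))))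
noncomputable def l19030 : Lb := (@Lb.d (nat_lit 129) (nat_lit 2) (nat_lit 130) (@Lb.g g8 (@Lb.g g9 (@Lb.g g10 (@Lb.g g11 (@Lb.r r578 (@Lb.r r345 (@Lb.r r359 (@Lb.r r536 (@Lb.d (nat_lit 66) (nat_lit 42) (nat_lit 72) (@Lb.fm (nat_lit 9) t238)))))))))))
noncomputable def l19031 : Lb := (@Lb.d (nat_lit 160) (nat_lit 258) (nat_lit 130) (@Lb.g g9 (@Lb.g g10 (@Lb.g g11 (@Lb.r r72 (@Lb.r r166 (@Lb.r r665 (@Lb.r r539 (@Lb.d (nat_lit 2) (nat_lit 130) (nat_lit 326) (@Lb.t (@Lb.fp (nat_lit 9) t210)))))))))))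
noncomputable def l19032 : Lb := (@Lb.d (nat_lit 4) (nat_lit 514) (nat_lit 130) (@Lb.g g9 (@Lb.g g10 (@Lb.g g11 (@Lb.r r423 (@Lb.r r600 (@Lb.r r662 (@Lb.r r2393 (@Lb.d (nat_lit 82) (nat_lit 96) (nat_lit 277) (@Lb.t (@Lb.fm (nat_lit 9) t3230)))))))))))
noncomputable def l19033 : Lb := (@Lb.d (nat_lit 0) (nat_lit 38) (nat_lit 5) (@Lb.g g4 (@Lb.g g9 (@Lb.g g10 (@Lb.g g11 (@Lb.r r387 (@Lb.r r418 (@Lb.r r529 (@Lb.d (nat_lit 1) (nat_lit 5) (nat_lit 133) (@Lb.fp (nat_lit 9) t374))))))))))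
noncomputable def l19034 : Lb := (@Lb.r r322 (@Lb.d (nat_lit 128) (nat_lit 258) (nat_lit 328) (@Lb.g g8 (@Lb.g g9 (@Lb.g g7 (@Lb.r r1366 (@Lb.r r409 (@Lb.r r388 (@Lb.d (nat_lit 98) (nat_lit 145) (nat_lit 10) (@Lb.t (@Lb.fp (nat_lit 9) t3830)))))))))))
noncomputable def l19035 : Lb := (@Lb.r r323 (@Lb.d (nat_lit 32) (nat_lit 258) (nat_lit 2) (@Lb.g g8 (@Lb.g g9 (@Lb.g g10 (@Lb.r r683 (@Lb.r r2134 (@Lb.r r1193 (@Lb.r r1172 (@Lb.d (nat_lit 294) (nat_lit 72) (nat_lit 68) (@Lb.t (@Lb.fm (nat_lit 9) t773))))))))))))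
noncomputable def l19036 : Lb := (@Lb.d (nat_lit 584) (nat_lit 73) (nat_lit 330) (@Lb.r r1192 (@Lb.r r665 (@Lb.r r1367 (@Lb.g g6 (@Lb.g g5 (@Lb.g g4 (@Lb.d (nat_lit 134) (nat_lit 9) (nat_lit 32) (@Lb.r r387 (@Lb.t (@Lb.fm (nat_lit 9) t2312)))))))))))
noncomputable def l19037 : Lb := (@Lb.d (nat_lit 32) (nat_lit 520) (nat_lit 2) (@Lb.g g6 (@Lb.r r2311 (@Lb.r r2473 (@Lb.r r424 (@Lb.r r682 (@Lb.d (nat_lit 169) (nat_lit 133) (nat_lit 657) (@Lb.t (@Lb.fp (nat_lit 3) t3831)))))))))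
noncomputable def l19038 : Lb := (@Lb.d (nat_lit 298) (nat_lit 325) (nat_lit 0) (@Lb.r r1113 (@Lb.r r2136 (@Lb.g g11 (@Lb.g g6 (@Lb.g g5 (@Lb.d (nat_lit 4) (nat_lit 1) (nat_lit 0) (@Lb.t (@Lb.fp (nat_lit 9) t1400)))))))))
noncomputable def l19039 : Lb := (@Lb.r r20 (@Lb.r r275 (@Lb.d (nat_lit 8) (nat_lit 2) (nat_lit 2) (@Lb.g g5 (@Lb.g g10 (@Lb.r r1686 (@Lb.r r2376 (@Lb.r r1543 (@Lb.d (nat_lit 6) (nat_lit 154) (nat_lit 68) (@Lb.fm (nat_lit 3) t597))))))))))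
noncomputable def l19040 : Lb := (@Lb.d (nat_lit 0) (nat_lit 256) (nat_lit 138) (@Lb.g g10 (@Lb.g g11 (@Lb.r r2707 (@Lb.r r2341 (@Lb.r r2136 (@Lb.r r1158 (@Lb.d (nat_lit 289) (nat_lit 5) (nat_lit 32) (@Lb.fm (nat_lit 3) t296)))))))))
noncomputable def l19041 : Lb := (@Lb.d (nat_lit 16) (nat_lit 512) (nat_lit 138) (@Lb.g g8 (@Lb.g g10 (@Lb.g g11 (@Lb.r r1602 (@Lb.r r2201 (@Lb.r r132 (@Lb.d (nat_lit 290) (nat_lit 0) (nat_lit 585) (@Lb.t (@Lb.fm (nat_lit 9) t42))))))))))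
noncomputable def l19042 : Lb := (@Lb.r r21 (@Lb.d (nat_lit 146) (nat_lit 512) (nat_lit 74) (@Lb.g g8 (@Lb.g g10 (@Lb.g g11 (@Lb.r r1691 (@Lb.r r1317 (@Lb.r r88 (@Lb.r r2182 (@Lb.d (nat_lit 9) (nat_lit 65) (nat_lit 33) (@Lb.t (@Lb.fm (nat_lit 9) t2312))))))))))))
noncomputable def l19043 : Lb := (@Lb.d (nat_lit 128) (nat_lit 277) (nat_lit 64) (@Lb.r r536 (@Lb.r r411 (@Lb.r r661 (@Lb.g g6 (@Lb.g g5 (@Lb.g g4 (@Lb.d (nat_lit 90) (nat_lit 0) (nat_lit 1) (@Lb.r r391 (@Lb.t (@Lb.fm (nat_lit 9) t68)))))))))))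
noncomputable def l19044 : Lb := (@Lb.d (nat_lit 145) (nat_lit 261) (nat_lit 4) (@Lb.r r24 (@Lb.r r101 (@Lb.r r386 (@Lb.r r339 (@Lb.g g7 (@Lb.g g6 (@Lb.g g4 (@Lb.d (nat_lit 0) (nat_lit 0) (nat_lit 65) (@Lb.t (@Lb.fm (nat_lit 9) t1778)))))))))))
noncomputable def l19045 : Lb := (@Lb.d (nat_lit 145) (nat_lit 5) (nat_lit 4) (@Lb.r r24 (@Lb.r r101 (@Lb.r r386 (@Lb.r r339 (@Lb.g g7 (@Lb.g g6 (@Lb.g g4 (@Lb.d (nat_lit 1) (nat_lit 0) (nat_lit 65) (@Lb.t (@Lb.fm (nat_lit 9) t128)))))))))))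
noncomputable def l19046 : Lb := (@Lb.d (nat_lit 34) (nat_lit 390) (nat_lit 416) (@Lb.r r260 (@Lb.r r1355 (@Lb.r r1670 (@Lb.r r340 (@Lb.g g7 (@Lb.g g6 (@Lb.g g5 (@Lb.g g4 (@Lb.d (nat_lit 72) (nat_lit 128) (nat_lit 130) (@Lb.fm (nat_lit 9) t148)))))))))))
noncomputable def l19047 : Lb := (@Lb.d (nat_lit 528) (nat_lit 656) (nat_lit 677) (@Lb.r r2129 (@Lb.r r358 (@Lb.r r81 (@Lb.r r1667 (@Lb.g g7 (@Lb.g g6 (@Lb.g g5 (@Lb.g g8 (@Lb.d (nat_lit 550) (nat_lit 6) (nat_lit 134) (@Lb.fp (nat_lit 9) t2403)))))))))))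
noncomputable def l19048 : Lb := (@Lb.r r323 (@Lb.d (nat_lit 132) (nat_lit 0) (nat_lit 34) (@Lb.g g8 (@Lb.g g9 (@Lb.g g10 (@Lb.r r2647 (@Lb.r r145 (@Lb.r r360 (@Lb.d (nat_lit 166) (nat_lit 37) (nat_lit 166) (@Lb.t (@Lb.fm (nat_lit 9) t791)))))))))))
noncomputable def l19049 : Lb := (@Lb.d (nat_lit 0) (nat_lit 288) (nat_lit 144) (@Lb.g g10 (@Lb.g g11 (@Lb.r r353 (@Lb.r r407 (@Lb.d (nat_lit 358) (nat_lit 152) (nat_lit 9) (@Lb.fp (nat_lit 3) t322)))))))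
noncomputable def l19050 : Lb := (@Lb.d (nat_lit 0) (nat_lit 258) (nat_lit 64) (@Lb.g g9 (@Lb.g g10 (@Lb.g g11 (@Lb.r r1555 (@Lb.r r2469 (@Lb.r r2150 (@Lb.r r24 (@Lb.d (nat_lit 354) (nat_lit 100) (nat_lit 102) (@Lb.t (@Lb.fp (nat_lit 9) t3207)))))))))))
noncomputable def l19051 : Lb := (@Lb.r r323 (@Lb.d (nat_lit 132) (nat_lit 512) (nat_lit 17) (@Lb.g g8 (@Lb.g g9 (@Lb.g g6 (@Lb.r r1385 (@Lb.r r2583 (@Lb.r r2468 (@Lb.d (nat_lit 618) (nat_lit 102) (nat_lit 650) (@Lb.t (@Lb.fp (nat_lit 9) t791)))))))))))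
noncomputable def l19052 : Lb := (@Lb.d (nat_lit 8) (nat_lit 514) (nat_lit 64) (@Lb.g g9 (@Lb.g g10 (@Lb.g g7 (@Lb.r r2438 (@Lb.r r24 (@Lb.r r101 (@Lb.d (nat_lit 2) (nat_lit 74) (nat_lit 82) (@Lb.t (@Lb.fm (nat_lit 9) t3832))))))))))
noncomputable def l19053 : Lb := (@Lb.d (nat_lit 408) (nat_lit 33) (nat_lit 97) (@Lb.r r553 (@Lb.r r618 (@Lb.r r535 (@Lb.g g7 (@Lb.g g5 (@Lb.g g4 (@Lb.d (nat_lit 1) (nat_lit 34) (nat_lit 0) (@Lb.r r98 (@Lb.t (@Lb.fp (nat_lit 9) t299)))))))))))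
noncomputable def l19054 : Lb := (@Lb.d (nat_lit 4) (nat_lit 0) (nat_lit 130) (@Lb.g g8 (@Lb.g g9 (@Lb.g g10 (@Lb.g g11 (@Lb.r r427 (@Lb.r r145 (@Lb.r r356 (@Lb.r r154 (@Lb.r r132 (@Lb.d (nat_lit 10) (nat_lit 2) (nat_lit 2) (@Lb.fm (nat_lit 9) t61))))))))))))
noncomputable def l19055 : Lb := (@Lb.g g9 (@Lb.d (nat_lit 273) (nat_lit 522) (nat_lit 32) (@Lb.t (@Lb.fp (nat_lit 3) t1507))))
noncomputable def l19056 : Lb := (@Lb.d (nat_lit 261) (nat_lit 1) (nat_lit 656) (@Lb.r r2321 (@Lb.r r1319 (@Lb.r r293 (@Lb.g g10 (@Lb.d (nat_lit 0) (nat_lit 8) (nat_lit 34) (@Lb.t (@Lb.fm (nat_lit 3) t322))))))))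
noncomputable def l19057 : Lb := (@Lb.r r82 (@Lb.d (nat_lit 4) (nat_lit 512) (nat_lit 136) (@Lb.g g8 (@Lb.g g9 (@Lb.g g11 (@Lb.r r2665 (@Lb.r r2198 (@Lb.r r1380 (@Lb.r r395 (@Lb.d (nat_lit 386) (nat_lit 162) (nat_lit 354) (@Lb.t (@Lb.fm (nat_lit 9) t3833))))))))))))
noncomputable def l19058 : Lb := (@Lb.d (nat_lit 16) (nat_lit 512) (nat_lit 66) (@Lb.g g10 (@Lb.g g7 (@Lb.r r424 (@Lb.r r617 (@Lb.r r338 (@Lb.d (nat_lit 1) (nat_lit 97) (nat_lit 325) (@Lb.fp (nat_lit 3) t1926))))))))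
noncomputable def l19059 : Lb := (@Lb.r r273 (@Lb.r r322 (@Lb.d (nat_lit 273) (nat_lit 512) (nat_lit 384) (@Lb.g g4 (@Lb.g g7 (@Lb.r r2438 (@Lb.r r2341 (@Lb.d (nat_lit 257) (nat_lit 0) (nat_lit 36) (@Lb.fm (nat_lit 3) t3834)))))))))
noncomputable def l19060 : Lb := (@Lb.d (nat_lit 0) (nat_lit 33) (nat_lit 73) (@Lb.g g9 (@Lb.g g10 (@Lb.g g11 (@Lb.r r387 (@Lb.r r1682 (@Lb.r r1561 (@Lb.r r24 (@Lb.d (nat_lit 514) (nat_lit 0) (nat_lit 344) (@Lb.t (@Lb.fm (nat_lit 9) t3202)))))))))))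
noncomputable def l19061 : Lb := (@Lb.d (nat_lit 2) (nat_lit 258) (nat_lit 137) (@Lb.g g8 (@Lb.g g9 (@Lb.g g10 (@Lb.g g11 (@Lb.r r1626 (@Lb.r r2659 (@Lb.r r97 (@Lb.r r24 (@Lb.d (nat_lit 426) (nat_lit 33) (nat_lit 602) (@Lb.fm (nat_lit 9) t1227)))))))))))
noncomputable def l19062 : Lb := (@Lb.r r275 (@Lb.d (nat_lit 2) (nat_lit 512) (nat_lit 2) (@Lb.g g8 (@Lb.g g9 (@Lb.g g10 (@Lb.r r1689 (@Lb.r r1563 (@Lb.r r2122 (@Lb.d (nat_lit 289) (nat_lit 10) (nat_lit 1) (@Lb.t (@Lb.fp (nat_lit 9) t1446)))))))))))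
noncomputable def l19063 : Lb := (@Lb.r r82 (@Lb.d (nat_lit 134) (nat_lit 529) (nat_lit 0) (@Lb.g g8 (@Lb.g g9 (@Lb.g g11 (@Lb.r r555 (@Lb.r r2218 (@Lb.r r2709 (@Lb.r r516 (@Lb.d (nat_lit 550) (nat_lit 148) (nat_lit 617) (@Lb.t (@Lb.fm (nat_lit 9) t3835))))))))))))
noncomputable def l19064 : Lb := (@Lb.d (nat_lit 2) (nat_lit 2) (nat_lit 137) (@Lb.g g8 (@Lb.g g9 (@Lb.g g10 (@Lb.g g11 (@Lb.r r1626 (@Lb.r r2659 (@Lb.r r97 (@Lb.r r24 (@Lb.d (nat_lit 421) (nat_lit 42) (nat_lit 601) (@Lb.fm (nat_lit 9) t1227)))))))))))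
noncomputable def l19065 : Lb := (@Lb.r r81 (@Lb.d (nat_lit 154) (nat_lit 288) (nat_lit 162) (@Lb.g g8 (@Lb.g g6 (@Lb.g g11 (@Lb.r r2449 (@Lb.r r295 (@Lb.r r1624 (@Lb.d (nat_lit 345) (nat_lit 154) (nat_lit 145) (@Lb.t (@Lb.fm (nat_lit 9) t3836)))))))))))
noncomputable def l19066 : Lb := (@Lb.d (nat_lit 134) (nat_lit 546) (nat_lit 66) (@Lb.g g8 (@Lb.g g9 (@Lb.g g10 (@Lb.g g11 (@Lb.r r1706 (@Lb.r r1419 (@Lb.r r2577 (@Lb.r r1156 (@Lb.d (nat_lit 101) (nat_lit 98) (nat_lit 100) (@Lb.fm (nat_lit 9) t3837)))))))))))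
noncomputable def l19067 : Lb := (@Lb.d (nat_lit 0) (nat_lit 256) (nat_lit 73) (@Lb.g g4 (@Lb.g g10 (@Lb.g g11 (@Lb.r r2691 (@Lb.r r1158 (@Lb.r r1425 (@Lb.d (nat_lit 129) (nat_lit 5) (nat_lit 137) (@Lb.t (@Lb.fp (nat_lit 9) t3838))))))))))
noncomputable def l19068 : Lb := (@Lb.d (nat_lit 148) (nat_lit 266) (nat_lit 130) (@Lb.g g8 (@Lb.g g9 (@Lb.g g10 (@Lb.g g11 (@Lb.r r1706 (@Lb.r r1411 (@Lb.r r2201 (@Lb.r r408 (@Lb.d (nat_lit 385) (nat_lit 22) (nat_lit 260) (@Lb.fp (nat_lit 9) t3839)))))))))))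
noncomputable def l19069 : Lb := (@Lb.d (nat_lit 134) (nat_lit 522) (nat_lit 129) (@Lb.g g8 (@Lb.g g9 (@Lb.g g10 (@Lb.g g11 (@Lb.r r2721 (@Lb.r r2343 (@Lb.r r1160 (@Lb.r r2154 (@Lb.d (nat_lit 409) (nat_lit 165) (nat_lit 96) (@Lb.fp (nat_lit 9) t2147)))))))))))
noncomputable def l19070 : Lb := (@Lb.d (nat_lit 148) (nat_lit 10) (nat_lit 130) (@Lb.g g8 (@Lb.g g9 (@Lb.g g10 (@Lb.g g11 (@Lb.r r1706 (@Lb.r r1411 (@Lb.r r1553 (@Lb.r r420 (@Lb.d (nat_lit 594) (nat_lit 161) (nat_lit 292) (@Lb.fm (nat_lit 9) t783)))))))))))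
noncomputable def l19071 : Lb := (@Lb.r r70 (@Lb.d (nat_lit 161) (nat_lit 514) (nat_lit 128) (@Lb.g g8 (@Lb.g g9 (@Lb.g g11 (@Lb.r r2390 (@Lb.r r1411 (@Lb.r r2597 (@Lb.r r1300 (@Lb.d (nat_lit 677) (nat_lit 82) (nat_lit 538) (@Lb.t (@Lb.fp (nat_lit 9) t3))))))))))))
noncomputable def l19072 : Lb := (@Lb.r r82 (@Lb.d (nat_lit 8) (nat_lit 514) (nat_lit 128) (@Lb.g g9 (@Lb.g g11 (@Lb.r r1575 (@Lb.r r614 (@Lb.r r404 (@Lb.r r681 (@Lb.d (nat_lit 84) (nat_lit 138) (nat_lit 136) (@Lb.fm (nat_lit 3) t3840))))))))))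
noncomputable def l19073 : Lb := (@Lb.r r323 (@Lb.d (nat_lit 2) (nat_lit 258) (nat_lit 2) (@Lb.g g8 (@Lb.g g9 (@Lb.g g10 (@Lb.r r2210 (@Lb.r r2600 (@Lb.r r2713 (@Lb.r r1555 (@Lb.d (nat_lit 82) (nat_lit 74) (nat_lit 297) (@Lb.t (@Lb.fp (nat_lit 9) t1371))))))))))))
noncomputable def l19074 : Lb := (@Lb.d (nat_lit 144) (nat_lit 2) (nat_lit 256) (@Lb.g g8 (@Lb.g g9 (@Lb.g g10 (@Lb.g g7 (@Lb.r r164 (@Lb.r r2470 (@Lb.r r37 (@Lb.d (nat_lit 264) (nat_lit 153) (nat_lit 537) (@Lb.fm (nat_lit 9) t101))))))))))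
noncomputable def l19075 : Lb := (@Lb.d (nat_lit 401) (nat_lit 610) (nat_lit 293) (@Lb.r r24 (@Lb.r r402 (@Lb.g g11 (@Lb.g g6 (@Lb.g g9 (@Lb.d (nat_lit 0) (nat_lit 0) (nat_lit 128) (@Lb.t (@Lb.fp (nat_lit 9) t3841)))))))))
noncomputable def l19076 : Lb := (@Lb.d (nat_lit 32) (nat_lit 8) (nat_lit 64) (@Lb.g g10 (@Lb.g g11 (@Lb.r r360 (@Lb.r r1641 (@Lb.r r2411 (@Lb.r r598 (@Lb.d (nat_lit 278) (nat_lit 38) (nat_lit 665) (@Lb.fm (nat_lit 3) t3263)))))))))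
noncomputable def l19077 : Lb := (@Lb.d (nat_lit 401) (nat_lit 324) (nat_lit 290) (@Lb.r r24 (@Lb.r r146 (@Lb.g g6 (@Lb.g g9 (@Lb.d (nat_lit 0) (nat_lit 0) (nat_lit 1) (@Lb.fp (nat_lit 3) t2397)))))))
noncomputable def l19078 : Lb := (@Lb.d (nat_lit 401) (nat_lit 324) (nat_lit 290) (@Lb.r r24 (@Lb.r r146 (@Lb.g g7 (@Lb.g g6 (@Lb.g g9 (@Lb.d (nat_lit 0) (nat_lit 0) (nat_lit 1) (@Lb.t (@Lb.fm (nat_lit 9) t3842)))))))))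
noncomputable def l19079 : Lb := (@Lb.r r2069 (@Lb.r r2118 (@Lb.d (nat_lit 130) (nat_lit 0) (nat_lit 0) (@Lb.g g8 (@Lb.d (nat_lit 2) (nat_lit 0) (nat_lit 256) (@Lb.t (@Lb.fp (nat_lit 3) t3843)))))))
noncomputable def l19080 : Lb := (@Lb.d (nat_lit 390) (nat_lit 385) (nat_lit 256) (@Lb.r r2341 (@Lb.r r1624 (@Lb.r r2470 (@Lb.r r339 (@Lb.g g7 (@Lb.g g6 (@Lb.g g5 (@Lb.d (nat_lit 0) (nat_lit 0) (nat_lit 65) (@Lb.t (@Lb.fm (nat_lit 9) t1329)))))))))))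
noncomputable def l19081 : Lb := (@Lb.r r323 (@Lb.d (nat_lit 8) (nat_lit 290) (nat_lit 18) (@Lb.g g9 (@Lb.g g10 (@Lb.r r603 (@Lb.r r2580 (@Lb.r r1433 (@Lb.d (nat_lit 393) (nat_lit 90) (nat_lit 512) (@Lb.fp (nat_lit 3) t296)))))))))
noncomputable def l19082 : Lb := (@Lb.d (nat_lit 390) (nat_lit 136) (nat_lit 258) (@Lb.r r2341 (@Lb.r r1624 (@Lb.r r2470 (@Lb.r r339 (@Lb.g g7 (@Lb.g g6 (@Lb.g g5 (@Lb.d (nat_lit 4) (nat_lit 1) (nat_lit 8) (@Lb.t (@Lb.fm (nat_lit 9) t3844)))))))))))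
noncomputable def l19083 : Lb := (@Lb.r r323 (@Lb.d (nat_lit 8) (nat_lit 546) (nat_lit 18) (@Lb.g g9 (@Lb.g g10 (@Lb.r r603 (@Lb.r r2580 (@Lb.r r1433 (@Lb.d (nat_lit 384) (nat_lit 88) (nat_lit 512) (@Lb.fp (nat_lit 3) t3845)))))))))
noncomputable def l19084 : Lb := (@Lb.d (nat_lit 401) (nat_lit 393) (nat_lit 272) (@Lb.r r281 (@Lb.r r408 (@Lb.r r1642 (@Lb.r r2403 (@Lb.r r337 (@Lb.g g11 (@Lb.g g6 (@Lb.g g5 (@Lb.g g8 (@Lb.fm (nat_lit 9) t3846)))))))))))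
noncomputable def l19085 : Lb := (@Lb.d (nat_lit 553) (nat_lit 25) (nat_lit 358) (@Lb.r r362 (@Lb.r r1431 (@Lb.r r1641 (@Lb.r r360 (@Lb.g g7 (@Lb.g g6 (@Lb.d (nat_lit 16) (nat_lit 4) (nat_lit 128) (@Lb.fm (nat_lit 3) t3847)))))))))
noncomputable def l19086 : Lb := (@Lb.r r2069 (@Lb.r r2118 (@Lb.g g4 (@Lb.r r292 (@Lb.d (nat_lit 128) (nat_lit 144) (nat_lit 320) (@Lb.t (@Lb.fm (nat_lit 3) t3848)))))))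
noncomputable def l19087 : Lb := (@Lb.r r323 (@Lb.d (nat_lit 8) (nat_lit 546) (nat_lit 18) (@Lb.g g9 (@Lb.g g10 (@Lb.r r603 (@Lb.r r2580 (@Lb.r r1433 (@Lb.d (nat_lit 393) (nat_lit 90) (nat_lit 650) (@Lb.fp (nat_lit 3) t296)))))))))
noncomputable def l19088 : Lb := (@Lb.d (nat_lit 0) (nat_lit 0) (nat_lit 138) (@Lb.g g5 (@Lb.g g10 (@Lb.g g7 (@Lb.r r402 (@Lb.d (nat_lit 0) (nat_lit 24) (nat_lit 9) (@Lb.t (@Lb.fp (nat_lit 9) t44))))))))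
noncomputable def l19089 : Lb := (@Lb.r r82 (@Lb.d (nat_lit 0) (nat_lit 34) (nat_lit 136) (@Lb.g g9 (@Lb.g g11 (@Lb.r r98 (@Lb.d (nat_lit 10) (nat_lit 0) (nat_lit 2) (@Lb.fm (nat_lit 3) t3849)))))))
noncomputable def l19090 : Lb := (@Lb.d (nat_lit 8) (nat_lit 8) (nat_lit 73) (@Lb.g g8 (@Lb.g g9 (@Lb.g g10 (@Lb.g g11 (@Lb.r r643 (@Lb.r r597 (@Lb.r r682 (@Lb.r r168 (@Lb.d (nat_lit 134) (nat_lit 1) (nat_lit 74) (@Lb.fm (nat_lit 9) t3850)))))))))))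
noncomputable def l19091 : Lb := (@Lb.r r82 (@Lb.d (nat_lit 1) (nat_lit 41) (nat_lit 64) (@Lb.g g4 (@Lb.g g9 (@Lb.g g11 (@Lb.r r615 (@Lb.r r402 (@Lb.r r601 (@Lb.d (nat_lit 136) (nat_lit 40) (nat_lit 68) (@Lb.t (@Lb.fp (nat_lit 9) t686)))))))))))
noncomputable def l19092 : Lb := (@Lb.d (nat_lit 9) (nat_lit 1) (nat_lit 74) (@Lb.g g8 (@Lb.g g9 (@Lb.g g10 (@Lb.g g11 (@Lb.r r643 (@Lb.r r297 (@Lb.r r360 (@Lb.r r582 (@Lb.r r132 (@Lb.d (nat_lit 129) (nat_lit 10) (nat_lit 73) (@Lb.fm (nat_lit 9) t242))))))))))))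
noncomputable def l19093 : Lb := (@Lb.d (nat_lit 129) (nat_lit 545) (nat_lit 2) (@Lb.g g8 (@Lb.g g9 (@Lb.g g10 (@Lb.r r519 (@Lb.r r2440 (@Lb.r r2154 (@Lb.r r2145 (@Lb.d (nat_lit 42) (nat_lit 42) (nat_lit 661) (@Lb.t (@Lb.fp (nat_lit 9) t127)))))))))))
noncomputable def l19094 : Lb := (@Lb.d (nat_lit 2) (nat_lit 514) (nat_lit 130) (@Lb.g g8 (@Lb.g g9 (@Lb.g g10 (@Lb.g g11 (@Lb.r r1371 (@Lb.r r386 (@Lb.r r97 (@Lb.r r24 (@Lb.d (nat_lit 258) (nat_lit 9) (nat_lit 137) (@Lb.fm (nat_lit 9) t3788)))))))))))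
noncomputable def l19095 : Lb := (@Lb.d (nat_lit 2) (nat_lit 545) (nat_lit 2) (@Lb.g g8 (@Lb.g g9 (@Lb.g g10 (@Lb.r r535 (@Lb.r r2472 (@Lb.r r2154 (@Lb.r r2145 (@Lb.d (nat_lit 42) (nat_lit 136) (nat_lit 145) (@Lb.t (@Lb.fp (nat_lit 9) t127)))))))))))
noncomputable def l19096 : Lb := (@Lb.r r82 (@Lb.d (nat_lit 2) (nat_lit 2) (nat_lit 128) (@Lb.g g8 (@Lb.g g9 (@Lb.g g11 (@Lb.r r2459 (@Lb.r r418 (@Lb.r r289 (@Lb.r r24 (@Lb.d (nat_lit 536) (nat_lit 2) (nat_lit 138) (@Lb.t (@Lb.fp (nat_lit 9) t830))))))))))))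
noncomputable def l19097 : Lb := (@Lb.d (nat_lit 162) (nat_lit 101) (nat_lit 292) (@Lb.r r1633 (@Lb.r r2390 (@Lb.r r1699 (@Lb.g g7 (@Lb.g g6 (@Lb.g g5 (@Lb.g g4 (@Lb.d (nat_lit 0) (nat_lit 25) (nat_lit 128) (@Lb.fp (nat_lit 9) t3851))))))))))
noncomputable def l19098 : Lb := (@Lb.d (nat_lit 4) (nat_lit 546) (nat_lit 130) (@Lb.g g8 (@Lb.g g9 (@Lb.g g10 (@Lb.g g11 (@Lb.r r683 (@Lb.r r362 (@Lb.r r1561 (@Lb.d (nat_lit 586) (nat_lit 137) (nat_lit 37) (@Lb.fm (nat_lit 9) t1047))))))))))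
noncomputable def l19099 : Lb := (@Lb.r r323 (@Lb.d (nat_lit 0) (nat_lit 0) (nat_lit 1) (@Lb.g g8 (@Lb.g g6 (@Lb.r r579 (@Lb.r r2145 (@Lb.r r2120 (@Lb.d (nat_lit 0) (nat_lit 0) (nat_lit 22) (@Lb.fm (nat_lit 3) t40)))))))))
noncomputable def l19100 : Lb := (@Lb.d (nat_lit 8) (nat_lit 512) (nat_lit 64) (@Lb.g g8 (@Lb.g g7 (@Lb.r r1177 (@Lb.r r2134 (@Lb.r r2184 (@Lb.d (nat_lit 674) (nat_lit 88) (nat_lit 322) (@Lb.fm (nat_lit 3) t3852))))))))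
noncomputable def l19101 : Lb := (@Lb.d (nat_lit 536) (nat_lit 644) (nat_lit 70) (@Lb.r r86 (@Lb.r r343 (@Lb.g g7 (@Lb.g g6 (@Lb.g g5 (@Lb.g g4 (@Lb.d (nat_lit 530) (nat_lit 134) (nat_lit 66) (@Lb.fp (nat_lit 9) t40)))))))))
noncomputable def l19102 : Lb := (@Lb.d (nat_lit 2) (nat_lit 2) (nat_lit 0) (@Lb.g g8 (@Lb.g g9 (@Lb.g g10 (@Lb.g g11 (@Lb.r r1451 (@Lb.r r145 (@Lb.r r36 (@Lb.d (nat_lit 522) (nat_lit 9) (nat_lit 1) (@Lb.fp (nat_lit 9) t277))))))))))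
noncomputable def l19103 : Lb := (@Lb.d (nat_lit 536) (nat_lit 132) (nat_lit 136) (@Lb.r r86 (@Lb.r r343 (@Lb.g g7 (@Lb.g g6 (@Lb.g g5 (@Lb.g g4 (@Lb.d (nat_lit 530) (nat_lit 134) (nat_lit 132) (@Lb.fp (nat_lit 9) t40)))))))))
noncomputable def l19104 : Lb := (@Lb.r r323 (@Lb.d (nat_lit 38) (nat_lit 522) (nat_lit 1) (@Lb.g g8 (@Lb.g g9 (@Lb.g g10 (@Lb.r r683 (@Lb.r r2209 (@Lb.r r2184 (@Lb.r r1130 (@Lb.d (nat_lit 265) (nat_lit 65) (nat_lit 86) (@Lb.t (@Lb.fp (nat_lit 9) t41))))))))))))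
noncomputable def l19105 : Lb := (@Lb.r r323 (@Lb.d (nat_lit 0) (nat_lit 512) (nat_lit 1) (@Lb.g g8 (@Lb.g g9 (@Lb.g g6 (@Lb.r r579 (@Lb.r r20 (@Lb.r r105 (@Lb.r r36 (@Lb.d (nat_lit 10) (nat_lit 2) (nat_lit 22) (@Lb.t (@Lb.fp (nat_lit 9) t40))))))))))))
noncomputable def l19106 : Lb := (@Lb.d (nat_lit 4) (nat_lit 10) (nat_lit 130) (@Lb.g g8 (@Lb.g g9 (@Lb.g g10 (@Lb.g g11 (@Lb.r r657 (@Lb.r r279 (@Lb.r r138 (@Lb.r r529 (@Lb.r r36 (@Lb.d (nat_lit 422) (nat_lit 21) (nat_lit 169) (@Lb.fm (nat_lit 9) t1237))))))))))))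
noncomputable def l19107 : Lb := (@Lb.d (nat_lit 294) (nat_lit 385) (nat_lit 325) (@Lb.r r2202 (@Lb.r r1365 (@Lb.r r1571 (@Lb.g g6 (@Lb.g g5 (@Lb.g g4 (@Lb.d (nat_lit 289) (nat_lit 1) (nat_lit 2) (@Lb.t (@Lb.fp (nat_lit 9) t1744))))))))))
noncomputable def l19108 : Lb := (@Lb.r r323 (@Lb.d (nat_lit 0) (nat_lit 258) (nat_lit 1) (@Lb.g g8 (@Lb.g g9 (@Lb.g g6 (@Lb.r r579 (@Lb.r r100 (@Lb.r r21 (@Lb.r r36 (@Lb.d (nat_lit 33) (nat_lit 130) (nat_lit 22) (@Lb.t (@Lb.fm (nat_lit 9) t360))))))))))))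
noncomputable def l19109 : Lb := (@Lb.r r82 (@Lb.d (nat_lit 0) (nat_lit 512) (nat_lit 584) (@Lb.g g9 (@Lb.g g7 (@Lb.r r1381 (@Lb.r r146 (@Lb.r r24 (@Lb.d (nat_lit 664) (nat_lit 37) (nat_lit 361) (@Lb.fm (nat_lit 3) t2000)))))))))
noncomputable def l19110 : Lb := (@Lb.d (nat_lit 9) (nat_lit 256) (nat_lit 10) (@Lb.g g8 (@Lb.g g10 (@Lb.r r1045 (@Lb.r r36 (@Lb.d (nat_lit 352) (nat_lit 66) (nat_lit 169) (@Lb.fm (nat_lit 3) t1432)))))))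
noncomputable def l19111 : Lb := (@Lb.d (nat_lit 2) (nat_lit 132) (nat_lit 65) (@Lb.r r609 (@Lb.r r619 (@Lb.r r584 (@Lb.g g6 (@Lb.g g5 (@Lb.d (nat_lit 20) (nat_lit 1) (nat_lit 1) (@Lb.r r387 (@Lb.fp (nat_lit 3) t68)))))))))
noncomputable def l19112 : Lb := (@Lb.d (nat_lit 1) (nat_lit 256) (nat_lit 0) (@Lb.g g4 (@Lb.r r1098 (@Lb.r r1049 (@Lb.d (nat_lit 614) (nat_lit 128) (nat_lit 528) (@Lb.t (@Lb.fm (nat_lit 3) t49)))))))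
noncomputable def l19113 : Lb := (@Lb.d (nat_lit 1) (nat_lit 2) (nat_lit 73) (@Lb.g g4 (@Lb.g g9 (@Lb.g g10 (@Lb.g g11 (@Lb.r r2691 (@Lb.r r149 (@Lb.r r1618 (@Lb.r r145 (@Lb.d (nat_lit 609) (nat_lit 160) (nat_lit 362) (@Lb.fp (nat_lit 9) t3853)))))))))))
noncomputable def l19114 : Lb := (@Lb.d (nat_lit 656) (nat_lit 328) (nat_lit 330) (@Lb.r r153 (@Lb.r r84 (@Lb.r r2374 (@Lb.r r2691 (@Lb.g g7 (@Lb.g g6 (@Lb.d (nat_lit 0) (nat_lit 0) (nat_lit 134) (@Lb.fp (nat_lit 3) t3472)))))))))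
noncomputable def l19115 : Lb := (@Lb.r r20 (@Lb.d (nat_lit 36) (nat_lit 73) (nat_lit 129) (@Lb.g g9 (@Lb.g g10 (@Lb.g g11 (@Lb.r r299 (@Lb.r r68 (@Lb.r r106 (@Lb.d (nat_lit 552) (nat_lit 10) (nat_lit 136) (@Lb.t (@Lb.fm (nat_lit 9) t1045)))))))))))
noncomputable def l19116 : Lb := (@Lb.d (nat_lit 356) (nat_lit 16) (nat_lit 660) (@Lb.r r24 (@Lb.r r146 (@Lb.r r1381 (@Lb.g g11 (@Lb.g g5 (@Lb.d (nat_lit 0) (nat_lit 0) (nat_lit 388) (@Lb.r r98 (@Lb.fm (nat_lit 3) t3854)))))))))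
noncomputable def l19117 : Lb := (@Lb.d (nat_lit 0) (nat_lit 357) (nat_lit 130) (@Lb.r r1284 (@Lb.r r2331 (@Lb.r r420 (@Lb.r r89 (@Lb.g g6 (@Lb.d (nat_lit 16) (nat_lit 8) (nat_lit 2) (@Lb.t (@Lb.fm (nat_lit 3) t3855)))))))))
noncomputable def l19118 : Lb := (@Lb.d (nat_lit 0) (nat_lit 88) (nat_lit 70) (@Lb.r r593 (@Lb.r r347 (@Lb.r r328 (@Lb.r r70 (@Lb.g g6 (@Lb.g g5 (@Lb.g g4 (@Lb.d (nat_lit 1) (nat_lit 2) (nat_lit 2) (@Lb.t (@Lb.fm (nat_lit 9) t1105)))))))))))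
noncomputable def l19119 : Lb := (@Lb.d (nat_lit 5) (nat_lit 521) (nat_lit 362) (@Lb.r r1361 (@Lb.r r2727 (@Lb.r r356 (@Lb.r r1114 (@Lb.g g7 (@Lb.g g6 (@Lb.g g5 (@Lb.d (nat_lit 8) (nat_lit 2) (nat_lit 134) (@Lb.t (@Lb.fm (nat_lit 9) t2075)))))))))))
noncomputable def l19120 : Lb := (@Lb.d (nat_lit 261) (nat_lit 682) (nat_lit 660) (@Lb.r r21 (@Lb.r r86 (@Lb.r r424 (@Lb.g g11 (@Lb.g g6 (@Lb.g g5 (@Lb.g g4 (@Lb.d (nat_lit 0) (nat_lit 1) (nat_lit 72) (@Lb.fp (nat_lit 9) t1524))))))))))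
noncomputable def l19121 : Lb := (@Lb.d (nat_lit 320) (nat_lit 154) (nat_lit 358) (@Lb.r r24 (@Lb.r r146 (@Lb.r r357 (@Lb.r r2691 (@Lb.g g7 (@Lb.g g6 (@Lb.g g5 (@Lb.d (nat_lit 0) (nat_lit 0) (nat_lit 65) (@Lb.t (@Lb.fp (nat_lit 9) t3856)))))))))))
noncomputable def l19122 : Lb := (@Lb.d (nat_lit 6) (nat_lit 328) (nat_lit 2) (@Lb.r r289 (@Lb.r r279 (@Lb.r r584 (@Lb.r r326 (@Lb.g g7 (@Lb.g g6 (@Lb.g g5 (@Lb.d (nat_lit 4) (nat_lit 8) (nat_lit 64) (@Lb.t (@Lb.fp (nat_lit 9) t597)))))))))))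
noncomputable def l19123 : Lb := (@Lb.d (nat_lit 100) (nat_lit 336) (nat_lit 132) (@Lb.r r24 (@Lb.r r82 (@Lb.r r421 (@Lb.g g11 (@Lb.g g6 (@Lb.g g5 (@Lb.d (nat_lit 0) (nat_lit 0) (nat_lit 129) (@Lb.t (@Lb.fm (nat_lit 9) t2791))))))))))
noncomputable def l19124 : Lb := (@Lb.r r82 (@Lb.d (nat_lit 4) (nat_lit 265) (nat_lit 128) (@Lb.g g5 (@Lb.g g11 (@Lb.r r1627 (@Lb.r r98 (@Lb.d (nat_lit 64) (nat_lit 6) (nat_lit 513) (@Lb.fm (nat_lit 3) t3210))))))))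
noncomputable def l19125 : Lb := (@Lb.r r82 (@Lb.d (nat_lit 6) (nat_lit 610) (nat_lit 64) (@Lb.g g4 (@Lb.g g9 (@Lb.g g11 (@Lb.r r291 (@Lb.r r146 (@Lb.d (nat_lit 8) (nat_lit 146) (nat_lit 389) (@Lb.t (@Lb.fm (nat_lit 9) t3857))))))))))
noncomputable def l19126 : Lb := (@Lb.d (nat_lit 354) (nat_lit 537) (nat_lit 662) (@Lb.r r24 (@Lb.r r146 (@Lb.r r1381 (@Lb.g g11 (@Lb.g g5 (@Lb.d (nat_lit 0) (nat_lit 0) (nat_lit 388) (@Lb.r r98 (@Lb.fm (nat_lit 3) t3857)))))))))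
noncomputable def l19127 : Lb := (@Lb.r r323 (@Lb.d (nat_lit 0) (nat_lit 0) (nat_lit 2) (@Lb.g g9 (@Lb.g g10 (@Lb.r r675 (@Lb.r r2214 (@Lb.r r2644 (@Lb.r r1321 (@Lb.d (nat_lit 64) (nat_lit 162) (nat_lit 256) (@Lb.fp (nat_lit 3) t3578))))))))))
noncomputable def l19128 : Lb := (@Lb.d (nat_lit 292) (nat_lit 682) (nat_lit 610) (@Lb.r r24 (@Lb.r r2659 (@Lb.r r1362 (@Lb.r r677 (@Lb.g g7 (@Lb.g g6 (@Lb.g g5 (@Lb.d (nat_lit 0) (nat_lit 5) (nat_lit 66) (@Lb.t (@Lb.fm (nat_lit 9) t1412)))))))))))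
noncomputable def l19129 : Lb := (@Lb.d (nat_lit 0) (nat_lit 5) (nat_lit 0) (@Lb.g g5 (@Lb.r r402 (@Lb.r r2436 (@Lb.d (nat_lit 0) (nat_lit 165) (nat_lit 682) (@Lb.t (@Lb.fp (nat_lit 3) t652)))))))
noncomputable def l19130 : Lb := (@Lb.r r82 (@Lb.d (nat_lit 34) (nat_lit 266) (nat_lit 0) (@Lb.g g8 (@Lb.g g9 (@Lb.g g11 (@Lb.r r1635 (@Lb.r r582 (@Lb.r r2712 (@Lb.r r1637 (@Lb.d (nat_lit 422) (nat_lit 89) (nat_lit 86) (@Lb.t (@Lb.fp (nat_lit 9) t1549))))))))))))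
noncomputable def l19131 : Lb := (@Lb.r r70 (@Lb.d (nat_lit 4) (nat_lit 258) (nat_lit 0) (@Lb.g g8 (@Lb.g g9 (@Lb.g g11 (@Lb.r r1579 (@Lb.r r1410 (@Lb.r r1169 (@Lb.r r612 (@Lb.d (nat_lit 265) (nat_lit 4) (nat_lit 33) (@Lb.t (@Lb.fm (nat_lit 9) t152))))))))))))
noncomputable def l19132 : Lb := (@Lb.d (nat_lit 2) (nat_lit 294) (nat_lit 128) (@Lb.g g8 (@Lb.g g9 (@Lb.g g10 (@Lb.g g11 (@Lb.r r1706 (@Lb.r r545 (@Lb.r r1428 (@Lb.r r2347 (@Lb.d (nat_lit 4) (nat_lit 145) (nat_lit 586) (@Lb.fp (nat_lit 9) t264)))))))))))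
noncomputable def l19133 : Lb := (@Lb.r r70 (@Lb.r r263 (@Lb.d (nat_lit 5) (nat_lit 64) (nat_lit 0) (@Lb.g g8 (@Lb.g g9 (@Lb.r r2347 (@Lb.r r2442 (@Lb.r r1444 (@Lb.d (nat_lit 618) (nat_lit 101) (nat_lit 256) (@Lb.fp (nat_lit 3) t3858))))))))))
noncomputable def l19134 : Lb := (@Lb.d (nat_lit 134) (nat_lit 258) (nat_lit 130) (@Lb.g g8 (@Lb.g g9 (@Lb.g g10 (@Lb.g g11 (@Lb.r r1443 (@Lb.r r1156 (@Lb.r r2438 (@Lb.r r1121 (@Lb.d (nat_lit 360) (nat_lit 85) (nat_lit 166) (@Lb.fp (nat_lit 9) t3099)))))))))))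
noncomputable def l19135 : Lb := (@Lb.r r82 (@Lb.d (nat_lit 34) (nat_lit 522) (nat_lit 0) (@Lb.g g8 (@Lb.g g9 (@Lb.g g11 (@Lb.r r1635 (@Lb.r r582 (@Lb.r r2712 (@Lb.r r1637 (@Lb.d (nat_lit 421) (nat_lit 89) (nat_lit 86) (@Lb.t (@Lb.fp (nat_lit 9) t1549))))))))))))
noncomputable def l19136 : Lb := (@Lb.d (nat_lit 2) (nat_lit 258) (nat_lit 2) (@Lb.g g8 (@Lb.g g9 (@Lb.g g10 (@Lb.g g11 (@Lb.r r169 (@Lb.r r296 (@Lb.r r391 (@Lb.r r386 (@Lb.r r132 (@Lb.d (nat_lit 2) (nat_lit 10) (nat_lit 25) (@Lb.fm (nat_lit 9) t590))))))))))))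
noncomputable def l19137 : Lb := (@Lb.r r82 (@Lb.d (nat_lit 34) (nat_lit 33) (nat_lit 128) (@Lb.g g8 (@Lb.g g9 (@Lb.g g11 (@Lb.r r1571 (@Lb.r r582 (@Lb.r r2712 (@Lb.r r1637 (@Lb.d (nat_lit 385) (nat_lit 82) (nat_lit 84) (@Lb.t (@Lb.fp (nat_lit 9) t1549))))))))))))
noncomputable def l19138 : Lb := (@Lb.d (nat_lit 9) (nat_lit 520) (nat_lit 130) (@Lb.g g8 (@Lb.g g10 (@Lb.g g11 (@Lb.r r1707 (@Lb.r r2341 (@Lb.r r1620 (@Lb.r r2154 (@Lb.d (nat_lit 294) (nat_lit 73) (nat_lit 169) (@Lb.t (@Lb.fm (nat_lit 9) t51)))))))))))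
noncomputable def l19139 : Lb := (@Lb.d (nat_lit 145) (nat_lit 258) (nat_lit 128) (@Lb.g g8 (@Lb.g g9 (@Lb.g g10 (@Lb.g g11 (@Lb.r r387 (@Lb.r r402 (@Lb.r r1561 (@Lb.r r1560 (@Lb.d (nat_lit 609) (nat_lit 106) (nat_lit 673) (@Lb.fp (nat_lit 9) t409)))))))))))
noncomputable def l19140 : Lb := (@Lb.d (nat_lit 8) (nat_lit 514) (nat_lit 128) (@Lb.g g9 (@Lb.g g10 (@Lb.g g11 (@Lb.r r387 (@Lb.r r402 (@Lb.r r24 (@Lb.r r101 (@Lb.d (nat_lit 21) (nat_lit 132) (nat_lit 1) (@Lb.t (@Lb.fp (nat_lit 9) t240)))))))))))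
noncomputable def l19141 : Lb := (@Lb.d (nat_lit 1) (nat_lit 256) (nat_lit 137) (@Lb.g g8 (@Lb.g g10 (@Lb.g g11 (@Lb.r r1675 (@Lb.r r1668 (@Lb.r r1174 (@Lb.r r2145 (@Lb.d (nat_lit 4) (nat_lit 96) (nat_lit 640) (@Lb.t (@Lb.fp (nat_lit 9) t51)))))))))))
noncomputable def l19142 : Lb := (@Lb.d (nat_lit 529) (nat_lit 513) (nat_lit 84) (@Lb.r r70 (@Lb.r r392 (@Lb.r r599 (@Lb.g g6 (@Lb.g g5 (@Lb.g g4 (@Lb.d (nat_lit 1) (nat_lit 17) (nat_lit 1) (@Lb.r r387 (@Lb.t (@Lb.fp (nat_lit 9) t296)))))))))))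
noncomputable def l19143 : Lb := (@Lb.r r20 (@Lb.d (nat_lit 160) (nat_lit 258) (nat_lit 66) (@Lb.g g9 (@Lb.g g6 (@Lb.g g11 (@Lb.r r264 (@Lb.r r407 (@Lb.r r529 (@Lb.d (nat_lit 38) (nat_lit 22) (nat_lit 132) (@Lb.t (@Lb.fm (nat_lit 9) t51)))))))))))
noncomputable def l19144 : Lb := (@Lb.r r20 (@Lb.d (nat_lit 32) (nat_lit 2) (nat_lit 73) (@Lb.g g9 (@Lb.g g6 (@Lb.g g11 (@Lb.r r388 (@Lb.r r283 (@Lb.r r529 (@Lb.d (nat_lit 8) (nat_lit 25) (nat_lit 133) (@Lb.t (@Lb.fp (nat_lit 9) t51)))))))))))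
noncomputable def l19145 : Lb := (@Lb.d (nat_lit 0) (nat_lit 546) (nat_lit 130) (@Lb.g g8 (@Lb.g g9 (@Lb.g g10 (@Lb.g g11 (@Lb.r r387 (@Lb.r r1177 (@Lb.r r2458 (@Lb.r r24 (@Lb.d (nat_lit 593) (nat_lit 0) (nat_lit 100) (@Lb.fp (nat_lit 9) t3202)))))))))))
noncomputable def l19146 : Lb := (@Lb.d (nat_lit 0) (nat_lit 546) (nat_lit 130) (@Lb.g g9 (@Lb.g g10 (@Lb.g g11 (@Lb.r r387 (@Lb.r r1177 (@Lb.r r2458 (@Lb.r r24 (@Lb.d (nat_lit 593) (nat_lit 0) (nat_lit 100) (@Lb.t (@Lb.fm (nat_lit 9) t3202)))))))))))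
noncomputable def l19147 : Lb := (@Lb.d (nat_lit 10) (nat_lit 256) (nat_lit 0) (@Lb.g g8 (@Lb.r r1571 (@Lb.r r2178 (@Lb.r r149 (@Lb.r r1636 (@Lb.d (nat_lit 649) (nat_lit 154) (nat_lit 665) (@Lb.t (@Lb.fp (nat_lit 3) t2087)))))))))
noncomputable def l19148 : Lb := (@Lb.d (nat_lit 130) (nat_lit 290) (nat_lit 2) (@Lb.g g8 (@Lb.g g9 (@Lb.g g10 (@Lb.r r1450 (@Lb.r r583 (@Lb.r r408 (@Lb.r r2085 (@Lb.d (nat_lit 64) (nat_lit 149) (nat_lit 666) (@Lb.t (@Lb.fm (nat_lit 9) t3859)))))))))))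
noncomputable def l19149 : Lb := (@Lb.d (nat_lit 130) (nat_lit 546) (nat_lit 2) (@Lb.g g8 (@Lb.g g9 (@Lb.g g10 (@Lb.r r1450 (@Lb.r r583 (@Lb.r r408 (@Lb.r r2085 (@Lb.d (nat_lit 70) (nat_lit 150) (nat_lit 666) (@Lb.t (@Lb.fm (nat_lit 9) t172)))))))))))
noncomputable def l19150 : Lb := (@Lb.d (nat_lit 0) (nat_lit 266) (nat_lit 0) (@Lb.g g9 (@Lb.g g11 (@Lb.r r1683 (@Lb.d (nat_lit 0) (nat_lit 165) (nat_lit 660) (@Lb.fp (nat_lit 3) t3860))))))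
noncomputable def l19151 : Lb := (@Lb.d (nat_lit 130) (nat_lit 0) (nat_lit 0) (@Lb.g g8 (@Lb.g g9 (@Lb.r r1571 (@Lb.r r2178 (@Lb.r r1641 (@Lb.r r104 (@Lb.d (nat_lit 276) (nat_lit 10) (nat_lit 1) (@Lb.fm (nat_lit 3) t2087)))))))))
noncomputable def l19152 : Lb := (@Lb.d (nat_lit 2) (nat_lit 514) (nat_lit 130) (@Lb.g g8 (@Lb.g g9 (@Lb.g g10 (@Lb.g g11 (@Lb.r r1387 (@Lb.r r1442 (@Lb.r r660 (@Lb.r r425 (@Lb.r r2084 (@Lb.d (nat_lit 102) (nat_lit 26) (nat_lit 596) (@Lb.fp (nat_lit 9) t1387))))))))))))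
noncomputable def l19153 : Lb := (@Lb.d (nat_lit 32) (nat_lit 522) (nat_lit 129) (@Lb.g g9 (@Lb.g g10 (@Lb.g g11 (@Lb.r r1411 (@Lb.r r1304 (@Lb.r r1637 (@Lb.r r1426 (@Lb.d (nat_lit 10) (nat_lit 84) (nat_lit 392) (@Lb.t (@Lb.fp (nat_lit 9) t3755)))))))))))
noncomputable def l19154 : Lb := (@Lb.d (nat_lit 136) (nat_lit 512) (nat_lit 130) (@Lb.g g9 (@Lb.g g10 (@Lb.g g11 (@Lb.r r1606 (@Lb.r r1112 (@Lb.r r2389 (@Lb.r r611 (@Lb.d (nat_lit 128) (nat_lit 89) (nat_lit 422) (@Lb.t (@Lb.fm (nat_lit 9) t1561)))))))))))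
noncomputable def l19155 : Lb := (@Lb.d (nat_lit 8) (nat_lit 290) (nat_lit 64) (@Lb.g g9 (@Lb.g g6 (@Lb.g g11 (@Lb.r r2663 (@Lb.r r1048 (@Lb.r r21 (@Lb.d (nat_lit 149) (nat_lit 2) (nat_lit 682) (@Lb.t (@Lb.fp (nat_lit 9) t3861))))))))))
noncomputable def l19156 : Lb := (@Lb.d (nat_lit 2) (nat_lit 38) (nat_lit 128) (@Lb.g g8 (@Lb.g g9 (@Lb.g g10 (@Lb.g g11 (@Lb.r r387 (@Lb.r r386 (@Lb.r r1561 (@Lb.r r24 (@Lb.d (nat_lit 680) (nat_lit 2) (nat_lit 673) (@Lb.fp (nat_lit 9) t560)))))))))))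
noncomputable def l19157 : Lb := (@Lb.r r275 (@Lb.d (nat_lit 8) (nat_lit 512) (nat_lit 2) (@Lb.g g9 (@Lb.g g10 (@Lb.r r2388 (@Lb.r r2651 (@Lb.r r1378 (@Lb.r r1369 (@Lb.d (nat_lit 18) (nat_lit 84) (nat_lit 150) (@Lb.fp (nat_lit 3) t3862))))))))))
noncomputable def l19158 : Lb := (@Lb.d (nat_lit 2) (nat_lit 2) (nat_lit 2) (@Lb.g g8 (@Lb.g g9 (@Lb.g g10 (@Lb.r r1555 (@Lb.r r297 (@Lb.r r1384 (@Lb.r r2630 (@Lb.d (nat_lit 416) (nat_lit 10) (nat_lit 290) (@Lb.t (@Lb.fp (nat_lit 9) t2911)))))))))))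
noncomputable def l19159 : Lb := (@Lb.r r82 (@Lb.d (nat_lit 1) (nat_lit 289) (nat_lit 136) (@Lb.g g8 (@Lb.g g9 (@Lb.g g11 (@Lb.r r386 (@Lb.r r1177 (@Lb.r r24 (@Lb.d (nat_lit 536) (nat_lit 2) (nat_lit 145) (@Lb.t (@Lb.fm (nat_lit 9) t560)))))))))))
noncomputable def l19160 : Lb := (@Lb.d (nat_lit 32) (nat_lit 0) (nat_lit 2) (@Lb.g g10 (@Lb.r r68 (@Lb.r r602 (@Lb.r r289 (@Lb.d (nat_lit 97) (nat_lit 137) (nat_lit 322) (@Lb.t (@Lb.fm (nat_lit 3) t1412))))))))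
noncomputable def l19161 : Lb := (@Lb.d (nat_lit 2) (nat_lit 516) (nat_lit 128) (@Lb.g g8 (@Lb.g g9 (@Lb.g g10 (@Lb.g g11 (@Lb.r r427 (@Lb.r r145 (@Lb.r r356 (@Lb.r r154 (@Lb.r r132 (@Lb.d (nat_lit 0) (nat_lit 0) (nat_lit 2) (@Lb.fm (nat_lit 9) t1045))))))))))))
noncomputable def l19162 : Lb := (@Lb.d (nat_lit 32) (nat_lit 512) (nat_lit 2) (@Lb.g g10 (@Lb.r r68 (@Lb.r r602 (@Lb.r r289 (@Lb.d (nat_lit 98) (nat_lit 137) (nat_lit 322) (@Lb.t (@Lb.fm (nat_lit 3) t1412))))))))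
noncomputable def l19163 : Lb := (@Lb.d (nat_lit 1) (nat_lit 5) (nat_lit 422) (@Lb.r r1635 (@Lb.r r601 (@Lb.r r2132 (@Lb.r r1162 (@Lb.g g5 (@Lb.g g4 (@Lb.d (nat_lit 1) (nat_lit 5) (nat_lit 0) (@Lb.fm (nat_lit 3) t249)))))))))
noncomputable def l19164 : Lb := (@Lb.r r275 (@Lb.d (nat_lit 8) (nat_lit 256) (nat_lit 2) (@Lb.g g9 (@Lb.g g10 (@Lb.r r2388 (@Lb.r r2651 (@Lb.r r1378 (@Lb.r r1369 (@Lb.d (nat_lit 16) (nat_lit 84) (nat_lit 150) (@Lb.fp (nat_lit 3) t3863))))))))))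
noncomputable def l19165 : Lb := (@Lb.r r82 (@Lb.d (nat_lit 34) (nat_lit 33) (nat_lit 64) (@Lb.g g8 (@Lb.g g9 (@Lb.g g11 (@Lb.r r1571 (@Lb.r r582 (@Lb.r r1445 (@Lb.r r408 (@Lb.d (nat_lit 346) (nat_lit 26) (nat_lit 358) (@Lb.t (@Lb.fp (nat_lit 9) t3049))))))))))))
noncomputable def l19166 : Lb := (@Lb.d (nat_lit 32) (nat_lit 260) (nat_lit 0) (@Lb.g g9 (@Lb.g g10 (@Lb.r r1543 (@Lb.r r149 (@Lb.r r100 (@Lb.r r410 (@Lb.d (nat_lit 146) (nat_lit 144) (nat_lit 138) (@Lb.fm (nat_lit 3) t2800)))))))))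
noncomputable def l19167 : Lb := (@Lb.d (nat_lit 292) (nat_lit 385) (nat_lit 292) (@Lb.r r2456 (@Lb.r r101 (@Lb.r r2458 (@Lb.g g11 (@Lb.g g6 (@Lb.g g4 (@Lb.d (nat_lit 4) (nat_lit 0) (nat_lit 385) (@Lb.r r529 (@Lb.t (@Lb.fp (nat_lit 9) t3864)))))))))))
noncomputable def l19168 : Lb := (@Lb.r r263 (@Lb.d (nat_lit 2) (nat_lit 9) (nat_lit 2) (@Lb.g g8 (@Lb.g g9 (@Lb.g g10 (@Lb.r r2443 (@Lb.r r2201 (@Lb.r r2180 (@Lb.d (nat_lit 9) (nat_lit 10) (nat_lit 152) (@Lb.t (@Lb.fm (nat_lit 9) t3865)))))))))))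
noncomputable def l19169 : Lb := (@Lb.d (nat_lit 128) (nat_lit 258) (nat_lit 130) (@Lb.g g8 (@Lb.g g9 (@Lb.g g10 (@Lb.g g11 (@Lb.r r2666 (@Lb.r r612 (@Lb.r r1319 (@Lb.r r1045 (@Lb.r r2084 (@Lb.d (nat_lit 0) (nat_lit 97) (nat_lit 549) (@Lb.fp (nat_lit 9) t3866))))))))))))
noncomputable def l19170 : Lb := (@Lb.d (nat_lit 0) (nat_lit 8) (nat_lit 130) (@Lb.g g10 (@Lb.g g11 (@Lb.r r387 (@Lb.r r2341 (@Lb.r r1624 (@Lb.d (nat_lit 608) (nat_lit 100) (nat_lit 34) (@Lb.fm (nat_lit 3) t3867))))))))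
noncomputable def l19171 : Lb := (@Lb.r r263 (@Lb.d (nat_lit 642) (nat_lit 10) (nat_lit 0) (@Lb.g g8 (@Lb.g g9 (@Lb.r r2710 (@Lb.r r1431 (@Lb.r r1633 (@Lb.d (nat_lit 1) (nat_lit 145) (nat_lit 512) (@Lb.fm (nat_lit 3) t1126)))))))))
noncomputable def l19172 : Lb := (@Lb.r r323 (@Lb.d (nat_lit 32) (nat_lit 9) (nat_lit 1) (@Lb.g g8 (@Lb.g g9 (@Lb.g g10 (@Lb.r r1706 (@Lb.r r1681 (@Lb.r r1555 (@Lb.r r420 (@Lb.d (nat_lit 4) (nat_lit 106) (nat_lit 138) (@Lb.t (@Lb.fm (nat_lit 9) t582))))))))))))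
noncomputable def l19173 : Lb := (@Lb.d (nat_lit 9) (nat_lit 8) (nat_lit 2) (@Lb.g g8 (@Lb.g g10 (@Lb.g g11 (@Lb.r r2459 (@Lb.r r101 (@Lb.d (nat_lit 25) (nat_lit 74) (nat_lit 136) (@Lb.t (@Lb.fp (nat_lit 9) t3868)))))))))
noncomputable def l19174 : Lb := (@Lb.r r263 (@Lb.d (nat_lit 642) (nat_lit 514) (nat_lit 2) (@Lb.g g8 (@Lb.g g9 (@Lb.g g10 (@Lb.r r2647 (@Lb.r r106 (@Lb.r r25 (@Lb.d (nat_lit 2) (nat_lit 0) (nat_lit 580) (@Lb.t (@Lb.fp (nat_lit 9) t375)))))))))))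
noncomputable def l19175 : Lb := (@Lb.d (nat_lit 292) (nat_lit 129) (nat_lit 292) (@Lb.r r2456 (@Lb.r r101 (@Lb.r r2458 (@Lb.g g11 (@Lb.g g6 (@Lb.g g4 (@Lb.d (nat_lit 5) (nat_lit 0) (nat_lit 385) (@Lb.r r529 (@Lb.t (@Lb.fp (nat_lit 9) t3869)))))))))))
noncomputable def l19176 : Lb := (@Lb.d (nat_lit 6) (nat_lit 2) (nat_lit 130) (@Lb.g g8 (@Lb.g g9 (@Lb.g g10 (@Lb.g g11 (@Lb.r r614 (@Lb.r r404 (@Lb.r r299 (@Lb.r r289 (@Lb.d (nat_lit 9) (nat_lit 161) (nat_lit 133) (@Lb.fm (nat_lit 9) t119)))))))))))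
noncomputable def l19177 : Lb := (@Lb.d (nat_lit 2) (nat_lit 0) (nat_lit 0) (@Lb.g g8 (@Lb.g g9 (@Lb.d (nat_lit 10) (nat_lit 2) (nat_lit 0) (@Lb.fm (nat_lit 3) t2)))))
noncomputable def l19178 : Lb := (@Lb.d (nat_lit 646) (nat_lit 256) (nat_lit 0) (@Lb.g g8 (@Lb.r r2378 (@Lb.r r2439 (@Lb.r r1425 (@Lb.d (nat_lit 2) (nat_lit 165) (nat_lit 613) (@Lb.t (@Lb.fp (nat_lit 3) t2054))))))))
noncomputable def l19179 : Lb := (@Lb.d (nat_lit 2) (nat_lit 0) (nat_lit 136) (@Lb.g g8 (@Lb.g g11 (@Lb.r r101 (@Lb.d (nat_lit 36) (nat_lit 81) (nat_lit 297) (@Lb.fp (nat_lit 3) t153))))))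
noncomputable def l19180 : Lb := (@Lb.d (nat_lit 2) (nat_lit 513) (nat_lit 0) (@Lb.g g8 (@Lb.g g9 (@Lb.r r21 (@Lb.d (nat_lit 2) (nat_lit 2) (nat_lit 0) (@Lb.fm (nat_lit 3) t2))))))
noncomputable def l19181 : Lb := (@Lb.d (nat_lit 341) (nat_lit 161) (nat_lit 582) (@Lb.r r2600 (@Lb.r r2666 (@Lb.r r1687 (@Lb.g g7 (@Lb.g g6 (@Lb.g g5 (@Lb.g g4 (@Lb.d (nat_lit 34) (nat_lit 129) (nat_lit 64) (@Lb.fp (nat_lit 9) t68))))))))))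
noncomputable def l19182 : Lb := (@Lb.r r70 (@Lb.r r263 (@Lb.d (nat_lit 409) (nat_lit 257) (nat_lit 0) (@Lb.g g4 (@Lb.g g9 (@Lb.r r267 (@Lb.r r418 (@Lb.r r145 (@Lb.d (nat_lit 1) (nat_lit 138) (nat_lit 546) (@Lb.fm (nat_lit 3) t128))))))))))
noncomputable def l19183 : Lb := (@Lb.r r323 (@Lb.d (nat_lit 130) (nat_lit 264) (nat_lit 34) (@Lb.g g8 (@Lb.g g10 (@Lb.r r583 (@Lb.r r2145 (@Lb.r r408 (@Lb.d (nat_lit 149) (nat_lit 25) (nat_lit 100) (@Lb.fp (nat_lit 3) t51)))))))))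
noncomputable def l19184 : Lb := (@Lb.r r322 (@Lb.d (nat_lit 64) (nat_lit 288) (nat_lit 640) (@Lb.g g11 (@Lb.r r1684 (@Lb.r r1174 (@Lb.r r2145 (@Lb.d (nat_lit 2) (nat_lit 8) (nat_lit 36) (@Lb.t (@Lb.fp (nat_lit 3) t51)))))))))
noncomputable def l19185 : Lb := (@Lb.d (nat_lit 32) (nat_lit 258) (nat_lit 0) (@Lb.g g8 (@Lb.g g9 (@Lb.r r1387 (@Lb.r r361 (@Lb.r r150 (@Lb.r r1124 (@Lb.d (nat_lit 282) (nat_lit 73) (nat_lit 274) (@Lb.fm (nat_lit 3) t51)))))))))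
noncomputable def l19186 : Lb := (@Lb.r r70 (@Lb.d (nat_lit 137) (nat_lit 1) (nat_lit 64) (@Lb.g g8 (@Lb.g g9 (@Lb.g g11 (@Lb.r r1611 (@Lb.r r418 (@Lb.r r145 (@Lb.r r1300 (@Lb.d (nat_lit 265) (nat_lit 41) (nat_lit 34) (@Lb.t (@Lb.fm (nat_lit 9) t50))))))))))))
noncomputable def l19187 : Lb := (@Lb.d (nat_lit 4) (nat_lit 257) (nat_lit 0) (@Lb.g g5 (@Lb.r r1126 (@Lb.r r24 (@Lb.d (nat_lit 18) (nat_lit 1) (nat_lit 32) (@Lb.t (@Lb.fp (nat_lit 3) t3071)))))))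
noncomputable def l19188 : Lb := (@Lb.d (nat_lit 0) (nat_lit 522) (nat_lit 2) (@Lb.r r2210 (@Lb.r r1185 (@Lb.g g10 (@Lb.t (@Lb.fp (nat_lit 3) t543))))))
noncomputable def l19189 : Lb := (@Lb.r r70 (@Lb.r r263 (@Lb.d (nat_lit 2) (nat_lit 264) (nat_lit 0) (@Lb.g g8 (@Lb.g g5 (@Lb.r r1315 (@Lb.r r1122 (@Lb.r r264 (@Lb.d (nat_lit 130) (nat_lit 32) (nat_lit 322) (@Lb.fm (nat_lit 3) t1386))))))))))
noncomputable def l19190 : Lb := (@Lb.d (nat_lit 0) (nat_lit 164) (nat_lit 22) (@Lb.r r402 (@Lb.r r1617 (@Lb.g g11 (@Lb.g g6 (@Lb.fm (nat_lit 3) t372))))))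
noncomputable def l19191 : Lb := (@Lb.r r323 (@Lb.d (nat_lit 0) (nat_lit 0) (nat_lit 41) (@Lb.g g6 (@Lb.r r387 (@Lb.r r1425 (@Lb.d (nat_lit 0) (nat_lit 5) (nat_lit 614) (@Lb.t (@Lb.fm (nat_lit 3) t29))))))))
noncomputable def l19192 : Lb := (@Lb.d (nat_lit 16) (nat_lit 0) (nat_lit 66) (@Lb.g g10 (@Lb.g g7 (@Lb.r r424 (@Lb.r r617 (@Lb.r r338 (@Lb.d (nat_lit 1) (nat_lit 97) (nat_lit 261) (@Lb.fp (nat_lit 3) t1926))))))))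
noncomputable def l19193 : Lb := (@Lb.d (nat_lit 16) (nat_lit 256) (nat_lit 66) (@Lb.g g10 (@Lb.g g7 (@Lb.r r424 (@Lb.r r617 (@Lb.r r338 (@Lb.d (nat_lit 0) (nat_lit 97) (nat_lit 261) (@Lb.fp (nat_lit 3) t845))))))))
noncomputable def l19194 : Lb := (@Lb.d (nat_lit 1) (nat_lit 258) (nat_lit 128) (@Lb.g g8 (@Lb.g g9 (@Lb.g g11 (@Lb.r r1367 (@Lb.r r162 (@Lb.r r145 (@Lb.r r2628 (@Lb.d (nat_lit 404) (nat_lit 5) (nat_lit 424) (@Lb.t (@Lb.fp (nat_lit 9) t899)))))))))))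
noncomputable def l19195 : Lb := (@Lb.d (nat_lit 264) (nat_lit 421) (nat_lit 529) (@Lb.r r1382 (@Lb.r r2731 (@Lb.g g7 (@Lb.g g9 (@Lb.g g4 (@Lb.d (nat_lit 1) (nat_lit 66) (nat_lit 64) (@Lb.r r98 (@Lb.t (@Lb.fp (nat_lit 9) t3870))))))))))
noncomputable def l19196 : Lb := (@Lb.r r275 (@Lb.d (nat_lit 2) (nat_lit 256) (nat_lit 2) (@Lb.g g8 (@Lb.g g9 (@Lb.g g10 (@Lb.r r1706 (@Lb.r r1125 (@Lb.r r1688 (@Lb.r r1563 (@Lb.d (nat_lit 642) (nat_lit 0) (nat_lit 330) (@Lb.t (@Lb.fm (nat_lit 9) t1758))))))))))))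
noncomputable def l19197 : Lb := (@Lb.d (nat_lit 358) (nat_lit 385) (nat_lit 600) (@Lb.r r358 (@Lb.r r676 (@Lb.r r1105 (@Lb.r r1623 (@Lb.g g6 (@Lb.g g5 (@Lb.g g4 (@Lb.d (nat_lit 1) (nat_lit 1) (nat_lit 5) (@Lb.t (@Lb.fm (nat_lit 9) t2655)))))))))))
noncomputable def l19198 : Lb := (@Lb.d (nat_lit 2) (nat_lit 265) (nat_lit 72) (@Lb.g g8 (@Lb.g g9 (@Lb.g g10 (@Lb.g g11 (@Lb.r r2691 (@Lb.r r297 (@Lb.r r648 (@Lb.r r666 (@Lb.r r1156 (@Lb.d (nat_lit 641) (nat_lit 42) (nat_lit 73) (@Lb.fp (nat_lit 9) t1234))))))))))))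
noncomputable def l19199 : Lb := (@Lb.g g7 (@Lb.r r584 (@Lb.r r86 (@Lb.r r289 (@Lb.r r132 (@Lb.d (nat_lit 5) (nat_lit 650) (nat_lit 322) (@Lb.t (@Lb.fm (nat_lit 3) t259))))))))
noncomputable def l19200 : Lb := (@Lb.r r82 (@Lb.d (nat_lit 34) (nat_lit 545) (nat_lit 64) (@Lb.g g8 (@Lb.g g9 (@Lb.g g11 (@Lb.r r1571 (@Lb.r r582 (@Lb.r r1445 (@Lb.r r408 (@Lb.d (nat_lit 344) (nat_lit 26) (nat_lit 358) (@Lb.t (@Lb.fp (nat_lit 9) t509))))))))))))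
noncomputable def l19201 : Lb := (@Lb.r r82 (@Lb.d (nat_lit 34) (nat_lit 33) (nat_lit 64) (@Lb.g g8 (@Lb.g g9 (@Lb.g g11 (@Lb.r r1571 (@Lb.r r582 (@Lb.r r1445 (@Lb.r r408 (@Lb.d (nat_lit 341) (nat_lit 144) (nat_lit 356) (@Lb.t (@Lb.fp (nat_lit 9) t541))))))))))))
noncomputable def l19202 : Lb := (@Lb.d (nat_lit 0) (nat_lit 9) (nat_lit 602) (@Lb.r r1604 (@Lb.r r402 (@Lb.g g11 (@Lb.g g9 (@Lb.d (nat_lit 0) (nat_lit 10) (nat_lit 0) (@Lb.fp (nat_lit 3) t3193)))))))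
noncomputable def l19203 : Lb := (@Lb.g g4 (@Lb.g g7 (@Lb.r r2311 (@Lb.r r2341 (@Lb.r r1624 (@Lb.r r2150 (@Lb.d (nat_lit 5) (nat_lit 401) (nat_lit 337) (@Lb.fm (nat_lit 3) t1040))))))))
noncomputable def l19204 : Lb := (@Lb.r r81 (@Lb.r r323 (@Lb.d (nat_lit 10) (nat_lit 0) (nat_lit 33) (@Lb.g g8 (@Lb.g g6 (@Lb.r r1627 (@Lb.r r149 (@Lb.r r104 (@Lb.d (nat_lit 645) (nat_lit 74) (nat_lit 384) (@Lb.fp (nat_lit 3) t3871))))))))))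
noncomputable def l19205 : Lb := (@Lb.d (nat_lit 2) (nat_lit 33) (nat_lit 132) (@Lb.g g8 (@Lb.g g9 (@Lb.g g10 (@Lb.g g11 (@Lb.r r683 (@Lb.r r610 (@Lb.r r548 (@Lb.r r613 (@Lb.d (nat_lit 149) (nat_lit 150) (nat_lit 393) (@Lb.fp (nat_lit 9) t842)))))))))))
noncomputable def l19206 : Lb := (@Lb.d (nat_lit 664) (nat_lit 9) (nat_lit 533) (@Lb.r r601 (@Lb.r r408 (@Lb.r r330 (@Lb.g g11 (@Lb.g g5 (@Lb.g g4 (@Lb.d (nat_lit 16) (nat_lit 5) (nat_lit 0) (@Lb.t (@Lb.fp (nat_lit 9) t708))))))))))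
noncomputable def l19207 : Lb := (@Lb.d (nat_lit 40) (nat_lit 9) (nat_lit 130) (@Lb.g g9 (@Lb.g g10 (@Lb.g g11 (@Lb.r r647 (@Lb.r r328 (@Lb.r r342 (@Lb.r r421 (@Lb.d (nat_lit 137) (nat_lit 4) (nat_lit 72) (@Lb.t (@Lb.fp (nat_lit 9) t2194)))))))))))
noncomputable def l19208 : Lb := (@Lb.d (nat_lit 361) (nat_lit 24) (nat_lit 600) (@Lb.r r2645 (@Lb.r r1320 (@Lb.r r1442 (@Lb.r r343 (@Lb.g g7 (@Lb.g g6 (@Lb.g g5 (@Lb.d (nat_lit 0) (nat_lit 1) (nat_lit 65) (@Lb.t (@Lb.fp (nat_lit 9) t898)))))))))))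
noncomputable def l19209 : Lb := (@Lb.d (nat_lit 362) (nat_lit 280) (nat_lit 600) (@Lb.r r2645 (@Lb.r r1320 (@Lb.r r1442 (@Lb.r r343 (@Lb.g g7 (@Lb.g g6 (@Lb.g g5 (@Lb.d (nat_lit 0) (nat_lit 6) (nat_lit 66) (@Lb.t (@Lb.fp (nat_lit 9) t898)))))))))))
noncomputable def l19210 : Lb := (@Lb.d (nat_lit 354) (nat_lit 537) (nat_lit 600) (@Lb.r r2645 (@Lb.r r1320 (@Lb.r r1442 (@Lb.r r343 (@Lb.g g7 (@Lb.g g6 (@Lb.g g5 (@Lb.d (nat_lit 0) (nat_lit 1) (nat_lit 65) (@Lb.t (@Lb.fp (nat_lit 9) t898)))))))))))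
noncomputable def l19211 : Lb := (@Lb.r r21 (@Lb.d (nat_lit 10) (nat_lit 288) (nat_lit 105) (@Lb.g g8 (@Lb.g g6 (@Lb.g g11 (@Lb.r r401 (@Lb.r r2343 (@Lb.r r1608 (@Lb.d (nat_lit 389) (nat_lit 134) (nat_lit 296) (@Lb.t (@Lb.fm (nat_lit 9) t188)))))))))))
noncomputable def l19212 : Lb := (@Lb.d (nat_lit 4) (nat_lit 292) (nat_lit 128) (@Lb.g g8 (@Lb.g g9 (@Lb.g g10 (@Lb.g g11 (@Lb.r r683 (@Lb.r r1642 (@Lb.r r1561 (@Lb.d (nat_lit 586) (nat_lit 98) (nat_lit 274) (@Lb.fm (nat_lit 9) t1849))))))))))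
noncomputable def l19213 : Lb := (@Lb.d (nat_lit 134) (nat_lit 5) (nat_lit 128) (@Lb.g g8 (@Lb.g g9 (@Lb.g g10 (@Lb.g g11 (@Lb.r r683 (@Lb.r r618 (@Lb.r r1572 (@Lb.r r37 (@Lb.d (nat_lit 290) (nat_lit 98) (nat_lit 545) (@Lb.fp (nat_lit 9) t326)))))))))))
noncomputable def l19214 : Lb := (@Lb.d (nat_lit 2) (nat_lit 2) (nat_lit 130) (@Lb.g g8 (@Lb.g g9 (@Lb.g g10 (@Lb.g g11 (@Lb.r r2459 (@Lb.r r297 (@Lb.r r1384 (@Lb.r r2630 (@Lb.d (nat_lit 656) (nat_lit 130) (nat_lit 290) (@Lb.fp (nat_lit 9) t3872)))))))))))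
noncomputable def l19215 : Lb := (@Lb.d (nat_lit 0) (nat_lit 4) (nat_lit 10) (@Lb.g g9 (@Lb.g g10 (@Lb.g g7 (@Lb.r r386 (@Lb.r r97 (@Lb.d (nat_lit 5) (nat_lit 10) (nat_lit 137) (@Lb.t (@Lb.fp (nat_lit 9) t607)))))))))
noncomputable def l19216 : Lb := (@Lb.d (nat_lit 136) (nat_lit 260) (nat_lit 128) (@Lb.g g9 (@Lb.g g10 (@Lb.g g11 (@Lb.r r618 (@Lb.r r24 (@Lb.r r405 (@Lb.r r611 (@Lb.d (nat_lit 130) (nat_lit 16) (nat_lit 130) (@Lb.t (@Lb.fm (nat_lit 9) t3873)))))))))))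
noncomputable def l19217 : Lb := (@Lb.d (nat_lit 32) (nat_lit 512) (nat_lit 128) (@Lb.g g10 (@Lb.g g11 (@Lb.r r324 (@Lb.r r651 (@Lb.r r357 (@Lb.r r666 (@Lb.d (nat_lit 64) (nat_lit 40) (nat_lit 10) (@Lb.fp (nat_lit 3) t97)))))))))
noncomputable def l19218 : Lb := (@Lb.d (nat_lit 136) (nat_lit 4) (nat_lit 128) (@Lb.g g9 (@Lb.g g10 (@Lb.g g11 (@Lb.r r618 (@Lb.r r24 (@Lb.r r405 (@Lb.r r611 (@Lb.d (nat_lit 128) (nat_lit 16) (nat_lit 130) (@Lb.t (@Lb.fm (nat_lit 9) t3874)))))))))))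
noncomputable def l19219 : Lb := (@Lb.d (nat_lit 10) (nat_lit 512) (nat_lit 2) (@Lb.g g8 (@Lb.g g10 (@Lb.r r2331 (@Lb.r r2129 (@Lb.r r1638 (@Lb.r r2436 (@Lb.d (nat_lit 106) (nat_lit 129) (nat_lit 682) (@Lb.fm (nat_lit 3) t626)))))))))
noncomputable def l19220 : Lb := (@Lb.d (nat_lit 0) (nat_lit 516) (nat_lit 10) (@Lb.g g9 (@Lb.g g10 (@Lb.g g7 (@Lb.r r386 (@Lb.r r97 (@Lb.d (nat_lit 5) (nat_lit 10) (nat_lit 9) (@Lb.t (@Lb.fp (nat_lit 9) t607)))))))))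
noncomputable def l19221 : Lb := (@Lb.d (nat_lit 146) (nat_lit 2) (nat_lit 128) (@Lb.g g8 (@Lb.g g9 (@Lb.g g10 (@Lb.g g11 (@Lb.r r387 (@Lb.r r402 (@Lb.r r1561 (@Lb.r r1560 (@Lb.d (nat_lit 609) (nat_lit 106) (nat_lit 673) (@Lb.fp (nat_lit 9) t409)))))))))))
noncomputable def l19222 : Lb := (@Lb.d (nat_lit 2) (nat_lit 256) (nat_lit 66) (@Lb.g g8 (@Lb.g g10 (@Lb.g g7 (@Lb.r r2442 (@Lb.r r1433 (@Lb.r r2436 (@Lb.d (nat_lit 609) (nat_lit 0) (nat_lit 354) (@Lb.t (@Lb.fm (nat_lit 9) t1741))))))))))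
noncomputable def l19223 : Lb := (@Lb.d (nat_lit 129) (nat_lit 514) (nat_lit 130) (@Lb.g g8 (@Lb.g g9 (@Lb.g g10 (@Lb.g g11 (@Lb.r r427 (@Lb.r r1418 (@Lb.r r292 (@Lb.r r2069 (@Lb.r r1060 (@Lb.d (nat_lit 617) (nat_lit 104) (nat_lit 680) (@Lb.fm (nat_lit 9) t355))))))))))))
noncomputable def l19224 : Lb := (@Lb.d (nat_lit 145) (nat_lit 2) (nat_lit 128) (@Lb.g g8 (@Lb.g g9 (@Lb.g g10 (@Lb.g g11 (@Lb.r r599 (@Lb.r r2394 (@Lb.r r2645 (@Lb.r r1444 (@Lb.d (nat_lit 390) (nat_lit 165) (nat_lit 678) (@Lb.fm (nat_lit 9) t520)))))))))))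
noncomputable def l19225 : Lb := (@Lb.d (nat_lit 146) (nat_lit 2) (nat_lit 128) (@Lb.g g8 (@Lb.g g9 (@Lb.g g10 (@Lb.g g11 (@Lb.r r427 (@Lb.r r1418 (@Lb.r r292 (@Lb.r r21 (@Lb.r r36 (@Lb.d (nat_lit 617) (nat_lit 33) (nat_lit 274) (@Lb.fm (nat_lit 9) t2194))))))))))))
noncomputable def l19226 : Lb := (@Lb.d (nat_lit 297) (nat_lit 325) (nat_lit 0) (@Lb.r r1113 (@Lb.r r2136 (@Lb.g g6 (@Lb.g g5 (@Lb.d (nat_lit 4) (nat_lit 1) (nat_lit 0) (@Lb.fp (nat_lit 3) t1400)))))))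
noncomputable def l19227 : Lb := (@Lb.r r263 (@Lb.d (nat_lit 2) (nat_lit 258) (nat_lit 2) (@Lb.g g8 (@Lb.g g9 (@Lb.g g10 (@Lb.r r1668 (@Lb.r r1559 (@Lb.r r386 (@Lb.r r97 (@Lb.d (nat_lit 2) (nat_lit 0) (nat_lit 84) (@Lb.t (@Lb.fp (nat_lit 9) t601))))))))))))
noncomputable def l19228 : Lb := (@Lb.d (nat_lit 577) (nat_lit 164) (nat_lit 256) (@Lb.r r2645 (@Lb.r r1316 (@Lb.r r603 (@Lb.g g6 (@Lb.g g5 (@Lb.d (nat_lit 4) (nat_lit 17) (nat_lit 33) (@Lb.r r387 (@Lb.fp (nat_lit 3) t1916)))))))))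
noncomputable def l19229 : Lb := (@Lb.d (nat_lit 293) (nat_lit 260) (nat_lit 544) (@Lb.r r150 (@Lb.r r72 (@Lb.r r293 (@Lb.r r2395 (@Lb.g g7 (@Lb.g g6 (@Lb.g g5 (@Lb.d (nat_lit 16) (nat_lit 1) (nat_lit 65) (@Lb.t (@Lb.fm (nat_lit 9) t1278)))))))))))
noncomputable def l19230 : Lb := (@Lb.r r82 (@Lb.d (nat_lit 2) (nat_lit 33) (nat_lit 0) (@Lb.g g8 (@Lb.g g5 (@Lb.r r515 (@Lb.r r146 (@Lb.r r24 (@Lb.d (nat_lit 10) (nat_lit 133) (nat_lit 385) (@Lb.fm (nat_lit 3) t2104)))))))))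
noncomputable def l19231 : Lb := (@Lb.g g5 (@Lb.r r1683 (@Lb.r r594 (@Lb.r r149 (@Lb.r r36 (@Lb.d (nat_lit 536) (nat_lit 514) (nat_lit 0) (@Lb.t (@Lb.fp (nat_lit 3) t277))))))))
noncomputable def l19232 : Lb := (@Lb.d (nat_lit 8) (nat_lit 258) (nat_lit 0) (@Lb.g g9 (@Lb.g g10 (@Lb.r r426 (@Lb.r r20 (@Lb.r r105 (@Lb.d (nat_lit 98) (nat_lit 137) (nat_lit 258) (@Lb.fm (nat_lit 3) t1628))))))))
noncomputable def l19233 : Lb := (@Lb.r r323 (@Lb.d (nat_lit 0) (nat_lit 8) (nat_lit 34) (@Lb.g g10 (@Lb.r r387 (@Lb.r r2641 (@Lb.d (nat_lit 0) (nat_lit 166) (nat_lit 618) (@Lb.t (@Lb.fp (nat_lit 3) t2833))))))))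
noncomputable def l19234 : Lb := (@Lb.r r82 (@Lb.d (nat_lit 2) (nat_lit 514) (nat_lit 128) (@Lb.g g8 (@Lb.g g9 (@Lb.g g11 (@Lb.r r1571 (@Lb.r r1642 (@Lb.r r1633 (@Lb.d (nat_lit 100) (nat_lit 145) (nat_lit 666) (@Lb.t (@Lb.fm (nat_lit 9) t50)))))))))))
noncomputable def l19235 : Lb := (@Lb.d (nat_lit 0) (nat_lit 256) (nat_lit 128) (@Lb.g g10 (@Lb.g g11 (@Lb.r r2707 (@Lb.r r2341 (@Lb.r r2136 (@Lb.r r1158 (@Lb.d (nat_lit 289) (nat_lit 5) (nat_lit 32) (@Lb.fm (nat_lit 3) t296)))))))))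
noncomputable def l19236 : Lb := (@Lb.r r273 (@Lb.r r322 (@Lb.d (nat_lit 2) (nat_lit 256) (nat_lit 320) (@Lb.g g8 (@Lb.g g7 (@Lb.r r280 (@Lb.r r101 (@Lb.r r146 (@Lb.d (nat_lit 10) (nat_lit 128) (nat_lit 514) (@Lb.fm (nat_lit 3) t541))))))))))
noncomputable def l19237 : Lb := (@Lb.g g10 (@Lb.r r2579 (@Lb.r r2341 (@Lb.r r2136 (@Lb.r r1158 (@Lb.d (nat_lit 2) (nat_lit 261) (nat_lit 1) (@Lb.t (@Lb.fp (nat_lit 3) t296))))))))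
noncomputable def l19238 : Lb := (@Lb.d (nat_lit 4) (nat_lit 10) (nat_lit 129) (@Lb.g g8 (@Lb.g g9 (@Lb.g g10 (@Lb.g g11 (@Lb.r r2691 (@Lb.r r297 (@Lb.r r360 (@Lb.r r582 (@Lb.r r2180 (@Lb.d (nat_lit 641) (nat_lit 10) (nat_lit 329) (@Lb.fm (nat_lit 9) t98))))))))))))
noncomputable def l19239 : Lb := (@Lb.r r21 (@Lb.d (nat_lit 128) (nat_lit 256) (nat_lit 73) (@Lb.g g8 (@Lb.g g10 (@Lb.g g11 (@Lb.r r1691 (@Lb.r r409 (@Lb.r r90 (@Lb.r r1348 (@Lb.d (nat_lit 521) (nat_lit 105) (nat_lit 274) (@Lb.t (@Lb.fp (nat_lit 9) t270))))))))))))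
noncomputable def l19240 : Lb := (@Lb.d (nat_lit 145) (nat_lit 9) (nat_lit 130) (@Lb.g g8 (@Lb.g g9 (@Lb.g g10 (@Lb.g g11 (@Lb.r r548 (@Lb.r r1319 (@Lb.r r1162 (@Lb.r r405 (@Lb.r r2084 (@Lb.d (nat_lit 73) (nat_lit 69) (nat_lit 144) (@Lb.fm (nat_lit 9) t3875))))))))))))
noncomputable def l19241 : Lb := (@Lb.d (nat_lit 133) (nat_lit 266) (nat_lit 129) (@Lb.g g8 (@Lb.g g9 (@Lb.g g10 (@Lb.g g11 (@Lb.r r1675 (@Lb.r r613 (@Lb.r r666 (@Lb.r r1156 (@Lb.d (nat_lit 665) (nat_lit 105) (nat_lit 106) (@Lb.fm (nat_lit 9) t3876)))))))))))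
noncomputable def l19242 : Lb := (@Lb.d (nat_lit 145) (nat_lit 258) (nat_lit 74) (@Lb.g g8 (@Lb.g g9 (@Lb.g g10 (@Lb.g g11 (@Lb.r r2459 (@Lb.r r1169 (@Lb.r r1618 (@Lb.r r72 (@Lb.d (nat_lit 90) (nat_lit 37) (nat_lit 358) (@Lb.fm (nat_lit 9) t3877)))))))))))
noncomputable def l19243 : Lb := (@Lb.d (nat_lit 290) (nat_lit 512) (nat_lit 34) (@Lb.r r20 (@Lb.r r2137 (@Lb.r r323 (@Lb.g g10 (@Lb.g g4 (@Lb.d (nat_lit 0) (nat_lit 4) (nat_lit 2) (@Lb.r r387 (@Lb.r r145 (@Lb.fp (nat_lit 3) t5))))))))))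
noncomputable def l19244 : Lb := (@Lb.d (nat_lit 0) (nat_lit 258) (nat_lit 136) (@Lb.g g9 (@Lb.g g11 (@Lb.r r401 (@Lb.r r2454 (@Lb.r r2411 (@Lb.r r1096 (@Lb.d (nat_lit 296) (nat_lit 2) (nat_lit 18) (@Lb.fm (nat_lit 3) t414)))))))))
noncomputable def l19245 : Lb := (@Lb.d (nat_lit 0) (nat_lit 0) (nat_lit 128) (@Lb.g g4 (@Lb.g g11 (@Lb.r r1602 (@Lb.r r579 (@Lb.d (nat_lit 352) (nat_lit 0) (nat_lit 410) (@Lb.fm (nat_lit 3) t1432)))))))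
noncomputable def l19246 : Lb := (@Lb.d (nat_lit 0) (nat_lit 256) (nat_lit 73) (@Lb.g g4 (@Lb.g g10 (@Lb.g g11 (@Lb.r r2691 (@Lb.r r1158 (@Lb.d (nat_lit 128) (nat_lit 0) (nat_lit 424) (@Lb.t (@Lb.fp (nat_lit 9) t282)))))))))
noncomputable def l19247 : Lb := (@Lb.r r273 (@Lb.r r322 (@Lb.d (nat_lit 129) (nat_lit 272) (nat_lit 584) (@Lb.g g8 (@Lb.g g7 (@Lb.r r361 (@Lb.r r146 (@Lb.r r2084 (@Lb.d (nat_lit 534) (nat_lit 73) (nat_lit 82) (@Lb.fp (nat_lit 3) t525))))))))))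
noncomputable def l19248 : Lb := (@Lb.d (nat_lit 128) (nat_lit 544) (nat_lit 72) (@Lb.g g11 (@Lb.r r2410 (@Lb.r r361 (@Lb.r r1384 (@Lb.r r2583 (@Lb.d (nat_lit 646) (nat_lit 164) (nat_lit 384) (@Lb.t (@Lb.fm (nat_lit 3) t386)))))))))
noncomputable def l19249 : Lb := (@Lb.d (nat_lit 32) (nat_lit 514) (nat_lit 1) (@Lb.g g8 (@Lb.g g9 (@Lb.g g10 (@Lb.r r1675 (@Lb.r r1300 (@Lb.r r1433 (@Lb.r r1114 (@Lb.d (nat_lit 649) (nat_lit 133) (nat_lit 614) (@Lb.t (@Lb.fp (nat_lit 9) t3878)))))))))))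
noncomputable def l19250 : Lb := (@Lb.r r21 (@Lb.r r70 (@Lb.d (nat_lit 130) (nat_lit 256) (nat_lit 0) (@Lb.g g8 (@Lb.r r74 (@Lb.r r25 (@Lb.d (nat_lit 65) (nat_lit 0) (nat_lit 0) (@Lb.t (@Lb.fp (nat_lit 3) t3467)))))))))
noncomputable def l19251 : Lb := (@Lb.r r323 (@Lb.d (nat_lit 130) (nat_lit 9) (nat_lit 17) (@Lb.g g8 (@Lb.g g9 (@Lb.g g6 (@Lb.r r2455 (@Lb.r r97 (@Lb.r r1556 (@Lb.d (nat_lit 390) (nat_lit 105) (nat_lit 640) (@Lb.t (@Lb.fm (nat_lit 9) t1038)))))))))))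
noncomputable def l19252 : Lb := (@Lb.d (nat_lit 8) (nat_lit 521) (nat_lit 66) (@Lb.g g9 (@Lb.g g10 (@Lb.g g7 (@Lb.r r1620 (@Lb.r r2730 (@Lb.r r409 (@Lb.d (nat_lit 10) (nat_lit 73) (nat_lit 169) (@Lb.t (@Lb.fm (nat_lit 9) t3360))))))))))
noncomputable def l19253 : Lb := (@Lb.r r346 (@Lb.d (nat_lit 34) (nat_lit 514) (nat_lit 576) (@Lb.g g8 (@Lb.g g9 (@Lb.g g7 (@Lb.r r1622 (@Lb.r r681 (@Lb.r r1124 (@Lb.d (nat_lit 585) (nat_lit 21) (nat_lit 417) (@Lb.t (@Lb.fm (nat_lit 9) t1548)))))))))))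
noncomputable def l19254 : Lb := (@Lb.r r21 (@Lb.r r70 (@Lb.d (nat_lit 33) (nat_lit 256) (nat_lit 128) (@Lb.g g4 (@Lb.g g11 (@Lb.r r583 (@Lb.r r74 (@Lb.r r25 (@Lb.d (nat_lit 512) (nat_lit 5) (nat_lit 162) (@Lb.fm (nat_lit 3) t3879))))))))))
noncomputable def l19255 : Lb := (@Lb.r r580 (@Lb.r r593 (@Lb.d (nat_lit 0) (nat_lit 256) (nat_lit 8) (@Lb.g g6 (@Lb.g g11 (@Lb.r r24 (@Lb.r r2661 (@Lb.r r1699 (@Lb.d (nat_lit 0) (nat_lit 33) (nat_lit 385) (@Lb.fm (nat_lit 3) t482))))))))))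
noncomputable def l19256 : Lb := (@Lb.r r21 (@Lb.d (nat_lit 1) (nat_lit 0) (nat_lit 2) (@Lb.g g8 (@Lb.g g10 (@Lb.g g7 (@Lb.r r386 (@Lb.r r1640 (@Lb.r r25 (@Lb.d (nat_lit 610) (nat_lit 90) (nat_lit 660) (@Lb.t (@Lb.fp (nat_lit 9) t2877)))))))))))
noncomputable def l19257 : Lb := (@Lb.d (nat_lit 129) (nat_lit 260) (nat_lit 128) (@Lb.g g8 (@Lb.g g9 (@Lb.g g10 (@Lb.g g11 (@Lb.r r2690 (@Lb.r r2455 (@Lb.r r97 (@Lb.r r2584 (@Lb.d (nat_lit 616) (nat_lit 169) (nat_lit 417) (@Lb.fm (nat_lit 9) t3408)))))))))))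
noncomputable def l19258 : Lb := (@Lb.d (nat_lit 512) (nat_lit 0) (nat_lit 32) (@Lb.r r24 (@Lb.r r359 (@Lb.r r1301 (@Lb.g g10 (@Lb.g g5 (@Lb.r r291 (@Lb.fm (nat_lit 3) t412))))))))
noncomputable def l19259 : Lb := (@Lb.d (nat_lit 341) (nat_lit 24) (nat_lit 0) (@Lb.r r24 (@Lb.r r1383 (@Lb.g g6 (@Lb.g g9 (@Lb.d (nat_lit 24) (nat_lit 169) (nat_lit 0) (@Lb.r r387 (@Lb.fm (nat_lit 3) t3880))))))))
noncomputable def l19260 : Lb := (@Lb.d (nat_lit 129) (nat_lit 4) (nat_lit 5) (@Lb.g g8 (@Lb.g g9 (@Lb.g g10 (@Lb.g g11 (@Lb.r r683 (@Lb.r r168 (@Lb.r r2442 (@Lb.r r97 (@Lb.d (nat_lit 658) (nat_lit 105) (nat_lit 345) (@Lb.fp (nat_lit 9) t3881)))))))))))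
noncomputable def l19261 : Lb := (@Lb.d (nat_lit 10) (nat_lit 640) (nat_lit 170) (@Lb.r r2450 (@Lb.r r101 (@Lb.g g7 (@Lb.g g4 (@Lb.d (nat_lit 517) (nat_lit 0) (nat_lit 0) (@Lb.r r74 (@Lb.r r25 (@Lb.fm (nat_lit 3) t984)))))))))
noncomputable def l19262 : Lb := (@Lb.r r331 (@Lb.d (nat_lit 32) (nat_lit 260) (nat_lit 0) (@Lb.g g8 (@Lb.g g9 (@Lb.g g10 (@Lb.r r2666 (@Lb.r r2635 (@Lb.r r164 (@Lb.r r2469 (@Lb.d (nat_lit 345) (nat_lit 154) (nat_lit 402) (@Lb.t (@Lb.fm (nat_lit 9) t3882))))))))))))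
noncomputable def l19263 : Lb := (@Lb.d (nat_lit 129) (nat_lit 4) (nat_lit 128) (@Lb.g g8 (@Lb.g g9 (@Lb.g g10 (@Lb.g g11 (@Lb.r r2690 (@Lb.r r2455 (@Lb.r r97 (@Lb.r r2584 (@Lb.d (nat_lit 617) (nat_lit 169) (nat_lit 417) (@Lb.fm (nat_lit 9) t1144)))))))))))
noncomputable def l19264 : Lb := (@Lb.d (nat_lit 34) (nat_lit 512) (nat_lit 128) (@Lb.g g8 (@Lb.g g9 (@Lb.g g11 (@Lb.r r593 (@Lb.r r1363 (@Lb.r r150 (@Lb.r r2664 (@Lb.d (nat_lit 36) (nat_lit 25) (nat_lit 258) (@Lb.t (@Lb.fm (nat_lit 9) t3883)))))))))))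
noncomputable def l19265 : Lb := (@Lb.d (nat_lit 8) (nat_lit 104) (nat_lit 644) (@Lb.r r72 (@Lb.r r665 (@Lb.r r1442 (@Lb.g g11 (@Lb.g g6 (@Lb.g g5 (@Lb.g g4 (@Lb.d (nat_lit 37) (nat_lit 33) (nat_lit 389) (@Lb.fm (nat_lit 9) t3226))))))))))
noncomputable def l19266 : Lb := (@Lb.d (nat_lit 136) (nat_lit 512) (nat_lit 130) (@Lb.g g9 (@Lb.g g10 (@Lb.g g11 (@Lb.r r260 (@Lb.r r2651 (@Lb.r r386 (@Lb.r r2129 (@Lb.d (nat_lit 538) (nat_lit 5) (nat_lit 660) (@Lb.t (@Lb.fm (nat_lit 9) t3884)))))))))))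
noncomputable def l19267 : Lb := (@Lb.r r323 (@Lb.d (nat_lit 5) (nat_lit 512) (nat_lit 1) (@Lb.g g8 (@Lb.g g9 (@Lb.g g6 (@Lb.r r387 (@Lb.r r1109 (@Lb.r r1064 (@Lb.d (nat_lit 552) (nat_lit 128) (nat_lit 34) (@Lb.t (@Lb.fm (nat_lit 9) t3885)))))))))))
noncomputable def l19268 : Lb := (@Lb.d (nat_lit 2) (nat_lit 516) (nat_lit 128) (@Lb.g g8 (@Lb.g g9 (@Lb.g g10 (@Lb.g g11 (@Lb.r r2595 (@Lb.r r386 (@Lb.r r612 (@Lb.r r533 (@Lb.r r2084 (@Lb.d (nat_lit 548) (nat_lit 74) (nat_lit 145) (@Lb.fp (nat_lit 9) t3886))))))))))))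
noncomputable def l19269 : Lb := (@Lb.r r323 (@Lb.d (nat_lit 2) (nat_lit 513) (nat_lit 2) (@Lb.g g8 (@Lb.g g9 (@Lb.g g10 (@Lb.r r1431 (@Lb.r r2196 (@Lb.r r2646 (@Lb.r r405 (@Lb.d (nat_lit 616) (nat_lit 130) (nat_lit 665) (@Lb.t (@Lb.fm (nat_lit 9) t3887))))))))))))
noncomputable def l19270 : Lb := (@Lb.d (nat_lit 4) (nat_lit 256) (nat_lit 10) (@Lb.g g8 (@Lb.g g9 (@Lb.g g10 (@Lb.r r1572 (@Lb.r r1319 (@Lb.r r1425 (@Lb.r r2138 (@Lb.d (nat_lit 89) (nat_lit 4) (nat_lit 529) (@Lb.t (@Lb.fm (nat_lit 9) t3888)))))))))))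
noncomputable def l19271 : Lb := (@Lb.r r82 (@Lb.d (nat_lit 34) (nat_lit 514) (nat_lit 136) (@Lb.g g8 (@Lb.g g9 (@Lb.g g11 (@Lb.r r1362 (@Lb.r r2645 (@Lb.r r356 (@Lb.r r395 (@Lb.d (nat_lit 548) (nat_lit 98) (nat_lit 616) (@Lb.t (@Lb.fm (nat_lit 9) t3886))))))))))))
noncomputable def l19272 : Lb := (@Lb.d (nat_lit 292) (nat_lit 42) (nat_lit 518) (@Lb.r r677 (@Lb.r r2371 (@Lb.g g10 (@Lb.g g5 (@Lb.g g8 (@Lb.d (nat_lit 0) (nat_lit 10) (nat_lit 2) (@Lb.r r291 (@Lb.t (@Lb.fm (nat_lit 9) t3889))))))))))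
noncomputable def l19273 : Lb := (@Lb.d (nat_lit 390) (nat_lit 150) (nat_lit 546) (@Lb.r r2325 (@Lb.r r2390 (@Lb.r r683 (@Lb.g g7 (@Lb.g g6 (@Lb.g g5 (@Lb.g g4 (@Lb.d (nat_lit 8) (nat_lit 17) (nat_lit 8) (@Lb.fm (nat_lit 9) t309))))))))))
noncomputable def l19274 : Lb := (@Lb.d (nat_lit 2) (nat_lit 258) (nat_lit 130) (@Lb.g g8 (@Lb.g g9 (@Lb.g g10 (@Lb.g g11 (@Lb.r r427 (@Lb.r r145 (@Lb.r r356 (@Lb.r r154 (@Lb.r r132 (@Lb.d (nat_lit 4) (nat_lit 1) (nat_lit 154) (@Lb.fm (nat_lit 9) t221))))))))))))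
noncomputable def l19275 : Lb := (@Lb.d (nat_lit 2) (nat_lit 514) (nat_lit 130) (@Lb.g g8 (@Lb.g g9 (@Lb.g g10 (@Lb.g g11 (@Lb.r r610 (@Lb.r r1607 (@Lb.r r2457 (@Lb.r r2436 (@Lb.d (nat_lit 166) (nat_lit 132) (nat_lit 392) (@Lb.fm (nat_lit 9) t993)))))))))))
noncomputable def l19276 : Lb := (@Lb.d (nat_lit 10) (nat_lit 512) (nat_lit 64) (@Lb.g g8 (@Lb.g g10 (@Lb.g g11 (@Lb.r r2581 (@Lb.r r279 (@Lb.r r676 (@Lb.r r1158 (@Lb.d (nat_lit 0) (nat_lit 85) (nat_lit 272) (@Lb.t (@Lb.fp (nat_lit 9) t100)))))))))))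
noncomputable def l19277 : Lb := (@Lb.d (nat_lit 32) (nat_lit 8) (nat_lit 64) (@Lb.g g10 (@Lb.g g11 (@Lb.r r360 (@Lb.r r1641 (@Lb.r r2411 (@Lb.r r598 (@Lb.d (nat_lit 678) (nat_lit 40) (nat_lit 0) (@Lb.fm (nat_lit 3) t100)))))))))
noncomputable def l19278 : Lb := (@Lb.d (nat_lit 10) (nat_lit 512) (nat_lit 64) (@Lb.g g8 (@Lb.g g10 (@Lb.g g11 (@Lb.r r2581 (@Lb.r r279 (@Lb.r r676 (@Lb.r r1158 (@Lb.d (nat_lit 4) (nat_lit 86) (nat_lit 272) (@Lb.t (@Lb.fp (nat_lit 9) t1951)))))))))))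
noncomputable def l19279 : Lb := (@Lb.d (nat_lit 597) (nat_lit 276) (nat_lit 422) (@Lb.r r24 (@Lb.r r97 (@Lb.r r2659 (@Lb.r r2406 (@Lb.g g6 (@Lb.g g5 (@Lb.g g4 (@Lb.d (nat_lit 1) (nat_lit 8) (nat_lit 0) (@Lb.t (@Lb.fm (nat_lit 9) t3890)))))))))))
noncomputable def l19280 : Lb := (@Lb.r r326 (@Lb.d (nat_lit 129) (nat_lit 16) (nat_lit 648) (@Lb.g g8 (@Lb.g g9 (@Lb.g g7 (@Lb.r r2646 (@Lb.r r1064 (@Lb.r r105 (@Lb.d (nat_lit 516) (nat_lit 69) (nat_lit 166) (@Lb.t (@Lb.fp (nat_lit 9) t3702)))))))))))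
noncomputable def l19281 : Lb := (@Lb.d (nat_lit 330) (nat_lit 549) (nat_lit 129) (@Lb.r r289 (@Lb.r r535 (@Lb.r r328 (@Lb.r r2726 (@Lb.g g7 (@Lb.g g6 (@Lb.g g5 (@Lb.d (nat_lit 4) (nat_lit 1) (nat_lit 134) (@Lb.t (@Lb.fp (nat_lit 9) t986)))))))))))
noncomputable def l19282 : Lb := (@Lb.d (nat_lit 149) (nat_lit 2) (nat_lit 64) (@Lb.g g8 (@Lb.g g9 (@Lb.g g10 (@Lb.g g11 (@Lb.r r1451 (@Lb.r r1602 (@Lb.r r1433 (@Lb.r r388 (@Lb.d (nat_lit 617) (nat_lit 160) (nat_lit 74) (@Lb.fp (nat_lit 9) t898)))))))))))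
noncomputable def l19283 : Lb := (@Lb.d (nat_lit 0) (nat_lit 513) (nat_lit 73) (@Lb.g g8 (@Lb.g g9 (@Lb.g g10 (@Lb.g g11 (@Lb.r r618 (@Lb.r r105 (@Lb.r r596 (@Lb.r r1319 (@Lb.r r2564 (@Lb.d (nat_lit 9) (nat_lit 18) (nat_lit 640) (@Lb.fm (nat_lit 9) t71))))))))))))
noncomputable def l19284 : Lb := (@Lb.d (nat_lit 529) (nat_lit 336) (nat_lit 22) (@Lb.r r1048 (@Lb.r r659 (@Lb.r r2401 (@Lb.g g7 (@Lb.g g6 (@Lb.d (nat_lit 0) (nat_lit 16) (nat_lit 81) (@Lb.r r388 (@Lb.fp (nat_lit 3) t994)))))))))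
noncomputable def l19285 : Lb := (@Lb.d (nat_lit 144) (nat_lit 513) (nat_lit 64) (@Lb.g g8 (@Lb.g g9 (@Lb.g g10 (@Lb.g g11 (@Lb.r r1451 (@Lb.r r1602 (@Lb.r r1433 (@Lb.r r388 (@Lb.d (nat_lit 617) (nat_lit 170) (nat_lit 73) (@Lb.fp (nat_lit 9) t898)))))))))))
noncomputable def l19286 : Lb := (@Lb.d (nat_lit 149) (nat_lit 258) (nat_lit 64) (@Lb.g g8 (@Lb.g g9 (@Lb.g g10 (@Lb.g g11 (@Lb.r r1451 (@Lb.r r1602 (@Lb.r r1433 (@Lb.r r388 (@Lb.d (nat_lit 617) (nat_lit 170) (nat_lit 73) (@Lb.fp (nat_lit 9) t898)))))))))))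
noncomputable def l19287 : Lb := (@Lb.d (nat_lit 8) (nat_lit 8) (nat_lit 74) (@Lb.g g8 (@Lb.g g10 (@Lb.g g11 (@Lb.r r647 (@Lb.r r1557 (@Lb.r r356 (@Lb.r r1130 (@Lb.d (nat_lit 105) (nat_lit 161) (nat_lit 293) (@Lb.t (@Lb.fp (nat_lit 9) t1449)))))))))))
noncomputable def l19288 : Lb := (@Lb.d (nat_lit 0) (nat_lit 513) (nat_lit 74) (@Lb.g g8 (@Lb.g g9 (@Lb.g g10 (@Lb.g g11 (@Lb.r r647 (@Lb.r r324 (@Lb.r r170 (@Lb.r r1169 (@Lb.r r36 (@Lb.d (nat_lit 581) (nat_lit 132) (nat_lit 529) (@Lb.fp (nat_lit 9) t1449))))))))))))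
noncomputable def l19289 : Lb := (@Lb.d (nat_lit 401) (nat_lit 512) (nat_lit 130) (@Lb.r r1048 (@Lb.r r1379 (@Lb.r r2385 (@Lb.g g7 (@Lb.g g6 (@Lb.d (nat_lit 0) (nat_lit 8) (nat_lit 81) (@Lb.r r388 (@Lb.fp (nat_lit 3) t994)))))))))
noncomputable def l19290 : Lb := (@Lb.d (nat_lit 2) (nat_lit 2) (nat_lit 73) (@Lb.g g8 (@Lb.g g9 (@Lb.g g10 (@Lb.g g11 (@Lb.r r427 (@Lb.r r420 (@Lb.r r102 (@Lb.r r21 (@Lb.r r36 (@Lb.d (nat_lit 516) (nat_lit 8) (nat_lit 169) (@Lb.fp (nat_lit 9) t221))))))))))))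
noncomputable def l19291 : Lb := (@Lb.d (nat_lit 2) (nat_lit 258) (nat_lit 130) (@Lb.g g8 (@Lb.g g9 (@Lb.g g10 (@Lb.g g11 (@Lb.r r427 (@Lb.r r420 (@Lb.r r102 (@Lb.r r21 (@Lb.r r36 (@Lb.d (nat_lit 521) (nat_lit 9) (nat_lit 169) (@Lb.fp (nat_lit 9) t221))))))))))))
noncomputable def l19292 : Lb := (@Lb.d (nat_lit 0) (nat_lit 514) (nat_lit 73) (@Lb.g g8 (@Lb.g g9 (@Lb.g g10 (@Lb.g g11 (@Lb.r r427 (@Lb.r r420 (@Lb.r r102 (@Lb.r r21 (@Lb.r r36 (@Lb.d (nat_lit 516) (nat_lit 8) (nat_lit 169) (@Lb.fp (nat_lit 9) t221))))))))))))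
noncomputable def l19293 : Lb := (@Lb.d (nat_lit 0) (nat_lit 153) (nat_lit 341) (@Lb.r r2449 (@Lb.r r1355 (@Lb.r r1304 (@Lb.r r2138 (@Lb.g g5 (@Lb.d (nat_lit 4) (nat_lit 1) (nat_lit 0) (@Lb.t (@Lb.fp (nat_lit 3) t412)))))))))
noncomputable def l19294 : Lb := (@Lb.d (nat_lit 0) (nat_lit 512) (nat_lit 128) (@Lb.g g9 (@Lb.g g10 (@Lb.g g11 (@Lb.r r2727 (@Lb.r r1364 (@Lb.r r2218 (@Lb.r r2201 (@Lb.d (nat_lit 25) (nat_lit 137) (nat_lit 18) (@Lb.t (@Lb.fm (nat_lit 9) t353)))))))))))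
noncomputable def l19295 : Lb := (@Lb.d (nat_lit 1) (nat_lit 512) (nat_lit 128) (@Lb.g g8 (@Lb.g g9 (@Lb.g g10 (@Lb.g g11 (@Lb.r r2731 (@Lb.r r2728 (@Lb.r r2218 (@Lb.r r2201 (@Lb.d (nat_lit 25) (nat_lit 137) (nat_lit 153) (@Lb.fm (nat_lit 9) t353)))))))))))
noncomputable def l19296 : Lb := (@Lb.d (nat_lit 0) (nat_lit 294) (nat_lit 664) (@Lb.r r85 (@Lb.r r2408 (@Lb.r r2378 (@Lb.r r1703 (@Lb.r r529 (@Lb.g g7 (@Lb.g g8 (@Lb.fp (nat_lit 3) t1607)))))))))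
noncomputable def l19297 : Lb := (@Lb.d (nat_lit 1) (nat_lit 0) (nat_lit 128) (@Lb.g g8 (@Lb.g g9 (@Lb.g g10 (@Lb.g g11 (@Lb.r r2731 (@Lb.r r2728 (@Lb.r r2218 (@Lb.r r2201 (@Lb.d (nat_lit 25) (nat_lit 137) (nat_lit 84) (@Lb.fm (nat_lit 9) t353)))))))))))
noncomputable def l19298 : Lb := (@Lb.d (nat_lit 17) (nat_lit 262) (nat_lit 69) (@Lb.r r2118 (@Lb.r r1416 (@Lb.r r407 (@Lb.g g5 (@Lb.g g4 (@Lb.d (nat_lit 1) (nat_lit 37) (nat_lit 0) (@Lb.r r291 (@Lb.r r98 (@Lb.fp (nat_lit 3) t2697))))))))))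
noncomputable def l19299 : Lb := (@Lb.r r82 (@Lb.r r275 (@Lb.d (nat_lit 2) (nat_lit 338) (nat_lit 0) (@Lb.g g8 (@Lb.g g9 (@Lb.r r2347 (@Lb.r r2442 (@Lb.r r2436 (@Lb.d (nat_lit 133) (nat_lit 0) (nat_lit 425) (@Lb.fp (nat_lit 3) t3891))))))))))
noncomputable def l19300 : Lb := (@Lb.d (nat_lit 272) (nat_lit 66) (nat_lit 0) (@Lb.g g8 (@Lb.g g9 (@Lb.g g10 (@Lb.r r1707 (@Lb.r r618 (@Lb.d (nat_lit 614) (nat_lit 25) (nat_lit 297) (@Lb.t (@Lb.fp (nat_lit 9) t1129)))))))))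
noncomputable def l19301 : Lb := (@Lb.r r323 (@Lb.d (nat_lit 0) (nat_lit 512) (nat_lit 2) (@Lb.g g8 (@Lb.g g9 (@Lb.g g10 (@Lb.r r2339 (@Lb.r r2146 (@Lb.r r101 (@Lb.r r24 (@Lb.d (nat_lit 97) (nat_lit 0) (nat_lit 544) (@Lb.t (@Lb.fm (nat_lit 9) t221))))))))))))
noncomputable def l19302 : Lb := (@Lb.d (nat_lit 5) (nat_lit 641) (nat_lit 21) (@Lb.r r2069 (@Lb.r r1124 (@Lb.r r579 (@Lb.g g7 (@Lb.g g10 (@Lb.g g5 (@Lb.d (nat_lit 4) (nat_lit 1) (nat_lit 134) (@Lb.t (@Lb.fp (nat_lit 9) t3892))))))))))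
noncomputable def l19303 : Lb := (@Lb.r r323 (@Lb.d (nat_lit 2) (nat_lit 516) (nat_lit 0) (@Lb.g g8 (@Lb.g g9 (@Lb.g g10 (@Lb.r r2657 (@Lb.r r2727 (@Lb.r r2694 (@Lb.r r2436 (@Lb.d (nat_lit 65) (nat_lit 10) (nat_lit 682) (@Lb.t (@Lb.fp (nat_lit 9) t3893))))))))))))
noncomputable def l19304 : Lb := (@Lb.r r82 (@Lb.r r275 (@Lb.d (nat_lit 8) (nat_lit 546) (nat_lit 0) (@Lb.g g9 (@Lb.r r2714 (@Lb.r r2708 (@Lb.r r2583 (@Lb.r r1381 (@Lb.d (nat_lit 169) (nat_lit 165) (nat_lit 164) (@Lb.t (@Lb.fm (nat_lit 3) t19)))))))))))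
noncomputable def l19305 : Lb := (@Lb.r r82 (@Lb.r r275 (@Lb.d (nat_lit 2) (nat_lit 82) (nat_lit 0) (@Lb.g g8 (@Lb.g g9 (@Lb.r r2347 (@Lb.r r2442 (@Lb.r r2436 (@Lb.d (nat_lit 128) (nat_lit 9) (nat_lit 424) (@Lb.fp (nat_lit 3) t344))))))))))
noncomputable def l19306 : Lb := (@Lb.d (nat_lit 136) (nat_lit 521) (nat_lit 256) (@Lb.g g9 (@Lb.g g7 (@Lb.r r2196 (@Lb.r r2454 (@Lb.r r601 (@Lb.d (nat_lit 618) (nat_lit 40) (nat_lit 64) (@Lb.fm (nat_lit 3) t386))))))))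
noncomputable def l19307 : Lb := (@Lb.d (nat_lit 144) (nat_lit 513) (nat_lit 130) (@Lb.g g8 (@Lb.g g9 (@Lb.g g10 (@Lb.g g11 (@Lb.r r2154 (@Lb.r r1129 (@Lb.r r596 (@Lb.r r295 (@Lb.r r1540 (@Lb.d (nat_lit 256) (nat_lit 89) (nat_lit 402) (@Lb.fm (nat_lit 9) t524))))))))))))
noncomputable def l19308 : Lb := (@Lb.d (nat_lit 0) (nat_lit 102) (nat_lit 6) (@Lb.r r2386 (@Lb.r r2723 (@Lb.g g6 (@Lb.g g5 (@Lb.d (nat_lit 0) (nat_lit 129) (nat_lit 1) (@Lb.r r2180 (@Lb.fp (nat_lit 3) t40))))))))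
noncomputable def l19309 : Lb := (@Lb.d (nat_lit 2) (nat_lit 256) (nat_lit 9) (@Lb.g g8 (@Lb.g g5 (@Lb.g g10 (@Lb.g g11 (@Lb.r r2691 (@Lb.r r1178 (@Lb.r r24 (@Lb.d (nat_lit 138) (nat_lit 0) (nat_lit 424) (@Lb.fp (nat_lit 9) t282))))))))))
noncomputable def l19310 : Lb := (@Lb.d (nat_lit 2) (nat_lit 514) (nat_lit 73) (@Lb.g g8 (@Lb.g g9 (@Lb.g g10 (@Lb.g g11 (@Lb.r r2691 (@Lb.r r1193 (@Lb.r r2658 (@Lb.r r2436 (@Lb.d (nat_lit 610) (nat_lit 160) (nat_lit 662) (@Lb.fp (nat_lit 9) t311)))))))))))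
noncomputable def l19311 : Lb := (@Lb.r r323 (@Lb.d (nat_lit 2) (nat_lit 0) (nat_lit 1) (@Lb.g g8 (@Lb.g g6 (@Lb.r r1643 (@Lb.r r2145 (@Lb.r r24 (@Lb.d (nat_lit 264) (nat_lit 73) (nat_lit 160) (@Lb.fm (nat_lit 3) t335)))))))))
noncomputable def l19312 : Lb := (@Lb.d (nat_lit 153) (nat_lit 1) (nat_lit 64) (@Lb.g g8 (@Lb.g g9 (@Lb.g g10 (@Lb.g g11 (@Lb.r r387 (@Lb.r r164 (@Lb.r r2470 (@Lb.r r145 (@Lb.d (nat_lit 325) (nat_lit 68) (nat_lit 408) (@Lb.fm (nat_lit 9) t4)))))))))))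
noncomputable def l19313 : Lb := (@Lb.d (nat_lit 154) (nat_lit 513) (nat_lit 64) (@Lb.g g8 (@Lb.g g9 (@Lb.g g10 (@Lb.g g11 (@Lb.r r387 (@Lb.r r164 (@Lb.r r2470 (@Lb.r r145 (@Lb.d (nat_lit 325) (nat_lit 68) (nat_lit 408) (@Lb.fm (nat_lit 9) t4)))))))))))
noncomputable def l19314 : Lb := (@Lb.d (nat_lit 0) (nat_lit 165) (nat_lit 0) (@Lb.g g5 (@Lb.d (nat_lit 0) (nat_lit 5) (nat_lit 534) (@Lb.t (@Lb.fm (nat_lit 3) t603)))))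
noncomputable def l19315 : Lb := (@Lb.d (nat_lit 24) (nat_lit 674) (nat_lit 533) (@Lb.r r101 (@Lb.g g4 (@Lb.d (nat_lit 1) (nat_lit 0) (nat_lit 0) (@Lb.t (@Lb.fp (nat_lit 3) t996))))))
noncomputable def l19316 : Lb := (@Lb.d (nat_lit 0) (nat_lit 682) (nat_lit 0) (@Lb.g g5 (@Lb.d (nat_lit 0) (nat_lit 5) (nat_lit 532) (@Lb.t (@Lb.fm (nat_lit 3) t3894)))))
noncomputable def l19317 : Lb := (@Lb.d (nat_lit 0) (nat_lit 672) (nat_lit 66) (@Lb.g g5 (@Lb.g g10 (@Lb.g g11 (@Lb.r r2626 (@Lb.r r2627 (@Lb.d (nat_lit 0) (nat_lit 0) (nat_lit 362) (@Lb.t (@Lb.fm (nat_lit 9) t406)))))))))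
noncomputable def l19318 : Lb := (@Lb.d (nat_lit 2) (nat_lit 546) (nat_lit 2) (@Lb.g g8 (@Lb.g g9 (@Lb.g g10 (@Lb.r r275 (@Lb.r r1194 (@Lb.r r2593 (@Lb.r r2436 (@Lb.d (nat_lit 105) (nat_lit 144) (nat_lit 90) (@Lb.t (@Lb.fm (nat_lit 9) t994)))))))))))
noncomputable def l19319 : Lb := (@Lb.d (nat_lit 0) (nat_lit 0) (nat_lit 64) (@Lb.g g10 (@Lb.g g7 (@Lb.r r402 (@Lb.r r101 (@Lb.r r24 (@Lb.d (nat_lit 536) (nat_lit 9) (nat_lit 608) (@Lb.fm (nat_lit 3) t145))))))))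
noncomputable def l19320 : Lb := (@Lb.r r323 (@Lb.d (nat_lit 137) (nat_lit 514) (nat_lit 18) (@Lb.g g8 (@Lb.g g9 (@Lb.g g10 (@Lb.r r1321 (@Lb.r r1559 (@Lb.r r360 (@Lb.d (nat_lit 661) (nat_lit 42) (nat_lit 326) (@Lb.t (@Lb.fp (nat_lit 9) t246)))))))))))
noncomputable def l19321 : Lb := (@Lb.d (nat_lit 9) (nat_lit 2) (nat_lit 64) (@Lb.g g8 (@Lb.g g9 (@Lb.g g10 (@Lb.g g11 (@Lb.r r1065 (@Lb.r r360 (@Lb.r r2439 (@Lb.r r390 (@Lb.r r1540 (@Lb.d (nat_lit 0) (nat_lit 98) (nat_lit 66) (@Lb.fm (nat_lit 9) t246))))))))))))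
noncomputable def l19322 : Lb := (@Lb.d (nat_lit 9) (nat_lit 1) (nat_lit 130) (@Lb.g g8 (@Lb.g g9 (@Lb.g g10 (@Lb.g g11 (@Lb.r r2691 (@Lb.r r1193 (@Lb.r r2658 (@Lb.r r2436 (@Lb.d (nat_lit 609) (nat_lit 165) (nat_lit 596) (@Lb.fp (nat_lit 9) t311)))))))))))
noncomputable def l19323 : Lb := (@Lb.r r323 (@Lb.d (nat_lit 0) (nat_lit 516) (nat_lit 2) (@Lb.g g6 (@Lb.r r2659 (@Lb.r r101 (@Lb.r r24 (@Lb.d (nat_lit 530) (nat_lit 10) (nat_lit 161) (@Lb.t (@Lb.fp (nat_lit 3) t145)))))))))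
noncomputable def l19324 : Lb := (@Lb.d (nat_lit 0) (nat_lit 262) (nat_lit 74) (@Lb.g g9 (@Lb.g g10 (@Lb.g g11 (@Lb.r r1619 (@Lb.r r2725 (@Lb.r r2708 (@Lb.r r2630 (@Lb.d (nat_lit 642) (nat_lit 0) (nat_lit 289) (@Lb.t (@Lb.fm (nat_lit 9) t31)))))))))))
noncomputable def l19325 : Lb := (@Lb.r r323 (@Lb.d (nat_lit 8) (nat_lit 518) (nat_lit 0) (@Lb.g g9 (@Lb.g g10 (@Lb.r r1627 (@Lb.r r2150 (@Lb.r r148 (@Lb.r r25 (@Lb.d (nat_lit 521) (nat_lit 4) (nat_lit 0) (@Lb.fp (nat_lit 3) t601))))))))))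
noncomputable def l19326 : Lb := (@Lb.d (nat_lit 0) (nat_lit 514) (nat_lit 66) (@Lb.g g8 (@Lb.g g9 (@Lb.g g10 (@Lb.g g11 (@Lb.r r409 (@Lb.r r615 (@Lb.r r1366 (@Lb.r r1124 (@Lb.r r1045 (@Lb.d (nat_lit 662) (nat_lit 73) (nat_lit 329) (@Lb.fm (nat_lit 9) t3153))))))))))))
noncomputable def l19327 : Lb := (@Lb.d (nat_lit 520) (nat_lit 4) (nat_lit 385) (@Lb.r r2120 (@Lb.r r89 (@Lb.r r1414 (@Lb.g g11 (@Lb.g g6 (@Lb.fp (nat_lit 3) t3895)))))))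
noncomputable def l19328 : Lb := (@Lb.r r323 (@Lb.d (nat_lit 8) (nat_lit 6) (nat_lit 0) (@Lb.g g9 (@Lb.g g10 (@Lb.r r1627 (@Lb.r r2150 (@Lb.r r148 (@Lb.r r25 (@Lb.d (nat_lit 521) (nat_lit 2) (nat_lit 2) (@Lb.fp (nat_lit 3) t601))))))))))
noncomputable def l19329 : Lb := (@Lb.d (nat_lit 513) (nat_lit 517) (nat_lit 385) (@Lb.r r24 (@Lb.r r101 (@Lb.r r402 (@Lb.g g11 (@Lb.g g6 (@Lb.g g4 (@Lb.t (@Lb.fp (nat_lit 9) t3896)))))))))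
noncomputable def l19330 : Lb := (@Lb.d (nat_lit 10) (nat_lit 518) (nat_lit 128) (@Lb.g g8 (@Lb.g g9 (@Lb.g g10 (@Lb.g g11 (@Lb.r r1287 (@Lb.r r2666 (@Lb.r r97 (@Lb.r r2564 (@Lb.d (nat_lit 546) (nat_lit 10) (nat_lit 22) (@Lb.fm (nat_lit 9) t2865)))))))))))
noncomputable def l19331 : Lb := (@Lb.d (nat_lit 136) (nat_lit 512) (nat_lit 128) (@Lb.g g9 (@Lb.g g6 (@Lb.g g11 (@Lb.r r260 (@Lb.r r539 (@Lb.r r1297 (@Lb.d (nat_lit 72) (nat_lit 145) (nat_lit 0) (@Lb.t (@Lb.fm (nat_lit 9) t3897))))))))))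
noncomputable def l19332 : Lb := (@Lb.r r82 (@Lb.r r275 (@Lb.d (nat_lit 8) (nat_lit 641) (nat_lit 0) (@Lb.g g5 (@Lb.r r2596 (@Lb.r r2631 (@Lb.r r386 (@Lb.d (nat_lit 292) (nat_lit 9) (nat_lit 0) (@Lb.t (@Lb.fm (nat_lit 3) t2966))))))))))
noncomputable def l19333 : Lb := (@Lb.d (nat_lit 81) (nat_lit 341) (nat_lit 384) (@Lb.r r1361 (@Lb.r r2438 (@Lb.r r2379 (@Lb.r r344 (@Lb.g g7 (@Lb.g g6 (@Lb.g g5 (@Lb.d (nat_lit 4) (nat_lit 0) (nat_lit 129) (@Lb.t (@Lb.fp (nat_lit 9) t3625)))))))))))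
noncomputable def l19334 : Lb := (@Lb.d (nat_lit 146) (nat_lit 514) (nat_lit 133) (@Lb.g g8 (@Lb.g g9 (@Lb.g g10 (@Lb.g g11 (@Lb.r r427 (@Lb.r r2154 (@Lb.r r409 (@Lb.r r388 (@Lb.d (nat_lit 104) (nat_lit 85) (nat_lit 337) (@Lb.fp (nat_lit 9) t1792)))))))))))
noncomputable def l19335 : Lb := (@Lb.d (nat_lit 1) (nat_lit 2) (nat_lit 130) (@Lb.g g8 (@Lb.g g9 (@Lb.g g10 (@Lb.g g11 (@Lb.r r2691 (@Lb.r r297 (@Lb.r r360 (@Lb.r r582 (@Lb.r r2180 (@Lb.d (nat_lit 642) (nat_lit 10) (nat_lit 329) (@Lb.fm (nat_lit 9) t242))))))))))))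
noncomputable def l19336 : Lb := (@Lb.d (nat_lit 8) (nat_lit 2) (nat_lit 130) (@Lb.g g9 (@Lb.g g10 (@Lb.g g11 (@Lb.r r2691 (@Lb.r r2376 (@Lb.r r1366 (@Lb.r r409 (@Lb.d (nat_lit 650) (nat_lit 65) (nat_lit 586) (@Lb.t (@Lb.fm (nat_lit 9) t2523)))))))))))
noncomputable def l19337 : Lb := (@Lb.d (nat_lit 130) (nat_lit 516) (nat_lit 128) (@Lb.g g8 (@Lb.g g9 (@Lb.g g10 (@Lb.g g11 (@Lb.r r292 (@Lb.r r651 (@Lb.r r1634 (@Lb.r r2069 (@Lb.r r1060 (@Lb.d (nat_lit 609) (nat_lit 137) (nat_lit 40) (@Lb.fm (nat_lit 9) t3626))))))))))))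
noncomputable def l19338 : Lb := (@Lb.d (nat_lit 128) (nat_lit 512) (nat_lit 0) (@Lb.r r21 (@Lb.r r70 (@Lb.g g4 (@Lb.d (nat_lit 65) (nat_lit 0) (nat_lit 0) (@Lb.r r74 (@Lb.r r25 (@Lb.t (@Lb.fm (nat_lit 3) t3898)))))))))
noncomputable def l19339 : Lb := (@Lb.d (nat_lit 146) (nat_lit 2) (nat_lit 64) (@Lb.g g8 (@Lb.g g9 (@Lb.g g10 (@Lb.g g11 (@Lb.r r683 (@Lb.r r418 (@Lb.r r552 (@Lb.r r41 (@Lb.r r36 (@Lb.d (nat_lit 98) (nat_lit 134) (nat_lit 329) (@Lb.fp (nat_lit 9) t1589))))))))))))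
noncomputable def l19340 : Lb := (@Lb.d (nat_lit 146) (nat_lit 4) (nat_lit 65) (@Lb.g g8 (@Lb.g g9 (@Lb.g g10 (@Lb.g g11 (@Lb.r r683 (@Lb.r r418 (@Lb.r r552 (@Lb.r r41 (@Lb.r r36 (@Lb.d (nat_lit 97) (nat_lit 134) (nat_lit 329) (@Lb.fp (nat_lit 9) t3899))))))))))))
noncomputable def l19341 : Lb := (@Lb.d (nat_lit 146) (nat_lit 2) (nat_lit 64) (@Lb.g g8 (@Lb.g g9 (@Lb.g g10 (@Lb.g g11 (@Lb.r r683 (@Lb.r r418 (@Lb.r r552 (@Lb.r r41 (@Lb.r r36 (@Lb.d (nat_lit 102) (nat_lit 132) (nat_lit 329) (@Lb.fp (nat_lit 9) t1589))))))))))))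
noncomputable def l19342 : Lb := (@Lb.d (nat_lit 262) (nat_lit 166) (nat_lit 65) (@Lb.r r2069 (@Lb.r r2390 (@Lb.g g7 (@Lb.g g6 (@Lb.g g5 (@Lb.g g4 (@Lb.d (nat_lit 1) (nat_lit 2) (nat_lit 128) (@Lb.fp (nat_lit 9) t154)))))))))
noncomputable def l19343 : Lb := (@Lb.d (nat_lit 2) (nat_lit 258) (nat_lit 130) (@Lb.g g8 (@Lb.g g9 (@Lb.g g10 (@Lb.g g11 (@Lb.r r427 (@Lb.r r145 (@Lb.r r356 (@Lb.r r154 (@Lb.r r132 (@Lb.d (nat_lit 10) (nat_lit 2) (nat_lit 2) (@Lb.fm (nat_lit 9) t61))))))))))))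
noncomputable def l19344 : Lb := (@Lb.d (nat_lit 144) (nat_lit 256) (nat_lit 129) (@Lb.r r1604 (@Lb.r r402 (@Lb.r r89 (@Lb.g g11 (@Lb.g g9 (@Lb.g g4 (@Lb.t (@Lb.fm (nat_lit 9) t3900)))))))))
noncomputable def l19345 : Lb := (@Lb.d (nat_lit 144) (nat_lit 0) (nat_lit 129) (@Lb.r r1604 (@Lb.r r402 (@Lb.r r89 (@Lb.g g9 (@Lb.g g4 (@Lb.fm (nat_lit 3) t3900)))))))
noncomputable def l19346 : Lb := (@Lb.d (nat_lit 0) (nat_lit 256) (nat_lit 130) (@Lb.g g10 (@Lb.g g11 (@Lb.r r419 (@Lb.r r386 (@Lb.r r1172 (@Lb.r r89 (@Lb.d (nat_lit 618) (nat_lit 38) (nat_lit 132) (@Lb.fp (nat_lit 3) t3901)))))))))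
noncomputable def l19347 : Lb := (@Lb.d (nat_lit 4) (nat_lit 292) (nat_lit 64) (@Lb.g g8 (@Lb.g g9 (@Lb.g g10 (@Lb.g g11 (@Lb.r r1627 (@Lb.r r610 (@Lb.r r1065 (@Lb.r r1416 (@Lb.d (nat_lit 646) (nat_lit 25) (nat_lit 70) (@Lb.fm (nat_lit 9) t3902)))))))))))
noncomputable def l19348 : Lb := (@Lb.d (nat_lit 262) (nat_lit 422) (nat_lit 65) (@Lb.r r2069 (@Lb.r r2390 (@Lb.g g7 (@Lb.g g6 (@Lb.g g5 (@Lb.g g4 (@Lb.d (nat_lit 8) (nat_lit 1) (nat_lit 128) (@Lb.fp (nat_lit 9) t154)))))))))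
noncomputable def l19349 : Lb := (@Lb.r r21 (@Lb.r r263 (@Lb.d (nat_lit 0) (nat_lit 512) (nat_lit 2) (@Lb.g g8 (@Lb.g g10 (@Lb.r r395 (@Lb.r r153 (@Lb.r r146 (@Lb.r r100 (@Lb.d (nat_lit 2) (nat_lit 6) (nat_lit 0) (@Lb.fp (nat_lit 3) t3744)))))))))))
noncomputable def l19350 : Lb := (@Lb.d (nat_lit 5) (nat_lit 4) (nat_lit 1) (@Lb.r r289 (@Lb.r r279 (@Lb.r r584 (@Lb.r r2118 (@Lb.g g6 (@Lb.g g5 (@Lb.g g4 (@Lb.r r387 (@Lb.t (@Lb.fp (nat_lit 9) t673)))))))))))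
noncomputable def l19351 : Lb := (@Lb.d (nat_lit 2) (nat_lit 4) (nat_lit 128) (@Lb.g g8 (@Lb.g g9 (@Lb.g g10 (@Lb.g g11 (@Lb.r r427 (@Lb.r r145 (@Lb.r r356 (@Lb.r r154 (@Lb.r r132 (@Lb.d (nat_lit 9) (nat_lit 2) (nat_lit 73) (@Lb.fm (nat_lit 9) t3903))))))))))))
noncomputable def l19352 : Lb := (@Lb.d (nat_lit 2) (nat_lit 288) (nat_lit 130) (@Lb.g g8 (@Lb.g g10 (@Lb.g g11 (@Lb.r r602 (@Lb.r r600 (@Lb.r r293 (@Lb.r r2587 (@Lb.d (nat_lit 320) (nat_lit 105) (nat_lit 278) (@Lb.t (@Lb.fp (nat_lit 9) t71)))))))))))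
noncomputable def l19353 : Lb := (@Lb.d (nat_lit 2) (nat_lit 4) (nat_lit 10) (@Lb.g g8 (@Lb.g g9 (@Lb.g g10 (@Lb.g g7 (@Lb.r r386 (@Lb.r r97 (@Lb.d (nat_lit 9) (nat_lit 137) (nat_lit 9) (@Lb.fm (nat_lit 9) t2651)))))))))
noncomputable def l19354 : Lb := (@Lb.d (nat_lit 6) (nat_lit 290) (nat_lit 130) (@Lb.g g4 (@Lb.g g9 (@Lb.g g10 (@Lb.g g11 (@Lb.r r2407 (@Lb.r r386 (@Lb.r r1701 (@Lb.d (nat_lit 422) (nat_lit 42) (nat_lit 74) (@Lb.fm (nat_lit 9) t3904))))))))))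
noncomputable def l19355 : Lb := (@Lb.d (nat_lit 6) (nat_lit 546) (nat_lit 130) (@Lb.g g4 (@Lb.g g9 (@Lb.g g10 (@Lb.g g11 (@Lb.r r2407 (@Lb.r r386 (@Lb.r r1701 (@Lb.d (nat_lit 425) (nat_lit 40) (nat_lit 74) (@Lb.fm (nat_lit 9) t3905))))))))))
noncomputable def l19356 : Lb := (@Lb.d (nat_lit 2) (nat_lit 512) (nat_lit 64) (@Lb.g g8 (@Lb.g g10 (@Lb.g g11 (@Lb.r r1543 (@Lb.r r597 (@Lb.r r2468 (@Lb.r r2150 (@Lb.d (nat_lit 24) (nat_lit 9) (nat_lit 168) (@Lb.t (@Lb.fp (nat_lit 9) t626)))))))))))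
noncomputable def l19357 : Lb := (@Lb.d (nat_lit 0) (nat_lit 292) (nat_lit 64) (@Lb.g g8 (@Lb.g g9 (@Lb.g g10 (@Lb.g g11 (@Lb.r r387 (@Lb.r r1177 (@Lb.r r2458 (@Lb.r r24 (@Lb.d (nat_lit 593) (nat_lit 0) (nat_lit 169) (@Lb.fp (nat_lit 9) t2504)))))))))))
noncomputable def l19358 : Lb := (@Lb.d (nat_lit 97) (nat_lit 4) (nat_lit 8) (@Lb.g g8 (@Lb.g g9 (@Lb.g g10 (@Lb.g g11 (@Lb.r r343 (@Lb.r r421 (@Lb.r r596 (@Lb.r r586 (@Lb.d (nat_lit 97) (nat_lit 8) (nat_lit 5) (@Lb.fm (nat_lit 9) t3412)))))))))))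
noncomputable def l19359 : Lb := (@Lb.d (nat_lit 41) (nat_lit 10) (nat_lit 0) (@Lb.g g8 (@Lb.g g9 (@Lb.r r2379 (@Lb.r r582 (@Lb.r r1432 (@Lb.r r1045 (@Lb.d (nat_lit 516) (nat_lit 25) (nat_lit 682) (@Lb.fp (nat_lit 3) t386)))))))))
noncomputable def l19360 : Lb := (@Lb.d (nat_lit 129) (nat_lit 2) (nat_lit 66) (@Lb.g g8 (@Lb.g g9 (@Lb.g g10 (@Lb.g g11 (@Lb.r r427 (@Lb.r r1449 (@Lb.r r1130 (@Lb.r r1128 (@Lb.d (nat_lit 297) (nat_lit 9) (nat_lit 274) (@Lb.fp (nat_lit 9) t594)))))))))))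
noncomputable def l19361 : Lb := (@Lb.r r21 (@Lb.d (nat_lit 10) (nat_lit 8) (nat_lit 128) (@Lb.g g8 (@Lb.g g10 (@Lb.g g11 (@Lb.r r2731 (@Lb.r r293 (@Lb.r r1620 (@Lb.r r2154 (@Lb.d (nat_lit 290) (nat_lit 9) (nat_lit 169) (@Lb.t (@Lb.fm (nat_lit 9) t51))))))))))))
noncomputable def l19362 : Lb := (@Lb.d (nat_lit 9) (nat_lit 1) (nat_lit 128) (@Lb.g g8 (@Lb.g g9 (@Lb.g g10 (@Lb.g g11 (@Lb.r r2731 (@Lb.r r680 (@Lb.r r170 (@Lb.r r145 (@Lb.r r1060 (@Lb.d (nat_lit 266) (nat_lit 137) (nat_lit 137) (@Lb.fm (nat_lit 9) t51))))))))))))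
noncomputable def l19363 : Lb := (@Lb.d (nat_lit 9) (nat_lit 257) (nat_lit 128) (@Lb.g g8 (@Lb.g g9 (@Lb.g g10 (@Lb.g g11 (@Lb.r r2731 (@Lb.r r680 (@Lb.r r170 (@Lb.r r145 (@Lb.r r1060 (@Lb.d (nat_lit 266) (nat_lit 132) (nat_lit 136) (@Lb.fm (nat_lit 9) t51))))))))))))
noncomputable def l19364 : Lb := (@Lb.d (nat_lit 1) (nat_lit 544) (nat_lit 66) (@Lb.g g8 (@Lb.g g10 (@Lb.g g11 (@Lb.r r2337 (@Lb.r r531 (@Lb.r r2122 (@Lb.r r2120 (@Lb.d (nat_lit 32) (nat_lit 97) (nat_lit 6) (@Lb.t (@Lb.fp (nat_lit 9) t282)))))))))))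
noncomputable def l19365 : Lb := (@Lb.d (nat_lit 1) (nat_lit 256) (nat_lit 2) (@Lb.g g8 (@Lb.g g10 (@Lb.r r273 (@Lb.r r2595 (@Lb.r r2122 (@Lb.r r529 (@Lb.r r2120 (@Lb.d (nat_lit 32) (nat_lit 0) (nat_lit 70) (@Lb.fm (nat_lit 3) t282))))))))))
noncomputable def l19366 : Lb := (@Lb.r r323 (@Lb.d (nat_lit 138) (nat_lit 512) (nat_lit 18) (@Lb.g g8 (@Lb.g g10 (@Lb.r r661 (@Lb.r r1431 (@Lb.r r680 (@Lb.d (nat_lit 581) (nat_lit 22) (nat_lit 42) (@Lb.fp (nat_lit 3) t100)))))))))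
noncomputable def l19367 : Lb := (@Lb.d (nat_lit 0) (nat_lit 2) (nat_lit 130) (@Lb.g g9 (@Lb.g g10 (@Lb.g g11 (@Lb.r r427 (@Lb.r r386 (@Lb.r r97 (@Lb.d (nat_lit 137) (nat_lit 153) (nat_lit 68) (@Lb.t (@Lb.fm (nat_lit 9) t1231))))))))))
noncomputable def l19368 : Lb := (@Lb.d (nat_lit 9) (nat_lit 513) (nat_lit 128) (@Lb.g g8 (@Lb.g g9 (@Lb.g g10 (@Lb.g g11 (@Lb.r r676 (@Lb.r r263 (@Lb.r r162 (@Lb.r r145 (@Lb.r r516 (@Lb.d (nat_lit 6) (nat_lit 10) (nat_lit 137) (@Lb.fm (nat_lit 9) t51))))))))))))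
noncomputable def l19369 : Lb := (@Lb.d (nat_lit 9) (nat_lit 512) (nat_lit 130) (@Lb.g g8 (@Lb.g g10 (@Lb.g g11 (@Lb.r r2138 (@Lb.r r1685 (@Lb.r r2455 (@Lb.r r1608 (@Lb.d (nat_lit 104) (nat_lit 65) (nat_lit 546) (@Lb.t (@Lb.fp (nat_lit 9) t282)))))))))))
noncomputable def l19370 : Lb := (@Lb.d (nat_lit 26) (nat_lit 257) (nat_lit 74) (@Lb.g g8 (@Lb.g g9 (@Lb.g g10 (@Lb.g g11 (@Lb.r r683 (@Lb.r r676 (@Lb.r r1190 (@Lb.r r145 (@Lb.d (nat_lit 265) (nat_lit 137) (nat_lit 425) (@Lb.fp (nat_lit 9) t152)))))))))))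
noncomputable def l19371 : Lb := (@Lb.r r323 (@Lb.d (nat_lit 8) (nat_lit 514) (nat_lit 2) (@Lb.g g9 (@Lb.g g10 (@Lb.r r2467 (@Lb.r r2146 (@Lb.d (nat_lit 2) (nat_lit 73) (nat_lit 34) (@Lb.fm (nat_lit 3) t51))))))))
noncomputable def l19372 : Lb := (@Lb.d (nat_lit 0) (nat_lit 514) (nat_lit 130) (@Lb.g g9 (@Lb.g g10 (@Lb.g g11 (@Lb.r r427 (@Lb.r r386 (@Lb.r r97 (@Lb.d (nat_lit 137) (nat_lit 153) (nat_lit 137) (@Lb.t (@Lb.fm (nat_lit 9) t1231))))))))))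
noncomputable def l19373 : Lb := (@Lb.d (nat_lit 8) (nat_lit 258) (nat_lit 2) (@Lb.g g9 (@Lb.g g10 (@Lb.g g11 (@Lb.r r2658 (@Lb.r r579 (@Lb.d (nat_lit 2) (nat_lit 97) (nat_lit 586) (@Lb.t (@Lb.fp (nat_lit 9) t51)))))))))
noncomputable def l19374 : Lb := (@Lb.d (nat_lit 9) (nat_lit 514) (nat_lit 128) (@Lb.g g8 (@Lb.g g9 (@Lb.g g11 (@Lb.r r292 (@Lb.r r1365 (@Lb.r r1707 (@Lb.r r2178 (@Lb.r r1572 (@Lb.d (nat_lit 274) (nat_lit 10) (nat_lit 34) (@Lb.t (@Lb.fm (nat_lit 9) t124))))))))))))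
noncomputable def l19375 : Lb := (@Lb.r r323 (@Lb.d (nat_lit 161) (nat_lit 514) (nat_lit 10) (@Lb.g g8 (@Lb.g g9 (@Lb.g g10 (@Lb.r r595 (@Lb.r r405 (@Lb.r r612 (@Lb.r r74 (@Lb.d (nat_lit 33) (nat_lit 26) (nat_lit 137) (@Lb.t (@Lb.fp (nat_lit 9) t238))))))))))))
noncomputable def l19376 : Lb := (@Lb.d (nat_lit 1) (nat_lit 32) (nat_lit 128) (@Lb.g g8 (@Lb.g g11 (@Lb.r r2217 (@Lb.r r2664 (@Lb.r r2699 (@Lb.r r2178 (@Lb.d (nat_lit 594) (nat_lit 170) (nat_lit 546) (@Lb.fm (nat_lit 3) t124)))))))))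
noncomputable def l19377 : Lb := (@Lb.d (nat_lit 8) (nat_lit 2) (nat_lit 1) (@Lb.g g9 (@Lb.g g10 (@Lb.g g11 (@Lb.r r1642 (@Lb.r r579 (@Lb.d (nat_lit 132) (nat_lit 161) (nat_lit 384) (@Lb.t (@Lb.fp (nat_lit 9) t881)))))))))
noncomputable def l19378 : Lb := (@Lb.r r323 (@Lb.d (nat_lit 8) (nat_lit 258) (nat_lit 2) (@Lb.g g9 (@Lb.g g10 (@Lb.r r1642 (@Lb.r r579 (@Lb.d (nat_lit 132) (nat_lit 161) (nat_lit 261) (@Lb.fp (nat_lit 3) t881))))))))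
noncomputable def l19379 : Lb := (@Lb.d (nat_lit 0) (nat_lit 514) (nat_lit 322) (@Lb.r r24 (@Lb.r r273 (@Lb.r r1634 (@Lb.r r1699 (@Lb.g g7 (@Lb.g g6 (@Lb.g g5 (@Lb.d (nat_lit 0) (nat_lit 20) (nat_lit 74) (@Lb.t (@Lb.fp (nat_lit 9) t3905)))))))))))
noncomputable def l19380 : Lb := (@Lb.d (nat_lit 1) (nat_lit 258) (nat_lit 130) (@Lb.g g4 (@Lb.g g9 (@Lb.g g10 (@Lb.g g11 (@Lb.r r1443 (@Lb.r r386 (@Lb.r r1125 (@Lb.d (nat_lit 406) (nat_lit 154) (nat_lit 84) (@Lb.fm (nat_lit 9) t714))))))))))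
noncomputable def l19381 : Lb := (@Lb.d (nat_lit 0) (nat_lit 616) (nat_lit 68) (@Lb.r r24 (@Lb.r r322 (@Lb.r r659 (@Lb.g g7 (@Lb.g g6 (@Lb.g g9 (@Lb.d (nat_lit 0) (nat_lit 10) (nat_lit 133) (@Lb.t (@Lb.fm (nat_lit 9) t374))))))))))
noncomputable def l19382 : Lb := (@Lb.d (nat_lit 0) (nat_lit 358) (nat_lit 70) (@Lb.r r24 (@Lb.r r322 (@Lb.r r659 (@Lb.g g7 (@Lb.g g6 (@Lb.g g9 (@Lb.d (nat_lit 0) (nat_lit 10) (nat_lit 64) (@Lb.t (@Lb.fm (nat_lit 9) t1176))))))))))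
noncomputable def l19383 : Lb := (@Lb.r r323 (@Lb.d (nat_lit 32) (nat_lit 0) (nat_lit 2) (@Lb.g g6 (@Lb.r r24 (@Lb.r r2469 (@Lb.r r1555 (@Lb.r r2694 (@Lb.d (nat_lit 337) (nat_lit 0) (nat_lit 649) (@Lb.t (@Lb.fm (nat_lit 3) t246))))))))))
noncomputable def l19384 : Lb := (@Lb.d (nat_lit 9) (nat_lit 257) (nat_lit 0) (@Lb.g g8 (@Lb.g g9 (@Lb.r r1579 (@Lb.r r162 (@Lb.r r145 (@Lb.r r1608 (@Lb.d (nat_lit 98) (nat_lit 5) (nat_lit 664) (@Lb.fp (nat_lit 3) t1082)))))))))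
noncomputable def l19385 : Lb := (@Lb.r r82 (@Lb.d (nat_lit 128) (nat_lit 33) (nat_lit 64) (@Lb.g g8 (@Lb.g g9 (@Lb.g g11 (@Lb.r r291 (@Lb.r r1604 (@Lb.r r602 (@Lb.r r401 (@Lb.d (nat_lit 0) (nat_lit 2) (nat_lit 616) (@Lb.t (@Lb.fm (nat_lit 9) t3906))))))))))))
noncomputable def l19386 : Lb := (@Lb.d (nat_lit 8) (nat_lit 2) (nat_lit 130) (@Lb.g g9 (@Lb.g g10 (@Lb.g g11 (@Lb.r r614 (@Lb.r r404 (@Lb.r r619 (@Lb.r r609 (@Lb.d (nat_lit 9) (nat_lit 153) (nat_lit 73) (@Lb.t (@Lb.fm (nat_lit 9) t44)))))))))))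
noncomputable def l19387 : Lb := (@Lb.d (nat_lit 1) (nat_lit 514) (nat_lit 130) (@Lb.g g8 (@Lb.g g9 (@Lb.g g10 (@Lb.g g11 (@Lb.r r427 (@Lb.r r297 (@Lb.r r104 (@Lb.r r70 (@Lb.r r132 (@Lb.d (nat_lit 9) (nat_lit 66) (nat_lit 330) (@Lb.fp (nat_lit 9) t119))))))))))))
noncomputable def l19388 : Lb := (@Lb.d (nat_lit 0) (nat_lit 554) (nat_lit 128) (@Lb.g g4 (@Lb.g g9 (@Lb.g g11 (@Lb.r r1434 (@Lb.r r359 (@Lb.r r2405 (@Lb.d (nat_lit 598) (nat_lit 102) (nat_lit 662) (@Lb.t (@Lb.fp (nat_lit 9) t3337))))))))))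
noncomputable def l19389 : Lb := (@Lb.r r275 (@Lb.d (nat_lit 8) (nat_lit 258) (nat_lit 2) (@Lb.g g8 (@Lb.g g9 (@Lb.g g10 (@Lb.r r106 (@Lb.r r1572 (@Lb.r r1447 (@Lb.r r401 (@Lb.d (nat_lit 0) (nat_lit 85) (nat_lit 68) (@Lb.t (@Lb.fm (nat_lit 9) t390))))))))))))
noncomputable def l19390 : Lb := (@Lb.d (nat_lit 8) (nat_lit 2) (nat_lit 130) (@Lb.g g9 (@Lb.g g10 (@Lb.g g11 (@Lb.r r586 (@Lb.r r584 (@Lb.r r299 (@Lb.r r409 (@Lb.d (nat_lit 533) (nat_lit 70) (nat_lit 169) (@Lb.t (@Lb.fp (nat_lit 9) t1233)))))))))))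
noncomputable def l19391 : Lb := (@Lb.d (nat_lit 0) (nat_lit 256) (nat_lit 136) (@Lb.g g4 (@Lb.g g11 (@Lb.r r1617 (@Lb.r r354 (@Lb.r r1427 (@Lb.d (nat_lit 274) (nat_lit 145) (nat_lit 392) (@Lb.fp (nat_lit 3) t932))))))))
noncomputable def l19392 : Lb := (@Lb.r r275 (@Lb.d (nat_lit 1) (nat_lit 0) (nat_lit 2) (@Lb.g g8 (@Lb.g g9 (@Lb.g g10 (@Lb.r r106 (@Lb.r r1572 (@Lb.r r1447 (@Lb.r r401 (@Lb.d (nat_lit 0) (nat_lit 85) (nat_lit 68) (@Lb.t (@Lb.fm (nat_lit 9) t390))))))))))))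
noncomputable def l19393 : Lb := (@Lb.d (nat_lit 618) (nat_lit 341) (nat_lit 538) (@Lb.r r1384 (@Lb.r r297 (@Lb.r r418 (@Lb.g g11 (@Lb.g g5 (@Lb.g g4 (@Lb.d (nat_lit 16) (nat_lit 18) (nat_lit 264) (@Lb.r r578 (@Lb.t (@Lb.fp (nat_lit 9) t495)))))))))))
noncomputable def l19394 : Lb := (@Lb.d (nat_lit 272) (nat_lit 161) (nat_lit 545) (@Lb.r r1092 (@Lb.r r330 (@Lb.r r2579 (@Lb.g g9 (@Lb.g g4 (@Lb.d (nat_lit 22) (nat_lit 66) (nat_lit 0) (@Lb.r r291 (@Lb.r r98 (@Lb.fm (nat_lit 3) t381))))))))))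
noncomputable def l19395 : Lb := (@Lb.d (nat_lit 9) (nat_lit 0) (nat_lit 130) (@Lb.g g8 (@Lb.g g10 (@Lb.g g11 (@Lb.r r602 (@Lb.r r1611 (@Lb.r r149 (@Lb.r r1636 (@Lb.d (nat_lit 261) (nat_lit 25) (nat_lit 258) (@Lb.t (@Lb.fp (nat_lit 9) t461)))))))))))
noncomputable def l19396 : Lb := (@Lb.d (nat_lit 2) (nat_lit 258) (nat_lit 130) (@Lb.g g8 (@Lb.g g9 (@Lb.g g10 (@Lb.g g11 (@Lb.r r1435 (@Lb.r r1432 (@Lb.r r106 (@Lb.r r97 (@Lb.d (nat_lit 617) (nat_lit 42) (nat_lit 402) (@Lb.fp (nat_lit 9) t171)))))))))))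
noncomputable def l19397 : Lb := (@Lb.d (nat_lit 6) (nat_lit 36) (nat_lit 128) (@Lb.g g4 (@Lb.g g9 (@Lb.g g10 (@Lb.g g11 (@Lb.r r387 (@Lb.r r386 (@Lb.r r1557 (@Lb.d (nat_lit 389) (nat_lit 106) (nat_lit 641) (@Lb.fp (nat_lit 9) t374))))))))))
noncomputable def l19398 : Lb := (@Lb.d (nat_lit 4) (nat_lit 0) (nat_lit 130) (@Lb.g g8 (@Lb.g g9 (@Lb.g g10 (@Lb.g g11 (@Lb.r r1443 (@Lb.r r40 (@Lb.r r425 (@Lb.r r98 (@Lb.r r2084 (@Lb.d (nat_lit 682) (nat_lit 80) (nat_lit 326) (@Lb.fp (nat_lit 9) t1149))))))))))))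
noncomputable def l19399 : Lb := (@Lb.d (nat_lit 70) (nat_lit 326) (nat_lit 64) (@Lb.r r260 (@Lb.r r97 (@Lb.r r363 (@Lb.g g10 (@Lb.g g5 (@Lb.g g4 (@Lb.d (nat_lit 82) (nat_lit 8) (nat_lit 17) (@Lb.r r387 (@Lb.t (@Lb.fp (nat_lit 9) t1149)))))))))))
noncomputable def l19400 : Lb := (@Lb.d (nat_lit 6) (nat_lit 34) (nat_lit 130) (@Lb.g g4 (@Lb.g g9 (@Lb.g g10 (@Lb.g g11 (@Lb.r r387 (@Lb.r r386 (@Lb.r r1557 (@Lb.d (nat_lit 388) (nat_lit 106) (nat_lit 584) (@Lb.fp (nat_lit 9) t1176))))))))))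
noncomputable def l19401 : Lb := (@Lb.r r331 (@Lb.d (nat_lit 166) (nat_lit 0) (nat_lit 2) (@Lb.g g8 (@Lb.g g9 (@Lb.g g10 (@Lb.r r1433 (@Lb.r r2343 (@Lb.r r1604 (@Lb.r r1098 (@Lb.d (nat_lit 342) (nat_lit 136) (nat_lit 136) (@Lb.t (@Lb.fm (nat_lit 9) t1039))))))))))))
noncomputable def l19402 : Lb := (@Lb.r r323 (@Lb.d (nat_lit 0) (nat_lit 289) (nat_lit 18) (@Lb.g g9 (@Lb.g g10 (@Lb.r r599 (@Lb.r r1317 (@Lb.r r8 (@Lb.d (nat_lit 256) (nat_lit 105) (nat_lit 417) (@Lb.fp (nat_lit 3) t646)))))))))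
noncomputable def l19403 : Lb := (@Lb.r r21 (@Lb.d (nat_lit 2) (nat_lit 0) (nat_lit 66) (@Lb.g g8 (@Lb.g g10 (@Lb.g g11 (@Lb.r r1319 (@Lb.r r1381 (@Lb.r r2202 (@Lb.r r2180 (@Lb.d (nat_lit 80) (nat_lit 2) (nat_lit 609) (@Lb.t (@Lb.fm (nat_lit 9) t284))))))))))))
noncomputable def l19404 : Lb := (@Lb.d (nat_lit 10) (nat_lit 512) (nat_lit 73) (@Lb.g g8 (@Lb.g g10 (@Lb.g g11 (@Lb.r r1685 (@Lb.r r2455 (@Lb.r r1620 (@Lb.r r1114 (@Lb.d (nat_lit 276) (nat_lit 21) (nat_lit 289) (@Lb.t (@Lb.fm (nat_lit 9) t2689)))))))))))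
noncomputable def l19405 : Lb := (@Lb.r r331 (@Lb.d (nat_lit 673) (nat_lit 258) (nat_lit 2) (@Lb.g g8 (@Lb.g g9 (@Lb.g g10 (@Lb.r r362 (@Lb.r r1411 (@Lb.r r25 (@Lb.d (nat_lit 2) (nat_lit 33) (nat_lit 618) (@Lb.t (@Lb.fm (nat_lit 9) t898)))))))))))
noncomputable def l19406 : Lb := (@Lb.d (nat_lit 517) (nat_lit 262) (nat_lit 129) (@Lb.r r24 (@Lb.r r97 (@Lb.r r1303 (@Lb.g g10 (@Lb.g g5 (@Lb.d (nat_lit 0) (nat_lit 1) (nat_lit 2) (@Lb.r r387 (@Lb.fp (nat_lit 3) t1884)))))))))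
noncomputable def l19407 : Lb := (@Lb.r r331 (@Lb.d (nat_lit 673) (nat_lit 514) (nat_lit 2) (@Lb.g g8 (@Lb.g g9 (@Lb.g g10 (@Lb.r r362 (@Lb.r r1411 (@Lb.r r25 (@Lb.d (nat_lit 9) (nat_lit 32) (nat_lit 618) (@Lb.t (@Lb.fm (nat_lit 9) t898)))))))))))
noncomputable def l19408 : Lb := (@Lb.d (nat_lit 2) (nat_lit 2) (nat_lit 73) (@Lb.g g8 (@Lb.g g9 (@Lb.g g10 (@Lb.g g11 (@Lb.r r2691 (@Lb.r r2089 (@Lb.r r392 (@Lb.r r1690 (@Lb.r r2180 (@Lb.d (nat_lit 645) (nat_lit 72) (nat_lit 549) (@Lb.fp (nat_lit 9) t3907))))))))))))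
noncomputable def l19409 : Lb := (@Lb.d (nat_lit 133) (nat_lit 256) (nat_lit 130) (@Lb.g g8 (@Lb.g g9 (@Lb.g g10 (@Lb.g g11 (@Lb.r r419 (@Lb.r r2154 (@Lb.r r100 (@Lb.r r405 (@Lb.r r2084 (@Lb.d (nat_lit 617) (nat_lit 21) (nat_lit 678) (@Lb.fp (nat_lit 9) t1039))))))))))))
noncomputable def l19410 : Lb := (@Lb.r r323 (@Lb.d (nat_lit 32) (nat_lit 264) (nat_lit 2) (@Lb.g g10 (@Lb.r r616 (@Lb.r r363 (@Lb.r r353 (@Lb.r r658 (@Lb.d (nat_lit 10) (nat_lit 73) (nat_lit 385) (@Lb.t (@Lb.fm (nat_lit 3) t210))))))))))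
noncomputable def l19411 : Lb := (@Lb.d (nat_lit 0) (nat_lit 514) (nat_lit 64) (@Lb.g g9 (@Lb.g g11 (@Lb.r r328 (@Lb.r r2471 (@Lb.r r405 (@Lb.r r86 (@Lb.r r1188 (@Lb.d (nat_lit 2) (nat_lit 66) (nat_lit 297) (@Lb.fp (nat_lit 3) t2))))))))))
noncomputable def l19412 : Lb := (@Lb.r r323 (@Lb.d (nat_lit 138) (nat_lit 0) (nat_lit 1) (@Lb.g g8 (@Lb.g g10 (@Lb.r r2394 (@Lb.r r661 (@Lb.r r1431 (@Lb.r r2632 (@Lb.d (nat_lit 361) (nat_lit 1) (nat_lit 258) (@Lb.fp (nat_lit 3) t71))))))))))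
noncomputable def l19413 : Lb := (@Lb.d (nat_lit 642) (nat_lit 2) (nat_lit 2) (@Lb.g g8 (@Lb.g g9 (@Lb.g g10 (@Lb.r r599 (@Lb.r r106 (@Lb.r r25 (@Lb.d (nat_lit 9) (nat_lit 9) (nat_lit 530) (@Lb.t (@Lb.fp (nat_lit 9) t790))))))))))
noncomputable def l19414 : Lb := (@Lb.r r323 (@Lb.d (nat_lit 137) (nat_lit 512) (nat_lit 2) (@Lb.g g8 (@Lb.g g10 (@Lb.r r346 (@Lb.r r661 (@Lb.r r1431 (@Lb.r r2632 (@Lb.d (nat_lit 361) (nat_lit 65) (nat_lit 258) (@Lb.fp (nat_lit 3) t71))))))))))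
noncomputable def l19415 : Lb := (@Lb.d (nat_lit 34) (nat_lit 521) (nat_lit 0) (@Lb.g g8 (@Lb.g g9 (@Lb.r r2379 (@Lb.r r582 (@Lb.r r2452 (@Lb.r r25 (@Lb.d (nat_lit 521) (nat_lit 153) (nat_lit 665) (@Lb.fm (nat_lit 3) t386)))))))))
noncomputable def l19416 : Lb := (@Lb.r r21 (@Lb.d (nat_lit 146) (nat_lit 0) (nat_lit 133) (@Lb.g g8 (@Lb.g g10 (@Lb.g g11 (@Lb.r r2465 (@Lb.r r2391 (@Lb.r r1370 (@Lb.r r1156 (@Lb.d (nat_lit 40) (nat_lit 37) (nat_lit 406) (@Lb.t (@Lb.fp (nat_lit 9) t1686))))))))))))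
noncomputable def l19417 : Lb := (@Lb.d (nat_lit 2) (nat_lit 0) (nat_lit 64) (@Lb.g g8 (@Lb.g g11 (@Lb.r r2450 (@Lb.r r2659 (@Lb.r r1633 (@Lb.r r24 (@Lb.d (nat_lit 5) (nat_lit 80) (nat_lit 64) (@Lb.fm (nat_lit 3) t3136)))))))))
noncomputable def l19418 : Lb := (@Lb.d (nat_lit 582) (nat_lit 160) (nat_lit 258) (@Lb.r r2645 (@Lb.r r1316 (@Lb.r r603 (@Lb.g g6 (@Lb.g g5 (@Lb.d (nat_lit 4) (nat_lit 17) (nat_lit 33) (@Lb.r r387 (@Lb.fp (nat_lit 3) t3019)))))))))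
noncomputable def l19419 : Lb := (@Lb.d (nat_lit 32) (nat_lit 265) (nat_lit 0) (@Lb.g g8 (@Lb.g g9 (@Lb.r r2379 (@Lb.r r582 (@Lb.r r2452 (@Lb.r r25 (@Lb.d (nat_lit 521) (nat_lit 153) (nat_lit 665) (@Lb.fm (nat_lit 3) t386)))))))))
noncomputable def l19420 : Lb := (@Lb.d (nat_lit 0) (nat_lit 512) (nat_lit 128) (@Lb.g g11 (@Lb.r r1346 (@Lb.r r387 (@Lb.r r24 (@Lb.r r101 (@Lb.d (nat_lit 0) (nat_lit 81) (nat_lit 4) (@Lb.t (@Lb.fp (nat_lit 3) t153)))))))))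
noncomputable def l19421 : Lb := (@Lb.d (nat_lit 517) (nat_lit 649) (nat_lit 64) (@Lb.r r1416 (@Lb.r r1433 (@Lb.r r2178 (@Lb.g g7 (@Lb.g g5 (@Lb.d (nat_lit 64) (nat_lit 1) (nat_lit 328) (@Lb.fm (nat_lit 3) t1173))))))))
noncomputable def l19422 : Lb := (@Lb.d (nat_lit 293) (nat_lit 1) (nat_lit 64) (@Lb.r r154 (@Lb.r r101 (@Lb.r r1304 (@Lb.g g7 (@Lb.g g6 (@Lb.d (nat_lit 64) (nat_lit 32) (nat_lit 576) (@Lb.fp (nat_lit 3) t472))))))))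
noncomputable def l19423 : Lb := (@Lb.r r323 (@Lb.d (nat_lit 8) (nat_lit 512) (nat_lit 1) (@Lb.g g9 (@Lb.g g6 (@Lb.r r2567 (@Lb.r r148 (@Lb.r r169 (@Lb.d (nat_lit 34) (nat_lit 133) (nat_lit 101) (@Lb.fp (nat_lit 3) t3908)))))))))
noncomputable def l19424 : Lb := (@Lb.d (nat_lit 0) (nat_lit 0) (nat_lit 2) (@Lb.g g10 (@Lb.g g7 (@Lb.r r1418 (@Lb.d (nat_lit 16) (nat_lit 0) (nat_lit 41) (@Lb.fm (nat_lit 3) t1858))))))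
noncomputable def l19425 : Lb := (@Lb.r r322 (@Lb.d (nat_lit 0) (nat_lit 529) (nat_lit 648) (@Lb.g g9 (@Lb.g g7 (@Lb.r r674 (@Lb.r r2137 (@Lb.r r24 (@Lb.d (nat_lit 545) (nat_lit 0) (nat_lit 148) (@Lb.fp (nat_lit 3) t378)))))))))
noncomputable def l19426 : Lb := (@Lb.g g8 (@Lb.r r20 (@Lb.d (nat_lit 0) (nat_lit 258) (nat_lit 0) (@Lb.t (@Lb.fp (nat_lit 3) t2)))))
noncomputable def l19427 : Lb := (@Lb.d (nat_lit 144) (nat_lit 258) (nat_lit 128) (@Lb.g g8 (@Lb.g g9 (@Lb.g g10 (@Lb.g g11 (@Lb.r r1706 (@Lb.r r1411 (@Lb.r r2201 (@Lb.r r2180 (@Lb.d (nat_lit 553) (nat_lit 153) (nat_lit 169) (@Lb.fm (nat_lit 9) t531)))))))))))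
noncomputable def l19428 : Lb := (@Lb.d (nat_lit 657) (nat_lit 512) (nat_lit 74) (@Lb.r r24 (@Lb.r r101 (@Lb.r r386 (@Lb.r r1603 (@Lb.g g7 (@Lb.g g6 (@Lb.d (nat_lit 0) (nat_lit 0) (nat_lit 129) (@Lb.fm (nat_lit 3) t1795)))))))))
noncomputable def l19429 : Lb := (@Lb.d (nat_lit 144) (nat_lit 514) (nat_lit 128) (@Lb.g g8 (@Lb.g g9 (@Lb.g g10 (@Lb.g g11 (@Lb.r r1706 (@Lb.r r1411 (@Lb.r r2201 (@Lb.r r2180 (@Lb.d (nat_lit 548) (nat_lit 89) (nat_lit 169) (@Lb.fm (nat_lit 9) t531)))))))))))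
noncomputable def l19430 : Lb := (@Lb.d (nat_lit 645) (nat_lit 518) (nat_lit 390) (@Lb.r r24 (@Lb.r r97 (@Lb.r r386 (@Lb.g g11 (@Lb.g g6 (@Lb.g g5 (@Lb.d (nat_lit 0) (nat_lit 1) (nat_lit 129) (@Lb.t (@Lb.fp (nat_lit 9) t1884))))))))))
noncomputable def l19431 : Lb := (@Lb.d (nat_lit 657) (nat_lit 0) (nat_lit 262) (@Lb.r r24 (@Lb.r r101 (@Lb.r r386 (@Lb.g g7 (@Lb.g g6 (@Lb.g g5 (@Lb.d (nat_lit 0) (nat_lit 0) (nat_lit 1) (@Lb.t (@Lb.fm (nat_lit 9) t478))))))))))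
noncomputable def l19432 : Lb := (@Lb.r r82 (@Lb.d (nat_lit 0) (nat_lit 514) (nat_lit 128) (@Lb.g g8 (@Lb.g g9 (@Lb.g g11 (@Lb.r r2659 (@Lb.r r386 (@Lb.r r1109 (@Lb.r r1124 (@Lb.d (nat_lit 617) (nat_lit 138) (nat_lit 576) (@Lb.t (@Lb.fm (nat_lit 9) t1821))))))))))))
noncomputable def l19433 : Lb := (@Lb.r r82 (@Lb.d (nat_lit 4) (nat_lit 610) (nat_lit 64) (@Lb.g g9 (@Lb.g g11 (@Lb.r r1700 (@Lb.r r1447 (@Lb.r r2438 (@Lb.d (nat_lit 0) (nat_lit 20) (nat_lit 534) (@Lb.fp (nat_lit 3) t1885)))))))))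
noncomputable def l19434 : Lb := (@Lb.r r21 (@Lb.d (nat_lit 144) (nat_lit 256) (nat_lit 128) (@Lb.g g8 (@Lb.g g10 (@Lb.g g11 (@Lb.r r1674 (@Lb.r r1411 (@Lb.r r2212 (@Lb.r r37 (@Lb.d (nat_lit 5) (nat_lit 20) (nat_lit 169) (@Lb.t (@Lb.fm (nat_lit 9) t531))))))))))))
noncomputable def l19435 : Lb := (@Lb.r r21 (@Lb.d (nat_lit 8) (nat_lit 0) (nat_lit 2) (@Lb.g g8 (@Lb.g g10 (@Lb.g g11 (@Lb.r r667 (@Lb.r r2405 (@Lb.r r1178 (@Lb.r r1156 (@Lb.d (nat_lit 340) (nat_lit 1) (nat_lit 337) (@Lb.t (@Lb.fp (nat_lit 9) t284))))))))))))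
noncomputable def l19436 : Lb := (@Lb.r r322 (@Lb.d (nat_lit 0) (nat_lit 272) (nat_lit 648) (@Lb.g g9 (@Lb.g g7 (@Lb.r r682 (@Lb.r r2133 (@Lb.r r24 (@Lb.d (nat_lit 258) (nat_lit 73) (nat_lit 148) (@Lb.fp (nat_lit 3) t377)))))))))
noncomputable def l19437 : Lb := (@Lb.r r322 (@Lb.d (nat_lit 0) (nat_lit 16) (nat_lit 648) (@Lb.g g9 (@Lb.g g7 (@Lb.r r682 (@Lb.r r2133 (@Lb.r r24 (@Lb.d (nat_lit 256) (nat_lit 73) (nat_lit 148) (@Lb.fp (nat_lit 3) t378)))))))))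
noncomputable def l19438 : Lb := (@Lb.r r322 (@Lb.d (nat_lit 0) (nat_lit 528) (nat_lit 648) (@Lb.g g9 (@Lb.g g7 (@Lb.r r682 (@Lb.r r2133 (@Lb.r r24 (@Lb.d (nat_lit 256) (nat_lit 66) (nat_lit 149) (@Lb.fp (nat_lit 3) t3321)))))))))
noncomputable def l19439 : Lb := (@Lb.d (nat_lit 1) (nat_lit 274) (nat_lit 10) (@Lb.r r579 (@Lb.r r338 (@Lb.g g7 (@Lb.g g6 (@Lb.g g5 (@Lb.d (nat_lit 4) (nat_lit 1) (nat_lit 5) (@Lb.t (@Lb.fm (nat_lit 9) t285)))))))))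
noncomputable def l19440 : Lb := (@Lb.g g7 (@Lb.d (nat_lit 0) (nat_lit 256) (nat_lit 128) (@Lb.t (@Lb.fm (nat_lit 3) t2))))
noncomputable def l19441 : Lb := (@Lb.d (nat_lit 0) (nat_lit 512) (nat_lit 6) (@Lb.r r323 (@Lb.g g7 (@Lb.g g6 (@Lb.fm (nat_lit 3) t2)))))
noncomputable def l19442 : Lb := (@Lb.d (nat_lit 128) (nat_lit 256) (nat_lit 384) (@Lb.g g11 (@Lb.d (nat_lit 65) (nat_lit 0) (nat_lit 512) (@Lb.t (@Lb.fp (nat_lit 3) t441)))))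
noncomputable def l19443 : Lb := (@Lb.d (nat_lit 513) (nat_lit 356) (nat_lit 417) (@Lb.r r1317 (@Lb.r r603 (@Lb.r r516 (@Lb.r r2150 (@Lb.g g7 (@Lb.d (nat_lit 64) (nat_lit 0) (nat_lit 64) (@Lb.t (@Lb.fm (nat_lit 3) t1040)))))))))
noncomputable def l19444 : Lb := (@Lb.d (nat_lit 64) (nat_lit 608) (nat_lit 128) (@Lb.r r101 (@Lb.r r2403 (@Lb.r r594 (@Lb.g g6 (@Lb.t (@Lb.fp (nat_lit 3) t2466)))))))
noncomputable def l19445 : Lb := (@Lb.r r584 (@Lb.r r86 (@Lb.r r289 (@Lb.r r132 (@Lb.d (nat_lit 0) (nat_lit 581) (nat_lit 288) (@Lb.fp (nat_lit 1) t3141))))))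
noncomputable def l19446 : Lb := (@Lb.d (nat_lit 32) (nat_lit 512) (nat_lit 2) (@Lb.g g6 (@Lb.g g7 (@Lb.r r644 (@Lb.r r166 (@Lb.r r289 (@Lb.d (nat_lit 149) (nat_lit 148) (nat_lit 393) (@Lb.fm (nat_lit 3) t1412))))))))
noncomputable def l19447 : Lb := (@Lb.d (nat_lit 518) (nat_lit 37) (nat_lit 390) (@Lb.r r68 (@Lb.r r154 (@Lb.r r136 (@Lb.r r297 (@Lb.g g11 (@Lb.g g6 (@Lb.g g5 (@Lb.g g4 (@Lb.d (nat_lit 1) (nat_lit 1) (nat_lit 129) (@Lb.fp (nat_lit 9) t2557)))))))))))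
noncomputable def l19448 : Lb := (@Lb.d (nat_lit 5) (nat_lit 258) (nat_lit 101) (@Lb.r r2449 (@Lb.r r1639 (@Lb.r r2308 (@Lb.g g7 (@Lb.g g10 (@Lb.g g5 (@Lb.d (nat_lit 36) (nat_lit 6) (nat_lit 80) (@Lb.t (@Lb.fp (nat_lit 9) t1639))))))))))
noncomputable def l19449 : Lb := (@Lb.d (nat_lit 4) (nat_lit 548) (nat_lit 74) (@Lb.g g8 (@Lb.g g9 (@Lb.g g10 (@Lb.g g11 (@Lb.r r683 (@Lb.r r362 (@Lb.r r1561 (@Lb.d (nat_lit 586) (nat_lit 137) (nat_lit 37) (@Lb.fm (nat_lit 9) t1370))))))))))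
noncomputable def l19450 : Lb := (@Lb.d (nat_lit 82) (nat_lit 66) (nat_lit 592) (@Lb.r r1284 (@Lb.r r1297 (@Lb.r r1315 (@Lb.r r405 (@Lb.g g7 (@Lb.g g10 (@Lb.g g5 (@Lb.g g4 (@Lb.d (nat_lit 1) (nat_lit 1) (nat_lit 145) (@Lb.fm (nat_lit 9) t1018)))))))))))
noncomputable def l19451 : Lb := (@Lb.r r81 (@Lb.r r323 (@Lb.d (nat_lit 2) (nat_lit 8) (nat_lit 18) (@Lb.g g8 (@Lb.g g6 (@Lb.r r2331 (@Lb.r r37 (@Lb.d (nat_lit 550) (nat_lit 133) (nat_lit 33) (@Lb.fm (nat_lit 3) t3693)))))))))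
noncomputable def l19452 : Lb := (@Lb.r r323 (@Lb.d (nat_lit 2) (nat_lit 2) (nat_lit 0) (@Lb.g g8 (@Lb.g g9 (@Lb.g g10 (@Lb.r r683 (@Lb.r r2210 (@Lb.r r145 (@Lb.d (nat_lit 518) (nat_lit 69) (nat_lit 70) (@Lb.t (@Lb.fm (nat_lit 9) t1020)))))))))))
noncomputable def l19453 : Lb := (@Lb.d (nat_lit 2) (nat_lit 256) (nat_lit 162) (@Lb.g g8 (@Lb.g g9 (@Lb.g g6 (@Lb.g g11 (@Lb.r r1643 (@Lb.r r1633 (@Lb.r r24 (@Lb.d (nat_lit 265) (nat_lit 153) (nat_lit 280) (@Lb.fp (nat_lit 9) t2031))))))))))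
noncomputable def l19454 : Lb := (@Lb.d (nat_lit 0) (nat_lit 0) (nat_lit 130) (@Lb.g g8 (@Lb.g g9 (@Lb.g g10 (@Lb.g g11 (@Lb.r r599 (@Lb.r r1702 (@Lb.r r1621 (@Lb.r r1444 (@Lb.d (nat_lit 34) (nat_lit 73) (nat_lit 17) (@Lb.fp (nat_lit 9) t3327)))))))))))
noncomputable def l19455 : Lb := (@Lb.d (nat_lit 2) (nat_lit 34) (nat_lit 2) (@Lb.g g8 (@Lb.g g9 (@Lb.g g10 (@Lb.r r1194 (@Lb.r r2468 (@Lb.r r1307 (@Lb.r r1573 (@Lb.d (nat_lit 389) (nat_lit 16) (nat_lit 650) (@Lb.t (@Lb.fm (nat_lit 9) t3757)))))))))))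
noncomputable def l19456 : Lb := (@Lb.d (nat_lit 0) (nat_lit 257) (nat_lit 74) (@Lb.g g9 (@Lb.g g10 (@Lb.g g11 (@Lb.r r611 (@Lb.r r1642 (@Lb.r r2660 (@Lb.r r2581 (@Lb.d (nat_lit 386) (nat_lit 80) (nat_lit 320) (@Lb.t (@Lb.fp (nat_lit 9) t2048)))))))))))
noncomputable def l19457 : Lb := (@Lb.d (nat_lit 361) (nat_lit 26) (nat_lit 129) (@Lb.r r1444 (@Lb.r r2411 (@Lb.r r345 (@Lb.r r614 (@Lb.g g6 (@Lb.g g4 (@Lb.d (nat_lit 64) (nat_lit 0) (nat_lit 2) (@Lb.fm (nat_lit 3) t3909)))))))))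
noncomputable def l19458 : Lb := (@Lb.d (nat_lit 4) (nat_lit 98) (nat_lit 340) (@Lb.r r24 (@Lb.r r1313 (@Lb.r r1442 (@Lb.r r2691 (@Lb.g g7 (@Lb.g g6 (@Lb.g g5 (@Lb.d (nat_lit 0) (nat_lit 8) (nat_lit 133) (@Lb.t (@Lb.fp (nat_lit 9) t925)))))))))))
noncomputable def l19459 : Lb := (@Lb.d (nat_lit 9) (nat_lit 38) (nat_lit 64) (@Lb.g g8 (@Lb.g g9 (@Lb.g g10 (@Lb.g g11 (@Lb.r r1451 (@Lb.r r578 (@Lb.r r1433 (@Lb.d (nat_lit 665) (nat_lit 4) (nat_lit 617) (@Lb.fp (nat_lit 9) t925))))))))))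
noncomputable def l19460 : Lb := (@Lb.d (nat_lit 361) (nat_lit 26) (nat_lit 513) (@Lb.r r1444 (@Lb.r r2411 (@Lb.r r345 (@Lb.r r614 (@Lb.g g6 (@Lb.g g4 (@Lb.d (nat_lit 69) (nat_lit 0) (nat_lit 2) (@Lb.fm (nat_lit 3) t3909)))))))))
noncomputable def l19461 : Lb := (@Lb.d (nat_lit 2) (nat_lit 292) (nat_lit 128) (@Lb.g g8 (@Lb.g g9 (@Lb.g g10 (@Lb.g g11 (@Lb.r r1287 (@Lb.r r1610 (@Lb.r r401 (@Lb.d (nat_lit 65) (nat_lit 24) (nat_lit 650) (@Lb.fp (nat_lit 9) t3910))))))))))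
noncomputable def l19462 : Lb := (@Lb.d (nat_lit 38) (nat_lit 1) (nat_lit 138) (@Lb.r r154 (@Lb.r r664 (@Lb.r r667 (@Lb.r r353 (@Lb.g g7 (@Lb.g g6 (@Lb.g g4 (@Lb.d (nat_lit 2) (nat_lit 0) (nat_lit 64) (@Lb.t (@Lb.fp (nat_lit 9) t51)))))))))))
noncomputable def l19463 : Lb := (@Lb.d (nat_lit 1) (nat_lit 548) (nat_lit 128) (@Lb.g g8 (@Lb.g g9 (@Lb.g g10 (@Lb.g g11 (@Lb.r r104 (@Lb.r r1350 (@Lb.r r2451 (@Lb.r r2597 (@Lb.r r2068 (@Lb.d (nat_lit 41) (nat_lit 132) (nat_lit 384) (@Lb.fp (nat_lit 9) t4))))))))))))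
noncomputable def l19464 : Lb := (@Lb.d (nat_lit 0) (nat_lit 258) (nat_lit 130) (@Lb.g g9 (@Lb.g g10 (@Lb.g g11 (@Lb.r r427 (@Lb.r r386 (@Lb.r r97 (@Lb.d (nat_lit 136) (nat_lit 26) (nat_lit 68) (@Lb.t (@Lb.fm (nat_lit 9) t714))))))))))
noncomputable def l19465 : Lb := (@Lb.d (nat_lit 0) (nat_lit 550) (nat_lit 70) (@Lb.r r322 (@Lb.r r659 (@Lb.g g7 (@Lb.g g6 (@Lb.g g9 (@Lb.g g4 (@Lb.d (nat_lit 1) (nat_lit 10) (nat_lit 64) (@Lb.fp (nat_lit 9) t1176)))))))))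
noncomputable def l19466 : Lb := (@Lb.d (nat_lit 0) (nat_lit 514) (nat_lit 73) (@Lb.g g9 (@Lb.g g10 (@Lb.g g11 (@Lb.r r2579 (@Lb.r r1442 (@Lb.r r97 (@Lb.r r24 (@Lb.d (nat_lit 10) (nat_lit 69) (nat_lit 105) (@Lb.t (@Lb.fm (nat_lit 9) t2926)))))))))))
noncomputable def l19467 : Lb := (@Lb.r r323 (@Lb.d (nat_lit 0) (nat_lit 8) (nat_lit 2) (@Lb.g g4 (@Lb.g g6 (@Lb.r r2465 (@Lb.r r1555 (@Lb.r r2690 (@Lb.d (nat_lit 1) (nat_lit 0) (nat_lit 681) (@Lb.fp (nat_lit 3) t246)))))))))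
noncomputable def l19468 : Lb := (@Lb.r r323 (@Lb.d (nat_lit 0) (nat_lit 256) (nat_lit 1) (@Lb.g g4 (@Lb.g g6 (@Lb.r r2439 (@Lb.d (nat_lit 257) (nat_lit 5) (nat_lit 64) (@Lb.fm (nat_lit 3) t2264)))))))
noncomputable def l19469 : Lb := (@Lb.d (nat_lit 38) (nat_lit 522) (nat_lit 72) (@Lb.g g8 (@Lb.g g9 (@Lb.g g10 (@Lb.g g11 (@Lb.r r1698 (@Lb.r r1415 (@Lb.r r2389 (@Lb.r r2660 (@Lb.d (nat_lit 132) (nat_lit 88) (nat_lit 409) (@Lb.fm (nat_lit 9) t3705)))))))))))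
noncomputable def l19470 : Lb := (@Lb.d (nat_lit 34) (nat_lit 257) (nat_lit 64) (@Lb.g g8 (@Lb.g g9 (@Lb.g g11 (@Lb.r r1363 (@Lb.r r582 (@Lb.r r2212 (@Lb.r r2581 (@Lb.d (nat_lit 136) (nat_lit 149) (nat_lit 330) (@Lb.t (@Lb.fm (nat_lit 9) t881)))))))))))
noncomputable def l19471 : Lb := (@Lb.d (nat_lit 2) (nat_lit 258) (nat_lit 10) (@Lb.g g8 (@Lb.g g9 (@Lb.g g10 (@Lb.g g11 (@Lb.r r2154 (@Lb.r r2408 (@Lb.r r2329 (@Lb.r r1447 (@Lb.d (nat_lit 661) (nat_lit 150) (nat_lit 536) (@Lb.fm (nat_lit 9) t2459)))))))))))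
noncomputable def l19472 : Lb := (@Lb.d (nat_lit 2) (nat_lit 256) (nat_lit 129) (@Lb.g g8 (@Lb.g g9 (@Lb.g g10 (@Lb.g g11 (@Lb.r r618 (@Lb.r r1643 (@Lb.r r1633 (@Lb.r r24 (@Lb.d (nat_lit 265) (nat_lit 146) (nat_lit 384) (@Lb.fm (nat_lit 9) t2259)))))))))))
noncomputable def l19473 : Lb := (@Lb.d (nat_lit 2) (nat_lit 256) (nat_lit 128) (@Lb.g g8 (@Lb.g g9 (@Lb.g g11 (@Lb.r r406 (@Lb.r r1643 (@Lb.r r1633 (@Lb.r r24 (@Lb.d (nat_lit 265) (nat_lit 153) (nat_lit 2) (@Lb.t (@Lb.fm (nat_lit 9) t1741)))))))))))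
noncomputable def l19474 : Lb := (@Lb.r r82 (@Lb.d (nat_lit 34) (nat_lit 514) (nat_lit 128) (@Lb.g g8 (@Lb.g g9 (@Lb.g g11 (@Lb.r r363 (@Lb.r r582 (@Lb.r r408 (@Lb.d (nat_lit 152) (nat_lit 86) (nat_lit 89) (@Lb.t (@Lb.fp (nat_lit 9) t3911)))))))))))
noncomputable def l19475 : Lb := (@Lb.d (nat_lit 2) (nat_lit 2) (nat_lit 130) (@Lb.g g8 (@Lb.g g9 (@Lb.g g10 (@Lb.g g11 (@Lb.r r427 (@Lb.r r388 (@Lb.r r70 (@Lb.r r153 (@Lb.r r132 (@Lb.d (nat_lit 4) (nat_lit 72) (nat_lit 89) (@Lb.fp (nat_lit 9) t3912))))))))))))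
noncomputable def l19476 : Lb := (@Lb.d (nat_lit 601) (nat_lit 678) (nat_lit 298) (@Lb.r r1428 (@Lb.r r89 (@Lb.r r1382 (@Lb.g g7 (@Lb.g g6 (@Lb.g g4 (@Lb.d (nat_lit 36) (nat_lit 32) (nat_lit 576) (@Lb.r r25 (@Lb.t (@Lb.fp (nat_lit 9) t1666)))))))))))
noncomputable def l19477 : Lb := (@Lb.g g10 (@Lb.g g7 (@Lb.r r394 (@Lb.r r2371 (@Lb.r r2626 (@Lb.d (nat_lit 514) (nat_lit 512) (nat_lit 0) (@Lb.fm (nat_lit 3) t441)))))))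
noncomputable def l19478 : Lb := (@Lb.d (nat_lit 0) (nat_lit 512) (nat_lit 10) (@Lb.g g6 (@Lb.r r1671 (@Lb.r r646 (@Lb.d (nat_lit 401) (nat_lit 0) (nat_lit 393) (@Lb.t (@Lb.fm (nat_lit 3) t441)))))))
noncomputable def l19479 : Lb := (@Lb.d (nat_lit 98) (nat_lit 545) (nat_lit 4) (@Lb.g g8 (@Lb.g g9 (@Lb.g g10 (@Lb.g g11 (@Lb.r r1707 (@Lb.r r1414 (@Lb.r r1641 (@Lb.r r584 (@Lb.d (nat_lit 106) (nat_lit 8) (nat_lit 170) (@Lb.fp (nat_lit 9) t3734)))))))))))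
noncomputable def l19480 : Lb := (@Lb.r r323 (@Lb.d (nat_lit 0) (nat_lit 2) (nat_lit 1) (@Lb.g g9 (@Lb.g g6 (@Lb.r r2567 (@Lb.r r104 (@Lb.r r25 (@Lb.d (nat_lit 22) (nat_lit 136) (nat_lit 101) (@Lb.fp (nat_lit 3) t3908)))))))))
noncomputable def l19481 : Lb := (@Lb.r r323 (@Lb.d (nat_lit 8) (nat_lit 2) (nat_lit 1) (@Lb.g g9 (@Lb.g g6 (@Lb.r r2567 (@Lb.r r2196 (@Lb.r r1193 (@Lb.d (nat_lit 546) (nat_lit 74) (nat_lit 86) (@Lb.fp (nat_lit 3) t3908)))))))))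
noncomputable def l19482 : Lb := (@Lb.r r263 (@Lb.d (nat_lit 130) (nat_lit 514) (nat_lit 34) (@Lb.g g8 (@Lb.g g9 (@Lb.g g6 (@Lb.r r1431 (@Lb.r r97 (@Lb.r r660 (@Lb.d (nat_lit 165) (nat_lit 32) (nat_lit 166) (@Lb.t (@Lb.fm (nat_lit 9) t3913)))))))))))
noncomputable def l19483 : Lb := (@Lb.r r70 (@Lb.r r263 (@Lb.d (nat_lit 5) (nat_lit 514) (nat_lit 0) (@Lb.g g8 (@Lb.g g9 (@Lb.r r2585 (@Lb.r r279 (@Lb.r r584 (@Lb.r r2182 (@Lb.d (nat_lit 2) (nat_lit 0) (nat_lit 596) (@Lb.fm (nat_lit 3) t123)))))))))))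
noncomputable def l19484 : Lb := (@Lb.d (nat_lit 276) (nat_lit 576) (nat_lit 17) (@Lb.r r1064 (@Lb.r r2201 (@Lb.r r323 (@Lb.g g10 (@Lb.g g5 (@Lb.g g4 (@Lb.d (nat_lit 10) (nat_lit 0) (nat_lit 2) (@Lb.r r387 (@Lb.t (@Lb.fp (nat_lit 9) t51)))))))))))
noncomputable def l19485 : Lb := (@Lb.d (nat_lit 136) (nat_lit 257) (nat_lit 256) (@Lb.g g9 (@Lb.g g7 (@Lb.r r2068 (@Lb.r r25 (@Lb.d (nat_lit 514) (nat_lit 146) (nat_lit 320) (@Lb.fp (nat_lit 3) t591)))))))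
noncomputable def l19486 : Lb := (@Lb.d (nat_lit 8) (nat_lit 2) (nat_lit 0) (@Lb.g g9 (@Lb.r r24 (@Lb.r r2069 (@Lb.d (nat_lit 5) (nat_lit 130) (nat_lit 0) (@Lb.t (@Lb.fm (nat_lit 3) t2)))))))
noncomputable def l19487 : Lb := (@Lb.d (nat_lit 2) (nat_lit 513) (nat_lit 128) (@Lb.g g8 (@Lb.g g9 (@Lb.g g11 (@Lb.r r88 (@Lb.r r661 (@Lb.r r279 (@Lb.r r2178 (@Lb.r r548 (@Lb.d (nat_lit 265) (nat_lit 134) (nat_lit 421) (@Lb.t (@Lb.fm (nat_lit 9) t1210))))))))))))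
noncomputable def l19488 : Lb := (@Lb.d (nat_lit 82) (nat_lit 641) (nat_lit 592) (@Lb.r r1284 (@Lb.r r1297 (@Lb.r r1315 (@Lb.r r405 (@Lb.g g7 (@Lb.g g10 (@Lb.g g5 (@Lb.g g4 (@Lb.d (nat_lit 1) (nat_lit 6) (nat_lit 146) (@Lb.fm (nat_lit 9) t1018)))))))))))
noncomputable def l19489 : Lb := (@Lb.d (nat_lit 534) (nat_lit 1) (nat_lit 17) (@Lb.r r20 (@Lb.r r2153 (@Lb.r r323 (@Lb.g g10 (@Lb.g g5 (@Lb.g g4 (@Lb.d (nat_lit 2) (nat_lit 6) (nat_lit 0) (@Lb.r r387 (@Lb.t (@Lb.fp (nat_lit 9) t51)))))))))))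
noncomputable def l19490 : Lb := (@Lb.d (nat_lit 265) (nat_lit 258) (nat_lit 0) (@Lb.r r24 (@Lb.r r2069 (@Lb.g g8 (@Lb.t (@Lb.fm (nat_lit 3) t2))))))
noncomputable def l19491 : Lb := (@Lb.r r323 (@Lb.d (nat_lit 9) (nat_lit 0) (nat_lit 1) (@Lb.g g8 (@Lb.g g6 (@Lb.r r387 (@Lb.d (nat_lit 0) (nat_lit 4) (nat_lit 64) (@Lb.fp (nat_lit 3) t45)))))))
noncomputable def l19492 : Lb := (@Lb.d (nat_lit 128) (nat_lit 514) (nat_lit 130) (@Lb.g g8 (@Lb.g g9 (@Lb.g g10 (@Lb.g g11 (@Lb.r r419 (@Lb.r r386 (@Lb.r r2405 (@Lb.r r536 (@Lb.d (nat_lit 678) (nat_lit 162) (nat_lit 292) (@Lb.fm (nat_lit 9) t2420)))))))))))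
noncomputable def l19493 : Lb := (@Lb.d (nat_lit 129) (nat_lit 258) (nat_lit 130) (@Lb.g g8 (@Lb.g g9 (@Lb.g g10 (@Lb.g g11 (@Lb.r r2666 (@Lb.r r612 (@Lb.r r1319 (@Lb.r r405 (@Lb.r r2084 (@Lb.d (nat_lit 617) (nat_lit 130) (nat_lit 170) (@Lb.fp (nat_lit 9) t2805))))))))))))
noncomputable def l19494 : Lb := (@Lb.r r323 (@Lb.d (nat_lit 0) (nat_lit 512) (nat_lit 1) (@Lb.g g4 (@Lb.g g6 (@Lb.r r2439 (@Lb.d (nat_lit 256) (nat_lit 5) (nat_lit 64) (@Lb.fm (nat_lit 3) t2264)))))))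
noncomputable def l19495 : Lb := (@Lb.r r21 (@Lb.d (nat_lit 129) (nat_lit 512) (nat_lit 130) (@Lb.g g8 (@Lb.g g10 (@Lb.g g11 (@Lb.r r651 (@Lb.r r357 (@Lb.r r154 (@Lb.r r132 (@Lb.d (nat_lit 89) (nat_lit 25) (nat_lit 134) (@Lb.t (@Lb.fp (nat_lit 9) t74))))))))))))
noncomputable def l19496 : Lb := (@Lb.d (nat_lit 152) (nat_lit 257) (nat_lit 128) (@Lb.g g8 (@Lb.g g9 (@Lb.g g10 (@Lb.g g11 (@Lb.r r2722 (@Lb.r r2439 (@Lb.r r145 (@Lb.r r2632 (@Lb.d (nat_lit 616) (nat_lit 137) (nat_lit 425) (@Lb.fp (nat_lit 9) t1666)))))))))))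
noncomputable def l19497 : Lb := (@Lb.r r21 (@Lb.d (nat_lit 145) (nat_lit 256) (nat_lit 128) (@Lb.g g8 (@Lb.g g10 (@Lb.g g11 (@Lb.r r2706 (@Lb.r r2455 (@Lb.r r97 (@Lb.r r2584 (@Lb.d (nat_lit 580) (nat_lit 97) (nat_lit 384) (@Lb.t (@Lb.fp (nat_lit 9) t1666))))))))))))
noncomputable def l19498 : Lb := (@Lb.r r20 (@Lb.d (nat_lit 8) (nat_lit 294) (nat_lit 64) (@Lb.g g5 (@Lb.g g10 (@Lb.g g11 (@Lb.r r1174 (@Lb.r r2632 (@Lb.r r2315 (@Lb.d (nat_lit 394) (nat_lit 0) (nat_lit 389) (@Lb.t (@Lb.fp (nat_lit 9) t74)))))))))))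
noncomputable def l19499 : Lb := (@Lb.r r21 (@Lb.r r70 (@Lb.d (nat_lit 2) (nat_lit 512) (nat_lit 0) (@Lb.g g8 (@Lb.r r1563 (@Lb.r r1317 (@Lb.r r88 (@Lb.r r2182 (@Lb.d (nat_lit 5) (nat_lit 133) (nat_lit 33) (@Lb.t (@Lb.fp (nat_lit 3) t428)))))))))))
noncomputable def l19500 : Lb := (@Lb.r r20 (@Lb.d (nat_lit 8) (nat_lit 38) (nat_lit 64) (@Lb.g g5 (@Lb.g g10 (@Lb.g g11 (@Lb.r r1174 (@Lb.r r2632 (@Lb.r r2315 (@Lb.d (nat_lit 384) (nat_lit 1) (nat_lit 389) (@Lb.t (@Lb.fp (nat_lit 9) t74)))))))))))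
noncomputable def l19501 : Lb := (@Lb.d (nat_lit 0) (nat_lit 258) (nat_lit 2) (@Lb.g g8 (@Lb.g g9 (@Lb.g g10 (@Lb.r r2666 (@Lb.r r579 (@Lb.r r25 (@Lb.d (nat_lit 9) (nat_lit 97) (nat_lit 586) (@Lb.t (@Lb.fp (nat_lit 9) t51))))))))))
noncomputable def l19502 : Lb := (@Lb.d (nat_lit 10) (nat_lit 512) (nat_lit 0) (@Lb.g g4 (@Lb.g g7 (@Lb.r r153 (@Lb.r r402 (@Lb.r r1608 (@Lb.d (nat_lit 401) (nat_lit 5) (nat_lit 661) (@Lb.fm (nat_lit 3) t311))))))))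
noncomputable def l19503 : Lb := (@Lb.d (nat_lit 390) (nat_lit 150) (nat_lit 546) (@Lb.r r2325 (@Lb.r r2390 (@Lb.r r683 (@Lb.g g7 (@Lb.g g6 (@Lb.g g5 (@Lb.g g4 (@Lb.d (nat_lit 2) (nat_lit 18) (nat_lit 65) (@Lb.fm (nat_lit 9) t1769))))))))))
noncomputable def l19504 : Lb := (@Lb.d (nat_lit 153) (nat_lit 260) (nat_lit 293) (@Lb.r r1608 (@Lb.r r97 (@Lb.r r1611 (@Lb.g g7 (@Lb.g g10 (@Lb.g g4 (@Lb.d (nat_lit 18) (nat_lit 0) (nat_lit 66) (@Lb.r r25 (@Lb.t (@Lb.fp (nat_lit 9) t3914)))))))))))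
noncomputable def l19505 : Lb := (@Lb.d (nat_lit 8) (nat_lit 2) (nat_lit 66) (@Lb.g g9 (@Lb.g g10 (@Lb.g g11 (@Lb.r r419 (@Lb.r r98 (@Lb.r r24 (@Lb.r r101 (@Lb.d (nat_lit 21) (nat_lit 137) (nat_lit 169) (@Lb.t (@Lb.fm (nat_lit 9) t232)))))))))))
noncomputable def l19506 : Lb := (@Lb.r r82 (@Lb.d (nat_lit 9) (nat_lit 290) (nat_lit 128) (@Lb.g g8 (@Lb.g g9 (@Lb.g g11 (@Lb.r r2664 (@Lb.r r614 (@Lb.r r1379 (@Lb.r r81 (@Lb.d (nat_lit 0) (nat_lit 84) (nat_lit 324) (@Lb.t (@Lb.fp (nat_lit 9) t68))))))))))))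
noncomputable def l19507 : Lb := (@Lb.d (nat_lit 32) (nat_lit 256) (nat_lit 2) (@Lb.r r24 (@Lb.r r85 (@Lb.r r98 (@Lb.g g11 (@Lb.g g6 (@Lb.g g5 (@Lb.d (nat_lit 0) (nat_lit 2) (nat_lit 1) (@Lb.t (@Lb.fp (nat_lit 9) t1219))))))))))
noncomputable def l19508 : Lb := (@Lb.d (nat_lit 0) (nat_lit 514) (nat_lit 66) (@Lb.g g9 (@Lb.g g10 (@Lb.g g7 (@Lb.r r424 (@Lb.r r106 (@Lb.r r25 (@Lb.d (nat_lit 106) (nat_lit 9) (nat_lit 8) (@Lb.t (@Lb.fm (nat_lit 9) t670))))))))))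
noncomputable def l19509 : Lb := (@Lb.r r323 (@Lb.d (nat_lit 9) (nat_lit 258) (nat_lit 1) (@Lb.g g8 (@Lb.g g9 (@Lb.g g6 (@Lb.r r1323 (@Lb.r r2145 (@Lb.r r24 (@Lb.d (nat_lit 266) (nat_lit 73) (nat_lit 98) (@Lb.t (@Lb.fp (nat_lit 9) t314)))))))))))
noncomputable def l19510 : Lb := (@Lb.d (nat_lit 528) (nat_lit 258) (nat_lit 38) (@Lb.r r2325 (@Lb.r r2390 (@Lb.r r1691 (@Lb.g g7 (@Lb.g g6 (@Lb.g g5 (@Lb.g g4 (@Lb.d (nat_lit 1) (nat_lit 18) (nat_lit 72) (@Lb.fm (nat_lit 9) t2420))))))))))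
noncomputable def l19511 : Lb := (@Lb.r r326 (@Lb.d (nat_lit 73) (nat_lit 289) (nat_lit 516) (@Lb.g g8 (@Lb.g g9 (@Lb.g g7 (@Lb.r r418 (@Lb.r r2193 (@Lb.r r104 (@Lb.d (nat_lit 38) (nat_lit 132) (nat_lit 81) (@Lb.t (@Lb.fp (nat_lit 9) t2408)))))))))))
noncomputable def l19512 : Lb := (@Lb.r r21 (@Lb.d (nat_lit 16) (nat_lit 4) (nat_lit 6) (@Lb.g g8 (@Lb.g g6 (@Lb.r r97 (@Lb.r r2584 (@Lb.d (nat_lit 330) (nat_lit 2) (nat_lit 1) (@Lb.fp (nat_lit 3) t720))))))))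
noncomputable def l19513 : Lb := (@Lb.r r277 (@Lb.r r326 (@Lb.d (nat_lit 513) (nat_lit 0) (nat_lit 516) (@Lb.g g4 (@Lb.g g7 (@Lb.r r402 (@Lb.r r1121 (@Lb.d (nat_lit 1) (nat_lit 9) (nat_lit 66) (@Lb.fm (nat_lit 3) t3915)))))))))
noncomputable def l19514 : Lb := (@Lb.d (nat_lit 257) (nat_lit 512) (nat_lit 90) (@Lb.r r24 (@Lb.r r101 (@Lb.g g11 (@Lb.t (@Lb.fp (nat_lit 3) t126))))))
noncomputable def l19515 : Lb := (@Lb.d (nat_lit 2) (nat_lit 258) (nat_lit 130) (@Lb.g g8 (@Lb.g g9 (@Lb.g g10 (@Lb.g g11 (@Lb.r r2666 (@Lb.r r579 (@Lb.r r25 (@Lb.d (nat_lit 4) (nat_lit 96) (nat_lit 586) (@Lb.fm (nat_lit 9) t51))))))))))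
noncomputable def l19516 : Lb := (@Lb.d (nat_lit 26) (nat_lit 162) (nat_lit 646) (@Lb.r r20 (@Lb.r r105 (@Lb.r r386 (@Lb.g g11 (@Lb.g g6 (@Lb.g g5 (@Lb.g g4 (@Lb.d (nat_lit 2) (nat_lit 0) (nat_lit 129) (@Lb.fm (nat_lit 9) t842))))))))))
noncomputable def l19517 : Lb := (@Lb.d (nat_lit 2) (nat_lit 36) (nat_lit 64) (@Lb.g g8 (@Lb.g g9 (@Lb.g g10 (@Lb.g g11 (@Lb.r r387 (@Lb.r r1177 (@Lb.r r2458 (@Lb.r r24 (@Lb.d (nat_lit 600) (nat_lit 2) (nat_lit 169) (@Lb.fp (nat_lit 9) t2504)))))))))))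
noncomputable def l19518 : Lb := (@Lb.d (nat_lit 2) (nat_lit 548) (nat_lit 64) (@Lb.g g8 (@Lb.g g9 (@Lb.g g10 (@Lb.g g11 (@Lb.r r387 (@Lb.r r1177 (@Lb.r r2458 (@Lb.r r24 (@Lb.d (nat_lit 593) (nat_lit 0) (nat_lit 169) (@Lb.fp (nat_lit 9) t2504)))))))))))
noncomputable def l19519 : Lb := (@Lb.r r82 (@Lb.d (nat_lit 8) (nat_lit 610) (nat_lit 64) (@Lb.g g9 (@Lb.g g11 (@Lb.r r1447 (@Lb.r r386 (@Lb.r r24 (@Lb.d (nat_lit 82) (nat_lit 2) (nat_lit 514) (@Lb.fm (nat_lit 3) t143)))))))))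
noncomputable def l19520 : Lb := (@Lb.d (nat_lit 2) (nat_lit 514) (nat_lit 10) (@Lb.g g8 (@Lb.g g9 (@Lb.g g10 (@Lb.r r1623 (@Lb.r r2193 (@Lb.r r340 (@Lb.r r602 (@Lb.d (nat_lit 664) (nat_lit 66) (nat_lit 354) (@Lb.t (@Lb.fp (nat_lit 9) t3509)))))))))))
noncomputable def l19521 : Lb := (@Lb.d (nat_lit 9) (nat_lit 2) (nat_lit 0) (@Lb.g g8 (@Lb.g g9 (@Lb.r r1561 (@Lb.r r2584 (@Lb.d (nat_lit 388) (nat_lit 34) (nat_lit 384) (@Lb.fp (nat_lit 3) t121)))))))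
noncomputable def l19522 : Lb := (@Lb.d (nat_lit 21) (nat_lit 257) (nat_lit 1) (@Lb.r r20 (@Lb.r r105 (@Lb.r r323 (@Lb.g g10 (@Lb.g g5 (@Lb.g g4 (@Lb.d (nat_lit 2) (nat_lit 0) (nat_lit 2) (@Lb.r r387 (@Lb.t (@Lb.fp (nat_lit 9) t51)))))))))))
noncomputable def l19523 : Lb := (@Lb.d (nat_lit 1) (nat_lit 2) (nat_lit 130) (@Lb.g g8 (@Lb.g g9 (@Lb.g g10 (@Lb.g g11 (@Lb.r r427 (@Lb.r r420 (@Lb.r r102 (@Lb.r r97 (@Lb.r r36 (@Lb.d (nat_lit 9) (nat_lit 137) (nat_lit 73) (@Lb.fm (nat_lit 9) t119))))))))))))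
noncomputable def l19524 : Lb := (@Lb.d (nat_lit 1) (nat_lit 514) (nat_lit 130) (@Lb.g g8 (@Lb.g g9 (@Lb.g g10 (@Lb.g g11 (@Lb.r r427 (@Lb.r r420 (@Lb.r r102 (@Lb.r r97 (@Lb.r r36 (@Lb.d (nat_lit 9) (nat_lit 130) (nat_lit 74) (@Lb.fm (nat_lit 9) t119))))))))))))
noncomputable def l19525 : Lb := (@Lb.d (nat_lit 1) (nat_lit 278) (nat_lit 64) (@Lb.r r260 (@Lb.r r97 (@Lb.r r267 (@Lb.r r404 (@Lb.g g7 (@Lb.g g10 (@Lb.g g5 (@Lb.g g4 (@Lb.d (nat_lit 18) (nat_lit 8) (nat_lit 129) (@Lb.fp (nat_lit 9) t983)))))))))))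
noncomputable def l19526 : Lb := (@Lb.d (nat_lit 21) (nat_lit 602) (nat_lit 353) (@Lb.r r20 (@Lb.r r105 (@Lb.r r1642 (@Lb.r r1451 (@Lb.g g7 (@Lb.g g6 (@Lb.g g4 (@Lb.d (nat_lit 2) (nat_lit 0) (nat_lit 8) (@Lb.t (@Lb.fm (nat_lit 9) t3798)))))))))))
noncomputable def l19527 : Lb := (@Lb.r r24 (@Lb.r r1045 (@Lb.r r36 (@Lb.d (nat_lit 0) (nat_lit 66) (nat_lit 0) (@Lb.fm (nat_lit 1) t2)))))
noncomputable def l19528 : Lb := (@Lb.r r21 (@Lb.r r323 (@Lb.d (nat_lit 130) (nat_lit 520) (nat_lit 2) (@Lb.g g8 (@Lb.g g10 (@Lb.r r615 (@Lb.r r533 (@Lb.r r292 (@Lb.d (nat_lit 66) (nat_lit 42) (nat_lit 22) (@Lb.fp (nat_lit 3) t221))))))))))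
noncomputable def l19529 : Lb := (@Lb.d (nat_lit 0) (nat_lit 512) (nat_lit 136) (@Lb.g g11 (@Lb.r r402 (@Lb.r r1379 (@Lb.r r101 (@Lb.r r24 (@Lb.d (nat_lit 612) (nat_lit 64) (nat_lit 416) (@Lb.t (@Lb.fm (nat_lit 3) t2074)))))))))
noncomputable def l19530 : Lb := (@Lb.r r322 (@Lb.d (nat_lit 0) (nat_lit 33) (nat_lit 516) (@Lb.g g8 (@Lb.g g9 (@Lb.g g7 (@Lb.r r418 (@Lb.r r1169 (@Lb.r r1096 (@Lb.d (nat_lit 546) (nat_lit 9) (nat_lit 65) (@Lb.t (@Lb.fp (nat_lit 9) t1205)))))))))))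
noncomputable def l19531 : Lb := (@Lb.r r323 (@Lb.d (nat_lit 16) (nat_lit 521) (nat_lit 36) (@Lb.g g9 (@Lb.g g6 (@Lb.r r1635 (@Lb.r r1553 (@Lb.d (nat_lit 585) (nat_lit 161) (nat_lit 641) (@Lb.fm (nat_lit 3) t50))))))))
noncomputable def l19532 : Lb := (@Lb.r r323 (@Lb.d (nat_lit 16) (nat_lit 10) (nat_lit 36) (@Lb.g g9 (@Lb.g g6 (@Lb.r r2659 (@Lb.r r2577 (@Lb.d (nat_lit 584) (nat_lit 33) (nat_lit 385) (@Lb.fm (nat_lit 3) t50))))))))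
noncomputable def l19533 : Lb := (@Lb.r r323 (@Lb.d (nat_lit 16) (nat_lit 265) (nat_lit 36) (@Lb.g g9 (@Lb.g g6 (@Lb.r r2667 (@Lb.r r2585 (@Lb.d (nat_lit 133) (nat_lit 33) (nat_lit 385) (@Lb.fm (nat_lit 3) t50))))))))
noncomputable def l19534 : Lb := (@Lb.d (nat_lit 276) (nat_lit 153) (nat_lit 421) (@Lb.r r21 (@Lb.r r579 (@Lb.r r1366 (@Lb.g g7 (@Lb.g g6 (@Lb.g g5 (@Lb.g g4 (@Lb.d (nat_lit 1) (nat_lit 1) (nat_lit 134) (@Lb.fm (nat_lit 9) t3916))))))))))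
noncomputable def l19535 : Lb := (@Lb.d (nat_lit 357) (nat_lit 166) (nat_lit 512) (@Lb.r r1370 (@Lb.r r1112 (@Lb.r r149 (@Lb.r r403 (@Lb.g g6 (@Lb.d (nat_lit 16) (nat_lit 4) (nat_lit 2) (@Lb.r r387 (@Lb.t (@Lb.fp (nat_lit 3) t1288))))))))))
noncomputable def l19536 : Lb := (@Lb.r r82 (@Lb.d (nat_lit 0) (nat_lit 290) (nat_lit 64) (@Lb.g g4 (@Lb.g g9 (@Lb.g g11 (@Lb.r r2467 (@Lb.r r386 (@Lb.d (nat_lit 0) (nat_lit 85) (nat_lit 290) (@Lb.t (@Lb.fm (nat_lit 9) t2307))))))))))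
noncomputable def l19537 : Lb := (@Lb.r r82 (@Lb.d (nat_lit 1) (nat_lit 546) (nat_lit 64) (@Lb.g g4 (@Lb.g g9 (@Lb.g g11 (@Lb.r r2467 (@Lb.r r386 (@Lb.d (nat_lit 1) (nat_lit 85) (nat_lit 290) (@Lb.t (@Lb.fm (nat_lit 9) t2307))))))))))
noncomputable def l19538 : Lb := (@Lb.d (nat_lit 0) (nat_lit 266) (nat_lit 0) (@Lb.g g5 (@Lb.g g7 (@Lb.r r1186 (@Lb.r r2209 (@Lb.d (nat_lit 0) (nat_lit 21) (nat_lit 577) (@Lb.fm (nat_lit 3) t300)))))))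
noncomputable def l19539 : Lb := (@Lb.d (nat_lit 2) (nat_lit 514) (nat_lit 130) (@Lb.g g8 (@Lb.g g9 (@Lb.g g10 (@Lb.g g11 (@Lb.r r1602 (@Lb.r r2089 (@Lb.r r616 (@Lb.r r1611 (@Lb.r r516 (@Lb.d (nat_lit 545) (nat_lit 98) (nat_lit 594) (@Lb.fm (nat_lit 9) t246))))))))))))
noncomputable def l19540 : Lb := (@Lb.d (nat_lit 0) (nat_lit 258) (nat_lit 130) (@Lb.g g8 (@Lb.g g9 (@Lb.g g10 (@Lb.g g11 (@Lb.r r1443 (@Lb.r r2089 (@Lb.r r616 (@Lb.r r2118 (@Lb.r r1156 (@Lb.d (nat_lit 545) (nat_lit 90) (nat_lit 340) (@Lb.fp (nat_lit 9) t596))))))))))))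
noncomputable def l19541 : Lb := (@Lb.d (nat_lit 34) (nat_lit 514) (nat_lit 64) (@Lb.g g8 (@Lb.g g9 (@Lb.g g11 (@Lb.r r2438 (@Lb.r r2375 (@Lb.r r97 (@Lb.r r2596 (@Lb.d (nat_lit 166) (nat_lit 89) (nat_lit 260) (@Lb.t (@Lb.fm (nat_lit 9) t2734)))))))))))
noncomputable def l19542 : Lb := (@Lb.d (nat_lit 2) (nat_lit 520) (nat_lit 130) (@Lb.g g8 (@Lb.g g10 (@Lb.g g11 (@Lb.r r387 (@Lb.r r101 (@Lb.r r402 (@Lb.d (nat_lit 9) (nat_lit 20) (nat_lit 153) (@Lb.t (@Lb.fm (nat_lit 9) t221))))))))))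
noncomputable def l19543 : Lb := (@Lb.d (nat_lit 16) (nat_lit 514) (nat_lit 128) (@Lb.g g8 (@Lb.g g9 (@Lb.g g10 (@Lb.g g11 (@Lb.r r1667 (@Lb.r r1681 (@Lb.r r612 (@Lb.r r1690 (@Lb.r r132 (@Lb.d (nat_lit 70) (nat_lit 97) (nat_lit 672) (@Lb.fp (nat_lit 9) t3917))))))))))))
noncomputable def l19544 : Lb := (@Lb.d (nat_lit 2) (nat_lit 258) (nat_lit 66) (@Lb.g g8 (@Lb.g g9 (@Lb.g g10 (@Lb.g g11 (@Lb.r r1419 (@Lb.r r386 (@Lb.r r97 (@Lb.r r24 (@Lb.d (nat_lit 342) (nat_lit 33) (nat_lit 362) (@Lb.fm (nat_lit 9) t2734)))))))))))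
noncomputable def l19545 : Lb := (@Lb.d (nat_lit 2) (nat_lit 512) (nat_lit 130) (@Lb.g g8 (@Lb.g g9 (@Lb.g g10 (@Lb.g g11 (@Lb.r r1451 (@Lb.r r409 (@Lb.r r2138 (@Lb.r r1169 (@Lb.d (nat_lit 516) (nat_lit 1) (nat_lit 16) (@Lb.fp (nat_lit 9) t221)))))))))))
noncomputable def l19546 : Lb := (@Lb.r r323 (@Lb.d (nat_lit 2) (nat_lit 544) (nat_lit 2) (@Lb.g g8 (@Lb.g g9 (@Lb.g g10 (@Lb.r r2647 (@Lb.r r74 (@Lb.r r1313 (@Lb.d (nat_lit 277) (nat_lit 160) (nat_lit 6) (@Lb.t (@Lb.fm (nat_lit 9) t221)))))))))))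
noncomputable def l19547 : Lb := (@Lb.d (nat_lit 8) (nat_lit 0) (nat_lit 73) (@Lb.g g9 (@Lb.g g10 (@Lb.g g11 (@Lb.r r579 (@Lb.r r1690 (@Lb.r r148 (@Lb.r r1113 (@Lb.d (nat_lit 136) (nat_lit 70) (nat_lit 272) (@Lb.t (@Lb.fm (nat_lit 9) t627)))))))))))
noncomputable def l19548 : Lb := (@Lb.d (nat_lit 33) (nat_lit 258) (nat_lit 64) (@Lb.g g8 (@Lb.g g9 (@Lb.g g11 (@Lb.r r2438 (@Lb.r r2375 (@Lb.r r97 (@Lb.r r2596 (@Lb.d (nat_lit 161) (nat_lit 88) (nat_lit 260) (@Lb.t (@Lb.fm (nat_lit 9) t2734)))))))))))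
noncomputable def l19549 : Lb := (@Lb.d (nat_lit 0) (nat_lit 9) (nat_lit 72) (@Lb.g g9 (@Lb.g g11 (@Lb.r r2370 (@Lb.r r1687 (@Lb.r r2329 (@Lb.d (nat_lit 585) (nat_lit 146) (nat_lit 546) (@Lb.fp (nat_lit 3) t322))))))))
noncomputable def l19550 : Lb := (@Lb.d (nat_lit 40) (nat_lit 1) (nat_lit 73) (@Lb.g g8 (@Lb.g g9 (@Lb.g g10 (@Lb.g g11 (@Lb.r r1706 (@Lb.r r664 (@Lb.r r555 (@Lb.r r2577 (@Lb.r r1060 (@Lb.d (nat_lit 385) (nat_lit 36) (nat_lit 166) (@Lb.fm (nat_lit 9) t1161))))))))))))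
noncomputable def l19551 : Lb := (@Lb.d (nat_lit 40) (nat_lit 257) (nat_lit 130) (@Lb.g g8 (@Lb.g g9 (@Lb.g g10 (@Lb.g g11 (@Lb.r r1706 (@Lb.r r664 (@Lb.r r555 (@Lb.r r2577 (@Lb.r r1060 (@Lb.d (nat_lit 386) (nat_lit 36) (nat_lit 166) (@Lb.fm (nat_lit 9) t1161))))))))))))
noncomputable def l19552 : Lb := (@Lb.r r70 (@Lb.d (nat_lit 34) (nat_lit 138) (nat_lit 128) (@Lb.g g8 (@Lb.g g9 (@Lb.g g11 (@Lb.r r1611 (@Lb.r r2454 (@Lb.r r584 (@Lb.d (nat_lit 85) (nat_lit 64) (nat_lit 169) (@Lb.t (@Lb.fp (nat_lit 9) t109)))))))))))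
noncomputable def l19553 : Lb := (@Lb.d (nat_lit 2) (nat_lit 33) (nat_lit 66) (@Lb.g g8 (@Lb.g g9 (@Lb.g g10 (@Lb.g g11 (@Lb.r r1706 (@Lb.r r676 (@Lb.r r551 (@Lb.r r533 (@Lb.r r1060 (@Lb.d (nat_lit 393) (nat_lit 1) (nat_lit 586) (@Lb.fp (nat_lit 9) t74))))))))))))
noncomputable def l19554 : Lb := (@Lb.r r82 (@Lb.d (nat_lit 0) (nat_lit 528) (nat_lit 132) (@Lb.g g9 (@Lb.g g7 (@Lb.r r386 (@Lb.r r97 (@Lb.d (nat_lit 5) (nat_lit 10) (nat_lit 66) (@Lb.fp (nat_lit 3) t607))))))))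
noncomputable def l19555 : Lb := (@Lb.d (nat_lit 288) (nat_lit 512) (nat_lit 64) (@Lb.r r154 (@Lb.r r101 (@Lb.r r1304 (@Lb.g g7 (@Lb.d (nat_lit 64) (nat_lit 32) (nat_lit 576) (@Lb.t (@Lb.fp (nat_lit 3) t472))))))))
noncomputable def l19556 : Lb := (@Lb.d (nat_lit 33) (nat_lit 4) (nat_lit 128) (@Lb.g g8 (@Lb.g g9 (@Lb.g g10 (@Lb.g g11 (@Lb.r r1707 (@Lb.r r1386 (@Lb.r r1561 (@Lb.r r1540 (@Lb.d (nat_lit 393) (nat_lit 25) (nat_lit 74) (@Lb.fm (nat_lit 9) t3918)))))))))))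
noncomputable def l19557 : Lb := (@Lb.r r21 (@Lb.r r323 (@Lb.d (nat_lit 130) (nat_lit 0) (nat_lit 2) (@Lb.g g8 (@Lb.g g10 (@Lb.r r346 (@Lb.r r661 (@Lb.r r535 (@Lb.r r264 (@Lb.d (nat_lit 137) (nat_lit 70) (nat_lit 328) (@Lb.fm (nat_lit 3) t51)))))))))))
noncomputable def l19558 : Lb := (@Lb.d (nat_lit 2) (nat_lit 257) (nat_lit 0) (@Lb.g g8 (@Lb.g g9 (@Lb.r r322 (@Lb.r r1667 (@Lb.r r578 (@Lb.r r1049 (@Lb.d (nat_lit 521) (nat_lit 18) (nat_lit 266) (@Lb.fp (nat_lit 3) t210)))))))))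
noncomputable def l19559 : Lb := (@Lb.d (nat_lit 4) (nat_lit 290) (nat_lit 132) (@Lb.g g8 (@Lb.g g9 (@Lb.g g10 (@Lb.g g11 (@Lb.r r1706 (@Lb.r r676 (@Lb.r r359 (@Lb.r r341 (@Lb.r r1060 (@Lb.d (nat_lit 344) (nat_lit 1) (nat_lit 406) (@Lb.fm (nat_lit 9) t68))))))))))))
noncomputable def l19560 : Lb := (@Lb.d (nat_lit 2) (nat_lit 265) (nat_lit 8) (@Lb.g g8 (@Lb.g g9 (@Lb.g g10 (@Lb.g g7 (@Lb.r r1666 (@Lb.r r2657 (@Lb.r r24 (@Lb.d (nat_lit 10) (nat_lit 89) (nat_lit 337) (@Lb.fp (nat_lit 9) t647))))))))))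
noncomputable def l19561 : Lb := (@Lb.d (nat_lit 2) (nat_lit 2) (nat_lit 130) (@Lb.g g8 (@Lb.g g9 (@Lb.g g10 (@Lb.g g11 (@Lb.r r427 (@Lb.r r424 (@Lb.r r106 (@Lb.r r25 (@Lb.d (nat_lit 586) (nat_lit 4) (nat_lit 680) (@Lb.fm (nat_lit 9) t2258)))))))))))
noncomputable def l19562 : Lb := (@Lb.d (nat_lit 390) (nat_lit 662) (nat_lit 546) (@Lb.r r2325 (@Lb.r r2390 (@Lb.r r683 (@Lb.g g7 (@Lb.g g6 (@Lb.g g5 (@Lb.g g4 (@Lb.d (nat_lit 1) (nat_lit 25) (nat_lit 64) (@Lb.fm (nat_lit 9) t309))))))))))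
noncomputable def l19563 : Lb := (@Lb.d (nat_lit 288) (nat_lit 512) (nat_lit 64) (@Lb.r r1416 (@Lb.r r2329 (@Lb.r r2178 (@Lb.g g7 (@Lb.d (nat_lit 64) (nat_lit 0) (nat_lit 328) (@Lb.t (@Lb.fm (nat_lit 3) t1173))))))))
noncomputable def l19564 : Lb := (@Lb.d (nat_lit 165) (nat_lit 341) (nat_lit 577) (@Lb.r r2584 (@Lb.r r2178 (@Lb.r r2587 (@Lb.g g7 (@Lb.g g9 (@Lb.g g4 (@Lb.d (nat_lit 1) (nat_lit 70) (nat_lit 64) (@Lb.t (@Lb.fp (nat_lit 9) t1063))))))))))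
noncomputable def l19565 : Lb := (@Lb.d (nat_lit 0) (nat_lit 0) (nat_lit 129) (@Lb.g g10 (@Lb.g g11 (@Lb.r r2690 (@Lb.r r387 (@Lb.d (nat_lit 608) (nat_lit 0) (nat_lit 162) (@Lb.fp (nat_lit 3) t698)))))))
noncomputable def l19566 : Lb := (@Lb.d (nat_lit 0) (nat_lit 256) (nat_lit 136) (@Lb.g g11 (@Lb.r r402 (@Lb.r r1379 (@Lb.d (nat_lit 0) (nat_lit 106) (nat_lit 406) (@Lb.t (@Lb.fm (nat_lit 3) t334)))))))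
noncomputable def l19567 : Lb := (@Lb.r r331 (@Lb.d (nat_lit 38) (nat_lit 256) (nat_lit 4) (@Lb.g g8 (@Lb.g g9 (@Lb.g g6 (@Lb.r r2659 (@Lb.r r97 (@Lb.r r264 (@Lb.d (nat_lit 130) (nat_lit 41) (nat_lit 325) (@Lb.t (@Lb.fm (nat_lit 9) t3919)))))))))))
noncomputable def l19568 : Lb := (@Lb.d (nat_lit 1) (nat_lit 85) (nat_lit 409) (@Lb.r r1433 (@Lb.r r1430 (@Lb.g g7 (@Lb.g g5 (@Lb.g g4 (@Lb.d (nat_lit 1) (nat_lit 18) (nat_lit 68) (@Lb.r r98 (@Lb.t (@Lb.fm (nat_lit 9) t3919))))))))))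
noncomputable def l19569 : Lb := (@Lb.d (nat_lit 128) (nat_lit 512) (nat_lit 130) (@Lb.g g10 (@Lb.g g11 (@Lb.r r264 (@Lb.r r519 (@Lb.r r618 (@Lb.r r609 (@Lb.d (nat_lit 266) (nat_lit 65) (nat_lit 384) (@Lb.fp (nat_lit 3) t3920)))))))))
noncomputable def l19570 : Lb := (@Lb.r r21 (@Lb.d (nat_lit 146) (nat_lit 512) (nat_lit 74) (@Lb.g g8 (@Lb.g g10 (@Lb.g g11 (@Lb.r r583 (@Lb.r r1674 (@Lb.r r1625 (@Lb.r r1604 (@Lb.d (nat_lit 514) (nat_lit 0) (nat_lit 98) (@Lb.t (@Lb.fm (nat_lit 9) t1071))))))))))))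
noncomputable def l19571 : Lb := (@Lb.r r327 (@Lb.d (nat_lit 0) (nat_lit 258) (nat_lit 0) (@Lb.g g8 (@Lb.g g9 (@Lb.g g10 (@Lb.r r683 (@Lb.r r1194 (@Lb.r r2201 (@Lb.r r2180 (@Lb.d (nat_lit 553) (nat_lit 65) (nat_lit 34) (@Lb.t (@Lb.fm (nat_lit 9) t2228))))))))))))
noncomputable def l19572 : Lb := (@Lb.d (nat_lit 0) (nat_lit 258) (nat_lit 130) (@Lb.g g8 (@Lb.g g9 (@Lb.g g10 (@Lb.g g11 (@Lb.r r610 (@Lb.r r2667 (@Lb.r r97 (@Lb.r r2584 (@Lb.d (nat_lit 581) (nat_lit 32) (nat_lit 386) (@Lb.fm (nat_lit 9) t3921)))))))))))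
noncomputable def l19573 : Lb := (@Lb.d (nat_lit 128) (nat_lit 512) (nat_lit 130) (@Lb.g g9 (@Lb.g g10 (@Lb.g g11 (@Lb.r r264 (@Lb.r r519 (@Lb.r r618 (@Lb.r r609 (@Lb.d (nat_lit 266) (nat_lit 65) (nat_lit 256) (@Lb.t (@Lb.fp (nat_lit 9) t3920)))))))))))
noncomputable def l19574 : Lb := (@Lb.d (nat_lit 32) (nat_lit 256) (nat_lit 74) (@Lb.g g10 (@Lb.g g11 (@Lb.r r2711 (@Lb.r r1384 (@Lb.r r2406 (@Lb.r r1425 (@Lb.d (nat_lit 296) (nat_lit 66) (nat_lit 0) (@Lb.fm (nat_lit 3) t433)))))))))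
noncomputable def l19575 : Lb := (@Lb.d (nat_lit 152) (nat_lit 257) (nat_lit 74) (@Lb.g g8 (@Lb.g g9 (@Lb.g g10 (@Lb.g g11 (@Lb.r r423 (@Lb.r r1681 (@Lb.r r1432 (@Lb.r r2202 (@Lb.d (nat_lit 170) (nat_lit 69) (nat_lit 81) (@Lb.fp (nat_lit 9) t2593)))))))))))
noncomputable def l19576 : Lb := (@Lb.d (nat_lit 2) (nat_lit 2) (nat_lit 130) (@Lb.g g8 (@Lb.g g9 (@Lb.g g10 (@Lb.g g11 (@Lb.r r2439 (@Lb.r r1604 (@Lb.r r106 (@Lb.r r97 (@Lb.d (nat_lit 10) (nat_lit 160) (nat_lit 642) (@Lb.fm (nat_lit 9) t295)))))))))))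
noncomputable def l19577 : Lb := (@Lb.d (nat_lit 0) (nat_lit 9) (nat_lit 129) (@Lb.g g9 (@Lb.g g10 (@Lb.g g11 (@Lb.r r1443 (@Lb.r r536 (@Lb.r r357 (@Lb.r r154 (@Lb.r r132 (@Lb.d (nat_lit 581) (nat_lit 130) (nat_lit 153) (@Lb.t (@Lb.fp (nat_lit 9) t11))))))))))))
noncomputable def l19578 : Lb := (@Lb.d (nat_lit 0) (nat_lit 513) (nat_lit 9) (@Lb.g g8 (@Lb.g g9 (@Lb.g g10 (@Lb.r r2347 (@Lb.r r425 (@Lb.r r98 (@Lb.r r2436 (@Lb.d (nat_lit 353) (nat_lit 137) (nat_lit 681) (@Lb.t (@Lb.fp (nat_lit 9) t386)))))))))))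
noncomputable def l19579 : Lb := (@Lb.r r21 (@Lb.r r70 (@Lb.d (nat_lit 129) (nat_lit 512) (nat_lit 136) (@Lb.g g8 (@Lb.g g11 (@Lb.r r1414 (@Lb.r r2197 (@Lb.r r1096 (@Lb.d (nat_lit 546) (nat_lit 98) (nat_lit 594) (@Lb.fm (nat_lit 3) t3922))))))))))
noncomputable def l19580 : Lb := (@Lb.d (nat_lit 98) (nat_lit 100) (nat_lit 136) (@Lb.r r676 (@Lb.r r289 (@Lb.r r422 (@Lb.g g7 (@Lb.g g4 (@Lb.d (nat_lit 16) (nat_lit 0) (nat_lit 68) (@Lb.fm (nat_lit 3) t510))))))))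
noncomputable def l19581 : Lb := (@Lb.d (nat_lit 10) (nat_lit 520) (nat_lit 1) (@Lb.g g8 (@Lb.g g10 (@Lb.r r2331 (@Lb.r r2129 (@Lb.r r1638 (@Lb.r r2436 (@Lb.d (nat_lit 617) (nat_lit 129) (nat_lit 682) (@Lb.fm (nat_lit 3) t386)))))))))
noncomputable def l19582 : Lb := (@Lb.d (nat_lit 98) (nat_lit 521) (nat_lit 533) (@Lb.r r24 (@Lb.r r2458 (@Lb.g g11 (@Lb.g g6 (@Lb.g g9 (@Lb.d (nat_lit 8) (nat_lit 166) (nat_lit 388) (@Lb.t (@Lb.fp (nat_lit 9) t1445)))))))))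
noncomputable def l19583 : Lb := (@Lb.d (nat_lit 577) (nat_lit 9) (nat_lit 642) (@Lb.r r24 (@Lb.r r2138 (@Lb.r r2587 (@Lb.g g7 (@Lb.g g9 (@Lb.d (nat_lit 8) (nat_lit 2) (nat_lit 128) (@Lb.fp (nat_lit 3) t3923))))))))
noncomputable def l19584 : Lb := (@Lb.d (nat_lit 0) (nat_lit 296) (nat_lit 65) (@Lb.g g8 (@Lb.g g9 (@Lb.g g10 (@Lb.g g11 (@Lb.r r1699 (@Lb.r r610 (@Lb.r r1049 (@Lb.r r1432 (@Lb.d (nat_lit 352) (nat_lit 88) (nat_lit 342) (@Lb.fp (nat_lit 9) t3924)))))))))))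
noncomputable def l19585 : Lb := (@Lb.r r21 (@Lb.d (nat_lit 130) (nat_lit 512) (nat_lit 130) (@Lb.g g8 (@Lb.g g10 (@Lb.g g11 (@Lb.r r2634 (@Lb.r r1553 (@Lb.r r603 (@Lb.r r2648 (@Lb.d (nat_lit 421) (nat_lit 20) (nat_lit 426) (@Lb.t (@Lb.fm (nat_lit 9) t3925))))))))))))
noncomputable def l19586 : Lb := (@Lb.d (nat_lit 0) (nat_lit 521) (nat_lit 129) (@Lb.g g9 (@Lb.g g10 (@Lb.g g11 (@Lb.r r1443 (@Lb.r r386 (@Lb.r r148 (@Lb.r r25 (@Lb.d (nat_lit 330) (nat_lit 34) (nat_lit 361) (@Lb.t (@Lb.fp (nat_lit 9) t3926)))))))))))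
noncomputable def l19587 : Lb := (@Lb.r r21 (@Lb.r r323 (@Lb.d (nat_lit 2) (nat_lit 512) (nat_lit 1) (@Lb.g g8 (@Lb.g g6 (@Lb.r r387 (@Lb.r r149 (@Lb.r r72 (@Lb.d (nat_lit 17) (nat_lit 5) (nat_lit 2) (@Lb.fm (nat_lit 3) t40))))))))))
noncomputable def l19588 : Lb := (@Lb.d (nat_lit 406) (nat_lit 533) (nat_lit 550) (@Lb.r r2453 (@Lb.r r2667 (@Lb.g g10 (@Lb.g g5 (@Lb.g g4 (@Lb.d (nat_lit 8) (nat_lit 1) (nat_lit 33) (@Lb.r r403 (@Lb.t (@Lb.fp (nat_lit 9) t918))))))))))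
noncomputable def l19589 : Lb := (@Lb.d (nat_lit 2) (nat_lit 545) (nat_lit 66) (@Lb.g g8 (@Lb.g g9 (@Lb.g g10 (@Lb.g g11 (@Lb.r r1706 (@Lb.r r1700 (@Lb.r r1575 (@Lb.r r2577 (@Lb.d (nat_lit 72) (nat_lit 97) (nat_lit 74) (@Lb.fp (nat_lit 9) t2012)))))))))))
noncomputable def l19590 : Lb := (@Lb.d (nat_lit 150) (nat_lit 577) (nat_lit 22) (@Lb.r r358 (@Lb.r r1700 (@Lb.r r1701 (@Lb.r r1367 (@Lb.g g6 (@Lb.g g5 (@Lb.g g4 (@Lb.d (nat_lit 65) (nat_lit 1) (nat_lit 5) (@Lb.t (@Lb.fm (nat_lit 9) t984)))))))))))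
noncomputable def l19591 : Lb := (@Lb.d (nat_lit 0) (nat_lit 2) (nat_lit 128) (@Lb.g g9 (@Lb.g g11 (@Lb.r r1634 (@Lb.r r2657 (@Lb.d (nat_lit 0) (nat_lit 25) (nat_lit 16) (@Lb.fp (nat_lit 3) t1405)))))))
noncomputable def l19592 : Lb := (@Lb.r r323 (@Lb.d (nat_lit 32) (nat_lit 516) (nat_lit 0) (@Lb.g g9 (@Lb.g g10 (@Lb.r r1425 (@Lb.r r2339 (@Lb.d (nat_lit 146) (nat_lit 10) (nat_lit 361) (@Lb.fm (nat_lit 3) t2078))))))))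
noncomputable def l19593 : Lb := (@Lb.d (nat_lit 0) (nat_lit 266) (nat_lit 0) (@Lb.g g5 (@Lb.r r2210 (@Lb.r r1185 (@Lb.d (nat_lit 546) (nat_lit 73) (nat_lit 17) (@Lb.t (@Lb.fm (nat_lit 3) t246)))))))
noncomputable def l19594 : Lb := (@Lb.d (nat_lit 0) (nat_lit 16) (nat_lit 74) (@Lb.g g9 (@Lb.g g10 (@Lb.g g11 (@Lb.r r98 (@Lb.r r1381 (@Lb.r r539 (@Lb.d (nat_lit 681) (nat_lit 82) (nat_lit 410) (@Lb.t (@Lb.fm (nat_lit 9) t374))))))))))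
noncomputable def l19595 : Lb := (@Lb.g g10 (@Lb.g g7 (@Lb.r r402 (@Lb.r r24 (@Lb.r r101 (@Lb.d (nat_lit 96) (nat_lit 130) (nat_lit 320) (@Lb.fm (nat_lit 3) t1628)))))))
noncomputable def l19596 : Lb := (@Lb.d (nat_lit 0) (nat_lit 514) (nat_lit 2) (@Lb.g g9 (@Lb.g g10 (@Lb.r r2723 (@Lb.r r1634 (@Lb.r r1553 (@Lb.r r36 (@Lb.d (nat_lit 326) (nat_lit 154) (nat_lit 673) (@Lb.fp (nat_lit 3) t820)))))))))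
noncomputable def l19597 : Lb := (@Lb.d (nat_lit 130) (nat_lit 2) (nat_lit 2) (@Lb.g g8 (@Lb.g g9 (@Lb.g g10 (@Lb.r r519 (@Lb.r r1177 (@Lb.r r2456 (@Lb.r r2122 (@Lb.d (nat_lit 166) (nat_lit 22) (nat_lit 360) (@Lb.t (@Lb.fm (nat_lit 9) t145)))))))))))
noncomputable def l19598 : Lb := (@Lb.d (nat_lit 0) (nat_lit 256) (nat_lit 2) (@Lb.g g10 (@Lb.r r2435 (@Lb.r r386 (@Lb.r r101 (@Lb.r r24 (@Lb.d (nat_lit 586) (nat_lit 138) (nat_lit 134) (@Lb.t (@Lb.fm (nat_lit 3) t3927)))))))))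
noncomputable def l19599 : Lb := (@Lb.d (nat_lit 33) (nat_lit 516) (nat_lit 74) (@Lb.g g8 (@Lb.g g9 (@Lb.g g10 (@Lb.g g11 (@Lb.r r2690 (@Lb.r r2455 (@Lb.r r1561 (@Lb.r r660 (@Lb.d (nat_lit 661) (nat_lit 166) (nat_lit 133) (@Lb.fm (nat_lit 9) t47)))))))))))
noncomputable def l19600 : Lb := (@Lb.r r323 (@Lb.d (nat_lit 36) (nat_lit 598) (nat_lit 0) (@Lb.g g5 (@Lb.g g10 (@Lb.r r387 (@Lb.d (nat_lit 405) (nat_lit 1) (nat_lit 384) (@Lb.fp (nat_lit 3) t144)))))))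
noncomputable def l19601 : Lb := (@Lb.d (nat_lit 386) (nat_lit 384) (nat_lit 384) (@Lb.r r68 (@Lb.r r289 (@Lb.r r106 (@Lb.r r584 (@Lb.g g11 (@Lb.t (@Lb.fp (nat_lit 3) t2217))))))))
noncomputable def l19602 : Lb := (@Lb.r r323 (@Lb.d (nat_lit 9) (nat_lit 1) (nat_lit 1) (@Lb.g g8 (@Lb.g g9 (@Lb.g g6 (@Lb.r r387 (@Lb.r r1377 (@Lb.r r2584 (@Lb.d (nat_lit 330) (nat_lit 89) (nat_lit 86) (@Lb.t (@Lb.fp (nat_lit 9) t2200)))))))))))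
noncomputable def l19603 : Lb := (@Lb.d (nat_lit 386) (nat_lit 133) (nat_lit 385) (@Lb.r r68 (@Lb.r r289 (@Lb.r r106 (@Lb.r r584 (@Lb.g g11 (@Lb.t (@Lb.fp (nat_lit 3) t3928))))))))
noncomputable def l19604 : Lb := (@Lb.d (nat_lit 8) (nat_lit 2) (nat_lit 2) (@Lb.g g9 (@Lb.g g10 (@Lb.r r2435 (@Lb.r r386 (@Lb.r r24 (@Lb.d (nat_lit 617) (nat_lit 130) (nat_lit 132) (@Lb.fm (nat_lit 3) t698))))))))
noncomputable def l19605 : Lb := (@Lb.d (nat_lit 640) (nat_lit 645) (nat_lit 673) (@Lb.r r101 (@Lb.r r24 (@Lb.r r402 (@Lb.g g11 (@Lb.t (@Lb.fm (nat_lit 3) t3929)))))))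
noncomputable def l19606 : Lb := (@Lb.r r21 (@Lb.d (nat_lit 146) (nat_lit 512) (nat_lit 128) (@Lb.g g8 (@Lb.g g10 (@Lb.g g11 (@Lb.r r1674 (@Lb.r r1411 (@Lb.r r1177 (@Lb.r r1156 (@Lb.d (nat_lit 594) (nat_lit 0) (nat_lit 665) (@Lb.t (@Lb.fp (nat_lit 9) t283))))))))))))
noncomputable def l19607 : Lb := (@Lb.d (nat_lit 0) (nat_lit 516) (nat_lit 74) (@Lb.g g9 (@Lb.g g10 (@Lb.g g11 (@Lb.r r2691 (@Lb.r r1320 (@Lb.r r2393 (@Lb.r r2658 (@Lb.d (nat_lit 594) (nat_lit 160) (nat_lit 416) (@Lb.t (@Lb.fm (nat_lit 9) t2153)))))))))))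
noncomputable def l19608 : Lb := (@Lb.d (nat_lit 130) (nat_lit 2) (nat_lit 2) (@Lb.g g8 (@Lb.g g9 (@Lb.g g10 (@Lb.r r519 (@Lb.r r1177 (@Lb.r r2456 (@Lb.r r2122 (@Lb.d (nat_lit 405) (nat_lit 22) (nat_lit 346) (@Lb.t (@Lb.fm (nat_lit 9) t145)))))))))))
noncomputable def l19609 : Lb := (@Lb.r r331 (@Lb.d (nat_lit 32) (nat_lit 516) (nat_lit 0) (@Lb.g g8 (@Lb.g g9 (@Lb.g g10 (@Lb.r r1706 (@Lb.r r1411 (@Lb.r r537 (@Lb.r r516 (@Lb.d (nat_lit 137) (nat_lit 1) (nat_lit 384) (@Lb.t (@Lb.fp (nat_lit 9) t606))))))))))))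
noncomputable def l19610 : Lb := (@Lb.d (nat_lit 274) (nat_lit 534) (nat_lit 281) (@Lb.r r289 (@Lb.r r70 (@Lb.r r599 (@Lb.g g6 (@Lb.g g5 (@Lb.g g4 (@Lb.d (nat_lit 1) (nat_lit 17) (nat_lit 1) (@Lb.r r387 (@Lb.t (@Lb.fp (nat_lit 9) t1809)))))))))))
noncomputable def l19611 : Lb := (@Lb.d (nat_lit 0) (nat_lit 258) (nat_lit 72) (@Lb.r r402 (@Lb.g g9 (@Lb.d (nat_lit 0) (nat_lit 10) (nat_lit 0) (@Lb.t (@Lb.fm (nat_lit 3) t374))))))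
noncomputable def l19612 : Lb := (@Lb.d (nat_lit 8) (nat_lit 514) (nat_lit 0) (@Lb.g g9 (@Lb.r r2343 (@Lb.r r1096 (@Lb.r r2646 (@Lb.r r409 (@Lb.d (nat_lit 277) (nat_lit 73) (nat_lit 153) (@Lb.t (@Lb.fm (nat_lit 3) t450)))))))))
noncomputable def l19613 : Lb := (@Lb.d (nat_lit 2) (nat_lit 393) (nat_lit 128) (@Lb.g g8 (@Lb.g g5 (@Lb.g g11 (@Lb.r r2587 (@Lb.r r2178 (@Lb.r r2584 (@Lb.d (nat_lit 585) (nat_lit 160) (nat_lit 274) (@Lb.t (@Lb.fm (nat_lit 9) t3930))))))))))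
noncomputable def l19614 : Lb := (@Lb.d (nat_lit 648) (nat_lit 21) (nat_lit 321) (@Lb.r r2321 (@Lb.r r1379 (@Lb.r r2694 (@Lb.g g7 (@Lb.g g6 (@Lb.g g5 (@Lb.g g8 (@Lb.d (nat_lit 10) (nat_lit 5) (nat_lit 6) (@Lb.fp (nat_lit 9) t3931))))))))))
noncomputable def l19615 : Lb := (@Lb.d (nat_lit 128) (nat_lit 137) (nat_lit 128) (@Lb.g g5 (@Lb.g g11 (@Lb.r r264 (@Lb.r r519 (@Lb.r r2178 (@Lb.d (nat_lit 258) (nat_lit 33) (nat_lit 402) (@Lb.fm (nat_lit 3) t3932))))))))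
noncomputable def l19616 : Lb := (@Lb.r r323 (@Lb.d (nat_lit 2) (nat_lit 514) (nat_lit 18) (@Lb.g g8 (@Lb.g g9 (@Lb.g g6 (@Lb.r r2667 (@Lb.r r2585 (@Lb.d (nat_lit 329) (nat_lit 102) (nat_lit 144) (@Lb.t (@Lb.fm (nat_lit 9) t324))))))))))
noncomputable def l19617 : Lb := (@Lb.r r323 (@Lb.d (nat_lit 138) (nat_lit 0) (nat_lit 2) (@Lb.g g8 (@Lb.g g10 (@Lb.r r346 (@Lb.r r661 (@Lb.r r1431 (@Lb.r r2632 (@Lb.d (nat_lit 352) (nat_lit 129) (nat_lit 386) (@Lb.fp (nat_lit 3) t71))))))))))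
noncomputable def l19618 : Lb := (@Lb.r r322 (@Lb.d (nat_lit 2) (nat_lit 16) (nat_lit 648) (@Lb.g g8 (@Lb.g g7 (@Lb.r r2401 (@Lb.r r146 (@Lb.d (nat_lit 402) (nat_lit 145) (nat_lit 656) (@Lb.fp (nat_lit 3) t2044))))))))
noncomputable def l19619 : Lb := (@Lb.d (nat_lit 582) (nat_lit 96) (nat_lit 5) (@Lb.r r68 (@Lb.r r154 (@Lb.r r660 (@Lb.r r2385 (@Lb.g g7 (@Lb.g g6 (@Lb.g g5 (@Lb.g g4 (@Lb.d (nat_lit 1) (nat_lit 0) (nat_lit 129) (@Lb.fm (nat_lit 9) t98)))))))))))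
noncomputable def l19620 : Lb := (@Lb.r r21 (@Lb.r r323 (@Lb.d (nat_lit 130) (nat_lit 512) (nat_lit 2) (@Lb.g g8 (@Lb.g g10 (@Lb.r r346 (@Lb.r r661 (@Lb.r r535 (@Lb.r r264 (@Lb.d (nat_lit 128) (nat_lit 134) (nat_lit 264) (@Lb.fm (nat_lit 3) t119)))))))))))
noncomputable def l19621 : Lb := (@Lb.d (nat_lit 2) (nat_lit 256) (nat_lit 0) (@Lb.g g8 (@Lb.r r2315 (@Lb.r r2122 (@Lb.r r2073 (@Lb.r r24 (@Lb.d (nat_lit 5) (nat_lit 65) (nat_lit 0) (@Lb.t (@Lb.fm (nat_lit 3) t710)))))))))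
noncomputable def l19622 : Lb := (@Lb.r r21 (@Lb.d (nat_lit 10) (nat_lit 520) (nat_lit 130) (@Lb.g g8 (@Lb.g g10 (@Lb.g g11 (@Lb.r r427 (@Lb.r r533 (@Lb.r r360 (@Lb.r r390 (@Lb.d (nat_lit 98) (nat_lit 154) (nat_lit 393) (@Lb.t (@Lb.fm (nat_lit 9) t119))))))))))))
noncomputable def l19623 : Lb := (@Lb.d (nat_lit 2) (nat_lit 294) (nat_lit 128) (@Lb.g g8 (@Lb.g g9 (@Lb.g g10 (@Lb.g g11 (@Lb.r r683 (@Lb.r r1642 (@Lb.r r1561 (@Lb.d (nat_lit 585) (nat_lit 105) (nat_lit 273) (@Lb.fm (nat_lit 9) t2714))))))))))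
noncomputable def l19624 : Lb := (@Lb.d (nat_lit 8) (nat_lit 2) (nat_lit 64) (@Lb.g g9 (@Lb.g g11 (@Lb.r r1540 (@Lb.r r2407 (@Lb.r r2726 (@Lb.r r85 (@Lb.d (nat_lit 22) (nat_lit 10) (nat_lit 84) (@Lb.fp (nat_lit 3) t309)))))))))
noncomputable def l19625 : Lb := (@Lb.d (nat_lit 0) (nat_lit 256) (nat_lit 417) (@Lb.r r323 (@Lb.r r2626 (@Lb.g g7 (@Lb.g g5 (@Lb.fm (nat_lit 3) t2))))))
noncomputable def l19626 : Lb := (@Lb.d (nat_lit 2) (nat_lit 514) (nat_lit 130) (@Lb.g g8 (@Lb.g g9 (@Lb.g g10 (@Lb.g g11 (@Lb.r r2666 (@Lb.r r579 (@Lb.r r292 (@Lb.r r405 (@Lb.r r2084 (@Lb.d (nat_lit 612) (nat_lit 129) (nat_lit 297) (@Lb.fm (nat_lit 9) t3509))))))))))))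
noncomputable def l19627 : Lb := (@Lb.d (nat_lit 8) (nat_lit 514) (nat_lit 130) (@Lb.g g9 (@Lb.g g10 (@Lb.g g11 (@Lb.r r419 (@Lb.r r1446 (@Lb.r r2648 (@Lb.r r1317 (@Lb.d (nat_lit 329) (nat_lit 9) (nat_lit 393) (@Lb.t (@Lb.fp (nat_lit 9) t3933)))))))))))
noncomputable def l19628 : Lb := (@Lb.d (nat_lit 0) (nat_lit 70) (nat_lit 518) (@Lb.r r673 (@Lb.r r362 (@Lb.r r84 (@Lb.g g9 (@Lb.d (nat_lit 4) (nat_lit 1) (nat_lit 0) (@Lb.t (@Lb.fm (nat_lit 3) t3934))))))))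
noncomputable def l19629 : Lb := (@Lb.d (nat_lit 2) (nat_lit 0) (nat_lit 5) (@Lb.g g8 (@Lb.g g9 (@Lb.g g6 (@Lb.g g11 (@Lb.r r579 (@Lb.r r36 (@Lb.d (nat_lit 8) (nat_lit 1) (nat_lit 129) (@Lb.fp (nat_lit 9) t2)))))))))
noncomputable def l19630 : Lb := (@Lb.r r81 (@Lb.r r323 (@Lb.d (nat_lit 10) (nat_lit 0) (nat_lit 24) (@Lb.g g4 (@Lb.g g10 (@Lb.r r1619 (@Lb.r r105 (@Lb.r r100 (@Lb.d (nat_lit 166) (nat_lit 5) (nat_lit 420) (@Lb.fp (nat_lit 3) t523))))))))))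
noncomputable def l19631 : Lb := (@Lb.r r82 (@Lb.r r275 (@Lb.d (nat_lit 1) (nat_lit 2) (nat_lit 0) (@Lb.g g4 (@Lb.g g9 (@Lb.r r293 (@Lb.r r1619 (@Lb.r r386 (@Lb.d (nat_lit 289) (nat_lit 0) (nat_lit 17) (@Lb.fm (nat_lit 3) t58))))))))))
noncomputable def l19632 : Lb := (@Lb.d (nat_lit 530) (nat_lit 388) (nat_lit 86) (@Lb.r r1110 (@Lb.r r2468 (@Lb.r r2341 (@Lb.r r1707 (@Lb.g g7 (@Lb.g g6 (@Lb.g g4 (@Lb.d (nat_lit 6) (nat_lit 4) (nat_lit 65) (@Lb.t (@Lb.fp (nat_lit 9) t238)))))))))))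
noncomputable def l19633 : Lb := (@Lb.r r323 (@Lb.d (nat_lit 2) (nat_lit 0) (nat_lit 4) (@Lb.g g8 (@Lb.g g9 (@Lb.g g6 (@Lb.r r579 (@Lb.r r36 (@Lb.d (nat_lit 8) (nat_lit 1) (nat_lit 129) (@Lb.t (@Lb.fm (nat_lit 9) t2))))))))))
noncomputable def l19634 : Lb := (@Lb.d (nat_lit 8) (nat_lit 265) (nat_lit 129) (@Lb.g g9 (@Lb.g g10 (@Lb.g g11 (@Lb.r r419 (@Lb.r r1446 (@Lb.r r2648 (@Lb.r r1317 (@Lb.d (nat_lit 328) (nat_lit 9) (nat_lit 393) (@Lb.t (@Lb.fp (nat_lit 9) t3935)))))))))))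
noncomputable def l19635 : Lb := (@Lb.d (nat_lit 8) (nat_lit 546) (nat_lit 0) (@Lb.g g9 (@Lb.r r536 (@Lb.r r283 (@Lb.r r2178 (@Lb.r r661 (@Lb.d (nat_lit 390) (nat_lit 42) (nat_lit 24) (@Lb.t (@Lb.fp (nat_lit 3) t287)))))))))
noncomputable def l19636 : Lb := (@Lb.d (nat_lit 128) (nat_lit 130) (nat_lit 64) (@Lb.g g9 (@Lb.g g11 (@Lb.r r324 (@Lb.r r651 (@Lb.r r2178 (@Lb.d (nat_lit 337) (nat_lit 70) (nat_lit 546) (@Lb.fm (nat_lit 3) t3936))))))))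
noncomputable def l19637 : Lb := (@Lb.d (nat_lit 128) (nat_lit 130) (nat_lit 128) (@Lb.g g9 (@Lb.g g11 (@Lb.r r260 (@Lb.r r523 (@Lb.r r2178 (@Lb.d (nat_lit 610) (nat_lit 70) (nat_lit 5) (@Lb.fm (nat_lit 3) t3936))))))))
noncomputable def l19638 : Lb := (@Lb.d (nat_lit 2) (nat_lit 260) (nat_lit 128) (@Lb.g g8 (@Lb.g g9 (@Lb.g g10 (@Lb.g g11 (@Lb.r r427 (@Lb.r r424 (@Lb.r r106 (@Lb.r r97 (@Lb.d (nat_lit 289) (nat_lit 10) (nat_lit 33) (@Lb.fp (nat_lit 9) t1613)))))))))))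
noncomputable def l19639 : Lb := (@Lb.r r82 (@Lb.d (nat_lit 2) (nat_lit 576) (nat_lit 0) (@Lb.g g8 (@Lb.g g9 (@Lb.r r98 (@Lb.r r36 (@Lb.d (nat_lit 8) (nat_lit 129) (nat_lit 0) (@Lb.fm (nat_lit 3) t2015))))))))
noncomputable def l19640 : Lb := (@Lb.r r82 (@Lb.d (nat_lit 2) (nat_lit 64) (nat_lit 0) (@Lb.g g8 (@Lb.g g9 (@Lb.r r98 (@Lb.r r36 (@Lb.d (nat_lit 10) (nat_lit 129) (nat_lit 0) (@Lb.fm (nat_lit 3) t3937))))))))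
noncomputable def l19641 : Lb := (@Lb.d (nat_lit 522) (nat_lit 128) (nat_lit 0) (@Lb.r r82 (@Lb.r r1291 (@Lb.g g9 (@Lb.d (nat_lit 0) (nat_lit 66) (nat_lit 0) (@Lb.r r98 (@Lb.t (@Lb.fp (nat_lit 3) t3938))))))))
noncomputable def l19642 : Lb := (@Lb.d (nat_lit 0) (nat_lit 0) (nat_lit 66) (@Lb.g g10 (@Lb.g g7 (@Lb.r r386 (@Lb.r r2577 (@Lb.d (nat_lit 320) (nat_lit 5) (nat_lit 422) (@Lb.fm (nat_lit 3) t3939)))))))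
noncomputable def l19643 : Lb := (@Lb.d (nat_lit 1) (nat_lit 264) (nat_lit 2) (@Lb.g g8 (@Lb.g g10 (@Lb.r r1381 (@Lb.r r1691 (@Lb.r r1610 (@Lb.d (nat_lit 97) (nat_lit 10) (nat_lit 601) (@Lb.fm (nat_lit 3) t145))))))))
noncomputable def l19644 : Lb := (@Lb.d (nat_lit 1) (nat_lit 2) (nat_lit 2) (@Lb.g g8 (@Lb.g g9 (@Lb.g g10 (@Lb.r r2691 (@Lb.r r2216 (@Lb.r r2666 (@Lb.r r25 (@Lb.d (nat_lit 522) (nat_lit 37) (nat_lit 132) (@Lb.t (@Lb.fm (nat_lit 9) t670)))))))))))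
noncomputable def l19645 : Lb := (@Lb.d (nat_lit 130) (nat_lit 2) (nat_lit 130) (@Lb.g g8 (@Lb.g g9 (@Lb.g g10 (@Lb.g g11 (@Lb.r r2410 (@Lb.r r1411 (@Lb.r r409 (@Lb.r r388 (@Lb.d (nat_lit 96) (nat_lit 73) (nat_lit 137) (@Lb.fp (nat_lit 9) t842)))))))))))
noncomputable def l19646 : Lb := (@Lb.d (nat_lit 1) (nat_lit 288) (nat_lit 73) (@Lb.g g8 (@Lb.g g10 (@Lb.g g11 (@Lb.r r2122 (@Lb.r r360 (@Lb.r r281 (@Lb.r r2471 (@Lb.d (nat_lit 618) (nat_lit 101) (nat_lit 665) (@Lb.t (@Lb.fp (nat_lit 9) t295)))))))))))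
noncomputable def l19647 : Lb := (@Lb.d (nat_lit 9) (nat_lit 512) (nat_lit 2) (@Lb.g g8 (@Lb.g g10 (@Lb.r r2691 (@Lb.r r1109 (@Lb.r r2658 (@Lb.r r2436 (@Lb.d (nat_lit 610) (nat_lit 165) (nat_lit 660) (@Lb.fp (nat_lit 3) t311)))))))))
noncomputable def l19648 : Lb := (@Lb.d (nat_lit 144) (nat_lit 256) (nat_lit 128) (@Lb.g g8 (@Lb.g g10 (@Lb.g g11 (@Lb.r r658 (@Lb.r r2455 (@Lb.r r2145 (@Lb.r r536 (@Lb.d (nat_lit 324) (nat_lit 161) (nat_lit 128) (@Lb.t (@Lb.fp (nat_lit 9) t1666)))))))))))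
noncomputable def l19649 : Lb := (@Lb.d (nat_lit 9) (nat_lit 2) (nat_lit 64) (@Lb.g g8 (@Lb.g g9 (@Lb.g g11 (@Lb.r r353 (@Lb.r r663 (@Lb.r r328 (@Lb.r r134 (@Lb.d (nat_lit 517) (nat_lit 1) (nat_lit 144) (@Lb.t (@Lb.fm (nat_lit 9) t40)))))))))))
noncomputable def l19650 : Lb := (@Lb.r r1291 (@Lb.r r100 (@Lb.r r21 (@Lb.r r2084 (@Lb.d (nat_lit 0) (nat_lit 661) (nat_lit 265) (@Lb.fp (nat_lit 1) t3940))))))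
noncomputable def l19651 : Lb := (@Lb.d (nat_lit 1) (nat_lit 34) (nat_lit 2) (@Lb.g g8 (@Lb.g g9 (@Lb.g g10 (@Lb.r r275 (@Lb.r r2122 (@Lb.r r657 (@Lb.d (nat_lit 545) (nat_lit 37) (nat_lit 676) (@Lb.t (@Lb.fm (nat_lit 9) t145))))))))))
noncomputable def l19652 : Lb := (@Lb.d (nat_lit 144) (nat_lit 256) (nat_lit 534) (@Lb.r r24 (@Lb.r r2458 (@Lb.r r597 (@Lb.r r339 (@Lb.g g7 (@Lb.g g6 (@Lb.d (nat_lit 0) (nat_lit 0) (nat_lit 65) (@Lb.fm (nat_lit 3) t386)))))))))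
noncomputable def l19653 : Lb := (@Lb.d (nat_lit 288) (nat_lit 597) (nat_lit 532) (@Lb.r r1361 (@Lb.r r2178 (@Lb.r r295 (@Lb.r r536 (@Lb.g g5 (@Lb.d (nat_lit 4) (nat_lit 17) (nat_lit 0) (@Lb.t (@Lb.fm (nat_lit 3) t296)))))))))
noncomputable def l19654 : Lb := (@Lb.g g7 (@Lb.r r24 (@Lb.r r101 (@Lb.r r402 (@Lb.d (nat_lit 0) (nat_lit 390) (nat_lit 64) (@Lb.t (@Lb.fp (nat_lit 3) t452)))))))
noncomputable def l19655 : Lb := (@Lb.r r82 (@Lb.d (nat_lit 128) (nat_lit 613) (nat_lit 64) (@Lb.g g5 (@Lb.g g11 (@Lb.r r662 (@Lb.r r328 (@Lb.r r327 (@Lb.d (nat_lit 641) (nat_lit 1) (nat_lit 678) (@Lb.fp (nat_lit 3) t1244)))))))))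
noncomputable def l19656 : Lb := (@Lb.d (nat_lit 516) (nat_lit 385) (nat_lit 129) (@Lb.r r358 (@Lb.r r676 (@Lb.r r1105 (@Lb.r r1623 (@Lb.g g6 (@Lb.g g5 (@Lb.g g4 (@Lb.d (nat_lit 1) (nat_lit 1) (nat_lit 5) (@Lb.t (@Lb.fm (nat_lit 9) t3941)))))))))))
noncomputable def l19657 : Lb := (@Lb.r r600 (@Lb.r r1301 (@Lb.r r1579 (@Lb.r r2178 (@Lb.r r1572 (@Lb.d (nat_lit 548) (nat_lit 1) (nat_lit 2) (@Lb.fm (nat_lit 1) t1805)))))))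
noncomputable def l19658 : Lb := (@Lb.d (nat_lit 138) (nat_lit 544) (nat_lit 64) (@Lb.g g8 (@Lb.g g11 (@Lb.r r21 (@Lb.r r2344 (@Lb.r r519 (@Lb.r r2178 (@Lb.d (nat_lit 129) (nat_lit 89) (nat_lit 322) (@Lb.fp (nat_lit 3) t3942)))))))))
noncomputable def l19659 : Lb := (@Lb.r r82 (@Lb.d (nat_lit 0) (nat_lit 512) (nat_lit 128) (@Lb.g g9 (@Lb.g g11 (@Lb.r r547 (@Lb.r r386 (@Lb.r r1304 (@Lb.r r2709 (@Lb.d (nat_lit 533) (nat_lit 133) (nat_lit 16) (@Lb.fp (nat_lit 3) t3943))))))))))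
noncomputable def l19660 : Lb := (@Lb.d (nat_lit 329) (nat_lit 81) (nat_lit 646) (@Lb.r r2583 (@Lb.r r1384 (@Lb.r r361 (@Lb.r r1622 (@Lb.g g7 (@Lb.d (nat_lit 64) (nat_lit 16) (nat_lit 132) (@Lb.t (@Lb.fp (nat_lit 3) t322)))))))))
noncomputable def l19661 : Lb := (@Lb.d (nat_lit 345) (nat_lit 20) (nat_lit 0) (@Lb.r r362 (@Lb.r r1431 (@Lb.r r1641 (@Lb.r r360 (@Lb.g g7 (@Lb.g g6 (@Lb.d (nat_lit 16) (nat_lit 4) (nat_lit 128) (@Lb.fm (nat_lit 3) t2796)))))))))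
noncomputable def l19662 : Lb := (@Lb.d (nat_lit 34) (nat_lit 516) (nat_lit 2) (@Lb.g g8 (@Lb.g g9 (@Lb.g g10 (@Lb.r r683 (@Lb.r r1689 (@Lb.r r1688 (@Lb.r r602 (@Lb.d (nat_lit 105) (nat_lit 101) (nat_lit 280) (@Lb.t (@Lb.fm (nat_lit 9) t2796)))))))))))
noncomputable def l19663 : Lb := (@Lb.d (nat_lit 2) (nat_lit 258) (nat_lit 130) (@Lb.g g8 (@Lb.g g9 (@Lb.g g10 (@Lb.g g11 (@Lb.r r2729 (@Lb.r r2475 (@Lb.r r2468 (@Lb.r r2438 (@Lb.d (nat_lit 614) (nat_lit 74) (nat_lit 657) (@Lb.fp (nat_lit 9) t3944)))))))))))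
noncomputable def l19664 : Lb := (@Lb.d (nat_lit 8) (nat_lit 544) (nat_lit 128) (@Lb.g g8 (@Lb.g g11 (@Lb.r r401 (@Lb.r r679 (@Lb.r r2436 (@Lb.d (nat_lit 329) (nat_lit 66) (nat_lit 664) (@Lb.fp (nat_lit 3) t386))))))))
noncomputable def l19665 : Lb := (@Lb.r r21 (@Lb.d (nat_lit 0) (nat_lit 512) (nat_lit 128) (@Lb.g g8 (@Lb.g g10 (@Lb.g g11 (@Lb.r r387 (@Lb.r r1561 (@Lb.r r1540 (@Lb.d (nat_lit 0) (nat_lit 0) (nat_lit 649) (@Lb.t (@Lb.fm (nat_lit 9) t1644)))))))))))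
noncomputable def l19666 : Lb := (@Lb.r r21 (@Lb.r r323 (@Lb.d (nat_lit 33) (nat_lit 512) (nat_lit 2) (@Lb.g g8 (@Lb.g g10 (@Lb.r r417 (@Lb.r r1431 (@Lb.r r2186 (@Lb.r r2372 (@Lb.d (nat_lit 33) (nat_lit 0) (nat_lit 330) (@Lb.fm (nat_lit 3) t74)))))))))))
noncomputable def l19667 : Lb := (@Lb.d (nat_lit 40) (nat_lit 512) (nat_lit 64) (@Lb.g g8 (@Lb.g g11 (@Lb.r r1703 (@Lb.r r614 (@Lb.r r1637 (@Lb.r r1428 (@Lb.d (nat_lit 358) (nat_lit 90) (nat_lit 256) (@Lb.fm (nat_lit 3) t386)))))))))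
noncomputable def l19668 : Lb := (@Lb.d (nat_lit 0) (nat_lit 256) (nat_lit 72) (@Lb.g g10 (@Lb.g g11 (@Lb.r r386 (@Lb.r r579 (@Lb.d (nat_lit 1) (nat_lit 5) (nat_lit 2) (@Lb.fm (nat_lit 3) t45)))))))
noncomputable def l19669 : Lb := (@Lb.r r21 (@Lb.d (nat_lit 2) (nat_lit 0) (nat_lit 73) (@Lb.g g8 (@Lb.g g10 (@Lb.g g11 (@Lb.r r1691 (@Lb.r r405 (@Lb.r r86 (@Lb.r r2180 (@Lb.d (nat_lit 601) (nat_lit 65) (nat_lit 609) (@Lb.t (@Lb.fp (nat_lit 9) t284))))))))))))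
noncomputable def l19670 : Lb := (@Lb.r r21 (@Lb.d (nat_lit 160) (nat_lit 256) (nat_lit 134) (@Lb.g g8 (@Lb.g g10 (@Lb.g g11 (@Lb.r r1691 (@Lb.r r405 (@Lb.r r86 (@Lb.r r1560 (@Lb.d (nat_lit 422) (nat_lit 22) (nat_lit 169) (@Lb.t (@Lb.fm (nat_lit 9) t428))))))))))))
noncomputable def l19671 : Lb := (@Lb.r r21 (@Lb.d (nat_lit 2) (nat_lit 0) (nat_lit 130) (@Lb.g g8 (@Lb.g g10 (@Lb.g g11 (@Lb.r r1691 (@Lb.r r1381 (@Lb.r r2202 (@Lb.r r2180 (@Lb.d (nat_lit 596) (nat_lit 1) (nat_lit 609) (@Lb.t (@Lb.fp (nat_lit 9) t284))))))))))))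
noncomputable def l19672 : Lb := (@Lb.d (nat_lit 0) (nat_lit 512) (nat_lit 72) (@Lb.g g10 (@Lb.g g11 (@Lb.r r386 (@Lb.r r579 (@Lb.d (nat_lit 0) (nat_lit 5) (nat_lit 2) (@Lb.fm (nat_lit 3) t45)))))))
noncomputable def l19673 : Lb := (@Lb.r r21 (@Lb.d (nat_lit 2) (nat_lit 256) (nat_lit 130) (@Lb.g g8 (@Lb.g g10 (@Lb.g g11 (@Lb.r r1691 (@Lb.r r1381 (@Lb.r r2202 (@Lb.r r2180 (@Lb.d (nat_lit 602) (nat_lit 2) (nat_lit 609) (@Lb.t (@Lb.fp (nat_lit 9) t284))))))))))))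
noncomputable def l19674 : Lb := (@Lb.d (nat_lit 40) (nat_lit 0) (nat_lit 64) (@Lb.g g8 (@Lb.g g11 (@Lb.r r1703 (@Lb.r r614 (@Lb.r r1637 (@Lb.r r1428 (@Lb.d (nat_lit 358) (nat_lit 90) (nat_lit 394) (@Lb.fm (nat_lit 3) t386)))))))))
noncomputable def l19675 : Lb := (@Lb.d (nat_lit 0) (nat_lit 0) (nat_lit 72) (@Lb.g g8 (@Lb.g g10 (@Lb.g g11 (@Lb.r r386 (@Lb.r r579 (@Lb.d (nat_lit 0) (nat_lit 5) (nat_lit 2) (@Lb.t (@Lb.fm (nat_lit 9) t45)))))))))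
noncomputable def l19676 : Lb := (@Lb.r r323 (@Lb.g g10 (@Lb.r r322 (@Lb.r r387 (@Lb.t (@Lb.fp (nat_lit 3) t2))))))
noncomputable def l19677 : Lb := (@Lb.d (nat_lit 0) (nat_lit 2) (nat_lit 73) (@Lb.g g8 (@Lb.g g9 (@Lb.g g10 (@Lb.g g11 (@Lb.r r2643 (@Lb.r r678 (@Lb.r r100 (@Lb.r r21 (@Lb.r r36 (@Lb.d (nat_lit 64) (nat_lit 41) (nat_lit 258) (@Lb.fp (nat_lit 9) t825))))))))))))
noncomputable def l19678 : Lb := (@Lb.d (nat_lit 362) (nat_lit 358) (nat_lit 582) (@Lb.r r1432 (@Lb.r r97 (@Lb.r r2631 (@Lb.g g6 (@Lb.g g4 (@Lb.d (nat_lit 66) (nat_lit 4) (nat_lit 1) (@Lb.r r387 (@Lb.r r25 (@Lb.fp (nat_lit 3) t144))))))))))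
noncomputable def l19679 : Lb := (@Lb.r r82 (@Lb.d (nat_lit 34) (nat_lit 2) (nat_lit 128) (@Lb.g g8 (@Lb.g g9 (@Lb.g g11 (@Lb.r r363 (@Lb.r r582 (@Lb.r r392 (@Lb.d (nat_lit 153) (nat_lit 72) (nat_lit 153) (@Lb.t (@Lb.fp (nat_lit 9) t408)))))))))))
noncomputable def l19680 : Lb := (@Lb.r r323 (@Lb.d (nat_lit 2) (nat_lit 2) (nat_lit 0) (@Lb.g g8 (@Lb.g g9 (@Lb.g g10 (@Lb.r r427 (@Lb.r r106 (@Lb.r r97 (@Lb.d (nat_lit 521) (nat_lit 4) (nat_lit 17) (@Lb.t (@Lb.fp (nat_lit 9) t232)))))))))))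
noncomputable def l19681 : Lb := (@Lb.d (nat_lit 2) (nat_lit 97) (nat_lit 0) (@Lb.g g8 (@Lb.g g5 (@Lb.r r322 (@Lb.r r1667 (@Lb.r r578 (@Lb.r r24 (@Lb.d (nat_lit 5) (nat_lit 128) (nat_lit 2) (@Lb.fp (nat_lit 3) t154)))))))))
noncomputable def l19682 : Lb := (@Lb.d (nat_lit 2) (nat_lit 609) (nat_lit 0) (@Lb.g g8 (@Lb.g g5 (@Lb.r r322 (@Lb.r r1667 (@Lb.r r578 (@Lb.r r24 (@Lb.d (nat_lit 5) (nat_lit 128) (nat_lit 68) (@Lb.fp (nat_lit 3) t154)))))))))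
noncomputable def l19683 : Lb := (@Lb.d (nat_lit 2) (nat_lit 2) (nat_lit 130) (@Lb.g g8 (@Lb.g g9 (@Lb.g g10 (@Lb.g g11 (@Lb.r r2666 (@Lb.r r2664 (@Lb.r r2585 (@Lb.r r2651 (@Lb.d (nat_lit 361) (nat_lit 73) (nat_lit 136) (@Lb.fp (nat_lit 9) t1384)))))))))))
noncomputable def l19684 : Lb := (@Lb.d (nat_lit 32) (nat_lit 514) (nat_lit 66) (@Lb.g g9 (@Lb.g g10 (@Lb.g g11 (@Lb.r r1447 (@Lb.r r293 (@Lb.r r72 (@Lb.r r150 (@Lb.d (nat_lit 533) (nat_lit 0) (nat_lit 418) (@Lb.t (@Lb.fp (nat_lit 9) t88)))))))))))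
noncomputable def l19685 : Lb := (@Lb.d (nat_lit 0) (nat_lit 33) (nat_lit 66) (@Lb.g g8 (@Lb.g g9 (@Lb.g g10 (@Lb.g g11 (@Lb.r r2666 (@Lb.r r2664 (@Lb.r r267 (@Lb.r r2577 (@Lb.d (nat_lit 129) (nat_lit 17) (nat_lit 512) (@Lb.fm (nat_lit 9) t948)))))))))))
noncomputable def l19686 : Lb := (@Lb.d (nat_lit 32) (nat_lit 514) (nat_lit 66) (@Lb.g g9 (@Lb.g g10 (@Lb.g g11 (@Lb.r r1447 (@Lb.r r293 (@Lb.r r72 (@Lb.r r150 (@Lb.d (nat_lit 533) (nat_lit 10) (nat_lit 289) (@Lb.t (@Lb.fp (nat_lit 9) t296)))))))))))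
noncomputable def l19687 : Lb := (@Lb.d (nat_lit 2) (nat_lit 289) (nat_lit 66) (@Lb.g g8 (@Lb.g g9 (@Lb.g g10 (@Lb.g g11 (@Lb.r r427 (@Lb.r r424 (@Lb.r r106 (@Lb.r r2153 (@Lb.r r2084 (@Lb.d (nat_lit 536) (nat_lit 129) (nat_lit 168) (@Lb.fp (nat_lit 9) t2312))))))))))))
noncomputable def l19688 : Lb := (@Lb.d (nat_lit 0) (nat_lit 522) (nat_lit 128) (@Lb.g g9 (@Lb.g g11 (@Lb.r r2450 (@Lb.r r2659 (@Lb.r r1633 (@Lb.r r8 (@Lb.d (nat_lit 9) (nat_lit 152) (nat_lit 514) (@Lb.fm (nat_lit 3) t844)))))))))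
noncomputable def l19689 : Lb := (@Lb.d (nat_lit 2) (nat_lit 256) (nat_lit 128) (@Lb.g g8 (@Lb.g g9 (@Lb.g g11 (@Lb.r r1162 (@Lb.r r1188 (@Lb.r r2597 (@Lb.r r1315 (@Lb.d (nat_lit 2) (nat_lit 18) (nat_lit 650) (@Lb.t (@Lb.fm (nat_lit 9) t1593)))))))))))
noncomputable def l19690 : Lb := (@Lb.g g9 (@Lb.g g11 (@Lb.d (nat_lit 0) (nat_lit 0) (nat_lit 64) (@Lb.fm (nat_lit 3) t2))))
noncomputable def l19691 : Lb := (@Lb.d (nat_lit 129) (nat_lit 258) (nat_lit 130) (@Lb.g g8 (@Lb.g g9 (@Lb.g g10 (@Lb.g g11 (@Lb.r r2459 (@Lb.r r2581 (@Lb.r r676 (@Lb.r r2118 (@Lb.r r1156 (@Lb.d (nat_lit 521) (nat_lit 161) (nat_lit 90) (@Lb.fp (nat_lit 9) t3030))))))))))))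
noncomputable def l19692 : Lb := (@Lb.d (nat_lit 8) (nat_lit 258) (nat_lit 22) (@Lb.g g9 (@Lb.g g10 (@Lb.r r1300 (@Lb.r r2603 (@Lb.r r537 (@Lb.d (nat_lit 10) (nat_lit 100) (nat_lit 338) (@Lb.fp (nat_lit 3) t3945))))))))
noncomputable def l19693 : Lb := (@Lb.d (nat_lit 4) (nat_lit 256) (nat_lit 130) (@Lb.g g8 (@Lb.g g9 (@Lb.g g10 (@Lb.g g11 (@Lb.r r2666 (@Lb.r r2664 (@Lb.r r2585 (@Lb.r r2651 (@Lb.d (nat_lit 361) (nat_lit 66) (nat_lit 137) (@Lb.fp (nat_lit 9) t1384)))))))))))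
noncomputable def l19694 : Lb := (@Lb.d (nat_lit 129) (nat_lit 514) (nat_lit 66) (@Lb.g g8 (@Lb.g g9 (@Lb.g g10 (@Lb.g g11 (@Lb.r r427 (@Lb.r r145 (@Lb.r r2646 (@Lb.r r1416 (@Lb.d (nat_lit 390) (nat_lit 73) (nat_lit 393) (@Lb.fm (nat_lit 9) t1108)))))))))))
noncomputable def l19695 : Lb := (@Lb.d (nat_lit 1) (nat_lit 2) (nat_lit 0) (@Lb.g g8 (@Lb.g g9 (@Lb.r r683 (@Lb.r r2178 (@Lb.r r2649 (@Lb.r r2628 (@Lb.d (nat_lit 665) (nat_lit 134) (nat_lit 357) (@Lb.fm (nat_lit 3) t3946)))))))))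
noncomputable def l19696 : Lb := (@Lb.d (nat_lit 128) (nat_lit 0) (nat_lit 384) (@Lb.g g9 (@Lb.g g11 (@Lb.r r1557 (@Lb.d (nat_lit 256) (nat_lit 0) (nat_lit 384) (@Lb.fm (nat_lit 3) t3947))))))
noncomputable def l19697 : Lb := (@Lb.d (nat_lit 4) (nat_lit 32) (nat_lit 130) (@Lb.g g8 (@Lb.g g9 (@Lb.g g10 (@Lb.g g11 (@Lb.r r2443 (@Lb.r r104 (@Lb.r r406 (@Lb.r r2661 (@Lb.r r2068 (@Lb.d (nat_lit 533) (nat_lit 73) (nat_lit 425) (@Lb.fm (nat_lit 9) t1606))))))))))))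
noncomputable def l19698 : Lb := (@Lb.d (nat_lit 128) (nat_lit 256) (nat_lit 384) (@Lb.g g9 (@Lb.g g11 (@Lb.r r1557 (@Lb.d (nat_lit 258) (nat_lit 0) (nat_lit 384) (@Lb.fm (nat_lit 3) t3947))))))
noncomputable def l19699 : Lb := (@Lb.d (nat_lit 73) (nat_lit 273) (nat_lit 2) (@Lb.g g8 (@Lb.g g9 (@Lb.g g10 (@Lb.g g11 (@Lb.r r586 (@Lb.r r584 (@Lb.r r299 (@Lb.r r2577 (@Lb.d (nat_lit 581) (nat_lit 72) (nat_lit 164) (@Lb.fm (nat_lit 9) t610)))))))))))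
noncomputable def l19700 : Lb := (@Lb.d (nat_lit 34) (nat_lit 257) (nat_lit 0) (@Lb.g g8 (@Lb.g g9 (@Lb.r r2411 (@Lb.r r598 (@Lb.r r2457 (@Lb.r r1428 (@Lb.d (nat_lit 101) (nat_lit 90) (nat_lit 266) (@Lb.fm (nat_lit 3) t188)))))))))
noncomputable def l19701 : Lb := (@Lb.r r21 (@Lb.d (nat_lit 129) (nat_lit 256) (nat_lit 130) (@Lb.g g8 (@Lb.g g10 (@Lb.g g11 (@Lb.r r419 (@Lb.r r1172 (@Lb.r r2438 (@Lb.r r97 (@Lb.d (nat_lit 360) (nat_lit 33) (nat_lit 128) (@Lb.t (@Lb.fm (nat_lit 9) t3099))))))))))))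
noncomputable def l19702 : Lb := (@Lb.r r21 (@Lb.d (nat_lit 129) (nat_lit 0) (nat_lit 130) (@Lb.g g8 (@Lb.g g10 (@Lb.g g11 (@Lb.r r419 (@Lb.r r1172 (@Lb.r r2438 (@Lb.r r97 (@Lb.d (nat_lit 361) (nat_lit 33) (nat_lit 128) (@Lb.t (@Lb.fm (nat_lit 9) t1377))))))))))))
noncomputable def l19703 : Lb := (@Lb.d (nat_lit 401) (nat_lit 128) (nat_lit 72) (@Lb.r r2069 (@Lb.r r1124 (@Lb.r r386 (@Lb.r r2395 (@Lb.g g7 (@Lb.g g6 (@Lb.d (nat_lit 0) (nat_lit 0) (nat_lit 65) (@Lb.fp (nat_lit 3) t3948)))))))))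
noncomputable def l19704 : Lb := (@Lb.d (nat_lit 2) (nat_lit 0) (nat_lit 64) (@Lb.g g8 (@Lb.g g11 (@Lb.r r2450 (@Lb.r r2659 (@Lb.r r1633 (@Lb.r r24 (@Lb.d (nat_lit 10) (nat_lit 88) (nat_lit 66) (@Lb.fm (nat_lit 3) t918)))))))))
noncomputable def l19705 : Lb := (@Lb.d (nat_lit 4) (nat_lit 8) (nat_lit 2) (@Lb.g g5 (@Lb.g g10 (@Lb.r r1319 (@Lb.r r24 (@Lb.d (nat_lit 272) (nat_lit 1) (nat_lit 32) (@Lb.fm (nat_lit 3) t3949)))))))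
noncomputable def l19706 : Lb := (@Lb.r r322 (@Lb.d (nat_lit 2) (nat_lit 258) (nat_lit 72) (@Lb.g g8 (@Lb.g g9 (@Lb.g g7 (@Lb.r r2409 (@Lb.r r2404 (@Lb.r r1610 (@Lb.d (nat_lit 162) (nat_lit 10) (nat_lit 420) (@Lb.t (@Lb.fm (nat_lit 9) t3052)))))))))))
noncomputable def l19707 : Lb := (@Lb.d (nat_lit 298) (nat_lit 280) (nat_lit 592) (@Lb.r r289 (@Lb.r r422 (@Lb.r r72 (@Lb.r r2387 (@Lb.g g7 (@Lb.g g6 (@Lb.g g5 (@Lb.d (nat_lit 16) (nat_lit 2) (nat_lit 65) (@Lb.t (@Lb.fm (nat_lit 9) t3950)))))))))))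
noncomputable def l19708 : Lb := (@Lb.r r322 (@Lb.d (nat_lit 2) (nat_lit 33) (nat_lit 64) (@Lb.g g8 (@Lb.g g9 (@Lb.g g11 (@Lb.r r1642 (@Lb.r r1561 (@Lb.d (nat_lit 585) (nat_lit 82) (nat_lit 596) (@Lb.t (@Lb.fm (nat_lit 9) t150))))))))))
noncomputable def l19709 : Lb := (@Lb.d (nat_lit 129) (nat_lit 514) (nat_lit 130) (@Lb.g g8 (@Lb.g g9 (@Lb.g g10 (@Lb.g g11 (@Lb.r r1706 (@Lb.r r1411 (@Lb.r r1177 (@Lb.r r1156 (@Lb.d (nat_lit 297) (nat_lit 89) (nat_lit 665) (@Lb.fm (nat_lit 9) t773)))))))))))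
noncomputable def l19710 : Lb := (@Lb.d (nat_lit 129) (nat_lit 258) (nat_lit 130) (@Lb.g g8 (@Lb.g g9 (@Lb.g g10 (@Lb.g g11 (@Lb.r r419 (@Lb.r r164 (@Lb.r r2438 (@Lb.r r97 (@Lb.d (nat_lit 354) (nat_lit 41) (nat_lit 658) (@Lb.fp (nat_lit 9) t3951)))))))))))
noncomputable def l19711 : Lb := (@Lb.d (nat_lit 0) (nat_lit 514) (nat_lit 130) (@Lb.g g9 (@Lb.g g10 (@Lb.g g11 (@Lb.r r427 (@Lb.r r420 (@Lb.r r2438 (@Lb.r r97 (@Lb.d (nat_lit 609) (nat_lit 40) (nat_lit 658) (@Lb.t (@Lb.fm (nat_lit 9) t3952)))))))))))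
noncomputable def l19712 : Lb := (@Lb.d (nat_lit 0) (nat_lit 0) (nat_lit 128) (@Lb.g g5 (@Lb.g g7 (@Lb.fm (nat_lit 3) t2))))
noncomputable def l19713 : Lb := (@Lb.d (nat_lit 0) (nat_lit 256) (nat_lit 2) (@Lb.g g10 (@Lb.g g7 (@Lb.r r386 (@Lb.r r101 (@Lb.r r24 (@Lb.d (nat_lit 354) (nat_lit 0) (nat_lit 585) (@Lb.fm (nat_lit 3) t166))))))))
noncomputable def l19714 : Lb := (@Lb.d (nat_lit 2) (nat_lit 512) (nat_lit 64) (@Lb.g g8 (@Lb.g g11 (@Lb.r r2450 (@Lb.r r2659 (@Lb.r r1633 (@Lb.r r24 (@Lb.d (nat_lit 10) (nat_lit 81) (nat_lit 64) (@Lb.fm (nat_lit 3) t3136)))))))))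
noncomputable def l19715 : Lb := (@Lb.r r82 (@Lb.d (nat_lit 0) (nat_lit 33) (nat_lit 64) (@Lb.g g9 (@Lb.g g11 (@Lb.r r1571 (@Lb.r r1430 (@Lb.r r2664 (@Lb.r r2585 (@Lb.d (nat_lit 386) (nat_lit 16) (nat_lit 133) (@Lb.fp (nat_lit 3) t3953))))))))))
noncomputable def l19716 : Lb := (@Lb.d (nat_lit 345) (nat_lit 85) (nat_lit 517) (@Lb.r r1384 (@Lb.r r82 (@Lb.r r2583 (@Lb.g g5 (@Lb.g g4 (@Lb.d (nat_lit 72) (nat_lit 64) (nat_lit 0) (@Lb.r r291 (@Lb.r r98 (@Lb.fm (nat_lit 3) t1012))))))))))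
noncomputable def l19717 : Lb := (@Lb.d (nat_lit 0) (nat_lit 546) (nat_lit 0) (@Lb.g g9 (@Lb.r r275 (@Lb.r r2178 (@Lb.r r2593 (@Lb.r r8 (@Lb.d (nat_lit 0) (nat_lit 89) (nat_lit 2) (@Lb.t (@Lb.fm (nat_lit 3) t322)))))))))
noncomputable def l19718 : Lb := (@Lb.d (nat_lit 613) (nat_lit 161) (nat_lit 258) (@Lb.r r2456 (@Lb.r r82 (@Lb.r r599 (@Lb.g g6 (@Lb.g g5 (@Lb.g g4 (@Lb.d (nat_lit 65) (nat_lit 1) (nat_lit 1) (@Lb.r r291 (@Lb.t (@Lb.fp (nat_lit 9) t2095)))))))))))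
noncomputable def l19719 : Lb := (@Lb.d (nat_lit 9) (nat_lit 257) (nat_lit 73) (@Lb.g g8 (@Lb.g g9 (@Lb.g g10 (@Lb.g g11 (@Lb.r r1706 (@Lb.r r680 (@Lb.r r555 (@Lb.r r1553 (@Lb.r r2084 (@Lb.d (nat_lit 9) (nat_lit 104) (nat_lit 516) (@Lb.fm (nat_lit 9) t51))))))))))))
noncomputable def l19720 : Lb := (@Lb.r r21 (@Lb.d (nat_lit 2) (nat_lit 520) (nat_lit 73) (@Lb.g g8 (@Lb.g g10 (@Lb.g g11 (@Lb.r r1707 (@Lb.r r2341 (@Lb.r r1640 (@Lb.r r422 (@Lb.d (nat_lit 105) (nat_lit 73) (nat_lit 406) (@Lb.t (@Lb.fm (nat_lit 9) t51))))))))))))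
noncomputable def l19721 : Lb := (@Lb.r r70 (@Lb.d (nat_lit 130) (nat_lit 1) (nat_lit 64) (@Lb.g g8 (@Lb.g g9 (@Lb.g g11 (@Lb.r r1579 (@Lb.r r1410 (@Lb.r r1169 (@Lb.r r1060 (@Lb.d (nat_lit 153) (nat_lit 168) (nat_lit 648) (@Lb.t (@Lb.fm (nat_lit 9) t152))))))))))))
noncomputable def l19722 : Lb := (@Lb.d (nat_lit 338) (nat_lit 261) (nat_lit 662) (@Lb.r r2438 (@Lb.r r1620 (@Lb.r r425 (@Lb.g g11 (@Lb.g g6 (@Lb.g g5 (@Lb.g g4 (@Lb.d (nat_lit 1) (nat_lit 37) (nat_lit 388) (@Lb.fm (nat_lit 9) t1445))))))))))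
noncomputable def l19723 : Lb := (@Lb.d (nat_lit 0) (nat_lit 2) (nat_lit 130) (@Lb.g g9 (@Lb.g g10 (@Lb.g g11 (@Lb.r r683 (@Lb.r r1634 (@Lb.r r1572 (@Lb.r r1637 (@Lb.d (nat_lit 404) (nat_lit 165) (nat_lit 660) (@Lb.t (@Lb.fm (nat_lit 9) t3954)))))))))))
noncomputable def l19724 : Lb := (@Lb.d (nat_lit 0) (nat_lit 0) (nat_lit 130) (@Lb.g g4 (@Lb.g g9 (@Lb.g g10 (@Lb.g g11 (@Lb.r r2658 (@Lb.d (nat_lit 1) (nat_lit 89) (nat_lit 256) (@Lb.fm (nat_lit 9) t479))))))))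
noncomputable def l19725 : Lb := (@Lb.r r82 (@Lb.g g9 (@Lb.g g7 (@Lb.r r2407 (@Lb.r r602 (@Lb.r r293 (@Lb.r r24 (@Lb.d (nat_lit 256) (nat_lit 34) (nat_lit 160) (@Lb.fp (nat_lit 3) t2557)))))))))
noncomputable def l19726 : Lb := (@Lb.d (nat_lit 1) (nat_lit 266) (nat_lit 1) (@Lb.g g8 (@Lb.g g9 (@Lb.g g10 (@Lb.r r2731 (@Lb.r r1642 (@Lb.r r1561 (@Lb.r r2628 (@Lb.d (nat_lit 170) (nat_lit 133) (nat_lit 410) (@Lb.t (@Lb.fp (nat_lit 9) t3955)))))))))))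
noncomputable def l19727 : Lb := (@Lb.g g7 (@Lb.r r402 (@Lb.r r101 (@Lb.r r24 (@Lb.d (nat_lit 529) (nat_lit 0) (nat_lit 528) (@Lb.t (@Lb.fp (nat_lit 3) t505)))))))
noncomputable def l19728 : Lb := (@Lb.d (nat_lit 1) (nat_lit 0) (nat_lit 2) (@Lb.g g8 (@Lb.g g9 (@Lb.g g10 (@Lb.r r2731 (@Lb.r r1642 (@Lb.r r1561 (@Lb.r r2628 (@Lb.d (nat_lit 170) (nat_lit 133) (nat_lit 410) (@Lb.t (@Lb.fp (nat_lit 9) t3956)))))))))))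
noncomputable def l19729 : Lb := (@Lb.r r20 (@Lb.d (nat_lit 0) (nat_lit 9) (nat_lit 1) (@Lb.g g9 (@Lb.g g10 (@Lb.r r675 (@Lb.r r2658 (@Lb.r r2577 (@Lb.d (nat_lit 0) (nat_lit 169) (nat_lit 33) (@Lb.fp (nat_lit 3) t2001)))))))))
noncomputable def l19730 : Lb := (@Lb.d (nat_lit 2) (nat_lit 261) (nat_lit 74) (@Lb.g g8 (@Lb.g g9 (@Lb.g g10 (@Lb.g g11 (@Lb.r r419 (@Lb.r r578 (@Lb.r r424 (@Lb.r r297 (@Lb.r r2084 (@Lb.d (nat_lit 342) (nat_lit 8) (nat_lit 86) (@Lb.fp (nat_lit 9) t3815))))))))))))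
noncomputable def l19731 : Lb := (@Lb.d (nat_lit 6) (nat_lit 38) (nat_lit 129) (@Lb.r r24 (@Lb.r r2661 (@Lb.r r2659 (@Lb.r r406 (@Lb.g g7 (@Lb.g g5 (@Lb.g g4 (@Lb.d (nat_lit 1) (nat_lit 0) (nat_lit 64) (@Lb.t (@Lb.fp (nat_lit 9) t47)))))))))))
noncomputable def l19732 : Lb := (@Lb.r r580 (@Lb.r r593 (@Lb.d (nat_lit 32) (nat_lit 272) (nat_lit 642) (@Lb.g g10 (@Lb.g g11 (@Lb.r r344 (@Lb.r r1382 (@Lb.r r1637 (@Lb.d (nat_lit 613) (nat_lit 22) (nat_lit 70) (@Lb.fm (nat_lit 3) t547))))))))))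
noncomputable def l19733 : Lb := (@Lb.d (nat_lit 2) (nat_lit 346) (nat_lit 581) (@Lb.r r402 (@Lb.g g9 (@Lb.d (nat_lit 8) (nat_lit 9) (nat_lit 0) (@Lb.t (@Lb.fm (nat_lit 3) t3957))))))
noncomputable def l19734 : Lb := (@Lb.d (nat_lit 25) (nat_lit 593) (nat_lit 406) (@Lb.r r1361 (@Lb.r r102 (@Lb.r r551 (@Lb.r r2308 (@Lb.g g7 (@Lb.g g5 (@Lb.d (nat_lit 4) (nat_lit 0) (nat_lit 128) (@Lb.fp (nat_lit 3) t3958)))))))))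
noncomputable def l19735 : Lb := (@Lb.d (nat_lit 4) (nat_lit 261) (nat_lit 128) (@Lb.g g8 (@Lb.g g9 (@Lb.g g10 (@Lb.g g11 (@Lb.r r2666 (@Lb.r r579 (@Lb.r r104 (@Lb.r r2585 (@Lb.d (nat_lit 169) (nat_lit 169) (nat_lit 280) (@Lb.fp (nat_lit 9) t3959)))))))))))
noncomputable def l19736 : Lb := (@Lb.d (nat_lit 0) (nat_lit 100) (nat_lit 129) (@Lb.r r20 (@Lb.r r1633 (@Lb.r r2403 (@Lb.r r2706 (@Lb.g g11 (@Lb.t (@Lb.fp (nat_lit 3) t2001))))))))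
noncomputable def l19737 : Lb := (@Lb.d (nat_lit 2) (nat_lit 512) (nat_lit 64) (@Lb.g g8 (@Lb.g g11 (@Lb.r r2450 (@Lb.r r2659 (@Lb.r r1633 (@Lb.r r24 (@Lb.d (nat_lit 5) (nat_lit 85) (nat_lit 65) (@Lb.fm (nat_lit 3) t3960)))))))))
noncomputable def l19738 : Lb := (@Lb.d (nat_lit 2) (nat_lit 265) (nat_lit 66) (@Lb.g g8 (@Lb.g g9 (@Lb.g g10 (@Lb.g g11 (@Lb.r r2339 (@Lb.r r297 (@Lb.r r360 (@Lb.r r582 (@Lb.r r132 (@Lb.d (nat_lit 656) (nat_lit 5) (nat_lit 106) (@Lb.fp (nat_lit 9) t2399))))))))))))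
noncomputable def l19739 : Lb := (@Lb.d (nat_lit 2) (nat_lit 513) (nat_lit 64) (@Lb.g g8 (@Lb.g g9 (@Lb.g g11 (@Lb.r r296 (@Lb.r r1369 (@Lb.r r423 (@Lb.r r2178 (@Lb.r r516 (@Lb.d (nat_lit 549) (nat_lit 138) (nat_lit 644) (@Lb.t (@Lb.fm (nat_lit 9) t1624))))))))))))
noncomputable def l19740 : Lb := (@Lb.d (nat_lit 32) (nat_lit 265) (nat_lit 66) (@Lb.g g9 (@Lb.g g10 (@Lb.g g11 (@Lb.r r2339 (@Lb.r r293 (@Lb.r r328 (@Lb.r r662 (@Lb.d (nat_lit 646) (nat_lit 32) (nat_lit 97) (@Lb.t (@Lb.fp (nat_lit 9) t249)))))))))))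
noncomputable def l19741 : Lb := (@Lb.r r82 (@Lb.d (nat_lit 32) (nat_lit 545) (nat_lit 64) (@Lb.g g8 (@Lb.g g9 (@Lb.g g11 (@Lb.r r1571 (@Lb.r r582 (@Lb.r r1445 (@Lb.r r408 (@Lb.d (nat_lit 341) (nat_lit 144) (nat_lit 356) (@Lb.t (@Lb.fp (nat_lit 9) t541))))))))))))
noncomputable def l19742 : Lb := (@Lb.d (nat_lit 2) (nat_lit 521) (nat_lit 66) (@Lb.g g8 (@Lb.g g9 (@Lb.g g10 (@Lb.g g11 (@Lb.r r2339 (@Lb.r r297 (@Lb.r r360 (@Lb.r r582 (@Lb.r r132 (@Lb.d (nat_lit 658) (nat_lit 5) (nat_lit 106) (@Lb.fp (nat_lit 9) t249))))))))))))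
noncomputable def l19743 : Lb := (@Lb.d (nat_lit 554) (nat_lit 328) (nat_lit 34) (@Lb.r r2217 (@Lb.r r1174 (@Lb.r r1367 (@Lb.g g5 (@Lb.g g4 (@Lb.r r291 (@Lb.r r98 (@Lb.fm (nat_lit 3) t3961)))))))))
noncomputable def l19744 : Lb := (@Lb.r r323 (@Lb.d (nat_lit 130) (nat_lit 514) (nat_lit 2) (@Lb.g g8 (@Lb.g g9 (@Lb.g g10 (@Lb.r r1639 (@Lb.r r2193 (@Lb.r r2642 (@Lb.r r72 (@Lb.d (nat_lit 32) (nat_lit 106) (nat_lit 290) (@Lb.t (@Lb.fm (nat_lit 9) t3872))))))))))))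
noncomputable def l19745 : Lb := (@Lb.d (nat_lit 74) (nat_lit 534) (nat_lit 133) (@Lb.r r296 (@Lb.r r535 (@Lb.r r361 (@Lb.g g10 (@Lb.g g4 (@Lb.d (nat_lit 80) (nat_lit 8) (nat_lit 6) (@Lb.r r145 (@Lb.fm (nat_lit 3) t3874)))))))))
noncomputable def l19746 : Lb := (@Lb.d (nat_lit 74) (nat_lit 278) (nat_lit 421) (@Lb.r r296 (@Lb.r r535 (@Lb.r r1385 (@Lb.g g10 (@Lb.g g5 (@Lb.g g4 (@Lb.d (nat_lit 82) (nat_lit 9) (nat_lit 5) (@Lb.t (@Lb.fp (nat_lit 9) t3962))))))))))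
noncomputable def l19747 : Lb := (@Lb.d (nat_lit 74) (nat_lit 278) (nat_lit 64) (@Lb.r r296 (@Lb.r r535 (@Lb.r r361 (@Lb.g g10 (@Lb.g g4 (@Lb.d (nat_lit 82) (nat_lit 8) (nat_lit 6) (@Lb.r r145 (@Lb.fm (nat_lit 3) t3873)))))))))
noncomputable def l19748 : Lb := (@Lb.d (nat_lit 74) (nat_lit 22) (nat_lit 133) (@Lb.r r296 (@Lb.r r535 (@Lb.r r361 (@Lb.g g10 (@Lb.g g5 (@Lb.g g4 (@Lb.d (nat_lit 82) (nat_lit 8) (nat_lit 5) (@Lb.t (@Lb.fp (nat_lit 9) t3963))))))))))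
noncomputable def l19749 : Lb := (@Lb.d (nat_lit 74) (nat_lit 22) (nat_lit 133) (@Lb.r r296 (@Lb.r r535 (@Lb.r r361 (@Lb.g g10 (@Lb.g g4 (@Lb.d (nat_lit 82) (nat_lit 8) (nat_lit 6) (@Lb.r r145 (@Lb.fm (nat_lit 3) t3873)))))))))
noncomputable def l19750 : Lb := (@Lb.d (nat_lit 0) (nat_lit 5) (nat_lit 168) (@Lb.r r1635 (@Lb.r r601 (@Lb.r r2132 (@Lb.r r1162 (@Lb.g g5 (@Lb.g g4 (@Lb.d (nat_lit 1) (nat_lit 0) (nat_lit 0) (@Lb.fm (nat_lit 3) t249)))))))))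
noncomputable def l19751 : Lb := (@Lb.d (nat_lit 1) (nat_lit 517) (nat_lit 168) (@Lb.r r1635 (@Lb.r r601 (@Lb.r r2132 (@Lb.r r1162 (@Lb.g g5 (@Lb.g g4 (@Lb.d (nat_lit 1) (nat_lit 0) (nat_lit 0) (@Lb.fm (nat_lit 3) t249)))))))))
noncomputable def l19752 : Lb := (@Lb.d (nat_lit 9) (nat_lit 37) (nat_lit 10) (@Lb.g g8 (@Lb.g g9 (@Lb.g g10 (@Lb.g g11 (@Lb.r r427 (@Lb.r r1156 (@Lb.r r1174 (@Lb.d (nat_lit 681) (nat_lit 160) (nat_lit 586) (@Lb.fm (nat_lit 9) t31))))))))))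
noncomputable def l19753 : Lb := (@Lb.r r323 (@Lb.d (nat_lit 137) (nat_lit 0) (nat_lit 2) (@Lb.g g8 (@Lb.g g10 (@Lb.r r346 (@Lb.r r661 (@Lb.r r1559 (@Lb.r r2312 (@Lb.d (nat_lit 393) (nat_lit 128) (nat_lit 642) (@Lb.fm (nat_lit 3) t295))))))))))
noncomputable def l19754 : Lb := (@Lb.d (nat_lit 154) (nat_lit 0) (nat_lit 0) (@Lb.g g8 (@Lb.g g10 (@Lb.r r2661 (@Lb.r r359 (@Lb.r r1170 (@Lb.r r2632 (@Lb.d (nat_lit 356) (nat_lit 74) (nat_lit 290) (@Lb.fp (nat_lit 3) t524)))))))))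
noncomputable def l19755 : Lb := (@Lb.r r323 (@Lb.d (nat_lit 9) (nat_lit 1) (nat_lit 2) (@Lb.g g8 (@Lb.g g9 (@Lb.g g10 (@Lb.r r553 (@Lb.r r299 (@Lb.r r420 (@Lb.r r102 (@Lb.d (nat_lit 38) (nat_lit 133) (nat_lit 40) (@Lb.t (@Lb.fp (nat_lit 9) t126))))))))))))
noncomputable def l19756 : Lb := (@Lb.r r323 (@Lb.d (nat_lit 137) (nat_lit 256) (nat_lit 2) (@Lb.g g8 (@Lb.g g10 (@Lb.r r346 (@Lb.r r661 (@Lb.r r1431 (@Lb.r r2632 (@Lb.d (nat_lit 354) (nat_lit 129) (nat_lit 258) (@Lb.fp (nat_lit 3) t71))))))))))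
noncomputable def l19757 : Lb := (@Lb.d (nat_lit 154) (nat_lit 256) (nat_lit 64) (@Lb.g g8 (@Lb.g g10 (@Lb.g g11 (@Lb.r r2469 (@Lb.r r603 (@Lb.r r1170 (@Lb.r r2632 (@Lb.d (nat_lit 601) (nat_lit 133) (nat_lit 273) (@Lb.t (@Lb.fm (nat_lit 9) t524)))))))))))
noncomputable def l19758 : Lb := (@Lb.d (nat_lit 154) (nat_lit 256) (nat_lit 68) (@Lb.g g8 (@Lb.g g10 (@Lb.g g11 (@Lb.r r579 (@Lb.r r1109 (@Lb.r r1634 (@Lb.r r388 (@Lb.d (nat_lit 98) (nat_lit 138) (nat_lit 577) (@Lb.t (@Lb.fp (nat_lit 9) t50)))))))))))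
noncomputable def l19759 : Lb := (@Lb.d (nat_lit 0) (nat_lit 0) (nat_lit 130) (@Lb.g g4 (@Lb.g g10 (@Lb.g g11 (@Lb.r r1671 (@Lb.r r1158 (@Lb.d (nat_lit 274) (nat_lit 0) (nat_lit 145) (@Lb.t (@Lb.fp (nat_lit 9) t1025)))))))))
noncomputable def l19760 : Lb := (@Lb.r r323 (@Lb.d (nat_lit 9) (nat_lit 257) (nat_lit 2) (@Lb.g g8 (@Lb.g g9 (@Lb.g g10 (@Lb.r r553 (@Lb.r r299 (@Lb.r r420 (@Lb.r r102 (@Lb.d (nat_lit 37) (nat_lit 133) (nat_lit 40) (@Lb.t (@Lb.fp (nat_lit 9) t126))))))))))))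
noncomputable def l19761 : Lb := (@Lb.r r21 (@Lb.r r391 (@Lb.g g8 (@Lb.g g6 (@Lb.r r170 (@Lb.r r597 (@Lb.r r663 (@Lb.r r516 (@Lb.d (nat_lit 33) (nat_lit 512) (nat_lit 68) (@Lb.fp (nat_lit 3) t264))))))))))
noncomputable def l19762 : Lb := (@Lb.d (nat_lit 0) (nat_lit 4) (nat_lit 128) (@Lb.g g8 (@Lb.g g9 (@Lb.g g10 (@Lb.g g11 (@Lb.r r553 (@Lb.r r299 (@Lb.r r356 (@Lb.r r154 (@Lb.r r132 (@Lb.d (nat_lit 576) (nat_lit 10) (nat_lit 618) (@Lb.fp (nat_lit 9) t3229))))))))))))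
noncomputable def l19763 : Lb := (@Lb.d (nat_lit 4) (nat_lit 0) (nat_lit 10) (@Lb.g g8 (@Lb.g g10 (@Lb.g g11 (@Lb.r r643 (@Lb.r r402 (@Lb.r r2073 (@Lb.d (nat_lit 424) (nat_lit 153) (nat_lit 681) (@Lb.t (@Lb.fm (nat_lit 9) t3055))))))))))
noncomputable def l19764 : Lb := (@Lb.d (nat_lit 4) (nat_lit 256) (nat_lit 10) (@Lb.g g8 (@Lb.g g10 (@Lb.g g7 (@Lb.r r402 (@Lb.r r2073 (@Lb.d (nat_lit 646) (nat_lit 84) (nat_lit 520) (@Lb.t (@Lb.fm (nat_lit 9) t3055)))))))))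
noncomputable def l19765 : Lb := (@Lb.d (nat_lit 6) (nat_lit 256) (nat_lit 128) (@Lb.g g4 (@Lb.g g10 (@Lb.g g11 (@Lb.r r387 (@Lb.r r402 (@Lb.d (nat_lit 613) (nat_lit 6) (nat_lit 609) (@Lb.t (@Lb.fm (nat_lit 9) t1554)))))))))
noncomputable def l19766 : Lb := (@Lb.d (nat_lit 6) (nat_lit 292) (nat_lit 128) (@Lb.g g4 (@Lb.g g9 (@Lb.g g10 (@Lb.g g11 (@Lb.r r387 (@Lb.r r386 (@Lb.r r613 (@Lb.d (nat_lit 520) (nat_lit 25) (nat_lit 553) (@Lb.fm (nat_lit 9) t3964))))))))))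
noncomputable def l19767 : Lb := (@Lb.d (nat_lit 0) (nat_lit 656) (nat_lit 10) (@Lb.r r322 (@Lb.r r339 (@Lb.g g7 (@Lb.g g6 (@Lb.g g5 (@Lb.g g8 (@Lb.d (nat_lit 2) (nat_lit 129) (nat_lit 136) (@Lb.fm (nat_lit 9) t267)))))))))
noncomputable def l19768 : Lb := (@Lb.d (nat_lit 0) (nat_lit 292) (nat_lit 10) (@Lb.g g8 (@Lb.g g9 (@Lb.g g10 (@Lb.g g11 (@Lb.r r650 (@Lb.r r148 (@Lb.r r665 (@Lb.r r659 (@Lb.d (nat_lit 34) (nat_lit 32) (nat_lit 70) (@Lb.fp (nat_lit 9) t1548)))))))))))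
noncomputable def l19769 : Lb := (@Lb.d (nat_lit 584) (nat_lit 546) (nat_lit 5) (@Lb.r r68 (@Lb.r r154 (@Lb.r r660 (@Lb.r r2385 (@Lb.g g7 (@Lb.g g6 (@Lb.g g5 (@Lb.g g4 (@Lb.d (nat_lit 1) (nat_lit 0) (nat_lit 129) (@Lb.fm (nat_lit 9) t98)))))))))))
noncomputable def l19770 : Lb := (@Lb.d (nat_lit 0) (nat_lit 292) (nat_lit 10) (@Lb.g g8 (@Lb.g g9 (@Lb.g g10 (@Lb.g g11 (@Lb.r r643 (@Lb.r r386 (@Lb.r r296 (@Lb.r r1321 (@Lb.r r1060 (@Lb.d (nat_lit 644) (nat_lit 128) (nat_lit 72) (@Lb.fp (nat_lit 9) t3228))))))))))))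
noncomputable def l19771 : Lb := (@Lb.d (nat_lit 4) (nat_lit 0) (nat_lit 10) (@Lb.g g8 (@Lb.g g10 (@Lb.g g11 (@Lb.r r643 (@Lb.r r402 (@Lb.r r2073 (@Lb.d (nat_lit 425) (nat_lit 148) (nat_lit 680) (@Lb.t (@Lb.fm (nat_lit 9) t3227))))))))))
noncomputable def l19772 : Lb := (@Lb.r r21 (@Lb.d (nat_lit 17) (nat_lit 0) (nat_lit 10) (@Lb.g g8 (@Lb.g g10 (@Lb.g g7 (@Lb.r r402 (@Lb.r r1109 (@Lb.r r1064 (@Lb.d (nat_lit 409) (nat_lit 138) (nat_lit 656) (@Lb.t (@Lb.fp (nat_lit 9) t1502)))))))))))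
noncomputable def l19773 : Lb := (@Lb.d (nat_lit 129) (nat_lit 258) (nat_lit 64) (@Lb.g g8 (@Lb.g g9 (@Lb.g g10 (@Lb.g g11 (@Lb.r r2730 (@Lb.r r1419 (@Lb.r r1553 (@Lb.r r392 (@Lb.d (nat_lit 657) (nat_lit 97) (nat_lit 586) (@Lb.fp (nat_lit 9) t3965)))))))))))
noncomputable def l19774 : Lb := (@Lb.d (nat_lit 2) (nat_lit 258) (nat_lit 128) (@Lb.g g8 (@Lb.g g9 (@Lb.g g10 (@Lb.g g11 (@Lb.r r2730 (@Lb.r r1419 (@Lb.r r1553 (@Lb.r r1416 (@Lb.d (nat_lit 145) (nat_lit 97) (nat_lit 106) (@Lb.fp (nat_lit 9) t915)))))))))))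
noncomputable def l19775 : Lb := (@Lb.r r21 (@Lb.d (nat_lit 2) (nat_lit 512) (nat_lit 162) (@Lb.g g8 (@Lb.g g6 (@Lb.g g11 (@Lb.r r2635 (@Lb.r r145 (@Lb.r r2632 (@Lb.d (nat_lit 66) (nat_lit 10) (nat_lit 408) (@Lb.t (@Lb.fp (nat_lit 9) t777)))))))))))
noncomputable def l19776 : Lb := (@Lb.d (nat_lit 0) (nat_lit 5) (nat_lit 1) (@Lb.g g5 (@Lb.g g6 (@Lb.d (nat_lit 0) (nat_lit 5) (nat_lit 1) (@Lb.fm (nat_lit 3) t1219)))))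
noncomputable def l19777 : Lb := (@Lb.d (nat_lit 2) (nat_lit 514) (nat_lit 130) (@Lb.g g8 (@Lb.g g9 (@Lb.g g10 (@Lb.g g11 (@Lb.r r2467 (@Lb.r r168 (@Lb.r r426 (@Lb.r r1177 (@Lb.r r1156 (@Lb.d (nat_lit 586) (nat_lit 144) (nat_lit 522) (@Lb.fp (nat_lit 9) t3158))))))))))))
noncomputable def l19778 : Lb := (@Lb.d (nat_lit 2) (nat_lit 2) (nat_lit 130) (@Lb.g g8 (@Lb.g g9 (@Lb.g g10 (@Lb.g g11 (@Lb.r r427 (@Lb.r r420 (@Lb.r r102 (@Lb.r r21 (@Lb.r r36 (@Lb.d (nat_lit 514) (nat_lit 5) (nat_lit 33) (@Lb.fp (nat_lit 9) t221))))))))))))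
noncomputable def l19779 : Lb := (@Lb.r r323 (@Lb.d (nat_lit 130) (nat_lit 2) (nat_lit 34) (@Lb.g g8 (@Lb.g g9 (@Lb.g g10 (@Lb.r r2647 (@Lb.r r145 (@Lb.r r360 (@Lb.d (nat_lit 405) (nat_lit 37) (nat_lit 150) (@Lb.t (@Lb.fm (nat_lit 9) t791)))))))))))
noncomputable def l19780 : Lb := (@Lb.r r21 (@Lb.r r323 (@Lb.d (nat_lit 130) (nat_lit 264) (nat_lit 2) (@Lb.g g8 (@Lb.g g10 (@Lb.r r615 (@Lb.r r533 (@Lb.r r292 (@Lb.d (nat_lit 73) (nat_lit 41) (nat_lit 145) (@Lb.fp (nat_lit 3) t221))))))))))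
noncomputable def l19781 : Lb := (@Lb.d (nat_lit 513) (nat_lit 266) (nat_lit 74) (@Lb.r r24 (@Lb.r r613 (@Lb.r r402 (@Lb.g g11 (@Lb.g g6 (@Lb.d (nat_lit 0) (nat_lit 16) (nat_lit 328) (@Lb.r r529 (@Lb.fm (nat_lit 3) t1444)))))))))
noncomputable def l19782 : Lb := (@Lb.d (nat_lit 8) (nat_lit 33) (nat_lit 66) (@Lb.g g9 (@Lb.g g10 (@Lb.g g11 (@Lb.r r2411 (@Lb.r r386 (@Lb.r r408 (@Lb.r r533 (@Lb.d (nat_lit 346) (nat_lit 130) (nat_lit 533) (@Lb.t (@Lb.fm (nat_lit 9) t601)))))))))))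
noncomputable def l19783 : Lb := (@Lb.r r21 (@Lb.d (nat_lit 10) (nat_lit 264) (nat_lit 130) (@Lb.g g8 (@Lb.g g10 (@Lb.g g11 (@Lb.r r427 (@Lb.r r533 (@Lb.r r360 (@Lb.r r102 (@Lb.d (nat_lit 26) (nat_lit 145) (nat_lit 133) (@Lb.t (@Lb.fp (nat_lit 9) t51))))))))))))
noncomputable def l19784 : Lb := (@Lb.r r21 (@Lb.r r323 (@Lb.d (nat_lit 130) (nat_lit 520) (nat_lit 2) (@Lb.g g8 (@Lb.g g10 (@Lb.r r615 (@Lb.r r97 (@Lb.r r264 (@Lb.d (nat_lit 138) (nat_lit 130) (nat_lit 130) (@Lb.fp (nat_lit 3) t51))))))))))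
noncomputable def l19785 : Lb := (@Lb.r r322 (@Lb.d (nat_lit 0) (nat_lit 544) (nat_lit 128) (@Lb.g g11 (@Lb.r r24 (@Lb.r r357 (@Lb.r r146 (@Lb.d (nat_lit 74) (nat_lit 2) (nat_lit 145) (@Lb.t (@Lb.fm (nat_lit 3) t221)))))))))
noncomputable def l19786 : Lb := (@Lb.r r21 (@Lb.r r323 (@Lb.d (nat_lit 128) (nat_lit 520) (nat_lit 2) (@Lb.g g8 (@Lb.g g10 (@Lb.r r615 (@Lb.r r97 (@Lb.r r264 (@Lb.d (nat_lit 137) (nat_lit 130) (nat_lit 130) (@Lb.fp (nat_lit 3) t51))))))))))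
noncomputable def l19787 : Lb := (@Lb.r r323 (@Lb.d (nat_lit 8) (nat_lit 258) (nat_lit 2) (@Lb.g g9 (@Lb.g g10 (@Lb.r r102 (@Lb.r r404 (@Lb.r r683 (@Lb.r r673 (@Lb.d (nat_lit 10) (nat_lit 153) (nat_lit 9) (@Lb.fm (nat_lit 3) t51))))))))))
noncomputable def l19788 : Lb := (@Lb.r r338 (@Lb.d (nat_lit 2) (nat_lit 42) (nat_lit 128) (@Lb.g g8 (@Lb.g g9 (@Lb.g g11 (@Lb.r r1174 (@Lb.r r2645 (@Lb.d (nat_lit 2) (nat_lit 165) (nat_lit 613) (@Lb.t (@Lb.fp (nat_lit 9) t1444))))))))))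
noncomputable def l19789 : Lb := (@Lb.d (nat_lit 0) (nat_lit 514) (nat_lit 0) (@Lb.g g9 (@Lb.r r2339 (@Lb.r r2146 (@Lb.r r97 (@Lb.d (nat_lit 0) (nat_lit 68) (nat_lit 162) (@Lb.t (@Lb.fm (nat_lit 3) t3966))))))))
noncomputable def l19790 : Lb := (@Lb.d (nat_lit 0) (nat_lit 10) (nat_lit 72) (@Lb.g g9 (@Lb.g g10 (@Lb.g g11 (@Lb.r r1681 (@Lb.r r2706 (@Lb.d (nat_lit 0) (nat_lit 38) (nat_lit 408) (@Lb.t (@Lb.fp (nat_lit 9) t225)))))))))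
noncomputable def l19791 : Lb := (@Lb.r r323 (@Lb.d (nat_lit 2) (nat_lit 2) (nat_lit 2) (@Lb.g g8 (@Lb.g g9 (@Lb.g g10 (@Lb.r r362 (@Lb.r r387 (@Lb.r r25 (@Lb.d (nat_lit 392) (nat_lit 66) (nat_lit 330) (@Lb.t (@Lb.fm (nat_lit 9) t672)))))))))))
noncomputable def l19792 : Lb := (@Lb.r r323 (@Lb.d (nat_lit 2) (nat_lit 288) (nat_lit 2) (@Lb.g g8 (@Lb.g g9 (@Lb.g g10 (@Lb.r r2647 (@Lb.r r74 (@Lb.r r1313 (@Lb.d (nat_lit 545) (nat_lit 169) (nat_lit 38) (@Lb.t (@Lb.fm (nat_lit 9) t221)))))))))))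
noncomputable def l19793 : Lb := (@Lb.d (nat_lit 0) (nat_lit 292) (nat_lit 64) (@Lb.g g9 (@Lb.g g10 (@Lb.g g11 (@Lb.r r419 (@Lb.r r1173 (@Lb.r r2408 (@Lb.r r1606 (@Lb.d (nat_lit 129) (nat_lit 0) (nat_lit 356) (@Lb.t (@Lb.fp (nat_lit 9) t355)))))))))))
noncomputable def l19794 : Lb := (@Lb.r r323 (@Lb.d (nat_lit 128) (nat_lit 40) (nat_lit 34) (@Lb.g g8 (@Lb.g g9 (@Lb.g g10 (@Lb.r r583 (@Lb.r r2452 (@Lb.r r1129 (@Lb.d (nat_lit 293) (nat_lit 164) (nat_lit 37) (@Lb.t (@Lb.fm (nat_lit 9) t573)))))))))))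
noncomputable def l19795 : Lb := (@Lb.r r323 (@Lb.d (nat_lit 130) (nat_lit 552) (nat_lit 34) (@Lb.g g8 (@Lb.g g9 (@Lb.g g10 (@Lb.r r583 (@Lb.r r2452 (@Lb.r r1129 (@Lb.d (nat_lit 293) (nat_lit 164) (nat_lit 160) (@Lb.t (@Lb.fm (nat_lit 9) t573)))))))))))
noncomputable def l19796 : Lb := (@Lb.r r21 (@Lb.d (nat_lit 129) (nat_lit 256) (nat_lit 132) (@Lb.g g8 (@Lb.g g10 (@Lb.g g11 (@Lb.r r1691 (@Lb.r r617 (@Lb.r r662 (@Lb.r r1368 (@Lb.d (nat_lit 417) (nat_lit 33) (nat_lit 106) (@Lb.t (@Lb.fm (nat_lit 9) t3967))))))))))))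
noncomputable def l19797 : Lb := (@Lb.r r323 (@Lb.d (nat_lit 128) (nat_lit 296) (nat_lit 34) (@Lb.g g8 (@Lb.g g9 (@Lb.g g10 (@Lb.r r583 (@Lb.r r2452 (@Lb.r r1129 (@Lb.d (nat_lit 293) (nat_lit 164) (nat_lit 160) (@Lb.t (@Lb.fm (nat_lit 9) t573)))))))))))
noncomputable def l19798 : Lb := (@Lb.r r21 (@Lb.r r323 (@Lb.d (nat_lit 6) (nat_lit 4) (nat_lit 2) (@Lb.g g8 (@Lb.g g10 (@Lb.r r409 (@Lb.r r683 (@Lb.r r650 (@Lb.d (nat_lit 134) (nat_lit 1) (nat_lit 64) (@Lb.fm (nat_lit 3) t61))))))))))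
noncomputable def l19799 : Lb := (@Lb.d (nat_lit 282) (nat_lit 8) (nat_lit 2) (@Lb.g g8 (@Lb.g g9 (@Lb.g g10 (@Lb.r r2731 (@Lb.r r1642 (@Lb.r r25 (@Lb.d (nat_lit 9) (nat_lit 153) (nat_lit 9) (@Lb.t (@Lb.fp (nat_lit 9) t1129))))))))))
noncomputable def l19800 : Lb := (@Lb.g g5 (@Lb.g g7 (@Lb.r r584 (@Lb.r r619 (@Lb.r r2665 (@Lb.r r86 (@Lb.r r1188 (@Lb.d (nat_lit 5) (nat_lit 513) (nat_lit 149) (@Lb.fp (nat_lit 3) t2)))))))))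
noncomputable def l19801 : Lb := (@Lb.r r21 (@Lb.d (nat_lit 16) (nat_lit 256) (nat_lit 128) (@Lb.g g8 (@Lb.g g10 (@Lb.g g11 (@Lb.r r2711 (@Lb.r r1384 (@Lb.r r2390 (@Lb.r r97 (@Lb.d (nat_lit 617) (nat_lit 66) (nat_lit 660) (@Lb.t (@Lb.fp (nat_lit 9) t355))))))))))))
noncomputable def l19802 : Lb := (@Lb.g g9 (@Lb.r r24 (@Lb.r r101 (@Lb.r r402 (@Lb.d (nat_lit 0) (nat_lit 129) (nat_lit 66) (@Lb.t (@Lb.fm (nat_lit 3) t452)))))))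
noncomputable def l19803 : Lb := (@Lb.d (nat_lit 273) (nat_lit 512) (nat_lit 34) (@Lb.r r24 (@Lb.r r101 (@Lb.g g11 (@Lb.g g6 (@Lb.d (nat_lit 0) (nat_lit 4) (nat_lit 1) (@Lb.fp (nat_lit 3) t108)))))))
noncomputable def l19804 : Lb := (@Lb.r r323 (@Lb.d (nat_lit 0) (nat_lit 521) (nat_lit 2) (@Lb.g g9 (@Lb.g g10 (@Lb.r r2402 (@Lb.r r387 (@Lb.r r97 (@Lb.d (nat_lit 0) (nat_lit 144) (nat_lit 614) (@Lb.fp (nat_lit 3) t8)))))))))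
noncomputable def l19805 : Lb := (@Lb.d (nat_lit 298) (nat_lit 517) (nat_lit 613) (@Lb.r r150 (@Lb.r r72 (@Lb.r r293 (@Lb.r r2395 (@Lb.g g7 (@Lb.g g6 (@Lb.g g5 (@Lb.d (nat_lit 16) (nat_lit 1) (nat_lit 65) (@Lb.t (@Lb.fm (nat_lit 9) t1278)))))))))))
noncomputable def l19806 : Lb := (@Lb.d (nat_lit 146) (nat_lit 9) (nat_lit 132) (@Lb.g g8 (@Lb.g g9 (@Lb.g g10 (@Lb.g g11 (@Lb.r r683 (@Lb.r r618 (@Lb.r r1561 (@Lb.r r1540 (@Lb.d (nat_lit 392) (nat_lit 73) (nat_lit 673) (@Lb.fm (nat_lit 9) t1264)))))))))))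
noncomputable def l19807 : Lb := (@Lb.r r612 (@Lb.r r359 (@Lb.r r2178 (@Lb.r r405 (@Lb.r r2596 (@Lb.d (nat_lit 4) (nat_lit 64) (nat_lit 101) (@Lb.fm (nat_lit 1) t2794)))))))
noncomputable def l19808 : Lb := (@Lb.d (nat_lit 4) (nat_lit 512) (nat_lit 2) (@Lb.g g8 (@Lb.g g9 (@Lb.g g10 (@Lb.r r683 (@Lb.r r2666 (@Lb.r r2585 (@Lb.d (nat_lit 330) (nat_lit 164) (nat_lit 160) (@Lb.t (@Lb.fp (nat_lit 9) t324))))))))))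
noncomputable def l19809 : Lb := (@Lb.r r338 (@Lb.d (nat_lit 34) (nat_lit 256) (nat_lit 648) (@Lb.g g8 (@Lb.g g9 (@Lb.g g11 (@Lb.r r1442 (@Lb.r r1321 (@Lb.r r360 (@Lb.d (nat_lit 36) (nat_lit 37) (nat_lit 597) (@Lb.t (@Lb.fp (nat_lit 9) t1312)))))))))))
noncomputable def l19810 : Lb := (@Lb.d (nat_lit 144) (nat_lit 26) (nat_lit 73) (@Lb.g g8 (@Lb.g g9 (@Lb.g g10 (@Lb.g g11 (@Lb.r r427 (@Lb.r r1634 (@Lb.r r549 (@Lb.r r2312 (@Lb.d (nat_lit 548) (nat_lit 165) (nat_lit 340) (@Lb.fp (nat_lit 9) t3968)))))))))))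
noncomputable def l19811 : Lb := (@Lb.r r331 (@Lb.d (nat_lit 129) (nat_lit 517) (nat_lit 40) (@Lb.g g8 (@Lb.g g9 (@Lb.g g10 (@Lb.r r2643 (@Lb.r r549 (@Lb.r r1560 (@Lb.d (nat_lit 522) (nat_lit 105) (nat_lit 165) (@Lb.t (@Lb.fp (nat_lit 9) t1976)))))))))))
noncomputable def l19812 : Lb := (@Lb.d (nat_lit 2) (nat_lit 0) (nat_lit 66) (@Lb.g g8 (@Lb.g g9 (@Lb.g g10 (@Lb.g g11 (@Lb.r r164 (@Lb.r r2709 (@Lb.r r407 (@Lb.r r1430 (@Lb.r r1060 (@Lb.d (nat_lit 162) (nat_lit 5) (nat_lit 618) (@Lb.fm (nat_lit 9) t3065))))))))))))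
noncomputable def l19813 : Lb := (@Lb.d (nat_lit 2) (nat_lit 69) (nat_lit 361) (@Lb.r r1317 (@Lb.r r2395 (@Lb.r r614 (@Lb.g g7 (@Lb.g g8 (@Lb.d (nat_lit 9) (nat_lit 0) (nat_lit 64) (@Lb.fm (nat_lit 3) t3969))))))))
noncomputable def l19814 : Lb := (@Lb.d (nat_lit 134) (nat_lit 273) (nat_lit 68) (@Lb.g g8 (@Lb.g g9 (@Lb.g g10 (@Lb.g g11 (@Lb.r r683 (@Lb.r r2406 (@Lb.r r2325 (@Lb.r r536 (@Lb.d (nat_lit 338) (nat_lit 36) (nat_lit 161) (@Lb.fp (nat_lit 9) t211)))))))))))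
noncomputable def l19815 : Lb := (@Lb.d (nat_lit 2) (nat_lit 514) (nat_lit 2) (@Lb.g g8 (@Lb.g g9 (@Lb.g g10 (@Lb.g g11 (@Lb.r r1699 (@Lb.r r2705 (@Lb.r r612 (@Lb.r r666 (@Lb.r r1156 (@Lb.d (nat_lit 329) (nat_lit 33) (nat_lit 138) (@Lb.fp (nat_lit 9) t172))))))))))))
noncomputable def l19816 : Lb := (@Lb.d (nat_lit 2) (nat_lit 260) (nat_lit 0) (@Lb.g g8 (@Lb.g g9 (@Lb.g g10 (@Lb.g g11 (@Lb.r r1699 (@Lb.r r2705 (@Lb.r r612 (@Lb.r r666 (@Lb.r r1156 (@Lb.d (nat_lit 329) (nat_lit 33) (nat_lit 138) (@Lb.fp (nat_lit 9) t924))))))))))))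
noncomputable def l19817 : Lb := (@Lb.r r323 (@Lb.d (nat_lit 0) (nat_lit 277) (nat_lit 6) (@Lb.g g9 (@Lb.g g6 (@Lb.r r1698 (@Lb.r r387 (@Lb.r r2209 (@Lb.fp (nat_lit 3) t89))))))))
noncomputable def l19818 : Lb := (@Lb.r r323 (@Lb.d (nat_lit 0) (nat_lit 4) (nat_lit 0) (@Lb.g g9 (@Lb.g g10 (@Lb.r r1698 (@Lb.r r387 (@Lb.r r145 (@Lb.d (nat_lit 0) (nat_lit 154) (nat_lit 514) (@Lb.fp (nat_lit 3) t144)))))))))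
noncomputable def l19819 : Lb := (@Lb.d (nat_lit 0) (nat_lit 529) (nat_lit 2) (@Lb.g g9 (@Lb.g g10 (@Lb.g g11 (@Lb.r r2387 (@Lb.r r386 (@Lb.r r2209 (@Lb.d (nat_lit 0) (nat_lit 89) (nat_lit 597) (@Lb.t (@Lb.fm (nat_lit 9) t89))))))))))
noncomputable def l19820 : Lb := (@Lb.r r323 (@Lb.d (nat_lit 2) (nat_lit 514) (nat_lit 0) (@Lb.g g8 (@Lb.g g9 (@Lb.g g10 (@Lb.r r2459 (@Lb.r r297 (@Lb.r r1384 (@Lb.r r2630 (@Lb.d (nat_lit 5) (nat_lit 65) (nat_lit 68) (@Lb.t (@Lb.fm (nat_lit 9) t91))))))))))))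
noncomputable def l19821 : Lb := (@Lb.r r82 (@Lb.d (nat_lit 0) (nat_lit 0) (nat_lit 580) (@Lb.g g9 (@Lb.g g7 (@Lb.r r422 (@Lb.r r596 (@Lb.r r297 (@Lb.d (nat_lit 262) (nat_lit 34) (nat_lit 0) (@Lb.fp (nat_lit 3) t1159)))))))))
noncomputable def l19822 : Lb := (@Lb.d (nat_lit 0) (nat_lit 514) (nat_lit 64) (@Lb.g g9 (@Lb.g g10 (@Lb.g g7 (@Lb.r r2438 (@Lb.r r97 (@Lb.r r24 (@Lb.d (nat_lit 152) (nat_lit 21) (nat_lit 537) (@Lb.t (@Lb.fm (nat_lit 9) t3970))))))))))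
noncomputable def l19823 : Lb := (@Lb.d (nat_lit 1) (nat_lit 10) (nat_lit 616) (@Lb.r r330 (@Lb.r r360 (@Lb.r r1065 (@Lb.r r1571 (@Lb.g g6 (@Lb.g g5 (@Lb.g g4 (@Lb.d (nat_lit 4) (nat_lit 1) (nat_lit 5) (@Lb.t (@Lb.fm (nat_lit 9) t3971)))))))))))
noncomputable def l19824 : Lb := (@Lb.d (nat_lit 0) (nat_lit 512) (nat_lit 66) (@Lb.g g9 (@Lb.g g10 (@Lb.g g7 (@Lb.r r2470 (@Lb.r r2136 (@Lb.r r1061 (@Lb.d (nat_lit 136) (nat_lit 130) (nat_lit 256) (@Lb.t (@Lb.fm (nat_lit 9) t145))))))))))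
noncomputable def l19825 : Lb := (@Lb.r r323 (@Lb.d (nat_lit 0) (nat_lit 36) (nat_lit 38) (@Lb.g g9 (@Lb.g g6 (@Lb.r r403 (@Lb.r r601 (@Lb.r r24 (@Lb.d (nat_lit 593) (nat_lit 0) (nat_lit 385) (@Lb.fm (nat_lit 3) t860)))))))))
noncomputable def l19826 : Lb := (@Lb.d (nat_lit 618) (nat_lit 325) (nat_lit 352) (@Lb.r r1637 (@Lb.r r2328 (@Lb.r r2386 (@Lb.r r1703 (@Lb.g g7 (@Lb.g g6 (@Lb.g g5 (@Lb.d (nat_lit 4) (nat_lit 18) (nat_lit 129) (@Lb.t (@Lb.fm (nat_lit 9) t501)))))))))))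
noncomputable def l19827 : Lb := (@Lb.d (nat_lit 345) (nat_lit 168) (nat_lit 612) (@Lb.r r2645 (@Lb.r r1320 (@Lb.r r322 (@Lb.r r2691 (@Lb.g g7 (@Lb.g g6 (@Lb.g g5 (@Lb.d (nat_lit 0) (nat_lit 1) (nat_lit 65) (@Lb.t (@Lb.fp (nat_lit 9) t898)))))))))))
noncomputable def l19828 : Lb := (@Lb.r r21 (@Lb.d (nat_lit 2) (nat_lit 256) (nat_lit 130) (@Lb.g g8 (@Lb.g g10 (@Lb.g g11 (@Lb.r r683 (@Lb.r r2184 (@Lb.r r2458 (@Lb.r r1553 (@Lb.d (nat_lit 24) (nat_lit 154) (nat_lit 265) (@Lb.t (@Lb.fp (nat_lit 9) t1195))))))))))))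
noncomputable def l19829 : Lb := (@Lb.d (nat_lit 1) (nat_lit 2) (nat_lit 73) (@Lb.g g8 (@Lb.g g9 (@Lb.g g10 (@Lb.g g11 (@Lb.r r1706 (@Lb.r r648 (@Lb.r r1563 (@Lb.r r2337 (@Lb.r r36 (@Lb.d (nat_lit 640) (nat_lit 100) (nat_lit 65) (@Lb.fp (nat_lit 9) t242))))))))))))
noncomputable def l19830 : Lb := (@Lb.r r21 (@Lb.d (nat_lit 2) (nat_lit 512) (nat_lit 130) (@Lb.g g8 (@Lb.g g10 (@Lb.g g11 (@Lb.r r683 (@Lb.r r2184 (@Lb.r r2458 (@Lb.r r1553 (@Lb.d (nat_lit 22) (nat_lit 153) (nat_lit 265) (@Lb.t (@Lb.fp (nat_lit 9) t1195))))))))))))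
noncomputable def l19831 : Lb := (@Lb.r r82 (@Lb.d (nat_lit 0) (nat_lit 545) (nat_lit 64) (@Lb.g g4 (@Lb.g g9 (@Lb.g g11 (@Lb.r r1639 (@Lb.r r2450 (@Lb.r r1625 (@Lb.d (nat_lit 132) (nat_lit 166) (nat_lit 664) (@Lb.t (@Lb.fp (nat_lit 9) t218)))))))))))
noncomputable def l19832 : Lb := (@Lb.d (nat_lit 2) (nat_lit 2) (nat_lit 9) (@Lb.g g8 (@Lb.g g9 (@Lb.g g10 (@Lb.g g7 (@Lb.r r386 (@Lb.r r97 (@Lb.r r24 (@Lb.d (nat_lit 0) (nat_lit 10) (nat_lit 137) (@Lb.fp (nat_lit 9) t40))))))))))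
noncomputable def l19833 : Lb := (@Lb.d (nat_lit 82) (nat_lit 321) (nat_lit 337) (@Lb.r r1637 (@Lb.r r2328 (@Lb.r r1366 (@Lb.r r2723 (@Lb.g g7 (@Lb.g g6 (@Lb.g g5 (@Lb.d (nat_lit 0) (nat_lit 24) (nat_lit 129) (@Lb.t (@Lb.fm (nat_lit 9) t3972)))))))))))
noncomputable def l19834 : Lb := (@Lb.d (nat_lit 130) (nat_lit 513) (nat_lit 8) (@Lb.g g8 (@Lb.g g9 (@Lb.g g10 (@Lb.r r279 (@Lb.r r1641 (@Lb.r r1106 (@Lb.r r1604 (@Lb.d (nat_lit 145) (nat_lit 130) (nat_lit 616) (@Lb.t (@Lb.fp (nat_lit 9) t322)))))))))))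
noncomputable def l19835 : Lb := (@Lb.r r402 (@Lb.r r101 (@Lb.r r24 (@Lb.d (nat_lit 613) (nat_lit 518) (nat_lit 16) (@Lb.fm (nat_lit 1) t145)))))
noncomputable def l19836 : Lb := (@Lb.r r326 (@Lb.r r664 (@Lb.r r411 (@Lb.r r533 (@Lb.r r36 (@Lb.d (nat_lit 0) (nat_lit 128) (nat_lit 256) (@Lb.fm (nat_lit 1) t242)))))))
noncomputable def l19837 : Lb := (@Lb.r r82 (@Lb.r r275 (@Lb.d (nat_lit 2) (nat_lit 258) (nat_lit 0) (@Lb.g g8 (@Lb.g g9 (@Lb.r r362 (@Lb.r r353 (@Lb.r r411 (@Lb.d (nat_lit 64) (nat_lit 128) (nat_lit 320) (@Lb.fp (nat_lit 3) t3686))))))))))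
noncomputable def l19838 : Lb := (@Lb.d (nat_lit 0) (nat_lit 34) (nat_lit 0) (@Lb.g g9 (@Lb.r r1619 (@Lb.r r1414 (@Lb.r r1096 (@Lb.d (nat_lit 256) (nat_lit 2) (nat_lit 0) (@Lb.t (@Lb.fm (nat_lit 3) t468))))))))
noncomputable def l19839 : Lb := (@Lb.r r81 (@Lb.d (nat_lit 33) (nat_lit 36) (nat_lit 128) (@Lb.g g8 (@Lb.g g6 (@Lb.g g11 (@Lb.r r105 (@Lb.r r612 (@Lb.r r263 (@Lb.d (nat_lit 66) (nat_lit 26) (nat_lit 88) (@Lb.t (@Lb.fm (nat_lit 9) t150)))))))))))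
noncomputable def l19840 : Lb := (@Lb.d (nat_lit 149) (nat_lit 418) (nat_lit 169) (@Lb.r r289 (@Lb.r r70 (@Lb.r r420 (@Lb.g g11 (@Lb.g g6 (@Lb.d (nat_lit 16) (nat_lit 0) (nat_lit 129) (@Lb.fm (nat_lit 3) t128))))))))
noncomputable def l19841 : Lb := (@Lb.d (nat_lit 1) (nat_lit 258) (nat_lit 130) (@Lb.g g8 (@Lb.g g9 (@Lb.g g10 (@Lb.g g11 (@Lb.r r1130 (@Lb.r r356 (@Lb.r r411 (@Lb.r r1045 (@Lb.r r2084 (@Lb.d (nat_lit 609) (nat_lit 90) (nat_lit 601) (@Lb.fp (nat_lit 9) t1741))))))))))))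
noncomputable def l19842 : Lb := (@Lb.r r323 (@Lb.d (nat_lit 32) (nat_lit 34) (nat_lit 2) (@Lb.g g5 (@Lb.g g10 (@Lb.r r299 (@Lb.r r1096 (@Lb.r r2438 (@Lb.d (nat_lit 586) (nat_lit 0) (nat_lit 664) (@Lb.fp (nat_lit 3) t87)))))))))
noncomputable def l19843 : Lb := (@Lb.d (nat_lit 0) (nat_lit 16) (nat_lit 265) (@Lb.g g10 (@Lb.g g7 (@Lb.r r2466 (@Lb.d (nat_lit 0) (nat_lit 170) (nat_lit 538) (@Lb.fm (nat_lit 3) t660))))))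
noncomputable def l19844 : Lb := (@Lb.d (nat_lit 136) (nat_lit 512) (nat_lit 66) (@Lb.g g9 (@Lb.g g10 (@Lb.g g11 (@Lb.r r1606 (@Lb.r r1112 (@Lb.r r2389 (@Lb.r r611 (@Lb.d (nat_lit 129) (nat_lit 89) (nat_lit 422) (@Lb.t (@Lb.fm (nat_lit 9) t3300)))))))))))
noncomputable def l19845 : Lb := (@Lb.d (nat_lit 130) (nat_lit 18) (nat_lit 10) (@Lb.g g8 (@Lb.g g5 (@Lb.g g10 (@Lb.r r263 (@Lb.r r584 (@Lb.r r150 (@Lb.d (nat_lit 2) (nat_lit 37) (nat_lit 22) (@Lb.t (@Lb.fp (nat_lit 9) t87))))))))))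
noncomputable def l19846 : Lb := (@Lb.d (nat_lit 6) (nat_lit 0) (nat_lit 130) (@Lb.g g8 (@Lb.g g9 (@Lb.g g10 (@Lb.g g11 (@Lb.r r276 (@Lb.r r2587 (@Lb.r r1429 (@Lb.r r2390 (@Lb.r r1700 (@Lb.d (nat_lit 9) (nat_lit 2) (nat_lit 153) (@Lb.fm (nat_lit 9) t2))))))))))))
noncomputable def l19847 : Lb := (@Lb.d (nat_lit 24) (nat_lit 85) (nat_lit 162) (@Lb.r r1384 (@Lb.r r150 (@Lb.r r361 (@Lb.g g11 (@Lb.g g5 (@Lb.g g4 (@Lb.d (nat_lit 17) (nat_lit 1) (nat_lit 384) (@Lb.r r578 (@Lb.t (@Lb.fp (nat_lit 9) t1444)))))))))))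
noncomputable def l19848 : Lb := (@Lb.d (nat_lit 8) (nat_lit 522) (nat_lit 128) (@Lb.g g9 (@Lb.g g11 (@Lb.r r402 (@Lb.r r584 (@Lb.r r2411 (@Lb.r r2401 (@Lb.d (nat_lit 10) (nat_lit 169) (nat_lit 678) (@Lb.fp (nat_lit 3) t825)))))))))
noncomputable def l19849 : Lb := (@Lb.d (nat_lit 9) (nat_lit 6) (nat_lit 74) (@Lb.g g8 (@Lb.g g9 (@Lb.g g10 (@Lb.g g11 (@Lb.r r1699 (@Lb.r r164 (@Lb.r r2709 (@Lb.r r2198 (@Lb.r r2084 (@Lb.d (nat_lit 289) (nat_lit 162) (nat_lit 361) (@Lb.fp (nat_lit 9) t2095))))))))))))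
noncomputable def l19850 : Lb := (@Lb.r r82 (@Lb.d (nat_lit 2) (nat_lit 545) (nat_lit 64) (@Lb.g g8 (@Lb.g g9 (@Lb.g g11 (@Lb.r r1698 (@Lb.r r2601 (@Lb.r r1640 (@Lb.r r587 (@Lb.d (nat_lit 385) (nat_lit 162) (nat_lit 598) (@Lb.t (@Lb.fm (nat_lit 9) t2095))))))))))))
noncomputable def l19851 : Lb := (@Lb.d (nat_lit 261) (nat_lit 134) (nat_lit 534) (@Lb.r r21 (@Lb.r r2152 (@Lb.r r1410 (@Lb.g g11 (@Lb.g g6 (@Lb.g g5 (@Lb.g g4 (@Lb.d (nat_lit 32) (nat_lit 1) (nat_lit 128) (@Lb.fm (nat_lit 9) t284))))))))))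
noncomputable def l19852 : Lb := (@Lb.d (nat_lit 256) (nat_lit 645) (nat_lit 534) (@Lb.r r21 (@Lb.r r2152 (@Lb.r r1410 (@Lb.g g11 (@Lb.g g6 (@Lb.g g5 (@Lb.g g4 (@Lb.d (nat_lit 42) (nat_lit 0) (nat_lit 128) (@Lb.fm (nat_lit 9) t284))))))))))
noncomputable def l19853 : Lb := (@Lb.r r82 (@Lb.d (nat_lit 2) (nat_lit 256) (nat_lit 64) (@Lb.g g8 (@Lb.g g9 (@Lb.g g11 (@Lb.r r618 (@Lb.r r609 (@Lb.r r1315 (@Lb.d (nat_lit 354) (nat_lit 17) (nat_lit 642) (@Lb.t (@Lb.fp (nat_lit 9) t1161)))))))))))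
noncomputable def l19854 : Lb := (@Lb.d (nat_lit 101) (nat_lit 613) (nat_lit 6) (@Lb.r r101 (@Lb.r r386 (@Lb.r r339 (@Lb.g g7 (@Lb.g g6 (@Lb.d (nat_lit 0) (nat_lit 0) (nat_lit 65) (@Lb.fm (nat_lit 3) t50))))))))
noncomputable def l19855 : Lb := (@Lb.d (nat_lit 106) (nat_lit 358) (nat_lit 6) (@Lb.r r101 (@Lb.r r386 (@Lb.r r339 (@Lb.g g7 (@Lb.g g6 (@Lb.d (nat_lit 0) (nat_lit 0) (nat_lit 65) (@Lb.fm (nat_lit 3) t50))))))))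
noncomputable def l19856 : Lb := (@Lb.d (nat_lit 101) (nat_lit 646) (nat_lit 641) (@Lb.r r289 (@Lb.r r362 (@Lb.r r72 (@Lb.g g11 (@Lb.g g6 (@Lb.d (nat_lit 16) (nat_lit 0) (nat_lit 1) (@Lb.fp (nat_lit 3) t501))))))))
noncomputable def l19857 : Lb := (@Lb.d (nat_lit 0) (nat_lit 258) (nat_lit 34) (@Lb.r r609 (@Lb.r r363 (@Lb.r r328 (@Lb.g g10 (@Lb.g g5 (@Lb.d (nat_lit 32) (nat_lit 0) (nat_lit 1) (@Lb.fp (nat_lit 3) t42))))))))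
noncomputable def l19858 : Lb := (@Lb.d (nat_lit 0) (nat_lit 514) (nat_lit 34) (@Lb.r r609 (@Lb.r r363 (@Lb.r r328 (@Lb.g g10 (@Lb.d (nat_lit 32) (nat_lit 0) (nat_lit 1) (@Lb.t (@Lb.fp (nat_lit 3) t42))))))))
noncomputable def l19859 : Lb := (@Lb.d (nat_lit 2) (nat_lit 258) (nat_lit 66) (@Lb.g g8 (@Lb.g g9 (@Lb.g g10 (@Lb.g g11 (@Lb.r r420 (@Lb.r r603 (@Lb.r r1429 (@Lb.r r1110 (@Lb.r r2212 (@Lb.d (nat_lit 262) (nat_lit 130) (nat_lit 144) (@Lb.fm (nat_lit 9) t2))))))))))))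
noncomputable def l19860 : Lb := (@Lb.d (nat_lit 9) (nat_lit 33) (nat_lit 2) (@Lb.g g8 (@Lb.g g9 (@Lb.g g10 (@Lb.r r1194 (@Lb.r r2468 (@Lb.r r1627 (@Lb.r r1445 (@Lb.d (nat_lit 352) (nat_lit 38) (nat_lit 330) (@Lb.t (@Lb.fp (nat_lit 9) t994)))))))))))
noncomputable def l19861 : Lb := (@Lb.d (nat_lit 144) (nat_lit 512) (nat_lit 106) (@Lb.g g10 (@Lb.g g11 (@Lb.r r24 (@Lb.r r357 (@Lb.r r659 (@Lb.d (nat_lit 0) (nat_lit 70) (nat_lit 516) (@Lb.fp (nat_lit 3) t242))))))))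
noncomputable def l19862 : Lb := (@Lb.d (nat_lit 548) (nat_lit 322) (nat_lit 580) (@Lb.r r1092 (@Lb.r r1114 (@Lb.r r596 (@Lb.r r2391 (@Lb.g g7 (@Lb.g g6 (@Lb.g g5 (@Lb.g g4 (@Lb.d (nat_lit 97) (nat_lit 65) (nat_lit 5) (@Lb.fp (nat_lit 9) t580)))))))))))
noncomputable def l19863 : Lb := (@Lb.d (nat_lit 4) (nat_lit 512) (nat_lit 73) (@Lb.g g8 (@Lb.g g9 (@Lb.g g10 (@Lb.g g11 (@Lb.r r2691 (@Lb.r r297 (@Lb.r r360 (@Lb.r r582 (@Lb.r r2180 (@Lb.d (nat_lit 641) (nat_lit 0) (nat_lit 330) (@Lb.fm (nat_lit 9) t242))))))))))))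
noncomputable def l19864 : Lb := (@Lb.d (nat_lit 6) (nat_lit 0) (nat_lit 73) (@Lb.g g8 (@Lb.g g9 (@Lb.g g10 (@Lb.g g11 (@Lb.r r1706 (@Lb.r r648 (@Lb.r r1563 (@Lb.r r2337 (@Lb.r r36 (@Lb.d (nat_lit 641) (nat_lit 105) (nat_lit 66) (@Lb.fp (nat_lit 9) t242))))))))))))
noncomputable def l19865 : Lb := (@Lb.d (nat_lit 2) (nat_lit 258) (nat_lit 130) (@Lb.g g8 (@Lb.g g9 (@Lb.g g10 (@Lb.g g11 (@Lb.r r2729 (@Lb.r r2475 (@Lb.r r2468 (@Lb.r r2438 (@Lb.d (nat_lit 614) (nat_lit 74) (nat_lit 674) (@Lb.fp (nat_lit 9) t1557)))))))))))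
noncomputable def l19866 : Lb := (@Lb.d (nat_lit 73) (nat_lit 616) (nat_lit 649) (@Lb.r r657 (@Lb.r r1427 (@Lb.r r2394 (@Lb.r r600 (@Lb.g g7 (@Lb.g g6 (@Lb.g g5 (@Lb.d (nat_lit 4) (nat_lit 0) (nat_lit 70) (@Lb.t (@Lb.fm (nat_lit 9) t1491)))))))))))
noncomputable def l19867 : Lb := (@Lb.d (nat_lit 2) (nat_lit 514) (nat_lit 130) (@Lb.g g8 (@Lb.g g9 (@Lb.g g10 (@Lb.g g11 (@Lb.r r391 (@Lb.r r2666 (@Lb.r r2585 (@Lb.r r2564 (@Lb.d (nat_lit 136) (nat_lit 8) (nat_lit 386) (@Lb.fp (nat_lit 9) t715)))))))))))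
noncomputable def l19868 : Lb := (@Lb.d (nat_lit 5) (nat_lit 0) (nat_lit 130) (@Lb.g g8 (@Lb.g g9 (@Lb.g g10 (@Lb.g g11 (@Lb.r r642 (@Lb.r r387 (@Lb.r r2153 (@Lb.r r36 (@Lb.d (nat_lit 290) (nat_lit 0) (nat_lit 73) (@Lb.fp (nat_lit 9) t40)))))))))))
noncomputable def l19869 : Lb := (@Lb.d (nat_lit 6) (nat_lit 512) (nat_lit 130) (@Lb.g g4 (@Lb.g g9 (@Lb.g g10 (@Lb.g g11 (@Lb.r r2567 (@Lb.r r386 (@Lb.r r97 (@Lb.d (nat_lit 128) (nat_lit 9) (nat_lit 329) (@Lb.fp (nat_lit 9) t2885))))))))))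
noncomputable def l19870 : Lb := (@Lb.d (nat_lit 2) (nat_lit 256) (nat_lit 130) (@Lb.g g8 (@Lb.g g9 (@Lb.g g10 (@Lb.g g11 (@Lb.r r2475 (@Lb.r r420 (@Lb.r r102 (@Lb.r r2145 (@Lb.r r2084 (@Lb.d (nat_lit 9) (nat_lit 154) (nat_lit 420) (@Lb.fm (nat_lit 9) t51))))))))))))
noncomputable def l19871 : Lb := (@Lb.d (nat_lit 5) (nat_lit 513) (nat_lit 34) (@Lb.r r1300 (@Lb.r r601 (@Lb.r r539 (@Lb.r r664 (@Lb.g g6 (@Lb.d (nat_lit 0) (nat_lit 0) (nat_lit 34) (@Lb.t (@Lb.fm (nat_lit 3) t1038)))))))))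
noncomputable def l19872 : Lb := (@Lb.d (nat_lit 2) (nat_lit 2) (nat_lit 130) (@Lb.g g8 (@Lb.g g9 (@Lb.g g10 (@Lb.g g11 (@Lb.r r292 (@Lb.r r539 (@Lb.r r405 (@Lb.r r86 (@Lb.r r164 (@Lb.d (nat_lit 2) (nat_lit 0) (nat_lit 90) (@Lb.fm (nat_lit 9) t2))))))))))))
noncomputable def l19873 : Lb := (@Lb.g g7 (@Lb.r r24 (@Lb.r r101 (@Lb.r r402 (@Lb.r r579 (@Lb.t (@Lb.fm (nat_lit 3) t242)))))))
noncomputable def l19874 : Lb := (@Lb.d (nat_lit 273) (nat_lit 264) (nat_lit 133) (@Lb.r r596 (@Lb.r r1386 (@Lb.r r1633 (@Lb.r r291 (@Lb.g g6 (@Lb.g g5 (@Lb.g g4 (@Lb.d (nat_lit 70) (nat_lit 18) (nat_lit 5) (@Lb.t (@Lb.fm (nat_lit 9) t2)))))))))))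
noncomputable def l19875 : Lb := (@Lb.d (nat_lit 613) (nat_lit 550) (nat_lit 149) (@Lb.r r597 (@Lb.r r599 (@Lb.r r264 (@Lb.r r166 (@Lb.g g7 (@Lb.g g6 (@Lb.g g5 (@Lb.d (nat_lit 68) (nat_lit 1) (nat_lit 65) (@Lb.t (@Lb.fm (nat_lit 9) t322)))))))))))
noncomputable def l19876 : Lb := (@Lb.d (nat_lit 6) (nat_lit 516) (nat_lit 64) (@Lb.r r609 (@Lb.r r619 (@Lb.r r584 (@Lb.r r326 (@Lb.g g7 (@Lb.g g6 (@Lb.g g5 (@Lb.d (nat_lit 4) (nat_lit 1) (nat_lit 129) (@Lb.t (@Lb.fm (nat_lit 9) t1085)))))))))))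
noncomputable def l19877 : Lb := (@Lb.d (nat_lit 530) (nat_lit 593) (nat_lit 65) (@Lb.r r386 (@Lb.r r595 (@Lb.r r1301 (@Lb.g g6 (@Lb.g g5 (@Lb.g g4 (@Lb.d (nat_lit 1) (nat_lit 1) (nat_lit 1) (@Lb.t (@Lb.fp (nat_lit 9) t1260))))))))))
noncomputable def l19878 : Lb := (@Lb.d (nat_lit 598) (nat_lit 10) (nat_lit 257) (@Lb.r r597 (@Lb.r r279 (@Lb.r r584 (@Lb.r r326 (@Lb.g g7 (@Lb.g g6 (@Lb.d (nat_lit 0) (nat_lit 0) (nat_lit 65) (@Lb.fp (nat_lit 3) t3973)))))))))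
noncomputable def l19879 : Lb := (@Lb.r r323 (@Lb.d (nat_lit 8) (nat_lit 554) (nat_lit 20) (@Lb.g g9 (@Lb.g g10 (@Lb.r r1624 (@Lb.r r1691 (@Lb.r r2385 (@Lb.d (nat_lit 266) (nat_lit 154) (nat_lit 677) (@Lb.fm (nat_lit 3) t2742)))))))))
noncomputable def l19880 : Lb := (@Lb.d (nat_lit 0) (nat_lit 0) (nat_lit 10) (@Lb.g g10 (@Lb.r r323 (@Lb.r r2694 (@Lb.r r20 (@Lb.r r105 (@Lb.d (nat_lit 0) (nat_lit 66) (nat_lit 36) (@Lb.t (@Lb.fp (nat_lit 3) t843)))))))))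
noncomputable def l19881 : Lb := (@Lb.r r322 (@Lb.d (nat_lit 2) (nat_lit 289) (nat_lit 516) (@Lb.g g8 (@Lb.g g9 (@Lb.g g7 (@Lb.r r418 (@Lb.r r289 (@Lb.r r1096 (@Lb.d (nat_lit 546) (nat_lit 81) (nat_lit 130) (@Lb.t (@Lb.fm (nat_lit 9) t3974)))))))))))
noncomputable def l19882 : Lb := (@Lb.r r82 (@Lb.r r275 (@Lb.d (nat_lit 2) (nat_lit 165) (nat_lit 0) (@Lb.g g8 (@Lb.g g5 (@Lb.r r291 (@Lb.r r386 (@Lb.r r1096 (@Lb.d (nat_lit 546) (nat_lit 128) (nat_lit 521) (@Lb.fp (nat_lit 3) t3974))))))))))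
noncomputable def l19883 : Lb := (@Lb.r r275 (@Lb.d (nat_lit 38) (nat_lit 162) (nat_lit 1) (@Lb.g g8 (@Lb.g g5 (@Lb.g g10 (@Lb.r r355 (@Lb.r r1170 (@Lb.r r1288 (@Lb.d (nat_lit 642) (nat_lit 42) (nat_lit 534) (@Lb.t (@Lb.fp (nat_lit 9) t3975)))))))))))
noncomputable def l19884 : Lb := (@Lb.d (nat_lit 2) (nat_lit 514) (nat_lit 130) (@Lb.g g8 (@Lb.g g9 (@Lb.g g10 (@Lb.g g11 (@Lb.r r1602 (@Lb.r r409 (@Lb.r r2659 (@Lb.r r2577 (@Lb.r r2564 (@Lb.d (nat_lit 641) (nat_lit 73) (nat_lit 386) (@Lb.fm (nat_lit 9) t322))))))))))))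
noncomputable def l19885 : Lb := (@Lb.r r101 (@Lb.r r24 (@Lb.d (nat_lit 576) (nat_lit 512) (nat_lit 528) (@Lb.fp (nat_lit 1) t166))))
noncomputable def l19886 : Lb := (@Lb.d (nat_lit 0) (nat_lit 678) (nat_lit 512) (@Lb.r r1362 (@Lb.g g7 (@Lb.g g6 (@Lb.g g5 (@Lb.d (nat_lit 0) (nat_lit 0) (nat_lit 65) (@Lb.t (@Lb.fp (nat_lit 9) t87))))))))
noncomputable def l19887 : Lb := (@Lb.r r323 (@Lb.d (nat_lit 2) (nat_lit 514) (nat_lit 2) (@Lb.g g8 (@Lb.g g9 (@Lb.g g10 (@Lb.r r1433 (@Lb.r r2339 (@Lb.r r2434 (@Lb.d (nat_lit 272) (nat_lit 100) (nat_lit 329) (@Lb.t (@Lb.fp (nat_lit 9) t296)))))))))))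
noncomputable def l19888 : Lb := (@Lb.d (nat_lit 32) (nat_lit 256) (nat_lit 66) (@Lb.g g9 (@Lb.g g10 (@Lb.g g11 (@Lb.r r1307 (@Lb.r r2713 (@Lb.r r100 (@Lb.r r410 (@Lb.d (nat_lit 136) (nat_lit 25) (nat_lit 153) (@Lb.t (@Lb.fp (nat_lit 9) t284)))))))))))
noncomputable def l19889 : Lb := (@Lb.d (nat_lit 8) (nat_lit 514) (nat_lit 2) (@Lb.g g9 (@Lb.g g10 (@Lb.g g7 (@Lb.r r386 (@Lb.r r1304 (@Lb.r r533 (@Lb.d (nat_lit 165) (nat_lit 34) (nat_lit 673) (@Lb.t (@Lb.fp (nat_lit 9) t3976))))))))))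
noncomputable def l19890 : Lb := (@Lb.d (nat_lit 32) (nat_lit 256) (nat_lit 66) (@Lb.g g9 (@Lb.g g10 (@Lb.g g11 (@Lb.r r1307 (@Lb.r r2713 (@Lb.r r100 (@Lb.r r410 (@Lb.d (nat_lit 128) (nat_lit 26) (nat_lit 153) (@Lb.t (@Lb.fp (nat_lit 9) t284)))))))))))
noncomputable def l19891 : Lb := (@Lb.r r82 (@Lb.d (nat_lit 34) (nat_lit 10) (nat_lit 128) (@Lb.g g8 (@Lb.g g9 (@Lb.g g11 (@Lb.r r427 (@Lb.r r582 (@Lb.r r2456 (@Lb.r r1125 (@Lb.d (nat_lit 533) (nat_lit 98) (nat_lit 130) (@Lb.t (@Lb.fm (nat_lit 9) t3977))))))))))))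
noncomputable def l19892 : Lb := (@Lb.d (nat_lit 0) (nat_lit 292) (nat_lit 66) (@Lb.g g9 (@Lb.g g10 (@Lb.g g11 (@Lb.r r2723 (@Lb.r r673 (@Lb.r r1186 (@Lb.r r145 (@Lb.d (nat_lit 0) (nat_lit 148) (nat_lit 24) (@Lb.t (@Lb.fp (nat_lit 9) t1369)))))))))))
noncomputable def l19893 : Lb := (@Lb.d (nat_lit 10) (nat_lit 516) (nat_lit 18) (@Lb.g g8 (@Lb.g g6 (@Lb.r r1427 (@Lb.r r149 (@Lb.r r2728 (@Lb.d (nat_lit 293) (nat_lit 86) (nat_lit 41) (@Lb.fm (nat_lit 3) t1756))))))))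
noncomputable def l19894 : Lb := (@Lb.d (nat_lit 0) (nat_lit 512) (nat_lit 130) (@Lb.g g9 (@Lb.g g10 (@Lb.g g11 (@Lb.r r419 (@Lb.r r98 (@Lb.d (nat_lit 0) (nat_lit 4) (nat_lit 8) (@Lb.t (@Lb.fm (nat_lit 9) t369)))))))))
noncomputable def l19895 : Lb := (@Lb.d (nat_lit 0) (nat_lit 260) (nat_lit 2) (@Lb.g g9 (@Lb.g g10 (@Lb.r r673 (@Lb.r r162 (@Lb.r r2193 (@Lb.d (nat_lit 0) (nat_lit 153) (nat_lit 410) (@Lb.fm (nat_lit 3) t3978))))))))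
noncomputable def l19896 : Lb := (@Lb.d (nat_lit 0) (nat_lit 42) (nat_lit 64) (@Lb.g g9 (@Lb.g g11 (@Lb.r r2723 (@Lb.r r1426 (@Lb.r r1617 (@Lb.d (nat_lit 0) (nat_lit 137) (nat_lit 392) (@Lb.fm (nat_lit 3) t2739))))))))
noncomputable def l19897 : Lb := (@Lb.d (nat_lit 0) (nat_lit 0) (nat_lit 2) (@Lb.g g10 (@Lb.r r2129 (@Lb.r r98 (@Lb.d (nat_lit 5) (nat_lit 138) (nat_lit 16) (@Lb.t (@Lb.fp (nat_lit 3) t3979)))))))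
noncomputable def l19898 : Lb := (@Lb.r r275 (@Lb.d (nat_lit 38) (nat_lit 676) (nat_lit 2) (@Lb.g g8 (@Lb.g g5 (@Lb.g g10 (@Lb.r r355 (@Lb.r r1170 (@Lb.r r1288 (@Lb.d (nat_lit 642) (nat_lit 42) (nat_lit 534) (@Lb.t (@Lb.fp (nat_lit 9) t3490)))))))))))
noncomputable def l19899 : Lb := (@Lb.r r275 (@Lb.d (nat_lit 4) (nat_lit 164) (nat_lit 2) (@Lb.g g5 (@Lb.g g10 (@Lb.r r359 (@Lb.r r1178 (@Lb.r r24 (@Lb.d (nat_lit 162) (nat_lit 1) (nat_lit 342) (@Lb.fp (nat_lit 3) t3980)))))))))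
noncomputable def l19900 : Lb := (@Lb.d (nat_lit 8) (nat_lit 292) (nat_lit 65) (@Lb.g g9 (@Lb.g g6 (@Lb.g g11 (@Lb.r r2663 (@Lb.r r1048 (@Lb.r r21 (@Lb.d (nat_lit 148) (nat_lit 2) (nat_lit 682) (@Lb.t (@Lb.fp (nat_lit 9) t3981))))))))))
noncomputable def l19901 : Lb := (@Lb.d (nat_lit 2) (nat_lit 513) (nat_lit 74) (@Lb.g g8 (@Lb.g g9 (@Lb.g g10 (@Lb.g g11 (@Lb.r r673 (@Lb.r r674 (@Lb.r r2471 (@Lb.r r1169 (@Lb.r r2564 (@Lb.d (nat_lit 650) (nat_lit 128) (nat_lit 385) (@Lb.fp (nat_lit 9) t441))))))))))))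
noncomputable def l19902 : Lb := (@Lb.d (nat_lit 16) (nat_lit 2) (nat_lit 0) (@Lb.g g8 (@Lb.g g9 (@Lb.g g10 (@Lb.r r1675 (@Lb.r r2666 (@Lb.r r37 (@Lb.r r40 (@Lb.d (nat_lit 516) (nat_lit 25) (nat_lit 9) (@Lb.t (@Lb.fp (nat_lit 9) t3982)))))))))))
noncomputable def l19903 : Lb := (@Lb.r r1045 (@Lb.d (nat_lit 2) (nat_lit 512) (nat_lit 130) (@Lb.g g8 (@Lb.g g10 (@Lb.g g11 (@Lb.r r2379 (@Lb.r r386 (@Lb.r r72 (@Lb.d (nat_lit 290) (nat_lit 0) (nat_lit 70) (@Lb.t (@Lb.fm (nat_lit 9) t873)))))))))))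
noncomputable def l19904 : Lb := (@Lb.r r21 (@Lb.d (nat_lit 657) (nat_lit 520) (nat_lit 128) (@Lb.g g4 (@Lb.g g10 (@Lb.g g11 (@Lb.r r345 (@Lb.r r679 (@Lb.r r2694 (@Lb.d (nat_lit 134) (nat_lit 136) (nat_lit 282) (@Lb.t (@Lb.fp (nat_lit 9) t647)))))))))))
noncomputable def l19905 : Lb := (@Lb.d (nat_lit 4) (nat_lit 2) (nat_lit 64) (@Lb.g g9 (@Lb.g g10 (@Lb.g g11 (@Lb.r r2347 (@Lb.r r1606 (@Lb.r r36 (@Lb.d (nat_lit 640) (nat_lit 72) (nat_lit 130) (@Lb.t (@Lb.fm (nat_lit 9) t3983))))))))))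
noncomputable def l19906 : Lb := (@Lb.d (nat_lit 8) (nat_lit 34) (nat_lit 0) (@Lb.g g9 (@Lb.r r536 (@Lb.r r283 (@Lb.r r134 (@Lb.r r553 (@Lb.d (nat_lit 596) (nat_lit 18) (nat_lit 37) (@Lb.t (@Lb.fm (nat_lit 3) t564)))))))))
noncomputable def l19907 : Lb := (@Lb.r r1045 (@Lb.d (nat_lit 2) (nat_lit 512) (nat_lit 73) (@Lb.g g8 (@Lb.g g10 (@Lb.g g11 (@Lb.r r2634 (@Lb.r r579 (@Lb.r r72 (@Lb.d (nat_lit 129) (nat_lit 0) (nat_lit 358) (@Lb.t (@Lb.fm (nat_lit 9) t873)))))))))))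
noncomputable def l19908 : Lb := (@Lb.r r2659 (@Lb.r r424 (@Lb.r r1434 (@Lb.r r1057 (@Lb.r r132 (@Lb.d (nat_lit 585) (nat_lit 66) (nat_lit 512) (@Lb.fp (nat_lit 1) t324)))))))
noncomputable def l19909 : Lb := (@Lb.d (nat_lit 10) (nat_lit 549) (nat_lit 10) (@Lb.g g8 (@Lb.g g9 (@Lb.g g10 (@Lb.g g11 (@Lb.r r2729 (@Lb.r r1130 (@Lb.r r1380 (@Lb.r r395 (@Lb.d (nat_lit 80) (nat_lit 162) (nat_lit 389) (@Lb.fm (nat_lit 9) t3984)))))))))))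
noncomputable def l19910 : Lb := (@Lb.d (nat_lit 618) (nat_lit 353) (nat_lit 548) (@Lb.r r1637 (@Lb.r r344 (@Lb.r r2386 (@Lb.r r427 (@Lb.g g6 (@Lb.g g5 (@Lb.g g4 (@Lb.d (nat_lit 70) (nat_lit 20) (nat_lit 2) (@Lb.t (@Lb.fp (nat_lit 9) t71)))))))))))
noncomputable def l19911 : Lb := (@Lb.r r323 (@Lb.d (nat_lit 137) (nat_lit 33) (nat_lit 10) (@Lb.g g8 (@Lb.g g9 (@Lb.g g10 (@Lb.r r275 (@Lb.r r609 (@Lb.r r598 (@Lb.r r408 (@Lb.d (nat_lit 20) (nat_lit 73) (nat_lit 74) (@Lb.t (@Lb.fm (nat_lit 9) t2))))))))))))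
noncomputable def l19912 : Lb := (@Lb.d (nat_lit 40) (nat_lit 513) (nat_lit 64) (@Lb.g g9 (@Lb.g g10 (@Lb.g g11 (@Lb.r r328 (@Lb.r r2711 (@Lb.r r1702 (@Lb.r r97 (@Lb.d (nat_lit 664) (nat_lit 72) (nat_lit 152) (@Lb.t (@Lb.fm (nat_lit 9) t71)))))))))))
noncomputable def l19913 : Lb := (@Lb.d (nat_lit 1) (nat_lit 256) (nat_lit 2) (@Lb.g g8 (@Lb.g g10 (@Lb.r r2579 (@Lb.r r420 (@Lb.r r70 (@Lb.r r289 (@Lb.r r132 (@Lb.d (nat_lit 262) (nat_lit 5) (nat_lit 1) (@Lb.fm (nat_lit 3) t51))))))))))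
noncomputable def l19914 : Lb := (@Lb.d (nat_lit 608) (nat_lit 297) (nat_lit 298) (@Lb.r r97 (@Lb.r r2567 (@Lb.r r1348 (@Lb.g g10 (@Lb.g g5 (@Lb.d (nat_lit 16) (nat_lit 1) (nat_lit 18) (@Lb.r r387 (@Lb.fp (nat_lit 3) t3985)))))))))
noncomputable def l19915 : Lb := (@Lb.d (nat_lit 8) (nat_lit 258) (nat_lit 4) (@Lb.g g9 (@Lb.g g10 (@Lb.g g11 (@Lb.r r419 (@Lb.r r386 (@Lb.d (nat_lit 2) (nat_lit 130) (nat_lit 394) (@Lb.t (@Lb.fp (nat_lit 9) t51)))))))))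
noncomputable def l19916 : Lb := (@Lb.r r81 (@Lb.r r323 (@Lb.d (nat_lit 33) (nat_lit 4) (nat_lit 32) (@Lb.g g8 (@Lb.g g6 (@Lb.r r579 (@Lb.r r105 (@Lb.r r1060 (@Lb.d (nat_lit 265) (nat_lit 130) (nat_lit 4) (@Lb.fp (nat_lit 3) t3986))))))))))
noncomputable def l19917 : Lb := (@Lb.d (nat_lit 2) (nat_lit 258) (nat_lit 4) (@Lb.g g8 (@Lb.g g9 (@Lb.g g10 (@Lb.g g11 (@Lb.r r427 (@Lb.r r420 (@Lb.r r102 (@Lb.r r21 (@Lb.r r36 (@Lb.d (nat_lit 514) (nat_lit 10) (nat_lit 34) (@Lb.fp (nat_lit 9) t221))))))))))))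
noncomputable def l19918 : Lb := (@Lb.r r323 (@Lb.d (nat_lit 130) (nat_lit 130) (nat_lit 2) (@Lb.g g8 (@Lb.g g9 (@Lb.g g10 (@Lb.r r2647 (@Lb.r r1122 (@Lb.r r420 (@Lb.d (nat_lit 96) (nat_lit 97) (nat_lit 2) (@Lb.t (@Lb.fp (nat_lit 9) t1194)))))))))))
noncomputable def l19919 : Lb := (@Lb.g g4 (@Lb.g g9 (@Lb.r r551 (@Lb.r r1606 (@Lb.r r1557 (@Lb.r r1416 (@Lb.d (nat_lit 66) (nat_lit 138) (nat_lit 612) (@Lb.fp (nat_lit 3) t915))))))))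
noncomputable def l19920 : Lb := (@Lb.d (nat_lit 101) (nat_lit 682) (nat_lit 88) (@Lb.r r405 (@Lb.r r1110 (@Lb.r r2472 (@Lb.g g11 (@Lb.g g6 (@Lb.g g5 (@Lb.d (nat_lit 0) (nat_lit 4) (nat_lit 129) (@Lb.t (@Lb.fp (nat_lit 9) t61))))))))))
noncomputable def l19921 : Lb := (@Lb.d (nat_lit 9) (nat_lit 262) (nat_lit 128) (@Lb.g g8 (@Lb.g g9 (@Lb.g g10 (@Lb.g g11 (@Lb.r r1699 (@Lb.r r596 (@Lb.r r682 (@Lb.r r2217 (@Lb.r r2212 (@Lb.d (nat_lit 581) (nat_lit 96) (nat_lit 586) (@Lb.fm (nat_lit 9) t68))))))))))))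
noncomputable def l19922 : Lb := (@Lb.d (nat_lit 529) (nat_lit 512) (nat_lit 145) (@Lb.r r20 (@Lb.r r2153 (@Lb.r r386 (@Lb.g g11 (@Lb.g g5 (@Lb.g g4 (@Lb.d (nat_lit 10) (nat_lit 34) (nat_lit 72) (@Lb.r r98 (@Lb.t (@Lb.fm (nat_lit 9) t51)))))))))))
noncomputable def l19923 : Lb := (@Lb.d (nat_lit 2) (nat_lit 258) (nat_lit 130) (@Lb.g g8 (@Lb.g g9 (@Lb.g g10 (@Lb.g g11 (@Lb.r r665 (@Lb.r r2323 (@Lb.r r1162 (@Lb.r r2577 (@Lb.r r1156 (@Lb.d (nat_lit 544) (nat_lit 66) (nat_lit 681) (@Lb.fm (nat_lit 9) t284))))))))))))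
noncomputable def l19924 : Lb := (@Lb.d (nat_lit 2) (nat_lit 514) (nat_lit 73) (@Lb.g g8 (@Lb.g g9 (@Lb.g g10 (@Lb.g g11 (@Lb.r r427 (@Lb.r r425 (@Lb.r r2466 (@Lb.r r145 (@Lb.d (nat_lit 272) (nat_lit 152) (nat_lit 592) (@Lb.fp (nat_lit 9) t296)))))))))))
noncomputable def l19925 : Lb := (@Lb.d (nat_lit 8) (nat_lit 512) (nat_lit 4) (@Lb.g g9 (@Lb.g g10 (@Lb.g g11 (@Lb.r r423 (@Lb.r r2388 (@Lb.r r650 (@Lb.r r2129 (@Lb.d (nat_lit 400) (nat_lit 134) (nat_lit 549) (@Lb.t (@Lb.fp (nat_lit 9) t307)))))))))))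
noncomputable def l19926 : Lb := (@Lb.r r275 (@Lb.d (nat_lit 2) (nat_lit 553) (nat_lit 1) (@Lb.g g8 (@Lb.g g9 (@Lb.g g10 (@Lb.r r599 (@Lb.r r358 (@Lb.r r337 (@Lb.d (nat_lit 550) (nat_lit 20) (nat_lit 554) (@Lb.t (@Lb.fp (nat_lit 9) t580)))))))))))
noncomputable def l19927 : Lb := (@Lb.d (nat_lit 2) (nat_lit 512) (nat_lit 73) (@Lb.g g8 (@Lb.g g10 (@Lb.g g11 (@Lb.r r2213 (@Lb.r r2658 (@Lb.r r579 (@Lb.d (nat_lit 64) (nat_lit 81) (nat_lit 522) (@Lb.t (@Lb.fm (nat_lit 9) t242))))))))))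
noncomputable def l19928 : Lb := (@Lb.d (nat_lit 1) (nat_lit 2) (nat_lit 130) (@Lb.g g8 (@Lb.g g9 (@Lb.g g10 (@Lb.g g11 (@Lb.r r1130 (@Lb.r r356 (@Lb.r r411 (@Lb.r r533 (@Lb.r r2084 (@Lb.d (nat_lit 161) (nat_lit 0) (nat_lit 290) (@Lb.fp (nat_lit 9) t145))))))))))))
noncomputable def l19929 : Lb := (@Lb.d (nat_lit 10) (nat_lit 2) (nat_lit 130) (@Lb.g g4 (@Lb.g g9 (@Lb.g g10 (@Lb.g g11 (@Lb.r r2658 (@Lb.r r579 (@Lb.d (nat_lit 0) (nat_lit 97) (nat_lit 640) (@Lb.fp (nat_lit 9) t51)))))))))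
noncomputable def l19930 : Lb := (@Lb.r r323 (@Lb.d (nat_lit 10) (nat_lit 2) (nat_lit 2) (@Lb.g g4 (@Lb.g g9 (@Lb.g g10 (@Lb.r r354 (@Lb.r r387 (@Lb.d (nat_lit 1) (nat_lit 33) (nat_lit 74) (@Lb.t (@Lb.fp (nat_lit 9) t51))))))))))
noncomputable def l19931 : Lb := (@Lb.d (nat_lit 40) (nat_lit 518) (nat_lit 73) (@Lb.g g8 (@Lb.g g9 (@Lb.g g10 (@Lb.g g11 (@Lb.r r1667 (@Lb.r r2401 (@Lb.r r1178 (@Lb.r r388 (@Lb.d (nat_lit 294) (nat_lit 97) (nat_lit 586) (@Lb.fm (nat_lit 9) t68)))))))))))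
noncomputable def l19932 : Lb := (@Lb.d (nat_lit 0) (nat_lit 513) (nat_lit 522) (@Lb.r r1284 (@Lb.r r323 (@Lb.r r658 (@Lb.g g7 (@Lb.g g5 (@Lb.d (nat_lit 0) (nat_lit 134) (nat_lit 64) (@Lb.fp (nat_lit 3) t2652))))))))
noncomputable def l19933 : Lb := (@Lb.d (nat_lit 2) (nat_lit 512) (nat_lit 64) (@Lb.g g8 (@Lb.g g11 (@Lb.r r101 (@Lb.r r658 (@Lb.r r387 (@Lb.d (nat_lit 64) (nat_lit 0) (nat_lit 69) (@Lb.fm (nat_lit 3) t242))))))))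
noncomputable def l19934 : Lb := (@Lb.d (nat_lit 0) (nat_lit 256) (nat_lit 130) (@Lb.g g8 (@Lb.g g9 (@Lb.g g10 (@Lb.g g11 (@Lb.r r292 (@Lb.r r539 (@Lb.r r405 (@Lb.r r342 (@Lb.r r676 (@Lb.d (nat_lit 2) (nat_lit 0) (nat_lit 18) (@Lb.fm (nat_lit 9) t2))))))))))))
noncomputable def l19935 : Lb := (@Lb.d (nat_lit 145) (nat_lit 422) (nat_lit 581) (@Lb.r r580 (@Lb.r r2386 (@Lb.r r2201 (@Lb.g g7 (@Lb.g g6 (@Lb.g g4 (@Lb.d (nat_lit 100) (nat_lit 0) (nat_lit 577) (@Lb.t (@Lb.fp (nat_lit 9) t1561))))))))))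
noncomputable def l19936 : Lb := (@Lb.d (nat_lit 265) (nat_lit 320) (nat_lit 128) (@Lb.r r102 (@Lb.r r1188 (@Lb.r r1303 (@Lb.g g6 (@Lb.g g5 (@Lb.d (nat_lit 8) (nat_lit 69) (nat_lit 0) (@Lb.r r387 (@Lb.r r100 (@Lb.fm (nat_lit 3) t68))))))))))
noncomputable def l19937 : Lb := (@Lb.d (nat_lit 0) (nat_lit 256) (nat_lit 66) (@Lb.g g8 (@Lb.g g9 (@Lb.g g10 (@Lb.g g11 (@Lb.r r388 (@Lb.r r587 (@Lb.r r1366 (@Lb.r r2469 (@Lb.r r532 (@Lb.d (nat_lit 32) (nat_lit 2) (nat_lit 34) (@Lb.fp (nat_lit 9) t994))))))))))))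
noncomputable def l19938 : Lb := (@Lb.d (nat_lit 1) (nat_lit 258) (nat_lit 130) (@Lb.g g8 (@Lb.g g9 (@Lb.g g10 (@Lb.g g11 (@Lb.r r2666 (@Lb.r r612 (@Lb.r r615 (@Lb.r r533 (@Lb.r r2084 (@Lb.d (nat_lit 649) (nat_lit 2) (nat_lit 256) (@Lb.fm (nat_lit 9) t145))))))))))))
noncomputable def l19939 : Lb := (@Lb.d (nat_lit 2) (nat_lit 9) (nat_lit 1) (@Lb.g g8 (@Lb.g g9 (@Lb.g g10 (@Lb.g g11 (@Lb.r r411 (@Lb.r r578 (@Lb.r r2337 (@Lb.r r24 (@Lb.d (nat_lit 256) (nat_lit 97) (nat_lit 586) (@Lb.fp (nat_lit 9) t3987)))))))))))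
noncomputable def l19940 : Lb := (@Lb.d (nat_lit 426) (nat_lit 22) (nat_lit 145) (@Lb.r r2149 (@Lb.r r1048 (@Lb.r r1362 (@Lb.g g7 (@Lb.g g6 (@Lb.g g5 (@Lb.d (nat_lit 4) (nat_lit 25) (nat_lit 520) (@Lb.t (@Lb.fp (nat_lit 9) t3988))))))))))
noncomputable def l19941 : Lb := (@Lb.d (nat_lit 130) (nat_lit 512) (nat_lit 257) (@Lb.r r2341 (@Lb.r r1624 (@Lb.r r1627 (@Lb.g g6 (@Lb.g g5 (@Lb.d (nat_lit 16) (nat_lit 0) (nat_lit 37) (@Lb.r r387 (@Lb.fp (nat_lit 3) t3763)))))))))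
noncomputable def l19942 : Lb := (@Lb.d (nat_lit 2) (nat_lit 258) (nat_lit 2) (@Lb.g g8 (@Lb.g g9 (@Lb.g g10 (@Lb.g g11 (@Lb.r r1371 (@Lb.r r386 (@Lb.r r97 (@Lb.r r24 (@Lb.d (nat_lit 266) (nat_lit 8) (nat_lit 137) (@Lb.fm (nat_lit 9) t432)))))))))))
noncomputable def l19943 : Lb := (@Lb.d (nat_lit 2) (nat_lit 2) (nat_lit 2) (@Lb.g g8 (@Lb.g g9 (@Lb.g g10 (@Lb.g g11 (@Lb.r r1371 (@Lb.r r386 (@Lb.r r97 (@Lb.r r24 (@Lb.d (nat_lit 256) (nat_lit 9) (nat_lit 137) (@Lb.fm (nat_lit 9) t432)))))))))))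
noncomputable def l19944 : Lb := (@Lb.d (nat_lit 536) (nat_lit 404) (nat_lit 358) (@Lb.r r2457 (@Lb.r r2454 (@Lb.r r1635 (@Lb.g g7 (@Lb.g g5 (@Lb.g g4 (@Lb.d (nat_lit 0) (nat_lit 22) (nat_lit 128) (@Lb.r r98 (@Lb.t (@Lb.fp (nat_lit 9) t3989)))))))))))
noncomputable def l19945 : Lb := (@Lb.d (nat_lit 0) (nat_lit 256) (nat_lit 136) (@Lb.g g11 (@Lb.r r101 (@Lb.r r402 (@Lb.r r24 (@Lb.d (nat_lit 514) (nat_lit 0) (nat_lit 672) (@Lb.t (@Lb.fm (nat_lit 3) t2274))))))))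
noncomputable def l19946 : Lb := (@Lb.d (nat_lit 0) (nat_lit 264) (nat_lit 130) (@Lb.g g9 (@Lb.g g10 (@Lb.g g11 (@Lb.r r387 (@Lb.r r418 (@Lb.r r153 (@Lb.d (nat_lit 32) (nat_lit 132) (nat_lit 129) (@Lb.t (@Lb.fp (nat_lit 9) t3990))))))))))
noncomputable def l19947 : Lb := (@Lb.d (nat_lit 128) (nat_lit 33) (nat_lit 132) (@Lb.g g8 (@Lb.g g9 (@Lb.g g10 (@Lb.g g11 (@Lb.r r683 (@Lb.r r1386 (@Lb.r r1305 (@Lb.r r516 (@Lb.d (nat_lit 521) (nat_lit 105) (nat_lit 25) (@Lb.fm (nat_lit 9) t3991)))))))))))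
noncomputable def l19948 : Lb := (@Lb.r r1284 (@Lb.r r1297 (@Lb.d (nat_lit 0) (nat_lit 512) (nat_lit 4) (@Lb.g g10 (@Lb.g g11 (@Lb.r r2694 (@Lb.r r2695 (@Lb.d (nat_lit 656) (nat_lit 0) (nat_lit 326) (@Lb.fm (nat_lit 3) t1595)))))))))
noncomputable def l19949 : Lb := (@Lb.d (nat_lit 9) (nat_lit 260) (nat_lit 64) (@Lb.g g8 (@Lb.g g9 (@Lb.g g10 (@Lb.g g7 (@Lb.r r386 (@Lb.r r104 (@Lb.r r1129 (@Lb.r r1060 (@Lb.d (nat_lit 548) (nat_lit 128) (nat_lit 9) (@Lb.fp (nat_lit 9) t3228)))))))))))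
noncomputable def l19950 : Lb := (@Lb.d (nat_lit 9) (nat_lit 514) (nat_lit 130) (@Lb.g g8 (@Lb.g g9 (@Lb.g g10 (@Lb.g g11 (@Lb.r r2731 (@Lb.r r2601 (@Lb.r r616 (@Lb.r r2118 (@Lb.r r1156 (@Lb.d (nat_lit 8) (nat_lit 153) (nat_lit 297) (@Lb.fm (nat_lit 9) t591))))))))))))
noncomputable def l19951 : Lb := (@Lb.d (nat_lit 0) (nat_lit 512) (nat_lit 128) (@Lb.g g11 (@Lb.r r326 (@Lb.r r1419 (@Lb.r r24 (@Lb.r r1317 (@Lb.d (nat_lit 0) (nat_lit 72) (nat_lit 598) (@Lb.t (@Lb.fp (nat_lit 3) t867)))))))))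
noncomputable def l19952 : Lb := (@Lb.d (nat_lit 6) (nat_lit 674) (nat_lit 66) (@Lb.g g4 (@Lb.g g9 (@Lb.g g10 (@Lb.g g11 (@Lb.r r1447 (@Lb.r r98 (@Lb.d (nat_lit 616) (nat_lit 8) (nat_lit 425) (@Lb.fm (nat_lit 9) t719)))))))))
noncomputable def l19953 : Lb := (@Lb.d (nat_lit 5) (nat_lit 546) (nat_lit 132) (@Lb.g g4 (@Lb.g g9 (@Lb.g g10 (@Lb.g g11 (@Lb.r r679 (@Lb.r r610 (@Lb.r r529 (@Lb.d (nat_lit 97) (nat_lit 41) (nat_lit 129) (@Lb.fp (nat_lit 9) t175))))))))))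
noncomputable def l19954 : Lb := (@Lb.d (nat_lit 6) (nat_lit 265) (nat_lit 130) (@Lb.g g8 (@Lb.g g9 (@Lb.g g10 (@Lb.g g11 (@Lb.r r1675 (@Lb.r r2341 (@Lb.r r1668 (@Lb.r r1638 (@Lb.d (nat_lit 409) (nat_lit 85) (nat_lit 324) (@Lb.fp (nat_lit 9) t1027)))))))))))
noncomputable def l19955 : Lb := (@Lb.d (nat_lit 34) (nat_lit 522) (nat_lit 0) (@Lb.g g8 (@Lb.g g9 (@Lb.r r2379 (@Lb.r r582 (@Lb.r r388 (@Lb.d (nat_lit 104) (nat_lit 2) (nat_lit 154) (@Lb.fm (nat_lit 3) t3992))))))))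
noncomputable def l19956 : Lb := (@Lb.r r322 (@Lb.d (nat_lit 0) (nat_lit 256) (nat_lit 576) (@Lb.g g9 (@Lb.g g7 (@Lb.r r345 (@Lb.r r1638 (@Lb.r r24 (@Lb.d (nat_lit 576) (nat_lit 0) (nat_lit 16) (@Lb.fm (nat_lit 3) t3993)))))))))
noncomputable def l19957 : Lb := (@Lb.d (nat_lit 288) (nat_lit 342) (nat_lit 80) (@Lb.r r386 (@Lb.r r339 (@Lb.r r1557 (@Lb.g g7 (@Lb.g g6 (@Lb.g g5 (@Lb.g g4 (@Lb.d (nat_lit 1) (nat_lit 1) (nat_lit 129) (@Lb.fm (nat_lit 9) t1490))))))))))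
noncomputable def l19958 : Lb := (@Lb.r r323 (@Lb.d (nat_lit 0) (nat_lit 260) (nat_lit 42) (@Lb.g g6 (@Lb.r r387 (@Lb.r r101 (@Lb.d (nat_lit 358) (nat_lit 164) (nat_lit 614) (@Lb.t (@Lb.fp (nat_lit 3) t1149))))))))
noncomputable def l19959 : Lb := (@Lb.d (nat_lit 70) (nat_lit 274) (nat_lit 138) (@Lb.r r24 (@Lb.r r2145 (@Lb.r r2390 (@Lb.r r2691 (@Lb.g g7 (@Lb.g g6 (@Lb.g g4 (@Lb.d (nat_lit 1) (nat_lit 0) (nat_lit 65) (@Lb.t (@Lb.fm (nat_lit 9) t803)))))))))))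
noncomputable def l19960 : Lb := (@Lb.d (nat_lit 128) (nat_lit 64) (nat_lit 512) (@Lb.r r145 (@Lb.r r658 (@Lb.r r675 (@Lb.r r665 (@Lb.g g4 (@Lb.d (nat_lit 1) (nat_lit 0) (nat_lit 0) (@Lb.t (@Lb.fm (nat_lit 3) t390)))))))))
noncomputable def l19961 : Lb := (@Lb.g g9 (@Lb.g g6 (@Lb.r r97 (@Lb.r r1106 (@Lb.r r145 (@Lb.fm (nat_lit 3) t246))))))
noncomputable def l19962 : Lb := (@Lb.d (nat_lit 1) (nat_lit 256) (nat_lit 0) (@Lb.g g4 (@Lb.r r1098 (@Lb.r r1049 (@Lb.d (nat_lit 260) (nat_lit 64) (nat_lit 0) (@Lb.t (@Lb.fm (nat_lit 3) t994)))))))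
noncomputable def l19963 : Lb := (@Lb.d (nat_lit 80) (nat_lit 360) (nat_lit 33) (@Lb.r r1108 (@Lb.r r106 (@Lb.r r609 (@Lb.r r2339 (@Lb.g g6 (@Lb.g g5 (@Lb.g g4 (@Lb.d (nat_lit 69) (nat_lit 17) (nat_lit 5) (@Lb.t (@Lb.fm (nat_lit 9) t2)))))))))))
noncomputable def l19964 : Lb := (@Lb.d (nat_lit 1) (nat_lit 258) (nat_lit 130) (@Lb.g g8 (@Lb.g g9 (@Lb.g g10 (@Lb.g g11 (@Lb.r r2705 (@Lb.r r356 (@Lb.r r667 (@Lb.r r586 (@Lb.r r1540 (@Lb.d (nat_lit 528) (nat_lit 0) (nat_lit 81) (@Lb.fm (nat_lit 9) t145))))))))))))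
noncomputable def l19965 : Lb := (@Lb.d (nat_lit 5) (nat_lit 42) (nat_lit 73) (@Lb.r r21 (@Lb.r r682 (@Lb.r r599 (@Lb.g g7 (@Lb.g g6 (@Lb.g g5 (@Lb.g g4 (@Lb.d (nat_lit 8) (nat_lit 0) (nat_lit 10) (@Lb.fp (nat_lit 9) t40))))))))))
noncomputable def l19966 : Lb := (@Lb.d (nat_lit 1) (nat_lit 514) (nat_lit 130) (@Lb.g g8 (@Lb.g g9 (@Lb.g g10 (@Lb.g g11 (@Lb.r r610 (@Lb.r r612 (@Lb.r r359 (@Lb.r r277 (@Lb.r r548 (@Lb.d (nat_lit 552) (nat_lit 2) (nat_lit 82) (@Lb.fp (nat_lit 9) t145))))))))))))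
noncomputable def l19967 : Lb := (@Lb.d (nat_lit 2) (nat_lit 257) (nat_lit 128) (@Lb.g g8 (@Lb.g g9 (@Lb.g g10 (@Lb.g g11 (@Lb.r r1671 (@Lb.r r2376 (@Lb.r r1190 (@Lb.r r337 (@Lb.d (nat_lit 409) (nat_lit 104) (nat_lit 608) (@Lb.fm (nat_lit 9) t2518)))))))))))
noncomputable def l19968 : Lb := (@Lb.r r323 (@Lb.d (nat_lit 1) (nat_lit 258) (nat_lit 1) (@Lb.g g8 (@Lb.g g9 (@Lb.g g6 (@Lb.r r387 (@Lb.r r97 (@Lb.r r24 (@Lb.d (nat_lit 5) (nat_lit 8) (nat_lit 66) (@Lb.t (@Lb.fp (nat_lit 9) t40)))))))))))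
noncomputable def l19969 : Lb := (@Lb.d (nat_lit 1) (nat_lit 514) (nat_lit 130) (@Lb.g g8 (@Lb.g g9 (@Lb.g g10 (@Lb.g g11 (@Lb.r r2705 (@Lb.r r356 (@Lb.r r667 (@Lb.r r586 (@Lb.r r1540 (@Lb.d (nat_lit 289) (nat_lit 10) (nat_lit 97) (@Lb.fm (nat_lit 9) t145))))))))))))
noncomputable def l19970 : Lb := (@Lb.d (nat_lit 0) (nat_lit 34) (nat_lit 2) (@Lb.g g9 (@Lb.g g10 (@Lb.r r1194 (@Lb.r r2468 (@Lb.r r1307 (@Lb.r r1573 (@Lb.d (nat_lit 384) (nat_lit 18) (nat_lit 586) (@Lb.fm (nat_lit 3) t284)))))))))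
noncomputable def l19971 : Lb := (@Lb.r r323 (@Lb.d (nat_lit 130) (nat_lit 578) (nat_lit 2) (@Lb.g g8 (@Lb.g g9 (@Lb.g g10 (@Lb.r r1623 (@Lb.r r2146 (@Lb.r r2312 (@Lb.d (nat_lit 678) (nat_lit 137) (nat_lit 673) (@Lb.t (@Lb.fm (nat_lit 9) t1242)))))))))))
noncomputable def l19972 : Lb := (@Lb.r r323 (@Lb.d (nat_lit 130) (nat_lit 322) (nat_lit 2) (@Lb.g g8 (@Lb.g g9 (@Lb.g g10 (@Lb.r r1623 (@Lb.r r2146 (@Lb.r r2312 (@Lb.d (nat_lit 678) (nat_lit 137) (nat_lit 550) (@Lb.t (@Lb.fm (nat_lit 9) t1242)))))))))))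
noncomputable def l19973 : Lb := (@Lb.d (nat_lit 2) (nat_lit 258) (nat_lit 130) (@Lb.g g8 (@Lb.g g9 (@Lb.g g10 (@Lb.g g11 (@Lb.r r148 (@Lb.r r102 (@Lb.r r357 (@Lb.r r667 (@Lb.r r644 (@Lb.d (nat_lit 2) (nat_lit 0) (nat_lit 10) (@Lb.fp (nat_lit 9) t2))))))))))))
noncomputable def l19974 : Lb := (@Lb.d (nat_lit 160) (nat_lit 585) (nat_lit 65) (@Lb.g g5 (@Lb.g g10 (@Lb.g g11 (@Lb.r r292 (@Lb.r r603 (@Lb.r r354 (@Lb.d (nat_lit 41) (nat_lit 72) (nat_lit 645) (@Lb.t (@Lb.fm (nat_lit 9) t394))))))))))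
noncomputable def l19975 : Lb := (@Lb.r r322 (@Lb.d (nat_lit 0) (nat_lit 514) (nat_lit 512) (@Lb.g g5 (@Lb.g g7 (@Lb.r r677 (@Lb.r r1638 (@Lb.r r24 (@Lb.d (nat_lit 576) (nat_lit 0) (nat_lit 34) (@Lb.fm (nat_lit 3) t3993)))))))))
noncomputable def l19976 : Lb := (@Lb.d (nat_lit 274) (nat_lit 389) (nat_lit 580) (@Lb.r r2118 (@Lb.r r2440 (@Lb.r r2583 (@Lb.r r2385 (@Lb.g g6 (@Lb.g g5 (@Lb.g g4 (@Lb.d (nat_lit 97) (nat_lit 1) (nat_lit 1) (@Lb.t (@Lb.fp (nat_lit 9) t580)))))))))))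
noncomputable def l19977 : Lb := (@Lb.d (nat_lit 128) (nat_lit 8) (nat_lit 66) (@Lb.g g10 (@Lb.g g11 (@Lb.r r361 (@Lb.r r292 (@Lb.r r539 (@Lb.r r134 (@Lb.d (nat_lit 105) (nat_lit 66) (nat_lit 393) (@Lb.fp (nat_lit 3) t210)))))))))
noncomputable def l19978 : Lb := (@Lb.d (nat_lit 8) (nat_lit 0) (nat_lit 136) (@Lb.g g9 (@Lb.g g10 (@Lb.g g11 (@Lb.r r2587 (@Lb.r r88 (@Lb.r r406 (@Lb.r r337 (@Lb.d (nat_lit 394) (nat_lit 5) (nat_lit 70) (@Lb.t (@Lb.fp (nat_lit 9) t2030)))))))))))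
noncomputable def l19979 : Lb := (@Lb.d (nat_lit 4) (nat_lit 0) (nat_lit 9) (@Lb.g g8 (@Lb.g g9 (@Lb.g g10 (@Lb.g g7 (@Lb.r r386 (@Lb.r r97 (@Lb.r r24 (@Lb.d (nat_lit 10) (nat_lit 9) (nat_lit 137) (@Lb.fp (nat_lit 9) t40))))))))))
noncomputable def l19980 : Lb := (@Lb.d (nat_lit 66) (nat_lit 546) (nat_lit 138) (@Lb.r r82 (@Lb.r r531 (@Lb.r r277 (@Lb.g g7 (@Lb.g g5 (@Lb.g g4 (@Lb.d (nat_lit 1) (nat_lit 17) (nat_lit 0) (@Lb.r r98 (@Lb.t (@Lb.fm (nat_lit 9) t1085)))))))))))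
noncomputable def l19981 : Lb := (@Lb.d (nat_lit 0) (nat_lit 0) (nat_lit 136) (@Lb.g g9 (@Lb.g g11 (@Lb.d (nat_lit 0) (nat_lit 10) (nat_lit 1) (@Lb.fm (nat_lit 3) t21)))))
noncomputable def l19982 : Lb := (@Lb.d (nat_lit 2) (nat_lit 33) (nat_lit 66) (@Lb.g g8 (@Lb.g g9 (@Lb.g g10 (@Lb.g g11 (@Lb.r r1689 (@Lb.r r531 (@Lb.r r386 (@Lb.d (nat_lit 545) (nat_lit 34) (nat_lit 89) (@Lb.fp (nat_lit 9) t892))))))))))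
noncomputable def l19983 : Lb := (@Lb.d (nat_lit 70) (nat_lit 32) (nat_lit 133) (@Lb.r r264 (@Lb.r r609 (@Lb.r r402 (@Lb.r r519 (@Lb.g g4 (@Lb.d (nat_lit 66) (nat_lit 0) (nat_lit 0) (@Lb.t (@Lb.fm (nat_lit 3) t167)))))))))
noncomputable def l19984 : Lb := (@Lb.r r101 (@Lb.r r24 (@Lb.d (nat_lit 576) (nat_lit 10) (nat_lit 530) (@Lb.fp (nat_lit 1) t166))))
noncomputable def l19985 : Lb := (@Lb.d (nat_lit 2) (nat_lit 258) (nat_lit 130) (@Lb.g g8 (@Lb.g g9 (@Lb.g g10 (@Lb.g g11 (@Lb.r r427 (@Lb.r r324 (@Lb.r r2218 (@Lb.r r1193 (@Lb.r r1188 (@Lb.d (nat_lit 609) (nat_lit 73) (nat_lit 546) (@Lb.fp (nat_lit 9) t386))))))))))))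
noncomputable def l19986 : Lb := (@Lb.r r323 (@Lb.d (nat_lit 2) (nat_lit 258) (nat_lit 2) (@Lb.g g8 (@Lb.g g9 (@Lb.g g10 (@Lb.r r1687 (@Lb.r r2154 (@Lb.r r97 (@Lb.r r24 (@Lb.d (nat_lit 281) (nat_lit 4) (nat_lit 1) (@Lb.t (@Lb.fp (nat_lit 9) t61))))))))))))
noncomputable def l19987 : Lb := (@Lb.d (nat_lit 2) (nat_lit 514) (nat_lit 130) (@Lb.g g8 (@Lb.g g9 (@Lb.g g10 (@Lb.g g11 (@Lb.r r2666 (@Lb.r r579 (@Lb.r r97 (@Lb.r r24 (@Lb.d (nat_lit 425) (nat_lit 4) (nat_lit 424) (@Lb.fm (nat_lit 9) t61)))))))))))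
noncomputable def l19988 : Lb := (@Lb.r r323 (@Lb.d (nat_lit 6) (nat_lit 256) (nat_lit 2) (@Lb.g g8 (@Lb.g g9 (@Lb.g g10 (@Lb.r r1687 (@Lb.r r2154 (@Lb.r r104 (@Lb.r r25 (@Lb.d (nat_lit 257) (nat_lit 0) (nat_lit 2) (@Lb.t (@Lb.fm (nat_lit 9) t61))))))))))))
noncomputable def l19989 : Lb := (@Lb.d (nat_lit 528) (nat_lit 512) (nat_lit 1) (@Lb.r r2116 (@Lb.r r1114 (@Lb.r r667 (@Lb.g g9 (@Lb.g g4 (@Lb.d (nat_lit 21) (nat_lit 6) (nat_lit 0) (@Lb.r r299 (@Lb.r r98 (@Lb.fm (nat_lit 3) t61))))))))))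
noncomputable def l19990 : Lb := (@Lb.r r82 (@Lb.d (nat_lit 0) (nat_lit 2) (nat_lit 584) (@Lb.g g9 (@Lb.g g7 (@Lb.r r578 (@Lb.r r1121 (@Lb.d (nat_lit 5) (nat_lit 22) (nat_lit 600) (@Lb.fm (nat_lit 3) t3994))))))))
noncomputable def l19991 : Lb := (@Lb.d (nat_lit 6) (nat_lit 260) (nat_lit 128) (@Lb.r r609 (@Lb.r r619 (@Lb.r r584 (@Lb.r r326 (@Lb.g g7 (@Lb.g g6 (@Lb.g g5 (@Lb.d (nat_lit 4) (nat_lit 1) (nat_lit 129) (@Lb.t (@Lb.fm (nat_lit 9) t1085)))))))))))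
noncomputable def l19992 : Lb := (@Lb.d (nat_lit 2) (nat_lit 258) (nat_lit 2) (@Lb.g g8 (@Lb.g g9 (@Lb.g g10 (@Lb.g g11 (@Lb.r r2729 (@Lb.r r2475 (@Lb.r r2468 (@Lb.r r2438 (@Lb.d (nat_lit 609) (nat_lit 10) (nat_lit 674) (@Lb.fp (nat_lit 9) t590)))))))))))
noncomputable def l19993 : Lb := (@Lb.d (nat_lit 2) (nat_lit 9) (nat_lit 1) (@Lb.g g8 (@Lb.g g9 (@Lb.g g10 (@Lb.g g11 (@Lb.r r2729 (@Lb.r r2475 (@Lb.r r2468 (@Lb.r r2438 (@Lb.d (nat_lit 609) (nat_lit 10) (nat_lit 617) (@Lb.fp (nat_lit 9) t150)))))))))))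
noncomputable def l19994 : Lb := (@Lb.d (nat_lit 512) (nat_lit 0) (nat_lit 256) (@Lb.r r24 (@Lb.r r101 (@Lb.r r402 (@Lb.g g11 (@Lb.g g4 (@Lb.fm (nat_lit 3) t150)))))))
noncomputable def l19995 : Lb := (@Lb.d (nat_lit 2) (nat_lit 265) (nat_lit 1) (@Lb.g g8 (@Lb.g g9 (@Lb.g g10 (@Lb.g g11 (@Lb.r r169 (@Lb.r r296 (@Lb.r r391 (@Lb.r r386 (@Lb.r r132 (@Lb.d (nat_lit 2) (nat_lit 10) (nat_lit 89) (@Lb.fm (nat_lit 9) t150))))))))))))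
noncomputable def l19996 : Lb := (@Lb.r r70 (@Lb.r r263 (@Lb.d (nat_lit 42) (nat_lit 329) (nat_lit 0) (@Lb.g g8 (@Lb.g g9 (@Lb.r r2475 (@Lb.r r1606 (@Lb.r r408 (@Lb.d (nat_lit 154) (nat_lit 25) (nat_lit 16) (@Lb.fp (nat_lit 3) t580))))))))))
noncomputable def l19997 : Lb := (@Lb.d (nat_lit 16) (nat_lit 9) (nat_lit 2) (@Lb.g g8 (@Lb.g g9 (@Lb.g g10 (@Lb.g g11 (@Lb.r r425 (@Lb.r r599 (@Lb.r r2394 (@Lb.r r81 (@Lb.r r1412 (@Lb.d (nat_lit 361) (nat_lit 129) (nat_lit 362) (@Lb.fp (nat_lit 9) t2493))))))))))))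
noncomputable def l19998 : Lb := (@Lb.d (nat_lit 682) (nat_lit 646) (nat_lit 617) (@Lb.r r2650 (@Lb.r r1352 (@Lb.r r2711 (@Lb.r r361 (@Lb.g g7 (@Lb.g g6 (@Lb.d (nat_lit 16) (nat_lit 4) (nat_lit 65) (@Lb.fp (nat_lit 3) t1751)))))))))
noncomputable def l19999 : Lb := (@Lb.d (nat_lit 0) (nat_lit 256) (nat_lit 2) (@Lb.g g10 (@Lb.r r2129 (@Lb.r r98 (@Lb.d (nat_lit 0) (nat_lit 137) (nat_lit 16) (@Lb.t (@Lb.fp (nat_lit 3) t761)))))))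
noncomputable def l20000 : Lb := (@Lb.r r275 (@Lb.d (nat_lit 130) (nat_lit 256) (nat_lit 2) (@Lb.g g8 (@Lb.g g9 (@Lb.g g10 (@Lb.r r610 (@Lb.r r583 (@Lb.r r2345 (@Lb.r r264 (@Lb.d (nat_lit 130) (nat_lit 130) (nat_lit 144) (@Lb.t (@Lb.fp (nat_lit 9) t2286))))))))))))
noncomputable def l20001 : Lb := (@Lb.d (nat_lit 0) (nat_lit 514) (nat_lit 64) (@Lb.g g9 (@Lb.g g7 (@Lb.r r2146 (@Lb.r r97 (@Lb.d (nat_lit 0) (nat_lit 21) (nat_lit 537) (@Lb.fm (nat_lit 3) t3995)))))))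
noncomputable def l20002 : Lb := (@Lb.r r273 (@Lb.d (nat_lit 0) (nat_lit 32) (nat_lit 578) (@Lb.g g10 (@Lb.g g7 (@Lb.r r2641 (@Lb.r r98 (@Lb.d (nat_lit 5) (nat_lit 128) (nat_lit 149) (@Lb.fp (nat_lit 3) t1834))))))))
noncomputable def l20003 : Lb := (@Lb.d (nat_lit 165) (nat_lit 342) (nat_lit 594) (@Lb.r r2584 (@Lb.r r97 (@Lb.r r2667 (@Lb.g g7 (@Lb.g g10 (@Lb.g g5 (@Lb.g g4 (@Lb.d (nat_lit 0) (nat_lit 1) (nat_lit 81) (@Lb.fp (nat_lit 9) t838))))))))))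
noncomputable def l20004 : Lb := (@Lb.d (nat_lit 642) (nat_lit 2) (nat_lit 130) (@Lb.g g8 (@Lb.g g9 (@Lb.g g10 (@Lb.g g11 (@Lb.r r1451 (@Lb.r r106 (@Lb.r r97 (@Lb.d (nat_lit 514) (nat_lit 10) (nat_lit 393) (@Lb.fm (nat_lit 9) t3996))))))))))
noncomputable def l20005 : Lb := (@Lb.r r323 (@Lb.d (nat_lit 641) (nat_lit 546) (nat_lit 0) (@Lb.g g4 (@Lb.g g9 (@Lb.g g10 (@Lb.r r2651 (@Lb.r r2438 (@Lb.r r2137 (@Lb.d (nat_lit 90) (nat_lit 6) (nat_lit 265) (@Lb.t (@Lb.fp (nat_lit 9) t2131)))))))))))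
noncomputable def l20006 : Lb := (@Lb.r r82 (@Lb.d (nat_lit 41) (nat_lit 513) (nat_lit 136) (@Lb.g g8 (@Lb.g g9 (@Lb.g g11 (@Lb.r r402 (@Lb.r r359 (@Lb.r r516 (@Lb.d (nat_lit 146) (nat_lit 9) (nat_lit 130) (@Lb.t (@Lb.fp (nat_lit 9) t984)))))))))))
noncomputable def l20007 : Lb := (@Lb.d (nat_lit 133) (nat_lit 34) (nat_lit 66) (@Lb.g g8 (@Lb.g g9 (@Lb.g g10 (@Lb.g g11 (@Lb.r r2658 (@Lb.r r2659 (@Lb.r r101 (@Lb.r r1156 (@Lb.d (nat_lit 130) (nat_lit 169) (nat_lit 361) (@Lb.fp (nat_lit 9) t4)))))))))))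
noncomputable def l20008 : Lb := (@Lb.d (nat_lit 0) (nat_lit 0) (nat_lit 128) (@Lb.g g9 (@Lb.g g11 (@Lb.r r2471 (@Lb.r r1096 (@Lb.r r2646 (@Lb.r r409 (@Lb.d (nat_lit 280) (nat_lit 4) (nat_lit 34) (@Lb.fp (nat_lit 3) t3997)))))))))
noncomputable def l20009 : Lb := (@Lb.r r323 (@Lb.d (nat_lit 37) (nat_lit 512) (nat_lit 2) (@Lb.g g8 (@Lb.g g9 (@Lb.g g10 (@Lb.r r1689 (@Lb.r r279 (@Lb.r r1350 (@Lb.r r520 (@Lb.d (nat_lit 82) (nat_lit 0) (nat_lit 129) (@Lb.t (@Lb.fp (nat_lit 9) t1152))))))))))))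
noncomputable def l20010 : Lb := (@Lb.d (nat_lit 2) (nat_lit 608) (nat_lit 640) (@Lb.r r2308 (@Lb.r r2145 (@Lb.r r1170 (@Lb.r r1547 (@Lb.r r584 (@Lb.g g11 (@Lb.g g8 (@Lb.fm (nat_lit 3) t285)))))))))
noncomputable def l20011 : Lb := (@Lb.d (nat_lit 86) (nat_lit 256) (nat_lit 145) (@Lb.r r2116 (@Lb.r r2375 (@Lb.r r2714 (@Lb.g g7 (@Lb.g g6 (@Lb.g g9 (@Lb.g g4 (@Lb.d (nat_lit 64) (nat_lit 90) (nat_lit 128) (@Lb.fp (nat_lit 9) t2865))))))))))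
noncomputable def l20012 : Lb := (@Lb.d (nat_lit 1) (nat_lit 512) (nat_lit 130) (@Lb.g g8 (@Lb.g g10 (@Lb.g g11 (@Lb.r r586 (@Lb.r r2659 (@Lb.r r1304 (@Lb.r r2661 (@Lb.d (nat_lit 106) (nat_lit 130) (nat_lit 596) (@Lb.t (@Lb.fp (nat_lit 9) t461)))))))))))
noncomputable def l20013 : Lb := (@Lb.d (nat_lit 9) (nat_lit 256) (nat_lit 130) (@Lb.g g8 (@Lb.g g10 (@Lb.g g11 (@Lb.r r1602 (@Lb.r r2659 (@Lb.r r149 (@Lb.r r1636 (@Lb.d (nat_lit 41) (nat_lit 149) (nat_lit 288) (@Lb.t (@Lb.fp (nat_lit 9) t3998)))))))))))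
noncomputable def l20014 : Lb := (@Lb.d (nat_lit 2) (nat_lit 256) (nat_lit 128) (@Lb.g g8 (@Lb.g g11 (@Lb.r r516 (@Lb.r r263 (@Lb.r r2145 (@Lb.r r1170 (@Lb.r r516 (@Lb.d (nat_lit 530) (nat_lit 0) (nat_lit 1) (@Lb.fm (nat_lit 3) t285))))))))))
noncomputable def l20015 : Lb := (@Lb.r r275 (@Lb.d (nat_lit 1) (nat_lit 258) (nat_lit 10) (@Lb.g g8 (@Lb.g g5 (@Lb.g g10 (@Lb.r r1563 (@Lb.r r1684 (@Lb.r r1606 (@Lb.d (nat_lit 146) (nat_lit 6) (nat_lit 680) (@Lb.t (@Lb.fm (nat_lit 9) t1790)))))))))))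
noncomputable def l20016 : Lb := (@Lb.d (nat_lit 2) (nat_lit 4) (nat_lit 146) (@Lb.g g8 (@Lb.g g10 (@Lb.g g11 (@Lb.r r2705 (@Lb.r r2587 (@Lb.r r2564 (@Lb.d (nat_lit 405) (nat_lit 6) (nat_lit 416) (@Lb.t (@Lb.fp (nat_lit 9) t1941))))))))))
noncomputable def l20017 : Lb := (@Lb.d (nat_lit 0) (nat_lit 260) (nat_lit 146) (@Lb.g g10 (@Lb.g g11 (@Lb.r r2705 (@Lb.r r2587 (@Lb.r r2564 (@Lb.d (nat_lit 405) (nat_lit 6) (nat_lit 416) (@Lb.fp (nat_lit 3) t1941))))))))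
noncomputable def l20018 : Lb := (@Lb.d (nat_lit 0) (nat_lit 512) (nat_lit 130) (@Lb.g g9 (@Lb.g g10 (@Lb.g g11 (@Lb.r r166 (@Lb.r r584 (@Lb.r r299 (@Lb.r r409 (@Lb.d (nat_lit 154) (nat_lit 149) (nat_lit 105) (@Lb.t (@Lb.fm (nat_lit 9) t1925)))))))))))
noncomputable def l20019 : Lb := (@Lb.d (nat_lit 37) (nat_lit 1) (nat_lit 138) (@Lb.r r154 (@Lb.r r664 (@Lb.r r667 (@Lb.r r353 (@Lb.g g7 (@Lb.g g6 (@Lb.g g4 (@Lb.d (nat_lit 1) (nat_lit 0) (nat_lit 10) (@Lb.t (@Lb.fp (nat_lit 9) t51)))))))))))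
noncomputable def l20020 : Lb := (@Lb.d (nat_lit 5) (nat_lit 677) (nat_lit 513) (@Lb.r r21 (@Lb.r r2340 (@Lb.r r1611 (@Lb.r r338 (@Lb.g g7 (@Lb.g g6 (@Lb.g g5 (@Lb.d (nat_lit 0) (nat_lit 8) (nat_lit 64) (@Lb.t (@Lb.fm (nat_lit 9) t3999)))))))))))
noncomputable def l20021 : Lb := (@Lb.d (nat_lit 86) (nat_lit 512) (nat_lit 145) (@Lb.r r2116 (@Lb.r r2375 (@Lb.r r2714 (@Lb.g g7 (@Lb.g g6 (@Lb.g g9 (@Lb.g g4 (@Lb.d (nat_lit 66) (nat_lit 90) (nat_lit 128) (@Lb.fp (nat_lit 9) t2865))))))))))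
noncomputable def l20022 : Lb := (@Lb.g g11 (@Lb.r r273 (@Lb.r r551 (@Lb.r r340 (@Lb.r r170 (@Lb.r r153 (@Lb.d (nat_lit 0) (nat_lit 593) (nat_lit 288) (@Lb.t (@Lb.fp (nat_lit 3) t210)))))))))
noncomputable def l20023 : Lb := (@Lb.g g11 (@Lb.r r273 (@Lb.r r551 (@Lb.r r340 (@Lb.r r170 (@Lb.r r153 (@Lb.d (nat_lit 0) (nat_lit 337) (nat_lit 352) (@Lb.t (@Lb.fp (nat_lit 3) t210)))))))))
noncomputable def l20024 : Lb := (@Lb.g g11 (@Lb.r r273 (@Lb.r r551 (@Lb.r r340 (@Lb.r r170 (@Lb.r r153 (@Lb.d (nat_lit 0) (nat_lit 600) (nat_lit 354) (@Lb.t (@Lb.fp (nat_lit 3) t654)))))))))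
noncomputable def l20025 : Lb := (@Lb.g g11 (@Lb.r r273 (@Lb.r r551 (@Lb.r r340 (@Lb.r r170 (@Lb.r r153 (@Lb.d (nat_lit 2) (nat_lit 593) (nat_lit 352) (@Lb.t (@Lb.fp (nat_lit 3) t210)))))))))
noncomputable def l20026 : Lb := (@Lb.d (nat_lit 133) (nat_lit 0) (nat_lit 130) (@Lb.g g8 (@Lb.g g9 (@Lb.g g10 (@Lb.g g11 (@Lb.r r683 (@Lb.r r2410 (@Lb.r r537 (@Lb.r r536 (@Lb.d (nat_lit 73) (nat_lit 9) (nat_lit 149) (@Lb.fp (nat_lit 9) t4000)))))))))))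
noncomputable def l20027 : Lb := (@Lb.d (nat_lit 6) (nat_lit 264) (nat_lit 0) (@Lb.g g8 (@Lb.g g9 (@Lb.r r2315 (@Lb.r r2122 (@Lb.r r2152 (@Lb.r r1129 (@Lb.d (nat_lit 610) (nat_lit 72) (nat_lit 594) (@Lb.fm (nat_lit 3) t2645)))))))))
noncomputable def l20028 : Lb := (@Lb.d (nat_lit 128) (nat_lit 258) (nat_lit 130) (@Lb.g g8 (@Lb.g g9 (@Lb.g g10 (@Lb.g g11 (@Lb.r r683 (@Lb.r r2410 (@Lb.r r537 (@Lb.r r536 (@Lb.d (nat_lit 73) (nat_lit 9) (nat_lit 149) (@Lb.fp (nat_lit 9) t4000)))))))))))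
noncomputable def l20029 : Lb := (@Lb.d (nat_lit 133) (nat_lit 512) (nat_lit 130) (@Lb.g g8 (@Lb.g g9 (@Lb.g g10 (@Lb.g g11 (@Lb.r r683 (@Lb.r r2410 (@Lb.r r537 (@Lb.r r536 (@Lb.d (nat_lit 74) (nat_lit 9) (nat_lit 149) (@Lb.fp (nat_lit 9) t4000)))))))))))
noncomputable def l20030 : Lb := (@Lb.d (nat_lit 38) (nat_lit 256) (nat_lit 129) (@Lb.g g8 (@Lb.g g9 (@Lb.g g6 (@Lb.g g11 (@Lb.r r1643 (@Lb.r r1640 (@Lb.r r25 (@Lb.d (nat_lit 521) (nat_lit 153) (nat_lit 520) (@Lb.fm (nat_lit 9) t1923))))))))))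
noncomputable def l20031 : Lb := (@Lb.d (nat_lit 581) (nat_lit 1) (nat_lit 418) (@Lb.r r20 (@Lb.r r1321 (@Lb.r r595 (@Lb.g g6 (@Lb.g g5 (@Lb.d (nat_lit 0) (nat_lit 17) (nat_lit 33) (@Lb.r r387 (@Lb.fm (nat_lit 3) t1952)))))))))
noncomputable def l20032 : Lb := (@Lb.d (nat_lit 133) (nat_lit 512) (nat_lit 130) (@Lb.g g8 (@Lb.g g9 (@Lb.g g10 (@Lb.g g11 (@Lb.r r683 (@Lb.r r2410 (@Lb.r r537 (@Lb.r r536 (@Lb.d (nat_lit 73) (nat_lit 2) (nat_lit 150) (@Lb.fp (nat_lit 9) t4001)))))))))))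
noncomputable def l20033 : Lb := (@Lb.d (nat_lit 134) (nat_lit 0) (nat_lit 130) (@Lb.g g8 (@Lb.g g9 (@Lb.g g10 (@Lb.g g11 (@Lb.r r1706 (@Lb.r r1411 (@Lb.r r1177 (@Lb.r r1176 (@Lb.d (nat_lit 537) (nat_lit 90) (nat_lit 666) (@Lb.fp (nat_lit 9) t4002)))))))))))
noncomputable def l20034 : Lb := (@Lb.r r323 (@Lb.d (nat_lit 38) (nat_lit 256) (nat_lit 2) (@Lb.g g8 (@Lb.g g9 (@Lb.g g10 (@Lb.r r1689 (@Lb.r r1563 (@Lb.r r1540 (@Lb.d (nat_lit 417) (nat_lit 5) (nat_lit 617) (@Lb.t (@Lb.fp (nat_lit 9) t1599)))))))))))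
noncomputable def l20035 : Lb := (@Lb.r r21 (@Lb.d (nat_lit 33) (nat_lit 0) (nat_lit 65) (@Lb.g g8 (@Lb.g g10 (@Lb.g g7 (@Lb.r r2474 (@Lb.r r2081 (@Lb.r r2436 (@Lb.d (nat_lit 105) (nat_lit 162) (nat_lit 610) (@Lb.t (@Lb.fp (nat_lit 9) t4003)))))))))))
noncomputable def l20036 : Lb := (@Lb.d (nat_lit 581) (nat_lit 1) (nat_lit 418) (@Lb.r r20 (@Lb.r r1321 (@Lb.r r595 (@Lb.g g6 (@Lb.g g5 (@Lb.g g4 (@Lb.d (nat_lit 0) (nat_lit 17) (nat_lit 33) (@Lb.r r387 (@Lb.t (@Lb.fp (nat_lit 9) t1952)))))))))))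
noncomputable def l20037 : Lb := (@Lb.r r323 (@Lb.d (nat_lit 73) (nat_lit 8) (nat_lit 2) (@Lb.g g8 (@Lb.g g9 (@Lb.g g10 (@Lb.r r1671 (@Lb.r r2658 (@Lb.r r357 (@Lb.r r2324 (@Lb.d (nat_lit 36) (nat_lit 18) (nat_lit 104) (@Lb.t (@Lb.fm (nat_lit 9) t4004))))))))))))
noncomputable def l20038 : Lb := (@Lb.d (nat_lit 145) (nat_lit 9) (nat_lit 130) (@Lb.g g8 (@Lb.g g9 (@Lb.g g10 (@Lb.g g11 (@Lb.r r683 (@Lb.r r2410 (@Lb.r r1561 (@Lb.r r1540 (@Lb.d (nat_lit 394) (nat_lit 153) (nat_lit 133) (@Lb.fm (nat_lit 9) t3164)))))))))))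
noncomputable def l20039 : Lb := (@Lb.d (nat_lit 145) (nat_lit 2) (nat_lit 128) (@Lb.g g8 (@Lb.g g9 (@Lb.g g10 (@Lb.g g11 (@Lb.r r683 (@Lb.r r2410 (@Lb.r r548 (@Lb.r r37 (@Lb.d (nat_lit 362) (nat_lit 33) (nat_lit 149) (@Lb.fp (nat_lit 9) t2188)))))))))))
noncomputable def l20040 : Lb := (@Lb.d (nat_lit 261) (nat_lit 513) (nat_lit 136) (@Lb.r r21 (@Lb.r r100 (@Lb.r r386 (@Lb.r r1435 (@Lb.g g7 (@Lb.g g6 (@Lb.g g5 (@Lb.d (nat_lit 0) (nat_lit 1) (nat_lit 1) (@Lb.t (@Lb.fm (nat_lit 9) t4005)))))))))))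
noncomputable def l20041 : Lb := (@Lb.r r21 (@Lb.d (nat_lit 384) (nat_lit 512) (nat_lit 130) (@Lb.g g4 (@Lb.g g10 (@Lb.g g11 (@Lb.r r646 (@Lb.r r1411 (@Lb.r r97 (@Lb.d (nat_lit 676) (nat_lit 1) (nat_lit 576) (@Lb.t (@Lb.fp (nat_lit 9) t4006)))))))))))
noncomputable def l20042 : Lb := (@Lb.d (nat_lit 2) (nat_lit 521) (nat_lit 130) (@Lb.g g8 (@Lb.g g9 (@Lb.g g10 (@Lb.g g11 (@Lb.r r134 (@Lb.r r580 (@Lb.r r2327 (@Lb.r r1553 (@Lb.r r36 (@Lb.d (nat_lit 1) (nat_lit 40) (nat_lit 130) (@Lb.fm (nat_lit 9) t925))))))))))))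
noncomputable def l20043 : Lb := (@Lb.g g8 (@Lb.g g5 (@Lb.r r2451 (@Lb.r r402 (@Lb.r r2641 (@Lb.d (nat_lit 0) (nat_lit 536) (nat_lit 325) (@Lb.fm (nat_lit 3) t2751)))))))
noncomputable def l20044 : Lb := (@Lb.d (nat_lit 2) (nat_lit 265) (nat_lit 130) (@Lb.g g8 (@Lb.g g9 (@Lb.g g10 (@Lb.g g11 (@Lb.r r134 (@Lb.r r580 (@Lb.r r2327 (@Lb.r r1553 (@Lb.r r36 (@Lb.d (nat_lit 2) (nat_lit 40) (nat_lit 130) (@Lb.fm (nat_lit 9) t925))))))))))))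
noncomputable def l20045 : Lb := (@Lb.r r580 (@Lb.r r593 (@Lb.d (nat_lit 32) (nat_lit 16) (nat_lit 642) (@Lb.g g10 (@Lb.g g11 (@Lb.r r344 (@Lb.r r1382 (@Lb.r r1637 (@Lb.d (nat_lit 614) (nat_lit 22) (nat_lit 70) (@Lb.fm (nat_lit 3) t547))))))))))
noncomputable def l20046 : Lb := (@Lb.d (nat_lit 0) (nat_lit 2) (nat_lit 2) (@Lb.g g9 (@Lb.g g10 (@Lb.r r1671 (@Lb.r r1634 (@Lb.r r97 (@Lb.r r24 (@Lb.d (nat_lit 400) (nat_lit 68) (nat_lit 130) (@Lb.fp (nat_lit 3) t2113)))))))))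
noncomputable def l20047 : Lb := (@Lb.r r337 (@Lb.r r2723 (@Lb.r r1682 (@Lb.r r2129 (@Lb.r r2564 (@Lb.d (nat_lit 1) (nat_lit 640) (nat_lit 256) (@Lb.fp (nat_lit 1) t242)))))))
noncomputable def l20048 : Lb := (@Lb.d (nat_lit 0) (nat_lit 385) (nat_lit 168) (@Lb.r r20 (@Lb.r r1362 (@Lb.r r2467 (@Lb.r r2337 (@Lb.g g7 (@Lb.d (nat_lit 0) (nat_lit 16) (nat_lit 128) (@Lb.t (@Lb.fp (nat_lit 3) t98)))))))))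
noncomputable def l20049 : Lb := (@Lb.d (nat_lit 512) (nat_lit 512) (nat_lit 256) (@Lb.r r24 (@Lb.r r101 (@Lb.r r402 (@Lb.g g11 (@Lb.d (nat_lit 0) (nat_lit 0) (nat_lit 128) (@Lb.t (@Lb.fm (nat_lit 3) t721))))))))
noncomputable def l20050 : Lb := (@Lb.d (nat_lit 2) (nat_lit 266) (nat_lit 129) (@Lb.g g8 (@Lb.g g9 (@Lb.g g10 (@Lb.g g11 (@Lb.r r1451 (@Lb.r r409 (@Lb.r r2138 (@Lb.r r1169 (@Lb.d (nat_lit 520) (nat_lit 9) (nat_lit 18) (@Lb.fp (nat_lit 9) t4007)))))))))))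
noncomputable def l20051 : Lb := (@Lb.d (nat_lit 16) (nat_lit 8) (nat_lit 146) (@Lb.g g10 (@Lb.g g11 (@Lb.r r387 (@Lb.r r1045 (@Lb.r r8 (@Lb.d (nat_lit 522) (nat_lit 66) (nat_lit 137) (@Lb.fp (nat_lit 3) t51))))))))
noncomputable def l20052 : Lb := (@Lb.d (nat_lit 128) (nat_lit 512) (nat_lit 258) (@Lb.g g10 (@Lb.g g7 (@Lb.r r386 (@Lb.r r2069 (@Lb.r r8 (@Lb.d (nat_lit 290) (nat_lit 0) (nat_lit 41) (@Lb.fp (nat_lit 3) t1155))))))))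
noncomputable def l20053 : Lb := (@Lb.d (nat_lit 520) (nat_lit 256) (nat_lit 0) (@Lb.r r24 (@Lb.r r2138 (@Lb.r r2331 (@Lb.g g5 (@Lb.d (nat_lit 0) (nat_lit 129) (nat_lit 0) (@Lb.t (@Lb.fp (nat_lit 3) t264))))))))
noncomputable def l20054 : Lb := (@Lb.r r1045 (@Lb.d (nat_lit 261) (nat_lit 264) (nat_lit 130) (@Lb.g g4 (@Lb.g g10 (@Lb.g g11 (@Lb.r r387 (@Lb.d (nat_lit 1) (nat_lit 73) (nat_lit 136) (@Lb.t (@Lb.fp (nat_lit 9) t51)))))))))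
noncomputable def l20055 : Lb := (@Lb.r r323 (@Lb.d (nat_lit 0) (nat_lit 34) (nat_lit 2) (@Lb.g g8 (@Lb.g g9 (@Lb.g g10 (@Lb.r r599 (@Lb.r r392 (@Lb.r r74 (@Lb.d (nat_lit 17) (nat_lit 4) (nat_lit 153) (@Lb.t (@Lb.fm (nat_lit 9) t221)))))))))))
noncomputable def l20056 : Lb := (@Lb.d (nat_lit 133) (nat_lit 261) (nat_lit 74) (@Lb.g g8 (@Lb.g g9 (@Lb.g g10 (@Lb.g g11 (@Lb.r r683 (@Lb.r r2410 (@Lb.r r537 (@Lb.r r516 (@Lb.d (nat_lit 138) (nat_lit 89) (nat_lit 21) (@Lb.fm (nat_lit 9) t2804)))))))))))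
noncomputable def l20057 : Lb := (@Lb.d (nat_lit 2) (nat_lit 256) (nat_lit 128) (@Lb.g g8 (@Lb.g g10 (@Lb.g g11 (@Lb.r r2699 (@Lb.r r2601 (@Lb.r r2724 (@Lb.r r134 (@Lb.d (nat_lit 41) (nat_lit 146) (nat_lit 298) (@Lb.t (@Lb.fp (nat_lit 9) t2926)))))))))))
noncomputable def l20058 : Lb := (@Lb.d (nat_lit 2) (nat_lit 514) (nat_lit 2) (@Lb.g g8 (@Lb.g g9 (@Lb.g g10 (@Lb.r r2585 (@Lb.r r595 (@Lb.r r386 (@Lb.d (nat_lit 289) (nat_lit 162) (nat_lit 130) (@Lb.t (@Lb.fm (nat_lit 9) t791))))))))))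
noncomputable def l20059 : Lb := (@Lb.r r134 (@Lb.r r324 (@Lb.r r539 (@Lb.r r289 (@Lb.r r36 (@Lb.d (nat_lit 320) (nat_lit 320) (nat_lit 576) (@Lb.fm (nat_lit 1) t2645)))))))
noncomputable def l20060 : Lb := (@Lb.d (nat_lit 2) (nat_lit 18) (nat_lit 1) (@Lb.g g8 (@Lb.g g9 (@Lb.g g10 (@Lb.r r1623 (@Lb.r r1366 (@Lb.r r2217 (@Lb.d (nat_lit 277) (nat_lit 18) (nat_lit 166) (@Lb.t (@Lb.fm (nat_lit 9) t791))))))))))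
noncomputable def l20061 : Lb := (@Lb.d (nat_lit 2) (nat_lit 514) (nat_lit 2) (@Lb.g g8 (@Lb.g g9 (@Lb.g g10 (@Lb.r r2666 (@Lb.r r579 (@Lb.r r2337 (@Lb.r r24 (@Lb.d (nat_lit 361) (nat_lit 97) (nat_lit 618) (@Lb.t (@Lb.fp (nat_lit 9) t1649)))))))))))
noncomputable def l20062 : Lb := (@Lb.g g4 (@Lb.g g9 (@Lb.r r2599 (@Lb.r r1364 (@Lb.r r2218 (@Lb.r r2201 (@Lb.d (nat_lit 21) (nat_lit 649) (nat_lit 18) (@Lb.fp (nat_lit 3) t353))))))))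
noncomputable def l20063 : Lb := (@Lb.d (nat_lit 2) (nat_lit 512) (nat_lit 0) (@Lb.g g8 (@Lb.g g9 (@Lb.r r2603 (@Lb.r r2728 (@Lb.r r2218 (@Lb.r r2201 (@Lb.d (nat_lit 21) (nat_lit 137) (nat_lit 153) (@Lb.fp (nat_lit 3) t353)))))))))
noncomputable def l20064 : Lb := (@Lb.d (nat_lit 2) (nat_lit 34) (nat_lit 130) (@Lb.g g8 (@Lb.g g9 (@Lb.g g10 (@Lb.g g11 (@Lb.r r387 (@Lb.r r2154 (@Lb.r r2073 (@Lb.d (nat_lit 265) (nat_lit 20) (nat_lit 137) (@Lb.fp (nat_lit 9) t719))))))))))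
noncomputable def l20065 : Lb := (@Lb.d (nat_lit 514) (nat_lit 0) (nat_lit 32) (@Lb.r r154 (@Lb.r r660 (@Lb.r r663 (@Lb.r r353 (@Lb.g g7 (@Lb.d (nat_lit 0) (nat_lit 0) (nat_lit 64) (@Lb.t (@Lb.fp (nat_lit 3) t334)))))))))
noncomputable def l20066 : Lb := (@Lb.r r82 (@Lb.d (nat_lit 4) (nat_lit 290) (nat_lit 64) (@Lb.g g8 (@Lb.g g9 (@Lb.g g11 (@Lb.r r1698 (@Lb.r r2601 (@Lb.r r1640 (@Lb.r r587 (@Lb.d (nat_lit 385) (nat_lit 162) (nat_lit 598) (@Lb.t (@Lb.fm (nat_lit 9) t2095))))))))))))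
noncomputable def l20067 : Lb := (@Lb.r r346 (@Lb.d (nat_lit 69) (nat_lit 546) (nat_lit 384) (@Lb.g g8 (@Lb.g g9 (@Lb.g g7 (@Lb.r r418 (@Lb.r r1321 (@Lb.r r360 (@Lb.d (nat_lit 22) (nat_lit 42) (nat_lit 357) (@Lb.t (@Lb.fm (nat_lit 9) t1161)))))))))))
noncomputable def l20068 : Lb := (@Lb.r r21 (@Lb.d (nat_lit 1) (nat_lit 512) (nat_lit 2) (@Lb.g g8 (@Lb.g g10 (@Lb.g g11 (@Lb.r r2379 (@Lb.r r386 (@Lb.r r149 (@Lb.r r72 (@Lb.d (nat_lit 552) (nat_lit 128) (nat_lit 70) (@Lb.t (@Lb.fm (nat_lit 9) t1350))))))))))))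
noncomputable def l20069 : Lb := (@Lb.d (nat_lit 0) (nat_lit 289) (nat_lit 130) (@Lb.g g9 (@Lb.g g10 (@Lb.g g11 (@Lb.r r679 (@Lb.r r610 (@Lb.r r529 (@Lb.d (nat_lit 97) (nat_lit 41) (nat_lit 129) (@Lb.t (@Lb.fp (nat_lit 9) t175))))))))))
noncomputable def l20070 : Lb := (@Lb.d (nat_lit 24) (nat_lit 100) (nat_lit 597) (@Lb.r r24 (@Lb.r r2661 (@Lb.r r2403 (@Lb.g g10 (@Lb.g g5 (@Lb.d (nat_lit 32) (nat_lit 5) (nat_lit 4) (@Lb.fp (nat_lit 3) t3111))))))))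
noncomputable def l20071 : Lb := (@Lb.d (nat_lit 2) (nat_lit 290) (nat_lit 2) (@Lb.g g8 (@Lb.g g9 (@Lb.g g10 (@Lb.r r1194 (@Lb.r r2468 (@Lb.r r1627 (@Lb.r r1445 (@Lb.d (nat_lit 352) (nat_lit 164) (nat_lit 384) (@Lb.t (@Lb.fp (nat_lit 9) t49)))))))))))
noncomputable def l20072 : Lb := (@Lb.d (nat_lit 0) (nat_lit 545) (nat_lit 130) (@Lb.g g9 (@Lb.g g10 (@Lb.g g11 (@Lb.r r679 (@Lb.r r610 (@Lb.r r529 (@Lb.d (nat_lit 96) (nat_lit 41) (nat_lit 129) (@Lb.t (@Lb.fp (nat_lit 9) t175))))))))))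
noncomputable def l20073 : Lb := (@Lb.d (nat_lit 26) (nat_lit 264) (nat_lit 73) (@Lb.g g8 (@Lb.g g9 (@Lb.g g10 (@Lb.g g11 (@Lb.r r1671 (@Lb.r r610 (@Lb.r r36 (@Lb.r r1557 (@Lb.d (nat_lit 410) (nat_lit 150) (nat_lit 336) (@Lb.fm (nat_lit 9) t4008)))))))))))
noncomputable def l20074 : Lb := (@Lb.r r21 (@Lb.d (nat_lit 2) (nat_lit 512) (nat_lit 130) (@Lb.g g8 (@Lb.g g10 (@Lb.g g11 (@Lb.r r2379 (@Lb.r r386 (@Lb.r r149 (@Lb.r r72 (@Lb.d (nat_lit 552) (nat_lit 128) (nat_lit 70) (@Lb.t (@Lb.fm (nat_lit 9) t1350))))))))))))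
noncomputable def l20075 : Lb := (@Lb.d (nat_lit 16) (nat_lit 521) (nat_lit 73) (@Lb.g g8 (@Lb.g g9 (@Lb.g g10 (@Lb.g g11 (@Lb.r r1667 (@Lb.r r1434 (@Lb.r r1321 (@Lb.r r2152 (@Lb.d (nat_lit 277) (nat_lit 42) (nat_lit 73) (@Lb.fp (nat_lit 9) t2317)))))))))))
noncomputable def l20076 : Lb := (@Lb.d (nat_lit 0) (nat_lit 550) (nat_lit 64) (@Lb.g g8 (@Lb.g g9 (@Lb.g g10 (@Lb.g g11 (@Lb.r r1699 (@Lb.r r610 (@Lb.r r36 (@Lb.r r2581 (@Lb.r r2084 (@Lb.d (nat_lit 672) (nat_lit 162) (nat_lit 81) (@Lb.fm (nat_lit 9) t4009))))))))))))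
noncomputable def l20077 : Lb := (@Lb.d (nat_lit 260) (nat_lit 677) (nat_lit 534) (@Lb.r r81 (@Lb.r r102 (@Lb.r r597 (@Lb.r r343 (@Lb.g g7 (@Lb.g g6 (@Lb.g g5 (@Lb.g g4 (@Lb.d (nat_lit 1) (nat_lit 1) (nat_lit 1) (@Lb.fp (nat_lit 9) t1205)))))))))))
noncomputable def l20078 : Lb := (@Lb.r r21 (@Lb.r r323 (@Lb.d (nat_lit 130) (nat_lit 8) (nat_lit 2) (@Lb.g g8 (@Lb.g g10 (@Lb.r r615 (@Lb.r r533 (@Lb.r r292 (@Lb.d (nat_lit 616) (nat_lit 41) (nat_lit 37) (@Lb.fp (nat_lit 3) t221))))))))))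
noncomputable def l20079 : Lb := (@Lb.d (nat_lit 262) (nat_lit 390) (nat_lit 529) (@Lb.r r289 (@Lb.r r595 (@Lb.r r326 (@Lb.g g6 (@Lb.g g5 (@Lb.g g4 (@Lb.d (nat_lit 1) (nat_lit 17) (nat_lit 1) (@Lb.t (@Lb.fp (nat_lit 9) t1205))))))))))
noncomputable def l20080 : Lb := (@Lb.r r21 (@Lb.d (nat_lit 2) (nat_lit 512) (nat_lit 73) (@Lb.g g8 (@Lb.g g10 (@Lb.g g11 (@Lb.r r2634 (@Lb.r r579 (@Lb.r r149 (@Lb.r r72 (@Lb.d (nat_lit 394) (nat_lit 128) (nat_lit 358) (@Lb.t (@Lb.fm (nat_lit 9) t1350))))))))))))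
noncomputable def l20081 : Lb := (@Lb.d (nat_lit 293) (nat_lit 330) (nat_lit 1) (@Lb.r r168 (@Lb.r r90 (@Lb.r r1427 (@Lb.g g9 (@Lb.g g4 (@Lb.d (nat_lit 17) (nat_lit 65) (nat_lit 0) (@Lb.r r291 (@Lb.r r98 (@Lb.fm (nat_lit 3) t4010))))))))))
noncomputable def l20082 : Lb := (@Lb.d (nat_lit 577) (nat_lit 416) (nat_lit 586) (@Lb.r r1305 (@Lb.r r1428 (@Lb.r r2390 (@Lb.r r611 (@Lb.g g7 (@Lb.g g6 (@Lb.g g5 (@Lb.d (nat_lit 0) (nat_lit 2) (nat_lit 133) (@Lb.t (@Lb.fm (nat_lit 9) t1256)))))))))))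
noncomputable def l20083 : Lb := (@Lb.d (nat_lit 392) (nat_lit 1) (nat_lit 256) (@Lb.r r289 (@Lb.r r535 (@Lb.r r328 (@Lb.r r2694 (@Lb.g g7 (@Lb.g g6 (@Lb.d (nat_lit 0) (nat_lit 0) (nat_lit 133) (@Lb.fm (nat_lit 3) t1256)))))))))
noncomputable def l20084 : Lb := (@Lb.d (nat_lit 640) (nat_lit 288) (nat_lit 658) (@Lb.r r1361 (@Lb.r r2662 (@Lb.r r1691 (@Lb.r r2724 (@Lb.g g7 (@Lb.g g5 (@Lb.d (nat_lit 4) (nat_lit 0) (nat_lit 64) (@Lb.r r98 (@Lb.fp (nat_lit 3) t347))))))))))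
noncomputable def l20085 : Lb := (@Lb.d (nat_lit 34) (nat_lit 128) (nat_lit 18) (@Lb.r r37 (@Lb.r r88 (@Lb.r r1355 (@Lb.g g10 (@Lb.d (nat_lit 32) (nat_lit 4) (nat_lit 17) (@Lb.r r387 (@Lb.r r145 (@Lb.t (@Lb.fp (nat_lit 3) t4011))))))))))
noncomputable def l20086 : Lb := (@Lb.r r82 (@Lb.r r275 (@Lb.d (nat_lit 9) (nat_lit 2) (nat_lit 0) (@Lb.g g8 (@Lb.g g9 (@Lb.r r2201 (@Lb.r r402 (@Lb.r r2375 (@Lb.r r1544 (@Lb.d (nat_lit 130) (nat_lit 0) (nat_lit 256) (@Lb.fm (nat_lit 3) t3804)))))))))))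
noncomputable def l20087 : Lb := (@Lb.d (nat_lit 0) (nat_lit 258) (nat_lit 130) (@Lb.g g8 (@Lb.g g9 (@Lb.g g10 (@Lb.g g11 (@Lb.r r662 (@Lb.r r356 (@Lb.r r1323 (@Lb.r r1313 (@Lb.d (nat_lit 9) (nat_lit 73) (nat_lit 642) (@Lb.fp (nat_lit 9) t4012)))))))))))
noncomputable def l20088 : Lb := (@Lb.r r20 (@Lb.d (nat_lit 0) (nat_lit 418) (nat_lit 64) (@Lb.g g9 (@Lb.g g10 (@Lb.g g11 (@Lb.r r1642 (@Lb.r r619 (@Lb.r r1608 (@Lb.d (nat_lit 8) (nat_lit 129) (nat_lit 256) (@Lb.t (@Lb.fm (nat_lit 9) t4013)))))))))))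
noncomputable def l20089 : Lb := (@Lb.d (nat_lit 96) (nat_lit 146) (nat_lit 149) (@Lb.r r2631 (@Lb.r r2394 (@Lb.g g6 (@Lb.g g5 (@Lb.g g8 (@Lb.d (nat_lit 2) (nat_lit 129) (nat_lit 1) (@Lb.t (@Lb.fp (nat_lit 9) t4014)))))))))
noncomputable def l20090 : Lb := (@Lb.r r21 (@Lb.r r263 (@Lb.d (nat_lit 33) (nat_lit 8) (nat_lit 2) (@Lb.g g8 (@Lb.g g10 (@Lb.r r1427 (@Lb.r r2137 (@Lb.r r20 (@Lb.d (nat_lit 2) (nat_lit 130) (nat_lit 2) (@Lb.fm (nat_lit 3) t1891))))))))))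
noncomputable def l20091 : Lb := (@Lb.d (nat_lit 388) (nat_lit 582) (nat_lit 33) (@Lb.r r1178 (@Lb.r r1684 (@Lb.r r2401 (@Lb.r r659 (@Lb.g g7 (@Lb.g g6 (@Lb.g g9 (@Lb.g g4 (@Lb.fp (nat_lit 9) t1583))))))))))
noncomputable def l20092 : Lb := (@Lb.r r20 (@Lb.d (nat_lit 0) (nat_lit 674) (nat_lit 64) (@Lb.g g9 (@Lb.g g10 (@Lb.g g11 (@Lb.r r1642 (@Lb.r r619 (@Lb.r r1608 (@Lb.d (nat_lit 6) (nat_lit 128) (nat_lit 256) (@Lb.t (@Lb.fm (nat_lit 9) t2605)))))))))))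
noncomputable def l20093 : Lb := (@Lb.r r260 (@Lb.r r273 (@Lb.r r322 (@Lb.g g11 (@Lb.r r2708 (@Lb.r r89 (@Lb.r r2662 (@Lb.d (nat_lit 2) (nat_lit 133) (nat_lit 16) (@Lb.t (@Lb.fp (nat_lit 3) t4015))))))))))
noncomputable def l20094 : Lb := (@Lb.d (nat_lit 144) (nat_lit 256) (nat_lit 81) (@Lb.r r1355 (@Lb.r r1670 (@Lb.g g7 (@Lb.g g6 (@Lb.g g8 (@Lb.d (nat_lit 0) (nat_lit 0) (nat_lit 137) (@Lb.t (@Lb.fp (nat_lit 9) t2608)))))))))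
noncomputable def l20095 : Lb := (@Lb.d (nat_lit 128) (nat_lit 4) (nat_lit 128) (@Lb.g g8 (@Lb.g g9 (@Lb.g g10 (@Lb.g g11 (@Lb.r r1666 (@Lb.r r1411 (@Lb.r r681 (@Lb.r r1636 (@Lb.d (nat_lit 649) (nat_lit 38) (nat_lit 33) (@Lb.fp (nat_lit 9) t4016)))))))))))
noncomputable def l20096 : Lb := (@Lb.d (nat_lit 2) (nat_lit 586) (nat_lit 2) (@Lb.r r2196 (@Lb.r r594 (@Lb.r r2449 (@Lb.r r323 (@Lb.g g7 (@Lb.g g6 (@Lb.d (nat_lit 0) (nat_lit 0) (nat_lit 64) (@Lb.fm (nat_lit 3) t764)))))))))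
noncomputable def l20097 : Lb := (@Lb.d (nat_lit 0) (nat_lit 0) (nat_lit 2) (@Lb.g g4 (@Lb.g g10 (@Lb.r r2129 (@Lb.r r98 (@Lb.d (nat_lit 0) (nat_lit 137) (nat_lit 16) (@Lb.fp (nat_lit 3) t761)))))))
noncomputable def l20098 : Lb := (@Lb.r r2196 (@Lb.r r89 (@Lb.r r2150 (@Lb.d (nat_lit 0) (nat_lit 384) (nat_lit 16) (@Lb.fp (nat_lit 1) t4017)))))
noncomputable def l20099 : Lb := (@Lb.d (nat_lit 533) (nat_lit 408) (nat_lit 258) (@Lb.r r85 (@Lb.r r2474 (@Lb.g g11 (@Lb.g g6 (@Lb.g g5 (@Lb.d (nat_lit 0) (nat_lit 2) (nat_lit 129) (@Lb.t (@Lb.fp (nat_lit 9) t4018)))))))))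
noncomputable def l20100 : Lb := (@Lb.d (nat_lit 9) (nat_lit 262) (nat_lit 128) (@Lb.g g8 (@Lb.g g9 (@Lb.g g10 (@Lb.g g11 (@Lb.r r427 (@Lb.r r324 (@Lb.r r2218 (@Lb.r r1193 (@Lb.r r1188 (@Lb.d (nat_lit 609) (nat_lit 73) (nat_lit 546) (@Lb.fp (nat_lit 9) t1246))))))))))))
noncomputable def l20101 : Lb := (@Lb.r r21 (@Lb.d (nat_lit 146) (nat_lit 512) (nat_lit 66) (@Lb.g g8 (@Lb.g g10 (@Lb.g g11 (@Lb.r r1707 (@Lb.r r2129 (@Lb.r r2666 (@Lb.r r1636 (@Lb.d (nat_lit 290) (nat_lit 154) (nat_lit 392) (@Lb.t (@Lb.fp (nat_lit 9) t2198))))))))))))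
noncomputable def l20102 : Lb := (@Lb.r r2196 (@Lb.r r89 (@Lb.r r2150 (@Lb.d (nat_lit 5) (nat_lit 129) (nat_lit 16) (@Lb.fp (nat_lit 1) t4019)))))
noncomputable def l20103 : Lb := (@Lb.r r676 (@Lb.r r1303 (@Lb.r r2178 (@Lb.r r2081 (@Lb.r r516 (@Lb.d (nat_lit 0) (nat_lit 145) (nat_lit 426) (@Lb.fp (nat_lit 1) t2414)))))))
noncomputable def l20104 : Lb := (@Lb.d (nat_lit 329) (nat_lit 672) (nat_lit 258) (@Lb.r r101 (@Lb.g g10 (@Lb.d (nat_lit 0) (nat_lit 8) (nat_lit 2) (@Lb.t (@Lb.fm (nat_lit 3) t749))))))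
noncomputable def l20105 : Lb := (@Lb.d (nat_lit 362) (nat_lit 41) (nat_lit 553) (@Lb.r r1300 (@Lb.r r97 (@Lb.r r2459 (@Lb.r r406 (@Lb.g g7 (@Lb.g g5 (@Lb.g g4 (@Lb.d (nat_lit 17) (nat_lit 1) (nat_lit 64) (@Lb.t (@Lb.fp (nat_lit 9) t47)))))))))))
noncomputable def l20106 : Lb := (@Lb.r r277 (@Lb.d (nat_lit 130) (nat_lit 512) (nat_lit 130) (@Lb.g g8 (@Lb.g g10 (@Lb.g g11 (@Lb.r r1162 (@Lb.r r1432 (@Lb.r r2327 (@Lb.d (nat_lit 581) (nat_lit 70) (nat_lit 266) (@Lb.t (@Lb.fm (nat_lit 9) t3284)))))))))))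
noncomputable def l20107 : Lb := (@Lb.d (nat_lit 389) (nat_lit 148) (nat_lit 609) (@Lb.r r2635 (@Lb.r r406 (@Lb.r r72 (@Lb.r r97 (@Lb.g g7 (@Lb.g g6 (@Lb.d (nat_lit 80) (nat_lit 0) (nat_lit 65) (@Lb.fm (nat_lit 3) t4020)))))))))
noncomputable def l20108 : Lb := (@Lb.d (nat_lit 0) (nat_lit 260) (nat_lit 128) (@Lb.g g8 (@Lb.g g9 (@Lb.g g10 (@Lb.g g11 (@Lb.r r427 (@Lb.r r682 (@Lb.r r1320 (@Lb.r r25 (@Lb.d (nat_lit 618) (nat_lit 8) (nat_lit 153) (@Lb.fp (nat_lit 9) t4021)))))))))))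
noncomputable def l20109 : Lb := (@Lb.d (nat_lit 144) (nat_lit 65) (nat_lit 640) (@Lb.r r101 (@Lb.r r24 (@Lb.r r402 (@Lb.g g11 (@Lb.g g6 (@Lb.fm (nat_lit 3) t4022)))))))
noncomputable def l20110 : Lb := (@Lb.d (nat_lit 32) (nat_lit 0) (nat_lit 66) (@Lb.g g9 (@Lb.g g10 (@Lb.g g11 (@Lb.r r1685 (@Lb.r r100 (@Lb.r r602 (@Lb.d (nat_lit 297) (nat_lit 6) (nat_lit 64) (@Lb.t (@Lb.fm (nat_lit 9) t1988))))))))))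
noncomputable def l20111 : Lb := (@Lb.d (nat_lit 32) (nat_lit 256) (nat_lit 66) (@Lb.g g9 (@Lb.g g10 (@Lb.g g11 (@Lb.r r1685 (@Lb.r r100 (@Lb.r r602 (@Lb.d (nat_lit 297) (nat_lit 6) (nat_lit 10) (@Lb.t (@Lb.fm (nat_lit 9) t1988))))))))))
noncomputable def l20112 : Lb := (@Lb.r r21 (@Lb.r r70 (@Lb.d (nat_lit 130) (nat_lit 256) (nat_lit 256) (@Lb.g g8 (@Lb.g g7 (@Lb.r r2646 (@Lb.r r1320 (@Lb.r r25 (@Lb.d (nat_lit 517) (nat_lit 96) (nat_lit 5) (@Lb.fm (nat_lit 3) t3045))))))))))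
noncomputable def l20113 : Lb := (@Lb.r r82 (@Lb.d (nat_lit 130) (nat_lit 2) (nat_lit 256) (@Lb.g g8 (@Lb.g g9 (@Lb.g g7 (@Lb.r r2646 (@Lb.r r1321 (@Lb.r r264 (@Lb.d (nat_lit 388) (nat_lit 1) (nat_lit 517) (@Lb.t (@Lb.fp (nat_lit 9) t4023)))))))))))
noncomputable def l20114 : Lb := (@Lb.d (nat_lit 0) (nat_lit 576) (nat_lit 650) (@Lb.r r402 (@Lb.g g9 (@Lb.t (@Lb.fm (nat_lit 3) t2930)))))
noncomputable def l20115 : Lb := (@Lb.d (nat_lit 260) (nat_lit 262) (nat_lit 342) (@Lb.r r81 (@Lb.r r102 (@Lb.r r597 (@Lb.r r343 (@Lb.g g7 (@Lb.g g6 (@Lb.g g5 (@Lb.g g4 (@Lb.d (nat_lit 1) (nat_lit 1) (nat_lit 65) (@Lb.fp (nat_lit 9) t473)))))))))))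
noncomputable def l20116 : Lb := (@Lb.d (nat_lit 128) (nat_lit 256) (nat_lit 386) (@Lb.g g9 (@Lb.g g10 (@Lb.g g11 (@Lb.r r1638 (@Lb.r r24 (@Lb.r r101 (@Lb.d (nat_lit 585) (nat_lit 64) (nat_lit 672) (@Lb.t (@Lb.fm (nat_lit 9) t993))))))))))
noncomputable def l20117 : Lb := (@Lb.r r322 (@Lb.d (nat_lit 2) (nat_lit 528) (nat_lit 648) (@Lb.g g8 (@Lb.g g9 (@Lb.g g7 (@Lb.r r361 (@Lb.r r1124 (@Lb.r r2122 (@Lb.d (nat_lit 514) (nat_lit 10) (nat_lit 25) (@Lb.t (@Lb.fm (nat_lit 9) t2422)))))))))))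
noncomputable def l20118 : Lb := (@Lb.d (nat_lit 146) (nat_lit 258) (nat_lit 64) (@Lb.g g8 (@Lb.g g9 (@Lb.g g10 (@Lb.g g11 (@Lb.r r427 (@Lb.r r610 (@Lb.r r409 (@Lb.r r388 (@Lb.d (nat_lit 420) (nat_lit 25) (nat_lit 585) (@Lb.fp (nat_lit 9) t4024)))))))))))
noncomputable def l20119 : Lb := (@Lb.r r532 (@Lb.r r82 (@Lb.d (nat_lit 4) (nat_lit 608) (nat_lit 256) (@Lb.g g5 (@Lb.g g7 (@Lb.r r1112 (@Lb.r r2438 (@Lb.d (nat_lit 0) (nat_lit 6) (nat_lit 352) (@Lb.fm (nat_lit 3) t4025)))))))))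
noncomputable def l20120 : Lb := (@Lb.r r331 (@Lb.d (nat_lit 165) (nat_lit 512) (nat_lit 2) (@Lb.g g8 (@Lb.g g9 (@Lb.g g10 (@Lb.r r1433 (@Lb.r r2343 (@Lb.r r1604 (@Lb.r r1098 (@Lb.d (nat_lit 337) (nat_lit 138) (nat_lit 136) (@Lb.t (@Lb.fm (nat_lit 9) t1039))))))))))))
noncomputable def l20121 : Lb := (@Lb.r r616 (@Lb.r r2665 (@Lb.r r2390 (@Lb.r r2475 (@Lb.r r1188 (@Lb.d (nat_lit 5) (nat_lit 320) (nat_lit 512) (@Lb.fp (nat_lit 1) t748)))))))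
noncomputable def l20122 : Lb := (@Lb.d (nat_lit 130) (nat_lit 260) (nat_lit 128) (@Lb.g g8 (@Lb.g g9 (@Lb.g g10 (@Lb.g g11 (@Lb.r r292 (@Lb.r r651 (@Lb.r r1634 (@Lb.r r2069 (@Lb.r r1060 (@Lb.d (nat_lit 609) (nat_lit 130) (nat_lit 41) (@Lb.fm (nat_lit 9) t3628))))))))))))
noncomputable def l20123 : Lb := (@Lb.d (nat_lit 146) (nat_lit 2) (nat_lit 128) (@Lb.g g8 (@Lb.g g9 (@Lb.g g10 (@Lb.g g11 (@Lb.r r264 (@Lb.r r2455 (@Lb.r r1169 (@Lb.r r1618 (@Lb.r r132 (@Lb.d (nat_lit 616) (nat_lit 32) (nat_lit 326) (@Lb.fm (nat_lit 9) t212))))))))))))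
noncomputable def l20124 : Lb := (@Lb.r r21 (@Lb.r r326 (@Lb.d (nat_lit 162) (nat_lit 256) (nat_lit 8) (@Lb.g g8 (@Lb.g g11 (@Lb.r r2198 (@Lb.r r97 (@Lb.d (nat_lit 68) (nat_lit 130) (nat_lit 512) (@Lb.fm (nat_lit 3) t1156)))))))))
noncomputable def l20125 : Lb := (@Lb.d (nat_lit 1) (nat_lit 256) (nat_lit 657) (@Lb.r r402 (@Lb.r r1121 (@Lb.g g11 (@Lb.g g4 (@Lb.d (nat_lit 1) (nat_lit 0) (nat_lit 0) (@Lb.fp (nat_lit 3) t1344)))))))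
noncomputable def l20126 : Lb := (@Lb.d (nat_lit 146) (nat_lit 514) (nat_lit 5) (@Lb.g g8 (@Lb.g g9 (@Lb.g g10 (@Lb.g g11 (@Lb.r r1706 (@Lb.r r676 (@Lb.r r1447 (@Lb.r r405 (@Lb.r r2084 (@Lb.d (nat_lit 665) (nat_lit 65) (nat_lit 586) (@Lb.fm (nat_lit 9) t4026))))))))))))
noncomputable def l20127 : Lb := (@Lb.g g4 (@Lb.r r1291 (@Lb.r r1098 (@Lb.r r1049 (@Lb.d (nat_lit 18) (nat_lit 256) (nat_lit 32) (@Lb.t (@Lb.fm (nat_lit 3) t396)))))))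
noncomputable def l20128 : Lb := (@Lb.d (nat_lit 1) (nat_lit 0) (nat_lit 657) (@Lb.r r402 (@Lb.r r1121 (@Lb.g g11 (@Lb.g g4 (@Lb.d (nat_lit 2) (nat_lit 0) (nat_lit 0) (@Lb.fp (nat_lit 3) t1344)))))))
noncomputable def l20129 : Lb := (@Lb.r r322 (@Lb.d (nat_lit 2) (nat_lit 256) (nat_lit 72) (@Lb.g g8 (@Lb.g g9 (@Lb.g g7 (@Lb.r r361 (@Lb.r r1174 (@Lb.r r36 (@Lb.d (nat_lit 280) (nat_lit 2) (nat_lit 513) (@Lb.t (@Lb.fp (nat_lit 9) t1224)))))))))))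
noncomputable def l20130 : Lb := (@Lb.d (nat_lit 146) (nat_lit 2) (nat_lit 5) (@Lb.g g8 (@Lb.g g9 (@Lb.g g10 (@Lb.g g11 (@Lb.r r1706 (@Lb.r r676 (@Lb.r r1447 (@Lb.r r405 (@Lb.r r2084 (@Lb.d (nat_lit 664) (nat_lit 65) (nat_lit 586) (@Lb.fm (nat_lit 9) t4026))))))))))))
noncomputable def l20131 : Lb := (@Lb.d (nat_lit 146) (nat_lit 514) (nat_lit 128) (@Lb.g g8 (@Lb.g g9 (@Lb.g g10 (@Lb.g g11 (@Lb.r r340 (@Lb.r r2731 (@Lb.r r2666 (@Lb.r r537 (@Lb.r r516 (@Lb.d (nat_lit 266) (nat_lit 73) (nat_lit 289) (@Lb.fm (nat_lit 9) t4027))))))))))))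
noncomputable def l20132 : Lb := (@Lb.d (nat_lit 0) (nat_lit 2) (nat_lit 9) (@Lb.g g9 (@Lb.g g10 (@Lb.g g7 (@Lb.r r386 (@Lb.r r97 (@Lb.d (nat_lit 5) (nat_lit 10) (nat_lit 9) (@Lb.t (@Lb.fp (nat_lit 9) t285)))))))))
noncomputable def l20133 : Lb := (@Lb.d (nat_lit 0) (nat_lit 514) (nat_lit 9) (@Lb.g g9 (@Lb.g g10 (@Lb.g g7 (@Lb.r r386 (@Lb.r r97 (@Lb.r r24 (@Lb.d (nat_lit 321) (nat_lit 105) (nat_lit 393) (@Lb.t (@Lb.fm (nat_lit 9) t4028))))))))))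
noncomputable def l20134 : Lb := (@Lb.d (nat_lit 0) (nat_lit 256) (nat_lit 129) (@Lb.g g10 (@Lb.g g11 (@Lb.r r403 (@Lb.r r105 (@Lb.r r148 (@Lb.r r598 (@Lb.d (nat_lit 100) (nat_lit 33) (nat_lit 84) (@Lb.fp (nat_lit 3) t4029)))))))))
noncomputable def l20135 : Lb := (@Lb.d (nat_lit 585) (nat_lit 10) (nat_lit 644) (@Lb.r r597 (@Lb.r r1642 (@Lb.r r1352 (@Lb.r r2695 (@Lb.g g7 (@Lb.g g6 (@Lb.g g5 (@Lb.d (nat_lit 16) (nat_lit 0) (nat_lit 65) (@Lb.t (@Lb.fp (nat_lit 9) t4030)))))))))))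
noncomputable def l20136 : Lb := (@Lb.g g8 (@Lb.g g5 (@Lb.g g10 (@Lb.r r1543 (@Lb.r r2401 (@Lb.r r2404 (@Lb.r r1178 (@Lb.d (nat_lit 584) (nat_lit 514) (nat_lit 0) (@Lb.t (@Lb.fm (nat_lit 9) t222))))))))))
noncomputable def l20137 : Lb := (@Lb.d (nat_lit 618) (nat_lit 101) (nat_lit 102) (@Lb.r r1125 (@Lb.r r386 (@Lb.r r2387 (@Lb.g g7 (@Lb.g g6 (@Lb.g g5 (@Lb.g g8 (@Lb.d (nat_lit 9) (nat_lit 0) (nat_lit 65) (@Lb.fm (nat_lit 9) t106))))))))))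
noncomputable def l20138 : Lb := (@Lb.d (nat_lit 272) (nat_lit 521) (nat_lit 2) (@Lb.g g8 (@Lb.g g9 (@Lb.g g10 (@Lb.r r2731 (@Lb.r r1642 (@Lb.r r25 (@Lb.d (nat_lit 9) (nat_lit 153) (nat_lit 9) (@Lb.t (@Lb.fp (nat_lit 9) t1129))))))))))
noncomputable def l20139 : Lb := (@Lb.r r82 (@Lb.d (nat_lit 32) (nat_lit 258) (nat_lit 136) (@Lb.g g8 (@Lb.g g9 (@Lb.g g11 (@Lb.r r1641 (@Lb.r r150 (@Lb.r r356 (@Lb.r r395 (@Lb.d (nat_lit 385) (nat_lit 150) (nat_lit 64) (@Lb.t (@Lb.fm (nat_lit 9) t152))))))))))))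
noncomputable def l20140 : Lb := (@Lb.r r82 (@Lb.d (nat_lit 0) (nat_lit 256) (nat_lit 128) (@Lb.g g9 (@Lb.g g11 (@Lb.r r1575 (@Lb.r r386 (@Lb.r r2328 (@Lb.r r1637 (@Lb.d (nat_lit 265) (nat_lit 66) (nat_lit 85) (@Lb.fm (nat_lit 3) t1027))))))))))
noncomputable def l20141 : Lb := (@Lb.r r82 (@Lb.d (nat_lit 277) (nat_lit 34) (nat_lit 64) (@Lb.g g4 (@Lb.g g9 (@Lb.g g11 (@Lb.r r1571 (@Lb.r r2438 (@Lb.r r145 (@Lb.d (nat_lit 2) (nat_lit 96) (nat_lit 552) (@Lb.t (@Lb.fp (nat_lit 9) t74)))))))))))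
noncomputable def l20142 : Lb := (@Lb.d (nat_lit 2) (nat_lit 514) (nat_lit 130) (@Lb.g g8 (@Lb.g g9 (@Lb.g g10 (@Lb.g g11 (@Lb.r r427 (@Lb.r r409 (@Lb.r r90 (@Lb.r r145 (@Lb.d (nat_lit 520) (nat_lit 9) (nat_lit 681) (@Lb.fp (nat_lit 9) t221)))))))))))
noncomputable def l20143 : Lb := (@Lb.r r82 (@Lb.r r275 (@Lb.d (nat_lit 4) (nat_lit 394) (nat_lit 0) (@Lb.g g5 (@Lb.r r291 (@Lb.r r98 (@Lb.r r24 (@Lb.d (nat_lit 548) (nat_lit 136) (nat_lit 33) (@Lb.t (@Lb.fp (nat_lit 3) t1556))))))))))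
noncomputable def l20144 : Lb := (@Lb.d (nat_lit 273) (nat_lit 298) (nat_lit 0) (@Lb.g g4 (@Lb.g g9 (@Lb.r r1435 (@Lb.r r2458 (@Lb.r r597 (@Lb.d (nat_lit 148) (nat_lit 36) (nat_lit 330) (@Lb.fm (nat_lit 3) t1401))))))))
noncomputable def l20145 : Lb := (@Lb.r r81 (@Lb.r r323 (@Lb.d (nat_lit 16) (nat_lit 520) (nat_lit 34) (@Lb.g g8 (@Lb.g g6 (@Lb.r r387 (@Lb.r r149 (@Lb.r r1060 (@Lb.d (nat_lit 24) (nat_lit 130) (nat_lit 17) (@Lb.fp (nat_lit 3) t217))))))))))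
noncomputable def l20146 : Lb := (@Lb.d (nat_lit 0) (nat_lit 2) (nat_lit 130) (@Lb.g g9 (@Lb.g g10 (@Lb.g g11 (@Lb.r r427 (@Lb.r r424 (@Lb.r r106 (@Lb.r r25 (@Lb.d (nat_lit 26) (nat_lit 4) (nat_lit 17) (@Lb.t (@Lb.fp (nat_lit 9) t1149)))))))))))
noncomputable def l20147 : Lb := (@Lb.r r21 (@Lb.d (nat_lit 17) (nat_lit 512) (nat_lit 10) (@Lb.g g8 (@Lb.g g10 (@Lb.g g7 (@Lb.r r402 (@Lb.r r1109 (@Lb.r r1064 (@Lb.d (nat_lit 648) (nat_lit 128) (nat_lit 640) (@Lb.t (@Lb.fp (nat_lit 9) t2652)))))))))))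
noncomputable def l20148 : Lb := (@Lb.r r21 (@Lb.r r263 (@Lb.d (nat_lit 513) (nat_lit 256) (nat_lit 2) (@Lb.g g4 (@Lb.g g10 (@Lb.r r267 (@Lb.r r150 (@Lb.r r97 (@Lb.d (nat_lit 264) (nat_lit 1) (nat_lit 0) (@Lb.fp (nat_lit 3) t1001))))))))))
noncomputable def l20149 : Lb := (@Lb.d (nat_lit 274) (nat_lit 514) (nat_lit 340) (@Lb.r r388 (@Lb.r r2406 (@Lb.r r1643 (@Lb.g g7 (@Lb.g g9 (@Lb.g g4 (@Lb.d (nat_lit 72) (nat_lit 10) (nat_lit 128) (@Lb.r r74 (@Lb.t (@Lb.fp (nat_lit 9) t894)))))))))))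
noncomputable def l20150 : Lb := (@Lb.d (nat_lit 32) (nat_lit 514) (nat_lit 2) (@Lb.g g9 (@Lb.g g10 (@Lb.r r515 (@Lb.r r149 (@Lb.r r100 (@Lb.r r602 (@Lb.d (nat_lit 100) (nat_lit 134) (nat_lit 64) (@Lb.fp (nat_lit 3) t4031)))))))))
noncomputable def l20151 : Lb := (@Lb.g g4 (@Lb.r r1124 (@Lb.r r101 (@Lb.r r402 (@Lb.d (nat_lit 0) (nat_lit 384) (nat_lit 613) (@Lb.t (@Lb.fm (nat_lit 3) t4032)))))))
noncomputable def l20152 : Lb := (@Lb.r r263 (@Lb.d (nat_lit 16) (nat_lit 2) (nat_lit 0) (@Lb.g g8 (@Lb.g g9 (@Lb.g g10 (@Lb.r r683 (@Lb.r r610 (@Lb.r r597 (@Lb.r r392 (@Lb.d (nat_lit 144) (nat_lit 24) (nat_lit 137) (@Lb.t (@Lb.fm (nat_lit 9) t128))))))))))))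
noncomputable def l20153 : Lb := (@Lb.d (nat_lit 282) (nat_lit 133) (nat_lit 154) (@Lb.r r2198 (@Lb.r r1380 (@Lb.r r2715 (@Lb.g g6 (@Lb.g g9 (@Lb.g g4 (@Lb.d (nat_lit 2) (nat_lit 132) (nat_lit 2) (@Lb.t (@Lb.fm (nat_lit 9) t100))))))))))
noncomputable def l20154 : Lb := (@Lb.r r263 (@Lb.d (nat_lit 16) (nat_lit 2) (nat_lit 0) (@Lb.g g8 (@Lb.g g9 (@Lb.g g10 (@Lb.r r683 (@Lb.r r610 (@Lb.r r597 (@Lb.r r392 (@Lb.d (nat_lit 148) (nat_lit 25) (nat_lit 137) (@Lb.t (@Lb.fm (nat_lit 9) t1778))))))))))))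
noncomputable def l20155 : Lb := (@Lb.d (nat_lit 2) (nat_lit 0) (nat_lit 0) (@Lb.g g8 (@Lb.g g9 (@Lb.r r154 (@Lb.r r660 (@Lb.r r407 (@Lb.r r609 (@Lb.d (nat_lit 0) (nat_lit 64) (nat_lit 384) (@Lb.fm (nat_lit 3) t334)))))))))
noncomputable def l20156 : Lb := (@Lb.d (nat_lit 2) (nat_lit 514) (nat_lit 130) (@Lb.g g8 (@Lb.g g9 (@Lb.g g10 (@Lb.g g11 (@Lb.r r427 (@Lb.r r1098 (@Lb.r r2337 (@Lb.r r24 (@Lb.d (nat_lit 86) (nat_lit 21) (nat_lit 593) (@Lb.fp (nat_lit 9) t3756)))))))))))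
noncomputable def l20157 : Lb := (@Lb.d (nat_lit 160) (nat_lit 256) (nat_lit 129) (@Lb.g g9 (@Lb.g g6 (@Lb.g g11 (@Lb.r r264 (@Lb.r r391 (@Lb.r r409 (@Lb.d (nat_lit 514) (nat_lit 0) (nat_lit 260) (@Lb.t (@Lb.fm (nat_lit 9) t1426))))))))))
noncomputable def l20158 : Lb := (@Lb.d (nat_lit 528) (nat_lit 400) (nat_lit 337) (@Lb.r r1284 (@Lb.r r1611 (@Lb.r r612 (@Lb.r r1346 (@Lb.g g7 (@Lb.g g6 (@Lb.g g9 (@Lb.g g4 (@Lb.d (nat_lit 1) (nat_lit 33) (nat_lit 70) (@Lb.fp (nat_lit 9) t4033)))))))))))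
noncomputable def l20159 : Lb := (@Lb.d (nat_lit 346) (nat_lit 389) (nat_lit 593) (@Lb.r r2148 (@Lb.r r597 (@Lb.r r2666 (@Lb.g g11 (@Lb.g g5 (@Lb.g g4 (@Lb.d (nat_lit 80) (nat_lit 18) (nat_lit 512) (@Lb.r r578 (@Lb.t (@Lb.fm (nat_lit 9) t2401)))))))))))
noncomputable def l20160 : Lb := (@Lb.r r21 (@Lb.r r263 (@Lb.d (nat_lit 32) (nat_lit 8) (nat_lit 2) (@Lb.g g8 (@Lb.g g10 (@Lb.r r1427 (@Lb.r r97 (@Lb.r r1044 (@Lb.d (nat_lit 258) (nat_lit 0) (nat_lit 2) (@Lb.fp (nat_lit 3) t30))))))))))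
noncomputable def l20161 : Lb := (@Lb.r r21 (@Lb.r r263 (@Lb.d (nat_lit 33) (nat_lit 520) (nat_lit 2) (@Lb.g g8 (@Lb.g g10 (@Lb.r r1427 (@Lb.r r97 (@Lb.r r1060 (@Lb.d (nat_lit 262) (nat_lit 65) (nat_lit 2) (@Lb.fp (nat_lit 3) t30))))))))))
noncomputable def l20162 : Lb := (@Lb.d (nat_lit 0) (nat_lit 512) (nat_lit 128) (@Lb.g g4 (@Lb.g g10 (@Lb.g g11 (@Lb.r r387 (@Lb.r r402 (@Lb.d (nat_lit 292) (nat_lit 10) (nat_lit 34) (@Lb.t (@Lb.fm (nat_lit 9) t3532)))))))))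
noncomputable def l20163 : Lb := (@Lb.d (nat_lit 0) (nat_lit 38) (nat_lit 128) (@Lb.g g4 (@Lb.g g9 (@Lb.g g10 (@Lb.g g11 (@Lb.r r387 (@Lb.r r386 (@Lb.r r613 (@Lb.d (nat_lit 394) (nat_lit 25) (nat_lit 169) (@Lb.fm (nat_lit 9) t2763))))))))))
noncomputable def l20164 : Lb := (@Lb.r r21 (@Lb.d (nat_lit 146) (nat_lit 512) (nat_lit 128) (@Lb.g g8 (@Lb.g g10 (@Lb.g g11 (@Lb.r r387 (@Lb.r r1617 (@Lb.r r106 (@Lb.r r1636 (@Lb.d (nat_lit 642) (nat_lit 154) (nat_lit 650) (@Lb.t (@Lb.fm (nat_lit 9) t2015))))))))))))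
noncomputable def l20165 : Lb := (@Lb.d (nat_lit 9) (nat_lit 1) (nat_lit 66) (@Lb.g g8 (@Lb.g g9 (@Lb.g g10 (@Lb.g g7 (@Lb.r r297 (@Lb.r r104 (@Lb.r r70 (@Lb.r r132 (@Lb.d (nat_lit 129) (nat_lit 90) (nat_lit 265) (@Lb.fm (nat_lit 9) t1190)))))))))))
noncomputable def l20166 : Lb := (@Lb.d (nat_lit 68) (nat_lit 321) (nat_lit 645) (@Lb.r r597 (@Lb.r r1642 (@Lb.r r1352 (@Lb.r r2695 (@Lb.g g7 (@Lb.g g6 (@Lb.g g5 (@Lb.d (nat_lit 20) (nat_lit 1) (nat_lit 70) (@Lb.t (@Lb.fp (nat_lit 9) t756)))))))))))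
noncomputable def l20167 : Lb := (@Lb.d (nat_lit 2) (nat_lit 545) (nat_lit 4) (@Lb.g g8 (@Lb.g g9 (@Lb.g g10 (@Lb.g g11 (@Lb.r r603 (@Lb.r r660 (@Lb.r r342 (@Lb.r r2661 (@Lb.d (nat_lit 161) (nat_lit 90) (nat_lit 342) (@Lb.fp (nat_lit 9) t273)))))))))))
noncomputable def l20168 : Lb := (@Lb.d (nat_lit 128) (nat_lit 260) (nat_lit 74) (@Lb.g g8 (@Lb.g g9 (@Lb.g g10 (@Lb.g g11 (@Lb.r r343 (@Lb.r r1366 (@Lb.r r97 (@Lb.r r532 (@Lb.d (nat_lit 678) (nat_lit 41) (nat_lit 161) (@Lb.fm (nat_lit 9) t1144)))))))))))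
noncomputable def l20169 : Lb := (@Lb.d (nat_lit 128) (nat_lit 4) (nat_lit 74) (@Lb.g g8 (@Lb.g g9 (@Lb.g g10 (@Lb.g g11 (@Lb.r r343 (@Lb.r r1366 (@Lb.r r97 (@Lb.r r532 (@Lb.d (nat_lit 678) (nat_lit 34) (nat_lit 162) (@Lb.fm (nat_lit 9) t1148)))))))))))
noncomputable def l20170 : Lb := (@Lb.d (nat_lit 549) (nat_lit 328) (nat_lit 409) (@Lb.r r277 (@Lb.r r619 (@Lb.r r612 (@Lb.r r346 (@Lb.g g7 (@Lb.g g6 (@Lb.d (nat_lit 0) (nat_lit 0) (nat_lit 65) (@Lb.fp (nat_lit 3) t445)))))))))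
noncomputable def l20171 : Lb := (@Lb.d (nat_lit 256) (nat_lit 576) (nat_lit 384) (@Lb.r r101 (@Lb.r r2454 (@Lb.r r1291 (@Lb.g g11 (@Lb.t (@Lb.fp (nat_lit 3) t4034)))))))
noncomputable def l20172 : Lb := (@Lb.d (nat_lit 144) (nat_lit 421) (nat_lit 681) (@Lb.r r587 (@Lb.r r1556 (@Lb.r r89 (@Lb.g g7 (@Lb.g g10 (@Lb.g g4 (@Lb.d (nat_lit 5) (nat_lit 16) (nat_lit 81) (@Lb.t (@Lb.fp (nat_lit 9) t4035))))))))))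
noncomputable def l20173 : Lb := (@Lb.d (nat_lit 0) (nat_lit 162) (nat_lit 512) (@Lb.r r2580 (@Lb.r r2329 (@Lb.r r2378 (@Lb.g g7 (@Lb.g g6 (@Lb.d (nat_lit 64) (nat_lit 0) (nat_lit 576) (@Lb.fm (nat_lit 3) t4036))))))))
noncomputable def l20174 : Lb := (@Lb.r r417 (@Lb.r r2466 (@Lb.r r2387 (@Lb.r r657 (@Lb.r r1096 (@Lb.d (nat_lit 546) (nat_lit 256) (nat_lit 34) (@Lb.fm (nat_lit 1) t246)))))))
noncomputable def l20175 : Lb := (@Lb.d (nat_lit 2) (nat_lit 256) (nat_lit 130) (@Lb.g g8 (@Lb.g g10 (@Lb.g g11 (@Lb.r r582 (@Lb.r r388 (@Lb.r r619 (@Lb.r r537 (@Lb.d (nat_lit 336) (nat_lit 165) (nat_lit 614) (@Lb.t (@Lb.fp (nat_lit 9) t494)))))))))))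
noncomputable def l20176 : Lb := (@Lb.d (nat_lit 24) (nat_lit 640) (nat_lit 96) (@Lb.r r2580 (@Lb.r r2329 (@Lb.r r2394 (@Lb.g g7 (@Lb.g g6 (@Lb.d (nat_lit 64) (nat_lit 0) (nat_lit 577) (@Lb.fm (nat_lit 3) t4037))))))))
noncomputable def l20177 : Lb := (@Lb.d (nat_lit 16) (nat_lit 521) (nat_lit 129) (@Lb.g g9 (@Lb.g g6 (@Lb.g g11 (@Lb.r r2667 (@Lb.r r2657 (@Lb.r r24 (@Lb.d (nat_lit 642) (nat_lit 42) (nat_lit 296) (@Lb.t (@Lb.fm (nat_lit 9) t4038))))))))))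
noncomputable def l20178 : Lb := (@Lb.r r82 (@Lb.d (nat_lit 0) (nat_lit 272) (nat_lit 0) (@Lb.g g9 (@Lb.g g11 (@Lb.r r1431 (@Lb.r r386 (@Lb.r r1109 (@Lb.r r24 (@Lb.d (nat_lit 33) (nat_lit 137) (nat_lit 17) (@Lb.fm (nat_lit 3) t538))))))))))
noncomputable def l20179 : Lb := (@Lb.d (nat_lit 5) (nat_lit 512) (nat_lit 0) (@Lb.g g4 (@Lb.d (nat_lit 1) (nat_lit 1) (nat_lit 128) (@Lb.t (@Lb.fm (nat_lit 3) t2)))))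
noncomputable def l20180 : Lb := (@Lb.g g4 (@Lb.r r1049 (@Lb.r r24 (@Lb.d (nat_lit 513) (nat_lit 512) (nat_lit 128) (@Lb.t (@Lb.fp (nat_lit 3) t2))))))
noncomputable def l20181 : Lb := (@Lb.d (nat_lit 10) (nat_lit 265) (nat_lit 128) (@Lb.r r402 (@Lb.r r101 (@Lb.r r24 (@Lb.g g11 (@Lb.t (@Lb.fm (nat_lit 3) t263)))))))
noncomputable def l20182 : Lb := (@Lb.d (nat_lit 2) (nat_lit 265) (nat_lit 134) (@Lb.g g8 (@Lb.g g9 (@Lb.g g10 (@Lb.g g7 (@Lb.r r2466 (@Lb.r r36 (@Lb.r r149 (@Lb.r r1060 (@Lb.d (nat_lit 160) (nat_lit 10) (nat_lit 289) (@Lb.fp (nat_lit 9) t722)))))))))))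
noncomputable def l20183 : Lb := (@Lb.d (nat_lit 2) (nat_lit 521) (nat_lit 65) (@Lb.g g8 (@Lb.g g9 (@Lb.g g10 (@Lb.g g7 (@Lb.r r2466 (@Lb.r r36 (@Lb.r r149 (@Lb.r r1060 (@Lb.d (nat_lit 160) (nat_lit 10) (nat_lit 289) (@Lb.fp (nat_lit 9) t722)))))))))))
noncomputable def l20184 : Lb := (@Lb.d (nat_lit 425) (nat_lit 85) (nat_lit 330) (@Lb.r r1384 (@Lb.r r2345 (@Lb.r r2466 (@Lb.g g11 (@Lb.g g5 (@Lb.g g4 (@Lb.d (nat_lit 24) (nat_lit 0) (nat_lit 136) (@Lb.r r578 (@Lb.t (@Lb.fp (nat_lit 9) t4039)))))))))))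
noncomputable def l20185 : Lb := (@Lb.d (nat_lit 8) (nat_lit 0) (nat_lit 136) (@Lb.g g8 (@Lb.g g11 (@Lb.r r149 (@Lb.r r2148 (@Lb.d (nat_lit 538) (nat_lit 2) (nat_lit 138) (@Lb.fm (nat_lit 3) t87)))))))
noncomputable def l20186 : Lb := (@Lb.r r21 (@Lb.d (nat_lit 146) (nat_lit 256) (nat_lit 128) (@Lb.g g8 (@Lb.g g10 (@Lb.g g11 (@Lb.r r1691 (@Lb.r r409 (@Lb.r r90 (@Lb.r r1176 (@Lb.d (nat_lit 9) (nat_lit 65) (nat_lit 33) (@Lb.t (@Lb.fm (nat_lit 9) t4040))))))))))))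
noncomputable def l20187 : Lb := (@Lb.g g8 (@Lb.g g11 (@Lb.r r1291 (@Lb.d (nat_lit 512) (nat_lit 512) (nat_lit 0) (@Lb.fm (nat_lit 3) t441)))))
noncomputable def l20188 : Lb := (@Lb.g g10 (@Lb.g g11 (@Lb.r r2707 (@Lb.r r2341 (@Lb.r r2136 (@Lb.r r1158 (@Lb.d (nat_lit 290) (nat_lit 517) (nat_lit 32) (@Lb.fm (nat_lit 3) t296))))))))
noncomputable def l20189 : Lb := (@Lb.d (nat_lit 0) (nat_lit 521) (nat_lit 72) (@Lb.g g8 (@Lb.g g9 (@Lb.g g11 (@Lb.r r106 (@Lb.r r612 (@Lb.r r2583 (@Lb.r r1313 (@Lb.d (nat_lit 10) (nat_lit 137) (nat_lit 642) (@Lb.t (@Lb.fm (nat_lit 9) t71)))))))))))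
noncomputable def l20190 : Lb := (@Lb.r r21 (@Lb.d (nat_lit 25) (nat_lit 32) (nat_lit 128) (@Lb.g g8 (@Lb.g g10 (@Lb.g g11 (@Lb.r r1706 (@Lb.r r101 (@Lb.r r404 (@Lb.r r2347 (@Lb.d (nat_lit 641) (nat_lit 38) (nat_lit 344) (@Lb.t (@Lb.fm (nat_lit 9) t1038))))))))))))
noncomputable def l20191 : Lb := (@Lb.d (nat_lit 2) (nat_lit 514) (nat_lit 66) (@Lb.g g8 (@Lb.g g9 (@Lb.g g10 (@Lb.g g11 (@Lb.r r610 (@Lb.r r1607 (@Lb.r r2457 (@Lb.r r2436 (@Lb.d (nat_lit 168) (nat_lit 4) (nat_lit 392) (@Lb.fm (nat_lit 9) t2103)))))))))))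
noncomputable def l20192 : Lb := (@Lb.d (nat_lit 10) (nat_lit 0) (nat_lit 0) (@Lb.g g4 (@Lb.g g7 (@Lb.r r153 (@Lb.r r1176 (@Lb.d (nat_lit 293) (nat_lit 73) (nat_lit 32) (@Lb.fp (nat_lit 3) t87)))))))
noncomputable def l20193 : Lb := (@Lb.d (nat_lit 8) (nat_lit 512) (nat_lit 136) (@Lb.g g8 (@Lb.g g11 (@Lb.r r149 (@Lb.r r2148 (@Lb.d (nat_lit 538) (nat_lit 2) (nat_lit 0) (@Lb.fm (nat_lit 3) t87)))))))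
noncomputable def l20194 : Lb := (@Lb.r r21 (@Lb.d (nat_lit 17) (nat_lit 256) (nat_lit 128) (@Lb.g g8 (@Lb.g g10 (@Lb.g g11 (@Lb.r r603 (@Lb.r r2401 (@Lb.r r1170 (@Lb.r r1128 (@Lb.d (nat_lit 256) (nat_lit 68) (nat_lit 33) (@Lb.t (@Lb.fm (nat_lit 9) t597))))))))))))
noncomputable def l20195 : Lb := (@Lb.d (nat_lit 0) (nat_lit 256) (nat_lit 74) (@Lb.g g8 (@Lb.g g10 (@Lb.g g11 (@Lb.r r2626 (@Lb.r r2436 (@Lb.d (nat_lit 608) (nat_lit 0) (nat_lit 549) (@Lb.t (@Lb.fm (nat_lit 9) t4041)))))))))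
noncomputable def l20196 : Lb := (@Lb.d (nat_lit 80) (nat_lit 5) (nat_lit 530) (@Lb.r r2068 (@Lb.r r89 (@Lb.r r20 (@Lb.r r2466 (@Lb.g g11 (@Lb.g g6 (@Lb.g g5 (@Lb.g g4 (@Lb.d (nat_lit 8) (nat_lit 0) (nat_lit 129) (@Lb.fp (nat_lit 9) t232)))))))))))
noncomputable def l20197 : Lb := (@Lb.d (nat_lit 10) (nat_lit 512) (nat_lit 74) (@Lb.g g8 (@Lb.g g10 (@Lb.g g11 (@Lb.r r2459 (@Lb.r r1445 (@Lb.r r1698 (@Lb.r r2436 (@Lb.d (nat_lit 610) (nat_lit 72) (nat_lit 550) (@Lb.t (@Lb.fm (nat_lit 9) t2938)))))))))))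
noncomputable def l20198 : Lb := (@Lb.d (nat_lit 528) (nat_lit 64) (nat_lit 17) (@Lb.r r273 (@Lb.r r2178 (@Lb.r r2595 (@Lb.r r529 (@Lb.g g8 (@Lb.d (nat_lit 322) (nat_lit 0) (nat_lit 0) (@Lb.t (@Lb.fp (nat_lit 3) t1561)))))))))
noncomputable def l20199 : Lb := (@Lb.d (nat_lit 1) (nat_lit 2) (nat_lit 130) (@Lb.g g8 (@Lb.g g9 (@Lb.g g10 (@Lb.g g11 (@Lb.r r610 (@Lb.r r1607 (@Lb.r r97 (@Lb.r r2436 (@Lb.d (nat_lit 152) (nat_lit 9) (nat_lit 392) (@Lb.fp (nat_lit 9) t3176)))))))))))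
noncomputable def l20200 : Lb := (@Lb.d (nat_lit 421) (nat_lit 580) (nat_lit 537) (@Lb.r r1626 (@Lb.r r1608 (@Lb.r r1355 (@Lb.g g6 (@Lb.g g9 (@Lb.d (nat_lit 16) (nat_lit 134) (nat_lit 2) (@Lb.fm (nat_lit 3) t4042))))))))
noncomputable def l20201 : Lb := (@Lb.d (nat_lit 133) (nat_lit 128) (nat_lit 258) (@Lb.r r2341 (@Lb.r r1624 (@Lb.r r1371 (@Lb.g g10 (@Lb.g g5 (@Lb.d (nat_lit 32) (nat_lit 0) (nat_lit 1) (@Lb.fp (nat_lit 3) t1257))))))))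
noncomputable def l20202 : Lb := (@Lb.d (nat_lit 662) (nat_lit 538) (nat_lit 101) (@Lb.r r2454 (@Lb.r r1291 (@Lb.g g9 (@Lb.d (nat_lit 8) (nat_lit 9) (nat_lit 0) (@Lb.t (@Lb.fm (nat_lit 3) t4043)))))))
noncomputable def l20203 : Lb := (@Lb.d (nat_lit 132) (nat_lit 517) (nat_lit 128) (@Lb.g g8 (@Lb.g g9 (@Lb.g g10 (@Lb.g g11 (@Lb.r r2690 (@Lb.r r2455 (@Lb.r r97 (@Lb.r r2584 (@Lb.d (nat_lit 616) (nat_lit 169) (nat_lit 417) (@Lb.fm (nat_lit 9) t3408)))))))))))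
noncomputable def l20204 : Lb := (@Lb.r r21 (@Lb.r r70 (@Lb.d (nat_lit 514) (nat_lit 256) (nat_lit 0) (@Lb.g g8 (@Lb.r r1291 (@Lb.r r74 (@Lb.r r25 (@Lb.d (nat_lit 2) (nat_lit 0) (nat_lit 0) (@Lb.t (@Lb.fp (nat_lit 3) t1071))))))))))
noncomputable def l20205 : Lb := (@Lb.d (nat_lit 128) (nat_lit 512) (nat_lit 64) (@Lb.g g11 (@Lb.r r361 (@Lb.r r292 (@Lb.r r539 (@Lb.r r134 (@Lb.d (nat_lit 581) (nat_lit 33) (nat_lit 165) (@Lb.t (@Lb.fm (nat_lit 3) t40)))))))))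
noncomputable def l20206 : Lb := (@Lb.d (nat_lit 97) (nat_lit 320) (nat_lit 410) (@Lb.r r2454 (@Lb.r r1291 (@Lb.g g9 (@Lb.t (@Lb.fm (nat_lit 3) t4044))))))
noncomputable def l20207 : Lb := (@Lb.d (nat_lit 4) (nat_lit 256) (nat_lit 130) (@Lb.g g8 (@Lb.g g9 (@Lb.g g10 (@Lb.g g11 (@Lb.r r427 (@Lb.r r1634 (@Lb.r r292 (@Lb.r r2069 (@Lb.r r1060 (@Lb.d (nat_lit 609) (nat_lit 64) (nat_lit 90) (@Lb.fp (nat_lit 9) t4045))))))))))))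
noncomputable def l20208 : Lb := (@Lb.r r326 (@Lb.d (nat_lit 134) (nat_lit 528) (nat_lit 648) (@Lb.g g8 (@Lb.g g9 (@Lb.g g7 (@Lb.r r594 (@Lb.r r1065 (@Lb.r r548 (@Lb.d (nat_lit 649) (nat_lit 18) (nat_lit 170) (@Lb.t (@Lb.fm (nat_lit 9) t4046)))))))))))
noncomputable def l20209 : Lb := (@Lb.d (nat_lit 405) (nat_lit 648) (nat_lit 133) (@Lb.r r2069 (@Lb.r r2134 (@Lb.r r1448 (@Lb.g g11 (@Lb.g g6 (@Lb.g g5 (@Lb.d (nat_lit 0) (nat_lit 32) (nat_lit 390) (@Lb.t (@Lb.fp (nat_lit 9) t1589))))))))))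
noncomputable def l20210 : Lb := (@Lb.d (nat_lit 405) (nat_lit 392) (nat_lit 133) (@Lb.r r2069 (@Lb.r r2134 (@Lb.r r1448 (@Lb.g g11 (@Lb.g g6 (@Lb.g g5 (@Lb.d (nat_lit 0) (nat_lit 37) (nat_lit 388) (@Lb.t (@Lb.fp (nat_lit 9) t891))))))))))
noncomputable def l20211 : Lb := (@Lb.r r275 (@Lb.d (nat_lit 9) (nat_lit 258) (nat_lit 2) (@Lb.g g8 (@Lb.g g9 (@Lb.g g10 (@Lb.r r683 (@Lb.r r386 (@Lb.r r2657 (@Lb.r r24 (@Lb.d (nat_lit 264) (nat_lit 89) (nat_lit 549) (@Lb.t (@Lb.fm (nat_lit 9) t1937))))))))))))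
noncomputable def l20212 : Lb := (@Lb.d (nat_lit 1) (nat_lit 514) (nat_lit 130) (@Lb.g g4 (@Lb.g g9 (@Lb.g g10 (@Lb.g g11 (@Lb.r r679 (@Lb.r r386 (@Lb.r r1637 (@Lb.d (nat_lit 406) (nat_lit 89) (nat_lit 21) (@Lb.fp (nat_lit 9) t4047))))))))))
noncomputable def l20213 : Lb := (@Lb.r r82 (@Lb.d (nat_lit 132) (nat_lit 256) (nat_lit 328) (@Lb.g g8 (@Lb.g g9 (@Lb.g g11 (@Lb.r r422 (@Lb.r r1049 (@Lb.r r2452 (@Lb.d (nat_lit 656) (nat_lit 9) (nat_lit 89) (@Lb.t (@Lb.fp (nat_lit 9) t4048)))))))))))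
noncomputable def l20214 : Lb := (@Lb.r r82 (@Lb.d (nat_lit 1) (nat_lit 258) (nat_lit 0) (@Lb.g g8 (@Lb.g g9 (@Lb.r r1640 (@Lb.r r1291 (@Lb.r r386 (@Lb.r r1169 (@Lb.d (nat_lit 0) (nat_lit 132) (nat_lit 544) (@Lb.fm (nat_lit 3) t4049))))))))))
noncomputable def l20215 : Lb := (@Lb.d (nat_lit 2) (nat_lit 2) (nat_lit 73) (@Lb.g g8 (@Lb.g g9 (@Lb.g g10 (@Lb.g g11 (@Lb.r r427 (@Lb.r r2440 (@Lb.r r2122 (@Lb.r r1125 (@Lb.d (nat_lit 521) (nat_lit 129) (nat_lit 161) (@Lb.fp (nat_lit 9) t3488)))))))))))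
noncomputable def l20216 : Lb := (@Lb.r r263 (@Lb.d (nat_lit 5) (nat_lit 0) (nat_lit 2) (@Lb.g g8 (@Lb.g g9 (@Lb.g g10 (@Lb.r r683 (@Lb.r r386 (@Lb.r r2645 (@Lb.r r2068 (@Lb.d (nat_lit 660) (nat_lit 90) (nat_lit 21) (@Lb.t (@Lb.fm (nat_lit 9) t4050))))))))))))
noncomputable def l20217 : Lb := (@Lb.d (nat_lit 144) (nat_lit 600) (nat_lit 650) (@Lb.r r402 (@Lb.r r101 (@Lb.g g5 (@Lb.g g8 (@Lb.fp (nat_lit 3) t4051))))))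
noncomputable def l20218 : Lb := (@Lb.r r275 (@Lb.d (nat_lit 9) (nat_lit 2) (nat_lit 2) (@Lb.g g8 (@Lb.g g9 (@Lb.g g10 (@Lb.r r683 (@Lb.r r386 (@Lb.r r617 (@Lb.r r36 (@Lb.d (nat_lit 100) (nat_lit 130) (nat_lit 261) (@Lb.t (@Lb.fp (nat_lit 9) t4052))))))))))))
noncomputable def l20219 : Lb := (@Lb.d (nat_lit 401) (nat_lit 288) (nat_lit 6) (@Lb.r r2731 (@Lb.r r665 (@Lb.r r340 (@Lb.g g7 (@Lb.g g6 (@Lb.d (nat_lit 80) (nat_lit 8) (nat_lit 150) (@Lb.fp (nat_lit 3) t4053))))))))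
noncomputable def l20220 : Lb := (@Lb.d (nat_lit 612) (nat_lit 578) (nat_lit 341) (@Lb.r r1608 (@Lb.r r2390 (@Lb.r r1169 (@Lb.g g7 (@Lb.g g6 (@Lb.g g4 (@Lb.d (nat_lit 1) (nat_lit 0) (nat_lit 1) (@Lb.t (@Lb.fm (nat_lit 9) t2260))))))))))
noncomputable def l20221 : Lb := (@Lb.r r275 (@Lb.d (nat_lit 9) (nat_lit 521) (nat_lit 1) (@Lb.g g8 (@Lb.g g9 (@Lb.g g10 (@Lb.r r683 (@Lb.r r386 (@Lb.r r2657 (@Lb.r r24 (@Lb.d (nat_lit 264) (nat_lit 89) (nat_lit 549) (@Lb.t (@Lb.fm (nat_lit 9) t4054))))))))))))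
noncomputable def l20222 : Lb := (@Lb.d (nat_lit 137) (nat_lit 512) (nat_lit 0) (@Lb.g g8 (@Lb.r r1621 (@Lb.r r1559 (@Lb.r r2178 (@Lb.r r2344 (@Lb.d (nat_lit 165) (nat_lit 105) (nat_lit 673) (@Lb.t (@Lb.fm (nat_lit 3) t296)))))))))
noncomputable def l20223 : Lb := (@Lb.d (nat_lit 0) (nat_lit 0) (nat_lit 130) (@Lb.g g4 (@Lb.g g10 (@Lb.g g11 (@Lb.r r2691 (@Lb.r r1158 (@Lb.d (nat_lit 337) (nat_lit 0) (nat_lit 529) (@Lb.t (@Lb.fp (nat_lit 9) t282)))))))))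
noncomputable def l20224 : Lb := (@Lb.r r82 (@Lb.d (nat_lit 9) (nat_lit 512) (nat_lit 0) (@Lb.g g8 (@Lb.g g9 (@Lb.r r2664 (@Lb.r r614 (@Lb.r r1379 (@Lb.r r1369 (@Lb.d (nat_lit 40) (nat_lit 5) (nat_lit 152) (@Lb.fp (nat_lit 3) t68))))))))))
noncomputable def l20225 : Lb := (@Lb.g g4 (@Lb.g g11 (@Lb.r r1547 (@Lb.d (nat_lit 642) (nat_lit 0) (nat_lit 384) (@Lb.fm (nat_lit 3) t1165)))))
noncomputable def l20226 : Lb := (@Lb.r r21 (@Lb.r r323 (@Lb.d (nat_lit 34) (nat_lit 256) (nat_lit 2) (@Lb.g g8 (@Lb.g g10 (@Lb.r r651 (@Lb.r r293 (@Lb.r r664 (@Lb.r r586 (@Lb.d (nat_lit 96) (nat_lit 21) (nat_lit 8) (@Lb.fp (nat_lit 3) t74)))))))))))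
noncomputable def l20227 : Lb := (@Lb.d (nat_lit 6) (nat_lit 512) (nat_lit 130) (@Lb.g g4 (@Lb.g g10 (@Lb.g g11 (@Lb.r r419 (@Lb.r r386 (@Lb.d (nat_lit 292) (nat_lit 42) (nat_lit 33) (@Lb.t (@Lb.fm (nat_lit 9) t4055)))))))))
noncomputable def l20228 : Lb := (@Lb.r r21 (@Lb.d (nat_lit 130) (nat_lit 512) (nat_lit 130) (@Lb.g g8 (@Lb.g g10 (@Lb.g g11 (@Lb.r r419 (@Lb.r r132 (@Lb.r r2438 (@Lb.r r97 (@Lb.d (nat_lit 522) (nat_lit 26) (nat_lit 660) (@Lb.t (@Lb.fm (nat_lit 9) t523))))))))))))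
noncomputable def l20229 : Lb := (@Lb.d (nat_lit 4) (nat_lit 546) (nat_lit 130) (@Lb.g g8 (@Lb.g g9 (@Lb.g g10 (@Lb.g g11 (@Lb.r r2723 (@Lb.r r610 (@Lb.r r529 (@Lb.d (nat_lit 2) (nat_lit 34) (nat_lit 658) (@Lb.fm (nat_lit 9) t218))))))))))
noncomputable def l20230 : Lb := (@Lb.d (nat_lit 2) (nat_lit 34) (nat_lit 130) (@Lb.g g8 (@Lb.g g9 (@Lb.g g10 (@Lb.g g11 (@Lb.r r682 (@Lb.r r676 (@Lb.r r551 (@Lb.r r533 (@Lb.r r36 (@Lb.d (nat_lit 130) (nat_lit 2) (nat_lit 5) (@Lb.fp (nat_lit 9) t74))))))))))))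
noncomputable def l20231 : Lb := (@Lb.r r283 (@Lb.d (nat_lit 4) (nat_lit 512) (nat_lit 2) (@Lb.g g8 (@Lb.g g9 (@Lb.g g10 (@Lb.r r610 (@Lb.r r2627 (@Lb.r r2212 (@Lb.r r1317 (@Lb.d (nat_lit 325) (nat_lit 105) (nat_lit 390) (@Lb.t (@Lb.fm (nat_lit 9) t3449))))))))))))
noncomputable def l20232 : Lb := (@Lb.d (nat_lit 0) (nat_lit 33) (nat_lit 66) (@Lb.g g8 (@Lb.g g9 (@Lb.g g10 (@Lb.g g11 (@Lb.r r1287 (@Lb.r r616 (@Lb.r r1430 (@Lb.r r1637 (@Lb.r r2068 (@Lb.d (nat_lit 153) (nat_lit 130) (nat_lit 290) (@Lb.fm (nat_lit 9) t1658))))))))))))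
noncomputable def l20233 : Lb := (@Lb.d (nat_lit 42) (nat_lit 256) (nat_lit 0) (@Lb.g g8 (@Lb.r r421 (@Lb.r r2470 (@Lb.r r2395 (@Lb.r r2392 (@Lb.d (nat_lit 682) (nat_lit 82) (nat_lit 677) (@Lb.t (@Lb.fm (nat_lit 3) t690)))))))))
noncomputable def l20234 : Lb := (@Lb.d (nat_lit 2) (nat_lit 290) (nat_lit 2) (@Lb.g g8 (@Lb.g g9 (@Lb.g g10 (@Lb.r r586 (@Lb.r r595 (@Lb.r r289 (@Lb.d (nat_lit 520) (nat_lit 73) (nat_lit 290) (@Lb.t (@Lb.fm (nat_lit 9) t4056))))))))))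
noncomputable def l20235 : Lb := (@Lb.d (nat_lit 5) (nat_lit 672) (nat_lit 512) (@Lb.r r2580 (@Lb.r r2329 (@Lb.r r2378 (@Lb.g g7 (@Lb.g g6 (@Lb.d (nat_lit 64) (nat_lit 0) (nat_lit 576) (@Lb.fm (nat_lit 3) t4036))))))))
noncomputable def l20236 : Lb := (@Lb.d (nat_lit 144) (nat_lit 514) (nat_lit 128) (@Lb.g g8 (@Lb.g g9 (@Lb.g g10 (@Lb.g g11 (@Lb.r r2722 (@Lb.r r2439 (@Lb.r r145 (@Lb.r r2632 (@Lb.d (nat_lit 616) (nat_lit 132) (nat_lit 424) (@Lb.fp (nat_lit 9) t1666)))))))))))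
noncomputable def l20237 : Lb := (@Lb.d (nat_lit 16) (nat_lit 2) (nat_lit 0) (@Lb.g g8 (@Lb.g g9 (@Lb.g g10 (@Lb.r r1689 (@Lb.r r1683 (@Lb.r r1602 (@Lb.r r292 (@Lb.d (nat_lit 69) (nat_lit 73) (nat_lit 409) (@Lb.t (@Lb.fp (nat_lit 9) t394)))))))))))
noncomputable def l20238 : Lb := (@Lb.d (nat_lit 128) (nat_lit 2) (nat_lit 64) (@Lb.g g9 (@Lb.g g11 (@Lb.r r533 (@Lb.r r292 (@Lb.r r539 (@Lb.r r134 (@Lb.d (nat_lit 602) (nat_lit 34) (nat_lit 37) (@Lb.fm (nat_lit 3) t564)))))))))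
noncomputable def l20239 : Lb := (@Lb.r r101 (@Lb.r r24 (@Lb.d (nat_lit 354) (nat_lit 261) (nat_lit 544) (@Lb.fp (nat_lit 1) t166))))
noncomputable def l20240 : Lb := (@Lb.d (nat_lit 0) (nat_lit 8) (nat_lit 2) (@Lb.g g10 (@Lb.g g7 (@Lb.r r101 (@Lb.r r24 (@Lb.d (nat_lit 546) (nat_lit 5) (nat_lit 18) (@Lb.fp (nat_lit 3) t145)))))))
noncomputable def l20241 : Lb := (@Lb.d (nat_lit 2) (nat_lit 4) (nat_lit 128) (@Lb.g g8 (@Lb.g g9 (@Lb.g g10 (@Lb.g g11 (@Lb.r r619 (@Lb.r r1610 (@Lb.r r660 (@Lb.r r425 (@Lb.r r2084 (@Lb.d (nat_lit 282) (nat_lit 168) (nat_lit 674) (@Lb.fp (nat_lit 9) t510))))))))))))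
noncomputable def l20242 : Lb := (@Lb.d (nat_lit 2) (nat_lit 2) (nat_lit 130) (@Lb.g g8 (@Lb.g g9 (@Lb.g g10 (@Lb.g g11 (@Lb.r r610 (@Lb.r r1607 (@Lb.r r2457 (@Lb.r r2436 (@Lb.d (nat_lit 169) (nat_lit 4) (nat_lit 392) (@Lb.fm (nat_lit 9) t2103)))))))))))
noncomputable def l20243 : Lb := (@Lb.d (nat_lit 150) (nat_lit 402) (nat_lit 401) (@Lb.r r1604 (@Lb.r r2645 (@Lb.r r2730 (@Lb.g g11 (@Lb.g g6 (@Lb.g g5 (@Lb.g g4 (@Lb.d (nat_lit 6) (nat_lit 1) (nat_lit 72) (@Lb.fp (nat_lit 9) t741))))))))))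
noncomputable def l20244 : Lb := (@Lb.d (nat_lit 144) (nat_lit 2) (nat_lit 64) (@Lb.g g8 (@Lb.g g9 (@Lb.g g10 (@Lb.g g11 (@Lb.r r1315 (@Lb.r r390 (@Lb.r r1621 (@Lb.r r2440 (@Lb.d (nat_lit 276) (nat_lit 104) (nat_lit 345) (@Lb.fp (nat_lit 9) t1792)))))))))))
noncomputable def l20245 : Lb := (@Lb.d (nat_lit 666) (nat_lit 66) (nat_lit 70) (@Lb.r r358 (@Lb.r r148 (@Lb.r r2393 (@Lb.r r1315 (@Lb.g g7 (@Lb.g g6 (@Lb.g g5 (@Lb.d (nat_lit 16) (nat_lit 0) (nat_lit 65) (@Lb.t (@Lb.fp (nat_lit 9) t1771)))))))))))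
noncomputable def l20246 : Lb := (@Lb.d (nat_lit 32) (nat_lit 2) (nat_lit 73) (@Lb.g g8 (@Lb.g g9 (@Lb.g g10 (@Lb.g g11 (@Lb.r r419 (@Lb.r r1177 (@Lb.r r342 (@Lb.r r1540 (@Lb.d (nat_lit 33) (nat_lit 69) (nat_lit 344) (@Lb.fp (nat_lit 9) t2106)))))))))))
noncomputable def l20247 : Lb := (@Lb.d (nat_lit 2) (nat_lit 516) (nat_lit 128) (@Lb.g g8 (@Lb.g g9 (@Lb.g g10 (@Lb.g g11 (@Lb.r r2729 (@Lb.r r2724 (@Lb.r r2567 (@Lb.r r386 (@Lb.d (nat_lit 385) (nat_lit 10) (nat_lit 360) (@Lb.fm (nat_lit 9) t3112)))))))))))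
noncomputable def l20248 : Lb := (@Lb.d (nat_lit 4) (nat_lit 128) (nat_lit 1) (@Lb.r r24 (@Lb.r r386 (@Lb.r r1619 (@Lb.g g9 (@Lb.d (nat_lit 0) (nat_lit 2) (nat_lit 0) (@Lb.r r291 (@Lb.r r98 (@Lb.t (@Lb.fm (nat_lit 3) t925))))))))))
noncomputable def l20249 : Lb := (@Lb.r r68 (@Lb.r r323 (@Lb.d (nat_lit 0) (nat_lit 516) (nat_lit 0) (@Lb.g g9 (@Lb.g g10 (@Lb.r r1685 (@Lb.r r1559 (@Lb.r r2312 (@Lb.d (nat_lit 32) (nat_lit 0) (nat_lit 104) (@Lb.fm (nat_lit 3) t3344))))))))))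
noncomputable def l20250 : Lb := (@Lb.d (nat_lit 40) (nat_lit 5) (nat_lit 128) (@Lb.g g8 (@Lb.g g9 (@Lb.g g10 (@Lb.g g11 (@Lb.r r1703 (@Lb.r r1412 (@Lb.r r2182 (@Lb.r r1185 (@Lb.d (nat_lit 553) (nat_lit 74) (nat_lit 664) (@Lb.fm (nat_lit 9) t4057)))))))))))
noncomputable def l20251 : Lb := (@Lb.d (nat_lit 1) (nat_lit 258) (nat_lit 130) (@Lb.g g8 (@Lb.g g9 (@Lb.g g10 (@Lb.g g11 (@Lb.r r2459 (@Lb.r r297 (@Lb.r r1384 (@Lb.r r2630 (@Lb.d (nat_lit 665) (nat_lit 73) (nat_lit 289) (@Lb.fp (nat_lit 9) t91)))))))))))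
noncomputable def l20252 : Lb := (@Lb.r r2118 (@Lb.r r2311 (@Lb.d (nat_lit 4) (nat_lit 512) (nat_lit 0) (@Lb.g g8 (@Lb.g g9 (@Lb.r r2089 (@Lb.r r164 (@Lb.d (nat_lit 280) (nat_lit 6) (nat_lit 2) (@Lb.fp (nat_lit 3) t4058)))))))))
noncomputable def l20253 : Lb := (@Lb.d (nat_lit 8) (nat_lit 161) (nat_lit 618) (@Lb.r r2467 (@Lb.r r1450 (@Lb.r r421 (@Lb.g g7 (@Lb.g g4 (@Lb.d (nat_lit 1) (nat_lit 16) (nat_lit 4) (@Lb.fm (nat_lit 3) t4059))))))))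
noncomputable def l20254 : Lb := (@Lb.d (nat_lit 4) (nat_lit 10) (nat_lit 104) (@Lb.g g8 (@Lb.g g9 (@Lb.g g6 (@Lb.g g11 (@Lb.r r281 (@Lb.r r1635 (@Lb.r r1553 (@Lb.d (nat_lit 609) (nat_lit 134) (nat_lit 296) (@Lb.fp (nat_lit 9) t919))))))))))
noncomputable def l20255 : Lb := (@Lb.d (nat_lit 0) (nat_lit 258) (nat_lit 9) (@Lb.g g8 (@Lb.g g9 (@Lb.g g10 (@Lb.g g7 (@Lb.r r386 (@Lb.r r97 (@Lb.d (nat_lit 5) (nat_lit 10) (nat_lit 137) (@Lb.fm (nat_lit 9) t285)))))))))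
noncomputable def l20256 : Lb := (@Lb.r r21 (@Lb.d (nat_lit 129) (nat_lit 0) (nat_lit 73) (@Lb.g g8 (@Lb.g g10 (@Lb.g g11 (@Lb.r r419 (@Lb.r r2726 (@Lb.r r97 (@Lb.r r612 (@Lb.d (nat_lit 2) (nat_lit 100) (nat_lit 660) (@Lb.t (@Lb.fm (nat_lit 9) t1377))))))))))))
noncomputable def l20257 : Lb := (@Lb.d (nat_lit 1) (nat_lit 256) (nat_lit 138) (@Lb.g g11 (@Lb.t (@Lb.fp (nat_lit 3) t2))))
noncomputable def l20258 : Lb := (@Lb.r r82 (@Lb.d (nat_lit 4) (nat_lit 290) (nat_lit 128) (@Lb.g g8 (@Lb.g g9 (@Lb.g g11 (@Lb.r r555 (@Lb.r r1625 (@Lb.r r98 (@Lb.d (nat_lit 612) (nat_lit 8) (nat_lit 296) (@Lb.t (@Lb.fp (nat_lit 9) t4060)))))))))))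
noncomputable def l20259 : Lb := (@Lb.d (nat_lit 2) (nat_lit 288) (nat_lit 128) (@Lb.g g8 (@Lb.g g11 (@Lb.r r2712 (@Lb.r r293 (@Lb.r r2587 (@Lb.r r2178 (@Lb.d (nat_lit 96) (nat_lit 105) (nat_lit 401) (@Lb.fm (nat_lit 3) t1282)))))))))
noncomputable def l20260 : Lb := (@Lb.r r82 (@Lb.d (nat_lit 4) (nat_lit 34) (nat_lit 128) (@Lb.g g8 (@Lb.g g9 (@Lb.g g11 (@Lb.r r555 (@Lb.r r1625 (@Lb.r r98 (@Lb.d (nat_lit 609) (nat_lit 10) (nat_lit 296) (@Lb.t (@Lb.fp (nat_lit 9) t2714)))))))))))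
noncomputable def l20261 : Lb := (@Lb.r r323 (@Lb.d (nat_lit 32) (nat_lit 258) (nat_lit 2) (@Lb.g g8 (@Lb.g g9 (@Lb.g g10 (@Lb.r r1689 (@Lb.r r279 (@Lb.r r1350 (@Lb.r r520 (@Lb.d (nat_lit 529) (nat_lit 0) (nat_lit 264) (@Lb.t (@Lb.fp (nat_lit 9) t4061))))))))))))
noncomputable def l20262 : Lb := (@Lb.r r2118 (@Lb.r r2311 (@Lb.d (nat_lit 10) (nat_lit 513) (nat_lit 0) (@Lb.g g8 (@Lb.g g9 (@Lb.r r2089 (@Lb.r r2084 (@Lb.d (nat_lit 520) (nat_lit 66) (nat_lit 0) (@Lb.fp (nat_lit 3) t116)))))))))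
noncomputable def l20263 : Lb := (@Lb.d (nat_lit 128) (nat_lit 8) (nat_lit 130) (@Lb.g g10 (@Lb.g g11 (@Lb.r r361 (@Lb.r r292 (@Lb.r r539 (@Lb.r r134 (@Lb.d (nat_lit 105) (nat_lit 66) (nat_lit 329) (@Lb.fp (nat_lit 3) t210)))))))))
noncomputable def l20264 : Lb := (@Lb.d (nat_lit 128) (nat_lit 289) (nat_lit 66) (@Lb.g g8 (@Lb.g g9 (@Lb.g g10 (@Lb.g g11 (@Lb.r r683 (@Lb.r r1386 (@Lb.r r1305 (@Lb.r r516 (@Lb.d (nat_lit 521) (nat_lit 105) (nat_lit 25) (@Lb.fm (nat_lit 9) t3991)))))))))))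
noncomputable def l20265 : Lb := (@Lb.d (nat_lit 128) (nat_lit 520) (nat_lit 130) (@Lb.g g10 (@Lb.g g11 (@Lb.r r361 (@Lb.r r292 (@Lb.r r539 (@Lb.r r134 (@Lb.d (nat_lit 105) (nat_lit 68) (nat_lit 330) (@Lb.fp (nat_lit 3) t2476)))))))))
noncomputable def l20266 : Lb := (@Lb.r r263 (@Lb.d (nat_lit 130) (nat_lit 514) (nat_lit 2) (@Lb.g g8 (@Lb.g g9 (@Lb.g g10 (@Lb.r r675 (@Lb.r r1194 (@Lb.r r2393 (@Lb.r r2392 (@Lb.d (nat_lit 68) (nat_lit 8) (nat_lit 384) (@Lb.t (@Lb.fp (nat_lit 9) t1325))))))))))))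
noncomputable def l20267 : Lb := (@Lb.d (nat_lit 33) (nat_lit 514) (nat_lit 129) (@Lb.g g8 (@Lb.g g9 (@Lb.g g6 (@Lb.g g11 (@Lb.r r1643 (@Lb.r r1640 (@Lb.r r25 (@Lb.d (nat_lit 521) (nat_lit 153) (nat_lit 520) (@Lb.fm (nat_lit 9) t1923))))))))))
noncomputable def l20268 : Lb := (@Lb.d (nat_lit 0) (nat_lit 258) (nat_lit 130) (@Lb.g g9 (@Lb.g g10 (@Lb.g g11 (@Lb.r r1706 (@Lb.r r168 (@Lb.r r409 (@Lb.r r295 (@Lb.r r516 (@Lb.d (nat_lit 618) (nat_lit 97) (nat_lit 330) (@Lb.t (@Lb.fm (nat_lit 9) t1649))))))))))))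
noncomputable def l20269 : Lb := (@Lb.d (nat_lit 384) (nat_lit 256) (nat_lit 288) (@Lb.r r24 (@Lb.r r2138 (@Lb.r r149 (@Lb.g g5 (@Lb.t (@Lb.fp (nat_lit 3) t2858)))))))
noncomputable def l20270 : Lb := (@Lb.d (nat_lit 392) (nat_lit 130) (nat_lit 256) (@Lb.r r24 (@Lb.r r2138 (@Lb.g g9 (@Lb.d (nat_lit 8) (nat_lit 2) (nat_lit 0) (@Lb.t (@Lb.fm (nat_lit 3) t225)))))))
noncomputable def l20271 : Lb := (@Lb.d (nat_lit 386) (nat_lit 512) (nat_lit 288) (@Lb.r r24 (@Lb.r r101 (@Lb.g g7 (@Lb.t (@Lb.fm (nat_lit 3) t4062))))))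
noncomputable def l20272 : Lb := (@Lb.d (nat_lit 662) (nat_lit 514) (nat_lit 288) (@Lb.r r24 (@Lb.r r2138 (@Lb.g g5 (@Lb.d (nat_lit 8) (nat_lit 2) (nat_lit 0) (@Lb.t (@Lb.fp (nat_lit 3) t4063)))))))
noncomputable def l20273 : Lb := (@Lb.d (nat_lit 0) (nat_lit 258) (nat_lit 64) (@Lb.g g9 (@Lb.g g11 (@Lb.r r275 (@Lb.r r2178 (@Lb.r r1553 (@Lb.r r36 (@Lb.d (nat_lit 328) (nat_lit 22) (nat_lit 641) (@Lb.fp (nat_lit 3) t820)))))))))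
noncomputable def l20274 : Lb := (@Lb.d (nat_lit 409) (nat_lit 2) (nat_lit 6) (@Lb.r r1633 (@Lb.r r2390 (@Lb.r r2731 (@Lb.g g5 (@Lb.g g4 (@Lb.d (nat_lit 552) (nat_lit 0) (nat_lit 0) (@Lb.r r98 (@Lb.fm (nat_lit 3) t40)))))))))
noncomputable def l20275 : Lb := (@Lb.d (nat_lit 618) (nat_lit 665) (nat_lit 6) (@Lb.r r37 (@Lb.r r2390 (@Lb.r r2731 (@Lb.g g6 (@Lb.g g5 (@Lb.g g4 (@Lb.d (nat_lit 544) (nat_lit 8) (nat_lit 2) (@Lb.t (@Lb.fp (nat_lit 9) t40))))))))))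
noncomputable def l20276 : Lb := (@Lb.d (nat_lit 273) (nat_lit 2) (nat_lit 340) (@Lb.r r388 (@Lb.r r2406 (@Lb.r r1643 (@Lb.g g7 (@Lb.g g9 (@Lb.g g4 (@Lb.d (nat_lit 72) (nat_lit 10) (nat_lit 128) (@Lb.r r74 (@Lb.t (@Lb.fp (nat_lit 9) t894)))))))))))
noncomputable def l20277 : Lb := (@Lb.r r21 (@Lb.d (nat_lit 145) (nat_lit 512) (nat_lit 128) (@Lb.g g8 (@Lb.g g10 (@Lb.g g11 (@Lb.r r423 (@Lb.r r2401 (@Lb.r r90 (@Lb.r r1156 (@Lb.d (nat_lit 104) (nat_lit 69) (nat_lit 514) (@Lb.t (@Lb.fp (nat_lit 9) t929))))))))))))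
noncomputable def l20278 : Lb := (@Lb.d (nat_lit 4) (nat_lit 0) (nat_lit 128) (@Lb.g g8 (@Lb.g g9 (@Lb.g g10 (@Lb.g g11 (@Lb.r r387 (@Lb.r r2585 (@Lb.r r2564 (@Lb.d (nat_lit 9) (nat_lit 0) (nat_lit 393) (@Lb.fp (nat_lit 9) t2334))))))))))
noncomputable def l20279 : Lb := (@Lb.d (nat_lit 133) (nat_lit 0) (nat_lit 130) (@Lb.g g8 (@Lb.g g9 (@Lb.g g10 (@Lb.g g11 (@Lb.r r1675 (@Lb.r r613 (@Lb.r r666 (@Lb.r r1156 (@Lb.d (nat_lit 665) (nat_lit 105) (nat_lit 106) (@Lb.fm (nat_lit 9) t270)))))))))))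
noncomputable def l20280 : Lb := (@Lb.d (nat_lit 134) (nat_lit 517) (nat_lit 128) (@Lb.g g8 (@Lb.g g9 (@Lb.g g10 (@Lb.g g11 (@Lb.r r2403 (@Lb.r r386 (@Lb.r r616 (@Lb.r r1705 (@Lb.r r36 (@Lb.d (nat_lit 361) (nat_lit 74) (nat_lit 678) (@Lb.fm (nat_lit 9) t4064))))))))))))
noncomputable def l20281 : Lb := (@Lb.r r81 (@Lb.r r323 (@Lb.d (nat_lit 10) (nat_lit 0) (nat_lit 33) (@Lb.g g8 (@Lb.g g6 (@Lb.r r2347 (@Lb.r r149 (@Lb.r r1704 (@Lb.d (nat_lit 98) (nat_lit 21) (nat_lit 537) (@Lb.fm (nat_lit 3) t1006))))))))))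
noncomputable def l20282 : Lb := (@Lb.d (nat_lit 133) (nat_lit 292) (nat_lit 64) (@Lb.g g8 (@Lb.g g9 (@Lb.g g10 (@Lb.g g11 (@Lb.r r1706 (@Lb.r r1419 (@Lb.r r89 (@Lb.r r1176 (@Lb.d (nat_lit 388) (nat_lit 165) (nat_lit 656) (@Lb.fp (nat_lit 9) t328)))))))))))
noncomputable def l20283 : Lb := (@Lb.r r82 (@Lb.d (nat_lit 2) (nat_lit 289) (nat_lit 64) (@Lb.g g8 (@Lb.g g9 (@Lb.g g11 (@Lb.r r425 (@Lb.r r1642 (@Lb.r r1635 (@Lb.r r1096 (@Lb.d (nat_lit 34) (nat_lit 136) (nat_lit 361) (@Lb.t (@Lb.fp (nat_lit 9) t2561))))))))))))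
noncomputable def l20284 : Lb := (@Lb.d (nat_lit 1) (nat_lit 2) (nat_lit 130) (@Lb.g g8 (@Lb.g g9 (@Lb.g g10 (@Lb.g g11 (@Lb.r r1443 (@Lb.r r297 (@Lb.r r2120 (@Lb.r r1126 (@Lb.d (nat_lit 277) (nat_lit 128) (nat_lit 329) (@Lb.fp (nat_lit 9) t775)))))))))))
noncomputable def l20285 : Lb := (@Lb.r r279 (@Lb.d (nat_lit 37) (nat_lit 256) (nat_lit 2) (@Lb.g g8 (@Lb.g g9 (@Lb.g g10 (@Lb.r r675 (@Lb.r r1194 (@Lb.r r89 (@Lb.r r1176 (@Lb.d (nat_lit 538) (nat_lit 65) (nat_lit 84) (@Lb.t (@Lb.fp (nat_lit 9) t328))))))))))))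
noncomputable def l20286 : Lb := (@Lb.d (nat_lit 260) (nat_lit 513) (nat_lit 37) (@Lb.r r2132 (@Lb.r r1130 (@Lb.r r601 (@Lb.r r536 (@Lb.g g11 (@Lb.g g6 (@Lb.g g5 (@Lb.g g4 (@Lb.d (nat_lit 0) (nat_lit 32) (nat_lit 321) (@Lb.fp (nat_lit 9) t980)))))))))))
noncomputable def l20287 : Lb := (@Lb.g g11 (@Lb.r r101 (@Lb.d (nat_lit 389) (nat_lit 593) (nat_lit 528) (@Lb.t (@Lb.fm (nat_lit 3) t2148)))))
noncomputable def l20288 : Lb := (@Lb.r r275 (@Lb.d (nat_lit 4) (nat_lit 420) (nat_lit 2) (@Lb.g g5 (@Lb.g g10 (@Lb.r r359 (@Lb.r r1178 (@Lb.d (nat_lit 272) (nat_lit 73) (nat_lit 598) (@Lb.fm (nat_lit 3) t4065))))))))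
noncomputable def l20289 : Lb := (@Lb.d (nat_lit 2) (nat_lit 516) (nat_lit 18) (@Lb.g g8 (@Lb.g g9 (@Lb.g g6 (@Lb.g g11 (@Lb.r r2659 (@Lb.r r100 (@Lb.r r1621 (@Lb.r r1060 (@Lb.d (nat_lit 146) (nat_lit 98) (nat_lit 104) (@Lb.fp (nat_lit 9) t4066)))))))))))
noncomputable def l20290 : Lb := (@Lb.r r1427 (@Lb.r r101 (@Lb.d (nat_lit 133) (nat_lit 657) (nat_lit 592) (@Lb.fm (nat_lit 1) t4067))))
noncomputable def l20291 : Lb := (@Lb.d (nat_lit 0) (nat_lit 290) (nat_lit 582) (@Lb.g g9 (@Lb.g g10 (@Lb.g g7 (@Lb.r r1442 (@Lb.r r401 (@Lb.r r24 (@Lb.d (nat_lit 608) (nat_lit 82) (nat_lit 10) (@Lb.t (@Lb.fp (nat_lit 9) t4068))))))))))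
noncomputable def l20292 : Lb := (@Lb.d (nat_lit 0) (nat_lit 258) (nat_lit 130) (@Lb.g g8 (@Lb.g g9 (@Lb.g g10 (@Lb.g g11 (@Lb.r r24 (@Lb.r r2709 (@Lb.r r1622 (@Lb.r r1623 (@Lb.r r1188 (@Lb.d (nat_lit 129) (nat_lit 0) (nat_lit 338) (@Lb.fp (nat_lit 9) t1261))))))))))))
noncomputable def l20293 : Lb := (@Lb.d (nat_lit 0) (nat_lit 2) (nat_lit 130) (@Lb.g g8 (@Lb.g g9 (@Lb.g g10 (@Lb.g g11 (@Lb.r r24 (@Lb.r r2709 (@Lb.r r1622 (@Lb.r r1623 (@Lb.r r1188 (@Lb.d (nat_lit 130) (nat_lit 0) (nat_lit 338) (@Lb.fp (nat_lit 9) t1261))))))))))))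
noncomputable def l20294 : Lb := (@Lb.d (nat_lit 1) (nat_lit 66) (nat_lit 101) (@Lb.r r2394 (@Lb.r r2376 (@Lb.r r1543 (@Lb.g g6 (@Lb.g g9 (@Lb.d (nat_lit 0) (nat_lit 146) (nat_lit 0) (@Lb.fp (nat_lit 3) t4069))))))))
noncomputable def l20295 : Lb := (@Lb.r r21 (@Lb.r r70 (@Lb.d (nat_lit 657) (nat_lit 256) (nat_lit 128) (@Lb.g g8 (@Lb.g g11 (@Lb.r r1419 (@Lb.r r402 (@Lb.r r97 (@Lb.d (nat_lit 580) (nat_lit 161) (nat_lit 290) (@Lb.fm (nat_lit 3) t977))))))))))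
noncomputable def l20296 : Lb := (@Lb.d (nat_lit 0) (nat_lit 292) (nat_lit 534) (@Lb.r r2450 (@Lb.r r593 (@Lb.r r2643 (@Lb.g g11 (@Lb.g g6 (@Lb.g g8 (@Lb.t (@Lb.fp (nat_lit 9) t188)))))))))
noncomputable def l20297 : Lb := (@Lb.r r2331 (@Lb.r r2138 (@Lb.r r149 (@Lb.d (nat_lit 256) (nat_lit 581) (nat_lit 145) (@Lb.fp (nat_lit 1) t500)))))
noncomputable def l20298 : Lb := (@Lb.d (nat_lit 16) (nat_lit 516) (nat_lit 129) (@Lb.g g8 (@Lb.g g9 (@Lb.g g10 (@Lb.g g11 (@Lb.r r675 (@Lb.r r1681 (@Lb.r r612 (@Lb.r r1690 (@Lb.r r132 (@Lb.d (nat_lit 585) (nat_lit 98) (nat_lit 618) (@Lb.fp (nat_lit 9) t4070))))))))))))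
noncomputable def l20299 : Lb := (@Lb.r r323 (@Lb.d (nat_lit 0) (nat_lit 10) (nat_lit 1) (@Lb.g g9 (@Lb.g g10 (@Lb.r r2339 (@Lb.r r1169 (@Lb.r r2194 (@Lb.d (nat_lit 0) (nat_lit 6) (nat_lit 16) (@Lb.fp (nat_lit 3) t1250)))))))))
noncomputable def l20300 : Lb := (@Lb.r r82 (@Lb.d (nat_lit 4) (nat_lit 512) (nat_lit 136) (@Lb.g g8 (@Lb.g g9 (@Lb.g g11 (@Lb.r r2665 (@Lb.r r2198 (@Lb.r r1380 (@Lb.r r395 (@Lb.d (nat_lit 386) (nat_lit 162) (nat_lit 361) (@Lb.t (@Lb.fm (nat_lit 9) t2095))))))))))))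
noncomputable def l20301 : Lb := (@Lb.d (nat_lit 16) (nat_lit 516) (nat_lit 129) (@Lb.g g8 (@Lb.g g9 (@Lb.g g10 (@Lb.g g11 (@Lb.r r1683 (@Lb.r r2581 (@Lb.r r616 (@Lb.r r1350 (@Lb.d (nat_lit 338) (nat_lit 138) (nat_lit 421) (@Lb.fp (nat_lit 9) t2095)))))))))))
noncomputable def l20302 : Lb := (@Lb.r r82 (@Lb.r r275 (@Lb.g g9 (@Lb.r r1315 (@Lb.r r1122 (@Lb.r r1041 (@Lb.t (@Lb.fp (nat_lit 3) t1250))))))))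
noncomputable def l20303 : Lb := (@Lb.d (nat_lit 0) (nat_lit 0) (nat_lit 2) (@Lb.g g10 (@Lb.g g7 (@Lb.r r386 (@Lb.r r101 (@Lb.r r24 (@Lb.d (nat_lit 352) (nat_lit 5) (nat_lit 522) (@Lb.fm (nat_lit 3) t1150))))))))
noncomputable def l20304 : Lb := (@Lb.r r323 (@Lb.d (nat_lit 0) (nat_lit 522) (nat_lit 1) (@Lb.g g9 (@Lb.g g10 (@Lb.r r2339 (@Lb.r r1169 (@Lb.r r2194 (@Lb.d (nat_lit 0) (nat_lit 8) (nat_lit 17) (@Lb.fp (nat_lit 3) t4071)))))))))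
noncomputable def l20305 : Lb := (@Lb.d (nat_lit 0) (nat_lit 546) (nat_lit 66) (@Lb.g g9 (@Lb.g g10 (@Lb.g g11 (@Lb.r r1681 (@Lb.r r531 (@Lb.r r386 (@Lb.d (nat_lit 0) (nat_lit 160) (nat_lit 25) (@Lb.t (@Lb.fm (nat_lit 9) t656))))))))))
noncomputable def l20306 : Lb := (@Lb.d (nat_lit 128) (nat_lit 0) (nat_lit 384) (@Lb.g g11 (@Lb.r r2138 (@Lb.r r149 (@Lb.d (nat_lit 101) (nat_lit 37) (nat_lit 37) (@Lb.t (@Lb.fp (nat_lit 3) t4072)))))))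
noncomputable def l20307 : Lb := (@Lb.d (nat_lit 582) (nat_lit 642) (nat_lit 64) (@Lb.r r24 (@Lb.r r101 (@Lb.r r2394 (@Lb.r r1671 (@Lb.g g7 (@Lb.g g6 (@Lb.d (nat_lit 0) (nat_lit 0) (nat_lit 70) (@Lb.fp (nat_lit 3) t4073)))))))))
noncomputable def l20308 : Lb := (@Lb.r r82 (@Lb.r r275 (@Lb.d (nat_lit 34) (nat_lit 520) (nat_lit 0) (@Lb.g g8 (@Lb.g g9 (@Lb.r r427 (@Lb.r r150 (@Lb.r r100 (@Lb.d (nat_lit 346) (nat_lit 9) (nat_lit 546) (@Lb.fp (nat_lit 3) t4074))))))))))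
noncomputable def l20309 : Lb := (@Lb.d (nat_lit 2) (nat_lit 257) (nat_lit 0) (@Lb.g g8 (@Lb.g g9 (@Lb.r r618 (@Lb.r r2667 (@Lb.r r2585 (@Lb.d (nat_lit 329) (nat_lit 34) (nat_lit 576) (@Lb.fp (nat_lit 3) t867))))))))
noncomputable def l20310 : Lb := (@Lb.d (nat_lit 584) (nat_lit 384) (nat_lit 64) (@Lb.r r24 (@Lb.r r101 (@Lb.r r2394 (@Lb.r r1671 (@Lb.g g7 (@Lb.g g6 (@Lb.d (nat_lit 0) (nat_lit 0) (nat_lit 70) (@Lb.fp (nat_lit 3) t4073)))))))))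
noncomputable def l20311 : Lb := (@Lb.d (nat_lit 34) (nat_lit 513) (nat_lit 0) (@Lb.g g8 (@Lb.g g9 (@Lb.r r2723 (@Lb.r r582 (@Lb.r r2212 (@Lb.r r2581 (@Lb.d (nat_lit 134) (nat_lit 148) (nat_lit 330) (@Lb.fp (nat_lit 3) t881)))))))))
noncomputable def l20312 : Lb := (@Lb.r r81 (@Lb.d (nat_lit 0) (nat_lit 548) (nat_lit 162) (@Lb.g g10 (@Lb.g g11 (@Lb.r r2405 (@Lb.r r1688 (@Lb.r r395 (@Lb.d (nat_lit 336) (nat_lit 0) (nat_lit 585) (@Lb.fm (nat_lit 3) t2661)))))))))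
noncomputable def l20313 : Lb := (@Lb.d (nat_lit 34) (nat_lit 513) (nat_lit 0) (@Lb.g g8 (@Lb.g g9 (@Lb.g g11 (@Lb.r r2723 (@Lb.r r582 (@Lb.r r2212 (@Lb.r r2581 (@Lb.d (nat_lit 133) (nat_lit 146) (nat_lit 329) (@Lb.t (@Lb.fp (nat_lit 9) t3558)))))))))))
noncomputable def l20314 : Lb := (@Lb.d (nat_lit 2) (nat_lit 545) (nat_lit 128) (@Lb.g g8 (@Lb.g g9 (@Lb.g g11 (@Lb.r r106 (@Lb.r r2585 (@Lb.r r403 (@Lb.d (nat_lit 353) (nat_lit 26) (nat_lit 325) (@Lb.t (@Lb.fm (nat_lit 9) t4075))))))))))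
noncomputable def l20315 : Lb := (@Lb.d (nat_lit 2) (nat_lit 545) (nat_lit 129) (@Lb.g g8 (@Lb.g g9 (@Lb.g g10 (@Lb.g g11 (@Lb.r r2724 (@Lb.r r1575 (@Lb.r r1637 (@Lb.r r1426 (@Lb.d (nat_lit 84) (nat_lit 21) (nat_lit 342) (@Lb.fm (nat_lit 9) t4076)))))))))))
noncomputable def l20316 : Lb := (@Lb.d (nat_lit 138) (nat_lit 597) (nat_lit 577) (@Lb.r r553 (@Lb.r r427 (@Lb.r r406 (@Lb.g g7 (@Lb.g g5 (@Lb.g g4 (@Lb.d (nat_lit 1) (nat_lit 5) (nat_lit 128) (@Lb.t (@Lb.fp (nat_lit 9) t726))))))))))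
noncomputable def l20317 : Lb := (@Lb.d (nat_lit 0) (nat_lit 288) (nat_lit 128) (@Lb.g g7 (@Lb.r r533 (@Lb.r r663 (@Lb.r r2658 (@Lb.r r36 (@Lb.d (nat_lit 282) (nat_lit 5) (nat_lit 33) (@Lb.t (@Lb.fp (nat_lit 3) t968)))))))))
noncomputable def l20318 : Lb := (@Lb.d (nat_lit 6) (nat_lit 277) (nat_lit 160) (@Lb.r r657 (@Lb.r r667 (@Lb.r r584 (@Lb.r r326 (@Lb.g g7 (@Lb.g g6 (@Lb.g g5 (@Lb.d (nat_lit 0) (nat_lit 2) (nat_lit 65) (@Lb.t (@Lb.fp (nat_lit 9) t68)))))))))))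
noncomputable def l20319 : Lb := (@Lb.r r323 (@Lb.d (nat_lit 0) (nat_lit 4) (nat_lit 42) (@Lb.g g6 (@Lb.r r387 (@Lb.r r101 (@Lb.d (nat_lit 360) (nat_lit 165) (nat_lit 614) (@Lb.t (@Lb.fp (nat_lit 3) t1149))))))))
noncomputable def l20320 : Lb := (@Lb.d (nat_lit 2) (nat_lit 512) (nat_lit 1) (@Lb.g g8 (@Lb.g g9 (@Lb.g g10 (@Lb.g g11 (@Lb.r r273 (@Lb.r r555 (@Lb.r r616 (@Lb.r r86 (@Lb.r r153 (@Lb.d (nat_lit 0) (nat_lit 2) (nat_lit 137) (@Lb.fp (nat_lit 9) t2))))))))))))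
noncomputable def l20321 : Lb := (@Lb.r r21 (@Lb.r r323 (@Lb.d (nat_lit 130) (nat_lit 516) (nat_lit 2) (@Lb.g g8 (@Lb.g g10 (@Lb.r r279 (@Lb.r r145 (@Lb.r r596 (@Lb.d (nat_lit 149) (nat_lit 41) (nat_lit 137) (@Lb.fm (nat_lit 3) t44))))))))))
noncomputable def l20322 : Lb := (@Lb.r r359 (@Lb.d (nat_lit 130) (nat_lit 257) (nat_lit 18) (@Lb.g g8 (@Lb.g g5 (@Lb.g g10 (@Lb.r r1319 (@Lb.r r2708 (@Lb.d (nat_lit 677) (nat_lit 168) (nat_lit 405) (@Lb.t (@Lb.fp (nat_lit 9) t4077))))))))))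
noncomputable def l20323 : Lb := (@Lb.r r21 (@Lb.d (nat_lit 16) (nat_lit 512) (nat_lit 74) (@Lb.g g8 (@Lb.g g10 (@Lb.g g11 (@Lb.r r2707 (@Lb.r r2442 (@Lb.r r97 (@Lb.r r1432 (@Lb.d (nat_lit 616) (nat_lit 130) (nat_lit 325) (@Lb.t (@Lb.fm (nat_lit 9) t803))))))))))))
noncomputable def l20324 : Lb := (@Lb.d (nat_lit 70) (nat_lit 578) (nat_lit 674) (@Lb.r r24 (@Lb.r r2145 (@Lb.r r1643 (@Lb.r r2390 (@Lb.g g7 (@Lb.g g6 (@Lb.g g4 (@Lb.d (nat_lit 1) (nat_lit 0) (nat_lit 65) (@Lb.t (@Lb.fm (nat_lit 9) t1622)))))))))))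
noncomputable def l20325 : Lb := (@Lb.d (nat_lit 410) (nat_lit 9) (nat_lit 274) (@Lb.r r24 (@Lb.r r402 (@Lb.r r323 (@Lb.g g7 (@Lb.g g6 (@Lb.g g9 (@Lb.d (nat_lit 8) (nat_lit 2) (nat_lit 64) (@Lb.t (@Lb.fm (nat_lit 9) t4078))))))))))
noncomputable def l20326 : Lb := (@Lb.d (nat_lit 20) (nat_lit 673) (nat_lit 329) (@Lb.r r2321 (@Lb.r r1387 (@Lb.r r264 (@Lb.g g7 (@Lb.g g10 (@Lb.g g5 (@Lb.d (nat_lit 84) (nat_lit 1) (nat_lit 65) (@Lb.r r36 (@Lb.t (@Lb.fp (nat_lit 9) t267)))))))))))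
noncomputable def l20327 : Lb := (@Lb.d (nat_lit 322) (nat_lit 98) (nat_lit 90) (@Lb.r r2393 (@Lb.r r2712 (@Lb.r r330 (@Lb.g g7 (@Lb.g g5 (@Lb.g g4 (@Lb.d (nat_lit 22) (nat_lit 5) (nat_lit 384) (@Lb.r r578 (@Lb.t (@Lb.fm (nat_lit 9) t4079)))))))))))
noncomputable def l20328 : Lb := (@Lb.d (nat_lit 144) (nat_lit 9) (nat_lit 130) (@Lb.g g8 (@Lb.g g9 (@Lb.g g10 (@Lb.g g11 (@Lb.r r1706 (@Lb.r r1411 (@Lb.r r2201 (@Lb.r r2180 (@Lb.d (nat_lit 554) (nat_lit 146) (nat_lit 170) (@Lb.fm (nat_lit 9) t4080)))))))))))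
noncomputable def l20329 : Lb := (@Lb.d (nat_lit 66) (nat_lit 577) (nat_lit 609) (@Lb.r r1284 (@Lb.r r1691 (@Lb.r r2626 (@Lb.g g9 (@Lb.g g4 (@Lb.d (nat_lit 6) (nat_lit 152) (nat_lit 0) (@Lb.r r98 (@Lb.fm (nat_lit 3) t2240)))))))))
noncomputable def l20330 : Lb := (@Lb.d (nat_lit 658) (nat_lit 164) (nat_lit 90) (@Lb.r r680 (@Lb.r r97 (@Lb.r r1387 (@Lb.g g10 (@Lb.g g5 (@Lb.g g4 (@Lb.d (nat_lit 65) (nat_lit 1) (nat_lit 22) (@Lb.t (@Lb.fm (nat_lit 9) t2490))))))))))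
noncomputable def l20331 : Lb := (@Lb.d (nat_lit 2) (nat_lit 521) (nat_lit 129) (@Lb.g g8 (@Lb.g g9 (@Lb.g g10 (@Lb.g g11 (@Lb.r r2626 (@Lb.r r599 (@Lb.r r145 (@Lb.r r292 (@Lb.d (nat_lit 665) (nat_lit 41) (nat_lit 656) (@Lb.fm (nat_lit 9) t4081)))))))))))
noncomputable def l20332 : Lb := (@Lb.d (nat_lit 4) (nat_lit 10) (nat_lit 129) (@Lb.g g8 (@Lb.g g9 (@Lb.g g10 (@Lb.g g11 (@Lb.r r2626 (@Lb.r r599 (@Lb.r r145 (@Lb.r r292 (@Lb.d (nat_lit 666) (nat_lit 41) (nat_lit 656) (@Lb.fm (nat_lit 9) t4081)))))))))))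
noncomputable def l20333 : Lb := (@Lb.d (nat_lit 2) (nat_lit 265) (nat_lit 129) (@Lb.g g8 (@Lb.g g9 (@Lb.g g10 (@Lb.g g11 (@Lb.r r2626 (@Lb.r r599 (@Lb.r r145 (@Lb.r r292 (@Lb.d (nat_lit 666) (nat_lit 41) (nat_lit 656) (@Lb.fm (nat_lit 9) t4081)))))))))))
noncomputable def l20334 : Lb := (@Lb.d (nat_lit 160) (nat_lit 264) (nat_lit 128) (@Lb.g g10 (@Lb.g g11 (@Lb.r r260 (@Lb.r r2667 (@Lb.r r1633 (@Lb.r r338 (@Lb.d (nat_lit 68) (nat_lit 84) (nat_lit 262) (@Lb.fm (nat_lit 3) t1079)))))))))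
noncomputable def l20335 : Lb := (@Lb.r r616 (@Lb.r r2665 (@Lb.r r2390 (@Lb.r r2475 (@Lb.r r1188 (@Lb.d (nat_lit 0) (nat_lit 578) (nat_lit 512) (@Lb.fp (nat_lit 1) t322)))))))
noncomputable def l20336 : Lb := (@Lb.r r1291 (@Lb.r r24 (@Lb.r r101 (@Lb.d (nat_lit 0) (nat_lit 152) (nat_lit 281) (@Lb.fp (nat_lit 1) t4082)))))
noncomputable def l20337 : Lb := (@Lb.r r1291 (@Lb.r r24 (@Lb.r r101 (@Lb.d (nat_lit 5) (nat_lit 22) (nat_lit 297) (@Lb.fp (nat_lit 1) t4083)))))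
noncomputable def l20338 : Lb := (@Lb.d (nat_lit 96) (nat_lit 516) (nat_lit 74) (@Lb.g g8 (@Lb.g g9 (@Lb.g g10 (@Lb.g g11 (@Lb.r r2722 (@Lb.r r2715 (@Lb.r r2329 (@Lb.r r1108 (@Lb.d (nat_lit 40) (nat_lit 38) (nat_lit 329) (@Lb.fp (nat_lit 9) t4084)))))))))))
noncomputable def l20339 : Lb := (@Lb.r r82 (@Lb.d (nat_lit 72) (nat_lit 33) (nat_lit 64) (@Lb.g g8 (@Lb.g g9 (@Lb.g g11 (@Lb.r r2315 (@Lb.r r2708 (@Lb.r r2438 (@Lb.r r2385 (@Lb.d (nat_lit 0) (nat_lit 166) (nat_lit 529) (@Lb.t (@Lb.fp (nat_lit 9) t4025))))))))))))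
noncomputable def l20340 : Lb := (@Lb.d (nat_lit 4) (nat_lit 0) (nat_lit 130) (@Lb.g g8 (@Lb.g g9 (@Lb.g g10 (@Lb.g g11 (@Lb.r r427 (@Lb.r r2146 (@Lb.r r292 (@Lb.r r2069 (@Lb.r r1060 (@Lb.d (nat_lit 289) (nat_lit 74) (nat_lit 33) (@Lb.fp (nat_lit 9) t1089))))))))))))
noncomputable def l20341 : Lb := (@Lb.r r21 (@Lb.d (nat_lit 9) (nat_lit 0) (nat_lit 130) (@Lb.g g8 (@Lb.g g10 (@Lb.g g11 (@Lb.r r1451 (@Lb.r r97 (@Lb.r r2646 (@Lb.r r1444 (@Lb.d (nat_lit 160) (nat_lit 17) (nat_lit 585) (@Lb.t (@Lb.fp (nat_lit 9) t519))))))))))))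
noncomputable def l20342 : Lb := (@Lb.d (nat_lit 32) (nat_lit 8) (nat_lit 130) (@Lb.g g10 (@Lb.g g11 (@Lb.r r361 (@Lb.r r2711 (@Lb.r r1380 (@Lb.r r1690 (@Lb.d (nat_lit 594) (nat_lit 96) (nat_lit 520) (@Lb.fp (nat_lit 3) t45)))))))))
noncomputable def l20343 : Lb := (@Lb.d (nat_lit 608) (nat_lit 598) (nat_lit 538) (@Lb.r r1384 (@Lb.r r297 (@Lb.r r418 (@Lb.g g11 (@Lb.g g5 (@Lb.g g4 (@Lb.d (nat_lit 17) (nat_lit 18) (nat_lit 264) (@Lb.r r578 (@Lb.t (@Lb.fp (nat_lit 9) t495)))))))))))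
noncomputable def l20344 : Lb := (@Lb.d (nat_lit 133) (nat_lit 0) (nat_lit 73) (@Lb.g g8 (@Lb.g g9 (@Lb.g g10 (@Lb.g g11 (@Lb.r r2435 (@Lb.r r2710 (@Lb.r r2585 (@Lb.r r2584 (@Lb.d (nat_lit 330) (nat_lit 66) (nat_lit 328) (@Lb.fp (nat_lit 9) t393)))))))))))
noncomputable def l20345 : Lb := (@Lb.d (nat_lit 2) (nat_lit 289) (nat_lit 66) (@Lb.g g8 (@Lb.g g9 (@Lb.g g10 (@Lb.g g11 (@Lb.r r2666 (@Lb.r r2657 (@Lb.r r615 (@Lb.r r24 (@Lb.d (nat_lit 294) (nat_lit 97) (nat_lit 586) (@Lb.fm (nat_lit 9) t694)))))))))))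
noncomputable def l20346 : Lb := (@Lb.d (nat_lit 2) (nat_lit 2) (nat_lit 130) (@Lb.g g8 (@Lb.g g9 (@Lb.g g10 (@Lb.g g11 (@Lb.r r2666 (@Lb.r r2664 (@Lb.r r2585 (@Lb.r r2651 (@Lb.d (nat_lit 354) (nat_lit 74) (nat_lit 70) (@Lb.fp (nat_lit 9) t4085)))))))))))
noncomputable def l20347 : Lb := (@Lb.d (nat_lit 2) (nat_lit 2) (nat_lit 2) (@Lb.g g8 (@Lb.g g9 (@Lb.g g10 (@Lb.r r2666 (@Lb.r r579 (@Lb.r r2337 (@Lb.r r24 (@Lb.d (nat_lit 586) (nat_lit 149) (nat_lit 321) (@Lb.t (@Lb.fp (nat_lit 9) t4086)))))))))))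
noncomputable def l20348 : Lb := (@Lb.d (nat_lit 644) (nat_lit 512) (nat_lit 130) (@Lb.g g8 (@Lb.g g9 (@Lb.g g10 (@Lb.g g11 (@Lb.r r419 (@Lb.r r106 (@Lb.r r25 (@Lb.d (nat_lit 360) (nat_lit 9) (nat_lit 9) (@Lb.fp (nat_lit 9) t2501))))))))))
noncomputable def l20349 : Lb := (@Lb.d (nat_lit 2) (nat_lit 258) (nat_lit 2) (@Lb.g g8 (@Lb.g g9 (@Lb.g g10 (@Lb.r r2666 (@Lb.r r579 (@Lb.r r2337 (@Lb.r r24 (@Lb.d (nat_lit 586) (nat_lit 149) (nat_lit 264) (@Lb.t (@Lb.fp (nat_lit 9) t4086)))))))))))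
noncomputable def l20350 : Lb := (@Lb.r r1284 (@Lb.d (nat_lit 0) (nat_lit 282) (nat_lit 1) (@Lb.g g9 (@Lb.g g10 (@Lb.g g11 (@Lb.r r677 (@Lb.r r1634 (@Lb.r r2667 (@Lb.d (nat_lit 352) (nat_lit 26) (nat_lit 417) (@Lb.t (@Lb.fm (nat_lit 9) t4087)))))))))))
noncomputable def l20351 : Lb := (@Lb.d (nat_lit 18) (nat_lit 256) (nat_lit 137) (@Lb.g g8 (@Lb.g g9 (@Lb.g g10 (@Lb.g g11 (@Lb.r r289 (@Lb.r r2587 (@Lb.r r1624 (@Lb.r r1126 (@Lb.d (nat_lit 294) (nat_lit 132) (nat_lit 392) (@Lb.fm (nat_lit 9) t3919)))))))))))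
noncomputable def l20352 : Lb := (@Lb.d (nat_lit 8) (nat_lit 2) (nat_lit 130) (@Lb.g g8 (@Lb.g g9 (@Lb.g g10 (@Lb.g g11 (@Lb.r r2715 (@Lb.r r1301 (@Lb.r r676 (@Lb.r r1094 (@Lb.r r2180 (@Lb.d (nat_lit 617) (nat_lit 149) (nat_lit 36) (@Lb.fm (nat_lit 9) t4088))))))))))))
noncomputable def l20353 : Lb := (@Lb.r r323 (@Lb.d (nat_lit 1) (nat_lit 288) (nat_lit 2) (@Lb.g g8 (@Lb.g g9 (@Lb.g g10 (@Lb.r r279 (@Lb.r r676 (@Lb.r r166 (@Lb.r r165 (@Lb.d (nat_lit 41) (nat_lit 10) (nat_lit 69) (@Lb.t (@Lb.fm (nat_lit 9) t45))))))))))))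
noncomputable def l20354 : Lb := (@Lb.d (nat_lit 8) (nat_lit 2) (nat_lit 130) (@Lb.g g8 (@Lb.g g9 (@Lb.g g10 (@Lb.g g11 (@Lb.r r2715 (@Lb.r r1301 (@Lb.r r676 (@Lb.r r1094 (@Lb.r r2180 (@Lb.d (nat_lit 617) (nat_lit 20) (nat_lit 36) (@Lb.fm (nat_lit 9) t4088))))))))))))
noncomputable def l20355 : Lb := (@Lb.d (nat_lit 145) (nat_lit 512) (nat_lit 73) (@Lb.g g8 (@Lb.g g9 (@Lb.g g10 (@Lb.g g11 (@Lb.r r1579 (@Lb.r r1641 (@Lb.r r2454 (@Lb.r r612 (@Lb.d (nat_lit 146) (nat_lit 152) (nat_lit 137) (@Lb.fm (nat_lit 9) t1101)))))))))))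
noncomputable def l20356 : Lb := (@Lb.d (nat_lit 0) (nat_lit 256) (nat_lit 130) (@Lb.g g9 (@Lb.g g10 (@Lb.g g11 (@Lb.r r1307 (@Lb.r r2709 (@Lb.r r2646 (@Lb.r r1416 (@Lb.d (nat_lit 514) (nat_lit 4) (nat_lit 0) (@Lb.t (@Lb.fp (nat_lit 9) t528)))))))))))
noncomputable def l20357 : Lb := (@Lb.r r1621 (@Lb.d (nat_lit 64) (nat_lit 16) (nat_lit 130) (@Lb.g g8 (@Lb.g g10 (@Lb.g g7 (@Lb.r r1410 (@Lb.r r2152 (@Lb.d (nat_lit 294) (nat_lit 88) (nat_lit 553) (@Lb.t (@Lb.fp (nat_lit 9) t639))))))))))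
noncomputable def l20358 : Lb := (@Lb.d (nat_lit 88) (nat_lit 296) (nat_lit 68) (@Lb.r r404 (@Lb.r r363 (@Lb.r r273 (@Lb.g g7 (@Lb.g g10 (@Lb.g g4 (@Lb.d (nat_lit 18) (nat_lit 8) (nat_lit 66) (@Lb.r r145 (@Lb.t (@Lb.fm (nat_lit 9) t44)))))))))))
noncomputable def l20359 : Lb := (@Lb.d (nat_lit 548) (nat_lit 1) (nat_lit 258) (@Lb.r r20 (@Lb.r r1174 (@Lb.r r361 (@Lb.g g11 (@Lb.g g5 (@Lb.g g4 (@Lb.d (nat_lit 1) (nat_lit 0) (nat_lit 132) (@Lb.r r578 (@Lb.t (@Lb.fm (nat_lit 9) t1142)))))))))))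
noncomputable def l20360 : Lb := (@Lb.r r21 (@Lb.r r323 (@Lb.d (nat_lit 128) (nat_lit 4) (nat_lit 2) (@Lb.g g8 (@Lb.g g10 (@Lb.r r279 (@Lb.r r145 (@Lb.r r596 (@Lb.d (nat_lit 149) (nat_lit 41) (nat_lit 2) (@Lb.fm (nat_lit 3) t71))))))))))
noncomputable def l20361 : Lb := (@Lb.d (nat_lit 4) (nat_lit 512) (nat_lit 137) (@Lb.g g8 (@Lb.g g9 (@Lb.g g10 (@Lb.g g11 (@Lb.r r1065 (@Lb.r r104 (@Lb.r r1606 (@Lb.r r579 (@Lb.r r1156 (@Lb.d (nat_lit 658) (nat_lit 162) (nat_lit 260) (@Lb.fm (nat_lit 9) t572))))))))))))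
noncomputable def l20362 : Lb := (@Lb.d (nat_lit 328) (nat_lit 258) (nat_lit 386) (@Lb.r r20 (@Lb.r r1321 (@Lb.r r579 (@Lb.g g10 (@Lb.g g5 (@Lb.g g4 (@Lb.d (nat_lit 1) (nat_lit 5) (nat_lit 24) (@Lb.r r387 (@Lb.t (@Lb.fm (nat_lit 9) t51)))))))))))
noncomputable def l20363 : Lb := (@Lb.r r82 (@Lb.d (nat_lit 136) (nat_lit 258) (nat_lit 392) (@Lb.g g9 (@Lb.g g11 (@Lb.r r148 (@Lb.r r598 (@Lb.r r1433 (@Lb.d (nat_lit 517) (nat_lit 152) (nat_lit 137) (@Lb.fm (nat_lit 3) t3054)))))))))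
noncomputable def l20364 : Lb := (@Lb.d (nat_lit 274) (nat_lit 1) (nat_lit 80) (@Lb.r r2120 (@Lb.r r1362 (@Lb.r r423 (@Lb.r r293 (@Lb.g g7 (@Lb.g g6 (@Lb.g g4 (@Lb.d (nat_lit 0) (nat_lit 4) (nat_lit 8) (@Lb.t (@Lb.fp (nat_lit 9) t4089)))))))))))
noncomputable def l20365 : Lb := (@Lb.d (nat_lit 288) (nat_lit 88) (nat_lit 81) (@Lb.r r386 (@Lb.r r595 (@Lb.r r1301 (@Lb.g g6 (@Lb.g g5 (@Lb.g g4 (@Lb.d (nat_lit 1) (nat_lit 1) (nat_lit 1) (@Lb.t (@Lb.fp (nat_lit 9) t2333))))))))))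
noncomputable def l20366 : Lb := (@Lb.d (nat_lit 353) (nat_lit 513) (nat_lit 610) (@Lb.r r1288 (@Lb.r r2375 (@Lb.r r1682 (@Lb.g g7 (@Lb.g g5 (@Lb.g g4 (@Lb.d (nat_lit 66) (nat_lit 133) (nat_lit 128) (@Lb.t (@Lb.fp (nat_lit 9) t412))))))))))
noncomputable def l20367 : Lb := (@Lb.r r323 (@Lb.d (nat_lit 32) (nat_lit 512) (nat_lit 2) (@Lb.g g10 (@Lb.r r584 (@Lb.r r619 (@Lb.r r609 (@Lb.d (nat_lit 10) (nat_lit 64) (nat_lit 84) (@Lb.t (@Lb.fm (nat_lit 3) t479)))))))))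
noncomputable def l20368 : Lb := (@Lb.d (nat_lit 520) (nat_lit 82) (nat_lit 128) (@Lb.r r2341 (@Lb.r r1624 (@Lb.r r166 (@Lb.r r1299 (@Lb.g g7 (@Lb.g g6 (@Lb.g g5 (@Lb.d (nat_lit 0) (nat_lit 5) (nat_lit 66) (@Lb.t (@Lb.fm (nat_lit 9) t581)))))))))))
noncomputable def l20369 : Lb := (@Lb.d (nat_lit 586) (nat_lit 530) (nat_lit 0) (@Lb.r r2325 (@Lb.r r1640 (@Lb.r r2390 (@Lb.g g11 (@Lb.g g9 (@Lb.d (nat_lit 0) (nat_lit 5) (nat_lit 0) (@Lb.r r98 (@Lb.fp (nat_lit 3) t3658)))))))))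
noncomputable def l20370 : Lb := (@Lb.d (nat_lit 513) (nat_lit 336) (nat_lit 128) (@Lb.r r2341 (@Lb.r r1624 (@Lb.r r166 (@Lb.r r1299 (@Lb.g g7 (@Lb.g g6 (@Lb.g g5 (@Lb.d (nat_lit 0) (nat_lit 5) (nat_lit 132) (@Lb.t (@Lb.fm (nat_lit 9) t2945)))))))))))
noncomputable def l20371 : Lb := (@Lb.d (nat_lit 660) (nat_lit 282) (nat_lit 101) (@Lb.r r2454 (@Lb.r r1291 (@Lb.g g9 (@Lb.d (nat_lit 8) (nat_lit 9) (nat_lit 0) (@Lb.t (@Lb.fm (nat_lit 3) t4043)))))))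
noncomputable def l20372 : Lb := (@Lb.d (nat_lit 260) (nat_lit 577) (nat_lit 384) (@Lb.r r101 (@Lb.r r2454 (@Lb.r r1291 (@Lb.g g11 (@Lb.g g6 (@Lb.g g8 (@Lb.t (@Lb.fp (nat_lit 9) t4090)))))))))
noncomputable def l20373 : Lb := (@Lb.d (nat_lit 9) (nat_lit 642) (nat_lit 34) (@Lb.r r609 (@Lb.r r619 (@Lb.r r584 (@Lb.g g7 (@Lb.g g10 (@Lb.g g5 (@Lb.d (nat_lit 32) (nat_lit 0) (nat_lit 65) (@Lb.t (@Lb.fp (nat_lit 9) t42))))))))))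
noncomputable def l20374 : Lb := (@Lb.r r82 (@Lb.d (nat_lit 1) (nat_lit 258) (nat_lit 0) (@Lb.g g4 (@Lb.g g9 (@Lb.g g7 (@Lb.r r2138 (@Lb.r r1061 (@Lb.d (nat_lit 262) (nat_lit 64) (nat_lit 69) (@Lb.t (@Lb.fp (nat_lit 9) t4091))))))))))
noncomputable def l20375 : Lb := (@Lb.r r283 (@Lb.d (nat_lit 1) (nat_lit 256) (nat_lit 2) (@Lb.g g8 (@Lb.g g9 (@Lb.g g10 (@Lb.r r2651 (@Lb.r r1642 (@Lb.r r1561 (@Lb.r r1604 (@Lb.d (nat_lit 682) (nat_lit 5) (nat_lit 682) (@Lb.t (@Lb.fp (nat_lit 9) t4092))))))))))))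
noncomputable def l20376 : Lb := (@Lb.d (nat_lit 96) (nat_lit 320) (nat_lit 410) (@Lb.r r2641 (@Lb.r r2395 (@Lb.r r614 (@Lb.g g7 (@Lb.g g4 (@Lb.d (nat_lit 1) (nat_lit 0) (nat_lit 64) (@Lb.fm (nat_lit 3) t4093))))))))
noncomputable def l20377 : Lb := (@Lb.d (nat_lit 136) (nat_lit 514) (nat_lit 130) (@Lb.g g9 (@Lb.g g10 (@Lb.g g11 (@Lb.r r166 (@Lb.r r264 (@Lb.r r599 (@Lb.r r409 (@Lb.d (nat_lit 137) (nat_lit 25) (nat_lit 73) (@Lb.t (@Lb.fp (nat_lit 9) t1097)))))))))))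
noncomputable def l20378 : Lb := (@Lb.d (nat_lit 581) (nat_lit 86) (nat_lit 146) (@Lb.r r353 (@Lb.r r1350 (@Lb.r r651 (@Lb.r r676 (@Lb.g g7 (@Lb.g g6 (@Lb.d (nat_lit 16) (nat_lit 0) (nat_lit 129) (@Lb.fm (nat_lit 3) t4094)))))))))
noncomputable def l20379 : Lb := (@Lb.d (nat_lit 545) (nat_lit 661) (nat_lit 321) (@Lb.r r2308 (@Lb.r r2178 (@Lb.r r1291 (@Lb.r r292 (@Lb.g g7 (@Lb.g g9 (@Lb.g g4 (@Lb.d (nat_lit 1) (nat_lit 70) (nat_lit 64) (@Lb.t (@Lb.fp (nat_lit 9) t1385)))))))))))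
noncomputable def l20380 : Lb := (@Lb.d (nat_lit 0) (nat_lit 266) (nat_lit 18) (@Lb.r r146 (@Lb.r r2129 (@Lb.r r2371 (@Lb.g g6 (@Lb.d (nat_lit 0) (nat_lit 0) (nat_lit 1) (@Lb.t (@Lb.fp (nat_lit 3) t4095))))))))
noncomputable def l20381 : Lb := (@Lb.r r82 (@Lb.d (nat_lit 2) (nat_lit 522) (nat_lit 0) (@Lb.g g8 (@Lb.g g9 (@Lb.g g11 (@Lb.r r363 (@Lb.r r150 (@Lb.r r85 (@Lb.d (nat_lit 4) (nat_lit 8) (nat_lit 2) (@Lb.t (@Lb.fp (nat_lit 9) t594)))))))))))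
noncomputable def l20382 : Lb := (@Lb.g g11 (@Lb.r r1346 (@Lb.r r387 (@Lb.r r1425 (@Lb.d (nat_lit 0) (nat_lit 676) (nat_lit 613) (@Lb.t (@Lb.fp (nat_lit 3) t1466)))))))
noncomputable def l20383 : Lb := (@Lb.d (nat_lit 2) (nat_lit 390) (nat_lit 160) (@Lb.g g8 (@Lb.g g5 (@Lb.g g10 (@Lb.g g11 (@Lb.r r387 (@Lb.r r24 (@Lb.d (nat_lit 10) (nat_lit 66) (nat_lit 137) (@Lb.fp (nat_lit 9) t4096)))))))))
noncomputable def l20384 : Lb := (@Lb.d (nat_lit 36) (nat_lit 641) (nat_lit 18) (@Lb.r r89 (@Lb.r r2150 (@Lb.g g9 (@Lb.t (@Lb.fp (nat_lit 3) t3979))))))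
noncomputable def l20385 : Lb := (@Lb.d (nat_lit 0) (nat_lit 9) (nat_lit 72) (@Lb.g g8 (@Lb.g g9 (@Lb.g g11 (@Lb.r r106 (@Lb.r r612 (@Lb.r r2583 (@Lb.r r1313 (@Lb.d (nat_lit 9) (nat_lit 137) (nat_lit 642) (@Lb.t (@Lb.fm (nat_lit 9) t71)))))))))))
noncomputable def l20386 : Lb := (@Lb.d (nat_lit 32) (nat_lit 521) (nat_lit 64) (@Lb.g g8 (@Lb.g g9 (@Lb.g g11 (@Lb.r r1671 (@Lb.r r582 (@Lb.r r2452 (@Lb.r r25 (@Lb.d (nat_lit 522) (nat_lit 146) (nat_lit 680) (@Lb.t (@Lb.fp (nat_lit 9) t386)))))))))))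
noncomputable def l20387 : Lb := (@Lb.d (nat_lit 25) (nat_lit 64) (nat_lit 17) (@Lb.r r1092 (@Lb.r r2202 (@Lb.r r1563 (@Lb.g g9 (@Lb.g g4 (@Lb.d (nat_lit 1) (nat_lit 65) (nat_lit 0) (@Lb.r r299 (@Lb.r r98 (@Lb.fp (nat_lit 3) t61))))))))))
noncomputable def l20388 : Lb := (@Lb.g g5 (@Lb.g g7 (@Lb.d (nat_lit 6) (nat_lit 513) (nat_lit 69) (@Lb.fm (nat_lit 3) t2))))
noncomputable def l20389 : Lb := (@Lb.r r21 (@Lb.d (nat_lit 0) (nat_lit 544) (nat_lit 130) (@Lb.g g8 (@Lb.g g10 (@Lb.g g11 (@Lb.r r1690 (@Lb.r r101 (@Lb.r r404 (@Lb.r r2347 (@Lb.d (nat_lit 70) (nat_lit 150) (nat_lit 408) (@Lb.t (@Lb.fm (nat_lit 9) t242))))))))))))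
noncomputable def l20390 : Lb := (@Lb.d (nat_lit 0) (nat_lit 512) (nat_lit 128) (@Lb.g g5 (@Lb.g g11 (@Lb.d (nat_lit 5) (nat_lit 1) (nat_lit 64) (@Lb.fp (nat_lit 3) t2)))))
noncomputable def l20391 : Lb := (@Lb.d (nat_lit 128) (nat_lit 257) (nat_lit 0) (@Lb.g g8 (@Lb.g g9 (@Lb.r r662 (@Lb.r r361 (@Lb.r r1431 (@Lb.r r2664 (@Lb.d (nat_lit 358) (nat_lit 24) (nat_lit 642) (@Lb.fp (nat_lit 3) t71)))))))))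
noncomputable def l20392 : Lb := (@Lb.r r323 (@Lb.d (nat_lit 2) (nat_lit 4) (nat_lit 2) (@Lb.g g8 (@Lb.g g6 (@Lb.r r1643 (@Lb.r r2145 (@Lb.r r24 (@Lb.d (nat_lit 264) (nat_lit 2) (nat_lit 129) (@Lb.fm (nat_lit 3) t4097)))))))))
noncomputable def l20393 : Lb := (@Lb.r r70 (@Lb.d (nat_lit 161) (nat_lit 2) (nat_lit 64) (@Lb.g g8 (@Lb.g g9 (@Lb.g g11 (@Lb.r r1430 (@Lb.r r1367 (@Lb.r r97 (@Lb.r r596 (@Lb.d (nat_lit 149) (nat_lit 38) (nat_lit 82) (@Lb.t (@Lb.fm (nat_lit 9) t4098))))))))))))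
noncomputable def l20394 : Lb := (@Lb.d (nat_lit 16) (nat_lit 512) (nat_lit 24) (@Lb.g g8 (@Lb.g g10 (@Lb.r r132 (@Lb.d (nat_lit 32) (nat_lit 0) (nat_lit 161) (@Lb.fm (nat_lit 3) t2314))))))
noncomputable def l20395 : Lb := (@Lb.d (nat_lit 137) (nat_lit 34) (nat_lit 0) (@Lb.g g8 (@Lb.g g9 (@Lb.r r1299 (@Lb.r r2178 (@Lb.r r2709 (@Lb.r r104 (@Lb.d (nat_lit 84) (nat_lit 5) (nat_lit 0) (@Lb.fm (nat_lit 3) t124)))))))))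
noncomputable def l20396 : Lb := (@Lb.d (nat_lit 9) (nat_lit 514) (nat_lit 74) (@Lb.g g8 (@Lb.g g9 (@Lb.g g10 (@Lb.g g11 (@Lb.r r2705 (@Lb.r r535 (@Lb.r r392 (@Lb.r r74 (@Lb.d (nat_lit 545) (nat_lit 10) (nat_lit 152) (@Lb.fp (nat_lit 9) t221)))))))))))
noncomputable def l20397 : Lb := (@Lb.d (nat_lit 9) (nat_lit 257) (nat_lit 74) (@Lb.g g8 (@Lb.g g9 (@Lb.g g10 (@Lb.g g11 (@Lb.r r657 (@Lb.r r535 (@Lb.r r392 (@Lb.r r74 (@Lb.d (nat_lit 32) (nat_lit 10) (nat_lit 152) (@Lb.fp (nat_lit 9) t221)))))))))))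
noncomputable def l20398 : Lb := (@Lb.r r81 (@Lb.d (nat_lit 161) (nat_lit 4) (nat_lit 9) (@Lb.g g8 (@Lb.g g6 (@Lb.r r361 (@Lb.r r535 (@Lb.r r296 (@Lb.d (nat_lit 133) (nat_lit 41) (nat_lit 74) (@Lb.fm (nat_lit 3) t355)))))))))
noncomputable def l20399 : Lb := (@Lb.r r70 (@Lb.d (nat_lit 2) (nat_lit 549) (nat_lit 0) (@Lb.g g8 (@Lb.g g5 (@Lb.r r1547 (@Lb.r r1178 (@Lb.r r1560 (@Lb.d (nat_lit 536) (nat_lit 74) (nat_lit 100) (@Lb.fm (nat_lit 3) t68)))))))))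
noncomputable def l20400 : Lb := (@Lb.d (nat_lit 9) (nat_lit 258) (nat_lit 10) (@Lb.g g8 (@Lb.g g9 (@Lb.g g10 (@Lb.g g11 (@Lb.r r2705 (@Lb.r r535 (@Lb.r r392 (@Lb.r r74 (@Lb.d (nat_lit 545) (nat_lit 5) (nat_lit 154) (@Lb.fp (nat_lit 9) t221)))))))))))
noncomputable def l20401 : Lb := (@Lb.d (nat_lit 9) (nat_lit 2) (nat_lit 74) (@Lb.g g8 (@Lb.g g9 (@Lb.g g10 (@Lb.g g11 (@Lb.r r2705 (@Lb.r r535 (@Lb.r r392 (@Lb.r r74 (@Lb.d (nat_lit 545) (nat_lit 5) (nat_lit 154) (@Lb.fp (nat_lit 9) t221)))))))))))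
noncomputable def l20402 : Lb := (@Lb.d (nat_lit 4) (nat_lit 258) (nat_lit 130) (@Lb.g g9 (@Lb.g g10 (@Lb.g g11 (@Lb.r r423 (@Lb.r r600 (@Lb.r r662 (@Lb.r r2393 (@Lb.d (nat_lit 581) (nat_lit 160) (nat_lit 320) (@Lb.t (@Lb.fm (nat_lit 9) t2831)))))))))))
noncomputable def l20403 : Lb := (@Lb.r r323 (@Lb.d (nat_lit 9) (nat_lit 1) (nat_lit 2) (@Lb.g g8 (@Lb.g g9 (@Lb.g g10 (@Lb.r r102 (@Lb.r r404 (@Lb.r r683 (@Lb.r r673 (@Lb.d (nat_lit 10) (nat_lit 22) (nat_lit 136) (@Lb.t (@Lb.fm (nat_lit 9) t119))))))))))))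
noncomputable def l20404 : Lb := (@Lb.d (nat_lit 32) (nat_lit 4) (nat_lit 144) (@Lb.g g10 (@Lb.g g11 (@Lb.r r2471 (@Lb.r r1624 (@Lb.r r405 (@Lb.d (nat_lit 266) (nat_lit 100) (nat_lit 660) (@Lb.fp (nat_lit 3) t4099))))))))
noncomputable def l20405 : Lb := (@Lb.r r323 (@Lb.d (nat_lit 0) (nat_lit 516) (nat_lit 1) (@Lb.g g9 (@Lb.g g10 (@Lb.r r427 (@Lb.r r106 (@Lb.r r145 (@Lb.d (nat_lit 33) (nat_lit 5) (nat_lit 0) (@Lb.fm (nat_lit 3) t5)))))))))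
noncomputable def l20406 : Lb := (@Lb.d (nat_lit 386) (nat_lit 256) (nat_lit 72) (@Lb.r r24 (@Lb.r r101 (@Lb.r r386 (@Lb.r r1347 (@Lb.g g7 (@Lb.g g6 (@Lb.d (nat_lit 0) (nat_lit 0) (nat_lit 70) (@Lb.fp (nat_lit 3) t2672)))))))))
noncomputable def l20407 : Lb := (@Lb.d (nat_lit 128) (nat_lit 258) (nat_lit 130) (@Lb.g g9 (@Lb.g g10 (@Lb.g g11 (@Lb.r r260 (@Lb.r r1451 (@Lb.r r386 (@Lb.r r97 (@Lb.d (nat_lit 409) (nat_lit 134) (nat_lit 102) (@Lb.t (@Lb.fm (nat_lit 9) t386)))))))))))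
noncomputable def l20408 : Lb := (@Lb.d (nat_lit 1) (nat_lit 0) (nat_lit 74) (@Lb.g g8 (@Lb.g g9 (@Lb.g g10 (@Lb.g g11 (@Lb.r r2707 (@Lb.r r1160 (@Lb.r r1626 (@Lb.r r289 (@Lb.d (nat_lit 581) (nat_lit 70) (nat_lit 514) (@Lb.fm (nat_lit 9) t4100)))))))))))
noncomputable def l20409 : Lb := (@Lb.r r323 (@Lb.d (nat_lit 1) (nat_lit 512) (nat_lit 2) (@Lb.g g8 (@Lb.g g9 (@Lb.g g10 (@Lb.r r106 (@Lb.r r616 (@Lb.r r619 (@Lb.r r609 (@Lb.d (nat_lit 10) (nat_lit 16) (nat_lit 128) (@Lb.t (@Lb.fp (nat_lit 9) t71))))))))))))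
noncomputable def l20410 : Lb := (@Lb.r r21 (@Lb.r r323 (@Lb.d (nat_lit 130) (nat_lit 0) (nat_lit 2) (@Lb.g g8 (@Lb.g g10 (@Lb.r r362 (@Lb.r r361 (@Lb.r r535 (@Lb.r r264 (@Lb.d (nat_lit 137) (nat_lit 17) (nat_lit 5) (@Lb.fp (nat_lit 3) t119)))))))))))
noncomputable def l20411 : Lb := (@Lb.d (nat_lit 130) (nat_lit 514) (nat_lit 2) (@Lb.g g8 (@Lb.g g9 (@Lb.g g10 (@Lb.r r2722 (@Lb.r r2467 (@Lb.r r2345 (@Lb.r r104 (@Lb.d (nat_lit 644) (nat_lit 10) (nat_lit 361) (@Lb.t (@Lb.fp (nat_lit 9) t1745)))))))))))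
noncomputable def l20412 : Lb := (@Lb.d (nat_lit 128) (nat_lit 32) (nat_lit 128) (@Lb.g g11 (@Lb.r r292 (@Lb.r r101 (@Lb.r r1426 (@Lb.r r355 (@Lb.d (nat_lit 514) (nat_lit 136) (nat_lit 518) (@Lb.t (@Lb.fp (nat_lit 3) t4101)))))))))
noncomputable def l20413 : Lb := (@Lb.d (nat_lit 2) (nat_lit 272) (nat_lit 66) (@Lb.g g8 (@Lb.g g9 (@Lb.g g10 (@Lb.g g11 (@Lb.r r2650 (@Lb.r r1425 (@Lb.r r1699 (@Lb.d (nat_lit 521) (nat_lit 33) (nat_lit 549) (@Lb.fm (nat_lit 9) t4102))))))))))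
noncomputable def l20414 : Lb := (@Lb.d (nat_lit 128) (nat_lit 544) (nat_lit 128) (@Lb.g g11 (@Lb.r r292 (@Lb.r r101 (@Lb.r r1426 (@Lb.r r355 (@Lb.d (nat_lit 512) (nat_lit 136) (nat_lit 518) (@Lb.t (@Lb.fp (nat_lit 3) t4101)))))))))
noncomputable def l20415 : Lb := (@Lb.d (nat_lit 134) (nat_lit 264) (nat_lit 128) (@Lb.g g8 (@Lb.g g9 (@Lb.g g11 (@Lb.r r2375 (@Lb.r r612 (@Lb.r r2138 (@Lb.r r1189 (@Lb.d (nat_lit 290) (nat_lit 166) (nat_lit 642) (@Lb.t (@Lb.fp (nat_lit 9) t4103)))))))))))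
noncomputable def l20416 : Lb := (@Lb.d (nat_lit 6) (nat_lit 546) (nat_lit 130) (@Lb.g g8 (@Lb.g g9 (@Lb.g g10 (@Lb.g g11 (@Lb.r r1689 (@Lb.r r531 (@Lb.r r386 (@Lb.r r1288 (@Lb.d (nat_lit 153) (nat_lit 130) (nat_lit 517) (@Lb.fm (nat_lit 9) t4104)))))))))))
noncomputable def l20417 : Lb := (@Lb.d (nat_lit 145) (nat_lit 258) (nat_lit 74) (@Lb.g g8 (@Lb.g g9 (@Lb.g g10 (@Lb.g g11 (@Lb.r r2459 (@Lb.r r1169 (@Lb.r r1618 (@Lb.r r72 (@Lb.d (nat_lit 85) (nat_lit 36) (nat_lit 424) (@Lb.fm (nat_lit 9) t212)))))))))))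
noncomputable def l20418 : Lb := (@Lb.d (nat_lit 145) (nat_lit 265) (nat_lit 73) (@Lb.g g8 (@Lb.g g9 (@Lb.g g10 (@Lb.g g11 (@Lb.r r2666 (@Lb.r r324 (@Lb.r r2475 (@Lb.r r421 (@Lb.r r2068 (@Lb.d (nat_lit 545) (nat_lit 100) (nat_lit 598) (@Lb.fm (nat_lit 9) t4105))))))))))))
noncomputable def l20419 : Lb := (@Lb.d (nat_lit 10) (nat_lit 256) (nat_lit 2) (@Lb.g g8 (@Lb.g g10 (@Lb.r r293 (@Lb.r r1435 (@Lb.r r386 (@Lb.r r1112 (@Lb.d (nat_lit 42) (nat_lit 4) (nat_lit 552) (@Lb.fp (nat_lit 3) t2344)))))))))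
noncomputable def l20420 : Lb := (@Lb.d (nat_lit 640) (nat_lit 544) (nat_lit 64) (@Lb.g g4 (@Lb.g g11 (@Lb.r r2393 (@Lb.r r679 (@Lb.r r2178 (@Lb.d (nat_lit 661) (nat_lit 85) (nat_lit 680) (@Lb.fp (nat_lit 3) t3942))))))))
noncomputable def l20421 : Lb := (@Lb.d (nat_lit 130) (nat_lit 256) (nat_lit 128) (@Lb.g g8 (@Lb.g g11 (@Lb.r r1543 (@Lb.r r260 (@Lb.d (nat_lit 256) (nat_lit 0) (nat_lit 640) (@Lb.fp (nat_lit 3) t4106)))))))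
noncomputable def l20422 : Lb := (@Lb.d (nat_lit 145) (nat_lit 2) (nat_lit 74) (@Lb.g g8 (@Lb.g g9 (@Lb.g g10 (@Lb.g g11 (@Lb.r r2459 (@Lb.r r1169 (@Lb.r r1618 (@Lb.r r72 (@Lb.d (nat_lit 90) (nat_lit 37) (nat_lit 424) (@Lb.fm (nat_lit 9) t3877)))))))))))
noncomputable def l20423 : Lb := (@Lb.r r82 (@Lb.d (nat_lit 72) (nat_lit 529) (nat_lit 0) (@Lb.g g8 (@Lb.g g9 (@Lb.g g11 (@Lb.r r657 (@Lb.r r1686 (@Lb.r r1419 (@Lb.r r516 (@Lb.d (nat_lit 353) (nat_lit 5) (nat_lit 409) (@Lb.t (@Lb.fp (nat_lit 9) t1964))))))))))))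
noncomputable def l20424 : Lb := (@Lb.d (nat_lit 66) (nat_lit 673) (nat_lit 74) (@Lb.r r281 (@Lb.r r404 (@Lb.r r678 (@Lb.r r1443 (@Lb.g g6 (@Lb.g g5 (@Lb.g g4 (@Lb.d (nat_lit 0) (nat_lit 33) (nat_lit 1) (@Lb.t (@Lb.fm (nat_lit 9) t975)))))))))))
noncomputable def l20425 : Lb := (@Lb.r r323 (@Lb.d (nat_lit 130) (nat_lit 2) (nat_lit 2) (@Lb.g g8 (@Lb.g g9 (@Lb.g g10 (@Lb.r r599 (@Lb.r r98 (@Lb.r r2456 (@Lb.r r1125 (@Lb.d (nat_lit 533) (nat_lit 105) (nat_lit 65) (@Lb.t (@Lb.fp (nat_lit 9) t3488))))))))))))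
noncomputable def l20426 : Lb := (@Lb.r r279 (@Lb.d (nat_lit 0) (nat_lit 266) (nat_lit 1) (@Lb.g g8 (@Lb.g g9 (@Lb.g g10 (@Lb.r r1706 (@Lb.r r1668 (@Lb.r r519 (@Lb.r r153 (@Lb.d (nat_lit 328) (nat_lit 5) (nat_lit 544) (@Lb.t (@Lb.fm (nat_lit 9) t4107))))))))))))
noncomputable def l20427 : Lb := (@Lb.r r323 (@Lb.d (nat_lit 2) (nat_lit 0) (nat_lit 2) (@Lb.g g8 (@Lb.g g9 (@Lb.g g10 (@Lb.r r1383 (@Lb.r r2212 (@Lb.r r2662 (@Lb.r r533 (@Lb.d (nat_lit 548) (nat_lit 41) (nat_lit 584) (@Lb.t (@Lb.fm (nat_lit 9) t499))))))))))))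
noncomputable def l20428 : Lb := (@Lb.r r323 (@Lb.d (nat_lit 2) (nat_lit 512) (nat_lit 2) (@Lb.g g8 (@Lb.g g9 (@Lb.g g10 (@Lb.r r1383 (@Lb.r r2212 (@Lb.r r2662 (@Lb.r r533 (@Lb.d (nat_lit 548) (nat_lit 34) (nat_lit 585) (@Lb.t (@Lb.fm (nat_lit 9) t499))))))))))))
noncomputable def l20429 : Lb := (@Lb.d (nat_lit 40) (nat_lit 512) (nat_lit 136) (@Lb.g g8 (@Lb.g g11 (@Lb.r r2213 (@Lb.r r1190 (@Lb.r r2388 (@Lb.r r1291 (@Lb.d (nat_lit 2) (nat_lit 148) (nat_lit 70) (@Lb.fm (nat_lit 3) t322)))))))))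
noncomputable def l20430 : Lb := (@Lb.d (nat_lit 128) (nat_lit 256) (nat_lit 128) (@Lb.g g11 (@Lb.r r1125 (@Lb.r r260 (@Lb.r r1435 (@Lb.r r2450 (@Lb.d (nat_lit 354) (nat_lit 0) (nat_lit 338) (@Lb.t (@Lb.fp (nat_lit 3) t4108)))))))))
noncomputable def l20431 : Lb := (@Lb.d (nat_lit 292) (nat_lit 586) (nat_lit 1) (@Lb.r r168 (@Lb.r r90 (@Lb.r r1427 (@Lb.g g9 (@Lb.g g4 (@Lb.d (nat_lit 17) (nat_lit 65) (nat_lit 0) (@Lb.r r291 (@Lb.r r98 (@Lb.fm (nat_lit 3) t4010))))))))))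
noncomputable def l20432 : Lb := (@Lb.r r81 (@Lb.d (nat_lit 0) (nat_lit 0) (nat_lit 130) (@Lb.g g8 (@Lb.g g6 (@Lb.g g11 (@Lb.r r1611 (@Lb.r r2453 (@Lb.r r1608 (@Lb.d (nat_lit 66) (nat_lit 0) (nat_lit 665) (@Lb.t (@Lb.fp (nat_lit 9) t4109)))))))))))
noncomputable def l20433 : Lb := (@Lb.d (nat_lit 293) (nat_lit 64) (nat_lit 2) (@Lb.r r168 (@Lb.r r90 (@Lb.r r1427 (@Lb.g g9 (@Lb.g g4 (@Lb.d (nat_lit 17) (nat_lit 65) (nat_lit 0) (@Lb.r r291 (@Lb.r r98 (@Lb.fm (nat_lit 3) t4110))))))))))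
noncomputable def l20434 : Lb := (@Lb.r r21 (@Lb.d (nat_lit 138) (nat_lit 0) (nat_lit 64) (@Lb.g g8 (@Lb.g g10 (@Lb.g g11 (@Lb.r r1435 (@Lb.r r1617 (@Lb.r r2470 (@Lb.r r88 (@Lb.d (nat_lit 264) (nat_lit 6) (nat_lit 32) (@Lb.t (@Lb.fm (nat_lit 9) t1071))))))))))))
noncomputable def l20435 : Lb := (@Lb.r r263 (@Lb.d (nat_lit 2) (nat_lit 258) (nat_lit 2) (@Lb.g g8 (@Lb.g g9 (@Lb.g g10 (@Lb.r r1320 (@Lb.r r519 (@Lb.r r1442 (@Lb.r r145 (@Lb.d (nat_lit 0) (nat_lit 132) (nat_lit 537) (@Lb.t (@Lb.fp (nat_lit 9) t532))))))))))))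
noncomputable def l20436 : Lb := (@Lb.d (nat_lit 16) (nat_lit 0) (nat_lit 160) (@Lb.r r21 (@Lb.g g8 (@Lb.d (nat_lit 2) (nat_lit 0) (nat_lit 0) (@Lb.r r1291 (@Lb.r r1098 (@Lb.r r25 (@Lb.t (@Lb.fp (nat_lit 3) t1775)))))))))
noncomputable def l20437 : Lb := (@Lb.r r21 (@Lb.d (nat_lit 16) (nat_lit 0) (nat_lit 64) (@Lb.g g8 (@Lb.g g11 (@Lb.r r2567 (@Lb.r r1098 (@Lb.r r25 (@Lb.d (nat_lit 576) (nat_lit 0) (nat_lit 608) (@Lb.fp (nat_lit 3) t1775)))))))))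
noncomputable def l20438 : Lb := (@Lb.d (nat_lit 4) (nat_lit 517) (nat_lit 128) (@Lb.g g8 (@Lb.g g9 (@Lb.g g10 (@Lb.g g11 (@Lb.r r2666 (@Lb.r r612 (@Lb.r r343 (@Lb.r r553 (@Lb.r r2084 (@Lb.d (nat_lit 74) (nat_lit 9) (nat_lit 578) (@Lb.fm (nat_lit 9) t644))))))))))))
noncomputable def l20439 : Lb := (@Lb.d (nat_lit 658) (nat_lit 272) (nat_lit 74) (@Lb.g g8 (@Lb.g g9 (@Lb.g g10 (@Lb.g g11 (@Lb.r r2347 (@Lb.r r1602 (@Lb.r r1049 (@Lb.d (nat_lit 514) (nat_lit 162) (nat_lit 106) (@Lb.fp (nat_lit 9) t442))))))))))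
noncomputable def l20440 : Lb := (@Lb.d (nat_lit 390) (nat_lit 149) (nat_lit 360) (@Lb.r r1684 (@Lb.r r1431 (@Lb.r r2665 (@Lb.g g10 (@Lb.g g5 (@Lb.g g4 (@Lb.d (nat_lit 42) (nat_lit 0) (nat_lit 1) (@Lb.t (@Lb.fp (nat_lit 9) t1741))))))))))
noncomputable def l20441 : Lb := (@Lb.d (nat_lit 8) (nat_lit 34) (nat_lit 2) (@Lb.g g9 (@Lb.g g10 (@Lb.r r536 (@Lb.r r283 (@Lb.r r1610 (@Lb.r r553 (@Lb.d (nat_lit 20) (nat_lit 18) (nat_lit 665) (@Lb.fm (nat_lit 3) t1741)))))))))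
noncomputable def l20442 : Lb := (@Lb.d (nat_lit 16) (nat_lit 256) (nat_lit 32) (@Lb.r r21 (@Lb.g g8 (@Lb.d (nat_lit 258) (nat_lit 0) (nat_lit 0) (@Lb.r r1098 (@Lb.r r25 (@Lb.t (@Lb.fp (nat_lit 3) t4111))))))))
noncomputable def l20443 : Lb := (@Lb.d (nat_lit 153) (nat_lit 258) (nat_lit 10) (@Lb.g g8 (@Lb.g g9 (@Lb.g g10 (@Lb.r r1303 (@Lb.r r1641 (@Lb.r r2454 (@Lb.r r2632 (@Lb.d (nat_lit 105) (nat_lit 65) (nat_lit 297) (@Lb.t (@Lb.fp (nat_lit 9) t1369)))))))))))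
noncomputable def l20444 : Lb := (@Lb.r r21 (@Lb.g g8 (@Lb.r r68 (@Lb.r r1098 (@Lb.r r25 (@Lb.d (nat_lit 513) (nat_lit 256) (nat_lit 2) (@Lb.t (@Lb.fp (nat_lit 3) t2806))))))))
noncomputable def l20445 : Lb := (@Lb.d (nat_lit 129) (nat_lit 521) (nat_lit 129) (@Lb.g g8 (@Lb.g g9 (@Lb.g g10 (@Lb.g g11 (@Lb.r r419 (@Lb.r r1177 (@Lb.r r1176 (@Lb.r r2458 (@Lb.d (nat_lit 409) (nat_lit 85) (nat_lit 580) (@Lb.fp (nat_lit 9) t2139)))))))))))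
noncomputable def l20446 : Lb := (@Lb.d (nat_lit 0) (nat_lit 514) (nat_lit 130) (@Lb.g g9 (@Lb.g g10 (@Lb.g g11 (@Lb.r r2691 (@Lb.r r2376 (@Lb.r r1158 (@Lb.r r97 (@Lb.d (nat_lit 81) (nat_lit 138) (nat_lit 424) (@Lb.t (@Lb.fm (nat_lit 9) t2597)))))))))))
noncomputable def l20447 : Lb := (@Lb.d (nat_lit 529) (nat_lit 389) (nat_lit 162) (@Lb.r r2182 (@Lb.r r2132 (@Lb.r r425 (@Lb.g g11 (@Lb.g g6 (@Lb.g g5 (@Lb.g g4 (@Lb.d (nat_lit 37) (nat_lit 33) (nat_lit 389) (@Lb.fm (nat_lit 9) t2383))))))))))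
noncomputable def l20448 : Lb := (@Lb.d (nat_lit 146) (nat_lit 2) (nat_lit 64) (@Lb.g g8 (@Lb.g g9 (@Lb.g g10 (@Lb.g g11 (@Lb.r r427 (@Lb.r r2154 (@Lb.r r292 (@Lb.r r21 (@Lb.r r36 (@Lb.d (nat_lit 361) (nat_lit 38) (nat_lit 597) (@Lb.fp (nat_lit 9) t495))))))))))))
noncomputable def l20449 : Lb := (@Lb.d (nat_lit 616) (nat_lit 297) (nat_lit 66) (@Lb.r r680 (@Lb.r r89 (@Lb.r r386 (@Lb.g g11 (@Lb.g g6 (@Lb.g g4 (@Lb.d (nat_lit 5) (nat_lit 0) (nat_lit 385) (@Lb.r r529 (@Lb.t (@Lb.fm (nat_lit 9) t495)))))))))))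
noncomputable def l20450 : Lb := (@Lb.d (nat_lit 0) (nat_lit 256) (nat_lit 9) (@Lb.g g4 (@Lb.g g10 (@Lb.g g11 (@Lb.r r2691 (@Lb.r r1158 (@Lb.d (nat_lit 129) (nat_lit 0) (nat_lit 424) (@Lb.t (@Lb.fp (nat_lit 9) t282)))))))))
noncomputable def l20451 : Lb := (@Lb.r r323 (@Lb.d (nat_lit 2) (nat_lit 34) (nat_lit 2) (@Lb.g g8 (@Lb.g g9 (@Lb.g g10 (@Lb.r r599 (@Lb.r r1702 (@Lb.r r1444 (@Lb.r r149 (@Lb.d (nat_lit 289) (nat_lit 4) (nat_lit 1) (@Lb.t (@Lb.fm (nat_lit 9) t1089))))))))))))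
noncomputable def l20452 : Lb := (@Lb.d (nat_lit 129) (nat_lit 258) (nat_lit 130) (@Lb.g g8 (@Lb.g g9 (@Lb.g g10 (@Lb.g g11 (@Lb.r r2435 (@Lb.r r1177 (@Lb.r r1426 (@Lb.r r584 (@Lb.d (nat_lit 98) (nat_lit 21) (nat_lit 100) (@Lb.fp (nat_lit 9) t393)))))))))))
noncomputable def l20453 : Lb := (@Lb.d (nat_lit 161) (nat_lit 34) (nat_lit 1) (@Lb.g g8 (@Lb.g g9 (@Lb.g g10 (@Lb.r r1450 (@Lb.r r595 (@Lb.r r1429 (@Lb.r r2088 (@Lb.d (nat_lit 90) (nat_lit 96) (nat_lit 426) (@Lb.t (@Lb.fp (nat_lit 9) t1549)))))))))))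
noncomputable def l20454 : Lb := (@Lb.d (nat_lit 406) (nat_lit 402) (nat_lit 145) (@Lb.r r1604 (@Lb.r r1621 (@Lb.r r1706 (@Lb.g g11 (@Lb.g g6 (@Lb.g g5 (@Lb.g g4 (@Lb.d (nat_lit 6) (nat_lit 4) (nat_lit 129) (@Lb.fp (nat_lit 9) t61))))))))))
noncomputable def l20455 : Lb := (@Lb.r r331 (@Lb.d (nat_lit 673) (nat_lit 2) (nat_lit 2) (@Lb.g g8 (@Lb.g g9 (@Lb.g g10 (@Lb.r r362 (@Lb.r r1411 (@Lb.r r25 (@Lb.d (nat_lit 0) (nat_lit 33) (nat_lit 618) (@Lb.t (@Lb.fm (nat_lit 9) t842)))))))))))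
noncomputable def l20456 : Lb := (@Lb.d (nat_lit 536) (nat_lit 421) (nat_lit 530) (@Lb.r r1362 (@Lb.r r423 (@Lb.r r600 (@Lb.g g6 (@Lb.g g5 (@Lb.d (nat_lit 16) (nat_lit 129) (nat_lit 1) (@Lb.r r387 (@Lb.fp (nat_lit 3) t98)))))))))
noncomputable def l20457 : Lb := (@Lb.d (nat_lit 406) (nat_lit 658) (nat_lit 145) (@Lb.r r1604 (@Lb.r r1621 (@Lb.r r1706 (@Lb.g g11 (@Lb.g g6 (@Lb.g g5 (@Lb.g g4 (@Lb.d (nat_lit 6) (nat_lit 2) (nat_lit 128) (@Lb.fp (nat_lit 9) t61))))))))))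
noncomputable def l20458 : Lb := (@Lb.d (nat_lit 0) (nat_lit 513) (nat_lit 592) (@Lb.r r1371 (@Lb.r r2725 (@Lb.r r2726 (@Lb.r r1352 (@Lb.g g6 (@Lb.g g5 (@Lb.d (nat_lit 0) (nat_lit 1) (nat_lit 2) (@Lb.fp (nat_lit 3) t441)))))))))
noncomputable def l20459 : Lb := (@Lb.d (nat_lit 97) (nat_lit 256) (nat_lit 664) (@Lb.r r24 (@Lb.r r2394 (@Lb.r r1189 (@Lb.r r2691 (@Lb.g g7 (@Lb.g g6 (@Lb.g g5 (@Lb.d (nat_lit 0) (nat_lit 1) (nat_lit 65) (@Lb.t (@Lb.fm (nat_lit 9) t393)))))))))))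
noncomputable def l20460 : Lb := (@Lb.d (nat_lit 149) (nat_lit 258) (nat_lit 64) (@Lb.g g8 (@Lb.g g9 (@Lb.g g10 (@Lb.g g11 (@Lb.r r1435 (@Lb.r r2201 (@Lb.r r1626 (@Lb.r r2696 (@Lb.d (nat_lit 342) (nat_lit 69) (nat_lit 581) (@Lb.fm (nat_lit 9) t381)))))))))))
noncomputable def l20461 : Lb := (@Lb.d (nat_lit 130) (nat_lit 258) (nat_lit 0) (@Lb.g g8 (@Lb.g g9 (@Lb.r r2595 (@Lb.r r1430 (@Lb.r r2665 (@Lb.r r104 (@Lb.d (nat_lit 538) (nat_lit 32) (nat_lit 36) (@Lb.fm (nat_lit 3) t1122)))))))))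
noncomputable def l20462 : Lb := (@Lb.d (nat_lit 104) (nat_lit 514) (nat_lit 664) (@Lb.r r24 (@Lb.r r2394 (@Lb.r r1189 (@Lb.r r2691 (@Lb.g g7 (@Lb.g g6 (@Lb.g g5 (@Lb.d (nat_lit 0) (nat_lit 1) (nat_lit 65) (@Lb.t (@Lb.fm (nat_lit 9) t393)))))))))))
noncomputable def l20463 : Lb := (@Lb.d (nat_lit 0) (nat_lit 261) (nat_lit 0) (@Lb.g g5 (@Lb.r r2148 (@Lb.d (nat_lit 0) (nat_lit 86) (nat_lit 281) (@Lb.t (@Lb.fm (nat_lit 3) t1174))))))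
noncomputable def l20464 : Lb := (@Lb.d (nat_lit 400) (nat_lit 0) (nat_lit 128) (@Lb.g g8 (@Lb.g g5 (@Lb.g g10 (@Lb.g g11 (@Lb.r r387 (@Lb.r r74 (@Lb.d (nat_lit 592) (nat_lit 0) (nat_lit 9) (@Lb.fm (nat_lit 9) t3197)))))))))
noncomputable def l20465 : Lb := (@Lb.d (nat_lit 130) (nat_lit 514) (nat_lit 0) (@Lb.g g8 (@Lb.g g9 (@Lb.r r2595 (@Lb.r r1430 (@Lb.r r2665 (@Lb.r r104 (@Lb.d (nat_lit 537) (nat_lit 32) (nat_lit 36) (@Lb.fm (nat_lit 3) t1122)))))))))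
noncomputable def l20466 : Lb := (@Lb.r r331 (@Lb.d (nat_lit 32) (nat_lit 513) (nat_lit 2) (@Lb.g g8 (@Lb.g g9 (@Lb.g g10 (@Lb.r r2713 (@Lb.r r1691 (@Lb.r r2626 (@Lb.r r340 (@Lb.d (nat_lit 394) (nat_lit 98) (nat_lit 682) (@Lb.t (@Lb.fp (nat_lit 9) t524))))))))))))
noncomputable def l20467 : Lb := (@Lb.d (nat_lit 130) (nat_lit 514) (nat_lit 0) (@Lb.g g8 (@Lb.g g9 (@Lb.r r2595 (@Lb.r r1430 (@Lb.r r2665 (@Lb.r r104 (@Lb.d (nat_lit 533) (nat_lit 34) (nat_lit 36) (@Lb.fm (nat_lit 3) t1122)))))))))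
noncomputable def l20468 : Lb := (@Lb.d (nat_lit 0) (nat_lit 512) (nat_lit 74) (@Lb.g g10 (@Lb.g g11 (@Lb.r r1691 (@Lb.r r2401 (@Lb.r r1174 (@Lb.r r8 (@Lb.d (nat_lit 16) (nat_lit 72) (nat_lit 18) (@Lb.fm (nat_lit 3) t646)))))))))
noncomputable def l20469 : Lb := (@Lb.d (nat_lit 0) (nat_lit 512) (nat_lit 128) (@Lb.g g10 (@Lb.g g11 (@Lb.r r387 (@Lb.d (nat_lit 642) (nat_lit 0) (nat_lit 393) (@Lb.fm (nat_lit 3) t4112))))))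
noncomputable def l20470 : Lb := (@Lb.r r21 (@Lb.r r2118 (@Lb.r r2311 (@Lb.d (nat_lit 1) (nat_lit 512) (nat_lit 0) (@Lb.g g4 (@Lb.r r25 (@Lb.d (nat_lit 32) (nat_lit 0) (nat_lit 16) (@Lb.t (@Lb.fm (nat_lit 3) t4113)))))))))
noncomputable def l20471 : Lb := (@Lb.r r70 (@Lb.r r263 (@Lb.d (nat_lit 2) (nat_lit 38) (nat_lit 0) (@Lb.g g8 (@Lb.g g9 (@Lb.r r599 (@Lb.r r2442 (@Lb.r r264 (@Lb.d (nat_lit 400) (nat_lit 2) (nat_lit 129) (@Lb.fp (nat_lit 3) t395))))))))))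
noncomputable def l20472 : Lb := (@Lb.d (nat_lit 2) (nat_lit 2) (nat_lit 128) (@Lb.g g8 (@Lb.g g9 (@Lb.g g10 (@Lb.g g11 (@Lb.r r387 (@Lb.r r2585 (@Lb.r r2564 (@Lb.d (nat_lit 649) (nat_lit 0) (nat_lit 585) (@Lb.fp (nat_lit 9) t1135))))))))))
noncomputable def l20473 : Lb := (@Lb.g g7 (@Lb.r r402 (@Lb.d (nat_lit 608) (nat_lit 64) (nat_lit 354) (@Lb.t (@Lb.fp (nat_lit 3) t1994)))))
noncomputable def l20474 : Lb := (@Lb.d (nat_lit 2) (nat_lit 585) (nat_lit 129) (@Lb.g g8 (@Lb.g g9 (@Lb.g g10 (@Lb.g g11 (@Lb.r r2475 (@Lb.r r2442 (@Lb.r r2436 (@Lb.d (nat_lit 101) (nat_lit 9) (nat_lit 546) (@Lb.fm (nat_lit 9) t1246))))))))))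
noncomputable def l20475 : Lb := (@Lb.d (nat_lit 2) (nat_lit 265) (nat_lit 129) (@Lb.g g8 (@Lb.g g9 (@Lb.g g10 (@Lb.g g11 (@Lb.r r148 (@Lb.r r102 (@Lb.r r357 (@Lb.r r667 (@Lb.r r644 (@Lb.d (nat_lit 2) (nat_lit 66) (nat_lit 74) (@Lb.fp (nat_lit 9) t755))))))))))))
noncomputable def l20476 : Lb := (@Lb.d (nat_lit 272) (nat_lit 520) (nat_lit 536) (@Lb.r r2372 (@Lb.r r2122 (@Lb.r r2579 (@Lb.g g5 (@Lb.g g4 (@Lb.d (nat_lit 16) (nat_lit 25) (nat_lit 0) (@Lb.fp (nat_lit 3) t2664))))))))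
noncomputable def l20477 : Lb := (@Lb.d (nat_lit 34) (nat_lit 258) (nat_lit 72) (@Lb.g g8 (@Lb.g g9 (@Lb.g g11 (@Lb.r r162 (@Lb.r r1681 (@Lb.r r1431 (@Lb.r r2632 (@Lb.d (nat_lit 88) (nat_lit 65) (nat_lit 409) (@Lb.t (@Lb.fm (nat_lit 9) t284)))))))))))
noncomputable def l20478 : Lb := (@Lb.d (nat_lit 152) (nat_lit 512) (nat_lit 336) (@Lb.r r1636 (@Lb.r r613 (@Lb.r r1370 (@Lb.g g7 (@Lb.g g4 (@Lb.d (nat_lit 66) (nat_lit 0) (nat_lit 576) (@Lb.fp (nat_lit 3) t3145))))))))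
noncomputable def l20479 : Lb := (@Lb.d (nat_lit 0) (nat_lit 0) (nat_lit 130) (@Lb.g g8 (@Lb.g g10 (@Lb.g g11 (@Lb.r r419 (@Lb.r r409 (@Lb.r r2458 (@Lb.r r24 (@Lb.d (nat_lit 96) (nat_lit 0) (nat_lit 297) (@Lb.t (@Lb.fm (nat_lit 9) t2728)))))))))))
noncomputable def l20480 : Lb := (@Lb.d (nat_lit 0) (nat_lit 256) (nat_lit 130) (@Lb.g g10 (@Lb.g g11 (@Lb.r r419 (@Lb.r r409 (@Lb.r r2458 (@Lb.r r24 (@Lb.d (nat_lit 97) (nat_lit 0) (nat_lit 297) (@Lb.fm (nat_lit 3) t2728)))))))))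
noncomputable def l20481 : Lb := (@Lb.d (nat_lit 0) (nat_lit 0) (nat_lit 130) (@Lb.g g10 (@Lb.g g11 (@Lb.r r419 (@Lb.r r409 (@Lb.r r2458 (@Lb.r r24 (@Lb.d (nat_lit 106) (nat_lit 128) (nat_lit 297) (@Lb.fm (nat_lit 3) t2344)))))))))
noncomputable def l20482 : Lb := (@Lb.d (nat_lit 128) (nat_lit 256) (nat_lit 130) (@Lb.g g10 (@Lb.g g11 (@Lb.r r264 (@Lb.r r279 (@Lb.r r161 (@Lb.r r98 (@Lb.d (nat_lit 417) (nat_lit 8) (nat_lit 680) (@Lb.fm (nat_lit 3) t4114)))))))))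
noncomputable def l20483 : Lb := (@Lb.d (nat_lit 0) (nat_lit 32) (nat_lit 130) (@Lb.g g9 (@Lb.g g10 (@Lb.g g11 (@Lb.r r2387 (@Lb.r r1702 (@Lb.r r1636 (@Lb.r r1557 (@Lb.d (nat_lit 385) (nat_lit 81) (nat_lit 640) (@Lb.t (@Lb.fp (nat_lit 9) t2046)))))))))))
noncomputable def l20484 : Lb := (@Lb.d (nat_lit 2) (nat_lit 258) (nat_lit 5) (@Lb.g g8 (@Lb.g g9 (@Lb.g g10 (@Lb.g g11 (@Lb.r r611 (@Lb.r r297 (@Lb.r r680 (@Lb.r r650 (@Lb.r r2180 (@Lb.d (nat_lit 160) (nat_lit 10) (nat_lit 417) (@Lb.fp (nat_lit 9) t4115))))))))))))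
noncomputable def l20485 : Lb := (@Lb.r r1291 (@Lb.d (nat_lit 512) (nat_lit 256) (nat_lit 0) (@Lb.fp (nat_lit 1) t441)))
noncomputable def l20486 : Lb := (@Lb.d (nat_lit 0) (nat_lit 512) (nat_lit 130) (@Lb.g g10 (@Lb.g g11 (@Lb.r r419 (@Lb.r r409 (@Lb.r r2458 (@Lb.r r24 (@Lb.d (nat_lit 96) (nat_lit 0) (nat_lit 297) (@Lb.fm (nat_lit 3) t2728)))))))))
noncomputable def l20487 : Lb := (@Lb.d (nat_lit 144) (nat_lit 281) (nat_lit 4) (@Lb.g g8 (@Lb.g g9 (@Lb.g g10 (@Lb.g g11 (@Lb.r r2467 (@Lb.r r1449 (@Lb.r r1188 (@Lb.r r422 (@Lb.d (nat_lit 41) (nat_lit 101) (nat_lit 548) (@Lb.fp (nat_lit 9) t4116)))))))))))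
noncomputable def l20488 : Lb := (@Lb.r r82 (@Lb.d (nat_lit 137) (nat_lit 26) (nat_lit 128) (@Lb.g g8 (@Lb.g g9 (@Lb.g g11 (@Lb.r r2315 (@Lb.r r330 (@Lb.r r1128 (@Lb.r r1641 (@Lb.d (nat_lit 360) (nat_lit 136) (nat_lit 90) (@Lb.t (@Lb.fm (nat_lit 9) t2410))))))))))))
noncomputable def l20489 : Lb := (@Lb.d (nat_lit 1) (nat_lit 576) (nat_lit 410) (@Lb.r r1604 (@Lb.r r402 (@Lb.g g9 (@Lb.t (@Lb.fm (nat_lit 3) t4117))))))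
noncomputable def l20490 : Lb := (@Lb.d (nat_lit 266) (nat_lit 322) (nat_lit 0) (@Lb.r r21 (@Lb.r r70 (@Lb.g g8 (@Lb.d (nat_lit 518) (nat_lit 0) (nat_lit 0) (@Lb.r r74 (@Lb.r r25 (@Lb.t (@Lb.fp (nat_lit 3) t3937)))))))))
noncomputable def l20491 : Lb := (@Lb.d (nat_lit 330) (nat_lit 65) (nat_lit 320) (@Lb.r r553 (@Lb.r r676 (@Lb.r r614 (@Lb.r r1443 (@Lb.g g7 (@Lb.g g6 (@Lb.g g5 (@Lb.d (nat_lit 0) (nat_lit 26) (nat_lit 64) (@Lb.t (@Lb.fm (nat_lit 9) t639)))))))))))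
noncomputable def l20492 : Lb := (@Lb.d (nat_lit 1) (nat_lit 384) (nat_lit 640) (@Lb.r r2341 (@Lb.r r1624 (@Lb.r r2438 (@Lb.g g11 (@Lb.t (@Lb.fm (nat_lit 3) t2409)))))))
noncomputable def l20493 : Lb := (@Lb.d (nat_lit 34) (nat_lit 512) (nat_lit 64) (@Lb.g g8 (@Lb.g g11 (@Lb.r r353 (@Lb.r r2707 (@Lb.r r582 (@Lb.r r2180 (@Lb.d (nat_lit 292) (nat_lit 1) (nat_lit 409) (@Lb.fm (nat_lit 3) t351)))))))))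
noncomputable def l20494 : Lb := (@Lb.r r275 (@Lb.d (nat_lit 0) (nat_lit 512) (nat_lit 2) (@Lb.g g8 (@Lb.g g9 (@Lb.g g10 (@Lb.r r1706 (@Lb.r r1668 (@Lb.r r1543 (@Lb.r r153 (@Lb.d (nat_lit 328) (nat_lit 5) (nat_lit 256) (@Lb.t (@Lb.fm (nat_lit 9) t4118))))))))))))
noncomputable def l20495 : Lb := (@Lb.d (nat_lit 0) (nat_lit 258) (nat_lit 130) (@Lb.g g8 (@Lb.g g9 (@Lb.g g10 (@Lb.g g11 (@Lb.r r169 (@Lb.r r424 (@Lb.r r263 (@Lb.r r98 (@Lb.r r516 (@Lb.d (nat_lit 2) (nat_lit 88) (nat_lit 361) (@Lb.fp (nat_lit 9) t153))))))))))))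
noncomputable def l20496 : Lb := (@Lb.d (nat_lit 0) (nat_lit 357) (nat_lit 129) (@Lb.r r1617 (@Lb.r r354 (@Lb.g g11 (@Lb.g g5 (@Lb.g g4 (@Lb.d (nat_lit 5) (nat_lit 6) (nat_lit 0) (@Lb.t (@Lb.fm (nat_lit 9) t1078)))))))))
noncomputable def l20497 : Lb := (@Lb.r r86 (@Lb.d (nat_lit 129) (nat_lit 33) (nat_lit 64) (@Lb.g g8 (@Lb.g g9 (@Lb.g g11 (@Lb.r r2731 (@Lb.r r2626 (@Lb.r r1188 (@Lb.r r37 (@Lb.d (nat_lit 9) (nat_lit 73) (nat_lit 68) (@Lb.t (@Lb.fm (nat_lit 9) t4119))))))))))))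
noncomputable def l20498 : Lb := (@Lb.d (nat_lit 0) (nat_lit 258) (nat_lit 2) (@Lb.g g4 (@Lb.g g9 (@Lb.g g10 (@Lb.r r145 (@Lb.r r594 (@Lb.r r1169 (@Lb.d (nat_lit 0) (nat_lit 84) (nat_lit 26) (@Lb.t (@Lb.fp (nat_lit 9) t4120))))))))))
noncomputable def l20499 : Lb := (@Lb.d (nat_lit 1) (nat_lit 550) (nat_lit 64) (@Lb.g g8 (@Lb.g g9 (@Lb.g g10 (@Lb.g g11 (@Lb.r r1699 (@Lb.r r386 (@Lb.r r1561 (@Lb.r r24 (@Lb.d (nat_lit 600) (nat_lit 161) (nat_lit 105) (@Lb.fm (nat_lit 9) t4121)))))))))))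
noncomputable def l20500 : Lb := (@Lb.r r21 (@Lb.r r326 (@Lb.d (nat_lit 129) (nat_lit 512) (nat_lit 128) (@Lb.g g8 (@Lb.g g11 (@Lb.r r1323 (@Lb.r r1377 (@Lb.r r2194 (@Lb.d (nat_lit 344) (nat_lit 2) (nat_lit 530) (@Lb.fm (nat_lit 3) t1606))))))))))
noncomputable def l20501 : Lb := (@Lb.d (nat_lit 328) (nat_lit 81) (nat_lit 520) (@Lb.r r2583 (@Lb.r r1384 (@Lb.r r361 (@Lb.r r1622 (@Lb.g g7 (@Lb.d (nat_lit 64) (nat_lit 16) (nat_lit 132) (@Lb.t (@Lb.fp (nat_lit 3) t322)))))))))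
noncomputable def l20502 : Lb := (@Lb.d (nat_lit 146) (nat_lit 2) (nat_lit 64) (@Lb.g g8 (@Lb.g g9 (@Lb.g g10 (@Lb.g g11 (@Lb.r r427 (@Lb.r r1602 (@Lb.r r409 (@Lb.r r388 (@Lb.d (nat_lit 105) (nat_lit 33) (nat_lit 74) (@Lb.fp (nat_lit 9) t394)))))))))))
noncomputable def l20503 : Lb := (@Lb.d (nat_lit 0) (nat_lit 384) (nat_lit 534) (@Lb.r r1617 (@Lb.r r354 (@Lb.g g11 (@Lb.g g4 (@Lb.d (nat_lit 281) (nat_lit 0) (nat_lit 0) (@Lb.fp (nat_lit 3) t4122)))))))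
noncomputable def l20504 : Lb := (@Lb.r r21 (@Lb.d (nat_lit 146) (nat_lit 256) (nat_lit 10) (@Lb.g g8 (@Lb.g g10 (@Lb.g g11 (@Lb.r r2635 (@Lb.r r594 (@Lb.r r145 (@Lb.r r2084 (@Lb.d (nat_lit 420) (nat_lit 17) (nat_lit 98) (@Lb.t (@Lb.fp (nat_lit 9) t750))))))))))))
noncomputable def l20505 : Lb := (@Lb.r r331 (@Lb.d (nat_lit 36) (nat_lit 512) (nat_lit 2) (@Lb.g g8 (@Lb.g g9 (@Lb.g g10 (@Lb.r r2454 (@Lb.r r1371 (@Lb.r r549 (@Lb.r r2708 (@Lb.d (nat_lit 294) (nat_lit 101) (nat_lit 150) (@Lb.t (@Lb.fm (nat_lit 9) t1039))))))))))))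
noncomputable def l20506 : Lb := (@Lb.d (nat_lit 617) (nat_lit 264) (nat_lit 74) (@Lb.r r2645 (@Lb.r r2088 (@Lb.r r418 (@Lb.g g11 (@Lb.g g6 (@Lb.g g5 (@Lb.g g4 (@Lb.d (nat_lit 38) (nat_lit 18) (nat_lit 392) (@Lb.fm (nat_lit 9) t1343))))))))))
noncomputable def l20507 : Lb := (@Lb.r r323 (@Lb.d (nat_lit 160) (nat_lit 297) (nat_lit 1) (@Lb.g g8 (@Lb.g g9 (@Lb.g g10 (@Lb.r r595 (@Lb.r r2726 (@Lb.r r1624 (@Lb.r r149 (@Lb.d (nat_lit 165) (nat_lit 105) (nat_lit 354) (@Lb.t (@Lb.fp (nat_lit 9) t981))))))))))))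
noncomputable def l20508 : Lb := (@Lb.d (nat_lit 32) (nat_lit 264) (nat_lit 130) (@Lb.g g10 (@Lb.g g11 (@Lb.r r361 (@Lb.r r2711 (@Lb.r r1380 (@Lb.r r1690 (@Lb.d (nat_lit 594) (nat_lit 96) (nat_lit 646) (@Lb.fp (nat_lit 3) t45)))))))))
noncomputable def l20509 : Lb := (@Lb.d (nat_lit 168) (nat_lit 257) (nat_lit 130) (@Lb.g g9 (@Lb.g g10 (@Lb.g g11 (@Lb.r r264 (@Lb.r r2583 (@Lb.r r1381 (@Lb.r r2202 (@Lb.d (nat_lit 2) (nat_lit 128) (nat_lit 328) (@Lb.t (@Lb.fm (nat_lit 9) t45)))))))))))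
noncomputable def l20510 : Lb := (@Lb.d (nat_lit 128) (nat_lit 9) (nat_lit 72) (@Lb.g g8 (@Lb.g g9 (@Lb.g g10 (@Lb.g g11 (@Lb.r r1689 (@Lb.r r1688 (@Lb.r r395 (@Lb.r r2458 (@Lb.d (nat_lit 409) (nat_lit 66) (nat_lit 104) (@Lb.fp (nat_lit 9) t2139)))))))))))
noncomputable def l20511 : Lb := (@Lb.d (nat_lit 128) (nat_lit 8) (nat_lit 130) (@Lb.g g10 (@Lb.g g11 (@Lb.r r1109 (@Lb.r r264 (@Lb.r r1703 (@Lb.r r2658 (@Lb.d (nat_lit 258) (nat_lit 88) (nat_lit 424) (@Lb.fm (nat_lit 3) t420)))))))))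
noncomputable def l20512 : Lb := (@Lb.g g7 (@Lb.r r2311 (@Lb.r r1626 (@Lb.r r1429 (@Lb.d (nat_lit 82) (nat_lit 320) (nat_lit 265) (@Lb.t (@Lb.fm (nat_lit 3) t4123)))))))
noncomputable def l20513 : Lb := (@Lb.d (nat_lit 130) (nat_lit 0) (nat_lit 0) (@Lb.g g8 (@Lb.g g9 (@Lb.r r279 (@Lb.r r2178 (@Lb.r r2601 (@Lb.r r616 (@Lb.d (nat_lit 596) (nat_lit 26) (nat_lit 9) (@Lb.fp (nat_lit 3) t2884)))))))))
noncomputable def l20514 : Lb := (@Lb.d (nat_lit 0) (nat_lit 549) (nat_lit 25) (@Lb.g g9 (@Lb.g g6 (@Lb.r r411 (@Lb.r r617 (@Lb.r r24 (@Lb.d (nat_lit 336) (nat_lit 64) (nat_lit 0) (@Lb.fp (nat_lit 3) t4124))))))))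
noncomputable def l20515 : Lb := (@Lb.d (nat_lit 0) (nat_lit 5) (nat_lit 129) (@Lb.g g9 (@Lb.g g6 (@Lb.g g11 (@Lb.r r2659 (@Lb.r r2452 (@Lb.r r2649 (@Lb.d (nat_lit 266) (nat_lit 66) (nat_lit 16) (@Lb.t (@Lb.fm (nat_lit 9) t4125))))))))))
noncomputable def l20516 : Lb := (@Lb.d (nat_lit 8) (nat_lit 548) (nat_lit 65) (@Lb.g g9 (@Lb.g g6 (@Lb.g g11 (@Lb.r r2663 (@Lb.r r1048 (@Lb.r r21 (@Lb.d (nat_lit 146) (nat_lit 1) (nat_lit 682) (@Lb.t (@Lb.fp (nat_lit 9) t4126))))))))))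
noncomputable def l20517 : Lb := (@Lb.d (nat_lit 38) (nat_lit 292) (nat_lit 580) (@Lb.g g8 (@Lb.g g9 (@Lb.g g10 (@Lb.g g7 (@Lb.r r1442 (@Lb.r r1112 (@Lb.r r1061 (@Lb.d (nat_lit 528) (nat_lit 81) (nat_lit 600) (@Lb.fp (nat_lit 9) t4127))))))))))
noncomputable def l20518 : Lb := (@Lb.d (nat_lit 0) (nat_lit 36) (nat_lit 66) (@Lb.g g9 (@Lb.g g10 (@Lb.g g11 (@Lb.r r2723 (@Lb.r r673 (@Lb.r r1186 (@Lb.r r145 (@Lb.d (nat_lit 608) (nat_lit 148) (nat_lit 678) (@Lb.t (@Lb.fp (nat_lit 9) t4128)))))))))))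
noncomputable def l20519 : Lb := (@Lb.d (nat_lit 130) (nat_lit 512) (nat_lit 0) (@Lb.g g8 (@Lb.g g9 (@Lb.r r279 (@Lb.r r2178 (@Lb.r r2601 (@Lb.r r616 (@Lb.d (nat_lit 597) (nat_lit 26) (nat_lit 9) (@Lb.fp (nat_lit 3) t2551)))))))))
noncomputable def l20520 : Lb := (@Lb.d (nat_lit 2) (nat_lit 512) (nat_lit 64) (@Lb.g g8 (@Lb.g g11 (@Lb.r r2407 (@Lb.r r2178 (@Lb.r r2644 (@Lb.r r2201 (@Lb.d (nat_lit 260) (nat_lit 164) (nat_lit 673) (@Lb.fp (nat_lit 3) t1743)))))))))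
noncomputable def l20521 : Lb := (@Lb.d (nat_lit 0) (nat_lit 553) (nat_lit 581) (@Lb.g g9 (@Lb.g g10 (@Lb.g g7 (@Lb.r r1442 (@Lb.r r2193 (@Lb.r r24 (@Lb.d (nat_lit 608) (nat_lit 162) (nat_lit 338) (@Lb.t (@Lb.fp (nat_lit 9) t4129))))))))))
noncomputable def l20522 : Lb := (@Lb.d (nat_lit 129) (nat_lit 4) (nat_lit 64) (@Lb.g g8 (@Lb.g g9 (@Lb.g g10 (@Lb.g g11 (@Lb.r r594 (@Lb.r r1425 (@Lb.r r2727 (@Lb.r r392 (@Lb.d (nat_lit 293) (nat_lit 137) (nat_lit 665) (@Lb.fp (nat_lit 9) t4130)))))))))))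
noncomputable def l20523 : Lb := (@Lb.d (nat_lit 161) (nat_lit 4) (nat_lit 2) (@Lb.g g8 (@Lb.g g9 (@Lb.g g6 (@Lb.r r407 (@Lb.r r2665 (@Lb.r r2664 (@Lb.d (nat_lit 148) (nat_lit 90) (nat_lit 40) (@Lb.t (@Lb.fp (nat_lit 9) t924))))))))))
noncomputable def l20524 : Lb := (@Lb.d (nat_lit 2) (nat_lit 36) (nat_lit 132) (@Lb.g g8 (@Lb.g g9 (@Lb.g g10 (@Lb.g g11 (@Lb.r r2327 (@Lb.r r2405 (@Lb.r r346 (@Lb.r r1156 (@Lb.d (nat_lit 552) (nat_lit 153) (nat_lit 596) (@Lb.fm (nat_lit 9) t4131)))))))))))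
noncomputable def l20525 : Lb := (@Lb.d (nat_lit 584) (nat_lit 26) (nat_lit 37) (@Lb.r r662 (@Lb.r r2401 (@Lb.r r647 (@Lb.r r328 (@Lb.g g7 (@Lb.g g6 (@Lb.d (nat_lit 16) (nat_lit 0) (nat_lit 128) (@Lb.fm (nat_lit 3) t2996)))))))))
noncomputable def l20526 : Lb := (@Lb.r r70 (@Lb.d (nat_lit 386) (nat_lit 522) (nat_lit 0) (@Lb.g g8 (@Lb.g g9 (@Lb.r r662 (@Lb.r r2731 (@Lb.r r2601 (@Lb.d (nat_lit 325) (nat_lit 162) (nat_lit 682) (@Lb.fp (nat_lit 3) t898)))))))))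
noncomputable def l20527 : Lb := (@Lb.d (nat_lit 577) (nat_lit 0) (nat_lit 24) (@Lb.r r2194 (@Lb.r r101 (@Lb.r r519 (@Lb.r r264 (@Lb.g g7 (@Lb.g g6 (@Lb.d (nat_lit 64) (nat_lit 4) (nat_lit 65) (@Lb.fm (nat_lit 3) t152)))))))))
noncomputable def l20528 : Lb := (@Lb.d (nat_lit 9) (nat_lit 1) (nat_lit 74) (@Lb.g g8 (@Lb.g g9 (@Lb.g g10 (@Lb.g g11 (@Lb.r r2722 (@Lb.r r2439 (@Lb.r r145 (@Lb.r r1608 (@Lb.d (nat_lit 609) (nat_lit 69) (nat_lit 664) (@Lb.fp (nat_lit 9) t1082)))))))))))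
noncomputable def l20529 : Lb := (@Lb.r r82 (@Lb.d (nat_lit 134) (nat_lit 34) (nat_lit 64) (@Lb.g g8 (@Lb.g g9 (@Lb.g g11 (@Lb.r r1450 (@Lb.r r2593 (@Lb.r r2692 (@Lb.r r1447 (@Lb.d (nat_lit 520) (nat_lit 74) (nat_lit 128) (@Lb.t (@Lb.fm (nat_lit 9) t1755))))))))))))
noncomputable def l20530 : Lb := (@Lb.r r82 (@Lb.r r279 (@Lb.d (nat_lit 2) (nat_lit 130) (nat_lit 0) (@Lb.g g8 (@Lb.g g5 (@Lb.r r1563 (@Lb.r r2202 (@Lb.r r2180 (@Lb.d (nat_lit 38) (nat_lit 128) (nat_lit 34) (@Lb.fp (nat_lit 3) t1755))))))))))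
noncomputable def l20531 : Lb := (@Lb.d (nat_lit 388) (nat_lit 390) (nat_lit 424) (@Lb.r r1416 (@Lb.r r2329 (@Lb.r r2178 (@Lb.r r551 (@Lb.g g5 (@Lb.g g8 (@Lb.fm (nat_lit 3) t4132))))))))
noncomputable def l20532 : Lb := (@Lb.r r327 (@Lb.d (nat_lit 36) (nat_lit 261) (nat_lit 0) (@Lb.g g8 (@Lb.g g9 (@Lb.g g10 (@Lb.r r683 (@Lb.r r1194 (@Lb.r r2212 (@Lb.r r37 (@Lb.d (nat_lit 258) (nat_lit 138) (nat_lit 34) (@Lb.t (@Lb.fp (nat_lit 9) t1755))))))))))))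
noncomputable def l20533 : Lb := (@Lb.d (nat_lit 0) (nat_lit 512) (nat_lit 73) (@Lb.g g9 (@Lb.g g10 (@Lb.g g11 (@Lb.r r2691 (@Lb.r r2657 (@Lb.r r1686 (@Lb.r r1096 (@Lb.d (nat_lit 576) (nat_lit 160) (nat_lit 320) (@Lb.t (@Lb.fm (nat_lit 9) t807)))))))))))
noncomputable def l20534 : Lb := (@Lb.r r327 (@Lb.d (nat_lit 0) (nat_lit 514) (nat_lit 0) (@Lb.g g8 (@Lb.g g9 (@Lb.g g10 (@Lb.r r683 (@Lb.r r1194 (@Lb.r r2201 (@Lb.r r2180 (@Lb.d (nat_lit 548) (nat_lit 64) (nat_lit 34) (@Lb.t (@Lb.fm (nat_lit 9) t2228))))))))))))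
noncomputable def l20535 : Lb := (@Lb.r r327 (@Lb.d (nat_lit 0) (nat_lit 2) (nat_lit 0) (@Lb.g g8 (@Lb.g g9 (@Lb.g g10 (@Lb.r r683 (@Lb.r r1194 (@Lb.r r2201 (@Lb.r r2180 (@Lb.d (nat_lit 554) (nat_lit 65) (nat_lit 34) (@Lb.t (@Lb.fm (nat_lit 9) t3311))))))))))))
noncomputable def l20536 : Lb := (@Lb.d (nat_lit 2) (nat_lit 512) (nat_lit 128) (@Lb.g g8 (@Lb.g g9 (@Lb.g g11 (@Lb.r r406 (@Lb.r r1643 (@Lb.r r1633 (@Lb.r r24 (@Lb.d (nat_lit 74) (nat_lit 65) (nat_lit 576) (@Lb.t (@Lb.fm (nat_lit 9) t4133)))))))))))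
noncomputable def l20537 : Lb := (@Lb.d (nat_lit 2) (nat_lit 33) (nat_lit 9) (@Lb.g g8 (@Lb.g g9 (@Lb.g g10 (@Lb.g g11 (@Lb.r r2666 (@Lb.r r2664 (@Lb.r r2585 (@Lb.r r2647 (@Lb.d (nat_lit 102) (nat_lit 38) (nat_lit 356) (@Lb.fp (nat_lit 9) t2619)))))))))))
noncomputable def l20538 : Lb := (@Lb.r r275 (@Lb.d (nat_lit 8) (nat_lit 297) (nat_lit 1) (@Lb.g g9 (@Lb.g g10 (@Lb.r r358 (@Lb.r r660 (@Lb.r r407 (@Lb.r r1621 (@Lb.d (nat_lit 390) (nat_lit 104) (nat_lit 514) (@Lb.fm (nat_lit 3) t4134))))))))))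
noncomputable def l20539 : Lb := (@Lb.r r275 (@Lb.d (nat_lit 8) (nat_lit 553) (nat_lit 1) (@Lb.g g9 (@Lb.g g10 (@Lb.r r358 (@Lb.r r660 (@Lb.r r407 (@Lb.r r1621 (@Lb.d (nat_lit 390) (nat_lit 102) (nat_lit 513) (@Lb.fm (nat_lit 3) t2766))))))))))
noncomputable def l20540 : Lb := (@Lb.d (nat_lit 0) (nat_lit 9) (nat_lit 129) (@Lb.g g9 (@Lb.g g10 (@Lb.g g11 (@Lb.r r2722 (@Lb.r r2713 (@Lb.r r2587 (@Lb.r r24 (@Lb.d (nat_lit 33) (nat_lit 5) (nat_lit 330) (@Lb.t (@Lb.fp (nat_lit 9) t742)))))))))))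
noncomputable def l20541 : Lb := (@Lb.d (nat_lit 0) (nat_lit 9) (nat_lit 65) (@Lb.g g9 (@Lb.g g10 (@Lb.g g7 (@Lb.r r2466 (@Lb.r r2457 (@Lb.r r24 (@Lb.d (nat_lit 146) (nat_lit 5) (nat_lit 538) (@Lb.t (@Lb.fp (nat_lit 9) t2207))))))))))
noncomputable def l20542 : Lb := (@Lb.d (nat_lit 130) (nat_lit 26) (nat_lit 130) (@Lb.g g8 (@Lb.g g9 (@Lb.g g10 (@Lb.g g11 (@Lb.r r612 (@Lb.r r2378 (@Lb.r r2439 (@Lb.r r2145 (@Lb.r r1540 (@Lb.d (nat_lit 41) (nat_lit 72) (nat_lit 1) (@Lb.fm (nat_lit 9) t4135))))))))))))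
noncomputable def l20543 : Lb := (@Lb.d (nat_lit 1) (nat_lit 545) (nat_lit 9) (@Lb.g g8 (@Lb.g g9 (@Lb.g g10 (@Lb.g g11 (@Lb.r r2666 (@Lb.r r2664 (@Lb.r r2585 (@Lb.r r2647 (@Lb.d (nat_lit 102) (nat_lit 33) (nat_lit 358) (@Lb.fp (nat_lit 9) t2619)))))))))))
noncomputable def l20544 : Lb := (@Lb.d (nat_lit 2) (nat_lit 289) (nat_lit 9) (@Lb.g g8 (@Lb.g g9 (@Lb.g g10 (@Lb.g g11 (@Lb.r r2666 (@Lb.r r2664 (@Lb.r r2585 (@Lb.r r2647 (@Lb.d (nat_lit 102) (nat_lit 33) (nat_lit 358) (@Lb.fp (nat_lit 9) t2619)))))))))))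
noncomputable def l20545 : Lb := (@Lb.d (nat_lit 128) (nat_lit 2) (nat_lit 130) (@Lb.g g9 (@Lb.g g10 (@Lb.g g11 (@Lb.r r260 (@Lb.r r1451 (@Lb.r r386 (@Lb.r r97 (@Lb.d (nat_lit 409) (nat_lit 136) (nat_lit 100) (@Lb.t (@Lb.fm (nat_lit 9) t386)))))))))))
noncomputable def l20546 : Lb := (@Lb.d (nat_lit 9) (nat_lit 512) (nat_lit 130) (@Lb.g g8 (@Lb.g g10 (@Lb.g g11 (@Lb.r r419 (@Lb.r r1045 (@Lb.r r2468 (@Lb.r r2438 (@Lb.d (nat_lit 406) (nat_lit 74) (nat_lit 134) (@Lb.t (@Lb.fp (nat_lit 9) t1057)))))))))))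
noncomputable def l20547 : Lb := (@Lb.d (nat_lit 129) (nat_lit 514) (nat_lit 130) (@Lb.g g8 (@Lb.g g9 (@Lb.g g10 (@Lb.g g11 (@Lb.r r419 (@Lb.r r1610 (@Lb.r r1556 (@Lb.r r25 (@Lb.d (nat_lit 677) (nat_lit 26) (nat_lit 9) (@Lb.fp (nat_lit 9) t394)))))))))))
noncomputable def l20548 : Lb := (@Lb.d (nat_lit 41) (nat_lit 512) (nat_lit 136) (@Lb.g g8 (@Lb.g g11 (@Lb.r r1173 (@Lb.r r150 (@Lb.r r356 (@Lb.r r1291 (@Lb.d (nat_lit 4) (nat_lit 42) (nat_lit 342) (@Lb.fp (nat_lit 3) t748)))))))))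
noncomputable def l20549 : Lb := (@Lb.d (nat_lit 1) (nat_lit 256) (nat_lit 64) (@Lb.g g4 (@Lb.g g11 (@Lb.r r1547 (@Lb.d (nat_lit 640) (nat_lit 0) (nat_lit 320) (@Lb.fm (nat_lit 3) t469))))))
noncomputable def l20550 : Lb := (@Lb.d (nat_lit 9) (nat_lit 0) (nat_lit 130) (@Lb.g g8 (@Lb.g g10 (@Lb.g g11 (@Lb.r r419 (@Lb.r r1045 (@Lb.r r2468 (@Lb.r r2438 (@Lb.d (nat_lit 614) (nat_lit 74) (nat_lit 296) (@Lb.t (@Lb.fp (nat_lit 9) t1057)))))))))))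
noncomputable def l20551 : Lb := (@Lb.d (nat_lit 170) (nat_lit 41) (nat_lit 37) (@Lb.r r680 (@Lb.r r427 (@Lb.r r345 (@Lb.g g10 (@Lb.g g4 (@Lb.d (nat_lit 69) (nat_lit 0) (nat_lit 22) (@Lb.r r145 (@Lb.fm (nat_lit 3) t564)))))))))
noncomputable def l20552 : Lb := (@Lb.r r323 (@Lb.d (nat_lit 1) (nat_lit 322) (nat_lit 2) (@Lb.g g4 (@Lb.g g9 (@Lb.g g10 (@Lb.r r354 (@Lb.r r2439 (@Lb.d (nat_lit 682) (nat_lit 97) (nat_lit 346) (@Lb.t (@Lb.fp (nat_lit 9) t1082))))))))))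
noncomputable def l20553 : Lb := (@Lb.d (nat_lit 128) (nat_lit 16) (nat_lit 322) (@Lb.g g10 (@Lb.g g11 (@Lb.r r2709 (@Lb.r r2646 (@Lb.r r1416 (@Lb.d (nat_lit 97) (nat_lit 2) (nat_lit 658) (@Lb.fp (nat_lit 3) t2950))))))))
noncomputable def l20554 : Lb := (@Lb.r r580 (@Lb.d (nat_lit 32) (nat_lit 16) (nat_lit 521) (@Lb.g g10 (@Lb.g g11 (@Lb.r r344 (@Lb.r r1382 (@Lb.r r1057 (@Lb.d (nat_lit 598) (nat_lit 4) (nat_lit 6) (@Lb.fm (nat_lit 3) t941)))))))))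
noncomputable def l20555 : Lb := (@Lb.d (nat_lit 162) (nat_lit 0) (nat_lit 128) (@Lb.g g8 (@Lb.g g11 (@Lb.r r598 (@Lb.r r2411 (@Lb.r r1057 (@Lb.r r2580 (@Lb.d (nat_lit 132) (nat_lit 104) (nat_lit 402) (@Lb.fp (nat_lit 3) t941)))))))))
noncomputable def l20556 : Lb := (@Lb.d (nat_lit 34) (nat_lit 513) (nat_lit 64) (@Lb.g g8 (@Lb.g g9 (@Lb.g g11 (@Lb.r r1363 (@Lb.r r582 (@Lb.r r2212 (@Lb.r r2581 (@Lb.d (nat_lit 136) (nat_lit 144) (nat_lit 329) (@Lb.t (@Lb.fm (nat_lit 9) t3558)))))))))))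
noncomputable def l20557 : Lb := (@Lb.d (nat_lit 146) (nat_lit 0) (nat_lit 132) (@Lb.g g8 (@Lb.g g10 (@Lb.g g11 (@Lb.r r164 (@Lb.r r582 (@Lb.r r1603 (@Lb.r r1057 (@Lb.r r2180 (@Lb.d (nat_lit 97) (nat_lit 168) (nat_lit 329) (@Lb.t (@Lb.fm (nat_lit 9) t941))))))))))))
noncomputable def l20558 : Lb := (@Lb.d (nat_lit 2) (nat_lit 2) (nat_lit 66) (@Lb.g g8 (@Lb.g g9 (@Lb.g g10 (@Lb.g g11 (@Lb.r r599 (@Lb.r r386 (@Lb.r r97 (@Lb.r r24 (@Lb.d (nat_lit 264) (nat_lit 9) (nat_lit 649) (@Lb.fp (nat_lit 9) t221)))))))))))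
noncomputable def l20559 : Lb := (@Lb.r r263 (@Lb.d (nat_lit 2) (nat_lit 2) (nat_lit 2) (@Lb.g g8 (@Lb.g g9 (@Lb.g g10 (@Lb.r r2454 (@Lb.r r1367 (@Lb.r r409 (@Lb.r r388 (@Lb.d (nat_lit 105) (nat_lit 6) (nat_lit 545) (@Lb.t (@Lb.fp (nat_lit 9) t898))))))))))))
noncomputable def l20560 : Lb := (@Lb.d (nat_lit 40) (nat_lit 266) (nat_lit 0) (@Lb.g g8 (@Lb.g g9 (@Lb.r r2379 (@Lb.r r582 (@Lb.r r1432 (@Lb.r r1045 (@Lb.d (nat_lit 516) (nat_lit 25) (nat_lit 682) (@Lb.fp (nat_lit 3) t386)))))))))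
noncomputable def l20561 : Lb := (@Lb.d (nat_lit 9) (nat_lit 1) (nat_lit 4) (@Lb.g g8 (@Lb.g g9 (@Lb.g g10 (@Lb.g g11 (@Lb.r r2691 (@Lb.r r2409 (@Lb.r r146 (@Lb.r r2436 (@Lb.d (nat_lit 609) (nat_lit 90) (nat_lit 681) (@Lb.fm (nat_lit 9) t311)))))))))))
noncomputable def l20562 : Lb := (@Lb.d (nat_lit 576) (nat_lit 416) (nat_lit 586) (@Lb.r r1305 (@Lb.r r1428 (@Lb.r r2390 (@Lb.r r611 (@Lb.g g7 (@Lb.g g6 (@Lb.g g5 (@Lb.d (nat_lit 0) (nat_lit 4) (nat_lit 134) (@Lb.t (@Lb.fm (nat_lit 9) t795)))))))))))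
noncomputable def l20563 : Lb := (@Lb.r r1284 (@Lb.d (nat_lit 0) (nat_lit 514) (nat_lit 130) (@Lb.g g9 (@Lb.g g10 (@Lb.g g11 (@Lb.r r677 (@Lb.r r423 (@Lb.r r2438 (@Lb.d (nat_lit 74) (nat_lit 74) (nat_lit 658) (@Lb.t (@Lb.fm (nat_lit 9) t2605)))))))))))
noncomputable def l20564 : Lb := (@Lb.d (nat_lit 522) (nat_lit 294) (nat_lit 513) (@Lb.r r2452 (@Lb.r r89 (@Lb.r r1611 (@Lb.r r358 (@Lb.g g7 (@Lb.g g6 (@Lb.g g4 (@Lb.d (nat_lit 6) (nat_lit 0) (nat_lit 65) (@Lb.t (@Lb.fm (nat_lit 9) t1347)))))))))))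
noncomputable def l20565 : Lb := (@Lb.r r1045 (@Lb.d (nat_lit 36) (nat_lit 8) (nat_lit 145) (@Lb.g g4 (@Lb.g g10 (@Lb.g g11 (@Lb.r r387 (@Lb.d (nat_lit 1) (nat_lit 0) (nat_lit 168) (@Lb.t (@Lb.fp (nat_lit 9) t4136)))))))))
noncomputable def l20566 : Lb := (@Lb.r r275 (@Lb.d (nat_lit 6) (nat_lit 520) (nat_lit 2) (@Lb.g g8 (@Lb.g g9 (@Lb.g g10 (@Lb.r r1411 (@Lb.r r2145 (@Lb.r r2200 (@Lb.d (nat_lit 282) (nat_lit 10) (nat_lit 17) (@Lb.t (@Lb.fm (nat_lit 9) t4137)))))))))))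
noncomputable def l20567 : Lb := (@Lb.r r275 (@Lb.d (nat_lit 0) (nat_lit 266) (nat_lit 0) (@Lb.g g5 (@Lb.r r2643 (@Lb.r r106 (@Lb.r r1129 (@Lb.d (nat_lit 554) (nat_lit 69) (nat_lit 70) (@Lb.t (@Lb.fm (nat_lit 3) t745)))))))))
noncomputable def l20568 : Lb := (@Lb.d (nat_lit 153) (nat_lit 513) (nat_lit 128) (@Lb.g g8 (@Lb.g g9 (@Lb.g g10 (@Lb.g g11 (@Lb.r r603 (@Lb.r r1681 (@Lb.r r1364 (@Lb.r r2202 (@Lb.d (nat_lit 169) (nat_lit 161) (nat_lit 342) (@Lb.fp (nat_lit 9) t2593)))))))))))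
noncomputable def l20569 : Lb := (@Lb.r r21 (@Lb.r r70 (@Lb.r r263 (@Lb.g g8 (@Lb.r r267 (@Lb.r r74 (@Lb.r r25 (@Lb.d (nat_lit 281) (nat_lit 384) (nat_lit 16) (@Lb.t (@Lb.fp (nat_lit 3) t4138))))))))))
noncomputable def l20570 : Lb := (@Lb.d (nat_lit 26) (nat_lit 513) (nat_lit 128) (@Lb.g g8 (@Lb.g g9 (@Lb.g g10 (@Lb.g g11 (@Lb.r r427 (@Lb.r r324 (@Lb.r r170 (@Lb.r r169 (@Lb.r r164 (@Lb.d (nat_lit 97) (nat_lit 9) (nat_lit 146) (@Lb.fp (nat_lit 9) t721))))))))))))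
noncomputable def l20571 : Lb := (@Lb.r r21 (@Lb.r r70 (@Lb.r r263 (@Lb.g g8 (@Lb.r r267 (@Lb.r r74 (@Lb.r r25 (@Lb.d (nat_lit 282) (nat_lit 128) (nat_lit 16) (@Lb.t (@Lb.fp (nat_lit 3) t4139))))))))))
noncomputable def l20572 : Lb := (@Lb.r r21 (@Lb.r r263 (@Lb.d (nat_lit 8) (nat_lit 256) (nat_lit 26) (@Lb.g g8 (@Lb.g g10 (@Lb.r r2449 (@Lb.r r2727 (@Lb.r r2456 (@Lb.d (nat_lit 660) (nat_lit 90) (nat_lit 546) (@Lb.fm (nat_lit 3) t4140))))))))))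
noncomputable def l20573 : Lb := (@Lb.d (nat_lit 0) (nat_lit 8) (nat_lit 66) (@Lb.g g9 (@Lb.g g10 (@Lb.g g7 (@Lb.r r2438 (@Lb.r r105 (@Lb.d (nat_lit 90) (nat_lit 10) (nat_lit 537) (@Lb.t (@Lb.fp (nat_lit 9) t4141)))))))))
noncomputable def l20574 : Lb := (@Lb.r r323 (@Lb.d (nat_lit 130) (nat_lit 546) (nat_lit 0) (@Lb.g g8 (@Lb.g g9 (@Lb.g g10 (@Lb.r r599 (@Lb.r r98 (@Lb.r r408 (@Lb.r r101 (@Lb.d (nat_lit 516) (nat_lit 40) (nat_lit 161) (@Lb.t (@Lb.fp (nat_lit 9) t221))))))))))))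
noncomputable def l20575 : Lb := (@Lb.r r323 (@Lb.d (nat_lit 40) (nat_lit 21) (nat_lit 0) (@Lb.g g5 (@Lb.g g10 (@Lb.r r1687 (@Lb.r r2376 (@Lb.r r1638 (@Lb.d (nat_lit 25) (nat_lit 133) (nat_lit 658) (@Lb.fp (nat_lit 3) t629)))))))))
noncomputable def l20576 : Lb := (@Lb.d (nat_lit 146) (nat_lit 514) (nat_lit 128) (@Lb.g g8 (@Lb.g g9 (@Lb.g g10 (@Lb.g g11 (@Lb.r r683 (@Lb.r r1610 (@Lb.r r145 (@Lb.r r612 (@Lb.d (nat_lit 154) (nat_lit 84) (nat_lit 137) (@Lb.fm (nat_lit 9) t925)))))))))))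
noncomputable def l20577 : Lb := (@Lb.d (nat_lit 146) (nat_lit 514) (nat_lit 128) (@Lb.g g8 (@Lb.g g9 (@Lb.g g10 (@Lb.g g11 (@Lb.r r1675 (@Lb.r r36 (@Lb.r r1381 (@Lb.r r2202 (@Lb.r r1156 (@Lb.d (nat_lit 386) (nat_lit 130) (nat_lit 618) (@Lb.fm (nat_lit 9) t594))))))))))))
noncomputable def l20578 : Lb := (@Lb.r r21 (@Lb.d (nat_lit 2) (nat_lit 0) (nat_lit 137) (@Lb.g g8 (@Lb.g g10 (@Lb.g g11 (@Lb.r r1691 (@Lb.r r1684 (@Lb.r r150 (@Lb.r r97 (@Lb.d (nat_lit 4) (nat_lit 129) (nat_lit 682) (@Lb.t (@Lb.fp (nat_lit 9) t51))))))))))))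
noncomputable def l20579 : Lb := (@Lb.r r21 (@Lb.r r323 (@Lb.d (nat_lit 130) (nat_lit 516) (nat_lit 10) (@Lb.g g8 (@Lb.g g6 (@Lb.r r2439 (@Lb.r r97 (@Lb.r r1636 (@Lb.d (nat_lit 408) (nat_lit 89) (nat_lit 680) (@Lb.fm (nat_lit 3) t51))))))))))
noncomputable def l20580 : Lb := (@Lb.r r21 (@Lb.r r323 (@Lb.d (nat_lit 129) (nat_lit 4) (nat_lit 10) (@Lb.g g8 (@Lb.g g6 (@Lb.r r2439 (@Lb.r r97 (@Lb.r r1636 (@Lb.d (nat_lit 408) (nat_lit 89) (nat_lit 680) (@Lb.fm (nat_lit 3) t51))))))))))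
noncomputable def l20581 : Lb := (@Lb.d (nat_lit 2) (nat_lit 294) (nat_lit 128) (@Lb.g g8 (@Lb.g g9 (@Lb.g g10 (@Lb.g g11 (@Lb.r r1706 (@Lb.r r1704 (@Lb.r r1579 (@Lb.r r1561 (@Lb.d (nat_lit 581) (nat_lit 32) (nat_lit 586) (@Lb.fm (nat_lit 9) t125)))))))))))
noncomputable def l20582 : Lb := (@Lb.d (nat_lit 6) (nat_lit 641) (nat_lit 576) (@Lb.r r1313 (@Lb.r r2327 (@Lb.r r584 (@Lb.r r326 (@Lb.g g7 (@Lb.g g6 (@Lb.g g5 (@Lb.d (nat_lit 0) (nat_lit 1) (nat_lit 65) (@Lb.t (@Lb.fp (nat_lit 9) t125)))))))))))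
noncomputable def l20583 : Lb := (@Lb.r r323 (@Lb.d (nat_lit 129) (nat_lit 258) (nat_lit 2) (@Lb.g g8 (@Lb.g g9 (@Lb.g g10 (@Lb.r r343 (@Lb.r r162 (@Lb.r r145 (@Lb.r r612 (@Lb.d (nat_lit 149) (nat_lit 21) (nat_lit 137) (@Lb.t (@Lb.fp (nat_lit 9) t51))))))))))))
noncomputable def l20584 : Lb := (@Lb.d (nat_lit 0) (nat_lit 2) (nat_lit 2) (@Lb.g g4 (@Lb.g g9 (@Lb.g g10 (@Lb.r r1158 (@Lb.r r97 (@Lb.d (nat_lit 276) (nat_lit 10) (nat_lit 16) (@Lb.t (@Lb.fp (nat_lit 9) t3052)))))))))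
noncomputable def l20585 : Lb := (@Lb.r r323 (@Lb.d (nat_lit 129) (nat_lit 2) (nat_lit 2) (@Lb.g g8 (@Lb.g g9 (@Lb.g g10 (@Lb.r r343 (@Lb.r r162 (@Lb.r r145 (@Lb.r r612 (@Lb.d (nat_lit 152) (nat_lit 17) (nat_lit 136) (@Lb.t (@Lb.fp (nat_lit 9) t51))))))))))))
noncomputable def l20586 : Lb := (@Lb.d (nat_lit 21) (nat_lit 537) (nat_lit 69) (@Lb.r r596 (@Lb.r r89 (@Lb.r r354 (@Lb.g g11 (@Lb.g g5 (@Lb.g g4 (@Lb.d (nat_lit 74) (nat_lit 21) (nat_lit 4) (@Lb.r r106 (@Lb.t (@Lb.fm (nat_lit 9) t264)))))))))))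
noncomputable def l20587 : Lb := (@Lb.d (nat_lit 0) (nat_lit 37) (nat_lit 10) (@Lb.g g9 (@Lb.g g10 (@Lb.g g11 (@Lb.r r675 (@Lb.r r578 (@Lb.r r609 (@Lb.r r24 (@Lb.d (nat_lit 10) (nat_lit 136) (nat_lit 133) (@Lb.t (@Lb.fp (nat_lit 9) t1436)))))))))))
noncomputable def l20588 : Lb := (@Lb.d (nat_lit 0) (nat_lit 512) (nat_lit 2) (@Lb.g g4 (@Lb.g g10 (@Lb.g g7 (@Lb.r r1158 (@Lb.d (nat_lit 274) (nat_lit 0) (nat_lit 85) (@Lb.t (@Lb.fp (nat_lit 9) t282))))))))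
noncomputable def l20589 : Lb := (@Lb.d (nat_lit 1) (nat_lit 6) (nat_lit 74) (@Lb.g g8 (@Lb.g g9 (@Lb.g g10 (@Lb.g g11 (@Lb.r r675 (@Lb.r r578 (@Lb.r r2089 (@Lb.r r36 (@Lb.d (nat_lit 345) (nat_lit 2) (nat_lit 408) (@Lb.fp (nat_lit 9) t1033)))))))))))
noncomputable def l20590 : Lb := (@Lb.d (nat_lit 168) (nat_lit 512) (nat_lit 64) (@Lb.g g9 (@Lb.g g10 (@Lb.g g11 (@Lb.r r1092 (@Lb.r r2138 (@Lb.r r2465 (@Lb.r r1555 (@Lb.d (nat_lit 64) (nat_lit 161) (nat_lit 132) (@Lb.t (@Lb.fm (nat_lit 9) t2)))))))))))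
noncomputable def l20591 : Lb := (@Lb.d (nat_lit 0) (nat_lit 37) (nat_lit 657) (@Lb.r r593 (@Lb.r r1378 (@Lb.g g11 (@Lb.g g5 (@Lb.g g4 (@Lb.d (nat_lit 1) (nat_lit 4) (nat_lit 0) (@Lb.t (@Lb.fm (nat_lit 9) t246)))))))))
noncomputable def l20592 : Lb := (@Lb.d (nat_lit 129) (nat_lit 8) (nat_lit 0) (@Lb.g g8 (@Lb.g g10 (@Lb.r r279 (@Lb.r r2601 (@Lb.r r1704 (@Lb.r r2186 (@Lb.d (nat_lit 16) (nat_lit 90) (nat_lit 392) (@Lb.fp (nat_lit 3) t2)))))))))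
noncomputable def l20593 : Lb := (@Lb.d (nat_lit 0) (nat_lit 0) (nat_lit 137) (@Lb.g g10 (@Lb.g g11 (@Lb.r r1610 (@Lb.d (nat_lit 418) (nat_lit 0) (nat_lit 344) (@Lb.fm (nat_lit 3) t49))))))
noncomputable def l20594 : Lb := (@Lb.r r82 (@Lb.d (nat_lit 128) (nat_lit 33) (nat_lit 64) (@Lb.g g8 (@Lb.g g9 (@Lb.g g11 (@Lb.r r555 (@Lb.r r1686 (@Lb.r r2329 (@Lb.r r516 (@Lb.d (nat_lit 265) (nat_lit 6) (nat_lit 21) (@Lb.t (@Lb.fm (nat_lit 9) t4142))))))))))))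
noncomputable def l20595 : Lb := (@Lb.g g7 (@Lb.r r1114 (@Lb.r r289 (@Lb.r r407 (@Lb.r r1096 (@Lb.d (nat_lit 608) (nat_lit 512) (nat_lit 594) (@Lb.t (@Lb.fm (nat_lit 3) t807))))))))
noncomputable def l20596 : Lb := (@Lb.d (nat_lit 100) (nat_lit 292) (nat_lit 4) (@Lb.g g8 (@Lb.g g9 (@Lb.g g10 (@Lb.g g11 (@Lb.r r2391 (@Lb.r r2390 (@Lb.r r341 (@Lb.r r276 (@Lb.d (nat_lit 677) (nat_lit 42) (nat_lit 533) (@Lb.fp (nat_lit 9) t4143)))))))))))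
noncomputable def l20597 : Lb := (@Lb.g g7 (@Lb.r r1114 (@Lb.r r289 (@Lb.r r407 (@Lb.r r1096 (@Lb.d (nat_lit 613) (nat_lit 257) (nat_lit 594) (@Lb.t (@Lb.fm (nat_lit 3) t807))))))))
noncomputable def l20598 : Lb := (@Lb.d (nat_lit 517) (nat_lit 166) (nat_lit 328) (@Lb.r r1321 (@Lb.r r1444 (@Lb.r r2374 (@Lb.r r611 (@Lb.g g7 (@Lb.g g6 (@Lb.g g5 (@Lb.d (nat_lit 4) (nat_lit 8) (nat_lit 5) (@Lb.t (@Lb.fp (nat_lit 9) t4144)))))))))))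
noncomputable def l20599 : Lb := (@Lb.d (nat_lit 261) (nat_lit 385) (nat_lit 128) (@Lb.r r2085 (@Lb.r r1112 (@Lb.r r422 (@Lb.g g11 (@Lb.g g5 (@Lb.d (nat_lit 0) (nat_lit 17) (nat_lit 264) (@Lb.r r578 (@Lb.fm (nat_lit 3) t1895)))))))))
noncomputable def l20600 : Lb := (@Lb.r r81 (@Lb.r r323 (@Lb.d (nat_lit 9) (nat_lit 256) (nat_lit 24) (@Lb.g g8 (@Lb.g g10 (@Lb.r r1619 (@Lb.r r101 (@Lb.r r152 (@Lb.d (nat_lit 152) (nat_lit 85) (nat_lit 592) (@Lb.fp (nat_lit 3) t3890))))))))))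
noncomputable def l20601 : Lb := (@Lb.d (nat_lit 425) (nat_lit 520) (nat_lit 418) (@Lb.r r1109 (@Lb.r r2088 (@Lb.r r418 (@Lb.g g11 (@Lb.g g6 (@Lb.g g5 (@Lb.d (nat_lit 0) (nat_lit 25) (nat_lit 394) (@Lb.t (@Lb.fm (nat_lit 9) t4145))))))))))
noncomputable def l20602 : Lb := (@Lb.d (nat_lit 521) (nat_lit 17) (nat_lit 0) (@Lb.r r297 (@Lb.r r420 (@Lb.r r422 (@Lb.g g11 (@Lb.g g5 (@Lb.d (nat_lit 0) (nat_lit 0) (nat_lit 392) (@Lb.r r98 (@Lb.fp (nat_lit 3) t2153)))))))))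
noncomputable def l20603 : Lb := (@Lb.r r82 (@Lb.d (nat_lit 0) (nat_lit 290) (nat_lit 128) (@Lb.g g4 (@Lb.g g9 (@Lb.g g11 (@Lb.r r2343 (@Lb.r r2650 (@Lb.r r1317 (@Lb.d (nat_lit 329) (nat_lit 144) (nat_lit 128) (@Lb.t (@Lb.fm (nat_lit 9) t2666)))))))))))
noncomputable def l20604 : Lb := (@Lb.d (nat_lit 9) (nat_lit 40) (nat_lit 128) (@Lb.g g8 (@Lb.g g10 (@Lb.g g11 (@Lb.r r81 (@Lb.r r2214 (@Lb.r r1352 (@Lb.r r2567 (@Lb.d (nat_lit 641) (nat_lit 80) (nat_lit 537) (@Lb.t (@Lb.fp (nat_lit 9) t2)))))))))))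
noncomputable def l20605 : Lb := (@Lb.d (nat_lit 10) (nat_lit 258) (nat_lit 64) (@Lb.r r20 (@Lb.r r2073 (@Lb.r r24 (@Lb.g g9 (@Lb.g g8 (@Lb.fp (nat_lit 3) t2)))))))
noncomputable def l20606 : Lb := (@Lb.d (nat_lit 9) (nat_lit 513) (nat_lit 136) (@Lb.g g8 (@Lb.g g9 (@Lb.g g11 (@Lb.r r1410 (@Lb.r r579 (@Lb.r r104 (@Lb.r r25 (@Lb.d (nat_lit 517) (nat_lit 8) (nat_lit 0) (@Lb.t (@Lb.fp (nat_lit 9) t40)))))))))))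
noncomputable def l20607 : Lb := (@Lb.d (nat_lit 21) (nat_lit 5) (nat_lit 1) (@Lb.r r105 (@Lb.r r323 (@Lb.g g10 (@Lb.g g5 (@Lb.g g4 (@Lb.d (nat_lit 0) (nat_lit 2) (nat_lit 2) (@Lb.r r387 (@Lb.t (@Lb.fp (nat_lit 9) t51))))))))))
noncomputable def l20608 : Lb := (@Lb.d (nat_lit 9) (nat_lit 512) (nat_lit 130) (@Lb.g g8 (@Lb.g g10 (@Lb.g g11 (@Lb.r r2138 (@Lb.r r1685 (@Lb.r r2455 (@Lb.r r1608 (@Lb.d (nat_lit 662) (nat_lit 1) (nat_lit 393) (@Lb.t (@Lb.fp (nat_lit 9) t282)))))))))))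
noncomputable def l20609 : Lb := (@Lb.d (nat_lit 105) (nat_lit 361) (nat_lit 394) (@Lb.r r1642 (@Lb.r r619 (@Lb.r r1625 (@Lb.r r344 (@Lb.g g7 (@Lb.g g6 (@Lb.d (nat_lit 16) (nat_lit 0) (nat_lit 129) (@Lb.fm (nat_lit 3) t3847)))))))))
noncomputable def l20610 : Lb := (@Lb.r r323 (@Lb.d (nat_lit 2) (nat_lit 290) (nat_lit 2) (@Lb.g g8 (@Lb.g g9 (@Lb.g g10 (@Lb.r r2387 (@Lb.r r2410 (@Lb.r r1640 (@Lb.r r1561 (@Lb.d (nat_lit 9) (nat_lit 81) (nat_lit 128) (@Lb.t (@Lb.fp (nat_lit 9) t3756))))))))))))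
noncomputable def l20611 : Lb := (@Lb.r r323 (@Lb.d (nat_lit 2) (nat_lit 34) (nat_lit 2) (@Lb.g g8 (@Lb.g g9 (@Lb.g g10 (@Lb.r r2387 (@Lb.r r2410 (@Lb.r r1640 (@Lb.r r1561 (@Lb.d (nat_lit 10) (nat_lit 81) (nat_lit 128) (@Lb.t (@Lb.fp (nat_lit 9) t3756))))))))))))
noncomputable def l20612 : Lb := (@Lb.d (nat_lit 2) (nat_lit 40) (nat_lit 582) (@Lb.g g8 (@Lb.g g9 (@Lb.g g10 (@Lb.g g7 (@Lb.r r418 (@Lb.r r2088 (@Lb.r r2201 (@Lb.d (nat_lit 597) (nat_lit 4) (nat_lit 593) (@Lb.fm (nat_lit 9) t4146))))))))))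
noncomputable def l20613 : Lb := (@Lb.d (nat_lit 389) (nat_lit 326) (nat_lit 26) (@Lb.r r2325 (@Lb.r r598 (@Lb.r r683 (@Lb.g g7 (@Lb.g g6 (@Lb.g g5 (@Lb.g g4 (@Lb.d (nat_lit 8) (nat_lit 17) (nat_lit 65) (@Lb.fm (nat_lit 9) t309))))))))))
noncomputable def l20614 : Lb := (@Lb.d (nat_lit 2) (nat_lit 361) (nat_lit 356) (@Lb.r r146 (@Lb.r r2385 (@Lb.g g7 (@Lb.g g6 (@Lb.g g8 (@Lb.d (nat_lit 0) (nat_lit 0) (nat_lit 65) (@Lb.t (@Lb.fp (nat_lit 9) t455)))))))))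
noncomputable def l20615 : Lb := (@Lb.r r81 (@Lb.d (nat_lit 9) (nat_lit 544) (nat_lit 74) (@Lb.g g8 (@Lb.g g10 (@Lb.g g11 (@Lb.r r353 (@Lb.r r535 (@Lb.r r420 (@Lb.d (nat_lit 88) (nat_lit 36) (nat_lit 152) (@Lb.t (@Lb.fm (nat_lit 9) t573)))))))))))
noncomputable def l20616 : Lb := (@Lb.d (nat_lit 2) (nat_lit 550) (nat_lit 64) (@Lb.g g8 (@Lb.g g9 (@Lb.g g10 (@Lb.g g11 (@Lb.r r1699 (@Lb.r r1192 (@Lb.r r1642 (@Lb.r r1633 (@Lb.d (nat_lit 594) (nat_lit 154) (nat_lit 358) (@Lb.fm (nat_lit 9) t509)))))))))))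
noncomputable def l20617 : Lb := (@Lb.d (nat_lit 293) (nat_lit 618) (nat_lit 614) (@Lb.r r2133 (@Lb.r r323 (@Lb.r r682 (@Lb.g g7 (@Lb.g g6 (@Lb.g g5 (@Lb.g g4 (@Lb.d (nat_lit 8) (nat_lit 16) (nat_lit 65) (@Lb.fm (nat_lit 9) t309))))))))))
noncomputable def l20618 : Lb := (@Lb.d (nat_lit 129) (nat_lit 546) (nat_lit 0) (@Lb.g g8 (@Lb.g g9 (@Lb.r r2707 (@Lb.r r2178 (@Lb.r r341 (@Lb.r r104 (@Lb.d (nat_lit 676) (nat_lit 5) (nat_lit 417) (@Lb.fp (nat_lit 3) t88)))))))))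
noncomputable def l20619 : Lb := (@Lb.r r323 (@Lb.d (nat_lit 129) (nat_lit 546) (nat_lit 18) (@Lb.g g8 (@Lb.g g9 (@Lb.g g10 (@Lb.r r595 (@Lb.r r341 (@Lb.r r1192 (@Lb.d (nat_lit 133) (nat_lit 129) (nat_lit 646) (@Lb.t (@Lb.fm (nat_lit 9) t88)))))))))))
noncomputable def l20620 : Lb := (@Lb.d (nat_lit 657) (nat_lit 356) (nat_lit 534) (@Lb.r r2632 (@Lb.r r2450 (@Lb.g g11 (@Lb.g g6 (@Lb.g g9 (@Lb.g g4 (@Lb.d (nat_lit 97) (nat_lit 0) (nat_lit 512) (@Lb.fp (nat_lit 9) t2062)))))))))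
noncomputable def l20621 : Lb := (@Lb.d (nat_lit 613) (nat_lit 154) (nat_lit 294) (@Lb.r r1641 (@Lb.r r342 (@Lb.g g11 (@Lb.g g9 (@Lb.d (nat_lit 0) (nat_lit 5) (nat_lit 0) (@Lb.fp (nat_lit 3) t402)))))))
noncomputable def l20622 : Lb := (@Lb.r r323 (@Lb.d (nat_lit 1) (nat_lit 514) (nat_lit 2) (@Lb.g g8 (@Lb.g g9 (@Lb.g g10 (@Lb.r r401 (@Lb.r r299 (@Lb.r r392 (@Lb.r r74 (@Lb.d (nat_lit 533) (nat_lit 1) (nat_lit 168) (@Lb.t (@Lb.fp (nat_lit 9) t221))))))))))))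
noncomputable def l20623 : Lb := (@Lb.d (nat_lit 2) (nat_lit 260) (nat_lit 128) (@Lb.g g8 (@Lb.g g9 (@Lb.g g10 (@Lb.g g11 (@Lb.r r2729 (@Lb.r r1572 (@Lb.r r1671 (@Lb.r r578 (@Lb.d (nat_lit 512) (nat_lit 10) (nat_lit 168) (@Lb.fp (nat_lit 9) t400)))))))))))
noncomputable def l20624 : Lb := (@Lb.d (nat_lit 4) (nat_lit 513) (nat_lit 73) (@Lb.g g9 (@Lb.g g10 (@Lb.g g11 (@Lb.r r2150 (@Lb.r r660 (@Lb.r r2727 (@Lb.r r2705 (@Lb.d (nat_lit 10) (nat_lit 6) (nat_lit 661) (@Lb.t (@Lb.fp (nat_lit 9) t71)))))))))))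
noncomputable def l20625 : Lb := (@Lb.d (nat_lit 4) (nat_lit 257) (nat_lit 130) (@Lb.g g9 (@Lb.g g10 (@Lb.g g11 (@Lb.r r2150 (@Lb.r r660 (@Lb.r r2727 (@Lb.r r2705 (@Lb.d (nat_lit 10) (nat_lit 6) (nat_lit 661) (@Lb.t (@Lb.fp (nat_lit 9) t71)))))))))))
noncomputable def l20626 : Lb := (@Lb.d (nat_lit 10) (nat_lit 514) (nat_lit 32) (@Lb.r r20 (@Lb.r r2073 (@Lb.r r24 (@Lb.r r579 (@Lb.g g9 (@Lb.g g8 (@Lb.fm (nat_lit 3) t2))))))))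
noncomputable def l20627 : Lb := (@Lb.g g7 (@Lb.r r593 (@Lb.r r1303 (@Lb.r r1414 (@Lb.r r2600 (@Lb.r r153 (@Lb.d (nat_lit 1) (nat_lit 536) (nat_lit 297) (@Lb.t (@Lb.fm (nat_lit 3) t591)))))))))
noncomputable def l20628 : Lb := (@Lb.d (nat_lit 129) (nat_lit 0) (nat_lit 2) (@Lb.g g8 (@Lb.g g10 (@Lb.r r2691 (@Lb.r r2186 (@Lb.r r2145 (@Lb.r r392 (@Lb.d (nat_lit 592) (nat_lit 0) (nat_lit 618) (@Lb.fm (nat_lit 3) t242)))))))))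
noncomputable def l20629 : Lb := (@Lb.r r82 (@Lb.d (nat_lit 34) (nat_lit 272) (nat_lit 0) (@Lb.g g8 (@Lb.g g9 (@Lb.g g11 (@Lb.r r1430 (@Lb.r r359 (@Lb.r r2152 (@Lb.r r425 (@Lb.d (nat_lit 150) (nat_lit 105) (nat_lit 346) (@Lb.t (@Lb.fp (nat_lit 9) t4147))))))))))))
noncomputable def l20630 : Lb := (@Lb.d (nat_lit 1) (nat_lit 9) (nat_lit 34) (@Lb.r r154 (@Lb.r r660 (@Lb.r r407 (@Lb.g g9 (@Lb.d (nat_lit 0) (nat_lit 105) (nat_lit 0) (@Lb.t (@Lb.fm (nat_lit 3) t1518))))))))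
noncomputable def l20631 : Lb := (@Lb.d (nat_lit 128) (nat_lit 520) (nat_lit 578) (@Lb.g g9 (@Lb.g g10 (@Lb.g g7 (@Lb.r r2438 (@Lb.r r105 (@Lb.r r8 (@Lb.d (nat_lit 645) (nat_lit 10) (nat_lit 521) (@Lb.t (@Lb.fm (nat_lit 9) t1423))))))))))
noncomputable def l20632 : Lb := (@Lb.d (nat_lit 128) (nat_lit 265) (nat_lit 0) (@Lb.g g8 (@Lb.g g9 (@Lb.r r263 (@Lb.r r146 (@Lb.r r97 (@Lb.r r548 (@Lb.d (nat_lit 138) (nat_lit 146) (nat_lit 4) (@Lb.fm (nat_lit 3) t45)))))))))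
noncomputable def l20633 : Lb := (@Lb.r r273 (@Lb.r r322 (@Lb.d (nat_lit 130) (nat_lit 528) (nat_lit 520) (@Lb.g g8 (@Lb.g g7 (@Lb.r r361 (@Lb.r r146 (@Lb.r r264 (@Lb.d (nat_lit 168) (nat_lit 68) (nat_lit 517) (@Lb.fm (nat_lit 3) t3303))))))))))
noncomputable def l20634 : Lb := (@Lb.d (nat_lit 0) (nat_lit 581) (nat_lit 89) (@Lb.r r101 (@Lb.r r323 (@Lb.g g7 (@Lb.g g6 (@Lb.g g8 (@Lb.d (nat_lit 9) (nat_lit 0) (nat_lit 64) (@Lb.t (@Lb.fp (nat_lit 9) t4148)))))))))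
noncomputable def l20635 : Lb := (@Lb.d (nat_lit 38) (nat_lit 512) (nat_lit 130) (@Lb.g g8 (@Lb.g g9 (@Lb.g g10 (@Lb.g g11 (@Lb.r r1366 (@Lb.r r2711 (@Lb.r r1553 (@Lb.r r612 (@Lb.d (nat_lit 522) (nat_lit 26) (nat_lit 401) (@Lb.fm (nat_lit 9) t1038)))))))))))
noncomputable def l20636 : Lb := (@Lb.d (nat_lit 4) (nat_lit 37) (nat_lit 128) (@Lb.g g8 (@Lb.g g9 (@Lb.g g10 (@Lb.g g11 (@Lb.r r682 (@Lb.r r387 (@Lb.r r1177 (@Lb.d (nat_lit 530) (nat_lit 150) (nat_lit 409) (@Lb.fm (nat_lit 9) t4149))))))))))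
noncomputable def l20637 : Lb := (@Lb.r r323 (@Lb.d (nat_lit 2) (nat_lit 514) (nat_lit 2) (@Lb.g g8 (@Lb.g g9 (@Lb.g g10 (@Lb.r r553 (@Lb.r r299 (@Lb.r r420 (@Lb.r r102 (@Lb.d (nat_lit 37) (nat_lit 133) (nat_lit 104) (@Lb.t (@Lb.fp (nat_lit 9) t126))))))))))))
noncomputable def l20638 : Lb := (@Lb.r r21 (@Lb.d (nat_lit 154) (nat_lit 256) (nat_lit 0) (@Lb.g g8 (@Lb.g g10 (@Lb.r r295 (@Lb.r r1617 (@Lb.r r678 (@Lb.r r2648 (@Lb.d (nat_lit 617) (nat_lit 168) (nat_lit 358) (@Lb.fm (nat_lit 3) t4150))))))))))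
noncomputable def l20639 : Lb := (@Lb.d (nat_lit 0) (nat_lit 545) (nat_lit 66) (@Lb.g g8 (@Lb.g g9 (@Lb.g g10 (@Lb.g g11 (@Lb.r r2666 (@Lb.r r2664 (@Lb.r r267 (@Lb.r r2577 (@Lb.d (nat_lit 134) (nat_lit 18) (nat_lit 512) (@Lb.fm (nat_lit 9) t854)))))))))))
noncomputable def l20640 : Lb := (@Lb.d (nat_lit 0) (nat_lit 545) (nat_lit 128) (@Lb.g g9 (@Lb.g g11 (@Lb.r r2339 (@Lb.r r289 (@Lb.d (nat_lit 0) (nat_lit 144) (nat_lit 320) (@Lb.fp (nat_lit 3) t484)))))))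
noncomputable def l20641 : Lb := (@Lb.r r322 (@Lb.d (nat_lit 36) (nat_lit 290) (nat_lit 516) (@Lb.g g8 (@Lb.g g9 (@Lb.g g7 (@Lb.r r418 (@Lb.r r297 (@Lb.r r1384 (@Lb.d (nat_lit 404) (nat_lit 170) (nat_lit 293) (@Lb.t (@Lb.fm (nat_lit 9) t739)))))))))))
noncomputable def l20642 : Lb := (@Lb.d (nat_lit 2) (nat_lit 258) (nat_lit 2) (@Lb.g g8 (@Lb.g g9 (@Lb.g g10 (@Lb.r r2666 (@Lb.r r579 (@Lb.r r2337 (@Lb.r r24 (@Lb.d (nat_lit 586) (nat_lit 102) (nat_lit 584) (@Lb.t (@Lb.fp (nat_lit 9) t4086)))))))))))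
noncomputable def l20643 : Lb := (@Lb.d (nat_lit 16) (nat_lit 8) (nat_lit 162) (@Lb.g g10 (@Lb.g g11 (@Lb.r r1419 (@Lb.r r2069 (@Lb.r r8 (@Lb.d (nat_lit 105) (nat_lit 130) (nat_lit 425) (@Lb.fp (nat_lit 3) t4151))))))))
noncomputable def l20644 : Lb := (@Lb.d (nat_lit 132) (nat_lit 256) (nat_lit 66) (@Lb.g g8 (@Lb.g g9 (@Lb.g g10 (@Lb.g g11 (@Lb.r r1415 (@Lb.r r1177 (@Lb.r r406 (@Lb.r r584 (@Lb.d (nat_lit 410) (nat_lit 137) (nat_lit 649) (@Lb.fp (nat_lit 9) t956)))))))))))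
noncomputable def l20645 : Lb := (@Lb.d (nat_lit 2) (nat_lit 0) (nat_lit 0) (@Lb.g g8 (@Lb.r r2665 (@Lb.r r363 (@Lb.r r356 (@Lb.r r154 (@Lb.d (nat_lit 642) (nat_lit 5) (nat_lit 534) (@Lb.t (@Lb.fp (nat_lit 3) t2591)))))))))
noncomputable def l20646 : Lb := (@Lb.d (nat_lit 138) (nat_lit 512) (nat_lit 0) (@Lb.g g8 (@Lb.r r678 (@Lb.r r661 (@Lb.r r1431 (@Lb.r r2664 (@Lb.d (nat_lit 298) (nat_lit 74) (nat_lit 130) (@Lb.t (@Lb.fp (nat_lit 3) t4152)))))))))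
noncomputable def l20647 : Lb := (@Lb.r r82 (@Lb.d (nat_lit 4) (nat_lit 256) (nat_lit 0) (@Lb.g g8 (@Lb.g g9 (@Lb.r r555 (@Lb.r r1642 (@Lb.r r1561 (@Lb.d (nat_lit 585) (nat_lit 161) (nat_lit 256) (@Lb.fp (nat_lit 3) t2714)))))))))
noncomputable def l20648 : Lb := (@Lb.d (nat_lit 132) (nat_lit 0) (nat_lit 130) (@Lb.g g8 (@Lb.g g9 (@Lb.g g10 (@Lb.g g11 (@Lb.r r1415 (@Lb.r r164 (@Lb.r r2438 (@Lb.r r2721 (@Lb.d (nat_lit 361) (nat_lit 149) (nat_lit 150) (@Lb.fp (nat_lit 9) t4153)))))))))))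
noncomputable def l20649 : Lb := (@Lb.r r322 (@Lb.d (nat_lit 2) (nat_lit 289) (nat_lit 516) (@Lb.g g8 (@Lb.g g9 (@Lb.g g7 (@Lb.r r418 (@Lb.r r2201 (@Lb.r r24 (@Lb.d (nat_lit 40) (nat_lit 9) (nat_lit 65) (@Lb.t (@Lb.fp (nat_lit 9) t2967)))))))))))
noncomputable def l20650 : Lb := (@Lb.g g8 (@Lb.g g9 (@Lb.r r419 (@Lb.r r1414 (@Lb.r r2148 (@Lb.r r277 (@Lb.d (nat_lit 330) (nat_lit 681) (nat_lit 386) (@Lb.fp (nat_lit 3) t4154))))))))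
noncomputable def l20651 : Lb := (@Lb.r r322 (@Lb.r r659 (@Lb.r r578 (@Lb.d (nat_lit 0) (nat_lit 576) (nat_lit 84) (@Lb.fm (nat_lit 1) t356)))))
noncomputable def l20652 : Lb := (@Lb.d (nat_lit 132) (nat_lit 0) (nat_lit 130) (@Lb.g g8 (@Lb.g g9 (@Lb.g g10 (@Lb.g g11 (@Lb.r r1415 (@Lb.r r1177 (@Lb.r r406 (@Lb.r r584 (@Lb.d (nat_lit 410) (nat_lit 137) (nat_lit 649) (@Lb.fp (nat_lit 9) t956)))))))))))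
noncomputable def l20653 : Lb := (@Lb.r r322 (@Lb.d (nat_lit 0) (nat_lit 289) (nat_lit 516) (@Lb.g g8 (@Lb.g g9 (@Lb.g g7 (@Lb.r r418 (@Lb.r r2201 (@Lb.r r24 (@Lb.d (nat_lit 41) (nat_lit 2) (nat_lit 66) (@Lb.t (@Lb.fp (nat_lit 9) t4155)))))))))))
noncomputable def l20654 : Lb := (@Lb.d (nat_lit 40) (nat_lit 26) (nat_lit 585) (@Lb.g g9 (@Lb.g g10 (@Lb.g g11 (@Lb.r r328 (@Lb.r r2390 (@Lb.r r1445 (@Lb.d (nat_lit 642) (nat_lit 128) (nat_lit 170) (@Lb.t (@Lb.fm (nat_lit 9) t522))))))))))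
noncomputable def l20655 : Lb := (@Lb.d (nat_lit 8) (nat_lit 272) (nat_lit 586) (@Lb.g g9 (@Lb.g g10 (@Lb.g g7 (@Lb.r r1450 (@Lb.r r1556 (@Lb.r r2409 (@Lb.d (nat_lit 290) (nat_lit 41) (nat_lit 102) (@Lb.t (@Lb.fp (nat_lit 9) t842))))))))))
noncomputable def l20656 : Lb := (@Lb.g g7 (@Lb.r r402 (@Lb.r r24 (@Lb.r r101 (@Lb.d (nat_lit 101) (nat_lit 640) (nat_lit 320) (@Lb.t (@Lb.fp (nat_lit 3) t1628)))))))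
noncomputable def l20657 : Lb := (@Lb.d (nat_lit 16) (nat_lit 272) (nat_lit 586) (@Lb.g g8 (@Lb.g g9 (@Lb.g g10 (@Lb.g g7 (@Lb.r r425 (@Lb.r r1188 (@Lb.r r2182 (@Lb.d (nat_lit 290) (nat_lit 74) (nat_lit 81) (@Lb.fm (nat_lit 9) t2147))))))))))
noncomputable def l20658 : Lb := (@Lb.d (nat_lit 2) (nat_lit 16) (nat_lit 137) (@Lb.g g8 (@Lb.g g9 (@Lb.g g10 (@Lb.g g11 (@Lb.r r427 (@Lb.r r425 (@Lb.r r98 (@Lb.r r2436 (@Lb.d (nat_lit 354) (nat_lit 4) (nat_lit 513) (@Lb.fm (nat_lit 9) t981)))))))))))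
noncomputable def l20659 : Lb := (@Lb.d (nat_lit 130) (nat_lit 278) (nat_lit 657) (@Lb.r r20 (@Lb.r r2129 (@Lb.r r418 (@Lb.g g11 (@Lb.g g9 (@Lb.d (nat_lit 64) (nat_lit 1) (nat_lit 512) (@Lb.fp (nat_lit 3) t580))))))))
noncomputable def l20660 : Lb := (@Lb.d (nat_lit 360) (nat_lit 38) (nat_lit 341) (@Lb.r r2120 (@Lb.r r2145 (@Lb.r r2390 (@Lb.r r2723 (@Lb.g g7 (@Lb.g g6 (@Lb.g g4 (@Lb.d (nat_lit 0) (nat_lit 0) (nat_lit 132) (@Lb.t (@Lb.fm (nat_lit 9) t3482)))))))))))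
noncomputable def l20661 : Lb := (@Lb.d (nat_lit 593) (nat_lit 81) (nat_lit 337) (@Lb.r r1563 (@Lb.r r2401 (@Lb.r r1174 (@Lb.g g7 (@Lb.g g5 (@Lb.g g4 (@Lb.d (nat_lit 1) (nat_lit 5) (nat_lit 68) (@Lb.t (@Lb.fm (nat_lit 9) t1222))))))))))
noncomputable def l20662 : Lb := (@Lb.d (nat_lit 0) (nat_lit 2) (nat_lit 0) (@Lb.g g9 (@Lb.g g7 (@Lb.r r1414 (@Lb.r r104 (@Lb.r r25 (@Lb.d (nat_lit 22) (nat_lit 136) (nat_lit 544) (@Lb.fp (nat_lit 3) t4156))))))))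
noncomputable def l20663 : Lb := (@Lb.d (nat_lit 1) (nat_lit 537) (nat_lit 73) (@Lb.g g8 (@Lb.g g9 (@Lb.g g10 (@Lb.g g11 (@Lb.r r1130 (@Lb.r r356 (@Lb.r r411 (@Lb.r r597 (@Lb.r r2084 (@Lb.d (nat_lit 144) (nat_lit 2) (nat_lit 361) (@Lb.fp (nat_lit 9) t42))))))))))))
noncomputable def l20664 : Lb := (@Lb.r r322 (@Lb.d (nat_lit 2) (nat_lit 522) (nat_lit 72) (@Lb.g g8 (@Lb.g g9 (@Lb.g g7 (@Lb.r r594 (@Lb.r r421 (@Lb.r r24 (@Lb.d (nat_lit 282) (nat_lit 9) (nat_lit 41) (@Lb.t (@Lb.fp (nat_lit 9) t1636)))))))))))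
noncomputable def l20665 : Lb := (@Lb.r r323 (@Lb.d (nat_lit 2) (nat_lit 258) (nat_lit 2) (@Lb.g g8 (@Lb.g g9 (@Lb.g g10 (@Lb.r r401 (@Lb.r r299 (@Lb.r r392 (@Lb.r r74 (@Lb.d (nat_lit 33) (nat_lit 10) (nat_lit 88) (@Lb.t (@Lb.fp (nat_lit 9) t756))))))))))))
noncomputable def l20666 : Lb := (@Lb.r r579 (@Lb.r r2118 (@Lb.r r2069 (@Lb.r r8 (@Lb.d (nat_lit 0) (nat_lit 0) (nat_lit 16) (@Lb.fp (nat_lit 1) t2817))))))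
noncomputable def l20667 : Lb := (@Lb.d (nat_lit 10) (nat_lit 512) (nat_lit 0) (@Lb.g g4 (@Lb.r r609 (@Lb.r r615 (@Lb.r r388 (@Lb.r r134 (@Lb.d (nat_lit 512) (nat_lit 0) (nat_lit 169) (@Lb.t (@Lb.fp (nat_lit 3) t40)))))))))
noncomputable def l20668 : Lb := (@Lb.r r405 (@Lb.d (nat_lit 33) (nat_lit 288) (nat_lit 577) (@Lb.g g8 (@Lb.g g10 (@Lb.g g7 (@Lb.r r597 (@Lb.r r2154 (@Lb.r r36 (@Lb.d (nat_lit 40) (nat_lit 2) (nat_lit 132) (@Lb.t (@Lb.fp (nat_lit 9) t4157)))))))))))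
noncomputable def l20669 : Lb := (@Lb.d (nat_lit 580) (nat_lit 1) (nat_lit 320) (@Lb.r r1297 (@Lb.r r579 (@Lb.r r2374 (@Lb.g g6 (@Lb.g g5 (@Lb.g g4 (@Lb.d (nat_lit 1) (nat_lit 0) (nat_lit 2) (@Lb.t (@Lb.fm (nat_lit 9) t3481))))))))))
noncomputable def l20670 : Lb := (@Lb.r r70 (@Lb.d (nat_lit 32) (nat_lit 522) (nat_lit 128) (@Lb.g g8 (@Lb.g g9 (@Lb.g g11 (@Lb.r r2450 (@Lb.r r2407 (@Lb.r r1381 (@Lb.r r2692 (@Lb.d (nat_lit 681) (nat_lit 1) (nat_lit 421) (@Lb.t (@Lb.fm (nat_lit 9) t156))))))))))))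
noncomputable def l20671 : Lb := (@Lb.d (nat_lit 8) (nat_lit 258) (nat_lit 128) (@Lb.g g9 (@Lb.g g11 (@Lb.r r1700 (@Lb.r r2390 (@Lb.r r1699 (@Lb.r r673 (@Lb.d (nat_lit 0) (nat_lit 21) (nat_lit 392) (@Lb.fm (nat_lit 3) t2030)))))))))
noncomputable def l20672 : Lb := (@Lb.d (nat_lit 4) (nat_lit 161) (nat_lit 66) (@Lb.g g8 (@Lb.g g5 (@Lb.g g10 (@Lb.g g11 (@Lb.r r531 (@Lb.r r386 (@Lb.r r1096 (@Lb.d (nat_lit 546) (nat_lit 98) (nat_lit 73) (@Lb.fp (nat_lit 9) t299))))))))))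
noncomputable def l20673 : Lb := (@Lb.d (nat_lit 0) (nat_lit 512) (nat_lit 2) (@Lb.g g9 (@Lb.g g10 (@Lb.g g7 (@Lb.r r98 (@Lb.r r101 (@Lb.r r24 (@Lb.d (nat_lit 2) (nat_lit 0) (nat_lit 0) (@Lb.t (@Lb.fp (nat_lit 9) t145))))))))))
noncomputable def l20674 : Lb := (@Lb.d (nat_lit 8) (nat_lit 666) (nat_lit 388) (@Lb.r r21 (@Lb.r r579 (@Lb.r r1366 (@Lb.g g6 (@Lb.g g5 (@Lb.g g4 (@Lb.d (nat_lit 1) (nat_lit 1) (nat_lit 1) (@Lb.t (@Lb.fm (nat_lit 9) t647))))))))))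
noncomputable def l20675 : Lb := (@Lb.d (nat_lit 1) (nat_lit 0) (nat_lit 2) (@Lb.g g8 (@Lb.g g10 (@Lb.r r273 (@Lb.r r2595 (@Lb.r r2122 (@Lb.r r529 (@Lb.r r2120 (@Lb.d (nat_lit 37) (nat_lit 1) (nat_lit 70) (@Lb.fm (nat_lit 3) t282))))))))))
noncomputable def l20676 : Lb := (@Lb.d (nat_lit 70) (nat_lit 544) (nat_lit 576) (@Lb.r r101 (@Lb.r r2451 (@Lb.r r402 (@Lb.g g7 (@Lb.d (nat_lit 0) (nat_lit 0) (nat_lit 68) (@Lb.t (@Lb.fm (nat_lit 3) t412))))))))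
noncomputable def l20677 : Lb := (@Lb.d (nat_lit 26) (nat_lit 264) (nat_lit 9) (@Lb.g g8 (@Lb.g g9 (@Lb.g g10 (@Lb.g g7 (@Lb.r r2434 (@Lb.r r97 (@Lb.r r1048 (@Lb.d (nat_lit 522) (nat_lit 73) (nat_lit 665) (@Lb.fp (nat_lit 9) t3481))))))))))
noncomputable def l20678 : Lb := (@Lb.d (nat_lit 256) (nat_lit 640) (nat_lit 0) (@Lb.r r1114 (@Lb.g g5 (@Lb.t (@Lb.fm (nat_lit 3) t3582)))))
noncomputable def l20679 : Lb := (@Lb.d (nat_lit 69) (nat_lit 546) (nat_lit 578) (@Lb.g g8 (@Lb.g g9 (@Lb.g g10 (@Lb.g g7 (@Lb.r r386 (@Lb.r r1633 (@Lb.r r280 (@Lb.d (nat_lit 138) (nat_lit 169) (nat_lit 341) (@Lb.fp (nat_lit 9) t4158))))))))))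
noncomputable def l20680 : Lb := (@Lb.d (nat_lit 614) (nat_lit 148) (nat_lit 5) (@Lb.r r1621 (@Lb.r r1642 (@Lb.g g11 (@Lb.g g5 (@Lb.g g4 (@Lb.d (nat_lit 8) (nat_lit 18) (nat_lit 132) (@Lb.r r578 (@Lb.t (@Lb.fm (nat_lit 9) t4159))))))))))
noncomputable def l20681 : Lb := (@Lb.d (nat_lit 16) (nat_lit 264) (nat_lit 129) (@Lb.g g9 (@Lb.g g6 (@Lb.g g11 (@Lb.r r2727 (@Lb.r r2660 (@Lb.r r2581 (@Lb.d (nat_lit 134) (nat_lit 144) (nat_lit 321) (@Lb.t (@Lb.fm (nat_lit 9) t848))))))))))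
noncomputable def l20682 : Lb := (@Lb.d (nat_lit 614) (nat_lit 518) (nat_lit 645) (@Lb.r r1621 (@Lb.r r1706 (@Lb.g g11 (@Lb.g g6 (@Lb.g g5 (@Lb.g g4 (@Lb.d (nat_lit 1) (nat_lit 16) (nat_lit 6) (@Lb.fp (nat_lit 9) t309)))))))))
noncomputable def l20683 : Lb := (@Lb.d (nat_lit 358) (nat_lit 532) (nat_lit 293) (@Lb.r r2645 (@Lb.r r618 (@Lb.g g11 (@Lb.g g5 (@Lb.g g4 (@Lb.d (nat_lit 1) (nat_lit 18) (nat_lit 132) (@Lb.r r578 (@Lb.t (@Lb.fm (nat_lit 9) t4159))))))))))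
noncomputable def l20684 : Lb := (@Lb.d (nat_lit 146) (nat_lit 514) (nat_lit 5) (@Lb.g g8 (@Lb.g g9 (@Lb.g g10 (@Lb.g g11 (@Lb.r r683 (@Lb.r r618 (@Lb.r r1561 (@Lb.r r1540 (@Lb.d (nat_lit 394) (nat_lit 73) (nat_lit 673) (@Lb.fm (nat_lit 9) t4160)))))))))))
noncomputable def l20685 : Lb := (@Lb.d (nat_lit 146) (nat_lit 2) (nat_lit 5) (@Lb.g g8 (@Lb.g g9 (@Lb.g g10 (@Lb.g g11 (@Lb.r r683 (@Lb.r r618 (@Lb.r r1561 (@Lb.r r1540 (@Lb.d (nat_lit 389) (nat_lit 72) (nat_lit 673) (@Lb.fm (nat_lit 9) t4160)))))))))))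
noncomputable def l20686 : Lb := (@Lb.r r323 (@Lb.d (nat_lit 0) (nat_lit 546) (nat_lit 32) (@Lb.g g9 (@Lb.g g10 (@Lb.r r595 (@Lb.r r409 (@Lb.r r24 (@Lb.d (nat_lit 674) (nat_lit 0) (nat_lit 388) (@Lb.fm (nat_lit 3) t288)))))))))
noncomputable def l20687 : Lb := (@Lb.d (nat_lit 0) (nat_lit 517) (nat_lit 5) (@Lb.g g9 (@Lb.g g10 (@Lb.g g11 (@Lb.r r659 (@Lb.r r345 (@Lb.r r1446 (@Lb.d (nat_lit 106) (nat_lit 166) (nat_lit 132) (@Lb.t (@Lb.fm (nat_lit 9) t4161))))))))))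
noncomputable def l20688 : Lb := (@Lb.d (nat_lit 0) (nat_lit 517) (nat_lit 322) (@Lb.r r2706 (@Lb.r r1637 (@Lb.r r24 (@Lb.r r2435 (@Lb.g g7 (@Lb.g g6 (@Lb.d (nat_lit 0) (nat_lit 0) (nat_lit 132) (@Lb.fp (nat_lit 3) t200)))))))))
noncomputable def l20689 : Lb := (@Lb.d (nat_lit 0) (nat_lit 256) (nat_lit 130) (@Lb.g g10 (@Lb.g g11 (@Lb.r r642 (@Lb.r r387 (@Lb.d (nat_lit 0) (nat_lit 0) (nat_lit 89) (@Lb.fp (nat_lit 3) t2)))))))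
noncomputable def l20690 : Lb := (@Lb.r r81 (@Lb.d (nat_lit 129) (nat_lit 0) (nat_lit 6) (@Lb.g g8 (@Lb.g g6 (@Lb.g g11 (@Lb.r r2643 (@Lb.r r297 (@Lb.r r2084 (@Lb.d (nat_lit 41) (nat_lit 66) (nat_lit 0) (@Lb.t (@Lb.fp (nat_lit 9) t2394)))))))))))
noncomputable def l20691 : Lb := (@Lb.r r616 (@Lb.r r603 (@Lb.r r1445 (@Lb.r r1382 (@Lb.r r644 (@Lb.d (nat_lit 0) (nat_lit 337) (nat_lit 288) (@Lb.fm (nat_lit 1) t210)))))))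
noncomputable def l20692 : Lb := (@Lb.d (nat_lit 128) (nat_lit 2) (nat_lit 130) (@Lb.g g8 (@Lb.g g9 (@Lb.g g10 (@Lb.g g11 (@Lb.r r427 (@Lb.r r420 (@Lb.r r1126 (@Lb.r r1045 (@Lb.r r2084 (@Lb.d (nat_lit 9) (nat_lit 68) (nat_lit 664) (@Lb.fp (nat_lit 9) t1500))))))))))))
noncomputable def l20693 : Lb := (@Lb.d (nat_lit 128) (nat_lit 258) (nat_lit 4) (@Lb.g g8 (@Lb.g g9 (@Lb.g g10 (@Lb.g g11 (@Lb.r r427 (@Lb.r r420 (@Lb.r r1126 (@Lb.r r1045 (@Lb.r r2084 (@Lb.d (nat_lit 9) (nat_lit 73) (nat_lit 665) (@Lb.fp (nat_lit 9) t1500))))))))))))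
noncomputable def l20694 : Lb := (@Lb.d (nat_lit 4) (nat_lit 512) (nat_lit 74) (@Lb.g g8 (@Lb.g g9 (@Lb.g g10 (@Lb.g g11 (@Lb.r r651 (@Lb.r r164 (@Lb.r r2469 (@Lb.r r2150 (@Lb.r r132 (@Lb.d (nat_lit 521) (nat_lit 33) (nat_lit 672) (@Lb.fp (nat_lit 9) t51))))))))))))
noncomputable def l20695 : Lb := (@Lb.d (nat_lit 2) (nat_lit 258) (nat_lit 33) (@Lb.g g8 (@Lb.g g9 (@Lb.g g6 (@Lb.g g7 (@Lb.r r97 (@Lb.r r24 (@Lb.d (nat_lit 10) (nat_lit 9) (nat_lit 84) (@Lb.fp (nat_lit 9) t40)))))))))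
noncomputable def l20696 : Lb := (@Lb.g g10 (@Lb.g g7 (@Lb.r r579 (@Lb.r r24 (@Lb.r r101 (@Lb.d (nat_lit 0) (nat_lit 389) (nat_lit 101) (@Lb.fm (nat_lit 3) t126)))))))
noncomputable def l20697 : Lb := (@Lb.d (nat_lit 0) (nat_lit 256) (nat_lit 128) (@Lb.g g10 (@Lb.g g11 (@Lb.r r387 (@Lb.r r24 (@Lb.r r101 (@Lb.d (nat_lit 0) (nat_lit 133) (nat_lit 32) (@Lb.fm (nat_lit 3) t126))))))))
noncomputable def l20698 : Lb := (@Lb.r r21 (@Lb.d (nat_lit 2) (nat_lit 512) (nat_lit 74) (@Lb.g g8 (@Lb.g g10 (@Lb.g g11 (@Lb.r r667 (@Lb.r r660 (@Lb.r r2198 (@Lb.r r97 (@Lb.d (nat_lit 521) (nat_lit 2) (nat_lit 682) (@Lb.t (@Lb.fp (nat_lit 9) t51))))))))))))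
noncomputable def l20699 : Lb := (@Lb.r r21 (@Lb.d (nat_lit 1) (nat_lit 0) (nat_lit 74) (@Lb.g g8 (@Lb.g g10 (@Lb.g g11 (@Lb.r r667 (@Lb.r r660 (@Lb.r r2198 (@Lb.r r97 (@Lb.d (nat_lit 521) (nat_lit 2) (nat_lit 682) (@Lb.t (@Lb.fp (nat_lit 9) t51))))))))))))
noncomputable def l20700 : Lb := (@Lb.d (nat_lit 160) (nat_lit 256) (nat_lit 128) (@Lb.g g10 (@Lb.g g11 (@Lb.r r264 (@Lb.r r279 (@Lb.r r593 (@Lb.r r418 (@Lb.d (nat_lit 98) (nat_lit 68) (nat_lit 357) (@Lb.fm (nat_lit 3) t210)))))))))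
noncomputable def l20701 : Lb := (@Lb.r r579 (@Lb.d (nat_lit 0) (nat_lit 0) (nat_lit 32) (@Lb.fm (nat_lit 1) t2)))
noncomputable def l20702 : Lb := (@Lb.r r21 (@Lb.d (nat_lit 2) (nat_lit 256) (nat_lit 2) (@Lb.g g8 (@Lb.g g10 (@Lb.r r138 (@Lb.r r153 (@Lb.r r132 (@Lb.d (nat_lit 353) (nat_lit 0) (nat_lit 514) (@Lb.fp (nat_lit 3) t145)))))))))
noncomputable def l20703 : Lb := (@Lb.r r82 (@Lb.r r283 (@Lb.d (nat_lit 34) (nat_lit 642) (nat_lit 0) (@Lb.g g8 (@Lb.g g9 (@Lb.r r2402 (@Lb.r r1703 (@Lb.r r276 (@Lb.d (nat_lit 582) (nat_lit 152) (nat_lit 4) (@Lb.fp (nat_lit 3) t606))))))))))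
noncomputable def l20704 : Lb := (@Lb.d (nat_lit 40) (nat_lit 514) (nat_lit 73) (@Lb.g g9 (@Lb.g g10 (@Lb.g g11 (@Lb.r r2695 (@Lb.r r1352 (@Lb.r r2390 (@Lb.r r409 (@Lb.d (nat_lit 136) (nat_lit 130) (nat_lit 266) (@Lb.t (@Lb.fm (nat_lit 9) t1087)))))))))))
noncomputable def l20705 : Lb := (@Lb.r r323 (@Lb.d (nat_lit 0) (nat_lit 8) (nat_lit 34) (@Lb.g g10 (@Lb.r r2659 (@Lb.r r101 (@Lb.d (nat_lit 581) (nat_lit 33) (nat_lit 258) (@Lb.t (@Lb.fp (nat_lit 3) t240))))))))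
noncomputable def l20706 : Lb := (@Lb.d (nat_lit 2) (nat_lit 258) (nat_lit 74) (@Lb.g g8 (@Lb.g g9 (@Lb.g g10 (@Lb.g g11 (@Lb.r r2731 (@Lb.r r2724 (@Lb.r r1158 (@Lb.r r97 (@Lb.d (nat_lit 288) (nat_lit 105) (nat_lit 673) (@Lb.fm (nat_lit 9) t296)))))))))))
noncomputable def l20707 : Lb := (@Lb.d (nat_lit 608) (nat_lit 0) (nat_lit 666) (@Lb.g g11 (@Lb.t (@Lb.fp (nat_lit 3) t3143))))
noncomputable def l20708 : Lb := (@Lb.d (nat_lit 9) (nat_lit 264) (nat_lit 128) (@Lb.g g8 (@Lb.g g10 (@Lb.g g11 (@Lb.r r81 (@Lb.r r1446 (@Lb.r r1611 (@Lb.r r1608 (@Lb.d (nat_lit 97) (nat_lit 80) (nat_lit 105) (@Lb.t (@Lb.fp (nat_lit 9) t3071)))))))))))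
noncomputable def l20709 : Lb := (@Lb.d (nat_lit 1) (nat_lit 512) (nat_lit 128) (@Lb.g g8 (@Lb.g g9 (@Lb.g g10 (@Lb.g g11 (@Lb.r r88 (@Lb.r r2662 (@Lb.r r2645 (@Lb.r r343 (@Lb.r r676 (@Lb.d (nat_lit 545) (nat_lit 0) (nat_lit 1) (@Lb.fm (nat_lit 9) t3071))))))))))))
noncomputable def l20710 : Lb := (@Lb.d (nat_lit 145) (nat_lit 514) (nat_lit 74) (@Lb.g g8 (@Lb.g g9 (@Lb.g g10 (@Lb.g g11 (@Lb.r r2347 (@Lb.r r1366 (@Lb.r r1433 (@Lb.r r1432 (@Lb.d (nat_lit 26) (nat_lit 66) (nat_lit 664) (@Lb.fm (nat_lit 9) t4162)))))))))))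
noncomputable def l20711 : Lb := (@Lb.r r70 (@Lb.r r263 (@Lb.d (nat_lit 546) (nat_lit 514) (nat_lit 0) (@Lb.g g8 (@Lb.g g9 (@Lb.r r406 (@Lb.r r2627 (@Lb.r r25 (@Lb.d (nat_lit 2) (nat_lit 144) (nat_lit 576) (@Lb.fm (nat_lit 3) t898))))))))))
noncomputable def l20712 : Lb := (@Lb.d (nat_lit 168) (nat_lit 2) (nat_lit 128) (@Lb.g g9 (@Lb.g g10 (@Lb.g g11 (@Lb.r r264 (@Lb.r r279 (@Lb.r r593 (@Lb.r r418 (@Lb.d (nat_lit 258) (nat_lit 36) (nat_lit 356) (@Lb.t (@Lb.fm (nat_lit 9) t4163)))))))))))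
noncomputable def l20713 : Lb := (@Lb.d (nat_lit 0) (nat_lit 0) (nat_lit 128) (@Lb.g g10 (@Lb.g g11 (@Lb.r r353 (@Lb.r r2587 (@Lb.r r1414 (@Lb.r r2564 (@Lb.d (nat_lit 132) (nat_lit 146) (nat_lit 682) (@Lb.fp (nat_lit 3) t4164)))))))))
noncomputable def l20714 : Lb := (@Lb.d (nat_lit 160) (nat_lit 520) (nat_lit 128) (@Lb.g g10 (@Lb.g g11 (@Lb.r r89 (@Lb.r r264 (@Lb.r r1367 (@Lb.r r1698 (@Lb.d (nat_lit 258) (nat_lit 148) (nat_lit 677) (@Lb.fm (nat_lit 3) t1607)))))))))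
noncomputable def l20715 : Lb := (@Lb.d (nat_lit 2) (nat_lit 258) (nat_lit 130) (@Lb.g g8 (@Lb.g g9 (@Lb.g g10 (@Lb.g g11 (@Lb.r r427 (@Lb.r r145 (@Lb.r r356 (@Lb.r r154 (@Lb.r r132 (@Lb.d (nat_lit 282) (nat_lit 9) (nat_lit 169) (@Lb.fm (nat_lit 9) t61))))))))))))
noncomputable def l20716 : Lb := (@Lb.r r322 (@Lb.d (nat_lit 0) (nat_lit 290) (nat_lit 516) (@Lb.g g9 (@Lb.g g7 (@Lb.r r422 (@Lb.r r1112 (@Lb.r r2085 (@Lb.d (nat_lit 512) (nat_lit 64) (nat_lit 64) (@Lb.fm (nat_lit 3) t1106)))))))))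
noncomputable def l20717 : Lb := (@Lb.d (nat_lit 0) (nat_lit 290) (nat_lit 64) (@Lb.g g9 (@Lb.g g11 (@Lb.r r2577 (@Lb.r r531 (@Lb.d (nat_lit 0) (nat_lit 82) (nat_lit 512) (@Lb.fp (nat_lit 3) t2181)))))))
noncomputable def l20718 : Lb := (@Lb.r r273 (@Lb.d (nat_lit 0) (nat_lit 264) (nat_lit 513) (@Lb.g g10 (@Lb.g g11 (@Lb.r r2129 (@Lb.r r610 (@Lb.d (nat_lit 0) (nat_lit 153) (nat_lit 394) (@Lb.fm (nat_lit 3) t3554))))))))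
noncomputable def l20719 : Lb := (@Lb.r r275 (@Lb.d (nat_lit 0) (nat_lit 154) (nat_lit 0) (@Lb.g g9 (@Lb.r r291 (@Lb.d (nat_lit 0) (nat_lit 102) (nat_lit 74) (@Lb.t (@Lb.fp (nat_lit 3) t484)))))))
noncomputable def l20720 : Lb := (@Lb.d (nat_lit 578) (nat_lit 530) (nat_lit 128) (@Lb.r r24 (@Lb.r r2145 (@Lb.r r1626 (@Lb.r r1419 (@Lb.g g7 (@Lb.g g6 (@Lb.g g4 (@Lb.d (nat_lit 2) (nat_lit 0) (nat_lit 10) (@Lb.t (@Lb.fp (nat_lit 9) t2147)))))))))))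
noncomputable def l20721 : Lb := (@Lb.d (nat_lit 145) (nat_lit 145) (nat_lit 134) (@Lb.r r358 (@Lb.r r683 (@Lb.r r1688 (@Lb.r r2389 (@Lb.g g6 (@Lb.g g5 (@Lb.g g4 (@Lb.d (nat_lit 33) (nat_lit 1) (nat_lit 0) (@Lb.t (@Lb.fp (nat_lit 9) t981)))))))))))
noncomputable def l20722 : Lb := (@Lb.d (nat_lit 9) (nat_lit 513) (nat_lit 130) (@Lb.g g8 (@Lb.g g9 (@Lb.g g10 (@Lb.g g11 (@Lb.r r340 (@Lb.r r2202 (@Lb.r r1621 (@Lb.r r1367 (@Lb.r r2724 (@Lb.d (nat_lit 352) (nat_lit 2) (nat_lit 602) (@Lb.fm (nat_lit 9) t994))))))))))))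
noncomputable def l20723 : Lb := (@Lb.d (nat_lit 581) (nat_lit 418) (nat_lit 384) (@Lb.r r20 (@Lb.r r2145 (@Lb.r r1686 (@Lb.r r395 (@Lb.g g7 (@Lb.g g6 (@Lb.d (nat_lit 0) (nat_lit 0) (nat_lit 132) (@Lb.fm (nat_lit 3) t580)))))))))
noncomputable def l20724 : Lb := (@Lb.d (nat_lit 529) (nat_lit 513) (nat_lit 134) (@Lb.r r68 (@Lb.r r90 (@Lb.r r596 (@Lb.r r1367 (@Lb.g g7 (@Lb.g g6 (@Lb.g g5 (@Lb.g g4 (@Lb.d (nat_lit 2) (nat_lit 129) (nat_lit 65) (@Lb.fp (nat_lit 9) t242)))))))))))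
noncomputable def l20725 : Lb := (@Lb.d (nat_lit 9) (nat_lit 6) (nat_lit 0) (@Lb.g g8 (@Lb.g g9 (@Lb.g g10 (@Lb.g g11 (@Lb.r r1699 (@Lb.r r132 (@Lb.r r582 (@Lb.r r2201 (@Lb.r r2180 (@Lb.d (nat_lit 10) (nat_lit 161) (nat_lit 330) (@Lb.fm (nat_lit 9) t1751))))))))))))
noncomputable def l20726 : Lb := (@Lb.d (nat_lit 281) (nat_lit 89) (nat_lit 72) (@Lb.r r1361 (@Lb.r r1094 (@Lb.r r2339 (@Lb.g g6 (@Lb.g g5 (@Lb.g g4 (@Lb.d (nat_lit 2) (nat_lit 16) (nat_lit 1) (@Lb.t (@Lb.fp (nat_lit 9) t1075))))))))))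
noncomputable def l20727 : Lb := (@Lb.d (nat_lit 2) (nat_lit 265) (nat_lit 1) (@Lb.g g8 (@Lb.g g9 (@Lb.g g10 (@Lb.g g11 (@Lb.r r2435 (@Lb.r r553 (@Lb.r r360 (@Lb.r r2374 (@Lb.r r132 (@Lb.d (nat_lit 578) (nat_lit 90) (nat_lit 673) (@Lb.fp (nat_lit 9) t393))))))))))))
noncomputable def l20728 : Lb := (@Lb.d (nat_lit 8) (nat_lit 258) (nat_lit 66) (@Lb.g g9 (@Lb.g g10 (@Lb.g g7 (@Lb.r r386 (@Lb.r r24 (@Lb.d (nat_lit 618) (nat_lit 6) (nat_lit 538) (@Lb.t (@Lb.fp (nat_lit 9) t4165)))))))))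
noncomputable def l20729 : Lb := (@Lb.d (nat_lit 32) (nat_lit 514) (nat_lit 73) (@Lb.g g9 (@Lb.g g10 (@Lb.g g11 (@Lb.r r2695 (@Lb.r r297 (@Lb.r r1352 (@Lb.r r2662 (@Lb.d (nat_lit 136) (nat_lit 85) (nat_lit 408) (@Lb.t (@Lb.fp (nat_lit 9) t1013)))))))))))
noncomputable def l20730 : Lb := (@Lb.d (nat_lit 384) (nat_lit 586) (nat_lit 0) (@Lb.r r1128 (@Lb.r r1313 (@Lb.r r603 (@Lb.g g6 (@Lb.g g5 (@Lb.d (nat_lit 16) (nat_lit 1) (nat_lit 37) (@Lb.r r387 (@Lb.fp (nat_lit 3) t3370)))))))))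
noncomputable def l20731 : Lb := (@Lb.g g4 (@Lb.g g7 (@Lb.r r2311 (@Lb.r r402 (@Lb.r r2145 (@Lb.r r36 (@Lb.d (nat_lit 262) (nat_lit 576) (nat_lit 576) (@Lb.fm (nat_lit 3) t2257))))))))
noncomputable def l20732 : Lb := (@Lb.d (nat_lit 8) (nat_lit 514) (nat_lit 64) (@Lb.g g9 (@Lb.g g11 (@Lb.r r1447 (@Lb.r r1126 (@Lb.r r24 (@Lb.d (nat_lit 512) (nat_lit 2) (nat_lit 170) (@Lb.fp (nat_lit 3) t284))))))))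
noncomputable def l20733 : Lb := (@Lb.d (nat_lit 9) (nat_lit 1) (nat_lit 130) (@Lb.g g8 (@Lb.g g9 (@Lb.g g10 (@Lb.g g11 (@Lb.r r660 (@Lb.r r614 (@Lb.r r1637 (@Lb.r r1383 (@Lb.r r2692 (@Lb.d (nat_lit 0) (nat_lit 130) (nat_lit 74) (@Lb.fm (nat_lit 9) t2))))))))))))
noncomputable def l20734 : Lb := (@Lb.d (nat_lit 9) (nat_lit 257) (nat_lit 130) (@Lb.g g8 (@Lb.g g9 (@Lb.g g10 (@Lb.g g11 (@Lb.r r660 (@Lb.r r614 (@Lb.r r1637 (@Lb.r r1383 (@Lb.r r2692 (@Lb.d (nat_lit 10) (nat_lit 129) (nat_lit 74) (@Lb.fm (nat_lit 9) t2))))))))))))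
noncomputable def l20735 : Lb := (@Lb.d (nat_lit 128) (nat_lit 258) (nat_lit 130) (@Lb.g g9 (@Lb.g g10 (@Lb.g g11 (@Lb.r r169 (@Lb.r r264 (@Lb.r r423 (@Lb.r r98 (@Lb.d (nat_lit 98) (nat_lit 88) (nat_lit 292) (@Lb.t (@Lb.fm (nat_lit 9) t153)))))))))))
noncomputable def l20736 : Lb := (@Lb.d (nat_lit 8) (nat_lit 2) (nat_lit 64) (@Lb.g g9 (@Lb.g g11 (@Lb.r r1447 (@Lb.r r1126 (@Lb.r r24 (@Lb.d (nat_lit 514) (nat_lit 2) (nat_lit 170) (@Lb.fp (nat_lit 3) t284))))))))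
noncomputable def l20737 : Lb := (@Lb.d (nat_lit 657) (nat_lit 513) (nat_lit 513) (@Lb.r r2635 (@Lb.r r2628 (@Lb.r r1370 (@Lb.g g7 (@Lb.g g6 (@Lb.g g5 (@Lb.d (nat_lit 64) (nat_lit 129) (nat_lit 65) (@Lb.t (@Lb.fm (nat_lit 9) t242))))))))))
noncomputable def l20738 : Lb := (@Lb.d (nat_lit 409) (nat_lit 34) (nat_lit 409) (@Lb.r r402 (@Lb.r r2133 (@Lb.r r323 (@Lb.g g7 (@Lb.g g6 (@Lb.g g5 (@Lb.g g4 (@Lb.d (nat_lit 1) (nat_lit 6) (nat_lit 6) (@Lb.fm (nat_lit 9) t501))))))))))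
noncomputable def l20739 : Lb := (@Lb.d (nat_lit 130) (nat_lit 521) (nat_lit 1) (@Lb.g g8 (@Lb.g g9 (@Lb.g g10 (@Lb.r r2435 (@Lb.r r2217 (@Lb.r r1130 (@Lb.r r2664 (@Lb.d (nat_lit 164) (nat_lit 90) (nat_lit 673) (@Lb.t (@Lb.fm (nat_lit 9) t393)))))))))))
noncomputable def l20740 : Lb := (@Lb.d (nat_lit 400) (nat_lit 256) (nat_lit 601) (@Lb.r r2698 (@Lb.r r2475 (@Lb.r r2468 (@Lb.r r2393 (@Lb.g g6 (@Lb.d (nat_lit 16) (nat_lit 4) (nat_lit 1) (@Lb.t (@Lb.fp (nat_lit 3) t2083)))))))))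
noncomputable def l20741 : Lb := (@Lb.d (nat_lit 8) (nat_lit 2) (nat_lit 64) (@Lb.g g9 (@Lb.g g11 (@Lb.r r1447 (@Lb.r r1126 (@Lb.r r24 (@Lb.d (nat_lit 522) (nat_lit 1) (nat_lit 170) (@Lb.fp (nat_lit 3) t284))))))))
noncomputable def l20742 : Lb := (@Lb.g g4 (@Lb.r r609 (@Lb.r r363 (@Lb.r r356 (@Lb.r r154 (@Lb.d (nat_lit 32) (nat_lit 5) (nat_lit 101) (@Lb.t (@Lb.fm (nat_lit 3) t39))))))))
noncomputable def l20743 : Lb := (@Lb.d (nat_lit 64) (nat_lit 546) (nat_lit 130) (@Lb.g g8 (@Lb.g g9 (@Lb.g g10 (@Lb.g g11 (@Lb.r r1411 (@Lb.r r164 (@Lb.r r2197 (@Lb.r r406 (@Lb.r r2084 (@Lb.d (nat_lit 81) (nat_lit 130) (nat_lit 137) (@Lb.fm (nat_lit 9) t4166))))))))))))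
noncomputable def l20744 : Lb := (@Lb.r r134 (@Lb.r r324 (@Lb.r r411 (@Lb.r r609 (@Lb.r r36 (@Lb.d (nat_lit 8) (nat_lit 66) (nat_lit 16) (@Lb.fp (nat_lit 1) t334)))))))
noncomputable def l20745 : Lb := (@Lb.d (nat_lit 2) (nat_lit 521) (nat_lit 73) (@Lb.g g8 (@Lb.g g9 (@Lb.g g10 (@Lb.g g11 (@Lb.r r1705 (@Lb.r r299 (@Lb.r r356 (@Lb.r r586 (@Lb.d (nat_lit 337) (nat_lit 10) (nat_lit 70) (@Lb.fm (nat_lit 9) t1499)))))))))))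
noncomputable def l20746 : Lb := (@Lb.r r81 (@Lb.d (nat_lit 33) (nat_lit 264) (nat_lit 129) (@Lb.g g8 (@Lb.g g6 (@Lb.g g11 (@Lb.r r2635 (@Lb.r r2665 (@Lb.r r2660 (@Lb.d (nat_lit 678) (nat_lit 153) (nat_lit 296) (@Lb.t (@Lb.fp (nat_lit 9) t2916)))))))))))
noncomputable def l20747 : Lb := (@Lb.g g7 (@Lb.r r2661 (@Lb.r r1304 (@Lb.r r2599 (@Lb.r r134 (@Lb.d (nat_lit 512) (nat_lit 512) (nat_lit 544) (@Lb.t (@Lb.fm (nat_lit 3) t3376))))))))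
noncomputable def l20748 : Lb := (@Lb.d (nat_lit 152) (nat_lit 2) (nat_lit 73) (@Lb.g g8 (@Lb.g g9 (@Lb.g g10 (@Lb.g g11 (@Lb.r r1579 (@Lb.r r1641 (@Lb.r r2454 (@Lb.r r612 (@Lb.d (nat_lit 146) (nat_lit 152) (nat_lit 137) (@Lb.fm (nat_lit 9) t1101)))))))))))
noncomputable def l20749 : Lb := (@Lb.d (nat_lit 0) (nat_lit 258) (nat_lit 9) (@Lb.g g9 (@Lb.g g10 (@Lb.g g11 (@Lb.r r1443 (@Lb.r r1418 (@Lb.r r97 (@Lb.r r36 (@Lb.d (nat_lit 409) (nat_lit 102) (nat_lit 612) (@Lb.t (@Lb.fm (nat_lit 9) t1635)))))))))))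
noncomputable def l20750 : Lb := (@Lb.d (nat_lit 385) (nat_lit 325) (nat_lit 293) (@Lb.r r2376 (@Lb.r r2450 (@Lb.r r2389 (@Lb.g g7 (@Lb.g g6 (@Lb.g g5 (@Lb.g g4 (@Lb.d (nat_lit 33) (nat_lit 1) (nat_lit 69) (@Lb.fp (nat_lit 9) t2394))))))))))
noncomputable def l20751 : Lb := (@Lb.d (nat_lit 8) (nat_lit 260) (nat_lit 10) (@Lb.g g9 (@Lb.g g10 (@Lb.g g11 (@Lb.r r611 (@Lb.r r1610 (@Lb.r r2644 (@Lb.r r1321 (@Lb.d (nat_lit 266) (nat_lit 89) (nat_lit 644) (@Lb.t (@Lb.fm (nat_lit 9) t629)))))))))))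
noncomputable def l20752 : Lb := (@Lb.d (nat_lit 0) (nat_lit 294) (nat_lit 10) (@Lb.g g9 (@Lb.g g10 (@Lb.g g11 (@Lb.r r619 (@Lb.r r1610 (@Lb.r r2088 (@Lb.r r2201 (@Lb.d (nat_lit 660) (nat_lit 36) (nat_lit 598) (@Lb.t (@Lb.fm (nat_lit 9) t467)))))))))))
noncomputable def l20753 : Lb := (@Lb.d (nat_lit 4) (nat_lit 288) (nat_lit 2) (@Lb.g g8 (@Lb.g g9 (@Lb.g g10 (@Lb.r r275 (@Lb.r r1194 (@Lb.r r2593 (@Lb.r r2436 (@Lb.d (nat_lit 101) (nat_lit 146) (nat_lit 90) (@Lb.t (@Lb.fm (nat_lit 9) t994)))))))))))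
noncomputable def l20754 : Lb := (@Lb.r r323 (@Lb.d (nat_lit 36) (nat_lit 257) (nat_lit 18) (@Lb.g g5 (@Lb.g g10 (@Lb.r r1611 (@Lb.d (nat_lit 596) (nat_lit 1) (nat_lit 520) (@Lb.fm (nat_lit 3) t994)))))))
noncomputable def l20755 : Lb := (@Lb.d (nat_lit 130) (nat_lit 256) (nat_lit 2) (@Lb.g g8 (@Lb.g g10 (@Lb.r r279 (@Lb.r r97 (@Lb.r r146 (@Lb.r r612 (@Lb.d (nat_lit 678) (nat_lit 20) (nat_lit 154) (@Lb.fm (nat_lit 3) t40)))))))))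
noncomputable def l20756 : Lb := (@Lb.d (nat_lit 132) (nat_lit 0) (nat_lit 2) (@Lb.g g8 (@Lb.g g9 (@Lb.g g10 (@Lb.r r1194 (@Lb.r r1433 (@Lb.r r2663 (@Lb.r r1432 (@Lb.d (nat_lit 658) (nat_lit 25) (nat_lit 362) (@Lb.t (@Lb.fp (nat_lit 9) t334)))))))))))
noncomputable def l20757 : Lb := (@Lb.r r323 (@Lb.d (nat_lit 1) (nat_lit 514) (nat_lit 2) (@Lb.g g8 (@Lb.g g9 (@Lb.g g10 (@Lb.r r2193 (@Lb.r r402 (@Lb.r r1607 (@Lb.r r1288 (@Lb.d (nat_lit 165) (nat_lit 70) (nat_lit 352) (@Lb.t (@Lb.fp (nat_lit 9) t145))))))))))))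
noncomputable def l20758 : Lb := (@Lb.d (nat_lit 2) (nat_lit 2) (nat_lit 130) (@Lb.g g8 (@Lb.g g9 (@Lb.g g10 (@Lb.g g11 (@Lb.r r84 (@Lb.r r154 (@Lb.r r597 (@Lb.r r343 (@Lb.r r676 (@Lb.d (nat_lit 2) (nat_lit 2) (nat_lit 74) (@Lb.fm (nat_lit 9) t2))))))))))))
noncomputable def l20759 : Lb := (@Lb.d (nat_lit 0) (nat_lit 0) (nat_lit 136) (@Lb.g g11 (@Lb.r r1414 (@Lb.r r24 (@Lb.r r2069 (@Lb.r r36 (@Lb.d (nat_lit 5) (nat_lit 10) (nat_lit 128) (@Lb.t (@Lb.fp (nat_lit 3) t354)))))))))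
noncomputable def l20760 : Lb := (@Lb.d (nat_lit 0) (nat_lit 256) (nat_lit 136) (@Lb.g g11 (@Lb.r r1414 (@Lb.r r24 (@Lb.r r2069 (@Lb.r r36 (@Lb.d (nat_lit 0) (nat_lit 9) (nat_lit 128) (@Lb.t (@Lb.fp (nat_lit 3) t354)))))))))
noncomputable def l20761 : Lb := (@Lb.d (nat_lit 145) (nat_lit 514) (nat_lit 74) (@Lb.g g8 (@Lb.g g9 (@Lb.g g10 (@Lb.g g11 (@Lb.r r1450 (@Lb.r r2713 (@Lb.r r2587 (@Lb.r r1556 (@Lb.d (nat_lit 130) (nat_lit 97) (nat_lit 618) (@Lb.fp (nat_lit 9) t1751)))))))))))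
noncomputable def l20762 : Lb := (@Lb.d (nat_lit 153) (nat_lit 258) (nat_lit 424) (@Lb.r r1416 (@Lb.r r81 (@Lb.r r162 (@Lb.r r145 (@Lb.r r2599 (@Lb.g g11 (@Lb.g g8 (@Lb.fp (nat_lit 3) t1165)))))))))
noncomputable def l20763 : Lb := (@Lb.d (nat_lit 2) (nat_lit 8) (nat_lit 128) (@Lb.g g8 (@Lb.g g9 (@Lb.g g11 (@Lb.r r1643 (@Lb.r r82 (@Lb.r r161 (@Lb.r r1608 (@Lb.d (nat_lit 97) (nat_lit 6) (nat_lit 537) (@Lb.t (@Lb.fp (nat_lit 9) t1165)))))))))))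
noncomputable def l20764 : Lb := (@Lb.d (nat_lit 65) (nat_lit 537) (nat_lit 644) (@Lb.r r1044 (@Lb.r r281 (@Lb.r r84 (@Lb.r r2595 (@Lb.g g7 (@Lb.g g6 (@Lb.g g5 (@Lb.g g4 (@Lb.d (nat_lit 18) (nat_lit 1) (nat_lit 2) (@Lb.fm (nat_lit 9) t2113)))))))))))
noncomputable def l20765 : Lb := (@Lb.d (nat_lit 9) (nat_lit 10) (nat_lit 128) (@Lb.g g8 (@Lb.g g9 (@Lb.g g11 (@Lb.r r1643 (@Lb.r r82 (@Lb.r r161 (@Lb.r r1608 (@Lb.d (nat_lit 102) (nat_lit 4) (nat_lit 537) (@Lb.t (@Lb.fp (nat_lit 9) t1165)))))))))))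
noncomputable def l20766 : Lb := (@Lb.d (nat_lit 130) (nat_lit 9) (nat_lit 0) (@Lb.g g8 (@Lb.g g9 (@Lb.r r263 (@Lb.r r146 (@Lb.r r97 (@Lb.r r548 (@Lb.d (nat_lit 138) (nat_lit 146) (nat_lit 130) (@Lb.fm (nat_lit 3) t45)))))))))
noncomputable def l20767 : Lb := (@Lb.r r154 (@Lb.r r660 (@Lb.r r407 (@Lb.r r609 (@Lb.d (nat_lit 0) (nat_lit 65) (nat_lit 530) (@Lb.fp (nat_lit 1) t44))))))
noncomputable def l20768 : Lb := (@Lb.d (nat_lit 0) (nat_lit 74) (nat_lit 154) (@Lb.r r101 (@Lb.r r24 (@Lb.r r323 (@Lb.g g7 (@Lb.g g6 (@Lb.d (nat_lit 0) (nat_lit 0) (nat_lit 64) (@Lb.fm (nat_lit 3) t318))))))))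
noncomputable def l20769 : Lb := (@Lb.d (nat_lit 128) (nat_lit 34) (nat_lit 0) (@Lb.r r20 (@Lb.r r2145 (@Lb.r r338 (@Lb.g g11 (@Lb.g g10 (@Lb.d (nat_lit 64) (nat_lit 0) (nat_lit 513) (@Lb.fp (nat_lit 3) t971))))))))
noncomputable def l20770 : Lb := (@Lb.d (nat_lit 8) (nat_lit 514) (nat_lit 128) (@Lb.g g9 (@Lb.g g11 (@Lb.r r2651 (@Lb.r r1126 (@Lb.r r24 (@Lb.d (nat_lit 514) (nat_lit 2) (nat_lit 129) (@Lb.fm (nat_lit 3) t4167))))))))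
noncomputable def l20771 : Lb := (@Lb.d (nat_lit 521) (nat_lit 384) (nat_lit 384) (@Lb.r r20 (@Lb.r r2145 (@Lb.r r402 (@Lb.r r1291 (@Lb.g g11 (@Lb.t (@Lb.fp (nat_lit 3) t580))))))))
noncomputable def l20772 : Lb := (@Lb.r r21 (@Lb.d (nat_lit 10) (nat_lit 256) (nat_lit 130) (@Lb.g g8 (@Lb.g g10 (@Lb.g g11 (@Lb.r r2691 (@Lb.r r2705 (@Lb.r r1178 (@Lb.r r2456 (@Lb.d (nat_lit 601) (nat_lit 154) (nat_lit 346) (@Lb.t (@Lb.fp (nat_lit 9) t3111))))))))))))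
noncomputable def l20773 : Lb := (@Lb.d (nat_lit 394) (nat_lit 274) (nat_lit 513) (@Lb.r r101 (@Lb.r r2659 (@Lb.g g6 (@Lb.d (nat_lit 0) (nat_lit 4) (nat_lit 17) (@Lb.r r387 (@Lb.t (@Lb.fm (nat_lit 3) t482))))))))
noncomputable def l20774 : Lb := (@Lb.d (nat_lit 0) (nat_lit 0) (nat_lit 68) (@Lb.g g7 (@Lb.r r101 (@Lb.r r24 (@Lb.d (nat_lit 517) (nat_lit 64) (nat_lit 102) (@Lb.t (@Lb.fm (nat_lit 3) t787)))))))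
noncomputable def l20775 : Lb := (@Lb.d (nat_lit 648) (nat_lit 513) (nat_lit 256) (@Lb.r r346 (@Lb.r r539 (@Lb.r r532 (@Lb.r r277 (@Lb.g g7 (@Lb.d (nat_lit 64) (nat_lit 0) (nat_lit 64) (@Lb.t (@Lb.fp (nat_lit 3) t3297)))))))))
noncomputable def l20776 : Lb := (@Lb.r r82 (@Lb.d (nat_lit 34) (nat_lit 514) (nat_lit 128) (@Lb.g g8 (@Lb.g g9 (@Lb.g g11 (@Lb.r r1571 (@Lb.r r582 (@Lb.r r1177 (@Lb.r r408 (@Lb.d (nat_lit 338) (nat_lit 24) (nat_lit 586) (@Lb.t (@Lb.fm (nat_lit 9) t594))))))))))))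
noncomputable def l20777 : Lb := (@Lb.d (nat_lit 328) (nat_lit 337) (nat_lit 128) (@Lb.r r101 (@Lb.r r1362 (@Lb.g g7 (@Lb.g g6 (@Lb.d (nat_lit 0) (nat_lit 0) (nat_lit 134) (@Lb.fp (nat_lit 3) t4168)))))))
noncomputable def l20778 : Lb := (@Lb.d (nat_lit 0) (nat_lit 520) (nat_lit 2) (@Lb.g g8 (@Lb.g g10 (@Lb.r r101 (@Lb.r r24 (@Lb.d (nat_lit 0) (nat_lit 0) (nat_lit 2) (@Lb.fm (nat_lit 3) t145)))))))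
noncomputable def l20779 : Lb := (@Lb.d (nat_lit 0) (nat_lit 8) (nat_lit 2) (@Lb.g g10 (@Lb.g g7 (@Lb.r r101 (@Lb.r r24 (@Lb.d (nat_lit 0) (nat_lit 0) (nat_lit 68) (@Lb.fp (nat_lit 3) t312)))))))
noncomputable def l20780 : Lb := (@Lb.d (nat_lit 522) (nat_lit 389) (nat_lit 385) (@Lb.r r1044 (@Lb.r r25 (@Lb.r r148 (@Lb.r r1430 (@Lb.g g11 (@Lb.t (@Lb.fm (nat_lit 3) t4169))))))))
noncomputable def l20781 : Lb := (@Lb.r r82 (@Lb.d (nat_lit 9) (nat_lit 258) (nat_lit 0) (@Lb.g g8 (@Lb.g g9 (@Lb.r r2154 (@Lb.r r2073 (@Lb.r r24 (@Lb.d (nat_lit 516) (nat_lit 129) (nat_lit 0) (@Lb.fp (nat_lit 3) t3937)))))))))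
noncomputable def l20782 : Lb := (@Lb.d (nat_lit 10) (nat_lit 514) (nat_lit 130) (@Lb.g g8 (@Lb.g g9 (@Lb.g g10 (@Lb.g g11 (@Lb.r r404 (@Lb.r r1563 (@Lb.r r2453 (@Lb.r r2390 (@Lb.r r1700 (@Lb.d (nat_lit 104) (nat_lit 2) (nat_lit 665) (@Lb.fm (nat_lit 9) t469))))))))))))
noncomputable def l20783 : Lb := (@Lb.d (nat_lit 32) (nat_lit 265) (nat_lit 129) (@Lb.g g8 (@Lb.g g9 (@Lb.g g10 (@Lb.g g11 (@Lb.r r342 (@Lb.r r663 (@Lb.r r2657 (@Lb.r r1560 (@Lb.d (nat_lit 168) (nat_lit 137) (nat_lit 293) (@Lb.fm (nat_lit 9) t4170)))))))))))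
noncomputable def l20784 : Lb := (@Lb.r r86 (@Lb.d (nat_lit 9) (nat_lit 2) (nat_lit 128) (@Lb.g g8 (@Lb.g g9 (@Lb.g g11 (@Lb.r r2731 (@Lb.r r2626 (@Lb.r r164 (@Lb.r r2085 (@Lb.d (nat_lit 265) (nat_lit 137) (nat_lit 68) (@Lb.t (@Lb.fm (nat_lit 9) t4171))))))))))))
noncomputable def l20785 : Lb := (@Lb.r r21 (@Lb.r r70 (@Lb.d (nat_lit 512) (nat_lit 512) (nat_lit 64) (@Lb.g g8 (@Lb.g g11 (@Lb.r r2567 (@Lb.r r74 (@Lb.r r25 (@Lb.d (nat_lit 320) (nat_lit 0) (nat_lit 576) (@Lb.fp (nat_lit 3) t1071))))))))))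
noncomputable def l20786 : Lb := (@Lb.d (nat_lit 32) (nat_lit 512) (nat_lit 73) (@Lb.g g10 (@Lb.g g11 (@Lb.r r1321 (@Lb.r r1380 (@Lb.r r2715 (@Lb.r r74 (@Lb.d (nat_lit 18) (nat_lit 170) (nat_lit 612) (@Lb.fm (nat_lit 3) t4172)))))))))
noncomputable def l20787 : Lb := (@Lb.r r2118 (@Lb.r r24 (@Lb.d (nat_lit 514) (nat_lit 65) (nat_lit 0) (@Lb.fm (nat_lit 1) t4173))))
noncomputable def l20788 : Lb := (@Lb.d (nat_lit 33) (nat_lit 521) (nat_lit 129) (@Lb.g g8 (@Lb.g g9 (@Lb.g g10 (@Lb.g g11 (@Lb.r r342 (@Lb.r r663 (@Lb.r r2657 (@Lb.r r1560 (@Lb.d (nat_lit 169) (nat_lit 137) (nat_lit 293) (@Lb.fm (nat_lit 9) t4170)))))))))))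
noncomputable def l20789 : Lb := (@Lb.d (nat_lit 522) (nat_lit 2) (nat_lit 0) (@Lb.r r21 (@Lb.r r70 (@Lb.g g8 (@Lb.d (nat_lit 258) (nat_lit 0) (nat_lit 0) (@Lb.r r74 (@Lb.r r25 (@Lb.t (@Lb.fp (nat_lit 3) t1728)))))))))
noncomputable def l20790 : Lb := (@Lb.d (nat_lit 5) (nat_lit 257) (nat_lit 0) (@Lb.g g7 (@Lb.g g4 (@Lb.fm (nat_lit 3) t2))))
noncomputable def l20791 : Lb := (@Lb.d (nat_lit 5) (nat_lit 2) (nat_lit 168) (@Lb.r r609 (@Lb.r r363 (@Lb.r r328 (@Lb.g g7 (@Lb.g g6 (@Lb.d (nat_lit 16) (nat_lit 0) (nat_lit 81) (@Lb.fm (nat_lit 3) t1043))))))))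
noncomputable def l20792 : Lb := (@Lb.d (nat_lit 4) (nat_lit 257) (nat_lit 0) (@Lb.g g8 (@Lb.d (nat_lit 258) (nat_lit 0) (nat_lit 0) (@Lb.r r1098 (@Lb.r r1049 (@Lb.t (@Lb.fp (nat_lit 3) t994)))))))
noncomputable def l20793 : Lb := (@Lb.d (nat_lit 2) (nat_lit 258) (nat_lit 130) (@Lb.g g8 (@Lb.g g9 (@Lb.g g10 (@Lb.g g11 (@Lb.r r292 (@Lb.r r539 (@Lb.r r405 (@Lb.r r86 (@Lb.r r164 (@Lb.d (nat_lit 9) (nat_lit 2) (nat_lit 90) (@Lb.fm (nat_lit 9) t2))))))))))))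
noncomputable def l20794 : Lb := (@Lb.d (nat_lit 656) (nat_lit 357) (nat_lit 90) (@Lb.r r673 (@Lb.r r355 (@Lb.g g10 (@Lb.g g5 (@Lb.d (nat_lit 0) (nat_lit 17) (nat_lit 34) (@Lb.r r387 (@Lb.fm (nat_lit 3) t1889))))))))
noncomputable def l20795 : Lb := (@Lb.r r323 (@Lb.d (nat_lit 18) (nat_lit 4) (nat_lit 1) (@Lb.g g8 (@Lb.g g9 (@Lb.g g10 (@Lb.r r1379 (@Lb.r r2194 (@Lb.r r149 (@Lb.r r1060 (@Lb.d (nat_lit 281) (nat_lit 130) (nat_lit 1) (@Lb.t (@Lb.fp (nat_lit 9) t601))))))))))))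
noncomputable def l20796 : Lb := (@Lb.d (nat_lit 2) (nat_lit 514) (nat_lit 8) (@Lb.g g8 (@Lb.g g9 (@Lb.g g10 (@Lb.r r1543 (@Lb.r r1429 (@Lb.r r2660 (@Lb.r r1690 (@Lb.d (nat_lit 601) (nat_lit 34) (nat_lit 281) (@Lb.t (@Lb.fm (nat_lit 9) t181)))))))))))
noncomputable def l20797 : Lb := (@Lb.d (nat_lit 9) (nat_lit 320) (nat_lit 0) (@Lb.r r2069 (@Lb.r r2118 (@Lb.g g8 (@Lb.d (nat_lit 2) (nat_lit 0) (nat_lit 0) (@Lb.t (@Lb.fp (nat_lit 3) t4174)))))))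
noncomputable def l20798 : Lb := (@Lb.d (nat_lit 32) (nat_lit 256) (nat_lit 2) (@Lb.g g10 (@Lb.r r2579 (@Lb.r r596 (@Lb.r r74 (@Lb.r r289 (@Lb.d (nat_lit 106) (nat_lit 129) (nat_lit 578) (@Lb.t (@Lb.fp (nat_lit 3) t2645)))))))))
noncomputable def l20799 : Lb := (@Lb.d (nat_lit 40) (nat_lit 514) (nat_lit 130) (@Lb.g g9 (@Lb.g g10 (@Lb.g g11 (@Lb.r r2695 (@Lb.r r1352 (@Lb.r r2390 (@Lb.r r409 (@Lb.d (nat_lit 137) (nat_lit 130) (nat_lit 330) (@Lb.t (@Lb.fm (nat_lit 9) t1087)))))))))))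
noncomputable def l20800 : Lb := (@Lb.d (nat_lit 8) (nat_lit 2) (nat_lit 2) (@Lb.g g9 (@Lb.g g10 (@Lb.r r1703 (@Lb.r r2658 (@Lb.r r1304 (@Lb.r r2661 (@Lb.d (nat_lit 661) (nat_lit 138) (nat_lit 416) (@Lb.fp (nat_lit 3) t638)))))))))
noncomputable def l20801 : Lb := (@Lb.d (nat_lit 2) (nat_lit 546) (nat_lit 2) (@Lb.g g8 (@Lb.g g9 (@Lb.g g10 (@Lb.r r1194 (@Lb.r r2468 (@Lb.r r1307 (@Lb.r r1573 (@Lb.d (nat_lit 389) (nat_lit 26) (nat_lit 585) (@Lb.t (@Lb.fm (nat_lit 9) t1406)))))))))))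
noncomputable def l20802 : Lb := (@Lb.r r82 (@Lb.d (nat_lit 0) (nat_lit 641) (nat_lit 0) (@Lb.g g5 (@Lb.r r98 (@Lb.d (nat_lit 5) (nat_lit 64) (nat_lit 0) (@Lb.t (@Lb.fm (nat_lit 3) t4175)))))))
noncomputable def l20803 : Lb := (@Lb.d (nat_lit 40) (nat_lit 258) (nat_lit 162) (@Lb.g g9 (@Lb.g g10 (@Lb.g g11 (@Lb.r r328 (@Lb.r r407 (@Lb.r r609 (@Lb.d (nat_lit 10) (nat_lit 8) (nat_lit 130) (@Lb.t (@Lb.fm (nat_lit 9) t354))))))))))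
noncomputable def l20804 : Lb := (@Lb.g g7 (@Lb.r r101 (@Lb.r r402 (@Lb.d (nat_lit 512) (nat_lit 344) (nat_lit 354) (@Lb.t (@Lb.fm (nat_lit 3) t452))))))
noncomputable def l20805 : Lb := (@Lb.d (nat_lit 4) (nat_lit 0) (nat_lit 73) (@Lb.g g8 (@Lb.g g9 (@Lb.g g10 (@Lb.g g11 (@Lb.r r2691 (@Lb.r r297 (@Lb.r r360 (@Lb.r r582 (@Lb.r r2180 (@Lb.d (nat_lit 641) (nat_lit 10) (nat_lit 329) (@Lb.fm (nat_lit 9) t242))))))))))))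
noncomputable def l20806 : Lb := (@Lb.d (nat_lit 2) (nat_lit 514) (nat_lit 73) (@Lb.g g8 (@Lb.g g9 (@Lb.g g10 (@Lb.g g11 (@Lb.r r427 (@Lb.r r1606 (@Lb.r r297 (@Lb.r r2436 (@Lb.d (nat_lit 89) (nat_lit 70) (nat_lit 545) (@Lb.fm (nat_lit 9) t4176)))))))))))
noncomputable def l20807 : Lb := (@Lb.d (nat_lit 33) (nat_lit 2) (nat_lit 130) (@Lb.g g8 (@Lb.g g9 (@Lb.g g10 (@Lb.g g11 (@Lb.r r2731 (@Lb.r r680 (@Lb.r r138 (@Lb.r r97 (@Lb.r r1060 (@Lb.d (nat_lit 277) (nat_lit 102) (nat_lit 145) (@Lb.fp (nat_lit 9) t467))))))))))))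
noncomputable def l20808 : Lb := (@Lb.d (nat_lit 0) (nat_lit 512) (nat_lit 128) (@Lb.g g11 (@Lb.r r2626 (@Lb.r r579 (@Lb.r r2341 (@Lb.r r24 (@Lb.d (nat_lit 577) (nat_lit 0) (nat_lit 600) (@Lb.t (@Lb.fm (nat_lit 3) t1644)))))))))
noncomputable def l20809 : Lb := (@Lb.r r386 (@Lb.r r2371 (@Lb.r r578 (@Lb.r r2341 (@Lb.r r24 (@Lb.d (nat_lit 577) (nat_lit 256) (nat_lit 138) (@Lb.fm (nat_lit 1) t1644)))))))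
noncomputable def l20810 : Lb := (@Lb.g g7 (@Lb.r r2311 (@Lb.r r101 (@Lb.r r2454 (@Lb.d (nat_lit 646) (nat_lit 536) (nat_lit 610) (@Lb.t (@Lb.fm (nat_lit 3) t4177)))))))
noncomputable def l20811 : Lb := (@Lb.r r70 (@Lb.d (nat_lit 5) (nat_lit 5) (nat_lit 128) (@Lb.g g8 (@Lb.g g5 (@Lb.g g11 (@Lb.r r1691 (@Lb.r r1610 (@Lb.r r612 (@Lb.d (nat_lit 0) (nat_lit 153) (nat_lit 665) (@Lb.t (@Lb.fm (nat_lit 9) t50)))))))))))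
noncomputable def l20812 : Lb := (@Lb.d (nat_lit 2) (nat_lit 550) (nat_lit 64) (@Lb.g g8 (@Lb.g g9 (@Lb.g g10 (@Lb.g g11 (@Lb.r r2595 (@Lb.r r386 (@Lb.r r612 (@Lb.r r533 (@Lb.r r1060 (@Lb.d (nat_lit 641) (nat_lit 10) (nat_lit 601) (@Lb.fp (nat_lit 9) t4178))))))))))))
noncomputable def l20813 : Lb := (@Lb.d (nat_lit 2) (nat_lit 33) (nat_lit 132) (@Lb.g g8 (@Lb.g g9 (@Lb.g g10 (@Lb.g g11 (@Lb.r r2729 (@Lb.r r427 (@Lb.r r2468 (@Lb.r r2438 (@Lb.d (nat_lit 353) (nat_lit 10) (nat_lit 105) (@Lb.fp (nat_lit 9) t1246)))))))))))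
noncomputable def l20814 : Lb := (@Lb.d (nat_lit 4) (nat_lit 513) (nat_lit 0) (@Lb.g g5 (@Lb.g g7 (@Lb.r r1126 (@Lb.r r24 (@Lb.d (nat_lit 18) (nat_lit 1) (nat_lit 101) (@Lb.fp (nat_lit 3) t282)))))))
noncomputable def l20815 : Lb := (@Lb.d (nat_lit 0) (nat_lit 514) (nat_lit 129) (@Lb.g g9 (@Lb.g g10 (@Lb.g g11 (@Lb.r r2595 (@Lb.r r2450 (@Lb.r r2657 (@Lb.d (nat_lit 5) (nat_lit 36) (nat_lit 137) (@Lb.t (@Lb.fp (nat_lit 9) t4179))))))))))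
noncomputable def l20816 : Lb := (@Lb.d (nat_lit 5) (nat_lit 256) (nat_lit 2) (@Lb.g g4 (@Lb.g g10 (@Lb.r r2193 (@Lb.r r146 (@Lb.d (nat_lit 0) (nat_lit 72) (nat_lit 2) (@Lb.fm (nat_lit 3) t1404)))))))
noncomputable def l20817 : Lb := (@Lb.d (nat_lit 2) (nat_lit 97) (nat_lit 0) (@Lb.g g8 (@Lb.g g5 (@Lb.r r322 (@Lb.r r1667 (@Lb.r r578 (@Lb.r r24 (@Lb.d (nat_lit 10) (nat_lit 10) (nat_lit 1) (@Lb.fp (nat_lit 3) t40)))))))))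
noncomputable def l20818 : Lb := (@Lb.d (nat_lit 0) (nat_lit 512) (nat_lit 2) (@Lb.g g10 (@Lb.r r2193 (@Lb.r r146 (@Lb.d (nat_lit 529) (nat_lit 72) (nat_lit 2) (@Lb.t (@Lb.fm (nat_lit 3) t1404)))))))
noncomputable def l20819 : Lb := (@Lb.d (nat_lit 608) (nat_lit 645) (nat_lit 152) (@Lb.r r2129 (@Lb.r r354 (@Lb.g g11 (@Lb.g g5 (@Lb.d (nat_lit 0) (nat_lit 5) (nat_lit 384) (@Lb.r r578 (@Lb.fp (nat_lit 3) t1889))))))))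
noncomputable def l20820 : Lb := (@Lb.d (nat_lit 0) (nat_lit 512) (nat_lit 2) (@Lb.g g4 (@Lb.g g10 (@Lb.r r2435 (@Lb.r r386 (@Lb.d (nat_lit 0) (nat_lit 0) (nat_lit 420) (@Lb.fm (nat_lit 3) t2)))))))
noncomputable def l20821 : Lb := (@Lb.d (nat_lit 32) (nat_lit 514) (nat_lit 130) (@Lb.g g8 (@Lb.g g9 (@Lb.g g10 (@Lb.g g11 (@Lb.r r2667 (@Lb.r r618 (@Lb.r r97 (@Lb.r r1624 (@Lb.d (nat_lit 392) (nat_lit 97) (nat_lit 266) (@Lb.fm (nat_lit 9) t2416)))))))))))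
noncomputable def l20822 : Lb := (@Lb.d (nat_lit 0) (nat_lit 512) (nat_lit 128) (@Lb.g g10 (@Lb.g g11 (@Lb.r r2626 (@Lb.r r579 (@Lb.d (nat_lit 0) (nat_lit 0) (nat_lit 600) (@Lb.fp (nat_lit 3) t2)))))))
noncomputable def l20823 : Lb := (@Lb.d (nat_lit 0) (nat_lit 512) (nat_lit 128) (@Lb.g g10 (@Lb.g g11 (@Lb.r r387 (@Lb.r r402 (@Lb.r r101 (@Lb.d (nat_lit 0) (nat_lit 128) (nat_lit 0) (@Lb.fm (nat_lit 3) t240))))))))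
noncomputable def l20824 : Lb := (@Lb.r r331 (@Lb.d (nat_lit 32) (nat_lit 258) (nat_lit 2) (@Lb.g g8 (@Lb.g g9 (@Lb.g g10 (@Lb.r r2454 (@Lb.r r1371 (@Lb.r r549 (@Lb.r r2708 (@Lb.d (nat_lit 296) (nat_lit 102) (nat_lit 150) (@Lb.t (@Lb.fm (nat_lit 9) t1039))))))))))))
noncomputable def l20825 : Lb := (@Lb.r r2118 (@Lb.r r24 (@Lb.d (nat_lit 272) (nat_lit 328) (nat_lit 16) (@Lb.fm (nat_lit 1) t3589))))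
noncomputable def l20826 : Lb := (@Lb.d (nat_lit 9) (nat_lit 260) (nat_lit 128) (@Lb.g g8 (@Lb.g g9 (@Lb.g g10 (@Lb.g g11 (@Lb.r r342 (@Lb.r r2712 (@Lb.r r2587 (@Lb.r r1321 (@Lb.d (nat_lit 256) (nat_lit 97) (nat_lit 586) (@Lb.fm (nat_lit 9) t74)))))))))))
noncomputable def l20827 : Lb := (@Lb.r r263 (@Lb.d (nat_lit 2) (nat_lit 258) (nat_lit 2) (@Lb.g g8 (@Lb.g g9 (@Lb.g g10 (@Lb.r r601 (@Lb.r r1555 (@Lb.r r386 (@Lb.r r580 (@Lb.d (nat_lit 385) (nat_lit 162) (nat_lit 532) (@Lb.t (@Lb.fm (nat_lit 9) t4180))))))))))))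
noncomputable def l20828 : Lb := (@Lb.d (nat_lit 32) (nat_lit 8) (nat_lit 2) (@Lb.g g10 (@Lb.r r1380 (@Lb.r r2715 (@Lb.r r357 (@Lb.r r666 (@Lb.d (nat_lit 74) (nat_lit 105) (nat_lit 101) (@Lb.t (@Lb.fm (nat_lit 3) t127)))))))))
noncomputable def l20829 : Lb := (@Lb.r r82 (@Lb.d (nat_lit 4) (nat_lit 546) (nat_lit 64) (@Lb.g g8 (@Lb.g g9 (@Lb.g g11 (@Lb.r r1571 (@Lb.r r2152 (@Lb.r r2438 (@Lb.r r145 (@Lb.d (nat_lit 5) (nat_lit 80) (nat_lit 152) (@Lb.t (@Lb.fp (nat_lit 9) t2317))))))))))))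
noncomputable def l20830 : Lb := (@Lb.r r70 (@Lb.d (nat_lit 385) (nat_lit 258) (nat_lit 64) (@Lb.g g8 (@Lb.g g9 (@Lb.g g11 (@Lb.r r2347 (@Lb.r r1602 (@Lb.r r25 (@Lb.d (nat_lit 9) (nat_lit 40) (nat_lit 130) (@Lb.t (@Lb.fm (nat_lit 9) t394)))))))))))
noncomputable def l20831 : Lb := (@Lb.d (nat_lit 32) (nat_lit 8) (nat_lit 1) (@Lb.g g10 (@Lb.r r356 (@Lb.r r2405 (@Lb.r r2650 (@Lb.d (nat_lit 425) (nat_lit 37) (nat_lit 106) (@Lb.t (@Lb.fm (nat_lit 3) t322))))))))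
noncomputable def l20832 : Lb := (@Lb.d (nat_lit 144) (nat_lit 522) (nat_lit 128) (@Lb.r r402 (@Lb.r r101 (@Lb.g g11 (@Lb.t (@Lb.fp (nat_lit 3) t1113))))))
noncomputable def l20833 : Lb := (@Lb.d (nat_lit 0) (nat_lit 512) (nat_lit 73) (@Lb.g g10 (@Lb.g g11 (@Lb.r r419 (@Lb.r r1620 (@Lb.r r409 (@Lb.r r2458 (@Lb.d (nat_lit 404) (nat_lit 25) (nat_lit 297) (@Lb.fp (nat_lit 3) t3673)))))))))
noncomputable def l20834 : Lb := (@Lb.d (nat_lit 0) (nat_lit 521) (nat_lit 74) (@Lb.r r402 (@Lb.g g11 (@Lb.g g9 (@Lb.d (nat_lit 0) (nat_lit 10) (nat_lit 0) (@Lb.fp (nat_lit 3) t1176))))))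
noncomputable def l20835 : Lb := (@Lb.d (nat_lit 298) (nat_lit 106) (nat_lit 361) (@Lb.r r101 (@Lb.r r24 (@Lb.r r386 (@Lb.r r339 (@Lb.g g7 (@Lb.g g6 (@Lb.g g5 (@Lb.d (nat_lit 4) (nat_lit 1) (nat_lit 65) (@Lb.t (@Lb.fm (nat_lit 9) t208)))))))))))
noncomputable def l20836 : Lb := (@Lb.r r24 (@Lb.r r101 (@Lb.d (nat_lit 1) (nat_lit 666) (nat_lit 394) (@Lb.fp (nat_lit 1) t1174))))
noncomputable def l20837 : Lb := (@Lb.d (nat_lit 425) (nat_lit 64) (nat_lit 408) (@Lb.r r1412 (@Lb.r r427 (@Lb.r r353 (@Lb.r r1618 (@Lb.g g7 (@Lb.d (nat_lit 0) (nat_lit 16) (nat_lit 132) (@Lb.t (@Lb.fp (nat_lit 3) t3673)))))))))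
noncomputable def l20838 : Lb := (@Lb.d (nat_lit 0) (nat_lit 0) (nat_lit 66) (@Lb.g g8 (@Lb.g g10 (@Lb.g g11 (@Lb.r r677 (@Lb.r r2727 (@Lb.r r1638 (@Lb.r r24 (@Lb.d (nat_lit 674) (nat_lit 0) (nat_lit 585) (@Lb.t (@Lb.fp (nat_lit 9) t4181)))))))))))
noncomputable def l20839 : Lb := (@Lb.d (nat_lit 80) (nat_lit 360) (nat_lit 418) (@Lb.r r101 (@Lb.r r2403 (@Lb.g g10 (@Lb.d (nat_lit 0) (nat_lit 8) (nat_lit 2) (@Lb.t (@Lb.fm (nat_lit 3) t4182)))))))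
noncomputable def l20840 : Lb := (@Lb.d (nat_lit 0) (nat_lit 9) (nat_lit 2) (@Lb.g g9 (@Lb.g g10 (@Lb.g g7 (@Lb.r r2438 (@Lb.r r97 (@Lb.r r24 (@Lb.d (nat_lit 280) (nat_lit 21) (nat_lit 281) (@Lb.t (@Lb.fm (nat_lit 9) t551))))))))))
noncomputable def l20841 : Lb := (@Lb.d (nat_lit 4) (nat_lit 290) (nat_lit 66) (@Lb.g g8 (@Lb.g g9 (@Lb.g g10 (@Lb.g g11 (@Lb.r r611 (@Lb.r r2630 (@Lb.r r2201 (@Lb.r r1416 (@Lb.d (nat_lit 410) (nat_lit 32) (nat_lit 618) (@Lb.fp (nat_lit 9) t929)))))))))))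
noncomputable def l20842 : Lb := (@Lb.d (nat_lit 0) (nat_lit 516) (nat_lit 1) (@Lb.g g9 (@Lb.g g10 (@Lb.g g7 (@Lb.r r2438 (@Lb.r r97 (@Lb.r r24 (@Lb.d (nat_lit 282) (nat_lit 21) (nat_lit 281) (@Lb.t (@Lb.fm (nat_lit 9) t4183))))))))))
noncomputable def l20843 : Lb := (@Lb.d (nat_lit 2) (nat_lit 9) (nat_lit 97) (@Lb.g g8 (@Lb.g g9 (@Lb.g g6 (@Lb.g g11 (@Lb.r r601 (@Lb.r r2323 (@Lb.r r2577 (@Lb.r r2564 (@Lb.d (nat_lit 162) (nat_lit 129) (nat_lit 416) (@Lb.fm (nat_lit 9) t2119)))))))))))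
noncomputable def l20844 : Lb := (@Lb.d (nat_lit 144) (nat_lit 521) (nat_lit 9) (@Lb.g g8 (@Lb.g g9 (@Lb.g g10 (@Lb.g g11 (@Lb.r r1627 (@Lb.r r610 (@Lb.r r2201 (@Lb.r r2180 (@Lb.d (nat_lit 597) (nat_lit 25) (nat_lit 580) (@Lb.fm (nat_lit 9) t4184)))))))))))
noncomputable def l20845 : Lb := (@Lb.d (nat_lit 0) (nat_lit 2) (nat_lit 73) (@Lb.g g9 (@Lb.g g10 (@Lb.g g11 (@Lb.r r2691 (@Lb.r r2376 (@Lb.r r1158 (@Lb.r r97 (@Lb.d (nat_lit 640) (nat_lit 138) (nat_lit 70) (@Lb.t (@Lb.fm (nat_lit 9) t2597)))))))))))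
noncomputable def l20846 : Lb := (@Lb.d (nat_lit 2) (nat_lit 258) (nat_lit 130) (@Lb.g g8 (@Lb.g g9 (@Lb.g g10 (@Lb.g g11 (@Lb.r r1426 (@Lb.r r1371 (@Lb.r r2457 (@Lb.r r2436 (@Lb.d (nat_lit 98) (nat_lit 4) (nat_lit 680) (@Lb.fm (nat_lit 9) t1003)))))))))))
noncomputable def l20847 : Lb := (@Lb.d (nat_lit 0) (nat_lit 514) (nat_lit 130) (@Lb.g g8 (@Lb.g g9 (@Lb.g g10 (@Lb.g g11 (@Lb.r r610 (@Lb.r r1607 (@Lb.r r292 (@Lb.r r1045 (@Lb.r r2084 (@Lb.d (nat_lit 9) (nat_lit 161) (nat_lit 640) (@Lb.fm (nat_lit 9) t2815))))))))))))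
noncomputable def l20848 : Lb := (@Lb.d (nat_lit 2) (nat_lit 514) (nat_lit 66) (@Lb.g g8 (@Lb.g g9 (@Lb.g g10 (@Lb.g g11 (@Lb.r r1602 (@Lb.r r2647 (@Lb.r r2457 (@Lb.r r2436 (@Lb.d (nat_lit 612) (nat_lit 128) (nat_lit 649) (@Lb.fm (nat_lit 9) t2211)))))))))))
noncomputable def l20849 : Lb := (@Lb.r r275 (@Lb.d (nat_lit 0) (nat_lit 34) (nat_lit 2) (@Lb.g g8 (@Lb.g g9 (@Lb.g g10 (@Lb.r r419 (@Lb.r r1702 (@Lb.r r1636 (@Lb.r r1557 (@Lb.d (nat_lit 390) (nat_lit 40) (nat_lit 642) (@Lb.t (@Lb.fp (nat_lit 9) t1001))))))))))))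
noncomputable def l20850 : Lb := (@Lb.d (nat_lit 36) (nat_lit 512) (nat_lit 128) (@Lb.g g8 (@Lb.g g9 (@Lb.g g11 (@Lb.r r1366 (@Lb.r r2467 (@Lb.r r153 (@Lb.r r1560 (@Lb.d (nat_lit 424) (nat_lit 98) (nat_lit 274) (@Lb.t (@Lb.fp (nat_lit 9) t282)))))))))))
noncomputable def l20851 : Lb := (@Lb.r r275 (@Lb.d (nat_lit 0) (nat_lit 2) (nat_lit 2) (@Lb.g g8 (@Lb.g g9 (@Lb.g g10 (@Lb.r r595 (@Lb.r r2154 (@Lb.r r2152 (@Lb.r r2073 (@Lb.d (nat_lit 586) (nat_lit 161) (nat_lit 256) (@Lb.t (@Lb.fm (nat_lit 9) t854))))))))))))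
noncomputable def l20852 : Lb := (@Lb.d (nat_lit 32) (nat_lit 0) (nat_lit 130) (@Lb.g g10 (@Lb.g g11 (@Lb.r r2467 (@Lb.r r2197 (@Lb.r r100 (@Lb.r r74 (@Lb.d (nat_lit 545) (nat_lit 86) (nat_lit 421) (@Lb.fm (nat_lit 3) t1080)))))))))
noncomputable def l20853 : Lb := (@Lb.d (nat_lit 9) (nat_lit 264) (nat_lit 2) (@Lb.g g8 (@Lb.g g10 (@Lb.g g11 (@Lb.r r2459 (@Lb.r r101 (@Lb.d (nat_lit 25) (nat_lit 64) (nat_lit 2) (@Lb.t (@Lb.fp (nat_lit 9) t825)))))))))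
noncomputable def l20854 : Lb := (@Lb.d (nat_lit 98) (nat_lit 388) (nat_lit 662) (@Lb.r r1297 (@Lb.r r611 (@Lb.r r545 (@Lb.r r2214 (@Lb.g g7 (@Lb.g g6 (@Lb.g g5 (@Lb.g g8 (@Lb.d (nat_lit 329) (nat_lit 0) (nat_lit 129) (@Lb.fp (nat_lit 9) t3469)))))))))))
noncomputable def l20855 : Lb := (@Lb.r r263 (@Lb.d (nat_lit 2) (nat_lit 521) (nat_lit 1) (@Lb.g g8 (@Lb.g g9 (@Lb.g g10 (@Lb.r r1689 (@Lb.r r343 (@Lb.r r2698 (@Lb.r r72 (@Lb.d (nat_lit 146) (nat_lit 0) (nat_lit 290) (@Lb.t (@Lb.fm (nat_lit 9) t1893))))))))))))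
noncomputable def l20856 : Lb := (@Lb.d (nat_lit 25) (nat_lit 512) (nat_lit 161) (@Lb.r r89 (@Lb.r r1112 (@Lb.r r422 (@Lb.g g11 (@Lb.g g5 (@Lb.d (nat_lit 4) (nat_lit 18) (nat_lit 264) (@Lb.r r578 (@Lb.fp (nat_lit 3) t495)))))))))
noncomputable def l20857 : Lb := (@Lb.d (nat_lit 136) (nat_lit 256) (nat_lit 130) (@Lb.g g8 (@Lb.g g10 (@Lb.g g11 (@Lb.r r2467 (@Lb.r r2193 (@Lb.r r1626 (@Lb.r r1604 (@Lb.d (nat_lit 152) (nat_lit 38) (nat_lit 22) (@Lb.t (@Lb.fm (nat_lit 9) t495)))))))))))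
noncomputable def l20858 : Lb := (@Lb.d (nat_lit 400) (nat_lit 0) (nat_lit 401) (@Lb.g g6 (@Lb.t (@Lb.fm (nat_lit 3) t1166))))
noncomputable def l20859 : Lb := (@Lb.d (nat_lit 146) (nat_lit 514) (nat_lit 10) (@Lb.g g8 (@Lb.g g9 (@Lb.g g10 (@Lb.g g11 (@Lb.r r427 (@Lb.r r1169 (@Lb.r r356 (@Lb.r r1178 (@Lb.r r132 (@Lb.d (nat_lit 514) (nat_lit 5) (nat_lit 408) (@Lb.fm (nat_lit 9) t2185))))))))))))
noncomputable def l20860 : Lb := (@Lb.d (nat_lit 409) (nat_lit 550) (nat_lit 281) (@Lb.r r537 (@Lb.r r667 (@Lb.r r582 (@Lb.g g7 (@Lb.g g5 (@Lb.g g4 (@Lb.d (nat_lit 1) (nat_lit 21) (nat_lit 132) (@Lb.r r98 (@Lb.t (@Lb.fm (nat_lit 9) t3514)))))))))))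
noncomputable def l20861 : Lb := (@Lb.d (nat_lit 146) (nat_lit 514) (nat_lit 10) (@Lb.g g8 (@Lb.g g9 (@Lb.g g10 (@Lb.g g11 (@Lb.r r427 (@Lb.r r426 (@Lb.r r409 (@Lb.r r388 (@Lb.d (nat_lit 105) (nat_lit 1) (nat_lit 136) (@Lb.fm (nat_lit 9) t4185)))))))))))
noncomputable def l20862 : Lb := (@Lb.r r20 (@Lb.d (nat_lit 0) (nat_lit 294) (nat_lit 10) (@Lb.g g9 (@Lb.g g10 (@Lb.g g11 (@Lb.r r419 (@Lb.r r422 (@Lb.r r401 (@Lb.d (nat_lit 88) (nat_lit 25) (nat_lit 136) (@Lb.t (@Lb.fp (nat_lit 9) t1531)))))))))))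
noncomputable def l20863 : Lb := (@Lb.d (nat_lit 130) (nat_lit 0) (nat_lit 64) (@Lb.g g8 (@Lb.g g11 (@Lb.r r1291 (@Lb.r r2630 (@Lb.r r2581 (@Lb.r r292 (@Lb.d (nat_lit 581) (nat_lit 33) (nat_lit 128) (@Lb.fm (nat_lit 3) t2538)))))))))
noncomputable def l20864 : Lb := (@Lb.d (nat_lit 520) (nat_lit 294) (nat_lit 513) (@Lb.r r2452 (@Lb.r r89 (@Lb.r r1611 (@Lb.r r358 (@Lb.g g7 (@Lb.g g6 (@Lb.g g4 (@Lb.d (nat_lit 5) (nat_lit 0) (nat_lit 65) (@Lb.t (@Lb.fm (nat_lit 9) t2521)))))))))))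
noncomputable def l20865 : Lb := (@Lb.d (nat_lit 144) (nat_lit 258) (nat_lit 10) (@Lb.g g8 (@Lb.g g9 (@Lb.g g10 (@Lb.g g11 (@Lb.r r1291 (@Lb.r r340 (@Lb.r r1194 (@Lb.r r1177 (@Lb.r r1156 (@Lb.d (nat_lit 522) (nat_lit 1) (nat_lit 424) (@Lb.fm (nat_lit 9) t1515))))))))))))
noncomputable def l20866 : Lb := (@Lb.r r323 (@Lb.d (nat_lit 2) (nat_lit 290) (nat_lit 2) (@Lb.g g8 (@Lb.g g9 (@Lb.g g10 (@Lb.r r599 (@Lb.r r1702 (@Lb.r r1444 (@Lb.r r149 (@Lb.d (nat_lit 9) (nat_lit 165) (nat_lit 402) (@Lb.t (@Lb.fm (nat_lit 9) t1089))))))))))))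
noncomputable def l20867 : Lb := (@Lb.r r323 (@Lb.d (nat_lit 2) (nat_lit 642) (nat_lit 2) (@Lb.g g8 (@Lb.g g9 (@Lb.g g10 (@Lb.r r354 (@Lb.r r1419 (@Lb.r r2312 (@Lb.d (nat_lit 166) (nat_lit 64) (nat_lit 658) (@Lb.t (@Lb.fp (nat_lit 9) t4186)))))))))))
noncomputable def l20868 : Lb := (@Lb.r r21 (@Lb.d (nat_lit 154) (nat_lit 512) (nat_lit 10) (@Lb.g g8 (@Lb.g g10 (@Lb.g g11 (@Lb.r r411 (@Lb.r r2645 (@Lb.r r1706 (@Lb.r r676 (@Lb.d (nat_lit 537) (nat_lit 84) (nat_lit 81) (@Lb.t (@Lb.fp (nat_lit 9) t3022))))))))))))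
noncomputable def l20869 : Lb := (@Lb.r r21 (@Lb.d (nat_lit 1) (nat_lit 256) (nat_lit 2) (@Lb.g g8 (@Lb.g g10 (@Lb.r r1691 (@Lb.r r1381 (@Lb.r r2202 (@Lb.r r2180 (@Lb.d (nat_lit 601) (nat_lit 65) (nat_lit 609) (@Lb.fp (nat_lit 3) t284))))))))))
noncomputable def l20870 : Lb := (@Lb.d (nat_lit 8) (nat_lit 2) (nat_lit 2) (@Lb.g g9 (@Lb.g g10 (@Lb.g g7 (@Lb.r r386 (@Lb.r r24 (@Lb.d (nat_lit 617) (nat_lit 1) (nat_lit 601) (@Lb.t (@Lb.fp (nat_lit 9) t698)))))))))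
noncomputable def l20871 : Lb := (@Lb.d (nat_lit 536) (nat_lit 325) (nat_lit 138) (@Lb.r r2321 (@Lb.r r619 (@Lb.r r584 (@Lb.g g6 (@Lb.d (nat_lit 16) (nat_lit 0) (nat_lit 1) (@Lb.r r387 (@Lb.t (@Lb.fm (nat_lit 3) t1023)))))))))
noncomputable def l20872 : Lb := (@Lb.r r21 (@Lb.d (nat_lit 1) (nat_lit 512) (nat_lit 2) (@Lb.g g8 (@Lb.g g10 (@Lb.r r1691 (@Lb.r r1381 (@Lb.r r2202 (@Lb.r r2180 (@Lb.d (nat_lit 596) (nat_lit 64) (nat_lit 609) (@Lb.fp (nat_lit 3) t284))))))))))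
noncomputable def l20873 : Lb := (@Lb.d (nat_lit 8) (nat_lit 514) (nat_lit 2) (@Lb.g g9 (@Lb.g g10 (@Lb.g g7 (@Lb.r r386 (@Lb.r r24 (@Lb.d (nat_lit 618) (nat_lit 1) (nat_lit 601) (@Lb.t (@Lb.fp (nat_lit 9) t698)))))))))
noncomputable def l20874 : Lb := (@Lb.d (nat_lit 530) (nat_lit 266) (nat_lit 66) (@Lb.g g8 (@Lb.g g9 (@Lb.g g10 (@Lb.g g11 (@Lb.r r529 (@Lb.r r1299 (@Lb.r r74 (@Lb.r r529 (@Lb.d (nat_lit 289) (nat_lit 66) (nat_lit 145) (@Lb.fp (nat_lit 9) t2171)))))))))))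
noncomputable def l20875 : Lb := (@Lb.d (nat_lit 1) (nat_lit 288) (nat_lit 64) (@Lb.g g8 (@Lb.g g11 (@Lb.r r2337 (@Lb.r r1363 (@Lb.r r2658 (@Lb.r r24 (@Lb.d (nat_lit 5) (nat_lit 64) (nat_lit 84) (@Lb.fm (nat_lit 3) t1242)))))))))
noncomputable def l20876 : Lb := (@Lb.d (nat_lit 6) (nat_lit 64) (nat_lit 1) (@Lb.r r24 (@Lb.r r101 (@Lb.g g6 (@Lb.d (nat_lit 0) (nat_lit 4) (nat_lit 1) (@Lb.t (@Lb.fm (nat_lit 3) t1219)))))))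
noncomputable def l20877 : Lb := (@Lb.d (nat_lit 4) (nat_lit 265) (nat_lit 130) (@Lb.g g8 (@Lb.g g9 (@Lb.g g10 (@Lb.g g11 (@Lb.r r2667 (@Lb.r r1642 (@Lb.r r673 (@Lb.r r24 (@Lb.d (nat_lit 344) (nat_lit 21) (nat_lit 276) (@Lb.fm (nat_lit 9) t998)))))))))))
noncomputable def l20878 : Lb := (@Lb.r r21 (@Lb.d (nat_lit 64) (nat_lit 256) (nat_lit 74) (@Lb.g g8 (@Lb.g g10 (@Lb.g g11 (@Lb.r r603 (@Lb.r r1377 (@Lb.r r2194 (@Lb.r r104 (@Lb.d (nat_lit 256) (nat_lit 68) (nat_lit 1) (@Lb.t (@Lb.fm (nat_lit 9) t1045))))))))))))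
noncomputable def l20879 : Lb := (@Lb.r r326 (@Lb.d (nat_lit 384) (nat_lit 512) (nat_lit 0) (@Lb.g g8 (@Lb.g g11 (@Lb.r r2626 (@Lb.d (nat_lit 10) (nat_lit 2) (nat_lit 384) (@Lb.fm (nat_lit 3) t828)))))))
noncomputable def l20880 : Lb := (@Lb.r r21 (@Lb.r r70 (@Lb.d (nat_lit 513) (nat_lit 512) (nat_lit 0) (@Lb.g g4 (@Lb.r r74 (@Lb.r r25 (@Lb.d (nat_lit 256) (nat_lit 0) (nat_lit 0) (@Lb.t (@Lb.fm (nat_lit 3) t1043)))))))))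
noncomputable def l20881 : Lb := (@Lb.d (nat_lit 2) (nat_lit 520) (nat_lit 130) (@Lb.g g8 (@Lb.g g9 (@Lb.g g10 (@Lb.g g11 (@Lb.r r2667 (@Lb.r r1642 (@Lb.r r673 (@Lb.r r24 (@Lb.d (nat_lit 344) (nat_lit 21) (nat_lit 276) (@Lb.fm (nat_lit 9) t998)))))))))))
noncomputable def l20882 : Lb := (@Lb.d (nat_lit 2) (nat_lit 513) (nat_lit 66) (@Lb.g g8 (@Lb.g g9 (@Lb.g g10 (@Lb.g g11 (@Lb.r r1287 (@Lb.r r532 (@Lb.r r2201 (@Lb.r r2202 (@Lb.r r2180 (@Lb.d (nat_lit 385) (nat_lit 2) (nat_lit 385) (@Lb.fm (nat_lit 9) t441))))))))))))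
noncomputable def l20883 : Lb := (@Lb.d (nat_lit 2) (nat_lit 258) (nat_lit 73) (@Lb.g g8 (@Lb.g g9 (@Lb.g g10 (@Lb.g g11 (@Lb.r r2666 (@Lb.r r579 (@Lb.r r1129 (@Lb.r r1124 (@Lb.d (nat_lit 281) (nat_lit 102) (nat_lit 612) (@Lb.fp (nat_lit 9) t455)))))))))))
noncomputable def l20884 : Lb := (@Lb.d (nat_lit 336) (nat_lit 10) (nat_lit 345) (@Lb.r r24 (@Lb.r r1109 (@Lb.r r386 (@Lb.r r2595 (@Lb.g g7 (@Lb.g g6 (@Lb.g g5 (@Lb.d (nat_lit 0) (nat_lit 25) (nat_lit 128) (@Lb.t (@Lb.fm (nat_lit 9) t1444)))))))))))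
noncomputable def l20885 : Lb := (@Lb.d (nat_lit 2) (nat_lit 514) (nat_lit 73) (@Lb.g g8 (@Lb.g g9 (@Lb.g g10 (@Lb.g g11 (@Lb.r r2666 (@Lb.r r579 (@Lb.r r1129 (@Lb.r r1124 (@Lb.d (nat_lit 281) (nat_lit 97) (nat_lit 614) (@Lb.fp (nat_lit 9) t455)))))))))))
noncomputable def l20886 : Lb := (@Lb.d (nat_lit 0) (nat_lit 514) (nat_lit 73) (@Lb.g g9 (@Lb.g g10 (@Lb.g g11 (@Lb.r r1699 (@Lb.r r673 (@Lb.r r162 (@Lb.r r2193 (@Lb.d (nat_lit 352) (nat_lit 72) (nat_lit 169) (@Lb.t (@Lb.fp (nat_lit 9) t2146)))))))))))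
noncomputable def l20887 : Lb := (@Lb.d (nat_lit 9) (nat_lit 513) (nat_lit 73) (@Lb.g g8 (@Lb.g g9 (@Lb.g g10 (@Lb.g g11 (@Lb.r r2666 (@Lb.r r579 (@Lb.r r1129 (@Lb.r r1124 (@Lb.d (nat_lit 281) (nat_lit 102) (nat_lit 612) (@Lb.fp (nat_lit 9) t455)))))))))))
noncomputable def l20888 : Lb := (@Lb.d (nat_lit 2) (nat_lit 2) (nat_lit 73) (@Lb.g g8 (@Lb.g g9 (@Lb.g g10 (@Lb.g g11 (@Lb.r r2666 (@Lb.r r579 (@Lb.r r1129 (@Lb.r r1124 (@Lb.d (nat_lit 282) (nat_lit 102) (nat_lit 612) (@Lb.fp (nat_lit 9) t455)))))))))))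
noncomputable def l20889 : Lb := (@Lb.d (nat_lit 657) (nat_lit 256) (nat_lit 390) (@Lb.r r24 (@Lb.r r101 (@Lb.r r386 (@Lb.g g11 (@Lb.g g6 (@Lb.g g4 (@Lb.d (nat_lit 1) (nat_lit 0) (nat_lit 1) (@Lb.t (@Lb.fp (nat_lit 9) t868))))))))))
noncomputable def l20890 : Lb := (@Lb.d (nat_lit 2) (nat_lit 514) (nat_lit 73) (@Lb.g g8 (@Lb.g g9 (@Lb.g g10 (@Lb.g g11 (@Lb.r r1699 (@Lb.r r2216 (@Lb.r r1610 (@Lb.r r145 (@Lb.d (nat_lit 408) (nat_lit 16) (nat_lit 642) (@Lb.fp (nat_lit 9) t3180)))))))))))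
noncomputable def l20891 : Lb := (@Lb.d (nat_lit 5) (nat_lit 256) (nat_lit 0) (@Lb.g g4 (@Lb.g g7 (@Lb.r r101 (@Lb.r r402 (@Lb.d (nat_lit 1) (nat_lit 0) (nat_lit 132) (@Lb.fm (nat_lit 3) t311)))))))
noncomputable def l20892 : Lb := (@Lb.r r82 (@Lb.d (nat_lit 8) (nat_lit 290) (nat_lit 64) (@Lb.g g9 (@Lb.g g11 (@Lb.r r551 (@Lb.r r386 (@Lb.r r88 (@Lb.r r85 (@Lb.d (nat_lit 164) (nat_lit 1) (nat_lit 10) (@Lb.fp (nat_lit 3) t98))))))))))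
noncomputable def l20893 : Lb := (@Lb.r r82 (@Lb.d (nat_lit 8) (nat_lit 34) (nat_lit 64) (@Lb.g g9 (@Lb.g g11 (@Lb.r r551 (@Lb.r r386 (@Lb.r r88 (@Lb.r r85 (@Lb.d (nat_lit 164) (nat_lit 6) (nat_lit 8) (@Lb.fp (nat_lit 3) t98))))))))))
noncomputable def l20894 : Lb := (@Lb.d (nat_lit 2) (nat_lit 522) (nat_lit 128) (@Lb.g g8 (@Lb.g g9 (@Lb.g g11 (@Lb.r r134 (@Lb.r r584 (@Lb.r r427 (@Lb.r r417 (@Lb.d (nat_lit 8) (nat_lit 8) (nat_lit 70) (@Lb.t (@Lb.fp (nat_lit 9) t119)))))))))))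
noncomputable def l20895 : Lb := (@Lb.d (nat_lit 0) (nat_lit 256) (nat_lit 130) (@Lb.g g9 (@Lb.g g10 (@Lb.g g11 (@Lb.r r2658 (@Lb.r r2659 (@Lb.r r2661 (@Lb.r r24 (@Lb.d (nat_lit 66) (nat_lit 0) (nat_lit 384) (@Lb.t (@Lb.fp (nat_lit 9) t4187)))))))))))
noncomputable def l20896 : Lb := (@Lb.d (nat_lit 0) (nat_lit 0) (nat_lit 73) (@Lb.g g9 (@Lb.g g10 (@Lb.g g11 (@Lb.r r1411 (@Lb.r r165 (@Lb.r r2470 (@Lb.r r1169 (@Lb.d (nat_lit 69) (nat_lit 161) (nat_lit 128) (@Lb.t (@Lb.fm (nat_lit 9) t1866)))))))))))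
noncomputable def l20897 : Lb := (@Lb.d (nat_lit 146) (nat_lit 258) (nat_lit 5) (@Lb.g g8 (@Lb.g g9 (@Lb.g g10 (@Lb.g g11 (@Lb.r r683 (@Lb.r r618 (@Lb.r r1561 (@Lb.r r1540 (@Lb.d (nat_lit 388) (nat_lit 72) (nat_lit 673) (@Lb.fm (nat_lit 9) t199)))))))))))
noncomputable def l20898 : Lb := (@Lb.d (nat_lit 2) (nat_lit 256) (nat_lit 0) (@Lb.g g8 (@Lb.r r609 (@Lb.r r363 (@Lb.r r328 (@Lb.r r134 (@Lb.d (nat_lit 512) (nat_lit 0) (nat_lit 104) (@Lb.t (@Lb.fm (nat_lit 3) t40)))))))))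
noncomputable def l20899 : Lb := (@Lb.r r323 (@Lb.d (nat_lit 4) (nat_lit 516) (nat_lit 42) (@Lb.g g8 (@Lb.g g6 (@Lb.r r387 (@Lb.r r2073 (@Lb.d (nat_lit 136) (nat_lit 16) (nat_lit 336) (@Lb.fp (nat_lit 3) t4188))))))))
noncomputable def l20900 : Lb := (@Lb.d (nat_lit 4) (nat_lit 0) (nat_lit 137) (@Lb.g g8 (@Lb.g g9 (@Lb.g g10 (@Lb.g g11 (@Lb.r r2723 (@Lb.r r1634 (@Lb.r r1553 (@Lb.d (nat_lit 2) (nat_lit 105) (nat_lit 417) (@Lb.fm (nat_lit 9) t324))))))))))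
noncomputable def l20901 : Lb := (@Lb.d (nat_lit 2) (nat_lit 0) (nat_lit 137) (@Lb.g g8 (@Lb.g g9 (@Lb.g g10 (@Lb.g g11 (@Lb.r r682 (@Lb.r r676 (@Lb.r r551 (@Lb.r r1557 (@Lb.r r36 (@Lb.d (nat_lit 393) (nat_lit 65) (nat_lit 517) (@Lb.fp (nat_lit 9) t284))))))))))))
noncomputable def l20902 : Lb := (@Lb.d (nat_lit 5) (nat_lit 578) (nat_lit 512) (@Lb.r r289 (@Lb.r r279 (@Lb.r r584 (@Lb.r r2406 (@Lb.g g10 (@Lb.r r387 (@Lb.t (@Lb.fp (nat_lit 3) t1260)))))))))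
noncomputable def l20903 : Lb := (@Lb.d (nat_lit 5) (nat_lit 97) (nat_lit 256) (@Lb.r r1284 (@Lb.r r322 (@Lb.r r659 (@Lb.r r578 (@Lb.g g5 (@Lb.d (nat_lit 0) (nat_lit 129) (nat_lit 0) (@Lb.t (@Lb.fp (nat_lit 3) t2060)))))))))
noncomputable def l20904 : Lb := (@Lb.d (nat_lit 8) (nat_lit 297) (nat_lit 0) (@Lb.g g9 (@Lb.r r1626 (@Lb.r r603 (@Lb.r r600 (@Lb.r r1429 (@Lb.d (nat_lit 357) (nat_lit 90) (nat_lit 393) (@Lb.t (@Lb.fp (nat_lit 3) t322)))))))))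
noncomputable def l20905 : Lb := (@Lb.d (nat_lit 10) (nat_lit 344) (nat_lit 273) (@Lb.r r81 (@Lb.r r2466 (@Lb.r r401 (@Lb.g g11 (@Lb.g g6 (@Lb.g g5 (@Lb.d (nat_lit 0) (nat_lit 9) (nat_lit 128) (@Lb.t (@Lb.fp (nat_lit 9) t8))))))))))
noncomputable def l20906 : Lb := (@Lb.d (nat_lit 41) (nat_lit 513) (nat_lit 136) (@Lb.g g8 (@Lb.g g9 (@Lb.g g11 (@Lb.r r1186 (@Lb.r r1065 (@Lb.r r360 (@Lb.r r1543 (@Lb.d (nat_lit 386) (nat_lit 154) (nat_lit 149) (@Lb.t (@Lb.fm (nat_lit 9) t242)))))))))))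
noncomputable def l20907 : Lb := (@Lb.d (nat_lit 546) (nat_lit 401) (nat_lit 256) (@Lb.r r81 (@Lb.r r2466 (@Lb.g g11 (@Lb.g g6 (@Lb.g g5 (@Lb.d (nat_lit 0) (nat_lit 1) (nat_lit 129) (@Lb.t (@Lb.fp (nat_lit 9) t2099)))))))))
noncomputable def l20908 : Lb := (@Lb.d (nat_lit 545) (nat_lit 408) (nat_lit 258) (@Lb.r r105 (@Lb.r r2454 (@Lb.g g11 (@Lb.g g6 (@Lb.g g5 (@Lb.d (nat_lit 0) (nat_lit 2) (nat_lit 129) (@Lb.t (@Lb.fm (nat_lit 9) t1012)))))))))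
noncomputable def l20909 : Lb := (@Lb.r r70 (@Lb.d (nat_lit 134) (nat_lit 512) (nat_lit 128) (@Lb.g g8 (@Lb.g g9 (@Lb.g g11 (@Lb.r r2601 (@Lb.r r2347 (@Lb.r r2376 (@Lb.r r2182 (@Lb.d (nat_lit 0) (nat_lit 138) (nat_lit 392) (@Lb.t (@Lb.fp (nat_lit 9) t1043))))))))))))
noncomputable def l20910 : Lb := (@Lb.d (nat_lit 2) (nat_lit 8) (nat_lit 74) (@Lb.g g8 (@Lb.g g10 (@Lb.g g11 (@Lb.r r357 (@Lb.r r407 (@Lb.r r326 (@Lb.d (nat_lit 80) (nat_lit 5) (nat_lit 132) (@Lb.t (@Lb.fp (nat_lit 9) t145))))))))))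
noncomputable def l20911 : Lb := (@Lb.r r323 (@Lb.d (nat_lit 0) (nat_lit 5) (nat_lit 1) (@Lb.g g5 (@Lb.g g10 (@Lb.r r2339 (@Lb.r r2218 (@Lb.d (nat_lit 538) (nat_lit 138) (nat_lit 18) (@Lb.fm (nat_lit 3) t58))))))))
noncomputable def l20912 : Lb := (@Lb.d (nat_lit 2) (nat_lit 264) (nat_lit 74) (@Lb.g g8 (@Lb.g g10 (@Lb.g g11 (@Lb.r r357 (@Lb.r r407 (@Lb.r r326 (@Lb.d (nat_lit 86) (nat_lit 6) (nat_lit 132) (@Lb.t (@Lb.fp (nat_lit 9) t145))))))))))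
noncomputable def l20913 : Lb := (@Lb.d (nat_lit 0) (nat_lit 264) (nat_lit 64) (@Lb.g g10 (@Lb.g g7 (@Lb.r r613 (@Lb.r r1370 (@Lb.d (nat_lit 298) (nat_lit 70) (nat_lit 534) (@Lb.fm (nat_lit 3) t414)))))))
noncomputable def l20914 : Lb := (@Lb.d (nat_lit 0) (nat_lit 256) (nat_lit 64) (@Lb.g g10 (@Lb.g g7 (@Lb.d (nat_lit 608) (nat_lit 0) (nat_lit 676) (@Lb.fp (nat_lit 3) t698)))))
noncomputable def l20915 : Lb := (@Lb.d (nat_lit 2) (nat_lit 514) (nat_lit 137) (@Lb.g g8 (@Lb.g g9 (@Lb.g g10 (@Lb.g g11 (@Lb.r r427 (@Lb.r r1122 (@Lb.r r2457 (@Lb.r r2436 (@Lb.d (nat_lit 596) (nat_lit 137) (nat_lit 514) (@Lb.fp (nat_lit 9) t2103)))))))))))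
noncomputable def l20916 : Lb := (@Lb.r r273 (@Lb.d (nat_lit 0) (nat_lit 256) (nat_lit 578) (@Lb.g g10 (@Lb.g g7 (@Lb.r r386 (@Lb.r r1169 (@Lb.d (nat_lit 0) (nat_lit 0) (nat_lit 25) (@Lb.fm (nat_lit 3) t144))))))))
noncomputable def l20917 : Lb := (@Lb.d (nat_lit 8) (nat_lit 290) (nat_lit 0) (@Lb.g g9 (@Lb.r r536 (@Lb.r r283 (@Lb.r r134 (@Lb.r r661 (@Lb.d (nat_lit 132) (nat_lit 74) (nat_lit 260) (@Lb.t (@Lb.fp (nat_lit 3) t2244)))))))))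
noncomputable def l20918 : Lb := (@Lb.g g7 (@Lb.r r2661 (@Lb.r r2403 (@Lb.r r328 (@Lb.r r134 (@Lb.d (nat_lit 517) (nat_lit 257) (nat_lit 256) (@Lb.t (@Lb.fp (nat_lit 3) t4189))))))))
noncomputable def l20919 : Lb := (@Lb.d (nat_lit 522) (nat_lit 592) (nat_lit 0) (@Lb.r r297 (@Lb.r r420 (@Lb.r r422 (@Lb.g g11 (@Lb.g g5 (@Lb.d (nat_lit 0) (nat_lit 0) (nat_lit 392) (@Lb.r r98 (@Lb.fp (nat_lit 3) t2153)))))))))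
noncomputable def l20920 : Lb := (@Lb.r r81 (@Lb.d (nat_lit 2) (nat_lit 544) (nat_lit 129) (@Lb.g g8 (@Lb.g g6 (@Lb.g g11 (@Lb.r r600 (@Lb.r r293 (@Lb.r r283 (@Lb.d (nat_lit 138) (nat_lit 89) (nat_lit 16) (@Lb.t (@Lb.fp (nat_lit 9) t1900)))))))))))
noncomputable def l20921 : Lb := (@Lb.d (nat_lit 2) (nat_lit 2) (nat_lit 73) (@Lb.g g8 (@Lb.g g9 (@Lb.g g10 (@Lb.g g11 (@Lb.r r2705 (@Lb.r r535 (@Lb.r r2440 (@Lb.r r2122 (@Lb.d (nat_lit 294) (nat_lit 74) (nat_lit 136) (@Lb.fp (nat_lit 9) t741)))))))))))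
noncomputable def l20922 : Lb := (@Lb.d (nat_lit 2) (nat_lit 514) (nat_lit 73) (@Lb.g g8 (@Lb.g g9 (@Lb.g g10 (@Lb.g g11 (@Lb.r r2691 (@Lb.r r2705 (@Lb.r r612 (@Lb.r r666 (@Lb.r r1156 (@Lb.d (nat_lit 582) (nat_lit 161) (nat_lit 74) (@Lb.fp (nat_lit 9) t1866))))))))))))
noncomputable def l20923 : Lb := (@Lb.r r322 (@Lb.d (nat_lit 0) (nat_lit 512) (nat_lit 136) (@Lb.g g9 (@Lb.g g11 (@Lb.r r1426 (@Lb.r r101 (@Lb.r r24 (@Lb.d (nat_lit 1) (nat_lit 0) (nat_lit 64) (@Lb.fp (nat_lit 3) t145)))))))))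
noncomputable def l20924 : Lb := (@Lb.r r322 (@Lb.d (nat_lit 0) (nat_lit 0) (nat_lit 136) (@Lb.g g9 (@Lb.g g11 (@Lb.r r1426 (@Lb.r r101 (@Lb.r r24 (@Lb.d (nat_lit 0) (nat_lit 0) (nat_lit 64) (@Lb.fp (nat_lit 3) t145)))))))))
noncomputable def l20925 : Lb := (@Lb.d (nat_lit 1) (nat_lit 386) (nat_lit 170) (@Lb.r r609 (@Lb.r r619 (@Lb.r r584 (@Lb.r r326 (@Lb.g g7 (@Lb.g g6 (@Lb.d (nat_lit 0) (nat_lit 0) (nat_lit 65) (@Lb.fp (nat_lit 3) t68)))))))))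
noncomputable def l20926 : Lb := (@Lb.d (nat_lit 512) (nat_lit 600) (nat_lit 410) (@Lb.r r402 (@Lb.r r101 (@Lb.g g4 (@Lb.d (nat_lit 1) (nat_lit 0) (nat_lit 0) (@Lb.t (@Lb.fm (nat_lit 3) t2769)))))))
noncomputable def l20927 : Lb := (@Lb.d (nat_lit 0) (nat_lit 272) (nat_lit 585) (@Lb.g g9 (@Lb.g g10 (@Lb.g g7 (@Lb.r r1448 (@Lb.r r1130 (@Lb.r r1049 (@Lb.d (nat_lit 618) (nat_lit 73) (nat_lit 72) (@Lb.t (@Lb.fm (nat_lit 9) t2153))))))))))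
noncomputable def l20928 : Lb := (@Lb.d (nat_lit 0) (nat_lit 8) (nat_lit 130) (@Lb.g g10 (@Lb.g g11 (@Lb.r r353 (@Lb.r r663 (@Lb.r r328 (@Lb.r r134 (@Lb.d (nat_lit 41) (nat_lit 4) (nat_lit 2) (@Lb.fm (nat_lit 3) t45)))))))))
noncomputable def l20929 : Lb := (@Lb.d (nat_lit 1) (nat_lit 514) (nat_lit 130) (@Lb.g g8 (@Lb.g g9 (@Lb.g g10 (@Lb.g g11 (@Lb.r r582 (@Lb.r r388 (@Lb.r r1323 (@Lb.r r1313 (@Lb.d (nat_lit 9) (nat_lit 73) (nat_lit 386) (@Lb.fm (nat_lit 9) t119)))))))))))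
noncomputable def l20930 : Lb := (@Lb.d (nat_lit 34) (nat_lit 8) (nat_lit 102) (@Lb.r r70 (@Lb.r r392 (@Lb.r r599 (@Lb.g g6 (@Lb.g g5 (@Lb.g g4 (@Lb.d (nat_lit 1) (nat_lit 17) (nat_lit 1) (@Lb.r r387 (@Lb.t (@Lb.fp (nat_lit 9) t242)))))))))))
noncomputable def l20931 : Lb := (@Lb.d (nat_lit 2) (nat_lit 9) (nat_lit 134) (@Lb.g g8 (@Lb.g g9 (@Lb.g g10 (@Lb.g g7 (@Lb.r r386 (@Lb.r r97 (@Lb.r r24 (@Lb.d (nat_lit 617) (nat_lit 9) (nat_lit 616) (@Lb.fp (nat_lit 9) t3209))))))))))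
noncomputable def l20932 : Lb := (@Lb.d (nat_lit 132) (nat_lit 514) (nat_lit 130) (@Lb.g g8 (@Lb.g g9 (@Lb.g g10 (@Lb.g g11 (@Lb.r r664 (@Lb.r r1707 (@Lb.r r1642 (@Lb.r r1561 (@Lb.r r516 (@Lb.d (nat_lit 69) (nat_lit 168) (nat_lit 277) (@Lb.fp (nat_lit 9) t1900))))))))))))
noncomputable def l20933 : Lb := (@Lb.d (nat_lit 394) (nat_lit 17) (nat_lit 389) (@Lb.r r1579 (@Lb.r r1704 (@Lb.r r1626 (@Lb.g g7 (@Lb.g g9 (@Lb.d (nat_lit 0) (nat_lit 2) (nat_lit 68) (@Lb.r r98 (@Lb.fp (nat_lit 3) t98)))))))))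
noncomputable def l20934 : Lb := (@Lb.d (nat_lit 294) (nat_lit 402) (nat_lit 389) (@Lb.r r2129 (@Lb.r r354 (@Lb.r r81 (@Lb.r r1671 (@Lb.g g7 (@Lb.g g6 (@Lb.g g5 (@Lb.g g8 (@Lb.d (nat_lit 10) (nat_lit 0) (nat_lit 65) (@Lb.fp (nat_lit 9) t4190)))))))))))
noncomputable def l20935 : Lb := (@Lb.d (nat_lit 33) (nat_lit 265) (nat_lit 129) (@Lb.g g8 (@Lb.g g9 (@Lb.g g10 (@Lb.g g11 (@Lb.r r663 (@Lb.r r342 (@Lb.r r1577 (@Lb.r r1556 (@Lb.d (nat_lit 385) (nat_lit 166) (nat_lit 88) (@Lb.fp (nat_lit 9) t4191)))))))))))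
noncomputable def l20936 : Lb := (@Lb.d (nat_lit 2) (nat_lit 2) (nat_lit 2) (@Lb.g g8 (@Lb.g g9 (@Lb.g g10 (@Lb.r r683 (@Lb.r r2666 (@Lb.r r1572 (@Lb.r r37 (@Lb.d (nat_lit 553) (nat_lit 97) (nat_lit 641) (@Lb.t (@Lb.fm (nat_lit 9) t468)))))))))))
noncomputable def l20937 : Lb := (@Lb.r r21 (@Lb.d (nat_lit 16) (nat_lit 260) (nat_lit 105) (@Lb.g g8 (@Lb.g g6 (@Lb.g g11 (@Lb.r r579 (@Lb.r r97 (@Lb.r r1432 (@Lb.d (nat_lit 666) (nat_lit 2) (nat_lit 152) (@Lb.t (@Lb.fm (nat_lit 9) t390)))))))))))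
noncomputable def l20938 : Lb := (@Lb.d (nat_lit 0) (nat_lit 512) (nat_lit 136) (@Lb.g g11 (@Lb.r r405 (@Lb.r r2454 (@Lb.r r2411 (@Lb.r r1096 (@Lb.d (nat_lit 586) (nat_lit 2) (nat_lit 528) (@Lb.t (@Lb.fp (nat_lit 3) t2238)))))))))
noncomputable def l20939 : Lb := (@Lb.d (nat_lit 293) (nat_lit 513) (nat_lit 32) (@Lb.r r134 (@Lb.r r328 (@Lb.r r663 (@Lb.r r273 (@Lb.g g7 (@Lb.g g5 (@Lb.d (nat_lit 0) (nat_lit 1) (nat_lit 128) (@Lb.fp (nat_lit 3) t744)))))))))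
noncomputable def l20940 : Lb := (@Lb.d (nat_lit 649) (nat_lit 0) (nat_lit 136) (@Lb.g g8 (@Lb.g g11 (@Lb.r r401 (@Lb.r r2450 (@Lb.r r2403 (@Lb.d (nat_lit 545) (nat_lit 138) (nat_lit 37) (@Lb.fp (nat_lit 3) t4192))))))))
noncomputable def l20941 : Lb := (@Lb.d (nat_lit 537) (nat_lit 4) (nat_lit 16) (@Lb.r r1094 (@Lb.r r2440 (@Lb.r r535 (@Lb.r r1361 (@Lb.g g7 (@Lb.g g6 (@Lb.g g5 (@Lb.d (nat_lit 0) (nat_lit 1) (nat_lit 134) (@Lb.t (@Lb.fp (nat_lit 9) t590)))))))))))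
noncomputable def l20942 : Lb := (@Lb.d (nat_lit 129) (nat_lit 258) (nat_lit 0) (@Lb.g g8 (@Lb.g g9 (@Lb.r r425 (@Lb.r r599 (@Lb.r r2178 (@Lb.r r292 (@Lb.d (nat_lit 74) (nat_lit 34) (nat_lit 80) (@Lb.fp (nat_lit 3) t124)))))))))
noncomputable def l20943 : Lb := (@Lb.r r273 (@Lb.r r551 (@Lb.r r340 (@Lb.r r170 (@Lb.r r153 (@Lb.d (nat_lit 0) (nat_lit 600) (nat_lit 290) (@Lb.fp (nat_lit 1) t654)))))))
noncomputable def l20944 : Lb := (@Lb.d (nat_lit 546) (nat_lit 322) (nat_lit 272) (@Lb.r r1045 (@Lb.r r2148 (@Lb.r r402 (@Lb.r r1291 (@Lb.g g11 (@Lb.t (@Lb.fm (nat_lit 3) t3858))))))))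
noncomputable def l20945 : Lb := (@Lb.d (nat_lit 130) (nat_lit 546) (nat_lit 0) (@Lb.g g8 (@Lb.g g9 (@Lb.r r275 (@Lb.r r2178 (@Lb.r r661 (@Lb.r r2084 (@Lb.d (nat_lit 425) (nat_lit 66) (nat_lit 38) (@Lb.fp (nat_lit 3) t124)))))))))
noncomputable def l20946 : Lb := (@Lb.d (nat_lit 288) (nat_lit 4) (nat_lit 168) (@Lb.r r85 (@Lb.r r170 (@Lb.r r676 (@Lb.r r551 (@Lb.r r529 (@Lb.g g8 (@Lb.t (@Lb.fp (nat_lit 3) t210)))))))))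
noncomputable def l20947 : Lb := (@Lb.d (nat_lit 2) (nat_lit 514) (nat_lit 130) (@Lb.g g8 (@Lb.g g9 (@Lb.g g10 (@Lb.g g11 (@Lb.r r1443 (@Lb.r r386 (@Lb.r r1129 (@Lb.r r36 (@Lb.d (nat_lit 617) (nat_lit 2) (nat_lit 84) (@Lb.fp (nat_lit 9) t61)))))))))))
noncomputable def l20948 : Lb := (@Lb.d (nat_lit 1) (nat_lit 593) (nat_lit 644) (@Lb.r r1284 (@Lb.r r2315 (@Lb.r r296 (@Lb.r r1129 (@Lb.g g7 (@Lb.g g10 (@Lb.g g5 (@Lb.g g4 (@Lb.d (nat_lit 6) (nat_lit 9) (nat_lit 81) (@Lb.fm (nat_lit 9) t145)))))))))))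
noncomputable def l20949 : Lb := (@Lb.d (nat_lit 32) (nat_lit 512) (nat_lit 64) (@Lb.g g10 (@Lb.g g11 (@Lb.r r328 (@Lb.r r407 (@Lb.r r2726 (@Lb.r r609 (@Lb.d (nat_lit 24) (nat_lit 5) (nat_lit 68) (@Lb.fp (nat_lit 3) t479)))))))))
noncomputable def l20950 : Lb := (@Lb.r r21 (@Lb.d (nat_lit 64) (nat_lit 0) (nat_lit 2) (@Lb.g g8 (@Lb.g g10 (@Lb.g g11 (@Lb.r r327 (@Lb.r r1370 (@Lb.r r145 (@Lb.r r1300 (@Lb.d (nat_lit 361) (nat_lit 21) (nat_lit 416) (@Lb.t (@Lb.fm (nat_lit 9) t750))))))))))))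
noncomputable def l20951 : Lb := (@Lb.d (nat_lit 98) (nat_lit 617) (nat_lit 582) (@Lb.r r597 (@Lb.r r296 (@Lb.r r418 (@Lb.g g11 (@Lb.g g6 (@Lb.g g5 (@Lb.g g4 (@Lb.d (nat_lit 1) (nat_lit 18) (nat_lit 257) (@Lb.fm (nat_lit 9) t825))))))))))
noncomputable def l20952 : Lb := (@Lb.d (nat_lit 297) (nat_lit 74) (nat_lit 1) (@Lb.r r164 (@Lb.r r150 (@Lb.r r1619 (@Lb.g g5 (@Lb.g g4 (@Lb.d (nat_lit 16) (nat_lit 65) (nat_lit 0) (@Lb.r r291 (@Lb.r r98 (@Lb.fm (nat_lit 3) t750))))))))))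
noncomputable def l20953 : Lb := (@Lb.d (nat_lit 6) (nat_lit 512) (nat_lit 130) (@Lb.g g8 (@Lb.g g9 (@Lb.g g10 (@Lb.g g11 (@Lb.r r1443 (@Lb.r r40 (@Lb.r r425 (@Lb.r r98 (@Lb.r r2084 (@Lb.d (nat_lit 409) (nat_lit 90) (nat_lit 340) (@Lb.fp (nat_lit 9) t1231))))))))))))
noncomputable def l20954 : Lb := (@Lb.d (nat_lit 34) (nat_lit 513) (nat_lit 21) (@Lb.g g8 (@Lb.g g9 (@Lb.g g6 (@Lb.g g11 (@Lb.r r579 (@Lb.r r2345 (@Lb.r r1288 (@Lb.d (nat_lit 133) (nat_lit 65) (nat_lit 65) (@Lb.fp (nat_lit 9) t74))))))))))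
noncomputable def l20955 : Lb := (@Lb.d (nat_lit 4) (nat_lit 514) (nat_lit 130) (@Lb.g g8 (@Lb.g g9 (@Lb.g g10 (@Lb.g g11 (@Lb.r r1451 (@Lb.r r1321 (@Lb.r r104 (@Lb.r r70 (@Lb.r r132 (@Lb.d (nat_lit 9) (nat_lit 66) (nat_lit 618) (@Lb.fp (nat_lit 9) t119))))))))))))
noncomputable def l20956 : Lb := (@Lb.r r323 (@Lb.d (nat_lit 0) (nat_lit 258) (nat_lit 2) (@Lb.g g9 (@Lb.g g10 (@Lb.r r1323 (@Lb.r r149 (@Lb.r r2202 (@Lb.d (nat_lit 22) (nat_lit 69) (nat_lit 0) (@Lb.fp (nat_lit 3) t417)))))))))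
noncomputable def l20957 : Lb := (@Lb.r r323 (@Lb.d (nat_lit 0) (nat_lit 546) (nat_lit 2) (@Lb.g g9 (@Lb.g g10 (@Lb.r r599 (@Lb.r r392 (@Lb.r r410 (@Lb.d (nat_lit 101) (nat_lit 164) (nat_lit 101) (@Lb.fp (nat_lit 3) t232)))))))))
noncomputable def l20958 : Lb := (@Lb.d (nat_lit 153) (nat_lit 1) (nat_lit 5) (@Lb.g g8 (@Lb.g g9 (@Lb.g g10 (@Lb.g g11 (@Lb.r r683 (@Lb.r r618 (@Lb.r r548 (@Lb.r r37 (@Lb.d (nat_lit 37) (nat_lit 32) (nat_lit 129) (@Lb.fp (nat_lit 9) t1074)))))))))))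
noncomputable def l20959 : Lb := (@Lb.d (nat_lit 677) (nat_lit 138) (nat_lit 360) (@Lb.r r102 (@Lb.r r357 (@Lb.r r2715 (@Lb.r r2724 (@Lb.g g6 (@Lb.g g5 (@Lb.d (nat_lit 4) (nat_lit 5) (nat_lit 0) (@Lb.fm (nat_lit 3) t426)))))))))
noncomputable def l20960 : Lb := (@Lb.r r21 (@Lb.r r70 (@Lb.r r2311 (@Lb.d (nat_lit 1) (nat_lit 256) (nat_lit 0) (@Lb.g g4 (@Lb.r r74 (@Lb.r r25 (@Lb.d (nat_lit 256) (nat_lit 0) (nat_lit 0) (@Lb.t (@Lb.fm (nat_lit 3) t2500))))))))))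
noncomputable def l20961 : Lb := (@Lb.r r2311 (@Lb.r r2118 (@Lb.r r24 (@Lb.r r2085 (@Lb.d (nat_lit 10) (nat_lit 258) (nat_lit 0) (@Lb.fp (nat_lit 1) t51))))))
noncomputable def l20962 : Lb := (@Lb.d (nat_lit 520) (nat_lit 1) (nat_lit 1) (@Lb.r r24 (@Lb.r r101 (@Lb.r r2403 (@Lb.g g6 (@Lb.d (nat_lit 32) (nat_lit 4) (nat_lit 33) (@Lb.t (@Lb.fm (nat_lit 3) t3693))))))))
noncomputable def l20963 : Lb := (@Lb.d (nat_lit 10) (nat_lit 512) (nat_lit 130) (@Lb.g g8 (@Lb.g g10 (@Lb.g g11 (@Lb.r r602 (@Lb.r r1611 (@Lb.r r149 (@Lb.r r1636 (@Lb.d (nat_lit 132) (nat_lit 25) (nat_lit 642) (@Lb.t (@Lb.fp (nat_lit 9) t461)))))))))))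
noncomputable def l20964 : Lb := (@Lb.r r21 (@Lb.r r263 (@Lb.d (nat_lit 549) (nat_lit 4) (nat_lit 1) (@Lb.g g8 (@Lb.g g10 (@Lb.r r665 (@Lb.r r1367 (@Lb.r r1674 (@Lb.d (nat_lit 640) (nat_lit 0) (nat_lit 577) (@Lb.fp (nat_lit 3) t2443))))))))))
noncomputable def l20965 : Lb := (@Lb.r r2311 (@Lb.r r2118 (@Lb.r r24 (@Lb.r r2085 (@Lb.fp (nat_lit 1) t51)))))
noncomputable def l20966 : Lb := (@Lb.d (nat_lit 40) (nat_lit 96) (nat_lit 130) (@Lb.g g5 (@Lb.g g10 (@Lb.g g11 (@Lb.r r667 (@Lb.r r72 (@Lb.r r102 (@Lb.d (nat_lit 73) (nat_lit 170) (nat_lit 257) (@Lb.t (@Lb.fp (nat_lit 9) t1027))))))))))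
noncomputable def l20967 : Lb := (@Lb.d (nat_lit 32) (nat_lit 609) (nat_lit 130) (@Lb.g g5 (@Lb.g g10 (@Lb.g g11 (@Lb.r r667 (@Lb.r r72 (@Lb.r r102 (@Lb.d (nat_lit 73) (nat_lit 160) (nat_lit 258) (@Lb.t (@Lb.fp (nat_lit 9) t1027))))))))))
noncomputable def l20968 : Lb := (@Lb.d (nat_lit 0) (nat_lit 512) (nat_lit 128) (@Lb.g g10 (@Lb.g g11 (@Lb.r r1347 (@Lb.r r1378 (@Lb.r r101 (@Lb.r r24 (@Lb.d (nat_lit 577) (nat_lit 0) (nat_lit 320) (@Lb.fm (nat_lit 3) t145)))))))))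
noncomputable def l20969 : Lb := (@Lb.d (nat_lit 2) (nat_lit 100) (nat_lit 1) (@Lb.r r24 (@Lb.r r2661 (@Lb.r r2659 (@Lb.r r406 (@Lb.g g7 (@Lb.g g5 (@Lb.d (nat_lit 0) (nat_lit 0) (nat_lit 64) (@Lb.fm (nat_lit 3) t490)))))))))
noncomputable def l20970 : Lb := (@Lb.d (nat_lit 2) (nat_lit 2) (nat_lit 2) (@Lb.g g8 (@Lb.g g9 (@Lb.g g10 (@Lb.g g11 (@Lb.r r2722 (@Lb.r r404 (@Lb.r r681 (@Lb.r r555 (@Lb.r r1060 (@Lb.d (nat_lit 321) (nat_lit 10) (nat_lit 137) (@Lb.fm (nat_lit 9) t242))))))))))))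
noncomputable def l20971 : Lb := (@Lb.r r323 (@Lb.d (nat_lit 32) (nat_lit 256) (nat_lit 2) (@Lb.g g10 (@Lb.r r584 (@Lb.r r619 (@Lb.r r609 (@Lb.d (nat_lit 8) (nat_lit 64) (nat_lit 84) (@Lb.t (@Lb.fm (nat_lit 3) t479)))))))))
noncomputable def l20972 : Lb := (@Lb.d (nat_lit 386) (nat_lit 326) (nat_lit 646) (@Lb.r r597 (@Lb.r r1638 (@Lb.r r2692 (@Lb.r r2439 (@Lb.g g7 (@Lb.g g6 (@Lb.g g5 (@Lb.d (nat_lit 20) (nat_lit 1) (nat_lit 132) (@Lb.t (@Lb.fp (nat_lit 9) t150)))))))))))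
noncomputable def l20973 : Lb := (@Lb.d (nat_lit 38) (nat_lit 326) (nat_lit 33) (@Lb.r r1109 (@Lb.r r2218 (@Lb.r r2724 (@Lb.r r2727 (@Lb.g g7 (@Lb.g g6 (@Lb.g g5 (@Lb.d (nat_lit 0) (nat_lit 5) (nat_lit 65) (@Lb.t (@Lb.fp (nat_lit 9) t295)))))))))))
noncomputable def l20974 : Lb := (@Lb.d (nat_lit 144) (nat_lit 521) (nat_lit 66) (@Lb.g g8 (@Lb.g g9 (@Lb.g g10 (@Lb.g g11 (@Lb.r r1382 (@Lb.r r2456 (@Lb.r r405 (@Lb.r r2339 (@Lb.d (nat_lit 425) (nat_lit 40) (nat_lit 341) (@Lb.fm (nat_lit 9) t4193)))))))))))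
noncomputable def l20975 : Lb := (@Lb.d (nat_lit 144) (nat_lit 546) (nat_lit 132) (@Lb.g g8 (@Lb.g g9 (@Lb.g g10 (@Lb.g g11 (@Lb.r r1698 (@Lb.r r1415 (@Lb.r r548 (@Lb.r r149 (@Lb.r r1060 (@Lb.d (nat_lit 553) (nat_lit 152) (nat_lit 169) (@Lb.fm (nat_lit 9) t4194))))))))))))
noncomputable def l20976 : Lb := (@Lb.r r82 (@Lb.d (nat_lit 2) (nat_lit 2) (nat_lit 128) (@Lb.g g8 (@Lb.g g9 (@Lb.g g11 (@Lb.r r1561 (@Lb.r r595 (@Lb.r r386 (@Lb.d (nat_lit 545) (nat_lit 0) (nat_lit 18) (@Lb.t (@Lb.fm (nat_lit 9) t355)))))))))))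
noncomputable def l20977 : Lb := (@Lb.d (nat_lit 0) (nat_lit 546) (nat_lit 66) (@Lb.g g9 (@Lb.g g10 (@Lb.g g11 (@Lb.r r387 (@Lb.r r1177 (@Lb.r r2458 (@Lb.r r24 (@Lb.d (nat_lit 593) (nat_lit 0) (nat_lit 169) (@Lb.t (@Lb.fm (nat_lit 9) t2061)))))))))))
noncomputable def l20978 : Lb := (@Lb.d (nat_lit 152) (nat_lit 545) (nat_lit 132) (@Lb.g g8 (@Lb.g g9 (@Lb.g g10 (@Lb.g g11 (@Lb.r r1698 (@Lb.r r1415 (@Lb.r r548 (@Lb.r r149 (@Lb.r r1060 (@Lb.d (nat_lit 553) (nat_lit 152) (nat_lit 169) (@Lb.fm (nat_lit 9) t4194))))))))))))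
noncomputable def l20979 : Lb := (@Lb.r r82 (@Lb.r r283 (@Lb.d (nat_lit 649) (nat_lit 258) (nat_lit 0) (@Lb.g g8 (@Lb.g g9 (@Lb.r r1686 (@Lb.r r1707 (@Lb.r r409 (@Lb.d (nat_lit 153) (nat_lit 0) (nat_lit 330) (@Lb.fm (nat_lit 3) t4195))))))))))
noncomputable def l20980 : Lb := (@Lb.d (nat_lit 273) (nat_lit 266) (nat_lit 161) (@Lb.r r24 (@Lb.r r101 (@Lb.g g6 (@Lb.d (nat_lit 0) (nat_lit 4) (nat_lit 1) (@Lb.t (@Lb.fm (nat_lit 3) t2129)))))))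
noncomputable def l20981 : Lb := (@Lb.d (nat_lit 0) (nat_lit 0) (nat_lit 72) (@Lb.g g11 (@Lb.r r402 (@Lb.r r579 (@Lb.d (nat_lit 0) (nat_lit 64) (nat_lit 18) (@Lb.t (@Lb.fp (nat_lit 3) t356)))))))
noncomputable def l20982 : Lb := (@Lb.d (nat_lit 1) (nat_lit 256) (nat_lit 130) (@Lb.g g8 (@Lb.g g10 (@Lb.g g11 (@Lb.r r419 (@Lb.r r405 (@Lb.r r2454 (@Lb.r r36 (@Lb.d (nat_lit 354) (nat_lit 66) (nat_lit 297) (@Lb.t (@Lb.fp (nat_lit 9) t4196)))))))))))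
noncomputable def l20983 : Lb := (@Lb.d (nat_lit 0) (nat_lit 512) (nat_lit 10) (@Lb.g g4 (@Lb.g g10 (@Lb.r r2643 (@Lb.r r401 (@Lb.r r2450 (@Lb.d (nat_lit 1) (nat_lit 154) (nat_lit 297) (@Lb.fp (nat_lit 3) t2169))))))))
noncomputable def l20984 : Lb := (@Lb.d (nat_lit 2) (nat_lit 33) (nat_lit 2) (@Lb.g g8 (@Lb.g g9 (@Lb.g g10 (@Lb.r r1675 (@Lb.r r1642 (@Lb.r r2145 (@Lb.r r2564 (@Lb.d (nat_lit 137) (nat_lit 136) (nat_lit 417) (@Lb.t (@Lb.fm (nat_lit 9) t441)))))))))))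
noncomputable def l20985 : Lb := (@Lb.d (nat_lit 2) (nat_lit 2) (nat_lit 130) (@Lb.g g8 (@Lb.g g9 (@Lb.g g10 (@Lb.g g11 (@Lb.r r427 (@Lb.r r386 (@Lb.r r1129 (@Lb.r r1124 (@Lb.d (nat_lit 281) (nat_lit 26) (nat_lit 612) (@Lb.fp (nat_lit 9) t455)))))))))))
noncomputable def l20986 : Lb := (@Lb.d (nat_lit 2) (nat_lit 37) (nat_lit 10) (@Lb.g g8 (@Lb.g g9 (@Lb.g g10 (@Lb.g g11 (@Lb.r r675 (@Lb.r r578 (@Lb.r r609 (@Lb.d (nat_lit 0) (nat_lit 9) (nat_lit 133) (@Lb.fp (nat_lit 9) t50))))))))))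
noncomputable def l20987 : Lb := (@Lb.d (nat_lit 2) (nat_lit 265) (nat_lit 132) (@Lb.r r610 (@Lb.r r337 (@Lb.g g7 (@Lb.g g6 (@Lb.g g5 (@Lb.g g8 (@Lb.d (nat_lit 0) (nat_lit 6) (nat_lit 68) (@Lb.fm (nat_lit 9) t50)))))))))
noncomputable def l20988 : Lb := (@Lb.d (nat_lit 2) (nat_lit 8) (nat_lit 10) (@Lb.g g8 (@Lb.g g10 (@Lb.g g11 (@Lb.r r601 (@Lb.r r595 (@Lb.r r326 (@Lb.d (nat_lit 86) (nat_lit 1) (nat_lit 134) (@Lb.t (@Lb.fp (nat_lit 9) t145))))))))))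
noncomputable def l20989 : Lb := (@Lb.d (nat_lit 149) (nat_lit 346) (nat_lit 534) (@Lb.r r1446 (@Lb.g g11 (@Lb.g g6 (@Lb.g g5 (@Lb.d (nat_lit 4) (nat_lit 6) (nat_lit 2) (@Lb.t (@Lb.fp (nat_lit 9) t743))))))))
noncomputable def l20990 : Lb := (@Lb.d (nat_lit 0) (nat_lit 32) (nat_lit 130) (@Lb.g g8 (@Lb.g g10 (@Lb.g g11 (@Lb.r r2138 (@Lb.r r149 (@Lb.r r328 (@Lb.r r2599 (@Lb.d (nat_lit 640) (nat_lit 169) (nat_lit 258) (@Lb.t (@Lb.fm (nat_lit 9) t71)))))))))))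
noncomputable def l20991 : Lb := (@Lb.r r70 (@Lb.d (nat_lit 5) (nat_lit 512) (nat_lit 64) (@Lb.g g8 (@Lb.g g9 (@Lb.g g11 (@Lb.r r665 (@Lb.r r1431 (@Lb.r r2632 (@Lb.r r2182 (@Lb.d (nat_lit 517) (nat_lit 1) (nat_lit 596) (@Lb.t (@Lb.fm (nat_lit 9) t86))))))))))))
noncomputable def l20992 : Lb := (@Lb.r r82 (@Lb.d (nat_lit 130) (nat_lit 16) (nat_lit 128) (@Lb.g g8 (@Lb.g g9 (@Lb.g g11 (@Lb.r r299 (@Lb.r r2394 (@Lb.r r1377 (@Lb.r r660 (@Lb.d (nat_lit 24) (nat_lit 133) (nat_lit 129) (@Lb.t (@Lb.fp (nat_lit 9) t2564))))))))))))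
noncomputable def l20993 : Lb := (@Lb.r r323 (@Lb.d (nat_lit 4) (nat_lit 512) (nat_lit 2) (@Lb.g g8 (@Lb.g g9 (@Lb.g g10 (@Lb.r r1687 (@Lb.r r2154 (@Lb.r r97 (@Lb.r r24 (@Lb.d (nat_lit 2) (nat_lit 0) (nat_lit 18) (@Lb.t (@Lb.fp (nat_lit 9) t61))))))))))))
noncomputable def l20994 : Lb := (@Lb.d (nat_lit 406) (nat_lit 329) (nat_lit 326) (@Lb.r r1604 (@Lb.r r1621 (@Lb.r r2391 (@Lb.g g6 (@Lb.g g5 (@Lb.g g4 (@Lb.d (nat_lit 2) (nat_lit 1) (nat_lit 34) (@Lb.t (@Lb.fp (nat_lit 9) t1537))))))))))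
noncomputable def l20995 : Lb := (@Lb.r r82 (@Lb.d (nat_lit 130) (nat_lit 528) (nat_lit 128) (@Lb.g g8 (@Lb.g g9 (@Lb.g g11 (@Lb.r r299 (@Lb.r r2394 (@Lb.r r1377 (@Lb.r r660 (@Lb.d (nat_lit 25) (nat_lit 133) (nat_lit 129) (@Lb.t (@Lb.fp (nat_lit 9) t4197))))))))))))
noncomputable def l20996 : Lb := (@Lb.d (nat_lit 2) (nat_lit 2) (nat_lit 130) (@Lb.g g8 (@Lb.g g9 (@Lb.g g10 (@Lb.g g11 (@Lb.r r2729 (@Lb.r r2475 (@Lb.r r2468 (@Lb.r r2438 (@Lb.d (nat_lit 609) (nat_lit 73) (nat_lit 617) (@Lb.fp (nat_lit 9) t652)))))))))))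
noncomputable def l20997 : Lb := (@Lb.r r289 (@Lb.r r535 (@Lb.r r328 (@Lb.r r134 (@Lb.g g10 (@Lb.t (@Lb.p (nat_lit 1) (@Lb.fp (nat_lit 3) t130))))))))
noncomputable def l20998 : Lb := (@Lb.d (nat_lit 2) (nat_lit 265) (nat_lit 129) (@Lb.g g8 (@Lb.g g9 (@Lb.g g10 (@Lb.g g11 (@Lb.r r2729 (@Lb.r r2475 (@Lb.r r2468 (@Lb.r r2438 (@Lb.d (nat_lit 609) (nat_lit 73) (nat_lit 617) (@Lb.fp (nat_lit 9) t4198)))))))))))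
noncomputable def l20999 : Lb := (@Lb.d (nat_lit 130) (nat_lit 521) (nat_lit 0) (@Lb.g g8 (@Lb.g g9 (@Lb.r r2375 (@Lb.r r146 (@Lb.r r97 (@Lb.r r1540 (@Lb.d (nat_lit 386) (nat_lit 74) (nat_lit 641) (@Lb.fm (nat_lit 3) t2243)))))))))
noncomputable def l21000 : Lb := (@Lb.d (nat_lit 0) (nat_lit 294) (nat_lit 70) (@Lb.r r322 (@Lb.r r659 (@Lb.g g7 (@Lb.g g6 (@Lb.g g9 (@Lb.d (nat_lit 0) (nat_lit 10) (nat_lit 64) (@Lb.t (@Lb.fp (nat_lit 9) t1176)))))))))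
noncomputable def l21001 : Lb := (@Lb.r r323 (@Lb.g g10 (@Lb.r r353 (@Lb.r r1618 (@Lb.r r1619 (@Lb.r r145 (@Lb.t (@Lb.fp (nat_lit 3) t246))))))))
noncomputable def l21002 : Lb := (@Lb.d (nat_lit 1) (nat_lit 274) (nat_lit 74) (@Lb.r r260 (@Lb.r r161 (@Lb.r r267 (@Lb.r r404 (@Lb.g g7 (@Lb.g g6 (@Lb.g g5 (@Lb.g g4 (@Lb.d (nat_lit 41) (nat_lit 8) (nat_lit 64) (@Lb.fm (nat_lit 9) t983)))))))))))
noncomputable def l21003 : Lb := (@Lb.r r81 (@Lb.d (nat_lit 144) (nat_lit 0) (nat_lit 106) (@Lb.g g8 (@Lb.g g10 (@Lb.g g11 (@Lb.r r1419 (@Lb.r r280 (@Lb.r r37 (@Lb.d (nat_lit 2) (nat_lit 165) (nat_lit 160) (@Lb.t (@Lb.fm (nat_lit 9) t2343)))))))))))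
noncomputable def l21004 : Lb := (@Lb.r r82 (@Lb.d (nat_lit 9) (nat_lit 1) (nat_lit 64) (@Lb.g g8 (@Lb.g g5 (@Lb.g g11 (@Lb.r r532 (@Lb.r r2311 (@Lb.r r98 (@Lb.r r1540 (@Lb.d (nat_lit 2) (nat_lit 160) (nat_lit 640) (@Lb.t (@Lb.fp (nat_lit 9) t233))))))))))))
noncomputable def l21005 : Lb := (@Lb.d (nat_lit 642) (nat_lit 10) (nat_lit 386) (@Lb.r r24 (@Lb.r r101 (@Lb.r r402 (@Lb.g g11 (@Lb.d (nat_lit 0) (nat_lit 0) (nat_lit 136) (@Lb.t (@Lb.fm (nat_lit 3) t4199))))))))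
noncomputable def l21006 : Lb := (@Lb.d (nat_lit 33) (nat_lit 0) (nat_lit 72) (@Lb.r r154 (@Lb.r r404 (@Lb.r r363 (@Lb.r r353 (@Lb.g g7 (@Lb.g g6 (@Lb.g g4 (@Lb.d (nat_lit 5) (nat_lit 0) (nat_lit 64) (@Lb.t (@Lb.fp (nat_lit 9) t51)))))))))))
noncomputable def l21007 : Lb := (@Lb.d (nat_lit 297) (nat_lit 5) (nat_lit 582) (@Lb.r r1385 (@Lb.r r2583 (@Lb.r r1380 (@Lb.g g10 (@Lb.g g5 (@Lb.d (nat_lit 20) (nat_lit 17) (nat_lit 18) (@Lb.r r387 (@Lb.fp (nat_lit 3) t140)))))))))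
noncomputable def l21008 : Lb := (@Lb.d (nat_lit 128) (nat_lit 2) (nat_lit 644) (@Lb.g g9 (@Lb.g g11 (@Lb.r r2376 (@Lb.r r1158 (@Lb.r r25 (@Lb.d (nat_lit 5) (nat_lit 134) (nat_lit 128) (@Lb.fm (nat_lit 3) t1503))))))))
noncomputable def l21009 : Lb := (@Lb.r r323 (@Lb.d (nat_lit 2) (nat_lit 2) (nat_lit 0) (@Lb.g g8 (@Lb.g g9 (@Lb.g g10 (@Lb.r r427 (@Lb.r r106 (@Lb.r r145 (@Lb.d (nat_lit 38) (nat_lit 8) (nat_lit 1) (@Lb.t (@Lb.fm (nat_lit 9) t4200)))))))))))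
noncomputable def l21010 : Lb := (@Lb.d (nat_lit 165) (nat_lit 280) (nat_lit 648) (@Lb.r r1382 (@Lb.r r1109 (@Lb.r r1320 (@Lb.r r2695 (@Lb.g g7 (@Lb.g g6 (@Lb.g g5 (@Lb.d (nat_lit 16) (nat_lit 1) (nat_lit 134) (@Lb.t (@Lb.fp (nat_lit 9) t1499)))))))))))
noncomputable def l21011 : Lb := (@Lb.d (nat_lit 545) (nat_lit 256) (nat_lit 129) (@Lb.g g8 (@Lb.g g9 (@Lb.g g10 (@Lb.g g11 (@Lb.r r2475 (@Lb.r r409 (@Lb.r r2138 (@Lb.r r2193 (@Lb.d (nat_lit 265) (nat_lit 73) (nat_lit 18) (@Lb.fp (nat_lit 9) t1499)))))))))))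
noncomputable def l21012 : Lb := (@Lb.d (nat_lit 9) (nat_lit 258) (nat_lit 66) (@Lb.g g8 (@Lb.g g9 (@Lb.g g10 (@Lb.g g7 (@Lb.r r386 (@Lb.r r2145 (@Lb.r r24 (@Lb.d (nat_lit 330) (nat_lit 73) (nat_lit 553) (@Lb.fp (nat_lit 9) t166))))))))))
noncomputable def l21013 : Lb := (@Lb.d (nat_lit 280) (nat_lit 128) (nat_lit 17) (@Lb.r r24 (@Lb.r r101 (@Lb.g g11 (@Lb.g g6 (@Lb.d (nat_lit 0) (nat_lit 4) (nat_lit 1) (@Lb.fp (nat_lit 3) t108)))))))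
noncomputable def l21014 : Lb := (@Lb.d (nat_lit 400) (nat_lit 665) (nat_lit 610) (@Lb.r r101 (@Lb.r r24 (@Lb.r r1346 (@Lb.r r2707 (@Lb.g g7 (@Lb.g g6 (@Lb.d (nat_lit 0) (nat_lit 0) (nat_lit 133) (@Lb.fp (nat_lit 3) t1900)))))))))
noncomputable def l21015 : Lb := (@Lb.d (nat_lit 0) (nat_lit 260) (nat_lit 64) (@Lb.g g9 (@Lb.g g10 (@Lb.g g7 (@Lb.r r424 (@Lb.r r106 (@Lb.r r25 (@Lb.d (nat_lit 106) (nat_lit 9) (nat_lit 8) (@Lb.t (@Lb.fm (nat_lit 9) t1548))))))))))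
noncomputable def l21016 : Lb := (@Lb.r r21 (@Lb.d (nat_lit 17) (nat_lit 4) (nat_lit 162) (@Lb.g g8 (@Lb.g g6 (@Lb.g g11 (@Lb.r r667 (@Lb.r r97 (@Lb.r r552 (@Lb.d (nat_lit 330) (nat_lit 144) (nat_lit 129) (@Lb.t (@Lb.fm (nat_lit 9) t152)))))))))))
noncomputable def l21017 : Lb := (@Lb.d (nat_lit 128) (nat_lit 256) (nat_lit 128) (@Lb.g g11 (@Lb.r r537 (@Lb.r r292 (@Lb.r r539 (@Lb.r r614 (@Lb.d (nat_lit 325) (nat_lit 97) (nat_lit 384) (@Lb.t (@Lb.fm (nat_lit 3) t3111)))))))))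
noncomputable def l21018 : Lb := (@Lb.d (nat_lit 2) (nat_lit 2) (nat_lit 2) (@Lb.g g8 (@Lb.g g9 (@Lb.g g10 (@Lb.g g7 (@Lb.r r386 (@Lb.r r2657 (@Lb.r r24 (@Lb.d (nat_lit 10) (nat_lit 89) (nat_lit 9) (@Lb.fp (nat_lit 9) t2877))))))))))
noncomputable def l21019 : Lb := (@Lb.d (nat_lit 677) (nat_lit 344) (nat_lit 102) (@Lb.r r347 (@Lb.r r280 (@Lb.r r1621 (@Lb.r r1186 (@Lb.g g7 (@Lb.g g6 (@Lb.g g5 (@Lb.d (nat_lit 64) (nat_lit 0) (nat_lit 133) (@Lb.t (@Lb.fp (nat_lit 9) t71)))))))))))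
noncomputable def l21020 : Lb := (@Lb.r r70 (@Lb.r r2311 (@Lb.d (nat_lit 0) (nat_lit 514) (nat_lit 0) (@Lb.g g8 (@Lb.g g9 (@Lb.r r2442 (@Lb.r r40 (@Lb.r r25 (@Lb.d (nat_lit 522) (nat_lit 102) (nat_lit 85) (@Lb.fm (nat_lit 3) t1900))))))))))
noncomputable def l21021 : Lb := (@Lb.d (nat_lit 0) (nat_lit 514) (nat_lit 132) (@Lb.g g8 (@Lb.g g9 (@Lb.g g10 (@Lb.g g7 (@Lb.r r386 (@Lb.r r104 (@Lb.r r25 (@Lb.d (nat_lit 522) (nat_lit 2) (nat_lit 41) (@Lb.fm (nat_lit 9) t40))))))))))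
noncomputable def l21022 : Lb := (@Lb.d (nat_lit 2) (nat_lit 256) (nat_lit 133) (@Lb.g g8 (@Lb.g g10 (@Lb.g g7 (@Lb.r r2698 (@Lb.r r1433 (@Lb.r r2436 (@Lb.d (nat_lit 337) (nat_lit 0) (nat_lit 9) (@Lb.t (@Lb.fm (nat_lit 9) t1741))))))))))
noncomputable def l21023 : Lb := (@Lb.r r323 (@Lb.d (nat_lit 130) (nat_lit 34) (nat_lit 0) (@Lb.g g8 (@Lb.g g9 (@Lb.g g10 (@Lb.r r1559 (@Lb.r r578 (@Lb.r r2312 (@Lb.d (nat_lit 290) (nat_lit 166) (nat_lit 320) (@Lb.t (@Lb.fm (nat_lit 9) t445)))))))))))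
noncomputable def l21024 : Lb := (@Lb.d (nat_lit 0) (nat_lit 256) (nat_lit 64) (@Lb.g g8 (@Lb.g g7 (@Lb.d (nat_lit 0) (nat_lit 0) (nat_lit 69) (@Lb.fp (nat_lit 3) t2)))))
noncomputable def l21025 : Lb := (@Lb.r r330 (@Lb.d (nat_lit 73) (nat_lit 256) (nat_lit 384) (@Lb.g g8 (@Lb.g g7 (@Lb.r r593 (@Lb.r r614 (@Lb.r r2712 (@Lb.d (nat_lit 650) (nat_lit 170) (nat_lit 138) (@Lb.fm (nat_lit 3) t2188)))))))))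
noncomputable def l21026 : Lb := (@Lb.d (nat_lit 68) (nat_lit 37) (nat_lit 424) (@Lb.r r1428 (@Lb.r r2730 (@Lb.r r1623 (@Lb.g g7 (@Lb.g g6 (@Lb.g g5 (@Lb.g g4 (@Lb.d (nat_lit 25) (nat_lit 128) (nat_lit 65) (@Lb.fp (nat_lit 9) t277))))))))))
noncomputable def l21027 : Lb := (@Lb.d (nat_lit 389) (nat_lit 657) (nat_lit 322) (@Lb.r r1560 (@Lb.r r2145 (@Lb.r r363 (@Lb.g g10 (@Lb.g g4 (@Lb.d (nat_lit 66) (nat_lit 8) (nat_lit 38) (@Lb.fp (nat_lit 3) t524))))))))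
noncomputable def l21028 : Lb := (@Lb.d (nat_lit 522) (nat_lit 360) (nat_lit 514) (@Lb.r r1284 (@Lb.r r1414 (@Lb.r r2587 (@Lb.r r273 (@Lb.g g7 (@Lb.g g5 (@Lb.d (nat_lit 0) (nat_lit 1) (nat_lit 64) (@Lb.fm (nat_lit 3) t4201)))))))))
noncomputable def l21029 : Lb := (@Lb.r r1284 (@Lb.d (nat_lit 32) (nat_lit 514) (nat_lit 105) (@Lb.g g9 (@Lb.g g10 (@Lb.g g11 (@Lb.r r1705 (@Lb.r r2471 (@Lb.d (nat_lit 340) (nat_lit 38) (nat_lit 328) (@Lb.t (@Lb.fp (nat_lit 9) t4202))))))))))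
noncomputable def l21030 : Lb := (@Lb.d (nat_lit 512) (nat_lit 512) (nat_lit 256) (@Lb.r r24 (@Lb.r r101 (@Lb.r r402 (@Lb.g g7 (@Lb.g g6 (@Lb.fp (nat_lit 3) t4203)))))))
noncomputable def l21031 : Lb := (@Lb.d (nat_lit 384) (nat_lit 400) (nat_lit 322) (@Lb.r r1560 (@Lb.r r2145 (@Lb.r r363 (@Lb.g g10 (@Lb.g g4 (@Lb.d (nat_lit 65) (nat_lit 8) (nat_lit 38) (@Lb.fp (nat_lit 3) t524))))))))
noncomputable def l21032 : Lb := (@Lb.d (nat_lit 1) (nat_lit 145) (nat_lit 322) (@Lb.r r260 (@Lb.r r2145 (@Lb.r r267 (@Lb.r r404 (@Lb.g g7 (@Lb.g g10 (@Lb.g g4 (@Lb.d (nat_lit 2) (nat_lit 8) (nat_lit 97) (@Lb.t (@Lb.fp (nat_lit 9) t607)))))))))))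
noncomputable def l21033 : Lb := (@Lb.d (nat_lit 0) (nat_lit 10) (nat_lit 0) (@Lb.g g9 (@Lb.r r594 (@Lb.r r2449 (@Lb.d (nat_lit 400) (nat_lit 154) (nat_lit 410) (@Lb.t (@Lb.fp (nat_lit 3) t4204)))))))
noncomputable def l21034 : Lb := (@Lb.r r1371 (@Lb.r r134 (@Lb.r r1304 (@Lb.r r2661 (@Lb.d (nat_lit 386) (nat_lit 256) (nat_lit 400) (@Lb.fm (nat_lit 1) t1122))))))
noncomputable def l21035 : Lb := (@Lb.r r21 (@Lb.d (nat_lit 10) (nat_lit 520) (nat_lit 129) (@Lb.g g8 (@Lb.g g6 (@Lb.g g11 (@Lb.r r2197 (@Lb.r r2408 (@Lb.r r2439 (@Lb.d (nat_lit 610) (nat_lit 162) (nat_lit 616) (@Lb.t (@Lb.fm (nat_lit 9) t2597)))))))))))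
noncomputable def l21036 : Lb := (@Lb.d (nat_lit 9) (nat_lit 257) (nat_lit 73) (@Lb.g g8 (@Lb.g g9 (@Lb.g g10 (@Lb.g g11 (@Lb.r r427 (@Lb.r r356 (@Lb.r r154 (@Lb.r r1109 (@Lb.r r2212 (@Lb.d (nat_lit 553) (nat_lit 9) (nat_lit 2) (@Lb.fm (nat_lit 9) t4205))))))))))))
noncomputable def l21037 : Lb := (@Lb.d (nat_lit 9) (nat_lit 513) (nat_lit 130) (@Lb.g g8 (@Lb.g g9 (@Lb.g g10 (@Lb.g g11 (@Lb.r r427 (@Lb.r r145 (@Lb.r r356 (@Lb.r r154 (@Lb.r r132 (@Lb.d (nat_lit 0) (nat_lit 73) (nat_lit 18) (@Lb.fm (nat_lit 9) t741))))))))))))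
noncomputable def l21038 : Lb := (@Lb.g g5 (@Lb.r r1319 (@Lb.r r24 (@Lb.d (nat_lit 578) (nat_lit 576) (nat_lit 512) (@Lb.t (@Lb.fp (nat_lit 3) t1168))))))
noncomputable def l21039 : Lb := (@Lb.d (nat_lit 1) (nat_lit 0) (nat_lit 34) (@Lb.g g8 (@Lb.g g6 (@Lb.r r2603 (@Lb.r r2081 (@Lb.r r532 (@Lb.d (nat_lit 650) (nat_lit 98) (nat_lit 162) (@Lb.fp (nat_lit 3) t4206))))))))
noncomputable def l21040 : Lb := (@Lb.d (nat_lit 128) (nat_lit 256) (nat_lit 130) (@Lb.g g10 (@Lb.g g11 (@Lb.r r2630 (@Lb.r r1412 (@Lb.r r2635 (@Lb.r r537 (@Lb.d (nat_lit 609) (nat_lit 0) (nat_lit 2) (@Lb.fp (nat_lit 3) t4207)))))))))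
noncomputable def l21041 : Lb := (@Lb.r r68 (@Lb.r r81 (@Lb.d (nat_lit 0) (nat_lit 256) (nat_lit 18) (@Lb.g g10 (@Lb.r r1419 (@Lb.r r1304 (@Lb.r r37 (@Lb.d (nat_lit 0) (nat_lit 72) (nat_lit 129) (@Lb.t (@Lb.fp (nat_lit 3) t644))))))))))
noncomputable def l21042 : Lb := (@Lb.d (nat_lit 129) (nat_lit 264) (nat_lit 2) (@Lb.g g8 (@Lb.g g10 (@Lb.r r519 (@Lb.r r2456 (@Lb.r r101 (@Lb.r r154 (@Lb.d (nat_lit 10) (nat_lit 168) (nat_lit 678) (@Lb.fm (nat_lit 3) t127)))))))))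
noncomputable def l21043 : Lb := (@Lb.d (nat_lit 9) (nat_lit 0) (nat_lit 73) (@Lb.g g8 (@Lb.g g10 (@Lb.g g11 (@Lb.r r289 (@Lb.r r535 (@Lb.r r2440 (@Lb.r r2122 (@Lb.d (nat_lit 276) (nat_lit 74) (nat_lit 128) (@Lb.t (@Lb.fp (nat_lit 9) t427)))))))))))
noncomputable def l21044 : Lb := (@Lb.d (nat_lit 9) (nat_lit 516) (nat_lit 74) (@Lb.g g8 (@Lb.g g9 (@Lb.g g10 (@Lb.g g11 (@Lb.r r2667 (@Lb.r r1610 (@Lb.r r660 (@Lb.r r425 (@Lb.r r36 (@Lb.d (nat_lit 533) (nat_lit 104) (nat_lit 329) (@Lb.fp (nat_lit 9) t658))))))))))))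
noncomputable def l21045 : Lb := (@Lb.d (nat_lit 330) (nat_lit 546) (nat_lit 256) (@Lb.r r101 (@Lb.r r1362 (@Lb.g g7 (@Lb.g g6 (@Lb.d (nat_lit 0) (nat_lit 0) (nat_lit 134) (@Lb.fp (nat_lit 3) t482)))))))
noncomputable def l21046 : Lb := (@Lb.d (nat_lit 32) (nat_lit 2) (nat_lit 73) (@Lb.g g9 (@Lb.g g10 (@Lb.g g11 (@Lb.r r2695 (@Lb.r r1352 (@Lb.r r2182 (@Lb.r r97 (@Lb.d (nat_lit 129) (nat_lit 24) (nat_lit 425) (@Lb.t (@Lb.fm (nat_lit 9) t1597)))))))))))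
noncomputable def l21047 : Lb := (@Lb.d (nat_lit 0) (nat_lit 256) (nat_lit 138) (@Lb.g g11 (@Lb.g g5 (@Lb.g g4 (@Lb.t (@Lb.fm (nat_lit 9) t2))))))
noncomputable def l21048 : Lb := (@Lb.r r322 (@Lb.d (nat_lit 0) (nat_lit 258) (nat_lit 136) (@Lb.g g9 (@Lb.g g11 (@Lb.r r1430 (@Lb.r r97 (@Lb.r r24 (@Lb.d (nat_lit 24) (nat_lit 9) (nat_lit 64) (@Lb.fp (nat_lit 3) t145)))))))))
noncomputable def l21049 : Lb := (@Lb.d (nat_lit 4) (nat_lit 513) (nat_lit 0) (@Lb.g g5 (@Lb.r r1319 (@Lb.r r1126 (@Lb.r r24 (@Lb.d (nat_lit 69) (nat_lit 65) (nat_lit 512) (@Lb.t (@Lb.fp (nat_lit 3) t1025))))))))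
noncomputable def l21050 : Lb := (@Lb.r r408 (@Lb.r r1418 (@Lb.r r2391 (@Lb.r r1057 (@Lb.r r644 (@Lb.fm (nat_lit 1) t820))))))
noncomputable def l21051 : Lb := (@Lb.d (nat_lit 530) (nat_lit 256) (nat_lit 86) (@Lb.r r386 (@Lb.r r2579 (@Lb.r r2389 (@Lb.g g7 (@Lb.g g6 (@Lb.g g5 (@Lb.g g4 (@Lb.d (nat_lit 1) (nat_lit 1) (nat_lit 65) (@Lb.fp (nat_lit 9) t501))))))))))
noncomputable def l21052 : Lb := (@Lb.d (nat_lit 0) (nat_lit 6) (nat_lit 2) (@Lb.g g9 (@Lb.g g10 (@Lb.r r81 (@Lb.r r2210 (@Lb.r r145 (@Lb.d (nat_lit 0) (nat_lit 134) (nat_lit 34) (@Lb.fp (nat_lit 3) t99))))))))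
noncomputable def l21053 : Lb := (@Lb.d (nat_lit 0) (nat_lit 517) (nat_lit 74) (@Lb.g g5 (@Lb.g g10 (@Lb.g g11 (@Lb.r r659 (@Lb.r r578 (@Lb.d (nat_lit 0) (nat_lit 20) (nat_lit 136) (@Lb.t (@Lb.fm (nat_lit 9) t50)))))))))
noncomputable def l21054 : Lb := (@Lb.r r21 (@Lb.r r70 (@Lb.d (nat_lit 513) (nat_lit 0) (nat_lit 0) (@Lb.g g4 (@Lb.g g7 (@Lb.r r402 (@Lb.r r97 (@Lb.d (nat_lit 1) (nat_lit 66) (nat_lit 512) (@Lb.fm (nat_lit 3) t720)))))))))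
noncomputable def l21055 : Lb := (@Lb.d (nat_lit 32) (nat_lit 256) (nat_lit 10) (@Lb.g g6 (@Lb.r r427 (@Lb.r r424 (@Lb.r r2473 (@Lb.r r1450 (@Lb.d (nat_lit 361) (nat_lit 89) (nat_lit 154) (@Lb.t (@Lb.fp (nat_lit 3) t386)))))))))
noncomputable def l21056 : Lb := (@Lb.r r296 (@Lb.r r2345 (@Lb.r r1367 (@Lb.r r1602 (@Lb.r r1188 (@Lb.d (nat_lit 0) (nat_lit 512) (nat_lit 85) (@Lb.fp (nat_lit 1) t386)))))))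
noncomputable def l21057 : Lb := (@Lb.d (nat_lit 325) (nat_lit 33) (nat_lit 256) (@Lb.r r101 (@Lb.r r1362 (@Lb.g g7 (@Lb.g g6 (@Lb.d (nat_lit 0) (nat_lit 0) (nat_lit 134) (@Lb.fp (nat_lit 3) t482)))))))
noncomputable def l21058 : Lb := (@Lb.d (nat_lit 330) (nat_lit 41) (nat_lit 258) (@Lb.r r101 (@Lb.r r1362 (@Lb.g g7 (@Lb.g g6 (@Lb.d (nat_lit 0) (nat_lit 0) (nat_lit 134) (@Lb.fp (nat_lit 3) t4208)))))))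
noncomputable def l21059 : Lb := (@Lb.d (nat_lit 16) (nat_lit 8) (nat_lit 1) (@Lb.g g6 (@Lb.r r328 (@Lb.r r407 (@Lb.r r609 (@Lb.d (nat_lit 0) (nat_lit 24) (nat_lit 152) (@Lb.t (@Lb.fm (nat_lit 3) t1796))))))))
noncomputable def l21060 : Lb := (@Lb.d (nat_lit 66) (nat_lit 24) (nat_lit 130) (@Lb.r r597 (@Lb.r r1642 (@Lb.r r1352 (@Lb.r r2695 (@Lb.g g7 (@Lb.g g6 (@Lb.d (nat_lit 16) (nat_lit 0) (nat_lit 134) (@Lb.fm (nat_lit 3) t4209)))))))))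
noncomputable def l21061 : Lb := (@Lb.d (nat_lit 650) (nat_lit 146) (nat_lit 576) (@Lb.r r346 (@Lb.r r539 (@Lb.r r532 (@Lb.r r277 (@Lb.g g7 (@Lb.d (nat_lit 64) (nat_lit 0) (nat_lit 64) (@Lb.t (@Lb.fp (nat_lit 3) t2172)))))))))
noncomputable def l21062 : Lb := (@Lb.d (nat_lit 0) (nat_lit 512) (nat_lit 66) (@Lb.g g9 (@Lb.g g10 (@Lb.g g7 (@Lb.r r2470 (@Lb.r r149 (@Lb.d (nat_lit 261) (nat_lit 98) (nat_lit 512) (@Lb.t (@Lb.fm (nat_lit 9) t2098)))))))))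
noncomputable def l21063 : Lb := (@Lb.d (nat_lit 0) (nat_lit 0) (nat_lit 66) (@Lb.g g10 (@Lb.g g7 (@Lb.r r386 (@Lb.r r101 (@Lb.d (nat_lit 17) (nat_lit 10) (nat_lit 9) (@Lb.fp (nat_lit 3) t285)))))))
noncomputable def l21064 : Lb := (@Lb.d (nat_lit 592) (nat_lit 521) (nat_lit 329) (@Lb.r r395 (@Lb.r r328 (@Lb.r r662 (@Lb.g g7 (@Lb.g g9 (@Lb.d (nat_lit 64) (nat_lit 154) (nat_lit 128) (@Lb.r r98 (@Lb.fp (nat_lit 3) t4210)))))))))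
noncomputable def l21065 : Lb := (@Lb.d (nat_lit 0) (nat_lit 256) (nat_lit 66) (@Lb.g g10 (@Lb.g g7 (@Lb.r r386 (@Lb.r r101 (@Lb.d (nat_lit 261) (nat_lit 1) (nat_lit 41) (@Lb.fp (nat_lit 3) t1591)))))))
noncomputable def l21066 : Lb := (@Lb.d (nat_lit 0) (nat_lit 512) (nat_lit 102) (@Lb.r r1105 (@Lb.r r1363 (@Lb.g g6 (@Lb.g g5 (@Lb.r r291 (@Lb.fm (nat_lit 3) t9)))))))
noncomputable def l21067 : Lb := (@Lb.r r82 (@Lb.r r275 (@Lb.d (nat_lit 34) (nat_lit 416) (nat_lit 0) (@Lb.g g4 (@Lb.g g9 (@Lb.r r2579 (@Lb.r r154 (@Lb.r r1432 (@Lb.d (nat_lit 357) (nat_lit 41) (nat_lit 662) (@Lb.fm (nat_lit 3) t1939))))))))))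
noncomputable def l21068 : Lb := (@Lb.r r323 (@Lb.d (nat_lit 0) (nat_lit 4) (nat_lit 0) (@Lb.g g9 (@Lb.g g10 (@Lb.r r2331 (@Lb.r r161 (@Lb.r r2154 (@Lb.d (nat_lit 550) (nat_lit 9) (nat_lit 33) (@Lb.fp (nat_lit 3) t784)))))))))
noncomputable def l21069 : Lb := (@Lb.d (nat_lit 0) (nat_lit 512) (nat_lit 130) (@Lb.g g9 (@Lb.g g10 (@Lb.g g11 (@Lb.r r1363 (@Lb.r r386 (@Lb.r r1113 (@Lb.r r24 (@Lb.d (nat_lit 672) (nat_lit 0) (nat_lit 329) (@Lb.t (@Lb.fm (nat_lit 9) t3016)))))))))))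
noncomputable def l21070 : Lb := (@Lb.d (nat_lit 4) (nat_lit 513) (nat_lit 130) (@Lb.g g5 (@Lb.g g10 (@Lb.g g11 (@Lb.r r2587 (@Lb.r r386 (@Lb.r r24 (@Lb.d (nat_lit 130) (nat_lit 1) (nat_lit 329) (@Lb.t (@Lb.fm (nat_lit 9) t396))))))))))
noncomputable def l21071 : Lb := (@Lb.d (nat_lit 40) (nat_lit 258) (nat_lit 130) (@Lb.g g9 (@Lb.g g10 (@Lb.g g11 (@Lb.r r24 (@Lb.r r2389 (@Lb.r r1443 (@Lb.r r354 (@Lb.d (nat_lit 329) (nat_lit 105) (nat_lit 37) (@Lb.t (@Lb.fp (nat_lit 9) t1079)))))))))))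
noncomputable def l21072 : Lb := (@Lb.d (nat_lit 2) (nat_lit 25) (nat_lit 130) (@Lb.g g8 (@Lb.g g9 (@Lb.g g10 (@Lb.g g11 (@Lb.r r2467 (@Lb.r r1449 (@Lb.r r1188 (@Lb.r r1158 (@Lb.d (nat_lit 417) (nat_lit 10) (nat_lit 421) (@Lb.fp (nat_lit 9) t1312)))))))))))
noncomputable def l21073 : Lb := (@Lb.r r402 (@Lb.r r101 (@Lb.d (nat_lit 293) (nat_lit 320) (nat_lit 530) (@Lb.fp (nat_lit 1) t1018))))
noncomputable def l21074 : Lb := (@Lb.r r82 (@Lb.g g9 (@Lb.r r2154 (@Lb.r r2073 (@Lb.d (nat_lit 258) (nat_lit 0) (nat_lit 0) (@Lb.t (@Lb.fp (nat_lit 3) t869)))))))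
noncomputable def l21075 : Lb := (@Lb.d (nat_lit 8) (nat_lit 256) (nat_lit 2) (@Lb.g g9 (@Lb.g g10 (@Lb.r r1543 (@Lb.r r1108 (@Lb.r r2474 (@Lb.r r2393 (@Lb.d (nat_lit 282) (nat_lit 145) (nat_lit 404) (@Lb.fm (nat_lit 3) t4211)))))))))
noncomputable def l21076 : Lb := (@Lb.d (nat_lit 0) (nat_lit 16) (nat_lit 642) (@Lb.g g9 (@Lb.g g10 (@Lb.g g7 (@Lb.r r1448 (@Lb.r r1130 (@Lb.r r1049 (@Lb.d (nat_lit 618) (nat_lit 73) (nat_lit 72) (@Lb.t (@Lb.fm (nat_lit 9) t2153))))))))))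
noncomputable def l21077 : Lb := (@Lb.d (nat_lit 8) (nat_lit 0) (nat_lit 2) (@Lb.g g9 (@Lb.g g10 (@Lb.r r1543 (@Lb.r r1108 (@Lb.r r2474 (@Lb.r r2393 (@Lb.d (nat_lit 280) (nat_lit 145) (nat_lit 404) (@Lb.fm (nat_lit 3) t4212)))))))))
noncomputable def l21078 : Lb := (@Lb.d (nat_lit 8) (nat_lit 2) (nat_lit 2) (@Lb.g g9 (@Lb.g g10 (@Lb.g g7 (@Lb.r r386 (@Lb.d (nat_lit 410) (nat_lit 89) (nat_lit 537) (@Lb.t (@Lb.fm (nat_lit 9) t3766))))))))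
noncomputable def l21079 : Lb := (@Lb.d (nat_lit 1) (nat_lit 322) (nat_lit 130) (@Lb.g g4 (@Lb.g g9 (@Lb.g g10 (@Lb.g g11 (@Lb.r r419 (@Lb.r r98 (@Lb.d (nat_lit 1) (nat_lit 168) (nat_lit 386) (@Lb.fm (nat_lit 9) t51)))))))))
noncomputable def l21080 : Lb := (@Lb.r r1045 (@Lb.d (nat_lit 261) (nat_lit 520) (nat_lit 130) (@Lb.g g4 (@Lb.g g10 (@Lb.g g11 (@Lb.r r387 (@Lb.d (nat_lit 1) (nat_lit 33) (nat_lit 386) (@Lb.t (@Lb.fp (nat_lit 9) t51)))))))))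
noncomputable def l21081 : Lb := (@Lb.r r20 (@Lb.d (nat_lit 32) (nat_lit 392) (nat_lit 1) (@Lb.g g5 (@Lb.g g10 (@Lb.r r1687 (@Lb.r r2408 (@Lb.r r1606 (@Lb.d (nat_lit 401) (nat_lit 64) (nat_lit 26) (@Lb.fp (nat_lit 3) t98)))))))))
noncomputable def l21082 : Lb := (@Lb.r r21 (@Lb.r r70 (@Lb.g g4 (@Lb.r r2631 (@Lb.r r402 (@Lb.r r97 (@Lb.r r1048 (@Lb.d (nat_lit 320) (nat_lit 512) (nat_lit 576) (@Lb.t (@Lb.fm (nat_lit 3) t98))))))))))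
noncomputable def l21083 : Lb := (@Lb.d (nat_lit 673) (nat_lit 258) (nat_lit 290) (@Lb.r r24 (@Lb.r r1178 (@Lb.r r2691 (@Lb.g g7 (@Lb.g g6 (@Lb.g g9 (@Lb.d (nat_lit 8) (nat_lit 2) (nat_lit 134) (@Lb.t (@Lb.fp (nat_lit 9) t1375))))))))))
noncomputable def l21084 : Lb := (@Lb.d (nat_lit 33) (nat_lit 514) (nat_lit 90) (@Lb.r r24 (@Lb.r r2138 (@Lb.g g11 (@Lb.g g9 (@Lb.d (nat_lit 8) (nat_lit 2) (nat_lit 0) (@Lb.fp (nat_lit 3) t267)))))))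
noncomputable def l21085 : Lb := (@Lb.r r21 (@Lb.d (nat_lit 1) (nat_lit 512) (nat_lit 74) (@Lb.g g8 (@Lb.g g10 (@Lb.g g11 (@Lb.r r2706 (@Lb.r r1415 (@Lb.r r97 (@Lb.r r2632 (@Lb.d (nat_lit 360) (nat_lit 2) (nat_lit 394) (@Lb.t (@Lb.fp (nat_lit 9) t1082))))))))))))
noncomputable def l21086 : Lb := (@Lb.r r68 (@Lb.r r81 (@Lb.d (nat_lit 16) (nat_lit 512) (nat_lit 17) (@Lb.g g10 (@Lb.r r1419 (@Lb.r r24 (@Lb.r r1317 (@Lb.d (nat_lit 0) (nat_lit 74) (nat_lit 129) (@Lb.t (@Lb.fp (nat_lit 3) t719))))))))))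
noncomputable def l21087 : Lb := (@Lb.d (nat_lit 4) (nat_lit 2) (nat_lit 73) (@Lb.g g8 (@Lb.g g9 (@Lb.g g10 (@Lb.g g11 (@Lb.r r2122 (@Lb.r r296 (@Lb.r r409 (@Lb.r r1319 (@Lb.r r2564 (@Lb.d (nat_lit 10) (nat_lit 8) (nat_lit 617) (@Lb.fm (nat_lit 9) t119))))))))))))
noncomputable def l21088 : Lb := (@Lb.d (nat_lit 357) (nat_lit 64) (nat_lit 42) (@Lb.r r2194 (@Lb.r r101 (@Lb.r r519 (@Lb.r r264 (@Lb.g g7 (@Lb.d (nat_lit 64) (nat_lit 0) (nat_lit 64) (@Lb.t (@Lb.fm (nat_lit 3) t152)))))))))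
noncomputable def l21089 : Lb := (@Lb.d (nat_lit 2) (nat_lit 2) (nat_lit 130) (@Lb.g g8 (@Lb.g g9 (@Lb.g g10 (@Lb.g g11 (@Lb.r r427 (@Lb.r r388 (@Lb.r r2134 (@Lb.r r145 (@Lb.r r1060 (@Lb.d (nat_lit 289) (nat_lit 169) (nat_lit 401) (@Lb.fp (nat_lit 9) t791))))))))))))
noncomputable def l21090 : Lb := (@Lb.d (nat_lit 4) (nat_lit 256) (nat_lit 130) (@Lb.g g8 (@Lb.g g9 (@Lb.g g10 (@Lb.g g11 (@Lb.r r427 (@Lb.r r388 (@Lb.r r2134 (@Lb.r r145 (@Lb.r r1060 (@Lb.d (nat_lit 289) (nat_lit 169) (nat_lit 278) (@Lb.fp (nat_lit 9) t791))))))))))))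
noncomputable def l21091 : Lb := (@Lb.d (nat_lit 4) (nat_lit 513) (nat_lit 0) (@Lb.g g5 (@Lb.r r24 (@Lb.d (nat_lit 324) (nat_lit 65) (nat_lit 512) (@Lb.t (@Lb.fp (nat_lit 3) t716))))))
noncomputable def l21092 : Lb := (@Lb.d (nat_lit 354) (nat_lit 656) (nat_lit 133) (@Lb.r r392 (@Lb.r r583 (@Lb.r r1434 (@Lb.g g6 (@Lb.g g9 (@Lb.g g4 (@Lb.d (nat_lit 65) (nat_lit 18) (nat_lit 1) (@Lb.t (@Lb.fp (nat_lit 9) t4213))))))))))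
noncomputable def l21093 : Lb := (@Lb.r r323 (@Lb.d (nat_lit 138) (nat_lit 512) (nat_lit 18) (@Lb.g g8 (@Lb.g g10 (@Lb.r r661 (@Lb.r r1431 (@Lb.r r680 (@Lb.d (nat_lit 581) (nat_lit 22) (nat_lit 8) (@Lb.fp (nat_lit 3) t100)))))))))
noncomputable def l21094 : Lb := (@Lb.d (nat_lit 97) (nat_lit 514) (nat_lit 73) (@Lb.g g8 (@Lb.g g9 (@Lb.g g10 (@Lb.g g11 (@Lb.r r2691 (@Lb.r r1193 (@Lb.r r1642 (@Lb.r r2084 (@Lb.d (nat_lit 394) (nat_lit 66) (nat_lit 134) (@Lb.fp (nat_lit 9) t2175)))))))))))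
noncomputable def l21095 : Lb := (@Lb.d (nat_lit 2) (nat_lit 258) (nat_lit 130) (@Lb.g g8 (@Lb.g g9 (@Lb.g g10 (@Lb.g g11 (@Lb.r r1426 (@Lb.r r1371 (@Lb.r r2457 (@Lb.r r2436 (@Lb.d (nat_lit 105) (nat_lit 6) (nat_lit 545) (@Lb.fm (nat_lit 9) t2103)))))))))))
noncomputable def l21096 : Lb := (@Lb.d (nat_lit 72) (nat_lit 545) (nat_lit 66) (@Lb.g g8 (@Lb.g g9 (@Lb.g g10 (@Lb.g g11 (@Lb.r r1426 (@Lb.r r1371 (@Lb.r r2457 (@Lb.r r1288 (@Lb.d (nat_lit 145) (nat_lit 4) (nat_lit 400) (@Lb.fp (nat_lit 9) t4214)))))))))))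
noncomputable def l21097 : Lb := (@Lb.r r593 (@Lb.d (nat_lit 10) (nat_lit 520) (nat_lit 322) (@Lb.g g8 (@Lb.g g10 (@Lb.g g11 (@Lb.r r1377 (@Lb.r r2390 (@Lb.r r2468 (@Lb.d (nat_lit 41) (nat_lit 134) (nat_lit 346) (@Lb.t (@Lb.fp (nat_lit 9) t895)))))))))))
noncomputable def l21098 : Lb := (@Lb.d (nat_lit 2) (nat_lit 2) (nat_lit 130) (@Lb.g g8 (@Lb.g g9 (@Lb.g g10 (@Lb.g g11 (@Lb.r r1426 (@Lb.r r1371 (@Lb.r r2457 (@Lb.r r2436 (@Lb.d (nat_lit 98) (nat_lit 4) (nat_lit 545) (@Lb.fm (nat_lit 9) t2103)))))))))))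
noncomputable def l21099 : Lb := (@Lb.d (nat_lit 0) (nat_lit 0) (nat_lit 32) (@Lb.r r579 (@Lb.g g6 (@Lb.t (@Lb.fp (nat_lit 3) t2)))))
noncomputable def l21100 : Lb := (@Lb.r r70 (@Lb.r r263 (@Lb.d (nat_lit 544) (nat_lit 2) (nat_lit 0) (@Lb.g g8 (@Lb.g g9 (@Lb.r r406 (@Lb.r r2627 (@Lb.r r25 (@Lb.d (nat_lit 8) (nat_lit 80) (nat_lit 576) (@Lb.fm (nat_lit 3) t1792))))))))))
noncomputable def l21101 : Lb := (@Lb.d (nat_lit 97) (nat_lit 1) (nat_lit 73) (@Lb.g g8 (@Lb.g g9 (@Lb.g g10 (@Lb.g g11 (@Lb.r r2146 (@Lb.r r296 (@Lb.r r1385 (@Lb.r r407 (@Lb.r r1060 (@Lb.d (nat_lit 356) (nat_lit 22) (nat_lit 38) (@Lb.fp (nat_lit 9) t524))))))))))))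
noncomputable def l21102 : Lb := (@Lb.r r68 (@Lb.r r81 (@Lb.d (nat_lit 0) (nat_lit 4) (nat_lit 33) (@Lb.g g10 (@Lb.r r1419 (@Lb.r r1304 (@Lb.r r37 (@Lb.d (nat_lit 577) (nat_lit 74) (nat_lit 513) (@Lb.t (@Lb.fp (nat_lit 3) t4215))))))))))
noncomputable def l21103 : Lb := (@Lb.d (nat_lit 33) (nat_lit 262) (nat_lit 2) (@Lb.g g8 (@Lb.g g9 (@Lb.g g10 (@Lb.r r411 (@Lb.r r1177 (@Lb.r r594 (@Lb.r r2180 (@Lb.d (nat_lit 537) (nat_lit 37) (nat_lit 360) (@Lb.t (@Lb.fm (nat_lit 9) t86)))))))))))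
noncomputable def l21104 : Lb := (@Lb.d (nat_lit 128) (nat_lit 256) (nat_lit 64) (@Lb.g g11 (@Lb.r r1045 (@Lb.r r344 (@Lb.r r598 (@Lb.r r2647 (@Lb.d (nat_lit 662) (nat_lit 65) (nat_lit 137) (@Lb.t (@Lb.fp (nat_lit 3) t430)))))))))
noncomputable def l21105 : Lb := (@Lb.r r20 (@Lb.d (nat_lit 32) (nat_lit 392) (nat_lit 1) (@Lb.g g5 (@Lb.g g10 (@Lb.r r1687 (@Lb.r r2408 (@Lb.r r1606 (@Lb.d (nat_lit 406) (nat_lit 72) (nat_lit 25) (@Lb.fp (nat_lit 3) t2545)))))))))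
noncomputable def l21106 : Lb := (@Lb.r r82 (@Lb.d (nat_lit 25) (nat_lit 512) (nat_lit 0) (@Lb.g g8 (@Lb.g g9 (@Lb.r r355 (@Lb.r r2154 (@Lb.r r1621 (@Lb.r r2600 (@Lb.d (nat_lit 26) (nat_lit 82) (nat_lit 261) (@Lb.fp (nat_lit 3) t4215))))))))))
noncomputable def l21107 : Lb := (@Lb.d (nat_lit 102) (nat_lit 258) (nat_lit 649) (@Lb.g g8 (@Lb.g g9 (@Lb.g g10 (@Lb.g g7 (@Lb.r r1410 (@Lb.r r1641 (@Lb.r r2084 (@Lb.d (nat_lit 98) (nat_lit 144) (nat_lit 661) (@Lb.fm (nat_lit 9) t4216))))))))))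
noncomputable def l21108 : Lb := (@Lb.d (nat_lit 128) (nat_lit 512) (nat_lit 64) (@Lb.g g11 (@Lb.r r1045 (@Lb.r r344 (@Lb.r r598 (@Lb.r r2647 (@Lb.d (nat_lit 657) (nat_lit 1) (nat_lit 137) (@Lb.t (@Lb.fp (nat_lit 3) t430)))))))))
noncomputable def l21109 : Lb := (@Lb.d (nat_lit 513) (nat_lit 0) (nat_lit 256) (@Lb.r r24 (@Lb.r r101 (@Lb.r r402 (@Lb.g g11 (@Lb.t (@Lb.fm (nat_lit 3) t150)))))))
noncomputable def l21110 : Lb := (@Lb.d (nat_lit 641) (nat_lit 258) (nat_lit 256) (@Lb.r r24 (@Lb.g g9 (@Lb.d (nat_lit 8) (nat_lit 2) (nat_lit 0) (@Lb.t (@Lb.fm (nat_lit 3) t121))))))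
noncomputable def l21111 : Lb := (@Lb.d (nat_lit 2) (nat_lit 514) (nat_lit 2) (@Lb.g g8 (@Lb.g g9 (@Lb.g g10 (@Lb.g g11 (@Lb.r r427 (@Lb.r r145 (@Lb.r r356 (@Lb.r r154 (@Lb.r r132 (@Lb.d (nat_lit 9) (nat_lit 2) (nat_lit 154) (@Lb.fm (nat_lit 9) t221))))))))))))
noncomputable def l21112 : Lb := (@Lb.r r21 (@Lb.r r70 (@Lb.r r263 (@Lb.d (nat_lit 2) (nat_lit 512) (nat_lit 0) (@Lb.g g4 (@Lb.r r2631 (@Lb.r r402 (@Lb.r r97 (@Lb.d (nat_lit 257) (nat_lit 2) (nat_lit 0) (@Lb.t (@Lb.fp (nat_lit 3) t512)))))))))))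
noncomputable def l21113 : Lb := (@Lb.r r97 (@Lb.r r2130 (@Lb.r r145 (@Lb.d (nat_lit 5) (nat_lit 513) (nat_lit 0) (@Lb.fm (nat_lit 1) t1899)))))
noncomputable def l21114 : Lb := (@Lb.d (nat_lit 1) (nat_lit 258) (nat_lit 128) (@Lb.g g8 (@Lb.g g9 (@Lb.g g11 (@Lb.r r2347 (@Lb.r r2178 (@Lb.r r292 (@Lb.r r1045 (@Lb.r r2084 (@Lb.d (nat_lit 258) (nat_lit 33) (nat_lit 640) (@Lb.t (@Lb.fp (nat_lit 9) t2553))))))))))))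
noncomputable def l21115 : Lb := (@Lb.r r81 (@Lb.d (nat_lit 0) (nat_lit 512) (nat_lit 160) (@Lb.g g10 (@Lb.g g11 (@Lb.r r387 (@Lb.r r2577 (@Lb.d (nat_lit 0) (nat_lit 0) (nat_lit 324) (@Lb.fm (nat_lit 3) t1))))))))
noncomputable def l21116 : Lb := (@Lb.r r275 (@Lb.d (nat_lit 0) (nat_lit 514) (nat_lit 0) (@Lb.g g9 (@Lb.g g10 (@Lb.r r2449 (@Lb.r r291 (@Lb.d (nat_lit 0) (nat_lit 100) (nat_lit 533) (@Lb.fm (nat_lit 3) t484))))))))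
noncomputable def l21117 : Lb := (@Lb.d (nat_lit 128) (nat_lit 2) (nat_lit 162) (@Lb.g g9 (@Lb.g g6 (@Lb.g g11 (@Lb.r r533 (@Lb.r r292 (@Lb.r r539 (@Lb.d (nat_lit 322) (nat_lit 130) (nat_lit 290) (@Lb.t (@Lb.fm (nat_lit 9) t4217))))))))))
noncomputable def l21118 : Lb := (@Lb.d (nat_lit 273) (nat_lit 133) (nat_lit 16) (@Lb.r r1096 (@Lb.r r2341 (@Lb.r r1371 (@Lb.g g7 (@Lb.g g6 (@Lb.g g5 (@Lb.d (nat_lit 16) (nat_lit 0) (nat_lit 97) (@Lb.t (@Lb.fp (nat_lit 9) t767))))))))))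
noncomputable def l21119 : Lb := (@Lb.d (nat_lit 1) (nat_lit 262) (nat_lit 33) (@Lb.r r105 (@Lb.r r36 (@Lb.r r1414 (@Lb.r r323 (@Lb.g g7 (@Lb.g g6 (@Lb.g g5 (@Lb.d (nat_lit 4) (nat_lit 1) (nat_lit 64) (@Lb.t (@Lb.fp (nat_lit 9) t1919)))))))))))
noncomputable def l21120 : Lb := (@Lb.d (nat_lit 69) (nat_lit 97) (nat_lit 576) (@Lb.r r101 (@Lb.r r2451 (@Lb.r r402 (@Lb.g g7 (@Lb.d (nat_lit 0) (nat_lit 0) (nat_lit 68) (@Lb.t (@Lb.fm (nat_lit 3) t412))))))))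
noncomputable def l21121 : Lb := (@Lb.d (nat_lit 390) (nat_lit 16) (nat_lit 576) (@Lb.r r2584 (@Lb.r r82 (@Lb.r r2587 (@Lb.g g7 (@Lb.g g9 (@Lb.g g4 (@Lb.d (nat_lit 6) (nat_lit 2) (nat_lit 64) (@Lb.r r98 (@Lb.t (@Lb.fm (nat_lit 9) t4218)))))))))))
noncomputable def l21122 : Lb := (@Lb.r r21 (@Lb.r r70 (@Lb.d (nat_lit 64) (nat_lit 256) (nat_lit 0) (@Lb.g g8 (@Lb.g g11 (@Lb.r r1415 (@Lb.r r402 (@Lb.r r97 (@Lb.r r1044 (@Lb.d (nat_lit 518) (nat_lit 65) (nat_lit 0) (@Lb.fm (nat_lit 3) t512)))))))))))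
noncomputable def l21123 : Lb := (@Lb.r r21 (@Lb.r r70 (@Lb.d (nat_lit 128) (nat_lit 0) (nat_lit 128) (@Lb.g g8 (@Lb.g g11 (@Lb.r r1563 (@Lb.r r281 (@Lb.r r2196 (@Lb.r r2182 (@Lb.d (nat_lit 6) (nat_lit 73) (nat_lit 18) (@Lb.fm (nat_lit 3) t74)))))))))))
noncomputable def l21124 : Lb := (@Lb.d (nat_lit 41) (nat_lit 0) (nat_lit 0) (@Lb.g g8 (@Lb.g g11 (@Lb.r r2395 (@Lb.r r614 (@Lb.r r1637 (@Lb.r r1428 (@Lb.d (nat_lit 358) (nat_lit 90) (nat_lit 394) (@Lb.fp (nat_lit 3) t386)))))))))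
noncomputable def l21125 : Lb := (@Lb.d (nat_lit 129) (nat_lit 512) (nat_lit 128) (@Lb.g g8 (@Lb.g g11 (@Lb.r r264 (@Lb.r r2311 (@Lb.r r2564 (@Lb.d (nat_lit 640) (nat_lit 0) (nat_lit 256) (@Lb.fp (nat_lit 3) t4219))))))))
noncomputable def l21126 : Lb := (@Lb.r r21 (@Lb.d (nat_lit 130) (nat_lit 256) (nat_lit 130) (@Lb.g g8 (@Lb.g g10 (@Lb.g g11 (@Lb.r r419 (@Lb.r r2122 (@Lb.r r97 (@Lb.r r648 (@Lb.d (nat_lit 646) (nat_lit 150) (nat_lit 640) (@Lb.t (@Lb.fm (nat_lit 9) t4220))))))))))))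
noncomputable def l21127 : Lb := (@Lb.r r21 (@Lb.d (nat_lit 2) (nat_lit 256) (nat_lit 128) (@Lb.g g8 (@Lb.g g11 (@Lb.r r529 (@Lb.r r2707 (@Lb.r r2710 (@Lb.r r72 (@Lb.d (nat_lit 40) (nat_lit 130) (nat_lit 86) (@Lb.fp (nat_lit 3) t339))))))))))
noncomputable def l21128 : Lb := (@Lb.r r21 (@Lb.d (nat_lit 2) (nat_lit 512) (nat_lit 128) (@Lb.g g8 (@Lb.g g11 (@Lb.r r529 (@Lb.r r2707 (@Lb.r r2710 (@Lb.r r72 (@Lb.d (nat_lit 33) (nat_lit 133) (nat_lit 84) (@Lb.fp (nat_lit 3) t339))))))))))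
noncomputable def l21129 : Lb := (@Lb.d (nat_lit 6) (nat_lit 576) (nat_lit 2) (@Lb.g g8 (@Lb.g g9 (@Lb.g g10 (@Lb.r r2475 (@Lb.r r386 (@Lb.r r36 (@Lb.d (nat_lit 361) (nat_lit 130) (nat_lit 297) (@Lb.t (@Lb.fp (nat_lit 9) t284))))))))))
noncomputable def l21130 : Lb := (@Lb.d (nat_lit 98) (nat_lit 617) (nat_lit 582) (@Lb.r r597 (@Lb.r r296 (@Lb.r r418 (@Lb.g g11 (@Lb.g g6 (@Lb.g g5 (@Lb.g g4 (@Lb.d (nat_lit 0) (nat_lit 20) (nat_lit 258) (@Lb.fm (nat_lit 9) t825))))))))))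
noncomputable def l21131 : Lb := (@Lb.d (nat_lit 2) (nat_lit 256) (nat_lit 0) (@Lb.g g8 (@Lb.g g6 (@Lb.g g11 (@Lb.r r1291 (@Lb.d (nat_lit 514) (nat_lit 0) (nat_lit 0) (@Lb.t (@Lb.fp (nat_lit 9) t441))))))))
noncomputable def l21132 : Lb := (@Lb.r r322 (@Lb.d (nat_lit 274) (nat_lit 16) (nat_lit 648) (@Lb.g g8 (@Lb.g g9 (@Lb.g g7 (@Lb.r r594 (@Lb.r r409 (@Lb.d (nat_lit 274) (nat_lit 65) (nat_lit 26) (@Lb.t (@Lb.fp (nat_lit 9) t1986))))))))))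
noncomputable def l21133 : Lb := (@Lb.r r323 (@Lb.d (nat_lit 6) (nat_lit 64) (nat_lit 0) (@Lb.g g8 (@Lb.g g9 (@Lb.g g10 (@Lb.r r1642 (@Lb.r r579 (@Lb.r r36 (@Lb.d (nat_lit 265) (nat_lit 130) (nat_lit 0) (@Lb.t (@Lb.fp (nat_lit 9) t284)))))))))))
noncomputable def l21134 : Lb := (@Lb.d (nat_lit 2) (nat_lit 264) (nat_lit 2) (@Lb.g g8 (@Lb.g g10 (@Lb.g g11 (@Lb.r r2459 (@Lb.r r101 (@Lb.d (nat_lit 2) (nat_lit 64) (nat_lit 2) (@Lb.t (@Lb.fp (nat_lit 9) t825)))))))))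
noncomputable def l21135 : Lb := (@Lb.d (nat_lit 4) (nat_lit 326) (nat_lit 26) (@Lb.r r2120 (@Lb.r r97 (@Lb.r r579 (@Lb.g g10 (@Lb.g g5 (@Lb.d (nat_lit 0) (nat_lit 1) (nat_lit 2) (@Lb.r r387 (@Lb.fm (nat_lit 3) t1751)))))))))
noncomputable def l21136 : Lb := (@Lb.d (nat_lit 98) (nat_lit 361) (nat_lit 582) (@Lb.r r597 (@Lb.r r296 (@Lb.r r418 (@Lb.g g11 (@Lb.g g6 (@Lb.g g5 (@Lb.g g4 (@Lb.d (nat_lit 1) (nat_lit 20) (nat_lit 258) (@Lb.fm (nat_lit 9) t825))))))))))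
noncomputable def l21137 : Lb := (@Lb.d (nat_lit 32) (nat_lit 520) (nat_lit 64) (@Lb.g g10 (@Lb.g g11 (@Lb.r r356 (@Lb.r r2571 (@Lb.r r1633 (@Lb.r r338 (@Lb.d (nat_lit 641) (nat_lit 22) (nat_lit 134) (@Lb.fm (nat_lit 3) t322)))))))))
noncomputable def l21138 : Lb := (@Lb.d (nat_lit 0) (nat_lit 256) (nat_lit 73) (@Lb.g g9 (@Lb.g g10 (@Lb.g g11 (@Lb.r r2726 (@Lb.r r328 (@Lb.r r535 (@Lb.r r289 (@Lb.d (nat_lit 640) (nat_lit 144) (nat_lit 128) (@Lb.t (@Lb.fm (nat_lit 9) t1115)))))))))))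
noncomputable def l21139 : Lb := (@Lb.d (nat_lit 8) (nat_lit 418) (nat_lit 136) (@Lb.g g9 (@Lb.g g11 (@Lb.r r386 (@Lb.r r1347 (@Lb.d (nat_lit 538) (nat_lit 9) (nat_lit 422) (@Lb.fp (nat_lit 3) t4221)))))))
noncomputable def l21140 : Lb := (@Lb.g g5 (@Lb.g g7 (@Lb.r r2707 (@Lb.r r134 (@Lb.r r2644 (@Lb.r r1321 (@Lb.d (nat_lit 578) (nat_lit 64) (nat_lit 581) (@Lb.fp (nat_lit 3) t507))))))))
noncomputable def l21141 : Lb := (@Lb.r r355 (@Lb.d (nat_lit 16) (nat_lit 8) (nat_lit 33) (@Lb.g g9 (@Lb.g g6 (@Lb.r r2667 (@Lb.r r612 (@Lb.r r533 (@Lb.d (nat_lit 394) (nat_lit 18) (nat_lit 134) (@Lb.fm (nat_lit 3) t467)))))))))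
noncomputable def l21142 : Lb := (@Lb.r r331 (@Lb.d (nat_lit 2) (nat_lit 553) (nat_lit 1) (@Lb.g g8 (@Lb.g g9 (@Lb.g g10 (@Lb.r r1623 (@Lb.r r678 (@Lb.r r1444 (@Lb.r r1173 (@Lb.d (nat_lit 552) (nat_lit 101) (nat_lit 38) (@Lb.t (@Lb.fm (nat_lit 9) t606))))))))))))
noncomputable def l21143 : Lb := (@Lb.d (nat_lit 136) (nat_lit 265) (nat_lit 130) (@Lb.g g9 (@Lb.g g10 (@Lb.g g11 (@Lb.r r264 (@Lb.r r1351 (@Lb.r r2386 (@Lb.r r409 (@Lb.d (nat_lit 9) (nat_lit 2) (nat_lit 330) (@Lb.t (@Lb.fp (nat_lit 9) t4222)))))))))))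
noncomputable def l21144 : Lb := (@Lb.d (nat_lit 362) (nat_lit 529) (nat_lit 98) (@Lb.r r279 (@Lb.r r612 (@Lb.r r597 (@Lb.g g7 (@Lb.g g10 (@Lb.d (nat_lit 64) (nat_lit 24) (nat_lit 65) (@Lb.r r145 (@Lb.fp (nat_lit 3) t4223)))))))))
noncomputable def l21145 : Lb := (@Lb.d (nat_lit 530) (nat_lit 512) (nat_lit 17) (@Lb.r r2186 (@Lb.r r2692 (@Lb.r r2727 (@Lb.r r609 (@Lb.g g6 (@Lb.d (nat_lit 0) (nat_lit 4) (nat_lit 1) (@Lb.t (@Lb.fp (nat_lit 3) t406)))))))))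
noncomputable def l21146 : Lb := (@Lb.d (nat_lit 256) (nat_lit 0) (nat_lit 18) (@Lb.r r260 (@Lb.r r283 (@Lb.r r408 (@Lb.r r1617 (@Lb.g g6 (@Lb.d (nat_lit 0) (nat_lit 0) (nat_lit 34) (@Lb.t (@Lb.fp (nat_lit 3) t917)))))))))
noncomputable def l21147 : Lb := (@Lb.d (nat_lit 0) (nat_lit 648) (nat_lit 104) (@Lb.r r2385 (@Lb.r r1315 (@Lb.g g10 (@Lb.g g5 (@Lb.d (nat_lit 0) (nat_lit 9) (nat_lit 22) (@Lb.fp (nat_lit 3) t4224)))))))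
noncomputable def l21148 : Lb := (@Lb.r r1379 (@Lb.d (nat_lit 0) (nat_lit 6) (nat_lit 2) (@Lb.g g9 (@Lb.g g6 (@Lb.r r2145 (@Lb.d (nat_lit 0) (nat_lit 73) (nat_lit 32) (@Lb.fm (nat_lit 3) t599)))))))
noncomputable def l21149 : Lb := (@Lb.d (nat_lit 0) (nat_lit 666) (nat_lit 133) (@Lb.r r97 (@Lb.r r2583 (@Lb.r r1384 (@Lb.r r2198 (@Lb.g g5 (@Lb.d (nat_lit 0) (nat_lit 1) (nat_lit 0) (@Lb.t (@Lb.fm (nat_lit 3) t662)))))))))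
noncomputable def l21150 : Lb := (@Lb.d (nat_lit 0) (nat_lit 256) (nat_lit 145) (@Lb.g g6 (@Lb.g g11 (@Lb.r r2577 (@Lb.d (nat_lit 0) (nat_lit 68) (nat_lit 169) (@Lb.fp (nat_lit 3) t1519))))))
noncomputable def l21151 : Lb := (@Lb.d (nat_lit 70) (nat_lit 294) (nat_lit 166) (@Lb.r r408 (@Lb.r r330 (@Lb.r r343 (@Lb.g g5 (@Lb.g g4 (@Lb.d (nat_lit 17) (nat_lit 37) (nat_lit 0) (@Lb.r r291 (@Lb.r r98 (@Lb.fp (nat_lit 3) t98))))))))))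
noncomputable def l21152 : Lb := (@Lb.d (nat_lit 1) (nat_lit 514) (nat_lit 70) (@Lb.r r24 (@Lb.r r323 (@Lb.g g7 (@Lb.g g6 (@Lb.g g9 (@Lb.d (nat_lit 8) (nat_lit 4) (nat_lit 65) (@Lb.t (@Lb.fp (nat_lit 9) t45)))))))))
noncomputable def l21153 : Lb := (@Lb.d (nat_lit 513) (nat_lit 416) (nat_lit 384) (@Lb.r r1321 (@Lb.r r1444 (@Lb.r r2374 (@Lb.r r611 (@Lb.g g7 (@Lb.g g6 (@Lb.g g5 (@Lb.d (nat_lit 0) (nat_lit 10) (nat_lit 133) (@Lb.t (@Lb.fp (nat_lit 9) t1490)))))))))))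
noncomputable def l21154 : Lb := (@Lb.d (nat_lit 128) (nat_lit 2) (nat_lit 130) (@Lb.g g9 (@Lb.g g10 (@Lb.g g11 (@Lb.r r1606 (@Lb.r r2436 (@Lb.r r619 (@Lb.r r2585 (@Lb.d (nat_lit 674) (nat_lit 153) (nat_lit 417) (@Lb.t (@Lb.fp (nat_lit 9) t4225)))))))))))
noncomputable def l21155 : Lb := (@Lb.d (nat_lit 9) (nat_lit 9) (nat_lit 6) (@Lb.g g8 (@Lb.g g9 (@Lb.g g10 (@Lb.g g11 (@Lb.r r532 (@Lb.r r295 (@Lb.r r357 (@Lb.r r666 (@Lb.r r644 (@Lb.d (nat_lit 0) (nat_lit 2) (nat_lit 137) (@Lb.fp (nat_lit 9) t238))))))))))))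
noncomputable def l21156 : Lb := (@Lb.d (nat_lit 518) (nat_lit 358) (nat_lit 548) (@Lb.r r24 (@Lb.r r1633 (@Lb.r r1643 (@Lb.g g7 (@Lb.g g10 (@Lb.g g5 (@Lb.g g4 (@Lb.d (nat_lit 2) (nat_lit 0) (nat_lit 81) (@Lb.fp (nat_lit 9) t2507))))))))))
noncomputable def l21157 : Lb := (@Lb.d (nat_lit 4) (nat_lit 10) (nat_lit 72) (@Lb.g g8 (@Lb.g g9 (@Lb.g g10 (@Lb.g g11 (@Lb.r r1699 (@Lb.r r164 (@Lb.r r2709 (@Lb.r r598 (@Lb.r r2084 (@Lb.d (nat_lit 657) (nat_lit 162) (nat_lit 408) (@Lb.fm (nat_lit 9) t1161))))))))))))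
noncomputable def l21158 : Lb := (@Lb.d (nat_lit 518) (nat_lit 102) (nat_lit 548) (@Lb.r r24 (@Lb.r r1633 (@Lb.r r1643 (@Lb.g g7 (@Lb.g g10 (@Lb.g g5 (@Lb.g g4 (@Lb.d (nat_lit 2) (nat_lit 5) (nat_lit 82) (@Lb.fp (nat_lit 9) t2507))))))))))
noncomputable def l21159 : Lb := (@Lb.r r323 (@Lb.d (nat_lit 132) (nat_lit 256) (nat_lit 2) (@Lb.g g8 (@Lb.g g9 (@Lb.g g10 (@Lb.r r599 (@Lb.r r98 (@Lb.r r97 (@Lb.r r408 (@Lb.d (nat_lit 149) (nat_lit 152) (nat_lit 138) (@Lb.t (@Lb.fp (nat_lit 9) t51))))))))))))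
noncomputable def l21160 : Lb := (@Lb.d (nat_lit 0) (nat_lit 288) (nat_lit 72) (@Lb.g g11 (@Lb.r r2402 (@Lb.r r353 (@Lb.r r407 (@Lb.d (nat_lit 358) (nat_lit 16) (nat_lit 42) (@Lb.t (@Lb.fm (nat_lit 3) t322))))))))
noncomputable def l21161 : Lb := (@Lb.d (nat_lit 64) (nat_lit 256) (nat_lit 128) (@Lb.g g8 (@Lb.g g11 (@Lb.r r1547 (@Lb.r r516 (@Lb.d (nat_lit 514) (nat_lit 0) (nat_lit 640) (@Lb.fp (nat_lit 3) t1101)))))))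
noncomputable def l21162 : Lb := (@Lb.d (nat_lit 0) (nat_lit 514) (nat_lit 73) (@Lb.g g9 (@Lb.g g10 (@Lb.g g11 (@Lb.r r579 (@Lb.r r1686 (@Lb.r r97 (@Lb.r r24 (@Lb.d (nat_lit 666) (nat_lit 4) (nat_lit 258) (@Lb.t (@Lb.fm (nat_lit 9) t145)))))))))))
noncomputable def l21163 : Lb := (@Lb.d (nat_lit 2) (nat_lit 516) (nat_lit 128) (@Lb.g g8 (@Lb.g g9 (@Lb.g g10 (@Lb.g g11 (@Lb.r r2595 (@Lb.r r386 (@Lb.r r612 (@Lb.r r533 (@Lb.r r2084 (@Lb.d (nat_lit 544) (nat_lit 10) (nat_lit 145) (@Lb.fp (nat_lit 9) t50))))))))))))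
noncomputable def l21164 : Lb := (@Lb.d (nat_lit 0) (nat_lit 0) (nat_lit 73) (@Lb.g g9 (@Lb.g g10 (@Lb.g g11 (@Lb.r r579 (@Lb.r r1682 (@Lb.r r101 (@Lb.r r24 (@Lb.d (nat_lit 642) (nat_lit 0) (nat_lit 256) (@Lb.t (@Lb.fm (nat_lit 9) t145)))))))))))
noncomputable def l21165 : Lb := (@Lb.d (nat_lit 2) (nat_lit 260) (nat_lit 128) (@Lb.g g8 (@Lb.g g9 (@Lb.g g10 (@Lb.g g11 (@Lb.r r1699 (@Lb.r r164 (@Lb.r r614 (@Lb.r r2149 (@Lb.r r1156 (@Lb.d (nat_lit 384) (nat_lit 130) (nat_lit 586) (@Lb.fp (nat_lit 9) t144))))))))))))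
noncomputable def l21166 : Lb := (@Lb.d (nat_lit 2) (nat_lit 2) (nat_lit 130) (@Lb.g g8 (@Lb.g g9 (@Lb.g g10 (@Lb.g g11 (@Lb.r r2705 (@Lb.r r535 (@Lb.r r2440 (@Lb.r r2122 (@Lb.d (nat_lit 296) (nat_lit 2) (nat_lit 137) (@Lb.fp (nat_lit 9) t221)))))))))))
noncomputable def l21167 : Lb := (@Lb.d (nat_lit 0) (nat_lit 290) (nat_lit 66) (@Lb.g g9 (@Lb.g g10 (@Lb.g g11 (@Lb.r r419 (@Lb.r r2198 (@Lb.r r2132 (@Lb.r r1065 (@Lb.d (nat_lit 73) (nat_lit 145) (nat_lit 128) (@Lb.t (@Lb.fm (nat_lit 9) t827)))))))))))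
noncomputable def l21168 : Lb := (@Lb.d (nat_lit 4) (nat_lit 338) (nat_lit 2) (@Lb.g g8 (@Lb.g g5 (@Lb.g g10 (@Lb.r r2435 (@Lb.r r386 (@Lb.r r2584 (@Lb.d (nat_lit 330) (nat_lit 0) (nat_lit 357) (@Lb.t (@Lb.fp (nat_lit 9) t996))))))))))
noncomputable def l21169 : Lb := (@Lb.d (nat_lit 1) (nat_lit 256) (nat_lit 512) (@Lb.r r24 (@Lb.r r613 (@Lb.r r338 (@Lb.g g7 (@Lb.g g6 (@Lb.d (nat_lit 0) (nat_lit 0) (nat_lit 257) (@Lb.r r529 (@Lb.fm (nat_lit 3) t1219)))))))))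
noncomputable def l21170 : Lb := (@Lb.d (nat_lit 8) (nat_lit 2) (nat_lit 130) (@Lb.g g9 (@Lb.g g10 (@Lb.g g11 (@Lb.r r586 (@Lb.r r584 (@Lb.r r299 (@Lb.r r409 (@Lb.d (nat_lit 9) (nat_lit 66) (nat_lit 154) (@Lb.t (@Lb.fp (nat_lit 9) t1022)))))))))))
noncomputable def l21171 : Lb := (@Lb.d (nat_lit 97) (nat_lit 548) (nat_lit 66) (@Lb.g g8 (@Lb.g g9 (@Lb.g g10 (@Lb.g g11 (@Lb.r r642 (@Lb.r r1411 (@Lb.r r2345 (@Lb.r r2084 (@Lb.d (nat_lit 9) (nat_lit 66) (nat_lit 601) (@Lb.fp (nat_lit 9) t4226)))))))))))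
noncomputable def l21172 : Lb := (@Lb.d (nat_lit 0) (nat_lit 256) (nat_lit 130) (@Lb.g g9 (@Lb.g g10 (@Lb.g g11 (@Lb.r r586 (@Lb.r r584 (@Lb.r r299 (@Lb.r r409 (@Lb.d (nat_lit 2) (nat_lit 64) (nat_lit 16) (@Lb.t (@Lb.fp (nat_lit 9) t1022)))))))))))
noncomputable def l21173 : Lb := (@Lb.d (nat_lit 32) (nat_lit 512) (nat_lit 2) (@Lb.g g10 (@Lb.r r1543 (@Lb.r r72 (@Lb.r r390 (@Lb.r r421 (@Lb.d (nat_lit 322) (nat_lit 0) (nat_lit 394) (@Lb.t (@Lb.fp (nat_lit 3) t3207)))))))))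
noncomputable def l21174 : Lb := (@Lb.d (nat_lit 0) (nat_lit 38) (nat_lit 128) (@Lb.g g9 (@Lb.g g10 (@Lb.g g11 (@Lb.r r1443 (@Lb.r r2465 (@Lb.r r98 (@Lb.d (nat_lit 5) (nat_lit 34) (nat_lit 154) (@Lb.t (@Lb.fp (nat_lit 9) t4227))))))))))
noncomputable def l21175 : Lb := (@Lb.d (nat_lit 0) (nat_lit 550) (nat_lit 128) (@Lb.g g9 (@Lb.g g10 (@Lb.g g11 (@Lb.r r1443 (@Lb.r r2465 (@Lb.r r98 (@Lb.r r24 (@Lb.d (nat_lit 321) (nat_lit 97) (nat_lit 666) (@Lb.t (@Lb.fm (nat_lit 9) t2557)))))))))))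
noncomputable def l21176 : Lb := (@Lb.r r21 (@Lb.d (nat_lit 2) (nat_lit 512) (nat_lit 73) (@Lb.g g8 (@Lb.g g10 (@Lb.g g11 (@Lb.r r1699 (@Lb.r r2184 (@Lb.r r1610 (@Lb.r r145 (@Lb.d (nat_lit 408) (nat_lit 25) (nat_lit 594) (@Lb.t (@Lb.fm (nat_lit 9) t3180))))))))))))
noncomputable def l21177 : Lb := (@Lb.d (nat_lit 2) (nat_lit 258) (nat_lit 130) (@Lb.g g8 (@Lb.g g9 (@Lb.g g10 (@Lb.g g11 (@Lb.r r427 (@Lb.r r388 (@Lb.r r2134 (@Lb.r r145 (@Lb.r r1060 (@Lb.d (nat_lit 2) (nat_lit 169) (nat_lit 417) (@Lb.fp (nat_lit 9) t791))))))))))))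
noncomputable def l21178 : Lb := (@Lb.d (nat_lit 4) (nat_lit 512) (nat_lit 130) (@Lb.g g8 (@Lb.g g9 (@Lb.g g10 (@Lb.g g11 (@Lb.r r427 (@Lb.r r388 (@Lb.r r2134 (@Lb.r r145 (@Lb.r r1060 (@Lb.d (nat_lit 2) (nat_lit 169) (nat_lit 294) (@Lb.fp (nat_lit 9) t791))))))))))))
noncomputable def l21179 : Lb := (@Lb.d (nat_lit 4) (nat_lit 1) (nat_lit 74) (@Lb.g g5 (@Lb.g g10 (@Lb.g g11 (@Lb.r r2626 (@Lb.r r579 (@Lb.r r24 (@Lb.d (nat_lit 324) (nat_lit 65) (nat_lit 278) (@Lb.t (@Lb.fp (nat_lit 9) t716))))))))))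
noncomputable def l21180 : Lb := (@Lb.d (nat_lit 0) (nat_lit 0) (nat_lit 130) (@Lb.g g10 (@Lb.g g11 (@Lb.r r419 (@Lb.r r386 (@Lb.r r101 (@Lb.r r24 (@Lb.d (nat_lit 98) (nat_lit 10) (nat_lit 134) (@Lb.fp (nat_lit 3) t263)))))))))
noncomputable def l21181 : Lb := (@Lb.d (nat_lit 128) (nat_lit 576) (nat_lit 1) (@Lb.r r293 (@Lb.r r600 (@Lb.r r603 (@Lb.g g6 (@Lb.g g5 (@Lb.d (nat_lit 16) (nat_lit 16) (nat_lit 1) (@Lb.r r387 (@Lb.fp (nat_lit 3) t68)))))))))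
noncomputable def l21182 : Lb := (@Lb.d (nat_lit 0) (nat_lit 64) (nat_lit 137) (@Lb.r r609 (@Lb.r r363 (@Lb.r r328 (@Lb.g g6 (@Lb.d (nat_lit 16) (nat_lit 0) (nat_lit 2) (@Lb.t (@Lb.fm (nat_lit 3) t130))))))))
noncomputable def l21183 : Lb := (@Lb.r r82 (@Lb.d (nat_lit 4) (nat_lit 256) (nat_lit 136) (@Lb.g g8 (@Lb.g g9 (@Lb.g g11 (@Lb.r r2665 (@Lb.r r2198 (@Lb.r r1380 (@Lb.r r395 (@Lb.d (nat_lit 386) (nat_lit 162) (nat_lit 418) (@Lb.t (@Lb.fm (nat_lit 9) t1161))))))))))))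
noncomputable def l21184 : Lb := (@Lb.r r323 (@Lb.d (nat_lit 132) (nat_lit 256) (nat_lit 2) (@Lb.g g8 (@Lb.g g9 (@Lb.g g10 (@Lb.r r599 (@Lb.r r98 (@Lb.r r97 (@Lb.r r408 (@Lb.d (nat_lit 149) (nat_lit 26) (nat_lit 138) (@Lb.t (@Lb.fp (nat_lit 9) t51))))))))))))
noncomputable def l21185 : Lb := (@Lb.d (nat_lit 2) (nat_lit 514) (nat_lit 66) (@Lb.g g8 (@Lb.g g9 (@Lb.g g10 (@Lb.g g11 (@Lb.r r292 (@Lb.r r539 (@Lb.r r145 (@Lb.r r1690 (@Lb.r r1668 (@Lb.d (nat_lit 9) (nat_lit 134) (nat_lit 146) (@Lb.fp (nat_lit 9) t1811))))))))))))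
noncomputable def l21186 : Lb := (@Lb.d (nat_lit 0) (nat_lit 0) (nat_lit 130) (@Lb.g g10 (@Lb.g g11 (@Lb.r r586 (@Lb.r r584 (@Lb.r r619 (@Lb.r r609 (@Lb.d (nat_lit 9) (nat_lit 130) (nat_lit 68) (@Lb.fp (nat_lit 3) t71)))))))))
noncomputable def l21187 : Lb := (@Lb.r r82 (@Lb.d (nat_lit 10) (nat_lit 262) (nat_lit 128) (@Lb.g g4 (@Lb.g g9 (@Lb.g g11 (@Lb.r r419 (@Lb.r r98 (@Lb.d (nat_lit 0) (nat_lit 9) (nat_lit 137) (@Lb.t (@Lb.fp (nat_lit 9) t5))))))))))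
noncomputable def l21188 : Lb := (@Lb.d (nat_lit 9) (nat_lit 258) (nat_lit 130) (@Lb.g g8 (@Lb.g g9 (@Lb.g g10 (@Lb.g g11 (@Lb.r r1194 (@Lb.r r548 (@Lb.r r615 (@Lb.r r533 (@Lb.r r1060 (@Lb.d (nat_lit 386) (nat_lit 10) (nat_lit 601) (@Lb.fp (nat_lit 9) t228))))))))))))
noncomputable def l21189 : Lb := (@Lb.d (nat_lit 357) (nat_lit 262) (nat_lit 640) (@Lb.r r24 (@Lb.r r97 (@Lb.r r1366 (@Lb.g g7 (@Lb.g g6 (@Lb.g g5 (@Lb.d (nat_lit 0) (nat_lit 1) (nat_lit 134) (@Lb.t (@Lb.fp (nat_lit 9) t2724))))))))))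
noncomputable def l21190 : Lb := (@Lb.d (nat_lit 665) (nat_lit 612) (nat_lit 6) (@Lb.r r363 (@Lb.r r353 (@Lb.g g7 (@Lb.g g6 (@Lb.d (nat_lit 0) (nat_lit 16) (nat_lit 96) (@Lb.fp (nat_lit 3) t4228)))))))
noncomputable def l21191 : Lb := (@Lb.r r21 (@Lb.d (nat_lit 129) (nat_lit 512) (nat_lit 73) (@Lb.g g8 (@Lb.g g10 (@Lb.g g11 (@Lb.r r419 (@Lb.r r1445 (@Lb.r r98 (@Lb.r r2648 (@Lb.d (nat_lit 516) (nat_lit 160) (nat_lit 354) (@Lb.t (@Lb.fm (nat_lit 9) t1713))))))))))))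
noncomputable def l21192 : Lb := (@Lb.r r323 (@Lb.d (nat_lit 2) (nat_lit 41) (nat_lit 2) (@Lb.g g8 (@Lb.g g9 (@Lb.g g10 (@Lb.r r1363 (@Lb.r r1194 (@Lb.r r1188 (@Lb.r r2709 (@Lb.d (nat_lit 677) (nat_lit 89) (nat_lit 86) (@Lb.t (@Lb.fp (nat_lit 9) t1783))))))))))))
noncomputable def l21193 : Lb := (@Lb.d (nat_lit 146) (nat_lit 521) (nat_lit 72) (@Lb.g g8 (@Lb.g g9 (@Lb.g g10 (@Lb.g g11 (@Lb.r r2347 (@Lb.r r1369 (@Lb.r r610 (@Lb.r r1124 (@Lb.d (nat_lit 277) (nat_lit 164) (nat_lit 610) (@Lb.fp (nat_lit 9) t3032)))))))))))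
noncomputable def l21194 : Lb := (@Lb.d (nat_lit 81) (nat_lit 9) (nat_lit 614) (@Lb.r r1412 (@Lb.r r1382 (@Lb.r r2667 (@Lb.g g7 (@Lb.g g9 (@Lb.g g4 (@Lb.d (nat_lit 2) (nat_lit 154) (nat_lit 128) (@Lb.r r98 (@Lb.t (@Lb.fp (nat_lit 9) t4210)))))))))))
noncomputable def l21195 : Lb := (@Lb.d (nat_lit 0) (nat_lit 512) (nat_lit 128) (@Lb.g g8 (@Lb.g g11 (@Lb.r r293 (@Lb.r r2587 (@Lb.r r2178 (@Lb.r r2584 (@Lb.d (nat_lit 90) (nat_lit 2) (nat_lit 424) (@Lb.fm (nat_lit 3) t3068)))))))))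
noncomputable def l21196 : Lb := (@Lb.d (nat_lit 154) (nat_lit 294) (nat_lit 133) (@Lb.g g8 (@Lb.g g9 (@Lb.g g10 (@Lb.g g11 (@Lb.r r1698 (@Lb.r r1415 (@Lb.r r149 (@Lb.r r1060 (@Lb.d (nat_lit 264) (nat_lit 152) (nat_lit 357) (@Lb.fm (nat_lit 9) t823)))))))))))
noncomputable def l21197 : Lb := (@Lb.r r2343 (@Lb.r r1096 (@Lb.r r2646 (@Lb.r r409 (@Lb.d (nat_lit 273) (nat_lit 328) (nat_lit 153) (@Lb.fm (nat_lit 1) t3997))))))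
noncomputable def l21198 : Lb := (@Lb.d (nat_lit 9) (nat_lit 257) (nat_lit 73) (@Lb.g g8 (@Lb.g g9 (@Lb.g g10 (@Lb.g g11 (@Lb.r r2666 (@Lb.r r579 (@Lb.r r97 (@Lb.r r24 (@Lb.d (nat_lit 426) (nat_lit 4) (nat_lit 358) (@Lb.fm (nat_lit 9) t61)))))))))))
noncomputable def l21199 : Lb := (@Lb.d (nat_lit 144) (nat_lit 256) (nat_lit 65) (@Lb.r r1426 (@Lb.r r2149 (@Lb.g g11 (@Lb.g g8 (@Lb.d (nat_lit 0) (nat_lit 0) (nat_lit 384) (@Lb.r r578 (@Lb.fm (nat_lit 3) t4229))))))))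
noncomputable def l21200 : Lb := (@Lb.d (nat_lit 154) (nat_lit 294) (nat_lit 133) (@Lb.g g8 (@Lb.g g9 (@Lb.g g10 (@Lb.g g11 (@Lb.r r387 (@Lb.r r164 (@Lb.r r2470 (@Lb.r r1553 (@Lb.d (nat_lit 533) (nat_lit 68) (nat_lit 592) (@Lb.fm (nat_lit 9) t4)))))))))))
noncomputable def l21201 : Lb := (@Lb.g g5 (@Lb.r r24 (@Lb.r r101 (@Lb.d (nat_lit 6) (nat_lit 145) (nat_lit 392) (@Lb.t (@Lb.fm (nat_lit 3) t3106))))))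
noncomputable def l21202 : Lb := (@Lb.d (nat_lit 408) (nat_lit 514) (nat_lit 673) (@Lb.r r1096 (@Lb.r r2403 (@Lb.r r594 (@Lb.r r2449 (@Lb.g g11 (@Lb.t (@Lb.fm (nat_lit 3) t4230))))))))
noncomputable def l21203 : Lb := (@Lb.d (nat_lit 410) (nat_lit 289) (nat_lit 132) (@Lb.g g8 (@Lb.g g9 (@Lb.g g10 (@Lb.g g11 (@Lb.r r387 (@Lb.r r153 (@Lb.r r1434 (@Lb.d (nat_lit 532) (nat_lit 149) (nat_lit 356) (@Lb.fm (nat_lit 9) t1846))))))))))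
noncomputable def l21204 : Lb := (@Lb.d (nat_lit 144) (nat_lit 9) (nat_lit 129) (@Lb.g g8 (@Lb.g g9 (@Lb.g g10 (@Lb.g g11 (@Lb.r r1443 (@Lb.r r2212 (@Lb.r r1446 (@Lb.r r1313 (@Lb.d (nat_lit 20) (nat_lit 169) (nat_lit 72) (@Lb.fp (nat_lit 9) t4231)))))))))))
noncomputable def l21205 : Lb := (@Lb.r r21 (@Lb.d (nat_lit 646) (nat_lit 256) (nat_lit 130) (@Lb.g g8 (@Lb.g g10 (@Lb.g g11 (@Lb.r r1451 (@Lb.r r106 (@Lb.r r25 (@Lb.d (nat_lit 0) (nat_lit 73) (nat_lit 425) (@Lb.t (@Lb.fm (nat_lit 9) t842)))))))))))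
noncomputable def l21206 : Lb := (@Lb.d (nat_lit 657) (nat_lit 522) (nat_lit 261) (@Lb.r r24 (@Lb.r r101 (@Lb.r r386 (@Lb.g g11 (@Lb.g g6 (@Lb.d (nat_lit 0) (nat_lit 0) (nat_lit 1) (@Lb.fm (nat_lit 3) t3338))))))))
noncomputable def l21207 : Lb := (@Lb.d (nat_lit 401) (nat_lit 98) (nat_lit 293) (@Lb.r r24 (@Lb.r r402 (@Lb.g g11 (@Lb.g g6 (@Lb.g g9 (@Lb.d (nat_lit 0) (nat_lit 164) (nat_lit 390) (@Lb.t (@Lb.fp (nat_lit 9) t2383)))))))))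
noncomputable def l21208 : Lb := (@Lb.r r21 (@Lb.d (nat_lit 646) (nat_lit 512) (nat_lit 130) (@Lb.g g8 (@Lb.g g10 (@Lb.g g11 (@Lb.r r419 (@Lb.r r106 (@Lb.r r25 (@Lb.d (nat_lit 352) (nat_lit 73) (nat_lit 9) (@Lb.t (@Lb.fm (nat_lit 9) t1266)))))))))))
noncomputable def l21209 : Lb := (@Lb.d (nat_lit 0) (nat_lit 514) (nat_lit 66) (@Lb.g g8 (@Lb.g g9 (@Lb.g g10 (@Lb.g g7 (@Lb.r r386 (@Lb.r r97 (@Lb.r r24 (@Lb.d (nat_lit 330) (nat_lit 9) (nat_lit 585) (@Lb.fp (nat_lit 9) t166))))))))))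
noncomputable def l21210 : Lb := (@Lb.r r21 (@Lb.d (nat_lit 2) (nat_lit 520) (nat_lit 162) (@Lb.g g8 (@Lb.g g10 (@Lb.g g11 (@Lb.r r273 (@Lb.r r615 (@Lb.r r388 (@Lb.d (nat_lit 664) (nat_lit 161) (nat_lit 529) (@Lb.t (@Lb.fp (nat_lit 9) t1042)))))))))))
noncomputable def l21211 : Lb := (@Lb.r r21 (@Lb.r r70 (@Lb.d (nat_lit 390) (nat_lit 512) (nat_lit 128) (@Lb.g g8 (@Lb.g g11 (@Lb.r r1419 (@Lb.r r402 (@Lb.r r97 (@Lb.d (nat_lit 581) (nat_lit 2) (nat_lit 528) (@Lb.fm (nat_lit 3) t644))))))))))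
noncomputable def l21212 : Lb := (@Lb.d (nat_lit 388) (nat_lit 65) (nat_lit 642) (@Lb.r r2341 (@Lb.r r1624 (@Lb.g g10 (@Lb.d (nat_lit 32) (nat_lit 4) (nat_lit 26) (@Lb.t (@Lb.fp (nat_lit 3) t4232)))))))
noncomputable def l21213 : Lb := (@Lb.d (nat_lit 136) (nat_lit 528) (nat_lit 137) (@Lb.g g9 (@Lb.g g10 (@Lb.g g11 (@Lb.r r88 (@Lb.r r358 (@Lb.r r2707 (@Lb.r r1305 (@Lb.d (nat_lit 581) (nat_lit 82) (nat_lit 608) (@Lb.t (@Lb.fm (nat_lit 9) t4233)))))))))))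
noncomputable def l21214 : Lb := (@Lb.d (nat_lit 262) (nat_lit 321) (nat_lit 640) (@Lb.r r2341 (@Lb.r r1624 (@Lb.r r2726 (@Lb.g g11 (@Lb.g g6 (@Lb.fm (nat_lit 3) t4234)))))))
noncomputable def l21215 : Lb := (@Lb.d (nat_lit 389) (nat_lit 577) (nat_lit 642) (@Lb.r r2341 (@Lb.r r1624 (@Lb.g g10 (@Lb.d (nat_lit 32) (nat_lit 4) (nat_lit 26) (@Lb.t (@Lb.fp (nat_lit 3) t4232)))))))
noncomputable def l21216 : Lb := (@Lb.d (nat_lit 4) (nat_lit 16) (nat_lit 73) (@Lb.g g9 (@Lb.g g10 (@Lb.g g11 (@Lb.r r344 (@Lb.r r1431 (@Lb.r r338 (@Lb.r r1425 (@Lb.d (nat_lit 289) (nat_lit 6) (nat_lit 73) (@Lb.t (@Lb.fp (nat_lit 9) t4235)))))))))))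
noncomputable def l21217 : Lb := (@Lb.d (nat_lit 0) (nat_lit 512) (nat_lit 73) (@Lb.g g10 (@Lb.g g11 (@Lb.r r2691 (@Lb.r r1610 (@Lb.r r20 (@Lb.r r105 (@Lb.d (nat_lit 664) (nat_lit 16) (nat_lit 645) (@Lb.fm (nat_lit 3) t4236)))))))))
noncomputable def l21218 : Lb := (@Lb.d (nat_lit 2) (nat_lit 25) (nat_lit 585) (@Lb.g g8 (@Lb.g g5 (@Lb.g g10 (@Lb.g g11 (@Lb.r r2626 (@Lb.r r24 (@Lb.d (nat_lit 10) (nat_lit 100) (nat_lit 384) (@Lb.fp (nat_lit 9) t4237)))))))))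
noncomputable def l21219 : Lb := (@Lb.d (nat_lit 0) (nat_lit 0) (nat_lit 101) (@Lb.r r1635 (@Lb.r r601 (@Lb.r r2132 (@Lb.r r1162 (@Lb.g g4 (@Lb.d (nat_lit 1) (nat_lit 0) (nat_lit 0) (@Lb.t (@Lb.fm (nat_lit 3) t2842)))))))))
noncomputable def l21220 : Lb := (@Lb.d (nat_lit 2) (nat_lit 0) (nat_lit 66) (@Lb.g g8 (@Lb.g g10 (@Lb.g g7 (@Lb.r r84 (@Lb.r r426 (@Lb.r r289 (@Lb.r r132 (@Lb.d (nat_lit 70) (nat_lit 129) (nat_lit 330) (@Lb.t (@Lb.fp (nat_lit 9) t668)))))))))))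
noncomputable def l21221 : Lb := (@Lb.d (nat_lit 6) (nat_lit 544) (nat_lit 130) (@Lb.g g8 (@Lb.g g9 (@Lb.g g10 (@Lb.g g11 (@Lb.r r2731 (@Lb.r r618 (@Lb.r r537 (@Lb.r r2628 (@Lb.d (nat_lit 426) (nat_lit 69) (nat_lit 410) (@Lb.fm (nat_lit 9) t4238)))))))))))
noncomputable def l21222 : Lb := (@Lb.d (nat_lit 0) (nat_lit 548) (nat_lit 133) (@Lb.g g9 (@Lb.g g10 (@Lb.g g11 (@Lb.r r323 (@Lb.r r1370 (@Lb.r r596 (@Lb.r r297 (@Lb.d (nat_lit 72) (nat_lit 32) (nat_lit 320) (@Lb.t (@Lb.fp (nat_lit 9) t2618)))))))))))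
noncomputable def l21223 : Lb := (@Lb.d (nat_lit 4) (nat_lit 257) (nat_lit 64) (@Lb.g g5 (@Lb.g g10 (@Lb.g g11 (@Lb.r r642 (@Lb.r r1667 (@Lb.r r578 (@Lb.r r24 (@Lb.d (nat_lit 321) (nat_lit 1) (nat_lit 529) (@Lb.t (@Lb.fm (nat_lit 9) t716)))))))))))
noncomputable def l21224 : Lb := (@Lb.d (nat_lit 2) (nat_lit 34) (nat_lit 130) (@Lb.g g8 (@Lb.g g9 (@Lb.g g10 (@Lb.g g11 (@Lb.r r682 (@Lb.r r676 (@Lb.r r551 (@Lb.r r533 (@Lb.r r36 (@Lb.d (nat_lit 137) (nat_lit 1) (nat_lit 74) (@Lb.fp (nat_lit 9) t74))))))))))))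
noncomputable def l21225 : Lb := (@Lb.d (nat_lit 32) (nat_lit 290) (nat_lit 132) (@Lb.g g9 (@Lb.g g10 (@Lb.g g11 (@Lb.r r647 (@Lb.r r1352 (@Lb.r r342 (@Lb.r r2337 (@Lb.d (nat_lit 528) (nat_lit 138) (nat_lit 618) (@Lb.t (@Lb.fp (nat_lit 9) t2618)))))))))))
noncomputable def l21226 : Lb := (@Lb.d (nat_lit 97) (nat_lit 394) (nat_lit 597) (@Lb.r r2647 (@Lb.r r362 (@Lb.r r344 (@Lb.r r549 (@Lb.g g7 (@Lb.d (nat_lit 64) (nat_lit 0) (nat_lit 128) (@Lb.t (@Lb.fp (nat_lit 3) t4239)))))))))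
noncomputable def l21227 : Lb := (@Lb.d (nat_lit 6) (nat_lit 514) (nat_lit 0) (@Lb.r r289 (@Lb.r r279 (@Lb.r r584 (@Lb.r r326 (@Lb.g g7 (@Lb.g g6 (@Lb.g g5 (@Lb.d (nat_lit 0) (nat_lit 0) (nat_lit 65) (@Lb.t (@Lb.fp (nat_lit 9) t68)))))))))))
noncomputable def l21228 : Lb := (@Lb.r r82 (@Lb.d (nat_lit 18) (nat_lit 514) (nat_lit 128) (@Lb.g g8 (@Lb.g g9 (@Lb.g g11 (@Lb.r r1706 (@Lb.r r1449 (@Lb.r r1623 (@Lb.r r2472 (@Lb.d (nat_lit 278) (nat_lit 102) (nat_lit 602) (@Lb.t (@Lb.fm (nat_lit 9) t1686))))))))))))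
noncomputable def l21229 : Lb := (@Lb.d (nat_lit 129) (nat_lit 265) (nat_lit 1) (@Lb.g g8 (@Lb.g g9 (@Lb.g g10 (@Lb.r r2663 (@Lb.r r597 (@Lb.r r682 (@Lb.r r1128 (@Lb.d (nat_lit 132) (nat_lit 138) (nat_lit 326) (@Lb.t (@Lb.fp (nat_lit 9) t4240)))))))))))
noncomputable def l21230 : Lb := (@Lb.r r82 (@Lb.d (nat_lit 0) (nat_lit 322) (nat_lit 0) (@Lb.g g5 (@Lb.r r104 (@Lb.r r70 (@Lb.r r132 (@Lb.d (nat_lit 0) (nat_lit 1) (nat_lit 0) (@Lb.t (@Lb.fp (nat_lit 3) t722)))))))))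
noncomputable def l21231 : Lb := (@Lb.r r2343 (@Lb.r r584 (@Lb.r r86 (@Lb.r r289 (@Lb.r r132 (@Lb.d (nat_lit 0) (nat_lit 386) (nat_lit 544) (@Lb.fp (nat_lit 1) t3134)))))))
noncomputable def l21232 : Lb := (@Lb.d (nat_lit 416) (nat_lit 532) (nat_lit 577) (@Lb.r r101 (@Lb.r r24 (@Lb.r r2707 (@Lb.r r658 (@Lb.g g7 (@Lb.g g5 (@Lb.d (nat_lit 4) (nat_lit 1) (nat_lit 0) (@Lb.fm (nat_lit 3) t4241)))))))))
noncomputable def l21233 : Lb := (@Lb.d (nat_lit 386) (nat_lit 512) (nat_lit 416) (@Lb.r r391 (@Lb.r r1414 (@Lb.r r2644 (@Lb.r r1321 (@Lb.g g11 (@Lb.t (@Lb.fp (nat_lit 3) t4242))))))))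
noncomputable def l21234 : Lb := (@Lb.d (nat_lit 4) (nat_lit 288) (nat_lit 132) (@Lb.g g8 (@Lb.g g9 (@Lb.g g10 (@Lb.g g11 (@Lb.r r682 (@Lb.r r676 (@Lb.r r359 (@Lb.r r341 (@Lb.r r36 (@Lb.d (nat_lit 89) (nat_lit 1) (nat_lit 134) (@Lb.fm (nat_lit 9) t74))))))))))))
noncomputable def l21235 : Lb := (@Lb.d (nat_lit 4) (nat_lit 518) (nat_lit 1) (@Lb.r r289 (@Lb.r r535 (@Lb.r r328 (@Lb.r r326 (@Lb.g g7 (@Lb.g g6 (@Lb.g g5 (@Lb.d (nat_lit 4) (nat_lit 1) (nat_lit 134) (@Lb.t (@Lb.fm (nat_lit 9) t68)))))))))))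
noncomputable def l21236 : Lb := (@Lb.d (nat_lit 4) (nat_lit 544) (nat_lit 132) (@Lb.g g8 (@Lb.g g9 (@Lb.g g10 (@Lb.g g11 (@Lb.r r682 (@Lb.r r676 (@Lb.r r359 (@Lb.r r341 (@Lb.r r36 (@Lb.d (nat_lit 88) (nat_lit 1) (nat_lit 134) (@Lb.fm (nat_lit 9) t68))))))))))))
noncomputable def l21237 : Lb := (@Lb.d (nat_lit 0) (nat_lit 418) (nat_lit 384) (@Lb.r r81 (@Lb.r r1122 (@Lb.r r97 (@Lb.g g11 (@Lb.t (@Lb.fm (nat_lit 3) t2169)))))))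
noncomputable def l21238 : Lb := (@Lb.d (nat_lit 0) (nat_lit 262) (nat_lit 138) (@Lb.g g9 (@Lb.g g10 (@Lb.g g11 (@Lb.r r1697 (@Lb.r r2658 (@Lb.r r579 (@Lb.d (nat_lit 0) (nat_lit 166) (nat_lit 549) (@Lb.t (@Lb.fm (nat_lit 9) t144))))))))))
noncomputable def l21239 : Lb := (@Lb.d (nat_lit 132) (nat_lit 2) (nat_lit 130) (@Lb.g g8 (@Lb.g g9 (@Lb.g g10 (@Lb.g g11 (@Lb.r r1691 (@Lb.r r1642 (@Lb.r r1561 (@Lb.r r532 (@Lb.d (nat_lit 294) (nat_lit 105) (nat_lit 657) (@Lb.fm (nat_lit 9) t175)))))))))))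
noncomputable def l21240 : Lb := (@Lb.d (nat_lit 9) (nat_lit 258) (nat_lit 73) (@Lb.g g8 (@Lb.g g9 (@Lb.g g10 (@Lb.g g11 (@Lb.r r682 (@Lb.r r676 (@Lb.r r551 (@Lb.r r1557 (@Lb.r r36 (@Lb.d (nat_lit 393) (nat_lit 65) (nat_lit 586) (@Lb.fp (nat_lit 9) t284))))))))))))
noncomputable def l21241 : Lb := (@Lb.d (nat_lit 66) (nat_lit 266) (nat_lit 132) (@Lb.r r405 (@Lb.r r666 (@Lb.r r388 (@Lb.r r331 (@Lb.g g7 (@Lb.g g6 (@Lb.g g5 (@Lb.d (nat_lit 20) (nat_lit 6) (nat_lit 65) (@Lb.t (@Lb.fm (nat_lit 9) t50)))))))))))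
noncomputable def l21242 : Lb := (@Lb.r r21 (@Lb.r r323 (@Lb.d (nat_lit 169) (nat_lit 0) (nat_lit 0) (@Lb.g g8 (@Lb.g g6 (@Lb.r r423 (@Lb.r r293 (@Lb.r r532 (@Lb.d (nat_lit 134) (nat_lit 34) (nat_lit 128) (@Lb.fm (nat_lit 3) t50))))))))))
noncomputable def l21243 : Lb := (@Lb.r r402 (@Lb.r r101 (@Lb.r r24 (@Lb.d (nat_lit 529) (nat_lit 266) (nat_lit 544) (@Lb.fm (nat_lit 1) t145)))))
noncomputable def l21244 : Lb := (@Lb.r r21 (@Lb.d (nat_lit 2) (nat_lit 0) (nat_lit 130) (@Lb.g g8 (@Lb.g g10 (@Lb.g g11 (@Lb.r r2379 (@Lb.r r386 (@Lb.r r145 (@Lb.r r72 (@Lb.d (nat_lit 512) (nat_lit 0) (nat_lit 68) (@Lb.t (@Lb.fm (nat_lit 9) t61))))))))))))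
noncomputable def l21245 : Lb := (@Lb.d (nat_lit 401) (nat_lit 513) (nat_lit 422) (@Lb.r r24 (@Lb.r r386 (@Lb.g g11 (@Lb.g g6 (@Lb.g g5 (@Lb.d (nat_lit 4) (nat_lit 1) (nat_lit 1) (@Lb.t (@Lb.fm (nat_lit 9) t1221)))))))))
noncomputable def l21246 : Lb := (@Lb.r r21 (@Lb.d (nat_lit 2) (nat_lit 256) (nat_lit 130) (@Lb.g g8 (@Lb.g g10 (@Lb.g g11 (@Lb.r r2379 (@Lb.r r386 (@Lb.r r145 (@Lb.r r72 (@Lb.d (nat_lit 512) (nat_lit 10) (nat_lit 70) (@Lb.t (@Lb.fm (nat_lit 9) t61))))))))))))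
noncomputable def l21247 : Lb := (@Lb.d (nat_lit 133) (nat_lit 518) (nat_lit 6) (@Lb.r r24 (@Lb.r r97 (@Lb.r r386 (@Lb.r r343 (@Lb.g g7 (@Lb.g g6 (@Lb.g g5 (@Lb.d (nat_lit 0) (nat_lit 1) (nat_lit 8) (@Lb.t (@Lb.fm (nat_lit 9) t1523)))))))))))
noncomputable def l21248 : Lb := (@Lb.r r323 (@Lb.d (nat_lit 0) (nat_lit 258) (nat_lit 4) (@Lb.g g9 (@Lb.g g6 (@Lb.r r387 (@Lb.r r104 (@Lb.r r25 (@Lb.d (nat_lit 22) (nat_lit 153) (nat_lit 389) (@Lb.fm (nat_lit 3) t2781)))))))))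
noncomputable def l21249 : Lb := (@Lb.d (nat_lit 400) (nat_lit 1) (nat_lit 416) (@Lb.r r24 (@Lb.g g10 (@Lb.g g5 (@Lb.d (nat_lit 4) (nat_lit 1) (nat_lit 0) (@Lb.fm (nat_lit 3) t1427))))))
noncomputable def l21250 : Lb := (@Lb.d (nat_lit 0) (nat_lit 256) (nat_lit 2) (@Lb.g g10 (@Lb.g g7 (@Lb.r r24 (@Lb.r r421 (@Lb.r r98 (@Lb.d (nat_lit 5) (nat_lit 22) (nat_lit 72) (@Lb.fp (nat_lit 3) t1831))))))))
noncomputable def l21251 : Lb := (@Lb.r r21 (@Lb.r r263 (@Lb.d (nat_lit 2) (nat_lit 512) (nat_lit 2) (@Lb.g g8 (@Lb.g g10 (@Lb.r r2647 (@Lb.r r2182 (@Lb.r r1176 (@Lb.r r37 (@Lb.d (nat_lit 289) (nat_lit 32) (nat_lit 293) (@Lb.fm (nat_lit 3) t898)))))))))))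
noncomputable def l21252 : Lb := (@Lb.r r21 (@Lb.r r326 (@Lb.d (nat_lit 265) (nat_lit 528) (nat_lit 584) (@Lb.g g4 (@Lb.g g7 (@Lb.r r586 (@Lb.r r25 (@Lb.d (nat_lit 512) (nat_lit 6) (nat_lit 133) (@Lb.fm (nat_lit 3) t4243)))))))))
noncomputable def l21253 : Lb := (@Lb.d (nat_lit 400) (nat_lit 1) (nat_lit 422) (@Lb.r r24 (@Lb.r r386 (@Lb.g g11 (@Lb.g g6 (@Lb.g g5 (@Lb.d (nat_lit 4) (nat_lit 1) (nat_lit 1) (@Lb.t (@Lb.fm (nat_lit 9) t1221)))))))))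
noncomputable def l21254 : Lb := (@Lb.d (nat_lit 533) (nat_lit 390) (nat_lit 42) (@Lb.r r277 (@Lb.r r1622 (@Lb.r r675 (@Lb.g g7 (@Lb.g g6 (@Lb.g g5 (@Lb.g g8 (@Lb.d (nat_lit 10) (nat_lit 18) (nat_lit 65) (@Lb.fp (nat_lit 9) t31))))))))))
noncomputable def l21255 : Lb := (@Lb.r r24 (@Lb.r r101 (@Lb.d (nat_lit 0) (nat_lit 656) (nat_lit 392) (@Lb.fp (nat_lit 1) t1174))))
noncomputable def l21256 : Lb := (@Lb.d (nat_lit 130) (nat_lit 2) (nat_lit 66) (@Lb.g g8 (@Lb.g g9 (@Lb.g g10 (@Lb.g g11 (@Lb.r r2666 (@Lb.r r612 (@Lb.r r1319 (@Lb.r r405 (@Lb.r r2084 (@Lb.d (nat_lit 616) (nat_lit 137) (nat_lit 169) (@Lb.fp (nat_lit 9) t163))))))))))))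
noncomputable def l21257 : Lb := (@Lb.r r327 (@Lb.d (nat_lit 2) (nat_lit 9) (nat_lit 2) (@Lb.g g8 (@Lb.g g9 (@Lb.g g10 (@Lb.r r683 (@Lb.r r1194 (@Lb.r r2201 (@Lb.r r2180 (@Lb.d (nat_lit 553) (nat_lit 65) (nat_lit 34) (@Lb.t (@Lb.fm (nat_lit 9) t1755))))))))))))
noncomputable def l21258 : Lb := (@Lb.r r327 (@Lb.d (nat_lit 0) (nat_lit 521) (nat_lit 2) (@Lb.g g8 (@Lb.g g9 (@Lb.g g10 (@Lb.r r683 (@Lb.r r1194 (@Lb.r r2201 (@Lb.r r2180 (@Lb.d (nat_lit 553) (nat_lit 65) (nat_lit 34) (@Lb.t (@Lb.fm (nat_lit 9) t1755))))))))))))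
noncomputable def l21259 : Lb := (@Lb.d (nat_lit 0) (nat_lit 521) (nat_lit 130) (@Lb.g g8 (@Lb.g g9 (@Lb.g g10 (@Lb.g g11 (@Lb.r r516 (@Lb.r r263 (@Lb.r r2453 (@Lb.r r666 (@Lb.r r516 (@Lb.d (nat_lit 2) (nat_lit 10) (nat_lit 161) (@Lb.fm (nat_lit 9) t160))))))))))))
noncomputable def l21260 : Lb := (@Lb.r r327 (@Lb.d (nat_lit 10) (nat_lit 8) (nat_lit 2) (@Lb.g g8 (@Lb.g g9 (@Lb.g g10 (@Lb.r r683 (@Lb.r r1194 (@Lb.r r2201 (@Lb.r r2180 (@Lb.d (nat_lit 553) (nat_lit 65) (nat_lit 34) (@Lb.t (@Lb.fm (nat_lit 9) t1755))))))))))))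
noncomputable def l21261 : Lb := (@Lb.d (nat_lit 578) (nat_lit 10) (nat_lit 420) (@Lb.r r154 (@Lb.r r660 (@Lb.r r2649 (@Lb.r r1571 (@Lb.g g5 (@Lb.g g4 (@Lb.d (nat_lit 4) (nat_lit 1) (nat_lit 0) (@Lb.fm (nat_lit 3) t4244)))))))))
noncomputable def l21262 : Lb := (@Lb.d (nat_lit 128) (nat_lit 512) (nat_lit 128) (@Lb.g g11 (@Lb.r r264 (@Lb.r r519 (@Lb.r r402 (@Lb.r r537 (@Lb.d (nat_lit 2) (nat_lit 128) (nat_lit 394) (@Lb.t (@Lb.fm (nat_lit 3) t2509)))))))))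
noncomputable def l21263 : Lb := (@Lb.d (nat_lit 20) (nat_lit 522) (nat_lit 4) (@Lb.r r614 (@Lb.r r664 (@Lb.r r337 (@Lb.g g11 (@Lb.g g10 (@Lb.d (nat_lit 16) (nat_lit 0) (nat_lit 1) (@Lb.fp (nat_lit 3) t263))))))))
noncomputable def l21264 : Lb := (@Lb.d (nat_lit 33) (nat_lit 529) (nat_lit 69) (@Lb.r r678 (@Lb.r r600 (@Lb.r r417 (@Lb.g g11 (@Lb.g g6 (@Lb.g g5 (@Lb.d (nat_lit 16) (nat_lit 2) (nat_lit 0) (@Lb.t (@Lb.fp (nat_lit 9) t263))))))))))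
noncomputable def l21265 : Lb := (@Lb.r r21 (@Lb.d (nat_lit 42) (nat_lit 256) (nat_lit 73) (@Lb.g g8 (@Lb.g g10 (@Lb.g g11 (@Lb.r r2721 (@Lb.r r2667 (@Lb.r r138 (@Lb.r r1348 (@Lb.d (nat_lit 42) (nat_lit 128) (nat_lit 106) (@Lb.t (@Lb.fp (nat_lit 9) t125))))))))))))
noncomputable def l21266 : Lb := (@Lb.r r355 (@Lb.d (nat_lit 0) (nat_lit 521) (nat_lit 21) (@Lb.g g9 (@Lb.g g10 (@Lb.r r547 (@Lb.r r1633 (@Lb.r r36 (@Lb.d (nat_lit 325) (nat_lit 150) (nat_lit 40) (@Lb.fm (nat_lit 3) t4245)))))))))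
noncomputable def l21267 : Lb := (@Lb.g g7 (@Lb.r r101 (@Lb.r r24 (@Lb.d (nat_lit 576) (nat_lit 266) (nat_lit 660) (@Lb.t (@Lb.fm (nat_lit 3) t166))))))
noncomputable def l21268 : Lb := (@Lb.d (nat_lit 1) (nat_lit 514) (nat_lit 64) (@Lb.g g8 (@Lb.g g9 (@Lb.g g11 (@Lb.r r343 (@Lb.r r2178 (@Lb.r r2649 (@Lb.r r2628 (@Lb.d (nat_lit 665) (nat_lit 5) (nat_lit 426) (@Lb.t (@Lb.fp (nat_lit 9) t2607)))))))))))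
noncomputable def l21269 : Lb := (@Lb.d (nat_lit 402) (nat_lit 261) (nat_lit 20) (@Lb.r r2374 (@Lb.r r1684 (@Lb.r r2393 (@Lb.r r2723 (@Lb.g g6 (@Lb.g g5 (@Lb.g g4 (@Lb.d (nat_lit 1) (nat_lit 1) (nat_lit 1) (@Lb.t (@Lb.fm (nat_lit 9) t1641)))))))))))
noncomputable def l21270 : Lb := (@Lb.r r21 (@Lb.g g4 (@Lb.g g7 (@Lb.r r1687 (@Lb.r r146 (@Lb.r r1621 (@Lb.r r2440 (@Lb.d (nat_lit 73) (nat_lit 322) (nat_lit 341) (@Lb.fp (nat_lit 3) t4246)))))))))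
noncomputable def l21271 : Lb := (@Lb.d (nat_lit 33) (nat_lit 258) (nat_lit 73) (@Lb.g g8 (@Lb.g g9 (@Lb.g g10 (@Lb.g g11 (@Lb.r r2690 (@Lb.r r2455 (@Lb.r r1561 (@Lb.r r1540 (@Lb.d (nat_lit 393) (nat_lit 129) (nat_lit 640) (@Lb.fm (nat_lit 9) t128)))))))))))
noncomputable def l21272 : Lb := (@Lb.r r90 (@Lb.d (nat_lit 1) (nat_lit 585) (nat_lit 64) (@Lb.g g8 (@Lb.g g5 (@Lb.g g11 (@Lb.r r295 (@Lb.r r130 (@Lb.r r532 (@Lb.d (nat_lit 400) (nat_lit 34) (nat_lit 128) (@Lb.t (@Lb.fm (nat_lit 9) t4247)))))))))))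
noncomputable def l21273 : Lb := (@Lb.d (nat_lit 34) (nat_lit 258) (nat_lit 129) (@Lb.g g8 (@Lb.g g9 (@Lb.g g6 (@Lb.g g11 (@Lb.r r1643 (@Lb.r r97 (@Lb.r r1560 (@Lb.d (nat_lit 73) (nat_lit 98) (nat_lit 641) (@Lb.fp (nat_lit 9) t1739))))))))))
noncomputable def l21274 : Lb := (@Lb.d (nat_lit 33) (nat_lit 258) (nat_lit 129) (@Lb.g g8 (@Lb.g g9 (@Lb.g g6 (@Lb.g g11 (@Lb.r r1643 (@Lb.r r97 (@Lb.r r1560 (@Lb.d (nat_lit 73) (nat_lit 98) (nat_lit 513) (@Lb.fp (nat_lit 9) t1598))))))))))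
noncomputable def l21275 : Lb := (@Lb.r r82 (@Lb.d (nat_lit 130) (nat_lit 2) (nat_lit 128) (@Lb.g g8 (@Lb.g g9 (@Lb.g g11 (@Lb.r r291 (@Lb.r r1124 (@Lb.r r1626 (@Lb.r r2449 (@Lb.d (nat_lit 10) (nat_lit 84) (nat_lit 169) (@Lb.t (@Lb.fm (nat_lit 9) t1846))))))))))))
noncomputable def l21276 : Lb := (@Lb.d (nat_lit 357) (nat_lit 6) (nat_lit 512) (@Lb.r r24 (@Lb.r r97 (@Lb.r r1366 (@Lb.g g7 (@Lb.g g6 (@Lb.g g5 (@Lb.d (nat_lit 0) (nat_lit 1) (nat_lit 134) (@Lb.t (@Lb.fp (nat_lit 9) t2724))))))))))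
noncomputable def l21277 : Lb := (@Lb.g g6 (@Lb.r r24 (@Lb.r r101 (@Lb.r r402 (@Lb.d (nat_lit 5) (nat_lit 257) (nat_lit 66) (@Lb.t (@Lb.fp (nat_lit 3) t1831)))))))
noncomputable def l21278 : Lb := (@Lb.d (nat_lit 9) (nat_lit 2) (nat_lit 2) (@Lb.g g8 (@Lb.g g9 (@Lb.g g10 (@Lb.g g11 (@Lb.r r682 (@Lb.r r680 (@Lb.r r555 (@Lb.r r529 (@Lb.r r36 (@Lb.d (nat_lit 2) (nat_lit 34) (nat_lit 74) (@Lb.fm (nat_lit 9) t51))))))))))))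
noncomputable def l21279 : Lb := (@Lb.d (nat_lit 166) (nat_lit 273) (nat_lit 72) (@Lb.r r664 (@Lb.r r667 (@Lb.r r273 (@Lb.r r146 (@Lb.g g7 (@Lb.g g5 (@Lb.g g4 (@Lb.d (nat_lit 16) (nat_lit 1) (nat_lit 64) (@Lb.t (@Lb.fm (nat_lit 9) t546)))))))))))
noncomputable def l21280 : Lb := (@Lb.g g6 (@Lb.r r24 (@Lb.d (nat_lit 320) (nat_lit 101) (nat_lit 257) (@Lb.t (@Lb.fp (nat_lit 3) t3115)))))
noncomputable def l21281 : Lb := (@Lb.d (nat_lit 0) (nat_lit 8) (nat_lit 2) (@Lb.g g10 (@Lb.r r609 (@Lb.r r363 (@Lb.r r356 (@Lb.r r154 (@Lb.d (nat_lit 256) (nat_lit 10) (nat_lit 17) (@Lb.t (@Lb.fp (nat_lit 3) t127)))))))))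
noncomputable def l21282 : Lb := (@Lb.d (nat_lit 645) (nat_lit 133) (nat_lit 2) (@Lb.r r1317 (@Lb.r r24 (@Lb.r r2375 (@Lb.g g6 (@Lb.d (nat_lit 32) (nat_lit 4) (nat_lit 25) (@Lb.r r387 (@Lb.t (@Lb.fm (nat_lit 3) t3439)))))))))
noncomputable def l21283 : Lb := (@Lb.d (nat_lit 40) (nat_lit 273) (nat_lit 68) (@Lb.g g5 (@Lb.g g10 (@Lb.g g11 (@Lb.r r1687 (@Lb.r r88 (@Lb.r r86 (@Lb.d (nat_lit 594) (nat_lit 21) (nat_lit 678) (@Lb.t (@Lb.fp (nat_lit 9) t1830))))))))))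
noncomputable def l21284 : Lb := (@Lb.r r1045 (@Lb.d (nat_lit 2) (nat_lit 256) (nat_lit 2) (@Lb.g g8 (@Lb.g g10 (@Lb.g g11 (@Lb.r r2379 (@Lb.r r386 (@Lb.r r72 (@Lb.d (nat_lit 290) (nat_lit 0) (nat_lit 70) (@Lb.t (@Lb.fm (nat_lit 9) t873)))))))))))
noncomputable def l21285 : Lb := (@Lb.d (nat_lit 0) (nat_lit 512) (nat_lit 128) (@Lb.g g11 (@Lb.r r1350 (@Lb.r r1419 (@Lb.d (nat_lit 530) (nat_lit 0) (nat_lit 338) (@Lb.t (@Lb.fp (nat_lit 3) t3062)))))))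
noncomputable def l21286 : Lb := (@Lb.d (nat_lit 418) (nat_lit 150) (nat_lit 528) (@Lb.r r1313 (@Lb.r r2118 (@Lb.r r2647 (@Lb.g g6 (@Lb.g g5 (@Lb.g g4 (@Lb.d (nat_lit 338) (nat_lit 17) (nat_lit 1) (@Lb.r r391 (@Lb.t (@Lb.fp (nat_lit 9) t2205)))))))))))
noncomputable def l21287 : Lb := (@Lb.d (nat_lit 0) (nat_lit 520) (nat_lit 64) (@Lb.g g10 (@Lb.g g11 (@Lb.r r1684 (@Lb.r r345 (@Lb.r r2599 (@Lb.r r2370 (@Lb.d (nat_lit 646) (nat_lit 80) (nat_lit 102) (@Lb.fp (nat_lit 3) t1495)))))))))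
noncomputable def l21288 : Lb := (@Lb.d (nat_lit 128) (nat_lit 256) (nat_lit 128) (@Lb.g g11 (@Lb.r r2452 (@Lb.r r2649 (@Lb.r r2406 (@Lb.r r2459 (@Lb.d (nat_lit 538) (nat_lit 154) (nat_lit 82) (@Lb.t (@Lb.fp (nat_lit 3) t2635)))))))))
noncomputable def l21289 : Lb := (@Lb.d (nat_lit 137) (nat_lit 256) (nat_lit 64) (@Lb.g g8 (@Lb.g g10 (@Lb.g g11 (@Lb.r r357 (@Lb.r r1626 (@Lb.r r603 (@Lb.r r88 (@Lb.d (nat_lit 420) (nat_lit 134) (nat_lit 322) (@Lb.t (@Lb.fp (nat_lit 9) t2241)))))))))))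
noncomputable def l21290 : Lb := (@Lb.d (nat_lit 10) (nat_lit 512) (nat_lit 130) (@Lb.g g8 (@Lb.g g10 (@Lb.g g11 (@Lb.r r2658 (@Lb.r r1639 (@Lb.r r1557 (@Lb.r r1316 (@Lb.d (nat_lit 68) (nat_lit 33) (nat_lit 384) (@Lb.t (@Lb.fp (nat_lit 9) t2815)))))))))))
noncomputable def l21291 : Lb := (@Lb.d (nat_lit 0) (nat_lit 256) (nat_lit 66) (@Lb.g g10 (@Lb.g g11 (@Lb.r r419 (@Lb.r r386 (@Lb.d (nat_lit 0) (nat_lit 105) (nat_lit 145) (@Lb.fp (nat_lit 3) t356)))))))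
noncomputable def l21292 : Lb := (@Lb.d (nat_lit 0) (nat_lit 8) (nat_lit 130) (@Lb.g g10 (@Lb.g g11 (@Lb.r r387 (@Lb.r r24 (@Lb.r r101 (@Lb.d (nat_lit 26) (nat_lit 9) (nat_lit 2) (@Lb.fm (nat_lit 3) t1233))))))))
noncomputable def l21293 : Lb := (@Lb.d (nat_lit 0) (nat_lit 546) (nat_lit 66) (@Lb.g g9 (@Lb.g g10 (@Lb.g g11 (@Lb.r r387 (@Lb.r r161 (@Lb.r r1442 (@Lb.r r2193 (@Lb.d (nat_lit 0) (nat_lit 8) (nat_lit 346) (@Lb.t (@Lb.fm (nat_lit 9) t2744)))))))))))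
noncomputable def l21294 : Lb := (@Lb.r r70 (@Lb.d (nat_lit 266) (nat_lit 257) (nat_lit 64) (@Lb.g g8 (@Lb.g g9 (@Lb.g g11 (@Lb.r r153 (@Lb.r r2706 (@Lb.r r387 (@Lb.d (nat_lit 641) (nat_lit 0) (nat_lit 261) (@Lb.t (@Lb.fp (nat_lit 9) t1758)))))))))))
noncomputable def l21295 : Lb := (@Lb.d (nat_lit 17) (nat_lit 258) (nat_lit 128) (@Lb.g g8 (@Lb.g g9 (@Lb.g g10 (@Lb.g g11 (@Lb.r r1686 (@Lb.r r529 (@Lb.r r2391 (@Lb.r r1700 (@Lb.d (nat_lit 425) (nat_lit 33) (nat_lit 549) (@Lb.fm (nat_lit 9) t4248)))))))))))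
noncomputable def l21296 : Lb := (@Lb.d (nat_lit 10) (nat_lit 262) (nat_lit 128) (@Lb.g g8 (@Lb.g g9 (@Lb.g g10 (@Lb.g g11 (@Lb.r r516 (@Lb.r r263 (@Lb.r r618 (@Lb.r r97 (@Lb.r r516 (@Lb.d (nat_lit 2) (nat_lit 0) (nat_lit 130) (@Lb.fm (nat_lit 9) t1037))))))))))))
noncomputable def l21297 : Lb := (@Lb.d (nat_lit 146) (nat_lit 22) (nat_lit 66) (@Lb.r r273 (@Lb.r r338 (@Lb.r r679 (@Lb.g g7 (@Lb.g g6 (@Lb.g g5 (@Lb.g g8 (@Lb.d (nat_lit 10) (nat_lit 24) (nat_lit 10) (@Lb.fp (nat_lit 9) t31))))))))))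
noncomputable def l21298 : Lb := (@Lb.r r275 (@Lb.d (nat_lit 0) (nat_lit 2) (nat_lit 2) (@Lb.g g9 (@Lb.g g10 (@Lb.r r1700 (@Lb.r r1543 (@Lb.r r386 (@Lb.r r2145 (@Lb.d (nat_lit 0) (nat_lit 137) (nat_lit 100) (@Lb.fp (nat_lit 3) t2312))))))))))
noncomputable def l21299 : Lb := (@Lb.d (nat_lit 2) (nat_lit 514) (nat_lit 130) (@Lb.g g8 (@Lb.g g9 (@Lb.g g10 (@Lb.g g11 (@Lb.r r427 (@Lb.r r424 (@Lb.r r106 (@Lb.r r25 (@Lb.d (nat_lit 586) (nat_lit 4) (nat_lit 545) (@Lb.fm (nat_lit 9) t2258)))))))))))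
noncomputable def l21300 : Lb := (@Lb.d (nat_lit 649) (nat_lit 602) (nat_lit 342) (@Lb.r r1624 (@Lb.r r1307 (@Lb.r r2657 (@Lb.g g7 (@Lb.g g10 (@Lb.g g5 (@Lb.g g4 (@Lb.d (nat_lit 148) (nat_lit 25) (nat_lit 129) (@Lb.fm (nat_lit 9) t4248))))))))))
noncomputable def l21301 : Lb := (@Lb.r r2085 (@Lb.r r24 (@Lb.r r1098 (@Lb.r r1291 (@Lb.g g9 (@Lb.g g8 (@Lb.d (nat_lit 10) (nat_lit 514) (nat_lit 0) (@Lb.fm (nat_lit 3) t1751))))))))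
noncomputable def l21302 : Lb := (@Lb.r r82 (@Lb.d (nat_lit 34) (nat_lit 514) (nat_lit 128) (@Lb.g g8 (@Lb.g g9 (@Lb.g g11 (@Lb.r r363 (@Lb.r r582 (@Lb.r r388 (@Lb.d (nat_lit 100) (nat_lit 9) (nat_lit 89) (@Lb.t (@Lb.fm (nat_lit 9) t4249)))))))))))
noncomputable def l21303 : Lb := (@Lb.d (nat_lit 82) (nat_lit 578) (nat_lit 592) (@Lb.r r1284 (@Lb.r r1297 (@Lb.r r1315 (@Lb.r r405 (@Lb.g g7 (@Lb.g g10 (@Lb.g g5 (@Lb.g g4 (@Lb.d (nat_lit 1) (nat_lit 6) (nat_lit 148) (@Lb.fm (nat_lit 9) t982)))))))))))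
noncomputable def l21304 : Lb := (@Lb.d (nat_lit 2) (nat_lit 0) (nat_lit 130) (@Lb.g g8 (@Lb.g g9 (@Lb.g g10 (@Lb.g g11 (@Lb.r r2601 (@Lb.r r299 (@Lb.r r388 (@Lb.r r70 (@Lb.r r132 (@Lb.d (nat_lit 320) (nat_lit 169) (nat_lit 89) (@Lb.fm (nat_lit 9) t2601))))))))))))
noncomputable def l21305 : Lb := (@Lb.d (nat_lit 2) (nat_lit 512) (nat_lit 130) (@Lb.g g8 (@Lb.g g9 (@Lb.g g10 (@Lb.g g11 (@Lb.r r586 (@Lb.r r600 (@Lb.r r293 (@Lb.r r2587 (@Lb.r r2564 (@Lb.d (nat_lit 617) (nat_lit 73) (nat_lit 614) (@Lb.fm (nat_lit 9) t781))))))))))))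
noncomputable def l21306 : Lb := (@Lb.d (nat_lit 2) (nat_lit 2) (nat_lit 130) (@Lb.g g8 (@Lb.g g9 (@Lb.g g10 (@Lb.g g11 (@Lb.r r427 (@Lb.r r424 (@Lb.r r106 (@Lb.r r25 (@Lb.d (nat_lit 361) (nat_lit 2) (nat_lit 514) (@Lb.fm (nat_lit 9) t1306)))))))))))
noncomputable def l21307 : Lb := (@Lb.d (nat_lit 545) (nat_lit 406) (nat_lit 338) (@Lb.r r2308 (@Lb.r r97 (@Lb.r r1291 (@Lb.r r404 (@Lb.g g7 (@Lb.g g10 (@Lb.g g5 (@Lb.g g4 (@Lb.d (nat_lit 1) (nat_lit 1) (nat_lit 81) (@Lb.fp (nat_lit 9) t448)))))))))))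
noncomputable def l21308 : Lb := (@Lb.d (nat_lit 64) (nat_lit 512) (nat_lit 648) (@Lb.g g7 (@Lb.d (nat_lit 546) (nat_lit 0) (nat_lit 84) (@Lb.t (@Lb.fm (nat_lit 3) t441)))))
noncomputable def l21309 : Lb := (@Lb.g g7 (@Lb.r r402 (@Lb.r r101 (@Lb.d (nat_lit 512) (nat_lit 640) (nat_lit 576) (@Lb.t (@Lb.fm (nat_lit 3) t1618))))))
noncomputable def l21310 : Lb := (@Lb.d (nat_lit 2) (nat_lit 258) (nat_lit 74) (@Lb.g g8 (@Lb.g g9 (@Lb.g g10 (@Lb.g g11 (@Lb.r r1194 (@Lb.r r292 (@Lb.r r411 (@Lb.r r533 (@Lb.r r2084 (@Lb.d (nat_lit 129) (nat_lit 73) (nat_lit 362) (@Lb.fm (nat_lit 9) t4250))))))))))))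
noncomputable def l21311 : Lb := (@Lb.d (nat_lit 2) (nat_lit 9) (nat_lit 73) (@Lb.g g8 (@Lb.g g9 (@Lb.g g10 (@Lb.g g11 (@Lb.r r1666 (@Lb.r r1431 (@Lb.r r97 (@Lb.r r2584 (@Lb.d (nat_lit 104) (nat_lit 169) (nat_lit 417) (@Lb.fm (nat_lit 9) t1095)))))))))))
noncomputable def l21312 : Lb := (@Lb.r r21 (@Lb.r r70 (@Lb.g g4 (@Lb.g g7 (@Lb.r r402 (@Lb.r r97 (@Lb.r r1048 (@Lb.d (nat_lit 257) (nat_lit 512) (nat_lit 512) (@Lb.fp (nat_lit 3) t30)))))))))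
noncomputable def l21313 : Lb := (@Lb.d (nat_lit 1) (nat_lit 514) (nat_lit 130) (@Lb.g g8 (@Lb.g g9 (@Lb.g g10 (@Lb.g g11 (@Lb.r r328 (@Lb.r r2407 (@Lb.r r386 (@Lb.r r97 (@Lb.r r36 (@Lb.d (nat_lit 2) (nat_lit 130) (nat_lit 153) (@Lb.fm (nat_lit 9) t2146))))))))))))
noncomputable def l21314 : Lb := (@Lb.d (nat_lit 2) (nat_lit 514) (nat_lit 130) (@Lb.g g8 (@Lb.g g9 (@Lb.g g10 (@Lb.g g11 (@Lb.r r427 (@Lb.r r324 (@Lb.r r2218 (@Lb.r r1193 (@Lb.r r1188 (@Lb.d (nat_lit 609) (nat_lit 73) (nat_lit 681) (@Lb.fp (nat_lit 9) t386))))))))))))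
noncomputable def l21315 : Lb := (@Lb.r r323 (@Lb.d (nat_lit 8) (nat_lit 258) (nat_lit 4) (@Lb.g g9 (@Lb.g g6 (@Lb.r r2659 (@Lb.d (nat_lit 2) (nat_lit 146) (nat_lit 257) (@Lb.fm (nat_lit 3) t591)))))))
noncomputable def l21316 : Lb := (@Lb.d (nat_lit 137) (nat_lit 32) (nat_lit 17) (@Lb.g g8 (@Lb.g g5 (@Lb.g g10 (@Lb.r r2343 (@Lb.r r1560 (@Lb.d (nat_lit 341) (nat_lit 98) (nat_lit 642) (@Lb.t (@Lb.fm (nat_lit 9) t468)))))))))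
noncomputable def l21317 : Lb := (@Lb.d (nat_lit 33) (nat_lit 0) (nat_lit 65) (@Lb.r r154 (@Lb.r r404 (@Lb.r r363 (@Lb.r r353 (@Lb.g g7 (@Lb.g g6 (@Lb.g g4 (@Lb.d (nat_lit 5) (nat_lit 0) (nat_lit 64) (@Lb.t (@Lb.fp (nat_lit 9) t51)))))))))))
noncomputable def l21318 : Lb := (@Lb.d (nat_lit 290) (nat_lit 512) (nat_lit 98) (@Lb.r r20 (@Lb.r r2145 (@Lb.r r402 (@Lb.r r579 (@Lb.g g6 (@Lb.t (@Lb.fp (nat_lit 3) t1412))))))))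
noncomputable def l21319 : Lb := (@Lb.r r263 (@Lb.d (nat_lit 38) (nat_lit 256) (nat_lit 1) (@Lb.g g8 (@Lb.g g9 (@Lb.g g10 (@Lb.r r1675 (@Lb.r r418 (@Lb.r r1313 (@Lb.r r584 (@Lb.d (nat_lit 356) (nat_lit 69) (nat_lit 168) (@Lb.t (@Lb.fm (nat_lit 9) t208))))))))))))
noncomputable def l21320 : Lb := (@Lb.d (nat_lit 0) (nat_lit 512) (nat_lit 130) (@Lb.g g9 (@Lb.g g10 (@Lb.g g11 (@Lb.r r1307 (@Lb.r r2709 (@Lb.r r2646 (@Lb.r r1416 (@Lb.d (nat_lit 513) (nat_lit 4) (nat_lit 0) (@Lb.t (@Lb.fp (nat_lit 9) t528)))))))))))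
noncomputable def l21321 : Lb := (@Lb.d (nat_lit 2) (nat_lit 258) (nat_lit 130) (@Lb.g g8 (@Lb.g g9 (@Lb.g g10 (@Lb.g g11 (@Lb.r r84 (@Lb.r r154 (@Lb.r r597 (@Lb.r r343 (@Lb.r r676 (@Lb.d (nat_lit 610) (nat_lit 2) (nat_lit 602) (@Lb.fm (nat_lit 9) t698))))))))))))
noncomputable def l21322 : Lb := (@Lb.d (nat_lit 324) (nat_lit 128) (nat_lit 320) (@Lb.r r20 (@Lb.r r2145 (@Lb.r r338 (@Lb.g g7 (@Lb.g g10 (@Lb.d (nat_lit 128) (nat_lit 0) (nat_lit 257) (@Lb.fm (nat_lit 3) t4251))))))))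
noncomputable def l21323 : Lb := (@Lb.d (nat_lit 16) (nat_lit 2) (nat_lit 128) (@Lb.g g8 (@Lb.g g9 (@Lb.g g10 (@Lb.g g11 (@Lb.r r2667 (@Lb.r r2666 (@Lb.r r97 (@Lb.r r2648 (@Lb.d (nat_lit 601) (nat_lit 161) (nat_lit 408) (@Lb.fm (nat_lit 9) t493)))))))))))
noncomputable def l21324 : Lb := (@Lb.d (nat_lit 32) (nat_lit 514) (nat_lit 130) (@Lb.g g9 (@Lb.g g10 (@Lb.g g11 (@Lb.r r2709 (@Lb.r r1380 (@Lb.r r2715 (@Lb.r r2634 (@Lb.d (nat_lit 353) (nat_lit 0) (nat_lit 258) (@Lb.t (@Lb.fp (nat_lit 9) t564)))))))))))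
noncomputable def l21325 : Lb := (@Lb.d (nat_lit 0) (nat_lit 256) (nat_lit 33) (@Lb.g g6 (@Lb.g g7 (@Lb.d (nat_lit 0) (nat_lit 0) (nat_lit 84) (@Lb.fm (nat_lit 3) t2)))))
noncomputable def l21326 : Lb := (@Lb.d (nat_lit 34) (nat_lit 2) (nat_lit 73) (@Lb.g g8 (@Lb.g g9 (@Lb.g g10 (@Lb.g g11 (@Lb.r r643 (@Lb.r r1194 (@Lb.r r2337 (@Lb.r r2200 (@Lb.d (nat_lit 664) (nat_lit 41) (nat_lit 658) (@Lb.fp (nat_lit 9) t4252)))))))))))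
noncomputable def l21327 : Lb := (@Lb.r r82 (@Lb.d (nat_lit 41) (nat_lit 33) (nat_lit 64) (@Lb.g g8 (@Lb.g g9 (@Lb.g g11 (@Lb.r r2593 (@Lb.r r1315 (@Lb.r r582 (@Lb.r r2180 (@Lb.d (nat_lit 549) (nat_lit 160) (nat_lit 530) (@Lb.t (@Lb.fp (nat_lit 9) t74))))))))))))
noncomputable def l21328 : Lb := (@Lb.d (nat_lit 104) (nat_lit 294) (nat_lit 9) (@Lb.g g8 (@Lb.g g9 (@Lb.g g6 (@Lb.g g11 (@Lb.r r2657 (@Lb.r r2343 (@Lb.r r1624 (@Lb.d (nat_lit 324) (nat_lit 165) (nat_lit 681) (@Lb.fm (nat_lit 9) t546))))))))))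
noncomputable def l21329 : Lb := (@Lb.d (nat_lit 0) (nat_lit 0) (nat_lit 64) (@Lb.g g7 (@Lb.r r104 (@Lb.r r2153 (@Lb.r r2134 (@Lb.r r164 (@Lb.d (nat_lit 320) (nat_lit 0) (nat_lit 576) (@Lb.t (@Lb.fm (nat_lit 3) t322)))))))))
noncomputable def l21330 : Lb := (@Lb.d (nat_lit 144) (nat_lit 5) (nat_lit 4) (@Lb.r r21 (@Lb.r r86 (@Lb.r r424 (@Lb.g g11 (@Lb.g g6 (@Lb.g g5 (@Lb.d (nat_lit 0) (nat_lit 8) (nat_lit 5) (@Lb.t (@Lb.fp (nat_lit 9) t61))))))))))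
noncomputable def l21331 : Lb := (@Lb.d (nat_lit 101) (nat_lit 170) (nat_lit 152) (@Lb.r r405 (@Lb.r r1110 (@Lb.r r2472 (@Lb.g g11 (@Lb.g g6 (@Lb.g g5 (@Lb.d (nat_lit 0) (nat_lit 4) (nat_lit 6) (@Lb.t (@Lb.fp (nat_lit 9) t61))))))))))
noncomputable def l21332 : Lb := (@Lb.d (nat_lit 642) (nat_lit 513) (nat_lit 138) (@Lb.r r1284 (@Lb.r r323 (@Lb.r r658 (@Lb.g g7 (@Lb.g g5 (@Lb.d (nat_lit 8) (nat_lit 133) (nat_lit 64) (@Lb.fp (nat_lit 3) t4253))))))))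
noncomputable def l21333 : Lb := (@Lb.d (nat_lit 128) (nat_lit 512) (nat_lit 138) (@Lb.r r323 (@Lb.r r658 (@Lb.r r101 (@Lb.g g7 (@Lb.g g4 (@Lb.d (nat_lit 1) (nat_lit 0) (nat_lit 64) (@Lb.fm (nat_lit 3) t720))))))))
noncomputable def l21334 : Lb := (@Lb.d (nat_lit 32) (nat_lit 264) (nat_lit 128) (@Lb.g g10 (@Lb.g g11 (@Lb.r r360 (@Lb.r r2567 (@Lb.r r1633 (@Lb.r r338 (@Lb.d (nat_lit 640) (nat_lit 22) (nat_lit 326) (@Lb.fp (nat_lit 3) t322)))))))))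
noncomputable def l21335 : Lb := (@Lb.d (nat_lit 660) (nat_lit 134) (nat_lit 548) (@Lb.r r1697 (@Lb.r r2475 (@Lb.r r1352 (@Lb.r r2694 (@Lb.g g7 (@Lb.g g6 (@Lb.g g5 (@Lb.d (nat_lit 4) (nat_lit 18) (nat_lit 65) (@Lb.t (@Lb.fm (nat_lit 9) t3009)))))))))))
noncomputable def l21336 : Lb := (@Lb.d (nat_lit 362) (nat_lit 422) (nat_lit 34) (@Lb.r r1429 (@Lb.r r2728 (@Lb.r r1635 (@Lb.g g10 (@Lb.g g5 (@Lb.d (nat_lit 32) (nat_lit 4) (nat_lit 18) (@Lb.r r403 (@Lb.fp (nat_lit 3) t4254)))))))))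
noncomputable def l21337 : Lb := (@Lb.d (nat_lit 128) (nat_lit 256) (nat_lit 393) (@Lb.g g10 (@Lb.g g7 (@Lb.r r2438 (@Lb.d (nat_lit 100) (nat_lit 1) (nat_lit 537) (@Lb.fm (nat_lit 3) t469))))))
noncomputable def l21338 : Lb := (@Lb.d (nat_lit 148) (nat_lit 512) (nat_lit 64) (@Lb.g g8 (@Lb.g g9 (@Lb.g g10 (@Lb.g g11 (@Lb.r r427 (@Lb.r r1686 (@Lb.r r409 (@Lb.r r388 (@Lb.d (nat_lit 105) (nat_lit 73) (nat_lit 137) (@Lb.fm (nat_lit 9) t4185)))))))))))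
noncomputable def l21339 : Lb := (@Lb.d (nat_lit 4) (nat_lit 512) (nat_lit 73) (@Lb.g g8 (@Lb.g g9 (@Lb.g g10 (@Lb.g g11 (@Lb.r r2666 (@Lb.r r579 (@Lb.r r104 (@Lb.r r25 (@Lb.d (nat_lit 402) (nat_lit 85) (nat_lit 593) (@Lb.fp (nat_lit 9) t492)))))))))))
noncomputable def l21340 : Lb := (@Lb.d (nat_lit 128) (nat_lit 0) (nat_lit 393) (@Lb.g g10 (@Lb.g g7 (@Lb.r r2438 (@Lb.d (nat_lit 101) (nat_lit 1) (nat_lit 537) (@Lb.fm (nat_lit 3) t469))))))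
noncomputable def l21341 : Lb := (@Lb.d (nat_lit 2) (nat_lit 0) (nat_lit 9) (@Lb.g g8 (@Lb.g g10 (@Lb.g g11 (@Lb.r r642 (@Lb.r r1685 (@Lb.r r1683 (@Lb.r r2564 (@Lb.d (nat_lit 128) (nat_lit 8) (nat_lit 666) (@Lb.t (@Lb.fm (nat_lit 9) t3291)))))))))))
noncomputable def l21342 : Lb := (@Lb.d (nat_lit 146) (nat_lit 10) (nat_lit 72) (@Lb.g g8 (@Lb.g g9 (@Lb.g g10 (@Lb.g g11 (@Lb.r r2731 (@Lb.r r1700 (@Lb.r r166 (@Lb.r r2201 (@Lb.d (nat_lit 282) (nat_lit 72) (nat_lit 681) (@Lb.fp (nat_lit 9) t4255)))))))))))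
noncomputable def l21343 : Lb := (@Lb.d (nat_lit 0) (nat_lit 2) (nat_lit 130) (@Lb.g g8 (@Lb.g g9 (@Lb.g g10 (@Lb.g g11 (@Lb.r r427 (@Lb.r r386 (@Lb.r r97 (@Lb.r r1432 (@Lb.d (nat_lit 154) (nat_lit 85) (nat_lit 150) (@Lb.fm (nat_lit 9) t2161)))))))))))
noncomputable def l21344 : Lb := (@Lb.d (nat_lit 4) (nat_lit 256) (nat_lit 73) (@Lb.g g8 (@Lb.g g9 (@Lb.g g10 (@Lb.g g11 (@Lb.r r420 (@Lb.r r603 (@Lb.r r1433 (@Lb.r r1114 (@Lb.r r2068 (@Lb.d (nat_lit 536) (nat_lit 70) (nat_lit 146) (@Lb.fm (nat_lit 9) t787))))))))))))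
noncomputable def l21345 : Lb := (@Lb.r r2331 (@Lb.r r101 (@Lb.d (nat_lit 256) (nat_lit 16) (nat_lit 296) (@Lb.fm (nat_lit 1) t4062))))
noncomputable def l21346 : Lb := (@Lb.d (nat_lit 2) (nat_lit 1) (nat_lit 128) (@Lb.g g8 (@Lb.g g9 (@Lb.g g11 (@Lb.r r1287 (@Lb.r r2713 (@Lb.r r2714 (@Lb.r r2564 (@Lb.d (nat_lit 400) (nat_lit 0) (nat_lit 386) (@Lb.t (@Lb.fp (nat_lit 9) t1069)))))))))))
noncomputable def l21347 : Lb := (@Lb.r r82 (@Lb.d (nat_lit 2) (nat_lit 514) (nat_lit 8) (@Lb.g g8 (@Lb.g g9 (@Lb.g g11 (@Lb.r r2665 (@Lb.r r2198 (@Lb.r r1380 (@Lb.r r395 (@Lb.d (nat_lit 386) (nat_lit 162) (nat_lit 361) (@Lb.t (@Lb.fm (nat_lit 9) t2095))))))))))))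
noncomputable def l21348 : Lb := (@Lb.d (nat_lit 290) (nat_lit 1) (nat_lit 82) (@Lb.r r134 (@Lb.r r328 (@Lb.r r407 (@Lb.g g5 (@Lb.g g4 (@Lb.d (nat_lit 1) (nat_lit 33) (nat_lit 0) (@Lb.fm (nat_lit 3) t744))))))))
noncomputable def l21349 : Lb := (@Lb.d (nat_lit 10) (nat_lit 594) (nat_lit 64) (@Lb.r r289 (@Lb.r r2567 (@Lb.r r1368 (@Lb.r r2198 (@Lb.g g6 (@Lb.g g5 (@Lb.d (nat_lit 0) (nat_lit 5) (nat_lit 0) (@Lb.r r387 (@Lb.fm (nat_lit 3) t902))))))))))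
noncomputable def l21350 : Lb := (@Lb.d (nat_lit 9) (nat_lit 258) (nat_lit 130) (@Lb.g g8 (@Lb.g g9 (@Lb.g g10 (@Lb.g g11 (@Lb.r r2715 (@Lb.r r161 (@Lb.r r98 (@Lb.r r2648 (@Lb.d (nat_lit 617) (nat_lit 38) (nat_lit 424) (@Lb.fm (nat_lit 9) t636)))))))))))
noncomputable def l21351 : Lb := (@Lb.d (nat_lit 137) (nat_lit 16) (nat_lit 64) (@Lb.r r101 (@Lb.r r402 (@Lb.g g11 (@Lb.g g6 (@Lb.d (nat_lit 0) (nat_lit 0) (nat_lit 5) (@Lb.fp (nat_lit 3) t546)))))))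
noncomputable def l21352 : Lb := (@Lb.d (nat_lit 101) (nat_lit 134) (nat_lit 594) (@Lb.r r2661 (@Lb.r r1304 (@Lb.r r2659 (@Lb.g g7 (@Lb.g g10 (@Lb.g g5 (@Lb.d (nat_lit 36) (nat_lit 6) (nat_lit 9) (@Lb.t (@Lb.fp (nat_lit 9) t2340))))))))))
noncomputable def l21353 : Lb := (@Lb.r r101 (@Lb.r r402 (@Lb.r r2631 (@Lb.d (nat_lit 66) (nat_lit 0) (nat_lit 0) (@Lb.fm (nat_lit 1) t4256)))))
noncomputable def l21354 : Lb := (@Lb.d (nat_lit 136) (nat_lit 0) (nat_lit 384) (@Lb.g g8 (@Lb.g g11 (@Lb.r r661 (@Lb.r r2404 (@Lb.d (nat_lit 602) (nat_lit 41) (nat_lit 388) (@Lb.fm (nat_lit 3) t1034)))))))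
noncomputable def l21355 : Lb := (@Lb.r r322 (@Lb.d (nat_lit 32) (nat_lit 258) (nat_lit 576) (@Lb.g g8 (@Lb.g g9 (@Lb.g g7 (@Lb.r r361 (@Lb.r r150 (@Lb.r r1364 (@Lb.d (nat_lit 337) (nat_lit 166) (nat_lit 593) (@Lb.t (@Lb.fp (nat_lit 9) t1115)))))))))))
noncomputable def l21356 : Lb := (@Lb.g g10 (@Lb.g g7 (@Lb.r r402 (@Lb.r r2145 (@Lb.r r36 (@Lb.d (nat_lit 5) (nat_lit 128) (nat_lit 512) (@Lb.fp (nat_lit 3) t940)))))))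
noncomputable def l21357 : Lb := (@Lb.d (nat_lit 2) (nat_lit 258) (nat_lit 72) (@Lb.g g8 (@Lb.g g9 (@Lb.g g10 (@Lb.g g11 (@Lb.r r1559 (@Lb.r r1370 (@Lb.r r2457 (@Lb.r r2436 (@Lb.d (nat_lit 400) (nat_lit 2) (nat_lit 394) (@Lb.fm (nat_lit 9) t2103)))))))))))
noncomputable def l21358 : Lb := (@Lb.r r326 (@Lb.d (nat_lit 34) (nat_lit 514) (nat_lit 512) (@Lb.g g8 (@Lb.g g9 (@Lb.g g7 (@Lb.r r1129 (@Lb.r r2454 (@Lb.r r596 (@Lb.d (nat_lit 148) (nat_lit 129) (nat_lit 132) (@Lb.t (@Lb.fp (nat_lit 9) t4257)))))))))))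
noncomputable def l21359 : Lb := (@Lb.d (nat_lit 144) (nat_lit 514) (nat_lit 4) (@Lb.g g8 (@Lb.g g9 (@Lb.g g10 (@Lb.g g11 (@Lb.r r582 (@Lb.r r1627 (@Lb.r r2201 (@Lb.r r2180 (@Lb.d (nat_lit 536) (nat_lit 24) (nat_lit 137) (@Lb.fm (nat_lit 9) t1643)))))))))))
noncomputable def l21360 : Lb := (@Lb.r r21 (@Lb.d (nat_lit 658) (nat_lit 520) (nat_lit 64) (@Lb.g g4 (@Lb.g g10 (@Lb.g g11 (@Lb.r r345 (@Lb.r r2667 (@Lb.r r2374 (@Lb.d (nat_lit 97) (nat_lit 70) (nat_lit 660) (@Lb.t (@Lb.fm (nat_lit 9) t789)))))))))))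
noncomputable def l21361 : Lb := (@Lb.d (nat_lit 0) (nat_lit 265) (nat_lit 72) (@Lb.g g8 (@Lb.g g9 (@Lb.g g10 (@Lb.g g11 (@Lb.r r1706 (@Lb.r r676 (@Lb.r r551 (@Lb.r r1577 (@Lb.r r2068 (@Lb.d (nat_lit 330) (nat_lit 32) (nat_lit 384) (@Lb.fm (nat_lit 9) t144))))))))))))
noncomputable def l21362 : Lb := (@Lb.d (nat_lit 0) (nat_lit 256) (nat_lit 133) (@Lb.g g10 (@Lb.g g11 (@Lb.r r1347 (@Lb.r r1378 (@Lb.r r2145 (@Lb.r r36 (@Lb.d (nat_lit 5) (nat_lit 16) (nat_lit 576) (@Lb.fp (nat_lit 3) t940)))))))))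
noncomputable def l21363 : Lb := (@Lb.d (nat_lit 0) (nat_lit 0) (nat_lit 128) (@Lb.g g8 (@Lb.g g10 (@Lb.g g11 (@Lb.r r387 (@Lb.d (nat_lit 608) (nat_lit 0) (nat_lit 594) (@Lb.t (@Lb.fm (nat_lit 9) t698))))))))
noncomputable def l21364 : Lb := (@Lb.d (nat_lit 144) (nat_lit 258) (nat_lit 4) (@Lb.g g8 (@Lb.g g9 (@Lb.g g10 (@Lb.g g11 (@Lb.r r582 (@Lb.r r1627 (@Lb.r r2201 (@Lb.r r2180 (@Lb.d (nat_lit 529) (nat_lit 25) (nat_lit 137) (@Lb.fm (nat_lit 9) t1643)))))))))))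
noncomputable def l21365 : Lb := (@Lb.r r331 (@Lb.d (nat_lit 2) (nat_lit 2) (nat_lit 2) (@Lb.g g8 (@Lb.g g9 (@Lb.g g10 (@Lb.r r1378 (@Lb.r r1419 (@Lb.r r97 (@Lb.r r408 (@Lb.d (nat_lit 148) (nat_lit 37) (nat_lit 393) (@Lb.t (@Lb.fm (nat_lit 9) t50))))))))))))
noncomputable def l21366 : Lb := (@Lb.d (nat_lit 1) (nat_lit 612) (nat_lit 417) (@Lb.r r1442 (@Lb.r r1425 (@Lb.r r1635 (@Lb.g g10 (@Lb.r r1156 (@Lb.t (@Lb.fp (nat_lit 3) t1561))))))))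
noncomputable def l21367 : Lb := (@Lb.d (nat_lit 128) (nat_lit 288) (nat_lit 128) (@Lb.g g7 (@Lb.r r680 (@Lb.r r2666 (@Lb.r r2649 (@Lb.r r1691 (@Lb.d (nat_lit 426) (nat_lit 34) (nat_lit 648) (@Lb.t (@Lb.fm (nat_lit 3) t654)))))))))
noncomputable def l21368 : Lb := (@Lb.r r323 (@Lb.d (nat_lit 5) (nat_lit 266) (nat_lit 2) (@Lb.g g4 (@Lb.g g9 (@Lb.g g10 (@Lb.r r679 (@Lb.r r2182 (@Lb.r r1553 (@Lb.d (nat_lit 360) (nat_lit 166) (nat_lit 656) (@Lb.t (@Lb.fp (nat_lit 9) t50)))))))))))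
noncomputable def l21369 : Lb := (@Lb.d (nat_lit 137) (nat_lit 274) (nat_lit 321) (@Lb.r r532 (@Lb.r r97 (@Lb.g g11 (@Lb.g g6 (@Lb.g g4 (@Lb.d (nat_lit 80) (nat_lit 4) (nat_lit 513) (@Lb.r r25 (@Lb.t (@Lb.fp (nat_lit 9) t4258))))))))))
noncomputable def l21370 : Lb := (@Lb.d (nat_lit 5) (nat_lit 10) (nat_lit 1) (@Lb.g g4 (@Lb.g g9 (@Lb.g g10 (@Lb.g g11 (@Lb.r r679 (@Lb.r r657 (@Lb.r r146 (@Lb.d (nat_lit 66) (nat_lit 5) (nat_lit 136) (@Lb.fm (nat_lit 9) t522))))))))))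
noncomputable def l21371 : Lb := (@Lb.r r82 (@Lb.d (nat_lit 6) (nat_lit 256) (nat_lit 0) (@Lb.g g8 (@Lb.g g9 (@Lb.g g11 (@Lb.r r555 (@Lb.r r386 (@Lb.r r548 (@Lb.r r613 (@Lb.d (nat_lit 10) (nat_lit 137) (nat_lit 258) (@Lb.t (@Lb.fp (nat_lit 9) t152))))))))))))
noncomputable def l21372 : Lb := (@Lb.r r82 (@Lb.d (nat_lit 4) (nat_lit 256) (nat_lit 136) (@Lb.g g8 (@Lb.g g9 (@Lb.g g11 (@Lb.r r2665 (@Lb.r r2198 (@Lb.r r1380 (@Lb.r r395 (@Lb.d (nat_lit 385) (nat_lit 164) (nat_lit 416) (@Lb.t (@Lb.fm (nat_lit 9) t4259))))))))))))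
noncomputable def l21373 : Lb := (@Lb.d (nat_lit 6) (nat_lit 512) (nat_lit 130) (@Lb.g g8 (@Lb.g g9 (@Lb.g g10 (@Lb.g g11 (@Lb.r r427 (@Lb.r r386 (@Lb.r r104 (@Lb.r r2649 (@Lb.d (nat_lit 98) (nat_lit 162) (nat_lit 548) (@Lb.fp (nat_lit 9) t3292)))))))))))
noncomputable def l21374 : Lb := (@Lb.d (nat_lit 2) (nat_lit 256) (nat_lit 130) (@Lb.g g8 (@Lb.g g9 (@Lb.g g10 (@Lb.g g11 (@Lb.r r1451 (@Lb.r r409 (@Lb.r r2138 (@Lb.r r1169 (@Lb.d (nat_lit 518) (nat_lit 8) (nat_lit 18) (@Lb.fp (nat_lit 9) t221)))))))))))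
noncomputable def l21375 : Lb := (@Lb.d (nat_lit 145) (nat_lit 258) (nat_lit 74) (@Lb.g g8 (@Lb.g g9 (@Lb.g g10 (@Lb.g g11 (@Lb.r r84 (@Lb.r r682 (@Lb.r r1411 (@Lb.r r1177 (@Lb.r r1156 (@Lb.d (nat_lit 264) (nat_lit 153) (nat_lit 517) (@Lb.fm (nat_lit 9) t4260))))))))))))
noncomputable def l21376 : Lb := (@Lb.d (nat_lit 256) (nat_lit 517) (nat_lit 168) (@Lb.r r2663 (@Lb.r r1300 (@Lb.r r402 (@Lb.r r2665 (@Lb.g g4 (@Lb.d (nat_lit 1) (nat_lit 0) (nat_lit 0) (@Lb.t (@Lb.fp (nat_lit 3) t1031)))))))))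
noncomputable def l21377 : Lb := (@Lb.d (nat_lit 33) (nat_lit 260) (nat_lit 2) (@Lb.g g8 (@Lb.g g9 (@Lb.g g10 (@Lb.r r2729 (@Lb.r r1634 (@Lb.r r615 (@Lb.r r388 (@Lb.d (nat_lit 137) (nat_lit 128) (nat_lit 680) (@Lb.t (@Lb.fm (nat_lit 9) t4261)))))))))))
noncomputable def l21378 : Lb := (@Lb.d (nat_lit 389) (nat_lit 513) (nat_lit 321) (@Lb.r r2084 (@Lb.r r1445 (@Lb.r r599 (@Lb.r r424 (@Lb.g g7 (@Lb.g g6 (@Lb.g g5 (@Lb.g g4 (@Lb.d (nat_lit 0) (nat_lit 1) (nat_lit 98) (@Lb.fm (nat_lit 9) t2959)))))))))))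
noncomputable def l21379 : Lb := (@Lb.r r21 (@Lb.r r70 (@Lb.d (nat_lit 10) (nat_lit 0) (nat_lit 0) (@Lb.g g8 (@Lb.r r1705 (@Lb.r r2470 (@Lb.r r1355 (@Lb.r r1348 (@Lb.d (nat_lit 409) (nat_lit 4) (nat_lit 642) (@Lb.t (@Lb.fp (nat_lit 3) t892)))))))))))
noncomputable def l21380 : Lb := (@Lb.d (nat_lit 2) (nat_lit 2) (nat_lit 74) (@Lb.g g8 (@Lb.g g9 (@Lb.g g10 (@Lb.g g11 (@Lb.r r2312 (@Lb.r r1447 (@Lb.r r1425 (@Lb.r r2450 (@Lb.d (nat_lit 10) (nat_lit 88) (nat_lit 265) (@Lb.fp (nat_lit 9) t2131)))))))))))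
noncomputable def l21381 : Lb := (@Lb.d (nat_lit 389) (nat_lit 273) (nat_lit 9) (@Lb.r r539 (@Lb.r r532 (@Lb.r r1369 (@Lb.g g7 (@Lb.g g6 (@Lb.g g5 (@Lb.d (nat_lit 64) (nat_lit 0) (nat_lit 98) (@Lb.t (@Lb.fm (nat_lit 9) t917))))))))))
noncomputable def l21382 : Lb := (@Lb.d (nat_lit 336) (nat_lit 644) (nat_lit 662) (@Lb.r r2438 (@Lb.r r347 (@Lb.r r677 (@Lb.g g7 (@Lb.g g6 (@Lb.g g5 (@Lb.g g8 (@Lb.d (nat_lit 322) (nat_lit 1) (nat_lit 65) (@Lb.fm (nat_lit 9) t2175))))))))))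
noncomputable def l21383 : Lb := (@Lb.r r82 (@Lb.d (nat_lit 133) (nat_lit 10) (nat_lit 128) (@Lb.g g8 (@Lb.g g5 (@Lb.g g11 (@Lb.r r2406 (@Lb.r r1691 (@Lb.r r644 (@Lb.d (nat_lit 152) (nat_lit 85) (nat_lit 22) (@Lb.t (@Lb.fm (nat_lit 9) t4262)))))))))))
noncomputable def l21384 : Lb := (@Lb.d (nat_lit 616) (nat_lit 550) (nat_lit 84) (@Lb.r r404 (@Lb.r r363 (@Lb.r r273 (@Lb.g g7 (@Lb.g g10 (@Lb.g g5 (@Lb.g g4 (@Lb.d (nat_lit 25) (nat_lit 0) (nat_lit 66) (@Lb.fm (nat_lit 9) t414))))))))))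
noncomputable def l21385 : Lb := (@Lb.d (nat_lit 18) (nat_lit 10) (nat_lit 130) (@Lb.g g8 (@Lb.g g9 (@Lb.g g10 (@Lb.g g11 (@Lb.r r532 (@Lb.r r1319 (@Lb.r r357 (@Lb.r r666 (@Lb.r r2692 (@Lb.d (nat_lit 521) (nat_lit 70) (nat_lit 426) (@Lb.fp (nat_lit 9) t917))))))))))))
noncomputable def l21386 : Lb := (@Lb.d (nat_lit 680) (nat_lit 534) (nat_lit 356) (@Lb.r r1624 (@Lb.r r1627 (@Lb.r r273 (@Lb.g g7 (@Lb.g g10 (@Lb.g g4 (@Lb.d (nat_lit 18) (nat_lit 0) (nat_lit 66) (@Lb.r r25 (@Lb.t (@Lb.fm (nat_lit 9) t240)))))))))))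
noncomputable def l21387 : Lb := (@Lb.r r2130 (@Lb.r r2323 (@Lb.g g4 (@Lb.g g9 (@Lb.r r2081 (@Lb.r r36 (@Lb.p (nat_lit 2) (@Lb.fm (nat_lit 3) t125))))))))
noncomputable def l21388 : Lb := (@Lb.d (nat_lit 129) (nat_lit 9) (nat_lit 6) (@Lb.g g8 (@Lb.g g9 (@Lb.g g10 (@Lb.g g11 (@Lb.r r683 (@Lb.r r676 (@Lb.r r1190 (@Lb.r r2197 (@Lb.r r2084 (@Lb.d (nat_lit 289) (nat_lit 130) (nat_lit 409) (@Lb.fp (nat_lit 9) t4263))))))))))))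
noncomputable def l21389 : Lb := (@Lb.d (nat_lit 262) (nat_lit 596) (nat_lit 321) (@Lb.r r2321 (@Lb.r r1635 (@Lb.r r406 (@Lb.g g7 (@Lb.g g5 (@Lb.g g4 (@Lb.d (nat_lit 257) (nat_lit 5) (nat_lit 64) (@Lb.r r74 (@Lb.t (@Lb.fp (nat_lit 9) t4264)))))))))))
noncomputable def l21390 : Lb := (@Lb.d (nat_lit 38) (nat_lit 261) (nat_lit 130) (@Lb.g g8 (@Lb.g g9 (@Lb.g g6 (@Lb.g g11 (@Lb.r r1643 (@Lb.r r97 (@Lb.r r1560 (@Lb.d (nat_lit 73) (nat_lit 105) (nat_lit 640) (@Lb.fp (nat_lit 9) t2179))))))))))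
noncomputable def l21391 : Lb := (@Lb.d (nat_lit 4) (nat_lit 0) (nat_lit 130) (@Lb.g g8 (@Lb.g g9 (@Lb.g g10 (@Lb.g g11 (@Lb.r r162 (@Lb.r r552 (@Lb.r r665 (@Lb.r r539 (@Lb.r r516 (@Lb.d (nat_lit 10) (nat_lit 73) (nat_lit 73) (@Lb.fm (nat_lit 9) t384))))))))))))
noncomputable def l21392 : Lb := (@Lb.d (nat_lit 24) (nat_lit 265) (nat_lit 6) (@Lb.g g9 (@Lb.g g6 (@Lb.g g11 (@Lb.r r2659 (@Lb.r r1304 (@Lb.r r2661 (@Lb.d (nat_lit 154) (nat_lit 73) (nat_lit 417) (@Lb.t (@Lb.fm (nat_lit 9) t629))))))))))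
noncomputable def l21393 : Lb := (@Lb.g g10 (@Lb.r r354 (@Lb.r r1427 (@Lb.r r101 (@Lb.d (nat_lit 401) (nat_lit 410) (nat_lit 32) (@Lb.t (@Lb.fm (nat_lit 3) t2216)))))))
noncomputable def l21394 : Lb := (@Lb.d (nat_lit 9) (nat_lit 392) (nat_lit 4) (@Lb.g g8 (@Lb.g g5 (@Lb.g g10 (@Lb.g g11 (@Lb.r r532 (@Lb.r r2311 (@Lb.r r1690 (@Lb.r r1540 (@Lb.d (nat_lit 26) (nat_lit 169) (nat_lit 672) (@Lb.fp (nat_lit 9) t1038)))))))))))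
noncomputable def l21395 : Lb := (@Lb.d (nat_lit 0) (nat_lit 288) (nat_lit 580) (@Lb.g g7 (@Lb.r r24 (@Lb.d (nat_lit 5) (nat_lit 26) (nat_lit 320) (@Lb.t (@Lb.fp (nat_lit 3) t944))))))
noncomputable def l21396 : Lb := (@Lb.d (nat_lit 2) (nat_lit 10) (nat_lit 6) (@Lb.g g8 (@Lb.g g9 (@Lb.g g10 (@Lb.g g11 (@Lb.r r532 (@Lb.r r295 (@Lb.r r357 (@Lb.r r666 (@Lb.r r644 (@Lb.d (nat_lit 10) (nat_lit 1) (nat_lit 137) (@Lb.fp (nat_lit 9) t5))))))))))))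
noncomputable def l21397 : Lb := (@Lb.d (nat_lit 100) (nat_lit 22) (nat_lit 73) (@Lb.g g8 (@Lb.g g9 (@Lb.g g10 (@Lb.g g11 (@Lb.r r2659 (@Lb.r r36 (@Lb.r r661 (@Lb.r r2084 (@Lb.d (nat_lit 129) (nat_lit 42) (nat_lit 344) (@Lb.fm (nat_lit 9) t2394)))))))))))
noncomputable def l21398 : Lb := (@Lb.r r277 (@Lb.d (nat_lit 517) (nat_lit 256) (nat_lit 66) (@Lb.g g8 (@Lb.g g10 (@Lb.g g11 (@Lb.r r594 (@Lb.r r409 (@Lb.r r1319 (@Lb.d (nat_lit 678) (nat_lit 161) (nat_lit 586) (@Lb.t (@Lb.fm (nat_lit 9) t163)))))))))))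
noncomputable def l21399 : Lb := (@Lb.d (nat_lit 2) (nat_lit 512) (nat_lit 0) (@Lb.g g8 (@Lb.r r273 (@Lb.r r2595 (@Lb.r r2178 (@Lb.r r529 (@Lb.d (nat_lit 322) (nat_lit 0) (nat_lit 512) (@Lb.t (@Lb.fp (nat_lit 3) t322)))))))))
noncomputable def l21400 : Lb := (@Lb.r r21 (@Lb.d (nat_lit 2) (nat_lit 0) (nat_lit 66) (@Lb.g g8 (@Lb.g g10 (@Lb.g g11 (@Lb.r r1671 (@Lb.r r386 (@Lb.r r145 (@Lb.r r72 (@Lb.d (nat_lit 97) (nat_lit 5) (nat_lit 666) (@Lb.t (@Lb.fp (nat_lit 9) t61))))))))))))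
noncomputable def l21401 : Lb := (@Lb.d (nat_lit 10) (nat_lit 0) (nat_lit 64) (@Lb.g g8 (@Lb.g g10 (@Lb.g g7 (@Lb.r r402 (@Lb.r r149 (@Lb.r r168 (@Lb.d (nat_lit 290) (nat_lit 5) (nat_lit 512) (@Lb.t (@Lb.fp (nat_lit 9) t145))))))))))
noncomputable def l21402 : Lb := (@Lb.d (nat_lit 128) (nat_lit 8) (nat_lit 130) (@Lb.g g10 (@Lb.g g11 (@Lb.r r264 (@Lb.r r519 (@Lb.r r101 (@Lb.r r154 (@Lb.d (nat_lit 392) (nat_lit 9) (nat_lit 38) (@Lb.fm (nat_lit 3) t127)))))))))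
noncomputable def l21403 : Lb := (@Lb.d (nat_lit 0) (nat_lit 0) (nat_lit 130) (@Lb.g g10 (@Lb.g g11 (@Lb.r r419 (@Lb.r r386 (@Lb.d (nat_lit 0) (nat_lit 105) (nat_lit 152) (@Lb.fp (nat_lit 3) t305)))))))
noncomputable def l21404 : Lb := (@Lb.d (nat_lit 128) (nat_lit 0) (nat_lit 128) (@Lb.g g10 (@Lb.g g11 (@Lb.r r264 (@Lb.r r519 (@Lb.r r101 (@Lb.r r154 (@Lb.d (nat_lit 385) (nat_lit 0) (nat_lit 37) (@Lb.fm (nat_lit 3) t743)))))))))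
noncomputable def l21405 : Lb := (@Lb.d (nat_lit 0) (nat_lit 512) (nat_lit 5) (@Lb.g g10 (@Lb.g g11 (@Lb.r r387 (@Lb.r r1682 (@Lb.d (nat_lit 0) (nat_lit 37) (nat_lit 549) (@Lb.fp (nat_lit 3) t334)))))))
noncomputable def l21406 : Lb := (@Lb.d (nat_lit 0) (nat_lit 0) (nat_lit 4) (@Lb.g g10 (@Lb.g g11 (@Lb.r r642 (@Lb.r r387 (@Lb.d (nat_lit 0) (nat_lit 5) (nat_lit 2) (@Lb.fp (nat_lit 3) t45)))))))
noncomputable def l21407 : Lb := (@Lb.d (nat_lit 2) (nat_lit 514) (nat_lit 2) (@Lb.g g8 (@Lb.g g9 (@Lb.g g10 (@Lb.g g11 (@Lb.r r1689 (@Lb.r r2579 (@Lb.r r386 (@Lb.d (nat_lit 289) (nat_lit 0) (nat_lit 100) (@Lb.fp (nat_lit 9) t791))))))))))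
noncomputable def l21408 : Lb := (@Lb.d (nat_lit 6) (nat_lit 512) (nat_lit 2) (@Lb.g g8 (@Lb.g g9 (@Lb.g g10 (@Lb.g g11 (@Lb.r r683 (@Lb.r r616 (@Lb.r r86 (@Lb.r r2213 (@Lb.r r2068 (@Lb.d (nat_lit 292) (nat_lit 1) (nat_lit 169) (@Lb.fm (nat_lit 9) t284))))))))))))
noncomputable def l21409 : Lb := (@Lb.d (nat_lit 546) (nat_lit 512) (nat_lit 82) (@Lb.r r24 (@Lb.r r101 (@Lb.r r402 (@Lb.r r579 (@Lb.g g6 (@Lb.t (@Lb.fm (nat_lit 3) t758))))))))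
noncomputable def l21410 : Lb := (@Lb.d (nat_lit 2) (nat_lit 514) (nat_lit 2) (@Lb.g g8 (@Lb.g g9 (@Lb.g g10 (@Lb.g g11 (@Lb.r r292 (@Lb.r r539 (@Lb.r r405 (@Lb.r r86 (@Lb.r r164 (@Lb.d (nat_lit 2) (nat_lit 0) (nat_lit 90) (@Lb.fm (nat_lit 9) t2))))))))))))
noncomputable def l21411 : Lb := (@Lb.r r82 (@Lb.d (nat_lit 2) (nat_lit 545) (nat_lit 64) (@Lb.g g8 (@Lb.g g9 (@Lb.g g11 (@Lb.r r548 (@Lb.r r1639 (@Lb.r r386 (@Lb.r r1361 (@Lb.d (nat_lit 148) (nat_lit 72) (nat_lit 617) (@Lb.t (@Lb.fm (nat_lit 9) t2656))))))))))))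
noncomputable def l21412 : Lb := (@Lb.d (nat_lit 293) (nat_lit 264) (nat_lit 513) (@Lb.r r21 (@Lb.r r1124 (@Lb.r r1434 (@Lb.g g11 (@Lb.g g6 (@Lb.g g4 (@Lb.d (nat_lit 97) (nat_lit 0) (nat_lit 512) (@Lb.r r25 (@Lb.t (@Lb.fp (nat_lit 9) t4265)))))))))))
noncomputable def l21413 : Lb := (@Lb.r r275 (@Lb.d (nat_lit 130) (nat_lit 256) (nat_lit 42) (@Lb.g g8 (@Lb.g g9 (@Lb.g g10 (@Lb.r r2647 (@Lb.r r2345 (@Lb.r r292 (@Lb.d (nat_lit 329) (nat_lit 34) (nat_lit 20) (@Lb.t (@Lb.fm (nat_lit 9) t1916)))))))))))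
noncomputable def l21414 : Lb := (@Lb.d (nat_lit 38) (nat_lit 5) (nat_lit 130) (@Lb.g g8 (@Lb.g g9 (@Lb.g g6 (@Lb.g g11 (@Lb.r r612 (@Lb.r r263 (@Lb.r r97 (@Lb.r r516 (@Lb.d (nat_lit 2) (nat_lit 41) (nat_lit 128) (@Lb.fp (nat_lit 9) t546)))))))))))
noncomputable def l21415 : Lb := (@Lb.d (nat_lit 38) (nat_lit 256) (nat_lit 129) (@Lb.g g8 (@Lb.g g9 (@Lb.g g6 (@Lb.g g11 (@Lb.r r612 (@Lb.r r263 (@Lb.r r97 (@Lb.r r516 (@Lb.d (nat_lit 2) (nat_lit 41) (nat_lit 128) (@Lb.fp (nat_lit 9) t622)))))))))))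
noncomputable def l21416 : Lb := (@Lb.d (nat_lit 37) (nat_lit 262) (nat_lit 136) (@Lb.r r101 (@Lb.r r24 (@Lb.r r323 (@Lb.g g7 (@Lb.g g6 (@Lb.d (nat_lit 0) (nat_lit 4) (nat_lit 65) (@Lb.fm (nat_lit 3) t985))))))))
noncomputable def l21417 : Lb := (@Lb.d (nat_lit 512) (nat_lit 129) (nat_lit 18) (@Lb.r r101 (@Lb.r r1319 (@Lb.g g4 (@Lb.d (nat_lit 1) (nat_lit 0) (nat_lit 0) (@Lb.t (@Lb.fp (nat_lit 3) t779)))))))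
noncomputable def l21418 : Lb := (@Lb.d (nat_lit 6) (nat_lit 33) (nat_lit 0) (@Lb.g g8 (@Lb.g g9 (@Lb.r r1675 (@Lb.r r2178 (@Lb.r r164 (@Lb.r r1301 (@Lb.d (nat_lit 598) (nat_lit 37) (nat_lit 681) (@Lb.fm (nat_lit 3) t4266)))))))))
noncomputable def l21419 : Lb := (@Lb.d (nat_lit 129) (nat_lit 389) (nat_lit 257) (@Lb.r r1633 (@Lb.r r363 (@Lb.r r1686 (@Lb.r r2376 (@Lb.g g7 (@Lb.g g4 (@Lb.d (nat_lit 65) (nat_lit 0) (nat_lit 64) (@Lb.fp (nat_lit 3) t4267)))))))))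
noncomputable def l21420 : Lb := (@Lb.r r2341 (@Lb.r r1624 (@Lb.d (nat_lit 17) (nat_lit 0) (nat_lit 401) (@Lb.fp (nat_lit 1) t4268))))
noncomputable def l21421 : Lb := (@Lb.d (nat_lit 2) (nat_lit 514) (nat_lit 66) (@Lb.g g8 (@Lb.g g9 (@Lb.g g10 (@Lb.g g11 (@Lb.r r2375 (@Lb.r r536 (@Lb.r r2197 (@Lb.r r2646 (@Lb.r r164 (@Lb.d (nat_lit 393) (nat_lit 64) (nat_lit 362) (@Lb.fm (nat_lit 9) t4269))))))))))))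
noncomputable def l21422 : Lb := (@Lb.d (nat_lit 89) (nat_lit 282) (nat_lit 22) (@Lb.r r662 (@Lb.r r2401 (@Lb.r r647 (@Lb.r r328 (@Lb.g g7 (@Lb.g g6 (@Lb.d (nat_lit 16) (nat_lit 4) (nat_lit 65) (@Lb.fm (nat_lit 3) t681)))))))))
noncomputable def l21423 : Lb := (@Lb.d (nat_lit 2) (nat_lit 2) (nat_lit 66) (@Lb.g g8 (@Lb.g g9 (@Lb.g g10 (@Lb.g g11 (@Lb.r r2375 (@Lb.r r536 (@Lb.r r2197 (@Lb.r r2646 (@Lb.r r164 (@Lb.d (nat_lit 393) (nat_lit 74) (nat_lit 361) (@Lb.fm (nat_lit 9) t4270))))))))))))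
noncomputable def l21424 : Lb := (@Lb.g g8 (@Lb.r r2341 (@Lb.r r1624 (@Lb.r r2150 (@Lb.d (nat_lit 0) (nat_lit 645) (nat_lit 417) (@Lb.t (@Lb.fp (nat_lit 3) t4271)))))))
noncomputable def l21425 : Lb := (@Lb.r r355 (@Lb.d (nat_lit 4) (nat_lit 10) (nat_lit 2) (@Lb.g g8 (@Lb.g g9 (@Lb.g g10 (@Lb.r r2662 (@Lb.r r1572 (@Lb.r r1447 (@Lb.r r149 (@Lb.d (nat_lit 677) (nat_lit 169) (nat_lit 66) (@Lb.t (@Lb.fm (nat_lit 9) t1606))))))))))))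
noncomputable def l21426 : Lb := (@Lb.d (nat_lit 2) (nat_lit 256) (nat_lit 0) (@Lb.g g8 (@Lb.g g9 (@Lb.r r322 (@Lb.r r1667 (@Lb.r r578 (@Lb.r r1561 (@Lb.d (nat_lit 585) (nat_lit 2) (nat_lit 256) (@Lb.fp (nat_lit 3) t1035)))))))))
noncomputable def l21427 : Lb := (@Lb.d (nat_lit 401) (nat_lit 536) (nat_lit 512) (@Lb.r r1604 (@Lb.r r402 (@Lb.g g5 (@Lb.t (@Lb.fp (nat_lit 3) t4272))))))
noncomputable def l21428 : Lb := (@Lb.d (nat_lit 130) (nat_lit 2) (nat_lit 2) (@Lb.g g8 (@Lb.g g9 (@Lb.g g10 (@Lb.r r2691 (@Lb.r r2217 (@Lb.r r2666 (@Lb.r r104 (@Lb.d (nat_lit 676) (nat_lit 5) (nat_lit 328) (@Lb.t (@Lb.fp (nat_lit 9) t242)))))))))))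
noncomputable def l21429 : Lb := (@Lb.d (nat_lit 8) (nat_lit 554) (nat_lit 401) (@Lb.r r1169 (@Lb.r r1626 (@Lb.r r2660 (@Lb.g g5 (@Lb.d (nat_lit 4) (nat_lit 1) (nat_lit 0) (@Lb.t (@Lb.fm (nat_lit 3) t4273))))))))
noncomputable def l21430 : Lb := (@Lb.d (nat_lit 2) (nat_lit 0) (nat_lit 65) (@Lb.g g8 (@Lb.g g9 (@Lb.g g10 (@Lb.g g11 (@Lb.r r583 (@Lb.r r2154 (@Lb.r r1633 (@Lb.r r24 (@Lb.d (nat_lit 73) (nat_lit 16) (nat_lit 128) (@Lb.fm (nat_lit 9) t4274)))))))))))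
noncomputable def l21431 : Lb := (@Lb.d (nat_lit 136) (nat_lit 512) (nat_lit 384) (@Lb.g g8 (@Lb.g g11 (@Lb.r r2662 (@Lb.r r613 (@Lb.r r2452 (@Lb.d (nat_lit 614) (nat_lit 10) (nat_lit 674) (@Lb.fp (nat_lit 3) t927))))))))
noncomputable def l21432 : Lb := (@Lb.d (nat_lit 2) (nat_lit 544) (nat_lit 73) (@Lb.g g8 (@Lb.g g10 (@Lb.g g11 (@Lb.r r353 (@Lb.r r1620 (@Lb.r r1687 (@Lb.d (nat_lit 422) (nat_lit 106) (nat_lit 0) (@Lb.t (@Lb.fm (nat_lit 9) t2910))))))))))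
noncomputable def l21433 : Lb := (@Lb.d (nat_lit 0) (nat_lit 512) (nat_lit 128) (@Lb.g g11 (@Lb.t (@Lb.fp (nat_lit 3) t2))))
noncomputable def l21434 : Lb := (@Lb.r r1284 (@Lb.r r322 (@Lb.d (nat_lit 0) (nat_lit 528) (nat_lit 0) (@Lb.g g9 (@Lb.g g11 (@Lb.r r549 (@Lb.r r423 (@Lb.r r2438 (@Lb.d (nat_lit 617) (nat_lit 74) (nat_lit 545) (@Lb.fm (nat_lit 3) t4275))))))))))
noncomputable def l21435 : Lb := (@Lb.d (nat_lit 2) (nat_lit 256) (nat_lit 128) (@Lb.g g8 (@Lb.g g11 (@Lb.r r2699 (@Lb.r r2601 (@Lb.r r2724 (@Lb.r r134 (@Lb.d (nat_lit 41) (nat_lit 153) (nat_lit 297) (@Lb.fp (nat_lit 3) t2926)))))))))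
noncomputable def l21436 : Lb := (@Lb.d (nat_lit 1) (nat_lit 256) (nat_lit 128) (@Lb.g g8 (@Lb.g g11 (@Lb.r r353 (@Lb.r r667 (@Lb.r r664 (@Lb.r r154 (@Lb.d (nat_lit 24) (nat_lit 128) (nat_lit 69) (@Lb.fm (nat_lit 3) t126)))))))))
noncomputable def l21437 : Lb := (@Lb.r r1284 (@Lb.d (nat_lit 0) (nat_lit 2) (nat_lit 130) (@Lb.g g9 (@Lb.g g10 (@Lb.g g11 (@Lb.r r677 (@Lb.r r423 (@Lb.r r2438 (@Lb.d (nat_lit 73) (nat_lit 74) (nat_lit 658) (@Lb.t (@Lb.fm (nat_lit 9) t4276)))))))))))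
noncomputable def l21438 : Lb := (@Lb.r r97 (@Lb.r r1106 (@Lb.r r145 (@Lb.d (nat_lit 0) (nat_lit 256) (nat_lit 138) (@Lb.fm (nat_lit 1) t4277)))))
noncomputable def l21439 : Lb := (@Lb.r r323 (@Lb.d (nat_lit 2) (nat_lit 290) (nat_lit 2) (@Lb.g g8 (@Lb.g g9 (@Lb.g g10 (@Lb.r r599 (@Lb.r r1122 (@Lb.r r2436 (@Lb.d (nat_lit 330) (nat_lit 73) (nat_lit 514) (@Lb.t (@Lb.fp (nat_lit 9) t993)))))))))))
noncomputable def l21440 : Lb := (@Lb.d (nat_lit 2) (nat_lit 258) (nat_lit 73) (@Lb.g g8 (@Lb.g g9 (@Lb.g g10 (@Lb.g g11 (@Lb.r r427 (@Lb.r r420 (@Lb.r r102 (@Lb.r r21 (@Lb.r r36 (@Lb.d (nat_lit 521) (nat_lit 9) (nat_lit 34) (@Lb.fp (nat_lit 9) t221))))))))))))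
noncomputable def l21441 : Lb := (@Lb.d (nat_lit 0) (nat_lit 520) (nat_lit 2) (@Lb.g g10 (@Lb.g g7 (@Lb.r r101 (@Lb.r r1114 (@Lb.r r24 (@Lb.d (nat_lit 18) (nat_lit 0) (nat_lit 18) (@Lb.fp (nat_lit 3) t1261))))))))
noncomputable def l21442 : Lb := (@Lb.r r323 (@Lb.d (nat_lit 2) (nat_lit 2) (nat_lit 2) (@Lb.g g8 (@Lb.g g9 (@Lb.g g10 (@Lb.r r401 (@Lb.r r299 (@Lb.r r392 (@Lb.r r74 (@Lb.d (nat_lit 533) (nat_lit 1) (nat_lit 33) (@Lb.t (@Lb.fp (nat_lit 9) t221))))))))))))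
noncomputable def l21443 : Lb := (@Lb.r r275 (@Lb.d (nat_lit 0) (nat_lit 2) (nat_lit 2) (@Lb.g g9 (@Lb.g g10 (@Lb.r r675 (@Lb.r r161 (@Lb.r r98 (@Lb.r r24 (@Lb.d (nat_lit 1) (nat_lit 133) (nat_lit 5) (@Lb.fp (nat_lit 3) t101))))))))))
noncomputable def l21444 : Lb := (@Lb.r r275 (@Lb.d (nat_lit 0) (nat_lit 258) (nat_lit 2) (@Lb.g g8 (@Lb.g g9 (@Lb.g g10 (@Lb.r r675 (@Lb.r r2217 (@Lb.r r2154 (@Lb.r r36 (@Lb.d (nat_lit 274) (nat_lit 0) (nat_lit 21) (@Lb.t (@Lb.fm (nat_lit 9) t1033))))))))))))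
noncomputable def l21445 : Lb := (@Lb.d (nat_lit 0) (nat_lit 10) (nat_lit 0) (@Lb.g g9 (@Lb.r r674 (@Lb.r r659 (@Lb.r r357 (@Lb.r r24 (@Lb.d (nat_lit 98) (nat_lit 80) (nat_lit 390) (@Lb.t (@Lb.fp (nat_lit 3) t1866)))))))))
noncomputable def l21446 : Lb := (@Lb.d (nat_lit 33) (nat_lit 256) (nat_lit 70) (@Lb.r r154 (@Lb.r r664 (@Lb.r r667 (@Lb.r r353 (@Lb.g g7 (@Lb.g g6 (@Lb.g g4 (@Lb.d (nat_lit 2) (nat_lit 4) (nat_lit 65) (@Lb.t (@Lb.fp (nat_lit 9) t51)))))))))))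
noncomputable def l21447 : Lb := (@Lb.d (nat_lit 2) (nat_lit 521) (nat_lit 1) (@Lb.g g8 (@Lb.g g9 (@Lb.g g10 (@Lb.g g11 (@Lb.r r2729 (@Lb.r r2475 (@Lb.r r2468 (@Lb.r r2438 (@Lb.d (nat_lit 610) (nat_lit 10) (nat_lit 617) (@Lb.fp (nat_lit 9) t150)))))))))))
noncomputable def l21448 : Lb := (@Lb.d (nat_lit 153) (nat_lit 256) (nat_lit 336) (@Lb.r r1636 (@Lb.r r613 (@Lb.r r1370 (@Lb.g g7 (@Lb.g g4 (@Lb.d (nat_lit 66) (nat_lit 0) (nat_lit 576) (@Lb.fp (nat_lit 3) t3145))))))))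
noncomputable def l21449 : Lb := (@Lb.d (nat_lit 2) (nat_lit 537) (nat_lit 0) (@Lb.g g8 (@Lb.g g9 (@Lb.r r2571 (@Lb.r r2714 (@Lb.r r2564 (@Lb.d (nat_lit 132) (nat_lit 5) (nat_lit 400) (@Lb.fm (nat_lit 3) t1127))))))))
noncomputable def l21450 : Lb := (@Lb.r r323 (@Lb.d (nat_lit 130) (nat_lit 265) (nat_lit 17) (@Lb.g g8 (@Lb.g g9 (@Lb.g g6 (@Lb.r r2455 (@Lb.r r97 (@Lb.r r1556 (@Lb.d (nat_lit 385) (nat_lit 41) (nat_lit 640) (@Lb.t (@Lb.fm (nat_lit 9) t4278)))))))))))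
noncomputable def l21451 : Lb := (@Lb.d (nat_lit 144) (nat_lit 9) (nat_lit 73) (@Lb.g g8 (@Lb.g g9 (@Lb.g g10 (@Lb.g g11 (@Lb.r r1706 (@Lb.r r1411 (@Lb.r r2201 (@Lb.r r2180 (@Lb.d (nat_lit 554) (nat_lit 153) (nat_lit 100) (@Lb.fm (nat_lit 9) t3187)))))))))))
noncomputable def l21452 : Lb := (@Lb.g g7 (@Lb.r r616 (@Lb.r r2665 (@Lb.r r2390 (@Lb.r r1188 (@Lb.d (nat_lit 0) (nat_lit 256) (nat_lit 576) (@Lb.t (@Lb.fm (nat_lit 3) t322))))))))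
noncomputable def l21453 : Lb := (@Lb.d (nat_lit 2) (nat_lit 2) (nat_lit 130) (@Lb.g g8 (@Lb.g g9 (@Lb.g g10 (@Lb.g g11 (@Lb.r r2722 (@Lb.r r2089 (@Lb.r r356 (@Lb.r r2571 (@Lb.d (nat_lit 2) (nat_lit 170) (nat_lit 293) (@Lb.fm (nat_lit 9) t4279)))))))))))
noncomputable def l21454 : Lb := (@Lb.d (nat_lit 2) (nat_lit 514) (nat_lit 2) (@Lb.g g8 (@Lb.g g9 (@Lb.g g10 (@Lb.r r676 (@Lb.r r1543 (@Lb.r r386 (@Lb.r r97 (@Lb.d (nat_lit 656) (nat_lit 132) (nat_lit 617) (@Lb.t (@Lb.fp (nat_lit 9) t4280)))))))))))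
noncomputable def l21455 : Lb := (@Lb.d (nat_lit 2) (nat_lit 258) (nat_lit 2) (@Lb.g g8 (@Lb.g g9 (@Lb.g g10 (@Lb.r r676 (@Lb.r r1543 (@Lb.r r386 (@Lb.r r97 (@Lb.d (nat_lit 656) (nat_lit 137) (nat_lit 618) (@Lb.t (@Lb.fp (nat_lit 9) t4280)))))))))))
noncomputable def l21456 : Lb := (@Lb.r r21 (@Lb.r r331 (@Lb.d (nat_lit 418) (nat_lit 256) (nat_lit 1) (@Lb.g g4 (@Lb.g g10 (@Lb.r r1347 (@Lb.r r2182 (@Lb.r r25 (@Lb.d (nat_lit 344) (nat_lit 128) (nat_lit 33) (@Lb.fm (nat_lit 3) t2691))))))))))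
noncomputable def l21457 : Lb := (@Lb.r r323 (@Lb.d (nat_lit 9) (nat_lit 34) (nat_lit 1) (@Lb.g g8 (@Lb.g g9 (@Lb.g g10 (@Lb.r r1444 (@Lb.r r2331 (@Lb.r r1637 (@Lb.d (nat_lit 680) (nat_lit 149) (nat_lit 598) (@Lb.t (@Lb.fp (nat_lit 9) t307)))))))))))
noncomputable def l21458 : Lb := (@Lb.d (nat_lit 9) (nat_lit 8) (nat_lit 66) (@Lb.g g8 (@Lb.g g10 (@Lb.g g11 (@Lb.r r353 (@Lb.r r663 (@Lb.r r356 (@Lb.r r154 (@Lb.d (nat_lit 264) (nat_lit 9) (nat_lit 161) (@Lb.t (@Lb.fp (nat_lit 9) t127)))))))))))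
noncomputable def l21459 : Lb := (@Lb.r r323 (@Lb.d (nat_lit 4) (nat_lit 512) (nat_lit 32) (@Lb.g g8 (@Lb.g g9 (@Lb.g g10 (@Lb.r r2713 (@Lb.r r2587 (@Lb.r r2564 (@Lb.d (nat_lit 673) (nat_lit 0) (nat_lit 360) (@Lb.t (@Lb.fp (nat_lit 9) t1775)))))))))))
noncomputable def l21460 : Lb := (@Lb.d (nat_lit 2) (nat_lit 1) (nat_lit 64) (@Lb.g g8 (@Lb.g g9 (@Lb.g g11 (@Lb.r r292 (@Lb.r r1371 (@Lb.r r2178 (@Lb.r r1621 (@Lb.r r2084 (@Lb.d (nat_lit 418) (nat_lit 66) (nat_lit 85) (@Lb.t (@Lb.fp (nat_lit 9) t64))))))))))))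
noncomputable def l21461 : Lb := (@Lb.r r21 (@Lb.r r331 (@Lb.d (nat_lit 1) (nat_lit 512) (nat_lit 32) (@Lb.g g8 (@Lb.g g10 (@Lb.r r2708 (@Lb.r r391 (@Lb.r r25 (@Lb.d (nat_lit 650) (nat_lit 34) (nat_lit 400) (@Lb.fm (nat_lit 3) t979))))))))))
noncomputable def l21462 : Lb := (@Lb.r r323 (@Lb.d (nat_lit 32) (nat_lit 514) (nat_lit 26) (@Lb.g g9 (@Lb.g g10 (@Lb.r r603 (@Lb.r r1313 (@Lb.r r1128 (@Lb.d (nat_lit 576) (nat_lit 128) (nat_lit 2) (@Lb.fp (nat_lit 3) t4176)))))))))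
noncomputable def l21463 : Lb := (@Lb.r r322 (@Lb.d (nat_lit 0) (nat_lit 32) (nat_lit 128) (@Lb.g g11 (@Lb.r r24 (@Lb.r r357 (@Lb.r r146 (@Lb.d (nat_lit 74) (nat_lit 2) (nat_lit 88) (@Lb.t (@Lb.fm (nat_lit 3) t221)))))))))
noncomputable def l21464 : Lb := (@Lb.d (nat_lit 0) (nat_lit 545) (nat_lit 66) (@Lb.g g8 (@Lb.g g9 (@Lb.g g10 (@Lb.g g11 (@Lb.r r1699 (@Lb.r r1642 (@Lb.r r612 (@Lb.r r533 (@Lb.r r1060 (@Lb.d (nat_lit 393) (nat_lit 72) (nat_lit 386) (@Lb.fm (nat_lit 9) t4281))))))))))))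
noncomputable def l21465 : Lb := (@Lb.d (nat_lit 592) (nat_lit 424) (nat_lit 340) (@Lb.r r2068 (@Lb.r r2379 (@Lb.r r658 (@Lb.g g7 (@Lb.g g6 (@Lb.g g9 (@Lb.g g4 (@Lb.d (nat_lit 96) (nat_lit 153) (nat_lit 74) (@Lb.fp (nat_lit 9) t2957))))))))))
noncomputable def l21466 : Lb := (@Lb.r r21 (@Lb.d (nat_lit 33) (nat_lit 512) (nat_lit 1) (@Lb.g g8 (@Lb.g g10 (@Lb.r r1691 (@Lb.r r1561 (@Lb.r r1640 (@Lb.r r614 (@Lb.d (nat_lit 153) (nat_lit 73) (nat_lit 586) (@Lb.fm (nat_lit 3) t594))))))))))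
noncomputable def l21467 : Lb := (@Lb.d (nat_lit 356) (nat_lit 129) (nat_lit 600) (@Lb.r r358 (@Lb.r r676 (@Lb.r r1105 (@Lb.r r1623 (@Lb.g g6 (@Lb.g g5 (@Lb.g g4 (@Lb.d (nat_lit 1) (nat_lit 1) (nat_lit 5) (@Lb.t (@Lb.fm (nat_lit 9) t2655)))))))))))
noncomputable def l21468 : Lb := (@Lb.d (nat_lit 2) (nat_lit 256) (nat_lit 72) (@Lb.g g8 (@Lb.g g11 (@Lb.r r597 (@Lb.r r2468 (@Lb.r r2150 (@Lb.d (nat_lit 144) (nat_lit 152) (nat_lit 68) (@Lb.fm (nat_lit 3) t4282))))))))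
noncomputable def l21469 : Lb := (@Lb.d (nat_lit 0) (nat_lit 545) (nat_lit 9) (@Lb.g g8 (@Lb.g g9 (@Lb.g g10 (@Lb.g g11 (@Lb.r r2722 (@Lb.r r1415 (@Lb.r r36 (@Lb.r r149 (@Lb.r r2084 (@Lb.d (nat_lit 105) (nat_lit 152) (nat_lit 593) (@Lb.fm (nat_lit 9) t1879))))))))))))
noncomputable def l21470 : Lb := (@Lb.r r21 (@Lb.d (nat_lit 33) (nat_lit 288) (nat_lit 9) (@Lb.g g8 (@Lb.g g10 (@Lb.g g11 (@Lb.r r1162 (@Lb.r r2149 (@Lb.r r1432 (@Lb.r r391 (@Lb.d (nat_lit 97) (nat_lit 73) (nat_lit 517) (@Lb.t (@Lb.fp (nat_lit 9) t594))))))))))))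
noncomputable def l21471 : Lb := (@Lb.r r326 (@Lb.d (nat_lit 2) (nat_lit 34) (nat_lit 64) (@Lb.g g8 (@Lb.g g9 (@Lb.g g11 (@Lb.r r1113 (@Lb.r r1638 (@Lb.r r1432 (@Lb.d (nat_lit 357) (nat_lit 26) (nat_lit 330) (@Lb.t (@Lb.fp (nat_lit 9) t4283)))))))))))
noncomputable def l21472 : Lb := (@Lb.d (nat_lit 0) (nat_lit 265) (nat_lit 8) (@Lb.g g8 (@Lb.g g9 (@Lb.g g10 (@Lb.g g11 (@Lb.r r2691 (@Lb.r r297 (@Lb.r r648 (@Lb.r r666 (@Lb.r r1156 (@Lb.d (nat_lit 641) (nat_lit 42) (nat_lit 73) (@Lb.fp (nat_lit 9) t1234))))))))))))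
noncomputable def l21473 : Lb := (@Lb.d (nat_lit 36) (nat_lit 402) (nat_lit 74) (@Lb.g g5 (@Lb.g g10 (@Lb.g g11 (@Lb.r r2439 (@Lb.r r1096 (@Lb.r r2198 (@Lb.d (nat_lit 134) (nat_lit 136) (nat_lit 128) (@Lb.t (@Lb.fp (nat_lit 9) t1312))))))))))
noncomputable def l21474 : Lb := (@Lb.d (nat_lit 4) (nat_lit 288) (nat_lit 64) (@Lb.g g8 (@Lb.g g11 (@Lb.r r1634 (@Lb.r r401 (@Lb.r r2659 (@Lb.d (nat_lit 320) (nat_lit 26) (nat_lit 298) (@Lb.fp (nat_lit 3) t242))))))))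
noncomputable def l21475 : Lb := (@Lb.r r82 (@Lb.d (nat_lit 34) (nat_lit 514) (nat_lit 0) (@Lb.g g8 (@Lb.g g9 (@Lb.r r363 (@Lb.r r582 (@Lb.r r388 (@Lb.d (nat_lit 100) (nat_lit 9) (nat_lit 153) (@Lb.fm (nat_lit 3) t1499)))))))))
noncomputable def l21476 : Lb := (@Lb.d (nat_lit 4) (nat_lit 32) (nat_lit 2) (@Lb.g g8 (@Lb.g g9 (@Lb.g g10 (@Lb.r r1675 (@Lb.r r1194 (@Lb.r r2465 (@Lb.r r2564 (@Lb.d (nat_lit 553) (nat_lit 164) (nat_lit 546) (@Lb.t (@Lb.fp (nat_lit 9) t284)))))))))))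
noncomputable def l21477 : Lb := (@Lb.d (nat_lit 0) (nat_lit 258) (nat_lit 0) (@Lb.g g8 (@Lb.g g9 (@Lb.g g7 (@Lb.r r1122 (@Lb.r r25 (@Lb.r r24 (@Lb.d (nat_lit 513) (nat_lit 0) (nat_lit 133) (@Lb.t (@Lb.fm (nat_lit 9) t49))))))))))
noncomputable def l21478 : Lb := (@Lb.d (nat_lit 128) (nat_lit 530) (nat_lit 128) (@Lb.g g5 (@Lb.g g10 (@Lb.g g11 (@Lb.r r1606 (@Lb.r r36 (@Lb.d (nat_lit 258) (nat_lit 66) (nat_lit 384) (@Lb.t (@Lb.fp (nat_lit 9) t4284)))))))))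
noncomputable def l21479 : Lb := (@Lb.d (nat_lit 345) (nat_lit 394) (nat_lit 336) (@Lb.r r2312 (@Lb.r r1106 (@Lb.r r1623 (@Lb.g g6 (@Lb.g g5 (@Lb.g g4 (@Lb.d (nat_lit 65) (nat_lit 129) (nat_lit 1) (@Lb.r r387 (@Lb.t (@Lb.fp (nat_lit 9) t1161)))))))))))
noncomputable def l21480 : Lb := (@Lb.d (nat_lit 9) (nat_lit 258) (nat_lit 66) (@Lb.g g8 (@Lb.g g9 (@Lb.g g10 (@Lb.g g11 (@Lb.r r665 (@Lb.r r1435 (@Lb.r r2458 (@Lb.r r2436 (@Lb.d (nat_lit 665) (nat_lit 134) (nat_lit 617) (@Lb.fm (nat_lit 9) t3993)))))))))))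
noncomputable def l21481 : Lb := (@Lb.d (nat_lit 160) (nat_lit 578) (nat_lit 128) (@Lb.g g9 (@Lb.g g10 (@Lb.g g11 (@Lb.r r292 (@Lb.r r2667 (@Lb.r r1362 (@Lb.d (nat_lit 352) (nat_lit 21) (nat_lit 533) (@Lb.t (@Lb.fp (nat_lit 9) t820))))))))))
noncomputable def l21482 : Lb := (@Lb.d (nat_lit 297) (nat_lit 70) (nat_lit 101) (@Lb.r r2308 (@Lb.r r1106 (@Lb.r r1371 (@Lb.r r264 (@Lb.g g7 (@Lb.g g6 (@Lb.g g5 (@Lb.g g4 (@Lb.d (nat_lit 1) (nat_lit 129) (nat_lit 5) (@Lb.fm (nat_lit 9) t98)))))))))))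
noncomputable def l21483 : Lb := (@Lb.d (nat_lit 345) (nat_lit 328) (nat_lit 336) (@Lb.r r2312 (@Lb.r r1106 (@Lb.r r1623 (@Lb.g g6 (@Lb.g g5 (@Lb.g g4 (@Lb.d (nat_lit 65) (nat_lit 129) (nat_lit 1) (@Lb.r r387 (@Lb.t (@Lb.fp (nat_lit 9) t1161)))))))))))
noncomputable def l21484 : Lb := (@Lb.d (nat_lit 8) (nat_lit 258) (nat_lit 2) (@Lb.g g9 (@Lb.g g10 (@Lb.r r2435 (@Lb.r r386 (@Lb.r r24 (@Lb.d (nat_lit 608) (nat_lit 2) (nat_lit 132) (@Lb.fm (nat_lit 3) t698))))))))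
noncomputable def l21485 : Lb := (@Lb.d (nat_lit 538) (nat_lit 2) (nat_lit 64) (@Lb.g g8 (@Lb.g g9 (@Lb.g g11 (@Lb.r r529 (@Lb.r r1299 (@Lb.r r2178 (@Lb.r r529 (@Lb.d (nat_lit 322) (nat_lit 129) (nat_lit 529) (@Lb.t (@Lb.fp (nat_lit 9) t1561)))))))))))
noncomputable def l21486 : Lb := (@Lb.r r355 (@Lb.d (nat_lit 1) (nat_lit 66) (nat_lit 2) (@Lb.g g8 (@Lb.g g5 (@Lb.g g10 (@Lb.r r1603 (@Lb.r r74 (@Lb.r r1096 (@Lb.d (nat_lit 544) (nat_lit 129) (nat_lit 18) (@Lb.t (@Lb.fp (nat_lit 9) t1810)))))))))))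
noncomputable def l21487 : Lb := (@Lb.d (nat_lit 105) (nat_lit 25) (nat_lit 5) (@Lb.g g8 (@Lb.g g9 (@Lb.g g10 (@Lb.g g11 (@Lb.r r1706 (@Lb.r r1419 (@Lb.r r2201 (@Lb.r r584 (@Lb.d (nat_lit 649) (nat_lit 73) (nat_lit 321) (@Lb.fp (nat_lit 9) t3392)))))))))))
noncomputable def l21488 : Lb := (@Lb.d (nat_lit 2) (nat_lit 545) (nat_lit 66) (@Lb.g g8 (@Lb.g g9 (@Lb.g g10 (@Lb.g g11 (@Lb.r r610 (@Lb.r r2084 (@Lb.r r613 (@Lb.r r1315 (@Lb.d (nat_lit 664) (nat_lit 166) (nat_lit 161) (@Lb.fm (nat_lit 9) t4285)))))))))))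
noncomputable def l21489 : Lb := (@Lb.d (nat_lit 616) (nat_lit 404) (nat_lit 37) (@Lb.r r2453 (@Lb.r r2178 (@Lb.r r2475 (@Lb.g g7 (@Lb.g g5 (@Lb.g g4 (@Lb.d (nat_lit 293) (nat_lit 2) (nat_lit 128) (@Lb.t (@Lb.fm (nat_lit 9) t4286))))))))))
noncomputable def l21490 : Lb := (@Lb.r r21 (@Lb.d (nat_lit 137) (nat_lit 512) (nat_lit 258) (@Lb.g g8 (@Lb.g g10 (@Lb.g g7 (@Lb.r r2645 (@Lb.r r1706 (@Lb.r r2660 (@Lb.d (nat_lit 40) (nat_lit 2) (nat_lit 9) (@Lb.t (@Lb.fm (nat_lit 9) t1443)))))))))))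
noncomputable def l21491 : Lb := (@Lb.d (nat_lit 128) (nat_lit 256) (nat_lit 384) (@Lb.g g8 (@Lb.g g11 (@Lb.r r2662 (@Lb.r r613 (@Lb.r r2452 (@Lb.d (nat_lit 100) (nat_lit 0) (nat_lit 544) (@Lb.fp (nat_lit 3) t1659))))))))
noncomputable def l21492 : Lb := (@Lb.d (nat_lit 2) (nat_lit 294) (nat_lit 74) (@Lb.g g8 (@Lb.g g9 (@Lb.g g10 (@Lb.g g11 (@Lb.r r683 (@Lb.r r661 (@Lb.r r1178 (@Lb.r r24 (@Lb.d (nat_lit 390) (nat_lit 89) (nat_lit 153) (@Lb.fm (nat_lit 9) t1658)))))))))))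
noncomputable def l21493 : Lb := (@Lb.d (nat_lit 130) (nat_lit 256) (nat_lit 128) (@Lb.g g8 (@Lb.g g11 (@Lb.r r1575 (@Lb.r r2662 (@Lb.r r613 (@Lb.r r2452 (@Lb.d (nat_lit 100) (nat_lit 24) (nat_lit 649) (@Lb.fm (nat_lit 3) t1952)))))))))
noncomputable def l21494 : Lb := (@Lb.d (nat_lit 2) (nat_lit 33) (nat_lit 66) (@Lb.g g8 (@Lb.g g9 (@Lb.g g10 (@Lb.g g11 (@Lb.r r610 (@Lb.r r2084 (@Lb.r r613 (@Lb.r r1315 (@Lb.d (nat_lit 664) (nat_lit 161) (nat_lit 160) (@Lb.fm (nat_lit 9) t2443)))))))))))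
noncomputable def l21495 : Lb := (@Lb.d (nat_lit 641) (nat_lit 514) (nat_lit 64) (@Lb.g g4 (@Lb.g g9 (@Lb.g g11 (@Lb.r r533 (@Lb.r r1299 (@Lb.r r2178 (@Lb.r r1553 (@Lb.d (nat_lit 164) (nat_lit 2) (nat_lit 162) (@Lb.t (@Lb.fm (nat_lit 9) t4287)))))))))))
noncomputable def l21496 : Lb := (@Lb.d (nat_lit 105) (nat_lit 276) (nat_lit 4) (@Lb.g g8 (@Lb.g g9 (@Lb.g g10 (@Lb.g g11 (@Lb.r r1706 (@Lb.r r1419 (@Lb.r r2201 (@Lb.r r584 (@Lb.d (nat_lit 649) (nat_lit 73) (nat_lit 321) (@Lb.fp (nat_lit 9) t4288)))))))))))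
noncomputable def l21497 : Lb := (@Lb.d (nat_lit 0) (nat_lit 513) (nat_lit 73) (@Lb.g g8 (@Lb.g g9 (@Lb.g g10 (@Lb.g g11 (@Lb.r r2691 (@Lb.r r2217 (@Lb.r r2658 (@Lb.r r2436 (@Lb.d (nat_lit 353) (nat_lit 160) (nat_lit 598) (@Lb.fp (nat_lit 9) t311)))))))))))
noncomputable def l21498 : Lb := (@Lb.d (nat_lit 262) (nat_lit 6) (nat_lit 33) (@Lb.r r597 (@Lb.r r1386 (@Lb.r r1096 (@Lb.r r1371 (@Lb.g g7 (@Lb.g g6 (@Lb.g g5 (@Lb.d (nat_lit 4) (nat_lit 1) (nat_lit 64) (@Lb.t (@Lb.fm (nat_lit 9) t466)))))))))))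
noncomputable def l21499 : Lb := (@Lb.r r21 (@Lb.d (nat_lit 16) (nat_lit 256) (nat_lit 74) (@Lb.g g8 (@Lb.g g10 (@Lb.g g11 (@Lb.r r603 (@Lb.r r2401 (@Lb.r r1170 (@Lb.r r1128 (@Lb.d (nat_lit 265) (nat_lit 72) (nat_lit 34) (@Lb.t (@Lb.fm (nat_lit 9) t68))))))))))))
noncomputable def l21500 : Lb := (@Lb.r r330 (@Lb.d (nat_lit 1) (nat_lit 528) (nat_lit 392) (@Lb.g g8 (@Lb.g g11 (@Lb.r r1433 (@Lb.r r1370 (@Lb.r r2196 (@Lb.d (nat_lit 84) (nat_lit 130) (nat_lit 672) (@Lb.fm (nat_lit 3) t1701)))))))))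
noncomputable def l21501 : Lb := (@Lb.r r21 (@Lb.d (nat_lit 17) (nat_lit 256) (nat_lit 128) (@Lb.g g8 (@Lb.g g10 (@Lb.g g11 (@Lb.r r2471 (@Lb.r r2401 (@Lb.r r1170 (@Lb.r r2116 (@Lb.d (nat_lit 545) (nat_lit 64) (nat_lit 2) (@Lb.t (@Lb.fm (nat_lit 9) t1461))))))))))))
noncomputable def l21502 : Lb := (@Lb.d (nat_lit 4) (nat_lit 0) (nat_lit 66) (@Lb.g g8 (@Lb.g g9 (@Lb.g g10 (@Lb.g g11 (@Lb.r r675 (@Lb.r r1193 (@Lb.r r1450 (@Lb.r r36 (@Lb.d (nat_lit 84) (nat_lit 146) (nat_lit 549) (@Lb.fm (nat_lit 9) t1823)))))))))))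
noncomputable def l21503 : Lb := (@Lb.d (nat_lit 0) (nat_lit 0) (nat_lit 66) (@Lb.g g8 (@Lb.g g10 (@Lb.g g11 (@Lb.r r2698 (@Lb.r r2692 (@Lb.r r2567 (@Lb.r r409 (@Lb.d (nat_lit 33) (nat_lit 5) (nat_lit 384) (@Lb.t (@Lb.fm (nat_lit 9) t1087)))))))))))
noncomputable def l21504 : Lb := (@Lb.r r82 (@Lb.d (nat_lit 132) (nat_lit 0) (nat_lit 64) (@Lb.g g8 (@Lb.g g9 (@Lb.g g11 (@Lb.r r291 (@Lb.r r1124 (@Lb.r r1626 (@Lb.r r2449 (@Lb.d (nat_lit 10) (nat_lit 84) (nat_lit 169) (@Lb.t (@Lb.fm (nat_lit 9) t1846))))))))))))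
noncomputable def l21505 : Lb := (@Lb.r r277 (@Lb.r r326 (@Lb.d (nat_lit 410) (nat_lit 32) (nat_lit 0) (@Lb.g g8 (@Lb.g g11 (@Lb.r r101 (@Lb.r r2194 (@Lb.d (nat_lit 66) (nat_lit 138) (nat_lit 544) (@Lb.fm (nat_lit 3) t1846)))))))))
noncomputable def l21506 : Lb := (@Lb.r r277 (@Lb.r r326 (@Lb.d (nat_lit 392) (nat_lit 32) (nat_lit 0) (@Lb.g g8 (@Lb.g g11 (@Lb.r r101 (@Lb.r r2194 (@Lb.d (nat_lit 66) (nat_lit 0) (nat_lit 529) (@Lb.fm (nat_lit 3) t1846)))))))))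
noncomputable def l21507 : Lb := (@Lb.d (nat_lit 4) (nat_lit 538) (nat_lit 9) (@Lb.g g8 (@Lb.g g9 (@Lb.g g10 (@Lb.g g11 (@Lb.r r2567 (@Lb.r r1418 (@Lb.r r609 (@Lb.r r36 (@Lb.d (nat_lit 90) (nat_lit 85) (nat_lit 549) (@Lb.fm (nat_lit 9) t2178)))))))))))
noncomputable def l21508 : Lb := (@Lb.d (nat_lit 34) (nat_lit 512) (nat_lit 0) (@Lb.g g4 (@Lb.g g11 (@Lb.r r1177 (@Lb.r r154 (@Lb.r r424 (@Lb.r r2599 (@Lb.d (nat_lit 645) (nat_lit 70) (nat_lit 538) (@Lb.fm (nat_lit 3) t430)))))))))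
noncomputable def l21509 : Lb := (@Lb.r r2315 (@Lb.d (nat_lit 33) (nat_lit 256) (nat_lit 0) (@Lb.g g8 (@Lb.r r678 (@Lb.r r1701 (@Lb.r r1364 (@Lb.d (nat_lit 596) (nat_lit 86) (nat_lit 273) (@Lb.t (@Lb.fp (nat_lit 3) t1952)))))))))
noncomputable def l21510 : Lb := (@Lb.d (nat_lit 6) (nat_lit 256) (nat_lit 9) (@Lb.g g4 (@Lb.g g10 (@Lb.g g11 (@Lb.r r2691 (@Lb.r r1158 (@Lb.d (nat_lit 129) (nat_lit 6) (nat_lit 425) (@Lb.t (@Lb.fp (nat_lit 9) t3316)))))))))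
noncomputable def l21511 : Lb := (@Lb.r r21 (@Lb.d (nat_lit 42) (nat_lit 544) (nat_lit 9) (@Lb.g g8 (@Lb.g g10 (@Lb.g g11 (@Lb.r r138 (@Lb.r r101 (@Lb.r r408 (@Lb.r r391 (@Lb.d (nat_lit 97) (nat_lit 9) (nat_lit 74) (@Lb.t (@Lb.fp (nat_lit 9) t594))))))))))))
noncomputable def l21512 : Lb := (@Lb.d (nat_lit 144) (nat_lit 256) (nat_lit 386) (@Lb.g g8 (@Lb.g g10 (@Lb.g g11 (@Lb.r r1634 (@Lb.r r388 (@Lb.d (nat_lit 105) (nat_lit 152) (nat_lit 394) (@Lb.t (@Lb.fm (nat_lit 9) t4289)))))))))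
noncomputable def l21513 : Lb := (@Lb.r r82 (@Lb.d (nat_lit 274) (nat_lit 545) (nat_lit 64) (@Lb.g g4 (@Lb.g g9 (@Lb.g g11 (@Lb.r r1571 (@Lb.r r2438 (@Lb.r r145 (@Lb.d (nat_lit 608) (nat_lit 85) (nat_lit 665) (@Lb.t (@Lb.fp (nat_lit 9) t3370)))))))))))
noncomputable def l21514 : Lb := (@Lb.d (nat_lit 384) (nat_lit 264) (nat_lit 514) (@Lb.r r8 (@Lb.r r101 (@Lb.r r1434 (@Lb.r r1347 (@Lb.g g7 (@Lb.g g6 (@Lb.d (nat_lit 0) (nat_lit 0) (nat_lit 65) (@Lb.fp (nat_lit 3) t1876)))))))))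
noncomputable def l21515 : Lb := (@Lb.d (nat_lit 392) (nat_lit 585) (nat_lit 2) (@Lb.r r1128 (@Lb.r r1313 (@Lb.r r1686 (@Lb.r r2387 (@Lb.g g7 (@Lb.g g6 (@Lb.g g5 (@Lb.d (nat_lit 0) (nat_lit 1) (nat_lit 65) (@Lb.t (@Lb.fm (nat_lit 9) t1014)))))))))))
noncomputable def l21516 : Lb := (@Lb.d (nat_lit 0) (nat_lit 265) (nat_lit 8) (@Lb.g g9 (@Lb.g g6 (@Lb.r r515 (@Lb.r r97 (@Lb.r r36 (@Lb.d (nat_lit 2) (nat_lit 134) (nat_lit 130) (@Lb.fp (nat_lit 3) t4290))))))))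
noncomputable def l21517 : Lb := (@Lb.d (nat_lit 16) (nat_lit 8) (nat_lit 154) (@Lb.g g8 (@Lb.g g10 (@Lb.g g11 (@Lb.r r132 (@Lb.d (nat_lit 41) (nat_lit 1) (nat_lit 33) (@Lb.t (@Lb.fm (nat_lit 9) t4291))))))))
noncomputable def l21518 : Lb := (@Lb.d (nat_lit 2) (nat_lit 514) (nat_lit 128) (@Lb.g g8 (@Lb.g g9 (@Lb.g g10 (@Lb.g g11 (@Lb.r r1287 (@Lb.r r405 (@Lb.r r2714 (@Lb.r r2564 (@Lb.d (nat_lit 672) (nat_lit 10) (nat_lit 400) (@Lb.fm (nat_lit 9) t2199)))))))))))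
noncomputable def l21519 : Lb := (@Lb.d (nat_lit 2) (nat_lit 516) (nat_lit 138) (@Lb.g g8 (@Lb.g g9 (@Lb.g g10 (@Lb.g g11 (@Lb.r r643 (@Lb.r r596 (@Lb.r r1690 (@Lb.r r85 (@Lb.r r164 (@Lb.d (nat_lit 657) (nat_lit 161) (nat_lit 618) (@Lb.fp (nat_lit 9) t3543))))))))))))
noncomputable def l21520 : Lb := (@Lb.d (nat_lit 165) (nat_lit 292) (nat_lit 0) (@Lb.g g8 (@Lb.g g9 (@Lb.g g10 (@Lb.r r2579 (@Lb.r r2453 (@Lb.r r86 (@Lb.r r1700 (@Lb.d (nat_lit 138) (nat_lit 150) (nat_lit 354) (@Lb.t (@Lb.fp (nat_lit 9) t4292)))))))))))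
noncomputable def l21521 : Lb := (@Lb.d (nat_lit 2) (nat_lit 258) (nat_lit 137) (@Lb.g g8 (@Lb.g g9 (@Lb.g g10 (@Lb.g g11 (@Lb.r r1706 (@Lb.r r680 (@Lb.r r555 (@Lb.r r1553 (@Lb.r r2084 (@Lb.d (nat_lit 4) (nat_lit 96) (nat_lit 586) (@Lb.fm (nat_lit 9) t51))))))))))))
noncomputable def l21522 : Lb := (@Lb.d (nat_lit 2) (nat_lit 38) (nat_lit 128) (@Lb.g g8 (@Lb.g g9 (@Lb.g g10 (@Lb.g g11 (@Lb.r r1706 (@Lb.r r676 (@Lb.r r551 (@Lb.r r533 (@Lb.r r1060 (@Lb.d (nat_lit 386) (nat_lit 2) (nat_lit 586) (@Lb.fp (nat_lit 9) t594))))))))))))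
noncomputable def l21523 : Lb := (@Lb.r r21 (@Lb.d (nat_lit 129) (nat_lit 512) (nat_lit 66) (@Lb.g g8 (@Lb.g g10 (@Lb.g g11 (@Lb.r r395 (@Lb.r r597 (@Lb.r r106 (@Lb.r r104 (@Lb.d (nat_lit 89) (nat_lit 33) (nat_lit 8) (@Lb.t (@Lb.fp (nat_lit 9) t594))))))))))))
noncomputable def l21524 : Lb := (@Lb.d (nat_lit 0) (nat_lit 153) (nat_lit 101) (@Lb.r r595 (@Lb.g g7 (@Lb.g g10 (@Lb.g g9 (@Lb.d (nat_lit 0) (nat_lit 80) (nat_lit 20) (@Lb.t (@Lb.fm (nat_lit 9) t121))))))))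
noncomputable def l21525 : Lb := (@Lb.d (nat_lit 0) (nat_lit 665) (nat_lit 101) (@Lb.r r595 (@Lb.g g7 (@Lb.g g10 (@Lb.g g9 (@Lb.d (nat_lit 0) (nat_lit 80) (nat_lit 84) (@Lb.t (@Lb.fm (nat_lit 9) t121))))))))
noncomputable def l21526 : Lb := (@Lb.d (nat_lit 4) (nat_lit 0) (nat_lit 130) (@Lb.g g8 (@Lb.g g9 (@Lb.g g10 (@Lb.g g11 (@Lb.r r1691 (@Lb.r r1193 (@Lb.r r1450 (@Lb.r r1416 (@Lb.d (nat_lit 517) (nat_lit 1) (nat_lit 137) (@Lb.fp (nat_lit 9) t61)))))))))))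
noncomputable def l21527 : Lb := (@Lb.d (nat_lit 6) (nat_lit 34) (nat_lit 66) (@Lb.g g8 (@Lb.g g9 (@Lb.g g10 (@Lb.g g11 (@Lb.r r427 (@Lb.r r356 (@Lb.r r154 (@Lb.r r89 (@Lb.r r36 (@Lb.d (nat_lit 41) (nat_lit 9) (nat_lit 2) (@Lb.fm (nat_lit 9) t594))))))))))))
noncomputable def l21528 : Lb := (@Lb.d (nat_lit 144) (nat_lit 682) (nat_lit 682) (@Lb.r r587 (@Lb.r r1556 (@Lb.r r89 (@Lb.g g7 (@Lb.g g10 (@Lb.g g4 (@Lb.d (nat_lit 6) (nat_lit 16) (nat_lit 81) (@Lb.t (@Lb.fp (nat_lit 9) t4293))))))))))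
noncomputable def l21529 : Lb := (@Lb.d (nat_lit 8) (nat_lit 516) (nat_lit 65) (@Lb.g g9 (@Lb.g g10 (@Lb.g g11 (@Lb.r r2392 (@Lb.r r1703 (@Lb.r r2726 (@Lb.r r537 (@Lb.d (nat_lit 612) (nat_lit 102) (nat_lit 38) (@Lb.t (@Lb.fp (nat_lit 9) t4294)))))))))))
noncomputable def l21530 : Lb := (@Lb.d (nat_lit 0) (nat_lit 4) (nat_lit 64) (@Lb.g g9 (@Lb.g g10 (@Lb.g g11 (@Lb.r r337 (@Lb.r r675 (@Lb.r r2658 (@Lb.r r2577 (@Lb.d (nat_lit 0) (nat_lit 25) (nat_lit 673) (@Lb.t (@Lb.fp (nat_lit 9) t256)))))))))))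
noncomputable def l21531 : Lb := (@Lb.r r82 (@Lb.d (nat_lit 4) (nat_lit 290) (nat_lit 64) (@Lb.g g8 (@Lb.g g9 (@Lb.g g11 (@Lb.r r617 (@Lb.r r658 (@Lb.r r647 (@Lb.r r260 (@Lb.d (nat_lit 16) (nat_lit 0) (nat_lit 136) (@Lb.t (@Lb.fp (nat_lit 9) t4295))))))))))))
noncomputable def l21532 : Lb := (@Lb.d (nat_lit 160) (nat_lit 512) (nat_lit 66) (@Lb.g g9 (@Lb.g g10 (@Lb.g g11 (@Lb.r r1689 (@Lb.r r100 (@Lb.r r1434 (@Lb.r r2627 (@Lb.d (nat_lit 612) (nat_lit 102) (nat_lit 418) (@Lb.t (@Lb.fm (nat_lit 9) t2156)))))))))))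
noncomputable def l21533 : Lb := (@Lb.r r81 (@Lb.r r323 (@Lb.d (nat_lit 1) (nat_lit 520) (nat_lit 1) (@Lb.g g8 (@Lb.g g6 (@Lb.r r387 (@Lb.r r1173 (@Lb.r r36 (@Lb.d (nat_lit 534) (nat_lit 1) (nat_lit 17) (@Lb.fp (nat_lit 3) t68))))))))))
noncomputable def l21534 : Lb := (@Lb.d (nat_lit 40) (nat_lit 385) (nat_lit 34) (@Lb.r r70 (@Lb.r r392 (@Lb.r r599 (@Lb.g g6 (@Lb.g g5 (@Lb.g g4 (@Lb.d (nat_lit 1) (nat_lit 22) (nat_lit 2) (@Lb.r r387 (@Lb.t (@Lb.fp (nat_lit 9) t594)))))))))))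
noncomputable def l21535 : Lb := (@Lb.r r21 (@Lb.r r323 (@Lb.d (nat_lit 130) (nat_lit 4) (nat_lit 1) (@Lb.g g8 (@Lb.g g6 (@Lb.r r407 (@Lb.r r97 (@Lb.r r516 (@Lb.d (nat_lit 138) (nat_lit 1) (nat_lit 129) (@Lb.fm (nat_lit 3) t51))))))))))
noncomputable def l21536 : Lb := (@Lb.r r21 (@Lb.r r323 (@Lb.d (nat_lit 130) (nat_lit 260) (nat_lit 1) (@Lb.g g8 (@Lb.g g6 (@Lb.r r407 (@Lb.r r97 (@Lb.r r516 (@Lb.d (nat_lit 137) (nat_lit 1) (nat_lit 129) (@Lb.fm (nat_lit 3) t51))))))))))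
noncomputable def l21537 : Lb := (@Lb.r r21 (@Lb.d (nat_lit 16) (nat_lit 256) (nat_lit 128) (@Lb.g g8 (@Lb.g g10 (@Lb.g g11 (@Lb.r r331 (@Lb.r r1410 (@Lb.r r2153 (@Lb.r r2120 (@Lb.d (nat_lit 522) (nat_lit 2) (nat_lit 425) (@Lb.t (@Lb.fp (nat_lit 9) t830))))))))))))
noncomputable def l21538 : Lb := (@Lb.r r21 (@Lb.d (nat_lit 538) (nat_lit 256) (nat_lit 74) (@Lb.g g4 (@Lb.g g10 (@Lb.g g11 (@Lb.r r1687 (@Lb.r r2401 (@Lb.r r1170 (@Lb.d (nat_lit 537) (nat_lit 68) (nat_lit 513) (@Lb.t (@Lb.fm (nat_lit 9) t151)))))))))))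
noncomputable def l21539 : Lb := (@Lb.d (nat_lit 169) (nat_lit 258) (nat_lit 0) (@Lb.g g8 (@Lb.g g9 (@Lb.r r1622 (@Lb.r r2473 (@Lb.r r599 (@Lb.r r424 (@Lb.d (nat_lit 145) (nat_lit 102) (nat_lit 330) (@Lb.fp (nat_lit 3) t2)))))))))
noncomputable def l21540 : Lb := (@Lb.d (nat_lit 338) (nat_lit 512) (nat_lit 80) (@Lb.r r2308 (@Lb.r r2323 (@Lb.r r1641 (@Lb.g g10 (@Lb.g g4 (@Lb.d (nat_lit 18) (nat_lit 8) (nat_lit 34) (@Lb.r r387 (@Lb.r r145 (@Lb.fm (nat_lit 3) t1000))))))))))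
noncomputable def l21541 : Lb := (@Lb.d (nat_lit 0) (nat_lit 549) (nat_lit 10) (@Lb.g g9 (@Lb.g g10 (@Lb.g g11 (@Lb.r r675 (@Lb.r r578 (@Lb.r r609 (@Lb.r r24 (@Lb.d (nat_lit 0) (nat_lit 137) (nat_lit 133) (@Lb.t (@Lb.fp (nat_lit 9) t1436)))))))))))
noncomputable def l21542 : Lb := (@Lb.d (nat_lit 2) (nat_lit 2) (nat_lit 128) (@Lb.g g8 (@Lb.g g9 (@Lb.g g10 (@Lb.g g11 (@Lb.r r529 (@Lb.r r663 (@Lb.r r328 (@Lb.r r134 (@Lb.d (nat_lit 9) (nat_lit 2) (nat_lit 144) (@Lb.fm (nat_lit 9) t756)))))))))))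
noncomputable def l21543 : Lb := (@Lb.d (nat_lit 0) (nat_lit 18) (nat_lit 68) (@Lb.g g9 (@Lb.g g10 (@Lb.g g11 (@Lb.r r675 (@Lb.r r97 (@Lb.r r146 (@Lb.r r24 (@Lb.d (nat_lit 0) (nat_lit 150) (nat_lit 138) (@Lb.t (@Lb.fm (nat_lit 9) t1436)))))))))))
noncomputable def l21544 : Lb := (@Lb.d (nat_lit 586) (nat_lit 394) (nat_lit 330) (@Lb.r r2329 (@Lb.r r1446 (@Lb.r r323 (@Lb.g g7 (@Lb.g g6 (@Lb.g g5 (@Lb.g g8 (@Lb.d (nat_lit 9) (nat_lit 24) (nat_lit 10) (@Lb.fp (nat_lit 9) t1436))))))))))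
noncomputable def l21545 : Lb := (@Lb.d (nat_lit 149) (nat_lit 601) (nat_lit 660) (@Lb.r r2644 (@Lb.r r2391 (@Lb.r r1705 (@Lb.g g6 (@Lb.g g5 (@Lb.g g4 (@Lb.d (nat_lit 2) (nat_lit 6) (nat_lit 34) (@Lb.t (@Lb.fm (nat_lit 9) t145))))))))))
noncomputable def l21546 : Lb := (@Lb.d (nat_lit 9) (nat_lit 256) (nat_lit 0) (@Lb.g g8 (@Lb.r r1114 (@Lb.r r149 (@Lb.r r1124 (@Lb.d (nat_lit 272) (nat_lit 74) (nat_lit 18) (@Lb.t (@Lb.fp (nat_lit 3) t2098))))))))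
noncomputable def l21547 : Lb := (@Lb.r r1287 (@Lb.r r1094 (@Lb.r r1045 (@Lb.r r8 (@Lb.d (nat_lit 0) (nat_lit 517) (nat_lit 32) (@Lb.fm (nat_lit 1) t1941))))))
noncomputable def l21548 : Lb := (@Lb.d (nat_lit 353) (nat_lit 257) (nat_lit 2) (@Lb.g g4 (@Lb.g g9 (@Lb.g g10 (@Lb.r r1607 (@Lb.r r1442 (@Lb.r r2193 (@Lb.d (nat_lit 1) (nat_lit 134) (nat_lit 417) (@Lb.t (@Lb.fp (nat_lit 9) t394))))))))))
noncomputable def l21549 : Lb := (@Lb.d (nat_lit 8) (nat_lit 9) (nat_lit 646) (@Lb.r r134 (@Lb.r r328 (@Lb.r r279 (@Lb.r r2601 (@Lb.g g7 (@Lb.g g5 (@Lb.g g4 (@Lb.d (nat_lit 6) (nat_lit 1) (nat_lit 64) (@Lb.t (@Lb.fm (nat_lit 9) t4296)))))))))))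
noncomputable def l21550 : Lb := (@Lb.d (nat_lit 353) (nat_lit 257) (nat_lit 9) (@Lb.g g4 (@Lb.g g9 (@Lb.g g10 (@Lb.r r2627 (@Lb.r r422 (@Lb.r r2193 (@Lb.d (nat_lit 328) (nat_lit 133) (nat_lit 161) (@Lb.t (@Lb.fp (nat_lit 9) t394))))))))))
noncomputable def l21551 : Lb := (@Lb.d (nat_lit 337) (nat_lit 513) (nat_lit 617) (@Lb.r r1348 (@Lb.r r146 (@Lb.r r267 (@Lb.g g5 (@Lb.g g4 (@Lb.d (nat_lit 65) (nat_lit 69) (nat_lit 0) (@Lb.r r98 (@Lb.fp (nat_lit 3) t1929)))))))))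
noncomputable def l21552 : Lb := (@Lb.d (nat_lit 337) (nat_lit 520) (nat_lit 616) (@Lb.r r1348 (@Lb.r r82 (@Lb.r r267 (@Lb.g g6 (@Lb.g g5 (@Lb.g g4 (@Lb.d (nat_lit 65) (nat_lit 65) (nat_lit 1) (@Lb.t (@Lb.fp (nat_lit 9) t204))))))))))
noncomputable def l21553 : Lb := (@Lb.d (nat_lit 2) (nat_lit 256) (nat_lit 0) (@Lb.g g8 (@Lb.r r1098 (@Lb.r r1049 (@Lb.d (nat_lit 97) (nat_lit 0) (nat_lit 528) (@Lb.t (@Lb.fp (nat_lit 3) t49)))))))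
noncomputable def l21554 : Lb := (@Lb.r r82 (@Lb.d (nat_lit 10) (nat_lit 288) (nat_lit 64) (@Lb.g g8 (@Lb.g g9 (@Lb.g g11 (@Lb.r r1639 (@Lb.r r2450 (@Lb.r r1625 (@Lb.d (nat_lit 132) (nat_lit 166) (nat_lit 664) (@Lb.t (@Lb.fm (nat_lit 9) t218)))))))))))
noncomputable def l21555 : Lb := (@Lb.d (nat_lit 554) (nat_lit 6) (nat_lit 16) (@Lb.r r101 (@Lb.r r402 (@Lb.r r323 (@Lb.g g7 (@Lb.g g6 (@Lb.d (nat_lit 0) (nat_lit 0) (nat_lit 64) (@Lb.fm (nat_lit 3) t218))))))))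
noncomputable def l21556 : Lb := (@Lb.r r21 (@Lb.d (nat_lit 10) (nat_lit 32) (nat_lit 98) (@Lb.g g8 (@Lb.g g6 (@Lb.g g11 (@Lb.r r2337 (@Lb.r r407 (@Lb.r r1608 (@Lb.d (nat_lit 153) (nat_lit 129) (nat_lit 280) (@Lb.t (@Lb.fp (nat_lit 9) t188)))))))))))
noncomputable def l21557 : Lb := (@Lb.d (nat_lit 8) (nat_lit 258) (nat_lit 0) (@Lb.g g9 (@Lb.r r2343 (@Lb.r r1096 (@Lb.r r2646 (@Lb.r r409 (@Lb.d (nat_lit 278) (nat_lit 73) (nat_lit 153) (@Lb.t (@Lb.fm (nat_lit 3) t3997)))))))))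
noncomputable def l21558 : Lb := (@Lb.g g9 (@Lb.r r2343 (@Lb.r r1096 (@Lb.r r2646 (@Lb.r r409 (@Lb.d (nat_lit 273) (nat_lit 584) (nat_lit 153) (@Lb.t (@Lb.fm (nat_lit 3) t3997))))))))
noncomputable def l21559 : Lb := (@Lb.d (nat_lit 4) (nat_lit 262) (nat_lit 0) (@Lb.g g8 (@Lb.g g5 (@Lb.r r2584 (@Lb.d (nat_lit 330) (nat_lit 0) (nat_lit 129) (@Lb.fm (nat_lit 3) t996))))))
noncomputable def l21560 : Lb := (@Lb.d (nat_lit 164) (nat_lit 130) (nat_lit 532) (@Lb.r r72 (@Lb.r r386 (@Lb.r r599 (@Lb.g g6 (@Lb.g g5 (@Lb.g g4 (@Lb.d (nat_lit 65) (nat_lit 17) (nat_lit 1) (@Lb.t (@Lb.fm (nat_lit 9) t4297))))))))))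
noncomputable def l21561 : Lb := (@Lb.r r21 (@Lb.d (nat_lit 656) (nat_lit 256) (nat_lit 128) (@Lb.g g8 (@Lb.g g10 (@Lb.g g11 (@Lb.r r387 (@Lb.r r74 (@Lb.r r25 (@Lb.d (nat_lit 336) (nat_lit 0) (nat_lit 9) (@Lb.t (@Lb.fm (nat_lit 9) t1728)))))))))))
noncomputable def l21562 : Lb := (@Lb.r r82 (@Lb.d (nat_lit 4) (nat_lit 34) (nat_lit 64) (@Lb.g g8 (@Lb.g g9 (@Lb.g g11 (@Lb.r r1698 (@Lb.r r2601 (@Lb.r r1640 (@Lb.r r587 (@Lb.d (nat_lit 385) (nat_lit 162) (nat_lit 664) (@Lb.t (@Lb.fm (nat_lit 9) t1161))))))))))))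
noncomputable def l21563 : Lb := (@Lb.g g7 (@Lb.r r597 (@Lb.r r1386 (@Lb.r r407 (@Lb.r r1096 (@Lb.d (nat_lit 356) (nat_lit 513) (nat_lit 354) (@Lb.t (@Lb.fp (nat_lit 3) t2238))))))))
noncomputable def l21564 : Lb := (@Lb.r r1416 (@Lb.r r2391 (@Lb.r r81 (@Lb.r r162 (@Lb.r r145 (@Lb.d (nat_lit 0) (nat_lit 344) (nat_lit 530) (@Lb.fp (nat_lit 1) t1737)))))))
noncomputable def l21565 : Lb := (@Lb.d (nat_lit 33) (nat_lit 257) (nat_lit 130) (@Lb.g g8 (@Lb.g g9 (@Lb.g g10 (@Lb.g g11 (@Lb.r r2699 (@Lb.r r277 (@Lb.r r2724 (@Lb.r r2182 (@Lb.d (nat_lit 345) (nat_lit 89) (nat_lit 554) (@Lb.fp (nat_lit 9) t2495)))))))))))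
noncomputable def l21566 : Lb := (@Lb.r r1045 (@Lb.d (nat_lit 128) (nat_lit 0) (nat_lit 73) (@Lb.g g8 (@Lb.g g10 (@Lb.g g11 (@Lb.r r583 (@Lb.r r1674 (@Lb.r r2628 (@Lb.d (nat_lit 389) (nat_lit 64) (nat_lit 34) (@Lb.t (@Lb.fm (nat_lit 9) t2494)))))))))))
noncomputable def l21567 : Lb := (@Lb.d (nat_lit 98) (nat_lit 132) (nat_lit 662) (@Lb.r r1297 (@Lb.r r611 (@Lb.r r545 (@Lb.r r2214 (@Lb.g g7 (@Lb.g g6 (@Lb.g g5 (@Lb.g g8 (@Lb.d (nat_lit 320) (nat_lit 1) (nat_lit 65) (@Lb.fp (nat_lit 9) t2953)))))))))))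
noncomputable def l21568 : Lb := (@Lb.g g7 (@Lb.r r597 (@Lb.r r1386 (@Lb.r r407 (@Lb.r r1096 (@Lb.d (nat_lit 354) (nat_lit 0) (nat_lit 354) (@Lb.t (@Lb.fp (nat_lit 3) t2238))))))))
noncomputable def l21569 : Lb := (@Lb.d (nat_lit 280) (nat_lit 661) (nat_lit 2) (@Lb.r r2408 (@Lb.r r89 (@Lb.r r386 (@Lb.g g11 (@Lb.g g6 (@Lb.g g4 (@Lb.d (nat_lit 5) (nat_lit 0) (nat_lit 385) (@Lb.r r529 (@Lb.t (@Lb.fm (nat_lit 9) t1446)))))))))))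
noncomputable def l21570 : Lb := (@Lb.d (nat_lit 33) (nat_lit 256) (nat_lit 64) (@Lb.g g8 (@Lb.g g11 (@Lb.r r2726 (@Lb.r r2467 (@Lb.r r1057 (@Lb.r r1316 (@Lb.d (nat_lit 330) (nat_lit 149) (nat_lit 617) (@Lb.fm (nat_lit 3) t918)))))))))
noncomputable def l21571 : Lb := (@Lb.d (nat_lit 644) (nat_lit 512) (nat_lit 130) (@Lb.g g8 (@Lb.g g9 (@Lb.g g10 (@Lb.g g11 (@Lb.r r419 (@Lb.r r106 (@Lb.r r25 (@Lb.d (nat_lit 361) (nat_lit 9) (nat_lit 137) (@Lb.fp (nat_lit 9) t394))))))))))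
noncomputable def l21572 : Lb := (@Lb.d (nat_lit 0) (nat_lit 512) (nat_lit 2) (@Lb.g g9 (@Lb.g g10 (@Lb.r r419 (@Lb.r r98 (@Lb.d (nat_lit 0) (nat_lit 9) (nat_lit 2) (@Lb.fm (nat_lit 3) t51)))))))
noncomputable def l21573 : Lb := (@Lb.d (nat_lit 164) (nat_lit 0) (nat_lit 128) (@Lb.g g8 (@Lb.g g9 (@Lb.g g11 (@Lb.r r2455 (@Lb.r r1110 (@Lb.r r2217 (@Lb.r r424 (@Lb.d (nat_lit 394) (nat_lit 34) (nat_lit 617) (@Lb.t (@Lb.fm (nat_lit 9) t2670)))))))))))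
noncomputable def l21574 : Lb := (@Lb.d (nat_lit 32) (nat_lit 8) (nat_lit 129) (@Lb.g g10 (@Lb.g g11 (@Lb.r r1687 (@Lb.r r2408 (@Lb.r r1385 (@Lb.r r598 (@Lb.d (nat_lit 149) (nat_lit 38) (nat_lit 330) (@Lb.fp (nat_lit 3) t322)))))))))
noncomputable def l21575 : Lb := (@Lb.d (nat_lit 2) (nat_lit 546) (nat_lit 66) (@Lb.g g8 (@Lb.g g9 (@Lb.g g10 (@Lb.g g11 (@Lb.r r419 (@Lb.r r2154 (@Lb.r r2073 (@Lb.d (nat_lit 102) (nat_lit 136) (nat_lit 425) (@Lb.fp (nat_lit 9) t719))))))))))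
noncomputable def l21576 : Lb := (@Lb.r r260 (@Lb.r r273 (@Lb.d (nat_lit 0) (nat_lit 512) (nat_lit 644) (@Lb.g g10 (@Lb.g g7 (@Lb.r r402 (@Lb.r r101 (@Lb.r r1048 (@Lb.d (nat_lit 2) (nat_lit 0) (nat_lit 64) (@Lb.fm (nat_lit 3) t739))))))))))
noncomputable def l21577 : Lb := (@Lb.r r322 (@Lb.d (nat_lit 2) (nat_lit 258) (nat_lit 576) (@Lb.g g8 (@Lb.g g9 (@Lb.g g7 (@Lb.r r1385 (@Lb.r r2198 (@Lb.r r1096 (@Lb.d (nat_lit 354) (nat_lit 0) (nat_lit 345) (@Lb.t (@Lb.fm (nat_lit 9) t476)))))))))))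
noncomputable def l21578 : Lb := (@Lb.d (nat_lit 0) (nat_lit 0) (nat_lit 66) (@Lb.g g10 (@Lb.g g7 (@Lb.r r386 (@Lb.d (nat_lit 2) (nat_lit 0) (nat_lit 9) (@Lb.fm (nat_lit 3) t2))))))
noncomputable def l21579 : Lb := (@Lb.d (nat_lit 129) (nat_lit 256) (nat_lit 66) (@Lb.g g8 (@Lb.g g10 (@Lb.g g11 (@Lb.r r665 (@Lb.r r2587 (@Lb.r r386 (@Lb.r r2072 (@Lb.d (nat_lit 644) (nat_lit 66) (nat_lit 89) (@Lb.t (@Lb.fp (nat_lit 9) t4298)))))))))))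
noncomputable def l21580 : Lb := (@Lb.d (nat_lit 2) (nat_lit 4) (nat_lit 74) (@Lb.g g8 (@Lb.g g9 (@Lb.g g10 (@Lb.g g11 (@Lb.r r2667 (@Lb.r r162 (@Lb.r r1445 (@Lb.r r24 (@Lb.d (nat_lit 385) (nat_lit 138) (nat_lit 385) (@Lb.fp (nat_lit 9) t1778)))))))))))
noncomputable def l21581 : Lb := (@Lb.r r275 (@Lb.d (nat_lit 130) (nat_lit 258) (nat_lit 2) (@Lb.g g8 (@Lb.g g9 (@Lb.g g10 (@Lb.r r297 (@Lb.r r1683 (@Lb.r r1610 (@Lb.r r1636 (@Lb.d (nat_lit 400) (nat_lit 88) (nat_lit 658) (@Lb.t (@Lb.fm (nat_lit 9) t510))))))))))))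
noncomputable def l21582 : Lb := (@Lb.d (nat_lit 10) (nat_lit 256) (nat_lit 66) (@Lb.g g8 (@Lb.g g10 (@Lb.g g7 (@Lb.r r597 (@Lb.r r98 (@Lb.r r2436 (@Lb.d (nat_lit 610) (nat_lit 137) (nat_lit 322) (@Lb.t (@Lb.fp (nat_lit 9) t652))))))))))
noncomputable def l21583 : Lb := (@Lb.d (nat_lit 146) (nat_lit 258) (nat_lit 128) (@Lb.g g8 (@Lb.g g9 (@Lb.g g10 (@Lb.g g11 (@Lb.r r427 (@Lb.r r2154 (@Lb.r r292 (@Lb.r r21 (@Lb.r r36 (@Lb.d (nat_lit 361) (nat_lit 85) (nat_lit 346) (@Lb.fp (nat_lit 9) t4039))))))))))))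
noncomputable def l21584 : Lb := (@Lb.d (nat_lit 129) (nat_lit 258) (nat_lit 10) (@Lb.g g8 (@Lb.g g9 (@Lb.g g10 (@Lb.r r2475 (@Lb.r r1701 (@Lb.r r2388 (@Lb.r r602 (@Lb.d (nat_lit 105) (nat_lit 33) (nat_lit 617) (@Lb.t (@Lb.fp (nat_lit 9) t445)))))))))))
noncomputable def l21585 : Lb := (@Lb.d (nat_lit 137) (nat_lit 512) (nat_lit 258) (@Lb.g g8 (@Lb.g g10 (@Lb.g g7 (@Lb.r r1621 (@Lb.r r98 (@Lb.r r1412 (@Lb.d (nat_lit 354) (nat_lit 137) (nat_lit 25) (@Lb.t (@Lb.fp (nat_lit 9) t4198))))))))))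
noncomputable def l21586 : Lb := (@Lb.d (nat_lit 154) (nat_lit 256) (nat_lit 133) (@Lb.g g8 (@Lb.g g10 (@Lb.g g11 (@Lb.r r1575 (@Lb.r r2469 (@Lb.r r674 (@Lb.r r388 (@Lb.d (nat_lit 98) (nat_lit 149) (nat_lit 405) (@Lb.t (@Lb.fp (nat_lit 9) t2374)))))))))))
noncomputable def l21587 : Lb := (@Lb.d (nat_lit 129) (nat_lit 66) (nat_lit 66) (@Lb.g g8 (@Lb.g g9 (@Lb.g g10 (@Lb.g g11 (@Lb.r r2724 (@Lb.r r519 (@Lb.r r98 (@Lb.d (nat_lit 136) (nat_lit 137) (nat_lit 329) (@Lb.fm (nat_lit 9) t4299))))))))))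
noncomputable def l21588 : Lb := (@Lb.d (nat_lit 2) (nat_lit 656) (nat_lit 337) (@Lb.r r2308 (@Lb.r r1291 (@Lb.r r292 (@Lb.g g7 (@Lb.g g10 (@Lb.g g9 (@Lb.g g4 (@Lb.d (nat_lit 1) (nat_lit 70) (nat_lit 82) (@Lb.fp (nat_lit 9) t1621))))))))))
noncomputable def l21589 : Lb := (@Lb.d (nat_lit 673) (nat_lit 88) (nat_lit 354) (@Lb.r r1382 (@Lb.r r2389 (@Lb.r r40 (@Lb.r r1699 (@Lb.g g7 (@Lb.g g6 (@Lb.g g5 (@Lb.d (nat_lit 16) (nat_lit 9) (nat_lit 64) (@Lb.t (@Lb.fp (nat_lit 9) t4300)))))))))))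
noncomputable def l21590 : Lb := (@Lb.d (nat_lit 2) (nat_lit 150) (nat_lit 320) (@Lb.r r2308 (@Lb.r r97 (@Lb.r r1291 (@Lb.r r404 (@Lb.g g7 (@Lb.g g10 (@Lb.g g5 (@Lb.g g4 (@Lb.d (nat_lit 1) (nat_lit 6) (nat_lit 82) (@Lb.fp (nat_lit 9) t1018)))))))))))
noncomputable def l21591 : Lb := (@Lb.d (nat_lit 680) (nat_lit 346) (nat_lit 354) (@Lb.r r1382 (@Lb.r r2389 (@Lb.r r40 (@Lb.r r1699 (@Lb.g g7 (@Lb.g g6 (@Lb.g g5 (@Lb.d (nat_lit 16) (nat_lit 9) (nat_lit 64) (@Lb.t (@Lb.fp (nat_lit 9) t4300)))))))))))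
noncomputable def l21592 : Lb := (@Lb.d (nat_lit 0) (nat_lit 258) (nat_lit 129) (@Lb.g g8 (@Lb.g g9 (@Lb.g g10 (@Lb.g g11 (@Lb.r r580 (@Lb.r r327 (@Lb.r r2666 (@Lb.r r2665 (@Lb.r r548 (@Lb.d (nat_lit 33) (nat_lit 1) (nat_lit 161) (@Lb.fm (nat_lit 9) t3071))))))))))))
noncomputable def l21593 : Lb := (@Lb.d (nat_lit 134) (nat_lit 0) (nat_lit 73) (@Lb.g g8 (@Lb.g g9 (@Lb.g g10 (@Lb.g g11 (@Lb.r r419 (@Lb.r r2644 (@Lb.r r106 (@Lb.r r25 (@Lb.d (nat_lit 408) (nat_lit 9) (nat_lit 354) (@Lb.fp (nat_lit 9) t2501)))))))))))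
noncomputable def l21594 : Lb := (@Lb.d (nat_lit 0) (nat_lit 256) (nat_lit 128) (@Lb.g g9 (@Lb.g g11 (@Lb.r r2471 (@Lb.r r1096 (@Lb.r r2646 (@Lb.r r409 (@Lb.d (nat_lit 282) (nat_lit 4) (nat_lit 34) (@Lb.fp (nat_lit 3) t450)))))))))
noncomputable def l21595 : Lb := (@Lb.d (nat_lit 34) (nat_lit 2) (nat_lit 128) (@Lb.g g8 (@Lb.g g9 (@Lb.g g11 (@Lb.r r406 (@Lb.r r1643 (@Lb.r r97 (@Lb.r r1560 (@Lb.d (nat_lit 341) (nat_lit 102) (nat_lit 657) (@Lb.t (@Lb.fm (nat_lit 9) t4301)))))))))))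
noncomputable def l21596 : Lb := (@Lb.d (nat_lit 0) (nat_lit 0) (nat_lit 128) (@Lb.g g9 (@Lb.g g11 (@Lb.r r2471 (@Lb.r r1096 (@Lb.r r2646 (@Lb.r r409 (@Lb.d (nat_lit 272) (nat_lit 5) (nat_lit 34) (@Lb.fp (nat_lit 3) t450)))))))))
noncomputable def l21597 : Lb := (@Lb.d (nat_lit 0) (nat_lit 0) (nat_lit 129) (@Lb.g g8 (@Lb.g g10 (@Lb.g g11 (@Lb.r r586 (@Lb.r r1611 (@Lb.r r1633 (@Lb.r r1608 (@Lb.d (nat_lit 102) (nat_lit 1) (nat_lit 386) (@Lb.t (@Lb.fp (nat_lit 9) t1741)))))))))))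
noncomputable def l21598 : Lb := (@Lb.d (nat_lit 4) (nat_lit 5) (nat_lit 0) (@Lb.g g8 (@Lb.g g9 (@Lb.g g10 (@Lb.r r1706 (@Lb.r r1451 (@Lb.r r2457 (@Lb.r r2436 (@Lb.d (nat_lit 617) (nat_lit 129) (nat_lit 410) (@Lb.t (@Lb.fp (nat_lit 9) t4302)))))))))))
noncomputable def l21599 : Lb := (@Lb.r r322 (@Lb.d (nat_lit 545) (nat_lit 512) (nat_lit 576) (@Lb.g g4 (@Lb.g g9 (@Lb.g g11 (@Lb.r r1426 (@Lb.r r1633 (@Lb.d (nat_lit 8) (nat_lit 66) (nat_lit 384) (@Lb.t (@Lb.fp (nat_lit 9) t3136))))))))))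
noncomputable def l21600 : Lb := (@Lb.d (nat_lit 9) (nat_lit 1) (nat_lit 2) (@Lb.g g8 (@Lb.g g9 (@Lb.g g10 (@Lb.g g11 (@Lb.r r427 (@Lb.r r388 (@Lb.r r70 (@Lb.r r153 (@Lb.r r132 (@Lb.d (nat_lit 10) (nat_lit 8) (nat_lit 153) (@Lb.fp (nat_lit 9) t1149))))))))))))
noncomputable def l21601 : Lb := (@Lb.d (nat_lit 10) (nat_lit 325) (nat_lit 513) (@Lb.r r82 (@Lb.r r1425 (@Lb.g g11 (@Lb.g g6 (@Lb.d (nat_lit 0) (nat_lit 4) (nat_lit 262) (@Lb.r r529 (@Lb.fp (nat_lit 3) t296))))))))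
noncomputable def l21602 : Lb := (@Lb.r r97 (@Lb.r r1106 (@Lb.r r145 (@Lb.d (nat_lit 546) (nat_lit 0) (nat_lit 18) (@Lb.fm (nat_lit 1) t246)))))
noncomputable def l21603 : Lb := (@Lb.r r70 (@Lb.r r263 (@Lb.d (nat_lit 6) (nat_lit 257) (nat_lit 0) (@Lb.g g8 (@Lb.g g9 (@Lb.r r1315 (@Lb.r r1122 (@Lb.r r2088 (@Lb.d (nat_lit 262) (nat_lit 64) (nat_lit 0) (@Lb.fp (nat_lit 3) t1751))))))))))
noncomputable def l21604 : Lb := (@Lb.r r275 (@Lb.d (nat_lit 26) (nat_lit 264) (nat_lit 2) (@Lb.g g8 (@Lb.g g5 (@Lb.g g10 (@Lb.r r2563 (@Lb.r r2458 (@Lb.r r1412 (@Lb.d (nat_lit 361) (nat_lit 144) (nat_lit 298) (@Lb.t (@Lb.fp (nat_lit 9) t4303)))))))))))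
noncomputable def l21605 : Lb := (@Lb.d (nat_lit 0) (nat_lit 522) (nat_lit 0) (@Lb.g g9 (@Lb.r r2198 (@Lb.r r2137 (@Lb.d (nat_lit 297) (nat_lit 134) (nat_lit 16) (@Lb.t (@Lb.fm (nat_lit 3) t246)))))))
noncomputable def l21606 : Lb := (@Lb.d (nat_lit 8) (nat_lit 265) (nat_lit 1) (@Lb.g g9 (@Lb.g g10 (@Lb.g g11 (@Lb.r r419 (@Lb.r r98 (@Lb.d (nat_lit 2) (nat_lit 4) (nat_lit 136) (@Lb.t (@Lb.fm (nat_lit 9) t546)))))))))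
noncomputable def l21607 : Lb := (@Lb.r r323 (@Lb.d (nat_lit 1) (nat_lit 514) (nat_lit 0) (@Lb.g g8 (@Lb.g g9 (@Lb.g g10 (@Lb.r r427 (@Lb.r r106 (@Lb.r r25 (@Lb.d (nat_lit 276) (nat_lit 137) (nat_lit 18) (@Lb.t (@Lb.fm (nat_lit 9) t4304)))))))))))
noncomputable def l21608 : Lb := (@Lb.r r263 (@Lb.d (nat_lit 2) (nat_lit 514) (nat_lit 0) (@Lb.g g8 (@Lb.g g9 (@Lb.r r1109 (@Lb.r r2212 (@Lb.r r390 (@Lb.r r2627 (@Lb.d (nat_lit 320) (nat_lit 34) (nat_lit 128) (@Lb.fm (nat_lit 3) t4305))))))))))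
noncomputable def l21609 : Lb := (@Lb.d (nat_lit 641) (nat_lit 290) (nat_lit 4) (@Lb.r r2567 (@Lb.r r1448 (@Lb.r r89 (@Lb.g g10 (@Lb.g g4 (@Lb.d (nat_lit 6) (nat_lit 0) (nat_lit 21) (@Lb.r r387 (@Lb.r r145 (@Lb.fp (nat_lit 3) t4306))))))))))
noncomputable def l21610 : Lb := (@Lb.d (nat_lit 160) (nat_lit 0) (nat_lit 128) (@Lb.g g10 (@Lb.g g11 (@Lb.r r264 (@Lb.r r279 (@Lb.r r593 (@Lb.r r418 (@Lb.d (nat_lit 258) (nat_lit 66) (nat_lit 660) (@Lb.fm (nat_lit 3) t3766)))))))))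
noncomputable def l21611 : Lb := (@Lb.d (nat_lit 2) (nat_lit 8) (nat_lit 128) (@Lb.g g8 (@Lb.g g10 (@Lb.g g11 (@Lb.r r2715 (@Lb.r r81 (@Lb.r r162 (@Lb.r r2584 (@Lb.d (nat_lit 585) (nat_lit 37) (nat_lit 386) (@Lb.t (@Lb.fp (nat_lit 9) t1855)))))))))))
noncomputable def l21612 : Lb := (@Lb.d (nat_lit 33) (nat_lit 258) (nat_lit 128) (@Lb.g g8 (@Lb.g g9 (@Lb.g g11 (@Lb.r r1301 (@Lb.r r363 (@Lb.r r582 (@Lb.r r2180 (@Lb.d (nat_lit 98) (nat_lit 169) (nat_lit 38) (@Lb.t (@Lb.fm (nat_lit 9) t4307)))))))))))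
noncomputable def l21613 : Lb := (@Lb.d (nat_lit 33) (nat_lit 514) (nat_lit 130) (@Lb.g g8 (@Lb.g g9 (@Lb.g g10 (@Lb.g g11 (@Lb.r r2699 (@Lb.r r657 (@Lb.r r2714 (@Lb.r r2180 (@Lb.d (nat_lit 678) (nat_lit 40) (nat_lit 545) (@Lb.fp (nat_lit 9) t4308)))))))))))
noncomputable def l21614 : Lb := (@Lb.d (nat_lit 33) (nat_lit 258) (nat_lit 128) (@Lb.g g8 (@Lb.g g9 (@Lb.g g11 (@Lb.r r2411 (@Lb.r r146 (@Lb.r r1621 (@Lb.r r2468 (@Lb.d (nat_lit 612) (nat_lit 170) (nat_lit 600) (@Lb.t (@Lb.fp (nat_lit 9) t2113)))))))))))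
noncomputable def l21615 : Lb := (@Lb.d (nat_lit 649) (nat_lit 130) (nat_lit 553) (@Lb.r r24 (@Lb.r r579 (@Lb.r r1346 (@Lb.g g7 (@Lb.g g6 (@Lb.g g9 (@Lb.d (nat_lit 8) (nat_lit 2) (nat_lit 133) (@Lb.t (@Lb.fm (nat_lit 9) t225))))))))))
noncomputable def l21616 : Lb := (@Lb.d (nat_lit 160) (nat_lit 512) (nat_lit 37) (@Lb.g g6 (@Lb.g g11 (@Lb.r r24 (@Lb.r r405 (@Lb.r r291 (@Lb.d (nat_lit 0) (nat_lit 66) (nat_lit 424) (@Lb.fm (nat_lit 3) t311))))))))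
noncomputable def l21617 : Lb := (@Lb.d (nat_lit 33) (nat_lit 512) (nat_lit 129) (@Lb.r r154 (@Lb.r r404 (@Lb.r r363 (@Lb.r r353 (@Lb.g g7 (@Lb.g g4 (@Lb.d (nat_lit 5) (nat_lit 0) (nat_lit 64) (@Lb.fm (nat_lit 3) t51)))))))))
noncomputable def l21618 : Lb := (@Lb.d (nat_lit 642) (nat_lit 640) (nat_lit 553) (@Lb.r r24 (@Lb.r r579 (@Lb.r r1346 (@Lb.g g7 (@Lb.g g6 (@Lb.g g9 (@Lb.d (nat_lit 0) (nat_lit 0) (nat_lit 133) (@Lb.t (@Lb.fm (nat_lit 9) t4309))))))))))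
noncomputable def l21619 : Lb := (@Lb.d (nat_lit 130) (nat_lit 578) (nat_lit 1) (@Lb.g g8 (@Lb.g g5 (@Lb.g g10 (@Lb.r r1683 (@Lb.r r1178 (@Lb.r r392 (@Lb.d (nat_lit 341) (nat_lit 96) (nat_lit 74) (@Lb.t (@Lb.fm (nat_lit 9) t4310))))))))))
noncomputable def l21620 : Lb := (@Lb.d (nat_lit 42) (nat_lit 0) (nat_lit 128) (@Lb.g g8 (@Lb.g g11 (@Lb.r r1618 (@Lb.r r1429 (@Lb.r r1643 (@Lb.r r548 (@Lb.d (nat_lit 360) (nat_lit 18) (nat_lit 338) (@Lb.fp (nat_lit 3) t473)))))))))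
noncomputable def l21621 : Lb := (@Lb.d (nat_lit 34) (nat_lit 512) (nat_lit 128) (@Lb.g g8 (@Lb.g g11 (@Lb.r r545 (@Lb.r r1315 (@Lb.r r582 (@Lb.r r2180 (@Lb.d (nat_lit 166) (nat_lit 160) (nat_lit 82) (@Lb.fp (nat_lit 3) t351)))))))))
noncomputable def l21622 : Lb := (@Lb.d (nat_lit 6) (nat_lit 258) (nat_lit 42) (@Lb.r r609 (@Lb.r r619 (@Lb.r r584 (@Lb.r r326 (@Lb.g g7 (@Lb.g g6 (@Lb.g g4 (@Lb.d (nat_lit 1) (nat_lit 0) (nat_lit 65) (@Lb.t (@Lb.fm (nat_lit 9) t74)))))))))))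
noncomputable def l21623 : Lb := (@Lb.d (nat_lit 37) (nat_lit 533) (nat_lit 70) (@Lb.r r593 (@Lb.r r2710 (@Lb.r r347 (@Lb.r r328 (@Lb.g g7 (@Lb.g g6 (@Lb.g g5 (@Lb.d (nat_lit 16) (nat_lit 2) (nat_lit 128) (@Lb.t (@Lb.fp (nat_lit 9) t731)))))))))))
noncomputable def l21624 : Lb := (@Lb.d (nat_lit 1) (nat_lit 0) (nat_lit 128) (@Lb.g g8 (@Lb.g g11 (@Lb.r r353 (@Lb.r r658 (@Lb.r r1415 (@Lb.r r2628 (@Lb.d (nat_lit 426) (nat_lit 128) (nat_lit 426) (@Lb.fm (nat_lit 3) t1575)))))))))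
noncomputable def l21625 : Lb := (@Lb.d (nat_lit 42) (nat_lit 512) (nat_lit 128) (@Lb.g g8 (@Lb.g g11 (@Lb.r r1618 (@Lb.r r1429 (@Lb.r r1643 (@Lb.r r548 (@Lb.d (nat_lit 360) (nat_lit 18) (nat_lit 404) (@Lb.fp (nat_lit 3) t473)))))))))
noncomputable def l21626 : Lb := (@Lb.d (nat_lit 6) (nat_lit 514) (nat_lit 42) (@Lb.r r609 (@Lb.r r619 (@Lb.r r584 (@Lb.r r326 (@Lb.g g7 (@Lb.g g6 (@Lb.d (nat_lit 0) (nat_lit 0) (nat_lit 65) (@Lb.fp (nat_lit 3) t68)))))))))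
noncomputable def l21627 : Lb := (@Lb.d (nat_lit 2) (nat_lit 512) (nat_lit 65) (@Lb.g g8 (@Lb.g g9 (@Lb.g g10 (@Lb.g g7 (@Lb.r r418 (@Lb.r r292 (@Lb.r r405 (@Lb.r r1060 (@Lb.d (nat_lit 609) (nat_lit 90) (nat_lit 41) (@Lb.fp (nat_lit 9) t2118)))))))))))
noncomputable def l21628 : Lb := (@Lb.r r273 (@Lb.r r322 (@Lb.d (nat_lit 2) (nat_lit 288) (nat_lit 580) (@Lb.g g8 (@Lb.g g7 (@Lb.r r280 (@Lb.r r101 (@Lb.r r146 (@Lb.d (nat_lit 528) (nat_lit 72) (nat_lit 546) (@Lb.fm (nat_lit 3) t4311))))))))))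
noncomputable def l21629 : Lb := (@Lb.d (nat_lit 102) (nat_lit 262) (nat_lit 322) (@Lb.r r617 (@Lb.r r548 (@Lb.r r2475 (@Lb.g g10 (@Lb.g g5 (@Lb.d (nat_lit 0) (nat_lit 10) (nat_lit 10) (@Lb.r r291 (@Lb.fm (nat_lit 3) t4312)))))))))
noncomputable def l21630 : Lb := (@Lb.d (nat_lit 105) (nat_lit 88) (nat_lit 262) (@Lb.r r597 (@Lb.r r296 (@Lb.r r418 (@Lb.g g11 (@Lb.g g5 (@Lb.d (nat_lit 0) (nat_lit 18) (nat_lit 264) (@Lb.r r578 (@Lb.fp (nat_lit 3) t4313)))))))))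
noncomputable def l21631 : Lb := (@Lb.d (nat_lit 2) (nat_lit 613) (nat_lit 581) (@Lb.r r101 (@Lb.r r24 (@Lb.g g9 (@Lb.t (@Lb.fp (nat_lit 3) t1150))))))
noncomputable def l21632 : Lb := (@Lb.r r82 (@Lb.r r275 (@Lb.d (nat_lit 2) (nat_lit 1) (nat_lit 0) (@Lb.g g8 (@Lb.g g5 (@Lb.r r2315 (@Lb.r r98 (@Lb.r r24 (@Lb.d (nat_lit 266) (nat_lit 2) (nat_lit 64) (@Lb.fm (nat_lit 3) t771))))))))))
noncomputable def l21633 : Lb := (@Lb.d (nat_lit 2) (nat_lit 258) (nat_lit 66) (@Lb.g g8 (@Lb.g g9 (@Lb.g g10 (@Lb.g g11 (@Lb.r r2410 (@Lb.r r387 (@Lb.r r25 (@Lb.d (nat_lit 9) (nat_lit 149) (nat_lit 390) (@Lb.fp (nat_lit 9) t51))))))))))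
noncomputable def l21634 : Lb := (@Lb.r r323 (@Lb.d (nat_lit 32) (nat_lit 512) (nat_lit 2) (@Lb.g g10 (@Lb.r r584 (@Lb.r r299 (@Lb.r r1425 (@Lb.r r402 (@Lb.d (nat_lit 2) (nat_lit 26) (nat_lit 420) (@Lb.t (@Lb.fp (nat_lit 3) t188))))))))))
noncomputable def l21635 : Lb := (@Lb.d (nat_lit 32) (nat_lit 258) (nat_lit 73) (@Lb.g g9 (@Lb.g g10 (@Lb.g g11 (@Lb.r r2709 (@Lb.r r1380 (@Lb.r r2715 (@Lb.r r1622 (@Lb.d (nat_lit 417) (nat_lit 42) (nat_lit 513) (@Lb.t (@Lb.fp (nat_lit 9) t564)))))))))))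
noncomputable def l21636 : Lb := (@Lb.d (nat_lit 0) (nat_lit 256) (nat_lit 128) (@Lb.g g10 (@Lb.g g11 (@Lb.r r387 (@Lb.d (nat_lit 0) (nat_lit 0) (nat_lit 66) (@Lb.fm (nat_lit 3) t2))))))
noncomputable def l21637 : Lb := (@Lb.d (nat_lit 0) (nat_lit 0) (nat_lit 128) (@Lb.g g10 (@Lb.g g11 (@Lb.r r387 (@Lb.d (nat_lit 610) (nat_lit 0) (nat_lit 594) (@Lb.fm (nat_lit 3) t698))))))
noncomputable def l21638 : Lb := (@Lb.r r21 (@Lb.d (nat_lit 16) (nat_lit 256) (nat_lit 0) (@Lb.g g8 (@Lb.g g10 (@Lb.g g7 (@Lb.r r402 (@Lb.r r1641 (@Lb.r r2596 (@Lb.d (nat_lit 386) (nat_lit 80) (nat_lit 128) (@Lb.t (@Lb.fp (nat_lit 9) t2652)))))))))))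
noncomputable def l21639 : Lb := (@Lb.d (nat_lit 32) (nat_lit 264) (nat_lit 64) (@Lb.g g10 (@Lb.g g11 (@Lb.r r360 (@Lb.r r2567 (@Lb.r r1633 (@Lb.r r338 (@Lb.d (nat_lit 320) (nat_lit 22) (nat_lit 70) (@Lb.fp (nat_lit 3) t322)))))))))
noncomputable def l21640 : Lb := (@Lb.d (nat_lit 128) (nat_lit 2) (nat_lit 74) (@Lb.g g9 (@Lb.g g10 (@Lb.g g11 (@Lb.r r2193 (@Lb.r r662 (@Lb.r r2376 (@Lb.r r1671 (@Lb.d (nat_lit 168) (nat_lit 68) (nat_lit 520) (@Lb.t (@Lb.fp (nat_lit 9) t564)))))))))))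
noncomputable def l21641 : Lb := (@Lb.d (nat_lit 513) (nat_lit 522) (nat_lit 20) (@Lb.r r24 (@Lb.r r2341 (@Lb.r r354 (@Lb.g g11 (@Lb.g g5 (@Lb.d (nat_lit 0) (nat_lit 32) (nat_lit 324) (@Lb.r r578 (@Lb.fp (nat_lit 3) t750)))))))))
noncomputable def l21642 : Lb := (@Lb.d (nat_lit 657) (nat_lit 522) (nat_lit 389) (@Lb.r r24 (@Lb.r r1125 (@Lb.r r386 (@Lb.g g11 (@Lb.g g6 (@Lb.d (nat_lit 0) (nat_lit 0) (nat_lit 385) (@Lb.r r529 (@Lb.fm (nat_lit 3) t823)))))))))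
noncomputable def l21643 : Lb := (@Lb.r r90 (@Lb.d (nat_lit 36) (nat_lit 512) (nat_lit 128) (@Lb.g g8 (@Lb.g g9 (@Lb.g g11 (@Lb.r r1315 (@Lb.r r2646 (@Lb.r r1425 (@Lb.r r1572 (@Lb.d (nat_lit 384) (nat_lit 84) (nat_lit 82) (@Lb.t (@Lb.fm (nat_lit 9) t1857))))))))))))
noncomputable def l21644 : Lb := (@Lb.r r322 (@Lb.d (nat_lit 36) (nat_lit 290) (nat_lit 128) (@Lb.g g8 (@Lb.g g9 (@Lb.g g11 (@Lb.r r1430 (@Lb.r r2664 (@Lb.d (nat_lit 360) (nat_lit 90) (nat_lit 682) (@Lb.t (@Lb.fm (nat_lit 9) t4314))))))))))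
noncomputable def l21645 : Lb := (@Lb.d (nat_lit 0) (nat_lit 265) (nat_lit 65) (@Lb.g g8 (@Lb.g g9 (@Lb.g g10 (@Lb.g g7 (@Lb.r r386 (@Lb.r r25 (@Lb.d (nat_lit 9) (nat_lit 5) (nat_lit 10) (@Lb.fp (nat_lit 9) t4315)))))))))
noncomputable def l21646 : Lb := (@Lb.d (nat_lit 65) (nat_lit 650) (nat_lit 6) (@Lb.r r24 (@Lb.r r2587 (@Lb.r r1361 (@Lb.g g10 (@Lb.d (nat_lit 32) (nat_lit 4) (nat_lit 18) (@Lb.r r387 (@Lb.t (@Lb.fp (nat_lit 3) t4316)))))))))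
noncomputable def l21647 : Lb := (@Lb.r r70 (@Lb.d (nat_lit 8) (nat_lit 2) (nat_lit 0) (@Lb.g g8 (@Lb.g g9 (@Lb.r r1061 (@Lb.r r404 (@Lb.r r1291 (@Lb.r r1410 (@Lb.d (nat_lit 0) (nat_lit 130) (nat_lit 530) (@Lb.fm (nat_lit 3) t4317))))))))))
noncomputable def l21648 : Lb := (@Lb.d (nat_lit 144) (nat_lit 0) (nat_lit 130) (@Lb.g g8 (@Lb.g g9 (@Lb.g g10 (@Lb.g g11 (@Lb.r r2327 (@Lb.r r1689 (@Lb.r r1626 (@Lb.r r2648 (@Lb.d (nat_lit 105) (nat_lit 166) (nat_lit 425) (@Lb.fm (nat_lit 9) t1101)))))))))))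
noncomputable def l21649 : Lb := (@Lb.d (nat_lit 32) (nat_lit 0) (nat_lit 73) (@Lb.g g10 (@Lb.g g11 (@Lb.r r289 (@Lb.r r1380 (@Lb.r r2715 (@Lb.r r2634 (@Lb.d (nat_lit 337) (nat_lit 10) (nat_lit 257) (@Lb.fm (nat_lit 3) t40)))))))))
noncomputable def l21650 : Lb := (@Lb.r r81 (@Lb.d (nat_lit 138) (nat_lit 0) (nat_lit 41) (@Lb.g g8 (@Lb.g g6 (@Lb.r r661 (@Lb.r r663 (@Lb.r r360 (@Lb.d (nat_lit 165) (nat_lit 42) (nat_lit 20) (@Lb.fp (nat_lit 3) t150)))))))))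
noncomputable def l21651 : Lb := (@Lb.d (nat_lit 4) (nat_lit 646) (nat_lit 32) (@Lb.r r609 (@Lb.r r619 (@Lb.r r584 (@Lb.g g7 (@Lb.g g10 (@Lb.g g5 (@Lb.d (nat_lit 36) (nat_lit 1) (nat_lit 65) (@Lb.t (@Lb.fp (nat_lit 9) t42))))))))))
noncomputable def l21652 : Lb := (@Lb.r r82 (@Lb.d (nat_lit 128) (nat_lit 514) (nat_lit 128) (@Lb.g g8 (@Lb.g g9 (@Lb.g g11 (@Lb.r r2393 (@Lb.r r1443 (@Lb.r r98 (@Lb.r r388 (@Lb.d (nat_lit 325) (nat_lit 8) (nat_lit 170) (@Lb.t (@Lb.fm (nat_lit 9) t4318))))))))))))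
noncomputable def l21653 : Lb := (@Lb.r r21 (@Lb.r r70 (@Lb.d (nat_lit 656) (nat_lit 256) (nat_lit 64) (@Lb.g g4 (@Lb.g g11 (@Lb.r r2711 (@Lb.r r2401 (@Lb.r r1170 (@Lb.d (nat_lit 20) (nat_lit 1) (nat_lit 32) (@Lb.fm (nat_lit 3) t299))))))))))
noncomputable def l21654 : Lb := (@Lb.r r323 (@Lb.d (nat_lit 2) (nat_lit 265) (nat_lit 1) (@Lb.g g8 (@Lb.g g9 (@Lb.g g10 (@Lb.r r331 (@Lb.r r2217 (@Lb.r r356 (@Lb.r r586 (@Lb.d (nat_lit 554) (nat_lit 73) (nat_lit 329) (@Lb.t (@Lb.fp (nat_lit 9) t2301))))))))))))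
noncomputable def l21655 : Lb := (@Lb.d (nat_lit 133) (nat_lit 258) (nat_lit 130) (@Lb.g g8 (@Lb.g g9 (@Lb.g g10 (@Lb.g g11 (@Lb.r r1443 (@Lb.r r2341 (@Lb.r r148 (@Lb.r r1094 (@Lb.r r2180 (@Lb.d (nat_lit 33) (nat_lit 133) (nat_lit 666) (@Lb.fm (nat_lit 9) t5))))))))))))
noncomputable def l21656 : Lb := (@Lb.r r82 (@Lb.d (nat_lit 2) (nat_lit 16) (nat_lit 0) (@Lb.g g8 (@Lb.g g9 (@Lb.g g11 (@Lb.r r2659 (@Lb.r r1416 (@Lb.r r2474 (@Lb.r r1177 (@Lb.d (nat_lit 21) (nat_lit 6) (nat_lit 33) (@Lb.t (@Lb.fp (nat_lit 9) t4319))))))))))))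
noncomputable def l21657 : Lb := (@Lb.d (nat_lit 129) (nat_lit 522) (nat_lit 72) (@Lb.g g8 (@Lb.g g9 (@Lb.g g11 (@Lb.r r1346 (@Lb.r r2404 (@Lb.r r411 (@Lb.r r1557 (@Lb.d (nat_lit 644) (nat_lit 169) (nat_lit 273) (@Lb.t (@Lb.fm (nat_lit 9) t4320)))))))))))
noncomputable def l21658 : Lb := (@Lb.d (nat_lit 161) (nat_lit 528) (nat_lit 128) (@Lb.g g8 (@Lb.g g9 (@Lb.g g11 (@Lb.r r617 (@Lb.r r1430 (@Lb.r r611 (@Lb.r r260 (@Lb.d (nat_lit 66) (nat_lit 89) (nat_lit 594) (@Lb.t (@Lb.fp (nat_lit 9) t599)))))))))))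
noncomputable def l21659 : Lb := (@Lb.d (nat_lit 0) (nat_lit 258) (nat_lit 130) (@Lb.g g9 (@Lb.g g10 (@Lb.g g11 (@Lb.r r586 (@Lb.r r584 (@Lb.r r1323 (@Lb.r r1313 (@Lb.d (nat_lit 9) (nat_lit 33) (nat_lit 640) (@Lb.t (@Lb.fm (nat_lit 9) t51)))))))))))
noncomputable def l21660 : Lb := (@Lb.d (nat_lit 2) (nat_lit 4) (nat_lit 5) (@Lb.g g8 (@Lb.g g9 (@Lb.g g10 (@Lb.g g11 (@Lb.r r1367 (@Lb.r r1429 (@Lb.r r1686 (@Lb.r r24 (@Lb.d (nat_lit 81) (nat_lit 161) (nat_lit 677) (@Lb.fp (nat_lit 9) t538)))))))))))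
noncomputable def l21661 : Lb := (@Lb.d (nat_lit 406) (nat_lit 321) (nat_lit 678) (@Lb.r r2469 (@Lb.r r1688 (@Lb.r r2466 (@Lb.g g11 (@Lb.g g6 (@Lb.g g5 (@Lb.g g4 (@Lb.d (nat_lit 1) (nat_lit 1) (nat_lit 129) (@Lb.fp (nat_lit 9) t827))))))))))
noncomputable def l21662 : Lb := (@Lb.d (nat_lit 0) (nat_lit 326) (nat_lit 385) (@Lb.r r68 (@Lb.r r602 (@Lb.r r584 (@Lb.g g5 (@Lb.d (nat_lit 0) (nat_lit 129) (nat_lit 0) (@Lb.t (@Lb.fp (nat_lit 3) t3971))))))))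
noncomputable def l21663 : Lb := (@Lb.d (nat_lit 0) (nat_lit 577) (nat_lit 384) (@Lb.r r68 (@Lb.r r602 (@Lb.r r584 (@Lb.g g5 (@Lb.d (nat_lit 0) (nat_lit 129) (nat_lit 0) (@Lb.t (@Lb.fp (nat_lit 3) t4321))))))))
noncomputable def l21664 : Lb := (@Lb.d (nat_lit 150) (nat_lit 258) (nat_lit 33) (@Lb.r r587 (@Lb.r r580 (@Lb.r r410 (@Lb.g g7 (@Lb.g g5 (@Lb.d (nat_lit 64) (nat_lit 1) (nat_lit 68) (@Lb.r r98 (@Lb.fm (nat_lit 3) t242)))))))))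
noncomputable def l21665 : Lb := (@Lb.d (nat_lit 1) (nat_lit 277) (nat_lit 681) (@Lb.r r1317 (@Lb.r r2395 (@Lb.r r614 (@Lb.g g7 (@Lb.g g4 (@Lb.d (nat_lit 549) (nat_lit 0) (nat_lit 64) (@Lb.fp (nat_lit 3) t4322))))))))
noncomputable def l21666 : Lb := (@Lb.r r291 (@Lb.r r680 (@Lb.r r154 (@Lb.r r2133 (@Lb.r r164 (@Lb.d (nat_lit 129) (nat_lit 256) (nat_lit 640) (@Lb.fp (nat_lit 1) t3313)))))))
noncomputable def l21667 : Lb := (@Lb.r r21 (@Lb.d (nat_lit 2) (nat_lit 256) (nat_lit 130) (@Lb.g g8 (@Lb.g g10 (@Lb.g g11 (@Lb.r r602 (@Lb.r r1619 (@Lb.r r149 (@Lb.r r2340 (@Lb.d (nat_lit 548) (nat_lit 38) (nat_lit 344) (@Lb.t (@Lb.fp (nat_lit 9) t1954))))))))))))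
noncomputable def l21668 : Lb := (@Lb.d (nat_lit 42) (nat_lit 0) (nat_lit 72) (@Lb.g g8 (@Lb.g g11 (@Lb.r r614 (@Lb.r r1637 (@Lb.r r1428 (@Lb.d (nat_lit 358) (nat_lit 130) (nat_lit 330) (@Lb.fp (nat_lit 3) t2992))))))))
noncomputable def l21669 : Lb := (@Lb.d (nat_lit 42) (nat_lit 0) (nat_lit 0) (@Lb.g g4 (@Lb.r r426 (@Lb.r r1449 (@Lb.r r2472 (@Lb.d (nat_lit 408) (nat_lit 153) (nat_lit 394) (@Lb.t (@Lb.fp (nat_lit 3) t2428))))))))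
noncomputable def l21670 : Lb := (@Lb.r r21 (@Lb.d (nat_lit 385) (nat_lit 264) (nat_lit 130) (@Lb.g g8 (@Lb.g g10 (@Lb.g g11 (@Lb.r r1419 (@Lb.r r101 (@Lb.r r410 (@Lb.d (nat_lit 9) (nat_lit 154) (nat_lit 512) (@Lb.t (@Lb.fm (nat_lit 9) t2889)))))))))))
noncomputable def l21671 : Lb := (@Lb.d (nat_lit 8) (nat_lit 38) (nat_lit 64) (@Lb.g g9 (@Lb.g g10 (@Lb.g g11 (@Lb.r r2599 (@Lb.r r386 (@Lb.r r1112 (@Lb.r r149 (@Lb.d (nat_lit 130) (nat_lit 2) (nat_lit 678) (@Lb.t (@Lb.fp (nat_lit 9) t4323)))))))))))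
noncomputable def l21672 : Lb := (@Lb.d (nat_lit 2) (nat_lit 258) (nat_lit 162) (@Lb.g g8 (@Lb.g g9 (@Lb.g g6 (@Lb.g g11 (@Lb.r r2667 (@Lb.r r97 (@Lb.r r2584 (@Lb.d (nat_lit 90) (nat_lit 164) (nat_lit 416) (@Lb.fp (nat_lit 9) t777))))))))))
noncomputable def l21673 : Lb := (@Lb.r r21 (@Lb.d (nat_lit 0) (nat_lit 0) (nat_lit 162) (@Lb.g g8 (@Lb.g g6 (@Lb.g g11 (@Lb.r r2635 (@Lb.r r145 (@Lb.r r2632 (@Lb.d (nat_lit 66) (nat_lit 0) (nat_lit 409) (@Lb.t (@Lb.fp (nat_lit 9) t777)))))))))))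
noncomputable def l21674 : Lb := (@Lb.d (nat_lit 0) (nat_lit 2) (nat_lit 162) (@Lb.g g8 (@Lb.g g9 (@Lb.g g6 (@Lb.g g11 (@Lb.r r2667 (@Lb.r r97 (@Lb.r r2584 (@Lb.d (nat_lit 90) (nat_lit 164) (nat_lit 416) (@Lb.fp (nat_lit 9) t777))))))))))
noncomputable def l21675 : Lb := (@Lb.d (nat_lit 8) (nat_lit 550) (nat_lit 64) (@Lb.g g9 (@Lb.g g10 (@Lb.g g11 (@Lb.r r2599 (@Lb.r r386 (@Lb.r r1112 (@Lb.r r149 (@Lb.d (nat_lit 132) (nat_lit 0) (nat_lit 678) (@Lb.t (@Lb.fp (nat_lit 9) t1738)))))))))))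
noncomputable def l21676 : Lb := (@Lb.d (nat_lit 2) (nat_lit 2) (nat_lit 128) (@Lb.g g8 (@Lb.g g9 (@Lb.g g10 (@Lb.g g11 (@Lb.r r2347 (@Lb.r r617 (@Lb.r r662 (@Lb.r r2120 (@Lb.d (nat_lit 98) (nat_lit 0) (nat_lit 100) (@Lb.fm (nat_lit 9) t506)))))))))))
noncomputable def l21677 : Lb := (@Lb.d (nat_lit 2) (nat_lit 514) (nat_lit 162) (@Lb.g g8 (@Lb.g g9 (@Lb.g g6 (@Lb.g g11 (@Lb.r r612 (@Lb.r r2311 (@Lb.r r97 (@Lb.r r1540 (@Lb.d (nat_lit 272) (nat_lit 100) (nat_lit 672) (@Lb.fp (nat_lit 9) t296)))))))))))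
noncomputable def l21678 : Lb := (@Lb.r r20 (@Lb.d (nat_lit 0) (nat_lit 545) (nat_lit 130) (@Lb.g g9 (@Lb.g g10 (@Lb.g g11 (@Lb.r r675 (@Lb.r r1634 (@Lb.r r1553 (@Lb.d (nat_lit 0) (nat_lit 98) (nat_lit 274) (@Lb.t (@Lb.fp (nat_lit 9) t919)))))))))))
noncomputable def l21679 : Lb := (@Lb.r r21 (@Lb.d (nat_lit 33) (nat_lit 40) (nat_lit 104) (@Lb.g g8 (@Lb.g g6 (@Lb.g g11 (@Lb.r r401 (@Lb.r r2343 (@Lb.r r1608 (@Lb.d (nat_lit 390) (nat_lit 134) (nat_lit 296) (@Lb.t (@Lb.fm (nat_lit 9) t919)))))))))))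
noncomputable def l21680 : Lb := (@Lb.r r85 (@Lb.r r327 (@Lb.d (nat_lit 10) (nat_lit 0) (nat_lit 40) (@Lb.g g8 (@Lb.g g10 (@Lb.r r1619 (@Lb.r r2581 (@Lb.r r552 (@Lb.d (nat_lit 324) (nat_lit 18) (nat_lit 322) (@Lb.fm (nat_lit 3) t1107))))))))))
noncomputable def l21681 : Lb := (@Lb.d (nat_lit 1) (nat_lit 666) (nat_lit 352) (@Lb.r r2308 (@Lb.r r2178 (@Lb.r r1291 (@Lb.r r292 (@Lb.g g7 (@Lb.g g9 (@Lb.g g4 (@Lb.d (nat_lit 1) (nat_lit 70) (nat_lit 64) (@Lb.t (@Lb.fp (nat_lit 9) t4324)))))))))))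
noncomputable def l21682 : Lb := (@Lb.d (nat_lit 646) (nat_lit 406) (nat_lit 297) (@Lb.r r1556 (@Lb.r r281 (@Lb.r r615 (@Lb.g g6 (@Lb.g g4 (@Lb.d (nat_lit 69) (nat_lit 4) (nat_lit 17) (@Lb.r r387 (@Lb.fp (nat_lit 3) t1738)))))))))
noncomputable def l21683 : Lb := (@Lb.r r82 (@Lb.d (nat_lit 33) (nat_lit 34) (nat_lit 128) (@Lb.g g8 (@Lb.g g9 (@Lb.g g11 (@Lb.r r1386 (@Lb.r r2715 (@Lb.r r1553 (@Lb.r r280 (@Lb.d (nat_lit 549) (nat_lit 5) (nat_lit 320) (@Lb.t (@Lb.fm (nat_lit 9) t4))))))))))))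
noncomputable def l21684 : Lb := (@Lb.r r70 (@Lb.d (nat_lit 4) (nat_lit 256) (nat_lit 128) (@Lb.g g8 (@Lb.g g9 (@Lb.g g11 (@Lb.r r2698 (@Lb.r r2601 (@Lb.r r2475 (@Lb.r r2440 (@Lb.d (nat_lit 278) (nat_lit 136) (nat_lit 153) (@Lb.t (@Lb.fp (nat_lit 9) t597))))))))))))
noncomputable def l21685 : Lb := (@Lb.r r82 (@Lb.d (nat_lit 4) (nat_lit 256) (nat_lit 64) (@Lb.g g8 (@Lb.g g9 (@Lb.g g7 (@Lb.r r2465 (@Lb.r r98 (@Lb.r r1096 (@Lb.d (nat_lit 546) (nat_lit 98) (nat_lit 530) (@Lb.t (@Lb.fp (nat_lit 9) t3159)))))))))))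
noncomputable def l21686 : Lb := (@Lb.d (nat_lit 16) (nat_lit 260) (nat_lit 65) (@Lb.g g8 (@Lb.g g9 (@Lb.g g10 (@Lb.g g7 (@Lb.r r2450 (@Lb.r r145 (@Lb.r r1048 (@Lb.d (nat_lit 522) (nat_lit 21) (nat_lit 550) (@Lb.fm (nat_lit 9) t3159))))))))))
noncomputable def l21687 : Lb := (@Lb.d (nat_lit 406) (nat_lit 338) (nat_lit 613) (@Lb.r r2648 (@Lb.r r97 (@Lb.r r2731 (@Lb.g g7 (@Lb.g g10 (@Lb.g g5 (@Lb.g g4 (@Lb.d (nat_lit 32) (nat_lit 1) (nat_lit 97) (@Lb.fp (nat_lit 9) t4325))))))))))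
noncomputable def l21688 : Lb := (@Lb.d (nat_lit 513) (nat_lit 529) (nat_lit 544) (@Lb.r r97 (@Lb.r r583 (@Lb.r r264 (@Lb.g g7 (@Lb.g g10 (@Lb.g g5 (@Lb.d (nat_lit 96) (nat_lit 6) (nat_lit 98) (@Lb.t (@Lb.fp (nat_lit 9) t4325))))))))))
noncomputable def l21689 : Lb := (@Lb.r r82 (@Lb.r r275 (@Lb.d (nat_lit 4) (nat_lit 394) (nat_lit 0) (@Lb.g g8 (@Lb.g g5 (@Lb.r r291 (@Lb.r r98 (@Lb.r r1096 (@Lb.d (nat_lit 546) (nat_lit 64) (nat_lit 66) (@Lb.fm (nat_lit 3) t3797))))))))))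
noncomputable def l21690 : Lb := (@Lb.r r70 (@Lb.d (nat_lit 2) (nat_lit 258) (nat_lit 128) (@Lb.g g8 (@Lb.g g9 (@Lb.g g11 (@Lb.r r2731 (@Lb.r r610 (@Lb.r r97 (@Lb.r r2200 (@Lb.d (nat_lit 340) (nat_lit 97) (nat_lit 277) (@Lb.t (@Lb.fp (nat_lit 9) t629))))))))))))
noncomputable def l21691 : Lb := (@Lb.r r82 (@Lb.d (nat_lit 0) (nat_lit 545) (nat_lit 64) (@Lb.g g4 (@Lb.g g9 (@Lb.g g11 (@Lb.r r2659 (@Lb.r r2438 (@Lb.r r341 (@Lb.d (nat_lit 134) (nat_lit 72) (nat_lit 618) (@Lb.t (@Lb.fp (nat_lit 9) t694)))))))))))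
noncomputable def l21692 : Lb := (@Lb.d (nat_lit 37) (nat_lit 512) (nat_lit 129) (@Lb.g g8 (@Lb.g g9 (@Lb.g g10 (@Lb.g g11 (@Lb.r r363 (@Lb.r r1410 (@Lb.r r1704 (@Lb.r r2649 (@Lb.d (nat_lit 98) (nat_lit 74) (nat_lit 102) (@Lb.fp (nat_lit 9) t4326)))))))))))
noncomputable def l21693 : Lb := (@Lb.r r70 (@Lb.d (nat_lit 2) (nat_lit 2) (nat_lit 128) (@Lb.g g8 (@Lb.g g9 (@Lb.g g11 (@Lb.r r2731 (@Lb.r r610 (@Lb.r r97 (@Lb.r r2200 (@Lb.d (nat_lit 338) (nat_lit 106) (nat_lit 276) (@Lb.t (@Lb.fp (nat_lit 9) t629))))))))))))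
noncomputable def l21694 : Lb := (@Lb.r r70 (@Lb.d (nat_lit 2) (nat_lit 514) (nat_lit 128) (@Lb.g g8 (@Lb.g g9 (@Lb.g g11 (@Lb.r r2731 (@Lb.r r610 (@Lb.r r97 (@Lb.r r2200 (@Lb.d (nat_lit 338) (nat_lit 96) (nat_lit 277) (@Lb.t (@Lb.fp (nat_lit 9) t629))))))))))))
noncomputable def l21695 : Lb := (@Lb.d (nat_lit 282) (nat_lit 389) (nat_lit 85) (@Lb.r r2198 (@Lb.r r1380 (@Lb.r r2715 (@Lb.g g6 (@Lb.g g9 (@Lb.g g4 (@Lb.d (nat_lit 2) (nat_lit 132) (nat_lit 2) (@Lb.t (@Lb.fm (nat_lit 9) t100))))))))))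
noncomputable def l21696 : Lb := (@Lb.d (nat_lit 2) (nat_lit 2) (nat_lit 2) (@Lb.g g8 (@Lb.g g9 (@Lb.g g10 (@Lb.g g11 (@Lb.r r1706 (@Lb.r r676 (@Lb.r r551 (@Lb.r r1557 (@Lb.r r1060 (@Lb.d (nat_lit 650) (nat_lit 65) (nat_lit 330) (@Lb.fp (nat_lit 9) t284))))))))))))
noncomputable def l21697 : Lb := (@Lb.d (nat_lit 0) (nat_lit 8) (nat_lit 65) (@Lb.r r24 (@Lb.r r579 (@Lb.g g10 (@Lb.g g5 (@Lb.d (nat_lit 4) (nat_lit 1) (nat_lit 2) (@Lb.r r387 (@Lb.fp (nat_lit 3) t238))))))))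
noncomputable def l21698 : Lb := (@Lb.r r323 (@Lb.d (nat_lit 2) (nat_lit 297) (nat_lit 34) (@Lb.g g8 (@Lb.g g9 (@Lb.g g10 (@Lb.r r595 (@Lb.r r337 (@Lb.r r1608 (@Lb.d (nat_lit 610) (nat_lit 24) (nat_lit 609) (@Lb.t (@Lb.fm (nat_lit 9) t1817)))))))))))
noncomputable def l21699 : Lb := (@Lb.d (nat_lit 2) (nat_lit 9) (nat_lit 1) (@Lb.g g8 (@Lb.g g9 (@Lb.g g10 (@Lb.g g11 (@Lb.r r683 (@Lb.r r648 (@Lb.r r2202 (@Lb.r r97 (@Lb.r r2084 (@Lb.d (nat_lit 545) (nat_lit 105) (nat_lit 673) (@Lb.fp (nat_lit 9) t4327))))))))))))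
noncomputable def l21700 : Lb := (@Lb.r r21 (@Lb.d (nat_lit 2) (nat_lit 0) (nat_lit 0) (@Lb.g g8 (@Lb.g g6 (@Lb.g g11 (@Lb.r r97 (@Lb.r r2632 (@Lb.d (nat_lit 354) (nat_lit 90) (nat_lit 170) (@Lb.t (@Lb.fp (nat_lit 9) t996))))))))))
noncomputable def l21701 : Lb := (@Lb.d (nat_lit 5) (nat_lit 521) (nat_lit 65) (@Lb.r r24 (@Lb.r r579 (@Lb.g g10 (@Lb.g g5 (@Lb.d (nat_lit 4) (nat_lit 1) (nat_lit 2) (@Lb.r r387 (@Lb.fp (nat_lit 3) t238))))))))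
noncomputable def l21702 : Lb := (@Lb.d (nat_lit 8) (nat_lit 514) (nat_lit 145) (@Lb.g g8 (@Lb.g g9 (@Lb.g g6 (@Lb.g g11 (@Lb.r r612 (@Lb.r r263 (@Lb.r r2145 (@Lb.r r516 (@Lb.d (nat_lit 2) (nat_lit 169) (nat_lit 672) (@Lb.fp (nat_lit 9) t296)))))))))))
noncomputable def l21703 : Lb := (@Lb.r r323 (@Lb.d (nat_lit 136) (nat_lit 2) (nat_lit 1) (@Lb.g g8 (@Lb.g g9 (@Lb.g g6 (@Lb.r r407 (@Lb.r r2145 (@Lb.r r1556 (@Lb.d (nat_lit 390) (nat_lit 169) (nat_lit 672) (@Lb.t (@Lb.fm (nat_lit 9) t296)))))))))))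
noncomputable def l21704 : Lb := (@Lb.d (nat_lit 402) (nat_lit 153) (nat_lit 610) (@Lb.r r101 (@Lb.r r24 (@Lb.r r1346 (@Lb.r r2707 (@Lb.g g7 (@Lb.g g6 (@Lb.d (nat_lit 0) (nat_lit 0) (nat_lit 133) (@Lb.fp (nat_lit 3) t1900)))))))))
noncomputable def l21705 : Lb := (@Lb.d (nat_lit 153) (nat_lit 514) (nat_lit 73) (@Lb.g g8 (@Lb.g g9 (@Lb.g g10 (@Lb.g g11 (@Lb.r r2730 (@Lb.r r1411 (@Lb.r r1177 (@Lb.r r2180 (@Lb.d (nat_lit 41) (nat_lit 153) (nat_lit 340) (@Lb.fm (nat_lit 9) t2228)))))))))))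
noncomputable def l21706 : Lb := (@Lb.d (nat_lit 9) (nat_lit 576) (nat_lit 32) (@Lb.r r82 (@Lb.r r275 (@Lb.g g9 (@Lb.d (nat_lit 0) (nat_lit 70) (nat_lit 0) (@Lb.r r291 (@Lb.r r98 (@Lb.t (@Lb.fp (nat_lit 3) t7)))))))))
noncomputable def l21707 : Lb := (@Lb.d (nat_lit 0) (nat_lit 292) (nat_lit 64) (@Lb.g g9 (@Lb.g g10 (@Lb.g g11 (@Lb.r r1447 (@Lb.r r578 (@Lb.r r1429 (@Lb.r r36 (@Lb.d (nat_lit 356) (nat_lit 162) (nat_lit 618) (@Lb.t (@Lb.fm (nat_lit 9) t898)))))))))))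
noncomputable def l21708 : Lb := (@Lb.d (nat_lit 2) (nat_lit 512) (nat_lit 0) (@Lb.g g8 (@Lb.g g7 (@Lb.r r1121 (@Lb.r r402 (@Lb.d (nat_lit 2) (nat_lit 0) (nat_lit 354) (@Lb.fp (nat_lit 3) t311)))))))
noncomputable def l21709 : Lb := (@Lb.d (nat_lit 128) (nat_lit 1) (nat_lit 64) (@Lb.g g9 (@Lb.g g11 (@Lb.r r170 (@Lb.r r264 (@Lb.r r391 (@Lb.r r529 (@Lb.d (nat_lit 98) (nat_lit 40) (nat_lit 73) (@Lb.fm (nat_lit 3) t51)))))))))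
noncomputable def l21710 : Lb := (@Lb.d (nat_lit 0) (nat_lit 34) (nat_lit 0) (@Lb.g g9 (@Lb.r r136 (@Lb.r r2714 (@Lb.r r1691 (@Lb.r r1668 (@Lb.d (nat_lit 522) (nat_lit 1) (nat_lit 0) (@Lb.t (@Lb.fm (nat_lit 3) t414)))))))))
noncomputable def l21711 : Lb := (@Lb.d (nat_lit 290) (nat_lit 261) (nat_lit 400) (@Lb.r r24 (@Lb.r r101 (@Lb.r r402 (@Lb.g g11 (@Lb.g g6 (@Lb.d (nat_lit 0) (nat_lit 0) (nat_lit 128) (@Lb.fm (nat_lit 3) t4328))))))))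
noncomputable def l21712 : Lb := (@Lb.d (nat_lit 545) (nat_lit 664) (nat_lit 336) (@Lb.r r2308 (@Lb.r r97 (@Lb.r r1291 (@Lb.r r404 (@Lb.g g7 (@Lb.g g10 (@Lb.g g5 (@Lb.g g4 (@Lb.d (nat_lit 1) (nat_lit 1) (nat_lit 150) (@Lb.fp (nat_lit 9) t2797)))))))))))
noncomputable def l21713 : Lb := (@Lb.d (nat_lit 8) (nat_lit 2) (nat_lit 128) (@Lb.g g9 (@Lb.g g11 (@Lb.r r134 (@Lb.r r584 (@Lb.r r299 (@Lb.r r289 (@Lb.d (nat_lit 5) (nat_lit 8) (nat_lit 130) (@Lb.fp (nat_lit 3) t119)))))))))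
noncomputable def l21714 : Lb := (@Lb.r r82 (@Lb.d (nat_lit 128) (nat_lit 528) (nat_lit 644) (@Lb.g g9 (@Lb.g g7 (@Lb.r r386 (@Lb.r r97 (@Lb.r r8 (@Lb.d (nat_lit 538) (nat_lit 10) (nat_lit 98) (@Lb.fm (nat_lit 3) t4329)))))))))
noncomputable def l21715 : Lb := (@Lb.d (nat_lit 161) (nat_lit 260) (nat_lit 2) (@Lb.g g8 (@Lb.g g9 (@Lb.g g6 (@Lb.r r407 (@Lb.r r97 (@Lb.r r536 (@Lb.d (nat_lit 72) (nat_lit 41) (nat_lit 128) (@Lb.t (@Lb.fp (nat_lit 9) t546))))))))))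
noncomputable def l21716 : Lb := (@Lb.d (nat_lit 161) (nat_lit 4) (nat_lit 9) (@Lb.g g8 (@Lb.g g9 (@Lb.g g6 (@Lb.r r407 (@Lb.r r97 (@Lb.r r536 (@Lb.d (nat_lit 69) (nat_lit 40) (nat_lit 128) (@Lb.t (@Lb.fp (nat_lit 9) t2791))))))))))
noncomputable def l21717 : Lb := (@Lb.d (nat_lit 261) (nat_lit 8) (nat_lit 69) (@Lb.r r21 (@Lb.r r100 (@Lb.r r386 (@Lb.r r1435 (@Lb.g g7 (@Lb.g g6 (@Lb.g g5 (@Lb.d (nat_lit 0) (nat_lit 1) (nat_lit 65) (@Lb.t (@Lb.fm (nat_lit 9) t415)))))))))))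
noncomputable def l21718 : Lb := (@Lb.d (nat_lit 5) (nat_lit 0) (nat_lit 64) (@Lb.g g4 (@Lb.g g7 (@Lb.d (nat_lit 1) (nat_lit 1) (nat_lit 148) (@Lb.fm (nat_lit 3) t2)))))
noncomputable def l21719 : Lb := (@Lb.d (nat_lit 578) (nat_lit 401) (nat_lit 346) (@Lb.r r82 (@Lb.r r595 (@Lb.r r1429 (@Lb.g g7 (@Lb.g g5 (@Lb.g g4 (@Lb.d (nat_lit 1) (nat_lit 1) (nat_lit 0) (@Lb.r r98 (@Lb.t (@Lb.fm (nat_lit 9) t1799)))))))))))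
noncomputable def l21720 : Lb := (@Lb.d (nat_lit 2) (nat_lit 516) (nat_lit 129) (@Lb.g g8 (@Lb.g g9 (@Lb.g g10 (@Lb.g g11 (@Lb.r r599 (@Lb.r r682 (@Lb.r r145 (@Lb.d (nat_lit 81) (nat_lit 17) (nat_lit 129) (@Lb.fp (nat_lit 9) t5))))))))))
noncomputable def l21721 : Lb := (@Lb.d (nat_lit 513) (nat_lit 0) (nat_lit 586) (@Lb.r r24 (@Lb.r r101 (@Lb.r r2706 (@Lb.r r2435 (@Lb.g g7 (@Lb.g g6 (@Lb.d (nat_lit 0) (nat_lit 0) (nat_lit 68) (@Lb.fp (nat_lit 3) t721)))))))))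
noncomputable def l21722 : Lb := (@Lb.d (nat_lit 21) (nat_lit 417) (nat_lit 329) (@Lb.r r2321 (@Lb.r r1387 (@Lb.r r264 (@Lb.g g7 (@Lb.g g10 (@Lb.g g5 (@Lb.d (nat_lit 84) (nat_lit 1) (nat_lit 65) (@Lb.r r36 (@Lb.t (@Lb.fp (nat_lit 9) t267)))))))))))
noncomputable def l21723 : Lb := (@Lb.d (nat_lit 168) (nat_lit 320) (nat_lit 326) (@Lb.r r1604 (@Lb.r r535 (@Lb.r r353 (@Lb.g g7 (@Lb.g g6 (@Lb.g g4 (@Lb.d (nat_lit 5) (nat_lit 20) (nat_lit 97) (@Lb.t (@Lb.fp (nat_lit 9) t4330))))))))))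
noncomputable def l21724 : Lb := (@Lb.d (nat_lit 21) (nat_lit 40) (nat_lit 72) (@Lb.r r273 (@Lb.r r363 (@Lb.r r264 (@Lb.g g7 (@Lb.g g10 (@Lb.g g5 (@Lb.d (nat_lit 80) (nat_lit 1) (nat_lit 134) (@Lb.r r36 (@Lb.t (@Lb.fp (nat_lit 9) t524)))))))))))
noncomputable def l21725 : Lb := (@Lb.d (nat_lit 649) (nat_lit 9) (nat_lit 257) (@Lb.r r24 (@Lb.r r402 (@Lb.r r323 (@Lb.g g7 (@Lb.g g6 (@Lb.g g9 (@Lb.d (nat_lit 8) (nat_lit 2) (nat_lit 64) (@Lb.t (@Lb.fm (nat_lit 9) t4331))))))))))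
noncomputable def l21726 : Lb := (@Lb.d (nat_lit 534) (nat_lit 258) (nat_lit 70) (@Lb.r r68 (@Lb.r r90 (@Lb.r r596 (@Lb.r r1367 (@Lb.g g7 (@Lb.g g6 (@Lb.g g5 (@Lb.g g4 (@Lb.d (nat_lit 0) (nat_lit 129) (nat_lit 65) (@Lb.fp (nat_lit 9) t242)))))))))))
noncomputable def l21727 : Lb := (@Lb.d (nat_lit 534) (nat_lit 516) (nat_lit 68) (@Lb.r r68 (@Lb.r r90 (@Lb.r r596 (@Lb.r r1367 (@Lb.g g7 (@Lb.g g6 (@Lb.g g5 (@Lb.g g4 (@Lb.d (nat_lit 0) (nat_lit 134) (nat_lit 66) (@Lb.fp (nat_lit 9) t3225)))))))))))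
noncomputable def l21728 : Lb := (@Lb.g g8 (@Lb.g g5 (@Lb.g g7 (@Lb.r r149 (@Lb.r r402 (@Lb.r r2436 (@Lb.d (nat_lit 96) (nat_lit 517) (nat_lit 64) (@Lb.t (@Lb.fp (nat_lit 9) t311)))))))))
noncomputable def l21729 : Lb := (@Lb.d (nat_lit 0) (nat_lit 512) (nat_lit 128) (@Lb.g g5 (@Lb.g g10 (@Lb.g g11 (@Lb.r r2626 (@Lb.d (nat_lit 5) (nat_lit 1) (nat_lit 256) (@Lb.t (@Lb.fp (nat_lit 9) t2))))))))
noncomputable def l21730 : Lb := (@Lb.d (nat_lit 0) (nat_lit 514) (nat_lit 74) (@Lb.g g9 (@Lb.g g10 (@Lb.g g11 (@Lb.r r1699 (@Lb.r r1685 (@Lb.r r1174 (@Lb.r r8 (@Lb.d (nat_lit 278) (nat_lit 73) (nat_lit 681) (@Lb.t (@Lb.fp (nat_lit 9) t646)))))))))))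
noncomputable def l21731 : Lb := (@Lb.r r323 (@Lb.d (nat_lit 2) (nat_lit 256) (nat_lit 32) (@Lb.g g4 (@Lb.g g5 (@Lb.g g10 (@Lb.r r2455 (@Lb.r r36 (@Lb.d (nat_lit 68) (nat_lit 2) (nat_lit 528) (@Lb.t (@Lb.fm (nat_lit 9) t1165))))))))))
noncomputable def l21732 : Lb := (@Lb.r r21 (@Lb.d (nat_lit 16) (nat_lit 520) (nat_lit 74) (@Lb.g g8 (@Lb.g g10 (@Lb.g g11 (@Lb.r r1707 (@Lb.r r293 (@Lb.r r2664 (@Lb.r r1446 (@Lb.d (nat_lit 361) (nat_lit 137) (nat_lit 662) (@Lb.t (@Lb.fm (nat_lit 9) t2996))))))))))))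
noncomputable def l21733 : Lb := (@Lb.r r323 (@Lb.d (nat_lit 130) (nat_lit 514) (nat_lit 2) (@Lb.g g8 (@Lb.g g9 (@Lb.g g10 (@Lb.r r343 (@Lb.r r162 (@Lb.r r145 (@Lb.r r612 (@Lb.d (nat_lit 150) (nat_lit 21) (nat_lit 137) (@Lb.t (@Lb.fp (nat_lit 9) t51))))))))))))
noncomputable def l21734 : Lb := (@Lb.r r82 (@Lb.d (nat_lit 134) (nat_lit 17) (nat_lit 0) (@Lb.g g8 (@Lb.g g9 (@Lb.g g11 (@Lb.r r555 (@Lb.r r618 (@Lb.r r2712 (@Lb.r r2133 (@Lb.d (nat_lit 26) (nat_lit 164) (nat_lit 673) (@Lb.t (@Lb.fm (nat_lit 9) t197))))))))))))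
noncomputable def l21735 : Lb := (@Lb.d (nat_lit 4) (nat_lit 6) (nat_lit 0) (@Lb.g g5 (@Lb.r r2311 (@Lb.r r2454 (@Lb.d (nat_lit 360) (nat_lit 37) (nat_lit 154) (@Lb.t (@Lb.fp (nat_lit 3) t4332)))))))
noncomputable def l21736 : Lb := (@Lb.d (nat_lit 517) (nat_lit 618) (nat_lit 168) (@Lb.r r1621 (@Lb.r r279 (@Lb.r r612 (@Lb.g g7 (@Lb.g g10 (@Lb.g g5 (@Lb.d (nat_lit 20) (nat_lit 37) (nat_lit 69) (@Lb.t (@Lb.fm (nat_lit 9) t4086))))))))))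
noncomputable def l21737 : Lb := (@Lb.r r322 (@Lb.d (nat_lit 2) (nat_lit 514) (nat_lit 8) (@Lb.g g8 (@Lb.g g9 (@Lb.g g11 (@Lb.r r1430 (@Lb.r r2657 (@Lb.r r24 (@Lb.d (nat_lit 665) (nat_lit 169) (nat_lit 680) (@Lb.t (@Lb.fp (nat_lit 9) t4333)))))))))))
noncomputable def l21738 : Lb := (@Lb.r r273 (@Lb.r r322 (@Lb.d (nat_lit 2) (nat_lit 256) (nat_lit 584) (@Lb.g g8 (@Lb.g g7 (@Lb.r r280 (@Lb.r r101 (@Lb.r r146 (@Lb.d (nat_lit 0) (nat_lit 132) (nat_lit 513) (@Lb.fm (nat_lit 3) t4334))))))))))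
noncomputable def l21739 : Lb := (@Lb.r r82 (@Lb.d (nat_lit 2) (nat_lit 546) (nat_lit 64) (@Lb.g g8 (@Lb.g g9 (@Lb.g g11 (@Lb.r r1323 (@Lb.r r2137 (@Lb.r r98 (@Lb.d (nat_lit 288) (nat_lit 145) (nat_lit 132) (@Lb.t (@Lb.fm (nat_lit 9) t1812)))))))))))
noncomputable def l21740 : Lb := (@Lb.d (nat_lit 66) (nat_lit 34) (nat_lit 66) (@Lb.g g8 (@Lb.g g9 (@Lb.g g10 (@Lb.g g11 (@Lb.r r1451 (@Lb.r r2193 (@Lb.r r356 (@Lb.r r1178 (@Lb.r r1156 (@Lb.d (nat_lit 520) (nat_lit 137) (nat_lit 274) (@Lb.fm (nat_lit 9) t163))))))))))))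
noncomputable def l21741 : Lb := (@Lb.r r323 (@Lb.d (nat_lit 32) (nat_lit 256) (nat_lit 2) (@Lb.g g10 (@Lb.r r2659 (@Lb.r r1304 (@Lb.r r2661 (@Lb.d (nat_lit 104) (nat_lit 1) (nat_lit 612) (@Lb.t (@Lb.fm (nat_lit 3) t4335)))))))))
noncomputable def l21742 : Lb := (@Lb.d (nat_lit 4) (nat_lit 166) (nat_lit 64) (@Lb.g g5 (@Lb.g g10 (@Lb.g g11 (@Lb.r r658 (@Lb.r r1415 (@Lb.d (nat_lit 418) (nat_lit 1) (nat_lit 170) (@Lb.t (@Lb.fm (nat_lit 9) t98)))))))))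
noncomputable def l21743 : Lb := (@Lb.d (nat_lit 0) (nat_lit 256) (nat_lit 73) (@Lb.g g9 (@Lb.g g10 (@Lb.g g11 (@Lb.r r2726 (@Lb.r r328 (@Lb.r r535 (@Lb.r r289 (@Lb.d (nat_lit 640) (nat_lit 18) (nat_lit 128) (@Lb.t (@Lb.fm (nat_lit 9) t259)))))))))))
noncomputable def l21744 : Lb := (@Lb.d (nat_lit 5) (nat_lit 256) (nat_lit 2) (@Lb.g g4 (@Lb.g g10 (@Lb.g g7 (@Lb.r r386 (@Lb.d (nat_lit 1) (nat_lit 1) (nat_lit 9) (@Lb.t (@Lb.fp (nat_lit 9) t2))))))))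
noncomputable def l21745 : Lb := (@Lb.d (nat_lit 518) (nat_lit 1) (nat_lit 256) (@Lb.r r289 (@Lb.r r279 (@Lb.r r584 (@Lb.r r358 (@Lb.g g7 (@Lb.d (nat_lit 0) (nat_lit 0) (nat_lit 64) (@Lb.t (@Lb.fm (nat_lit 3) t1830)))))))))
noncomputable def l21746 : Lb := (@Lb.d (nat_lit 2) (nat_lit 40) (nat_lit 65) (@Lb.g g8 (@Lb.g g9 (@Lb.g g10 (@Lb.g g11 (@Lb.r r1543 (@Lb.r r1450 (@Lb.r r612 (@Lb.r r533 (@Lb.d (nat_lit 340) (nat_lit 146) (nat_lit 424) (@Lb.fp (nat_lit 9) t2301)))))))))))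
noncomputable def l21747 : Lb := (@Lb.d (nat_lit 4) (nat_lit 256) (nat_lit 130) (@Lb.g g8 (@Lb.g g9 (@Lb.g g10 (@Lb.g g11 (@Lb.r r427 (@Lb.r r420 (@Lb.r r102 (@Lb.r r97 (@Lb.r r36 (@Lb.d (nat_lit 0) (nat_lit 2) (nat_lit 74) (@Lb.fm (nat_lit 9) t119))))))))))))
noncomputable def l21748 : Lb := (@Lb.d (nat_lit 134) (nat_lit 594) (nat_lit 576) (@Lb.r r1297 (@Lb.r r2118 (@Lb.r r2343 (@Lb.g g5 (@Lb.g g8 (@Lb.d (nat_lit 10) (nat_lit 16) (nat_lit 0) (@Lb.r r98 (@Lb.fp (nat_lit 3) t2241)))))))))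
noncomputable def l21749 : Lb := (@Lb.d (nat_lit 600) (nat_lit 21) (nat_lit 82) (@Lb.r r360 (@Lb.r r150 (@Lb.r r1385 (@Lb.g g7 (@Lb.g g5 (@Lb.g g4 (@Lb.d (nat_lit 22) (nat_lit 2) (nat_lit 324) (@Lb.r r610 (@Lb.t (@Lb.fm (nat_lit 9) t57)))))))))))
noncomputable def l21750 : Lb := (@Lb.r r21 (@Lb.d (nat_lit 2) (nat_lit 512) (nat_lit 130) (@Lb.g g8 (@Lb.g g10 (@Lb.g g11 (@Lb.r r2379 (@Lb.r r386 (@Lb.r r97 (@Lb.r r72 (@Lb.d (nat_lit 292) (nat_lit 8) (nat_lit 154) (@Lb.t (@Lb.fp (nat_lit 9) t61))))))))))))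
noncomputable def l21751 : Lb := (@Lb.d (nat_lit 2) (nat_lit 258) (nat_lit 9) (@Lb.g g8 (@Lb.g g9 (@Lb.g g6 (@Lb.r r515 (@Lb.r r97 (@Lb.r r24 (@Lb.d (nat_lit 5) (nat_lit 130) (nat_lit 129) (@Lb.t (@Lb.fm (nat_lit 9) t154))))))))))
noncomputable def l21752 : Lb := (@Lb.d (nat_lit 0) (nat_lit 545) (nat_lit 9) (@Lb.g g8 (@Lb.g g9 (@Lb.g g10 (@Lb.r r2315 (@Lb.r r296 (@Lb.r r89 (@Lb.r r98 (@Lb.d (nat_lit 545) (nat_lit 137) (nat_lit 0) (@Lb.t (@Lb.fp (nat_lit 9) t386)))))))))))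
noncomputable def l21753 : Lb := (@Lb.r r70 (@Lb.d (nat_lit 9) (nat_lit 513) (nat_lit 128) (@Lb.g g8 (@Lb.g g9 (@Lb.g g11 (@Lb.r r1611 (@Lb.r r418 (@Lb.r r145 (@Lb.r r1060 (@Lb.d (nat_lit 326) (nat_lit 72) (nat_lit 546) (@Lb.t (@Lb.fm (nat_lit 9) t50))))))))))))
noncomputable def l21754 : Lb := (@Lb.d (nat_lit 4) (nat_lit 262) (nat_lit 128) (@Lb.g g5 (@Lb.g g10 (@Lb.g g11 (@Lb.r r2587 (@Lb.r r386 (@Lb.r r24 (@Lb.d (nat_lit 130) (nat_lit 1) (nat_lit 329) (@Lb.t (@Lb.fm (nat_lit 9) t538))))))))))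
noncomputable def l21755 : Lb := (@Lb.d (nat_lit 293) (nat_lit 514) (nat_lit 0) (@Lb.r r1178 (@Lb.r r1684 (@Lb.r r1543 (@Lb.g g5 (@Lb.d (nat_lit 0) (nat_lit 37) (nat_lit 0) (@Lb.t (@Lb.fm (nat_lit 3) t242))))))))
noncomputable def l21756 : Lb := (@Lb.d (nat_lit 33) (nat_lit 521) (nat_lit 72) (@Lb.g g8 (@Lb.g g9 (@Lb.g g10 (@Lb.g g11 (@Lb.r r1698 (@Lb.r r1415 (@Lb.r r548 (@Lb.r r2197 (@Lb.r r2084 (@Lb.d (nat_lit 41) (nat_lit 152) (nat_lit 649) (@Lb.fm (nat_lit 9) t4336))))))))))))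
noncomputable def l21757 : Lb := (@Lb.d (nat_lit 8) (nat_lit 265) (nat_lit 8) (@Lb.g g9 (@Lb.g g10 (@Lb.g g11 (@Lb.r r2726 (@Lb.r r328 (@Lb.r r535 (@Lb.r r289 (@Lb.d (nat_lit 641) (nat_lit 25) (nat_lit 66) (@Lb.t (@Lb.fm (nat_lit 9) t1234)))))))))))
noncomputable def l21758 : Lb := (@Lb.d (nat_lit 34) (nat_lit 0) (nat_lit 74) (@Lb.r r24 (@Lb.r r101 (@Lb.g g11 (@Lb.t (@Lb.fp (nat_lit 3) t87))))))
noncomputable def l21759 : Lb := (@Lb.d (nat_lit 136) (nat_lit 384) (nat_lit 128) (@Lb.g g5 (@Lb.g g7 (@Lb.r r600 (@Lb.r r342 (@Lb.r r1451 (@Lb.d (nat_lit 356) (nat_lit 36) (nat_lit 340) (@Lb.fp (nat_lit 3) t430))))))))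
noncomputable def l21760 : Lb := (@Lb.d (nat_lit 8) (nat_lit 33) (nat_lit 66) (@Lb.g g9 (@Lb.g g10 (@Lb.g g11 (@Lb.r r1703 (@Lb.r r1634 (@Lb.r r2328 (@Lb.r r1637 (@Lb.d (nat_lit 405) (nat_lit 138) (nat_lit 656) (@Lb.t (@Lb.fp (nat_lit 9) t629)))))))))))
noncomputable def l21761 : Lb := (@Lb.r r24 (@Lb.r r101 (@Lb.d (nat_lit 0) (nat_lit 514) (nat_lit 72) (@Lb.fp (nat_lit 1) t87))))
noncomputable def l21762 : Lb := (@Lb.d (nat_lit 34) (nat_lit 265) (nat_lit 72) (@Lb.g g8 (@Lb.g g9 (@Lb.g g10 (@Lb.g g11 (@Lb.r r1698 (@Lb.r r1415 (@Lb.r r548 (@Lb.r r2197 (@Lb.r r2084 (@Lb.d (nat_lit 41) (nat_lit 152) (nat_lit 649) (@Lb.fm (nat_lit 9) t4336))))))))))))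
noncomputable def l21763 : Lb := (@Lb.r r70 (@Lb.d (nat_lit 130) (nat_lit 514) (nat_lit 64) (@Lb.g g8 (@Lb.g g9 (@Lb.g g11 (@Lb.r r2713 (@Lb.r r658 (@Lb.r r1411 (@Lb.r r2148 (@Lb.d (nat_lit 538) (nat_lit 16) (nat_lit 389) (@Lb.t (@Lb.fp (nat_lit 9) t898))))))))))))
noncomputable def l21764 : Lb := (@Lb.d (nat_lit 266) (nat_lit 65) (nat_lit 1) (@Lb.r r21 (@Lb.r r402 (@Lb.r r2631 (@Lb.g g8 (@Lb.d (nat_lit 261) (nat_lit 0) (nat_lit 0) (@Lb.r r267 (@Lb.r r74 (@Lb.r r25 (@Lb.t (@Lb.fp (nat_lit 3) t898)))))))))))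
noncomputable def l21765 : Lb := (@Lb.r r82 (@Lb.r r275 (@Lb.d (nat_lit 32) (nat_lit 282) (nat_lit 0) (@Lb.g g8 (@Lb.g g9 (@Lb.r r427 (@Lb.r r582 (@Lb.r r388 (@Lb.d (nat_lit 610) (nat_lit 9) (nat_lit 168) (@Lb.fm (nat_lit 3) t819))))))))))
noncomputable def l21766 : Lb := (@Lb.d (nat_lit 0) (nat_lit 512) (nat_lit 74) (@Lb.g g10 (@Lb.g g11 (@Lb.r r2341 (@Lb.r r539 (@Lb.r r2136 (@Lb.r r1158 (@Lb.d (nat_lit 608) (nat_lit 5) (nat_lit 26) (@Lb.fm (nat_lit 3) t2283)))))))))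
noncomputable def l21767 : Lb := (@Lb.r r323 (@Lb.d (nat_lit 128) (nat_lit 258) (nat_lit 2) (@Lb.g g8 (@Lb.g g9 (@Lb.g g10 (@Lb.r r599 (@Lb.r r98 (@Lb.r r2456 (@Lb.r r1125 (@Lb.d (nat_lit 533) (nat_lit 105) (nat_lit 129) (@Lb.t (@Lb.fp (nat_lit 9) t3484))))))))))))
noncomputable def l21768 : Lb := (@Lb.d (nat_lit 582) (nat_lit 256) (nat_lit 0) (@Lb.r r289 (@Lb.r r2567 (@Lb.r r1368 (@Lb.r r2710 (@Lb.g g6 (@Lb.g g5 (@Lb.d (nat_lit 0) (nat_lit 5) (nat_lit 2) (@Lb.r r387 (@Lb.fm (nat_lit 3) t2291))))))))))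
noncomputable def l21769 : Lb := (@Lb.r r1307 (@Lb.r r1114 (@Lb.r r2088 (@Lb.r r1065 (@Lb.d (nat_lit 260) (nat_lit 641) (nat_lit 0) (@Lb.fp (nat_lit 1) t583))))))
noncomputable def l21770 : Lb := (@Lb.d (nat_lit 1) (nat_lit 260) (nat_lit 0) (@Lb.g g8 (@Lb.g g9 (@Lb.g g10 (@Lb.r r683 (@Lb.r r1689 (@Lb.r r1688 (@Lb.r r1610 (@Lb.d (nat_lit 610) (nat_lit 98) (nat_lit 258) (@Lb.t (@Lb.fm (nat_lit 9) t4337)))))))))))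
noncomputable def l21771 : Lb := (@Lb.d (nat_lit 390) (nat_lit 70) (nat_lit 26) (@Lb.r r2325 (@Lb.r r598 (@Lb.r r683 (@Lb.g g7 (@Lb.g g6 (@Lb.g g5 (@Lb.g g4 (@Lb.d (nat_lit 1) (nat_lit 25) (nat_lit 64) (@Lb.fm (nat_lit 9) t309))))))))))
noncomputable def l21772 : Lb := (@Lb.d (nat_lit 294) (nat_lit 362) (nat_lit 614) (@Lb.r r2133 (@Lb.r r323 (@Lb.r r682 (@Lb.g g7 (@Lb.g g6 (@Lb.g g5 (@Lb.g g4 (@Lb.d (nat_lit 1) (nat_lit 24) (nat_lit 64) (@Lb.fm (nat_lit 9) t309))))))))))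
noncomputable def l21773 : Lb := (@Lb.d (nat_lit 0) (nat_lit 512) (nat_lit 32) (@Lb.r r323 (@Lb.g g10 (@Lb.g g4 (@Lb.d (nat_lit 1) (nat_lit 0) (nat_lit 16) (@Lb.r r387 (@Lb.fp (nat_lit 3) t2)))))))
noncomputable def l21774 : Lb := (@Lb.d (nat_lit 1) (nat_lit 260) (nat_lit 128) (@Lb.g g8 (@Lb.g g9 (@Lb.g g10 (@Lb.g g11 (@Lb.r r1130 (@Lb.r r356 (@Lb.r r411 (@Lb.r r1045 (@Lb.r r2084 (@Lb.d (nat_lit 612) (nat_lit 154) (nat_lit 601) (@Lb.fp (nat_lit 9) t4338))))))))))))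
noncomputable def l21775 : Lb := (@Lb.d (nat_lit 2) (nat_lit 516) (nat_lit 0) (@Lb.g g8 (@Lb.g g9 (@Lb.g g10 (@Lb.r r683 (@Lb.r r1689 (@Lb.r r1688 (@Lb.r r1610 (@Lb.d (nat_lit 610) (nat_lit 100) (nat_lit 256) (@Lb.t (@Lb.fm (nat_lit 9) t4337)))))))))))
noncomputable def l21776 : Lb := (@Lb.d (nat_lit 97) (nat_lit 292) (nat_lit 74) (@Lb.g g8 (@Lb.g g9 (@Lb.g g10 (@Lb.g g11 (@Lb.r r1666 (@Lb.r r1431 (@Lb.r r2596 (@Lb.r r2085 (@Lb.d (nat_lit 544) (nat_lit 98) (nat_lit 144) (@Lb.fp (nat_lit 9) t4339)))))))))))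
noncomputable def l21777 : Lb := (@Lb.g g4 (@Lb.g g9 (@Lb.d (nat_lit 1) (nat_lit 512) (nat_lit 0) (@Lb.fp (nat_lit 3) t2))))
noncomputable def l21778 : Lb := (@Lb.g g9 (@Lb.g g6 (@Lb.r r579 (@Lb.r r2438 (@Lb.r r2136 (@Lb.r r1061 (@Lb.d (nat_lit 2) (nat_lit 0) (nat_lit 69) (@Lb.fp (nat_lit 3) t4340))))))))
noncomputable def l21779 : Lb := (@Lb.d (nat_lit 132) (nat_lit 42) (nat_lit 425) (@Lb.r r2705 (@Lb.r r2650 (@Lb.r r1380 (@Lb.g g11 (@Lb.g g5 (@Lb.d (nat_lit 4) (nat_lit 0) (nat_lit 388) (@Lb.r r98 (@Lb.fp (nat_lit 3) t4341)))))))))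
noncomputable def l21780 : Lb := (@Lb.d (nat_lit 132) (nat_lit 544) (nat_lit 426) (@Lb.r r2705 (@Lb.r r2650 (@Lb.r r1380 (@Lb.g g11 (@Lb.g g5 (@Lb.d (nat_lit 8) (nat_lit 1) (nat_lit 388) (@Lb.r r98 (@Lb.fp (nat_lit 3) t4342)))))))))
noncomputable def l21781 : Lb := (@Lb.d (nat_lit 644) (nat_lit 661) (nat_lit 329) (@Lb.r r594 (@Lb.r r2587 (@Lb.r r2708 (@Lb.g g7 (@Lb.g g6 (@Lb.g g9 (@Lb.d (nat_lit 16) (nat_lit 134) (nat_lit 66) (@Lb.t (@Lb.fp (nat_lit 9) t2803))))))))))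
noncomputable def l21782 : Lb := (@Lb.d (nat_lit 137) (nat_lit 552) (nat_lit 425) (@Lb.r r2705 (@Lb.r r2650 (@Lb.r r1380 (@Lb.g g11 (@Lb.g g5 (@Lb.d (nat_lit 4) (nat_lit 0) (nat_lit 388) (@Lb.r r98 (@Lb.fp (nat_lit 3) t4341)))))))))
noncomputable def l21783 : Lb := (@Lb.d (nat_lit 128) (nat_lit 533) (nat_lit 128) (@Lb.r r536 (@Lb.r r411 (@Lb.r r661 (@Lb.g g6 (@Lb.g g5 (@Lb.g g4 (@Lb.d (nat_lit 80) (nat_lit 1) (nat_lit 1) (@Lb.r r391 (@Lb.t (@Lb.fm (nat_lit 9) t68)))))))))))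
noncomputable def l21784 : Lb := (@Lb.d (nat_lit 4) (nat_lit 258) (nat_lit 0) (@Lb.g g9 (@Lb.r r148 (@Lb.r r614 (@Lb.r r337 (@Lb.d (nat_lit 0) (nat_lit 161) (nat_lit 325) (@Lb.t (@Lb.fp (nat_lit 3) t259))))))))
noncomputable def l21785 : Lb := (@Lb.r r283 (@Lb.d (nat_lit 33) (nat_lit 294) (nat_lit 0) (@Lb.g g8 (@Lb.g g5 (@Lb.g g10 (@Lb.r r426 (@Lb.r r615 (@Lb.r r148 (@Lb.d (nat_lit 96) (nat_lit 10) (nat_lit 2) (@Lb.t (@Lb.fp (nat_lit 9) t74)))))))))))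
noncomputable def l21786 : Lb := (@Lb.d (nat_lit 8) (nat_lit 258) (nat_lit 130) (@Lb.g g9 (@Lb.g g10 (@Lb.g g11 (@Lb.r r419 (@Lb.r r98 (@Lb.r r24 (@Lb.r r101 (@Lb.d (nat_lit 21) (nat_lit 6) (nat_lit 68) (@Lb.t (@Lb.fm (nat_lit 9) t1233)))))))))))
noncomputable def l21787 : Lb := (@Lb.d (nat_lit 2) (nat_lit 516) (nat_lit 1) (@Lb.g g8 (@Lb.g g9 (@Lb.g g10 (@Lb.g g11 (@Lb.r r2723 (@Lb.r r657 (@Lb.r r612 (@Lb.r r666 (@Lb.r r132 (@Lb.d (nat_lit 74) (nat_lit 97) (nat_lit 586) (@Lb.fp (nat_lit 9) t1278))))))))))))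
noncomputable def l21788 : Lb := (@Lb.d (nat_lit 0) (nat_lit 256) (nat_lit 128) (@Lb.g g9 (@Lb.g g10 (@Lb.g g11 (@Lb.r r2471 (@Lb.r r1096 (@Lb.r r2646 (@Lb.r r409 (@Lb.d (nat_lit 514) (nat_lit 5) (nat_lit 17) (@Lb.t (@Lb.fp (nat_lit 9) t1456)))))))))))
noncomputable def l21789 : Lb := (@Lb.d (nat_lit 0) (nat_lit 0) (nat_lit 128) (@Lb.g g9 (@Lb.g g10 (@Lb.g g11 (@Lb.r r2471 (@Lb.r r1096 (@Lb.r r2646 (@Lb.r r409 (@Lb.d (nat_lit 514) (nat_lit 10) (nat_lit 18) (@Lb.t (@Lb.fp (nat_lit 9) t1456)))))))))))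
noncomputable def l21790 : Lb := (@Lb.d (nat_lit 2) (nat_lit 514) (nat_lit 130) (@Lb.g g8 (@Lb.g g9 (@Lb.g g10 (@Lb.g g11 (@Lb.r r1443 (@Lb.r r405 (@Lb.r r86 (@Lb.r r145 (@Lb.r r36 (@Lb.d (nat_lit 296) (nat_lit 2) (nat_lit 329) (@Lb.fp (nat_lit 9) t1024))))))))))))
noncomputable def l21791 : Lb := (@Lb.d (nat_lit 0) (nat_lit 2) (nat_lit 130) (@Lb.g g9 (@Lb.g g10 (@Lb.g g11 (@Lb.r r610 (@Lb.r r2667 (@Lb.r r97 (@Lb.r r2564 (@Lb.d (nat_lit 392) (nat_lit 137) (nat_lit 385) (@Lb.t (@Lb.fm (nat_lit 9) t826)))))))))))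
noncomputable def l21792 : Lb := (@Lb.d (nat_lit 10) (nat_lit 0) (nat_lit 130) (@Lb.g g8 (@Lb.g g10 (@Lb.g g11 (@Lb.r r1602 (@Lb.r r2453 (@Lb.r r619 (@Lb.r r2596 (@Lb.d (nat_lit 393) (nat_lit 82) (nat_lit 294) (@Lb.t (@Lb.fp (nat_lit 9) t421)))))))))))
noncomputable def l21793 : Lb := (@Lb.d (nat_lit 9) (nat_lit 32) (nat_lit 130) (@Lb.g g8 (@Lb.g g10 (@Lb.g g11 (@Lb.r r1618 (@Lb.r r149 (@Lb.r r2340 (@Lb.r r587 (@Lb.d (nat_lit 97) (nat_lit 85) (nat_lit 394) (@Lb.t (@Lb.fp (nat_lit 9) t100)))))))))))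
noncomputable def l21794 : Lb := (@Lb.d (nat_lit 1) (nat_lit 322) (nat_lit 2) (@Lb.g g4 (@Lb.g g9 (@Lb.g g10 (@Lb.r r515 (@Lb.r r98 (@Lb.d (nat_lit 1) (nat_lit 2) (nat_lit 68) (@Lb.t (@Lb.fm (nat_lit 9) t71)))))))))
noncomputable def l21795 : Lb := (@Lb.r r82 (@Lb.d (nat_lit 0) (nat_lit 290) (nat_lit 64) (@Lb.g g9 (@Lb.g g11 (@Lb.r r1575 (@Lb.r r386 (@Lb.r r2136 (@Lb.r r1061 (@Lb.d (nat_lit 408) (nat_lit 102) (nat_lit 394) (@Lb.fm (nat_lit 3) t152))))))))))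
noncomputable def l21796 : Lb := (@Lb.d (nat_lit 2) (nat_lit 514) (nat_lit 130) (@Lb.g g8 (@Lb.g g9 (@Lb.g g10 (@Lb.g g11 (@Lb.r r610 (@Lb.r r612 (@Lb.r r359 (@Lb.r r277 (@Lb.r r548 (@Lb.d (nat_lit 2) (nat_lit 0) (nat_lit 162) (@Lb.fp (nat_lit 9) t505))))))))))))
noncomputable def l21797 : Lb := (@Lb.d (nat_lit 2) (nat_lit 256) (nat_lit 130) (@Lb.g g8 (@Lb.g g9 (@Lb.g g10 (@Lb.g g11 (@Lb.r r1451 (@Lb.r r409 (@Lb.r r2138 (@Lb.r r1169 (@Lb.d (nat_lit 514) (nat_lit 10) (nat_lit 18) (@Lb.fp (nat_lit 9) t221)))))))))))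
noncomputable def l21798 : Lb := (@Lb.r r81 (@Lb.r r331 (@Lb.d (nat_lit 24) (nat_lit 264) (nat_lit 0) (@Lb.g g8 (@Lb.g g10 (@Lb.r r2069 (@Lb.r r360 (@Lb.r r1543 (@Lb.d (nat_lit 0) (nat_lit 154) (nat_lit 153) (@Lb.fm (nat_lit 3) t22))))))))))
noncomputable def l21799 : Lb := (@Lb.d (nat_lit 2) (nat_lit 258) (nat_lit 66) (@Lb.g g8 (@Lb.g g9 (@Lb.g g10 (@Lb.g g11 (@Lb.r r292 (@Lb.r r539 (@Lb.r r145 (@Lb.r r1690 (@Lb.r r1668 (@Lb.d (nat_lit 2) (nat_lit 132) (nat_lit 146) (@Lb.fp (nat_lit 9) t1811))))))))))))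
noncomputable def l21800 : Lb := (@Lb.r r21 (@Lb.d (nat_lit 34) (nat_lit 512) (nat_lit 129) (@Lb.g g8 (@Lb.g g10 (@Lb.g g11 (@Lb.r r651 (@Lb.r r1556 (@Lb.r r153 (@Lb.r r602 (@Lb.d (nat_lit 392) (nat_lit 38) (nat_lit 406) (@Lb.t (@Lb.fp (nat_lit 9) t367))))))))))))
noncomputable def l21801 : Lb := (@Lb.r r323 (@Lb.d (nat_lit 0) (nat_lit 264) (nat_lit 34) (@Lb.g g4 (@Lb.g g10 (@Lb.r r387 (@Lb.d (nat_lit 1) (nat_lit 2) (nat_lit 144) (@Lb.fp (nat_lit 3) t333)))))))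
noncomputable def l21802 : Lb := (@Lb.d (nat_lit 97) (nat_lit 65) (nat_lit 32) (@Lb.r r1121 (@Lb.r r330 (@Lb.r r72 (@Lb.r r2391 (@Lb.g g7 (@Lb.g g6 (@Lb.d (nat_lit 16) (nat_lit 0) (nat_lit 65) (@Lb.fm (nat_lit 3) t144)))))))))
noncomputable def l21803 : Lb := (@Lb.d (nat_lit 9) (nat_lit 521) (nat_lit 129) (@Lb.g g8 (@Lb.g g9 (@Lb.g g10 (@Lb.g g11 (@Lb.r r682 (@Lb.r r680 (@Lb.r r555 (@Lb.r r529 (@Lb.r r36 (@Lb.d (nat_lit 10) (nat_lit 160) (nat_lit 74) (@Lb.fm (nat_lit 9) t144))))))))))))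
noncomputable def l21804 : Lb := (@Lb.d (nat_lit 1) (nat_lit 613) (nat_lit 344) (@Lb.r r1697 (@Lb.r r1707 (@Lb.r r1636 (@Lb.r r2394 (@Lb.g g7 (@Lb.g g6 (@Lb.g g5 (@Lb.d (nat_lit 4) (nat_lit 0) (nat_lit 65) (@Lb.t (@Lb.fp (nat_lit 9) t144)))))))))))
noncomputable def l21805 : Lb := (@Lb.d (nat_lit 1) (nat_lit 2) (nat_lit 130) (@Lb.g g8 (@Lb.g g9 (@Lb.g g10 (@Lb.g g11 (@Lb.r r427 (@Lb.r r145 (@Lb.r r356 (@Lb.r r154 (@Lb.r r132 (@Lb.d (nat_lit 2) (nat_lit 0) (nat_lit 137) (@Lb.fm (nat_lit 9) t61))))))))))))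
noncomputable def l21806 : Lb := (@Lb.d (nat_lit 0) (nat_lit 512) (nat_lit 136) (@Lb.g g11 (@Lb.r r402 (@Lb.r r101 (@Lb.d (nat_lit 9) (nat_lit 0) (nat_lit 128) (@Lb.t (@Lb.fp (nat_lit 3) t1163)))))))
noncomputable def l21807 : Lb := (@Lb.d (nat_lit 162) (nat_lit 5) (nat_lit 74) (@Lb.r r586 (@Lb.r r363 (@Lb.r r357 (@Lb.g g7 (@Lb.g g6 (@Lb.g g4 (@Lb.d (nat_lit 1) (nat_lit 4) (nat_lit 133) (@Lb.t (@Lb.fm (nat_lit 9) t2175))))))))))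
noncomputable def l21808 : Lb := (@Lb.r r82 (@Lb.d (nat_lit 33) (nat_lit 2) (nat_lit 128) (@Lb.g g8 (@Lb.g g9 (@Lb.g g11 (@Lb.r r363 (@Lb.r r582 (@Lb.r r408 (@Lb.d (nat_lit 150) (nat_lit 24) (nat_lit 73) (@Lb.t (@Lb.fp (nat_lit 9) t1684)))))))))))
noncomputable def l21809 : Lb := (@Lb.d (nat_lit 1) (nat_lit 256) (nat_lit 130) (@Lb.g g8 (@Lb.g g10 (@Lb.g g11 (@Lb.r r548 (@Lb.r r263 (@Lb.r r161 (@Lb.r r98 (@Lb.r r516 (@Lb.d (nat_lit 42) (nat_lit 0) (nat_lit 69) (@Lb.t (@Lb.fp (nat_lit 9) t285))))))))))))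
noncomputable def l21810 : Lb := (@Lb.r r323 (@Lb.d (nat_lit 4) (nat_lit 512) (nat_lit 0) (@Lb.g g8 (@Lb.g g9 (@Lb.g g10 (@Lb.r r2459 (@Lb.r r2201 (@Lb.r r2650 (@Lb.r r2628 (@Lb.d (nat_lit 521) (nat_lit 2) (nat_lit 154) (@Lb.t (@Lb.fm (nat_lit 9) t221))))))))))))
noncomputable def l21811 : Lb := (@Lb.r r323 (@Lb.d (nat_lit 2) (nat_lit 0) (nat_lit 1) (@Lb.g g8 (@Lb.g g9 (@Lb.g g6 (@Lb.r r387 (@Lb.d (nat_lit 0) (nat_lit 5) (nat_lit 64) (@Lb.t (@Lb.fp (nat_lit 9) t45)))))))))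
noncomputable def l21812 : Lb := (@Lb.d (nat_lit 2) (nat_lit 514) (nat_lit 130) (@Lb.g g8 (@Lb.g g9 (@Lb.g g10 (@Lb.g g11 (@Lb.r r427 (@Lb.r r386 (@Lb.r r97 (@Lb.d (nat_lit 137) (nat_lit 148) (nat_lit 70) (@Lb.fp (nat_lit 9) t1231))))))))))
noncomputable def l21813 : Lb := (@Lb.d (nat_lit 32) (nat_lit 256) (nat_lit 130) (@Lb.g g10 (@Lb.g g11 (@Lb.r r2695 (@Lb.r r1352 (@Lb.r r2390 (@Lb.r r1425 (@Lb.d (nat_lit 133) (nat_lit 0) (nat_lit 330) (@Lb.fm (nat_lit 3) t1255)))))))))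
noncomputable def l21814 : Lb := (@Lb.r r21 (@Lb.r r70 (@Lb.r r263 (@Lb.g g8 (@Lb.r r267 (@Lb.r r74 (@Lb.r r97 (@Lb.d (nat_lit 26) (nat_lit 128) (nat_lit 32) (@Lb.t (@Lb.fm (nat_lit 3) t4343))))))))))
noncomputable def l21815 : Lb := (@Lb.d (nat_lit 262) (nat_lit 265) (nat_lit 64) (@Lb.r r1416 (@Lb.r r1386 (@Lb.r r1369 (@Lb.g g7 (@Lb.g g6 (@Lb.d (nat_lit 64) (nat_lit 32) (nat_lit 577) (@Lb.fp (nat_lit 3) t472))))))))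
noncomputable def l21816 : Lb := (@Lb.d (nat_lit 32) (nat_lit 0) (nat_lit 130) (@Lb.g g10 (@Lb.g g11 (@Lb.r r2695 (@Lb.r r1352 (@Lb.r r2390 (@Lb.r r1425 (@Lb.d (nat_lit 132) (nat_lit 164) (nat_lit 577) (@Lb.fm (nat_lit 3) t2602)))))))))
noncomputable def l21817 : Lb := (@Lb.d (nat_lit 8) (nat_lit 2) (nat_lit 0) (@Lb.g g9 (@Lb.r r1319 (@Lb.r r1126 (@Lb.d (nat_lit 512) (nat_lit 2) (nat_lit 0) (@Lb.t (@Lb.fp (nat_lit 3) t353)))))))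
noncomputable def l21818 : Lb := (@Lb.d (nat_lit 674) (nat_lit 648) (nat_lit 342) (@Lb.r r1604 (@Lb.r r1639 (@Lb.r r1553 (@Lb.g g7 (@Lb.g g6 (@Lb.g g4 (@Lb.d (nat_lit 4) (nat_lit 4) (nat_lit 166) (@Lb.t (@Lb.fm (nat_lit 9) t1659))))))))))
noncomputable def l21819 : Lb := (@Lb.d (nat_lit 136) (nat_lit 514) (nat_lit 128) (@Lb.g g9 (@Lb.g g11 (@Lb.r r260 (@Lb.r r1627 (@Lb.r r401 (@Lb.r r2450 (@Lb.d (nat_lit 353) (nat_lit 9) (nat_lit 593) (@Lb.fm (nat_lit 3) t4344)))))))))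
noncomputable def l21820 : Lb := (@Lb.d (nat_lit 144) (nat_lit 8) (nat_lit 129) (@Lb.g g6 (@Lb.g g11 (@Lb.r r264 (@Lb.r r599 (@Lb.r r409 (@Lb.d (nat_lit 130) (nat_lit 16) (nat_lit 136) (@Lb.fp (nat_lit 3) t1087))))))))
noncomputable def l21821 : Lb := (@Lb.d (nat_lit 32) (nat_lit 0) (nat_lit 73) (@Lb.g g10 (@Lb.g g11 (@Lb.r r2695 (@Lb.r r1352 (@Lb.r r2390 (@Lb.r r1425 (@Lb.d (nat_lit 132) (nat_lit 0) (nat_lit 330) (@Lb.fm (nat_lit 3) t1255)))))))))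
noncomputable def l21822 : Lb := (@Lb.r r323 (@Lb.d (nat_lit 161) (nat_lit 265) (nat_lit 1) (@Lb.g g8 (@Lb.g g9 (@Lb.g g10 (@Lb.r r425 (@Lb.r r599 (@Lb.r r420 (@Lb.d (nat_lit 106) (nat_lit 38) (nat_lit 72) (@Lb.t (@Lb.fm (nat_lit 9) t1084)))))))))))
noncomputable def l21823 : Lb := (@Lb.d (nat_lit 278) (nat_lit 680) (nat_lit 549) (@Lb.r r20 (@Lb.r r1129 (@Lb.r r386 (@Lb.g g11 (@Lb.g g6 (@Lb.g g5 (@Lb.g g4 (@Lb.d (nat_lit 1) (nat_lit 1) (nat_lit 129) (@Lb.fm (nat_lit 9) t3705))))))))))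
noncomputable def l21824 : Lb := (@Lb.d (nat_lit 66) (nat_lit 266) (nat_lit 425) (@Lb.r r24 (@Lb.r r2661 (@Lb.r r2403 (@Lb.g g10 (@Lb.d (nat_lit 0) (nat_lit 8) (nat_lit 33) (@Lb.t (@Lb.fp (nat_lit 3) t4345))))))))
noncomputable def l21825 : Lb := (@Lb.d (nat_lit 2) (nat_lit 290) (nat_lit 2) (@Lb.g g8 (@Lb.g g9 (@Lb.g g10 (@Lb.g g11 (@Lb.r r387 (@Lb.r r2154 (@Lb.r r2073 (@Lb.d (nat_lit 265) (nat_lit 20) (nat_lit 9) (@Lb.fp (nat_lit 9) t475))))))))))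
noncomputable def l21826 : Lb := (@Lb.r r323 (@Lb.d (nat_lit 2) (nat_lit 521) (nat_lit 2) (@Lb.g g8 (@Lb.g g9 (@Lb.g g10 (@Lb.r r1689 (@Lb.r r146 (@Lb.d (nat_lit 609) (nat_lit 26) (nat_lit 537) (@Lb.t (@Lb.fp (nat_lit 9) t70))))))))))
noncomputable def l21827 : Lb := (@Lb.r r21 (@Lb.d (nat_lit 681) (nat_lit 0) (nat_lit 129) (@Lb.g g8 (@Lb.g g10 (@Lb.g g11 (@Lb.r r2443 (@Lb.r r90 (@Lb.r r25 (@Lb.d (nat_lit 72) (nat_lit 170) (nat_lit 665) (@Lb.t (@Lb.fm (nat_lit 9) t3705)))))))))))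
noncomputable def l21828 : Lb := (@Lb.d (nat_lit 2) (nat_lit 514) (nat_lit 4) (@Lb.g g8 (@Lb.g g9 (@Lb.g g10 (@Lb.g g11 (@Lb.r r1623 (@Lb.r r1622 (@Lb.r r97 (@Lb.r r24 (@Lb.d (nat_lit 89) (nat_lit 9) (nat_lit 549) (@Lb.fm (nat_lit 9) t314)))))))))))
noncomputable def l21829 : Lb := (@Lb.r r21 (@Lb.r r70 (@Lb.d (nat_lit 656) (nat_lit 256) (nat_lit 128) (@Lb.g g8 (@Lb.g g11 (@Lb.r r1419 (@Lb.r r402 (@Lb.r r97 (@Lb.d (nat_lit 585) (nat_lit 33) (nat_lit 256) (@Lb.fm (nat_lit 3) t4346))))))))))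
noncomputable def l21830 : Lb := (@Lb.d (nat_lit 25) (nat_lit 297) (nat_lit 72) (@Lb.r r273 (@Lb.r r363 (@Lb.r r264 (@Lb.g g7 (@Lb.g g10 (@Lb.g g5 (@Lb.d (nat_lit 80) (nat_lit 1) (nat_lit 65) (@Lb.r r36 (@Lb.t (@Lb.fp (nat_lit 9) t607)))))))))))
noncomputable def l21831 : Lb := (@Lb.d (nat_lit 1) (nat_lit 545) (nat_lit 66) (@Lb.g g8 (@Lb.g g9 (@Lb.g g10 (@Lb.g g11 (@Lb.r r2705 (@Lb.r r1686 (@Lb.r r2376 (@Lb.r r1415 (@Lb.d (nat_lit 152) (nat_lit 130) (nat_lit 4) (@Lb.fp (nat_lit 9) t2235)))))))))))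
noncomputable def l21832 : Lb := (@Lb.r r323 (@Lb.d (nat_lit 4) (nat_lit 522) (nat_lit 1) (@Lb.g g8 (@Lb.g g9 (@Lb.g g10 (@Lb.r r2715 (@Lb.r r1194 (@Lb.r r1553 (@Lb.r r1416 (@Lb.d (nat_lit 22) (nat_lit 32) (nat_lit 640) (@Lb.t (@Lb.fp (nat_lit 9) t2391))))))))))))
noncomputable def l21833 : Lb := (@Lb.r r275 (@Lb.d (nat_lit 8) (nat_lit 34) (nat_lit 10) (@Lb.g g9 (@Lb.g g10 (@Lb.r r1560 (@Lb.r r1307 (@Lb.r r2665 (@Lb.r r86 (@Lb.d (nat_lit 278) (nat_lit 134) (nat_lit 257) (@Lb.fm (nat_lit 3) t1791))))))))))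
noncomputable def l21834 : Lb := (@Lb.d (nat_lit 10) (nat_lit 512) (nat_lit 0) (@Lb.g g4 (@Lb.r r593 (@Lb.r r599 (@Lb.r r424 (@Lb.r r170 (@Lb.r r153 (@Lb.d (nat_lit 290) (nat_lit 0) (nat_lit 168) (@Lb.t (@Lb.fp (nat_lit 3) t127))))))))))
noncomputable def l21835 : Lb := (@Lb.d (nat_lit 1) (nat_lit 548) (nat_lit 64) (@Lb.g g8 (@Lb.g g9 (@Lb.g g10 (@Lb.g g11 (@Lb.r r2730 (@Lb.r r2435 (@Lb.r r2212 (@Lb.r r2085 (@Lb.d (nat_lit 361) (nat_lit 68) (nat_lit 326) (@Lb.fp (nat_lit 9) t750)))))))))))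
noncomputable def l21836 : Lb := (@Lb.d (nat_lit 18) (nat_lit 421) (nat_lit 646) (@Lb.r r20 (@Lb.r r25 (@Lb.r r148 (@Lb.r r386 (@Lb.g g11 (@Lb.g g6 (@Lb.g g5 (@Lb.g g4 (@Lb.d (nat_lit 1) (nat_lit 1) (nat_lit 129) (@Lb.fp (nat_lit 9) t2094)))))))))))
noncomputable def l21837 : Lb := (@Lb.d (nat_lit 2) (nat_lit 677) (nat_lit 646) (@Lb.r r20 (@Lb.r r105 (@Lb.r r36 (@Lb.r r386 (@Lb.g g11 (@Lb.g g6 (@Lb.g g5 (@Lb.g g4 (@Lb.d (nat_lit 1) (nat_lit 0) (nat_lit 129) (@Lb.fm (nat_lit 9) t2094)))))))))))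
noncomputable def l21838 : Lb := (@Lb.d (nat_lit 2) (nat_lit 256) (nat_lit 128) (@Lb.g g8 (@Lb.g g7 (@Lb.d (nat_lit 0) (nat_lit 0) (nat_lit 64) (@Lb.fp (nat_lit 3) t2)))))
noncomputable def l21839 : Lb := (@Lb.d (nat_lit 2) (nat_lit 258) (nat_lit 2) (@Lb.g g8 (@Lb.g g9 (@Lb.g g10 (@Lb.r r2585 (@Lb.r r595 (@Lb.r r386 (@Lb.d (nat_lit 528) (nat_lit 164) (nat_lit 162) (@Lb.t (@Lb.fm (nat_lit 9) t791))))))))))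
noncomputable def l21840 : Lb := (@Lb.r r21 (@Lb.d (nat_lit 129) (nat_lit 256) (nat_lit 130) (@Lb.g g8 (@Lb.g g10 (@Lb.g g11 (@Lb.r r1411 (@Lb.r r132 (@Lb.r r2438 (@Lb.r r145 (@Lb.d (nat_lit 81) (nat_lit 5) (nat_lit 613) (@Lb.t (@Lb.fp (nat_lit 9) t523))))))))))))
noncomputable def l21841 : Lb := (@Lb.r r323 (@Lb.d (nat_lit 2) (nat_lit 522) (nat_lit 2) (@Lb.g g8 (@Lb.g g9 (@Lb.g g10 (@Lb.r r419 (@Lb.r r98 (@Lb.r r2649 (@Lb.d (nat_lit 18) (nat_lit 84) (nat_lit 85) (@Lb.t (@Lb.fm (nat_lit 9) t4347)))))))))))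
noncomputable def l21842 : Lb := (@Lb.r r21 (@Lb.d (nat_lit 385) (nat_lit 0) (nat_lit 66) (@Lb.g g8 (@Lb.g g10 (@Lb.g g11 (@Lb.r r2666 (@Lb.r r2657 (@Lb.r r2339 (@Lb.d (nat_lit 520) (nat_lit 97) (nat_lit 5) (@Lb.t (@Lb.fp (nat_lit 9) t2443)))))))))))
noncomputable def l21843 : Lb := (@Lb.d (nat_lit 9) (nat_lit 9) (nat_lit 9) (@Lb.g g8 (@Lb.g g9 (@Lb.g g10 (@Lb.g g11 (@Lb.r r170 (@Lb.r r424 (@Lb.r r279 (@Lb.r r529 (@Lb.r r36 (@Lb.d (nat_lit 1) (nat_lit 33) (nat_lit 74) (@Lb.fp (nat_lit 9) t594))))))))))))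
noncomputable def l21844 : Lb := (@Lb.r r21 (@Lb.d (nat_lit 2) (nat_lit 0) (nat_lit 66) (@Lb.g g8 (@Lb.g g10 (@Lb.g g11 (@Lb.r r683 (@Lb.r r1192 (@Lb.r r1418 (@Lb.r r25 (@Lb.d (nat_lit 89) (nat_lit 144) (nat_lit 549) (@Lb.t (@Lb.fp (nat_lit 9) t1823))))))))))))
noncomputable def l21845 : Lb := (@Lb.d (nat_lit 1) (nat_lit 0) (nat_lit 72) (@Lb.g g8 (@Lb.g g11 (@Lb.r r2468 (@Lb.d (nat_lit 614) (nat_lit 37) (nat_lit 425) (@Lb.fm (nat_lit 3) t1737))))))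
noncomputable def l21846 : Lb := (@Lb.r r21 (@Lb.d (nat_lit 97) (nat_lit 256) (nat_lit 649) (@Lb.g g8 (@Lb.g g10 (@Lb.g g7 (@Lb.r r1410 (@Lb.r r616 (@Lb.r r25 (@Lb.d (nat_lit 610) (nat_lit 144) (nat_lit 421) (@Lb.t (@Lb.fp (nat_lit 9) t2178)))))))))))
noncomputable def l21847 : Lb := (@Lb.d (nat_lit 128) (nat_lit 0) (nat_lit 128) (@Lb.g g7 (@Lb.r r1045 (@Lb.r r600 (@Lb.r r342 (@Lb.r r1451 (@Lb.d (nat_lit 356) (nat_lit 38) (nat_lit 325) (@Lb.t (@Lb.fp (nat_lit 3) t430)))))))))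
noncomputable def l21848 : Lb := (@Lb.d (nat_lit 1) (nat_lit 512) (nat_lit 128) (@Lb.g g8 (@Lb.g g10 (@Lb.g g11 (@Lb.r r353 (@Lb.r r667 (@Lb.r r664 (@Lb.r r154 (@Lb.d (nat_lit 18) (nat_lit 0) (nat_lit 138) (@Lb.t (@Lb.fm (nat_lit 9) t285)))))))))))
noncomputable def l21849 : Lb := (@Lb.r r82 (@Lb.d (nat_lit 34) (nat_lit 522) (nat_lit 128) (@Lb.g g8 (@Lb.g g9 (@Lb.g g11 (@Lb.r r402 (@Lb.r r359 (@Lb.r r660 (@Lb.r r25 (@Lb.d (nat_lit 26) (nat_lit 41) (nat_lit 134) (@Lb.t (@Lb.fp (nat_lit 9) t607))))))))))))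
noncomputable def l21850 : Lb := (@Lb.r r85 (@Lb.r r327 (@Lb.d (nat_lit 10) (nat_lit 512) (nat_lit 40) (@Lb.g g8 (@Lb.g g10 (@Lb.r r1619 (@Lb.r r2581 (@Lb.r r552 (@Lb.d (nat_lit 329) (nat_lit 16) (nat_lit 322) (@Lb.fm (nat_lit 3) t2005))))))))))
noncomputable def l21851 : Lb := (@Lb.d (nat_lit 2) (nat_lit 0) (nat_lit 0) (@Lb.g g8 (@Lb.r r1049 (@Lb.r r24 (@Lb.d (nat_lit 550) (nat_lit 130) (nat_lit 34) (@Lb.t (@Lb.fm (nat_lit 3) t127)))))))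
noncomputable def l21852 : Lb := (@Lb.d (nat_lit 18) (nat_lit 266) (nat_lit 129) (@Lb.g g8 (@Lb.g g9 (@Lb.g g10 (@Lb.g g11 (@Lb.r r610 (@Lb.r r2659 (@Lb.r r1129 (@Lb.r r2312 (@Lb.d (nat_lit 326) (nat_lit 18) (nat_lit 512) (@Lb.fm (nat_lit 9) t343)))))))))))
noncomputable def l21853 : Lb := (@Lb.d (nat_lit 0) (nat_lit 10) (nat_lit 72) (@Lb.g g8 (@Lb.g g9 (@Lb.g g11 (@Lb.r r134 (@Lb.r r328 (@Lb.r r279 (@Lb.r r545 (@Lb.d (nat_lit 10) (nat_lit 65) (nat_lit 20) (@Lb.t (@Lb.fp (nat_lit 9) t334)))))))))))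
noncomputable def l21854 : Lb := (@Lb.d (nat_lit 0) (nat_lit 6) (nat_lit 72) (@Lb.g g8 (@Lb.g g9 (@Lb.g g10 (@Lb.g g11 (@Lb.r r2073 (@Lb.r r388 (@Lb.r r1627 (@Lb.r r2150 (@Lb.r r132 (@Lb.d (nat_lit 618) (nat_lit 33) (nat_lit 537) (@Lb.fm (nat_lit 9) t4348))))))))))))
noncomputable def l21855 : Lb := (@Lb.r r331 (@Lb.d (nat_lit 673) (nat_lit 2) (nat_lit 2) (@Lb.g g8 (@Lb.g g9 (@Lb.g g10 (@Lb.r r362 (@Lb.r r1411 (@Lb.r r25 (@Lb.d (nat_lit 8) (nat_lit 161) (nat_lit 618) (@Lb.t (@Lb.fm (nat_lit 9) t1792)))))))))))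
noncomputable def l21856 : Lb := (@Lb.d (nat_lit 128) (nat_lit 514) (nat_lit 130) (@Lb.g g8 (@Lb.g g9 (@Lb.g g10 (@Lb.g g11 (@Lb.r r2410 (@Lb.r r1411 (@Lb.r r409 (@Lb.r r388 (@Lb.d (nat_lit 104) (nat_lit 9) (nat_lit 137) (@Lb.fp (nat_lit 9) t1792)))))))))))
noncomputable def l21857 : Lb := (@Lb.d (nat_lit 128) (nat_lit 388) (nat_lit 353) (@Lb.r r2438 (@Lb.r r347 (@Lb.r r677 (@Lb.g g7 (@Lb.g g6 (@Lb.g g5 (@Lb.g g8 (@Lb.d (nat_lit 330) (nat_lit 0) (nat_lit 65) (@Lb.fm (nat_lit 9) t800))))))))))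
noncomputable def l21858 : Lb := (@Lb.r r331 (@Lb.d (nat_lit 673) (nat_lit 514) (nat_lit 2) (@Lb.g g8 (@Lb.g g9 (@Lb.g g10 (@Lb.r r362 (@Lb.r r1411 (@Lb.r r25 (@Lb.d (nat_lit 8) (nat_lit 166) (nat_lit 616) (@Lb.t (@Lb.fm (nat_lit 9) t1792)))))))))))
noncomputable def l21859 : Lb := (@Lb.d (nat_lit 664) (nat_lit 548) (nat_lit 69) (@Lb.r r97 (@Lb.r r331 (@Lb.r r662 (@Lb.g g7 (@Lb.g g6 (@Lb.g g8 (@Lb.d (nat_lit 614) (nat_lit 0) (nat_lit 64) (@Lb.r r25 (@Lb.t (@Lb.fm (nat_lit 9) t4349)))))))))))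
noncomputable def l21860 : Lb := (@Lb.d (nat_lit 0) (nat_lit 266) (nat_lit 72) (@Lb.g g8 (@Lb.g g9 (@Lb.g g11 (@Lb.r r134 (@Lb.r r328 (@Lb.r r279 (@Lb.r r545 (@Lb.d (nat_lit 9) (nat_lit 65) (nat_lit 20) (@Lb.t (@Lb.fp (nat_lit 9) t334)))))))))))
noncomputable def l21861 : Lb := (@Lb.d (nat_lit 1) (nat_lit 66) (nat_lit 73) (@Lb.g g4 (@Lb.g g9 (@Lb.g g10 (@Lb.g g11 (@Lb.r r2658 (@Lb.r r579 (@Lb.d (nat_lit 0) (nat_lit 97) (nat_lit 586) (@Lb.fp (nat_lit 9) t51)))))))))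
noncomputable def l21862 : Lb := (@Lb.d (nat_lit 544) (nat_lit 388) (nat_lit 168) (@Lb.r r405 (@Lb.r r2454 (@Lb.r r1096 (@Lb.r r1319 (@Lb.g g9 (@Lb.t (@Lb.fp (nat_lit 3) t2238))))))))
noncomputable def l21863 : Lb := (@Lb.r r283 (@Lb.d (nat_lit 2) (nat_lit 514) (nat_lit 2) (@Lb.g g8 (@Lb.g g9 (@Lb.g g10 (@Lb.r r1707 (@Lb.r r2210 (@Lb.r r1129 (@Lb.r r100 (@Lb.d (nat_lit 326) (nat_lit 10) (nat_lit 513) (@Lb.t (@Lb.fp (nat_lit 9) t4350))))))))))))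
noncomputable def l21864 : Lb := (@Lb.d (nat_lit 2) (nat_lit 32) (nat_lit 64) (@Lb.g g8 (@Lb.g g11 (@Lb.r r2337 (@Lb.r r531 (@Lb.r r2178 (@Lb.d (nat_lit 329) (nat_lit 33) (nat_lit 640) (@Lb.fp (nat_lit 3) t1079))))))))
noncomputable def l21865 : Lb := (@Lb.d (nat_lit 32) (nat_lit 513) (nat_lit 130) (@Lb.g g9 (@Lb.g g10 (@Lb.g g11 (@Lb.r r1411 (@Lb.r r40 (@Lb.r r1177 (@Lb.r r1426 (@Lb.d (nat_lit 145) (nat_lit 85) (nat_lit 65) (@Lb.t (@Lb.fm (nat_lit 9) t188)))))))))))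
noncomputable def l21866 : Lb := (@Lb.d (nat_lit 0) (nat_lit 289) (nat_lit 129) (@Lb.g g9 (@Lb.g g10 (@Lb.g g11 (@Lb.r r1699 (@Lb.r r2713 (@Lb.r r1178 (@Lb.r r24 (@Lb.d (nat_lit 166) (nat_lit 81) (nat_lit 649) (@Lb.t (@Lb.fp (nat_lit 9) t4351)))))))))))
noncomputable def l21867 : Lb := (@Lb.d (nat_lit 34) (nat_lit 128) (nat_lit 18) (@Lb.r r89 (@Lb.r r2150 (@Lb.g g9 (@Lb.t (@Lb.fp (nat_lit 3) t3979))))))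
noncomputable def l21868 : Lb := (@Lb.d (nat_lit 9) (nat_lit 513) (nat_lit 130) (@Lb.g g8 (@Lb.g g9 (@Lb.g g10 (@Lb.g g11 (@Lb.r r1602 (@Lb.r r409 (@Lb.r r2659 (@Lb.r r2577 (@Lb.r r2564 (@Lb.d (nat_lit 640) (nat_lit 73) (nat_lit 329) (@Lb.fm (nat_lit 9) t4352))))))))))))
noncomputable def l21869 : Lb := (@Lb.d (nat_lit 0) (nat_lit 0) (nat_lit 2) (@Lb.g g10 (@Lb.r r2129 (@Lb.r r98 (@Lb.d (nat_lit 290) (nat_lit 130) (nat_lit 0) (@Lb.t (@Lb.fp (nat_lit 3) t761)))))))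
noncomputable def l21870 : Lb := (@Lb.r r20 (@Lb.r r275 (@Lb.d (nat_lit 0) (nat_lit 394) (nat_lit 1) (@Lb.g g9 (@Lb.g g10 (@Lb.r r1443 (@Lb.r r1160 (@Lb.r r1130 (@Lb.d (nat_lit 102) (nat_lit 134) (nat_lit 546) (@Lb.fp (nat_lit 3) t4353))))))))))
noncomputable def l21871 : Lb := (@Lb.d (nat_lit 9) (nat_lit 0) (nat_lit 105) (@Lb.g g8 (@Lb.g g6 (@Lb.g g11 (@Lb.r r341 (@Lb.r r2731 (@Lb.r r1608 (@Lb.d (nat_lit 328) (nat_lit 70) (nat_lit 664) (@Lb.t (@Lb.fp (nat_lit 9) t4111))))))))))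
noncomputable def l21872 : Lb := (@Lb.d (nat_lit 33) (nat_lit 514) (nat_lit 128) (@Lb.g g8 (@Lb.g g9 (@Lb.g g11 (@Lb.r r2411 (@Lb.r r146 (@Lb.r r1621 (@Lb.r r2468 (@Lb.d (nat_lit 612) (nat_lit 165) (nat_lit 602) (@Lb.t (@Lb.fp (nat_lit 9) t2113)))))))))))
noncomputable def l21873 : Lb := (@Lb.r r323 (@Lb.d (nat_lit 129) (nat_lit 34) (nat_lit 0) (@Lb.g g8 (@Lb.g g9 (@Lb.g g10 (@Lb.r r599 (@Lb.r r98 (@Lb.r r408 (@Lb.r r101 (@Lb.d (nat_lit 516) (nat_lit 40) (nat_lit 161) (@Lb.t (@Lb.fp (nat_lit 9) t221))))))))))))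
noncomputable def l21874 : Lb := (@Lb.r r323 (@Lb.d (nat_lit 130) (nat_lit 260) (nat_lit 0) (@Lb.g g8 (@Lb.g g9 (@Lb.g g10 (@Lb.r r2473 (@Lb.r r1683 (@Lb.r r1610 (@Lb.r r72 (@Lb.d (nat_lit 641) (nat_lit 64) (nat_lit 674) (@Lb.t (@Lb.fp (nat_lit 9) t510))))))))))))
noncomputable def l21875 : Lb := (@Lb.d (nat_lit 146) (nat_lit 288) (nat_lit 128) (@Lb.g g8 (@Lb.g g10 (@Lb.g g11 (@Lb.r r1313 (@Lb.r r1299 (@Lb.r r1130 (@Lb.r r72 (@Lb.d (nat_lit 33) (nat_lit 18) (nat_lit 400) (@Lb.t (@Lb.fm (nat_lit 9) t1928)))))))))))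
noncomputable def l21876 : Lb := (@Lb.d (nat_lit 32) (nat_lit 264) (nat_lit 2) (@Lb.g g10 (@Lb.r r104 (@Lb.r r1641 (@Lb.r r2411 (@Lb.r r2710 (@Lb.d (nat_lit 390) (nat_lit 170) (nat_lit 296) (@Lb.t (@Lb.fm (nat_lit 3) t100)))))))))
noncomputable def l21877 : Lb := (@Lb.r r323 (@Lb.d (nat_lit 130) (nat_lit 4) (nat_lit 0) (@Lb.g g8 (@Lb.g g9 (@Lb.g g10 (@Lb.r r2473 (@Lb.r r1683 (@Lb.r r1610 (@Lb.r r72 (@Lb.d (nat_lit 642) (nat_lit 64) (nat_lit 674) (@Lb.t (@Lb.fp (nat_lit 9) t629))))))))))))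
noncomputable def l21878 : Lb := (@Lb.d (nat_lit 601) (nat_lit 353) (nat_lit 512) (@Lb.r r1576 (@Lb.r r281 (@Lb.r r2643 (@Lb.g g7 (@Lb.g g10 (@Lb.g g4 (@Lb.d (nat_lit 101) (nat_lit 4) (nat_lit 8) (@Lb.r r145 (@Lb.t (@Lb.fm (nat_lit 9) t443)))))))))))
noncomputable def l21879 : Lb := (@Lb.d (nat_lit 680) (nat_lit 537) (nat_lit 644) (@Lb.r r1371 (@Lb.r r1705 (@Lb.g g7 (@Lb.g g6 (@Lb.g g5 (@Lb.d (nat_lit 16) (nat_lit 1) (nat_lit 150) (@Lb.r r2564 (@Lb.t (@Lb.fm (nat_lit 9) t4354))))))))))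
noncomputable def l21880 : Lb := (@Lb.d (nat_lit 128) (nat_lit 521) (nat_lit 0) (@Lb.g g8 (@Lb.g g9 (@Lb.r r663 (@Lb.r r146 (@Lb.r r97 (@Lb.r r392 (@Lb.d (nat_lit 146) (nat_lit 0) (nat_lit 169) (@Lb.fm (nat_lit 3) t45)))))))))
noncomputable def l21881 : Lb := (@Lb.d (nat_lit 138) (nat_lit 521) (nat_lit 0) (@Lb.g g8 (@Lb.g g9 (@Lb.r r263 (@Lb.r r2194 (@Lb.r r1121 (@Lb.r r520 (@Lb.d (nat_lit 66) (nat_lit 138) (nat_lit 22) (@Lb.fp (nat_lit 3) t2)))))))))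
noncomputable def l21882 : Lb := (@Lb.d (nat_lit 66) (nat_lit 34) (nat_lit 66) (@Lb.g g8 (@Lb.g g9 (@Lb.g g10 (@Lb.g g11 (@Lb.r r1411 (@Lb.r r420 (@Lb.r r1173 (@Lb.r r2454 (@Lb.r r36 (@Lb.d (nat_lit 81) (nat_lit 98) (nat_lit 9) (@Lb.fm (nat_lit 9) t344))))))))))))
noncomputable def l21883 : Lb := (@Lb.r r82 (@Lb.d (nat_lit 128) (nat_lit 322) (nat_lit 0) (@Lb.g g8 (@Lb.g g9 (@Lb.r r263 (@Lb.r r386 (@Lb.r r520 (@Lb.d (nat_lit 68) (nat_lit 26) (nat_lit 2) (@Lb.fm (nat_lit 3) t607)))))))))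
noncomputable def l21884 : Lb := (@Lb.d (nat_lit 130) (nat_lit 0) (nat_lit 0) (@Lb.g g4 (@Lb.r r555 (@Lb.r r402 (@Lb.r r609 (@Lb.r r148 (@Lb.d (nat_lit 20) (nat_lit 73) (nat_lit 18) (@Lb.t (@Lb.fp (nat_lit 3) t334)))))))))
noncomputable def l21885 : Lb := (@Lb.d (nat_lit 4) (nat_lit 256) (nat_lit 130) (@Lb.g g8 (@Lb.g g9 (@Lb.g g10 (@Lb.g g11 (@Lb.r r2691 (@Lb.r r297 (@Lb.r r360 (@Lb.r r582 (@Lb.r r2180 (@Lb.d (nat_lit 642) (nat_lit 10) (nat_lit 329) (@Lb.fm (nat_lit 9) t242))))))))))))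
noncomputable def l21886 : Lb := (@Lb.r r21 (@Lb.r r70 (@Lb.d (nat_lit 513) (nat_lit 0) (nat_lit 128) (@Lb.g g4 (@Lb.g g11 (@Lb.r r583 (@Lb.r r402 (@Lb.r r25 (@Lb.d (nat_lit 256) (nat_lit 1) (nat_lit 2) (@Lb.fp (nat_lit 3) t375))))))))))
noncomputable def l21887 : Lb := (@Lb.d (nat_lit 644) (nat_lit 518) (nat_lit 262) (@Lb.r r24 (@Lb.r r97 (@Lb.r r386 (@Lb.g g11 (@Lb.g g6 (@Lb.g g5 (@Lb.d (nat_lit 0) (nat_lit 1) (nat_lit 129) (@Lb.t (@Lb.fp (nat_lit 9) t1884))))))))))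
noncomputable def l21888 : Lb := (@Lb.d (nat_lit 5) (nat_lit 166) (nat_lit 646) (@Lb.r r24 (@Lb.r r97 (@Lb.r r386 (@Lb.g g11 (@Lb.g g6 (@Lb.g g5 (@Lb.d (nat_lit 0) (nat_lit 1) (nat_lit 129) (@Lb.t (@Lb.fp (nat_lit 9) t925))))))))))
noncomputable def l21889 : Lb := (@Lb.d (nat_lit 165) (nat_lit 6) (nat_lit 656) (@Lb.r r24 (@Lb.r r101 (@Lb.r r2642 (@Lb.r r2435 (@Lb.g g7 (@Lb.g g6 (@Lb.g g4 (@Lb.d (nat_lit 0) (nat_lit 0) (nat_lit 74) (@Lb.t (@Lb.fp (nat_lit 9) t4355)))))))))))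
noncomputable def l21890 : Lb := (@Lb.d (nat_lit 2) (nat_lit 512) (nat_lit 128) (@Lb.g g8 (@Lb.g g11 (@Lb.r r2407 (@Lb.r r2178 (@Lb.r r2644 (@Lb.r r2201 (@Lb.d (nat_lit 262) (nat_lit 164) (nat_lit 673) (@Lb.fp (nat_lit 3) t1743)))))))))
noncomputable def l21891 : Lb := (@Lb.d (nat_lit 298) (nat_lit 10) (nat_lit 661) (@Lb.r r150 (@Lb.r r72 (@Lb.r r293 (@Lb.r r2395 (@Lb.g g7 (@Lb.g g6 (@Lb.g g5 (@Lb.d (nat_lit 16) (nat_lit 1) (nat_lit 65) (@Lb.t (@Lb.fm (nat_lit 9) t4356)))))))))))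
noncomputable def l21892 : Lb := (@Lb.d (nat_lit 134) (nat_lit 1) (nat_lit 614) (@Lb.r r2632 (@Lb.r r81 (@Lb.r r2635 (@Lb.g g7 (@Lb.g g10 (@Lb.g g4 (@Lb.d (nat_lit 0) (nat_lit 0) (nat_lit 81) (@Lb.r r25 (@Lb.t (@Lb.fm (nat_lit 9) t4066)))))))))))
noncomputable def l21893 : Lb := (@Lb.d (nat_lit 170) (nat_lit 345) (nat_lit 592) (@Lb.r r2584 (@Lb.r r81 (@Lb.r r2651 (@Lb.g g7 (@Lb.g g10 (@Lb.g g4 (@Lb.d (nat_lit 17) (nat_lit 4) (nat_lit 82) (@Lb.r r25 (@Lb.t (@Lb.fm (nat_lit 9) t4357)))))))))))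
noncomputable def l21894 : Lb := (@Lb.d (nat_lit 0) (nat_lit 400) (nat_lit 320) (@Lb.r r2308 (@Lb.r r2178 (@Lb.r r1419 (@Lb.r r420 (@Lb.g g7 (@Lb.g g9 (@Lb.g g4 (@Lb.d (nat_lit 6) (nat_lit 68) (nat_lit 0) (@Lb.t (@Lb.fp (nat_lit 9) t1019)))))))))))
noncomputable def l21895 : Lb := (@Lb.d (nat_lit 1) (nat_lit 0) (nat_lit 129) (@Lb.g g4 (@Lb.g g10 (@Lb.g g11 (@Lb.r r1634 (@Lb.r r2659 (@Lb.r r1633 (@Lb.d (nat_lit 1) (nat_lit 153) (nat_lit 386) (@Lb.t (@Lb.fp (nat_lit 9) t752))))))))))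
noncomputable def l21896 : Lb := (@Lb.d (nat_lit 0) (nat_lit 261) (nat_lit 130) (@Lb.g g9 (@Lb.g g10 (@Lb.g g11 (@Lb.r r674 (@Lb.r r387 (@Lb.r r2577 (@Lb.d (nat_lit 0) (nat_lit 129) (nat_lit 297) (@Lb.t (@Lb.fp (nat_lit 9) t4358))))))))))
noncomputable def l21897 : Lb := (@Lb.r r70 (@Lb.d (nat_lit 2) (nat_lit 514) (nat_lit 128) (@Lb.g g8 (@Lb.g g9 (@Lb.g g11 (@Lb.r r1611 (@Lb.r r418 (@Lb.r r145 (@Lb.r r1060 (@Lb.d (nat_lit 326) (nat_lit 70) (nat_lit 545) (@Lb.t (@Lb.fm (nat_lit 9) t50))))))))))))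
noncomputable def l21898 : Lb := (@Lb.d (nat_lit 5) (nat_lit 256) (nat_lit 130) (@Lb.g g8 (@Lb.g g9 (@Lb.g g10 (@Lb.g g11 (@Lb.r r1379 (@Lb.r r386 (@Lb.r r40 (@Lb.r r105 (@Lb.r r1060 (@Lb.d (nat_lit 512) (nat_lit 10) (nat_lit 136) (@Lb.fm (nat_lit 9) t61))))))))))))
noncomputable def l21899 : Lb := (@Lb.d (nat_lit 8) (nat_lit 512) (nat_lit 73) (@Lb.g g9 (@Lb.g g10 (@Lb.g g11 (@Lb.r r423 (@Lb.r r596 (@Lb.r r666 (@Lb.r r337 (@Lb.d (nat_lit 6) (nat_lit 37) (nat_lit 6) (@Lb.t (@Lb.fp (nat_lit 9) t51)))))))))))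
noncomputable def l21900 : Lb := (@Lb.d (nat_lit 8) (nat_lit 512) (nat_lit 73) (@Lb.g g9 (@Lb.g g10 (@Lb.g g11 (@Lb.r r423 (@Lb.r r596 (@Lb.r r666 (@Lb.r r337 (@Lb.d (nat_lit 6) (nat_lit 166) (nat_lit 6) (@Lb.t (@Lb.fp (nat_lit 9) t51)))))))))))
noncomputable def l21901 : Lb := (@Lb.d (nat_lit 2) (nat_lit 265) (nat_lit 129) (@Lb.g g8 (@Lb.g g9 (@Lb.g g10 (@Lb.g g11 (@Lb.r r427 (@Lb.r r424 (@Lb.r r106 (@Lb.r r25 (@Lb.d (nat_lit 26) (nat_lit 9) (nat_lit 18) (@Lb.fm (nat_lit 9) t2724)))))))))))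
noncomputable def l21902 : Lb := (@Lb.d (nat_lit 1) (nat_lit 0) (nat_lit 128) (@Lb.g g8 (@Lb.g g11 (@Lb.r r353 (@Lb.r r667 (@Lb.r r664 (@Lb.r r154 (@Lb.d (nat_lit 25) (nat_lit 2) (nat_lit 69) (@Lb.fm (nat_lit 3) t87)))))))))
noncomputable def l21903 : Lb := (@Lb.d (nat_lit 1) (nat_lit 521) (nat_lit 129) (@Lb.g g8 (@Lb.g g9 (@Lb.g g10 (@Lb.g g11 (@Lb.r r2459 (@Lb.r r297 (@Lb.r r1384 (@Lb.r r2630 (@Lb.d (nat_lit 665) (nat_lit 73) (nat_lit 289) (@Lb.fp (nat_lit 9) t375)))))))))))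
noncomputable def l21904 : Lb := (@Lb.r r263 (@Lb.d (nat_lit 545) (nat_lit 258) (nat_lit 1) (@Lb.g g8 (@Lb.g g9 (@Lb.g g10 (@Lb.r r618 (@Lb.r r2627 (@Lb.r r25 (@Lb.d (nat_lit 8) (nat_lit 161) (nat_lit 384) (@Lb.t (@Lb.fp (nat_lit 9) t1792)))))))))))
noncomputable def l21905 : Lb := (@Lb.g g4 (@Lb.g g11 (@Lb.r r273 (@Lb.r r1703 (@Lb.r r1606 (@Lb.r r2408 (@Lb.r r153 (@Lb.d (nat_lit 0) (nat_lit 537) (nat_lit 356) (@Lb.fp (nat_lit 3) t2243)))))))))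
noncomputable def l21906 : Lb := (@Lb.d (nat_lit 2) (nat_lit 1) (nat_lit 0) (@Lb.g g8 (@Lb.g g9 (@Lb.g g11 (@Lb.r r353 (@Lb.r r594 (@Lb.r r2391 (@Lb.r r1624 (@Lb.r r149 (@Lb.d (nat_lit 0) (nat_lit 162) (nat_lit 641) (@Lb.t (@Lb.fm (nat_lit 9) t2243))))))))))))
noncomputable def l21907 : Lb := (@Lb.d (nat_lit 8) (nat_lit 258) (nat_lit 73) (@Lb.g g9 (@Lb.g g10 (@Lb.g g11 (@Lb.r r1447 (@Lb.r r2644 (@Lb.r r2714 (@Lb.r r1361 (@Lb.d (nat_lit 6) (nat_lit 38) (nat_lit 278) (@Lb.t (@Lb.fp (nat_lit 9) t51)))))))))))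
noncomputable def l21908 : Lb := (@Lb.d (nat_lit 70) (nat_lit 289) (nat_lit 32) (@Lb.r r408 (@Lb.r r330 (@Lb.r r343 (@Lb.g g5 (@Lb.g g4 (@Lb.d (nat_lit 17) (nat_lit 37) (nat_lit 0) (@Lb.r r291 (@Lb.r r98 (@Lb.fp (nat_lit 3) t355))))))))))
noncomputable def l21909 : Lb := (@Lb.d (nat_lit 2) (nat_lit 514) (nat_lit 130) (@Lb.g g8 (@Lb.g g9 (@Lb.g g10 (@Lb.g g11 (@Lb.r r2411 (@Lb.r r386 (@Lb.r r104 (@Lb.r r25 (@Lb.d (nat_lit 280) (nat_lit 4) (nat_lit 152) (@Lb.fp (nat_lit 9) t61)))))))))))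
noncomputable def l21910 : Lb := (@Lb.d (nat_lit 4) (nat_lit 258) (nat_lit 2) (@Lb.g g8 (@Lb.g g9 (@Lb.g g10 (@Lb.r r515 (@Lb.r r1130 (@Lb.r r1049 (@Lb.d (nat_lit 521) (nat_lit 33) (nat_lit 260) (@Lb.t (@Lb.fp (nat_lit 9) t334))))))))))
noncomputable def l21911 : Lb := (@Lb.d (nat_lit 1) (nat_lit 258) (nat_lit 130) (@Lb.g g8 (@Lb.g g9 (@Lb.g g10 (@Lb.g g11 (@Lb.r r1443 (@Lb.r r297 (@Lb.r r104 (@Lb.r r70 (@Lb.r r132 (@Lb.d (nat_lit 545) (nat_lit 0) (nat_lit 418) (@Lb.fp (nat_lit 9) t88))))))))))))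
noncomputable def l21912 : Lb := (@Lb.d (nat_lit 2) (nat_lit 0) (nat_lit 0) (@Lb.g g8 (@Lb.g g11 (@Lb.r r1346 (@Lb.r r387 (@Lb.d (nat_lit 0) (nat_lit 162) (nat_lit 18) (@Lb.fm (nat_lit 3) t373)))))))
noncomputable def l21913 : Lb := (@Lb.r r323 (@Lb.d (nat_lit 129) (nat_lit 521) (nat_lit 2) (@Lb.g g8 (@Lb.g g9 (@Lb.g g10 (@Lb.r r1699 (@Lb.r r1194 (@Lb.r r2201 (@Lb.r r408 (@Lb.d (nat_lit 88) (nat_lit 26) (nat_lit 261) (@Lb.t (@Lb.fp (nat_lit 9) t125))))))))))))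
noncomputable def l21914 : Lb := (@Lb.d (nat_lit 1) (nat_lit 2) (nat_lit 130) (@Lb.g g8 (@Lb.g g9 (@Lb.g g10 (@Lb.g g11 (@Lb.r r1443 (@Lb.r r297 (@Lb.r r104 (@Lb.r r70 (@Lb.r r132 (@Lb.d (nat_lit 545) (nat_lit 5) (nat_lit 416) (@Lb.fp (nat_lit 9) t88))))))))))))
noncomputable def l21915 : Lb := (@Lb.d (nat_lit 2) (nat_lit 264) (nat_lit 2) (@Lb.g g8 (@Lb.g g10 (@Lb.g g11 (@Lb.r r387 (@Lb.d (nat_lit 0) (nat_lit 2) (nat_lit 9) (@Lb.t (@Lb.fm (nat_lit 9) t369))))))))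
noncomputable def l21916 : Lb := (@Lb.d (nat_lit 649) (nat_lit 386) (nat_lit 256) (@Lb.r r24 (@Lb.g g9 (@Lb.d (nat_lit 8) (nat_lit 2) (nat_lit 0) (@Lb.t (@Lb.fm (nat_lit 3) t121))))))
noncomputable def l21917 : Lb := (@Lb.d (nat_lit 642) (nat_lit 128) (nat_lit 256) (@Lb.r r24 (@Lb.g g9 (@Lb.t (@Lb.fm (nat_lit 3) t2308)))))
noncomputable def l21918 : Lb := (@Lb.r r275 (@Lb.d (nat_lit 2) (nat_lit 2) (nat_lit 2) (@Lb.g g8 (@Lb.g g9 (@Lb.g g10 (@Lb.r r1700 (@Lb.r r1543 (@Lb.r r386 (@Lb.r r2145 (@Lb.d (nat_lit 2) (nat_lit 137) (nat_lit 100) (@Lb.t (@Lb.fp (nat_lit 9) t1524))))))))))))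
noncomputable def l21919 : Lb := (@Lb.d (nat_lit 66) (nat_lit 546) (nat_lit 68) (@Lb.r r404 (@Lb.r r363 (@Lb.r r273 (@Lb.g g7 (@Lb.g g10 (@Lb.g g4 (@Lb.d (nat_lit 1) (nat_lit 8) (nat_lit 129) (@Lb.r r25 (@Lb.t (@Lb.fm (nat_lit 9) t983)))))))))))
noncomputable def l21920 : Lb := (@Lb.r r322 (@Lb.d (nat_lit 0) (nat_lit 0) (nat_lit 136) (@Lb.g g9 (@Lb.g g11 (@Lb.r r1426 (@Lb.r r101 (@Lb.d (nat_lit 0) (nat_lit 128) (nat_lit 64) (@Lb.fm (nat_lit 3) t240))))))))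
noncomputable def l21921 : Lb := (@Lb.g g9 (@Lb.r r2343 (@Lb.r r1096 (@Lb.r r2646 (@Lb.r r409 (@Lb.d (nat_lit 514) (nat_lit 584) (nat_lit 1) (@Lb.t (@Lb.fm (nat_lit 3) t1456))))))))
noncomputable def l21922 : Lb := (@Lb.d (nat_lit 34) (nat_lit 2) (nat_lit 1) (@Lb.g g8 (@Lb.g g9 (@Lb.g g10 (@Lb.r r683 (@Lb.r r1689 (@Lb.r r1688 (@Lb.r r602 (@Lb.d (nat_lit 105) (nat_lit 101) (nat_lit 280) (@Lb.t (@Lb.fm (nat_lit 9) t1235)))))))))))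
noncomputable def l21923 : Lb := (@Lb.d (nat_lit 8) (nat_lit 514) (nat_lit 73) (@Lb.g g9 (@Lb.g g10 (@Lb.g g11 (@Lb.r r2691 (@Lb.r r2658 (@Lb.r r24 (@Lb.r r101 (@Lb.d (nat_lit 594) (nat_lit 154) (nat_lit 132) (@Lb.t (@Lb.fp (nat_lit 9) t4359)))))))))))
noncomputable def l21924 : Lb := (@Lb.d (nat_lit 0) (nat_lit 522) (nat_lit 72) (@Lb.g g9 (@Lb.g g10 (@Lb.g g11 (@Lb.r r1555 (@Lb.r r1430 (@Lb.r r1624 (@Lb.r r2341 (@Lb.d (nat_lit 581) (nat_lit 80) (nat_lit 320) (@Lb.t (@Lb.fm (nat_lit 9) t501)))))))))))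
noncomputable def l21925 : Lb := (@Lb.r r82 (@Lb.d (nat_lit 2) (nat_lit 528) (nat_lit 132) (@Lb.g g8 (@Lb.g g9 (@Lb.g g7 (@Lb.r r386 (@Lb.r r2153 (@Lb.r r36 (@Lb.d (nat_lit 297) (nat_lit 2) (nat_lit 98) (@Lb.t (@Lb.fp (nat_lit 9) t42)))))))))))
noncomputable def l21926 : Lb := (@Lb.d (nat_lit 0) (nat_lit 384) (nat_lit 66) (@Lb.r r1432 (@Lb.r r2641 (@Lb.r r579 (@Lb.r r2370 (@Lb.g g7 (@Lb.d (nat_lit 0) (nat_lit 0) (nat_lit 64) (@Lb.t (@Lb.fm (nat_lit 3) t148)))))))))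
noncomputable def l21927 : Lb := (@Lb.r r82 (@Lb.d (nat_lit 0) (nat_lit 16) (nat_lit 128) (@Lb.g g9 (@Lb.g g11 (@Lb.r r2595 (@Lb.r r1634 (@Lb.r r1553 (@Lb.r r24 (@Lb.d (nat_lit 0) (nat_lit 66) (nat_lit 384) (@Lb.fm (nat_lit 3) t148))))))))))
noncomputable def l21928 : Lb := (@Lb.d (nat_lit 1) (nat_lit 514) (nat_lit 66) (@Lb.g g8 (@Lb.g g9 (@Lb.g g10 (@Lb.g g7 (@Lb.r r386 (@Lb.r r2153 (@Lb.r r36 (@Lb.d (nat_lit 297) (nat_lit 2) (nat_lit 41) (@Lb.fm (nat_lit 9) t40))))))))))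
noncomputable def l21929 : Lb := (@Lb.d (nat_lit 2) (nat_lit 2) (nat_lit 66) (@Lb.g g8 (@Lb.g g9 (@Lb.g g10 (@Lb.g g7 (@Lb.r r386 (@Lb.r r2153 (@Lb.r r36 (@Lb.d (nat_lit 290) (nat_lit 0) (nat_lit 41) (@Lb.fm (nat_lit 9) t40))))))))))
noncomputable def l21930 : Lb := (@Lb.d (nat_lit 2) (nat_lit 514) (nat_lit 66) (@Lb.g g8 (@Lb.g g9 (@Lb.g g10 (@Lb.g g7 (@Lb.r r386 (@Lb.r r2153 (@Lb.r r36 (@Lb.d (nat_lit 297) (nat_lit 2) (nat_lit 169) (@Lb.fm (nat_lit 9) t40))))))))))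
noncomputable def l21931 : Lb := (@Lb.r r323 (@Lb.d (nat_lit 37) (nat_lit 256) (nat_lit 2) (@Lb.g g8 (@Lb.g g9 (@Lb.g g10 (@Lb.r r1689 (@Lb.r r279 (@Lb.r r1350 (@Lb.r r520 (@Lb.d (nat_lit 80) (nat_lit 0) (nat_lit 129) (@Lb.t (@Lb.fp (nat_lit 9) t1368))))))))))))
noncomputable def l21932 : Lb := (@Lb.d (nat_lit 16) (nat_lit 513) (nat_lit 128) (@Lb.g g8 (@Lb.g g9 (@Lb.g g10 (@Lb.g g11 (@Lb.r r586 (@Lb.r r1608 (@Lb.r r411 (@Lb.r r593 (@Lb.d (nat_lit 521) (nat_lit 88) (nat_lit 84) (@Lb.fm (nat_lit 9) t4360)))))))))))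
noncomputable def l21933 : Lb := (@Lb.r r323 (@Lb.d (nat_lit 132) (nat_lit 512) (nat_lit 32) (@Lb.g g8 (@Lb.g g9 (@Lb.g g10 (@Lb.r r263 (@Lb.r r2201 (@Lb.r r536 (@Lb.d (nat_lit 362) (nat_lit 34) (nat_lit 33) (@Lb.t (@Lb.fp (nat_lit 9) t2806)))))))))))
noncomputable def l21934 : Lb := (@Lb.d (nat_lit 8) (nat_lit 514) (nat_lit 128) (@Lb.g g9 (@Lb.g g10 (@Lb.g g11 (@Lb.r r2587 (@Lb.r r426 (@Lb.r r24 (@Lb.r r101 (@Lb.d (nat_lit 326) (nat_lit 160) (nat_lit 354) (@Lb.t (@Lb.fm (nat_lit 9) t4361)))))))))))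
noncomputable def l21935 : Lb := (@Lb.r r326 (@Lb.d (nat_lit 2) (nat_lit 34) (nat_lit 64) (@Lb.g g8 (@Lb.g g9 (@Lb.g g11 (@Lb.r r657 (@Lb.r r407 (@Lb.r r1540 (@Lb.d (nat_lit 424) (nat_lit 138) (nat_lit 656) (@Lb.t (@Lb.fm (nat_lit 9) t3617)))))))))))
noncomputable def l21936 : Lb := (@Lb.r r323 (@Lb.d (nat_lit 0) (nat_lit 9) (nat_lit 2) (@Lb.g g8 (@Lb.g g9 (@Lb.g g10 (@Lb.r r646 (@Lb.r r328 (@Lb.r r1575 (@Lb.r r1553 (@Lb.d (nat_lit 0) (nat_lit 40) (nat_lit 130) (@Lb.t (@Lb.fp (nat_lit 9) t842))))))))))))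
noncomputable def l21937 : Lb := (@Lb.r r323 (@Lb.d (nat_lit 2) (nat_lit 265) (nat_lit 2) (@Lb.g g8 (@Lb.g g9 (@Lb.g g10 (@Lb.r r646 (@Lb.r r328 (@Lb.r r1575 (@Lb.r r1553 (@Lb.d (nat_lit 0) (nat_lit 40) (nat_lit 130) (@Lb.t (@Lb.fp (nat_lit 9) t842))))))))))))
noncomputable def l21938 : Lb := (@Lb.d (nat_lit 32) (nat_lit 546) (nat_lit 130) (@Lb.g g9 (@Lb.g g10 (@Lb.g g11 (@Lb.r r1707 (@Lb.r r1689 (@Lb.r r100 (@Lb.r r410 (@Lb.d (nat_lit 386) (nat_lit 26) (nat_lit 169) (@Lb.t (@Lb.fm (nat_lit 9) t74)))))))))))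
noncomputable def l21939 : Lb := (@Lb.d (nat_lit 0) (nat_lit 0) (nat_lit 130) (@Lb.g g10 (@Lb.g g11 (@Lb.r r1447 (@Lb.r r386 (@Lb.r r1045 (@Lb.r r8 (@Lb.d (nat_lit 34) (nat_lit 98) (nat_lit 162) (@Lb.fm (nat_lit 3) t3056)))))))))
noncomputable def l21940 : Lb := (@Lb.d (nat_lit 64) (nat_lit 0) (nat_lit 392) (@Lb.g g11 (@Lb.r r402 (@Lb.r r1045 (@Lb.r r8 (@Lb.d (nat_lit 256) (nat_lit 64) (nat_lit 90) (@Lb.t (@Lb.fp (nat_lit 3) t4362))))))))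
noncomputable def l21941 : Lb := (@Lb.d (nat_lit 1) (nat_lit 98) (nat_lit 0) (@Lb.r r1317 (@Lb.r r2648 (@Lb.r r1414 (@Lb.g g5 (@Lb.g g4 (@Lb.fp (nat_lit 3) t1719)))))))
noncomputable def l21942 : Lb := (@Lb.d (nat_lit 101) (nat_lit 546) (nat_lit 130) (@Lb.g g8 (@Lb.g g9 (@Lb.g g10 (@Lb.g g11 (@Lb.r r610 (@Lb.r r617 (@Lb.r r619 (@Lb.r r1572 (@Lb.d (nat_lit 674) (nat_lit 144) (nat_lit 610) (@Lb.fp (nat_lit 9) t4363)))))))))))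
noncomputable def l21943 : Lb := (@Lb.g g4 (@Lb.g g7 (@Lb.d (nat_lit 1) (nat_lit 0) (nat_lit 69) (@Lb.fm (nat_lit 3) t2))))
noncomputable def l21944 : Lb := (@Lb.d (nat_lit 8) (nat_lit 9) (nat_lit 0) (@Lb.g g9 (@Lb.r r322 (@Lb.r r659 (@Lb.r r578 (@Lb.d (nat_lit 2) (nat_lit 130) (nat_lit 256) (@Lb.t (@Lb.fm (nat_lit 3) t242))))))))
noncomputable def l21945 : Lb := (@Lb.d (nat_lit 9) (nat_lit 256) (nat_lit 130) (@Lb.g g8 (@Lb.g g10 (@Lb.g g11 (@Lb.r r419 (@Lb.r r1045 (@Lb.r r2468 (@Lb.r r2438 (@Lb.d (nat_lit 609) (nat_lit 10) (nat_lit 296) (@Lb.t (@Lb.fp (nat_lit 9) t188)))))))))))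
noncomputable def l21946 : Lb := (@Lb.d (nat_lit 10) (nat_lit 288) (nat_lit 73) (@Lb.g g8 (@Lb.g g10 (@Lb.g g11 (@Lb.r r618 (@Lb.r r149 (@Lb.r r360 (@Lb.r r2567 (@Lb.d (nat_lit 644) (nat_lit 24) (nat_lit 642) (@Lb.t (@Lb.fm (nat_lit 9) t71)))))))))))
noncomputable def l21947 : Lb := (@Lb.g g9 (@Lb.r r2343 (@Lb.r r1096 (@Lb.r r2646 (@Lb.r r409 (@Lb.d (nat_lit 273) (nat_lit 328) (nat_lit 18) (@Lb.t (@Lb.fm (nat_lit 3) t3997))))))))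
noncomputable def l21948 : Lb := (@Lb.g g9 (@Lb.r r2343 (@Lb.r r1096 (@Lb.r r2646 (@Lb.r r409 (@Lb.d (nat_lit 280) (nat_lit 586) (nat_lit 18) (@Lb.t (@Lb.fm (nat_lit 3) t3997))))))))
noncomputable def l21949 : Lb := (@Lb.d (nat_lit 130) (nat_lit 32) (nat_lit 0) (@Lb.g g8 (@Lb.g g9 (@Lb.r r2695 (@Lb.r r2178 (@Lb.r r1304 (@Lb.r r1189 (@Lb.d (nat_lit 520) (nat_lit 41) (nat_lit 657) (@Lb.fm (nat_lit 3) t2910)))))))))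
noncomputable def l21950 : Lb := (@Lb.r r275 (@Lb.d (nat_lit 129) (nat_lit 256) (nat_lit 0) (@Lb.g g8 (@Lb.g g9 (@Lb.g g10 (@Lb.r r1367 (@Lb.r r2210 (@Lb.r r2193 (@Lb.r r1636 (@Lb.d (nat_lit 409) (nat_lit 85) (nat_lit 612) (@Lb.t (@Lb.fp (nat_lit 9) t584))))))))))))

end Pool.Agent.MP_61a8e3_al.G4.K
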