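import Pool.Agent.MP_61a8e3_al.G4.KR
import Pool.Agent.MP_61a8e3_al.G4.KT0
import Pool.Agent.MP_61a8e3_al.G4.KT1

/-! Part K: labels, part 4. -/

set_option autoImplicit false
set_option maxRecDepth 100000
set_option linter.all false

namespace Pool.Agent.MP_61a8e3_al.G4.K

noncomputable def l21951 : Lb := (@Lb.r r275 (@Lb.d (nat_lit 8) (nat_lit 514) (nat_lit 0) (@Lb.g g5 (@Lb.r r2198 (@Lb.r r360 (@Lb.r r343 (@Lb.r r1697 (@Lb.d (nat_lit 0) (nat_lit 105) (nat_lit 345) (@Lb.t (@Lb.fp (nat_lit 3) t1751))))))))))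
noncomputable def l21952 : Lb := (@Lb.d (nat_lit 609) (nat_lit 137) (nat_lit 357) (@Lb.r r2442 (@Lb.r r148 (@Lb.r r2329 (@Lb.r r1379 (@Lb.g g7 (@Lb.g g6 (@Lb.d (nat_lit 16) (nat_lit 0) (nat_lit 65) (@Lb.fp (nat_lit 3) t1751)))))))))
noncomputable def l21953 : Lb := (@Lb.r r273 (@Lb.d (nat_lit 34) (nat_lit 0) (nat_lit 584) (@Lb.g g8 (@Lb.g g7 (@Lb.r r582 (@Lb.r r2472 (@Lb.r r2073 (@Lb.d (nat_lit 328) (nat_lit 84) (nat_lit 320) (@Lb.fm (nat_lit 3) t1751)))))))))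
noncomputable def l21954 : Lb := (@Lb.d (nat_lit 9) (nat_lit 6) (nat_lit 0) (@Lb.g g8 (@Lb.g g9 (@Lb.g g10 (@Lb.g g11 (@Lb.r r1699 (@Lb.r r164 (@Lb.r r2709 (@Lb.r r2198 (@Lb.r r2084 (@Lb.d (nat_lit 290) (nat_lit 162) (nat_lit 361) (@Lb.fp (nat_lit 9) t2095))))))))))))
noncomputable def l21955 : Lb := (@Lb.d (nat_lit 0) (nat_lit 256) (nat_lit 128) (@Lb.g g11 (@Lb.r r337 (@Lb.r r679 (@Lb.r r340 (@Lb.r r170 (@Lb.r r153 (@Lb.d (nat_lit 6) (nat_lit 81) (nat_lit 288) (@Lb.t (@Lb.fp (nat_lit 3) t210))))))))))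
noncomputable def l21956 : Lb := (@Lb.d (nat_lit 129) (nat_lit 66) (nat_lit 130) (@Lb.g g8 (@Lb.g g9 (@Lb.g g10 (@Lb.g g11 (@Lb.r r2475 (@Lb.r r98 (@Lb.r r264 (@Lb.d (nat_lit 400) (nat_lit 9) (nat_lit 5) (@Lb.fm (nat_lit 9) t4337))))))))))
noncomputable def l21957 : Lb := (@Lb.d (nat_lit 0) (nat_lit 514) (nat_lit 128) (@Lb.g g9 (@Lb.g g11 (@Lb.r r529 (@Lb.r r275 (@Lb.r r2178 (@Lb.r r1553 (@Lb.r r8 (@Lb.d (nat_lit 290) (nat_lit 134) (nat_lit 544) (@Lb.fm (nat_lit 3) t3183))))))))))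
noncomputable def l21958 : Lb := (@Lb.d (nat_lit 0) (nat_lit 0) (nat_lit 128) (@Lb.g g11 (@Lb.r r353 (@Lb.r r663 (@Lb.r r356 (@Lb.r r154 (@Lb.d (nat_lit 577) (nat_lit 0) (nat_lit 528) (@Lb.t (@Lb.fm (nat_lit 3) t1641)))))))))
noncomputable def l21959 : Lb := (@Lb.g g11 (@Lb.r r273 (@Lb.r r551 (@Lb.r r340 (@Lb.r r170 (@Lb.r r153 (@Lb.d (nat_lit 0) (nat_lit 88) (nat_lit 290) (@Lb.t (@Lb.fp (nat_lit 3) t654)))))))))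
noncomputable def l21960 : Lb := (@Lb.r r21 (@Lb.d (nat_lit 18) (nat_lit 256) (nat_lit 0) (@Lb.g g8 (@Lb.g g10 (@Lb.r r1691 (@Lb.r r1381 (@Lb.r r2202 (@Lb.d (nat_lit 330) (nat_lit 9) (nat_lit 530) (@Lb.fp (nat_lit 3) t1278)))))))))
noncomputable def l21961 : Lb := (@Lb.r r21 (@Lb.d (nat_lit 33) (nat_lit 0) (nat_lit 64) (@Lb.g g8 (@Lb.g g11 (@Lb.r r2630 (@Lb.r r145 (@Lb.r r1156 (@Lb.d (nat_lit 290) (nat_lit 10) (nat_lit 280) (@Lb.fm (nat_lit 3) t242)))))))))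
noncomputable def l21962 : Lb := (@Lb.d (nat_lit 2) (nat_lit 550) (nat_lit 5) (@Lb.g g8 (@Lb.g g9 (@Lb.g g10 (@Lb.g g11 (@Lb.r r1671 (@Lb.r r660 (@Lb.r r342 (@Lb.r r2661 (@Lb.d (nat_lit 168) (nat_lit 18) (nat_lit 356) (@Lb.fp (nat_lit 9) t4364)))))))))))
noncomputable def l21963 : Lb := (@Lb.d (nat_lit 2) (nat_lit 518) (nat_lit 1) (@Lb.g g8 (@Lb.g g9 (@Lb.g g10 (@Lb.r r675 (@Lb.r r1681 (@Lb.r r2404 (@Lb.r r1178 (@Lb.d (nat_lit 682) (nat_lit 137) (nat_lit 84) (@Lb.t (@Lb.fm (nat_lit 9) t600)))))))))))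
noncomputable def l21964 : Lb := (@Lb.d (nat_lit 0) (nat_lit 2) (nat_lit 130) (@Lb.g g8 (@Lb.g g9 (@Lb.g g10 (@Lb.g g11 (@Lb.r r427 (@Lb.r r145 (@Lb.r r356 (@Lb.r r154 (@Lb.r r132 (@Lb.d (nat_lit 4) (nat_lit 1) (nat_lit 137) (@Lb.fm (nat_lit 9) t61))))))))))))
noncomputable def l21965 : Lb := (@Lb.d (nat_lit 0) (nat_lit 258) (nat_lit 9) (@Lb.g g9 (@Lb.g g6 (@Lb.r r515 (@Lb.r r97 (@Lb.r r36 (@Lb.d (nat_lit 5) (nat_lit 137) (nat_lit 74) (@Lb.fp (nat_lit 3) t154))))))))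
noncomputable def l21966 : Lb := (@Lb.d (nat_lit 8) (nat_lit 256) (nat_lit 130) (@Lb.g g8 (@Lb.g g10 (@Lb.g g11 (@Lb.r r2443 (@Lb.r r2193 (@Lb.r r2458 (@Lb.r r2436 (@Lb.d (nat_lit 358) (nat_lit 1) (nat_lit 682) (@Lb.t (@Lb.fp (nat_lit 9) t221)))))))))))
noncomputable def l21967 : Lb := (@Lb.d (nat_lit 0) (nat_lit 258) (nat_lit 130) (@Lb.g g8 (@Lb.g g9 (@Lb.g g10 (@Lb.g g11 (@Lb.r r427 (@Lb.r r145 (@Lb.r r356 (@Lb.r r154 (@Lb.r r132 (@Lb.d (nat_lit 10) (nat_lit 2) (nat_lit 137) (@Lb.fm (nat_lit 9) t61))))))))))))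
noncomputable def l21968 : Lb := (@Lb.r r82 (@Lb.d (nat_lit 0) (nat_lit 33) (nat_lit 64) (@Lb.g g8 (@Lb.g g9 (@Lb.g g11 (@Lb.r r2643 (@Lb.r r346 (@Lb.r r612 (@Lb.r r533 (@Lb.d (nat_lit 260) (nat_lit 169) (nat_lit 258) (@Lb.t (@Lb.fp (nat_lit 9) t47))))))))))))
noncomputable def l21969 : Lb := (@Lb.d (nat_lit 137) (nat_lit 257) (nat_lit 25) (@Lb.g g8 (@Lb.g g9 (@Lb.g g6 (@Lb.r r1385 (@Lb.r r2583 (@Lb.r r1320 (@Lb.d (nat_lit 645) (nat_lit 162) (nat_lit 328) (@Lb.t (@Lb.fm (nat_lit 9) t791))))))))))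
noncomputable def l21970 : Lb := (@Lb.d (nat_lit 130) (nat_lit 521) (nat_lit 0) (@Lb.g g8 (@Lb.g g9 (@Lb.r r2375 (@Lb.r r146 (@Lb.r r97 (@Lb.r r1540 (@Lb.d (nat_lit 393) (nat_lit 66) (nat_lit 642) (@Lb.fm (nat_lit 3) t660)))))))))
noncomputable def l21971 : Lb := (@Lb.d (nat_lit 385) (nat_lit 10) (nat_lit 642) (@Lb.r r24 (@Lb.r r101 (@Lb.r r2642 (@Lb.r r2435 (@Lb.g g7 (@Lb.g g6 (@Lb.d (nat_lit 0) (nat_lit 0) (nat_lit 74) (@Lb.fm (nat_lit 3) t4365)))))))))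
noncomputable def l21972 : Lb := (@Lb.d (nat_lit 0) (nat_lit 32) (nat_lit 130) (@Lb.g g9 (@Lb.g g10 (@Lb.g g11 (@Lb.r r2387 (@Lb.r r1702 (@Lb.r r1636 (@Lb.r r1557 (@Lb.d (nat_lit 385) (nat_lit 81) (nat_lit 645) (@Lb.t (@Lb.fp (nat_lit 9) t629)))))))))))
noncomputable def l21973 : Lb := (@Lb.d (nat_lit 129) (nat_lit 258) (nat_lit 66) (@Lb.g g8 (@Lb.g g9 (@Lb.g g10 (@Lb.g g11 (@Lb.r r2666 (@Lb.r r612 (@Lb.r r1319 (@Lb.r r405 (@Lb.r r2084 (@Lb.d (nat_lit 10) (nat_lit 137) (nat_lit 409) (@Lb.fp (nat_lit 9) t2106))))))))))))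
noncomputable def l21974 : Lb := (@Lb.r r323 (@Lb.d (nat_lit 130) (nat_lit 258) (nat_lit 2) (@Lb.g g8 (@Lb.g g9 (@Lb.g g10 (@Lb.r r1639 (@Lb.r r2193 (@Lb.r r2642 (@Lb.r r72 (@Lb.d (nat_lit 346) (nat_lit 37) (nat_lit 136) (@Lb.t (@Lb.fm (nat_lit 9) t91))))))))))))
noncomputable def l21975 : Lb := (@Lb.d (nat_lit 2) (nat_lit 258) (nat_lit 130) (@Lb.g g8 (@Lb.g g9 (@Lb.g g10 (@Lb.g g11 (@Lb.r r2666 (@Lb.r r2664 (@Lb.r r2585 (@Lb.r r2651 (@Lb.d (nat_lit 354) (nat_lit 64) (nat_lit 137) (@Lb.fp (nat_lit 9) t4085)))))))))))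
noncomputable def l21976 : Lb := (@Lb.r r81 (@Lb.d (nat_lit 10) (nat_lit 256) (nat_lit 17) (@Lb.g g8 (@Lb.g g6 (@Lb.r r149 (@Lb.r r104 (@Lb.d (nat_lit 518) (nat_lit 10) (nat_lit 128) (@Lb.fm (nat_lit 3) t722))))))))
noncomputable def l21977 : Lb := (@Lb.d (nat_lit 6) (nat_lit 522) (nat_lit 73) (@Lb.g g8 (@Lb.g g9 (@Lb.g g10 (@Lb.g g11 (@Lb.r r2731 (@Lb.r r2724 (@Lb.r r2214 (@Lb.r r145 (@Lb.d (nat_lit 521) (nat_lit 73) (nat_lit 137) (@Lb.fp (nat_lit 9) t594)))))))))))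
noncomputable def l21978 : Lb := (@Lb.d (nat_lit 38) (nat_lit 260) (nat_lit 74) (@Lb.g g8 (@Lb.g g9 (@Lb.g g10 (@Lb.g g11 (@Lb.r r1435 (@Lb.r r2201 (@Lb.r r1618 (@Lb.r r2180 (@Lb.d (nat_lit 536) (nat_lit 101) (nat_lit 136) (@Lb.fp (nat_lit 9) t321)))))))))))
noncomputable def l21979 : Lb := (@Lb.d (nat_lit 136) (nat_lit 9) (nat_lit 64) (@Lb.g g9 (@Lb.g g11 (@Lb.r r2196 (@Lb.r r662 (@Lb.r r1411 (@Lb.r r281 (@Lb.d (nat_lit 10) (nat_lit 20) (nat_lit 90) (@Lb.fp (nat_lit 3) t322)))))))))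
noncomputable def l21980 : Lb := (@Lb.r r21 (@Lb.d (nat_lit 66) (nat_lit 0) (nat_lit 2) (@Lb.g g8 (@Lb.g g10 (@Lb.g g11 (@Lb.r r2587 (@Lb.r r386 (@Lb.r r97 (@Lb.r r2376 (@Lb.d (nat_lit 416) (nat_lit 90) (nat_lit 416) (@Lb.t (@Lb.fm (nat_lit 9) t509))))))))))))
noncomputable def l21981 : Lb := (@Lb.r r2315 (@Lb.d (nat_lit 32) (nat_lit 257) (nat_lit 0) (@Lb.g g8 (@Lb.g g9 (@Lb.r r662 (@Lb.r r2393 (@Lb.r r1364 (@Lb.d (nat_lit 85) (nat_lit 86) (nat_lit 273) (@Lb.fp (nat_lit 3) t1952)))))))))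
noncomputable def l21982 : Lb := (@Lb.d (nat_lit 33) (nat_lit 513) (nat_lit 72) (@Lb.g g8 (@Lb.g g9 (@Lb.g g11 (@Lb.r r2370 (@Lb.r r1431 (@Lb.r r2585 (@Lb.r r1556 (@Lb.d (nat_lit 133) (nat_lit 105) (nat_lit 609) (@Lb.t (@Lb.fm (nat_lit 9) t322)))))))))))
noncomputable def l21983 : Lb := (@Lb.r r20 (@Lb.d (nat_lit 0) (nat_lit 577) (nat_lit 64) (@Lb.g g9 (@Lb.g g10 (@Lb.g g11 (@Lb.r r610 (@Lb.d (nat_lit 2) (nat_lit 18) (nat_lit 128) (@Lb.t (@Lb.fm (nat_lit 9) t71)))))))))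
noncomputable def l21984 : Lb := (@Lb.d (nat_lit 8) (nat_lit 102) (nat_lit 534) (@Lb.r r21 (@Lb.r r342 (@Lb.r r1707 (@Lb.g g6 (@Lb.g g5 (@Lb.g g4 (@Lb.d (nat_lit 2) (nat_lit 1) (nat_lit 0) (@Lb.t (@Lb.fm (nat_lit 9) t167))))))))))
noncomputable def l21985 : Lb := (@Lb.d (nat_lit 33) (nat_lit 257) (nat_lit 72) (@Lb.g g8 (@Lb.g g9 (@Lb.g g11 (@Lb.r r2370 (@Lb.r r1431 (@Lb.r r2585 (@Lb.r r1556 (@Lb.d (nat_lit 133) (nat_lit 98) (nat_lit 610) (@Lb.t (@Lb.fm (nat_lit 9) t322)))))))))))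
noncomputable def l21986 : Lb := (@Lb.r r70 (@Lb.d (nat_lit 132) (nat_lit 2) (nat_lit 64) (@Lb.g g8 (@Lb.g g9 (@Lb.g g11 (@Lb.r r1307 (@Lb.r r2073 (@Lb.r r660 (@Lb.r r2182 (@Lb.d (nat_lit 4) (nat_lit 169) (nat_lit 137) (@Lb.t (@Lb.fp (nat_lit 9) t321))))))))))))
noncomputable def l21987 : Lb := (@Lb.d (nat_lit 2) (nat_lit 32) (nat_lit 72) (@Lb.g g8 (@Lb.g g11 (@Lb.r r2402 (@Lb.r r353 (@Lb.r r1427 (@Lb.d (nat_lit 642) (nat_lit 80) (nat_lit 602) (@Lb.fp (nat_lit 3) t322))))))))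
noncomputable def l21988 : Lb := (@Lb.r r346 (@Lb.r r328 (@Lb.r r535 (@Lb.r r289 (@Lb.d (nat_lit 261) (nat_lit 576) (nat_lit 512) (@Lb.fm (nat_lit 1) t259))))))
noncomputable def l21989 : Lb := (@Lb.r r323 (@Lb.d (nat_lit 130) (nat_lit 329) (nat_lit 1) (@Lb.g g8 (@Lb.g g9 (@Lb.g g10 (@Lb.r r1623 (@Lb.r r2146 (@Lb.r r2312 (@Lb.d (nat_lit 673) (nat_lit 73) (nat_lit 673) (@Lb.t (@Lb.fm (nat_lit 9) t1754)))))))))))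
noncomputable def l21990 : Lb := (@Lb.d (nat_lit 32) (nat_lit 256) (nat_lit 66) (@Lb.g g10 (@Lb.g g11 (@Lb.r r1411 (@Lb.r r1304 (@Lb.r r1637 (@Lb.r r1426 (@Lb.d (nat_lit 10) (nat_lit 84) (nat_lit 392) (@Lb.fp (nat_lit 3) t1486)))))))))
noncomputable def l21991 : Lb := (@Lb.d (nat_lit 1) (nat_lit 2) (nat_lit 64) (@Lb.g g8 (@Lb.g g9 (@Lb.g g11 (@Lb.r r1367 (@Lb.r r162 (@Lb.r r145 (@Lb.r r2628 (@Lb.d (nat_lit 405) (nat_lit 10) (nat_lit 425) (@Lb.t (@Lb.fp (nat_lit 9) t899)))))))))))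
noncomputable def l21992 : Lb := (@Lb.r r323 (@Lb.d (nat_lit 129) (nat_lit 585) (nat_lit 1) (@Lb.g g8 (@Lb.g g9 (@Lb.g g10 (@Lb.r r1623 (@Lb.r r2146 (@Lb.r r2312 (@Lb.d (nat_lit 673) (nat_lit 136) (nat_lit 673) (@Lb.t (@Lb.fm (nat_lit 9) t1443)))))))))))
noncomputable def l21993 : Lb := (@Lb.r r81 (@Lb.r r323 (@Lb.d (nat_lit 130) (nat_lit 512) (nat_lit 2) (@Lb.g g8 (@Lb.g g10 (@Lb.r r583 (@Lb.r r2081 (@Lb.r r2312 (@Lb.d (nat_lit 674) (nat_lit 0) (nat_lit 518) (@Lb.fp (nat_lit 3) t1470))))))))))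
noncomputable def l21994 : Lb := (@Lb.d (nat_lit 1) (nat_lit 258) (nat_lit 64) (@Lb.g g8 (@Lb.g g9 (@Lb.g g11 (@Lb.r r1367 (@Lb.r r162 (@Lb.r r145 (@Lb.r r2628 (@Lb.d (nat_lit 404) (nat_lit 10) (nat_lit 425) (@Lb.t (@Lb.fp (nat_lit 9) t899)))))))))))
noncomputable def l21995 : Lb := (@Lb.d (nat_lit 0) (nat_lit 2) (nat_lit 4) (@Lb.g g8 (@Lb.g g9 (@Lb.g g10 (@Lb.g g11 (@Lb.r r84 (@Lb.r r154 (@Lb.r r597 (@Lb.r r343 (@Lb.r r676 (@Lb.d (nat_lit 10) (nat_lit 1) (nat_lit 128) (@Lb.fm (nat_lit 9) t2))))))))))))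
noncomputable def l21996 : Lb := (@Lb.r r21 (@Lb.d (nat_lit 0) (nat_lit 520) (nat_lit 4) (@Lb.g g8 (@Lb.g g10 (@Lb.g g11 (@Lb.r r353 (@Lb.r r667 (@Lb.r r664 (@Lb.r r602 (@Lb.d (nat_lit 106) (nat_lit 37) (nat_lit 128) (@Lb.t (@Lb.fp (nat_lit 9) t2))))))))))))
noncomputable def l21997 : Lb := (@Lb.r r82 (@Lb.d (nat_lit 0) (nat_lit 16) (nat_lit 132) (@Lb.g g8 (@Lb.g g9 (@Lb.g g7 (@Lb.r r386 (@Lb.r r97 (@Lb.d (nat_lit 5) (nat_lit 10) (nat_lit 66) (@Lb.t (@Lb.fp (nat_lit 9) t607))))))))))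
noncomputable def l21998 : Lb := (@Lb.r r21 (@Lb.d (nat_lit 0) (nat_lit 8) (nat_lit 4) (@Lb.g g8 (@Lb.g g10 (@Lb.g g11 (@Lb.r r353 (@Lb.r r667 (@Lb.r r664 (@Lb.r r602 (@Lb.d (nat_lit 105) (nat_lit 37) (nat_lit 128) (@Lb.t (@Lb.fp (nat_lit 9) t2))))))))))))
noncomputable def l21999 : Lb := (@Lb.d (nat_lit 0) (nat_lit 264) (nat_lit 2) (@Lb.g g10 (@Lb.r r101 (@Lb.r r24 (@Lb.d (nat_lit 546) (nat_lit 5) (nat_lit 18) (@Lb.t (@Lb.fp (nat_lit 3) t145)))))))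
noncomputable def l22000 : Lb := (@Lb.d (nat_lit 0) (nat_lit 66) (nat_lit 130) (@Lb.g g4 (@Lb.g g9 (@Lb.g g10 (@Lb.g g11 (@Lb.r r419 (@Lb.r r98 (@Lb.d (nat_lit 0) (nat_lit 128) (nat_lit 169) (@Lb.fm (nat_lit 9) t295)))))))))
noncomputable def l22001 : Lb := (@Lb.d (nat_lit 2) (nat_lit 257) (nat_lit 128) (@Lb.g g8 (@Lb.g g9 (@Lb.g g11 (@Lb.r r296 (@Lb.r r1367 (@Lb.r r2178 (@Lb.r r613 (@Lb.r r20 (@Lb.d (nat_lit 409) (nat_lit 2) (nat_lit 68) (@Lb.t (@Lb.fp (nat_lit 9) t646))))))))))))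
noncomputable def l22002 : Lb := (@Lb.r r82 (@Lb.d (nat_lit 40) (nat_lit 513) (nat_lit 136) (@Lb.g g8 (@Lb.g g9 (@Lb.g g11 (@Lb.r r2666 (@Lb.r r2725 (@Lb.r r340 (@Lb.r r411 (@Lb.d (nat_lit 521) (nat_lit 73) (nat_lit 601) (@Lb.t (@Lb.fp (nat_lit 9) t375))))))))))))
noncomputable def l22003 : Lb := (@Lb.d (nat_lit 8) (nat_lit 592) (nat_lit 593) (@Lb.r r2182 (@Lb.r r2323 (@Lb.r r661 (@Lb.g g7 (@Lb.g g8 (@Lb.d (nat_lit 352) (nat_lit 16) (nat_lit 64) (@Lb.r r74 (@Lb.r r25 (@Lb.fm (nat_lit 3) t329))))))))))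
noncomputable def l22004 : Lb := (@Lb.d (nat_lit 338) (nat_lit 256) (nat_lit 341) (@Lb.r r2440 (@Lb.r r2630 (@Lb.r r679 (@Lb.r r2585 (@Lb.g g4 (@Lb.d (nat_lit 5) (nat_lit 0) (nat_lit 0) (@Lb.r r74 (@Lb.r r25 (@Lb.t (@Lb.fm (nat_lit 3) t42)))))))))))
noncomputable def l22005 : Lb := (@Lb.d (nat_lit 2) (nat_lit 33) (nat_lit 128) (@Lb.g g8 (@Lb.g g9 (@Lb.g g11 (@Lb.r r2585 (@Lb.r r531 (@Lb.r r1602 (@Lb.r r24 (@Lb.d (nat_lit 134) (nat_lit 144) (nat_lit 320) (@Lb.t (@Lb.fm (nat_lit 9) t1070)))))))))))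
noncomputable def l22006 : Lb := (@Lb.d (nat_lit 134) (nat_lit 512) (nat_lit 130) (@Lb.g g8 (@Lb.g g9 (@Lb.g g10 (@Lb.g g11 (@Lb.r r545 (@Lb.r r2343 (@Lb.r r584 (@Lb.r r2118 (@Lb.r r1156 (@Lb.d (nat_lit 514) (nat_lit 138) (nat_lit 424) (@Lb.fp (nat_lit 9) t4366))))))))))))
noncomputable def l22007 : Lb := (@Lb.r r275 (@Lb.d (nat_lit 2) (nat_lit 0) (nat_lit 2) (@Lb.g g8 (@Lb.g g9 (@Lb.g g10 (@Lb.r r683 (@Lb.r r2218 (@Lb.r r2212 (@Lb.r r2085 (@Lb.d (nat_lit 520) (nat_lit 73) (nat_lit 18) (@Lb.t (@Lb.fp (nat_lit 9) t750))))))))))))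
noncomputable def l22008 : Lb := (@Lb.d (nat_lit 2) (nat_lit 33) (nat_lit 130) (@Lb.g g8 (@Lb.g g9 (@Lb.g g10 (@Lb.g g11 (@Lb.r r2666 (@Lb.r r2664 (@Lb.r r587 (@Lb.r r2449 (@Lb.d (nat_lit 102) (nat_lit 38) (nat_lit 420) (@Lb.fp (nat_lit 9) t4367)))))))))))
noncomputable def l22009 : Lb := (@Lb.d (nat_lit 2) (nat_lit 0) (nat_lit 0) (@Lb.g g8 (@Lb.g g9 (@Lb.d (nat_lit 0) (nat_lit 10) (nat_lit 2) (@Lb.fm (nat_lit 3) t21)))))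
noncomputable def l22010 : Lb := (@Lb.d (nat_lit 1) (nat_lit 0) (nat_lit 128) (@Lb.g g8 (@Lb.g g9 (@Lb.g g11 (@Lb.r r683 (@Lb.r r2178 (@Lb.r r1633 (@Lb.r r24 (@Lb.d (nat_lit 265) (nat_lit 153) (nat_lit 297) (@Lb.t (@Lb.fm (nat_lit 9) t2031)))))))))))
noncomputable def l22011 : Lb := (@Lb.r r81 (@Lb.r r263 (@Lb.d (nat_lit 2) (nat_lit 8) (nat_lit 0) (@Lb.g g8 (@Lb.g g10 (@Lb.r r2443 (@Lb.r r1125 (@Lb.r r2180 (@Lb.d (nat_lit 4) (nat_lit 9) (nat_lit 17) (@Lb.fp (nat_lit 3) t4368))))))))))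
noncomputable def l22012 : Lb := (@Lb.d (nat_lit 0) (nat_lit 512) (nat_lit 136) (@Lb.g g4 (@Lb.g g11 (@Lb.r r1617 (@Lb.r r354 (@Lb.r r1427 (@Lb.d (nat_lit 280) (nat_lit 149) (nat_lit 393) (@Lb.fp (nat_lit 3) t4122))))))))
noncomputable def l22013 : Lb := (@Lb.d (nat_lit 2) (nat_lit 514) (nat_lit 130) (@Lb.g g8 (@Lb.g g9 (@Lb.g g10 (@Lb.g g11 (@Lb.r r427 (@Lb.r r424 (@Lb.r r106 (@Lb.r r25 (@Lb.d (nat_lit 521) (nat_lit 2) (nat_lit 34) (@Lb.fm (nat_lit 9) t1231)))))))))))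
noncomputable def l22014 : Lb := (@Lb.d (nat_lit 98) (nat_lit 554) (nat_lit 582) (@Lb.r r597 (@Lb.r r296 (@Lb.r r418 (@Lb.g g11 (@Lb.g g6 (@Lb.g g5 (@Lb.g g4 (@Lb.d (nat_lit 1) (nat_lit 18) (nat_lit 257) (@Lb.fm (nat_lit 9) t825))))))))))
noncomputable def l22015 : Lb := (@Lb.d (nat_lit 105) (nat_lit 41) (nat_lit 582) (@Lb.r r597 (@Lb.r r296 (@Lb.r r418 (@Lb.g g11 (@Lb.g g6 (@Lb.g g5 (@Lb.g g4 (@Lb.d (nat_lit 1) (nat_lit 18) (nat_lit 257) (@Lb.fm (nat_lit 9) t825))))))))))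
noncomputable def l22016 : Lb := (@Lb.d (nat_lit 9) (nat_lit 128) (nat_lit 128) (@Lb.r r579 (@Lb.r r402 (@Lb.r r101 (@Lb.g g8 (@Lb.d (nat_lit 9) (nat_lit 0) (nat_lit 0) (@Lb.t (@Lb.fm (nat_lit 3) t765))))))))
noncomputable def l22017 : Lb := (@Lb.d (nat_lit 2) (nat_lit 641) (nat_lit 512) (@Lb.r r68 (@Lb.r r289 (@Lb.r r394 (@Lb.r r152 (@Lb.g g11 (@Lb.t (@Lb.fm (nat_lit 3) t501))))))))
noncomputable def l22018 : Lb := (@Lb.d (nat_lit 1) (nat_lit 640) (nat_lit 256) (@Lb.r r21 (@Lb.r r402 (@Lb.r r263 (@Lb.g g4 (@Lb.r r267 (@Lb.r r74 (@Lb.r r25 (@Lb.t (@Lb.fp (nat_lit 3) t898))))))))))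
noncomputable def l22019 : Lb := (@Lb.r r21 (@Lb.d (nat_lit 33) (nat_lit 512) (nat_lit 129) (@Lb.g g8 (@Lb.g g10 (@Lb.g g11 (@Lb.r r1691 (@Lb.r r1561 (@Lb.r r1640 (@Lb.r r614 (@Lb.d (nat_lit 148) (nat_lit 72) (nat_lit 586) (@Lb.t (@Lb.fm (nat_lit 9) t264))))))))))))
noncomputable def l22020 : Lb := (@Lb.d (nat_lit 2) (nat_lit 514) (nat_lit 130) (@Lb.g g8 (@Lb.g g9 (@Lb.g g10 (@Lb.g g11 (@Lb.r r1323 (@Lb.r r297 (@Lb.r r168 (@Lb.r r138 (@Lb.r r132 (@Lb.d (nat_lit 129) (nat_lit 137) (nat_lit 585) (@Lb.fm (nat_lit 9) t1872))))))))))))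
noncomputable def l22021 : Lb := (@Lb.r r21 (@Lb.d (nat_lit 644) (nat_lit 256) (nat_lit 258) (@Lb.g g4 (@Lb.g g10 (@Lb.g g7 (@Lb.r r2469 (@Lb.r r98 (@Lb.d (nat_lit 1) (nat_lit 137) (nat_lit 322) (@Lb.t (@Lb.fp (nat_lit 9) t4369))))))))))
noncomputable def l22022 : Lb := (@Lb.d (nat_lit 132) (nat_lit 10) (nat_lit 65) (@Lb.g g8 (@Lb.g g9 (@Lb.g g10 (@Lb.g g11 (@Lb.r r529 (@Lb.r r343 (@Lb.r r618 (@Lb.r r584 (@Lb.d (nat_lit 69) (nat_lit 8) (nat_lit 1) (@Lb.fm (nat_lit 9) t3217)))))))))))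
noncomputable def l22023 : Lb := (@Lb.r r263 (@Lb.d (nat_lit 17) (nat_lit 258) (nat_lit 0) (@Lb.g g8 (@Lb.g g9 (@Lb.g g10 (@Lb.r r1675 (@Lb.r r1602 (@Lb.r r2472 (@Lb.r r25 (@Lb.d (nat_lit 522) (nat_lit 66) (nat_lit 665) (@Lb.t (@Lb.fm (nat_lit 9) t128))))))))))))
noncomputable def l22024 : Lb := (@Lb.d (nat_lit 1) (nat_lit 256) (nat_lit 130) (@Lb.g g4 (@Lb.g g10 (@Lb.g g11 (@Lb.r r2567 (@Lb.r r386 (@Lb.d (nat_lit 130) (nat_lit 0) (nat_lit 329) (@Lb.t (@Lb.fp (nat_lit 9) t396)))))))))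
noncomputable def l22025 : Lb := (@Lb.d (nat_lit 8) (nat_lit 258) (nat_lit 0) (@Lb.g g9 (@Lb.r r1319 (@Lb.r r1414 (@Lb.r r24 (@Lb.d (nat_lit 266) (nat_lit 129) (nat_lit 256) (@Lb.t (@Lb.fp (nat_lit 3) t1122))))))))
noncomputable def l22026 : Lb := (@Lb.d (nat_lit 9) (nat_lit 512) (nat_lit 66) (@Lb.g g8 (@Lb.g g10 (@Lb.g g7 (@Lb.r r597 (@Lb.r r98 (@Lb.r r2436 (@Lb.d (nat_lit 610) (nat_lit 137) (nat_lit 322) (@Lb.t (@Lb.fp (nat_lit 9) t652))))))))))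
noncomputable def l22027 : Lb := (@Lb.d (nat_lit 160) (nat_lit 258) (nat_lit 130) (@Lb.g g9 (@Lb.g g10 (@Lb.g g11 (@Lb.r r72 (@Lb.r r166 (@Lb.r r665 (@Lb.r r539 (@Lb.d (nat_lit 9) (nat_lit 66) (nat_lit 426) (@Lb.t (@Lb.fp (nat_lit 9) t210)))))))))))
noncomputable def l22028 : Lb := (@Lb.d (nat_lit 0) (nat_lit 545) (nat_lit 0) (@Lb.g g5 (@Lb.r r579 (@Lb.r r1414 (@Lb.r r2120 (@Lb.d (nat_lit 553) (nat_lit 128) (nat_lit 34) (@Lb.t (@Lb.fp (nat_lit 3) t145))))))))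
noncomputable def l22029 : Lb := (@Lb.d (nat_lit 0) (nat_lit 512) (nat_lit 4) (@Lb.g g9 (@Lb.g g10 (@Lb.g g11 (@Lb.r r419 (@Lb.r r2470 (@Lb.r r1624 (@Lb.r r2341 (@Lb.d (nat_lit 585) (nat_lit 66) (nat_lit 512) (@Lb.t (@Lb.fp (nat_lit 9) t1954)))))))))))
noncomputable def l22030 : Lb := (@Lb.g g4 (@Lb.r r402 (@Lb.r r105 (@Lb.r r36 (@Lb.d (nat_lit 70) (nat_lit 1) (nat_lit 0) (@Lb.t (@Lb.fm (nat_lit 3) t145)))))))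
noncomputable def l22031 : Lb := (@Lb.g g8 (@Lb.r r402 (@Lb.r r101 (@Lb.r r24 (@Lb.d (nat_lit 65) (nat_lit 261) (nat_lit 1) (@Lb.t (@Lb.fm (nat_lit 3) t145)))))))
noncomputable def l22032 : Lb := (@Lb.r r82 (@Lb.d (nat_lit 4) (nat_lit 34) (nat_lit 64) (@Lb.g g8 (@Lb.g g9 (@Lb.g g11 (@Lb.r r1563 (@Lb.r r1129 (@Lb.r r2646 (@Lb.r r1416 (@Lb.d (nat_lit 545) (nat_lit 0) (nat_lit 70) (@Lb.t (@Lb.fp (nat_lit 9) t3047))))))))))))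
noncomputable def l22033 : Lb := (@Lb.d (nat_lit 149) (nat_lit 0) (nat_lit 128) (@Lb.g g8 (@Lb.g g9 (@Lb.g g10 (@Lb.g g11 (@Lb.r r387 (@Lb.r r402 (@Lb.r r2469 (@Lb.r r664 (@Lb.d (nat_lit 329) (nat_lit 168) (nat_lit 165) (@Lb.fm (nat_lit 9) t4370)))))))))))
noncomputable def l22034 : Lb := (@Lb.d (nat_lit 2) (nat_lit 550) (nat_lit 64) (@Lb.g g8 (@Lb.g g9 (@Lb.g g10 (@Lb.g g11 (@Lb.r r1571 (@Lb.r r2440 (@Lb.r r666 (@Lb.r r2661 (@Lb.d (nat_lit 650) (nat_lit 145) (nat_lit 408) (@Lb.fp (nat_lit 9) t3694)))))))))))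
noncomputable def l22035 : Lb := (@Lb.d (nat_lit 148) (nat_lit 0) (nat_lit 128) (@Lb.g g8 (@Lb.g g9 (@Lb.g g10 (@Lb.g g11 (@Lb.r r387 (@Lb.r r402 (@Lb.r r1561 (@Lb.r r2708 (@Lb.d (nat_lit 160) (nat_lit 106) (nat_lit 406) (@Lb.fm (nat_lit 9) t894)))))))))))
noncomputable def l22036 : Lb := (@Lb.d (nat_lit 2) (nat_lit 260) (nat_lit 128) (@Lb.g g8 (@Lb.g g9 (@Lb.g g10 (@Lb.g g11 (@Lb.r r2729 (@Lb.r r2475 (@Lb.r r2468 (@Lb.r r2438 (@Lb.d (nat_lit 612) (nat_lit 74) (nat_lit 529) (@Lb.fp (nat_lit 9) t4371)))))))))))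
noncomputable def l22037 : Lb := (@Lb.d (nat_lit 96) (nat_lit 550) (nat_lit 4) (@Lb.g g8 (@Lb.g g9 (@Lb.g g10 (@Lb.g g11 (@Lb.r r289 (@Lb.r r2587 (@Lb.r r2406 (@Lb.r r2632 (@Lb.d (nat_lit 102) (nat_lit 133) (nat_lit 408) (@Lb.fm (nat_lit 9) t4077)))))))))))
noncomputable def l22038 : Lb := (@Lb.r r323 (@Lb.d (nat_lit 32) (nat_lit 546) (nat_lit 10) (@Lb.g g9 (@Lb.g g10 (@Lb.r r1355 (@Lb.r r1380 (@Lb.r r2634 (@Lb.d (nat_lit 148) (nat_lit 36) (nat_lit 384) (@Lb.fm (nat_lit 3) t982)))))))))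
noncomputable def l22039 : Lb := (@Lb.d (nat_lit 640) (nat_lit 162) (nat_lit 96) (@Lb.r r597 (@Lb.r r1691 (@Lb.r r582 (@Lb.g g7 (@Lb.g g5 (@Lb.g g4 (@Lb.d (nat_lit 1) (nat_lit 22) (nat_lit 68) (@Lb.t (@Lb.fm (nat_lit 9) t1895))))))))))
noncomputable def l22040 : Lb := (@Lb.d (nat_lit 98) (nat_lit 38) (nat_lit 4) (@Lb.g g8 (@Lb.g g9 (@Lb.g g10 (@Lb.g g11 (@Lb.r r289 (@Lb.r r2587 (@Lb.r r2406 (@Lb.r r2632 (@Lb.d (nat_lit 102) (nat_lit 133) (nat_lit 408) (@Lb.fm (nat_lit 9) t4077)))))))))))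
noncomputable def l22041 : Lb := (@Lb.d (nat_lit 96) (nat_lit 294) (nat_lit 4) (@Lb.g g8 (@Lb.g g9 (@Lb.g g10 (@Lb.g g11 (@Lb.r r289 (@Lb.r r2587 (@Lb.r r2406 (@Lb.r r2632 (@Lb.d (nat_lit 102) (nat_lit 133) (nat_lit 273) (@Lb.fm (nat_lit 9) t4372)))))))))))
noncomputable def l22042 : Lb := (@Lb.d (nat_lit 537) (nat_lit 265) (nat_lit 586) (@Lb.r r168 (@Lb.r r89 (@Lb.r r2706 (@Lb.r r2435 (@Lb.g g7 (@Lb.g g6 (@Lb.g g4 (@Lb.d (nat_lit 5) (nat_lit 0) (nat_lit 68) (@Lb.t (@Lb.fp (nat_lit 9) t4373)))))))))))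
noncomputable def l22043 : Lb := (@Lb.d (nat_lit 520) (nat_lit 258) (nat_lit 586) (@Lb.r r24 (@Lb.r r101 (@Lb.r r2706 (@Lb.r r2435 (@Lb.g g7 (@Lb.g g6 (@Lb.d (nat_lit 0) (nat_lit 0) (nat_lit 68) (@Lb.fp (nat_lit 3) t721)))))))))
noncomputable def l22044 : Lb := (@Lb.d (nat_lit 0) (nat_lit 512) (nat_lit 132) (@Lb.g g9 (@Lb.g g10 (@Lb.g g7 (@Lb.r r421 (@Lb.r r98 (@Lb.r r24 (@Lb.d (nat_lit 152) (nat_lit 160) (nat_lit 72) (@Lb.t (@Lb.fp (nat_lit 9) t4374))))))))))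
noncomputable def l22045 : Lb := (@Lb.r r323 (@Lb.d (nat_lit 8) (nat_lit 258) (nat_lit 2) (@Lb.g g9 (@Lb.g g10 (@Lb.r r102 (@Lb.r r404 (@Lb.r r619 (@Lb.r r609 (@Lb.d (nat_lit 1) (nat_lit 24) (nat_lit 130) (@Lb.fm (nat_lit 3) t71))))))))))
noncomputable def l22046 : Lb := (@Lb.r r275 (@Lb.d (nat_lit 0) (nat_lit 517) (nat_lit 0) (@Lb.g g9 (@Lb.g g10 (@Lb.r r679 (@Lb.r r578 (@Lb.r r421 (@Lb.r r24 (@Lb.d (nat_lit 144) (nat_lit 152) (nat_lit 137) (@Lb.fp (nat_lit 3) t101))))))))))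
noncomputable def l22047 : Lb := (@Lb.d (nat_lit 0) (nat_lit 261) (nat_lit 128) (@Lb.g g9 (@Lb.g g10 (@Lb.g g11 (@Lb.r r1667 (@Lb.r r578 (@Lb.r r2341 (@Lb.r r24 (@Lb.d (nat_lit 384) (nat_lit 80) (nat_lit 169) (@Lb.t (@Lb.fp (nat_lit 9) t4375)))))))))))
noncomputable def l22048 : Lb := (@Lb.d (nat_lit 390) (nat_lit 512) (nat_lit 69) (@Lb.r r1543 (@Lb.r r2372 (@Lb.r r1178 (@Lb.g g6 (@Lb.g g9 (@Lb.g g4 (@Lb.d (nat_lit 1) (nat_lit 24) (nat_lit 0) (@Lb.r r291 (@Lb.t (@Lb.fm (nat_lit 9) t422)))))))))))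
noncomputable def l22049 : Lb := (@Lb.r r323 (@Lb.d (nat_lit 37) (nat_lit 266) (nat_lit 1) (@Lb.g g8 (@Lb.g g9 (@Lb.g g10 (@Lb.r r1706 (@Lb.r r1681 (@Lb.r r1555 (@Lb.r r420 (@Lb.d (nat_lit 5) (nat_lit 106) (nat_lit 138) (@Lb.t (@Lb.fm (nat_lit 9) t251))))))))))))
noncomputable def l22050 : Lb := (@Lb.d (nat_lit 2) (nat_lit 256) (nat_lit 0) (@Lb.g g8 (@Lb.g g9 (@Lb.r r24 (@Lb.r r101 (@Lb.r r402 (@Lb.d (nat_lit 0) (nat_lit 0) (nat_lit 66) (@Lb.fp (nat_lit 3) t311))))))))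
noncomputable def l22051 : Lb := (@Lb.d (nat_lit 5) (nat_lit 256) (nat_lit 0) (@Lb.g g4 (@Lb.r r101 (@Lb.r r402 (@Lb.d (nat_lit 2) (nat_lit 0) (nat_lit 132) (@Lb.t (@Lb.fm (nat_lit 3) t311)))))))
noncomputable def l22052 : Lb := (@Lb.r r82 (@Lb.d (nat_lit 5) (nat_lit 264) (nat_lit 0) (@Lb.g g4 (@Lb.g g9 (@Lb.g g11 (@Lb.r r90 (@Lb.r r145 (@Lb.d (nat_lit 18) (nat_lit 10) (nat_lit 2) (@Lb.t (@Lb.fp (nat_lit 9) t1219))))))))))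
noncomputable def l22053 : Lb := (@Lb.d (nat_lit 5) (nat_lit 256) (nat_lit 0) (@Lb.g g4 (@Lb.r r101 (@Lb.d (nat_lit 1) (nat_lit 149) (nat_lit 265) (@Lb.t (@Lb.fp (nat_lit 3) t1174))))))
noncomputable def l22054 : Lb := (@Lb.r r70 (@Lb.r r263 (@Lb.d (nat_lit 0) (nat_lit 514) (nat_lit 0) (@Lb.g g8 (@Lb.g g9 (@Lb.r r2391 (@Lb.r r1192 (@Lb.r r74 (@Lb.r r97 (@Lb.d (nat_lit 272) (nat_lit 65) (nat_lit 2) (@Lb.fm (nat_lit 3) t217)))))))))))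
noncomputable def l22055 : Lb := (@Lb.d (nat_lit 41) (nat_lit 256) (nat_lit 128) (@Lb.g g8 (@Lb.g g11 (@Lb.r r2331 (@Lb.r r614 (@Lb.r r1637 (@Lb.r r1428 (@Lb.d (nat_lit 358) (nat_lit 20) (nat_lit 393) (@Lb.fp (nat_lit 3) t386)))))))))
noncomputable def l22056 : Lb := (@Lb.d (nat_lit 8) (nat_lit 513) (nat_lit 0) (@Lb.g g9 (@Lb.g g6 (@Lb.r r2068 (@Lb.r r25 (@Lb.d (nat_lit 521) (nat_lit 134) (nat_lit 1) (@Lb.fp (nat_lit 3) t45)))))))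
noncomputable def l22057 : Lb := (@Lb.d (nat_lit 8) (nat_lit 2) (nat_lit 0) (@Lb.g g9 (@Lb.g g6 (@Lb.r r20 (@Lb.r r2073 (@Lb.d (nat_lit 10) (nat_lit 70) (nat_lit 1) (@Lb.fp (nat_lit 3) t45)))))))
noncomputable def l22058 : Lb := (@Lb.d (nat_lit 129) (nat_lit 4) (nat_lit 25) (@Lb.g g8 (@Lb.g g6 (@Lb.r r407 (@Lb.r r2145 (@Lb.r r1560 (@Lb.d (nat_lit 576) (nat_lit 96) (nat_lit 641) (@Lb.fp (nat_lit 3) t51))))))))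
noncomputable def l22059 : Lb := (@Lb.d (nat_lit 9) (nat_lit 517) (nat_lit 130) (@Lb.g g8 (@Lb.g g9 (@Lb.g g10 (@Lb.g g11 (@Lb.r r2459 (@Lb.r r404 (@Lb.r r2153 (@Lb.r r2646 (@Lb.r r2084 (@Lb.d (nat_lit 409) (nat_lit 166) (nat_lit 640) (@Lb.fm (nat_lit 9) t582))))))))))))
noncomputable def l22060 : Lb := (@Lb.d (nat_lit 10) (nat_lit 512) (nat_lit 0) (@Lb.g g8 (@Lb.r r149 (@Lb.r r402 (@Lb.r r2436 (@Lb.d (nat_lit 610) (nat_lit 164) (nat_lit 325) (@Lb.t (@Lb.fm (nat_lit 3) t652))))))))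
noncomputable def l22061 : Lb := (@Lb.d (nat_lit 534) (nat_lit 152) (nat_lit 356) (@Lb.r r2457 (@Lb.r r2390 (@Lb.r r1699 (@Lb.g g7 (@Lb.g g6 (@Lb.g g5 (@Lb.g g4 (@Lb.d (nat_lit 1) (nat_lit 20) (nat_lit 130) (@Lb.fm (nat_lit 9) t2248))))))))))
noncomputable def l22062 : Lb := (@Lb.d (nat_lit 1) (nat_lit 294) (nat_lit 128) (@Lb.g g8 (@Lb.g g9 (@Lb.g g10 (@Lb.g g11 (@Lb.r r387 (@Lb.r r386 (@Lb.r r1561 (@Lb.r r24 (@Lb.d (nat_lit 680) (nat_lit 2) (nat_lit 673) (@Lb.fp (nat_lit 9) t560)))))))))))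
noncomputable def l22063 : Lb := (@Lb.r r70 (@Lb.r r263 (@Lb.d (nat_lit 520) (nat_lit 257) (nat_lit 0) (@Lb.g g4 (@Lb.g g9 (@Lb.r r267 (@Lb.r r74 (@Lb.r r37 (@Lb.d (nat_lit 266) (nat_lit 130) (nat_lit 0) (@Lb.fm (nat_lit 3) t68))))))))))
noncomputable def l22064 : Lb := (@Lb.d (nat_lit 25) (nat_lit 530) (nat_lit 65) (@Lb.r r662 (@Lb.r r328 (@Lb.r r515 (@Lb.g g6 (@Lb.g g9 (@Lb.d (nat_lit 24) (nat_lit 18) (nat_lit 0) (@Lb.fm (nat_lit 3) t1871))))))))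
noncomputable def l22065 : Lb := (@Lb.d (nat_lit 2) (nat_lit 2) (nat_lit 128) (@Lb.g g8 (@Lb.g g9 (@Lb.g g10 (@Lb.g g11 (@Lb.r r1323 (@Lb.r r297 (@Lb.r r360 (@Lb.r r582 (@Lb.r r132 (@Lb.d (nat_lit 1) (nat_lit 137) (nat_lit 642) (@Lb.fp (nat_lit 9) t2367))))))))))))
noncomputable def l22066 : Lb := (@Lb.d (nat_lit 2) (nat_lit 514) (nat_lit 0) (@Lb.g g8 (@Lb.g g9 (@Lb.g g10 (@Lb.r r515 (@Lb.r r618 (@Lb.r r25 (@Lb.d (nat_lit 2) (nat_lit 26) (nat_lit 66) (@Lb.t (@Lb.fp (nat_lit 9) t71))))))))))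
noncomputable def l22067 : Lb := (@Lb.d (nat_lit 0) (nat_lit 38) (nat_lit 64) (@Lb.g g9 (@Lb.g g10 (@Lb.g g11 (@Lb.r r679 (@Lb.r r610 (@Lb.r r613 (@Lb.d (nat_lit 42) (nat_lit 26) (nat_lit 136) (@Lb.t (@Lb.fm (nat_lit 9) t50))))))))))
noncomputable def l22068 : Lb := (@Lb.d (nat_lit 2) (nat_lit 289) (nat_lit 66) (@Lb.g g8 (@Lb.g g9 (@Lb.g g10 (@Lb.g g11 (@Lb.r r1706 (@Lb.r r676 (@Lb.r r551 (@Lb.r r533 (@Lb.r r1060 (@Lb.d (nat_lit 392) (nat_lit 1) (nat_lit 586) (@Lb.fp (nat_lit 9) t68))))))))))))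
noncomputable def l22069 : Lb := (@Lb.d (nat_lit 642) (nat_lit 514) (nat_lit 66) (@Lb.g g8 (@Lb.g g9 (@Lb.g g10 (@Lb.g g11 (@Lb.r r1451 (@Lb.r r401 (@Lb.r r1114 (@Lb.r r2193 (@Lb.d (nat_lit 81) (nat_lit 73) (nat_lit 2) (@Lb.fp (nat_lit 9) t1039)))))))))))
noncomputable def l22070 : Lb := (@Lb.r r323 (@Lb.d (nat_lit 138) (nat_lit 0) (nat_lit 2) (@Lb.g g8 (@Lb.g g10 (@Lb.r r346 (@Lb.r r661 (@Lb.r r1559 (@Lb.r r2312 (@Lb.d (nat_lit 384) (nat_lit 129) (nat_lit 642) (@Lb.fm (nat_lit 3) t295))))))))))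
noncomputable def l22071 : Lb := (@Lb.d (nat_lit 642) (nat_lit 514) (nat_lit 130) (@Lb.g g8 (@Lb.g g9 (@Lb.g g10 (@Lb.g g11 (@Lb.r r1451 (@Lb.r r106 (@Lb.r r25 (@Lb.d (nat_lit 0) (nat_lit 73) (nat_lit 425) (@Lb.fp (nat_lit 9) t842))))))))))
noncomputable def l22072 : Lb := (@Lb.d (nat_lit 10) (nat_lit 512) (nat_lit 2) (@Lb.g g8 (@Lb.g g10 (@Lb.g g11 (@Lb.r r1381 (@Lb.r r1691 (@Lb.r r1610 (@Lb.r r1608 (@Lb.d (nat_lit 353) (nat_lit 0) (nat_lit 530) (@Lb.t (@Lb.fp (nat_lit 9) t939)))))))))))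
noncomputable def l22073 : Lb := (@Lb.d (nat_lit 642) (nat_lit 514) (nat_lit 66) (@Lb.g g8 (@Lb.g g9 (@Lb.g g10 (@Lb.g g11 (@Lb.r r2471 (@Lb.r r106 (@Lb.r r25 (@Lb.d (nat_lit 145) (nat_lit 73) (nat_lit 665) (@Lb.fp (nat_lit 9) t842))))))))))
noncomputable def l22074 : Lb := (@Lb.d (nat_lit 10) (nat_lit 512) (nat_lit 0) (@Lb.g g4 (@Lb.r r153 (@Lb.r r1176 (@Lb.d (nat_lit 293) (nat_lit 26) (nat_lit 298) (@Lb.t (@Lb.fp (nat_lit 3) t1174)))))))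
noncomputable def l22075 : Lb := (@Lb.d (nat_lit 16) (nat_lit 512) (nat_lit 136) (@Lb.g g8 (@Lb.g g10 (@Lb.g g11 (@Lb.r r2443 (@Lb.r r1156 (@Lb.r r2454 (@Lb.r r2145 (@Lb.d (nat_lit 9) (nat_lit 34) (nat_lit 64) (@Lb.t (@Lb.fm (nat_lit 9) t644)))))))))))
noncomputable def l22076 : Lb := (@Lb.d (nat_lit 642) (nat_lit 1) (nat_lit 66) (@Lb.g g8 (@Lb.g g9 (@Lb.g g10 (@Lb.g g11 (@Lb.r r2475 (@Lb.r r401 (@Lb.r r90 (@Lb.r r145 (@Lb.d (nat_lit 128) (nat_lit 73) (nat_lit 137) (@Lb.fp (nat_lit 9) t1039)))))))))))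
noncomputable def l22077 : Lb := (@Lb.d (nat_lit 9) (nat_lit 258) (nat_lit 130) (@Lb.g g8 (@Lb.g g9 (@Lb.g g10 (@Lb.g g11 (@Lb.r r618 (@Lb.r r616 (@Lb.r r299 (@Lb.r r289 (@Lb.d (nat_lit 9) (nat_lit 166) (nat_lit 72) (@Lb.fp (nat_lit 9) t51)))))))))))
noncomputable def l22078 : Lb := (@Lb.d (nat_lit 0) (nat_lit 512) (nat_lit 64) (@Lb.g g7 (@Lb.r r402 (@Lb.r r101 (@Lb.r r24 (@Lb.d (nat_lit 256) (nat_lit 0) (nat_lit 512) (@Lb.t (@Lb.fp (nat_lit 3) t145))))))))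
noncomputable def l22079 : Lb := (@Lb.r r402 (@Lb.r r101 (@Lb.r r24 (@Lb.d (nat_lit 256) (nat_lit 512) (nat_lit 576) (@Lb.fm (nat_lit 1) t145)))))
noncomputable def l22080 : Lb := (@Lb.d (nat_lit 261) (nat_lit 1) (nat_lit 25) (@Lb.r r21 (@Lb.r r104 (@Lb.r r579 (@Lb.g g10 (@Lb.g g5 (@Lb.g g4 (@Lb.d (nat_lit 0) (nat_lit 1) (nat_lit 2) (@Lb.r r387 (@Lb.t (@Lb.fm (nat_lit 9) t367)))))))))))
noncomputable def l22081 : Lb := (@Lb.d (nat_lit 0) (nat_lit 0) (nat_lit 130) (@Lb.g g10 (@Lb.g g11 (@Lb.r r2726 (@Lb.r r1368 (@Lb.r r2567 (@Lb.r r289 (@Lb.d (nat_lit 648) (nat_lit 130) (nat_lit 64) (@Lb.fm (nat_lit 3) t1412)))))))))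
noncomputable def l22082 : Lb := (@Lb.d (nat_lit 2) (nat_lit 521) (nat_lit 1) (@Lb.g g8 (@Lb.g g9 (@Lb.g g10 (@Lb.g g11 (@Lb.r r2666 (@Lb.r r579 (@Lb.r r1060 (@Lb.r r37 (@Lb.d (nat_lit 648) (nat_lit 65) (nat_lit 384) (@Lb.fp (nat_lit 9) t367)))))))))))
noncomputable def l22083 : Lb := (@Lb.d (nat_lit 261) (nat_lit 513) (nat_lit 82) (@Lb.r r21 (@Lb.r r104 (@Lb.r r579 (@Lb.g g10 (@Lb.g g5 (@Lb.g g4 (@Lb.d (nat_lit 0) (nat_lit 1) (nat_lit 2) (@Lb.r r387 (@Lb.t (@Lb.fm (nat_lit 9) t367)))))))))))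
noncomputable def l22084 : Lb := (@Lb.d (nat_lit 294) (nat_lit 513) (nat_lit 64) (@Lb.r r2129 (@Lb.r r1158 (@Lb.r r2376 (@Lb.g g7 (@Lb.g g5 (@Lb.d (nat_lit 64) (nat_lit 0) (nat_lit 328) (@Lb.fm (nat_lit 3) t355))))))))
noncomputable def l22085 : Lb := (@Lb.d (nat_lit 128) (nat_lit 512) (nat_lit 576) (@Lb.g g9 (@Lb.g g11 (@Lb.r r2376 (@Lb.r r1158 (@Lb.r r1169 (@Lb.d (nat_lit 10) (nat_lit 2) (nat_lit 162) (@Lb.fm (nat_lit 3) t669))))))))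
noncomputable def l22086 : Lb := (@Lb.g g10 (@Lb.r r2579 (@Lb.r r2341 (@Lb.r r2136 (@Lb.r r1158 (@Lb.d (nat_lit 0) (nat_lit 5) (nat_lit 1) (@Lb.t (@Lb.fp (nat_lit 3) t296))))))))
noncomputable def l22087 : Lb := (@Lb.r r323 (@Lb.d (nat_lit 0) (nat_lit 0) (nat_lit 1) (@Lb.g g8 (@Lb.g g6 (@Lb.r r387 (@Lb.d (nat_lit 0) (nat_lit 0) (nat_lit 2) (@Lb.fp (nat_lit 3) t2)))))))
noncomputable def l22088 : Lb := (@Lb.d (nat_lit 8) (nat_lit 0) (nat_lit 128) (@Lb.g g8 (@Lb.g g10 (@Lb.g g11 (@Lb.r r2385 (@Lb.r r1703 (@Lb.r r614 (@Lb.r r2328 (@Lb.d (nat_lit 554) (nat_lit 146) (nat_lit 273) (@Lb.t (@Lb.fm (nat_lit 9) t2238)))))))))))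
noncomputable def l22089 : Lb := (@Lb.r r21 (@Lb.d (nat_lit 81) (nat_lit 0) (nat_lit 64) (@Lb.g g8 (@Lb.g g10 (@Lb.g g11 (@Lb.r r1691 (@Lb.r r2401 (@Lb.r r1170 (@Lb.r r2116 (@Lb.d (nat_lit 533) (nat_lit 1) (nat_lit 17) (@Lb.t (@Lb.fp (nat_lit 9) t74))))))))))))
noncomputable def l22090 : Lb := (@Lb.r r21 (@Lb.d (nat_lit 146) (nat_lit 0) (nat_lit 128) (@Lb.g g8 (@Lb.g g10 (@Lb.g g11 (@Lb.r r1691 (@Lb.r r2401 (@Lb.r r1170 (@Lb.r r1156 (@Lb.d (nat_lit 5) (nat_lit 133) (nat_lit 34) (@Lb.t (@Lb.fp (nat_lit 9) t264))))))))))))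
noncomputable def l22091 : Lb := (@Lb.r r21 (@Lb.d (nat_lit 9) (nat_lit 256) (nat_lit 130) (@Lb.g g8 (@Lb.g g10 (@Lb.g g11 (@Lb.r r1451 (@Lb.r r97 (@Lb.r r2646 (@Lb.r r1444 (@Lb.d (nat_lit 170) (nat_lit 16) (nat_lit 585) (@Lb.t (@Lb.fp (nat_lit 9) t519))))))))))))
noncomputable def l22092 : Lb := (@Lb.d (nat_lit 10) (nat_lit 512) (nat_lit 0) (@Lb.g g8 (@Lb.g g7 (@Lb.r r402 (@Lb.r r149 (@Lb.r r168 (@Lb.d (nat_lit 290) (nat_lit 5) (nat_lit 576) (@Lb.fp (nat_lit 3) t145))))))))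
noncomputable def l22093 : Lb := (@Lb.d (nat_lit 2) (nat_lit 512) (nat_lit 73) (@Lb.g g8 (@Lb.g g10 (@Lb.g g11 (@Lb.r r2122 (@Lb.r r328 (@Lb.r r407 (@Lb.r r609 (@Lb.d (nat_lit 10) (nat_lit 65) (nat_lit 68) (@Lb.t (@Lb.fm (nat_lit 9) t71)))))))))))
noncomputable def l22094 : Lb := (@Lb.d (nat_lit 337) (nat_lit 280) (nat_lit 528) (@Lb.r r1386 (@Lb.r r2471 (@Lb.r r1624 (@Lb.g g6 (@Lb.g g5 (@Lb.d (nat_lit 16) (nat_lit 65) (nat_lit 5) (@Lb.r r387 (@Lb.fp (nat_lit 3) t2686)))))))))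
noncomputable def l22095 : Lb := (@Lb.d (nat_lit 8) (nat_lit 0) (nat_lit 1) (@Lb.g g9 (@Lb.g g10 (@Lb.g g11 (@Lb.r r610 (@Lb.r r584 (@Lb.r r2411 (@Lb.r r2401 (@Lb.d (nat_lit 386) (nat_lit 170) (nat_lit 358) (@Lb.t (@Lb.fm (nat_lit 9) t966)))))))))))
noncomputable def l22096 : Lb := (@Lb.d (nat_lit 128) (nat_lit 272) (nat_lit 384) (@Lb.g g11 (@Lb.r r1304 (@Lb.r r101 (@Lb.r r154 (@Lb.d (nat_lit 537) (nat_lit 128) (nat_lit 128) (@Lb.t (@Lb.fm (nat_lit 3) t1575))))))))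
noncomputable def l22097 : Lb := (@Lb.d (nat_lit 128) (nat_lit 528) (nat_lit 384) (@Lb.g g11 (@Lb.r r1304 (@Lb.r r101 (@Lb.r r154 (@Lb.d (nat_lit 528) (nat_lit 0) (nat_lit 128) (@Lb.t (@Lb.fm (nat_lit 3) t1069))))))))
noncomputable def l22098 : Lb := (@Lb.d (nat_lit 170) (nat_lit 553) (nat_lit 101) (@Lb.r r680 (@Lb.r r427 (@Lb.r r345 (@Lb.g g10 (@Lb.g g4 (@Lb.d (nat_lit 69) (nat_lit 0) (nat_lit 22) (@Lb.r r145 (@Lb.fm (nat_lit 3) t564)))))))))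
noncomputable def l22099 : Lb := (@Lb.d (nat_lit 2) (nat_lit 0) (nat_lit 128) (@Lb.g g8 (@Lb.g g11 (@Lb.r r353 (@Lb.r r667 (@Lb.r r664 (@Lb.r r154 (@Lb.d (nat_lit 18) (nat_lit 0) (nat_lit 138) (@Lb.fm (nat_lit 3) t285)))))))))
noncomputable def l22100 : Lb := (@Lb.d (nat_lit 402) (nat_lit 321) (nat_lit 273) (@Lb.r r97 (@Lb.r r1634 (@Lb.r r1623 (@Lb.g g7 (@Lb.g g5 (@Lb.g g4 (@Lb.d (nat_lit 578) (nat_lit 1) (nat_lit 128) (@Lb.r r330 (@Lb.t (@Lb.fp (nat_lit 9) t4376)))))))))))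
noncomputable def l22101 : Lb := (@Lb.d (nat_lit 2) (nat_lit 265) (nat_lit 66) (@Lb.g g8 (@Lb.g g9 (@Lb.g g10 (@Lb.g g7 (@Lb.r r2722 (@Lb.r r292 (@Lb.r r405 (@Lb.r r2084 (@Lb.d (nat_lit 545) (nat_lit 90) (nat_lit 402) (@Lb.fp (nat_lit 9) t4377)))))))))))
noncomputable def l22102 : Lb := (@Lb.d (nat_lit 106) (nat_lit 264) (nat_lit 4) (@Lb.g g8 (@Lb.g g9 (@Lb.g g10 (@Lb.g g11 (@Lb.r r343 (@Lb.r r618 (@Lb.r r1689 (@Lb.r r1668 (@Lb.d (nat_lit 425) (nat_lit 69) (nat_lit 645) (@Lb.fp (nat_lit 9) t197)))))))))))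
noncomputable def l22103 : Lb := (@Lb.d (nat_lit 409) (nat_lit 516) (nat_lit 580) (@Lb.r r1297 (@Lb.r r134 (@Lb.r r2727 (@Lb.r r529 (@Lb.g g7 (@Lb.g g5 (@Lb.g g8 (@Lb.d (nat_lit 10) (nat_lit 1) (nat_lit 128) (@Lb.t (@Lb.fm (nat_lit 9) t4378)))))))))))
noncomputable def l22104 : Lb := (@Lb.r r82 (@Lb.d (nat_lit 0) (nat_lit 545) (nat_lit 8) (@Lb.g g9 (@Lb.g g7 (@Lb.r r353 (@Lb.r r146 (@Lb.d (nat_lit 5) (nat_lit 24) (nat_lit 132) (@Lb.fp (nat_lit 3) t607))))))))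
noncomputable def l22105 : Lb := (@Lb.d (nat_lit 8) (nat_lit 9) (nat_lit 9) (@Lb.g g9 (@Lb.g g10 (@Lb.g g7 (@Lb.r r1620 (@Lb.r r2730 (@Lb.r r409 (@Lb.d (nat_lit 10) (nat_lit 73) (nat_lit 169) (@Lb.t (@Lb.fm (nat_lit 9) t3360))))))))))
noncomputable def l22106 : Lb := (@Lb.d (nat_lit 8) (nat_lit 512) (nat_lit 66) (@Lb.g g9 (@Lb.g g10 (@Lb.g g11 (@Lb.r r344 (@Lb.r r1382 (@Lb.r r1683 (@Lb.r r337 (@Lb.d (nat_lit 132) (nat_lit 85) (nat_lit 326) (@Lb.t (@Lb.fm (nat_lit 9) t2367)))))))))))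
noncomputable def l22107 : Lb := (@Lb.r r82 (@Lb.r r275 (@Lb.d (nat_lit 2) (nat_lit 2) (nat_lit 0) (@Lb.g g8 (@Lb.g g9 (@Lb.r r362 (@Lb.r r353 (@Lb.r r411 (@Lb.d (nat_lit 64) (nat_lit 133) (nat_lit 321) (@Lb.fp (nat_lit 3) t3225))))))))))
noncomputable def l22108 : Lb := (@Lb.d (nat_lit 0) (nat_lit 600) (nat_lit 410) (@Lb.r r2641 (@Lb.r r323 (@Lb.r r2626 (@Lb.g g7 (@Lb.t (@Lb.fm (nat_lit 3) t4379)))))))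
noncomputable def l22109 : Lb := (@Lb.d (nat_lit 401) (nat_lit 344) (nat_lit 512) (@Lb.r r1604 (@Lb.r r402 (@Lb.r r89 (@Lb.g g4 (@Lb.d (nat_lit 5) (nat_lit 0) (nat_lit 0) (@Lb.t (@Lb.fp (nat_lit 3) t4380))))))))
noncomputable def l22110 : Lb := (@Lb.d (nat_lit 0) (nat_lit 577) (nat_lit 640) (@Lb.r r297 (@Lb.r r420 (@Lb.r r422 (@Lb.g g5 (@Lb.r r98 (@Lb.t (@Lb.fm (nat_lit 3) t816))))))))
noncomputable def l22111 : Lb := (@Lb.d (nat_lit 32) (nat_lit 512) (nat_lit 130) (@Lb.g g9 (@Lb.g g10 (@Lb.g g11 (@Lb.r r1307 (@Lb.r r2713 (@Lb.r r100 (@Lb.r r410 (@Lb.d (nat_lit 410) (nat_lit 80) (nat_lit 138) (@Lb.t (@Lb.fp (nat_lit 9) t1941)))))))))))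
noncomputable def l22112 : Lb := (@Lb.d (nat_lit 0) (nat_lit 256) (nat_lit 130) (@Lb.g g10 (@Lb.g g11 (@Lb.r r586 (@Lb.r r584 (@Lb.r r299 (@Lb.r r289 (@Lb.d (nat_lit 9) (nat_lit 130) (nat_lit 0) (@Lb.fm (nat_lit 3) t51)))))))))
noncomputable def l22113 : Lb := (@Lb.d (nat_lit 0) (nat_lit 258) (nat_lit 130) (@Lb.g g8 (@Lb.g g9 (@Lb.g g10 (@Lb.g g11 (@Lb.r r427 (@Lb.r r145 (@Lb.r r356 (@Lb.r r154 (@Lb.r r132 (@Lb.d (nat_lit 10) (nat_lit 9) (nat_lit 18) (@Lb.fm (nat_lit 9) t221))))))))))))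
noncomputable def l22114 : Lb := (@Lb.d (nat_lit 2) (nat_lit 9) (nat_lit 6) (@Lb.g g8 (@Lb.g g9 (@Lb.g g10 (@Lb.g g11 (@Lb.r r1706 (@Lb.r r424 (@Lb.r r279 (@Lb.r r1573 (@Lb.r r1044 (@Lb.d (nat_lit 129) (nat_lit 66) (nat_lit 330) (@Lb.fm (nat_lit 9) t68))))))))))))
noncomputable def l22115 : Lb := (@Lb.d (nat_lit 9) (nat_lit 513) (nat_lit 130) (@Lb.g g8 (@Lb.g g9 (@Lb.g g10 (@Lb.g g11 (@Lb.r r1602 (@Lb.r r409 (@Lb.r r2659 (@Lb.r r2577 (@Lb.r r2564 (@Lb.d (nat_lit 650) (nat_lit 72) (nat_lit 386) (@Lb.fm (nat_lit 9) t1079))))))))))))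
noncomputable def l22116 : Lb := (@Lb.r r323 (@Lb.d (nat_lit 2) (nat_lit 2) (nat_lit 41) (@Lb.g g8 (@Lb.g g9 (@Lb.g g6 (@Lb.r r387 (@Lb.r r97 (@Lb.r r1432 (@Lb.d (nat_lit 666) (nat_lit 9) (nat_lit 16) (@Lb.t (@Lb.fp (nat_lit 9) t1081)))))))))))
noncomputable def l22117 : Lb := (@Lb.d (nat_lit 144) (nat_lit 2) (nat_lit 128) (@Lb.g g8 (@Lb.g g9 (@Lb.g g10 (@Lb.g g11 (@Lb.r r2722 (@Lb.r r2439 (@Lb.r r145 (@Lb.r r2632 (@Lb.d (nat_lit 617) (nat_lit 137) (nat_lit 425) (@Lb.fp (nat_lit 9) t472)))))))))))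
noncomputable def l22118 : Lb := (@Lb.d (nat_lit 420) (nat_lit 678) (nat_lit 282) (@Lb.r r1370 (@Lb.r r2132 (@Lb.r r2391 (@Lb.g g7 (@Lb.g g6 (@Lb.g g5 (@Lb.g g4 (@Lb.d (nat_lit 145) (nat_lit 129) (nat_lit 8) (@Lb.fp (nat_lit 9) t3536))))))))))
noncomputable def l22119 : Lb := (@Lb.d (nat_lit 145) (nat_lit 256) (nat_lit 384) (@Lb.g g8 (@Lb.g g10 (@Lb.g g11 (@Lb.r r1602 (@Lb.r r388 (@Lb.d (nat_lit 98) (nat_lit 0) (nat_lit 394) (@Lb.t (@Lb.fm (nat_lit 9) t4381)))))))))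
noncomputable def l22120 : Lb := (@Lb.d (nat_lit 130) (nat_lit 514) (nat_lit 10) (@Lb.g g8 (@Lb.g g9 (@Lb.g g10 (@Lb.r r2475 (@Lb.r r1701 (@Lb.r r2388 (@Lb.r r602 (@Lb.d (nat_lit 105) (nat_lit 33) (nat_lit 681) (@Lb.t (@Lb.fp (nat_lit 9) t2542)))))))))))
noncomputable def l22121 : Lb := (@Lb.d (nat_lit 144) (nat_lit 544) (nat_lit 130) (@Lb.g g8 (@Lb.g g10 (@Lb.g g11 (@Lb.r r2122 (@Lb.r r360 (@Lb.r r2329 (@Lb.r r551 (@Lb.d (nat_lit 128) (nat_lit 89) (nat_lit 38) (@Lb.t (@Lb.fm (nat_lit 9) t524)))))))))))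
noncomputable def l22122 : Lb := (@Lb.d (nat_lit 128) (nat_lit 264) (nat_lit 258) (@Lb.g g10 (@Lb.g g7 (@Lb.r r601 (@Lb.r r1624 (@Lb.r r2150 (@Lb.d (nat_lit 538) (nat_lit 9) (nat_lit 68) (@Lb.fm (nat_lit 3) t4382))))))))
noncomputable def l22123 : Lb := (@Lb.d (nat_lit 128) (nat_lit 512) (nat_lit 384) (@Lb.g g8 (@Lb.g g11 (@Lb.r r260 (@Lb.d (nat_lit 66) (nat_lit 0) (nat_lit 512) (@Lb.fm (nat_lit 3) t4381))))))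
noncomputable def l22124 : Lb := (@Lb.r r70 (@Lb.d (nat_lit 386) (nat_lit 266) (nat_lit 64) (@Lb.g g8 (@Lb.g g9 (@Lb.g g11 (@Lb.r r2454 (@Lb.r r2391 (@Lb.r r2601 (@Lb.d (nat_lit 330) (nat_lit 37) (nat_lit 529) (@Lb.t (@Lb.fm (nat_lit 9) t1953)))))))))))
noncomputable def l22125 : Lb := (@Lb.r r21 (@Lb.d (nat_lit 144) (nat_lit 512) (nat_lit 128) (@Lb.g g8 (@Lb.g g10 (@Lb.g g11 (@Lb.r r2706 (@Lb.r r1415 (@Lb.r r97 (@Lb.r r584 (@Lb.d (nat_lit 361) (nat_lit 154) (nat_lit 660) (@Lb.t (@Lb.fp (nat_lit 9) t4383))))))))))))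
noncomputable def l22126 : Lb := (@Lb.d (nat_lit 169) (nat_lit 329) (nat_lit 389) (@Lb.r r1192 (@Lb.r r89 (@Lb.r r386 (@Lb.g g11 (@Lb.g g6 (@Lb.g g4 (@Lb.d (nat_lit 5) (nat_lit 0) (nat_lit 321) (@Lb.r r529 (@Lb.t (@Lb.fm (nat_lit 9) t405)))))))))))
noncomputable def l22127 : Lb := (@Lb.r r82 (@Lb.d (nat_lit 0) (nat_lit 33) (nat_lit 64) (@Lb.g g9 (@Lb.g g11 (@Lb.r r555 (@Lb.r r612 (@Lb.r r90 (@Lb.r r37 (@Lb.d (nat_lit 33) (nat_lit 8) (nat_lit 0) (@Lb.fm (nat_lit 3) t892))))))))))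
noncomputable def l22128 : Lb := (@Lb.d (nat_lit 2) (nat_lit 5) (nat_lit 64) (@Lb.g g8 (@Lb.g g9 (@Lb.g g10 (@Lb.g g11 (@Lb.r r2435 (@Lb.r r386 (@Lb.r r612 (@Lb.r r533 (@Lb.r r1060 (@Lb.d (nat_lit 0) (nat_lit 5) (nat_lit 400) (@Lb.fm (nat_lit 9) t4384))))))))))))
noncomputable def l22129 : Lb := (@Lb.r r82 (@Lb.d (nat_lit 34) (nat_lit 514) (nat_lit 136) (@Lb.g g8 (@Lb.g g9 (@Lb.g g11 (@Lb.r r1362 (@Lb.r r2645 (@Lb.r r356 (@Lb.r r395 (@Lb.d (nat_lit 546) (nat_lit 34) (nat_lit 673) (@Lb.t (@Lb.fm (nat_lit 9) t1372))))))))))))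
noncomputable def l22130 : Lb := (@Lb.d (nat_lit 0) (nat_lit 256) (nat_lit 66) (@Lb.g g9 (@Lb.g g10 (@Lb.g g11 (@Lb.r r1603 (@Lb.r r386 (@Lb.r r101 (@Lb.r r24 (@Lb.d (nat_lit 352) (nat_lit 0) (nat_lit 133) (@Lb.t (@Lb.fm (nat_lit 9) t1150)))))))))))
noncomputable def l22131 : Lb := (@Lb.r r82 (@Lb.d (nat_lit 34) (nat_lit 258) (nat_lit 128) (@Lb.g g8 (@Lb.g g9 (@Lb.g g11 (@Lb.r r2665 (@Lb.r r150 (@Lb.r r2404 (@Lb.r r1419 (@Lb.d (nat_lit 129) (nat_lit 34) (nat_lit 644) (@Lb.t (@Lb.fm (nat_lit 9) t718))))))))))))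
noncomputable def l22132 : Lb := (@Lb.r r322 (@Lb.d (nat_lit 2) (nat_lit 514) (nat_lit 72) (@Lb.g g8 (@Lb.g g9 (@Lb.g g7 (@Lb.r r2409 (@Lb.r r2404 (@Lb.r r1610 (@Lb.d (nat_lit 161) (nat_lit 10) (nat_lit 420) (@Lb.t (@Lb.fm (nat_lit 9) t3052)))))))))))
noncomputable def l22133 : Lb := (@Lb.d (nat_lit 0) (nat_lit 548) (nat_lit 6) (@Lb.r r402 (@Lb.g g11 (@Lb.t (@Lb.fm (nat_lit 3) t354)))))
noncomputable def l22134 : Lb := (@Lb.d (nat_lit 2) (nat_lit 258) (nat_lit 130) (@Lb.g g8 (@Lb.g g9 (@Lb.g g10 (@Lb.g g11 (@Lb.r r84 (@Lb.r r154 (@Lb.r r597 (@Lb.r r343 (@Lb.r r676 (@Lb.d (nat_lit 617) (nat_lit 1) (nat_lit 666) (@Lb.fm (nat_lit 9) t698))))))))))))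
noncomputable def l22135 : Lb := (@Lb.d (nat_lit 168) (nat_lit 513) (nat_lit 128) (@Lb.g g9 (@Lb.g g10 (@Lb.g g11 (@Lb.r r264 (@Lb.r r2583 (@Lb.r r1361 (@Lb.r r2210 (@Lb.d (nat_lit 258) (nat_lit 68) (nat_lit 401) (@Lb.t (@Lb.fp (nat_lit 9) t1607)))))))))))
noncomputable def l22136 : Lb := (@Lb.d (nat_lit 2) (nat_lit 514) (nat_lit 128) (@Lb.g g8 (@Lb.g g9 (@Lb.g g11 (@Lb.r r24 (@Lb.r r533 (@Lb.r r279 (@Lb.r r2178 (@Lb.r r548 (@Lb.d (nat_lit 265) (nat_lit 134) (nat_lit 513) (@Lb.t (@Lb.fm (nat_lit 9) t1621))))))))))))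
noncomputable def l22137 : Lb := (@Lb.d (nat_lit 672) (nat_lit 16) (nat_lit 164) (@Lb.r r1158 (@Lb.r r1299 (@Lb.r r677 (@Lb.g g7 (@Lb.g g6 (@Lb.g g5 (@Lb.g g8 (@Lb.d (nat_lit 330) (nat_lit 5) (nat_lit 9) (@Lb.fm (nat_lit 9) t1185))))))))))
noncomputable def l22138 : Lb := (@Lb.r r70 (@Lb.r r263 (@Lb.d (nat_lit 5) (nat_lit 261) (nat_lit 0) (@Lb.g g8 (@Lb.g g5 (@Lb.r r2403 (@Lb.r r1110 (@Lb.r r136 (@Lb.d (nat_lit 38) (nat_lit 2) (nat_lit 34) (@Lb.fm (nat_lit 3) t759))))))))))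
noncomputable def l22139 : Lb := (@Lb.d (nat_lit 160) (nat_lit 257) (nat_lit 128) (@Lb.g g9 (@Lb.g g10 (@Lb.g g11 (@Lb.r r264 (@Lb.r r551 (@Lb.r r673 (@Lb.r r2210 (@Lb.d (nat_lit 258) (nat_lit 68) (nat_lit 422) (@Lb.t (@Lb.fm (nat_lit 9) t1607)))))))))))
noncomputable def l22140 : Lb := (@Lb.r r323 (@Lb.d (nat_lit 2) (nat_lit 6) (nat_lit 1) (@Lb.g g8 (@Lb.g g9 (@Lb.g g10 (@Lb.r r2713 (@Lb.r r343 (@Lb.r r1670 (@Lb.r r1156 (@Lb.d (nat_lit 160) (nat_lit 0) (nat_lit 616) (@Lb.t (@Lb.fp (nat_lit 9) t1729))))))))))))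
noncomputable def l22141 : Lb := (@Lb.d (nat_lit 2) (nat_lit 514) (nat_lit 128) (@Lb.g g8 (@Lb.g g9 (@Lb.g g10 (@Lb.g g11 (@Lb.r r88 (@Lb.r r2662 (@Lb.r r2645 (@Lb.r r2391 (@Lb.r r1700 (@Lb.d (nat_lit 545) (nat_lit 0) (nat_lit 513) (@Lb.fm (nat_lit 9) t3071))))))))))))
noncomputable def l22142 : Lb := (@Lb.d (nat_lit 341) (nat_lit 64) (nat_lit 594) (@Lb.r r1416 (@Lb.r r1670 (@Lb.r r615 (@Lb.r r2729 (@Lb.g g6 (@Lb.g g5 (@Lb.g g4 (@Lb.d (nat_lit 8) (nat_lit 0) (nat_lit 1) (@Lb.t (@Lb.fp (nat_lit 9) t4385)))))))))))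
noncomputable def l22143 : Lb := (@Lb.d (nat_lit 672) (nat_lit 388) (nat_lit 328) (@Lb.r r1610 (@Lb.r r2667 (@Lb.r r661 (@Lb.g g7 (@Lb.g g6 (@Lb.g g8 (@Lb.d (nat_lit 353) (nat_lit 4) (nat_lit 64) (@Lb.r r25 (@Lb.t (@Lb.fp (nat_lit 9) t4386)))))))))))
noncomputable def l22144 : Lb := (@Lb.r r323 (@Lb.d (nat_lit 2) (nat_lit 518) (nat_lit 1) (@Lb.g g8 (@Lb.g g9 (@Lb.g g10 (@Lb.r r2713 (@Lb.r r343 (@Lb.r r1670 (@Lb.r r1156 (@Lb.d (nat_lit 160) (nat_lit 0) (nat_lit 673) (@Lb.t (@Lb.fp (nat_lit 9) t1919))))))))))))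
noncomputable def l22145 : Lb := (@Lb.r r21 (@Lb.r r70 (@Lb.d (nat_lit 42) (nat_lit 256) (nat_lit 0) (@Lb.g g8 (@Lb.r r1626 (@Lb.r r1621 (@Lb.r r1367 (@Lb.r r2708 (@Lb.d (nat_lit 422) (nat_lit 101) (nat_lit 282) (@Lb.t (@Lb.fp (nat_lit 3) t329)))))))))))
noncomputable def l22146 : Lb := (@Lb.d (nat_lit 8) (nat_lit 514) (nat_lit 73) (@Lb.g g9 (@Lb.g g10 (@Lb.g g11 (@Lb.r r2658 (@Lb.r r579 (@Lb.r r24 (@Lb.d (nat_lit 325) (nat_lit 146) (nat_lit 74) (@Lb.t (@Lb.fm (nat_lit 9) t2645))))))))))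
noncomputable def l22147 : Lb := (@Lb.d (nat_lit 145) (nat_lit 0) (nat_lit 6) (@Lb.r r24 (@Lb.r r101 (@Lb.r r386 (@Lb.r r339 (@Lb.g g7 (@Lb.g g6 (@Lb.d (nat_lit 0) (nat_lit 0) (nat_lit 8) (@Lb.fp (nat_lit 3) t686)))))))))
noncomputable def l22148 : Lb := (@Lb.r r21 (@Lb.r r70 (@Lb.d (nat_lit 138) (nat_lit 0) (nat_lit 256) (@Lb.g g8 (@Lb.g g7 (@Lb.r r1617 (@Lb.r r2150 (@Lb.r r408 (@Lb.d (nat_lit 666) (nat_lit 26) (nat_lit 266) (@Lb.fm (nat_lit 3) t4387))))))))))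
noncomputable def l22149 : Lb := (@Lb.d (nat_lit 0) (nat_lit 258) (nat_lit 1) (@Lb.g g9 (@Lb.g g10 (@Lb.r r2728 (@Lb.r r2475 (@Lb.r r409 (@Lb.r r90 (@Lb.d (nat_lit 26) (nat_lit 69) (nat_lit 104) (@Lb.fp (nat_lit 3) t1096)))))))))
noncomputable def l22150 : Lb := (@Lb.d (nat_lit 257) (nat_lit 1) (nat_lit 74) (@Lb.r r24 (@Lb.r r2138 (@Lb.g g11 (@Lb.g g5 (@Lb.d (nat_lit 4) (nat_lit 1) (nat_lit 0) (@Lb.fm (nat_lit 3) t1221)))))))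
noncomputable def l22151 : Lb := (@Lb.d (nat_lit 2) (nat_lit 512) (nat_lit 66) (@Lb.g g8 (@Lb.g g10 (@Lb.g g7 (@Lb.r r2442 (@Lb.r r1433 (@Lb.r r2436 (@Lb.d (nat_lit 608) (nat_lit 0) (nat_lit 354) (@Lb.t (@Lb.fm (nat_lit 9) t1741))))))))))
noncomputable def l22152 : Lb := (@Lb.d (nat_lit 146) (nat_lit 2) (nat_lit 128) (@Lb.g g8 (@Lb.g g9 (@Lb.g g10 (@Lb.g g11 (@Lb.r r387 (@Lb.r r1177 (@Lb.r r2450 (@Lb.r r2632 (@Lb.d (nat_lit 514) (nat_lit 90) (nat_lit 170) (@Lb.fp (nat_lit 9) t4388)))))))))))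
noncomputable def l22153 : Lb := (@Lb.d (nat_lit 145) (nat_lit 512) (nat_lit 128) (@Lb.g g8 (@Lb.g g10 (@Lb.g g11 (@Lb.r r1675 (@Lb.r r330 (@Lb.r r537 (@Lb.r r1540 (@Lb.d (nat_lit 545) (nat_lit 0) (nat_lit 661) (@Lb.t (@Lb.fp (nat_lit 9) t2188)))))))))))
noncomputable def l22154 : Lb := (@Lb.d (nat_lit 10) (nat_lit 0) (nat_lit 0) (@Lb.g g8 (@Lb.r r101 (@Lb.d (nat_lit 2) (nat_lit 1) (nat_lit 2) (@Lb.t (@Lb.fm (nat_lit 3) t97))))))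
noncomputable def l22155 : Lb := (@Lb.d (nat_lit 34) (nat_lit 256) (nat_lit 0) (@Lb.g g8 (@Lb.r r289 (@Lb.r r2579 (@Lb.r r582 (@Lb.r r2180 (@Lb.d (nat_lit 546) (nat_lit 164) (nat_lit 400) (@Lb.t (@Lb.fp (nat_lit 3) t4389)))))))))
noncomputable def l22156 : Lb := (@Lb.d (nat_lit 10) (nat_lit 256) (nat_lit 73) (@Lb.g g8 (@Lb.g g10 (@Lb.g g11 (@Lb.r r659 (@Lb.r r578 (@Lb.d (nat_lit 0) (nat_lit 24) (nat_lit 137) (@Lb.t (@Lb.fp (nat_lit 9) t119)))))))))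
noncomputable def l22157 : Lb := (@Lb.d (nat_lit 0) (nat_lit 514) (nat_lit 130) (@Lb.g g9 (@Lb.g g10 (@Lb.g g11 (@Lb.r r1706 (@Lb.r r168 (@Lb.r r409 (@Lb.r r295 (@Lb.r r516 (@Lb.d (nat_lit 258) (nat_lit 98) (nat_lit 618) (@Lb.t (@Lb.fm (nat_lit 9) t1649))))))))))))
noncomputable def l22158 : Lb := (@Lb.d (nat_lit 0) (nat_lit 514) (nat_lit 130) (@Lb.g g9 (@Lb.g g10 (@Lb.g g11 (@Lb.r r1706 (@Lb.r r168 (@Lb.r r409 (@Lb.r r295 (@Lb.r r516 (@Lb.d (nat_lit 266) (nat_lit 97) (nat_lit 618) (@Lb.t (@Lb.fm (nat_lit 9) t1649))))))))))))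
noncomputable def l22159 : Lb := (@Lb.d (nat_lit 1) (nat_lit 514) (nat_lit 73) (@Lb.g g4 (@Lb.g g9 (@Lb.g g10 (@Lb.g g11 (@Lb.r r1671 (@Lb.r r145 (@Lb.r r594 (@Lb.r r1169 (@Lb.d (nat_lit 538) (nat_lit 97) (nat_lit 586) (@Lb.fp (nat_lit 9) t504)))))))))))
noncomputable def l22160 : Lb := (@Lb.d (nat_lit 2) (nat_lit 2) (nat_lit 2) (@Lb.g g8 (@Lb.g g9 (@Lb.g g10 (@Lb.r r427 (@Lb.r r386 (@Lb.r r97 (@Lb.r r24 (@Lb.d (nat_lit 257) (nat_lit 73) (nat_lit 649) (@Lb.t (@Lb.fp (nat_lit 9) t741)))))))))))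
noncomputable def l22161 : Lb := (@Lb.d (nat_lit 2) (nat_lit 2) (nat_lit 162) (@Lb.g g8 (@Lb.g g9 (@Lb.g g6 (@Lb.g g11 (@Lb.r r2667 (@Lb.r r97 (@Lb.r r2584 (@Lb.d (nat_lit 585) (nat_lit 169) (nat_lit 384) (@Lb.fp (nat_lit 9) t777))))))))))
noncomputable def l22162 : Lb := (@Lb.d (nat_lit 289) (nat_lit 0) (nat_lit 34) (@Lb.r r24 (@Lb.r r2197 (@Lb.r r386 (@Lb.r r2403 (@Lb.g g7 (@Lb.g g5 (@Lb.d (nat_lit 0) (nat_lit 34) (nat_lit 0) (@Lb.r r98 (@Lb.fm (nat_lit 3) t719))))))))))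
noncomputable def l22163 : Lb := (@Lb.r r21 (@Lb.r r263 (@Lb.d (nat_lit 0) (nat_lit 520) (nat_lit 18) (@Lb.g g8 (@Lb.g g10 (@Lb.r r2459 (@Lb.r r2196 (@Lb.r r25 (@Lb.d (nat_lit 538) (nat_lit 137) (nat_lit 18) (@Lb.fm (nat_lit 3) t4390))))))))))
noncomputable def l22164 : Lb := (@Lb.d (nat_lit 549) (nat_lit 6) (nat_lit 2) (@Lb.r r24 (@Lb.r r97 (@Lb.r r406 (@Lb.r r1643 (@Lb.g g7 (@Lb.g g6 (@Lb.g g5 (@Lb.d (nat_lit 0) (nat_lit 1) (nat_lit 128) (@Lb.t (@Lb.fp (nat_lit 9) t4391)))))))))))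
noncomputable def l22165 : Lb := (@Lb.d (nat_lit 645) (nat_lit 18) (nat_lit 104) (@Lb.r r24 (@Lb.r r289 (@Lb.r r322 (@Lb.g g11 (@Lb.g g5 (@Lb.d (nat_lit 0) (nat_lit 1) (nat_lit 516) (@Lb.r r98 (@Lb.fp (nat_lit 3) t1428)))))))))
noncomputable def l22166 : Lb := (@Lb.d (nat_lit 645) (nat_lit 274) (nat_lit 68) (@Lb.r r24 (@Lb.r r82 (@Lb.r r417 (@Lb.r r1555 (@Lb.g g7 (@Lb.g g6 (@Lb.g g5 (@Lb.d (nat_lit 0) (nat_lit 8) (nat_lit 128) (@Lb.t (@Lb.fm (nat_lit 9) t1794)))))))))))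
noncomputable def l22167 : Lb := (@Lb.d (nat_lit 10) (nat_lit 513) (nat_lit 130) (@Lb.g g8 (@Lb.g g9 (@Lb.g g10 (@Lb.g g11 (@Lb.r r548 (@Lb.r r295 (@Lb.r r1626 (@Lb.r r405 (@Lb.r r2084 (@Lb.d (nat_lit 673) (nat_lit 73) (nat_lit 329) (@Lb.fp (nat_lit 9) t1540))))))))))))
noncomputable def l22168 : Lb := (@Lb.r r322 (@Lb.d (nat_lit 0) (nat_lit 645) (nat_lit 576) (@Lb.g g5 (@Lb.g g7 (@Lb.r r1426 (@Lb.r r24 (@Lb.d (nat_lit 0) (nat_lit 129) (nat_lit 4) (@Lb.fm (nat_lit 3) t3110))))))))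
noncomputable def l22169 : Lb := (@Lb.d (nat_lit 2) (nat_lit 521) (nat_lit 1) (@Lb.g g8 (@Lb.g g9 (@Lb.g g10 (@Lb.r r2729 (@Lb.r r2475 (@Lb.r r2468 (@Lb.r r2438 (@Lb.d (nat_lit 400) (nat_lit 10) (nat_lit 329) (@Lb.t (@Lb.fm (nat_lit 9) t580)))))))))))
noncomputable def l22170 : Lb := (@Lb.r r81 (@Lb.d (nat_lit 10) (nat_lit 512) (nat_lit 105) (@Lb.g g8 (@Lb.g g6 (@Lb.g g11 (@Lb.r r149 (@Lb.r r1704 (@Lb.r r1611 (@Lb.d (nat_lit 608) (nat_lit 42) (nat_lit 386) (@Lb.t (@Lb.fp (nat_lit 9) t981)))))))))))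
noncomputable def l22171 : Lb := (@Lb.d (nat_lit 0) (nat_lit 281) (nat_lit 336) (@Lb.r r401 (@Lb.r r2450 (@Lb.g g7 (@Lb.g g5 (@Lb.d (nat_lit 0) (nat_lit 4) (nat_lit 64) (@Lb.fp (nat_lit 3) t246)))))))
noncomputable def l22172 : Lb := (@Lb.r r82 (@Lb.d (nat_lit 2) (nat_lit 258) (nat_lit 0) (@Lb.g g8 (@Lb.g g9 (@Lb.r r299 (@Lb.r r386 (@Lb.r r1049 (@Lb.d (nat_lit 21) (nat_lit 136) (nat_lit 682) (@Lb.fp (nat_lit 3) t4392)))))))))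
noncomputable def l22173 : Lb := (@Lb.d (nat_lit 2) (nat_lit 258) (nat_lit 2) (@Lb.g g8 (@Lb.g g9 (@Lb.g g10 (@Lb.r r427 (@Lb.r r106 (@Lb.r r97 (@Lb.d (nat_lit 617) (nat_lit 161) (nat_lit 514) (@Lb.t (@Lb.fp (nat_lit 9) t1022))))))))))
noncomputable def l22174 : Lb := (@Lb.r r81 (@Lb.d (nat_lit 10) (nat_lit 0) (nat_lit 105) (@Lb.g g8 (@Lb.g g6 (@Lb.g g11 (@Lb.r r149 (@Lb.r r1704 (@Lb.r r1611 (@Lb.d (nat_lit 610) (nat_lit 42) (nat_lit 386) (@Lb.t (@Lb.fp (nat_lit 9) t1246)))))))))))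
noncomputable def l22175 : Lb := (@Lb.d (nat_lit 0) (nat_lit 9) (nat_lit 72) (@Lb.g g9 (@Lb.g g10 (@Lb.g g11 (@Lb.r r401 (@Lb.r r611 (@Lb.r r1378 (@Lb.r r2129 (@Lb.d (nat_lit 0) (nat_lit 40) (nat_lit 578) (@Lb.t (@Lb.fp (nat_lit 9) t943)))))))))))
noncomputable def l22176 : Lb := (@Lb.r r322 (@Lb.d (nat_lit 2) (nat_lit 389) (nat_lit 576) (@Lb.g g8 (@Lb.g g5 (@Lb.g g7 (@Lb.r r1426 (@Lb.r r24 (@Lb.d (nat_lit 0) (nat_lit 129) (nat_lit 4) (@Lb.t (@Lb.fm (nat_lit 9) t3110))))))))))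
noncomputable def l22177 : Lb := (@Lb.d (nat_lit 2) (nat_lit 514) (nat_lit 66) (@Lb.g g8 (@Lb.g g9 (@Lb.g g10 (@Lb.g g7 (@Lb.r r386 (@Lb.r r97 (@Lb.r r2584 (@Lb.d (nat_lit 330) (nat_lit 9) (nat_lit 9) (@Lb.fp (nat_lit 9) t996))))))))))
noncomputable def l22178 : Lb := (@Lb.r r21 (@Lb.r r326 (@Lb.d (nat_lit 513) (nat_lit 0) (nat_lit 576) (@Lb.g g4 (@Lb.g g7 (@Lb.r r1426 (@Lb.r r97 (@Lb.d (nat_lit 1) (nat_lit 66) (nat_lit 576) (@Lb.fm (nat_lit 3) t720)))))))))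
noncomputable def l22179 : Lb := (@Lb.d (nat_lit 0) (nat_lit 258) (nat_lit 73) (@Lb.g g9 (@Lb.g g10 (@Lb.g g11 (@Lb.r r2705 (@Lb.r r535 (@Lb.r r2440 (@Lb.r r2122 (@Lb.d (nat_lit 289) (nat_lit 10) (nat_lit 96) (@Lb.t (@Lb.fm (nat_lit 9) t263)))))))))))
noncomputable def l22180 : Lb := (@Lb.d (nat_lit 530) (nat_lit 522) (nat_lit 16) (@Lb.r r1158 (@Lb.r r2132 (@Lb.r r2345 (@Lb.r r2707 (@Lb.g g7 (@Lb.g g6 (@Lb.g g4 (@Lb.d (nat_lit 1) (nat_lit 0) (nat_lit 0) (@Lb.t (@Lb.fm (nat_lit 9) t4393)))))))))))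
noncomputable def l22181 : Lb := (@Lb.d (nat_lit 146) (nat_lit 390) (nat_lit 86) (@Lb.r r2129 (@Lb.r r1186 (@Lb.r r1451 (@Lb.r r264 (@Lb.g g7 (@Lb.g g6 (@Lb.g g5 (@Lb.d (nat_lit 64) (nat_lit 0) (nat_lit 128) (@Lb.t (@Lb.fp (nat_lit 9) t44)))))))))))
noncomputable def l22182 : Lb := (@Lb.d (nat_lit 586) (nat_lit 406) (nat_lit 320) (@Lb.r r2344 (@Lb.r r1559 (@Lb.r r345 (@Lb.g g10 (@Lb.g g4 (@Lb.d (nat_lit 69) (nat_lit 0) (nat_lit 37) (@Lb.fp (nat_lit 3) t2766))))))))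
noncomputable def l22183 : Lb := (@Lb.r r275 (@Lb.d (nat_lit 2) (nat_lit 261) (nat_lit 0) (@Lb.g g8 (@Lb.g g9 (@Lb.g g10 (@Lb.r r427 (@Lb.r r150 (@Lb.r r169 (@Lb.d (nat_lit 21) (nat_lit 6) (nat_lit 2) (@Lb.t (@Lb.fm (nat_lit 9) t5)))))))))))
noncomputable def l22184 : Lb := (@Lb.d (nat_lit 645) (nat_lit 0) (nat_lit 130) (@Lb.g g4 (@Lb.g g9 (@Lb.g g10 (@Lb.g g11 (@Lb.r r677 (@Lb.r r2339 (@Lb.r r1158 (@Lb.d (nat_lit 97) (nat_lit 32) (nat_lit 105) (@Lb.fm (nat_lit 9) t85))))))))))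
noncomputable def l22185 : Lb := (@Lb.d (nat_lit 2) (nat_lit 265) (nat_lit 72) (@Lb.g g8 (@Lb.g g9 (@Lb.g g10 (@Lb.g g11 (@Lb.r r2666 (@Lb.r r579 (@Lb.r r97 (@Lb.r r24 (@Lb.d (nat_lit 426) (nat_lit 4) (nat_lit 358) (@Lb.fm (nat_lit 9) t2616)))))))))))
noncomputable def l22186 : Lb := (@Lb.d (nat_lit 0) (nat_lit 282) (nat_lit 534) (@Lb.r r1362 (@Lb.r r2691 (@Lb.g g6 (@Lb.g g5 (@Lb.d (nat_lit 0) (nat_lit 0) (nat_lit 1) (@Lb.fp (nat_lit 3) t599)))))))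
noncomputable def l22187 : Lb := (@Lb.r r323 (@Lb.d (nat_lit 0) (nat_lit 8) (nat_lit 37) (@Lb.g g10 (@Lb.r r387 (@Lb.d (nat_lit 0) (nat_lit 2) (nat_lit 137) (@Lb.t (@Lb.fp (nat_lit 3) t51)))))))
noncomputable def l22188 : Lb := (@Lb.r r323 (@Lb.d (nat_lit 0) (nat_lit 264) (nat_lit 6) (@Lb.g g10 (@Lb.r r387 (@Lb.d (nat_lit 0) (nat_lit 4) (nat_lit 10) (@Lb.t (@Lb.fp (nat_lit 3) t369)))))))
noncomputable def l22189 : Lb := (@Lb.d (nat_lit 5) (nat_lit 417) (nat_lit 66) (@Lb.r r24 (@Lb.r r2657 (@Lb.g g7 (@Lb.g g10 (@Lb.g g5 (@Lb.g g4 (@Lb.d (nat_lit 1) (nat_lit 1) (nat_lit 164) (@Lb.fm (nat_lit 9) t4394)))))))))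
noncomputable def l22190 : Lb := (@Lb.d (nat_lit 88) (nat_lit 166) (nat_lit 581) (@Lb.r r2178 (@Lb.r r1447 (@Lb.r r2337 (@Lb.g g7 (@Lb.g g4 (@Lb.d (nat_lit 2) (nat_lit 16) (nat_lit 128) (@Lb.fm (nat_lit 3) t4395))))))))
noncomputable def l22191 : Lb := (@Lb.d (nat_lit 293) (nat_lit 320) (nat_lit 64) (@Lb.r r154 (@Lb.r r101 (@Lb.r r1304 (@Lb.g g7 (@Lb.d (nat_lit 64) (nat_lit 32) (nat_lit 576) (@Lb.t (@Lb.fp (nat_lit 3) t472))))))))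
noncomputable def l22192 : Lb := (@Lb.d (nat_lit 0) (nat_lit 545) (nat_lit 66) (@Lb.g g8 (@Lb.g g9 (@Lb.g g10 (@Lb.g g11 (@Lb.r r387 (@Lb.r r1682 (@Lb.r r1561 (@Lb.r r24 (@Lb.d (nat_lit 514) (nat_lit 0) (nat_lit 401) (@Lb.fp (nat_lit 9) t2061)))))))))))
noncomputable def l22193 : Lb := (@Lb.d (nat_lit 1) (nat_lit 256) (nat_lit 128) (@Lb.g g8 (@Lb.g g11 (@Lb.r r1367 (@Lb.r r81 (@Lb.r r162 (@Lb.r r145 (@Lb.r r2628 (@Lb.d (nat_lit 162) (nat_lit 8) (nat_lit 393) (@Lb.fp (nat_lit 3) t1277))))))))))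
noncomputable def l22194 : Lb := (@Lb.d (nat_lit 0) (nat_lit 545) (nat_lit 66) (@Lb.g g9 (@Lb.g g10 (@Lb.g g11 (@Lb.r r387 (@Lb.r r1682 (@Lb.r r1561 (@Lb.r r24 (@Lb.d (nat_lit 514) (nat_lit 0) (nat_lit 401) (@Lb.t (@Lb.fm (nat_lit 9) t2061)))))))))))
noncomputable def l22195 : Lb := (@Lb.d (nat_lit 0) (nat_lit 544) (nat_lit 66) (@Lb.g g9 (@Lb.g g10 (@Lb.g g11 (@Lb.r r2387 (@Lb.r r1702 (@Lb.r r1636 (@Lb.r r1557 (@Lb.d (nat_lit 385) (nat_lit 81) (nat_lit 576) (@Lb.t (@Lb.fp (nat_lit 9) t848)))))))))))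
noncomputable def l22196 : Lb := (@Lb.d (nat_lit 0) (nat_lit 256) (nat_lit 128) (@Lb.g g5 (@Lb.g g11 (@Lb.fp (nat_lit 3) t2))))
noncomputable def l22197 : Lb := (@Lb.r r82 (@Lb.d (nat_lit 34) (nat_lit 514) (nat_lit 128) (@Lb.g g8 (@Lb.g g9 (@Lb.g g11 (@Lb.r r1571 (@Lb.r r582 (@Lb.r r1177 (@Lb.r r408 (@Lb.d (nat_lit 345) (nat_lit 26) (nat_lit 650) (@Lb.t (@Lb.fm (nat_lit 9) t4396))))))))))))
noncomputable def l22198 : Lb := (@Lb.d (nat_lit 10) (nat_lit 544) (nat_lit 128) (@Lb.g g8 (@Lb.g g11 (@Lb.r r1109 (@Lb.r r2468 (@Lb.r r2571 (@Lb.r r2178 (@Lb.d (nat_lit 96) (nat_lit 90) (nat_lit 617) (@Lb.fm (nat_lit 3) t124)))))))))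
noncomputable def l22199 : Lb := (@Lb.r r82 (@Lb.d (nat_lit 2) (nat_lit 258) (nat_lit 128) (@Lb.g g8 (@Lb.g g9 (@Lb.g g11 (@Lb.r r1561 (@Lb.r r595 (@Lb.r r386 (@Lb.r r24 (@Lb.d (nat_lit 598) (nat_lit 9) (nat_lit 530) (@Lb.t (@Lb.fp (nat_lit 9) t3823))))))))))))
noncomputable def l22200 : Lb := (@Lb.d (nat_lit 0) (nat_lit 666) (nat_lit 42) (@Lb.r r2403 (@Lb.r r594 (@Lb.g g11 (@Lb.g g6 (@Lb.fp (nat_lit 3) t210))))))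
noncomputable def l22201 : Lb := (@Lb.d (nat_lit 2) (nat_lit 258) (nat_lit 2) (@Lb.g g8 (@Lb.g g9 (@Lb.g g10 (@Lb.g g11 (@Lb.r r427 (@Lb.r r1177 (@Lb.r r146 (@Lb.d (nat_lit 545) (nat_lit 10) (nat_lit 17) (@Lb.fm (nat_lit 9) t296))))))))))
noncomputable def l22202 : Lb := (@Lb.d (nat_lit 128) (nat_lit 16) (nat_lit 392) (@Lb.g g11 (@Lb.r r2145 (@Lb.r r360 (@Lb.r r150 (@Lb.d (nat_lit 256) (nat_lit 9) (nat_lit 130) (@Lb.t (@Lb.fm (nat_lit 3) t2885))))))))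
noncomputable def l22203 : Lb := (@Lb.r r323 (@Lb.d (nat_lit 2) (nat_lit 258) (nat_lit 0) (@Lb.g g8 (@Lb.g g9 (@Lb.g g10 (@Lb.r r427 (@Lb.r r1177 (@Lb.r r146 (@Lb.d (nat_lit 545) (nat_lit 10) (nat_lit 17) (@Lb.t (@Lb.fp (nat_lit 9) t296)))))))))))
noncomputable def l22204 : Lb := (@Lb.d (nat_lit 134) (nat_lit 22) (nat_lit 290) (@Lb.r r277 (@Lb.r r342 (@Lb.r r2731 (@Lb.g g7 (@Lb.g g6 (@Lb.g g5 (@Lb.g g4 (@Lb.d (nat_lit 1) (nat_lit 17) (nat_lit 65) (@Lb.fm (nat_lit 9) t309))))))))))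
noncomputable def l22205 : Lb := (@Lb.d (nat_lit 32) (nat_lit 256) (nat_lit 66) (@Lb.g g9 (@Lb.g g10 (@Lb.g g11 (@Lb.r r545 (@Lb.r r299 (@Lb.r r72 (@Lb.r r390 (@Lb.d (nat_lit 74) (nat_lit 138) (nat_lit 168) (@Lb.t (@Lb.fp (nat_lit 9) t126)))))))))))
noncomputable def l22206 : Lb := (@Lb.d (nat_lit 32) (nat_lit 258) (nat_lit 2) (@Lb.g g9 (@Lb.g g10 (@Lb.g g7 (@Lb.r r297 (@Lb.r r72 (@Lb.r r102 (@Lb.d (nat_lit 154) (nat_lit 85) (nat_lit 264) (@Lb.t (@Lb.fp (nat_lit 9) t1190))))))))))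
noncomputable def l22207 : Lb := (@Lb.r r82 (@Lb.d (nat_lit 133) (nat_lit 290) (nat_lit 64) (@Lb.g g8 (@Lb.g g9 (@Lb.g g11 (@Lb.r r599 (@Lb.r r2390 (@Lb.r r2641 (@Lb.r r2120 (@Lb.d (nat_lit 132) (nat_lit 81) (nat_lit 98) (@Lb.t (@Lb.fm (nat_lit 9) t1964))))))))))))
noncomputable def l22208 : Lb := (@Lb.d (nat_lit 128) (nat_lit 514) (nat_lit 73) (@Lb.g g8 (@Lb.g g9 (@Lb.g g10 (@Lb.g g11 (@Lb.r r599 (@Lb.r r1706 (@Lb.r r1625 (@Lb.r r1604 (@Lb.d (nat_lit 409) (nat_lit 9) (nat_lit 290) (@Lb.fp (nat_lit 9) t394)))))))))))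
noncomputable def l22209 : Lb := (@Lb.d (nat_lit 1) (nat_lit 8) (nat_lit 130) (@Lb.g g8 (@Lb.g g10 (@Lb.g g11 (@Lb.r r353 (@Lb.r r2707 (@Lb.r r662 (@Lb.r r2120 (@Lb.d (nat_lit 105) (nat_lit 161) (nat_lit 262) (@Lb.t (@Lb.fm (nat_lit 9) t282)))))))))))
noncomputable def l22210 : Lb := (@Lb.r r21 (@Lb.r r70 (@Lb.r r263 (@Lb.d (nat_lit 6) (nat_lit 256) (nat_lit 0) (@Lb.g g4 (@Lb.r r1557 (@Lb.r r283 (@Lb.r r388 (@Lb.r r2182 (@Lb.d (nat_lit 0) (nat_lit 0) (nat_lit 617) (@Lb.t (@Lb.fp (nat_lit 3) t239))))))))))))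
noncomputable def l22211 : Lb := (@Lb.d (nat_lit 32) (nat_lit 512) (nat_lit 146) (@Lb.g g10 (@Lb.g g11 (@Lb.r r387 (@Lb.d (nat_lit 514) (nat_lit 0) (nat_lit 9) (@Lb.fm (nat_lit 3) t3782))))))
noncomputable def l22212 : Lb := (@Lb.r r21 (@Lb.r r323 (@Lb.d (nat_lit 169) (nat_lit 256) (nat_lit 0) (@Lb.g g8 (@Lb.g g6 (@Lb.r r423 (@Lb.r r293 (@Lb.r r532 (@Lb.d (nat_lit 134) (nat_lit 41) (nat_lit 130) (@Lb.fm (nat_lit 3) t50))))))))))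
noncomputable def l22213 : Lb := (@Lb.r r21 (@Lb.d (nat_lit 41) (nat_lit 512) (nat_lit 37) (@Lb.g g8 (@Lb.g g6 (@Lb.g g11 (@Lb.r r1627 (@Lb.r r2341 (@Lb.r r1556 (@Lb.d (nat_lit 390) (nat_lit 161) (nat_lit 641) (@Lb.t (@Lb.fp (nat_lit 9) t50)))))))))))
noncomputable def l22214 : Lb := (@Lb.r r81 (@Lb.r r323 (@Lb.d (nat_lit 10) (nat_lit 0) (nat_lit 33) (@Lb.g g8 (@Lb.g g6 (@Lb.r r2667 (@Lb.r r149 (@Lb.r r104 (@Lb.d (nat_lit 262) (nat_lit 74) (nat_lit 128) (@Lb.fp (nat_lit 3) t4397))))))))))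
noncomputable def l22215 : Lb := (@Lb.r r21 (@Lb.d (nat_lit 129) (nat_lit 256) (nat_lit 66) (@Lb.g g8 (@Lb.g g10 (@Lb.g g11 (@Lb.r r1674 (@Lb.r r1125 (@Lb.r r1668 (@Lb.r r2663 (@Lb.d (nat_lit 662) (nat_lit 9) (nat_lit 618) (@Lb.t (@Lb.fp (nat_lit 9) t1284))))))))))))
noncomputable def l22216 : Lb := (@Lb.r r21 (@Lb.d (nat_lit 645) (nat_lit 264) (nat_lit 66) (@Lb.g g8 (@Lb.g g10 (@Lb.g g11 (@Lb.r r1419 (@Lb.r r101 (@Lb.r r410 (@Lb.d (nat_lit 8) (nat_lit 149) (nat_lit 100) (@Lb.t (@Lb.fm (nat_lit 9) t2443)))))))))))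
noncomputable def l22217 : Lb := (@Lb.r r21 (@Lb.d (nat_lit 10) (nat_lit 520) (nat_lit 130) (@Lb.g g8 (@Lb.g g10 (@Lb.g g11 (@Lb.r r427 (@Lb.r r533 (@Lb.r r360 (@Lb.r r102 (@Lb.d (nat_lit 21) (nat_lit 144) (nat_lit 133) (@Lb.t (@Lb.fp (nat_lit 9) t51))))))))))))
noncomputable def l22218 : Lb := (@Lb.d (nat_lit 128) (nat_lit 2) (nat_lit 73) (@Lb.g g8 (@Lb.g g9 (@Lb.g g10 (@Lb.g g11 (@Lb.r r599 (@Lb.r r1706 (@Lb.r r1625 (@Lb.r r1604 (@Lb.d (nat_lit 408) (nat_lit 9) (nat_lit 290) (@Lb.fp (nat_lit 9) t1792)))))))))))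
noncomputable def l22219 : Lb := (@Lb.d (nat_lit 146) (nat_lit 258) (nat_lit 74) (@Lb.g g8 (@Lb.g g9 (@Lb.g g10 (@Lb.g g11 (@Lb.r r599 (@Lb.r r677 (@Lb.r r340 (@Lb.r r2650 (@Lb.d (nat_lit 361) (nat_lit 66) (nat_lit 98) (@Lb.fp (nat_lit 9) t495)))))))))))
noncomputable def l22220 : Lb := (@Lb.d (nat_lit 0) (nat_lit 512) (nat_lit 1) (@Lb.r r323 (@Lb.g g7 (@Lb.g g6 (@Lb.fm (nat_lit 3) t2)))))
noncomputable def l22221 : Lb := (@Lb.d (nat_lit 0) (nat_lit 258) (nat_lit 592) (@Lb.r r1371 (@Lb.r r2725 (@Lb.r r2662 (@Lb.r r1416 (@Lb.g g5 (@Lb.d (nat_lit 0) (nat_lit 1) (nat_lit 0) (@Lb.t (@Lb.fm (nat_lit 3) t441)))))))))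
noncomputable def l22222 : Lb := (@Lb.d (nat_lit 41) (nat_lit 9) (nat_lit 1) (@Lb.r r169 (@Lb.r r106 (@Lb.r r612 (@Lb.r r359 (@Lb.g g5 (@Lb.d (nat_lit 4) (nat_lit 21) (nat_lit 0) (@Lb.t (@Lb.fp (nat_lit 3) t2)))))))))
noncomputable def l22223 : Lb := (@Lb.d (nat_lit 130) (nat_lit 265) (nat_lit 1) (@Lb.g g8 (@Lb.g g9 (@Lb.g g10 (@Lb.r r1699 (@Lb.r r1194 (@Lb.r r2389 (@Lb.r r420 (@Lb.d (nat_lit 553) (nat_lit 164) (nat_lit 330) (@Lb.t (@Lb.fm (nat_lit 9) t68)))))))))))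
noncomputable def l22224 : Lb := (@Lb.r r70 (@Lb.d (nat_lit 257) (nat_lit 6) (nat_lit 0) (@Lb.g g4 (@Lb.g g9 (@Lb.r r678 (@Lb.r r2715 (@Lb.r r1385 (@Lb.d (nat_lit 20) (nat_lit 160) (nat_lit 164) (@Lb.fm (nat_lit 3) t394)))))))))
noncomputable def l22225 : Lb := (@Lb.d (nat_lit 0) (nat_lit 602) (nat_lit 298) (@Lb.fp (nat_lit 1) t654))
noncomputable def l22226 : Lb := (@Lb.d (nat_lit 9) (nat_lit 257) (nat_lit 130) (@Lb.g g8 (@Lb.g g9 (@Lb.g g10 (@Lb.g g11 (@Lb.r r427 (@Lb.r r388 (@Lb.r r2134 (@Lb.r r145 (@Lb.r r1060 (@Lb.d (nat_lit 289) (nat_lit 169) (nat_lit 401) (@Lb.fp (nat_lit 9) t791))))))))))))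
noncomputable def l22227 : Lb := (@Lb.r r81 (@Lb.r r323 (@Lb.d (nat_lit 10) (nat_lit 0) (nat_lit 42) (@Lb.g g8 (@Lb.g g6 (@Lb.r r149 (@Lb.r r1448 (@Lb.r r2439 (@Lb.d (nat_lit 401) (nat_lit 42) (nat_lit 89) (@Lb.fm (nat_lit 3) t1246))))))))))
noncomputable def l22228 : Lb := (@Lb.d (nat_lit 645) (nat_lit 512) (nat_lit 130) (@Lb.g g4 (@Lb.g g9 (@Lb.g g10 (@Lb.g g11 (@Lb.r r657 (@Lb.r r1435 (@Lb.r r90 (@Lb.r r145 (@Lb.d (nat_lit 298) (nat_lit 130) (nat_lit 90) (@Lb.fm (nat_lit 9) t1071)))))))))))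
noncomputable def l22229 : Lb := (@Lb.d (nat_lit 128) (nat_lit 512) (nat_lit 128) (@Lb.g g11 (@Lb.r r264 (@Lb.r r519 (@Lb.r r2145 (@Lb.r r1170 (@Lb.d (nat_lit 656) (nat_lit 0) (nat_lit 129) (@Lb.t (@Lb.fp (nat_lit 3) t285)))))))))
noncomputable def l22230 : Lb := (@Lb.d (nat_lit 74) (nat_lit 73) (nat_lit 385) (@Lb.r r1192 (@Lb.r r665 (@Lb.r r595 (@Lb.g g6 (@Lb.g g5 (@Lb.g g4 (@Lb.d (nat_lit 65) (nat_lit 17) (nat_lit 33) (@Lb.r r387 (@Lb.t (@Lb.fp (nat_lit 9) t2437)))))))))))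
noncomputable def l22231 : Lb := (@Lb.r r70 (@Lb.d (nat_lit 0) (nat_lit 2) (nat_lit 128) (@Lb.g g8 (@Lb.g g9 (@Lb.g g11 (@Lb.r r2583 (@Lb.r r610 (@Lb.r r97 (@Lb.r r1448 (@Lb.d (nat_lit 344) (nat_lit 73) (nat_lit 545) (@Lb.t (@Lb.fp (nat_lit 9) t4398))))))))))))
noncomputable def l22232 : Lb := (@Lb.r r82 (@Lb.d (nat_lit 134) (nat_lit 256) (nat_lit 128) (@Lb.g g8 (@Lb.g g9 (@Lb.g g11 (@Lb.r r2467 (@Lb.r r386 (@Lb.r r36 (@Lb.r r1125 (@Lb.d (nat_lit 69) (nat_lit 9) (nat_lit 530) (@Lb.t (@Lb.fm (nat_lit 9) t1774))))))))))))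
noncomputable def l22233 : Lb := (@Lb.r r82 (@Lb.d (nat_lit 133) (nat_lit 0) (nat_lit 128) (@Lb.g g8 (@Lb.g g9 (@Lb.g g11 (@Lb.r r2467 (@Lb.r r386 (@Lb.r r165 (@Lb.r r1176 (@Lb.d (nat_lit 278) (nat_lit 10) (nat_lit 162) (@Lb.t (@Lb.fp (nat_lit 9) t4399))))))))))))
noncomputable def l22234 : Lb := (@Lb.r r82 (@Lb.d (nat_lit 134) (nat_lit 0) (nat_lit 128) (@Lb.g g8 (@Lb.g g9 (@Lb.g g11 (@Lb.r r2467 (@Lb.r r386 (@Lb.r r36 (@Lb.r r1125 (@Lb.d (nat_lit 74) (nat_lit 10) (nat_lit 530) (@Lb.t (@Lb.fm (nat_lit 9) t2762))))))))))))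
noncomputable def l22235 : Lb := (@Lb.r r82 (@Lb.d (nat_lit 166) (nat_lit 0) (nat_lit 136) (@Lb.g g8 (@Lb.g g9 (@Lb.g g11 (@Lb.r r1426 (@Lb.r r677 (@Lb.r r1432 (@Lb.r r1415 (@Lb.d (nat_lit 361) (nat_lit 86) (nat_lit 17) (@Lb.t (@Lb.fp (nat_lit 9) t4399))))))))))))
noncomputable def l22236 : Lb := (@Lb.d (nat_lit 598) (nat_lit 101) (nat_lit 97) (@Lb.r r2452 (@Lb.r r89 (@Lb.r r2659 (@Lb.g g6 (@Lb.g g4 (@Lb.d (nat_lit 5) (nat_lit 4) (nat_lit 34) (@Lb.r r387 (@Lb.fp (nat_lit 3) t4400)))))))))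
noncomputable def l22237 : Lb := (@Lb.d (nat_lit 2) (nat_lit 2) (nat_lit 66) (@Lb.g g8 (@Lb.g g9 (@Lb.g g10 (@Lb.g g7 (@Lb.r r145 (@Lb.r r356 (@Lb.r r154 (@Lb.r r132 (@Lb.d (nat_lit 9) (nat_lit 97) (nat_lit 82) (@Lb.fp (nat_lit 9) t4401)))))))))))
noncomputable def l22238 : Lb := (@Lb.d (nat_lit 136) (nat_lit 514) (nat_lit 128) (@Lb.g g9 (@Lb.g g11 (@Lb.r r260 (@Lb.r r603 (@Lb.r r1425 (@Lb.d (nat_lit 528) (nat_lit 25) (nat_lit 404) (@Lb.fp (nat_lit 3) t4402))))))))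
noncomputable def l22239 : Lb := (@Lb.r r82 (@Lb.d (nat_lit 2) (nat_lit 258) (nat_lit 128) (@Lb.g g8 (@Lb.g g9 (@Lb.g g11 (@Lb.r r299 (@Lb.r r296 (@Lb.r r89 (@Lb.r r98 (@Lb.d (nat_lit 550) (nat_lit 8) (nat_lit 32) (@Lb.t (@Lb.fp (nat_lit 9) t4403))))))))))))
noncomputable def l22240 : Lb := (@Lb.d (nat_lit 22) (nat_lit 613) (nat_lit 530) (@Lb.r r2452 (@Lb.r r89 (@Lb.r r2659 (@Lb.r r2370 (@Lb.g g7 (@Lb.g g6 (@Lb.g g4 (@Lb.d (nat_lit 5) (nat_lit 0) (nat_lit 65) (@Lb.t (@Lb.fm (nat_lit 9) t4404)))))))))))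
noncomputable def l22241 : Lb := (@Lb.d (nat_lit 33) (nat_lit 2) (nat_lit 130) (@Lb.g g8 (@Lb.g g9 (@Lb.g g10 (@Lb.g g11 (@Lb.r r1707 (@Lb.r r657 (@Lb.r r356 (@Lb.r r1690 (@Lb.r r1156 (@Lb.d (nat_lit 73) (nat_lit 34) (nat_lit 289) (@Lb.fp (nat_lit 9) t1295))))))))))))
noncomputable def l22242 : Lb := (@Lb.r r21 (@Lb.d (nat_lit 128) (nat_lit 0) (nat_lit 130) (@Lb.g g8 (@Lb.g g10 (@Lb.g g11 (@Lb.r r1691 (@Lb.r r1689 (@Lb.r r1370 (@Lb.r r1348 (@Lb.d (nat_lit 393) (nat_lit 25) (nat_lit 586) (@Lb.t (@Lb.fp (nat_lit 9) t74))))))))))))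
noncomputable def l22243 : Lb := (@Lb.r r21 (@Lb.d (nat_lit 128) (nat_lit 512) (nat_lit 4) (@Lb.g g8 (@Lb.g g10 (@Lb.g g11 (@Lb.r r1691 (@Lb.r r1689 (@Lb.r r1370 (@Lb.r r1348 (@Lb.d (nat_lit 393) (nat_lit 25) (nat_lit 586) (@Lb.t (@Lb.fp (nat_lit 9) t74))))))))))))
noncomputable def l22244 : Lb := (@Lb.r r21 (@Lb.d (nat_lit 137) (nat_lit 520) (nat_lit 130) (@Lb.g g8 (@Lb.g g10 (@Lb.g g11 (@Lb.r r1689 (@Lb.r r2455 (@Lb.r r2632 (@Lb.r r2662 (@Lb.d (nat_lit 410) (nat_lit 37) (nat_lit 613) (@Lb.t (@Lb.fp (nat_lit 9) t4405))))))))))))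
noncomputable def l22245 : Lb := (@Lb.r r82 (@Lb.r r275 (@Lb.d (nat_lit 2) (nat_lit 137) (nat_lit 0) (@Lb.g g8 (@Lb.g g5 (@Lb.r r2315 (@Lb.r r98 (@Lb.r r24 (@Lb.d (nat_lit 266) (nat_lit 69) (nat_lit 64) (@Lb.fm (nat_lit 3) t4406))))))))))
noncomputable def l22246 : Lb := (@Lb.d (nat_lit 0) (nat_lit 66) (nat_lit 2) (@Lb.g g4 (@Lb.g g9 (@Lb.g g10 (@Lb.g g11 (@Lb.r r419 (@Lb.r r98 (@Lb.d (nat_lit 0) (nat_lit 9) (nat_lit 137) (@Lb.fm (nat_lit 9) t51)))))))))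
noncomputable def l22247 : Lb := (@Lb.d (nat_lit 137) (nat_lit 512) (nat_lit 130) (@Lb.g g8 (@Lb.g g10 (@Lb.g g11 (@Lb.r r594 (@Lb.r r1125 (@Lb.r r2388 (@Lb.r r2635 (@Lb.d (nat_lit 353) (nat_lit 133) (nat_lit 416) (@Lb.t (@Lb.fm (nat_lit 9) t69)))))))))))
noncomputable def l22248 : Lb := (@Lb.d (nat_lit 32) (nat_lit 0) (nat_lit 2) (@Lb.g g6 (@Lb.r r648 (@Lb.r r683 (@Lb.r r2713 (@Lb.r r2650 (@Lb.d (nat_lit 409) (nat_lit 40) (nat_lit 69) (@Lb.t (@Lb.fm (nat_lit 3) t210)))))))))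
noncomputable def l22249 : Lb := (@Lb.r r81 (@Lb.r r331 (@Lb.d (nat_lit 16) (nat_lit 512) (nat_lit 8) (@Lb.g g8 (@Lb.g g10 (@Lb.r r2643 (@Lb.r r2405 (@Lb.r r1688 (@Lb.d (nat_lit 280) (nat_lit 138) (nat_lit 69) (@Lb.fp (nat_lit 3) t4407))))))))))
noncomputable def l22250 : Lb := (@Lb.d (nat_lit 394) (nat_lit 104) (nat_lit 329) (@Lb.r r657 (@Lb.r r2198 (@Lb.r r1368 (@Lb.r r2727 (@Lb.g g7 (@Lb.g g6 (@Lb.g g5 (@Lb.d (nat_lit 4) (nat_lit 5) (nat_lit 64) (@Lb.t (@Lb.fm (nat_lit 9) t4408)))))))))))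
noncomputable def l22251 : Lb := (@Lb.d (nat_lit 394) (nat_lit 616) (nat_lit 329) (@Lb.r r657 (@Lb.r r2198 (@Lb.r r1368 (@Lb.r r2727 (@Lb.g g7 (@Lb.g g6 (@Lb.g g5 (@Lb.d (nat_lit 4) (nat_lit 5) (nat_lit 133) (@Lb.t (@Lb.fm (nat_lit 9) t4408)))))))))))
noncomputable def l22252 : Lb := (@Lb.r r322 (@Lb.d (nat_lit 4) (nat_lit 513) (nat_lit 512) (@Lb.g g5 (@Lb.g g7 (@Lb.r r1638 (@Lb.r r24 (@Lb.d (nat_lit 577) (nat_lit 1) (nat_lit 0) (@Lb.fp (nat_lit 3) t282))))))))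
noncomputable def l22253 : Lb := (@Lb.d (nat_lit 0) (nat_lit 10) (nat_lit 137) (@Lb.r r2690 (@Lb.r r1667 (@Lb.g g10 (@Lb.t (@Lb.fp (nat_lit 3) t373))))))
noncomputable def l22254 : Lb := (@Lb.d (nat_lit 36) (nat_lit 2) (nat_lit 128) (@Lb.g g8 (@Lb.g g9 (@Lb.g g11 (@Lb.r r2454 (@Lb.r r2667 (@Lb.r r1121 (@Lb.r r1560 (@Lb.d (nat_lit 66) (nat_lit 42) (nat_lit 518) (@Lb.t (@Lb.fm (nat_lit 9) t564)))))))))))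
noncomputable def l22255 : Lb := (@Lb.d (nat_lit 129) (nat_lit 2) (nat_lit 256) (@Lb.r r24 (@Lb.r r1319 (@Lb.g g9 (@Lb.d (nat_lit 8) (nat_lit 2) (nat_lit 0) (@Lb.t (@Lb.fm (nat_lit 3) t650)))))))
noncomputable def l22256 : Lb := (@Lb.d (nat_lit 10) (nat_lit 10) (nat_lit 128) (@Lb.g g8 (@Lb.g g9 (@Lb.g g11 (@Lb.r r1643 (@Lb.r r82 (@Lb.r r161 (@Lb.r r1608 (@Lb.d (nat_lit 97) (nat_lit 6) (nat_lit 537) (@Lb.t (@Lb.fp (nat_lit 9) t1165)))))))))))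
noncomputable def l22257 : Lb := (@Lb.d (nat_lit 517) (nat_lit 677) (nat_lit 512) (@Lb.r r1288 (@Lb.r r97 (@Lb.g g7 (@Lb.g g10 (@Lb.g g5 (@Lb.d (nat_lit 64) (nat_lit 1) (nat_lit 610) (@Lb.t (@Lb.fm (nat_lit 9) t1702)))))))))
noncomputable def l22258 : Lb := (@Lb.g g7 (@Lb.r r1299 (@Lb.d (nat_lit 0) (nat_lit 320) (nat_lit 0) (@Lb.t (@Lb.fm (nat_lit 3) t851)))))
noncomputable def l22259 : Lb := (@Lb.d (nat_lit 16) (nat_lit 33) (nat_lit 73) (@Lb.g g8 (@Lb.g g9 (@Lb.g g10 (@Lb.g g11 (@Lb.r r2643 (@Lb.r r674 (@Lb.r r612 (@Lb.r r597 (@Lb.r r36 (@Lb.d (nat_lit 129) (nat_lit 2) (nat_lit 290) (@Lb.fp (nat_lit 9) t2094))))))))))))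
noncomputable def l22260 : Lb := (@Lb.r r327 (@Lb.d (nat_lit 128) (nat_lit 530) (nat_lit 0) (@Lb.g g8 (@Lb.g g9 (@Lb.g g10 (@Lb.r r595 (@Lb.r r358 (@Lb.r r164 (@Lb.r r533 (@Lb.d (nat_lit 134) (nat_lit 21) (nat_lit 74) (@Lb.t (@Lb.fp (nat_lit 9) t1074))))))))))))
noncomputable def l22261 : Lb := (@Lb.d (nat_lit 2) (nat_lit 514) (nat_lit 66) (@Lb.g g8 (@Lb.g g9 (@Lb.g g10 (@Lb.g g11 (@Lb.r r648 (@Lb.r r1563 (@Lb.r r2146 (@Lb.r r277 (@Lb.r r548 (@Lb.d (nat_lit 289) (nat_lit 129) (nat_lit 152) (@Lb.fp (nat_lit 9) t873))))))))))))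
noncomputable def l22262 : Lb := (@Lb.d (nat_lit 2) (nat_lit 258) (nat_lit 66) (@Lb.g g8 (@Lb.g g9 (@Lb.g g10 (@Lb.g g11 (@Lb.r r648 (@Lb.r r1563 (@Lb.r r2146 (@Lb.r r277 (@Lb.r r548 (@Lb.d (nat_lit 289) (nat_lit 129) (nat_lit 17) (@Lb.fp (nat_lit 9) t873))))))))))))
noncomputable def l22263 : Lb := (@Lb.d (nat_lit 346) (nat_lit 338) (nat_lit 133) (@Lb.r r2129 (@Lb.r r2406 (@Lb.r r81 (@Lb.r r2691 (@Lb.g g7 (@Lb.g g6 (@Lb.g g5 (@Lb.g g8 (@Lb.d (nat_lit 1) (nat_lit 1) (nat_lit 65) (@Lb.fp (nat_lit 9) t1456)))))))))))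
noncomputable def l22264 : Lb := (@Lb.d (nat_lit 8) (nat_lit 274) (nat_lit 424) (@Lb.r r293 (@Lb.r r1110 (@Lb.r r339 (@Lb.g g7 (@Lb.g g6 (@Lb.g g5 (@Lb.g g4 (@Lb.d (nat_lit 1) (nat_lit 24) (nat_lit 128) (@Lb.fm (nat_lit 9) t3217))))))))))
noncomputable def l22265 : Lb := (@Lb.d (nat_lit 0) (nat_lit 258) (nat_lit 130) (@Lb.g g9 (@Lb.g g10 (@Lb.g g11 (@Lb.r r1443 (@Lb.r r401 (@Lb.r r82 (@Lb.r r1169 (@Lb.r r8 (@Lb.d (nat_lit 612) (nat_lit 137) (nat_lit 153) (@Lb.t (@Lb.fp (nat_lit 9) t632))))))))))))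
noncomputable def l22266 : Lb := (@Lb.r r82 (@Lb.d (nat_lit 4) (nat_lit 0) (nat_lit 136) (@Lb.g g8 (@Lb.g g9 (@Lb.g g11 (@Lb.r r2665 (@Lb.r r2198 (@Lb.r r1380 (@Lb.r r395 (@Lb.d (nat_lit 385) (nat_lit 162) (nat_lit 361) (@Lb.t (@Lb.fm (nat_lit 9) t2095))))))))))))
noncomputable def l22267 : Lb := (@Lb.d (nat_lit 42) (nat_lit 584) (nat_lit 2) (@Lb.r r101 (@Lb.r r24 (@Lb.r r402 (@Lb.r r323 (@Lb.g g7 (@Lb.g g6 (@Lb.g g5 (@Lb.d (nat_lit 4) (nat_lit 1) (nat_lit 64) (@Lb.t (@Lb.fm (nat_lit 9) t2394)))))))))))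
noncomputable def l22268 : Lb := (@Lb.d (nat_lit 0) (nat_lit 258) (nat_lit 538) (@Lb.r r1603 (@Lb.r r402 (@Lb.g g9 (@Lb.g g4 (@Lb.d (nat_lit 1) (nat_lit 90) (nat_lit 0) (@Lb.r r291 (@Lb.r r98 (@Lb.fp (nat_lit 3) t2307)))))))))
noncomputable def l22269 : Lb := (@Lb.d (nat_lit 0) (nat_lit 10) (nat_lit 128) (@Lb.g g9 (@Lb.g g11 (@Lb.r r406 (@Lb.r r2659 (@Lb.r r2661 (@Lb.d (nat_lit 646) (nat_lit 25) (nat_lit 258) (@Lb.fp (nat_lit 3) t4409))))))))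
noncomputable def l22270 : Lb := (@Lb.d (nat_lit 2) (nat_lit 514) (nat_lit 130) (@Lb.g g8 (@Lb.g g9 (@Lb.g g10 (@Lb.g g11 (@Lb.r r1699 (@Lb.r r164 (@Lb.r r614 (@Lb.r r2149 (@Lb.r r1156 (@Lb.d (nat_lit 522) (nat_lit 97) (nat_lit 10) (@Lb.fp (nat_lit 9) t445))))))))))))
noncomputable def l22271 : Lb := (@Lb.d (nat_lit 2) (nat_lit 258) (nat_lit 73) (@Lb.g g8 (@Lb.g g9 (@Lb.g g10 (@Lb.g g11 (@Lb.r r427 (@Lb.r r677 (@Lb.r r340 (@Lb.r r170 (@Lb.d (nat_lit 22) (nat_lit 8) (nat_lit 2) (@Lb.fp (nat_lit 9) t61)))))))))))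
noncomputable def l22272 : Lb := (@Lb.d (nat_lit 6) (nat_lit 390) (nat_lit 582) (@Lb.r r1313 (@Lb.r r2327 (@Lb.r r584 (@Lb.r r326 (@Lb.g g7 (@Lb.g g6 (@Lb.g g5 (@Lb.d (nat_lit 4) (nat_lit 2) (nat_lit 65) (@Lb.t (@Lb.fp (nat_lit 9) t125)))))))))))
noncomputable def l22273 : Lb := (@Lb.r r82 (@Lb.d (nat_lit 2) (nat_lit 514) (nat_lit 128) (@Lb.g g8 (@Lb.g g9 (@Lb.g g11 (@Lb.r r1571 (@Lb.r r1192 (@Lb.r r1642 (@Lb.r r1633 (@Lb.d (nat_lit 613) (nat_lit 145) (nat_lit 357) (@Lb.t (@Lb.fp (nat_lit 9) t509))))))))))))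
noncomputable def l22274 : Lb := (@Lb.d (nat_lit 0) (nat_lit 0) (nat_lit 130) (@Lb.g g4 (@Lb.g g10 (@Lb.g g11 (@Lb.r r419 (@Lb.r r386 (@Lb.d (nat_lit 6) (nat_lit 41) (nat_lit 2) (@Lb.t (@Lb.fm (nat_lit 9) t369)))))))))
noncomputable def l22275 : Lb := (@Lb.r r275 (@Lb.d (nat_lit 129) (nat_lit 256) (nat_lit 2) (@Lb.g g8 (@Lb.g g9 (@Lb.g g10 (@Lb.r r362 (@Lb.r r391 (@Lb.r r401 (@Lb.r r516 (@Lb.d (nat_lit 130) (nat_lit 21) (nat_lit 89) (@Lb.t (@Lb.fm (nat_lit 9) t390))))))))))))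
noncomputable def l22276 : Lb := (@Lb.r r81 (@Lb.r r323 (@Lb.d (nat_lit 1) (nat_lit 264) (nat_lit 18) (@Lb.g g8 (@Lb.g g6 (@Lb.r r2331 (@Lb.r r37 (@Lb.d (nat_lit 550) (nat_lit 133) (nat_lit 33) (@Lb.fm (nat_lit 3) t3693)))))))))
noncomputable def l22277 : Lb := (@Lb.d (nat_lit 1) (nat_lit 522) (nat_lit 161) (@Lb.g g8 (@Lb.g g9 (@Lb.g g6 (@Lb.g g11 (@Lb.r r1643 (@Lb.r r1633 (@Lb.r r24 (@Lb.d (nat_lit 258) (nat_lit 154) (nat_lit 280) (@Lb.fp (nat_lit 9) t1923))))))))))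
noncomputable def l22278 : Lb := (@Lb.d (nat_lit 2) (nat_lit 258) (nat_lit 130) (@Lb.g g8 (@Lb.g g9 (@Lb.g g10 (@Lb.g g11 (@Lb.r r427 (@Lb.r r386 (@Lb.r r97 (@Lb.r r24 (@Lb.d (nat_lit 265) (nat_lit 9) (nat_lit 642) (@Lb.fm (nat_lit 9) t756)))))))))))
noncomputable def l22279 : Lb := (@Lb.g g6 (@Lb.d (nat_lit 10) (nat_lit 133) (nat_lit 1) (@Lb.t (@Lb.fm (nat_lit 3) t45))))
noncomputable def l22280 : Lb := (@Lb.d (nat_lit 9) (nat_lit 289) (nat_lit 66) (@Lb.g g8 (@Lb.g g9 (@Lb.g g10 (@Lb.g g11 (@Lb.r r682 (@Lb.r r676 (@Lb.r r551 (@Lb.r r533 (@Lb.d (nat_lit 134) (nat_lit 32) (nat_lit 74) (@Lb.fp (nat_lit 9) t264)))))))))))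
noncomputable def l22281 : Lb := (@Lb.r r1106 (@Lb.d (nat_lit 1) (nat_lit 289) (nat_lit 584) (@Lb.g g4 (@Lb.g g9 (@Lb.g g11 (@Lb.r r1617 (@Lb.d (nat_lit 1) (nat_lit 38) (nat_lit 356) (@Lb.t (@Lb.fp (nat_lit 9) t267)))))))))
noncomputable def l22282 : Lb := (@Lb.r r323 (@Lb.d (nat_lit 5) (nat_lit 0) (nat_lit 32) (@Lb.g g4 (@Lb.g g6 (@Lb.r r387 (@Lb.d (nat_lit 0) (nat_lit 6) (nat_lit 17) (@Lb.fm (nat_lit 3) t45)))))))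
noncomputable def l22283 : Lb := (@Lb.r r322 (@Lb.d (nat_lit 8) (nat_lit 2) (nat_lit 512) (@Lb.g g5 (@Lb.g g7 (@Lb.r r676 (@Lb.r r342 (@Lb.r r673 (@Lb.d (nat_lit 1) (nat_lit 137) (nat_lit 649) (@Lb.fp (nat_lit 3) t668)))))))))
noncomputable def l22284 : Lb := (@Lb.d (nat_lit 0) (nat_lit 512) (nat_lit 130) (@Lb.g g9 (@Lb.g g10 (@Lb.g g11 (@Lb.r r1681 (@Lb.r r146 (@Lb.d (nat_lit 0) (nat_lit 72) (nat_lit 289) (@Lb.t (@Lb.fp (nat_lit 9) t452)))))))))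
noncomputable def l22285 : Lb := (@Lb.d (nat_lit 0) (nat_lit 520) (nat_lit 128) (@Lb.g g9 (@Lb.g g11 (@Lb.r r2450 (@Lb.r r593 (@Lb.d (nat_lit 0) (nat_lit 33) (nat_lit 546) (@Lb.fp (nat_lit 3) t1814)))))))
noncomputable def l22286 : Lb := (@Lb.d (nat_lit 0) (nat_lit 512) (nat_lit 130) (@Lb.g g9 (@Lb.g g10 (@Lb.g g11 (@Lb.r r1122 (@Lb.r r529 (@Lb.r r2451 (@Lb.r r1553 (@Lb.d (nat_lit 0) (nat_lit 0) (nat_lit 672) (@Lb.t (@Lb.fm (nat_lit 9) t590)))))))))))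
noncomputable def l22287 : Lb := (@Lb.r r322 (@Lb.d (nat_lit 0) (nat_lit 0) (nat_lit 136) (@Lb.g g9 (@Lb.g g11 (@Lb.r r1617 (@Lb.r r98 (@Lb.d (nat_lit 0) (nat_lit 42) (nat_lit 678) (@Lb.fm (nat_lit 3) t590))))))))
noncomputable def l22288 : Lb := (@Lb.d (nat_lit 4) (nat_lit 512) (nat_lit 130) (@Lb.g g8 (@Lb.g g9 (@Lb.g g10 (@Lb.g g11 (@Lb.r r1691 (@Lb.r r1193 (@Lb.r r1450 (@Lb.r r1416 (@Lb.d (nat_lit 280) (nat_lit 2) (nat_lit 154) (@Lb.fp (nat_lit 9) t61)))))))))))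
noncomputable def l22289 : Lb := (@Lb.r r1106 (@Lb.d (nat_lit 0) (nat_lit 33) (nat_lit 584) (@Lb.g g4 (@Lb.g g9 (@Lb.g g11 (@Lb.r r1617 (@Lb.d (nat_lit 0) (nat_lit 38) (nat_lit 356) (@Lb.t (@Lb.fp (nat_lit 9) t267)))))))))
noncomputable def l22290 : Lb := (@Lb.r r82 (@Lb.d (nat_lit 34) (nat_lit 2) (nat_lit 136) (@Lb.g g8 (@Lb.g g9 (@Lb.g g11 (@Lb.r r2666 (@Lb.r r2725 (@Lb.r r340 (@Lb.r r411 (@Lb.d (nat_lit 512) (nat_lit 130) (nat_lit 602) (@Lb.t (@Lb.fp (nat_lit 9) t545))))))))))))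
noncomputable def l22291 : Lb := (@Lb.d (nat_lit 2) (nat_lit 22) (nat_lit 4) (@Lb.g g8 (@Lb.g g9 (@Lb.g g10 (@Lb.g g11 (@Lb.r r423 (@Lb.r r1681 (@Lb.r r1432 (@Lb.r r1114 (@Lb.d (nat_lit 665) (nat_lit 137) (nat_lit 80) (@Lb.fm (nat_lit 9) t273)))))))))))
noncomputable def l22292 : Lb := (@Lb.d (nat_lit 614) (nat_lit 641) (nat_lit 357) (@Lb.r r2436 (@Lb.r r2453 (@Lb.r r1707 (@Lb.g g7 (@Lb.g g10 (@Lb.g g5 (@Lb.g g4 (@Lb.d (nat_lit 16) (nat_lit 6) (nat_lit 64) (@Lb.fp (nat_lit 9) t2668))))))))))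
noncomputable def l22293 : Lb := (@Lb.r r82 (@Lb.d (nat_lit 8) (nat_lit 546) (nat_lit 64) (@Lb.g g9 (@Lb.g g11 (@Lb.r r551 (@Lb.r r386 (@Lb.r r88 (@Lb.r r85 (@Lb.d (nat_lit 164) (nat_lit 8) (nat_lit 9) (@Lb.fp (nat_lit 3) t98))))))))))
noncomputable def l22294 : Lb := (@Lb.d (nat_lit 2) (nat_lit 258) (nat_lit 74) (@Lb.g g8 (@Lb.g g9 (@Lb.g g10 (@Lb.g g11 (@Lb.r r643 (@Lb.r r297 (@Lb.r r360 (@Lb.r r582 (@Lb.r r132 (@Lb.d (nat_lit 128) (nat_lit 10) (nat_lit 4) (@Lb.fm (nat_lit 9) t242))))))))))))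
noncomputable def l22295 : Lb := (@Lb.d (nat_lit 0) (nat_lit 2) (nat_lit 128) (@Lb.g g9 (@Lb.g g10 (@Lb.g g11 (@Lb.r r2467 (@Lb.r r2469 (@Lb.r r2150 (@Lb.r r24 (@Lb.d (nat_lit 98) (nat_lit 0) (nat_lit 420) (@Lb.t (@Lb.fm (nat_lit 9) t288)))))))))))
noncomputable def l22296 : Lb := (@Lb.r r82 (@Lb.d (nat_lit 0) (nat_lit 256) (nat_lit 128) (@Lb.g g9 (@Lb.g g11 (@Lb.r r2467 (@Lb.r r386 (@Lb.r r2149 (@Lb.r r24 (@Lb.d (nat_lit 2) (nat_lit 0) (nat_lit 69) (@Lb.fp (nat_lit 3) t998))))))))))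
noncomputable def l22297 : Lb := (@Lb.d (nat_lit 33) (nat_lit 545) (nat_lit 65) (@Lb.g g8 (@Lb.g g9 (@Lb.g g10 (@Lb.g g11 (@Lb.r r1706 (@Lb.r r676 (@Lb.r r1575 (@Lb.r r2577 (@Lb.d (nat_lit 581) (nat_lit 96) (nat_lit 602) (@Lb.fp (nat_lit 9) t4410)))))))))))
noncomputable def l22298 : Lb := (@Lb.d (nat_lit 40) (nat_lit 32) (nat_lit 65) (@Lb.g g8 (@Lb.g g9 (@Lb.g g10 (@Lb.g g11 (@Lb.r r2595 (@Lb.r r2442 (@Lb.r r1177 (@Lb.r r1412 (@Lb.d (nat_lit 545) (nat_lit 160) (nat_lit 106) (@Lb.fp (nat_lit 9) t767)))))))))))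
noncomputable def l22299 : Lb := (@Lb.d (nat_lit 134) (nat_lit 258) (nat_lit 170) (@Lb.r r584 (@Lb.r r82 (@Lb.r r347 (@Lb.g g9 (@Lb.g g4 (@Lb.d (nat_lit 65) (nat_lit 146) (nat_lit 0) (@Lb.r r98 (@Lb.fm (nat_lit 3) t2858)))))))))
noncomputable def l22300 : Lb := (@Lb.r r21 (@Lb.d (nat_lit 32) (nat_lit 256) (nat_lit 130) (@Lb.g g8 (@Lb.g g10 (@Lb.g g11 (@Lb.r r161 (@Lb.r r2658 (@Lb.r r2407 (@Lb.r r1684 (@Lb.d (nat_lit 642) (nat_lit 33) (nat_lit 646) (@Lb.t (@Lb.fp (nat_lit 9) t3841))))))))))))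
noncomputable def l22301 : Lb := (@Lb.d (nat_lit 2) (nat_lit 9) (nat_lit 6) (@Lb.g g8 (@Lb.g g9 (@Lb.g g10 (@Lb.g g11 (@Lb.r r2459 (@Lb.r r297 (@Lb.r r1384 (@Lb.r r2630 (@Lb.d (nat_lit 656) (nat_lit 137) (nat_lit 358) (@Lb.fp (nat_lit 9) t1114)))))))))))
noncomputable def l22302 : Lb := (@Lb.d (nat_lit 2) (nat_lit 521) (nat_lit 6) (@Lb.g g8 (@Lb.g g9 (@Lb.g g10 (@Lb.g g11 (@Lb.r r2459 (@Lb.r r297 (@Lb.r r1384 (@Lb.r r2630 (@Lb.d (nat_lit 656) (nat_lit 130) (nat_lit 356) (@Lb.fp (nat_lit 9) t1114)))))))))))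
noncomputable def l22303 : Lb := (@Lb.d (nat_lit 128) (nat_lit 258) (nat_lit 73) (@Lb.g g8 (@Lb.g g9 (@Lb.g g10 (@Lb.g g11 (@Lb.r r419 (@Lb.r r1702 (@Lb.r r344 (@Lb.r r1429 (@Lb.r r1060 (@Lb.d (nat_lit 616) (nat_lit 166) (nat_lit 401) (@Lb.fp (nat_lit 9) t163))))))))))))
noncomputable def l22304 : Lb := (@Lb.r r21 (@Lb.d (nat_lit 129) (nat_lit 512) (nat_lit 130) (@Lb.g g8 (@Lb.g g10 (@Lb.g g11 (@Lb.r r419 (@Lb.r r1172 (@Lb.r r2438 (@Lb.r r97 (@Lb.d (nat_lit 354) (nat_lit 34) (nat_lit 128) (@Lb.t (@Lb.fm (nat_lit 9) t2470))))))))))))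
noncomputable def l22305 : Lb := (@Lb.r r323 (@Lb.d (nat_lit 164) (nat_lit 290) (nat_lit 2) (@Lb.g g8 (@Lb.g g9 (@Lb.g g10 (@Lb.r r1559 (@Lb.r r1348 (@Lb.r r1450 (@Lb.r r1433 (@Lb.d (nat_lit 21) (nat_lit 129) (nat_lit 682) (@Lb.t (@Lb.fm (nat_lit 9) t2859))))))))))))
noncomputable def l22306 : Lb := (@Lb.r r21 (@Lb.r r70 (@Lb.r r2311 (@Lb.d (nat_lit 145) (nat_lit 256) (nat_lit 0) (@Lb.g g4 (@Lb.r r2454 (@Lb.r r97 (@Lb.d (nat_lit 609) (nat_lit 130) (nat_lit 282) (@Lb.t (@Lb.fm (nat_lit 3) t4411))))))))))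
noncomputable def l22307 : Lb := (@Lb.d (nat_lit 0) (nat_lit 521) (nat_lit 134) (@Lb.g g8 (@Lb.g g9 (@Lb.g g10 (@Lb.g g7 (@Lb.r r682 (@Lb.r r2457 (@Lb.r r2436 (@Lb.d (nat_lit 617) (nat_lit 161) (nat_lit 610) (@Lb.fp (nat_lit 9) t3359))))))))))
noncomputable def l22308 : Lb := (@Lb.g g11 (@Lb.r r273 (@Lb.r r551 (@Lb.r r340 (@Lb.r r170 (@Lb.r r153 (@Lb.d (nat_lit 2) (nat_lit 88) (nat_lit 354) (@Lb.t (@Lb.fp (nat_lit 3) t654)))))))))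
noncomputable def l22309 : Lb := (@Lb.d (nat_lit 661) (nat_lit 642) (nat_lit 130) (@Lb.r r603 (@Lb.r r676 (@Lb.r r150 (@Lb.g g5 (@Lb.g g4 (@Lb.d (nat_lit 17) (nat_lit 65) (nat_lit 0) (@Lb.r r291 (@Lb.r r98 (@Lb.fm (nat_lit 3) t4412))))))))))
noncomputable def l22310 : Lb := (@Lb.d (nat_lit 9) (nat_lit 1) (nat_lit 0) (@Lb.g g8 (@Lb.g g9 (@Lb.g g11 (@Lb.r r548 (@Lb.r r2727 (@Lb.r r2178 (@Lb.r r1621 (@Lb.r r1060 (@Lb.d (nat_lit 160) (nat_lit 0) (nat_lit 325) (@Lb.t (@Lb.fm (nat_lit 9) t64))))))))))))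
noncomputable def l22311 : Lb := (@Lb.d (nat_lit 33) (nat_lit 256) (nat_lit 33) (@Lb.r r24 (@Lb.r r2150 (@Lb.r r101 (@Lb.g g11 (@Lb.g g6 (@Lb.d (nat_lit 0) (nat_lit 4) (nat_lit 1) (@Lb.fp (nat_lit 3) t980))))))))
noncomputable def l22312 : Lb := (@Lb.d (nat_lit 0) (nat_lit 513) (nat_lit 137) (@Lb.r r24 (@Lb.g g11 (@Lb.g g5 (@Lb.d (nat_lit 4) (nat_lit 1) (nat_lit 136) (@Lb.fm (nat_lit 3) t2))))))
noncomputable def l22313 : Lb := (@Lb.d (nat_lit 129) (nat_lit 514) (nat_lit 130) (@Lb.g g8 (@Lb.g g9 (@Lb.g g10 (@Lb.g g11 (@Lb.r r419 (@Lb.r r344 (@Lb.r r1429 (@Lb.r r1110 (@Lb.r r2212 (@Lb.d (nat_lit 277) (nat_lit 106) (nat_lit 656) (@Lb.fm (nat_lit 9) t1613))))))))))))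
noncomputable def l22314 : Lb := (@Lb.d (nat_lit 33) (nat_lit 512) (nat_lit 33) (@Lb.r r24 (@Lb.r r2150 (@Lb.r r101 (@Lb.g g11 (@Lb.g g6 (@Lb.d (nat_lit 0) (nat_lit 4) (nat_lit 136) (@Lb.fp (nat_lit 3) t4413))))))))
noncomputable def l22315 : Lb := (@Lb.r r2331 (@Lb.r r24 (@Lb.d (nat_lit 266) (nat_lit 512) (nat_lit 64) (@Lb.fm (nat_lit 1) t1165))))
noncomputable def l22316 : Lb := (@Lb.d (nat_lit 0) (nat_lit 512) (nat_lit 138) (@Lb.g g5 (@Lb.g g10 (@Lb.g g7 (@Lb.r r402 (@Lb.r r24 (@Lb.d (nat_lit 610) (nat_lit 152) (nat_lit 537) (@Lb.t (@Lb.fm (nat_lit 9) t1994)))))))))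
noncomputable def l22317 : Lb := (@Lb.d (nat_lit 26) (nat_lit 257) (nat_lit 128) (@Lb.g g8 (@Lb.g g9 (@Lb.g g10 (@Lb.g g11 (@Lb.r r363 (@Lb.r r1410 (@Lb.r r2152 (@Lb.r r25 (@Lb.d (nat_lit 278) (nat_lit 72) (nat_lit 425) (@Lb.fp (nat_lit 9) t830)))))))))))
noncomputable def l22318 : Lb := (@Lb.d (nat_lit 8) (nat_lit 545) (nat_lit 0) (@Lb.g g9 (@Lb.g g10 (@Lb.r r2587 (@Lb.r r1706 (@Lb.r r2580 (@Lb.r r105 (@Lb.d (nat_lit 544) (nat_lit 21) (nat_lit 257) (@Lb.fp (nat_lit 3) t71)))))))))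
noncomputable def l22319 : Lb := (@Lb.g g5 (@Lb.r r1126 (@Lb.r r24 (@Lb.d (nat_lit 586) (nat_lit 261) (nat_lit 513) (@Lb.t (@Lb.fp (nat_lit 3) t3316))))))
noncomputable def l22320 : Lb := (@Lb.r r70 (@Lb.d (nat_lit 161) (nat_lit 389) (nat_lit 64) (@Lb.g g8 (@Lb.g g5 (@Lb.g g11 (@Lb.r r1563 (@Lb.r r2438 (@Lb.r r2648 (@Lb.d (nat_lit 640) (nat_lit 170) (nat_lit 153) (@Lb.t (@Lb.fm (nat_lit 9) t175)))))))))))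
noncomputable def l22321 : Lb := (@Lb.d (nat_lit 146) (nat_lit 2) (nat_lit 64) (@Lb.g g8 (@Lb.g g9 (@Lb.g g10 (@Lb.g g11 (@Lb.r r683 (@Lb.r r1689 (@Lb.r r1178 (@Lb.r r132 (@Lb.d (nat_lit 34) (nat_lit 130) (nat_lit 649) (@Lb.fp (nat_lit 9) t594)))))))))))
noncomputable def l22322 : Lb := (@Lb.d (nat_lit 134) (nat_lit 70) (nat_lit 408) (@Lb.r r1416 (@Lb.r r2329 (@Lb.r r2378 (@Lb.r r551 (@Lb.g g8 (@Lb.t (@Lb.fp (nat_lit 3) t4414))))))))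
noncomputable def l22323 : Lb := (@Lb.d (nat_lit 609) (nat_lit 578) (nat_lit 612) (@Lb.r r2324 (@Lb.r r2601 (@Lb.r r555 (@Lb.r r644 (@Lb.g g7 (@Lb.g g10 (@Lb.g g5 (@Lb.g g4 (@Lb.d (nat_lit 2) (nat_lit 5) (nat_lit 146) (@Lb.fm (nat_lit 9) t1621)))))))))))
noncomputable def l22324 : Lb := (@Lb.r r20 (@Lb.d (nat_lit 0) (nat_lit 288) (nat_lit 73) (@Lb.g g9 (@Lb.g g10 (@Lb.g g11 (@Lb.r r679 (@Lb.r r358 (@Lb.r r1557 (@Lb.d (nat_lit 389) (nat_lit 137) (nat_lit 37) (@Lb.t (@Lb.fp (nat_lit 9) t1047)))))))))))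
noncomputable def l22325 : Lb := (@Lb.d (nat_lit 129) (nat_lit 69) (nat_lit 408) (@Lb.r r1416 (@Lb.r r2329 (@Lb.r r2378 (@Lb.r r551 (@Lb.g g5 (@Lb.g g8 (@Lb.fp (nat_lit 3) t4415))))))))
noncomputable def l22326 : Lb := (@Lb.d (nat_lit 641) (nat_lit 512) (nat_lit 32) (@Lb.r r1044 (@Lb.r r2473 (@Lb.r r2178 (@Lb.r r2711 (@Lb.r r292 (@Lb.g g11 (@Lb.g g9 (@Lb.g g4 (@Lb.t (@Lb.fm (nat_lit 9) t1740)))))))))))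
noncomputable def l22327 : Lb := (@Lb.d (nat_lit 1) (nat_lit 0) (nat_lit 128) (@Lb.g g8 (@Lb.g g9 (@Lb.g g11 (@Lb.r r664 (@Lb.r r2341 (@Lb.r r539 (@Lb.r r2178 (@Lb.r r516 (@Lb.d (nat_lit 544) (nat_lit 130) (nat_lit 18) (@Lb.t (@Lb.fm (nat_lit 9) t1282))))))))))))
noncomputable def l22328 : Lb := (@Lb.d (nat_lit 9) (nat_lit 552) (nat_lit 42) (@Lb.g g8 (@Lb.g g10 (@Lb.g g11 (@Lb.r r353 (@Lb.r r535 (@Lb.r r2436 (@Lb.d (nat_lit 84) (nat_lit 133) (nat_lit 650) (@Lb.t (@Lb.fm (nat_lit 9) t221))))))))))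
noncomputable def l22329 : Lb := (@Lb.r r322 (@Lb.d (nat_lit 2) (nat_lit 289) (nat_lit 516) (@Lb.g g8 (@Lb.g g9 (@Lb.g g7 (@Lb.r r418 (@Lb.r r2088 (@Lb.r r2201 (@Lb.d (nat_lit 597) (nat_lit 4) (nat_lit 657) (@Lb.t (@Lb.fp (nat_lit 9) t4416)))))))))))
noncomputable def l22330 : Lb := (@Lb.r r2315 (@Lb.d (nat_lit 32) (nat_lit 1) (nat_lit 0) (@Lb.g g8 (@Lb.g g9 (@Lb.r r662 (@Lb.r r2393 (@Lb.r r1364 (@Lb.d (nat_lit 85) (nat_lit 86) (nat_lit 342) (@Lb.fp (nat_lit 3) t1059)))))))))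
noncomputable def l22331 : Lb := (@Lb.d (nat_lit 97) (nat_lit 265) (nat_lit 533) (@Lb.r r24 (@Lb.r r2458 (@Lb.g g11 (@Lb.g g6 (@Lb.g g9 (@Lb.d (nat_lit 8) (nat_lit 2) (nat_lit 6) (@Lb.t (@Lb.fp (nat_lit 9) t4417)))))))))
noncomputable def l22332 : Lb := (@Lb.d (nat_lit 34) (nat_lit 1) (nat_lit 0) (@Lb.g g8 (@Lb.g g9 (@Lb.g g11 (@Lb.r r2153 (@Lb.r r150 (@Lb.r r596 (@Lb.r r2599 (@Lb.d (nat_lit 645) (nat_lit 152) (nat_lit 357) (@Lb.t (@Lb.fp (nat_lit 9) t430)))))))))))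
noncomputable def l22333 : Lb := (@Lb.d (nat_lit 516) (nat_lit 641) (nat_lit 129) (@Lb.r r358 (@Lb.r r676 (@Lb.r r1105 (@Lb.r r1623 (@Lb.g g6 (@Lb.g g5 (@Lb.g g4 (@Lb.d (nat_lit 0) (nat_lit 1) (nat_lit 5) (@Lb.t (@Lb.fm (nat_lit 9) t4418)))))))))))
noncomputable def l22334 : Lb := (@Lb.r r21 (@Lb.d (nat_lit 129) (nat_lit 32) (nat_lit 66) (@Lb.g g8 (@Lb.g g10 (@Lb.g g11 (@Lb.r r1162 (@Lb.r r1125 (@Lb.r r1432 (@Lb.r r1415 (@Lb.d (nat_lit 353) (nat_lit 9) (nat_lit 549) (@Lb.t (@Lb.fp (nat_lit 9) t4419))))))))))))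
noncomputable def l22335 : Lb := (@Lb.r r323 (@Lb.d (nat_lit 16) (nat_lit 264) (nat_lit 38) (@Lb.g g10 (@Lb.r r1419 (@Lb.r r2069 (@Lb.r r36 (@Lb.d (nat_lit 345) (nat_lit 42) (nat_lit 681) (@Lb.t (@Lb.fp (nat_lit 3) t4420)))))))))
noncomputable def l22336 : Lb := (@Lb.d (nat_lit 0) (nat_lit 521) (nat_lit 72) (@Lb.g g9 (@Lb.g g10 (@Lb.g g11 (@Lb.r r610 (@Lb.r r579 (@Lb.r r97 (@Lb.r r36 (@Lb.d (nat_lit 1) (nat_lit 160) (nat_lit 86) (@Lb.t (@Lb.fm (nat_lit 9) t4421)))))))))))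
noncomputable def l22337 : Lb := (@Lb.d (nat_lit 321) (nat_lit 597) (nat_lit 102) (@Lb.r r2648 (@Lb.r r2438 (@Lb.r r1563 (@Lb.g g7 (@Lb.g g9 (@Lb.g g4 (@Lb.d (nat_lit 82) (nat_lit 74) (nat_lit 128) (@Lb.r r74 (@Lb.t (@Lb.fp (nat_lit 9) t4422)))))))))))
noncomputable def l22338 : Lb := (@Lb.d (nat_lit 0) (nat_lit 33) (nat_lit 130) (@Lb.g g9 (@Lb.g g10 (@Lb.g g11 (@Lb.r r387 (@Lb.r r386 (@Lb.r r1561 (@Lb.r r24 (@Lb.d (nat_lit 680) (nat_lit 128) (nat_lit 673) (@Lb.t (@Lb.fm (nat_lit 9) t4423)))))))))))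
noncomputable def l22339 : Lb := (@Lb.g g5 (@Lb.r r24 (@Lb.r r101 (@Lb.r r402 (@Lb.d (nat_lit 6) (nat_lit 1) (nat_lit 66) (@Lb.t (@Lb.fp (nat_lit 3) t1831)))))))
noncomputable def l22340 : Lb := (@Lb.d (nat_lit 0) (nat_lit 520) (nat_lit 1) (@Lb.g g9 (@Lb.g g10 (@Lb.r r2216 (@Lb.r r2666 (@Lb.r r601 (@Lb.d (nat_lit 153) (nat_lit 101) (nat_lit 420) (@Lb.fp (nat_lit 3) t4424))))))))
noncomputable def l22341 : Lb := (@Lb.d (nat_lit 0) (nat_lit 9) (nat_lit 72) (@Lb.g g8 (@Lb.g g9 (@Lb.g g10 (@Lb.g g11 (@Lb.r r1559 (@Lb.r r1434 (@Lb.r r292 (@Lb.r r405 (@Lb.r r2084 (@Lb.d (nat_lit 617) (nat_lit 40) (nat_lit 345) (@Lb.fp (nat_lit 9) t501))))))))))))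
noncomputable def l22342 : Lb := (@Lb.r r21 (@Lb.d (nat_lit 2) (nat_lit 512) (nat_lit 130) (@Lb.g g8 (@Lb.g g10 (@Lb.g g11 (@Lb.r r2379 (@Lb.r r386 (@Lb.r r149 (@Lb.r r72 (@Lb.d (nat_lit 546) (nat_lit 0) (nat_lit 136) (@Lb.t (@Lb.fm (nat_lit 9) t61))))))))))))
noncomputable def l22343 : Lb := (@Lb.d (nat_lit 0) (nat_lit 514) (nat_lit 130) (@Lb.g g9 (@Lb.g g10 (@Lb.g g11 (@Lb.r r2407 (@Lb.r r386 (@Lb.r r148 (@Lb.r r25 (@Lb.d (nat_lit 512) (nat_lit 10) (nat_lit 136) (@Lb.t (@Lb.fp (nat_lit 9) t61)))))))))))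
noncomputable def l22344 : Lb := (@Lb.r r21 (@Lb.d (nat_lit 146) (nat_lit 0) (nat_lit 128) (@Lb.g g8 (@Lb.g g10 (@Lb.g g11 (@Lb.r r2714 (@Lb.r r1411 (@Lb.r r2196 (@Lb.r r25 (@Lb.d (nat_lit 98) (nat_lit 0) (nat_lit 650) (@Lb.t (@Lb.fp (nat_lit 9) t2998))))))))))))
noncomputable def l22345 : Lb := (@Lb.d (nat_lit 134) (nat_lit 4) (nat_lit 128) (@Lb.g g8 (@Lb.g g9 (@Lb.g g10 (@Lb.g g11 (@Lb.r r1707 (@Lb.r r362 (@Lb.r r1561 (@Lb.r r516 (@Lb.d (nat_lit 649) (nat_lit 153) (nat_lit 149) (@Lb.fm (nat_lit 9) t2857)))))))))))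
noncomputable def l22346 : Lb := (@Lb.r r21 (@Lb.d (nat_lit 145) (nat_lit 256) (nat_lit 128) (@Lb.g g8 (@Lb.g g10 (@Lb.g g11 (@Lb.r r1691 (@Lb.r r346 (@Lb.r r1556 (@Lb.r r25 (@Lb.d (nat_lit 96) (nat_lit 162) (nat_lit 661) (@Lb.t (@Lb.fp (nat_lit 9) t2188))))))))))))
noncomputable def l22347 : Lb := (@Lb.d (nat_lit 132) (nat_lit 260) (nat_lit 128) (@Lb.g g8 (@Lb.g g9 (@Lb.g g10 (@Lb.g g11 (@Lb.r r2730 (@Lb.r r1411 (@Lb.r r2201 (@Lb.r r1156 (@Lb.d (nat_lit 41) (nat_lit 153) (nat_lit 665) (@Lb.fm (nat_lit 9) t606)))))))))))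
noncomputable def l22348 : Lb := (@Lb.d (nat_lit 4) (nat_lit 6) (nat_lit 289) (@Lb.r r21 (@Lb.r r86 (@Lb.r r2651 (@Lb.g g6 (@Lb.g g5 (@Lb.g g4 (@Lb.d (nat_lit 321) (nat_lit 1) (nat_lit 1) (@Lb.t (@Lb.fm (nat_lit 9) t4425))))))))))
noncomputable def l22349 : Lb := (@Lb.g g4 (@Lb.g g9 (@Lb.r r1158 (@Lb.r r2136 (@Lb.r r405 (@Lb.r r1635 (@Lb.d (nat_lit 2) (nat_lit 522) (nat_lit 84) (@Lb.fm (nat_lit 3) t1592))))))))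
noncomputable def l22350 : Lb := (@Lb.r r21 (@Lb.d (nat_lit 145) (nat_lit 0) (nat_lit 74) (@Lb.g g8 (@Lb.g g10 (@Lb.g g11 (@Lb.r r651 (@Lb.r r2378 (@Lb.r r1572 (@Lb.r r37 (@Lb.d (nat_lit 5) (nat_lit 136) (nat_lit 5) (@Lb.t (@Lb.fm (nat_lit 9) t531))))))))))))
noncomputable def l22351 : Lb := (@Lb.d (nat_lit 1) (nat_lit 256) (nat_lit 136) (@Lb.g g8 (@Lb.g g9 (@Lb.g g11 (@Lb.r r1162 (@Lb.r r1188 (@Lb.r r405 (@Lb.r r1635 (@Lb.d (nat_lit 2) (nat_lit 0) (nat_lit 602) (@Lb.t (@Lb.fm (nat_lit 9) t1592)))))))))))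
noncomputable def l22352 : Lb := (@Lb.r r21 (@Lb.d (nat_lit 145) (nat_lit 256) (nat_lit 74) (@Lb.g g8 (@Lb.g g10 (@Lb.g g11 (@Lb.r r651 (@Lb.r r2378 (@Lb.r r1572 (@Lb.r r37 (@Lb.d (nat_lit 0) (nat_lit 138) (nat_lit 5) (@Lb.t (@Lb.fm (nat_lit 9) t531))))))))))))
noncomputable def l22353 : Lb := (@Lb.d (nat_lit 160) (nat_lit 258) (nat_lit 129) (@Lb.g g9 (@Lb.g g6 (@Lb.g g11 (@Lb.r r264 (@Lb.r r391 (@Lb.r r25 (@Lb.d (nat_lit 617) (nat_lit 38) (nat_lit 408) (@Lb.t (@Lb.fm (nat_lit 9) t2208))))))))))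
noncomputable def l22354 : Lb := (@Lb.d (nat_lit 38) (nat_lit 362) (nat_lit 665) (@Lb.r r1637 (@Lb.r r1319 (@Lb.r r2644 (@Lb.g g6 (@Lb.g g5 (@Lb.g g4 (@Lb.d (nat_lit 1) (nat_lit 16) (nat_lit 33) (@Lb.r r387 (@Lb.t (@Lb.fm (nat_lit 9) t3040)))))))))))
noncomputable def l22355 : Lb := (@Lb.g g7 (@Lb.r r609 (@Lb.r r619 (@Lb.r r584 (@Lb.r r1414 (@Lb.d (nat_lit 517) (nat_lit 257) (nat_lit 420) (@Lb.t (@Lb.fm (nat_lit 3) t2877))))))))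
noncomputable def l22356 : Lb := (@Lb.d (nat_lit 401) (nat_lit 38) (nat_lit 282) (@Lb.r r1604 (@Lb.r r1362 (@Lb.r r2201 (@Lb.g g7 (@Lb.g g6 (@Lb.g g4 (@Lb.d (nat_lit 5) (nat_lit 0) (nat_lit 134) (@Lb.t (@Lb.fp (nat_lit 9) t1561))))))))))
noncomputable def l22357 : Lb := (@Lb.d (nat_lit 5) (nat_lit 546) (nat_lit 0) (@Lb.g g4 (@Lb.g g9 (@Lb.r r1371 (@Lb.r r134 (@Lb.r r2661 (@Lb.d (nat_lit 281) (nat_lit 90) (nat_lit 394) (@Lb.fp (nat_lit 3) t61))))))))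
noncomputable def l22358 : Lb := (@Lb.d (nat_lit 5) (nat_lit 544) (nat_lit 2) (@Lb.g g4 (@Lb.g g9 (@Lb.g g10 (@Lb.r r1307 (@Lb.r r2122 (@Lb.r r2601 (@Lb.d (nat_lit 662) (nat_lit 82) (nat_lit 417) (@Lb.t (@Lb.fm (nat_lit 9) t145))))))))))
noncomputable def l22359 : Lb := (@Lb.r r323 (@Lb.d (nat_lit 2) (nat_lit 9) (nat_lit 1) (@Lb.g g8 (@Lb.g g9 (@Lb.g g10 (@Lb.r r1323 (@Lb.r r1441 (@Lb.r r422 (@Lb.r r24 (@Lb.d (nat_lit 130) (nat_lit 73) (nat_lit 84) (@Lb.t (@Lb.fp (nat_lit 9) t125))))))))))))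
noncomputable def l22360 : Lb := (@Lb.d (nat_lit 5) (nat_lit 258) (nat_lit 128) (@Lb.g g4 (@Lb.g g9 (@Lb.g g10 (@Lb.g g11 (@Lb.r r1703 (@Lb.r r1681 (@Lb.r r2194 (@Lb.d (nat_lit 73) (nat_lit 137) (nat_lit 393) (@Lb.fm (nat_lit 9) t61))))))))))
noncomputable def l22361 : Lb := (@Lb.d (nat_lit 261) (nat_lit 577) (nat_lit 512) (@Lb.r r264 (@Lb.r r2145 (@Lb.r r402 (@Lb.r r1543 (@Lb.g g7 (@Lb.g g4 (@Lb.d (nat_lit 64) (nat_lit 0) (nat_lit 64) (@Lb.fm (nat_lit 3) t1246)))))))))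
noncomputable def l22362 : Lb := (@Lb.d (nat_lit 2) (nat_lit 2) (nat_lit 73) (@Lb.g g8 (@Lb.g g9 (@Lb.g g10 (@Lb.g g11 (@Lb.r r427 (@Lb.r r405 (@Lb.r r2458 (@Lb.r r24 (@Lb.d (nat_lit 640) (nat_lit 73) (nat_lit 681) (@Lb.fp (nat_lit 9) t651)))))))))))
noncomputable def l22363 : Lb := (@Lb.d (nat_lit 5) (nat_lit 256) (nat_lit 130) (@Lb.g g4 (@Lb.g g9 (@Lb.g g10 (@Lb.g g11 (@Lb.r r657 (@Lb.r r1435 (@Lb.r r2122 (@Lb.r r1553 (@Lb.d (nat_lit 32) (nat_lit 10) (nat_lit 417) (@Lb.fm (nat_lit 9) t145)))))))))))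
noncomputable def l22364 : Lb := (@Lb.d (nat_lit 5) (nat_lit 512) (nat_lit 130) (@Lb.g g4 (@Lb.g g9 (@Lb.g g10 (@Lb.g g11 (@Lb.r r1671 (@Lb.r r145 (@Lb.r r594 (@Lb.r r1169 (@Lb.d (nat_lit 537) (nat_lit 97) (nat_lit 586) (@Lb.fp (nat_lit 9) t504)))))))))))
noncomputable def l22365 : Lb := (@Lb.r r82 (@Lb.r r275 (@Lb.d (nat_lit 2) (nat_lit 10) (nat_lit 0) (@Lb.g g8 (@Lb.g g9 (@Lb.r r1435 (@Lb.r r1426 (@Lb.r r2649 (@Lb.d (nat_lit 410) (nat_lit 166) (nat_lit 425) (@Lb.fp (nat_lit 3) t50))))))))))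
noncomputable def l22366 : Lb := (@Lb.d (nat_lit 9) (nat_lit 546) (nat_lit 9) (@Lb.g g8 (@Lb.g g9 (@Lb.g g10 (@Lb.r r2315 (@Lb.r r1316 (@Lb.r r1109 (@Lb.r r98 (@Lb.d (nat_lit 528) (nat_lit 137) (nat_lit 168) (@Lb.t (@Lb.fm (nat_lit 9) t386)))))))))))
noncomputable def l22367 : Lb := (@Lb.d (nat_lit 342) (nat_lit 401) (nat_lit 321) (@Lb.r r2325 (@Lb.r r2390 (@Lb.r r1699 (@Lb.g g7 (@Lb.g g6 (@Lb.g g5 (@Lb.g g4 (@Lb.d (nat_lit 1) (nat_lit 18) (nat_lit 65) (@Lb.fm (nat_lit 9) t4426))))))))))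
noncomputable def l22368 : Lb := (@Lb.d (nat_lit 1) (nat_lit 256) (nat_lit 128) (@Lb.g g8 (@Lb.g g11 (@Lb.r r337 (@Lb.r r1643 (@Lb.r r1610 (@Lb.r r1684 (@Lb.r r153 (@Lb.d (nat_lit 2) (nat_lit 165) (nat_lit 665) (@Lb.fp (nat_lit 3) t2243))))))))))
noncomputable def l22369 : Lb := (@Lb.d (nat_lit 0) (nat_lit 258) (nat_lit 130) (@Lb.g g9 (@Lb.g g10 (@Lb.g g11 (@Lb.r r427 (@Lb.r r386 (@Lb.r r97 (@Lb.d (nat_lit 130) (nat_lit 154) (nat_lit 137) (@Lb.t (@Lb.fm (nat_lit 9) t1231))))))))))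
noncomputable def l22370 : Lb := (@Lb.r r2118 (@Lb.r r24 (@Lb.r r149 (@Lb.d (nat_lit 292) (nat_lit 385) (nat_lit 18) (@Lb.fm (nat_lit 1) t2067)))))
noncomputable def l22371 : Lb := (@Lb.d (nat_lit 2) (nat_lit 521) (nat_lit 73) (@Lb.g g8 (@Lb.g g9 (@Lb.g g10 (@Lb.g g11 (@Lb.r r2731 (@Lb.r r2724 (@Lb.r r1158 (@Lb.r r97 (@Lb.d (nat_lit 289) (nat_lit 100) (nat_lit 672) (@Lb.fm (nat_lit 9) t2083)))))))))))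
noncomputable def l22372 : Lb := (@Lb.d (nat_lit 0) (nat_lit 8) (nat_lit 130) (@Lb.g g10 (@Lb.g g11 (@Lb.r r387 (@Lb.r r24 (@Lb.r r101 (@Lb.d (nat_lit 26) (nat_lit 128) (nat_lit 169) (@Lb.fm (nat_lit 3) t232))))))))
noncomputable def l22373 : Lb := (@Lb.d (nat_lit 42) (nat_lit 70) (nat_lit 1) (@Lb.r r101 (@Lb.r r24 (@Lb.r r402 (@Lb.r r323 (@Lb.g g7 (@Lb.g g6 (@Lb.g g5 (@Lb.d (nat_lit 4) (nat_lit 1) (nat_lit 64) (@Lb.t (@Lb.fm (nat_lit 9) t2318)))))))))))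
noncomputable def l22374 : Lb := (@Lb.d (nat_lit 36) (nat_lit 596) (nat_lit 8) (@Lb.r r676 (@Lb.r r150 (@Lb.g g5 (@Lb.g g4 (@Lb.d (nat_lit 16) (nat_lit 25) (nat_lit 0) (@Lb.fp (nat_lit 3) t2175)))))))
noncomputable def l22375 : Lb := (@Lb.d (nat_lit 37) (nat_lit 320) (nat_lit 0) (@Lb.r r24 (@Lb.r r2138 (@Lb.r r149 (@Lb.g g5 (@Lb.t (@Lb.fp (nat_lit 3) t1004)))))))
noncomputable def l22376 : Lb := (@Lb.d (nat_lit 10) (nat_lit 512) (nat_lit 0) (@Lb.g g4 (@Lb.g g7 (@Lb.r r153 (@Lb.r r402 (@Lb.r r1608 (@Lb.d (nat_lit 401) (nat_lit 0) (nat_lit 537) (@Lb.fm (nat_lit 3) t311))))))))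
noncomputable def l22377 : Lb := (@Lb.d (nat_lit 24) (nat_lit 512) (nat_lit 138) (@Lb.g g8 (@Lb.g g10 (@Lb.g g11 (@Lb.r r1602 (@Lb.r r21 (@Lb.r r2084 (@Lb.d (nat_lit 522) (nat_lit 146) (nat_lit 86) (@Lb.t (@Lb.fm (nat_lit 9) t4427))))))))))
noncomputable def l22378 : Lb := (@Lb.d (nat_lit 0) (nat_lit 0) (nat_lit 74) (@Lb.g g10 (@Lb.g g11 (@Lb.r r2707 (@Lb.r r2341 (@Lb.r r2136 (@Lb.r r1158 (@Lb.d (nat_lit 288) (nat_lit 5) (nat_lit 32) (@Lb.fm (nat_lit 3) t296)))))))))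
noncomputable def l22379 : Lb := (@Lb.d (nat_lit 152) (nat_lit 264) (nat_lit 2) (@Lb.g g8 (@Lb.g g10 (@Lb.r r533 (@Lb.r r2711 (@Lb.r r662 (@Lb.r r1124 (@Lb.d (nat_lit 665) (nat_lit 26) (nat_lit 658) (@Lb.fm (nat_lit 3) t412)))))))))
noncomputable def l22380 : Lb := (@Lb.d (nat_lit 0) (nat_lit 0) (nat_lit 128) (@Lb.g g10 (@Lb.g g11 (@Lb.r r387 (@Lb.r r1414 (@Lb.r r2145 (@Lb.r r2120 (@Lb.d (nat_lit 514) (nat_lit 0) (nat_lit 16) (@Lb.fp (nat_lit 3) t145)))))))))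
noncomputable def l22381 : Lb := (@Lb.d (nat_lit 0) (nat_lit 513) (nat_lit 128) (@Lb.g g9 (@Lb.g g10 (@Lb.g g11 (@Lb.r r387 (@Lb.r r1414 (@Lb.r r1169 (@Lb.r r2120 (@Lb.d (nat_lit 514) (nat_lit 138) (nat_lit 34) (@Lb.t (@Lb.fm (nat_lit 9) t145)))))))))))
noncomputable def l22382 : Lb := (@Lb.d (nat_lit 8) (nat_lit 0) (nat_lit 136) (@Lb.g g8 (@Lb.g g11 (@Lb.r r149 (@Lb.r r402 (@Lb.r r2436 (@Lb.d (nat_lit 610) (nat_lit 130) (nat_lit 384) (@Lb.fp (nat_lit 3) t652))))))))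
noncomputable def l22383 : Lb := (@Lb.d (nat_lit 10) (nat_lit 512) (nat_lit 0) (@Lb.g g4 (@Lb.r r153 (@Lb.r r402 (@Lb.r r1608 (@Lb.d (nat_lit 401) (nat_lit 162) (nat_lit 18) (@Lb.t (@Lb.fm (nat_lit 3) t652))))))))
noncomputable def l22384 : Lb := (@Lb.r r322 (@Lb.d (nat_lit 0) (nat_lit 266) (nat_lit 576) (@Lb.g g9 (@Lb.g g7 (@Lb.r r594 (@Lb.r r1701 (@Lb.r r24 (@Lb.d (nat_lit 130) (nat_lit 5) (nat_lit 358) (@Lb.fp (nat_lit 3) t1087)))))))))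
noncomputable def l22385 : Lb := (@Lb.d (nat_lit 2) (nat_lit 33) (nat_lit 130) (@Lb.g g8 (@Lb.g g9 (@Lb.g g10 (@Lb.g g11 (@Lb.r r1699 (@Lb.r r1642 (@Lb.r r1561 (@Lb.d (nat_lit 681) (nat_lit 105) (nat_lit 641) (@Lb.fm (nat_lit 9) t175))))))))))
noncomputable def l22386 : Lb := (@Lb.d (nat_lit 646) (nat_lit 576) (nat_lit 5) (@Lb.r r68 (@Lb.r r666 (@Lb.r r404 (@Lb.r r2385 (@Lb.g g7 (@Lb.g g6 (@Lb.g g5 (@Lb.g g4 (@Lb.d (nat_lit 1) (nat_lit 37) (nat_lit 390) (@Lb.fm (nat_lit 9) t1027)))))))))))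
noncomputable def l22387 : Lb := (@Lb.d (nat_lit 128) (nat_lit 266) (nat_lit 128) (@Lb.g g9 (@Lb.g g11 (@Lb.r r324 (@Lb.r r1627 (@Lb.r r594 (@Lb.r r417 (@Lb.d (nat_lit 536) (nat_lit 1) (nat_lit 169) (@Lb.fm (nat_lit 3) t210)))))))))
noncomputable def l22388 : Lb := (@Lb.d (nat_lit 5) (nat_lit 290) (nat_lit 130) (@Lb.g g4 (@Lb.g g9 (@Lb.g g10 (@Lb.g g11 (@Lb.r r679 (@Lb.r r610 (@Lb.r r529 (@Lb.d (nat_lit 97) (nat_lit 41) (nat_lit 1) (@Lb.fp (nat_lit 9) t2545))))))))))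
noncomputable def l22389 : Lb := (@Lb.r r21 (@Lb.d (nat_lit 2) (nat_lit 512) (nat_lit 130) (@Lb.g g8 (@Lb.g g10 (@Lb.g g11 (@Lb.r r2379 (@Lb.r r386 (@Lb.r r97 (@Lb.r r72 (@Lb.d (nat_lit 290) (nat_lit 0) (nat_lit 152) (@Lb.t (@Lb.fp (nat_lit 9) t61))))))))))))
noncomputable def l22390 : Lb := (@Lb.r r323 (@Lb.d (nat_lit 136) (nat_lit 264) (nat_lit 34) (@Lb.g g8 (@Lb.g g10 (@Lb.r r615 (@Lb.r r533 (@Lb.r r2340 (@Lb.d (nat_lit 330) (nat_lit 105) (nat_lit 657) (@Lb.fp (nat_lit 3) t221)))))))))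
noncomputable def l22391 : Lb := (@Lb.d (nat_lit 4) (nat_lit 385) (nat_lit 0) (@Lb.g g8 (@Lb.d (nat_lit 522) (nat_lit 0) (nat_lit 0) (@Lb.r r2073 (@Lb.t (@Lb.fp (nat_lit 3) t2))))))
noncomputable def l22392 : Lb := (@Lb.r r82 (@Lb.d (nat_lit 34) (nat_lit 290) (nat_lit 64) (@Lb.g g8 (@Lb.g g9 (@Lb.g g11 (@Lb.r r674 (@Lb.r r553 (@Lb.r r616 (@Lb.r r587 (@Lb.d (nat_lit 129) (nat_lit 41) (nat_lit 69) (@Lb.t (@Lb.fm (nat_lit 9) t355))))))))))))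
noncomputable def l22393 : Lb := (@Lb.d (nat_lit 4) (nat_lit 1) (nat_lit 0) (@Lb.g g5 (@Lb.d (nat_lit 4) (nat_lit 1) (nat_lit 0) (@Lb.t (@Lb.fm (nat_lit 3) t2)))))
noncomputable def l22394 : Lb := (@Lb.d (nat_lit 4) (nat_lit 513) (nat_lit 0) (@Lb.g g5 (@Lb.d (nat_lit 1) (nat_lit 129) (nat_lit 0) (@Lb.t (@Lb.fm (nat_lit 3) t2)))))
noncomputable def l22395 : Lb := (@Lb.d (nat_lit 0) (nat_lit 0) (nat_lit 130) (@Lb.g g10 (@Lb.g g11 (@Lb.r r2658 (@Lb.d (nat_lit 5) (nat_lit 90) (nat_lit 256) (@Lb.fm (nat_lit 3) t479))))))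
noncomputable def l22396 : Lb := (@Lb.d (nat_lit 40) (nat_lit 258) (nat_lit 0) (@Lb.g g8 (@Lb.g g9 (@Lb.r r2411 (@Lb.r r598 (@Lb.r r2457 (@Lb.r r408 (@Lb.d (nat_lit 665) (nat_lit 26) (nat_lit 154) (@Lb.fp (nat_lit 3) t386)))))))))
noncomputable def l22397 : Lb := (@Lb.d (nat_lit 401) (nat_lit 257) (nat_lit 294) (@Lb.r r24 (@Lb.r r386 (@Lb.g g11 (@Lb.g g6 (@Lb.g g5 (@Lb.d (nat_lit 4) (nat_lit 1) (nat_lit 1) (@Lb.t (@Lb.fm (nat_lit 9) t1221)))))))))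
noncomputable def l22398 : Lb := (@Lb.d (nat_lit 128) (nat_lit 258) (nat_lit 130) (@Lb.g g8 (@Lb.g g9 (@Lb.g g10 (@Lb.g g11 (@Lb.r r2471 (@Lb.r r2705 (@Lb.r r152 (@Lb.r r2714 (@Lb.r r132 (@Lb.d (nat_lit 329) (nat_lit 105) (nat_lit 274) (@Lb.fp (nat_lit 9) t4428))))))))))))
noncomputable def l22399 : Lb := (@Lb.d (nat_lit 145) (nat_lit 514) (nat_lit 128) (@Lb.g g8 (@Lb.g g9 (@Lb.g g10 (@Lb.g g11 (@Lb.r r683 (@Lb.r r2410 (@Lb.r r1561 (@Lb.r r1540 (@Lb.d (nat_lit 394) (nat_lit 153) (nat_lit 133) (@Lb.fm (nat_lit 9) t3595)))))))))))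
noncomputable def l22400 : Lb := (@Lb.d (nat_lit 128) (nat_lit 514) (nat_lit 73) (@Lb.g g8 (@Lb.g g9 (@Lb.g g10 (@Lb.g g11 (@Lb.r r2471 (@Lb.r r2705 (@Lb.r r152 (@Lb.r r2714 (@Lb.r r132 (@Lb.d (nat_lit 329) (nat_lit 105) (nat_lit 274) (@Lb.fp (nat_lit 9) t4428))))))))))))
noncomputable def l22401 : Lb := (@Lb.d (nat_lit 1) (nat_lit 2) (nat_lit 0) (@Lb.g g8 (@Lb.g g9 (@Lb.r r406 (@Lb.r r1643 (@Lb.r r97 (@Lb.r r24 (@Lb.d (nat_lit 266) (nat_lit 168) (nat_lit 614) (@Lb.fm (nat_lit 3) t2583)))))))))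
noncomputable def l22402 : Lb := (@Lb.r r82 (@Lb.d (nat_lit 133) (nat_lit 512) (nat_lit 128) (@Lb.g g8 (@Lb.g g9 (@Lb.g g11 (@Lb.r r2467 (@Lb.r r386 (@Lb.r r165 (@Lb.r r1176 (@Lb.d (nat_lit 278) (nat_lit 10) (nat_lit 34) (@Lb.t (@Lb.fp (nat_lit 9) t4064))))))))))))
noncomputable def l22403 : Lb := (@Lb.d (nat_lit 129) (nat_lit 514) (nat_lit 64) (@Lb.g g8 (@Lb.g g9 (@Lb.g g11 (@Lb.r r150 (@Lb.r r1640 (@Lb.r r267 (@Lb.r r97 (@Lb.d (nat_lit 321) (nat_lit 24) (nat_lit 358) (@Lb.t (@Lb.fp (nat_lit 9) t4429)))))))))))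
noncomputable def l22404 : Lb := (@Lb.d (nat_lit 645) (nat_lit 553) (nat_lit 586) (@Lb.r r82 (@Lb.r r425 (@Lb.r r1559 (@Lb.g g6 (@Lb.g g4 (@Lb.d (nat_lit 8) (nat_lit 0) (nat_lit 1) (@Lb.fm (nat_lit 3) t4429))))))))
noncomputable def l22405 : Lb := (@Lb.d (nat_lit 128) (nat_lit 2) (nat_lit 130) (@Lb.g g8 (@Lb.g g9 (@Lb.g g10 (@Lb.g g11 (@Lb.r r407 (@Lb.r r136 (@Lb.r r1690 (@Lb.r r85 (@Lb.r r164 (@Lb.d (nat_lit 64) (nat_lit 41) (nat_lit 274) (@Lb.fp (nat_lit 9) t4430))))))))))))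
noncomputable def l22406 : Lb := (@Lb.d (nat_lit 644) (nat_lit 392) (nat_lit 290) (@Lb.r r1109 (@Lb.r r2198 (@Lb.r r1384 (@Lb.r r1543 (@Lb.g g10 (@Lb.g g5 (@Lb.g g4 (@Lb.t (@Lb.fp (nat_lit 9) t4431))))))))))
noncomputable def l22407 : Lb := (@Lb.d (nat_lit 2) (nat_lit 516) (nat_lit 128) (@Lb.g g8 (@Lb.g g9 (@Lb.g g10 (@Lb.g g11 (@Lb.r r516 (@Lb.r r263 (@Lb.r r618 (@Lb.r r97 (@Lb.r r516 (@Lb.d (nat_lit 2) (nat_lit 10) (nat_lit 129) (@Lb.fm (nat_lit 9) t607))))))))))))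
noncomputable def l22408 : Lb := (@Lb.r r82 (@Lb.d (nat_lit 9) (nat_lit 32) (nat_lit 128) (@Lb.g g8 (@Lb.g g9 (@Lb.g g11 (@Lb.r r299 (@Lb.r r1098 (@Lb.r r1560 (@Lb.r r277 (@Lb.d (nat_lit 136) (nat_lit 1) (nat_lit 384) (@Lb.t (@Lb.fp (nat_lit 9) t2493))))))))))))
noncomputable def l22409 : Lb := (@Lb.d (nat_lit 73) (nat_lit 22) (nat_lit 137) (@Lb.r r594 (@Lb.r r519 (@Lb.r r328 (@Lb.g g7 (@Lb.g g6 (@Lb.g g9 (@Lb.d (nat_lit 16) (nat_lit 25) (nat_lit 74) (@Lb.t (@Lb.fm (nat_lit 9) t1548))))))))))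
noncomputable def l22410 : Lb := (@Lb.r r275 (@Lb.d (nat_lit 8) (nat_lit 514) (nat_lit 2) (@Lb.g g8 (@Lb.g g9 (@Lb.g g10 (@Lb.r r1627 (@Lb.r r610 (@Lb.r r529 (@Lb.r r1416 (@Lb.d (nat_lit 146) (nat_lit 41) (nat_lit 328) (@Lb.t (@Lb.fm (nat_lit 9) t4011))))))))))))
noncomputable def l22411 : Lb := (@Lb.d (nat_lit 136) (nat_lit 2) (nat_lit 130) (@Lb.g g9 (@Lb.g g10 (@Lb.g g11 (@Lb.r r264 (@Lb.r r279 (@Lb.r r618 (@Lb.r r537 (@Lb.d (nat_lit 21) (nat_lit 136) (nat_lit 130) (@Lb.t (@Lb.fp (nat_lit 9) t240)))))))))))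
noncomputable def l22412 : Lb := (@Lb.d (nat_lit 10) (nat_lit 518) (nat_lit 128) (@Lb.g g8 (@Lb.g g9 (@Lb.g g10 (@Lb.g g11 (@Lb.r r516 (@Lb.r r263 (@Lb.r r618 (@Lb.r r97 (@Lb.r r516 (@Lb.d (nat_lit 2) (nat_lit 10) (nat_lit 129) (@Lb.fm (nat_lit 9) t607))))))))))))
noncomputable def l22413 : Lb := (@Lb.d (nat_lit 9) (nat_lit 2) (nat_lit 73) (@Lb.g g8 (@Lb.g g9 (@Lb.g g10 (@Lb.g g11 (@Lb.r r1700 (@Lb.r r1671 (@Lb.r r578 (@Lb.r r2337 (@Lb.d (nat_lit 529) (nat_lit 161) (nat_lit 600) (@Lb.fp (nat_lit 9) t2604)))))))))))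
noncomputable def l22414 : Lb := (@Lb.r r82 (@Lb.r r275 (@Lb.d (nat_lit 9) (nat_lit 266) (nat_lit 0) (@Lb.g g8 (@Lb.g g9 (@Lb.r r1291 (@Lb.r r1098 (@Lb.r r1128 (@Lb.r r105 (@Lb.d (nat_lit 296) (nat_lit 73) (nat_lit 2) (@Lb.fm (nat_lit 3) t428)))))))))))
noncomputable def l22415 : Lb := (@Lb.d (nat_lit 5) (nat_lit 34) (nat_lit 130) (@Lb.g g4 (@Lb.g g9 (@Lb.g g10 (@Lb.g g11 (@Lb.r r1702 (@Lb.r r1415 (@Lb.r r1169 (@Lb.d (nat_lit 66) (nat_lit 149) (nat_lit 665) (@Lb.fp (nat_lit 9) t809))))))))))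
noncomputable def l22416 : Lb := (@Lb.r r82 (@Lb.r r275 (@Lb.d (nat_lit 5) (nat_lit 8) (nat_lit 0) (@Lb.g g4 (@Lb.g g9 (@Lb.r r2315 (@Lb.r r2138 (@Lb.r r1169 (@Lb.d (nat_lit 528) (nat_lit 74) (nat_lit 34) (@Lb.fp (nat_lit 3) t58))))))))))
noncomputable def l22417 : Lb := (@Lb.d (nat_lit 128) (nat_lit 2) (nat_lit 128) (@Lb.g g9 (@Lb.g g11 (@Lb.r r264 (@Lb.r r519 (@Lb.r r665 (@Lb.r r154 (@Lb.d (nat_lit 146) (nat_lit 0) (nat_lit 5) (@Lb.fp (nat_lit 3) t285)))))))))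
noncomputable def l22418 : Lb := (@Lb.d (nat_lit 549) (nat_lit 657) (nat_lit 320) (@Lb.r r2308 (@Lb.r r2178 (@Lb.r r1291 (@Lb.r r292 (@Lb.g g7 (@Lb.g g9 (@Lb.g g4 (@Lb.d (nat_lit 1) (nat_lit 70) (nat_lit 128) (@Lb.t (@Lb.fp (nat_lit 9) t1210)))))))))))
noncomputable def l22419 : Lb := (@Lb.d (nat_lit 393) (nat_lit 145) (nat_lit 353) (@Lb.r r1560 (@Lb.r r2178 (@Lb.r r1307 (@Lb.g g9 (@Lb.g g4 (@Lb.d (nat_lit 65) (nat_lit 70) (nat_lit 0) (@Lb.fp (nat_lit 3) t1621))))))))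
noncomputable def l22420 : Lb := (@Lb.d (nat_lit 2) (nat_lit 256) (nat_lit 128) (@Lb.g g8 (@Lb.g g11 (@Lb.r r154 (@Lb.r r404 (@Lb.r r619 (@Lb.r r537 (@Lb.d (nat_lit 145) (nat_lit 150) (nat_lit 1) (@Lb.fm (nat_lit 3) t240)))))))))
noncomputable def l22421 : Lb := (@Lb.d (nat_lit 2) (nat_lit 522) (nat_lit 65) (@Lb.g g8 (@Lb.g g9 (@Lb.g g10 (@Lb.g g11 (@Lb.r r164 (@Lb.r r614 (@Lb.r r529 (@Lb.r r132 (@Lb.d (nat_lit 70) (nat_lit 32) (nat_lit 10) (@Lb.fp (nat_lit 9) t1185)))))))))))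
noncomputable def l22422 : Lb := (@Lb.d (nat_lit 129) (nat_lit 512) (nat_lit 0) (@Lb.r r2584 (@Lb.r r2138 (@Lb.r r2587 (@Lb.r r293 (@Lb.g g7 (@Lb.d (nat_lit 0) (nat_lit 0) (nat_lit 64) (@Lb.t (@Lb.fp (nat_lit 3) t199)))))))))
noncomputable def l22423 : Lb := (@Lb.r r323 (@Lb.d (nat_lit 32) (nat_lit 512) (nat_lit 26) (@Lb.g g9 (@Lb.g g10 (@Lb.r r1627 (@Lb.r r1624 (@Lb.r r2341 (@Lb.d (nat_lit 64) (nat_lit 0) (nat_lit 514) (@Lb.fp (nat_lit 3) t1954)))))))))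
noncomputable def l22424 : Lb := (@Lb.d (nat_lit 0) (nat_lit 258) (nat_lit 130) (@Lb.g g9 (@Lb.g g10 (@Lb.g g11 (@Lb.r r427 (@Lb.r r409 (@Lb.r r90 (@Lb.r r145 (@Lb.d (nat_lit 393) (nat_lit 9) (nat_lit 169) (@Lb.t (@Lb.fm (nat_lit 9) t3015)))))))))))
noncomputable def l22425 : Lb := (@Lb.d (nat_lit 149) (nat_lit 641) (nat_lit 321) (@Lb.r r289 (@Lb.r r70 (@Lb.r r420 (@Lb.g g11 (@Lb.g g6 (@Lb.d (nat_lit 16) (nat_lit 32) (nat_lit 390) (@Lb.fm (nat_lit 3) t4432))))))))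
noncomputable def l22426 : Lb := (@Lb.r r323 (@Lb.d (nat_lit 0) (nat_lit 2) (nat_lit 1) (@Lb.g g9 (@Lb.g g6 (@Lb.r r387 (@Lb.r r97 (@Lb.d (nat_lit 6) (nat_lit 10) (nat_lit 66) (@Lb.fm (nat_lit 3) t285))))))))
noncomputable def l22427 : Lb := (@Lb.d (nat_lit 2) (nat_lit 514) (nat_lit 130) (@Lb.g g8 (@Lb.g g9 (@Lb.g g10 (@Lb.g g11 (@Lb.r r427 (@Lb.r r424 (@Lb.r r106 (@Lb.r r97 (@Lb.d (nat_lit 296) (nat_lit 9) (nat_lit 104) (@Lb.fp (nat_lit 9) t4433)))))))))))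
noncomputable def l22428 : Lb := (@Lb.d (nat_lit 8) (nat_lit 1) (nat_lit 0) (@Lb.g g8 (@Lb.g g9 (@Lb.g g10 (@Lb.r r515 (@Lb.r r297 (@Lb.r r360 (@Lb.r r582 (@Lb.r r132 (@Lb.d (nat_lit 2) (nat_lit 5) (nat_lit 136) (@Lb.t (@Lb.fp (nat_lit 9) t242))))))))))))
noncomputable def l22429 : Lb := (@Lb.d (nat_lit 0) (nat_lit 256) (nat_lit 130) (@Lb.g g4 (@Lb.g g10 (@Lb.g g11 (@Lb.r r419 (@Lb.r r386 (@Lb.d (nat_lit 293) (nat_lit 41) (nat_lit 168) (@Lb.t (@Lb.fm (nat_lit 9) t4055)))))))))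
noncomputable def l22430 : Lb := (@Lb.d (nat_lit 129) (nat_lit 258) (nat_lit 66) (@Lb.g g8 (@Lb.g g9 (@Lb.g g10 (@Lb.g g11 (@Lb.r r586 (@Lb.r r36 (@Lb.r r2453 (@Lb.r r1323 (@Lb.r r1060 (@Lb.d (nat_lit 281) (nat_lit 41) (nat_lit 405) (@Lb.fp (nat_lit 9) t4434))))))))))))
noncomputable def l22431 : Lb := (@Lb.d (nat_lit 2) (nat_lit 545) (nat_lit 130) (@Lb.g g8 (@Lb.g g9 (@Lb.g g10 (@Lb.g g11 (@Lb.r r683 (@Lb.r r616 (@Lb.r r86 (@Lb.r r165 (@Lb.r r20 (@Lb.d (nat_lit 41) (nat_lit 1) (nat_lit 2) (@Lb.fm (nat_lit 9) t74))))))))))))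
noncomputable def l22432 : Lb := (@Lb.d (nat_lit 0) (nat_lit 256) (nat_lit 130) (@Lb.g g4 (@Lb.g g10 (@Lb.g g11 (@Lb.r r419 (@Lb.r r386 (@Lb.d (nat_lit 292) (nat_lit 34) (nat_lit 169) (@Lb.t (@Lb.fm (nat_lit 9) t4055)))))))))
noncomputable def l22433 : Lb := (@Lb.r r21 (@Lb.d (nat_lit 146) (nat_lit 256) (nat_lit 5) (@Lb.g g8 (@Lb.g g10 (@Lb.g g11 (@Lb.r r651 (@Lb.r r2665 (@Lb.r r1686 (@Lb.r r536 (@Lb.d (nat_lit 534) (nat_lit 162) (nat_lit 596) (@Lb.t (@Lb.fm (nat_lit 9) t125))))))))))))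
noncomputable def l22434 : Lb := (@Lb.d (nat_lit 32) (nat_lit 264) (nat_lit 73) (@Lb.g g9 (@Lb.g g10 (@Lb.g g11 (@Lb.r r647 (@Lb.r r1317 (@Lb.r r328 (@Lb.r r662 (@Lb.d (nat_lit 165) (nat_lit 37) (nat_lit 352) (@Lb.t (@Lb.fm (nat_lit 9) t98)))))))))))
noncomputable def l22435 : Lb := (@Lb.d (nat_lit 5) (nat_lit 33) (nat_lit 132) (@Lb.g g8 (@Lb.g g9 (@Lb.g g10 (@Lb.g g11 (@Lb.r r1707 (@Lb.r r616 (@Lb.r r86 (@Lb.r r2213 (@Lb.r r2068 (@Lb.d (nat_lit 296) (nat_lit 1) (nat_lit 34) (@Lb.fm (nat_lit 9) t68))))))))))))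
noncomputable def l22436 : Lb := (@Lb.d (nat_lit 32) (nat_lit 520) (nat_lit 130) (@Lb.g g9 (@Lb.g g10 (@Lb.g g11 (@Lb.r r647 (@Lb.r r1317 (@Lb.r r328 (@Lb.r r662 (@Lb.d (nat_lit 166) (nat_lit 37) (nat_lit 352) (@Lb.t (@Lb.fm (nat_lit 9) t98)))))))))))
noncomputable def l22437 : Lb := (@Lb.r r331 (@Lb.d (nat_lit 6) (nat_lit 266) (nat_lit 2) (@Lb.g g8 (@Lb.g g9 (@Lb.g g10 (@Lb.r r1706 (@Lb.r r1700 (@Lb.r r2597 (@Lb.r r291 (@Lb.d (nat_lit 641) (nat_lit 169) (nat_lit 660) (@Lb.t (@Lb.fm (nat_lit 9) t1736))))))))))))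
noncomputable def l22438 : Lb := (@Lb.d (nat_lit 2) (nat_lit 290) (nat_lit 66) (@Lb.g g8 (@Lb.g g9 (@Lb.g g10 (@Lb.g g11 (@Lb.r r419 (@Lb.r r2154 (@Lb.r r2073 (@Lb.d (nat_lit 104) (nat_lit 137) (nat_lit 425) (@Lb.fp (nat_lit 9) t1884))))))))))
noncomputable def l22439 : Lb := (@Lb.d (nat_lit 2) (nat_lit 256) (nat_lit 128) (@Lb.g g8 (@Lb.g g11 (@Lb.r r516 (@Lb.r r263 (@Lb.r r2145 (@Lb.r r1170 (@Lb.r r516 (@Lb.d (nat_lit 528) (nat_lit 0) (nat_lit 129) (@Lb.fm (nat_lit 3) t285))))))))))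
noncomputable def l22440 : Lb := (@Lb.d (nat_lit 128) (nat_lit 0) (nat_lit 128) (@Lb.g g11 (@Lb.r r264 (@Lb.r r519 (@Lb.r r2145 (@Lb.r r1170 (@Lb.d (nat_lit 656) (nat_lit 0) (nat_lit 65) (@Lb.t (@Lb.fp (nat_lit 3) t285)))))))))
noncomputable def l22441 : Lb := (@Lb.d (nat_lit 0) (nat_lit 98) (nat_lit 640) (@Lb.r r2308 (@Lb.r r2145 (@Lb.r r1170 (@Lb.r r1419 (@Lb.r r264 (@Lb.g g7 (@Lb.g g8 (@Lb.fm (nat_lit 3) t285)))))))))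
noncomputable def l22442 : Lb := (@Lb.d (nat_lit 1) (nat_lit 657) (nat_lit 322) (@Lb.r r260 (@Lb.r r2145 (@Lb.r r267 (@Lb.r r404 (@Lb.g g7 (@Lb.g g10 (@Lb.g g4 (@Lb.d (nat_lit 2) (nat_lit 8) (nat_lit 161) (@Lb.t (@Lb.fp (nat_lit 9) t607)))))))))))
noncomputable def l22443 : Lb := (@Lb.r r82 (@Lb.d (nat_lit 2) (nat_lit 514) (nat_lit 128) (@Lb.g g8 (@Lb.g g9 (@Lb.g g11 (@Lb.r r299 (@Lb.r r1098 (@Lb.r r289 (@Lb.r r24 (@Lb.d (nat_lit 586) (nat_lit 16) (nat_lit 64) (@Lb.t (@Lb.fm (nat_lit 9) t502))))))))))))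
noncomputable def l22444 : Lb := (@Lb.d (nat_lit 394) (nat_lit 402) (nat_lit 322) (@Lb.r r1560 (@Lb.r r2145 (@Lb.r r363 (@Lb.g g10 (@Lb.g g4 (@Lb.d (nat_lit 66) (nat_lit 8) (nat_lit 38) (@Lb.fp (nat_lit 3) t524))))))))
noncomputable def l22445 : Lb := (@Lb.d (nat_lit 2) (nat_lit 9) (nat_lit 129) (@Lb.g g8 (@Lb.g g9 (@Lb.g g10 (@Lb.g g11 (@Lb.r r427 (@Lb.r r1442 (@Lb.r r292 (@Lb.r r405 (@Lb.r r1060 (@Lb.d (nat_lit 352) (nat_lit 90) (nat_lit 356) (@Lb.fm (nat_lit 9) t4435))))))))))))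
noncomputable def l22446 : Lb := (@Lb.d (nat_lit 2) (nat_lit 258) (nat_lit 130) (@Lb.g g8 (@Lb.g g9 (@Lb.g g10 (@Lb.g g11 (@Lb.r r427 (@Lb.r r1442 (@Lb.r r292 (@Lb.r r405 (@Lb.r r1060 (@Lb.d (nat_lit 353) (nat_lit 90) (nat_lit 356) (@Lb.fm (nat_lit 9) t4436))))))))))))
noncomputable def l22447 : Lb := (@Lb.d (nat_lit 2) (nat_lit 145) (nat_lit 322) (@Lb.r r260 (@Lb.r r2145 (@Lb.r r267 (@Lb.r r404 (@Lb.g g7 (@Lb.g g10 (@Lb.g g4 (@Lb.d (nat_lit 1) (nat_lit 8) (nat_lit 97) (@Lb.t (@Lb.fp (nat_lit 9) t607)))))))))))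
noncomputable def l22448 : Lb := (@Lb.d (nat_lit 0) (nat_lit 512) (nat_lit 130) (@Lb.g g10 (@Lb.g g11 (@Lb.r r586 (@Lb.r r2659 (@Lb.r r1304 (@Lb.r r2661 (@Lb.d (nat_lit 553) (nat_lit 1) (nat_lit 37) (@Lb.fp (nat_lit 3) t4335)))))))))
noncomputable def l22449 : Lb := (@Lb.d (nat_lit 2) (nat_lit 657) (nat_lit 322) (@Lb.r r260 (@Lb.r r2145 (@Lb.r r267 (@Lb.r r404 (@Lb.g g7 (@Lb.g g10 (@Lb.g g4 (@Lb.d (nat_lit 2) (nat_lit 8) (nat_lit 97) (@Lb.t (@Lb.fp (nat_lit 9) t607)))))))))))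
noncomputable def l22450 : Lb := (@Lb.d (nat_lit 520) (nat_lit 130) (nat_lit 1) (@Lb.r r24 (@Lb.r r101 (@Lb.r r2403 (@Lb.g g6 (@Lb.d (nat_lit 32) (nat_lit 4) (nat_lit 33) (@Lb.t (@Lb.fm (nat_lit 3) t3693))))))))
noncomputable def l22451 : Lb := (@Lb.d (nat_lit 0) (nat_lit 520) (nat_lit 161) (@Lb.g g8 (@Lb.g g6 (@Lb.g g11 (@Lb.r r293 (@Lb.r r2587 (@Lb.r r2584 (@Lb.d (nat_lit 585) (nat_lit 2) (nat_lit 617) (@Lb.t (@Lb.fm (nat_lit 9) t1537))))))))))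
noncomputable def l22452 : Lb := (@Lb.r r1114 (@Lb.r r149 (@Lb.r r1124 (@Lb.d (nat_lit 256) (nat_lit 138) (nat_lit 2) (@Lb.fp (nat_lit 1) t1551)))))
noncomputable def l22453 : Lb := (@Lb.d (nat_lit 2) (nat_lit 257) (nat_lit 32) (@Lb.r r101 (@Lb.r r24 (@Lb.r r1414 (@Lb.r r323 (@Lb.g g7 (@Lb.g g6 (@Lb.d (nat_lit 0) (nat_lit 0) (nat_lit 64) (@Lb.fp (nat_lit 3) t1919)))))))))
noncomputable def l22454 : Lb := (@Lb.d (nat_lit 2) (nat_lit 512) (nat_lit 0) (@Lb.g g8 (@Lb.r r1291 (@Lb.r r1098 (@Lb.r r1049 (@Lb.d (nat_lit 282) (nat_lit 64) (nat_lit 32) (@Lb.t (@Lb.fp (nat_lit 3) t396))))))))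
noncomputable def l22455 : Lb := (@Lb.d (nat_lit 5) (nat_lit 65) (nat_lit 0) (@Lb.r r101 (@Lb.r r402 (@Lb.r r323 (@Lb.g g7 (@Lb.g g6 (@Lb.g g4 (@Lb.d (nat_lit 0) (nat_lit 0) (nat_lit 64) (@Lb.t (@Lb.fp (nat_lit 9) t50))))))))))
noncomputable def l22456 : Lb := (@Lb.d (nat_lit 26) (nat_lit 74) (nat_lit 148) (@Lb.r r154 (@Lb.r r660 (@Lb.r r407 (@Lb.r r617 (@Lb.g g5 (@Lb.g g4 (@Lb.d (nat_lit 1) (nat_lit 1) (nat_lit 0) (@Lb.fm (nat_lit 3) t42)))))))))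
noncomputable def l22457 : Lb := (@Lb.d (nat_lit 280) (nat_lit 516) (nat_lit 72) (@Lb.g g4 (@Lb.g g9 (@Lb.g g10 (@Lb.g g11 (@Lb.r r1667 (@Lb.r r145 (@Lb.r r602 (@Lb.r r1169 (@Lb.d (nat_lit 289) (nat_lit 96) (nat_lit 346) (@Lb.fp (nat_lit 9) t830)))))))))))
noncomputable def l22458 : Lb := (@Lb.d (nat_lit 2) (nat_lit 256) (nat_lit 66) (@Lb.g g8 (@Lb.g g10 (@Lb.g g7 (@Lb.r r1321 (@Lb.r r1124 (@Lb.r r2122 (@Lb.d (nat_lit 594) (nat_lit 10) (nat_lit 618) (@Lb.t (@Lb.fm (nat_lit 9) t2157))))))))))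
noncomputable def l22459 : Lb := (@Lb.d (nat_lit 2) (nat_lit 536) (nat_lit 74) (@Lb.g g8 (@Lb.g g9 (@Lb.g g10 (@Lb.g g11 (@Lb.r r1686 (@Lb.r r2600 (@Lb.r r2667 (@Lb.r r2725 (@Lb.d (nat_lit 649) (nat_lit 26) (nat_lit 352) (@Lb.fp (nat_lit 9) t125)))))))))))
noncomputable def l22460 : Lb := (@Lb.d (nat_lit 641) (nat_lit 0) (nat_lit 408) (@Lb.r r2696 (@Lb.r r2475 (@Lb.r r2405 (@Lb.g g6 (@Lb.g g4 (@Lb.d (nat_lit 9) (nat_lit 0) (nat_lit 33) (@Lb.r r387 (@Lb.fm (nat_lit 3) t4437)))))))))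
noncomputable def l22461 : Lb := (@Lb.d (nat_lit 2) (nat_lit 258) (nat_lit 130) (@Lb.g g8 (@Lb.g g9 (@Lb.g g10 (@Lb.g g11 (@Lb.r r84 (@Lb.r r154 (@Lb.r r597 (@Lb.r r343 (@Lb.r r676 (@Lb.d (nat_lit 296) (nat_lit 1) (nat_lit 90) (@Lb.fm (nat_lit 9) t127))))))))))))
noncomputable def l22462 : Lb := (@Lb.r r21 (@Lb.d (nat_lit 657) (nat_lit 520) (nat_lit 128) (@Lb.g g4 (@Lb.g g10 (@Lb.g g11 (@Lb.r r345 (@Lb.r r2667 (@Lb.r r2374 (@Lb.d (nat_lit 104) (nat_lit 74) (nat_lit 661) (@Lb.t (@Lb.fm (nat_lit 9) t125)))))))))))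
noncomputable def l22463 : Lb := (@Lb.d (nat_lit 2) (nat_lit 517) (nat_lit 0) (@Lb.g g8 (@Lb.g g5 (@Lb.r r2331 (@Lb.r r24 (@Lb.d (nat_lit 266) (nat_lit 0) (nat_lit 65) (@Lb.fm (nat_lit 3) t314)))))))
noncomputable def l22464 : Lb := (@Lb.d (nat_lit 160) (nat_lit 264) (nat_lit 128) (@Lb.g g10 (@Lb.g g11 (@Lb.r r89 (@Lb.r r264 (@Lb.r r1367 (@Lb.r r1698 (@Lb.d (nat_lit 258) (nat_lit 148) (nat_lit 554) (@Lb.fm (nat_lit 3) t1607)))))))))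
noncomputable def l22465 : Lb := (@Lb.r r616 (@Lb.r r2665 (@Lb.r r2390 (@Lb.r r2475 (@Lb.r r1188 (@Lb.d (nat_lit 0) (nat_lit 512) (nat_lit 512) (@Lb.fp (nat_lit 1) t322)))))))
noncomputable def l22466 : Lb := (@Lb.r r323 (@Lb.d (nat_lit 0) (nat_lit 546) (nat_lit 2) (@Lb.g g8 (@Lb.g g9 (@Lb.g g10 (@Lb.r r599 (@Lb.r r1702 (@Lb.r r1444 (@Lb.r r149 (@Lb.d (nat_lit 289) (nat_lit 4) (nat_lit 1) (@Lb.t (@Lb.fm (nat_lit 9) t1089))))))))))))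
noncomputable def l22467 : Lb := (@Lb.r r21 (@Lb.r r331 (@Lb.d (nat_lit 417) (nat_lit 516) (nat_lit 2) (@Lb.g g8 (@Lb.g g10 (@Lb.r r409 (@Lb.r r2731 (@Lb.r r1674 (@Lb.d (nat_lit 641) (nat_lit 138) (nat_lit 421) (@Lb.fm (nat_lit 3) t1606))))))))))
noncomputable def l22468 : Lb := (@Lb.d (nat_lit 2) (nat_lit 258) (nat_lit 66) (@Lb.g g8 (@Lb.g g9 (@Lb.g g10 (@Lb.g g11 (@Lb.r r610 (@Lb.r r1607 (@Lb.r r2457 (@Lb.r r2436 (@Lb.d (nat_lit 168) (nat_lit 9) (nat_lit 393) (@Lb.fm (nat_lit 9) t2103)))))))))))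
noncomputable def l22469 : Lb := (@Lb.d (nat_lit 0) (nat_lit 2) (nat_lit 73) (@Lb.g g8 (@Lb.g g9 (@Lb.g g10 (@Lb.g g11 (@Lb.r r2666 (@Lb.r r100 (@Lb.r r21 (@Lb.r r36 (@Lb.d (nat_lit 329) (nat_lit 98) (nat_lit 256) (@Lb.fp (nat_lit 9) t240)))))))))))
noncomputable def l22470 : Lb := (@Lb.d (nat_lit 0) (nat_lit 256) (nat_lit 72) (@Lb.g g8 (@Lb.g g11 (@Lb.d (nat_lit 0) (nat_lit 0) (nat_lit 160) (@Lb.fm (nat_lit 3) t2)))))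
noncomputable def l22471 : Lb := (@Lb.d (nat_lit 0) (nat_lit 2) (nat_lit 2) (@Lb.g g8 (@Lb.g g9 (@Lb.g g10 (@Lb.r r2666 (@Lb.r r579 (@Lb.r r25 (@Lb.d (nat_lit 9) (nat_lit 102) (nat_lit 584) (@Lb.t (@Lb.fp (nat_lit 9) t51))))))))))
noncomputable def l22472 : Lb := (@Lb.d (nat_lit 0) (nat_lit 33) (nat_lit 4) (@Lb.g g9 (@Lb.g g10 (@Lb.g g11 (@Lb.r r679 (@Lb.r r1642 (@Lb.r r280 (@Lb.r r613 (@Lb.d (nat_lit 673) (nat_lit 66) (nat_lit 130) (@Lb.t (@Lb.fp (nat_lit 9) t4438)))))))))))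
noncomputable def l22473 : Lb := (@Lb.d (nat_lit 4) (nat_lit 266) (nat_lit 130) (@Lb.g g8 (@Lb.g g9 (@Lb.g g10 (@Lb.g g11 (@Lb.r r2730 (@Lb.r r420 (@Lb.r r283 (@Lb.r r1577 (@Lb.r r2068 (@Lb.d (nat_lit 73) (nat_lit 161) (nat_lit 330) (@Lb.fp (nat_lit 9) t1352))))))))))))
noncomputable def l22474 : Lb := (@Lb.r r81 (@Lb.r r323 (@Lb.d (nat_lit 16) (nat_lit 520) (nat_lit 34) (@Lb.g g6 (@Lb.r r2439 (@Lb.r r88 (@Lb.r r37 (@Lb.d (nat_lit 24) (nat_lit 66) (nat_lit 33) (@Lb.t (@Lb.fm (nat_lit 3) t4439))))))))))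
noncomputable def l22475 : Lb := (@Lb.d (nat_lit 32) (nat_lit 8) (nat_lit 146) (@Lb.g g10 (@Lb.g g11 (@Lb.r r387 (@Lb.d (nat_lit 658) (nat_lit 2) (nat_lit 425) (@Lb.fm (nat_lit 3) t4440))))))
noncomputable def l22476 : Lb := (@Lb.r r417 (@Lb.r r2466 (@Lb.r r2387 (@Lb.r r657 (@Lb.r r1096 (@Lb.d (nat_lit 0) (nat_lit 256) (nat_lit 16) (@Lb.fm (nat_lit 1) t246)))))))
noncomputable def l22477 : Lb := (@Lb.d (nat_lit 408) (nat_lit 388) (nat_lit 356) (@Lb.r r2438 (@Lb.r r1620 (@Lb.r r2345 (@Lb.r r1351 (@Lb.g g7 (@Lb.g g6 (@Lb.g g4 (@Lb.d (nat_lit 1) (nat_lit 4) (nat_lit 134) (@Lb.t (@Lb.fp (nat_lit 9) t284)))))))))))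
noncomputable def l22478 : Lb := (@Lb.d (nat_lit 2) (nat_lit 521) (nat_lit 130) (@Lb.g g8 (@Lb.g g9 (@Lb.g g10 (@Lb.g g11 (@Lb.r r1194 (@Lb.r r424 (@Lb.r r279 (@Lb.r r1553 (@Lb.r r2084 (@Lb.d (nat_lit 1) (nat_lit 97) (nat_lit 586) (@Lb.fp (nat_lit 9) t594))))))))))))
noncomputable def l22479 : Lb := (@Lb.r r101 (@Lb.r r24 (@Lb.d (nat_lit 352) (nat_lit 5) (nat_lit 544) (@Lb.fp (nat_lit 1) t1150))))
noncomputable def l22480 : Lb := (@Lb.d (nat_lit 0) (nat_lit 258) (nat_lit 38) (@Lb.r r101 (@Lb.r r24 (@Lb.r r386 (@Lb.g g11 (@Lb.g g6 (@Lb.g g5 (@Lb.d (nat_lit 0) (nat_lit 0) (nat_lit 129) (@Lb.t (@Lb.fp (nat_lit 9) t68))))))))))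
noncomputable def l22481 : Lb := (@Lb.r r21 (@Lb.d (nat_lit 16) (nat_lit 256) (nat_lit 128) (@Lb.g g8 (@Lb.g g10 (@Lb.g g11 (@Lb.r r2475 (@Lb.r r1557 (@Lb.r r2408 (@Lb.r r390 (@Lb.d (nat_lit 105) (nat_lit 154) (nat_lit 406) (@Lb.t (@Lb.fm (nat_lit 9) t1453))))))))))))
noncomputable def l22482 : Lb := (@Lb.d (nat_lit 645) (nat_lit 17) (nat_lit 662) (@Lb.r r21 (@Lb.r r100 (@Lb.r r386 (@Lb.r r2387 (@Lb.g g7 (@Lb.g g6 (@Lb.g g5 (@Lb.d (nat_lit 0) (nat_lit 1) (nat_lit 65) (@Lb.t (@Lb.fm (nat_lit 9) t3104)))))))))))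
noncomputable def l22483 : Lb := (@Lb.d (nat_lit 548) (nat_lit 421) (nat_lit 613) (@Lb.r r2196 (@Lb.r r2403 (@Lb.r r594 (@Lb.r r2449 (@Lb.g g7 (@Lb.d (nat_lit 0) (nat_lit 0) (nat_lit 68) (@Lb.t (@Lb.fm (nat_lit 3) t2065)))))))))
noncomputable def l22484 : Lb := (@Lb.d (nat_lit 8) (nat_lit 258) (nat_lit 130) (@Lb.g g9 (@Lb.g g10 (@Lb.g g11 (@Lb.r r614 (@Lb.r r404 (@Lb.r r683 (@Lb.r r673 (@Lb.d (nat_lit 9) (nat_lit 149) (nat_lit 8) (@Lb.t (@Lb.fm (nat_lit 9) t51)))))))))))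
noncomputable def l22485 : Lb := (@Lb.r r21 (@Lb.d (nat_lit 1) (nat_lit 264) (nat_lit 130) (@Lb.g g8 (@Lb.g g10 (@Lb.g g11 (@Lb.r r1419 (@Lb.r r1321 (@Lb.r r1444 (@Lb.r r102 (@Lb.d (nat_lit 21) (nat_lit 73) (nat_lit 393) (@Lb.t (@Lb.fp (nat_lit 9) t51))))))))))))
noncomputable def l22486 : Lb := (@Lb.d (nat_lit 8) (nat_lit 290) (nat_lit 0) (@Lb.g g9 (@Lb.r r536 (@Lb.r r2715 (@Lb.r r2178 (@Lb.r r2385 (@Lb.d (nat_lit 528) (nat_lit 145) (nat_lit 677) (@Lb.t (@Lb.fm (nat_lit 3) t626)))))))))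
noncomputable def l22487 : Lb := (@Lb.r r323 (@Lb.d (nat_lit 8) (nat_lit 298) (nat_lit 1) (@Lb.g g9 (@Lb.g g10 (@Lb.r r1446 (@Lb.r r1624 (@Lb.r r1691 (@Lb.r r2385 (@Lb.d (nat_lit 520) (nat_lit 86) (nat_lit 678) (@Lb.fp (nat_lit 3) t125))))))))))
noncomputable def l22488 : Lb := (@Lb.d (nat_lit 658) (nat_lit 656) (nat_lit 657) (@Lb.r r82 (@Lb.r r1429 (@Lb.r r323 (@Lb.g g7 (@Lb.g g6 (@Lb.g g5 (@Lb.g g4 (@Lb.d (nat_lit 1) (nat_lit 18) (nat_lit 134) (@Lb.fp (nat_lit 9) t766))))))))))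
noncomputable def l22489 : Lb := (@Lb.d (nat_lit 36) (nat_lit 512) (nat_lit 73) (@Lb.g g8 (@Lb.g g9 (@Lb.g g10 (@Lb.g g11 (@Lb.r r419 (@Lb.r r2154 (@Lb.r r1049 (@Lb.r r2648 (@Lb.d (nat_lit 421) (nat_lit 42) (nat_lit 169) (@Lb.fm (nat_lit 9) t1039)))))))))))
noncomputable def l22490 : Lb := (@Lb.d (nat_lit 646) (nat_lit 518) (nat_lit 282) (@Lb.r r1301 (@Lb.r r2646 (@Lb.r r1707 (@Lb.g g7 (@Lb.g g6 (@Lb.g g5 (@Lb.g g4 (@Lb.d (nat_lit 8) (nat_lit 18) (nat_lit 134) (@Lb.fm (nat_lit 9) t309))))))))))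
noncomputable def l22491 : Lb := (@Lb.d (nat_lit 646) (nat_lit 6) (nat_lit 282) (@Lb.r r1301 (@Lb.r r2646 (@Lb.r r1707 (@Lb.g g7 (@Lb.g g6 (@Lb.g g5 (@Lb.g g4 (@Lb.d (nat_lit 8) (nat_lit 25) (nat_lit 133) (@Lb.fm (nat_lit 9) t309))))))))))
noncomputable def l22492 : Lb := (@Lb.r r664 (@Lb.r r154 (@Lb.r r2133 (@Lb.r r164 (@Lb.d (nat_lit 0) (nat_lit 0) (nat_lit 325) (@Lb.fp (nat_lit 1) t2428))))))
noncomputable def l22493 : Lb := (@Lb.d (nat_lit 2) (nat_lit 528) (nat_lit 585) (@Lb.g g8 (@Lb.g g9 (@Lb.g g10 (@Lb.g g7 (@Lb.r r425 (@Lb.r r1188 (@Lb.r r1158 (@Lb.d (nat_lit 34) (nat_lit 10) (nat_lit 65) (@Lb.fm (nat_lit 9) t400))))))))))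
noncomputable def l22494 : Lb := (@Lb.d (nat_lit 554) (nat_lit 289) (nat_lit 89) (@Lb.r r2217 (@Lb.r r2666 (@Lb.r r1623 (@Lb.g g6 (@Lb.g g5 (@Lb.g g4 (@Lb.d (nat_lit 1) (nat_lit 33) (nat_lit 2) (@Lb.t (@Lb.fp (nat_lit 9) t1260))))))))))
noncomputable def l22495 : Lb := (@Lb.g g9 (@Lb.r r89 (@Lb.r r1126 (@Lb.r r24 (@Lb.d (nat_lit 576) (nat_lit 0) (nat_lit 528) (@Lb.t (@Lb.fm (nat_lit 3) t3993)))))))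
noncomputable def l22496 : Lb := (@Lb.d (nat_lit 8) (nat_lit 514) (nat_lit 0) (@Lb.g g9 (@Lb.r r1126 (@Lb.r r24 (@Lb.d (nat_lit 353) (nat_lit 2) (nat_lit 528) (@Lb.t (@Lb.fm (nat_lit 3) t49)))))))
noncomputable def l22497 : Lb := (@Lb.d (nat_lit 0) (nat_lit 528) (nat_lit 73) (@Lb.g g9 (@Lb.g g10 (@Lb.g g11 (@Lb.r r1571 (@Lb.r r161 (@Lb.r r2466 (@Lb.r r145 (@Lb.d (nat_lit 0) (nat_lit 161) (nat_lit 386) (@Lb.t (@Lb.fp (nat_lit 9) t4441)))))))))))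
noncomputable def l22498 : Lb := (@Lb.d (nat_lit 128) (nat_lit 514) (nat_lit 644) (@Lb.g g9 (@Lb.g g11 (@Lb.r r2178 (@Lb.r r2645 (@Lb.r r1416 (@Lb.d (nat_lit 265) (nat_lit 70) (nat_lit 128) (@Lb.fm (nat_lit 3) t2035))))))))
noncomputable def l22499 : Lb := (@Lb.d (nat_lit 133) (nat_lit 0) (nat_lit 130) (@Lb.g g8 (@Lb.g g9 (@Lb.g g10 (@Lb.g g11 (@Lb.r r419 (@Lb.r r1702 (@Lb.r r2337 (@Lb.r r1636 (@Lb.d (nat_lit 160) (nat_lit 22) (nat_lit 650) (@Lb.fp (nat_lit 9) t4442)))))))))))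
noncomputable def l22500 : Lb := (@Lb.d (nat_lit 2) (nat_lit 258) (nat_lit 130) (@Lb.g g8 (@Lb.g g9 (@Lb.g g10 (@Lb.g g11 (@Lb.r r427 (@Lb.r r536 (@Lb.r r405 (@Lb.r r86 (@Lb.r r164 (@Lb.d (nat_lit 98) (nat_lit 105) (nat_lit 88) (@Lb.fm (nat_lit 9) t3912))))))))))))
noncomputable def l22501 : Lb := (@Lb.d (nat_lit 389) (nat_lit 150) (nat_lit 594) (@Lb.r r2325 (@Lb.r r2390 (@Lb.r r2731 (@Lb.g g6 (@Lb.g g5 (@Lb.g g4 (@Lb.d (nat_lit 8) (nat_lit 2) (nat_lit 1) (@Lb.t (@Lb.fm (nat_lit 9) t578))))))))))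
noncomputable def l22502 : Lb := (@Lb.d (nat_lit 2) (nat_lit 514) (nat_lit 130) (@Lb.g g8 (@Lb.g g9 (@Lb.g g10 (@Lb.g g11 (@Lb.r r427 (@Lb.r r424 (@Lb.r r106 (@Lb.r r25 (@Lb.d (nat_lit 360) (nat_lit 2) (nat_lit 649) (@Lb.fm (nat_lit 9) t1306)))))))))))
noncomputable def l22503 : Lb := (@Lb.d (nat_lit 2) (nat_lit 2) (nat_lit 66) (@Lb.g g8 (@Lb.g g9 (@Lb.g g10 (@Lb.g g7 (@Lb.r r386 (@Lb.r r100 (@Lb.r r21 (@Lb.r r36 (@Lb.d (nat_lit 33) (nat_lit 90) (nat_lit 265) (@Lb.fp (nat_lit 9) t2432)))))))))))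
noncomputable def l22504 : Lb := (@Lb.d (nat_lit 133) (nat_lit 256) (nat_lit 130) (@Lb.g g8 (@Lb.g g9 (@Lb.g g10 (@Lb.g g11 (@Lb.r r419 (@Lb.r r1702 (@Lb.r r2337 (@Lb.r r1636 (@Lb.d (nat_lit 160) (nat_lit 17) (nat_lit 649) (@Lb.fp (nat_lit 9) t4443)))))))))))
noncomputable def l22505 : Lb := (@Lb.d (nat_lit 2) (nat_lit 258) (nat_lit 66) (@Lb.g g8 (@Lb.g g9 (@Lb.g g10 (@Lb.g g7 (@Lb.r r386 (@Lb.r r104 (@Lb.r r25 (@Lb.d (nat_lit 24) (nat_lit 84) (nat_lit 265) (@Lb.fm (nat_lit 9) t845))))))))))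
noncomputable def l22506 : Lb := (@Lb.d (nat_lit 2) (nat_lit 258) (nat_lit 66) (@Lb.g g8 (@Lb.g g9 (@Lb.g g10 (@Lb.g g7 (@Lb.r r2473 (@Lb.r r2468 (@Lb.r r2438 (@Lb.d (nat_lit 162) (nat_lit 10) (nat_lit 297) (@Lb.fm (nat_lit 9) t939))))))))))
noncomputable def l22507 : Lb := (@Lb.d (nat_lit 5) (nat_lit 264) (nat_lit 130) (@Lb.g g4 (@Lb.g g10 (@Lb.g g11 (@Lb.r r387 (@Lb.d (nat_lit 6) (nat_lit 64) (nat_lit 137) (@Lb.t (@Lb.fp (nat_lit 9) t51))))))))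
noncomputable def l22508 : Lb := (@Lb.g g5 (@Lb.r r402 (@Lb.r r2436 (@Lb.d (nat_lit 0) (nat_lit 384) (nat_lit 613) (@Lb.t (@Lb.fp (nat_lit 3) t4032))))))
noncomputable def l22509 : Lb := (@Lb.d (nat_lit 4) (nat_lit 1) (nat_lit 66) (@Lb.g g5 (@Lb.g g10 (@Lb.g g11 (@Lb.r r2587 (@Lb.r r386 (@Lb.r r24 (@Lb.d (nat_lit 130) (nat_lit 1) (nat_lit 329) (@Lb.t (@Lb.fm (nat_lit 9) t396))))))))))
noncomputable def l22510 : Lb := (@Lb.r r355 (@Lb.d (nat_lit 9) (nat_lit 10) (nat_lit 34) (@Lb.g g8 (@Lb.g g9 (@Lb.g g10 (@Lb.r r2627 (@Lb.r r345 (@Lb.d (nat_lit 169) (nat_lit 98) (nat_lit 658) (@Lb.t (@Lb.fp (nat_lit 9) t749))))))))))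
noncomputable def l22511 : Lb := (@Lb.d (nat_lit 2) (nat_lit 290) (nat_lit 130) (@Lb.g g8 (@Lb.g g9 (@Lb.g g10 (@Lb.g g11 (@Lb.r r1443 (@Lb.r r1177 (@Lb.r r2650 (@Lb.d (nat_lit 164) (nat_lit 149) (nat_lit 261) (@Lb.fp (nat_lit 9) t2455))))))))))
noncomputable def l22512 : Lb := (@Lb.d (nat_lit 2) (nat_lit 514) (nat_lit 74) (@Lb.g g8 (@Lb.g g9 (@Lb.g g10 (@Lb.g g11 (@Lb.r r427 (@Lb.r r1177 (@Lb.r r594 (@Lb.d (nat_lit 657) (nat_lit 85) (nat_lit 293) (@Lb.fp (nat_lit 9) t4444))))))))))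
noncomputable def l22513 : Lb := (@Lb.r r355 (@Lb.d (nat_lit 2) (nat_lit 520) (nat_lit 34) (@Lb.g g8 (@Lb.g g9 (@Lb.g g10 (@Lb.r r2627 (@Lb.r r345 (@Lb.d (nat_lit 169) (nat_lit 98) (nat_lit 658) (@Lb.t (@Lb.fp (nat_lit 9) t749))))))))))
noncomputable def l22514 : Lb := (@Lb.d (nat_lit 390) (nat_lit 128) (nat_lit 336) (@Lb.r r101 (@Lb.r r24 (@Lb.r r2394 (@Lb.g g7 (@Lb.g g6 (@Lb.g g5 (@Lb.d (nat_lit 64) (nat_lit 0) (nat_lit 577) (@Lb.t (@Lb.fp (nat_lit 9) t3303))))))))))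
noncomputable def l22515 : Lb := (@Lb.d (nat_lit 2) (nat_lit 9) (nat_lit 73) (@Lb.g g8 (@Lb.g g9 (@Lb.g g10 (@Lb.g g11 (@Lb.r r387 (@Lb.r r2154 (@Lb.r r2585 (@Lb.d (nat_lit 329) (nat_lit 20) (nat_lit 325) (@Lb.fp (nat_lit 9) t475))))))))))
noncomputable def l22516 : Lb := (@Lb.d (nat_lit 2) (nat_lit 294) (nat_lit 128) (@Lb.g g8 (@Lb.g g9 (@Lb.g g10 (@Lb.g g11 (@Lb.r r1699 (@Lb.r r660 (@Lb.r r1190 (@Lb.r r2577 (@Lb.d (nat_lit 665) (nat_lit 144) (nat_lit 585) (@Lb.fp (nat_lit 9) t472)))))))))))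
noncomputable def l22517 : Lb := (@Lb.d (nat_lit 5) (nat_lit 321) (nat_lit 129) (@Lb.r r24 (@Lb.r r402 (@Lb.r r97 (@Lb.g g11 (@Lb.g g6 (@Lb.g g5 (@Lb.d (nat_lit 0) (nat_lit 1) (nat_lit 0) (@Lb.t (@Lb.fp (nat_lit 9) t374))))))))))
noncomputable def l22518 : Lb := (@Lb.d (nat_lit 298) (nat_lit 596) (nat_lit 65) (@Lb.r r657 (@Lb.r r2470 (@Lb.r r1096 (@Lb.r r1367 (@Lb.g g7 (@Lb.g g6 (@Lb.g g5 (@Lb.d (nat_lit 0) (nat_lit 4) (nat_lit 65) (@Lb.t (@Lb.fp (nat_lit 9) t1556)))))))))))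
noncomputable def l22519 : Lb := (@Lb.d (nat_lit 2) (nat_lit 38) (nat_lit 5) (@Lb.g g8 (@Lb.g g9 (@Lb.g g10 (@Lb.g g11 (@Lb.r r1699 (@Lb.r r660 (@Lb.r r1190 (@Lb.r r2577 (@Lb.d (nat_lit 665) (nat_lit 144) (nat_lit 585) (@Lb.fp (nat_lit 9) t472)))))))))))
noncomputable def l22520 : Lb := (@Lb.d (nat_lit 129) (nat_lit 514) (nat_lit 0) (@Lb.g g8 (@Lb.g g9 (@Lb.r r394 (@Lb.r r2647 (@Lb.r r1313 (@Lb.r r152 (@Lb.d (nat_lit 26) (nat_lit 134) (nat_lit 385) (@Lb.fm (nat_lit 3) t119)))))))))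
noncomputable def l22521 : Lb := (@Lb.d (nat_lit 5) (nat_lit 64) (nat_lit 8) (@Lb.r r24 (@Lb.r r1426 (@Lb.g g11 (@Lb.g g9 (@Lb.d (nat_lit 0) (nat_lit 74) (nat_lit 384) (@Lb.r r578 (@Lb.fm (nat_lit 3) t749))))))))
noncomputable def l22522 : Lb := (@Lb.r r323 (@Lb.d (nat_lit 166) (nat_lit 0) (nat_lit 2) (@Lb.g g8 (@Lb.g g9 (@Lb.g g10 (@Lb.r r2457 (@Lb.r r1319 (@Lb.r r1604 (@Lb.r r1098 (@Lb.d (nat_lit 337) (nat_lit 138) (nat_lit 136) (@Lb.t (@Lb.fm (nat_lit 9) t3480))))))))))))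
noncomputable def l22523 : Lb := (@Lb.r r82 (@Lb.d (nat_lit 8) (nat_lit 258) (nat_lit 128) (@Lb.g g8 (@Lb.g g9 (@Lb.g g11 (@Lb.r r295 (@Lb.r r618 (@Lb.r r357 (@Lb.r r520 (@Lb.d (nat_lit 88) (nat_lit 160) (nat_lit 388) (@Lb.t (@Lb.fm (nat_lit 9) t4445))))))))))))
noncomputable def l22524 : Lb := (@Lb.d (nat_lit 129) (nat_lit 4) (nat_lit 128) (@Lb.g g8 (@Lb.g g9 (@Lb.g g10 (@Lb.g g11 (@Lb.r r1706 (@Lb.r r1411 (@Lb.r r1177 (@Lb.r r1156 (@Lb.d (nat_lit 290) (nat_lit 90) (nat_lit 665) (@Lb.fm (nat_lit 9) t995)))))))))))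
noncomputable def l22525 : Lb := (@Lb.d (nat_lit 148) (nat_lit 276) (nat_lit 66) (@Lb.r r273 (@Lb.r r338 (@Lb.r r679 (@Lb.g g7 (@Lb.g g6 (@Lb.g g5 (@Lb.g g8 (@Lb.d (nat_lit 10) (nat_lit 24) (nat_lit 74) (@Lb.fp (nat_lit 9) t35))))))))))
noncomputable def l22526 : Lb := (@Lb.d (nat_lit 0) (nat_lit 257) (nat_lit 130) (@Lb.g g9 (@Lb.g g10 (@Lb.g g11 (@Lb.r r1371 (@Lb.r r386 (@Lb.r r1684 (@Lb.r r345 (@Lb.d (nat_lit 514) (nat_lit 66) (nat_lit 170) (@Lb.t (@Lb.fp (nat_lit 9) t4446)))))))))))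
noncomputable def l22527 : Lb := (@Lb.r r82 (@Lb.d (nat_lit 8) (nat_lit 514) (nat_lit 128) (@Lb.g g8 (@Lb.g g9 (@Lb.g g11 (@Lb.r r295 (@Lb.r r618 (@Lb.r r357 (@Lb.r r520 (@Lb.d (nat_lit 88) (nat_lit 170) (nat_lit 390) (@Lb.t (@Lb.fm (nat_lit 9) t4445))))))))))))
noncomputable def l22528 : Lb := (@Lb.d (nat_lit 134) (nat_lit 261) (nat_lit 128) (@Lb.g g8 (@Lb.g g9 (@Lb.g g10 (@Lb.g g11 (@Lb.r r1706 (@Lb.r r1411 (@Lb.r r1177 (@Lb.r r1156 (@Lb.d (nat_lit 288) (nat_lit 90) (nat_lit 665) (@Lb.fm (nat_lit 9) t4447)))))))))))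
noncomputable def l22529 : Lb := (@Lb.r r70 (@Lb.r r263 (@Lb.d (nat_lit 5) (nat_lit 0) (nat_lit 0) (@Lb.g g8 (@Lb.g g9 (@Lb.r r299 (@Lb.r r106 (@Lb.r r37 (@Lb.r r40 (@Lb.d (nat_lit 6) (nat_lit 9) (nat_lit 2) (@Lb.fm (nat_lit 3) t4448)))))))))))
noncomputable def l22530 : Lb := (@Lb.d (nat_lit 130) (nat_lit 516) (nat_lit 128) (@Lb.g g8 (@Lb.g g9 (@Lb.g g10 (@Lb.g g11 (@Lb.r r2389 (@Lb.r r1707 (@Lb.r r362 (@Lb.r r1316 (@Lb.d (nat_lit 681) (nat_lit 162) (nat_lit 601) (@Lb.fm (nat_lit 9) t4449)))))))))))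
noncomputable def l22531 : Lb := (@Lb.g g4 (@Lb.r r1049 (@Lb.r r24 (@Lb.d (nat_lit 518) (nat_lit 1) (nat_lit 0) (@Lb.t (@Lb.fp (nat_lit 3) t2))))))
noncomputable def l22532 : Lb := (@Lb.d (nat_lit 9) (nat_lit 0) (nat_lit 0) (@Lb.g g8 (@Lb.g g10 (@Lb.r r101 (@Lb.r r1172 (@Lb.d (nat_lit 294) (nat_lit 69) (nat_lit 17) (@Lb.fp (nat_lit 3) t743)))))))
noncomputable def l22533 : Lb := (@Lb.g g9 (@Lb.g g10 (@Lb.r r149 (@Lb.r r1124 (@Lb.d (nat_lit 256) (nat_lit 522) (nat_lit 34) (@Lb.fm (nat_lit 3) t743))))))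
noncomputable def l22534 : Lb := (@Lb.d (nat_lit 272) (nat_lit 522) (nat_lit 386) (@Lb.r r2324 (@Lb.r r2667 (@Lb.r r617 (@Lb.r r548 (@Lb.g g7 (@Lb.g g10 (@Lb.g g5 (@Lb.g g4 (@Lb.d (nat_lit 2) (nat_lit 2) (nat_lit 81) (@Lb.fm (nat_lit 9) t4293)))))))))))
noncomputable def l22535 : Lb := (@Lb.d (nat_lit 132) (nat_lit 594) (nat_lit 1) (@Lb.r r1096 (@Lb.r r1313 (@Lb.r r603 (@Lb.g g6 (@Lb.g g5 (@Lb.d (nat_lit 16) (nat_lit 16) (nat_lit 1) (@Lb.r r387 (@Lb.fp (nat_lit 3) t68)))))))))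
noncomputable def l22536 : Lb := (@Lb.d (nat_lit 86) (nat_lit 345) (nat_lit 41) (@Lb.r r1368 (@Lb.r r2471 (@Lb.r r405 (@Lb.r r2402 (@Lb.g g7 (@Lb.g g4 (@Lb.d (nat_lit 16) (nat_lit 0) (nat_lit 128) (@Lb.fp (nat_lit 3) t4027)))))))))
noncomputable def l22537 : Lb := (@Lb.r r609 (@Lb.r r2659 (@Lb.r r338 (@Lb.r r2705 (@Lb.r r24 (@Lb.d (nat_lit 10) (nat_lit 386) (nat_lit 0) (@Lb.fm (nat_lit 1) t1222)))))))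
noncomputable def l22538 : Lb := (@Lb.d (nat_lit 545) (nat_lit 512) (nat_lit 0) (@Lb.g g8 (@Lb.r r609 (@Lb.r r2659 (@Lb.r r338 (@Lb.r r2705 (@Lb.d (nat_lit 9) (nat_lit 130) (nat_lit 0) (@Lb.t (@Lb.fp (nat_lit 3) t1222)))))))))
noncomputable def l22539 : Lb := (@Lb.d (nat_lit 2) (nat_lit 512) (nat_lit 130) (@Lb.g g8 (@Lb.g g9 (@Lb.g g10 (@Lb.g g11 (@Lb.r r419 (@Lb.r r2180 (@Lb.r r2438 (@Lb.r r1121 (@Lb.d (nat_lit 617) (nat_lit 66) (nat_lit 154) (@Lb.fp (nat_lit 9) t790)))))))))))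
noncomputable def l22540 : Lb := (@Lb.d (nat_lit 0) (nat_lit 578) (nat_lit 0) (@Lb.g g9 (@Lb.d (nat_lit 10) (nat_lit 128) (nat_lit 0) (@Lb.t (@Lb.fp (nat_lit 3) t2)))))
noncomputable def l22541 : Lb := (@Lb.d (nat_lit 2) (nat_lit 1) (nat_lit 0) (@Lb.g g8 (@Lb.g g9 (@Lb.r r168 (@Lb.r r41 (@Lb.r r2084 (@Lb.d (nat_lit 537) (nat_lit 69) (nat_lit 17) (@Lb.fm (nat_lit 3) t743))))))))
noncomputable def l22542 : Lb := (@Lb.d (nat_lit 266) (nat_lit 258) (nat_lit 32) (@Lb.r r134 (@Lb.r r328 (@Lb.r r407 (@Lb.r r609 (@Lb.g g11 (@Lb.g g6 (@Lb.fm (nat_lit 3) t334))))))))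
noncomputable def l22543 : Lb := (@Lb.g g5 (@Lb.d (nat_lit 290) (nat_lit 0) (nat_lit 34) (@Lb.t (@Lb.fm (nat_lit 3) t127))))
noncomputable def l22544 : Lb := (@Lb.d (nat_lit 8) (nat_lit 1) (nat_lit 0) (@Lb.g g9 (@Lb.r r2068 (@Lb.r r25 (@Lb.d (nat_lit 514) (nat_lit 0) (nat_lit 0) (@Lb.t (@Lb.fp (nat_lit 3) t2)))))))
noncomputable def l22545 : Lb := (@Lb.d (nat_lit 2) (nat_lit 514) (nat_lit 130) (@Lb.g g8 (@Lb.g g9 (@Lb.g g10 (@Lb.g g11 (@Lb.r r427 (@Lb.r r145 (@Lb.r r356 (@Lb.r r154 (@Lb.r r132 (@Lb.d (nat_lit 10) (nat_lit 9) (nat_lit 18) (@Lb.fm (nat_lit 9) t221))))))))))))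
noncomputable def l22546 : Lb := (@Lb.r r82 (@Lb.r r275 (@Lb.d (nat_lit 4) (nat_lit 273) (nat_lit 0) (@Lb.g g5 (@Lb.r r2651 (@Lb.r r386 (@Lb.r r24 (@Lb.d (nat_lit 32) (nat_lit 1) (nat_lit 17) (@Lb.t (@Lb.fp (nat_lit 3) t1061))))))))))
noncomputable def l22547 : Lb := (@Lb.d (nat_lit 128) (nat_lit 256) (nat_lit 644) (@Lb.g g9 (@Lb.g g11 (@Lb.r r2376 (@Lb.r r1158 (@Lb.r r1169 (@Lb.d (nat_lit 537) (nat_lit 2) (nat_lit 128) (@Lb.fm (nat_lit 3) t669))))))))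
noncomputable def l22548 : Lb := (@Lb.r r82 (@Lb.d (nat_lit 0) (nat_lit 385) (nat_lit 128) (@Lb.g g5 (@Lb.g g11 (@Lb.r r595 (@Lb.r r386 (@Lb.d (nat_lit 0) (nat_lit 64) (nat_lit 2) (@Lb.fp (nat_lit 3) t308))))))))
noncomputable def l22549 : Lb := (@Lb.d (nat_lit 1) (nat_lit 322) (nat_lit 130) (@Lb.g g8 (@Lb.g g9 (@Lb.g g10 (@Lb.g g11 (@Lb.r r419 (@Lb.r r386 (@Lb.r r2152 (@Lb.d (nat_lit 538) (nat_lit 164) (nat_lit 74) (@Lb.fp (nat_lit 9) t4450))))))))))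
noncomputable def l22550 : Lb := (@Lb.r r283 (@Lb.d (nat_lit 1) (nat_lit 258) (nat_lit 2) (@Lb.g g8 (@Lb.g g9 (@Lb.g g10 (@Lb.r r347 (@Lb.r r386 (@Lb.r r1129 (@Lb.r r2084 (@Lb.d (nat_lit 518) (nat_lit 129) (nat_lit 84) (@Lb.t (@Lb.fm (nat_lit 9) t31))))))))))))
noncomputable def l22551 : Lb := (@Lb.r r82 (@Lb.d (nat_lit 68) (nat_lit 32) (nat_lit 128) (@Lb.g g8 (@Lb.g g9 (@Lb.g g11 (@Lb.r r2579 (@Lb.r r1642 (@Lb.r r1561 (@Lb.r r20 (@Lb.d (nat_lit 513) (nat_lit 18) (nat_lit 640) (@Lb.t (@Lb.fp (nat_lit 9) t4451))))))))))))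
noncomputable def l22552 : Lb := (@Lb.r r283 (@Lb.d (nat_lit 1) (nat_lit 258) (nat_lit 2) (@Lb.g g8 (@Lb.g g9 (@Lb.g g10 (@Lb.r r1446 (@Lb.r r331 (@Lb.r r1425 (@Lb.r r584 (@Lb.d (nat_lit 145) (nat_lit 4) (nat_lit 680) (@Lb.t (@Lb.fm (nat_lit 9) t898))))))))))))
noncomputable def l22553 : Lb := (@Lb.d (nat_lit 132) (nat_lit 258) (nat_lit 130) (@Lb.g g8 (@Lb.g g9 (@Lb.g g10 (@Lb.g g11 (@Lb.r r347 (@Lb.r r386 (@Lb.r r1121 (@Lb.r r532 (@Lb.d (nat_lit 88) (nat_lit 9) (nat_lit 260) (@Lb.fp (nat_lit 9) t31)))))))))))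
noncomputable def l22554 : Lb := (@Lb.d (nat_lit 642) (nat_lit 2) (nat_lit 0) (@Lb.g g8 (@Lb.g g9 (@Lb.r r25 (@Lb.d (nat_lit 9) (nat_lit 10) (nat_lit 386) (@Lb.fm (nat_lit 3) t1726))))))
noncomputable def l22555 : Lb := (@Lb.d (nat_lit 410) (nat_lit 0) (nat_lit 9) (@Lb.g g8 (@Lb.g g10 (@Lb.g g11 (@Lb.r r2691 (@Lb.r r1634 (@Lb.d (nat_lit 9) (nat_lit 34) (nat_lit 648) (@Lb.t (@Lb.fp (nat_lit 9) t4452)))))))))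
noncomputable def l22556 : Lb := (@Lb.d (nat_lit 32) (nat_lit 66) (nat_lit 73) (@Lb.g g9 (@Lb.g g10 (@Lb.g g11 (@Lb.r r2467 (@Lb.r r88 (@Lb.r r422 (@Lb.d (nat_lit 344) (nat_lit 37) (nat_lit 137) (@Lb.t (@Lb.fm (nat_lit 9) t4453))))))))))
noncomputable def l22557 : Lb := (@Lb.r r323 (@Lb.d (nat_lit 0) (nat_lit 0) (nat_lit 33) (@Lb.g g10 (@Lb.r r579 (@Lb.r r33 (@Lb.r r36 (@Lb.d (nat_lit 0) (nat_lit 128) (nat_lit 168) (@Lb.t (@Lb.fp (nat_lit 3) t2)))))))))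
noncomputable def l22558 : Lb := (@Lb.d (nat_lit 0) (nat_lit 649) (nat_lit 72) (@Lb.g g5 (@Lb.g g10 (@Lb.g g11 (@Lb.r r2711 (@Lb.r r1384 (@Lb.r r2630 (@Lb.d (nat_lit 657) (nat_lit 165) (nat_lit 16) (@Lb.t (@Lb.fp (nat_lit 9) t1027))))))))))
noncomputable def l22559 : Lb := (@Lb.d (nat_lit 32) (nat_lit 160) (nat_lit 262) (@Lb.r r1113 (@Lb.r r408 (@Lb.r r330 (@Lb.r r2391 (@Lb.g g7 (@Lb.g g5 (@Lb.g g4 (@Lb.d (nat_lit 17) (nat_lit 5) (nat_lit 128) (@Lb.t (@Lb.fm (nat_lit 9) t1161)))))))))))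
noncomputable def l22560 : Lb := (@Lb.d (nat_lit 24) (nat_lit 518) (nat_lit 32) (@Lb.r r2584 (@Lb.r r2178 (@Lb.r r2587 (@Lb.r r401 (@Lb.g g7 (@Lb.g g4 (@Lb.d (nat_lit 5) (nat_lit 0) (nat_lit 64) (@Lb.fp (nat_lit 3) t219)))))))))
noncomputable def l22561 : Lb := (@Lb.d (nat_lit 5) (nat_lit 258) (nat_lit 32) (@Lb.r r323 (@Lb.g g6 (@Lb.d (nat_lit 0) (nat_lit 4) (nat_lit 17) (@Lb.r r387 (@Lb.t (@Lb.fm (nat_lit 3) t45)))))))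
noncomputable def l22562 : Lb := (@Lb.d (nat_lit 294) (nat_lit 641) (nat_lit 2) (@Lb.r r2584 (@Lb.r r2178 (@Lb.r r2587 (@Lb.r r401 (@Lb.g g7 (@Lb.g g4 (@Lb.d (nat_lit 0) (nat_lit 0) (nat_lit 64) (@Lb.fp (nat_lit 3) t219)))))))))
noncomputable def l22563 : Lb := (@Lb.d (nat_lit 24) (nat_lit 262) (nat_lit 101) (@Lb.r r2584 (@Lb.r r2178 (@Lb.r r2587 (@Lb.r r401 (@Lb.g g7 (@Lb.g g4 (@Lb.d (nat_lit 5) (nat_lit 0) (nat_lit 64) (@Lb.fp (nat_lit 3) t219)))))))))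
noncomputable def l22564 : Lb := (@Lb.d (nat_lit 518) (nat_lit 614) (nat_lit 548) (@Lb.r r24 (@Lb.r r1633 (@Lb.r r1643 (@Lb.g g7 (@Lb.g g10 (@Lb.g g5 (@Lb.g g4 (@Lb.d (nat_lit 8) (nat_lit 4) (nat_lit 82) (@Lb.fp (nat_lit 9) t820))))))))))
noncomputable def l22565 : Lb := (@Lb.d (nat_lit 1) (nat_lit 164) (nat_lit 598) (@Lb.r r101 (@Lb.g g4 (@Lb.d (nat_lit 6) (nat_lit 0) (nat_lit 0) (@Lb.t (@Lb.fp (nat_lit 3) t3305))))))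
noncomputable def l22566 : Lb := (@Lb.d (nat_lit 4) (nat_lit 261) (nat_lit 128) (@Lb.g g8 (@Lb.g g9 (@Lb.g g10 (@Lb.g g11 (@Lb.r r427 (@Lb.r r1096 (@Lb.r r2438 (@Lb.r r1697 (@Lb.d (nat_lit 617) (nat_lit 90) (nat_lit 546) (@Lb.fm (nat_lit 9) t1252)))))))))))
noncomputable def l22567 : Lb := (@Lb.d (nat_lit 4) (nat_lit 646) (nat_lit 17) (@Lb.r r2129 (@Lb.r r1190 (@Lb.r r2392 (@Lb.r r1703 (@Lb.g g7 (@Lb.g g6 (@Lb.g g5 (@Lb.d (nat_lit 0) (nat_lit 0) (nat_lit 65) (@Lb.t (@Lb.fm (nat_lit 9) t51)))))))))))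
noncomputable def l22568 : Lb := (@Lb.d (nat_lit 6) (nat_lit 134) (nat_lit 17) (@Lb.r r2129 (@Lb.r r1190 (@Lb.r r2392 (@Lb.r r1703 (@Lb.g g7 (@Lb.g g6 (@Lb.g g5 (@Lb.d (nat_lit 0) (nat_lit 0) (nat_lit 65) (@Lb.t (@Lb.fm (nat_lit 9) t51)))))))))))
noncomputable def l22569 : Lb := (@Lb.d (nat_lit 0) (nat_lit 258) (nat_lit 128) (@Lb.g g8 (@Lb.g g9 (@Lb.g g10 (@Lb.g g11 (@Lb.r r2467 (@Lb.r r401 (@Lb.r r82 (@Lb.r r2193 (@Lb.d (nat_lit 0) (nat_lit 137) (nat_lit 553) (@Lb.fp (nat_lit 9) t188)))))))))))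
noncomputable def l22570 : Lb := (@Lb.d (nat_lit 0) (nat_lit 2) (nat_lit 128) (@Lb.g g9 (@Lb.g g10 (@Lb.g g11 (@Lb.r r2467 (@Lb.r r297 (@Lb.r r1096 (@Lb.r r2150 (@Lb.d (nat_lit 533) (nat_lit 154) (nat_lit 132) (@Lb.t (@Lb.fm (nat_lit 9) t219)))))))))))
noncomputable def l22571 : Lb := (@Lb.d (nat_lit 2) (nat_lit 70) (nat_lit 0) (@Lb.g g8 (@Lb.g g5 (@Lb.r r402 (@Lb.d (nat_lit 2) (nat_lit 165) (nat_lit 394) (@Lb.fm (nat_lit 3) t652))))))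
noncomputable def l22572 : Lb := (@Lb.d (nat_lit 0) (nat_lit 266) (nat_lit 0) (@Lb.g g9 (@Lb.g g7 (@Lb.r r2138 (@Lb.r r149 (@Lb.d (nat_lit 36) (nat_lit 10) (nat_lit 102) (@Lb.fp (nat_lit 3) t1514)))))))
noncomputable def l22573 : Lb := (@Lb.r r21 (@Lb.r r70 (@Lb.r r263 (@Lb.d (nat_lit 329) (nat_lit 0) (nat_lit 0) (@Lb.g g4 (@Lb.r r2631 (@Lb.r r2434 (@Lb.r r145 (@Lb.d (nat_lit 8) (nat_lit 68) (nat_lit 16) (@Lb.t (@Lb.fm (nat_lit 3) t512)))))))))))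
noncomputable def l22574 : Lb := (@Lb.d (nat_lit 145) (nat_lit 258) (nat_lit 128) (@Lb.g g8 (@Lb.g g9 (@Lb.g g10 (@Lb.g g11 (@Lb.r r683 (@Lb.r r2410 (@Lb.r r1561 (@Lb.r r1540 (@Lb.d (nat_lit 388) (nat_lit 89) (nat_lit 133) (@Lb.fm (nat_lit 9) t764)))))))))))
noncomputable def l22575 : Lb := (@Lb.d (nat_lit 38) (nat_lit 256) (nat_lit 129) (@Lb.g g8 (@Lb.g g9 (@Lb.g g6 (@Lb.g g11 (@Lb.r r1643 (@Lb.r r1640 (@Lb.r r25 (@Lb.d (nat_lit 514) (nat_lit 154) (nat_lit 648) (@Lb.fm (nat_lit 9) t1326))))))))))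
noncomputable def l22576 : Lb := (@Lb.d (nat_lit 145) (nat_lit 514) (nat_lit 74) (@Lb.g g8 (@Lb.g g9 (@Lb.g g10 (@Lb.g g11 (@Lb.r r683 (@Lb.r r2410 (@Lb.r r1561 (@Lb.r r1540 (@Lb.d (nat_lit 388) (nat_lit 89) (nat_lit 133) (@Lb.fm (nat_lit 9) t764)))))))))))
noncomputable def l22577 : Lb := (@Lb.r r21 (@Lb.r r70 (@Lb.d (nat_lit 513) (nat_lit 0) (nat_lit 0) (@Lb.g g4 (@Lb.g g7 (@Lb.r r74 (@Lb.r r25 (@Lb.d (nat_lit 256) (nat_lit 0) (nat_lit 69) (@Lb.fm (nat_lit 3) t647)))))))))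
noncomputable def l22578 : Lb := (@Lb.r r664 (@Lb.r r154 (@Lb.r r2133 (@Lb.r r164 (@Lb.d (nat_lit 0) (nat_lit 256) (nat_lit 261) (@Lb.fp (nat_lit 1) t2428))))))
noncomputable def l22579 : Lb := (@Lb.g g7 (@Lb.r r664 (@Lb.r r154 (@Lb.r r2133 (@Lb.r r164 (@Lb.d (nat_lit 0) (nat_lit 0) (nat_lit 325) (@Lb.t (@Lb.fm (nat_lit 3) t2428))))))))
noncomputable def l22580 : Lb := (@Lb.d (nat_lit 406) (nat_lit 658) (nat_lit 145) (@Lb.r r1604 (@Lb.r r1621 (@Lb.r r1706 (@Lb.g g11 (@Lb.g g6 (@Lb.g g5 (@Lb.g g4 (@Lb.d (nat_lit 1) (nat_lit 6) (nat_lit 129) (@Lb.fp (nat_lit 9) t61))))))))))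
noncomputable def l22581 : Lb := (@Lb.r r82 (@Lb.d (nat_lit 5) (nat_lit 546) (nat_lit 64) (@Lb.g g8 (@Lb.g g9 (@Lb.g g11 (@Lb.r r1571 (@Lb.r r2152 (@Lb.r r2438 (@Lb.r r145 (@Lb.d (nat_lit 0) (nat_lit 16) (nat_lit 152) (@Lb.t (@Lb.fp (nat_lit 9) t2774))))))))))))
noncomputable def l22582 : Lb := (@Lb.d (nat_lit 594) (nat_lit 512) (nat_lit 680) (@Lb.r r24 (@Lb.r r661 (@Lb.r r2466 (@Lb.g g11 (@Lb.g g5 (@Lb.d (nat_lit 0) (nat_lit 34) (nat_lit 324) (@Lb.r r578 (@Lb.fp (nat_lit 3) t719)))))))))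
noncomputable def l22583 : Lb := (@Lb.d (nat_lit 2) (nat_lit 545) (nat_lit 66) (@Lb.g g8 (@Lb.g g9 (@Lb.g g10 (@Lb.g g11 (@Lb.r r2411 (@Lb.r r386 (@Lb.r r1705 (@Lb.r r1124 (@Lb.d (nat_lit 329) (nat_lit 149) (nat_lit 326) (@Lb.fp (nat_lit 9) t4454)))))))))))
noncomputable def l22584 : Lb := (@Lb.r r21 (@Lb.d (nat_lit 32) (nat_lit 0) (nat_lit 1) (@Lb.g g8 (@Lb.g g10 (@Lb.r r1178 (@Lb.r r97 (@Lb.r r276 (@Lb.d (nat_lit 264) (nat_lit 98) (nat_lit 0) (@Lb.fm (nat_lit 3) t722)))))))))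
noncomputable def l22585 : Lb := (@Lb.d (nat_lit 16) (nat_lit 2) (nat_lit 74) (@Lb.g g8 (@Lb.g g9 (@Lb.g g10 (@Lb.g g11 (@Lb.r r1382 (@Lb.r r404 (@Lb.r r2457 (@Lb.r r1319 (@Lb.r r2564 (@Lb.d (nat_lit 354) (nat_lit 168) (nat_lit 617) (@Lb.fp (nat_lit 9) t1505))))))))))))
noncomputable def l22586 : Lb := (@Lb.d (nat_lit 17) (nat_lit 2) (nat_lit 74) (@Lb.g g8 (@Lb.g g9 (@Lb.g g10 (@Lb.g g11 (@Lb.r r1382 (@Lb.r r404 (@Lb.r r2457 (@Lb.r r1319 (@Lb.r r2564 (@Lb.d (nat_lit 361) (nat_lit 104) (nat_lit 617) (@Lb.fp (nat_lit 9) t1957))))))))))))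
noncomputable def l22587 : Lb := (@Lb.d (nat_lit 9) (nat_lit 33) (nat_lit 2) (@Lb.g g8 (@Lb.g g9 (@Lb.g g10 (@Lb.r r1194 (@Lb.r r2468 (@Lb.r r1627 (@Lb.r r1445 (@Lb.d (nat_lit 149) (nat_lit 36) (nat_lit 90) (@Lb.t (@Lb.fp (nat_lit 9) t49)))))))))))
noncomputable def l22588 : Lb := (@Lb.d (nat_lit 144) (nat_lit 9) (nat_lit 130) (@Lb.g g8 (@Lb.g g9 (@Lb.g g10 (@Lb.g g11 (@Lb.r r1706 (@Lb.r r1411 (@Lb.r r2201 (@Lb.r r2180 (@Lb.d (nat_lit 553) (nat_lit 153) (nat_lit 100) (@Lb.fm (nat_lit 9) t1755)))))))))))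
noncomputable def l22589 : Lb := (@Lb.r r24 (@Lb.r r101 (@Lb.d (nat_lit 10) (nat_lit 90) (nat_lit 266) (@Lb.fp (nat_lit 1) t2432))))
noncomputable def l22590 : Lb := (@Lb.d (nat_lit 0) (nat_lit 266) (nat_lit 130) (@Lb.g g5 (@Lb.g g10 (@Lb.g g11 (@Lb.r r1419 (@Lb.d (nat_lit 402) (nat_lit 0) (nat_lit 425) (@Lb.t (@Lb.fp (nat_lit 9) t4455))))))))
noncomputable def l22591 : Lb := (@Lb.d (nat_lit 1) (nat_lit 2) (nat_lit 130) (@Lb.g g8 (@Lb.g g9 (@Lb.g g10 (@Lb.g g11 (@Lb.r r1130 (@Lb.r r356 (@Lb.r r411 (@Lb.r r1045 (@Lb.r r2084 (@Lb.d (nat_lit 614) (nat_lit 154) (nat_lit 601) (@Lb.fp (nat_lit 9) t4456))))))))))))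
noncomputable def l22592 : Lb := (@Lb.d (nat_lit 32) (nat_lit 2) (nat_lit 73) (@Lb.g g9 (@Lb.g g10 (@Lb.g g11 (@Lb.r r2709 (@Lb.r r1380 (@Lb.r r2715 (@Lb.r r2634 (@Lb.d (nat_lit 358) (nat_lit 74) (nat_lit 257) (@Lb.t (@Lb.fp (nat_lit 9) t1914)))))))))))
noncomputable def l22593 : Lb := (@Lb.r r326 (@Lb.d (nat_lit 389) (nat_lit 512) (nat_lit 128) (@Lb.g g4 (@Lb.g g9 (@Lb.g g11 (@Lb.r r549 (@Lb.r r1315 (@Lb.r r2626 (@Lb.d (nat_lit 1) (nat_lit 106) (nat_lit 322) (@Lb.t (@Lb.fm (nat_lit 9) t211)))))))))))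
noncomputable def l22594 : Lb := (@Lb.r r1045 (@Lb.d (nat_lit 261) (nat_lit 512) (nat_lit 74) (@Lb.g g4 (@Lb.g g10 (@Lb.g g11 (@Lb.r r610 (@Lb.r r579 (@Lb.d (nat_lit 8) (nat_lit 96) (nat_lit 74) (@Lb.t (@Lb.fm (nat_lit 9) t51))))))))))
noncomputable def l22595 : Lb := (@Lb.g g8 (@Lb.g g7 (@Lb.r r1121 (@Lb.r r402 (@Lb.d (nat_lit 2) (nat_lit 5) (nat_lit 352) (@Lb.fp (nat_lit 3) t311))))))
noncomputable def l22596 : Lb := (@Lb.r r82 (@Lb.g g9 (@Lb.r r1575 (@Lb.r r386 (@Lb.r r2328 (@Lb.r r1637 (@Lb.d (nat_lit 265) (nat_lit 322) (nat_lit 16) (@Lb.t (@Lb.fp (nat_lit 3) t152)))))))))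
noncomputable def l22597 : Lb := (@Lb.r r82 (@Lb.d (nat_lit 0) (nat_lit 674) (nat_lit 0) (@Lb.g g9 (@Lb.r r539 (@Lb.r r1668 (@Lb.r r1158 (@Lb.d (nat_lit 2) (nat_lit 9) (nat_lit 5) (@Lb.t (@Lb.fp (nat_lit 3) t4457)))))))))
noncomputable def l22598 : Lb := (@Lb.r r1045 (@Lb.d (nat_lit 261) (nat_lit 0) (nat_lit 74) (@Lb.g g4 (@Lb.g g10 (@Lb.g g11 (@Lb.r r610 (@Lb.r r579 (@Lb.d (nat_lit 8) (nat_lit 96) (nat_lit 5) (@Lb.t (@Lb.fm (nat_lit 9) t51))))))))))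
noncomputable def l22599 : Lb := (@Lb.d (nat_lit 1) (nat_lit 4) (nat_lit 128) (@Lb.g g8 (@Lb.g g9 (@Lb.g g10 (@Lb.g g11 (@Lb.r r1130 (@Lb.r r356 (@Lb.r r411 (@Lb.r r1045 (@Lb.r r2084 (@Lb.d (nat_lit 609) (nat_lit 90) (nat_lit 601) (@Lb.fp (nat_lit 9) t4458))))))))))))
noncomputable def l22600 : Lb := (@Lb.r r82 (@Lb.d (nat_lit 4) (nat_lit 290) (nat_lit 64) (@Lb.g g8 (@Lb.g g9 (@Lb.g g11 (@Lb.r r1563 (@Lb.r r1129 (@Lb.r r2646 (@Lb.r r1416 (@Lb.d (nat_lit 545) (nat_lit 5) (nat_lit 137) (@Lb.t (@Lb.fp (nat_lit 9) t718))))))))))))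
noncomputable def l22601 : Lb := (@Lb.d (nat_lit 406) (nat_lit 82) (nat_lit 401) (@Lb.r r1604 (@Lb.r r1621 (@Lb.r r682 (@Lb.g g11 (@Lb.g g6 (@Lb.g g5 (@Lb.g g4 (@Lb.d (nat_lit 1) (nat_lit 1) (nat_lit 129) (@Lb.fp (nat_lit 9) t221))))))))))
noncomputable def l22602 : Lb := (@Lb.r r21 (@Lb.r r326 (@Lb.d (nat_lit 388) (nat_lit 512) (nat_lit 128) (@Lb.g g4 (@Lb.g g11 (@Lb.r r549 (@Lb.r r1315 (@Lb.r r2626 (@Lb.d (nat_lit 4) (nat_lit 170) (nat_lit 322) (@Lb.fm (nat_lit 3) t1106))))))))))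
noncomputable def l22603 : Lb := (@Lb.r r616 (@Lb.r r2665 (@Lb.r r2390 (@Lb.r r1188 (@Lb.d (nat_lit 0) (nat_lit 512) (nat_lit 512) (@Lb.fp (nat_lit 1) t322))))))
noncomputable def l22604 : Lb := (@Lb.d (nat_lit 9) (nat_lit 1) (nat_lit 0) (@Lb.g g8 (@Lb.g g9 (@Lb.r r2585 (@Lb.r r2580 (@Lb.d (nat_lit 644) (nat_lit 162) (nat_lit 576) (@Lb.fm (nat_lit 3) t121)))))))
noncomputable def l22605 : Lb := (@Lb.d (nat_lit 72) (nat_lit 33) (nat_lit 66) (@Lb.g g8 (@Lb.g g9 (@Lb.g g10 (@Lb.g g11 (@Lb.r r2459 (@Lb.r r420 (@Lb.r r1110 (@Lb.r r2193 (@Lb.r r36 (@Lb.d (nat_lit 33) (nat_lit 88) (nat_lit 390) (@Lb.fp (nat_lit 9) t2506))))))))))))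
noncomputable def l22606 : Lb := (@Lb.d (nat_lit 2) (nat_lit 514) (nat_lit 17) (@Lb.g g8 (@Lb.g g9 (@Lb.g g10 (@Lb.r r1579 (@Lb.r r2585 (@Lb.r r2564 (@Lb.d (nat_lit 649) (nat_lit 134) (nat_lit 402) (@Lb.t (@Lb.fp (nat_lit 9) t820))))))))))
noncomputable def l22607 : Lb := (@Lb.d (nat_lit 144) (nat_lit 2) (nat_lit 64) (@Lb.g g8 (@Lb.g g9 (@Lb.g g10 (@Lb.g g11 (@Lb.r r427 (@Lb.r r2154 (@Lb.r r292 (@Lb.r r21 (@Lb.r r36 (@Lb.d (nat_lit 361) (nat_lit 33) (nat_lit 596) (@Lb.fp (nat_lit 9) t1444))))))))))))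
noncomputable def l22608 : Lb := (@Lb.d (nat_lit 576) (nat_lit 257) (nat_lit 512) (@Lb.r r2329 (@Lb.r r2452 (@Lb.r r1702 (@Lb.r r595 (@Lb.g g7 (@Lb.g g6 (@Lb.g g5 (@Lb.d (nat_lit 0) (nat_lit 18) (nat_lit 129) (@Lb.t (@Lb.fp (nat_lit 9) t340)))))))))))
noncomputable def l22609 : Lb := (@Lb.r r82 (@Lb.d (nat_lit 32) (nat_lit 2) (nat_lit 64) (@Lb.g g8 (@Lb.g g9 (@Lb.g g7 (@Lb.r r2409 (@Lb.r r150 (@Lb.r r100 (@Lb.d (nat_lit 26) (nat_lit 90) (nat_lit 281) (@Lb.t (@Lb.fp (nat_lit 9) t2073)))))))))))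
noncomputable def l22610 : Lb := (@Lb.r r2311 (@Lb.r r664 (@Lb.r r154 (@Lb.r r2133 (@Lb.r r164 (@Lb.d (nat_lit 0) (nat_lit 256) (nat_lit 154) (@Lb.fp (nat_lit 1) t386)))))))
noncomputable def l22611 : Lb := (@Lb.d (nat_lit 128) (nat_lit 514) (nat_lit 130) (@Lb.g g8 (@Lb.g g9 (@Lb.g g10 (@Lb.g g11 (@Lb.r r683 (@Lb.r r1433 (@Lb.r r146 (@Lb.r r516 (@Lb.d (nat_lit 545) (nat_lit 105) (nat_lit 153) (@Lb.fp (nat_lit 9) t344)))))))))))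
noncomputable def l22612 : Lb := (@Lb.d (nat_lit 9) (nat_lit 514) (nat_lit 66) (@Lb.g g8 (@Lb.g g9 (@Lb.g g10 (@Lb.g g7 (@Lb.r r386 (@Lb.r r104 (@Lb.r r1129 (@Lb.r r1060 (@Lb.d (nat_lit 548) (nat_lit 128) (nat_lit 9) (@Lb.fp (nat_lit 9) t3034)))))))))))
noncomputable def l22613 : Lb := (@Lb.r r273 (@Lb.r r322 (@Lb.d (nat_lit 129) (nat_lit 256) (nat_lit 128) (@Lb.g g8 (@Lb.g g11 (@Lb.r r2596 (@Lb.r r101 (@Lb.r r146 (@Lb.d (nat_lit 610) (nat_lit 0) (nat_lit 410) (@Lb.fm (nat_lit 3) t4459))))))))))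
noncomputable def l22614 : Lb := (@Lb.r r21 (@Lb.d (nat_lit 33) (nat_lit 264) (nat_lit 161) (@Lb.g g8 (@Lb.g g6 (@Lb.g g11 (@Lb.r r2651 (@Lb.r r2453 (@Lb.r r1608 (@Lb.d (nat_lit 408) (nat_lit 38) (nat_lit 280) (@Lb.t (@Lb.fp (nat_lit 9) t1762)))))))))))
noncomputable def l22615 : Lb := (@Lb.d (nat_lit 160) (nat_lit 9) (nat_lit 128) (@Lb.g g8 (@Lb.g g9 (@Lb.g g10 (@Lb.g g11 (@Lb.r r2467 (@Lb.r r1177 (@Lb.r r1176 (@Lb.r r1434 (@Lb.d (nat_lit 665) (nat_lit 21) (nat_lit 100) (@Lb.fp (nat_lit 9) t4460)))))))))))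
noncomputable def l22616 : Lb := (@Lb.d (nat_lit 146) (nat_lit 514) (nat_lit 128) (@Lb.g g8 (@Lb.g g9 (@Lb.g g10 (@Lb.g g11 (@Lb.r r404 (@Lb.r r2395 (@Lb.r r2714 (@Lb.r r85 (@Lb.r r164 (@Lb.d (nat_lit 514) (nat_lit 105) (nat_lit 82) (@Lb.fm (nat_lit 9) t3090))))))))))))
noncomputable def l22617 : Lb := (@Lb.r r289 (@Lb.r r2651 (@Lb.r r1414 (@Lb.r r2564 (@Lb.d (nat_lit 154) (nat_lit 410) (nat_lit 682) (@Lb.fm (nat_lit 1) t4164))))))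
noncomputable def l22618 : Lb := (@Lb.d (nat_lit 290) (nat_lit 517) (nat_lit 72) (@Lb.r r1114 (@Lb.r r1624 (@Lb.r r405 (@Lb.g g11 (@Lb.g g6 (@Lb.d (nat_lit 64) (nat_lit 4) (nat_lit 513) (@Lb.fm (nat_lit 3) t188))))))))
noncomputable def l22619 : Lb := (@Lb.d (nat_lit 8) (nat_lit 522) (nat_lit 0) (@Lb.g g8 (@Lb.g g9 (@Lb.r r2667 (@Lb.r r82 (@Lb.r r161 (@Lb.r r2648 (@Lb.d (nat_lit 618) (nat_lit 41) (nat_lit 420) (@Lb.fp (nat_lit 3) t4461)))))))))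
noncomputable def l22620 : Lb := (@Lb.d (nat_lit 1) (nat_lit 0) (nat_lit 0) (@Lb.g g4 (@Lb.g g11 (@Lb.r r1547 (@Lb.d (nat_lit 641) (nat_lit 0) (nat_lit 384) (@Lb.fm (nat_lit 3) t1165))))))
noncomputable def l22621 : Lb := (@Lb.r r82 (@Lb.d (nat_lit 129) (nat_lit 514) (nat_lit 64) (@Lb.g g8 (@Lb.g g9 (@Lb.g g11 (@Lb.r r2475 (@Lb.r r386 (@Lb.r r36 (@Lb.r r1125 (@Lb.d (nat_lit 617) (nat_lit 69) (nat_lit 514) (@Lb.t (@Lb.fm (nat_lit 9) t2436))))))))))))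
noncomputable def l22622 : Lb := (@Lb.r r273 (@Lb.r r322 (@Lb.d (nat_lit 2) (nat_lit 0) (nat_lit 584) (@Lb.g g8 (@Lb.g g7 (@Lb.r r280 (@Lb.r r101 (@Lb.r r146 (@Lb.d (nat_lit 0) (nat_lit 16) (nat_lit 266) (@Lb.fm (nat_lit 3) t4462))))))))))
noncomputable def l22623 : Lb := (@Lb.d (nat_lit 17) (nat_lit 517) (nat_lit 130) (@Lb.r r1158 (@Lb.r r2132 (@Lb.r r425 (@Lb.g g11 (@Lb.g g6 (@Lb.g g4 (@Lb.d (nat_lit 1) (nat_lit 32) (nat_lit 262) (@Lb.r r529 (@Lb.t (@Lb.fm (nat_lit 9) t1445)))))))))))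
noncomputable def l22624 : Lb := (@Lb.r r323 (@Lb.d (nat_lit 33) (nat_lit 34) (nat_lit 2) (@Lb.g g8 (@Lb.g g9 (@Lb.g g10 (@Lb.r r595 (@Lb.r r2154 (@Lb.r r2660 (@Lb.r r101 (@Lb.d (nat_lit 153) (nat_lit 152) (nat_lit 580) (@Lb.t (@Lb.fm (nat_lit 9) t4463))))))))))))
noncomputable def l22625 : Lb := (@Lb.d (nat_lit 529) (nat_lit 678) (nat_lit 530) (@Lb.r r1362 (@Lb.r r423 (@Lb.r r600 (@Lb.g g6 (@Lb.g g5 (@Lb.d (nat_lit 16) (nat_lit 134) (nat_lit 2) (@Lb.r r387 (@Lb.fp (nat_lit 3) t98)))))))))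
noncomputable def l22626 : Lb := (@Lb.d (nat_lit 0) (nat_lit 1) (nat_lit 128) (@Lb.g g9 (@Lb.g g11 (@Lb.r r657 (@Lb.r r658 (@Lb.r r1419 (@Lb.r r1444 (@Lb.d (nat_lit 298) (nat_lit 70) (nat_lit 1) (@Lb.fp (nat_lit 3) t4464)))))))))
noncomputable def l22627 : Lb := (@Lb.d (nat_lit 2) (nat_lit 289) (nat_lit 9) (@Lb.g g8 (@Lb.g g9 (@Lb.g g10 (@Lb.g g11 (@Lb.r r2666 (@Lb.r r2664 (@Lb.r r2585 (@Lb.r r1435 (@Lb.d (nat_lit 665) (nat_lit 33) (nat_lit 65) (@Lb.fm (nat_lit 9) t98)))))))))))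
noncomputable def l22628 : Lb := (@Lb.d (nat_lit 657) (nat_lit 256) (nat_lit 390) (@Lb.r r24 (@Lb.r r101 (@Lb.r r386 (@Lb.g g11 (@Lb.g g6 (@Lb.g g5 (@Lb.g g4 (@Lb.d (nat_lit 0) (nat_lit 0) (nat_lit 1) (@Lb.fp (nat_lit 9) t475))))))))))
noncomputable def l22629 : Lb := (@Lb.d (nat_lit 0) (nat_lit 514) (nat_lit 130) (@Lb.g g8 (@Lb.g g9 (@Lb.g g10 (@Lb.g g11 (@Lb.r r427 (@Lb.r r420 (@Lb.r r102 (@Lb.r r97 (@Lb.r r36 (@Lb.d (nat_lit 9) (nat_lit 130) (nat_lit 138) (@Lb.fm (nat_lit 9) t51))))))))))))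
noncomputable def l22630 : Lb := (@Lb.d (nat_lit 330) (nat_lit 96) (nat_lit 384) (@Lb.r r8 (@Lb.r r2631 (@Lb.r r2442 (@Lb.g g5 (@Lb.d (nat_lit 8) (nat_lit 1) (nat_lit 0) (@Lb.t (@Lb.fp (nat_lit 3) t1575))))))))
noncomputable def l22631 : Lb := (@Lb.d (nat_lit 0) (nat_lit 536) (nat_lit 128) (@Lb.g g8 (@Lb.g g9 (@Lb.g g11 (@Lb.r r2707 (@Lb.r r1426 (@Lb.r r1617 (@Lb.d (nat_lit 0) (nat_lit 102) (nat_lit 522) (@Lb.t (@Lb.fm (nat_lit 9) t4465))))))))))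
noncomputable def l22632 : Lb := (@Lb.d (nat_lit 32) (nat_lit 512) (nat_lit 130) (@Lb.g g10 (@Lb.g g11 (@Lb.r r423 (@Lb.r r153 (@Lb.r r100 (@Lb.r r410 (@Lb.d (nat_lit 9) (nat_lit 26) (nat_lit 154) (@Lb.fp (nat_lit 3) t221)))))))))
noncomputable def l22633 : Lb := (@Lb.d (nat_lit 646) (nat_lit 598) (nat_lit 18) (@Lb.r r1301 (@Lb.r r1366 (@Lb.r r683 (@Lb.g g6 (@Lb.g g5 (@Lb.g g4 (@Lb.d (nat_lit 8) (nat_lit 5) (nat_lit 2) (@Lb.t (@Lb.fm (nat_lit 9) t578))))))))))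
noncomputable def l22634 : Lb := (@Lb.d (nat_lit 96) (nat_lit 2) (nat_lit 73) (@Lb.g g8 (@Lb.g g9 (@Lb.g g10 (@Lb.g g11 (@Lb.r r2691 (@Lb.r r1193 (@Lb.r r1642 (@Lb.r r1108 (@Lb.d (nat_lit 150) (nat_lit 102) (nat_lit 665) (@Lb.fp (nat_lit 9) t2528)))))))))))
noncomputable def l22635 : Lb := (@Lb.r r21 (@Lb.r r326 (@Lb.d (nat_lit 528) (nat_lit 512) (nat_lit 64) (@Lb.g g4 (@Lb.g g11 (@Lb.r r1543 (@Lb.r r2198 (@Lb.r r97 (@Lb.d (nat_lit 578) (nat_lit 130) (nat_lit 64) (@Lb.fm (nat_lit 3) t739))))))))))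
noncomputable def l22636 : Lb := (@Lb.r r21 (@Lb.d (nat_lit 65) (nat_lit 40) (nat_lit 74) (@Lb.g g8 (@Lb.g g10 (@Lb.g g11 (@Lb.r r2133 (@Lb.r r2440 (@Lb.r r359 (@Lb.r r2658 (@Lb.d (nat_lit 86) (nat_lit 162) (nat_lit 601) (@Lb.t (@Lb.fp (nat_lit 9) t722))))))))))))
noncomputable def l22637 : Lb := (@Lb.r r1291 (@Lb.d (nat_lit 514) (nat_lit 0) (nat_lit 0) (@Lb.g g8 (@Lb.t (@Lb.fp (nat_lit 3) t997)))))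
noncomputable def l22638 : Lb := (@Lb.r r580 (@Lb.d (nat_lit 0) (nat_lit 292) (nat_lit 386) (@Lb.g g9 (@Lb.g g10 (@Lb.g g11 (@Lb.r r1189 (@Lb.r r1634 (@Lb.r r72 (@Lb.d (nat_lit 550) (nat_lit 90) (nat_lit 602) (@Lb.t (@Lb.fm (nat_lit 9) t3787)))))))))))
noncomputable def l22639 : Lb := (@Lb.d (nat_lit 640) (nat_lit 426) (nat_lit 26) (@Lb.r r2325 (@Lb.r r1190 (@Lb.r r2392 (@Lb.r r1699 (@Lb.g g7 (@Lb.g g6 (@Lb.g g5 (@Lb.d (nat_lit 0) (nat_lit 25) (nat_lit 74) (@Lb.t (@Lb.fm (nat_lit 9) t171)))))))))))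
noncomputable def l22640 : Lb := (@Lb.d (nat_lit 16) (nat_lit 9) (nat_lit 1) (@Lb.g g8 (@Lb.g g9 (@Lb.g g10 (@Lb.r r675 (@Lb.r r2406 (@Lb.r r36 (@Lb.r r1637 (@Lb.d (nat_lit 417) (nat_lit 165) (nat_lit 342) (@Lb.t (@Lb.fm (nat_lit 9) t60)))))))))))
noncomputable def l22641 : Lb := (@Lb.d (nat_lit 657) (nat_lit 512) (nat_lit 256) (@Lb.r r24 (@Lb.r r101 (@Lb.g g10 (@Lb.t (@Lb.fp (nat_lit 3) t4466))))))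
noncomputable def l22642 : Lb := (@Lb.r r21 (@Lb.r r70 (@Lb.d (nat_lit 656) (nat_lit 256) (nat_lit 256) (@Lb.g g4 (@Lb.g g7 (@Lb.r r2454 (@Lb.r r97 (@Lb.d (nat_lit 4) (nat_lit 128) (nat_lit 320) (@Lb.fm (nat_lit 3) t1006)))))))))
noncomputable def l22643 : Lb := (@Lb.d (nat_lit 145) (nat_lit 256) (nat_lit 600) (@Lb.r r21 (@Lb.r r386 (@Lb.r r2375 (@Lb.g g6 (@Lb.g g4 (@Lb.d (nat_lit 256) (nat_lit 0) (nat_lit 1) (@Lb.r r267 (@Lb.r r25 (@Lb.fp (nat_lit 3) t3694))))))))))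
noncomputable def l22644 : Lb := (@Lb.r r21 (@Lb.r r70 (@Lb.d (nat_lit 656) (nat_lit 512) (nat_lit 256) (@Lb.g g4 (@Lb.g g7 (@Lb.r r2454 (@Lb.r r97 (@Lb.d (nat_lit 6) (nat_lit 128) (nat_lit 320) (@Lb.fm (nat_lit 3) t2301)))))))))
noncomputable def l22645 : Lb := (@Lb.d (nat_lit 0) (nat_lit 0) (nat_lit 128) (@Lb.g g11 (@Lb.r r2370 (@Lb.r r387 (@Lb.r r2341 (@Lb.r r24 (@Lb.d (nat_lit 514) (nat_lit 0) (nat_lit 41) (@Lb.t (@Lb.fp (nat_lit 3) t2027)))))))))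
noncomputable def l22646 : Lb := (@Lb.d (nat_lit 0) (nat_lit 256) (nat_lit 128) (@Lb.g g11 (@Lb.r r337 (@Lb.r r679 (@Lb.r r340 (@Lb.r r170 (@Lb.r r153 (@Lb.d (nat_lit 402) (nat_lit 90) (nat_lit 530) (@Lb.t (@Lb.fp (nat_lit 3) t3766))))))))))
noncomputable def l22647 : Lb := (@Lb.d (nat_lit 1) (nat_lit 0) (nat_lit 128) (@Lb.g g8 (@Lb.g g11 (@Lb.r r2731 (@Lb.r r81 (@Lb.r r162 (@Lb.r r145 (@Lb.r r2648 (@Lb.d (nat_lit 617) (nat_lit 37) (nat_lit 420) (@Lb.fp (nat_lit 3) t4461))))))))))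
noncomputable def l22648 : Lb := (@Lb.d (nat_lit 1) (nat_lit 512) (nat_lit 128) (@Lb.g g8 (@Lb.g g11 (@Lb.r r2731 (@Lb.r r81 (@Lb.r r162 (@Lb.r r145 (@Lb.r r2648 (@Lb.d (nat_lit 610) (nat_lit 38) (nat_lit 420) (@Lb.fp (nat_lit 3) t4461))))))))))
noncomputable def l22649 : Lb := (@Lb.d (nat_lit 34) (nat_lit 257) (nat_lit 130) (@Lb.g g8 (@Lb.g g9 (@Lb.g g10 (@Lb.g g11 (@Lb.r r2571 (@Lb.r r405 (@Lb.r r406 (@Lb.r r2596 (@Lb.d (nat_lit 292) (nat_lit 145) (nat_lit 17) (@Lb.fp (nat_lit 9) t2178)))))))))))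
noncomputable def l22650 : Lb := (@Lb.d (nat_lit 128) (nat_lit 288) (nat_lit 136) (@Lb.g g11 (@Lb.r r420 (@Lb.r r2469 (@Lb.r r1446 (@Lb.r r1367 (@Lb.d (nat_lit 149) (nat_lit 86) (nat_lit 150) (@Lb.t (@Lb.fp (nat_lit 3) t322)))))))))
noncomputable def l22651 : Lb := (@Lb.d (nat_lit 132) (nat_lit 514) (nat_lit 130) (@Lb.g g8 (@Lb.g g9 (@Lb.g g10 (@Lb.g g11 (@Lb.r r2714 (@Lb.r r1443 (@Lb.r r2201 (@Lb.r r1172 (@Lb.d (nat_lit 614) (nat_lit 21) (nat_lit 409) (@Lb.fm (nat_lit 9) t809)))))))))))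
noncomputable def l22652 : Lb := (@Lb.r r70 (@Lb.r r263 (@Lb.d (nat_lit 5) (nat_lit 517) (nat_lit 0) (@Lb.g g8 (@Lb.g g5 (@Lb.r r2403 (@Lb.r r1110 (@Lb.r r136 (@Lb.d (nat_lit 33) (nat_lit 1) (nat_lit 34) (@Lb.fm (nat_lit 3) t58))))))))))
noncomputable def l22653 : Lb := (@Lb.d (nat_lit 2) (nat_lit 521) (nat_lit 129) (@Lb.g g8 (@Lb.g g9 (@Lb.g g10 (@Lb.g g11 (@Lb.r r169 (@Lb.r r520 (@Lb.r r603 (@Lb.r r386 (@Lb.r r132 (@Lb.d (nat_lit 10) (nat_lit 73) (nat_lit 89) (@Lb.fp (nat_lit 9) t1900))))))))))))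
noncomputable def l22654 : Lb := (@Lb.d (nat_lit 0) (nat_lit 517) (nat_lit 136) (@Lb.g g5 (@Lb.g g11 (@Lb.r r2148 (@Lb.d (nat_lit 0) (nat_lit 86) (nat_lit 280) (@Lb.fp (nat_lit 3) t1174))))))
noncomputable def l22655 : Lb := (@Lb.d (nat_lit 146) (nat_lit 388) (nat_lit 362) (@Lb.r r1610 (@Lb.r r2667 (@Lb.r r661 (@Lb.g g7 (@Lb.g g6 (@Lb.g g8 (@Lb.d (nat_lit 353) (nat_lit 4) (nat_lit 64) (@Lb.r r25 (@Lb.t (@Lb.fp (nat_lit 9) t320)))))))))))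
noncomputable def l22656 : Lb := (@Lb.d (nat_lit 0) (nat_lit 514) (nat_lit 73) (@Lb.g g8 (@Lb.g g9 (@Lb.g g10 (@Lb.g g11 (@Lb.r r427 (@Lb.r r677 (@Lb.r r340 (@Lb.r r170 (@Lb.d (nat_lit 21) (nat_lit 8) (nat_lit 154) (@Lb.fp (nat_lit 9) t221)))))))))))
noncomputable def l22657 : Lb := (@Lb.d (nat_lit 0) (nat_lit 258) (nat_lit 73) (@Lb.g g8 (@Lb.g g9 (@Lb.g g10 (@Lb.g g11 (@Lb.r r427 (@Lb.r r677 (@Lb.r r340 (@Lb.r r170 (@Lb.d (nat_lit 21) (nat_lit 8) (nat_lit 16) (@Lb.fp (nat_lit 9) t221)))))))))))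
noncomputable def l22658 : Lb := (@Lb.d (nat_lit 2) (nat_lit 2) (nat_lit 73) (@Lb.g g8 (@Lb.g g9 (@Lb.g g10 (@Lb.g g11 (@Lb.r r427 (@Lb.r r677 (@Lb.r r340 (@Lb.r r170 (@Lb.d (nat_lit 21) (nat_lit 8) (nat_lit 154) (@Lb.fp (nat_lit 9) t221)))))))))))
noncomputable def l22659 : Lb := (@Lb.r r323 (@Lb.d (nat_lit 2) (nat_lit 258) (nat_lit 2) (@Lb.g g8 (@Lb.g g9 (@Lb.g g10 (@Lb.r r1687 (@Lb.r r2154 (@Lb.r r97 (@Lb.r r24 (@Lb.d (nat_lit 9) (nat_lit 2) (nat_lit 18) (@Lb.t (@Lb.fp (nat_lit 9) t61))))))))))))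
noncomputable def l22660 : Lb := (@Lb.d (nat_lit 2) (nat_lit 514) (nat_lit 130) (@Lb.g g8 (@Lb.g g9 (@Lb.g g10 (@Lb.g g11 (@Lb.r r2666 (@Lb.r r579 (@Lb.r r97 (@Lb.r r24 (@Lb.d (nat_lit 153) (nat_lit 2) (nat_lit 393) (@Lb.fm (nat_lit 9) t61)))))))))))
noncomputable def l22661 : Lb := (@Lb.d (nat_lit 292) (nat_lit 578) (nat_lit 68) (@Lb.r r1094 (@Lb.r r2440 (@Lb.r r1367 (@Lb.g g7 (@Lb.g g6 (@Lb.g g5 (@Lb.g g4 (@Lb.d (nat_lit 2) (nat_lit 129) (nat_lit 134) (@Lb.fm (nat_lit 9) t1161))))))))))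
noncomputable def l22662 : Lb := (@Lb.r r323 (@Lb.d (nat_lit 2) (nat_lit 514) (nat_lit 2) (@Lb.g g8 (@Lb.g g9 (@Lb.g g10 (@Lb.r r1687 (@Lb.r r2154 (@Lb.r r97 (@Lb.r r24 (@Lb.d (nat_lit 9) (nat_lit 9) (nat_lit 17) (@Lb.t (@Lb.fp (nat_lit 9) t61))))))))))))
noncomputable def l22663 : Lb := (@Lb.d (nat_lit 529) (nat_lit 5) (nat_lit 324) (@Lb.r r1158 (@Lb.r r2132 (@Lb.r r2345 (@Lb.r r2707 (@Lb.g g7 (@Lb.g g6 (@Lb.g g4 (@Lb.d (nat_lit 1) (nat_lit 4) (nat_lit 65) (@Lb.t (@Lb.fm (nat_lit 9) t4205)))))))))))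
noncomputable def l22664 : Lb := (@Lb.d (nat_lit 2) (nat_lit 258) (nat_lit 4) (@Lb.g g8 (@Lb.g g9 (@Lb.g g10 (@Lb.g g11 (@Lb.r r427 (@Lb.r r145 (@Lb.r r356 (@Lb.r r154 (@Lb.r r132 (@Lb.d (nat_lit 2) (nat_lit 10) (nat_lit 18) (@Lb.fm (nat_lit 9) t221))))))))))))
noncomputable def l22665 : Lb := (@Lb.d (nat_lit 1) (nat_lit 10) (nat_lit 1) (@Lb.g g8 (@Lb.g g9 (@Lb.g g10 (@Lb.r r1707 (@Lb.r r2210 (@Lb.r r1561 (@Lb.r r2628 (@Lb.d (nat_lit 417) (nat_lit 136) (nat_lit 393) (@Lb.t (@Lb.fm (nat_lit 9) t2679)))))))))))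
noncomputable def l22666 : Lb := (@Lb.r r82 (@Lb.r r275 (@Lb.d (nat_lit 2) (nat_lit 513) (nat_lit 0) (@Lb.g g8 (@Lb.g g5 (@Lb.r r291 (@Lb.r r386 (@Lb.r r24 (@Lb.d (nat_lit 10) (nat_lit 130) (nat_lit 256) (@Lb.fp (nat_lit 3) t898))))))))))
noncomputable def l22667 : Lb := (@Lb.d (nat_lit 5) (nat_lit 256) (nat_lit 130) (@Lb.g g8 (@Lb.g g9 (@Lb.g g10 (@Lb.g g11 (@Lb.r r427 (@Lb.r r420 (@Lb.r r102 (@Lb.r r97 (@Lb.r r36 (@Lb.d (nat_lit 9) (nat_lit 130) (nat_lit 138) (@Lb.fm (nat_lit 9) t51))))))))))))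
noncomputable def l22668 : Lb := (@Lb.d (nat_lit 273) (nat_lit 256) (nat_lit 16) (@Lb.g g10 (@Lb.t (@Lb.fp (nat_lit 3) t4467))))
noncomputable def l22669 : Lb := (@Lb.d (nat_lit 2) (nat_lit 514) (nat_lit 130) (@Lb.g g8 (@Lb.g g9 (@Lb.g g10 (@Lb.g g11 (@Lb.r r162 (@Lb.r r660 (@Lb.r r425 (@Lb.r r279 (@Lb.r r548 (@Lb.d (nat_lit 2) (nat_lit 10) (nat_lit 9) (@Lb.fp (nat_lit 9) t242))))))))))))
noncomputable def l22670 : Lb := (@Lb.r r616 (@Lb.r r2665 (@Lb.r r2390 (@Lb.r r1188 (@Lb.d (nat_lit 2) (nat_lit 0) (nat_lit 512) (@Lb.fp (nat_lit 1) t322))))))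
noncomputable def l22671 : Lb := (@Lb.d (nat_lit 2) (nat_lit 514) (nat_lit 68) (@Lb.g g8 (@Lb.g g9 (@Lb.g g10 (@Lb.g g11 (@Lb.r r427 (@Lb.r r356 (@Lb.r r154 (@Lb.r r21 (@Lb.r r36 (@Lb.d (nat_lit 33) (nat_lit 5) (nat_lit 154) (@Lb.fm (nat_lit 9) t221))))))))))))
noncomputable def l22672 : Lb := (@Lb.d (nat_lit 8) (nat_lit 258) (nat_lit 130) (@Lb.g g9 (@Lb.g g10 (@Lb.g g11 (@Lb.r r419 (@Lb.r r98 (@Lb.r r24 (@Lb.r r101 (@Lb.d (nat_lit 16) (nat_lit 136) (nat_lit 100) (@Lb.t (@Lb.fm (nat_lit 9) t232)))))))))))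
noncomputable def l22673 : Lb := (@Lb.d (nat_lit 2) (nat_lit 2) (nat_lit 2) (@Lb.g g8 (@Lb.g g9 (@Lb.g g10 (@Lb.g g11 (@Lb.r r2729 (@Lb.r r2475 (@Lb.r r2468 (@Lb.r r2438 (@Lb.d (nat_lit 401) (nat_lit 10) (nat_lit 329) (@Lb.fp (nat_lit 9) t590)))))))))))
noncomputable def l22674 : Lb := (@Lb.d (nat_lit 134) (nat_lit 592) (nat_lit 352) (@Lb.r r277 (@Lb.r r363 (@Lb.g g10 (@Lb.g g5 (@Lb.g g4 (@Lb.d (nat_lit 1) (nat_lit 21) (nat_lit 22) (@Lb.r r387 (@Lb.t (@Lb.fm (nat_lit 9) t304))))))))))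
noncomputable def l22675 : Lb := (@Lb.d (nat_lit 144) (nat_lit 514) (nat_lit 130) (@Lb.g g8 (@Lb.g g9 (@Lb.g g10 (@Lb.g g11 (@Lb.r r2691 (@Lb.r r536 (@Lb.r r2197 (@Lb.r r2646 (@Lb.r r2212 (@Lb.d (nat_lit 137) (nat_lit 73) (nat_lit 617) (@Lb.fp (nat_lit 9) t2986))))))))))))
noncomputable def l22676 : Lb := (@Lb.g g7 (@Lb.r r2311 (@Lb.d (nat_lit 257) (nat_lit 256) (nat_lit 0) (@Lb.t (@Lb.fm (nat_lit 3) t469)))))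
noncomputable def l22677 : Lb := (@Lb.d (nat_lit 146) (nat_lit 514) (nat_lit 130) (@Lb.g g8 (@Lb.g g9 (@Lb.g g10 (@Lb.g g11 (@Lb.r r2705 (@Lb.r r535 (@Lb.r r2440 (@Lb.r r1098 (@Lb.d (nat_lit 545) (nat_lit 64) (nat_lit 393) (@Lb.fp (nat_lit 9) t495)))))))))))
noncomputable def l22678 : Lb := (@Lb.d (nat_lit 146) (nat_lit 32) (nat_lit 130) (@Lb.g g8 (@Lb.g g10 (@Lb.g g11 (@Lb.r r2122 (@Lb.r r360 (@Lb.r r2329 (@Lb.r r551 (@Lb.d (nat_lit 128) (nat_lit 89) (nat_lit 38) (@Lb.t (@Lb.fm (nat_lit 9) t524)))))))))))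
noncomputable def l22679 : Lb := (@Lb.r r275 (@Lb.d (nat_lit 130) (nat_lit 2) (nat_lit 2) (@Lb.g g8 (@Lb.g g9 (@Lb.g g10 (@Lb.r r599 (@Lb.r r98 (@Lb.r r2145 (@Lb.r r264 (@Lb.d (nat_lit 422) (nat_lit 133) (nat_lit 128) (@Lb.t (@Lb.fp (nat_lit 9) t2312))))))))))))
noncomputable def l22680 : Lb := (@Lb.r r275 (@Lb.d (nat_lit 130) (nat_lit 514) (nat_lit 2) (@Lb.g g8 (@Lb.g g9 (@Lb.g g10 (@Lb.r r599 (@Lb.r r98 (@Lb.r r2145 (@Lb.r r264 (@Lb.d (nat_lit 422) (nat_lit 133) (nat_lit 5) (@Lb.t (@Lb.fp (nat_lit 9) t2312))))))))))))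
noncomputable def l22681 : Lb := (@Lb.r r275 (@Lb.d (nat_lit 0) (nat_lit 4) (nat_lit 1) (@Lb.g g9 (@Lb.g g6 (@Lb.r r1411 (@Lb.r r2145 (@Lb.d (nat_lit 0) (nat_lit 73) (nat_lit 0) (@Lb.fm (nat_lit 3) t1400))))))))
noncomputable def l22682 : Lb := (@Lb.r r81 (@Lb.d (nat_lit 138) (nat_lit 260) (nat_lit 25) (@Lb.g g8 (@Lb.g g6 (@Lb.r r661 (@Lb.r r343 (@Lb.r r680 (@Lb.d (nat_lit 85) (nat_lit 22) (nat_lit 594) (@Lb.fm (nat_lit 3) t355)))))))))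
noncomputable def l22683 : Lb := (@Lb.d (nat_lit 2) (nat_lit 258) (nat_lit 10) (@Lb.g g8 (@Lb.g g9 (@Lb.g g10 (@Lb.g g11 (@Lb.r r657 (@Lb.r r535 (@Lb.r r392 (@Lb.r r74 (@Lb.d (nat_lit 33) (nat_lit 5) (nat_lit 154) (@Lb.fp (nat_lit 9) t221)))))))))))
noncomputable def l22684 : Lb := (@Lb.d (nat_lit 2) (nat_lit 2) (nat_lit 74) (@Lb.g g8 (@Lb.g g9 (@Lb.g g10 (@Lb.g g11 (@Lb.r r657 (@Lb.r r535 (@Lb.r r392 (@Lb.r r74 (@Lb.d (nat_lit 33) (nat_lit 5) (nat_lit 154) (@Lb.fp (nat_lit 9) t221)))))))))))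
noncomputable def l22685 : Lb := (@Lb.d (nat_lit 320) (nat_lit 613) (nat_lit 65) (@Lb.r r289 (@Lb.r r535 (@Lb.r r328 (@Lb.r r2726 (@Lb.g g7 (@Lb.g g6 (@Lb.g g5 (@Lb.d (nat_lit 4) (nat_lit 1) (nat_lit 134) (@Lb.t (@Lb.fp (nat_lit 9) t986)))))))))))
noncomputable def l22686 : Lb := (@Lb.d (nat_lit 0) (nat_lit 421) (nat_lit 6) (@Lb.r r2386 (@Lb.r r2723 (@Lb.g g6 (@Lb.g g5 (@Lb.d (nat_lit 0) (nat_lit 136) (nat_lit 0) (@Lb.r r2180 (@Lb.fp (nat_lit 3) t40))))))))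
noncomputable def l22687 : Lb := (@Lb.d (nat_lit 641) (nat_lit 514) (nat_lit 64) (@Lb.g g4 (@Lb.g g9 (@Lb.g g11 (@Lb.r r529 (@Lb.r r275 (@Lb.r r2178 (@Lb.r r2577 (@Lb.d (nat_lit 293) (nat_lit 2) (nat_lit 546) (@Lb.t (@Lb.fm (nat_lit 9) t2254)))))))))))
noncomputable def l22688 : Lb := (@Lb.g g7 (@Lb.r r402 (@Lb.d (nat_lit 0) (nat_lit 273) (nat_lit 10) (@Lb.t (@Lb.fp (nat_lit 3) t44)))))
noncomputable def l22689 : Lb := (@Lb.d (nat_lit 0) (nat_lit 32) (nat_lit 64) (@Lb.g g11 (@Lb.r r2337 (@Lb.r r531 (@Lb.r r2178 (@Lb.r r36 (@Lb.d (nat_lit 0) (nat_lit 38) (nat_lit 129) (@Lb.t (@Lb.fm (nat_lit 3) t1222)))))))))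
noncomputable def l22690 : Lb := (@Lb.d (nat_lit 321) (nat_lit 0) (nat_lit 576) (@Lb.r r1547 (@Lb.g g7 (@Lb.g g8 (@Lb.fm (nat_lit 3) t3723)))))
noncomputable def l22691 : Lb := (@Lb.r r323 (@Lb.d (nat_lit 130) (nat_lit 2) (nat_lit 2) (@Lb.g g8 (@Lb.g g9 (@Lb.g g10 (@Lb.r r599 (@Lb.r r98 (@Lb.r r97 (@Lb.r r408 (@Lb.d (nat_lit 149) (nat_lit 21) (nat_lit 137) (@Lb.t (@Lb.fp (nat_lit 9) t51))))))))))))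
noncomputable def l22692 : Lb := (@Lb.r r21 (@Lb.d (nat_lit 2) (nat_lit 512) (nat_lit 2) (@Lb.g g8 (@Lb.g g10 (@Lb.r r651 (@Lb.r r2634 (@Lb.r r2596 (@Lb.r r37 (@Lb.d (nat_lit 10) (nat_lit 168) (nat_lit 417) (@Lb.fm (nat_lit 3) t820))))))))))
noncomputable def l22693 : Lb := (@Lb.d (nat_lit 2) (nat_lit 2) (nat_lit 2) (@Lb.g g8 (@Lb.g g9 (@Lb.g g10 (@Lb.r r683 (@Lb.r r2666 (@Lb.r r2585 (@Lb.r r2564 (@Lb.d (nat_lit 644) (nat_lit 6) (nat_lit 416) (@Lb.t (@Lb.fp (nat_lit 9) t820)))))))))))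
noncomputable def l22694 : Lb := (@Lb.d (nat_lit 273) (nat_lit 512) (nat_lit 17) (@Lb.r r154 (@Lb.r r660 (@Lb.r r1621 (@Lb.r r2599 (@Lb.g g10 (@Lb.g g5 (@Lb.fp (nat_lit 3) t2508))))))))
noncomputable def l22695 : Lb := (@Lb.d (nat_lit 0) (nat_lit 2) (nat_lit 32) (@Lb.r r154 (@Lb.r r660 (@Lb.r r407 (@Lb.g g9 (@Lb.d (nat_lit 0) (nat_lit 105) (nat_lit 0) (@Lb.t (@Lb.fm (nat_lit 3) t2508))))))))
noncomputable def l22696 : Lb := (@Lb.r r323 (@Lb.d (nat_lit 132) (nat_lit 512) (nat_lit 2) (@Lb.g g8 (@Lb.g g9 (@Lb.g g10 (@Lb.r r599 (@Lb.r r98 (@Lb.r r97 (@Lb.r r408 (@Lb.d (nat_lit 149) (nat_lit 26) (nat_lit 74) (@Lb.t (@Lb.fp (nat_lit 9) t119))))))))))))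
noncomputable def l22697 : Lb := (@Lb.d (nat_lit 33) (nat_lit 256) (nat_lit 662) (@Lb.r r24 (@Lb.r r1173 (@Lb.r r386 (@Lb.r r1443 (@Lb.g g7 (@Lb.g g6 (@Lb.g g5 (@Lb.d (nat_lit 0) (nat_lit 34) (nat_lit 65) (@Lb.t (@Lb.fp (nat_lit 9) t475)))))))))))
noncomputable def l22698 : Lb := (@Lb.d (nat_lit 0) (nat_lit 517) (nat_lit 0) (@Lb.g g4 (@Lb.g g5 (@Lb.d (nat_lit 1) (nat_lit 5) (nat_lit 2) (@Lb.fm (nat_lit 3) t87)))))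
noncomputable def l22699 : Lb := (@Lb.d (nat_lit 0) (nat_lit 5) (nat_lit 0) (@Lb.g g4 (@Lb.g g5 (@Lb.d (nat_lit 0) (nat_lit 5) (nat_lit 2) (@Lb.fm (nat_lit 3) t87)))))
noncomputable def l22700 : Lb := (@Lb.g g5 (@Lb.g g10 (@Lb.g g7 (@Lb.r r402 (@Lb.r r101 (@Lb.r r24 (@Lb.d (nat_lit 258) (nat_lit 256) (nat_lit 512) (@Lb.t (@Lb.fp (nat_lit 9) t145)))))))))
noncomputable def l22701 : Lb := (@Lb.d (nat_lit 6) (nat_lit 42) (nat_lit 73) (@Lb.r r21 (@Lb.r r682 (@Lb.r r599 (@Lb.g g7 (@Lb.g g6 (@Lb.g g5 (@Lb.g g4 (@Lb.d (nat_lit 1) (nat_lit 6) (nat_lit 8) (@Lb.fp (nat_lit 9) t40))))))))))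
noncomputable def l22702 : Lb := (@Lb.d (nat_lit 42) (nat_lit 25) (nat_lit 98) (@Lb.r r101 (@Lb.r r408 (@Lb.r r82 (@Lb.r r599 (@Lb.g g6 (@Lb.g g5 (@Lb.g g4 (@Lb.d (nat_lit 66) (nat_lit 17) (nat_lit 1) (@Lb.t (@Lb.fm (nat_lit 9) t98)))))))))))
noncomputable def l22703 : Lb := (@Lb.d (nat_lit 0) (nat_lit 2) (nat_lit 2) (@Lb.g g9 (@Lb.g g10 (@Lb.r r1443 (@Lb.r r386 (@Lb.r r97 (@Lb.d (nat_lit 0) (nat_lit 104) (nat_lit 649) (@Lb.fm (nat_lit 3) t703))))))))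
noncomputable def l22704 : Lb := (@Lb.d (nat_lit 2) (nat_lit 265) (nat_lit 72) (@Lb.g g8 (@Lb.g g9 (@Lb.g g10 (@Lb.g g11 (@Lb.r r1559 (@Lb.r r2146 (@Lb.r r2457 (@Lb.r r2436 (@Lb.d (nat_lit 388) (nat_lit 132) (nat_lit 408) (@Lb.fm (nat_lit 9) t4468)))))))))))
noncomputable def l22705 : Lb := (@Lb.r r331 (@Lb.d (nat_lit 166) (nat_lit 10) (nat_lit 1) (@Lb.g g8 (@Lb.g g9 (@Lb.g g10 (@Lb.r r1433 (@Lb.r r2343 (@Lb.r r1604 (@Lb.r r1098 (@Lb.d (nat_lit 344) (nat_lit 137) (nat_lit 136) (@Lb.t (@Lb.fm (nat_lit 9) t4469))))))))))))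
noncomputable def l22706 : Lb := (@Lb.d (nat_lit 550) (nat_lit 549) (nat_lit 581) (@Lb.r r1109 (@Lb.r r323 (@Lb.r r1706 (@Lb.g g7 (@Lb.g g6 (@Lb.g g5 (@Lb.g g4 (@Lb.d (nat_lit 8) (nat_lit 17) (nat_lit 65) (@Lb.fm (nat_lit 9) t4470))))))))))
noncomputable def l22707 : Lb := (@Lb.r r322 (@Lb.d (nat_lit 0) (nat_lit 16) (nat_lit 128) (@Lb.g g11 (@Lb.r r1377 (@Lb.r r2198 (@Lb.r r2628 (@Lb.d (nat_lit 394) (nat_lit 2) (nat_lit 512) (@Lb.t (@Lb.fp (nat_lit 3) t4471)))))))))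
noncomputable def l22708 : Lb := (@Lb.r r21 (@Lb.d (nat_lit 33) (nat_lit 0) (nat_lit 73) (@Lb.g g8 (@Lb.g g10 (@Lb.g g11 (@Lb.r r2721 (@Lb.r r619 (@Lb.r r1162 (@Lb.r r2372 (@Lb.d (nat_lit 298) (nat_lit 128) (nat_lit 618) (@Lb.t (@Lb.fp (nat_lit 9) t125))))))))))))
noncomputable def l22709 : Lb := (@Lb.d (nat_lit 550) (nat_lit 37) (nat_lit 581) (@Lb.r r1109 (@Lb.r r323 (@Lb.r r1706 (@Lb.g g7 (@Lb.g g6 (@Lb.g g5 (@Lb.g g4 (@Lb.d (nat_lit 8) (nat_lit 24) (nat_lit 64) (@Lb.fm (nat_lit 9) t4472))))))))))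
noncomputable def l22710 : Lb := (@Lb.d (nat_lit 10) (nat_lit 296) (nat_lit 42) (@Lb.g g8 (@Lb.g g10 (@Lb.g g11 (@Lb.r r353 (@Lb.r r535 (@Lb.r r2436 (@Lb.d (nat_lit 84) (nat_lit 133) (nat_lit 650) (@Lb.t (@Lb.fm (nat_lit 9) t221))))))))))
noncomputable def l22711 : Lb := (@Lb.r r1346 (@Lb.r r387 (@Lb.d (nat_lit 0) (nat_lit 418) (nat_lit 18) (@Lb.fp (nat_lit 1) t373))))
noncomputable def l22712 : Lb := (@Lb.d (nat_lit 2) (nat_lit 516) (nat_lit 128) (@Lb.g g8 (@Lb.g g9 (@Lb.g g10 (@Lb.g g11 (@Lb.r r2729 (@Lb.r r2475 (@Lb.r r2468 (@Lb.r r2438 (@Lb.d (nat_lit 614) (nat_lit 74) (nat_lit 529) (@Lb.fp (nat_lit 9) t4371)))))))))))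
noncomputable def l22713 : Lb := (@Lb.d (nat_lit 9) (nat_lit 262) (nat_lit 128) (@Lb.g g8 (@Lb.g g9 (@Lb.g g10 (@Lb.g g11 (@Lb.r r427 (@Lb.r r424 (@Lb.r r106 (@Lb.r r97 (@Lb.d (nat_lit 296) (nat_lit 9) (nat_lit 168) (@Lb.fp (nat_lit 9) t1757)))))))))))
noncomputable def l22714 : Lb := (@Lb.d (nat_lit 0) (nat_lit 550) (nat_lit 24) (@Lb.g g9 (@Lb.g g10 (@Lb.r r279 (@Lb.r r1561 (@Lb.d (nat_lit 585) (nat_lit 8) (nat_lit 418) (@Lb.fm (nat_lit 3) t2739)))))))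
noncomputable def l22715 : Lb := (@Lb.r r82 (@Lb.r r275 (@Lb.d (nat_lit 9) (nat_lit 81) (nat_lit 0) (@Lb.g g8 (@Lb.g g9 (@Lb.r r2347 (@Lb.r r2442 (@Lb.r r2436 (@Lb.d (nat_lit 338) (nat_lit 9) (nat_lit 529) (@Lb.fp (nat_lit 3) t2516))))))))))
noncomputable def l22716 : Lb := (@Lb.d (nat_lit 25) (nat_lit 2) (nat_lit 1) (@Lb.r r81 (@Lb.r r86 (@Lb.r r343 (@Lb.g g6 (@Lb.g g5 (@Lb.g g4 (@Lb.d (nat_lit 1) (nat_lit 8) (nat_lit 2) (@Lb.r r387 (@Lb.t (@Lb.fp (nat_lit 9) t215)))))))))))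
noncomputable def l22717 : Lb := (@Lb.r r82 (@Lb.d (nat_lit 0) (nat_lit 2) (nat_lit 264) (@Lb.g g9 (@Lb.g g7 (@Lb.r r578 (@Lb.r r289 (@Lb.r r24 (@Lb.d (nat_lit 330) (nat_lit 33) (nat_lit 148) (@Lb.fp (nat_lit 3) t4473)))))))))
noncomputable def l22718 : Lb := (@Lb.r r82 (@Lb.d (nat_lit 8) (nat_lit 514) (nat_lit 580) (@Lb.g g9 (@Lb.g g7 (@Lb.r r422 (@Lb.r r1112 (@Lb.r r2085 (@Lb.d (nat_lit 384) (nat_lit 74) (nat_lit 386) (@Lb.fm (nat_lit 3) t4474)))))))))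
noncomputable def l22719 : Lb := (@Lb.d (nat_lit 0) (nat_lit 258) (nat_lit 73) (@Lb.g g9 (@Lb.g g10 (@Lb.g g11 (@Lb.r r323 (@Lb.r r322 (@Lb.r r97 (@Lb.r r24 (@Lb.d (nat_lit 8) (nat_lit 9) (nat_lit 9) (@Lb.t (@Lb.fm (nat_lit 9) t167)))))))))))
noncomputable def l22720 : Lb := (@Lb.r r1105 (@Lb.d (nat_lit 544) (nat_lit 512) (nat_lit 66) (@Lb.g g4 (@Lb.g g10 (@Lb.g g11 (@Lb.r r2626 (@Lb.d (nat_lit 1) (nat_lit 0) (nat_lit 418) (@Lb.t (@Lb.fp (nat_lit 9) t329)))))))))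
noncomputable def l22721 : Lb := (@Lb.d (nat_lit 10) (nat_lit 4) (nat_lit 1) (@Lb.fp (nat_lit 1) t45))
noncomputable def l22722 : Lb := (@Lb.d (nat_lit 32) (nat_lit 258) (nat_lit 130) (@Lb.g g9 (@Lb.g g10 (@Lb.g g11 (@Lb.r r2695 (@Lb.r r297 (@Lb.r r1352 (@Lb.r r2662 (@Lb.d (nat_lit 656) (nat_lit 86) (nat_lit 292) (@Lb.t (@Lb.fp (nat_lit 9) t1425)))))))))))
noncomputable def l22723 : Lb := (@Lb.d (nat_lit 2) (nat_lit 2) (nat_lit 130) (@Lb.g g8 (@Lb.g g9 (@Lb.g g10 (@Lb.g g11 (@Lb.r r427 (@Lb.r r424 (@Lb.r r106 (@Lb.r r25 (@Lb.d (nat_lit 585) (nat_lit 4) (nat_lit 545) (@Lb.fm (nat_lit 9) t2258)))))))))))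
noncomputable def l22724 : Lb := (@Lb.d (nat_lit 529) (nat_lit 645) (nat_lit 162) (@Lb.r r2182 (@Lb.r r2132 (@Lb.r r425 (@Lb.g g11 (@Lb.g g6 (@Lb.g g5 (@Lb.g g4 (@Lb.d (nat_lit 32) (nat_lit 32) (nat_lit 389) (@Lb.fm (nat_lit 9) t1445))))))))))
noncomputable def l22725 : Lb := (@Lb.r r21 (@Lb.r r70 (@Lb.r r2311 (@Lb.g g8 (@Lb.r r2196 (@Lb.r r2454 (@Lb.r r97 (@Lb.d (nat_lit 0) (nat_lit 81) (nat_lit 26) (@Lb.t (@Lb.fp (nat_lit 3) t394))))))))))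
noncomputable def l22726 : Lb := (@Lb.d (nat_lit 73) (nat_lit 272) (nat_lit 2) (@Lb.g g8 (@Lb.g g9 (@Lb.g g10 (@Lb.g g11 (@Lb.r r682 (@Lb.r r676 (@Lb.r r1639 (@Lb.r r661 (@Lb.r r36 (@Lb.d (nat_lit 168) (nat_lit 133) (nat_lit 601) (@Lb.fp (nat_lit 9) t4475))))))))))))
noncomputable def l22727 : Lb := (@Lb.r r134 (@Lb.r r328 (@Lb.r r535 (@Lb.r r409 (@Lb.d (nat_lit 256) (nat_lit 0) (nat_lit 32) (@Lb.fm (nat_lit 1) t1022))))))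
noncomputable def l22728 : Lb := (@Lb.r r101 (@Lb.r r24 (@Lb.d (nat_lit 354) (nat_lit 5) (nat_lit 608) (@Lb.fp (nat_lit 1) t166))))
noncomputable def l22729 : Lb := (@Lb.d (nat_lit 662) (nat_lit 658) (nat_lit 405) (@Lb.r r24 (@Lb.r r2337 (@Lb.r r579 (@Lb.r r1366 (@Lb.g g6 (@Lb.g g5 (@Lb.g g4 (@Lb.d (nat_lit 1) (nat_lit 1) (nat_lit 1) (@Lb.t (@Lb.fm (nat_lit 9) t3136)))))))))))
noncomputable def l22730 : Lb := (@Lb.d (nat_lit 517) (nat_lit 554) (nat_lit 264) (@Lb.r r410 (@Lb.r r148 (@Lb.r r279 (@Lb.r r553 (@Lb.g g7 (@Lb.g g6 (@Lb.g g5 (@Lb.d (nat_lit 16) (nat_lit 1) (nat_lit 129) (@Lb.t (@Lb.fp (nat_lit 9) t4476)))))))))))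
noncomputable def l22731 : Lb := (@Lb.r r101 (@Lb.r r24 (@Lb.d (nat_lit 352) (nat_lit 517) (nat_lit 608) (@Lb.fp (nat_lit 1) t1150))))
noncomputable def l22732 : Lb := (@Lb.d (nat_lit 400) (nat_lit 0) (nat_lit 289) (@Lb.g g7 (@Lb.d (nat_lit 0) (nat_lit 0) (nat_lit 132) (@Lb.t (@Lb.fm (nat_lit 3) t1165)))))
noncomputable def l22733 : Lb := (@Lb.r r40 (@Lb.r r617 (@Lb.r r1366 (@Lb.r r427 (@Lb.r r2212 (@Lb.d (nat_lit 517) (nat_lit 64) (nat_lit 512) (@Lb.fp (nat_lit 1) t2570)))))))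
noncomputable def l22734 : Lb := (@Lb.d (nat_lit 4) (nat_lit 36) (nat_lit 10) (@Lb.g g8 (@Lb.g g9 (@Lb.g g10 (@Lb.g g11 (@Lb.r r2729 (@Lb.r r2347 (@Lb.r r2404 (@Lb.r r1610 (@Lb.d (nat_lit 337) (nat_lit 10) (nat_lit 342) (@Lb.fm (nat_lit 9) t750)))))))))))
noncomputable def l22735 : Lb := (@Lb.d (nat_lit 2) (nat_lit 9) (nat_lit 129) (@Lb.g g8 (@Lb.g g9 (@Lb.g g10 (@Lb.g g11 (@Lb.r r2627 (@Lb.r r594 (@Lb.r r404 (@Lb.r r681 (@Lb.r r2084 (@Lb.d (nat_lit 385) (nat_lit 10) (nat_lit 276) (@Lb.fp (nat_lit 9) t750))))))))))))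
noncomputable def l22736 : Lb := (@Lb.r r322 (@Lb.d (nat_lit 2) (nat_lit 2) (nat_lit 576) (@Lb.g g8 (@Lb.g g9 (@Lb.g g7 (@Lb.r r297 (@Lb.r r1124 (@Lb.r r2122 (@Lb.d (nat_lit 320) (nat_lit 10) (nat_lit 276) (@Lb.t (@Lb.fm (nat_lit 9) t1719)))))))))))
noncomputable def l22737 : Lb := (@Lb.g g9 (@Lb.g g10 (@Lb.d (nat_lit 0) (nat_lit 522) (nat_lit 2) (@Lb.fm (nat_lit 3) t21))))
noncomputable def l22738 : Lb := (@Lb.d (nat_lit 0) (nat_lit 0) (nat_lit 2) (@Lb.g g9 (@Lb.g g10 (@Lb.r r2435 (@Lb.r r98 (@Lb.d (nat_lit 0) (nat_lit 16) (nat_lit 536) (@Lb.fm (nat_lit 3) t387)))))))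
noncomputable def l22739 : Lb := (@Lb.d (nat_lit 2) (nat_lit 26) (nat_lit 73) (@Lb.g g8 (@Lb.g g9 (@Lb.g g10 (@Lb.g g11 (@Lb.r r1603 (@Lb.r r338 (@Lb.r r660 (@Lb.r r425 (@Lb.r r1060 (@Lb.d (nat_lit 98) (nat_lit 10) (nat_lit 138) (@Lb.fp (nat_lit 9) t1312))))))))))))
noncomputable def l22740 : Lb := (@Lb.d (nat_lit 518) (nat_lit 129) (nat_lit 32) (@Lb.r r404 (@Lb.r r2145 (@Lb.r r1410 (@Lb.r r1563 (@Lb.g g9 (@Lb.g g4 (@Lb.r r74 (@Lb.fm (nat_lit 3) t4477)))))))))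
noncomputable def l22741 : Lb := (@Lb.d (nat_lit 2) (nat_lit 0) (nat_lit 130) (@Lb.g g8 (@Lb.g g9 (@Lb.g g10 (@Lb.g g11 (@Lb.r r1579 (@Lb.r r1641 (@Lb.r r2454 (@Lb.r r1608 (@Lb.d (nat_lit 105) (nat_lit 1) (nat_lit 537) (@Lb.fp (nat_lit 9) t1165)))))))))))
noncomputable def l22742 : Lb := (@Lb.r r82 (@Lb.d (nat_lit 2) (nat_lit 0) (nat_lit 64) (@Lb.g g8 (@Lb.g g9 (@Lb.g g7 (@Lb.r r1706 (@Lb.r r1700 (@Lb.r r293 (@Lb.d (nat_lit 10) (nat_lit 73) (nat_lit 66) (@Lb.t (@Lb.fp (nat_lit 9) t4458)))))))))))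
noncomputable def l22743 : Lb := (@Lb.d (nat_lit 41) (nat_lit 256) (nat_lit 0) (@Lb.g g8 (@Lb.r r2395 (@Lb.r r614 (@Lb.r r1637 (@Lb.r r1428 (@Lb.d (nat_lit 358) (nat_lit 85) (nat_lit 393) (@Lb.t (@Lb.fm (nat_lit 3) t386)))))))))
noncomputable def l22744 : Lb := (@Lb.d (nat_lit 658) (nat_lit 134) (nat_lit 425) (@Lb.r r1354 (@Lb.r r1384 (@Lb.r r2599 (@Lb.g g5 (@Lb.g g4 (@Lb.d (nat_lit 2) (nat_lit 80) (nat_lit 0) (@Lb.r r291 (@Lb.r r98 (@Lb.fm (nat_lit 3) t3501))))))))))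
noncomputable def l22745 : Lb := (@Lb.r r21 (@Lb.d (nat_lit 145) (nat_lit 0) (nat_lit 74) (@Lb.g g8 (@Lb.g g10 (@Lb.g g11 (@Lb.r r1691 (@Lb.r r409 (@Lb.r r90 (@Lb.r r1156 (@Lb.d (nat_lit 618) (nat_lit 64) (nat_lit 513) (@Lb.t (@Lb.fp (nat_lit 9) t3501))))))))))))
noncomputable def l22746 : Lb := (@Lb.d (nat_lit 42) (nat_lit 0) (nat_lit 128) (@Lb.g g8 (@Lb.g g11 (@Lb.r r2331 (@Lb.r r614 (@Lb.r r1637 (@Lb.r r1428 (@Lb.d (nat_lit 358) (nat_lit 20) (nat_lit 410) (@Lb.fp (nat_lit 3) t386)))))))))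
noncomputable def l22747 : Lb := (@Lb.d (nat_lit 0) (nat_lit 256) (nat_lit 74) (@Lb.g g10 (@Lb.g g11 (@Lb.r r1419 (@Lb.d (nat_lit 418) (nat_lit 0) (nat_lit 404) (@Lb.fm (nat_lit 3) t441))))))
noncomputable def l22748 : Lb := (@Lb.r r21 (@Lb.d (nat_lit 145) (nat_lit 0) (nat_lit 74) (@Lb.g g8 (@Lb.g g10 (@Lb.g g11 (@Lb.r r1691 (@Lb.r r409 (@Lb.r r90 (@Lb.r r1156 (@Lb.d (nat_lit 617) (nat_lit 69) (nat_lit 514) (@Lb.t (@Lb.fp (nat_lit 9) t278))))))))))))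
noncomputable def l22749 : Lb := (@Lb.d (nat_lit 153) (nat_lit 264) (nat_lit 130) (@Lb.g g8 (@Lb.g g9 (@Lb.g g10 (@Lb.g g11 (@Lb.r r1706 (@Lb.r r1411 (@Lb.r r1065 (@Lb.r r2200 (@Lb.d (nat_lit 361) (nat_lit 105) (nat_lit 417) (@Lb.fm (nat_lit 9) t4478)))))))))))
noncomputable def l22750 : Lb := (@Lb.d (nat_lit 2) (nat_lit 2) (nat_lit 64) (@Lb.g g8 (@Lb.g g9 (@Lb.g g10 (@Lb.g g7 (@Lb.r r1706 (@Lb.r r2457 (@Lb.r r2436 (@Lb.d (nat_lit 617) (nat_lit 34) (nat_lit 98) (@Lb.fp (nat_lit 9) t918))))))))))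
noncomputable def l22751 : Lb := (@Lb.d (nat_lit 2) (nat_lit 258) (nat_lit 64) (@Lb.g g8 (@Lb.g g9 (@Lb.g g10 (@Lb.g g7 (@Lb.r r1706 (@Lb.r r2457 (@Lb.r r2436 (@Lb.d (nat_lit 612) (nat_lit 33) (nat_lit 98) (@Lb.fp (nat_lit 9) t918))))))))))
noncomputable def l22752 : Lb := (@Lb.d (nat_lit 408) (nat_lit 169) (nat_lit 642) (@Lb.r r2475 (@Lb.r r1446 (@Lb.r r2469 (@Lb.r r596 (@Lb.g g7 (@Lb.d (nat_lit 64) (nat_lit 16) (nat_lit 68) (@Lb.t (@Lb.fm (nat_lit 3) t3438)))))))))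
noncomputable def l22753 : Lb := (@Lb.d (nat_lit 169) (nat_lit 0) (nat_lit 72) (@Lb.g g8 (@Lb.g g11 (@Lb.r r1346 (@Lb.r r679 (@Lb.r r2597 (@Lb.r r276 (@Lb.d (nat_lit 70) (nat_lit 82) (nat_lit 146) (@Lb.fm (nat_lit 3) t3438)))))))))
noncomputable def l22754 : Lb := (@Lb.d (nat_lit 42) (nat_lit 256) (nat_lit 0) (@Lb.g g8 (@Lb.r r2395 (@Lb.r r614 (@Lb.r r1637 (@Lb.r r1428 (@Lb.d (nat_lit 360) (nat_lit 88) (nat_lit 394) (@Lb.t (@Lb.fm (nat_lit 3) t632)))))))))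
noncomputable def l22755 : Lb := (@Lb.r r323 (@Lb.d (nat_lit 130) (nat_lit 2) (nat_lit 21) (@Lb.g g8 (@Lb.g g9 (@Lb.g g6 (@Lb.r r583 (@Lb.r r296 (@Lb.r r25 (@Lb.d (nat_lit 522) (nat_lit 160) (nat_lit 145) (@Lb.t (@Lb.fp (nat_lit 9) t2115)))))))))))
noncomputable def l22756 : Lb := (@Lb.d (nat_lit 597) (nat_lit 70) (nat_lit 582) (@Lb.r r2138 (@Lb.r r1363 (@Lb.g g7 (@Lb.g g6 (@Lb.g g5 (@Lb.g g8 (@Lb.d (nat_lit 2) (nat_lit 129) (nat_lit 128) (@Lb.fm (nat_lit 9) t4322)))))))))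
noncomputable def l22757 : Lb := (@Lb.r r21 (@Lb.d (nat_lit 137) (nat_lit 256) (nat_lit 64) (@Lb.g g8 (@Lb.g g10 (@Lb.g g11 (@Lb.r r2714 (@Lb.r r1381 (@Lb.r r2395 (@Lb.r r1368 (@Lb.d (nat_lit 425) (nat_lit 97) (nat_lit 517) (@Lb.t (@Lb.fp (nat_lit 9) t4479))))))))))))
noncomputable def l22758 : Lb := (@Lb.d (nat_lit 36) (nat_lit 0) (nat_lit 130) (@Lb.g g8 (@Lb.g g9 (@Lb.g g10 (@Lb.g g11 (@Lb.r r419 (@Lb.r r1702 (@Lb.r r344 (@Lb.r r2453 (@Lb.r r36 (@Lb.d (nat_lit 361) (nat_lit 168) (nat_lit 130) (@Lb.fp (nat_lit 9) t3480))))))))))))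
noncomputable def l22759 : Lb := (@Lb.d (nat_lit 34) (nat_lit 514) (nat_lit 130) (@Lb.g g8 (@Lb.g g9 (@Lb.g g10 (@Lb.g g11 (@Lb.r r2699 (@Lb.r r164 (@Lb.r r1173 (@Lb.r r1622 (@Lb.r r2212 (@Lb.d (nat_lit 137) (nat_lit 129) (nat_lit 106) (@Lb.fm (nat_lit 9) t4480))))))))))))
noncomputable def l22760 : Lb := (@Lb.d (nat_lit 36) (nat_lit 516) (nat_lit 130) (@Lb.g g8 (@Lb.g g9 (@Lb.g g6 (@Lb.g g11 (@Lb.r r2667 (@Lb.r r1121 (@Lb.r r1560 (@Lb.d (nat_lit 73) (nat_lit 41) (nat_lit 656) (@Lb.fp (nat_lit 9) t2179))))))))))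
noncomputable def l22761 : Lb := (@Lb.d (nat_lit 2) (nat_lit 258) (nat_lit 145) (@Lb.g g8 (@Lb.g g9 (@Lb.g g6 (@Lb.g g11 (@Lb.r r2667 (@Lb.r r97 (@Lb.r r2584 (@Lb.d (nat_lit 585) (nat_lit 169) (nat_lit 320) (@Lb.fp (nat_lit 9) t4481))))))))))
noncomputable def l22762 : Lb := (@Lb.r r21 (@Lb.d (nat_lit 145) (nat_lit 512) (nat_lit 74) (@Lb.g g8 (@Lb.g g10 (@Lb.g g11 (@Lb.r r1691 (@Lb.r r409 (@Lb.r r90 (@Lb.r r1156 (@Lb.d (nat_lit 617) (nat_lit 69) (nat_lit 578) (@Lb.t (@Lb.fp (nat_lit 9) t3612))))))))))))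
noncomputable def l22763 : Lb := (@Lb.d (nat_lit 150) (nat_lit 512) (nat_lit 74) (@Lb.g g8 (@Lb.g g9 (@Lb.g g10 (@Lb.g g11 (@Lb.r r1675 (@Lb.r r613 (@Lb.r r666 (@Lb.r r1540 (@Lb.d (nat_lit 522) (nat_lit 69) (nat_lit 400) (@Lb.fm (nat_lit 9) t278)))))))))))
noncomputable def l22764 : Lb := (@Lb.r r21 (@Lb.r r70 (@Lb.d (nat_lit 66) (nat_lit 512) (nat_lit 64) (@Lb.g g8 (@Lb.g g11 (@Lb.r r2635 (@Lb.r r402 (@Lb.r r97 (@Lb.r r1284 (@Lb.d (nat_lit 1) (nat_lit 66) (nat_lit 576) (@Lb.fp (nat_lit 3) t739)))))))))))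
noncomputable def l22765 : Lb := (@Lb.d (nat_lit 128) (nat_lit 2) (nat_lit 73) (@Lb.g g8 (@Lb.g g9 (@Lb.g g10 (@Lb.g g11 (@Lb.r r1431 (@Lb.r r2329 (@Lb.r r344 (@Lb.r r2630 (@Lb.r r132 (@Lb.d (nat_lit 393) (nat_lit 66) (nat_lit 360) (@Lb.fm (nat_lit 9) t2989))))))))))))
noncomputable def l22766 : Lb := (@Lb.r r424 (@Lb.r r2473 (@Lb.r r1450 (@Lb.r r343 (@Lb.r r1188 (@Lb.d (nat_lit 10) (nat_lit 514) (nat_lit 576) (@Lb.fm (nat_lit 1) t1079)))))))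
noncomputable def l22767 : Lb := (@Lb.r r82 (@Lb.r r275 (@Lb.d (nat_lit 34) (nat_lit 520) (nat_lit 0) (@Lb.g g8 (@Lb.g g9 (@Lb.r r427 (@Lb.r r582 (@Lb.r r408 (@Lb.d (nat_lit 154) (nat_lit 101) (nat_lit 660) (@Lb.fp (nat_lit 3) t4482))))))))))
noncomputable def l22768 : Lb := (@Lb.d (nat_lit 529) (nat_lit 645) (nat_lit 642) (@Lb.r r2068 (@Lb.r r2137 (@Lb.r r20 (@Lb.r r1442 (@Lb.g g11 (@Lb.g g6 (@Lb.g g5 (@Lb.g g4 (@Lb.d (nat_lit 25) (nat_lit 22) (nat_lit 394) (@Lb.fp (nat_lit 9) t2693)))))))))))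
noncomputable def l22769 : Lb := (@Lb.d (nat_lit 0) (nat_lit 544) (nat_lit 72) (@Lb.g g4 (@Lb.g g11 (@Lb.r r2449 (@Lb.r r1426 (@Lb.r r355 (@Lb.d (nat_lit 1) (nat_lit 74) (nat_lit 262) (@Lb.fm (nat_lit 3) t246))))))))
noncomputable def l22770 : Lb := (@Lb.d (nat_lit 0) (nat_lit 256) (nat_lit 128) (@Lb.g g10 (@Lb.g g11 (@Lb.r r1691 (@Lb.r r2401 (@Lb.r r1174 (@Lb.r r8 (@Lb.d (nat_lit 26) (nat_lit 64) (nat_lit 16) (@Lb.fm (nat_lit 3) t651)))))))))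
noncomputable def l22771 : Lb := (@Lb.r r82 (@Lb.d (nat_lit 34) (nat_lit 258) (nat_lit 128) (@Lb.g g8 (@Lb.g g9 (@Lb.g g11 (@Lb.r r1430 (@Lb.r r579 (@Lb.r r2449 (@Lb.r r84 (@Lb.d (nat_lit 582) (nat_lit 81) (nat_lit 8) (@Lb.t (@Lb.fm (nat_lit 9) t2153))))))))))))
noncomputable def l22772 : Lb := (@Lb.d (nat_lit 64) (nat_lit 0) (nat_lit 514) (@Lb.g g6 (@Lb.g g11 (@Lb.r r610 (@Lb.r r2145 (@Lb.r r36 (@Lb.d (nat_lit 648) (nat_lit 64) (nat_lit 640) (@Lb.fm (nat_lit 3) t1351))))))))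
noncomputable def l22773 : Lb := (@Lb.d (nat_lit 144) (nat_lit 514) (nat_lit 128) (@Lb.g g8 (@Lb.g g9 (@Lb.g g10 (@Lb.g g11 (@Lb.r r1666 (@Lb.r r1431 (@Lb.r r97 (@Lb.r r536 (@Lb.d (nat_lit 105) (nat_lit 41) (nat_lit 129) (@Lb.fm (nat_lit 9) t1173)))))))))))
noncomputable def l22774 : Lb := (@Lb.d (nat_lit 145) (nat_lit 258) (nat_lit 128) (@Lb.g g8 (@Lb.g g9 (@Lb.g g10 (@Lb.g g11 (@Lb.r r1666 (@Lb.r r1431 (@Lb.r r97 (@Lb.r r536 (@Lb.d (nat_lit 105) (nat_lit 41) (nat_lit 129) (@Lb.fm (nat_lit 9) t1173)))))))))))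
noncomputable def l22775 : Lb := (@Lb.r r323 (@Lb.d (nat_lit 2) (nat_lit 516) (nat_lit 1) (@Lb.g g8 (@Lb.g g9 (@Lb.g g10 (@Lb.r r427 (@Lb.r r106 (@Lb.r r145 (@Lb.d (nat_lit 533) (nat_lit 8) (nat_lit 16) (@Lb.t (@Lb.fm (nat_lit 9) t2099)))))))))))
noncomputable def l22776 : Lb := (@Lb.d (nat_lit 128) (nat_lit 0) (nat_lit 145) (@Lb.g g9 (@Lb.g g10 (@Lb.g g11 (@Lb.r r2709 (@Lb.r r292 (@Lb.r r539 (@Lb.d (nat_lit 586) (nat_lit 34) (nat_lit 6) (@Lb.t (@Lb.fp (nat_lit 9) t403))))))))))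
noncomputable def l22777 : Lb := (@Lb.d (nat_lit 128) (nat_lit 256) (nat_lit 145) (@Lb.g g9 (@Lb.g g10 (@Lb.g g11 (@Lb.r r2709 (@Lb.r r292 (@Lb.r r539 (@Lb.d (nat_lit 581) (nat_lit 33) (nat_lit 6) (@Lb.t (@Lb.fp (nat_lit 9) t403))))))))))
noncomputable def l22778 : Lb := (@Lb.r r82 (@Lb.d (nat_lit 1) (nat_lit 258) (nat_lit 0) (@Lb.g g8 (@Lb.g g9 (@Lb.g g11 (@Lb.r r2659 (@Lb.r r2442 (@Lb.r r1188 (@Lb.r r1061 (@Lb.d (nat_lit 69) (nat_lit 70) (nat_lit 577) (@Lb.t (@Lb.fp (nat_lit 9) t98))))))))))))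
noncomputable def l22779 : Lb := (@Lb.d (nat_lit 2) (nat_lit 256) (nat_lit 64) (@Lb.g g8 (@Lb.g g11 (@Lb.r r337 (@Lb.r r2603 (@Lb.r r1414 (@Lb.r r2600 (@Lb.r r153 (@Lb.d (nat_lit 294) (nat_lit 152) (nat_lit 265) (@Lb.fp (nat_lit 3) t4483))))))))))
noncomputable def l22780 : Lb := (@Lb.d (nat_lit 390) (nat_lit 580) (nat_lit 614) (@Lb.r r2200 (@Lb.r r1346 (@Lb.r r603 (@Lb.g g7 (@Lb.g g6 (@Lb.g g9 (@Lb.g g4 (@Lb.d (nat_lit 102) (nat_lit 130) (nat_lit 65) (@Lb.fm (nat_lit 9) t4484))))))))))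
noncomputable def l22781 : Lb := (@Lb.d (nat_lit 0) (nat_lit 514) (nat_lit 73) (@Lb.g g9 (@Lb.g g10 (@Lb.g g11 (@Lb.r r2691 (@Lb.r r2209 (@Lb.r r2658 (@Lb.r r24 (@Lb.d (nat_lit 330) (nat_lit 18) (nat_lit 150) (@Lb.t (@Lb.fp (nat_lit 9) t4485)))))))))))
noncomputable def l22782 : Lb := (@Lb.d (nat_lit 1) (nat_lit 258) (nat_lit 73) (@Lb.g g8 (@Lb.g g9 (@Lb.g g10 (@Lb.g g11 (@Lb.r r2705 (@Lb.r r535 (@Lb.r r2440 (@Lb.r r2122 (@Lb.d (nat_lit 294) (nat_lit 8) (nat_lit 136) (@Lb.fp (nat_lit 9) t221)))))))))))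
noncomputable def l22783 : Lb := (@Lb.r r82 (@Lb.r r283 (@Lb.d (nat_lit 513) (nat_lit 512) (nat_lit 0) (@Lb.g g8 (@Lb.g g9 (@Lb.r r1323 (@Lb.r r106 (@Lb.r r25 (@Lb.d (nat_lit 9) (nat_lit 2) (nat_lit 0) (@Lb.fm (nat_lit 3) t1169))))))))))
noncomputable def l22784 : Lb := (@Lb.r r331 (@Lb.d (nat_lit 1) (nat_lit 258) (nat_lit 2) (@Lb.g g8 (@Lb.g g9 (@Lb.g g10 (@Lb.r r2635 (@Lb.r r98 (@Lb.r r97 (@Lb.r r1540 (@Lb.d (nat_lit 137) (nat_lit 129) (nat_lit 642) (@Lb.t (@Lb.fm (nat_lit 9) t1965))))))))))))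
noncomputable def l22785 : Lb := (@Lb.r r2649 (@Lb.r r2406 (@Lb.r r2459 (@Lb.d (nat_lit 26) (nat_lit 405) (nat_lit 9) (@Lb.fp (nat_lit 1) t4486)))))
noncomputable def l22786 : Lb := (@Lb.d (nat_lit 0) (nat_lit 32) (nat_lit 72) (@Lb.g g11 (@Lb.r r409 (@Lb.r r2458 (@Lb.r r2407 (@Lb.d (nat_lit 340) (nat_lit 10) (nat_lit 38) (@Lb.t (@Lb.fm (nat_lit 3) t2112))))))))
noncomputable def l22787 : Lb := (@Lb.r r323 (@Lb.d (nat_lit 32) (nat_lit 256) (nat_lit 2) (@Lb.g g10 (@Lb.r r2436 (@Lb.r r1371 (@Lb.r r609 (@Lb.r r402 (@Lb.d (nat_lit 618) (nat_lit 145) (nat_lit 421) (@Lb.t (@Lb.fp (nat_lit 3) t1093))))))))))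
noncomputable def l22788 : Lb := (@Lb.d (nat_lit 390) (nat_lit 68) (nat_lit 614) (@Lb.r r2200 (@Lb.r r1346 (@Lb.r r603 (@Lb.g g7 (@Lb.g g6 (@Lb.g g9 (@Lb.g g4 (@Lb.d (nat_lit 97) (nat_lit 129) (nat_lit 65) (@Lb.fm (nat_lit 9) t4484))))))))))
noncomputable def l22789 : Lb := (@Lb.d (nat_lit 128) (nat_lit 288) (nat_lit 136) (@Lb.g g11 (@Lb.r r420 (@Lb.r r2469 (@Lb.r r1446 (@Lb.r r1367 (@Lb.d (nat_lit 614) (nat_lit 86) (nat_lit 390) (@Lb.t (@Lb.fp (nat_lit 3) t2418)))))))))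
noncomputable def l22790 : Lb := (@Lb.r r323 (@Lb.d (nat_lit 33) (nat_lit 521) (nat_lit 1) (@Lb.g g8 (@Lb.g g9 (@Lb.g g10 (@Lb.r r1579 (@Lb.r r2218 (@Lb.r r1689 (@Lb.r r2180 (@Lb.d (nat_lit 105) (nat_lit 145) (nat_lit 612) (@Lb.t (@Lb.fm (nat_lit 9) t4487))))))))))))
noncomputable def l22791 : Lb := (@Lb.d (nat_lit 32) (nat_lit 0) (nat_lit 74) (@Lb.g g10 (@Lb.g g11 (@Lb.r r1447 (@Lb.r r2648 (@Lb.r r2453 (@Lb.r r1430 (@Lb.d (nat_lit 354) (nat_lit 89) (nat_lit 9) (@Lb.fm (nat_lit 3) t2600)))))))))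
noncomputable def l22792 : Lb := (@Lb.r r275 (@Lb.d (nat_lit 641) (nat_lit 261) (nat_lit 0) (@Lb.g g4 (@Lb.g g9 (@Lb.g g10 (@Lb.r r602 (@Lb.r r2635 (@Lb.r r1305 (@Lb.d (nat_lit 641) (nat_lit 168) (nat_lit 146) (@Lb.t (@Lb.fm (nat_lit 9) t243)))))))))))
noncomputable def l22793 : Lb := (@Lb.r r273 (@Lb.r r322 (@Lb.d (nat_lit 517) (nat_lit 0) (nat_lit 648) (@Lb.g g4 (@Lb.g g7 (@Lb.r r1381 (@Lb.r r146 (@Lb.d (nat_lit 1) (nat_lit 1) (nat_lit 420) (@Lb.fm (nat_lit 3) t243)))))))))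
noncomputable def l22794 : Lb := (@Lb.r r273 (@Lb.r r322 (@Lb.d (nat_lit 517) (nat_lit 512) (nat_lit 648) (@Lb.g g4 (@Lb.g g7 (@Lb.r r1381 (@Lb.r r146 (@Lb.d (nat_lit 1) (nat_lit 6) (nat_lit 421) (@Lb.fm (nat_lit 3) t243)))))))))
noncomputable def l22795 : Lb := (@Lb.r r327 (@Lb.d (nat_lit 2) (nat_lit 546) (nat_lit 18) (@Lb.g g8 (@Lb.g g9 (@Lb.g g10 (@Lb.r r595 (@Lb.r r2337 (@Lb.r r72 (@Lb.d (nat_lit 278) (nat_lit 106) (nat_lit 66) (@Lb.t (@Lb.fp (nat_lit 9) t4488)))))))))))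
noncomputable def l22796 : Lb := (@Lb.d (nat_lit 514) (nat_lit 0) (nat_lit 0) (@Lb.r r1291 (@Lb.g g11 (@Lb.g g8 (@Lb.fm (nat_lit 3) t997)))))
noncomputable def l22797 : Lb := (@Lb.r r275 (@Lb.d (nat_lit 2) (nat_lit 256) (nat_lit 2) (@Lb.g g8 (@Lb.g g9 (@Lb.g g10 (@Lb.r r1419 (@Lb.r r610 (@Lb.r r529 (@Lb.r r24 (@Lb.d (nat_lit 256) (nat_lit 4) (nat_lit 1) (@Lb.t (@Lb.fp (nat_lit 9) t1001))))))))))))
noncomputable def l22798 : Lb := (@Lb.d (nat_lit 2) (nat_lit 550) (nat_lit 128) (@Lb.g g8 (@Lb.g g9 (@Lb.g g10 (@Lb.g g11 (@Lb.r r2454 (@Lb.r r2391 (@Lb.r r1433 (@Lb.r r24 (@Lb.d (nat_lit 682) (nat_lit 168) (nat_lit 617) (@Lb.fp (nat_lit 9) t3222)))))))))))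
noncomputable def l22799 : Lb := (@Lb.d (nat_lit 132) (nat_lit 129) (nat_lit 256) (@Lb.r r2152 (@Lb.r r1057 (@Lb.r r1410 (@Lb.r r1639 (@Lb.g g8 (@Lb.r r74 (@Lb.t (@Lb.fp (nat_lit 3) t578)))))))))
noncomputable def l22800 : Lb := (@Lb.d (nat_lit 2) (nat_lit 38) (nat_lit 74) (@Lb.g g8 (@Lb.g g9 (@Lb.g g10 (@Lb.g g11 (@Lb.r r1543 (@Lb.r r405 (@Lb.r r2458 (@Lb.r r24 (@Lb.d (nat_lit 514) (nat_lit 104) (nat_lit 105) (@Lb.fm (nat_lit 9) t4411)))))))))))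
noncomputable def l22801 : Lb := (@Lb.r r331 (@Lb.d (nat_lit 66) (nat_lit 512) (nat_lit 0) (@Lb.g g8 (@Lb.g g10 (@Lb.r r2407 (@Lb.r r1686 (@Lb.r r1057 (@Lb.r r1348 (@Lb.d (nat_lit 338) (nat_lit 65) (nat_lit 294) (@Lb.fm (nat_lit 3) t1762))))))))))
noncomputable def l22802 : Lb := (@Lb.d (nat_lit 1) (nat_lit 294) (nat_lit 74) (@Lb.g g8 (@Lb.g g9 (@Lb.g g10 (@Lb.g g11 (@Lb.r r1543 (@Lb.r r405 (@Lb.r r2458 (@Lb.r r24 (@Lb.d (nat_lit 521) (nat_lit 96) (nat_lit 106) (@Lb.fm (nat_lit 9) t4411)))))))))))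
noncomputable def l22803 : Lb := (@Lb.d (nat_lit 2) (nat_lit 38) (nat_lit 74) (@Lb.g g8 (@Lb.g g9 (@Lb.g g10 (@Lb.g g11 (@Lb.r r1543 (@Lb.r r405 (@Lb.r r2458 (@Lb.r r24 (@Lb.d (nat_lit 521) (nat_lit 96) (nat_lit 106) (@Lb.fm (nat_lit 9) t4411)))))))))))
noncomputable def l22804 : Lb := (@Lb.d (nat_lit 32) (nat_lit 256) (nat_lit 73) (@Lb.g g10 (@Lb.g g11 (@Lb.r r289 (@Lb.r r1380 (@Lb.r r2715 (@Lb.r r2634 (@Lb.d (nat_lit 337) (nat_lit 10) (nat_lit 392) (@Lb.fm (nat_lit 3) t40)))))))))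
noncomputable def l22805 : Lb := (@Lb.d (nat_lit 9) (nat_lit 257) (nat_lit 130) (@Lb.g g8 (@Lb.g g9 (@Lb.g g10 (@Lb.g g11 (@Lb.r r1699 (@Lb.r r2216 (@Lb.r r2666 (@Lb.r r2585 (@Lb.d (nat_lit 682) (nat_lit 169) (nat_lit 104) (@Lb.fp (nat_lit 9) t4489)))))))))))
noncomputable def l22806 : Lb := (@Lb.d (nat_lit 129) (nat_lit 265) (nat_lit 129) (@Lb.g g8 (@Lb.g g9 (@Lb.g g10 (@Lb.g g11 (@Lb.r r1706 (@Lb.r r1411 (@Lb.r r665 (@Lb.r r1156 (@Lb.d (nat_lit 617) (nat_lit 169) (nat_lit 161) (@Lb.fm (nat_lit 9) t1997)))))))))))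
noncomputable def l22807 : Lb := (@Lb.d (nat_lit 2) (nat_lit 258) (nat_lit 130) (@Lb.g g8 (@Lb.g g9 (@Lb.g g10 (@Lb.g g11 (@Lb.r r2691 (@Lb.r r88 (@Lb.r r1173 (@Lb.r r1622 (@Lb.r r1188 (@Lb.d (nat_lit 641) (nat_lit 66) (nat_lit 362) (@Lb.fp (nat_lit 9) t992))))))))))))
noncomputable def l22808 : Lb := (@Lb.d (nat_lit 0) (nat_lit 288) (nat_lit 128) (@Lb.g g11 (@Lb.r r1380 (@Lb.r r293 (@Lb.r r347 (@Lb.r r2178 (@Lb.d (nat_lit 128) (nat_lit 80) (nat_lit 666) (@Lb.t (@Lb.fp (nat_lit 3) t2117)))))))))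
noncomputable def l22809 : Lb := (@Lb.d (nat_lit 2) (nat_lit 2) (nat_lit 136) (@Lb.g g8 (@Lb.g g9 (@Lb.g g11 (@Lb.r r2585 (@Lb.r r2564 (@Lb.d (nat_lit 649) (nat_lit 0) (nat_lit 578) (@Lb.t (@Lb.fm (nat_lit 9) t1135)))))))))
noncomputable def l22810 : Lb := (@Lb.r r21 (@Lb.r r70 (@Lb.d (nat_lit 513) (nat_lit 512) (nat_lit 128) (@Lb.g g4 (@Lb.g g11 (@Lb.r r583 (@Lb.r r402 (@Lb.r r25 (@Lb.d (nat_lit 256) (nat_lit 6) (nat_lit 0) (@Lb.fp (nat_lit 3) t375))))))))))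
noncomputable def l22811 : Lb := (@Lb.d (nat_lit 641) (nat_lit 514) (nat_lit 384) (@Lb.r r24 (@Lb.g g9 (@Lb.d (nat_lit 8) (nat_lit 2) (nat_lit 0) (@Lb.t (@Lb.fm (nat_lit 3) t121))))))
noncomputable def l22812 : Lb := (@Lb.r r21 (@Lb.d (nat_lit 4) (nat_lit 512) (nat_lit 130) (@Lb.g g8 (@Lb.g g10 (@Lb.g g11 (@Lb.r r427 (@Lb.r r106 (@Lb.r r25 (@Lb.d (nat_lit 9) (nat_lit 9) (nat_lit 137) (@Lb.t (@Lb.fm (nat_lit 9) t51)))))))))))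
noncomputable def l22813 : Lb := (@Lb.r r21 (@Lb.d (nat_lit 512) (nat_lit 264) (nat_lit 130) (@Lb.g g8 (@Lb.g g10 (@Lb.g g11 (@Lb.r r395 (@Lb.r r101 (@Lb.r r410 (@Lb.d (nat_lit 9) (nat_lit 21) (nat_lit 681) (@Lb.t (@Lb.fm (nat_lit 9) t221)))))))))))
noncomputable def l22814 : Lb := (@Lb.d (nat_lit 2) (nat_lit 2) (nat_lit 130) (@Lb.g g8 (@Lb.g g9 (@Lb.g g10 (@Lb.g g11 (@Lb.r r2691 (@Lb.r r2665 (@Lb.r r1686 (@Lb.r r1124 (@Lb.d (nat_lit 665) (nat_lit 138) (nat_lit 345) (@Lb.fm (nat_lit 9) t836)))))))))))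
noncomputable def l22815 : Lb := (@Lb.r r82 (@Lb.d (nat_lit 72) (nat_lit 273) (nat_lit 0) (@Lb.g g8 (@Lb.g g9 (@Lb.g g11 (@Lb.r r657 (@Lb.r r1686 (@Lb.r r1419 (@Lb.r r516 (@Lb.d (nat_lit 354) (nat_lit 5) (nat_lit 409) (@Lb.t (@Lb.fp (nat_lit 9) t4490))))))))))))
noncomputable def l22816 : Lb := (@Lb.d (nat_lit 2) (nat_lit 257) (nat_lit 0) (@Lb.g g8 (@Lb.g g9 (@Lb.r r153 (@Lb.d (nat_lit 25) (nat_lit 8) (nat_lit 1) (@Lb.fm (nat_lit 3) t97))))))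
noncomputable def l22817 : Lb := (@Lb.d (nat_lit 32) (nat_lit 578) (nat_lit 16) (@Lb.r r97 (@Lb.r r70 (@Lb.r r263 (@Lb.g g4 (@Lb.r r267 (@Lb.r r74 (@Lb.r r25 (@Lb.t (@Lb.fp (nat_lit 3) t601))))))))))
noncomputable def l22818 : Lb := (@Lb.d (nat_lit 0) (nat_lit 256) (nat_lit 130) (@Lb.g g8 (@Lb.g g10 (@Lb.g g11 (@Lb.r r2443 (@Lb.r r2193 (@Lb.r r2458 (@Lb.r r2436 (@Lb.d (nat_lit 617) (nat_lit 9) (nat_lit 546) (@Lb.t (@Lb.fp (nat_lit 9) t221)))))))))))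
noncomputable def l22819 : Lb := (@Lb.d (nat_lit 1) (nat_lit 258) (nat_lit 130) (@Lb.g g8 (@Lb.g g9 (@Lb.g g10 (@Lb.g g11 (@Lb.r r427 (@Lb.r r145 (@Lb.r r356 (@Lb.r r154 (@Lb.r r132 (@Lb.d (nat_lit 10) (nat_lit 9) (nat_lit 153) (@Lb.fm (nat_lit 9) t221))))))))))))
noncomputable def l22820 : Lb := (@Lb.g g7 (@Lb.r r101 (@Lb.r r24 (@Lb.d (nat_lit 17) (nat_lit 512) (nat_lit 69) (@Lb.t (@Lb.fm (nat_lit 3) t40))))))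
noncomputable def l22821 : Lb := (@Lb.d (nat_lit 9) (nat_lit 256) (nat_lit 64) (@Lb.g g8 (@Lb.g g11 (@Lb.r r353 (@Lb.r r663 (@Lb.r r328 (@Lb.r r134 (@Lb.d (nat_lit 522) (nat_lit 2) (nat_lit 160) (@Lb.fm (nat_lit 3) t40)))))))))
noncomputable def l22822 : Lb := (@Lb.r r21 (@Lb.d (nat_lit 17) (nat_lit 256) (nat_lit 74) (@Lb.g g8 (@Lb.g g10 (@Lb.g g11 (@Lb.r r2471 (@Lb.r r2401 (@Lb.r r1170 (@Lb.r r2116 (@Lb.d (nat_lit 552) (nat_lit 73) (nat_lit 1) (@Lb.t (@Lb.fm (nat_lit 9) t957))))))))))))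
noncomputable def l22823 : Lb := (@Lb.d (nat_lit 2) (nat_lit 1) (nat_lit 130) (@Lb.g g8 (@Lb.g g9 (@Lb.g g10 (@Lb.g g11 (@Lb.r r1451 (@Lb.r r1321 (@Lb.r r104 (@Lb.r r70 (@Lb.r r132 (@Lb.d (nat_lit 2) (nat_lit 137) (nat_lit 617) (@Lb.fp (nat_lit 9) t119))))))))))))
noncomputable def l22824 : Lb := (@Lb.d (nat_lit 16) (nat_lit 258) (nat_lit 128) (@Lb.g g8 (@Lb.g g9 (@Lb.g g10 (@Lb.g g11 (@Lb.r r680 (@Lb.r r1451 (@Lb.r r1410 (@Lb.r r25 (@Lb.d (nat_lit 522) (nat_lit 72) (nat_lit 418) (@Lb.fp (nat_lit 9) t510)))))))))))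
noncomputable def l22825 : Lb := (@Lb.d (nat_lit 0) (nat_lit 2) (nat_lit 128) (@Lb.g g9 (@Lb.g g10 (@Lb.g g11 (@Lb.r r387 (@Lb.r r593 (@Lb.r r1126 (@Lb.r r2436 (@Lb.d (nat_lit 261) (nat_lit 38) (nat_lit 85) (@Lb.t (@Lb.fm (nat_lit 9) t4491)))))))))))
noncomputable def l22826 : Lb := (@Lb.d (nat_lit 0) (nat_lit 544) (nat_lit 130) (@Lb.g g8 (@Lb.g g10 (@Lb.g g11 (@Lb.r r618 (@Lb.r r149 (@Lb.r r340 (@Lb.r r2587 (@Lb.d (nat_lit 322) (nat_lit 137) (nat_lit 386) (@Lb.t (@Lb.fp (nat_lit 9) t71)))))))))))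
noncomputable def l22827 : Lb := (@Lb.d (nat_lit 2) (nat_lit 514) (nat_lit 130) (@Lb.g g8 (@Lb.g g9 (@Lb.g g10 (@Lb.g g11 (@Lb.r r1642 (@Lb.r r612 (@Lb.r r295 (@Lb.r r1313 (@Lb.r r1060 (@Lb.d (nat_lit 538) (nat_lit 161) (nat_lit 416) (@Lb.fm (nat_lit 9) t4492))))))))))))
noncomputable def l22828 : Lb := (@Lb.d (nat_lit 9) (nat_lit 1) (nat_lit 73) (@Lb.g g8 (@Lb.g g9 (@Lb.g g10 (@Lb.g g11 (@Lb.r r2691 (@Lb.r r153 (@Lb.r r2642 (@Lb.r r2193 (@Lb.d (nat_lit 656) (nat_lit 160) (nat_lit 73) (@Lb.fm (nat_lit 9) t247)))))))))))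
noncomputable def l22829 : Lb := (@Lb.d (nat_lit 145) (nat_lit 277) (nat_lit 165) (@Lb.r r293 (@Lb.r r600 (@Lb.r r322 (@Lb.r r643 (@Lb.g g7 (@Lb.g g6 (@Lb.g g5 (@Lb.d (nat_lit 4) (nat_lit 32) (nat_lit 70) (@Lb.t (@Lb.fm (nat_lit 9) t629)))))))))))
noncomputable def l22830 : Lb := (@Lb.r r21 (@Lb.d (nat_lit 24) (nat_lit 0) (nat_lit 2) (@Lb.g g8 (@Lb.g g6 (@Lb.r r1429 (@Lb.r r2667 (@Lb.r r2660 (@Lb.d (nat_lit 649) (nat_lit 90) (nat_lit 408) (@Lb.fm (nat_lit 3) t744)))))))))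
noncomputable def l22831 : Lb := (@Lb.r r21 (@Lb.r r323 (@Lb.d (nat_lit 24) (nat_lit 256) (nat_lit 40) (@Lb.g g8 (@Lb.g g10 (@Lb.r r2663 (@Lb.r r2581 (@Lb.r r1316 (@Lb.d (nat_lit 330) (nat_lit 32) (nat_lit 278) (@Lb.fp (nat_lit 3) t150))))))))))
noncomputable def l22832 : Lb := (@Lb.d (nat_lit 16) (nat_lit 514) (nat_lit 2) (@Lb.g g8 (@Lb.g g9 (@Lb.g g6 (@Lb.r r2665 (@Lb.r r2411 (@Lb.r r2404 (@Lb.d (nat_lit 585) (nat_lit 106) (nat_lit 660) (@Lb.t (@Lb.fm (nat_lit 9) t744))))))))))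
noncomputable def l22833 : Lb := (@Lb.d (nat_lit 1) (nat_lit 512) (nat_lit 66) (@Lb.g g8 (@Lb.g g9 (@Lb.g g10 (@Lb.g g11 (@Lb.r r1303 (@Lb.r r2713 (@Lb.r r2650 (@Lb.r r2628 (@Lb.d (nat_lit 401) (nat_lit 2) (nat_lit 425) (@Lb.fp (nat_lit 9) t441)))))))))))
noncomputable def l22834 : Lb := (@Lb.r r323 (@Lb.d (nat_lit 32) (nat_lit 578) (nat_lit 2) (@Lb.g g9 (@Lb.g g10 (@Lb.r r600 (@Lb.r r347 (@Lb.r r2658 (@Lb.d (nat_lit 292) (nat_lit 153) (nat_lit 289) (@Lb.fp (nat_lit 3) t578)))))))))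
noncomputable def l22835 : Lb := (@Lb.r r323 (@Lb.d (nat_lit 32) (nat_lit 329) (nat_lit 1) (@Lb.g g9 (@Lb.g g10 (@Lb.r r600 (@Lb.r r347 (@Lb.r r2658 (@Lb.d (nat_lit 290) (nat_lit 89) (nat_lit 289) (@Lb.fp (nat_lit 3) t730)))))))))
noncomputable def l22836 : Lb := (@Lb.d (nat_lit 1) (nat_lit 0) (nat_lit 66) (@Lb.g g8 (@Lb.g g9 (@Lb.g g10 (@Lb.g g11 (@Lb.r r1303 (@Lb.r r2713 (@Lb.r r2650 (@Lb.r r2628 (@Lb.d (nat_lit 408) (nat_lit 1) (nat_lit 425) (@Lb.fp (nat_lit 9) t441)))))))))))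
noncomputable def l22837 : Lb := (@Lb.r r323 (@Lb.d (nat_lit 32) (nat_lit 66) (nat_lit 2) (@Lb.g g9 (@Lb.g g10 (@Lb.r r600 (@Lb.r r347 (@Lb.r r2658 (@Lb.d (nat_lit 290) (nat_lit 89) (nat_lit 289) (@Lb.fp (nat_lit 3) t578)))))))))
noncomputable def l22838 : Lb := (@Lb.r r21 (@Lb.r r263 (@Lb.d (nat_lit 2) (nat_lit 512) (nat_lit 2) (@Lb.g g8 (@Lb.g g10 (@Lb.r r1691 (@Lb.r r386 (@Lb.r r97 (@Lb.r r584 (@Lb.d (nat_lit 352) (nat_lit 26) (nat_lit 256) (@Lb.fm (nat_lit 3) t4493)))))))))))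
noncomputable def l22839 : Lb := (@Lb.r r21 (@Lb.r r70 (@Lb.d (nat_lit 409) (nat_lit 256) (nat_lit 64) (@Lb.g g8 (@Lb.g g11 (@Lb.r r2459 (@Lb.r r1114 (@Lb.r r37 (@Lb.d (nat_lit 2) (nat_lit 128) (nat_lit 394) (@Lb.fp (nat_lit 3) t916))))))))))
noncomputable def l22840 : Lb := (@Lb.d (nat_lit 146) (nat_lit 521) (nat_lit 66) (@Lb.g g8 (@Lb.g g9 (@Lb.g g10 (@Lb.g g11 (@Lb.r r427 (@Lb.r r1602 (@Lb.r r409 (@Lb.r r388 (@Lb.d (nat_lit 105) (nat_lit 40) (nat_lit 73) (@Lb.fp (nat_lit 9) t3226)))))))))))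
noncomputable def l22841 : Lb := (@Lb.d (nat_lit 154) (nat_lit 514) (nat_lit 130) (@Lb.g g8 (@Lb.g g9 (@Lb.g g10 (@Lb.g g11 (@Lb.r r580 (@Lb.r r2455 (@Lb.r r1634 (@Lb.r r549 (@Lb.r r20 (@Lb.d (nat_lit 672) (nat_lit 74) (nat_lit 528) (@Lb.fm (nat_lit 9) t4494))))))))))))
noncomputable def l22842 : Lb := (@Lb.d (nat_lit 0) (nat_lit 256) (nat_lit 2) (@Lb.g g10 (@Lb.r r2579 (@Lb.r r1620 (@Lb.r r2122 (@Lb.r r289 (@Lb.d (nat_lit 362) (nat_lit 132) (nat_lit 594) (@Lb.t (@Lb.fp (nat_lit 3) t4495)))))))))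
noncomputable def l22843 : Lb := (@Lb.d (nat_lit 0) (nat_lit 2) (nat_lit 2) (@Lb.g g9 (@Lb.g g10 (@Lb.r r1685 (@Lb.r r2404 (@Lb.r r1691 (@Lb.r r1610 (@Lb.d (nat_lit 609) (nat_lit 90) (nat_lit 281) (@Lb.fp (nat_lit 3) t2118)))))))))
noncomputable def l22844 : Lb := (@Lb.d (nat_lit 144) (nat_lit 0) (nat_lit 130) (@Lb.g g8 (@Lb.g g9 (@Lb.g g10 (@Lb.g g11 (@Lb.r r273 (@Lb.r r1707 (@Lb.r r1610 (@Lb.r r2600 (@Lb.r r2201 (@Lb.d (nat_lit 266) (nat_lit 88) (nat_lit 9) (@Lb.fp (nat_lit 9) t1369))))))))))))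
noncomputable def l22845 : Lb := (@Lb.d (nat_lit 154) (nat_lit 258) (nat_lit 130) (@Lb.g g8 (@Lb.g g9 (@Lb.g g10 (@Lb.g g11 (@Lb.r r273 (@Lb.r r1707 (@Lb.r r1610 (@Lb.r r2600 (@Lb.r r2201 (@Lb.d (nat_lit 266) (nat_lit 88) (nat_lit 9) (@Lb.fp (nat_lit 9) t1369))))))))))))
noncomputable def l22846 : Lb := (@Lb.d (nat_lit 2) (nat_lit 0) (nat_lit 134) (@Lb.g g8 (@Lb.g g9 (@Lb.g g10 (@Lb.g g11 (@Lb.r r2467 (@Lb.r r418 (@Lb.r r36 (@Lb.r r149 (@Lb.r r36 (@Lb.d (nat_lit 161) (nat_lit 5) (nat_lit 644) (@Lb.fm (nat_lit 9) t592))))))))))))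
noncomputable def l22847 : Lb := (@Lb.r r82 (@Lb.r r275 (@Lb.d (nat_lit 130) (nat_lit 518) (nat_lit 0) (@Lb.g g8 (@Lb.g g9 (@Lb.r r599 (@Lb.r r98 (@Lb.r r264 (@Lb.d (nat_lit 130) (nat_lit 138) (nat_lit 129) (@Lb.fm (nat_lit 3) t789))))))))))
noncomputable def l22848 : Lb := (@Lb.d (nat_lit 2) (nat_lit 512) (nat_lit 132) (@Lb.g g8 (@Lb.g g9 (@Lb.g g10 (@Lb.g g11 (@Lb.r r1619 (@Lb.r r1429 (@Lb.r r1448 (@Lb.r r1418 (@Lb.d (nat_lit 641) (nat_lit 5) (nat_lit 128) (@Lb.fm (nat_lit 9) t592)))))))))))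
noncomputable def l22849 : Lb := (@Lb.d (nat_lit 8) (nat_lit 512) (nat_lit 134) (@Lb.g g9 (@Lb.g g10 (@Lb.g g11 (@Lb.r r2471 (@Lb.r r422 (@Lb.r r88 (@Lb.r r85 (@Lb.d (nat_lit 149) (nat_lit 8) (nat_lit 644) (@Lb.t (@Lb.fm (nat_lit 9) t592)))))))))))
noncomputable def l22850 : Lb := (@Lb.d (nat_lit 8) (nat_lit 258) (nat_lit 68) (@Lb.g g9 (@Lb.g g7 (@Lb.r r24 (@Lb.d (nat_lit 0) (nat_lit 2) (nat_lit 70) (@Lb.fm (nat_lit 3) t2))))))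
noncomputable def l22851 : Lb := (@Lb.d (nat_lit 8) (nat_lit 514) (nat_lit 0) (@Lb.g g9 (@Lb.g g7 (@Lb.r r24 (@Lb.d (nat_lit 0) (nat_lit 2) (nat_lit 69) (@Lb.fm (nat_lit 3) t2))))))
noncomputable def l22852 : Lb := (@Lb.r r322 (@Lb.d (nat_lit 32) (nat_lit 258) (nat_lit 576) (@Lb.g g8 (@Lb.g g9 (@Lb.g g7 (@Lb.r r361 (@Lb.r r150 (@Lb.r r1384 (@Lb.d (nat_lit 277) (nat_lit 160) (nat_lit 1) (@Lb.t (@Lb.fm (nat_lit 9) t1013)))))))))))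
noncomputable def l22853 : Lb := (@Lb.d (nat_lit 0) (nat_lit 134) (nat_lit 262) (@Lb.r r82 (@Lb.r r417 (@Lb.g g11 (@Lb.g g6 (@Lb.g g5 (@Lb.d (nat_lit 0) (nat_lit 1) (nat_lit 1) (@Lb.t (@Lb.fp (nat_lit 9) t4496)))))))))
noncomputable def l22854 : Lb := (@Lb.d (nat_lit 646) (nat_lit 129) (nat_lit 660) (@Lb.r r1301 (@Lb.r r1430 (@Lb.g g7 (@Lb.g g5 (@Lb.g g4 (@Lb.d (nat_lit 345) (nat_lit 0) (nat_lit 576) (@Lb.r r578 (@Lb.t (@Lb.fm (nat_lit 9) t4497))))))))))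
noncomputable def l22855 : Lb := (@Lb.r r81 (@Lb.r r323 (@Lb.d (nat_lit 10) (nat_lit 0) (nat_lit 33) (@Lb.g g8 (@Lb.g g6 (@Lb.r r149 (@Lb.r r1448 (@Lb.r r2567 (@Lb.d (nat_lit 290) (nat_lit 24) (nat_lit 425) (@Lb.fp (nat_lit 3) t3112))))))))))
noncomputable def l22856 : Lb := (@Lb.r r81 (@Lb.r r323 (@Lb.d (nat_lit 8) (nat_lit 512) (nat_lit 33) (@Lb.g g8 (@Lb.g g6 (@Lb.r r149 (@Lb.r r1448 (@Lb.r r2567 (@Lb.d (nat_lit 290) (nat_lit 24) (nat_lit 425) (@Lb.fp (nat_lit 3) t3112))))))))))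
noncomputable def l22857 : Lb := (@Lb.r r82 (@Lb.r r275 (@Lb.d (nat_lit 8) (nat_lit 514) (nat_lit 0) (@Lb.g g9 (@Lb.r r536 (@Lb.r r283 (@Lb.r r593 (@Lb.r r98 (@Lb.d (nat_lit 0) (nat_lit 136) (nat_lit 0) (@Lb.t (@Lb.fm (nat_lit 3) t3962)))))))))))
noncomputable def l22858 : Lb := (@Lb.d (nat_lit 0) (nat_lit 32) (nat_lit 136) (@Lb.g g11 (@Lb.r r2449 (@Lb.r r1426 (@Lb.r r355 (@Lb.d (nat_lit 0) (nat_lit 74) (nat_lit 262) (@Lb.t (@Lb.fm (nat_lit 3) t246))))))))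
noncomputable def l22859 : Lb := (@Lb.r r21 (@Lb.d (nat_lit 129) (nat_lit 256) (nat_lit 130) (@Lb.g g8 (@Lb.g g10 (@Lb.g g11 (@Lb.r r1176 (@Lb.r r677 (@Lb.r r1443 (@Lb.r r98 (@Lb.d (nat_lit 0) (nat_lit 85) (nat_lit 261) (@Lb.t (@Lb.fm (nat_lit 9) t211))))))))))))
noncomputable def l22860 : Lb := (@Lb.d (nat_lit 10) (nat_lit 0) (nat_lit 64) (@Lb.g g8 (@Lb.g g11 (@Lb.r r677 (@Lb.r r2726 (@Lb.r r1703 (@Lb.r r1112 (@Lb.d (nat_lit 680) (nat_lit 4) (nat_lit 402) (@Lb.fm (nat_lit 3) t1639)))))))))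
noncomputable def l22861 : Lb := (@Lb.r r323 (@Lb.d (nat_lit 138) (nat_lit 0) (nat_lit 2) (@Lb.g g8 (@Lb.g g10 (@Lb.r r346 (@Lb.r r661 (@Lb.r r1431 (@Lb.r r2632 (@Lb.d (nat_lit 153) (nat_lit 65) (nat_lit 153) (@Lb.fp (nat_lit 3) t1994))))))))))
noncomputable def l22862 : Lb := (@Lb.r r323 (@Lb.d (nat_lit 2) (nat_lit 512) (nat_lit 2) (@Lb.g g8 (@Lb.g g10 (@Lb.r r1351 (@Lb.r r2186 (@Lb.r r1561 (@Lb.r r2564 (@Lb.d (nat_lit 593) (nat_lit 0) (nat_lit 548) (@Lb.fp (nat_lit 3) t946))))))))))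
noncomputable def l22863 : Lb := (@Lb.d (nat_lit 146) (nat_lit 0) (nat_lit 74) (@Lb.g g8 (@Lb.g g10 (@Lb.g g11 (@Lb.r r1675 (@Lb.r r644 (@Lb.r r2198 (@Lb.r r2145 (@Lb.d (nat_lit 9) (nat_lit 97) (nat_lit 384) (@Lb.t (@Lb.fp (nat_lit 9) t472)))))))))))
noncomputable def l22864 : Lb := (@Lb.d (nat_lit 10) (nat_lit 0) (nat_lit 0) (@Lb.g g4 (@Lb.r r153 (@Lb.r r1176 (@Lb.d (nat_lit 293) (nat_lit 21) (nat_lit 297) (@Lb.t (@Lb.fp (nat_lit 3) t1174)))))))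
noncomputable def l22865 : Lb := (@Lb.r r323 (@Lb.d (nat_lit 2) (nat_lit 34) (nat_lit 2) (@Lb.g g8 (@Lb.g g9 (@Lb.g g10 (@Lb.r r275 (@Lb.r r74 (@Lb.r r616 (@Lb.r r537 (@Lb.d (nat_lit 677) (nat_lit 106) (nat_lit 289) (@Lb.t (@Lb.fp (nat_lit 9) t1994))))))))))))
noncomputable def l22866 : Lb := (@Lb.d (nat_lit 146) (nat_lit 258) (nat_lit 74) (@Lb.g g8 (@Lb.g g9 (@Lb.g g10 (@Lb.g g11 (@Lb.r r683 (@Lb.r r2410 (@Lb.r r1561 (@Lb.r r1540 (@Lb.d (nat_lit 388) (nat_lit 89) (nat_lit 128) (@Lb.fm (nat_lit 9) t2228)))))))))))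
noncomputable def l22867 : Lb := (@Lb.d (nat_lit 128) (nat_lit 0) (nat_lit 130) (@Lb.g g9 (@Lb.g g10 (@Lb.g g11 (@Lb.r r264 (@Lb.r r519 (@Lb.r r618 (@Lb.r r609 (@Lb.d (nat_lit 266) (nat_lit 65) (nat_lit 384) (@Lb.t (@Lb.fp (nat_lit 9) t3920)))))))))))
noncomputable def l22868 : Lb := (@Lb.d (nat_lit 2) (nat_lit 2) (nat_lit 130) (@Lb.g g8 (@Lb.g g9 (@Lb.g g10 (@Lb.g g11 (@Lb.r r1443 (@Lb.r r297 (@Lb.r r2120 (@Lb.r r1126 (@Lb.d (nat_lit 282) (nat_lit 5) (nat_lit 330) (@Lb.fp (nat_lit 9) t4498)))))))))))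
noncomputable def l22869 : Lb := (@Lb.d (nat_lit 134) (nat_lit 582) (nat_lit 582) (@Lb.r r2194 (@Lb.r r2385 (@Lb.r r1703 (@Lb.g g7 (@Lb.g g6 (@Lb.g g5 (@Lb.g g8 (@Lb.d (nat_lit 10) (nat_lit 1) (nat_lit 64) (@Lb.fm (nat_lit 9) t1747))))))))))
noncomputable def l22870 : Lb := (@Lb.d (nat_lit 2) (nat_lit 258) (nat_lit 130) (@Lb.g g8 (@Lb.g g9 (@Lb.g g10 (@Lb.g g11 (@Lb.r r2439 (@Lb.r r1604 (@Lb.r r106 (@Lb.r r97 (@Lb.d (nat_lit 10) (nat_lit 170) (nat_lit 641) (@Lb.fm (nat_lit 9) t295)))))))))))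
noncomputable def l22871 : Lb := (@Lb.d (nat_lit 146) (nat_lit 322) (nat_lit 130) (@Lb.g g8 (@Lb.g g5 (@Lb.g g10 (@Lb.g g11 (@Lb.r r295 (@Lb.r r2708 (@Lb.r r1174 (@Lb.d (nat_lit 37) (nat_lit 106) (nat_lit 130) (@Lb.fp (nat_lit 9) t958))))))))))
noncomputable def l22872 : Lb := (@Lb.d (nat_lit 146) (nat_lit 2) (nat_lit 74) (@Lb.g g8 (@Lb.g g9 (@Lb.g g10 (@Lb.g g11 (@Lb.r r1706 (@Lb.r r1419 (@Lb.r r1188 (@Lb.r r37 (@Lb.d (nat_lit 65) (nat_lit 8) (nat_lit 612) (@Lb.fp (nat_lit 9) t4039)))))))))))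
noncomputable def l22873 : Lb := (@Lb.d (nat_lit 1) (nat_lit 261) (nat_lit 74) (@Lb.g g8 (@Lb.g g9 (@Lb.g g10 (@Lb.g g11 (@Lb.r r2691 (@Lb.r r1450 (@Lb.r r1321 (@Lb.r r36 (@Lb.d (nat_lit 649) (nat_lit 34) (nat_lit 680) (@Lb.fm (nat_lit 9) t1256)))))))))))
noncomputable def l22874 : Lb := (@Lb.d (nat_lit 148) (nat_lit 512) (nat_lit 128) (@Lb.g g8 (@Lb.g g9 (@Lb.g g10 (@Lb.g g11 (@Lb.r r1706 (@Lb.r r1411 (@Lb.r r2201 (@Lb.r r408 (@Lb.d (nat_lit 385) (nat_lit 24) (nat_lit 261) (@Lb.fp (nat_lit 9) t4499)))))))))))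
noncomputable def l22875 : Lb := (@Lb.r r81 (@Lb.d (nat_lit 154) (nat_lit 40) (nat_lit 146) (@Lb.g g8 (@Lb.g g6 (@Lb.g g11 (@Lb.r r2449 (@Lb.r r295 (@Lb.r r1608 (@Lb.d (nat_lit 346) (nat_lit 34) (nat_lit 145) (@Lb.t (@Lb.fm (nat_lit 9) t4500)))))))))))
noncomputable def l22876 : Lb := (@Lb.d (nat_lit 134) (nat_lit 256) (nat_lit 130) (@Lb.g g8 (@Lb.g g9 (@Lb.g g10 (@Lb.g g11 (@Lb.r r1706 (@Lb.r r1411 (@Lb.r r665 (@Lb.r r1176 (@Lb.d (nat_lit 533) (nat_lit 164) (nat_lit 353) (@Lb.fp (nat_lit 9) t799)))))))))))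
noncomputable def l22877 : Lb := (@Lb.d (nat_lit 69) (nat_lit 550) (nat_lit 166) (@Lb.r r408 (@Lb.r r330 (@Lb.r r343 (@Lb.g g5 (@Lb.g g4 (@Lb.d (nat_lit 17) (nat_lit 37) (nat_lit 0) (@Lb.r r291 (@Lb.r r98 (@Lb.fp (nat_lit 3) t98))))))))))
noncomputable def l22878 : Lb := (@Lb.d (nat_lit 0) (nat_lit 2) (nat_lit 130) (@Lb.g g8 (@Lb.g g9 (@Lb.g g10 (@Lb.g g11 (@Lb.r r427 (@Lb.r r420 (@Lb.r r102 (@Lb.r r97 (@Lb.r r36 (@Lb.d (nat_lit 9) (nat_lit 137) (nat_lit 137) (@Lb.fm (nat_lit 9) t51))))))))))))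
noncomputable def l22879 : Lb := (@Lb.r r322 (@Lb.r r1667 (@Lb.r r578 (@Lb.r r33 (@Lb.r r36 (@Lb.d (nat_lit 1) (nat_lit 640) (nat_lit 0) (@Lb.fp (nat_lit 1) t2)))))))
noncomputable def l22880 : Lb := (@Lb.r r275 (@Lb.d (nat_lit 2) (nat_lit 9) (nat_lit 1) (@Lb.g g8 (@Lb.g g9 (@Lb.g g10 (@Lb.r r2647 (@Lb.r r2154 (@Lb.r r680 (@Lb.r r601 (@Lb.d (nat_lit 265) (nat_lit 33) (nat_lit 65) (@Lb.t (@Lb.fm (nat_lit 9) t98))))))))))))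
noncomputable def l22881 : Lb := (@Lb.d (nat_lit 144) (nat_lit 257) (nat_lit 64) (@Lb.g g8 (@Lb.g g9 (@Lb.g g10 (@Lb.g g11 (@Lb.r r2201 (@Lb.r r596 (@Lb.r r2439 (@Lb.r r1430 (@Lb.r r1540 (@Lb.d (nat_lit 358) (nat_lit 69) (nat_lit 673) (@Lb.fm (nat_lit 9) t524))))))))))))
noncomputable def l22882 : Lb := (@Lb.d (nat_lit 0) (nat_lit 294) (nat_lit 534) (@Lb.r r338 (@Lb.r r1699 (@Lb.g g6 (@Lb.g g5 (@Lb.d (nat_lit 0) (nat_lit 130) (nat_lit 0) (@Lb.r r36 (@Lb.fp (nat_lit 3) t154))))))))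
noncomputable def l22883 : Lb := (@Lb.d (nat_lit 8) (nat_lit 2) (nat_lit 64) (@Lb.g g9 (@Lb.g g11 (@Lb.r r1540 (@Lb.r r679 (@Lb.r r2178 (@Lb.r r613 (@Lb.d (nat_lit 154) (nat_lit 81) (nat_lit 538) (@Lb.fp (nat_lit 3) t3351)))))))))
noncomputable def l22884 : Lb := (@Lb.d (nat_lit 0) (nat_lit 549) (nat_lit 260) (@Lb.r r609 (@Lb.r r1379 (@Lb.g g10 (@Lb.g g5 (@Lb.d (nat_lit 0) (nat_lit 17) (nat_lit 17) (@Lb.r r36 (@Lb.fm (nat_lit 3) t1222))))))))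
noncomputable def l22885 : Lb := (@Lb.d (nat_lit 2) (nat_lit 265) (nat_lit 72) (@Lb.g g8 (@Lb.g g9 (@Lb.g g10 (@Lb.g g11 (@Lb.r r2705 (@Lb.r r535 (@Lb.r r2440 (@Lb.r r2458 (@Lb.d (nat_lit 404) (nat_lit 32) (nat_lit 134) (@Lb.fm (nat_lit 9) t2153)))))))))))
noncomputable def l22886 : Lb := (@Lb.d (nat_lit 646) (nat_lit 86) (nat_lit 18) (@Lb.r r1301 (@Lb.r r1366 (@Lb.r r683 (@Lb.g g6 (@Lb.g g5 (@Lb.g g4 (@Lb.d (nat_lit 8) (nat_lit 0) (nat_lit 1) (@Lb.t (@Lb.fm (nat_lit 9) t578))))))))))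
noncomputable def l22887 : Lb := (@Lb.d (nat_lit 144) (nat_lit 2) (nat_lit 402) (@Lb.r r386 (@Lb.r r2375 (@Lb.r r1560 (@Lb.g g7 (@Lb.g g9 (@Lb.d (nat_lit 8) (nat_lit 80) (nat_lit 64) (@Lb.r r98 (@Lb.r r36 (@Lb.fp (nat_lit 3) t344))))))))))
noncomputable def l22888 : Lb := (@Lb.r r21 (@Lb.r r70 (@Lb.d (nat_lit 265) (nat_lit 256) (nat_lit 128) (@Lb.g g4 (@Lb.g g11 (@Lb.r r583 (@Lb.r r402 (@Lb.r r25 (@Lb.d (nat_lit 517) (nat_lit 130) (nat_lit 2) (@Lb.fp (nat_lit 3) t375))))))))))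
noncomputable def l22889 : Lb := (@Lb.r r21 (@Lb.r r70 (@Lb.d (nat_lit 656) (nat_lit 512) (nat_lit 256) (@Lb.g g4 (@Lb.g g7 (@Lb.r r2454 (@Lb.r r97 (@Lb.d (nat_lit 1) (nat_lit 130) (nat_lit 389) (@Lb.fm (nat_lit 3) t2537)))))))))
noncomputable def l22890 : Lb := (@Lb.d (nat_lit 2) (nat_lit 38) (nat_lit 65) (@Lb.r r338 (@Lb.g g7 (@Lb.g g6 (@Lb.g g5 (@Lb.d (nat_lit 4) (nat_lit 129) (nat_lit 128) (@Lb.r r36 (@Lb.t (@Lb.fp (nat_lit 9) t253)))))))))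
noncomputable def l22891 : Lb := (@Lb.d (nat_lit 146) (nat_lit 548) (nat_lit 64) (@Lb.g g8 (@Lb.g g9 (@Lb.g g10 (@Lb.g g11 (@Lb.r r2731 (@Lb.r r612 (@Lb.r r1114 (@Lb.r r1193 (@Lb.r r20 (@Lb.d (nat_lit 276) (nat_lit 136) (nat_lit 649) (@Lb.fp (nat_lit 9) t1014))))))))))))
noncomputable def l22892 : Lb := (@Lb.d (nat_lit 0) (nat_lit 514) (nat_lit 130) (@Lb.g g8 (@Lb.g g9 (@Lb.g g10 (@Lb.g g11 (@Lb.r r2691 (@Lb.r r2665 (@Lb.r r1686 (@Lb.r r1124 (@Lb.d (nat_lit 658) (nat_lit 136) (nat_lit 281) (@Lb.fm (nat_lit 9) t4501)))))))))))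
noncomputable def l22893 : Lb := (@Lb.r r21 (@Lb.d (nat_lit 33) (nat_lit 0) (nat_lit 72) (@Lb.g g8 (@Lb.g g10 (@Lb.g g11 (@Lb.r r579 (@Lb.r r1638 (@Lb.r r97 (@Lb.r r2580 (@Lb.d (nat_lit 641) (nat_lit 96) (nat_lit 640) (@Lb.t (@Lb.fm (nat_lit 9) t261))))))))))))
noncomputable def l22894 : Lb := (@Lb.d (nat_lit 144) (nat_lit 512) (nat_lit 657) (@Lb.r r1355 (@Lb.r r1606 (@Lb.g g7 (@Lb.g g8 (@Lb.fp (nat_lit 3) t2608))))))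
noncomputable def l22895 : Lb := (@Lb.d (nat_lit 144) (nat_lit 548) (nat_lit 64) (@Lb.g g8 (@Lb.g g9 (@Lb.g g10 (@Lb.g g11 (@Lb.r r419 (@Lb.r r1610 (@Lb.r r1624 (@Lb.r r293 (@Lb.d (nat_lit 516) (nat_lit 168) (nat_lit 594) (@Lb.fp (nat_lit 9) t1039)))))))))))
noncomputable def l22896 : Lb := (@Lb.r r24 (@Lb.r r101 (@Lb.d (nat_lit 280) (nat_lit 346) (nat_lit 410) (@Lb.fp (nat_lit 1) t1174))))
noncomputable def l22897 : Lb := (@Lb.d (nat_lit 4) (nat_lit 514) (nat_lit 73) (@Lb.g g8 (@Lb.g g9 (@Lb.g g10 (@Lb.g g11 (@Lb.r r618 (@Lb.r r579 (@Lb.r r1121 (@Lb.r r24 (@Lb.d (nat_lit 146) (nat_lit 138) (nat_lit 342) (@Lb.fm (nat_lit 9) t61)))))))))))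
noncomputable def l22898 : Lb := (@Lb.d (nat_lit 0) (nat_lit 514) (nat_lit 73) (@Lb.g g9 (@Lb.g g10 (@Lb.g g11 (@Lb.r r2691 (@Lb.r r536 (@Lb.r r1637 (@Lb.r r2714 (@Lb.r r132 (@Lb.d (nat_lit 677) (nat_lit 161) (nat_lit 138) (@Lb.t (@Lb.fm (nat_lit 9) t1866))))))))))))
noncomputable def l22899 : Lb := (@Lb.r r21 (@Lb.d (nat_lit 33) (nat_lit 0) (nat_lit 72) (@Lb.g g8 (@Lb.g g10 (@Lb.g g11 (@Lb.r r323 (@Lb.r r1382 (@Lb.r r97 (@Lb.r r2324 (@Lb.d (nat_lit 577) (nat_lit 80) (nat_lit 389) (@Lb.t (@Lb.fp (nat_lit 9) t2537))))))))))))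
noncomputable def l22900 : Lb := (@Lb.d (nat_lit 2) (nat_lit 257) (nat_lit 73) (@Lb.g g8 (@Lb.g g9 (@Lb.g g10 (@Lb.g g11 (@Lb.r r618 (@Lb.r r579 (@Lb.r r1121 (@Lb.r r24 (@Lb.d (nat_lit 153) (nat_lit 137) (nat_lit 342) (@Lb.fm (nat_lit 9) t61)))))))))))
noncomputable def l22901 : Lb := (@Lb.d (nat_lit 2) (nat_lit 2) (nat_lit 130) (@Lb.g g8 (@Lb.g g9 (@Lb.g g10 (@Lb.g g11 (@Lb.r r427 (@Lb.r r145 (@Lb.r r356 (@Lb.r r154 (@Lb.r r132 (@Lb.d (nat_lit 282) (nat_lit 2) (nat_lit 170) (@Lb.fm (nat_lit 9) t61))))))))))))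
noncomputable def l22902 : Lb := (@Lb.r r323 (@Lb.d (nat_lit 8) (nat_lit 514) (nat_lit 18) (@Lb.g g9 (@Lb.g g10 (@Lb.r r584 (@Lb.r r299 (@Lb.r r409 (@Lb.d (nat_lit 282) (nat_lit 69) (nat_lit 168) (@Lb.fp (nat_lit 3) t450)))))))))
noncomputable def l22903 : Lb := (@Lb.r r323 (@Lb.d (nat_lit 4) (nat_lit 512) (nat_lit 2) (@Lb.g g8 (@Lb.g g9 (@Lb.g g10 (@Lb.r r2600 (@Lb.r r2347 (@Lb.r r2465 (@Lb.r r2146 (@Lb.d (nat_lit 292) (nat_lit 10) (nat_lit 129) (@Lb.t (@Lb.fm (nat_lit 9) t787))))))))))))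
noncomputable def l22904 : Lb := (@Lb.d (nat_lit 146) (nat_lit 137) (nat_lit 72) (@Lb.g g8 (@Lb.g g5 (@Lb.g g10 (@Lb.g g11 (@Lb.r r276 (@Lb.r r2571 (@Lb.r r406 (@Lb.r r1540 (@Lb.d (nat_lit 37) (nat_lit 105) (nat_lit 400) (@Lb.fm (nat_lit 9) t1167)))))))))))
noncomputable def l22905 : Lb := (@Lb.d (nat_lit 2) (nat_lit 550) (nat_lit 534) (@Lb.r r338 (@Lb.r r1699 (@Lb.g g6 (@Lb.g g5 (@Lb.d (nat_lit 4) (nat_lit 129) (nat_lit 0) (@Lb.r r36 (@Lb.fp (nat_lit 3) t253))))))))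
noncomputable def l22906 : Lb := (@Lb.g g9 (@Lb.r r2343 (@Lb.r r1096 (@Lb.r r2646 (@Lb.r r409 (@Lb.d (nat_lit 272) (nat_lit 584) (nat_lit 18) (@Lb.t (@Lb.fm (nat_lit 3) t450))))))))
noncomputable def l22907 : Lb := (@Lb.r r323 (@Lb.d (nat_lit 0) (nat_lit 256) (nat_lit 2) (@Lb.g g9 (@Lb.g g10 (@Lb.r r102 (@Lb.r r404 (@Lb.r r299 (@Lb.r r289 (@Lb.d (nat_lit 618) (nat_lit 165) (nat_lit 613) (@Lb.fp (nat_lit 3) t1663))))))))))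
noncomputable def l22908 : Lb := (@Lb.d (nat_lit 646) (nat_lit 8) (nat_lit 577) (@Lb.r r1301 (@Lb.r r1430 (@Lb.g g7 (@Lb.g g5 (@Lb.g g4 (@Lb.d (nat_lit 1) (nat_lit 1) (nat_lit 4) (@Lb.r r578 (@Lb.t (@Lb.fm (nat_lit 9) t375))))))))))
noncomputable def l22909 : Lb := (@Lb.d (nat_lit 4) (nat_lit 529) (nat_lit 137) (@Lb.g g8 (@Lb.g g9 (@Lb.g g10 (@Lb.g g11 (@Lb.r r427 (@Lb.r r388 (@Lb.r r86 (@Lb.r r2193 (@Lb.r r1060 (@Lb.d (nat_lit 33) (nat_lit 105) (nat_lit 262) (@Lb.fp (nat_lit 9) t1161))))))))))))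
noncomputable def l22910 : Lb := (@Lb.r r82 (@Lb.d (nat_lit 4) (nat_lit 264) (nat_lit 128) (@Lb.g g8 (@Lb.g g9 (@Lb.g g11 (@Lb.r r363 (@Lb.r r2630 (@Lb.r r2456 (@Lb.r r2149 (@Lb.d (nat_lit 550) (nat_lit 36) (nat_lit 278) (@Lb.t (@Lb.fm (nat_lit 9) t2774))))))))))))
noncomputable def l22911 : Lb := (@Lb.d (nat_lit 4) (nat_lit 517) (nat_lit 128) (@Lb.g g8 (@Lb.g g9 (@Lb.g g10 (@Lb.g g11 (@Lb.r r427 (@Lb.r r424 (@Lb.r r2122 (@Lb.r r145 (@Lb.d (nat_lit 289) (nat_lit 169) (nat_lit 294) (@Lb.fm (nat_lit 9) t1161)))))))))))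
noncomputable def l22912 : Lb := (@Lb.d (nat_lit 4) (nat_lit 262) (nat_lit 128) (@Lb.g g5 (@Lb.g g11 (@Lb.r r2370 (@Lb.r r387 (@Lb.r r24 (@Lb.d (nat_lit 321) (nat_lit 1) (nat_lit 361) (@Lb.fm (nat_lit 3) t1644))))))))
noncomputable def l22913 : Lb := (@Lb.d (nat_lit 4) (nat_lit 517) (nat_lit 128) (@Lb.g g8 (@Lb.g g9 (@Lb.g g10 (@Lb.g g11 (@Lb.r r427 (@Lb.r r2630 (@Lb.r r420 (@Lb.r r2197 (@Lb.d (nat_lit 521) (nat_lit 102) (nat_lit 262) (@Lb.fp (nat_lit 9) t2774)))))))))))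
noncomputable def l22914 : Lb := (@Lb.d (nat_lit 322) (nat_lit 586) (nat_lit 553) (@Lb.r r322 (@Lb.r r2707 (@Lb.r r341 (@Lb.g g7 (@Lb.g g6 (@Lb.g g5 (@Lb.g g4 (@Lb.d (nat_lit 1) (nat_lit 17) (nat_lit 129) (@Lb.fm (nat_lit 9) t898))))))))))
noncomputable def l22915 : Lb := (@Lb.d (nat_lit 2) (nat_lit 2) (nat_lit 4) (@Lb.g g8 (@Lb.g g9 (@Lb.g g10 (@Lb.g g11 (@Lb.r r2659 (@Lb.r r578 (@Lb.r r36 (@Lb.r r149 (@Lb.r r1060 (@Lb.d (nat_lit 33) (nat_lit 10) (nat_lit 170) (@Lb.fm (nat_lit 9) t61))))))))))))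
noncomputable def l22916 : Lb := (@Lb.d (nat_lit 2) (nat_lit 550) (nat_lit 5) (@Lb.g g8 (@Lb.g g9 (@Lb.g g10 (@Lb.g g11 (@Lb.r r1706 (@Lb.r r676 (@Lb.r r551 (@Lb.r r533 (@Lb.r r1060 (@Lb.d (nat_lit 386) (nat_lit 2) (nat_lit 586) (@Lb.fp (nat_lit 9) t594))))))))))))
noncomputable def l22917 : Lb := (@Lb.d (nat_lit 645) (nat_lit 4) (nat_lit 321) (@Lb.r r1317 (@Lb.r r2662 (@Lb.r r1307 (@Lb.r r2308 (@Lb.g g7 (@Lb.g g5 (@Lb.d (nat_lit 4) (nat_lit 2) (nat_lit 128) (@Lb.fp (nat_lit 3) t1849)))))))))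
noncomputable def l22918 : Lb := (@Lb.d (nat_lit 640) (nat_lit 261) (nat_lit 168) (@Lb.r r2663 (@Lb.r r1300 (@Lb.r r1617 (@Lb.r r1130 (@Lb.g g6 (@Lb.g g4 (@Lb.d (nat_lit 1) (nat_lit 0) (nat_lit 1) (@Lb.fp (nat_lit 3) t4502)))))))))
noncomputable def l22919 : Lb := (@Lb.d (nat_lit 576) (nat_lit 288) (nat_lit 384) (@Lb.r r1305 (@Lb.r r1428 (@Lb.r r1414 (@Lb.r r2451 (@Lb.g g7 (@Lb.g g6 (@Lb.g g5 (@Lb.d (nat_lit 0) (nat_lit 4) (nat_lit 65) (@Lb.t (@Lb.fm (nat_lit 9) t202)))))))))))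
noncomputable def l22920 : Lb := (@Lb.r r21 (@Lb.d (nat_lit 656) (nat_lit 0) (nat_lit 128) (@Lb.g g8 (@Lb.g g10 (@Lb.g g11 (@Lb.r r387 (@Lb.r r74 (@Lb.r r25 (@Lb.d (nat_lit 546) (nat_lit 0) (nat_lit 354) (@Lb.t (@Lb.fm (nat_lit 9) t4503)))))))))))
noncomputable def l22921 : Lb := (@Lb.d (nat_lit 160) (nat_lit 8) (nat_lit 128) (@Lb.g g10 (@Lb.g g11 (@Lb.r r260 (@Lb.r r2667 (@Lb.r r1633 (@Lb.r r338 (@Lb.d (nat_lit 65) (nat_lit 86) (nat_lit 262) (@Lb.fm (nat_lit 3) t748)))))))))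
noncomputable def l22922 : Lb := (@Lb.d (nat_lit 32) (nat_lit 520) (nat_lit 128) (@Lb.g g10 (@Lb.g g11 (@Lb.r r407 (@Lb.r r616 (@Lb.r r2665 (@Lb.r r2390 (@Lb.d (nat_lit 602) (nat_lit 148) (nat_lit 294) (@Lb.fm (nat_lit 3) t748)))))))))
noncomputable def l22923 : Lb := (@Lb.d (nat_lit 0) (nat_lit 514) (nat_lit 130) (@Lb.g g8 (@Lb.g g9 (@Lb.g g10 (@Lb.g g11 (@Lb.r r2691 (@Lb.r r2665 (@Lb.r r1686 (@Lb.r r1096 (@Lb.d (nat_lit 676) (nat_lit 161) (nat_lit 89) (@Lb.fp (nat_lit 9) t476)))))))))))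
noncomputable def l22924 : Lb := (@Lb.g g7 (@Lb.r r2438 (@Lb.r r1624 (@Lb.r r2341 (@Lb.d (nat_lit 0) (nat_lit 576) (nat_lit 320) (@Lb.t (@Lb.fp (nat_lit 3) t3235)))))))
noncomputable def l22925 : Lb := (@Lb.r r82 (@Lb.r r283 (@Lb.d (nat_lit 649) (nat_lit 514) (nat_lit 0) (@Lb.g g8 (@Lb.g g9 (@Lb.r r281 (@Lb.r r1315 (@Lb.r r98 (@Lb.d (nat_lit 646) (nat_lit 160) (nat_lit 576) (@Lb.fm (nat_lit 3) t442))))))))))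
noncomputable def l22926 : Lb := (@Lb.d (nat_lit 130) (nat_lit 258) (nat_lit 130) (@Lb.g g8 (@Lb.g g9 (@Lb.g g10 (@Lb.g g11 (@Lb.r r643 (@Lb.r r1194 (@Lb.r r2337 (@Lb.r r152 (@Lb.d (nat_lit 664) (nat_lit 105) (nat_lit 66) (@Lb.fp (nat_lit 9) t4504)))))))))))
noncomputable def l22927 : Lb := (@Lb.d (nat_lit 128) (nat_lit 2) (nat_lit 130) (@Lb.g g8 (@Lb.g g9 (@Lb.g g10 (@Lb.g g11 (@Lb.r r643 (@Lb.r r1194 (@Lb.r r2337 (@Lb.r r152 (@Lb.d (nat_lit 664) (nat_lit 105) (nat_lit 66) (@Lb.fp (nat_lit 9) t4504)))))))))))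
noncomputable def l22928 : Lb := (@Lb.d (nat_lit 330) (nat_lit 81) (nat_lit 521) (@Lb.r r1320 (@Lb.r r2583 (@Lb.r r1385 (@Lb.g g10 (@Lb.g g5 (@Lb.g g4 (@Lb.d (nat_lit 65) (nat_lit 1) (nat_lit 38) (@Lb.t (@Lb.fp (nat_lit 9) t564))))))))))
noncomputable def l22929 : Lb := (@Lb.d (nat_lit 330) (nat_lit 337) (nat_lit 644) (@Lb.r r1320 (@Lb.r r2583 (@Lb.r r1385 (@Lb.g g10 (@Lb.g g5 (@Lb.g g4 (@Lb.d (nat_lit 65) (nat_lit 1) (nat_lit 38) (@Lb.t (@Lb.fp (nat_lit 9) t564))))))))))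
noncomputable def l22930 : Lb := (@Lb.d (nat_lit 2) (nat_lit 8) (nat_lit 130) (@Lb.g g8 (@Lb.g g10 (@Lb.g g11 (@Lb.r r2699 (@Lb.r r2601 (@Lb.r r2696 (@Lb.r r154 (@Lb.d (nat_lit 25) (nat_lit 21) (nat_lit 296) (@Lb.t (@Lb.fm (nat_lit 9) t591)))))))))))
noncomputable def l22931 : Lb := (@Lb.r r21 (@Lb.r r326 (@Lb.d (nat_lit 514) (nat_lit 256) (nat_lit 640) (@Lb.g g8 (@Lb.g g11 (@Lb.r r2198 (@Lb.r r97 (@Lb.d (nat_lit 328) (nat_lit 69) (nat_lit 513) (@Lb.fm (nat_lit 3) t3999)))))))))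
noncomputable def l22932 : Lb := (@Lb.d (nat_lit 130) (nat_lit 2) (nat_lit 2) (@Lb.g g8 (@Lb.g g9 (@Lb.g g10 (@Lb.r r2691 (@Lb.r r2217 (@Lb.r r2666 (@Lb.r r104 (@Lb.d (nat_lit 676) (nat_lit 10) (nat_lit 260) (@Lb.t (@Lb.fp (nat_lit 9) t242)))))))))))
noncomputable def l22933 : Lb := (@Lb.r r21 (@Lb.d (nat_lit 646) (nat_lit 512) (nat_lit 130) (@Lb.g g8 (@Lb.g g10 (@Lb.g g11 (@Lb.r r419 (@Lb.r r106 (@Lb.r r25 (@Lb.d (nat_lit 361) (nat_lit 9) (nat_lit 137) (@Lb.t (@Lb.fm (nat_lit 9) t394)))))))))))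
noncomputable def l22934 : Lb := (@Lb.d (nat_lit 2) (nat_lit 265) (nat_lit 129) (@Lb.g g8 (@Lb.g g9 (@Lb.g g10 (@Lb.g g11 (@Lb.r r2691 (@Lb.r r297 (@Lb.r r360 (@Lb.r r582 (@Lb.r r2180 (@Lb.d (nat_lit 641) (nat_lit 73) (nat_lit 329) (@Lb.fm (nat_lit 9) t1888))))))))))))
noncomputable def l22935 : Lb := (@Lb.d (nat_lit 32) (nat_lit 256) (nat_lit 130) (@Lb.g g10 (@Lb.g g11 (@Lb.r r340 (@Lb.r r395 (@Lb.r r2394 (@Lb.r r1057 (@Lb.d (nat_lit 420) (nat_lit 36) (nat_lit 133) (@Lb.fp (nat_lit 3) t2659)))))))))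
noncomputable def l22936 : Lb := (@Lb.g g9 (@Lb.r r2198 (@Lb.r r2137 (@Lb.d (nat_lit 297) (nat_lit 580) (nat_lit 16) (@Lb.t (@Lb.fm (nat_lit 3) t4505))))))
noncomputable def l22937 : Lb := (@Lb.r r97 (@Lb.r r1106 (@Lb.r r145 (@Lb.d (nat_lit 546) (nat_lit 266) (nat_lit 17) (@Lb.fm (nat_lit 1) t970)))))
noncomputable def l22938 : Lb := (@Lb.d (nat_lit 16) (nat_lit 260) (nat_lit 72) (@Lb.g g8 (@Lb.g g9 (@Lb.g g10 (@Lb.g g11 (@Lb.r r1683 (@Lb.r r2581 (@Lb.r r616 (@Lb.r r1350 (@Lb.d (nat_lit 337) (nat_lit 138) (nat_lit 421) (@Lb.fp (nat_lit 9) t2095)))))))))))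
noncomputable def l22939 : Lb := (@Lb.d (nat_lit 9) (nat_lit 257) (nat_lit 73) (@Lb.g g8 (@Lb.g g9 (@Lb.g g10 (@Lb.g g11 (@Lb.r r1689 (@Lb.r r535 (@Lb.r r2440 (@Lb.r r2122 (@Lb.d (nat_lit 129) (nat_lit 10) (nat_lit 341) (@Lb.fp (nat_lit 9) t61)))))))))))
noncomputable def l22940 : Lb := (@Lb.d (nat_lit 384) (nat_lit 384) (nat_lit 0) (@Lb.r r21 (@Lb.r r70 (@Lb.g g4 (@Lb.d (nat_lit 585) (nat_lit 0) (nat_lit 0) (@Lb.r r74 (@Lb.r r25 (@Lb.t (@Lb.fm (nat_lit 3) t2691)))))))))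
noncomputable def l22941 : Lb := (@Lb.r r21 (@Lb.d (nat_lit 2) (nat_lit 512) (nat_lit 130) (@Lb.g g8 (@Lb.g g10 (@Lb.g g11 (@Lb.r r651 (@Lb.r r386 (@Lb.r r1640 (@Lb.r r25 (@Lb.d (nat_lit 610) (nat_lit 64) (nat_lit 21) (@Lb.t (@Lb.fp (nat_lit 9) t3475))))))))))))
noncomputable def l22942 : Lb := (@Lb.d (nat_lit 518) (nat_lit 330) (nat_lit 66) (@Lb.r r2196 (@Lb.r r1193 (@Lb.r r515 (@Lb.g g10 (@Lb.g g5 (@Lb.g g4 (@Lb.d (nat_lit 8) (nat_lit 6) (nat_lit 4) (@Lb.t (@Lb.fm (nat_lit 9) t4506))))))))))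
noncomputable def l22943 : Lb := (@Lb.r r82 (@Lb.d (nat_lit 2) (nat_lit 326) (nat_lit 128) (@Lb.g g8 (@Lb.g g9 (@Lb.g g11 (@Lb.r r2475 (@Lb.r r2442 (@Lb.r r2436 (@Lb.d (nat_lit 354) (nat_lit 0) (nat_lit 665) (@Lb.t (@Lb.fp (nat_lit 9) t4507)))))))))))
noncomputable def l22944 : Lb := (@Lb.d (nat_lit 34) (nat_lit 256) (nat_lit 128) (@Lb.g g8 (@Lb.g g11 (@Lb.r r358 (@Lb.r r387 (@Lb.r r1317 (@Lb.r r1556 (@Lb.d (nat_lit 644) (nat_lit 98) (nat_lit 105) (@Lb.fp (nat_lit 3) t1558)))))))))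
noncomputable def l22945 : Lb := (@Lb.d (nat_lit 0) (nat_lit 554) (nat_lit 0) (@Lb.g g9 (@Lb.r r1690 (@Lb.r r411 (@Lb.r r2661 (@Lb.r r8 (@Lb.d (nat_lit 356) (nat_lit 90) (nat_lit 409) (@Lb.t (@Lb.fm (nat_lit 3) t980)))))))))
noncomputable def l22946 : Lb := (@Lb.d (nat_lit 0) (nat_lit 256) (nat_lit 129) (@Lb.g g8 (@Lb.g g10 (@Lb.g g11 (@Lb.r r586 (@Lb.r r1611 (@Lb.r r1633 (@Lb.r r1608 (@Lb.d (nat_lit 97) (nat_lit 0) (nat_lit 386) (@Lb.t (@Lb.fp (nat_lit 9) t1741)))))))))))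
noncomputable def l22947 : Lb := (@Lb.d (nat_lit 4) (nat_lit 0) (nat_lit 130) (@Lb.g g8 (@Lb.g g9 (@Lb.g g10 (@Lb.g g11 (@Lb.r r427 (@Lb.r r386 (@Lb.r r97 (@Lb.r r24 (@Lb.d (nat_lit 265) (nat_lit 9) (nat_lit 642) (@Lb.fm (nat_lit 9) t756)))))))))))
noncomputable def l22948 : Lb := (@Lb.d (nat_lit 5) (nat_lit 522) (nat_lit 129) (@Lb.g g8 (@Lb.g g9 (@Lb.g g10 (@Lb.g g11 (@Lb.r r427 (@Lb.r r388 (@Lb.r r70 (@Lb.r r153 (@Lb.r r132 (@Lb.d (nat_lit 9) (nat_lit 73) (nat_lit 18) (@Lb.fp (nat_lit 9) t1640))))))))))))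
noncomputable def l22949 : Lb := (@Lb.d (nat_lit 5) (nat_lit 517) (nat_lit 128) (@Lb.g g8 (@Lb.g g9 (@Lb.g g10 (@Lb.g g11 (@Lb.r r427 (@Lb.r r324 (@Lb.r r138 (@Lb.r r85 (@Lb.r r132 (@Lb.d (nat_lit 6) (nat_lit 73) (nat_lit 18) (@Lb.fm (nat_lit 9) t3787))))))))))))
noncomputable def l22950 : Lb := (@Lb.d (nat_lit 2) (nat_lit 9) (nat_lit 129) (@Lb.g g8 (@Lb.g g9 (@Lb.g g10 (@Lb.g g11 (@Lb.r r427 (@Lb.r r388 (@Lb.r r70 (@Lb.r r153 (@Lb.r r132 (@Lb.d (nat_lit 9) (nat_lit 73) (nat_lit 89) (@Lb.fp (nat_lit 9) t3911))))))))))))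
noncomputable def l22951 : Lb := (@Lb.d (nat_lit 0) (nat_lit 258) (nat_lit 73) (@Lb.g g8 (@Lb.g g9 (@Lb.g g10 (@Lb.g g11 (@Lb.r r2691 (@Lb.r r297 (@Lb.r r648 (@Lb.r r666 (@Lb.r r1156 (@Lb.d (nat_lit 646) (nat_lit 40) (nat_lit 73) (@Lb.fp (nat_lit 9) t668))))))))))))
noncomputable def l22952 : Lb := (@Lb.d (nat_lit 2) (nat_lit 0) (nat_lit 74) (@Lb.g g8 (@Lb.g g9 (@Lb.g g10 (@Lb.g g11 (@Lb.r r1666 (@Lb.r r2455 (@Lb.r r1633 (@Lb.r r24 (@Lb.d (nat_lit 552) (nat_lit 153) (nat_lit 265) (@Lb.fm (nat_lit 9) t2031)))))))))))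
noncomputable def l22953 : Lb := (@Lb.d (nat_lit 4) (nat_lit 256) (nat_lit 2) (@Lb.g g8 (@Lb.g g9 (@Lb.g g10 (@Lb.r r2723 (@Lb.r r1634 (@Lb.r r1553 (@Lb.d (nat_lit 4) (nat_lit 106) (nat_lit 417) (@Lb.t (@Lb.fp (nat_lit 9) t2563))))))))))
noncomputable def l22954 : Lb := (@Lb.d (nat_lit 2) (nat_lit 544) (nat_lit 2) (@Lb.g g8 (@Lb.g g9 (@Lb.g g10 (@Lb.r r170 (@Lb.r r1444 (@Lb.r r2331 (@Lb.r r549 (@Lb.d (nat_lit 134) (nat_lit 80) (nat_lit 5) (@Lb.t (@Lb.fm (nat_lit 9) t284)))))))))))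
noncomputable def l22955 : Lb := (@Lb.d (nat_lit 0) (nat_lit 512) (nat_lit 73) (@Lb.g g8 (@Lb.g g9 (@Lb.g g10 (@Lb.g g11 (@Lb.r r2691 (@Lb.r r2345 (@Lb.r r648 (@Lb.r r666 (@Lb.r r1156 (@Lb.d (nat_lit 640) (nat_lit 168) (nat_lit 601) (@Lb.fp (nat_lit 9) t1115))))))))))))
noncomputable def l22956 : Lb := (@Lb.d (nat_lit 6) (nat_lit 0) (nat_lit 1) (@Lb.g g4 (@Lb.g g10 (@Lb.r r1670 (@Lb.d (nat_lit 402) (nat_lit 6) (nat_lit 666) (@Lb.fm (nat_lit 3) t3316))))))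
noncomputable def l22957 : Lb := (@Lb.d (nat_lit 4) (nat_lit 1) (nat_lit 2) (@Lb.g g8 (@Lb.g g9 (@Lb.g g10 (@Lb.r r2731 (@Lb.r r1642 (@Lb.r r1561 (@Lb.d (nat_lit 576) (nat_lit 106) (nat_lit 417) (@Lb.t (@Lb.fp (nat_lit 9) t2563))))))))))
noncomputable def l22958 : Lb := (@Lb.d (nat_lit 356) (nat_lit 649) (nat_lit 518) (@Lb.r r1048 (@Lb.r r667 (@Lb.r r2405 (@Lb.g g7 (@Lb.g g6 (@Lb.d (nat_lit 32) (nat_lit 16) (nat_lit 150) (@Lb.r r388 (@Lb.fp (nat_lit 3) t994)))))))))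
noncomputable def l22959 : Lb := (@Lb.d (nat_lit 0) (nat_lit 258) (nat_lit 73) (@Lb.g g8 (@Lb.g g9 (@Lb.g g10 (@Lb.g g11 (@Lb.r r1699 (@Lb.r r1193 (@Lb.r r1188 (@Lb.r r1638 (@Lb.d (nat_lit 404) (nat_lit 101) (nat_lit 356) (@Lb.fp (nat_lit 9) t1146)))))))))))
noncomputable def l22960 : Lb := (@Lb.d (nat_lit 0) (nat_lit 0) (nat_lit 73) (@Lb.g g8 (@Lb.g g10 (@Lb.g g11 (@Lb.r r2691 (@Lb.r r1610 (@Lb.r r2145 (@Lb.r r2120 (@Lb.d (nat_lit 416) (nat_lit 164) (nat_lit 133) (@Lb.t (@Lb.fp (nat_lit 9) t2637)))))))))))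
noncomputable def l22961 : Lb := (@Lb.r r323 (@Lb.d (nat_lit 6) (nat_lit 8) (nat_lit 34) (@Lb.g g4 (@Lb.g g10 (@Lb.r r2659 (@Lb.d (nat_lit 613) (nat_lit 150) (nat_lit 8) (@Lb.fm (nat_lit 3) t1554)))))))
noncomputable def l22962 : Lb := (@Lb.d (nat_lit 4) (nat_lit 256) (nat_lit 0) (@Lb.g g8 (@Lb.g g9 (@Lb.g g10 (@Lb.r r1707 (@Lb.r r618 (@Lb.r r25 (@Lb.d (nat_lit 9) (nat_lit 25) (nat_lit 297) (@Lb.t (@Lb.fp (nat_lit 9) t591))))))))))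
noncomputable def l22963 : Lb := (@Lb.r r70 (@Lb.d (nat_lit 162) (nat_lit 266) (nat_lit 64) (@Lb.g g8 (@Lb.g g9 (@Lb.g g11 (@Lb.r r2666 (@Lb.r r2395 (@Lb.r r2597 (@Lb.r r660 (@Lb.d (nat_lit 538) (nat_lit 97) (nat_lit 660) (@Lb.t (@Lb.fp (nat_lit 9) t329))))))))))))
noncomputable def l22964 : Lb := (@Lb.d (nat_lit 4) (nat_lit 256) (nat_lit 0) (@Lb.g g8 (@Lb.g g9 (@Lb.r r322 (@Lb.r r1667 (@Lb.r r578 (@Lb.r r25 (@Lb.d (nat_lit 9) (nat_lit 146) (nat_lit 266) (@Lb.fp (nat_lit 3) t210)))))))))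
noncomputable def l22965 : Lb := (@Lb.r r2311 (@Lb.r r664 (@Lb.r r154 (@Lb.r r2133 (@Lb.r r164 (@Lb.d (nat_lit 1) (nat_lit 0) (nat_lit 154) (@Lb.fp (nat_lit 1) t386)))))))
noncomputable def l22966 : Lb := (@Lb.d (nat_lit 672) (nat_lit 512) (nat_lit 258) (@Lb.r r24 (@Lb.r r85 (@Lb.r r162 (@Lb.g g6 (@Lb.g g5 (@Lb.d (nat_lit 0) (nat_lit 2) (nat_lit 1) (@Lb.fm (nat_lit 3) t749))))))))
noncomputable def l22967 : Lb := (@Lb.d (nat_lit 146) (nat_lit 512) (nat_lit 129) (@Lb.r r1608 (@Lb.r r1633 (@Lb.r r1611 (@Lb.r r390 (@Lb.g g7 (@Lb.g g4 (@Lb.d (nat_lit 0) (nat_lit 0) (nat_lit 64) (@Lb.fm (nat_lit 3) t4508)))))))))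
noncomputable def l22968 : Lb := (@Lb.d (nat_lit 536) (nat_lit 617) (nat_lit 100) (@Lb.r r24 (@Lb.r r81 (@Lb.r r1414 (@Lb.r r2595 (@Lb.g g7 (@Lb.g g5 (@Lb.d (nat_lit 0) (nat_lit 1) (nat_lit 128) (@Lb.fp (nat_lit 3) t4509)))))))))
noncomputable def l22969 : Lb := (@Lb.d (nat_lit 518) (nat_lit 358) (nat_lit 129) (@Lb.r r24 (@Lb.r r1633 (@Lb.r r1643 (@Lb.r r406 (@Lb.g g7 (@Lb.g g4 (@Lb.d (nat_lit 1) (nat_lit 0) (nat_lit 64) (@Lb.fm (nat_lit 3) t489)))))))))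
noncomputable def l22970 : Lb := (@Lb.d (nat_lit 0) (nat_lit 0) (nat_lit 2) (@Lb.g g10 (@Lb.r r2435 (@Lb.r r386 (@Lb.r r101 (@Lb.r r24 (@Lb.d (nat_lit 357) (nat_lit 64) (nat_lit 164) (@Lb.t (@Lb.fm (nat_lit 3) t4510)))))))))
noncomputable def l22971 : Lb := (@Lb.d (nat_lit 16) (nat_lit 514) (nat_lit 128) (@Lb.g g8 (@Lb.g g9 (@Lb.g g10 (@Lb.g g11 (@Lb.r r1667 (@Lb.r r1321 (@Lb.r r360 (@Lb.r r1606 (@Lb.r r132 (@Lb.d (nat_lit 385) (nat_lit 138) (nat_lit 601) (@Lb.fm (nat_lit 9) t3686))))))))))))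
noncomputable def l22972 : Lb := (@Lb.g g10 (@Lb.r r24 (@Lb.r r101 (@Lb.r r402 (@Lb.d (nat_lit 0) (nat_lit 0) (nat_lit 85) (@Lb.t (@Lb.fm (nat_lit 3) t590)))))))
noncomputable def l22973 : Lb := (@Lb.d (nat_lit 0) (nat_lit 256) (nat_lit 330) (@Lb.r r2577 (@Lb.g g11 (@Lb.g g9 (@Lb.fm (nat_lit 3) t650)))))
noncomputable def l22974 : Lb := (@Lb.d (nat_lit 641) (nat_lit 33) (nat_lit 0) (@Lb.g g4 (@Lb.g g9 (@Lb.r r2579 (@Lb.r r2178 (@Lb.r r409 (@Lb.d (nat_lit 153) (nat_lit 85) (nat_lit 402) (@Lb.fp (nat_lit 3) t4511))))))))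
noncomputable def l22975 : Lb := (@Lb.d (nat_lit 274) (nat_lit 9) (nat_lit 0) (@Lb.r r1288 (@Lb.r r2375 (@Lb.r r658 (@Lb.g g7 (@Lb.g g6 (@Lb.g g9 (@Lb.d (nat_lit 0) (nat_lit 154) (nat_lit 64) (@Lb.r r36 (@Lb.t (@Lb.fm (nat_lit 9) t480)))))))))))
noncomputable def l22976 : Lb := (@Lb.d (nat_lit 2) (nat_lit 2) (nat_lit 138) (@Lb.g g8 (@Lb.g g9 (@Lb.g g10 (@Lb.g g11 (@Lb.r r1707 (@Lb.r r618 (@Lb.r r25 (@Lb.d (nat_lit 9) (nat_lit 25) (nat_lit 297) (@Lb.fm (nat_lit 9) t591))))))))))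
noncomputable def l22977 : Lb := (@Lb.r r273 (@Lb.r r322 (@Lb.d (nat_lit 130) (nat_lit 272) (nat_lit 520) (@Lb.g g8 (@Lb.g g7 (@Lb.r r361 (@Lb.r r146 (@Lb.r r264 (@Lb.d (nat_lit 169) (nat_lit 68) (nat_lit 517) (@Lb.fm (nat_lit 3) t4493))))))))))
noncomputable def l22978 : Lb := (@Lb.r r21 (@Lb.d (nat_lit 18) (nat_lit 256) (nat_lit 74) (@Lb.g g4 (@Lb.g g10 (@Lb.g g11 (@Lb.r r1687 (@Lb.r r2401 (@Lb.r r1170 (@Lb.d (nat_lit 533) (nat_lit 72) (nat_lit 34) (@Lb.t (@Lb.fm (nat_lit 9) t74)))))))))))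
noncomputable def l22979 : Lb := (@Lb.d (nat_lit 2) (nat_lit 2) (nat_lit 130) (@Lb.g g8 (@Lb.g g9 (@Lb.g g10 (@Lb.g g11 (@Lb.r r427 (@Lb.r r420 (@Lb.r r102 (@Lb.r r21 (@Lb.r r36 (@Lb.d (nat_lit 33) (nat_lit 10) (nat_lit 152) (@Lb.fp (nat_lit 9) t221))))))))))))
noncomputable def l22980 : Lb := (@Lb.d (nat_lit 4) (nat_lit 548) (nat_lit 64) (@Lb.g g8 (@Lb.g g9 (@Lb.g g10 (@Lb.g g11 (@Lb.r r2386 (@Lb.r r597 (@Lb.r r1640 (@Lb.r r587 (@Lb.d (nat_lit 336) (nat_lit 162) (nat_lit 292) (@Lb.fp (nat_lit 9) t2095)))))))))))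
noncomputable def l22981 : Lb := (@Lb.d (nat_lit 0) (nat_lit 2) (nat_lit 0) (@Lb.g g9 (@Lb.g g10 (@Lb.r r145 (@Lb.d (nat_lit 280) (nat_lit 10) (nat_lit 34) (@Lb.fm (nat_lit 3) t743))))))
noncomputable def l22982 : Lb := (@Lb.d (nat_lit 4) (nat_lit 292) (nat_lit 64) (@Lb.g g8 (@Lb.g g9 (@Lb.g g10 (@Lb.g g11 (@Lb.r r2386 (@Lb.r r597 (@Lb.r r1640 (@Lb.r r587 (@Lb.d (nat_lit 337) (nat_lit 162) (nat_lit 292) (@Lb.fp (nat_lit 9) t2095)))))))))))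
noncomputable def l22983 : Lb := (@Lb.d (nat_lit 0) (nat_lit 258) (nat_lit 0) (@Lb.g g9 (@Lb.g g10 (@Lb.g g7 (@Lb.r r145 (@Lb.d (nat_lit 280) (nat_lit 5) (nat_lit 33) (@Lb.t (@Lb.fp (nat_lit 9) t743))))))))
noncomputable def l22984 : Lb := (@Lb.r r21 (@Lb.d (nat_lit 2) (nat_lit 512) (nat_lit 130) (@Lb.g g8 (@Lb.g g10 (@Lb.g g11 (@Lb.r r1699 (@Lb.r r2184 (@Lb.r r1610 (@Lb.r r145 (@Lb.d (nat_lit 402) (nat_lit 26) (nat_lit 594) (@Lb.t (@Lb.fm (nat_lit 9) t4512))))))))))))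
noncomputable def l22985 : Lb := (@Lb.d (nat_lit 4) (nat_lit 520) (nat_lit 130) (@Lb.g g8 (@Lb.g g9 (@Lb.g g10 (@Lb.g g11 (@Lb.r r643 (@Lb.r r1065 (@Lb.r r360 (@Lb.r r582 (@Lb.r r132 (@Lb.d (nat_lit 130) (nat_lit 10) (nat_lit 289) (@Lb.fm (nat_lit 9) t98))))))))))))
noncomputable def l22986 : Lb := (@Lb.d (nat_lit 8) (nat_lit 0) (nat_lit 130) (@Lb.g g9 (@Lb.g g10 (@Lb.g g11 (@Lb.r r423 (@Lb.r r596 (@Lb.r r666 (@Lb.r r337 (@Lb.d (nat_lit 4) (nat_lit 166) (nat_lit 6) (@Lb.t (@Lb.fp (nat_lit 9) t51)))))))))))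
noncomputable def l22987 : Lb := (@Lb.d (nat_lit 4) (nat_lit 512) (nat_lit 72) (@Lb.g g8 (@Lb.g g9 (@Lb.g g11 (@Lb.r r1410 (@Lb.r r579 (@Lb.r r25 (@Lb.d (nat_lit 9) (nat_lit 153) (nat_lit 296) (@Lb.t (@Lb.fm (nat_lit 9) t654))))))))))
noncomputable def l22988 : Lb := (@Lb.d (nat_lit 2) (nat_lit 550) (nat_lit 534) (@Lb.r r338 (@Lb.r r1699 (@Lb.g g6 (@Lb.g g5 (@Lb.d (nat_lit 0) (nat_lit 1) (nat_lit 0) (@Lb.r r36 (@Lb.fp (nat_lit 3) t40))))))))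
noncomputable def l22989 : Lb := (@Lb.d (nat_lit 0) (nat_lit 256) (nat_lit 2) (@Lb.g g8 (@Lb.g g10 (@Lb.g g11 (@Lb.r r386 (@Lb.r r101 (@Lb.r r24 (@Lb.d (nat_lit 584) (nat_lit 2) (nat_lit 554) (@Lb.t (@Lb.fp (nat_lit 9) t1150))))))))))
noncomputable def l22990 : Lb := (@Lb.d (nat_lit 34) (nat_lit 528) (nat_lit 512) (@Lb.g g4 (@Lb.g g7 (@Lb.r r426 (@Lb.r r289 (@Lb.r r2200 (@Lb.d (nat_lit 554) (nat_lit 132) (nat_lit 97) (@Lb.fp (nat_lit 3) t51))))))))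
noncomputable def l22991 : Lb := (@Lb.d (nat_lit 6) (nat_lit 38) (nat_lit 534) (@Lb.r r21 (@Lb.r r342 (@Lb.r r1707 (@Lb.g g6 (@Lb.g g5 (@Lb.g g4 (@Lb.d (nat_lit 8) (nat_lit 0) (nat_lit 0) (@Lb.t (@Lb.fm (nat_lit 9) t40))))))))))
noncomputable def l22992 : Lb := (@Lb.d (nat_lit 0) (nat_lit 256) (nat_lit 73) (@Lb.g g9 (@Lb.g g10 (@Lb.g g11 (@Lb.r r586 (@Lb.r r328 (@Lb.r r535 (@Lb.r r289 (@Lb.d (nat_lit 8) (nat_lit 128) (nat_lit 0) (@Lb.t (@Lb.fp (nat_lit 9) t51)))))))))))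
noncomputable def l22993 : Lb := (@Lb.d (nat_lit 64) (nat_lit 10) (nat_lit 256) (@Lb.g g9 (@Lb.g g7 (@Lb.r r2196 (@Lb.r r2646 (@Lb.r r409 (@Lb.d (nat_lit 665) (nat_lit 16) (nat_lit 98) (@Lb.fp (nat_lit 3) t386))))))))
noncomputable def l22994 : Lb := (@Lb.d (nat_lit 8) (nat_lit 8) (nat_lit 130) (@Lb.g g8 (@Lb.g g10 (@Lb.g g11 (@Lb.r r2707 (@Lb.r r1557 (@Lb.r r616 (@Lb.r r1158 (@Lb.d (nat_lit 290) (nat_lit 150) (nat_lit 661) (@Lb.t (@Lb.fp (nat_lit 9) t242)))))))))))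
noncomputable def l22995 : Lb := (@Lb.d (nat_lit 4) (nat_lit 10) (nat_lit 130) (@Lb.g g8 (@Lb.g g9 (@Lb.g g10 (@Lb.g g11 (@Lb.r r643 (@Lb.r r297 (@Lb.r r360 (@Lb.r r582 (@Lb.r r132 (@Lb.d (nat_lit 130) (nat_lit 10) (nat_lit 73) (@Lb.fm (nat_lit 9) t98))))))))))))
noncomputable def l22996 : Lb := (@Lb.d (nat_lit 0) (nat_lit 512) (nat_lit 73) (@Lb.g g9 (@Lb.g g10 (@Lb.g g11 (@Lb.r r586 (@Lb.r r328 (@Lb.r r535 (@Lb.r r289 (@Lb.d (nat_lit 6) (nat_lit 130) (nat_lit 0) (@Lb.t (@Lb.fp (nat_lit 9) t51)))))))))))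
noncomputable def l22997 : Lb := (@Lb.d (nat_lit 6) (nat_lit 512) (nat_lit 0) (@Lb.g g4 (@Lb.r r101 (@Lb.r r402 (@Lb.d (nat_lit 1) (nat_lit 164) (nat_lit 394) (@Lb.t (@Lb.fm (nat_lit 3) t652)))))))
noncomputable def l22998 : Lb := (@Lb.d (nat_lit 146) (nat_lit 258) (nat_lit 128) (@Lb.g g8 (@Lb.g g9 (@Lb.g g10 (@Lb.g g11 (@Lb.r r387 (@Lb.r r2694 (@Lb.r r145 (@Lb.r r612 (@Lb.d (nat_lit 26) (nat_lit 145) (nat_lit 648) (@Lb.fm (nat_lit 9) t4)))))))))))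
noncomputable def l22999 : Lb := (@Lb.d (nat_lit 146) (nat_lit 514) (nat_lit 128) (@Lb.g g8 (@Lb.g g9 (@Lb.g g10 (@Lb.g g11 (@Lb.r r387 (@Lb.r r2694 (@Lb.r r145 (@Lb.r r612 (@Lb.d (nat_lit 25) (nat_lit 145) (nat_lit 648) (@Lb.fm (nat_lit 9) t3999)))))))))))
noncomputable def l23000 : Lb := (@Lb.r r322 (@Lb.d (nat_lit 36) (nat_lit 34) (nat_lit 128) (@Lb.g g8 (@Lb.g g9 (@Lb.g g11 (@Lb.r r1625 (@Lb.r r102 (@Lb.r r152 (@Lb.d (nat_lit 24) (nat_lit 10) (nat_lit 345) (@Lb.t (@Lb.fp (nat_lit 9) t98)))))))))))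
noncomputable def l23001 : Lb := (@Lb.r r21 (@Lb.d (nat_lit 32) (nat_lit 256) (nat_lit 130) (@Lb.g g8 (@Lb.g g10 (@Lb.g g11 (@Lb.r r2635 (@Lb.r r1626 (@Lb.r r145 (@Lb.r r532 (@Lb.d (nat_lit 386) (nat_lit 161) (nat_lit 128) (@Lb.t (@Lb.fp (nat_lit 9) t394))))))))))))
noncomputable def l23002 : Lb := (@Lb.d (nat_lit 1) (nat_lit 514) (nat_lit 130) (@Lb.g g8 (@Lb.g g9 (@Lb.g g10 (@Lb.g g11 (@Lb.r r427 (@Lb.r r145 (@Lb.r r356 (@Lb.r r154 (@Lb.r r132 (@Lb.d (nat_lit 4) (nat_lit 1) (nat_lit 137) (@Lb.fm (nat_lit 9) t61))))))))))))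
noncomputable def l23003 : Lb := (@Lb.r r21 (@Lb.d (nat_lit 32) (nat_lit 0) (nat_lit 130) (@Lb.g g8 (@Lb.g g10 (@Lb.g g11 (@Lb.r r2635 (@Lb.r r1626 (@Lb.r r145 (@Lb.r r532 (@Lb.d (nat_lit 388) (nat_lit 162) (nat_lit 128) (@Lb.t (@Lb.fp (nat_lit 9) t394))))))))))))
noncomputable def l23004 : Lb := (@Lb.r r21 (@Lb.d (nat_lit 0) (nat_lit 0) (nat_lit 130) (@Lb.g g8 (@Lb.g g10 (@Lb.g g11 (@Lb.r r1699 (@Lb.r r2406 (@Lb.r r145 (@Lb.r r2456 (@Lb.d (nat_lit 105) (nat_lit 101) (nat_lit 66) (@Lb.t (@Lb.fm (nat_lit 9) t4513))))))))))))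
noncomputable def l23005 : Lb := (@Lb.d (nat_lit 360) (nat_lit 292) (nat_lit 646) (@Lb.r r24 (@Lb.r r1611 (@Lb.r r326 (@Lb.g g7 (@Lb.g g6 (@Lb.g g9 (@Lb.g g4 (@Lb.d (nat_lit 1) (nat_lit 146) (nat_lit 66) (@Lb.fm (nat_lit 9) t4514))))))))))
noncomputable def l23006 : Lb := (@Lb.d (nat_lit 272) (nat_lit 258) (nat_lit 0) (@Lb.g g8 (@Lb.g g9 (@Lb.g g10 (@Lb.r r2731 (@Lb.r r1642 (@Lb.r r25 (@Lb.d (nat_lit 9) (nat_lit 90) (nat_lit 9) (@Lb.t (@Lb.fp (nat_lit 9) t979))))))))))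
noncomputable def l23007 : Lb := (@Lb.d (nat_lit 256) (nat_lit 681) (nat_lit 401) (@Lb.r r2645 (@Lb.r r1303 (@Lb.r r1636 (@Lb.g g7 (@Lb.g g10 (@Lb.d (nat_lit 16) (nat_lit 8) (nat_lit 150) (@Lb.r r401 (@Lb.r r388 (@Lb.fp (nat_lit 3) t1350))))))))))
noncomputable def l23008 : Lb := (@Lb.r r21 (@Lb.r r323 (@Lb.d (nat_lit 130) (nat_lit 264) (nat_lit 2) (@Lb.g g8 (@Lb.g g10 (@Lb.r r615 (@Lb.r r97 (@Lb.r r264 (@Lb.d (nat_lit 137) (nat_lit 1) (nat_lit 66) (@Lb.fp (nat_lit 3) t119))))))))))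
noncomputable def l23009 : Lb := (@Lb.d (nat_lit 17) (nat_lit 9) (nat_lit 130) (@Lb.g g8 (@Lb.g g9 (@Lb.g g10 (@Lb.g g11 (@Lb.r r1667 (@Lb.r r1641 (@Lb.r r1626 (@Lb.r r68 (@Lb.d (nat_lit 265) (nat_lit 98) (nat_lit 89) (@Lb.fp (nat_lit 9) t4515)))))))))))
noncomputable def l23010 : Lb := (@Lb.d (nat_lit 17) (nat_lit 265) (nat_lit 130) (@Lb.g g8 (@Lb.g g9 (@Lb.g g10 (@Lb.g g11 (@Lb.r r1667 (@Lb.r r1641 (@Lb.r r1626 (@Lb.r r68 (@Lb.d (nat_lit 260) (nat_lit 97) (nat_lit 89) (@Lb.fp (nat_lit 9) t4515)))))))))))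
noncomputable def l23011 : Lb := (@Lb.d (nat_lit 4) (nat_lit 2) (nat_lit 130) (@Lb.g g9 (@Lb.g g10 (@Lb.g g11 (@Lb.r r679 (@Lb.r r344 (@Lb.r r342 (@Lb.r r673 (@Lb.d (nat_lit 9) (nat_lit 33) (nat_lit 5) (@Lb.t (@Lb.fp (nat_lit 9) t51)))))))))))
noncomputable def l23012 : Lb := (@Lb.d (nat_lit 10) (nat_lit 2) (nat_lit 130) (@Lb.g g8 (@Lb.g g9 (@Lb.g g10 (@Lb.g g11 (@Lb.r r650 (@Lb.r r648 (@Lb.r r555 (@Lb.r r529 (@Lb.r r36 (@Lb.d (nat_lit 2) (nat_lit 10) (nat_lit 2) (@Lb.fm (nat_lit 9) t51))))))))))))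
noncomputable def l23013 : Lb := (@Lb.g g5 (@Lb.g g7 (@Lb.r r402 (@Lb.d (nat_lit 0) (nat_lit 17) (nat_lit 10) (@Lb.fp (nat_lit 3) t44)))))
noncomputable def l23014 : Lb := (@Lb.g g9 (@Lb.g g10 (@Lb.g g7 (@Lb.r r2451 (@Lb.r r402 (@Lb.r r101 (@Lb.r r24 (@Lb.d (nat_lit 258) (nat_lit 0) (nat_lit 32) (@Lb.t (@Lb.fm (nat_lit 9) t592))))))))))
noncomputable def l23015 : Lb := (@Lb.d (nat_lit 0) (nat_lit 294) (nat_lit 74) (@Lb.g g9 (@Lb.g g10 (@Lb.g g11 (@Lb.r r2626 (@Lb.r r2577 (@Lb.r r595 (@Lb.d (nat_lit 0) (nat_lit 137) (nat_lit 417) (@Lb.t (@Lb.fp (nat_lit 9) t2181))))))))))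
noncomputable def l23016 : Lb := (@Lb.r r81 (@Lb.d (nat_lit 154) (nat_lit 32) (nat_lit 160) (@Lb.g g8 (@Lb.g g10 (@Lb.g g11 (@Lb.r r2401 (@Lb.r r535 (@Lb.r r1444 (@Lb.d (nat_lit 600) (nat_lit 164) (nat_lit 424) (@Lb.t (@Lb.fm (nat_lit 9) t2343)))))))))))
noncomputable def l23017 : Lb := (@Lb.d (nat_lit 0) (nat_lit 514) (nat_lit 130) (@Lb.g g9 (@Lb.g g10 (@Lb.g g11 (@Lb.r r1443 (@Lb.r r536 (@Lb.r r357 (@Lb.r r154 (@Lb.r r132 (@Lb.d (nat_lit 581) (nat_lit 1) (nat_lit 170) (@Lb.t (@Lb.fp (nat_lit 9) t222))))))))))))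
noncomputable def l23018 : Lb := (@Lb.d (nat_lit 2) (nat_lit 521) (nat_lit 1) (@Lb.g g8 (@Lb.g g9 (@Lb.g g10 (@Lb.r r2666 (@Lb.r r579 (@Lb.r r25 (@Lb.d (nat_lit 277) (nat_lit 106) (nat_lit 618) (@Lb.t (@Lb.fp (nat_lit 9) t2444))))))))))
noncomputable def l23019 : Lb := (@Lb.d (nat_lit 2) (nat_lit 289) (nat_lit 66) (@Lb.g g8 (@Lb.g g9 (@Lb.g g10 (@Lb.g g11 (@Lb.r r1706 (@Lb.r r1700 (@Lb.r r1575 (@Lb.r r1557 (@Lb.d (nat_lit 388) (nat_lit 96) (nat_lit 617) (@Lb.fp (nat_lit 9) t673)))))))))))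
noncomputable def l23020 : Lb := (@Lb.d (nat_lit 32) (nat_lit 512) (nat_lit 66) (@Lb.g g10 (@Lb.g g11 (@Lb.r r545 (@Lb.r r1571 (@Lb.r r68 (@Lb.r r2122 (@Lb.d (nat_lit 97) (nat_lit 97) (nat_lit 674) (@Lb.fm (nat_lit 3) t2449)))))))))
noncomputable def l23021 : Lb := (@Lb.d (nat_lit 2) (nat_lit 516) (nat_lit 0) (@Lb.g g8 (@Lb.g g9 (@Lb.g g10 (@Lb.r r1610 (@Lb.r r145 (@Lb.d (nat_lit 578) (nat_lit 8) (nat_lit 642) (@Lb.t (@Lb.fm (nat_lit 9) t4309)))))))))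
noncomputable def l23022 : Lb := (@Lb.d (nat_lit 0) (nat_lit 260) (nat_lit 136) (@Lb.g g9 (@Lb.g g10 (@Lb.g g11 (@Lb.r r145 (@Lb.d (nat_lit 10) (nat_lit 10) (nat_lit 1) (@Lb.t (@Lb.fm (nat_lit 9) t3849))))))))
noncomputable def l23023 : Lb := (@Lb.r r283 (@Lb.d (nat_lit 6) (nat_lit 0) (nat_lit 2) (@Lb.g g8 (@Lb.g g9 (@Lb.g g10 (@Lb.r r283 (@Lb.r r386 (@Lb.r r2641 (@Lb.r r1320 (@Lb.d (nat_lit 598) (nat_lit 164) (nat_lit 384) (@Lb.t (@Lb.fm (nat_lit 9) t4516))))))))))))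
noncomputable def l23024 : Lb := (@Lb.d (nat_lit 2) (nat_lit 260) (nat_lit 74) (@Lb.g g8 (@Lb.g g9 (@Lb.g g10 (@Lb.g g11 (@Lb.r r1699 (@Lb.r r596 (@Lb.r r682 (@Lb.r r2217 (@Lb.r r2212 (@Lb.d (nat_lit 584) (nat_lit 144) (nat_lit 320) (@Lb.fm (nat_lit 9) t4517))))))))))))
noncomputable def l23025 : Lb := (@Lb.d (nat_lit 1) (nat_lit 514) (nat_lit 130) (@Lb.g g8 (@Lb.g g9 (@Lb.g g10 (@Lb.g g11 (@Lb.r r1371 (@Lb.r r386 (@Lb.r r97 (@Lb.r r24 (@Lb.d (nat_lit 265) (nat_lit 6) (nat_lit 136) (@Lb.fm (nat_lit 9) t3788)))))))))))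
noncomputable def l23026 : Lb := (@Lb.d (nat_lit 0) (nat_lit 546) (nat_lit 66) (@Lb.g g9 (@Lb.g g10 (@Lb.g g11 (@Lb.r r2339 (@Lb.r r578 (@Lb.r r401 (@Lb.d (nat_lit 10) (nat_lit 96) (nat_lit 354) (@Lb.t (@Lb.fm (nat_lit 9) t4518))))))))))
noncomputable def l23027 : Lb := (@Lb.r r21 (@Lb.d (nat_lit 34) (nat_lit 256) (nat_lit 130) (@Lb.g g8 (@Lb.g g10 (@Lb.g g11 (@Lb.r r1623 (@Lb.r r1365 (@Lb.r r2218 (@Lb.r r1172 (@Lb.d (nat_lit 81) (nat_lit 68) (nat_lit 545) (@Lb.t (@Lb.fm (nat_lit 9) t4519))))))))))))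
noncomputable def l23028 : Lb := (@Lb.d (nat_lit 2) (nat_lit 544) (nat_lit 128) (@Lb.g g8 (@Lb.g g11 (@Lb.r r2712 (@Lb.r r293 (@Lb.r r2587 (@Lb.r r2178 (@Lb.d (nat_lit 97) (nat_lit 105) (nat_lit 278) (@Lb.fm (nat_lit 3) t4511)))))))))
noncomputable def l23029 : Lb := (@Lb.d (nat_lit 4) (nat_lit 290) (nat_lit 73) (@Lb.g g8 (@Lb.g g9 (@Lb.g g10 (@Lb.g g11 (@Lb.r r683 (@Lb.r r362 (@Lb.r r1561 (@Lb.d (nat_lit 585) (nat_lit 137) (nat_lit 37) (@Lb.fm (nat_lit 9) t1047))))))))))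
noncomputable def l23030 : Lb := (@Lb.d (nat_lit 4) (nat_lit 36) (nat_lit 74) (@Lb.g g8 (@Lb.g g9 (@Lb.g g10 (@Lb.g g11 (@Lb.r r683 (@Lb.r r362 (@Lb.r r1561 (@Lb.d (nat_lit 585) (nat_lit 137) (nat_lit 37) (@Lb.fm (nat_lit 9) t1370))))))))))
noncomputable def l23031 : Lb := (@Lb.r r21 (@Lb.d (nat_lit 129) (nat_lit 0) (nat_lit 73) (@Lb.g g8 (@Lb.g g10 (@Lb.g g11 (@Lb.r r1623 (@Lb.r r341 (@Lb.r r170 (@Lb.r r148 (@Lb.d (nat_lit 81) (nat_lit 66) (nat_lit 528) (@Lb.t (@Lb.fm (nat_lit 9) t1606))))))))))))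
noncomputable def l23032 : Lb := (@Lb.r r263 (@Lb.d (nat_lit 545) (nat_lit 34) (nat_lit 1) (@Lb.g g4 (@Lb.g g9 (@Lb.g g10 (@Lb.r r2695 (@Lb.r r2214 (@Lb.r r1441 (@Lb.d (nat_lit 137) (nat_lit 85) (nat_lit 90) (@Lb.t (@Lb.fm (nat_lit 9) t2991)))))))))))
noncomputable def l23033 : Lb := (@Lb.d (nat_lit 0) (nat_lit 0) (nat_lit 64) (@Lb.g g11 (@Lb.t (@Lb.fp (nat_lit 3) t2))))
noncomputable def l23034 : Lb := (@Lb.d (nat_lit 0) (nat_lit 32) (nat_lit 136) (@Lb.g g7 (@Lb.r r677 (@Lb.r r2726 (@Lb.r r1703 (@Lb.r r24 (@Lb.d (nat_lit 680) (nat_lit 128) (nat_lit 345) (@Lb.t (@Lb.fm (nat_lit 3) t1639)))))))))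
noncomputable def l23035 : Lb := (@Lb.d (nat_lit 0) (nat_lit 0) (nat_lit 70) (@Lb.g g10 (@Lb.g g11 (@Lb.r r2690 (@Lb.r r387 (@Lb.d (nat_lit 0) (nat_lit 0) (nat_lit 402) (@Lb.fp (nat_lit 3) t2)))))))
noncomputable def l23036 : Lb := (@Lb.d (nat_lit 0) (nat_lit 544) (nat_lit 136) (@Lb.g g7 (@Lb.r r677 (@Lb.r r2726 (@Lb.r r1703 (@Lb.r r24 (@Lb.d (nat_lit 673) (nat_lit 0) (nat_lit 345) (@Lb.t (@Lb.fm (nat_lit 3) t1261)))))))))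
noncomputable def l23037 : Lb := (@Lb.r r323 (@Lb.d (nat_lit 130) (nat_lit 546) (nat_lit 10) (@Lb.g g8 (@Lb.g g9 (@Lb.g g10 (@Lb.r r275 (@Lb.r r609 (@Lb.r r598 (@Lb.r r408 (@Lb.d (nat_lit 20) (nat_lit 73) (nat_lit 74) (@Lb.t (@Lb.fm (nat_lit 9) t2))))))))))))
noncomputable def l23038 : Lb := (@Lb.r r263 (@Lb.d (nat_lit 516) (nat_lit 2) (nat_lit 2) (@Lb.g g8 (@Lb.g g9 (@Lb.g g10 (@Lb.r r535 (@Lb.r r1130 (@Lb.r r1049 (@Lb.d (nat_lit 521) (nat_lit 70) (nat_lit 17) (@Lb.t (@Lb.fp (nat_lit 9) t898)))))))))))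
noncomputable def l23039 : Lb := (@Lb.r r21 (@Lb.d (nat_lit 18) (nat_lit 264) (nat_lit 128) (@Lb.g g4 (@Lb.g g10 (@Lb.g g11 (@Lb.r r1703 (@Lb.r r2137 (@Lb.r r1446 (@Lb.d (nat_lit 97) (nat_lit 164) (nat_lit 425) (@Lb.t (@Lb.fp (nat_lit 9) t1506)))))))))))
noncomputable def l23040 : Lb := (@Lb.d (nat_lit 0) (nat_lit 256) (nat_lit 130) (@Lb.g g9 (@Lb.g g10 (@Lb.g g11 (@Lb.r r1451 (@Lb.r r409 (@Lb.r r2138 (@Lb.r r1169 (@Lb.d (nat_lit 521) (nat_lit 9) (nat_lit 18) (@Lb.t (@Lb.fm (nat_lit 9) t221)))))))))))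
noncomputable def l23041 : Lb := (@Lb.d (nat_lit 390) (nat_lit 582) (nat_lit 26) (@Lb.r r2325 (@Lb.r r598 (@Lb.r r683 (@Lb.g g7 (@Lb.g g6 (@Lb.g g5 (@Lb.g g4 (@Lb.d (nat_lit 8) (nat_lit 17) (nat_lit 134) (@Lb.fm (nat_lit 9) t309))))))))))
noncomputable def l23042 : Lb := (@Lb.d (nat_lit 8) (nat_lit 258) (nat_lit 130) (@Lb.g g9 (@Lb.g g10 (@Lb.g g11 (@Lb.r r2726 (@Lb.r r1364 (@Lb.r r2571 (@Lb.r r289 (@Lb.d (nat_lit 2) (nat_lit 73) (nat_lit 642) (@Lb.t (@Lb.fp (nat_lit 9) t1190)))))))))))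
noncomputable def l23043 : Lb := (@Lb.g g10 (@Lb.r r1291 (@Lb.r r2378 (@Lb.d (nat_lit 0) (nat_lit 0) (nat_lit 512) (@Lb.t (@Lb.fp (nat_lit 3) t441))))))
noncomputable def l23044 : Lb := (@Lb.d (nat_lit 550) (nat_lit 2) (nat_lit 130) (@Lb.g g8 (@Lb.g g9 (@Lb.g g10 (@Lb.g g11 (@Lb.r r2443 (@Lb.r r1177 (@Lb.r r2458 (@Lb.d (nat_lit 152) (nat_lit 149) (nat_lit 84) (@Lb.fm (nat_lit 9) t1244))))))))))
noncomputable def l23045 : Lb := (@Lb.d (nat_lit 321) (nat_lit 86) (nat_lit 640) (@Lb.r r1385 (@Lb.r r1316 (@Lb.r r322 (@Lb.r r2691 (@Lb.g g7 (@Lb.g g6 (@Lb.g g5 (@Lb.d (nat_lit 4) (nat_lit 0) (nat_lit 65) (@Lb.t (@Lb.fp (nat_lit 9) t898)))))))))))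
noncomputable def l23046 : Lb := (@Lb.d (nat_lit 100) (nat_lit 36) (nat_lit 73) (@Lb.g g8 (@Lb.g g9 (@Lb.g g10 (@Lb.g g11 (@Lb.r r1699 (@Lb.r r1638 (@Lb.r r529 (@Lb.r r2312 (@Lb.d (nat_lit 340) (nat_lit 25) (nat_lit 553) (@Lb.fp (nat_lit 9) t1865)))))))))))
noncomputable def l23047 : Lb := (@Lb.d (nat_lit 4) (nat_lit 256) (nat_lit 0) (@Lb.g g8 (@Lb.g g9 (@Lb.r r138 (@Lb.r r644 (@Lb.r r1559 (@Lb.r r2337 (@Lb.d (nat_lit 0) (nat_lit 64) (nat_lit 640) (@Lb.fp (nat_lit 3) t119)))))))))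
noncomputable def l23048 : Lb := (@Lb.d (nat_lit 100) (nat_lit 548) (nat_lit 73) (@Lb.g g8 (@Lb.g g9 (@Lb.g g10 (@Lb.g g11 (@Lb.r r1699 (@Lb.r r1638 (@Lb.r r529 (@Lb.r r2312 (@Lb.d (nat_lit 341) (nat_lit 25) (nat_lit 553) (@Lb.fp (nat_lit 9) t199)))))))))))
noncomputable def l23049 : Lb := (@Lb.r r101 (@Lb.r r402 (@Lb.d (nat_lit 512) (nat_lit 512) (nat_lit 613) (@Lb.fp (nat_lit 1) t590))))
noncomputable def l23050 : Lb := (@Lb.d (nat_lit 17) (nat_lit 642) (nat_lit 36) (@Lb.r r169 (@Lb.r r100 (@Lb.r r386 (@Lb.g g11 (@Lb.g g6 (@Lb.g g5 (@Lb.d (nat_lit 4) (nat_lit 0) (nat_lit 129) (@Lb.t (@Lb.fm (nat_lit 9) t74))))))))))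
noncomputable def l23051 : Lb := (@Lb.d (nat_lit 2) (nat_lit 548) (nat_lit 64) (@Lb.g g8 (@Lb.g g9 (@Lb.g g10 (@Lb.g g11 (@Lb.r r1194 (@Lb.r r424 (@Lb.r r279 (@Lb.r r1065 (@Lb.r r2084 (@Lb.d (nat_lit 258) (nat_lit 96) (nat_lit 10) (@Lb.fm (nat_lit 9) t125))))))))))))
noncomputable def l23052 : Lb := (@Lb.r r263 (@Lb.d (nat_lit 33) (nat_lit 514) (nat_lit 2) (@Lb.g g8 (@Lb.g g9 (@Lb.g g10 (@Lb.r r406 (@Lb.r r2627 (@Lb.r r553 (@Lb.r r532 (@Lb.d (nat_lit 129) (nat_lit 130) (nat_lit 256) (@Lb.t (@Lb.fp (nat_lit 9) t394))))))))))))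
noncomputable def l23053 : Lb := (@Lb.r r263 (@Lb.d (nat_lit 546) (nat_lit 514) (nat_lit 2) (@Lb.g g8 (@Lb.g g9 (@Lb.g g10 (@Lb.r r1642 (@Lb.r r2627 (@Lb.r r25 (@Lb.d (nat_lit 9) (nat_lit 97) (nat_lit 640) (@Lb.t (@Lb.fp (nat_lit 9) t394)))))))))))
noncomputable def l23054 : Lb := (@Lb.d (nat_lit 530) (nat_lit 5) (nat_lit 84) (@Lb.r r386 (@Lb.r r2579 (@Lb.r r2389 (@Lb.g g7 (@Lb.g g6 (@Lb.g g5 (@Lb.g g4 (@Lb.d (nat_lit 1) (nat_lit 1) (nat_lit 65) (@Lb.fp (nat_lit 9) t2774))))))))))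
noncomputable def l23055 : Lb := (@Lb.d (nat_lit 0) (nat_lit 1) (nat_lit 168) (@Lb.r r260 (@Lb.r r390 (@Lb.r r603 (@Lb.r r596 (@Lb.g g5 (@Lb.d (nat_lit 0) (nat_lit 18) (nat_lit 0) (@Lb.t (@Lb.fm (nat_lit 3) t594)))))))))
noncomputable def l23056 : Lb := (@Lb.d (nat_lit 0) (nat_lit 0) (nat_lit 74) (@Lb.g g10 (@Lb.g g11 (@Lb.r r2626 (@Lb.r r579 (@Lb.d (nat_lit 0) (nat_lit 0) (nat_lit 586) (@Lb.fp (nat_lit 3) t2)))))))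
noncomputable def l23057 : Lb := (@Lb.d (nat_lit 0) (nat_lit 522) (nat_lit 0) (@Lb.g g9 (@Lb.g g7 (@Lb.r r594 (@Lb.r r677 (@Lb.r r24 (@Lb.d (nat_lit 386) (nat_lit 5) (nat_lit 518) (@Lb.fp (nat_lit 3) t1087))))))))
noncomputable def l23058 : Lb := (@Lb.d (nat_lit 10) (nat_lit 256) (nat_lit 74) (@Lb.g g8 (@Lb.g g10 (@Lb.g g11 (@Lb.r r2389 (@Lb.r r683 (@Lb.r r676 (@Lb.r r1158 (@Lb.d (nat_lit 289) (nat_lit 90) (nat_lit 290) (@Lb.t (@Lb.fm (nat_lit 9) t100)))))))))))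
noncomputable def l23059 : Lb := (@Lb.d (nat_lit 34) (nat_lit 513) (nat_lit 34) (@Lb.r r70 (@Lb.r r392 (@Lb.r r599 (@Lb.g g6 (@Lb.g g5 (@Lb.g g4 (@Lb.d (nat_lit 1) (nat_lit 22) (nat_lit 2) (@Lb.r r387 (@Lb.t (@Lb.fp (nat_lit 9) t594)))))))))))
noncomputable def l23060 : Lb := (@Lb.r r82 (@Lb.d (nat_lit 0) (nat_lit 546) (nat_lit 72) (@Lb.g g9 (@Lb.g g11 (@Lb.r r1617 (@Lb.r r98 (@Lb.d (nat_lit 0) (nat_lit 152) (nat_lit 665) (@Lb.fm (nat_lit 3) t225))))))))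
noncomputable def l23061 : Lb := (@Lb.d (nat_lit 8) (nat_lit 514) (nat_lit 73) (@Lb.g g9 (@Lb.g g10 (@Lb.g g11 (@Lb.r r2658 (@Lb.r r579 (@Lb.d (nat_lit 545) (nat_lit 102) (nat_lit 602) (@Lb.t (@Lb.fp (nat_lit 9) t1320)))))))))
noncomputable def l23062 : Lb := (@Lb.d (nat_lit 2) (nat_lit 4) (nat_lit 72) (@Lb.g g8 (@Lb.g g9 (@Lb.g g10 (@Lb.g g11 (@Lb.r r659 (@Lb.r r533 (@Lb.r r616 (@Lb.r r326 (@Lb.d (nat_lit 81) (nat_lit 10) (nat_lit 133) (@Lb.fp (nat_lit 9) t355)))))))))))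
noncomputable def l23063 : Lb := (@Lb.d (nat_lit 129) (nat_lit 546) (nat_lit 0) (@Lb.g g8 (@Lb.g g9 (@Lb.r r519 (@Lb.r r2178 (@Lb.r r280 (@Lb.r r2085 (@Lb.d (nat_lit 26) (nat_lit 168) (nat_lit 548) (@Lb.fm (nat_lit 3) t287)))))))))
noncomputable def l23064 : Lb := (@Lb.d (nat_lit 0) (nat_lit 265) (nat_lit 2) (@Lb.g g9 (@Lb.g g10 (@Lb.r r2146 (@Lb.r r97 (@Lb.d (nat_lit 0) (nat_lit 137) (nat_lit 154) (@Lb.fp (nat_lit 3) t2994)))))))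
noncomputable def l23065 : Lb := (@Lb.d (nat_lit 0) (nat_lit 666) (nat_lit 138) (@Lb.r r82 (@Lb.g g9 (@Lb.d (nat_lit 0) (nat_lit 102) (nat_lit 0) (@Lb.r r98 (@Lb.t (@Lb.fp (nat_lit 3) t4520)))))))
noncomputable def l23066 : Lb := (@Lb.d (nat_lit 0) (nat_lit 518) (nat_lit 1) (@Lb.g g9 (@Lb.g g10 (@Lb.g g7 (@Lb.r r418 (@Lb.r r1441 (@Lb.d (nat_lit 0) (nat_lit 101) (nat_lit 537) (@Lb.t (@Lb.fp (nat_lit 9) t4521)))))))))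
noncomputable def l23067 : Lb := (@Lb.d (nat_lit 358) (nat_lit 261) (nat_lit 678) (@Lb.r r154 (@Lb.r r660 (@Lb.r r1625 (@Lb.r r2723 (@Lb.g g7 (@Lb.g g6 (@Lb.g g5 (@Lb.d (nat_lit 0) (nat_lit 6) (nat_lit 65) (@Lb.t (@Lb.fp (nat_lit 9) t2619)))))))))))
noncomputable def l23068 : Lb := (@Lb.r r81 (@Lb.g g10 (@Lb.r r2599 (@Lb.r r2392 (@Lb.r r1190 (@Lb.r r37 (@Lb.d (nat_lit 289) (nat_lit 325) (nat_lit 16) (@Lb.t (@Lb.fp (nat_lit 3) t4522)))))))))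
noncomputable def l23069 : Lb := (@Lb.r r82 (@Lb.d (nat_lit 129) (nat_lit 272) (nat_lit 0) (@Lb.g g8 (@Lb.g g9 (@Lb.g g11 (@Lb.r r555 (@Lb.r r618 (@Lb.r r537 (@Lb.r r1636 (@Lb.d (nat_lit 673) (nat_lit 80) (nat_lit 665) (@Lb.t (@Lb.fp (nat_lit 9) t4523))))))))))))
noncomputable def l23070 : Lb := (@Lb.d (nat_lit 0) (nat_lit 260) (nat_lit 1) (@Lb.g g9 (@Lb.g g10 (@Lb.r r2146 (@Lb.r r97 (@Lb.d (nat_lit 0) (nat_lit 137) (nat_lit 16) (@Lb.fp (nat_lit 3) t549)))))))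
noncomputable def l23071 : Lb := (@Lb.d (nat_lit 2) (nat_lit 514) (nat_lit 137) (@Lb.g g8 (@Lb.g g9 (@Lb.g g10 (@Lb.g g11 (@Lb.r r2729 (@Lb.r r2475 (@Lb.r r2468 (@Lb.r r2438 (@Lb.d (nat_lit 609) (nat_lit 10) (nat_lit 674) (@Lb.fp (nat_lit 9) t590)))))))))))
noncomputable def l23072 : Lb := (@Lb.r r323 (@Lb.d (nat_lit 38) (nat_lit 576) (nat_lit 2) (@Lb.g g8 (@Lb.g g9 (@Lb.g g10 (@Lb.r r1642 (@Lb.r r579 (@Lb.r r1060 (@Lb.d (nat_lit 648) (nat_lit 66) (nat_lit 128) (@Lb.t (@Lb.fp (nat_lit 9) t367)))))))))))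
noncomputable def l23073 : Lb := (@Lb.d (nat_lit 0) (nat_lit 256) (nat_lit 128) (@Lb.g g11 (@Lb.r r337 (@Lb.r r679 (@Lb.r r340 (@Lb.r r170 (@Lb.r r153 (@Lb.d (nat_lit 6) (nat_lit 88) (nat_lit 354) (@Lb.t (@Lb.fp (nat_lit 3) t654))))))))))
noncomputable def l23074 : Lb := (@Lb.r r70 (@Lb.d (nat_lit 4) (nat_lit 256) (nat_lit 0) (@Lb.g g8 (@Lb.g g9 (@Lb.g g11 (@Lb.r r2601 (@Lb.r r2475 (@Lb.r r1410 (@Lb.r r1124 (@Lb.d (nat_lit 586) (nat_lit 138) (nat_lit 545) (@Lb.t (@Lb.fm (nat_lit 9) t1481))))))))))))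
noncomputable def l23075 : Lb := (@Lb.d (nat_lit 0) (nat_lit 514) (nat_lit 1) (@Lb.g g8 (@Lb.g g9 (@Lb.g g10 (@Lb.g g11 (@Lb.r r1634 (@Lb.r r579 (@Lb.r r36 (@Lb.r r2069 (@Lb.r r1060 (@Lb.d (nat_lit 641) (nat_lit 130) (nat_lit 384) (@Lb.fm (nat_lit 9) t1155))))))))))))
noncomputable def l23076 : Lb := (@Lb.r r323 (@Lb.d (nat_lit 128) (nat_lit 258) (nat_lit 10) (@Lb.g g8 (@Lb.g g9 (@Lb.g g10 (@Lb.r r2643 (@Lb.r r405 (@Lb.r r612 (@Lb.r r1098 (@Lb.d (nat_lit 545) (nat_lit 154) (nat_lit 546) (@Lb.t (@Lb.fp (nat_lit 9) t1155))))))))))))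
noncomputable def l23077 : Lb := (@Lb.r r1045 (@Lb.r r584 (@Lb.r r358 (@Lb.r r1435 (@Lb.r r132 (@Lb.d (nat_lit 320) (nat_lit 586) (nat_lit 338) (@Lb.fm (nat_lit 1) t430)))))))
noncomputable def l23078 : Lb := (@Lb.d (nat_lit 8) (nat_lit 34) (nat_lit 0) (@Lb.g g9 (@Lb.r r536 (@Lb.r r283 (@Lb.r r2178 (@Lb.r r2597 (@Lb.d (nat_lit 154) (nat_lit 82) (nat_lit 416) (@Lb.t (@Lb.fm (nat_lit 3) t4524)))))))))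
noncomputable def l23079 : Lb := (@Lb.d (nat_lit 8) (nat_lit 514) (nat_lit 0) (@Lb.g g9 (@Lb.r r2343 (@Lb.r r1096 (@Lb.r r2646 (@Lb.r r409 (@Lb.d (nat_lit 154) (nat_lit 154) (nat_lit 537) (@Lb.t (@Lb.fm (nat_lit 3) t3351)))))))))
noncomputable def l23080 : Lb := (@Lb.d (nat_lit 2) (nat_lit 2) (nat_lit 64) (@Lb.g g8 (@Lb.g g9 (@Lb.g g11 (@Lb.r r600 (@Lb.r r2587 (@Lb.r r2178 (@Lb.r r2325 (@Lb.r r1572 (@Lb.d (nat_lit 274) (nat_lit 129) (nat_lit 161) (@Lb.t (@Lb.fp (nat_lit 9) t180))))))))))))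
noncomputable def l23081 : Lb := (@Lb.d (nat_lit 128) (nat_lit 32) (nat_lit 64) (@Lb.g g11 (@Lb.r r1096 (@Lb.r r1382 (@Lb.r r2405 (@Lb.r r2459 (@Lb.d (nat_lit 405) (nat_lit 82) (nat_lit 650) (@Lb.t (@Lb.fp (nat_lit 3) t1222)))))))))
noncomputable def l23082 : Lb := (@Lb.d (nat_lit 545) (nat_lit 32) (nat_lit 72) (@Lb.g g8 (@Lb.g g11 (@Lb.r r2402 (@Lb.r r353 (@Lb.r r1427 (@Lb.d (nat_lit 9) (nat_lit 18) (nat_lit 410) (@Lb.fp (nat_lit 3) t1222))))))))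
noncomputable def l23083 : Lb := (@Lb.d (nat_lit 128) (nat_lit 32) (nat_lit 128) (@Lb.g g11 (@Lb.r r356 (@Lb.r r2341 (@Lb.r r539 (@Lb.r r2178 (@Lb.d (nat_lit 618) (nat_lit 36) (nat_lit 20) (@Lb.t (@Lb.fm (nat_lit 3) t100)))))))))
noncomputable def l23084 : Lb := (@Lb.d (nat_lit 134) (nat_lit 534) (nat_lit 354) (@Lb.r r277 (@Lb.r r342 (@Lb.r r2731 (@Lb.g g7 (@Lb.g g6 (@Lb.g g5 (@Lb.g g4 (@Lb.d (nat_lit 1) (nat_lit 17) (nat_lit 65) (@Lb.fm (nat_lit 9) t309))))))))))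
noncomputable def l23085 : Lb := (@Lb.d (nat_lit 10) (nat_lit 288) (nat_lit 0) (@Lb.g g8 (@Lb.g g11 (@Lb.r r1109 (@Lb.r r2468 (@Lb.r r2571 (@Lb.r r2178 (@Lb.d (nat_lit 98) (nat_lit 90) (nat_lit 674) (@Lb.fm (nat_lit 3) t100)))))))))
noncomputable def l23086 : Lb := (@Lb.r r323 (@Lb.d (nat_lit 0) (nat_lit 262) (nat_lit 1) (@Lb.g g9 (@Lb.g g10 (@Lb.r r1299 (@Lb.r r337 (@Lb.r r2722 (@Lb.d (nat_lit 5) (nat_lit 152) (nat_lit 264) (@Lb.fp (nat_lit 3) t1352)))))))))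
noncomputable def l23087 : Lb := (@Lb.d (nat_lit 40) (nat_lit 516) (nat_lit 137) (@Lb.g g9 (@Lb.g g10 (@Lb.g g11 (@Lb.r r1355 (@Lb.r r1348 (@Lb.r r2394 (@Lb.r r409 (@Lb.d (nat_lit 577) (nat_lit 130) (nat_lit 384) (@Lb.t (@Lb.fm (nat_lit 9) t1955)))))))))))
noncomputable def l23088 : Lb := (@Lb.r r24 (@Lb.r r2069 (@Lb.r r36 (@Lb.d (nat_lit 0) (nat_lit 512) (nat_lit 64) (@Lb.fm (nat_lit 1) t2)))))
noncomputable def l23089 : Lb := (@Lb.d (nat_lit 2) (nat_lit 2) (nat_lit 2) (@Lb.g g8 (@Lb.g g9 (@Lb.g g10 (@Lb.g g11 (@Lb.r r425 (@Lb.r r599 (@Lb.r r2394 (@Lb.r r81 (@Lb.r r2436 (@Lb.d (nat_lit 105) (nat_lit 2) (nat_lit 602) (@Lb.fp (nat_lit 9) t994))))))))))))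
noncomputable def l23090 : Lb := (@Lb.d (nat_lit 534) (nat_lit 258) (nat_lit 134) (@Lb.r r68 (@Lb.r r90 (@Lb.r r596 (@Lb.r r1367 (@Lb.g g7 (@Lb.g g6 (@Lb.g g5 (@Lb.g g4 (@Lb.d (nat_lit 2) (nat_lit 129) (nat_lit 65) (@Lb.fp (nat_lit 9) t242)))))))))))
noncomputable def l23091 : Lb := (@Lb.d (nat_lit 2) (nat_lit 2) (nat_lit 137) (@Lb.g g8 (@Lb.g g9 (@Lb.g g10 (@Lb.g g11 (@Lb.r r425 (@Lb.r r599 (@Lb.r r2394 (@Lb.r r81 (@Lb.r r2436 (@Lb.d (nat_lit 106) (nat_lit 65) (nat_lit 602) (@Lb.fp (nat_lit 9) t994))))))))))))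
noncomputable def l23092 : Lb := (@Lb.d (nat_lit 2) (nat_lit 514) (nat_lit 2) (@Lb.g g8 (@Lb.g g9 (@Lb.g g10 (@Lb.g g11 (@Lb.r r1706 (@Lb.r r1177 (@Lb.r r664 (@Lb.r r2571 (@Lb.r r2564 (@Lb.d (nat_lit 10) (nat_lit 153) (nat_lit 362) (@Lb.fm (nat_lit 9) t334))))))))))))
noncomputable def l23093 : Lb := (@Lb.d (nat_lit 164) (nat_lit 25) (nat_lit 150) (@Lb.r r603 (@Lb.r r532 (@Lb.r r2409 (@Lb.r r1106 (@Lb.g g7 (@Lb.g g6 (@Lb.g g5 (@Lb.d (nat_lit 64) (nat_lit 1) (nat_lit 65) (@Lb.t (@Lb.fp (nat_lit 9) t334)))))))))))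
noncomputable def l23094 : Lb := (@Lb.d (nat_lit 5) (nat_lit 576) (nat_lit 41) (@Lb.r r2120 (@Lb.r r2145 (@Lb.r r579 (@Lb.g g10 (@Lb.g g4 (@Lb.d (nat_lit 0) (nat_lit 0) (nat_lit 2) (@Lb.r r387 (@Lb.fm (nat_lit 3) t68)))))))))
noncomputable def l23095 : Lb := (@Lb.d (nat_lit 2) (nat_lit 521) (nat_lit 66) (@Lb.g g8 (@Lb.g g9 (@Lb.g g10 (@Lb.g g11 (@Lb.r r134 (@Lb.r r580 (@Lb.r r2327 (@Lb.r r1553 (@Lb.r r36 (@Lb.d (nat_lit 2) (nat_lit 40) (nat_lit 130) (@Lb.fm (nat_lit 9) t925))))))))))))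
noncomputable def l23096 : Lb := (@Lb.d (nat_lit 8) (nat_lit 521) (nat_lit 1) (@Lb.g g9 (@Lb.g g10 (@Lb.r r1703 (@Lb.r r2392 (@Lb.r r1190 (@Lb.r r1169 (@Lb.d (nat_lit 4) (nat_lit 72) (nat_lit 169) (@Lb.fp (nat_lit 3) t264)))))))))
noncomputable def l23097 : Lb := (@Lb.d (nat_lit 0) (nat_lit 10) (nat_lit 129) (@Lb.g g9 (@Lb.g g10 (@Lb.g g11 (@Lb.r r1703 (@Lb.r r2392 (@Lb.r r1190 (@Lb.r r1169 (@Lb.d (nat_lit 4) (nat_lit 72) (nat_lit 34) (@Lb.t (@Lb.fp (nat_lit 9) t264)))))))))))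
noncomputable def l23098 : Lb := (@Lb.d (nat_lit 656) (nat_lit 0) (nat_lit 262) (@Lb.r r24 (@Lb.r r101 (@Lb.r r386 (@Lb.g g11 (@Lb.g g6 (@Lb.d (nat_lit 0) (nat_lit 0) (nat_lit 129) (@Lb.fm (nat_lit 3) t1929))))))))
noncomputable def l23099 : Lb := (@Lb.d (nat_lit 390) (nat_lit 70) (nat_lit 26) (@Lb.r r2325 (@Lb.r r598 (@Lb.r r683 (@Lb.g g7 (@Lb.g g6 (@Lb.g g5 (@Lb.g g4 (@Lb.d (nat_lit 8) (nat_lit 17) (nat_lit 65) (@Lb.fm (nat_lit 9) t309))))))))))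
noncomputable def l23100 : Lb := (@Lb.d (nat_lit 2) (nat_lit 289) (nat_lit 66) (@Lb.g g8 (@Lb.g g9 (@Lb.g g10 (@Lb.g g11 (@Lb.r r342 (@Lb.r r680 (@Lb.r r555 (@Lb.r r1557 (@Lb.d (nat_lit 384) (nat_lit 160) (nat_lit 586) (@Lb.fp (nat_lit 9) t264)))))))))))
noncomputable def l23101 : Lb := (@Lb.d (nat_lit 390) (nat_lit 582) (nat_lit 26) (@Lb.r r2325 (@Lb.r r598 (@Lb.r r683 (@Lb.g g7 (@Lb.g g6 (@Lb.g g5 (@Lb.g g4 (@Lb.d (nat_lit 1) (nat_lit 18) (nat_lit 65) (@Lb.fm (nat_lit 9) t309))))))))))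
noncomputable def l23102 : Lb := (@Lb.r r355 (@Lb.d (nat_lit 16) (nat_lit 522) (nat_lit 33) (@Lb.g g9 (@Lb.g g6 (@Lb.r r2727 (@Lb.r r344 (@Lb.r r549 (@Lb.d (nat_lit 393) (nat_lit 0) (nat_lit 134) (@Lb.fm (nat_lit 3) t467)))))))))
noncomputable def l23103 : Lb := (@Lb.d (nat_lit 0) (nat_lit 32) (nat_lit 642) (@Lb.g g10 (@Lb.g g11 (@Lb.r r578 (@Lb.r r24 (@Lb.d (nat_lit 5) (nat_lit 88) (nat_lit 330) (@Lb.fp (nat_lit 3) t333)))))))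
noncomputable def l23104 : Lb := (@Lb.r r323 (@Lb.d (nat_lit 32) (nat_lit 2) (nat_lit 18) (@Lb.g g9 (@Lb.g g10 (@Lb.r r1611 (@Lb.r r145 (@Lb.d (nat_lit 361) (nat_lit 10) (nat_lit 538) (@Lb.fp (nat_lit 3) t2058))))))))
noncomputable def l23105 : Lb := (@Lb.r r323 (@Lb.d (nat_lit 0) (nat_lit 520) (nat_lit 34) (@Lb.g g10 (@Lb.r r2659 (@Lb.r r24 (@Lb.d (nat_lit 5) (nat_lit 21) (nat_lit 296) (@Lb.t (@Lb.fp (nat_lit 3) t334))))))))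
noncomputable def l23106 : Lb := (@Lb.r r82 (@Lb.d (nat_lit 34) (nat_lit 290) (nat_lit 64) (@Lb.g g8 (@Lb.g g9 (@Lb.g g11 (@Lb.r r1643 (@Lb.r r390 (@Lb.r r2389 (@Lb.r r612 (@Lb.d (nat_lit 138) (nat_lit 152) (nat_lit 153) (@Lb.t (@Lb.fm (nat_lit 9) t367))))))))))))
noncomputable def l23107 : Lb := (@Lb.d (nat_lit 0) (nat_lit 512) (nat_lit 73) (@Lb.g g10 (@Lb.g g11 (@Lb.r r2658 (@Lb.r r24 (@Lb.d (nat_lit 5) (nat_lit 37) (nat_lit 618) (@Lb.fp (nat_lit 3) t479)))))))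
noncomputable def l23108 : Lb := (@Lb.d (nat_lit 0) (nat_lit 512) (nat_lit 10) (@Lb.g g10 (@Lb.r r24 (@Lb.d (nat_lit 5) (nat_lit 72) (nat_lit 130) (@Lb.t (@Lb.fm (nat_lit 3) t21))))))
noncomputable def l23109 : Lb := (@Lb.d (nat_lit 8) (nat_lit 84) (nat_lit 5) (@Lb.r r1636 (@Lb.r r613 (@Lb.r r1370 (@Lb.g g11 (@Lb.g g4 (@Lb.d (nat_lit 69) (nat_lit 0) (nat_lit 512) (@Lb.fm (nat_lit 3) t2142))))))))
noncomputable def l23110 : Lb := (@Lb.r r323 (@Lb.d (nat_lit 40) (nat_lit 258) (nat_lit 42) (@Lb.g g9 (@Lb.g g10 (@Lb.r r584 (@Lb.r r619 (@Lb.r r609 (@Lb.d (nat_lit 0) (nat_lit 9) (nat_lit 130) (@Lb.fp (nat_lit 3) t354)))))))))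
noncomputable def l23111 : Lb := (@Lb.r r322 (@Lb.d (nat_lit 0) (nat_lit 266) (nat_lit 576) (@Lb.g g9 (@Lb.g g7 (@Lb.r r594 (@Lb.r r421 (@Lb.r r24 (@Lb.d (nat_lit 258) (nat_lit 5) (nat_lit 10) (@Lb.fp (nat_lit 3) t1087)))))))))
noncomputable def l23112 : Lb := (@Lb.r r323 (@Lb.d (nat_lit 8) (nat_lit 258) (nat_lit 41) (@Lb.g g9 (@Lb.g g6 (@Lb.r r387 (@Lb.d (nat_lit 538) (nat_lit 2) (nat_lit 102) (@Lb.fp (nat_lit 3) t1607)))))))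
noncomputable def l23113 : Lb := (@Lb.d (nat_lit 33) (nat_lit 521) (nat_lit 138) (@Lb.g g8 (@Lb.g g9 (@Lb.g g10 (@Lb.g g11 (@Lb.r r2729 (@Lb.r r2475 (@Lb.r r2468 (@Lb.r r2118 (@Lb.d (nat_lit 529) (nat_lit 38) (nat_lit 104) (@Lb.fm (nat_lit 9) t1084)))))))))))
noncomputable def l23114 : Lb := (@Lb.r r323 (@Lb.d (nat_lit 2) (nat_lit 288) (nat_lit 2) (@Lb.g g8 (@Lb.g g9 (@Lb.g g10 (@Lb.r r279 (@Lb.r r676 (@Lb.r r166 (@Lb.r r165 (@Lb.d (nat_lit 32) (nat_lit 6) (nat_lit 137) (@Lb.t (@Lb.fm (nat_lit 9) t2))))))))))))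
noncomputable def l23115 : Lb := (@Lb.d (nat_lit 400) (nat_lit 41) (nat_lit 282) (@Lb.r r610 (@Lb.r r617 (@Lb.r r424 (@Lb.g g11 (@Lb.g g6 (@Lb.d (nat_lit 32) (nat_lit 0) (nat_lit 129) (@Lb.fp (nat_lit 3) t835))))))))
noncomputable def l23116 : Lb := (@Lb.d (nat_lit 656) (nat_lit 256) (nat_lit 390) (@Lb.r r24 (@Lb.r r101 (@Lb.r r386 (@Lb.g g11 (@Lb.g g6 (@Lb.d (nat_lit 0) (nat_lit 0) (nat_lit 129) (@Lb.fm (nat_lit 3) t1929))))))))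
noncomputable def l23117 : Lb := (@Lb.d (nat_lit 8) (nat_lit 258) (nat_lit 130) (@Lb.g g9 (@Lb.g g10 (@Lb.g g11 (@Lb.r r1540 (@Lb.r r1671 (@Lb.r r338 (@Lb.r r1425 (@Lb.d (nat_lit 10) (nat_lit 1) (nat_lit 74) (@Lb.t (@Lb.fp (nat_lit 9) t4525)))))))))))
noncomputable def l23118 : Lb := (@Lb.d (nat_lit 6) (nat_lit 256) (nat_lit 130) (@Lb.g g4 (@Lb.g g10 (@Lb.g g11 (@Lb.r r2567 (@Lb.r r386 (@Lb.d (nat_lit 128) (nat_lit 6) (nat_lit 330) (@Lb.t (@Lb.fp (nat_lit 9) t1941)))))))))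
noncomputable def l23119 : Lb := (@Lb.d (nat_lit 134) (nat_lit 0) (nat_lit 130) (@Lb.g g8 (@Lb.g g9 (@Lb.g g10 (@Lb.g g11 (@Lb.r r419 (@Lb.r r1702 (@Lb.r r344 (@Lb.r r1429 (@Lb.r r1060 (@Lb.d (nat_lit 617) (nat_lit 166) (nat_lit 401) (@Lb.fp (nat_lit 9) t1039))))))))))))
noncomputable def l23120 : Lb := (@Lb.d (nat_lit 0) (nat_lit 517) (nat_lit 0) (@Lb.g g5 (@Lb.d (nat_lit 5) (nat_lit 1) (nat_lit 136) (@Lb.t (@Lb.fm (nat_lit 3) t285)))))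
noncomputable def l23121 : Lb := (@Lb.d (nat_lit 0) (nat_lit 264) (nat_lit 128) (@Lb.g g10 (@Lb.g g11 (@Lb.r r403 (@Lb.r r601 (@Lb.r r1382 (@Lb.r r24 (@Lb.d (nat_lit 290) (nat_lit 0) (nat_lit 278) (@Lb.fp (nat_lit 3) t1261)))))))))
noncomputable def l23122 : Lb := (@Lb.d (nat_lit 410) (nat_lit 322) (nat_lit 657) (@Lb.r r24 (@Lb.r r402 (@Lb.g g11 (@Lb.g g6 (@Lb.fp (nat_lit 3) t1962))))))
noncomputable def l23123 : Lb := (@Lb.d (nat_lit 410) (nat_lit 153) (nat_lit 650) (@Lb.r r24 (@Lb.r r2403 (@Lb.g g10 (@Lb.d (nat_lit 0) (nat_lit 8) (nat_lit 2) (@Lb.t (@Lb.fm (nat_lit 3) t4526)))))))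
noncomputable def l23124 : Lb := (@Lb.d (nat_lit 153) (nat_lit 550) (nat_lit 64) (@Lb.g g8 (@Lb.g g9 (@Lb.g g10 (@Lb.g g11 (@Lb.r r2731 (@Lb.r r612 (@Lb.r r1114 (@Lb.r r1193 (@Lb.r r20 (@Lb.d (nat_lit 281) (nat_lit 137) (nat_lit 649) (@Lb.fp (nat_lit 9) t1014))))))))))))
noncomputable def l23125 : Lb := (@Lb.d (nat_lit 2) (nat_lit 38) (nat_lit 64) (@Lb.g g8 (@Lb.g g9 (@Lb.g g10 (@Lb.g g11 (@Lb.r r1627 (@Lb.r r610 (@Lb.r r1065 (@Lb.r r1416 (@Lb.d (nat_lit 649) (nat_lit 26) (nat_lit 70) (@Lb.fm (nat_lit 9) t2419)))))))))))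
noncomputable def l23126 : Lb := (@Lb.d (nat_lit 9) (nat_lit 37) (nat_lit 64) (@Lb.g g8 (@Lb.g g9 (@Lb.g g10 (@Lb.g g11 (@Lb.r r1699 (@Lb.r r1192 (@Lb.r r1642 (@Lb.r r1633 (@Lb.d (nat_lit 594) (nat_lit 154) (nat_lit 358) (@Lb.fm (nat_lit 9) t509)))))))))))
noncomputable def l23127 : Lb := (@Lb.d (nat_lit 153) (nat_lit 294) (nat_lit 64) (@Lb.g g8 (@Lb.g g9 (@Lb.g g10 (@Lb.g g11 (@Lb.r r2731 (@Lb.r r612 (@Lb.r r1114 (@Lb.r r1193 (@Lb.r r20 (@Lb.d (nat_lit 282) (nat_lit 8) (nat_lit 649) (@Lb.fp (nat_lit 9) t4527))))))))))))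
noncomputable def l23128 : Lb := (@Lb.d (nat_lit 153) (nat_lit 513) (nat_lit 160) (@Lb.g g8 (@Lb.g g9 (@Lb.g g10 (@Lb.g g11 (@Lb.r r1411 (@Lb.r r1065 (@Lb.r r1060 (@Lb.d (nat_lit 264) (nat_lit 130) (nat_lit 297) (@Lb.fm (nat_lit 9) t1221))))))))))
noncomputable def l23129 : Lb := (@Lb.d (nat_lit 24) (nat_lit 516) (nat_lit 2) (@Lb.r r104 (@Lb.r r609 (@Lb.r r402 (@Lb.r r551 (@Lb.g g4 (@Lb.d (nat_lit 65) (nat_lit 0) (nat_lit 0) (@Lb.t (@Lb.fm (nat_lit 3) t39)))))))))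
noncomputable def l23130 : Lb := (@Lb.r r82 (@Lb.d (nat_lit 8) (nat_lit 513) (nat_lit 128) (@Lb.g g8 (@Lb.g g9 (@Lb.g g11 (@Lb.r r1571 (@Lb.r r1192 (@Lb.r r1642 (@Lb.r r1633 (@Lb.d (nat_lit 613) (nat_lit 152) (nat_lit 356) (@Lb.t (@Lb.fp (nat_lit 9) t509))))))))))))
noncomputable def l23131 : Lb := (@Lb.d (nat_lit 153) (nat_lit 38) (nat_lit 64) (@Lb.g g8 (@Lb.g g9 (@Lb.g g10 (@Lb.g g11 (@Lb.r r2731 (@Lb.r r612 (@Lb.r r1114 (@Lb.r r1193 (@Lb.r r20 (@Lb.d (nat_lit 276) (nat_lit 136) (nat_lit 649) (@Lb.fp (nat_lit 9) t1014))))))))))))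
noncomputable def l23132 : Lb := (@Lb.d (nat_lit 0) (nat_lit 292) (nat_lit 129) (@Lb.r r402 (@Lb.g g11 (@Lb.g g6 (@Lb.g g9 (@Lb.g g4 (@Lb.d (nat_lit 1) (nat_lit 0) (nat_lit 0) (@Lb.fm (nat_lit 9) t97))))))))
noncomputable def l23133 : Lb := (@Lb.r r21 (@Lb.d (nat_lit 0) (nat_lit 8) (nat_lit 73) (@Lb.g g8 (@Lb.g g10 (@Lb.g g11 (@Lb.r r411 (@Lb.r r408 (@Lb.r r101 (@Lb.r r602 (@Lb.d (nat_lit 104) (nat_lit 33) (nat_lit 2) (@Lb.t (@Lb.fm (nat_lit 9) t51))))))))))))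
noncomputable def l23134 : Lb := (@Lb.d (nat_lit 4) (nat_lit 517) (nat_lit 138) (@Lb.g g8 (@Lb.g g9 (@Lb.g g10 (@Lb.g g11 (@Lb.r r683 (@Lb.r r2666 (@Lb.r r25 (@Lb.d (nat_lit 2) (nat_lit 90) (nat_lit 537) (@Lb.fm (nat_lit 9) t2985))))))))))
noncomputable def l23135 : Lb := (@Lb.d (nat_lit 0) (nat_lit 2) (nat_lit 130) (@Lb.g g9 (@Lb.g g10 (@Lb.g g11 (@Lb.r r1383 (@Lb.r r1442 (@Lb.r r1380 (@Lb.r r1445 (@Lb.d (nat_lit 416) (nat_lit 17) (nat_lit 105) (@Lb.t (@Lb.fm (nat_lit 9) t2555)))))))))))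
noncomputable def l23136 : Lb := (@Lb.d (nat_lit 169) (nat_lit 537) (nat_lit 89) (@Lb.r r357 (@Lb.r r2459 (@Lb.r r410 (@Lb.g g7 (@Lb.g g5 (@Lb.g g8 (@Lb.d (nat_lit 2) (nat_lit 22) (nat_lit 64) (@Lb.t (@Lb.fm (nat_lit 9) t148))))))))))
noncomputable def l23137 : Lb := (@Lb.d (nat_lit 32) (nat_lit 0) (nat_lit 136) (@Lb.g g8 (@Lb.g g11 (@Lb.r r422 (@Lb.r r289 (@Lb.r r340 (@Lb.d (nat_lit 145) (nat_lit 152) (nat_lit 68) (@Lb.fm (nat_lit 3) t1115))))))))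
noncomputable def l23138 : Lb := (@Lb.d (nat_lit 425) (nat_lit 665) (nat_lit 361) (@Lb.r r2405 (@Lb.r r411 (@Lb.r r1434 (@Lb.g g7 (@Lb.g g5 (@Lb.g g8 (@Lb.d (nat_lit 0) (nat_lit 21) (nat_lit 64) (@Lb.t (@Lb.fm (nat_lit 9) t2198))))))))))
noncomputable def l23139 : Lb := (@Lb.d (nat_lit 0) (nat_lit 517) (nat_lit 128) (@Lb.g g8 (@Lb.g g9 (@Lb.g g10 (@Lb.g g11 (@Lb.r r419 (@Lb.r r1446 (@Lb.r r289 (@Lb.r r2120 (@Lb.d (nat_lit 105) (nat_lit 33) (nat_lit 290) (@Lb.fm (nat_lit 9) t4528)))))))))))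
noncomputable def l23140 : Lb := (@Lb.d (nat_lit 169) (nat_lit 25) (nat_lit 89) (@Lb.r r357 (@Lb.r r2459 (@Lb.r r410 (@Lb.g g7 (@Lb.g g5 (@Lb.g g8 (@Lb.d (nat_lit 9) (nat_lit 21) (nat_lit 64) (@Lb.t (@Lb.fm (nat_lit 9) t148))))))))))
noncomputable def l23141 : Lb := (@Lb.r r21 (@Lb.d (nat_lit 0) (nat_lit 520) (nat_lit 73) (@Lb.g g8 (@Lb.g g10 (@Lb.g g11 (@Lb.r r411 (@Lb.r r408 (@Lb.r r101 (@Lb.r r602 (@Lb.d (nat_lit 105) (nat_lit 33) (nat_lit 2) (@Lb.t (@Lb.fm (nat_lit 9) t51))))))))))))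
noncomputable def l23142 : Lb := (@Lb.d (nat_lit 10) (nat_lit 576) (nat_lit 517) (@Lb.r r68 (@Lb.r r289 (@Lb.r r106 (@Lb.r r584 (@Lb.g g11 (@Lb.t (@Lb.fp (nat_lit 3) t501))))))))
noncomputable def l23143 : Lb := (@Lb.d (nat_lit 0) (nat_lit 0) (nat_lit 129) (@Lb.g g10 (@Lb.g g11 (@Lb.r r2690 (@Lb.r r387 (@Lb.d (nat_lit 0) (nat_lit 0) (nat_lit 345) (@Lb.fp (nat_lit 3) t2)))))))
noncomputable def l23144 : Lb := (@Lb.r r323 (@Lb.d (nat_lit 130) (nat_lit 9) (nat_lit 2) (@Lb.g g8 (@Lb.g g9 (@Lb.g g10 (@Lb.r r1699 (@Lb.r r1194 (@Lb.r r2201 (@Lb.r r408 (@Lb.d (nat_lit 88) (nat_lit 26) (nat_lit 330) (@Lb.t (@Lb.fp (nat_lit 9) t125))))))))))))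
noncomputable def l23145 : Lb := (@Lb.d (nat_lit 0) (nat_lit 260) (nat_lit 1) (@Lb.g g6 (@Lb.r r1427 (@Lb.r r101 (@Lb.d (nat_lit 385) (nat_lit 146) (nat_lit 577) (@Lb.t (@Lb.fp (nat_lit 3) t983)))))))
noncomputable def l23146 : Lb := (@Lb.d (nat_lit 0) (nat_lit 512) (nat_lit 2) (@Lb.g g10 (@Lb.r r1347 (@Lb.r r578 (@Lb.r r24 (@Lb.r r101 (@Lb.d (nat_lit 0) (nat_lit 133) (nat_lit 402) (@Lb.t (@Lb.fp (nat_lit 3) t126)))))))))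
noncomputable def l23147 : Lb := (@Lb.d (nat_lit 10) (nat_lit 256) (nat_lit 0) (@Lb.g g4 (@Lb.g g10 (@Lb.r r2089 (@Lb.r r1064 (@Lb.d (nat_lit 552) (nat_lit 2) (nat_lit 34) (@Lb.fp (nat_lit 3) t127)))))))
noncomputable def l23148 : Lb := (@Lb.g g10 (@Lb.r r24 (@Lb.r r1045 (@Lb.r r36 (@Lb.d (nat_lit 292) (nat_lit 1) (nat_lit 34) (@Lb.t (@Lb.fm (nat_lit 3) t127)))))))
noncomputable def l23149 : Lb := (@Lb.d (nat_lit 4) (nat_lit 1) (nat_lit 0) (@Lb.g g5 (@Lb.g g10 (@Lb.g g7 (@Lb.r r402 (@Lb.d (nat_lit 1) (nat_lit 24) (nat_lit 66) (@Lb.t (@Lb.fp (nat_lit 9) t71))))))))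
noncomputable def l23150 : Lb := (@Lb.d (nat_lit 5) (nat_lit 144) (nat_lit 602) (@Lb.r r2657 (@Lb.r r2411 (@Lb.r r324 (@Lb.g g7 (@Lb.g g6 (@Lb.g g5 (@Lb.d (nat_lit 32) (nat_lit 1) (nat_lit 81) (@Lb.t (@Lb.fm (nat_lit 9) t2015))))))))))
noncomputable def l23151 : Lb := (@Lb.g g10 (@Lb.r r24 (@Lb.r r1045 (@Lb.r r36 (@Lb.d (nat_lit 290) (nat_lit 256) (nat_lit 34) (@Lb.t (@Lb.fm (nat_lit 3) t127)))))))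
noncomputable def l23152 : Lb := (@Lb.g g10 (@Lb.g g7 (@Lb.r r24 (@Lb.r r1045 (@Lb.r r36 (@Lb.d (nat_lit 290) (nat_lit 0) (nat_lit 34) (@Lb.fm (nat_lit 3) t127)))))))
noncomputable def l23153 : Lb := (@Lb.r r21 (@Lb.d (nat_lit 257) (nat_lit 8) (nat_lit 130) (@Lb.g g4 (@Lb.g g10 (@Lb.g g11 (@Lb.r r647 (@Lb.r r89 (@Lb.r r614 (@Lb.d (nat_lit 6) (nat_lit 25) (nat_lit 665) (@Lb.t (@Lb.fm (nat_lit 9) t61)))))))))))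
noncomputable def l23154 : Lb := (@Lb.r r1114 (@Lb.r r20 (@Lb.r r1049 (@Lb.d (nat_lit 584) (nat_lit 322) (nat_lit 512) (@Lb.fp (nat_lit 1) t282)))))
noncomputable def l23155 : Lb := (@Lb.d (nat_lit 512) (nat_lit 0) (nat_lit 16) (@Lb.r r101 (@Lb.g g6 (@Lb.t (@Lb.fp (nat_lit 3) t267)))))
noncomputable def l23156 : Lb := (@Lb.d (nat_lit 0) (nat_lit 258) (nat_lit 1) (@Lb.g g8 (@Lb.g g9 (@Lb.g g10 (@Lb.r r618 (@Lb.r r100 (@Lb.r r21 (@Lb.r r36 (@Lb.d (nat_lit 73) (nat_lit 162) (nat_lit 64) (@Lb.t (@Lb.fm (nat_lit 9) t240)))))))))))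
noncomputable def l23157 : Lb := (@Lb.d (nat_lit 2) (nat_lit 514) (nat_lit 130) (@Lb.g g8 (@Lb.g g9 (@Lb.g g10 (@Lb.g g11 (@Lb.r r2705 (@Lb.r r535 (@Lb.r r2440 (@Lb.r r2458 (@Lb.d (nat_lit 409) (nat_lit 85) (nat_lit 664) (@Lb.fm (nat_lit 9) t1231)))))))))))
noncomputable def l23158 : Lb := (@Lb.d (nat_lit 0) (nat_lit 2) (nat_lit 128) (@Lb.g g8 (@Lb.g g9 (@Lb.g g6 (@Lb.g g11 (@Lb.r r579 (@Lb.r r25 (@Lb.r r24 (@Lb.d (nat_lit 2) (nat_lit 0) (nat_lit 129) (@Lb.fm (nat_lit 9) t2))))))))))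
noncomputable def l23159 : Lb := (@Lb.d (nat_lit 36) (nat_lit 69) (nat_lit 352) (@Lb.r r2394 (@Lb.r r2376 (@Lb.r r1687 (@Lb.g g6 (@Lb.g g9 (@Lb.d (nat_lit 16) (nat_lit 41) (nat_lit 0) (@Lb.r r387 (@Lb.fp (nat_lit 3) t3934)))))))))
noncomputable def l23160 : Lb := (@Lb.r r82 (@Lb.d (nat_lit 41) (nat_lit 2) (nat_lit 128) (@Lb.g g8 (@Lb.g g9 (@Lb.g g11 (@Lb.r r291 (@Lb.r r390 (@Lb.r r677 (@Lb.r r600 (@Lb.d (nat_lit 40) (nat_lit 38) (nat_lit 74) (@Lb.t (@Lb.fp (nat_lit 9) t238))))))))))))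
noncomputable def l23161 : Lb := (@Lb.d (nat_lit 0) (nat_lit 258) (nat_lit 2) (@Lb.g g9 (@Lb.g g10 (@Lb.r r2723 (@Lb.r r1634 (@Lb.r r1572 (@Lb.r r1637 (@Lb.d (nat_lit 405) (nat_lit 105) (nat_lit 645) (@Lb.fm (nat_lit 3) t4529)))))))))
noncomputable def l23162 : Lb := (@Lb.r r82 (@Lb.d (nat_lit 34) (nat_lit 512) (nat_lit 128) (@Lb.g g8 (@Lb.g g9 (@Lb.g g11 (@Lb.r r291 (@Lb.r r390 (@Lb.r r677 (@Lb.r r600 (@Lb.d (nat_lit 40) (nat_lit 38) (nat_lit 74) (@Lb.t (@Lb.fp (nat_lit 9) t238))))))))))))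
noncomputable def l23163 : Lb := (@Lb.d (nat_lit 2) (nat_lit 2) (nat_lit 130) (@Lb.g g8 (@Lb.g g9 (@Lb.g g10 (@Lb.g g11 (@Lb.r r2691 (@Lb.r r2216 (@Lb.r r2666 (@Lb.r r97 (@Lb.d (nat_lit 328) (nat_lit 104) (nat_lit 642) (@Lb.fm (nat_lit 9) t668)))))))))))
noncomputable def l23164 : Lb := (@Lb.d (nat_lit 353) (nat_lit 256) (nat_lit 608) (@Lb.r r154 (@Lb.r r1172 (@Lb.r r663 (@Lb.r r2409 (@Lb.g g7 (@Lb.d (nat_lit 0) (nat_lit 16) (nat_lit 64) (@Lb.t (@Lb.fp (nat_lit 3) t284)))))))))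
noncomputable def l23165 : Lb := (@Lb.d (nat_lit 8) (nat_lit 2) (nat_lit 128) (@Lb.g g9 (@Lb.g g6 (@Lb.g g11 (@Lb.r r579 (@Lb.r r24 (@Lb.d (nat_lit 0) (nat_lit 2) (nat_lit 129) (@Lb.t (@Lb.fp (nat_lit 9) t2)))))))))
noncomputable def l23166 : Lb := (@Lb.d (nat_lit 298) (nat_lit 80) (nat_lit 25) (@Lb.r r1158 (@Lb.r r2132 (@Lb.r r281 (@Lb.r r1699 (@Lb.g g7 (@Lb.g g6 (@Lb.g g5 (@Lb.d (nat_lit 0) (nat_lit 1) (nat_lit 134) (@Lb.t (@Lb.fp (nat_lit 9) t1039)))))))))))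
noncomputable def l23167 : Lb := (@Lb.d (nat_lit 8) (nat_lit 2) (nat_lit 138) (@Lb.g g9 (@Lb.g g10 (@Lb.g g11 (@Lb.r r1126 (@Lb.d (nat_lit 266) (nat_lit 137) (nat_lit 2) (@Lb.t (@Lb.fm (nat_lit 9) t4530))))))))
noncomputable def l23168 : Lb := (@Lb.d (nat_lit 0) (nat_lit 36) (nat_lit 596) (@Lb.r r8 (@Lb.r r2659 (@Lb.r r593 (@Lb.g g7 (@Lb.g g10 (@Lb.d (nat_lit 0) (nat_lit 16) (nat_lit 81) (@Lb.fp (nat_lit 3) t1558))))))))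
noncomputable def l23169 : Lb := (@Lb.d (nat_lit 32) (nat_lit 514) (nat_lit 130) (@Lb.g g9 (@Lb.g g10 (@Lb.g g11 (@Lb.r r419 (@Lb.r r149 (@Lb.r r100 (@Lb.r r410 (@Lb.d (nat_lit 153) (nat_lit 21) (nat_lit 153) (@Lb.t (@Lb.fp (nat_lit 9) t221)))))))))))
noncomputable def l23170 : Lb := (@Lb.d (nat_lit 2) (nat_lit 261) (nat_lit 74) (@Lb.g g8 (@Lb.g g5 (@Lb.g g10 (@Lb.g g11 (@Lb.r r659 (@Lb.r r578 (@Lb.r r36 (@Lb.d (nat_lit 5) (nat_lit 154) (nat_lit 137) (@Lb.fp (nat_lit 9) t1436))))))))))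
noncomputable def l23171 : Lb := (@Lb.d (nat_lit 0) (nat_lit 32) (nat_lit 64) (@Lb.g g11 (@Lb.r r2337 (@Lb.r r531 (@Lb.r r2178 (@Lb.r r8 (@Lb.d (nat_lit 0) (nat_lit 97) (nat_lit 5) (@Lb.t (@Lb.fp (nat_lit 3) t271)))))))))
noncomputable def l23172 : Lb := (@Lb.d (nat_lit 2) (nat_lit 5) (nat_lit 74) (@Lb.g g8 (@Lb.g g5 (@Lb.g g10 (@Lb.g g11 (@Lb.r r659 (@Lb.r r578 (@Lb.r r36 (@Lb.d (nat_lit 10) (nat_lit 152) (nat_lit 137) (@Lb.fp (nat_lit 9) t1436))))))))))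
noncomputable def l23173 : Lb := (@Lb.g g5 (@Lb.d (nat_lit 290) (nat_lit 517) (nat_lit 32) (@Lb.t (@Lb.fm (nat_lit 3) t947))))
noncomputable def l23174 : Lb := (@Lb.d (nat_lit 401) (nat_lit 361) (nat_lit 665) (@Lb.r r1681 (@Lb.r r2450 (@Lb.g g7 (@Lb.g g5 (@Lb.d (nat_lit 64) (nat_lit 36) (nat_lit 512) (@Lb.r r578 (@Lb.fp (nat_lit 3) t4531))))))))
noncomputable def l23175 : Lb := (@Lb.d (nat_lit 134) (nat_lit 17) (nat_lit 17) (@Lb.g g8 (@Lb.g g9 (@Lb.g g10 (@Lb.g g11 (@Lb.r r1415 (@Lb.r r1561 (@Lb.r r1636 (@Lb.d (nat_lit 416) (nat_lit 22) (nat_lit 664) (@Lb.fp (nat_lit 9) t4532))))))))))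
noncomputable def l23176 : Lb := (@Lb.d (nat_lit 9) (nat_lit 32) (nat_lit 130) (@Lb.g g8 (@Lb.g g9 (@Lb.g g10 (@Lb.g g11 (@Lb.r r683 (@Lb.r r2406 (@Lb.r r1688 (@Lb.r r85 (@Lb.d (nat_lit 21) (nat_lit 32) (nat_lit 673) (@Lb.fp (nat_lit 9) t2214)))))))))))
noncomputable def l23177 : Lb := (@Lb.d (nat_lit 9) (nat_lit 544) (nat_lit 145) (@Lb.g g8 (@Lb.g g9 (@Lb.g g10 (@Lb.g g11 (@Lb.r r1415 (@Lb.r r1688 (@Lb.r r85 (@Lb.d (nat_lit 289) (nat_lit 41) (nat_lit 658) (@Lb.fm (nat_lit 9) t4532))))))))))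
noncomputable def l23178 : Lb := (@Lb.d (nat_lit 134) (nat_lit 17) (nat_lit 2) (@Lb.g g8 (@Lb.g g9 (@Lb.g g10 (@Lb.g g11 (@Lb.r r683 (@Lb.r r2406 (@Lb.r r1561 (@Lb.r r1636 (@Lb.d (nat_lit 417) (nat_lit 17) (nat_lit 665) (@Lb.fm (nat_lit 9) t2083)))))))))))
noncomputable def l23179 : Lb := (@Lb.r r21 (@Lb.d (nat_lit 2) (nat_lit 256) (nat_lit 73) (@Lb.g g8 (@Lb.g g10 (@Lb.g g11 (@Lb.r r395 (@Lb.r r578 (@Lb.r r1321 (@Lb.r r1288 (@Lb.d (nat_lit 98) (nat_lit 0) (nat_lit 400) (@Lb.t (@Lb.fm (nat_lit 9) t2902))))))))))))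
noncomputable def l23180 : Lb := (@Lb.d (nat_lit 1) (nat_lit 258) (nat_lit 73) (@Lb.g g8 (@Lb.g g9 (@Lb.g g10 (@Lb.g g11 (@Lb.r r1130 (@Lb.r r356 (@Lb.r r411 (@Lb.r r1045 (@Lb.r r2084 (@Lb.d (nat_lit 609) (nat_lit 170) (nat_lit 5) (@Lb.fp (nat_lit 9) t2259))))))))))))
noncomputable def l23181 : Lb := (@Lb.r r82 (@Lb.d (nat_lit 134) (nat_lit 256) (nat_lit 128) (@Lb.g g8 (@Lb.g g9 (@Lb.g g11 (@Lb.r r291 (@Lb.r r1124 (@Lb.r r1626 (@Lb.r r2341 (@Lb.d (nat_lit 342) (nat_lit 168) (nat_lit 74) (@Lb.t (@Lb.fp (nat_lit 9) t4533))))))))))))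
noncomputable def l23182 : Lb := (@Lb.d (nat_lit 609) (nat_lit 517) (nat_lit 681) (@Lb.r r2374 (@Lb.r r1684 (@Lb.r r297 (@Lb.r r2691 (@Lb.g g7 (@Lb.g g6 (@Lb.g g5 (@Lb.d (nat_lit 0) (nat_lit 6) (nat_lit 66) (@Lb.t (@Lb.fp (nat_lit 9) t4534)))))))))))
noncomputable def l23183 : Lb := (@Lb.r r21 (@Lb.d (nat_lit 2) (nat_lit 0) (nat_lit 73) (@Lb.g g8 (@Lb.g g10 (@Lb.g g11 (@Lb.r r1611 (@Lb.r r578 (@Lb.r r1448 (@Lb.r r25 (@Lb.d (nat_lit 0) (nat_lit 74) (nat_lit 70) (@Lb.t (@Lb.fm (nat_lit 9) t91))))))))))))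
noncomputable def l23184 : Lb := (@Lb.r r82 (@Lb.d (nat_lit 129) (nat_lit 258) (nat_lit 128) (@Lb.g g8 (@Lb.g g9 (@Lb.g g11 (@Lb.r r291 (@Lb.r r1124 (@Lb.r r1626 (@Lb.r r2341 (@Lb.d (nat_lit 340) (nat_lit 168) (nat_lit 74) (@Lb.t (@Lb.fp (nat_lit 9) t4535))))))))))))
noncomputable def l23185 : Lb := (@Lb.d (nat_lit 26) (nat_lit 0) (nat_lit 2) (@Lb.g g8 (@Lb.g g10 (@Lb.r r341 (@Lb.r r1642 (@Lb.r r2660 (@Lb.d (nat_lit 528) (nat_lit 144) (nat_lit 424) (@Lb.fm (nat_lit 3) t4536))))))))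
noncomputable def l23186 : Lb := (@Lb.d (nat_lit 129) (nat_lit 2) (nat_lit 130) (@Lb.g g8 (@Lb.g g9 (@Lb.g g10 (@Lb.g g11 (@Lb.r r2666 (@Lb.r r612 (@Lb.r r1319 (@Lb.r r405 (@Lb.r r2084 (@Lb.d (nat_lit 616) (nat_lit 130) (nat_lit 101) (@Lb.fp (nat_lit 9) t4537))))))))))))
noncomputable def l23187 : Lb := (@Lb.r r81 (@Lb.d (nat_lit 129) (nat_lit 0) (nat_lit 98) (@Lb.g g8 (@Lb.g g10 (@Lb.g g11 (@Lb.r r1419 (@Lb.r r2212 (@Lb.r r37 (@Lb.d (nat_lit 2) (nat_lit 84) (nat_lit 133) (@Lb.t (@Lb.fp (nat_lit 9) t2564)))))))))))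
noncomputable def l23188 : Lb := (@Lb.r r21 (@Lb.r r323 (@Lb.d (nat_lit 10) (nat_lit 0) (nat_lit 2) (@Lb.g g8 (@Lb.g g10 (@Lb.r r407 (@Lb.r r2138 (@Lb.r r145 (@Lb.d (nat_lit 392) (nat_lit 80) (nat_lit 666) (@Lb.fm (nat_lit 3) t4538))))))))))
noncomputable def l23189 : Lb := (@Lb.r r82 (@Lb.d (nat_lit 161) (nat_lit 2) (nat_lit 256) (@Lb.g g8 (@Lb.g g9 (@Lb.g g7 (@Lb.r r598 (@Lb.r r2729 (@Lb.r r2600 (@Lb.d (nat_lit 352) (nat_lit 86) (nat_lit 658) (@Lb.t (@Lb.fp (nat_lit 9) t4539)))))))))))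
noncomputable def l23190 : Lb := (@Lb.r r21 (@Lb.d (nat_lit 385) (nat_lit 264) (nat_lit 130) (@Lb.g g8 (@Lb.g g10 (@Lb.g g11 (@Lb.r r1419 (@Lb.r r101 (@Lb.r r410 (@Lb.d (nat_lit 8) (nat_lit 149) (nat_lit 649) (@Lb.t (@Lb.fm (nat_lit 9) t2443)))))))))))
noncomputable def l23191 : Lb := (@Lb.d (nat_lit 0) (nat_lit 514) (nat_lit 130) (@Lb.g g8 (@Lb.g g9 (@Lb.g g10 (@Lb.g g11 (@Lb.r r427 (@Lb.r r420 (@Lb.r r102 (@Lb.r r97 (@Lb.r r36 (@Lb.d (nat_lit 2) (nat_lit 9) (nat_lit 137) (@Lb.fm (nat_lit 9) t51))))))))))))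
noncomputable def l23192 : Lb := (@Lb.d (nat_lit 2) (nat_lit 514) (nat_lit 130) (@Lb.g g8 (@Lb.g g9 (@Lb.g g10 (@Lb.g g11 (@Lb.r r427 (@Lb.r r420 (@Lb.r r102 (@Lb.r r97 (@Lb.r r36 (@Lb.d (nat_lit 0) (nat_lit 9) (nat_lit 137) (@Lb.fm (nat_lit 9) t51))))))))))))
noncomputable def l23193 : Lb := (@Lb.d (nat_lit 9) (nat_lit 597) (nat_lit 594) (@Lb.r r2182 (@Lb.r r2323 (@Lb.r r661 (@Lb.g g7 (@Lb.g g8 (@Lb.d (nat_lit 352) (nat_lit 16) (nat_lit 128) (@Lb.r r74 (@Lb.r r25 (@Lb.fm (nat_lit 3) t1039))))))))))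
noncomputable def l23194 : Lb := (@Lb.r r323 (@Lb.d (nat_lit 33) (nat_lit 516) (nat_lit 24) (@Lb.g g8 (@Lb.g g9 (@Lb.g g10 (@Lb.r r1619 (@Lb.r r153 (@Lb.r r1560 (@Lb.d (nat_lit 648) (nat_lit 105) (nat_lit 385) (@Lb.t (@Lb.fm (nat_lit 9) t98)))))))))))
noncomputable def l23195 : Lb := (@Lb.d (nat_lit 4) (nat_lit 516) (nat_lit 128) (@Lb.g g9 (@Lb.g g10 (@Lb.g g11 (@Lb.r r423 (@Lb.r r596 (@Lb.r r666 (@Lb.r r337 (@Lb.d (nat_lit 9) (nat_lit 33) (nat_lit 5) (@Lb.t (@Lb.fp (nat_lit 9) t98)))))))))))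
noncomputable def l23196 : Lb := (@Lb.d (nat_lit 544) (nat_lit 261) (nat_lit 33) (@Lb.r r21 (@Lb.r r70 (@Lb.r r263 (@Lb.g g4 (@Lb.r r267 (@Lb.r r74 (@Lb.r r25 (@Lb.t (@Lb.fm (nat_lit 3) t1556))))))))))
noncomputable def l23197 : Lb := (@Lb.d (nat_lit 1) (nat_lit 512) (nat_lit 0) (@Lb.g g4 (@Lb.g g9 (@Lb.r r101 (@Lb.r r402 (@Lb.d (nat_lit 97) (nat_lit 164) (nat_lit 325) (@Lb.fp (nat_lit 3) t652)))))))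
noncomputable def l23198 : Lb := (@Lb.d (nat_lit 0) (nat_lit 4) (nat_lit 1) (@Lb.g g6 (@Lb.d (nat_lit 0) (nat_lit 8) (nat_lit 2) (@Lb.t (@Lb.fm (nat_lit 3) t44)))))
noncomputable def l23199 : Lb := (@Lb.d (nat_lit 2) (nat_lit 9) (nat_lit 129) (@Lb.g g8 (@Lb.g g9 (@Lb.g g10 (@Lb.g g11 (@Lb.r r427 (@Lb.r r356 (@Lb.r r154 (@Lb.r r169 (@Lb.r r132 (@Lb.d (nat_lit 8) (nat_lit 73) (nat_lit 153) (@Lb.fp (nat_lit 9) t3787))))))))))))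
noncomputable def l23200 : Lb := (@Lb.d (nat_lit 145) (nat_lit 2) (nat_lit 128) (@Lb.g g8 (@Lb.g g9 (@Lb.g g10 (@Lb.g g11 (@Lb.r r683 (@Lb.r r2410 (@Lb.r r548 (@Lb.r r37 (@Lb.d (nat_lit 361) (nat_lit 33) (nat_lit 21) (@Lb.fp (nat_lit 9) t283)))))))))))
noncomputable def l23201 : Lb := (@Lb.r r20 (@Lb.d (nat_lit 4) (nat_lit 356) (nat_lit 128) (@Lb.g g5 (@Lb.g g10 (@Lb.g g11 (@Lb.r r658 (@Lb.r r1560 (@Lb.r r1435 (@Lb.d (nat_lit 345) (nat_lit 162) (nat_lit 278) (@Lb.t (@Lb.fp (nat_lit 9) t1506)))))))))))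
noncomputable def l23202 : Lb := (@Lb.d (nat_lit 145) (nat_lit 258) (nat_lit 74) (@Lb.g g8 (@Lb.g g9 (@Lb.g g10 (@Lb.g g11 (@Lb.r r599 (@Lb.r r677 (@Lb.r r340 (@Lb.r r2650 (@Lb.d (nat_lit 361) (nat_lit 161) (nat_lit 612) (@Lb.fp (nat_lit 9) t4039)))))))))))
noncomputable def l23203 : Lb := (@Lb.d (nat_lit 1) (nat_lit 2) (nat_lit 5) (@Lb.g g8 (@Lb.g g9 (@Lb.g g10 (@Lb.g g11 (@Lb.r r599 (@Lb.r r677 (@Lb.r r340 (@Lb.r r170 (@Lb.d (nat_lit 21) (nat_lit 6) (nat_lit 153) (@Lb.fm (nat_lit 9) t221)))))))))))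
noncomputable def l23204 : Lb := (@Lb.d (nat_lit 2) (nat_lit 514) (nat_lit 5) (@Lb.g g8 (@Lb.g g9 (@Lb.g g10 (@Lb.g g11 (@Lb.r r2651 (@Lb.r r2722 (@Lb.r r25 (@Lb.d (nat_lit 420) (nat_lit 85) (nat_lit 406) (@Lb.fp (nat_lit 9) t899))))))))))
noncomputable def l23205 : Lb := (@Lb.d (nat_lit 2) (nat_lit 514) (nat_lit 5) (@Lb.g g8 (@Lb.g g9 (@Lb.g g10 (@Lb.g g11 (@Lb.r r599 (@Lb.r r677 (@Lb.r r340 (@Lb.r r602 (@Lb.d (nat_lit 105) (nat_lit 161) (nat_lit 169) (@Lb.fp (nat_lit 9) t232)))))))))))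
noncomputable def l23206 : Lb := (@Lb.r r21 (@Lb.d (nat_lit 136) (nat_lit 520) (nat_lit 130) (@Lb.g g8 (@Lb.g g10 (@Lb.g g11 (@Lb.r r1415 (@Lb.r r1573 (@Lb.r r600 (@Lb.r r2662 (@Lb.d (nat_lit 405) (nat_lit 10) (nat_lit 17) (@Lb.t (@Lb.fm (nat_lit 9) t739))))))))))))
noncomputable def l23207 : Lb := (@Lb.g g4 (@Lb.g g11 (@Lb.r r2631 (@Lb.d (nat_lit 256) (nat_lit 0) (nat_lit 129) (@Lb.fm (nat_lit 3) t1168)))))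
noncomputable def l23208 : Lb := (@Lb.r r275 (@Lb.d (nat_lit 2) (nat_lit 256) (nat_lit 2) (@Lb.g g8 (@Lb.g g9 (@Lb.g g10 (@Lb.r r683 (@Lb.r r1186 (@Lb.r r596 (@Lb.r r1177 (@Lb.d (nat_lit 260) (nat_lit 96) (nat_lit 640) (@Lb.t (@Lb.fm (nat_lit 9) t4540))))))))))))
noncomputable def l23209 : Lb := (@Lb.d (nat_lit 2) (nat_lit 258) (nat_lit 128) (@Lb.g g8 (@Lb.g g9 (@Lb.g g10 (@Lb.g g11 (@Lb.r r100 (@Lb.r r149 (@Lb.r r2454 (@Lb.r r2667 (@Lb.r r1572 (@Lb.d (nat_lit 33) (nat_lit 98) (nat_lit 65) (@Lb.fp (nat_lit 9) t4541))))))))))))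
noncomputable def l23210 : Lb := (@Lb.d (nat_lit 402) (nat_lit 401) (nat_lit 673) (@Lb.r r2635 (@Lb.r r1640 (@Lb.r r1641 (@Lb.r r2450 (@Lb.g g7 (@Lb.g g5 (@Lb.g g4 (@Lb.d (nat_lit 1) (nat_lit 1) (nat_lit 68) (@Lb.t (@Lb.fp (nat_lit 9) t4542)))))))))))
noncomputable def l23211 : Lb := (@Lb.d (nat_lit 402) (nat_lit 401) (nat_lit 353) (@Lb.r r2635 (@Lb.r r1640 (@Lb.r r1641 (@Lb.r r2450 (@Lb.g g7 (@Lb.g g5 (@Lb.g g4 (@Lb.d (nat_lit 1) (nat_lit 1) (nat_lit 0) (@Lb.t (@Lb.fp (nat_lit 9) t4542)))))))))))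
noncomputable def l23212 : Lb := (@Lb.d (nat_lit 2) (nat_lit 2) (nat_lit 2) (@Lb.g g8 (@Lb.g g9 (@Lb.g g10 (@Lb.g g11 (@Lb.r r2666 (@Lb.r r2664 (@Lb.r r2585 (@Lb.r r2651 (@Lb.d (nat_lit 360) (nat_lit 73) (nat_lit 134) (@Lb.fp (nat_lit 9) t2459)))))))))))
noncomputable def l23213 : Lb := (@Lb.d (nat_lit 682) (nat_lit 168) (nat_lit 617) (@Lb.r r2713 (@Lb.r r2459 (@Lb.r r2392 (@Lb.r r1702 (@Lb.g g7 (@Lb.g g6 (@Lb.g g5 (@Lb.d (nat_lit 4) (nat_lit 17) (nat_lit 129) (@Lb.t (@Lb.fp (nat_lit 9) t51)))))))))))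
noncomputable def l23214 : Lb := (@Lb.r r323 (@Lb.d (nat_lit 32) (nat_lit 649) (nat_lit 9) (@Lb.g g5 (@Lb.g g10 (@Lb.r r2667 (@Lb.r r2664 (@Lb.r r1350 (@Lb.d (nat_lit 338) (nat_lit 145) (nat_lit 662) (@Lb.fp (nat_lit 3) t1642)))))))))
noncomputable def l23215 : Lb := (@Lb.d (nat_lit 681) (nat_lit 424) (nat_lit 617) (@Lb.r r2713 (@Lb.r r2459 (@Lb.r r2392 (@Lb.r r1702 (@Lb.g g7 (@Lb.g g6 (@Lb.g g5 (@Lb.d (nat_lit 4) (nat_lit 17) (nat_lit 129) (@Lb.t (@Lb.fp (nat_lit 9) t51)))))))))))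
noncomputable def l23216 : Lb := (@Lb.d (nat_lit 16) (nat_lit 258) (nat_lit 128) (@Lb.g g8 (@Lb.g g9 (@Lb.g g10 (@Lb.g g11 (@Lb.r r2579 (@Lb.r r1449 (@Lb.r r1448 (@Lb.r r394 (@Lb.d (nat_lit 82) (nat_lit 138) (nat_lit 329) (@Lb.fp (nat_lit 9) t4329)))))))))))
noncomputable def l23217 : Lb := (@Lb.d (nat_lit 16) (nat_lit 258) (nat_lit 64) (@Lb.g g8 (@Lb.g g9 (@Lb.g g10 (@Lb.g g7 (@Lb.r r2434 (@Lb.r r100 (@Lb.r r2069 (@Lb.r r1060 (@Lb.d (nat_lit 513) (nat_lit 138) (nat_lit 537) (@Lb.fp (nat_lit 9) t267)))))))))))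
noncomputable def l23218 : Lb := (@Lb.d (nat_lit 2) (nat_lit 294) (nat_lit 133) (@Lb.g g8 (@Lb.g g9 (@Lb.g g10 (@Lb.g g11 (@Lb.r r1706 (@Lb.r r676 (@Lb.r r551 (@Lb.r r533 (@Lb.r r1060 (@Lb.d (nat_lit 393) (nat_lit 1) (nat_lit 586) (@Lb.fp (nat_lit 9) t264))))))))))))
noncomputable def l23219 : Lb := (@Lb.d (nat_lit 385) (nat_lit 149) (nat_lit 169) (@Lb.r r2341 (@Lb.r r1620 (@Lb.r r2474 (@Lb.g g11 (@Lb.g g6 (@Lb.g g4 (@Lb.d (nat_lit 2) (nat_lit 0) (nat_lit 129) (@Lb.t (@Lb.fm (nat_lit 9) t1116))))))))))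
noncomputable def l23220 : Lb := (@Lb.d (nat_lit 384) (nat_lit 405) (nat_lit 169) (@Lb.r r2341 (@Lb.r r1620 (@Lb.r r2474 (@Lb.g g11 (@Lb.g g6 (@Lb.g g4 (@Lb.d (nat_lit 2) (nat_lit 0) (nat_lit 129) (@Lb.t (@Lb.fm (nat_lit 9) t1116))))))))))
noncomputable def l23221 : Lb := (@Lb.d (nat_lit 402) (nat_lit 512) (nat_lit 1) (@Lb.r r277 (@Lb.r r2635 (@Lb.r r2628 (@Lb.r r1354 (@Lb.g g7 (@Lb.g g6 (@Lb.d (nat_lit 64) (nat_lit 0) (nat_lit 65) (@Lb.fp (nat_lit 3) t3111)))))))))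
noncomputable def l23222 : Lb := (@Lb.d (nat_lit 26) (nat_lit 274) (nat_lit 586) (@Lb.g g8 (@Lb.g g9 (@Lb.g g10 (@Lb.g g7 (@Lb.r r425 (@Lb.r r1188 (@Lb.r r2182 (@Lb.d (nat_lit 296) (nat_lit 73) (nat_lit 81) (@Lb.fm (nat_lit 9) t4543))))))))))
noncomputable def l23223 : Lb := (@Lb.d (nat_lit 137) (nat_lit 257) (nat_lit 0) (@Lb.g g8 (@Lb.g g9 (@Lb.r r343 (@Lb.r r162 (@Lb.r r145 (@Lb.r r612 (@Lb.d (nat_lit 149) (nat_lit 18) (nat_lit 136) (@Lb.fp (nat_lit 3) t51)))))))))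
noncomputable def l23224 : Lb := (@Lb.d (nat_lit 146) (nat_lit 81) (nat_lit 529) (@Lb.r r81 (@Lb.r r2374 (@Lb.r r683 (@Lb.g g6 (@Lb.g g5 (@Lb.g g4 (@Lb.d (nat_lit 1) (nat_lit 8) (nat_lit 0) (@Lb.t (@Lb.fm (nat_lit 9) t4544))))))))))
noncomputable def l23225 : Lb := (@Lb.d (nat_lit 8) (nat_lit 258) (nat_lit 66) (@Lb.g g9 (@Lb.g g10 (@Lb.g g7 (@Lb.r r386 (@Lb.r r24 (@Lb.d (nat_lit 617) (nat_lit 132) (nat_lit 602) (@Lb.t (@Lb.fp (nat_lit 9) t4165)))))))))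
noncomputable def l23226 : Lb := (@Lb.d (nat_lit 9) (nat_lit 513) (nat_lit 2) (@Lb.g g8 (@Lb.g g9 (@Lb.g g10 (@Lb.g g7 (@Lb.r r386 (@Lb.r r1641 (@Lb.r r1608 (@Lb.d (nat_lit 408) (nat_lit 130) (nat_lit 660) (@Lb.fp (nat_lit 9) t2877))))))))))
noncomputable def l23227 : Lb := (@Lb.d (nat_lit 128) (nat_lit 512) (nat_lit 384) (@Lb.g g11 (@Lb.r r1606 (@Lb.r r1557 (@Lb.r r1316 (@Lb.d (nat_lit 5) (nat_lit 129) (nat_lit 128) (@Lb.t (@Lb.fp (nat_lit 3) t2102))))))))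
noncomputable def l23228 : Lb := (@Lb.d (nat_lit 2) (nat_lit 10) (nat_lit 73) (@Lb.g g8 (@Lb.g g9 (@Lb.g g10 (@Lb.g g11 (@Lb.r r1707 (@Lb.r r1685 (@Lb.r r1178 (@Lb.d (nat_lit 326) (nat_lit 73) (nat_lit 681) (@Lb.fp (nat_lit 9) t3917))))))))))
noncomputable def l23229 : Lb := (@Lb.d (nat_lit 2) (nat_lit 521) (nat_lit 97) (@Lb.g g8 (@Lb.g g9 (@Lb.g g6 (@Lb.g g11 (@Lb.r r601 (@Lb.r r2323 (@Lb.r r2577 (@Lb.d (nat_lit 614) (nat_lit 130) (nat_lit 280) (@Lb.fm (nat_lit 9) t3547))))))))))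
noncomputable def l23230 : Lb := (@Lb.d (nat_lit 2) (nat_lit 9) (nat_lit 73) (@Lb.g g8 (@Lb.g g9 (@Lb.g g10 (@Lb.g g11 (@Lb.r r1699 (@Lb.r r1689 (@Lb.r r1178 (@Lb.d (nat_lit 276) (nat_lit 73) (nat_lit 681) (@Lb.fp (nat_lit 9) t3917))))))))))
noncomputable def l23231 : Lb := (@Lb.d (nat_lit 2) (nat_lit 410) (nat_lit 352) (@Lb.r r2308 (@Lb.r r2178 (@Lb.r r1291 (@Lb.r r292 (@Lb.g g7 (@Lb.g g9 (@Lb.g g4 (@Lb.d (nat_lit 1) (nat_lit 70) (nat_lit 64) (@Lb.t (@Lb.fp (nat_lit 9) t4324)))))))))))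
noncomputable def l23232 : Lb := (@Lb.d (nat_lit 0) (nat_lit 9) (nat_lit 129) (@Lb.g g8 (@Lb.g g9 (@Lb.g g10 (@Lb.g g11 (@Lb.r r516 (@Lb.r r263 (@Lb.r r2713 (@Lb.r r146 (@Lb.r r516 (@Lb.d (nat_lit 38) (nat_lit 10) (nat_lit 161) (@Lb.fm (nat_lit 9) t160))))))))))))
noncomputable def l23233 : Lb := (@Lb.r r331 (@Lb.d (nat_lit 678) (nat_lit 0) (nat_lit 2) (@Lb.g g8 (@Lb.g g9 (@Lb.g g10 (@Lb.r r362 (@Lb.r r391 (@Lb.r r25 (@Lb.d (nat_lit 422) (nat_lit 38) (nat_lit 136) (@Lb.t (@Lb.fm (nat_lit 9) t2501)))))))))))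
noncomputable def l23234 : Lb := (@Lb.r r331 (@Lb.d (nat_lit 32) (nat_lit 514) (nat_lit 2) (@Lb.g g8 (@Lb.g g9 (@Lb.g g10 (@Lb.r r2459 (@Lb.r r1177 (@Lb.r r1626 (@Lb.r r532 (@Lb.d (nat_lit 420) (nat_lit 169) (nat_lit 72) (@Lb.t (@Lb.fm (nat_lit 9) t1152))))))))))))
noncomputable def l23235 : Lb := (@Lb.d (nat_lit 5) (nat_lit 522) (nat_lit 72) (@Lb.g g8 (@Lb.g g9 (@Lb.g g10 (@Lb.g g11 (@Lb.r r1699 (@Lb.r r2216 (@Lb.r r1689 (@Lb.r r598 (@Lb.d (nat_lit 297) (nat_lit 148) (nat_lit 664) (@Lb.fp (nat_lit 9) t2774)))))))))))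
noncomputable def l23236 : Lb := (@Lb.r r331 (@Lb.d (nat_lit 38) (nat_lit 512) (nat_lit 2) (@Lb.g g8 (@Lb.g g9 (@Lb.g g10 (@Lb.r r2459 (@Lb.r r1177 (@Lb.r r1626 (@Lb.r r532 (@Lb.d (nat_lit 421) (nat_lit 169) (nat_lit 72) (@Lb.t (@Lb.fm (nat_lit 9) t1368))))))))))))
noncomputable def l23237 : Lb := (@Lb.d (nat_lit 518) (nat_lit 102) (nat_lit 548) (@Lb.r r24 (@Lb.r r1633 (@Lb.r r1643 (@Lb.g g7 (@Lb.g g10 (@Lb.g g5 (@Lb.g g4 (@Lb.d (nat_lit 8) (nat_lit 2) (nat_lit 81) (@Lb.fp (nat_lit 9) t820))))))))))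
noncomputable def l23238 : Lb := (@Lb.d (nat_lit 2) (nat_lit 258) (nat_lit 137) (@Lb.g g8 (@Lb.g g9 (@Lb.g g10 (@Lb.g g11 (@Lb.r r683 (@Lb.r r2666 (@Lb.r r2585 (@Lb.d (nat_lit 329) (nat_lit 169) (nat_lit 161) (@Lb.fm (nat_lit 9) t324))))))))))
noncomputable def l23239 : Lb := (@Lb.d (nat_lit 534) (nat_lit 9) (nat_lit 5) (@Lb.r r358 (@Lb.r r148 (@Lb.r r2393 (@Lb.g g7 (@Lb.g g6 (@Lb.g g5 (@Lb.d (nat_lit 16) (nat_lit 0) (nat_lit 129) (@Lb.t (@Lb.fp (nat_lit 9) t98))))))))))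
noncomputable def l23240 : Lb := (@Lb.d (nat_lit 128) (nat_lit 256) (nat_lit 384) (@Lb.g g11 (@Lb.r r1606 (@Lb.r r1557 (@Lb.r r1316 (@Lb.d (nat_lit 10) (nat_lit 130) (nat_lit 128) (@Lb.t (@Lb.fp (nat_lit 3) t2102))))))))
noncomputable def l23241 : Lb := (@Lb.d (nat_lit 2) (nat_lit 0) (nat_lit 136) (@Lb.g g8 (@Lb.g g10 (@Lb.g g11 (@Lb.r r2375 (@Lb.r r1690 (@Lb.r r2145 (@Lb.r r24 (@Lb.d (nat_lit 640) (nat_lit 18) (nat_lit 645) (@Lb.t (@Lb.fp (nat_lit 9) t4545)))))))))))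
noncomputable def l23242 : Lb := (@Lb.d (nat_lit 2) (nat_lit 548) (nat_lit 4) (@Lb.g g8 (@Lb.g g9 (@Lb.g g10 (@Lb.g g11 (@Lb.r r1412 (@Lb.r r1323 (@Lb.r r1385 (@Lb.r r2138 (@Lb.d (nat_lit 328) (nat_lit 65) (nat_lit 281) (@Lb.fm (nat_lit 9) t4546)))))))))))
noncomputable def l23243 : Lb := (@Lb.r r21 (@Lb.r r322 (@Lb.d (nat_lit 420) (nat_lit 512) (nat_lit 640) (@Lb.g g4 (@Lb.g g11 (@Lb.r r593 (@Lb.r r98 (@Lb.d (nat_lit 609) (nat_lit 96) (nat_lit 594) (@Lb.fp (nat_lit 3) t699)))))))))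
noncomputable def l23244 : Lb := (@Lb.d (nat_lit 544) (nat_lit 644) (nat_lit 129) (@Lb.r r597 (@Lb.r r296 (@Lb.r r354 (@Lb.g g11 (@Lb.d (nat_lit 0) (nat_lit 32) (nat_lit 388) (@Lb.r r578 (@Lb.r r529 (@Lb.t (@Lb.fm (nat_lit 3) t4547))))))))))
noncomputable def l23245 : Lb := (@Lb.r r322 (@Lb.d (nat_lit 128) (nat_lit 0) (nat_lit 640) (@Lb.g g11 (@Lb.r r597 (@Lb.r r98 (@Lb.r r2436 (@Lb.d (nat_lit 34) (nat_lit 10) (nat_lit 145) (@Lb.t (@Lb.fp (nat_lit 3) t221)))))))))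
noncomputable def l23246 : Lb := (@Lb.r r21 (@Lb.d (nat_lit 257) (nat_lit 32) (nat_lit 128) (@Lb.g g4 (@Lb.g g11 (@Lb.r r2642 (@Lb.r r401 (@Lb.r r675 (@Lb.d (nat_lit 609) (nat_lit 144) (nat_lit 677) (@Lb.fm (nat_lit 3) t386)))))))))
noncomputable def l23247 : Lb := (@Lb.r r21 (@Lb.r r323 (@Lb.d (nat_lit 128) (nat_lit 4) (nat_lit 2) (@Lb.g g8 (@Lb.g g10 (@Lb.r r599 (@Lb.r r145 (@Lb.r r276 (@Lb.d (nat_lit 72) (nat_lit 97) (nat_lit 258) (@Lb.fp (nat_lit 3) t51))))))))))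
noncomputable def l23248 : Lb := (@Lb.r r359 (@Lb.d (nat_lit 0) (nat_lit 258) (nat_lit 2) (@Lb.g g8 (@Lb.g g9 (@Lb.g g10 (@Lb.r r1700 (@Lb.r r1543 (@Lb.r r2146 (@Lb.d (nat_lit 0) (nat_lit 73) (nat_lit 2) (@Lb.t (@Lb.fp (nat_lit 9) t4548)))))))))))
noncomputable def l23249 : Lb := (@Lb.r r21 (@Lb.r r323 (@Lb.d (nat_lit 128) (nat_lit 260) (nat_lit 2) (@Lb.g g8 (@Lb.g g10 (@Lb.r r599 (@Lb.r r145 (@Lb.r r276 (@Lb.d (nat_lit 70) (nat_lit 96) (nat_lit 258) (@Lb.fp (nat_lit 3) t51))))))))))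
noncomputable def l23250 : Lb := (@Lb.d (nat_lit 2) (nat_lit 514) (nat_lit 130) (@Lb.g g8 (@Lb.g g9 (@Lb.g g10 (@Lb.g g11 (@Lb.r r2691 (@Lb.r r2216 (@Lb.r r2666 (@Lb.r r97 (@Lb.d (nat_lit 328) (nat_lit 132) (nat_lit 392) (@Lb.fm (nat_lit 9) t668)))))))))))
noncomputable def l23251 : Lb := (@Lb.d (nat_lit 37) (nat_lit 0) (nat_lit 129) (@Lb.g g8 (@Lb.g g9 (@Lb.g g10 (@Lb.g g11 (@Lb.r r427 (@Lb.r r420 (@Lb.r r1126 (@Lb.r r97 (@Lb.r r36 (@Lb.d (nat_lit 258) (nat_lit 2) (nat_lit 666) (@Lb.fm (nat_lit 9) t898))))))))))))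
noncomputable def l23252 : Lb := (@Lb.d (nat_lit 0) (nat_lit 529) (nat_lit 1) (@Lb.g g9 (@Lb.g g10 (@Lb.g g11 (@Lb.r r2723 (@Lb.r r2642 (@Lb.r r2465 (@Lb.d (nat_lit 0) (nat_lit 133) (nat_lit 26) (@Lb.t (@Lb.fm (nat_lit 9) t941))))))))))
noncomputable def l23253 : Lb := (@Lb.d (nat_lit 0) (nat_lit 33) (nat_lit 1) (@Lb.g g9 (@Lb.g g10 (@Lb.r r659 (@Lb.r r1682 (@Lb.r r353 (@Lb.d (nat_lit 5) (nat_lit 88) (nat_lit 326) (@Lb.fp (nat_lit 3) t2563))))))))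
noncomputable def l23254 : Lb := (@Lb.r r323 (@Lb.d (nat_lit 2) (nat_lit 514) (nat_lit 1) (@Lb.g g8 (@Lb.g g9 (@Lb.g g6 (@Lb.r r579 (@Lb.r r100 (@Lb.r r21 (@Lb.r r36 (@Lb.d (nat_lit 513) (nat_lit 10) (nat_lit 161) (@Lb.t (@Lb.fm (nat_lit 9) t126))))))))))))
noncomputable def l23255 : Lb := (@Lb.d (nat_lit 0) (nat_lit 516) (nat_lit 129) (@Lb.g g6 (@Lb.g g11 (@Lb.r r2659 (@Lb.r r24 (@Lb.d (nat_lit 5) (nat_lit 104) (nat_lit 680) (@Lb.fp (nat_lit 3) t71)))))))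
noncomputable def l23256 : Lb := (@Lb.r r322 (@Lb.d (nat_lit 34) (nat_lit 258) (nat_lit 576) (@Lb.g g8 (@Lb.g g9 (@Lb.g g7 (@Lb.r r361 (@Lb.r r150 (@Lb.r r104 (@Lb.d (nat_lit 353) (nat_lit 9) (nat_lit 9) (@Lb.t (@Lb.fm (nat_lit 9) t1412)))))))))))
noncomputable def l23257 : Lb := (@Lb.d (nat_lit 2) (nat_lit 258) (nat_lit 17) (@Lb.g g8 (@Lb.g g9 (@Lb.g g10 (@Lb.g g11 (@Lb.r r2595 (@Lb.r r36 (@Lb.r r1557 (@Lb.r r1060 (@Lb.d (nat_lit 130) (nat_lit 98) (nat_lit 81) (@Lb.fm (nat_lit 9) t468)))))))))))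
noncomputable def l23258 : Lb := (@Lb.d (nat_lit 134) (nat_lit 258) (nat_lit 130) (@Lb.g g8 (@Lb.g g9 (@Lb.g g10 (@Lb.g g11 (@Lb.r r1443 (@Lb.r r2726 (@Lb.r r344 (@Lb.r r1429 (@Lb.r r2084 (@Lb.d (nat_lit 105) (nat_lit 166) (nat_lit 641) (@Lb.fp (nat_lit 9) t1039))))))))))))
noncomputable def l23259 : Lb := (@Lb.d (nat_lit 144) (nat_lit 258) (nat_lit 4) (@Lb.g g8 (@Lb.g g9 (@Lb.g g10 (@Lb.g g11 (@Lb.r r2691 (@Lb.r r1193 (@Lb.r r1642 (@Lb.r r72 (@Lb.d (nat_lit 548) (nat_lit 17) (nat_lit 393) (@Lb.fm (nat_lit 9) t1871)))))))))))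
noncomputable def l23260 : Lb := (@Lb.d (nat_lit 2) (nat_lit 514) (nat_lit 2) (@Lb.g g8 (@Lb.g g9 (@Lb.g g10 (@Lb.g g11 (@Lb.r r1706 (@Lb.r r680 (@Lb.r r555 (@Lb.r r1553 (@Lb.r r2084 (@Lb.d (nat_lit 9) (nat_lit 97) (nat_lit 586) (@Lb.fm (nat_lit 9) t51))))))))))))
noncomputable def l23261 : Lb := (@Lb.d (nat_lit 0) (nat_lit 256) (nat_lit 128) (@Lb.g g9 (@Lb.g g11 (@Lb.r r2471 (@Lb.r r1096 (@Lb.r r2646 (@Lb.r r289 (@Lb.d (nat_lit 533) (nat_lit 8) (nat_lit 16) (@Lb.fm (nat_lit 3) t1040)))))))))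
noncomputable def l23262 : Lb := (@Lb.d (nat_lit 32) (nat_lit 514) (nat_lit 0) (@Lb.g g8 (@Lb.g g9 (@Lb.r r1387 (@Lb.r r582 (@Lb.r r97 (@Lb.r r1412 (@Lb.d (nat_lit 354) (nat_lit 9) (nat_lit 425) (@Lb.fp (nat_lit 3) t51)))))))))
noncomputable def l23263 : Lb := (@Lb.d (nat_lit 0) (nat_lit 522) (nat_lit 0) (@Lb.g g8 (@Lb.g g9 (@Lb.r r2403 (@Lb.r r594 (@Lb.r r2449 (@Lb.d (nat_lit 0) (nat_lit 154) (nat_lit 425) (@Lb.fm (nat_lit 3) t386))))))))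
noncomputable def l23264 : Lb := (@Lb.d (nat_lit 36) (nat_lit 512) (nat_lit 0) (@Lb.g g8 (@Lb.g g9 (@Lb.r r1387 (@Lb.r r582 (@Lb.r r97 (@Lb.r r1412 (@Lb.d (nat_lit 354) (nat_lit 9) (nat_lit 425) (@Lb.fp (nat_lit 3) t51)))))))))
noncomputable def l23265 : Lb := (@Lb.d (nat_lit 0) (nat_lit 512) (nat_lit 2) (@Lb.g g9 (@Lb.g g10 (@Lb.g g7 (@Lb.r r386 (@Lb.r r101 (@Lb.r r24 (@Lb.d (nat_lit 356) (nat_lit 1) (nat_lit 521) (@Lb.t (@Lb.fm (nat_lit 9) t166))))))))))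
noncomputable def l23266 : Lb := (@Lb.r r323 (@Lb.d (nat_lit 130) (nat_lit 2) (nat_lit 2) (@Lb.g g8 (@Lb.g g9 (@Lb.g g10 (@Lb.r r599 (@Lb.r r98 (@Lb.r r97 (@Lb.r r408 (@Lb.d (nat_lit 149) (nat_lit 150) (nat_lit 137) (@Lb.t (@Lb.fp (nat_lit 9) t51))))))))))))
noncomputable def l23267 : Lb := (@Lb.d (nat_lit 5) (nat_lit 36) (nat_lit 133) (@Lb.g g8 (@Lb.g g9 (@Lb.g g10 (@Lb.g g11 (@Lb.r r1699 (@Lb.r r154 (@Lb.r r2088 (@Lb.r r1561 (@Lb.d (nat_lit 534) (nat_lit 17) (nat_lit 361) (@Lb.fm (nat_lit 9) t2774)))))))))))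
noncomputable def l23268 : Lb := (@Lb.d (nat_lit 408) (nat_lit 341) (nat_lit 420) (@Lb.r r1620 (@Lb.r r2457 (@Lb.r r146 (@Lb.r r1431 (@Lb.g g7 (@Lb.g g5 (@Lb.g g4 (@Lb.d (nat_lit 17) (nat_lit 1) (nat_lit 64) (@Lb.t (@Lb.fm (nat_lit 9) t2643)))))))))))
noncomputable def l23269 : Lb := (@Lb.d (nat_lit 2) (nat_lit 33) (nat_lit 130) (@Lb.g g8 (@Lb.g g9 (@Lb.g g10 (@Lb.g g11 (@Lb.r r683 (@Lb.r r648 (@Lb.r r1178 (@Lb.r r1121 (@Lb.r r2084 (@Lb.d (nat_lit 290) (nat_lit 41) (nat_lit 657) (@Lb.fp (nat_lit 9) t1038))))))))))))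
noncomputable def l23270 : Lb := (@Lb.r r323 (@Lb.d (nat_lit 0) (nat_lit 290) (nat_lit 18) (@Lb.g g9 (@Lb.g g10 (@Lb.r r595 (@Lb.r r337 (@Lb.r r8 (@Lb.d (nat_lit 610) (nat_lit 24) (nat_lit 24) (@Lb.fm (nat_lit 3) t386)))))))))
noncomputable def l23271 : Lb := (@Lb.d (nat_lit 101) (nat_lit 512) (nat_lit 73) (@Lb.g g8 (@Lb.g g9 (@Lb.g g10 (@Lb.g g11 (@Lb.r r2411 (@Lb.r r1622 (@Lb.r r2725 (@Lb.r r1384 (@Lb.d (nat_lit 133) (nat_lit 170) (nat_lit 392) (@Lb.fp (nat_lit 9) t1108)))))))))))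
noncomputable def l23272 : Lb := (@Lb.d (nat_lit 0) (nat_lit 41) (nat_lit 65) (@Lb.g g9 (@Lb.g g10 (@Lb.g g11 (@Lb.r r2339 (@Lb.r r578 (@Lb.r r401 (@Lb.d (nat_lit 10) (nat_lit 96) (nat_lit 354) (@Lb.t (@Lb.fm (nat_lit 9) t4549))))))))))
noncomputable def l23273 : Lb := (@Lb.r r323 (@Lb.d (nat_lit 1) (nat_lit 2) (nat_lit 2) (@Lb.g g8 (@Lb.g g9 (@Lb.g g10 (@Lb.r r401 (@Lb.r r299 (@Lb.r r392 (@Lb.r r74 (@Lb.d (nat_lit 38) (nat_lit 8) (nat_lit 138) (@Lb.t (@Lb.fp (nat_lit 9) t61))))))))))))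
noncomputable def l23274 : Lb := (@Lb.d (nat_lit 1) (nat_lit 514) (nat_lit 73) (@Lb.g g8 (@Lb.g g9 (@Lb.g g10 (@Lb.g g11 (@Lb.r r2705 (@Lb.r r535 (@Lb.r r2440 (@Lb.r r2122 (@Lb.d (nat_lit 294) (nat_lit 74) (nat_lit 72) (@Lb.fp (nat_lit 9) t4550)))))))))))
noncomputable def l23275 : Lb := (@Lb.r r82 (@Lb.d (nat_lit 4) (nat_lit 65) (nat_lit 0) (@Lb.g g5 (@Lb.r r2371 (@Lb.r r578 (@Lb.r r24 (@Lb.d (nat_lit 321) (nat_lit 8) (nat_lit 546) (@Lb.t (@Lb.fp (nat_lit 3) t4551)))))))))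
noncomputable def l23276 : Lb := (@Lb.d (nat_lit 401) (nat_lit 0) (nat_lit 581) (@Lb.r r1608 (@Lb.r r2403 (@Lb.r r1301 (@Lb.r r1110 (@Lb.g g5 (@Lb.g g4 (@Lb.d (nat_lit 9) (nat_lit 0) (nat_lit 0) (@Lb.fp (nat_lit 3) t2557)))))))))
noncomputable def l23277 : Lb := (@Lb.d (nat_lit 0) (nat_lit 0) (nat_lit 73) (@Lb.g g9 (@Lb.g g10 (@Lb.g g11 (@Lb.r r2658 (@Lb.r r101 (@Lb.d (nat_lit 644) (nat_lit 162) (nat_lit 64) (@Lb.t (@Lb.fp (nat_lit 9) t2096)))))))))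
noncomputable def l23278 : Lb := (@Lb.d (nat_lit 32) (nat_lit 256) (nat_lit 73) (@Lb.g g9 (@Lb.g g10 (@Lb.g g11 (@Lb.r r1707 (@Lb.r r20 (@Lb.r r2409 (@Lb.r r1170 (@Lb.d (nat_lit 265) (nat_lit 161) (nat_lit 602) (@Lb.t (@Lb.fp (nat_lit 9) t4552)))))))))))
noncomputable def l23279 : Lb := (@Lb.r r24 (@Lb.d (nat_lit 0) (nat_lit 576) (nat_lit 64) (@Lb.fm (nat_lit 1) t2)))
noncomputable def l23280 : Lb := (@Lb.d (nat_lit 2) (nat_lit 514) (nat_lit 66) (@Lb.g g8 (@Lb.g g9 (@Lb.g g10 (@Lb.g g7 (@Lb.r r386 (@Lb.r r2657 (@Lb.r r24 (@Lb.d (nat_lit 10) (nat_lit 169) (nat_lit 357) (@Lb.fp (nat_lit 9) t1403))))))))))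
noncomputable def l23281 : Lb := (@Lb.r r82 (@Lb.d (nat_lit 34) (nat_lit 258) (nat_lit 8) (@Lb.g g8 (@Lb.g g9 (@Lb.g g11 (@Lb.r r1362 (@Lb.r r2645 (@Lb.r r356 (@Lb.r r395 (@Lb.d (nat_lit 546) (nat_lit 34) (nat_lit 680) (@Lb.t (@Lb.fm (nat_lit 9) t98))))))))))))
noncomputable def l23282 : Lb := (@Lb.d (nat_lit 682) (nat_lit 594) (nat_lit 546) (@Lb.r r2729 (@Lb.r r1366 (@Lb.g g7 (@Lb.g g5 (@Lb.g g4 (@Lb.d (nat_lit 1) (nat_lit 32) (nat_lit 136) (@Lb.r r578 (@Lb.t (@Lb.fm (nat_lit 9) t375))))))))))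
noncomputable def l23283 : Lb := (@Lb.d (nat_lit 0) (nat_lit 393) (nat_lit 136) (@Lb.g g5 (@Lb.g g10 (@Lb.g g11 (@Lb.r r2711 (@Lb.r r1384 (@Lb.r r2630 (@Lb.d (nat_lit 657) (nat_lit 165) (nat_lit 16) (@Lb.t (@Lb.fp (nat_lit 9) t1027))))))))))
noncomputable def l23284 : Lb := (@Lb.d (nat_lit 2) (nat_lit 290) (nat_lit 513) (@Lb.g g8 (@Lb.g g9 (@Lb.g g10 (@Lb.g g7 (@Lb.r r1449 (@Lb.r r1188 (@Lb.r r1158 (@Lb.d (nat_lit 418) (nat_lit 10) (nat_lit 401) (@Lb.fm (nat_lit 9) t4553))))))))))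
noncomputable def l23285 : Lb := (@Lb.d (nat_lit 0) (nat_lit 545) (nat_lit 1) (@Lb.g g9 (@Lb.g g10 (@Lb.r r659 (@Lb.r r1682 (@Lb.r r353 (@Lb.d (nat_lit 0) (nat_lit 90) (nat_lit 262) (@Lb.fp (nat_lit 3) t2869))))))))
noncomputable def l23286 : Lb := (@Lb.d (nat_lit 64) (nat_lit 2) (nat_lit 328) (@Lb.g g9 (@Lb.g g7 (@Lb.r r2376 (@Lb.r r1158 (@Lb.r r25 (@Lb.d (nat_lit 36) (nat_lit 129) (nat_lit 82) (@Lb.fp (nat_lit 3) t4554))))))))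
noncomputable def l23287 : Lb := (@Lb.d (nat_lit 26) (nat_lit 1) (nat_lit 0) (@Lb.g g8 (@Lb.g g9 (@Lb.g g10 (@Lb.g g11 (@Lb.r r675 (@Lb.r r1681 (@Lb.r r2404 (@Lb.r r2202 (@Lb.d (nat_lit 169) (nat_lit 9) (nat_lit 596) (@Lb.fp (nat_lit 9) t3381)))))))))))
noncomputable def l23288 : Lb := (@Lb.d (nat_lit 146) (nat_lit 258) (nat_lit 64) (@Lb.g g8 (@Lb.g g9 (@Lb.g g10 (@Lb.g g11 (@Lb.r r427 (@Lb.r r2154 (@Lb.r r292 (@Lb.r r21 (@Lb.r r36 (@Lb.d (nat_lit 361) (nat_lit 33) (nat_lit 596) (@Lb.fp (nat_lit 9) t1444))))))))))))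
noncomputable def l23289 : Lb := (@Lb.d (nat_lit 0) (nat_lit 512) (nat_lit 130) (@Lb.g g10 (@Lb.g g11 (@Lb.r r1553 (@Lb.r r595 (@Lb.r r386 (@Lb.r r1124 (@Lb.d (nat_lit 6) (nat_lit 72) (nat_lit 538) (@Lb.fm (nat_lit 3) t4555)))))))))
noncomputable def l23290 : Lb := (@Lb.d (nat_lit 6) (nat_lit 256) (nat_lit 10) (@Lb.g g4 (@Lb.g g10 (@Lb.r r2643 (@Lb.r r401 (@Lb.r r2450 (@Lb.d (nat_lit 274) (nat_lit 154) (nat_lit 298) (@Lb.fp (nat_lit 3) t2169))))))))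
noncomputable def l23291 : Lb := (@Lb.d (nat_lit 6) (nat_lit 512) (nat_lit 10) (@Lb.g g4 (@Lb.g g10 (@Lb.r r2643 (@Lb.r r401 (@Lb.r r2450 (@Lb.d (nat_lit 273) (nat_lit 154) (nat_lit 298) (@Lb.fp (nat_lit 3) t2169))))))))
noncomputable def l23292 : Lb := (@Lb.d (nat_lit 0) (nat_lit 282) (nat_lit 1) (@Lb.g g8 (@Lb.g g9 (@Lb.g g10 (@Lb.g g11 (@Lb.r r2391 (@Lb.r r358 (@Lb.r r664 (@Lb.r r421 (@Lb.d (nat_lit 105) (nat_lit 97) (nat_lit 137) (@Lb.fp (nat_lit 9) t1879)))))))))))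
noncomputable def l23293 : Lb := (@Lb.d (nat_lit 0) (nat_lit 538) (nat_lit 1) (@Lb.g g8 (@Lb.g g9 (@Lb.g g10 (@Lb.g g11 (@Lb.r r2391 (@Lb.r r358 (@Lb.r r664 (@Lb.r r421 (@Lb.d (nat_lit 104) (nat_lit 97) (nat_lit 137) (@Lb.fp (nat_lit 9) t340)))))))))))
noncomputable def l23294 : Lb := (@Lb.d (nat_lit 130) (nat_lit 514) (nat_lit 17) (@Lb.g g8 (@Lb.g g9 (@Lb.g g10 (@Lb.r r2595 (@Lb.r r1065 (@Lb.r r2344 (@Lb.d (nat_lit 324) (nat_lit 98) (nat_lit 81) (@Lb.t (@Lb.fp (nat_lit 9) t468))))))))))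
noncomputable def l23295 : Lb := (@Lb.d (nat_lit 353) (nat_lit 256) (nat_lit 602) (@Lb.r r1291 (@Lb.g g11 (@Lb.g g8 (@Lb.fm (nat_lit 3) t4041)))))
noncomputable def l23296 : Lb := (@Lb.r r323 (@Lb.d (nat_lit 0) (nat_lit 290) (nat_lit 18) (@Lb.g g9 (@Lb.g g10 (@Lb.r r595 (@Lb.r r337 (@Lb.r r8 (@Lb.d (nat_lit 608) (nat_lit 90) (nat_lit 150) (@Lb.fm (nat_lit 3) t386)))))))))
noncomputable def l23297 : Lb := (@Lb.d (nat_lit 4) (nat_lit 402) (nat_lit 2) (@Lb.g g5 (@Lb.g g10 (@Lb.r r1347 (@Lb.r r146 (@Lb.r r24 (@Lb.d (nat_lit 612) (nat_lit 25) (nat_lit 393) (@Lb.fp (nat_lit 3) t1832))))))))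
noncomputable def l23298 : Lb := (@Lb.d (nat_lit 128) (nat_lit 258) (nat_lit 130) (@Lb.g g8 (@Lb.g g9 (@Lb.g g10 (@Lb.g g11 (@Lb.r r419 (@Lb.r r344 (@Lb.r r1429 (@Lb.r r1110 (@Lb.r r2212 (@Lb.d (nat_lit 272) (nat_lit 98) (nat_lit 600) (@Lb.fm (nat_lit 9) t4556))))))))))))
noncomputable def l23299 : Lb := (@Lb.d (nat_lit 0) (nat_lit 256) (nat_lit 4) (@Lb.g g9 (@Lb.g g10 (@Lb.g g11 (@Lb.r r2726 (@Lb.r r584 (@Lb.r r299 (@Lb.r r289 (@Lb.d (nat_lit 5) (nat_lit 65) (nat_lit 128) (@Lb.t (@Lb.fp (nat_lit 9) t1115)))))))))))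
noncomputable def l23300 : Lb := (@Lb.d (nat_lit 406) (nat_lit 537) (nat_lit 660) (@Lb.r r358 (@Lb.r r1381 (@Lb.r r2451 (@Lb.g g6 (@Lb.g g4 (@Lb.d (nat_lit 1) (nat_lit 0) (nat_lit 5) (@Lb.fp (nat_lit 3) t322))))))))
noncomputable def l23301 : Lb := (@Lb.d (nat_lit 133) (nat_lit 513) (nat_lit 98) (@Lb.r r146 (@Lb.r r357 (@Lb.r r24 (@Lb.g g7 (@Lb.d (nat_lit 0) (nat_lit 16) (nat_lit 64) (@Lb.r r578 (@Lb.t (@Lb.fp (nat_lit 3) t3216)))))))))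
noncomputable def l23302 : Lb := (@Lb.d (nat_lit 0) (nat_lit 514) (nat_lit 1) (@Lb.g g8 (@Lb.g g9 (@Lb.g g10 (@Lb.g g11 (@Lb.r r682 (@Lb.r r1707 (@Lb.r r1602 (@Lb.r r1177 (@Lb.r r1156 (@Lb.d (nat_lit 292) (nat_lit 65) (nat_lit 354) (@Lb.fp (nat_lit 9) t940))))))))))))
noncomputable def l23303 : Lb := (@Lb.r r323 (@Lb.d (nat_lit 0) (nat_lit 546) (nat_lit 18) (@Lb.g g9 (@Lb.g g10 (@Lb.r r595 (@Lb.r r337 (@Lb.r r8 (@Lb.d (nat_lit 610) (nat_lit 24) (nat_lit 150) (@Lb.fm (nat_lit 3) t386)))))))))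
noncomputable def l23304 : Lb := (@Lb.d (nat_lit 152) (nat_lit 512) (nat_lit 66) (@Lb.g g8 (@Lb.g g10 (@Lb.g g11 (@Lb.r r2599 (@Lb.r r1434 (@Lb.r r1637 (@Lb.r r1428 (@Lb.d (nat_lit 358) (nat_lit 148) (nat_lit 408) (@Lb.t (@Lb.fp (nat_lit 9) t2004)))))))))))
noncomputable def l23305 : Lb := (@Lb.r r331 (@Lb.d (nat_lit 384) (nat_lit 258) (nat_lit 2) (@Lb.g g4 (@Lb.g g9 (@Lb.g g10 (@Lb.r r1619 (@Lb.r r98 (@Lb.r r97 (@Lb.d (nat_lit 8) (nat_lit 1) (nat_lit 681) (@Lb.t (@Lb.fp (nat_lit 9) t4557)))))))))))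
noncomputable def l23306 : Lb := (@Lb.r r363 (@Lb.d (nat_lit 40) (nat_lit 265) (nat_lit 4) (@Lb.g g8 (@Lb.g g9 (@Lb.g g6 (@Lb.r r2567 (@Lb.r r360 (@Lb.r r2153 (@Lb.d (nat_lit 37) (nat_lit 22) (nat_lit 418) (@Lb.t (@Lb.fm (nat_lit 9) t4558)))))))))))
noncomputable def l23307 : Lb := (@Lb.d (nat_lit 320) (nat_lit 390) (nat_lit 358) (@Lb.r r1105 (@Lb.r r2150 (@Lb.r r593 (@Lb.r r2391 (@Lb.g g7 (@Lb.g g6 (@Lb.g g5 (@Lb.g g4 (@Lb.d (nat_lit 321) (nat_lit 1) (nat_lit 129) (@Lb.fp (nat_lit 9) t4559)))))))))))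
noncomputable def l23308 : Lb := (@Lb.r r326 (@Lb.d (nat_lit 1) (nat_lit 2) (nat_lit 576) (@Lb.g g8 (@Lb.g g9 (@Lb.g g7 (@Lb.r r105 (@Lb.r r406 (@Lb.r r2660 (@Lb.d (nat_lit 89) (nat_lit 170) (nat_lit 165) (@Lb.t (@Lb.fp (nat_lit 9) t4560)))))))))))
noncomputable def l23309 : Lb := (@Lb.d (nat_lit 136) (nat_lit 512) (nat_lit 129) (@Lb.g g8 (@Lb.g g10 (@Lb.g g11 (@Lb.r r1575 (@Lb.r r1434 (@Lb.r r613 (@Lb.r r2452 (@Lb.d (nat_lit 614) (nat_lit 89) (nat_lit 649) (@Lb.t (@Lb.fp (nat_lit 9) t1952)))))))))))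
noncomputable def l23310 : Lb := (@Lb.d (nat_lit 514) (nat_lit 256) (nat_lit 128) (@Lb.r r1291 (@Lb.g g11 (@Lb.g g6 (@Lb.g g8 (@Lb.t (@Lb.fp (nat_lit 9) t997)))))))
noncomputable def l23311 : Lb := (@Lb.d (nat_lit 9) (nat_lit 298) (nat_lit 664) (@Lb.r r81 (@Lb.r r1355 (@Lb.r r2722 (@Lb.g g7 (@Lb.g g6 (@Lb.g g5 (@Lb.g g4 (@Lb.d (nat_lit 8) (nat_lit 5) (nat_lit 134) (@Lb.fm (nat_lit 9) t4557))))))))))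
noncomputable def l23312 : Lb := (@Lb.r r331 (@Lb.d (nat_lit 384) (nat_lit 2) (nat_lit 2) (@Lb.g g4 (@Lb.g g9 (@Lb.g g10 (@Lb.r r1619 (@Lb.r r98 (@Lb.r r97 (@Lb.d (nat_lit 8) (nat_lit 1) (nat_lit 546) (@Lb.t (@Lb.fp (nat_lit 9) t4561)))))))))))
noncomputable def l23313 : Lb := (@Lb.g g7 (@Lb.r r2311 (@Lb.r r402 (@Lb.r r1172 (@Lb.r r2073 (@Lb.d (nat_lit 512) (nat_lit 357) (nat_lit 21) (@Lb.t (@Lb.fp (nat_lit 3) t4562))))))))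
noncomputable def l23314 : Lb := (@Lb.g g6 (@Lb.d (nat_lit 401) (nat_lit 0) (nat_lit 357) (@Lb.t (@Lb.fm (nat_lit 3) t4163))))
noncomputable def l23315 : Lb := (@Lb.r r2116 (@Lb.r r81 (@Lb.g g6 (@Lb.r r1619 (@Lb.r r1441 (@Lb.r r2154 (@Lb.d (nat_lit 618) (nat_lit 4) (nat_lit 576) (@Lb.t (@Lb.fm (nat_lit 3) t4563)))))))))
noncomputable def l23316 : Lb := (@Lb.r r331 (@Lb.d (nat_lit 384) (nat_lit 514) (nat_lit 2) (@Lb.g g4 (@Lb.g g9 (@Lb.g g10 (@Lb.r r1619 (@Lb.r r98 (@Lb.r r97 (@Lb.d (nat_lit 8) (nat_lit 8) (nat_lit 680) (@Lb.t (@Lb.fp (nat_lit 9) t4557)))))))))))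
noncomputable def l23317 : Lb := (@Lb.d (nat_lit 0) (nat_lit 274) (nat_lit 133) (@Lb.r r579 (@Lb.r r338 (@Lb.g g7 (@Lb.g g6 (@Lb.g g5 (@Lb.g g8 (@Lb.d (nat_lit 0) (nat_lit 129) (nat_lit 133) (@Lb.fp (nat_lit 9) t126)))))))))
noncomputable def l23318 : Lb := (@Lb.d (nat_lit 0) (nat_lit 4) (nat_lit 128) (@Lb.g g8 (@Lb.g g9 (@Lb.g g10 (@Lb.g g11 (@Lb.r r427 (@Lb.r r388 (@Lb.r r70 (@Lb.r r153 (@Lb.r r132 (@Lb.d (nat_lit 9) (nat_lit 0) (nat_lit 2) (@Lb.fp (nat_lit 9) t4564))))))))))))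
noncomputable def l23319 : Lb := (@Lb.d (nat_lit 2) (nat_lit 512) (nat_lit 130) (@Lb.g g8 (@Lb.g g10 (@Lb.g g11 (@Lb.r r586 (@Lb.r r1643 (@Lb.r r1633 (@Lb.r r24 (@Lb.d (nat_lit 265) (nat_lit 2) (nat_lit 100) (@Lb.t (@Lb.fp (nat_lit 9) t2487)))))))))))
noncomputable def l23320 : Lb := (@Lb.d (nat_lit 34) (nat_lit 512) (nat_lit 64) (@Lb.g g8 (@Lb.g g11 (@Lb.r r582 (@Lb.r r529 (@Lb.r r132 (@Lb.d (nat_lit 34) (nat_lit 0) (nat_lit 9) (@Lb.fm (nat_lit 3) t242))))))))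
noncomputable def l23321 : Lb := (@Lb.d (nat_lit 64) (nat_lit 292) (nat_lit 128) (@Lb.g g8 (@Lb.g g9 (@Lb.g g10 (@Lb.g g11 (@Lb.r r1411 (@Lb.r r164 (@Lb.r r2197 (@Lb.r r406 (@Lb.r r2084 (@Lb.d (nat_lit 81) (nat_lit 130) (nat_lit 137) (@Lb.fm (nat_lit 9) t1032))))))))))))
noncomputable def l23322 : Lb := (@Lb.r r134 (@Lb.r r324 (@Lb.r r411 (@Lb.r r609 (@Lb.r r36 (@Lb.d (nat_lit 1) (nat_lit 576) (nat_lit 16) (@Lb.fp (nat_lit 1) t334)))))))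
noncomputable def l23323 : Lb := (@Lb.r r134 (@Lb.r r324 (@Lb.r r411 (@Lb.r r609 (@Lb.r r36 (@Lb.d (nat_lit 1) (nat_lit 320) (nat_lit 85) (@Lb.fp (nat_lit 1) t479)))))))
noncomputable def l23324 : Lb := (@Lb.d (nat_lit 2) (nat_lit 2) (nat_lit 137) (@Lb.g g8 (@Lb.g g9 (@Lb.g g10 (@Lb.g g11 (@Lb.r r2705 (@Lb.r r356 (@Lb.r r667 (@Lb.r r586 (@Lb.r r1540 (@Lb.d (nat_lit 289) (nat_lit 10) (nat_lit 161) (@Lb.fm (nat_lit 9) t145))))))))))))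
noncomputable def l23325 : Lb := (@Lb.d (nat_lit 1) (nat_lit 66) (nat_lit 2) (@Lb.g g4 (@Lb.g g9 (@Lb.g g10 (@Lb.g g11 (@Lb.r r419 (@Lb.r r98 (@Lb.d (nat_lit 1) (nat_lit 9) (nat_lit 2) (@Lb.fm (nat_lit 9) t51)))))))))
noncomputable def l23326 : Lb := (@Lb.d (nat_lit 8) (nat_lit 258) (nat_lit 73) (@Lb.g g9 (@Lb.g g10 (@Lb.g g11 (@Lb.r r2726 (@Lb.r r328 (@Lb.r r535 (@Lb.r r289 (@Lb.d (nat_lit 646) (nat_lit 26) (nat_lit 66) (@Lb.t (@Lb.fm (nat_lit 9) t668)))))))))))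
noncomputable def l23327 : Lb := (@Lb.r r21 (@Lb.d (nat_lit 2) (nat_lit 0) (nat_lit 138) (@Lb.g g8 (@Lb.g g10 (@Lb.g g7 (@Lb.r r394 (@Lb.r r153 (@Lb.r r132 (@Lb.d (nat_lit 290) (nat_lit 0) (nat_lit 514) (@Lb.t (@Lb.fm (nat_lit 9) t145)))))))))))
noncomputable def l23328 : Lb := (@Lb.d (nat_lit 338) (nat_lit 512) (nat_lit 80) (@Lb.r r2308 (@Lb.r r2323 (@Lb.r r1641 (@Lb.g g10 (@Lb.g g5 (@Lb.g g4 (@Lb.d (nat_lit 18) (nat_lit 8) (nat_lit 33) (@Lb.r r387 (@Lb.t (@Lb.fp (nat_lit 9) t1001)))))))))))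
noncomputable def l23329 : Lb := (@Lb.d (nat_lit 136) (nat_lit 2) (nat_lit 130) (@Lb.g g9 (@Lb.g g10 (@Lb.g g11 (@Lb.r r618 (@Lb.r r24 (@Lb.r r405 (@Lb.r r611 (@Lb.d (nat_lit 680) (nat_lit 18) (nat_lit 162) (@Lb.t (@Lb.fm (nat_lit 9) t564)))))))))))
noncomputable def l23330 : Lb := (@Lb.d (nat_lit 2) (nat_lit 514) (nat_lit 130) (@Lb.g g8 (@Lb.g g9 (@Lb.g g10 (@Lb.g g11 (@Lb.r r427 (@Lb.r r386 (@Lb.r r97 (@Lb.r r24 (@Lb.d (nat_lit 610) (nat_lit 73) (nat_lit 100) (@Lb.fm (nat_lit 9) t741)))))))))))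
noncomputable def l23331 : Lb := (@Lb.r r331 (@Lb.d (nat_lit 160) (nat_lit 2) (nat_lit 2) (@Lb.g g8 (@Lb.g g9 (@Lb.g g10 (@Lb.r r1433 (@Lb.r r2343 (@Lb.r r1604 (@Lb.r r1098 (@Lb.d (nat_lit 337) (nat_lit 138) (nat_lit 136) (@Lb.t (@Lb.fm (nat_lit 9) t1039))))))))))))
noncomputable def l23332 : Lb := (@Lb.d (nat_lit 9) (nat_lit 257) (nat_lit 66) (@Lb.g g8 (@Lb.g g9 (@Lb.g g10 (@Lb.g g7 (@Lb.r r386 (@Lb.r r97 (@Lb.r r24 (@Lb.d (nat_lit 330) (nat_lit 9) (nat_lit 585) (@Lb.fp (nat_lit 9) t166))))))))))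
noncomputable def l23333 : Lb := (@Lb.d (nat_lit 388) (nat_lit 101) (nat_lit 641) (@Lb.r r2341 (@Lb.r r1624 (@Lb.r r1430 (@Lb.r r1555 (@Lb.g g7 (@Lb.g g6 (@Lb.g g5 (@Lb.d (nat_lit 4) (nat_lit 6) (nat_lit 132) (@Lb.t (@Lb.fp (nat_lit 9) t986)))))))))))
noncomputable def l23334 : Lb := (@Lb.r r82 (@Lb.d (nat_lit 161) (nat_lit 514) (nat_lit 0) (@Lb.g g8 (@Lb.g g9 (@Lb.r r647 (@Lb.r r1113 (@Lb.r r614 (@Lb.r r424 (@Lb.d (nat_lit 517) (nat_lit 166) (nat_lit 404) (@Lb.fm (nat_lit 3) t3999))))))))))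
noncomputable def l23335 : Lb := (@Lb.d (nat_lit 129) (nat_lit 2) (nat_lit 130) (@Lb.g g8 (@Lb.g g9 (@Lb.g g10 (@Lb.g g11 (@Lb.r r2651 (@Lb.r r1634 (@Lb.r r1553 (@Lb.r r1156 (@Lb.d (nat_lit 576) (nat_lit 105) (nat_lit 24) (@Lb.fm (nat_lit 9) t4565)))))))))))
noncomputable def l23336 : Lb := (@Lb.d (nat_lit 130) (nat_lit 258) (nat_lit 130) (@Lb.g g8 (@Lb.g g9 (@Lb.g g10 (@Lb.g g11 (@Lb.r r2327 (@Lb.r r1194 (@Lb.r r2657 (@Lb.r r152 (@Lb.d (nat_lit 585) (nat_lit 90) (nat_lit 154) (@Lb.fm (nat_lit 9) t4566)))))))))))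
noncomputable def l23337 : Lb := (@Lb.r r331 (@Lb.d (nat_lit 21) (nat_lit 9) (nat_lit 1) (@Lb.g g8 (@Lb.g g9 (@Lb.g g10 (@Lb.r r1623 (@Lb.r r682 (@Lb.r r537 (@Lb.r r644 (@Lb.d (nat_lit 153) (nat_lit 9) (nat_lit 389) (@Lb.t (@Lb.fm (nat_lit 9) t4567))))))))))))
noncomputable def l23338 : Lb := (@Lb.r r82 (@Lb.d (nat_lit 134) (nat_lit 0) (nat_lit 64) (@Lb.g g8 (@Lb.g g9 (@Lb.g g11 (@Lb.r r299 (@Lb.r r2630 (@Lb.r r1049 (@Lb.r r1432 (@Lb.d (nat_lit 665) (nat_lit 168) (nat_lit 601) (@Lb.t (@Lb.fp (nat_lit 9) t2564))))))))))))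
noncomputable def l23339 : Lb := (@Lb.d (nat_lit 5) (nat_lit 153) (nat_lit 265) (@Lb.r r657 (@Lb.r r602 (@Lb.r r356 (@Lb.g g11 (@Lb.g g5 (@Lb.d (nat_lit 4) (nat_lit 0) (nat_lit 384) (@Lb.r r578 (@Lb.fp (nat_lit 3) t2333)))))))))
noncomputable def l23340 : Lb := (@Lb.g g8 (@Lb.r r609 (@Lb.r r363 (@Lb.r r328 (@Lb.r r134 (@Lb.d (nat_lit 512) (nat_lit 512) (nat_lit 144) (@Lb.t (@Lb.fm (nat_lit 3) t40))))))))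
noncomputable def l23341 : Lb := (@Lb.r r275 (@Lb.d (nat_lit 0) (nat_lit 2) (nat_lit 2) (@Lb.g g8 (@Lb.g g9 (@Lb.g g10 (@Lb.r r1707 (@Lb.r r386 (@Lb.r r609 (@Lb.r r24 (@Lb.d (nat_lit 264) (nat_lit 25) (nat_lit 261) (@Lb.t (@Lb.fm (nat_lit 9) t1937))))))))))))
noncomputable def l23342 : Lb := (@Lb.d (nat_lit 2) (nat_lit 546) (nat_lit 2) (@Lb.g g8 (@Lb.g g9 (@Lb.g g10 (@Lb.r r1194 (@Lb.r r2468 (@Lb.r r1307 (@Lb.r r1573 (@Lb.d (nat_lit 389) (nat_lit 16) (nat_lit 517) (@Lb.t (@Lb.fm (nat_lit 9) t284)))))))))))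
noncomputable def l23343 : Lb := (@Lb.d (nat_lit 170) (nat_lit 290) (nat_lit 4) (@Lb.r r680 (@Lb.r r427 (@Lb.r r345 (@Lb.g g10 (@Lb.g g4 (@Lb.d (nat_lit 70) (nat_lit 0) (nat_lit 5) (@Lb.r r145 (@Lb.fm (nat_lit 3) t1337)))))))))
noncomputable def l23344 : Lb := (@Lb.d (nat_lit 2) (nat_lit 38) (nat_lit 64) (@Lb.g g8 (@Lb.g g9 (@Lb.g g10 (@Lb.g g11 (@Lb.r r1699 (@Lb.r r1192 (@Lb.r r1642 (@Lb.r r1633 (@Lb.d (nat_lit 593) (nat_lit 154) (nat_lit 358) (@Lb.fm (nat_lit 9) t3049)))))))))))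
noncomputable def l23345 : Lb := (@Lb.d (nat_lit 4) (nat_lit 36) (nat_lit 64) (@Lb.g g8 (@Lb.g g9 (@Lb.g g10 (@Lb.g g11 (@Lb.r r1627 (@Lb.r r610 (@Lb.r r1065 (@Lb.r r1416 (@Lb.d (nat_lit 648) (nat_lit 26) (nat_lit 70) (@Lb.fm (nat_lit 9) t3047)))))))))))
noncomputable def l23346 : Lb := (@Lb.d (nat_lit 130) (nat_lit 522) (nat_lit 0) (@Lb.g g8 (@Lb.g g9 (@Lb.r r646 (@Lb.r r679 (@Lb.r r545 (@Lb.r r104 (@Lb.d (nat_lit 36) (nat_lit 66) (nat_lit 20) (@Lb.fm (nat_lit 3) t334)))))))))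
noncomputable def l23347 : Lb := (@Lb.r r275 (@Lb.d (nat_lit 2) (nat_lit 516) (nat_lit 0) (@Lb.g g8 (@Lb.g g9 (@Lb.g g10 (@Lb.r r1707 (@Lb.r r2217 (@Lb.r r1188 (@Lb.r r1158 (@Lb.d (nat_lit 361) (nat_lit 10) (nat_lit 513) (@Lb.t (@Lb.fp (nat_lit 9) t4568))))))))))))
noncomputable def l23348 : Lb := (@Lb.d (nat_lit 132) (nat_lit 2) (nat_lit 130) (@Lb.g g8 (@Lb.g g9 (@Lb.g g10 (@Lb.g g11 (@Lb.r r1443 (@Lb.r r1188 (@Lb.r r2438 (@Lb.r r1121 (@Lb.d (nat_lit 361) (nat_lit 9) (nat_lit 425) (@Lb.fp (nat_lit 9) t1377)))))))))))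
noncomputable def l23349 : Lb := (@Lb.r r68 (@Lb.d (nat_lit 0) (nat_lit 5) (nat_lit 24) (@Lb.g g5 (@Lb.g g10 (@Lb.r r2084 (@Lb.d (nat_lit 2) (nat_lit 81) (nat_lit 256) (@Lb.fp (nat_lit 3) t4569)))))))
noncomputable def l23350 : Lb := (@Lb.d (nat_lit 640) (nat_lit 66) (nat_lit 0) (@Lb.g g4 (@Lb.g g9 (@Lb.d (nat_lit 320) (nat_lit 0) (nat_lit 0) (@Lb.fp (nat_lit 3) t4570)))))
noncomputable def l23351 : Lb := (@Lb.d (nat_lit 130) (nat_lit 10) (nat_lit 0) (@Lb.g g8 (@Lb.g g9 (@Lb.r r646 (@Lb.r r679 (@Lb.r r545 (@Lb.r r104 (@Lb.d (nat_lit 34) (nat_lit 65) (nat_lit 20) (@Lb.fm (nat_lit 3) t334)))))))))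
noncomputable def l23352 : Lb := (@Lb.d (nat_lit 128) (nat_lit 256) (nat_lit 129) (@Lb.g g10 (@Lb.g g11 (@Lb.r r264 (@Lb.r r519 (@Lb.r r153 (@Lb.r r90 (@Lb.d (nat_lit 408) (nat_lit 10) (nat_lit 161) (@Lb.fm (nat_lit 3) t2477)))))))))
noncomputable def l23353 : Lb := (@Lb.d (nat_lit 136) (nat_lit 513) (nat_lit 130) (@Lb.g g8 (@Lb.g g9 (@Lb.g g10 (@Lb.g g11 (@Lb.r r1411 (@Lb.r r164 (@Lb.r r2438 (@Lb.r r97 (@Lb.d (nat_lit 81) (nat_lit 105) (nat_lit 600) (@Lb.fp (nat_lit 9) t523)))))))))))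
noncomputable def l23354 : Lb := (@Lb.d (nat_lit 9) (nat_lit 1) (nat_lit 73) (@Lb.g g8 (@Lb.g g9 (@Lb.g g10 (@Lb.g g11 (@Lb.r r2666 (@Lb.r r579 (@Lb.r r97 (@Lb.r r24 (@Lb.d (nat_lit 426) (nat_lit 9) (nat_lit 356) (@Lb.fm (nat_lit 9) t61)))))))))))
noncomputable def l23355 : Lb := (@Lb.r r21 (@Lb.d (nat_lit 129) (nat_lit 0) (nat_lit 4) (@Lb.g g8 (@Lb.g g10 (@Lb.g g11 (@Lb.r r651 (@Lb.r r2408 (@Lb.r r2390 (@Lb.r r97 (@Lb.d (nat_lit 677) (nat_lit 161) (nat_lit 100) (@Lb.t (@Lb.fp (nat_lit 9) t4568))))))))))))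
noncomputable def l23356 : Lb := (@Lb.d (nat_lit 0) (nat_lit 548) (nat_lit 598) (@Lb.r r85 (@Lb.r r2600 (@Lb.r r1414 (@Lb.r r2347 (@Lb.r r401 (@Lb.g g4 (@Lb.t (@Lb.fm (nat_lit 3) t127)))))))))
noncomputable def l23357 : Lb := (@Lb.r r612 (@Lb.r r359 (@Lb.r r2178 (@Lb.r r405 (@Lb.r r2596 (@Lb.d (nat_lit 4) (nat_lit 257) (nat_lit 32) (@Lb.fm (nat_lit 1) t3087)))))))
noncomputable def l23358 : Lb := (@Lb.d (nat_lit 2) (nat_lit 530) (nat_lit 1) (@Lb.g g8 (@Lb.g g9 (@Lb.g g10 (@Lb.r r1623 (@Lb.r r1366 (@Lb.r r2217 (@Lb.d (nat_lit 277) (nat_lit 20) (nat_lit 164) (@Lb.t (@Lb.fm (nat_lit 9) t791))))))))))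
noncomputable def l23359 : Lb := (@Lb.d (nat_lit 0) (nat_lit 257) (nat_lit 104) (@Lb.r r260 (@Lb.r r390 (@Lb.r r603 (@Lb.r r596 (@Lb.g g5 (@Lb.d (nat_lit 0) (nat_lit 18) (nat_lit 0) (@Lb.t (@Lb.fm (nat_lit 3) t594)))))))))
noncomputable def l23360 : Lb := (@Lb.d (nat_lit 0) (nat_lit 257) (nat_lit 32) (@Lb.r r134 (@Lb.r r328 (@Lb.r r535 (@Lb.g g5 (@Lb.g g4 (@Lb.d (nat_lit 8) (nat_lit 17) (nat_lit 0) (@Lb.fp (nat_lit 3) t264))))))))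
noncomputable def l23361 : Lb := (@Lb.d (nat_lit 0) (nat_lit 520) (nat_lit 130) (@Lb.g g8 (@Lb.g g10 (@Lb.g g11 (@Lb.r r2707 (@Lb.r r2085 (@Lb.r r2392 (@Lb.r r1638 (@Lb.d (nat_lit 409) (nat_lit 66) (nat_lit 416) (@Lb.t (@Lb.fp (nat_lit 9) t4571)))))))))))
noncomputable def l23362 : Lb := (@Lb.d (nat_lit 512) (nat_lit 129) (nat_lit 16) (@Lb.r r24 (@Lb.r r2138 (@Lb.r r149 (@Lb.r r2451 (@Lb.g g9 (@Lb.t (@Lb.fm (nat_lit 3) t7))))))))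
noncomputable def l23363 : Lb := (@Lb.r r82 (@Lb.r r275 (@Lb.d (nat_lit 2) (nat_lit 264) (nat_lit 0) (@Lb.g g8 (@Lb.g g9 (@Lb.r r2315 (@Lb.r r2122 (@Lb.r r2152 (@Lb.r r105 (@Lb.d (nat_lit 550) (nat_lit 136) (nat_lit 2) (@Lb.fm (nat_lit 3) t325)))))))))))
noncomputable def l23364 : Lb := (@Lb.d (nat_lit 292) (nat_lit 641) (nat_lit 16) (@Lb.r r2069 (@Lb.r r36 (@Lb.r r2150 (@Lb.r r2343 (@Lb.g g5 (@Lb.t (@Lb.fm (nat_lit 3) t565))))))))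
noncomputable def l23365 : Lb := (@Lb.r r82 (@Lb.d (nat_lit 32) (nat_lit 545) (nat_lit 64) (@Lb.g g8 (@Lb.g g9 (@Lb.g g11 (@Lb.r r2665 (@Lb.r r658 (@Lb.r r1419 (@Lb.r r1288 (@Lb.d (nat_lit 64) (nat_lit 64) (nat_lit 600) (@Lb.t (@Lb.fp (nat_lit 9) t1902))))))))))))
noncomputable def l23366 : Lb := (@Lb.d (nat_lit 2) (nat_lit 129) (nat_lit 0) (@Lb.r r2069 (@Lb.r r2118 (@Lb.r r2311 (@Lb.g g8 (@Lb.d (nat_lit 2) (nat_lit 0) (nat_lit 0) (@Lb.t (@Lb.fp (nat_lit 3) t3609))))))))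
noncomputable def l23367 : Lb := (@Lb.r r323 (@Lb.d (nat_lit 2) (nat_lit 546) (nat_lit 2) (@Lb.g g8 (@Lb.g g9 (@Lb.g g10 (@Lb.r r1450 (@Lb.r r2468 (@Lb.r r1307 (@Lb.r r2661 (@Lb.d (nat_lit 152) (nat_lit 90) (nat_lit 325) (@Lb.t (@Lb.fm (nat_lit 9) t228))))))))))))
noncomputable def l23368 : Lb := (@Lb.r r323 (@Lb.d (nat_lit 2) (nat_lit 34) (nat_lit 0) (@Lb.g g8 (@Lb.g g9 (@Lb.g g10 (@Lb.r r2474 (@Lb.r r2468 (@Lb.r r1307 (@Lb.r r2661 (@Lb.d (nat_lit 665) (nat_lit 85) (nat_lit 324) (@Lb.t (@Lb.fm (nat_lit 9) t228))))))))))))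
noncomputable def l23369 : Lb := (@Lb.r r21 (@Lb.d (nat_lit 2) (nat_lit 512) (nat_lit 130) (@Lb.g g8 (@Lb.g g10 (@Lb.g g11 (@Lb.r r2379 (@Lb.r r386 (@Lb.r r97 (@Lb.r r72 (@Lb.d (nat_lit 292) (nat_lit 1) (nat_lit 86) (@Lb.t (@Lb.fp (nat_lit 9) t61))))))))))))
noncomputable def l23370 : Lb := (@Lb.d (nat_lit 5) (nat_lit 153) (nat_lit 585) (@Lb.r r657 (@Lb.r r2394 (@Lb.r r2148 (@Lb.g g11 (@Lb.g g5 (@Lb.d (nat_lit 4) (nat_lit 0) (nat_lit 384) (@Lb.r r578 (@Lb.fp (nat_lit 3) t1490)))))))))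
noncomputable def l23371 : Lb := (@Lb.d (nat_lit 2) (nat_lit 265) (nat_lit 65) (@Lb.g g8 (@Lb.g g9 (@Lb.g g10 (@Lb.g g11 (@Lb.r r1299 (@Lb.r r2705 (@Lb.r r356 (@Lb.r r154 (@Lb.r r132 (@Lb.d (nat_lit 136) (nat_lit 1) (nat_lit 330) (@Lb.fm (nat_lit 9) t1608))))))))))))
noncomputable def l23372 : Lb := (@Lb.d (nat_lit 2) (nat_lit 260) (nat_lit 128) (@Lb.g g8 (@Lb.g g9 (@Lb.g g10 (@Lb.g g11 (@Lb.r r1699 (@Lb.r r164 (@Lb.r r614 (@Lb.r r169 (@Lb.r r1156 (@Lb.d (nat_lit 262) (nat_lit 66) (nat_lit 394) (@Lb.fp (nat_lit 9) t3612))))))))))))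
noncomputable def l23373 : Lb := (@Lb.g g7 (@Lb.r r354 (@Lb.r r1427 (@Lb.d (nat_lit 0) (nat_lit 384) (nat_lit 384) (@Lb.t (@Lb.fm (nat_lit 3) t334))))))
noncomputable def l23374 : Lb := (@Lb.d (nat_lit 1) (nat_lit 264) (nat_lit 128) (@Lb.g g8 (@Lb.g g9 (@Lb.g g11 (@Lb.r r1362 (@Lb.r r2721 (@Lb.r r1447 (@Lb.r r2628 (@Lb.d (nat_lit 417) (nat_lit 0) (nat_lit 393) (@Lb.t (@Lb.fp (nat_lit 9) t915)))))))))))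
noncomputable def l23375 : Lb := (@Lb.d (nat_lit 0) (nat_lit 33) (nat_lit 66) (@Lb.g g9 (@Lb.g g10 (@Lb.g g11 (@Lb.r r595 (@Lb.r r1702 (@Lb.r r1636 (@Lb.r r1557 (@Lb.d (nat_lit 384) (nat_lit 2) (nat_lit 256) (@Lb.t (@Lb.fm (nat_lit 9) t1702)))))))))))
noncomputable def l23376 : Lb := (@Lb.d (nat_lit 10) (nat_lit 0) (nat_lit 0) (@Lb.g g8 (@Lb.r r609 (@Lb.r r619 (@Lb.r r612 (@Lb.r r154 (@Lb.d (nat_lit 32) (nat_lit 5) (nat_lit 6) (@Lb.t (@Lb.fm (nat_lit 3) t39)))))))))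
noncomputable def l23377 : Lb := (@Lb.r r260 (@Lb.r r523 (@Lb.r r357 (@Lb.r r666 (@Lb.r r516 (@Lb.d (nat_lit 32) (nat_lit 517) (nat_lit 128) (@Lb.fm (nat_lit 1) t39)))))))
noncomputable def l23378 : Lb := (@Lb.d (nat_lit 146) (nat_lit 9) (nat_lit 130) (@Lb.g g8 (@Lb.g g9 (@Lb.g g10 (@Lb.g g11 (@Lb.r r1194 (@Lb.r r424 (@Lb.r r1303 (@Lb.r r1553 (@Lb.r r2084 (@Lb.d (nat_lit 258) (nat_lit 161) (nat_lit 106) (@Lb.fp (nat_lit 9) t1967))))))))))))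
noncomputable def l23379 : Lb := (@Lb.d (nat_lit 0) (nat_lit 9) (nat_lit 6) (@Lb.g g9 (@Lb.g g10 (@Lb.g g11 (@Lb.r r2722 (@Lb.r r2713 (@Lb.r r2587 (@Lb.r r24 (@Lb.d (nat_lit 33) (nat_lit 0) (nat_lit 329) (@Lb.t (@Lb.fp (nat_lit 9) t538)))))))))))
noncomputable def l23380 : Lb := (@Lb.d (nat_lit 0) (nat_lit 520) (nat_lit 2) (@Lb.g g10 (@Lb.g g11 (@Lb.r r387 (@Lb.d (nat_lit 0) (nat_lit 2) (nat_lit 9) (@Lb.fm (nat_lit 3) t369))))))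
noncomputable def l23381 : Lb := (@Lb.d (nat_lit 2) (nat_lit 514) (nat_lit 130) (@Lb.g g8 (@Lb.g g9 (@Lb.g g10 (@Lb.g g11 (@Lb.r r1443 (@Lb.r r297 (@Lb.r r104 (@Lb.r r70 (@Lb.r r132 (@Lb.d (nat_lit 545) (nat_lit 5) (nat_lit 416) (@Lb.fp (nat_lit 9) t88))))))))))))
noncomputable def l23382 : Lb := (@Lb.r r323 (@Lb.d (nat_lit 130) (nat_lit 521) (nat_lit 2) (@Lb.g g8 (@Lb.g g9 (@Lb.g g10 (@Lb.r r1699 (@Lb.r r1194 (@Lb.r r2201 (@Lb.r r408 (@Lb.d (nat_lit 81) (nat_lit 24) (nat_lit 330) (@Lb.t (@Lb.fp (nat_lit 9) t125))))))))))))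
noncomputable def l23383 : Lb := (@Lb.r r323 (@Lb.d (nat_lit 4) (nat_lit 257) (nat_lit 2) (@Lb.g g5 (@Lb.g g10 (@Lb.r r1690 (@Lb.r r387 (@Lb.r r24 (@Lb.d (nat_lit 546) (nat_lit 1) (nat_lit 292) (@Lb.fp (nat_lit 3) t1025)))))))))
noncomputable def l23384 : Lb := (@Lb.g g11 (@Lb.r r1346 (@Lb.r r387 (@Lb.d (nat_lit 0) (nat_lit 674) (nat_lit 18) (@Lb.t (@Lb.fp (nat_lit 3) t373))))))
noncomputable def l23385 : Lb := (@Lb.d (nat_lit 89) (nat_lit 360) (nat_lit 681) (@Lb.r r2661 (@Lb.r r1575 (@Lb.r r2388 (@Lb.g g7 (@Lb.g g6 (@Lb.g g5 (@Lb.g g4 (@Lb.d (nat_lit 6) (nat_lit 16) (nat_lit 98) (@Lb.fp (nat_lit 9) t916))))))))))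
noncomputable def l23386 : Lb := (@Lb.d (nat_lit 614) (nat_lit 262) (nat_lit 320) (@Lb.r r1621 (@Lb.r r579 (@Lb.r r1366 (@Lb.g g6 (@Lb.g g5 (@Lb.g g4 (@Lb.d (nat_lit 1) (nat_lit 8) (nat_lit 0) (@Lb.t (@Lb.fm (nat_lit 9) t2877))))))))))
noncomputable def l23387 : Lb := (@Lb.d (nat_lit 0) (nat_lit 8) (nat_lit 137) (@Lb.g g10 (@Lb.g g11 (@Lb.r r1427 (@Lb.d (nat_lit 0) (nat_lit 26) (nat_lit 297) (@Lb.fm (nat_lit 3) t334))))))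
noncomputable def l23388 : Lb := (@Lb.d (nat_lit 290) (nat_lit 0) (nat_lit 69) (@Lb.r r2129 (@Lb.r r1158 (@Lb.r r2372 (@Lb.r r1419 (@Lb.g g7 (@Lb.g g4 (@Lb.d (nat_lit 2) (nat_lit 0) (nat_lit 64) (@Lb.fp (nat_lit 3) t355)))))))))
noncomputable def l23389 : Lb := (@Lb.d (nat_lit 0) (nat_lit 41) (nat_lit 1) (@Lb.g g9 (@Lb.g g10 (@Lb.r r1194 (@Lb.r r2468 (@Lb.r r1307 (@Lb.r r1573 (@Lb.d (nat_lit 389) (nat_lit 16) (nat_lit 586) (@Lb.fm (nat_lit 3) t428)))))))))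
noncomputable def l23390 : Lb := (@Lb.d (nat_lit 385) (nat_lit 68) (nat_lit 33) (@Lb.r r90 (@Lb.r r72 (@Lb.r r1543 (@Lb.g g6 (@Lb.g g9 (@Lb.d (nat_lit 16) (nat_lit 146) (nat_lit 1) (@Lb.fp (nat_lit 3) t4069))))))))
noncomputable def l23391 : Lb := (@Lb.d (nat_lit 385) (nat_lit 580) (nat_lit 102) (@Lb.r r90 (@Lb.r r72 (@Lb.r r1543 (@Lb.g g6 (@Lb.g g9 (@Lb.d (nat_lit 16) (nat_lit 146) (nat_lit 1) (@Lb.fp (nat_lit 3) t4069))))))))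
noncomputable def l23392 : Lb := (@Lb.r r82 (@Lb.d (nat_lit 2) (nat_lit 2) (nat_lit 0) (@Lb.g g8 (@Lb.g g9 (@Lb.g g11 (@Lb.r r2395 (@Lb.r r594 (@Lb.r r289 (@Lb.r r24 (@Lb.d (nat_lit 256) (nat_lit 80) (nat_lit 96) (@Lb.t (@Lb.fm (nat_lit 9) t4572))))))))))))
noncomputable def l23393 : Lb := (@Lb.r r82 (@Lb.d (nat_lit 2) (nat_lit 258) (nat_lit 0) (@Lb.g g8 (@Lb.g g9 (@Lb.g g11 (@Lb.r r2395 (@Lb.r r594 (@Lb.r r289 (@Lb.r r24 (@Lb.d (nat_lit 266) (nat_lit 82) (nat_lit 96) (@Lb.t (@Lb.fm (nat_lit 9) t4572))))))))))))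
noncomputable def l23394 : Lb := (@Lb.d (nat_lit 402) (nat_lit 576) (nat_lit 580) (@Lb.r r2632 (@Lb.r r97 (@Lb.r r2635 (@Lb.g g7 (@Lb.g g10 (@Lb.g g4 (@Lb.d (nat_lit 1) (nat_lit 8) (nat_lit 65) (@Lb.r r25 (@Lb.t (@Lb.fp (nat_lit 9) t4329)))))))))))
noncomputable def l23395 : Lb := (@Lb.d (nat_lit 386) (nat_lit 646) (nat_lit 80) (@Lb.r r24 (@Lb.r r402 (@Lb.r r101 (@Lb.g g7 (@Lb.d (nat_lit 0) (nat_lit 0) (nat_lit 68) (@Lb.t (@Lb.fp (nat_lit 3) t3471))))))))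
noncomputable def l23396 : Lb := (@Lb.d (nat_lit 160) (nat_lit 585) (nat_lit 1) (@Lb.g g5 (@Lb.g g10 (@Lb.g g11 (@Lb.r r260 (@Lb.r r587 (@Lb.r r354 (@Lb.d (nat_lit 352) (nat_lit 134) (nat_lit 261) (@Lb.t (@Lb.fm (nat_lit 9) t2924))))))))))
noncomputable def l23397 : Lb := (@Lb.d (nat_lit 64) (nat_lit 512) (nat_lit 128) (@Lb.g g10 (@Lb.g g11 (@Lb.r r2344 (@Lb.r r1577 (@Lb.r r2347 (@Lb.r r2658 (@Lb.d (nat_lit 385) (nat_lit 65) (nat_lit 128) (@Lb.fm (nat_lit 3) t303)))))))))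
noncomputable def l23398 : Lb := (@Lb.r r263 (@Lb.d (nat_lit 130) (nat_lit 514) (nat_lit 2) (@Lb.g g8 (@Lb.g g9 (@Lb.g g10 (@Lb.r r599 (@Lb.r r386 (@Lb.r r97 (@Lb.r r552 (@Lb.d (nat_lit 66) (nat_lit 152) (nat_lit 4) (@Lb.t (@Lb.fm (nat_lit 9) t1067))))))))))))
noncomputable def l23399 : Lb := (@Lb.r r275 (@Lb.d (nat_lit 4) (nat_lit 256) (nat_lit 2) (@Lb.g g8 (@Lb.g g9 (@Lb.g g10 (@Lb.r r1681 (@Lb.r r1559 (@Lb.r r386 (@Lb.r r36 (@Lb.d (nat_lit 297) (nat_lit 6) (nat_lit 68) (@Lb.t (@Lb.fm (nat_lit 9) t2313))))))))))))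
noncomputable def l23400 : Lb := (@Lb.d (nat_lit 2) (nat_lit 258) (nat_lit 130) (@Lb.g g8 (@Lb.g g9 (@Lb.g g10 (@Lb.g g11 (@Lb.r r427 (@Lb.r r386 (@Lb.r r97 (@Lb.d (nat_lit 137) (nat_lit 153) (nat_lit 68) (@Lb.fp (nat_lit 9) t1231))))))))))
noncomputable def l23401 : Lb := (@Lb.d (nat_lit 2) (nat_lit 2) (nat_lit 130) (@Lb.g g8 (@Lb.g g9 (@Lb.g g10 (@Lb.g g11 (@Lb.r r427 (@Lb.r r386 (@Lb.r r97 (@Lb.d (nat_lit 130) (nat_lit 154) (nat_lit 68) (@Lb.fp (nat_lit 9) t1231))))))))))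
noncomputable def l23402 : Lb := (@Lb.r r21 (@Lb.d (nat_lit 2) (nat_lit 520) (nat_lit 2) (@Lb.g g8 (@Lb.g g10 (@Lb.g g11 (@Lb.r r1707 (@Lb.r r2341 (@Lb.r r1640 (@Lb.r r422 (@Lb.d (nat_lit 105) (nat_lit 73) (nat_lit 280) (@Lb.t (@Lb.fm (nat_lit 9) t51))))))))))))
noncomputable def l23403 : Lb := (@Lb.r r21 (@Lb.d (nat_lit 645) (nat_lit 520) (nat_lit 130) (@Lb.g g8 (@Lb.g g10 (@Lb.g g11 (@Lb.r r1419 (@Lb.r r101 (@Lb.r r410 (@Lb.d (nat_lit 9) (nat_lit 149) (nat_lit 100) (@Lb.t (@Lb.fm (nat_lit 9) t1606)))))))))))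
noncomputable def l23404 : Lb := (@Lb.r r21 (@Lb.d (nat_lit 33) (nat_lit 256) (nat_lit 1) (@Lb.g g8 (@Lb.g g10 (@Lb.g g11 (@Lb.r r1691 (@Lb.r r1561 (@Lb.r r1640 (@Lb.r r614 (@Lb.d (nat_lit 148) (nat_lit 72) (nat_lit 586) (@Lb.t (@Lb.fm (nat_lit 9) t264))))))))))))
noncomputable def l23405 : Lb := (@Lb.d (nat_lit 2) (nat_lit 258) (nat_lit 64) (@Lb.g g8 (@Lb.g g9 (@Lb.g g10 (@Lb.g g11 (@Lb.r r618 (@Lb.r r323 (@Lb.r r2626 (@Lb.r r2585 (@Lb.d (nat_lit 329) (nat_lit 97) (nat_lit 145) (@Lb.fp (nat_lit 9) t324)))))))))))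
noncomputable def l23406 : Lb := (@Lb.d (nat_lit 137) (nat_lit 0) (nat_lit 384) (@Lb.g g8 (@Lb.g g11 (@Lb.r r1382 (@Lb.r r2405 (@Lb.r r660 (@Lb.d (nat_lit 166) (nat_lit 90) (nat_lit 538) (@Lb.fp (nat_lit 3) t927))))))))
noncomputable def l23407 : Lb := (@Lb.d (nat_lit 674) (nat_lit 2) (nat_lit 105) (@Lb.r r644 (@Lb.r r614 (@Lb.r r1435 (@Lb.g g7 (@Lb.g g6 (@Lb.g g9 (@Lb.g g4 (@Lb.d (nat_lit 133) (nat_lit 74) (nat_lit 0) (@Lb.fm (nat_lit 9) t145))))))))))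
noncomputable def l23408 : Lb := (@Lb.r r21 (@Lb.d (nat_lit 144) (nat_lit 0) (nat_lit 133) (@Lb.g g8 (@Lb.g g10 (@Lb.g g11 (@Lb.r r2475 (@Lb.r r600 (@Lb.r r1365 (@Lb.r r2218 (@Lb.d (nat_lit 81) (nat_lit 129) (nat_lit 545) (@Lb.t (@Lb.fm (nat_lit 9) t1606))))))))))))
noncomputable def l23409 : Lb := (@Lb.r r21 (@Lb.d (nat_lit 646) (nat_lit 512) (nat_lit 130) (@Lb.g g8 (@Lb.g g10 (@Lb.g g11 (@Lb.r r419 (@Lb.r r106 (@Lb.r r25 (@Lb.d (nat_lit 360) (nat_lit 9) (nat_lit 9) (@Lb.t (@Lb.fm (nat_lit 9) t2501)))))))))))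
noncomputable def l23410 : Lb := (@Lb.d (nat_lit 0) (nat_lit 256) (nat_lit 66) (@Lb.g g10 (@Lb.g g11 (@Lb.r r2401 (@Lb.r r2387 (@Lb.r r386 (@Lb.d (nat_lit 0) (nat_lit 170) (nat_lit 336) (@Lb.fm (nat_lit 3) t880))))))))
noncomputable def l23411 : Lb := (@Lb.d (nat_lit 146) (nat_lit 258) (nat_lit 128) (@Lb.g g8 (@Lb.g g9 (@Lb.g g10 (@Lb.g g11 (@Lb.r r1706 (@Lb.r r1411 (@Lb.r r1188 (@Lb.r r37 (@Lb.d (nat_lit 362) (nat_lit 73) (nat_lit 665) (@Lb.fp (nat_lit 9) t283)))))))))))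
noncomputable def l23412 : Lb := (@Lb.d (nat_lit 0) (nat_lit 384) (nat_lit 96) (@Lb.r r2068 (@Lb.r r2073 (@Lb.r r408 (@Lb.r r2378 (@Lb.g g7 (@Lb.d (nat_lit 64) (nat_lit 0) (nat_lit 576) (@Lb.t (@Lb.fp (nat_lit 3) t1561)))))))))
noncomputable def l23413 : Lb := (@Lb.d (nat_lit 32) (nat_lit 264) (nat_lit 130) (@Lb.g g10 (@Lb.g g11 (@Lb.r r361 (@Lb.r r2711 (@Lb.r r1352 (@Lb.r r1382 (@Lb.d (nat_lit 341) (nat_lit 73) (nat_lit 406) (@Lb.fp (nat_lit 3) t71)))))))))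
noncomputable def l23414 : Lb := (@Lb.r r1284 (@Lb.d (nat_lit 0) (nat_lit 2) (nat_lit 130) (@Lb.g g9 (@Lb.g g10 (@Lb.g g11 (@Lb.r r677 (@Lb.r r1443 (@Lb.r r98 (@Lb.d (nat_lit 10) (nat_lit 10) (nat_lit 105) (@Lb.t (@Lb.fp (nat_lit 9) t799)))))))))))
noncomputable def l23415 : Lb := (@Lb.r r323 (@Lb.d (nat_lit 673) (nat_lit 2) (nat_lit 2) (@Lb.g g8 (@Lb.g g9 (@Lb.g g10 (@Lb.r r1386 (@Lb.r r387 (@Lb.r r25 (@Lb.d (nat_lit 9) (nat_lit 166) (nat_lit 616) (@Lb.t (@Lb.fm (nat_lit 9) t3738)))))))))))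
noncomputable def l23416 : Lb := (@Lb.d (nat_lit 0) (nat_lit 512) (nat_lit 88) (@Lb.g g6 (@Lb.g g11 (@Lb.d (nat_lit 0) (nat_lit 5) (nat_lit 129) (@Lb.fp (nat_lit 3) t45)))))
noncomputable def l23417 : Lb := (@Lb.r r82 (@Lb.d (nat_lit 2) (nat_lit 512) (nat_lit 128) (@Lb.g g8 (@Lb.g g9 (@Lb.g g11 (@Lb.r r599 (@Lb.r r682 (@Lb.r r601 (@Lb.d (nat_lit 105) (nat_lit 2) (nat_lit 132) (@Lb.t (@Lb.fm (nat_lit 9) t5)))))))))))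
noncomputable def l23418 : Lb := (@Lb.d (nat_lit 1) (nat_lit 426) (nat_lit 386) (@Lb.r r2370 (@Lb.r r1683 (@Lb.r r642 (@Lb.g g7 (@Lb.g g6 (@Lb.g g5 (@Lb.d (nat_lit 4) (nat_lit 1) (nat_lit 65) (@Lb.t (@Lb.fp (nat_lit 9) t4573))))))))))
noncomputable def l23419 : Lb := (@Lb.r r21 (@Lb.d (nat_lit 1) (nat_lit 512) (nat_lit 73) (@Lb.g g8 (@Lb.g g10 (@Lb.g g11 (@Lb.r r602 (@Lb.r r579 (@Lb.r r1112 (@Lb.r r37 (@Lb.d (nat_lit 416) (nat_lit 69) (nat_lit 342) (@Lb.t (@Lb.fp (nat_lit 9) t61))))))))))))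
noncomputable def l23420 : Lb := (@Lb.r r331 (@Lb.d (nat_lit 37) (nat_lit 2) (nat_lit 2) (@Lb.g g8 (@Lb.g g9 (@Lb.g g10 (@Lb.r r2713 (@Lb.r r1563 (@Lb.r r1684 (@Lb.d (nat_lit 405) (nat_lit 101) (nat_lit 134) (@Lb.t (@Lb.fp (nat_lit 9) t5)))))))))))
noncomputable def l23421 : Lb := (@Lb.r r21 (@Lb.r r323 (@Lb.d (nat_lit 129) (nat_lit 260) (nat_lit 2) (@Lb.g g8 (@Lb.g g10 (@Lb.r r2631 (@Lb.r r145 (@Lb.r r1432 (@Lb.d (nat_lit 661) (nat_lit 37) (nat_lit 598) (@Lb.fm (nat_lit 3) t119))))))))))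
noncomputable def l23422 : Lb := (@Lb.d (nat_lit 2) (nat_lit 2) (nat_lit 73) (@Lb.g g8 (@Lb.g g9 (@Lb.g g10 (@Lb.g g11 (@Lb.r r2691 (@Lb.r r297 (@Lb.r r648 (@Lb.r r666 (@Lb.r r1156 (@Lb.d (nat_lit 640) (nat_lit 168) (nat_lit 137) (@Lb.fp (nat_lit 9) t1115))))))))))))
noncomputable def l23423 : Lb := (@Lb.r r82 (@Lb.d (nat_lit 34) (nat_lit 289) (nat_lit 64) (@Lb.g g8 (@Lb.g g9 (@Lb.g g11 (@Lb.r r2665 (@Lb.r r1315 (@Lb.r r150 (@Lb.r r2660 (@Lb.d (nat_lit 666) (nat_lit 20) (nat_lit 81) (@Lb.t (@Lb.fm (nat_lit 9) t658))))))))))))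
noncomputable def l23424 : Lb := (@Lb.d (nat_lit 9) (nat_lit 33) (nat_lit 66) (@Lb.g g8 (@Lb.g g9 (@Lb.g g10 (@Lb.g g11 (@Lb.r r1698 (@Lb.r r1415 (@Lb.r r36 (@Lb.r r149 (@Lb.r r1060 (@Lb.d (nat_lit 617) (nat_lit 152) (nat_lit 609) (@Lb.fm (nat_lit 9) t1879))))))))))))
noncomputable def l23425 : Lb := (@Lb.g g10 (@Lb.r r609 (@Lb.r r363 (@Lb.r r356 (@Lb.r r154 (@Lb.d (nat_lit 257) (nat_lit 266) (nat_lit 18) (@Lb.t (@Lb.fp (nat_lit 3) t743))))))))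
noncomputable def l23426 : Lb := (@Lb.d (nat_lit 0) (nat_lit 677) (nat_lit 128) (@Lb.g g5 (@Lb.g g10 (@Lb.g g11 (@Lb.r r531 (@Lb.r r386 (@Lb.d (nat_lit 0) (nat_lit 100) (nat_lit 74) (@Lb.t (@Lb.fp (nat_lit 9) t308)))))))))
noncomputable def l23427 : Lb := (@Lb.d (nat_lit 0) (nat_lit 105) (nat_lit 420) (@Lb.r r146 (@Lb.r r2385 (@Lb.g g7 (@Lb.g g6 (@Lb.g g5 (@Lb.d (nat_lit 0) (nat_lit 5) (nat_lit 66) (@Lb.t (@Lb.fm (nat_lit 9) t144)))))))))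
noncomputable def l23428 : Lb := (@Lb.r r609 (@Lb.r r363 (@Lb.r r356 (@Lb.r r154 (@Lb.d (nat_lit 32) (nat_lit 512) (nat_lit 34) (@Lb.fp (nat_lit 1) t39))))))
noncomputable def l23429 : Lb := (@Lb.r r323 (@Lb.d (nat_lit 0) (nat_lit 642) (nat_lit 0) (@Lb.g g9 (@Lb.g g10 (@Lb.r r299 (@Lb.r r1352 (@Lb.r r2182 (@Lb.d (nat_lit 522) (nat_lit 70) (nat_lit 0) (@Lb.fm (nat_lit 3) t4574)))))))))
noncomputable def l23430 : Lb := (@Lb.d (nat_lit 0) (nat_lit 384) (nat_lit 645) (@Lb.r r417 (@Lb.r r599 (@Lb.r r424 (@Lb.r r106 (@Lb.g g5 (@Lb.t (@Lb.fp (nat_lit 3) t743))))))))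
noncomputable def l23431 : Lb := (@Lb.r r609 (@Lb.r r363 (@Lb.r r356 (@Lb.r r154 (@Lb.d (nat_lit 37) (nat_lit 6) (nat_lit 32) (@Lb.fp (nat_lit 1) t97))))))
noncomputable def l23432 : Lb := (@Lb.d (nat_lit 0) (nat_lit 514) (nat_lit 2) (@Lb.g g9 (@Lb.g g10 (@Lb.r r2595 (@Lb.r r386 (@Lb.r r2657 (@Lb.d (nat_lit 0) (nat_lit 146) (nat_lit 326) (@Lb.fp (nat_lit 3) t3354))))))))
noncomputable def l23433 : Lb := (@Lb.d (nat_lit 36) (nat_lit 256) (nat_lit 0) (@Lb.g g8 (@Lb.g g9 (@Lb.r r1387 (@Lb.r r582 (@Lb.r r97 (@Lb.r r1412 (@Lb.d (nat_lit 354) (nat_lit 2) (nat_lit 426) (@Lb.fp (nat_lit 3) t51)))))))))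
noncomputable def l23434 : Lb := (@Lb.g g9 (@Lb.r r2343 (@Lb.r r2150 (@Lb.d (nat_lit 72) (nat_lit 353) (nat_lit 512) (@Lb.t (@Lb.fp (nat_lit 3) t3417))))))
noncomputable def l23435 : Lb := (@Lb.g g9 (@Lb.r r2343 (@Lb.r r1096 (@Lb.r r2646 (@Lb.r r289 (@Lb.d (nat_lit 0) (nat_lit 581) (nat_lit 0) (@Lb.t (@Lb.fp (nat_lit 3) t219))))))))
noncomputable def l23436 : Lb := (@Lb.d (nat_lit 0) (nat_lit 258) (nat_lit 0) (@Lb.g g9 (@Lb.r r2339 (@Lb.r r297 (@Lb.r r1096 (@Lb.r r2150 (@Lb.d (nat_lit 0) (nat_lit 81) (nat_lit 132) (@Lb.t (@Lb.fp (nat_lit 3) t219)))))))))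
noncomputable def l23437 : Lb := (@Lb.d (nat_lit 0) (nat_lit 512) (nat_lit 2) (@Lb.g g9 (@Lb.g g10 (@Lb.g g7 (@Lb.r r386 (@Lb.d (nat_lit 273) (nat_lit 10) (nat_lit 41) (@Lb.t (@Lb.fm (nat_lit 9) t1507))))))))
noncomputable def l23438 : Lb := (@Lb.d (nat_lit 130) (nat_lit 258) (nat_lit 66) (@Lb.g g8 (@Lb.g g9 (@Lb.g g10 (@Lb.g g11 (@Lb.r r427 (@Lb.r r1177 (@Lb.r r1626 (@Lb.r r1604 (@Lb.d (nat_lit 153) (nat_lit 97) (nat_lit 656) (@Lb.fp (nat_lit 9) t1606)))))))))))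
noncomputable def l23439 : Lb := (@Lb.d (nat_lit 4) (nat_lit 512) (nat_lit 130) (@Lb.g g8 (@Lb.g g9 (@Lb.g g10 (@Lb.g g11 (@Lb.r r427 (@Lb.r r420 (@Lb.r r102 (@Lb.r r97 (@Lb.r r36 (@Lb.d (nat_lit 2) (nat_lit 2) (nat_lit 74) (@Lb.fm (nat_lit 9) t119))))))))))))
noncomputable def l23440 : Lb := (@Lb.r r70 (@Lb.r r263 (@Lb.d (nat_lit 0) (nat_lit 514) (nat_lit 0) (@Lb.g g8 (@Lb.g g9 (@Lb.r r2149 (@Lb.r r402 (@Lb.r r1351 (@Lb.r r292 (@Lb.d (nat_lit 320) (nat_lit 1) (nat_lit 512) (@Lb.fm (nat_lit 3) t4575)))))))))))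
noncomputable def l23441 : Lb := (@Lb.d (nat_lit 18) (nat_lit 1) (nat_lit 33) (@Lb.r r1096 (@Lb.r r1414 (@Lb.r r1619 (@Lb.g g5 (@Lb.d (nat_lit 0) (nat_lit 17) (nat_lit 0) (@Lb.t (@Lb.fp (nat_lit 3) t447))))))))
noncomputable def l23442 : Lb := (@Lb.d (nat_lit 134) (nat_lit 256) (nat_lit 130) (@Lb.g g8 (@Lb.g g9 (@Lb.g g10 (@Lb.g g11 (@Lb.r r1706 (@Lb.r r1411 (@Lb.r r552 (@Lb.r r1641 (@Lb.r r36 (@Lb.d (nat_lit 618) (nat_lit 73) (nat_lit 649) (@Lb.fm (nat_lit 9) t4576))))))))))))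
noncomputable def l23443 : Lb := (@Lb.d (nat_lit 133) (nat_lit 546) (nat_lit 66) (@Lb.g g8 (@Lb.g g9 (@Lb.g g10 (@Lb.g g11 (@Lb.r r683 (@Lb.r r362 (@Lb.r r360 (@Lb.r r2665 (@Lb.r r36 (@Lb.d (nat_lit 362) (nat_lit 33) (nat_lit 5) (@Lb.fm (nat_lit 9) t4577))))))))))))
noncomputable def l23444 : Lb := (@Lb.d (nat_lit 128) (nat_lit 2) (nat_lit 128) (@Lb.g g9 (@Lb.g g11 (@Lb.r r533 (@Lb.r r292 (@Lb.r r539 (@Lb.r r2178 (@Lb.d (nat_lit 322) (nat_lit 130) (nat_lit 256) (@Lb.fm (nat_lit 3) t4217)))))))))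
noncomputable def l23445 : Lb := (@Lb.d (nat_lit 128) (nat_lit 258) (nat_lit 145) (@Lb.g g9 (@Lb.g g10 (@Lb.g g11 (@Lb.r r533 (@Lb.r r292 (@Lb.r r539 (@Lb.d (nat_lit 322) (nat_lit 130) (nat_lit 273) (@Lb.t (@Lb.fp (nat_lit 9) t4217))))))))))
noncomputable def l23446 : Lb := (@Lb.d (nat_lit 2) (nat_lit 2) (nat_lit 2) (@Lb.g g8 (@Lb.g g9 (@Lb.g g10 (@Lb.g g11 (@Lb.r r683 (@Lb.r r2666 (@Lb.r r2585 (@Lb.d (nat_lit 329) (nat_lit 169) (nat_lit 161) (@Lb.fm (nat_lit 9) t324))))))))))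
noncomputable def l23447 : Lb := (@Lb.d (nat_lit 0) (nat_lit 1) (nat_lit 130) (@Lb.g g8 (@Lb.g g9 (@Lb.g g10 (@Lb.g g11 (@Lb.r r1451 (@Lb.r r98 (@Lb.r r1416 (@Lb.d (nat_lit 257) (nat_lit 2) (nat_lit 34) (@Lb.fm (nat_lit 9) t4578))))))))))
noncomputable def l23448 : Lb := (@Lb.d (nat_lit 2) (nat_lit 265) (nat_lit 1) (@Lb.g g8 (@Lb.g g9 (@Lb.g g10 (@Lb.g g11 (@Lb.r r683 (@Lb.r r1689 (@Lb.r r146 (@Lb.d (nat_lit 614) (nat_lit 69) (nat_lit 408) (@Lb.fp (nat_lit 9) t4579))))))))))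
noncomputable def l23449 : Lb := (@Lb.d (nat_lit 2) (nat_lit 2) (nat_lit 2) (@Lb.g g8 (@Lb.g g9 (@Lb.g g10 (@Lb.g g11 (@Lb.r r683 (@Lb.r r1689 (@Lb.r r146 (@Lb.d (nat_lit 614) (nat_lit 69) (nat_lit 408) (@Lb.fp (nat_lit 9) t632))))))))))
noncomputable def l23450 : Lb := (@Lb.d (nat_lit 10) (nat_lit 512) (nat_lit 66) (@Lb.g g8 (@Lb.g g9 (@Lb.g g10 (@Lb.g g7 (@Lb.r r386 (@Lb.r r152 (@Lb.r r2133 (@Lb.d (nat_lit 18) (nat_lit 132) (nat_lit 169) (@Lb.fm (nat_lit 9) t2893))))))))))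
noncomputable def l23451 : Lb := (@Lb.d (nat_lit 10) (nat_lit 512) (nat_lit 0) (@Lb.g g8 (@Lb.g g11 (@Lb.r r1291 (@Lb.d (nat_lit 517) (nat_lit 0) (nat_lit 0) (@Lb.fm (nat_lit 3) t441))))))
noncomputable def l23452 : Lb := (@Lb.d (nat_lit 405) (nat_lit 674) (nat_lit 321) (@Lb.r r97 (@Lb.r r1362 (@Lb.r r2663 (@Lb.g g7 (@Lb.g g6 (@Lb.g g5 (@Lb.g g8 (@Lb.d (nat_lit 320) (nat_lit 1) (nat_lit 8) (@Lb.fm (nat_lit 9) t4580))))))))))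
noncomputable def l23453 : Lb := (@Lb.d (nat_lit 2) (nat_lit 265) (nat_lit 1) (@Lb.g g8 (@Lb.g g9 (@Lb.g g10 (@Lb.r r683 (@Lb.r r2666 (@Lb.r r2585 (@Lb.d (nat_lit 324) (nat_lit 168) (nat_lit 33) (@Lb.t (@Lb.fp (nat_lit 9) t4581))))))))))
noncomputable def l23454 : Lb := (@Lb.d (nat_lit 132) (nat_lit 282) (nat_lit 129) (@Lb.g g8 (@Lb.g g9 (@Lb.g g10 (@Lb.g g11 (@Lb.r r1287 (@Lb.r r2666 (@Lb.r r2585 (@Lb.r r1156 (@Lb.d (nat_lit 409) (nat_lit 97) (nat_lit 648) (@Lb.fp (nat_lit 9) t4582)))))))))))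
noncomputable def l23455 : Lb := (@Lb.d (nat_lit 2) (nat_lit 514) (nat_lit 2) (@Lb.g g8 (@Lb.g g9 (@Lb.g g10 (@Lb.r r2729 (@Lb.r r2475 (@Lb.r r2468 (@Lb.r r2438 (@Lb.d (nat_lit 609) (nat_lit 5) (nat_lit 673) (@Lb.t (@Lb.fm (nat_lit 9) t590)))))))))))
noncomputable def l23456 : Lb := (@Lb.d (nat_lit 2) (nat_lit 2) (nat_lit 130) (@Lb.g g8 (@Lb.g g9 (@Lb.g g10 (@Lb.g g11 (@Lb.r r2411 (@Lb.r r386 (@Lb.r r104 (@Lb.r r25 (@Lb.d (nat_lit 282) (nat_lit 133) (nat_lit 152) (@Lb.fp (nat_lit 9) t1350)))))))))))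
noncomputable def l23457 : Lb := (@Lb.d (nat_lit 132) (nat_lit 9) (nat_lit 65) (@Lb.g g8 (@Lb.g g9 (@Lb.g g10 (@Lb.g g11 (@Lb.r r1443 (@Lb.r r386 (@Lb.r r1636 (@Lb.r r101 (@Lb.d (nat_lit 276) (nat_lit 73) (nat_lit 649) (@Lb.fp (nat_lit 9) t4583)))))))))))
noncomputable def l23458 : Lb := (@Lb.r r323 (@Lb.d (nat_lit 0) (nat_lit 10) (nat_lit 0) (@Lb.g g9 (@Lb.g g10 (@Lb.r r421 (@Lb.r r2587 (@Lb.r r2378 (@Lb.r r24 (@Lb.d (nat_lit 676) (nat_lit 86) (nat_lit 168) (@Lb.fp (nat_lit 3) t742))))))))))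
noncomputable def l23459 : Lb := (@Lb.r r323 (@Lb.d (nat_lit 132) (nat_lit 512) (nat_lit 2) (@Lb.g g8 (@Lb.g g9 (@Lb.g g10 (@Lb.r r1639 (@Lb.r r2193 (@Lb.r r2642 (@Lb.r r72 (@Lb.d (nat_lit 346) (nat_lit 42) (nat_lit 137) (@Lb.t (@Lb.fm (nat_lit 9) t91))))))))))))
noncomputable def l23460 : Lb := (@Lb.d (nat_lit 418) (nat_lit 22) (nat_lit 346) (@Lb.r r548 (@Lb.r r665 (@Lb.r r1410 (@Lb.g g11 (@Lb.g g6 (@Lb.g g5 (@Lb.g g4 (@Lb.d (nat_lit 150) (nat_lit 26) (nat_lit 385) (@Lb.fp (nat_lit 9) t1009))))))))))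
noncomputable def l23461 : Lb := (@Lb.d (nat_lit 128) (nat_lit 0) (nat_lit 385) (@Lb.g g9 (@Lb.g g10 (@Lb.g g11 (@Lb.r r677 (@Lb.r r162 (@Lb.r r2193 (@Lb.d (nat_lit 256) (nat_lit 65) (nat_lit 384) (@Lb.t (@Lb.fm (nat_lit 9) t3313))))))))))
noncomputable def l23462 : Lb := (@Lb.d (nat_lit 0) (nat_lit 256) (nat_lit 73) (@Lb.g g9 (@Lb.g g10 (@Lb.g g11 (@Lb.r r2658 (@Lb.r r2661 (@Lb.r r2339 (@Lb.d (nat_lit 10) (nat_lit 97) (nat_lit 128) (@Lb.t (@Lb.fp (nat_lit 9) t1649))))))))))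
noncomputable def l23463 : Lb := (@Lb.r r21 (@Lb.d (nat_lit 64) (nat_lit 256) (nat_lit 2) (@Lb.g g8 (@Lb.g g10 (@Lb.g g11 (@Lb.r r579 (@Lb.r r1638 (@Lb.r r97 (@Lb.r r2312 (@Lb.d (nat_lit 329) (nat_lit 145) (nat_lit 64) (@Lb.t (@Lb.fp (nat_lit 9) t261))))))))))))
noncomputable def l23464 : Lb := (@Lb.r r21 (@Lb.d (nat_lit 16) (nat_lit 256) (nat_lit 74) (@Lb.g g8 (@Lb.g g10 (@Lb.g g11 (@Lb.r r2714 (@Lb.r r1691 (@Lb.r r97 (@Lb.r r1544 (@Lb.d (nat_lit 258) (nat_lit 18) (nat_lit 384) (@Lb.t (@Lb.fm (nat_lit 9) t4185))))))))))))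
noncomputable def l23465 : Lb := (@Lb.d (nat_lit 26) (nat_lit 6) (nat_lit 72) (@Lb.g g8 (@Lb.g g9 (@Lb.g g10 (@Lb.g g11 (@Lb.r r547 (@Lb.r r1622 (@Lb.r r1701 (@Lb.r r2152 (@Lb.d (nat_lit 353) (nat_lit 38) (nat_lit 417) (@Lb.fm (nat_lit 9) t4584)))))))))))
noncomputable def l23466 : Lb := (@Lb.d (nat_lit 128) (nat_lit 512) (nat_lit 328) (@Lb.g g11 (@Lb.r r402 (@Lb.d (nat_lit 357) (nat_lit 0) (nat_lit 672) (@Lb.t (@Lb.fm (nat_lit 3) t4585))))))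
noncomputable def l23467 : Lb := (@Lb.r r21 (@Lb.r r70 (@Lb.d (nat_lit 388) (nat_lit 512) (nat_lit 256) (@Lb.g g4 (@Lb.g g7 (@Lb.r r101 (@Lb.r r2450 (@Lb.d (nat_lit 1) (nat_lit 5) (nat_lit 64) (@Lb.fm (nat_lit 3) t3512)))))))))
noncomputable def l23468 : Lb := (@Lb.d (nat_lit 144) (nat_lit 8) (nat_lit 2) (@Lb.g g8 (@Lb.g g10 (@Lb.r r2327 (@Lb.r r553 (@Lb.r r2696 (@Lb.r r2202 (@Lb.d (nat_lit 266) (nat_lit 20) (nat_lit 40) (@Lb.fp (nat_lit 3) t4586)))))))))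
noncomputable def l23469 : Lb := (@Lb.r r277 (@Lb.d (nat_lit 344) (nat_lit 0) (nat_lit 4) (@Lb.g g8 (@Lb.g g10 (@Lb.g g11 (@Lb.r r387 (@Lb.r r101 (@Lb.r r2194 (@Lb.d (nat_lit 609) (nat_lit 101) (nat_lit 21) (@Lb.t (@Lb.fm (nat_lit 9) t1846)))))))))))
noncomputable def l23470 : Lb := (@Lb.r r331 (@Lb.d (nat_lit 32) (nat_lit 521) (nat_lit 1) (@Lb.g g8 (@Lb.g g9 (@Lb.g g10 (@Lb.r r1706 (@Lb.r r1411 (@Lb.r r2404 (@Lb.r r1637 (@Lb.d (nat_lit 105) (nat_lit 9) (nat_lit 533) (@Lb.t (@Lb.fm (nat_lit 9) t4587))))))))))))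
noncomputable def l23471 : Lb := (@Lb.d (nat_lit 138) (nat_lit 512) (nat_lit 0) (@Lb.g g8 (@Lb.r r678 (@Lb.r r661 (@Lb.r r1431 (@Lb.r r2664 (@Lb.d (nat_lit 298) (nat_lit 152) (nat_lit 514) (@Lb.t (@Lb.fp (nat_lit 3) t4588)))))))))
noncomputable def l23472 : Lb := (@Lb.d (nat_lit 0) (nat_lit 2) (nat_lit 0) (@Lb.g g9 (@Lb.r r164 (@Lb.r r1350 (@Lb.r r2467 (@Lb.r r277 (@Lb.r r2212 (@Lb.d (nat_lit 102) (nat_lit 81) (nat_lit 152) (@Lb.t (@Lb.fp (nat_lit 3) t4589))))))))))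
noncomputable def l23473 : Lb := (@Lb.r r101 (@Lb.d (nat_lit 256) (nat_lit 602) (nat_lit 282) (@Lb.fm (nat_lit 1) t1174)))
noncomputable def l23474 : Lb := (@Lb.r r21 (@Lb.d (nat_lit 34) (nat_lit 512) (nat_lit 1) (@Lb.g g8 (@Lb.g g10 (@Lb.r r651 (@Lb.r r293 (@Lb.r r644 (@Lb.r r614 (@Lb.d (nat_lit 148) (nat_lit 32) (nat_lit 134) (@Lb.fm (nat_lit 3) t264))))))))))
noncomputable def l23475 : Lb := (@Lb.g g6 (@Lb.g g7 (@Lb.r r1622 (@Lb.r r2436 (@Lb.r r1291 (@Lb.r r409 (@Lb.d (nat_lit 584) (nat_lit 261) (nat_lit 576) (@Lb.fm (nat_lit 3) t4590))))))))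
noncomputable def l23476 : Lb := (@Lb.r r82 (@Lb.r r275 (@Lb.d (nat_lit 0) (nat_lit 130) (nat_lit 0) (@Lb.g g9 (@Lb.r r2579 (@Lb.r r360 (@Lb.r r582 (@Lb.r r2180 (@Lb.d (nat_lit 0) (nat_lit 33) (nat_lit 384) (@Lb.t (@Lb.fp (nat_lit 3) t3604)))))))))))
noncomputable def l23477 : Lb := (@Lb.d (nat_lit 1) (nat_lit 33) (nat_lit 128) (@Lb.r r609 (@Lb.r r619 (@Lb.r r612 (@Lb.r r346 (@Lb.g g7 (@Lb.g g6 (@Lb.d (nat_lit 0) (nat_lit 0) (nat_lit 65) (@Lb.fm (nat_lit 3) t264)))))))))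
noncomputable def l23478 : Lb := (@Lb.d (nat_lit 0) (nat_lit 264) (nat_lit 130) (@Lb.g g10 (@Lb.g g11 (@Lb.r r1419 (@Lb.r r24 (@Lb.d (nat_lit 256) (nat_lit 66) (nat_lit 9) (@Lb.fp (nat_lit 3) t4591)))))))
noncomputable def l23479 : Lb := (@Lb.d (nat_lit 128) (nat_lit 256) (nat_lit 128) (@Lb.g g11 (@Lb.r r361 (@Lb.r r292 (@Lb.r r539 (@Lb.r r134 (@Lb.d (nat_lit 105) (nat_lit 66) (nat_lit 394) (@Lb.t (@Lb.fm (nat_lit 3) t845)))))))))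
noncomputable def l23480 : Lb := (@Lb.d (nat_lit 393) (nat_lit 577) (nat_lit 581) (@Lb.r r1105 (@Lb.r r2214 (@Lb.r r673 (@Lb.r r683 (@Lb.g g7 (@Lb.g g6 (@Lb.g g5 (@Lb.g g4 (@Lb.d (nat_lit 8) (nat_lit 0) (nat_lit 1) (@Lb.fm (nat_lit 9) t4592)))))))))))
noncomputable def l23481 : Lb := (@Lb.d (nat_lit 10) (nat_lit 264) (nat_lit 66) (@Lb.g g8 (@Lb.g g10 (@Lb.g g11 (@Lb.r r353 (@Lb.r r407 (@Lb.r r612 (@Lb.r r154 (@Lb.d (nat_lit 264) (nat_lit 9) (nat_lit 36) (@Lb.t (@Lb.fm (nat_lit 9) t127)))))))))))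
noncomputable def l23482 : Lb := (@Lb.d (nat_lit 144) (nat_lit 258) (nat_lit 130) (@Lb.g g8 (@Lb.g g9 (@Lb.g g10 (@Lb.g g11 (@Lb.r r2403 (@Lb.r r2474 (@Lb.r r2201 (@Lb.r r2180 (@Lb.d (nat_lit 290) (nat_lit 16) (nat_lit 82) (@Lb.fm (nat_lit 9) t522)))))))))))
noncomputable def l23483 : Lb := (@Lb.d (nat_lit 96) (nat_lit 258) (nat_lit 73) (@Lb.g g8 (@Lb.g g9 (@Lb.g g10 (@Lb.g g11 (@Lb.r r2411 (@Lb.r r2466 (@Lb.r r2197 (@Lb.r r1096 (@Lb.d (nat_lit 133) (nat_lit 152) (nat_lit 326) (@Lb.fp (nat_lit 9) t522)))))))))))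
noncomputable def l23484 : Lb := (@Lb.d (nat_lit 656) (nat_lit 646) (nat_lit 260) (@Lb.r r2395 (@Lb.r r533 (@Lb.r r1444 (@Lb.r r1094 (@Lb.g g7 (@Lb.g g8 (@Lb.d (nat_lit 17) (nat_lit 16) (nat_lit 0) (@Lb.fp (nat_lit 3) t45)))))))))
noncomputable def l23485 : Lb := (@Lb.r r1346 (@Lb.d (nat_lit 2) (nat_lit 512) (nat_lit 512) (@Lb.g g8 (@Lb.g g7 (@Lb.d (nat_lit 0) (nat_lit 0) (nat_lit 64) (@Lb.fp (nat_lit 3) t2))))))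
noncomputable def l23486 : Lb := (@Lb.r r331 (@Lb.d (nat_lit 1) (nat_lit 2) (nat_lit 6) (@Lb.g g8 (@Lb.g g9 (@Lb.g g10 (@Lb.r r1687 (@Lb.r r2597 (@Lb.r r1320 (@Lb.d (nat_lit 165) (nat_lit 169) (nat_lit 406) (@Lb.t (@Lb.fp (nat_lit 9) t522)))))))))))
noncomputable def l23487 : Lb := (@Lb.r r322 (@Lb.d (nat_lit 2) (nat_lit 133) (nat_lit 576) (@Lb.g g8 (@Lb.g g5 (@Lb.g g7 (@Lb.r r1426 (@Lb.r r24 (@Lb.d (nat_lit 0) (nat_lit 134) (nat_lit 5) (@Lb.t (@Lb.fm (nat_lit 9) t3110))))))))))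
noncomputable def l23488 : Lb := (@Lb.d (nat_lit 129) (nat_lit 2) (nat_lit 66) (@Lb.g g8 (@Lb.g g9 (@Lb.g g10 (@Lb.g g11 (@Lb.r r2411 (@Lb.r r386 (@Lb.r r97 (@Lb.r r532 (@Lb.d (nat_lit 356) (nat_lit 41) (nat_lit 520) (@Lb.fp (nat_lit 9) t31)))))))))))
noncomputable def l23489 : Lb := (@Lb.d (nat_lit 2) (nat_lit 0) (nat_lit 512) (@Lb.r r1346 (@Lb.g g7 (@Lb.g g6 (@Lb.g g8 (@Lb.t (@Lb.fm (nat_lit 9) t2)))))))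
noncomputable def l23490 : Lb := (@Lb.d (nat_lit 385) (nat_lit 405) (nat_lit 610) (@Lb.r r2325 (@Lb.r r2390 (@Lb.r r683 (@Lb.g g7 (@Lb.g g6 (@Lb.g g5 (@Lb.g g4 (@Lb.d (nat_lit 8) (nat_lit 24) (nat_lit 10) (@Lb.fm (nat_lit 9) t309))))))))))
noncomputable def l23491 : Lb := (@Lb.d (nat_lit 342) (nat_lit 406) (nat_lit 322) (@Lb.r r2325 (@Lb.r r2390 (@Lb.r r1699 (@Lb.g g7 (@Lb.g g6 (@Lb.g g5 (@Lb.g g4 (@Lb.d (nat_lit 1) (nat_lit 18) (nat_lit 8) (@Lb.fm (nat_lit 9) t1067))))))))))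
noncomputable def l23492 : Lb := (@Lb.d (nat_lit 32) (nat_lit 258) (nat_lit 66) (@Lb.g g9 (@Lb.g g10 (@Lb.g g7 (@Lb.r r297 (@Lb.r r72 (@Lb.r r102 (@Lb.d (nat_lit 153) (nat_lit 85) (nat_lit 264) (@Lb.t (@Lb.fp (nat_lit 9) t1190))))))))))
noncomputable def l23493 : Lb := (@Lb.d (nat_lit 32) (nat_lit 512) (nat_lit 10) (@Lb.g g10 (@Lb.g g7 (@Lb.r r580 (@Lb.r r650 (@Lb.r r409 (@Lb.d (nat_lit 128) (nat_lit 0) (nat_lit 5) (@Lb.fm (nat_lit 3) t1097))))))))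
noncomputable def l23494 : Lb := (@Lb.r r347 (@Lb.d (nat_lit 136) (nat_lit 513) (nat_lit 10) (@Lb.g g8 (@Lb.g g5 (@Lb.g g6 (@Lb.r r423 (@Lb.r r532 (@Lb.d (nat_lit 132) (nat_lit 32) (nat_lit 128) (@Lb.t (@Lb.fm (nat_lit 9) t546))))))))))
noncomputable def l23495 : Lb := (@Lb.g g10 (@Lb.r r323 (@Lb.r r2626 (@Lb.d (nat_lit 0) (nat_lit 0) (nat_lit 85) (@Lb.t (@Lb.fp (nat_lit 3) t2))))))
noncomputable def l23496 : Lb := (@Lb.d (nat_lit 129) (nat_lit 533) (nat_lit 354) (@Lb.r r277 (@Lb.r r342 (@Lb.r r2731 (@Lb.g g7 (@Lb.g g6 (@Lb.g g5 (@Lb.g g4 (@Lb.d (nat_lit 1) (nat_lit 24) (nat_lit 10) (@Lb.fm (nat_lit 9) t309))))))))))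
noncomputable def l23497 : Lb := (@Lb.d (nat_lit 32) (nat_lit 8) (nat_lit 2) (@Lb.g g10 (@Lb.r r1380 (@Lb.r r2715 (@Lb.r r357 (@Lb.r r666 (@Lb.d (nat_lit 69) (nat_lit 41) (nat_lit 165) (@Lb.t (@Lb.fm (nat_lit 3) t127)))))))))
noncomputable def l23498 : Lb := (@Lb.r r323 (@Lb.d (nat_lit 130) (nat_lit 516) (nat_lit 0) (@Lb.g g8 (@Lb.g g9 (@Lb.g g10 (@Lb.r r2473 (@Lb.r r1683 (@Lb.r r1610 (@Lb.r r72 (@Lb.d (nat_lit 641) (nat_lit 64) (nat_lit 617) (@Lb.t (@Lb.fp (nat_lit 9) t261))))))))))))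
noncomputable def l23499 : Lb := (@Lb.r r322 (@Lb.d (nat_lit 6) (nat_lit 0) (nat_lit 8) (@Lb.g g8 (@Lb.g g9 (@Lb.g g11 (@Lb.r r1625 (@Lb.r r98 (@Lb.r r1608 (@Lb.d (nat_lit 610) (nat_lit 37) (nat_lit 384) (@Lb.t (@Lb.fp (nat_lit 9) t590)))))))))))
noncomputable def l23500 : Lb := (@Lb.g g8 (@Lb.g g11 (@Lb.r r1291 (@Lb.d (nat_lit 522) (nat_lit 2) (nat_lit 0) (@Lb.fm (nat_lit 3) t441)))))
noncomputable def l23501 : Lb := (@Lb.r r82 (@Lb.d (nat_lit 0) (nat_lit 16) (nat_lit 0) (@Lb.g g8 (@Lb.g g9 (@Lb.g g11 (@Lb.r r1431 (@Lb.r r386 (@Lb.r r1109 (@Lb.r r24 (@Lb.d (nat_lit 34) (nat_lit 130) (nat_lit 18) (@Lb.t (@Lb.fm (nat_lit 9) t1162))))))))))))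
noncomputable def l23502 : Lb := (@Lb.d (nat_lit 134) (nat_lit 514) (nat_lit 130) (@Lb.g g8 (@Lb.g g9 (@Lb.g g10 (@Lb.g g11 (@Lb.r r1443 (@Lb.r r2726 (@Lb.r r344 (@Lb.r r1429 (@Lb.r r2084 (@Lb.d (nat_lit 104) (nat_lit 166) (nat_lit 641) (@Lb.fp (nat_lit 9) t163))))))))))))
noncomputable def l23503 : Lb := (@Lb.r r263 (@Lb.d (nat_lit 5) (nat_lit 290) (nat_lit 2) (@Lb.g g8 (@Lb.g g9 (@Lb.g g10 (@Lb.r r1443 (@Lb.r r2726 (@Lb.r r2084 (@Lb.r r2389 (@Lb.d (nat_lit 592) (nat_lit 33) (nat_lit 672) (@Lb.t (@Lb.fp (nat_lit 9) t163))))))))))))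
noncomputable def l23504 : Lb := (@Lb.r r82 (@Lb.d (nat_lit 0) (nat_lit 272) (nat_lit 0) (@Lb.g g8 (@Lb.g g9 (@Lb.g g11 (@Lb.r r1431 (@Lb.r r386 (@Lb.r r1109 (@Lb.r r24 (@Lb.d (nat_lit 33) (nat_lit 130) (nat_lit 18) (@Lb.t (@Lb.fm (nat_lit 9) t742))))))))))))
noncomputable def l23505 : Lb := (@Lb.d (nat_lit 0) (nat_lit 512) (nat_lit 4) (@Lb.g g8 (@Lb.g g10 (@Lb.g g11 (@Lb.r r2375 (@Lb.r r2374 (@Lb.r r149 (@Lb.r r2120 (@Lb.d (nat_lit 130) (nat_lit 5) (nat_lit 416) (@Lb.t (@Lb.fp (nat_lit 9) t277)))))))))))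
noncomputable def l23506 : Lb := (@Lb.d (nat_lit 68) (nat_lit 421) (nat_lit 545) (@Lb.r r2452 (@Lb.r r682 (@Lb.r r1623 (@Lb.g g7 (@Lb.g g6 (@Lb.g g5 (@Lb.g g4 (@Lb.d (nat_lit 74) (nat_lit 128) (nat_lit 134) (@Lb.fp (nat_lit 9) t277))))))))))
noncomputable def l23507 : Lb := (@Lb.d (nat_lit 134) (nat_lit 2) (nat_lit 130) (@Lb.g g8 (@Lb.g g9 (@Lb.g g10 (@Lb.g g11 (@Lb.r r1443 (@Lb.r r2726 (@Lb.r r289 (@Lb.r r1636 (@Lb.d (nat_lit 658) (nat_lit 150) (nat_lit 153) (@Lb.fp (nat_lit 9) t853)))))))))))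
noncomputable def l23508 : Lb := (@Lb.d (nat_lit 32) (nat_lit 8) (nat_lit 130) (@Lb.g g10 (@Lb.g g11 (@Lb.r r324 (@Lb.r r651 (@Lb.r r357 (@Lb.r r666 (@Lb.d (nat_lit 74) (nat_lit 37) (nat_lit 134) (@Lb.fp (nat_lit 3) t167)))))))))
noncomputable def l23509 : Lb := (@Lb.d (nat_lit 32) (nat_lit 256) (nat_lit 128) (@Lb.g g10 (@Lb.g g11 (@Lb.r r545 (@Lb.r r344 (@Lb.r r679 (@Lb.r r646 (@Lb.d (nat_lit 128) (nat_lit 134) (nat_lit 132) (@Lb.fm (nat_lit 3) t154)))))))))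
noncomputable def l23510 : Lb := (@Lb.d (nat_lit 69) (nat_lit 537) (nat_lit 68) (@Lb.r r405 (@Lb.r r402 (@Lb.r r615 (@Lb.g g7 (@Lb.g g5 (@Lb.g g8 (@Lb.d (nat_lit 0) (nat_lit 22) (nat_lit 128) (@Lb.r r98 (@Lb.t (@Lb.fm (nat_lit 9) t4593)))))))))))
noncomputable def l23511 : Lb := (@Lb.d (nat_lit 128) (nat_lit 264) (nat_lit 130) (@Lb.g g10 (@Lb.g g11 (@Lb.r r361 (@Lb.r r292 (@Lb.r r539 (@Lb.r r134 (@Lb.d (nat_lit 98) (nat_lit 130) (nat_lit 393) (@Lb.fp (nat_lit 3) t210)))))))))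
noncomputable def l23512 : Lb := (@Lb.d (nat_lit 32) (nat_lit 256) (nat_lit 128) (@Lb.g g10 (@Lb.g g11 (@Lb.r r545 (@Lb.r r344 (@Lb.r r679 (@Lb.r r646 (@Lb.d (nat_lit 130) (nat_lit 136) (nat_lit 133) (@Lb.fm (nat_lit 3) t253)))))))))
noncomputable def l23513 : Lb := (@Lb.d (nat_lit 5) (nat_lit 512) (nat_lit 132) (@Lb.g g4 (@Lb.g g10 (@Lb.g g7 (@Lb.r r421 (@Lb.r r98 (@Lb.d (nat_lit 6) (nat_lit 22) (nat_lit 129) (@Lb.t (@Lb.fp (nat_lit 9) t1831)))))))))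
noncomputable def l23514 : Lb := (@Lb.r r402 (@Lb.r r101 (@Lb.r r24 (@Lb.d (nat_lit 65) (nat_lit 512) (nat_lit 138) (@Lb.fm (nat_lit 1) t556)))))
noncomputable def l23515 : Lb := (@Lb.r r20 (@Lb.d (nat_lit 128) (nat_lit 392) (nat_lit 4) (@Lb.g g5 (@Lb.g g10 (@Lb.g g11 (@Lb.r r264 (@Lb.r r2343 (@Lb.r r154 (@Lb.d (nat_lit 598) (nat_lit 169) (nat_lit 672) (@Lb.t (@Lb.fp (nat_lit 9) t1038)))))))))))
noncomputable def l23516 : Lb := (@Lb.r r273 (@Lb.r r322 (@Lb.d (nat_lit 2) (nat_lit 0) (nat_lit 584) (@Lb.g g8 (@Lb.g g7 (@Lb.r r280 (@Lb.r r101 (@Lb.r r146 (@Lb.d (nat_lit 1) (nat_lit 132) (nat_lit 513) (@Lb.fm (nat_lit 3) t1184))))))))))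
noncomputable def l23517 : Lb := (@Lb.d (nat_lit 1) (nat_lit 256) (nat_lit 617) (@Lb.r r1635 (@Lb.r r601 (@Lb.r r2200 (@Lb.r r2122 (@Lb.g g5 (@Lb.g g4 (@Lb.d (nat_lit 16) (nat_lit 5) (nat_lit 0) (@Lb.fm (nat_lit 3) t3913)))))))))
noncomputable def l23518 : Lb := (@Lb.r r82 (@Lb.d (nat_lit 34) (nat_lit 514) (nat_lit 136) (@Lb.g g8 (@Lb.g g9 (@Lb.g g11 (@Lb.r r2666 (@Lb.r r2725 (@Lb.r r340 (@Lb.r r411 (@Lb.d (nat_lit 514) (nat_lit 137) (nat_lit 601) (@Lb.t (@Lb.fp (nat_lit 9) t2595))))))))))))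
noncomputable def l23519 : Lb := (@Lb.d (nat_lit 2) (nat_lit 258) (nat_lit 130) (@Lb.g g8 (@Lb.g g9 (@Lb.g g10 (@Lb.g g11 (@Lb.r r2705 (@Lb.r r2707 (@Lb.r r360 (@Lb.r r582 (@Lb.r r2180 (@Lb.d (nat_lit 642) (nat_lit 137) (nat_lit 322) (@Lb.fp (nat_lit 9) t2687))))))))))))
noncomputable def l23520 : Lb := (@Lb.d (nat_lit 8) (nat_lit 2) (nat_lit 128) (@Lb.g g9 (@Lb.g g10 (@Lb.g g11 (@Lb.r r387 (@Lb.r r426 (@Lb.r r20 (@Lb.r r105 (@Lb.d (nat_lit 585) (nat_lit 4) (nat_lit 546) (@Lb.t (@Lb.fm (nat_lit 9) t4594)))))))))))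
noncomputable def l23521 : Lb := (@Lb.d (nat_lit 8) (nat_lit 514) (nat_lit 128) (@Lb.g g9 (@Lb.g g10 (@Lb.g g11 (@Lb.r r387 (@Lb.r r426 (@Lb.r r20 (@Lb.r r105 (@Lb.d (nat_lit 360) (nat_lit 9) (nat_lit 514) (@Lb.t (@Lb.fm (nat_lit 9) t2096)))))))))))
noncomputable def l23522 : Lb := (@Lb.r r82 (@Lb.d (nat_lit 0) (nat_lit 256) (nat_lit 128) (@Lb.g g9 (@Lb.g g11 (@Lb.r r291 (@Lb.r r578 (@Lb.r r293 (@Lb.r r24 (@Lb.d (nat_lit 2) (nat_lit 0) (nat_lit 69) (@Lb.fm (nat_lit 3) t2194))))))))))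
noncomputable def l23523 : Lb := (@Lb.d (nat_lit 2) (nat_lit 256) (nat_lit 101) (@Lb.r r1635 (@Lb.r r601 (@Lb.r r2132 (@Lb.r r1162 (@Lb.g g4 (@Lb.d (nat_lit 1) (nat_lit 0) (nat_lit 0) (@Lb.t (@Lb.fm (nat_lit 3) t2842)))))))))
noncomputable def l23524 : Lb := (@Lb.g g6 (@Lb.r r277 (@Lb.r r363 (@Lb.r r356 (@Lb.r r154 (@Lb.d (nat_lit 96) (nat_lit 581) (nat_lit 352) (@Lb.t (@Lb.fp (nat_lit 3) t1080))))))))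
noncomputable def l23525 : Lb := (@Lb.d (nat_lit 292) (nat_lit 388) (nat_lit 80) (@Lb.r r24 (@Lb.r r402 (@Lb.g g7 (@Lb.g g5 (@Lb.d (nat_lit 4) (nat_lit 1) (nat_lit 68) (@Lb.fm (nat_lit 3) t2865)))))))
noncomputable def l23526 : Lb := (@Lb.d (nat_lit 32) (nat_lit 512) (nat_lit 1) (@Lb.g g10 (@Lb.r r289 (@Lb.r r356 (@Lb.r r667 (@Lb.r r586 (@Lb.d (nat_lit 82) (nat_lit 80) (nat_lit 389) (@Lb.t (@Lb.fp (nat_lit 3) t1926)))))))))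
noncomputable def l23527 : Lb := (@Lb.d (nat_lit 96) (nat_lit 2) (nat_lit 74) (@Lb.g g8 (@Lb.g g9 (@Lb.g g10 (@Lb.g g11 (@Lb.r r679 (@Lb.r r1425 (@Lb.r r1106 (@Lb.r r676 (@Lb.d (nat_lit 393) (nat_lit 26) (nat_lit 96) (@Lb.fm (nat_lit 9) t125)))))))))))
noncomputable def l23528 : Lb := (@Lb.r r323 (@Lb.d (nat_lit 6) (nat_lit 512) (nat_lit 0) (@Lb.g g8 (@Lb.g g9 (@Lb.g g10 (@Lb.r r1706 (@Lb.r r1681 (@Lb.r r1555 (@Lb.r r36 (@Lb.d (nat_lit 101) (nat_lit 70) (nat_lit 138) (@Lb.t (@Lb.fm (nat_lit 9) t445))))))))))))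
noncomputable def l23529 : Lb := (@Lb.r r322 (@Lb.d (nat_lit 2) (nat_lit 2) (nat_lit 72) (@Lb.g g8 (@Lb.g g9 (@Lb.g g7 (@Lb.r r360 (@Lb.r r150 (@Lb.r r25 (@Lb.d (nat_lit 106) (nat_lit 4) (nat_lit 10) (@Lb.t (@Lb.fp (nat_lit 9) t670)))))))))))
noncomputable def l23530 : Lb := (@Lb.d (nat_lit 609) (nat_lit 257) (nat_lit 600) (@Lb.r r2468 (@Lb.r r386 (@Lb.g g11 (@Lb.g g6 (@Lb.g g5 (@Lb.g g4 (@Lb.d (nat_lit 4) (nat_lit 1) (nat_lit 1) (@Lb.fp (nat_lit 9) t1221)))))))))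
noncomputable def l23531 : Lb := (@Lb.d (nat_lit 1) (nat_lit 520) (nat_lit 1) (@Lb.g g8 (@Lb.g g10 (@Lb.r r2347 (@Lb.r r2129 (@Lb.r r1450 (@Lb.r r1416 (@Lb.d (nat_lit 408) (nat_lit 129) (nat_lit 394) (@Lb.fm (nat_lit 3) t386)))))))))
noncomputable def l23532 : Lb := (@Lb.d (nat_lit 8) (nat_lit 512) (nat_lit 130) (@Lb.g g9 (@Lb.g g10 (@Lb.g g11 (@Lb.r r423 (@Lb.r r600 (@Lb.r r662 (@Lb.r r2393 (@Lb.d (nat_lit 361) (nat_lit 42) (nat_lit 292) (@Lb.t (@Lb.fm (nat_lit 9) t3230)))))))))))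
noncomputable def l23533 : Lb := (@Lb.d (nat_lit 132) (nat_lit 256) (nat_lit 130) (@Lb.g g8 (@Lb.g g9 (@Lb.g g10 (@Lb.g g11 (@Lb.r r2459 (@Lb.r r1177 (@Lb.r r1626 (@Lb.r r1604 (@Lb.d (nat_lit 153) (nat_lit 130) (nat_lit 650) (@Lb.fp (nat_lit 9) t1886)))))))))))
noncomputable def l23534 : Lb := (@Lb.r r323 (@Lb.d (nat_lit 0) (nat_lit 0) (nat_lit 2) (@Lb.g g9 (@Lb.g g10 (@Lb.r r102 (@Lb.r r404 (@Lb.r r619 (@Lb.r r609 (@Lb.d (nat_lit 10) (nat_lit 145) (nat_lit 64) (@Lb.fm (nat_lit 3) t71))))))))))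
noncomputable def l23535 : Lb := (@Lb.r r21 (@Lb.d (nat_lit 144) (nat_lit 512) (nat_lit 128) (@Lb.g g8 (@Lb.g g10 (@Lb.g g11 (@Lb.r r387 (@Lb.r r132 (@Lb.r r2454 (@Lb.r r97 (@Lb.d (nat_lit 330) (nat_lit 162) (nat_lit 384) (@Lb.t (@Lb.fm (nat_lit 9) t1156))))))))))))
noncomputable def l23536 : Lb := (@Lb.r r323 (@Lb.d (nat_lit 2) (nat_lit 34) (nat_lit 2) (@Lb.g g8 (@Lb.g g9 (@Lb.g g10 (@Lb.r r599 (@Lb.r r74 (@Lb.r r296 (@Lb.r r409 (@Lb.d (nat_lit 149) (nat_lit 162) (nat_lit 70) (@Lb.t (@Lb.fm (nat_lit 9) t119))))))))))))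
noncomputable def l23537 : Lb := (@Lb.d (nat_lit 132) (nat_lit 512) (nat_lit 130) (@Lb.g g8 (@Lb.g g9 (@Lb.g g10 (@Lb.g g11 (@Lb.r r1706 (@Lb.r r1411 (@Lb.r r1177 (@Lb.r r1176 (@Lb.d (nat_lit 538) (nat_lit 85) (nat_lit 665) (@Lb.fp (nat_lit 9) t1047)))))))))))
noncomputable def l23538 : Lb := (@Lb.d (nat_lit 0) (nat_lit 514) (nat_lit 130) (@Lb.g g8 (@Lb.g g9 (@Lb.g g10 (@Lb.g g11 (@Lb.r r427 (@Lb.r r145 (@Lb.r r356 (@Lb.r r154 (@Lb.r r132 (@Lb.d (nat_lit 9) (nat_lit 9) (nat_lit 1) (@Lb.fm (nat_lit 9) t61))))))))))))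
noncomputable def l23539 : Lb := (@Lb.d (nat_lit 128) (nat_lit 257) (nat_lit 128) (@Lb.g g9 (@Lb.g g11 (@Lb.r r170 (@Lb.r r264 (@Lb.r r391 (@Lb.r r529 (@Lb.d (nat_lit 258) (nat_lit 40) (nat_lit 361) (@Lb.fm (nat_lit 3) t4595)))))))))
noncomputable def l23540 : Lb := (@Lb.d (nat_lit 8) (nat_lit 514) (nat_lit 136) (@Lb.g g9 (@Lb.g g11 (@Lb.r r402 (@Lb.r r24 (@Lb.d (nat_lit 536) (nat_lit 72) (nat_lit 160) (@Lb.fm (nat_lit 3) t4596)))))))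
noncomputable def l23541 : Lb := (@Lb.d (nat_lit 9) (nat_lit 514) (nat_lit 130) (@Lb.g g8 (@Lb.g g9 (@Lb.g g10 (@Lb.g g11 (@Lb.r r2443 (@Lb.r r420 (@Lb.r r1173 (@Lb.r r1110 (@Lb.r r2212 (@Lb.d (nat_lit 9) (nat_lit 161) (nat_lit 676) (@Lb.fp (nat_lit 9) t660))))))))))))
noncomputable def l23542 : Lb := (@Lb.d (nat_lit 546) (nat_lit 256) (nat_lit 64) (@Lb.r r1416 (@Lb.r r1170 (@Lb.r r2145 (@Lb.g g7 (@Lb.d (nat_lit 64) (nat_lit 32) (nat_lit 576) (@Lb.t (@Lb.fp (nat_lit 3) t472))))))))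
noncomputable def l23543 : Lb := (@Lb.r r1284 (@Lb.g g7 (@Lb.r r2438 (@Lb.r r1627 (@Lb.r r289 (@Lb.d (nat_lit 0) (nat_lit 0) (nat_lit 16) (@Lb.t (@Lb.fp (nat_lit 3) t4597))))))))
noncomputable def l23544 : Lb := (@Lb.d (nat_lit 64) (nat_lit 258) (nat_lit 137) (@Lb.g g8 (@Lb.g g9 (@Lb.g g10 (@Lb.g g11 (@Lb.r r1667 (@Lb.r r326 (@Lb.r r2344 (@Lb.r r25 (@Lb.d (nat_lit 522) (nat_lit 84) (nat_lit 649) (@Lb.fp (nat_lit 9) t773)))))))))))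
noncomputable def l23545 : Lb := (@Lb.d (nat_lit 2) (nat_lit 33) (nat_lit 514) (@Lb.g g8 (@Lb.g g9 (@Lb.g g10 (@Lb.g g7 (@Lb.r r418 (@Lb.r r296 (@Lb.r r409 (@Lb.d (nat_lit 150) (nat_lit 22) (nat_lit 393) (@Lb.fm (nat_lit 9) t1001))))))))))
noncomputable def l23546 : Lb := (@Lb.r r21 (@Lb.d (nat_lit 17) (nat_lit 0) (nat_lit 128) (@Lb.g g8 (@Lb.g g10 (@Lb.g g11 (@Lb.r r647 (@Lb.r r402 (@Lb.r r97 (@Lb.r r548 (@Lb.d (nat_lit 676) (nat_lit 21) (nat_lit 144) (@Lb.t (@Lb.fp (nat_lit 9) t262))))))))))))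
noncomputable def l23547 : Lb := (@Lb.d (nat_lit 2) (nat_lit 33) (nat_lit 130) (@Lb.g g8 (@Lb.g g9 (@Lb.g g10 (@Lb.g g11 (@Lb.r r1706 (@Lb.r r676 (@Lb.r r551 (@Lb.r r533 (@Lb.r r1060 (@Lb.d (nat_lit 393) (nat_lit 8) (nat_lit 585) (@Lb.fp (nat_lit 9) t597))))))))))))
noncomputable def l23548 : Lb := (@Lb.d (nat_lit 72) (nat_lit 89) (nat_lit 356) (@Lb.r r2453 (@Lb.r r2450 (@Lb.r r1639 (@Lb.g g7 (@Lb.g g5 (@Lb.g g8 (@Lb.d (nat_lit 10) (nat_lit 17) (nat_lit 128) (@Lb.r r98 (@Lb.t (@Lb.fm (nat_lit 9) t4598)))))))))))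
noncomputable def l23549 : Lb := (@Lb.d (nat_lit 136) (nat_lit 529) (nat_lit 2) (@Lb.g g8 (@Lb.g g9 (@Lb.g g10 (@Lb.g g11 (@Lb.r r1443 (@Lb.r r2722 (@Lb.r r420 (@Lb.r r2725 (@Lb.d (nat_lit 677) (nat_lit 16) (nat_lit 677) (@Lb.fp (nat_lit 9) t1039)))))))))))
noncomputable def l23550 : Lb := (@Lb.r r21 (@Lb.r r70 (@Lb.d (nat_lit 65) (nat_lit 0) (nat_lit 0) (@Lb.g g8 (@Lb.g g11 (@Lb.r r1415 (@Lb.r r402 (@Lb.r r97 (@Lb.r r1044 (@Lb.d (nat_lit 518) (nat_lit 65) (nat_lit 0) (@Lb.fm (nat_lit 3) t512)))))))))))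
noncomputable def l23551 : Lb := (@Lb.d (nat_lit 262) (nat_lit 338) (nat_lit 266) (@Lb.r r2323 (@Lb.r r2657 (@Lb.r r1366 (@Lb.g g7 (@Lb.g g6 (@Lb.g g5 (@Lb.g g4 (@Lb.d (nat_lit 1) (nat_lit 18) (nat_lit 129) (@Lb.fm (nat_lit 9) t473))))))))))
noncomputable def l23552 : Lb := (@Lb.r r21 (@Lb.r r70 (@Lb.r r263 (@Lb.d (nat_lit 10) (nat_lit 0) (nat_lit 0) (@Lb.g g8 (@Lb.r r1579 (@Lb.r r1045 (@Lb.r r360 (@Lb.r r2182 (@Lb.d (nat_lit 0) (nat_lit 168) (nat_lit 682) (@Lb.t (@Lb.fm (nat_lit 3) t68))))))))))))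
noncomputable def l23553 : Lb := (@Lb.d (nat_lit 2) (nat_lit 258) (nat_lit 2) (@Lb.g g8 (@Lb.g g9 (@Lb.g g10 (@Lb.r r1555 (@Lb.r r386 (@Lb.r r97 (@Lb.r r24 (@Lb.d (nat_lit 10) (nat_lit 0) (nat_lit 84) (@Lb.t (@Lb.fm (nat_lit 9) t309)))))))))))
noncomputable def l23554 : Lb := (@Lb.d (nat_lit 4) (nat_lit 1) (nat_lit 0) (@Lb.r r289 (@Lb.r r535 (@Lb.r r328 (@Lb.r r326 (@Lb.g g7 (@Lb.g g6 (@Lb.g g5 (@Lb.d (nat_lit 0) (nat_lit 0) (nat_lit 134) (@Lb.t (@Lb.fm (nat_lit 9) t68)))))))))))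
noncomputable def l23555 : Lb := (@Lb.d (nat_lit 1) (nat_lit 257) (nat_lit 0) (@Lb.r r579 (@Lb.r r402 (@Lb.g g5 (@Lb.d (nat_lit 4) (nat_lit 6) (nat_lit 0) (@Lb.t (@Lb.fm (nat_lit 3) t1037)))))))
noncomputable def l23556 : Lb := (@Lb.r r90 (@Lb.r r283 (@Lb.d (nat_lit 38) (nat_lit 416) (nat_lit 0) (@Lb.g g8 (@Lb.g g9 (@Lb.r r1555 (@Lb.r r70 (@Lb.r r1668 (@Lb.d (nat_lit 418) (nat_lit 2) (nat_lit 678) (@Lb.fp (nat_lit 3) t86))))))))))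
noncomputable def l23557 : Lb := (@Lb.d (nat_lit 128) (nat_lit 258) (nat_lit 73) (@Lb.g g8 (@Lb.g g9 (@Lb.g g10 (@Lb.g g11 (@Lb.r r343 (@Lb.r r2406 (@Lb.r r145 (@Lb.r r1604 (@Lb.d (nat_lit 666) (nat_lit 2) (nat_lit 666) (@Lb.fp (nat_lit 9) t394)))))))))))
noncomputable def l23558 : Lb := (@Lb.r r82 (@Lb.d (nat_lit 128) (nat_lit 289) (nat_lit 64) (@Lb.g g8 (@Lb.g g9 (@Lb.g g11 (@Lb.r r343 (@Lb.r r1690 (@Lb.r r2469 (@Lb.r r1604 (@Lb.d (nat_lit 642) (nat_lit 70) (nat_lit 649) (@Lb.t (@Lb.fm (nat_lit 9) t1169))))))))))))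
noncomputable def l23559 : Lb := (@Lb.r r82 (@Lb.d (nat_lit 130) (nat_lit 578) (nat_lit 0) (@Lb.g g8 (@Lb.g g9 (@Lb.r r263 (@Lb.r r98 (@Lb.r r548 (@Lb.d (nat_lit 138) (nat_lit 17) (nat_lit 128) (@Lb.fm (nat_lit 3) t4599)))))))))
noncomputable def l23560 : Lb := (@Lb.d (nat_lit 618) (nat_lit 422) (nat_lit 385) (@Lb.r r101 (@Lb.r r24 (@Lb.r r1618 (@Lb.g g11 (@Lb.g g6 (@Lb.g g5 (@Lb.d (nat_lit 4) (nat_lit 1) (nat_lit 72) (@Lb.t (@Lb.fm (nat_lit 9) t2474))))))))))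
noncomputable def l23561 : Lb := (@Lb.d (nat_lit 0) (nat_lit 9) (nat_lit 130) (@Lb.g g9 (@Lb.g g10 (@Lb.g g11 (@Lb.r r2723 (@Lb.r r2453 (@Lb.r r356 (@Lb.r r154 (@Lb.d (nat_lit 665) (nat_lit 10) (nat_lit 345) (@Lb.t (@Lb.fm (nat_lit 9) t525)))))))))))
noncomputable def l23562 : Lb := (@Lb.d (nat_lit 18) (nat_lit 522) (nat_lit 130) (@Lb.g g8 (@Lb.g g9 (@Lb.g g10 (@Lb.g g11 (@Lb.r r1451 (@Lb.r r392 (@Lb.r r2138 (@Lb.r r1173 (@Lb.r r1060 (@Lb.d (nat_lit 162) (nat_lit 9) (nat_lit 646) (@Lb.fm (nat_lit 9) t1857))))))))))))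
noncomputable def l23563 : Lb := (@Lb.d (nat_lit 280) (nat_lit 68) (nat_lit 18) (@Lb.r r24 (@Lb.r r82 (@Lb.r r275 (@Lb.g g9 (@Lb.d (nat_lit 8) (nat_lit 69) (nat_lit 0) (@Lb.r r291 (@Lb.r r98 (@Lb.t (@Lb.fm (nat_lit 3) t1993))))))))))
noncomputable def l23564 : Lb := (@Lb.d (nat_lit 0) (nat_lit 512) (nat_lit 136) (@Lb.g g11 (@Lb.r r402 (@Lb.r r1379 (@Lb.r r101 (@Lb.d (nat_lit 400) (nat_lit 24) (nat_lit 416) (@Lb.t (@Lb.fp (nat_lit 3) t2158))))))))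
noncomputable def l23565 : Lb := (@Lb.d (nat_lit 160) (nat_lit 514) (nat_lit 130) (@Lb.g g9 (@Lb.g g10 (@Lb.g g11 (@Lb.r r264 (@Lb.r r327 (@Lb.r r618 (@Lb.r r97 (@Lb.d (nat_lit 21) (nat_lit 70) (nat_lit 585) (@Lb.t (@Lb.fm (nat_lit 9) t4600)))))))))))
noncomputable def l23566 : Lb := (@Lb.r r323 (@Lb.d (nat_lit 133) (nat_lit 256) (nat_lit 18) (@Lb.g g8 (@Lb.g g9 (@Lb.g g10 (@Lb.r r2345 (@Lb.r r1431 (@Lb.r r2660 (@Lb.d (nat_lit 666) (nat_lit 90) (nat_lit 342) (@Lb.t (@Lb.fp (nat_lit 9) t596)))))))))))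
noncomputable def l23567 : Lb := (@Lb.r r81 (@Lb.d (nat_lit 0) (nat_lit 288) (nat_lit 129) (@Lb.g g6 (@Lb.g g11 (@Lb.r r293 (@Lb.r r603 (@Lb.r r24 (@Lb.d (nat_lit 129) (nat_lit 5) (nat_lit 1) (@Lb.fm (nat_lit 3) t3216)))))))))
noncomputable def l23568 : Lb := (@Lb.d (nat_lit 34) (nat_lit 388) (nat_lit 33) (@Lb.r r2133 (@Lb.r r1186 (@Lb.r r1287 (@Lb.g g6 (@Lb.g g5 (@Lb.g g4 (@Lb.d (nat_lit 1) (nat_lit 5) (nat_lit 2) (@Lb.r r291 (@Lb.t (@Lb.fm (nat_lit 9) t2578)))))))))))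
noncomputable def l23569 : Lb := (@Lb.d (nat_lit 138) (nat_lit 0) (nat_lit 0) (@Lb.g g8 (@Lb.r r1434 (@Lb.r r615 (@Lb.r r1621 (@Lb.r r164 (@Lb.d (nat_lit 41) (nat_lit 165) (nat_lit 642) (@Lb.t (@Lb.fp (nat_lit 3) t1593)))))))))
noncomputable def l23570 : Lb := (@Lb.d (nat_lit 33) (nat_lit 2) (nat_lit 73) (@Lb.g g8 (@Lb.g g9 (@Lb.g g10 (@Lb.g g11 (@Lb.r r2731 (@Lb.r r2724 (@Lb.r r2182 (@Lb.r r97 (@Lb.d (nat_lit 545) (nat_lit 34) (nat_lit 146) (@Lb.fm (nat_lit 9) t622)))))))))))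
noncomputable def l23571 : Lb := (@Lb.r r322 (@Lb.d (nat_lit 4) (nat_lit 514) (nat_lit 576) (@Lb.g g9 (@Lb.g g7 (@Lb.r r660 (@Lb.r r358 (@Lb.r r337 (@Lb.d (nat_lit 0) (nat_lit 161) (nat_lit 581) (@Lb.fp (nat_lit 3) t259)))))))))
noncomputable def l23572 : Lb := (@Lb.d (nat_lit 258) (nat_lit 512) (nat_lit 277) (@Lb.r r84 (@Lb.r r106 (@Lb.r r601 (@Lb.r r536 (@Lb.g g11 (@Lb.g g6 (@Lb.g g5 (@Lb.g g4 (@Lb.d (nat_lit 0) (nat_lit 1) (nat_lit 129) (@Lb.fp (nat_lit 9) t980)))))))))))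
noncomputable def l23573 : Lb := (@Lb.d (nat_lit 137) (nat_lit 1) (nat_lit 0) (@Lb.g g8 (@Lb.g g9 (@Lb.r r343 (@Lb.r r162 (@Lb.r r145 (@Lb.r r612 (@Lb.d (nat_lit 154) (nat_lit 16) (nat_lit 136) (@Lb.fp (nat_lit 3) t51)))))))))
noncomputable def l23574 : Lb := (@Lb.r r101 (@Lb.d (nat_lit 384) (nat_lit 592) (nat_lit 528) (@Lb.fm (nat_lit 1) t4601)))
noncomputable def l23575 : Lb := (@Lb.r r283 (@Lb.d (nat_lit 161) (nat_lit 4) (nat_lit 5) (@Lb.g g8 (@Lb.g g9 (@Lb.g g6 (@Lb.r r2659 (@Lb.r r1129 (@Lb.r r360 (@Lb.d (nat_lit 166) (nat_lit 42) (nat_lit 324) (@Lb.t (@Lb.fm (nat_lit 9) t148)))))))))))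
noncomputable def l23576 : Lb := (@Lb.d (nat_lit 137) (nat_lit 544) (nat_lit 17) (@Lb.g g8 (@Lb.g g5 (@Lb.g g10 (@Lb.r r2343 (@Lb.r r1560 (@Lb.d (nat_lit 342) (nat_lit 98) (nat_lit 642) (@Lb.t (@Lb.fm (nat_lit 9) t468)))))))))
noncomputable def l23577 : Lb := (@Lb.d (nat_lit 0) (nat_lit 258) (nat_lit 130) (@Lb.g g9 (@Lb.g g10 (@Lb.g g11 (@Lb.r r642 (@Lb.r r387 (@Lb.r r104 (@Lb.r r25 (@Lb.d (nat_lit 22) (nat_lit 8) (nat_lit 90) (@Lb.t (@Lb.fm (nat_lit 9) t40)))))))))))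
noncomputable def l23578 : Lb := (@Lb.d (nat_lit 5) (nat_lit 4) (nat_lit 65) (@Lb.r r609 (@Lb.r r363 (@Lb.r r328 (@Lb.g g7 (@Lb.g g6 (@Lb.g g5 (@Lb.d (nat_lit 20) (nat_lit 1) (nat_lit 81) (@Lb.t (@Lb.fp (nat_lit 9) t1043))))))))))
noncomputable def l23579 : Lb := (@Lb.d (nat_lit 6) (nat_lit 0) (nat_lit 128) (@Lb.g g8 (@Lb.g g11 (@Lb.r r1419 (@Lb.r r1098 (@Lb.r r1049 (@Lb.d (nat_lit 358) (nat_lit 129) (nat_lit 537) (@Lb.fm (nat_lit 3) t284))))))))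
noncomputable def l23580 : Lb := (@Lb.d (nat_lit 4) (nat_lit 512) (nat_lit 9) (@Lb.g g8 (@Lb.g g9 (@Lb.g g10 (@Lb.g g7 (@Lb.r r386 (@Lb.r r97 (@Lb.r r24 (@Lb.d (nat_lit 0) (nat_lit 10) (nat_lit 137) (@Lb.fp (nat_lit 9) t40))))))))))
noncomputable def l23581 : Lb := (@Lb.d (nat_lit 8) (nat_lit 256) (nat_lit 73) (@Lb.g g8 (@Lb.g g10 (@Lb.g g11 (@Lb.r r659 (@Lb.r r578 (@Lb.r r2085 (@Lb.r r2068 (@Lb.d (nat_lit 598) (nat_lit 64) (nat_lit 408) (@Lb.t (@Lb.fm (nat_lit 9) t1025)))))))))))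
noncomputable def l23582 : Lb := (@Lb.d (nat_lit 0) (nat_lit 512) (nat_lit 73) (@Lb.g g10 (@Lb.g g11 (@Lb.r r659 (@Lb.r r578 (@Lb.r r24 (@Lb.r r1045 (@Lb.r r36 (@Lb.d (nat_lit 85) (nat_lit 1) (nat_lit 408) (@Lb.fm (nat_lit 3) t1025))))))))))
noncomputable def l23583 : Lb := (@Lb.d (nat_lit 400) (nat_lit 592) (nat_lit 661) (@Lb.r r81 (@Lb.r r2402 (@Lb.r r89 (@Lb.r r2691 (@Lb.g g7 (@Lb.g g6 (@Lb.g g5 (@Lb.g g8 (@Lb.d (nat_lit 2) (nat_lit 1) (nat_lit 134) (@Lb.fp (nat_lit 9) t2445)))))))))))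
noncomputable def l23584 : Lb := (@Lb.r r275 (@Lb.d (nat_lit 0) (nat_lit 522) (nat_lit 0) (@Lb.g g9 (@Lb.r r602 (@Lb.r r2635 (@Lb.r r1553 (@Lb.d (nat_lit 576) (nat_lit 98) (nat_lit 64) (@Lb.t (@Lb.fm (nat_lit 3) t927)))))))))
noncomputable def l23585 : Lb := (@Lb.d (nat_lit 24) (nat_lit 597) (nat_lit 34) (@Lb.r r1384 (@Lb.r r150 (@Lb.r r361 (@Lb.g g11 (@Lb.g g5 (@Lb.g g4 (@Lb.d (nat_lit 17) (nat_lit 1) (nat_lit 384) (@Lb.r r578 (@Lb.t (@Lb.fp (nat_lit 9) t1444)))))))))))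
noncomputable def l23586 : Lb := (@Lb.d (nat_lit 0) (nat_lit 256) (nat_lit 137) (@Lb.g g9 (@Lb.g g10 (@Lb.g g11 (@Lb.r r2691 (@Lb.r r2658 (@Lb.d (nat_lit 0) (nat_lit 37) (nat_lit 297) (@Lb.t (@Lb.fp (nat_lit 9) t71)))))))))
noncomputable def l23587 : Lb := (@Lb.r r82 (@Lb.d (nat_lit 2) (nat_lit 266) (nat_lit 128) (@Lb.g g8 (@Lb.g g9 (@Lb.g g11 (@Lb.r r363 (@Lb.r r150 (@Lb.r r85 (@Lb.d (nat_lit 4) (nat_lit 8) (nat_lit 137) (@Lb.t (@Lb.fp (nat_lit 9) t594)))))))))))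
noncomputable def l23588 : Lb := (@Lb.d (nat_lit 2) (nat_lit 0) (nat_lit 130) (@Lb.g g8 (@Lb.g g9 (@Lb.g g10 (@Lb.g g11 (@Lb.r r292 (@Lb.r r539 (@Lb.r r405 (@Lb.r r342 (@Lb.r r676 (@Lb.d (nat_lit 9) (nat_lit 2) (nat_lit 18) (@Lb.fm (nat_lit 9) t2))))))))))))
noncomputable def l23589 : Lb := (@Lb.d (nat_lit 4) (nat_lit 512) (nat_lit 130) (@Lb.g g8 (@Lb.g g9 (@Lb.g g10 (@Lb.g g11 (@Lb.r r148 (@Lb.r r102 (@Lb.r r357 (@Lb.r r667 (@Lb.r r644 (@Lb.d (nat_lit 9) (nat_lit 2) (nat_lit 128) (@Lb.fp (nat_lit 9) t2))))))))))))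
noncomputable def l23590 : Lb := (@Lb.d (nat_lit 2) (nat_lit 514) (nat_lit 73) (@Lb.g g8 (@Lb.g g9 (@Lb.g g10 (@Lb.g g11 (@Lb.r r427 (@Lb.r r677 (@Lb.r r340 (@Lb.r r170 (@Lb.d (nat_lit 516) (nat_lit 8) (nat_lit 34) (@Lb.fp (nat_lit 9) t221)))))))))))
noncomputable def l23591 : Lb := (@Lb.d (nat_lit 0) (nat_lit 256) (nat_lit 128) (@Lb.g g10 (@Lb.g g11 (@Lb.r r2626 (@Lb.r r579 (@Lb.d (nat_lit 0) (nat_lit 0) (nat_lit 640) (@Lb.fp (nat_lit 3) t2)))))))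
noncomputable def l23592 : Lb := (@Lb.d (nat_lit 0) (nat_lit 0) (nat_lit 64) (@Lb.g g7 (@Lb.r r24 (@Lb.r r101 (@Lb.d (nat_lit 0) (nat_lit 133) (nat_lit 69) (@Lb.t (@Lb.fm (nat_lit 3) t126)))))))
noncomputable def l23593 : Lb := (@Lb.d (nat_lit 130) (nat_lit 290) (nat_lit 0) (@Lb.g g8 (@Lb.g g9 (@Lb.r r263 (@Lb.r r2178 (@Lb.r r536 (@Lb.r r2085 (@Lb.d (nat_lit 26) (nat_lit 145) (nat_lit 401) (@Lb.fp (nat_lit 3) t3014)))))))))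
noncomputable def l23594 : Lb := (@Lb.d (nat_lit 2) (nat_lit 256) (nat_lit 130) (@Lb.g g8 (@Lb.g g9 (@Lb.g g10 (@Lb.g g11 (@Lb.r r1451 (@Lb.r r409 (@Lb.r r2138 (@Lb.r r1169 (@Lb.d (nat_lit 521) (nat_lit 2) (nat_lit 16) (@Lb.fp (nat_lit 9) t221)))))))))))
noncomputable def l23595 : Lb := (@Lb.r r323 (@Lb.d (nat_lit 1) (nat_lit 32) (nat_lit 2) (@Lb.g g8 (@Lb.g g9 (@Lb.g g10 (@Lb.r r2647 (@Lb.r r74 (@Lb.r r1313 (@Lb.d (nat_lit 544) (nat_lit 169) (nat_lit 38) (@Lb.t (@Lb.fm (nat_lit 9) t221)))))))))))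
noncomputable def l23596 : Lb := (@Lb.r r323 (@Lb.d (nat_lit 2) (nat_lit 544) (nat_lit 2) (@Lb.g g8 (@Lb.g g9 (@Lb.g g10 (@Lb.r r2647 (@Lb.r r74 (@Lb.r r1313 (@Lb.d (nat_lit 544) (nat_lit 169) (nat_lit 38) (@Lb.t (@Lb.fm (nat_lit 9) t221)))))))))))
noncomputable def l23597 : Lb := (@Lb.d (nat_lit 130) (nat_lit 2) (nat_lit 2) (@Lb.g g8 (@Lb.g g9 (@Lb.g g10 (@Lb.r r643 (@Lb.r r1194 (@Lb.r r425 (@Lb.r r424 (@Lb.d (nat_lit 149) (nat_lit 148) (nat_lit 330) (@Lb.t (@Lb.fm (nat_lit 9) t3409)))))))))))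
noncomputable def l23598 : Lb := (@Lb.d (nat_lit 0) (nat_lit 0) (nat_lit 136) (@Lb.g g11 (@Lb.r r402 (@Lb.r r101 (@Lb.d (nat_lit 577) (nat_lit 98) (nat_lit 640) (@Lb.t (@Lb.fp (nat_lit 3) t983)))))))
noncomputable def l23599 : Lb := (@Lb.r r323 (@Lb.d (nat_lit 2) (nat_lit 258) (nat_lit 1) (@Lb.g g8 (@Lb.g g9 (@Lb.g g6 (@Lb.r r515 (@Lb.r r2153 (@Lb.r r36 (@Lb.d (nat_lit 297) (nat_lit 2) (nat_lit 68) (@Lb.t (@Lb.fp (nat_lit 9) t40)))))))))))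
noncomputable def l23600 : Lb := (@Lb.d (nat_lit 32) (nat_lit 0) (nat_lit 2) (@Lb.g g6 (@Lb.r r289 (@Lb.r r664 (@Lb.r r411 (@Lb.r r330 (@Lb.d (nat_lit 105) (nat_lit 2) (nat_lit 90) (@Lb.t (@Lb.fm (nat_lit 3) t40)))))))))
noncomputable def l23601 : Lb := (@Lb.r r292 (@Lb.r r539 (@Lb.r r2178 (@Lb.r r405 (@Lb.r r2596 (@Lb.d (nat_lit 1) (nat_lit 512) (nat_lit 16) (@Lb.fp (nat_lit 1) t2982)))))))
noncomputable def l23602 : Lb := (@Lb.g g7 (@Lb.r r1543 (@Lb.r r2376 (@Lb.r r1158 (@Lb.r r1169 (@Lb.t (@Lb.fp (nat_lit 3) t296)))))))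
noncomputable def l23603 : Lb := (@Lb.d (nat_lit 1) (nat_lit 256) (nat_lit 128) (@Lb.g g8 (@Lb.g g11 (@Lb.r r2375 (@Lb.r r1668 (@Lb.r r1158 (@Lb.r r1169 (@Lb.d (nat_lit 528) (nat_lit 0) (nat_lit 138) (@Lb.fp (nat_lit 3) t296)))))))))
noncomputable def l23604 : Lb := (@Lb.d (nat_lit 8) (nat_lit 521) (nat_lit 1) (@Lb.g g9 (@Lb.g g10 (@Lb.g g11 (@Lb.r r1703 (@Lb.r r2392 (@Lb.r r1190 (@Lb.r r1169 (@Lb.d (nat_lit 5) (nat_lit 72) (nat_lit 169) (@Lb.t (@Lb.fp (nat_lit 9) t264)))))))))))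
noncomputable def l23605 : Lb := (@Lb.d (nat_lit 0) (nat_lit 256) (nat_lit 66) (@Lb.g g10 (@Lb.g g7 (@Lb.r r386 (@Lb.r r101 (@Lb.r r24 (@Lb.d (nat_lit 354) (nat_lit 0) (nat_lit 521) (@Lb.fm (nat_lit 3) t166))))))))
noncomputable def l23606 : Lb := (@Lb.r r21 (@Lb.d (nat_lit 33) (nat_lit 512) (nat_lit 129) (@Lb.g g8 (@Lb.g g6 (@Lb.g g11 (@Lb.r r529 (@Lb.r r1627 (@Lb.r r1604 (@Lb.d (nat_lit 676) (nat_lit 1) (nat_lit 664) (@Lb.t (@Lb.fm (nat_lit 9) t1108)))))))))))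
noncomputable def l23607 : Lb := (@Lb.d (nat_lit 6) (nat_lit 89) (nat_lit 96) (@Lb.r r289 (@Lb.r r279 (@Lb.r r612 (@Lb.r r346 (@Lb.g g7 (@Lb.g g6 (@Lb.g g5 (@Lb.d (nat_lit 4) (nat_lit 1) (nat_lit 65) (@Lb.t (@Lb.fm (nat_lit 9) t594)))))))))))
noncomputable def l23608 : Lb := (@Lb.d (nat_lit 2) (nat_lit 290) (nat_lit 72) (@Lb.g g8 (@Lb.g g9 (@Lb.g g11 (@Lb.r r2649 (@Lb.r r1378 (@Lb.r r403 (@Lb.d (nat_lit 33) (nat_lit 21) (nat_lit 152) (@Lb.t (@Lb.fm (nat_lit 9) t406))))))))))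
noncomputable def l23609 : Lb := (@Lb.r r82 (@Lb.d (nat_lit 33) (nat_lit 514) (nat_lit 128) (@Lb.g g8 (@Lb.g g9 (@Lb.g g11 (@Lb.r r363 (@Lb.r r582 (@Lb.r r388 (@Lb.d (nat_lit 598) (nat_lit 2) (nat_lit 105) (@Lb.t (@Lb.fm (nat_lit 9) t2144)))))))))))
noncomputable def l23610 : Lb := (@Lb.r r82 (@Lb.r r263 (@Lb.d (nat_lit 2) (nat_lit 514) (nat_lit 0) (@Lb.g g8 (@Lb.g g9 (@Lb.r r1561 (@Lb.r r1555 (@Lb.r r410 (@Lb.r r388 (@Lb.d (nat_lit 64) (nat_lit 128) (nat_lit 545) (@Lb.fm (nat_lit 3) t3226)))))))))))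
noncomputable def l23611 : Lb := (@Lb.d (nat_lit 0) (nat_lit 278) (nat_lit 586) (@Lb.g g9 (@Lb.g g10 (@Lb.g g7 (@Lb.r r2650 (@Lb.r r1365 (@Lb.r r24 (@Lb.d (nat_lit 676) (nat_lit 69) (nat_lit 341) (@Lb.t (@Lb.fm (nat_lit 9) t2024))))))))))
noncomputable def l23612 : Lb := (@Lb.r r323 (@Lb.d (nat_lit 137) (nat_lit 528) (nat_lit 42) (@Lb.g g8 (@Lb.g g5 (@Lb.g g10 (@Lb.r r2343 (@Lb.r r1556 (@Lb.d (nat_lit 146) (nat_lit 98) (nat_lit 642) (@Lb.t (@Lb.fp (nat_lit 9) t468))))))))))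
noncomputable def l23613 : Lb := (@Lb.d (nat_lit 2) (nat_lit 550) (nat_lit 320) (@Lb.g g8 (@Lb.g g9 (@Lb.g g10 (@Lb.g g11 (@Lb.r r2721 (@Lb.r r2658 (@Lb.r r24 (@Lb.d (nat_lit 10) (nat_lit 146) (nat_lit 386) (@Lb.fp (nat_lit 9) t501))))))))))
noncomputable def l23614 : Lb := (@Lb.d (nat_lit 32) (nat_lit 546) (nat_lit 18) (@Lb.g g9 (@Lb.g g10 (@Lb.r r595 (@Lb.r r2389 (@Lb.r r1096 (@Lb.d (nat_lit 522) (nat_lit 26) (nat_lit 662) (@Lb.fm (nat_lit 3) t1155))))))))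
noncomputable def l23615 : Lb := (@Lb.d (nat_lit 512) (nat_lit 256) (nat_lit 342) (@Lb.r r24 (@Lb.r r2690 (@Lb.r r2587 (@Lb.r r1445 (@Lb.g g10 (@Lb.d (nat_lit 0) (nat_lit 4) (nat_lit 1) (@Lb.r r387 (@Lb.t (@Lb.fp (nat_lit 3) t927))))))))))
noncomputable def l23616 : Lb := (@Lb.d (nat_lit 160) (nat_lit 514) (nat_lit 129) (@Lb.g g9 (@Lb.g g6 (@Lb.g g11 (@Lb.r r264 (@Lb.r r391 (@Lb.r r97 (@Lb.d (nat_lit 98) (nat_lit 22) (nat_lit 132) (@Lb.t (@Lb.fp (nat_lit 9) t242))))))))))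
noncomputable def l23617 : Lb := (@Lb.r r21 (@Lb.d (nat_lit 10) (nat_lit 0) (nat_lit 66) (@Lb.g g8 (@Lb.g g10 (@Lb.g g7 (@Lb.r r1621 (@Lb.r r98 (@Lb.r r2436 (@Lb.d (nat_lit 610) (nat_lit 137) (nat_lit 322) (@Lb.t (@Lb.fp (nat_lit 9) t652)))))))))))
noncomputable def l23618 : Lb := (@Lb.d (nat_lit 80) (nat_lit 0) (nat_lit 21) (@Lb.r r24 (@Lb.r r1370 (@Lb.r r1685 (@Lb.r r611 (@Lb.g g7 (@Lb.g g6 (@Lb.d (nat_lit 0) (nat_lit 4) (nat_lit 134) (@Lb.fm (nat_lit 3) t4602)))))))))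
noncomputable def l23619 : Lb := (@Lb.d (nat_lit 33) (nat_lit 514) (nat_lit 130) (@Lb.g g8 (@Lb.g g9 (@Lb.g g10 (@Lb.g g11 (@Lb.r r2210 (@Lb.r r660 (@Lb.r r2473 (@Lb.r r1303 (@Lb.r r2596 (@Lb.d (nat_lit 2) (nat_lit 74) (nat_lit 361) (@Lb.fp (nat_lit 9) t1549))))))))))))
noncomputable def l23620 : Lb := (@Lb.d (nat_lit 10) (nat_lit 0) (nat_lit 128) (@Lb.g g8 (@Lb.g g10 (@Lb.g g11 (@Lb.r r2389 (@Lb.r r683 (@Lb.r r676 (@Lb.r r1158 (@Lb.d (nat_lit 290) (nat_lit 90) (nat_lit 425) (@Lb.t (@Lb.fm (nat_lit 9) t124)))))))))))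
noncomputable def l23621 : Lb := (@Lb.r r82 (@Lb.d (nat_lit 34) (nat_lit 514) (nat_lit 128) (@Lb.g g8 (@Lb.g g9 (@Lb.g g11 (@Lb.r r1430 (@Lb.r r579 (@Lb.r r2449 (@Lb.r r84 (@Lb.d (nat_lit 584) (nat_lit 84) (nat_lit 9) (@Lb.t (@Lb.fm (nat_lit 9) t4412))))))))))))
noncomputable def l23622 : Lb := (@Lb.d (nat_lit 1) (nat_lit 288) (nat_lit 64) (@Lb.g g8 (@Lb.g g10 (@Lb.g g11 (@Lb.r r2337 (@Lb.r r2715 (@Lb.r r1610 (@Lb.r r2628 (@Lb.d (nat_lit 402) (nat_lit 137) (nat_lit 408) (@Lb.t (@Lb.fm (nat_lit 9) t441)))))))))))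
noncomputable def l23623 : Lb := (@Lb.r r275 (@Lb.d (nat_lit 0) (nat_lit 2) (nat_lit 2) (@Lb.g g9 (@Lb.g g10 (@Lb.r r595 (@Lb.r r2154 (@Lb.r r2152 (@Lb.r r2073 (@Lb.d (nat_lit 581) (nat_lit 160) (nat_lit 256) (@Lb.fm (nat_lit 3) t948))))))))))
noncomputable def l23624 : Lb := (@Lb.d (nat_lit 2) (nat_lit 609) (nat_lit 0) (@Lb.g g8 (@Lb.g g5 (@Lb.r r322 (@Lb.r r1667 (@Lb.r r578 (@Lb.r r24 (@Lb.d (nat_lit 10) (nat_lit 129) (nat_lit 2) (@Lb.fp (nat_lit 3) t154)))))))))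
noncomputable def l23625 : Lb := (@Lb.d (nat_lit 37) (nat_lit 106) (nat_lit 585) (@Lb.r r101 (@Lb.r r24 (@Lb.r r323 (@Lb.g g7 (@Lb.g g6 (@Lb.d (nat_lit 0) (nat_lit 4) (nat_lit 65) (@Lb.fm (nat_lit 3) t1162))))))))
noncomputable def l23626 : Lb := (@Lb.d (nat_lit 642) (nat_lit 650) (nat_lit 258) (@Lb.r r154 (@Lb.r r660 (@Lb.r r279 (@Lb.r r545 (@Lb.g g7 (@Lb.d (nat_lit 0) (nat_lit 0) (nat_lit 64) (@Lb.t (@Lb.fm (nat_lit 3) t3114)))))))))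
noncomputable def l23627 : Lb := (@Lb.r r101 (@Lb.r r24 (@Lb.d (nat_lit 577) (nat_lit 266) (nat_lit 594) (@Lb.fp (nat_lit 1) t1150))))
noncomputable def l23628 : Lb := (@Lb.d (nat_lit 1) (nat_lit 514) (nat_lit 2) (@Lb.g g8 (@Lb.g g9 (@Lb.g g10 (@Lb.g g11 (@Lb.r r427 (@Lb.r r324 (@Lb.r r2218 (@Lb.r r1193 (@Lb.r r1188 (@Lb.d (nat_lit 609) (nat_lit 73) (nat_lit 681) (@Lb.fp (nat_lit 9) t386))))))))))))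
noncomputable def l23629 : Lb := (@Lb.r r101 (@Lb.r r24 (@Lb.d (nat_lit 576) (nat_lit 256) (nat_lit 592) (@Lb.fp (nat_lit 1) t166))))
noncomputable def l23630 : Lb := (@Lb.d (nat_lit 0) (nat_lit 256) (nat_lit 130) (@Lb.g g10 (@Lb.g g11 (@Lb.r r1553 (@Lb.r r595 (@Lb.r r386 (@Lb.r r1124 (@Lb.d (nat_lit 280) (nat_lit 0) (nat_lit 521) (@Lb.fm (nat_lit 3) t4555)))))))))
noncomputable def l23631 : Lb := (@Lb.d (nat_lit 577) (nat_lit 256) (nat_lit 577) (@Lb.r r24 (@Lb.r r101 (@Lb.r r2659 (@Lb.g g6 (@Lb.d (nat_lit 0) (nat_lit 4) (nat_lit 17) (@Lb.r r387 (@Lb.t (@Lb.fp (nat_lit 3) t482)))))))))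
noncomputable def l23632 : Lb := (@Lb.d (nat_lit 0) (nat_lit 0) (nat_lit 10) (@Lb.g g4 (@Lb.g g10 (@Lb.r r2643 (@Lb.r r401 (@Lb.r r2450 (@Lb.d (nat_lit 0) (nat_lit 154) (nat_lit 297) (@Lb.fp (nat_lit 3) t2169))))))))
noncomputable def l23633 : Lb := (@Lb.d (nat_lit 9) (nat_lit 512) (nat_lit 128) (@Lb.g g8 (@Lb.g g11 (@Lb.r r293 (@Lb.r r2587 (@Lb.r r2178 (@Lb.r r2584 (@Lb.d (nat_lit 585) (nat_lit 2) (nat_lit 650) (@Lb.fm (nat_lit 3) t3068)))))))))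
noncomputable def l23634 : Lb := (@Lb.d (nat_lit 0) (nat_lit 421) (nat_lit 405) (@Lb.r r2129 (@Lb.r r2146 (@Lb.r r609 (@Lb.g g7 (@Lb.g g6 (@Lb.g g5 (@Lb.d (nat_lit 0) (nat_lit 5) (nat_lit 65) (@Lb.t (@Lb.fm (nat_lit 9) t99))))))))))
noncomputable def l23635 : Lb := (@Lb.d (nat_lit 0) (nat_lit 0) (nat_lit 128) (@Lb.g g10 (@Lb.g g11 (@Lb.r r610 (@Lb.r r2659 (@Lb.d (nat_lit 0) (nat_lit 26) (nat_lit 618) (@Lb.fp (nat_lit 3) t334)))))))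
noncomputable def l23636 : Lb := (@Lb.d (nat_lit 0) (nat_lit 642) (nat_lit 0) (@Lb.g g9 (@Lb.r r363 (@Lb.r r328 (@Lb.r r134 (@Lb.d (nat_lit 512) (nat_lit 68) (nat_lit 0) (@Lb.t (@Lb.fp (nat_lit 3) t4574))))))))
noncomputable def l23637 : Lb := (@Lb.d (nat_lit 0) (nat_lit 165) (nat_lit 597) (@Lb.fp (nat_lit 1) t4603))
noncomputable def l23638 : Lb := (@Lb.d (nat_lit 0) (nat_lit 406) (nat_lit 0) (@Lb.g g5 (@Lb.r r363 (@Lb.r r356 (@Lb.r r154 (@Lb.d (nat_lit 0) (nat_lit 1) (nat_lit 16) (@Lb.t (@Lb.fp (nat_lit 3) t228))))))))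
noncomputable def l23639 : Lb := (@Lb.d (nat_lit 0) (nat_lit 2) (nat_lit 2) (@Lb.g g9 (@Lb.g g10 (@Lb.r r2595 (@Lb.r r386 (@Lb.r r2657 (@Lb.d (nat_lit 0) (nat_lit 146) (nat_lit 262) (@Lb.fp (nat_lit 3) t4604))))))))
noncomputable def l23640 : Lb := (@Lb.d (nat_lit 665) (nat_lit 421) (nat_lit 410) (@Lb.r r2660 (@Lb.r r1637 (@Lb.r r346 (@Lb.g g7 (@Lb.g g4 (@Lb.d (nat_lit 21) (nat_lit 0) (nat_lit 64) (@Lb.fp (nat_lit 3) t322))))))))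
noncomputable def l23641 : Lb := (@Lb.d (nat_lit 0) (nat_lit 2) (nat_lit 64) (@Lb.g g9 (@Lb.g g11 (@Lb.r r1555 (@Lb.r r2469 (@Lb.r r2150 (@Lb.r r24 (@Lb.d (nat_lit 352) (nat_lit 0) (nat_lit 421) (@Lb.fp (nat_lit 3) t288)))))))))
noncomputable def l23642 : Lb := (@Lb.d (nat_lit 2) (nat_lit 2) (nat_lit 130) (@Lb.g g8 (@Lb.g g9 (@Lb.g g10 (@Lb.g g11 (@Lb.r r2666 (@Lb.r r579 (@Lb.r r292 (@Lb.r r405 (@Lb.r r2084 (@Lb.d (nat_lit 610) (nat_lit 154) (nat_lit 297) (@Lb.fm (nat_lit 9) t1199))))))))))))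
noncomputable def l23643 : Lb := (@Lb.d (nat_lit 2) (nat_lit 260) (nat_lit 5) (@Lb.g g8 (@Lb.g g9 (@Lb.g g10 (@Lb.g g11 (@Lb.r r427 (@Lb.r r145 (@Lb.r r356 (@Lb.r r154 (@Lb.r r132 (@Lb.d (nat_lit 9) (nat_lit 2) (nat_lit 137) (@Lb.fm (nat_lit 9) t601))))))))))))
noncomputable def l23644 : Lb := (@Lb.r r2641 (@Lb.d (nat_lit 0) (nat_lit 418) (nat_lit 672) (@Lb.fp (nat_lit 1) t4605)))
noncomputable def l23645 : Lb := (@Lb.d (nat_lit 0) (nat_lit 512) (nat_lit 657) (@Lb.r r2641 (@Lb.r r323 (@Lb.r r2626 (@Lb.g g7 (@Lb.d (nat_lit 0) (nat_lit 0) (nat_lit 64) (@Lb.t (@Lb.fm (nat_lit 3) t2181))))))))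
noncomputable def l23646 : Lb := (@Lb.d (nat_lit 0) (nat_lit 138) (nat_lit 18) (@Lb.r r2641 (@Lb.r r354 (@Lb.r r2451 (@Lb.g g11 (@Lb.t (@Lb.fp (nat_lit 3) t4496)))))))
noncomputable def l23647 : Lb := (@Lb.r r70 (@Lb.d (nat_lit 2) (nat_lit 2) (nat_lit 644) (@Lb.g g8 (@Lb.g g9 (@Lb.g g11 (@Lb.r r1681 (@Lb.r r2198 (@Lb.r r2660 (@Lb.d (nat_lit 608) (nat_lit 41) (nat_lit 533) (@Lb.t (@Lb.fp (nat_lit 9) t838)))))))))))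
noncomputable def l23648 : Lb := (@Lb.d (nat_lit 2) (nat_lit 522) (nat_lit 128) (@Lb.g g8 (@Lb.g g9 (@Lb.g g11 (@Lb.r r1162 (@Lb.r r1188 (@Lb.r r2597 (@Lb.r r1315 (@Lb.d (nat_lit 2) (nat_lit 18) (nat_lit 261) (@Lb.t (@Lb.fm (nat_lit 9) t643)))))))))))
noncomputable def l23649 : Lb := (@Lb.r r82 (@Lb.d (nat_lit 2) (nat_lit 514) (nat_lit 128) (@Lb.g g8 (@Lb.g g9 (@Lb.g g11 (@Lb.r r593 (@Lb.r r1623 (@Lb.r r98 (@Lb.r r2436 (@Lb.d (nat_lit 646) (nat_lit 8) (nat_lit 410) (@Lb.t (@Lb.fp (nat_lit 9) t4606))))))))))))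
noncomputable def l23650 : Lb := (@Lb.d (nat_lit 128) (nat_lit 258) (nat_lit 644) (@Lb.g g9 (@Lb.g g11 (@Lb.r r2178 (@Lb.r r2645 (@Lb.r r1416 (@Lb.d (nat_lit 616) (nat_lit 70) (nat_lit 533) (@Lb.fm (nat_lit 3) t2035))))))))
noncomputable def l23651 : Lb := (@Lb.d (nat_lit 2) (nat_lit 258) (nat_lit 2) (@Lb.g g8 (@Lb.g g9 (@Lb.g g10 (@Lb.g g11 (@Lb.r r1699 (@Lb.r r2705 (@Lb.r r612 (@Lb.r r666 (@Lb.r r1156 (@Lb.d (nat_lit 329) (nat_lit 33) (nat_lit 5) (@Lb.fp (nat_lit 9) t178))))))))))))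
noncomputable def l23652 : Lb := (@Lb.r r323 (@Lb.d (nat_lit 6) (nat_lit 521) (nat_lit 0) (@Lb.g g8 (@Lb.g g9 (@Lb.g g10 (@Lb.r r387 (@Lb.r r20 (@Lb.r r2089 (@Lb.r r36 (@Lb.d (nat_lit 518) (nat_lit 130) (nat_lit 2) (@Lb.t (@Lb.fp (nat_lit 9) t213))))))))))))
noncomputable def l23653 : Lb := (@Lb.d (nat_lit 4) (nat_lit 393) (nat_lit 149) (@Lb.r r2118 (@Lb.r r1416 (@Lb.r r279 (@Lb.g g7 (@Lb.g g5 (@Lb.g g4 (@Lb.d (nat_lit 1) (nat_lit 1) (nat_lit 64) (@Lb.r r98 (@Lb.t (@Lb.fm (nat_lit 9) t2697)))))))))))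
noncomputable def l23654 : Lb := (@Lb.d (nat_lit 2) (nat_lit 256) (nat_lit 0) (@Lb.g g8 (@Lb.r r134 (@Lb.r r328 (@Lb.r r407 (@Lb.r r609 (@Lb.d (nat_lit 5) (nat_lit 130) (nat_lit 2) (@Lb.t (@Lb.fm (nat_lit 3) t44)))))))))
noncomputable def l23655 : Lb := (@Lb.d (nat_lit 2) (nat_lit 0) (nat_lit 0) (@Lb.g g8 (@Lb.r r134 (@Lb.r r328 (@Lb.r r407 (@Lb.r r537 (@Lb.d (nat_lit 37) (nat_lit 149) (nat_lit 264) (@Lb.t (@Lb.fp (nat_lit 3) t2509)))))))))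
noncomputable def l23656 : Lb := (@Lb.d (nat_lit 10) (nat_lit 288) (nat_lit 0) (@Lb.g g8 (@Lb.g g11 (@Lb.r r166 (@Lb.r r149 (@Lb.r r356 (@Lb.r r619 (@Lb.d (nat_lit 101) (nat_lit 8) (nat_lit 65) (@Lb.fm (nat_lit 3) t44)))))))))
noncomputable def l23657 : Lb := (@Lb.d (nat_lit 0) (nat_lit 522) (nat_lit 65) (@Lb.g g9 (@Lb.g g10 (@Lb.g g7 (@Lb.r r386 (@Lb.r r101 (@Lb.r r24 (@Lb.d (nat_lit 34) (nat_lit 80) (nat_lit 265) (@Lb.t (@Lb.fm (nat_lit 9) t4607))))))))))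
noncomputable def l23658 : Lb := (@Lb.r r263 (@Lb.d (nat_lit 2) (nat_lit 2) (nat_lit 2) (@Lb.g g8 (@Lb.g g9 (@Lb.g g10 (@Lb.r r675 (@Lb.r r168 (@Lb.r r2666 (@Lb.r r25 (@Lb.d (nat_lit 362) (nat_lit 82) (nat_lit 133) (@Lb.t (@Lb.fm (nat_lit 9) t2856))))))))))))
noncomputable def l23659 : Lb := (@Lb.d (nat_lit 64) (nat_lit 258) (nat_lit 2) (@Lb.g g8 (@Lb.g g9 (@Lb.g g10 (@Lb.g g11 (@Lb.r r675 (@Lb.r r2406 (@Lb.r r533 (@Lb.r r292 (@Lb.d (nat_lit 532) (nat_lit 84) (nat_lit 601) (@Lb.fm (nat_lit 9) t4608)))))))))))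
noncomputable def l23660 : Lb := (@Lb.d (nat_lit 64) (nat_lit 514) (nat_lit 2) (@Lb.g g8 (@Lb.g g9 (@Lb.g g10 (@Lb.g g11 (@Lb.r r586 (@Lb.r r1173 (@Lb.r r584 (@Lb.r r1627 (@Lb.d (nat_lit 617) (nat_lit 97) (nat_lit 516) (@Lb.fp (nat_lit 9) t422)))))))))))
noncomputable def l23661 : Lb := (@Lb.d (nat_lit 0) (nat_lit 2) (nat_lit 421) (@Lb.r r1347 (@Lb.r r658 (@Lb.g g7 (@Lb.g g9 (@Lb.d (nat_lit 0) (nat_lit 88) (nat_lit 128) (@Lb.r r98 (@Lb.fm (nat_lit 3) t749))))))))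
noncomputable def l23662 : Lb := (@Lb.d (nat_lit 64) (nat_lit 258) (nat_lit 2) (@Lb.g g8 (@Lb.g g9 (@Lb.g g10 (@Lb.g g11 (@Lb.r r586 (@Lb.r r88 (@Lb.r r1573 (@Lb.r r1639 (@Lb.d (nat_lit 130) (nat_lit 80) (nat_lit 533) (@Lb.fm (nat_lit 9) t2676)))))))))))
noncomputable def l23663 : Lb := (@Lb.d (nat_lit 64) (nat_lit 514) (nat_lit 2) (@Lb.g g8 (@Lb.g g9 (@Lb.g g10 (@Lb.g g11 (@Lb.r r586 (@Lb.r r88 (@Lb.r r1573 (@Lb.r r1639 (@Lb.d (nat_lit 137) (nat_lit 82) (nat_lit 533) (@Lb.fm (nat_lit 9) t3008)))))))))))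
noncomputable def l23664 : Lb := (@Lb.r r68 (@Lb.r r323 (@Lb.d (nat_lit 0) (nat_lit 2) (nat_lit 2) (@Lb.g g9 (@Lb.g g10 (@Lb.r r1685 (@Lb.r r1559 (@Lb.r r2312 (@Lb.d (nat_lit 34) (nat_lit 5) (nat_lit 105) (@Lb.fm (nat_lit 3) t4609))))))))))
noncomputable def l23665 : Lb := (@Lb.r r82 (@Lb.r r275 (@Lb.d (nat_lit 6) (nat_lit 608) (nat_lit 0) (@Lb.g g8 (@Lb.g g9 (@Lb.r r1559 (@Lb.r r2376 (@Lb.r r1158 (@Lb.d (nat_lit 2) (nat_lit 2) (nat_lit 72) (@Lb.fp (nat_lit 3) t123))))))))))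
noncomputable def l23666 : Lb := (@Lb.d (nat_lit 64) (nat_lit 258) (nat_lit 2) (@Lb.g g8 (@Lb.g g9 (@Lb.g g10 (@Lb.g g11 (@Lb.r r675 (@Lb.r r2406 (@Lb.r r533 (@Lb.r r264 (@Lb.d (nat_lit 292) (nat_lit 88) (nat_lit 601) (@Lb.fp (nat_lit 9) t2855)))))))))))
noncomputable def l23667 : Lb := (@Lb.d (nat_lit 0) (nat_lit 0) (nat_lit 66) (@Lb.g g10 (@Lb.g g7 (@Lb.r r386 (@Lb.r r24 (@Lb.d (nat_lit 1) (nat_lit 69) (nat_lit 10) (@Lb.fp (nat_lit 3) t45)))))))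
noncomputable def l23668 : Lb := (@Lb.d (nat_lit 5) (nat_lit 257) (nat_lit 64) (@Lb.fp (nat_lit 1) t2))
noncomputable def l23669 : Lb := (@Lb.r r24 (@Lb.d (nat_lit 8) (nat_lit 66) (nat_lit 0) (@Lb.fm (nat_lit 1) t2)))
noncomputable def l23670 : Lb := (@Lb.d (nat_lit 66) (nat_lit 677) (nat_lit 518) (@Lb.r r68 (@Lb.r r74 (@Lb.r r104 (@Lb.r r297 (@Lb.g g11 (@Lb.g g6 (@Lb.g g5 (@Lb.g g4 (@Lb.d (nat_lit 0) (nat_lit 1) (nat_lit 129) (@Lb.fm (nat_lit 9) t1919)))))))))))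
noncomputable def l23671 : Lb := (@Lb.d (nat_lit 2) (nat_lit 256) (nat_lit 0) (@Lb.g g8 (@Lb.d (nat_lit 9) (nat_lit 64) (nat_lit 0) (@Lb.t (@Lb.fp (nat_lit 3) t2)))))
noncomputable def l23672 : Lb := (@Lb.r r24 (@Lb.d (nat_lit 1) (nat_lit 320) (nat_lit 64) (@Lb.fm (nat_lit 1) t2)))
noncomputable def l23673 : Lb := (@Lb.d (nat_lit 102) (nat_lit 170) (nat_lit 516) (@Lb.r r90 (@Lb.r r72 (@Lb.r r297 (@Lb.g g11 (@Lb.g g6 (@Lb.g g5 (@Lb.d (nat_lit 16) (nat_lit 1) (nat_lit 129) (@Lb.t (@Lb.fm (nat_lit 9) t965))))))))))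
noncomputable def l23674 : Lb := (@Lb.d (nat_lit 66) (nat_lit 34) (nat_lit 130) (@Lb.g g8 (@Lb.g g9 (@Lb.g g10 (@Lb.g g11 (@Lb.r r355 (@Lb.r r386 (@Lb.r r1129 (@Lb.r r296 (@Lb.d (nat_lit 518) (nat_lit 34) (nat_lit 404) (@Lb.fm (nat_lit 9) t31)))))))))))
noncomputable def l23675 : Lb := (@Lb.d (nat_lit 6) (nat_lit 544) (nat_lit 130) (@Lb.g g4 (@Lb.g g9 (@Lb.g g10 (@Lb.g g11 (@Lb.r r1681 (@Lb.r r531 (@Lb.r r386 (@Lb.d (nat_lit 1) (nat_lit 34) (nat_lit 89) (@Lb.fm (nat_lit 9) t892))))))))))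
noncomputable def l23676 : Lb := (@Lb.d (nat_lit 6) (nat_lit 64) (nat_lit 137) (@Lb.g g4 (@Lb.g g9 (@Lb.g g10 (@Lb.g g11 (@Lb.r r2658 (@Lb.r r579 (@Lb.d (nat_lit 1) (nat_lit 97) (nat_lit 586) (@Lb.fp (nat_lit 9) t51)))))))))
noncomputable def l23677 : Lb := (@Lb.d (nat_lit 2) (nat_lit 2) (nat_lit 130) (@Lb.g g8 (@Lb.g g9 (@Lb.g g10 (@Lb.g g11 (@Lb.r r2122 (@Lb.r r1368 (@Lb.r r2597 (@Lb.r r2663 (@Lb.d (nat_lit 10) (nat_lit 89) (nat_lit 665) (@Lb.fm (nat_lit 9) t2626)))))))))))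
noncomputable def l23678 : Lb := (@Lb.r r68 (@Lb.d (nat_lit 0) (nat_lit 258) (nat_lit 34) (@Lb.g g9 (@Lb.g g10 (@Lb.g g11 (@Lb.r r2401 (@Lb.r r1363 (@Lb.r r2312 (@Lb.d (nat_lit 290) (nat_lit 164) (nat_lit 281) (@Lb.t (@Lb.fm (nat_lit 9) t4610)))))))))))
noncomputable def l23679 : Lb := (@Lb.d (nat_lit 2) (nat_lit 514) (nat_lit 130) (@Lb.g g8 (@Lb.g g9 (@Lb.g g10 (@Lb.g g11 (@Lb.r r1699 (@Lb.r r164 (@Lb.r r614 (@Lb.r r1045 (@Lb.r r2084 (@Lb.d (nat_lit 666) (nat_lit 101) (nat_lit 596) (@Lb.fm (nat_lit 9) t4611))))))))))))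
noncomputable def l23680 : Lb := (@Lb.d (nat_lit 8) (nat_lit 513) (nat_lit 0) (@Lb.g g9 (@Lb.r r1364 (@Lb.r r2731 (@Lb.r r2178 (@Lb.r r1625 (@Lb.d (nat_lit 346) (nat_lit 42) (nat_lit 530) (@Lb.t (@Lb.fp (nat_lit 3) t4612)))))))))
noncomputable def l23681 : Lb := (@Lb.d (nat_lit 150) (nat_lit 673) (nat_lit 102) (@Lb.r r24 (@Lb.r r1383 (@Lb.r r2389 (@Lb.g g6 (@Lb.g g5 (@Lb.g g4 (@Lb.d (nat_lit 2) (nat_lit 0) (nat_lit 42) (@Lb.r r387 (@Lb.t (@Lb.fm (nat_lit 9) t4613)))))))))))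
noncomputable def l23682 : Lb := (@Lb.d (nat_lit 0) (nat_lit 162) (nat_lit 536) (@Lb.r r101 (@Lb.r r24 (@Lb.r r323 (@Lb.g g7 (@Lb.g g6 (@Lb.d (nat_lit 0) (nat_lit 0) (nat_lit 64) (@Lb.fm (nat_lit 3) t538))))))))
noncomputable def l23683 : Lb := (@Lb.g g7 (@Lb.r r101 (@Lb.r r24 (@Lb.d (nat_lit 514) (nat_lit 0) (nat_lit 101) (@Lb.t (@Lb.fm (nat_lit 3) t319))))))
noncomputable def l23684 : Lb := (@Lb.d (nat_lit 144) (nat_lit 521) (nat_lit 9) (@Lb.g g8 (@Lb.g g9 (@Lb.g g10 (@Lb.g g11 (@Lb.r r1706 (@Lb.r r1411 (@Lb.r r2201 (@Lb.r r2180 (@Lb.d (nat_lit 553) (nat_lit 153) (nat_lit 100) (@Lb.fm (nat_lit 9) t1755)))))))))))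
noncomputable def l23685 : Lb := (@Lb.r r275 (@Lb.d (nat_lit 6) (nat_lit 257) (nat_lit 2) (@Lb.g g8 (@Lb.g g9 (@Lb.g g10 (@Lb.r r2454 (@Lb.r r2391 (@Lb.r r1433 (@Lb.r r24 (@Lb.d (nat_lit 362) (nat_lit 134) (nat_lit 545) (@Lb.t (@Lb.fm (nat_lit 9) t842))))))))))))
noncomputable def l23686 : Lb := (@Lb.r r323 (@Lb.d (nat_lit 0) (nat_lit 256) (nat_lit 2) (@Lb.g g9 (@Lb.g g10 (@Lb.r r102 (@Lb.r r404 (@Lb.r r619 (@Lb.r r609 (@Lb.d (nat_lit 1) (nat_lit 17) (nat_lit 64) (@Lb.fm (nat_lit 3) t71))))))))))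
noncomputable def l23687 : Lb := (@Lb.r r323 (@Lb.d (nat_lit 0) (nat_lit 0) (nat_lit 2) (@Lb.g g9 (@Lb.g g10 (@Lb.r r102 (@Lb.r r404 (@Lb.r r619 (@Lb.r r609 (@Lb.d (nat_lit 1) (nat_lit 24) (nat_lit 2) (@Lb.fm (nat_lit 3) t71))))))))))
noncomputable def l23688 : Lb := (@Lb.g g11 (@Lb.r r1114 (@Lb.r r1540 (@Lb.r r1447 (@Lb.r r1425 (@Lb.d (nat_lit 10) (nat_lit 385) (nat_lit 325) (@Lb.t (@Lb.fp (nat_lit 3) t4614))))))))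
noncomputable def l23689 : Lb := (@Lb.d (nat_lit 4) (nat_lit 256) (nat_lit 137) (@Lb.g g8 (@Lb.g g9 (@Lb.g g10 (@Lb.g g11 (@Lb.r r1706 (@Lb.r r648 (@Lb.r r1563 (@Lb.r r2337 (@Lb.r r36 (@Lb.d (nat_lit 641) (nat_lit 105) (nat_lit 66) (@Lb.fp (nat_lit 9) t242))))))))))))
noncomputable def l23690 : Lb := (@Lb.d (nat_lit 644) (nat_lit 641) (nat_lit 544) (@Lb.r r154 (@Lb.r r660 (@Lb.r r407 (@Lb.r r537 (@Lb.g g11 (@Lb.t (@Lb.fm (nat_lit 3) t4615))))))))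
noncomputable def l23691 : Lb := (@Lb.g g8 (@Lb.r r101 (@Lb.r r1172 (@Lb.d (nat_lit 512) (nat_lit 522) (nat_lit 18) (@Lb.t (@Lb.fm (nat_lit 3) t126))))))
noncomputable def l23692 : Lb := (@Lb.d (nat_lit 2) (nat_lit 258) (nat_lit 2) (@Lb.g g8 (@Lb.g g9 (@Lb.g g10 (@Lb.g g11 (@Lb.r r1706 (@Lb.r r648 (@Lb.r r1563 (@Lb.r r2337 (@Lb.r r36 (@Lb.d (nat_lit 641) (nat_lit 105) (nat_lit 66) (@Lb.fp (nat_lit 9) t242))))))))))))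
noncomputable def l23693 : Lb := (@Lb.r r323 (@Lb.d (nat_lit 130) (nat_lit 258) (nat_lit 24) (@Lb.g g8 (@Lb.g g9 (@Lb.g g10 (@Lb.r r1623 (@Lb.r r2345 (@Lb.r r2340 (@Lb.d (nat_lit 584) (nat_lit 98) (nat_lit 532) (@Lb.t (@Lb.fm (nat_lit 9) t386)))))))))))
noncomputable def l23694 : Lb := (@Lb.d (nat_lit 36) (nat_lit 586) (nat_lit 353) (@Lb.r r2394 (@Lb.r r2376 (@Lb.r r1687 (@Lb.g g6 (@Lb.g g9 (@Lb.d (nat_lit 20) (nat_lit 42) (nat_lit 0) (@Lb.r r387 (@Lb.fp (nat_lit 3) t3013)))))))))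
noncomputable def l23695 : Lb := (@Lb.d (nat_lit 34) (nat_lit 528) (nat_lit 0) (@Lb.g g8 (@Lb.g g9 (@Lb.r r515 (@Lb.r r582 (@Lb.r r132 (@Lb.d (nat_lit 33) (nat_lit 16) (nat_lit 9) (@Lb.fp (nat_lit 3) t242))))))))
noncomputable def l23696 : Lb := (@Lb.d (nat_lit 646) (nat_lit 533) (nat_lit 96) (@Lb.r r1301 (@Lb.r r2411 (@Lb.r r1666 (@Lb.g g7 (@Lb.g g6 (@Lb.g g5 (@Lb.g g4 (@Lb.d (nat_lit 8) (nat_lit 5) (nat_lit 134) (@Lb.fm (nat_lit 9) t3136))))))))))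
noncomputable def l23697 : Lb := (@Lb.d (nat_lit 34) (nat_lit 16) (nat_lit 0) (@Lb.g g8 (@Lb.g g9 (@Lb.r r515 (@Lb.r r582 (@Lb.r r132 (@Lb.d (nat_lit 40) (nat_lit 18) (nat_lit 9) (@Lb.fp (nat_lit 3) t1412))))))))
noncomputable def l23698 : Lb := (@Lb.d (nat_lit 390) (nat_lit 597) (nat_lit 608) (@Lb.r r2325 (@Lb.r r1387 (@Lb.r r1666 (@Lb.g g7 (@Lb.g g6 (@Lb.g g5 (@Lb.g g4 (@Lb.d (nat_lit 8) (nat_lit 4) (nat_lit 134) (@Lb.fm (nat_lit 9) t3136))))))))))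
noncomputable def l23699 : Lb := (@Lb.r r82 (@Lb.d (nat_lit 2) (nat_lit 33) (nat_lit 64) (@Lb.g g8 (@Lb.g g9 (@Lb.g g11 (@Lb.r r299 (@Lb.r r360 (@Lb.r r150 (@Lb.r r169 (@Lb.d (nat_lit 33) (nat_lit 9) (nat_lit 73) (@Lb.t (@Lb.fp (nat_lit 9) t709))))))))))))
noncomputable def l23700 : Lb := (@Lb.d (nat_lit 1) (nat_lit 528) (nat_lit 133) (@Lb.r r68 (@Lb.r r330 (@Lb.r r72 (@Lb.r r515 (@Lb.g g9 (@Lb.d (nat_lit 8) (nat_lit 18) (nat_lit 0) (@Lb.t (@Lb.fp (nat_lit 3) t1412)))))))))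
noncomputable def l23701 : Lb := (@Lb.d (nat_lit 0) (nat_lit 0) (nat_lit 145) (@Lb.g g9 (@Lb.g g10 (@Lb.g g11 (@Lb.r r1419 (@Lb.r r1557 (@Lb.r r1416 (@Lb.d (nat_lit 64) (nat_lit 0) (nat_lit 614) (@Lb.t (@Lb.fp (nat_lit 9) t1743))))))))))
noncomputable def l23702 : Lb := (@Lb.d (nat_lit 34) (nat_lit 282) (nat_lit 0) (@Lb.g g8 (@Lb.g g9 (@Lb.r r515 (@Lb.r r582 (@Lb.r r132 (@Lb.d (nat_lit 170) (nat_lit 18) (nat_lit 137) (@Lb.fp (nat_lit 3) t1087))))))))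
noncomputable def l23703 : Lb := (@Lb.d (nat_lit 32) (nat_lit 34) (nat_lit 130) (@Lb.g g9 (@Lb.g g10 (@Lb.g g11 (@Lb.r r1707 (@Lb.r r1689 (@Lb.r r100 (@Lb.r r410 (@Lb.d (nat_lit 393) (nat_lit 25) (nat_lit 169) (@Lb.t (@Lb.fm (nat_lit 9) t74)))))))))))
noncomputable def l23704 : Lb := (@Lb.r r322 (@Lb.d (nat_lit 0) (nat_lit 34) (nat_lit 128) (@Lb.g g9 (@Lb.g g11 (@Lb.r r2705 (@Lb.r r146 (@Lb.d (nat_lit 0) (nat_lit 80) (nat_lit 358) (@Lb.fp (nat_lit 3) t475))))))))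
noncomputable def l23705 : Lb := (@Lb.r r82 (@Lb.g g9 (@Lb.g g11 (@Lb.r r1575 (@Lb.r r1368 (@Lb.r r2214 (@Lb.r r2193 (@Lb.d (nat_lit 0) (nat_lit 650) (nat_lit 18) (@Lb.fp (nat_lit 3) t1751)))))))))
noncomputable def l23706 : Lb := (@Lb.d (nat_lit 0) (nat_lit 290) (nat_lit 130) (@Lb.g g9 (@Lb.g g10 (@Lb.g g11 (@Lb.r r387 (@Lb.r r1634 (@Lb.r r1553 (@Lb.d (nat_lit 0) (nat_lit 132) (nat_lit 9) (@Lb.t (@Lb.fm (nat_lit 9) t719))))))))))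
noncomputable def l23707 : Lb := (@Lb.d (nat_lit 4) (nat_lit 522) (nat_lit 73) (@Lb.g g8 (@Lb.g g9 (@Lb.g g10 (@Lb.g g11 (@Lb.r r387 (@Lb.r r537 (@Lb.r r388 (@Lb.r r358 (@Lb.r r132 (@Lb.d (nat_lit 69) (nat_lit 168) (nat_lit 73) (@Lb.fp (nat_lit 9) t501))))))))))))
noncomputable def l23708 : Lb := (@Lb.d (nat_lit 4) (nat_lit 256) (nat_lit 73) (@Lb.g g8 (@Lb.g g10 (@Lb.g g11 (@Lb.r r2691 (@Lb.r r1185 (@Lb.r r2658 (@Lb.d (nat_lit 2) (nat_lit 160) (nat_lit 553) (@Lb.t (@Lb.fm (nat_lit 9) t590))))))))))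
noncomputable def l23709 : Lb := (@Lb.d (nat_lit 6) (nat_lit 678) (nat_lit 294) (@Lb.r r21 (@Lb.r r1366 (@Lb.r r683 (@Lb.g g7 (@Lb.g g6 (@Lb.g g5 (@Lb.g g4 (@Lb.d (nat_lit 8) (nat_lit 0) (nat_lit 70) (@Lb.fm (nat_lit 9) t40))))))))))
noncomputable def l23710 : Lb := (@Lb.r r331 (@Lb.d (nat_lit 37) (nat_lit 288) (nat_lit 2) (@Lb.g g8 (@Lb.g g9 (@Lb.g g10 (@Lb.r r595 (@Lb.r r1313 (@Lb.r r2708 (@Lb.d (nat_lit 405) (nat_lit 20) (nat_lit 680) (@Lb.t (@Lb.fm (nat_lit 9) t4616)))))))))))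
noncomputable def l23711 : Lb := (@Lb.d (nat_lit 6) (nat_lit 166) (nat_lit 294) (@Lb.r r21 (@Lb.r r1366 (@Lb.r r683 (@Lb.g g7 (@Lb.g g6 (@Lb.g g5 (@Lb.g g4 (@Lb.d (nat_lit 8) (nat_lit 10) (nat_lit 69) (@Lb.fm (nat_lit 9) t40))))))))))
noncomputable def l23712 : Lb := (@Lb.r r355 (@Lb.d (nat_lit 4) (nat_lit 105) (nat_lit 1) (@Lb.g g8 (@Lb.g g5 (@Lb.g g10 (@Lb.r r1603 (@Lb.r r74 (@Lb.r r24 (@Lb.d (nat_lit 676) (nat_lit 20) (nat_lit 648) (@Lb.t (@Lb.fp (nat_lit 9) t42)))))))))))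
noncomputable def l23713 : Lb := (@Lb.d (nat_lit 0) (nat_lit 8) (nat_lit 73) (@Lb.g g8 (@Lb.g g10 (@Lb.g g11 (@Lb.r r2707 (@Lb.r r1176 (@Lb.r r1381 (@Lb.r r1178 (@Lb.d (nat_lit 86) (nat_lit 40) (nat_lit 418) (@Lb.t (@Lb.fm (nat_lit 9) t668)))))))))))
noncomputable def l23714 : Lb := (@Lb.d (nat_lit 4) (nat_lit 522) (nat_lit 72) (@Lb.g g8 (@Lb.g g9 (@Lb.g g10 (@Lb.g g11 (@Lb.r r2691 (@Lb.r r536 (@Lb.r r2197 (@Lb.r r2646 (@Lb.r r164 (@Lb.d (nat_lit 136) (nat_lit 9) (nat_lit 361) (@Lb.fp (nat_lit 9) t2556))))))))))))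
noncomputable def l23715 : Lb := (@Lb.d (nat_lit 0) (nat_lit 0) (nat_lit 73) (@Lb.g g8 (@Lb.g g9 (@Lb.g g10 (@Lb.g g11 (@Lb.r r2691 (@Lb.r r664 (@Lb.r r2661 (@Lb.r r666 (@Lb.r r1156 (@Lb.d (nat_lit 646) (nat_lit 80) (nat_lit 576) (@Lb.fp (nat_lit 9) t668))))))))))))
noncomputable def l23716 : Lb := (@Lb.d (nat_lit 406) (nat_lit 130) (nat_lit 101) (@Lb.r r1608 (@Lb.r r1641 (@Lb.r r1366 (@Lb.g g7 (@Lb.g g6 (@Lb.g g5 (@Lb.g g4 (@Lb.d (nat_lit 8) (nat_lit 10) (nat_lit 69) (@Lb.fp (nat_lit 9) t312))))))))))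
noncomputable def l23717 : Lb := (@Lb.d (nat_lit 616) (nat_lit 357) (nat_lit 102) (@Lb.r r1125 (@Lb.r r386 (@Lb.r r2387 (@Lb.g g7 (@Lb.g g6 (@Lb.g g5 (@Lb.g g8 (@Lb.d (nat_lit 2) (nat_lit 1) (nat_lit 65) (@Lb.fm (nat_lit 9) t218))))))))))
noncomputable def l23718 : Lb := (@Lb.d (nat_lit 42) (nat_lit 256) (nat_lit 0) (@Lb.g g8 (@Lb.r r2395 (@Lb.r r614 (@Lb.r r1637 (@Lb.r r1428 (@Lb.d (nat_lit 352) (nat_lit 26) (nat_lit 394) (@Lb.t (@Lb.fm (nat_lit 3) t553)))))))))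
noncomputable def l23719 : Lb := (@Lb.r r152 (@Lb.r r21 (@Lb.r r1060 (@Lb.d (nat_lit 290) (nat_lit 5) (nat_lit 17) (@Lb.fm (nat_lit 1) t39)))))
noncomputable def l23720 : Lb := (@Lb.d (nat_lit 281) (nat_lit 260) (nat_lit 72) (@Lb.g g4 (@Lb.g g9 (@Lb.g g10 (@Lb.g g11 (@Lb.r r1667 (@Lb.r r145 (@Lb.r r602 (@Lb.r r1169 (@Lb.d (nat_lit 289) (nat_lit 96) (nat_lit 346) (@Lb.fp (nat_lit 9) t830)))))))))))
noncomputable def l23721 : Lb := (@Lb.d (nat_lit 2) (nat_lit 512) (nat_lit 0) (@Lb.g g8 (@Lb.r r289 (@Lb.r r1371 (@Lb.r r134 (@Lb.r r2577 (@Lb.d (nat_lit 401) (nat_lit 0) (nat_lit 401) (@Lb.t (@Lb.fp (nat_lit 3) t1634)))))))))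
noncomputable def l23722 : Lb := (@Lb.r r1045 (@Lb.d (nat_lit 552) (nat_lit 260) (nat_lit 161) (@Lb.g g4 (@Lb.g g10 (@Lb.g g11 (@Lb.r r387 (@Lb.d (nat_lit 8) (nat_lit 128) (nat_lit 137) (@Lb.t (@Lb.fp (nat_lit 9) t4617)))))))))
noncomputable def l23723 : Lb := (@Lb.r r323 (@Lb.d (nat_lit 2) (nat_lit 9) (nat_lit 2) (@Lb.g g8 (@Lb.g g9 (@Lb.g g10 (@Lb.r r1355 (@Lb.r r2182 (@Lb.r r104 (@Lb.r r25 (@Lb.d (nat_lit 266) (nat_lit 8) (nat_lit 1) (@Lb.t (@Lb.fm (nat_lit 9) t1506))))))))))))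
noncomputable def l23724 : Lb := (@Lb.d (nat_lit 2) (nat_lit 265) (nat_lit 161) (@Lb.g g8 (@Lb.g g9 (@Lb.g g6 (@Lb.g g11 (@Lb.r r516 (@Lb.r r263 (@Lb.r r97 (@Lb.r r516 (@Lb.d (nat_lit 2) (nat_lit 74) (nat_lit 128) (@Lb.fp (nat_lit 9) t917)))))))))))
noncomputable def l23725 : Lb := (@Lb.d (nat_lit 550) (nat_lit 321) (nat_lit 1) (@Lb.r r2138 (@Lb.r r2644 (@Lb.r r2391 (@Lb.g g7 (@Lb.g g6 (@Lb.g g5 (@Lb.g g4 (@Lb.d (nat_lit 0) (nat_lit 65) (nat_lit 65) (@Lb.fp (nat_lit 9) t892))))))))))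
noncomputable def l23726 : Lb := (@Lb.r r1045 (@Lb.r r36 (@Lb.d (nat_lit 546) (nat_lit 256) (nat_lit 34) (@Lb.fp (nat_lit 1) t127))))
noncomputable def l23727 : Lb := (@Lb.d (nat_lit 5) (nat_lit 0) (nat_lit 0) (@Lb.g g4 (@Lb.d (nat_lit 6) (nat_lit 72) (nat_lit 66) (@Lb.t (@Lb.fm (nat_lit 3) t21)))))
noncomputable def l23728 : Lb := (@Lb.d (nat_lit 2) (nat_lit 545) (nat_lit 4) (@Lb.g g8 (@Lb.g g9 (@Lb.g g10 (@Lb.g g11 (@Lb.r r1699 (@Lb.r r1642 (@Lb.r r1561 (@Lb.d (nat_lit 681) (nat_lit 105) (nat_lit 641) (@Lb.fm (nat_lit 9) t175))))))))))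
noncomputable def l23729 : Lb := (@Lb.d (nat_lit 1) (nat_lit 546) (nat_lit 4) (@Lb.g g8 (@Lb.g g9 (@Lb.g g10 (@Lb.g g11 (@Lb.r r1707 (@Lb.r r616 (@Lb.r r86 (@Lb.r r2213 (@Lb.r r2068 (@Lb.d (nat_lit 297) (nat_lit 1) (nat_lit 169) (@Lb.fm (nat_lit 9) t74))))))))))))
noncomputable def l23730 : Lb := (@Lb.r r82 (@Lb.d (nat_lit 0) (nat_lit 546) (nat_lit 128) (@Lb.g g9 (@Lb.g g11 (@Lb.r r1575 (@Lb.r r386 (@Lb.r r2136 (@Lb.r r1061 (@Lb.d (nat_lit 409) (nat_lit 102) (nat_lit 394) (@Lb.fm (nat_lit 3) t152))))))))))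
noncomputable def l23731 : Lb := (@Lb.d (nat_lit 0) (nat_lit 289) (nat_lit 4) (@Lb.g g9 (@Lb.g g10 (@Lb.g g11 (@Lb.r r1699 (@Lb.r r1642 (@Lb.r r1561 (@Lb.d (nat_lit 681) (nat_lit 105) (nat_lit 641) (@Lb.t (@Lb.fp (nat_lit 9) t175))))))))))
noncomputable def l23732 : Lb := (@Lb.d (nat_lit 0) (nat_lit 290) (nat_lit 130) (@Lb.g g9 (@Lb.g g10 (@Lb.g g11 (@Lb.r r1703 (@Lb.r r1634 (@Lb.r r1553 (@Lb.d (nat_lit 96) (nat_lit 105) (nat_lit 641) (@Lb.t (@Lb.fp (nat_lit 9) t175))))))))))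
noncomputable def l23733 : Lb := (@Lb.d (nat_lit 280) (nat_lit 265) (nat_lit 32) (@Lb.g g4 (@Lb.d (nat_lit 1) (nat_lit 0) (nat_lit 0) (@Lb.t (@Lb.fm (nat_lit 3) t3792)))))
noncomputable def l23734 : Lb := (@Lb.g g5 (@Lb.r r134 (@Lb.r r328 (@Lb.r r407 (@Lb.r r609 (@Lb.d (nat_lit 0) (nat_lit 512) (nat_lit 85) (@Lb.t (@Lb.fp (nat_lit 3) t479))))))))
noncomputable def l23735 : Lb := (@Lb.d (nat_lit 0) (nat_lit 521) (nat_lit 73) (@Lb.g g9 (@Lb.g g10 (@Lb.g g11 (@Lb.r r1671 (@Lb.r r297 (@Lb.r r2376 (@Lb.r r1638 (@Lb.d (nat_lit 408) (nat_lit 90) (nat_lit 613) (@Lb.t (@Lb.fp (nat_lit 9) t1027)))))))))))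
noncomputable def l23736 : Lb := (@Lb.d (nat_lit 160) (nat_lit 260) (nat_lit 105) (@Lb.g g10 (@Lb.g g11 (@Lb.r r676 (@Lb.r r341 (@Lb.r r2731 (@Lb.d (nat_lit 612) (nat_lit 17) (nat_lit 9) (@Lb.fp (nat_lit 3) t494))))))))
noncomputable def l23737 : Lb := (@Lb.r r21 (@Lb.r r331 (@Lb.d (nat_lit 677) (nat_lit 256) (nat_lit 2) (@Lb.g g8 (@Lb.g g10 (@Lb.r r362 (@Lb.r r1411 (@Lb.r r25 (@Lb.d (nat_lit 0) (nat_lit 33) (nat_lit 618) (@Lb.fm (nat_lit 3) t842))))))))))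
noncomputable def l23738 : Lb := (@Lb.d (nat_lit 352) (nat_lit 6) (nat_lit 166) (@Lb.r r1636 (@Lb.r r2069 (@Lb.r r422 (@Lb.g g7 (@Lb.g g5 (@Lb.g g4 (@Lb.d (nat_lit 72) (nat_lit 0) (nat_lit 644) (@Lb.r r98 (@Lb.t (@Lb.fm (nat_lit 9) t3472)))))))))))
noncomputable def l23739 : Lb := (@Lb.g g8 (@Lb.g g7 (@Lb.r r609 (@Lb.r r363 (@Lb.r r328 (@Lb.r r134 (@Lb.d (nat_lit 517) (nat_lit 1) (nat_lit 144) (@Lb.fm (nat_lit 3) t40))))))))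
noncomputable def l23740 : Lb := (@Lb.r r21 (@Lb.d (nat_lit 2) (nat_lit 256) (nat_lit 74) (@Lb.g g8 (@Lb.g g10 (@Lb.g g11 (@Lb.r r2706 (@Lb.r r1415 (@Lb.r r97 (@Lb.r r2632 (@Lb.d (nat_lit 360) (nat_lit 2) (nat_lit 394) (@Lb.t (@Lb.fp (nat_lit 9) t1082))))))))))))
noncomputable def l23741 : Lb := (@Lb.d (nat_lit 522) (nat_lit 6) (nat_lit 145) (@Lb.r r24 (@Lb.r r2145 (@Lb.r r2327 (@Lb.g g10 (@Lb.g g4 (@Lb.d (nat_lit 1) (nat_lit 0) (nat_lit 2) (@Lb.r r387 (@Lb.fp (nat_lit 3) t4618)))))))))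
noncomputable def l23742 : Lb := (@Lb.d (nat_lit 8) (nat_lit 256) (nat_lit 74) (@Lb.g g8 (@Lb.g g10 (@Lb.g g11 (@Lb.r r1618 (@Lb.r r579 (@Lb.r r2341 (@Lb.r r2324 (@Lb.d (nat_lit 130) (nat_lit 98) (nat_lit 138) (@Lb.t (@Lb.fm (nat_lit 9) t504)))))))))))
noncomputable def l23743 : Lb := (@Lb.r r82 (@Lb.g g9 (@Lb.g g11 (@Lb.r r1575 (@Lb.r r386 (@Lb.r r2328 (@Lb.r r1637 (@Lb.d (nat_lit 265) (nat_lit 322) (nat_lit 16) (@Lb.fm (nat_lit 3) t152)))))))))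
noncomputable def l23744 : Lb := (@Lb.r r1045 (@Lb.d (nat_lit 261) (nat_lit 520) (nat_lit 2) (@Lb.g g4 (@Lb.g g10 (@Lb.g g11 (@Lb.r r387 (@Lb.d (nat_lit 1) (nat_lit 66) (nat_lit 137) (@Lb.t (@Lb.fp (nat_lit 9) t51)))))))))
noncomputable def l23745 : Lb := (@Lb.d (nat_lit 21) (nat_lit 554) (nat_lit 582) (@Lb.r r84 (@Lb.r r330 (@Lb.r r515 (@Lb.g g5 (@Lb.g g4 (@Lb.d (nat_lit 17) (nat_lit 129) (nat_lit 0) (@Lb.fp (nat_lit 3) t242))))))))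
noncomputable def l23746 : Lb := (@Lb.d (nat_lit 2) (nat_lit 514) (nat_lit 0) (@Lb.g g8 (@Lb.g g9 (@Lb.g g10 (@Lb.r r515 (@Lb.r r297 (@Lb.r r360 (@Lb.r r582 (@Lb.r r132 (@Lb.d (nat_lit 2) (nat_lit 169) (nat_lit 386) (@Lb.t (@Lb.fp (nat_lit 9) t242))))))))))))
noncomputable def l23747 : Lb := (@Lb.d (nat_lit 8) (nat_lit 9) (nat_lit 0) (@Lb.g g9 (@Lb.r r2311 (@Lb.r r2196 (@Lb.r r2454 (@Lb.r r601 (@Lb.d (nat_lit 617) (nat_lit 38) (nat_lit 16) (@Lb.t (@Lb.fm (nat_lit 3) t386)))))))))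
noncomputable def l23748 : Lb := (@Lb.r r323 (@Lb.d (nat_lit 0) (nat_lit 2) (nat_lit 1) (@Lb.g g8 (@Lb.g g9 (@Lb.g g6 (@Lb.r r387 (@Lb.r r97 (@Lb.d (nat_lit 0) (nat_lit 128) (nat_lit 0) (@Lb.t (@Lb.fm (nat_lit 9) t126))))))))))
noncomputable def l23749 : Lb := (@Lb.d (nat_lit 2) (nat_lit 2) (nat_lit 2) (@Lb.g g8 (@Lb.g g9 (@Lb.g g10 (@Lb.r r515 (@Lb.r r297 (@Lb.r r104 (@Lb.r r70 (@Lb.r r132 (@Lb.d (nat_lit 66) (nat_lit 169) (nat_lit 386) (@Lb.t (@Lb.fp (nat_lit 9) t242))))))))))))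
noncomputable def l23750 : Lb := (@Lb.d (nat_lit 520) (nat_lit 2) (nat_lit 0) (@Lb.r r68 (@Lb.r r346 (@Lb.r r88 (@Lb.r r2193 (@Lb.r r515 (@Lb.g g10 (@Lb.g g5 (@Lb.g g8 (@Lb.t (@Lb.fp (nat_lit 9) t242)))))))))))
noncomputable def l23751 : Lb := (@Lb.r r82 (@Lb.d (nat_lit 8) (nat_lit 514) (nat_lit 0) (@Lb.g g5 (@Lb.g g7 (@Lb.r r2152 (@Lb.r r1158 (@Lb.r r2209 (@Lb.d (nat_lit 2) (nat_lit 137) (nat_lit 34) (@Lb.fp (nat_lit 3) t1118)))))))))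
noncomputable def l23752 : Lb := (@Lb.d (nat_lit 128) (nat_lit 10) (nat_lit 577) (@Lb.g g9 (@Lb.g g10 (@Lb.g g11 (@Lb.r r2392 (@Lb.r r1190 (@Lb.r r1169 (@Lb.d (nat_lit 533) (nat_lit 72) (nat_lit 162) (@Lb.t (@Lb.fm (nat_lit 9) t224))))))))))
noncomputable def l23753 : Lb := (@Lb.d (nat_lit 129) (nat_lit 530) (nat_lit 68) (@Lb.g g8 (@Lb.g g9 (@Lb.g g10 (@Lb.g g11 (@Lb.r r610 (@Lb.r r2388 (@Lb.r r2395 (@Lb.r r2337 (@Lb.d (nat_lit 614) (nat_lit 81) (nat_lit 72) (@Lb.fm (nat_lit 9) t86)))))))))))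
noncomputable def l23754 : Lb := (@Lb.r r21 (@Lb.r r323 (@Lb.d (nat_lit 129) (nat_lit 260) (nat_lit 2) (@Lb.g g8 (@Lb.g g10 (@Lb.r r2631 (@Lb.r r145 (@Lb.r r1432 (@Lb.d (nat_lit 664) (nat_lit 106) (nat_lit 596) (@Lb.fm (nat_lit 3) t119))))))))))
noncomputable def l23755 : Lb := (@Lb.d (nat_lit 2) (nat_lit 536) (nat_lit 5) (@Lb.g g8 (@Lb.g g9 (@Lb.g g10 (@Lb.g g11 (@Lb.r r1691 (@Lb.r r406 (@Lb.r r1556 (@Lb.r r2409 (@Lb.d (nat_lit 422) (nat_lit 152) (nat_lit 165) (@Lb.fm (nat_lit 9) t152)))))))))))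
noncomputable def l23756 : Lb := (@Lb.d (nat_lit 416) (nat_lit 514) (nat_lit 356) (@Lb.r r24 (@Lb.r r1178 (@Lb.r r1691 (@Lb.g g7 (@Lb.g g6 (@Lb.g g9 (@Lb.d (nat_lit 8) (nat_lit 2) (nat_lit 134) (@Lb.t (@Lb.fp (nat_lit 9) t650))))))))))
noncomputable def l23757 : Lb := (@Lb.d (nat_lit 2) (nat_lit 517) (nat_lit 0) (@Lb.g g8 (@Lb.g g5 (@Lb.r r24 (@Lb.d (nat_lit 330) (nat_lit 0) (nat_lit 577) (@Lb.fm (nat_lit 3) t166))))))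
noncomputable def l23758 : Lb := (@Lb.r r20 (@Lb.r r275 (@Lb.d (nat_lit 0) (nat_lit 1) (nat_lit 2) (@Lb.g g5 (@Lb.g g10 (@Lb.r r1686 (@Lb.r r2376 (@Lb.r r1543 (@Lb.d (nat_lit 6) (nat_lit 144) (nat_lit 0) (@Lb.fm (nat_lit 3) t74))))))))))
noncomputable def l23759 : Lb := (@Lb.d (nat_lit 129) (nat_lit 274) (nat_lit 68) (@Lb.g g8 (@Lb.g g9 (@Lb.g g10 (@Lb.g g11 (@Lb.r r1435 (@Lb.r r353 (@Lb.r r1178 (@Lb.r r1156 (@Lb.d (nat_lit 320) (nat_lit 25) (nat_lit 344) (@Lb.fp (nat_lit 9) t86)))))))))))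
noncomputable def l23760 : Lb := (@Lb.r r263 (@Lb.d (nat_lit 22) (nat_lit 2) (nat_lit 0) (@Lb.g g8 (@Lb.g g9 (@Lb.g g10 (@Lb.r r2713 (@Lb.r r343 (@Lb.r r2698 (@Lb.r r520 (@Lb.d (nat_lit 66) (nat_lit 0) (nat_lit 321) (@Lb.t (@Lb.fm (nat_lit 9) t86))))))))))))
noncomputable def l23761 : Lb := (@Lb.d (nat_lit 2) (nat_lit 258) (nat_lit 2) (@Lb.g g8 (@Lb.g g9 (@Lb.g g10 (@Lb.r r515 (@Lb.r r145 (@Lb.r r356 (@Lb.r r154 (@Lb.r r132 (@Lb.d (nat_lit 9) (nat_lit 18) (nat_lit 69) (@Lb.t (@Lb.fm (nat_lit 9) t521))))))))))))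
noncomputable def l23762 : Lb := (@Lb.d (nat_lit 324) (nat_lit 600) (nat_lit 100) (@Lb.r r2648 (@Lb.r r2438 (@Lb.r r1563 (@Lb.g g7 (@Lb.g g9 (@Lb.g g4 (@Lb.d (nat_lit 82) (nat_lit 8) (nat_lit 128) (@Lb.r r74 (@Lb.t (@Lb.fp (nat_lit 9) t4370)))))))))))
noncomputable def l23763 : Lb := (@Lb.d (nat_lit 324) (nat_lit 88) (nat_lit 100) (@Lb.r r2648 (@Lb.r r2438 (@Lb.r r1563 (@Lb.g g7 (@Lb.g g9 (@Lb.g g4 (@Lb.d (nat_lit 89) (nat_lit 10) (nat_lit 128) (@Lb.r r74 (@Lb.t (@Lb.fp (nat_lit 9) t894)))))))))))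
noncomputable def l23764 : Lb := (@Lb.d (nat_lit 64) (nat_lit 266) (nat_lit 420) (@Lb.r r2370 (@Lb.r r1683 (@Lb.r r2389 (@Lb.g g7 (@Lb.g g6 (@Lb.g g5 (@Lb.g g4 (@Lb.d (nat_lit 293) (nat_lit 6) (nat_lit 134) (@Lb.fm (nat_lit 9) t4619))))))))))
noncomputable def l23765 : Lb := (@Lb.d (nat_lit 2) (nat_lit 260) (nat_lit 0) (@Lb.g g8 (@Lb.g g9 (@Lb.g g10 (@Lb.r r515 (@Lb.r r145 (@Lb.r r356 (@Lb.r r154 (@Lb.r r132 (@Lb.d (nat_lit 0) (nat_lit 16) (nat_lit 69) (@Lb.t (@Lb.fm (nat_lit 9) t4620))))))))))))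
noncomputable def l23766 : Lb := (@Lb.g g10 (@Lb.d (nat_lit 0) (nat_lit 10) (nat_lit 137) (@Lb.t (@Lb.fp (nat_lit 3) t21))))
noncomputable def l23767 : Lb := (@Lb.d (nat_lit 33) (nat_lit 514) (nat_lit 73) (@Lb.g g8 (@Lb.g g9 (@Lb.g g10 (@Lb.g g11 (@Lb.r r421 (@Lb.r r347 (@Lb.r r1690 (@Lb.r r81 (@Lb.r r2180 (@Lb.d (nat_lit 388) (nat_lit 165) (nat_lit 152) (@Lb.fp (nat_lit 9) t329))))))))))))
noncomputable def l23768 : Lb := (@Lb.r r70 (@Lb.d (nat_lit 169) (nat_lit 521) (nat_lit 64) (@Lb.g g8 (@Lb.g g9 (@Lb.g g11 (@Lb.r r2666 (@Lb.r r2395 (@Lb.r r2597 (@Lb.r r660 (@Lb.d (nat_lit 538) (nat_lit 97) (nat_lit 660) (@Lb.t (@Lb.fp (nat_lit 9) t329))))))))))))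
noncomputable def l23769 : Lb := (@Lb.d (nat_lit 9) (nat_lit 512) (nat_lit 64) (@Lb.g g8 (@Lb.g g11 (@Lb.r r337 (@Lb.r r679 (@Lb.r r340 (@Lb.r r170 (@Lb.r r153 (@Lb.d (nat_lit 293) (nat_lit 8) (nat_lit 161) (@Lb.fm (nat_lit 3) t4621))))))))))
noncomputable def l23770 : Lb := (@Lb.d (nat_lit 4) (nat_lit 657) (nat_lit 532) (@Lb.r r1361 (@Lb.r r2471 (@Lb.r r612 (@Lb.r r154 (@Lb.g g7 (@Lb.g g5 (@Lb.d (nat_lit 4) (nat_lit 1) (nat_lit 64) (@Lb.fp (nat_lit 3) t154)))))))))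
noncomputable def l23771 : Lb := (@Lb.r r21 (@Lb.d (nat_lit 33) (nat_lit 256) (nat_lit 72) (@Lb.g g8 (@Lb.g g10 (@Lb.g g11 (@Lb.r r651 (@Lb.r r138 (@Lb.r r2453 (@Lb.r r1608 (@Lb.d (nat_lit 42) (nat_lit 128) (nat_lit 405) (@Lb.t (@Lb.fp (nat_lit 9) t1435))))))))))))
noncomputable def l23772 : Lb := (@Lb.d (nat_lit 2) (nat_lit 9) (nat_lit 72) (@Lb.g g8 (@Lb.g g9 (@Lb.g g10 (@Lb.g g11 (@Lb.r r2666 (@Lb.r r579 (@Lb.r r97 (@Lb.r r24 (@Lb.d (nat_lit 153) (nat_lit 9) (nat_lit 326) (@Lb.fm (nat_lit 9) t4622)))))))))))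
noncomputable def l23773 : Lb := (@Lb.d (nat_lit 33) (nat_lit 258) (nat_lit 73) (@Lb.g g8 (@Lb.g g9 (@Lb.g g10 (@Lb.g g11 (@Lb.r r2658 (@Lb.r r579 (@Lb.r r105 (@Lb.r r1540 (@Lb.d (nat_lit 405) (nat_lit 5) (nat_lit 320) (@Lb.fp (nat_lit 9) t4623)))))))))))
noncomputable def l23774 : Lb := (@Lb.d (nat_lit 10) (nat_lit 337) (nat_lit 650) (@Lb.r r657 (@Lb.r r346 (@Lb.r r100 (@Lb.g g11 (@Lb.g g5 (@Lb.d (nat_lit 8) (nat_lit 1) (nat_lit 0) (@Lb.fp (nat_lit 3) t1137))))))))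
noncomputable def l23775 : Lb := (@Lb.d (nat_lit 164) (nat_lit 344) (nat_lit 514) (@Lb.r r676 (@Lb.r r150 (@Lb.r r361 (@Lb.g g11 (@Lb.g g5 (@Lb.g g4 (@Lb.d (nat_lit 16) (nat_lit 1) (nat_lit 0) (@Lb.t (@Lb.fm (nat_lit 9) t275))))))))))
noncomputable def l23776 : Lb := (@Lb.d (nat_lit 9) (nat_lit 512) (nat_lit 0) (@Lb.g g8 (@Lb.d (nat_lit 10) (nat_lit 130) (nat_lit 128) (@Lb.t (@Lb.fp (nat_lit 3) t2)))))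
noncomputable def l23777 : Lb := (@Lb.r r20 (@Lb.d (nat_lit 0) (nat_lit 38) (nat_lit 128) (@Lb.g g9 (@Lb.g g10 (@Lb.g g11 (@Lb.r r1698 (@Lb.r r387 (@Lb.r r2193 (@Lb.d (nat_lit 0) (nat_lit 21) (nat_lit 393) (@Lb.t (@Lb.fp (nat_lit 9) t1370)))))))))))
noncomputable def l23778 : Lb := (@Lb.r r82 (@Lb.r r275 (@Lb.d (nat_lit 10) (nat_lit 2) (nat_lit 0) (@Lb.g g8 (@Lb.g g9 (@Lb.r r2315 (@Lb.r r2122 (@Lb.r r145 (@Lb.d (nat_lit 26) (nat_lit 10) (nat_lit 18) (@Lb.fm (nat_lit 3) t8))))))))))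
noncomputable def l23779 : Lb := (@Lb.d (nat_lit 2) (nat_lit 512) (nat_lit 0) (@Lb.g g8 (@Lb.r r2315 (@Lb.r r2122 (@Lb.r r2073 (@Lb.r r24 (@Lb.d (nat_lit 553) (nat_lit 68) (nat_lit 16) (@Lb.t (@Lb.fm (nat_lit 3) t4624)))))))))
noncomputable def l23780 : Lb := (@Lb.r r263 (@Lb.d (nat_lit 0) (nat_lit 578) (nat_lit 2) (@Lb.g g8 (@Lb.g g9 (@Lb.g g10 (@Lb.r r2475 (@Lb.r r98 (@Lb.r r2180 (@Lb.d (nat_lit 0) (nat_lit 9) (nat_lit 18) (@Lb.t (@Lb.fm (nat_lit 9) t4625)))))))))))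
noncomputable def l23781 : Lb := (@Lb.d (nat_lit 329) (nat_lit 16) (nat_lit 146) (@Lb.r r662 (@Lb.r r328 (@Lb.r r293 (@Lb.r r1299 (@Lb.g g7 (@Lb.g g6 (@Lb.g g5 (@Lb.d (nat_lit 16) (nat_lit 6) (nat_lit 129) (@Lb.t (@Lb.fm (nat_lit 9) t4626)))))))))))
noncomputable def l23782 : Lb := (@Lb.d (nat_lit 1) (nat_lit 0) (nat_lit 2) (@Lb.g g8 (@Lb.g g10 (@Lb.r r1707 (@Lb.r r2713 (@Lb.r r2650 (@Lb.r r2628 (@Lb.d (nat_lit 153) (nat_lit 65) (nat_lit 425) (@Lb.fp (nat_lit 3) t441)))))))))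
noncomputable def l23783 : Lb := (@Lb.d (nat_lit 9) (nat_lit 6) (nat_lit 74) (@Lb.g g8 (@Lb.g g9 (@Lb.g g10 (@Lb.g g11 (@Lb.r r1699 (@Lb.r r596 (@Lb.r r682 (@Lb.r r2217 (@Lb.r r2212 (@Lb.d (nat_lit 580) (nat_lit 33) (nat_lit 586) (@Lb.fm (nat_lit 9) t728))))))))))))
noncomputable def l23784 : Lb := (@Lb.d (nat_lit 40) (nat_lit 273) (nat_lit 73) (@Lb.g g5 (@Lb.g g10 (@Lb.g g11 (@Lb.r r1687 (@Lb.r r100 (@Lb.r r74 (@Lb.d (nat_lit 424) (nat_lit 138) (nat_lit 646) (@Lb.t (@Lb.fm (nat_lit 9) t510))))))))))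
noncomputable def l23785 : Lb := (@Lb.d (nat_lit 2) (nat_lit 514) (nat_lit 73) (@Lb.g g8 (@Lb.g g9 (@Lb.g g10 (@Lb.g g11 (@Lb.r r427 (@Lb.r r420 (@Lb.r r102 (@Lb.r r21 (@Lb.r r36 (@Lb.d (nat_lit 521) (nat_lit 4) (nat_lit 33) (@Lb.fp (nat_lit 9) t221))))))))))))
noncomputable def l23786 : Lb := (@Lb.d (nat_lit 89) (nat_lit 538) (nat_lit 20) (@Lb.r r360 (@Lb.r r81 (@Lb.r r2647 (@Lb.g g6 (@Lb.g g5 (@Lb.g g4 (@Lb.d (nat_lit 72) (nat_lit 0) (nat_lit 17) (@Lb.r r387 (@Lb.t (@Lb.fp (nat_lit 9) t4102)))))))))))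
noncomputable def l23787 : Lb := (@Lb.d (nat_lit 4) (nat_lit 0) (nat_lit 130) (@Lb.g g8 (@Lb.g g9 (@Lb.g g10 (@Lb.g g11 (@Lb.r r427 (@Lb.r r420 (@Lb.r r102 (@Lb.r r97 (@Lb.r r36 (@Lb.d (nat_lit 2) (nat_lit 9) (nat_lit 73) (@Lb.fm (nat_lit 9) t119))))))))))))
noncomputable def l23788 : Lb := (@Lb.r r323 (@Lb.d (nat_lit 2) (nat_lit 2) (nat_lit 32) (@Lb.g g8 (@Lb.g g9 (@Lb.g g10 (@Lb.r r387 (@Lb.r r2585 (@Lb.d (nat_lit 329) (nat_lit 0) (nat_lit 400) (@Lb.t (@Lb.fm (nat_lit 9) t121))))))))))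
noncomputable def l23789 : Lb := (@Lb.d (nat_lit 2) (nat_lit 33) (nat_lit 130) (@Lb.g g8 (@Lb.g g9 (@Lb.g g10 (@Lb.g g11 (@Lb.r r387 (@Lb.r r1642 (@Lb.r r1561 (@Lb.d (nat_lit 585) (nat_lit 132) (nat_lit 9) (@Lb.fp (nat_lit 9) t719))))))))))
noncomputable def l23790 : Lb := (@Lb.d (nat_lit 96) (nat_lit 549) (nat_lit 32) (@Lb.r r402 (@Lb.r r101 (@Lb.g g7 (@Lb.g g4 (@Lb.d (nat_lit 1) (nat_lit 0) (nat_lit 68) (@Lb.fm (nat_lit 3) t800)))))))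
noncomputable def l23791 : Lb := (@Lb.r r579 (@Lb.r r402 (@Lb.d (nat_lit 0) (nat_lit 320) (nat_lit 144) (@Lb.fp (nat_lit 1) t334))))
noncomputable def l23792 : Lb := (@Lb.d (nat_lit 521) (nat_lit 128) (nat_lit 256) (@Lb.r r20 (@Lb.r r2145 (@Lb.r r402 (@Lb.r r1291 (@Lb.g g11 (@Lb.g g8 (@Lb.fm (nat_lit 3) t981))))))))
noncomputable def l23793 : Lb := (@Lb.r r21 (@Lb.r r323 (@Lb.d (nat_lit 10) (nat_lit 256) (nat_lit 0) (@Lb.g g8 (@Lb.g g10 (@Lb.r r2650 (@Lb.r r579 (@Lb.r r37 (@Lb.d (nat_lit 2) (nat_lit 0) (nat_lit 0) (@Lb.fm (nat_lit 3) t51))))))))))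
noncomputable def l23794 : Lb := (@Lb.r r1307 (@Lb.r r1114 (@Lb.r r41 (@Lb.d (nat_lit 518) (nat_lit 0) (nat_lit 0) (@Lb.fm (nat_lit 1) t353)))))
noncomputable def l23795 : Lb := (@Lb.d (nat_lit 520) (nat_lit 0) (nat_lit 0) (@Lb.r r2085 (@Lb.r r1126 (@Lb.r r1319 (@Lb.g g4 (@Lb.d (nat_lit 1) (nat_lit 0) (nat_lit 0) (@Lb.t (@Lb.fp (nat_lit 3) t1751))))))))
noncomputable def l23796 : Lb := (@Lb.r r275 (@Lb.d (nat_lit 134) (nat_lit 257) (nat_lit 2) (@Lb.g g8 (@Lb.g g9 (@Lb.g g10 (@Lb.r r362 (@Lb.r r391 (@Lb.r r401 (@Lb.r r516 (@Lb.d (nat_lit 130) (nat_lit 16) (nat_lit 88) (@Lb.t (@Lb.fm (nat_lit 9) t390))))))))))))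
noncomputable def l23797 : Lb := (@Lb.r r101 (@Lb.r r402 (@Lb.d (nat_lit 96) (nat_lit 0) (nat_lit 66) (@Lb.fp (nat_lit 1) t311))))
noncomputable def l23798 : Lb := (@Lb.d (nat_lit 2) (nat_lit 512) (nat_lit 0) (@Lb.g g8 (@Lb.d (nat_lit 10) (nat_lit 2) (nat_lit 64) (@Lb.t (@Lb.fp (nat_lit 3) t2)))))
noncomputable def l23799 : Lb := (@Lb.d (nat_lit 26) (nat_lit 548) (nat_lit 64) (@Lb.g g8 (@Lb.g g9 (@Lb.g g10 (@Lb.g g11 (@Lb.r r1698 (@Lb.r r2439 (@Lb.r r552 (@Lb.r r2201 (@Lb.d (nat_lit 21) (nat_lit 86) (nat_lit 681) (@Lb.fp (nat_lit 9) t3406)))))))))))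
noncomputable def l23800 : Lb := (@Lb.d (nat_lit 2) (nat_lit 520) (nat_lit 74) (@Lb.g g8 (@Lb.g g10 (@Lb.g g11 (@Lb.r r423 (@Lb.r r2601 (@Lb.r r1704 (@Lb.r r2186 (@Lb.d (nat_lit 520) (nat_lit 90) (nat_lit 280) (@Lb.t (@Lb.fp (nat_lit 9) t4483)))))))))))
noncomputable def l23801 : Lb := (@Lb.d (nat_lit 2) (nat_lit 514) (nat_lit 74) (@Lb.g g8 (@Lb.g g9 (@Lb.g g10 (@Lb.g g11 (@Lb.r r1194 (@Lb.r r292 (@Lb.r r411 (@Lb.r r533 (@Lb.r r2084 (@Lb.d (nat_lit 677) (nat_lit 64) (nat_lit 330) (@Lb.fm (nat_lit 9) t228))))))))))))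
noncomputable def l23802 : Lb := (@Lb.r r21 (@Lb.d (nat_lit 82) (nat_lit 0) (nat_lit 72) (@Lb.g g8 (@Lb.g g10 (@Lb.g g11 (@Lb.r r1603 (@Lb.r r1178 (@Lb.r r97 (@Lb.r r520 (@Lb.d (nat_lit 585) (nat_lit 1) (nat_lit 640) (@Lb.t (@Lb.fm (nat_lit 9) t722))))))))))))
noncomputable def l23803 : Lb := (@Lb.d (nat_lit 2) (nat_lit 514) (nat_lit 74) (@Lb.g g8 (@Lb.g g9 (@Lb.g g10 (@Lb.g g11 (@Lb.r r1666 (@Lb.r r1431 (@Lb.r r97 (@Lb.r r2584 (@Lb.d (nat_lit 104) (nat_lit 169) (nat_lit 417) (@Lb.fm (nat_lit 9) t777)))))))))))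
noncomputable def l23804 : Lb := (@Lb.d (nat_lit 32) (nat_lit 520) (nat_lit 72) (@Lb.g g10 (@Lb.g g11 (@Lb.r r1643 (@Lb.r r1640 (@Lb.r r617 (@Lb.r r1366 (@Lb.d (nat_lit 534) (nat_lit 149) (nat_lit 278) (@Lb.fp (nat_lit 3) t322)))))))))
noncomputable def l23805 : Lb := (@Lb.d (nat_lit 21) (nat_lit 38) (nat_lit 64) (@Lb.g g8 (@Lb.g g9 (@Lb.g g10 (@Lb.g g11 (@Lb.r r1698 (@Lb.r r2439 (@Lb.r r552 (@Lb.r r2201 (@Lb.d (nat_lit 21) (nat_lit 86) (nat_lit 681) (@Lb.fp (nat_lit 9) t3406)))))))))))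
noncomputable def l23806 : Lb := (@Lb.r r275 (@Lb.d (nat_lit 34) (nat_lit 258) (nat_lit 2) (@Lb.g g8 (@Lb.g g9 (@Lb.g g10 (@Lb.r r683 (@Lb.r r2218 (@Lb.r r1177 (@Lb.r r2200 (@Lb.d (nat_lit 25) (nat_lit 9) (nat_lit 34) (@Lb.t (@Lb.fp (nat_lit 9) t4627))))))))))))
noncomputable def l23807 : Lb := (@Lb.r r82 (@Lb.d (nat_lit 134) (nat_lit 0) (nat_lit 128) (@Lb.g g8 (@Lb.g g9 (@Lb.g g11 (@Lb.r r1705 (@Lb.r r1443 (@Lb.r r98 (@Lb.r r2084 (@Lb.d (nat_lit 105) (nat_lit 68) (nat_lit 104) (@Lb.t (@Lb.fp (nat_lit 9) t3523))))))))))))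
noncomputable def l23808 : Lb := (@Lb.r r323 (@Lb.d (nat_lit 2) (nat_lit 2) (nat_lit 0) (@Lb.g g8 (@Lb.g g9 (@Lb.g g10 (@Lb.r r2459 (@Lb.r r297 (@Lb.r r1384 (@Lb.r r2630 (@Lb.d (nat_lit 2) (nat_lit 64) (nat_lit 132) (@Lb.t (@Lb.fm (nat_lit 9) t1254))))))))))))
noncomputable def l23809 : Lb := (@Lb.d (nat_lit 134) (nat_lit 150) (nat_lit 320) (@Lb.r r1560 (@Lb.r r97 (@Lb.r r1643 (@Lb.g g7 (@Lb.g g10 (@Lb.g g5 (@Lb.g g4 (@Lb.d (nat_lit 24) (nat_lit 10) (nat_lit 65) (@Lb.fp (nat_lit 9) t715))))))))))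
noncomputable def l23810 : Lb := (@Lb.d (nat_lit 678) (nat_lit 133) (nat_lit 272) (@Lb.r r2196 (@Lb.r r1414 (@Lb.r r1363 (@Lb.r r529 (@Lb.g g7 (@Lb.g g5 (@Lb.d (nat_lit 0) (nat_lit 1) (nat_lit 64) (@Lb.fp (nat_lit 3) t1470)))))))))
noncomputable def l23811 : Lb := (@Lb.d (nat_lit 34) (nat_lit 5) (nat_lit 1) (@Lb.r r101 (@Lb.r r323 (@Lb.g g10 (@Lb.d (nat_lit 0) (nat_lit 0) (nat_lit 2) (@Lb.r r387 (@Lb.t (@Lb.fm (nat_lit 3) t594))))))))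
noncomputable def l23812 : Lb := (@Lb.d (nat_lit 274) (nat_lit 137) (nat_lit 18) (@Lb.r r101 (@Lb.r r2403 (@Lb.g g6 (@Lb.d (nat_lit 0) (nat_lit 8) (nat_lit 2) (@Lb.t (@Lb.fp (nat_lit 3) t4628)))))))
noncomputable def l23813 : Lb := (@Lb.r r323 (@Lb.d (nat_lit 129) (nat_lit 2) (nat_lit 24) (@Lb.g g8 (@Lb.g g9 (@Lb.g g10 (@Lb.r r1623 (@Lb.r r2345 (@Lb.r r2340 (@Lb.d (nat_lit 584) (nat_lit 98) (nat_lit 658) (@Lb.t (@Lb.fm (nat_lit 9) t386)))))))))))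
noncomputable def l23814 : Lb := (@Lb.d (nat_lit 2) (nat_lit 36) (nat_lit 130) (@Lb.g g8 (@Lb.g g9 (@Lb.g g10 (@Lb.g g11 (@Lb.r r1602 (@Lb.r r2647 (@Lb.r r1177 (@Lb.r r24 (@Lb.d (nat_lit 613) (nat_lit 80) (nat_lit 70) (@Lb.fp (nat_lit 9) t4629)))))))))))
noncomputable def l23815 : Lb := (@Lb.r r273 (@Lb.d (nat_lit 10) (nat_lit 512) (nat_lit 578) (@Lb.g g8 (@Lb.g g10 (@Lb.g g7 (@Lb.r r386 (@Lb.r r149 (@Lb.r r1192 (@Lb.d (nat_lit 81) (nat_lit 133) (nat_lit 617) (@Lb.t (@Lb.fp (nat_lit 9) t3054)))))))))))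
noncomputable def l23816 : Lb := (@Lb.d (nat_lit 5) (nat_lit 166) (nat_lit 294) (@Lb.r r21 (@Lb.r r1366 (@Lb.r r683 (@Lb.g g6 (@Lb.g g5 (@Lb.g g4 (@Lb.d (nat_lit 8) (nat_lit 10) (nat_lit 0) (@Lb.t (@Lb.fm (nat_lit 9) t40))))))))))
noncomputable def l23817 : Lb := (@Lb.d (nat_lit 513) (nat_lit 406) (nat_lit 594) (@Lb.r r8 (@Lb.r r1317 (@Lb.r r599 (@Lb.g g6 (@Lb.g g5 (@Lb.d (nat_lit 0) (nat_lit 18) (nat_lit 33) (@Lb.r r387 (@Lb.fp (nat_lit 3) t162)))))))))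
noncomputable def l23818 : Lb := (@Lb.g g8 (@Lb.g g7 (@Lb.r r2331 (@Lb.r r2138 (@Lb.r r2085 (@Lb.d (nat_lit 260) (nat_lit 256) (nat_lit 69) (@Lb.fm (nat_lit 3) t51)))))))
noncomputable def l23819 : Lb := (@Lb.d (nat_lit 74) (nat_lit 150) (nat_lit 594) (@Lb.r r8 (@Lb.r r1321 (@Lb.r r595 (@Lb.g g6 (@Lb.g g5 (@Lb.d (nat_lit 0) (nat_lit 17) (nat_lit 33) (@Lb.r r387 (@Lb.fp (nat_lit 3) t162)))))))))
noncomputable def l23820 : Lb := (@Lb.d (nat_lit 72) (nat_lit 662) (nat_lit 594) (@Lb.r r8 (@Lb.r r1321 (@Lb.r r595 (@Lb.g g6 (@Lb.g g5 (@Lb.d (nat_lit 0) (nat_lit 17) (nat_lit 33) (@Lb.r r387 (@Lb.fp (nat_lit 3) t162)))))))))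
noncomputable def l23821 : Lb := (@Lb.d (nat_lit 152) (nat_lit 264) (nat_lit 64) (@Lb.g g8 (@Lb.g g10 (@Lb.g g11 (@Lb.r r1307 (@Lb.r r81 (@Lb.r r2662 (@Lb.r r420 (@Lb.d (nat_lit 609) (nat_lit 38) (nat_lit 136) (@Lb.t (@Lb.fm (nat_lit 9) t128)))))))))))
noncomputable def l23822 : Lb := (@Lb.r r2311 (@Lb.r r2118 (@Lb.r r24 (@Lb.r r2085 (@Lb.d (nat_lit 0) (nat_lit 129) (nat_lit 0) (@Lb.fp (nat_lit 1) t51))))))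
noncomputable def l23823 : Lb := (@Lb.d (nat_lit 72) (nat_lit 150) (nat_lit 537) (@Lb.r r8 (@Lb.r r1321 (@Lb.r r595 (@Lb.g g6 (@Lb.g g5 (@Lb.d (nat_lit 0) (nat_lit 17) (nat_lit 33) (@Lb.r r387 (@Lb.fp (nat_lit 3) t162)))))))))
noncomputable def l23824 : Lb := (@Lb.r r21 (@Lb.r r326 (@Lb.d (nat_lit 160) (nat_lit 32) (nat_lit 128) (@Lb.g g8 (@Lb.g g11 (@Lb.r r662 (@Lb.r r89 (@Lb.r r88 (@Lb.d (nat_lit 582) (nat_lit 5) (nat_lit 32) (@Lb.fm (nat_lit 3) t4630))))))))))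
noncomputable def l23825 : Lb := (@Lb.d (nat_lit 168) (nat_lit 36) (nat_lit 133) (@Lb.g g8 (@Lb.g g9 (@Lb.g g10 (@Lb.g g11 (@Lb.r r1698 (@Lb.r r2439 (@Lb.r r1365 (@Lb.r r1608 (@Lb.d (nat_lit 320) (nat_lit 2) (nat_lit 682) (@Lb.fp (nat_lit 9) t4631)))))))))))
noncomputable def l23826 : Lb := (@Lb.d (nat_lit 530) (nat_lit 258) (nat_lit 64) (@Lb.g g8 (@Lb.g g9 (@Lb.g g11 (@Lb.r r1367 (@Lb.r r2178 (@Lb.r r1625 (@Lb.d (nat_lit 617) (nat_lit 105) (nat_lit 266) (@Lb.t (@Lb.fp (nat_lit 9) t4632))))))))))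
noncomputable def l23827 : Lb := (@Lb.d (nat_lit 18) (nat_lit 129) (nat_lit 64) (@Lb.g g8 (@Lb.g g5 (@Lb.g g10 (@Lb.g g11 (@Lb.r r532 (@Lb.r r327 (@Lb.r r1670 (@Lb.r r1156 (@Lb.d (nat_lit 282) (nat_lit 72) (nat_lit 290) (@Lb.fp (nat_lit 9) t1059)))))))))))
noncomputable def l23828 : Lb := (@Lb.r r82 (@Lb.d (nat_lit 645) (nat_lit 544) (nat_lit 0) (@Lb.g g4 (@Lb.g g9 (@Lb.r r2331 (@Lb.r r2122 (@Lb.r r549 (@Lb.d (nat_lit 514) (nat_lit 66) (nat_lit 128) (@Lb.fm (nat_lit 3) t199)))))))))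
noncomputable def l23829 : Lb := (@Lb.d (nat_lit 2) (nat_lit 258) (nat_lit 2) (@Lb.g g8 (@Lb.g g9 (@Lb.g g10 (@Lb.r r2666 (@Lb.r r579 (@Lb.r r2337 (@Lb.r r24 (@Lb.d (nat_lit 586) (nat_lit 144) (nat_lit 320) (@Lb.t (@Lb.fp (nat_lit 9) t504)))))))))))
noncomputable def l23830 : Lb := (@Lb.d (nat_lit 645) (nat_lit 298) (nat_lit 1) (@Lb.g g4 (@Lb.g g9 (@Lb.g g10 (@Lb.r r2395 (@Lb.r r1158 (@Lb.r r2657 (@Lb.d (nat_lit 341) (nat_lit 138) (nat_lit 392) (@Lb.t (@Lb.fp (nat_lit 9) t199))))))))))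
noncomputable def l23831 : Lb := (@Lb.d (nat_lit 4) (nat_lit 10) (nat_lit 129) (@Lb.g g8 (@Lb.g g9 (@Lb.g g10 (@Lb.g g11 (@Lb.r r2651 (@Lb.r r657 (@Lb.r r146 (@Lb.r r2344 (@Lb.d (nat_lit 266) (nat_lit 6) (nat_lit 136) (@Lb.fm (nat_lit 9) t3510)))))))))))
noncomputable def l23832 : Lb := (@Lb.d (nat_lit 37) (nat_lit 522) (nat_lit 129) (@Lb.g g8 (@Lb.g g9 (@Lb.g g10 (@Lb.g g11 (@Lb.r r1707 (@Lb.r r1704 (@Lb.r r2409 (@Lb.r r2386 (@Lb.d (nat_lit 353) (nat_lit 8) (nat_lit 534) (@Lb.fm (nat_lit 9) t1923)))))))))))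
noncomputable def l23833 : Lb := (@Lb.r r70 (@Lb.d (nat_lit 2) (nat_lit 258) (nat_lit 0) (@Lb.g g8 (@Lb.g g9 (@Lb.g g11 (@Lb.r r164 (@Lb.r r1414 (@Lb.r r579 (@Lb.r r2337 (@Lb.d (nat_lit 2) (nat_lit 144) (nat_lit 320) (@Lb.t (@Lb.fp (nat_lit 9) t2661))))))))))))
noncomputable def l23834 : Lb := (@Lb.d (nat_lit 2) (nat_lit 2) (nat_lit 2) (@Lb.g g8 (@Lb.g g9 (@Lb.g g10 (@Lb.g g11 (@Lb.r r2666 (@Lb.r r579 (@Lb.r r2337 (@Lb.r r24 (@Lb.d (nat_lit 580) (nat_lit 80) (nat_lit 320) (@Lb.fm (nat_lit 9) t3109)))))))))))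
noncomputable def l23835 : Lb := (@Lb.d (nat_lit 0) (nat_lit 2) (nat_lit 0) (@Lb.g g9 (@Lb.g g11 (@Lb.r r1634 (@Lb.r r2657 (@Lb.d (nat_lit 0) (nat_lit 98) (nat_lit 393) (@Lb.fp (nat_lit 3) t4633)))))))
noncomputable def l23836 : Lb := (@Lb.d (nat_lit 2) (nat_lit 512) (nat_lit 66) (@Lb.g g8 (@Lb.g g9 (@Lb.g g10 (@Lb.g g7 (@Lb.r r386 (@Lb.r r20 (@Lb.r r105 (@Lb.r r36 (@Lb.d (nat_lit 608) (nat_lit 0) (nat_lit 553) (@Lb.fm (nat_lit 9) t1150)))))))))))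
noncomputable def l23837 : Lb := (@Lb.d (nat_lit 2) (nat_lit 521) (nat_lit 1) (@Lb.g g8 (@Lb.g g9 (@Lb.g g10 (@Lb.g g11 (@Lb.r r1706 (@Lb.r r648 (@Lb.r r1563 (@Lb.r r2337 (@Lb.r r36 (@Lb.d (nat_lit 641) (nat_lit 105) (nat_lit 66) (@Lb.fp (nat_lit 9) t98))))))))))))
noncomputable def l23838 : Lb := (@Lb.r r21 (@Lb.d (nat_lit 33) (nat_lit 256) (nat_lit 129) (@Lb.g g8 (@Lb.g g6 (@Lb.g g11 (@Lb.r r1611 (@Lb.r r2453 (@Lb.r r1608 (@Lb.d (nat_lit 360) (nat_lit 2) (nat_lit 520) (@Lb.t (@Lb.fp (nat_lit 9) t1923)))))))))))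
noncomputable def l23839 : Lb := (@Lb.d (nat_lit 2) (nat_lit 609) (nat_lit 0) (@Lb.g g8 (@Lb.g g5 (@Lb.r r322 (@Lb.r r1667 (@Lb.r r578 (@Lb.r r24 (@Lb.d (nat_lit 10) (nat_lit 0) (nat_lit 16) (@Lb.fp (nat_lit 3) t40)))))))))
noncomputable def l23840 : Lb := (@Lb.d (nat_lit 16) (nat_lit 0) (nat_lit 66) (@Lb.g g10 (@Lb.g g7 (@Lb.r r424 (@Lb.r r617 (@Lb.r r338 (@Lb.d (nat_lit 608) (nat_lit 22) (nat_lit 549) (@Lb.fp (nat_lit 3) t1150))))))))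
noncomputable def l23841 : Lb := (@Lb.r r323 (@Lb.d (nat_lit 33) (nat_lit 514) (nat_lit 2) (@Lb.g g8 (@Lb.g g9 (@Lb.g g10 (@Lb.r r1689 (@Lb.r r1563 (@Lb.r r1540 (@Lb.d (nat_lit 418) (nat_lit 0) (nat_lit 609) (@Lb.t (@Lb.fp (nat_lit 9) t86)))))))))))
noncomputable def l23842 : Lb := (@Lb.d (nat_lit 32) (nat_lit 8) (nat_lit 133) (@Lb.g g10 (@Lb.g g11 (@Lb.r r1387 (@Lb.r r2660 (@Lb.r r1637 (@Lb.r r346 (@Lb.d (nat_lit 170) (nat_lit 22) (nat_lit 134) (@Lb.fp (nat_lit 3) t322)))))))))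
noncomputable def l23843 : Lb := (@Lb.d (nat_lit 9) (nat_lit 520) (nat_lit 130) (@Lb.g g8 (@Lb.g g9 (@Lb.g g10 (@Lb.g g11 (@Lb.r r2731 (@Lb.r r680 (@Lb.r r2186 (@Lb.r r97 (@Lb.r r1060 (@Lb.d (nat_lit 528) (nat_lit 101) (nat_lit 673) (@Lb.fp (nat_lit 9) t916))))))))))))
noncomputable def l23844 : Lb := (@Lb.r r21 (@Lb.r r70 (@Lb.r r2311 (@Lb.d (nat_lit 549) (nat_lit 512) (nat_lit 0) (@Lb.g g4 (@Lb.r r101 (@Lb.r r2450 (@Lb.d (nat_lit 1) (nat_lit 36) (nat_lit 613) (@Lb.t (@Lb.fm (nat_lit 3) t4369))))))))))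
noncomputable def l23845 : Lb := (@Lb.d (nat_lit 0) (nat_lit 128) (nat_lit 325) (@Lb.r r402 (@Lb.g g11 (@Lb.t (@Lb.fm (nat_lit 3) t334)))))
noncomputable def l23846 : Lb := (@Lb.d (nat_lit 0) (nat_lit 0) (nat_lit 389) (@Lb.r r579 (@Lb.r r1346 (@Lb.g g6 (@Lb.t (@Lb.fp (nat_lit 3) t2))))))
noncomputable def l23847 : Lb := (@Lb.d (nat_lit 2) (nat_lit 289) (nat_lit 64) (@Lb.g g8 (@Lb.g g9 (@Lb.g g10 (@Lb.g g11 (@Lb.r r2730 (@Lb.r r1700 (@Lb.r r1575 (@Lb.r r2577 (@Lb.d (nat_lit 261) (nat_lit 96) (nat_lit 330) (@Lb.fp (nat_lit 9) t264)))))))))))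
noncomputable def l23848 : Lb := (@Lb.d (nat_lit 6) (nat_lit 146) (nat_lit 389) (@Lb.r r21 (@Lb.r r579 (@Lb.r r1366 (@Lb.g g6 (@Lb.g g5 (@Lb.g g4 (@Lb.d (nat_lit 0) (nat_lit 1) (nat_lit 1) (@Lb.t (@Lb.fm (nat_lit 9) t319))))))))))
noncomputable def l23849 : Lb := (@Lb.g g10 (@Lb.g g7 (@Lb.r r394 (@Lb.r r2371 (@Lb.r r2626 (@Lb.d (nat_lit 512) (nat_lit 256) (nat_lit 0) (@Lb.fm (nat_lit 3) t441)))))))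
noncomputable def l23850 : Lb := (@Lb.d (nat_lit 0) (nat_lit 256) (nat_lit 10) (@Lb.g g6 (@Lb.r r1671 (@Lb.r r646 (@Lb.d (nat_lit 402) (nat_lit 0) (nat_lit 393) (@Lb.t (@Lb.fm (nat_lit 3) t441)))))))
noncomputable def l23851 : Lb := (@Lb.d (nat_lit 32) (nat_lit 264) (nat_lit 64) (@Lb.g g10 (@Lb.g g11 (@Lb.r r356 (@Lb.r r2571 (@Lb.r r1633 (@Lb.r r338 (@Lb.d (nat_lit 642) (nat_lit 22) (nat_lit 134) (@Lb.fm (nat_lit 3) t322)))))))))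
noncomputable def l23852 : Lb := (@Lb.d (nat_lit 2) (nat_lit 258) (nat_lit 128) (@Lb.g g8 (@Lb.g g9 (@Lb.g g10 (@Lb.g g11 (@Lb.r r170 (@Lb.r r548 (@Lb.r r615 (@Lb.r r533 (@Lb.r r2084 (@Lb.d (nat_lit 666) (nat_lit 74) (nat_lit 329) (@Lb.fp (nat_lit 9) t228))))))))))))
noncomputable def l23853 : Lb := (@Lb.d (nat_lit 1) (nat_lit 514) (nat_lit 73) (@Lb.g g8 (@Lb.g g9 (@Lb.g g10 (@Lb.g g11 (@Lb.r r1130 (@Lb.r r356 (@Lb.r r411 (@Lb.r r1045 (@Lb.r r2084 (@Lb.d (nat_lit 609) (nat_lit 165) (nat_lit 4) (@Lb.fp (nat_lit 9) t1741))))))))))))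
noncomputable def l23854 : Lb := (@Lb.r r21 (@Lb.d (nat_lit 162) (nat_lit 256) (nat_lit 129) (@Lb.g g8 (@Lb.g g10 (@Lb.g g11 (@Lb.r r1691 (@Lb.r r409 (@Lb.r r90 (@Lb.r r260 (@Lb.d (nat_lit 25) (nat_lit 161) (nat_lit 597) (@Lb.t (@Lb.fp (nat_lit 9) t4634))))))))))))
noncomputable def l23855 : Lb := (@Lb.r r323 (@Lb.d (nat_lit 2) (nat_lit 517) (nat_lit 0) (@Lb.g g8 (@Lb.g g9 (@Lb.g g10 (@Lb.r r2411 (@Lb.r r2434 (@Lb.r r1625 (@Lb.d (nat_lit 617) (nat_lit 166) (nat_lit 410) (@Lb.t (@Lb.fp (nat_lit 9) t948)))))))))))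
noncomputable def l23856 : Lb := (@Lb.d (nat_lit 2) (nat_lit 280) (nat_lit 1) (@Lb.g g8 (@Lb.g g9 (@Lb.g g10 (@Lb.g g11 (@Lb.r r599 (@Lb.r r342 (@Lb.r r601 (@Lb.d (nat_lit 105) (nat_lit 33) (nat_lit 137) (@Lb.fm (nat_lit 9) t892))))))))))
noncomputable def l23857 : Lb := (@Lb.d (nat_lit 5) (nat_lit 102) (nat_lit 340) (@Lb.r r597 (@Lb.r r279 (@Lb.r r612 (@Lb.g g10 (@Lb.g g5 (@Lb.d (nat_lit 4) (nat_lit 6) (nat_lit 40) (@Lb.r r387 (@Lb.fp (nat_lit 3) t495)))))))))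
noncomputable def l23858 : Lb := (@Lb.r r82 (@Lb.r r275 (@Lb.d (nat_lit 2) (nat_lit 512) (nat_lit 0) (@Lb.g g8 (@Lb.g g9 (@Lb.r r299 (@Lb.r r106 (@Lb.r r25 (@Lb.d (nat_lit 9) (nat_lit 90) (nat_lit 521) (@Lb.fm (nat_lit 3) t2854))))))))))
noncomputable def l23859 : Lb := (@Lb.d (nat_lit 2) (nat_lit 536) (nat_lit 1) (@Lb.g g8 (@Lb.g g9 (@Lb.g g10 (@Lb.g g11 (@Lb.r r599 (@Lb.r r342 (@Lb.r r601 (@Lb.d (nat_lit 105) (nat_lit 40) (nat_lit 136) (@Lb.fm (nat_lit 9) t5))))))))))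
noncomputable def l23860 : Lb := (@Lb.r r82 (@Lb.d (nat_lit 6) (nat_lit 290) (nat_lit 128) (@Lb.g g8 (@Lb.g g9 (@Lb.g g11 (@Lb.r r2649 (@Lb.r r531 (@Lb.r r98 (@Lb.r r1288 (@Lb.d (nat_lit 277) (nat_lit 166) (nat_lit 646) (@Lb.t (@Lb.fm (nat_lit 9) t3072))))))))))))
noncomputable def l23861 : Lb := (@Lb.r r323 (@Lb.d (nat_lit 33) (nat_lit 514) (nat_lit 2) (@Lb.g g8 (@Lb.g g9 (@Lb.g g10 (@Lb.r r2729 (@Lb.r r2467 (@Lb.r r2434 (@Lb.r r2180 (@Lb.d (nat_lit 337) (nat_lit 0) (nat_lit 425) (@Lb.t (@Lb.fm (nat_lit 9) t1377))))))))))))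
noncomputable def l23862 : Lb := (@Lb.r r331 (@Lb.d (nat_lit 32) (nat_lit 514) (nat_lit 2) (@Lb.g g8 (@Lb.g g9 (@Lb.g g10 (@Lb.r r2729 (@Lb.r r2339 (@Lb.r r2434 (@Lb.r r516 (@Lb.d (nat_lit 545) (nat_lit 0) (nat_lit 37) (@Lb.t (@Lb.fm (nat_lit 9) t1377))))))))))))
noncomputable def l23863 : Lb := (@Lb.r r21 (@Lb.d (nat_lit 385) (nat_lit 264) (nat_lit 66) (@Lb.g g8 (@Lb.g g10 (@Lb.g g11 (@Lb.r r1419 (@Lb.r r101 (@Lb.r r410 (@Lb.d (nat_lit 9) (nat_lit 149) (nat_lit 680) (@Lb.t (@Lb.fm (nat_lit 9) t4622)))))))))))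
noncomputable def l23864 : Lb := (@Lb.r r82 (@Lb.r r275 (@Lb.d (nat_lit 34) (nat_lit 512) (nat_lit 0) (@Lb.g g8 (@Lb.g g9 (@Lb.r r2471 (@Lb.r r582 (@Lb.r r2073 (@Lb.r r408 (@Lb.d (nat_lit 154) (nat_lit 26) (nat_lit 137) (@Lb.fp (nat_lit 3) t19)))))))))))
noncomputable def l23865 : Lb := (@Lb.d (nat_lit 129) (nat_lit 9) (nat_lit 6) (@Lb.g g8 (@Lb.g g9 (@Lb.g g10 (@Lb.g g11 (@Lb.r r1366 (@Lb.r r2711 (@Lb.r r617 (@Lb.r r2084 (@Lb.d (nat_lit 361) (nat_lit 73) (nat_lit 409) (@Lb.fp (nat_lit 9) t2448)))))))))))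
noncomputable def l23866 : Lb := (@Lb.d (nat_lit 0) (nat_lit 512) (nat_lit 73) (@Lb.g g8 (@Lb.g g9 (@Lb.g g10 (@Lb.g g11 (@Lb.r r586 (@Lb.r r584 (@Lb.r r299 (@Lb.r r289 (@Lb.d (nat_lit 4) (nat_lit 136) (nat_lit 2) (@Lb.fp (nat_lit 9) t51)))))))))))
noncomputable def l23867 : Lb := (@Lb.d (nat_lit 0) (nat_lit 256) (nat_lit 73) (@Lb.g g9 (@Lb.g g10 (@Lb.g g11 (@Lb.r r586 (@Lb.r r584 (@Lb.r r299 (@Lb.r r289 (@Lb.d (nat_lit 4) (nat_lit 129) (nat_lit 0) (@Lb.t (@Lb.fm (nat_lit 9) t51)))))))))))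
noncomputable def l23868 : Lb := (@Lb.d (nat_lit 281) (nat_lit 322) (nat_lit 257) (@Lb.r r386 (@Lb.r r2347 (@Lb.r r2469 (@Lb.g g7 (@Lb.g g6 (@Lb.g g5 (@Lb.g g4 (@Lb.d (nat_lit 1) (nat_lit 17) (nat_lit 1) (@Lb.fp (nat_lit 9) t898))))))))))
noncomputable def l23869 : Lb := (@Lb.d (nat_lit 8) (nat_lit 258) (nat_lit 1) (@Lb.g g9 (@Lb.g g10 (@Lb.r r643 (@Lb.r r1610 (@Lb.r r24 (@Lb.r r101 (@Lb.d (nat_lit 530) (nat_lit 152) (nat_lit 388) (@Lb.fp (nat_lit 3) t2246)))))))))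
noncomputable def l23870 : Lb := (@Lb.d (nat_lit 85) (nat_lit 586) (nat_lit 169) (@Lb.r r2153 (@Lb.r r342 (@Lb.g g11 (@Lb.g g9 (@Lb.d (nat_lit 0) (nat_lit 5) (nat_lit 256) (@Lb.r r578 (@Lb.fp (nat_lit 3) t4161))))))))
noncomputable def l23871 : Lb := (@Lb.d (nat_lit 0) (nat_lit 34) (nat_lit 0) (@Lb.g g5 (@Lb.r r2667 (@Lb.r r342 (@Lb.r r2713 (@Lb.r r24 (@Lb.d (nat_lit 657) (nat_lit 128) (nat_lit 169) (@Lb.t (@Lb.fm (nat_lit 3) t2535)))))))))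
noncomputable def l23872 : Lb := (@Lb.d (nat_lit 0) (nat_lit 34) (nat_lit 0) (@Lb.g g5 (@Lb.g g10 (@Lb.r r2667 (@Lb.r r342 (@Lb.r r2713 (@Lb.r r24 (@Lb.d (nat_lit 657) (nat_lit 128) (nat_lit 169) (@Lb.fp (nat_lit 3) t2535)))))))))
noncomputable def l23873 : Lb := (@Lb.r r70 (@Lb.d (nat_lit 64) (nat_lit 258) (nat_lit 0) (@Lb.g g8 (@Lb.g g9 (@Lb.g g11 (@Lb.r r299 (@Lb.r r610 (@Lb.r r97 (@Lb.r r648 (@Lb.d (nat_lit 81) (nat_lit 132) (nat_lit 265) (@Lb.t (@Lb.fm (nat_lit 9) t2672))))))))))))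
noncomputable def l23874 : Lb := (@Lb.d (nat_lit 0) (nat_lit 0) (nat_lit 128) (@Lb.g g10 (@Lb.g g11 (@Lb.r r353 (@Lb.r r663 (@Lb.r r356 (@Lb.r r154 (@Lb.d (nat_lit 18) (nat_lit 0) (nat_lit 64) (@Lb.fp (nat_lit 3) t285)))))))))
noncomputable def l23875 : Lb := (@Lb.d (nat_lit 298) (nat_lit 328) (nat_lit 2) (@Lb.r r101 (@Lb.r r24 (@Lb.r r1414 (@Lb.r r2395 (@Lb.g g7 (@Lb.g g6 (@Lb.g g5 (@Lb.d (nat_lit 4) (nat_lit 1) (nat_lit 64) (@Lb.t (@Lb.fm (nat_lit 9) t3572)))))))))))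
noncomputable def l23876 : Lb := (@Lb.r r323 (@Lb.d (nat_lit 2) (nat_lit 256) (nat_lit 10) (@Lb.g g8 (@Lb.g g10 (@Lb.r r1579 (@Lb.r r676 (@Lb.r r2630 (@Lb.r r1057 (@Lb.d (nat_lit 401) (nat_lit 137) (nat_lit 393) (@Lb.fm (nat_lit 3) t386))))))))))
noncomputable def l23877 : Lb := (@Lb.d (nat_lit 8) (nat_lit 8) (nat_lit 130) (@Lb.g g9 (@Lb.g g10 (@Lb.g g11 (@Lb.r r2459 (@Lb.r r2452 (@Lb.r r2662 (@Lb.r r2721 (@Lb.d (nat_lit 597) (nat_lit 104) (nat_lit 276) (@Lb.t (@Lb.fp (nat_lit 9) t2540)))))))))))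
noncomputable def l23878 : Lb := (@Lb.d (nat_lit 9) (nat_lit 513) (nat_lit 2) (@Lb.g g8 (@Lb.g g9 (@Lb.g g10 (@Lb.g g11 (@Lb.r r2411 (@Lb.r r386 (@Lb.r r1129 (@Lb.r r1124 (@Lb.d (nat_lit 280) (nat_lit 0) (nat_lit 84) (@Lb.fp (nat_lit 9) t455)))))))))))
noncomputable def l23879 : Lb := (@Lb.d (nat_lit 517) (nat_lit 641) (nat_lit 1) (@Lb.r r101 (@Lb.r r2403 (@Lb.g g6 (@Lb.g g4 (@Lb.d (nat_lit 0) (nat_lit 4) (nat_lit 1) (@Lb.fp (nat_lit 3) t58)))))))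
noncomputable def l23880 : Lb := (@Lb.d (nat_lit 0) (nat_lit 288) (nat_lit 128) (@Lb.g g11 (@Lb.r r1385 (@Lb.r r1124 (@Lb.r r410 (@Lb.r r2627 (@Lb.d (nat_lit 64) (nat_lit 0) (nat_lit 426) (@Lb.t (@Lb.fm (nat_lit 3) t1293)))))))))
noncomputable def l23881 : Lb := (@Lb.d (nat_lit 8) (nat_lit 514) (nat_lit 137) (@Lb.g g9 (@Lb.g g10 (@Lb.g g11 (@Lb.r r1671 (@Lb.r r2376 (@Lb.r r1366 (@Lb.r r409 (@Lb.d (nat_lit 386) (nat_lit 130) (nat_lit 586) (@Lb.t (@Lb.fm (nat_lit 9) t445)))))))))))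
noncomputable def l23882 : Lb := (@Lb.d (nat_lit 128) (nat_lit 256) (nat_lit 130) (@Lb.g g10 (@Lb.g g11 (@Lb.r r264 (@Lb.r r519 (@Lb.r r1098 (@Lb.r r537 (@Lb.d (nat_lit 642) (nat_lit 0) (nat_lit 404) (@Lb.fm (nat_lit 3) t421)))))))))
noncomputable def l23883 : Lb := (@Lb.d (nat_lit 2) (nat_lit 2) (nat_lit 1) (@Lb.g g8 (@Lb.g g9 (@Lb.g g10 (@Lb.r r2724 (@Lb.r r1670 (@Lb.r r2439 (@Lb.r r97 (@Lb.d (nat_lit 0) (nat_lit 73) (nat_lit 402) (@Lb.t (@Lb.fm (nat_lit 9) t2551)))))))))))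
noncomputable def l23884 : Lb := (@Lb.d (nat_lit 8) (nat_lit 264) (nat_lit 130) (@Lb.g g9 (@Lb.g g10 (@Lb.g g11 (@Lb.r r2459 (@Lb.r r2452 (@Lb.r r2662 (@Lb.r r2721 (@Lb.d (nat_lit 596) (nat_lit 104) (nat_lit 276) (@Lb.t (@Lb.fp (nat_lit 9) t2540)))))))))))
noncomputable def l23885 : Lb := (@Lb.d (nat_lit 132) (nat_lit 0) (nat_lit 130) (@Lb.g g8 (@Lb.g g9 (@Lb.g g10 (@Lb.g g11 (@Lb.r r643 (@Lb.r r1194 (@Lb.r r2337 (@Lb.r r152 (@Lb.d (nat_lit 664) (nat_lit 105) (nat_lit 66) (@Lb.fp (nat_lit 9) t4504)))))))))))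
noncomputable def l23886 : Lb := (@Lb.r r277 (@Lb.r r326 (@Lb.d (nat_lit 392) (nat_lit 544) (nat_lit 0) (@Lb.g g8 (@Lb.g g11 (@Lb.r r101 (@Lb.r r2194 (@Lb.d (nat_lit 64) (nat_lit 0) (nat_lit 529) (@Lb.fm (nat_lit 3) t4635)))))))))
noncomputable def l23887 : Lb := (@Lb.r r331 (@Lb.d (nat_lit 38) (nat_lit 512) (nat_lit 4) (@Lb.g g8 (@Lb.g g9 (@Lb.g g6 (@Lb.r r2659 (@Lb.r r97 (@Lb.r r264 (@Lb.d (nat_lit 130) (nat_lit 41) (nat_lit 256) (@Lb.t (@Lb.fm (nat_lit 9) t4636)))))))))))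
noncomputable def l23888 : Lb := (@Lb.d (nat_lit 641) (nat_lit 32) (nat_lit 0) (@Lb.g g4 (@Lb.g g9 (@Lb.r r1299 (@Lb.r r2178 (@Lb.r r1689 (@Lb.d (nat_lit 598) (nat_lit 164) (nat_lit 261) (@Lb.fm (nat_lit 3) t1282))))))))
noncomputable def l23889 : Lb := (@Lb.d (nat_lit 0) (nat_lit 514) (nat_lit 66) (@Lb.g g9 (@Lb.g g10 (@Lb.g g11 (@Lb.r r427 (@Lb.r r386 (@Lb.r r97 (@Lb.r r24 (@Lb.d (nat_lit 74) (nat_lit 9) (nat_lit 137) (@Lb.t (@Lb.fp (nat_lit 9) t61)))))))))))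
noncomputable def l23890 : Lb := (@Lb.d (nat_lit 0) (nat_lit 2) (nat_lit 66) (@Lb.g g9 (@Lb.g g10 (@Lb.g g11 (@Lb.r r427 (@Lb.r r386 (@Lb.r r97 (@Lb.r r24 (@Lb.d (nat_lit 74) (nat_lit 4) (nat_lit 136) (@Lb.t (@Lb.fp (nat_lit 9) t61)))))))))))
noncomputable def l23891 : Lb := (@Lb.d (nat_lit 4) (nat_lit 514) (nat_lit 0) (@Lb.g g9 (@Lb.g g7 (@Lb.r r148 (@Lb.r r614 (@Lb.r r337 (@Lb.d (nat_lit 5) (nat_lit 162) (nat_lit 325) (@Lb.fp (nat_lit 3) t259))))))))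
noncomputable def l23892 : Lb := (@Lb.d (nat_lit 8) (nat_lit 516) (nat_lit 128) (@Lb.g g9 (@Lb.g g10 (@Lb.g g11 (@Lb.r r2658 (@Lb.d (nat_lit 2) (nat_lit 89) (nat_lit 256) (@Lb.t (@Lb.fm (nat_lit 9) t598))))))))
noncomputable def l23893 : Lb := (@Lb.d (nat_lit 342) (nat_lit 406) (nat_lit 258) (@Lb.r r2325 (@Lb.r r2390 (@Lb.r r1699 (@Lb.g g7 (@Lb.g g6 (@Lb.g g5 (@Lb.g g4 (@Lb.d (nat_lit 1) (nat_lit 18) (nat_lit 65) (@Lb.fm (nat_lit 9) t1067))))))))))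
noncomputable def l23894 : Lb := (@Lb.r r166 (@Lb.r r149 (@Lb.r r356 (@Lb.r r2571 (@Lb.r r2564 (@Lb.d (nat_lit 0) (nat_lit 280) (nat_lit 66) (@Lb.fp (nat_lit 1) t71)))))))
noncomputable def l23895 : Lb := (@Lb.d (nat_lit 137) (nat_lit 257) (nat_lit 26) (@Lb.g g8 (@Lb.g g9 (@Lb.g g6 (@Lb.r r2409 (@Lb.r r1559 (@Lb.r r2344 (@Lb.d (nat_lit 389) (nat_lit 98) (nat_lit 584) (@Lb.t (@Lb.fm (nat_lit 9) t296))))))))))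
noncomputable def l23896 : Lb := (@Lb.d (nat_lit 137) (nat_lit 258) (nat_lit 0) (@Lb.g g8 (@Lb.g g9 (@Lb.r r1321 (@Lb.r r1559 (@Lb.r r2178 (@Lb.r r2344 (@Lb.d (nat_lit 165) (nat_lit 98) (nat_lit 80) (@Lb.fm (nat_lit 3) t246)))))))))
noncomputable def l23897 : Lb := (@Lb.r r21 (@Lb.d (nat_lit 144) (nat_lit 512) (nat_lit 128) (@Lb.g g8 (@Lb.g g10 (@Lb.g g11 (@Lb.r r2706 (@Lb.r r2455 (@Lb.r r97 (@Lb.r r2584 (@Lb.d (nat_lit 580) (nat_lit 97) (nat_lit 384) (@Lb.t (@Lb.fp (nat_lit 9) t1666))))))))))))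
noncomputable def l23898 : Lb := (@Lb.d (nat_lit 137) (nat_lit 2) (nat_lit 26) (@Lb.g g8 (@Lb.g g9 (@Lb.g g6 (@Lb.r r1321 (@Lb.r r1559 (@Lb.r r2344 (@Lb.d (nat_lit 389) (nat_lit 98) (nat_lit 98) (@Lb.t (@Lb.fm (nat_lit 9) t246))))))))))
noncomputable def l23899 : Lb := (@Lb.d (nat_lit 10) (nat_lit 258) (nat_lit 0) (@Lb.g g4 (@Lb.g g9 (@Lb.r r322 (@Lb.r r659 (@Lb.r r578 (@Lb.d (nat_lit 0) (nat_lit 144) (nat_lit 320) (@Lb.fm (nat_lit 3) t51))))))))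
noncomputable def l23900 : Lb := (@Lb.d (nat_lit 144) (nat_lit 256) (nat_lit 129) (@Lb.r r402 (@Lb.r r101 (@Lb.g g8 (@Lb.t (@Lb.fp (nat_lit 3) t4593))))))
noncomputable def l23901 : Lb := (@Lb.d (nat_lit 170) (nat_lit 41) (nat_lit 417) (@Lb.r r680 (@Lb.r r427 (@Lb.r r345 (@Lb.g g10 (@Lb.g g4 (@Lb.d (nat_lit 68) (nat_lit 8) (nat_lit 38) (@Lb.r r145 (@Lb.fm (nat_lit 3) t4637)))))))))
noncomputable def l23902 : Lb := (@Lb.d (nat_lit 74) (nat_lit 273) (nat_lit 132) (@Lb.r r296 (@Lb.r r535 (@Lb.r r361 (@Lb.g g10 (@Lb.g g4 (@Lb.d (nat_lit 82) (nat_lit 8) (nat_lit 6) (@Lb.r r145 (@Lb.fm (nat_lit 3) t298)))))))))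
noncomputable def l23903 : Lb := (@Lb.d (nat_lit 128) (nat_lit 642) (nat_lit 4) (@Lb.g g9 (@Lb.g g10 (@Lb.g g11 (@Lb.r r1638 (@Lb.r r2456 (@Lb.r r1639 (@Lb.d (nat_lit 130) (nat_lit 146) (nat_lit 514) (@Lb.t (@Lb.fm (nat_lit 9) t3182))))))))))
noncomputable def l23904 : Lb := (@Lb.d (nat_lit 74) (nat_lit 529) (nat_lit 66) (@Lb.r r296 (@Lb.r r535 (@Lb.r r361 (@Lb.g g10 (@Lb.g g4 (@Lb.d (nat_lit 82) (nat_lit 8) (nat_lit 6) (@Lb.r r145 (@Lb.fm (nat_lit 3) t298)))))))))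
noncomputable def l23905 : Lb := (@Lb.d (nat_lit 128) (nat_lit 130) (nat_lit 4) (@Lb.g g9 (@Lb.g g10 (@Lb.g g11 (@Lb.r r1638 (@Lb.r r2456 (@Lb.r r1639 (@Lb.d (nat_lit 129) (nat_lit 146) (nat_lit 514) (@Lb.t (@Lb.fm (nat_lit 9) t3182))))))))))
noncomputable def l23906 : Lb := (@Lb.d (nat_lit 2) (nat_lit 336) (nat_lit 533) (@Lb.r r2371 (@Lb.r r594 (@Lb.r r165 (@Lb.g g6 (@Lb.g g5 (@Lb.g g8 (@Lb.d (nat_lit 344) (nat_lit 0) (nat_lit 1) (@Lb.r r391 (@Lb.t (@Lb.fp (nat_lit 9) t2239)))))))))))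
noncomputable def l23907 : Lb := (@Lb.d (nat_lit 129) (nat_lit 513) (nat_lit 4) (@Lb.g g8 (@Lb.g g9 (@Lb.g g10 (@Lb.g g11 (@Lb.r r610 (@Lb.r r2388 (@Lb.r r601 (@Lb.r r2651 (@Lb.d (nat_lit 362) (nat_lit 137) (nat_lit 344) (@Lb.fm (nat_lit 9) t329)))))))))))
noncomputable def l23908 : Lb := (@Lb.d (nat_lit 0) (nat_lit 578) (nat_lit 68) (@Lb.g g4 (@Lb.g g9 (@Lb.g g10 (@Lb.g g11 (@Lb.r r419 (@Lb.r r578 (@Lb.d (nat_lit 0) (nat_lit 33) (nat_lit 5) (@Lb.fm (nat_lit 9) t51)))))))))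
noncomputable def l23909 : Lb := (@Lb.r r21 (@Lb.r r70 (@Lb.r r263 (@Lb.g g8 (@Lb.r r267 (@Lb.r r74 (@Lb.r r97 (@Lb.d (nat_lit 258) (nat_lit 10) (nat_lit 34) (@Lb.t (@Lb.fm (nat_lit 3) t2453))))))))))
noncomputable def l23910 : Lb := (@Lb.r r275 (@Lb.d (nat_lit 2) (nat_lit 2) (nat_lit 2) (@Lb.g g8 (@Lb.g g9 (@Lb.g g10 (@Lb.r r675 (@Lb.r r161 (@Lb.r r98 (@Lb.d (nat_lit 0) (nat_lit 5) (nat_lit 5) (@Lb.t (@Lb.fm (nat_lit 9) t50)))))))))))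
noncomputable def l23911 : Lb := (@Lb.r r70 (@Lb.d (nat_lit 0) (nat_lit 514) (nat_lit 128) (@Lb.g g8 (@Lb.g g9 (@Lb.g g11 (@Lb.r r1426 (@Lb.r r619 (@Lb.r r97 (@Lb.r r536 (@Lb.d (nat_lit 578) (nat_lit 96) (nat_lit 130) (@Lb.t (@Lb.fm (nat_lit 9) t1550))))))))))))
noncomputable def l23912 : Lb := (@Lb.d (nat_lit 2) (nat_lit 256) (nat_lit 0) (@Lb.g g8 (@Lb.g g10 (@Lb.r r289 (@Lb.r r283 (@Lb.r r74 (@Lb.r r529 (@Lb.d (nat_lit 2) (nat_lit 10) (nat_lit 2) (@Lb.fp (nat_lit 3) t145)))))))))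
noncomputable def l23913 : Lb := (@Lb.r r275 (@Lb.d (nat_lit 0) (nat_lit 4) (nat_lit 0) (@Lb.g g9 (@Lb.g g10 (@Lb.r r675 (@Lb.r r578 (@Lb.r r417 (@Lb.r r24 (@Lb.d (nat_lit 8) (nat_lit 129) (nat_lit 137) (@Lb.fp (nat_lit 3) t101))))))))))
noncomputable def l23914 : Lb := (@Lb.r r275 (@Lb.d (nat_lit 2) (nat_lit 260) (nat_lit 0) (@Lb.g g8 (@Lb.g g9 (@Lb.g g10 (@Lb.r r675 (@Lb.r r578 (@Lb.r r417 (@Lb.d (nat_lit 9) (nat_lit 130) (nat_lit 137) (@Lb.t (@Lb.fm (nat_lit 9) t106)))))))))))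
noncomputable def l23915 : Lb := (@Lb.r r275 (@Lb.d (nat_lit 2) (nat_lit 516) (nat_lit 0) (@Lb.g g8 (@Lb.g g9 (@Lb.g g10 (@Lb.r r675 (@Lb.r r578 (@Lb.r r417 (@Lb.d (nat_lit 0) (nat_lit 2) (nat_lit 137) (@Lb.t (@Lb.fm (nat_lit 9) t50)))))))))))
noncomputable def l23916 : Lb := (@Lb.d (nat_lit 4) (nat_lit 258) (nat_lit 2) (@Lb.g g9 (@Lb.g g10 (@Lb.r r515 (@Lb.r r98 (@Lb.r r8 (@Lb.d (nat_lit 9) (nat_lit 137) (nat_lit 1) (@Lb.fm (nat_lit 3) t44))))))))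
noncomputable def l23917 : Lb := (@Lb.d (nat_lit 136) (nat_lit 512) (nat_lit 138) (@Lb.g g9 (@Lb.g g10 (@Lb.g g11 (@Lb.r r1096 (@Lb.r r390 (@Lb.r r599 (@Lb.r r2325 (@Lb.d (nat_lit 417) (nat_lit 21) (nat_lit 0) (@Lb.t (@Lb.fp (nat_lit 9) t2535)))))))))))
noncomputable def l23918 : Lb := (@Lb.d (nat_lit 5) (nat_lit 513) (nat_lit 2) (@Lb.g g4 (@Lb.g g5 (@Lb.g g10 (@Lb.r r146 (@Lb.d (nat_lit 0) (nat_lit 8) (nat_lit 1) (@Lb.t (@Lb.fp (nat_lit 9) t44))))))))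
noncomputable def l23919 : Lb := (@Lb.d (nat_lit 4) (nat_lit 513) (nat_lit 2) (@Lb.g g5 (@Lb.g g10 (@Lb.r r146 (@Lb.d (nat_lit 1) (nat_lit 8) (nat_lit 1) (@Lb.fm (nat_lit 3) t44))))))
noncomputable def l23920 : Lb := (@Lb.d (nat_lit 1) (nat_lit 516) (nat_lit 128) (@Lb.g g8 (@Lb.g g9 (@Lb.g g10 (@Lb.g g11 (@Lb.r r427 (@Lb.r r145 (@Lb.r r356 (@Lb.r r154 (@Lb.r r132 (@Lb.d (nat_lit 10) (nat_lit 2) (nat_lit 137) (@Lb.fm (nat_lit 9) t31))))))))))))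
noncomputable def l23921 : Lb := (@Lb.d (nat_lit 0) (nat_lit 256) (nat_lit 2) (@Lb.g g9 (@Lb.g g10 (@Lb.r r1447 (@Lb.r r2470 (@Lb.r r2341 (@Lb.r r24 (@Lb.d (nat_lit 514) (nat_lit 8) (nat_lit 33) (@Lb.fp (nat_lit 3) t2535)))))))))
noncomputable def l23922 : Lb := (@Lb.d (nat_lit 354) (nat_lit 5) (nat_lit 24) (@Lb.r r1670 (@Lb.r r2388 (@Lb.r r1707 (@Lb.r r553 (@Lb.g g7 (@Lb.g g6 (@Lb.g g4 (@Lb.d (nat_lit 1) (nat_lit 4) (nat_lit 64) (@Lb.t (@Lb.fm (nat_lit 9) t4638)))))))))))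
noncomputable def l23923 : Lb := (@Lb.d (nat_lit 138) (nat_lit 361) (nat_lit 346) (@Lb.r r1704 (@Lb.r r1451 (@Lb.r r362 (@Lb.r r601 (@Lb.g g7 (@Lb.g g4 (@Lb.d (nat_lit 25) (nat_lit 0) (nat_lit 64) (@Lb.fp (nat_lit 3) t4638)))))))))
noncomputable def l23924 : Lb := (@Lb.d (nat_lit 144) (nat_lit 522) (nat_lit 128) (@Lb.r r402 (@Lb.r r101 (@Lb.g g11 (@Lb.g g8 (@Lb.fm (nat_lit 3) t4639))))))
noncomputable def l23925 : Lb := (@Lb.r r82 (@Lb.d (nat_lit 8) (nat_lit 514) (nat_lit 128) (@Lb.g g9 (@Lb.g g11 (@Lb.r r547 (@Lb.r r614 (@Lb.r r404 (@Lb.r r537 (@Lb.d (nat_lit 72) (nat_lit 9) (nat_lit 137) (@Lb.fp (nat_lit 3) t1950))))))))))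
noncomputable def l23926 : Lb := (@Lb.d (nat_lit 4) (nat_lit 513) (nat_lit 2) (@Lb.g g5 (@Lb.g g10 (@Lb.r r146 (@Lb.r r24 (@Lb.d (nat_lit 1) (nat_lit 9) (nat_lit 1) (@Lb.fp (nat_lit 3) t44)))))))
noncomputable def l23927 : Lb := (@Lb.d (nat_lit 2) (nat_lit 0) (nat_lit 130) (@Lb.g g8 (@Lb.g g9 (@Lb.g g10 (@Lb.g g11 (@Lb.r r586 (@Lb.r r584 (@Lb.r r299 (@Lb.r r289 (@Lb.d (nat_lit 2) (nat_lit 9) (nat_lit 2) (@Lb.fp (nat_lit 9) t51)))))))))))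
noncomputable def l23928 : Lb := (@Lb.r r82 (@Lb.d (nat_lit 0) (nat_lit 0) (nat_lit 128) (@Lb.g g9 (@Lb.g g11 (@Lb.r r2467 (@Lb.r r386 (@Lb.r r2149 (@Lb.r r24 (@Lb.d (nat_lit 2) (nat_lit 0) (nat_lit 128) (@Lb.fp (nat_lit 3) t2727))))))))))
noncomputable def l23929 : Lb := (@Lb.d (nat_lit 16) (nat_lit 514) (nat_lit 10) (@Lb.g g8 (@Lb.g g9 (@Lb.g g10 (@Lb.g g7 (@Lb.r r2434 (@Lb.r r100 (@Lb.r r2069 (@Lb.r r1060 (@Lb.d (nat_lit 513) (nat_lit 138) (nat_lit 537) (@Lb.fp (nat_lit 9) t267)))))))))))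
noncomputable def l23930 : Lb := (@Lb.d (nat_lit 21) (nat_lit 549) (nat_lit 68) (@Lb.r r613 (@Lb.r r338 (@Lb.r r679 (@Lb.g g7 (@Lb.g g6 (@Lb.g g5 (@Lb.g g8 (@Lb.d (nat_lit 10) (nat_lit 24) (nat_lit 128) (@Lb.fm (nat_lit 9) t30))))))))))
noncomputable def l23931 : Lb := (@Lb.d (nat_lit 0) (nat_lit 513) (nat_lit 128) (@Lb.g g9 (@Lb.g g10 (@Lb.g g11 (@Lb.r r387 (@Lb.r r418 (@Lb.r r153 (@Lb.r r24 (@Lb.d (nat_lit 16) (nat_lit 0) (nat_lit 1) (@Lb.t (@Lb.fm (nat_lit 9) t145)))))))))))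
noncomputable def l23932 : Lb := (@Lb.d (nat_lit 0) (nat_lit 256) (nat_lit 136) (@Lb.g g11 (@Lb.r r402 (@Lb.r r101 (@Lb.r r24 (@Lb.d (nat_lit 0) (nat_lit 10) (nat_lit 130) (@Lb.t (@Lb.fm (nat_lit 3) t145))))))))
noncomputable def l23933 : Lb := (@Lb.d (nat_lit 0) (nat_lit 512) (nat_lit 2) (@Lb.g g5 (@Lb.g g10 (@Lb.r r146 (@Lb.d (nat_lit 0) (nat_lit 1) (nat_lit 2) (@Lb.fm (nat_lit 3) t44))))))
noncomputable def l23934 : Lb := (@Lb.d (nat_lit 146) (nat_lit 9) (nat_lit 72) (@Lb.g g8 (@Lb.g g9 (@Lb.g g10 (@Lb.g g11 (@Lb.r r1699 (@Lb.r r358 (@Lb.r r36 (@Lb.r r533 (@Lb.r r2084 (@Lb.d (nat_lit 420) (nat_lit 98) (nat_lit 320) (@Lb.fm (nat_lit 9) t4640))))))))))))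
noncomputable def l23935 : Lb := (@Lb.r r20 (@Lb.d (nat_lit 0) (nat_lit 522) (nat_lit 128) (@Lb.g g9 (@Lb.g g11 (@Lb.r r2454 (@Lb.r r2667 (@Lb.r r2657 (@Lb.d (nat_lit 520) (nat_lit 25) (nat_lit 274) (@Lb.fp (nat_lit 3) t822)))))))))
noncomputable def l23936 : Lb := (@Lb.d (nat_lit 4) (nat_lit 266) (nat_lit 129) (@Lb.g g8 (@Lb.g g9 (@Lb.g g10 (@Lb.g g11 (@Lb.r r1443 (@Lb.r r40 (@Lb.r r425 (@Lb.r r98 (@Lb.r r2084 (@Lb.d (nat_lit 682) (nat_lit 80) (nat_lit 326) (@Lb.fp (nat_lit 9) t901))))))))))))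
noncomputable def l23937 : Lb := (@Lb.d (nat_lit 101) (nat_lit 389) (nat_lit 662) (@Lb.r r1297 (@Lb.r r611 (@Lb.r r545 (@Lb.r r2214 (@Lb.g g7 (@Lb.g g6 (@Lb.g g5 (@Lb.g g8 (@Lb.d (nat_lit 330) (nat_lit 0) (nat_lit 129) (@Lb.fp (nat_lit 9) t800)))))))))))
noncomputable def l23938 : Lb := (@Lb.d (nat_lit 64) (nat_lit 0) (nat_lit 128) (@Lb.g g11 (@Lb.r r1380 (@Lb.r r2709 (@Lb.r r407 (@Lb.r r2178 (@Lb.d (nat_lit 342) (nat_lit 148) (nat_lit 165) (@Lb.t (@Lb.fm (nat_lit 3) t1222)))))))))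
noncomputable def l23939 : Lb := (@Lb.d (nat_lit 0) (nat_lit 0) (nat_lit 128) (@Lb.g g11 (@Lb.r r326 (@Lb.r r1419 (@Lb.r r24 (@Lb.r r1317 (@Lb.d (nat_lit 584) (nat_lit 41) (nat_lit 342) (@Lb.t (@Lb.fp (nat_lit 3) t327)))))))))
noncomputable def l23940 : Lb := (@Lb.d (nat_lit 0) (nat_lit 258) (nat_lit 73) (@Lb.g g8 (@Lb.g g9 (@Lb.g g10 (@Lb.g g11 (@Lb.r r619 (@Lb.r r1610 (@Lb.r r660 (@Lb.r r425 (@Lb.r r2084 (@Lb.d (nat_lit 280) (nat_lit 168) (nat_lit 617) (@Lb.fp (nat_lit 9) t1371))))))))))))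
noncomputable def l23941 : Lb := (@Lb.d (nat_lit 0) (nat_lit 545) (nat_lit 0) (@Lb.g g8 (@Lb.g g9 (@Lb.r r292 (@Lb.r r1371 (@Lb.r r2178 (@Lb.r r2661 (@Lb.d (nat_lit 170) (nat_lit 85) (nat_lit 324) (@Lb.fm (nat_lit 3) t64)))))))))
noncomputable def l23942 : Lb := (@Lb.d (nat_lit 41) (nat_lit 512) (nat_lit 64) (@Lb.g g8 (@Lb.g g11 (@Lb.r r1173 (@Lb.r r150 (@Lb.r r596 (@Lb.r r2599 (@Lb.d (nat_lit 645) (nat_lit 152) (nat_lit 342) (@Lb.fm (nat_lit 3) t430)))))))))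
noncomputable def l23943 : Lb := (@Lb.d (nat_lit 129) (nat_lit 258) (nat_lit 130) (@Lb.g g8 (@Lb.g g9 (@Lb.g g10 (@Lb.g g11 (@Lb.r r1706 (@Lb.r r1411 (@Lb.r r1177 (@Lb.r r1156 (@Lb.d (nat_lit 297) (nat_lit 89) (nat_lit 537) (@Lb.fm (nat_lit 9) t4641)))))))))))
noncomputable def l23944 : Lb := (@Lb.d (nat_lit 40) (nat_lit 513) (nat_lit 72) (@Lb.g g8 (@Lb.g g9 (@Lb.g g10 (@Lb.g g11 (@Lb.r r2327 (@Lb.r r2710 (@Lb.r r1689 (@Lb.r r1684 (@Lb.d (nat_lit 420) (nat_lit 101) (nat_lit 10) (@Lb.fm (nat_lit 9) t355)))))))))))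
noncomputable def l23945 : Lb := (@Lb.d (nat_lit 641) (nat_lit 2) (nat_lit 66) (@Lb.g g8 (@Lb.g g9 (@Lb.g g10 (@Lb.g g11 (@Lb.r r1451 (@Lb.r r106 (@Lb.r r25 (@Lb.d (nat_lit 8) (nat_lit 2) (nat_lit 426) (@Lb.fp (nat_lit 9) t1792))))))))))
noncomputable def l23946 : Lb := (@Lb.d (nat_lit 129) (nat_lit 258) (nat_lit 130) (@Lb.g g8 (@Lb.g g9 (@Lb.g g10 (@Lb.g g11 (@Lb.r r2666 (@Lb.r r612 (@Lb.r r1319 (@Lb.r r405 (@Lb.r r2084 (@Lb.d (nat_lit 610) (nat_lit 138) (nat_lit 169) (@Lb.fp (nat_lit 9) t1039))))))))))))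
noncomputable def l23947 : Lb := (@Lb.d (nat_lit 2) (nat_lit 260) (nat_lit 128) (@Lb.g g8 (@Lb.g g9 (@Lb.g g10 (@Lb.g g11 (@Lb.r r427 (@Lb.r r324 (@Lb.r r138 (@Lb.r r85 (@Lb.r r132 (@Lb.d (nat_lit 6) (nat_lit 73) (nat_lit 18) (@Lb.fm (nat_lit 9) t3787))))))))))))
noncomputable def l23948 : Lb := (@Lb.d (nat_lit 136) (nat_lit 1) (nat_lit 66) (@Lb.g g8 (@Lb.g g9 (@Lb.g g10 (@Lb.g g11 (@Lb.r r683 (@Lb.r r618 (@Lb.r r616 (@Lb.r r41 (@Lb.r r36 (@Lb.d (nat_lit 5) (nat_lit 38) (nat_lit 136) (@Lb.fm (nat_lit 9) t522))))))))))))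
noncomputable def l23949 : Lb := (@Lb.d (nat_lit 136) (nat_lit 513) (nat_lit 66) (@Lb.g g8 (@Lb.g g9 (@Lb.g g10 (@Lb.g g11 (@Lb.r r683 (@Lb.r r618 (@Lb.r r616 (@Lb.r r41 (@Lb.r r36 (@Lb.d (nat_lit 2) (nat_lit 166) (nat_lit 136) (@Lb.fm (nat_lit 9) t3299))))))))))))
noncomputable def l23950 : Lb := (@Lb.d (nat_lit 0) (nat_lit 0) (nat_lit 68) (@Lb.g g5 (@Lb.g g10 (@Lb.g g11 (@Lb.r r1411 (@Lb.r r146 (@Lb.d (nat_lit 0) (nat_lit 106) (nat_lit 278) (@Lb.t (@Lb.fm (nat_lit 9) t334)))))))))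
noncomputable def l23951 : Lb := (@Lb.d (nat_lit 4) (nat_lit 2) (nat_lit 130) (@Lb.g g9 (@Lb.g g10 (@Lb.g g11 (@Lb.r r679 (@Lb.r r344 (@Lb.r r342 (@Lb.r r673 (@Lb.d (nat_lit 1) (nat_lit 34) (nat_lit 5) (@Lb.t (@Lb.fp (nat_lit 9) t51)))))))))))
noncomputable def l23952 : Lb := (@Lb.r r21 (@Lb.d (nat_lit 2) (nat_lit 512) (nat_lit 2) (@Lb.g g8 (@Lb.g g10 (@Lb.g g7 (@Lb.r r386 (@Lb.r r1640 (@Lb.r r25 (@Lb.d (nat_lit 610) (nat_lit 80) (nat_lit 597) (@Lb.t (@Lb.fp (nat_lit 9) t1403)))))))))))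
noncomputable def l23953 : Lb := (@Lb.d (nat_lit 6) (nat_lit 294) (nat_lit 534) (@Lb.r r21 (@Lb.r r342 (@Lb.r r1707 (@Lb.g g6 (@Lb.g g5 (@Lb.g g4 (@Lb.d (nat_lit 2) (nat_lit 1) (nat_lit 0) (@Lb.t (@Lb.fm (nat_lit 9) t167))))))))))
noncomputable def l23954 : Lb := (@Lb.d (nat_lit 34) (nat_lit 4) (nat_lit 128) (@Lb.g g8 (@Lb.g g9 (@Lb.g g10 (@Lb.g g11 (@Lb.r r1698 (@Lb.r r2467 (@Lb.r r36 (@Lb.r r2453 (@Lb.r r36 (@Lb.d (nat_lit 100) (nat_lit 152) (nat_lit 357) (@Lb.fm (nat_lit 9) t200))))))))))))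
noncomputable def l23955 : Lb := (@Lb.r r21 (@Lb.r r70 (@Lb.d (nat_lit 265) (nat_lit 256) (nat_lit 128) (@Lb.g g4 (@Lb.g g11 (@Lb.r r583 (@Lb.r r402 (@Lb.r r25 (@Lb.d (nat_lit 512) (nat_lit 134) (nat_lit 0) (@Lb.fp (nat_lit 3) t375))))))))))
noncomputable def l23956 : Lb := (@Lb.d (nat_lit 394) (nat_lit 353) (nat_lit 389) (@Lb.r r405 (@Lb.r r1110 (@Lb.r r2440 (@Lb.r r1351 (@Lb.g g7 (@Lb.g g6 (@Lb.g g5 (@Lb.d (nat_lit 4) (nat_lit 6) (nat_lit 66) (@Lb.t (@Lb.fm (nat_lit 9) t61)))))))))))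
noncomputable def l23957 : Lb := (@Lb.d (nat_lit 536) (nat_lit 128) (nat_lit 537) (@Lb.r r24 (@Lb.r r1435 (@Lb.r r2458 (@Lb.r r597 (@Lb.g g7 (@Lb.d (nat_lit 0) (nat_lit 16) (nat_lit 68) (@Lb.t (@Lb.fm (nat_lit 3) t386)))))))))
noncomputable def l23958 : Lb := (@Lb.d (nat_lit 0) (nat_lit 325) (nat_lit 521) (@Lb.r r24 (@Lb.r r403 (@Lb.r r1426 (@Lb.r r1617 (@Lb.g g7 (@Lb.d (nat_lit 0) (nat_lit 16) (nat_lit 68) (@Lb.t (@Lb.fm (nat_lit 3) t386)))))))))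
noncomputable def l23959 : Lb := (@Lb.d (nat_lit 1) (nat_lit 37) (nat_lit 534) (@Lb.r r21 (@Lb.r r342 (@Lb.r r1707 (@Lb.g g6 (@Lb.g g5 (@Lb.g g4 (@Lb.d (nat_lit 1) (nat_lit 1) (nat_lit 0) (@Lb.t (@Lb.fm (nat_lit 9) t40))))))))))
noncomputable def l23960 : Lb := (@Lb.d (nat_lit 1) (nat_lit 549) (nat_lit 534) (@Lb.r r21 (@Lb.r r342 (@Lb.r r1707 (@Lb.g g7 (@Lb.g g6 (@Lb.g g5 (@Lb.g g4 (@Lb.d (nat_lit 1) (nat_lit 1) (nat_lit 0) (@Lb.fm (nat_lit 9) t40))))))))))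
noncomputable def l23961 : Lb := (@Lb.d (nat_lit 2) (nat_lit 258) (nat_lit 66) (@Lb.g g8 (@Lb.g g9 (@Lb.g g10 (@Lb.g g7 (@Lb.r r297 (@Lb.r r136 (@Lb.r r154 (@Lb.r r132 (@Lb.d (nat_lit 265) (nat_lit 26) (nat_lit 521) (@Lb.fp (nat_lit 9) t2026)))))))))))
noncomputable def l23962 : Lb := (@Lb.d (nat_lit 34) (nat_lit 2) (nat_lit 64) (@Lb.g g8 (@Lb.g g9 (@Lb.g g7 (@Lb.r r361 (@Lb.r r150 (@Lb.r r1124 (@Lb.d (nat_lit 282) (nat_lit 26) (nat_lit 537) (@Lb.t (@Lb.fp (nat_lit 9) t1190))))))))))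
noncomputable def l23963 : Lb := (@Lb.d (nat_lit 129) (nat_lit 514) (nat_lit 130) (@Lb.g g8 (@Lb.g g9 (@Lb.g g10 (@Lb.g g11 (@Lb.r r427 (@Lb.r r2345 (@Lb.r r104 (@Lb.r r2118 (@Lb.r r1156 (@Lb.d (nat_lit 330) (nat_lit 4) (nat_lit 552) (@Lb.fp (nat_lit 9) t4642))))))))))))
noncomputable def l23964 : Lb := (@Lb.d (nat_lit 10) (nat_lit 512) (nat_lit 2) (@Lb.g g8 (@Lb.g g10 (@Lb.g g11 (@Lb.r r602 (@Lb.r r2667 (@Lb.r r149 (@Lb.r r1384 (@Lb.d (nat_lit 165) (nat_lit 32) (nat_lit 404) (@Lb.t (@Lb.fm (nat_lit 9) t2701)))))))))))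
noncomputable def l23965 : Lb := (@Lb.r r20 (@Lb.d (nat_lit 128) (nat_lit 552) (nat_lit 130) (@Lb.g g9 (@Lb.g g10 (@Lb.g g11 (@Lb.r r2436 (@Lb.r r667 (@Lb.r r1361 (@Lb.d (nat_lit 65) (nat_lit 145) (nat_lit 130) (@Lb.t (@Lb.fp (nat_lit 9) t4643)))))))))))
noncomputable def l23966 : Lb := (@Lb.d (nat_lit 34) (nat_lit 16) (nat_lit 0) (@Lb.g g8 (@Lb.g g9 (@Lb.g g11 (@Lb.r r1431 (@Lb.r r1382 (@Lb.r r1441 (@Lb.r r1124 (@Lb.d (nat_lit 282) (nat_lit 161) (nat_lit 329) (@Lb.t (@Lb.fp (nat_lit 9) t4644)))))))))))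
noncomputable def l23967 : Lb := (@Lb.d (nat_lit 138) (nat_lit 256) (nat_lit 72) (@Lb.g g8 (@Lb.g g11 (@Lb.r r1378 (@Lb.r r2401 (@Lb.r r2711 (@Lb.r r1284 (@Lb.d (nat_lit 37) (nat_lit 10) (nat_lit 673) (@Lb.fm (nat_lit 3) t1952)))))))))
noncomputable def l23968 : Lb := (@Lb.d (nat_lit 132) (nat_lit 0) (nat_lit 2) (@Lb.g g8 (@Lb.g g9 (@Lb.g g10 (@Lb.r r2467 (@Lb.r r2154 (@Lb.r r2073 (@Lb.r r1604 (@Lb.d (nat_lit 104) (nat_lit 85) (nat_lit 68) (@Lb.t (@Lb.fm (nat_lit 9) t4645)))))))))))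
noncomputable def l23969 : Lb := (@Lb.r r20 (@Lb.d (nat_lit 0) (nat_lit 266) (nat_lit 128) (@Lb.g g9 (@Lb.g g11 (@Lb.r r2454 (@Lb.r r2667 (@Lb.r r2657 (@Lb.d (nat_lit 521) (nat_lit 25) (nat_lit 274) (@Lb.fp (nat_lit 3) t822)))))))))
noncomputable def l23970 : Lb := (@Lb.d (nat_lit 4) (nat_lit 512) (nat_lit 130) (@Lb.g g8 (@Lb.g g9 (@Lb.g g10 (@Lb.g g11 (@Lb.r r1443 (@Lb.r r40 (@Lb.r r425 (@Lb.r r98 (@Lb.r r2084 (@Lb.d (nat_lit 682) (nat_lit 85) (nat_lit 324) (@Lb.fp (nat_lit 9) t1149))))))))))))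
noncomputable def l23971 : Lb := (@Lb.d (nat_lit 160) (nat_lit 256) (nat_lit 130) (@Lb.g g10 (@Lb.g g11 (@Lb.r r97 (@Lb.r r72 (@Lb.r r406 (@Lb.r r2635 (@Lb.d (nat_lit 581) (nat_lit 106) (nat_lit 402) (@Lb.fm (nat_lit 3) t494)))))))))
noncomputable def l23972 : Lb := (@Lb.d (nat_lit 8) (nat_lit 578) (nat_lit 0) (@Lb.r r1361 (@Lb.r r610 (@Lb.r r2659 (@Lb.r r609 (@Lb.g g4 (@Lb.d (nat_lit 273) (nat_lit 0) (nat_lit 0) (@Lb.t (@Lb.fm (nat_lit 3) t246)))))))))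
noncomputable def l23973 : Lb := (@Lb.d (nat_lit 128) (nat_lit 256) (nat_lit 64) (@Lb.g g8 (@Lb.g g11 (@Lb.r r2603 (@Lb.r r1620 (@Lb.d (nat_lit 648) (nat_lit 138) (nat_lit 664) (@Lb.fp (nat_lit 3) t4646)))))))
noncomputable def l23974 : Lb := (@Lb.r r81 (@Lb.r r263 (@Lb.d (nat_lit 34) (nat_lit 4) (nat_lit 17) (@Lb.g g8 (@Lb.g g10 (@Lb.r r2475 (@Lb.r r2212 (@Lb.r r37 (@Lb.d (nat_lit 538) (nat_lit 69) (nat_lit 17) (@Lb.fp (nat_lit 3) t4368))))))))))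
noncomputable def l23975 : Lb := (@Lb.r r82 (@Lb.r r275 (@Lb.d (nat_lit 5) (nat_lit 264) (nat_lit 0) (@Lb.g g8 (@Lb.g g9 (@Lb.r r2315 (@Lb.r r2122 (@Lb.r r104 (@Lb.r r1129 (@Lb.d (nat_lit 294) (nat_lit 137) (nat_lit 18) (@Lb.fm (nat_lit 3) t325)))))))))))
noncomputable def l23976 : Lb := (@Lb.d (nat_lit 0) (nat_lit 521) (nat_lit 72) (@Lb.g g8 (@Lb.g g9 (@Lb.g g10 (@Lb.g g11 (@Lb.r r2691 (@Lb.r r297 (@Lb.r r648 (@Lb.r r666 (@Lb.r r1156 (@Lb.d (nat_lit 646) (nat_lit 40) (nat_lit 73) (@Lb.fp (nat_lit 9) t1234))))))))))))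
noncomputable def l23977 : Lb := (@Lb.d (nat_lit 406) (nat_lit 20) (nat_lit 128) (@Lb.r r405 (@Lb.r r2454 (@Lb.r r1124 (@Lb.g g11 (@Lb.g g5 (@Lb.d (nat_lit 68) (nat_lit 6) (nat_lit 512) (@Lb.fm (nat_lit 3) t188))))))))
noncomputable def l23978 : Lb := (@Lb.r r600 (@Lb.r r1301 (@Lb.r r1579 (@Lb.r r2178 (@Lb.r r1572 (@Lb.d (nat_lit 546) (nat_lit 5) (nat_lit 0) (@Lb.fm (nat_lit 1) t124)))))))
noncomputable def l23979 : Lb := (@Lb.r r82 (@Lb.d (nat_lit 8) (nat_lit 34) (nat_lit 64) (@Lb.g g9 (@Lb.g g11 (@Lb.r r551 (@Lb.r r386 (@Lb.r r88 (@Lb.r r85 (@Lb.d (nat_lit 385) (nat_lit 10) (nat_lit 165) (@Lb.fp (nat_lit 3) t4647))))))))))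
noncomputable def l23980 : Lb := (@Lb.d (nat_lit 65) (nat_lit 356) (nat_lit 602) (@Lb.r r611 (@Lb.r r1689 (@Lb.r r1112 (@Lb.g g7 (@Lb.g g10 (@Lb.g g5 (@Lb.d (nat_lit 68) (nat_lit 0) (nat_lit 81) (@Lb.t (@Lb.fm (nat_lit 9) t114))))))))))
noncomputable def l23981 : Lb := (@Lb.r r322 (@Lb.d (nat_lit 10) (nat_lit 258) (nat_lit 136) (@Lb.g g8 (@Lb.g g9 (@Lb.g g11 (@Lb.r r1426 (@Lb.r r101 (@Lb.r r24 (@Lb.d (nat_lit 1) (nat_lit 0) (nat_lit 64) (@Lb.t (@Lb.fp (nat_lit 9) t145)))))))))))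
noncomputable def l23982 : Lb := (@Lb.r r323 (@Lb.d (nat_lit 0) (nat_lit 264) (nat_lit 34) (@Lb.g g10 (@Lb.r r2659 (@Lb.r r101 (@Lb.r r24 (@Lb.d (nat_lit 386) (nat_lit 10) (nat_lit 385) (@Lb.t (@Lb.fm (nat_lit 3) t145)))))))))
noncomputable def l23983 : Lb := (@Lb.d (nat_lit 1) (nat_lit 2) (nat_lit 17) (@Lb.g g8 (@Lb.g g9 (@Lb.g g10 (@Lb.r r1451 (@Lb.r r2457 (@Lb.r r2436 (@Lb.d (nat_lit 617) (nat_lit 134) (nat_lit 649) (@Lb.t (@Lb.fm (nat_lit 9) t2211))))))))))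
noncomputable def l23984 : Lb := (@Lb.r r322 (@Lb.d (nat_lit 0) (nat_lit 2) (nat_lit 136) (@Lb.g g9 (@Lb.g g11 (@Lb.r r1430 (@Lb.r r97 (@Lb.r r24 (@Lb.d (nat_lit 25) (nat_lit 9) (nat_lit 64) (@Lb.fp (nat_lit 3) t145)))))))))
noncomputable def l23985 : Lb := (@Lb.d (nat_lit 134) (nat_lit 81) (nat_lit 522) (@Lb.r r1096 (@Lb.r r619 (@Lb.r r2390 (@Lb.r r657 (@Lb.g g7 (@Lb.g g5 (@Lb.d (nat_lit 0) (nat_lit 1) (nat_lit 128) (@Lb.fm (nat_lit 3) t3252)))))))))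
noncomputable def l23986 : Lb := (@Lb.d (nat_lit 0) (nat_lit 0) (nat_lit 72) (@Lb.r r24 (@Lb.r r101 (@Lb.g g11 (@Lb.g g6 (@Lb.g g4 (@Lb.d (nat_lit 1) (nat_lit 4) (nat_lit 1) (@Lb.t (@Lb.fm (nat_lit 9) t1219)))))))))
noncomputable def l23987 : Lb := (@Lb.d (nat_lit 2) (nat_lit 514) (nat_lit 9) (@Lb.g g8 (@Lb.g g9 (@Lb.g g10 (@Lb.g g11 (@Lb.r r1602 (@Lb.r r2647 (@Lb.r r2457 (@Lb.r r2436 (@Lb.d (nat_lit 617) (nat_lit 136) (nat_lit 513) (@Lb.fm (nat_lit 9) t2700)))))))))))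
noncomputable def l23988 : Lb := (@Lb.r r21 (@Lb.d (nat_lit 2) (nat_lit 512) (nat_lit 0) (@Lb.g g8 (@Lb.g g6 (@Lb.r r97 (@Lb.r r2632 (@Lb.d (nat_lit 354) (nat_lit 90) (nat_lit 170) (@Lb.fp (nat_lit 3) t996))))))))
noncomputable def l23989 : Lb := (@Lb.r r2118 (@Lb.d (nat_lit 137) (nat_lit 1) (nat_lit 328) (@Lb.g g8 (@Lb.g g9 (@Lb.g g11 (@Lb.r r105 (@Lb.r r100 (@Lb.d (nat_lit 24) (nat_lit 10) (nat_lit 33) (@Lb.t (@Lb.fp (nat_lit 9) t1221))))))))))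
noncomputable def l23990 : Lb := (@Lb.d (nat_lit 42) (nat_lit 0) (nat_lit 0) (@Lb.g g4 (@Lb.r r2217 (@Lb.r r1194 (@Lb.r r1704 (@Lb.r r1291 (@Lb.d (nat_lit 2) (nat_lit 170) (nat_lit 585) (@Lb.t (@Lb.fp (nat_lit 3) t322)))))))))
noncomputable def l23991 : Lb := (@Lb.d (nat_lit 32) (nat_lit 256) (nat_lit 73) (@Lb.g g9 (@Lb.g g10 (@Lb.g g11 (@Lb.r r2695 (@Lb.r r2341 (@Lb.r r1352 (@Lb.r r2710 (@Lb.d (nat_lit 129) (nat_lit 162) (nat_lit 80) (@Lb.t (@Lb.fm (nat_lit 9) t4648)))))))))))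
noncomputable def l23992 : Lb := (@Lb.r r21 (@Lb.d (nat_lit 10) (nat_lit 264) (nat_lit 128) (@Lb.g g8 (@Lb.g g10 (@Lb.g g11 (@Lb.r r2731 (@Lb.r r293 (@Lb.r r1620 (@Lb.r r2154 (@Lb.d (nat_lit 297) (nat_lit 8) (nat_lit 169) (@Lb.t (@Lb.fm (nat_lit 9) t51))))))))))))
noncomputable def l23993 : Lb := (@Lb.d (nat_lit 354) (nat_lit 258) (nat_lit 356) (@Lb.r r2436 (@Lb.r r2406 (@Lb.r r1691 (@Lb.g g7 (@Lb.g g9 (@Lb.g g4 (@Lb.d (nat_lit 68) (nat_lit 72) (nat_lit 128) (@Lb.r r98 (@Lb.t (@Lb.fp (nat_lit 9) t145)))))))))))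
noncomputable def l23994 : Lb := (@Lb.d (nat_lit 38) (nat_lit 36) (nat_lit 64) (@Lb.g g8 (@Lb.g g9 (@Lb.g g10 (@Lb.g g11 (@Lb.r r1707 (@Lb.r r162 (@Lb.r r1169 (@Lb.r r1540 (@Lb.d (nat_lit 656) (nat_lit 137) (nat_lit 672) (@Lb.fp (nat_lit 9) t4649)))))))))))
noncomputable def l23995 : Lb := (@Lb.d (nat_lit 0) (nat_lit 512) (nat_lit 128) (@Lb.g g8 (@Lb.g g9 (@Lb.g g11 (@Lb.r r548 (@Lb.r r2581 (@Lb.r r279 (@Lb.r r2178 (@Lb.r r548 (@Lb.d (nat_lit 274) (nat_lit 130) (nat_lit 33) (@Lb.t (@Lb.fp (nat_lit 9) t246))))))))))))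
noncomputable def l23996 : Lb := (@Lb.d (nat_lit 4) (nat_lit 10) (nat_lit 130) (@Lb.g g8 (@Lb.g g9 (@Lb.g g10 (@Lb.g g11 (@Lb.r r2730 (@Lb.r r420 (@Lb.r r283 (@Lb.r r1577 (@Lb.r r2068 (@Lb.d (nat_lit 73) (nat_lit 161) (nat_lit 394) (@Lb.fp (nat_lit 9) t2905))))))))))))
noncomputable def l23997 : Lb := (@Lb.r r275 (@Lb.d (nat_lit 38) (nat_lit 517) (nat_lit 0) (@Lb.g g8 (@Lb.g g9 (@Lb.g g10 (@Lb.r r674 (@Lb.r r2439 (@Lb.r r2585 (@Lb.r r1540 (@Lb.d (nat_lit 393) (nat_lit 129) (nat_lit 640) (@Lb.t (@Lb.fp (nat_lit 9) t4649))))))))))))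
noncomputable def l23998 : Lb := (@Lb.r r327 (@Lb.d (nat_lit 1) (nat_lit 514) (nat_lit 0) (@Lb.g g8 (@Lb.g g9 (@Lb.g g10 (@Lb.r r1681 (@Lb.r r347 (@Lb.r r2698 (@Lb.r r72 (@Lb.d (nat_lit 290) (nat_lit 0) (nat_lit 70) (@Lb.t (@Lb.fm (nat_lit 9) t3877))))))))))))
noncomputable def l23999 : Lb := (@Lb.d (nat_lit 32) (nat_lit 0) (nat_lit 130) (@Lb.g g9 (@Lb.g g6 (@Lb.g g11 (@Lb.r r1639 (@Lb.r r1633 (@Lb.r r36 (@Lb.d (nat_lit 261) (nat_lit 26) (nat_lit 280) (@Lb.t (@Lb.fp (nat_lit 9) t4650))))))))))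
noncomputable def l24000 : Lb := (@Lb.d (nat_lit 2) (nat_lit 8) (nat_lit 130) (@Lb.g g8 (@Lb.g g10 (@Lb.g g11 (@Lb.r r353 (@Lb.r r2587 (@Lb.r r1414 (@Lb.r r2564 (@Lb.d (nat_lit 424) (nat_lit 134) (nat_lit 384) (@Lb.t (@Lb.fp (nat_lit 9) t528)))))))))))
noncomputable def l24001 : Lb := (@Lb.r r82 (@Lb.d (nat_lit 0) (nat_lit 256) (nat_lit 128) (@Lb.g g9 (@Lb.g g11 (@Lb.r r1575 (@Lb.r r1416 (@Lb.r r1098 (@Lb.r r1105 (@Lb.d (nat_lit 330) (nat_lit 133) (nat_lit 512) (@Lb.fm (nat_lit 3) t4651))))))))))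
noncomputable def l24002 : Lb := (@Lb.d (nat_lit 0) (nat_lit 258) (nat_lit 0) (@Lb.g g9 (@Lb.r r2339 (@Lb.r r2146 (@Lb.r r97 (@Lb.d (nat_lit 5) (nat_lit 69) (nat_lit 162) (@Lb.t (@Lb.fm (nat_lit 3) t4652))))))))
noncomputable def l24003 : Lb := (@Lb.g g9 (@Lb.r r2343 (@Lb.r r1096 (@Lb.r r2646 (@Lb.r r289 (@Lb.d (nat_lit 1) (nat_lit 642) (nat_lit 16) (@Lb.t (@Lb.fp (nat_lit 3) t1195))))))))
noncomputable def l24004 : Lb := (@Lb.d (nat_lit 2) (nat_lit 512) (nat_lit 0) (@Lb.g g8 (@Lb.r r417 (@Lb.r r2387 (@Lb.r r2666 (@Lb.r r1640 (@Lb.r r1561 (@Lb.d (nat_lit 0) (nat_lit 74) (nat_lit 2) (@Lb.t (@Lb.fp (nat_lit 3) t387))))))))))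
noncomputable def l24005 : Lb := (@Lb.d (nat_lit 133) (nat_lit 594) (nat_lit 384) (@Lb.r r1096 (@Lb.r r1686 (@Lb.r r2435 (@Lb.g g6 (@Lb.g g5 (@Lb.d (nat_lit 0) (nat_lit 17) (nat_lit 6) (@Lb.fm (nat_lit 3) t2294))))))))
noncomputable def l24006 : Lb := (@Lb.d (nat_lit 0) (nat_lit 401) (nat_lit 64) (@Lb.r r594 (@Lb.r r2449 (@Lb.g g11 (@Lb.g g6 (@Lb.d (nat_lit 0) (nat_lit 36) (nat_lit 262) (@Lb.fp (nat_lit 3) t703)))))))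
noncomputable def l24007 : Lb := (@Lb.d (nat_lit 0) (nat_lit 10) (nat_lit 129) (@Lb.g g9 (@Lb.g g10 (@Lb.g g11 (@Lb.r r1681 (@Lb.r r2706 (@Lb.r r387 (@Lb.d (nat_lit 0) (nat_lit 42) (nat_lit 328) (@Lb.t (@Lb.fp (nat_lit 9) t1250))))))))))
noncomputable def l24008 : Lb := (@Lb.r r323 (@Lb.d (nat_lit 2) (nat_lit 258) (nat_lit 0) (@Lb.g g8 (@Lb.g g9 (@Lb.g g10 (@Lb.r r2459 (@Lb.r r297 (@Lb.r r1384 (@Lb.r r2630 (@Lb.d (nat_lit 2) (nat_lit 74) (nat_lit 134) (@Lb.t (@Lb.fm (nat_lit 9) t1254))))))))))))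
noncomputable def l24009 : Lb := (@Lb.d (nat_lit 162) (nat_lit 261) (nat_lit 74) (@Lb.r r586 (@Lb.r r363 (@Lb.r r357 (@Lb.g g7 (@Lb.g g6 (@Lb.g g4 (@Lb.d (nat_lit 1) (nat_lit 4) (nat_lit 64) (@Lb.t (@Lb.fm (nat_lit 9) t2175))))))))))
noncomputable def l24010 : Lb := (@Lb.r r273 (@Lb.d (nat_lit 2) (nat_lit 512) (nat_lit 4) (@Lb.g g8 (@Lb.g g10 (@Lb.g g11 (@Lb.r r101 (@Lb.r r666 (@Lb.r r2443 (@Lb.d (nat_lit 18) (nat_lit 160) (nat_lit 642) (@Lb.t (@Lb.fm (nat_lit 9) t233)))))))))))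
noncomputable def l24011 : Lb := (@Lb.r r323 (@Lb.d (nat_lit 2) (nat_lit 150) (nat_lit 0) (@Lb.g g8 (@Lb.g g5 (@Lb.g g10 (@Lb.r r1555 (@Lb.r r2434 (@Lb.r r1096 (@Lb.d (nat_lit 546) (nat_lit 1) (nat_lit 33) (@Lb.t (@Lb.fm (nat_lit 9) t1205)))))))))))
noncomputable def l24012 : Lb := (@Lb.r r82 (@Lb.r r275 (@Lb.d (nat_lit 1) (nat_lit 1) (nat_lit 0) (@Lb.g g8 (@Lb.g g5 (@Lb.r r291 (@Lb.r r98 (@Lb.r r24 (@Lb.d (nat_lit 10) (nat_lit 2) (nat_lit 0) (@Lb.fm (nat_lit 3) t68))))))))))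
noncomputable def l24013 : Lb := (@Lb.d (nat_lit 616) (nat_lit 616) (nat_lit 136) (@Lb.r r1313 (@Lb.r r322 (@Lb.r r2391 (@Lb.g g7 (@Lb.g g6 (@Lb.g g5 (@Lb.g g4 (@Lb.d (nat_lit 1) (nat_lit 24) (nat_lit 128) (@Lb.fm (nat_lit 9) t4653))))))))))
noncomputable def l24014 : Lb := (@Lb.r r323 (@Lb.d (nat_lit 137) (nat_lit 258) (nat_lit 2) (@Lb.g g8 (@Lb.g g9 (@Lb.g g10 (@Lb.r r426 (@Lb.r r583 (@Lb.r r1177 (@Lb.r r408 (@Lb.d (nat_lit 85) (nat_lit 154) (nat_lit 586) (@Lb.t (@Lb.fp (nat_lit 9) t284))))))))))))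
noncomputable def l24015 : Lb := (@Lb.r r275 (@Lb.d (nat_lit 8) (nat_lit 260) (nat_lit 5) (@Lb.g g9 (@Lb.g g6 (@Lb.r r2659 (@Lb.r r2328 (@Lb.r r1637 (@Lb.d (nat_lit 24) (nat_lit 4) (nat_lit 384) (@Lb.fm (nat_lit 3) t3919)))))))))
noncomputable def l24016 : Lb := (@Lb.r r323 (@Lb.d (nat_lit 8) (nat_lit 258) (nat_lit 1) (@Lb.g g9 (@Lb.g g6 (@Lb.r r2659 (@Lb.d (nat_lit 2) (nat_lit 68) (nat_lit 86) (@Lb.fm (nat_lit 3) t591)))))))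
noncomputable def l24017 : Lb := (@Lb.d (nat_lit 33) (nat_lit 262) (nat_lit 2) (@Lb.g g8 (@Lb.g g9 (@Lb.g g6 (@Lb.r r1643 (@Lb.r r1636 (@Lb.r r1125 (@Lb.d (nat_lit 533) (nat_lit 168) (nat_lit 144) (@Lb.t (@Lb.fp (nat_lit 9) t4247))))))))))
noncomputable def l24018 : Lb := (@Lb.r r323 (@Lb.d (nat_lit 34) (nat_lit 258) (nat_lit 17) (@Lb.g g8 (@Lb.g g9 (@Lb.g g6 (@Lb.r r515 (@Lb.r r1385 (@Lb.r r2340 (@Lb.d (nat_lit 105) (nat_lit 98) (nat_lit 260) (@Lb.t (@Lb.fp (nat_lit 9) t3814)))))))))))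
noncomputable def l24019 : Lb := (@Lb.d (nat_lit 266) (nat_lit 601) (nat_lit 580) (@Lb.r r1686 (@Lb.r r337 (@Lb.g g7 (@Lb.g g6 (@Lb.g g5 (@Lb.d (nat_lit 64) (nat_lit 6) (nat_lit 578) (@Lb.t (@Lb.fm (nat_lit 9) t4654)))))))))
noncomputable def l24020 : Lb := (@Lb.d (nat_lit 32) (nat_lit 512) (nat_lit 18) (@Lb.g g10 (@Lb.r r104 (@Lb.r r2585 (@Lb.r r539 (@Lb.r r516 (@Lb.d (nat_lit 34) (nat_lit 0) (nat_lit 17) (@Lb.t (@Lb.fp (nat_lit 3) t2321)))))))))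
noncomputable def l24021 : Lb := (@Lb.r r323 (@Lb.d (nat_lit 130) (nat_lit 341) (nat_lit 0) (@Lb.g g8 (@Lb.g g5 (@Lb.g g10 (@Lb.r r1683 (@Lb.r r1610 (@Lb.r r72 (@Lb.d (nat_lit 34) (nat_lit 65) (nat_lit 386) (@Lb.t (@Lb.fp (nat_lit 9) t1329)))))))))))
noncomputable def l24022 : Lb := (@Lb.d (nat_lit 552) (nat_lit 89) (nat_lit 580) (@Lb.r r1686 (@Lb.r r345 (@Lb.g g7 (@Lb.g g6 (@Lb.g g5 (@Lb.d (nat_lit 64) (nat_lit 5) (nat_lit 578) (@Lb.t (@Lb.fm (nat_lit 9) t4655)))))))))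
noncomputable def l24023 : Lb := (@Lb.d (nat_lit 128) (nat_lit 544) (nat_lit 106) (@Lb.g g10 (@Lb.g g11 (@Lb.r r2408 (@Lb.r r2329 (@Lb.r r295 (@Lb.d (nat_lit 361) (nat_lit 34) (nat_lit 129) (@Lb.fp (nat_lit 3) t1875))))))))
noncomputable def l24024 : Lb := (@Lb.d (nat_lit 2) (nat_lit 402) (nat_lit 2) (@Lb.g g8 (@Lb.g g5 (@Lb.g g10 (@Lb.g g11 (@Lb.r r531 (@Lb.r r386 (@Lb.r r1096 (@Lb.d (nat_lit 546) (nat_lit 1) (nat_lit 425) (@Lb.fp (nat_lit 9) t4656))))))))))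
noncomputable def l24025 : Lb := (@Lb.d (nat_lit 137) (nat_lit 521) (nat_lit 1) (@Lb.g g8 (@Lb.g g9 (@Lb.g g10 (@Lb.r r675 (@Lb.r r170 (@Lb.r r529 (@Lb.r r392 (@Lb.d (nat_lit 148) (nat_lit 32) (nat_lit 74) (@Lb.t (@Lb.fp (nat_lit 9) t264)))))))))))
noncomputable def l24026 : Lb := (@Lb.d (nat_lit 73) (nat_lit 544) (nat_lit 656) (@Lb.r r24 (@Lb.r r82 (@Lb.r r595 (@Lb.r r1429 (@Lb.g g5 (@Lb.g g4 (@Lb.d (nat_lit 1) (nat_lit 1) (nat_lit 0) (@Lb.r r98 (@Lb.fm (nat_lit 3) t2957))))))))))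
noncomputable def l24027 : Lb := (@Lb.d (nat_lit 389) (nat_lit 96) (nat_lit 640) (@Lb.r r24 (@Lb.r r2337 (@Lb.r r579 (@Lb.r r1366 (@Lb.g g6 (@Lb.g g5 (@Lb.g g4 (@Lb.d (nat_lit 1) (nat_lit 1) (nat_lit 1) (@Lb.t (@Lb.fm (nat_lit 9) t720)))))))))))
noncomputable def l24028 : Lb := (@Lb.d (nat_lit 129) (nat_lit 2) (nat_lit 344) (@Lb.g g8 (@Lb.g g9 (@Lb.g g6 (@Lb.g g11 (@Lb.r r617 (@Lb.r r2084 (@Lb.d (nat_lit 361) (nat_lit 146) (nat_lit 600) (@Lb.fp (nat_lit 9) t2239)))))))))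
noncomputable def l24029 : Lb := (@Lb.d (nat_lit 160) (nat_lit 264) (nat_lit 257) (@Lb.g g10 (@Lb.g g7 (@Lb.r r356 (@Lb.r r2405 (@Lb.r r2650 (@Lb.d (nat_lit 425) (nat_lit 5) (nat_lit 170) (@Lb.fm (nat_lit 3) t1818))))))))
noncomputable def l24030 : Lb := (@Lb.r r323 (@Lb.d (nat_lit 4) (nat_lit 290) (nat_lit 2) (@Lb.g g8 (@Lb.g g9 (@Lb.g g10 (@Lb.r r2647 (@Lb.r r74 (@Lb.r r1320 (@Lb.r r1433 (@Lb.d (nat_lit 662) (nat_lit 21) (nat_lit 617) (@Lb.t (@Lb.fm (nat_lit 9) t119))))))))))))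
noncomputable def l24031 : Lb := (@Lb.d (nat_lit 33) (nat_lit 514) (nat_lit 129) (@Lb.g g8 (@Lb.g g9 (@Lb.g g10 (@Lb.g g11 (@Lb.r r1426 (@Lb.r r1643 (@Lb.r r1640 (@Lb.r r25 (@Lb.d (nat_lit 521) (nat_lit 81) (nat_lit 680) (@Lb.fm (nat_lit 9) t4531)))))))))))
noncomputable def l24032 : Lb := (@Lb.d (nat_lit 38) (nat_lit 0) (nat_lit 129) (@Lb.g g8 (@Lb.g g9 (@Lb.g g6 (@Lb.g g11 (@Lb.r r1643 (@Lb.r r1640 (@Lb.r r25 (@Lb.d (nat_lit 514) (nat_lit 154) (nat_lit 520) (@Lb.fm (nat_lit 9) t1923))))))))))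
noncomputable def l24033 : Lb := (@Lb.d (nat_lit 0) (nat_lit 0) (nat_lit 2) (@Lb.g g10 (@Lb.g g7 (@Lb.r r386 (@Lb.r r101 (@Lb.r r24 (@Lb.d (nat_lit 586) (nat_lit 9) (nat_lit 617) (@Lb.fm (nat_lit 3) t166))))))))
noncomputable def l24034 : Lb := (@Lb.d (nat_lit 0) (nat_lit 512) (nat_lit 2) (@Lb.g g10 (@Lb.g g7 (@Lb.r r386 (@Lb.r r101 (@Lb.r r24 (@Lb.d (nat_lit 584) (nat_lit 9) (nat_lit 617) (@Lb.fm (nat_lit 3) t1150))))))))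
noncomputable def l24035 : Lb := (@Lb.d (nat_lit 677) (nat_lit 326) (nat_lit 553) (@Lb.r r2650 (@Lb.r r1352 (@Lb.r r2711 (@Lb.r r361 (@Lb.g g7 (@Lb.g g6 (@Lb.d (nat_lit 16) (nat_lit 4) (nat_lit 65) (@Lb.fp (nat_lit 3) t1751)))))))))
noncomputable def l24036 : Lb := (@Lb.r r322 (@Lb.d (nat_lit 40) (nat_lit 289) (nat_lit 516) (@Lb.g g8 (@Lb.g g9 (@Lb.g g7 (@Lb.r r2466 (@Lb.r r2345 (@Lb.r r1384 (@Lb.d (nat_lit 144) (nat_lit 169) (nat_lit 261) (@Lb.t (@Lb.fm (nat_lit 9) t1192)))))))))))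
noncomputable def l24037 : Lb := (@Lb.r r580 (@Lb.r r593 (@Lb.d (nat_lit 0) (nat_lit 256) (nat_lit 640) (@Lb.g g10 (@Lb.g g7 (@Lb.r r24 (@Lb.r r1445 (@Lb.r r98 (@Lb.d (nat_lit 5) (nat_lit 138) (nat_lit 322) (@Lb.fp (nat_lit 3) t2716))))))))))
noncomputable def l24038 : Lb := (@Lb.d (nat_lit 9) (nat_lit 38) (nat_lit 133) (@Lb.g g8 (@Lb.g g9 (@Lb.g g10 (@Lb.g g11 (@Lb.r r682 (@Lb.r r676 (@Lb.r r551 (@Lb.r r533 (@Lb.r r36 (@Lb.d (nat_lit 137) (nat_lit 1) (nat_lit 74) (@Lb.fp (nat_lit 9) t264))))))))))))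
noncomputable def l24039 : Lb := (@Lb.g g4 (@Lb.d (nat_lit 1) (nat_lit 517) (nat_lit 129) (@Lb.t (@Lb.fm (nat_lit 3) t45))))
noncomputable def l24040 : Lb := (@Lb.d (nat_lit 133) (nat_lit 520) (nat_lit 73) (@Lb.r r24 (@Lb.r r97 (@Lb.r r386 (@Lb.r r343 (@Lb.g g7 (@Lb.g g6 (@Lb.g g5 (@Lb.d (nat_lit 0) (nat_lit 1) (nat_lit 65) (@Lb.t (@Lb.fm (nat_lit 9) t522)))))))))))
noncomputable def l24041 : Lb := (@Lb.d (nat_lit 2) (nat_lit 514) (nat_lit 74) (@Lb.g g8 (@Lb.g g9 (@Lb.g g10 (@Lb.g g11 (@Lb.r r643 (@Lb.r r297 (@Lb.r r360 (@Lb.r r582 (@Lb.r r132 (@Lb.d (nat_lit 129) (nat_lit 10) (nat_lit 73) (@Lb.fm (nat_lit 9) t242))))))))))))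
noncomputable def l24042 : Lb := (@Lb.d (nat_lit 389) (nat_lit 17) (nat_lit 576) (@Lb.r r24 (@Lb.r r2311 (@Lb.g g9 (@Lb.t (@Lb.fm (nat_lit 3) t1165))))))
noncomputable def l24043 : Lb := (@Lb.d (nat_lit 1) (nat_lit 512) (nat_lit 130) (@Lb.g g8 (@Lb.g g10 (@Lb.g g11 (@Lb.r r1303 (@Lb.r r2713 (@Lb.r r2650 (@Lb.r r2628 (@Lb.d (nat_lit 400) (nat_lit 2) (nat_lit 425) (@Lb.t (@Lb.fm (nat_lit 9) t441)))))))))))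
noncomputable def l24044 : Lb := (@Lb.d (nat_lit 657) (nat_lit 594) (nat_lit 609) (@Lb.r r2584 (@Lb.r r2178 (@Lb.r r2651 (@Lb.g g9 (@Lb.g g4 (@Lb.d (nat_lit 0) (nat_lit 70) (nat_lit 0) (@Lb.fm (nat_lit 3) t3162))))))))
noncomputable def l24045 : Lb := (@Lb.d (nat_lit 1) (nat_lit 0) (nat_lit 128) (@Lb.g g8 (@Lb.g g10 (@Lb.g g11 (@Lb.r r353 (@Lb.r r658 (@Lb.r r1415 (@Lb.r r2628 (@Lb.d (nat_lit 416) (nat_lit 0) (nat_lit 426) (@Lb.t (@Lb.fm (nat_lit 9) t1069)))))))))))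
noncomputable def l24046 : Lb := (@Lb.d (nat_lit 293) (nat_lit 1) (nat_lit 82) (@Lb.r r134 (@Lb.r r328 (@Lb.r r663 (@Lb.r r273 (@Lb.g g7 (@Lb.g g5 (@Lb.g g4 (@Lb.d (nat_lit 1) (nat_lit 1) (nat_lit 128) (@Lb.t (@Lb.fm (nat_lit 9) t744)))))))))))
noncomputable def l24047 : Lb := (@Lb.d (nat_lit 1) (nat_lit 256) (nat_lit 130) (@Lb.g g8 (@Lb.g g10 (@Lb.g g11 (@Lb.r r1303 (@Lb.r r161 (@Lb.r r98 (@Lb.r r2628 (@Lb.d (nat_lit 160) (nat_lit 8) (nat_lit 392) (@Lb.t (@Lb.fp (nat_lit 9) t1127)))))))))))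
noncomputable def l24048 : Lb := (@Lb.d (nat_lit 390) (nat_lit 640) (nat_lit 289) (@Lb.r r1317 (@Lb.r r603 (@Lb.r r516 (@Lb.g g7 (@Lb.g g6 (@Lb.d (nat_lit 80) (nat_lit 0) (nat_lit 97) (@Lb.fm (nat_lit 3) t4657))))))))
noncomputable def l24049 : Lb := (@Lb.d (nat_lit 293) (nat_lit 320) (nat_lit 288) (@Lb.r r24 (@Lb.r r101 (@Lb.r r402 (@Lb.g g11 (@Lb.g g6 (@Lb.fm (nat_lit 3) t2374)))))))
noncomputable def l24050 : Lb := (@Lb.d (nat_lit 549) (nat_lit 549) (nat_lit 549) (@Lb.r r24 (@Lb.r r97 (@Lb.r r2438 (@Lb.g g11 (@Lb.g g6 (@Lb.g g5 (@Lb.d (nat_lit 0) (nat_lit 1) (nat_lit 0) (@Lb.t (@Lb.fp (nat_lit 9) t4658))))))))))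
noncomputable def l24051 : Lb := (@Lb.r r21 (@Lb.d (nat_lit 130) (nat_lit 0) (nat_lit 130) (@Lb.g g8 (@Lb.g g10 (@Lb.g g11 (@Lb.r r419 (@Lb.r r1172 (@Lb.r r2438 (@Lb.r r97 (@Lb.d (nat_lit 361) (nat_lit 106) (nat_lit 144) (@Lb.t (@Lb.fm (nat_lit 9) t4659))))))))))))
noncomputable def l24052 : Lb := (@Lb.d (nat_lit 169) (nat_lit 261) (nat_lit 274) (@Lb.r r1317 (@Lb.r r603 (@Lb.r r516 (@Lb.g g7 (@Lb.g g6 (@Lb.d (nat_lit 80) (nat_lit 0) (nat_lit 97) (@Lb.fm (nat_lit 3) t4660))))))))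
noncomputable def l24053 : Lb := (@Lb.r r21 (@Lb.d (nat_lit 130) (nat_lit 512) (nat_lit 130) (@Lb.g g8 (@Lb.g g10 (@Lb.g g11 (@Lb.r r419 (@Lb.r r1172 (@Lb.r r2438 (@Lb.r r25 (@Lb.d (nat_lit 276) (nat_lit 144) (nat_lit 137) (@Lb.t (@Lb.fp (nat_lit 9) t4661))))))))))))
noncomputable def l24054 : Lb := (@Lb.r r82 (@Lb.d (nat_lit 134) (nat_lit 512) (nat_lit 128) (@Lb.g g8 (@Lb.g g9 (@Lb.g g11 (@Lb.r r657 (@Lb.r r1686 (@Lb.r r1411 (@Lb.r r264 (@Lb.d (nat_lit 129) (nat_lit 0) (nat_lit 596) (@Lb.t (@Lb.fm (nat_lit 9) t2343))))))))))))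
noncomputable def l24055 : Lb := (@Lb.d (nat_lit 1) (nat_lit 258) (nat_lit 2) (@Lb.g g8 (@Lb.g g9 (@Lb.g g10 (@Lb.g g11 (@Lb.r r2411 (@Lb.r r386 (@Lb.r r97 (@Lb.r r24 (@Lb.d (nat_lit 266) (nat_lit 2) (nat_lit 84) (@Lb.fm (nat_lit 9) t61)))))))))))
noncomputable def l24056 : Lb := (@Lb.r r82 (@Lb.d (nat_lit 1) (nat_lit 258) (nat_lit 0) (@Lb.g g8 (@Lb.g g9 (@Lb.g g11 (@Lb.r r1307 (@Lb.r r578 (@Lb.r r289 (@Lb.r r24 (@Lb.d (nat_lit 266) (nat_lit 42) (nat_lit 130) (@Lb.t (@Lb.fm (nat_lit 9) t3824))))))))))))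
noncomputable def l24057 : Lb := (@Lb.r r82 (@Lb.r r275 (@Lb.d (nat_lit 1) (nat_lit 160) (nat_lit 0) (@Lb.g g8 (@Lb.g g9 (@Lb.r r2599 (@Lb.r r1384 (@Lb.r r2630 (@Lb.d (nat_lit 353) (nat_lit 73) (nat_lit 598) (@Lb.fm (nat_lit 3) t1806))))))))))
noncomputable def l24058 : Lb := (@Lb.r r323 (@Lb.d (nat_lit 1) (nat_lit 4) (nat_lit 1) (@Lb.g g8 (@Lb.g g9 (@Lb.g g10 (@Lb.r r2459 (@Lb.r r297 (@Lb.r r1384 (@Lb.r r2630 (@Lb.d (nat_lit 0) (nat_lit 74) (nat_lit 136) (@Lb.t (@Lb.fm (nat_lit 9) t1806))))))))))))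
noncomputable def l24059 : Lb := (@Lb.d (nat_lit 0) (nat_lit 289) (nat_lit 132) (@Lb.g g9 (@Lb.g g10 (@Lb.g g11 (@Lb.r r683 (@Lb.r r610 (@Lb.r r548 (@Lb.r r613 (@Lb.d (nat_lit 148) (nat_lit 36) (nat_lit 132) (@Lb.t (@Lb.fm (nat_lit 9) t1950)))))))))))
noncomputable def l24060 : Lb := (@Lb.r r20 (@Lb.d (nat_lit 0) (nat_lit 33) (nat_lit 4) (@Lb.g g9 (@Lb.g g10 (@Lb.g g11 (@Lb.r r2727 (@Lb.r r614 (@Lb.r r533 (@Lb.d (nat_lit 597) (nat_lit 41) (nat_lit 129) (@Lb.t (@Lb.fp (nat_lit 9) t4662)))))))))))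
noncomputable def l24061 : Lb := (@Lb.d (nat_lit 0) (nat_lit 516) (nat_lit 130) (@Lb.r r402 (@Lb.g g11 (@Lb.g g9 (@Lb.d (nat_lit 0) (nat_lit 0) (nat_lit 136) (@Lb.fp (nat_lit 3) t4663))))))
noncomputable def l24062 : Lb := (@Lb.d (nat_lit 0) (nat_lit 292) (nat_lit 6) (@Lb.r r402 (@Lb.g g6 (@Lb.g g9 (@Lb.fm (nat_lit 3) t97)))))
noncomputable def l24063 : Lb := (@Lb.d (nat_lit 656) (nat_lit 522) (nat_lit 656) (@Lb.r r402 (@Lb.r r101 (@Lb.r r24 (@Lb.g g11 (@Lb.t (@Lb.fm (nat_lit 3) t4664)))))))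
noncomputable def l24064 : Lb := (@Lb.d (nat_lit 2) (nat_lit 546) (nat_lit 4) (@Lb.g g8 (@Lb.g g9 (@Lb.g g10 (@Lb.g g11 (@Lb.r r682 (@Lb.r r676 (@Lb.r r551 (@Lb.r r533 (@Lb.r r36 (@Lb.d (nat_lit 137) (nat_lit 1) (nat_lit 74) (@Lb.fp (nat_lit 9) t74))))))))))))
noncomputable def l24065 : Lb := (@Lb.d (nat_lit 0) (nat_lit 0) (nat_lit 4) (@Lb.g g10 (@Lb.g g11 (@Lb.r r419 (@Lb.r r386 (@Lb.r r101 (@Lb.r r24 (@Lb.d (nat_lit 98) (nat_lit 0) (nat_lit 9) (@Lb.fp (nat_lit 3) t263)))))))))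
noncomputable def l24066 : Lb := (@Lb.d (nat_lit 645) (nat_lit 258) (nat_lit 320) (@Lb.r r1317 (@Lb.r r2662 (@Lb.r r1307 (@Lb.r r2308 (@Lb.g g7 (@Lb.g g5 (@Lb.d (nat_lit 4) (nat_lit 2) (nat_lit 128) (@Lb.fp (nat_lit 3) t919)))))))))
noncomputable def l24067 : Lb := (@Lb.r r81 (@Lb.r r263 (@Lb.d (nat_lit 17) (nat_lit 264) (nat_lit 16) (@Lb.g g8 (@Lb.g g10 (@Lb.r r2459 (@Lb.r r2201 (@Lb.r r2216 (@Lb.d (nat_lit 40) (nat_lit 0) (nat_lit 17) (@Lb.fp (nat_lit 3) t4368))))))))))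
noncomputable def l24068 : Lb := (@Lb.r r82 (@Lb.d (nat_lit 134) (nat_lit 514) (nat_lit 128) (@Lb.g g8 (@Lb.g g9 (@Lb.g g11 (@Lb.r r2667 (@Lb.r r2710 (@Lb.r r1449 (@Lb.r r1636 (@Lb.d (nat_lit 265) (nat_lit 165) (nat_lit 394) (@Lb.t (@Lb.fp (nat_lit 9) t1776))))))))))))
noncomputable def l24069 : Lb := (@Lb.d (nat_lit 32) (nat_lit 256) (nat_lit 64) (@Lb.g g10 (@Lb.g g11 (@Lb.r r24 (@Lb.r r2597 (@Lb.r r419 (@Lb.r r2378 (@Lb.d (nat_lit 149) (nat_lit 73) (nat_lit 277) (@Lb.fm (nat_lit 3) t4665)))))))))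
noncomputable def l24070 : Lb := (@Lb.d (nat_lit 549) (nat_lit 518) (nat_lit 68) (@Lb.r r24 (@Lb.r r82 (@Lb.r r421 (@Lb.r r1563 (@Lb.g g7 (@Lb.g g6 (@Lb.g g5 (@Lb.d (nat_lit 0) (nat_lit 10) (nat_lit 128) (@Lb.t (@Lb.fm (nat_lit 9) t1794)))))))))))
noncomputable def l24071 : Lb := (@Lb.d (nat_lit 66) (nat_lit 2) (nat_lit 640) (@Lb.r r24 (@Lb.r r2587 (@Lb.g g7 (@Lb.g g9 (@Lb.d (nat_lit 8) (nat_lit 2) (nat_lit 128) (@Lb.fp (nat_lit 3) t121)))))))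
noncomputable def l24072 : Lb := (@Lb.d (nat_lit 585) (nat_lit 617) (nat_lit 665) (@Lb.r r1689 (@Lb.r r2458 (@Lb.g g7 (@Lb.g g5 (@Lb.d (nat_lit 64) (nat_lit 38) (nat_lit 512) (@Lb.r r578 (@Lb.fp (nat_lit 3) t4531))))))))
noncomputable def l24073 : Lb := (@Lb.d (nat_lit 9) (nat_lit 257) (nat_lit 130) (@Lb.g g8 (@Lb.g g9 (@Lb.g g10 (@Lb.g g11 (@Lb.r r2439 (@Lb.r r584 (@Lb.r r1126 (@Lb.r r97 (@Lb.r r2084 (@Lb.d (nat_lit 4) (nat_lit 170) (nat_lit 641) (@Lb.fp (nat_lit 9) t295))))))))))))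
noncomputable def l24074 : Lb := (@Lb.d (nat_lit 129) (nat_lit 256) (nat_lit 346) (@Lb.r r24 (@Lb.r r101 (@Lb.r r2402 (@Lb.r r1619 (@Lb.g g7 (@Lb.g g6 (@Lb.g g5 (@Lb.d (nat_lit 0) (nat_lit 0) (nat_lit 8) (@Lb.t (@Lb.fm (nat_lit 9) t719)))))))))))
noncomputable def l24075 : Lb := (@Lb.d (nat_lit 26) (nat_lit 513) (nat_lit 2) (@Lb.g g8 (@Lb.g g9 (@Lb.g g6 (@Lb.g g11 (@Lb.r r2659 (@Lb.r r100 (@Lb.r r597 (@Lb.r r2084 (@Lb.d (nat_lit 146) (nat_lit 34) (nat_lit 360) (@Lb.fp (nat_lit 9) t2643)))))))))))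
noncomputable def l24076 : Lb := (@Lb.d (nat_lit 0) (nat_lit 258) (nat_lit 130) (@Lb.g g9 (@Lb.g g10 (@Lb.g g11 (@Lb.r r2691 (@Lb.r r353 (@Lb.r r146 (@Lb.r r24 (@Lb.d (nat_lit 613) (nat_lit 90) (nat_lit 324) (@Lb.t (@Lb.fm (nat_lit 9) t4666)))))))))))
noncomputable def l24077 : Lb := (@Lb.r r263 (@Lb.d (nat_lit 2) (nat_lit 4) (nat_lit 0) (@Lb.g g8 (@Lb.g g9 (@Lb.g g10 (@Lb.r r675 (@Lb.r r168 (@Lb.r r2666 (@Lb.r r25 (@Lb.d (nat_lit 362) (nat_lit 89) (nat_lit 132) (@Lb.t (@Lb.fm (nat_lit 9) t606))))))))))))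
noncomputable def l24078 : Lb := (@Lb.d (nat_lit 64) (nat_lit 516) (nat_lit 138) (@Lb.g g8 (@Lb.g g9 (@Lb.g g10 (@Lb.g g11 (@Lb.r r675 (@Lb.r r2406 (@Lb.r r533 (@Lb.r r264 (@Lb.d (nat_lit 297) (nat_lit 89) (nat_lit 665) (@Lb.fp (nat_lit 9) t606)))))))))))
noncomputable def l24079 : Lb := (@Lb.r r82 (@Lb.r r275 (@Lb.d (nat_lit 2) (nat_lit 256) (nat_lit 0) (@Lb.g g8 (@Lb.g g9 (@Lb.r r1291 (@Lb.r r1098 (@Lb.r r1044 (@Lb.r r25 (@Lb.d (nat_lit 258) (nat_lit 128) (nat_lit 0) (@Lb.fm (nat_lit 3) t367)))))))))))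
noncomputable def l24080 : Lb := (@Lb.r r275 (@Lb.d (nat_lit 2) (nat_lit 288) (nat_lit 0) (@Lb.g g8 (@Lb.g g9 (@Lb.r r1675 (@Lb.r r2178 (@Lb.r r548 (@Lb.r r661 (@Lb.d (nat_lit 390) (nat_lit 96) (nat_lit 149) (@Lb.fm (nat_lit 3) t4667))))))))))
noncomputable def l24081 : Lb := (@Lb.d (nat_lit 2) (nat_lit 256) (nat_lit 130) (@Lb.g g8 (@Lb.g g9 (@Lb.g g10 (@Lb.g g11 (@Lb.r r1602 (@Lb.r r548 (@Lb.r r615 (@Lb.r r533 (@Lb.r r1060 (@Lb.d (nat_lit 0) (nat_lit 73) (nat_lit 345) (@Lb.fm (nat_lit 9) t2910))))))))))))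
noncomputable def l24082 : Lb := (@Lb.d (nat_lit 2) (nat_lit 514) (nat_lit 130) (@Lb.g g8 (@Lb.g g9 (@Lb.g g10 (@Lb.g g11 (@Lb.r r2347 (@Lb.r r1606 (@Lb.r r2457 (@Lb.r r2436 (@Lb.d (nat_lit 677) (nat_lit 72) (nat_lit 425) (@Lb.fp (nat_lit 9) t2103)))))))))))
noncomputable def l24083 : Lb := (@Lb.d (nat_lit 32) (nat_lit 2) (nat_lit 9) (@Lb.g g9 (@Lb.g g10 (@Lb.g g11 (@Lb.r r2709 (@Lb.r r1380 (@Lb.r r2715 (@Lb.r r2634 (@Lb.d (nat_lit 353) (nat_lit 5) (nat_lit 256) (@Lb.t (@Lb.fp (nat_lit 9) t564)))))))))))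
noncomputable def l24084 : Lb := (@Lb.d (nat_lit 32) (nat_lit 520) (nat_lit 258) (@Lb.g g10 (@Lb.g g7 (@Lb.r r104 (@Lb.r r2153 (@Lb.r r2134 (@Lb.d (nat_lit 150) (nat_lit 134) (nat_lit 290) (@Lb.fp (nat_lit 3) t322))))))))
noncomputable def l24085 : Lb := (@Lb.d (nat_lit 144) (nat_lit 2) (nat_lit 64) (@Lb.g g8 (@Lb.g g9 (@Lb.g g10 (@Lb.g g11 (@Lb.r r427 (@Lb.r r2154 (@Lb.r r409 (@Lb.r r388 (@Lb.d (nat_lit 105) (nat_lit 90) (nat_lit 338) (@Lb.fp (nat_lit 9) t394)))))))))))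
noncomputable def l24086 : Lb := (@Lb.d (nat_lit 128) (nat_lit 544) (nat_lit 72) (@Lb.g g11 (@Lb.r r420 (@Lb.r r2469 (@Lb.r r1446 (@Lb.r r347 (@Lb.d (nat_lit 296) (nat_lit 22) (nat_lit 646) (@Lb.t (@Lb.fp (nat_lit 3) t322)))))))))
noncomputable def l24087 : Lb := (@Lb.r r21 (@Lb.r r70 (@Lb.d (nat_lit 656) (nat_lit 32) (nat_lit 64) (@Lb.g g4 (@Lb.g g11 (@Lb.r r345 (@Lb.r r1315 (@Lb.r r2182 (@Lb.d (nat_lit 6) (nat_lit 160) (nat_lit 418) (@Lb.fm (nat_lit 3) t68))))))))))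
noncomputable def l24088 : Lb := (@Lb.r r70 (@Lb.d (nat_lit 385) (nat_lit 522) (nat_lit 64) (@Lb.g g8 (@Lb.g g9 (@Lb.g g11 (@Lb.r r2454 (@Lb.r r2391 (@Lb.r r2709 (@Lb.d (nat_lit 681) (nat_lit 162) (nat_lit 296) (@Lb.t (@Lb.fp (nat_lit 9) t601)))))))))))
noncomputable def l24089 : Lb := (@Lb.r r323 (@Lb.d (nat_lit 8) (nat_lit 288) (nat_lit 18) (@Lb.g g9 (@Lb.g g10 (@Lb.r r1624 (@Lb.r r1371 (@Lb.r r2705 (@Lb.d (nat_lit 256) (nat_lit 10) (nat_lit 533) (@Lb.fp (nat_lit 3) t4668)))))))))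
noncomputable def l24090 : Lb := (@Lb.d (nat_lit 134) (nat_lit 518) (nat_lit 97) (@Lb.r r580 (@Lb.r r615 (@Lb.r r529 (@Lb.r r146 (@Lb.g g7 (@Lb.g g5 (@Lb.g g4 (@Lb.d (nat_lit 18) (nat_lit 1) (nat_lit 68) (@Lb.t (@Lb.fp (nat_lit 9) t2315)))))))))))
noncomputable def l24091 : Lb := (@Lb.d (nat_lit 388) (nat_lit 6) (nat_lit 278) (@Lb.r r24 (@Lb.r r101 (@Lb.r r386 (@Lb.g g11 (@Lb.g g6 (@Lb.d (nat_lit 0) (nat_lit 0) (nat_lit 1) (@Lb.fm (nat_lit 3) t834))))))))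
noncomputable def l24092 : Lb := (@Lb.r r82 (@Lb.d (nat_lit 2) (nat_lit 33) (nat_lit 128) (@Lb.g g8 (@Lb.g g9 (@Lb.g g11 (@Lb.r r2649 (@Lb.r r531 (@Lb.r r98 (@Lb.r r24 (@Lb.d (nat_lit 153) (nat_lit 38) (nat_lit 330) (@Lb.t (@Lb.fm (nat_lit 9) t4669))))))))))))
noncomputable def l24093 : Lb := (@Lb.d (nat_lit 528) (nat_lit 24) (nat_lit 80) (@Lb.r r2182 (@Lb.r r531 (@Lb.r r2341 (@Lb.g g7 (@Lb.g g4 (@Lb.d (nat_lit 66) (nat_lit 16) (nat_lit 64) (@Lb.r r74 (@Lb.r r25 (@Lb.fp (nat_lit 3) t4670))))))))))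
noncomputable def l24094 : Lb := (@Lb.r r70 (@Lb.d (nat_lit 10) (nat_lit 1) (nat_lit 128) (@Lb.g g8 (@Lb.g g9 (@Lb.g g11 (@Lb.r r2473 (@Lb.r r1559 (@Lb.r r1428 (@Lb.r r2182 (@Lb.d (nat_lit 148) (nat_lit 82) (nat_lit 66) (@Lb.t (@Lb.fp (nat_lit 9) t4670))))))))))))
noncomputable def l24095 : Lb := (@Lb.d (nat_lit 0) (nat_lit 546) (nat_lit 2) (@Lb.g g8 (@Lb.g g9 (@Lb.g g10 (@Lb.r r2647 (@Lb.r r386 (@Lb.r r1096 (@Lb.d (nat_lit 352) (nat_lit 2) (nat_lit 297) (@Lb.t (@Lb.fp (nat_lit 9) t288))))))))))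
noncomputable def l24096 : Lb := (@Lb.d (nat_lit 2) (nat_lit 512) (nat_lit 128) (@Lb.g g8 (@Lb.g g11 (@Lb.r r353 (@Lb.r r2707 (@Lb.r r662 (@Lb.r r2120 (@Lb.d (nat_lit 33) (nat_lit 10) (nat_lit 581) (@Lb.fm (nat_lit 3) t3799)))))))))
noncomputable def l24097 : Lb := (@Lb.d (nat_lit 65) (nat_lit 9) (nat_lit 1) (@Lb.g g8 (@Lb.g g9 (@Lb.g g10 (@Lb.g g11 (@Lb.r r2473 (@Lb.r r1623 (@Lb.r r678 (@Lb.r r2456 (@Lb.d (nat_lit 297) (nat_lit 154) (nat_lit 344) (@Lb.fp (nat_lit 9) t4671)))))))))))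
noncomputable def l24098 : Lb := (@Lb.d (nat_lit 536) (nat_lit 512) (nat_lit 73) (@Lb.g g8 (@Lb.g g10 (@Lb.g g11 (@Lb.r r1667 (@Lb.r r1634 (@Lb.d (nat_lit 0) (nat_lit 160) (nat_lit 664) (@Lb.t (@Lb.fp (nat_lit 9) t3687)))))))))
noncomputable def l24099 : Lb := (@Lb.d (nat_lit 529) (nat_lit 600) (nat_lit 145) (@Lb.r r2312 (@Lb.r r2579 (@Lb.r r1361 (@Lb.g g6 (@Lb.g g5 (@Lb.d (nat_lit 0) (nat_lit 1) (nat_lit 17) (@Lb.r r132 (@Lb.fm (nat_lit 3) t4672)))))))))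
noncomputable def l24100 : Lb := (@Lb.r r82 (@Lb.r r275 (@Lb.d (nat_lit 0) (nat_lit 257) (nat_lit 0) (@Lb.g g8 (@Lb.g g5 (@Lb.r r2315 (@Lb.r r2122 (@Lb.d (nat_lit 260) (nat_lit 1) (nat_lit 0) (@Lb.fp (nat_lit 3) t116)))))))))
noncomputable def l24101 : Lb := (@Lb.r r21 (@Lb.r r70 (@Lb.r r263 (@Lb.g g8 (@Lb.r r267 (@Lb.r r101 (@Lb.r r410 (@Lb.d (nat_lit 98) (nat_lit 512) (nat_lit 85) (@Lb.t (@Lb.fp (nat_lit 3) t573))))))))))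
noncomputable def l24102 : Lb := (@Lb.d (nat_lit 134) (nat_lit 514) (nat_lit 130) (@Lb.g g8 (@Lb.g g9 (@Lb.g g10 (@Lb.g g11 (@Lb.r r2730 (@Lb.r r1443 (@Lb.r r168 (@Lb.r r1065 (@Lb.r r36 (@Lb.d (nat_lit 66) (nat_lit 85) (nat_lit 393) (@Lb.fm (nat_lit 9) t809))))))))))))
noncomputable def l24103 : Lb := (@Lb.d (nat_lit 134) (nat_lit 272) (nat_lit 137) (@Lb.g g8 (@Lb.g g9 (@Lb.g g10 (@Lb.g g11 (@Lb.r r610 (@Lb.r r2627 (@Lb.r r420 (@Lb.r r1317 (@Lb.d (nat_lit 324) (nat_lit 132) (nat_lit 408) (@Lb.fp (nat_lit 9) t163)))))))))))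
noncomputable def l24104 : Lb := (@Lb.d (nat_lit 662) (nat_lit 581) (nat_lit 24) (@Lb.r r1435 (@Lb.r r2458 (@Lb.r r597 (@Lb.g g7 (@Lb.g g8 (@Lb.d (nat_lit 9) (nat_lit 16) (nat_lit 68) (@Lb.fm (nat_lit 3) t4673))))))))
noncomputable def l24105 : Lb := (@Lb.d (nat_lit 134) (nat_lit 256) (nat_lit 132) (@Lb.g g8 (@Lb.g g9 (@Lb.g g10 (@Lb.g g11 (@Lb.r r683 (@Lb.r r618 (@Lb.r r537 (@Lb.r r536 (@Lb.d (nat_lit 74) (nat_lit 169) (nat_lit 129) (@Lb.fp (nat_lit 9) t218)))))))))))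
noncomputable def l24106 : Lb := (@Lb.d (nat_lit 86) (nat_lit 281) (nat_lit 73) (@Lb.r r614 (@Lb.r r660 (@Lb.r r345 (@Lb.g g7 (@Lb.g g6 (@Lb.g g5 (@Lb.d (nat_lit 16) (nat_lit 1) (nat_lit 128) (@Lb.t (@Lb.fp (nat_lit 9) t98))))))))))
noncomputable def l24107 : Lb := (@Lb.d (nat_lit 8) (nat_lit 258) (nat_lit 0) (@Lb.g g9 (@Lb.r r2343 (@Lb.r r1096 (@Lb.r r2646 (@Lb.r r409 (@Lb.d (nat_lit 282) (nat_lit 74) (nat_lit 153) (@Lb.t (@Lb.fm (nat_lit 3) t450)))))))))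
noncomputable def l24108 : Lb := (@Lb.d (nat_lit 134) (nat_lit 536) (nat_lit 42) (@Lb.r r134 (@Lb.r r539 (@Lb.r r532 (@Lb.r r281 (@Lb.g g7 (@Lb.g g5 (@Lb.d (nat_lit 64) (nat_lit 1) (nat_lit 64) (@Lb.fm (nat_lit 3) t546)))))))))
noncomputable def l24109 : Lb := (@Lb.r r21 (@Lb.d (nat_lit 130) (nat_lit 520) (nat_lit 41) (@Lb.g g8 (@Lb.g g6 (@Lb.r r661 (@Lb.r r535 (@Lb.r r296 (@Lb.d (nat_lit 133) (nat_lit 34) (nat_lit 72) (@Lb.fp (nat_lit 3) t242)))))))))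
noncomputable def l24110 : Lb := (@Lb.d (nat_lit 0) (nat_lit 256) (nat_lit 73) (@Lb.g g10 (@Lb.g g11 (@Lb.r r2691 (@Lb.r r2658 (@Lb.r r24 (@Lb.r r101 (@Lb.d (nat_lit 134) (nat_lit 16) (nat_lit 421) (@Lb.fp (nat_lit 3) t494)))))))))
noncomputable def l24111 : Lb := (@Lb.d (nat_lit 128) (nat_lit 256) (nat_lit 64) (@Lb.g g11 (@Lb.r r134 (@Lb.r r264 (@Lb.r r599 (@Lb.r r289 (@Lb.d (nat_lit 26) (nat_lit 74) (nat_lit 2) (@Lb.t (@Lb.fp (nat_lit 3) t51)))))))))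
noncomputable def l24112 : Lb := (@Lb.d (nat_lit 261) (nat_lit 257) (nat_lit 0) (@Lb.r r2311 (@Lb.g g4 (@Lb.t (@Lb.fm (nat_lit 3) t3367)))))
noncomputable def l24113 : Lb := (@Lb.d (nat_lit 5) (nat_lit 580) (nat_lit 257) (@Lb.r r68 (@Lb.r r2375 (@Lb.r r602 (@Lb.r r584 (@Lb.g g5 (@Lb.d (nat_lit 0) (nat_lit 129) (nat_lit 0) (@Lb.t (@Lb.fp (nat_lit 3) t1470)))))))))
noncomputable def l24114 : Lb := (@Lb.d (nat_lit 8) (nat_lit 514) (nat_lit 130) (@Lb.g g9 (@Lb.g g10 (@Lb.g g11 (@Lb.r r1447 (@Lb.r r2644 (@Lb.r r1706 (@Lb.r r1625 (@Lb.d (nat_lit 361) (nat_lit 102) (nat_lit 514) (@Lb.t (@Lb.fp (nat_lit 9) t1231)))))))))))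
noncomputable def l24115 : Lb := (@Lb.r r263 (@Lb.d (nat_lit 68) (nat_lit 2) (nat_lit 2) (@Lb.g g8 (@Lb.g g9 (@Lb.g g10 (@Lb.r r1451 (@Lb.r r341 (@Lb.r r1194 (@Lb.r r1192 (@Lb.d (nat_lit 38) (nat_lit 134) (nat_lit 602) (@Lb.t (@Lb.fm (nat_lit 9) t381))))))))))))
noncomputable def l24116 : Lb := (@Lb.r r81 (@Lb.r r323 (@Lb.d (nat_lit 2) (nat_lit 0) (nat_lit 33) (@Lb.g g8 (@Lb.g g6 (@Lb.r r2331 (@Lb.r r37 (@Lb.d (nat_lit 33) (nat_lit 68) (nat_lit 33) (@Lb.fm (nat_lit 3) t3693)))))))))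
noncomputable def l24117 : Lb := (@Lb.d (nat_lit 34) (nat_lit 512) (nat_lit 128) (@Lb.g g8 (@Lb.g g11 (@Lb.r r358 (@Lb.r r387 (@Lb.r r1317 (@Lb.r r1556 (@Lb.d (nat_lit 646) (nat_lit 98) (nat_lit 105) (@Lb.fp (nat_lit 3) t1558)))))))))
noncomputable def l24118 : Lb := (@Lb.d (nat_lit 2) (nat_lit 265) (nat_lit 129) (@Lb.g g8 (@Lb.g g9 (@Lb.g g10 (@Lb.g g11 (@Lb.r r1299 (@Lb.r r2705 (@Lb.r r2646 (@Lb.r r1416 (@Lb.d (nat_lit 90) (nat_lit 1) (nat_lit 618) (@Lb.fm (nat_lit 9) t4455)))))))))))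
noncomputable def l24119 : Lb := (@Lb.r r82 (@Lb.d (nat_lit 0) (nat_lit 272) (nat_lit 128) (@Lb.g g9 (@Lb.g g11 (@Lb.r r555 (@Lb.r r1634 (@Lb.r r2581 (@Lb.r r36 (@Lb.d (nat_lit 68) (nat_lit 161) (nat_lit 128) (@Lb.fp (nat_lit 3) t3213))))))))))
noncomputable def l24120 : Lb := (@Lb.d (nat_lit 642) (nat_lit 81) (nat_lit 341) (@Lb.r r101 (@Lb.r r579 (@Lb.g g7 (@Lb.g g10 (@Lb.d (nat_lit 0) (nat_lit 0) (nat_lit 148) (@Lb.fp (nat_lit 3) t4259)))))))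
noncomputable def l24121 : Lb := (@Lb.d (nat_lit 298) (nat_lit 393) (nat_lit 86) (@Lb.r r597 (@Lb.r r279 (@Lb.r r584 (@Lb.r r326 (@Lb.g g7 (@Lb.g g6 (@Lb.g g5 (@Lb.d (nat_lit 4) (nat_lit 1) (nat_lit 65) (@Lb.t (@Lb.fm (nat_lit 9) t504)))))))))))
noncomputable def l24122 : Lb := (@Lb.d (nat_lit 642) (nat_lit 593) (nat_lit 410) (@Lb.r r101 (@Lb.r r323 (@Lb.g g10 (@Lb.d (nat_lit 0) (nat_lit 0) (nat_lit 22) (@Lb.r r387 (@Lb.t (@Lb.fm (nat_lit 3) t3225))))))))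
noncomputable def l24123 : Lb := (@Lb.d (nat_lit 8) (nat_lit 258) (nat_lit 2) (@Lb.g g9 (@Lb.g g10 (@Lb.g g7 (@Lb.r r386 (@Lb.r r24 (@Lb.d (nat_lit 617) (nat_lit 130) (nat_lit 537) (@Lb.t (@Lb.fp (nat_lit 9) t698)))))))))
noncomputable def l24124 : Lb := (@Lb.r r323 (@Lb.d (nat_lit 161) (nat_lit 258) (nat_lit 33) (@Lb.g g8 (@Lb.g g9 (@Lb.g g6 (@Lb.r r407 (@Lb.r r97 (@Lb.r r516 (@Lb.d (nat_lit 137) (nat_lit 137) (nat_lit 128) (@Lb.t (@Lb.fm (nat_lit 9) t467)))))))))))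
noncomputable def l24125 : Lb := (@Lb.r r82 (@Lb.d (nat_lit 134) (nat_lit 529) (nat_lit 128) (@Lb.g g8 (@Lb.g g9 (@Lb.g g11 (@Lb.r r275 (@Lb.r r1633 (@Lb.r r1622 (@Lb.r r2440 (@Lb.d (nat_lit 340) (nat_lit 1) (nat_lit 90) (@Lb.t (@Lb.fm (nat_lit 9) t1000))))))))))))
noncomputable def l24126 : Lb := (@Lb.r r82 (@Lb.d (nat_lit 161) (nat_lit 16) (nat_lit 128) (@Lb.g g8 (@Lb.g g9 (@Lb.g g11 (@Lb.r r547 (@Lb.r r2630 (@Lb.r r153 (@Lb.r r1432 (@Lb.d (nat_lit 409) (nat_lit 90) (nat_lit 362) (@Lb.t (@Lb.fm (nat_lit 9) t2408))))))))))))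
noncomputable def l24127 : Lb := (@Lb.r r1114 (@Lb.r r2088 (@Lb.r r1065 (@Lb.d (nat_lit 516) (nat_lit 258) (nat_lit 0) (@Lb.fp (nat_lit 1) t4674)))))
noncomputable def l24128 : Lb := (@Lb.d (nat_lit 264) (nat_lit 641) (nat_lit 64) (@Lb.r r1284 (@Lb.r r602 (@Lb.r r2587 (@Lb.r r1297 (@Lb.g g7 (@Lb.g g4 (@Lb.d (nat_lit 6) (nat_lit 0) (nat_lit 64) (@Lb.fp (nat_lit 3) t4675)))))))))
noncomputable def l24129 : Lb := (@Lb.d (nat_lit 266) (nat_lit 578) (nat_lit 16) (@Lb.r r37 (@Lb.r r88 (@Lb.r r1355 (@Lb.g g10 (@Lb.d (nat_lit 0) (nat_lit 4) (nat_lit 2) (@Lb.r r387 (@Lb.r r145 (@Lb.t (@Lb.fp (nat_lit 3) t4676))))))))))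
noncomputable def l24130 : Lb := (@Lb.r r323 (@Lb.d (nat_lit 0) (nat_lit 0) (nat_lit 1) (@Lb.g g6 (@Lb.r r2659 (@Lb.d (nat_lit 0) (nat_lit 68) (nat_lit 86) (@Lb.t (@Lb.fp (nat_lit 3) t591)))))))
noncomputable def l24131 : Lb := (@Lb.d (nat_lit 0) (nat_lit 138) (nat_lit 98) (@Lb.r r402 (@Lb.r r579 (@Lb.g g11 (@Lb.g g6 (@Lb.fp (nat_lit 3) t71))))))
noncomputable def l24132 : Lb := (@Lb.d (nat_lit 0) (nat_lit 512) (nat_lit 130) (@Lb.g g10 (@Lb.g g11 (@Lb.r r642 (@Lb.r r387 (@Lb.d (nat_lit 0) (nat_lit 80) (nat_lit 325) (@Lb.fp (nat_lit 3) t210)))))))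
noncomputable def l24133 : Lb := (@Lb.r r90 (@Lb.d (nat_lit 34) (nat_lit 258) (nat_lit 128) (@Lb.g g8 (@Lb.g g9 (@Lb.g g11 (@Lb.r r1371 (@Lb.r r2646 (@Lb.r r2212 (@Lb.d (nat_lit 554) (nat_lit 162) (nat_lit 417) (@Lb.t (@Lb.fm (nat_lit 9) t535)))))))))))
noncomputable def l24134 : Lb := (@Lb.d (nat_lit 2) (nat_lit 0) (nat_lit 2) (@Lb.g g8 (@Lb.g g10 (@Lb.g g11 (@Lb.r r1092 (@Lb.r r586 (@Lb.r r1619 (@Lb.r r2337 (@Lb.d (nat_lit 584) (nat_lit 32) (nat_lit 512) (@Lb.t (@Lb.fm (nat_lit 9) t3206)))))))))))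
noncomputable def l24135 : Lb := (@Lb.d (nat_lit 4) (nat_lit 512) (nat_lit 130) (@Lb.g g8 (@Lb.g g9 (@Lb.g g10 (@Lb.g g11 (@Lb.r r427 (@Lb.r r424 (@Lb.r r106 (@Lb.r r97 (@Lb.d (nat_lit 2) (nat_lit 90) (nat_lit 265) (@Lb.fp (nat_lit 9) t51)))))))))))
noncomputable def l24136 : Lb := (@Lb.d (nat_lit 261) (nat_lit 1) (nat_lit 0) (@Lb.r r2311 (@Lb.g g7 (@Lb.g g4 (@Lb.fm (nat_lit 3) t3367)))))
noncomputable def l24137 : Lb := (@Lb.d (nat_lit 0) (nat_lit 32) (nat_lit 145) (@Lb.g g8 (@Lb.g g10 (@Lb.g g11 (@Lb.r r149 (@Lb.r r340 (@Lb.r r2587 (@Lb.d (nat_lit 106) (nat_lit 66) (nat_lit 273) (@Lb.t (@Lb.fp (nat_lit 9) t185))))))))))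
noncomputable def l24138 : Lb := (@Lb.d (nat_lit 0) (nat_lit 288) (nat_lit 145) (@Lb.g g8 (@Lb.g g10 (@Lb.g g11 (@Lb.r r149 (@Lb.r r340 (@Lb.r r2587 (@Lb.d (nat_lit 105) (nat_lit 66) (nat_lit 273) (@Lb.t (@Lb.fp (nat_lit 9) t2689))))))))))
noncomputable def l24139 : Lb := (@Lb.d (nat_lit 8) (nat_lit 522) (nat_lit 129) (@Lb.g g9 (@Lb.g g10 (@Lb.g g11 (@Lb.r r1300 (@Lb.r r1691 (@Lb.r r2402 (@Lb.r r2393 (@Lb.d (nat_lit 545) (nat_lit 144) (nat_lit 389) (@Lb.t (@Lb.fp (nat_lit 9) t1239)))))))))))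
noncomputable def l24140 : Lb := (@Lb.r r1427 (@Lb.r r101 (@Lb.d (nat_lit 293) (nat_lit 325) (nat_lit 0) (@Lb.fm (nat_lit 1) t636))))
noncomputable def l24141 : Lb := (@Lb.d (nat_lit 8) (nat_lit 521) (nat_lit 129) (@Lb.g g9 (@Lb.g g10 (@Lb.g g11 (@Lb.r r614 (@Lb.r r596 (@Lb.r r343 (@Lb.r r553 (@Lb.d (nat_lit 73) (nat_lit 89) (nat_lit 22) (@Lb.t (@Lb.fp (nat_lit 9) t2032)))))))))))
noncomputable def l24142 : Lb := (@Lb.r r273 (@Lb.d (nat_lit 0) (nat_lit 264) (nat_lit 521) (@Lb.g g10 (@Lb.g g7 (@Lb.r r2641 (@Lb.r r98 (@Lb.d (nat_lit 5) (nat_lit 138) (nat_lit 322) (@Lb.fp (nat_lit 3) t4677))))))))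
noncomputable def l24143 : Lb := (@Lb.r r82 (@Lb.r r275 (@Lb.d (nat_lit 2) (nat_lit 642) (nat_lit 0) (@Lb.g g8 (@Lb.g g5 (@Lb.r r579 (@Lb.r r2458 (@Lb.r r2436 (@Lb.d (nat_lit 100) (nat_lit 16) (nat_lit 538) (@Lb.fp (nat_lit 3) t4678))))))))))
noncomputable def l24144 : Lb := (@Lb.d (nat_lit 390) (nat_lit 662) (nat_lit 537) (@Lb.r r2325 (@Lb.r r2390 (@Lb.r r2731 (@Lb.g g6 (@Lb.g g5 (@Lb.g g4 (@Lb.d (nat_lit 1) (nat_lit 0) (nat_lit 1) (@Lb.t (@Lb.fm (nat_lit 9) t578))))))))))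
noncomputable def l24145 : Lb := (@Lb.r r283 (@Lb.d (nat_lit 130) (nat_lit 290) (nat_lit 2) (@Lb.g g8 (@Lb.g g9 (@Lb.g g10 (@Lb.r r2475 (@Lb.r r1702 (@Lb.r r2388 (@Lb.r r601 (@Lb.d (nat_lit 421) (nat_lit 20) (nat_lit 90) (@Lb.t (@Lb.fp (nat_lit 9) t4679))))))))))))
noncomputable def l24146 : Lb := (@Lb.d (nat_lit 681) (nat_lit 74) (nat_lit 532) (@Lb.r r2632 (@Lb.r r2649 (@Lb.r r2635 (@Lb.g g7 (@Lb.g g10 (@Lb.g g4 (@Lb.d (nat_lit 1) (nat_lit 8) (nat_lit 65) (@Lb.r r25 (@Lb.t (@Lb.fm (nat_lit 9) t825)))))))))))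
noncomputable def l24147 : Lb := (@Lb.d (nat_lit 9) (nat_lit 38) (nat_lit 64) (@Lb.g g8 (@Lb.g g9 (@Lb.g g10 (@Lb.g g11 (@Lb.r r1194 (@Lb.r r424 (@Lb.r r279 (@Lb.r r1065 (@Lb.r r2084 (@Lb.d (nat_lit 258) (nat_lit 96) (nat_lit 10) (@Lb.fm (nat_lit 9) t125))))))))))))
noncomputable def l24148 : Lb := (@Lb.d (nat_lit 137) (nat_lit 130) (nat_lit 384) (@Lb.r r24 (@Lb.r r2145 (@Lb.r r402 (@Lb.r r1607 (@Lb.g g7 (@Lb.g g4 (@Lb.d (nat_lit 1) (nat_lit 0) (nat_lit 64) (@Lb.fm (nat_lit 3) t803)))))))))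
noncomputable def l24149 : Lb := (@Lb.d (nat_lit 1) (nat_lit 256) (nat_lit 66) (@Lb.g g8 (@Lb.g g9 (@Lb.g g10 (@Lb.g g11 (@Lb.r r1303 (@Lb.r r2713 (@Lb.r r2650 (@Lb.r r2628 (@Lb.d (nat_lit 410) (nat_lit 1) (nat_lit 425) (@Lb.fp (nat_lit 9) t441)))))))))))
noncomputable def l24150 : Lb := (@Lb.d (nat_lit 21) (nat_lit 329) (nat_lit 21) (@Lb.r r101 (@Lb.r r386 (@Lb.g g11 (@Lb.g g6 (@Lb.d (nat_lit 0) (nat_lit 32) (nat_lit 390) (@Lb.fp (nat_lit 3) t4680)))))))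
noncomputable def l24151 : Lb := (@Lb.d (nat_lit 577) (nat_lit 266) (nat_lit 420) (@Lb.r r154 (@Lb.r r660 (@Lb.r r2649 (@Lb.r r1571 (@Lb.g g7 (@Lb.g g5 (@Lb.g g4 (@Lb.d (nat_lit 6) (nat_lit 1) (nat_lit 64) (@Lb.t (@Lb.fp (nat_lit 9) t4681)))))))))))
noncomputable def l24152 : Lb := (@Lb.d (nat_lit 346) (nat_lit 38) (nat_lit 169) (@Lb.r r82 (@Lb.r r531 (@Lb.r r277 (@Lb.g g7 (@Lb.g g5 (@Lb.g g4 (@Lb.d (nat_lit 1) (nat_lit 17) (nat_lit 128) (@Lb.r r98 (@Lb.t (@Lb.fm (nat_lit 9) t2223)))))))))))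
noncomputable def l24153 : Lb := (@Lb.d (nat_lit 0) (nat_lit 32) (nat_lit 64) (@Lb.g g11 (@Lb.r r1556 (@Lb.r r345 (@Lb.r r2727 (@Lb.r r2178 (@Lb.d (nat_lit 421) (nat_lit 26) (nat_lit 170) (@Lb.t (@Lb.fp (nat_lit 3) t1282)))))))))
noncomputable def l24154 : Lb := (@Lb.d (nat_lit 406) (nat_lit 358) (nat_lit 650) (@Lb.r r346 (@Lb.r r328 (@Lb.r r2661 (@Lb.r r1303 (@Lb.g g7 (@Lb.g g6 (@Lb.g g5 (@Lb.d (nat_lit 0) (nat_lit 6) (nat_lit 65) (@Lb.t (@Lb.fp (nat_lit 9) t4682)))))))))))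
noncomputable def l24155 : Lb := (@Lb.d (nat_lit 385) (nat_lit 128) (nat_lit 394) (@Lb.r r1321 (@Lb.r r1444 (@Lb.r r134 (@Lb.r r2707 (@Lb.g g11 (@Lb.g g9 (@Lb.fp (nat_lit 3) t2926))))))))
noncomputable def l24156 : Lb := (@Lb.d (nat_lit 5) (nat_lit 422) (nat_lit 64) (@Lb.r r24 (@Lb.r r2657 (@Lb.g g7 (@Lb.g g10 (@Lb.g g5 (@Lb.g g4 (@Lb.d (nat_lit 8) (nat_lit 0) (nat_lit 164) (@Lb.fm (nat_lit 9) t51)))))))))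
noncomputable def l24157 : Lb := (@Lb.d (nat_lit 513) (nat_lit 256) (nat_lit 256) (@Lb.r r24 (@Lb.r r2341 (@Lb.r r323 (@Lb.r r594 (@Lb.g g6 (@Lb.g g5 (@Lb.d (nat_lit 0) (nat_lit 0) (nat_lit 1) (@Lb.r r387 (@Lb.fm (nat_lit 3) t4683))))))))))
noncomputable def l24158 : Lb := (@Lb.d (nat_lit 0) (nat_lit 520) (nat_lit 2) (@Lb.g g10 (@Lb.g g7 (@Lb.r r101 (@Lb.r r24 (@Lb.d (nat_lit 10) (nat_lit 2) (nat_lit 2) (@Lb.fp (nat_lit 3) t145)))))))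
noncomputable def l24159 : Lb := (@Lb.d (nat_lit 33) (nat_lit 512) (nat_lit 278) (@Lb.r r24 (@Lb.r r2470 (@Lb.r r421 (@Lb.r r339 (@Lb.g g7 (@Lb.g g6 (@Lb.g g5 (@Lb.d (nat_lit 0) (nat_lit 0) (nat_lit 65) (@Lb.t (@Lb.fm (nat_lit 9) t399)))))))))))
noncomputable def l24160 : Lb := (@Lb.d (nat_lit 0) (nat_lit 514) (nat_lit 66) (@Lb.g g9 (@Lb.g g10 (@Lb.g g7 (@Lb.r r424 (@Lb.r r106 (@Lb.r r25 (@Lb.d (nat_lit 106) (nat_lit 161) (nat_lit 322) (@Lb.t (@Lb.fm (nat_lit 9) t988))))))))))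
noncomputable def l24161 : Lb := (@Lb.d (nat_lit 329) (nat_lit 273) (nat_lit 384) (@Lb.r r1321 (@Lb.r r1444 (@Lb.r r2214 (@Lb.r r611 (@Lb.g g6 (@Lb.g g5 (@Lb.d (nat_lit 0) (nat_lit 10) (nat_lit 0) (@Lb.r r387 (@Lb.fp (nat_lit 3) t2333))))))))))
noncomputable def l24162 : Lb := (@Lb.d (nat_lit 2) (nat_lit 0) (nat_lit 2) (@Lb.g g8 (@Lb.g g9 (@Lb.g g10 (@Lb.g g11 (@Lb.r r2731 (@Lb.r r1642 (@Lb.r r1561 (@Lb.d (nat_lit 585) (nat_lit 105) (nat_lit 417) (@Lb.fm (nat_lit 9) t324))))))))))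
noncomputable def l24163 : Lb := (@Lb.r r263 (@Lb.d (nat_lit 642) (nat_lit 34) (nat_lit 2) (@Lb.g g4 (@Lb.g g9 (@Lb.g g10 (@Lb.r r2470 (@Lb.r r595 (@Lb.r r1441 (@Lb.d (nat_lit 389) (nat_lit 100) (nat_lit 602) (@Lb.t (@Lb.fm (nat_lit 9) t2991)))))))))))
noncomputable def l24164 : Lb := (@Lb.d (nat_lit 0) (nat_lit 96) (nat_lit 325) (@Lb.r r1284 (@Lb.r r322 (@Lb.r r659 (@Lb.r r578 (@Lb.g g5 (@Lb.d (nat_lit 0) (nat_lit 129) (nat_lit 0) (@Lb.t (@Lb.fp (nat_lit 3) t2060)))))))))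
noncomputable def l24165 : Lb := (@Lb.d (nat_lit 101) (nat_lit 358) (nat_lit 26) (@Lb.r r404 (@Lb.r r150 (@Lb.r r1385 (@Lb.r r1431 (@Lb.g g7 (@Lb.g g5 (@Lb.g g4 (@Lb.d (nat_lit 24) (nat_lit 1) (nat_lit 64) (@Lb.t (@Lb.fp (nat_lit 9) t4684)))))))))))
noncomputable def l24166 : Lb := (@Lb.d (nat_lit 2) (nat_lit 512) (nat_lit 132) (@Lb.g g8 (@Lb.g g7 (@Lb.r r402 (@Lb.r r2073 (@Lb.d (nat_lit 550) (nat_lit 72) (nat_lit 97) (@Lb.fm (nat_lit 3) t3055)))))))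
noncomputable def l24167 : Lb := (@Lb.d (nat_lit 34) (nat_lit 0) (nat_lit 128) (@Lb.g g8 (@Lb.g g11 (@Lb.r r353 (@Lb.r r2707 (@Lb.r r582 (@Lb.r r2200 (@Lb.d (nat_lit 72) (nat_lit 138) (nat_lit 169) (@Lb.fp (nat_lit 3) t4685)))))))))
noncomputable def l24168 : Lb := (@Lb.d (nat_lit 2) (nat_lit 2) (nat_lit 2) (@Lb.g g8 (@Lb.g g9 (@Lb.g g10 (@Lb.g g11 (@Lb.r r2723 (@Lb.r r1634 (@Lb.r r1553 (@Lb.d (nat_lit 2) (nat_lit 105) (nat_lit 417) (@Lb.fm (nat_lit 9) t324))))))))))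
noncomputable def l24169 : Lb := (@Lb.r r82 (@Lb.d (nat_lit 0) (nat_lit 528) (nat_lit 0) (@Lb.g g8 (@Lb.g g9 (@Lb.g g11 (@Lb.r r1315 (@Lb.r r386 (@Lb.r r2405 (@Lb.r r2584 (@Lb.d (nat_lit 361) (nat_lit 2) (nat_lit 74) (@Lb.t (@Lb.fp (nat_lit 9) t4686))))))))))))
noncomputable def l24170 : Lb := (@Lb.d (nat_lit 2) (nat_lit 393) (nat_lit 0) (@Lb.g g8 (@Lb.g g5 (@Lb.g g11 (@Lb.r r596 (@Lb.r r2375 (@Lb.r r2178 (@Lb.r r1540 (@Lb.d (nat_lit 2) (nat_lit 106) (nat_lit 642) (@Lb.t (@Lb.fm (nat_lit 9) t296)))))))))))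
noncomputable def l24171 : Lb := (@Lb.r r323 (@Lb.d (nat_lit 8) (nat_lit 514) (nat_lit 2) (@Lb.g g9 (@Lb.g g10 (@Lb.r r102 (@Lb.r r404 (@Lb.r r683 (@Lb.r r673 (@Lb.d (nat_lit 10) (nat_lit 148) (nat_lit 8) (@Lb.fm (nat_lit 3) t51))))))))))
noncomputable def l24172 : Lb := (@Lb.d (nat_lit 4) (nat_lit 516) (nat_lit 0) (@Lb.g g8 (@Lb.g g9 (@Lb.g g10 (@Lb.r r675 (@Lb.r r2658 (@Lb.r r1049 (@Lb.r r24 (@Lb.d (nat_lit 617) (nat_lit 2) (nat_lit 9) (@Lb.t (@Lb.fm (nat_lit 9) t979)))))))))))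
noncomputable def l24173 : Lb := (@Lb.d (nat_lit 36) (nat_lit 2) (nat_lit 0) (@Lb.g g8 (@Lb.g g9 (@Lb.r r2411 (@Lb.r r1385 (@Lb.r r150 (@Lb.r r1124 (@Lb.d (nat_lit 282) (nat_lit 66) (nat_lit 650) (@Lb.fm (nat_lit 3) t51)))))))))
noncomputable def l24174 : Lb := (@Lb.d (nat_lit 608) (nat_lit 512) (nat_lit 578) (@Lb.r r1284 (@Lb.r r2714 (@Lb.r r1381 (@Lb.r r2315 (@Lb.g g7 (@Lb.g g4 (@Lb.d (nat_lit 1) (nat_lit 0) (nat_lit 64) (@Lb.fm (nat_lit 3) t1082)))))))))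
noncomputable def l24175 : Lb := (@Lb.d (nat_lit 10) (nat_lit 1) (nat_lit 128) (@Lb.g g8 (@Lb.g g9 (@Lb.g g11 (@Lb.r r1707 (@Lb.r r162 (@Lb.r r145 (@Lb.r r1608 (@Lb.d (nat_lit 97) (nat_lit 4) (nat_lit 664) (@Lb.t (@Lb.fp (nat_lit 9) t1082)))))))))))
noncomputable def l24176 : Lb := (@Lb.d (nat_lit 32) (nat_lit 256) (nat_lit 89) (@Lb.g g9 (@Lb.g g10 (@Lb.g g11 (@Lb.r r2471 (@Lb.r r2341 (@Lb.r r24 (@Lb.d (nat_lit 0) (nat_lit 138) (nat_lit 1) (@Lb.t (@Lb.fm (nat_lit 9) t2946))))))))))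
noncomputable def l24177 : Lb := (@Lb.d (nat_lit 32) (nat_lit 512) (nat_lit 146) (@Lb.g g9 (@Lb.g g10 (@Lb.g g11 (@Lb.r r2471 (@Lb.r r2341 (@Lb.r r24 (@Lb.d (nat_lit 0) (nat_lit 128) (nat_lit 2) (@Lb.t (@Lb.fm (nat_lit 9) t2946))))))))))
noncomputable def l24178 : Lb := (@Lb.d (nat_lit 2) (nat_lit 258) (nat_lit 130) (@Lb.g g8 (@Lb.g g9 (@Lb.g g10 (@Lb.g g11 (@Lb.r r586 (@Lb.r r40 (@Lb.r r1433 (@Lb.r r2343 (@Lb.r r1540 (@Lb.d (nat_lit 89) (nat_lit 65) (nat_lit 342) (@Lb.fm (nat_lit 9) t1025))))))))))))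
noncomputable def l24179 : Lb := (@Lb.d (nat_lit 0) (nat_lit 0) (nat_lit 130) (@Lb.g g8 (@Lb.g g9 (@Lb.g g10 (@Lb.g g11 (@Lb.r r586 (@Lb.r r324 (@Lb.r r539 (@Lb.r r1305 (@Lb.r r2068 (@Lb.d (nat_lit 41) (nat_lit 65) (nat_lit 34) (@Lb.fm (nat_lit 9) t284))))))))))))
noncomputable def l24180 : Lb := (@Lb.d (nat_lit 168) (nat_lit 529) (nat_lit 1) (@Lb.g g8 (@Lb.g g9 (@Lb.g g6 (@Lb.g g11 (@Lb.r r529 (@Lb.r r407 (@Lb.r r2648 (@Lb.d (nat_lit 614) (nat_lit 102) (nat_lit 408) (@Lb.fp (nat_lit 9) t3617))))))))))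
noncomputable def l24181 : Lb := (@Lb.d (nat_lit 32) (nat_lit 0) (nat_lit 146) (@Lb.g g9 (@Lb.g g10 (@Lb.g g11 (@Lb.r r2471 (@Lb.r r2341 (@Lb.r r24 (@Lb.d (nat_lit 0) (nat_lit 138) (nat_lit 1) (@Lb.t (@Lb.fm (nat_lit 9) t2946))))))))))
noncomputable def l24182 : Lb := (@Lb.d (nat_lit 162) (nat_lit 290) (nat_lit 66) (@Lb.r r81 (@Lb.r r682 (@Lb.r r599 (@Lb.g g7 (@Lb.g g6 (@Lb.g g5 (@Lb.g g4 (@Lb.d (nat_lit 1) (nat_lit 8) (nat_lit 66) (@Lb.fp (nat_lit 9) t68))))))))))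
noncomputable def l24183 : Lb := (@Lb.d (nat_lit 0) (nat_lit 512) (nat_lit 128) (@Lb.g g10 (@Lb.g g11 (@Lb.r r387 (@Lb.r r24 (@Lb.r r101 (@Lb.d (nat_lit 0) (nat_lit 154) (nat_lit 388) (@Lb.fm (nat_lit 3) t1174))))))))
noncomputable def l24184 : Lb := (@Lb.d (nat_lit 9) (nat_lit 389) (nat_lit 1) (@Lb.fp (nat_lit 1) t45))
noncomputable def l24185 : Lb := (@Lb.d (nat_lit 577) (nat_lit 5) (nat_lit 578) (@Lb.r r24 (@Lb.r r101 (@Lb.r r2659 (@Lb.g g6 (@Lb.d (nat_lit 0) (nat_lit 4) (nat_lit 17) (@Lb.r r387 (@Lb.t (@Lb.fp (nat_lit 3) t809)))))))))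
noncomputable def l24186 : Lb := (@Lb.d (nat_lit 33) (nat_lit 4) (nat_lit 128) (@Lb.g g8 (@Lb.g g9 (@Lb.g g10 (@Lb.g g11 (@Lb.r r343 (@Lb.r r1366 (@Lb.r r97 (@Lb.r r2072 (@Lb.d (nat_lit 666) (nat_lit 137) (nat_lit 73) (@Lb.fp (nat_lit 9) t4687)))))))))))
noncomputable def l24187 : Lb := (@Lb.d (nat_lit 82) (nat_lit 4) (nat_lit 74) (@Lb.g g8 (@Lb.g g9 (@Lb.g g10 (@Lb.g g11 (@Lb.r r2475 (@Lb.r r618 (@Lb.r r2329 (@Lb.r r2308 (@Lb.d (nat_lit 585) (nat_lit 169) (nat_lit 105) (@Lb.fp (nat_lit 9) t1111)))))))))))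
noncomputable def l24188 : Lb := (@Lb.r r21 (@Lb.d (nat_lit 146) (nat_lit 256) (nat_lit 128) (@Lb.g g8 (@Lb.g g10 (@Lb.g g11 (@Lb.r r387 (@Lb.r r132 (@Lb.r r2454 (@Lb.r r97 (@Lb.d (nat_lit 325) (nat_lit 161) (nat_lit 384) (@Lb.t (@Lb.fm (nat_lit 9) t4))))))))))))
noncomputable def l24189 : Lb := (@Lb.d (nat_lit 128) (nat_lit 516) (nat_lit 128) (@Lb.g g8 (@Lb.g g9 (@Lb.g g10 (@Lb.g g11 (@Lb.r r683 (@Lb.r r2410 (@Lb.r r537 (@Lb.r r516 (@Lb.d (nat_lit 137) (nat_lit 82) (nat_lit 150) (@Lb.fm (nat_lit 9) t4688)))))))))))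
noncomputable def l24190 : Lb := (@Lb.d (nat_lit 2) (nat_lit 545) (nat_lit 73) (@Lb.g g8 (@Lb.g g9 (@Lb.g g10 (@Lb.g g11 (@Lb.r r1634 (@Lb.r r552 (@Lb.r r617 (@Lb.r r2347 (@Lb.r r2084 (@Lb.d (nat_lit 129) (nat_lit 10) (nat_lit 345) (@Lb.fp (nat_lit 9) t98))))))))))))
noncomputable def l24191 : Lb := (@Lb.d (nat_lit 8) (nat_lit 514) (nat_lit 73) (@Lb.g g9 (@Lb.g g10 (@Lb.g g11 (@Lb.r r586 (@Lb.r r584 (@Lb.r r299 (@Lb.r r289 (@Lb.d (nat_lit 4) (nat_lit 136) (nat_lit 2) (@Lb.t (@Lb.fm (nat_lit 9) t51)))))))))))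
noncomputable def l24192 : Lb := (@Lb.d (nat_lit 8) (nat_lit 9) (nat_lit 0) (@Lb.g g9 (@Lb.g g7 (@Lb.r r24 (@Lb.d (nat_lit 9) (nat_lit 130) (nat_lit 2) (@Lb.fm (nat_lit 3) t253))))))
noncomputable def l24193 : Lb := (@Lb.d (nat_lit 8) (nat_lit 265) (nat_lit 0) (@Lb.g g9 (@Lb.g g7 (@Lb.r r24 (@Lb.d (nat_lit 0) (nat_lit 2) (nat_lit 2) (@Lb.fm (nat_lit 3) t40))))))
noncomputable def l24194 : Lb := (@Lb.d (nat_lit 0) (nat_lit 256) (nat_lit 137) (@Lb.g g5 (@Lb.g g10 (@Lb.g g11 (@Lb.r r1411 (@Lb.r r98 (@Lb.d (nat_lit 0) (nat_lit 16) (nat_lit 296) (@Lb.t (@Lb.fp (nat_lit 9) t334)))))))))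
noncomputable def l24195 : Lb := (@Lb.d (nat_lit 8) (nat_lit 521) (nat_lit 0) (@Lb.g g9 (@Lb.r r24 (@Lb.d (nat_lit 0) (nat_lit 2) (nat_lit 2) (@Lb.t (@Lb.fm (nat_lit 3) t40))))))
noncomputable def l24196 : Lb := (@Lb.d (nat_lit 0) (nat_lit 520) (nat_lit 130) (@Lb.g g10 (@Lb.g g11 (@Lb.r r387 (@Lb.r r24 (@Lb.r r101 (@Lb.d (nat_lit 26) (nat_lit 9) (nat_lit 68) (@Lb.fm (nat_lit 3) t1233))))))))
noncomputable def l24197 : Lb := (@Lb.r r82 (@Lb.d (nat_lit 41) (nat_lit 258) (nat_lit 0) (@Lb.g g8 (@Lb.g g9 (@Lb.g g11 (@Lb.r r547 (@Lb.r r582 (@Lb.r r153 (@Lb.r r408 (@Lb.d (nat_lit 89) (nat_lit 26) (nat_lit 74) (@Lb.t (@Lb.fm (nat_lit 9) t264))))))))))))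
noncomputable def l24198 : Lb := (@Lb.d (nat_lit 9) (nat_lit 521) (nat_lit 1) (@Lb.g g8 (@Lb.g g9 (@Lb.g g10 (@Lb.g g11 (@Lb.r r682 (@Lb.r r680 (@Lb.r r555 (@Lb.r r529 (@Lb.r r36 (@Lb.d (nat_lit 5) (nat_lit 32) (nat_lit 74) (@Lb.fm (nat_lit 9) t264))))))))))))
noncomputable def l24199 : Lb := (@Lb.d (nat_lit 0) (nat_lit 0) (nat_lit 136) (@Lb.g g11 (@Lb.r r24 (@Lb.r r101 (@Lb.d (nat_lit 0) (nat_lit 2) (nat_lit 138) (@Lb.t (@Lb.fp (nat_lit 3) t87)))))))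
noncomputable def l24200 : Lb := (@Lb.r r322 (@Lb.d (nat_lit 9) (nat_lit 545) (nat_lit 516) (@Lb.g g8 (@Lb.g g9 (@Lb.g g7 (@Lb.r r2466 (@Lb.r r2344 (@Lb.r r2457 (@Lb.d (nat_lit 406) (nat_lit 100) (nat_lit 281) (@Lb.t (@Lb.fp (nat_lit 9) t1234)))))))))))
noncomputable def l24201 : Lb := (@Lb.d (nat_lit 9) (nat_lit 9) (nat_lit 161) (@Lb.g g8 (@Lb.g g9 (@Lb.g g6 (@Lb.g g11 (@Lb.r r2659 (@Lb.r r1633 (@Lb.r r24 (@Lb.d (nat_lit 10) (nat_lit 154) (nat_lit 280) (@Lb.fp (nat_lit 9) t1762))))))))))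
noncomputable def l24202 : Lb := (@Lb.d (nat_lit 8) (nat_lit 514) (nat_lit 0) (@Lb.g g9 (@Lb.r r1428 (@Lb.r r2406 (@Lb.r r2129 (@Lb.d (nat_lit 4) (nat_lit 21) (nat_lit 610) (@Lb.t (@Lb.fp (nat_lit 3) t4689))))))))
noncomputable def l24203 : Lb := (@Lb.r r82 (@Lb.g g9 (@Lb.r r422 (@Lb.r r596 (@Lb.r r297 (@Lb.d (nat_lit 2) (nat_lit 130) (nat_lit 320) (@Lb.t (@Lb.fp (nat_lit 3) t2808))))))))
noncomputable def l24204 : Lb := (@Lb.d (nat_lit 2) (nat_lit 521) (nat_lit 1) (@Lb.g g8 (@Lb.g g9 (@Lb.g g10 (@Lb.r r1555 (@Lb.r r297 (@Lb.r r1384 (@Lb.r r2630 (@Lb.d (nat_lit 418) (nat_lit 10) (nat_lit 290) (@Lb.t (@Lb.fp (nat_lit 9) t2842)))))))))))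
noncomputable def l24205 : Lb := (@Lb.d (nat_lit 4) (nat_lit 257) (nat_lit 128) (@Lb.g g5 (@Lb.g g10 (@Lb.g g11 (@Lb.r r387 (@Lb.r r402 (@Lb.r r24 (@Lb.d (nat_lit 613) (nat_lit 6) (nat_lit 545) (@Lb.t (@Lb.fp (nat_lit 9) t1554))))))))))
noncomputable def l24206 : Lb := (@Lb.d (nat_lit 4) (nat_lit 1) (nat_lit 128) (@Lb.g g5 (@Lb.g g10 (@Lb.g g11 (@Lb.r r387 (@Lb.r r402 (@Lb.r r24 (@Lb.d (nat_lit 613) (nat_lit 8) (nat_lit 546) (@Lb.t (@Lb.fp (nat_lit 9) t1554))))))))))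
noncomputable def l24207 : Lb := (@Lb.d (nat_lit 2) (nat_lit 518) (nat_lit 65) (@Lb.g g8 (@Lb.g g9 (@Lb.g g10 (@Lb.g g11 (@Lb.r r1287 (@Lb.r r2713 (@Lb.r r2714 (@Lb.r r2564 (@Lb.d (nat_lit 401) (nat_lit 0) (nat_lit 386) (@Lb.fm (nat_lit 9) t3914)))))))))))
noncomputable def l24208 : Lb := (@Lb.d (nat_lit 0) (nat_lit 514) (nat_lit 73) (@Lb.g g8 (@Lb.g g9 (@Lb.g g10 (@Lb.g g11 (@Lb.r r610 (@Lb.r r579 (@Lb.r r2585 (@Lb.r r2564 (@Lb.d (nat_lit 322) (nat_lit 161) (nat_lit 266) (@Lb.fm (nat_lit 9) t4690)))))))))))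
noncomputable def l24209 : Lb := (@Lb.r r21 (@Lb.r r70 (@Lb.d (nat_lit 10) (nat_lit 0) (nat_lit 0) (@Lb.g g8 (@Lb.r r1301 (@Lb.r r2603 (@Lb.r r1674 (@Lb.r r2568 (@Lb.d (nat_lit 592) (nat_lit 0) (nat_lit 293) (@Lb.t (@Lb.fm (nat_lit 3) t647)))))))))))
noncomputable def l24210 : Lb := (@Lb.d (nat_lit 33) (nat_lit 258) (nat_lit 65) (@Lb.g g8 (@Lb.g g9 (@Lb.g g10 (@Lb.g g7 (@Lb.r r1169 (@Lb.r r356 (@Lb.r r2202 (@Lb.r r1156 (@Lb.d (nat_lit 521) (nat_lit 161) (nat_lit 610) (@Lb.fp (nat_lit 9) t4691)))))))))))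
noncomputable def l24211 : Lb := (@Lb.d (nat_lit 101) (nat_lit 613) (nat_lit 660) (@Lb.r r2452 (@Lb.r r2649 (@Lb.r r1555 (@Lb.g g10 (@Lb.g g5 (@Lb.g g4 (@Lb.d (nat_lit 82) (nat_lit 18) (nat_lit 2) (@Lb.r r403 (@Lb.t (@Lb.fp (nat_lit 9) t1674)))))))))))
noncomputable def l24212 : Lb := (@Lb.d (nat_lit 18) (nat_lit 144) (nat_lit 149) (@Lb.r r81 (@Lb.r r2406 (@Lb.r r81 (@Lb.r r1667 (@Lb.g g7 (@Lb.g g6 (@Lb.g g5 (@Lb.g g8 (@Lb.d (nat_lit 550) (nat_lit 9) (nat_lit 132) (@Lb.fp (nat_lit 9) t4692)))))))))))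
noncomputable def l24213 : Lb := (@Lb.d (nat_lit 681) (nat_lit 657) (nat_lit 321) (@Lb.r r1560 (@Lb.r r1307 (@Lb.g g6 (@Lb.g g9 (@Lb.g g4 (@Lb.d (nat_lit 70) (nat_lit 16) (nat_lit 34) (@Lb.t (@Lb.fp (nat_lit 9) t1537)))))))))
noncomputable def l24214 : Lb := (@Lb.d (nat_lit 1) (nat_lit 514) (nat_lit 2) (@Lb.g g8 (@Lb.g g9 (@Lb.g g10 (@Lb.r r515 (@Lb.r r145 (@Lb.r r356 (@Lb.r r154 (@Lb.r r132 (@Lb.d (nat_lit 2) (nat_lit 16) (nat_lit 10) (@Lb.t (@Lb.fm (nat_lit 9) t521))))))))))))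
noncomputable def l24215 : Lb := (@Lb.d (nat_lit 138) (nat_lit 272) (nat_lit 421) (@Lb.r r81 (@Lb.r r354 (@Lb.r r81 (@Lb.r r647 (@Lb.g g7 (@Lb.g g6 (@Lb.g g5 (@Lb.g g8 (@Lb.d (nat_lit 550) (nat_lit 4) (nat_lit 134) (@Lb.fp (nat_lit 9) t4692)))))))))))
noncomputable def l24216 : Lb := (@Lb.d (nat_lit 18) (nat_lit 656) (nat_lit 149) (@Lb.r r81 (@Lb.r r2406 (@Lb.r r81 (@Lb.r r1667 (@Lb.g g7 (@Lb.g g6 (@Lb.g g5 (@Lb.g g8 (@Lb.d (nat_lit 548) (nat_lit 9) (nat_lit 132) (@Lb.fp (nat_lit 9) t4693)))))))))))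
noncomputable def l24217 : Lb := (@Lb.d (nat_lit 345) (nat_lit 18) (nat_lit 618) (@Lb.r r1380 (@Lb.r r2209 (@Lb.r r427 (@Lb.g g10 (@Lb.g g5 (@Lb.g g4 (@Lb.d (nat_lit 65) (nat_lit 4) (nat_lit 34) (@Lb.r r403 (@Lb.t (@Lb.fp (nat_lit 9) t3990)))))))))))
noncomputable def l24218 : Lb := (@Lb.r r273 (@Lb.d (nat_lit 1) (nat_lit 544) (nat_lit 73) (@Lb.g g8 (@Lb.g g10 (@Lb.g g7 (@Lb.r r666 (@Lb.r r2661 (@Lb.r r2196 (@Lb.d (nat_lit 357) (nat_lit 169) (nat_lit 18) (@Lb.t (@Lb.fp (nat_lit 9) t4694)))))))))))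
noncomputable def l24219 : Lb := (@Lb.r r323 (@Lb.d (nat_lit 0) (nat_lit 34) (nat_lit 18) (@Lb.g g9 (@Lb.g g10 (@Lb.r r595 (@Lb.r r1321 (@Lb.r r8 (@Lb.d (nat_lit 133) (nat_lit 105) (nat_lit 400) (@Lb.fp (nat_lit 3) t646)))))))))
noncomputable def l24220 : Lb := (@Lb.d (nat_lit 2) (nat_lit 514) (nat_lit 130) (@Lb.g g8 (@Lb.g g9 (@Lb.g g10 (@Lb.g g11 (@Lb.r r2691 (@Lb.r r297 (@Lb.r r648 (@Lb.r r666 (@Lb.r r1156 (@Lb.d (nat_lit 645) (nat_lit 40) (nat_lit 73) (@Lb.fp (nat_lit 9) t259))))))))))))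
noncomputable def l24221 : Lb := (@Lb.r r24 (@Lb.d (nat_lit 1) (nat_lit 514) (nat_lit 0) (@Lb.fm (nat_lit 1) t2)))
noncomputable def l24222 : Lb := (@Lb.r r82 (@Lb.d (nat_lit 32) (nat_lit 258) (nat_lit 0) (@Lb.g g8 (@Lb.g g9 (@Lb.r r582 (@Lb.r r579 (@Lb.r r516 (@Lb.d (nat_lit 130) (nat_lit 18) (nat_lit 0) (@Lb.fp (nat_lit 3) t1185)))))))))
noncomputable def l24223 : Lb := (@Lb.r r21 (@Lb.d (nat_lit 2) (nat_lit 512) (nat_lit 66) (@Lb.g g8 (@Lb.g g10 (@Lb.g g7 (@Lb.r r386 (@Lb.r r149 (@Lb.r r72 (@Lb.d (nat_lit 17) (nat_lit 5) (nat_lit 9) (@Lb.t (@Lb.fp (nat_lit 9) t40)))))))))))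
noncomputable def l24224 : Lb := (@Lb.d (nat_lit 612) (nat_lit 293) (nat_lit 84) (@Lb.r r404 (@Lb.r r363 (@Lb.r r273 (@Lb.g g7 (@Lb.g g10 (@Lb.g g5 (@Lb.g g4 (@Lb.d (nat_lit 25) (nat_lit 0) (nat_lit 132) (@Lb.fm (nat_lit 9) t421))))))))))
noncomputable def l24225 : Lb := (@Lb.d (nat_lit 256) (nat_lit 256) (nat_lit 272) (@Lb.r r2120 (@Lb.r r2145 (@Lb.r r1414 (@Lb.g g11 (@Lb.t (@Lb.fm (nat_lit 3) t4695)))))))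
noncomputable def l24226 : Lb := (@Lb.d (nat_lit 2) (nat_lit 2) (nat_lit 73) (@Lb.g g8 (@Lb.g g9 (@Lb.g g10 (@Lb.g g11 (@Lb.r r2691 (@Lb.r r1634 (@Lb.r r1433 (@Lb.r r1432 (@Lb.d (nat_lit 602) (nat_lit 90) (nat_lit 102) (@Lb.fp (nat_lit 9) t4696)))))))))))
noncomputable def l24227 : Lb := (@Lb.d (nat_lit 8) (nat_lit 512) (nat_lit 74) (@Lb.g g8 (@Lb.g g10 (@Lb.g g11 (@Lb.r r1443 (@Lb.r r2085 (@Lb.r r2452 (@Lb.r r390 (@Lb.d (nat_lit 106) (nat_lit 70) (nat_lit 520) (@Lb.t (@Lb.fm (nat_lit 9) t2600)))))))))))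
noncomputable def l24228 : Lb := (@Lb.r r82 (@Lb.d (nat_lit 134) (nat_lit 34) (nat_lit 64) (@Lb.g g8 (@Lb.g g9 (@Lb.g g11 (@Lb.r r1450 (@Lb.r r2593 (@Lb.r r2692 (@Lb.r r1447 (@Lb.d (nat_lit 518) (nat_lit 73) (nat_lit 5) (@Lb.t (@Lb.fm (nat_lit 9) t1846))))))))))))
noncomputable def l24229 : Lb := (@Lb.r r21 (@Lb.d (nat_lit 129) (nat_lit 0) (nat_lit 73) (@Lb.g g8 (@Lb.g g10 (@Lb.g g11 (@Lb.r r1691 (@Lb.r r409 (@Lb.r r90 (@Lb.r r1348 (@Lb.d (nat_lit 521) (nat_lit 105) (nat_lit 274) (@Lb.t (@Lb.fp (nat_lit 9) t270))))))))))))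
noncomputable def l24230 : Lb := (@Lb.d (nat_lit 9) (nat_lit 133) (nat_lit 0) (@Lb.g g8 (@Lb.g g5 (@Lb.r r24 (@Lb.d (nat_lit 330) (nat_lit 0) (nat_lit 577) (@Lb.fm (nat_lit 3) t166))))))
noncomputable def l24231 : Lb := (@Lb.d (nat_lit 294) (nat_lit 136) (nat_lit 324) (@Lb.r r1170 (@Lb.r r2385 (@Lb.r r1703 (@Lb.g g7 (@Lb.g g6 (@Lb.g g5 (@Lb.g g8 (@Lb.d (nat_lit 293) (nat_lit 2) (nat_lit 133) (@Lb.fm (nat_lit 9) t4697))))))))))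
noncomputable def l24232 : Lb := (@Lb.r r21 (@Lb.d (nat_lit 409) (nat_lit 0) (nat_lit 0) (@Lb.g g4 (@Lb.r r25 (@Lb.d (nat_lit 608) (nat_lit 133) (nat_lit 1) (@Lb.t (@Lb.fm (nat_lit 3) t1403)))))))
noncomputable def l24233 : Lb := (@Lb.d (nat_lit 9) (nat_lit 262) (nat_lit 136) (@Lb.g g8 (@Lb.g g9 (@Lb.g g10 (@Lb.g g11 (@Lb.r r2723 (@Lb.r r657 (@Lb.r r2404 (@Lb.r r1178 (@Lb.d (nat_lit 425) (nat_lit 137) (nat_lit 324) (@Lb.fp (nat_lit 9) t602)))))))))))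
noncomputable def l24234 : Lb := (@Lb.r r323 (@Lb.d (nat_lit 33) (nat_lit 516) (nat_lit 0) (@Lb.g g8 (@Lb.g g9 (@Lb.g g10 (@Lb.r r1689 (@Lb.r r1563 (@Lb.r r1540 (@Lb.d (nat_lit 420) (nat_lit 64) (nat_lit 673) (@Lb.t (@Lb.fp (nat_lit 9) t4698)))))))))))
noncomputable def l24235 : Lb := (@Lb.r r323 (@Lb.d (nat_lit 161) (nat_lit 260) (nat_lit 0) (@Lb.g g8 (@Lb.g g9 (@Lb.g g10 (@Lb.r r409 (@Lb.r r295 (@Lb.r r516 (@Lb.d (nat_lit 130) (nat_lit 138) (nat_lit 129) (@Lb.t (@Lb.fm (nat_lit 9) t501)))))))))))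
noncomputable def l24236 : Lb := (@Lb.r r2311 (@Lb.r r2118 (@Lb.r r24 (@Lb.r r149 (@Lb.d (nat_lit 529) (nat_lit 390) (nat_lit 33) (@Lb.fm (nat_lit 1) t1676))))))
noncomputable def l24237 : Lb := (@Lb.d (nat_lit 0) (nat_lit 8) (nat_lit 1) (@Lb.g g10 (@Lb.r r2129 (@Lb.r r98 (@Lb.d (nat_lit 292) (nat_lit 138) (nat_lit 33) (@Lb.t (@Lb.fp (nat_lit 3) t1899)))))))
noncomputable def l24238 : Lb := (@Lb.r r21 (@Lb.d (nat_lit 8) (nat_lit 512) (nat_lit 2) (@Lb.g g8 (@Lb.g g10 (@Lb.r r1563 (@Lb.r r2405 (@Lb.r r1178 (@Lb.r r1156 (@Lb.d (nat_lit 594) (nat_lit 2) (nat_lit 337) (@Lb.fp (nat_lit 3) t284))))))))))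
noncomputable def l24239 : Lb := (@Lb.r r101 (@Lb.d (nat_lit 384) (nat_lit 90) (nat_lit 530) (@Lb.fm (nat_lit 1) t4601)))
noncomputable def l24240 : Lb := (@Lb.r r323 (@Lb.d (nat_lit 40) (nat_lit 258) (nat_lit 5) (@Lb.g g9 (@Lb.g g6 (@Lb.r r404 (@Lb.r r299 (@Lb.r r409 (@Lb.d (nat_lit 10) (nat_lit 90) (nat_lit 421) (@Lb.fp (nat_lit 3) t670)))))))))
noncomputable def l24241 : Lb := (@Lb.d (nat_lit 16) (nat_lit 512) (nat_lit 2) (@Lb.g g6 (@Lb.r r324 (@Lb.r r539 (@Lb.r r289 (@Lb.r r36 (@Lb.d (nat_lit 330) (nat_lit 64) (nat_lit 513) (@Lb.t (@Lb.fm (nat_lit 3) t1449)))))))))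
noncomputable def l24242 : Lb := (@Lb.r r134 (@Lb.r r324 (@Lb.r r539 (@Lb.r r289 (@Lb.r r36 (@Lb.d (nat_lit 330) (nat_lit 66) (nat_lit 512) (@Lb.fm (nat_lit 1) t1449)))))))
noncomputable def l24243 : Lb := (@Lb.g g7 (@Lb.r r134 (@Lb.r r1624 (@Lb.r r1291 (@Lb.r r289 (@Lb.d (nat_lit 320) (nat_lit 64) (nat_lit 320) (@Lb.t (@Lb.fp (nat_lit 3) t4699))))))))
noncomputable def l24244 : Lb := (@Lb.d (nat_lit 2) (nat_lit 514) (nat_lit 130) (@Lb.g g8 (@Lb.g g9 (@Lb.g g10 (@Lb.g g11 (@Lb.r r427 (@Lb.r r297 (@Lb.r r104 (@Lb.r r70 (@Lb.r r132 (@Lb.d (nat_lit 2) (nat_lit 137) (nat_lit 258) (@Lb.fp (nat_lit 9) t51))))))))))))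
noncomputable def l24245 : Lb := (@Lb.r r323 (@Lb.d (nat_lit 38) (nat_lit 260) (nat_lit 0) (@Lb.g g8 (@Lb.g g9 (@Lb.g g10 (@Lb.r r2713 (@Lb.r r1563 (@Lb.r r70 (@Lb.r r1540 (@Lb.d (nat_lit 272) (nat_lit 0) (nat_lit 581) (@Lb.t (@Lb.fp (nat_lit 9) t123))))))))))))
noncomputable def l24246 : Lb := (@Lb.r r81 (@Lb.r r323 (@Lb.d (nat_lit 2) (nat_lit 256) (nat_lit 33) (@Lb.g g8 (@Lb.g g6 (@Lb.r r2651 (@Lb.r r37 (@Lb.d (nat_lit 256) (nat_lit 68) (nat_lit 86) (@Lb.fp (nat_lit 3) t482)))))))))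
noncomputable def l24247 : Lb := (@Lb.r r82 (@Lb.d (nat_lit 34) (nat_lit 545) (nat_lit 128) (@Lb.g g8 (@Lb.g g9 (@Lb.g g11 (@Lb.r r1698 (@Lb.r r1577 (@Lb.r r616 (@Lb.r r587 (@Lb.d (nat_lit 385) (nat_lit 150) (nat_lit 361) (@Lb.t (@Lb.fm (nat_lit 9) t152))))))))))))
noncomputable def l24248 : Lb := (@Lb.r r97 (@Lb.r r2130 (@Lb.r r145 (@Lb.d (nat_lit 529) (nat_lit 0) (nat_lit 17) (@Lb.fm (nat_lit 1) t980)))))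
noncomputable def l24249 : Lb := (@Lb.g g8 (@Lb.g g7 (@Lb.r r101 (@Lb.r r24 (@Lb.d (nat_lit 17) (nat_lit 512) (nat_lit 69) (@Lb.fp (nat_lit 3) t40))))))
noncomputable def l24250 : Lb := (@Lb.d (nat_lit 32) (nat_lit 512) (nat_lit 130) (@Lb.g g9 (@Lb.g g10 (@Lb.g g11 (@Lb.r r2695 (@Lb.r r2341 (@Lb.r r1352 (@Lb.r r2710 (@Lb.d (nat_lit 677) (nat_lit 160) (nat_lit 98) (@Lb.t (@Lb.fm (nat_lit 9) t242)))))))))))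
noncomputable def l24251 : Lb := (@Lb.d (nat_lit 136) (nat_lit 0) (nat_lit 128) (@Lb.g g9 (@Lb.g g11 (@Lb.r r260 (@Lb.r r411 (@Lb.r r1617 (@Lb.d (nat_lit 538) (nat_lit 165) (nat_lit 597) (@Lb.fm (nat_lit 3) t4700))))))))
noncomputable def l24252 : Lb := (@Lb.r r323 (@Lb.d (nat_lit 130) (nat_lit 258) (nat_lit 0) (@Lb.g g8 (@Lb.g g9 (@Lb.g g10 (@Lb.r r2667 (@Lb.r r1177 (@Lb.r r1626 (@Lb.r r72 (@Lb.d (nat_lit 34) (nat_lit 9) (nat_lit 70) (@Lb.t (@Lb.fm (nat_lit 9) t808))))))))))))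
noncomputable def l24253 : Lb := (@Lb.d (nat_lit 2) (nat_lit 514) (nat_lit 73) (@Lb.g g8 (@Lb.g g9 (@Lb.g g10 (@Lb.g g11 (@Lb.r r2691 (@Lb.r r164 (@Lb.r r614 (@Lb.r r1045 (@Lb.r r2084 (@Lb.d (nat_lit 641) (nat_lit 160) (nat_lit 582) (@Lb.fm (nat_lit 9) t4701))))))))))))
noncomputable def l24254 : Lb := (@Lb.d (nat_lit 2) (nat_lit 258) (nat_lit 73) (@Lb.g g8 (@Lb.g g9 (@Lb.g g10 (@Lb.g g11 (@Lb.r r2691 (@Lb.r r164 (@Lb.r r614 (@Lb.r r1045 (@Lb.r r2084 (@Lb.d (nat_lit 641) (nat_lit 160) (nat_lit 646) (@Lb.fm (nat_lit 9) t4701))))))))))))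
noncomputable def l24255 : Lb := (@Lb.r r323 (@Lb.d (nat_lit 38) (nat_lit 256) (nat_lit 1) (@Lb.g g8 (@Lb.g g9 (@Lb.g g10 (@Lb.r r1425 (@Lb.r r2347 (@Lb.r r392 (@Lb.r r1098 (@Lb.d (nat_lit 546) (nat_lit 10) (nat_lit 544) (@Lb.t (@Lb.fp (nat_lit 9) t2442))))))))))))
noncomputable def l24256 : Lb := (@Lb.d (nat_lit 548) (nat_lit 513) (nat_lit 18) (@Lb.g g5 (@Lb.t (@Lb.fm (nat_lit 3) t183))))
noncomputable def l24257 : Lb := (@Lb.d (nat_lit 20) (nat_lit 10) (nat_lit 74) (@Lb.g g8 (@Lb.g g9 (@Lb.g g10 (@Lb.g g11 (@Lb.r r423 (@Lb.r r618 (@Lb.r r552 (@Lb.r r25 (@Lb.d (nat_lit 20) (nat_lit 20) (nat_lit 128) (@Lb.fm (nat_lit 9) t4295)))))))))))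
noncomputable def l24258 : Lb := (@Lb.r r82 (@Lb.r r275 (@Lb.d (nat_lit 2) (nat_lit 338) (nat_lit 0) (@Lb.g g8 (@Lb.g g9 (@Lb.r r2347 (@Lb.r r2442 (@Lb.r r2436 (@Lb.d (nat_lit 336) (nat_lit 9) (nat_lit 529) (@Lb.fp (nat_lit 3) t4702))))))))))
noncomputable def l24259 : Lb := (@Lb.d (nat_lit 2) (nat_lit 514) (nat_lit 2) (@Lb.g g8 (@Lb.g g9 (@Lb.g g10 (@Lb.r r683 (@Lb.r r2666 (@Lb.r r25 (@Lb.d (nat_lit 4) (nat_lit 25) (nat_lit 537) (@Lb.t (@Lb.fp (nat_lit 9) t591))))))))))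
noncomputable def l24260 : Lb := (@Lb.d (nat_lit 2) (nat_lit 265) (nat_lit 0) (@Lb.g g8 (@Lb.g g9 (@Lb.g g10 (@Lb.r r2409 (@Lb.r r594 (@Lb.d (nat_lit 289) (nat_lit 98) (nat_lit 162) (@Lb.t (@Lb.fp (nat_lit 9) t225)))))))))
noncomputable def l24261 : Lb := (@Lb.r r355 (@Lb.d (nat_lit 2) (nat_lit 1) (nat_lit 32) (@Lb.g g8 (@Lb.g g9 (@Lb.g g10 (@Lb.r r2713 (@Lb.r r403 (@Lb.d (nat_lit 321) (nat_lit 80) (nat_lit 400) (@Lb.t (@Lb.fm (nat_lit 9) t650))))))))))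
noncomputable def l24262 : Lb := (@Lb.d (nat_lit 2) (nat_lit 258) (nat_lit 2) (@Lb.g g8 (@Lb.g g9 (@Lb.g g10 (@Lb.r r2666 (@Lb.r r2585 (@Lb.d (nat_lit 329) (nat_lit 9) (nat_lit 384) (@Lb.t (@Lb.fm (nat_lit 9) t2775)))))))))
noncomputable def l24263 : Lb := (@Lb.r r322 (@Lb.d (nat_lit 2) (nat_lit 645) (nat_lit 576) (@Lb.g g8 (@Lb.g g5 (@Lb.g g7 (@Lb.r r1426 (@Lb.d (nat_lit 400) (nat_lit 1) (nat_lit 361) (@Lb.t (@Lb.fp (nat_lit 9) t311)))))))))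
noncomputable def l24264 : Lb := (@Lb.d (nat_lit 2) (nat_lit 512) (nat_lit 130) (@Lb.g g8 (@Lb.g g9 (@Lb.g g10 (@Lb.g g11 (@Lb.r r419 (@Lb.r r2122 (@Lb.r r1317 (@Lb.d (nat_lit 289) (nat_lit 74) (nat_lit 33) (@Lb.fm (nat_lit 9) t1089))))))))))
noncomputable def l24265 : Lb := (@Lb.d (nat_lit 2) (nat_lit 2) (nat_lit 130) (@Lb.g g8 (@Lb.g g9 (@Lb.g g10 (@Lb.g g11 (@Lb.r r2691 (@Lb.r r164 (@Lb.r r614 (@Lb.r r1045 (@Lb.r r2084 (@Lb.d (nat_lit 641) (nat_lit 165) (nat_lit 580) (@Lb.fm (nat_lit 9) t4701))))))))))))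
noncomputable def l24266 : Lb := (@Lb.d (nat_lit 2) (nat_lit 258) (nat_lit 73) (@Lb.g g8 (@Lb.g g9 (@Lb.g g10 (@Lb.g g11 (@Lb.r r2691 (@Lb.r r164 (@Lb.r r614 (@Lb.r r1045 (@Lb.r r2084 (@Lb.d (nat_lit 641) (nat_lit 165) (nat_lit 580) (@Lb.fm (nat_lit 9) t4701))))))))))))
noncomputable def l24267 : Lb := (@Lb.g g5 (@Lb.r r2577 (@Lb.d (nat_lit 0) (nat_lit 256) (nat_lit 256) (@Lb.t (@Lb.fm (nat_lit 3) t121)))))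
noncomputable def l24268 : Lb := (@Lb.d (nat_lit 8) (nat_lit 258) (nat_lit 0) (@Lb.g g9 (@Lb.r r1300 (@Lb.r r2603 (@Lb.r r2178 (@Lb.r r609 (@Lb.d (nat_lit 0) (nat_lit 149) (nat_lit 137) (@Lb.t (@Lb.fm (nat_lit 3) t1282)))))))))
noncomputable def l24269 : Lb := (@Lb.d (nat_lit 2) (nat_lit 512) (nat_lit 130) (@Lb.g g8 (@Lb.g g10 (@Lb.g g11 (@Lb.r r419 (@Lb.r r2122 (@Lb.r r1317 (@Lb.d (nat_lit 289) (nat_lit 74) (nat_lit 33) (@Lb.t (@Lb.fp (nat_lit 9) t1089))))))))))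
noncomputable def l24270 : Lb := (@Lb.d (nat_lit 518) (nat_lit 385) (nat_lit 170) (@Lb.r r1637 (@Lb.r r2328 (@Lb.r r386 (@Lb.r r1575 (@Lb.g g5 (@Lb.r r98 (@Lb.t (@Lb.fm (nat_lit 3) t2484)))))))))
noncomputable def l24271 : Lb := (@Lb.d (nat_lit 4) (nat_lit 512) (nat_lit 73) (@Lb.g g8 (@Lb.g g9 (@Lb.g g10 (@Lb.g g11 (@Lb.r r427 (@Lb.r r1634 (@Lb.r r292 (@Lb.r r2069 (@Lb.r r1060 (@Lb.d (nat_lit 609) (nat_lit 154) (nat_lit 261) (@Lb.fp (nat_lit 9) t4045))))))))))))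
noncomputable def l24272 : Lb := (@Lb.r r82 (@Lb.d (nat_lit 0) (nat_lit 34) (nat_lit 64) (@Lb.g g9 (@Lb.g g11 (@Lb.r r1575 (@Lb.r r386 (@Lb.r r2136 (@Lb.r r1061 (@Lb.d (nat_lit 408) (nat_lit 102) (nat_lit 256) (@Lb.fm (nat_lit 3) t1027))))))))))
noncomputable def l24273 : Lb := (@Lb.d (nat_lit 166) (nat_lit 257) (nat_lit 420) (@Lb.r r20 (@Lb.r r2153 (@Lb.r r386 (@Lb.g g11 (@Lb.g g6 (@Lb.g g5 (@Lb.g g4 (@Lb.d (nat_lit 1) (nat_lit 6) (nat_lit 130) (@Lb.fm (nat_lit 9) t1038))))))))))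
noncomputable def l24274 : Lb := (@Lb.d (nat_lit 144) (nat_lit 1) (nat_lit 130) (@Lb.g g8 (@Lb.g g9 (@Lb.g g10 (@Lb.g g11 (@Lb.r r2154 (@Lb.r r1129 (@Lb.r r596 (@Lb.r r295 (@Lb.r r1540 (@Lb.d (nat_lit 266) (nat_lit 88) (nat_lit 402) (@Lb.fm (nat_lit 9) t69))))))))))))
noncomputable def l24275 : Lb := (@Lb.r r21 (@Lb.r r70 (@Lb.d (nat_lit 657) (nat_lit 512) (nat_lit 64) (@Lb.g g8 (@Lb.g g11 (@Lb.r r1419 (@Lb.r r74 (@Lb.r r25 (@Lb.d (nat_lit 512) (nat_lit 0) (nat_lit 394) (@Lb.fm (nat_lit 3) t4703))))))))))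
noncomputable def l24276 : Lb := (@Lb.d (nat_lit 384) (nat_lit 256) (nat_lit 530) (@Lb.r r24 (@Lb.r r1317 (@Lb.r r2466 (@Lb.r r2691 (@Lb.g g7 (@Lb.g g6 (@Lb.g g5 (@Lb.d (nat_lit 0) (nat_lit 0) (nat_lit 134) (@Lb.t (@Lb.fp (nat_lit 9) t719)))))))))))
noncomputable def l24277 : Lb := (@Lb.r r21 (@Lb.r r263 (@Lb.d (nat_lit 2) (nat_lit 0) (nat_lit 2) (@Lb.g g8 (@Lb.g g10 (@Lb.r r1691 (@Lb.r r386 (@Lb.r r97 (@Lb.r r584 (@Lb.d (nat_lit 354) (nat_lit 26) (nat_lit 256) (@Lb.fm (nat_lit 3) t3303)))))))))))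
noncomputable def l24278 : Lb := (@Lb.d (nat_lit 18) (nat_lit 34) (nat_lit 2) (@Lb.g g8 (@Lb.g g9 (@Lb.g g10 (@Lb.r r1706 (@Lb.r r1419 (@Lb.r r164 (@Lb.r r1573 (@Lb.d (nat_lit 645) (nat_lit 42) (nat_lit 346) (@Lb.t (@Lb.fm (nat_lit 9) t4499)))))))))))
noncomputable def l24279 : Lb := (@Lb.d (nat_lit 144) (nat_lit 544) (nat_lit 130) (@Lb.g g8 (@Lb.g g10 (@Lb.g g11 (@Lb.r r2138 (@Lb.r r2197 (@Lb.r r328 (@Lb.r r551 (@Lb.d (nat_lit 138) (nat_lit 168) (nat_lit 530) (@Lb.t (@Lb.fm (nat_lit 9) t69)))))))))))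
noncomputable def l24280 : Lb := (@Lb.d (nat_lit 544) (nat_lit 337) (nat_lit 9) (@Lb.r r1313 (@Lb.r r70 (@Lb.r r2647 (@Lb.g g6 (@Lb.g g5 (@Lb.g g4 (@Lb.d (nat_lit 1) (nat_lit 16) (nat_lit 1) (@Lb.r r387 (@Lb.t (@Lb.fp (nat_lit 9) t4653)))))))))))
noncomputable def l24281 : Lb := (@Lb.r r82 (@Lb.d (nat_lit 41) (nat_lit 514) (nat_lit 128) (@Lb.g g8 (@Lb.g g9 (@Lb.g g11 (@Lb.r r547 (@Lb.r r582 (@Lb.r r153 (@Lb.r r408 (@Lb.d (nat_lit 89) (nat_lit 26) (nat_lit 74) (@Lb.t (@Lb.fm (nat_lit 9) t264))))))))))))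
noncomputable def l24282 : Lb := (@Lb.d (nat_lit 0) (nat_lit 0) (nat_lit 2) (@Lb.g g10 (@Lb.r r260 (@Lb.r r523 (@Lb.r r161 (@Lb.r r98 (@Lb.r r516 (@Lb.d (nat_lit 0) (nat_lit 6) (nat_lit 0) (@Lb.t (@Lb.fp (nat_lit 3) t97))))))))))
noncomputable def l24283 : Lb := (@Lb.d (nat_lit 65) (nat_lit 257) (nat_lit 65) (@Lb.r r264 (@Lb.r r97 (@Lb.r r615 (@Lb.g g6 (@Lb.g g4 (@Lb.d (nat_lit 65) (nat_lit 4) (nat_lit 1) (@Lb.r r387 (@Lb.r r25 (@Lb.fp (nat_lit 3) t264))))))))))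
noncomputable def l24284 : Lb := (@Lb.r r82 (@Lb.d (nat_lit 41) (nat_lit 513) (nat_lit 128) (@Lb.g g8 (@Lb.g g9 (@Lb.g g11 (@Lb.r r1571 (@Lb.r r582 (@Lb.r r1177 (@Lb.r r408 (@Lb.d (nat_lit 344) (nat_lit 26) (nat_lit 586) (@Lb.t (@Lb.fm (nat_lit 9) t264))))))))))))
noncomputable def l24285 : Lb := (@Lb.d (nat_lit 409) (nat_lit 674) (nat_lit 357) (@Lb.r r1387 (@Lb.r r1384 (@Lb.r r361 (@Lb.g g7 (@Lb.g g6 (@Lb.d (nat_lit 64) (nat_lit 16) (nat_lit 96) (@Lb.fm (nat_lit 3) t4465))))))))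
noncomputable def l24286 : Lb := (@Lb.d (nat_lit 9) (nat_lit 520) (nat_lit 2) (@Lb.g g8 (@Lb.g g10 (@Lb.g g11 (@Lb.r r2459 (@Lb.r r101 (@Lb.d (nat_lit 25) (nat_lit 74) (nat_lit 1) (@Lb.t (@Lb.fp (nat_lit 9) t825)))))))))
noncomputable def l24287 : Lb := (@Lb.d (nat_lit 106) (nat_lit 341) (nat_lit 522) (@Lb.r r1384 (@Lb.r r2345 (@Lb.r r2466 (@Lb.g g11 (@Lb.g g5 (@Lb.g g4 (@Lb.d (nat_lit 20) (nat_lit 18) (nat_lit 264) (@Lb.r r578 (@Lb.t (@Lb.fp (nat_lit 9) t1209)))))))))))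
noncomputable def l24288 : Lb := (@Lb.d (nat_lit 9) (nat_lit 264) (nat_lit 130) (@Lb.g g8 (@Lb.g g10 (@Lb.g g11 (@Lb.r r387 (@Lb.r r101 (@Lb.d (nat_lit 25) (nat_lit 86) (nat_lit 421) (@Lb.t (@Lb.fp (nat_lit 9) t1080)))))))))
noncomputable def l24289 : Lb := (@Lb.d (nat_lit 1) (nat_lit 544) (nat_lit 128) (@Lb.g g8 (@Lb.g g11 (@Lb.r r1162 (@Lb.r r401 (@Lb.r r1572 (@Lb.r r1639 (@Lb.d (nat_lit 409) (nat_lit 73) (nat_lit 549) (@Lb.fm (nat_lit 3) t4704)))))))))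
noncomputable def l24290 : Lb := (@Lb.d (nat_lit 517) (nat_lit 577) (nat_lit 128) (@Lb.r r1061 (@Lb.r r2132 (@Lb.r r2474 (@Lb.g g11 (@Lb.g g5 (@Lb.g g4 (@Lb.d (nat_lit 10) (nat_lit 17) (nat_lit 264) (@Lb.r r578 (@Lb.t (@Lb.fm (nat_lit 9) t4705)))))))))))
noncomputable def l24291 : Lb := (@Lb.d (nat_lit 106) (nat_lit 597) (nat_lit 522) (@Lb.r r1384 (@Lb.r r2345 (@Lb.r r2466 (@Lb.g g11 (@Lb.g g5 (@Lb.g g4 (@Lb.d (nat_lit 20) (nat_lit 18) (nat_lit 392) (@Lb.r r578 (@Lb.t (@Lb.fp (nat_lit 9) t4706)))))))))))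
noncomputable def l24292 : Lb := (@Lb.d (nat_lit 128) (nat_lit 2) (nat_lit 130) (@Lb.g g8 (@Lb.g g9 (@Lb.g g10 (@Lb.g g11 (@Lb.r r2666 (@Lb.r r612 (@Lb.r r1319 (@Lb.r r1045 (@Lb.r r2084 (@Lb.d (nat_lit 0) (nat_lit 102) (nat_lit 550) (@Lb.fp (nat_lit 9) t1209))))))))))))
noncomputable def l24293 : Lb := (@Lb.d (nat_lit 34) (nat_lit 0) (nat_lit 0) (@Lb.g g8 (@Lb.g g7 (@Lb.r r582 (@Lb.r r289 (@Lb.r r676 (@Lb.d (nat_lit 160) (nat_lit 164) (nat_lit 326) (@Lb.fm (nat_lit 3) t259))))))))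
noncomputable def l24294 : Lb := (@Lb.r r82 (@Lb.d (nat_lit 1) (nat_lit 357) (nat_lit 64) (@Lb.g g8 (@Lb.g g5 (@Lb.g g11 (@Lb.r r2667 (@Lb.r r2650 (@Lb.r r2628 (@Lb.d (nat_lit 162) (nat_lit 6) (nat_lit 409) (@Lb.t (@Lb.fm (nat_lit 9) t1968)))))))))))
noncomputable def l24295 : Lb := (@Lb.r r82 (@Lb.d (nat_lit 128) (nat_lit 357) (nat_lit 64) (@Lb.g g5 (@Lb.g g11 (@Lb.r r662 (@Lb.r r328 (@Lb.r r327 (@Lb.d (nat_lit 416) (nat_lit 6) (nat_lit 646) (@Lb.fp (nat_lit 3) t4651)))))))))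
noncomputable def l24296 : Lb := (@Lb.d (nat_lit 32) (nat_lit 290) (nat_lit 66) (@Lb.g g9 (@Lb.g g10 (@Lb.g g11 (@Lb.r r324 (@Lb.r r2587 (@Lb.r r74 (@Lb.r r1317 (@Lb.d (nat_lit 361) (nat_lit 129) (nat_lit 258) (@Lb.t (@Lb.fm (nat_lit 9) t1006)))))))))))
noncomputable def l24297 : Lb := (@Lb.d (nat_lit 6) (nat_lit 260) (nat_lit 1) (@Lb.r r289 (@Lb.r r279 (@Lb.r r584 (@Lb.r r326 (@Lb.g g7 (@Lb.g g6 (@Lb.g g5 (@Lb.d (nat_lit 4) (nat_lit 1) (nat_lit 65) (@Lb.t (@Lb.fp (nat_lit 9) t68)))))))))))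
noncomputable def l24298 : Lb := (@Lb.d (nat_lit 2) (nat_lit 290) (nat_lit 322) (@Lb.g g8 (@Lb.g g9 (@Lb.g g10 (@Lb.g g7 (@Lb.r r386 (@Lb.r r609 (@Lb.r r24 (@Lb.d (nat_lit 10) (nat_lit 25) (nat_lit 261) (@Lb.fp (nat_lit 9) t2685))))))))))
noncomputable def l24299 : Lb := (@Lb.r r82 (@Lb.d (nat_lit 8) (nat_lit 34) (nat_lit 72) (@Lb.g g9 (@Lb.g g11 (@Lb.r r330 (@Lb.r r328 (@Lb.r r2711 (@Lb.r r1377 (@Lb.d (nat_lit 0) (nat_lit 137) (nat_lit 278) (@Lb.fp (nat_lit 3) t2301))))))))))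
noncomputable def l24300 : Lb := (@Lb.r r82 (@Lb.d (nat_lit 1) (nat_lit 613) (nat_lit 64) (@Lb.g g8 (@Lb.g g5 (@Lb.g g11 (@Lb.r r2667 (@Lb.r r2650 (@Lb.r r2628 (@Lb.d (nat_lit 162) (nat_lit 6) (nat_lit 340) (@Lb.t (@Lb.fm (nat_lit 9) t4707)))))))))))
noncomputable def l24301 : Lb := (@Lb.d (nat_lit 32) (nat_lit 9) (nat_lit 0) (@Lb.g g8 (@Lb.g g9 (@Lb.r r2379 (@Lb.r r582 (@Lb.r r2452 (@Lb.r r25 (@Lb.d (nat_lit 521) (nat_lit 153) (nat_lit 530) (@Lb.fm (nat_lit 3) t386)))))))))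
noncomputable def l24302 : Lb := (@Lb.d (nat_lit 2) (nat_lit 258) (nat_lit 0) (@Lb.g g8 (@Lb.g g9 (@Lb.r r322 (@Lb.r r1667 (@Lb.r r578 (@Lb.r r25 (@Lb.d (nat_lit 2) (nat_lit 144) (nat_lit 266) (@Lb.fp (nat_lit 3) t210)))))))))
noncomputable def l24303 : Lb := (@Lb.d (nat_lit 2) (nat_lit 258) (nat_lit 72) (@Lb.g g8 (@Lb.g g9 (@Lb.g g11 (@Lb.r r1410 (@Lb.r r579 (@Lb.r r25 (@Lb.d (nat_lit 2) (nat_lit 144) (nat_lit 297) (@Lb.t (@Lb.fm (nat_lit 9) t210))))))))))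
noncomputable def l24304 : Lb := (@Lb.d (nat_lit 0) (nat_lit 544) (nat_lit 72) (@Lb.g g11 (@Lb.r r2402 (@Lb.r r353 (@Lb.r r1427 (@Lb.d (nat_lit 0) (nat_lit 80) (nat_lit 410) (@Lb.t (@Lb.fm (nat_lit 3) t322))))))))
noncomputable def l24305 : Lb := (@Lb.d (nat_lit 0) (nat_lit 521) (nat_lit 72) (@Lb.g g9 (@Lb.g g11 (@Lb.r r2370 (@Lb.r r1431 (@Lb.r r2585 (@Lb.d (nat_lit 649) (nat_lit 162) (nat_lit 354) (@Lb.fm (nat_lit 3) t322))))))))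
noncomputable def l24306 : Lb := (@Lb.d (nat_lit 2) (nat_lit 258) (nat_lit 130) (@Lb.g g8 (@Lb.g g9 (@Lb.g g10 (@Lb.g g11 (@Lb.r r1699 (@Lb.r r164 (@Lb.r r2709 (@Lb.r r2198 (@Lb.r r2084 (@Lb.d (nat_lit 289) (nat_lit 162) (nat_lit 418) (@Lb.fp (nat_lit 9) t791))))))))))))
noncomputable def l24307 : Lb := (@Lb.g g7 (@Lb.r r609 (@Lb.r r2659 (@Lb.r r338 (@Lb.r r2705 (@Lb.t (@Lb.fm (nat_lit 3) t322)))))))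
noncomputable def l24308 : Lb := (@Lb.d (nat_lit 130) (nat_lit 258) (nat_lit 130) (@Lb.g g8 (@Lb.g g9 (@Lb.g g10 (@Lb.g g11 (@Lb.r r2459 (@Lb.r r1177 (@Lb.r r1626 (@Lb.r r1604 (@Lb.d (nat_lit 153) (nat_lit 137) (nat_lit 580) (@Lb.fp (nat_lit 9) t1368)))))))))))
noncomputable def l24309 : Lb := (@Lb.r r70 (@Lb.d (nat_lit 129) (nat_lit 138) (nat_lit 64) (@Lb.g g8 (@Lb.g g9 (@Lb.g g11 (@Lb.r r1547 (@Lb.r r2454 (@Lb.r r584 (@Lb.d (nat_lit 578) (nat_lit 2) (nat_lit 152) (@Lb.t (@Lb.fp (nat_lit 9) t109)))))))))))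
noncomputable def l24310 : Lb := (@Lb.d (nat_lit 1) (nat_lit 640) (nat_lit 0) (@Lb.r r82 (@Lb.g g5 (@Lb.d (nat_lit 4) (nat_lit 65) (nat_lit 0) (@Lb.r r98 (@Lb.t (@Lb.fm (nat_lit 3) t2163)))))))
noncomputable def l24311 : Lb := (@Lb.d (nat_lit 0) (nat_lit 264) (nat_lit 8) (@Lb.r r24 (@Lb.r r579 (@Lb.g g10 (@Lb.g g5 (@Lb.d (nat_lit 4) (nat_lit 1) (nat_lit 2) (@Lb.r r387 (@Lb.fp (nat_lit 3) t238))))))))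
noncomputable def l24312 : Lb := (@Lb.d (nat_lit 0) (nat_lit 257) (nat_lit 136) (@Lb.g g9 (@Lb.g g11 (@Lb.r r40 (@Lb.r r153 (@Lb.d (nat_lit 37) (nat_lit 4) (nat_lit 136) (@Lb.fp (nat_lit 3) t87)))))))
noncomputable def l24313 : Lb := (@Lb.d (nat_lit 0) (nat_lit 256) (nat_lit 136) (@Lb.g g11 (@Lb.r r24 (@Lb.r r101 (@Lb.d (nat_lit 0) (nat_lit 2) (nat_lit 74) (@Lb.t (@Lb.fp (nat_lit 3) t87)))))))
noncomputable def l24314 : Lb := (@Lb.g g11 (@Lb.r r24 (@Lb.r r101 (@Lb.d (nat_lit 0) (nat_lit 514) (nat_lit 136) (@Lb.t (@Lb.fp (nat_lit 3) t87))))))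
noncomputable def l24315 : Lb := (@Lb.d (nat_lit 0) (nat_lit 266) (nat_lit 0) (@Lb.g g9 (@Lb.d (nat_lit 0) (nat_lit 90) (nat_lit 297) (@Lb.t (@Lb.fp (nat_lit 3) t153)))))
noncomputable def l24316 : Lb := (@Lb.d (nat_lit 144) (nat_lit 548) (nat_lit 133) (@Lb.g g8 (@Lb.g g9 (@Lb.g g10 (@Lb.g g11 (@Lb.r r387 (@Lb.r r164 (@Lb.r r1445 (@Lb.r r2726 (@Lb.d (nat_lit 277) (nat_lit 137) (nat_lit 609) (@Lb.fp (nat_lit 9) t4)))))))))))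
noncomputable def l24317 : Lb := (@Lb.d (nat_lit 1) (nat_lit 514) (nat_lit 73) (@Lb.g g8 (@Lb.g g9 (@Lb.g g10 (@Lb.g g11 (@Lb.r r2666 (@Lb.r r579 (@Lb.r r97 (@Lb.r r24 (@Lb.d (nat_lit 421) (nat_lit 6) (nat_lit 358) (@Lb.fm (nat_lit 9) t61)))))))))))
noncomputable def l24318 : Lb := (@Lb.r r322 (@Lb.d (nat_lit 8) (nat_lit 546) (nat_lit 516) (@Lb.g g9 (@Lb.g g7 (@Lb.r r426 (@Lb.r r532 (@Lb.r r361 (@Lb.d (nat_lit 609) (nat_lit 74) (nat_lit 134) (@Lb.fp (nat_lit 3) t128)))))))))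
noncomputable def l24319 : Lb := (@Lb.d (nat_lit 262) (nat_lit 422) (nat_lit 65) (@Lb.r r2069 (@Lb.r r2390 (@Lb.g g7 (@Lb.g g6 (@Lb.g g5 (@Lb.g g4 (@Lb.d (nat_lit 0) (nat_lit 2) (nat_lit 128) (@Lb.fp (nat_lit 9) t253)))))))))
noncomputable def l24320 : Lb := (@Lb.d (nat_lit 0) (nat_lit 0) (nat_lit 74) (@Lb.g g10 (@Lb.g g11 (@Lb.r r2694 (@Lb.r r328 (@Lb.r r535 (@Lb.r r289 (@Lb.d (nat_lit 580) (nat_lit 2) (nat_lit 512) (@Lb.fm (nat_lit 3) t1449)))))))))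
noncomputable def l24321 : Lb := (@Lb.d (nat_lit 32) (nat_lit 513) (nat_lit 130) (@Lb.g g9 (@Lb.g g10 (@Lb.g g11 (@Lb.r r1443 (@Lb.r r72 (@Lb.r r422 (@Lb.r r289 (@Lb.d (nat_lit 533) (nat_lit 41) (nat_lit 417) (@Lb.t (@Lb.fp (nat_lit 9) t296)))))))))))
noncomputable def l24322 : Lb := (@Lb.r r24 (@Lb.r r101 (@Lb.r r402 (@Lb.d (nat_lit 5) (nat_lit 320) (nat_lit 85) (@Lb.fm (nat_lit 1) t1557)))))
noncomputable def l24323 : Lb := (@Lb.r r323 (@Lb.d (nat_lit 33) (nat_lit 260) (nat_lit 17) (@Lb.g g8 (@Lb.g g9 (@Lb.g g6 (@Lb.r r387 (@Lb.r r97 (@Lb.r r2072 (@Lb.d (nat_lit 266) (nat_lit 137) (nat_lit 2) (@Lb.t (@Lb.fp (nat_lit 9) t2250)))))))))))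
noncomputable def l24324 : Lb := (@Lb.d (nat_lit 98) (nat_lit 294) (nat_lit 578) (@Lb.g g8 (@Lb.g g9 (@Lb.g g10 (@Lb.g g7 (@Lb.r r1410 (@Lb.r r2145 (@Lb.r r1048 (@Lb.d (nat_lit 522) (nat_lit 137) (nat_lit 281) (@Lb.fp (nat_lit 9) t4708))))))))))
noncomputable def l24325 : Lb := (@Lb.d (nat_lit 4) (nat_lit 138) (nat_lit 0) (@Lb.g g9 (@Lb.r r363 (@Lb.r r1124 (@Lb.r r2458 (@Lb.d (nat_lit 2) (nat_lit 2) (nat_lit 354) (@Lb.t (@Lb.fm (nat_lit 3) t2161))))))))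
noncomputable def l24326 : Lb := (@Lb.d (nat_lit 1) (nat_lit 2) (nat_lit 130) (@Lb.g g8 (@Lb.g g9 (@Lb.g g10 (@Lb.g g11 (@Lb.r r648 (@Lb.r r1563 (@Lb.r r2453 (@Lb.r r2134 (@Lb.r r1188 (@Lb.d (nat_lit 550) (nat_lit 89) (nat_lit 102) (@Lb.fp (nat_lit 9) t3567))))))))))))
noncomputable def l24327 : Lb := (@Lb.d (nat_lit 16) (nat_lit 256) (nat_lit 130) (@Lb.g g10 (@Lb.g g11 (@Lb.r r427 (@Lb.r r424 (@Lb.r r617 (@Lb.r r338 (@Lb.d (nat_lit 610) (nat_lit 22) (nat_lit 21) (@Lb.fm (nat_lit 3) t263)))))))))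
noncomputable def l24328 : Lb := (@Lb.d (nat_lit 161) (nat_lit 264) (nat_lit 86) (@Lb.r r584 (@Lb.r r2454 (@Lb.r r1643 (@Lb.g g7 (@Lb.g g5 (@Lb.g g4 (@Lb.d (nat_lit 66) (nat_lit 69) (nat_lit 128) (@Lb.r r74 (@Lb.t (@Lb.fm (nat_lit 9) t263)))))))))))
noncomputable def l24329 : Lb := (@Lb.d (nat_lit 2) (nat_lit 265) (nat_lit 1) (@Lb.g g8 (@Lb.g g9 (@Lb.g g10 (@Lb.g g7 (@Lb.r r1186 (@Lb.r r36 (@Lb.r r149 (@Lb.r r1060 (@Lb.d (nat_lit 288) (nat_lit 10) (nat_lit 102) (@Lb.fp (nat_lit 9) t1547)))))))))))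
noncomputable def l24330 : Lb := (@Lb.d (nat_lit 73) (nat_lit 545) (nat_lit 130) (@Lb.g g8 (@Lb.g g9 (@Lb.g g10 (@Lb.g g11 (@Lb.r r1411 (@Lb.r r386 (@Lb.r r1129 (@Lb.r r1384 (@Lb.d (nat_lit 341) (nat_lit 170) (nat_lit 548) (@Lb.fm (nat_lit 9) t31)))))))))))
noncomputable def l24331 : Lb := (@Lb.r r323 (@Lb.g g6 (@Lb.r r1411 (@Lb.r r24 (@Lb.r r2149 (@Lb.r r1426 (@Lb.d (nat_lit 0) (nat_lit 266) (nat_lit 65) (@Lb.t (@Lb.fp (nat_lit 3) t311)))))))))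
noncomputable def l24332 : Lb := (@Lb.d (nat_lit 9) (nat_lit 514) (nat_lit 130) (@Lb.g g8 (@Lb.g g9 (@Lb.g g10 (@Lb.g g11 (@Lb.r r1602 (@Lb.r r1065 (@Lb.r r616 (@Lb.r r1611 (@Lb.r r516 (@Lb.d (nat_lit 545) (nat_lit 98) (nat_lit 82) (@Lb.fm (nat_lit 9) t246))))))))))))
noncomputable def l24333 : Lb := (@Lb.r r322 (@Lb.d (nat_lit 0) (nat_lit 256) (nat_lit 576) (@Lb.g g7 (@Lb.r r24 (@Lb.r r357 (@Lb.r r146 (@Lb.d (nat_lit 0) (nat_lit 0) (nat_lit 322) (@Lb.t (@Lb.fp (nat_lit 3) t311)))))))))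
noncomputable def l24334 : Lb := (@Lb.r r86 (@Lb.d (nat_lit 129) (nat_lit 289) (nat_lit 64) (@Lb.g g8 (@Lb.g g9 (@Lb.g g11 (@Lb.r r2731 (@Lb.r r2626 (@Lb.r r1188 (@Lb.r r37 (@Lb.d (nat_lit 8) (nat_lit 73) (nat_lit 68) (@Lb.t (@Lb.fm (nat_lit 9) t4709))))))))))))
noncomputable def l24335 : Lb := (@Lb.r r21 (@Lb.d (nat_lit 144) (nat_lit 512) (nat_lit 128) (@Lb.g g8 (@Lb.g g10 (@Lb.g g11 (@Lb.r r651 (@Lb.r r357 (@Lb.r r154 (@Lb.r r536 (@Lb.d (nat_lit 74) (nat_lit 149) (nat_lit 68) (@Lb.t (@Lb.fm (nat_lit 9) t125))))))))))))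
noncomputable def l24336 : Lb := (@Lb.d (nat_lit 389) (nat_lit 326) (nat_lit 26) (@Lb.r r2325 (@Lb.r r598 (@Lb.r r683 (@Lb.g g7 (@Lb.g g6 (@Lb.g g5 (@Lb.g g4 (@Lb.d (nat_lit 8) (nat_lit 24) (nat_lit 133) (@Lb.fm (nat_lit 9) t309))))))))))
noncomputable def l24337 : Lb := (@Lb.d (nat_lit 0) (nat_lit 256) (nat_lit 73) (@Lb.g g9 (@Lb.g g10 (@Lb.g g11 (@Lb.r r611 (@Lb.r r1610 (@Lb.r r2644 (@Lb.r r1321 (@Lb.d (nat_lit 266) (nat_lit 16) (nat_lit 576) (@Lb.t (@Lb.fm (nat_lit 9) t331)))))))))))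
noncomputable def l24338 : Lb := (@Lb.d (nat_lit 2) (nat_lit 514) (nat_lit 73) (@Lb.g g8 (@Lb.g g9 (@Lb.g g10 (@Lb.g g11 (@Lb.r r1559 (@Lb.r r1366 (@Lb.r r97 (@Lb.r r24 (@Lb.d (nat_lit 586) (nat_lit 4) (nat_lit 598) (@Lb.fm (nat_lit 9) t61)))))))))))
noncomputable def l24339 : Lb := (@Lb.r r322 (@Lb.d (nat_lit 34) (nat_lit 258) (nat_lit 576) (@Lb.g g8 (@Lb.g g9 (@Lb.g g7 (@Lb.r r361 (@Lb.r r150 (@Lb.r r84 (@Lb.d (nat_lit 22) (nat_lit 150) (nat_lit 585) (@Lb.t (@Lb.fp (nat_lit 9) t259)))))))))))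
noncomputable def l24340 : Lb := (@Lb.d (nat_lit 641) (nat_lit 2) (nat_lit 130) (@Lb.g g8 (@Lb.g g9 (@Lb.g g10 (@Lb.g g11 (@Lb.r r1451 (@Lb.r r106 (@Lb.r r25 (@Lb.d (nat_lit 8) (nat_lit 9) (nat_lit 425) (@Lb.fp (nat_lit 9) t1792))))))))))
noncomputable def l24341 : Lb := (@Lb.d (nat_lit 32) (nat_lit 264) (nat_lit 66) (@Lb.g g10 (@Lb.g g11 (@Lb.r r2401 (@Lb.r r659 (@Lb.r r1352 (@Lb.r r2710 (@Lb.d (nat_lit 405) (nat_lit 170) (nat_lit 281) (@Lb.fm (nat_lit 3) t100)))))))))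
noncomputable def l24342 : Lb := (@Lb.d (nat_lit 9) (nat_lit 288) (nat_lit 66) (@Lb.g g8 (@Lb.g g10 (@Lb.g g11 (@Lb.r r1618 (@Lb.r r149 (@Lb.r r2340 (@Lb.r r587 (@Lb.d (nat_lit 97) (nat_lit 85) (nat_lit 408) (@Lb.t (@Lb.fp (nat_lit 9) t100)))))))))))
noncomputable def l24343 : Lb := (@Lb.r r81 (@Lb.r r323 (@Lb.d (nat_lit 10) (nat_lit 512) (nat_lit 33) (@Lb.g g8 (@Lb.g g6 (@Lb.r r2667 (@Lb.r r149 (@Lb.r r1384 (@Lb.d (nat_lit 134) (nat_lit 42) (nat_lit 320) (@Lb.fp (nat_lit 3) t261))))))))))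
noncomputable def l24344 : Lb := (@Lb.r r323 (@Lb.d (nat_lit 2) (nat_lit 265) (nat_lit 1) (@Lb.g g8 (@Lb.g g9 (@Lb.g g10 (@Lb.r r1194 (@Lb.r r2600 (@Lb.r r2667 (@Lb.r r2585 (@Lb.d (nat_lit 385) (nat_lit 96) (nat_lit 90) (@Lb.t (@Lb.fp (nat_lit 9) t509))))))))))))
noncomputable def l24345 : Lb := (@Lb.r r263 (@Lb.d (nat_lit 0) (nat_lit 514) (nat_lit 2) (@Lb.g g8 (@Lb.g g9 (@Lb.g g10 (@Lb.r r2454 (@Lb.r r1367 (@Lb.r r409 (@Lb.r r388 (@Lb.d (nat_lit 105) (nat_lit 6) (nat_lit 545) (@Lb.t (@Lb.fp (nat_lit 9) t898))))))))))))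
noncomputable def l24346 : Lb := (@Lb.d (nat_lit 8) (nat_lit 2) (nat_lit 130) (@Lb.g g9 (@Lb.g g10 (@Lb.g g11 (@Lb.r r1451 (@Lb.r r98 (@Lb.d (nat_lit 596) (nat_lit 104) (nat_lit 105) (@Lb.t (@Lb.fm (nat_lit 9) t899)))))))))
noncomputable def l24347 : Lb := (@Lb.d (nat_lit 32) (nat_lit 512) (nat_lit 2) (@Lb.g g10 (@Lb.r r2579 (@Lb.r r596 (@Lb.r r74 (@Lb.r r289 (@Lb.d (nat_lit 101) (nat_lit 128) (nat_lit 578) (@Lb.t (@Lb.fp (nat_lit 3) t2645)))))))))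
noncomputable def l24348 : Lb := (@Lb.d (nat_lit 0) (nat_lit 258) (nat_lit 66) (@Lb.g g9 (@Lb.g g10 (@Lb.g g7 (@Lb.r r386 (@Lb.r r97 (@Lb.d (nat_lit 5) (nat_lit 10) (nat_lit 73) (@Lb.t (@Lb.fp (nat_lit 9) t285)))))))))
noncomputable def l24349 : Lb := (@Lb.d (nat_lit 266) (nat_lit 578) (nat_lit 0) (@Lb.r r21 (@Lb.r r70 (@Lb.g g8 (@Lb.d (nat_lit 517) (nat_lit 0) (nat_lit 0) (@Lb.r r74 (@Lb.r r25 (@Lb.t (@Lb.fp (nat_lit 3) t4710)))))))))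
noncomputable def l24350 : Lb := (@Lb.d (nat_lit 8) (nat_lit 258) (nat_lit 2) (@Lb.g g9 (@Lb.g g10 (@Lb.r r1703 (@Lb.r r2658 (@Lb.r r1304 (@Lb.r r2661 (@Lb.d (nat_lit 661) (nat_lit 138) (nat_lit 362) (@Lb.fp (nat_lit 3) t4711)))))))))
noncomputable def l24351 : Lb := (@Lb.d (nat_lit 1) (nat_lit 64) (nat_lit 512) (@Lb.r r145 (@Lb.r r658 (@Lb.r r675 (@Lb.r r665 (@Lb.g g4 (@Lb.d (nat_lit 6) (nat_lit 0) (nat_lit 0) (@Lb.t (@Lb.fm (nat_lit 3) t1499)))))))))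
noncomputable def l24352 : Lb := (@Lb.d (nat_lit 0) (nat_lit 0) (nat_lit 388) (@Lb.g g10 (@Lb.g g11 (@Lb.r r578 (@Lb.d (nat_lit 0) (nat_lit 0) (nat_lit 161) (@Lb.fm (nat_lit 3) t2))))))
noncomputable def l24353 : Lb := (@Lb.d (nat_lit 165) (nat_lit 86) (nat_lit 594) (@Lb.r r2584 (@Lb.r r97 (@Lb.r r2667 (@Lb.g g7 (@Lb.g g10 (@Lb.g g5 (@Lb.g g4 (@Lb.d (nat_lit 1) (nat_lit 1) (nat_lit 81) (@Lb.fp (nat_lit 9) t838))))))))))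
noncomputable def l24354 : Lb := (@Lb.r r82 (@Lb.r r275 (@Lb.d (nat_lit 34) (nat_lit 520) (nat_lit 0) (@Lb.g g8 (@Lb.g g9 (@Lb.r r427 (@Lb.r r582 (@Lb.r r408 (@Lb.d (nat_lit 152) (nat_lit 88) (nat_lit 154) (@Lb.fp (nat_lit 3) t411))))))))))
noncomputable def l24355 : Lb := (@Lb.d (nat_lit 0) (nat_lit 512) (nat_lit 128) (@Lb.g g8 (@Lb.g g10 (@Lb.g g11 (@Lb.r r387 (@Lb.r r1430 (@Lb.r r2145 (@Lb.r r24 (@Lb.d (nat_lit 514) (nat_lit 64) (nat_lit 0) (@Lb.t (@Lb.fp (nat_lit 9) t145)))))))))))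
noncomputable def l24356 : Lb := (@Lb.d (nat_lit 0) (nat_lit 2) (nat_lit 128) (@Lb.g g8 (@Lb.g g9 (@Lb.g g10 (@Lb.g g11 (@Lb.r r387 (@Lb.r r406 (@Lb.r r97 (@Lb.r r24 (@Lb.d (nat_lit 514) (nat_lit 0) (nat_lit 16) (@Lb.fm (nat_lit 9) t145)))))))))))
noncomputable def l24357 : Lb := (@Lb.d (nat_lit 9) (nat_lit 9) (nat_lit 72) (@Lb.g g8 (@Lb.g g9 (@Lb.g g10 (@Lb.g g11 (@Lb.r r682 (@Lb.r r680 (@Lb.r r555 (@Lb.r r2597 (@Lb.r r2068 (@Lb.d (nat_lit 384) (nat_lit 129) (nat_lit 586) (@Lb.fp (nat_lit 9) t74))))))))))))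
noncomputable def l24358 : Lb := (@Lb.d (nat_lit 9) (nat_lit 520) (nat_lit 73) (@Lb.g g8 (@Lb.g g9 (@Lb.g g10 (@Lb.g g11 (@Lb.r r643 (@Lb.r r297 (@Lb.r r360 (@Lb.r r582 (@Lb.r r132 (@Lb.d (nat_lit 129) (nat_lit 5) (nat_lit 72) (@Lb.fm (nat_lit 9) t98))))))))))))
noncomputable def l24359 : Lb := (@Lb.d (nat_lit 2) (nat_lit 528) (nat_lit 66) (@Lb.g g8 (@Lb.g g9 (@Lb.g g10 (@Lb.g g11 (@Lb.r r427 (@Lb.r r578 (@Lb.r r1169 (@Lb.d (nat_lit 385) (nat_lit 169) (nat_lit 420) (@Lb.fp (nat_lit 9) t4712))))))))))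
noncomputable def l24360 : Lb := (@Lb.r r82 (@Lb.d (nat_lit 2) (nat_lit 2) (nat_lit 128) (@Lb.g g8 (@Lb.g g9 (@Lb.g g11 (@Lb.r r299 (@Lb.r r594 (@Lb.r r289 (@Lb.r r24 (@Lb.d (nat_lit 617) (nat_lit 16) (nat_lit 96) (@Lb.t (@Lb.fm (nat_lit 9) t1889))))))))))))
noncomputable def l24361 : Lb := (@Lb.r r82 (@Lb.d (nat_lit 2) (nat_lit 514) (nat_lit 0) (@Lb.g g8 (@Lb.g g9 (@Lb.g g11 (@Lb.r r2395 (@Lb.r r594 (@Lb.r r289 (@Lb.r r24 (@Lb.d (nat_lit 265) (nat_lit 16) (nat_lit 96) (@Lb.t (@Lb.fm (nat_lit 9) t952))))))))))))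
noncomputable def l24362 : Lb := (@Lb.d (nat_lit 256) (nat_lit 418) (nat_lit 656) (@Lb.r r402 (@Lb.r r101 (@Lb.g g11 (@Lb.t (@Lb.fp (nat_lit 3) t4713))))))
noncomputable def l24363 : Lb := (@Lb.d (nat_lit 2) (nat_lit 9) (nat_lit 74) (@Lb.r r402 (@Lb.g g11 (@Lb.g g9 (@Lb.d (nat_lit 8) (nat_lit 9) (nat_lit 0) (@Lb.fp (nat_lit 3) t4714))))))
noncomputable def l24364 : Lb := (@Lb.d (nat_lit 390) (nat_lit 662) (nat_lit 594) (@Lb.r r2325 (@Lb.r r2390 (@Lb.r r2731 (@Lb.g g7 (@Lb.g g6 (@Lb.g g5 (@Lb.g g4 (@Lb.d (nat_lit 1) (nat_lit 0) (nat_lit 70) (@Lb.fm (nat_lit 9) t2488))))))))))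
noncomputable def l24365 : Lb := (@Lb.r r82 (@Lb.d (nat_lit 2) (nat_lit 2) (nat_lit 0) (@Lb.g g8 (@Lb.g g9 (@Lb.r r515 (@Lb.r r2198 (@Lb.r r1049 (@Lb.d (nat_lit 521) (nat_lit 82) (nat_lit 320) (@Lb.fm (nat_lit 3) t653)))))))))
noncomputable def l24366 : Lb := (@Lb.d (nat_lit 145) (nat_lit 344) (nat_lit 586) (@Lb.r r1061 (@Lb.r r2136 (@Lb.r r418 (@Lb.g g11 (@Lb.g g5 (@Lb.d (nat_lit 128) (nat_lit 17) (nat_lit 640) (@Lb.r r610 (@Lb.fm (nat_lit 3) t4715)))))))))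
noncomputable def l24367 : Lb := (@Lb.r r82 (@Lb.d (nat_lit 0) (nat_lit 256) (nat_lit 128) (@Lb.g g9 (@Lb.g g11 (@Lb.r r586 (@Lb.r r584 (@Lb.r r1323 (@Lb.r r1313 (@Lb.d (nat_lit 70) (nat_lit 130) (nat_lit 0) (@Lb.fm (nat_lit 3) t3457))))))))))
noncomputable def l24368 : Lb := (@Lb.r r323 (@Lb.d (nat_lit 16) (nat_lit 516) (nat_lit 26) (@Lb.g g9 (@Lb.g g6 (@Lb.r r2439 (@Lb.r r1313 (@Lb.d (nat_lit 261) (nat_lit 162) (nat_lit 85) (@Lb.fm (nat_lit 3) t4716))))))))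
noncomputable def l24369 : Lb := (@Lb.r r81 (@Lb.d (nat_lit 8) (nat_lit 256) (nat_lit 146) (@Lb.g g8 (@Lb.g g10 (@Lb.g g11 (@Lb.r r387 (@Lb.r r1429 (@Lb.r r2664 (@Lb.d (nat_lit 86) (nat_lit 90) (nat_lit 614) (@Lb.t (@Lb.fp (nat_lit 9) t4717)))))))))))
noncomputable def l24370 : Lb := (@Lb.d (nat_lit 0) (nat_lit 2) (nat_lit 73) (@Lb.g g9 (@Lb.g g10 (@Lb.g g11 (@Lb.r r2691 (@Lb.r r145 (@Lb.r r594 (@Lb.r r1169 (@Lb.d (nat_lit 273) (nat_lit 160) (nat_lit 586) (@Lb.t (@Lb.fp (nat_lit 9) t4718)))))))))))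
noncomputable def l24371 : Lb := (@Lb.d (nat_lit 265) (nat_lit 64) (nat_lit 0) (@Lb.r r2069 (@Lb.r r2118 (@Lb.r r2311 (@Lb.g g8 (@Lb.d (nat_lit 2) (nat_lit 0) (nat_lit 0) (@Lb.t (@Lb.fp (nat_lit 3) t4719))))))))
noncomputable def l24372 : Lb := (@Lb.d (nat_lit 0) (nat_lit 258) (nat_lit 66) (@Lb.g g9 (@Lb.g g10 (@Lb.g g7 (@Lb.r r386 (@Lb.r r97 (@Lb.d (nat_lit 325) (nat_lit 10) (nat_lit 521) (@Lb.t (@Lb.fp (nat_lit 9) t1098)))))))))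
noncomputable def l24373 : Lb := (@Lb.d (nat_lit 2) (nat_lit 512) (nat_lit 1) (@Lb.g g8 (@Lb.g g9 (@Lb.g g10 (@Lb.r r515 (@Lb.r r1130 (@Lb.r r1561 (@Lb.d (nat_lit 585) (nat_lit 89) (nat_lit 74) (@Lb.t (@Lb.fp (nat_lit 9) t588))))))))))
noncomputable def l24374 : Lb := (@Lb.d (nat_lit 0) (nat_lit 16) (nat_lit 585) (@Lb.g g8 (@Lb.g g9 (@Lb.g g10 (@Lb.g g7 (@Lb.r r386 (@Lb.r r1121 (@Lb.d (nat_lit 0) (nat_lit 74) (nat_lit 25) (@Lb.fm (nat_lit 9) t388)))))))))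
noncomputable def l24375 : Lb := (@Lb.d (nat_lit 0) (nat_lit 258) (nat_lit 9) (@Lb.g g8 (@Lb.g g9 (@Lb.g g10 (@Lb.g g7 (@Lb.r r386 (@Lb.r r97 (@Lb.d (nat_lit 0) (nat_lit 138) (nat_lit 9) (@Lb.fm (nat_lit 9) t126)))))))))
noncomputable def l24376 : Lb := (@Lb.d (nat_lit 134) (nat_lit 90) (nat_lit 354) (@Lb.r r277 (@Lb.r r363 (@Lb.g g10 (@Lb.g g5 (@Lb.g g4 (@Lb.d (nat_lit 1) (nat_lit 21) (nat_lit 22) (@Lb.r r387 (@Lb.t (@Lb.fm (nat_lit 9) t1986))))))))))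
noncomputable def l24377 : Lb := (@Lb.r r323 (@Lb.d (nat_lit 0) (nat_lit 266) (nat_lit 6) (@Lb.g g4 (@Lb.g g5 (@Lb.g g10 (@Lb.r r387 (@Lb.d (nat_lit 1) (nat_lit 0) (nat_lit 137) (@Lb.t (@Lb.fm (nat_lit 9) t5)))))))))
noncomputable def l24378 : Lb := (@Lb.d (nat_lit 38) (nat_lit 514) (nat_lit 6) (@Lb.g g8 (@Lb.g g9 (@Lb.g g10 (@Lb.g g11 (@Lb.r r1707 (@Lb.r r2210 (@Lb.r r552 (@Lb.r r1065 (@Lb.r r36 (@Lb.d (nat_lit 361) (nat_lit 97) (nat_lit 162) (@Lb.fp (nat_lit 9) t50))))))))))))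
noncomputable def l24379 : Lb := (@Lb.r r323 (@Lb.d (nat_lit 38) (nat_lit 546) (nat_lit 1) (@Lb.g g8 (@Lb.g g9 (@Lb.g g10 (@Lb.r r2391 (@Lb.r r358 (@Lb.r r616 (@Lb.r r1129 (@Lb.d (nat_lit 361) (nat_lit 170) (nat_lit 146) (@Lb.t (@Lb.fm (nat_lit 9) t50))))))))))))
noncomputable def l24380 : Lb := (@Lb.d (nat_lit 5) (nat_lit 576) (nat_lit 130) (@Lb.g g4 (@Lb.g g9 (@Lb.g g10 (@Lb.g g11 (@Lb.r r419 (@Lb.r r98 (@Lb.d (nat_lit 1) (nat_lit 9) (nat_lit 137) (@Lb.fm (nat_lit 9) t51)))))))))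
noncomputable def l24381 : Lb := (@Lb.d (nat_lit 4) (nat_lit 512) (nat_lit 130) (@Lb.g g8 (@Lb.g g9 (@Lb.g g10 (@Lb.g g11 (@Lb.r r427 (@Lb.r r145 (@Lb.r r356 (@Lb.r r154 (@Lb.r r132 (@Lb.d (nat_lit 9) (nat_lit 9) (nat_lit 18) (@Lb.fm (nat_lit 9) t221))))))))))))
noncomputable def l24382 : Lb := (@Lb.d (nat_lit 4) (nat_lit 258) (nat_lit 130) (@Lb.g g8 (@Lb.g g9 (@Lb.g g10 (@Lb.g g11 (@Lb.r r1451 (@Lb.r r1321 (@Lb.r r104 (@Lb.r r70 (@Lb.r r132 (@Lb.d (nat_lit 9) (nat_lit 66) (nat_lit 682) (@Lb.fp (nat_lit 9) t51))))))))))))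
noncomputable def l24383 : Lb := (@Lb.r r21 (@Lb.d (nat_lit 1) (nat_lit 264) (nat_lit 130) (@Lb.g g8 (@Lb.g g10 (@Lb.g g11 (@Lb.r r1451 (@Lb.r r2581 (@Lb.r r1384 (@Lb.r r150 (@Lb.d (nat_lit 33) (nat_lit 154) (nat_lit 660) (@Lb.t (@Lb.fm (nat_lit 9) t51))))))))))))
noncomputable def l24384 : Lb := (@Lb.r r21 (@Lb.r r70 (@Lb.d (nat_lit 130) (nat_lit 256) (nat_lit 128) (@Lb.g g8 (@Lb.g g11 (@Lb.r r1419 (@Lb.r r402 (@Lb.r r97 (@Lb.d (nat_lit 581) (nat_lit 66) (nat_lit 512) (@Lb.fm (nat_lit 3) t644))))))))))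
noncomputable def l24385 : Lb := (@Lb.r r580 (@Lb.r r593 (@Lb.d (nat_lit 0) (nat_lit 256) (nat_lit 25) (@Lb.g g6 (@Lb.g g11 (@Lb.r r1633 (@Lb.r r1707 (@Lb.r r2632 (@Lb.d (nat_lit 293) (nat_lit 10) (nat_lit 69) (@Lb.fm (nat_lit 3) t125))))))))))
noncomputable def l24386 : Lb := (@Lb.g g7 (@Lb.r r101 (@Lb.r r24 (@Lb.d (nat_lit 354) (nat_lit 0) (nat_lit 645) (@Lb.t (@Lb.fm (nat_lit 3) t166))))))
noncomputable def l24387 : Lb := (@Lb.d (nat_lit 0) (nat_lit 266) (nat_lit 10) (@Lb.g g5 (@Lb.g g10 (@Lb.g g11 (@Lb.r r578 (@Lb.r r579 (@Lb.d (nat_lit 0) (nat_lit 0) (nat_lit 5) (@Lb.t (@Lb.fm (nat_lit 9) t5)))))))))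
noncomputable def l24388 : Lb := (@Lb.d (nat_lit 6) (nat_lit 280) (nat_lit 534) (@Lb.r r1361 (@Lb.r r2471 (@Lb.r r612 (@Lb.r r346 (@Lb.g g7 (@Lb.g g6 (@Lb.g g5 (@Lb.d (nat_lit 4) (nat_lit 1) (nat_lit 65) (@Lb.t (@Lb.fp (nat_lit 9) t3967)))))))))))
noncomputable def l24389 : Lb := (@Lb.d (nat_lit 161) (nat_lit 136) (nat_lit 534) (@Lb.r r72 (@Lb.r r386 (@Lb.r r599 (@Lb.g g6 (@Lb.g g5 (@Lb.g g4 (@Lb.d (nat_lit 65) (nat_lit 17) (nat_lit 1) (@Lb.t (@Lb.fm (nat_lit 9) t4720))))))))))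
noncomputable def l24390 : Lb := (@Lb.r r355 (@Lb.d (nat_lit 1) (nat_lit 8) (nat_lit 2) (@Lb.g g8 (@Lb.g g9 (@Lb.g g10 (@Lb.r r683 (@Lb.r r1642 (@Lb.r r2649 (@Lb.d (nat_lit 362) (nat_lit 37) (nat_lit 9) (@Lb.t (@Lb.fp (nat_lit 9) t919)))))))))))
noncomputable def l24391 : Lb := (@Lb.d (nat_lit 129) (nat_lit 5) (nat_lit 258) (@Lb.r r2341 (@Lb.r r1624 (@Lb.r r1371 (@Lb.g g7 (@Lb.g g6 (@Lb.g g5 (@Lb.d (nat_lit 20) (nat_lit 1) (nat_lit 166) (@Lb.t (@Lb.fp (nat_lit 9) t4721))))))))))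
noncomputable def l24392 : Lb := (@Lb.d (nat_lit 640) (nat_lit 545) (nat_lit 0) (@Lb.g g4 (@Lb.g g9 (@Lb.r r2579 (@Lb.r r2178 (@Lb.r r409 (@Lb.d (nat_lit 152) (nat_lit 85) (nat_lit 402) (@Lb.fp (nat_lit 3) t1624))))))))
noncomputable def l24393 : Lb := (@Lb.d (nat_lit 0) (nat_lit 34) (nat_lit 128) (@Lb.r r402 (@Lb.g g11 (@Lb.g g9 (@Lb.g g4 (@Lb.d (nat_lit 1) (nat_lit 0) (nat_lit 0) (@Lb.t (@Lb.fm (nat_lit 9) t1761))))))))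
noncomputable def l24394 : Lb := (@Lb.d (nat_lit 0) (nat_lit 544) (nat_lit 128) (@Lb.r r402 (@Lb.g g11 (@Lb.g g4 (@Lb.d (nat_lit 5) (nat_lit 0) (nat_lit 0) (@Lb.fm (nat_lit 3) t369))))))
noncomputable def l24395 : Lb := (@Lb.d (nat_lit 0) (nat_lit 514) (nat_lit 0) (@Lb.g g4 (@Lb.g g9 (@Lb.g g11 (@Lb.r r37 (@Lb.d (nat_lit 1) (nat_lit 4) (nat_lit 1) (@Lb.t (@Lb.fm (nat_lit 9) t45))))))))
noncomputable def l24396 : Lb := (@Lb.r r81 (@Lb.d (nat_lit 0) (nat_lit 516) (nat_lit 138) (@Lb.g g4 (@Lb.g g10 (@Lb.g g11 (@Lb.r r1447 (@Lb.r r37 (@Lb.d (nat_lit 8) (nat_lit 20) (nat_lit 296) (@Lb.t (@Lb.fm (nat_lit 9) t2374))))))))))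
noncomputable def l24397 : Lb := (@Lb.d (nat_lit 2) (nat_lit 513) (nat_lit 0) (@Lb.g g8 (@Lb.g g9 (@Lb.r r2089 (@Lb.r r36 (@Lb.d (nat_lit 258) (nat_lit 0) (nat_lit 0) (@Lb.fp (nat_lit 3) t2)))))))
noncomputable def l24398 : Lb := (@Lb.d (nat_lit 2) (nat_lit 289) (nat_lit 130) (@Lb.g g8 (@Lb.g g9 (@Lb.g g10 (@Lb.g g11 (@Lb.r r683 (@Lb.r r1700 (@Lb.r r1190 (@Lb.r r1061 (@Lb.d (nat_lit 9) (nat_lit 132) (nat_lit 33) (@Lb.fm (nat_lit 9) t1640)))))))))))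
noncomputable def l24399 : Lb := (@Lb.d (nat_lit 2) (nat_lit 40) (nat_lit 65) (@Lb.g g8 (@Lb.g g9 (@Lb.g g10 (@Lb.g g11 (@Lb.r r2218 (@Lb.r r580 (@Lb.r r1687 (@Lb.r r1429 (@Lb.r r1044 (@Lb.d (nat_lit 326) (nat_lit 101) (nat_lit 520) (@Lb.fp (nat_lit 9) t4722))))))))))))
noncomputable def l24400 : Lb := (@Lb.d (nat_lit 294) (nat_lit 5) (nat_lit 145) (@Lb.r r1176 (@Lb.r r2133 (@Lb.r r426 (@Lb.g g11 (@Lb.g g5 (@Lb.g g4 (@Lb.d (nat_lit 66) (nat_lit 1) (nat_lit 648) (@Lb.r r578 (@Lb.t (@Lb.fm (nat_lit 9) t502)))))))))))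
noncomputable def l24401 : Lb := (@Lb.d (nat_lit 2) (nat_lit 8) (nat_lit 130) (@Lb.g g8 (@Lb.g g10 (@Lb.g g11 (@Lb.r r387 (@Lb.r r101 (@Lb.d (nat_lit 2) (nat_lit 88) (nat_lit 422) (@Lb.t (@Lb.fp (nat_lit 9) t1080)))))))))
noncomputable def l24402 : Lb := (@Lb.r r21 (@Lb.d (nat_lit 646) (nat_lit 256) (nat_lit 64) (@Lb.g g4 (@Lb.g g11 (@Lb.r r519 (@Lb.r r25 (@Lb.d (nat_lit 393) (nat_lit 0) (nat_lit 64) (@Lb.fm (nat_lit 3) t1431))))))))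
noncomputable def l24403 : Lb := (@Lb.d (nat_lit 2) (nat_lit 544) (nat_lit 128) (@Lb.g g8 (@Lb.g g9 (@Lb.g g11 (@Lb.r r390 (@Lb.r r2627 (@Lb.r r420 (@Lb.r r341 (@Lb.d (nat_lit 390) (nat_lit 144) (nat_lit 80) (@Lb.t (@Lb.fm (nat_lit 9) t4723)))))))))))
noncomputable def l24404 : Lb := (@Lb.d (nat_lit 1) (nat_lit 389) (nat_lit 33) (@Lb.r r597 (@Lb.r r279 (@Lb.r r584 (@Lb.r r326 (@Lb.g g7 (@Lb.g g6 (@Lb.d (nat_lit 0) (nat_lit 0) (nat_lit 129) (@Lb.fp (nat_lit 3) t521)))))))))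
noncomputable def l24405 : Lb := (@Lb.d (nat_lit 530) (nat_lit 264) (nat_lit 164) (@Lb.r r81 (@Lb.r r102 (@Lb.r r2407 (@Lb.r r337 (@Lb.g g7 (@Lb.g g6 (@Lb.g g5 (@Lb.g g8 (@Lb.d (nat_lit 330) (nat_lit 0) (nat_lit 65) (@Lb.fm (nat_lit 9) t1774)))))))))))
noncomputable def l24406 : Lb := (@Lb.r r609 (@Lb.r r548 (@Lb.r r295 (@Lb.r r390 (@Lb.r r516 (@Lb.d (nat_lit 17) (nat_lit 266) (nat_lit 2) (@Lb.fp (nat_lit 1) t40)))))))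
noncomputable def l24407 : Lb := (@Lb.r r21 (@Lb.d (nat_lit 650) (nat_lit 512) (nat_lit 130) (@Lb.g g8 (@Lb.g g10 (@Lb.g g11 (@Lb.r r2443 (@Lb.r r90 (@Lb.r r37 (@Lb.d (nat_lit 146) (nat_lit 22) (nat_lit 665) (@Lb.t (@Lb.fp (nat_lit 9) t842)))))))))))
noncomputable def l24408 : Lb := (@Lb.d (nat_lit 2) (nat_lit 514) (nat_lit 2) (@Lb.g g8 (@Lb.g g9 (@Lb.g g10 (@Lb.g g11 (@Lb.r r2666 (@Lb.r r579 (@Lb.r r25 (@Lb.d (nat_lit 9) (nat_lit 97) (nat_lit 586) (@Lb.fm (nat_lit 9) t51))))))))))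
noncomputable def l24409 : Lb := (@Lb.d (nat_lit 0) (nat_lit 521) (nat_lit 73) (@Lb.g g9 (@Lb.g g10 (@Lb.g g11 (@Lb.r r643 (@Lb.r r536 (@Lb.r r613 (@Lb.r r666 (@Lb.r r132 (@Lb.d (nat_lit 421) (nat_lit 33) (nat_lit 586) (@Lb.t (@Lb.fm (nat_lit 9) t283))))))))))))
noncomputable def l24410 : Lb := (@Lb.d (nat_lit 2) (nat_lit 521) (nat_lit 1) (@Lb.g g8 (@Lb.g g9 (@Lb.g g10 (@Lb.r r683 (@Lb.r r2666 (@Lb.r r2585 (@Lb.r r2564 (@Lb.d (nat_lit 649) (nat_lit 9) (nat_lit 417) (@Lb.t (@Lb.fp (nat_lit 9) t489)))))))))))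
noncomputable def l24411 : Lb := (@Lb.d (nat_lit 2) (nat_lit 265) (nat_lit 1) (@Lb.g g8 (@Lb.g g9 (@Lb.g g10 (@Lb.r r683 (@Lb.r r2666 (@Lb.r r2585 (@Lb.r r2564 (@Lb.d (nat_lit 650) (nat_lit 9) (nat_lit 417) (@Lb.t (@Lb.fp (nat_lit 9) t4724)))))))))))
noncomputable def l24412 : Lb := (@Lb.d (nat_lit 16) (nat_lit 516) (nat_lit 72) (@Lb.g g8 (@Lb.g g9 (@Lb.g g10 (@Lb.g g11 (@Lb.r r1667 (@Lb.r r1321 (@Lb.r r360 (@Lb.r r1606 (@Lb.r r132 (@Lb.d (nat_lit 385) (nat_lit 138) (nat_lit 601) (@Lb.fm (nat_lit 9) t4725))))))))))))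
noncomputable def l24413 : Lb := (@Lb.d (nat_lit 2) (nat_lit 521) (nat_lit 40) (@Lb.g g8 (@Lb.g g9 (@Lb.g g6 (@Lb.g g11 (@Lb.r r601 (@Lb.r r2323 (@Lb.r r2577 (@Lb.r r2564 (@Lb.d (nat_lit 161) (nat_lit 129) (nat_lit 416) (@Lb.fm (nat_lit 9) t1458)))))))))))
noncomputable def l24414 : Lb := (@Lb.r r323 (@Lb.d (nat_lit 137) (nat_lit 8) (nat_lit 17) (@Lb.g g8 (@Lb.g g9 (@Lb.g g6 (@Lb.r r2455 (@Lb.r r97 (@Lb.r r1540 (@Lb.d (nat_lit 388) (nat_lit 136) (nat_lit 640) (@Lb.t (@Lb.fm (nat_lit 9) t916)))))))))))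
noncomputable def l24415 : Lb := (@Lb.r r70 (@Lb.r r263 (@Lb.d (nat_lit 0) (nat_lit 578) (nat_lit 0) (@Lb.g g8 (@Lb.g g9 (@Lb.r r2347 (@Lb.r r2442 (@Lb.r r2084 (@Lb.d (nat_lit 610) (nat_lit 102) (nat_lit 613) (@Lb.fp (nat_lit 3) t3081))))))))))
noncomputable def l24416 : Lb := (@Lb.d (nat_lit 618) (nat_lit 153) (nat_lit 598) (@Lb.r r2474 (@Lb.r r2457 (@Lb.r r1447 (@Lb.r r2628 (@Lb.g g7 (@Lb.g g6 (@Lb.g g5 (@Lb.d (nat_lit 0) (nat_lit 0) (nat_lit 8) (@Lb.t (@Lb.fm (nat_lit 9) t469)))))))))))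
noncomputable def l24417 : Lb := (@Lb.d (nat_lit 9) (nat_lit 545) (nat_lit 130) (@Lb.g g8 (@Lb.g g9 (@Lb.g g10 (@Lb.g g11 (@Lb.r r1194 (@Lb.r r1444 (@Lb.r r2331 (@Lb.r r2085 (@Lb.d (nat_lit 69) (nat_lit 33) (nat_lit 586) (@Lb.fp (nat_lit 9) t1225)))))))))))
noncomputable def l24418 : Lb := (@Lb.d (nat_lit 8) (nat_lit 9) (nat_lit 72) (@Lb.g g9 (@Lb.g g10 (@Lb.g g11 (@Lb.r r2726 (@Lb.r r328 (@Lb.r r535 (@Lb.r r289 (@Lb.d (nat_lit 641) (nat_lit 25) (nat_lit 66) (@Lb.t (@Lb.fm (nat_lit 9) t1234)))))))))))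
noncomputable def l24419 : Lb := (@Lb.d (nat_lit 104) (nat_lit 84) (nat_lit 656) (@Lb.r r1433 (@Lb.r r410 (@Lb.r r152 (@Lb.g g11 (@Lb.g g5 (@Lb.d (nat_lit 68) (nat_lit 5) (nat_lit 512) (@Lb.fp (nat_lit 3) t188))))))))
noncomputable def l24420 : Lb := (@Lb.d (nat_lit 648) (nat_lit 593) (nat_lit 576) (@Lb.r r1362 (@Lb.r r531 (@Lb.r r2337 (@Lb.g g7 (@Lb.g g4 (@Lb.d (nat_lit 1) (nat_lit 16) (nat_lit 128) (@Lb.fm (nat_lit 3) t4027))))))))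
noncomputable def l24421 : Lb := (@Lb.r r82 (@Lb.d (nat_lit 9) (nat_lit 393) (nat_lit 128) (@Lb.g g8 (@Lb.g g5 (@Lb.g g11 (@Lb.r r532 (@Lb.r r2311 (@Lb.r r98 (@Lb.r r1540 (@Lb.d (nat_lit 1) (nat_lit 162) (nat_lit 673) (@Lb.t (@Lb.fp (nat_lit 9) t2083))))))))))))
noncomputable def l24422 : Lb := (@Lb.d (nat_lit 33) (nat_lit 0) (nat_lit 0) (@Lb.g g8 (@Lb.r r2411 (@Lb.r r598 (@Lb.r r2457 (@Lb.r r388 (@Lb.d (nat_lit 361) (nat_lit 66) (nat_lit 154) (@Lb.t (@Lb.fp (nat_lit 3) t2503)))))))))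
noncomputable def l24423 : Lb := (@Lb.d (nat_lit 10) (nat_lit 265) (nat_lit 34) (@Lb.r r97 (@Lb.r r1106 (@Lb.r r1299 (@Lb.g g5 (@Lb.d (nat_lit 0) (nat_lit 1) (nat_lit 0) (@Lb.t (@Lb.fp (nat_lit 3) t216))))))))
noncomputable def l24424 : Lb := (@Lb.d (nat_lit 8) (nat_lit 1) (nat_lit 0) (@Lb.g g9 (@Lb.r r88 (@Lb.r r422 (@Lb.r r37 (@Lb.d (nat_lit 150) (nat_lit 153) (nat_lit 9) (@Lb.t (@Lb.fm (nat_lit 3) t4374))))))))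
noncomputable def l24425 : Lb := (@Lb.r r21 (@Lb.d (nat_lit 33) (nat_lit 512) (nat_lit 136) (@Lb.g g8 (@Lb.g g10 (@Lb.g g11 (@Lb.r r651 (@Lb.r r1556 (@Lb.r r153 (@Lb.r r602 (@Lb.d (nat_lit 393) (nat_lit 101) (nat_lit 406) (@Lb.t (@Lb.fp (nat_lit 9) t428))))))))))))
noncomputable def l24426 : Lb := (@Lb.r r21 (@Lb.d (nat_lit 33) (nat_lit 264) (nat_lit 161) (@Lb.g g8 (@Lb.g g6 (@Lb.g g11 (@Lb.r r2651 (@Lb.r r2453 (@Lb.r r1608 (@Lb.d (nat_lit 408) (nat_lit 101) (nat_lit 280) (@Lb.t (@Lb.fp (nat_lit 9) t1762)))))))))))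
noncomputable def l24427 : Lb := (@Lb.d (nat_lit 72) (nat_lit 66) (nat_lit 386) (@Lb.r r1192 (@Lb.r r665 (@Lb.r r595 (@Lb.g g6 (@Lb.g g5 (@Lb.g g4 (@Lb.d (nat_lit 66) (nat_lit 17) (nat_lit 33) (@Lb.r r387 (@Lb.t (@Lb.fp (nat_lit 9) t1916)))))))))))
noncomputable def l24428 : Lb := (@Lb.d (nat_lit 2) (nat_lit 353) (nat_lit 0) (@Lb.g g8 (@Lb.g g5 (@Lb.r r322 (@Lb.r r1667 (@Lb.r r578 (@Lb.r r24 (@Lb.d (nat_lit 5) (nat_lit 9) (nat_lit 18) (@Lb.fp (nat_lit 3) t40)))))))))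
noncomputable def l24429 : Lb := (@Lb.d (nat_lit 2) (nat_lit 258) (nat_lit 130) (@Lb.g g8 (@Lb.g g9 (@Lb.g g10 (@Lb.g g11 (@Lb.r r610 (@Lb.r r1607 (@Lb.r r2457 (@Lb.r r2436 (@Lb.d (nat_lit 665) (nat_lit 9) (nat_lit 408) (@Lb.fm (nat_lit 9) t2487)))))))))))
noncomputable def l24430 : Lb := (@Lb.d (nat_lit 128) (nat_lit 512) (nat_lit 128) (@Lb.g g11 (@Lb.r r264 (@Lb.r r519 (@Lb.r r402 (@Lb.r r537 (@Lb.d (nat_lit 2) (nat_lit 133) (nat_lit 328) (@Lb.t (@Lb.fm (nat_lit 3) t2509)))))))))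
noncomputable def l24431 : Lb := (@Lb.d (nat_lit 2) (nat_lit 2) (nat_lit 130) (@Lb.g g8 (@Lb.g g9 (@Lb.g g10 (@Lb.g g11 (@Lb.r r427 (@Lb.r r2466 (@Lb.r r420 (@Lb.r r2469 (@Lb.d (nat_lit 613) (nat_lit 98) (nat_lit 258) (@Lb.fp (nat_lit 9) t4726)))))))))))
noncomputable def l24432 : Lb := (@Lb.d (nat_lit 128) (nat_lit 0) (nat_lit 128) (@Lb.g g11 (@Lb.r r264 (@Lb.r r519 (@Lb.r r402 (@Lb.r r537 (@Lb.d (nat_lit 2) (nat_lit 128) (nat_lit 330) (@Lb.t (@Lb.fm (nat_lit 3) t2509)))))))))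
noncomputable def l24433 : Lb := (@Lb.r r154 (@Lb.r r660 (@Lb.r r407 (@Lb.r r609 (@Lb.d (nat_lit 2) (nat_lit 145) (nat_lit 138) (@Lb.fp (nat_lit 1) t44))))))
noncomputable def l24434 : Lb := (@Lb.r r322 (@Lb.d (nat_lit 4) (nat_lit 2) (nat_lit 576) (@Lb.g g9 (@Lb.g g7 (@Lb.r r660 (@Lb.r r358 (@Lb.r r337 (@Lb.d (nat_lit 0) (nat_lit 161) (nat_lit 517) (@Lb.fp (nat_lit 3) t259)))))))))
noncomputable def l24435 : Lb := (@Lb.r r275 (@Lb.d (nat_lit 0) (nat_lit 260) (nat_lit 0) (@Lb.g g9 (@Lb.g g10 (@Lb.r r1697 (@Lb.r r291 (@Lb.r r98 (@Lb.d (nat_lit 0) (nat_lit 5) (nat_lit 549) (@Lb.fp (nat_lit 3) t254)))))))))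
noncomputable def l24436 : Lb := (@Lb.r r275 (@Lb.d (nat_lit 0) (nat_lit 4) (nat_lit 0) (@Lb.g g9 (@Lb.g g10 (@Lb.r r1697 (@Lb.r r291 (@Lb.r r98 (@Lb.d (nat_lit 0) (nat_lit 10) (nat_lit 550) (@Lb.fp (nat_lit 3) t144)))))))))
noncomputable def l24437 : Lb := (@Lb.d (nat_lit 10) (nat_lit 32) (nat_lit 4) (@Lb.g g8 (@Lb.g g10 (@Lb.g g11 (@Lb.r r1618 (@Lb.r r149 (@Lb.r r2340 (@Lb.r r587 (@Lb.d (nat_lit 97) (nat_lit 90) (nat_lit 392) (@Lb.t (@Lb.fp (nat_lit 9) t100)))))))))))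
noncomputable def l24438 : Lb := (@Lb.r r323 (@Lb.d (nat_lit 0) (nat_lit 264) (nat_lit 2) (@Lb.g g9 (@Lb.g g10 (@Lb.r r2386 (@Lb.r r387 (@Lb.r r1681 (@Lb.d (nat_lit 0) (nat_lit 10) (nat_lit 550) (@Lb.fm (nat_lit 3) t144)))))))))
noncomputable def l24439 : Lb := (@Lb.d (nat_lit 8) (nat_lit 272) (nat_lit 585) (@Lb.g g9 (@Lb.g g10 (@Lb.g g7 (@Lb.r r1122 (@Lb.r r2072 (@Lb.r r1125 (@Lb.d (nat_lit 277) (nat_lit 106) (nat_lit 404) (@Lb.t (@Lb.fp (nat_lit 9) t4727))))))))))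
noncomputable def l24440 : Lb := (@Lb.g g9 (@Lb.g g6 (@Lb.r r1543 (@Lb.r r1384 (@Lb.r r2198 (@Lb.r r2201 (@Lb.d (nat_lit 328) (nat_lit 580) (nat_lit 529) (@Lb.fm (nat_lit 3) t4212))))))))
noncomputable def l24441 : Lb := (@Lb.d (nat_lit 401) (nat_lit 600) (nat_lit 650) (@Lb.r r1604 (@Lb.r r402 (@Lb.r r2153 (@Lb.g g5 (@Lb.g g4 (@Lb.d (nat_lit 0) (nat_lit 1) (nat_lit 0) (@Lb.fm (nat_lit 3) t4728))))))))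
noncomputable def l24442 : Lb := (@Lb.d (nat_lit 26) (nat_lit 100) (nat_lit 106) (@Lb.r r104 (@Lb.r r273 (@Lb.r r363 (@Lb.g g10 (@Lb.g g5 (@Lb.g g4 (@Lb.d (nat_lit 65) (nat_lit 9) (nat_lit 37) (@Lb.t (@Lb.fp (nat_lit 9) t4729))))))))))
noncomputable def l24443 : Lb := (@Lb.d (nat_lit 402) (nat_lit 344) (nat_lit 650) (@Lb.r r1604 (@Lb.r r402 (@Lb.r r2153 (@Lb.g g5 (@Lb.g g4 (@Lb.d (nat_lit 0) (nat_lit 1) (nat_lit 0) (@Lb.fm (nat_lit 3) t4728))))))))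
noncomputable def l24444 : Lb := (@Lb.r r82 (@Lb.d (nat_lit 8) (nat_lit 422) (nat_lit 0) (@Lb.g g9 (@Lb.r r386 (@Lb.r r24 (@Lb.d (nat_lit 288) (nat_lit 2) (nat_lit 545) (@Lb.t (@Lb.fp (nat_lit 3) t4730))))))))
noncomputable def l24445 : Lb := (@Lb.d (nat_lit 134) (nat_lit 592) (nat_lit 513) (@Lb.r r90 (@Lb.r r72 (@Lb.r r667 (@Lb.g g7 (@Lb.g g6 (@Lb.g g9 (@Lb.d (nat_lit 16) (nat_lit 146) (nat_lit 65) (@Lb.t (@Lb.fm (nat_lit 9) t4069))))))))))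
noncomputable def l24446 : Lb := (@Lb.d (nat_lit 32) (nat_lit 585) (nat_lit 9) (@Lb.g g5 (@Lb.g g10 (@Lb.r r587 (@Lb.r r580 (@Lb.r r362 (@Lb.d (nat_lit 289) (nat_lit 136) (nat_lit 262) (@Lb.fm (nat_lit 3) t2924))))))))
noncomputable def l24447 : Lb := (@Lb.d (nat_lit 10) (nat_lit 512) (nat_lit 128) (@Lb.g g8 (@Lb.g g11 (@Lb.r r2370 (@Lb.r r1435 (@Lb.r r2581 (@Lb.r r292 (@Lb.d (nat_lit 74) (nat_lit 170) (nat_lit 161) (@Lb.fm (nat_lit 3) t680)))))))))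
noncomputable def l24448 : Lb := (@Lb.r r82 (@Lb.r r275 (@Lb.d (nat_lit 10) (nat_lit 2) (nat_lit 0) (@Lb.g g8 (@Lb.g g9 (@Lb.r r2315 (@Lb.r r1188 (@Lb.r r2213 (@Lb.r r98 (@Lb.d (nat_lit 42) (nat_lit 6) (nat_lit 18) (@Lb.fp (nat_lit 3) t1532)))))))))))
noncomputable def l24449 : Lb := (@Lb.d (nat_lit 34) (nat_lit 260) (nat_lit 128) (@Lb.g g8 (@Lb.g g9 (@Lb.g g10 (@Lb.g g11 (@Lb.r r1707 (@Lb.r r657 (@Lb.r r356 (@Lb.r r1690 (@Lb.r r1156 (@Lb.d (nat_lit 73) (nat_lit 34) (nat_lit 289) (@Lb.fp (nat_lit 9) t4626))))))))))))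
noncomputable def l24450 : Lb := (@Lb.d (nat_lit 0) (nat_lit 8) (nat_lit 1) (@Lb.g g10 (@Lb.r r2311 (@Lb.r r105 (@Lb.r r1128 (@Lb.r r2646 (@Lb.d (nat_lit 662) (nat_lit 66) (nat_lit 16) (@Lb.t (@Lb.fp (nat_lit 3) t3831)))))))))
noncomputable def l24451 : Lb := (@Lb.r r70 (@Lb.r r263 (@Lb.d (nat_lit 0) (nat_lit 550) (nat_lit 0) (@Lb.g g8 (@Lb.g g9 (@Lb.r r599 (@Lb.r r2442 (@Lb.r r264 (@Lb.d (nat_lit 400) (nat_lit 2) (nat_lit 129) (@Lb.fp (nat_lit 3) t395))))))))))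
noncomputable def l24452 : Lb := (@Lb.r r322 (@Lb.d (nat_lit 64) (nat_lit 2) (nat_lit 584) (@Lb.g g8 (@Lb.g g9 (@Lb.g g11 (@Lb.r r104 (@Lb.r r150 (@Lb.r r25 (@Lb.d (nat_lit 522) (nat_lit 4) (nat_lit 32) (@Lb.t (@Lb.fm (nat_lit 9) t1900)))))))))))
noncomputable def l24453 : Lb := (@Lb.d (nat_lit 0) (nat_lit 256) (nat_lit 128) (@Lb.g g10 (@Lb.g g11 (@Lb.r r2695 (@Lb.r r1606 (@Lb.r r1557 (@Lb.r r1288 (@Lb.d (nat_lit 609) (nat_lit 0) (nat_lit 529) (@Lb.fm (nat_lit 3) t2576)))))))))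
noncomputable def l24454 : Lb := (@Lb.r r21 (@Lb.d (nat_lit 18) (nat_lit 256) (nat_lit 128) (@Lb.g g4 (@Lb.g g10 (@Lb.g g11 (@Lb.r r2567 (@Lb.r r402 (@Lb.r r97 (@Lb.d (nat_lit 128) (nat_lit 33) (nat_lit 320) (@Lb.t (@Lb.fm (nat_lit 9) t512)))))))))))
noncomputable def l24455 : Lb := (@Lb.d (nat_lit 272) (nat_lit 0) (nat_lit 33) (@Lb.r r2641 (@Lb.r r603 (@Lb.r r516 (@Lb.r r2698 (@Lb.g g7 (@Lb.d (nat_lit 64) (nat_lit 0) (nat_lit 64) (@Lb.t (@Lb.fm (nat_lit 3) t395)))))))))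
noncomputable def l24456 : Lb := (@Lb.d (nat_lit 32) (nat_lit 294) (nat_lit 0) (@Lb.g g8 (@Lb.g g9 (@Lb.r r150 (@Lb.r r340 (@Lb.d (nat_lit 24) (nat_lit 168) (nat_lit 4) (@Lb.fp (nat_lit 3) t240)))))))
noncomputable def l24457 : Lb := (@Lb.d (nat_lit 128) (nat_lit 512) (nat_lit 129) (@Lb.g g9 (@Lb.g g10 (@Lb.g g11 (@Lb.r r264 (@Lb.r r519 (@Lb.r r153 (@Lb.r r90 (@Lb.d (nat_lit 408) (nat_lit 10) (nat_lit 161) (@Lb.t (@Lb.fm (nat_lit 9) t2477)))))))))))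
noncomputable def l24458 : Lb := (@Lb.d (nat_lit 2) (nat_lit 2) (nat_lit 2) (@Lb.g g8 (@Lb.g g9 (@Lb.g g10 (@Lb.g g11 (@Lb.r r2666 (@Lb.r r579 (@Lb.r r25 (@Lb.d (nat_lit 4) (nat_lit 96) (nat_lit 586) (@Lb.fm (nat_lit 9) t51))))))))))
noncomputable def l24459 : Lb := (@Lb.d (nat_lit 645) (nat_lit 256) (nat_lit 128) (@Lb.r r2584 (@Lb.g g7 (@Lb.g g9 (@Lb.g g4 (@Lb.d (nat_lit 8) (nat_lit 146) (nat_lit 128) (@Lb.r r1602 (@Lb.t (@Lb.fp (nat_lit 9) t4731)))))))))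
noncomputable def l24460 : Lb := (@Lb.d (nat_lit 2) (nat_lit 2) (nat_lit 2) (@Lb.g g8 (@Lb.g g9 (@Lb.g g10 (@Lb.r r2585 (@Lb.r r595 (@Lb.r r386 (@Lb.d (nat_lit 533) (nat_lit 165) (nat_lit 162) (@Lb.t (@Lb.fm (nat_lit 9) t1961))))))))))
noncomputable def l24461 : Lb := (@Lb.d (nat_lit 2) (nat_lit 34) (nat_lit 65) (@Lb.g g8 (@Lb.g g9 (@Lb.g g10 (@Lb.g g11 (@Lb.r r1626 (@Lb.r r2659 (@Lb.r r2073 (@Lb.d (nat_lit 658) (nat_lit 69) (nat_lit 73) (@Lb.fm (nat_lit 9) t2095))))))))))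
noncomputable def l24462 : Lb := (@Lb.d (nat_lit 6) (nat_lit 256) (nat_lit 130) (@Lb.g g8 (@Lb.g g9 (@Lb.g g10 (@Lb.g g11 (@Lb.r r610 (@Lb.r r1607 (@Lb.r r2344 (@Lb.r r25 (@Lb.d (nat_lit 2) (nat_lit 36) (nat_lit 646) (@Lb.fp (nat_lit 9) t3471)))))))))))
noncomputable def l24463 : Lb := (@Lb.d (nat_lit 2) (nat_lit 2) (nat_lit 10) (@Lb.g g8 (@Lb.g g9 (@Lb.g g10 (@Lb.r r1623 (@Lb.r r2193 (@Lb.r r340 (@Lb.r r602 (@Lb.d (nat_lit 264) (nat_lit 66) (nat_lit 66) (@Lb.t (@Lb.fp (nat_lit 9) t2387)))))))))))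
noncomputable def l24464 : Lb := (@Lb.d (nat_lit 130) (nat_lit 2) (nat_lit 2) (@Lb.g g8 (@Lb.g g9 (@Lb.g g10 (@Lb.r r1699 (@Lb.r r1194 (@Lb.r r2393 (@Lb.r r2392 (@Lb.d (nat_lit 68) (nat_lit 8) (nat_lit 384) (@Lb.t (@Lb.fp (nat_lit 9) t4732)))))))))))
noncomputable def l24465 : Lb := (@Lb.d (nat_lit 0) (nat_lit 36) (nat_lit 128) (@Lb.g g9 (@Lb.g g10 (@Lb.g g11 (@Lb.r r387 (@Lb.r r1177 (@Lb.r r2458 (@Lb.r r24 (@Lb.d (nat_lit 593) (nat_lit 0) (nat_lit 169) (@Lb.t (@Lb.fm (nat_lit 9) t2504)))))))))))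
noncomputable def l24466 : Lb := (@Lb.d (nat_lit 0) (nat_lit 42) (nat_lit 9) (@Lb.r r1121 (@Lb.r r1426 (@Lb.g g11 (@Lb.g g5 (@Lb.d (nat_lit 0) (nat_lit 4) (nat_lit 384) (@Lb.r r610 (@Lb.fp (nat_lit 3) t661))))))))
noncomputable def l24467 : Lb := (@Lb.d (nat_lit 8) (nat_lit 281) (nat_lit 4) (@Lb.g g9 (@Lb.g g10 (@Lb.g g11 (@Lb.r r2708 (@Lb.r r2455 (@Lb.r r2658 (@Lb.r r1561 (@Lb.d (nat_lit 102) (nat_lit 34) (nat_lit 517) (@Lb.t (@Lb.fm (nat_lit 9) t4733)))))))))))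
noncomputable def l24468 : Lb := (@Lb.d (nat_lit 2) (nat_lit 537) (nat_lit 133) (@Lb.g g8 (@Lb.g g9 (@Lb.g g10 (@Lb.g g11 (@Lb.r r2411 (@Lb.r r1177 (@Lb.r r602 (@Lb.r r24 (@Lb.d (nat_lit 37) (nat_lit 80) (nat_lit 645) (@Lb.fm (nat_lit 9) t931)))))))))))
noncomputable def l24469 : Lb := (@Lb.d (nat_lit 2) (nat_lit 258) (nat_lit 10) (@Lb.g g8 (@Lb.g g9 (@Lb.g g10 (@Lb.r r1623 (@Lb.r r2193 (@Lb.r r340 (@Lb.r r602 (@Lb.d (nat_lit 264) (nat_lit 73) (nat_lit 65) (@Lb.t (@Lb.fp (nat_lit 9) t2387)))))))))))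
noncomputable def l24470 : Lb := (@Lb.d (nat_lit 0) (nat_lit 0) (nat_lit 88) (@Lb.g g9 (@Lb.g g6 (@Lb.g g11 (@Lb.r r2661 (@Lb.r r24 (@Lb.d (nat_lit 352) (nat_lit 0) (nat_lit 128) (@Lb.t (@Lb.fp (nat_lit 9) t3264)))))))))
noncomputable def l24471 : Lb := (@Lb.d (nat_lit 8) (nat_lit 34) (nat_lit 0) (@Lb.g g5 (@Lb.r r680 (@Lb.r r427 (@Lb.r r2178 (@Lb.r r1449 (@Lb.d (nat_lit 586) (nat_lit 89) (nat_lit 664) (@Lb.t (@Lb.fp (nat_lit 3) t1561)))))))))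
noncomputable def l24472 : Lb := (@Lb.d (nat_lit 128) (nat_lit 10) (nat_lit 129) (@Lb.g g9 (@Lb.g g10 (@Lb.g g11 (@Lb.r r166 (@Lb.r r264 (@Lb.r r599 (@Lb.r r289 (@Lb.d (nat_lit 26) (nat_lit 41) (nat_lit 66) (@Lb.t (@Lb.fm (nat_lit 9) t98)))))))))))
noncomputable def l24473 : Lb := (@Lb.r r263 (@Lb.d (nat_lit 24) (nat_lit 1) (nat_lit 0) (@Lb.g g8 (@Lb.g g9 (@Lb.g g10 (@Lb.r r1689 (@Lb.r r1691 (@Lb.r r2634 (@Lb.r r648 (@Lb.d (nat_lit 82) (nat_lit 0) (nat_lit 88) (@Lb.t (@Lb.fm (nat_lit 9) t329))))))))))))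
noncomputable def l24474 : Lb := (@Lb.r r81 (@Lb.d (nat_lit 146) (nat_lit 520) (nat_lit 82) (@Lb.g g8 (@Lb.g g6 (@Lb.g g11 (@Lb.r r2453 (@Lb.r r2339 (@Lb.r r2632 (@Lb.d (nat_lit 64) (nat_lit 17) (nat_lit 552) (@Lb.t (@Lb.fm (nat_lit 9) t4734)))))))))))
noncomputable def l24475 : Lb := (@Lb.r r82 (@Lb.d (nat_lit 645) (nat_lit 264) (nat_lit 128) (@Lb.g g4 (@Lb.g g9 (@Lb.g g11 (@Lb.r r1370 (@Lb.r r1411 (@Lb.r r1553 (@Lb.d (nat_lit 578) (nat_lit 98) (nat_lit 362) (@Lb.t (@Lb.fp (nat_lit 9) t1062)))))))))))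
noncomputable def l24476 : Lb := (@Lb.d (nat_lit 128) (nat_lit 256) (nat_lit 128) (@Lb.g g11 (@Lb.r r1114 (@Lb.r r260 (@Lb.r r603 (@Lb.r r1317 (@Lb.d (nat_lit 74) (nat_lit 73) (nat_lit 338) (@Lb.t (@Lb.fp (nat_lit 3) t3527)))))))))
noncomputable def l24477 : Lb := (@Lb.r r273 (@Lb.r r322 (@Lb.d (nat_lit 517) (nat_lit 0) (nat_lit 320) (@Lb.g g4 (@Lb.g g7 (@Lb.r r101 (@Lb.r r1426 (@Lb.d (nat_lit 1) (nat_lit 0) (nat_lit 4) (@Lb.fm (nat_lit 3) t3308)))))))))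
noncomputable def l24478 : Lb := (@Lb.d (nat_lit 10) (nat_lit 512) (nat_lit 2) (@Lb.g g8 (@Lb.g g10 (@Lb.r r293 (@Lb.r r1435 (@Lb.r r386 (@Lb.r r1112 (@Lb.d (nat_lit 41) (nat_lit 4) (nat_lit 552) (@Lb.fp (nat_lit 3) t2344)))))))))
noncomputable def l24479 : Lb := (@Lb.d (nat_lit 128) (nat_lit 512) (nat_lit 130) (@Lb.g g10 (@Lb.g g11 (@Lb.r r618 (@Lb.r r24 (@Lb.r r405 (@Lb.r r611 (@Lb.d (nat_lit 137) (nat_lit 25) (nat_lit 18) (@Lb.fm (nat_lit 3) t564)))))))))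
noncomputable def l24480 : Lb := (@Lb.d (nat_lit 0) (nat_lit 256) (nat_lit 130) (@Lb.g g10 (@Lb.g g11 (@Lb.r r614 (@Lb.r r404 (@Lb.r r619 (@Lb.r r609 (@Lb.d (nat_lit 9) (nat_lit 146) (nat_lit 64) (@Lb.fm (nat_lit 3) t71)))))))))
noncomputable def l24481 : Lb := (@Lb.d (nat_lit 361) (nat_lit 146) (nat_lit 133) (@Lb.r r392 (@Lb.r r583 (@Lb.r r1434 (@Lb.g g6 (@Lb.g g9 (@Lb.g g4 (@Lb.d (nat_lit 65) (nat_lit 18) (nat_lit 1) (@Lb.t (@Lb.fp (nat_lit 9) t4213))))))))))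
noncomputable def l24482 : Lb := (@Lb.d (nat_lit 0) (nat_lit 258) (nat_lit 130) (@Lb.g g8 (@Lb.g g9 (@Lb.g g10 (@Lb.g g11 (@Lb.r r610 (@Lb.r r404 (@Lb.r r619 (@Lb.r r97 (@Lb.r r516 (@Lb.d (nat_lit 9) (nat_lit 130) (nat_lit 2) (@Lb.fp (nat_lit 9) t44))))))))))))
noncomputable def l24483 : Lb := (@Lb.r r81 (@Lb.d (nat_lit 2) (nat_lit 256) (nat_lit 128) (@Lb.g g8 (@Lb.g g10 (@Lb.g g11 (@Lb.r r1419 (@Lb.r r1304 (@Lb.r r37 (@Lb.d (nat_lit 2) (nat_lit 72) (nat_lit 1) (@Lb.t (@Lb.fm (nat_lit 9) t1784)))))))))))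
noncomputable def l24484 : Lb := (@Lb.r r2122 (@Lb.r r100 (@Lb.r r21 (@Lb.r r2084 (@Lb.r r1283 (@Lb.d (nat_lit 0) (nat_lit 74) (nat_lit 2) (@Lb.fp (nat_lit 1) t4735)))))))
noncomputable def l24485 : Lb := (@Lb.d (nat_lit 152) (nat_lit 264) (nat_lit 73) (@Lb.g g8 (@Lb.g g9 (@Lb.g g10 (@Lb.g g11 (@Lb.r r599 (@Lb.r r1706 (@Lb.r r1636 (@Lb.r r2581 (@Lb.d (nat_lit 676) (nat_lit 41) (nat_lit 262) (@Lb.fp (nat_lit 9) t4736)))))))))))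
noncomputable def l24486 : Lb := (@Lb.d (nat_lit 33) (nat_lit 258) (nat_lit 128) (@Lb.g g8 (@Lb.g g9 (@Lb.g g11 (@Lb.r r406 (@Lb.r r1643 (@Lb.r r97 (@Lb.r r1560 (@Lb.d (nat_lit 650) (nat_lit 24) (nat_lit 294) (@Lb.t (@Lb.fm (nat_lit 9) t2583)))))))))))
noncomputable def l24487 : Lb := (@Lb.d (nat_lit 2) (nat_lit 258) (nat_lit 74) (@Lb.g g8 (@Lb.g g9 (@Lb.g g10 (@Lb.g g11 (@Lb.r r1451 (@Lb.r r98 (@Lb.r r292 (@Lb.r r2069 (@Lb.r r1060 (@Lb.d (nat_lit 33) (nat_lit 69) (nat_lit 0) (@Lb.fp (nat_lit 9) t1089))))))))))))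
noncomputable def l24488 : Lb := (@Lb.d (nat_lit 1) (nat_lit 288) (nat_lit 128) (@Lb.g g8 (@Lb.g g11 (@Lb.r r2712 (@Lb.r r293 (@Lb.r r2587 (@Lb.r r2178 (@Lb.d (nat_lit 96) (nat_lit 98) (nat_lit 402) (@Lb.fm (nat_lit 3) t1282)))))))))
noncomputable def l24489 : Lb := (@Lb.r r81 (@Lb.r r323 (@Lb.d (nat_lit 41) (nat_lit 0) (nat_lit 0) (@Lb.g g8 (@Lb.g g10 (@Lb.r r2331 (@Lb.r r37 (@Lb.d (nat_lit 2) (nat_lit 64) (nat_lit 0) (@Lb.fp (nat_lit 3) t4737)))))))))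
noncomputable def l24490 : Lb := (@Lb.d (nat_lit 1) (nat_lit 514) (nat_lit 130) (@Lb.g g8 (@Lb.g g9 (@Lb.g g10 (@Lb.g g11 (@Lb.r r1443 (@Lb.r r1414 (@Lb.r r97 (@Lb.r r24 (@Lb.d (nat_lit 149) (nat_lit 36) (nat_lit 612) (@Lb.fm (nat_lit 9) t2572)))))))))))
noncomputable def l24491 : Lb := (@Lb.r r327 (@Lb.d (nat_lit 546) (nat_lit 514) (nat_lit 0) (@Lb.g g8 (@Lb.g g9 (@Lb.g g10 (@Lb.r r427 (@Lb.r r98 (@Lb.r r25 (@Lb.d (nat_lit 276) (nat_lit 9) (nat_lit 2) (@Lb.t (@Lb.fm (nat_lit 9) t4738)))))))))))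
noncomputable def l24492 : Lb := (@Lb.g g4 (@Lb.r r2311 (@Lb.d (nat_lit 96) (nat_lit 0) (nat_lit 528) (@Lb.t (@Lb.fm (nat_lit 3) t1911)))))
noncomputable def l24493 : Lb := (@Lb.d (nat_lit 128) (nat_lit 32) (nat_lit 72) (@Lb.g g11 (@Lb.r r2410 (@Lb.r r361 (@Lb.r r1384 (@Lb.r r391 (@Lb.d (nat_lit 98) (nat_lit 34) (nat_lit 361) (@Lb.t (@Lb.fp (nat_lit 3) t680)))))))))
noncomputable def l24494 : Lb := (@Lb.r r81 (@Lb.d (nat_lit 2) (nat_lit 0) (nat_lit 74) (@Lb.g g8 (@Lb.g g10 (@Lb.g g11 (@Lb.r r1419 (@Lb.r r1304 (@Lb.r r37 (@Lb.d (nat_lit 2) (nat_lit 70) (nat_lit 0) (@Lb.t (@Lb.fm (nat_lit 9) t1784)))))))))))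
noncomputable def l24495 : Lb := (@Lb.g g4 (@Lb.r r2311 (@Lb.d (nat_lit 96) (nat_lit 512) (nat_lit 592) (@Lb.t (@Lb.fm (nat_lit 3) t973)))))
noncomputable def l24496 : Lb := (@Lb.d (nat_lit 8) (nat_lit 2) (nat_lit 0) (@Lb.g g9 (@Lb.g g10 (@Lb.g g7 (@Lb.r r426 (@Lb.r r20 (@Lb.r r105 (@Lb.d (nat_lit 98) (nat_lit 137) (nat_lit 322) (@Lb.t (@Lb.fp (nat_lit 9) t1628))))))))))
noncomputable def l24497 : Lb := (@Lb.r r70 (@Lb.d (nat_lit 133) (nat_lit 258) (nat_lit 0) (@Lb.g g8 (@Lb.g g9 (@Lb.r r2597 (@Lb.r r1575 (@Lb.r r1410 (@Lb.r r2328 (@Lb.d (nat_lit 394) (nat_lit 34) (nat_lit 581) (@Lb.fm (nat_lit 3) t70))))))))))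
noncomputable def l24498 : Lb := (@Lb.d (nat_lit 2) (nat_lit 38) (nat_lit 133) (@Lb.g g8 (@Lb.g g9 (@Lb.g g10 (@Lb.g g11 (@Lb.r r2666 (@Lb.r r1619 (@Lb.r r2073 (@Lb.r r24 (@Lb.d (nat_lit 401) (nat_lit 97) (nat_lit 586) (@Lb.fp (nat_lit 9) t1001)))))))))))
noncomputable def l24499 : Lb := (@Lb.d (nat_lit 128) (nat_lit 385) (nat_lit 64) (@Lb.g g9 (@Lb.g g11 (@Lb.r r264 (@Lb.r r519 (@Lb.r r1154 (@Lb.d (nat_lit 129) (nat_lit 129) (nat_lit 5) (@Lb.fp (nat_lit 3) t1514))))))))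
noncomputable def l24500 : Lb := (@Lb.d (nat_lit 1) (nat_lit 646) (nat_lit 1) (@Lb.g g8 (@Lb.g g9 (@Lb.g g10 (@Lb.r r411 (@Lb.r r1442 (@Lb.r r2120 (@Lb.d (nat_lit 546) (nat_lit 2) (nat_lit 168) (@Lb.t (@Lb.fm (nat_lit 9) t4739))))))))))
noncomputable def l24501 : Lb := (@Lb.r r82 (@Lb.d (nat_lit 2) (nat_lit 258) (nat_lit 128) (@Lb.g g8 (@Lb.g g9 (@Lb.g g11 (@Lb.r r411 (@Lb.r r2465 (@Lb.r r1446 (@Lb.r r24 (@Lb.d (nat_lit 326) (nat_lit 42) (nat_lit 292) (@Lb.t (@Lb.fp (nat_lit 9) t1001))))))))))))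
noncomputable def l24502 : Lb := (@Lb.r r323 (@Lb.d (nat_lit 8) (nat_lit 514) (nat_lit 2) (@Lb.g g9 (@Lb.g g10 (@Lb.r r426 (@Lb.r r1611 (@Lb.r r20 (@Lb.r r105 (@Lb.d (nat_lit 422) (nat_lit 41) (nat_lit 258) (@Lb.fp (nat_lit 3) t3756))))))))))
noncomputable def l24503 : Lb := (@Lb.d (nat_lit 149) (nat_lit 513) (nat_lit 664) (@Lb.r r24 (@Lb.r r1114 (@Lb.r r2453 (@Lb.g g7 (@Lb.g g5 (@Lb.g g4 (@Lb.d (nat_lit 2) (nat_lit 18) (nat_lit 132) (@Lb.r r98 (@Lb.t (@Lb.fm (nat_lit 9) t594)))))))))))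
noncomputable def l24504 : Lb := (@Lb.d (nat_lit 2) (nat_lit 521) (nat_lit 129) (@Lb.g g8 (@Lb.g g9 (@Lb.g g10 (@Lb.g g11 (@Lb.r r2666 (@Lb.r r579 (@Lb.r r88 (@Lb.r r37 (@Lb.d (nat_lit 408) (nat_lit 130) (nat_lit 132) (@Lb.fm (nat_lit 9) t4740)))))))))))
noncomputable def l24505 : Lb := (@Lb.d (nat_lit 2) (nat_lit 614) (nat_lit 133) (@Lb.g g8 (@Lb.g g9 (@Lb.g g10 (@Lb.g g11 (@Lb.r r328 (@Lb.r r2391 (@Lb.r r2466 (@Lb.r r132 (@Lb.d (nat_lit 402) (nat_lit 66) (nat_lit 596) (@Lb.fp (nat_lit 9) t375)))))))))))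
noncomputable def l24506 : Lb := (@Lb.r r323 (@Lb.d (nat_lit 385) (nat_lit 258) (nat_lit 2) (@Lb.g g4 (@Lb.g g9 (@Lb.g g10 (@Lb.r r422 (@Lb.r r1611 (@Lb.r r37 (@Lb.d (nat_lit 392) (nat_lit 98) (nat_lit 144) (@Lb.t (@Lb.fm (nat_lit 9) t1199)))))))))))
noncomputable def l24507 : Lb := (@Lb.d (nat_lit 612) (nat_lit 137) (nat_lit 594) (@Lb.r r1284 (@Lb.r r1435 (@Lb.r r673 (@Lb.g g7 (@Lb.g g10 (@Lb.g g5 (@Lb.g g4 (@Lb.d (nat_lit 1) (nat_lit 1) (nat_lit 22) (@Lb.fp (nat_lit 9) t2490))))))))))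
noncomputable def l24508 : Lb := (@Lb.d (nat_lit 70) (nat_lit 550) (nat_lit 577) (@Lb.r r1288 (@Lb.r r386 (@Lb.r r2327 (@Lb.g g5 (@Lb.d (nat_lit 8) (nat_lit 2) (nat_lit 0) (@Lb.r r98 (@Lb.r r36 (@Lb.t (@Lb.fm (nat_lit 3) t1060))))))))))
noncomputable def l24509 : Lb := (@Lb.r r82 (@Lb.d (nat_lit 2) (nat_lit 290) (nat_lit 64) (@Lb.g g8 (@Lb.g g9 (@Lb.g g11 (@Lb.r r537 (@Lb.r r531 (@Lb.r r98 (@Lb.d (nat_lit 129) (nat_lit 17) (nat_lit 69) (@Lb.t (@Lb.fp (nat_lit 9) t5)))))))))))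
noncomputable def l24510 : Lb := (@Lb.d (nat_lit 0) (nat_lit 0) (nat_lit 2) (@Lb.g g10 (@Lb.g g7 (@Lb.r r386 (@Lb.d (nat_lit 0) (nat_lit 5) (nat_lit 138) (@Lb.fm (nat_lit 3) t45))))))
noncomputable def l24511 : Lb := (@Lb.r r275 (@Lb.d (nat_lit 161) (nat_lit 260) (nat_lit 2) (@Lb.g g8 (@Lb.g g9 (@Lb.g g10 (@Lb.r r342 (@Lb.r r2715 (@Lb.r r169 (@Lb.r r2472 (@Lb.d (nat_lit 149) (nat_lit 166) (nat_lit 90) (@Lb.t (@Lb.fp (nat_lit 9) t4741))))))))))))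
noncomputable def l24512 : Lb := (@Lb.d (nat_lit 4) (nat_lit 1) (nat_lit 73) (@Lb.g g5 (@Lb.g g10 (@Lb.g g11 (@Lb.r r1691 (@Lb.r r1178 (@Lb.r r24 (@Lb.d (nat_lit 594) (nat_lit 1) (nat_lit 664) (@Lb.t (@Lb.fm (nat_lit 9) t1025))))))))))
noncomputable def l24513 : Lb := (@Lb.d (nat_lit 0) (nat_lit 36) (nat_lit 534) (@Lb.r r85 (@Lb.r r2600 (@Lb.r r1414 (@Lb.r r2347 (@Lb.r r401 (@Lb.g g11 (@Lb.g g4 (@Lb.fp (nat_lit 3) t127)))))))))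
noncomputable def l24514 : Lb := (@Lb.d (nat_lit 2) (nat_lit 260) (nat_lit 0) (@Lb.g g8 (@Lb.g g9 (@Lb.g g10 (@Lb.r r683 (@Lb.r r1689 (@Lb.r r1688 (@Lb.r r1610 (@Lb.d (nat_lit 609) (nat_lit 98) (nat_lit 258) (@Lb.t (@Lb.fm (nat_lit 9) t3081)))))))))))
noncomputable def l24515 : Lb := (@Lb.d (nat_lit 2) (nat_lit 36) (nat_lit 66) (@Lb.g g8 (@Lb.g g9 (@Lb.g g10 (@Lb.g g11 (@Lb.r r264 (@Lb.r r2471 (@Lb.r r2146 (@Lb.r r2341 (@Lb.r r516 (@Lb.d (nat_lit 24) (nat_lit 70) (nat_lit 152) (@Lb.fp (nat_lit 9) t1665))))))))))))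
noncomputable def l24516 : Lb := (@Lb.d (nat_lit 0) (nat_lit 34) (nat_lit 9) (@Lb.g g9 (@Lb.g g10 (@Lb.g g11 (@Lb.r r419 (@Lb.r r386 (@Lb.r r2145 (@Lb.d (nat_lit 0) (nat_lit 6) (nat_lit 552) (@Lb.t (@Lb.fm (nat_lit 9) t661))))))))))
noncomputable def l24517 : Lb := (@Lb.d (nat_lit 4) (nat_lit 0) (nat_lit 0) (@Lb.g g8 (@Lb.g g9 (@Lb.g g6 (@Lb.r r97 (@Lb.r r2584 (@Lb.d (nat_lit 330) (nat_lit 9) (nat_lit 128) (@Lb.t (@Lb.fp (nat_lit 9) t996)))))))))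
noncomputable def l24518 : Lb := (@Lb.d (nat_lit 0) (nat_lit 292) (nat_lit 10) (@Lb.g g9 (@Lb.g g10 (@Lb.g g11 (@Lb.r r387 (@Lb.r r161 (@Lb.r r1442 (@Lb.r r2193 (@Lb.d (nat_lit 0) (nat_lit 8) (nat_lit 410) (@Lb.t (@Lb.fm (nat_lit 9) t406)))))))))))
noncomputable def l24519 : Lb := (@Lb.d (nat_lit 4) (nat_lit 0) (nat_lit 137) (@Lb.g g8 (@Lb.g g9 (@Lb.g g10 (@Lb.g g7 (@Lb.r r386 (@Lb.r r97 (@Lb.r r2584 (@Lb.d (nat_lit 330) (nat_lit 9) (nat_lit 9) (@Lb.fp (nat_lit 9) t996))))))))))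
noncomputable def l24520 : Lb := (@Lb.d (nat_lit 2) (nat_lit 0) (nat_lit 0) (@Lb.g g8 (@Lb.r r341 (@Lb.r r675 (@Lb.r r658 (@Lb.r r81 (@Lb.d (nat_lit 64) (nat_lit 128) (nat_lit 320) (@Lb.t (@Lb.fp (nat_lit 3) t242)))))))))
noncomputable def l24521 : Lb := (@Lb.d (nat_lit 401) (nat_lit 582) (nat_lit 641) (@Lb.r r1604 (@Lb.r r82 (@Lb.r r409 (@Lb.g g11 (@Lb.g g6 (@Lb.g g4 (@Lb.d (nat_lit 6) (nat_lit 0) (nat_lit 129) (@Lb.t (@Lb.fm (nat_lit 9) t268))))))))))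
noncomputable def l24522 : Lb := (@Lb.d (nat_lit 6) (nat_lit 32) (nat_lit 2) (@Lb.g g8 (@Lb.g g9 (@Lb.g g10 (@Lb.r r1675 (@Lb.r r1194 (@Lb.r r425 (@Lb.r r36 (@Lb.d (nat_lit 385) (nat_lit 166) (nat_lit 586) (@Lb.t (@Lb.fp (nat_lit 9) t445)))))))))))
noncomputable def l24523 : Lb := (@Lb.d (nat_lit 401) (nat_lit 550) (nat_lit 410) (@Lb.r r1604 (@Lb.r r1362 (@Lb.r r2201 (@Lb.g g7 (@Lb.g g6 (@Lb.g g4 (@Lb.d (nat_lit 5) (nat_lit 0) (nat_lit 65) (@Lb.t (@Lb.fp (nat_lit 9) t2551))))))))))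
noncomputable def l24524 : Lb := (@Lb.r r21 (@Lb.r r323 (@Lb.d (nat_lit 2) (nat_lit 256) (nat_lit 41) (@Lb.g g8 (@Lb.g g6 (@Lb.r r387 (@Lb.r r97 (@Lb.r r1288 (@Lb.d (nat_lit 642) (nat_lit 162) (nat_lit 37) (@Lb.fp (nat_lit 3) t1081))))))))))
noncomputable def l24525 : Lb := (@Lb.d (nat_lit 2) (nat_lit 2) (nat_lit 73) (@Lb.g g8 (@Lb.g g9 (@Lb.g g10 (@Lb.g g11 (@Lb.r r2691 (@Lb.r r1193 (@Lb.r r2658 (@Lb.r r2436 (@Lb.d (nat_lit 610) (nat_lit 160) (nat_lit 598) (@Lb.fp (nat_lit 9) t311)))))))))))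
noncomputable def l24526 : Lb := (@Lb.d (nat_lit 168) (nat_lit 1) (nat_lit 128) (@Lb.g g9 (@Lb.g g10 (@Lb.g g11 (@Lb.r r260 (@Lb.r r2635 (@Lb.r r2386 (@Lb.r r145 (@Lb.d (nat_lit 72) (nat_lit 17) (nat_lit 18) (@Lb.t (@Lb.fp (nat_lit 9) t322)))))))))))
noncomputable def l24527 : Lb := (@Lb.g g5 (@Lb.g g7 (@Lb.d (nat_lit 5) (nat_lit 257) (nat_lit 0) (@Lb.fm (nat_lit 3) t2))))
noncomputable def l24528 : Lb := (@Lb.d (nat_lit 160) (nat_lit 8) (nat_lit 74) (@Lb.g g10 (@Lb.g g11 (@Lb.r r105 (@Lb.r r280 (@Lb.r r1623 (@Lb.r r1362 (@Lb.d (nat_lit 533) (nat_lit 81) (nat_lit 389) (@Lb.fp (nat_lit 3) t2)))))))))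
noncomputable def l24529 : Lb := (@Lb.d (nat_lit 146) (nat_lit 514) (nat_lit 128) (@Lb.g g8 (@Lb.g g9 (@Lb.g g10 (@Lb.g g11 (@Lb.r r1706 (@Lb.r r1411 (@Lb.r r1188 (@Lb.r r37 (@Lb.d (nat_lit 361) (nat_lit 73) (nat_lit 665) (@Lb.fp (nat_lit 9) t283)))))))))))
noncomputable def l24530 : Lb := (@Lb.r r21 (@Lb.r r323 (@Lb.d (nat_lit 6) (nat_lit 512) (nat_lit 0) (@Lb.g g8 (@Lb.g g10 (@Lb.r r427 (@Lb.r r106 (@Lb.r r25 (@Lb.d (nat_lit 9) (nat_lit 2) (nat_lit 0) (@Lb.fm (nat_lit 3) t51))))))))))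
noncomputable def l24531 : Lb := (@Lb.r r21 (@Lb.d (nat_lit 646) (nat_lit 0) (nat_lit 130) (@Lb.g g8 (@Lb.g g10 (@Lb.g g11 (@Lb.r r1451 (@Lb.r r106 (@Lb.r r25 (@Lb.d (nat_lit 9) (nat_lit 9) (nat_lit 425) (@Lb.t (@Lb.fm (nat_lit 9) t394)))))))))))
noncomputable def l24532 : Lb := (@Lb.d (nat_lit 136) (nat_lit 265) (nat_lit 128) (@Lb.g g9 (@Lb.g g11 (@Lb.r r1114 (@Lb.r r260 (@Lb.r r603 (@Lb.r r1425 (@Lb.d (nat_lit 72) (nat_lit 146) (nat_lit 138) (@Lb.fp (nat_lit 3) t322)))))))))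
noncomputable def l24533 : Lb := (@Lb.r r323 (@Lb.d (nat_lit 128) (nat_lit 257) (nat_lit 2) (@Lb.g g8 (@Lb.g g9 (@Lb.g g10 (@Lb.r r362 (@Lb.r r361 (@Lb.r r1431 (@Lb.r r2632 (@Lb.d (nat_lit 361) (nat_lit 128) (nat_lit 642) (@Lb.t (@Lb.fm (nat_lit 9) t71))))))))))))
noncomputable def l24534 : Lb := (@Lb.d (nat_lit 160) (nat_lit 8) (nat_lit 128) (@Lb.g g10 (@Lb.g g11 (@Lb.r r660 (@Lb.r r1625 (@Lb.r r2651 (@Lb.r r2390 (@Lb.d (nat_lit 338) (nat_lit 17) (nat_lit 645) (@Lb.fp (nat_lit 3) t2)))))))))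
noncomputable def l24535 : Lb := (@Lb.r r82 (@Lb.d (nat_lit 34) (nat_lit 2) (nat_lit 128) (@Lb.g g8 (@Lb.g g9 (@Lb.g g11 (@Lb.r r1571 (@Lb.r r582 (@Lb.r r2577 (@Lb.r r420 (@Lb.d (nat_lit 106) (nat_lit 149) (nat_lit 330) (@Lb.t (@Lb.fp (nat_lit 9) t1751))))))))))))
noncomputable def l24536 : Lb := (@Lb.r r323 (@Lb.d (nat_lit 128) (nat_lit 0) (nat_lit 2) (@Lb.g g8 (@Lb.g g10 (@Lb.r r346 (@Lb.r r661 (@Lb.r r1431 (@Lb.r r2632 (@Lb.d (nat_lit 362) (nat_lit 128) (nat_lit 66) (@Lb.fp (nat_lit 3) t71))))))))))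
noncomputable def l24537 : Lb := (@Lb.d (nat_lit 134) (nat_lit 256) (nat_lit 130) (@Lb.g g8 (@Lb.g g9 (@Lb.g g10 (@Lb.g g11 (@Lb.r r2710 (@Lb.r r360 (@Lb.r r1319 (@Lb.r r405 (@Lb.r r2084 (@Lb.d (nat_lit 26) (nat_lit 137) (nat_lit 673) (@Lb.fp (nat_lit 9) t1039))))))))))))
noncomputable def l24538 : Lb := (@Lb.d (nat_lit 32) (nat_lit 258) (nat_lit 2) (@Lb.g g9 (@Lb.g g10 (@Lb.r r1555 (@Lb.r r293 (@Lb.r r72 (@Lb.r r150 (@Lb.d (nat_lit 518) (nat_lit 0) (nat_lit 392) (@Lb.fm (nat_lit 3) t296)))))))))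
noncomputable def l24539 : Lb := (@Lb.d (nat_lit 134) (nat_lit 512) (nat_lit 130) (@Lb.g g8 (@Lb.g g9 (@Lb.g g10 (@Lb.g g11 (@Lb.r r2710 (@Lb.r r360 (@Lb.r r1319 (@Lb.r r405 (@Lb.r r2084 (@Lb.d (nat_lit 25) (nat_lit 137) (nat_lit 673) (@Lb.fp (nat_lit 9) t163))))))))))))
noncomputable def l24540 : Lb := (@Lb.d (nat_lit 5) (nat_lit 545) (nat_lit 0) (@Lb.r r289 (@Lb.r r279 (@Lb.r r584 (@Lb.r r102 (@Lb.g g6 (@Lb.r r387 (@Lb.t (@Lb.fm (nat_lit 3) t151)))))))))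
noncomputable def l24541 : Lb := (@Lb.d (nat_lit 520) (nat_lit 262) (nat_lit 292) (@Lb.r r394 (@Lb.r r132 (@Lb.r r279 (@Lb.g g7 (@Lb.g g6 (@Lb.g g5 (@Lb.d (nat_lit 16) (nat_lit 134) (nat_lit 66) (@Lb.t (@Lb.fm (nat_lit 9) t4742))))))))))
noncomputable def l24542 : Lb := (@Lb.d (nat_lit 9) (nat_lit 513) (nat_lit 130) (@Lb.g g8 (@Lb.g g9 (@Lb.g g10 (@Lb.g g11 (@Lb.r r162 (@Lb.r r168 (@Lb.r r425 (@Lb.r r279 (@Lb.r r548 (@Lb.d (nat_lit 265) (nat_lit 2) (nat_lit 106) (@Lb.fm (nat_lit 9) t991))))))))))))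
noncomputable def l24543 : Lb := (@Lb.d (nat_lit 292) (nat_lit 390) (nat_lit 81) (@Lb.r r2129 (@Lb.r r1190 (@Lb.r r2392 (@Lb.g g7 (@Lb.g g6 (@Lb.g g5 (@Lb.d (nat_lit 64) (nat_lit 5) (nat_lit 329) (@Lb.t (@Lb.fp (nat_lit 9) t355))))))))))
noncomputable def l24544 : Lb := (@Lb.d (nat_lit 1) (nat_lit 256) (nat_lit 0) (@Lb.g g8 (@Lb.r r579 (@Lb.r r2122 (@Lb.r r2073 (@Lb.d (nat_lit 1) (nat_lit 0) (nat_lit 85) (@Lb.t (@Lb.fm (nat_lit 3) t4743))))))))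
noncomputable def l24545 : Lb := (@Lb.d (nat_lit 73) (nat_lit 262) (nat_lit 577) (@Lb.r r1284 (@Lb.r r1346 (@Lb.r r2451 (@Lb.r r342 (@Lb.g g7 (@Lb.g g6 (@Lb.g g5 (@Lb.g g4 (@Lb.d (nat_lit 1) (nat_lit 134) (nat_lit 66) (@Lb.fp (nat_lit 9) t4742)))))))))))
noncomputable def l24546 : Lb := (@Lb.d (nat_lit 2) (nat_lit 682) (nat_lit 580) (@Lb.r r1426 (@Lb.r r1637 (@Lb.r r1304 (@Lb.r r2371 (@Lb.g g7 (@Lb.g g6 (@Lb.g g5 (@Lb.d (nat_lit 16) (nat_lit 0) (nat_lit 65) (@Lb.t (@Lb.fm (nat_lit 9) t681)))))))))))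
noncomputable def l24547 : Lb := (@Lb.r r1158 (@Lb.r r2136 (@Lb.r r2341 (@Lb.r r539 (@Lb.d (nat_lit 546) (nat_lit 256) (nat_lit 98) (@Lb.fp (nat_lit 1) t4744))))))
noncomputable def l24548 : Lb := (@Lb.d (nat_lit 0) (nat_lit 260) (nat_lit 129) (@Lb.g g6 (@Lb.g g11 (@Lb.r r2659 (@Lb.r r24 (@Lb.d (nat_lit 2) (nat_lit 40) (nat_lit 680) (@Lb.fp (nat_lit 3) t71)))))))
noncomputable def l24549 : Lb := (@Lb.d (nat_lit 0) (nat_lit 256) (nat_lit 136) (@Lb.g g11 (@Lb.r r24 (@Lb.r r101 (@Lb.d (nat_lit 548) (nat_lit 5) (nat_lit 154) (@Lb.t (@Lb.fp (nat_lit 3) t126)))))))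
noncomputable def l24550 : Lb := (@Lb.d (nat_lit 0) (nat_lit 257) (nat_lit 66) (@Lb.r r24 (@Lb.r r579 (@Lb.g g7 (@Lb.g g10 (@Lb.g g5 (@Lb.d (nat_lit 4) (nat_lit 1) (nat_lit 64) (@Lb.t (@Lb.fm (nat_lit 9) t2)))))))))
noncomputable def l24551 : Lb := (@Lb.r r323 (@Lb.d (nat_lit 33) (nat_lit 514) (nat_lit 2) (@Lb.g g8 (@Lb.g g9 (@Lb.g g10 (@Lb.r r1689 (@Lb.r r1563 (@Lb.r r580 (@Lb.r r1098 (@Lb.d (nat_lit 336) (nat_lit 0) (nat_lit 409) (@Lb.t (@Lb.fp (nat_lit 9) t1246))))))))))))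
noncomputable def l24552 : Lb := (@Lb.d (nat_lit 40) (nat_lit 386) (nat_lit 82) (@Lb.r r24 (@Lb.r r2138 (@Lb.r r2651 (@Lb.g g7 (@Lb.g g9 (@Lb.d (nat_lit 8) (nat_lit 2) (nat_lit 64) (@Lb.fp (nat_lit 3) t267))))))))
noncomputable def l24553 : Lb := (@Lb.r r1045 (@Lb.r r584 (@Lb.r r358 (@Lb.r r1435 (@Lb.r r132 (@Lb.d (nat_lit 320) (nat_lit 586) (nat_lit 352) (@Lb.fm (nat_lit 1) t430)))))))
noncomputable def l24554 : Lb := (@Lb.d (nat_lit 32) (nat_lit 512) (nat_lit 66) (@Lb.g g10 (@Lb.g g11 (@Lb.r r423 (@Lb.r r2341 (@Lb.r r72 (@Lb.r r150 (@Lb.d (nat_lit 533) (nat_lit 0) (nat_lit 33) (@Lb.fp (nat_lit 3) t296)))))))))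
noncomputable def l24555 : Lb := (@Lb.d (nat_lit 1) (nat_lit 681) (nat_lit 550) (@Lb.r r1172 (@Lb.g g9 (@Lb.d (nat_lit 0) (nat_lit 10) (nat_lit 0) (@Lb.t (@Lb.fp (nat_lit 3) t4745))))))
noncomputable def l24556 : Lb := (@Lb.d (nat_lit 0) (nat_lit 514) (nat_lit 4) (@Lb.g g8 (@Lb.g g9 (@Lb.g g10 (@Lb.g g11 (@Lb.r r2722 (@Lb.r r2600 (@Lb.r r2713 (@Lb.r r2587 (@Lb.d (nat_lit 325) (nat_lit 9) (nat_lit 137) (@Lb.fm (nat_lit 9) t1115)))))))))))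
noncomputable def l24557 : Lb := (@Lb.d (nat_lit 2) (nat_lit 0) (nat_lit 66) (@Lb.g g8 (@Lb.g g10 (@Lb.g g11 (@Lb.r r2630 (@Lb.r r1188 (@Lb.r r2597 (@Lb.r r1315 (@Lb.d (nat_lit 0) (nat_lit 33) (nat_lit 133) (@Lb.t (@Lb.fp (nat_lit 9) t2604)))))))))))
noncomputable def l24558 : Lb := (@Lb.r r322 (@Lb.d (nat_lit 32) (nat_lit 2) (nat_lit 576) (@Lb.g g8 (@Lb.g g9 (@Lb.g g7 (@Lb.r r361 (@Lb.r r150 (@Lb.r r84 (@Lb.d (nat_lit 22) (nat_lit 84) (nat_lit 585) (@Lb.t (@Lb.fp (nat_lit 9) t1115)))))))))))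
noncomputable def l24559 : Lb := (@Lb.d (nat_lit 0) (nat_lit 658) (nat_lit 389) (@Lb.r r579 (@Lb.r r1362 (@Lb.g g7 (@Lb.g g6 (@Lb.g g5 (@Lb.g g8 (@Lb.d (nat_lit 0) (nat_lit 129) (nat_lit 134) (@Lb.fp (nat_lit 9) t126)))))))))
noncomputable def l24560 : Lb := (@Lb.r r322 (@Lb.d (nat_lit 32) (nat_lit 2) (nat_lit 576) (@Lb.g g8 (@Lb.g g9 (@Lb.g g7 (@Lb.r r361 (@Lb.r r150 (@Lb.r r84 (@Lb.d (nat_lit 22) (nat_lit 150) (nat_lit 585) (@Lb.t (@Lb.fp (nat_lit 9) t259)))))))))))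
noncomputable def l24561 : Lb := (@Lb.d (nat_lit 8) (nat_lit 258) (nat_lit 130) (@Lb.g g9 (@Lb.g g10 (@Lb.g g11 (@Lb.r r586 (@Lb.r r584 (@Lb.r r299 (@Lb.r r289 (@Lb.d (nat_lit 9) (nat_lit 132) (nat_lit 1) (@Lb.t (@Lb.fm (nat_lit 9) t51)))))))))))
noncomputable def l24562 : Lb := (@Lb.d (nat_lit 128) (nat_lit 258) (nat_lit 130) (@Lb.g g8 (@Lb.g g9 (@Lb.g g10 (@Lb.g g11 (@Lb.r r419 (@Lb.r r1702 (@Lb.r r2337 (@Lb.r r1636 (@Lb.d (nat_lit 160) (nat_lit 22) (nat_lit 650) (@Lb.fp (nat_lit 9) t4442)))))))))))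
noncomputable def l24563 : Lb := (@Lb.r r323 (@Lb.d (nat_lit 1) (nat_lit 265) (nat_lit 2) (@Lb.g g8 (@Lb.g g9 (@Lb.g g10 (@Lb.r r1706 (@Lb.r r1681 (@Lb.r r1555 (@Lb.r r36 (@Lb.d (nat_lit 106) (nat_lit 66) (nat_lit 137) (@Lb.t (@Lb.fm (nat_lit 9) t4746))))))))))))
noncomputable def l24564 : Lb := (@Lb.r r323 (@Lb.d (nat_lit 1) (nat_lit 9) (nat_lit 2) (@Lb.g g8 (@Lb.g g9 (@Lb.g g10 (@Lb.r r1706 (@Lb.r r1681 (@Lb.r r1555 (@Lb.r r36 (@Lb.d (nat_lit 106) (nat_lit 68) (nat_lit 138) (@Lb.t (@Lb.fm (nat_lit 9) t251))))))))))))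
noncomputable def l24565 : Lb := (@Lb.d (nat_lit 294) (nat_lit 402) (nat_lit 389) (@Lb.r r2129 (@Lb.r r354 (@Lb.r r81 (@Lb.r r1671 (@Lb.g g7 (@Lb.g g6 (@Lb.g g5 (@Lb.g g8 (@Lb.d (nat_lit 9) (nat_lit 0) (nat_lit 134) (@Lb.fp (nat_lit 9) t3349)))))))))))
noncomputable def l24566 : Lb := (@Lb.r r260 (@Lb.r r322 (@Lb.d (nat_lit 64) (nat_lit 289) (nat_lit 260) (@Lb.g g9 (@Lb.g g7 (@Lb.r r418 (@Lb.r r1169 (@Lb.r r2148 (@Lb.d (nat_lit 533) (nat_lit 68) (nat_lit 81) (@Lb.fm (nat_lit 3) t2345))))))))))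
noncomputable def l24567 : Lb := (@Lb.d (nat_lit 2) (nat_lit 514) (nat_lit 130) (@Lb.g g8 (@Lb.g g9 (@Lb.g g10 (@Lb.g g11 (@Lb.r r2705 (@Lb.r r535 (@Lb.r r2440 (@Lb.r r2122 (@Lb.d (nat_lit 294) (nat_lit 74) (nat_lit 136) (@Lb.fp (nat_lit 9) t741)))))))))))
noncomputable def l24568 : Lb := (@Lb.r r82 (@Lb.d (nat_lit 8) (nat_lit 354) (nat_lit 64) (@Lb.g g9 (@Lb.g g11 (@Lb.r r1447 (@Lb.r r386 (@Lb.r r24 (@Lb.d (nat_lit 88) (nat_lit 130) (nat_lit 514) (@Lb.fm (nat_lit 3) t4747)))))))))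
noncomputable def l24569 : Lb := (@Lb.d (nat_lit 74) (nat_lit 530) (nat_lit 578) (@Lb.r r1301 (@Lb.r r2667 (@Lb.g g10 (@Lb.g g5 (@Lb.d (nat_lit 32) (nat_lit 6) (nat_lit 24) (@Lb.r r387 (@Lb.fm (nat_lit 3) t2070))))))))
noncomputable def l24570 : Lb := (@Lb.d (nat_lit 512) (nat_lit 274) (nat_lit 578) (@Lb.r r1305 (@Lb.r r2663 (@Lb.g g10 (@Lb.g g5 (@Lb.d (nat_lit 32) (nat_lit 4) (nat_lit 24) (@Lb.r r387 (@Lb.fm (nat_lit 3) t2070))))))))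
noncomputable def l24571 : Lb := (@Lb.d (nat_lit 2) (nat_lit 258) (nat_lit 2) (@Lb.g g8 (@Lb.g g9 (@Lb.g g10 (@Lb.r r1626 (@Lb.r r2659 (@Lb.r r97 (@Lb.r r24 (@Lb.d (nat_lit 426) (nat_lit 40) (nat_lit 601) (@Lb.t (@Lb.fp (nat_lit 9) t1227)))))))))))
noncomputable def l24572 : Lb := (@Lb.r r21 (@Lb.d (nat_lit 130) (nat_lit 0) (nat_lit 258) (@Lb.g g8 (@Lb.g g10 (@Lb.g g7 (@Lb.r r425 (@Lb.r r106 (@Lb.r r1060 (@Lb.d (nat_lit 600) (nat_lit 102) (nat_lit 354) (@Lb.t (@Lb.fm (nat_lit 9) t1443)))))))))))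
noncomputable def l24573 : Lb := (@Lb.d (nat_lit 2) (nat_lit 33) (nat_lit 130) (@Lb.g g8 (@Lb.g g9 (@Lb.g g10 (@Lb.g g11 (@Lb.r r1706 (@Lb.r r387 (@Lb.r r2201 (@Lb.d (nat_lit 281) (nat_lit 21) (nat_lit 393) (@Lb.fm (nat_lit 9) t1047))))))))))
noncomputable def l24574 : Lb := (@Lb.d (nat_lit 32) (nat_lit 521) (nat_lit 64) (@Lb.g g8 (@Lb.g g9 (@Lb.g g11 (@Lb.r r1611 (@Lb.r r390 (@Lb.r r2644 (@Lb.r r25 (@Lb.d (nat_lit 521) (nat_lit 170) (nat_lit 274) (@Lb.t (@Lb.fm (nat_lit 9) t386)))))))))))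
noncomputable def l24575 : Lb := (@Lb.d (nat_lit 2) (nat_lit 101) (nat_lit 33) (@Lb.r r97 (@Lb.r r579 (@Lb.r r2450 (@Lb.g g5 (@Lb.g g8 (@Lb.d (nat_lit 402) (nat_lit 6) (nat_lit 0) (@Lb.fm (nat_lit 3) t4748))))))))
noncomputable def l24576 : Lb := (@Lb.d (nat_lit 130) (nat_lit 32) (nat_lit 128) (@Lb.g g8 (@Lb.g g11 (@Lb.r r2344 (@Lb.r r2329 (@Lb.r r551 (@Lb.r r2178 (@Lb.d (nat_lit 130) (nat_lit 16) (nat_lit 128) (@Lb.fp (nat_lit 3) t4749)))))))))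
noncomputable def l24577 : Lb := (@Lb.r r1045 (@Lb.d (nat_lit 2) (nat_lit 0) (nat_lit 2) (@Lb.g g8 (@Lb.g g10 (@Lb.g g11 (@Lb.r r2379 (@Lb.r r386 (@Lb.r r72 (@Lb.d (nat_lit 288) (nat_lit 0) (nat_lit 70) (@Lb.t (@Lb.fm (nat_lit 9) t873)))))))))))
noncomputable def l24578 : Lb := (@Lb.d (nat_lit 2) (nat_lit 2) (nat_lit 2) (@Lb.g g8 (@Lb.g g9 (@Lb.g g10 (@Lb.g g11 (@Lb.r r2411 (@Lb.r r386 (@Lb.r r1129 (@Lb.r r1124 (@Lb.d (nat_lit 281) (nat_lit 0) (nat_lit 84) (@Lb.fp (nat_lit 9) t455)))))))))))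
noncomputable def l24579 : Lb := (@Lb.r r21 (@Lb.d (nat_lit 658) (nat_lit 8) (nat_lit 128) (@Lb.g g4 (@Lb.g g10 (@Lb.g g11 (@Lb.r r345 (@Lb.r r679 (@Lb.r r2694 (@Lb.d (nat_lit 129) (nat_lit 70) (nat_lit 281) (@Lb.t (@Lb.fp (nat_lit 9) t4750)))))))))))
noncomputable def l24580 : Lb := (@Lb.d (nat_lit 645) (nat_lit 0) (nat_lit 130) (@Lb.g g4 (@Lb.g g9 (@Lb.g g10 (@Lb.g g11 (@Lb.r r677 (@Lb.r r423 (@Lb.r r2438 (@Lb.d (nat_lit 74) (nat_lit 74) (nat_lit 658) (@Lb.fm (nat_lit 9) t4276))))))))))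
noncomputable def l24581 : Lb := (@Lb.d (nat_lit 645) (nat_lit 512) (nat_lit 130) (@Lb.g g4 (@Lb.g g9 (@Lb.g g10 (@Lb.g g11 (@Lb.r r677 (@Lb.r r423 (@Lb.r r2438 (@Lb.d (nat_lit 64) (nat_lit 72) (nat_lit 658) (@Lb.fm (nat_lit 9) t4751))))))))))
noncomputable def l24582 : Lb := (@Lb.r r263 (@Lb.d (nat_lit 2) (nat_lit 9) (nat_lit 1) (@Lb.g g8 (@Lb.g g9 (@Lb.g g10 (@Lb.r r683 (@Lb.r r386 (@Lb.r r97 (@Lb.r r536 (@Lb.d (nat_lit 330) (nat_lit 41) (nat_lit 521) (@Lb.t (@Lb.fm (nat_lit 9) t4752))))))))))))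
noncomputable def l24583 : Lb := (@Lb.d (nat_lit 138) (nat_lit 256) (nat_lit 65) (@Lb.g g8 (@Lb.g g10 (@Lb.g g11 (@Lb.r r1569 (@Lb.r r555 (@Lb.r r2696 (@Lb.r r74 (@Lb.d (nat_lit 17) (nat_lit 133) (nat_lit 261) (@Lb.t (@Lb.fp (nat_lit 9) t4753)))))))))))
noncomputable def l24584 : Lb := (@Lb.r r21 (@Lb.r r70 (@Lb.d (nat_lit 657) (nat_lit 512) (nat_lit 128) (@Lb.g g8 (@Lb.g g11 (@Lb.r r1419 (@Lb.r r74 (@Lb.r r25 (@Lb.d (nat_lit 354) (nat_lit 0) (nat_lit 41) (@Lb.fm (nat_lit 3) t1071))))))))))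
noncomputable def l24585 : Lb := (@Lb.d (nat_lit 134) (nat_lit 1) (nat_lit 512) (@Lb.r r2584 (@Lb.r r2138 (@Lb.r r2587 (@Lb.r r293 (@Lb.g g7 (@Lb.g g4 (@Lb.d (nat_lit 5) (nat_lit 0) (nat_lit 128) (@Lb.fp (nat_lit 3) t451)))))))))
noncomputable def l24586 : Lb := (@Lb.d (nat_lit 0) (nat_lit 256) (nat_lit 2) (@Lb.g g10 (@Lb.g g7 (@Lb.r r386 (@Lb.r r101 (@Lb.r r24 (@Lb.d (nat_lit 354) (nat_lit 5) (nat_lit 522) (@Lb.fm (nat_lit 3) t166))))))))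
noncomputable def l24587 : Lb := (@Lb.r r323 (@Lb.d (nat_lit 130) (nat_lit 2) (nat_lit 1) (@Lb.g g8 (@Lb.g g9 (@Lb.g g10 (@Lb.r r427 (@Lb.r r345 (@Lb.r r166 (@Lb.r r72 (@Lb.d (nat_lit 33) (nat_lit 17) (nat_lit 137) (@Lb.t (@Lb.fm (nat_lit 9) t119))))))))))))
noncomputable def l24588 : Lb := (@Lb.d (nat_lit 0) (nat_lit 9) (nat_lit 73) (@Lb.g g8 (@Lb.g g9 (@Lb.g g10 (@Lb.g g11 (@Lb.r r2467 (@Lb.r r1177 (@Lb.r r1626 (@Lb.r r24 (@Lb.d (nat_lit 337) (nat_lit 0) (nat_lit 400) (@Lb.fm (nat_lit 9) t143)))))))))))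
noncomputable def l24589 : Lb := (@Lb.d (nat_lit 0) (nat_lit 9) (nat_lit 73) (@Lb.g g9 (@Lb.g g10 (@Lb.g g11 (@Lb.r r2467 (@Lb.r r1177 (@Lb.r r1626 (@Lb.r r24 (@Lb.d (nat_lit 337) (nat_lit 0) (nat_lit 400) (@Lb.t (@Lb.fp (nat_lit 9) t143)))))))))))
noncomputable def l24590 : Lb := (@Lb.d (nat_lit 0) (nat_lit 545) (nat_lit 66) (@Lb.g g9 (@Lb.g g10 (@Lb.g g11 (@Lb.r r2595 (@Lb.r r2088 (@Lb.r r2649 (@Lb.r r98 (@Lb.d (nat_lit 640) (nat_lit 150) (nat_lit 592) (@Lb.t (@Lb.fm (nat_lit 9) t2069)))))))))))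
noncomputable def l24591 : Lb := (@Lb.d (nat_lit 0) (nat_lit 545) (nat_lit 66) (@Lb.g g9 (@Lb.g g10 (@Lb.g g11 (@Lb.r r2595 (@Lb.r r386 (@Lb.r r2201 (@Lb.r r24 (@Lb.d (nat_lit 672) (nat_lit 5) (nat_lit 678) (@Lb.t (@Lb.fp (nat_lit 9) t4754)))))))))))
noncomputable def l24592 : Lb := (@Lb.d (nat_lit 0) (nat_lit 33) (nat_lit 66) (@Lb.g g9 (@Lb.g g10 (@Lb.g g11 (@Lb.r r2595 (@Lb.r r386 (@Lb.r r2201 (@Lb.r r24 (@Lb.d (nat_lit 674) (nat_lit 5) (nat_lit 678) (@Lb.t (@Lb.fp (nat_lit 9) t2273)))))))))))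
noncomputable def l24593 : Lb := (@Lb.g g7 (@Lb.r r2438 (@Lb.r r1624 (@Lb.r r2341 (@Lb.d (nat_lit 2) (nat_lit 64) (nat_lit 320) (@Lb.t (@Lb.fp (nat_lit 3) t4755)))))))
noncomputable def l24594 : Lb := (@Lb.d (nat_lit 2) (nat_lit 2) (nat_lit 64) (@Lb.g g8 (@Lb.g g9 (@Lb.g g10 (@Lb.g g11 (@Lb.r r2339 (@Lb.r r297 (@Lb.r r360 (@Lb.r r582 (@Lb.r r132 (@Lb.d (nat_lit 0) (nat_lit 10) (nat_lit 641) (@Lb.fp (nat_lit 9) t3282))))))))))))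
noncomputable def l24595 : Lb := (@Lb.d (nat_lit 0) (nat_lit 0) (nat_lit 73) (@Lb.g g9 (@Lb.g g10 (@Lb.g g11 (@Lb.r r1703 (@Lb.r r2392 (@Lb.r r1158 (@Lb.r r673 (@Lb.d (nat_lit 533) (nat_lit 136) (nat_lit 32) (@Lb.t (@Lb.fm (nat_lit 9) t1961)))))))))))
noncomputable def l24596 : Lb := (@Lb.d (nat_lit 512) (nat_lit 256) (nat_lit 384) (@Lb.r r24 (@Lb.r r101 (@Lb.r r402 (@Lb.g g11 (@Lb.g g6 (@Lb.g g5 (@Lb.g g4 (@Lb.d (nat_lit 1) (nat_lit 5) (nat_lit 1) (@Lb.fp (nat_lit 9) t868))))))))))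
noncomputable def l24597 : Lb := (@Lb.r r21 (@Lb.d (nat_lit 96) (nat_lit 512) (nat_lit 73) (@Lb.g g8 (@Lb.g g10 (@Lb.g g11 (@Lb.r r2379 (@Lb.r r1606 (@Lb.r r1369 (@Lb.r r1348 (@Lb.d (nat_lit 609) (nat_lit 0) (nat_lit 392) (@Lb.t (@Lb.fm (nat_lit 9) t1108))))))))))))
noncomputable def l24598 : Lb := (@Lb.d (nat_lit 160) (nat_lit 677) (nat_lit 518) (@Lb.r r1121 (@Lb.r r2438 (@Lb.r r339 (@Lb.g g7 (@Lb.g g6 (@Lb.g g4 (@Lb.d (nat_lit 1) (nat_lit 0) (nat_lit 65) (@Lb.t (@Lb.fp (nat_lit 9) t407))))))))))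
noncomputable def l24599 : Lb := (@Lb.r r21 (@Lb.d (nat_lit 1) (nat_lit 512) (nat_lit 130) (@Lb.g g8 (@Lb.g g10 (@Lb.g g11 (@Lb.r r2379 (@Lb.r r386 (@Lb.r r149 (@Lb.r r72 (@Lb.d (nat_lit 552) (nat_lit 128) (nat_lit 136) (@Lb.t (@Lb.fm (nat_lit 9) t1350))))))))))))
noncomputable def l24600 : Lb := (@Lb.r r21 (@Lb.d (nat_lit 1) (nat_lit 0) (nat_lit 130) (@Lb.g g8 (@Lb.g g10 (@Lb.g g11 (@Lb.r r2379 (@Lb.r r386 (@Lb.r r149 (@Lb.r r72 (@Lb.d (nat_lit 546) (nat_lit 0) (nat_lit 136) (@Lb.t (@Lb.fm (nat_lit 9) t61))))))))))))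
noncomputable def l24601 : Lb := (@Lb.d (nat_lit 0) (nat_lit 0) (nat_lit 137) (@Lb.g g10 (@Lb.g g7 (@Lb.r r421 (@Lb.r r98 (@Lb.r r24 (@Lb.d (nat_lit 280) (nat_lit 80) (nat_lit 264) (@Lb.fp (nat_lit 3) t4756))))))))
noncomputable def l24602 : Lb := (@Lb.d (nat_lit 150) (nat_lit 417) (nat_lit 417) (@Lb.r r24 (@Lb.r r1383 (@Lb.r r2389 (@Lb.g g6 (@Lb.g g4 (@Lb.d (nat_lit 1) (nat_lit 8) (nat_lit 41) (@Lb.r r387 (@Lb.fp (nat_lit 3) t531)))))))))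
noncomputable def l24603 : Lb := (@Lb.r r82 (@Lb.d (nat_lit 34) (nat_lit 513) (nat_lit 0) (@Lb.g g8 (@Lb.g g9 (@Lb.r r1426 (@Lb.r r2407 (@Lb.r r1668 (@Lb.d (nat_lit 161) (nat_lit 73) (nat_lit 677) (@Lb.fp (nat_lit 3) t318)))))))))
noncomputable def l24604 : Lb := (@Lb.d (nat_lit 10) (nat_lit 272) (nat_lit 585) (@Lb.g g8 (@Lb.g g10 (@Lb.g g11 (@Lb.r r1681 (@Lb.r r1178 (@Lb.r r1156 (@Lb.d (nat_lit 548) (nat_lit 146) (nat_lit 105) (@Lb.t (@Lb.fp (nat_lit 9) t2138))))))))))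
noncomputable def l24605 : Lb := (@Lb.d (nat_lit 1) (nat_lit 640) (nat_lit 586) (@Lb.r r2341 (@Lb.r r1624 (@Lb.r r2438 (@Lb.g g11 (@Lb.t (@Lb.fm (nat_lit 3) t2409)))))))
noncomputable def l24606 : Lb := (@Lb.d (nat_lit 10) (nat_lit 16) (nat_lit 584) (@Lb.g g8 (@Lb.g g10 (@Lb.g g11 (@Lb.r r2401 (@Lb.r r1366 (@Lb.r r1156 (@Lb.d (nat_lit 546) (nat_lit 98) (nat_lit 425) (@Lb.t (@Lb.fp (nat_lit 9) t3256))))))))))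
noncomputable def l24607 : Lb := (@Lb.d (nat_lit 2) (nat_lit 538) (nat_lit 585) (@Lb.g g8 (@Lb.g g9 (@Lb.g g10 (@Lb.g g11 (@Lb.r r1681 (@Lb.r r612 (@Lb.r r666 (@Lb.r r132 (@Lb.d (nat_lit 329) (nat_lit 128) (nat_lit 133) (@Lb.fm (nat_lit 9) t4757)))))))))))
noncomputable def l24608 : Lb := (@Lb.r r21 (@Lb.r r70 (@Lb.d (nat_lit 658) (nat_lit 512) (nat_lit 0) (@Lb.g g8 (@Lb.r r74 (@Lb.r r25 (@Lb.d (nat_lit 354) (nat_lit 66) (nat_lit 138) (@Lb.t (@Lb.fp (nat_lit 3) t3937)))))))))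
noncomputable def l24609 : Lb := (@Lb.d (nat_lit 266) (nat_lit 512) (nat_lit 138) (@Lb.r r21 (@Lb.r r70 (@Lb.g g8 (@Lb.d (nat_lit 518) (nat_lit 0) (nat_lit 0) (@Lb.r r74 (@Lb.r r25 (@Lb.t (@Lb.fp (nat_lit 3) t3937)))))))))
noncomputable def l24610 : Lb := (@Lb.d (nat_lit 1) (nat_lit 90) (nat_lit 341) (@Lb.r r1604 (@Lb.r r402 (@Lb.g g9 (@Lb.d (nat_lit 0) (nat_lit 10) (nat_lit 0) (@Lb.t (@Lb.fm (nat_lit 3) t4758)))))))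
noncomputable def l24611 : Lb := (@Lb.r r24 (@Lb.d (nat_lit 330) (nat_lit 98) (nat_lit 384) (@Lb.fm (nat_lit 1) t2327)))
noncomputable def l24612 : Lb := (@Lb.d (nat_lit 150) (nat_lit 32) (nat_lit 422) (@Lb.r r405 (@Lb.r r1110 (@Lb.r r1431 (@Lb.g g7 (@Lb.g g6 (@Lb.g g5 (@Lb.g g4 (@Lb.d (nat_lit 1) (nat_lit 17) (nat_lit 129) (@Lb.fp (nat_lit 9) t3180))))))))))
noncomputable def l24613 : Lb := (@Lb.d (nat_lit 0) (nat_lit 145) (nat_lit 26) (@Lb.r r594 (@Lb.r r2449 (@Lb.g g11 (@Lb.g g6 (@Lb.g g9 (@Lb.t (@Lb.fp (nat_lit 9) t28))))))))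
noncomputable def l24614 : Lb := (@Lb.d (nat_lit 586) (nat_lit 145) (nat_lit 388) (@Lb.r r2344 (@Lb.r r1559 (@Lb.r r2409 (@Lb.g g10 (@Lb.g g5 (@Lb.g g4 (@Lb.d (nat_lit 70) (nat_lit 2) (nat_lit 37) (@Lb.t (@Lb.fp (nat_lit 9) t298))))))))))
noncomputable def l24615 : Lb := (@Lb.d (nat_lit 2) (nat_lit 2) (nat_lit 130) (@Lb.g g8 (@Lb.g g9 (@Lb.g g10 (@Lb.g g11 (@Lb.r r427 (@Lb.r r420 (@Lb.r r102 (@Lb.r r21 (@Lb.r r36 (@Lb.d (nat_lit 258) (nat_lit 10) (nat_lit 168) (@Lb.fp (nat_lit 9) t61))))))))))))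
noncomputable def l24616 : Lb := (@Lb.d (nat_lit 2) (nat_lit 514) (nat_lit 130) (@Lb.g g8 (@Lb.g g9 (@Lb.g g10 (@Lb.g g11 (@Lb.r r427 (@Lb.r r420 (@Lb.r r102 (@Lb.r r21 (@Lb.r r36 (@Lb.d (nat_lit 258) (nat_lit 10) (nat_lit 33) (@Lb.fp (nat_lit 9) t61))))))))))))
noncomputable def l24617 : Lb := (@Lb.d (nat_lit 150) (nat_lit 338) (nat_lit 102) (@Lb.r r405 (@Lb.r r1110 (@Lb.r r1431 (@Lb.g g7 (@Lb.g g6 (@Lb.g g5 (@Lb.g g4 (@Lb.d (nat_lit 1) (nat_lit 24) (nat_lit 128) (@Lb.fp (nat_lit 9) t2317))))))))))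
noncomputable def l24618 : Lb := (@Lb.d (nat_lit 0) (nat_lit 522) (nat_lit 129) (@Lb.g g9 (@Lb.g g10 (@Lb.g g11 (@Lb.r r1681 (@Lb.r r2706 (@Lb.r r387 (@Lb.d (nat_lit 0) (nat_lit 42) (nat_lit 385) (@Lb.t (@Lb.fp (nat_lit 9) t1250))))))))))
noncomputable def l24619 : Lb := (@Lb.d (nat_lit 0) (nat_lit 266) (nat_lit 129) (@Lb.g g9 (@Lb.g g10 (@Lb.g g11 (@Lb.r r419 (@Lb.r r386 (@Lb.d (nat_lit 0) (nat_lit 33) (nat_lit 138) (@Lb.t (@Lb.fp (nat_lit 9) t1969)))))))))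
noncomputable def l24620 : Lb := (@Lb.r r273 (@Lb.d (nat_lit 2) (nat_lit 8) (nat_lit 521) (@Lb.g g8 (@Lb.g g10 (@Lb.g g7 (@Lb.r r2641 (@Lb.r r98 (@Lb.r r24 (@Lb.d (nat_lit 10) (nat_lit 137) (nat_lit 258) (@Lb.t (@Lb.fm (nat_lit 9) t839)))))))))))
noncomputable def l24621 : Lb := (@Lb.r r275 (@Lb.d (nat_lit 0) (nat_lit 9) (nat_lit 10) (@Lb.g g9 (@Lb.g g10 (@Lb.r r1619 (@Lb.r r289 (@Lb.d (nat_lit 0) (nat_lit 17) (nat_lit 386) (@Lb.fm (nat_lit 3) t2181))))))))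
noncomputable def l24622 : Lb := (@Lb.d (nat_lit 2) (nat_lit 16) (nat_lit 137) (@Lb.g g8 (@Lb.g g9 (@Lb.g g10 (@Lb.g g11 (@Lb.r r138 (@Lb.r r529 (@Lb.r r664 (@Lb.r r539 (@Lb.r r2564 (@Lb.d (nat_lit 521) (nat_lit 129) (nat_lit 586) (@Lb.fm (nat_lit 9) t4759))))))))))))
noncomputable def l24623 : Lb := (@Lb.d (nat_lit 0) (nat_lit 390) (nat_lit 262) (@Lb.r r82 (@Lb.r r417 (@Lb.g g11 (@Lb.g g6 (@Lb.g g5 (@Lb.d (nat_lit 0) (nat_lit 8) (nat_lit 0) (@Lb.t (@Lb.fp (nat_lit 9) t4496)))))))))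
noncomputable def l24624 : Lb := (@Lb.d (nat_lit 102) (nat_lit 648) (nat_lit 264) (@Lb.r r597 (@Lb.r r427 (@Lb.r r406 (@Lb.g g7 (@Lb.g g6 (@Lb.g g5 (@Lb.g g4 (@Lb.d (nat_lit 1) (nat_lit 24) (nat_lit 128) (@Lb.fm (nat_lit 9) t3180))))))))))
noncomputable def l24625 : Lb := (@Lb.d (nat_lit 0) (nat_lit 544) (nat_lit 136) (@Lb.g g7 (@Lb.r r677 (@Lb.r r2726 (@Lb.r r1703 (@Lb.r r24 (@Lb.d (nat_lit 681) (nat_lit 128) (nat_lit 345) (@Lb.t (@Lb.fm (nat_lit 3) t1639)))))))))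
noncomputable def l24626 : Lb := (@Lb.d (nat_lit 2) (nat_lit 514) (nat_lit 130) (@Lb.g g8 (@Lb.g g9 (@Lb.g g10 (@Lb.g g11 (@Lb.r r1443 (@Lb.r r297 (@Lb.r r104 (@Lb.r r70 (@Lb.r r132 (@Lb.d (nat_lit 272) (nat_lit 10) (nat_lit 330) (@Lb.fp (nat_lit 9) t88))))))))))))
noncomputable def l24627 : Lb := (@Lb.d (nat_lit 0) (nat_lit 0) (nat_lit 64) (@Lb.g g7 (@Lb.d (nat_lit 0) (nat_lit 0) (nat_lit 128) (@Lb.t (@Lb.fm (nat_lit 3) t2)))))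
noncomputable def l24628 : Lb := (@Lb.d (nat_lit 2) (nat_lit 258) (nat_lit 130) (@Lb.g g8 (@Lb.g g9 (@Lb.g g10 (@Lb.g g11 (@Lb.r r1443 (@Lb.r r297 (@Lb.r r104 (@Lb.r r70 (@Lb.r r132 (@Lb.d (nat_lit 272) (nat_lit 10) (nat_lit 384) (@Lb.fp (nat_lit 9) t88))))))))))))
noncomputable def l24629 : Lb := (@Lb.d (nat_lit 4) (nat_lit 257) (nat_lit 130) (@Lb.g g5 (@Lb.g g10 (@Lb.g g11 (@Lb.r r2587 (@Lb.r r386 (@Lb.r r24 (@Lb.d (nat_lit 130) (nat_lit 6) (nat_lit 330) (@Lb.t (@Lb.fm (nat_lit 9) t1941))))))))))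
noncomputable def l24630 : Lb := (@Lb.d (nat_lit 160) (nat_lit 514) (nat_lit 129) (@Lb.g g9 (@Lb.g g6 (@Lb.g g11 (@Lb.r r264 (@Lb.r r391 (@Lb.r r97 (@Lb.d (nat_lit 258) (nat_lit 24) (nat_lit 273) (@Lb.t (@Lb.fp (nat_lit 9) t1597))))))))))
noncomputable def l24631 : Lb := (@Lb.d (nat_lit 32) (nat_lit 521) (nat_lit 128) (@Lb.g g8 (@Lb.g g9 (@Lb.g g6 (@Lb.g g11 (@Lb.r r1707 (@Lb.r r1625 (@Lb.r r1604 (@Lb.d (nat_lit 409) (nat_lit 66) (nat_lit 597) (@Lb.fp (nat_lit 9) t4760))))))))))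
noncomputable def l24632 : Lb := (@Lb.d (nat_lit 160) (nat_lit 258) (nat_lit 129) (@Lb.g g9 (@Lb.g g6 (@Lb.g g11 (@Lb.r r264 (@Lb.r r391 (@Lb.r r97 (@Lb.d (nat_lit 258) (nat_lit 24) (nat_lit 342) (@Lb.t (@Lb.fp (nat_lit 9) t1597))))))))))
noncomputable def l24633 : Lb := (@Lb.d (nat_lit 290) (nat_lit 2) (nat_lit 17) (@Lb.r r1160 (@Lb.r r1130 (@Lb.r r1427 (@Lb.g g9 (@Lb.g g4 (@Lb.d (nat_lit 4) (nat_lit 10) (nat_lit 0) (@Lb.r r291 (@Lb.r r98 (@Lb.fm (nat_lit 3) t2819))))))))))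
noncomputable def l24634 : Lb := (@Lb.d (nat_lit 101) (nat_lit 36) (nat_lit 130) (@Lb.g g8 (@Lb.g g9 (@Lb.g g10 (@Lb.g g11 (@Lb.r r1699 (@Lb.r r358 (@Lb.r r529 (@Lb.r r2312 (@Lb.d (nat_lit 21) (nat_lit 105) (nat_lit 385) (@Lb.fp (nat_lit 9) t531)))))))))))
noncomputable def l24635 : Lb := (@Lb.d (nat_lit 262) (nat_lit 262) (nat_lit 33) (@Lb.r r24 (@Lb.r r101 (@Lb.r r2403 (@Lb.g g6 (@Lb.d (nat_lit 0) (nat_lit 4) (nat_lit 1) (@Lb.t (@Lb.fm (nat_lit 3) t759))))))))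
noncomputable def l24636 : Lb := (@Lb.g g10 (@Lb.r r101 (@Lb.d (nat_lit 256) (nat_lit 256) (nat_lit 32) (@Lb.t (@Lb.fm (nat_lit 3) t743)))))
noncomputable def l24637 : Lb := (@Lb.d (nat_lit 0) (nat_lit 258) (nat_lit 130) (@Lb.g g8 (@Lb.g g9 (@Lb.g g10 (@Lb.g g11 (@Lb.r r1435 (@Lb.r r145 (@Lb.r r2646 (@Lb.r r1416 (@Lb.d (nat_lit 406) (nat_lit 8) (nat_lit 393) (@Lb.fm (nat_lit 9) t221)))))))))))
noncomputable def l24638 : Lb := (@Lb.d (nat_lit 0) (nat_lit 514) (nat_lit 0) (@Lb.g g9 (@Lb.g g10 (@Lb.r r97 (@Lb.d (nat_lit 292) (nat_lit 0) (nat_lit 32) (@Lb.fp (nat_lit 3) t743))))))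
noncomputable def l24639 : Lb := (@Lb.d (nat_lit 38) (nat_lit 522) (nat_lit 72) (@Lb.g g8 (@Lb.g g9 (@Lb.g g10 (@Lb.g g11 (@Lb.r r1366 (@Lb.r r2711 (@Lb.r r1449 (@Lb.r r612 (@Lb.d (nat_lit 521) (nat_lit 66) (nat_lit 22) (@Lb.fp (nat_lit 9) t3991)))))))))))
noncomputable def l24640 : Lb := (@Lb.d (nat_lit 169) (nat_lit 553) (nat_lit 65) (@Lb.g g8 (@Lb.g g9 (@Lb.g g10 (@Lb.g g11 (@Lb.r r343 (@Lb.r r1410 (@Lb.r r85 (@Lb.r r2580 (@Lb.d (nat_lit 82) (nat_lit 9) (nat_lit 277) (@Lb.fm (nat_lit 9) t3448)))))))))))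
noncomputable def l24641 : Lb := (@Lb.d (nat_lit 129) (nat_lit 545) (nat_lit 66) (@Lb.g g8 (@Lb.g g9 (@Lb.g g10 (@Lb.g g11 (@Lb.r r683 (@Lb.r r1386 (@Lb.r r1305 (@Lb.r r516 (@Lb.d (nat_lit 521) (nat_lit 98) (nat_lit 26) (@Lb.fm (nat_lit 9) t3991)))))))))))
noncomputable def l24642 : Lb := (@Lb.r r70 (@Lb.r r263 (@Lb.d (nat_lit 522) (nat_lit 513) (nat_lit 0) (@Lb.g g8 (@Lb.g g9 (@Lb.r r153 (@Lb.r r402 (@Lb.r r2627 (@Lb.d (nat_lit 640) (nat_lit 0) (nat_lit 384) (@Lb.fm (nat_lit 3) t3404))))))))))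
noncomputable def l24643 : Lb := (@Lb.d (nat_lit 134) (nat_lit 290) (nat_lit 66) (@Lb.g g8 (@Lb.g g9 (@Lb.g g10 (@Lb.g g11 (@Lb.r r683 (@Lb.r r1386 (@Lb.r r1305 (@Lb.r r516 (@Lb.d (nat_lit 521) (nat_lit 98) (nat_lit 26) (@Lb.fm (nat_lit 9) t3991)))))))))))
noncomputable def l24644 : Lb := (@Lb.g g6 (@Lb.r r1379 (@Lb.r r2209 (@Lb.r r1186 (@Lb.r r1124 (@Lb.d (nat_lit 0) (nat_lit 388) (nat_lit 2) (@Lb.t (@Lb.fm (nat_lit 3) t4761))))))))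
noncomputable def l24645 : Lb := (@Lb.d (nat_lit 1) (nat_lit 0) (nat_lit 138) (@Lb.fp (nat_lit 1) t2))
noncomputable def l24646 : Lb := (@Lb.r r68 (@Lb.r r81 (@Lb.d (nat_lit 16) (nat_lit 512) (nat_lit 152) (@Lb.g g6 (@Lb.g g11 (@Lb.r r1640 (@Lb.r r619 (@Lb.r r25 (@Lb.d (nat_lit 6) (nat_lit 152) (nat_lit 392) (@Lb.fp (nat_lit 3) t4762))))))))))
noncomputable def l24647 : Lb := (@Lb.d (nat_lit 1) (nat_lit 516) (nat_lit 86) (@Lb.r r260 (@Lb.r r146 (@Lb.r r267 (@Lb.r r356 (@Lb.g g7 (@Lb.g g6 (@Lb.g g9 (@Lb.g g4 (@Lb.d (nat_lit 6) (nat_lit 66) (nat_lit 65) (@Lb.fp (nat_lit 9) t4763)))))))))))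
noncomputable def l24648 : Lb := (@Lb.d (nat_lit 6) (nat_lit 680) (nat_lit 406) (@Lb.r r1045 (@Lb.r r342 (@Lb.r r1192 (@Lb.g g7 (@Lb.g g6 (@Lb.g g5 (@Lb.g g4 (@Lb.d (nat_lit 96) (nat_lit 25) (nat_lit 330) (@Lb.fm (nat_lit 9) t4764))))))))))
noncomputable def l24649 : Lb := (@Lb.d (nat_lit 32) (nat_lit 4) (nat_lit 128) (@Lb.g g9 (@Lb.g g10 (@Lb.g g11 (@Lb.r r2695 (@Lb.r r1352 (@Lb.r r614 (@Lb.r r97 (@Lb.d (nat_lit 548) (nat_lit 132) (nat_lit 529) (@Lb.t (@Lb.fp (nat_lit 9) t4765)))))))))))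
noncomputable def l24650 : Lb := (@Lb.d (nat_lit 2) (nat_lit 9) (nat_lit 84) (@Lb.r r260 (@Lb.r r146 (@Lb.r r267 (@Lb.r r356 (@Lb.g g7 (@Lb.g g6 (@Lb.g g9 (@Lb.g g4 (@Lb.d (nat_lit 6) (nat_lit 66) (nat_lit 65) (@Lb.fp (nat_lit 9) t4766)))))))))))
noncomputable def l24651 : Lb := (@Lb.d (nat_lit 26) (nat_lit 138) (nat_lit 100) (@Lb.r r650 (@Lb.r r427 (@Lb.r r293 (@Lb.g g7 (@Lb.g g6 (@Lb.g g4 (@Lb.d (nat_lit 41) (nat_lit 4) (nat_lit 65) (@Lb.r r153 (@Lb.t (@Lb.fp (nat_lit 9) t4767)))))))))))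
noncomputable def l24652 : Lb := (@Lb.d (nat_lit 0) (nat_lit 512) (nat_lit 136) (@Lb.g g11 (@Lb.r r1617 (@Lb.r r354 (@Lb.r r1427 (@Lb.r r1124 (@Lb.d (nat_lit 280) (nat_lit 80) (nat_lit 408) (@Lb.t (@Lb.fp (nat_lit 3) t2895)))))))))
noncomputable def l24653 : Lb := (@Lb.d (nat_lit 517) (nat_lit 321) (nat_lit 128) (@Lb.r r1061 (@Lb.r r2132 (@Lb.r r2474 (@Lb.g g11 (@Lb.g g5 (@Lb.g g4 (@Lb.d (nat_lit 1) (nat_lit 18) (nat_lit 392) (@Lb.r r578 (@Lb.t (@Lb.fm (nat_lit 9) t4768)))))))))))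
noncomputable def l24654 : Lb := (@Lb.r r20 (@Lb.d (nat_lit 8) (nat_lit 578) (nat_lit 64) (@Lb.g g9 (@Lb.g g10 (@Lb.g g11 (@Lb.r r610 (@Lb.d (nat_lit 0) (nat_lit 25) (nat_lit 130) (@Lb.t (@Lb.fm (nat_lit 9) t71)))))))))
noncomputable def l24655 : Lb := (@Lb.r r21 (@Lb.r r323 (@Lb.d (nat_lit 130) (nat_lit 264) (nat_lit 2) (@Lb.g g8 (@Lb.g g10 (@Lb.r r615 (@Lb.r r97 (@Lb.r r264 (@Lb.d (nat_lit 128) (nat_lit 2) (nat_lit 130) (@Lb.fp (nat_lit 3) t51))))))))))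
noncomputable def l24656 : Lb := (@Lb.r r21 (@Lb.r r323 (@Lb.d (nat_lit 128) (nat_lit 520) (nat_lit 2) (@Lb.g g8 (@Lb.g g10 (@Lb.r r615 (@Lb.r r97 (@Lb.r r264 (@Lb.d (nat_lit 137) (nat_lit 1) (nat_lit 130) (@Lb.fp (nat_lit 3) t51))))))))))
noncomputable def l24657 : Lb := (@Lb.d (nat_lit 66) (nat_lit 64) (nat_lit 1) (@Lb.r r2196 (@Lb.r r1313 (@Lb.r r603 (@Lb.g g6 (@Lb.g g5 (@Lb.d (nat_lit 16) (nat_lit 16) (nat_lit 1) (@Lb.r r387 (@Lb.fm (nat_lit 3) t68)))))))))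
noncomputable def l24658 : Lb := (@Lb.d (nat_lit 388) (nat_lit 262) (nat_lit 406) (@Lb.r r24 (@Lb.r r101 (@Lb.r r386 (@Lb.g g11 (@Lb.g g6 (@Lb.d (nat_lit 0) (nat_lit 0) (nat_lit 1) (@Lb.fm (nat_lit 3) t834))))))))
noncomputable def l24659 : Lb := (@Lb.d (nat_lit 264) (nat_lit 260) (nat_lit 342) (@Lb.r r81 (@Lb.r r102 (@Lb.r r597 (@Lb.r r343 (@Lb.g g7 (@Lb.g g6 (@Lb.g g5 (@Lb.g g4 (@Lb.d (nat_lit 1) (nat_lit 1) (nat_lit 65) (@Lb.fp (nat_lit 9) t473)))))))))))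
noncomputable def l24660 : Lb := (@Lb.d (nat_lit 405) (nat_lit 518) (nat_lit 276) (@Lb.r r24 (@Lb.r r101 (@Lb.r r386 (@Lb.g g11 (@Lb.g g6 (@Lb.g g4 (@Lb.d (nat_lit 6) (nat_lit 0) (nat_lit 129) (@Lb.t (@Lb.fp (nat_lit 9) t835))))))))))
noncomputable def l24661 : Lb := (@Lb.r r21 (@Lb.r r70 (@Lb.r r263 (@Lb.g g8 (@Lb.r r267 (@Lb.r r74 (@Lb.r r25 (@Lb.d (nat_lit 9) (nat_lit 2) (nat_lit 0) (@Lb.t (@Lb.fp (nat_lit 3) t321))))))))))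
noncomputable def l24662 : Lb := (@Lb.d (nat_lit 512) (nat_lit 576) (nat_lit 0) (@Lb.r r21 (@Lb.r r2084 (@Lb.r r2118 (@Lb.r r2311 (@Lb.g g5 (@Lb.g g8 (@Lb.r r291 (@Lb.r r98 (@Lb.fp (nat_lit 3) t1647))))))))))
noncomputable def l24663 : Lb := (@Lb.d (nat_lit 0) (nat_lit 0) (nat_lit 9) (@Lb.g g8 (@Lb.g g9 (@Lb.g g10 (@Lb.g g7 (@Lb.r r386 (@Lb.r r2145 (@Lb.d (nat_lit 5) (nat_lit 8) (nat_lit 169) (@Lb.fm (nat_lit 9) t420)))))))))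
noncomputable def l24664 : Lb := (@Lb.d (nat_lit 10) (nat_lit 1) (nat_lit 130) (@Lb.g g8 (@Lb.g g9 (@Lb.g g10 (@Lb.g g11 (@Lb.r r1575 (@Lb.r r1637 (@Lb.r r2454 (@Lb.r r1608 (@Lb.d (nat_lit 298) (nat_lit 1) (nat_lit 24) (@Lb.fp (nat_lit 9) t469)))))))))))
noncomputable def l24665 : Lb := (@Lb.d (nat_lit 386) (nat_lit 160) (nat_lit 74) (@Lb.r r277 (@Lb.r r616 (@Lb.r r2390 (@Lb.r r611 (@Lb.g g7 (@Lb.g g6 (@Lb.g g5 (@Lb.d (nat_lit 0) (nat_lit 36) (nat_lit 10) (@Lb.t (@Lb.fp (nat_lit 9) t1256)))))))))))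
noncomputable def l24666 : Lb := (@Lb.d (nat_lit 0) (nat_lit 514) (nat_lit 73) (@Lb.g g8 (@Lb.g g9 (@Lb.g g10 (@Lb.g g11 (@Lb.r r2691 (@Lb.r r88 (@Lb.r r1173 (@Lb.r r1622 (@Lb.r r1188 (@Lb.d (nat_lit 650) (nat_lit 4) (nat_lit 346) (@Lb.fp (nat_lit 9) t4769))))))))))))
noncomputable def l24667 : Lb := (@Lb.d (nat_lit 260) (nat_lit 256) (nat_lit 586) (@Lb.r r2593 (@Lb.r r1575 (@Lb.r r1412 (@Lb.r r2694 (@Lb.g g7 (@Lb.g g6 (@Lb.g g5 (@Lb.d (nat_lit 0) (nat_lit 26) (nat_lit 133) (@Lb.t (@Lb.fm (nat_lit 9) t4770)))))))))))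
noncomputable def l24668 : Lb := (@Lb.r r82 (@Lb.r r275 (@Lb.d (nat_lit 4) (nat_lit 512) (nat_lit 0) (@Lb.g g8 (@Lb.g g9 (@Lb.r r1303 (@Lb.r r1110 (@Lb.r r2089 (@Lb.r r36 (@Lb.d (nat_lit 265) (nat_lit 1) (nat_lit 0) (@Lb.fp (nat_lit 3) t68)))))))))))
noncomputable def l24669 : Lb := (@Lb.r r82 (@Lb.r r275 (@Lb.d (nat_lit 32) (nat_lit 538) (nat_lit 0) (@Lb.g g8 (@Lb.g g9 (@Lb.r r427 (@Lb.r r582 (@Lb.r r388 (@Lb.d (nat_lit 610) (nat_lit 2) (nat_lit 34) (@Lb.fm (nat_lit 3) t819))))))))))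
noncomputable def l24670 : Lb := (@Lb.d (nat_lit 660) (nat_lit 665) (nat_lit 581) (@Lb.r r1446 (@Lb.r r2660 (@Lb.r r281 (@Lb.r r1687 (@Lb.g g7 (@Lb.g g6 (@Lb.g g5 (@Lb.d (nat_lit 0) (nat_lit 8) (nat_lit 132) (@Lb.t (@Lb.fp (nat_lit 9) t819)))))))))))
noncomputable def l24671 : Lb := (@Lb.d (nat_lit 660) (nat_lit 385) (nat_lit 170) (@Lb.r r1637 (@Lb.r r2328 (@Lb.r r386 (@Lb.r r1703 (@Lb.g g7 (@Lb.g g6 (@Lb.g g5 (@Lb.d (nat_lit 0) (nat_lit 17) (nat_lit 129) (@Lb.t (@Lb.fp (nat_lit 9) t4771)))))))))))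
noncomputable def l24672 : Lb := (@Lb.d (nat_lit 2) (nat_lit 609) (nat_lit 0) (@Lb.g g8 (@Lb.g g5 (@Lb.r r322 (@Lb.r r1667 (@Lb.r r578 (@Lb.r r24 (@Lb.d (nat_lit 5) (nat_lit 2) (nat_lit 68) (@Lb.fp (nat_lit 3) t40)))))))))
noncomputable def l24673 : Lb := (@Lb.d (nat_lit 2) (nat_lit 353) (nat_lit 8) (@Lb.g g8 (@Lb.g g5 (@Lb.g g10 (@Lb.r r2371 (@Lb.r r2690 (@Lb.r r24 (@Lb.d (nat_lit 5) (nat_lit 2) (nat_lit 533) (@Lb.t (@Lb.fp (nat_lit 9) t40))))))))))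
noncomputable def l24674 : Lb := (@Lb.r r21 (@Lb.r r70 (@Lb.d (nat_lit 130) (nat_lit 256) (nat_lit 64) (@Lb.g g8 (@Lb.g g11 (@Lb.r r1419 (@Lb.r r402 (@Lb.r r97 (@Lb.d (nat_lit 581) (nat_lit 68) (nat_lit 513) (@Lb.fm (nat_lit 3) t644))))))))))
noncomputable def l24675 : Lb := (@Lb.d (nat_lit 0) (nat_lit 10) (nat_lit 0) (@Lb.g g9 (@Lb.r r2315 (@Lb.r r2196 (@Lb.r r2646 (@Lb.r r409 (@Lb.d (nat_lit 665) (nat_lit 26) (nat_lit 2) (@Lb.t (@Lb.fp (nat_lit 3) t386)))))))))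
noncomputable def l24676 : Lb := (@Lb.d (nat_lit 0) (nat_lit 512) (nat_lit 2) (@Lb.g g8 (@Lb.g g10 (@Lb.g g7 (@Lb.r r386 (@Lb.r r101 (@Lb.r r24 (@Lb.d (nat_lit 586) (nat_lit 9) (nat_lit 553) (@Lb.t (@Lb.fm (nat_lit 9) t166))))))))))
noncomputable def l24677 : Lb := (@Lb.d (nat_lit 2) (nat_lit 514) (nat_lit 0) (@Lb.g g8 (@Lb.g g9 (@Lb.g g10 (@Lb.r r515 (@Lb.r r297 (@Lb.r r360 (@Lb.r r582 (@Lb.r r132 (@Lb.d (nat_lit 2) (nat_lit 5) (nat_lit 72) (@Lb.t (@Lb.fp (nat_lit 9) t242))))))))))))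
noncomputable def l24678 : Lb := (@Lb.d (nat_lit 2) (nat_lit 97) (nat_lit 0) (@Lb.g g8 (@Lb.g g5 (@Lb.r r322 (@Lb.r r1667 (@Lb.r r578 (@Lb.r r24 (@Lb.d (nat_lit 5) (nat_lit 2) (nat_lit 2) (@Lb.fp (nat_lit 3) t40)))))))))
noncomputable def l24679 : Lb := (@Lb.d (nat_lit 0) (nat_lit 82) (nat_lit 266) (@Lb.r r657 (@Lb.r r602 (@Lb.r r356 (@Lb.g g11 (@Lb.g g5 (@Lb.d (nat_lit 8) (nat_lit 1) (nat_lit 384) (@Lb.r r578 (@Lb.fp (nat_lit 3) t2136)))))))))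
noncomputable def l24680 : Lb := (@Lb.r r82 (@Lb.d (nat_lit 642) (nat_lit 266) (nat_lit 128) (@Lb.g g8 (@Lb.g g9 (@Lb.g g11 (@Lb.r r1387 (@Lb.r r150 (@Lb.r r85 (@Lb.d (nat_lit 4) (nat_lit 8) (nat_lit 425) (@Lb.t (@Lb.fp (nat_lit 9) t4772)))))))))))
noncomputable def l24681 : Lb := (@Lb.d (nat_lit 642) (nat_lit 514) (nat_lit 130) (@Lb.g g8 (@Lb.g g9 (@Lb.g g10 (@Lb.g g11 (@Lb.r r1451 (@Lb.r r106 (@Lb.r r25 (@Lb.d (nat_lit 4) (nat_lit 8) (nat_lit 425) (@Lb.fp (nat_lit 9) t394))))))))))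
noncomputable def l24682 : Lb := (@Lb.d (nat_lit 2) (nat_lit 514) (nat_lit 73) (@Lb.g g8 (@Lb.g g9 (@Lb.g g10 (@Lb.g g11 (@Lb.r r2666 (@Lb.r r579 (@Lb.r r97 (@Lb.r r24 (@Lb.d (nat_lit 420) (nat_lit 6) (nat_lit 358) (@Lb.fm (nat_lit 9) t61)))))))))))
noncomputable def l24683 : Lb := (@Lb.d (nat_lit 6) (nat_lit 678) (nat_lit 294) (@Lb.r r21 (@Lb.r r1366 (@Lb.r r683 (@Lb.g g6 (@Lb.g g5 (@Lb.g g4 (@Lb.d (nat_lit 8) (nat_lit 10) (nat_lit 0) (@Lb.t (@Lb.fm (nat_lit 9) t40))))))))))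
noncomputable def l24684 : Lb := (@Lb.d (nat_lit 38) (nat_lit 512) (nat_lit 73) (@Lb.g g8 (@Lb.g g9 (@Lb.g g10 (@Lb.g g11 (@Lb.r r1451 (@Lb.r r164 (@Lb.r r1638 (@Lb.r r97 (@Lb.d (nat_lit 69) (nat_lit 145) (nat_lit 154) (@Lb.fm (nat_lit 9) t644)))))))))))
noncomputable def l24685 : Lb := (@Lb.d (nat_lit 4) (nat_lit 256) (nat_lit 2) (@Lb.g g8 (@Lb.g g9 (@Lb.g g10 (@Lb.r r683 (@Lb.r r2666 (@Lb.r r25 (@Lb.d (nat_lit 0) (nat_lit 90) (nat_lit 537) (@Lb.t (@Lb.fp (nat_lit 9) t591))))))))))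
noncomputable def l24686 : Lb := (@Lb.r r263 (@Lb.d (nat_lit 130) (nat_lit 34) (nat_lit 10) (@Lb.g g8 (@Lb.g g9 (@Lb.g g10 (@Lb.r r275 (@Lb.r r1633 (@Lb.r r1622 (@Lb.r r420 (@Lb.d (nat_lit 34) (nat_lit 68) (nat_lit 330) (@Lb.t (@Lb.fp (nat_lit 9) t1654))))))))))))
noncomputable def l24687 : Lb := (@Lb.d (nat_lit 0) (nat_lit 258) (nat_lit 130) (@Lb.g g9 (@Lb.g g10 (@Lb.g g11 (@Lb.r r2691 (@Lb.r r2665 (@Lb.r r1686 (@Lb.r r1124 (@Lb.d (nat_lit 658) (nat_lit 10) (nat_lit 345) (@Lb.t (@Lb.fp (nat_lit 9) t833)))))))))))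
noncomputable def l24688 : Lb := (@Lb.d (nat_lit 2) (nat_lit 2) (nat_lit 17) (@Lb.r r1094 (@Lb.r r2200 (@Lb.r r2331 (@Lb.g g6 (@Lb.g g9 (@Lb.d (nat_lit 8) (nat_lit 5) (nat_lit 1) (@Lb.r r291 (@Lb.r r36 (@Lb.fm (nat_lit 3) t4773))))))))))
noncomputable def l24689 : Lb := (@Lb.d (nat_lit 0) (nat_lit 514) (nat_lit 17) (@Lb.r r1094 (@Lb.r r2200 (@Lb.r r2331 (@Lb.g g6 (@Lb.g g9 (@Lb.d (nat_lit 8) (nat_lit 5) (nat_lit 1) (@Lb.r r291 (@Lb.r r36 (@Lb.fm (nat_lit 3) t4773))))))))))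
noncomputable def l24690 : Lb := (@Lb.d (nat_lit 545) (nat_lit 152) (nat_lit 336) (@Lb.r r2308 (@Lb.r r97 (@Lb.r r1291 (@Lb.r r404 (@Lb.g g7 (@Lb.g g10 (@Lb.g g5 (@Lb.g g4 (@Lb.d (nat_lit 1) (nat_lit 1) (nat_lit 81) (@Lb.fp (nat_lit 9) t1724)))))))))))
noncomputable def l24691 : Lb := (@Lb.d (nat_lit 32) (nat_lit 514) (nat_lit 130) (@Lb.g g9 (@Lb.g g10 (@Lb.g g11 (@Lb.r r2695 (@Lb.r r1352 (@Lb.r r614 (@Lb.r r97 (@Lb.d (nat_lit 548) (nat_lit 104) (nat_lit 20) (@Lb.t (@Lb.fp (nat_lit 9) t1827)))))))))))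
noncomputable def l24692 : Lb := (@Lb.d (nat_lit 533) (nat_lit 406) (nat_lit 338) (@Lb.r r1697 (@Lb.r r1387 (@Lb.r r264 (@Lb.g g7 (@Lb.g g10 (@Lb.g g5 (@Lb.d (nat_lit 68) (nat_lit 1) (nat_lit 81) (@Lb.r r36 (@Lb.t (@Lb.fm (nat_lit 9) t1723)))))))))))
noncomputable def l24693 : Lb := (@Lb.d (nat_lit 0) (nat_lit 0) (nat_lit 128) (@Lb.g g9 (@Lb.g g11 (@Lb.r r406 (@Lb.r r2659 (@Lb.r r2661 (@Lb.r r24 (@Lb.d (nat_lit 1) (nat_lit 152) (nat_lit 2) (@Lb.fm (nat_lit 3) t4774)))))))))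
noncomputable def l24694 : Lb := (@Lb.r r21 (@Lb.r r1094 (@Lb.d (nat_lit 0) (nat_lit 256) (nat_lit 136) (@Lb.g g8 (@Lb.g g11 (@Lb.r r1636 (@Lb.r r1125 (@Lb.d (nat_lit 0) (nat_lit 64) (nat_lit 137) (@Lb.fp (nat_lit 3) t4775)))))))))
noncomputable def l24695 : Lb := (@Lb.d (nat_lit 1) (nat_lit 266) (nat_lit 128) (@Lb.g g4 (@Lb.g g9 (@Lb.g g11 (@Lb.r r2450 (@Lb.r r2387 (@Lb.r r1689 (@Lb.d (nat_lit 581) (nat_lit 98) (nat_lit 552) (@Lb.t (@Lb.fm (nat_lit 9) t714))))))))))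
noncomputable def l24696 : Lb := (@Lb.d (nat_lit 2) (nat_lit 1) (nat_lit 74) (@Lb.g g8 (@Lb.g g9 (@Lb.g g10 (@Lb.g g11 (@Lb.r r665 (@Lb.r r2459 (@Lb.r r74 (@Lb.r r1553 (@Lb.d (nat_lit 289) (nat_lit 5) (nat_lit 320) (@Lb.fp (nat_lit 9) t145)))))))))))
noncomputable def l24697 : Lb := (@Lb.d (nat_lit 4) (nat_lit 673) (nat_lit 0) (@Lb.g g8 (@Lb.g g5 (@Lb.r r322 (@Lb.r r1667 (@Lb.r r578 (@Lb.r r24 (@Lb.d (nat_lit 0) (nat_lit 1) (nat_lit 68) (@Lb.fp (nat_lit 3) t40)))))))))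
noncomputable def l24698 : Lb := (@Lb.d (nat_lit 0) (nat_lit 514) (nat_lit 66) (@Lb.g g9 (@Lb.g g10 (@Lb.g g11 (@Lb.r r586 (@Lb.r r584 (@Lb.r r1323 (@Lb.r r1313 (@Lb.d (nat_lit 9) (nat_lit 66) (nat_lit 256) (@Lb.t (@Lb.fm (nat_lit 9) t51)))))))))))
noncomputable def l24699 : Lb := (@Lb.d (nat_lit 4) (nat_lit 514) (nat_lit 0) (@Lb.g g8 (@Lb.g g9 (@Lb.g g10 (@Lb.r r515 (@Lb.r r1321 (@Lb.r r360 (@Lb.r r582 (@Lb.r r132 (@Lb.d (nat_lit 2) (nat_lit 10) (nat_lit 361) (@Lb.t (@Lb.fp (nat_lit 9) t242))))))))))))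
noncomputable def l24700 : Lb := (@Lb.d (nat_lit 4) (nat_lit 161) (nat_lit 0) (@Lb.g g8 (@Lb.g g5 (@Lb.r r322 (@Lb.r r1667 (@Lb.r r578 (@Lb.r r24 (@Lb.d (nat_lit 10) (nat_lit 0) (nat_lit 68) (@Lb.fp (nat_lit 3) t40)))))))))
noncomputable def l24701 : Lb := (@Lb.d (nat_lit 4) (nat_lit 417) (nat_lit 0) (@Lb.g g8 (@Lb.g g5 (@Lb.r r322 (@Lb.r r1667 (@Lb.r r578 (@Lb.r r24 (@Lb.d (nat_lit 10) (nat_lit 0) (nat_lit 2) (@Lb.fp (nat_lit 3) t40)))))))))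
noncomputable def l24702 : Lb := (@Lb.d (nat_lit 36) (nat_lit 258) (nat_lit 0) (@Lb.g g8 (@Lb.g g9 (@Lb.r r515 (@Lb.r r1385 (@Lb.r r150 (@Lb.r r612 (@Lb.d (nat_lit 153) (nat_lit 26) (nat_lit 293) (@Lb.fp (nat_lit 3) t242)))))))))
noncomputable def l24703 : Lb := (@Lb.r r2577 (@Lb.r r2564 (@Lb.d (nat_lit 0) (nat_lit 672) (nat_lit 512) (@Lb.fp (nat_lit 1) t1135))))
noncomputable def l24704 : Lb := (@Lb.d (nat_lit 32) (nat_lit 512) (nat_lit 66) (@Lb.g g10 (@Lb.g g11 (@Lb.r r423 (@Lb.r r153 (@Lb.r r100 (@Lb.r r410 (@Lb.d (nat_lit 9) (nat_lit 21) (nat_lit 84) (@Lb.fp (nat_lit 3) t221)))))))))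
noncomputable def l24705 : Lb := (@Lb.d (nat_lit 1) (nat_lit 258) (nat_lit 66) (@Lb.g g8 (@Lb.g g9 (@Lb.g g10 (@Lb.g g11 (@Lb.r r582 (@Lb.r r388 (@Lb.r r1323 (@Lb.r r1313 (@Lb.d (nat_lit 9) (nat_lit 68) (nat_lit 385) (@Lb.fm (nat_lit 9) t119)))))))))))
noncomputable def l24706 : Lb := (@Lb.d (nat_lit 38) (nat_lit 10) (nat_lit 72) (@Lb.g g8 (@Lb.g g9 (@Lb.g g10 (@Lb.g g11 (@Lb.r r1667 (@Lb.r r2345 (@Lb.r r360 (@Lb.r r2630 (@Lb.r r2180 (@Lb.d (nat_lit 385) (nat_lit 74) (nat_lit 617) (@Lb.fm (nat_lit 9) t2697))))))))))))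
noncomputable def l24707 : Lb := (@Lb.r r82 (@Lb.d (nat_lit 9) (nat_lit 33) (nat_lit 64) (@Lb.g g8 (@Lb.g g9 (@Lb.g g11 (@Lb.r r681 (@Lb.r r2154 (@Lb.r r2404 (@Lb.r r587 (@Lb.d (nat_lit 289) (nat_lit 86) (nat_lit 17) (@Lb.t (@Lb.fm (nat_lit 9) t2697))))))))))))
noncomputable def l24708 : Lb := (@Lb.d (nat_lit 405) (nat_lit 257) (nat_lit 292) (@Lb.r r1284 (@Lb.r r2587 (@Lb.r r1365 (@Lb.r r40 (@Lb.g g7 (@Lb.g g6 (@Lb.g g5 (@Lb.d (nat_lit 16) (nat_lit 1) (nat_lit 33) (@Lb.t (@Lb.fp (nat_lit 9) t1201)))))))))))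
noncomputable def l24709 : Lb := (@Lb.d (nat_lit 2) (nat_lit 9) (nat_lit 72) (@Lb.g g8 (@Lb.g g9 (@Lb.g g10 (@Lb.g g11 (@Lb.r r2691 (@Lb.r r297 (@Lb.r r360 (@Lb.r r582 (@Lb.r r2180 (@Lb.d (nat_lit 641) (nat_lit 10) (nat_lit 265) (@Lb.fm (nat_lit 9) t50))))))))))))
noncomputable def l24710 : Lb := (@Lb.d (nat_lit 129) (nat_lit 514) (nat_lit 130) (@Lb.g g8 (@Lb.g g9 (@Lb.g g10 (@Lb.g g11 (@Lb.r r162 (@Lb.r r552 (@Lb.r r1689 (@Lb.r r1563 (@Lb.r r516 (@Lb.d (nat_lit 522) (nat_lit 4) (nat_lit 104) (@Lb.fm (nat_lit 9) t4776))))))))))))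
noncomputable def l24711 : Lb := (@Lb.d (nat_lit 545) (nat_lit 405) (nat_lit 321) (@Lb.r r2308 (@Lb.r r2178 (@Lb.r r1291 (@Lb.r r292 (@Lb.g g7 (@Lb.g g9 (@Lb.g g4 (@Lb.d (nat_lit 6) (nat_lit 68) (nat_lit 64) (@Lb.t (@Lb.fp (nat_lit 9) t417)))))))))))
noncomputable def l24712 : Lb := (@Lb.d (nat_lit 2) (nat_lit 258) (nat_lit 130) (@Lb.g g8 (@Lb.g g9 (@Lb.g g10 (@Lb.g g11 (@Lb.r r427 (@Lb.r r145 (@Lb.r r356 (@Lb.r r154 (@Lb.r r132 (@Lb.d (nat_lit 0) (nat_lit 66) (nat_lit 154) (@Lb.fm (nat_lit 9) t741))))))))))))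
noncomputable def l24713 : Lb := (@Lb.d (nat_lit 2) (nat_lit 2) (nat_lit 130) (@Lb.g g8 (@Lb.g g9 (@Lb.g g10 (@Lb.g g11 (@Lb.r r427 (@Lb.r r145 (@Lb.r r356 (@Lb.r r154 (@Lb.r r132 (@Lb.d (nat_lit 0) (nat_lit 66) (nat_lit 16) (@Lb.fm (nat_lit 9) t741))))))))))))
noncomputable def l24714 : Lb := (@Lb.g g5 (@Lb.g g7 (@Lb.p (nat_lit 2) (@Lb.fm (nat_lit 3) t2))))
noncomputable def l24715 : Lb := (@Lb.d (nat_lit 2) (nat_lit 9) (nat_lit 129) (@Lb.g g8 (@Lb.g g9 (@Lb.g g10 (@Lb.g g11 (@Lb.r r427 (@Lb.r r388 (@Lb.r r70 (@Lb.r r153 (@Lb.r r132 (@Lb.d (nat_lit 9) (nat_lit 66) (nat_lit 16) (@Lb.fp (nat_lit 9) t1640))))))))))))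
noncomputable def l24716 : Lb := (@Lb.d (nat_lit 1) (nat_lit 265) (nat_lit 129) (@Lb.g g8 (@Lb.g g9 (@Lb.g g10 (@Lb.g g11 (@Lb.r r427 (@Lb.r r388 (@Lb.r r70 (@Lb.r r153 (@Lb.r r132 (@Lb.d (nat_lit 6) (nat_lit 65) (nat_lit 154) (@Lb.fp (nat_lit 9) t408))))))))))))
noncomputable def l24717 : Lb := (@Lb.d (nat_lit 390) (nat_lit 406) (nat_lit 530) (@Lb.r r2325 (@Lb.r r2390 (@Lb.r r2731 (@Lb.g g6 (@Lb.g g5 (@Lb.g g4 (@Lb.d (nat_lit 1) (nat_lit 5) (nat_lit 2) (@Lb.t (@Lb.fm (nat_lit 9) t578))))))))))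
noncomputable def l24718 : Lb := (@Lb.r r584 (@Lb.r r86 (@Lb.r r289 (@Lb.r r1435 (@Lb.r r132 (@Lb.d (nat_lit 577) (nat_lit 64) (nat_lit 576) (@Lb.fp (nat_lit 1) t4777)))))))
noncomputable def l24719 : Lb := (@Lb.r r82 (@Lb.r r275 (@Lb.d (nat_lit 34) (nat_lit 8) (nat_lit 0) (@Lb.g g8 (@Lb.g g9 (@Lb.r r427 (@Lb.r r582 (@Lb.r r408 (@Lb.d (nat_lit 145) (nat_lit 89) (nat_lit 16) (@Lb.fp (nat_lit 3) t1640))))))))))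
noncomputable def l24720 : Lb := (@Lb.d (nat_lit 2) (nat_lit 9) (nat_lit 6) (@Lb.g g8 (@Lb.g g9 (@Lb.g g10 (@Lb.g g11 (@Lb.r r2722 (@Lb.r r548 (@Lb.r r661 (@Lb.r r535 (@Lb.r r2084 (@Lb.d (nat_lit 9) (nat_lit 9) (nat_lit 329) (@Lb.fp (nat_lit 9) t512))))))))))))
noncomputable def l24721 : Lb := (@Lb.d (nat_lit 8) (nat_lit 9) (nat_lit 129) (@Lb.g g9 (@Lb.g g10 (@Lb.g g11 (@Lb.r r614 (@Lb.r r404 (@Lb.r r619 (@Lb.r r537 (@Lb.d (nat_lit 72) (nat_lit 105) (nat_lit 22) (@Lb.t (@Lb.fp (nat_lit 9) t4778)))))))))))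
noncomputable def l24722 : Lb := (@Lb.d (nat_lit 614) (nat_lit 393) (nat_lit 656) (@Lb.r r2401 (@Lb.r r1319 (@Lb.r r2724 (@Lb.r r2150 (@Lb.g g7 (@Lb.g g5 (@Lb.d (nat_lit 0) (nat_lit 5) (nat_lit 128) (@Lb.fp (nat_lit 3) t2316)))))))))
noncomputable def l24723 : Lb := (@Lb.g g8 (@Lb.r r101 (@Lb.r r24 (@Lb.d (nat_lit 584) (nat_lit 2) (nat_lit 528) (@Lb.t (@Lb.fp (nat_lit 3) t1150))))))
noncomputable def l24724 : Lb := (@Lb.d (nat_lit 0) (nat_lit 82) (nat_lit 650) (@Lb.r r657 (@Lb.r r346 (@Lb.r r100 (@Lb.g g5 (@Lb.d (nat_lit 8) (nat_lit 1) (nat_lit 0) (@Lb.t (@Lb.fm (nat_lit 3) t3013))))))))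
noncomputable def l24725 : Lb := (@Lb.g g8 (@Lb.r r101 (@Lb.r r24 (@Lb.d (nat_lit 577) (nat_lit 512) (nat_lit 528) (@Lb.t (@Lb.fp (nat_lit 3) t1150))))))
noncomputable def l24726 : Lb := (@Lb.d (nat_lit 4) (nat_lit 517) (nat_lit 0) (@Lb.g g8 (@Lb.g g9 (@Lb.g g10 (@Lb.r r683 (@Lb.r r2666 (@Lb.r r25 (@Lb.d (nat_lit 9) (nat_lit 89) (nat_lit 537) (@Lb.t (@Lb.fp (nat_lit 9) t1369))))))))))
noncomputable def l24727 : Lb := (@Lb.r r21 (@Lb.r r70 (@Lb.r r263 (@Lb.d (nat_lit 522) (nat_lit 256) (nat_lit 0) (@Lb.g g8 (@Lb.r r101 (@Lb.r r402 (@Lb.r r2627 (@Lb.d (nat_lit 1) (nat_lit 0) (nat_lit 0) (@Lb.t (@Lb.fm (nat_lit 3) t3404)))))))))))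
noncomputable def l24728 : Lb := (@Lb.d (nat_lit 257) (nat_lit 384) (nat_lit 128) (@Lb.r r2085 (@Lb.r r1112 (@Lb.r r422 (@Lb.g g11 (@Lb.g g5 (@Lb.d (nat_lit 0) (nat_lit 17) (nat_lit 264) (@Lb.r r578 (@Lb.fm (nat_lit 3) t1895)))))))))
noncomputable def l24729 : Lb := (@Lb.d (nat_lit 1) (nat_lit 0) (nat_lit 128) (@Lb.g g8 (@Lb.g g10 (@Lb.g g11 (@Lb.r r552 (@Lb.r r1627 (@Lb.r r402 (@Lb.r r1057 (@Lb.r r132 (@Lb.d (nat_lit 5) (nat_lit 70) (nat_lit 169) (@Lb.t (@Lb.fm (nat_lit 9) t3946))))))))))))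
noncomputable def l24730 : Lb := (@Lb.d (nat_lit 0) (nat_lit 292) (nat_lit 17) (@Lb.g g9 (@Lb.g g6 (@Lb.r r1559 (@Lb.r r2340 (@Lb.r r1317 (@Lb.d (nat_lit 330) (nat_lit 33) (nat_lit 544) (@Lb.fp (nat_lit 3) t4465))))))))
noncomputable def l24731 : Lb := (@Lb.d (nat_lit 134) (nat_lit 17) (nat_lit 353) (@Lb.r r277 (@Lb.r r342 (@Lb.r r2731 (@Lb.g g7 (@Lb.g g6 (@Lb.g g5 (@Lb.g g4 (@Lb.d (nat_lit 1) (nat_lit 17) (nat_lit 65) (@Lb.fm (nat_lit 9) t304))))))))))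
noncomputable def l24732 : Lb := (@Lb.d (nat_lit 9) (nat_lit 257) (nat_lit 73) (@Lb.g g8 (@Lb.g g9 (@Lb.g g10 (@Lb.g g11 (@Lb.r r1699 (@Lb.r r164 (@Lb.r r2709 (@Lb.r r2198 (@Lb.r r2084 (@Lb.d (nat_lit 289) (nat_lit 162) (nat_lit 361) (@Lb.fp (nat_lit 9) t791))))))))))))
noncomputable def l24733 : Lb := (@Lb.r r82 (@Lb.d (nat_lit 0) (nat_lit 2) (nat_lit 128) (@Lb.g g9 (@Lb.g g11 (@Lb.r r338 (@Lb.r r387 (@Lb.r r609 (@Lb.d (nat_lit 0) (nat_lit 36) (nat_lit 132) (@Lb.fp (nat_lit 3) t286)))))))))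
noncomputable def l24734 : Lb := (@Lb.d (nat_lit 0) (nat_lit 16) (nat_lit 133) (@Lb.r r1543 (@Lb.r r2376 (@Lb.r r1158 (@Lb.g g9 (@Lb.d (nat_lit 8) (nat_lit 134) (nat_lit 0) (@Lb.t (@Lb.fm (nat_lit 3) t669))))))))
noncomputable def l24735 : Lb := (@Lb.r r82 (@Lb.d (nat_lit 0) (nat_lit 385) (nat_lit 128) (@Lb.g g5 (@Lb.g g11 (@Lb.r r595 (@Lb.r r386 (@Lb.d (nat_lit 0) (nat_lit 37) (nat_lit 596) (@Lb.fp (nat_lit 3) t2792))))))))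
noncomputable def l24736 : Lb := (@Lb.d (nat_lit 21) (nat_lit 256) (nat_lit 0) (@Lb.g g8 (@Lb.g g9 (@Lb.g g10 (@Lb.g g11 (@Lb.r r1675 (@Lb.r r36 (@Lb.r r1381 (@Lb.r r2202 (@Lb.d (nat_lit 282) (nat_lit 9) (nat_lit 665) (@Lb.fm (nat_lit 9) t1278)))))))))))
noncomputable def l24737 : Lb := (@Lb.d (nat_lit 6) (nat_lit 513) (nat_lit 512) (@Lb.r r326 (@Lb.r r1675 (@Lb.r r676 (@Lb.r r341 (@Lb.r r674 (@Lb.g g4 (@Lb.t (@Lb.fm (nat_lit 3) t40)))))))))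
noncomputable def l24738 : Lb := (@Lb.d (nat_lit 4) (nat_lit 545) (nat_lit 0) (@Lb.g g5 (@Lb.r r515 (@Lb.r r72 (@Lb.r r582 (@Lb.r r132 (@Lb.d (nat_lit 2) (nat_lit 32) (nat_lit 74) (@Lb.t (@Lb.fm (nat_lit 3) t242)))))))))
noncomputable def l24739 : Lb := (@Lb.d (nat_lit 34) (nat_lit 1) (nat_lit 72) (@Lb.g g8 (@Lb.g g9 (@Lb.g g11 (@Lb.r r2370 (@Lb.r r1431 (@Lb.r r2585 (@Lb.r r1556 (@Lb.d (nat_lit 133) (nat_lit 98) (nat_lit 610) (@Lb.t (@Lb.fm (nat_lit 9) t322)))))))))))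
noncomputable def l24740 : Lb := (@Lb.r r323 (@Lb.d (nat_lit 130) (nat_lit 258) (nat_lit 2) (@Lb.g g8 (@Lb.g g9 (@Lb.g g10 (@Lb.r r599 (@Lb.r r98 (@Lb.r r97 (@Lb.r r408 (@Lb.d (nat_lit 149) (nat_lit 100) (nat_lit 388) (@Lb.t (@Lb.fp (nat_lit 9) t51))))))))))))
noncomputable def l24741 : Lb := (@Lb.d (nat_lit 32) (nat_lit 1) (nat_lit 0) (@Lb.g g8 (@Lb.g g9 (@Lb.r r2411 (@Lb.r r598 (@Lb.r r2457 (@Lb.r r1428 (@Lb.d (nat_lit 101) (nat_lit 90) (nat_lit 290) (@Lb.fm (nat_lit 3) t386)))))))))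
noncomputable def l24742 : Lb := (@Lb.d (nat_lit 2) (nat_lit 514) (nat_lit 2) (@Lb.g g8 (@Lb.g g9 (@Lb.g g10 (@Lb.r r683 (@Lb.r r2666 (@Lb.r r2585 (@Lb.d (nat_lit 329) (nat_lit 169) (nat_lit 33) (@Lb.t (@Lb.fp (nat_lit 9) t3706))))))))))
noncomputable def l24743 : Lb := (@Lb.r r21 (@Lb.r r323 (@Lb.d (nat_lit 136) (nat_lit 512) (nat_lit 2) (@Lb.g g8 (@Lb.g g10 (@Lb.r r2394 (@Lb.r r1685 (@Lb.r r1559 (@Lb.r r2312 (@Lb.d (nat_lit 393) (nat_lit 133) (nat_lit 657) (@Lb.fm (nat_lit 3) t51)))))))))))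
noncomputable def l24744 : Lb := (@Lb.d (nat_lit 2) (nat_lit 514) (nat_lit 9) (@Lb.g g8 (@Lb.g g9 (@Lb.g g6 (@Lb.r r515 (@Lb.r r97 (@Lb.r r24 (@Lb.d (nat_lit 10) (nat_lit 9) (nat_lit 74) (@Lb.t (@Lb.fm (nat_lit 9) t40))))))))))
noncomputable def l24745 : Lb := (@Lb.d (nat_lit 136) (nat_lit 0) (nat_lit 26) (@Lb.g g8 (@Lb.g g10 (@Lb.r r615 (@Lb.r r2661 (@Lb.r r404 (@Lb.d (nat_lit 102) (nat_lit 84) (nat_lit 33) (@Lb.fm (nat_lit 3) t386))))))))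
noncomputable def l24746 : Lb := (@Lb.d (nat_lit 2) (nat_lit 66) (nat_lit 73) (@Lb.g g8 (@Lb.g g9 (@Lb.g g10 (@Lb.g g11 (@Lb.r r2475 (@Lb.r r2440 (@Lb.r r2122 (@Lb.d (nat_lit 536) (nat_lit 129) (nat_lit 136) (@Lb.fm (nat_lit 9) t1242))))))))))
noncomputable def l24747 : Lb := (@Lb.d (nat_lit 0) (nat_lit 0) (nat_lit 73) (@Lb.g g10 (@Lb.g g11 (@Lb.r r642 (@Lb.r r1683 (@Lb.r r1602 (@Lb.d (nat_lit 0) (nat_lit 17) (nat_lit 610) (@Lb.fm (nat_lit 3) t295))))))))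
noncomputable def l24748 : Lb := (@Lb.d (nat_lit 1) (nat_lit 0) (nat_lit 2) (@Lb.g g8 (@Lb.g g9 (@Lb.g g10 (@Lb.r r1707 (@Lb.r r2713 (@Lb.r r2650 (@Lb.r r2628 (@Lb.d (nat_lit 154) (nat_lit 65) (nat_lit 425) (@Lb.t (@Lb.fp (nat_lit 9) t441)))))))))))
noncomputable def l24749 : Lb := (@Lb.d (nat_lit 1) (nat_lit 322) (nat_lit 73) (@Lb.g g8 (@Lb.g g9 (@Lb.g g10 (@Lb.g g11 (@Lb.r r2475 (@Lb.r r2440 (@Lb.r r2122 (@Lb.d (nat_lit 536) (nat_lit 0) (nat_lit 136) (@Lb.fm (nat_lit 9) t1242))))))))))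
noncomputable def l24750 : Lb := (@Lb.d (nat_lit 0) (nat_lit 512) (nat_lit 73) (@Lb.g g10 (@Lb.g g11 (@Lb.r r642 (@Lb.r r1683 (@Lb.r r1602 (@Lb.d (nat_lit 0) (nat_lit 17) (nat_lit 674) (@Lb.fm (nat_lit 3) t349))))))))
noncomputable def l24751 : Lb := (@Lb.r r2403 (@Lb.r r594 (@Lb.d (nat_lit 0) (nat_lit 320) (nat_lit 32) (@Lb.fp (nat_lit 1) t1901))))
noncomputable def l24752 : Lb := (@Lb.d (nat_lit 0) (nat_lit 512) (nat_lit 138) (@Lb.g g10 (@Lb.g g11 (@Lb.r r354 (@Lb.r r2451 (@Lb.d (nat_lit 0) (nat_lit 64) (nat_lit 512) (@Lb.fm (nat_lit 3) t387)))))))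
noncomputable def l24753 : Lb := (@Lb.g g6 (@Lb.r r1667 (@Lb.r r2690 (@Lb.d (nat_lit 0) (nat_lit 261) (nat_lit 70) (@Lb.t (@Lb.fm (nat_lit 3) t45))))))
noncomputable def l24754 : Lb := (@Lb.r r323 (@Lb.d (nat_lit 2) (nat_lit 514) (nat_lit 2) (@Lb.g g8 (@Lb.g g9 (@Lb.g g10 (@Lb.r r401 (@Lb.r r299 (@Lb.r r392 (@Lb.r r74 (@Lb.d (nat_lit 528) (nat_lit 10) (nat_lit 32) (@Lb.t (@Lb.fp (nat_lit 9) t221))))))))))))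
noncomputable def l24755 : Lb := (@Lb.r r101 (@Lb.r r24 (@Lb.d (nat_lit 514) (nat_lit 0) (nat_lit 96) (@Lb.fp (nat_lit 1) t319))))
noncomputable def l24756 : Lb := (@Lb.d (nat_lit 10) (nat_lit 0) (nat_lit 2) (@Lb.g g8 (@Lb.g g10 (@Lb.r r2331 (@Lb.r r2193 (@Lb.r r2458 (@Lb.r r2436 (@Lb.d (nat_lit 360) (nat_lit 64) (nat_lit 682) (@Lb.fp (nat_lit 3) t4779)))))))))
noncomputable def l24757 : Lb := (@Lb.d (nat_lit 0) (nat_lit 514) (nat_lit 5) (@Lb.g g9 (@Lb.g g10 (@Lb.g g11 (@Lb.r r2466 (@Lb.r r2713 (@Lb.r r2587 (@Lb.r r24 (@Lb.d (nat_lit 672) (nat_lit 5) (nat_lit 330) (@Lb.t (@Lb.fp (nat_lit 9) t1087)))))))))))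
noncomputable def l24758 : Lb := (@Lb.d (nat_lit 576) (nat_lit 2) (nat_lit 640) (@Lb.r r24 (@Lb.r r2138 (@Lb.r r2587 (@Lb.g g7 (@Lb.g g9 (@Lb.d (nat_lit 8) (nat_lit 2) (nat_lit 128) (@Lb.fp (nat_lit 3) t225))))))))
noncomputable def l24759 : Lb := (@Lb.d (nat_lit 2) (nat_lit 516) (nat_lit 65) (@Lb.g g8 (@Lb.g g9 (@Lb.g g10 (@Lb.g g11 (@Lb.r r618 (@Lb.r r25 (@Lb.d (nat_lit 2) (nat_lit 26) (nat_lit 130) (@Lb.fp (nat_lit 9) t524)))))))))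
noncomputable def l24760 : Lb := (@Lb.d (nat_lit 26) (nat_lit 257) (nat_lit 0) (@Lb.g g8 (@Lb.g g9 (@Lb.g g10 (@Lb.r r683 (@Lb.r r2666 (@Lb.r r36 (@Lb.r r37 (@Lb.d (nat_lit 362) (nat_lit 1) (nat_lit 537) (@Lb.t (@Lb.fm (nat_lit 9) t979)))))))))))
noncomputable def l24761 : Lb := (@Lb.r r323 (@Lb.g g10 (@Lb.r r90 (@Lb.r r584 (@Lb.r r299 (@Lb.r r289 (@Lb.d (nat_lit 10) (nat_lit 530) (nat_lit 0) (@Lb.t (@Lb.fp (nat_lit 3) t259)))))))))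
noncomputable def l24762 : Lb := (@Lb.r r21 (@Lb.r r70 (@Lb.d (nat_lit 130) (nat_lit 0) (nat_lit 64) (@Lb.g g8 (@Lb.g g11 (@Lb.r r2347 (@Lb.r r89 (@Lb.r r422 (@Lb.d (nat_lit 277) (nat_lit 146) (nat_lit 546) (@Lb.fp (nat_lit 3) t4780))))))))))
noncomputable def l24763 : Lb := (@Lb.d (nat_lit 2) (nat_lit 8) (nat_lit 74) (@Lb.g g8 (@Lb.g g10 (@Lb.g g11 (@Lb.r r2723 (@Lb.r r2129 (@Lb.r r418 (@Lb.d (nat_lit 2) (nat_lit 72) (nat_lit 393) (@Lb.t (@Lb.fm (nat_lit 9) t616))))))))))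
noncomputable def l24764 : Lb := (@Lb.g g7 (@Lb.r r597 (@Lb.r r1386 (@Lb.r r407 (@Lb.r r1096 (@Lb.d (nat_lit 17) (nat_lit 256) (nat_lit 576) (@Lb.t (@Lb.fp (nat_lit 3) t414))))))))
noncomputable def l24765 : Lb := (@Lb.r r82 (@Lb.d (nat_lit 0) (nat_lit 33) (nat_lit 64) (@Lb.g g8 (@Lb.g g9 (@Lb.g g11 (@Lb.r r425 (@Lb.r r1642 (@Lb.r r1635 (@Lb.r r1096 (@Lb.d (nat_lit 34) (nat_lit 136) (nat_lit 361) (@Lb.t (@Lb.fp (nat_lit 9) t2561))))))))))))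
noncomputable def l24766 : Lb := (@Lb.d (nat_lit 282) (nat_lit 24) (nat_lit 96) (@Lb.r r105 (@Lb.r r612 (@Lb.r r583 (@Lb.g g6 (@Lb.g g5 (@Lb.g g4 (@Lb.d (nat_lit 64) (nat_lit 17) (nat_lit 33) (@Lb.r r387 (@Lb.t (@Lb.fp (nat_lit 9) t745)))))))))))
noncomputable def l24767 : Lb := (@Lb.r r82 (@Lb.d (nat_lit 0) (nat_lit 545) (nat_lit 64) (@Lb.g g8 (@Lb.g g9 (@Lb.g g11 (@Lb.r r425 (@Lb.r r1642 (@Lb.r r1635 (@Lb.r r1096 (@Lb.d (nat_lit 32) (nat_lit 136) (nat_lit 361) (@Lb.t (@Lb.fp (nat_lit 9) t1714))))))))))))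
noncomputable def l24768 : Lb := (@Lb.d (nat_lit 2) (nat_lit 2) (nat_lit 130) (@Lb.g g8 (@Lb.g g9 (@Lb.g g10 (@Lb.g g11 (@Lb.r r516 (@Lb.r r263 (@Lb.r r2713 (@Lb.r r146 (@Lb.r r516 (@Lb.d (nat_lit 38) (nat_lit 10) (nat_lit 161) (@Lb.fm (nat_lit 9) t3052))))))))))))
noncomputable def l24769 : Lb := (@Lb.d (nat_lit 97) (nat_lit 38) (nat_lit 130) (@Lb.r r610 (@Lb.r r411 (@Lb.r r328 (@Lb.g g7 (@Lb.g g6 (@Lb.g g9 (@Lb.d (nat_lit 16) (nat_lit 26) (nat_lit 128) (@Lb.r r36 (@Lb.t (@Lb.fp (nat_lit 9) t4781)))))))))))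
noncomputable def l24770 : Lb := (@Lb.r r21 (@Lb.r r70 (@Lb.d (nat_lit 128) (nat_lit 256) (nat_lit 128) (@Lb.g g8 (@Lb.g g11 (@Lb.r r2635 (@Lb.r r402 (@Lb.r r97 (@Lb.r r1044 (@Lb.d (nat_lit 520) (nat_lit 66) (nat_lit 0) (@Lb.fp (nat_lit 3) t739)))))))))))
noncomputable def l24771 : Lb := (@Lb.r r275 (@Lb.d (nat_lit 2) (nat_lit 2) (nat_lit 10) (@Lb.g g8 (@Lb.g g9 (@Lb.g g10 (@Lb.r r2571 (@Lb.r r1689 (@Lb.r r2712 (@Lb.r r1626 (@Lb.d (nat_lit 361) (nat_lit 38) (nat_lit 665) (@Lb.t (@Lb.fm (nat_lit 9) t1658))))))))))))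
noncomputable def l24772 : Lb := (@Lb.d (nat_lit 2) (nat_lit 2) (nat_lit 130) (@Lb.g g8 (@Lb.g g9 (@Lb.g g10 (@Lb.g g11 (@Lb.r r427 (@Lb.r r2146 (@Lb.r r292 (@Lb.r r2069 (@Lb.r r1060 (@Lb.d (nat_lit 294) (nat_lit 105) (nat_lit 417) (@Lb.fp (nat_lit 9) t1351))))))))))))
noncomputable def l24773 : Lb := (@Lb.d (nat_lit 36) (nat_lit 0) (nat_lit 136) (@Lb.g g8 (@Lb.g g9 (@Lb.g g11 (@Lb.r r86 (@Lb.r r345 (@Lb.r r359 (@Lb.r r1540 (@Lb.d (nat_lit 658) (nat_lit 10) (nat_lit 642) (@Lb.t (@Lb.fm (nat_lit 9) t285)))))))))))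
noncomputable def l24774 : Lb := (@Lb.d (nat_lit 388) (nat_lit 82) (nat_lit 322) (@Lb.r r2321 (@Lb.r r1635 (@Lb.g g10 (@Lb.g g5 (@Lb.d (nat_lit 32) (nat_lit 6) (nat_lit 24) (@Lb.r r387 (@Lb.fm (nat_lit 3) t934))))))))
noncomputable def l24775 : Lb := (@Lb.r r273 (@Lb.d (nat_lit 2) (nat_lit 0) (nat_lit 578) (@Lb.g g8 (@Lb.g g10 (@Lb.g g7 (@Lb.r r386 (@Lb.r r2145 (@Lb.r r1096 (@Lb.d (nat_lit 546) (nat_lit 80) (nat_lit 345) (@Lb.t (@Lb.fm (nat_lit 9) t4782)))))))))))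
noncomputable def l24776 : Lb := (@Lb.r r81 (@Lb.r r327 (@Lb.d (nat_lit 2) (nat_lit 520) (nat_lit 32) (@Lb.g g8 (@Lb.g g10 (@Lb.r r1125 (@Lb.r r1304 (@Lb.r r1543 (@Lb.d (nat_lit 0) (nat_lit 162) (nat_lit 130) (@Lb.fp (nat_lit 3) t1774))))))))))
noncomputable def l24777 : Lb := (@Lb.r r322 (@Lb.d (nat_lit 2) (nat_lit 2) (nat_lit 72) (@Lb.g g8 (@Lb.g g9 (@Lb.g g7 (@Lb.r r2409 (@Lb.r r2404 (@Lb.r r1610 (@Lb.d (nat_lit 529) (nat_lit 10) (nat_lit 132) (@Lb.t (@Lb.fm (nat_lit 9) t939)))))))))))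
noncomputable def l24778 : Lb := (@Lb.d (nat_lit 0) (nat_lit 512) (nat_lit 2) (@Lb.g g5 (@Lb.g g10 (@Lb.r r2579 (@Lb.r r98 (@Lb.d (nat_lit 0) (nat_lit 132) (nat_lit 86) (@Lb.fm (nat_lit 3) t51)))))))
noncomputable def l24779 : Lb := (@Lb.d (nat_lit 4) (nat_lit 513) (nat_lit 74) (@Lb.g g5 (@Lb.g g10 (@Lb.g g11 (@Lb.r r2626 (@Lb.r r579 (@Lb.r r24 (@Lb.d (nat_lit 321) (nat_lit 1) (nat_lit 278) (@Lb.t (@Lb.fp (nat_lit 9) t716))))))))))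
noncomputable def l24780 : Lb := (@Lb.d (nat_lit 2) (nat_lit 33) (nat_lit 66) (@Lb.g g8 (@Lb.g g9 (@Lb.g g10 (@Lb.g g11 (@Lb.r r1435 (@Lb.r r2465 (@Lb.r r98 (@Lb.r r24 (@Lb.d (nat_lit 682) (nat_lit 68) (nat_lit 273) (@Lb.fp (nat_lit 9) t1001)))))))))))
noncomputable def l24781 : Lb := (@Lb.d (nat_lit 2) (nat_lit 272) (nat_lit 2) (@Lb.g g8 (@Lb.g g9 (@Lb.g g10 (@Lb.g g11 (@Lb.r r427 (@Lb.r r388 (@Lb.r r70 (@Lb.r r1125 (@Lb.r r132 (@Lb.d (nat_lit 550) (nat_lit 134) (nat_lit 153) (@Lb.fm (nat_lit 9) t2326))))))))))))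
noncomputable def l24782 : Lb := (@Lb.d (nat_lit 0) (nat_lit 0) (nat_lit 130) (@Lb.g g5 (@Lb.g g10 (@Lb.g g11 (@Lb.r r419 (@Lb.r r98 (@Lb.d (nat_lit 0) (nat_lit 168) (nat_lit 386) (@Lb.t (@Lb.fp (nat_lit 9) t51)))))))))
noncomputable def l24783 : Lb := (@Lb.d (nat_lit 1) (nat_lit 258) (nat_lit 74) (@Lb.g g8 (@Lb.g g9 (@Lb.g g10 (@Lb.g g11 (@Lb.r r619 (@Lb.r r1610 (@Lb.r r145 (@Lb.r r2628 (@Lb.d (nat_lit 664) (nat_lit 130) (nat_lit 426) (@Lb.fm (nat_lit 9) t899)))))))))))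
noncomputable def l24784 : Lb := (@Lb.d (nat_lit 641) (nat_lit 256) (nat_lit 17) (@Lb.g g4 (@Lb.g g10 (@Lb.r r273 (@Lb.r r2595 (@Lb.r r529 (@Lb.d (nat_lit 8) (nat_lit 132) (nat_lit 18) (@Lb.fm (nat_lit 3) t1222))))))))
noncomputable def l24785 : Lb := (@Lb.d (nat_lit 0) (nat_lit 258) (nat_lit 130) (@Lb.g g8 (@Lb.g g9 (@Lb.g g10 (@Lb.g g11 (@Lb.r r2666 (@Lb.r r2664 (@Lb.r r2585 (@Lb.r r2587 (@Lb.d (nat_lit 329) (nat_lit 66) (nat_lit 128) (@Lb.fp (nat_lit 9) t588)))))))))))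
noncomputable def l24786 : Lb := (@Lb.d (nat_lit 0) (nat_lit 2) (nat_lit 4) (@Lb.g g8 (@Lb.g g9 (@Lb.g g10 (@Lb.g g11 (@Lb.r r343 (@Lb.r r1382 (@Lb.r r88 (@Lb.r r37 (@Lb.d (nat_lit 10) (nat_lit 161) (nat_lit 674) (@Lb.fp (nat_lit 9) t4783)))))))))))
noncomputable def l24787 : Lb := (@Lb.d (nat_lit 0) (nat_lit 2) (nat_lit 0) (@Lb.g g8 (@Lb.g g9 (@Lb.r r37 (@Lb.r r24 (@Lb.d (nat_lit 322) (nat_lit 0) (nat_lit 576) (@Lb.fm (nat_lit 3) t716)))))))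
noncomputable def l24788 : Lb := (@Lb.d (nat_lit 2) (nat_lit 289) (nat_lit 130) (@Lb.g g8 (@Lb.g g9 (@Lb.g g10 (@Lb.g g11 (@Lb.r r2666 (@Lb.r r2664 (@Lb.r r267 (@Lb.r r2577 (@Lb.d (nat_lit 129) (nat_lit 24) (nat_lit 514) (@Lb.fm (nat_lit 9) t948)))))))))))
noncomputable def l24789 : Lb := (@Lb.r r275 (@Lb.d (nat_lit 0) (nat_lit 2) (nat_lit 2) (@Lb.g g8 (@Lb.g g9 (@Lb.g g10 (@Lb.r r595 (@Lb.r r2154 (@Lb.r r2152 (@Lb.r r2073 (@Lb.d (nat_lit 581) (nat_lit 170) (nat_lit 386) (@Lb.t (@Lb.fm (nat_lit 9) t244))))))))))))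
noncomputable def l24790 : Lb := (@Lb.r r323 (@Lb.d (nat_lit 0) (nat_lit 522) (nat_lit 0) (@Lb.g g8 (@Lb.g g9 (@Lb.g g6 (@Lb.r r387 (@Lb.r r101 (@Lb.r r24 (@Lb.d (nat_lit 352) (nat_lit 0) (nat_lit 578) (@Lb.t (@Lb.fp (nat_lit 9) t4784)))))))))))
noncomputable def l24791 : Lb := (@Lb.d (nat_lit 0) (nat_lit 514) (nat_lit 0) (@Lb.g g8 (@Lb.g g9 (@Lb.r r37 (@Lb.r r24 (@Lb.d (nat_lit 320) (nat_lit 0) (nat_lit 576) (@Lb.fm (nat_lit 3) t716)))))))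
noncomputable def l24792 : Lb := (@Lb.d (nat_lit 641) (nat_lit 290) (nat_lit 0) (@Lb.g g4 (@Lb.g g9 (@Lb.r r1363 (@Lb.r r2178 (@Lb.r r2657 (@Lb.d (nat_lit 8) (nat_lit 18) (nat_lit 10) (@Lb.fp (nat_lit 3) t3351))))))))
noncomputable def l24793 : Lb := (@Lb.d (nat_lit 601) (nat_lit 170) (nat_lit 421) (@Lb.r r2406 (@Lb.r r1700 (@Lb.r r1431 (@Lb.g g6 (@Lb.g g9 (@Lb.d (nat_lit 16) (nat_lit 34) (nat_lit 6) (@Lb.r r387 (@Lb.fp (nat_lit 3) t4785)))))))))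
noncomputable def l24794 : Lb := (@Lb.d (nat_lit 134) (nat_lit 273) (nat_lit 2) (@Lb.g g8 (@Lb.g g9 (@Lb.g g10 (@Lb.g g11 (@Lb.r r1667 (@Lb.r r609 (@Lb.r r666 (@Lb.r r1176 (@Lb.d (nat_lit 25) (nat_lit 170) (nat_lit 98) (@Lb.fp (nat_lit 9) t552)))))))))))
noncomputable def l24795 : Lb := (@Lb.r r21 (@Lb.d (nat_lit 2) (nat_lit 512) (nat_lit 2) (@Lb.g g8 (@Lb.g g10 (@Lb.g g11 (@Lb.r r1683 (@Lb.r r1377 (@Lb.r r2202 (@Lb.r r408 (@Lb.d (nat_lit 149) (nat_lit 136) (nat_lit 330) (@Lb.t (@Lb.fm (nat_lit 9) t4786))))))))))))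
noncomputable def l24796 : Lb := (@Lb.d (nat_lit 0) (nat_lit 26) (nat_lit 136) (@Lb.g g9 (@Lb.g g10 (@Lb.g g11 (@Lb.r r2375 (@Lb.r r1674 (@Lb.r r1688 (@Lb.r r2469 (@Lb.d (nat_lit 594) (nat_lit 25) (nat_lit 326) (@Lb.t (@Lb.fp (nat_lit 9) t4787)))))))))))
noncomputable def l24797 : Lb := (@Lb.d (nat_lit 600) (nat_lit 426) (nat_lit 421) (@Lb.r r2406 (@Lb.r r1700 (@Lb.r r1431 (@Lb.g g6 (@Lb.g g9 (@Lb.d (nat_lit 16) (nat_lit 34) (nat_lit 6) (@Lb.r r387 (@Lb.fp (nat_lit 3) t4785)))))))))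
noncomputable def l24798 : Lb := (@Lb.r r1158 (@Lb.r r2376 (@Lb.r r1543 (@Lb.r r529 (@Lb.fm (nat_lit 1) t242)))))
noncomputable def l24799 : Lb := (@Lb.d (nat_lit 2) (nat_lit 2) (nat_lit 145) (@Lb.g g8 (@Lb.g g9 (@Lb.g g6 (@Lb.g g11 (@Lb.r r2657 (@Lb.r r24 (@Lb.d (nat_lit 10) (nat_lit 169) (nat_lit 424) (@Lb.fm (nat_lit 9) t1403)))))))))
noncomputable def l24800 : Lb := (@Lb.g g7 (@Lb.d (nat_lit 5) (nat_lit 257) (nat_lit 69) (@Lb.t (@Lb.fm (nat_lit 3) t2))))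
noncomputable def l24801 : Lb := (@Lb.d (nat_lit 406) (nat_lit 345) (nat_lit 613) (@Lb.r r2453 (@Lb.r r2434 (@Lb.r r1431 (@Lb.g g6 (@Lb.g g5 (@Lb.g g4 (@Lb.d (nat_lit 1) (nat_lit 0) (nat_lit 1) (@Lb.r r387 (@Lb.t (@Lb.fm (nat_lit 9) t898)))))))))))
noncomputable def l24802 : Lb := (@Lb.d (nat_lit 406) (nat_lit 601) (nat_lit 682) (@Lb.r r2453 (@Lb.r r2434 (@Lb.r r1431 (@Lb.g g6 (@Lb.g g5 (@Lb.g g4 (@Lb.d (nat_lit 1) (nat_lit 5) (nat_lit 2) (@Lb.r r387 (@Lb.t (@Lb.fm (nat_lit 9) t898)))))))))))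
noncomputable def l24803 : Lb := (@Lb.d (nat_lit 261) (nat_lit 132) (nat_lit 33) (@Lb.r r24 (@Lb.r r1414 (@Lb.r r2395 (@Lb.g g7 (@Lb.g g5 (@Lb.d (nat_lit 4) (nat_lit 1) (nat_lit 128) (@Lb.fm (nat_lit 3) t1293))))))))
noncomputable def l24804 : Lb := (@Lb.d (nat_lit 322) (nat_lit 88) (nat_lit 260) (@Lb.r r323 (@Lb.r r658 (@Lb.r r2133 (@Lb.g g7 (@Lb.g g6 (@Lb.g g5 (@Lb.g g4 (@Lb.d (nat_lit 1) (nat_lit 1) (nat_lit 133) (@Lb.fm (nat_lit 9) t795))))))))))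
noncomputable def l24805 : Lb := (@Lb.d (nat_lit 512) (nat_lit 321) (nat_lit 512) (@Lb.r r24 (@Lb.r r1414 (@Lb.r r2331 (@Lb.g g5 (@Lb.d (nat_lit 4) (nat_lit 1) (nat_lit 0) (@Lb.t (@Lb.fm (nat_lit 3) t4788))))))))
noncomputable def l24806 : Lb := (@Lb.d (nat_lit 2) (nat_lit 258) (nat_lit 130) (@Lb.g g8 (@Lb.g g9 (@Lb.g g10 (@Lb.g g11 (@Lb.r r427 (@Lb.r r360 (@Lb.r r150 (@Lb.r r2133 (@Lb.r r2068 (@Lb.d (nat_lit 281) (nat_lit 9) (nat_lit 33) (@Lb.fp (nat_lit 9) t4188))))))))))))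
noncomputable def l24807 : Lb := (@Lb.d (nat_lit 517) (nat_lit 329) (nat_lit 514) (@Lb.r r24 (@Lb.r r1414 (@Lb.r r2331 (@Lb.g g5 (@Lb.d (nat_lit 4) (nat_lit 1) (nat_lit 0) (@Lb.t (@Lb.fm (nat_lit 3) t4789))))))))
noncomputable def l24808 : Lb := (@Lb.d (nat_lit 517) (nat_lit 578) (nat_lit 512) (@Lb.r r24 (@Lb.r r1414 (@Lb.r r2331 (@Lb.g g6 (@Lb.g g5 (@Lb.d (nat_lit 4) (nat_lit 1) (nat_lit 0) (@Lb.fm (nat_lit 3) t4788))))))))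
noncomputable def l24809 : Lb := (@Lb.r r275 (@Lb.d (nat_lit 129) (nat_lit 0) (nat_lit 2) (@Lb.g g8 (@Lb.g g9 (@Lb.g g10 (@Lb.r r674 (@Lb.r r391 (@Lb.r r665 (@Lb.r r516 (@Lb.d (nat_lit 666) (nat_lit 5) (nat_lit 144) (@Lb.t (@Lb.fp (nat_lit 9) t234))))))))))))
noncomputable def l24810 : Lb := (@Lb.r r275 (@Lb.d (nat_lit 130) (nat_lit 256) (nat_lit 2) (@Lb.g g8 (@Lb.g g9 (@Lb.g g10 (@Lb.r r674 (@Lb.r r391 (@Lb.r r665 (@Lb.r r516 (@Lb.d (nat_lit 666) (nat_lit 5) (nat_lit 21) (@Lb.t (@Lb.fp (nat_lit 9) t234))))))))))))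
noncomputable def l24811 : Lb := (@Lb.d (nat_lit 24) (nat_lit 38) (nat_lit 9) (@Lb.r r361 (@Lb.r r292 (@Lb.r r426 (@Lb.g g11 (@Lb.g g5 (@Lb.d (nat_lit 4) (nat_lit 0) (nat_lit 128) (@Lb.r r98 (@Lb.fp (nat_lit 3) t31)))))))))
noncomputable def l24812 : Lb := (@Lb.d (nat_lit 36) (nat_lit 260) (nat_lit 168) (@Lb.r r153 (@Lb.r r2726 (@Lb.r r1435 (@Lb.r r2308 (@Lb.g g7 (@Lb.g g5 (@Lb.d (nat_lit 4) (nat_lit 1) (nat_lit 128) (@Lb.fp (nat_lit 3) t919)))))))))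
noncomputable def l24813 : Lb := (@Lb.d (nat_lit 0) (nat_lit 522) (nat_lit 0) (@Lb.g g9 (@Lb.r r322 (@Lb.r r659 (@Lb.r r578 (@Lb.d (nat_lit 0) (nat_lit 130) (nat_lit 256) (@Lb.t (@Lb.fm (nat_lit 3) t242))))))))
noncomputable def l24814 : Lb := (@Lb.d (nat_lit 0) (nat_lit 672) (nat_lit 130) (@Lb.g g9 (@Lb.g g10 (@Lb.g g11 (@Lb.r r387 (@Lb.r r98 (@Lb.d (nat_lit 0) (nat_lit 84) (nat_lit 137) (@Lb.t (@Lb.fm (nat_lit 9) t719)))))))))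
noncomputable def l24815 : Lb := (@Lb.d (nat_lit 8) (nat_lit 554) (nat_lit 1) (@Lb.g g9 (@Lb.g g10 (@Lb.r r1190 (@Lb.r r1624 (@Lb.r r1691 (@Lb.r r1381 (@Lb.d (nat_lit 341) (nat_lit 40) (nat_lit 406) (@Lb.fm (nat_lit 3) t428)))))))))
noncomputable def l24816 : Lb := (@Lb.d (nat_lit 5) (nat_lit 512) (nat_lit 0) (@Lb.g g4 (@Lb.g g7 (@Lb.d (nat_lit 1) (nat_lit 1) (nat_lit 69) (@Lb.fm (nat_lit 3) t2)))))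
noncomputable def l24817 : Lb := (@Lb.r r82 (@Lb.r r275 (@Lb.d (nat_lit 41) (nat_lit 129) (nat_lit 0) (@Lb.g g8 (@Lb.g g9 (@Lb.r r150 (@Lb.r r340 (@Lb.r r411 (@Lb.d (nat_lit 10) (nat_lit 72) (nat_lit 658) (@Lb.fp (nat_lit 3) t375))))))))))
noncomputable def l24818 : Lb := (@Lb.d (nat_lit 161) (nat_lit 258) (nat_lit 0) (@Lb.g g8 (@Lb.g g9 (@Lb.r r662 (@Lb.r r361 (@Lb.r r535 (@Lb.r r296 (@Lb.d (nat_lit 134) (nat_lit 36) (nat_lit 74) (@Lb.fm (nat_lit 3) t45)))))))))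
noncomputable def l24819 : Lb := (@Lb.d (nat_lit 10) (nat_lit 514) (nat_lit 0) (@Lb.g g8 (@Lb.g g9 (@Lb.r r24 (@Lb.r r2069 (@Lb.r r36 (@Lb.d (nat_lit 10) (nat_lit 2) (nat_lit 64) (@Lb.fp (nat_lit 3) t2))))))))
noncomputable def l24820 : Lb := (@Lb.d (nat_lit 10) (nat_lit 258) (nat_lit 66) (@Lb.g g8 (@Lb.g g9 (@Lb.g g10 (@Lb.g g7 (@Lb.r r386 (@Lb.r r24 (@Lb.r r2069 (@Lb.r r36 (@Lb.d (nat_lit 10) (nat_lit 4) (nat_lit 10) (@Lb.fm (nat_lit 9) t45)))))))))))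
noncomputable def l24821 : Lb := (@Lb.d (nat_lit 0) (nat_lit 0) (nat_lit 128) (@Lb.g g11 (@Lb.r r1346 (@Lb.r r387 (@Lb.r r1425 (@Lb.d (nat_lit 0) (nat_lit 0) (nat_lit 297) (@Lb.t (@Lb.fp (nat_lit 3) t279))))))))
noncomputable def l24822 : Lb := (@Lb.d (nat_lit 660) (nat_lit 40) (nat_lit 165) (@Lb.r r1445 (@Lb.r r2214 (@Lb.r r643 (@Lb.g g6 (@Lb.g g5 (@Lb.g g8 (@Lb.d (nat_lit 322) (nat_lit 1) (nat_lit 1) (@Lb.t (@Lb.fp (nat_lit 9) t3368))))))))))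
noncomputable def l24823 : Lb := (@Lb.r r323 (@Lb.d (nat_lit 130) (nat_lit 265) (nat_lit 2) (@Lb.g g8 (@Lb.g g9 (@Lb.g g10 (@Lb.r r2474 (@Lb.r r583 (@Lb.r r2201 (@Lb.r r408 (@Lb.d (nat_lit 88) (nat_lit 21) (nat_lit 329) (@Lb.t (@Lb.fp (nat_lit 9) t597))))))))))))
noncomputable def l24824 : Lb := (@Lb.d (nat_lit 34) (nat_lit 2) (nat_lit 128) (@Lb.g g8 (@Lb.g g9 (@Lb.g g11 (@Lb.r r553 (@Lb.r r363 (@Lb.r r582 (@Lb.r r1416 (@Lb.d (nat_lit 361) (nat_lit 74) (nat_lit 617) (@Lb.t (@Lb.fm (nat_lit 9) t228)))))))))))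
noncomputable def l24825 : Lb := (@Lb.d (nat_lit 0) (nat_lit 33) (nat_lit 130) (@Lb.g g9 (@Lb.g g10 (@Lb.g g11 (@Lb.r r2729 (@Lb.r r2347 (@Lb.r r2404 (@Lb.r r1610 (@Lb.d (nat_lit 337) (nat_lit 0) (nat_lit 409) (@Lb.t (@Lb.fp (nat_lit 9) t981)))))))))))
noncomputable def l24826 : Lb := (@Lb.d (nat_lit 322) (nat_lit 0) (nat_lit 0) (@Lb.g g8 (@Lb.r r273 (@Lb.r r2595 (@Lb.r r2178 (@Lb.r r529 (@Lb.d (nat_lit 322) (nat_lit 106) (nat_lit 514) (@Lb.t (@Lb.fp (nat_lit 3) t1222)))))))))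
noncomputable def l24827 : Lb := (@Lb.d (nat_lit 0) (nat_lit 585) (nat_lit 74) (@Lb.r r24 (@Lb.r r402 (@Lb.g g11 (@Lb.g g9 (@Lb.d (nat_lit 0) (nat_lit 10) (nat_lit 0) (@Lb.fm (nat_lit 3) t1176)))))))
noncomputable def l24828 : Lb := (@Lb.d (nat_lit 0) (nat_lit 585) (nat_lit 74) (@Lb.r r24 (@Lb.r r402 (@Lb.g g11 (@Lb.g g9 (@Lb.g g4 (@Lb.d (nat_lit 0) (nat_lit 10) (nat_lit 0) (@Lb.t (@Lb.fp (nat_lit 9) t1176)))))))))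
noncomputable def l24829 : Lb := (@Lb.d (nat_lit 101) (nat_lit 96) (nat_lit 656) (@Lb.r r597 (@Lb.r r1386 (@Lb.r r1096 (@Lb.g g11 (@Lb.g g5 (@Lb.d (nat_lit 4) (nat_lit 1) (nat_lit 128) (@Lb.fm (nat_lit 3) t296))))))))
noncomputable def l24830 : Lb := (@Lb.d (nat_lit 2) (nat_lit 2) (nat_lit 0) (@Lb.g g8 (@Lb.g g9 (@Lb.r r2585 (@Lb.d (nat_lit 329) (nat_lit 10) (nat_lit 386) (@Lb.fm (nat_lit 3) t1410))))))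
noncomputable def l24831 : Lb := (@Lb.r r21 (@Lb.d (nat_lit 2) (nat_lit 8) (nat_lit 130) (@Lb.g g8 (@Lb.g g10 (@Lb.g g11 (@Lb.r r1707 (@Lb.r r2341 (@Lb.r r1640 (@Lb.r r422 (@Lb.d (nat_lit 105) (nat_lit 73) (nat_lit 280) (@Lb.t (@Lb.fm (nat_lit 9) t51))))))))))))
noncomputable def l24832 : Lb := (@Lb.r r21 (@Lb.d (nat_lit 2) (nat_lit 8) (nat_lit 130) (@Lb.g g8 (@Lb.g g10 (@Lb.g g11 (@Lb.r r1707 (@Lb.r r2341 (@Lb.r r1640 (@Lb.r r422 (@Lb.d (nat_lit 101) (nat_lit 72) (nat_lit 280) (@Lb.t (@Lb.fm (nat_lit 9) t51))))))))))))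
noncomputable def l24833 : Lb := (@Lb.r r21 (@Lb.d (nat_lit 645) (nat_lit 8) (nat_lit 66) (@Lb.g g8 (@Lb.g g10 (@Lb.g g11 (@Lb.r r1419 (@Lb.r r101 (@Lb.r r410 (@Lb.d (nat_lit 9) (nat_lit 149) (nat_lit 100) (@Lb.t (@Lb.fm (nat_lit 9) t1606)))))))))))
noncomputable def l24834 : Lb := (@Lb.d (nat_lit 2) (nat_lit 545) (nat_lit 66) (@Lb.g g8 (@Lb.g g9 (@Lb.g g10 (@Lb.g g11 (@Lb.r r610 (@Lb.r r2084 (@Lb.r r613 (@Lb.r r1315 (@Lb.d (nat_lit 665) (nat_lit 161) (nat_lit 160) (@Lb.fm (nat_lit 9) t1606)))))))))))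
noncomputable def l24835 : Lb := (@Lb.r r82 (@Lb.d (nat_lit 0) (nat_lit 2) (nat_lit 64) (@Lb.g g9 (@Lb.g g7 (@Lb.r r418 (@Lb.r r289 (@Lb.d (nat_lit 5) (nat_lit 0) (nat_lit 10) (@Lb.fp (nat_lit 3) t607))))))))
noncomputable def l24836 : Lb := (@Lb.d (nat_lit 0) (nat_lit 520) (nat_lit 66) (@Lb.g g9 (@Lb.g g10 (@Lb.g g7 (@Lb.r r418 (@Lb.r r153 (@Lb.d (nat_lit 102) (nat_lit 36) (nat_lit 1) (@Lb.t (@Lb.fm (nat_lit 9) t607)))))))))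
noncomputable def l24837 : Lb := (@Lb.d (nat_lit 293) (nat_lit 293) (nat_lit 326) (@Lb.r r1172 (@Lb.r r386 (@Lb.r r1607 (@Lb.g g6 (@Lb.g g9 (@Lb.g g4 (@Lb.d (nat_lit 66) (nat_lit 129) (nat_lit 1) (@Lb.t (@Lb.fm (nat_lit 9) t4790))))))))))
noncomputable def l24838 : Lb := (@Lb.d (nat_lit 128) (nat_lit 544) (nat_lit 64) (@Lb.g g11 (@Lb.r r1096 (@Lb.r r1382 (@Lb.r r2405 (@Lb.r r2459 (@Lb.d (nat_lit 410) (nat_lit 80) (nat_lit 650) (@Lb.t (@Lb.fp (nat_lit 3) t1222)))))))))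
noncomputable def l24839 : Lb := (@Lb.d (nat_lit 36) (nat_lit 514) (nat_lit 72) (@Lb.g g8 (@Lb.g g9 (@Lb.g g11 (@Lb.r r2370 (@Lb.r r1431 (@Lb.r r2585 (@Lb.r r1556 (@Lb.d (nat_lit 262) (nat_lit 98) (nat_lit 418) (@Lb.t (@Lb.fm (nat_lit 9) t322)))))))))))
noncomputable def l24840 : Lb := (@Lb.r r82 (@Lb.d (nat_lit 277) (nat_lit 290) (nat_lit 64) (@Lb.g g4 (@Lb.g g9 (@Lb.g g11 (@Lb.r r678 (@Lb.r r1443 (@Lb.r r145 (@Lb.d (nat_lit 6) (nat_lit 89) (nat_lit 390) (@Lb.t (@Lb.fm (nat_lit 9) t1201)))))))))))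
noncomputable def l24841 : Lb := (@Lb.d (nat_lit 2) (nat_lit 2) (nat_lit 66) (@Lb.g g8 (@Lb.g g9 (@Lb.g g10 (@Lb.g g11 (@Lb.r r1419 (@Lb.r r106 (@Lb.r r25 (@Lb.d (nat_lit 593) (nat_lit 36) (nat_lit 681) (@Lb.fp (nat_lit 9) t4420))))))))))
noncomputable def l24842 : Lb := (@Lb.d (nat_lit 2) (nat_lit 2) (nat_lit 73) (@Lb.g g8 (@Lb.g g9 (@Lb.g g10 (@Lb.g g11 (@Lb.r r2666 (@Lb.r r579 (@Lb.r r25 (@Lb.d (nat_lit 552) (nat_lit 102) (nat_lit 602) (@Lb.fm (nat_lit 9) t1320))))))))))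
noncomputable def l24843 : Lb := (@Lb.d (nat_lit 273) (nat_lit 288) (nat_lit 72) (@Lb.g g4 (@Lb.g g11 (@Lb.r r2402 (@Lb.r r353 (@Lb.r r1427 (@Lb.d (nat_lit 6) (nat_lit 17) (nat_lit 410) (@Lb.fm (nat_lit 3) t1222))))))))
noncomputable def l24844 : Lb := (@Lb.d (nat_lit 261) (nat_lit 549) (nat_lit 292) (@Lb.r r1096 (@Lb.r r1689 (@Lb.r r595 (@Lb.g g6 (@Lb.g g5 (@Lb.d (nat_lit 16) (nat_lit 17) (nat_lit 33) (@Lb.fm (nat_lit 3) t1201))))))))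
noncomputable def l24845 : Lb := (@Lb.d (nat_lit 546) (nat_lit 544) (nat_lit 72) (@Lb.g g8 (@Lb.g g11 (@Lb.r r2402 (@Lb.r r353 (@Lb.r r1427 (@Lb.d (nat_lit 9) (nat_lit 18) (nat_lit 410) (@Lb.fp (nat_lit 3) t1222))))))))
noncomputable def l24846 : Lb := (@Lb.d (nat_lit 9) (nat_lit 512) (nat_lit 0) (@Lb.g g8 (@Lb.r r417 (@Lb.r r2466 (@Lb.r r2387 (@Lb.r r657 (@Lb.d (nat_lit 545) (nat_lit 0) (nat_lit 34) (@Lb.t (@Lb.fp (nat_lit 3) t246)))))))))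
noncomputable def l24847 : Lb := (@Lb.d (nat_lit 2) (nat_lit 514) (nat_lit 130) (@Lb.g g8 (@Lb.g g9 (@Lb.g g10 (@Lb.g g11 (@Lb.r r582 (@Lb.r r388 (@Lb.r r1323 (@Lb.r r1433 (@Lb.d (nat_lit 282) (nat_lit 132) (nat_lit 402) (@Lb.fp (nat_lit 9) t519)))))))))))
noncomputable def l24848 : Lb := (@Lb.d (nat_lit 2) (nat_lit 2) (nat_lit 130) (@Lb.g g8 (@Lb.g g9 (@Lb.g g10 (@Lb.g g11 (@Lb.r r1443 (@Lb.r r40 (@Lb.r r425 (@Lb.r r98 (@Lb.r r2084 (@Lb.d (nat_lit 402) (nat_lit 88) (nat_lit 409) (@Lb.fp (nat_lit 9) t1231))))))))))))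
noncomputable def l24849 : Lb := (@Lb.d (nat_lit 2) (nat_lit 9) (nat_lit 129) (@Lb.g g8 (@Lb.g g9 (@Lb.g g10 (@Lb.g g11 (@Lb.r r1642 (@Lb.r r612 (@Lb.r r295 (@Lb.r r1313 (@Lb.r r1060 (@Lb.d (nat_lit 538) (nat_lit 161) (nat_lit 416) (@Lb.fm (nat_lit 9) t4791))))))))))))
noncomputable def l24850 : Lb := (@Lb.d (nat_lit 128) (nat_lit 0) (nat_lit 130) (@Lb.g g10 (@Lb.g g11 (@Lb.r r264 (@Lb.r r279 (@Lb.r r161 (@Lb.r r98 (@Lb.d (nat_lit 418) (nat_lit 8) (nat_lit 680) (@Lb.fm (nat_lit 3) t4114)))))))))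
noncomputable def l24851 : Lb := (@Lb.r r277 (@Lb.r r326 (@Lb.d (nat_lit 261) (nat_lit 16) (nat_lit 136) (@Lb.g g8 (@Lb.g g11 (@Lb.r r402 (@Lb.r r1121 (@Lb.d (nat_lit 320) (nat_lit 72) (nat_lit 657) (@Lb.fm (nat_lit 3) t4792)))))))))
noncomputable def l24852 : Lb := (@Lb.r r2331 (@Lb.r r24 (@Lb.d (nat_lit 266) (nat_lit 578) (nat_lit 64) (@Lb.fm (nat_lit 1) t1165))))
noncomputable def l24853 : Lb := (@Lb.d (nat_lit 386) (nat_lit 272) (nat_lit 576) (@Lb.r r2331 (@Lb.g g8 (@Lb.d (nat_lit 9) (nat_lit 0) (nat_lit 0) (@Lb.t (@Lb.fp (nat_lit 3) t1877))))))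
noncomputable def l24854 : Lb := (@Lb.d (nat_lit 128) (nat_lit 288) (nat_lit 136) (@Lb.g g11 (@Lb.r r424 (@Lb.r r1386 (@Lb.r r1369 (@Lb.r r1703 (@Lb.d (nat_lit 128) (nat_lit 148) (nat_lit 536) (@Lb.t (@Lb.fp (nat_lit 3) t1607)))))))))
noncomputable def l24855 : Lb := (@Lb.d (nat_lit 2) (nat_lit 33) (nat_lit 130) (@Lb.g g8 (@Lb.g g9 (@Lb.g g10 (@Lb.g g11 (@Lb.r r2666 (@Lb.r r2657 (@Lb.r r295 (@Lb.d (nat_lit 533) (nat_lit 38) (nat_lit 550) (@Lb.fm (nat_lit 9) t495))))))))))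
noncomputable def l24856 : Lb := (@Lb.d (nat_lit 10) (nat_lit 512) (nat_lit 128) (@Lb.g g8 (@Lb.g g11 (@Lb.r r390 (@Lb.r r2659 (@Lb.r r149 (@Lb.r r2728 (@Lb.d (nat_lit 144) (nat_lit 137) (nat_lit 393) (@Lb.fp (nat_lit 3) t4793)))))))))
noncomputable def l24857 : Lb := (@Lb.d (nat_lit 2) (nat_lit 545) (nat_lit 73) (@Lb.g g8 (@Lb.g g9 (@Lb.g g10 (@Lb.g g11 (@Lb.r r387 (@Lb.r r2649 (@Lb.r r98 (@Lb.d (nat_lit 353) (nat_lit 96) (nat_lit 290) (@Lb.fp (nat_lit 9) t719))))))))))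
noncomputable def l24858 : Lb := (@Lb.d (nat_lit 6) (nat_lit 0) (nat_lit 0) (@Lb.g g8 (@Lb.g g9 (@Lb.r r322 (@Lb.r r1667 (@Lb.r r578 (@Lb.r r104 (@Lb.r r25 (@Lb.d (nat_lit 34) (nat_lit 10) (nat_lit 17) (@Lb.fm (nat_lit 3) t40))))))))))
noncomputable def l24859 : Lb := (@Lb.d (nat_lit 2) (nat_lit 512) (nat_lit 0) (@Lb.g g8 (@Lb.g g9 (@Lb.d (nat_lit 10) (nat_lit 2) (nat_lit 64) (@Lb.fm (nat_lit 3) t2)))))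
noncomputable def l24860 : Lb := (@Lb.d (nat_lit 656) (nat_lit 256) (nat_lit 262) (@Lb.r r24 (@Lb.r r101 (@Lb.r r386 (@Lb.g g7 (@Lb.g g6 (@Lb.g g5 (@Lb.d (nat_lit 0) (nat_lit 0) (nat_lit 1) (@Lb.t (@Lb.fm (nat_lit 9) t478))))))))))
noncomputable def l24861 : Lb := (@Lb.d (nat_lit 298) (nat_lit 261) (nat_lit 594) (@Lb.r r150 (@Lb.r r72 (@Lb.r r293 (@Lb.r r2395 (@Lb.g g7 (@Lb.g g6 (@Lb.g g5 (@Lb.d (nat_lit 16) (nat_lit 1) (nat_lit 129) (@Lb.t (@Lb.fm (nat_lit 9) t895)))))))))))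
noncomputable def l24862 : Lb := (@Lb.d (nat_lit 129) (nat_lit 34) (nat_lit 2) (@Lb.g g8 (@Lb.g g9 (@Lb.g g10 (@Lb.r r343 (@Lb.r r162 (@Lb.r r2712 (@Lb.r r165 (@Lb.d (nat_lit 37) (nat_lit 146) (nat_lit 356) (@Lb.t (@Lb.fp (nat_lit 9) t284)))))))))))
noncomputable def l24863 : Lb := (@Lb.d (nat_lit 130) (nat_lit 290) (nat_lit 2) (@Lb.g g8 (@Lb.g g9 (@Lb.g g10 (@Lb.r r343 (@Lb.r r162 (@Lb.r r2712 (@Lb.r r165 (@Lb.d (nat_lit 37) (nat_lit 146) (nat_lit 425) (@Lb.t (@Lb.fp (nat_lit 9) t284)))))))))))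
noncomputable def l24864 : Lb := (@Lb.g g7 (@Lb.r r584 (@Lb.r r619 (@Lb.r r2665 (@Lb.r r86 (@Lb.r r1188 (@Lb.d (nat_lit 5) (nat_lit 257) (nat_lit 85) (@Lb.t (@Lb.fp (nat_lit 3) t2)))))))))
noncomputable def l24865 : Lb := (@Lb.g g4 (@Lb.r r417 (@Lb.r r2466 (@Lb.r r2387 (@Lb.r r657 (@Lb.t (@Lb.fm (nat_lit 3) t246)))))))
noncomputable def l24866 : Lb := (@Lb.d (nat_lit 2) (nat_lit 256) (nat_lit 72) (@Lb.g g8 (@Lb.g g9 (@Lb.g g11 (@Lb.r r1410 (@Lb.r r579 (@Lb.r r1561 (@Lb.d (nat_lit 585) (nat_lit 2) (nat_lit 297) (@Lb.t (@Lb.fm (nat_lit 9) t1035))))))))))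
noncomputable def l24867 : Lb := (@Lb.d (nat_lit 6) (nat_lit 357) (nat_lit 6) (@Lb.r r673 (@Lb.r r683 (@Lb.r r612 (@Lb.r r346 (@Lb.g g7 (@Lb.g g6 (@Lb.g g5 (@Lb.d (nat_lit 4) (nat_lit 1) (nat_lit 65) (@Lb.t (@Lb.fp (nat_lit 9) t594)))))))))))
noncomputable def l24868 : Lb := (@Lb.r r82 (@Lb.d (nat_lit 0) (nat_lit 34) (nat_lit 64) (@Lb.g g4 (@Lb.g g9 (@Lb.g g11 (@Lb.r r2467 (@Lb.r r386 (@Lb.d (nat_lit 1) (nat_lit 85) (nat_lit 290) (@Lb.t (@Lb.fm (nat_lit 9) t2307))))))))))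
noncomputable def l24869 : Lb := (@Lb.d (nat_lit 129) (nat_lit 290) (nat_lit 0) (@Lb.g g8 (@Lb.g g9 (@Lb.r r519 (@Lb.r r2178 (@Lb.r r280 (@Lb.r r2085 (@Lb.d (nat_lit 26) (nat_lit 161) (nat_lit 549) (@Lb.fm (nat_lit 3) t287)))))))))
noncomputable def l24870 : Lb := (@Lb.d (nat_lit 0) (nat_lit 672) (nat_lit 393) (@Lb.r r402 (@Lb.g g11 (@Lb.g g5 (@Lb.d (nat_lit 0) (nat_lit 5) (nat_lit 0) (@Lb.fm (nat_lit 3) t306))))))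
noncomputable def l24871 : Lb := (@Lb.d (nat_lit 0) (nat_lit 266) (nat_lit 2) (@Lb.g g5 (@Lb.t (@Lb.fm (nat_lit 3) t4794))))
noncomputable def l24872 : Lb := (@Lb.g g5 (@Lb.g g11 (@Lb.r r2577 (@Lb.d (nat_lit 0) (nat_lit 256) (nat_lit 256) (@Lb.fp (nat_lit 3) t121)))))
noncomputable def l24873 : Lb := (@Lb.d (nat_lit 1) (nat_lit 0) (nat_lit 68) (@Lb.g g8 (@Lb.g g7 (@Lb.r r1416 (@Lb.d (nat_lit 657) (nat_lit 0) (nat_lit 1) (@Lb.fm (nat_lit 3) t4795))))))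
noncomputable def l24874 : Lb := (@Lb.d (nat_lit 86) (nat_lit 421) (nat_lit 581) (@Lb.r r2178 (@Lb.r r1447 (@Lb.r r2337 (@Lb.g g7 (@Lb.g g4 (@Lb.d (nat_lit 2) (nat_lit 16) (nat_lit 128) (@Lb.fm (nat_lit 3) t4395))))))))
noncomputable def l24875 : Lb := (@Lb.d (nat_lit 545) (nat_lit 512) (nat_lit 32) (@Lb.r r273 (@Lb.r r2178 (@Lb.r r2595 (@Lb.r r617 (@Lb.g g4 (@Lb.d (nat_lit 1) (nat_lit 0) (nat_lit 0) (@Lb.t (@Lb.fp (nat_lit 3) t3091)))))))))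
noncomputable def l24876 : Lb := (@Lb.d (nat_lit 0) (nat_lit 258) (nat_lit 130) (@Lb.g g9 (@Lb.g g10 (@Lb.g g11 (@Lb.r r162 (@Lb.r r421 (@Lb.r r283 (@Lb.r r529 (@Lb.d (nat_lit 516) (nat_lit 66) (nat_lit 106) (@Lb.t (@Lb.fm (nat_lit 9) t4796)))))))))))
noncomputable def l24877 : Lb := (@Lb.d (nat_lit 256) (nat_lit 256) (nat_lit 0) (@Lb.r r2311 (@Lb.g g7 (@Lb.g g4 (@Lb.fm (nat_lit 3) t3367)))))
noncomputable def l24878 : Lb := (@Lb.d (nat_lit 0) (nat_lit 512) (nat_lit 128) (@Lb.g g11 (@Lb.r r326 (@Lb.r r1419 (@Lb.r r1425 (@Lb.r r1432 (@Lb.d (nat_lit 149) (nat_lit 65) (nat_lit 325) (@Lb.t (@Lb.fm (nat_lit 3) t4797)))))))))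
noncomputable def l24879 : Lb := (@Lb.d (nat_lit 9) (nat_lit 2) (nat_lit 128) (@Lb.g g8 (@Lb.g g9 (@Lb.g g11 (@Lb.r r548 (@Lb.r r2727 (@Lb.r r2178 (@Lb.r r533 (@Lb.r r1060 (@Lb.d (nat_lit 658) (nat_lit 5) (nat_lit 617) (@Lb.t (@Lb.fm (nat_lit 9) t229))))))))))))
noncomputable def l24880 : Lb := (@Lb.d (nat_lit 389) (nat_lit 662) (nat_lit 297) (@Lb.r r1556 (@Lb.r r281 (@Lb.r r615 (@Lb.g g6 (@Lb.g g4 (@Lb.d (nat_lit 66) (nat_lit 4) (nat_lit 17) (@Lb.r r387 (@Lb.fp (nat_lit 3) t4323)))))))))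
noncomputable def l24881 : Lb := (@Lb.r r323 (@Lb.d (nat_lit 137) (nat_lit 546) (nat_lit 0) (@Lb.g g8 (@Lb.g g9 (@Lb.g g10 (@Lb.r r1623 (@Lb.r r2146 (@Lb.r r1432 (@Lb.r r2149 (@Lb.d (nat_lit 533) (nat_lit 104) (nat_lit 130) (@Lb.t (@Lb.fp (nat_lit 9) t221))))))))))))
noncomputable def l24882 : Lb := (@Lb.r r322 (@Lb.d (nat_lit 34) (nat_lit 2) (nat_lit 72) (@Lb.g g8 (@Lb.g g9 (@Lb.g g7 (@Lb.r r361 (@Lb.r r150 (@Lb.r r104 (@Lb.d (nat_lit 100) (nat_lit 10) (nat_lit 73) (@Lb.t (@Lb.fm (nat_lit 9) t242)))))))))))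
noncomputable def l24883 : Lb := (@Lb.r r21 (@Lb.r r263 (@Lb.d (nat_lit 2) (nat_lit 4) (nat_lit 25) (@Lb.g g8 (@Lb.g g6 (@Lb.r r1427 (@Lb.r r97 (@Lb.r r264 (@Lb.d (nat_lit 130) (nat_lit 34) (nat_lit 257) (@Lb.fp (nat_lit 3) t720))))))))))
noncomputable def l24884 : Lb := (@Lb.d (nat_lit 645) (nat_lit 96) (nat_lit 133) (@Lb.r r24 (@Lb.r r579 (@Lb.r r1362 (@Lb.g g7 (@Lb.g g6 (@Lb.g g5 (@Lb.d (nat_lit 4) (nat_lit 1) (nat_lit 134) (@Lb.t (@Lb.fp (nat_lit 9) t939))))))))))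
noncomputable def l24885 : Lb := (@Lb.d (nat_lit 274) (nat_lit 261) (nat_lit 34) (@Lb.r r386 (@Lb.r r595 (@Lb.r r2325 (@Lb.g g5 (@Lb.g g4 (@Lb.d (nat_lit 1) (nat_lit 1) (nat_lit 0) (@Lb.r r98 (@Lb.fm (nat_lit 3) t501)))))))))
noncomputable def l24886 : Lb := (@Lb.r r323 (@Lb.d (nat_lit 130) (nat_lit 521) (nat_lit 2) (@Lb.g g8 (@Lb.g g9 (@Lb.g g10 (@Lb.r r2474 (@Lb.r r583 (@Lb.r r2201 (@Lb.r r408 (@Lb.d (nat_lit 85) (nat_lit 154) (nat_lit 330) (@Lb.t (@Lb.fp (nat_lit 9) t125))))))))))))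
noncomputable def l24887 : Lb := (@Lb.r r82 (@Lb.d (nat_lit 136) (nat_lit 612) (nat_lit 0) (@Lb.g g5 (@Lb.g g11 (@Lb.r r662 (@Lb.r r328 (@Lb.r r327 (@Lb.d (nat_lit 648) (nat_lit 129) (nat_lit 592) (@Lb.fp (nat_lit 3) t541)))))))))
noncomputable def l24888 : Lb := (@Lb.d (nat_lit 0) (nat_lit 264) (nat_lit 2) (@Lb.g g9 (@Lb.g g10 (@Lb.g g7 (@Lb.r r2472 (@Lb.r r2154 (@Lb.r r601 (@Lb.d (nat_lit 153) (nat_lit 85) (nat_lit 164) (@Lb.t (@Lb.fm (nat_lit 9) t4424))))))))))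
noncomputable def l24889 : Lb := (@Lb.d (nat_lit 9) (nat_lit 33) (nat_lit 66) (@Lb.g g8 (@Lb.g g9 (@Lb.g g10 (@Lb.g g11 (@Lb.r r387 (@Lb.r r1177 (@Lb.r r2458 (@Lb.r r24 (@Lb.d (nat_lit 602) (nat_lit 2) (nat_lit 169) (@Lb.fp (nat_lit 9) t4798)))))))))))
noncomputable def l24890 : Lb := (@Lb.d (nat_lit 9) (nat_lit 289) (nat_lit 66) (@Lb.g g8 (@Lb.g g9 (@Lb.g g10 (@Lb.g g11 (@Lb.r r1194 (@Lb.r r1444 (@Lb.r r2331 (@Lb.r r2085 (@Lb.d (nat_lit 69) (nat_lit 33) (nat_lit 522) (@Lb.fp (nat_lit 9) t270)))))))))))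
noncomputable def l24891 : Lb := (@Lb.d (nat_lit 2) (nat_lit 256) (nat_lit 64) (@Lb.g g8 (@Lb.g g11 (@Lb.r r2450 (@Lb.r r2659 (@Lb.r r1633 (@Lb.r r24 (@Lb.d (nat_lit 10) (nat_lit 86) (nat_lit 65) (@Lb.fm (nat_lit 3) t3960)))))))))
noncomputable def l24892 : Lb := (@Lb.d (nat_lit 513) (nat_lit 294) (nat_lit 600) (@Lb.r r21 (@Lb.r r1444 (@Lb.r r2410 (@Lb.g g11 (@Lb.g g6 (@Lb.g g4 (@Lb.d (nat_lit 161) (nat_lit 32) (nat_lit 260) (@Lb.r r25 (@Lb.t (@Lb.fm (nat_lit 9) t2109)))))))))))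
noncomputable def l24893 : Lb := (@Lb.d (nat_lit 354) (nat_lit 390) (nat_lit 518) (@Lb.r r24 (@Lb.r r1177 (@Lb.r r618 (@Lb.g g11 (@Lb.g g6 (@Lb.g g5 (@Lb.d (nat_lit 0) (nat_lit 32) (nat_lit 390) (@Lb.t (@Lb.fp (nat_lit 9) t1884))))))))))
noncomputable def l24894 : Lb := (@Lb.d (nat_lit 344) (nat_lit 138) (nat_lit 682) (@Lb.r r24 (@Lb.r r2713 (@Lb.r r1382 (@Lb.g g11 (@Lb.g g6 (@Lb.g g5 (@Lb.d (nat_lit 0) (nat_lit 41) (nat_lit 389) (@Lb.t (@Lb.fp (nat_lit 9) t1117))))))))))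
noncomputable def l24895 : Lb := (@Lb.d (nat_lit 0) (nat_lit 280) (nat_lit 5) (@Lb.g g9 (@Lb.g g10 (@Lb.g g11 (@Lb.r r611 (@Lb.r r1642 (@Lb.r r616 (@Lb.r r537 (@Lb.d (nat_lit 577) (nat_lit 80) (nat_lit 133) (@Lb.t (@Lb.fm (nat_lit 9) t1247)))))))))))
noncomputable def l24896 : Lb := (@Lb.d (nat_lit 1) (nat_lit 362) (nat_lit 406) (@Lb.r r2707 (@Lb.r r658 (@Lb.r r101 (@Lb.g g7 (@Lb.g g4 (@Lb.d (nat_lit 6) (nat_lit 0) (nat_lit 128) (@Lb.fp (nat_lit 3) t1690))))))))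
noncomputable def l24897 : Lb := (@Lb.d (nat_lit 134) (nat_lit 512) (nat_lit 73) (@Lb.g g8 (@Lb.g g9 (@Lb.g g10 (@Lb.g g11 (@Lb.r r683 (@Lb.r r2410 (@Lb.r r537 (@Lb.r r536 (@Lb.d (nat_lit 74) (nat_lit 9) (nat_lit 144) (@Lb.fp (nat_lit 9) t3522)))))))))))
noncomputable def l24898 : Lb := (@Lb.d (nat_lit 2) (nat_lit 649) (nat_lit 128) (@Lb.g g8 (@Lb.g g5 (@Lb.g g11 (@Lb.r r2587 (@Lb.r r2178 (@Lb.r r2584 (@Lb.d (nat_lit 90) (nat_lit 170) (nat_lit 258) (@Lb.t (@Lb.fm (nat_lit 9) t3930))))))))))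
noncomputable def l24899 : Lb := (@Lb.d (nat_lit 2) (nat_lit 2) (nat_lit 136) (@Lb.g g8 (@Lb.g g9 (@Lb.g g11 (@Lb.r r1186 (@Lb.r r1576 (@Lb.r r1689 (@Lb.r r1563 (@Lb.d (nat_lit 0) (nat_lit 74) (nat_lit 516) (@Lb.t (@Lb.fp (nat_lit 9) t384)))))))))))
noncomputable def l24900 : Lb := (@Lb.d (nat_lit 128) (nat_lit 393) (nat_lit 128) (@Lb.g g5 (@Lb.g g11 (@Lb.r r264 (@Lb.r r519 (@Lb.r r2178 (@Lb.d (nat_lit 528) (nat_lit 40) (nat_lit 386) (@Lb.fm (nat_lit 3) t3932))))))))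
noncomputable def l24901 : Lb := (@Lb.d (nat_lit 0) (nat_lit 649) (nat_lit 128) (@Lb.g g8 (@Lb.g g5 (@Lb.g g11 (@Lb.r r2587 (@Lb.r r2178 (@Lb.r r2584 (@Lb.d (nat_lit 90) (nat_lit 170) (nat_lit 386) (@Lb.t (@Lb.fm (nat_lit 9) t777))))))))))
noncomputable def l24902 : Lb := (@Lb.d (nat_lit 2) (nat_lit 393) (nat_lit 128) (@Lb.g g8 (@Lb.g g5 (@Lb.g g11 (@Lb.r r532 (@Lb.r r2311 (@Lb.r r2178 (@Lb.r r1540 (@Lb.d (nat_lit 272) (nat_lit 106) (nat_lit 642) (@Lb.t (@Lb.fm (nat_lit 9) t296)))))))))))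
noncomputable def l24903 : Lb := (@Lb.d (nat_lit 2) (nat_lit 2) (nat_lit 130) (@Lb.g g8 (@Lb.g g9 (@Lb.g g10 (@Lb.g g11 (@Lb.r r427 (@Lb.r r420 (@Lb.r r102 (@Lb.r r21 (@Lb.r r36 (@Lb.d (nat_lit 26) (nat_lit 4) (nat_lit 72) (@Lb.fp (nat_lit 9) t797))))))))))))
noncomputable def l24904 : Lb := (@Lb.r r323 (@Lb.d (nat_lit 2) (nat_lit 514) (nat_lit 2) (@Lb.g g8 (@Lb.g g9 (@Lb.g g10 (@Lb.r r401 (@Lb.r r299 (@Lb.r r392 (@Lb.r r74 (@Lb.d (nat_lit 38) (nat_lit 1) (nat_lit 72) (@Lb.t (@Lb.fp (nat_lit 9) t797))))))))))))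
noncomputable def l24905 : Lb := (@Lb.d (nat_lit 130) (nat_lit 34) (nat_lit 0) (@Lb.g g8 (@Lb.g g9 (@Lb.r r2695 (@Lb.r r2178 (@Lb.r r408 (@Lb.r r2085 (@Lb.d (nat_lit 26) (nat_lit 160) (nat_lit 586) (@Lb.fm (nat_lit 3) t180)))))))))
noncomputable def l24906 : Lb := (@Lb.d (nat_lit 2) (nat_lit 514) (nat_lit 130) (@Lb.g g8 (@Lb.g g9 (@Lb.g g10 (@Lb.g g11 (@Lb.r r2595 (@Lb.r r2705 (@Lb.r r356 (@Lb.r r154 (@Lb.r r132 (@Lb.d (nat_lit 128) (nat_lit 2) (nat_lit 330) (@Lb.fp (nat_lit 9) t284))))))))))))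
noncomputable def l24907 : Lb := (@Lb.d (nat_lit 34) (nat_lit 641) (nat_lit 356) (@Lb.r r134 (@Lb.r r2376 (@Lb.r r1559 (@Lb.g g5 (@Lb.g g4 (@Lb.d (nat_lit 66) (nat_lit 25) (nat_lit 0) (@Lb.fp (nat_lit 3) t2479))))))))
noncomputable def l24908 : Lb := (@Lb.d (nat_lit 2) (nat_lit 10) (nat_lit 64) (@Lb.g g8 (@Lb.g g9 (@Lb.g g11 (@Lb.r r2450 (@Lb.r r2387 (@Lb.r r2597 (@Lb.d (nat_lit 164) (nat_lit 165) (nat_lit 545) (@Lb.t (@Lb.fm (nat_lit 9) t4799))))))))))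
noncomputable def l24909 : Lb := (@Lb.d (nat_lit 2) (nat_lit 514) (nat_lit 130) (@Lb.g g8 (@Lb.g g9 (@Lb.g g10 (@Lb.g g11 (@Lb.r r2729 (@Lb.r r2475 (@Lb.r r2468 (@Lb.r r2438 (@Lb.d (nat_lit 610) (nat_lit 10) (nat_lit 617) (@Lb.fp (nat_lit 9) t590)))))))))))
noncomputable def l24910 : Lb := (@Lb.d (nat_lit 618) (nat_lit 26) (nat_lit 105) (@Lb.r r360 (@Lb.r r81 (@Lb.r r2647 (@Lb.g g6 (@Lb.g g5 (@Lb.g g4 (@Lb.d (nat_lit 66) (nat_lit 1) (nat_lit 17) (@Lb.r r387 (@Lb.t (@Lb.fp (nat_lit 9) t4800)))))))))))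
noncomputable def l24911 : Lb := (@Lb.d (nat_lit 2) (nat_lit 258) (nat_lit 66) (@Lb.g g8 (@Lb.g g9 (@Lb.g g10 (@Lb.g g7 (@Lb.r r297 (@Lb.r r136 (@Lb.r r154 (@Lb.r r132 (@Lb.d (nat_lit 69) (nat_lit 136) (nat_lit 329) (@Lb.fp (nat_lit 9) t259)))))))))))
noncomputable def l24912 : Lb := (@Lb.r r323 (@Lb.d (nat_lit 2) (nat_lit 258) (nat_lit 1) (@Lb.g g8 (@Lb.g g9 (@Lb.g g6 (@Lb.r r387 (@Lb.r r97 (@Lb.d (nat_lit 0) (nat_lit 138) (nat_lit 66) (@Lb.t (@Lb.fm (nat_lit 9) t126))))))))))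
noncomputable def l24913 : Lb := (@Lb.r r322 (@Lb.d (nat_lit 2) (nat_lit 514) (nat_lit 72) (@Lb.g g8 (@Lb.g g9 (@Lb.g g7 (@Lb.r r2730 (@Lb.r r1109 (@Lb.r r24 (@Lb.d (nat_lit 512) (nat_lit 137) (nat_lit 132) (@Lb.t (@Lb.fp (nat_lit 9) t4801)))))))))))
noncomputable def l24914 : Lb := (@Lb.d (nat_lit 137) (nat_lit 272) (nat_lit 5) (@Lb.r r68 (@Lb.r r273 (@Lb.r r346 (@Lb.r r84 (@Lb.g g7 (@Lb.g g6 (@Lb.g g5 (@Lb.g g4 (@Lb.d (nat_lit 1) (nat_lit 5) (nat_lit 130) (@Lb.fp (nat_lit 9) t98)))))))))))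
noncomputable def l24915 : Lb := (@Lb.r r323 (@Lb.d (nat_lit 2) (nat_lit 258) (nat_lit 1) (@Lb.g g8 (@Lb.g g9 (@Lb.g g6 (@Lb.r r387 (@Lb.r r97 (@Lb.d (nat_lit 0) (nat_lit 9) (nat_lit 66) (@Lb.t (@Lb.fm (nat_lit 9) t87))))))))))
noncomputable def l24916 : Lb := (@Lb.r r323 (@Lb.d (nat_lit 0) (nat_lit 512) (nat_lit 1) (@Lb.g g6 (@Lb.r r387 (@Lb.d (nat_lit 2) (nat_lit 5) (nat_lit 64) (@Lb.t (@Lb.fm (nat_lit 3) t45)))))))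
noncomputable def l24917 : Lb := (@Lb.d (nat_lit 388) (nat_lit 518) (nat_lit 278) (@Lb.r r24 (@Lb.r r101 (@Lb.r r386 (@Lb.g g7 (@Lb.g g6 (@Lb.g g4 (@Lb.d (nat_lit 0) (nat_lit 0) (nat_lit 1) (@Lb.t (@Lb.fm (nat_lit 9) t4802))))))))))
noncomputable def l24918 : Lb := (@Lb.d (nat_lit 2) (nat_lit 338) (nat_lit 266) (@Lb.r r657 (@Lb.r r602 (@Lb.r r356 (@Lb.g g11 (@Lb.g g5 (@Lb.d (nat_lit 8) (nat_lit 1) (nat_lit 384) (@Lb.r r578 (@Lb.fp (nat_lit 3) t2136)))))))))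
noncomputable def l24919 : Lb := (@Lb.r r263 (@Lb.d (nat_lit 4) (nat_lit 5) (nat_lit 34) (@Lb.g g8 (@Lb.g g9 (@Lb.g g6 (@Lb.r r1643 (@Lb.r r97 (@Lb.r r1048 (@Lb.d (nat_lit 10) (nat_lit 73) (nat_lit 0) (@Lb.t (@Lb.fm (nat_lit 9) t4803)))))))))))
noncomputable def l24920 : Lb := (@Lb.d (nat_lit 4) (nat_lit 512) (nat_lit 130) (@Lb.g g8 (@Lb.g g9 (@Lb.g g10 (@Lb.g g11 (@Lb.r r2691 (@Lb.r r2665 (@Lb.r r1686 (@Lb.r r1124 (@Lb.d (nat_lit 665) (nat_lit 138) (nat_lit 345) (@Lb.fm (nat_lit 9) t836)))))))))))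
noncomputable def l24921 : Lb := (@Lb.r r21 (@Lb.d (nat_lit 146) (nat_lit 0) (nat_lit 130) (@Lb.g g8 (@Lb.g g10 (@Lb.g g11 (@Lb.r r2435 (@Lb.r r2180 (@Lb.r r1430 (@Lb.r r97 (@Lb.d (nat_lit 73) (nat_lit 36) (nat_lit 129) (@Lb.t (@Lb.fm (nat_lit 9) t3629))))))))))))
noncomputable def l24922 : Lb := (@Lb.d (nat_lit 400) (nat_lit 522) (nat_lit 405) (@Lb.r r20 (@Lb.r r105 (@Lb.r r40 (@Lb.r r386 (@Lb.g g11 (@Lb.g g6 (@Lb.g g5 (@Lb.g g4 (@Lb.d (nat_lit 2) (nat_lit 0) (nat_lit 129) (@Lb.fp (nat_lit 9) t2407)))))))))))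
noncomputable def l24923 : Lb := (@Lb.d (nat_lit 4) (nat_lit 10) (nat_lit 0) (@Lb.g g4 (@Lb.g g9 (@Lb.r r1379 (@Lb.r r1618 (@Lb.r r1425 (@Lb.d (nat_lit 1) (nat_lit 90) (nat_lit 137) (@Lb.fp (nat_lit 3) t386))))))))
noncomputable def l24924 : Lb := (@Lb.d (nat_lit 2) (nat_lit 514) (nat_lit 66) (@Lb.g g8 (@Lb.g g9 (@Lb.g g10 (@Lb.g g11 (@Lb.r r427 (@Lb.r r297 (@Lb.r r104 (@Lb.r r70 (@Lb.r r132 (@Lb.d (nat_lit 9) (nat_lit 149) (nat_lit 70) (@Lb.fp (nat_lit 9) t119))))))))))))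
noncomputable def l24925 : Lb := (@Lb.d (nat_lit 2) (nat_lit 258) (nat_lit 66) (@Lb.g g8 (@Lb.g g9 (@Lb.g g10 (@Lb.g g11 (@Lb.r r427 (@Lb.r r297 (@Lb.r r104 (@Lb.r r70 (@Lb.r r132 (@Lb.d (nat_lit 9) (nat_lit 154) (nat_lit 68) (@Lb.fp (nat_lit 9) t119))))))))))))
noncomputable def l24926 : Lb := (@Lb.d (nat_lit 5) (nat_lit 257) (nat_lit 0) (@Lb.g g4 (@Lb.g g5 (@Lb.d (nat_lit 1) (nat_lit 0) (nat_lit 128) (@Lb.fm (nat_lit 3) t2)))))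
noncomputable def l24927 : Lb := (@Lb.d (nat_lit 0) (nat_lit 258) (nat_lit 0) (@Lb.g g9 (@Lb.r r2339 (@Lb.r r2146 (@Lb.r r97 (@Lb.d (nat_lit 0) (nat_lit 144) (nat_lit 680) (@Lb.t (@Lb.fm (nat_lit 3) t65))))))))
noncomputable def l24928 : Lb := (@Lb.r r82 (@Lb.r r275 (@Lb.d (nat_lit 33) (nat_lit 8) (nat_lit 0) (@Lb.g g8 (@Lb.g g9 (@Lb.r r427 (@Lb.r r582 (@Lb.r r408 (@Lb.d (nat_lit 154) (nat_lit 18) (nat_lit 152) (@Lb.fp (nat_lit 3) t573))))))))))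
noncomputable def l24929 : Lb := (@Lb.r r21 (@Lb.d (nat_lit 10) (nat_lit 520) (nat_lit 130) (@Lb.g g8 (@Lb.g g10 (@Lb.g g11 (@Lb.r r427 (@Lb.r r533 (@Lb.r r360 (@Lb.r r582 (@Lb.d (nat_lit 153) (nat_lit 149) (nat_lit 65) (@Lb.t (@Lb.fp (nat_lit 9) t51))))))))))))
noncomputable def l24930 : Lb := (@Lb.d (nat_lit 6) (nat_lit 0) (nat_lit 130) (@Lb.g g8 (@Lb.g g9 (@Lb.g g10 (@Lb.g g11 (@Lb.r r427 (@Lb.r r420 (@Lb.r r102 (@Lb.r r97 (@Lb.r r36 (@Lb.d (nat_lit 9) (nat_lit 137) (nat_lit 2) (@Lb.fm (nat_lit 9) t51))))))))))))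
noncomputable def l24931 : Lb := (@Lb.r r82 (@Lb.d (nat_lit 8) (nat_lit 258) (nat_lit 128) (@Lb.g g9 (@Lb.g g11 (@Lb.r r586 (@Lb.r r584 (@Lb.r r2347 (@Lb.r r2337 (@Lb.d (nat_lit 265) (nat_lit 9) (nat_lit 514) (@Lb.fm (nat_lit 3) t2705))))))))))
noncomputable def l24932 : Lb := (@Lb.r r323 (@Lb.d (nat_lit 0) (nat_lit 256) (nat_lit 1) (@Lb.g g6 (@Lb.r r387 (@Lb.r r101 (@Lb.r r24 (@Lb.d (nat_lit 32) (nat_lit 0) (nat_lit 66) (@Lb.t (@Lb.fm (nat_lit 3) t167)))))))))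
noncomputable def l24933 : Lb := (@Lb.d (nat_lit 10) (nat_lit 0) (nat_lit 0) (@Lb.g g8 (@Lb.r r402 (@Lb.r r149 (@Lb.r r168 (@Lb.d (nat_lit 596) (nat_lit 8) (nat_lit 16) (@Lb.t (@Lb.fp (nat_lit 3) t145))))))))
noncomputable def l24934 : Lb := (@Lb.d (nat_lit 128) (nat_lit 296) (nat_lit 161) (@Lb.g g6 (@Lb.g g11 (@Lb.r r2345 (@Lb.r r360 (@Lb.r r343 (@Lb.d (nat_lit 580) (nat_lit 24) (nat_lit 148) (@Lb.fp (nat_lit 3) t1046))))))))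
noncomputable def l24935 : Lb := (@Lb.r r323 (@Lb.d (nat_lit 2) (nat_lit 290) (nat_lit 2) (@Lb.g g8 (@Lb.g g9 (@Lb.g g10 (@Lb.r r599 (@Lb.r r392 (@Lb.r r74 (@Lb.d (nat_lit 17) (nat_lit 4) (nat_lit 153) (@Lb.t (@Lb.fm (nat_lit 9) t221)))))))))))
noncomputable def l24936 : Lb := (@Lb.g g9 (@Lb.d (nat_lit 0) (nat_lit 0) (nat_lit 69) (@Lb.t (@Lb.fp (nat_lit 3) t2))))
noncomputable def l24937 : Lb := (@Lb.d (nat_lit 2) (nat_lit 550) (nat_lit 64) (@Lb.g g8 (@Lb.g g9 (@Lb.g g10 (@Lb.g g11 (@Lb.r r2595 (@Lb.r r386 (@Lb.r r36 (@Lb.r r149 (@Lb.r r2084 (@Lb.d (nat_lit 641) (nat_lit 10) (nat_lit 613) (@Lb.fp (nat_lit 9) t50))))))))))))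
noncomputable def l24938 : Lb := (@Lb.r r323 (@Lb.d (nat_lit 16) (nat_lit 256) (nat_lit 37) (@Lb.g g9 (@Lb.g g6 (@Lb.r r584 (@Lb.r r299 (@Lb.r r289 (@Lb.d (nat_lit 328) (nat_lit 0) (nat_lit 513) (@Lb.fp (nat_lit 3) t1449)))))))))
noncomputable def l24939 : Lb := (@Lb.d (nat_lit 5) (nat_lit 258) (nat_lit 6) (@Lb.r r323 (@Lb.g g6 (@Lb.d (nat_lit 0) (nat_lit 4) (nat_lit 9) (@Lb.r r387 (@Lb.t (@Lb.fm (nat_lit 3) t45)))))))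
noncomputable def l24940 : Lb := (@Lb.d (nat_lit 0) (nat_lit 516) (nat_lit 6) (@Lb.g g6 (@Lb.r r101 (@Lb.r r24 (@Lb.d (nat_lit 321) (nat_lit 0) (nat_lit 577) (@Lb.t (@Lb.fm (nat_lit 3) t145)))))))
noncomputable def l24941 : Lb := (@Lb.d (nat_lit 2) (nat_lit 258) (nat_lit 130) (@Lb.g g8 (@Lb.g g9 (@Lb.g g10 (@Lb.g g11 (@Lb.r r1706 (@Lb.r r676 (@Lb.r r551 (@Lb.r r1557 (@Lb.r r1060 (@Lb.d (nat_lit 650) (nat_lit 65) (nat_lit 330) (@Lb.fp (nat_lit 9) t284))))))))))))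
noncomputable def l24942 : Lb := (@Lb.d (nat_lit 134) (nat_lit 513) (nat_lit 10) (@Lb.r r68 (@Lb.r r666 (@Lb.r r404 (@Lb.r r337 (@Lb.g g7 (@Lb.g g6 (@Lb.g g5 (@Lb.g g4 (@Lb.d (nat_lit 2) (nat_lit 1) (nat_lit 128) (@Lb.fm (nat_lit 9) t98)))))))))))
noncomputable def l24943 : Lb := (@Lb.r r82 (@Lb.d (nat_lit 276) (nat_lit 256) (nat_lit 0) (@Lb.g g8 (@Lb.g g9 (@Lb.r r2731 (@Lb.r r1642 (@Lb.r r1633 (@Lb.d (nat_lit 609) (nat_lit 0) (nat_lit 9) (@Lb.fm (nat_lit 3) t1877)))))))))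
noncomputable def l24944 : Lb := (@Lb.d (nat_lit 5) (nat_lit 2) (nat_lit 64) (@Lb.g g8 (@Lb.g g9 (@Lb.g g10 (@Lb.g g11 (@Lb.r r1642 (@Lb.r r1049 (@Lb.d (nat_lit 522) (nat_lit 89) (nat_lit 130) (@Lb.fp (nat_lit 9) t71)))))))))
noncomputable def l24945 : Lb := (@Lb.d (nat_lit 2) (nat_lit 258) (nat_lit 130) (@Lb.g g8 (@Lb.g g9 (@Lb.g g10 (@Lb.g g11 (@Lb.r r1699 (@Lb.r r164 (@Lb.r r2709 (@Lb.r r2198 (@Lb.r r2084 (@Lb.d (nat_lit 289) (nat_lit 81) (nat_lit 610) (@Lb.fp (nat_lit 9) t791))))))))))))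
noncomputable def l24946 : Lb := (@Lb.d (nat_lit 272) (nat_lit 9) (nat_lit 2) (@Lb.g g8 (@Lb.g g9 (@Lb.g g10 (@Lb.r r2731 (@Lb.r r1642 (@Lb.r r25 (@Lb.d (nat_lit 4) (nat_lit 152) (nat_lit 9) (@Lb.t (@Lb.fp (nat_lit 9) t1877))))))))))
noncomputable def l24947 : Lb := (@Lb.r r21 (@Lb.r r323 (@Lb.d (nat_lit 136) (nat_lit 0) (nat_lit 2) (@Lb.g g8 (@Lb.g g10 (@Lb.r r2394 (@Lb.r r1685 (@Lb.r r1559 (@Lb.r r2312 (@Lb.d (nat_lit 384) (nat_lit 134) (nat_lit 657) (@Lb.fm (nat_lit 3) t51)))))))))))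
noncomputable def l24948 : Lb := (@Lb.d (nat_lit 0) (nat_lit 514) (nat_lit 73) (@Lb.g g8 (@Lb.g g9 (@Lb.g g10 (@Lb.g g11 (@Lb.r r2691 (@Lb.r r297 (@Lb.r r648 (@Lb.r r666 (@Lb.r r1156 (@Lb.d (nat_lit 640) (nat_lit 42) (nat_lit 137) (@Lb.fp (nat_lit 9) t259))))))))))))
noncomputable def l24949 : Lb := (@Lb.d (nat_lit 0) (nat_lit 514) (nat_lit 73) (@Lb.g g8 (@Lb.g g9 (@Lb.g g10 (@Lb.g g11 (@Lb.r r2691 (@Lb.r r297 (@Lb.r r648 (@Lb.r r666 (@Lb.r r1156 (@Lb.d (nat_lit 640) (nat_lit 168) (nat_lit 137) (@Lb.fp (nat_lit 9) t1115))))))))))))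
noncomputable def l24950 : Lb := (@Lb.d (nat_lit 4) (nat_lit 357) (nat_lit 548) (@Lb.r r1633 (@Lb.r r2403 (@Lb.g g10 (@Lb.g g5 (@Lb.g g8 (@Lb.d (nat_lit 322) (nat_lit 5) (nat_lit 18) (@Lb.t (@Lb.fm (nat_lit 9) t3352)))))))))
noncomputable def l24951 : Lb := (@Lb.d (nat_lit 0) (nat_lit 512) (nat_lit 6) (@Lb.r r323 (@Lb.g g6 (@Lb.g g9 (@Lb.d (nat_lit 0) (nat_lit 5) (nat_lit 9) (@Lb.r r387 (@Lb.fp (nat_lit 3) t45)))))))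
noncomputable def l24952 : Lb := (@Lb.r r82 (@Lb.r r275 (@Lb.d (nat_lit 34) (nat_lit 282) (nat_lit 0) (@Lb.g g8 (@Lb.g g9 (@Lb.r r427 (@Lb.r r582 (@Lb.r r408 (@Lb.d (nat_lit 137) (nat_lit 25) (nat_lit 136) (@Lb.fp (nat_lit 3) t601))))))))))
noncomputable def l24953 : Lb := (@Lb.d (nat_lit 134) (nat_lit 513) (nat_lit 133) (@Lb.r r68 (@Lb.r r666 (@Lb.r r404 (@Lb.r r337 (@Lb.g g7 (@Lb.g g6 (@Lb.g g5 (@Lb.g g4 (@Lb.d (nat_lit 1) (nat_lit 8) (nat_lit 130) (@Lb.fm (nat_lit 9) t98)))))))))))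
noncomputable def l24954 : Lb := (@Lb.d (nat_lit 262) (nat_lit 166) (nat_lit 534) (@Lb.r r2069 (@Lb.r r2390 (@Lb.r r2731 (@Lb.g g7 (@Lb.g g6 (@Lb.g g5 (@Lb.g g4 (@Lb.d (nat_lit 8) (nat_lit 1) (nat_lit 0) (@Lb.fm (nat_lit 9) t154))))))))))
noncomputable def l24955 : Lb := (@Lb.d (nat_lit 2) (nat_lit 258) (nat_lit 130) (@Lb.g g8 (@Lb.g g9 (@Lb.g g10 (@Lb.g g11 (@Lb.r r2411 (@Lb.r r386 (@Lb.r r97 (@Lb.r r24 (@Lb.d (nat_lit 534) (nat_lit 6) (nat_lit 70) (@Lb.fm (nat_lit 9) t61)))))))))))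
noncomputable def l24956 : Lb := (@Lb.d (nat_lit 153) (nat_lit 258) (nat_lit 130) (@Lb.g g8 (@Lb.g g9 (@Lb.g g10 (@Lb.g g11 (@Lb.r r2691 (@Lb.r r1109 (@Lb.r r1450 (@Lb.r r2632 (@Lb.d (nat_lit 277) (nat_lit 160) (nat_lit 265) (@Lb.fm (nat_lit 9) t4804)))))))))))
noncomputable def l24957 : Lb := (@Lb.d (nat_lit 0) (nat_lit 256) (nat_lit 129) (@Lb.r r2371 (@Lb.g g6 (@Lb.g g9 (@Lb.g g4 (@Lb.d (nat_lit 1) (nat_lit 68) (nat_lit 1) (@Lb.r r291 (@Lb.t (@Lb.fm (nat_lit 9) t660)))))))))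
noncomputable def l24958 : Lb := (@Lb.r r2403 (@Lb.r r101 (@Lb.r r24 (@Lb.d (nat_lit 320) (nat_lit 266) (nat_lit 530) (@Lb.fp (nat_lit 1) t1172)))))
noncomputable def l24959 : Lb := (@Lb.d (nat_lit 0) (nat_lit 512) (nat_lit 133) (@Lb.g g10 (@Lb.g g11 (@Lb.r r1347 (@Lb.r r1378 (@Lb.r r101 (@Lb.r r24 (@Lb.d (nat_lit 88) (nat_lit 9) (nat_lit 352) (@Lb.fm (nat_lit 3) t145)))))))))
noncomputable def l24960 : Lb := (@Lb.r r323 (@Lb.d (nat_lit 40) (nat_lit 260) (nat_lit 37) (@Lb.g g9 (@Lb.g g6 (@Lb.r r404 (@Lb.r r299 (@Lb.r r409 (@Lb.d (nat_lit 9) (nat_lit 90) (nat_lit 421) (@Lb.fp (nat_lit 3) t3446)))))))))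
noncomputable def l24961 : Lb := (@Lb.r r323 (@Lb.d (nat_lit 130) (nat_lit 258) (nat_lit 2) (@Lb.g g8 (@Lb.g g9 (@Lb.g g10 (@Lb.r r599 (@Lb.r r98 (@Lb.r r97 (@Lb.r r408 (@Lb.d (nat_lit 393) (nat_lit 148) (nat_lit 33) (@Lb.t (@Lb.fp (nat_lit 9) t3056))))))))))))
noncomputable def l24962 : Lb := (@Lb.d (nat_lit 8) (nat_lit 258) (nat_lit 0) (@Lb.g g9 (@Lb.r r24 (@Lb.d (nat_lit 617) (nat_lit 130) (nat_lit 528) (@Lb.t (@Lb.fm (nat_lit 3) t698))))))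
noncomputable def l24963 : Lb := (@Lb.d (nat_lit 34) (nat_lit 32) (nat_lit 128) (@Lb.g g8 (@Lb.g g9 (@Lb.g g11 (@Lb.r r82 (@Lb.r r85 (@Lb.r r1380 (@Lb.r r523 (@Lb.d (nat_lit 258) (nat_lit 154) (nat_lit 641) (@Lb.t (@Lb.fp (nat_lit 9) t722)))))))))))
noncomputable def l24964 : Lb := (@Lb.d (nat_lit 0) (nat_lit 256) (nat_lit 2) (@Lb.g g10 (@Lb.g g7 (@Lb.r r386 (@Lb.r r2449 (@Lb.r r2436 (@Lb.d (nat_lit 608) (nat_lit 100) (nat_lit 354) (@Lb.fm (nat_lit 3) t4805))))))))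
noncomputable def l24965 : Lb := (@Lb.g g10 (@Lb.g g7 (@Lb.r r2691 (@Lb.r r1378 (@Lb.r r101 (@Lb.r r24 (@Lb.d (nat_lit 538) (nat_lit 9) (nat_lit 544) (@Lb.fm (nat_lit 3) t145))))))))
noncomputable def l24966 : Lb := (@Lb.d (nat_lit 38) (nat_lit 553) (nat_lit 133) (@Lb.g g8 (@Lb.g g9 (@Lb.g g10 (@Lb.g g11 (@Lb.r r1427 (@Lb.r r2705 (@Lb.r r2458 (@Lb.r r392 (@Lb.d (nat_lit 337) (nat_lit 1) (nat_lit 586) (@Lb.fp (nat_lit 9) t2408)))))))))))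
noncomputable def l24967 : Lb := (@Lb.d (nat_lit 34) (nat_lit 512) (nat_lit 0) (@Lb.g g8 (@Lb.g g9 (@Lb.r r338 (@Lb.r r597 (@Lb.r r356 (@Lb.r r1547 (@Lb.d (nat_lit 97) (nat_lit 154) (nat_lit 665) (@Lb.fp (nat_lit 3) t145)))))))))
noncomputable def l24968 : Lb := (@Lb.d (nat_lit 33) (nat_lit 0) (nat_lit 0) (@Lb.g g8 (@Lb.g g9 (@Lb.r r338 (@Lb.r r597 (@Lb.r r356 (@Lb.r r1547 (@Lb.d (nat_lit 97) (nat_lit 154) (nat_lit 665) (@Lb.fp (nat_lit 3) t145)))))))))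
noncomputable def l24969 : Lb := (@Lb.d (nat_lit 130) (nat_lit 514) (nat_lit 2) (@Lb.g g8 (@Lb.g g9 (@Lb.g g10 (@Lb.r r1623 (@Lb.r r1449 (@Lb.r r1448 (@Lb.r r2122 (@Lb.d (nat_lit 289) (nat_lit 102) (nat_lit 680) (@Lb.t (@Lb.fp (nat_lit 9) t873)))))))))))
noncomputable def l24970 : Lb := (@Lb.d (nat_lit 0) (nat_lit 546) (nat_lit 0) (@Lb.g g5 (@Lb.r r1158 (@Lb.r r2664 (@Lb.r r2347 (@Lb.r r281 (@Lb.d (nat_lit 646) (nat_lit 33) (nat_lit 640) (@Lb.t (@Lb.fm (nat_lit 3) t2604)))))))))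
noncomputable def l24971 : Lb := (@Lb.d (nat_lit 2) (nat_lit 386) (nat_lit 66) (@Lb.g g8 (@Lb.g g9 (@Lb.g g10 (@Lb.g g11 (@Lb.r r648 (@Lb.r r539 (@Lb.r r98 (@Lb.r r516 (@Lb.d (nat_lit 553) (nat_lit 10) (nat_lit 152) (@Lb.fp (nat_lit 9) t1194)))))))))))
noncomputable def l24972 : Lb := (@Lb.d (nat_lit 130) (nat_lit 2) (nat_lit 2) (@Lb.g g8 (@Lb.g g9 (@Lb.g g10 (@Lb.r r1623 (@Lb.r r426 (@Lb.r r345 (@Lb.r r324 (@Lb.d (nat_lit 84) (nat_lit 137) (nat_lit 132) (@Lb.t (@Lb.fm (nat_lit 9) t2211)))))))))))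
noncomputable def l24973 : Lb := (@Lb.r r82 (@Lb.d (nat_lit 8) (nat_lit 256) (nat_lit 128) (@Lb.g g9 (@Lb.g g11 (@Lb.r r551 (@Lb.r r386 (@Lb.r r280 (@Lb.r r661 (@Lb.d (nat_lit 289) (nat_lit 34) (nat_lit 105) (@Lb.fp (nat_lit 3) t2603))))))))))
noncomputable def l24974 : Lb := (@Lb.d (nat_lit 2) (nat_lit 32) (nat_lit 2) (@Lb.g g8 (@Lb.g g9 (@Lb.g g10 (@Lb.r r1543 (@Lb.r r1560 (@Lb.r r2725 (@Lb.r r98 (@Lb.d (nat_lit 288) (nat_lit 42) (nat_lit 82) (@Lb.t (@Lb.fp (nat_lit 9) t4806)))))))))))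
noncomputable def l24975 : Lb := (@Lb.d (nat_lit 0) (nat_lit 258) (nat_lit 66) (@Lb.g g8 (@Lb.g g9 (@Lb.g g10 (@Lb.g g11 (@Lb.r r648 (@Lb.r r1563 (@Lb.r r145 (@Lb.r r2714 (@Lb.r r2692 (@Lb.d (nat_lit 9) (nat_lit 101) (nat_lit 658) (@Lb.fm (nat_lit 9) t4807))))))))))))
noncomputable def l24976 : Lb := (@Lb.d (nat_lit 70) (nat_lit 294) (nat_lit 289) (@Lb.r r355 (@Lb.r r2642 (@Lb.r r1173 (@Lb.g g7 (@Lb.g g5 (@Lb.g g4 (@Lb.d (nat_lit 1) (nat_lit 16) (nat_lit 64) (@Lb.t (@Lb.fp (nat_lit 9) t2877))))))))))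
noncomputable def l24977 : Lb := (@Lb.d (nat_lit 2) (nat_lit 514) (nat_lit 130) (@Lb.g g8 (@Lb.g g9 (@Lb.g g10 (@Lb.g g11 (@Lb.r r2705 (@Lb.r r356 (@Lb.r r667 (@Lb.r r586 (@Lb.r r1540 (@Lb.d (nat_lit 528) (nat_lit 0) (nat_lit 145) (@Lb.fm (nat_lit 9) t145))))))))))))
noncomputable def l24978 : Lb := (@Lb.d (nat_lit 128) (nat_lit 0) (nat_lit 128) (@Lb.g g11 (@Lb.r r2630 (@Lb.r r1428 (@Lb.r r2699 (@Lb.r r2073 (@Lb.d (nat_lit 617) (nat_lit 9) (nat_lit 409) (@Lb.t (@Lb.fm (nat_lit 3) t4808)))))))))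
noncomputable def l24979 : Lb := (@Lb.d (nat_lit 0) (nat_lit 265) (nat_lit 72) (@Lb.g g8 (@Lb.g g9 (@Lb.g g10 (@Lb.g g11 (@Lb.r r2691 (@Lb.r r2665 (@Lb.r r1686 (@Lb.r r1096 (@Lb.d (nat_lit 672) (nat_lit 160) (nat_lit 89) (@Lb.fp (nat_lit 9) t821)))))))))))
noncomputable def l24980 : Lb := (@Lb.d (nat_lit 2) (nat_lit 514) (nat_lit 2) (@Lb.g g8 (@Lb.g g9 (@Lb.g g10 (@Lb.g g11 (@Lb.r r1346 (@Lb.r r1451 (@Lb.r r25 (@Lb.d (nat_lit 9) (nat_lit 66) (nat_lit 261) (@Lb.fp (nat_lit 9) t660))))))))))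
noncomputable def l24981 : Lb := (@Lb.d (nat_lit 2) (nat_lit 514) (nat_lit 73) (@Lb.g g8 (@Lb.g g9 (@Lb.g g10 (@Lb.g g11 (@Lb.r r2459 (@Lb.r r297 (@Lb.r r1348 (@Lb.r r2666 (@Lb.d (nat_lit 665) (nat_lit 150) (nat_lit 70) (@Lb.fm (nat_lit 9) t91)))))))))))
noncomputable def l24982 : Lb := (@Lb.d (nat_lit 2) (nat_lit 514) (nat_lit 130) (@Lb.g g8 (@Lb.g g9 (@Lb.g g10 (@Lb.g g11 (@Lb.r r2666 (@Lb.r r579 (@Lb.r r97 (@Lb.r r24 (@Lb.d (nat_lit 421) (nat_lit 6) (nat_lit 424) (@Lb.fm (nat_lit 9) t61)))))))))))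
noncomputable def l24983 : Lb := (@Lb.d (nat_lit 2) (nat_lit 0) (nat_lit 66) (@Lb.g g8 (@Lb.g g10 (@Lb.g g7 (@Lb.r r386 (@Lb.r r2145 (@Lb.d (nat_lit 294) (nat_lit 8) (nat_lit 24) (@Lb.t (@Lb.fp (nat_lit 9) t97)))))))))
noncomputable def l24984 : Lb := (@Lb.r r21 (@Lb.d (nat_lit 66) (nat_lit 256) (nat_lit 132) (@Lb.g g8 (@Lb.g g10 (@Lb.g g11 (@Lb.r r1674 (@Lb.r r2657 (@Lb.r r2723 (@Lb.r r2308 (@Lb.d (nat_lit 681) (nat_lit 85) (nat_lit 354) (@Lb.t (@Lb.fp (nat_lit 9) t4809))))))))))))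
noncomputable def l24985 : Lb := (@Lb.d (nat_lit 518) (nat_lit 358) (nat_lit 548) (@Lb.r r24 (@Lb.r r1633 (@Lb.r r1643 (@Lb.g g7 (@Lb.g g10 (@Lb.g g5 (@Lb.g g4 (@Lb.d (nat_lit 1) (nat_lit 5) (nat_lit 82) (@Lb.fp (nat_lit 9) t820))))))))))
noncomputable def l24986 : Lb := (@Lb.d (nat_lit 0) (nat_lit 37) (nat_lit 32) (@Lb.r r402 (@Lb.r r101 (@Lb.r r24 (@Lb.g g7 (@Lb.d (nat_lit 0) (nat_lit 0) (nat_lit 68) (@Lb.t (@Lb.fp (nat_lit 3) t312))))))))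
noncomputable def l24987 : Lb := (@Lb.d (nat_lit 32) (nat_lit 256) (nat_lit 130) (@Lb.g g9 (@Lb.g g10 (@Lb.g g11 (@Lb.r r1707 (@Lb.r r2713 (@Lb.r r100 (@Lb.r r410 (@Lb.d (nat_lit 644) (nat_lit 25) (nat_lit 153) (@Lb.t (@Lb.fm (nat_lit 9) t284)))))))))))
noncomputable def l24988 : Lb := (@Lb.d (nat_lit 148) (nat_lit 1) (nat_lit 534) (@Lb.r r409 (@Lb.r r342 (@Lb.r r1707 (@Lb.g g7 (@Lb.g g5 (@Lb.g g4 (@Lb.d (nat_lit 1) (nat_lit 0) (nat_lit 0) (@Lb.r r98 (@Lb.t (@Lb.fm (nat_lit 9) t40)))))))))))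
noncomputable def l24989 : Lb := (@Lb.d (nat_lit 6) (nat_lit 550) (nat_lit 534) (@Lb.r r21 (@Lb.r r342 (@Lb.r r1707 (@Lb.g g7 (@Lb.g g6 (@Lb.g g5 (@Lb.g g4 (@Lb.d (nat_lit 1) (nat_lit 8) (nat_lit 2) (@Lb.fm (nat_lit 9) t40))))))))))
noncomputable def l24990 : Lb := (@Lb.r r323 (@Lb.d (nat_lit 0) (nat_lit 10) (nat_lit 1) (@Lb.g g9 (@Lb.g g10 (@Lb.r r2579 (@Lb.r r1169 (@Lb.r r338 (@Lb.d (nat_lit 0) (nat_lit 160) (nat_lit 614) (@Lb.fp (nat_lit 3) t4071)))))))))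
noncomputable def l24991 : Lb := (@Lb.r r322 (@Lb.d (nat_lit 8) (nat_lit 258) (nat_lit 512) (@Lb.g g5 (@Lb.g g7 (@Lb.r r676 (@Lb.r r342 (@Lb.r r673 (@Lb.d (nat_lit 0) (nat_lit 137) (nat_lit 649) (@Lb.fp (nat_lit 3) t259)))))))))
noncomputable def l24992 : Lb := (@Lb.d (nat_lit 2) (nat_lit 2) (nat_lit 130) (@Lb.g g8 (@Lb.g g9 (@Lb.g g10 (@Lb.g g11 (@Lb.r r1689 (@Lb.r r2579 (@Lb.r r386 (@Lb.d (nat_lit 289) (nat_lit 0) (nat_lit 100) (@Lb.fp (nat_lit 9) t791))))))))))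
noncomputable def l24993 : Lb := (@Lb.r r323 (@Lb.d (nat_lit 32) (nat_lit 256) (nat_lit 2) (@Lb.g g9 (@Lb.g g10 (@Lb.r r584 (@Lb.r r299 (@Lb.r r289 (@Lb.d (nat_lit 10) (nat_lit 130) (nat_lit 137) (@Lb.fm (nat_lit 3) t51)))))))))
noncomputable def l24994 : Lb := (@Lb.d (nat_lit 2) (nat_lit 521) (nat_lit 72) (@Lb.g g8 (@Lb.g g9 (@Lb.g g10 (@Lb.g g11 (@Lb.r r2451 (@Lb.r r277 (@Lb.r r1384 (@Lb.r r2630 (@Lb.d (nat_lit 657) (nat_lit 10) (nat_lit 361) (@Lb.fm (nat_lit 9) t98)))))))))))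
noncomputable def l24995 : Lb := (@Lb.r r82 (@Lb.r r275 (@Lb.d (nat_lit 32) (nat_lit 386) (nat_lit 0) (@Lb.g g8 (@Lb.g g9 (@Lb.r r150 (@Lb.r r340 (@Lb.r r411 (@Lb.d (nat_lit 10) (nat_lit 72) (nat_lit 672) (@Lb.fp (nat_lit 3) t394))))))))))
noncomputable def l24996 : Lb := (@Lb.d (nat_lit 26) (nat_lit 1) (nat_lit 128) (@Lb.g g8 (@Lb.g g9 (@Lb.g g10 (@Lb.g g11 (@Lb.r r1691 (@Lb.r r1684 (@Lb.r r1190 (@Lb.r r2577 (@Lb.d (nat_lit 617) (nat_lit 90) (nat_lit 129) (@Lb.fp (nat_lit 9) t2095)))))))))))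
noncomputable def l24997 : Lb := (@Lb.g g8 (@Lb.g g5 (@Lb.g g10 (@Lb.r r659 (@Lb.r r2401 (@Lb.r r2404 (@Lb.r r1178 (@Lb.d (nat_lit 584) (nat_lit 393) (nat_lit 18) (@Lb.t (@Lb.fm (nat_lit 9) t66))))))))))
noncomputable def l24998 : Lb := (@Lb.r r82 (@Lb.r r275 (@Lb.d (nat_lit 32) (nat_lit 130) (nat_lit 0) (@Lb.g g8 (@Lb.g g9 (@Lb.r r150 (@Lb.r r340 (@Lb.r r411 (@Lb.d (nat_lit 10) (nat_lit 128) (nat_lit 673) (@Lb.fp (nat_lit 3) t898))))))))))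
noncomputable def l24999 : Lb := (@Lb.d (nat_lit 136) (nat_lit 265) (nat_lit 64) (@Lb.g g9 (@Lb.g g11 (@Lb.r r2196 (@Lb.r r662 (@Lb.r r1411 (@Lb.r r281 (@Lb.d (nat_lit 0) (nat_lit 21) (nat_lit 154) (@Lb.fp (nat_lit 3) t748)))))))))
noncomputable def l25000 : Lb := (@Lb.d (nat_lit 70) (nat_lit 33) (nat_lit 70) (@Lb.r r408 (@Lb.r r330 (@Lb.r r343 (@Lb.g g5 (@Lb.g g4 (@Lb.d (nat_lit 17) (nat_lit 37) (nat_lit 0) (@Lb.r r291 (@Lb.r r98 (@Lb.fp (nat_lit 3) t355))))))))))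
noncomputable def l25001 : Lb := (@Lb.d (nat_lit 26) (nat_lit 264) (nat_lit 2) (@Lb.g g8 (@Lb.g g9 (@Lb.g g10 (@Lb.r r675 (@Lb.r r1681 (@Lb.r r2404 (@Lb.r r2202 (@Lb.d (nat_lit 169) (nat_lit 9) (nat_lit 596) (@Lb.t (@Lb.fm (nat_lit 9) t4810)))))))))))
noncomputable def l25002 : Lb := (@Lb.r r82 (@Lb.r r275 (@Lb.d (nat_lit 0) (nat_lit 514) (nat_lit 0) (@Lb.g g8 (@Lb.g g9 (@Lb.r r1323 (@Lb.r r1130 (@Lb.r r1049 (@Lb.d (nat_lit 521) (nat_lit 0) (nat_lit 128) (@Lb.fm (nat_lit 3) t1))))))))))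
noncomputable def l25003 : Lb := (@Lb.d (nat_lit 4) (nat_lit 546) (nat_lit 4) (@Lb.g g8 (@Lb.g g9 (@Lb.g g10 (@Lb.g g11 (@Lb.r r2647 (@Lb.r r1642 (@Lb.r r2201 (@Lb.d (nat_lit 282) (nat_lit 22) (nat_lit 416) (@Lb.fm (nat_lit 9) t4811))))))))))
noncomputable def l25004 : Lb := (@Lb.r r21 (@Lb.d (nat_lit 680) (nat_lit 512) (nat_lit 134) (@Lb.g g8 (@Lb.g g10 (@Lb.g g11 (@Lb.r r2714 (@Lb.r r545 (@Lb.r r611 (@Lb.d (nat_lit 424) (nat_lit 130) (nat_lit 37) (@Lb.t (@Lb.fp (nat_lit 9) t4812)))))))))))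
noncomputable def l25005 : Lb := (@Lb.d (nat_lit 5) (nat_lit 642) (nat_lit 338) (@Lb.r r359 (@Lb.r r676 (@Lb.r r150 (@Lb.g g5 (@Lb.g g4 (@Lb.d (nat_lit 21) (nat_lit 66) (nat_lit 0) (@Lb.r r291 (@Lb.r r98 (@Lb.fp (nat_lit 3) t23))))))))))
noncomputable def l25006 : Lb := (@Lb.d (nat_lit 2) (nat_lit 289) (nat_lit 4) (@Lb.g g8 (@Lb.g g9 (@Lb.g g10 (@Lb.g g11 (@Lb.r r2647 (@Lb.r r1642 (@Lb.r r2201 (@Lb.d (nat_lit 281) (nat_lit 22) (nat_lit 416) (@Lb.fm (nat_lit 9) t4811))))))))))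
noncomputable def l25007 : Lb := (@Lb.d (nat_lit 40) (nat_lit 256) (nat_lit 64) (@Lb.g g8 (@Lb.g g11 (@Lb.r r1703 (@Lb.r r614 (@Lb.r r1637 (@Lb.r r1428 (@Lb.d (nat_lit 356) (nat_lit 80) (nat_lit 392) (@Lb.fm (nat_lit 3) t386)))))))))
noncomputable def l25008 : Lb := (@Lb.d (nat_lit 128) (nat_lit 544) (nat_lit 72) (@Lb.g g11 (@Lb.r r2410 (@Lb.r r361 (@Lb.r r1384 (@Lb.r r2391 (@Lb.d (nat_lit 132) (nat_lit 152) (nat_lit 298) (@Lb.t (@Lb.fp (nat_lit 3) t386)))))))))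
noncomputable def l25009 : Lb := (@Lb.r r323 (@Lb.d (nat_lit 133) (nat_lit 2) (nat_lit 2) (@Lb.g g8 (@Lb.g g9 (@Lb.g g10 (@Lb.r r362 (@Lb.r r361 (@Lb.r r1367 (@Lb.r r2696 (@Lb.d (nat_lit 336) (nat_lit 134) (nat_lit 660) (@Lb.t (@Lb.fm (nat_lit 9) t51))))))))))))
noncomputable def l25010 : Lb := (@Lb.d (nat_lit 0) (nat_lit 550) (nat_lit 64) (@Lb.g g8 (@Lb.g g9 (@Lb.g g10 (@Lb.g g11 (@Lb.r r1543 (@Lb.r r1450 (@Lb.r r2088 (@Lb.r r2201 (@Lb.d (nat_lit 282) (nat_lit 40) (nat_lit 149) (@Lb.fm (nat_lit 9) t501)))))))))))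
noncomputable def l25011 : Lb := (@Lb.r r323 (@Lb.d (nat_lit 132) (nat_lit 512) (nat_lit 2) (@Lb.g g8 (@Lb.g g9 (@Lb.g g10 (@Lb.r r599 (@Lb.r r98 (@Lb.r r97 (@Lb.r r408 (@Lb.d (nat_lit 152) (nat_lit 24) (nat_lit 138) (@Lb.t (@Lb.fp (nat_lit 9) t51))))))))))))
noncomputable def l25012 : Lb := (@Lb.r r323 (@Lb.d (nat_lit 133) (nat_lit 0) (nat_lit 2) (@Lb.g g8 (@Lb.g g9 (@Lb.g g10 (@Lb.r r599 (@Lb.r r98 (@Lb.r r97 (@Lb.r r408 (@Lb.d (nat_lit 149) (nat_lit 26) (nat_lit 138) (@Lb.t (@Lb.fp (nat_lit 9) t51))))))))))))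
noncomputable def l25013 : Lb := (@Lb.d (nat_lit 262) (nat_lit 102) (nat_lit 294) (@Lb.r r2069 (@Lb.r r342 (@Lb.r r1707 (@Lb.g g6 (@Lb.g g5 (@Lb.g g4 (@Lb.d (nat_lit 8) (nat_lit 8) (nat_lit 0) (@Lb.t (@Lb.fm (nat_lit 9) t154))))))))))
noncomputable def l25014 : Lb := (@Lb.r r82 (@Lb.d (nat_lit 4) (nat_lit 256) (nat_lit 128) (@Lb.g g8 (@Lb.g g9 (@Lb.g g11 (@Lb.r r1571 (@Lb.r r1450 (@Lb.r r2088 (@Lb.r r1561 (@Lb.d (nat_lit 25) (nat_lit 40) (nat_lit 292) (@Lb.t (@Lb.fp (nat_lit 9) t2227))))))))))))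
noncomputable def l25015 : Lb := (@Lb.d (nat_lit 262) (nat_lit 678) (nat_lit 534) (@Lb.r r2069 (@Lb.r r2390 (@Lb.r r2731 (@Lb.g g6 (@Lb.g g5 (@Lb.g g4 (@Lb.d (nat_lit 8) (nat_lit 8) (nat_lit 2) (@Lb.t (@Lb.fm (nat_lit 9) t154))))))))))
noncomputable def l25016 : Lb := (@Lb.d (nat_lit 4) (nat_lit 0) (nat_lit 98) (@Lb.g g8 (@Lb.g g9 (@Lb.g g6 (@Lb.g g11 (@Lb.r r601 (@Lb.r r2323 (@Lb.r r2577 (@Lb.d (nat_lit 610) (nat_lit 129) (nat_lit 280) (@Lb.fm (nat_lit 9) t188))))))))))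
noncomputable def l25017 : Lb := (@Lb.d (nat_lit 0) (nat_lit 294) (nat_lit 64) (@Lb.g g8 (@Lb.g g9 (@Lb.g g10 (@Lb.g g11 (@Lb.r r387 (@Lb.r r1682 (@Lb.r r1561 (@Lb.r r24 (@Lb.d (nat_lit 514) (nat_lit 0) (nat_lit 401) (@Lb.fp (nat_lit 9) t2504)))))))))))
noncomputable def l25018 : Lb := (@Lb.d (nat_lit 0) (nat_lit 550) (nat_lit 64) (@Lb.g g8 (@Lb.g g9 (@Lb.g g10 (@Lb.g g11 (@Lb.r r387 (@Lb.r r1682 (@Lb.r r1561 (@Lb.r r24 (@Lb.d (nat_lit 513) (nat_lit 0) (nat_lit 401) (@Lb.fp (nat_lit 9) t3209)))))))))))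
noncomputable def l25019 : Lb := (@Lb.d (nat_lit 2) (nat_lit 614) (nat_lit 0) (@Lb.g g8 (@Lb.g g5 (@Lb.r r322 (@Lb.r r1667 (@Lb.r r578 (@Lb.r r24 (@Lb.d (nat_lit 5) (nat_lit 128) (nat_lit 388) (@Lb.fp (nat_lit 3) t1340)))))))))
noncomputable def l25020 : Lb := (@Lb.d (nat_lit 5) (nat_lit 297) (nat_lit 4) (@Lb.r r673 (@Lb.r r683 (@Lb.r r612 (@Lb.r r90 (@Lb.g g6 (@Lb.g g5 (@Lb.d (nat_lit 4) (nat_lit 1) (nat_lit 1) (@Lb.r r387 (@Lb.fm (nat_lit 3) t51))))))))))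
noncomputable def l25021 : Lb := (@Lb.d (nat_lit 0) (nat_lit 550) (nat_lit 64) (@Lb.g g8 (@Lb.g g9 (@Lb.g g10 (@Lb.g g11 (@Lb.r r387 (@Lb.r r1682 (@Lb.r r1561 (@Lb.r r24 (@Lb.d (nat_lit 521) (nat_lit 2) (nat_lit 401) (@Lb.fp (nat_lit 9) t2504)))))))))))
noncomputable def l25022 : Lb := (@Lb.d (nat_lit 292) (nat_lit 0) (nat_lit 16) (@Lb.r r24 (@Lb.r r2138 (@Lb.r r2331 (@Lb.g g9 (@Lb.t (@Lb.fm (nat_lit 3) t778)))))))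
noncomputable def l25023 : Lb := (@Lb.d (nat_lit 18) (nat_lit 401) (nat_lit 288) (@Lb.r r1572 (@Lb.r r2341 (@Lb.r r1682 (@Lb.r r2403 (@Lb.g g7 (@Lb.g g6 (@Lb.g g4 (@Lb.d (nat_lit 4) (nat_lit 0) (nat_lit 134) (@Lb.t (@Lb.fp (nat_lit 9) t3820)))))))))))
noncomputable def l25024 : Lb := (@Lb.d (nat_lit 100) (nat_lit 545) (nat_lit 4) (@Lb.g g8 (@Lb.g g9 (@Lb.g g10 (@Lb.g g11 (@Lb.r r675 (@Lb.r r610 (@Lb.r r1301 (@Lb.r r2340 (@Lb.d (nat_lit 296) (nat_lit 98) (nat_lit 577) (@Lb.fm (nat_lit 9) t4813)))))))))))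
noncomputable def l25025 : Lb := (@Lb.r r404 (@Lb.r r1625 (@Lb.r r275 (@Lb.r r326 (@Lb.r r132 (@Lb.d (nat_lit 1) (nat_lit 64) (nat_lit 576) (@Lb.fp (nat_lit 1) t2065)))))))
noncomputable def l25026 : Lb := (@Lb.r r323 (@Lb.d (nat_lit 38) (nat_lit 512) (nat_lit 2) (@Lb.g g8 (@Lb.g g9 (@Lb.g g10 (@Lb.r r1689 (@Lb.r r1563 (@Lb.r r2634 (@Lb.r r1540 (@Lb.d (nat_lit 258) (nat_lit 5) (nat_lit 402) (@Lb.t (@Lb.fp (nat_lit 9) t2805))))))))))))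
noncomputable def l25027 : Lb := (@Lb.d (nat_lit 38) (nat_lit 0) (nat_lit 130) (@Lb.g g8 (@Lb.g g9 (@Lb.g g10 (@Lb.g g11 (@Lb.r r1707 (@Lb.r r1410 (@Lb.r r2657 (@Lb.r r1560 (@Lb.d (nat_lit 73) (nat_lit 137) (nat_lit 533) (@Lb.fp (nat_lit 9) t2210)))))))))))
noncomputable def l25028 : Lb := (@Lb.d (nat_lit 97) (nat_lit 2) (nat_lit 130) (@Lb.g g8 (@Lb.g g9 (@Lb.g g10 (@Lb.g g11 (@Lb.r r2691 (@Lb.r r2665 (@Lb.r r1686 (@Lb.r r328 (@Lb.d (nat_lit 676) (nat_lit 17) (nat_lit 577) (@Lb.fp (nat_lit 9) t4814)))))))))))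
noncomputable def l25029 : Lb := (@Lb.r r70 (@Lb.d (nat_lit 0) (nat_lit 258) (nat_lit 128) (@Lb.g g8 (@Lb.g g9 (@Lb.g g11 (@Lb.r r2583 (@Lb.r r1602 (@Lb.r r1385 (@Lb.r r1364 (@Lb.d (nat_lit 337) (nat_lit 144) (nat_lit 26) (@Lb.t (@Lb.fm (nat_lit 9) t4815))))))))))))
noncomputable def l25030 : Lb := (@Lb.d (nat_lit 128) (nat_lit 0) (nat_lit 258) (@Lb.g g10 (@Lb.g g7 (@Lb.r r386 (@Lb.d (nat_lit 64) (nat_lit 0) (nat_lit 521) (@Lb.fm (nat_lit 3) t4816))))))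
noncomputable def l25031 : Lb := (@Lb.r r2311 (@Lb.r r2118 (@Lb.r r24 (@Lb.d (nat_lit 21) (nat_lit 649) (nat_lit 16) (@Lb.fm (nat_lit 1) t2749)))))
noncomputable def l25032 : Lb := (@Lb.d (nat_lit 0) (nat_lit 514) (nat_lit 2) (@Lb.g g9 (@Lb.g g10 (@Lb.r r1555 (@Lb.r r386 (@Lb.r r97 (@Lb.r r36 (@Lb.d (nat_lit 5) (nat_lit 90) (nat_lit 612) (@Lb.fp (nat_lit 3) t309)))))))))
noncomputable def l25033 : Lb := (@Lb.r r21 (@Lb.d (nat_lit 32) (nat_lit 256) (nat_lit 73) (@Lb.g g8 (@Lb.g g10 (@Lb.g g11 (@Lb.r r603 (@Lb.r r1689 (@Lb.r r1370 (@Lb.r r2580 (@Lb.d (nat_lit 338) (nat_lit 73) (nat_lit 258) (@Lb.t (@Lb.fp (nat_lit 9) t125))))))))))))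
noncomputable def l25034 : Lb := (@Lb.d (nat_lit 2) (nat_lit 2) (nat_lit 9) (@Lb.g g8 (@Lb.g g9 (@Lb.g g6 (@Lb.r r515 (@Lb.r r97 (@Lb.r r24 (@Lb.d (nat_lit 5) (nat_lit 6) (nat_lit 144) (@Lb.t (@Lb.fm (nat_lit 9) t40))))))))))
noncomputable def l25035 : Lb := (@Lb.r r21 (@Lb.d (nat_lit 17) (nat_lit 0) (nat_lit 74) (@Lb.g g8 (@Lb.g g10 (@Lb.g g11 (@Lb.r r603 (@Lb.r r2401 (@Lb.r r1170 (@Lb.r r1128 (@Lb.d (nat_lit 265) (nat_lit 9) (nat_lit 34) (@Lb.t (@Lb.fm (nat_lit 9) t125))))))))))))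
noncomputable def l25036 : Lb := (@Lb.d (nat_lit 0) (nat_lit 514) (nat_lit 130) (@Lb.g g8 (@Lb.g g9 (@Lb.g g10 (@Lb.g g11 (@Lb.r r2722 (@Lb.r r404 (@Lb.r r681 (@Lb.r r555 (@Lb.r r1060 (@Lb.d (nat_lit 2) (nat_lit 90) (nat_lit 585) (@Lb.fm (nat_lit 9) t1190))))))))))))
noncomputable def l25037 : Lb := (@Lb.r r2311 (@Lb.r r664 (@Lb.r r154 (@Lb.r r2133 (@Lb.r r164 (@Lb.d (nat_lit 608) (nat_lit 256) (nat_lit 544) (@Lb.fp (nat_lit 1) t386)))))))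
noncomputable def l25038 : Lb := (@Lb.d (nat_lit 100) (nat_lit 294) (nat_lit 70) (@Lb.r r408 (@Lb.r r330 (@Lb.r r343 (@Lb.g g5 (@Lb.g g4 (@Lb.d (nat_lit 17) (nat_lit 4) (nat_lit 0) (@Lb.r r291 (@Lb.r r98 (@Lb.fp (nat_lit 3) t50))))))))))
noncomputable def l25039 : Lb := (@Lb.d (nat_lit 32) (nat_lit 256) (nat_lit 2) (@Lb.g g10 (@Lb.r r289 (@Lb.r r2323 (@Lb.r r68 (@Lb.r r2122 (@Lb.r r2577 (@Lb.d (nat_lit 98) (nat_lit 0) (nat_lit 546) (@Lb.t (@Lb.fm (nat_lit 3) t716))))))))))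
noncomputable def l25040 : Lb := (@Lb.d (nat_lit 153) (nat_lit 536) (nat_lit 70) (@Lb.r r404 (@Lb.r r326 (@Lb.r r347 (@Lb.g g5 (@Lb.g g8 (@Lb.d (nat_lit 17) (nat_lit 4) (nat_lit 0) (@Lb.r r291 (@Lb.r r98 (@Lb.fp (nat_lit 3) t50))))))))))
noncomputable def l25041 : Lb := (@Lb.r r81 (@Lb.r r323 (@Lb.d (nat_lit 10) (nat_lit 512) (nat_lit 33) (@Lb.g g8 (@Lb.g g6 (@Lb.r r2347 (@Lb.r r149 (@Lb.r r1704 (@Lb.d (nat_lit 662) (nat_lit 22) (nat_lit 420) (@Lb.fm (nat_lit 3) t4411))))))))))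
noncomputable def l25042 : Lb := (@Lb.d (nat_lit 16) (nat_lit 521) (nat_lit 677) (@Lb.r r24 (@Lb.r r386 (@Lb.r r1563 (@Lb.g g6 (@Lb.g g9 (@Lb.d (nat_lit 8) (nat_lit 162) (nat_lit 1) (@Lb.r r291 (@Lb.fm (nat_lit 3) t1446)))))))))
noncomputable def l25043 : Lb := (@Lb.d (nat_lit 646) (nat_lit 277) (nat_lit 32) (@Lb.r r1301 (@Lb.r r2411 (@Lb.r r1666 (@Lb.g g7 (@Lb.g g6 (@Lb.g g5 (@Lb.g g4 (@Lb.d (nat_lit 8) (nat_lit 0) (nat_lit 133) (@Lb.fm (nat_lit 9) t918))))))))))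
noncomputable def l25044 : Lb := (@Lb.d (nat_lit 0) (nat_lit 10) (nat_lit 64) (@Lb.g g9 (@Lb.g g11 (@Lb.r r2450 (@Lb.r r2659 (@Lb.r r1633 (@Lb.r r36 (@Lb.d (nat_lit 5) (nat_lit 90) (nat_lit 514) (@Lb.fp (nat_lit 3) t578)))))))))
noncomputable def l25045 : Lb := (@Lb.r r82 (@Lb.r r275 (@Lb.d (nat_lit 0) (nat_lit 1) (nat_lit 0) (@Lb.g g8 (@Lb.g g5 (@Lb.r r2651 (@Lb.r r386 (@Lb.r r24 (@Lb.d (nat_lit 266) (nat_lit 0) (nat_lit 2) (@Lb.fm (nat_lit 3) t538))))))))))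
noncomputable def l25046 : Lb := (@Lb.r r20 (@Lb.d (nat_lit 0) (nat_lit 514) (nat_lit 128) (@Lb.g g9 (@Lb.g g11 (@Lb.r r1699 (@Lb.r r2178 (@Lb.r r2661 (@Lb.d (nat_lit 405) (nat_lit 25) (nat_lit 9) (@Lb.fp (nat_lit 3) t2105)))))))))
noncomputable def l25047 : Lb := (@Lb.r r263 (@Lb.d (nat_lit 36) (nat_lit 256) (nat_lit 1) (@Lb.g g8 (@Lb.g g9 (@Lb.g g10 (@Lb.r r1689 (@Lb.r r1563 (@Lb.r r1604 (@Lb.r r1098 (@Lb.d (nat_lit 337) (nat_lit 0) (nat_lit 169) (@Lb.t (@Lb.fp (nat_lit 9) t1039))))))))))))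
noncomputable def l25048 : Lb := (@Lb.r r275 (@Lb.d (nat_lit 2) (nat_lit 10) (nat_lit 1) (@Lb.g g8 (@Lb.g g9 (@Lb.g g10 (@Lb.r r2666 (@Lb.r r2635 (@Lb.r r2073 (@Lb.d (nat_lit 68) (nat_lit 97) (nat_lit 256) (@Lb.t (@Lb.fp (nat_lit 9) t928)))))))))))
noncomputable def l25049 : Lb := (@Lb.d (nat_lit 513) (nat_lit 89) (nat_lit 338) (@Lb.r r154 (@Lb.r r101 (@Lb.r r2452 (@Lb.r r1387 (@Lb.g g7 (@Lb.g g5 (@Lb.g g4 (@Lb.d (nat_lit 1) (nat_lit 0) (nat_lit 128) (@Lb.t (@Lb.fp (nat_lit 9) t1731)))))))))))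
noncomputable def l25050 : Lb := (@Lb.r r82 (@Lb.d (nat_lit 128) (nat_lit 258) (nat_lit 136) (@Lb.g g9 (@Lb.g g11 (@Lb.r r410 (@Lb.r r388 (@Lb.r r587 (@Lb.d (nat_lit 98) (nat_lit 65) (nat_lit 18) (@Lb.fm (nat_lit 3) t4778)))))))))
noncomputable def l25051 : Lb := (@Lb.d (nat_lit 8) (nat_lit 9) (nat_lit 129) (@Lb.g g9 (@Lb.g g10 (@Lb.g g11 (@Lb.r r614 (@Lb.r r596 (@Lb.r r343 (@Lb.r r553 (@Lb.d (nat_lit 72) (nat_lit 89) (nat_lit 22) (@Lb.t (@Lb.fp (nat_lit 9) t4778)))))))))))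
noncomputable def l25052 : Lb := (@Lb.d (nat_lit 32) (nat_lit 520) (nat_lit 66) (@Lb.g g10 (@Lb.g g11 (@Lb.r r2393 (@Lb.r r344 (@Lb.r r423 (@Lb.r r2406 (@Lb.d (nat_lit 602) (nat_lit 41) (nat_lit 661) (@Lb.fp (nat_lit 3) t322)))))))))
noncomputable def l25053 : Lb := (@Lb.d (nat_lit 34) (nat_lit 8) (nat_lit 0) (@Lb.g g8 (@Lb.g g9 (@Lb.r r2379 (@Lb.r r582 (@Lb.r r1432 (@Lb.r r1045 (@Lb.d (nat_lit 514) (nat_lit 24) (nat_lit 682) (@Lb.fp (nat_lit 3) t553)))))))))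
noncomputable def l25054 : Lb := (@Lb.g g8 (@Lb.g g5 (@Lb.d (nat_lit 5) (nat_lit 513) (nat_lit 0) (@Lb.fp (nat_lit 3) t2))))
noncomputable def l25055 : Lb := (@Lb.d (nat_lit 2) (nat_lit 521) (nat_lit 73) (@Lb.g g8 (@Lb.g g9 (@Lb.g g10 (@Lb.g g11 (@Lb.r r643 (@Lb.r r297 (@Lb.r r360 (@Lb.r r582 (@Lb.r r132 (@Lb.d (nat_lit 129) (nat_lit 5) (nat_lit 6) (@Lb.fm (nat_lit 9) t355))))))))))))
noncomputable def l25056 : Lb := (@Lb.d (nat_lit 2) (nat_lit 256) (nat_lit 128) (@Lb.g g8 (@Lb.g g11 (@Lb.r r2407 (@Lb.r r2178 (@Lb.r r2644 (@Lb.r r2201 (@Lb.d (nat_lit 260) (nat_lit 164) (nat_lit 673) (@Lb.fp (nat_lit 3) t1743)))))))))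
noncomputable def l25057 : Lb := (@Lb.d (nat_lit 134) (nat_lit 513) (nat_lit 614) (@Lb.r r2632 (@Lb.r r81 (@Lb.r r2635 (@Lb.g g7 (@Lb.g g10 (@Lb.g g4 (@Lb.d (nat_lit 1) (nat_lit 0) (nat_lit 81) (@Lb.r r25 (@Lb.t (@Lb.fm (nat_lit 9) t4066)))))))))))
noncomputable def l25058 : Lb := (@Lb.d (nat_lit 2) (nat_lit 0) (nat_lit 128) (@Lb.g g8 (@Lb.g g11 (@Lb.r r644 (@Lb.r r1287 (@Lb.r r2178 (@Lb.r r2081 (@Lb.r r2564 (@Lb.d (nat_lit 4) (nat_lit 6) (nat_lit 138) (@Lb.fm (nat_lit 3) t4817))))))))))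
noncomputable def l25059 : Lb := (@Lb.d (nat_lit 134) (nat_lit 261) (nat_lit 128) (@Lb.g g8 (@Lb.g g9 (@Lb.g g10 (@Lb.g g11 (@Lb.r r2459 (@Lb.r r1177 (@Lb.r r1626 (@Lb.r r1624 (@Lb.d (nat_lit 106) (nat_lit 160) (nat_lit 649) (@Lb.fm (nat_lit 9) t4818)))))))))))
noncomputable def l25060 : Lb := (@Lb.r r331 (@Lb.d (nat_lit 165) (nat_lit 512) (nat_lit 2) (@Lb.g g8 (@Lb.g g9 (@Lb.g g10 (@Lb.r r345 (@Lb.r r359 (@Lb.r r536 (@Lb.d (nat_lit 65) (nat_lit 42) (nat_lit 128) (@Lb.t (@Lb.fp (nat_lit 9) t238)))))))))))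
noncomputable def l25061 : Lb := (@Lb.r r331 (@Lb.d (nat_lit 165) (nat_lit 256) (nat_lit 2) (@Lb.g g8 (@Lb.g g9 (@Lb.g g10 (@Lb.r r345 (@Lb.r r359 (@Lb.r r536 (@Lb.d (nat_lit 74) (nat_lit 170) (nat_lit 128) (@Lb.t (@Lb.fp (nat_lit 9) t1250)))))))))))
noncomputable def l25062 : Lb := (@Lb.d (nat_lit 133) (nat_lit 0) (nat_lit 130) (@Lb.g g8 (@Lb.g g9 (@Lb.g g10 (@Lb.g g11 (@Lb.r r2727 (@Lb.r r280 (@Lb.r r2405 (@Lb.r r1178 (@Lb.r r1156 (@Lb.d (nat_lit 362) (nat_lit 130) (nat_lit 402) (@Lb.fp (nat_lit 9) t2742))))))))))))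
noncomputable def l25063 : Lb := (@Lb.d (nat_lit 133) (nat_lit 256) (nat_lit 130) (@Lb.g g8 (@Lb.g g9 (@Lb.g g10 (@Lb.g g11 (@Lb.r r1639 (@Lb.r r344 (@Lb.r r357 (@Lb.r r154 (@Lb.r r132 (@Lb.d (nat_lit 640) (nat_lit 104) (nat_lit 130) (@Lb.fp (nat_lit 9) t2742))))))))))))
noncomputable def l25064 : Lb := (@Lb.d (nat_lit 5) (nat_lit 1) (nat_lit 512) (@Lb.r r326 (@Lb.r r1675 (@Lb.r r676 (@Lb.r r341 (@Lb.r r674 (@Lb.g g4 (@Lb.t (@Lb.fm (nat_lit 3) t40)))))))))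
noncomputable def l25065 : Lb := (@Lb.d (nat_lit 134) (nat_lit 256) (nat_lit 130) (@Lb.g g8 (@Lb.g g9 (@Lb.g g10 (@Lb.g g11 (@Lb.r r2459 (@Lb.r r1177 (@Lb.r r1626 (@Lb.r r1604 (@Lb.d (nat_lit 152) (nat_lit 137) (nat_lit 649) (@Lb.fp (nat_lit 9) t1152)))))))))))
noncomputable def l25066 : Lb := (@Lb.d (nat_lit 134) (nat_lit 0) (nat_lit 130) (@Lb.g g8 (@Lb.g g9 (@Lb.g g10 (@Lb.g g11 (@Lb.r r2459 (@Lb.r r1177 (@Lb.r r1626 (@Lb.r r1604 (@Lb.d (nat_lit 152) (nat_lit 130) (nat_lit 650) (@Lb.fp (nat_lit 9) t2742)))))))))))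
noncomputable def l25067 : Lb := (@Lb.d (nat_lit 4) (nat_lit 17) (nat_lit 2) (@Lb.g g8 (@Lb.g g9 (@Lb.g g10 (@Lb.g g11 (@Lb.r r2595 (@Lb.r r386 (@Lb.r r1173 (@Lb.r r1096 (@Lb.d (nat_lit 297) (nat_lit 18) (nat_lit 585) (@Lb.fm (nat_lit 9) t4819)))))))))))
noncomputable def l25068 : Lb := (@Lb.d (nat_lit 2) (nat_lit 514) (nat_lit 128) (@Lb.g g8 (@Lb.g g9 (@Lb.g g11 (@Lb.r r664 (@Lb.r r2341 (@Lb.r r1563 (@Lb.r r2178 (@Lb.r r1540 (@Lb.d (nat_lit 554) (nat_lit 73) (nat_lit 529) (@Lb.t (@Lb.fm (nat_lit 9) t772))))))))))))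
noncomputable def l25069 : Lb := (@Lb.r r21 (@Lb.r r70 (@Lb.d (nat_lit 0) (nat_lit 512) (nat_lit 128) (@Lb.g g8 (@Lb.g g11 (@Lb.r r583 (@Lb.r r650 (@Lb.r r601 (@Lb.r r580 (@Lb.d (nat_lit 0) (nat_lit 0) (nat_lit 132) (@Lb.fm (nat_lit 3) t168)))))))))))
noncomputable def l25070 : Lb := (@Lb.r r21 (@Lb.r r70 (@Lb.d (nat_lit 656) (nat_lit 288) (nat_lit 64) (@Lb.g g4 (@Lb.g g11 (@Lb.r r345 (@Lb.r r1315 (@Lb.r r2182 (@Lb.d (nat_lit 1) (nat_lit 96) (nat_lit 418) (@Lb.fm (nat_lit 3) t125))))))))))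
noncomputable def l25071 : Lb := (@Lb.d (nat_lit 133) (nat_lit 0) (nat_lit 256) (@Lb.r r24 (@Lb.r r1319 (@Lb.g g9 (@Lb.t (@Lb.fm (nat_lit 3) t3910))))))
noncomputable def l25072 : Lb := (@Lb.d (nat_lit 128) (nat_lit 258) (nat_lit 256) (@Lb.r r24 (@Lb.r r1319 (@Lb.g g9 (@Lb.d (nat_lit 8) (nat_lit 2) (nat_lit 0) (@Lb.t (@Lb.fm (nat_lit 3) t650)))))))
noncomputable def l25073 : Lb := (@Lb.d (nat_lit 0) (nat_lit 2) (nat_lit 130) (@Lb.g g8 (@Lb.g g9 (@Lb.g g10 (@Lb.g g11 (@Lb.r r427 (@Lb.r r145 (@Lb.r r356 (@Lb.r r154 (@Lb.r r132 (@Lb.d (nat_lit 282) (nat_lit 9) (nat_lit 169) (@Lb.fm (nat_lit 9) t61))))))))))))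
noncomputable def l25074 : Lb := (@Lb.d (nat_lit 0) (nat_lit 514) (nat_lit 130) (@Lb.g g8 (@Lb.g g9 (@Lb.g g10 (@Lb.g g11 (@Lb.r r427 (@Lb.r r145 (@Lb.r r356 (@Lb.r r154 (@Lb.r r132 (@Lb.d (nat_lit 282) (nat_lit 9) (nat_lit 34) (@Lb.fm (nat_lit 9) t61))))))))))))
noncomputable def l25075 : Lb := (@Lb.d (nat_lit 289) (nat_lit 10) (nat_lit 532) (@Lb.r r106 (@Lb.r r601 (@Lb.r r1371 (@Lb.r r328 (@Lb.g g7 (@Lb.g g6 (@Lb.g g5 (@Lb.d (nat_lit 16) (nat_lit 1) (nat_lit 128) (@Lb.t (@Lb.fm (nat_lit 9) t2)))))))))))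
noncomputable def l25076 : Lb := (@Lb.r r21 (@Lb.r r70 (@Lb.d (nat_lit 390) (nat_lit 256) (nat_lit 0) (@Lb.g g8 (@Lb.r r74 (@Lb.r r25 (@Lb.d (nat_lit 586) (nat_lit 0) (nat_lit 0) (@Lb.t (@Lb.fp (nat_lit 3) t1742)))))))))
noncomputable def l25077 : Lb := (@Lb.d (nat_lit 32) (nat_lit 265) (nat_lit 2) (@Lb.g g9 (@Lb.g g10 (@Lb.r r2324 (@Lb.r r363 (@Lb.r r1686 (@Lb.r r25 (@Lb.d (nat_lit 41) (nat_lit 100) (nat_lit 4) (@Lb.fp (nat_lit 3) t4820)))))))))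
noncomputable def l25078 : Lb := (@Lb.r r260 (@Lb.r r273 (@Lb.d (nat_lit 128) (nat_lit 16) (nat_lit 642) (@Lb.g g10 (@Lb.g g7 (@Lb.r r386 (@Lb.r r101 (@Lb.r r1048 (@Lb.d (nat_lit 356) (nat_lit 129) (nat_lit 601) (@Lb.fm (nat_lit 3) t865))))))))))
noncomputable def l25079 : Lb := (@Lb.g g8 (@Lb.g g5 (@Lb.r r24 (@Lb.d (nat_lit 330) (nat_lit 512) (nat_lit 576) (@Lb.fm (nat_lit 3) t716)))))
noncomputable def l25080 : Lb := (@Lb.d (nat_lit 0) (nat_lit 9) (nat_lit 65) (@Lb.g g8 (@Lb.g g9 (@Lb.g g10 (@Lb.g g7 (@Lb.r r2466 (@Lb.r r292 (@Lb.r r405 (@Lb.r r2084 (@Lb.d (nat_lit 608) (nat_lit 90) (nat_lit 345) (@Lb.fp (nat_lit 9) t2073)))))))))))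
noncomputable def l25081 : Lb := (@Lb.d (nat_lit 0) (nat_lit 265) (nat_lit 65) (@Lb.g g8 (@Lb.g g9 (@Lb.g g10 (@Lb.g g7 (@Lb.r r2466 (@Lb.r r292 (@Lb.r r405 (@Lb.r r2084 (@Lb.d (nat_lit 614) (nat_lit 88) (nat_lit 345) (@Lb.fp (nat_lit 9) t4821)))))))))))
noncomputable def l25082 : Lb := (@Lb.d (nat_lit 0) (nat_lit 16) (nat_lit 2) (@Lb.g g8 (@Lb.g g9 (@Lb.g g10 (@Lb.g g11 (@Lb.r r1303 (@Lb.r r386 (@Lb.r r1685 (@Lb.r r24 (@Lb.d (nat_lit 81) (nat_lit 149) (nat_lit 677) (@Lb.fp (nat_lit 9) t1388)))))))))))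
noncomputable def l25083 : Lb := (@Lb.d (nat_lit 646) (nat_lit 512) (nat_lit 0) (@Lb.r r21 (@Lb.g g4 (@Lb.d (nat_lit 329) (nat_lit 0) (nat_lit 0) (@Lb.r r25 (@Lb.t (@Lb.fm (nat_lit 3) t1332)))))))
noncomputable def l25084 : Lb := (@Lb.d (nat_lit 66) (nat_lit 521) (nat_lit 645) (@Lb.r r24 (@Lb.r r386 (@Lb.r r2587 (@Lb.g g7 (@Lb.g g6 (@Lb.g g9 (@Lb.d (nat_lit 8) (nat_lit 2) (nat_lit 65) (@Lb.t (@Lb.fp (nat_lit 9) t3612))))))))))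
noncomputable def l25085 : Lb := (@Lb.d (nat_lit 0) (nat_lit 8) (nat_lit 2) (@Lb.g g8 (@Lb.g g10 (@Lb.d (nat_lit 10) (nat_lit 1) (nat_lit 0) (@Lb.fm (nat_lit 3) t354)))))
noncomputable def l25086 : Lb := (@Lb.d (nat_lit 2) (nat_lit 514) (nat_lit 73) (@Lb.g g8 (@Lb.g g9 (@Lb.g g10 (@Lb.g g11 (@Lb.r r2666 (@Lb.r r579 (@Lb.r r104 (@Lb.r r25 (@Lb.d (nat_lit 170) (nat_lit 9) (nat_lit 324) (@Lb.fp (nat_lit 9) t61)))))))))))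
noncomputable def l25087 : Lb := (@Lb.r r21 (@Lb.d (nat_lit 2) (nat_lit 0) (nat_lit 73) (@Lb.g g8 (@Lb.g g10 (@Lb.g g11 (@Lb.r r2634 (@Lb.r r579 (@Lb.r r97 (@Lb.r r72 (@Lb.d (nat_lit 133) (nat_lit 1) (nat_lit 326) (@Lb.t (@Lb.fp (nat_lit 9) t61))))))))))))
noncomputable def l25088 : Lb := (@Lb.d (nat_lit 404) (nat_lit 584) (nat_lit 2) (@Lb.r r293 (@Lb.r r2470 (@Lb.r r275 (@Lb.g g7 (@Lb.g g5 (@Lb.g g4 (@Lb.d (nat_lit 272) (nat_lit 0) (nat_lit 64) (@Lb.r r106 (@Lb.t (@Lb.fp (nat_lit 9) t2056)))))))))))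
noncomputable def l25089 : Lb := (@Lb.d (nat_lit 2) (nat_lit 265) (nat_lit 72) (@Lb.g g8 (@Lb.g g9 (@Lb.g g10 (@Lb.g g11 (@Lb.r r1699 (@Lb.r r2216 (@Lb.r r2666 (@Lb.r r1553 (@Lb.d (nat_lit 277) (nat_lit 168) (nat_lit 584) (@Lb.fp (nat_lit 9) t299)))))))))))
noncomputable def l25090 : Lb := (@Lb.r r21 (@Lb.d (nat_lit 2) (nat_lit 512) (nat_lit 73) (@Lb.g g8 (@Lb.g g10 (@Lb.g g11 (@Lb.r r2634 (@Lb.r r579 (@Lb.r r97 (@Lb.r r72 (@Lb.d (nat_lit 134) (nat_lit 1) (nat_lit 326) (@Lb.t (@Lb.fp (nat_lit 9) t61))))))))))))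
noncomputable def l25091 : Lb := (@Lb.d (nat_lit 5) (nat_lit 388) (nat_lit 353) (@Lb.r r359 (@Lb.r r676 (@Lb.r r150 (@Lb.g g5 (@Lb.g g4 (@Lb.d (nat_lit 17) (nat_lit 65) (nat_lit 0) (@Lb.r r291 (@Lb.r r98 (@Lb.fp (nat_lit 3) t228))))))))))
noncomputable def l25092 : Lb := (@Lb.r r21 (@Lb.d (nat_lit 2) (nat_lit 0) (nat_lit 128) (@Lb.g g8 (@Lb.g g10 (@Lb.g g11 (@Lb.r r2715 (@Lb.r r2457 (@Lb.r r2138 (@Lb.r r2180 (@Lb.d (nat_lit 617) (nat_lit 10) (nat_lit 576) (@Lb.t (@Lb.fp (nat_lit 9) t228))))))))))))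
noncomputable def l25093 : Lb := (@Lb.r r89 (@Lb.r r166 (@Lb.r r340 (@Lb.r r683 (@Lb.r r657 (@Lb.r r36 Lb.e))))))
noncomputable def l25094 : Lb := (@Lb.d (nat_lit 0) (nat_lit 512) (nat_lit 2) (@Lb.g g10 (@Lb.r r260 (@Lb.r r523 (@Lb.r r161 (@Lb.r r98 (@Lb.r r516 (@Lb.d (nat_lit 0) (nat_lit 8) (nat_lit 1) (@Lb.t (@Lb.fp (nat_lit 3) t97))))))))))
noncomputable def l25095 : Lb := (@Lb.d (nat_lit 136) (nat_lit 1) (nat_lit 64) (@Lb.g g9 (@Lb.g g11 (@Lb.r r2644 (@Lb.r r2730 (@Lb.r r1451 (@Lb.r r2473 (@Lb.d (nat_lit 389) (nat_lit 32) (nat_lit 400) (@Lb.fm (nat_lit 3) t4822)))))))))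
noncomputable def l25096 : Lb := (@Lb.d (nat_lit 657) (nat_lit 266) (nat_lit 554) (@Lb.r r24 (@Lb.r r1114 (@Lb.r r2469 (@Lb.g g11 (@Lb.g g5 (@Lb.d (nat_lit 0) (nat_lit 1) (nat_lit 384) (@Lb.r r578 (@Lb.fp (nat_lit 3) t750)))))))))
noncomputable def l25097 : Lb := (@Lb.d (nat_lit 0) (nat_lit 521) (nat_lit 65) (@Lb.g g8 (@Lb.g g9 (@Lb.g g10 (@Lb.g g7 (@Lb.r r386 (@Lb.r r97 (@Lb.r r24 (@Lb.d (nat_lit 328) (nat_lit 9) (nat_lit 585) (@Lb.fp (nat_lit 9) t1333))))))))))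
noncomputable def l25098 : Lb := (@Lb.g g8 (@Lb.g g5 (@Lb.g g10 (@Lb.r r659 (@Lb.r r2401 (@Lb.r r2404 (@Lb.r r1178 (@Lb.d (nat_lit 585) (nat_lit 137) (nat_lit 18) (@Lb.t (@Lb.fm (nat_lit 9) t66))))))))))
noncomputable def l25099 : Lb := (@Lb.r r322 (@Lb.d (nat_lit 0) (nat_lit 289) (nat_lit 516) (@Lb.g g8 (@Lb.g g9 (@Lb.g g7 (@Lb.r r418 (@Lb.r r2088 (@Lb.r r2201 (@Lb.d (nat_lit 597) (nat_lit 133) (nat_lit 593) (@Lb.t (@Lb.fp (nat_lit 9) t4823)))))))))))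
noncomputable def l25100 : Lb := (@Lb.d (nat_lit 74) (nat_lit 545) (nat_lit 33) (@Lb.r r615 (@Lb.r r1621 (@Lb.r r2402 (@Lb.g g7 (@Lb.g g6 (@Lb.g g8 (@Lb.d (nat_lit 2) (nat_lit 16) (nat_lit 65) (@Lb.t (@Lb.fp (nat_lit 9) t1059))))))))))
noncomputable def l25101 : Lb := (@Lb.r r2311 (@Lb.r r2118 (@Lb.r r2069 (@Lb.r r36 (@Lb.d (nat_lit 549) (nat_lit 5) (nat_lit 16) (@Lb.fp (nat_lit 1) t4624))))))
noncomputable def l25102 : Lb := (@Lb.d (nat_lit 1) (nat_lit 512) (nat_lit 128) (@Lb.g g8 (@Lb.g g9 (@Lb.g g11 (@Lb.r r664 (@Lb.r r2341 (@Lb.r r539 (@Lb.r r2178 (@Lb.r r516 (@Lb.d (nat_lit 554) (nat_lit 73) (nat_lit 17) (@Lb.t (@Lb.fm (nat_lit 9) t772))))))))))))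
noncomputable def l25103 : Lb := (@Lb.r r21 (@Lb.r r263 (@Lb.g g8 (@Lb.g g10 (@Lb.r r1419 (@Lb.r r1177 (@Lb.r r1156 (@Lb.d (nat_lit 0) (nat_lit 0) (nat_lit 34) (@Lb.fm (nat_lit 3) t4824)))))))))
noncomputable def l25104 : Lb := (@Lb.d (nat_lit 36) (nat_lit 5) (nat_lit 130) (@Lb.g g8 (@Lb.g g9 (@Lb.g g10 (@Lb.g g11 (@Lb.r r1411 (@Lb.r r360 (@Lb.r r1369 (@Lb.r r2406 (@Lb.r r2180 (@Lb.d (nat_lit 325) (nat_lit 33) (nat_lit 418) (@Lb.fm (nat_lit 9) t207))))))))))))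
noncomputable def l25105 : Lb := (@Lb.r r263 (@Lb.d (nat_lit 164) (nat_lit 512) (nat_lit 2) (@Lb.g g8 (@Lb.g g9 (@Lb.g g10 (@Lb.r r1411 (@Lb.r r98 (@Lb.r r677 (@Lb.r r2456 (@Lb.d (nat_lit 406) (nat_lit 90) (nat_lit 666) (@Lb.t (@Lb.fm (nat_lit 9) t1891))))))))))))
noncomputable def l25106 : Lb := (@Lb.r r21 (@Lb.r r263 (@Lb.d (nat_lit 0) (nat_lit 256) (nat_lit 34) (@Lb.g g8 (@Lb.g g10 (@Lb.r r1419 (@Lb.r r1177 (@Lb.r r1156 (@Lb.d (nat_lit 2) (nat_lit 0) (nat_lit 34) (@Lb.fm (nat_lit 3) t4825))))))))))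
noncomputable def l25107 : Lb := (@Lb.d (nat_lit 134) (nat_lit 0) (nat_lit 130) (@Lb.g g8 (@Lb.g g9 (@Lb.g g10 (@Lb.g g11 (@Lb.r r2666 (@Lb.r r612 (@Lb.r r1319 (@Lb.r r1045 (@Lb.r r2084 (@Lb.d (nat_lit 9) (nat_lit 38) (nat_lit 550) (@Lb.fp (nat_lit 9) t495))))))))))))
noncomputable def l25108 : Lb := (@Lb.d (nat_lit 4) (nat_lit 257) (nat_lit 129) (@Lb.g g8 (@Lb.g g9 (@Lb.g g10 (@Lb.g g11 (@Lb.r r618 (@Lb.r r1643 (@Lb.r r1633 (@Lb.r r24 (@Lb.d (nat_lit 265) (nat_lit 153) (nat_lit 386) (@Lb.fm (nat_lit 9) t1741)))))))))))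
noncomputable def l25109 : Lb := (@Lb.d (nat_lit 2) (nat_lit 258) (nat_lit 2) (@Lb.g g8 (@Lb.g g9 (@Lb.g g10 (@Lb.r r2729 (@Lb.r r2475 (@Lb.r r2468 (@Lb.r r2438 (@Lb.d (nat_lit 400) (nat_lit 10) (nat_lit 329) (@Lb.t (@Lb.fm (nat_lit 9) t590)))))))))))
noncomputable def l25110 : Lb := (@Lb.d (nat_lit 21) (nat_lit 0) (nat_lit 0) (@Lb.g g8 (@Lb.g g9 (@Lb.g g10 (@Lb.r r2729 (@Lb.r r2411 (@Lb.r r1410 (@Lb.r r676 (@Lb.d (nat_lit 281) (nat_lit 22) (nat_lit 661) (@Lb.t (@Lb.fm (nat_lit 9) t1481)))))))))))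
noncomputable def l25111 : Lb := (@Lb.d (nat_lit 0) (nat_lit 516) (nat_lit 105) (@Lb.g g9 (@Lb.g g6 (@Lb.g g11 (@Lb.r r579 (@Lb.r r1313 (@Lb.d (nat_lit 5) (nat_lit 162) (nat_lit 154) (@Lb.t (@Lb.fp (nat_lit 9) t901)))))))))
noncomputable def l25112 : Lb := (@Lb.r r322 (@Lb.d (nat_lit 36) (nat_lit 4) (nat_lit 8) (@Lb.g g8 (@Lb.g g9 (@Lb.g g11 (@Lb.r r1430 (@Lb.r r2664 (@Lb.d (nat_lit 361) (nat_lit 90) (nat_lit 682) (@Lb.t (@Lb.fm (nat_lit 9) t4187))))))))))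
noncomputable def l25113 : Lb := (@Lb.d (nat_lit 6) (nat_lit 2) (nat_lit 581) (@Lb.r r2311 (@Lb.r r1608 (@Lb.r r2198 (@Lb.g g7 (@Lb.g g5 (@Lb.g g4 (@Lb.d (nat_lit 8) (nat_lit 148) (nat_lit 64) (@Lb.r r610 (@Lb.t (@Lb.fp (nat_lit 9) t1698)))))))))))
noncomputable def l25114 : Lb := (@Lb.d (nat_lit 146) (nat_lit 514) (nat_lit 128) (@Lb.g g8 (@Lb.g g9 (@Lb.g g10 (@Lb.g g11 (@Lb.r r683 (@Lb.r r2724 (@Lb.r r134 (@Lb.r r97 (@Lb.d (nat_lit 545) (nat_lit 164) (nat_lit 384) (@Lb.fm (nat_lit 9) t1173)))))))))))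
noncomputable def l25115 : Lb := (@Lb.d (nat_lit 32) (nat_lit 2) (nat_lit 0) (@Lb.g g9 (@Lb.g g10 (@Lb.r r2324 (@Lb.r r363 (@Lb.r r1686 (@Lb.r r25 (@Lb.d (nat_lit 41) (nat_lit 100) (nat_lit 4) (@Lb.fp (nat_lit 3) t40)))))))))
noncomputable def l25116 : Lb := (@Lb.d (nat_lit 32) (nat_lit 512) (nat_lit 10) (@Lb.g g6 (@Lb.r r2443 (@Lb.r r1444 (@Lb.r r2645 (@Lb.r r1442 (@Lb.d (nat_lit 5) (nat_lit 80) (nat_lit 166) (@Lb.t (@Lb.fp (nat_lit 3) t40)))))))))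
noncomputable def l25117 : Lb := (@Lb.r r81 (@Lb.r r323 (@Lb.d (nat_lit 8) (nat_lit 256) (nat_lit 33) (@Lb.g g8 (@Lb.g g6 (@Lb.r r2347 (@Lb.r r149 (@Lb.r r1704 (@Lb.d (nat_lit 100) (nat_lit 22) (nat_lit 537) (@Lb.fm (nat_lit 3) t1006))))))))))
noncomputable def l25118 : Lb := (@Lb.d (nat_lit 146) (nat_lit 2) (nat_lit 128) (@Lb.g g8 (@Lb.g g9 (@Lb.g g10 (@Lb.g g11 (@Lb.r r2467 (@Lb.r r344 (@Lb.r r2453 (@Lb.r r2134 (@Lb.r r164 (@Lb.d (nat_lit 545) (nat_lit 169) (nat_lit 360) (@Lb.fm (nat_lit 9) t1386))))))))))))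
noncomputable def l25119 : Lb := (@Lb.d (nat_lit 86) (nat_lit 537) (nat_lit 73) (@Lb.r r614 (@Lb.r r660 (@Lb.r r345 (@Lb.g g7 (@Lb.g g6 (@Lb.g g5 (@Lb.d (nat_lit 16) (nat_lit 8) (nat_lit 130) (@Lb.t (@Lb.fp (nat_lit 9) t98))))))))))
noncomputable def l25120 : Lb := (@Lb.d (nat_lit 10) (nat_lit 512) (nat_lit 2) (@Lb.g g8 (@Lb.g g10 (@Lb.g g7 (@Lb.r r386 (@Lb.r r149 (@Lb.r r168 (@Lb.d (nat_lit 338) (nat_lit 5) (nat_lit 521) (@Lb.t (@Lb.fp (nat_lit 9) t1150))))))))))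
noncomputable def l25121 : Lb := (@Lb.d (nat_lit 6) (nat_lit 38) (nat_lit 534) (@Lb.r r21 (@Lb.r r342 (@Lb.r r1707 (@Lb.g g6 (@Lb.g g5 (@Lb.g g4 (@Lb.d (nat_lit 1) (nat_lit 8) (nat_lit 2) (@Lb.t (@Lb.fm (nat_lit 9) t40))))))))))
noncomputable def l25122 : Lb := (@Lb.d (nat_lit 648) (nat_lit 593) (nat_lit 0) (@Lb.r r1362 (@Lb.r r531 (@Lb.r r2337 (@Lb.g g7 (@Lb.g g4 (@Lb.d (nat_lit 8) (nat_lit 16) (nat_lit 128) (@Lb.fm (nat_lit 3) t4027))))))))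
noncomputable def l25123 : Lb := (@Lb.d (nat_lit 129) (nat_lit 2) (nat_lit 4) (@Lb.g g8 (@Lb.g g9 (@Lb.g g10 (@Lb.g g11 (@Lb.r r683 (@Lb.r r618 (@Lb.r r1572 (@Lb.r r37 (@Lb.d (nat_lit 297) (nat_lit 97) (nat_lit 673) (@Lb.fp (nat_lit 9) t1033)))))))))))
noncomputable def l25124 : Lb := (@Lb.g g5 (@Lb.r r1319 (@Lb.r r1126 (@Lb.r r24 (@Lb.d (nat_lit 536) (nat_lit 256) (nat_lit 32) (@Lb.t (@Lb.fp (nat_lit 3) t396)))))))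
noncomputable def l25125 : Lb := (@Lb.d (nat_lit 136) (nat_lit 256) (nat_lit 128) (@Lb.g g9 (@Lb.g g11 (@Lb.r r260 (@Lb.r r539 (@Lb.r r1297 (@Lb.d (nat_lit 538) (nat_lit 145) (nat_lit 288) (@Lb.fp (nat_lit 3) t4826))))))))
noncomputable def l25126 : Lb := (@Lb.d (nat_lit 8) (nat_lit 512) (nat_lit 130) (@Lb.g g9 (@Lb.g g10 (@Lb.g g11 (@Lb.r r423 (@Lb.r r600 (@Lb.r r662 (@Lb.r r2393 (@Lb.d (nat_lit 362) (nat_lit 37) (nat_lit 294) (@Lb.t (@Lb.fm (nat_lit 9) t1121)))))))))))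
noncomputable def l25127 : Lb := (@Lb.d (nat_lit 4) (nat_lit 522) (nat_lit 72) (@Lb.g g8 (@Lb.g g9 (@Lb.g g10 (@Lb.g g11 (@Lb.r r1559 (@Lb.r r1434 (@Lb.r r292 (@Lb.r r405 (@Lb.r r2084 (@Lb.d (nat_lit 617) (nat_lit 96) (nat_lit 346) (@Lb.fp (nat_lit 9) t2301))))))))))))
noncomputable def l25128 : Lb := (@Lb.r r323 (@Lb.d (nat_lit 8) (nat_lit 258) (nat_lit 2) (@Lb.g g9 (@Lb.g g10 (@Lb.r r102 (@Lb.r r404 (@Lb.r r1371 (@Lb.r r2705 (@Lb.d (nat_lit 0) (nat_lit 97) (nat_lit 296) (@Lb.fm (nat_lit 3) t71))))))))))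
noncomputable def l25129 : Lb := (@Lb.d (nat_lit 6) (nat_lit 641) (nat_lit 320) (@Lb.r r1313 (@Lb.r r2327 (@Lb.r r660 (@Lb.r r662 (@Lb.g g7 (@Lb.g g6 (@Lb.g g5 (@Lb.d (nat_lit 0) (nat_lit 8) (nat_lit 64) (@Lb.t (@Lb.fp (nat_lit 9) t789)))))))))))
noncomputable def l25130 : Lb := (@Lb.d (nat_lit 2) (nat_lit 8) (nat_lit 130) (@Lb.g g8 (@Lb.g g9 (@Lb.g g10 (@Lb.g g11 (@Lb.r r2646 (@Lb.r r420 (@Lb.r r283 (@Lb.r r2585 (@Lb.r r1044 (@Lb.d (nat_lit 358) (nat_lit 4) (nat_lit 602) (@Lb.fp (nat_lit 9) t1461))))))))))))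
noncomputable def l25131 : Lb := (@Lb.d (nat_lit 408) (nat_lit 2) (nat_lit 66) (@Lb.g g4 (@Lb.g g9 (@Lb.g g10 (@Lb.g g11 (@Lb.r r2579 (@Lb.r r1442 (@Lb.d (nat_lit 1) (nat_lit 148) (nat_lit 617) (@Lb.fm (nat_lit 9) t828)))))))))
noncomputable def l25132 : Lb := (@Lb.d (nat_lit 408) (nat_lit 2) (nat_lit 0) (@Lb.g g4 (@Lb.g g9 (@Lb.d (nat_lit 1) (nat_lit 90) (nat_lit 528) (@Lb.fp (nat_lit 3) t1737)))))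
noncomputable def l25133 : Lb := (@Lb.r r331 (@Lb.d (nat_lit 32) (nat_lit 260) (nat_lit 0) (@Lb.g g8 (@Lb.g g9 (@Lb.g g10 (@Lb.r r664 (@Lb.r r299 (@Lb.r r2209 (@Lb.r r166 (@Lb.d (nat_lit 601) (nat_lit 149) (nat_lit 641) (@Lb.t (@Lb.fp (nat_lit 9) t4827))))))))))))
noncomputable def l25134 : Lb := (@Lb.d (nat_lit 65) (nat_lit 646) (nat_lit 545) (@Lb.r r1544 (@Lb.r r2178 (@Lb.r r1451 (@Lb.g g5 (@Lb.g g4 (@Lb.d (nat_lit 65) (nat_lit 25) (nat_lit 0) (@Lb.fm (nat_lit 3) t4828))))))))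
noncomputable def l25135 : Lb := (@Lb.d (nat_lit 65) (nat_lit 390) (nat_lit 545) (@Lb.r r1544 (@Lb.r r2178 (@Lb.r r1451 (@Lb.g g5 (@Lb.g g4 (@Lb.d (nat_lit 70) (nat_lit 26) (nat_lit 0) (@Lb.fm (nat_lit 3) t4829))))))))
noncomputable def l25136 : Lb := (@Lb.r r355 (@Lb.d (nat_lit 9) (nat_lit 256) (nat_lit 2) (@Lb.g g8 (@Lb.g g9 (@Lb.g g10 (@Lb.r r2475 (@Lb.r r1690 (@Lb.r r1361 (@Lb.r r24 (@Lb.d (nat_lit 330) (nat_lit 2) (nat_lit 426) (@Lb.t (@Lb.fm (nat_lit 9) t1108))))))))))))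
noncomputable def l25137 : Lb := (@Lb.r r323 (@Lb.d (nat_lit 129) (nat_lit 260) (nat_lit 22) (@Lb.g g8 (@Lb.g g10 (@Lb.r r599 (@Lb.r r297 (@Lb.r r1384 (@Lb.d (nat_lit 408) (nat_lit 166) (nat_lit 408) (@Lb.fp (nat_lit 3) t4830)))))))))
noncomputable def l25138 : Lb := (@Lb.r r356 (@Lb.r r2667 (@Lb.r r2178 (@Lb.r r2081 (@Lb.r r516 (@Lb.d (nat_lit 280) (nat_lit 149) (nat_lit 297) (@Lb.fm (nat_lit 1) t4831)))))))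
noncomputable def l25139 : Lb := (@Lb.d (nat_lit 6) (nat_lit 576) (nat_lit 0) (@Lb.g g9 (@Lb.t (@Lb.fp (nat_lit 3) t2))))
noncomputable def l25140 : Lb := (@Lb.d (nat_lit 96) (nat_lit 105) (nat_lit 582) (@Lb.r r597 (@Lb.r r296 (@Lb.r r418 (@Lb.g g11 (@Lb.g g6 (@Lb.g g5 (@Lb.g g4 (@Lb.d (nat_lit 1) (nat_lit 20) (nat_lit 258) (@Lb.fm (nat_lit 9) t825))))))))))
noncomputable def l25141 : Lb := (@Lb.d (nat_lit 513) (nat_lit 578) (nat_lit 0) (@Lb.r r20 (@Lb.r r2073 (@Lb.g g8 (@Lb.t (@Lb.fp (nat_lit 3) t2))))))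
noncomputable def l25142 : Lb := (@Lb.d (nat_lit 609) (nat_lit 342) (nat_lit 538) (@Lb.r r1384 (@Lb.r r297 (@Lb.r r418 (@Lb.g g11 (@Lb.g g5 (@Lb.g g4 (@Lb.d (nat_lit 17) (nat_lit 18) (nat_lit 264) (@Lb.r r578 (@Lb.t (@Lb.fp (nat_lit 9) t495)))))))))))
noncomputable def l25143 : Lb := (@Lb.d (nat_lit 148) (nat_lit 320) (nat_lit 74) (@Lb.g g8 (@Lb.g g9 (@Lb.g g10 (@Lb.g g11 (@Lb.r r387 (@Lb.r r1636 (@Lb.r r74 (@Lb.d (nat_lit 640) (nat_lit 153) (nat_lit 594) (@Lb.fp (nat_lit 9) t3197))))))))))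
noncomputable def l25144 : Lb := (@Lb.d (nat_lit 6) (nat_lit 256) (nat_lit 0) (@Lb.g g4 (@Lb.r r2311 (@Lb.d (nat_lit 261) (nat_lit 65) (nat_lit 64) (@Lb.t (@Lb.fm (nat_lit 3) t1165))))))
noncomputable def l25145 : Lb := (@Lb.d (nat_lit 2) (nat_lit 258) (nat_lit 2) (@Lb.g g8 (@Lb.g g9 (@Lb.g g10 (@Lb.g g11 (@Lb.r r2666 (@Lb.r r2664 (@Lb.r r2585 (@Lb.r r2651 (@Lb.d (nat_lit 354) (nat_lit 64) (nat_lit 68) (@Lb.fp (nat_lit 9) t4085)))))))))))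
noncomputable def l25146 : Lb := (@Lb.d (nat_lit 160) (nat_lit 512) (nat_lit 146) (@Lb.g g9 (@Lb.g g10 (@Lb.g g11 (@Lb.r r260 (@Lb.r r603 (@Lb.r r1317 (@Lb.d (nat_lit 586) (nat_lit 74) (nat_lit 529) (@Lb.t (@Lb.fm (nat_lit 9) t4832))))))))))
noncomputable def l25147 : Lb := (@Lb.r r323 (@Lb.d (nat_lit 2) (nat_lit 521) (nat_lit 1) (@Lb.g g8 (@Lb.g g9 (@Lb.g g10 (@Lb.r r1194 (@Lb.r r2600 (@Lb.r r2667 (@Lb.r r2585 (@Lb.d (nat_lit 384) (nat_lit 96) (nat_lit 90) (@Lb.t (@Lb.fp (nat_lit 9) t3049))))))))))))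
noncomputable def l25148 : Lb := (@Lb.d (nat_lit 8) (nat_lit 2) (nat_lit 130) (@Lb.g g9 (@Lb.g g10 (@Lb.g g11 (@Lb.r r586 (@Lb.r r584 (@Lb.r r299 (@Lb.r r289 (@Lb.d (nat_lit 2) (nat_lit 138) (nat_lit 137) (@Lb.t (@Lb.fm (nat_lit 9) t51)))))))))))
noncomputable def l25149 : Lb := (@Lb.d (nat_lit 617) (nat_lit 297) (nat_lit 594) (@Lb.r r82 (@Lb.r r421 (@Lb.r r24 (@Lb.g g11 (@Lb.g g6 (@Lb.d (nat_lit 0) (nat_lit 32) (nat_lit 262) (@Lb.fp (nat_lit 3) t1042))))))))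
noncomputable def l25150 : Lb := (@Lb.d (nat_lit 673) (nat_lit 617) (nat_lit 610) (@Lb.r r1096 (@Lb.r r1681 (@Lb.r r599 (@Lb.g g6 (@Lb.g g5 (@Lb.d (nat_lit 16) (nat_lit 18) (nat_lit 33) (@Lb.fm (nat_lit 3) t1201))))))))
noncomputable def l25151 : Lb := (@Lb.d (nat_lit 1) (nat_lit 662) (nat_lit 320) (@Lb.r r2308 (@Lb.r r97 (@Lb.r r1291 (@Lb.r r404 (@Lb.g g7 (@Lb.g g10 (@Lb.g g5 (@Lb.g g4 (@Lb.d (nat_lit 1) (nat_lit 1) (nat_lit 81) (@Lb.fp (nat_lit 9) t1018)))))))))))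
noncomputable def l25152 : Lb := (@Lb.d (nat_lit 2) (nat_lit 546) (nat_lit 2) (@Lb.g g8 (@Lb.g g9 (@Lb.g g10 (@Lb.r r1194 (@Lb.r r2468 (@Lb.r r1307 (@Lb.r r1573 (@Lb.d (nat_lit 384) (nat_lit 144) (nat_lit 586) (@Lb.t (@Lb.fm (nat_lit 9) t284)))))))))))
noncomputable def l25153 : Lb := (@Lb.d (nat_lit 0) (nat_lit 657) (nat_lit 425) (@Lb.r r2403 (@Lb.g g6 (@Lb.d (nat_lit 0) (nat_lit 8) (nat_lit 9) (@Lb.t (@Lb.fm (nat_lit 3) t295))))))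
noncomputable def l25154 : Lb := (@Lb.d (nat_lit 0) (nat_lit 10) (nat_lit 0) (@Lb.g g8 (@Lb.g g5 (@Lb.r r339 (@Lb.r r2658 (@Lb.r r609 (@Lb.d (nat_lit 0) (nat_lit 37) (nat_lit 665) (@Lb.fm (nat_lit 3) t386))))))))
noncomputable def l25155 : Lb := (@Lb.d (nat_lit 0) (nat_lit 10) (nat_lit 72) (@Lb.g g9 (@Lb.g g11 (@Lb.r r2370 (@Lb.r r1427 (@Lb.r r2577 (@Lb.d (nat_lit 320) (nat_lit 162) (nat_lit 418) (@Lb.fm (nat_lit 3) t322))))))))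
noncomputable def l25156 : Lb := (@Lb.d (nat_lit 1) (nat_lit 2) (nat_lit 0) (@Lb.g g8 (@Lb.g g9 (@Lb.r r40 (@Lb.r r2089 (@Lb.r r2084 (@Lb.d (nat_lit 257) (nat_lit 66) (nat_lit 0) (@Lb.fm (nat_lit 3) t2))))))))
noncomputable def l25157 : Lb := (@Lb.d (nat_lit 0) (nat_lit 10) (nat_lit 0) (@Lb.g g5 (@Lb.r r339 (@Lb.r r2658 (@Lb.r r609 (@Lb.d (nat_lit 0) (nat_lit 37) (nat_lit 665) (@Lb.t (@Lb.fp (nat_lit 3) t386))))))))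
noncomputable def l25158 : Lb := (@Lb.d (nat_lit 0) (nat_lit 258) (nat_lit 74) (@Lb.g g9 (@Lb.g g10 (@Lb.g g11 (@Lb.r r1671 (@Lb.r r1685 (@Lb.r r2404 (@Lb.r r1178 (@Lb.d (nat_lit 22) (nat_lit 73) (nat_lit 18) (@Lb.t (@Lb.fm (nat_lit 9) t646)))))))))))
noncomputable def l25159 : Lb := (@Lb.r r323 (@Lb.d (nat_lit 2) (nat_lit 32) (nat_lit 2) (@Lb.g g8 (@Lb.g g9 (@Lb.g g10 (@Lb.r r2647 (@Lb.r r74 (@Lb.r r1313 (@Lb.d (nat_lit 550) (nat_lit 170) (nat_lit 38) (@Lb.t (@Lb.fm (nat_lit 9) t221)))))))))))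
noncomputable def l25160 : Lb := (@Lb.d (nat_lit 0) (nat_lit 514) (nat_lit 128) (@Lb.g g9 (@Lb.g g10 (@Lb.g g11 (@Lb.r r1671 (@Lb.r r1685 (@Lb.r r2404 (@Lb.r r1178 (@Lb.d (nat_lit 24) (nat_lit 74) (nat_lit 18) (@Lb.t (@Lb.fm (nat_lit 9) t646)))))))))))
noncomputable def l25161 : Lb := (@Lb.d (nat_lit 8) (nat_lit 528) (nat_lit 2) (@Lb.g g8 (@Lb.g g9 (@Lb.g g10 (@Lb.g g11 (@Lb.r r1450 (@Lb.r r2647 (@Lb.r r341 (@Lb.r r24 (@Lb.d (nat_lit 417) (nat_lit 41) (nat_lit 70) (@Lb.fm (nat_lit 9) t1138)))))))))))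
noncomputable def l25162 : Lb := (@Lb.r r323 (@Lb.d (nat_lit 128) (nat_lit 1) (nat_lit 0) (@Lb.g g8 (@Lb.g g9 (@Lb.g g10 (@Lb.r r1299 (@Lb.r r1573 (@Lb.r r408 (@Lb.r r2122 (@Lb.d (nat_lit 514) (nat_lit 24) (nat_lit 392) (@Lb.t (@Lb.fm (nat_lit 9) t229))))))))))))
noncomputable def l25163 : Lb := (@Lb.d (nat_lit 24) (nat_lit 264) (nat_lit 73) (@Lb.g g8 (@Lb.g g9 (@Lb.g g10 (@Lb.g g11 (@Lb.r r407 (@Lb.r r145 (@Lb.r r594 (@Lb.r r145 (@Lb.r r68 (@Lb.d (nat_lit 342) (nat_lit 32) (nat_lit 585) (@Lb.fp (nat_lit 9) t4833))))))))))))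
noncomputable def l25164 : Lb := (@Lb.d (nat_lit 26) (nat_lit 264) (nat_lit 130) (@Lb.g g8 (@Lb.g g9 (@Lb.g g10 (@Lb.g g11 (@Lb.r r427 (@Lb.r r324 (@Lb.r r170 (@Lb.r r169 (@Lb.r r164 (@Lb.d (nat_lit 96) (nat_lit 9) (nat_lit 146) (@Lb.fp (nat_lit 9) t2298))))))))))))
noncomputable def l25165 : Lb := (@Lb.d (nat_lit 24) (nat_lit 8) (nat_lit 130) (@Lb.g g8 (@Lb.g g9 (@Lb.g g10 (@Lb.g g11 (@Lb.r r663 (@Lb.r r408 (@Lb.r r170 (@Lb.r r169 (@Lb.r r164 (@Lb.d (nat_lit 80) (nat_lit 9) (nat_lit 152) (@Lb.fp (nat_lit 9) t4834))))))))))))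
noncomputable def l25166 : Lb := (@Lb.d (nat_lit 0) (nat_lit 421) (nat_lit 576) (@Lb.r r2641 (@Lb.r r2395 (@Lb.r r2388 (@Lb.r r1194 (@Lb.g g7 (@Lb.g g5 (@Lb.g g4 (@Lb.d (nat_lit 1) (nat_lit 1) (nat_lit 0) (@Lb.t (@Lb.fm (nat_lit 9) t45)))))))))))
noncomputable def l25167 : Lb := (@Lb.r r21 (@Lb.d (nat_lit 646) (nat_lit 8) (nat_lit 130) (@Lb.g g8 (@Lb.g g10 (@Lb.g g11 (@Lb.r r1419 (@Lb.r r101 (@Lb.r r410 (@Lb.d (nat_lit 9) (nat_lit 149) (nat_lit 150) (@Lb.t (@Lb.fm (nat_lit 9) t4835)))))))))))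
noncomputable def l25168 : Lb := (@Lb.d (nat_lit 390) (nat_lit 389) (nat_lit 290) (@Lb.r r1317 (@Lb.r r603 (@Lb.r r516 (@Lb.g g7 (@Lb.g g6 (@Lb.d (nat_lit 80) (nat_lit 0) (nat_lit 97) (@Lb.fm (nat_lit 3) t4836))))))))
noncomputable def l25169 : Lb := (@Lb.d (nat_lit 34) (nat_lit 258) (nat_lit 0) (@Lb.g g8 (@Lb.g g9 (@Lb.r r363 (@Lb.r r2646 (@Lb.r r409 (@Lb.r r424 (@Lb.d (nat_lit 152) (nat_lit 164) (nat_lit 154) (@Lb.fp (nat_lit 3) t2503)))))))))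
noncomputable def l25170 : Lb := (@Lb.d (nat_lit 144) (nat_lit 258) (nat_lit 130) (@Lb.g g8 (@Lb.g g9 (@Lb.g g10 (@Lb.g g11 (@Lb.r r1642 (@Lb.r r612 (@Lb.r r295 (@Lb.r r2453 (@Lb.r r36 (@Lb.d (nat_lit 361) (nat_lit 72) (nat_lit 649) (@Lb.fp (nat_lit 9) t4837))))))))))))
noncomputable def l25171 : Lb := (@Lb.r r21 (@Lb.d (nat_lit 138) (nat_lit 264) (nat_lit 130) (@Lb.g g8 (@Lb.g g10 (@Lb.g g11 (@Lb.r r427 (@Lb.r r1557 (@Lb.r r2408 (@Lb.r r102 (@Lb.d (nat_lit 533) (nat_lit 144) (nat_lit 677) (@Lb.t (@Lb.fp (nat_lit 9) t1642))))))))))))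
noncomputable def l25172 : Lb := (@Lb.d (nat_lit 2) (nat_lit 514) (nat_lit 2) (@Lb.g g8 (@Lb.g g9 (@Lb.g g10 (@Lb.g g11 (@Lb.r r427 (@Lb.r r106 (@Lb.r r25 (@Lb.d (nat_lit 8) (nat_lit 128) (nat_lit 34) (@Lb.fp (nat_lit 9) t295))))))))))
noncomputable def l25173 : Lb := (@Lb.r r275 (@Lb.d (nat_lit 0) (nat_lit 520) (nat_lit 2) (@Lb.g g9 (@Lb.g g10 (@Lb.r r1411 (@Lb.r r2149 (@Lb.d (nat_lit 256) (nat_lit 64) (nat_lit 2) (@Lb.fp (nat_lit 3) t4838))))))))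
noncomputable def l25174 : Lb := (@Lb.d (nat_lit 2) (nat_lit 550) (nat_lit 133) (@Lb.g g8 (@Lb.g g9 (@Lb.g g10 (@Lb.g g11 (@Lb.r r323 (@Lb.r r1362 (@Lb.r r660 (@Lb.r r425 (@Lb.r r36 (@Lb.d (nat_lit 82) (nat_lit 10) (nat_lit 329) (@Lb.fm (nat_lit 9) t739))))))))))))
noncomputable def l25175 : Lb := (@Lb.d (nat_lit 664) (nat_lit 144) (nat_lit 593) (@Lb.r r2635 (@Lb.r r406 (@Lb.r r72 (@Lb.r r97 (@Lb.g g7 (@Lb.g g6 (@Lb.d (nat_lit 80) (nat_lit 0) (nat_lit 65) (@Lb.fm (nat_lit 3) t4839)))))))))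
noncomputable def l25176 : Lb := (@Lb.d (nat_lit 662) (nat_lit 402) (nat_lit 593) (@Lb.r r2635 (@Lb.r r406 (@Lb.r r72 (@Lb.r r97 (@Lb.g g7 (@Lb.g g6 (@Lb.d (nat_lit 80) (nat_lit 0) (nat_lit 65) (@Lb.fm (nat_lit 3) t4839)))))))))
noncomputable def l25177 : Lb := (@Lb.d (nat_lit 8) (nat_lit 33) (nat_lit 66) (@Lb.g g9 (@Lb.g g10 (@Lb.g g11 (@Lb.r r1703 (@Lb.r r1634 (@Lb.r r2328 (@Lb.r r1637 (@Lb.d (nat_lit 404) (nat_lit 65) (nat_lit 640) (@Lb.t (@Lb.fp (nat_lit 9) t1830)))))))))))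
noncomputable def l25178 : Lb := (@Lb.r r21 (@Lb.r r331 (@Lb.d (nat_lit 677) (nat_lit 4) (nat_lit 2) (@Lb.g g8 (@Lb.g g10 (@Lb.r r409 (@Lb.r r2731 (@Lb.r r1674 (@Lb.d (nat_lit 641) (nat_lit 138) (nat_lit 642) (@Lb.fm (nat_lit 3) t4835))))))))))
noncomputable def l25179 : Lb := (@Lb.d (nat_lit 514) (nat_lit 676) (nat_lit 532) (@Lb.r r2196 (@Lb.r r2713 (@Lb.r r1363 (@Lb.g g7 (@Lb.g g6 (@Lb.g g5 (@Lb.d (nat_lit 16) (nat_lit 1) (nat_lit 97) (@Lb.t (@Lb.fp (nat_lit 9) t4836))))))))))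
noncomputable def l25180 : Lb := (@Lb.d (nat_lit 264) (nat_lit 548) (nat_lit 17) (@Lb.r r134 (@Lb.r r679 (@Lb.r r344 (@Lb.r r661 (@Lb.g g7 (@Lb.g g5 (@Lb.d (nat_lit 64) (nat_lit 1) (nat_lit 64) (@Lb.fp (nat_lit 3) t3557)))))))))
noncomputable def l25181 : Lb := (@Lb.d (nat_lit 6) (nat_lit 256) (nat_lit 0) (@Lb.g g8 (@Lb.g g9 (@Lb.g g11 (@Lb.r r2154 (@Lb.r r2585 (@Lb.r r1427 (@Lb.r r1608 (@Lb.d (nat_lit 610) (nat_lit 0) (nat_lit 394) (@Lb.t (@Lb.fp (nat_lit 9) t590)))))))))))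
noncomputable def l25182 : Lb := (@Lb.d (nat_lit 618) (nat_lit 581) (nat_lit 352) (@Lb.r r1637 (@Lb.r r2328 (@Lb.r r2386 (@Lb.r r1703 (@Lb.g g7 (@Lb.g g6 (@Lb.g g5 (@Lb.d (nat_lit 4) (nat_lit 18) (nat_lit 65) (@Lb.t (@Lb.fm (nat_lit 9) t1436)))))))))))
noncomputable def l25183 : Lb := (@Lb.d (nat_lit 145) (nat_lit 678) (nat_lit 645) (@Lb.r r580 (@Lb.r r2386 (@Lb.r r2201 (@Lb.g g7 (@Lb.g g6 (@Lb.g g4 (@Lb.d (nat_lit 101) (nat_lit 0) (nat_lit 577) (@Lb.t (@Lb.fp (nat_lit 9) t3300))))))))))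
noncomputable def l25184 : Lb := (@Lb.d (nat_lit 128) (nat_lit 0) (nat_lit 128) (@Lb.g g11 (@Lb.r r264 (@Lb.r r519 (@Lb.r r586 (@Lb.r r537 (@Lb.d (nat_lit 550) (nat_lit 6) (nat_lit 144) (@Lb.t (@Lb.fp (nat_lit 3) t1645)))))))))
noncomputable def l25185 : Lb := (@Lb.d (nat_lit 134) (nat_lit 641) (nat_lit 682) (@Lb.r r2440 (@Lb.r r2457 (@Lb.r r146 (@Lb.r r1687 (@Lb.g g11 (@Lb.g g8 (@Lb.r r25 (@Lb.fp (nat_lit 3) t4615)))))))))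
noncomputable def l25186 : Lb := (@Lb.r r21 (@Lb.d (nat_lit 282) (nat_lit 256) (nat_lit 138) (@Lb.g g8 (@Lb.g g10 (@Lb.g g11 (@Lb.r r2715 (@Lb.r r1626 (@Lb.r r145 (@Lb.d (nat_lit 609) (nat_lit 169) (nat_lit 1) (@Lb.t (@Lb.fp (nat_lit 9) t3144)))))))))))
noncomputable def l25187 : Lb := (@Lb.d (nat_lit 146) (nat_lit 264) (nat_lit 357) (@Lb.r r1608 (@Lb.r r146 (@Lb.r r1691 (@Lb.g g7 (@Lb.g g9 (@Lb.g g4 (@Lb.d (nat_lit 5) (nat_lit 2) (nat_lit 64) (@Lb.r r98 (@Lb.t (@Lb.fp (nat_lit 9) t2642)))))))))))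
noncomputable def l25188 : Lb := (@Lb.d (nat_lit 0) (nat_lit 256) (nat_lit 130) (@Lb.g g10 (@Lb.g g11 (@Lb.r r1447 (@Lb.r r386 (@Lb.r r101 (@Lb.r r8 (@Lb.d (nat_lit 354) (nat_lit 89) (nat_lit 132) (@Lb.fp (nat_lit 3) t4840)))))))))
noncomputable def l25189 : Lb := (@Lb.d (nat_lit 537) (nat_lit 98) (nat_lit 356) (@Lb.r r21 (@Lb.r r1640 (@Lb.r r1643 (@Lb.g g7 (@Lb.g g10 (@Lb.g g4 (@Lb.d (nat_lit 0) (nat_lit 8) (nat_lit 65) (@Lb.r r25 (@Lb.t (@Lb.fm (nat_lit 9) t715)))))))))))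
noncomputable def l25190 : Lb := (@Lb.d (nat_lit 0) (nat_lit 550) (nat_lit 5) (@Lb.g g9 (@Lb.g g10 (@Lb.g g11 (@Lb.r r2379 (@Lb.r r418 (@Lb.r r1193 (@Lb.r r24 (@Lb.d (nat_lit 25) (nat_lit 32) (nat_lit 674) (@Lb.t (@Lb.fp (nat_lit 9) t4222)))))))))))
noncomputable def l25191 : Lb := (@Lb.d (nat_lit 0) (nat_lit 549) (nat_lit 128) (@Lb.g g9 (@Lb.g g10 (@Lb.g g11 (@Lb.r r2387 (@Lb.r r1702 (@Lb.r r1636 (@Lb.r r1557 (@Lb.d (nat_lit 385) (nat_lit 81) (nat_lit 645) (@Lb.t (@Lb.fp (nat_lit 9) t2790)))))))))))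
noncomputable def l25192 : Lb := (@Lb.d (nat_lit 538) (nat_lit 529) (nat_lit 585) (@Lb.r r2214 (@Lb.r r1124 (@Lb.r r2661 (@Lb.r r2731 (@Lb.g g7 (@Lb.g g6 (@Lb.g g5 (@Lb.d (nat_lit 0) (nat_lit 20) (nat_lit 128) (@Lb.t (@Lb.fm (nat_lit 9) t4841)))))))))))
noncomputable def l25193 : Lb := (@Lb.d (nat_lit 2) (nat_lit 512) (nat_lit 129) (@Lb.g g8 (@Lb.g g9 (@Lb.g g10 (@Lb.g g11 (@Lb.r r618 (@Lb.r r1643 (@Lb.r r1633 (@Lb.r r24 (@Lb.d (nat_lit 538) (nat_lit 153) (nat_lit 416) (@Lb.fm (nat_lit 9) t4187)))))))))))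
noncomputable def l25194 : Lb := (@Lb.d (nat_lit 38) (nat_lit 36) (nat_lit 130) (@Lb.g g8 (@Lb.g g9 (@Lb.g g10 (@Lb.g g11 (@Lb.r r1291 (@Lb.r r1634 (@Lb.r r612 (@Lb.r r613 (@Lb.d (nat_lit 661) (nat_lit 128) (nat_lit 38) (@Lb.fm (nat_lit 9) t1646)))))))))))
noncomputable def l25195 : Lb := (@Lb.d (nat_lit 0) (nat_lit 405) (nat_lit 600) (@Lb.r r1114 (@Lb.r r1096 (@Lb.r r2579 (@Lb.g g7 (@Lb.g g9 (@Lb.d (nat_lit 4) (nat_lit 34) (nat_lit 0) (@Lb.fp (nat_lit 3) t4842))))))))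
noncomputable def l25196 : Lb := (@Lb.d (nat_lit 512) (nat_lit 517) (nat_lit 17) (@Lb.r r101 (@Lb.g g6 (@Lb.t (@Lb.fp (nat_lit 3) t362)))))
noncomputable def l25197 : Lb := (@Lb.r r21 (@Lb.d (nat_lit 645) (nat_lit 8) (nat_lit 130) (@Lb.g g8 (@Lb.g g10 (@Lb.g g11 (@Lb.r r1419 (@Lb.r r101 (@Lb.r r410 (@Lb.d (nat_lit 9) (nat_lit 154) (nat_lit 148) (@Lb.t (@Lb.fm (nat_lit 9) t4843)))))))))))
noncomputable def l25198 : Lb := (@Lb.d (nat_lit 272) (nat_lit 72) (nat_lit 2) (@Lb.r r289 (@Lb.r r1450 (@Lb.r r1160 (@Lb.r r1435 (@Lb.g g7 (@Lb.g g6 (@Lb.g g5 (@Lb.d (nat_lit 0) (nat_lit 0) (nat_lit 66) (@Lb.t (@Lb.fm (nat_lit 9) t4844)))))))))))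
noncomputable def l25199 : Lb := (@Lb.r r327 (@Lb.d (nat_lit 38) (nat_lit 261) (nat_lit 0) (@Lb.g g8 (@Lb.g g9 (@Lb.g g10 (@Lb.r r683 (@Lb.r r1194 (@Lb.r r1177 (@Lb.r r1156 (@Lb.d (nat_lit 297) (nat_lit 1) (nat_lit 2) (@Lb.t (@Lb.fm (nat_lit 9) t1833))))))))))))
noncomputable def l25200 : Lb := (@Lb.d (nat_lit 8) (nat_lit 553) (nat_lit 0) (@Lb.g g9 (@Lb.r r1626 (@Lb.r r603 (@Lb.r r600 (@Lb.r r1429 (@Lb.d (nat_lit 358) (nat_lit 80) (nat_lit 394) (@Lb.t (@Lb.fp (nat_lit 3) t322)))))))))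
noncomputable def l25201 : Lb := (@Lb.d (nat_lit 32) (nat_lit 512) (nat_lit 18) (@Lb.g g10 (@Lb.r r104 (@Lb.r r2585 (@Lb.r r539 (@Lb.r r516 (@Lb.d (nat_lit 256) (nat_lit 0) (nat_lit 2) (@Lb.t (@Lb.fp (nat_lit 3) t2321)))))))))
noncomputable def l25202 : Lb := (@Lb.r r323 (@Lb.d (nat_lit 2) (nat_lit 8) (nat_lit 8) (@Lb.g g8 (@Lb.g g10 (@Lb.r r613 (@Lb.r r619 (@Lb.r r326 (@Lb.d (nat_lit 81) (nat_lit 0) (nat_lit 134) (@Lb.fm (nat_lit 3) t145)))))))))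
noncomputable def l25203 : Lb := (@Lb.d (nat_lit 0) (nat_lit 5) (nat_lit 74) (@Lb.g g5 (@Lb.g g10 (@Lb.g g11 (@Lb.r r1691 (@Lb.r r578 (@Lb.r r24 (@Lb.d (nat_lit 553) (nat_lit 88) (nat_lit 168) (@Lb.t (@Lb.fp (nat_lit 9) t3548))))))))))
noncomputable def l25204 : Lb := (@Lb.d (nat_lit 2) (nat_lit 544) (nat_lit 74) (@Lb.g g8 (@Lb.g g10 (@Lb.g g11 (@Lb.r r2708 (@Lb.r r281 (@Lb.r r2343 (@Lb.r r2450 (@Lb.d (nat_lit 581) (nat_lit 8) (nat_lit 362) (@Lb.t (@Lb.fp (nat_lit 9) t2877)))))))))))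
noncomputable def l25205 : Lb := (@Lb.d (nat_lit 4) (nat_lit 514) (nat_lit 66) (@Lb.g g8 (@Lb.g g9 (@Lb.g g10 (@Lb.g g11 (@Lb.r r1602 (@Lb.r r1623 (@Lb.r r289 (@Lb.r r24 (@Lb.d (nat_lit 40) (nat_lit 33) (nat_lit 338) (@Lb.fm (nat_lit 9) t2576)))))))))))
noncomputable def l25206 : Lb := (@Lb.d (nat_lit 410) (nat_lit 420) (nat_lit 678) (@Lb.r r1044 (@Lb.r r601 (@Lb.r r532 (@Lb.r r2466 (@Lb.g g11 (@Lb.g g6 (@Lb.g g5 (@Lb.g g4 (@Lb.d (nat_lit 0) (nat_lit 6) (nat_lit 130) (@Lb.fp (nat_lit 9) t1702)))))))))))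
noncomputable def l25207 : Lb := (@Lb.d (nat_lit 1) (nat_lit 258) (nat_lit 74) (@Lb.g g8 (@Lb.g g9 (@Lb.g g10 (@Lb.g g11 (@Lb.r r1705 (@Lb.r r1451 (@Lb.r r1418 (@Lb.r r1316 (@Lb.d (nat_lit 593) (nat_lit 33) (nat_lit 320) (@Lb.fp (nat_lit 9) t240)))))))))))
noncomputable def l25208 : Lb := (@Lb.d (nat_lit 342) (nat_lit 358) (nat_lit 337) (@Lb.r r2324 (@Lb.r r617 (@Lb.r r1387 (@Lb.g g10 (@Lb.g g5 (@Lb.g g4 (@Lb.d (nat_lit 65) (nat_lit 6) (nat_lit 20) (@Lb.t (@Lb.fp (nat_lit 9) t2086))))))))))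
noncomputable def l25209 : Lb := (@Lb.r r275 (@Lb.d (nat_lit 1) (nat_lit 258) (nat_lit 2) (@Lb.g g4 (@Lb.g g9 (@Lb.g g10 (@Lb.r r1681 (@Lb.r r531 (@Lb.r r386 (@Lb.d (nat_lit 1) (nat_lit 0) (nat_lit 84) (@Lb.t (@Lb.fp (nat_lit 9) t546)))))))))))
noncomputable def l25210 : Lb := (@Lb.d (nat_lit 33) (nat_lit 0) (nat_lit 130) (@Lb.g g8 (@Lb.g g10 (@Lb.g g11 (@Lb.r r2405 (@Lb.r r667 (@Lb.r r664 (@Lb.r r2634 (@Lb.d (nat_lit 353) (nat_lit 154) (nat_lit 265) (@Lb.t (@Lb.fp (nat_lit 9) t70)))))))))))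
noncomputable def l25211 : Lb := (@Lb.d (nat_lit 1) (nat_lit 514) (nat_lit 128) (@Lb.g g8 (@Lb.g g9 (@Lb.g g10 (@Lb.g g11 (@Lb.r r1705 (@Lb.r r1451 (@Lb.r r1418 (@Lb.r r1316 (@Lb.d (nat_lit 593) (nat_lit 38) (nat_lit 321) (@Lb.fp (nat_lit 9) t240)))))))))))
noncomputable def l25212 : Lb := (@Lb.d (nat_lit 146) (nat_lit 16) (nat_lit 150) (@Lb.r r1158 (@Lb.r r1299 (@Lb.r r677 (@Lb.g g7 (@Lb.g g6 (@Lb.g g5 (@Lb.g g8 (@Lb.d (nat_lit 330) (nat_lit 0) (nat_lit 65) (@Lb.fm (nat_lit 9) t800))))))))))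
noncomputable def l25213 : Lb := (@Lb.d (nat_lit 160) (nat_lit 0) (nat_lit 128) (@Lb.g g10 (@Lb.g g11 (@Lb.r r264 (@Lb.r r279 (@Lb.r r593 (@Lb.r r418 (@Lb.d (nat_lit 258) (nat_lit 68) (nat_lit 597) (@Lb.fm (nat_lit 3) t4845)))))))))
noncomputable def l25214 : Lb := (@Lb.d (nat_lit 0) (nat_lit 322) (nat_lit 130) (@Lb.g g4 (@Lb.g g9 (@Lb.g g10 (@Lb.g g11 (@Lb.r r419 (@Lb.r r98 (@Lb.d (nat_lit 1) (nat_lit 4) (nat_lit 136) (@Lb.fm (nat_lit 9) t51)))))))))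
noncomputable def l25215 : Lb := (@Lb.d (nat_lit 1) (nat_lit 256) (nat_lit 129) (@Lb.g g4 (@Lb.g g9 (@Lb.g g10 (@Lb.g g11 (@Lb.r r1634 (@Lb.r r2659 (@Lb.r r1633 (@Lb.d (nat_lit 8) (nat_lit 89) (nat_lit 386) (@Lb.fm (nat_lit 9) t1679))))))))))
noncomputable def l25216 : Lb := (@Lb.d (nat_lit 512) (nat_lit 408) (nat_lit 321) (@Lb.r r1109 (@Lb.r r1444 (@Lb.r r2651 (@Lb.g g10 (@Lb.g g4 (@Lb.d (nat_lit 1) (nat_lit 4) (nat_lit 18) (@Lb.fm (nat_lit 3) t4846))))))))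
noncomputable def l25217 : Lb := (@Lb.d (nat_lit 160) (nat_lit 256) (nat_lit 129) (@Lb.g g6 (@Lb.g g11 (@Lb.r r264 (@Lb.r r519 (@Lb.r r537 (@Lb.d (nat_lit 98) (nat_lit 164) (nat_lit 322) (@Lb.fp (nat_lit 3) t857))))))))
noncomputable def l25218 : Lb := (@Lb.g g6 (@Lb.r r297 (@Lb.r r420 (@Lb.r r1446 (@Lb.r r1363 (@Lb.r r657 (@Lb.d (nat_lit 1) (nat_lit 256) (nat_lit 512) (@Lb.t (@Lb.fm (nat_lit 3) t4847)))))))))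
noncomputable def l25219 : Lb := (@Lb.r r260 (@Lb.r r273 (@Lb.r r322 (@Lb.g g11 (@Lb.r r594 (@Lb.r r2193 (@Lb.r r2180 (@Lb.d (nat_lit 0) (nat_lit 128) (nat_lit 544) (@Lb.t (@Lb.fp (nat_lit 3) t4848))))))))))
noncomputable def l25220 : Lb := (@Lb.r r21 (@Lb.d (nat_lit 20) (nat_lit 256) (nat_lit 72) (@Lb.g g8 (@Lb.g g10 (@Lb.g g11 (@Lb.r r2713 (@Lb.r r347 (@Lb.r r646 (@Lb.r r1624 (@Lb.d (nat_lit 90) (nat_lit 33) (nat_lit 104) (@Lb.t (@Lb.fm (nat_lit 9) t4849))))))))))))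
noncomputable def l25221 : Lb := (@Lb.d (nat_lit 2) (nat_lit 9) (nat_lit 129) (@Lb.g g8 (@Lb.g g9 (@Lb.g g10 (@Lb.g g11 (@Lb.r r1706 (@Lb.r r680 (@Lb.r r555 (@Lb.r r1553 (@Lb.r r2084 (@Lb.d (nat_lit 9) (nat_lit 102) (nat_lit 618) (@Lb.fm (nat_lit 9) t4850))))))))))))
noncomputable def l25222 : Lb := (@Lb.d (nat_lit 133) (nat_lit 261) (nat_lit 128) (@Lb.g g8 (@Lb.g g9 (@Lb.g g10 (@Lb.g g11 (@Lb.r r2690 (@Lb.r r2455 (@Lb.r r97 (@Lb.r r2584 (@Lb.d (nat_lit 616) (nat_lit 169) (nat_lit 417) (@Lb.fm (nat_lit 9) t3408)))))))))))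
noncomputable def l25223 : Lb := (@Lb.d (nat_lit 26) (nat_lit 258) (nat_lit 168) (@Lb.r r68 (@Lb.r r90 (@Lb.r r667 (@Lb.g g9 (@Lb.g g4 (@Lb.d (nat_lit 22) (nat_lit 6) (nat_lit 0) (@Lb.r r291 (@Lb.r r98 (@Lb.fm (nat_lit 3) t61))))))))))
noncomputable def l25224 : Lb := (@Lb.d (nat_lit 144) (nat_lit 9) (nat_lit 65) (@Lb.g g8 (@Lb.g g9 (@Lb.g g6 (@Lb.g g11 (@Lb.r r2153 (@Lb.r r296 (@Lb.r r2311 (@Lb.r r2564 (@Lb.d (nat_lit 258) (nat_lit 98) (nat_lit 584) (@Lb.fm (nat_lit 9) t4851)))))))))))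
noncomputable def l25225 : Lb := (@Lb.d (nat_lit 16) (nat_lit 41) (nat_lit 8) (@Lb.g g9 (@Lb.g g6 (@Lb.r r403 (@Lb.r r613 (@Lb.r r24 (@Lb.d (nat_lit 40) (nat_lit 153) (nat_lit 138) (@Lb.fp (nat_lit 3) t3297))))))))
noncomputable def l25226 : Lb := (@Lb.d (nat_lit 24) (nat_lit 9) (nat_lit 160) (@Lb.g g9 (@Lb.g g6 (@Lb.g g11 (@Lb.r r1540 (@Lb.r r1639 (@Lb.r r1617 (@Lb.d (nat_lit 10) (nat_lit 130) (nat_lit 154) (@Lb.t (@Lb.fm (nat_lit 9) t1285))))))))))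
noncomputable def l25227 : Lb := (@Lb.d (nat_lit 330) (nat_lit 593) (nat_lit 128) (@Lb.r r101 (@Lb.r r1362 (@Lb.g g7 (@Lb.g g6 (@Lb.g g5 (@Lb.d (nat_lit 0) (nat_lit 0) (nat_lit 134) (@Lb.t (@Lb.fm (nat_lit 9) t4168)))))))))
noncomputable def l25228 : Lb := (@Lb.d (nat_lit 328) (nat_lit 337) (nat_lit 128) (@Lb.r r101 (@Lb.r r1362 (@Lb.g g7 (@Lb.g g6 (@Lb.g g5 (@Lb.d (nat_lit 0) (nat_lit 0) (nat_lit 134) (@Lb.t (@Lb.fm (nat_lit 9) t4168)))))))))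
noncomputable def l25229 : Lb := (@Lb.d (nat_lit 0) (nat_lit 256) (nat_lit 104) (@Lb.g g8 (@Lb.g g6 (@Lb.g g11 (@Lb.d (nat_lit 0) (nat_lit 0) (nat_lit 128) (@Lb.t (@Lb.fp (nat_lit 9) t2)))))))
noncomputable def l25230 : Lb := (@Lb.d (nat_lit 37) (nat_lit 518) (nat_lit 70) (@Lb.r r101 (@Lb.r r24 (@Lb.r r323 (@Lb.g g7 (@Lb.g g6 (@Lb.d (nat_lit 0) (nat_lit 4) (nat_lit 65) (@Lb.fm (nat_lit 3) t985))))))))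
noncomputable def l25231 : Lb := (@Lb.r r1114 (@Lb.r r2341 (@Lb.r r1427 (@Lb.r r1096 (@Lb.d (nat_lit 96) (nat_lit 512) (nat_lit 578) (@Lb.fp (nat_lit 1) t2283))))))
noncomputable def l25232 : Lb := (@Lb.d (nat_lit 0) (nat_lit 512) (nat_lit 136) (@Lb.g g11 (@Lb.r r101 (@Lb.r r402 (@Lb.r r24 (@Lb.d (nat_lit 96) (nat_lit 73) (nat_lit 146) (@Lb.t (@Lb.fm (nat_lit 3) t988))))))))
noncomputable def l25233 : Lb := (@Lb.d (nat_lit 2) (nat_lit 96) (nat_lit 106) (@Lb.r r1114 (@Lb.r r2469 (@Lb.r r1299 (@Lb.g g5 (@Lb.g g8 (@Lb.d (nat_lit 545) (nat_lit 1) (nat_lit 0) (@Lb.fm (nat_lit 3) t4852))))))))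
noncomputable def l25234 : Lb := (@Lb.r r21 (@Lb.d (nat_lit 2) (nat_lit 0) (nat_lit 2) (@Lb.g g8 (@Lb.g g10 (@Lb.g g11 (@Lb.r r1683 (@Lb.r r1377 (@Lb.r r2202 (@Lb.r r408 (@Lb.d (nat_lit 144) (nat_lit 138) (nat_lit 330) (@Lb.t (@Lb.fm (nat_lit 9) t4786))))))))))))
noncomputable def l25235 : Lb := (@Lb.d (nat_lit 0) (nat_lit 2) (nat_lit 130) (@Lb.g g9 (@Lb.g g10 (@Lb.g g11 (@Lb.r r1443 (@Lb.r r417 (@Lb.r r98 (@Lb.r r8 (@Lb.d (nat_lit 608) (nat_lit 73) (nat_lit 168) (@Lb.t (@Lb.fm (nat_lit 9) t386)))))))))))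
noncomputable def l25236 : Lb := (@Lb.d (nat_lit 0) (nat_lit 0) (nat_lit 128) (@Lb.g g9 (@Lb.g g10 (@Lb.g g11 (@Lb.r r2471 (@Lb.r r1096 (@Lb.r r2646 (@Lb.r r409 (@Lb.d (nat_lit 517) (nat_lit 69) (nat_lit 152) (@Lb.t (@Lb.fp (nat_lit 9) t2115)))))))))))
noncomputable def l25237 : Lb := (@Lb.d (nat_lit 390) (nat_lit 342) (nat_lit 576) (@Lb.r r2584 (@Lb.r r97 (@Lb.r r2667 (@Lb.g g7 (@Lb.g g10 (@Lb.g g5 (@Lb.g g4 (@Lb.d (nat_lit 0) (nat_lit 1) (nat_lit 81) (@Lb.fp (nat_lit 9) t1852))))))))))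
noncomputable def l25238 : Lb := (@Lb.r r273 (@Lb.d (nat_lit 0) (nat_lit 544) (nat_lit 644) (@Lb.g g10 (@Lb.g g7 (@Lb.r r402 (@Lb.r r613 (@Lb.r r24 (@Lb.d (nat_lit 258) (nat_lit 5) (nat_lit 133) (@Lb.fm (nat_lit 3) t3216)))))))))
noncomputable def l25239 : Lb := (@Lb.r r323 (@Lb.d (nat_lit 130) (nat_lit 2) (nat_lit 18) (@Lb.g g8 (@Lb.g g9 (@Lb.g g6 (@Lb.r r2455 (@Lb.r r97 (@Lb.r r1556 (@Lb.d (nat_lit 390) (nat_lit 100) (nat_lit 642) (@Lb.t (@Lb.fm (nat_lit 9) t296)))))))))))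
noncomputable def l25240 : Lb := (@Lb.d (nat_lit 0) (nat_lit 0) (nat_lit 64) (@Lb.g g10 (@Lb.g g7 (@Lb.r r2456 (@Lb.r r2138 (@Lb.r r421 (@Lb.d (nat_lit 5) (nat_lit 72) (nat_lit 34) (@Lb.fp (nat_lit 3) t4853))))))))
noncomputable def l25241 : Lb := (@Lb.d (nat_lit 4) (nat_lit 266) (nat_lit 1) (@Lb.g g8 (@Lb.g g9 (@Lb.g g10 (@Lb.r r683 (@Lb.r r2666 (@Lb.r r2585 (@Lb.d (nat_lit 330) (nat_lit 169) (nat_lit 33) (@Lb.t (@Lb.fp (nat_lit 9) t2001))))))))))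
noncomputable def l25242 : Lb := (@Lb.d (nat_lit 8) (nat_lit 544) (nat_lit 17) (@Lb.g g9 (@Lb.g g10 (@Lb.r r1624 (@Lb.r r1691 (@Lb.r r1381 (@Lb.d (nat_lit 616) (nat_lit 170) (nat_lit 421) (@Lb.fp (nat_lit 3) t307))))))))
noncomputable def l25243 : Lb := (@Lb.d (nat_lit 2) (nat_lit 514) (nat_lit 73) (@Lb.g g8 (@Lb.g g9 (@Lb.g g10 (@Lb.g g11 (@Lb.r r427 (@Lb.r r420 (@Lb.r r102 (@Lb.r r21 (@Lb.r r36 (@Lb.d (nat_lit 21) (nat_lit 8) (nat_lit 2) (@Lb.fp (nat_lit 9) t61))))))))))))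
noncomputable def l25244 : Lb := (@Lb.d (nat_lit 0) (nat_lit 258) (nat_lit 130) (@Lb.g g8 (@Lb.g g9 (@Lb.g g10 (@Lb.g g11 (@Lb.r r1443 (@Lb.r r2089 (@Lb.r r616 (@Lb.r r2118 (@Lb.r r1156 (@Lb.d (nat_lit 545) (nat_lit 90) (nat_lit 326) (@Lb.fp (nat_lit 9) t596))))))))))))
noncomputable def l25245 : Lb := (@Lb.d (nat_lit 618) (nat_lit 410) (nat_lit 73) (@Lb.r r2404 (@Lb.r r1563 (@Lb.r r1365 (@Lb.g g6 (@Lb.g g5 (@Lb.g g4 (@Lb.d (nat_lit 26) (nat_lit 1) (nat_lit 1) (@Lb.r r391 (@Lb.t (@Lb.fm (nat_lit 9) t125)))))))))))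
noncomputable def l25246 : Lb := (@Lb.d (nat_lit 0) (nat_lit 512) (nat_lit 73) (@Lb.g g8 (@Lb.g g9 (@Lb.g g10 (@Lb.g g11 (@Lb.r r2658 (@Lb.r r101 (@Lb.r r24 (@Lb.d (nat_lit 321) (nat_lit 0) (nat_lit 512) (@Lb.fp (nat_lit 9) t145))))))))))
noncomputable def l25247 : Lb := (@Lb.d (nat_lit 1) (nat_lit 258) (nat_lit 130) (@Lb.g g8 (@Lb.g g9 (@Lb.g g10 (@Lb.g g11 (@Lb.r r347 (@Lb.r r386 (@Lb.r r1129 (@Lb.r r1108 (@Lb.d (nat_lit 41) (nat_lit 2) (nat_lit 168) (@Lb.fp (nat_lit 9) t61)))))))))))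
noncomputable def l25248 : Lb := (@Lb.d (nat_lit 5) (nat_lit 2) (nat_lit 73) (@Lb.g g8 (@Lb.g g9 (@Lb.g g10 (@Lb.g g11 (@Lb.r r1435 (@Lb.r r2581 (@Lb.r r596 (@Lb.r r2202 (@Lb.r r2180 (@Lb.d (nat_lit 6) (nat_lit 154) (nat_lit 660) (@Lb.fm (nat_lit 9) t51))))))))))))
noncomputable def l25249 : Lb := (@Lb.d (nat_lit 8) (nat_lit 1) (nat_lit 130) (@Lb.g g8 (@Lb.g g9 (@Lb.g g10 (@Lb.g g11 (@Lb.r r347 (@Lb.r r386 (@Lb.r r1129 (@Lb.r r1108 (@Lb.d (nat_lit 40) (nat_lit 2) (nat_lit 168) (@Lb.fp (nat_lit 9) t61)))))))))))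
noncomputable def l25250 : Lb := (@Lb.r r20 (@Lb.d (nat_lit 0) (nat_lit 321) (nat_lit 2) (@Lb.g g9 (@Lb.g g10 (@Lb.r r515 (@Lb.r r98 (@Lb.d (nat_lit 2) (nat_lit 161) (nat_lit 260) (@Lb.fp (nat_lit 3) t334))))))))
noncomputable def l25251 : Lb := (@Lb.d (nat_lit 8) (nat_lit 2) (nat_lit 73) (@Lb.g g9 (@Lb.g g10 (@Lb.g g11 (@Lb.r r1447 (@Lb.r r2644 (@Lb.r r2714 (@Lb.r r1361 (@Lb.d (nat_lit 4) (nat_lit 101) (nat_lit 278) (@Lb.t (@Lb.fp (nat_lit 9) t51)))))))))))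
noncomputable def l25252 : Lb := (@Lb.d (nat_lit 5) (nat_lit 2) (nat_lit 130) (@Lb.g g8 (@Lb.g g9 (@Lb.g g10 (@Lb.g g11 (@Lb.r r347 (@Lb.r r386 (@Lb.r r1121 (@Lb.r r2216 (@Lb.d (nat_lit 536) (nat_lit 68) (nat_lit 168) (@Lb.fm (nat_lit 9) t61)))))))))))
noncomputable def l25253 : Lb := (@Lb.r r82 (@Lb.r r275 (@Lb.g g5 (@Lb.r r529 (@Lb.r r2651 (@Lb.r r386 (@Lb.r r24 (@Lb.d (nat_lit 258) (nat_lit 129) (nat_lit 0) (@Lb.t (@Lb.fp (nat_lit 3) t742))))))))))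
noncomputable def l25254 : Lb := (@Lb.r r82 (@Lb.r r275 (@Lb.d (nat_lit 0) (nat_lit 513) (nat_lit 0) (@Lb.g g5 (@Lb.r r2651 (@Lb.r r386 (@Lb.r r24 (@Lb.d (nat_lit 264) (nat_lit 0) (nat_lit 2) (@Lb.t (@Lb.fp (nat_lit 3) t1061))))))))))
noncomputable def l25255 : Lb := (@Lb.g g9 (@Lb.r r89 (@Lb.d (nat_lit 34) (nat_lit 256) (nat_lit 2) (@Lb.t (@Lb.fp (nat_lit 3) t4854)))))
noncomputable def l25256 : Lb := (@Lb.d (nat_lit 0) (nat_lit 550) (nat_lit 664) (@Lb.r r85 (@Lb.r r2408 (@Lb.r r2378 (@Lb.r r1703 (@Lb.r r529 (@Lb.g g8 (@Lb.t (@Lb.fp (nat_lit 3) t1607)))))))))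
noncomputable def l25257 : Lb := (@Lb.d (nat_lit 2) (nat_lit 549) (nat_lit 74) (@Lb.g g8 (@Lb.g g9 (@Lb.g g10 (@Lb.g g11 (@Lb.r r675 (@Lb.r r1429 (@Lb.r r2404 (@Lb.r r1610 (@Lb.d (nat_lit 545) (nat_lit 0) (nat_lit 21) (@Lb.fm (nat_lit 9) t580)))))))))))
noncomputable def l25258 : Lb := (@Lb.r r21 (@Lb.d (nat_lit 2) (nat_lit 0) (nat_lit 73) (@Lb.g g8 (@Lb.g g10 (@Lb.g g11 (@Lb.r r1691 (@Lb.r r1381 (@Lb.r r2202 (@Lb.r r2180 (@Lb.d (nat_lit 601) (nat_lit 65) (nat_lit 609) (@Lb.t (@Lb.fp (nat_lit 9) t284))))))))))))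
noncomputable def l25259 : Lb := (@Lb.d (nat_lit 384) (nat_lit 592) (nat_lit 640) (@Lb.r r1096 (@Lb.r r1686 (@Lb.r r2657 (@Lb.r r2691 (@Lb.g g7 (@Lb.g g6 (@Lb.g g5 (@Lb.d (nat_lit 0) (nat_lit 0) (nat_lit 134) (@Lb.t (@Lb.fp (nat_lit 9) t4855)))))))))))
noncomputable def l25260 : Lb := (@Lb.d (nat_lit 0) (nat_lit 258) (nat_lit 136) (@Lb.g g8 (@Lb.g g9 (@Lb.g g10 (@Lb.g g11 (@Lb.r r1347 (@Lb.r r536 (@Lb.r r1621 (@Lb.r r2730 (@Lb.r r164 (@Lb.d (nat_lit 354) (nat_lit 5) (nat_lit 330) (@Lb.fp (nat_lit 9) t1087))))))))))))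
noncomputable def l25261 : Lb := (@Lb.r r21 (@Lb.r r70 (@Lb.d (nat_lit 410) (nat_lit 0) (nat_lit 0) (@Lb.g g8 (@Lb.r r1319 (@Lb.r r101 (@Lb.r r2450 (@Lb.d (nat_lit 2) (nat_lit 24) (nat_lit 610) (@Lb.t (@Lb.fp (nat_lit 3) t4856))))))))))
noncomputable def l25262 : Lb := (@Lb.d (nat_lit 0) (nat_lit 514) (nat_lit 130) (@Lb.g g8 (@Lb.g g9 (@Lb.g g10 (@Lb.g g11 (@Lb.r r1443 (@Lb.r r2089 (@Lb.r r1608 (@Lb.r r1126 (@Lb.d (nat_lit 277) (nat_lit 21) (nat_lit 424) (@Lb.fp (nat_lit 9) t776)))))))))))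
noncomputable def l25263 : Lb := (@Lb.r r82 (@Lb.d (nat_lit 2) (nat_lit 289) (nat_lit 64) (@Lb.g g8 (@Lb.g g9 (@Lb.g g11 (@Lb.r r2475 (@Lb.r r386 (@Lb.r r1060 (@Lb.r r1173 (@Lb.d (nat_lit 69) (nat_lit 69) (nat_lit 512) (@Lb.t (@Lb.fp (nat_lit 9) t644))))))))))))
noncomputable def l25264 : Lb := (@Lb.r r21 (@Lb.r r70 (@Lb.d (nat_lit 389) (nat_lit 256) (nat_lit 64) (@Lb.g g8 (@Lb.g g11 (@Lb.r r1419 (@Lb.r r402 (@Lb.r r97 (@Lb.d (nat_lit 581) (nat_lit 2) (nat_lit 528) (@Lb.fm (nat_lit 3) t644))))))))))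
noncomputable def l25265 : Lb := (@Lb.r r82 (@Lb.d (nat_lit 2) (nat_lit 258) (nat_lit 128) (@Lb.g g8 (@Lb.g g9 (@Lb.g g11 (@Lb.r r1642 (@Lb.r r1561 (@Lb.d (nat_lit 585) (nat_lit 0) (nat_lit 640) (@Lb.t (@Lb.fm (nat_lit 9) t225))))))))))
noncomputable def l25266 : Lb := (@Lb.r r21 (@Lb.d (nat_lit 1) (nat_lit 256) (nat_lit 130) (@Lb.g g8 (@Lb.g g10 (@Lb.g g11 (@Lb.r r2587 (@Lb.r r386 (@Lb.r r1429 (@Lb.r r2632 (@Lb.d (nat_lit 657) (nat_lit 37) (nat_lit 425) (@Lb.t (@Lb.fp (nat_lit 9) t2434))))))))))))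
noncomputable def l25267 : Lb := (@Lb.d (nat_lit 274) (nat_lit 9) (nat_lit 2) (@Lb.g g8 (@Lb.g g9 (@Lb.g g10 (@Lb.r r2731 (@Lb.r r1642 (@Lb.r r25 (@Lb.d (nat_lit 9) (nat_lit 153) (nat_lit 9) (@Lb.t (@Lb.fp (nat_lit 9) t1129))))))))))
noncomputable def l25268 : Lb := (@Lb.d (nat_lit 0) (nat_lit 514) (nat_lit 657) (@Lb.r r1317 (@Lb.r r1446 (@Lb.r r2136 (@Lb.g g11 (@Lb.g g5 (@Lb.g g4 (@Lb.d (nat_lit 1) (nat_lit 0) (nat_lit 384) (@Lb.r r578 (@Lb.t (@Lb.fp (nat_lit 9) t22)))))))))))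
noncomputable def l25269 : Lb := (@Lb.d (nat_lit 0) (nat_lit 2) (nat_lit 130) (@Lb.g g8 (@Lb.g g9 (@Lb.g g10 (@Lb.g g11 (@Lb.r r2647 (@Lb.r r2726 (@Lb.r r97 (@Lb.r r1416 (@Lb.d (nat_lit 282) (nat_lit 9) (nat_lit 34) (@Lb.fp (nat_lit 9) t507)))))))))))
noncomputable def l25270 : Lb := (@Lb.r r82 (@Lb.r r263 (@Lb.d (nat_lit 32) (nat_lit 258) (nat_lit 0) (@Lb.g g8 (@Lb.g g9 (@Lb.r r1430 (@Lb.r r2627 (@Lb.r r264 (@Lb.d (nat_lit 138) (nat_lit 82) (nat_lit 0) (@Lb.fp (nat_lit 3) t4490))))))))))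
noncomputable def l25271 : Lb := (@Lb.r r82 (@Lb.d (nat_lit 0) (nat_lit 2) (nat_lit 128) (@Lb.g g8 (@Lb.g g9 (@Lb.g g11 (@Lb.r r2583 (@Lb.r r2725 (@Lb.r r98 (@Lb.r r1416 (@Lb.d (nat_lit 294) (nat_lit 1) (nat_lit 33) (@Lb.t (@Lb.fp (nat_lit 9) t4857))))))))))))
noncomputable def l25272 : Lb := (@Lb.d (nat_lit 0) (nat_lit 261) (nat_lit 168) (@Lb.r r1635 (@Lb.r r601 (@Lb.r r2132 (@Lb.r r1162 (@Lb.g g4 (@Lb.d (nat_lit 1) (nat_lit 0) (nat_lit 0) (@Lb.t (@Lb.fm (nat_lit 3) t249)))))))))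
noncomputable def l25273 : Lb := (@Lb.d (nat_lit 330) (nat_lit 342) (nat_lit 388) (@Lb.r r1316 (@Lb.r r1301 (@Lb.r r323 (@Lb.g g7 (@Lb.g g6 (@Lb.g g5 (@Lb.g g4 (@Lb.d (nat_lit 6) (nat_lit 2) (nat_lit 64) (@Lb.fp (nat_lit 9) t538))))))))))
noncomputable def l25274 : Lb := (@Lb.d (nat_lit 0) (nat_lit 42) (nat_lit 641) (@Lb.r r68 (@Lb.r r330 (@Lb.r r104 (@Lb.r r41 (@Lb.g g7 (@Lb.g g6 (@Lb.g g5 (@Lb.g g4 (@Lb.d (nat_lit 66) (nat_lit 1) (nat_lit 640) (@Lb.fp (nat_lit 9) t4858)))))))))))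
noncomputable def l25275 : Lb := (@Lb.d (nat_lit 1) (nat_lit 2) (nat_lit 8) (@Lb.g g8 (@Lb.g g9 (@Lb.g g10 (@Lb.r r1555 (@Lb.r r297 (@Lb.r r1700 (@Lb.r r1670 (@Lb.d (nat_lit 130) (nat_lit 5) (nat_lit 522) (@Lb.t (@Lb.fp (nat_lit 9) t3282)))))))))))
noncomputable def l25276 : Lb := (@Lb.d (nat_lit 41) (nat_lit 512) (nat_lit 0) (@Lb.g g8 (@Lb.r r2395 (@Lb.r r614 (@Lb.r r1637 (@Lb.r r1428 (@Lb.d (nat_lit 360) (nat_lit 88) (nat_lit 394) (@Lb.t (@Lb.fm (nat_lit 3) t632)))))))))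
noncomputable def l25277 : Lb := (@Lb.d (nat_lit 548) (nat_lit 325) (nat_lit 33) (@Lb.r r70 (@Lb.r r2200 (@Lb.r r2459 (@Lb.g g9 (@Lb.g g4 (@Lb.r r267 (@Lb.r r74 (@Lb.fm (nat_lit 3) t806)))))))))
noncomputable def l25278 : Lb := (@Lb.d (nat_lit 2) (nat_lit 5) (nat_lit 64) (@Lb.g g8 (@Lb.g g9 (@Lb.g g10 (@Lb.g g7 (@Lb.r r386 (@Lb.r r104 (@Lb.r r1129 (@Lb.r r1060 (@Lb.d (nat_lit 548) (nat_lit 128) (nat_lit 9) (@Lb.fp (nat_lit 9) t3228)))))))))))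
noncomputable def l25279 : Lb := (@Lb.d (nat_lit 645) (nat_lit 0) (nat_lit 130) (@Lb.g g4 (@Lb.g g9 (@Lb.g g10 (@Lb.g g11 (@Lb.r r677 (@Lb.r r2339 (@Lb.r r1158 (@Lb.d (nat_lit 336) (nat_lit 32) (nat_lit 88) (@Lb.fm (nat_lit 9) t85))))))))))
noncomputable def l25280 : Lb := (@Lb.d (nat_lit 2) (nat_lit 514) (nat_lit 130) (@Lb.g g8 (@Lb.g g9 (@Lb.g g10 (@Lb.g g11 (@Lb.r r427 (@Lb.r r424 (@Lb.r r106 (@Lb.r r25 (@Lb.d (nat_lit 21) (nat_lit 6) (nat_lit 17) (@Lb.fm (nat_lit 9) t1149)))))))))))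
noncomputable def l25281 : Lb := (@Lb.d (nat_lit 66) (nat_lit 522) (nat_lit 132) (@Lb.r r322 (@Lb.r r659 (@Lb.r r341 (@Lb.g g7 (@Lb.g g6 (@Lb.g g5 (@Lb.g g4 (@Lb.d (nat_lit 6) (nat_lit 1) (nat_lit 134) (@Lb.fm (nat_lit 9) t510))))))))))
noncomputable def l25282 : Lb := (@Lb.d (nat_lit 1) (nat_lit 256) (nat_lit 136) (@Lb.g g8 (@Lb.g g9 (@Lb.g g11 (@Lb.r r1162 (@Lb.r r1188 (@Lb.r r405 (@Lb.r r1635 (@Lb.d (nat_lit 0) (nat_lit 0) (nat_lit 533) (@Lb.t (@Lb.fm (nat_lit 9) t1594)))))))))))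
noncomputable def l25283 : Lb := (@Lb.d (nat_lit 0) (nat_lit 256) (nat_lit 130) (@Lb.g g4 (@Lb.g g9 (@Lb.g g10 (@Lb.g g11 (@Lb.r r419 (@Lb.r r386 (@Lb.d (nat_lit 292) (nat_lit 34) (nat_lit 169) (@Lb.fp (nat_lit 9) t4055)))))))))
noncomputable def l25284 : Lb := (@Lb.d (nat_lit 0) (nat_lit 272) (nat_lit 585) (@Lb.g g9 (@Lb.g g10 (@Lb.g g7 (@Lb.r r342 (@Lb.r r2133 (@Lb.r r24 (@Lb.d (nat_lit 656) (nat_lit 73) (nat_lit 265) (@Lb.t (@Lb.fm (nat_lit 9) t377))))))))))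
noncomputable def l25285 : Lb := (@Lb.d (nat_lit 154) (nat_lit 133) (nat_lit 97) (@Lb.r r24 (@Lb.r r402 (@Lb.r r101 (@Lb.g g7 (@Lb.d (nat_lit 0) (nat_lit 0) (nat_lit 68) (@Lb.t (@Lb.fp (nat_lit 3) t519))))))))
noncomputable def l25286 : Lb := (@Lb.d (nat_lit 145) (nat_lit 342) (nat_lit 644) (@Lb.r r21 (@Lb.r r100 (@Lb.r r386 (@Lb.r r347 (@Lb.g g7 (@Lb.g g6 (@Lb.g g5 (@Lb.d (nat_lit 0) (nat_lit 1) (nat_lit 65) (@Lb.t (@Lb.fm (nat_lit 9) t4368)))))))))))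
noncomputable def l25287 : Lb := (@Lb.d (nat_lit 256) (nat_lit 136) (nat_lit 100) (@Lb.r r597 (@Lb.r r1386 (@Lb.r r1096 (@Lb.r r1371 (@Lb.g g7 (@Lb.g g6 (@Lb.g g5 (@Lb.d (nat_lit 4) (nat_lit 1) (nat_lit 64) (@Lb.t (@Lb.fm (nat_lit 9) t4859)))))))))))
noncomputable def l25288 : Lb := (@Lb.d (nat_lit 9) (nat_lit 290) (nat_lit 0) (@Lb.g g8 (@Lb.g g9 (@Lb.r r2404 (@Lb.r r2331 (@Lb.r r2178 (@Lb.r r549 (@Lb.d (nat_lit 408) (nat_lit 25) (nat_lit 74) (@Lb.fm (nat_lit 3) t307)))))))))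
noncomputable def l25289 : Lb := (@Lb.d (nat_lit 548) (nat_lit 649) (nat_lit 86) (@Lb.r r597 (@Lb.r r1386 (@Lb.r r1096 (@Lb.r r1371 (@Lb.g g7 (@Lb.g g6 (@Lb.g g5 (@Lb.d (nat_lit 4) (nat_lit 1) (nat_lit 64) (@Lb.t (@Lb.fm (nat_lit 9) t946)))))))))))
noncomputable def l25290 : Lb := (@Lb.d (nat_lit 666) (nat_lit 128) (nat_lit 262) (@Lb.r r24 (@Lb.r r101 (@Lb.r r386 (@Lb.g g11 (@Lb.g g6 (@Lb.d (nat_lit 0) (nat_lit 0) (nat_lit 1) (@Lb.fm (nat_lit 3) t868))))))))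
noncomputable def l25291 : Lb := (@Lb.d (nat_lit 0) (nat_lit 0) (nat_lit 128) (@Lb.g g11 (@Lb.r r326 (@Lb.r r1419 (@Lb.r r24 (@Lb.r r1317 (@Lb.d (nat_lit 388) (nat_lit 136) (nat_lit 342) (@Lb.t (@Lb.fp (nat_lit 3) t867)))))))))
noncomputable def l25292 : Lb := (@Lb.d (nat_lit 137) (nat_lit 266) (nat_lit 0) (@Lb.g g8 (@Lb.g g9 (@Lb.r r646 (@Lb.r r2727 (@Lb.r r2593 (@Lb.r r104 (@Lb.d (nat_lit 33) (nat_lit 129) (nat_lit 276) (@Lb.fm (nat_lit 3) t334)))))))))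
noncomputable def l25293 : Lb := (@Lb.d (nat_lit 0) (nat_lit 514) (nat_lit 73) (@Lb.g g8 (@Lb.g g9 (@Lb.g g10 (@Lb.g g11 (@Lb.r r427 (@Lb.r r424 (@Lb.r r2473 (@Lb.r r2154 (@Lb.d (nat_lit 536) (nat_lit 162) (nat_lit 665) (@Lb.fp (nat_lit 9) t410)))))))))))
noncomputable def l25294 : Lb := (@Lb.d (nat_lit 102) (nat_lit 662) (nat_lit 578) (@Lb.r r1317 (@Lb.r r2118 (@Lb.r r2643 (@Lb.g g6 (@Lb.g g5 (@Lb.g g4 (@Lb.d (nat_lit 336) (nat_lit 18) (nat_lit 1) (@Lb.r r391 (@Lb.t (@Lb.fp (nat_lit 9) t1137)))))))))))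
noncomputable def l25295 : Lb := (@Lb.d (nat_lit 4) (nat_lit 257) (nat_lit 74) (@Lb.g g8 (@Lb.g g9 (@Lb.g g10 (@Lb.g g11 (@Lb.r r2474 (@Lb.r r579 (@Lb.r r1561 (@Lb.d (nat_lit 586) (nat_lit 33) (nat_lit 681) (@Lb.fp (nat_lit 9) t4860))))))))))
noncomputable def l25296 : Lb := (@Lb.d (nat_lit 0) (nat_lit 258) (nat_lit 130) (@Lb.g g8 (@Lb.g g9 (@Lb.g g10 (@Lb.g g11 (@Lb.r r2411 (@Lb.r r386 (@Lb.r r97 (@Lb.d (nat_lit 292) (nat_lit 74) (nat_lit 136) (@Lb.fp (nat_lit 9) t1231))))))))))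
noncomputable def l25297 : Lb := (@Lb.d (nat_lit 144) (nat_lit 2) (nat_lit 64) (@Lb.g g8 (@Lb.g g9 (@Lb.g g10 (@Lb.g g11 (@Lb.r r427 (@Lb.r r610 (@Lb.r r409 (@Lb.r r388 (@Lb.d (nat_lit 420) (nat_lit 25) (nat_lit 585) (@Lb.fp (nat_lit 9) t4024)))))))))))
noncomputable def l25298 : Lb := (@Lb.d (nat_lit 390) (nat_lit 70) (nat_lit 26) (@Lb.r r2325 (@Lb.r r598 (@Lb.r r683 (@Lb.g g7 (@Lb.g g6 (@Lb.g g5 (@Lb.g g4 (@Lb.d (nat_lit 8) (nat_lit 24) (nat_lit 133) (@Lb.fm (nat_lit 9) t309))))))))))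
noncomputable def l25299 : Lb := (@Lb.d (nat_lit 2) (nat_lit 2) (nat_lit 2) (@Lb.g g8 (@Lb.g g9 (@Lb.g g10 (@Lb.r r676 (@Lb.r r1543 (@Lb.r r386 (@Lb.r r97 (@Lb.d (nat_lit 388) (nat_lit 73) (nat_lit 585) (@Lb.t (@Lb.fp (nat_lit 9) t4861)))))))))))
noncomputable def l25300 : Lb := (@Lb.r r323 (@Lb.d (nat_lit 16) (nat_lit 9) (nat_lit 33) (@Lb.g g8 (@Lb.g g9 (@Lb.g g6 (@Lb.r r387 (@Lb.r r2721 (@Lb.r r2456 (@Lb.d (nat_lit 410) (nat_lit 33) (nat_lit 641) (@Lb.t (@Lb.fp (nat_lit 9) t3916)))))))))))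
noncomputable def l25301 : Lb := (@Lb.d (nat_lit 6) (nat_lit 512) (nat_lit 64) (@Lb.r r101 (@Lb.r r402 (@Lb.g g7 (@Lb.d (nat_lit 0) (nat_lit 0) (nat_lit 68) (@Lb.t (@Lb.fm (nat_lit 3) t50)))))))
noncomputable def l25302 : Lb := (@Lb.d (nat_lit 0) (nat_lit 258) (nat_lit 130) (@Lb.g g8 (@Lb.g g9 (@Lb.g g10 (@Lb.g g11 (@Lb.r r427 (@Lb.r r420 (@Lb.r r102 (@Lb.r r97 (@Lb.r r36 (@Lb.d (nat_lit 2) (nat_lit 2) (nat_lit 138) (@Lb.fm (nat_lit 9) t51))))))))))))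
noncomputable def l25303 : Lb := (@Lb.d (nat_lit 0) (nat_lit 0) (nat_lit 130) (@Lb.g g10 (@Lb.g g11 (@Lb.r r1447 (@Lb.r r386 (@Lb.r r2196 (@Lb.r r1049 (@Lb.d (nat_lit 617) (nat_lit 68) (nat_lit 133) (@Lb.fp (nat_lit 3) t263)))))))))
noncomputable def l25304 : Lb := (@Lb.d (nat_lit 2) (nat_lit 258) (nat_lit 130) (@Lb.g g8 (@Lb.g g9 (@Lb.g g10 (@Lb.g g11 (@Lb.r r427 (@Lb.r r145 (@Lb.r r356 (@Lb.r r154 (@Lb.r r132 (@Lb.d (nat_lit 4) (nat_lit 130) (nat_lit 137) (@Lb.fm (nat_lit 9) t1350))))))))))))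
noncomputable def l25305 : Lb := (@Lb.d (nat_lit 2) (nat_lit 514) (nat_lit 130) (@Lb.g g8 (@Lb.g g9 (@Lb.g g10 (@Lb.g g11 (@Lb.r r427 (@Lb.r r420 (@Lb.r r102 (@Lb.r r97 (@Lb.r r36 (@Lb.d (nat_lit 2) (nat_lit 2) (nat_lit 138) (@Lb.fm (nat_lit 9) t51))))))))))))
noncomputable def l25306 : Lb := (@Lb.r r21 (@Lb.d (nat_lit 6) (nat_lit 512) (nat_lit 66) (@Lb.g g8 (@Lb.g g10 (@Lb.g g7 (@Lb.r r417 (@Lb.r r98 (@Lb.d (nat_lit 2) (nat_lit 150) (nat_lit 72) (@Lb.t (@Lb.fm (nat_lit 9) t452))))))))))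
noncomputable def l25307 : Lb := (@Lb.r r82 (@Lb.d (nat_lit 8) (nat_lit 0) (nat_lit 128) (@Lb.g g9 (@Lb.g g11 (@Lb.r r551 (@Lb.r r386 (@Lb.r r280 (@Lb.r r661 (@Lb.d (nat_lit 21) (nat_lit 98) (nat_lit 89) (@Lb.fp (nat_lit 3) t4862))))))))))
noncomputable def l25308 : Lb := (@Lb.r r82 (@Lb.r r275 (@Lb.d (nat_lit 2) (nat_lit 513) (nat_lit 0) (@Lb.g g8 (@Lb.g g5 (@Lb.r r2315 (@Lb.r r2122 (@Lb.d (nat_lit 18) (nat_lit 136) (nat_lit 16) (@Lb.fp (nat_lit 3) t2980)))))))))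
noncomputable def l25309 : Lb := (@Lb.d (nat_lit 0) (nat_lit 260) (nat_lit 128) (@Lb.g g9 (@Lb.g g10 (@Lb.g g11 (@Lb.r r427 (@Lb.r r424 (@Lb.r r106 (@Lb.r r25 (@Lb.d (nat_lit 521) (nat_lit 9) (nat_lit 33) (@Lb.t (@Lb.fp (nat_lit 9) t1147)))))))))))
noncomputable def l25310 : Lb := (@Lb.d (nat_lit 273) (nat_lit 522) (nat_lit 18) (@Lb.g g10 (@Lb.t (@Lb.fp (nat_lit 3) t4863))))
noncomputable def l25311 : Lb := (@Lb.d (nat_lit 41) (nat_lit 265) (nat_lit 0) (@Lb.g g8 (@Lb.g g9 (@Lb.r r2118 (@Lb.r r1416 (@Lb.r r535 (@Lb.r r289 (@Lb.d (nat_lit 0) (nat_lit 1) (nat_lit 161) (@Lb.fp (nat_lit 3) t654)))))))))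
noncomputable def l25312 : Lb := (@Lb.d (nat_lit 2) (nat_lit 2) (nat_lit 73) (@Lb.g g8 (@Lb.g g9 (@Lb.g g10 (@Lb.g g11 (@Lb.r r2729 (@Lb.r r2475 (@Lb.r r2468 (@Lb.r r2438 (@Lb.d (nat_lit 609) (nat_lit 10) (nat_lit 674) (@Lb.fp (nat_lit 9) t590)))))))))))
noncomputable def l25313 : Lb := (@Lb.r r323 (@Lb.d (nat_lit 2) (nat_lit 258) (nat_lit 2) (@Lb.g g8 (@Lb.g g9 (@Lb.g g10 (@Lb.r r401 (@Lb.r r299 (@Lb.r r392 (@Lb.r r74 (@Lb.d (nat_lit 38) (nat_lit 8) (nat_lit 17) (@Lb.t (@Lb.fp (nat_lit 9) t221))))))))))))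
noncomputable def l25314 : Lb := (@Lb.r r82 (@Lb.d (nat_lit 2) (nat_lit 2) (nat_lit 128) (@Lb.g g8 (@Lb.g g9 (@Lb.g g11 (@Lb.r r1571 (@Lb.r r2630 (@Lb.r r2201 (@Lb.r r1432 (@Lb.d (nat_lit 102) (nat_lit 90) (nat_lit 74) (@Lb.t (@Lb.fm (nat_lit 9) t4864))))))))))))
noncomputable def l25315 : Lb := (@Lb.d (nat_lit 32) (nat_lit 257) (nat_lit 128) (@Lb.g g8 (@Lb.g g9 (@Lb.g g11 (@Lb.r r2454 (@Lb.r r2667 (@Lb.r r2401 (@Lb.r r280 (@Lb.d (nat_lit 393) (nat_lit 73) (nat_lit 90) (@Lb.t (@Lb.fm (nat_lit 9) t4865)))))))))))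
noncomputable def l25316 : Lb := (@Lb.d (nat_lit 386) (nat_lit 577) (nat_lit 645) (@Lb.r r597 (@Lb.r r1638 (@Lb.r r2692 (@Lb.r r2439 (@Lb.g g7 (@Lb.g g6 (@Lb.g g5 (@Lb.d (nat_lit 20) (nat_lit 1) (nat_lit 132) (@Lb.t (@Lb.fp (nat_lit 9) t4866)))))))))))
noncomputable def l25317 : Lb := (@Lb.d (nat_lit 82) (nat_lit 256) (nat_lit 586) (@Lb.r r24 (@Lb.r r101 (@Lb.r r2659 (@Lb.g g7 (@Lb.g g10 (@Lb.d (nat_lit 0) (nat_lit 0) (nat_lit 10) (@Lb.fm (nat_lit 3) t2040))))))))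
noncomputable def l25318 : Lb := (@Lb.d (nat_lit 2) (nat_lit 514) (nat_lit 128) (@Lb.g g8 (@Lb.g g9 (@Lb.g g10 (@Lb.g g11 (@Lb.r r643 (@Lb.r r297 (@Lb.r r328 (@Lb.r r614 (@Lb.r r132 (@Lb.d (nat_lit 132) (nat_lit 25) (nat_lit 73) (@Lb.fm (nat_lit 9) t385))))))))))))
noncomputable def l25319 : Lb := (@Lb.d (nat_lit 70) (nat_lit 262) (nat_lit 65) (@Lb.r r273 (@Lb.r r611 (@Lb.r r597 (@Lb.r r326 (@Lb.g g7 (@Lb.g g6 (@Lb.g g5 (@Lb.g g8 (@Lb.d (nat_lit 10) (nat_lit 0) (nat_lit 65) (@Lb.fp (nat_lit 9) t4867)))))))))))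
noncomputable def l25320 : Lb := (@Lb.d (nat_lit 641) (nat_lit 512) (nat_lit 0) (@Lb.r r2442 (@Lb.r r2468 (@Lb.r r2341 (@Lb.r r2579 (@Lb.g g10 (@Lb.g g5 (@Lb.fm (nat_lit 3) t4868))))))))
noncomputable def l25321 : Lb := (@Lb.g g7 (@Lb.r r289 (@Lb.r r535 (@Lb.r r328 (@Lb.r r134 (@Lb.d (nat_lit 5) (nat_lit 513) (nat_lit 0) (@Lb.t (@Lb.fm (nat_lit 3) t40))))))))
noncomputable def l25322 : Lb := (@Lb.d (nat_lit 2) (nat_lit 516) (nat_lit 74) (@Lb.g g8 (@Lb.g g9 (@Lb.g g10 (@Lb.g g11 (@Lb.r r2707 (@Lb.r r533 (@Lb.r r1640 (@Lb.r r2374 (@Lb.d (nat_lit 593) (nat_lit 10) (nat_lit 646) (@Lb.fp (nat_lit 9) t3181)))))))))))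
noncomputable def l25323 : Lb := (@Lb.r r21 (@Lb.d (nat_lit 1) (nat_lit 8) (nat_lit 130) (@Lb.g g8 (@Lb.g g10 (@Lb.g g11 (@Lb.r r1419 (@Lb.r r1321 (@Lb.r r1444 (@Lb.r r102 (@Lb.d (nat_lit 26) (nat_lit 137) (nat_lit 393) (@Lb.t (@Lb.fp (nat_lit 9) t51))))))))))))
noncomputable def l25324 : Lb := (@Lb.d (nat_lit 130) (nat_lit 258) (nat_lit 10) (@Lb.g g8 (@Lb.g g9 (@Lb.g g10 (@Lb.r r263 (@Lb.r r405 (@Lb.r r612 (@Lb.r r1178 (@Lb.d (nat_lit 537) (nat_lit 2) (nat_lit 662) (@Lb.t (@Lb.fp (nat_lit 9) t1811)))))))))))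
noncomputable def l25325 : Lb := (@Lb.d (nat_lit 6) (nat_lit 64) (nat_lit 130) (@Lb.g g4 (@Lb.g g9 (@Lb.g g10 (@Lb.g g11 (@Lb.r r419 (@Lb.r r98 (@Lb.d (nat_lit 1) (nat_lit 168) (nat_lit 386) (@Lb.fm (nat_lit 9) t51)))))))))
noncomputable def l25326 : Lb := (@Lb.d (nat_lit 8) (nat_lit 258) (nat_lit 130) (@Lb.g g9 (@Lb.g g10 (@Lb.g g11 (@Lb.r r586 (@Lb.r r584 (@Lb.r r299 (@Lb.r r289 (@Lb.d (nat_lit 2) (nat_lit 72) (nat_lit 90) (@Lb.t (@Lb.fm (nat_lit 9) t333)))))))))))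
noncomputable def l25327 : Lb := (@Lb.r r40 (@Lb.r r425 (@Lb.r r2474 (@Lb.r r2391 (@Lb.r r2212 (@Lb.d (nat_lit 257) (nat_lit 512) (nat_lit 512) (@Lb.fm (nat_lit 1) t1261)))))))
noncomputable def l25328 : Lb := (@Lb.r r82 (@Lb.r r275 (@Lb.d (nat_lit 0) (nat_lit 609) (nat_lit 0) (@Lb.g g5 (@Lb.r r291 (@Lb.r r98 (@Lb.d (nat_lit 0) (nat_lit 145) (nat_lit 64) (@Lb.t (@Lb.fm (nat_lit 3) t144)))))))))
noncomputable def l25329 : Lb := (@Lb.r r40 (@Lb.r r425 (@Lb.r r2474 (@Lb.r r2391 (@Lb.r r2212 (@Lb.d (nat_lit 257) (nat_lit 256) (nat_lit 576) (@Lb.fm (nat_lit 1) t1261)))))))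
noncomputable def l25330 : Lb := (@Lb.r r323 (@Lb.d (nat_lit 0) (nat_lit 258) (nat_lit 41) (@Lb.g g9 (@Lb.g g6 (@Lb.r r387 (@Lb.r r97 (@Lb.d (nat_lit 5) (nat_lit 10) (nat_lit 85) (@Lb.fm (nat_lit 3) t285))))))))
noncomputable def l25331 : Lb := (@Lb.r r322 (@Lb.d (nat_lit 0) (nat_lit 522) (nat_lit 576) (@Lb.g g9 (@Lb.g g7 (@Lb.r r594 (@Lb.r r421 (@Lb.r r24 (@Lb.d (nat_lit 528) (nat_lit 0) (nat_lit 25) (@Lb.fp (nat_lit 3) t4869)))))))))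
noncomputable def l25332 : Lb := (@Lb.r r82 (@Lb.r r275 (@Lb.d (nat_lit 4) (nat_lit 650) (nat_lit 0) (@Lb.g g5 (@Lb.r r291 (@Lb.r r98 (@Lb.r r24 (@Lb.d (nat_lit 548) (nat_lit 134) (nat_lit 32) (@Lb.t (@Lb.fp (nat_lit 3) t1028))))))))))
noncomputable def l25333 : Lb := (@Lb.r r82 (@Lb.d (nat_lit 0) (nat_lit 0) (nat_lit 128) (@Lb.g g9 (@Lb.g g11 (@Lb.r r1575 (@Lb.r r386 (@Lb.r r2328 (@Lb.r r1637 (@Lb.d (nat_lit 264) (nat_lit 0) (nat_lit 16) (@Lb.fm (nat_lit 3) t4870))))))))))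
noncomputable def l25334 : Lb := (@Lb.d (nat_lit 0) (nat_lit 0) (nat_lit 130) (@Lb.g g9 (@Lb.g g10 (@Lb.g g11 (@Lb.r r2658 (@Lb.r r579 (@Lb.d (nat_lit 0) (nat_lit 97) (nat_lit 640) (@Lb.t (@Lb.fp (nat_lit 9) t51)))))))))
noncomputable def l25335 : Lb := (@Lb.d (nat_lit 2) (nat_lit 0) (nat_lit 64) (@Lb.g g8 (@Lb.g g9 (@Lb.g g11 (@Lb.r r356 (@Lb.r r1307 (@Lb.r r2178 (@Lb.r r533 (@Lb.r r1060 (@Lb.d (nat_lit 658) (nat_lit 129) (nat_lit 518) (@Lb.t (@Lb.fp (nat_lit 9) t229))))))))))))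
noncomputable def l25336 : Lb := (@Lb.d (nat_lit 4) (nat_lit 0) (nat_lit 72) (@Lb.g g8 (@Lb.g g9 (@Lb.g g11 (@Lb.r r1410 (@Lb.r r579 (@Lb.r r25 (@Lb.d (nat_lit 10) (nat_lit 146) (nat_lit 297) (@Lb.t (@Lb.fm (nat_lit 9) t210))))))))))
noncomputable def l25337 : Lb := (@Lb.d (nat_lit 0) (nat_lit 544) (nat_lit 64) (@Lb.g g8 (@Lb.g g11 (@Lb.r r166 (@Lb.r r149 (@Lb.r r360 (@Lb.r r2567 (@Lb.d (nat_lit 641) (nat_lit 24) (nat_lit 258) (@Lb.fp (nat_lit 3) t71)))))))))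
noncomputable def l25338 : Lb := (@Lb.d (nat_lit 425) (nat_lit 88) (nat_lit 522) (@Lb.r r2389 (@Lb.r r2178 (@Lb.r r2339 (@Lb.g g5 (@Lb.g g8 (@Lb.d (nat_lit 322) (nat_lit 16) (nat_lit 0) (@Lb.fm (nat_lit 3) t229))))))))
noncomputable def l25339 : Lb := (@Lb.d (nat_lit 132) (nat_lit 5) (nat_lit 128) (@Lb.g g8 (@Lb.g g9 (@Lb.g g10 (@Lb.g g11 (@Lb.r r1706 (@Lb.r r1411 (@Lb.r r1177 (@Lb.r r1156 (@Lb.d (nat_lit 297) (nat_lit 89) (nat_lit 596) (@Lb.fm (nat_lit 9) t1833)))))))))))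
noncomputable def l25340 : Lb := (@Lb.d (nat_lit 134) (nat_lit 517) (nat_lit 74) (@Lb.g g8 (@Lb.g g9 (@Lb.g g10 (@Lb.g g11 (@Lb.r r1706 (@Lb.r r1411 (@Lb.r r1177 (@Lb.r r1156 (@Lb.d (nat_lit 297) (nat_lit 89) (nat_lit 596) (@Lb.fm (nat_lit 9) t1833)))))))))))
noncomputable def l25341 : Lb := (@Lb.r r21 (@Lb.d (nat_lit 144) (nat_lit 0) (nat_lit 130) (@Lb.g g8 (@Lb.g g10 (@Lb.g g11 (@Lb.r r2435 (@Lb.r r2180 (@Lb.r r1430 (@Lb.r r97 (@Lb.d (nat_lit 68) (nat_lit 38) (nat_lit 129) (@Lb.t (@Lb.fm (nat_lit 9) t3999))))))))))))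
noncomputable def l25342 : Lb := (@Lb.d (nat_lit 388) (nat_lit 257) (nat_lit 288) (@Lb.r r154 (@Lb.r r660 (@Lb.r r407 (@Lb.r r609 (@Lb.g g11 (@Lb.g g5 (@Lb.fp (nat_lit 3) t4871))))))))
noncomputable def l25343 : Lb := (@Lb.d (nat_lit 389) (nat_lit 6) (nat_lit 278) (@Lb.r r21 (@Lb.r r104 (@Lb.r r386 (@Lb.g g11 (@Lb.g g6 (@Lb.g g5 (@Lb.g g4 (@Lb.d (nat_lit 8) (nat_lit 0) (nat_lit 129) (@Lb.fm (nat_lit 9) t2681))))))))))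
noncomputable def l25344 : Lb := (@Lb.d (nat_lit 132) (nat_lit 512) (nat_lit 73) (@Lb.g g8 (@Lb.g g9 (@Lb.g g10 (@Lb.g g11 (@Lb.r r1706 (@Lb.r r1411 (@Lb.r r1177 (@Lb.r r1156 (@Lb.d (nat_lit 297) (nat_lit 89) (nat_lit 596) (@Lb.fm (nat_lit 9) t1692)))))))))))
noncomputable def l25345 : Lb := (@Lb.d (nat_lit 388) (nat_lit 513) (nat_lit 288) (@Lb.r r154 (@Lb.r r660 (@Lb.r r407 (@Lb.r r609 (@Lb.g g11 (@Lb.t (@Lb.fp (nat_lit 3) t2639))))))))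
noncomputable def l25346 : Lb := (@Lb.d (nat_lit 132) (nat_lit 517) (nat_lit 74) (@Lb.g g8 (@Lb.g g9 (@Lb.g g10 (@Lb.g g11 (@Lb.r r683 (@Lb.r r2724 (@Lb.r r1158 (@Lb.r r97 (@Lb.d (nat_lit 32) (nat_lit 105) (nat_lit 673) (@Lb.fm (nat_lit 9) t3408)))))))))))
noncomputable def l25347 : Lb := (@Lb.d (nat_lit 32) (nat_lit 258) (nat_lit 130) (@Lb.g g9 (@Lb.g g10 (@Lb.g g11 (@Lb.r r1447 (@Lb.r r293 (@Lb.r r72 (@Lb.r r150 (@Lb.d (nat_lit 533) (nat_lit 0) (nat_lit 408) (@Lb.t (@Lb.fp (nat_lit 9) t296)))))))))))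
noncomputable def l25348 : Lb := (@Lb.d (nat_lit 41) (nat_lit 512) (nat_lit 0) (@Lb.g g8 (@Lb.r r2471 (@Lb.r r422 (@Lb.r r1445 (@Lb.r r1620 (@Lb.d (nat_lit 406) (nat_lit 102) (nat_lit 544) (@Lb.t (@Lb.fp (nat_lit 3) t386)))))))))
noncomputable def l25349 : Lb := (@Lb.d (nat_lit 32) (nat_lit 512) (nat_lit 73) (@Lb.g g9 (@Lb.g g10 (@Lb.g g11 (@Lb.r r2695 (@Lb.r r1352 (@Lb.r r2390 (@Lb.r r289 (@Lb.d (nat_lit 665) (nat_lit 73) (nat_lit 362) (@Lb.t (@Lb.fp (nat_lit 9) t242)))))))))))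
noncomputable def l25350 : Lb := (@Lb.d (nat_lit 2) (nat_lit 2) (nat_lit 73) (@Lb.g g8 (@Lb.g g9 (@Lb.g g10 (@Lb.g g11 (@Lb.r r2729 (@Lb.r r2475 (@Lb.r r2468 (@Lb.r r2438 (@Lb.d (nat_lit 609) (nat_lit 10) (nat_lit 657) (@Lb.fp (nat_lit 9) t311)))))))))))
noncomputable def l25351 : Lb := (@Lb.d (nat_lit 8) (nat_lit 2) (nat_lit 73) (@Lb.g g9 (@Lb.g g10 (@Lb.g g11 (@Lb.r r586 (@Lb.r r328 (@Lb.r r535 (@Lb.r r289 (@Lb.d (nat_lit 8) (nat_lit 9) (nat_lit 137) (@Lb.t (@Lb.fp (nat_lit 9) t51)))))))))))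
noncomputable def l25352 : Lb := (@Lb.d (nat_lit 2) (nat_lit 514) (nat_lit 73) (@Lb.g g8 (@Lb.g g9 (@Lb.g g10 (@Lb.g g11 (@Lb.r r427 (@Lb.r r677 (@Lb.r r340 (@Lb.r r170 (@Lb.d (nat_lit 21) (nat_lit 8) (nat_lit 2) (@Lb.fp (nat_lit 9) t61)))))))))))
noncomputable def l25353 : Lb := (@Lb.r r21 (@Lb.d (nat_lit 34) (nat_lit 256) (nat_lit 129) (@Lb.g g8 (@Lb.g g10 (@Lb.g g11 (@Lb.r r651 (@Lb.r r293 (@Lb.r r644 (@Lb.r r614 (@Lb.d (nat_lit 148) (nat_lit 32) (nat_lit 134) (@Lb.t (@Lb.fm (nat_lit 9) t264))))))))))))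
noncomputable def l25354 : Lb := (@Lb.d (nat_lit 2) (nat_lit 514) (nat_lit 130) (@Lb.g g8 (@Lb.g g9 (@Lb.g g10 (@Lb.g g11 (@Lb.r r162 (@Lb.r r168 (@Lb.r r425 (@Lb.r r279 (@Lb.r r548 (@Lb.d (nat_lit 265) (nat_lit 9) (nat_lit 105) (@Lb.fm (nat_lit 9) t1636))))))))))))
noncomputable def l25355 : Lb := (@Lb.d (nat_lit 128) (nat_lit 257) (nat_lit 130) (@Lb.g g9 (@Lb.g g10 (@Lb.g g11 (@Lb.r r2705 (@Lb.r r292 (@Lb.r r539 (@Lb.r r2438 (@Lb.d (nat_lit 681) (nat_lit 66) (nat_lit 601) (@Lb.t (@Lb.fm (nat_lit 9) t1403)))))))))))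
noncomputable def l25356 : Lb := (@Lb.r r323 (@Lb.d (nat_lit 2) (nat_lit 258) (nat_lit 2) (@Lb.g g8 (@Lb.g g9 (@Lb.g g10 (@Lb.r r401 (@Lb.r r299 (@Lb.r r420 (@Lb.r r102 (@Lb.d (nat_lit 16) (nat_lit 4) (nat_lit 152) (@Lb.t (@Lb.fm (nat_lit 9) t4872))))))))))))
noncomputable def l25357 : Lb := (@Lb.r r21 (@Lb.r r323 (@Lb.d (nat_lit 136) (nat_lit 512) (nat_lit 2) (@Lb.g g8 (@Lb.g g10 (@Lb.r r2394 (@Lb.r r1685 (@Lb.r r1559 (@Lb.r r2312 (@Lb.d (nat_lit 393) (nat_lit 70) (nat_lit 657) (@Lb.fm (nat_lit 3) t51)))))))))))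
noncomputable def l25358 : Lb := (@Lb.r r81 (@Lb.d (nat_lit 10) (nat_lit 544) (nat_lit 10) (@Lb.g g8 (@Lb.g g10 (@Lb.g g11 (@Lb.r r353 (@Lb.r r535 (@Lb.r r420 (@Lb.d (nat_lit 89) (nat_lit 34) (nat_lit 154) (@Lb.t (@Lb.fm (nat_lit 9) t699)))))))))))
noncomputable def l25359 : Lb := (@Lb.r r81 (@Lb.d (nat_lit 10) (nat_lit 32) (nat_lit 74) (@Lb.g g8 (@Lb.g g10 (@Lb.g g11 (@Lb.r r353 (@Lb.r r535 (@Lb.r r420 (@Lb.d (nat_lit 89) (nat_lit 36) (nat_lit 152) (@Lb.t (@Lb.fm (nat_lit 9) t699)))))))))))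
noncomputable def l25360 : Lb := (@Lb.r r82 (@Lb.d (nat_lit 34) (nat_lit 258) (nat_lit 136) (@Lb.g g8 (@Lb.g g9 (@Lb.g g11 (@Lb.r r1362 (@Lb.r r2645 (@Lb.r r356 (@Lb.r r395 (@Lb.d (nat_lit 545) (nat_lit 41) (nat_lit 682) (@Lb.t (@Lb.fm (nat_lit 9) t98))))))))))))
noncomputable def l25361 : Lb := (@Lb.d (nat_lit 0) (nat_lit 258) (nat_lit 1) (@Lb.g g9 (@Lb.g g10 (@Lb.r r2210 (@Lb.r r145 (@Lb.d (nat_lit 0) (nat_lit 68) (nat_lit 16) (@Lb.fp (nat_lit 3) t543)))))))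
noncomputable def l25362 : Lb := (@Lb.d (nat_lit 678) (nat_lit 593) (nat_lit 676) (@Lb.r r2584 (@Lb.r r2587 (@Lb.r r1361 (@Lb.g g7 (@Lb.g g6 (@Lb.g g4 (@Lb.d (nat_lit 6) (nat_lit 0) (nat_lit 98) (@Lb.t (@Lb.fp (nat_lit 9) t1038))))))))))
noncomputable def l25363 : Lb := (@Lb.d (nat_lit 129) (nat_lit 512) (nat_lit 100) (@Lb.r r1109 (@Lb.r r331 (@Lb.r r264 (@Lb.g g7 (@Lb.g g6 (@Lb.d (nat_lit 64) (nat_lit 0) (nat_lit 98) (@Lb.fp (nat_lit 3) t1038))))))))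
noncomputable def l25364 : Lb := (@Lb.d (nat_lit 32) (nat_lit 2) (nat_lit 73) (@Lb.g g9 (@Lb.g g10 (@Lb.g g11 (@Lb.r r2695 (@Lb.r r293 (@Lb.r r1352 (@Lb.r r2710 (@Lb.d (nat_lit 677) (nat_lit 165) (nat_lit 336) (@Lb.t (@Lb.fm (nat_lit 9) t242)))))))))))
noncomputable def l25365 : Lb := (@Lb.d (nat_lit 1) (nat_lit 517) (nat_lit 618) (@Lb.r r330 (@Lb.r r360 (@Lb.r r1065 (@Lb.r r1571 (@Lb.g g6 (@Lb.g g5 (@Lb.g g4 (@Lb.d (nat_lit 6) (nat_lit 1) (nat_lit 5) (@Lb.t (@Lb.fm (nat_lit 9) t1008)))))))))))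
noncomputable def l25366 : Lb := (@Lb.d (nat_lit 2) (nat_lit 265) (nat_lit 10) (@Lb.g g8 (@Lb.g g9 (@Lb.g g10 (@Lb.r r1555 (@Lb.r r297 (@Lb.r r1700 (@Lb.r r1670 (@Lb.d (nat_lit 128) (nat_lit 5) (nat_lit 576) (@Lb.t (@Lb.fp (nat_lit 9) t2399)))))))))))
noncomputable def l25367 : Lb := (@Lb.d (nat_lit 281) (nat_lit 24) (nat_lit 96) (@Lb.r r105 (@Lb.r r612 (@Lb.r r583 (@Lb.g g6 (@Lb.g g5 (@Lb.g g4 (@Lb.d (nat_lit 65) (nat_lit 17) (nat_lit 33) (@Lb.r r387 (@Lb.t (@Lb.fp (nat_lit 9) t745)))))))))))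
noncomputable def l25368 : Lb := (@Lb.d (nat_lit 32) (nat_lit 2) (nat_lit 130) (@Lb.g g9 (@Lb.g g10 (@Lb.g g11 (@Lb.r r2695 (@Lb.r r297 (@Lb.r r1352 (@Lb.r r2662 (@Lb.d (nat_lit 664) (nat_lit 85) (nat_lit 356) (@Lb.t (@Lb.fp (nat_lit 9) t242)))))))))))
noncomputable def l25369 : Lb := (@Lb.d (nat_lit 2) (nat_lit 2) (nat_lit 130) (@Lb.g g8 (@Lb.g g9 (@Lb.g g10 (@Lb.g g11 (@Lb.r r1602 (@Lb.r r409 (@Lb.r r2659 (@Lb.r r2577 (@Lb.r r2564 (@Lb.d (nat_lit 640) (nat_lit 73) (nat_lit 386) (@Lb.fm (nat_lit 9) t322))))))))))))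
noncomputable def l25370 : Lb := (@Lb.d (nat_lit 2) (nat_lit 538) (nat_lit 1) (@Lb.g g8 (@Lb.g g9 (@Lb.g g10 (@Lb.g g11 (@Lb.r r1706 (@Lb.r r1700 (@Lb.r r1575 (@Lb.r r2085 (@Lb.d (nat_lit 520) (nat_lit 66) (nat_lit 394) (@Lb.fm (nat_lit 9) t858)))))))))))
noncomputable def l25371 : Lb := (@Lb.d (nat_lit 160) (nat_lit 0) (nat_lit 130) (@Lb.g g10 (@Lb.g g11 (@Lb.r r264 (@Lb.r r2647 (@Lb.r r1433 (@Lb.r r410 (@Lb.d (nat_lit 405) (nat_lit 153) (nat_lit 537) (@Lb.fp (nat_lit 3) t2344)))))))))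
noncomputable def l25372 : Lb := (@Lb.d (nat_lit 1) (nat_lit 522) (nat_lit 1) (@Lb.g g8 (@Lb.g g9 (@Lb.g g10 (@Lb.r r1707 (@Lb.r r2210 (@Lb.r r1561 (@Lb.r r2628 (@Lb.d (nat_lit 422) (nat_lit 137) (nat_lit 393) (@Lb.t (@Lb.fm (nat_lit 9) t876)))))))))))
noncomputable def l25373 : Lb := (@Lb.d (nat_lit 9) (nat_lit 257) (nat_lit 130) (@Lb.g g8 (@Lb.g g9 (@Lb.g g10 (@Lb.g g11 (@Lb.r r1379 (@Lb.r r386 (@Lb.r r40 (@Lb.r r105 (@Lb.r r1060 (@Lb.d (nat_lit 34) (nat_lit 10) (nat_lit 170) (@Lb.fm (nat_lit 9) t61))))))))))))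
noncomputable def l25374 : Lb := (@Lb.d (nat_lit 584) (nat_lit 64) (nat_lit 389) (@Lb.r r597 (@Lb.r r2666 (@Lb.r r2376 (@Lb.r r1671 (@Lb.g g7 (@Lb.g g6 (@Lb.g g5 (@Lb.d (nat_lit 4) (nat_lit 1) (nat_lit 70) (@Lb.t (@Lb.fp (nat_lit 9) t1634)))))))))))
noncomputable def l25375 : Lb := (@Lb.r r82 (@Lb.r r275 (@Lb.d (nat_lit 2) (nat_lit 0) (nat_lit 0) (@Lb.g g8 (@Lb.g g9 (@Lb.r r299 (@Lb.r r106 (@Lb.r r25 (@Lb.r r24 (@Lb.d (nat_lit 9) (nat_lit 66) (nat_lit 0) (@Lb.fp (nat_lit 3) t755)))))))))))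
noncomputable def l25376 : Lb := (@Lb.d (nat_lit 2) (nat_lit 258) (nat_lit 130) (@Lb.g g8 (@Lb.g g9 (@Lb.g g10 (@Lb.g g11 (@Lb.r r516 (@Lb.r r263 (@Lb.r r618 (@Lb.r r97 (@Lb.r r516 (@Lb.d (nat_lit 538) (nat_lit 9) (nat_lit 146) (@Lb.fm (nat_lit 9) t4873))))))))))))
noncomputable def l25377 : Lb := (@Lb.r r82 (@Lb.d (nat_lit 34) (nat_lit 266) (nat_lit 128) (@Lb.g g8 (@Lb.g g9 (@Lb.g g11 (@Lb.r r402 (@Lb.r r359 (@Lb.r r660 (@Lb.r r169 (@Lb.d (nat_lit 538) (nat_lit 18) (nat_lit 152) (@Lb.t (@Lb.fm (nat_lit 9) t2042))))))))))))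
noncomputable def l25378 : Lb := (@Lb.d (nat_lit 1) (nat_lit 512) (nat_lit 129) (@Lb.g g4 (@Lb.g g9 (@Lb.g g10 (@Lb.g g11 (@Lb.r r1634 (@Lb.r r2659 (@Lb.r r1633 (@Lb.d (nat_lit 1) (nat_lit 146) (nat_lit 384) (@Lb.fm (nat_lit 9) t751))))))))))
noncomputable def l25379 : Lb := (@Lb.d (nat_lit 593) (nat_lit 10) (nat_lit 600) (@Lb.r r1158 (@Lb.r r2136 (@Lb.r r1445 (@Lb.r r1363 (@Lb.g g7 (@Lb.g g6 (@Lb.g g5 (@Lb.d (nat_lit 0) (nat_lit 33) (nat_lit 64) (@Lb.t (@Lb.fm (nat_lit 9) t2132)))))))))))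
noncomputable def l25380 : Lb := (@Lb.d (nat_lit 128) (nat_lit 256) (nat_lit 145) (@Lb.g g10 (@Lb.g g11 (@Lb.r r264 (@Lb.r r391 (@Lb.r r2201 (@Lb.d (nat_lit 66) (nat_lit 0) (nat_lit 152) (@Lb.fp (nat_lit 3) t417))))))))
noncomputable def l25381 : Lb := (@Lb.d (nat_lit 9) (nat_lit 256) (nat_lit 145) (@Lb.g g8 (@Lb.g g10 (@Lb.g g11 (@Lb.r r2705 (@Lb.r r2587 (@Lb.r r2584 (@Lb.d (nat_lit 345) (nat_lit 162) (nat_lit 401) (@Lb.t (@Lb.fm (nat_lit 9) t417))))))))))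
noncomputable def l25382 : Lb := (@Lb.d (nat_lit 4) (nat_lit 256) (nat_lit 130) (@Lb.g g8 (@Lb.g g9 (@Lb.g g10 (@Lb.g g11 (@Lb.r r2411 (@Lb.r r386 (@Lb.r r97 (@Lb.r r24 (@Lb.d (nat_lit 265) (nat_lit 9) (nat_lit 152) (@Lb.fm (nat_lit 9) t61)))))))))))
noncomputable def l25383 : Lb := (@Lb.d (nat_lit 9) (nat_lit 154) (nat_lit 553) (@Lb.r r2705 (@Lb.r r2714 (@Lb.r r1444 (@Lb.r r2395 (@Lb.g g7 (@Lb.g g6 (@Lb.g g5 (@Lb.d (nat_lit 4) (nat_lit 1) (nat_lit 134) (@Lb.t (@Lb.fm (nat_lit 9) t125)))))))))))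
noncomputable def l25384 : Lb := (@Lb.d (nat_lit 6) (nat_lit 322) (nat_lit 512) (@Lb.r r1313 (@Lb.r r2327 (@Lb.r r584 (@Lb.r r326 (@Lb.g g7 (@Lb.g g6 (@Lb.g g5 (@Lb.d (nat_lit 0) (nat_lit 1) (nat_lit 8) (@Lb.t (@Lb.fp (nat_lit 9) t125)))))))))))
noncomputable def l25385 : Lb := (@Lb.d (nat_lit 0) (nat_lit 512) (nat_lit 137) (@Lb.g g10 (@Lb.g g11 (@Lb.r r2435 (@Lb.r r386 (@Lb.d (nat_lit 6) (nat_lit 1) (nat_lit 420) (@Lb.fp (nat_lit 3) t2)))))))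
noncomputable def l25386 : Lb := (@Lb.d (nat_lit 4) (nat_lit 512) (nat_lit 130) (@Lb.g g8 (@Lb.g g9 (@Lb.g g10 (@Lb.g g11 (@Lb.r r2411 (@Lb.r r386 (@Lb.r r97 (@Lb.r r24 (@Lb.d (nat_lit 258) (nat_lit 0) (nat_lit 153) (@Lb.fm (nat_lit 9) t61)))))))))))
noncomputable def l25387 : Lb := (@Lb.d (nat_lit 1) (nat_lit 512) (nat_lit 128) (@Lb.g g8 (@Lb.g g11 (@Lb.r r337 (@Lb.r r683 (@Lb.r r680 (@Lb.r r170 (@Lb.r r153 (@Lb.d (nat_lit 530) (nat_lit 0) (nat_lit 85) (@Lb.fp (nat_lit 3) t1607))))))))))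
noncomputable def l25388 : Lb := (@Lb.d (nat_lit 0) (nat_lit 548) (nat_lit 4) (@Lb.r r675 (@Lb.r r2658 (@Lb.r r2649 (@Lb.r r1428 (@Lb.g g7 (@Lb.d (nat_lit 128) (nat_lit 0) (nat_lit 132) (@Lb.t (@Lb.fp (nat_lit 3) t2656)))))))))
noncomputable def l25389 : Lb := (@Lb.r r21 (@Lb.d (nat_lit 2) (nat_lit 0) (nat_lit 74) (@Lb.g g8 (@Lb.g g10 (@Lb.g g11 (@Lb.r r387 (@Lb.r r2122 (@Lb.r r2580 (@Lb.r r25 (@Lb.d (nat_lit 328) (nat_lit 134) (nat_lit 325) (@Lb.t (@Lb.fm (nat_lit 9) t2733))))))))))))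
noncomputable def l25390 : Lb := (@Lb.d (nat_lit 2) (nat_lit 38) (nat_lit 581) (@Lb.g g8 (@Lb.g g9 (@Lb.g g10 (@Lb.g g7 (@Lb.r r418 (@Lb.r r2088 (@Lb.r r2201 (@Lb.d (nat_lit 598) (nat_lit 102) (nat_lit 273) (@Lb.fm (nat_lit 9) t1001))))))))))
noncomputable def l25391 : Lb := (@Lb.d (nat_lit 2) (nat_lit 513) (nat_lit 128) (@Lb.g g8 (@Lb.g g9 (@Lb.g g10 (@Lb.g g11 (@Lb.r r1671 (@Lb.r r1681 (@Lb.r r2404 (@Lb.r r1178 (@Lb.d (nat_lit 166) (nat_lit 73) (nat_lit 84) (@Lb.fp (nat_lit 9) t646)))))))))))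
noncomputable def l25392 : Lb := (@Lb.d (nat_lit 394) (nat_lit 160) (nat_lit 276) (@Lb.r r1705 (@Lb.r r683 (@Lb.r r2666 (@Lb.r r1380 (@Lb.g g7 (@Lb.g g5 (@Lb.d (nat_lit 68) (nat_lit 5) (nat_lit 128) (@Lb.fm (nat_lit 3) t2656)))))))))
noncomputable def l25393 : Lb := (@Lb.r r1124 (@Lb.d (nat_lit 0) (nat_lit 262) (nat_lit 16) (@Lb.fp (nat_lit 1) t2893)))
noncomputable def l25394 : Lb := (@Lb.d (nat_lit 0) (nat_lit 266) (nat_lit 129) (@Lb.g g9 (@Lb.g g10 (@Lb.g g11 (@Lb.r r2339 (@Lb.r r578 (@Lb.r r2341 (@Lb.r r24 (@Lb.d (nat_lit 146) (nat_lit 0) (nat_lit 534) (@Lb.t (@Lb.fm (nat_lit 9) t200)))))))))))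
noncomputable def l25395 : Lb := (@Lb.d (nat_lit 2) (nat_lit 514) (nat_lit 130) (@Lb.g g8 (@Lb.g g9 (@Lb.g g10 (@Lb.g g11 (@Lb.r r427 (@Lb.r r420 (@Lb.r r102 (@Lb.r r21 (@Lb.r r36 (@Lb.d (nat_lit 26) (nat_lit 4) (nat_lit 136) (@Lb.fp (nat_lit 9) t61))))))))))))
noncomputable def l25396 : Lb := (@Lb.d (nat_lit 138) (nat_lit 582) (nat_lit 136) (@Lb.r r673 (@Lb.r r362 (@Lb.r r84 (@Lb.r r323 (@Lb.g g7 (@Lb.g g6 (@Lb.g g5 (@Lb.d (nat_lit 4) (nat_lit 6) (nat_lit 65) (@Lb.t (@Lb.fm (nat_lit 9) t601)))))))))))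
noncomputable def l25397 : Lb := (@Lb.d (nat_lit 2) (nat_lit 289) (nat_lit 514) (@Lb.g g8 (@Lb.g g9 (@Lb.g g10 (@Lb.g g7 (@Lb.r r418 (@Lb.r r296 (@Lb.r r409 (@Lb.d (nat_lit 149) (nat_lit 148) (nat_lit 393) (@Lb.fm (nat_lit 9) t1702))))))))))
noncomputable def l25398 : Lb := (@Lb.r r323 (@Lb.d (nat_lit 2) (nat_lit 545) (nat_lit 42) (@Lb.g g8 (@Lb.g g9 (@Lb.g g6 (@Lb.r r292 (@Lb.r r411 (@Lb.r r533 (@Lb.d (nat_lit 645) (nat_lit 160) (nat_lit 74) (@Lb.t (@Lb.fp (nat_lit 9) t386)))))))))))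
noncomputable def l25399 : Lb := (@Lb.d (nat_lit 2) (nat_lit 2) (nat_lit 130) (@Lb.g g8 (@Lb.g g9 (@Lb.g g10 (@Lb.g g11 (@Lb.r r427 (@Lb.r r424 (@Lb.r r106 (@Lb.r r97 (@Lb.d (nat_lit 538) (nat_lit 9) (nat_lit 34) (@Lb.fp (nat_lit 9) t4492)))))))))))
noncomputable def l25400 : Lb := (@Lb.d (nat_lit 2) (nat_lit 2) (nat_lit 130) (@Lb.g g8 (@Lb.g g9 (@Lb.g g10 (@Lb.g g11 (@Lb.r r2691 (@Lb.r r2665 (@Lb.r r1686 (@Lb.r r1124 (@Lb.d (nat_lit 664) (nat_lit 128) (nat_lit 346) (@Lb.fm (nat_lit 9) t2890)))))))))))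
noncomputable def l25401 : Lb := (@Lb.d (nat_lit 2) (nat_lit 265) (nat_lit 129) (@Lb.g g8 (@Lb.g g9 (@Lb.g g10 (@Lb.g g11 (@Lb.r r427 (@Lb.r r424 (@Lb.r r106 (@Lb.r r97 (@Lb.d (nat_lit 538) (nat_lit 9) (nat_lit 34) (@Lb.fp (nat_lit 9) t4791)))))))))))
noncomputable def l25402 : Lb := (@Lb.r r82 (@Lb.d (nat_lit 2) (nat_lit 2) (nat_lit 128) (@Lb.g g8 (@Lb.g g9 (@Lb.g g11 (@Lb.r r299 (@Lb.r r296 (@Lb.r r89 (@Lb.r r98 (@Lb.d (nat_lit 550) (nat_lit 1) (nat_lit 33) (@Lb.t (@Lb.fp (nat_lit 9) t4791))))))))))))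
noncomputable def l25403 : Lb := (@Lb.r r2130 (@Lb.r r2323 (@Lb.d (nat_lit 2) (nat_lit 386) (nat_lit 0) (@Lb.g g8 (@Lb.g g5 (@Lb.r r24 (@Lb.d (nat_lit 10) (nat_lit 0) (nat_lit 0) (@Lb.fm (nat_lit 3) t68))))))))
noncomputable def l25404 : Lb := (@Lb.d (nat_lit 537) (nat_lit 2) (nat_lit 17) (@Lb.r r2186 (@Lb.r r2692 (@Lb.r r2727 (@Lb.r r609 (@Lb.g g6 (@Lb.d (nat_lit 0) (nat_lit 4) (nat_lit 1) (@Lb.t (@Lb.fp (nat_lit 3) t406)))))))))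
noncomputable def l25405 : Lb := (@Lb.d (nat_lit 273) (nat_lit 10) (nat_lit 16) (@Lb.r r154 (@Lb.r r660 (@Lb.r r1621 (@Lb.r r2599 (@Lb.g g10 (@Lb.g g5 (@Lb.fp (nat_lit 3) t603))))))))
noncomputable def l25406 : Lb := (@Lb.d (nat_lit 2) (nat_lit 258) (nat_lit 9) (@Lb.g g8 (@Lb.g g9 (@Lb.g g6 (@Lb.r r515 (@Lb.r r97 (@Lb.r r24 (@Lb.d (nat_lit 10) (nat_lit 9) (nat_lit 128) (@Lb.t (@Lb.fm (nat_lit 9) t40))))))))))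
noncomputable def l25407 : Lb := (@Lb.d (nat_lit 0) (nat_lit 258) (nat_lit 2) (@Lb.g g8 (@Lb.g g9 (@Lb.g g10 (@Lb.g g7 (@Lb.r r297 (@Lb.r r104 (@Lb.r r70 (@Lb.r r132 (@Lb.d (nat_lit 130) (nat_lit 90) (nat_lit 265) (@Lb.fm (nat_lit 9) t1190)))))))))))
noncomputable def l25408 : Lb := (@Lb.r r275 (@Lb.d (nat_lit 66) (nat_lit 258) (nat_lit 2) (@Lb.g g8 (@Lb.g g9 (@Lb.g g10 (@Lb.r r403 (@Lb.r r405 (@Lb.r r342 (@Lb.r r676 (@Lb.d (nat_lit 168) (nat_lit 22) (nat_lit 132) (@Lb.t (@Lb.fm (nat_lit 9) t50))))))))))))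
noncomputable def l25409 : Lb := (@Lb.r r275 (@Lb.d (nat_lit 0) (nat_lit 128) (nat_lit 2) (@Lb.g g9 (@Lb.g g6 (@Lb.r r291 (@Lb.r r1410 (@Lb.d (nat_lit 0) (nat_lit 64) (nat_lit 618) (@Lb.fm (nat_lit 3) t1))))))))
noncomputable def l25410 : Lb := (@Lb.r r273 (@Lb.d (nat_lit 10) (nat_lit 256) (nat_lit 578) (@Lb.g g8 (@Lb.g g10 (@Lb.g g7 (@Lb.r r2401 (@Lb.r r1366 (@Lb.r r2724 (@Lb.d (nat_lit 360) (nat_lit 166) (nat_lit 598) (@Lb.t (@Lb.fm (nat_lit 9) t144)))))))))))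
noncomputable def l25411 : Lb := (@Lb.d (nat_lit 0) (nat_lit 546) (nat_lit 66) (@Lb.g g9 (@Lb.g g10 (@Lb.g g11 (@Lb.r r387 (@Lb.r r1634 (@Lb.r r1553 (@Lb.d (nat_lit 0) (nat_lit 21) (nat_lit 585) (@Lb.t (@Lb.fm (nat_lit 9) t96))))))))))
noncomputable def l25412 : Lb := (@Lb.r r532 (@Lb.d (nat_lit 4) (nat_lit 164) (nat_lit 0) (@Lb.g g9 (@Lb.g g10 (@Lb.g g11 (@Lb.r r2388 (@Lb.r r2651 (@Lb.r r2658 (@Lb.d (nat_lit 402) (nat_lit 89) (nat_lit 660) (@Lb.t (@Lb.fp (nat_lit 9) t4874)))))))))))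
noncomputable def l25413 : Lb := (@Lb.d (nat_lit 129) (nat_lit 277) (nat_lit 138) (@Lb.g g8 (@Lb.g g9 (@Lb.g g10 (@Lb.g g11 (@Lb.r r683 (@Lb.r r1642 (@Lb.r r2073 (@Lb.r r516 (@Lb.d (nat_lit 329) (nat_lit 41) (nat_lit 585) (@Lb.fm (nat_lit 9) t4874)))))))))))
noncomputable def l25414 : Lb := (@Lb.d (nat_lit 645) (nat_lit 17) (nat_lit 593) (@Lb.r r21 (@Lb.r r100 (@Lb.r r386 (@Lb.r r2387 (@Lb.g g7 (@Lb.g g6 (@Lb.g g5 (@Lb.d (nat_lit 0) (nat_lit 1) (nat_lit 129) (@Lb.t (@Lb.fm (nat_lit 9) t4875)))))))))))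
noncomputable def l25415 : Lb := (@Lb.d (nat_lit 128) (nat_lit 272) (nat_lit 392) (@Lb.g g11 (@Lb.r r1114 (@Lb.r r2088 (@Lb.r r1065 (@Lb.d (nat_lit 356) (nat_lit 102) (nat_lit 530) (@Lb.t (@Lb.fp (nat_lit 3) t583))))))))
noncomputable def l25416 : Lb := (@Lb.r r21 (@Lb.r r263 (@Lb.d (nat_lit 290) (nat_lit 260) (nat_lit 1) (@Lb.g g8 (@Lb.g g10 (@Lb.r r665 (@Lb.r r1367 (@Lb.r r1674 (@Lb.d (nat_lit 641) (nat_lit 0) (nat_lit 261) (@Lb.fp (nat_lit 3) t4835))))))))))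
noncomputable def l25417 : Lb := (@Lb.d (nat_lit 128) (nat_lit 514) (nat_lit 73) (@Lb.g g8 (@Lb.g g9 (@Lb.g g10 (@Lb.g g11 (@Lb.r r2315 (@Lb.r r1382 (@Lb.r r664 (@Lb.r r1557 (@Lb.r r1060 (@Lb.d (nat_lit 648) (nat_lit 146) (nat_lit 600) (@Lb.fm (nat_lit 9) t2350))))))))))))
noncomputable def l25418 : Lb := (@Lb.r r82 (@Lb.d (nat_lit 128) (nat_lit 256) (nat_lit 392) (@Lb.g g9 (@Lb.g g11 (@Lb.r r1098 (@Lb.r r1428 (@Lb.r r601 (@Lb.d (nat_lit 354) (nat_lit 128) (nat_lit 137) (@Lb.fm (nat_lit 3) t367)))))))))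
noncomputable def l25419 : Lb := (@Lb.d (nat_lit 0) (nat_lit 9) (nat_lit 96) (@Lb.r r2194 (@Lb.r r101 (@Lb.r r1304 (@Lb.g g7 (@Lb.d (nat_lit 64) (nat_lit 0) (nat_lit 328) (@Lb.t (@Lb.fp (nat_lit 3) t355))))))))
noncomputable def l25420 : Lb := (@Lb.d (nat_lit 550) (nat_lit 10) (nat_lit 2) (@Lb.r r70 (@Lb.r r263 (@Lb.g g8 (@Lb.d (nat_lit 281) (nat_lit 0) (nat_lit 0) (@Lb.r r267 (@Lb.r r74 (@Lb.t (@Lb.fp (nat_lit 3) t3619)))))))))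
noncomputable def l25421 : Lb := (@Lb.d (nat_lit 0) (nat_lit 40) (nat_lit 72) (@Lb.r r37 (@Lb.r r411 (@Lb.r r344 (@Lb.g g7 (@Lb.g g6 (@Lb.d (nat_lit 64) (nat_lit 0) (nat_lit 150) (@Lb.r r145 (@Lb.fm (nat_lit 3) t590)))))))))
noncomputable def l25422 : Lb := (@Lb.d (nat_lit 2) (nat_lit 260) (nat_lit 128) (@Lb.g g8 (@Lb.g g9 (@Lb.g g10 (@Lb.g g11 (@Lb.r r2667 (@Lb.r r162 (@Lb.r r660 (@Lb.r r425 (@Lb.r r2084 (@Lb.d (nat_lit 153) (nat_lit 73) (nat_lit 361) (@Lb.fm (nat_lit 9) t261))))))))))))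
noncomputable def l25423 : Lb := (@Lb.d (nat_lit 0) (nat_lit 548) (nat_lit 66) (@Lb.g g9 (@Lb.g g10 (@Lb.g g11 (@Lb.r r2723 (@Lb.r r673 (@Lb.r r1186 (@Lb.r r145 (@Lb.d (nat_lit 0) (nat_lit 148) (nat_lit 152) (@Lb.t (@Lb.fp (nat_lit 9) t256)))))))))))
noncomputable def l25424 : Lb := (@Lb.r r275 (@Lb.d (nat_lit 0) (nat_lit 261) (nat_lit 5) (@Lb.g g9 (@Lb.g g6 (@Lb.r r2659 (@Lb.r r1553 (@Lb.d (nat_lit 0) (nat_lit 2) (nat_lit 385) (@Lb.fm (nat_lit 3) t256))))))))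
noncomputable def l25425 : Lb := (@Lb.r r323 (@Lb.d (nat_lit 8) (nat_lit 554) (nat_lit 17) (@Lb.g g9 (@Lb.g g10 (@Lb.r r1624 (@Lb.r r1691 (@Lb.r r2385 (@Lb.d (nat_lit 256) (nat_lit 150) (nat_lit 676) (@Lb.fm (nat_lit 3) t1152)))))))))
noncomputable def l25426 : Lb := (@Lb.d (nat_lit 298) (nat_lit 330) (nat_lit 5) (@Lb.r r1124 (@Lb.r r1045 (@Lb.r r386 (@Lb.g g11 (@Lb.g g6 (@Lb.g g5 (@Lb.g g4 (@Lb.d (nat_lit 4) (nat_lit 1) (nat_lit 129) (@Lb.fp (nat_lit 9) t68))))))))))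
noncomputable def l25427 : Lb := (@Lb.d (nat_lit 2) (nat_lit 2) (nat_lit 2) (@Lb.g g8 (@Lb.g g9 (@Lb.g g10 (@Lb.g g11 (@Lb.r r148 (@Lb.r r102 (@Lb.r r357 (@Lb.r r667 (@Lb.r r644 (@Lb.d (nat_lit 9) (nat_lit 2) (nat_lit 74) (@Lb.fp (nat_lit 9) t2))))))))))))
noncomputable def l25428 : Lb := (@Lb.r r82 (@Lb.r r275 (@Lb.d (nat_lit 2) (nat_lit 256) (nat_lit 0) (@Lb.g g8 (@Lb.g g9 (@Lb.r r1291 (@Lb.r r1098 (@Lb.r r1044 (@Lb.r r25 (@Lb.d (nat_lit 258) (nat_lit 2) (nat_lit 0) (@Lb.fm (nat_lit 3) t367)))))))))))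
noncomputable def l25429 : Lb := (@Lb.d (nat_lit 2) (nat_lit 640) (nat_lit 0) (@Lb.r r20 (@Lb.r r1049 (@Lb.r r1098 (@Lb.r r1291 (@Lb.g g8 (@Lb.t (@Lb.fp (nat_lit 3) t428))))))))
noncomputable def l25430 : Lb := (@Lb.r r82 (@Lb.d (nat_lit 2) (nat_lit 265) (nat_lit 0) (@Lb.g g8 (@Lb.g g9 (@Lb.g g11 (@Lb.r r359 (@Lb.r r154 (@Lb.r r81 (@Lb.d (nat_lit 32) (nat_lit 6) (nat_lit 1) (@Lb.t (@Lb.fp (nat_lit 9) t546)))))))))))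
noncomputable def l25431 : Lb := (@Lb.r r82 (@Lb.d (nat_lit 2) (nat_lit 0) (nat_lit 128) (@Lb.g g8 (@Lb.g g9 (@Lb.g g11 (@Lb.r r1419 (@Lb.r r1098 (@Lb.r r1428 (@Lb.r r601 (@Lb.d (nat_lit 354) (nat_lit 128) (nat_lit 132) (@Lb.t (@Lb.fm (nat_lit 9) t367))))))))))))
noncomputable def l25432 : Lb := (@Lb.r r82 (@Lb.d (nat_lit 2) (nat_lit 40) (nat_lit 128) (@Lb.g g8 (@Lb.g g9 (@Lb.g g11 (@Lb.r r663 (@Lb.r r2386 (@Lb.r r1689 (@Lb.d (nat_lit 536) (nat_lit 106) (nat_lit 384) (@Lb.t (@Lb.fp (nat_lit 9) t2341)))))))))))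
noncomputable def l25433 : Lb := (@Lb.d (nat_lit 32) (nat_lit 512) (nat_lit 2) (@Lb.g g10 (@Lb.r r2627 (@Lb.r r1304 (@Lb.r r1637 (@Lb.r r1426 (@Lb.d (nat_lit 0) (nat_lit 80) (nat_lit 394) (@Lb.t (@Lb.fp (nat_lit 3) t307)))))))))
noncomputable def l25434 : Lb := (@Lb.d (nat_lit 512) (nat_lit 512) (nat_lit 0) (@Lb.r r1045 (@Lb.g g4 (@Lb.t (@Lb.fm (nat_lit 3) t2)))))
noncomputable def l25435 : Lb := (@Lb.r r664 (@Lb.r r667 (@Lb.r r1690 (@Lb.r r1365 (@Lb.r r2212 (@Lb.d (nat_lit 0) (nat_lit 512) (nat_lit 512) (@Lb.fm (nat_lit 1) t322)))))))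
noncomputable def l25436 : Lb := (@Lb.d (nat_lit 1) (nat_lit 658) (nat_lit 389) (@Lb.r r579 (@Lb.r r1362 (@Lb.g g7 (@Lb.g g6 (@Lb.g g5 (@Lb.d (nat_lit 4) (nat_lit 1) (nat_lit 70) (@Lb.t (@Lb.fm (nat_lit 9) t285)))))))))
noncomputable def l25437 : Lb := (@Lb.d (nat_lit 1) (nat_lit 402) (nat_lit 320) (@Lb.r r579 (@Lb.r r1362 (@Lb.g g7 (@Lb.g g6 (@Lb.g g5 (@Lb.d (nat_lit 4) (nat_lit 1) (nat_lit 1) (@Lb.t (@Lb.fm (nat_lit 9) t285)))))))))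
noncomputable def l25438 : Lb := (@Lb.d (nat_lit 130) (nat_lit 290) (nat_lit 0) (@Lb.g g8 (@Lb.g g9 (@Lb.r r2695 (@Lb.r r2178 (@Lb.r r408 (@Lb.r r2085 (@Lb.d (nat_lit 16) (nat_lit 161) (nat_lit 640) (@Lb.fm (nat_lit 3) t4876)))))))))
noncomputable def l25439 : Lb := (@Lb.r r273 (@Lb.d (nat_lit 2) (nat_lit 256) (nat_lit 2) (@Lb.g g8 (@Lb.g g10 (@Lb.g g11 (@Lb.r r651 (@Lb.r r1668 (@Lb.r r1158 (@Lb.d (nat_lit 546) (nat_lit 0) (nat_lit 153) (@Lb.t (@Lb.fm (nat_lit 9) t1470)))))))))))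
noncomputable def l25440 : Lb := (@Lb.d (nat_lit 130) (nat_lit 34) (nat_lit 0) (@Lb.g g8 (@Lb.g g9 (@Lb.r r2695 (@Lb.r r2178 (@Lb.r r408 (@Lb.r r2085 (@Lb.d (nat_lit 16) (nat_lit 166) (nat_lit 641) (@Lb.fm (nat_lit 3) t4876)))))))))
noncomputable def l25441 : Lb := (@Lb.d (nat_lit 261) (nat_lit 641) (nat_lit 128) (@Lb.r r2085 (@Lb.r r1112 (@Lb.r r422 (@Lb.g g11 (@Lb.g g5 (@Lb.d (nat_lit 0) (nat_lit 17) (nat_lit 392) (@Lb.r r578 (@Lb.fm (nat_lit 3) t2713)))))))))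
noncomputable def l25442 : Lb := (@Lb.d (nat_lit 553) (nat_lit 680) (nat_lit 166) (@Lb.r r1621 (@Lb.r r2344 (@Lb.r r1442 (@Lb.g g11 (@Lb.g g6 (@Lb.g g5 (@Lb.d (nat_lit 0) (nat_lit 33) (nat_lit 389) (@Lb.t (@Lb.fm (nat_lit 9) t2290))))))))))
noncomputable def l25443 : Lb := (@Lb.d (nat_lit 132) (nat_lit 273) (nat_lit 66) (@Lb.r r536 (@Lb.r r97 (@Lb.r r363 (@Lb.g g10 (@Lb.g g4 (@Lb.d (nat_lit 65) (nat_lit 8) (nat_lit 1) (@Lb.r r25 (@Lb.fp (nat_lit 3) t607)))))))))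
noncomputable def l25444 : Lb := (@Lb.r r82 (@Lb.d (nat_lit 129) (nat_lit 385) (nat_lit 64) (@Lb.g g8 (@Lb.g g5 (@Lb.g g11 (@Lb.r r1560 (@Lb.r r2587 (@Lb.r r98 (@Lb.d (nat_lit 138) (nat_lit 82) (nat_lit 256) (@Lb.t (@Lb.fp (nat_lit 9) t3754)))))))))))
noncomputable def l25445 : Lb := (@Lb.d (nat_lit 10) (nat_lit 6) (nat_lit 128) (@Lb.g g8 (@Lb.g g9 (@Lb.g g10 (@Lb.g g11 (@Lb.r r516 (@Lb.r r263 (@Lb.r r618 (@Lb.r r97 (@Lb.r r516 (@Lb.d (nat_lit 9) (nat_lit 9) (nat_lit 129) (@Lb.fm (nat_lit 9) t1400))))))))))))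
noncomputable def l25446 : Lb := (@Lb.d (nat_lit 129) (nat_lit 2) (nat_lit 130) (@Lb.g g8 (@Lb.g g9 (@Lb.g g10 (@Lb.g g11 (@Lb.r r1689 (@Lb.r r1688 (@Lb.r r395 (@Lb.r r386 (@Lb.d (nat_lit 550) (nat_lit 106) (nat_lit 328) (@Lb.fp (nat_lit 9) t4877)))))))))))
noncomputable def l25447 : Lb := (@Lb.d (nat_lit 0) (nat_lit 21) (nat_lit 281) (@Lb.r r1362 (@Lb.g g7 (@Lb.g g6 (@Lb.g g5 (@Lb.d (nat_lit 0) (nat_lit 0) (nat_lit 134) (@Lb.t (@Lb.fp (nat_lit 9) t1369))))))))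
noncomputable def l25448 : Lb := (@Lb.d (nat_lit 32) (nat_lit 256) (nat_lit 130) (@Lb.g g10 (@Lb.g g11 (@Lb.r r1411 (@Lb.r r1304 (@Lb.r r1637 (@Lb.r r1426 (@Lb.d (nat_lit 1) (nat_lit 85) (nat_lit 392) (@Lb.fp (nat_lit 3) t268)))))))))
noncomputable def l25449 : Lb := (@Lb.d (nat_lit 145) (nat_lit 321) (nat_lit 70) (@Lb.r r2129 (@Lb.r r331 (@Lb.r r264 (@Lb.g g7 (@Lb.g g10 (@Lb.g g5 (@Lb.d (nat_lit 64) (nat_lit 5) (nat_lit 146) (@Lb.t (@Lb.fp (nat_lit 9) t4878))))))))))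
noncomputable def l25450 : Lb := (@Lb.r r322 (@Lb.d (nat_lit 128) (nat_lit 681) (nat_lit 0) (@Lb.g g5 (@Lb.g g11 (@Lb.r r2646 (@Lb.r r1448 (@Lb.r r2647 (@Lb.d (nat_lit 128) (nat_lit 104) (nat_lit 394) (@Lb.fp (nat_lit 3) t4878)))))))))
noncomputable def l25451 : Lb := (@Lb.d (nat_lit 0) (nat_lit 517) (nat_lit 1) (@Lb.r r134 (@Lb.r r328 (@Lb.r r279 (@Lb.r r545 (@Lb.g g7 (@Lb.t (@Lb.fp (nat_lit 3) t71))))))))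
noncomputable def l25452 : Lb := (@Lb.d (nat_lit 266) (nat_lit 389) (nat_lit 144) (@Lb.r r153 (@Lb.r r2118 (@Lb.r r1416 (@Lb.g g11 (@Lb.g g6 (@Lb.g g5 (@Lb.d (nat_lit 128) (nat_lit 17) (nat_lit 385) (@Lb.t (@Lb.fp (nat_lit 9) t4879))))))))))
noncomputable def l25453 : Lb := (@Lb.r r323 (@Lb.d (nat_lit 2) (nat_lit 2) (nat_lit 2) (@Lb.g g8 (@Lb.g g9 (@Lb.g g10 (@Lb.r r2667 (@Lb.r r161 (@Lb.r r610 (@Lb.r r24 (@Lb.d (nat_lit 266) (nat_lit 16) (nat_lit 69) (@Lb.t (@Lb.fp (nat_lit 9) t4590))))))))))))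
noncomputable def l25454 : Lb := (@Lb.r r70 (@Lb.d (nat_lit 129) (nat_lit 514) (nat_lit 136) (@Lb.g g8 (@Lb.g g9 (@Lb.g g11 (@Lb.r r1430 (@Lb.r r1049 (@Lb.r r1048 (@Lb.d (nat_lit 149) (nat_lit 17) (nat_lit 673) (@Lb.t (@Lb.fm (nat_lit 9) t4880)))))))))))
noncomputable def l25455 : Lb := (@Lb.d (nat_lit 16) (nat_lit 514) (nat_lit 138) (@Lb.g g8 (@Lb.g g9 (@Lb.g g10 (@Lb.g g11 (@Lb.r r2666 (@Lb.r r612 (@Lb.r r2069 (@Lb.r r1060 (@Lb.d (nat_lit 521) (nat_lit 146) (nat_lit 88) (@Lb.fp (nat_lit 9) t4880)))))))))))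
noncomputable def l25456 : Lb := (@Lb.d (nat_lit 160) (nat_lit 2) (nat_lit 129) (@Lb.g g8 (@Lb.g g9 (@Lb.g g10 (@Lb.g g11 (@Lb.r r2315 (@Lb.r r1177 (@Lb.r r1176 (@Lb.r r586 (@Lb.d (nat_lit 97) (nat_lit 37) (nat_lit 32) (@Lb.fm (nat_lit 9) t4881)))))))))))
noncomputable def l25457 : Lb := (@Lb.r r263 (@Lb.d (nat_lit 33) (nat_lit 546) (nat_lit 1) (@Lb.g g8 (@Lb.g g9 (@Lb.g g10 (@Lb.r r1638 (@Lb.r r595 (@Lb.r r2329 (@Lb.r r104 (@Lb.d (nat_lit 86) (nat_lit 90) (nat_lit 600) (@Lb.t (@Lb.fm (nat_lit 9) t2989))))))))))))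
noncomputable def l25458 : Lb := (@Lb.d (nat_lit 0) (nat_lit 514) (nat_lit 66) (@Lb.g g9 (@Lb.g g10 (@Lb.g g11 (@Lb.r r337 (@Lb.r r675 (@Lb.r r2658 (@Lb.r r2577 (@Lb.d (nat_lit 0) (nat_lit 25) (nat_lit 609) (@Lb.t (@Lb.fp (nat_lit 9) t1442)))))))))))
noncomputable def l25459 : Lb := (@Lb.d (nat_lit 0) (nat_lit 266) (nat_lit 128) (@Lb.g g9 (@Lb.g g10 (@Lb.g g11 (@Lb.r r2723 (@Lb.r r2642 (@Lb.d (nat_lit 0) (nat_lit 64) (nat_lit 425) (@Lb.t (@Lb.fp (nat_lit 9) t218)))))))))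
noncomputable def l25460 : Lb := (@Lb.d (nat_lit 0) (nat_lit 34) (nat_lit 26) (@Lb.g g9 (@Lb.g g10 (@Lb.r r275 (@Lb.r r1553 (@Lb.d (nat_lit 0) (nat_lit 8) (nat_lit 354) (@Lb.fm (nat_lit 3) t1442)))))))
noncomputable def l25461 : Lb := (@Lb.d (nat_lit 0) (nat_lit 513) (nat_lit 66) (@Lb.g g9 (@Lb.g g10 (@Lb.g g11 (@Lb.r r659 (@Lb.r r2642 (@Lb.r r1313 (@Lb.d (nat_lit 0) (nat_lit 90) (nat_lit 545) (@Lb.t (@Lb.fm (nat_lit 9) t2869))))))))))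
noncomputable def l25462 : Lb := (@Lb.d (nat_lit 682) (nat_lit 260) (nat_lit 404) (@Lb.r r2729 (@Lb.r r86 (@Lb.r r343 (@Lb.g g6 (@Lb.g g5 (@Lb.g g4 (@Lb.d (nat_lit 1) (nat_lit 8) (nat_lit 2) (@Lb.r r387 (@Lb.t (@Lb.fm (nat_lit 9) t4525)))))))))))
noncomputable def l25463 : Lb := (@Lb.d (nat_lit 32) (nat_lit 512) (nat_lit 74) (@Lb.g g9 (@Lb.g g10 (@Lb.g g11 (@Lb.r r1445 (@Lb.r r535 (@Lb.r r1092 (@Lb.r r2442 (@Lb.d (nat_lit 129) (nat_lit 73) (nat_lit 665) (@Lb.t (@Lb.fp (nat_lit 9) t4250)))))))))))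
noncomputable def l25464 : Lb := (@Lb.r r82 (@Lb.d (nat_lit 0) (nat_lit 40) (nat_lit 128) (@Lb.g g9 (@Lb.g g11 (@Lb.r r1602 (@Lb.r r1379 (@Lb.r r353 (@Lb.d (nat_lit 0) (nat_lit 88) (nat_lit 520) (@Lb.fp (nat_lit 3) t1465)))))))))
noncomputable def l25465 : Lb := (@Lb.r r1553 (@Lb.d (nat_lit 0) (nat_lit 0) (nat_lit 130) (@Lb.g g10 (@Lb.g g11 (@Lb.r r1619 (@Lb.r r386 (@Lb.d (nat_lit 0) (nat_lit 0) (nat_lit 521) (@Lb.fm (nat_lit 3) t306))))))))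
noncomputable def l25466 : Lb := (@Lb.r r81 (@Lb.d (nat_lit 10) (nat_lit 256) (nat_lit 17) (@Lb.g g8 (@Lb.g g6 (@Lb.r r149 (@Lb.r r1704 (@Lb.r r1291 (@Lb.d (nat_lit 0) (nat_lit 22) (nat_lit 393) (@Lb.fm (nat_lit 3) t739)))))))))
noncomputable def l25467 : Lb := (@Lb.d (nat_lit 32) (nat_lit 256) (nat_lit 74) (@Lb.g g9 (@Lb.g g10 (@Lb.g g11 (@Lb.r r1445 (@Lb.r r535 (@Lb.r r1092 (@Lb.r r2442 (@Lb.d (nat_lit 129) (nat_lit 0) (nat_lit 649) (@Lb.t (@Lb.fp (nat_lit 9) t228)))))))))))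
noncomputable def l25468 : Lb := (@Lb.d (nat_lit 0) (nat_lit 512) (nat_lit 2) (@Lb.g g9 (@Lb.g g10 (@Lb.r r2658 (@Lb.r r579 (@Lb.d (nat_lit 0) (nat_lit 97) (nat_lit 586) (@Lb.fp (nat_lit 3) t51)))))))
noncomputable def l25469 : Lb := (@Lb.d (nat_lit 0) (nat_lit 0) (nat_lit 66) (@Lb.g g10 (@Lb.g g11 (@Lb.r r419 (@Lb.r r2402 (@Lb.r r2321 (@Lb.d (nat_lit 0) (nat_lit 9) (nat_lit 97) (@Lb.fm (nat_lit 3) t1497))))))))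
noncomputable def l25470 : Lb := (@Lb.d (nat_lit 0) (nat_lit 0) (nat_lit 130) (@Lb.g g9 (@Lb.g g10 (@Lb.g g11 (@Lb.r r419 (@Lb.r r98 (@Lb.d (nat_lit 0) (nat_lit 9) (nat_lit 66) (@Lb.t (@Lb.fm (nat_lit 9) t369)))))))))
noncomputable def l25471 : Lb := (@Lb.r r323 (@Lb.d (nat_lit 0) (nat_lit 0) (nat_lit 2) (@Lb.g g9 (@Lb.g g10 (@Lb.r r2467 (@Lb.r r2146 (@Lb.d (nat_lit 0) (nat_lit 66) (nat_lit 1) (@Lb.fm (nat_lit 3) t1673))))))))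
noncomputable def l25472 : Lb := (@Lb.d (nat_lit 390) (nat_lit 72) (nat_lit 6) (@Lb.r r2325 (@Lb.r r2390 (@Lb.r r323 (@Lb.g g7 (@Lb.g g6 (@Lb.g g5 (@Lb.g g4 (@Lb.d (nat_lit 1) (nat_lit 18) (nat_lit 65) (@Lb.fp (nat_lit 9) t3475))))))))))
noncomputable def l25473 : Lb := (@Lb.d (nat_lit 0) (nat_lit 152) (nat_lit 645) (@Lb.r r2657 (@Lb.r r2386 (@Lb.g g7 (@Lb.g g5 (@Lb.d (nat_lit 0) (nat_lit 1) (nat_lit 0) (@Lb.fp (nat_lit 3) t2777)))))))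
noncomputable def l25474 : Lb := (@Lb.r r593 (@Lb.d (nat_lit 10) (nat_lit 512) (nat_lit 145) (@Lb.g g8 (@Lb.g g6 (@Lb.g g11 (@Lb.r r1699 (@Lb.r r149 (@Lb.r r1192 (@Lb.d (nat_lit 165) (nat_lit 134) (nat_lit 161) (@Lb.t (@Lb.fp (nat_lit 9) t4882)))))))))))
noncomputable def l25475 : Lb := (@Lb.d (nat_lit 338) (nat_lit 656) (nat_lit 357) (@Lb.r r82 (@Lb.r r2709 (@Lb.r r323 (@Lb.g g7 (@Lb.g g6 (@Lb.g g5 (@Lb.g g4 (@Lb.d (nat_lit 1) (nat_lit 16) (nat_lit 65) (@Lb.fp (nat_lit 9) t4883))))))))))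
noncomputable def l25476 : Lb := (@Lb.d (nat_lit 0) (nat_lit 256) (nat_lit 2) (@Lb.g g10 (@Lb.r r1105 (@Lb.r r98 (@Lb.d (nat_lit 0) (nat_lit 146) (nat_lit 601) (@Lb.t (@Lb.fp (nat_lit 3) t2777)))))))
noncomputable def l25477 : Lb := (@Lb.d (nat_lit 0) (nat_lit 260) (nat_lit 17) (@Lb.g g6 (@Lb.g g11 (@Lb.r r1553 (@Lb.r r2579 (@Lb.d (nat_lit 0) (nat_lit 162) (nat_lit 357) (@Lb.fm (nat_lit 3) t2811)))))))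
noncomputable def l25478 : Lb := (@Lb.g g9 (@Lb.g g6 (@Lb.r r2599 (@Lb.r r2457 (@Lb.r r356 (@Lb.r r154 (@Lb.d (nat_lit 548) (nat_lit 518) (nat_lit 32) (@Lb.fp (nat_lit 3) t662))))))))
noncomputable def l25479 : Lb := (@Lb.g g9 (@Lb.g g6 (@Lb.r r2599 (@Lb.r r2457 (@Lb.r r356 (@Lb.r r154 (@Lb.d (nat_lit 546) (nat_lit 256) (nat_lit 34) (@Lb.fp (nat_lit 3) t228))))))))
noncomputable def l25480 : Lb := (@Lb.r r275 (@Lb.d (nat_lit 0) (nat_lit 5) (nat_lit 1) (@Lb.g g9 (@Lb.g g6 (@Lb.r r1411 (@Lb.r r1697 (@Lb.d (nat_lit 0) (nat_lit 149) (nat_lit 281) (@Lb.fm (nat_lit 3) t1400))))))))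
noncomputable def l25481 : Lb := (@Lb.d (nat_lit 150) (nat_lit 386) (nat_lit 534) (@Lb.r r2632 (@Lb.r r2454 (@Lb.r r1641 (@Lb.r r2347 (@Lb.g g6 (@Lb.g g5 (@Lb.g g4 (@Lb.d (nat_lit 97) (nat_lit 0) (nat_lit 5) (@Lb.t (@Lb.fm (nat_lit 9) t127)))))))))))
noncomputable def l25482 : Lb := (@Lb.d (nat_lit 0) (nat_lit 512) (nat_lit 9) (@Lb.g g9 (@Lb.g g10 (@Lb.g g11 (@Lb.r r2726 (@Lb.r r328 (@Lb.r r535 (@Lb.r r289 (@Lb.d (nat_lit 641) (nat_lit 18) (nat_lit 64) (@Lb.t (@Lb.fm (nat_lit 9) t668)))))))))))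
noncomputable def l25483 : Lb := (@Lb.r r273 (@Lb.d (nat_lit 0) (nat_lit 288) (nat_lit 644) (@Lb.g g10 (@Lb.g g7 (@Lb.r r402 (@Lb.r r1125 (@Lb.r r24 (@Lb.d (nat_lit 258) (nat_lit 0) (nat_lit 96) (@Lb.fm (nat_lit 3) t538)))))))))
noncomputable def l25484 : Lb := (@Lb.d (nat_lit 2) (nat_lit 514) (nat_lit 66) (@Lb.g g8 (@Lb.g g9 (@Lb.g g10 (@Lb.g g11 (@Lb.r r2329 (@Lb.r r419 (@Lb.r r386 (@Lb.d (nat_lit 533) (nat_lit 170) (nat_lit 106) (@Lb.fm (nat_lit 9) t1961))))))))))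
noncomputable def l25485 : Lb := (@Lb.d (nat_lit 2) (nat_lit 0) (nat_lit 66) (@Lb.g g8 (@Lb.g g9 (@Lb.g g10 (@Lb.g g11 (@Lb.r r548 (@Lb.r r295 (@Lb.r r357 (@Lb.r r666 (@Lb.r r644 (@Lb.d (nat_lit 297) (nat_lit 1) (nat_lit 34) (@Lb.fp (nat_lit 9) t127))))))))))))
noncomputable def l25486 : Lb := (@Lb.d (nat_lit 128) (nat_lit 256) (nat_lit 64) (@Lb.g g11 (@Lb.r r264 (@Lb.r r519 (@Lb.r r2145 (@Lb.r r1170 (@Lb.d (nat_lit 129) (nat_lit 0) (nat_lit 160) (@Lb.t (@Lb.fp (nat_lit 3) t743)))))))))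
noncomputable def l25487 : Lb := (@Lb.d (nat_lit 129) (nat_lit 2) (nat_lit 130) (@Lb.g g8 (@Lb.g g9 (@Lb.g g10 (@Lb.g g11 (@Lb.r r276 (@Lb.r r1563 (@Lb.r r405 (@Lb.r r1366 (@Lb.r r2724 (@Lb.d (nat_lit 521) (nat_lit 66) (nat_lit 393) (@Lb.fm (nat_lit 9) t2666))))))))))))
noncomputable def l25488 : Lb := (@Lb.d (nat_lit 9) (nat_lit 0) (nat_lit 0) (@Lb.g g8 (@Lb.r r289 (@Lb.r r535 (@Lb.r r328 (@Lb.r r614 (@Lb.d (nat_lit 0) (nat_lit 128) (nat_lit 2) (@Lb.t (@Lb.fm (nat_lit 3) t3110)))))))))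
noncomputable def l25489 : Lb := (@Lb.d (nat_lit 137) (nat_lit 104) (nat_lit 649) (@Lb.r r657 (@Lb.r r666 (@Lb.r r420 (@Lb.g g11 (@Lb.g g6 (@Lb.g g5 (@Lb.d (nat_lit 4) (nat_lit 0) (nat_lit 129) (@Lb.t (@Lb.fp (nat_lit 9) t1439))))))))))
noncomputable def l25490 : Lb := (@Lb.d (nat_lit 0) (nat_lit 408) (nat_lit 585) (@Lb.r r657 (@Lb.r r2394 (@Lb.r r2148 (@Lb.g g11 (@Lb.g g5 (@Lb.d (nat_lit 4) (nat_lit 0) (nat_lit 384) (@Lb.r r578 (@Lb.fp (nat_lit 3) t1490)))))))))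
noncomputable def l25491 : Lb := (@Lb.d (nat_lit 130) (nat_lit 2) (nat_lit 66) (@Lb.g g8 (@Lb.g g9 (@Lb.g g10 (@Lb.g g11 (@Lb.r r276 (@Lb.r r1563 (@Lb.r r405 (@Lb.r r1366 (@Lb.r r2724 (@Lb.d (nat_lit 521) (nat_lit 66) (nat_lit 393) (@Lb.fm (nat_lit 9) t2666))))))))))))
noncomputable def l25492 : Lb := (@Lb.d (nat_lit 128) (nat_lit 256) (nat_lit 128) (@Lb.g g10 (@Lb.g g11 (@Lb.r r586 (@Lb.r r24 (@Lb.r r405 (@Lb.r r611 (@Lb.d (nat_lit 0) (nat_lit 9) (nat_lit 18) (@Lb.fm (nat_lit 3) t2811)))))))))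
noncomputable def l25493 : Lb := (@Lb.r r323 (@Lb.d (nat_lit 2) (nat_lit 2) (nat_lit 2) (@Lb.g g8 (@Lb.g g9 (@Lb.g g10 (@Lb.r r401 (@Lb.r r299 (@Lb.r r392 (@Lb.r r74 (@Lb.d (nat_lit 33) (nat_lit 10) (nat_lit 145) (@Lb.t (@Lb.fp (nat_lit 9) t756))))))))))))
noncomputable def l25494 : Lb := (@Lb.r r82 (@Lb.d (nat_lit 161) (nat_lit 514) (nat_lit 128) (@Lb.g g8 (@Lb.g g9 (@Lb.g g11 (@Lb.r r2730 (@Lb.r r1411 (@Lb.r r661 (@Lb.r r2216 (@Lb.d (nat_lit 677) (nat_lit 170) (nat_lit 649) (@Lb.t (@Lb.fm (nat_lit 9) t4884))))))))))))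
noncomputable def l25495 : Lb := (@Lb.r r82 (@Lb.r r275 (@Lb.d (nat_lit 41) (nat_lit 5) (nat_lit 0) (@Lb.g g8 (@Lb.g g5 (@Lb.r r1382 (@Lb.r r2728 (@Lb.r r411 (@Lb.d (nat_lit 512) (nat_lit 96) (nat_lit 640) (@Lb.fm (nat_lit 3) t2991))))))))))
noncomputable def l25496 : Lb := (@Lb.d (nat_lit 536) (nat_lit 642) (nat_lit 33) (@Lb.r r21 (@Lb.r r1158 (@Lb.r r2376 (@Lb.r r679 (@Lb.g g5 (@Lb.d (nat_lit 0) (nat_lit 1) (nat_lit 0) (@Lb.t (@Lb.fp (nat_lit 3) t115)))))))))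
noncomputable def l25497 : Lb := (@Lb.d (nat_lit 145) (nat_lit 646) (nat_lit 86) (@Lb.r r2129 (@Lb.r r1186 (@Lb.r r1451 (@Lb.r r264 (@Lb.g g7 (@Lb.g g5 (@Lb.d (nat_lit 64) (nat_lit 0) (nat_lit 128) (@Lb.fm (nat_lit 3) t45)))))))))
noncomputable def l25498 : Lb := (@Lb.d (nat_lit 5) (nat_lit 646) (nat_lit 17) (@Lb.r r2129 (@Lb.r r1190 (@Lb.r r2392 (@Lb.r r1703 (@Lb.g g6 (@Lb.g g5 (@Lb.d (nat_lit 0) (nat_lit 0) (nat_lit 1) (@Lb.fp (nat_lit 3) t71)))))))))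
noncomputable def l25499 : Lb := (@Lb.r r1379 (@Lb.r r2209 (@Lb.r r1186 (@Lb.r r1124 (@Lb.d (nat_lit 282) (nat_lit 322) (nat_lit 17) (@Lb.fp (nat_lit 1) t4761))))))
noncomputable def l25500 : Lb := (@Lb.r r1319 (@Lb.r r1126 (@Lb.r r24 (@Lb.d (nat_lit 537) (nat_lit 66) (nat_lit 32) (@Lb.fm (nat_lit 1) t396)))))
noncomputable def l25501 : Lb := (@Lb.d (nat_lit 293) (nat_lit 42) (nat_lit 36) (@Lb.r r359 (@Lb.r r421 (@Lb.r r106 (@Lb.r r72 (@Lb.g g7 (@Lb.g g6 (@Lb.g g5 (@Lb.d (nat_lit 84) (nat_lit 0) (nat_lit 129) (@Lb.t (@Lb.fp (nat_lit 9) t1369)))))))))))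
noncomputable def l25502 : Lb := (@Lb.d (nat_lit 0) (nat_lit 322) (nat_lit 0) (@Lb.g g5 (@Lb.r r424 (@Lb.r r394 (@Lb.r r1383 (@Lb.r r132 (@Lb.d (nat_lit 0) (nat_lit 146) (nat_lit 576) (@Lb.t (@Lb.fm (nat_lit 3) t324)))))))))
noncomputable def l25503 : Lb := (@Lb.r r21 (@Lb.r r70 (@Lb.r r263 (@Lb.d (nat_lit 2) (nat_lit 0) (nat_lit 0) (@Lb.g g4 (@Lb.r r2631 (@Lb.r r402 (@Lb.r r97 (@Lb.d (nat_lit 260) (nat_lit 0) (nat_lit 0) (@Lb.t (@Lb.fp (nat_lit 3) t1159)))))))))))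
noncomputable def l25504 : Lb := (@Lb.d (nat_lit 0) (nat_lit 289) (nat_lit 580) (@Lb.g g8 (@Lb.g g9 (@Lb.g g10 (@Lb.g g7 (@Lb.r r1441 (@Lb.r r98 (@Lb.r r24 (@Lb.d (nat_lit 608) (nat_lit 66) (nat_lit 266) (@Lb.fm (nat_lit 9) t4885))))))))))
noncomputable def l25505 : Lb := (@Lb.r r263 (@Lb.d (nat_lit 0) (nat_lit 514) (nat_lit 2) (@Lb.g g8 (@Lb.g g9 (@Lb.g g10 (@Lb.r r1689 (@Lb.r r1691 (@Lb.r r2634 (@Lb.r r2632 (@Lb.d (nat_lit 585) (nat_lit 2) (nat_lit 384) (@Lb.t (@Lb.fm (nat_lit 9) t69))))))))))))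
noncomputable def l25506 : Lb := (@Lb.r r263 (@Lb.d (nat_lit 0) (nat_lit 257) (nat_lit 2) (@Lb.g g8 (@Lb.g g9 (@Lb.g g10 (@Lb.r r2713 (@Lb.r r1691 (@Lb.r r2634 (@Lb.r r2632 (@Lb.d (nat_lit 585) (nat_lit 2) (nat_lit 640) (@Lb.t (@Lb.fm (nat_lit 9) t69))))))))))))
noncomputable def l25507 : Lb := (@Lb.d (nat_lit 2) (nat_lit 33) (nat_lit 66) (@Lb.g g8 (@Lb.g g9 (@Lb.g g10 (@Lb.g g11 (@Lb.r r610 (@Lb.r r2657 (@Lb.r r615 (@Lb.r r2436 (@Lb.d (nat_lit 394) (nat_lit 129) (nat_lit 392) (@Lb.fp (nat_lit 9) t4886)))))))))))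
noncomputable def l25508 : Lb := (@Lb.d (nat_lit 0) (nat_lit 33) (nat_lit 514) (@Lb.g g8 (@Lb.g g9 (@Lb.g g10 (@Lb.g g7 (@Lb.r r1441 (@Lb.r r98 (@Lb.r r24 (@Lb.d (nat_lit 608) (nat_lit 73) (nat_lit 265) (@Lb.fm (nat_lit 9) t4885))))))))))
noncomputable def l25509 : Lb := (@Lb.d (nat_lit 4) (nat_lit 394) (nat_lit 0) (@Lb.r r24 (@Lb.r r386 (@Lb.r r1619 (@Lb.g g9 (@Lb.d (nat_lit 0) (nat_lit 2) (nat_lit 0) (@Lb.r r291 (@Lb.r r98 (@Lb.t (@Lb.fm (nat_lit 3) t711))))))))))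
noncomputable def l25510 : Lb := (@Lb.r r70 (@Lb.r r263 (@Lb.d (nat_lit 521) (nat_lit 1) (nat_lit 0) (@Lb.g g8 (@Lb.g g9 (@Lb.r r153 (@Lb.r r402 (@Lb.r r2627 (@Lb.d (nat_lit 640) (nat_lit 0) (nat_lit 384) (@Lb.fm (nat_lit 3) t3404))))))))))
noncomputable def l25511 : Lb := (@Lb.r r386 (@Lb.r r2371 (@Lb.r r578 (@Lb.r r2341 (@Lb.r r24 (@Lb.d (nat_lit 577) (nat_lit 512) (nat_lit 69) (@Lb.fm (nat_lit 1) t1644)))))))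
noncomputable def l25512 : Lb := (@Lb.r r386 (@Lb.r r2371 (@Lb.r r578 (@Lb.r r2341 (@Lb.r r24 (@Lb.d (nat_lit 577) (nat_lit 0) (nat_lit 0) (@Lb.fm (nat_lit 1) t1644)))))))
noncomputable def l25513 : Lb := (@Lb.d (nat_lit 129) (nat_lit 272) (nat_lit 2) (@Lb.g g8 (@Lb.g g9 (@Lb.g g10 (@Lb.g g11 (@Lb.r r596 (@Lb.r r1449 (@Lb.r r343 (@Lb.r r1606 (@Lb.r r1156 (@Lb.d (nat_lit 666) (nat_lit 72) (nat_lit 592) (@Lb.fm (nat_lit 9) t4887))))))))))))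
noncomputable def l25514 : Lb := (@Lb.r r82 (@Lb.d (nat_lit 41) (nat_lit 530) (nat_lit 0) (@Lb.g g8 (@Lb.g g9 (@Lb.g g11 (@Lb.r r681 (@Lb.r r427 (@Lb.r r582 (@Lb.r r408 (@Lb.d (nat_lit 521) (nat_lit 26) (nat_lit 618) (@Lb.t (@Lb.fm (nat_lit 9) t1244))))))))))))
noncomputable def l25515 : Lb := (@Lb.d (nat_lit 0) (nat_lit 6) (nat_lit 294) (@Lb.r r2659 (@Lb.r r406 (@Lb.r r2664 (@Lb.r r2585 (@Lb.g g7 (@Lb.g g6 (@Lb.g g4 (@Lb.d (nat_lit 6) (nat_lit 20) (nat_lit 65) (@Lb.t (@Lb.fm (nat_lit 9) t2367)))))))))))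
noncomputable def l25516 : Lb := (@Lb.d (nat_lit 2) (nat_lit 516) (nat_lit 64) (@Lb.g g8 (@Lb.g g9 (@Lb.g g10 (@Lb.g g7 (@Lb.r r1442 (@Lb.r r145 (@Lb.r r2120 (@Lb.d (nat_lit 290) (nat_lit 169) (nat_lit 289) (@Lb.fm (nat_lit 9) t4888))))))))))
noncomputable def l25517 : Lb := (@Lb.d (nat_lit 0) (nat_lit 522) (nat_lit 0) (@Lb.g g9 (@Lb.r r402 (@Lb.r r579 (@Lb.d (nat_lit 0) (nat_lit 2) (nat_lit 0) (@Lb.t (@Lb.fp (nat_lit 3) t242)))))))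
noncomputable def l25518 : Lb := (@Lb.d (nat_lit 0) (nat_lit 10) (nat_lit 1) (@Lb.g g9 (@Lb.g g10 (@Lb.r r1703 (@Lb.r r2392 (@Lb.r r1190 (@Lb.r r1169 (@Lb.d (nat_lit 5) (nat_lit 72) (nat_lit 34) (@Lb.fp (nat_lit 3) t264)))))))))
noncomputable def l25519 : Lb := (@Lb.d (nat_lit 32) (nat_lit 290) (nat_lit 4) (@Lb.g g9 (@Lb.g g10 (@Lb.g g11 (@Lb.r r1707 (@Lb.r r1689 (@Lb.r r100 (@Lb.r r410 (@Lb.d (nat_lit 386) (nat_lit 26) (nat_lit 169) (@Lb.t (@Lb.fm (nat_lit 9) t74)))))))))))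
noncomputable def l25520 : Lb := (@Lb.r r82 (@Lb.r r275 (@Lb.d (nat_lit 2) (nat_lit 1) (nat_lit 0) (@Lb.g g8 (@Lb.g g5 (@Lb.r r2651 (@Lb.r r386 (@Lb.r r24 (@Lb.d (nat_lit 266) (nat_lit 5) (nat_lit 0) (@Lb.fm (nat_lit 3) t742))))))))))
noncomputable def l25521 : Lb := (@Lb.d (nat_lit 72) (nat_lit 1) (nat_lit 320) (@Lb.r r1573 (@Lb.r r1703 (@Lb.r r2714 (@Lb.r r168 (@Lb.g g9 (@Lb.d (nat_lit 4) (nat_lit 1) (nat_lit 0) (@Lb.t (@Lb.fp (nat_lit 3) t3023)))))))))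
noncomputable def l25522 : Lb := (@Lb.d (nat_lit 38) (nat_lit 533) (nat_lit 277) (@Lb.r r2663 (@Lb.r r1450 (@Lb.r r1172 (@Lb.g g7 (@Lb.g g5 (@Lb.d (nat_lit 72) (nat_lit 128) (nat_lit 128) (@Lb.fm (nat_lit 3) t4889))))))))
noncomputable def l25523 : Lb := (@Lb.r r21 (@Lb.d (nat_lit 10) (nat_lit 544) (nat_lit 130) (@Lb.g g8 (@Lb.g g10 (@Lb.g g11 (@Lb.r r2666 (@Lb.r r401 (@Lb.r r2663 (@Lb.r r1316 (@Lb.d (nat_lit 658) (nat_lit 134) (nat_lit 66) (@Lb.t (@Lb.fp (nat_lit 9) t668))))))))))))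
noncomputable def l25524 : Lb := (@Lb.d (nat_lit 2) (nat_lit 545) (nat_lit 4) (@Lb.g g8 (@Lb.g g9 (@Lb.g g10 (@Lb.g g11 (@Lb.r r683 (@Lb.r r610 (@Lb.r r548 (@Lb.r r613 (@Lb.d (nat_lit 149) (nat_lit 150) (nat_lit 393) (@Lb.fp (nat_lit 9) t842)))))))))))
noncomputable def l25525 : Lb := (@Lb.r r82 (@Lb.r r275 (@Lb.d (nat_lit 33) (nat_lit 321) (nat_lit 0) (@Lb.g g8 (@Lb.g g5 (@Lb.r r2403 (@Lb.r r102 (@Lb.r r168 (@Lb.d (nat_lit 533) (nat_lit 132) (nat_lit 2) (@Lb.fm (nat_lit 3) t685))))))))))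
noncomputable def l25526 : Lb := (@Lb.r r82 (@Lb.r r275 (@Lb.d (nat_lit 34) (nat_lit 577) (nat_lit 0) (@Lb.g g8 (@Lb.g g5 (@Lb.r r2403 (@Lb.r r102 (@Lb.r r168 (@Lb.d (nat_lit 533) (nat_lit 137) (nat_lit 0) (@Lb.fm (nat_lit 3) t685))))))))))
noncomputable def l25527 : Lb := (@Lb.d (nat_lit 0) (nat_lit 86) (nat_lit 320) (@Lb.r r21 (@Lb.r r2340 (@Lb.r r1611 (@Lb.g g7 (@Lb.g g10 (@Lb.g g4 (@Lb.d (nat_lit 1) (nat_lit 0) (nat_lit 65) (@Lb.r r145 (@Lb.t (@Lb.fp (nat_lit 9) t1146)))))))))))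
noncomputable def l25528 : Lb := (@Lb.d (nat_lit 389) (nat_lit 321) (nat_lit 20) (@Lb.r r2133 (@Lb.r r390 (@Lb.r r72 (@Lb.g g11 (@Lb.g g6 (@Lb.g g5 (@Lb.d (nat_lit 144) (nat_lit 24) (nat_lit 384) (@Lb.t (@Lb.fm (nat_lit 9) t1642))))))))))
noncomputable def l25529 : Lb := (@Lb.r r21 (@Lb.d (nat_lit 2) (nat_lit 280) (nat_lit 328) (@Lb.g g8 (@Lb.g g6 (@Lb.g g11 (@Lb.r r2657 (@Lb.r r2632 (@Lb.d (nat_lit 354) (nat_lit 33) (nat_lit 2) (@Lb.t (@Lb.fp (nat_lit 9) t790))))))))))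
noncomputable def l25530 : Lb := (@Lb.d (nat_lit 0) (nat_lit 256) (nat_lit 66) (@Lb.g g10 (@Lb.g g7 (@Lb.r r421 (@Lb.r r98 (@Lb.r r24 (@Lb.d (nat_lit 145) (nat_lit 161) (nat_lit 72) (@Lb.fp (nat_lit 3) t4374))))))))
noncomputable def l25531 : Lb := (@Lb.d (nat_lit 2) (nat_lit 2) (nat_lit 130) (@Lb.g g8 (@Lb.g g9 (@Lb.g g10 (@Lb.g g11 (@Lb.r r2705 (@Lb.r r2707 (@Lb.r r644 (@Lb.r r2630 (@Lb.r r132 (@Lb.d (nat_lit 640) (nat_lit 66) (nat_lit 354) (@Lb.fm (nat_lit 9) t4890))))))))))))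
noncomputable def l25532 : Lb := (@Lb.d (nat_lit 322) (nat_lit 280) (nat_lit 36) (@Lb.r r1697 (@Lb.r r386 (@Lb.r r1623 (@Lb.g g6 (@Lb.g g5 (@Lb.g g4 (@Lb.d (nat_lit 1) (nat_lit 22) (nat_lit 2) (@Lb.t (@Lb.fm (nat_lit 9) t4891))))))))))
noncomputable def l25533 : Lb := (@Lb.r r82 (@Lb.d (nat_lit 34) (nat_lit 545) (nat_lit 8) (@Lb.g g8 (@Lb.g g9 (@Lb.g g7 (@Lb.r r1618 (@Lb.r r2389 (@Lb.r r100 (@Lb.d (nat_lit 137) (nat_lit 10) (nat_lit 537) (@Lb.t (@Lb.fp (nat_lit 9) t984)))))))))))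
noncomputable def l25534 : Lb := (@Lb.d (nat_lit 586) (nat_lit 512) (nat_lit 322) (@Lb.r r2308 (@Lb.r r2145 (@Lb.r r363 (@Lb.g g10 (@Lb.g g4 (@Lb.d (nat_lit 65) (nat_lit 8) (nat_lit 37) (@Lb.r r387 (@Lb.fm (nat_lit 3) t381)))))))))
noncomputable def l25535 : Lb := (@Lb.d (nat_lit 4) (nat_lit 144) (nat_lit 322) (@Lb.r r2308 (@Lb.r r2145 (@Lb.r r619 (@Lb.r r516 (@Lb.g g7 (@Lb.g g10 (@Lb.g g4 (@Lb.d (nat_lit 2) (nat_lit 8) (nat_lit 166) (@Lb.t (@Lb.fm (nat_lit 9) t524)))))))))))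
noncomputable def l25536 : Lb := (@Lb.d (nat_lit 656) (nat_lit 256) (nat_lit 262) (@Lb.r r24 (@Lb.r r101 (@Lb.r r386 (@Lb.g g11 (@Lb.g g6 (@Lb.g g5 (@Lb.d (nat_lit 0) (nat_lit 0) (nat_lit 70) (@Lb.t (@Lb.fp (nat_lit 9) t2636))))))))))
noncomputable def l25537 : Lb := (@Lb.r r21 (@Lb.r r70 (@Lb.d (nat_lit 9) (nat_lit 0) (nat_lit 0) (@Lb.g g8 (@Lb.r r1685 (@Lb.r r1431 (@Lb.r r602 (@Lb.r r1688 (@Lb.d (nat_lit 104) (nat_lit 37) (nat_lit 554) (@Lb.t (@Lb.fm (nat_lit 3) t647)))))))))))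
noncomputable def l25538 : Lb := (@Lb.d (nat_lit 146) (nat_lit 266) (nat_lit 9) (@Lb.g g8 (@Lb.g g9 (@Lb.g g10 (@Lb.r r1303 (@Lb.r r1641 (@Lb.r r2454 (@Lb.r r2632 (@Lb.d (nat_lit 105) (nat_lit 70) (nat_lit 426) (@Lb.t (@Lb.fp (nat_lit 9) t917)))))))))))
noncomputable def l25539 : Lb := (@Lb.d (nat_lit 18) (nat_lit 256) (nat_lit 66) (@Lb.g g8 (@Lb.g g9 (@Lb.g g10 (@Lb.g g11 (@Lb.r r276 (@Lb.r r2587 (@Lb.r r405 (@Lb.r r342 (@Lb.r r2724 (@Lb.d (nat_lit 521) (nat_lit 2) (nat_lit 425) (@Lb.fm (nat_lit 9) t148))))))))))))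
noncomputable def l25540 : Lb := (@Lb.d (nat_lit 18) (nat_lit 512) (nat_lit 130) (@Lb.g g8 (@Lb.g g9 (@Lb.g g10 (@Lb.g g11 (@Lb.r r276 (@Lb.r r2587 (@Lb.r r405 (@Lb.r r342 (@Lb.r r2724 (@Lb.d (nat_lit 514) (nat_lit 0) (nat_lit 425) (@Lb.fm (nat_lit 9) t148))))))))))))
noncomputable def l25541 : Lb := (@Lb.r r82 (@Lb.d (nat_lit 6) (nat_lit 520) (nat_lit 0) (@Lb.g g8 (@Lb.g g9 (@Lb.r r1707 (@Lb.r r1430 (@Lb.r r601 (@Lb.d (nat_lit 106) (nat_lit 166) (nat_lit 537) (@Lb.fm (nat_lit 3) t98)))))))))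
noncomputable def l25542 : Lb := (@Lb.d (nat_lit 18) (nat_lit 0) (nat_lit 130) (@Lb.g g8 (@Lb.g g9 (@Lb.g g10 (@Lb.g g11 (@Lb.r r276 (@Lb.r r2587 (@Lb.r r405 (@Lb.r r342 (@Lb.r r2724 (@Lb.d (nat_lit 521) (nat_lit 2) (nat_lit 425) (@Lb.fm (nat_lit 9) t148))))))))))))
noncomputable def l25543 : Lb := (@Lb.d (nat_lit 64) (nat_lit 261) (nat_lit 136) (@Lb.r r1674 (@Lb.r r1704 (@Lb.r r1321 (@Lb.g g11 (@Lb.g g6 (@Lb.g g4 (@Lb.d (nat_lit 1) (nat_lit 4) (nat_lit 128) (@Lb.t (@Lb.fp (nat_lit 9) t4892))))))))))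
noncomputable def l25544 : Lb := (@Lb.d (nat_lit 18) (nat_lit 256) (nat_lit 130) (@Lb.g g8 (@Lb.g g9 (@Lb.g g10 (@Lb.g g11 (@Lb.r r273 (@Lb.r r2603 (@Lb.r r1640 (@Lb.r r1110 (@Lb.r r153 (@Lb.d (nat_lit 0) (nat_lit 68) (nat_lit 426) (@Lb.fp (nat_lit 9) t766))))))))))))
noncomputable def l25545 : Lb := (@Lb.d (nat_lit 6) (nat_lit 0) (nat_lit 0) (@Lb.g g8 (@Lb.r r337 (@Lb.r r2723 (@Lb.r r1682 (@Lb.r r2129 (@Lb.d (nat_lit 320) (nat_lit 128) (nat_lit 64) (@Lb.t (@Lb.fp (nat_lit 3) t242)))))))))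
noncomputable def l25546 : Lb := (@Lb.d (nat_lit 4) (nat_lit 680) (nat_lit 168) (@Lb.r r609 (@Lb.r r619 (@Lb.r r584 (@Lb.r r166 (@Lb.g g7 (@Lb.g g6 (@Lb.g g5 (@Lb.d (nat_lit 4) (nat_lit 1) (nat_lit 65) (@Lb.t (@Lb.fp (nat_lit 9) t984)))))))))))
noncomputable def l25547 : Lb := (@Lb.d (nat_lit 2) (nat_lit 514) (nat_lit 0) (@Lb.g g8 (@Lb.g g9 (@Lb.r r25 (@Lb.d (nat_lit 4) (nat_lit 9) (nat_lit 2) (@Lb.fm (nat_lit 3) t21))))))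
noncomputable def l25548 : Lb := (@Lb.r r323 (@Lb.d (nat_lit 32) (nat_lit 73) (nat_lit 1) (@Lb.g g5 (@Lb.g g10 (@Lb.r r1555 (@Lb.r r1124 (@Lb.r r2122 (@Lb.d (nat_lit 104) (nat_lit 162) (nat_lit 418) (@Lb.fm (nat_lit 3) t3172)))))))))
noncomputable def l25549 : Lb := (@Lb.d (nat_lit 144) (nat_lit 600) (nat_lit 650) (@Lb.r r402 (@Lb.r r101 (@Lb.g g7 (@Lb.g g8 (@Lb.fp (nat_lit 3) t2829))))))
noncomputable def l25550 : Lb := (@Lb.d (nat_lit 518) (nat_lit 385) (nat_lit 170) (@Lb.r r404 (@Lb.r r2145 (@Lb.r r1410 (@Lb.r r1563 (@Lb.g g4 (@Lb.r r74 (@Lb.t (@Lb.fp (nat_lit 3) t4477)))))))))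
noncomputable def l25551 : Lb := (@Lb.d (nat_lit 0) (nat_lit 256) (nat_lit 133) (@Lb.g g10 (@Lb.g g11 (@Lb.r r2707 (@Lb.r r354 (@Lb.d (nat_lit 0) (nat_lit 136) (nat_lit 533) (@Lb.fp (nat_lit 3) t1563)))))))
noncomputable def l25552 : Lb := (@Lb.d (nat_lit 32) (nat_lit 585) (nat_lit 129) (@Lb.g g5 (@Lb.g g10 (@Lb.g g11 (@Lb.r r1380 (@Lb.r r2587 (@Lb.r r354 (@Lb.d (nat_lit 328) (nat_lit 106) (nat_lit 646) (@Lb.t (@Lb.fm (nat_lit 9) t3173))))))))))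
noncomputable def l25553 : Lb := (@Lb.d (nat_lit 170) (nat_lit 346) (nat_lit 581) (@Lb.r r104 (@Lb.r r386 (@Lb.r r599 (@Lb.g g9 (@Lb.g g4 (@Lb.d (nat_lit 64) (nat_lit 149) (nat_lit 0) (@Lb.r r98 (@Lb.fm (nat_lit 3) t2484)))))))))
noncomputable def l25554 : Lb := (@Lb.d (nat_lit 40) (nat_lit 390) (nat_lit 33) (@Lb.r r100 (@Lb.r r609 (@Lb.r r402 (@Lb.r r555 (@Lb.g g8 (@Lb.d (nat_lit 65) (nat_lit 0) (nat_lit 0) (@Lb.t (@Lb.fm (nat_lit 3) t40)))))))))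
noncomputable def l25555 : Lb := (@Lb.d (nat_lit 1) (nat_lit 608) (nat_lit 640) (@Lb.r r322 (@Lb.r r659 (@Lb.r r578 (@Lb.g g5 (@Lb.d (nat_lit 4) (nat_lit 1) (nat_lit 0) (@Lb.t (@Lb.fp (nat_lit 3) t901))))))))
noncomputable def l25556 : Lb := (@Lb.d (nat_lit 2) (nat_lit 2) (nat_lit 130) (@Lb.g g8 (@Lb.g g9 (@Lb.g g10 (@Lb.g g11 (@Lb.r r1699 (@Lb.r r2216 (@Lb.r r2666 (@Lb.r r2585 (@Lb.d (nat_lit 682) (nat_lit 169) (nat_lit 104) (@Lb.fp (nat_lit 9) t4489)))))))))))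
noncomputable def l25557 : Lb := (@Lb.d (nat_lit 2) (nat_lit 90) (nat_lit 581) (@Lb.r r402 (@Lb.g g7 (@Lb.g g9 (@Lb.d (nat_lit 8) (nat_lit 9) (nat_lit 0) (@Lb.fm (nat_lit 3) t3957))))))
noncomputable def l25558 : Lb := (@Lb.d (nat_lit 662) (nat_lit 641) (nat_lit 581) (@Lb.r r2085 (@Lb.r r1112 (@Lb.r r1347 (@Lb.r r2726 (@Lb.g g7 (@Lb.g g6 (@Lb.g g5 (@Lb.d (nat_lit 0) (nat_lit 24) (nat_lit 64) (@Lb.t (@Lb.fm (nat_lit 9) t1313)))))))))))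
noncomputable def l25559 : Lb := (@Lb.d (nat_lit 10) (nat_lit 32) (nat_lit 64) (@Lb.g g8 (@Lb.g g11 (@Lb.r r166 (@Lb.r r149 (@Lb.r r360 (@Lb.r r2567 (@Lb.d (nat_lit 642) (nat_lit 17) (nat_lit 640) (@Lb.fp (nat_lit 3) t71)))))))))
noncomputable def l25560 : Lb := (@Lb.d (nat_lit 137) (nat_lit 37) (nat_lit 0) (@Lb.g g8 (@Lb.g g5 (@Lb.g g10 (@Lb.r r1434 (@Lb.r r583 (@Lb.r r392 (@Lb.d (nat_lit 342) (nat_lit 129) (nat_lit 586) (@Lb.t (@Lb.fm (nat_lit 9) t144))))))))))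
noncomputable def l25561 : Lb := (@Lb.d (nat_lit 137) (nat_lit 549) (nat_lit 0) (@Lb.g g8 (@Lb.g g5 (@Lb.g g10 (@Lb.r r1434 (@Lb.r r583 (@Lb.r r420 (@Lb.d (nat_lit 676) (nat_lit 85) (nat_lit 586) (@Lb.t (@Lb.fp (nat_lit 9) t74))))))))))
noncomputable def l25562 : Lb := (@Lb.d (nat_lit 2) (nat_lit 2) (nat_lit 130) (@Lb.g g8 (@Lb.g g9 (@Lb.g g10 (@Lb.g g11 (@Lb.r r665 (@Lb.r r2323 (@Lb.r r1162 (@Lb.r r2577 (@Lb.r r1156 (@Lb.d (nat_lit 545) (nat_lit 66) (nat_lit 681) (@Lb.fm (nat_lit 9) t284))))))))))))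
noncomputable def l25563 : Lb := (@Lb.r r82 (@Lb.d (nat_lit 41) (nat_lit 513) (nat_lit 136) (@Lb.g g8 (@Lb.g g9 (@Lb.g g11 (@Lb.r r1110 (@Lb.r r1449 (@Lb.r r1623 (@Lb.r r2180 (@Lb.d (nat_lit 678) (nat_lit 34) (nat_lit 530) (@Lb.t (@Lb.fm (nat_lit 9) t428))))))))))))
noncomputable def l25564 : Lb := (@Lb.d (nat_lit 2) (nat_lit 2) (nat_lit 130) (@Lb.g g8 (@Lb.g g9 (@Lb.g g10 (@Lb.g g11 (@Lb.r r427 (@Lb.r r2442 (@Lb.r r2457 (@Lb.r r2436 (@Lb.d (nat_lit 330) (nat_lit 137) (nat_lit 514) (@Lb.fm (nat_lit 9) t2103)))))))))))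
noncomputable def l25565 : Lb := (@Lb.d (nat_lit 2) (nat_lit 2) (nat_lit 4) (@Lb.g g8 (@Lb.g g9 (@Lb.g g10 (@Lb.g g11 (@Lb.r r427 (@Lb.r r2442 (@Lb.r r2457 (@Lb.r r2436 (@Lb.d (nat_lit 329) (nat_lit 137) (nat_lit 514) (@Lb.fm (nat_lit 9) t2103)))))))))))
noncomputable def l25566 : Lb := (@Lb.d (nat_lit 8) (nat_lit 258) (nat_lit 4) (@Lb.g g9 (@Lb.g g10 (@Lb.g g11 (@Lb.r r1315 (@Lb.r r578 (@Lb.r r24 (@Lb.r r101 (@Lb.d (nat_lit 421) (nat_lit 85) (nat_lit 340) (@Lb.t (@Lb.fm (nat_lit 9) t232)))))))))))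
noncomputable def l25567 : Lb := (@Lb.d (nat_lit 10) (nat_lit 256) (nat_lit 132) (@Lb.g g8 (@Lb.g g10 (@Lb.g g7 (@Lb.r r597 (@Lb.r r98 (@Lb.r r2436 (@Lb.d (nat_lit 612) (nat_lit 22) (nat_lit 72) (@Lb.t (@Lb.fp (nat_lit 9) t1831))))))))))
noncomputable def l25568 : Lb := (@Lb.d (nat_lit 26) (nat_lit 257) (nat_lit 64) (@Lb.g g8 (@Lb.g g9 (@Lb.g g10 (@Lb.g g7 (@Lb.r r1410 (@Lb.r r2152 (@Lb.r r25 (@Lb.d (nat_lit 522) (nat_lit 73) (nat_lit 297) (@Lb.fm (nat_lit 9) t42))))))))))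
noncomputable def l25569 : Lb := (@Lb.d (nat_lit 0) (nat_lit 258) (nat_lit 0) (@Lb.g g9 (@Lb.r r2216 (@Lb.r r1178 (@Lb.r r145 (@Lb.d (nat_lit 610) (nat_lit 96) (nat_lit 529) (@Lb.t (@Lb.fp (nat_lit 3) t2802))))))))
noncomputable def l25570 : Lb := (@Lb.r r68 (@Lb.r r81 (@Lb.d (nat_lit 16) (nat_lit 256) (nat_lit 17) (@Lb.g g10 (@Lb.r r1419 (@Lb.r r24 (@Lb.r r1317 (@Lb.d (nat_lit 320) (nat_lit 42) (nat_lit 321) (@Lb.t (@Lb.fp (nat_lit 3) t813))))))))))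
noncomputable def l25571 : Lb := (@Lb.d (nat_lit 16) (nat_lit 521) (nat_lit 73) (@Lb.g g8 (@Lb.g g9 (@Lb.g g10 (@Lb.g g11 (@Lb.r r1382 (@Lb.r r404 (@Lb.r r2457 (@Lb.r r1319 (@Lb.r r2564 (@Lb.d (nat_lit 361) (nat_lit 104) (nat_lit 617) (@Lb.fp (nat_lit 9) t2897))))))))))))
noncomputable def l25572 : Lb := (@Lb.d (nat_lit 16) (nat_lit 9) (nat_lit 73) (@Lb.g g8 (@Lb.g g9 (@Lb.g g10 (@Lb.g g11 (@Lb.r r1382 (@Lb.r r404 (@Lb.r r2457 (@Lb.r r1319 (@Lb.r r2564 (@Lb.d (nat_lit 352) (nat_lit 168) (nat_lit 617) (@Lb.fp (nat_lit 9) t897))))))))))))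
noncomputable def l25573 : Lb := (@Lb.d (nat_lit 662) (nat_lit 96) (nat_lit 533) (@Lb.r r1121 (@Lb.r r2438 (@Lb.r r339 (@Lb.g g7 (@Lb.g g6 (@Lb.d (nat_lit 0) (nat_lit 0) (nat_lit 65) (@Lb.fm (nat_lit 3) t4893))))))))
noncomputable def l25574 : Lb := (@Lb.r r323 (@Lb.d (nat_lit 130) (nat_lit 265) (nat_lit 16) (@Lb.g g8 (@Lb.g g9 (@Lb.g g6 (@Lb.r r1385 (@Lb.r r2583 (@Lb.r r2468 (@Lb.d (nat_lit 90) (nat_lit 102) (nat_lit 612) (@Lb.t (@Lb.fp (nat_lit 9) t3572)))))))))))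
noncomputable def l25575 : Lb := (@Lb.d (nat_lit 0) (nat_lit 264) (nat_lit 9) (@Lb.g g10 (@Lb.r r101 (@Lb.d (nat_lit 277) (nat_lit 9) (nat_lit 162) (@Lb.t (@Lb.fm (nat_lit 3) t2158))))))
noncomputable def l25576 : Lb := (@Lb.r r21 (@Lb.d (nat_lit 160) (nat_lit 0) (nat_lit 1) (@Lb.g g8 (@Lb.g g10 (@Lb.r r1607 (@Lb.r r418 (@Lb.r r1705 (@Lb.r r1704 (@Lb.d (nat_lit 132) (nat_lit 36) (nat_lit 24) (@Lb.fm (nat_lit 3) t2787))))))))))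
noncomputable def l25577 : Lb := (@Lb.d (nat_lit 8) (nat_lit 9) (nat_lit 73) (@Lb.g g9 (@Lb.g g10 (@Lb.g g11 (@Lb.r r2694 (@Lb.r r2459 (@Lb.r r2452 (@Lb.r r1705 (@Lb.d (nat_lit 80) (nat_lit 74) (nat_lit 520) (@Lb.t (@Lb.fm (nat_lit 9) t1428)))))))))))
noncomputable def l25578 : Lb := (@Lb.d (nat_lit 97) (nat_lit 596) (nat_lit 358) (@Lb.r r1702 (@Lb.r r2725 (@Lb.r r2723 (@Lb.g g10 (@Lb.g g8 (@Lb.d (nat_lit 320) (nat_lit 4) (nat_lit 5) (@Lb.fp (nat_lit 3) t4894))))))))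
noncomputable def l25579 : Lb := (@Lb.r r82 (@Lb.d (nat_lit 2) (nat_lit 385) (nat_lit 128) (@Lb.g g8 (@Lb.g g5 (@Lb.g g11 (@Lb.r r595 (@Lb.r r386 (@Lb.r r1096 (@Lb.d (nat_lit 0) (nat_lit 134) (nat_lit 32) (@Lb.t (@Lb.fm (nat_lit 9) t3758)))))))))))
noncomputable def l25580 : Lb := (@Lb.d (nat_lit 1) (nat_lit 256) (nat_lit 66) (@Lb.g g8 (@Lb.g g9 (@Lb.g g10 (@Lb.g g7 (@Lb.r r386 (@Lb.r r105 (@Lb.r r36 (@Lb.d (nat_lit 37) (nat_lit 81) (nat_lit 265) (@Lb.fm (nat_lit 9) t1926))))))))))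
noncomputable def l25581 : Lb := (@Lb.r r1287 (@Lb.r r1094 (@Lb.r r1045 (@Lb.r r8 (@Lb.d (nat_lit 0) (nat_lit 266) (nat_lit 2) (@Lb.fm (nat_lit 1) t1406))))))
noncomputable def l25582 : Lb := (@Lb.r r323 (@Lb.d (nat_lit 133) (nat_lit 0) (nat_lit 18) (@Lb.g g8 (@Lb.g g9 (@Lb.g g10 (@Lb.r r2345 (@Lb.r r1431 (@Lb.r r2660 (@Lb.d (nat_lit 666) (nat_lit 90) (nat_lit 408) (@Lb.t (@Lb.fp (nat_lit 9) t596)))))))))))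
noncomputable def l25583 : Lb := (@Lb.r r323 (@Lb.d (nat_lit 0) (nat_lit 258) (nat_lit 2) (@Lb.g g9 (@Lb.g g10 (@Lb.r r401 (@Lb.r r299 (@Lb.r r392 (@Lb.r r410 (@Lb.d (nat_lit 153) (nat_lit 154) (nat_lit 32) (@Lb.fm (nat_lit 3) t232))))))))))
noncomputable def l25584 : Lb := (@Lb.r r70 (@Lb.d (nat_lit 34) (nat_lit 514) (nat_lit 0) (@Lb.g g8 (@Lb.g g9 (@Lb.r r2475 (@Lb.r r2198 (@Lb.r r601 (@Lb.r r600 (@Lb.d (nat_lit 421) (nat_lit 165) (nat_lit 613) (@Lb.fm (nat_lit 3) t405))))))))))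
noncomputable def l25585 : Lb := (@Lb.r r70 (@Lb.d (nat_lit 34) (nat_lit 258) (nat_lit 0) (@Lb.g g8 (@Lb.g g9 (@Lb.r r2475 (@Lb.r r2198 (@Lb.r r601 (@Lb.r r600 (@Lb.d (nat_lit 421) (nat_lit 165) (nat_lit 677) (@Lb.fm (nat_lit 3) t823))))))))))
noncomputable def l25586 : Lb := (@Lb.r r70 (@Lb.d (nat_lit 33) (nat_lit 2) (nat_lit 0) (@Lb.g g8 (@Lb.g g9 (@Lb.r r2475 (@Lb.r r2198 (@Lb.r r601 (@Lb.r r600 (@Lb.d (nat_lit 421) (nat_lit 165) (nat_lit 613) (@Lb.fm (nat_lit 3) t405))))))))))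
noncomputable def l25587 : Lb := (@Lb.d (nat_lit 137) (nat_lit 546) (nat_lit 0) (@Lb.g g8 (@Lb.g g9 (@Lb.r r1299 (@Lb.r r2178 (@Lb.r r2709 (@Lb.r r104 (@Lb.d (nat_lit 84) (nat_lit 10) (nat_lit 1) (@Lb.fm (nat_lit 3) t124)))))))))
noncomputable def l25588 : Lb := (@Lb.d (nat_lit 401) (nat_lit 138) (nat_lit 69) (@Lb.r r2194 (@Lb.r r1381 (@Lb.r r24 (@Lb.r r2451 (@Lb.g g7 (@Lb.g g5 (@Lb.d (nat_lit 4) (nat_lit 1) (nat_lit 64) (@Lb.fp (nat_lit 3) t2095)))))))))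
noncomputable def l25589 : Lb := (@Lb.r r322 (@Lb.d (nat_lit 34) (nat_lit 514) (nat_lit 136) (@Lb.g g8 (@Lb.g g9 (@Lb.g g7 (@Lb.r r361 (@Lb.r r150 (@Lb.r r104 (@Lb.d (nat_lit 100) (nat_lit 10) (nat_lit 73) (@Lb.t (@Lb.fm (nat_lit 9) t242)))))))))))
noncomputable def l25590 : Lb := (@Lb.d (nat_lit 10) (nat_lit 512) (nat_lit 66) (@Lb.g g8 (@Lb.g g10 (@Lb.g g7 (@Lb.r r386 (@Lb.r r149 (@Lb.r r168 (@Lb.d (nat_lit 340) (nat_lit 6) (nat_lit 585) (@Lb.t (@Lb.fp (nat_lit 9) t1150))))))))))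
noncomputable def l25591 : Lb := (@Lb.d (nat_lit 0) (nat_lit 42) (nat_lit 1) (@Lb.g g9 (@Lb.g g10 (@Lb.r r2691 (@Lb.r r2214 (@Lb.r r596 (@Lb.r r297 (@Lb.d (nat_lit 580) (nat_lit 34) (nat_lit 320) (@Lb.fp (nat_lit 3) t98)))))))))
noncomputable def l25592 : Lb := (@Lb.r r355 (@Lb.d (nat_lit 0) (nat_lit 2) (nat_lit 32) (@Lb.g g9 (@Lb.g g10 (@Lb.r r2705 (@Lb.r r403 (@Lb.d (nat_lit 0) (nat_lit 80) (nat_lit 400) (@Lb.fm (nat_lit 3) t650))))))))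
noncomputable def l25593 : Lb := (@Lb.d (nat_lit 128) (nat_lit 522) (nat_lit 73) (@Lb.g g9 (@Lb.g g10 (@Lb.g g11 (@Lb.r r1186 (@Lb.r r2457 (@Lb.r r280 (@Lb.r r423 (@Lb.d (nat_lit 346) (nat_lit 162) (nat_lit 152) (@Lb.t (@Lb.fm (nat_lit 9) t789)))))))))))
noncomputable def l25594 : Lb := (@Lb.r r82 (@Lb.d (nat_lit 8) (nat_lit 514) (nat_lit 0) (@Lb.g g5 (@Lb.r r662 (@Lb.r r360 (@Lb.r r343 (@Lb.r r2729 (@Lb.d (nat_lit 390) (nat_lit 40) (nat_lit 601) (@Lb.t (@Lb.fp (nat_lit 3) t600))))))))))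
noncomputable def l25595 : Lb := (@Lb.d (nat_lit 6) (nat_lit 658) (nat_lit 320) (@Lb.r r21 (@Lb.r r579 (@Lb.r r1366 (@Lb.g g7 (@Lb.g g6 (@Lb.g g5 (@Lb.g g4 (@Lb.d (nat_lit 0) (nat_lit 1) (nat_lit 65) (@Lb.fm (nat_lit 9) t319))))))))))
noncomputable def l25596 : Lb := (@Lb.d (nat_lit 2) (nat_lit 258) (nat_lit 4) (@Lb.g g8 (@Lb.g g9 (@Lb.g g10 (@Lb.g g11 (@Lb.r r427 (@Lb.r r2201 (@Lb.r r146 (@Lb.d (nat_lit 289) (nat_lit 169) (nat_lit 417) (@Lb.fm (nat_lit 9) t791))))))))))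
noncomputable def l25597 : Lb := (@Lb.d (nat_lit 2) (nat_lit 256) (nat_lit 0) (@Lb.g g8 (@Lb.r r402 (@Lb.r r101 (@Lb.r r24 (@Lb.d (nat_lit 65) (nat_lit 10) (nat_lit 2) (@Lb.t (@Lb.fm (nat_lit 3) t145))))))))
noncomputable def l25598 : Lb := (@Lb.d (nat_lit 132) (nat_lit 2) (nat_lit 2) (@Lb.g g8 (@Lb.g g9 (@Lb.g g10 (@Lb.g g11 (@Lb.r r614 (@Lb.r r404 (@Lb.r r2585 (@Lb.r r1563 (@Lb.d (nat_lit 578) (nat_lit 138) (nat_lit 658) (@Lb.fm (nat_lit 9) t524)))))))))))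
noncomputable def l25599 : Lb := (@Lb.r r1425 (@Lb.r r402 (@Lb.r r1379 (@Lb.d (nat_lit 0) (nat_lit 132) (nat_lit 665) (@Lb.fm (nat_lit 1) t2954)))))
noncomputable def l25600 : Lb := (@Lb.r r323 (@Lb.d (nat_lit 8) (nat_lit 42) (nat_lit 2) (@Lb.g g9 (@Lb.g g10 (@Lb.r r1190 (@Lb.r r1624 (@Lb.r r1691 (@Lb.r r2385 (@Lb.d (nat_lit 258) (nat_lit 150) (nat_lit 678) (@Lb.fp (nat_lit 3) t125))))))))))
noncomputable def l25601 : Lb := (@Lb.d (nat_lit 646) (nat_lit 256) (nat_lit 608) (@Lb.r r1301 (@Lb.r r323 (@Lb.g g6 (@Lb.g g5 (@Lb.g g4 (@Lb.d (nat_lit 1) (nat_lit 1) (nat_lit 16) (@Lb.r r387 (@Lb.t (@Lb.fp (nat_lit 9) t1435))))))))))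
noncomputable def l25602 : Lb := (@Lb.r r1297 (@Lb.d (nat_lit 0) (nat_lit 8) (nat_lit 2) (@Lb.g g10 (@Lb.g g11 (@Lb.r r2435 (@Lb.d (nat_lit 0) (nat_lit 2) (nat_lit 530) (@Lb.fm (nat_lit 3) t4895)))))))
noncomputable def l25603 : Lb := (@Lb.d (nat_lit 160) (nat_lit 0) (nat_lit 578) (@Lb.g g9 (@Lb.g g10 (@Lb.g g11 (@Lb.r r2713 (@Lb.r r100 (@Lb.r r410 (@Lb.d (nat_lit 649) (nat_lit 146) (nat_lit 105) (@Lb.t (@Lb.fp (nat_lit 9) t2366))))))))))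
noncomputable def l25604 : Lb := (@Lb.d (nat_lit 160) (nat_lit 0) (nat_lit 578) (@Lb.g g9 (@Lb.g g10 (@Lb.g g11 (@Lb.r r2713 (@Lb.r r100 (@Lb.r r410 (@Lb.d (nat_lit 649) (nat_lit 80) (nat_lit 105) (@Lb.t (@Lb.fp (nat_lit 9) t1767))))))))))
noncomputable def l25605 : Lb := (@Lb.g g9 (@Lb.g g6 (@Lb.r r1543 (@Lb.r r1105 (@Lb.r r2392 (@Lb.r r1190 (@Lb.d (nat_lit 260) (nat_lit 520) (nat_lit 2) (@Lb.fm (nat_lit 3) t2876))))))))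
noncomputable def l25606 : Lb := (@Lb.d (nat_lit 0) (nat_lit 0) (nat_lit 74) (@Lb.g g9 (@Lb.g g10 (@Lb.g g11 (@Lb.r r610 (@Lb.r r579 (@Lb.d (nat_lit 0) (nat_lit 33) (nat_lit 74) (@Lb.t (@Lb.fp (nat_lit 9) t51)))))))))
noncomputable def l25607 : Lb := (@Lb.d (nat_lit 0) (nat_lit 165) (nat_lit 128) (@Lb.g g9 (@Lb.g g10 (@Lb.g g11 (@Lb.r r387 (@Lb.r r98 (@Lb.d (nat_lit 0) (nat_lit 84) (nat_lit 9) (@Lb.t (@Lb.fm (nat_lit 9) t406)))))))))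
noncomputable def l25608 : Lb := (@Lb.d (nat_lit 8) (nat_lit 512) (nat_lit 2) (@Lb.g g9 (@Lb.g g10 (@Lb.g g7 (@Lb.r r386 (@Lb.r r148 (@Lb.r r169 (@Lb.d (nat_lit 598) (nat_lit 6) (nat_lit 617) (@Lb.t (@Lb.fp (nat_lit 9) t166))))))))))
noncomputable def l25609 : Lb := (@Lb.d (nat_lit 2) (nat_lit 0) (nat_lit 2) (@Lb.g g8 (@Lb.g g9 (@Lb.g g10 (@Lb.g g7 (@Lb.r r386 (@Lb.r r20 (@Lb.r r105 (@Lb.r r36 (@Lb.d (nat_lit 610) (nat_lit 0) (nat_lit 617) (@Lb.fm (nat_lit 9) t166)))))))))))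
noncomputable def l25610 : Lb := (@Lb.g g7 (@Lb.r r609 (@Lb.r r363 (@Lb.r r356 (@Lb.r r154 (@Lb.d (nat_lit 256) (nat_lit 0) (nat_lit 16) (@Lb.t (@Lb.fm (nat_lit 3) t743))))))))
noncomputable def l25611 : Lb := (@Lb.r r81 (@Lb.d (nat_lit 128) (nat_lit 512) (nat_lit 105) (@Lb.g g10 (@Lb.g g11 (@Lb.r r344 (@Lb.r r359 (@Lb.r r37 (@Lb.d (nat_lit 5) (nat_lit 84) (nat_lit 132) (@Lb.fm (nat_lit 3) t2783)))))))))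
noncomputable def l25612 : Lb := (@Lb.r r82 (@Lb.d (nat_lit 128) (nat_lit 674) (nat_lit 64) (@Lb.g g9 (@Lb.g g11 (@Lb.r r662 (@Lb.r r328 (@Lb.r r327 (@Lb.d (nat_lit 346) (nat_lit 134) (nat_lit 134) (@Lb.fm (nat_lit 3) t31)))))))))
noncomputable def l25613 : Lb := (@Lb.g g10 (@Lb.g g7 (@Lb.r r609 (@Lb.r r363 (@Lb.r r356 (@Lb.r r154 (@Lb.d (nat_lit 266) (nat_lit 521) (nat_lit 18) (@Lb.fp (nat_lit 3) t425))))))))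
noncomputable def l25614 : Lb := (@Lb.r r81 (@Lb.d (nat_lit 128) (nat_lit 256) (nat_lit 105) (@Lb.g g10 (@Lb.g g11 (@Lb.r r344 (@Lb.r r359 (@Lb.r r37 (@Lb.d (nat_lit 2) (nat_lit 20) (nat_lit 132) (@Lb.fm (nat_lit 3) t601)))))))))
noncomputable def l25615 : Lb := (@Lb.r r82 (@Lb.d (nat_lit 0) (nat_lit 329) (nat_lit 128) (@Lb.g g5 (@Lb.g g11 (@Lb.r r595 (@Lb.r r98 (@Lb.d (nat_lit 0) (nat_lit 133) (nat_lit 1) (@Lb.fm (nat_lit 3) t144))))))))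
noncomputable def l25616 : Lb := (@Lb.d (nat_lit 2) (nat_lit 2) (nat_lit 66) (@Lb.g g8 (@Lb.g g9 (@Lb.g g10 (@Lb.g g7 (@Lb.r r386 (@Lb.r r2657 (@Lb.r r24 (@Lb.d (nat_lit 10) (nat_lit 169) (nat_lit 293) (@Lb.fp (nat_lit 9) t1403))))))))))
noncomputable def l25617 : Lb := (@Lb.d (nat_lit 8) (nat_lit 290) (nat_lit 0) (@Lb.g g9 (@Lb.r r536 (@Lb.r r2715 (@Lb.r r2178 (@Lb.r r425 (@Lb.d (nat_lit 672) (nat_lit 166) (nat_lit 154) (@Lb.t (@Lb.fp (nat_lit 3) t651)))))))))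
noncomputable def l25618 : Lb := (@Lb.r r355 (@Lb.d (nat_lit 0) (nat_lit 258) (nat_lit 32) (@Lb.g g9 (@Lb.g g10 (@Lb.r r2705 (@Lb.r r403 (@Lb.d (nat_lit 0) (nat_lit 80) (nat_lit 336) (@Lb.fm (nat_lit 3) t76))))))))
noncomputable def l25619 : Lb := (@Lb.d (nat_lit 0) (nat_lit 258) (nat_lit 66) (@Lb.g g9 (@Lb.g g10 (@Lb.g g7 (@Lb.r r386 (@Lb.r r2657 (@Lb.d (nat_lit 0) (nat_lit 169) (nat_lit 293) (@Lb.t (@Lb.fp (nat_lit 9) t603)))))))))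
noncomputable def l25620 : Lb := (@Lb.d (nat_lit 0) (nat_lit 256) (nat_lit 72) (@Lb.g g9 (@Lb.g g11 (@Lb.d (nat_lit 0) (nat_lit 0) (nat_lit 160) (@Lb.fm (nat_lit 3) t2)))))
noncomputable def l25621 : Lb := (@Lb.d (nat_lit 128) (nat_lit 0) (nat_lit 128) (@Lb.g g10 (@Lb.g g11 (@Lb.r r264 (@Lb.r r519 (@Lb.r r101 (@Lb.r r2194 (@Lb.d (nat_lit 656) (nat_lit 0) (nat_lit 21) (@Lb.fm (nat_lit 3) t939)))))))))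
noncomputable def l25622 : Lb := (@Lb.r r323 (@Lb.d (nat_lit 0) (nat_lit 10) (nat_lit 2) (@Lb.g g9 (@Lb.g g10 (@Lb.r r1681 (@Lb.r r2706 (@Lb.r r387 (@Lb.d (nat_lit 0) (nat_lit 42) (nat_lit 390) (@Lb.fp (nat_lit 3) t1)))))))))
noncomputable def l25623 : Lb := (@Lb.d (nat_lit 0) (nat_lit 292) (nat_lit 128) (@Lb.g g9 (@Lb.g g10 (@Lb.g g11 (@Lb.r r1299 (@Lb.r r1634 (@Lb.r r2193 (@Lb.d (nat_lit 0) (nat_lit 97) (nat_lit 390) (@Lb.t (@Lb.fm (nat_lit 9) t650))))))))))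
noncomputable def l25624 : Lb := (@Lb.d (nat_lit 273) (nat_lit 10) (nat_lit 0) (@Lb.g g4 (@Lb.g g9 (@Lb.r r2403 (@Lb.r r594 (@Lb.r r2449 (@Lb.d (nat_lit 6) (nat_lit 88) (nat_lit 297) (@Lb.fp (nat_lit 3) t3351))))))))
noncomputable def l25625 : Lb := (@Lb.d (nat_lit 2) (nat_lit 258) (nat_lit 130) (@Lb.g g8 (@Lb.g g9 (@Lb.g g10 (@Lb.g g11 (@Lb.r r2666 (@Lb.r r579 (@Lb.r r1129 (@Lb.r r1124 (@Lb.d (nat_lit 281) (nat_lit 32) (nat_lit 614) (@Lb.fp (nat_lit 9) t455)))))))))))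
noncomputable def l25626 : Lb := (@Lb.d (nat_lit 0) (nat_lit 2) (nat_lit 0) (@Lb.g g8 (@Lb.g g9 (@Lb.r r165 (@Lb.r r2726 (@Lb.r r1691 (@Lb.r r2564 (@Lb.d (nat_lit 384) (nat_lit 16) (nat_lit 256) (@Lb.fp (nat_lit 3) t4896)))))))))
noncomputable def l25627 : Lb := (@Lb.d (nat_lit 657) (nat_lit 256) (nat_lit 390) (@Lb.r r24 (@Lb.r r1125 (@Lb.r r386 (@Lb.g g11 (@Lb.g g6 (@Lb.d (nat_lit 0) (nat_lit 0) (nat_lit 385) (@Lb.r r529 (@Lb.fm (nat_lit 3) t475)))))))))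
noncomputable def l25628 : Lb := (@Lb.d (nat_lit 145) (nat_lit 258) (nat_lit 657) (@Lb.r r24 (@Lb.r r1383 (@Lb.r r1626 (@Lb.g g7 (@Lb.g g9 (@Lb.d (nat_lit 8) (nat_lit 2) (nat_lit 0) (@Lb.fm (nat_lit 3) t121))))))))
noncomputable def l25629 : Lb := (@Lb.r r1045 (@Lb.d (nat_lit 2) (nat_lit 0) (nat_lit 73) (@Lb.g g8 (@Lb.g g10 (@Lb.g g11 (@Lb.r r1543 (@Lb.r r1350 (@Lb.r r72 (@Lb.d (nat_lit 338) (nat_lit 0) (nat_lit 598) (@Lb.t (@Lb.fm (nat_lit 9) t873)))))))))))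
noncomputable def l25630 : Lb := (@Lb.d (nat_lit 417) (nat_lit 514) (nat_lit 356) (@Lb.r r24 (@Lb.r r1178 (@Lb.r r1691 (@Lb.g g7 (@Lb.g g6 (@Lb.g g9 (@Lb.d (nat_lit 8) (nat_lit 9) (nat_lit 133) (@Lb.t (@Lb.fp (nat_lit 9) t4897))))))))))
noncomputable def l25631 : Lb := (@Lb.d (nat_lit 662) (nat_lit 642) (nat_lit 609) (@Lb.r r584 (@Lb.r r619 (@Lb.r r1641 (@Lb.r r1366 (@Lb.g g6 (@Lb.g g5 (@Lb.g g4 (@Lb.d (nat_lit 34) (nat_lit 2) (nat_lit 1) (@Lb.t (@Lb.fm (nat_lit 9) t49)))))))))))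
noncomputable def l25632 : Lb := (@Lb.d (nat_lit 9) (nat_lit 1) (nat_lit 130) (@Lb.g g8 (@Lb.g g9 (@Lb.g g10 (@Lb.g g11 (@Lb.r r2666 (@Lb.r r579 (@Lb.r r1129 (@Lb.r r1124 (@Lb.d (nat_lit 280) (nat_lit 32) (nat_lit 614) (@Lb.fp (nat_lit 9) t455)))))))))))
noncomputable def l25633 : Lb := (@Lb.d (nat_lit 0) (nat_lit 512) (nat_lit 10) (@Lb.g g10 (@Lb.r r2449 (@Lb.d (nat_lit 0) (nat_lit 0) (nat_lit 548) (@Lb.t (@Lb.fp (nat_lit 3) t1375))))))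
noncomputable def l25634 : Lb := (@Lb.d (nat_lit 128) (nat_lit 266) (nat_lit 97) (@Lb.g g9 (@Lb.g g6 (@Lb.g g11 (@Lb.r r264 (@Lb.r r391 (@Lb.r r1169 (@Lb.d (nat_lit 97) (nat_lit 130) (nat_lit 137) (@Lb.t (@Lb.fm (nat_lit 9) t4898))))))))))
noncomputable def l25635 : Lb := (@Lb.d (nat_lit 0) (nat_lit 0) (nat_lit 10) (@Lb.g g10 (@Lb.r r1371 (@Lb.r r1364 (@Lb.r r2218 (@Lb.r r2081 (@Lb.d (nat_lit 26) (nat_lit 133) (nat_lit 33) (@Lb.t (@Lb.fp (nat_lit 3) t1416)))))))))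
noncomputable def l25636 : Lb := (@Lb.d (nat_lit 0) (nat_lit 8) (nat_lit 2) (@Lb.g g10 (@Lb.r r104 (@Lb.r r2153 (@Lb.r r2084 (@Lb.d (nat_lit 513) (nat_lit 0) (nat_lit 2) (@Lb.t (@Lb.fp (nat_lit 3) t627))))))))
noncomputable def l25637 : Lb := (@Lb.d (nat_lit 2) (nat_lit 514) (nat_lit 130) (@Lb.g g8 (@Lb.g g9 (@Lb.g g10 (@Lb.g g11 (@Lb.r r427 (@Lb.r r106 (@Lb.r r25 (@Lb.d (nat_lit 545) (nat_lit 0) (nat_lit 153) (@Lb.fp (nat_lit 9) t1320))))))))))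
noncomputable def l25638 : Lb := (@Lb.d (nat_lit 128) (nat_lit 2) (nat_lit 128) (@Lb.g g9 (@Lb.g g11 (@Lb.r r533 (@Lb.r r292 (@Lb.r r539 (@Lb.r r2178 (@Lb.d (nat_lit 329) (nat_lit 34) (nat_lit 20) (@Lb.fm (nat_lit 3) t4899)))))))))
noncomputable def l25639 : Lb := (@Lb.d (nat_lit 0) (nat_lit 520) (nat_lit 2) (@Lb.g g10 (@Lb.g g7 (@Lb.r r104 (@Lb.r r2153 (@Lb.r r2084 (@Lb.d (nat_lit 513) (nat_lit 0) (nat_lit 2) (@Lb.fp (nat_lit 3) t627))))))))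
noncomputable def l25640 : Lb := (@Lb.d (nat_lit 1) (nat_lit 8) (nat_lit 130) (@Lb.g g8 (@Lb.g g10 (@Lb.g g11 (@Lb.r r1419 (@Lb.r r101 (@Lb.r r1434 (@Lb.d (nat_lit 408) (nat_lit 85) (nat_lit 393) (@Lb.t (@Lb.fm (nat_lit 9) t221))))))))))
noncomputable def l25641 : Lb := (@Lb.g g4 (@Lb.g g7 (@Lb.r r1299 (@Lb.d (nat_lit 0) (nat_lit 64) (nat_lit 0) (@Lb.fm (nat_lit 3) t851)))))
noncomputable def l25642 : Lb := (@Lb.d (nat_lit 1) (nat_lit 512) (nat_lit 128) (@Lb.g g8 (@Lb.g g11 (@Lb.r r1419 (@Lb.r r402 (@Lb.r r1049 (@Lb.d (nat_lit 25) (nat_lit 68) (nat_lit 34) (@Lb.fp (nat_lit 3) t638))))))))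
noncomputable def l25643 : Lb := (@Lb.r r82 (@Lb.r r275 (@Lb.d (nat_lit 1) (nat_lit 98) (nat_lit 0) (@Lb.g g8 (@Lb.g g9 (@Lb.r r1559 (@Lb.r r2376 (@Lb.r r1158 (@Lb.d (nat_lit 2) (nat_lit 2) (nat_lit 72) (@Lb.fp (nat_lit 3) t123))))))))))
noncomputable def l25644 : Lb := (@Lb.d (nat_lit 0) (nat_lit 418) (nat_lit 512) (@Lb.g g7 (@Lb.g g4 (@Lb.d (nat_lit 1) (nat_lit 16) (nat_lit 256) (@Lb.fm (nat_lit 3) t851)))))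
noncomputable def l25645 : Lb := (@Lb.d (nat_lit 329) (nat_lit 42) (nat_lit 393) (@Lb.r r2583 (@Lb.r r1432 (@Lb.r r2138 (@Lb.g g7 (@Lb.g g9 (@Lb.g g4 (@Lb.d (nat_lit 82) (nat_lit 66) (nat_lit 132) (@Lb.r r98 (@Lb.t (@Lb.fm (nat_lit 9) t2020)))))))))))
noncomputable def l25646 : Lb := (@Lb.d (nat_lit 2) (nat_lit 37) (nat_lit 74) (@Lb.g g8 (@Lb.g g9 (@Lb.g g10 (@Lb.g g11 (@Lb.r r676 (@Lb.r r423 (@Lb.r r1414 (@Lb.r r357 (@Lb.r r516 (@Lb.d (nat_lit 2) (nat_lit 72) (nat_lit 33) (@Lb.fp (nat_lit 9) t4385))))))))))))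
noncomputable def l25647 : Lb := (@Lb.d (nat_lit 2) (nat_lit 544) (nat_lit 130) (@Lb.g g8 (@Lb.g g10 (@Lb.g g11 (@Lb.r r353 (@Lb.r r1690 (@Lb.r r1688 (@Lb.r r1563 (@Lb.d (nat_lit 585) (nat_lit 130) (nat_lit 586) (@Lb.t (@Lb.fm (nat_lit 9) t210)))))))))))
noncomputable def l25648 : Lb := (@Lb.d (nat_lit 2) (nat_lit 512) (nat_lit 0) (@Lb.g g8 (@Lb.r r1049 (@Lb.r r24 (@Lb.d (nat_lit 265) (nat_lit 128) (nat_lit 0) (@Lb.t (@Lb.fm (nat_lit 3) t2)))))))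
noncomputable def l25649 : Lb := (@Lb.d (nat_lit 2) (nat_lit 576) (nat_lit 0) (@Lb.r r1049 (@Lb.r r24 (@Lb.g g9 (@Lb.t (@Lb.fm (nat_lit 3) t2))))))
noncomputable def l25650 : Lb := (@Lb.d (nat_lit 2) (nat_lit 258) (nat_lit 66) (@Lb.g g8 (@Lb.g g9 (@Lb.g g10 (@Lb.g g7 (@Lb.r r386 (@Lb.r r97 (@Lb.r r24 (@Lb.d (nat_lit 0) (nat_lit 90) (nat_lit 329) (@Lb.fp (nat_lit 9) t845))))))))))
noncomputable def l25651 : Lb := (@Lb.d (nat_lit 32) (nat_lit 258) (nat_lit 74) (@Lb.g g9 (@Lb.g g10 (@Lb.g g11 (@Lb.r r1559 (@Lb.r r2197 (@Lb.r r1124 (@Lb.r r2458 (@Lb.d (nat_lit 136) (nat_lit 80) (nat_lit 649) (@Lb.t (@Lb.fm (nat_lit 9) t61)))))))))))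
noncomputable def l25652 : Lb := (@Lb.r r323 (@Lb.g g9 (@Lb.g g10 (@Lb.r r1703 (@Lb.r r1433 (@Lb.r r1380 (@Lb.r r2202 (@Lb.d (nat_lit 9) (nat_lit 265) (nat_lit 18) (@Lb.fm (nat_lit 3) t4250)))))))))
noncomputable def l25653 : Lb := (@Lb.d (nat_lit 0) (nat_lit 2) (nat_lit 137) (@Lb.g g9 (@Lb.g g10 (@Lb.g g11 (@Lb.r r2705 (@Lb.r r535 (@Lb.r r2440 (@Lb.r r2122 (@Lb.d (nat_lit 294) (nat_lit 8) (nat_lit 32) (@Lb.t (@Lb.fm (nat_lit 9) t61)))))))))))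
noncomputable def l25654 : Lb := (@Lb.d (nat_lit 0) (nat_lit 384) (nat_lit 576) (@Lb.r r609 (@Lb.r r363 (@Lb.r r356 (@Lb.r r154 (@Lb.g g5 (@Lb.g g4 (@Lb.fm (nat_lit 3) t743))))))))
noncomputable def l25655 : Lb := (@Lb.d (nat_lit 0) (nat_lit 256) (nat_lit 168) (@Lb.g g6 (@Lb.g g11 (@Lb.d (nat_lit 0) (nat_lit 5) (nat_lit 129) (@Lb.fp (nat_lit 3) t45)))))
noncomputable def l25656 : Lb := (@Lb.d (nat_lit 0) (nat_lit 256) (nat_lit 337) (@Lb.r r1617 (@Lb.g g6 (@Lb.d (nat_lit 0) (nat_lit 0) (nat_lit 5) (@Lb.t (@Lb.fm (nat_lit 3) t99))))))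
noncomputable def l25657 : Lb := (@Lb.d (nat_lit 32) (nat_lit 2) (nat_lit 137) (@Lb.g g9 (@Lb.g g10 (@Lb.g g11 (@Lb.r r2709 (@Lb.r r1380 (@Lb.r r2715 (@Lb.r r2634 (@Lb.d (nat_lit 353) (nat_lit 10) (nat_lit 257) (@Lb.t (@Lb.fp (nat_lit 9) t564)))))))))))
noncomputable def l25658 : Lb := (@Lb.d (nat_lit 145) (nat_lit 256) (nat_lit 6) (@Lb.r r24 (@Lb.r r101 (@Lb.r r386 (@Lb.r r339 (@Lb.g g7 (@Lb.g g6 (@Lb.g g4 (@Lb.d (nat_lit 1) (nat_lit 0) (nat_lit 65) (@Lb.t (@Lb.fm (nat_lit 9) t50)))))))))))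
noncomputable def l25659 : Lb := (@Lb.r r2403 (@Lb.r r594 (@Lb.r r2449 (@Lb.r r2436 (@Lb.d (nat_lit 0) (nat_lit 536) (nat_lit 537) (@Lb.fp (nat_lit 1) t2131))))))
noncomputable def l25660 : Lb := (@Lb.d (nat_lit 2) (nat_lit 257) (nat_lit 128) (@Lb.g g8 (@Lb.g g9 (@Lb.g g10 (@Lb.g g11 (@Lb.r r1671 (@Lb.r r1681 (@Lb.r r2404 (@Lb.r r1178 (@Lb.d (nat_lit 168) (nat_lit 74) (nat_lit 84) (@Lb.fp (nat_lit 9) t646)))))))))))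
noncomputable def l25661 : Lb := (@Lb.d (nat_lit 584) (nat_lit 2) (nat_lit 276) (@Lb.r r20 (@Lb.r r2393 (@Lb.r r1443 (@Lb.r r2450 (@Lb.g g7 (@Lb.g g5 (@Lb.g g4 (@Lb.d (nat_lit 2) (nat_lit 5) (nat_lit 128) (@Lb.t (@Lb.fm (nat_lit 9) t919)))))))))))
noncomputable def l25662 : Lb := (@Lb.d (nat_lit 512) (nat_lit 152) (nat_lit 581) (@Lb.r r1096 (@Lb.r r1635 (@Lb.r r2390 (@Lb.g g7 (@Lb.g g5 (@Lb.g g4 (@Lb.d (nat_lit 0) (nat_lit 81) (nat_lit 128) (@Lb.r r98 (@Lb.t (@Lb.fp (nat_lit 9) t4900)))))))))))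
noncomputable def l25663 : Lb := (@Lb.d (nat_lit 0) (nat_lit 256) (nat_lit 170) (@Lb.r r609 (@Lb.r r363 (@Lb.r r328 (@Lb.r r134 (@Lb.g g4 (@Lb.t (@Lb.fp (nat_lit 3) t40))))))))
noncomputable def l25664 : Lb := (@Lb.d (nat_lit 0) (nat_lit 0) (nat_lit 66) (@Lb.g g8 (@Lb.g g10 (@Lb.g g7 (@Lb.r r386 (@Lb.d (nat_lit 0) (nat_lit 0) (nat_lit 9) (@Lb.t (@Lb.fm (nat_lit 9) t2))))))))
noncomputable def l25665 : Lb := (@Lb.r r20 (@Lb.r r275 (@Lb.d (nat_lit 8) (nat_lit 548) (nat_lit 0) (@Lb.g g5 (@Lb.g g10 (@Lb.r r1174 (@Lb.r r2376 (@Lb.r r1543 (@Lb.d (nat_lit 584) (nat_lit 0) (nat_lit 69) (@Lb.fm (nat_lit 3) t68))))))))))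
noncomputable def l25666 : Lb := (@Lb.r r579 (@Lb.r r402 (@Lb.r r2145 (@Lb.r r36 (@Lb.d (nat_lit 5) (nat_lit 513) (nat_lit 0) (@Lb.fm (nat_lit 1) t940))))))
noncomputable def l25667 : Lb := (@Lb.r r82 (@Lb.d (nat_lit 34) (nat_lit 514) (nat_lit 136) (@Lb.g g8 (@Lb.g g9 (@Lb.g g11 (@Lb.r r1641 (@Lb.r r150 (@Lb.r r356 (@Lb.r r395 (@Lb.d (nat_lit 384) (nat_lit 34) (nat_lit 585) (@Lb.t (@Lb.fm (nat_lit 9) t355))))))))))))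
noncomputable def l25668 : Lb := (@Lb.d (nat_lit 36) (nat_lit 586) (nat_lit 18) (@Lb.r r597 (@Lb.r r279 (@Lb.r r584 (@Lb.r r134 (@Lb.g g7 (@Lb.d (nat_lit 0) (nat_lit 0) (nat_lit 64) (@Lb.t (@Lb.fm (nat_lit 3) t312)))))))))
noncomputable def l25669 : Lb := (@Lb.d (nat_lit 8) (nat_lit 258) (nat_lit 0) (@Lb.g g9 (@Lb.r r24 (@Lb.r r2069 (@Lb.d (nat_lit 550) (nat_lit 130) (nat_lit 32) (@Lb.t (@Lb.fm (nat_lit 3) t183)))))))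
noncomputable def l25670 : Lb := (@Lb.r r81 (@Lb.d (nat_lit 10) (nat_lit 36) (nat_lit 161) (@Lb.g g8 (@Lb.g g6 (@Lb.g g11 (@Lb.r r149 (@Lb.r r360 (@Lb.r r583 (@Lb.d (nat_lit 146) (nat_lit 22) (nat_lit 537) (@Lb.t (@Lb.fp (nat_lit 9) t355)))))))))))
noncomputable def l25671 : Lb := (@Lb.r r21 (@Lb.d (nat_lit 170) (nat_lit 256) (nat_lit 128) (@Lb.g g8 (@Lb.g g11 (@Lb.r r166 (@Lb.r r1553 (@Lb.r r2395 (@Lb.r r1368 (@Lb.d (nat_lit 153) (nat_lit 88) (nat_lit 388) (@Lb.fm (nat_lit 3) t812))))))))))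
noncomputable def l25672 : Lb := (@Lb.d (nat_lit 0) (nat_lit 646) (nat_lit 32) (@Lb.fp (nat_lit 1) t45))
noncomputable def l25673 : Lb := (@Lb.d (nat_lit 129) (nat_lit 2) (nat_lit 2) (@Lb.g g8 (@Lb.g g9 (@Lb.g g10 (@Lb.r r2691 (@Lb.r r2217 (@Lb.r r2666 (@Lb.r r104 (@Lb.d (nat_lit 676) (nat_lit 10) (nat_lit 329) (@Lb.t (@Lb.fp (nat_lit 9) t242)))))))))))
noncomputable def l25674 : Lb := (@Lb.d (nat_lit 1) (nat_lit 514) (nat_lit 2) (@Lb.g g8 (@Lb.g g9 (@Lb.g g10 (@Lb.r r1689 (@Lb.r r1688 (@Lb.r r1691 (@Lb.r r1610 (@Lb.d (nat_lit 609) (nat_lit 90) (nat_lit 345) (@Lb.t (@Lb.fm (nat_lit 9) t2118)))))))))))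
noncomputable def l25675 : Lb := (@Lb.d (nat_lit 2) (nat_lit 33) (nat_lit 66) (@Lb.g g8 (@Lb.g g9 (@Lb.g g10 (@Lb.g g11 (@Lb.r r2595 (@Lb.r r386 (@Lb.r r36 (@Lb.r r149 (@Lb.r r2084 (@Lb.d (nat_lit 640) (nat_lit 10) (nat_lit 677) (@Lb.fp (nat_lit 9) t865))))))))))))
noncomputable def l25676 : Lb := (@Lb.d (nat_lit 0) (nat_lit 261) (nat_lit 0) (@Lb.g g5 (@Lb.g g7 (@Lb.r r402 (@Lb.r r24 (@Lb.d (nat_lit 0) (nat_lit 134) (nat_lit 133) (@Lb.fm (nat_lit 3) t3110)))))))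
noncomputable def l25677 : Lb := (@Lb.d (nat_lit 4) (nat_lit 257) (nat_lit 0) (@Lb.g g5 (@Lb.r r1126 (@Lb.r r24 (@Lb.d (nat_lit 576) (nat_lit 1) (nat_lit 512) (@Lb.t (@Lb.fp (nat_lit 3) t282)))))))
noncomputable def l25678 : Lb := (@Lb.d (nat_lit 0) (nat_lit 262) (nat_lit 2) (@Lb.g g9 (@Lb.g g10 (@Lb.r r81 (@Lb.r r2210 (@Lb.r r145 (@Lb.d (nat_lit 0) (nat_lit 134) (nat_lit 162) (@Lb.fp (nat_lit 3) t99))))))))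
noncomputable def l25679 : Lb := (@Lb.d (nat_lit 0) (nat_lit 25) (nat_lit 612) (@Lb.r r2706 (@Lb.r r2385 (@Lb.g g7 (@Lb.g g6 (@Lb.g g5 (@Lb.d (nat_lit 0) (nat_lit 5) (nat_lit 2) (@Lb.t (@Lb.fm (nat_lit 9) t24)))))))))
noncomputable def l25680 : Lb := (@Lb.d (nat_lit 32) (nat_lit 262) (nat_lit 74) (@Lb.g g9 (@Lb.g g10 (@Lb.g g11 (@Lb.r r529 (@Lb.r r1380 (@Lb.r r2715 (@Lb.r r2634 (@Lb.d (nat_lit 337) (nat_lit 10) (nat_lit 258) (@Lb.t (@Lb.fp (nat_lit 9) t1126)))))))))))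
noncomputable def l25681 : Lb := (@Lb.d (nat_lit 2) (nat_lit 5) (nat_lit 0) (@Lb.g g8 (@Lb.g g5 (@Lb.g g7 (@Lb.r r402 (@Lb.r r24 (@Lb.d (nat_lit 0) (nat_lit 134) (nat_lit 133) (@Lb.t (@Lb.fm (nat_lit 9) t3110)))))))))
noncomputable def l25682 : Lb := (@Lb.d (nat_lit 394) (nat_lit 257) (nat_lit 256) (@Lb.r r289 (@Lb.r r535 (@Lb.r r328 (@Lb.r r2694 (@Lb.g g7 (@Lb.g g6 (@Lb.g g5 (@Lb.d (nat_lit 0) (nat_lit 0) (nat_lit 133) (@Lb.t (@Lb.fp (nat_lit 9) t4901)))))))))))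
noncomputable def l25683 : Lb := (@Lb.d (nat_lit 68) (nat_lit 0) (nat_lit 66) (@Lb.g g8 (@Lb.g g9 (@Lb.g g10 (@Lb.g g11 (@Lb.r r2666 (@Lb.r r612 (@Lb.r r2471 (@Lb.r r1045 (@Lb.r r2084 (@Lb.d (nat_lit 9) (nat_lit 170) (nat_lit 264) (@Lb.fp (nat_lit 9) t782))))))))))))
noncomputable def l25684 : Lb := (@Lb.d (nat_lit 148) (nat_lit 257) (nat_lit 65) (@Lb.r r409 (@Lb.r r342 (@Lb.g g7 (@Lb.g g5 (@Lb.g g4 (@Lb.d (nat_lit 1) (nat_lit 0) (nat_lit 128) (@Lb.r r98 (@Lb.t (@Lb.fp (nat_lit 9) t40))))))))))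
noncomputable def l25685 : Lb := (@Lb.d (nat_lit 6) (nat_lit 0) (nat_lit 73) (@Lb.g g8 (@Lb.g g9 (@Lb.g g6 (@Lb.g g11 (@Lb.r r579 (@Lb.r r104 (@Lb.r r25 (@Lb.d (nat_lit 34) (nat_lit 0) (nat_lit 9) (@Lb.fm (nat_lit 9) t40))))))))))
noncomputable def l25686 : Lb := (@Lb.d (nat_lit 2) (nat_lit 514) (nat_lit 2) (@Lb.g g8 (@Lb.g g9 (@Lb.g g10 (@Lb.r r1689 (@Lb.r r2579 (@Lb.r r386 (@Lb.d (nat_lit 289) (nat_lit 0) (nat_lit 100) (@Lb.t (@Lb.fm (nat_lit 9) t791))))))))))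
noncomputable def l25687 : Lb := (@Lb.d (nat_lit 0) (nat_lit 512) (nat_lit 74) (@Lb.g g10 (@Lb.g g11 (@Lb.r r658 (@Lb.r r1683 (@Lb.r r101 (@Lb.r r24 (@Lb.d (nat_lit 642) (nat_lit 0) (nat_lit 64) (@Lb.fm (nat_lit 3) t145)))))))))
noncomputable def l25688 : Lb := (@Lb.d (nat_lit 130) (nat_lit 8) (nat_lit 2) (@Lb.g g8 (@Lb.g g10 (@Lb.r r263 (@Lb.r r2712 (@Lb.r r101 (@Lb.r r154 (@Lb.d (nat_lit 5) (nat_lit 88) (nat_lit 289) (@Lb.fp (nat_lit 3) t127)))))))))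
noncomputable def l25689 : Lb := (@Lb.r r360 (@Lb.r r1303 (@Lb.r r2178 (@Lb.r r2081 (@Lb.r r516 (@Lb.d (nat_lit 0) (nat_lit 518) (nat_lit 0) (@Lb.fm (nat_lit 1) t2414)))))))
noncomputable def l25690 : Lb := (@Lb.d (nat_lit 32) (nat_lit 544) (nat_lit 2) (@Lb.g g9 (@Lb.g g10 (@Lb.r r1348 (@Lb.r r2699 (@Lb.r r2730 (@Lb.r r2209 (@Lb.d (nat_lit 101) (nat_lit 166) (nat_lit 130) (@Lb.fp (nat_lit 3) t127)))))))))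
noncomputable def l25691 : Lb := (@Lb.d (nat_lit 2) (nat_lit 514) (nat_lit 66) (@Lb.g g8 (@Lb.g g9 (@Lb.g g10 (@Lb.g g11 (@Lb.r r427 (@Lb.r r386 (@Lb.r r97 (@Lb.r r24 (@Lb.d (nat_lit 74) (nat_lit 4) (nat_lit 70) (@Lb.fm (nat_lit 9) t61)))))))))))
noncomputable def l25692 : Lb := (@Lb.d (nat_lit 32) (nat_lit 256) (nat_lit 2) (@Lb.g g9 (@Lb.g g10 (@Lb.g g7 (@Lb.r r72 (@Lb.r r598 (@Lb.r r289 (@Lb.d (nat_lit 153) (nat_lit 73) (nat_lit 258) (@Lb.t (@Lb.fp (nat_lit 9) t1190))))))))))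
noncomputable def l25693 : Lb := (@Lb.d (nat_lit 0) (nat_lit 34) (nat_lit 0) (@Lb.g g5 (@Lb.g g10 (@Lb.r r323 (@Lb.r r2210 (@Lb.r r1441 (@Lb.d (nat_lit 0) (nat_lit 100) (nat_lit 137) (@Lb.fp (nat_lit 3) t1814))))))))
noncomputable def l25694 : Lb := (@Lb.d (nat_lit 2) (nat_lit 258) (nat_lit 130) (@Lb.g g8 (@Lb.g g9 (@Lb.g g10 (@Lb.g g11 (@Lb.r r2411 (@Lb.r r386 (@Lb.r r97 (@Lb.r r24 (@Lb.d (nat_lit 538) (nat_lit 4) (nat_lit 70) (@Lb.fm (nat_lit 9) t61)))))))))))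
noncomputable def l25695 : Lb := (@Lb.d (nat_lit 130) (nat_lit 32) (nat_lit 2) (@Lb.g g8 (@Lb.g g9 (@Lb.g g10 (@Lb.r r263 (@Lb.r r2696 (@Lb.r r2218 (@Lb.r r2209 (@Lb.d (nat_lit 37) (nat_lit 21) (nat_lit 258) (@Lb.t (@Lb.fp (nat_lit 9) t127)))))))))))
noncomputable def l25696 : Lb := (@Lb.r r289 (@Lb.r r535 (@Lb.r r328 (@Lb.r r134 (@Lb.d (nat_lit 6) (nat_lit 320) (nat_lit 0) (@Lb.fp (nat_lit 1) t427))))))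
noncomputable def l25697 : Lb := (@Lb.d (nat_lit 0) (nat_lit 8) (nat_lit 74) (@Lb.g g10 (@Lb.g g11 (@Lb.r r1361 (@Lb.r r2727 (@Lb.r r1348 (@Lb.r r2186 (@Lb.d (nat_lit 520) (nat_lit 128) (nat_lit 33) (@Lb.fm (nat_lit 3) t127)))))))))
noncomputable def l25698 : Lb := (@Lb.r r338 (@Lb.d (nat_lit 0) (nat_lit 96) (nat_lit 128) (@Lb.g g5 (@Lb.g g11 (@Lb.r r2579 (@Lb.r r1122 (@Lb.d (nat_lit 0) (nat_lit 98) (nat_lit 384) (@Lb.fm (nat_lit 3) t144))))))))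
noncomputable def l25699 : Lb := (@Lb.d (nat_lit 0) (nat_lit 294) (nat_lit 128) (@Lb.g g9 (@Lb.g g10 (@Lb.g g11 (@Lb.r r1699 (@Lb.r r386 (@Lb.r r1561 (@Lb.r r24 (@Lb.d (nat_lit 16) (nat_lit 0) (nat_lit 361) (@Lb.t (@Lb.fp (nat_lit 9) t860)))))))))))
noncomputable def l25700 : Lb := (@Lb.d (nat_lit 32) (nat_lit 0) (nat_lit 2) (@Lb.g g10 (@Lb.r r1348 (@Lb.r r2459 (@Lb.r r613 (@Lb.r r410 (@Lb.d (nat_lit 133) (nat_lit 88) (nat_lit 153) (@Lb.t (@Lb.fp (nat_lit 3) t127)))))))))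
noncomputable def l25701 : Lb := (@Lb.d (nat_lit 32) (nat_lit 256) (nat_lit 2) (@Lb.g g10 (@Lb.r r1348 (@Lb.r r2459 (@Lb.r r613 (@Lb.r r410 (@Lb.d (nat_lit 136) (nat_lit 89) (nat_lit 153) (@Lb.t (@Lb.fp (nat_lit 3) t127)))))))))
noncomputable def l25702 : Lb := (@Lb.d (nat_lit 70) (nat_lit 37) (nat_lit 101) (@Lb.r r359 (@Lb.r r532 (@Lb.r r1369 (@Lb.g g7 (@Lb.g g6 (@Lb.g g5 (@Lb.d (nat_lit 64) (nat_lit 0) (nat_lit 98) (@Lb.t (@Lb.fp (nat_lit 9) t1076))))))))))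
noncomputable def l25703 : Lb := (@Lb.d (nat_lit 130) (nat_lit 0) (nat_lit 0) (@Lb.g g4 (@Lb.r r682 (@Lb.r r665 (@Lb.r r1435 (@Lb.r r1448 (@Lb.d (nat_lit 361) (nat_lit 154) (nat_lit 425) (@Lb.t (@Lb.fm (nat_lit 3) t71)))))))))
noncomputable def l25704 : Lb := (@Lb.d (nat_lit 128) (nat_lit 514) (nat_lit 0) (@Lb.g g8 (@Lb.g g9 (@Lb.r r2345 (@Lb.r r1559 (@Lb.r r2178 (@Lb.r r1444 (@Lb.d (nat_lit 362) (nat_lit 166) (nat_lit 344) (@Lb.fp (nat_lit 3) t246)))))))))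
noncomputable def l25705 : Lb := (@Lb.d (nat_lit 328) (nat_lit 38) (nat_lit 102) (@Lb.r r410 (@Lb.r r148 (@Lb.r r1365 (@Lb.r r1707 (@Lb.g g7 (@Lb.g g6 (@Lb.g g5 (@Lb.d (nat_lit 16) (nat_lit 5) (nat_lit 2) (@Lb.t (@Lb.fp (nat_lit 9) t119)))))))))))
noncomputable def l25706 : Lb := (@Lb.d (nat_lit 128) (nat_lit 1) (nat_lit 0) (@Lb.g g8 (@Lb.g g9 (@Lb.r r662 (@Lb.r r361 (@Lb.r r1431 (@Lb.r r2644 (@Lb.d (nat_lit 662) (nat_lit 41) (nat_lit 640) (@Lb.fm (nat_lit 3) t71)))))))))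
noncomputable def l25707 : Lb := (@Lb.d (nat_lit 130) (nat_lit 258) (nat_lit 0) (@Lb.g g8 (@Lb.g g9 (@Lb.r r2345 (@Lb.r r1559 (@Lb.r r2178 (@Lb.r r1444 (@Lb.d (nat_lit 362) (nat_lit 161) (nat_lit 346) (@Lb.fp (nat_lit 3) t970)))))))))
noncomputable def l25708 : Lb := (@Lb.d (nat_lit 328) (nat_lit 38) (nat_lit 102) (@Lb.r r410 (@Lb.r r148 (@Lb.r r1365 (@Lb.r r1707 (@Lb.g g7 (@Lb.g g6 (@Lb.g g5 (@Lb.d (nat_lit 16) (nat_lit 0) (nat_lit 65) (@Lb.t (@Lb.fp (nat_lit 9) t51)))))))))))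
noncomputable def l25709 : Lb := (@Lb.d (nat_lit 34) (nat_lit 2) (nat_lit 0) (@Lb.g g8 (@Lb.g g9 (@Lb.r r1186 (@Lb.r r1065 (@Lb.r r360 (@Lb.r r1543 (@Lb.d (nat_lit 0) (nat_lit 73) (nat_lit 21) (@Lb.fm (nat_lit 3) t242)))))))))
noncomputable def l25710 : Lb := (@Lb.r r21 (@Lb.d (nat_lit 2) (nat_lit 0) (nat_lit 9) (@Lb.g g8 (@Lb.g g6 (@Lb.r r515 (@Lb.r r145 (@Lb.r r72 (@Lb.d (nat_lit 34) (nat_lit 5) (nat_lit 129) (@Lb.fp (nat_lit 3) t40)))))))))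
noncomputable def l25711 : Lb := (@Lb.d (nat_lit 2) (nat_lit 514) (nat_lit 9) (@Lb.g g8 (@Lb.g g9 (@Lb.g g6 (@Lb.r r515 (@Lb.r r97 (@Lb.r r24 (@Lb.d (nat_lit 10) (nat_lit 4) (nat_lit 130) (@Lb.t (@Lb.fm (nat_lit 9) t40))))))))))
noncomputable def l25712 : Lb := (@Lb.d (nat_lit 16) (nat_lit 258) (nat_lit 678) (@Lb.r r24 (@Lb.r r386 (@Lb.r r1563 (@Lb.g g6 (@Lb.g g9 (@Lb.d (nat_lit 8) (nat_lit 162) (nat_lit 1) (@Lb.r r291 (@Lb.fm (nat_lit 3) t3250)))))))))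
noncomputable def l25713 : Lb := (@Lb.d (nat_lit 289) (nat_lit 0) (nat_lit 642) (@Lb.r r24 (@Lb.r r386 (@Lb.r r2395 (@Lb.r r677 (@Lb.g g7 (@Lb.g g6 (@Lb.g g5 (@Lb.d (nat_lit 0) (nat_lit 17) (nat_lit 129) (@Lb.t (@Lb.fm (nat_lit 9) t719)))))))))))
noncomputable def l25714 : Lb := (@Lb.d (nat_lit 17) (nat_lit 0) (nat_lit 646) (@Lb.r r24 (@Lb.r r2587 (@Lb.r r1365 (@Lb.r r2722 (@Lb.g g7 (@Lb.g g6 (@Lb.g g5 (@Lb.d (nat_lit 0) (nat_lit 1) (nat_lit 8) (@Lb.t (@Lb.fm (nat_lit 9) t2686)))))))))))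
noncomputable def l25715 : Lb := (@Lb.d (nat_lit 65) (nat_lit 2) (nat_lit 646) (@Lb.r r24 (@Lb.r r386 (@Lb.r r2587 (@Lb.g g7 (@Lb.g g9 (@Lb.d (nat_lit 8) (nat_lit 10) (nat_lit 64) (@Lb.r r98 (@Lb.fm (nat_lit 3) t2775)))))))))
noncomputable def l25716 : Lb := (@Lb.d (nat_lit 656) (nat_lit 0) (nat_lit 390) (@Lb.r r24 (@Lb.r r1125 (@Lb.r r386 (@Lb.g g11 (@Lb.g g6 (@Lb.d (nat_lit 0) (nat_lit 0) (nat_lit 321) (@Lb.r r529 (@Lb.fm (nat_lit 3) t719)))))))))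
noncomputable def l25717 : Lb := (@Lb.d (nat_lit 417) (nat_lit 256) (nat_lit 517) (@Lb.r r24 (@Lb.r r1639 (@Lb.r r1637 (@Lb.g g7 (@Lb.g g10 (@Lb.d (nat_lit 0) (nat_lit 0) (nat_lit 150) (@Lb.r r145 (@Lb.fm (nat_lit 3) t719)))))))))
noncomputable def l25718 : Lb := (@Lb.r r2311 (@Lb.r r2196 (@Lb.r r2454 (@Lb.r r601 (@Lb.d (nat_lit 0) (nat_lit 128) (nat_lit 613) (@Lb.fm (nat_lit 1) t2503))))))
noncomputable def l25719 : Lb := (@Lb.d (nat_lit 513) (nat_lit 512) (nat_lit 256) (@Lb.r r24 (@Lb.r r101 (@Lb.r r2642 (@Lb.r r2691 (@Lb.g g11 (@Lb.g g6 (@Lb.fm (nat_lit 3) t2341))))))))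
noncomputable def l25720 : Lb := (@Lb.r r275 (@Lb.d (nat_lit 2) (nat_lit 4) (nat_lit 0) (@Lb.g g8 (@Lb.g g9 (@Lb.g g10 (@Lb.r r675 (@Lb.r r578 (@Lb.r r417 (@Lb.d (nat_lit 2) (nat_lit 128) (nat_lit 137) (@Lb.t (@Lb.fm (nat_lit 9) t218)))))))))))
noncomputable def l25721 : Lb := (@Lb.d (nat_lit 82) (nat_lit 0) (nat_lit 586) (@Lb.r r24 (@Lb.r r101 (@Lb.r r2659 (@Lb.g g7 (@Lb.g g10 (@Lb.g g5 (@Lb.d (nat_lit 0) (nat_lit 0) (nat_lit 64) (@Lb.t (@Lb.fp (nat_lit 9) t2775))))))))))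
noncomputable def l25722 : Lb := (@Lb.r r21 (@Lb.d (nat_lit 129) (nat_lit 256) (nat_lit 258) (@Lb.g g8 (@Lb.g g10 (@Lb.g g7 (@Lb.r r386 (@Lb.r r1173 (@Lb.r r2120 (@Lb.d (nat_lit 593) (nat_lit 0) (nat_lit 552) (@Lb.t (@Lb.fp (nat_lit 9) t3022)))))))))))
noncomputable def l25723 : Lb := (@Lb.d (nat_lit 264) (nat_lit 514) (nat_lit 288) (@Lb.r r2196 (@Lb.r r1431 (@Lb.r r2454 (@Lb.r r601 (@Lb.g g8 (@Lb.t (@Lb.fm (nat_lit 3) t2503))))))))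
noncomputable def l25724 : Lb := (@Lb.r r323 (@Lb.d (nat_lit 0) (nat_lit 520) (nat_lit 6) (@Lb.g g10 (@Lb.r r387 (@Lb.d (nat_lit 0) (nat_lit 166) (nat_lit 330) (@Lb.t (@Lb.fp (nat_lit 3) t51)))))))
noncomputable def l25725 : Lb := (@Lb.d (nat_lit 0) (nat_lit 8) (nat_lit 2) (@Lb.g g10 (@Lb.r r2579 (@Lb.d (nat_lit 0) (nat_lit 137) (nat_lit 86) (@Lb.t (@Lb.fm (nat_lit 3) t51))))))
noncomputable def l25726 : Lb := (@Lb.d (nat_lit 0) (nat_lit 256) (nat_lit 2) (@Lb.g g9 (@Lb.g g10 (@Lb.r r1703 (@Lb.r r2392 (@Lb.r r1190 (@Lb.r r1169 (@Lb.d (nat_lit 10) (nat_lit 73) (nat_lit 34) (@Lb.fp (nat_lit 3) t51)))))))))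
noncomputable def l25727 : Lb := (@Lb.d (nat_lit 0) (nat_lit 2) (nat_lit 64) (@Lb.g g9 (@Lb.g g11 (@Lb.r r2723 (@Lb.r r1634 (@Lb.r r2657 (@Lb.d (nat_lit 0) (nat_lit 100) (nat_lit 168) (@Lb.fm (nat_lit 3) t1421))))))))
noncomputable def l25728 : Lb := (@Lb.d (nat_lit 0) (nat_lit 258) (nat_lit 0) (@Lb.g g9 (@Lb.r r1363 (@Lb.r r1634 (@Lb.r r2657 (@Lb.d (nat_lit 0) (nat_lit 100) (nat_lit 154) (@Lb.t (@Lb.fm (nat_lit 3) t1421))))))))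
noncomputable def l25729 : Lb := (@Lb.r r323 (@Lb.d (nat_lit 4) (nat_lit 1) (nat_lit 10) (@Lb.g g5 (@Lb.g g10 (@Lb.r r2407 (@Lb.r r2726 (@Lb.r r24 (@Lb.d (nat_lit 65) (nat_lit 1) (nat_lit 650) (@Lb.fp (nat_lit 3) t1025)))))))))
noncomputable def l25730 : Lb := (@Lb.d (nat_lit 128) (nat_lit 322) (nat_lit 89) (@Lb.g g5 (@Lb.g g10 (@Lb.g g11 (@Lb.r r2376 (@Lb.r r1671 (@Lb.d (nat_lit 418) (nat_lit 66) (nat_lit 644) (@Lb.t (@Lb.fp (nat_lit 9) t980)))))))))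
noncomputable def l25731 : Lb := (@Lb.r r275 (@Lb.d (nat_lit 0) (nat_lit 258) (nat_lit 2) (@Lb.g g9 (@Lb.g g10 (@Lb.r r421 (@Lb.r r1563 (@Lb.r r386 (@Lb.r r24 (@Lb.d (nat_lit 642) (nat_lit 0) (nat_lit 401) (@Lb.fm (nat_lit 3) t811))))))))))
noncomputable def l25732 : Lb := (@Lb.d (nat_lit 0) (nat_lit 517) (nat_lit 74) (@Lb.g g9 (@Lb.g g10 (@Lb.g g11 (@Lb.r r611 (@Lb.r r1610 (@Lb.r r2644 (@Lb.r r1321 (@Lb.d (nat_lit 256) (nat_lit 80) (nat_lit 576) (@Lb.t (@Lb.fm (nat_lit 9) t848)))))))))))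
noncomputable def l25733 : Lb := (@Lb.d (nat_lit 2) (nat_lit 578) (nat_lit 89) (@Lb.g g8 (@Lb.g g5 (@Lb.g g10 (@Lb.g g11 (@Lb.r r644 (@Lb.r r391 (@Lb.r r1540 (@Lb.d (nat_lit 290) (nat_lit 66) (nat_lit 0) (@Lb.fm (nat_lit 9) t980))))))))))
noncomputable def l25734 : Lb := (@Lb.r r82 (@Lb.d (nat_lit 0) (nat_lit 258) (nat_lit 64) (@Lb.g g9 (@Lb.g g7 (@Lb.r r1377 (@Lb.r r146 (@Lb.r r2120 (@Lb.d (nat_lit 290) (nat_lit 81) (nat_lit 260) (@Lb.fm (nat_lit 3) t2652)))))))))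
noncomputable def l25735 : Lb := (@Lb.d (nat_lit 645) (nat_lit 529) (nat_lit 662) (@Lb.r r21 (@Lb.r r100 (@Lb.r r386 (@Lb.r r2387 (@Lb.g g7 (@Lb.g g6 (@Lb.g g5 (@Lb.d (nat_lit 0) (nat_lit 6) (nat_lit 66) (@Lb.t (@Lb.fm (nat_lit 9) t4902)))))))))))
noncomputable def l25736 : Lb := (@Lb.d (nat_lit 2) (nat_lit 516) (nat_lit 128) (@Lb.g g8 (@Lb.g g9 (@Lb.g g10 (@Lb.g g11 (@Lb.r r427 (@Lb.r r424 (@Lb.r r1098 (@Lb.r r145 (@Lb.d (nat_lit 545) (nat_lit 10) (nat_lit 145) (@Lb.fm (nat_lit 9) t245)))))))))))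
noncomputable def l25737 : Lb := (@Lb.r r90 (@Lb.d (nat_lit 130) (nat_lit 272) (nat_lit 128) (@Lb.g g8 (@Lb.g g9 (@Lb.g g11 (@Lb.r r547 (@Lb.r r1606 (@Lb.r r153 (@Lb.r r1432 (@Lb.d (nat_lit 146) (nat_lit 152) (nat_lit 362) (@Lb.t (@Lb.fm (nat_lit 9) t4903))))))))))))
noncomputable def l25738 : Lb := (@Lb.d (nat_lit 98) (nat_lit 553) (nat_lit 392) (@Lb.r r2452 (@Lb.r r146 (@Lb.r r411 (@Lb.g g6 (@Lb.g g9 (@Lb.g g4 (@Lb.d (nat_lit 65) (nat_lit 17) (nat_lit 1) (@Lb.r r291 (@Lb.t (@Lb.fp (nat_lit 9) t88)))))))))))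
noncomputable def l25739 : Lb := (@Lb.r r323 (@Lb.d (nat_lit 40) (nat_lit 260) (nat_lit 34) (@Lb.g g9 (@Lb.g g6 (@Lb.r r660 (@Lb.r r535 (@Lb.r r289 (@Lb.d (nat_lit 0) (nat_lit 138) (nat_lit 138) (@Lb.fp (nat_lit 3) t789)))))))))
noncomputable def l25740 : Lb := (@Lb.d (nat_lit 2) (nat_lit 2) (nat_lit 130) (@Lb.g g8 (@Lb.g g9 (@Lb.g g10 (@Lb.g g11 (@Lb.r r427 (@Lb.r r424 (@Lb.r r1098 (@Lb.r r145 (@Lb.d (nat_lit 545) (nat_lit 10) (nat_lit 145) (@Lb.fm (nat_lit 9) t88)))))))))))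
noncomputable def l25741 : Lb := (@Lb.d (nat_lit 2) (nat_lit 554) (nat_lit 342) (@Lb.r r1090 (@Lb.r r1172 (@Lb.r r2403 (@Lb.r r1377 (@Lb.g g7 (@Lb.d (nat_lit 0) (nat_lit 16) (nat_lit 64) (@Lb.t (@Lb.fp (nat_lit 3) t2910)))))))))
noncomputable def l25742 : Lb := (@Lb.d (nat_lit 1) (nat_lit 37) (nat_lit 65) (@Lb.r r21 (@Lb.r r342 (@Lb.g g7 (@Lb.g g6 (@Lb.g g5 (@Lb.g g4 (@Lb.d (nat_lit 1) (nat_lit 1) (nat_lit 128) (@Lb.fp (nat_lit 9) t40)))))))))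
noncomputable def l25743 : Lb := (@Lb.g g7 (@Lb.r r2451 (@Lb.r r402 (@Lb.r r101 (@Lb.r r24 (@Lb.d (nat_lit 608) (nat_lit 512) (nat_lit 581) (@Lb.t (@Lb.fp (nat_lit 3) t592))))))))
noncomputable def l25744 : Lb := (@Lb.d (nat_lit 0) (nat_lit 256) (nat_lit 66) (@Lb.g g10 (@Lb.g g11 (@Lb.r r1603 (@Lb.r r386 (@Lb.r r101 (@Lb.r r24 (@Lb.d (nat_lit 354) (nat_lit 0) (nat_lit 133) (@Lb.fm (nat_lit 3) t166)))))))))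
noncomputable def l25745 : Lb := (@Lb.r r275 (@Lb.d (nat_lit 2) (nat_lit 0) (nat_lit 2) (@Lb.g g8 (@Lb.g g9 (@Lb.g g10 (@Lb.r r427 (@Lb.r r386 (@Lb.r r601 (@Lb.d (nat_lit 105) (nat_lit 102) (nat_lit 581) (@Lb.t (@Lb.fp (nat_lit 9) t4904)))))))))))
noncomputable def l25746 : Lb := (@Lb.d (nat_lit 32) (nat_lit 512) (nat_lit 129) (@Lb.g g10 (@Lb.g g11 (@Lb.r r387 (@Lb.r r1304 (@Lb.r r2661 (@Lb.r r402 (@Lb.d (nat_lit 1) (nat_lit 21) (nat_lit 152) (@Lb.fp (nat_lit 3) t268)))))))))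
noncomputable def l25747 : Lb := (@Lb.d (nat_lit 41) (nat_lit 102) (nat_lit 517) (@Lb.r r21 (@Lb.r r104 (@Lb.r r323 (@Lb.g g10 (@Lb.g g5 (@Lb.d (nat_lit 0) (nat_lit 1) (nat_lit 2) (@Lb.r r387 (@Lb.fm (nat_lit 3) t3022)))))))))
noncomputable def l25748 : Lb := (@Lb.d (nat_lit 646) (nat_lit 262) (nat_lit 282) (@Lb.r r1301 (@Lb.r r2646 (@Lb.r r1707 (@Lb.g g7 (@Lb.g g6 (@Lb.g g5 (@Lb.g g4 (@Lb.d (nat_lit 8) (nat_lit 25) (nat_lit 64) (@Lb.fm (nat_lit 9) t309))))))))))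
noncomputable def l25749 : Lb := (@Lb.d (nat_lit 292) (nat_lit 405) (nat_lit 576) (@Lb.r r2389 (@Lb.r r1634 (@Lb.r r663 (@Lb.g g7 (@Lb.g g5 (@Lb.g g4 (@Lb.d (nat_lit 1) (nat_lit 20) (nat_lit 64) (@Lb.r r98 (@Lb.t (@Lb.fm (nat_lit 9) t720)))))))))))
noncomputable def l25750 : Lb := (@Lb.d (nat_lit 2) (nat_lit 36) (nat_lit 64) (@Lb.g g8 (@Lb.g g9 (@Lb.g g10 (@Lb.g g11 (@Lb.r r1194 (@Lb.r r424 (@Lb.r r279 (@Lb.r r1065 (@Lb.r r2084 (@Lb.d (nat_lit 265) (nat_lit 98) (nat_lit 10) (@Lb.fm (nat_lit 9) t125))))))))))))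
noncomputable def l25751 : Lb := (@Lb.g g10 (@Lb.g g7 (@Lb.r r2698 (@Lb.r r2436 (@Lb.r r1291 (@Lb.r r409 (@Lb.d (nat_lit 354) (nat_lit 256) (nat_lit 578) (@Lb.fm (nat_lit 3) t1097))))))))
noncomputable def l25752 : Lb := (@Lb.d (nat_lit 0) (nat_lit 292) (nat_lit 66) (@Lb.g g9 (@Lb.g g10 (@Lb.g g11 (@Lb.r r2216 (@Lb.r r2329 (@Lb.r r1315 (@Lb.r r2706 (@Lb.d (nat_lit 280) (nat_lit 150) (nat_lit 613) (@Lb.t (@Lb.fm (nat_lit 9) t4905)))))))))))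
noncomputable def l25753 : Lb := (@Lb.d (nat_lit 97) (nat_lit 36) (nat_lit 9) (@Lb.g g8 (@Lb.g g9 (@Lb.g g6 (@Lb.g g11 (@Lb.r r2657 (@Lb.r r2343 (@Lb.r r1624 (@Lb.d (nat_lit 324) (nat_lit 165) (nat_lit 681) (@Lb.fm (nat_lit 9) t546))))))))))
noncomputable def l25754 : Lb := (@Lb.d (nat_lit 0) (nat_lit 260) (nat_lit 65) (@Lb.g g6 (@Lb.g g11 (@Lb.r r2659 (@Lb.r r101 (@Lb.d (nat_lit 70) (nat_lit 32) (nat_lit 321) (@Lb.fp (nat_lit 3) t983)))))))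
noncomputable def l25755 : Lb := (@Lb.d (nat_lit 2) (nat_lit 548) (nat_lit 64) (@Lb.g g8 (@Lb.g g9 (@Lb.g g10 (@Lb.g g11 (@Lb.r r1698 (@Lb.r r1415 (@Lb.r r600 (@Lb.r r1173 (@Lb.r r36 (@Lb.d (nat_lit 290) (nat_lit 104) (nat_lit 674) (@Lb.fp (nat_lit 9) t1038))))))))))))
noncomputable def l25756 : Lb := (@Lb.r r82 (@Lb.d (nat_lit 0) (nat_lit 545) (nat_lit 64) (@Lb.g g9 (@Lb.g g11 (@Lb.r r2323 (@Lb.r r277 (@Lb.r r1448 (@Lb.r r1418 (@Lb.d (nat_lit 1) (nat_lit 145) (nat_lit 549) (@Lb.fm (nat_lit 3) t4906))))))))))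
noncomputable def l25757 : Lb := (@Lb.r r323 (@Lb.d (nat_lit 40) (nat_lit 258) (nat_lit 5) (@Lb.g g9 (@Lb.g g6 (@Lb.r r404 (@Lb.r r299 (@Lb.r r409 (@Lb.d (nat_lit 10) (nat_lit 37) (nat_lit 64) (@Lb.fp (nat_lit 3) t670)))))))))
noncomputable def l25758 : Lb := (@Lb.r r323 (@Lb.d (nat_lit 0) (nat_lit 514) (nat_lit 41) (@Lb.g g9 (@Lb.g g6 (@Lb.r r387 (@Lb.r r97 (@Lb.d (nat_lit 0) (nat_lit 9) (nat_lit 85) (@Lb.fm (nat_lit 3) t87))))))))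
noncomputable def l25759 : Lb := (@Lb.d (nat_lit 6) (nat_lit 362) (nat_lit 137) (@Lb.r r673 (@Lb.r r683 (@Lb.r r612 (@Lb.r r346 (@Lb.g g7 (@Lb.g g6 (@Lb.g g5 (@Lb.d (nat_lit 4) (nat_lit 1) (nat_lit 65) (@Lb.t (@Lb.fp (nat_lit 9) t51)))))))))))
noncomputable def l25760 : Lb := (@Lb.r r1617 (@Lb.r r354 (@Lb.r r1427 (@Lb.d (nat_lit 0) (nat_lit 0) (nat_lit 544) (@Lb.fp (nat_lit 1) t124)))))
noncomputable def l25761 : Lb := (@Lb.d (nat_lit 0) (nat_lit 512) (nat_lit 512) (@Lb.r r2129 (@Lb.r r2146 (@Lb.r r609 (@Lb.g g7 (@Lb.g g10 (@Lb.g g5 (@Lb.t (@Lb.fp (nat_lit 9) t246)))))))))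
noncomputable def l25762 : Lb := (@Lb.d (nat_lit 32) (nat_lit 0) (nat_lit 66) (@Lb.g g9 (@Lb.g g10 (@Lb.g g11 (@Lb.r r1307 (@Lb.r r2713 (@Lb.r r100 (@Lb.r r410 (@Lb.d (nat_lit 129) (nat_lit 26) (nat_lit 153) (@Lb.t (@Lb.fp (nat_lit 9) t284)))))))))))
noncomputable def l25763 : Lb := (@Lb.d (nat_lit 0) (nat_lit 258) (nat_lit 66) (@Lb.g g9 (@Lb.g g10 (@Lb.g g11 (@Lb.r r337 (@Lb.r r675 (@Lb.r r2658 (@Lb.r r2577 (@Lb.d (nat_lit 0) (nat_lit 25) (nat_lit 673) (@Lb.t (@Lb.fp (nat_lit 9) t1442)))))))))))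
noncomputable def l25764 : Lb := (@Lb.r r81 (@Lb.d (nat_lit 0) (nat_lit 512) (nat_lit 105) (@Lb.g g6 (@Lb.g g11 (@Lb.r r1637 (@Lb.r r1639 (@Lb.r r24 (@Lb.d (nat_lit 594) (nat_lit 0) (nat_lit 266) (@Lb.fm (nat_lit 3) t378)))))))))
noncomputable def l25765 : Lb := (@Lb.d (nat_lit 362) (nat_lit 22) (nat_lit 85) (@Lb.r r2663 (@Lb.r r1450 (@Lb.r r1172 (@Lb.g g7 (@Lb.g g5 (@Lb.d (nat_lit 64) (nat_lit 129) (nat_lit 128) (@Lb.fm (nat_lit 3) t4477))))))))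
noncomputable def l25766 : Lb := (@Lb.d (nat_lit 8) (nat_lit 552) (nat_lit 64) (@Lb.g g9 (@Lb.g g11 (@Lb.r r1114 (@Lb.r r2388 (@Lb.r r1387 (@Lb.r r2401 (@Lb.d (nat_lit 261) (nat_lit 168) (nat_lit 678) (@Lb.fp (nat_lit 3) t584)))))))))
noncomputable def l25767 : Lb := (@Lb.d (nat_lit 37) (nat_lit 678) (nat_lit 529) (@Lb.r r154 (@Lb.r r660 (@Lb.r r663 (@Lb.r r353 (@Lb.g g7 (@Lb.g g6 (@Lb.g g4 (@Lb.d (nat_lit 0) (nat_lit 4) (nat_lit 65) (@Lb.t (@Lb.fm (nat_lit 9) t584)))))))))))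
noncomputable def l25768 : Lb := (@Lb.d (nat_lit 1) (nat_lit 36) (nat_lit 10) (@Lb.g g8 (@Lb.g g9 (@Lb.g g10 (@Lb.g g11 (@Lb.r r2730 (@Lb.r r2435 (@Lb.r r2212 (@Lb.r r2085 (@Lb.d (nat_lit 361) (nat_lit 68) (nat_lit 326) (@Lb.fp (nat_lit 9) t750)))))))))))
noncomputable def l25769 : Lb := (@Lb.d (nat_lit 2) (nat_lit 0) (nat_lit 40) (@Lb.g g8 (@Lb.g g9 (@Lb.g g6 (@Lb.g g11 (@Lb.r r579 (@Lb.d (nat_lit 0) (nat_lit 0) (nat_lit 154) (@Lb.fp (nat_lit 9) t2))))))))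
noncomputable def l25770 : Lb := (@Lb.d (nat_lit 0) (nat_lit 546) (nat_lit 66) (@Lb.g g4 (@Lb.g g9 (@Lb.g g10 (@Lb.g g11 (@Lb.r r387 (@Lb.r r145 (@Lb.r r1426 (@Lb.d (nat_lit 0) (nat_lit 149) (nat_lit 532) (@Lb.fp (nat_lit 9) t204))))))))))
noncomputable def l25771 : Lb := (@Lb.d (nat_lit 282) (nat_lit 593) (nat_lit 165) (@Lb.r r1700 (@Lb.r r2202 (@Lb.r r1675 (@Lb.g g6 (@Lb.g g9 (@Lb.g g4 (@Lb.d (nat_lit 16) (nat_lit 82) (nat_lit 1) (@Lb.r r387 (@Lb.t (@Lb.fm (nat_lit 9) t2865)))))))))))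
noncomputable def l25772 : Lb := (@Lb.d (nat_lit 1) (nat_lit 292) (nat_lit 64) (@Lb.g g8 (@Lb.g g9 (@Lb.g g10 (@Lb.g g11 (@Lb.r r292 (@Lb.r r651 (@Lb.r r162 (@Lb.r r2193 (@Lb.r r516 (@Lb.d (nat_lit 264) (nat_lit 72) (nat_lit 84) (@Lb.fp (nat_lit 9) t5))))))))))))
noncomputable def l25773 : Lb := (@Lb.d (nat_lit 0) (nat_lit 40) (nat_lit 128) (@Lb.g g9 (@Lb.g g11 (@Lb.r r2459 (@Lb.r r90 (@Lb.r r2132 (@Lb.r r1065 (@Lb.d (nat_lit 358) (nat_lit 130) (nat_lit 256) (@Lb.fp (nat_lit 3) t580)))))))))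
noncomputable def l25774 : Lb := (@Lb.d (nat_lit 89) (nat_lit 274) (nat_lit 1) (@Lb.r r420 (@Lb.r r97 (@Lb.r r427 (@Lb.r r406 (@Lb.g g7 (@Lb.g g5 (@Lb.g g4 (@Lb.d (nat_lit 17) (nat_lit 1) (nat_lit 128) (@Lb.t (@Lb.fp (nat_lit 9) t796)))))))))))
noncomputable def l25775 : Lb := (@Lb.d (nat_lit 1) (nat_lit 258) (nat_lit 4) (@Lb.g g8 (@Lb.g g9 (@Lb.g g10 (@Lb.g g11 (@Lb.r r2666 (@Lb.r r612 (@Lb.r r615 (@Lb.r r2657 (@Lb.r r2084 (@Lb.d (nat_lit 10) (nat_lit 164) (nat_lit 601) (@Lb.fp (nat_lit 9) t71))))))))))))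
noncomputable def l25776 : Lb := (@Lb.r r68 (@Lb.r r323 (@Lb.d (nat_lit 8) (nat_lit 514) (nat_lit 33) (@Lb.g g9 (@Lb.g g6 (@Lb.r r660 (@Lb.r r359 (@Lb.r r337 (@Lb.d (nat_lit 0) (nat_lit 21) (nat_lit 132) (@Lb.fp (nat_lit 3) t510))))))))))
noncomputable def l25777 : Lb := (@Lb.d (nat_lit 146) (nat_lit 261) (nat_lit 169) (@Lb.r r584 (@Lb.r r331 (@Lb.g g10 (@Lb.g g4 (@Lb.d (nat_lit 66) (nat_lit 0) (nat_lit 6) (@Lb.r r1169 (@Lb.fm (nat_lit 3) t71))))))))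
noncomputable def l25778 : Lb := (@Lb.d (nat_lit 146) (nat_lit 517) (nat_lit 169) (@Lb.r r584 (@Lb.r r331 (@Lb.g g10 (@Lb.g g4 (@Lb.d (nat_lit 65) (nat_lit 0) (nat_lit 6) (@Lb.r r1169 (@Lb.fm (nat_lit 3) t71))))))))
noncomputable def l25779 : Lb := (@Lb.r r68 (@Lb.r r323 (@Lb.d (nat_lit 8) (nat_lit 260) (nat_lit 34) (@Lb.g g9 (@Lb.g g6 (@Lb.r r660 (@Lb.r r359 (@Lb.r r337 (@Lb.d (nat_lit 0) (nat_lit 21) (nat_lit 132) (@Lb.fp (nat_lit 3) t151))))))))))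
noncomputable def l25780 : Lb := (@Lb.d (nat_lit 1) (nat_lit 258) (nat_lit 66) (@Lb.g g8 (@Lb.g g9 (@Lb.g g10 (@Lb.g g7 (@Lb.r r386 (@Lb.r r2153 (@Lb.r r36 (@Lb.d (nat_lit 292) (nat_lit 1) (nat_lit 169) (@Lb.fm (nat_lit 9) t40))))))))))
noncomputable def l25781 : Lb := (@Lb.d (nat_lit 132) (nat_lit 66) (nat_lit 66) (@Lb.g g8 (@Lb.g g5 (@Lb.g g10 (@Lb.g g11 (@Lb.r r2626 (@Lb.r r404 (@Lb.r r587 (@Lb.r r1540 (@Lb.d (nat_lit 289) (nat_lit 136) (nat_lit 289) (@Lb.fp (nat_lit 9) t4907)))))))))))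
noncomputable def l25782 : Lb := (@Lb.d (nat_lit 0) (nat_lit 256) (nat_lit 66) (@Lb.g g9 (@Lb.g g10 (@Lb.g g11 (@Lb.r r2634 (@Lb.r r2393 (@Lb.r r2660 (@Lb.r r2343 (@Lb.d (nat_lit 69) (nat_lit 97) (nat_lit 389) (@Lb.t (@Lb.fm (nat_lit 9) t4908)))))))))))
noncomputable def l25783 : Lb := (@Lb.d (nat_lit 1) (nat_lit 292) (nat_lit 4) (@Lb.r r359 (@Lb.r r421 (@Lb.r r106 (@Lb.r r72 (@Lb.g g7 (@Lb.g g6 (@Lb.g g5 (@Lb.d (nat_lit 84) (nat_lit 0) (nat_lit 1) (@Lb.t (@Lb.fp (nat_lit 9) t2)))))))))))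
noncomputable def l25784 : Lb := (@Lb.d (nat_lit 361) (nat_lit 277) (nat_lit 512) (@Lb.r r1444 (@Lb.r r2411 (@Lb.r r345 (@Lb.r r614 (@Lb.g g6 (@Lb.g g4 (@Lb.d (nat_lit 69) (nat_lit 0) (nat_lit 2) (@Lb.fm (nat_lit 3) t3855)))))))))
noncomputable def l25785 : Lb := (@Lb.d (nat_lit 0) (nat_lit 512) (nat_lit 73) (@Lb.g g9 (@Lb.g g10 (@Lb.g g11 (@Lb.r r611 (@Lb.r r1610 (@Lb.r r2644 (@Lb.r r1321 (@Lb.d (nat_lit 265) (nat_lit 16) (nat_lit 576) (@Lb.t (@Lb.fm (nat_lit 9) t3578)))))))))))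
noncomputable def l25786 : Lb := (@Lb.d (nat_lit 0) (nat_lit 538) (nat_lit 534) (@Lb.r r1362 (@Lb.r r2691 (@Lb.g g7 (@Lb.g g6 (@Lb.g g5 (@Lb.d (nat_lit 0) (nat_lit 0) (nat_lit 134) (@Lb.t (@Lb.fm (nat_lit 9) t661)))))))))
noncomputable def l25787 : Lb := (@Lb.d (nat_lit 0) (nat_lit 0) (nat_lit 130) (@Lb.g g9 (@Lb.g g10 (@Lb.g g11 (@Lb.r r2658 (@Lb.d (nat_lit 0) (nat_lit 89) (nat_lit 384) (@Lb.t (@Lb.fm (nat_lit 9) t479))))))))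
noncomputable def l25788 : Lb := (@Lb.d (nat_lit 32) (nat_lit 256) (nat_lit 73) (@Lb.g g9 (@Lb.g g10 (@Lb.g g11 (@Lb.r r1707 (@Lb.r r2713 (@Lb.r r100 (@Lb.r r410 (@Lb.d (nat_lit 649) (nat_lit 89) (nat_lit 153) (@Lb.t (@Lb.fm (nat_lit 9) t284)))))))))))
noncomputable def l25789 : Lb := (@Lb.r r81 (@Lb.d (nat_lit 128) (nat_lit 528) (nat_lit 320) (@Lb.g g10 (@Lb.g g11 (@Lb.r r2709 (@Lb.r r1384 (@Lb.r r2198 (@Lb.d (nat_lit 290) (nat_lit 2) (nat_lit 146) (@Lb.fm (nat_lit 3) t299)))))))))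
noncomputable def l25790 : Lb := (@Lb.r r323 (@Lb.d (nat_lit 0) (nat_lit 512) (nat_lit 2) (@Lb.g g9 (@Lb.g g10 (@Lb.r r2467 (@Lb.r r2146 (@Lb.d (nat_lit 0) (nat_lit 73) (nat_lit 128) (@Lb.fm (nat_lit 3) t333))))))))
noncomputable def l25791 : Lb := (@Lb.r r81 (@Lb.g g10 (@Lb.r r2711 (@Lb.r r2709 (@Lb.r r1384 (@Lb.r r2198 (@Lb.d (nat_lit 512) (nat_lit 393) (nat_lit 18) (@Lb.t (@Lb.fm (nat_lit 3) t68)))))))))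
noncomputable def l25792 : Lb := (@Lb.d (nat_lit 33) (nat_lit 260) (nat_lit 128) (@Lb.g g8 (@Lb.g g9 (@Lb.g g10 (@Lb.g g11 (@Lb.r r675 (@Lb.r r164 (@Lb.r r661 (@Lb.r r150 (@Lb.r r36 (@Lb.d (nat_lit 33) (nat_lit 41) (nat_lit 72) (@Lb.fp (nat_lit 9) t355))))))))))))
noncomputable def l25793 : Lb := (@Lb.d (nat_lit 40) (nat_lit 262) (nat_lit 128) (@Lb.g g8 (@Lb.g g9 (@Lb.g g10 (@Lb.g g11 (@Lb.r r675 (@Lb.r r164 (@Lb.r r661 (@Lb.r r150 (@Lb.r r36 (@Lb.d (nat_lit 33) (nat_lit 34) (nat_lit 73) (@Lb.fp (nat_lit 9) t355))))))))))))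
noncomputable def l25794 : Lb := (@Lb.d (nat_lit 33) (nat_lit 516) (nat_lit 128) (@Lb.g g8 (@Lb.g g9 (@Lb.g g10 (@Lb.g g11 (@Lb.r r675 (@Lb.r r164 (@Lb.r r661 (@Lb.r r150 (@Lb.r r36 (@Lb.d (nat_lit 33) (nat_lit 34) (nat_lit 130) (@Lb.fp (nat_lit 9) t98))))))))))))
noncomputable def l25795 : Lb := (@Lb.d (nat_lit 33) (nat_lit 260) (nat_lit 74) (@Lb.g g8 (@Lb.g g9 (@Lb.g g10 (@Lb.g g11 (@Lb.r r675 (@Lb.r r164 (@Lb.r r661 (@Lb.r r150 (@Lb.r r36 (@Lb.d (nat_lit 33) (nat_lit 34) (nat_lit 73) (@Lb.fp (nat_lit 9) t355))))))))))))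
noncomputable def l25796 : Lb := (@Lb.d (nat_lit 33) (nat_lit 516) (nat_lit 128) (@Lb.g g8 (@Lb.g g9 (@Lb.g g10 (@Lb.g g11 (@Lb.r r675 (@Lb.r r164 (@Lb.r r661 (@Lb.r r150 (@Lb.r r36 (@Lb.d (nat_lit 34) (nat_lit 34) (nat_lit 73) (@Lb.fp (nat_lit 9) t355))))))))))))
noncomputable def l25797 : Lb := (@Lb.d (nat_lit 129) (nat_lit 0) (nat_lit 0) (@Lb.g g8 (@Lb.g g9 (@Lb.r r519 (@Lb.r r402 (@Lb.r r609 (@Lb.r r264 (@Lb.d (nat_lit 130) (nat_lit 17) (nat_lit 74) (@Lb.fm (nat_lit 3) t44)))))))))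
noncomputable def l25798 : Lb := (@Lb.d (nat_lit 0) (nat_lit 512) (nat_lit 130) (@Lb.g g8 (@Lb.g g10 (@Lb.g g11 (@Lb.r r419 (@Lb.r r386 (@Lb.r r101 (@Lb.r r24 (@Lb.d (nat_lit 98) (nat_lit 0) (nat_lit 9) (@Lb.t (@Lb.fp (nat_lit 9) t263)))))))))))
noncomputable def l25799 : Lb := (@Lb.d (nat_lit 680) (nat_lit 521) (nat_lit 390) (@Lb.r r168 (@Lb.r r89 (@Lb.r r386 (@Lb.g g11 (@Lb.g g6 (@Lb.g g4 (@Lb.d (nat_lit 5) (nat_lit 0) (nat_lit 129) (@Lb.t (@Lb.fm (nat_lit 9) t2170))))))))))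
noncomputable def l25800 : Lb := (@Lb.d (nat_lit 2) (nat_lit 514) (nat_lit 66) (@Lb.g g8 (@Lb.g g9 (@Lb.g g10 (@Lb.g g11 (@Lb.r r2329 (@Lb.r r419 (@Lb.r r386 (@Lb.d (nat_lit 528) (nat_lit 169) (nat_lit 160) (@Lb.fm (nat_lit 9) t791))))))))))
noncomputable def l25801 : Lb := (@Lb.d (nat_lit 0) (nat_lit 518) (nat_lit 128) (@Lb.g g9 (@Lb.g g10 (@Lb.g g11 (@Lb.r r1707 (@Lb.r r578 (@Lb.r r40 (@Lb.r r153 (@Lb.d (nat_lit 74) (nat_lit 164) (nat_lit 128) (@Lb.t (@Lb.fm (nat_lit 9) t3840)))))))))))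
noncomputable def l25802 : Lb := (@Lb.d (nat_lit 81) (nat_lit 5) (nat_lit 662) (@Lb.r r2438 (@Lb.r r1620 (@Lb.r r2473 (@Lb.g g11 (@Lb.g g6 (@Lb.g g5 (@Lb.g g4 (@Lb.d (nat_lit 1) (nat_lit 1) (nat_lit 129) (@Lb.fm (nat_lit 9) t4909))))))))))
noncomputable def l25803 : Lb := (@Lb.d (nat_lit 81) (nat_lit 261) (nat_lit 534) (@Lb.r r2438 (@Lb.r r1620 (@Lb.r r2473 (@Lb.g g11 (@Lb.g g6 (@Lb.g g5 (@Lb.g g4 (@Lb.d (nat_lit 1) (nat_lit 1) (nat_lit 6) (@Lb.fm (nat_lit 9) t4417))))))))))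
noncomputable def l25804 : Lb := (@Lb.d (nat_lit 408) (nat_lit 258) (nat_lit 256) (@Lb.r r1300 (@Lb.r r601 (@Lb.r r2178 (@Lb.r r411 (@Lb.r r404 (@Lb.g g11 (@Lb.g g5 (@Lb.g g4 (@Lb.t (@Lb.fp (nat_lit 9) t3942)))))))))))
noncomputable def l25805 : Lb := (@Lb.d (nat_lit 153) (nat_lit 2) (nat_lit 128) (@Lb.g g8 (@Lb.g g9 (@Lb.g g10 (@Lb.g g11 (@Lb.r r2705 (@Lb.r r535 (@Lb.r r392 (@Lb.r r2122 (@Lb.d (nat_lit 33) (nat_lit 74) (nat_lit 408) (@Lb.fp (nat_lit 9) t1444)))))))))))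
noncomputable def l25806 : Lb := (@Lb.r r2118 (@Lb.d (nat_lit 10) (nat_lit 256) (nat_lit 0) (@Lb.g g4 (@Lb.r r2457 (@Lb.r r408 (@Lb.d (nat_lit 101) (nat_lit 32) (nat_lit 356) (@Lb.t (@Lb.fp (nat_lit 3) t2858))))))))
noncomputable def l25807 : Lb := (@Lb.r r600 (@Lb.r r1301 (@Lb.r r1579 (@Lb.r r2178 (@Lb.r r1572 (@Lb.d (nat_lit 548) (nat_lit 88) (nat_lit 425) (@Lb.fm (nat_lit 1) t1805)))))))
noncomputable def l25808 : Lb := (@Lb.d (nat_lit 2) (nat_lit 256) (nat_lit 73) (@Lb.g g8 (@Lb.g g10 (@Lb.g g11 (@Lb.r r2691 (@Lb.r r1642 (@Lb.r r2145 (@Lb.r r24 (@Lb.d (nat_lit 136) (nat_lit 33) (nat_lit 133) (@Lb.t (@Lb.fp (nat_lit 9) t2637)))))))))))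
noncomputable def l25809 : Lb := (@Lb.d (nat_lit 161) (nat_lit 290) (nat_lit 1) (@Lb.g g8 (@Lb.g g9 (@Lb.g g10 (@Lb.r r1450 (@Lb.r r595 (@Lb.r r1429 (@Lb.r r2088 (@Lb.d (nat_lit 90) (nat_lit 96) (nat_lit 362) (@Lb.t (@Lb.fp (nat_lit 9) t681)))))))))))
noncomputable def l25810 : Lb := (@Lb.d (nat_lit 153) (nat_lit 134) (nat_lit 289) (@Lb.r r1604 (@Lb.r r82 (@Lb.r r1623 (@Lb.g g6 (@Lb.g g5 (@Lb.g g4 (@Lb.d (nat_lit 1) (nat_lit 17) (nat_lit 1) (@Lb.t (@Lb.fm (nat_lit 9) t2180))))))))))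
noncomputable def l25811 : Lb := (@Lb.d (nat_lit 517) (nat_lit 32) (nat_lit 144) (@Lb.r r24 (@Lb.r r289 (@Lb.r r354 (@Lb.r r1447 (@Lb.g g5 (@Lb.g g4 (@Lb.d (nat_lit 1) (nat_lit 1) (nat_lit 0) (@Lb.r r98 (@Lb.fm (nat_lit 3) t4910))))))))))
noncomputable def l25812 : Lb := (@Lb.d (nat_lit 133) (nat_lit 261) (nat_lit 128) (@Lb.g g8 (@Lb.g g9 (@Lb.g g10 (@Lb.g g11 (@Lb.r r1579 (@Lb.r r386 (@Lb.r r665 (@Lb.r r1156 (@Lb.d (nat_lit 618) (nat_lit 169) (nat_lit 384) (@Lb.fp (nat_lit 9) t4911)))))))))))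
noncomputable def l25813 : Lb := (@Lb.d (nat_lit 10) (nat_lit 512) (nat_lit 128) (@Lb.g g8 (@Lb.g g10 (@Lb.g g11 (@Lb.r r1547 (@Lb.r r2341 (@Lb.r r1624 (@Lb.r r134 (@Lb.d (nat_lit 0) (nat_lit 134) (nat_lit 128) (@Lb.t (@Lb.fm (nat_lit 9) t4912)))))))))))
noncomputable def l25814 : Lb := (@Lb.d (nat_lit 134) (nat_lit 294) (nat_lit 64) (@Lb.g g8 (@Lb.g g9 (@Lb.g g10 (@Lb.g g11 (@Lb.r r618 (@Lb.r r360 (@Lb.r r2583 (@Lb.r r2325 (@Lb.r r1044 (@Lb.d (nat_lit 328) (nat_lit 34) (nat_lit 386) (@Lb.fp (nat_lit 9) t4913))))))))))))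
noncomputable def l25815 : Lb := (@Lb.d (nat_lit 133) (nat_lit 5) (nat_lit 128) (@Lb.g g8 (@Lb.g g9 (@Lb.g g10 (@Lb.g g11 (@Lb.r r1579 (@Lb.r r386 (@Lb.r r665 (@Lb.r r1156 (@Lb.d (nat_lit 617) (nat_lit 169) (nat_lit 330) (@Lb.fp (nat_lit 9) t4914)))))))))))
noncomputable def l25816 : Lb := (@Lb.d (nat_lit 394) (nat_lit 257) (nat_lit 256) (@Lb.r r289 (@Lb.r r535 (@Lb.r r328 (@Lb.r r2694 (@Lb.g g7 (@Lb.g g6 (@Lb.d (nat_lit 0) (nat_lit 0) (nat_lit 133) (@Lb.fm (nat_lit 3) t1256)))))))))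
noncomputable def l25817 : Lb := (@Lb.d (nat_lit 10) (nat_lit 0) (nat_lit 128) (@Lb.g g8 (@Lb.g g10 (@Lb.g g11 (@Lb.r r1547 (@Lb.r r2341 (@Lb.r r1624 (@Lb.r r134 (@Lb.d (nat_lit 0) (nat_lit 129) (nat_lit 130) (@Lb.t (@Lb.fm (nat_lit 9) t4912)))))))))))
noncomputable def l25818 : Lb := (@Lb.r r275 (@Lb.d (nat_lit 137) (nat_lit 513) (nat_lit 10) (@Lb.g g8 (@Lb.g g5 (@Lb.g g10 (@Lb.r r2343 (@Lb.r r1624 (@Lb.r r1414 (@Lb.d (nat_lit 322) (nat_lit 136) (nat_lit 682) (@Lb.t (@Lb.fp (nat_lit 9) t4915)))))))))))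
noncomputable def l25819 : Lb := (@Lb.r r21 (@Lb.r r70 (@Lb.d (nat_lit 0) (nat_lit 0) (nat_lit 128) (@Lb.g g8 (@Lb.g g11 (@Lb.r r1419 (@Lb.r r402 (@Lb.r r1193 (@Lb.r r1172 (@Lb.d (nat_lit 282) (nat_lit 129) (nat_lit 18) (@Lb.fm (nat_lit 3) t4916)))))))))))
noncomputable def l25820 : Lb := (@Lb.d (nat_lit 38) (nat_lit 517) (nat_lit 128) (@Lb.g g8 (@Lb.g g9 (@Lb.g g10 (@Lb.g g11 (@Lb.r r1707 (@Lb.r r1414 (@Lb.r r660 (@Lb.r r1193 (@Lb.d (nat_lit 282) (nat_lit 81) (nat_lit 649) (@Lb.fm (nat_lit 9) t4917)))))))))))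
noncomputable def l25821 : Lb := (@Lb.r r21 (@Lb.d (nat_lit 2) (nat_lit 256) (nat_lit 162) (@Lb.g g8 (@Lb.g g6 (@Lb.g g11 (@Lb.r r2635 (@Lb.r r145 (@Lb.r r2632 (@Lb.d (nat_lit 66) (nat_lit 0) (nat_lit 409) (@Lb.t (@Lb.fp (nat_lit 9) t777)))))))))))
noncomputable def l25822 : Lb := (@Lb.d (nat_lit 261) (nat_lit 336) (nat_lit 320) (@Lb.r r21 (@Lb.r r104 (@Lb.r r2438 (@Lb.r r2451 (@Lb.g g7 (@Lb.g g6 (@Lb.g g5 (@Lb.d (nat_lit 0) (nat_lit 1) (nat_lit 65) (@Lb.t (@Lb.fp (nat_lit 9) t4918)))))))))))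
noncomputable def l25823 : Lb := (@Lb.d (nat_lit 0) (nat_lit 258) (nat_lit 130) (@Lb.g g8 (@Lb.g g9 (@Lb.g g10 (@Lb.g g11 (@Lb.r r2691 (@Lb.r r2665 (@Lb.r r1686 (@Lb.r r1124 (@Lb.d (nat_lit 658) (nat_lit 136) (nat_lit 345) (@Lb.fm (nat_lit 9) t4501)))))))))))
noncomputable def l25824 : Lb := (@Lb.d (nat_lit 292) (nat_lit 646) (nat_lit 293) (@Lb.r r2456 (@Lb.r r101 (@Lb.r r2458 (@Lb.g g11 (@Lb.g g6 (@Lb.g g4 (@Lb.d (nat_lit 5) (nat_lit 0) (nat_lit 385) (@Lb.r r529 (@Lb.t (@Lb.fp (nat_lit 9) t4919)))))))))))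
noncomputable def l25825 : Lb := (@Lb.r r263 (@Lb.d (nat_lit 641) (nat_lit 34) (nat_lit 2) (@Lb.g g4 (@Lb.g g9 (@Lb.g g10 (@Lb.r r2470 (@Lb.r r595 (@Lb.r r1441 (@Lb.d (nat_lit 388) (nat_lit 98) (nat_lit 601) (@Lb.t (@Lb.fm (nat_lit 9) t4920)))))))))))
noncomputable def l25826 : Lb := (@Lb.d (nat_lit 128) (nat_lit 2) (nat_lit 130) (@Lb.g g8 (@Lb.g g9 (@Lb.g g10 (@Lb.g g11 (@Lb.r r1675 (@Lb.r r613 (@Lb.r r666 (@Lb.r r1176 (@Lb.d (nat_lit 676) (nat_lit 64) (nat_lit 362) (@Lb.fp (nat_lit 9) t1913)))))))))))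
noncomputable def l25827 : Lb := (@Lb.d (nat_lit 577) (nat_lit 384) (nat_lit 322) (@Lb.r r2308 (@Lb.r r2325 (@Lb.r r1643 (@Lb.g g10 (@Lb.g g5 (@Lb.g g4 (@Lb.d (nat_lit 18) (nat_lit 1) (nat_lit 10) (@Lb.r r387 (@Lb.t (@Lb.fp (nat_lit 9) t693)))))))))))
noncomputable def l25828 : Lb := (@Lb.d (nat_lit 577) (nat_lit 128) (nat_lit 322) (@Lb.r r2308 (@Lb.r r2325 (@Lb.r r1643 (@Lb.g g7 (@Lb.g g10 (@Lb.g g5 (@Lb.g g4 (@Lb.d (nat_lit 18) (nat_lit 1) (nat_lit 9) (@Lb.fp (nat_lit 9) t693))))))))))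
noncomputable def l25829 : Lb := (@Lb.d (nat_lit 26) (nat_lit 8) (nat_lit 130) (@Lb.g g8 (@Lb.g g9 (@Lb.g g10 (@Lb.g g11 (@Lb.r r2201 (@Lb.r r404 (@Lb.r r1387 (@Lb.r r2630 (@Lb.r r2180 (@Lb.d (nat_lit 522) (nat_lit 73) (nat_lit 386) (@Lb.fp (nat_lit 9) t4921))))))))))))
noncomputable def l25830 : Lb := (@Lb.d (nat_lit 0) (nat_lit 10) (nat_lit 130) (@Lb.g g4 (@Lb.g g5 (@Lb.g g10 (@Lb.g g11 (@Lb.r r387 (@Lb.d (nat_lit 0) (nat_lit 0) (nat_lit 137) (@Lb.fp (nat_lit 9) t5))))))))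
noncomputable def l25831 : Lb := (@Lb.r r82 (@Lb.d (nat_lit 2) (nat_lit 10) (nat_lit 128) (@Lb.g g8 (@Lb.g g9 (@Lb.g g11 (@Lb.r r1430 (@Lb.r r1635 (@Lb.r r1553 (@Lb.d (nat_lit 385) (nat_lit 169) (nat_lit 66) (@Lb.t (@Lb.fm (nat_lit 9) t4922)))))))))))
noncomputable def l25832 : Lb := (@Lb.d (nat_lit 2) (nat_lit 521) (nat_lit 129) (@Lb.g g8 (@Lb.g g9 (@Lb.g g10 (@Lb.g g11 (@Lb.r r2666 (@Lb.r r1635 (@Lb.r r1553 (@Lb.d (nat_lit 64) (nat_lit 169) (nat_lit 258) (@Lb.fm (nat_lit 9) t1117))))))))))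
noncomputable def l25833 : Lb := (@Lb.d (nat_lit 0) (nat_lit 512) (nat_lit 10) (@Lb.g g10 (@Lb.r r2449 (@Lb.r r24 (@Lb.d (nat_lit 0) (nat_lit 88) (nat_lit 153) (@Lb.t (@Lb.fm (nat_lit 3) t1340)))))))
noncomputable def l25834 : Lb := (@Lb.d (nat_lit 0) (nat_lit 266) (nat_lit 129) (@Lb.g g9 (@Lb.g g10 (@Lb.g g11 (@Lb.r r419 (@Lb.r r386 (@Lb.d (nat_lit 0) (nat_lit 33) (nat_lit 153) (@Lb.t (@Lb.fp (nat_lit 9) t1790)))))))))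
noncomputable def l25835 : Lb := (@Lb.r r322 (@Lb.d (nat_lit 0) (nat_lit 290) (nat_lit 516) (@Lb.g g9 (@Lb.g g7 (@Lb.r r422 (@Lb.r r1112 (@Lb.r r2085 (@Lb.d (nat_lit 516) (nat_lit 65) (nat_lit 64) (@Lb.fm (nat_lit 3) t512)))))))))
noncomputable def l25836 : Lb := (@Lb.d (nat_lit 32) (nat_lit 0) (nat_lit 137) (@Lb.g g9 (@Lb.g g10 (@Lb.g g11 (@Lb.r r1707 (@Lb.r r2713 (@Lb.r r100 (@Lb.r r410 (@Lb.d (nat_lit 649) (nat_lit 89) (nat_lit 153) (@Lb.t (@Lb.fm (nat_lit 9) t284)))))))))))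
noncomputable def l25837 : Lb := (@Lb.d (nat_lit 32) (nat_lit 512) (nat_lit 2) (@Lb.g g9 (@Lb.g g10 (@Lb.g g11 (@Lb.r r1707 (@Lb.r r2713 (@Lb.r r100 (@Lb.r r410 (@Lb.d (nat_lit 649) (nat_lit 89) (nat_lit 153) (@Lb.t (@Lb.fm (nat_lit 9) t284)))))))))))
noncomputable def l25838 : Lb := (@Lb.d (nat_lit 101) (nat_lit 170) (nat_lit 516) (@Lb.r r90 (@Lb.r r72 (@Lb.r r297 (@Lb.g g11 (@Lb.g g6 (@Lb.g g5 (@Lb.d (nat_lit 16) (nat_lit 1) (nat_lit 1) (@Lb.t (@Lb.fm (nat_lit 9) t1137))))))))))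
noncomputable def l25839 : Lb := (@Lb.d (nat_lit 0) (nat_lit 256) (nat_lit 130) (@Lb.g g10 (@Lb.g g11 (@Lb.r r2691 (@Lb.r r2658 (@Lb.r r101 (@Lb.r r24 (@Lb.d (nat_lit 577) (nat_lit 0) (nat_lit 389) (@Lb.fp (nat_lit 3) t312)))))))))
noncomputable def l25840 : Lb := (@Lb.d (nat_lit 0) (nat_lit 514) (nat_lit 2) (@Lb.g g9 (@Lb.g g10 (@Lb.g g7 (@Lb.r r386 (@Lb.r r97 (@Lb.d (nat_lit 0) (nat_lit 9) (nat_lit 137) (@Lb.t (@Lb.fp (nat_lit 9) t87)))))))))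
noncomputable def l25841 : Lb := (@Lb.d (nat_lit 2) (nat_lit 514) (nat_lit 130) (@Lb.g g8 (@Lb.g g9 (@Lb.g g10 (@Lb.g g11 (@Lb.r r427 (@Lb.r r106 (@Lb.r r97 (@Lb.d (nat_lit 265) (nat_lit 4) (nat_lit 168) (@Lb.fm (nat_lit 9) t1022))))))))))
noncomputable def l25842 : Lb := (@Lb.r r81 (@Lb.d (nat_lit 24) (nat_lit 288) (nat_lit 146) (@Lb.g g8 (@Lb.g g6 (@Lb.g g11 (@Lb.r r1173 (@Lb.r r2408 (@Lb.r r263 (@Lb.d (nat_lit 66) (nat_lit 106) (nat_lit 644) (@Lb.t (@Lb.fm (nat_lit 9) t393)))))))))))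
noncomputable def l25843 : Lb := (@Lb.r r82 (@Lb.d (nat_lit 533) (nat_lit 290) (nat_lit 64) (@Lb.g g4 (@Lb.g g9 (@Lb.g g11 (@Lb.r r2599 (@Lb.r r386 (@Lb.r r2193 (@Lb.d (nat_lit 681) (nat_lit 161) (nat_lit 552) (@Lb.t (@Lb.fp (nat_lit 9) t4923)))))))))))
noncomputable def l25844 : Lb := (@Lb.d (nat_lit 130) (nat_lit 520) (nat_lit 0) (@Lb.g g4 (@Lb.g g9 (@Lb.r r1371 (@Lb.r r82 (@Lb.r r161 (@Lb.r r1428 (@Lb.d (nat_lit 665) (nat_lit 105) (nat_lit 596) (@Lb.fm (nat_lit 3) t851)))))))))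
noncomputable def l25845 : Lb := (@Lb.d (nat_lit 417) (nat_lit 522) (nat_lit 406) (@Lb.r r1094 (@Lb.r r2196 (@Lb.r r1321 (@Lb.g g11 (@Lb.g g6 (@Lb.g g4 (@Lb.d (nat_lit 1) (nat_lit 0) (nat_lit 129) (@Lb.t (@Lb.fp (nat_lit 9) t4924))))))))))
noncomputable def l25846 : Lb := (@Lb.d (nat_lit 16) (nat_lit 256) (nat_lit 66) (@Lb.g g8 (@Lb.g g9 (@Lb.g g10 (@Lb.g g11 (@Lb.r r401 (@Lb.r r2667 (@Lb.r r2664 (@Lb.r r86 (@Lb.r r1177 (@Lb.d (nat_lit 1) (nat_lit 65) (nat_lit 425) (@Lb.fp (nat_lit 9) t256))))))))))))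
noncomputable def l25847 : Lb := (@Lb.d (nat_lit 130) (nat_lit 264) (nat_lit 0) (@Lb.g g4 (@Lb.g g9 (@Lb.r r1371 (@Lb.r r82 (@Lb.r r161 (@Lb.r r1428 (@Lb.d (nat_lit 665) (nat_lit 105) (nat_lit 660) (@Lb.fm (nat_lit 3) t591)))))))))
noncomputable def l25848 : Lb := (@Lb.d (nat_lit 130) (nat_lit 8) (nat_lit 0) (@Lb.g g8 (@Lb.g g9 (@Lb.r r1367 (@Lb.r r82 (@Lb.r r161 (@Lb.r r2664 (@Lb.d (nat_lit 358) (nat_lit 18) (nat_lit 425) (@Lb.fm (nat_lit 3) t851)))))))))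
noncomputable def l25849 : Lb := (@Lb.g g8 (@Lb.g g9 (@Lb.r r89 (@Lb.r r1126 (@Lb.r r24 (@Lb.d (nat_lit 576) (nat_lit 0) (nat_lit 528) (@Lb.fp (nat_lit 3) t3993)))))))
noncomputable def l25850 : Lb := (@Lb.d (nat_lit 128) (nat_lit 517) (nat_lit 258) (@Lb.r r2341 (@Lb.r r1624 (@Lb.r r1371 (@Lb.g g7 (@Lb.g g6 (@Lb.g g5 (@Lb.d (nat_lit 20) (nat_lit 1) (nat_lit 97) (@Lb.t (@Lb.fp (nat_lit 9) t4836))))))))))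
noncomputable def l25851 : Lb := (@Lb.d (nat_lit 384) (nat_lit 0) (nat_lit 288) (@Lb.r r24 (@Lb.r r2138 (@Lb.r r149 (@Lb.g g5 (@Lb.g g4 (@Lb.fp (nat_lit 3) t2858)))))))
noncomputable def l25852 : Lb := (@Lb.r r21 (@Lb.d (nat_lit 138) (nat_lit 32) (nat_lit 66) (@Lb.g g8 (@Lb.g g10 (@Lb.g g11 (@Lb.r r138 (@Lb.r r2149 (@Lb.r r408 (@Lb.r r1415 (@Lb.d (nat_lit 354) (nat_lit 137) (nat_lit 37) (@Lb.t (@Lb.fp (nat_lit 9) t4925))))))))))))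
noncomputable def l25853 : Lb := (@Lb.r r2118 (@Lb.r r2069 (@Lb.r r36 (@Lb.d (nat_lit 128) (nat_lit 144) (nat_lit 256) (@Lb.fp (nat_lit 1) t2830)))))
noncomputable def l25854 : Lb := (@Lb.d (nat_lit 129) (nat_lit 544) (nat_lit 64) (@Lb.g g8 (@Lb.g g11 (@Lb.r r41 (@Lb.r r1572 (@Lb.r r519 (@Lb.r r2178 (@Lb.d (nat_lit 129) (nat_lit 169) (nat_lit 514) (@Lb.fp (nat_lit 3) t3942)))))))))
noncomputable def l25855 : Lb := (@Lb.r r600 (@Lb.r r1301 (@Lb.r r1579 (@Lb.r r2178 (@Lb.r r1572 (@Lb.d (nat_lit 548) (nat_lit 600) (nat_lit 297) (@Lb.fm (nat_lit 1) t1805)))))))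
noncomputable def l25856 : Lb := (@Lb.d (nat_lit 137) (nat_lit 256) (nat_lit 128) (@Lb.g g8 (@Lb.g g11 (@Lb.r r1575 (@Lb.r r2662 (@Lb.r r613 (@Lb.r r2452 (@Lb.d (nat_lit 614) (nat_lit 24) (nat_lit 649) (@Lb.fm (nat_lit 3) t1952)))))))))
noncomputable def l25857 : Lb := (@Lb.r r2118 (@Lb.d (nat_lit 8) (nat_lit 257) (nat_lit 0) (@Lb.g g8 (@Lb.g g9 (@Lb.r r617 (@Lb.r r612 (@Lb.d (nat_lit 153) (nat_lit 21) (nat_lit 425) (@Lb.fp (nat_lit 3) t2858))))))))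
noncomputable def l25858 : Lb := (@Lb.r r21 (@Lb.d (nat_lit 129) (nat_lit 512) (nat_lit 130) (@Lb.g g8 (@Lb.g g10 (@Lb.g g11 (@Lb.r r419 (@Lb.r r1172 (@Lb.r r2438 (@Lb.r r25 (@Lb.d (nat_lit 277) (nat_lit 18) (nat_lit 137) (@Lb.t (@Lb.fp (nat_lit 9) t4926))))))))))))
noncomputable def l25859 : Lb := (@Lb.d (nat_lit 2) (nat_lit 545) (nat_lit 130) (@Lb.g g8 (@Lb.g g9 (@Lb.g g10 (@Lb.g g11 (@Lb.r r387 (@Lb.r r1188 (@Lb.r r2438 (@Lb.r r2577 (@Lb.d (nat_lit 342) (nat_lit 170) (nat_lit 145) (@Lb.fm (nat_lit 9) t2470)))))))))))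
noncomputable def l25860 : Lb := (@Lb.d (nat_lit 134) (nat_lit 528) (nat_lit 2) (@Lb.g g8 (@Lb.g g9 (@Lb.g g10 (@Lb.g g11 (@Lb.r r582 (@Lb.r r388 (@Lb.r r1323 (@Lb.r r673 (@Lb.d (nat_lit 617) (nat_lit 68) (nat_lit 581) (@Lb.fm (nat_lit 9) t422)))))))))))
noncomputable def l25861 : Lb := (@Lb.d (nat_lit 2) (nat_lit 265) (nat_lit 161) (@Lb.g g8 (@Lb.g g9 (@Lb.g g6 (@Lb.g g11 (@Lb.r r611 (@Lb.r r2657 (@Lb.r r24 (@Lb.d (nat_lit 8) (nat_lit 90) (nat_lit 40) (@Lb.fp (nat_lit 9) t4927))))))))))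
noncomputable def l25862 : Lb := (@Lb.d (nat_lit 2) (nat_lit 33) (nat_lit 130) (@Lb.g g8 (@Lb.g g9 (@Lb.g g10 (@Lb.g g11 (@Lb.r r387 (@Lb.r r1188 (@Lb.r r2438 (@Lb.r r2577 (@Lb.d (nat_lit 342) (nat_lit 165) (nat_lit 144) (@Lb.fm (nat_lit 9) t2470)))))))))))
noncomputable def l25863 : Lb := (@Lb.d (nat_lit 1) (nat_lit 261) (nat_lit 258) (@Lb.r r2337 (@Lb.r r279 (@Lb.r r1608 (@Lb.g g6 (@Lb.g g5 (@Lb.d (nat_lit 20) (nat_lit 1) (nat_lit 33) (@Lb.r r291 (@Lb.fm (nat_lit 3) t4836)))))))))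
noncomputable def l25864 : Lb := (@Lb.d (nat_lit 42) (nat_lit 256) (nat_lit 64) (@Lb.g g8 (@Lb.g g11 (@Lb.r r1703 (@Lb.r r614 (@Lb.r r1637 (@Lb.r r1428 (@Lb.d (nat_lit 358) (nat_lit 80) (nat_lit 340) (@Lb.fm (nat_lit 3) t386)))))))))
noncomputable def l25865 : Lb := (@Lb.d (nat_lit 4) (nat_lit 10) (nat_lit 1) (@Lb.g g8 (@Lb.g g9 (@Lb.g g10 (@Lb.r r683 (@Lb.r r2666 (@Lb.r r2585 (@Lb.d (nat_lit 329) (nat_lit 169) (nat_lit 161) (@Lb.t (@Lb.fp (nat_lit 9) t1399))))))))))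
noncomputable def l25866 : Lb := (@Lb.r r21 (@Lb.r r70 (@Lb.d (nat_lit 128) (nat_lit 512) (nat_lit 136) (@Lb.g g8 (@Lb.g g11 (@Lb.r r74 (@Lb.r r25 (@Lb.d (nat_lit 0) (nat_lit 0) (nat_lit 2) (@Lb.fm (nat_lit 3) t42)))))))))
noncomputable def l25867 : Lb := (@Lb.d (nat_lit 662) (nat_lit 129) (nat_lit 532) (@Lb.r r1445 (@Lb.r r2712 (@Lb.r r1363 (@Lb.g g7 (@Lb.g g6 (@Lb.g g5 (@Lb.d (nat_lit 16) (nat_lit 32) (nat_lit 102) (@Lb.t (@Lb.fp (nat_lit 9) t4721))))))))))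
noncomputable def l25868 : Lb := (@Lb.d (nat_lit 32) (nat_lit 512) (nat_lit 138) (@Lb.r r24 (@Lb.r r2138 (@Lb.r r149 (@Lb.g g5 (@Lb.g g4 (@Lb.fp (nat_lit 3) t1004)))))))
noncomputable def l25869 : Lb := (@Lb.r r82 (@Lb.d (nat_lit 9) (nat_lit 289) (nat_lit 64) (@Lb.g g8 (@Lb.g g9 (@Lb.g g11 (@Lb.r r2593 (@Lb.r r2343 (@Lb.r r146 (@Lb.r r1608 (@Lb.d (nat_lit 616) (nat_lit 134) (nat_lit 649) (@Lb.t (@Lb.fp (nat_lit 9) t2179))))))))))))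
noncomputable def l25870 : Lb := (@Lb.r r600 (@Lb.r r1301 (@Lb.r r1579 (@Lb.r r2178 (@Lb.r r1572 (@Lb.d (nat_lit 546) (nat_lit 592) (nat_lit 298) (@Lb.fm (nat_lit 1) t124)))))))
noncomputable def l25871 : Lb := (@Lb.d (nat_lit 41) (nat_lit 1) (nat_lit 1) (@Lb.g g8 (@Lb.g g9 (@Lb.g g10 (@Lb.r r683 (@Lb.r r1689 (@Lb.r r1688 (@Lb.r r602 (@Lb.d (nat_lit 106) (nat_lit 101) (nat_lit 280) (@Lb.t (@Lb.fm (nat_lit 9) t1235)))))))))))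
noncomputable def l25872 : Lb := (@Lb.d (nat_lit 34) (nat_lit 514) (nat_lit 73) (@Lb.g g8 (@Lb.g g9 (@Lb.g g10 (@Lb.g g11 (@Lb.r r2583 (@Lb.r r426 (@Lb.r r97 (@Lb.r r1432 (@Lb.d (nat_lit 648) (nat_lit 90) (nat_lit 290) (@Lb.fp (nat_lit 9) t4928)))))))))))
noncomputable def l25873 : Lb := (@Lb.d (nat_lit 9) (nat_lit 520) (nat_lit 73) (@Lb.g g8 (@Lb.g g9 (@Lb.g g10 (@Lb.g g11 (@Lb.r r2722 (@Lb.r r2439 (@Lb.r r145 (@Lb.r r1608 (@Lb.d (nat_lit 616) (nat_lit 68) (nat_lit 664) (@Lb.fp (nat_lit 9) t2179)))))))))))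
noncomputable def l25874 : Lb := (@Lb.d (nat_lit 32) (nat_lit 521) (nat_lit 72) (@Lb.g g9 (@Lb.g g10 (@Lb.g g11 (@Lb.r r2695 (@Lb.r r297 (@Lb.r r1352 (@Lb.r r2662 (@Lb.d (nat_lit 129) (nat_lit 88) (nat_lit 340) (@Lb.t (@Lb.fp (nat_lit 9) t4929)))))))))))
noncomputable def l25875 : Lb := (@Lb.d (nat_lit 6) (nat_lit 358) (nat_lit 6) (@Lb.r r21 (@Lb.r r2390 (@Lb.r r2731 (@Lb.g g6 (@Lb.g g5 (@Lb.g g4 (@Lb.d (nat_lit 549) (nat_lit 4) (nat_lit 1) (@Lb.t (@Lb.fm (nat_lit 9) t40))))))))))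
noncomputable def l25876 : Lb := (@Lb.d (nat_lit 9) (nat_lit 1) (nat_lit 2) (@Lb.g g8 (@Lb.g g9 (@Lb.g g10 (@Lb.g g7 (@Lb.r r386 (@Lb.r r2664 (@Lb.r r25 (@Lb.d (nat_lit 522) (nat_lit 164) (nat_lit 132) (@Lb.fm (nat_lit 9) t2877))))))))))
noncomputable def l25877 : Lb := (@Lb.d (nat_lit 9) (nat_lit 258) (nat_lit 2) (@Lb.g g8 (@Lb.g g9 (@Lb.g g10 (@Lb.g g7 (@Lb.r r386 (@Lb.r r1640 (@Lb.r r2073 (@Lb.d (nat_lit 8) (nat_lit 100) (nat_lit 132) (@Lb.fm (nat_lit 9) t3264))))))))))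
noncomputable def l25878 : Lb := (@Lb.r r338 (@Lb.d (nat_lit 2) (nat_lit 10) (nat_lit 576) (@Lb.g g8 (@Lb.g g9 (@Lb.g g7 (@Lb.r r2152 (@Lb.r r1430 (@Lb.r r1129 (@Lb.d (nat_lit 294) (nat_lit 21) (nat_lit 657) (@Lb.t (@Lb.fm (nat_lit 9) t1548)))))))))))
noncomputable def l25879 : Lb := (@Lb.d (nat_lit 41) (nat_lit 258) (nat_lit 0) (@Lb.g g8 (@Lb.g g9 (@Lb.g g7 (@Lb.r r406 (@Lb.r r2649 (@Lb.r r600 (@Lb.d (nat_lit 408) (nat_lit 66) (nat_lit 537) (@Lb.t (@Lb.fp (nat_lit 9) t1814))))))))))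
noncomputable def l25880 : Lb := (@Lb.d (nat_lit 10) (nat_lit 0) (nat_lit 130) (@Lb.g g8 (@Lb.g g10 (@Lb.g g11 (@Lb.r r2691 (@Lb.r r1109 (@Lb.r r2658 (@Lb.r r2436 (@Lb.d (nat_lit 612) (nat_lit 166) (nat_lit 596) (@Lb.t (@Lb.fp (nat_lit 9) t1831)))))))))))
noncomputable def l25881 : Lb := (@Lb.d (nat_lit 9) (nat_lit 258) (nat_lit 2) (@Lb.g g8 (@Lb.g g9 (@Lb.g g10 (@Lb.g g7 (@Lb.r r386 (@Lb.r r1640 (@Lb.r r2073 (@Lb.d (nat_lit 10) (nat_lit 105) (nat_lit 133) (@Lb.fm (nat_lit 9) t1403))))))))))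
noncomputable def l25882 : Lb := (@Lb.d (nat_lit 2) (nat_lit 2) (nat_lit 130) (@Lb.g g8 (@Lb.g g9 (@Lb.g g10 (@Lb.g g11 (@Lb.r r586 (@Lb.r r1619 (@Lb.r r292 (@Lb.r r405 (@Lb.r r2084 (@Lb.d (nat_lit 330) (nat_lit 130) (nat_lit 0) (@Lb.fm (nat_lit 9) t1954))))))))))))
noncomputable def l25883 : Lb := (@Lb.d (nat_lit 10) (nat_lit 32) (nat_lit 130) (@Lb.g g8 (@Lb.g g10 (@Lb.g g11 (@Lb.r r618 (@Lb.r r149 (@Lb.r r360 (@Lb.r r2567 (@Lb.d (nat_lit 650) (nat_lit 18) (nat_lit 640) (@Lb.t (@Lb.fm (nat_lit 9) t71)))))))))))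
noncomputable def l25884 : Lb := (@Lb.d (nat_lit 1) (nat_lit 256) (nat_lit 2) (@Lb.g g8 (@Lb.g g10 (@Lb.g g7 (@Lb.r r386 (@Lb.r r1640 (@Lb.r r2073 (@Lb.d (nat_lit 610) (nat_lit 26) (nat_lit 420) (@Lb.t (@Lb.fp (nat_lit 9) t2877))))))))))
noncomputable def l25885 : Lb := (@Lb.d (nat_lit 2) (nat_lit 258) (nat_lit 2) (@Lb.g g8 (@Lb.g g9 (@Lb.g g10 (@Lb.r r683 (@Lb.r r1689 (@Lb.r r1178 (@Lb.r r1156 (@Lb.d (nat_lit 554) (nat_lit 65) (nat_lit 681) (@Lb.t (@Lb.fm (nat_lit 9) t284)))))))))))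
noncomputable def l25886 : Lb := (@Lb.d (nat_lit 128) (nat_lit 1) (nat_lit 64) (@Lb.g g9 (@Lb.g g11 (@Lb.r r150 (@Lb.r r105 (@Lb.r r264 (@Lb.r r2663 (@Lb.d (nat_lit 666) (nat_lit 102) (nat_lit 105) (@Lb.fm (nat_lit 3) t71)))))))))
noncomputable def l25887 : Lb := (@Lb.d (nat_lit 2) (nat_lit 514) (nat_lit 74) (@Lb.g g8 (@Lb.g g9 (@Lb.g g10 (@Lb.g g11 (@Lb.r r281 (@Lb.r r675 (@Lb.r r138 (@Lb.r r1553 (@Lb.r r1156 (@Lb.d (nat_lit 298) (nat_lit 128) (nat_lit 546) (@Lb.fp (nat_lit 9) t284))))))))))))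
noncomputable def l25888 : Lb := (@Lb.d (nat_lit 0) (nat_lit 258) (nat_lit 64) (@Lb.g g9 (@Lb.g g10 (@Lb.g g7 (@Lb.r r1414 (@Lb.r r2153 (@Lb.r r2120 (@Lb.d (nat_lit 41) (nat_lit 130) (nat_lit 610) (@Lb.t (@Lb.fm (nat_lit 9) t145))))))))))
noncomputable def l25889 : Lb := (@Lb.d (nat_lit 2) (nat_lit 2) (nat_lit 2) (@Lb.g g8 (@Lb.g g9 (@Lb.g g10 (@Lb.r r683 (@Lb.r r1689 (@Lb.r r1178 (@Lb.r r1156 (@Lb.d (nat_lit 548) (nat_lit 64) (nat_lit 681) (@Lb.t (@Lb.fm (nat_lit 9) t284)))))))))))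
noncomputable def l25890 : Lb := (@Lb.r r402 (@Lb.r r2631 (@Lb.d (nat_lit 73) (nat_lit 592) (nat_lit 576) (@Lb.fp (nat_lit 1) t899))))
noncomputable def l25891 : Lb := (@Lb.d (nat_lit 0) (nat_lit 513) (nat_lit 128) (@Lb.g g8 (@Lb.g g9 (@Lb.g g10 (@Lb.g g11 (@Lb.r r2443 (@Lb.r r340 (@Lb.r r170 (@Lb.r r1193 (@Lb.r r164 (@Lb.d (nat_lit 258) (nat_lit 137) (nat_lit 153) (@Lb.fp (nat_lit 9) t386))))))))))))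
noncomputable def l25892 : Lb := (@Lb.d (nat_lit 520) (nat_lit 661) (nat_lit 678) (@Lb.r r1697 (@Lb.r r1707 (@Lb.r r1640 (@Lb.r r1174 (@Lb.g g6 (@Lb.g g9 (@Lb.d (nat_lit 4) (nat_lit 17) (nat_lit 0) (@Lb.r r387 (@Lb.fp (nat_lit 3) t119))))))))))
noncomputable def l25893 : Lb := (@Lb.g g8 (@Lb.g g5 (@Lb.r r149 (@Lb.r r402 (@Lb.r r2436 (@Lb.d (nat_lit 96) (nat_lit 420) (nat_lit 325) (@Lb.fm (nat_lit 3) t652)))))))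
noncomputable def l25894 : Lb := (@Lb.d (nat_lit 0) (nat_lit 258) (nat_lit 0) (@Lb.g g8 (@Lb.g g9 (@Lb.r r2153 (@Lb.r r402 (@Lb.r r2436 (@Lb.d (nat_lit 610) (nat_lit 164) (nat_lit 325) (@Lb.fm (nat_lit 3) t652))))))))
noncomputable def l25895 : Lb := (@Lb.d (nat_lit 513) (nat_lit 578) (nat_lit 33) (@Lb.r r97 (@Lb.r r70 (@Lb.r r263 (@Lb.g g4 (@Lb.r r267 (@Lb.r r74 (@Lb.r r25 (@Lb.t (@Lb.fp (nat_lit 3) t217))))))))))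
noncomputable def l25896 : Lb := (@Lb.d (nat_lit 21) (nat_lit 256) (nat_lit 74) (@Lb.g g8 (@Lb.g g9 (@Lb.g g10 (@Lb.g g11 (@Lb.r r2707 (@Lb.r r2474 (@Lb.r r97 (@Lb.r r1384 (@Lb.d (nat_lit 580) (nat_lit 18) (nat_lit 422) (@Lb.fp (nat_lit 9) t1246)))))))))))
noncomputable def l25897 : Lb := (@Lb.d (nat_lit 146) (nat_lit 514) (nat_lit 128) (@Lb.g g8 (@Lb.g g9 (@Lb.g g10 (@Lb.g g11 (@Lb.r r1706 (@Lb.r r1411 (@Lb.r r1188 (@Lb.r r37 (@Lb.d (nat_lit 357) (nat_lit 72) (nat_lit 665) (@Lb.fp (nat_lit 9) t283)))))))))))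
noncomputable def l25898 : Lb := (@Lb.d (nat_lit 146) (nat_lit 0) (nat_lit 130) (@Lb.g g8 (@Lb.g g9 (@Lb.g g10 (@Lb.g g11 (@Lb.r r2337 (@Lb.r r2587 (@Lb.r r600 (@Lb.r r1126 (@Lb.d (nat_lit 298) (nat_lit 145) (nat_lit 149) (@Lb.fm (nat_lit 9) t4930)))))))))))
noncomputable def l25899 : Lb := (@Lb.d (nat_lit 32) (nat_lit 512) (nat_lit 129) (@Lb.g g10 (@Lb.g g11 (@Lb.r r2651 (@Lb.r r2644 (@Lb.r r2457 (@Lb.r r1434 (@Lb.d (nat_lit 362) (nat_lit 90) (nat_lit 325) (@Lb.fm (nat_lit 3) t386)))))))))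
noncomputable def l25900 : Lb := (@Lb.d (nat_lit 129) (nat_lit 2) (nat_lit 130) (@Lb.g g8 (@Lb.g g9 (@Lb.g g10 (@Lb.g g11 (@Lb.r r1706 (@Lb.r r1411 (@Lb.r r2657 (@Lb.r r1156 (@Lb.d (nat_lit 553) (nat_lit 164) (nat_lit 356) (@Lb.fp (nat_lit 9) t3700)))))))))))
noncomputable def l25901 : Lb := (@Lb.d (nat_lit 2) (nat_lit 260) (nat_lit 128) (@Lb.g g8 (@Lb.g g9 (@Lb.g g10 (@Lb.g g11 (@Lb.r r2691 (@Lb.r r297 (@Lb.r r360 (@Lb.r r582 (@Lb.r r2180 (@Lb.d (nat_lit 289) (nat_lit 73) (nat_lit 33) (@Lb.fm (nat_lit 9) t4931))))))))))))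
noncomputable def l25902 : Lb := (@Lb.r r2118 (@Lb.d (nat_lit 10) (nat_lit 257) (nat_lit 0) (@Lb.g g8 (@Lb.g g9 (@Lb.r r1065 (@Lb.r r1060 (@Lb.d (nat_lit 258) (nat_lit 128) (nat_lit 0) (@Lb.fp (nat_lit 3) t4932))))))))
noncomputable def l25903 : Lb := (@Lb.d (nat_lit 2) (nat_lit 258) (nat_lit 130) (@Lb.g g8 (@Lb.g g9 (@Lb.g g10 (@Lb.g g11 (@Lb.r r2691 (@Lb.r r536 (@Lb.r r2197 (@Lb.r r2646 (@Lb.r r164 (@Lb.d (nat_lit 136) (nat_lit 9) (nat_lit 361) (@Lb.fp (nat_lit 9) t1636))))))))))))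
noncomputable def l25904 : Lb := (@Lb.d (nat_lit 9) (nat_lit 513) (nat_lit 130) (@Lb.g g8 (@Lb.g g9 (@Lb.g g10 (@Lb.g g11 (@Lb.r r2705 (@Lb.r r535 (@Lb.r r2440 (@Lb.r r2122 (@Lb.d (nat_lit 288) (nat_lit 10) (nat_lit 136) (@Lb.fp (nat_lit 9) t221)))))))))))
noncomputable def l25905 : Lb := (@Lb.d (nat_lit 10) (nat_lit 2) (nat_lit 130) (@Lb.g g8 (@Lb.g g9 (@Lb.g g10 (@Lb.g g11 (@Lb.r r2658 (@Lb.r r1607 (@Lb.r r292 (@Lb.r r1045 (@Lb.r r1060 (@Lb.d (nat_lit 521) (nat_lit 168) (nat_lit 642) (@Lb.fm (nat_lit 9) t2815))))))))))))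
noncomputable def l25906 : Lb := (@Lb.d (nat_lit 2) (nat_lit 514) (nat_lit 130) (@Lb.g g8 (@Lb.g g9 (@Lb.g g10 (@Lb.g g11 (@Lb.r r648 (@Lb.r r1563 (@Lb.r r2453 (@Lb.r r2134 (@Lb.r r1188 (@Lb.d (nat_lit 552) (nat_lit 2) (nat_lit 361) (@Lb.fp (nat_lit 9) t1025))))))))))))
noncomputable def l25907 : Lb := (@Lb.d (nat_lit 0) (nat_lit 8) (nat_lit 2) (@Lb.g g10 (@Lb.r r1427 (@Lb.r r101 (@Lb.d (nat_lit 266) (nat_lit 66) (nat_lit 66) (@Lb.t (@Lb.fm (nat_lit 3) t240)))))))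
noncomputable def l25908 : Lb := (@Lb.d (nat_lit 1) (nat_lit 96) (nat_lit 517) (@Lb.r r579 (@Lb.r r1362 (@Lb.g g6 (@Lb.g g5 (@Lb.d (nat_lit 4) (nat_lit 1) (nat_lit 1) (@Lb.fp (nat_lit 3) t607)))))))
noncomputable def l25909 : Lb := (@Lb.d (nat_lit 0) (nat_lit 264) (nat_lit 2) (@Lb.g g10 (@Lb.d (nat_lit 0) (nat_lit 154) (nat_lit 265) (@Lb.t (@Lb.fp (nat_lit 3) t334)))))
noncomputable def l25910 : Lb := (@Lb.g g10 (@Lb.g g11 (@Lb.r r658 (@Lb.r r2707 (@Lb.r r2626 (@Lb.d (nat_lit 0) (nat_lit 352) (nat_lit 276) (@Lb.fm (nat_lit 3) t334)))))))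
noncomputable def l25911 : Lb := (@Lb.d (nat_lit 2) (nat_lit 258) (nat_lit 68) (@Lb.g g8 (@Lb.g g9 (@Lb.g g10 (@Lb.g g11 (@Lb.r r427 (@Lb.r r1606 (@Lb.r r2457 (@Lb.r r2436 (@Lb.d (nat_lit 96) (nat_lit 2) (nat_lit 544) (@Lb.fp (nat_lit 9) t2103)))))))))))
noncomputable def l25912 : Lb := (@Lb.d (nat_lit 389) (nat_lit 608) (nat_lit 517) (@Lb.r r24 (@Lb.r r2337 (@Lb.r r579 (@Lb.r r1366 (@Lb.g g6 (@Lb.g g5 (@Lb.g g4 (@Lb.d (nat_lit 1) (nat_lit 1) (nat_lit 1) (@Lb.t (@Lb.fm (nat_lit 9) t720)))))))))))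
noncomputable def l25913 : Lb := (@Lb.d (nat_lit 130) (nat_lit 2) (nat_lit 0) (@Lb.g g8 (@Lb.g g9 (@Lb.g g10 (@Lb.r r1450 (@Lb.r r583 (@Lb.r r1553 (@Lb.r r392 (@Lb.d (nat_lit 144) (nat_lit 97) (nat_lit 586) (@Lb.t (@Lb.fp (nat_lit 9) t51)))))))))))
noncomputable def l25914 : Lb := (@Lb.d (nat_lit 134) (nat_lit 256) (nat_lit 130) (@Lb.g g8 (@Lb.g g9 (@Lb.g g10 (@Lb.g g11 (@Lb.r r162 (@Lb.r r553 (@Lb.r r619 (@Lb.r r1553 (@Lb.r r2084 (@Lb.d (nat_lit 89) (nat_lit 66) (nat_lit 600) (@Lb.fm (nat_lit 9) t4257))))))))))))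
noncomputable def l25915 : Lb := (@Lb.g g10 (@Lb.r r354 (@Lb.r r1427 (@Lb.r r101 (@Lb.d (nat_lit 133) (nat_lit 401) (nat_lit 64) (@Lb.t (@Lb.fm (nat_lit 3) t240)))))))
noncomputable def l25916 : Lb := (@Lb.d (nat_lit 162) (nat_lit 645) (nat_lit 394) (@Lb.r r273 (@Lb.r r402 (@Lb.r r679 (@Lb.g g7 (@Lb.g g6 (@Lb.g g8 (@Lb.d (nat_lit 354) (nat_lit 0) (nat_lit 5) (@Lb.r r409 (@Lb.t (@Lb.fm (nat_lit 9) t1343)))))))))))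
noncomputable def l25917 : Lb := (@Lb.d (nat_lit 4) (nat_lit 514) (nat_lit 101) (@Lb.r r2449 (@Lb.r r1639 (@Lb.r r2308 (@Lb.g g7 (@Lb.g g10 (@Lb.g g5 (@Lb.d (nat_lit 36) (nat_lit 6) (nat_lit 80) (@Lb.t (@Lb.fp (nat_lit 9) t1639))))))))))
noncomputable def l25918 : Lb := (@Lb.d (nat_lit 0) (nat_lit 512) (nat_lit 128) (@Lb.g g4 (@Lb.g g10 (@Lb.g g11 (@Lb.r r387 (@Lb.r r402 (@Lb.d (nat_lit 6) (nat_lit 5) (nat_lit 2) (@Lb.t (@Lb.fm (nat_lit 9) t354)))))))))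
noncomputable def l25919 : Lb := (@Lb.d (nat_lit 168) (nat_lit 512) (nat_lit 130) (@Lb.g g9 (@Lb.g g10 (@Lb.g g11 (@Lb.r r264 (@Lb.r r1303 (@Lb.r r2661 (@Lb.r r2202 (@Lb.d (nat_lit 9) (nat_lit 130) (nat_lit 292) (@Lb.t (@Lb.fp (nat_lit 9) t45)))))))))))
noncomputable def l25920 : Lb := (@Lb.d (nat_lit 0) (nat_lit 512) (nat_lit 130) (@Lb.g g4 (@Lb.g g10 (@Lb.g g11 (@Lb.r r419 (@Lb.r r386 (@Lb.d (nat_lit 5) (nat_lit 41) (nat_lit 137) (@Lb.t (@Lb.fm (nat_lit 9) t369)))))))))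
noncomputable def l25921 : Lb := (@Lb.r r275 (@Lb.d (nat_lit 136) (nat_lit 2) (nat_lit 2) (@Lb.g g8 (@Lb.g g9 (@Lb.g g10 (@Lb.r r362 (@Lb.r r391 (@Lb.r r401 (@Lb.r r516 (@Lb.d (nat_lit 130) (nat_lit 16) (nat_lit 88) (@Lb.t (@Lb.fm (nat_lit 9) t390))))))))))))
noncomputable def l25922 : Lb := (@Lb.d (nat_lit 128) (nat_lit 38) (nat_lit 64) (@Lb.g g8 (@Lb.g g9 (@Lb.g g10 (@Lb.g g11 (@Lb.r r419 (@Lb.r r1701 (@Lb.r r98 (@Lb.r r516 (@Lb.d (nat_lit 38) (nat_lit 129) (nat_lit 362) (@Lb.fm (nat_lit 9) t902)))))))))))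
noncomputable def l25923 : Lb := (@Lb.d (nat_lit 0) (nat_lit 292) (nat_lit 128) (@Lb.g g4 (@Lb.g g9 (@Lb.g g10 (@Lb.g g11 (@Lb.r r387 (@Lb.r r165 (@Lb.r r2466 (@Lb.r r145 (@Lb.d (nat_lit 410) (nat_lit 72) (nat_lit 650) (@Lb.fm (nat_lit 9) t3337)))))))))))
noncomputable def l25924 : Lb := (@Lb.d (nat_lit 9) (nat_lit 513) (nat_lit 2) (@Lb.g g8 (@Lb.g g9 (@Lb.g g10 (@Lb.r r2666 (@Lb.r r579 (@Lb.r r25 (@Lb.r r24 (@Lb.d (nat_lit 6) (nat_lit 160) (nat_lit 586) (@Lb.t (@Lb.fm (nat_lit 9) t51)))))))))))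
noncomputable def l25925 : Lb := (@Lb.r r386 (@Lb.r r1347 (@Lb.r r578 (@Lb.r r24 (@Lb.r r101 (@Lb.d (nat_lit 0) (nat_lit 389) (nat_lit 102) (@Lb.fm (nat_lit 1) t126)))))))
noncomputable def l25926 : Lb := (@Lb.r r89 (@Lb.r r166 (@Lb.r r344 (@Lb.r r679 (@Lb.r r657 (@Lb.d (nat_lit 0) (nat_lit 593) (nat_lit 394) (@Lb.fm (nat_lit 1) t210)))))))
noncomputable def l25927 : Lb := (@Lb.r r82 (@Lb.d (nat_lit 0) (nat_lit 273) (nat_lit 132) (@Lb.g g9 (@Lb.g g7 (@Lb.r r386 (@Lb.r r161 (@Lb.d (nat_lit 5) (nat_lit 6) (nat_lit 64) (@Lb.fp (nat_lit 3) t607))))))))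
noncomputable def l25928 : Lb := (@Lb.d (nat_lit 6) (nat_lit 262) (nat_lit 65) (@Lb.r r273 (@Lb.r r611 (@Lb.r r601 (@Lb.r r326 (@Lb.g g7 (@Lb.g g6 (@Lb.g g5 (@Lb.g g4 (@Lb.d (nat_lit 1) (nat_lit 0) (nat_lit 65) (@Lb.fm (nat_lit 9) t1185)))))))))))
noncomputable def l25929 : Lb := (@Lb.r r82 (@Lb.d (nat_lit 2) (nat_lit 338) (nat_lit 0) (@Lb.g g8 (@Lb.g g5 (@Lb.g g11 (@Lb.r r1619 (@Lb.r r386 (@Lb.r r1096 (@Lb.d (nat_lit 546) (nat_lit 1) (nat_lit 33) (@Lb.t (@Lb.fm (nat_lit 9) t1205)))))))))))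
noncomputable def l25930 : Lb := (@Lb.r r82 (@Lb.d (nat_lit 2) (nat_lit 385) (nat_lit 128) (@Lb.g g8 (@Lb.g g5 (@Lb.g g11 (@Lb.r r595 (@Lb.r r386 (@Lb.r r1096 (@Lb.d (nat_lit 10) (nat_lit 138) (nat_lit 33) (@Lb.t (@Lb.fm (nat_lit 9) t1883)))))))))))
noncomputable def l25931 : Lb := (@Lb.d (nat_lit 10) (nat_lit 512) (nat_lit 128) (@Lb.g g8 (@Lb.g g11 (@Lb.r r593 (@Lb.r r2587 (@Lb.r r2178 (@Lb.r r2584 (@Lb.d (nat_lit 345) (nat_lit 162) (nat_lit 384) (@Lb.fp (nat_lit 3) t417)))))))))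
noncomputable def l25932 : Lb := (@Lb.r r21 (@Lb.d (nat_lit 17) (nat_lit 512) (nat_lit 128) (@Lb.g g8 (@Lb.g g10 (@Lb.g g11 (@Lb.r r647 (@Lb.r r549 (@Lb.r r344 (@Lb.r r390 (@Lb.d (nat_lit 105) (nat_lit 160) (nat_lit 134) (@Lb.t (@Lb.fm (nat_lit 9) t4933))))))))))))
noncomputable def l25933 : Lb := (@Lb.d (nat_lit 146) (nat_lit 513) (nat_lit 358) (@Lb.r r1608 (@Lb.r r146 (@Lb.r r1691 (@Lb.g g7 (@Lb.g g9 (@Lb.g g4 (@Lb.d (nat_lit 6) (nat_lit 2) (nat_lit 64) (@Lb.r r98 (@Lb.t (@Lb.fp (nat_lit 9) t3914)))))))))))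
noncomputable def l25934 : Lb := (@Lb.r r21 (@Lb.d (nat_lit 656) (nat_lit 512) (nat_lit 128) (@Lb.g g8 (@Lb.g g10 (@Lb.g g11 (@Lb.r r1419 (@Lb.r r74 (@Lb.r r25 (@Lb.d (nat_lit 33) (nat_lit 0) (nat_lit 425) (@Lb.t (@Lb.fm (nat_lit 9) t1071)))))))))))
noncomputable def l25935 : Lb := (@Lb.d (nat_lit 32) (nat_lit 512) (nat_lit 22) (@Lb.r r24 (@Lb.r r613 (@Lb.r r2707 (@Lb.r r1634 (@Lb.g g7 (@Lb.g g6 (@Lb.g g5 (@Lb.d (nat_lit 0) (nat_lit 24) (nat_lit 5) (@Lb.t (@Lb.fm (nat_lit 9) t3354)))))))))))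
noncomputable def l25936 : Lb := (@Lb.d (nat_lit 9) (nat_lit 518) (nat_lit 128) (@Lb.g g8 (@Lb.g g9 (@Lb.g g10 (@Lb.g g11 (@Lb.r r1287 (@Lb.r r2666 (@Lb.r r97 (@Lb.r r2564 (@Lb.d (nat_lit 385) (nat_lit 0) (nat_lit 386) (@Lb.fm (nat_lit 9) t3914)))))))))))
noncomputable def l25937 : Lb := (@Lb.d (nat_lit 146) (nat_lit 517) (nat_lit 358) (@Lb.r r2374 (@Lb.r r1691 (@Lb.r r2389 (@Lb.g g7 (@Lb.g g6 (@Lb.g g5 (@Lb.g g4 (@Lb.d (nat_lit 1) (nat_lit 1) (nat_lit 65) (@Lb.fm (nat_lit 9) t2597))))))))))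
noncomputable def l25938 : Lb := (@Lb.d (nat_lit 2) (nat_lit 4) (nat_lit 128) (@Lb.g g8 (@Lb.g g9 (@Lb.g g10 (@Lb.g g11 (@Lb.r r427 (@Lb.r r106 (@Lb.r r97 (@Lb.d (nat_lit 265) (nat_lit 9) (nat_lit 169) (@Lb.fm (nat_lit 9) t2444))))))))))
noncomputable def l25939 : Lb := (@Lb.d (nat_lit 2) (nat_lit 514) (nat_lit 66) (@Lb.g g8 (@Lb.g g9 (@Lb.g g10 (@Lb.g g11 (@Lb.r r427 (@Lb.r r106 (@Lb.r r97 (@Lb.d (nat_lit 265) (nat_lit 9) (nat_lit 169) (@Lb.fm (nat_lit 9) t1022))))))))))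
noncomputable def l25940 : Lb := (@Lb.d (nat_lit 2) (nat_lit 2) (nat_lit 130) (@Lb.g g8 (@Lb.g g9 (@Lb.g g10 (@Lb.g g11 (@Lb.r r427 (@Lb.r r106 (@Lb.r r97 (@Lb.d (nat_lit 265) (nat_lit 9) (nat_lit 34) (@Lb.fm (nat_lit 9) t1022))))))))))
noncomputable def l25941 : Lb := (@Lb.d (nat_lit 656) (nat_lit 512) (nat_lit 390) (@Lb.r r1094 (@Lb.r r2200 (@Lb.r r1317 (@Lb.g g11 (@Lb.g g6 (@Lb.d (nat_lit 0) (nat_lit 0) (nat_lit 129) (@Lb.fp (nat_lit 3) t4934))))))))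
noncomputable def l25942 : Lb := (@Lb.d (nat_lit 128) (nat_lit 322) (nat_lit 64) (@Lb.g g5 (@Lb.g g11 (@Lb.r r264 (@Lb.r r519 (@Lb.r r1154 (@Lb.d (nat_lit 129) (nat_lit 66) (nat_lit 128) (@Lb.fm (nat_lit 3) t980))))))))
noncomputable def l25943 : Lb := (@Lb.g g9 (@Lb.r r260 (@Lb.r r523 (@Lb.r r1154 (@Lb.r r1057 (@Lb.r r516 (@Lb.t (@Lb.p (nat_lit 1) (@Lb.fm (nat_lit 3) t980)))))))))
noncomputable def l25944 : Lb := (@Lb.r r273 (@Lb.d (nat_lit 9) (nat_lit 0) (nat_lit 578) (@Lb.g g8 (@Lb.g g10 (@Lb.g g7 (@Lb.r r2458 (@Lb.r r101 (@Lb.r r2456 (@Lb.d (nat_lit 536) (nat_lit 73) (nat_lit 538) (@Lb.t (@Lb.fm (nat_lit 9) t3172)))))))))))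
noncomputable def l25945 : Lb := (@Lb.r r273 (@Lb.d (nat_lit 10) (nat_lit 256) (nat_lit 578) (@Lb.g g8 (@Lb.g g10 (@Lb.g g7 (@Lb.r r2458 (@Lb.r r101 (@Lb.r r2456 (@Lb.d (nat_lit 536) (nat_lit 66) (nat_lit 536) (@Lb.t (@Lb.fm (nat_lit 9) t3172)))))))))))
noncomputable def l25946 : Lb := (@Lb.d (nat_lit 290) (nat_lit 517) (nat_lit 32) (@Lb.g g5 (@Lb.t (@Lb.fm (nat_lit 3) t425))))
noncomputable def l25947 : Lb := (@Lb.d (nat_lit 26) (nat_lit 1) (nat_lit 5) (@Lb.g g8 (@Lb.g g9 (@Lb.g g10 (@Lb.g g11 (@Lb.r r388 (@Lb.r r1355 (@Lb.r r666 (@Lb.r r97 (@Lb.r r2068 (@Lb.d (nat_lit 586) (nat_lit 137) (nat_lit 162) (@Lb.fp (nat_lit 9) t50))))))))))))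
noncomputable def l25948 : Lb := (@Lb.d (nat_lit 1) (nat_lit 521) (nat_lit 4) (@Lb.g g8 (@Lb.g g9 (@Lb.g g10 (@Lb.g g11 (@Lb.r r387 (@Lb.r r537 (@Lb.r r596 (@Lb.r r394 (@Lb.r r132 (@Lb.d (nat_lit 129) (nat_lit 10) (nat_lit 73) (@Lb.fm (nat_lit 9) t98))))))))))))
noncomputable def l25949 : Lb := (@Lb.d (nat_lit 1) (nat_lit 9) (nat_lit 130) (@Lb.g g8 (@Lb.g g9 (@Lb.g g10 (@Lb.g g11 (@Lb.r r387 (@Lb.r r537 (@Lb.r r596 (@Lb.r r394 (@Lb.r r132 (@Lb.d (nat_lit 129) (nat_lit 10) (nat_lit 73) (@Lb.fm (nat_lit 9) t98))))))))))))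
noncomputable def l25950 : Lb := (@Lb.r r323 (@Lb.d (nat_lit 65) (nat_lit 2) (nat_lit 0) (@Lb.g g8 (@Lb.g g9 (@Lb.g g10 (@Lb.r r343 (@Lb.r r617 (@Lb.r r86 (@Lb.r r168 (@Lb.d (nat_lit 24) (nat_lit 134) (nat_lit 258) (@Lb.t (@Lb.fm (nat_lit 9) t51))))))))))))
noncomputable def l25951 : Lb := (@Lb.r r323 (@Lb.d (nat_lit 66) (nat_lit 258) (nat_lit 0) (@Lb.g g8 (@Lb.g g9 (@Lb.g g10 (@Lb.r r343 (@Lb.r r617 (@Lb.r r86 (@Lb.r r168 (@Lb.d (nat_lit 24) (nat_lit 136) (nat_lit 256) (@Lb.t (@Lb.fm (nat_lit 9) t51))))))))))))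
noncomputable def l25952 : Lb := (@Lb.r r355 (@Lb.d (nat_lit 32) (nat_lit 274) (nat_lit 0) (@Lb.g g9 (@Lb.g g10 (@Lb.r r1675 (@Lb.r r68 (@Lb.r r394 (@Lb.d (nat_lit 673) (nat_lit 132) (nat_lit 152) (@Lb.fm (nat_lit 3) t594)))))))))
noncomputable def l25953 : Lb := (@Lb.d (nat_lit 8) (nat_lit 514) (nat_lit 130) (@Lb.g g9 (@Lb.g g10 (@Lb.g g11 (@Lb.r r614 (@Lb.r r404 (@Lb.r r683 (@Lb.r r673 (@Lb.d (nat_lit 9) (nat_lit 149) (nat_lit 136) (@Lb.t (@Lb.fm (nat_lit 9) t119)))))))))))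
noncomputable def l25954 : Lb := (@Lb.d (nat_lit 660) (nat_lit 89) (nat_lit 425) (@Lb.r r1364 (@Lb.r r2666 (@Lb.r r2401 (@Lb.g g11 (@Lb.g g6 (@Lb.g g4 (@Lb.d (nat_lit 5) (nat_lit 0) (nat_lit 385) (@Lb.r r529 (@Lb.t (@Lb.fp (nat_lit 9) t4935)))))))))))
noncomputable def l25955 : Lb := (@Lb.d (nat_lit 4) (nat_lit 0) (nat_lit 130) (@Lb.g g8 (@Lb.g g9 (@Lb.g g10 (@Lb.g g11 (@Lb.r r610 (@Lb.r r612 (@Lb.r r359 (@Lb.r r277 (@Lb.r r548 (@Lb.d (nat_lit 9) (nat_lit 9) (nat_lit 130) (@Lb.fp (nat_lit 9) t145))))))))))))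
noncomputable def l25956 : Lb := (@Lb.r r323 (@Lb.d (nat_lit 32) (nat_lit 260) (nat_lit 34) (@Lb.g g10 (@Lb.r r580 (@Lb.r r295 (@Lb.r r289 (@Lb.r r36 (@Lb.d (nat_lit 0) (nat_lit 144) (nat_lit 66) (@Lb.t (@Lb.fm (nat_lit 3) t1190))))))))))
noncomputable def l25957 : Lb := (@Lb.d (nat_lit 0) (nat_lit 657) (nat_lit 33) (@Lb.r r386 (@Lb.r r339 (@Lb.g g7 (@Lb.g g6 (@Lb.g g5 (@Lb.d (nat_lit 0) (nat_lit 0) (nat_lit 65) (@Lb.t (@Lb.fm (nat_lit 9) t69)))))))))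
noncomputable def l25958 : Lb := (@Lb.d (nat_lit 128) (nat_lit 16) (nat_lit 328) (@Lb.g g10 (@Lb.g g11 (@Lb.r r1385 (@Lb.r r1428 (@Lb.r r1110 (@Lb.d (nat_lit 256) (nat_lit 138) (nat_lit 161) (@Lb.fp (nat_lit 3) t4936))))))))
noncomputable def l25959 : Lb := (@Lb.d (nat_lit 0) (nat_lit 520) (nat_lit 10) (@Lb.g g6 (@Lb.r r657 (@Lb.r r411 (@Lb.r r404 (@Lb.r r86 (@Lb.d (nat_lit 280) (nat_lit 10) (nat_lit 16) (@Lb.t (@Lb.fm (nat_lit 3) t127)))))))))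
noncomputable def l25960 : Lb := (@Lb.r r82 (@Lb.d (nat_lit 2) (nat_lit 385) (nat_lit 0) (@Lb.g g8 (@Lb.g g5 (@Lb.r r98 (@Lb.r r24 (@Lb.d (nat_lit 10) (nat_lit 66) (nat_lit 69) (@Lb.fm (nat_lit 3) t647))))))))
noncomputable def l25961 : Lb := (@Lb.d (nat_lit 2) (nat_lit 41) (nat_lit 1) (@Lb.g g8 (@Lb.g g9 (@Lb.g g10 (@Lb.r r275 (@Lb.r r2210 (@Lb.r r657 (@Lb.r r24 (@Lb.d (nat_lit 10) (nat_lit 24) (nat_lit 518) (@Lb.t (@Lb.fm (nat_lit 9) t1436)))))))))))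
noncomputable def l25962 : Lb := (@Lb.d (nat_lit 0) (nat_lit 152) (nat_lit 649) (@Lb.r r657 (@Lb.r r2394 (@Lb.r r2148 (@Lb.g g11 (@Lb.g g5 (@Lb.d (nat_lit 4) (nat_lit 0) (nat_lit 384) (@Lb.r r578 (@Lb.fp (nat_lit 3) t1490)))))))))
noncomputable def l25963 : Lb := (@Lb.d (nat_lit 2) (nat_lit 553) (nat_lit 65) (@Lb.g g8 (@Lb.g g9 (@Lb.g g10 (@Lb.g g11 (@Lb.r r665 (@Lb.r r2707 (@Lb.r r578 (@Lb.d (nat_lit 641) (nat_lit 133) (nat_lit 278) (@Lb.fm (nat_lit 9) t4937))))))))))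
noncomputable def l25964 : Lb := (@Lb.d (nat_lit 2) (nat_lit 34) (nat_lit 66) (@Lb.g g8 (@Lb.g g9 (@Lb.g g10 (@Lb.g g11 (@Lb.r r665 (@Lb.r r2707 (@Lb.r r578 (@Lb.d (nat_lit 641) (nat_lit 133) (nat_lit 344) (@Lb.fm (nat_lit 9) t2854))))))))))
noncomputable def l25965 : Lb := (@Lb.d (nat_lit 32) (nat_lit 0) (nat_lit 68) (@Lb.g g9 (@Lb.g g10 (@Lb.g g11 (@Lb.r r1707 (@Lb.r r2641 (@Lb.r r88 (@Lb.r r422 (@Lb.d (nat_lit 341) (nat_lit 166) (nat_lit 153) (@Lb.t (@Lb.fp (nat_lit 9) t284)))))))))))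
noncomputable def l25966 : Lb := (@Lb.r r323 (@Lb.d (nat_lit 128) (nat_lit 520) (nat_lit 34) (@Lb.g g8 (@Lb.g g10 (@Lb.r r615 (@Lb.r r533 (@Lb.r r2340 (@Lb.d (nat_lit 586) (nat_lit 105) (nat_lit 534) (@Lb.fp (nat_lit 3) t221)))))))))
noncomputable def l25967 : Lb := (@Lb.r r322 (@Lb.d (nat_lit 2) (nat_lit 545) (nat_lit 516) (@Lb.g g8 (@Lb.g g9 (@Lb.g g7 (@Lb.r r418 (@Lb.r r2088 (@Lb.r r2201 (@Lb.d (nat_lit 592) (nat_lit 132) (nat_lit 657) (@Lb.t (@Lb.fp (nat_lit 9) t4938)))))))))))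
noncomputable def l25968 : Lb := (@Lb.r r21 (@Lb.d (nat_lit 6) (nat_lit 256) (nat_lit 0) (@Lb.g g4 (@Lb.r r25 (@Lb.d (nat_lit 10) (nat_lit 0) (nat_lit 128) (@Lb.t (@Lb.fm (nat_lit 3) t2)))))))
noncomputable def l25969 : Lb := (@Lb.d (nat_lit 4) (nat_lit 265) (nat_lit 72) (@Lb.g g8 (@Lb.g g9 (@Lb.g g10 (@Lb.g g11 (@Lb.r r618 (@Lb.r r579 (@Lb.r r1121 (@Lb.r r24 (@Lb.d (nat_lit 153) (nat_lit 137) (nat_lit 342) (@Lb.fm (nat_lit 9) t4622)))))))))))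
noncomputable def l25970 : Lb := (@Lb.r r323 (@Lb.d (nat_lit 2) (nat_lit 520) (nat_lit 6) (@Lb.g g8 (@Lb.g g10 (@Lb.r r387 (@Lb.d (nat_lit 10) (nat_lit 1) (nat_lit 137) (@Lb.fm (nat_lit 3) t51)))))))
noncomputable def l25971 : Lb := (@Lb.r r323 (@Lb.d (nat_lit 5) (nat_lit 0) (nat_lit 4) (@Lb.g g4 (@Lb.g g6 (@Lb.r r387 (@Lb.d (nat_lit 0) (nat_lit 6) (nat_lit 10) (@Lb.fm (nat_lit 3) t45)))))))
noncomputable def l25972 : Lb := (@Lb.d (nat_lit 2) (nat_lit 514) (nat_lit 130) (@Lb.g g8 (@Lb.g g9 (@Lb.g g10 (@Lb.g g11 (@Lb.r r2411 (@Lb.r r386 (@Lb.r r97 (@Lb.r r24 (@Lb.d (nat_lit 533) (nat_lit 132) (nat_lit 70) (@Lb.fm (nat_lit 9) t1350)))))))))))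
noncomputable def l25973 : Lb := (@Lb.r r323 (@Lb.d (nat_lit 0) (nat_lit 256) (nat_lit 38) (@Lb.g g9 (@Lb.g g10 (@Lb.r r387 (@Lb.r r2577 (@Lb.d (nat_lit 0) (nat_lit 0) (nat_lit 346) (@Lb.fm (nat_lit 3) t121))))))))
noncomputable def l25974 : Lb := (@Lb.d (nat_lit 6) (nat_lit 0) (nat_lit 130) (@Lb.g g8 (@Lb.g g9 (@Lb.g g10 (@Lb.g g11 (@Lb.r r2411 (@Lb.r r386 (@Lb.r r104 (@Lb.r r25 (@Lb.d (nat_lit 512) (nat_lit 0) (nat_lit 68) (@Lb.fp (nat_lit 9) t61)))))))))))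
noncomputable def l25975 : Lb := (@Lb.d (nat_lit 2) (nat_lit 0) (nat_lit 0) (@Lb.g g8 (@Lb.r r154 (@Lb.r r660 (@Lb.r r535 (@Lb.r r289 (@Lb.d (nat_lit 0) (nat_lit 17) (nat_lit 10) (@Lb.t (@Lb.fm (nat_lit 3) t51)))))))))
noncomputable def l25976 : Lb := (@Lb.d (nat_lit 418) (nat_lit 421) (nat_lit 162) (@Lb.r r2403 (@Lb.r r1445 (@Lb.r r1112 (@Lb.r r2214 (@Lb.g g7 (@Lb.g g6 (@Lb.g g5 (@Lb.d (nat_lit 68) (nat_lit 0) (nat_lit 65) (@Lb.t (@Lb.fm (nat_lit 9) t387)))))))))))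
noncomputable def l25977 : Lb := (@Lb.r r82 (@Lb.d (nat_lit 6) (nat_lit 8) (nat_lit 0) (@Lb.g g8 (@Lb.g g9 (@Lb.r r1707 (@Lb.r r1430 (@Lb.r r601 (@Lb.d (nat_lit 105) (nat_lit 166) (nat_lit 537) (@Lb.fm (nat_lit 3) t98)))))))))
noncomputable def l25978 : Lb := (@Lb.d (nat_lit 10) (nat_lit 0) (nat_lit 64) (@Lb.g g8 (@Lb.g g11 (@Lb.r r353 (@Lb.r r407 (@Lb.r r584 (@Lb.r r134 (@Lb.d (nat_lit 517) (nat_lit 1) (nat_lit 38) (@Lb.fp (nat_lit 3) t40)))))))))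
noncomputable def l25979 : Lb := (@Lb.d (nat_lit 25) (nat_lit 258) (nat_lit 130) (@Lb.g g8 (@Lb.g g9 (@Lb.g g10 (@Lb.g g11 (@Lb.r r276 (@Lb.r r2587 (@Lb.r r405 (@Lb.r r342 (@Lb.r r2724 (@Lb.d (nat_lit 521) (nat_lit 2) (nat_lit 425) (@Lb.fm (nat_lit 9) t148))))))))))))
noncomputable def l25980 : Lb := (@Lb.r r82 (@Lb.d (nat_lit 34) (nat_lit 418) (nat_lit 0) (@Lb.g g8 (@Lb.g g9 (@Lb.r r663 (@Lb.r r582 (@Lb.r r408 (@Lb.d (nat_lit 393) (nat_lit 153) (nat_lit 153) (@Lb.fm (nat_lit 3) t573)))))))))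
noncomputable def l25981 : Lb := (@Lb.d (nat_lit 0) (nat_lit 32) (nat_lit 136) (@Lb.g g11 (@Lb.r r409 (@Lb.r r2458 (@Lb.r r2407 (@Lb.r r24 (@Lb.d (nat_lit 41) (nat_lit 128) (nat_lit 422) (@Lb.t (@Lb.fp (nat_lit 3) t1639)))))))))
noncomputable def l25982 : Lb := (@Lb.d (nat_lit 0) (nat_lit 0) (nat_lit 130) (@Lb.g g10 (@Lb.g g11 (@Lb.r r419 (@Lb.r r409 (@Lb.r r2458 (@Lb.r r24 (@Lb.d (nat_lit 98) (nat_lit 0) (nat_lit 297) (@Lb.fm (nat_lit 3) t2728)))))))))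
noncomputable def l25983 : Lb := (@Lb.d (nat_lit 294) (nat_lit 106) (nat_lit 614) (@Lb.r r2133 (@Lb.r r323 (@Lb.r r682 (@Lb.g g7 (@Lb.g g6 (@Lb.g g5 (@Lb.g g4 (@Lb.d (nat_lit 1) (nat_lit 17) (nat_lit 65) (@Lb.fm (nat_lit 9) t309))))))))))
noncomputable def l25984 : Lb := (@Lb.d (nat_lit 0) (nat_lit 544) (nat_lit 72) (@Lb.g g11 (@Lb.r r409 (@Lb.r r2458 (@Lb.r r2407 (@Lb.r r24 (@Lb.d (nat_lit 32) (nat_lit 0) (nat_lit 422) (@Lb.t (@Lb.fp (nat_lit 3) t1261)))))))))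
noncomputable def l25985 : Lb := (@Lb.r r82 (@Lb.d (nat_lit 8) (nat_lit 10) (nat_lit 0) (@Lb.g g9 (@Lb.r r1368 (@Lb.r r2727 (@Lb.r r1426 (@Lb.r r2649 (@Lb.d (nat_lit 601) (nat_lit 102) (nat_lit 257) (@Lb.t (@Lb.fm (nat_lit 3) t1126))))))))))
noncomputable def l25986 : Lb := (@Lb.r r82 (@Lb.d (nat_lit 0) (nat_lit 258) (nat_lit 64) (@Lb.g g9 (@Lb.g g7 (@Lb.r r386 (@Lb.r r289 (@Lb.d (nat_lit 0) (nat_lit 33) (nat_lit 138) (@Lb.fp (nat_lit 3) t1400))))))))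
noncomputable def l25987 : Lb := (@Lb.r r82 (@Lb.d (nat_lit 0) (nat_lit 528) (nat_lit 132) (@Lb.g g9 (@Lb.g g7 (@Lb.r r386 (@Lb.r r97 (@Lb.d (nat_lit 0) (nat_lit 2) (nat_lit 64) (@Lb.fp (nat_lit 3) t1219))))))))
noncomputable def l25988 : Lb := (@Lb.d (nat_lit 6) (nat_lit 261) (nat_lit 5) (@Lb.g g8 (@Lb.g g9 (@Lb.g g10 (@Lb.g g11 (@Lb.r r2705 (@Lb.r r1687 (@Lb.r r2404 (@Lb.r r1610 (@Lb.d (nat_lit 610) (nat_lit 85) (nat_lit 136) (@Lb.fm (nat_lit 9) t50)))))))))))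
noncomputable def l25989 : Lb := (@Lb.d (nat_lit 6) (nat_lit 517) (nat_lit 5) (@Lb.g g8 (@Lb.g g9 (@Lb.g g10 (@Lb.g g11 (@Lb.r r2705 (@Lb.r r1687 (@Lb.r r2404 (@Lb.r r1610 (@Lb.d (nat_lit 609) (nat_lit 85) (nat_lit 136) (@Lb.fm (nat_lit 9) t50)))))))))))
noncomputable def l25990 : Lb := (@Lb.r r82 (@Lb.d (nat_lit 2) (nat_lit 256) (nat_lit 128) (@Lb.g g8 (@Lb.g g9 (@Lb.g g11 (@Lb.r r291 (@Lb.r r1610 (@Lb.r r293 (@Lb.d (nat_lit 154) (nat_lit 137) (nat_lit 356) (@Lb.t (@Lb.fp (nat_lit 9) t162)))))))))))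
noncomputable def l25991 : Lb := (@Lb.d (nat_lit 4) (nat_lit 262) (nat_lit 0) (@Lb.g g5 (@Lb.g g11 (@Lb.r r402 (@Lb.d (nat_lit 0) (nat_lit 165) (nat_lit 394) (@Lb.fm (nat_lit 3) t652))))))
noncomputable def l25992 : Lb := (@Lb.r r323 (@Lb.d (nat_lit 128) (nat_lit 512) (nat_lit 42) (@Lb.g g8 (@Lb.g g6 (@Lb.r r615 (@Lb.r r677 (@Lb.r r1368 (@Lb.d (nat_lit 536) (nat_lit 25) (nat_lit 41) (@Lb.fm (nat_lit 3) t386)))))))))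
noncomputable def l25993 : Lb := (@Lb.d (nat_lit 8) (nat_lit 514) (nat_lit 0) (@Lb.g g9 (@Lb.g g10 (@Lb.r r2136 (@Lb.r r2197 (@Lb.d (nat_lit 533) (nat_lit 128) (nat_lit 1) (@Lb.fp (nat_lit 3) t4939)))))))
noncomputable def l25994 : Lb := (@Lb.r r323 (@Lb.d (nat_lit 4) (nat_lit 0) (nat_lit 0) (@Lb.g g8 (@Lb.g g9 (@Lb.g g10 (@Lb.r r646 (@Lb.r r328 (@Lb.r r1575 (@Lb.r r1553 (@Lb.d (nat_lit 5) (nat_lit 34) (nat_lit 128) (@Lb.t (@Lb.fp (nat_lit 9) t51))))))))))))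
noncomputable def l25995 : Lb := (@Lb.d (nat_lit 168) (nat_lit 514) (nat_lit 128) (@Lb.g g9 (@Lb.g g10 (@Lb.g g11 (@Lb.r r264 (@Lb.r r279 (@Lb.r r593 (@Lb.r r418 (@Lb.d (nat_lit 97) (nat_lit 36) (nat_lit 68) (@Lb.t (@Lb.fm (nat_lit 9) t2)))))))))))
noncomputable def l25996 : Lb := (@Lb.d (nat_lit 128) (nat_lit 10) (nat_lit 128) (@Lb.g g9 (@Lb.g g11 (@Lb.r r86 (@Lb.r r264 (@Lb.r r391 (@Lb.r r545 (@Lb.d (nat_lit 102) (nat_lit 16) (nat_lit 74) (@Lb.fm (nat_lit 3) t2)))))))))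
noncomputable def l25997 : Lb := (@Lb.d (nat_lit 9) (nat_lit 513) (nat_lit 2) (@Lb.g g8 (@Lb.g g9 (@Lb.g g10 (@Lb.g g11 (@Lb.r r683 (@Lb.r r676 (@Lb.r r166 (@Lb.r r145 (@Lb.d (nat_lit 5) (nat_lit 6) (nat_lit 136) (@Lb.fp (nat_lit 9) t51)))))))))))
noncomputable def l25998 : Lb := (@Lb.d (nat_lit 2) (nat_lit 512) (nat_lit 133) (@Lb.g g8 (@Lb.g g10 (@Lb.g g7 (@Lb.r r2698 (@Lb.r r1433 (@Lb.r r2436 (@Lb.d (nat_lit 545) (nat_lit 0) (nat_lit 354) (@Lb.t (@Lb.fm (nat_lit 9) t1741))))))))))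
noncomputable def l25999 : Lb := (@Lb.d (nat_lit 9) (nat_lit 37) (nat_lit 128) (@Lb.g g8 (@Lb.g g9 (@Lb.g g10 (@Lb.g g11 (@Lb.r r1706 (@Lb.r r168 (@Lb.r r1577 (@Lb.r r1315 (@Lb.r r2084 (@Lb.d (nat_lit 581) (nat_lit 64) (nat_lit 74) (@Lb.fm (nat_lit 9) t125))))))))))))
noncomputable def l26000 : Lb := (@Lb.d (nat_lit 26) (nat_lit 262) (nat_lit 1) (@Lb.g g8 (@Lb.g g9 (@Lb.g g10 (@Lb.g g11 (@Lb.r r1706 (@Lb.r r1419 (@Lb.r r2661 (@Lb.r r1412 (@Lb.d (nat_lit 361) (nat_lit 66) (nat_lit 426) (@Lb.fp (nat_lit 9) t868)))))))))))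
noncomputable def l26001 : Lb := (@Lb.d (nat_lit 2) (nat_lit 2) (nat_lit 130) (@Lb.g g8 (@Lb.g g9 (@Lb.g g10 (@Lb.g g11 (@Lb.r r2122 (@Lb.r r344 (@Lb.r r549 (@Lb.r r295 (@Lb.r r516 (@Lb.d (nat_lit 10) (nat_lit 72) (nat_lit 386) (@Lb.fp (nat_lit 9) t334))))))))))))
noncomputable def l26002 : Lb := (@Lb.r r70 (@Lb.d (nat_lit 32) (nat_lit 258) (nat_lit 0) (@Lb.g g8 (@Lb.g g9 (@Lb.r r1619 (@Lb.r r2146 (@Lb.r r1129 (@Lb.r r1128 (@Lb.d (nat_lit 41) (nat_lit 136) (nat_lit 2) (@Lb.fp (nat_lit 3) t594))))))))))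
noncomputable def l26003 : Lb := (@Lb.r r1287 (@Lb.r r1094 (@Lb.r r1045 (@Lb.r r8 (@Lb.d (nat_lit 642) (nat_lit 0) (nat_lit 384) (@Lb.fm (nat_lit 1) t284))))))
noncomputable def l26004 : Lb := (@Lb.d (nat_lit 65) (nat_lit 388) (nat_lit 408) (@Lb.r r609 (@Lb.r r2659 (@Lb.r r1350 (@Lb.r r132 (@Lb.g g7 (@Lb.g g6 (@Lb.d (nat_lit 16) (nat_lit 0) (nat_lit 65) (@Lb.fm (nat_lit 3) t898)))))))))
noncomputable def l26005 : Lb := (@Lb.d (nat_lit 0) (nat_lit 8) (nat_lit 128) (@Lb.g g10 (@Lb.g g11 (@Lb.r r1361 (@Lb.r r2727 (@Lb.r r1368 (@Lb.r r2646 (@Lb.d (nat_lit 664) (nat_lit 164) (nat_lit 394) (@Lb.fm (nat_lit 3) t334)))))))))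
noncomputable def l26006 : Lb := (@Lb.d (nat_lit 26) (nat_lit 257) (nat_lit 128) (@Lb.g g8 (@Lb.g g9 (@Lb.g g10 (@Lb.g g11 (@Lb.r r603 (@Lb.r r1681 (@Lb.r r1170 (@Lb.r r1320 (@Lb.d (nat_lit 400) (nat_lit 97) (nat_lit 346) (@Lb.fm (nat_lit 9) t74)))))))))))
noncomputable def l26007 : Lb := (@Lb.d (nat_lit 98) (nat_lit 256) (nat_lit 2) (@Lb.r r24 (@Lb.r r85 (@Lb.r r418 (@Lb.g g11 (@Lb.g g6 (@Lb.g g5 (@Lb.d (nat_lit 0) (nat_lit 4) (nat_lit 129) (@Lb.t (@Lb.fm (nat_lit 9) t594))))))))))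
noncomputable def l26008 : Lb := (@Lb.d (nat_lit 9) (nat_lit 640) (nat_lit 130) (@Lb.g g8 (@Lb.g g5 (@Lb.g g10 (@Lb.g g11 (@Lb.r r1435 (@Lb.r r1114 (@Lb.r r2068 (@Lb.d (nat_lit 536) (nat_lit 0) (nat_lit 152) (@Lb.fm (nat_lit 9) t284))))))))))
noncomputable def l26009 : Lb := (@Lb.d (nat_lit 256) (nat_lit 389) (nat_lit 534) (@Lb.r r21 (@Lb.r r2152 (@Lb.r r1410 (@Lb.g g11 (@Lb.g g6 (@Lb.g g5 (@Lb.g g4 (@Lb.d (nat_lit 32) (nat_lit 1) (nat_lit 128) (@Lb.fm (nat_lit 9) t284))))))))))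
noncomputable def l26010 : Lb := (@Lb.d (nat_lit 261) (nat_lit 646) (nat_lit 534) (@Lb.r r21 (@Lb.r r2152 (@Lb.r r1410 (@Lb.g g11 (@Lb.g g6 (@Lb.g g5 (@Lb.g g4 (@Lb.d (nat_lit 37) (nat_lit 2) (nat_lit 128) (@Lb.fm (nat_lit 9) t284))))))))))
noncomputable def l26011 : Lb := (@Lb.d (nat_lit 0) (nat_lit 264) (nat_lit 128) (@Lb.g g10 (@Lb.g g11 (@Lb.r r1361 (@Lb.r r2727 (@Lb.r r1368 (@Lb.r r2646 (@Lb.d (nat_lit 666) (nat_lit 164) (nat_lit 394) (@Lb.fm (nat_lit 3) t334)))))))))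
noncomputable def l26012 : Lb := (@Lb.d (nat_lit 16) (nat_lit 0) (nat_lit 2) (@Lb.g g6 (@Lb.r r324 (@Lb.r r411 (@Lb.r r609 (@Lb.r r36 (@Lb.d (nat_lit 10) (nat_lit 64) (nat_lit 17) (@Lb.t (@Lb.fp (nat_lit 3) t334)))))))))
noncomputable def l26013 : Lb := (@Lb.d (nat_lit 261) (nat_lit 646) (nat_lit 534) (@Lb.r r21 (@Lb.r r2152 (@Lb.r r1410 (@Lb.g g11 (@Lb.g g6 (@Lb.g g5 (@Lb.g g4 (@Lb.d (nat_lit 32) (nat_lit 1) (nat_lit 5) (@Lb.fm (nat_lit 9) t284))))))))))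
noncomputable def l26014 : Lb := (@Lb.d (nat_lit 10) (nat_lit 578) (nat_lit 0) (@Lb.r r101 (@Lb.r r402 (@Lb.r r579 (@Lb.g g11 (@Lb.g g6 (@Lb.g g9 (@Lb.t (@Lb.fm (nat_lit 9) t98)))))))))
noncomputable def l26015 : Lb := (@Lb.d (nat_lit 144) (nat_lit 256) (nat_lit 130) (@Lb.g g6 (@Lb.g g11 (@Lb.r r264 (@Lb.r r279 (@Lb.r r609 (@Lb.d (nat_lit 26) (nat_lit 10) (nat_lit 16) (@Lb.fp (nat_lit 3) t334))))))))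
noncomputable def l26016 : Lb := (@Lb.d (nat_lit 288) (nat_lit 0) (nat_lit 169) (@Lb.r r386 (@Lb.r r1555 (@Lb.r r341 (@Lb.g g6 (@Lb.g g5 (@Lb.g g4 (@Lb.d (nat_lit 513) (nat_lit 1) (nat_lit 1) (@Lb.r r267 (@Lb.t (@Lb.fp (nat_lit 9) t841)))))))))))
noncomputable def l26017 : Lb := (@Lb.r r68 (@Lb.r r323 (@Lb.d (nat_lit 0) (nat_lit 514) (nat_lit 2) (@Lb.g g9 (@Lb.g g10 (@Lb.r r1685 (@Lb.r r1559 (@Lb.r r2312 (@Lb.d (nat_lit 34) (nat_lit 5) (nat_lit 162) (@Lb.fm (nat_lit 3) t4609))))))))))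
noncomputable def l26018 : Lb := (@Lb.d (nat_lit 4) (nat_lit 266) (nat_lit 65) (@Lb.g g8 (@Lb.g g9 (@Lb.g g10 (@Lb.g g7 (@Lb.r r2466 (@Lb.r r292 (@Lb.r r405 (@Lb.r r2084 (@Lb.d (nat_lit 608) (nat_lit 0) (nat_lit 98) (@Lb.fp (nat_lit 9) t4940)))))))))))
noncomputable def l26019 : Lb := (@Lb.d (nat_lit 577) (nat_lit 266) (nat_lit 578) (@Lb.r r2311 (@Lb.g g9 (@Lb.t (@Lb.fp (nat_lit 3) t4941)))))
noncomputable def l26020 : Lb := (@Lb.d (nat_lit 5) (nat_lit 33) (nat_lit 130) (@Lb.g g4 (@Lb.g g9 (@Lb.g g10 (@Lb.g g11 (@Lb.r r675 (@Lb.r r2410 (@Lb.r r537 (@Lb.d (nat_lit 298) (nat_lit 73) (nat_lit 149) (@Lb.fp (nat_lit 9) t4942))))))))))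
noncomputable def l26021 : Lb := (@Lb.r r24 (@Lb.d (nat_lit 1) (nat_lit 640) (nat_lit 0) (@Lb.fm (nat_lit 1) t2)))
noncomputable def l26022 : Lb := (@Lb.d (nat_lit 0) (nat_lit 266) (nat_lit 65) (@Lb.g g9 (@Lb.g g10 (@Lb.g g7 (@Lb.r r2470 (@Lb.r r1624 (@Lb.r r2341 (@Lb.d (nat_lit 584) (nat_lit 98) (nat_lit 84) (@Lb.t (@Lb.fm (nat_lit 9) t4940))))))))))
noncomputable def l26023 : Lb := (@Lb.r r70 (@Lb.d (nat_lit 2) (nat_lit 514) (nat_lit 128) (@Lb.g g8 (@Lb.g g9 (@Lb.g g11 (@Lb.r r343 (@Lb.r r2726 (@Lb.r r97 (@Lb.r r392 (@Lb.d (nat_lit 617) (nat_lit 22) (nat_lit 601) (@Lb.t (@Lb.fp (nat_lit 9) t4943))))))))))))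
noncomputable def l26024 : Lb := (@Lb.d (nat_lit 4) (nat_lit 290) (nat_lit 130) (@Lb.g g8 (@Lb.g g9 (@Lb.g g10 (@Lb.g g11 (@Lb.r r387 (@Lb.r r1561 (@Lb.r r1624 (@Lb.r r2438 (@Lb.d (nat_lit 342) (nat_lit 8) (nat_lit 424) (@Lb.fp (nat_lit 9) t2470)))))))))))
noncomputable def l26025 : Lb := (@Lb.d (nat_lit 2) (nat_lit 514) (nat_lit 2) (@Lb.g g8 (@Lb.g g9 (@Lb.g g10 (@Lb.r r2666 (@Lb.r r579 (@Lb.r r25 (@Lb.r r24 (@Lb.d (nat_lit 9) (nat_lit 161) (nat_lit 586) (@Lb.t (@Lb.fm (nat_lit 9) t51)))))))))))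
noncomputable def l26026 : Lb := (@Lb.d (nat_lit 4) (nat_lit 2) (nat_lit 130) (@Lb.g g8 (@Lb.g g9 (@Lb.g g10 (@Lb.g g11 (@Lb.r r648 (@Lb.r r539 (@Lb.r r405 (@Lb.r r2134 (@Lb.r r1188 (@Lb.d (nat_lit 552) (nat_lit 2) (nat_lit 601) (@Lb.fp (nat_lit 9) t1025))))))))))))
noncomputable def l26027 : Lb := (@Lb.d (nat_lit 662) (nat_lit 258) (nat_lit 513) (@Lb.r r2635 (@Lb.r r2628 (@Lb.r r1370 (@Lb.g g7 (@Lb.g g6 (@Lb.g g5 (@Lb.d (nat_lit 64) (nat_lit 129) (nat_lit 65) (@Lb.t (@Lb.fm (nat_lit 9) t242))))))))))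
noncomputable def l26028 : Lb := (@Lb.d (nat_lit 16) (nat_lit 258) (nat_lit 0) (@Lb.g g8 (@Lb.g g9 (@Lb.g g10 (@Lb.g g7 (@Lb.r r1410 (@Lb.r r1640 (@Lb.r r25 (@Lb.d (nat_lit 522) (nat_lit 153) (nat_lit 297) (@Lb.fm (nat_lit 9) t42))))))))))
noncomputable def l26029 : Lb := (@Lb.d (nat_lit 10) (nat_lit 0) (nat_lit 130) (@Lb.g g8 (@Lb.g g10 (@Lb.g g11 (@Lb.r r419 (@Lb.r r386 (@Lb.r r101 (@Lb.r r24 (@Lb.d (nat_lit 81) (nat_lit 0) (nat_lit 8) (@Lb.t (@Lb.fp (nat_lit 9) t263)))))))))))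
noncomputable def l26030 : Lb := (@Lb.d (nat_lit 9) (nat_lit 520) (nat_lit 73) (@Lb.g g8 (@Lb.g g9 (@Lb.g g10 (@Lb.g g11 (@Lb.r r643 (@Lb.r r297 (@Lb.r r360 (@Lb.r r582 (@Lb.r r132 (@Lb.d (nat_lit 128) (nat_lit 10) (nat_lit 73) (@Lb.fm (nat_lit 9) t98))))))))))))
noncomputable def l26031 : Lb := (@Lb.d (nat_lit 136) (nat_lit 6) (nat_lit 5) (@Lb.g g8 (@Lb.g g9 (@Lb.g g10 (@Lb.g g11 (@Lb.r r683 (@Lb.r r618 (@Lb.r r1572 (@Lb.r r37 (@Lb.d (nat_lit 297) (nat_lit 97) (nat_lit 673) (@Lb.fp (nat_lit 9) t2964)))))))))))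
noncomputable def l26032 : Lb := (@Lb.d (nat_lit 129) (nat_lit 260) (nat_lit 5) (@Lb.g g8 (@Lb.g g9 (@Lb.g g10 (@Lb.g g11 (@Lb.r r683 (@Lb.r r618 (@Lb.r r1572 (@Lb.r r37 (@Lb.d (nat_lit 290) (nat_lit 98) (nat_lit 673) (@Lb.fp (nat_lit 9) t197)))))))))))
noncomputable def l26033 : Lb := (@Lb.d (nat_lit 10) (nat_lit 265) (nat_lit 128) (@Lb.r r402 (@Lb.r r101 (@Lb.r r24 (@Lb.g g11 (@Lb.g g9 (@Lb.fp (nat_lit 3) t263)))))))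
noncomputable def l26034 : Lb := (@Lb.r r402 (@Lb.r r101 (@Lb.r r24 (@Lb.d (nat_lit 65) (nat_lit 10) (nat_lit 137) (@Lb.fm (nat_lit 1) t556)))))
noncomputable def l26035 : Lb := (@Lb.d (nat_lit 26) (nat_lit 40) (nat_lit 136) (@Lb.g g8 (@Lb.g g10 (@Lb.g g11 (@Lb.r r2129 (@Lb.r r1190 (@Lb.r r324 (@Lb.r r2571 (@Lb.d (nat_lit 320) (nat_lit 16) (nat_lit 578) (@Lb.t (@Lb.fm (nat_lit 9) t1356)))))))))))
noncomputable def l26036 : Lb := (@Lb.d (nat_lit 34) (nat_lit 2) (nat_lit 128) (@Lb.g g8 (@Lb.g g9 (@Lb.g g11 (@Lb.r r406 (@Lb.r r343 (@Lb.r r97 (@Lb.r r596 (@Lb.d (nat_lit 666) (nat_lit 36) (nat_lit 18) (@Lb.t (@Lb.fm (nat_lit 9) t61)))))))))))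
noncomputable def l26037 : Lb := (@Lb.d (nat_lit 2) (nat_lit 2) (nat_lit 130) (@Lb.g g8 (@Lb.g g9 (@Lb.g g10 (@Lb.g g11 (@Lb.r r427 (@Lb.r r386 (@Lb.r r97 (@Lb.r r24 (@Lb.d (nat_lit 610) (nat_lit 0) (nat_lit 153) (@Lb.fm (nat_lit 9) t61)))))))))))
noncomputable def l26038 : Lb := (@Lb.d (nat_lit 82) (nat_lit 529) (nat_lit 640) (@Lb.r r1044 (@Lb.r r281 (@Lb.r r20 (@Lb.r r2659 (@Lb.g g7 (@Lb.g g10 (@Lb.g g5 (@Lb.g g4 (@Lb.d (nat_lit 97) (nat_lit 6) (nat_lit 66) (@Lb.fp (nat_lit 9) t445)))))))))))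
noncomputable def l26039 : Lb := (@Lb.d (nat_lit 0) (nat_lit 256) (nat_lit 132) (@Lb.g g10 (@Lb.g g11 (@Lb.r r2691 (@Lb.r r2721 (@Lb.r r1698 (@Lb.d (nat_lit 0) (nat_lit 145) (nat_lit 137) (@Lb.fp (nat_lit 3) t4944))))))))
noncomputable def l26040 : Lb := (@Lb.r r1307 (@Lb.r r2145 (@Lb.r r360 (@Lb.r r150 (@Lb.d (nat_lit 273) (nat_lit 0) (nat_lit 0) (@Lb.fm (nat_lit 1) t2199))))))
noncomputable def l26041 : Lb := (@Lb.d (nat_lit 4) (nat_lit 512) (nat_lit 0) (@Lb.g g8 (@Lb.g g9 (@Lb.g g11 (@Lb.r r516 (@Lb.r r343 (@Lb.r r2178 (@Lb.r r1553 (@Lb.r r2084 (@Lb.d (nat_lit 0) (nat_lit 10) (nat_lit 665) (@Lb.t (@Lb.fp (nat_lit 9) t296))))))))))))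
noncomputable def l26042 : Lb := (@Lb.d (nat_lit 0) (nat_lit 38) (nat_lit 0) (@Lb.g g9 (@Lb.r r1158 (@Lb.r r2404 (@Lb.r r1563 (@Lb.d (nat_lit 64) (nat_lit 2) (nat_lit 69) (@Lb.t (@Lb.fp (nat_lit 3) t521))))))))
noncomputable def l26043 : Lb := (@Lb.d (nat_lit 2) (nat_lit 294) (nat_lit 0) (@Lb.g g8 (@Lb.g g9 (@Lb.r r1162 (@Lb.r r1688 (@Lb.r r1563 (@Lb.d (nat_lit 64) (nat_lit 2) (nat_lit 69) (@Lb.fp (nat_lit 3) t521))))))))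
noncomputable def l26044 : Lb := (@Lb.d (nat_lit 0) (nat_lit 8) (nat_lit 9) (@Lb.g g10 (@Lb.r r609 (@Lb.r r363 (@Lb.r r356 (@Lb.r r154 (@Lb.d (nat_lit 256) (nat_lit 10) (nat_lit 17) (@Lb.t (@Lb.fp (nat_lit 3) t127)))))))))
noncomputable def l26045 : Lb := (@Lb.r r386 (@Lb.r r2371 (@Lb.r r578 (@Lb.d (nat_lit 0) (nat_lit 512) (nat_lit 69) (@Lb.fm (nat_lit 1) t2)))))
noncomputable def l26046 : Lb := (@Lb.r r82 (@Lb.d (nat_lit 2) (nat_lit 16) (nat_lit 0) (@Lb.g g8 (@Lb.g g9 (@Lb.g g11 (@Lb.r r299 (@Lb.r r424 (@Lb.r r106 (@Lb.r r25 (@Lb.d (nat_lit 9) (nat_lit 0) (nat_lit 137) (@Lb.t (@Lb.fp (nat_lit 9) t594))))))))))))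
noncomputable def l26047 : Lb := (@Lb.d (nat_lit 674) (nat_lit 598) (nat_lit 26) (@Lb.r r2696 (@Lb.r r2698 (@Lb.r r2731 (@Lb.r r1625 (@Lb.g g7 (@Lb.g g6 (@Lb.g g4 (@Lb.d (nat_lit 10) (nat_lit 4) (nat_lit 66) (@Lb.t (@Lb.fm (nat_lit 9) t4887)))))))))))
noncomputable def l26048 : Lb := (@Lb.d (nat_lit 32) (nat_lit 0) (nat_lit 2) (@Lb.g g9 (@Lb.g g10 (@Lb.r r2579 (@Lb.r r2341 (@Lb.r r1352 (@Lb.r r2710 (@Lb.d (nat_lit 388) (nat_lit 160) (nat_lit 64) (@Lb.fm (nat_lit 3) t2911)))))))))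
noncomputable def l26049 : Lb := (@Lb.g g8 (@Lb.r r386 (@Lb.r r2371 (@Lb.r r578 (@Lb.r r2341 (@Lb.r r24 (@Lb.d (nat_lit 577) (nat_lit 256) (nat_lit 0) (@Lb.t (@Lb.fm (nat_lit 3) t1644)))))))))
noncomputable def l26050 : Lb := (@Lb.d (nat_lit 32) (nat_lit 256) (nat_lit 2) (@Lb.g g9 (@Lb.g g10 (@Lb.r r2579 (@Lb.r r2341 (@Lb.r r1352 (@Lb.r r2710 (@Lb.d (nat_lit 388) (nat_lit 170) (nat_lit 66) (@Lb.fm (nat_lit 3) t2911)))))))))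
noncomputable def l26051 : Lb := (@Lb.d (nat_lit 2) (nat_lit 258) (nat_lit 66) (@Lb.g g8 (@Lb.g g9 (@Lb.g g10 (@Lb.g g7 (@Lb.r r1442 (@Lb.r r145 (@Lb.r r2120 (@Lb.d (nat_lit 290) (nat_lit 164) (nat_lit 288) (@Lb.fm (nat_lit 9) t940))))))))))
noncomputable def l26052 : Lb := (@Lb.d (nat_lit 32) (nat_lit 0) (nat_lit 2) (@Lb.g g9 (@Lb.g g10 (@Lb.g g7 (@Lb.r r72 (@Lb.r r598 (@Lb.r r289 (@Lb.d (nat_lit 154) (nat_lit 73) (nat_lit 258) (@Lb.t (@Lb.fp (nat_lit 9) t1190))))))))))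
noncomputable def l26053 : Lb := (@Lb.d (nat_lit 32) (nat_lit 516) (nat_lit 42) (@Lb.g g10 (@Lb.r r2648 (@Lb.r r2315 (@Lb.r r289 (@Lb.d (nat_lit 386) (nat_lit 66) (nat_lit 258) (@Lb.t (@Lb.fp (nat_lit 3) t1190))))))))
noncomputable def l26054 : Lb := (@Lb.g g6 (@Lb.g g11 (@Lb.r r1346 (@Lb.r r387 (@Lb.d (nat_lit 0) (nat_lit 256) (nat_lit 594) (@Lb.fp (nat_lit 3) t2))))))
noncomputable def l26055 : Lb := (@Lb.r r1158 (@Lb.r r2136 (@Lb.r r2341 (@Lb.r r2579 (@Lb.fp (nat_lit 1) t2604)))))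
noncomputable def l26056 : Lb := (@Lb.d (nat_lit 0) (nat_lit 514) (nat_lit 130) (@Lb.g g8 (@Lb.g g9 (@Lb.g g10 (@Lb.g g11 (@Lb.r r2691 (@Lb.r r297 (@Lb.r r328 (@Lb.r r614 (@Lb.r r2180 (@Lb.d (nat_lit 645) (nat_lit 40) (nat_lit 329) (@Lb.fm (nat_lit 9) t259))))))))))))
noncomputable def l26057 : Lb := (@Lb.d (nat_lit 0) (nat_lit 516) (nat_lit 128) (@Lb.g g8 (@Lb.g g9 (@Lb.g g10 (@Lb.g g11 (@Lb.r r2667 (@Lb.r r162 (@Lb.r r660 (@Lb.r r425 (@Lb.r r2084 (@Lb.d (nat_lit 153) (nat_lit 73) (nat_lit 418) (@Lb.fm (nat_lit 9) t510))))))))))))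
noncomputable def l26058 : Lb := (@Lb.r r323 (@Lb.d (nat_lit 8) (nat_lit 290) (nat_lit 18) (@Lb.g g9 (@Lb.g g10 (@Lb.r r603 (@Lb.r r600 (@Lb.r r341 (@Lb.d (nat_lit 86) (nat_lit 24) (nat_lit 421) (@Lb.fm (nat_lit 3) t296)))))))))
noncomputable def l26059 : Lb := (@Lb.d (nat_lit 0) (nat_lit 258) (nat_lit 73) (@Lb.g g8 (@Lb.g g9 (@Lb.g g10 (@Lb.g g11 (@Lb.r r2691 (@Lb.r r297 (@Lb.r r328 (@Lb.r r614 (@Lb.r r2180 (@Lb.d (nat_lit 640) (nat_lit 42) (nat_lit 329) (@Lb.fm (nat_lit 9) t259))))))))))))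
noncomputable def l26060 : Lb := (@Lb.d (nat_lit 358) (nat_lit 264) (nat_lit 406) (@Lb.r r2645 (@Lb.r r322 (@Lb.r r2391 (@Lb.g g7 (@Lb.g g6 (@Lb.g g5 (@Lb.g g4 (@Lb.d (nat_lit 1) (nat_lit 24) (nat_lit 128) (@Lb.fp (nat_lit 9) t1256))))))))))
noncomputable def l26061 : Lb := (@Lb.r r82 (@Lb.d (nat_lit 2) (nat_lit 514) (nat_lit 64) (@Lb.g g8 (@Lb.g g9 (@Lb.g g7 (@Lb.r r1441 (@Lb.r r98 (@Lb.r r2120 (@Lb.d (nat_lit 290) (nat_lit 162) (nat_lit 290) (@Lb.t (@Lb.fp (nat_lit 9) t4888)))))))))))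
noncomputable def l26062 : Lb := (@Lb.d (nat_lit 8) (nat_lit 258) (nat_lit 0) (@Lb.g g9 (@Lb.r r386 (@Lb.r r2371 (@Lb.r r578 (@Lb.r r24 (@Lb.d (nat_lit 0) (nat_lit 2) (nat_lit 0) (@Lb.t (@Lb.fp (nat_lit 3) t2)))))))))
noncomputable def l26063 : Lb := (@Lb.d (nat_lit 8) (nat_lit 2) (nat_lit 6) (@Lb.g g9 (@Lb.g g10 (@Lb.g g11 (@Lb.r r1666 (@Lb.r r387 (@Lb.r r24 (@Lb.d (nat_lit 0) (nat_lit 2) (nat_lit 617) (@Lb.t (@Lb.fm (nat_lit 9) t2))))))))))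
noncomputable def l26064 : Lb := (@Lb.d (nat_lit 9) (nat_lit 514) (nat_lit 130) (@Lb.g g8 (@Lb.g g9 (@Lb.g g10 (@Lb.g g11 (@Lb.r r152 (@Lb.r r1557 (@Lb.r r2327 (@Lb.r r2666 (@Lb.r r1572 (@Lb.d (nat_lit 545) (nat_lit 90) (nat_lit 257) (@Lb.fm (nat_lit 9) t100))))))))))))
noncomputable def l26065 : Lb := (@Lb.r r323 (@Lb.d (nat_lit 1) (nat_lit 258) (nat_lit 1) (@Lb.g g8 (@Lb.g g9 (@Lb.g g6 (@Lb.r r579 (@Lb.r r100 (@Lb.r r21 (@Lb.r r36 (@Lb.d (nat_lit 16) (nat_lit 10) (nat_lit 6) (@Lb.t (@Lb.fm (nat_lit 9) t285))))))))))))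
noncomputable def l26066 : Lb := (@Lb.r r322 (@Lb.d (nat_lit 2) (nat_lit 514) (nat_lit 576) (@Lb.g g8 (@Lb.g g9 (@Lb.g g7 (@Lb.r r424 (@Lb.r r106 (@Lb.r r97 (@Lb.d (nat_lit 320) (nat_lit 105) (nat_lit 322) (@Lb.t (@Lb.fp (nat_lit 9) t259)))))))))))
noncomputable def l26067 : Lb := (@Lb.g g4 (@Lb.r r2579 (@Lb.r r72 (@Lb.r r598 (@Lb.r r289 (@Lb.r r2180 (@Lb.t (@Lb.fp (nat_lit 3) t51))))))))
noncomputable def l26068 : Lb := (@Lb.r r70 (@Lb.d (nat_lit 132) (nat_lit 261) (nat_lit 64) (@Lb.g g8 (@Lb.g g5 (@Lb.g g11 (@Lb.r r1643 (@Lb.r r1626 (@Lb.r r580 (@Lb.d (nat_lit 546) (nat_lit 1) (nat_lit 680) (@Lb.t (@Lb.fm (nat_lit 9) t50)))))))))))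
noncomputable def l26069 : Lb := (@Lb.d (nat_lit 0) (nat_lit 2) (nat_lit 128) (@Lb.g g9 (@Lb.g g11 (@Lb.r r529 (@Lb.r r663 (@Lb.r r328 (@Lb.r r134 (@Lb.d (nat_lit 9) (nat_lit 2) (nat_lit 2) (@Lb.fp (nat_lit 3) t61)))))))))
noncomputable def l26070 : Lb := (@Lb.d (nat_lit 0) (nat_lit 521) (nat_lit 130) (@Lb.g g9 (@Lb.g g10 (@Lb.g g11 (@Lb.r r1634 (@Lb.r r2657 (@Lb.d (nat_lit 0) (nat_lit 100) (nat_lit 394) (@Lb.t (@Lb.fp (nat_lit 9) t2746)))))))))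
noncomputable def l26071 : Lb := (@Lb.d (nat_lit 0) (nat_lit 265) (nat_lit 66) (@Lb.g g9 (@Lb.g g10 (@Lb.g g11 (@Lb.r r2723 (@Lb.r r1634 (@Lb.r r2657 (@Lb.d (nat_lit 0) (nat_lit 105) (nat_lit 169) (@Lb.t (@Lb.fm (nat_lit 9) t4945))))))))))
noncomputable def l26072 : Lb := (@Lb.d (nat_lit 0) (nat_lit 522) (nat_lit 130) (@Lb.g g9 (@Lb.g g10 (@Lb.g g11 (@Lb.r r609 (@Lb.r r1106 (@Lb.r r1169 (@Lb.d (nat_lit 0) (nat_lit 90) (nat_lit 682) (@Lb.t (@Lb.fp (nat_lit 9) t2746))))))))))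
noncomputable def l26073 : Lb := (@Lb.d (nat_lit 0) (nat_lit 256) (nat_lit 512) (@Lb.r r1297 (@Lb.g g7 (@Lb.g g5 (@Lb.fm (nat_lit 3) t618)))))
noncomputable def l26074 : Lb := (@Lb.d (nat_lit 2) (nat_lit 289) (nat_lit 66) (@Lb.g g8 (@Lb.g g9 (@Lb.g g10 (@Lb.g g11 (@Lb.r r2666 (@Lb.r r2657 (@Lb.r r1315 (@Lb.d (nat_lit 521) (nat_lit 166) (nat_lit 518) (@Lb.fm (nat_lit 9) t495))))))))))
noncomputable def l26075 : Lb := (@Lb.d (nat_lit 2) (nat_lit 272) (nat_lit 2) (@Lb.g g8 (@Lb.g g9 (@Lb.g g10 (@Lb.g g11 (@Lb.r r2666 (@Lb.r r2657 (@Lb.r r1707 (@Lb.d (nat_lit 592) (nat_lit 154) (nat_lit 644) (@Lb.fp (nat_lit 9) t495))))))))))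
noncomputable def l26076 : Lb := (@Lb.d (nat_lit 2) (nat_lit 258) (nat_lit 66) (@Lb.g g8 (@Lb.g g9 (@Lb.g g10 (@Lb.g g11 (@Lb.r r427 (@Lb.r r386 (@Lb.r r97 (@Lb.r r24 (@Lb.d (nat_lit 74) (nat_lit 161) (nat_lit 384) (@Lb.fm (nat_lit 9) t139)))))))))))
noncomputable def l26077 : Lb := (@Lb.d (nat_lit 8) (nat_lit 265) (nat_lit 2) (@Lb.g g9 (@Lb.g g10 (@Lb.r r2136 (@Lb.r r2197 (@Lb.d (nat_lit 533) (nat_lit 138) (nat_lit 0) (@Lb.fp (nat_lit 3) t1118)))))))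
noncomputable def l26078 : Lb := (@Lb.d (nat_lit 2) (nat_lit 514) (nat_lit 64) (@Lb.g g8 (@Lb.g g9 (@Lb.g g11 (@Lb.r r1323 (@Lb.r r297 (@Lb.r r2376 (@Lb.r r1638 (@Lb.d (nat_lit 0) (nat_lit 90) (nat_lit 425) (@Lb.t (@Lb.fm (nat_lit 9) t1451)))))))))))
noncomputable def l26079 : Lb := (@Lb.d (nat_lit 0) (nat_lit 512) (nat_lit 512) (@Lb.r r1297 (@Lb.g g7 (@Lb.g g9 (@Lb.fp (nat_lit 3) t618)))))
noncomputable def l26080 : Lb := (@Lb.d (nat_lit 1) (nat_lit 33) (nat_lit 66) (@Lb.g g8 (@Lb.g g9 (@Lb.g g10 (@Lb.g g11 (@Lb.r r2666 (@Lb.r r2657 (@Lb.r r1315 (@Lb.d (nat_lit 520) (nat_lit 166) (nat_lit 518) (@Lb.fm (nat_lit 9) t495))))))))))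
noncomputable def l26081 : Lb := (@Lb.r r21 (@Lb.d (nat_lit 33) (nat_lit 0) (nat_lit 72) (@Lb.g g8 (@Lb.g g10 (@Lb.g g11 (@Lb.r r2634 (@Lb.r r579 (@Lb.r r145 (@Lb.r r24 (@Lb.d (nat_lit 390) (nat_lit 97) (nat_lit 346) (@Lb.t (@Lb.fm (nat_lit 9) t4946))))))))))))
noncomputable def l26082 : Lb := (@Lb.d (nat_lit 545) (nat_lit 289) (nat_lit 65) (@Lb.g g8 (@Lb.g g9 (@Lb.g g10 (@Lb.g g11 (@Lb.r r618 (@Lb.r r2657 (@Lb.r r1315 (@Lb.d (nat_lit 265) (nat_lit 33) (nat_lit 517) (@Lb.fm (nat_lit 9) t2554))))))))))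
noncomputable def l26083 : Lb := (@Lb.d (nat_lit 2) (nat_lit 33) (nat_lit 66) (@Lb.g g8 (@Lb.g g9 (@Lb.g g10 (@Lb.g g11 (@Lb.r r2595 (@Lb.r r2442 (@Lb.r r168 (@Lb.r r41 (@Lb.r r2084 (@Lb.d (nat_lit 640) (nat_lit 41) (nat_lit 322) (@Lb.fp (nat_lit 9) t2097))))))))))))
noncomputable def l26084 : Lb := (@Lb.d (nat_lit 2) (nat_lit 2) (nat_lit 130) (@Lb.g g8 (@Lb.g g9 (@Lb.g g10 (@Lb.g g11 (@Lb.r r683 (@Lb.r r1668 (@Lb.r r1158 (@Lb.r r25 (@Lb.d (nat_lit 289) (nat_lit 64) (nat_lit 153) (@Lb.fp (nat_lit 9) t1882)))))))))))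
noncomputable def l26085 : Lb := (@Lb.d (nat_lit 8) (nat_lit 514) (nat_lit 0) (@Lb.g g9 (@Lb.r r1300 (@Lb.r r2603 (@Lb.r r2178 (@Lb.r r609 (@Lb.d (nat_lit 280) (nat_lit 85) (nat_lit 153) (@Lb.t (@Lb.fm (nat_lit 3) t2895)))))))))
noncomputable def l26086 : Lb := (@Lb.d (nat_lit 1) (nat_lit 289) (nat_lit 66) (@Lb.g g8 (@Lb.g g9 (@Lb.g g10 (@Lb.g g11 (@Lb.r r2595 (@Lb.r r2442 (@Lb.r r168 (@Lb.r r41 (@Lb.r r2084 (@Lb.d (nat_lit 640) (nat_lit 41) (nat_lit 322) (@Lb.fp (nat_lit 9) t2097))))))))))))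
noncomputable def l26087 : Lb := (@Lb.d (nat_lit 2) (nat_lit 545) (nat_lit 66) (@Lb.g g8 (@Lb.g g9 (@Lb.g g10 (@Lb.g g11 (@Lb.r r2595 (@Lb.r r2442 (@Lb.r r168 (@Lb.r r41 (@Lb.r r2084 (@Lb.d (nat_lit 640) (nat_lit 34) (nat_lit 320) (@Lb.fp (nat_lit 9) t2097))))))))))))
noncomputable def l26088 : Lb := (@Lb.d (nat_lit 678) (nat_lit 266) (nat_lit 584) (@Lb.r r2406 (@Lb.r r1176 (@Lb.r r659 (@Lb.g g7 (@Lb.g g6 (@Lb.g g9 (@Lb.g g4 (@Lb.d (nat_lit 1) (nat_lit 137) (nat_lit 133) (@Lb.fm (nat_lit 9) t4947))))))))))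
noncomputable def l26089 : Lb := (@Lb.r r2579 (@Lb.r r72 (@Lb.r r598 (@Lb.r r289 (@Lb.r r2180 (@Lb.d (nat_lit 1) (nat_lit 512) (nat_lit 0) (@Lb.fm (nat_lit 1) t51)))))))
noncomputable def l26090 : Lb := (@Lb.d (nat_lit 32) (nat_lit 33) (nat_lit 130) (@Lb.g g9 (@Lb.g g10 (@Lb.g g11 (@Lb.r r1703 (@Lb.r r1685 (@Lb.r r100 (@Lb.r r410 (@Lb.d (nat_lit 338) (nat_lit 26) (nat_lit 517) (@Lb.t (@Lb.fm (nat_lit 9) t74)))))))))))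
noncomputable def l26091 : Lb := (@Lb.d (nat_lit 2) (nat_lit 545) (nat_lit 130) (@Lb.g g8 (@Lb.g g9 (@Lb.g g10 (@Lb.g g11 (@Lb.r r1706 (@Lb.r r1704 (@Lb.r r1579 (@Lb.r r1561 (@Lb.d (nat_lit 581) (nat_lit 32) (nat_lit 586) (@Lb.fm (nat_lit 9) t144)))))))))))
noncomputable def l26092 : Lb := (@Lb.d (nat_lit 6) (nat_lit 136) (nat_lit 578) (@Lb.r r1313 (@Lb.r r2327 (@Lb.r r584 (@Lb.r r326 (@Lb.g g7 (@Lb.g g6 (@Lb.g g5 (@Lb.d (nat_lit 0) (nat_lit 1) (nat_lit 65) (@Lb.t (@Lb.fp (nat_lit 9) t728)))))))))))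
noncomputable def l26093 : Lb := (@Lb.d (nat_lit 2) (nat_lit 512) (nat_lit 0) (@Lb.g g8 (@Lb.g g5 (@Lb.g g6 (@Lb.r r24 (@Lb.d (nat_lit 10) (nat_lit 0) (nat_lit 0) (@Lb.t (@Lb.fp (nat_lit 9) t2))))))))
noncomputable def l26094 : Lb := (@Lb.d (nat_lit 16) (nat_lit 256) (nat_lit 1) (@Lb.g g10 (@Lb.r r2728 (@Lb.r r2715 (@Lb.r r357 (@Lb.r r666 (@Lb.d (nat_lit 69) (nat_lit 41) (nat_lit 148) (@Lb.t (@Lb.fp (nat_lit 3) t2888)))))))))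
noncomputable def l26095 : Lb := (@Lb.d (nat_lit 0) (nat_lit 577) (nat_lit 389) (@Lb.r r1284 (@Lb.r r322 (@Lb.r r659 (@Lb.r r578 (@Lb.g g5 (@Lb.d (nat_lit 0) (nat_lit 134) (nat_lit 0) (@Lb.t (@Lb.fp (nat_lit 3) t1754)))))))))
noncomputable def l26096 : Lb := (@Lb.r r529 (@Lb.r r659 (@Lb.r r674 (@Lb.r r1105 (@Lb.r r36 (@Lb.d (nat_lit 5) (nat_lit 257) (nat_lit 85) (@Lb.fp (nat_lit 1) t1242)))))))
noncomputable def l26097 : Lb := (@Lb.r r529 (@Lb.r r659 (@Lb.r r674 (@Lb.r r1105 (@Lb.r r36 (@Lb.d (nat_lit 0) (nat_lit 512) (nat_lit 85) (@Lb.fp (nat_lit 1) t1242)))))))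
noncomputable def l26098 : Lb := (@Lb.d (nat_lit 32) (nat_lit 0) (nat_lit 130) (@Lb.g g9 (@Lb.g g10 (@Lb.g g11 (@Lb.r r2323 (@Lb.r r1685 (@Lb.r r100 (@Lb.r r602 (@Lb.d (nat_lit 361) (nat_lit 132) (nat_lit 138) (@Lb.t (@Lb.fm (nat_lit 9) t2138)))))))))))
noncomputable def l26099 : Lb := (@Lb.d (nat_lit 538) (nat_lit 529) (nat_lit 150) (@Lb.r r386 (@Lb.r r339 (@Lb.g g7 (@Lb.g g6 (@Lb.g g5 (@Lb.g g8 (@Lb.d (nat_lit 2) (nat_lit 134) (nat_lit 66) (@Lb.fp (nat_lit 9) t4902)))))))))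
noncomputable def l26100 : Lb := (@Lb.g g10 (@Lb.r r2579 (@Lb.r r2341 (@Lb.r r2136 (@Lb.r r1158 (@Lb.t (@Lb.p (nat_lit 1) (@Lb.fp (nat_lit 3) t296))))))))
noncomputable def l26101 : Lb := (@Lb.g g4 (@Lb.r r101 (@Lb.r r402 (@Lb.d (nat_lit 96) (nat_lit 420) (nat_lit 325) (@Lb.t (@Lb.fm (nat_lit 3) t652))))))
noncomputable def l26102 : Lb := (@Lb.d (nat_lit 9) (nat_lit 521) (nat_lit 0) (@Lb.g g8 (@Lb.g g9 (@Lb.r r134 (@Lb.r r328 (@Lb.r r599 (@Lb.r r417 (@Lb.d (nat_lit 0) (nat_lit 128) (nat_lit 137) (@Lb.fm (nat_lit 3) t119)))))))))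
noncomputable def l26103 : Lb := (@Lb.d (nat_lit 2) (nat_lit 33) (nat_lit 4) (@Lb.g g8 (@Lb.g g9 (@Lb.g g10 (@Lb.g g11 (@Lb.r r683 (@Lb.r r616 (@Lb.r r86 (@Lb.r r165 (@Lb.r r20 (@Lb.d (nat_lit 41) (nat_lit 8) (nat_lit 136) (@Lb.fm (nat_lit 9) t597))))))))))))
noncomputable def l26104 : Lb := (@Lb.d (nat_lit 2) (nat_lit 657) (nat_lit 674) (@Lb.r r2635 (@Lb.r r676 (@Lb.r r150 (@Lb.g g9 (@Lb.g g4 (@Lb.d (nat_lit 17) (nat_lit 70) (nat_lit 0) (@Lb.fp (nat_lit 3) t678))))))))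
noncomputable def l26105 : Lb := (@Lb.r r81 (@Lb.d (nat_lit 10) (nat_lit 0) (nat_lit 9) (@Lb.g g8 (@Lb.g g6 (@Lb.r r545 (@Lb.r r619 (@Lb.r r612 (@Lb.d (nat_lit 132) (nat_lit 18) (nat_lit 136) (@Lb.fp (nat_lit 3) t264)))))))))
noncomputable def l26106 : Lb := (@Lb.r r323 (@Lb.d (nat_lit 2) (nat_lit 258) (nat_lit 0) (@Lb.g g8 (@Lb.g g9 (@Lb.g g10 (@Lb.r r646 (@Lb.r r328 (@Lb.r r1575 (@Lb.r r1553 (@Lb.d (nat_lit 5) (nat_lit 41) (nat_lit 4) (@Lb.t (@Lb.fp (nat_lit 9) t51))))))))))))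
noncomputable def l26107 : Lb := (@Lb.d (nat_lit 18) (nat_lit 0) (nat_lit 128) (@Lb.g g8 (@Lb.g g9 (@Lb.g g10 (@Lb.g g11 (@Lb.r r1451 (@Lb.r r677 (@Lb.r r2410 (@Lb.r r2312 (@Lb.d (nat_lit 649) (nat_lit 10) (nat_lit 662) (@Lb.fp (nat_lit 9) t1033)))))))))))
noncomputable def l26108 : Lb := (@Lb.r r82 (@Lb.d (nat_lit 6) (nat_lit 256) (nat_lit 128) (@Lb.g g8 (@Lb.g g9 (@Lb.g g11 (@Lb.r r2577 (@Lb.r r1687 (@Lb.r r578 (@Lb.r r2120 (@Lb.d (nat_lit 553) (nat_lit 2) (nat_lit 33) (@Lb.t (@Lb.fm (nat_lit 9) t1033))))))))))))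
noncomputable def l26109 : Lb := (@Lb.d (nat_lit 4) (nat_lit 292) (nat_lit 128) (@Lb.g g8 (@Lb.g g9 (@Lb.g g10 (@Lb.g g11 (@Lb.r r1706 (@Lb.r r676 (@Lb.r r551 (@Lb.r r533 (@Lb.r r1060 (@Lb.d (nat_lit 386) (nat_lit 2) (nat_lit 640) (@Lb.fp (nat_lit 9) t594))))))))))))
noncomputable def l26110 : Lb := (@Lb.d (nat_lit 2) (nat_lit 290) (nat_lit 2) (@Lb.g g8 (@Lb.g g9 (@Lb.g g10 (@Lb.r r1194 (@Lb.r r2468 (@Lb.r r1627 (@Lb.r r1445 (@Lb.d (nat_lit 146) (nat_lit 164) (nat_lit 90) (@Lb.t (@Lb.fp (nat_lit 9) t49)))))))))))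
noncomputable def l26111 : Lb := (@Lb.d (nat_lit 0) (nat_lit 0) (nat_lit 66) (@Lb.g g9 (@Lb.g g10 (@Lb.g g7 (@Lb.r r421 (@Lb.r r98 (@Lb.d (nat_lit 100) (nat_lit 22) (nat_lit 72) (@Lb.t (@Lb.fm (nat_lit 9) t1831)))))))))
noncomputable def l26112 : Lb := (@Lb.d (nat_lit 4) (nat_lit 548) (nat_lit 74) (@Lb.g g8 (@Lb.g g9 (@Lb.g g10 (@Lb.g g11 (@Lb.r r1699 (@Lb.r r2376 (@Lb.r r1158 (@Lb.r r2577 (@Lb.d (nat_lit 265) (nat_lit 165) (nat_lit 402) (@Lb.fm (nat_lit 9) t2312)))))))))))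
noncomputable def l26113 : Lb := (@Lb.d (nat_lit 390) (nat_lit 1) (nat_lit 512) (@Lb.r r2584 (@Lb.r r2178 (@Lb.r r2587 (@Lb.r r293 (@Lb.g g7 (@Lb.d (nat_lit 0) (nat_lit 0) (nat_lit 64) (@Lb.t (@Lb.fm (nat_lit 3) t820)))))))))
noncomputable def l26114 : Lb := (@Lb.d (nat_lit 2) (nat_lit 258) (nat_lit 74) (@Lb.g g8 (@Lb.g g9 (@Lb.g g10 (@Lb.g g11 (@Lb.r r1194 (@Lb.r r424 (@Lb.r r599 (@Lb.r r1425 (@Lb.r r2084 (@Lb.d (nat_lit 1) (nat_lit 164) (nat_lit 618) (@Lb.fm (nat_lit 9) t479))))))))))))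
noncomputable def l26115 : Lb := (@Lb.d (nat_lit 2) (nat_lit 34) (nat_lit 2) (@Lb.g g8 (@Lb.g g9 (@Lb.g g10 (@Lb.r r1194 (@Lb.r r2468 (@Lb.r r1627 (@Lb.r r1445 (@Lb.d (nat_lit 148) (nat_lit 165) (nat_lit 90) (@Lb.t (@Lb.fp (nat_lit 9) t49)))))))))))
noncomputable def l26116 : Lb := (@Lb.d (nat_lit 0) (nat_lit 98) (nat_lit 66) (@Lb.g g9 (@Lb.g g10 (@Lb.g g11 (@Lb.r r679 (@Lb.r r2662 (@Lb.r r1432 (@Lb.d (nat_lit 513) (nat_lit 4) (nat_lit 34) (@Lb.t (@Lb.fm (nat_lit 9) t4948))))))))))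
noncomputable def l26117 : Lb := (@Lb.d (nat_lit 2) (nat_lit 36) (nat_lit 128) (@Lb.g g8 (@Lb.g g9 (@Lb.g g10 (@Lb.g g11 (@Lb.r r1194 (@Lb.r r424 (@Lb.r r599 (@Lb.r r1065 (@Lb.r r2084 (@Lb.d (nat_lit 258) (nat_lit 88) (nat_lit 90) (@Lb.fp (nat_lit 9) t2165))))))))))))
noncomputable def l26118 : Lb := (@Lb.d (nat_lit 136) (nat_lit 512) (nat_lit 64) (@Lb.g g9 (@Lb.g g11 (@Lb.r r152 (@Lb.r r2405 (@Lb.r r1555 (@Lb.r r2178 (@Lb.d (nat_lit 133) (nat_lit 162) (nat_lit 169) (@Lb.fm (nat_lit 3) t2622)))))))))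
noncomputable def l26119 : Lb := (@Lb.d (nat_lit 2) (nat_lit 2) (nat_lit 130) (@Lb.g g8 (@Lb.g g9 (@Lb.g g10 (@Lb.g g11 (@Lb.r r427 (@Lb.r r297 (@Lb.r r136 (@Lb.r r154 (@Lb.r r132 (@Lb.d (nat_lit 5) (nat_lit 25) (nat_lit 68) (@Lb.fm (nat_lit 9) t119))))))))))))
noncomputable def l26120 : Lb := (@Lb.d (nat_lit 2) (nat_lit 2) (nat_lit 2) (@Lb.g g8 (@Lb.g g9 (@Lb.g g10 (@Lb.r r1689 (@Lb.r r2579 (@Lb.r r386 (@Lb.d (nat_lit 528) (nat_lit 164) (nat_lit 345) (@Lb.t (@Lb.fm (nat_lit 9) t791))))))))))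
noncomputable def l26121 : Lb := (@Lb.d (nat_lit 0) (nat_lit 73) (nat_lit 129) (@Lb.g g4 (@Lb.g g9 (@Lb.g g10 (@Lb.g g11 (@Lb.r r419 (@Lb.r r98 (@Lb.d (nat_lit 0) (nat_lit 4) (nat_lit 136) (@Lb.fm (nat_lit 9) t546)))))))))
noncomputable def l26122 : Lb := (@Lb.r r323 (@Lb.d (nat_lit 2) (nat_lit 258) (nat_lit 2) (@Lb.g g8 (@Lb.g g9 (@Lb.g g10 (@Lb.r r553 (@Lb.r r299 (@Lb.r r420 (@Lb.r r102 (@Lb.d (nat_lit 38) (nat_lit 133) (nat_lit 104) (@Lb.t (@Lb.fp (nat_lit 9) t126))))))))))))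
noncomputable def l26123 : Lb := (@Lb.d (nat_lit 608) (nat_lit 169) (nat_lit 401) (@Lb.r r1130 (@Lb.r r1640 (@Lb.r r2409 (@Lb.g g7 (@Lb.g g6 (@Lb.d (nat_lit 16) (nat_lit 32) (nat_lit 388) (@Lb.fm (nat_lit 3) t1027))))))))
noncomputable def l26124 : Lb := (@Lb.d (nat_lit 9) (nat_lit 257) (nat_lit 130) (@Lb.g g8 (@Lb.g g9 (@Lb.g g10 (@Lb.g g11 (@Lb.r r427 (@Lb.r r297 (@Lb.r r676 (@Lb.r r70 (@Lb.r r132 (@Lb.d (nat_lit 9) (nat_lit 85) (nat_lit 392) (@Lb.fm (nat_lit 9) t119))))))))))))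
noncomputable def l26125 : Lb := (@Lb.d (nat_lit 2) (nat_lit 337) (nat_lit 593) (@Lb.r r2182 (@Lb.r r2323 (@Lb.r r661 (@Lb.g g7 (@Lb.g g8 (@Lb.d (nat_lit 352) (nat_lit 16) (nat_lit 0) (@Lb.r r74 (@Lb.r r25 (@Lb.fm (nat_lit 3) t329))))))))))
noncomputable def l26126 : Lb := (@Lb.d (nat_lit 9) (nat_lit 513) (nat_lit 66) (@Lb.g g8 (@Lb.g g9 (@Lb.g g10 (@Lb.g g7 (@Lb.r r386 (@Lb.r r2153 (@Lb.r r1192 (@Lb.d (nat_lit 292) (nat_lit 129) (nat_lit 9) (@Lb.fp (nat_lit 9) t40))))))))))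
noncomputable def l26127 : Lb := (@Lb.d (nat_lit 0) (nat_lit 514) (nat_lit 128) (@Lb.g g8 (@Lb.g g9 (@Lb.g g10 (@Lb.g g11 (@Lb.r r681 (@Lb.r r427 (@Lb.r r404 (@Lb.r r422 (@Lb.d (nat_lit 101) (nat_lit 33) (nat_lit 146) (@Lb.fp (nat_lit 9) t1796)))))))))))
noncomputable def l26128 : Lb := (@Lb.d (nat_lit 36) (nat_lit 517) (nat_lit 128) (@Lb.g g8 (@Lb.g g9 (@Lb.g g10 (@Lb.g g11 (@Lb.r r1707 (@Lb.r r2120 (@Lb.r r2182 (@Lb.r r1697 (@Lb.d (nat_lit 553) (nat_lit 90) (nat_lit 346) (@Lb.fp (nat_lit 9) t4641)))))))))))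
noncomputable def l26129 : Lb := (@Lb.r r82 (@Lb.r r275 (@Lb.d (nat_lit 9) (nat_lit 514) (nat_lit 0) (@Lb.g g8 (@Lb.g g9 (@Lb.r r299 (@Lb.r r106 (@Lb.r r145 (@Lb.r r1124 (@Lb.d (nat_lit 294) (nat_lit 64) (nat_lit 0) (@Lb.fm (nat_lit 3) t4949)))))))))))
noncomputable def l26130 : Lb := (@Lb.r r2311 (@Lb.r r2118 (@Lb.r r2069 (@Lb.r r8 (@Lb.d (nat_lit 0) (nat_lit 517) (nat_lit 1) (@Lb.fm (nat_lit 1) t3770))))))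
noncomputable def l26131 : Lb := (@Lb.r r86 (@Lb.r r279 (@Lb.d (nat_lit 2) (nat_lit 608) (nat_lit 0) (@Lb.g g4 (@Lb.g g9 (@Lb.r r1555 (@Lb.r r2630 (@Lb.r r2180 (@Lb.d (nat_lit 82) (nat_lit 2) (nat_lit 609) (@Lb.fm (nat_lit 3) t1039))))))))))
noncomputable def l26132 : Lb := (@Lb.d (nat_lit 326) (nat_lit 166) (nat_lit 102) (@Lb.r r410 (@Lb.r r148 (@Lb.r r1365 (@Lb.r r1707 (@Lb.g g6 (@Lb.d (nat_lit 16) (nat_lit 0) (nat_lit 1) (@Lb.t (@Lb.fm (nat_lit 3) t1356)))))))))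
noncomputable def l26133 : Lb := (@Lb.r r82 (@Lb.r r275 (@Lb.d (nat_lit 0) (nat_lit 642) (nat_lit 0) (@Lb.g g8 (@Lb.g g9 (@Lb.r r2198 (@Lb.r r1384 (@Lb.r r391 (@Lb.d (nat_lit 0) (nat_lit 8) (nat_lit 612) (@Lb.fm (nat_lit 3) t4950))))))))))
noncomputable def l26134 : Lb := (@Lb.r r2069 (@Lb.r r2118 (@Lb.r r2311 (@Lb.d (nat_lit 2) (nat_lit 256) (nat_lit 0) (@Lb.g g4 (@Lb.d (nat_lit 2) (nat_lit 5) (nat_lit 1) (@Lb.t (@Lb.fm (nat_lit 3) t4951))))))))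
noncomputable def l26135 : Lb := (@Lb.r r2311 (@Lb.r r2118 (@Lb.r r2069 (@Lb.r r8 (@Lb.d (nat_lit 1) (nat_lit 261) (nat_lit 1) (@Lb.fm (nat_lit 1) t3770))))))
noncomputable def l26136 : Lb := (@Lb.d (nat_lit 530) (nat_lit 64) (nat_lit 129) (@Lb.r r146 (@Lb.r r2149 (@Lb.r r1304 (@Lb.g g11 (@Lb.d (nat_lit 128) (nat_lit 16) (nat_lit 388) (@Lb.r r578 (@Lb.t (@Lb.fm (nat_lit 3) t4952)))))))))
noncomputable def l26137 : Lb := (@Lb.r r21 (@Lb.d (nat_lit 24) (nat_lit 32) (nat_lit 2) (@Lb.g g8 (@Lb.g g6 (@Lb.g g11 (@Lb.r r149 (@Lb.r r360 (@Lb.r r391 (@Lb.d (nat_lit 96) (nat_lit 36) (nat_lit 73) (@Lb.t (@Lb.fm (nat_lit 9) t594)))))))))))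
noncomputable def l26138 : Lb := (@Lb.r r582 (@Lb.r r2631 (@Lb.r r24 (@Lb.r r1317 (@Lb.d (nat_lit 0) (nat_lit 401) (nat_lit 0) (@Lb.fm (nat_lit 1) t867))))))
noncomputable def l26139 : Lb := (@Lb.d (nat_lit 544) (nat_lit 2) (nat_lit 17) (@Lb.r r24 (@Lb.r r602 (@Lb.r r2651 (@Lb.g g9 (@Lb.d (nat_lit 8) (nat_lit 161) (nat_lit 0) (@Lb.t (@Lb.fp (nat_lit 3) t2377))))))))
noncomputable def l26140 : Lb := (@Lb.d (nat_lit 2) (nat_lit 10) (nat_lit 0) (@Lb.g g8 (@Lb.g g9 (@Lb.r r134 (@Lb.r r328 (@Lb.r r279 (@Lb.r r545 (@Lb.d (nat_lit 0) (nat_lit 2) (nat_lit 20) (@Lb.fp (nat_lit 3) t334)))))))))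
noncomputable def l26141 : Lb := (@Lb.d (nat_lit 649) (nat_lit 160) (nat_lit 609) (@Lb.r r2347 (@Lb.r r2472 (@Lb.r r410 (@Lb.r r613 (@Lb.g g7 (@Lb.d (nat_lit 64) (nat_lit 0) (nat_lit 68) (@Lb.t (@Lb.fp (nat_lit 3) t210)))))))))
noncomputable def l26142 : Lb := (@Lb.d (nat_lit 2) (nat_lit 258) (nat_lit 66) (@Lb.g g8 (@Lb.g g9 (@Lb.g g10 (@Lb.g g11 (@Lb.r r1687 (@Lb.r r106 (@Lb.r r25 (@Lb.d (nat_lit 9) (nat_lit 33) (nat_lit 293) (@Lb.fm (nat_lit 9) t51))))))))))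
noncomputable def l26143 : Lb := (@Lb.r r275 (@Lb.d (nat_lit 2) (nat_lit 0) (nat_lit 2) (@Lb.g g8 (@Lb.g g9 (@Lb.g g10 (@Lb.r r2411 (@Lb.r r386 (@Lb.r r601 (@Lb.d (nat_lit 105) (nat_lit 2) (nat_lit 354) (@Lb.t (@Lb.fp (nat_lit 9) t5)))))))))))
noncomputable def l26144 : Lb := (@Lb.d (nat_lit 0) (nat_lit 256) (nat_lit 130) (@Lb.g g9 (@Lb.g g10 (@Lb.g g11 (@Lb.r r419 (@Lb.r r98 (@Lb.d (nat_lit 0) (nat_lit 168) (nat_lit 386) (@Lb.t (@Lb.fm (nat_lit 9) t51)))))))))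
noncomputable def l26145 : Lb := (@Lb.d (nat_lit 6) (nat_lit 288) (nat_lit 130) (@Lb.g g8 (@Lb.g g9 (@Lb.g g10 (@Lb.g g11 (@Lb.r r682 (@Lb.r r676 (@Lb.r r359 (@Lb.r r341 (@Lb.r r36 (@Lb.d (nat_lit 82) (nat_lit 2) (nat_lit 134) (@Lb.fm (nat_lit 9) t74))))))))))))
noncomputable def l26146 : Lb := (@Lb.d (nat_lit 2) (nat_lit 98) (nat_lit 0) (@Lb.r r68 (@Lb.r r289 (@Lb.r r106 (@Lb.r r584 (@Lb.g g10 (@Lb.g g4 (@Lb.fp (nat_lit 3) t259))))))))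
noncomputable def l26147 : Lb := (@Lb.d (nat_lit 2) (nat_lit 256) (nat_lit 9) (@Lb.g g8 (@Lb.g g10 (@Lb.g g7 (@Lb.r r386 (@Lb.d (nat_lit 0) (nat_lit 5) (nat_lit 10) (@Lb.t (@Lb.fm (nat_lit 9) t45))))))))
noncomputable def l26148 : Lb := (@Lb.d (nat_lit 9) (nat_lit 2) (nat_lit 130) (@Lb.g g8 (@Lb.g g9 (@Lb.g g10 (@Lb.g g11 (@Lb.r r682 (@Lb.r r676 (@Lb.r r551 (@Lb.r r1557 (@Lb.r r36 (@Lb.d (nat_lit 393) (nat_lit 2) (nat_lit 586) (@Lb.fp (nat_lit 9) t284))))))))))))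
noncomputable def l26149 : Lb := (@Lb.r r21 (@Lb.d (nat_lit 130) (nat_lit 512) (nat_lit 66) (@Lb.g g8 (@Lb.g g10 (@Lb.g g11 (@Lb.r r651 (@Lb.r r357 (@Lb.r r154 (@Lb.r r152 (@Lb.d (nat_lit 165) (nat_lit 160) (nat_lit 134) (@Lb.t (@Lb.fm (nat_lit 9) t144))))))))))))
noncomputable def l26150 : Lb := (@Lb.d (nat_lit 0) (nat_lit 514) (nat_lit 2) (@Lb.g g9 (@Lb.g g10 (@Lb.r r1689 (@Lb.r r2579 (@Lb.r r386 (@Lb.d (nat_lit 289) (nat_lit 162) (nat_lit 361) (@Lb.fm (nat_lit 3) t791))))))))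
noncomputable def l26151 : Lb := (@Lb.d (nat_lit 9) (nat_lit 545) (nat_lit 66) (@Lb.g g8 (@Lb.g g9 (@Lb.g g10 (@Lb.g g11 (@Lb.r r682 (@Lb.r r680 (@Lb.r r555 (@Lb.r r537 (@Lb.d (nat_lit 69) (nat_lit 160) (nat_lit 74) (@Lb.fm (nat_lit 9) t144)))))))))))
noncomputable def l26152 : Lb := (@Lb.d (nat_lit 137) (nat_lit 256) (nat_lit 0) (@Lb.g g8 (@Lb.r r1621 (@Lb.r r2391 (@Lb.r r2178 (@Lb.r r1572 (@Lb.d (nat_lit 384) (nat_lit 144) (nat_lit 533) (@Lb.t (@Lb.fm (nat_lit 3) t1951)))))))))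
noncomputable def l26153 : Lb := (@Lb.d (nat_lit 152) (nat_lit 538) (nat_lit 137) (@Lb.g g8 (@Lb.g g9 (@Lb.g g10 (@Lb.g g11 (@Lb.r r2475 (@Lb.r r682 (@Lb.r r2468 (@Lb.r r2197 (@Lb.d (nat_lit 421) (nat_lit 88) (nat_lit 546) (@Lb.fm (nat_lit 9) t4953)))))))))))
noncomputable def l26154 : Lb := (@Lb.d (nat_lit 9) (nat_lit 257) (nat_lit 128) (@Lb.g g8 (@Lb.g g9 (@Lb.g g10 (@Lb.g g11 (@Lb.r r2730 (@Lb.r r420 (@Lb.r r283 (@Lb.r r1577 (@Lb.r r2068 (@Lb.d (nat_lit 680) (nat_lit 161) (nat_lit 90) (@Lb.fp (nat_lit 9) t4954))))))))))))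
noncomputable def l26155 : Lb := (@Lb.d (nat_lit 0) (nat_lit 170) (nat_lit 649) (@Lb.r r1426 (@Lb.r r1637 (@Lb.r r1304 (@Lb.r r2371 (@Lb.g g7 (@Lb.g g6 (@Lb.g g5 (@Lb.d (nat_lit 20) (nat_lit 1) (nat_lit 65) (@Lb.t (@Lb.fm (nat_lit 9) t4955)))))))))))
noncomputable def l26156 : Lb := (@Lb.r r82 (@Lb.r r275 (@Lb.g g4 (@Lb.g g9 (@Lb.r r2631 (@Lb.r r386 (@Lb.r r97 (@Lb.d (nat_lit 262) (nat_lit 10) (nat_lit 2) (@Lb.fm (nat_lit 3) t4956)))))))))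
noncomputable def l26157 : Lb := (@Lb.d (nat_lit 642) (nat_lit 258) (nat_lit 130) (@Lb.g g4 (@Lb.g g9 (@Lb.g g10 (@Lb.g g11 (@Lb.r r646 (@Lb.r r391 (@Lb.r r97 (@Lb.d (nat_lit 354) (nat_lit 138) (nat_lit 146) (@Lb.fm (nat_lit 9) t2417))))))))))
noncomputable def l26158 : Lb := (@Lb.d (nat_lit 137) (nat_lit 512) (nat_lit 0) (@Lb.g g8 (@Lb.r r1621 (@Lb.r r2391 (@Lb.r r2178 (@Lb.r r1572 (@Lb.d (nat_lit 384) (nat_lit 144) (nat_lit 656) (@Lb.t (@Lb.fm (nat_lit 3) t1805)))))))))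
noncomputable def l26159 : Lb := (@Lb.d (nat_lit 145) (nat_lit 544) (nat_lit 130) (@Lb.g g8 (@Lb.g g10 (@Lb.g g11 (@Lb.r r2138 (@Lb.r r2197 (@Lb.r r328 (@Lb.r r551 (@Lb.d (nat_lit 138) (nat_lit 168) (nat_lit 658) (@Lb.t (@Lb.fm (nat_lit 9) t69)))))))))))
noncomputable def l26160 : Lb := (@Lb.d (nat_lit 0) (nat_lit 257) (nat_lit 73) (@Lb.g g8 (@Lb.g g9 (@Lb.g g10 (@Lb.g g11 (@Lb.r r2691 (@Lb.r r2217 (@Lb.r r2658 (@Lb.r r2436 (@Lb.d (nat_lit 353) (nat_lit 165) (nat_lit 596) (@Lb.fp (nat_lit 9) t311)))))))))))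
noncomputable def l26161 : Lb := (@Lb.d (nat_lit 10) (nat_lit 512) (nat_lit 168) (@Lb.r r609 (@Lb.r r619 (@Lb.r r584 (@Lb.g g7 (@Lb.g g6 (@Lb.d (nat_lit 16) (nat_lit 0) (nat_lit 66) (@Lb.fp (nat_lit 3) t130))))))))
noncomputable def l26162 : Lb := (@Lb.d (nat_lit 2) (nat_lit 258) (nat_lit 66) (@Lb.g g8 (@Lb.g g9 (@Lb.g g10 (@Lb.g g11 (@Lb.r r2315 (@Lb.r r145 (@Lb.r r356 (@Lb.r r154 (@Lb.r r132 (@Lb.d (nat_lit 9) (nat_lit 134) (nat_lit 34) (@Lb.fm (nat_lit 9) t222))))))))))))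
noncomputable def l26163 : Lb := (@Lb.d (nat_lit 2) (nat_lit 258) (nat_lit 64) (@Lb.g g8 (@Lb.g g9 (@Lb.g g10 (@Lb.g g11 (@Lb.r r2315 (@Lb.r r1634 (@Lb.r r25 (@Lb.d (nat_lit 69) (nat_lit 153) (nat_lit 386) (@Lb.fp (nat_lit 9) t4420))))))))))
noncomputable def l26164 : Lb := (@Lb.d (nat_lit 1) (nat_lit 2) (nat_lit 66) (@Lb.g g8 (@Lb.g g9 (@Lb.g g10 (@Lb.g g11 (@Lb.r r2315 (@Lb.r r145 (@Lb.r r356 (@Lb.r r154 (@Lb.r r132 (@Lb.d (nat_lit 9) (nat_lit 134) (nat_lit 169) (@Lb.fm (nat_lit 9) t222))))))))))))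
noncomputable def l26165 : Lb := (@Lb.d (nat_lit 2) (nat_lit 2) (nat_lit 66) (@Lb.g g8 (@Lb.g g9 (@Lb.g g10 (@Lb.g g11 (@Lb.r r2315 (@Lb.r r145 (@Lb.r r356 (@Lb.r r154 (@Lb.r r132 (@Lb.d (nat_lit 2) (nat_lit 132) (nat_lit 34) (@Lb.fm (nat_lit 9) t222))))))))))))
noncomputable def l26166 : Lb := (@Lb.d (nat_lit 98) (nat_lit 262) (nat_lit 577) (@Lb.r r2661 (@Lb.r r1304 (@Lb.r r1579 (@Lb.g g6 (@Lb.g g5 (@Lb.d (nat_lit 36) (nat_lit 1) (nat_lit 41) (@Lb.fp (nat_lit 3) t4957))))))))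
noncomputable def l26167 : Lb := (@Lb.r r20 (@Lb.r r323 (@Lb.d (nat_lit 20) (nat_lit 66) (nat_lit 2) (@Lb.g g9 (@Lb.g g10 (@Lb.r r676 (@Lb.r r2391 (@Lb.r r2722 (@Lb.d (nat_lit 0) (nat_lit 85) (nat_lit 274) (@Lb.fp (nat_lit 3) t4958))))))))))
noncomputable def l26168 : Lb := (@Lb.d (nat_lit 553) (nat_lit 650) (nat_lit 17) (@Lb.r r24 (@Lb.r r1414 (@Lb.r r2395 (@Lb.g g7 (@Lb.g g6 (@Lb.g g5 (@Lb.d (nat_lit 4) (nat_lit 1) (nat_lit 64) (@Lb.t (@Lb.fp (nat_lit 9) t506))))))))))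
noncomputable def l26169 : Lb := (@Lb.d (nat_lit 133) (nat_lit 17) (nat_lit 66) (@Lb.r r536 (@Lb.r r97 (@Lb.r r363 (@Lb.g g10 (@Lb.g g4 (@Lb.d (nat_lit 65) (nat_lit 8) (nat_lit 6) (@Lb.r r25 (@Lb.fp (nat_lit 3) t524)))))))))
noncomputable def l26170 : Lb := (@Lb.d (nat_lit 548) (nat_lit 649) (nat_lit 17) (@Lb.r r24 (@Lb.r r1414 (@Lb.r r2395 (@Lb.g g7 (@Lb.g g6 (@Lb.g g5 (@Lb.d (nat_lit 4) (nat_lit 6) (nat_lit 65) (@Lb.t (@Lb.fp (nat_lit 9) t1053))))))))))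
noncomputable def l26171 : Lb := (@Lb.d (nat_lit 8) (nat_lit 272) (nat_lit 137) (@Lb.g g9 (@Lb.g g10 (@Lb.g g11 (@Lb.r r643 (@Lb.r r578 (@Lb.r r600 (@Lb.r r293 (@Lb.d (nat_lit 105) (nat_lit 41) (nat_lit 90) (@Lb.t (@Lb.fp (nat_lit 9) t2298)))))))))))
noncomputable def l26172 : Lb := (@Lb.d (nat_lit 0) (nat_lit 529) (nat_lit 137) (@Lb.g g9 (@Lb.g g10 (@Lb.g g11 (@Lb.r r643 (@Lb.r r578 (@Lb.r r600 (@Lb.r r293 (@Lb.d (nat_lit 98) (nat_lit 32) (nat_lit 88) (@Lb.t (@Lb.fp (nat_lit 9) t4959)))))))))))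
noncomputable def l26173 : Lb := (@Lb.r r21 (@Lb.r r323 (@Lb.d (nat_lit 130) (nat_lit 260) (nat_lit 10) (@Lb.g g8 (@Lb.g g6 (@Lb.r r407 (@Lb.r r97 (@Lb.r r516 (@Lb.d (nat_lit 133) (nat_lit 0) (nat_lit 129) (@Lb.fm (nat_lit 3) t51))))))))))
noncomputable def l26174 : Lb := (@Lb.d (nat_lit 9) (nat_lit 256) (nat_lit 128) (@Lb.g g8 (@Lb.g g10 (@Lb.g g11 (@Lb.r r353 (@Lb.r r663 (@Lb.r r328 (@Lb.r r134 (@Lb.d (nat_lit 41) (nat_lit 2) (nat_lit 146) (@Lb.t (@Lb.fm (nat_lit 9) t40)))))))))))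
noncomputable def l26175 : Lb := (@Lb.d (nat_lit 154) (nat_lit 553) (nat_lit 132) (@Lb.r r82 (@Lb.r r421 (@Lb.g g11 (@Lb.g g6 (@Lb.g g5 (@Lb.d (nat_lit 0) (nat_lit 0) (nat_lit 129) (@Lb.t (@Lb.fp (nat_lit 9) t2791)))))))))
noncomputable def l26176 : Lb := (@Lb.d (nat_lit 129) (nat_lit 4) (nat_lit 128) (@Lb.g g8 (@Lb.g g9 (@Lb.g g10 (@Lb.g g11 (@Lb.r r2666 (@Lb.r r612 (@Lb.r r1639 (@Lb.r r533 (@Lb.r r2084 (@Lb.d (nat_lit 9) (nat_lit 137) (nat_lit 658) (@Lb.fm (nat_lit 9) t4960))))))))))))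
noncomputable def l26177 : Lb := (@Lb.d (nat_lit 8) (nat_lit 514) (nat_lit 66) (@Lb.g g9 (@Lb.g g10 (@Lb.g g11 (@Lb.r r1451 (@Lb.r r98 (@Lb.d (nat_lit 400) (nat_lit 9) (nat_lit 425) (@Lb.t (@Lb.fm (nat_lit 9) t899)))))))))
noncomputable def l26178 : Lb := (@Lb.r r82 (@Lb.d (nat_lit 161) (nat_lit 2) (nat_lit 128) (@Lb.g g8 (@Lb.g g9 (@Lb.g g11 (@Lb.r r2390 (@Lb.r r1411 (@Lb.r r1633 (@Lb.r r2216 (@Lb.d (nat_lit 74) (nat_lit 68) (nat_lit 169) (@Lb.t (@Lb.fm (nat_lit 9) t328))))))))))))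
noncomputable def l26179 : Lb := (@Lb.d (nat_lit 80) (nat_lit 593) (nat_lit 341) (@Lb.r r1702 (@Lb.r r1425 (@Lb.g g11 (@Lb.g g6 (@Lb.d (nat_lit 0) (nat_lit 4) (nat_lit 129) (@Lb.fm (nat_lit 3) t1022)))))))
noncomputable def l26180 : Lb := (@Lb.d (nat_lit 9) (nat_lit 518) (nat_lit 128) (@Lb.g g8 (@Lb.g g9 (@Lb.g g10 (@Lb.g g11 (@Lb.r r2729 (@Lb.r r2724 (@Lb.r r1671 (@Lb.r r578 (@Lb.d (nat_lit 98) (nat_lit 162) (nat_lit 361) (@Lb.fp (nat_lit 9) t208)))))))))))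
noncomputable def l26181 : Lb := (@Lb.d (nat_lit 136) (nat_lit 518) (nat_lit 128) (@Lb.g g8 (@Lb.g g9 (@Lb.g g10 (@Lb.g g11 (@Lb.r r1706 (@Lb.r r1411 (@Lb.r r2212 (@Lb.r r37 (@Lb.d (nat_lit 617) (nat_lit 137) (nat_lit 169) (@Lb.fp (nat_lit 9) t1846)))))))))))
noncomputable def l26182 : Lb := (@Lb.d (nat_lit 4) (nat_lit 288) (nat_lit 130) (@Lb.g g8 (@Lb.g g9 (@Lb.g g10 (@Lb.g g11 (@Lb.r r682 (@Lb.r r387 (@Lb.r r1177 (@Lb.d (nat_lit 538) (nat_lit 149) (nat_lit 409) (@Lb.fm (nat_lit 9) t1047))))))))))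
noncomputable def l26183 : Lb := (@Lb.r r323 (@Lb.d (nat_lit 2) (nat_lit 521) (nat_lit 2) (@Lb.g g8 (@Lb.g g9 (@Lb.g g10 (@Lb.r r683 (@Lb.r r2210 (@Lb.r r145 (@Lb.d (nat_lit 513) (nat_lit 68) (nat_lit 70) (@Lb.t (@Lb.fm (nat_lit 9) t2019)))))))))))
noncomputable def l26184 : Lb := (@Lb.r r82 (@Lb.r r275 (@Lb.d (nat_lit 2) (nat_lit 642) (nat_lit 0) (@Lb.g g8 (@Lb.g g5 (@Lb.r r1563 (@Lb.r r146 (@Lb.d (nat_lit 513) (nat_lit 130) (nat_lit 84) (@Lb.fp (nat_lit 3) t2019)))))))))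
noncomputable def l26185 : Lb := (@Lb.r r21 (@Lb.r r322 (@Lb.d (nat_lit 129) (nat_lit 544) (nat_lit 128) (@Lb.g g8 (@Lb.g g11 (@Lb.r r1370 (@Lb.r r97 (@Lb.r r612 (@Lb.d (nat_lit 102) (nat_lit 37) (nat_lit 425) (@Lb.fp (nat_lit 3) t523))))))))))
noncomputable def l26186 : Lb := (@Lb.r r21 (@Lb.d (nat_lit 129) (nat_lit 256) (nat_lit 73) (@Lb.g g8 (@Lb.g g10 (@Lb.g g11 (@Lb.r r419 (@Lb.r r2726 (@Lb.r r97 (@Lb.r r612 (@Lb.d (nat_lit 2) (nat_lit 100) (nat_lit 594) (@Lb.t (@Lb.fm (nat_lit 9) t523))))))))))))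
noncomputable def l26187 : Lb := (@Lb.d (nat_lit 101) (nat_lit 548) (nat_lit 389) (@Lb.r r408 (@Lb.r r1178 (@Lb.r r1683 (@Lb.g g6 (@Lb.g g9 (@Lb.g g4 (@Lb.d (nat_lit 70) (nat_lit 42) (nat_lit 0) (@Lb.r r387 (@Lb.t (@Lb.fp (nat_lit 9) t238)))))))))))
noncomputable def l26188 : Lb := (@Lb.d (nat_lit 2) (nat_lit 2) (nat_lit 0) (@Lb.g g8 (@Lb.g g9 (@Lb.r r1323 (@Lb.r r1130 (@Lb.r r25 (@Lb.d (nat_lit 9) (nat_lit 65) (nat_lit 64) (@Lb.fm (nat_lit 3) t369))))))))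
noncomputable def l26189 : Lb := (@Lb.d (nat_lit 0) (nat_lit 512) (nat_lit 2) (@Lb.g g8 (@Lb.g g9 (@Lb.g g10 (@Lb.r r2435 (@Lb.r r386 (@Lb.r r101 (@Lb.r r24 (@Lb.d (nat_lit 577) (nat_lit 0) (nat_lit 132) (@Lb.t (@Lb.fp (nat_lit 9) t1150)))))))))))
noncomputable def l26190 : Lb := (@Lb.r r323 (@Lb.d (nat_lit 128) (nat_lit 0) (nat_lit 2) (@Lb.g g8 (@Lb.g g9 (@Lb.g g10 (@Lb.r r1169 (@Lb.r r402 (@Lb.r r583 (@Lb.r r2312 (@Lb.d (nat_lit 646) (nat_lit 2) (nat_lit 642) (@Lb.t (@Lb.fp (nat_lit 9) t1350))))))))))))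
noncomputable def l26191 : Lb := (@Lb.r r24 (@Lb.r r1045 (@Lb.r r36 (@Lb.d (nat_lit 5) (nat_lit 513) (nat_lit 0) (@Lb.fm (nat_lit 1) t2)))))
noncomputable def l26192 : Lb := (@Lb.d (nat_lit 0) (nat_lit 512) (nat_lit 128) (@Lb.g g11 (@Lb.r r24 (@Lb.r r101 (@Lb.r r658 (@Lb.r r387 (@Lb.d (nat_lit 0) (nat_lit 164) (nat_lit 328) (@Lb.t (@Lb.fm (nat_lit 3) t242)))))))))
noncomputable def l26193 : Lb := (@Lb.g g8 (@Lb.r r2085 (@Lb.r r2068 (@Lb.d (nat_lit 260) (nat_lit 576) (nat_lit 0) (@Lb.t (@Lb.fm (nat_lit 3) t2))))))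
noncomputable def l26194 : Lb := (@Lb.d (nat_lit 9) (nat_lit 513) (nat_lit 2) (@Lb.g g8 (@Lb.g g9 (@Lb.g g10 (@Lb.g g11 (@Lb.r r2411 (@Lb.r r386 (@Lb.r r97 (@Lb.r r24 (@Lb.d (nat_lit 536) (nat_lit 9) (nat_lit 68) (@Lb.fm (nat_lit 9) t61)))))))))))
noncomputable def l26195 : Lb := (@Lb.d (nat_lit 10) (nat_lit 520) (nat_lit 130) (@Lb.g g8 (@Lb.g g10 (@Lb.g g11 (@Lb.r r1451 (@Lb.r r2145 (@Lb.r r1622 (@Lb.r r1156 (@Lb.d (nat_lit 165) (nat_lit 169) (nat_lit 646) (@Lb.t (@Lb.fp (nat_lit 9) t2910)))))))))))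
noncomputable def l26196 : Lb := (@Lb.d (nat_lit 2) (nat_lit 258) (nat_lit 130) (@Lb.g g8 (@Lb.g g9 (@Lb.g g10 (@Lb.g g11 (@Lb.r r427 (@Lb.r r388 (@Lb.r r70 (@Lb.r r153 (@Lb.r r132 (@Lb.d (nat_lit 9) (nat_lit 73) (nat_lit 146) (@Lb.fp (nat_lit 9) t3912))))))))))))
noncomputable def l26197 : Lb := (@Lb.r r21 (@Lb.d (nat_lit 2) (nat_lit 0) (nat_lit 66) (@Lb.g g8 (@Lb.g g10 (@Lb.g g7 (@Lb.r r386 (@Lb.r r97 (@Lb.r r72 (@Lb.d (nat_lit 354) (nat_lit 10) (nat_lit 520) (@Lb.t (@Lb.fm (nat_lit 9) t166)))))))))))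
noncomputable def l26198 : Lb := (@Lb.r r21 (@Lb.d (nat_lit 161) (nat_lit 0) (nat_lit 128) (@Lb.g g8 (@Lb.g g11 (@Lb.r r402 (@Lb.r r1367 (@Lb.r r97 (@Lb.r r616 (@Lb.d (nat_lit 514) (nat_lit 164) (nat_lit 394) (@Lb.fp (nat_lit 3) t1500))))))))))
noncomputable def l26199 : Lb := (@Lb.d (nat_lit 34) (nat_lit 512) (nat_lit 0) (@Lb.g g8 (@Lb.r r2395 (@Lb.r r582 (@Lb.r r1057 (@Lb.r r1444 (@Lb.d (nat_lit 362) (nat_lit 130) (nat_lit 137) (@Lb.t (@Lb.fm (nat_lit 3) t309)))))))))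
noncomputable def l26200 : Lb := (@Lb.r r323 (@Lb.d (nat_lit 128) (nat_lit 512) (nat_lit 2) (@Lb.g g8 (@Lb.g g10 (@Lb.r r346 (@Lb.r r661 (@Lb.r r1431 (@Lb.r r2632 (@Lb.d (nat_lit 361) (nat_lit 65) (nat_lit 2) (@Lb.fp (nat_lit 3) t71))))))))))
noncomputable def l26201 : Lb := (@Lb.d (nat_lit 2) (nat_lit 514) (nat_lit 73) (@Lb.g g8 (@Lb.g g9 (@Lb.g g10 (@Lb.g g11 (@Lb.r r1303 (@Lb.r r1065 (@Lb.r r344 (@Lb.r r598 (@Lb.r r132 (@Lb.d (nat_lit 646) (nat_lit 10) (nat_lit 289) (@Lb.fp (nat_lit 9) t324))))))))))))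
noncomputable def l26202 : Lb := (@Lb.r r20 (@Lb.r r82 (@Lb.d (nat_lit 4) (nat_lit 416) (nat_lit 136) (@Lb.g g5 (@Lb.g g11 (@Lb.r r1624 (@Lb.r r2438 (@Lb.r r1611 (@Lb.d (nat_lit 608) (nat_lit 1) (nat_lit 514) (@Lb.fm (nat_lit 3) t981))))))))))
noncomputable def l26203 : Lb := (@Lb.d (nat_lit 6) (nat_lit 18) (nat_lit 10) (@Lb.r r21 (@Lb.r r579 (@Lb.r r342 (@Lb.g g7 (@Lb.g g6 (@Lb.g g5 (@Lb.g g4 (@Lb.d (nat_lit 0) (nat_lit 1) (nat_lit 5) (@Lb.fm (nat_lit 9) t319))))))))))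
noncomputable def l26204 : Lb := (@Lb.d (nat_lit 9) (nat_lit 33) (nat_lit 132) (@Lb.g g8 (@Lb.g g9 (@Lb.g g10 (@Lb.g g11 (@Lb.r r682 (@Lb.r r676 (@Lb.r r551 (@Lb.r r2601 (@Lb.r r2068 (@Lb.d (nat_lit 577) (nat_lit 161) (nat_lit 74) (@Lb.fm (nat_lit 9) t3967))))))))))))
noncomputable def l26205 : Lb := (@Lb.d (nat_lit 9) (nat_lit 521) (nat_lit 129) (@Lb.g g8 (@Lb.g g9 (@Lb.g g10 (@Lb.g g11 (@Lb.r r682 (@Lb.r r424 (@Lb.r r279 (@Lb.r r2597 (@Lb.r r2068 (@Lb.d (nat_lit 641) (nat_lit 66) (nat_lit 586) (@Lb.fm (nat_lit 9) t68))))))))))))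
noncomputable def l26206 : Lb := (@Lb.r r323 (@Lb.d (nat_lit 0) (nat_lit 8) (nat_lit 6) (@Lb.g g4 (@Lb.g g10 (@Lb.r r387 (@Lb.d (nat_lit 6) (nat_lit 0) (nat_lit 137) (@Lb.fp (nat_lit 3) t51)))))))
noncomputable def l26207 : Lb := (@Lb.d (nat_lit 133) (nat_lit 0) (nat_lit 130) (@Lb.g g8 (@Lb.g g9 (@Lb.g g10 (@Lb.g g11 (@Lb.r r419 (@Lb.r r344 (@Lb.r r1429 (@Lb.r r1110 (@Lb.r r2212 (@Lb.d (nat_lit 33) (nat_lit 105) (nat_lit 673) (@Lb.fm (nat_lit 9) t5))))))))))))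
noncomputable def l26208 : Lb := (@Lb.d (nat_lit 138) (nat_lit 528) (nat_lit 421) (@Lb.r r81 (@Lb.r r354 (@Lb.r r81 (@Lb.r r647 (@Lb.g g7 (@Lb.g g6 (@Lb.g g5 (@Lb.g g8 (@Lb.d (nat_lit 545) (nat_lit 6) (nat_lit 134) (@Lb.fp (nat_lit 9) t4961)))))))))))
noncomputable def l26209 : Lb := (@Lb.r r323 (@Lb.d (nat_lit 38) (nat_lit 0) (nat_lit 2) (@Lb.g g8 (@Lb.g g9 (@Lb.g g10 (@Lb.r r1689 (@Lb.r r1563 (@Lb.r r1540 (@Lb.d (nat_lit 417) (nat_lit 5) (nat_lit 674) (@Lb.t (@Lb.fp (nat_lit 9) t1599)))))))))))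
noncomputable def l26210 : Lb := (@Lb.r r323 (@Lb.d (nat_lit 0) (nat_lit 66) (nat_lit 2) (@Lb.g g9 (@Lb.g g10 (@Lb.r r2339 (@Lb.r r2146 (@Lb.r r2564 (@Lb.d (nat_lit 10) (nat_lit 134) (nat_lit 401) (@Lb.fm (nat_lit 3) t4699)))))))))
noncomputable def l26211 : Lb := (@Lb.d (nat_lit 406) (nat_lit 678) (nat_lit 360) (@Lb.r r20 (@Lb.r r1641 (@Lb.r r386 (@Lb.g g11 (@Lb.g g6 (@Lb.g g5 (@Lb.g g4 (@Lb.d (nat_lit 2) (nat_lit 1) (nat_lit 1) (@Lb.fm (nat_lit 9) t2015))))))))))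
noncomputable def l26212 : Lb := (@Lb.d (nat_lit 554) (nat_lit 517) (nat_lit 2) (@Lb.r r1112 (@Lb.r r1057 (@Lb.r r1094 (@Lb.r r2647 (@Lb.g g8 (@Lb.d (nat_lit 17) (nat_lit 0) (nat_lit 0) (@Lb.t (@Lb.fm (nat_lit 3) t324)))))))))
noncomputable def l26213 : Lb := (@Lb.r r580 (@Lb.d (nat_lit 0) (nat_lit 322) (nat_lit 386) (@Lb.g g9 (@Lb.g g10 (@Lb.g g11 (@Lb.r r1634 (@Lb.r r1060 (@Lb.d (nat_lit 0) (nat_lit 100) (nat_lit 137) (@Lb.t (@Lb.fm (nat_lit 9) t429))))))))))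
noncomputable def l26214 : Lb := (@Lb.d (nat_lit 0) (nat_lit 70) (nat_lit 137) (@Lb.r r609 (@Lb.r r363 (@Lb.r r328 (@Lb.r r70 (@Lb.g g6 (@Lb.g g4 (@Lb.d (nat_lit 1) (nat_lit 0) (nat_lit 2) (@Lb.fm (nat_lit 3) t2569)))))))))
noncomputable def l26215 : Lb := (@Lb.d (nat_lit 0) (nat_lit 512) (nat_lit 138) (@Lb.r r289 (@Lb.r r535 (@Lb.r r328 (@Lb.r r134 (@Lb.g g9 (@Lb.t (@Lb.fp (nat_lit 3) t40))))))))
noncomputable def l26216 : Lb := (@Lb.d (nat_lit 0) (nat_lit 0) (nat_lit 128) (@Lb.g g11 (@Lb.r r353 (@Lb.r r663 (@Lb.r r328 (@Lb.r r134 (@Lb.d (nat_lit 41) (nat_lit 2) (nat_lit 2) (@Lb.t (@Lb.fp (nat_lit 3) t40)))))))))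
noncomputable def l26217 : Lb := (@Lb.d (nat_lit 10) (nat_lit 0) (nat_lit 128) (@Lb.g g8 (@Lb.g g10 (@Lb.g g11 (@Lb.r r353 (@Lb.r r407 (@Lb.r r612 (@Lb.r r154 (@Lb.d (nat_lit 257) (nat_lit 0) (nat_lit 38) (@Lb.t (@Lb.fm (nat_lit 9) t743)))))))))))
noncomputable def l26218 : Lb := (@Lb.d (nat_lit 70) (nat_lit 288) (nat_lit 100) (@Lb.r r359 (@Lb.r r532 (@Lb.r r1369 (@Lb.g g7 (@Lb.g g6 (@Lb.d (nat_lit 64) (nat_lit 0) (nat_lit 98) (@Lb.fm (nat_lit 3) t1038))))))))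
noncomputable def l26219 : Lb := (@Lb.d (nat_lit 130) (nat_lit 258) (nat_lit 0) (@Lb.g g8 (@Lb.g g9 (@Lb.r r1303 (@Lb.r r162 (@Lb.r r145 (@Lb.r r2644 (@Lb.d (nat_lit 662) (nat_lit 33) (nat_lit 425) (@Lb.fp (nat_lit 3) t334)))))))))
noncomputable def l26220 : Lb := (@Lb.g g5 (@Lb.r r134 (@Lb.r r328 (@Lb.r r535 (@Lb.r r289 (@Lb.d (nat_lit 0) (nat_lit 261) (nat_lit 70) (@Lb.t (@Lb.fm (nat_lit 3) t51))))))))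
noncomputable def l26221 : Lb := (@Lb.d (nat_lit 130) (nat_lit 1) (nat_lit 0) (@Lb.g g8 (@Lb.g g9 (@Lb.r r2473 (@Lb.r r1559 (@Lb.r r2178 (@Lb.r r1444 (@Lb.d (nat_lit 362) (nat_lit 161) (nat_lit 68) (@Lb.fp (nat_lit 3) t296)))))))))
noncomputable def l26222 : Lb := (@Lb.d (nat_lit 0) (nat_lit 258) (nat_lit 0) (@Lb.g g9 (@Lb.r r2214 (@Lb.r r1368 (@Lb.r r2599 (@Lb.r r145 (@Lb.d (nat_lit 0) (nat_lit 88) (nat_lit 41) (@Lb.t (@Lb.fm (nat_lit 3) t2932)))))))))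
noncomputable def l26223 : Lb := (@Lb.d (nat_lit 338) (nat_lit 265) (nat_lit 577) (@Lb.r r1284 (@Lb.r r2587 (@Lb.g g6 (@Lb.g g9 (@Lb.g g4 (@Lb.d (nat_lit 1) (nat_lit 41) (nat_lit 32) (@Lb.r r387 (@Lb.t (@Lb.fp (nat_lit 9) t1636))))))))))
noncomputable def l26224 : Lb := (@Lb.d (nat_lit 2) (nat_lit 292) (nat_lit 128) (@Lb.g g8 (@Lb.g g9 (@Lb.g g10 (@Lb.g g11 (@Lb.r r387 (@Lb.r r2154 (@Lb.r r2073 (@Lb.d (nat_lit 265) (nat_lit 20) (nat_lit 9) (@Lb.fp (nat_lit 9) t406))))))))))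
noncomputable def l26225 : Lb := (@Lb.d (nat_lit 2) (nat_lit 258) (nat_lit 2) (@Lb.g g8 (@Lb.g g9 (@Lb.g g10 (@Lb.g g11 (@Lb.r r2411 (@Lb.r r386 (@Lb.r r97 (@Lb.r r24 (@Lb.d (nat_lit 536) (nat_lit 9) (nat_lit 68) (@Lb.fm (nat_lit 9) t61)))))))))))
noncomputable def l26226 : Lb := (@Lb.d (nat_lit 2) (nat_lit 516) (nat_lit 0) (@Lb.g g8 (@Lb.g g9 (@Lb.g g10 (@Lb.r r2666 (@Lb.r r2585 (@Lb.d (nat_lit 329) (nat_lit 9) (nat_lit 256) (@Lb.t (@Lb.fm (nat_lit 9) t598)))))))))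
noncomputable def l26227 : Lb := (@Lb.r r1346 (@Lb.d (nat_lit 2) (nat_lit 256) (nat_lit 576) (@Lb.g g8 (@Lb.g g7 (@Lb.d (nat_lit 0) (nat_lit 0) (nat_lit 64) (@Lb.fp (nat_lit 3) t2))))))
noncomputable def l26228 : Lb := (@Lb.r r322 (@Lb.d (nat_lit 2) (nat_lit 645) (nat_lit 576) (@Lb.g g8 (@Lb.g g5 (@Lb.g g7 (@Lb.r r1426 (@Lb.r r24 (@Lb.d (nat_lit 0) (nat_lit 129) (nat_lit 132) (@Lb.t (@Lb.fm (nat_lit 9) t3110))))))))))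
noncomputable def l26229 : Lb := (@Lb.d (nat_lit 0) (nat_lit 8) (nat_lit 128) (@Lb.g g4 (@Lb.g g10 (@Lb.g g11 (@Lb.r r403 (@Lb.r r1633 (@Lb.r r338 (@Lb.d (nat_lit 0) (nat_lit 149) (nat_lit 518) (@Lb.t (@Lb.fm (nat_lit 9) t246))))))))))
noncomputable def l26230 : Lb := (@Lb.d (nat_lit 42) (nat_lit 512) (nat_lit 136) (@Lb.g g8 (@Lb.g g11 (@Lb.r r2213 (@Lb.r r1190 (@Lb.r r2388 (@Lb.r r1291 (@Lb.d (nat_lit 0) (nat_lit 148) (nat_lit 70) (@Lb.fm (nat_lit 3) t322)))))))))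
noncomputable def l26231 : Lb := (@Lb.d (nat_lit 0) (nat_lit 288) (nat_lit 136) (@Lb.g g11 (@Lb.r r2449 (@Lb.r r1426 (@Lb.r r355 (@Lb.d (nat_lit 0) (nat_lit 74) (nat_lit 390) (@Lb.t (@Lb.fm (nat_lit 3) t246))))))))
noncomputable def l26232 : Lb := (@Lb.d (nat_lit 0) (nat_lit 544) (nat_lit 136) (@Lb.g g4 (@Lb.g g11 (@Lb.r r2449 (@Lb.r r1426 (@Lb.r r355 (@Lb.d (nat_lit 1) (nat_lit 74) (nat_lit 390) (@Lb.fm (nat_lit 3) t246))))))))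
noncomputable def l26233 : Lb := (@Lb.d (nat_lit 2) (nat_lit 550) (nat_lit 128) (@Lb.g g8 (@Lb.g g9 (@Lb.g g10 (@Lb.g g11 (@Lb.r r2729 (@Lb.r r2347 (@Lb.r r2404 (@Lb.r r1610 (@Lb.d (nat_lit 338) (nat_lit 0) (nat_lit 409) (@Lb.fm (nat_lit 9) t580)))))))))))
noncomputable def l26234 : Lb := (@Lb.d (nat_lit 0) (nat_lit 0) (nat_lit 73) (@Lb.g g10 (@Lb.g g11 (@Lb.r r1671 (@Lb.r r1638 (@Lb.d (nat_lit 150) (nat_lit 165) (nat_lit 665) (@Lb.fp (nat_lit 3) t461)))))))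
noncomputable def l26235 : Lb := (@Lb.d (nat_lit 538) (nat_lit 9) (nat_lit 73) (@Lb.g g8 (@Lb.g g9 (@Lb.g g10 (@Lb.g g11 (@Lb.r r1689 (@Lb.r r1683 (@Lb.r r1602 (@Lb.d (nat_lit 129) (nat_lit 10) (nat_lit 601) (@Lb.fm (nat_lit 9) t4))))))))))
noncomputable def l26236 : Lb := (@Lb.d (nat_lit 138) (nat_lit 257) (nat_lit 0) (@Lb.g g8 (@Lb.g g9 (@Lb.r r1303 (@Lb.r r162 (@Lb.r r145 (@Lb.r r2664 (@Lb.d (nat_lit 358) (nat_lit 21) (nat_lit 425) (@Lb.fm (nat_lit 3) t334)))))))))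
noncomputable def l26237 : Lb := (@Lb.r r40 (@Lb.r r425 (@Lb.r r2474 (@Lb.r r2212 (@Lb.d (nat_lit 584) (nat_lit 384) (nat_lit 0) (@Lb.fm (nat_lit 1) t1639))))))
noncomputable def l26238 : Lb := (@Lb.r r40 (@Lb.r r425 (@Lb.r r2474 (@Lb.r r2212 (@Lb.d (nat_lit 577) (nat_lit 0) (nat_lit 0) (@Lb.fm (nat_lit 1) t1261))))))
noncomputable def l26239 : Lb := (@Lb.r r322 (@Lb.d (nat_lit 128) (nat_lit 6) (nat_lit 128) (@Lb.g g9 (@Lb.g g11 (@Lb.r r614 (@Lb.r r388 (@Lb.r r587 (@Lb.d (nat_lit 100) (nat_lit 0) (nat_lit 18) (@Lb.fp (nat_lit 3) t564)))))))))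
noncomputable def l26240 : Lb := (@Lb.r r323 (@Lb.d (nat_lit 2) (nat_lit 258) (nat_lit 2) (@Lb.g g8 (@Lb.g g9 (@Lb.g g10 (@Lb.r r2329 (@Lb.r r1443 (@Lb.r r1410 (@Lb.d (nat_lit 528) (nat_lit 162) (nat_lit 401) (@Lb.t (@Lb.fp (nat_lit 9) t791)))))))))))
noncomputable def l26241 : Lb := (@Lb.d (nat_lit 10) (nat_lit 0) (nat_lit 0) (@Lb.g g8 (@Lb.r r579 (@Lb.r r402 (@Lb.r r149 (@Lb.r r168 (@Lb.d (nat_lit 36) (nat_lit 6) (nat_lit 0) (@Lb.t (@Lb.fm (nat_lit 3) t145)))))))))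
noncomputable def l26242 : Lb := (@Lb.r r275 (@Lb.d (nat_lit 137) (nat_lit 520) (nat_lit 1) (@Lb.g g8 (@Lb.g g9 (@Lb.g g10 (@Lb.r r1450 (@Lb.r r583 (@Lb.r r1301 (@Lb.r r264 (@Lb.d (nat_lit 325) (nat_lit 97) (nat_lit 336) (@Lb.t (@Lb.fp (nat_lit 9) t4946))))))))))))
noncomputable def l26243 : Lb := (@Lb.d (nat_lit 0) (nat_lit 8) (nat_lit 1) (@Lb.g g8 (@Lb.g g10 (@Lb.r r2347 (@Lb.r r2129 (@Lb.r r1450 (@Lb.r r1416 (@Lb.d (nat_lit 408) (nat_lit 129) (nat_lit 394) (@Lb.fm (nat_lit 3) t386)))))))))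
noncomputable def l26244 : Lb := (@Lb.d (nat_lit 0) (nat_lit 256) (nat_lit 130) (@Lb.g g4 (@Lb.g g10 (@Lb.g g11 (@Lb.r r419 (@Lb.r r386 (@Lb.d (nat_lit 292) (nat_lit 41) (nat_lit 33) (@Lb.t (@Lb.fm (nat_lit 9) t4055)))))))))
noncomputable def l26245 : Lb := (@Lb.d (nat_lit 0) (nat_lit 289) (nat_lit 130) (@Lb.g g4 (@Lb.g g9 (@Lb.g g10 (@Lb.g g11 (@Lb.r r387 (@Lb.r r386 (@Lb.r r613 (@Lb.d (nat_lit 394) (nat_lit 25) (nat_lit 169) (@Lb.fm (nat_lit 9) t4962))))))))))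
noncomputable def l26246 : Lb := (@Lb.d (nat_lit 0) (nat_lit 422) (nat_lit 104) (@Lb.r r2311 (@Lb.r r676 (@Lb.r r150 (@Lb.g g5 (@Lb.g g4 (@Lb.d (nat_lit 16) (nat_lit 129) (nat_lit 0) (@Lb.fp (nat_lit 3) t1443))))))))
noncomputable def l26247 : Lb := (@Lb.d (nat_lit 0) (nat_lit 512) (nat_lit 130) (@Lb.g g4 (@Lb.g g10 (@Lb.g g11 (@Lb.r r419 (@Lb.r r386 (@Lb.d (nat_lit 293) (nat_lit 34) (nat_lit 34) (@Lb.t (@Lb.fm (nat_lit 9) t4055)))))))))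
noncomputable def l26248 : Lb := (@Lb.d (nat_lit 0) (nat_lit 0) (nat_lit 130) (@Lb.g g4 (@Lb.g g10 (@Lb.g g11 (@Lb.r r419 (@Lb.r r386 (@Lb.d (nat_lit 292) (nat_lit 34) (nat_lit 34) (@Lb.t (@Lb.fm (nat_lit 9) t4055)))))))))
noncomputable def l26249 : Lb := (@Lb.d (nat_lit 2) (nat_lit 289) (nat_lit 132) (@Lb.g g8 (@Lb.g g9 (@Lb.g g10 (@Lb.g g11 (@Lb.r r427 (@Lb.r r2442 (@Lb.r r2436 (@Lb.d (nat_lit 102) (nat_lit 137) (nat_lit 514) (@Lb.fm (nat_lit 9) t460))))))))))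
noncomputable def l26250 : Lb := (@Lb.d (nat_lit 0) (nat_lit 676) (nat_lit 385) (@Lb.g g11 (@Lb.g g5 (@Lb.fp (nat_lit 3) t1465))))
noncomputable def l26251 : Lb := (@Lb.d (nat_lit 2) (nat_lit 545) (nat_lit 132) (@Lb.g g8 (@Lb.g g9 (@Lb.g g10 (@Lb.g g11 (@Lb.r r427 (@Lb.r r2442 (@Lb.r r2436 (@Lb.d (nat_lit 101) (nat_lit 137) (nat_lit 514) (@Lb.fm (nat_lit 9) t460))))))))))
noncomputable def l26252 : Lb := (@Lb.d (nat_lit 8) (nat_lit 2) (nat_lit 0) (@Lb.g g9 (@Lb.r r1319 (@Lb.r r1414 (@Lb.r r24 (@Lb.r r101 (@Lb.d (nat_lit 409) (nat_lit 24) (nat_lit 2) (@Lb.t (@Lb.fm (nat_lit 3) t825)))))))))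
noncomputable def l26253 : Lb := (@Lb.d (nat_lit 406) (nat_lit 676) (nat_lit 417) (@Lb.r r612 (@Lb.r r2458 (@Lb.g g11 (@Lb.g g6 (@Lb.g g9 (@Lb.g g4 (@Lb.d (nat_lit 20) (nat_lit 74) (nat_lit 129) (@Lb.fm (nat_lit 9) t145)))))))))
noncomputable def l26254 : Lb := (@Lb.r r70 (@Lb.d (nat_lit 10) (nat_lit 256) (nat_lit 0) (@Lb.g g8 (@Lb.r r1317 (@Lb.r r1563 (@Lb.r r644 (@Lb.r r2182 (@Lb.d (nat_lit 2) (nat_lit 0) (nat_lit 544) (@Lb.t (@Lb.fm (nat_lit 3) t4963))))))))))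
noncomputable def l26255 : Lb := (@Lb.d (nat_lit 9) (nat_lit 1) (nat_lit 66) (@Lb.g g8 (@Lb.g g9 (@Lb.g g10 (@Lb.g g7 (@Lb.r r386 (@Lb.r r2664 (@Lb.r r25 (@Lb.d (nat_lit 522) (nat_lit 169) (nat_lit 5) (@Lb.fm (nat_lit 9) t1403))))))))))
noncomputable def l26256 : Lb := (@Lb.r r267 (@Lb.d (nat_lit 8) (nat_lit 2) (nat_lit 0) (@Lb.g g8 (@Lb.g g9 (@Lb.r r1299 (@Lb.r r293 (@Lb.r r2580 (@Lb.d (nat_lit 514) (nat_lit 34) (nat_lit 384) (@Lb.fp (nat_lit 3) t650)))))))))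
noncomputable def l26257 : Lb := (@Lb.d (nat_lit 2) (nat_lit 258) (nat_lit 130) (@Lb.g g8 (@Lb.g g9 (@Lb.g g10 (@Lb.g g11 (@Lb.r r2691 (@Lb.r r2216 (@Lb.r r2666 (@Lb.r r25 (@Lb.d (nat_lit 522) (nat_lit 37) (nat_lit 68) (@Lb.fp (nat_lit 9) t670)))))))))))
noncomputable def l26258 : Lb := (@Lb.r r1291 (@Lb.d (nat_lit 9) (nat_lit 258) (nat_lit 0) (@Lb.g g8 (@Lb.g g9 (@Lb.r r1556 (@Lb.r r2073 (@Lb.d (nat_lit 0) (nat_lit 32) (nat_lit 320) (@Lb.fm (nat_lit 3) t1044))))))))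
noncomputable def l26259 : Lb := (@Lb.d (nat_lit 10) (nat_lit 514) (nat_lit 73) (@Lb.g g8 (@Lb.g g9 (@Lb.g g10 (@Lb.g g11 (@Lb.r r657 (@Lb.r r1427 (@Lb.r r2577 (@Lb.r r1156 (@Lb.d (nat_lit 610) (nat_lit 10) (nat_lit 512) (@Lb.fp (nat_lit 9) t1561)))))))))))
noncomputable def l26260 : Lb := (@Lb.r r70 (@Lb.d (nat_lit 10) (nat_lit 512) (nat_lit 0) (@Lb.g g8 (@Lb.r r1317 (@Lb.r r1563 (@Lb.r r644 (@Lb.r r2182 (@Lb.d (nat_lit 2) (nat_lit 10) (nat_lit 546) (@Lb.t (@Lb.fm (nat_lit 3) t4963))))))))))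
noncomputable def l26261 : Lb := (@Lb.d (nat_lit 9) (nat_lit 514) (nat_lit 66) (@Lb.g g8 (@Lb.g g9 (@Lb.g g10 (@Lb.g g7 (@Lb.r r386 (@Lb.r r1640 (@Lb.r r2073 (@Lb.d (nat_lit 10) (nat_lit 105) (nat_lit 5) (@Lb.fm (nat_lit 9) t1403))))))))))
noncomputable def l26262 : Lb := (@Lb.d (nat_lit 146) (nat_lit 514) (nat_lit 657) (@Lb.r r1604 (@Lb.r r2458 (@Lb.g g11 (@Lb.g g6 (@Lb.g g9 (@Lb.g g4 (@Lb.d (nat_lit 6) (nat_lit 74) (nat_lit 128) (@Lb.fm (nat_lit 9) t145)))))))))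
noncomputable def l26263 : Lb := (@Lb.r r273 (@Lb.r r322 (@Lb.d (nat_lit 129) (nat_lit 272) (nat_lit 520) (@Lb.g g8 (@Lb.g g7 (@Lb.r r361 (@Lb.r r146 (@Lb.r r264 (@Lb.d (nat_lit 162) (nat_lit 132) (nat_lit 517) (@Lb.fm (nat_lit 3) t1184))))))))))
noncomputable def l26264 : Lb := (@Lb.d (nat_lit 2) (nat_lit 521) (nat_lit 130) (@Lb.g g8 (@Lb.g g9 (@Lb.g g10 (@Lb.g g11 (@Lb.r r387 (@Lb.r r1369 (@Lb.r r2406 (@Lb.r r1156 (@Lb.d (nat_lit 101) (nat_lit 33) (nat_lit 105) (@Lb.fp (nat_lit 9) t230)))))))))))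
noncomputable def l26265 : Lb := (@Lb.d (nat_lit 98) (nat_lit 612) (nat_lit 424) (@Lb.r r2394 (@Lb.r r1189 (@Lb.r r1671 (@Lb.g g7 (@Lb.g g6 (@Lb.g g5 (@Lb.g g8 (@Lb.d (nat_lit 0) (nat_lit 1) (nat_lit 65) (@Lb.fm (nat_lit 9) t1314))))))))))
noncomputable def l26266 : Lb := (@Lb.r r21 (@Lb.r r323 (@Lb.d (nat_lit 40) (nat_lit 512) (nat_lit 2) (@Lb.g g8 (@Lb.g g10 (@Lb.r r1190 (@Lb.r r597 (@Lb.r r663 (@Lb.r r328 (@Lb.d (nat_lit 130) (nat_lit 0) (nat_lit 66) (@Lb.fp (nat_lit 3) t1152)))))))))))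
noncomputable def l26267 : Lb := (@Lb.d (nat_lit 106) (nat_lit 264) (nat_lit 73) (@Lb.g g8 (@Lb.g g9 (@Lb.g g10 (@Lb.g g11 (@Lb.r r2475 (@Lb.r r618 (@Lb.r r2340 (@Lb.r r37 (@Lb.d (nat_lit 676) (nat_lit 144) (nat_lit 105) (@Lb.fm (nat_lit 9) t1111)))))))))))
noncomputable def l26268 : Lb := (@Lb.r r20 (@Lb.r r82 (@Lb.r r275 (@Lb.d (nat_lit 4) (nat_lit 610) (nat_lit 0) (@Lb.g g9 (@Lb.r r1559 (@Lb.r r578 (@Lb.r r2120 (@Lb.d (nat_lit 34) (nat_lit 2) (nat_lit 102) (@Lb.t (@Lb.fp (nat_lit 3) t1919)))))))))))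
noncomputable def l26269 : Lb := (@Lb.d (nat_lit 106) (nat_lit 8) (nat_lit 4) (@Lb.g g8 (@Lb.g g9 (@Lb.g g10 (@Lb.g g11 (@Lb.r r2475 (@Lb.r r618 (@Lb.r r281 (@Lb.r r260 (@Lb.d (nat_lit 73) (nat_lit 41) (nat_lit 89) (@Lb.fp (nat_lit 9) t330)))))))))))
noncomputable def l26270 : Lb := (@Lb.d (nat_lit 130) (nat_lit 258) (nat_lit 0) (@Lb.g g8 (@Lb.g g9 (@Lb.r r407 (@Lb.r r1430 (@Lb.r r1625 (@Lb.r r1604 (@Lb.d (nat_lit 409) (nat_lit 64) (nat_lit 602) (@Lb.fp (nat_lit 3) t1401)))))))))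
noncomputable def l26271 : Lb := (@Lb.r r21 (@Lb.d (nat_lit 16) (nat_lit 512) (nat_lit 64) (@Lb.g g8 (@Lb.g g10 (@Lb.g g7 (@Lb.r r392 (@Lb.r r74 (@Lb.r r25 (@Lb.d (nat_lit 546) (nat_lit 0) (nat_lit 610) (@Lb.t (@Lb.fm (nat_lit 9) t2504)))))))))))
noncomputable def l26272 : Lb := (@Lb.d (nat_lit 594) (nat_lit 102) (nat_lit 517) (@Lb.r r2409 (@Lb.r r548 (@Lb.r r1414 (@Lb.r r295 (@Lb.g g5 (@Lb.d (nat_lit 4) (nat_lit 17) (nat_lit 0) (@Lb.t (@Lb.fm (nat_lit 3) t40)))))))))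
noncomputable def l26273 : Lb := (@Lb.d (nat_lit 594) (nat_lit 358) (nat_lit 645) (@Lb.r r2409 (@Lb.r r548 (@Lb.r r1414 (@Lb.r r295 (@Lb.g g5 (@Lb.d (nat_lit 4) (nat_lit 17) (nat_lit 0) (@Lb.t (@Lb.fm (nat_lit 3) t40)))))))))
noncomputable def l26274 : Lb := (@Lb.d (nat_lit 2) (nat_lit 258) (nat_lit 2) (@Lb.g g8 (@Lb.g g9 (@Lb.g g10 (@Lb.r r2729 (@Lb.r r2475 (@Lb.r r2440 (@Lb.r r2122 (@Lb.d (nat_lit 88) (nat_lit 128) (nat_lit 584) (@Lb.t (@Lb.fm (nat_lit 9) t3927)))))))))))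
noncomputable def l26275 : Lb := (@Lb.d (nat_lit 2) (nat_lit 514) (nat_lit 2) (@Lb.g g8 (@Lb.g g9 (@Lb.g g10 (@Lb.r r2729 (@Lb.r r2475 (@Lb.r r2440 (@Lb.r r2122 (@Lb.d (nat_lit 82) (nat_lit 0) (nat_lit 584) (@Lb.t (@Lb.fm (nat_lit 9) t1150)))))))))))
noncomputable def l26276 : Lb := (@Lb.r r322 (@Lb.d (nat_lit 2) (nat_lit 16) (nat_lit 648) (@Lb.g g8 (@Lb.g g9 (@Lb.g g7 (@Lb.r r361 (@Lb.r r1124 (@Lb.r r2122 (@Lb.d (nat_lit 514) (nat_lit 0) (nat_lit 80) (@Lb.t (@Lb.fm (nat_lit 9) t1700)))))))))))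
noncomputable def l26277 : Lb := (@Lb.d (nat_lit 144) (nat_lit 0) (nat_lit 130) (@Lb.g g8 (@Lb.g g9 (@Lb.g g10 (@Lb.g g11 (@Lb.r r2327 (@Lb.r r676 (@Lb.r r1189 (@Lb.r r1126 (@Lb.d (nat_lit 298) (nat_lit 5) (nat_lit 664) (@Lb.fm (nat_lit 9) t4930)))))))))))
noncomputable def l26278 : Lb := (@Lb.r r21 (@Lb.r r70 (@Lb.d (nat_lit 513) (nat_lit 256) (nat_lit 128) (@Lb.g g4 (@Lb.g g11 (@Lb.r r583 (@Lb.r r74 (@Lb.r r25 (@Lb.d (nat_lit 256) (nat_lit 0) (nat_lit 129) (@Lb.fm (nat_lit 3) t1799))))))))))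
noncomputable def l26279 : Lb := (@Lb.r r21 (@Lb.r r70 (@Lb.d (nat_lit 513) (nat_lit 0) (nat_lit 0) (@Lb.g g4 (@Lb.r r74 (@Lb.r r25 (@Lb.d (nat_lit 96) (nat_lit 0) (nat_lit 528) (@Lb.t (@Lb.fm (nat_lit 3) t2504)))))))))
noncomputable def l26280 : Lb := (@Lb.d (nat_lit 4) (nat_lit 514) (nat_lit 130) (@Lb.g g8 (@Lb.g g9 (@Lb.g g10 (@Lb.g g11 (@Lb.r r2122 (@Lb.r r296 (@Lb.r r409 (@Lb.r r1319 (@Lb.r r2564 (@Lb.d (nat_lit 10) (nat_lit 8) (nat_lit 617) (@Lb.fm (nat_lit 9) t119))))))))))))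
noncomputable def l26281 : Lb := (@Lb.d (nat_lit 2) (nat_lit 257) (nat_lit 130) (@Lb.g g8 (@Lb.g g9 (@Lb.g g10 (@Lb.g g11 (@Lb.r r648 (@Lb.r r539 (@Lb.r r405 (@Lb.r r2134 (@Lb.r r1188 (@Lb.d (nat_lit 552) (nat_lit 2) (nat_lit 601) (@Lb.fp (nat_lit 9) t1025))))))))))))
noncomputable def l26282 : Lb := (@Lb.d (nat_lit 390) (nat_lit 417) (nat_lit 424) (@Lb.r r2325 (@Lb.r r2390 (@Lb.g g7 (@Lb.g g5 (@Lb.g g4 (@Lb.d (nat_lit 1) (nat_lit 18) (nat_lit 128) (@Lb.r r578 (@Lb.t (@Lb.fp (nat_lit 9) t501))))))))))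
noncomputable def l26283 : Lb := (@Lb.d (nat_lit 160) (nat_lit 581) (nat_lit 276) (@Lb.r r24 (@Lb.r r2138 (@Lb.r r323 (@Lb.g g7 (@Lb.g g6 (@Lb.g g5 (@Lb.d (nat_lit 4) (nat_lit 1) (nat_lit 133) (@Lb.t (@Lb.fm (nat_lit 9) t2020))))))))))
noncomputable def l26284 : Lb := (@Lb.d (nat_lit 402) (nat_lit 544) (nat_lit 409) (@Lb.r r402 (@Lb.r r2133 (@Lb.r r323 (@Lb.g g7 (@Lb.g g6 (@Lb.g g5 (@Lb.g g4 (@Lb.d (nat_lit 1) (nat_lit 6) (nat_lit 6) (@Lb.fm (nat_lit 9) t501))))))))))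
noncomputable def l26285 : Lb := (@Lb.d (nat_lit 0) (nat_lit 256) (nat_lit 128) (@Lb.g g10 (@Lb.g g11 (@Lb.r r353 (@Lb.r r663 (@Lb.r r356 (@Lb.r r154 (@Lb.d (nat_lit 576) (nat_lit 0) (nat_lit 528) (@Lb.fp (nat_lit 3) t1641)))))))))
noncomputable def l26286 : Lb := (@Lb.d (nat_lit 97) (nat_lit 260) (nat_lit 74) (@Lb.g g8 (@Lb.g g9 (@Lb.g g10 (@Lb.g g11 (@Lb.r r619 (@Lb.r r1610 (@Lb.r r660 (@Lb.r r2473 (@Lb.r r1060 (@Lb.d (nat_lit 26) (nat_lit 168) (nat_lit 402) (@Lb.fp (nat_lit 9) t4964))))))))))))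
noncomputable def l26287 : Lb := (@Lb.d (nat_lit 164) (nat_lit 582) (nat_lit 276) (@Lb.r r24 (@Lb.r r2138 (@Lb.r r323 (@Lb.g g7 (@Lb.g g6 (@Lb.g g5 (@Lb.d (nat_lit 4) (nat_lit 1) (nat_lit 133) (@Lb.t (@Lb.fm (nat_lit 9) t2020))))))))))
noncomputable def l26288 : Lb := (@Lb.r r21 (@Lb.r r70 (@Lb.r r263 (@Lb.d (nat_lit 1) (nat_lit 256) (nat_lit 0) (@Lb.g g4 (@Lb.r r267 (@Lb.r r74 (@Lb.r r25 (@Lb.d (nat_lit 0) (nat_lit 0) (nat_lit 64) (@Lb.t (@Lb.fm (nat_lit 3) t1085)))))))))))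
noncomputable def l26289 : Lb := (@Lb.d (nat_lit 530) (nat_lit 529) (nat_lit 150) (@Lb.r r21 (@Lb.r r386 (@Lb.r r343 (@Lb.g g7 (@Lb.g g6 (@Lb.g g5 (@Lb.g g4 (@Lb.d (nat_lit 8) (nat_lit 0) (nat_lit 65) (@Lb.fm (nat_lit 9) t4965))))))))))
noncomputable def l26290 : Lb := (@Lb.d (nat_lit 0) (nat_lit 320) (nat_lit 640) (@Lb.r r145 (@Lb.r r658 (@Lb.r r675 (@Lb.r r665 (@Lb.g g8 (@Lb.d (nat_lit 9) (nat_lit 0) (nat_lit 0) (@Lb.t (@Lb.fp (nat_lit 3) t573)))))))))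
noncomputable def l26291 : Lb := (@Lb.d (nat_lit 0) (nat_lit 64) (nat_lit 517) (@Lb.r r145 (@Lb.r r658 (@Lb.r r675 (@Lb.r r665 (@Lb.g g8 (@Lb.d (nat_lit 9) (nat_lit 0) (nat_lit 0) (@Lb.t (@Lb.fp (nat_lit 3) t573)))))))))
noncomputable def l26292 : Lb := (@Lb.d (nat_lit 0) (nat_lit 514) (nat_lit 0) (@Lb.g g8 (@Lb.g g9 (@Lb.g g7 (@Lb.r r25 (@Lb.d (nat_lit 9) (nat_lit 10) (nat_lit 68) (@Lb.t (@Lb.fp (nat_lit 9) t21))))))))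
noncomputable def l26293 : Lb := (@Lb.d (nat_lit 0) (nat_lit 514) (nat_lit 0) (@Lb.g g8 (@Lb.g g9 (@Lb.r r1315 (@Lb.r r1122 (@Lb.r r25 (@Lb.r r24 (@Lb.d (nat_lit 264) (nat_lit 2) (nat_lit 0) (@Lb.fp (nat_lit 3) t284)))))))))
noncomputable def l26294 : Lb := (@Lb.d (nat_lit 18) (nat_lit 677) (nat_lit 518) (@Lb.r r20 (@Lb.r r25 (@Lb.r r148 (@Lb.r r386 (@Lb.g g11 (@Lb.g g6 (@Lb.g g5 (@Lb.g g4 (@Lb.d (nat_lit 6) (nat_lit 2) (nat_lit 129) (@Lb.fp (nat_lit 9) t3798)))))))))))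
noncomputable def l26295 : Lb := (@Lb.d (nat_lit 132) (nat_lit 274) (nat_lit 133) (@Lb.r r421 (@Lb.r r134 (@Lb.r r663 (@Lb.r r360 (@Lb.g g5 (@Lb.d (nat_lit 0) (nat_lit 17) (nat_lit 0) (@Lb.t (@Lb.fm (nat_lit 3) t524)))))))))
noncomputable def l26296 : Lb := (@Lb.d (nat_lit 8) (nat_lit 2) (nat_lit 0) (@Lb.g g8 (@Lb.g g9 (@Lb.r r2567 (@Lb.r r150 (@Lb.r r105 (@Lb.r r1288 (@Lb.d (nat_lit 89) (nat_lit 81) (nat_lit 618) (@Lb.fm (nat_lit 3) t826)))))))))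
noncomputable def l26297 : Lb := (@Lb.d (nat_lit 9) (nat_lit 25) (nat_lit 70) (@Lb.r r338 (@Lb.r r165 (@Lb.r r515 (@Lb.g g6 (@Lb.g g8 (@Lb.d (nat_lit 10) (nat_lit 0) (nat_lit 1) (@Lb.r r387 (@Lb.fp (nat_lit 3) t31)))))))))
noncomputable def l26298 : Lb := (@Lb.d (nat_lit 4) (nat_lit 518) (nat_lit 2) (@Lb.r r609 (@Lb.r r619 (@Lb.r r584 (@Lb.r r134 (@Lb.g g7 (@Lb.g g4 (@Lb.d (nat_lit 1) (nat_lit 0) (nat_lit 64) (@Lb.fm (nat_lit 3) t39)))))))))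
noncomputable def l26299 : Lb := (@Lb.d (nat_lit 132) (nat_lit 530) (nat_lit 64) (@Lb.r r421 (@Lb.r r134 (@Lb.r r663 (@Lb.r r360 (@Lb.g g5 (@Lb.d (nat_lit 0) (nat_lit 17) (nat_lit 0) (@Lb.t (@Lb.fm (nat_lit 3) t524)))))))))
noncomputable def l26300 : Lb := (@Lb.d (nat_lit 293) (nat_lit 357) (nat_lit 518) (@Lb.r r1172 (@Lb.r r89 (@Lb.r r386 (@Lb.g g11 (@Lb.g g6 (@Lb.g g4 (@Lb.d (nat_lit 5) (nat_lit 0) (nat_lit 129) (@Lb.t (@Lb.fp (nat_lit 9) t4966))))))))))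
noncomputable def l26301 : Lb := (@Lb.d (nat_lit 33) (nat_lit 426) (nat_lit 518) (@Lb.r r168 (@Lb.r r89 (@Lb.r r386 (@Lb.g g11 (@Lb.g g6 (@Lb.g g4 (@Lb.d (nat_lit 5) (nat_lit 0) (nat_lit 129) (@Lb.t (@Lb.fm (nat_lit 9) t2094))))))))))
noncomputable def l26302 : Lb := (@Lb.d (nat_lit 26) (nat_lit 674) (nat_lit 518) (@Lb.r r20 (@Lb.r r105 (@Lb.r r386 (@Lb.g g11 (@Lb.g g6 (@Lb.g g5 (@Lb.g g4 (@Lb.d (nat_lit 2) (nat_lit 0) (nat_lit 129) (@Lb.fm (nat_lit 9) t842))))))))))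
noncomputable def l26303 : Lb := (@Lb.d (nat_lit 0) (nat_lit 677) (nat_lit 550) (@Lb.r r1044 (@Lb.r r25 (@Lb.r r148 (@Lb.r r386 (@Lb.g g11 (@Lb.g g6 (@Lb.g g5 (@Lb.g g4 (@Lb.d (nat_lit 1) (nat_lit 0) (nat_lit 129) (@Lb.fp (nat_lit 9) t4966)))))))))))
noncomputable def l26304 : Lb := (@Lb.d (nat_lit 129) (nat_lit 514) (nat_lit 130) (@Lb.g g8 (@Lb.g g9 (@Lb.g g10 (@Lb.g g11 (@Lb.r r2411 (@Lb.r r386 (@Lb.r r97 (@Lb.r r532 (@Lb.d (nat_lit 356) (nat_lit 41) (nat_lit 520) (@Lb.fp (nat_lit 9) t31)))))))))))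
noncomputable def l26305 : Lb := (@Lb.d (nat_lit 16) (nat_lit 416) (nat_lit 518) (@Lb.r r24 (@Lb.r r101 (@Lb.r r386 (@Lb.g g11 (@Lb.g g6 (@Lb.g g5 (@Lb.d (nat_lit 0) (nat_lit 0) (nat_lit 129) (@Lb.t (@Lb.fp (nat_lit 9) t1117))))))))))
noncomputable def l26306 : Lb := (@Lb.d (nat_lit 0) (nat_lit 66) (nat_lit 130) (@Lb.g g4 (@Lb.g g9 (@Lb.g g10 (@Lb.g g11 (@Lb.r r2658 (@Lb.r r579 (@Lb.d (nat_lit 0) (nat_lit 97) (nat_lit 586) (@Lb.fp (nat_lit 9) t51)))))))))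
noncomputable def l26307 : Lb := (@Lb.d (nat_lit 677) (nat_lit 38) (nat_lit 680) (@Lb.r r2724 (@Lb.r r2725 (@Lb.r r1366 (@Lb.g g7 (@Lb.g g5 (@Lb.g g4 (@Lb.d (nat_lit 16) (nat_lit 1) (nat_lit 68) (@Lb.r r578 (@Lb.t (@Lb.fm (nat_lit 9) t4967)))))))))))
noncomputable def l26308 : Lb := (@Lb.r r322 (@Lb.d (nat_lit 0) (nat_lit 2) (nat_lit 8) (@Lb.g g9 (@Lb.g g11 (@Lb.r r657 (@Lb.r r146 (@Lb.d (nat_lit 0) (nat_lit 16) (nat_lit 86) (@Lb.fp (nat_lit 3) t590))))))))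
noncomputable def l26309 : Lb := (@Lb.d (nat_lit 0) (nat_lit 36) (nat_lit 133) (@Lb.g g9 (@Lb.g g10 (@Lb.g g11 (@Lb.r r387 (@Lb.r r145 (@Lb.r r1426 (@Lb.d (nat_lit 0) (nat_lit 149) (nat_lit 596) (@Lb.t (@Lb.fp (nat_lit 9) t2686))))))))))
noncomputable def l26310 : Lb := (@Lb.d (nat_lit 0) (nat_lit 521) (nat_lit 130) (@Lb.g g9 (@Lb.g g10 (@Lb.g g11 (@Lb.r r387 (@Lb.r r145 (@Lb.r r402 (@Lb.d (nat_lit 0) (nat_lit 26) (nat_lit 85) (@Lb.t (@Lb.fp (nat_lit 9) t150))))))))))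
noncomputable def l26311 : Lb := (@Lb.r r322 (@Lb.d (nat_lit 0) (nat_lit 289) (nat_lit 128) (@Lb.g g9 (@Lb.g g11 (@Lb.r r610 (@Lb.r r673 (@Lb.d (nat_lit 0) (nat_lit 33) (nat_lit 81) (@Lb.fp (nat_lit 3) t150))))))))
noncomputable def l26312 : Lb := (@Lb.d (nat_lit 0) (nat_lit 266) (nat_lit 73) (@Lb.g g9 (@Lb.g g10 (@Lb.g g11 (@Lb.r r387 (@Lb.r r2146 (@Lb.r r2577 (@Lb.d (nat_lit 0) (nat_lit 20) (nat_lit 325) (@Lb.t (@Lb.fm (nat_lit 9) t475))))))))))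
noncomputable def l26313 : Lb := (@Lb.d (nat_lit 0) (nat_lit 514) (nat_lit 128) (@Lb.g g9 (@Lb.g g10 (@Lb.g g11 (@Lb.r r1671 (@Lb.r r1685 (@Lb.r r2404 (@Lb.r r1178 (@Lb.d (nat_lit 20) (nat_lit 73) (nat_lit 18) (@Lb.t (@Lb.fm (nat_lit 9) t646)))))))))))
noncomputable def l26314 : Lb := (@Lb.d (nat_lit 2) (nat_lit 514) (nat_lit 0) (@Lb.g g8 (@Lb.g g9 (@Lb.r r84 (@Lb.r r41 (@Lb.r r36 (@Lb.d (nat_lit 18) (nat_lit 10) (nat_lit 0) (@Lb.fp (nat_lit 3) t285))))))))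
noncomputable def l26315 : Lb := (@Lb.d (nat_lit 32) (nat_lit 522) (nat_lit 129) (@Lb.g g9 (@Lb.g g10 (@Lb.g g11 (@Lb.r r2695 (@Lb.r r1352 (@Lb.r r2390 (@Lb.r r289 (@Lb.d (nat_lit 665) (nat_lit 73) (nat_lit 362) (@Lb.t (@Lb.fp (nat_lit 9) t98)))))))))))
noncomputable def l26316 : Lb := (@Lb.d (nat_lit 32) (nat_lit 10) (nat_lit 72) (@Lb.g g9 (@Lb.g g10 (@Lb.g g11 (@Lb.r r2695 (@Lb.r r1352 (@Lb.r r2390 (@Lb.r r289 (@Lb.d (nat_lit 665) (nat_lit 73) (nat_lit 362) (@Lb.t (@Lb.fp (nat_lit 9) t98)))))))))))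
noncomputable def l26317 : Lb := (@Lb.d (nat_lit 32) (nat_lit 266) (nat_lit 129) (@Lb.g g9 (@Lb.g g10 (@Lb.g g11 (@Lb.r r2695 (@Lb.r r1352 (@Lb.r r2390 (@Lb.r r289 (@Lb.d (nat_lit 666) (nat_lit 73) (nat_lit 362) (@Lb.t (@Lb.fp (nat_lit 9) t98)))))))))))
noncomputable def l26318 : Lb := (@Lb.d (nat_lit 18) (nat_lit 266) (nat_lit 1) (@Lb.r r70 (@Lb.r r392 (@Lb.r r279 (@Lb.r r593 (@Lb.g g7 (@Lb.g g6 (@Lb.g g5 (@Lb.d (nat_lit 0) (nat_lit 1) (nat_lit 66) (@Lb.t (@Lb.fm (nat_lit 9) t4968)))))))))))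
noncomputable def l26319 : Lb := (@Lb.r r82 (@Lb.d (nat_lit 34) (nat_lit 258) (nat_lit 128) (@Lb.g g8 (@Lb.g g9 (@Lb.g g11 (@Lb.r r363 (@Lb.r r582 (@Lb.r r388 (@Lb.d (nat_lit 98) (nat_lit 8) (nat_lit 18) (@Lb.t (@Lb.fm (nat_lit 9) t390)))))))))))
noncomputable def l26320 : Lb := (@Lb.d (nat_lit 8) (nat_lit 266) (nat_lit 128) (@Lb.g g9 (@Lb.g g11 (@Lb.r r402 (@Lb.r r584 (@Lb.r r2411 (@Lb.r r2401 (@Lb.d (nat_lit 0) (nat_lit 170) (nat_lit 678) (@Lb.fp (nat_lit 3) t825)))))))))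
noncomputable def l26321 : Lb := (@Lb.r r82 (@Lb.r r275 (@Lb.d (nat_lit 34) (nat_lit 282) (nat_lit 0) (@Lb.g g8 (@Lb.g g9 (@Lb.r r427 (@Lb.r r582 (@Lb.r r408 (@Lb.d (nat_lit 137) (nat_lit 25) (nat_lit 153) (@Lb.fp (nat_lit 3) t573))))))))))
noncomputable def l26322 : Lb := (@Lb.r r82 (@Lb.r r275 (@Lb.d (nat_lit 34) (nat_lit 26) (nat_lit 0) (@Lb.g g8 (@Lb.g g9 (@Lb.r r427 (@Lb.r r582 (@Lb.r r408 (@Lb.d (nat_lit 137) (nat_lit 25) (nat_lit 18) (@Lb.fp (nat_lit 3) t573))))))))))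
noncomputable def l26323 : Lb := (@Lb.r r81 (@Lb.r r323 (@Lb.d (nat_lit 10) (nat_lit 512) (nat_lit 33) (@Lb.g g8 (@Lb.g g6 (@Lb.r r149 (@Lb.r r1448 (@Lb.r r2439 (@Lb.d (nat_lit 1) (nat_lit 42) (nat_lit 548) (@Lb.fm (nat_lit 3) t981))))))))))
noncomputable def l26324 : Lb := (@Lb.d (nat_lit 2) (nat_lit 548) (nat_lit 132) (@Lb.g g8 (@Lb.g g9 (@Lb.g g10 (@Lb.g g11 (@Lb.r r297 (@Lb.r r2583 (@Lb.r r420 (@Lb.r r390 (@Lb.d (nat_lit 610) (nat_lit 10) (nat_lit 345) (@Lb.fm (nat_lit 9) t1397)))))))))))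
noncomputable def l26325 : Lb := (@Lb.d (nat_lit 0) (nat_lit 97) (nat_lit 384) (@Lb.r r68 (@Lb.r r2459 (@Lb.r r394 (@Lb.r r424 (@Lb.g g9 (@Lb.d (nat_lit 0) (nat_lit 129) (nat_lit 0) (@Lb.t (@Lb.fp (nat_lit 3) t3046)))))))))
noncomputable def l26326 : Lb := (@Lb.r r322 (@Lb.d (nat_lit 0) (nat_lit 289) (nat_lit 516) (@Lb.g g9 (@Lb.g g7 (@Lb.r r418 (@Lb.r r1441 (@Lb.d (nat_lit 0) (nat_lit 153) (nat_lit 522) (@Lb.fp (nat_lit 3) t4969))))))))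
noncomputable def l26327 : Lb := (@Lb.d (nat_lit 0) (nat_lit 0) (nat_lit 576) (@Lb.r r2129 (@Lb.r r2146 (@Lb.r r609 (@Lb.g g7 (@Lb.d (nat_lit 0) (nat_lit 0) (nat_lit 64) (@Lb.t (@Lb.fp (nat_lit 3) t246))))))))
noncomputable def l26328 : Lb := (@Lb.d (nat_lit 0) (nat_lit 265) (nat_lit 72) (@Lb.g g9 (@Lb.g g10 (@Lb.g g11 (@Lb.r r401 (@Lb.r r611 (@Lb.r r1378 (@Lb.r r2129 (@Lb.d (nat_lit 0) (nat_lit 40) (nat_lit 514) (@Lb.t (@Lb.fp (nat_lit 9) t4970)))))))))))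
noncomputable def l26329 : Lb := (@Lb.r r264 (@Lb.r r1351 (@Lb.r r2178 (@Lb.r r2081 (@Lb.r r2564 (@Lb.d (nat_lit 0) (nat_lit 256) (nat_lit 32) (@Lb.fm (nat_lit 1) t596)))))))
noncomputable def l26330 : Lb := (@Lb.r r323 (@Lb.d (nat_lit 0) (nat_lit 32) (nat_lit 1) (@Lb.g g9 (@Lb.g g10 (@Lb.r r283 (@Lb.r r280 (@Lb.r r149 (@Lb.r r82 (@Lb.d (nat_lit 34) (nat_lit 5) (nat_lit 0) (@Lb.fp (nat_lit 3) t4794))))))))))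
noncomputable def l26331 : Lb := (@Lb.d (nat_lit 0) (nat_lit 582) (nat_lit 0) (@Lb.g g9 (@Lb.r r264 (@Lb.r r1351 (@Lb.r r2178 (@Lb.r r2564 (@Lb.d (nat_lit 0) (nat_lit 65) (nat_lit 17) (@Lb.t (@Lb.fp (nat_lit 3) t216)))))))))
noncomputable def l26332 : Lb := (@Lb.r r264 (@Lb.r r1351 (@Lb.r r2178 (@Lb.r r2081 (@Lb.r r2564 (@Lb.d (nat_lit 0) (nat_lit 5) (nat_lit 33) (@Lb.fm (nat_lit 1) t4971)))))))
noncomputable def l26333 : Lb := (@Lb.d (nat_lit 513) (nat_lit 105) (nat_lit 345) (@Lb.r r1681 (@Lb.r r1691 (@Lb.r r1624 (@Lb.r r2470 (@Lb.g g6 (@Lb.g g5 (@Lb.d (nat_lit 4) (nat_lit 21) (nat_lit 1) (@Lb.r r387 (@Lb.fp (nat_lit 3) t295))))))))))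
noncomputable def l26334 : Lb := (@Lb.d (nat_lit 326) (nat_lit 678) (nat_lit 102) (@Lb.r r410 (@Lb.r r148 (@Lb.r r1365 (@Lb.r r1707 (@Lb.g g7 (@Lb.g g6 (@Lb.g g5 (@Lb.d (nat_lit 16) (nat_lit 0) (nat_lit 1) (@Lb.t (@Lb.fp (nat_lit 9) t119)))))))))))
noncomputable def l26335 : Lb := (@Lb.d (nat_lit 326) (nat_lit 422) (nat_lit 102) (@Lb.r r410 (@Lb.r r148 (@Lb.r r1365 (@Lb.r r1707 (@Lb.g g7 (@Lb.g g6 (@Lb.g g5 (@Lb.d (nat_lit 16) (nat_lit 0) (nat_lit 70) (@Lb.t (@Lb.fp (nat_lit 9) t119)))))))))))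
noncomputable def l26336 : Lb := (@Lb.r r323 (@Lb.d (nat_lit 32) (nat_lit 512) (nat_lit 2) (@Lb.g g10 (@Lb.r r580 (@Lb.r r295 (@Lb.r r289 (@Lb.r r36 (@Lb.d (nat_lit 0) (nat_lit 130) (nat_lit 2) (@Lb.t (@Lb.fm (nat_lit 3) t51))))))))))
noncomputable def l26337 : Lb := (@Lb.r r21 (@Lb.d (nat_lit 2) (nat_lit 0) (nat_lit 66) (@Lb.g g8 (@Lb.g g10 (@Lb.g g7 (@Lb.r r386 (@Lb.r r149 (@Lb.r r72 (@Lb.d (nat_lit 16) (nat_lit 5) (nat_lit 9) (@Lb.t (@Lb.fp (nat_lit 9) t319)))))))))))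
noncomputable def l26338 : Lb := (@Lb.d (nat_lit 2) (nat_lit 258) (nat_lit 66) (@Lb.g g8 (@Lb.g g9 (@Lb.g g10 (@Lb.g g7 (@Lb.r r386 (@Lb.r r97 (@Lb.r r24 (@Lb.d (nat_lit 4) (nat_lit 8) (nat_lit 9) (@Lb.fp (nat_lit 9) t319))))))))))
noncomputable def l26339 : Lb := (@Lb.d (nat_lit 2) (nat_lit 512) (nat_lit 66) (@Lb.g g8 (@Lb.g g10 (@Lb.g g7 (@Lb.r r386 (@Lb.r r2073 (@Lb.r r24 (@Lb.d (nat_lit 21) (nat_lit 66) (nat_lit 42) (@Lb.t (@Lb.fp (nat_lit 9) t962))))))))))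
noncomputable def l26340 : Lb := (@Lb.d (nat_lit 0) (nat_lit 0) (nat_lit 66) (@Lb.g g8 (@Lb.g g10 (@Lb.g g7 (@Lb.r r386 (@Lb.d (nat_lit 10) (nat_lit 4) (nat_lit 10) (@Lb.t (@Lb.fm (nat_lit 9) t45))))))))
noncomputable def l26341 : Lb := (@Lb.d (nat_lit 0) (nat_lit 2) (nat_lit 66) (@Lb.g g8 (@Lb.g g9 (@Lb.g g10 (@Lb.g g7 (@Lb.r r386 (@Lb.r r100 (@Lb.r r1125 (@Lb.d (nat_lit 534) (nat_lit 9) (nat_lit 25) (@Lb.fm (nat_lit 9) t2893))))))))))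
noncomputable def l26342 : Lb := (@Lb.r r21 (@Lb.r r323 (@Lb.d (nat_lit 2) (nat_lit 512) (nat_lit 1) (@Lb.g g8 (@Lb.g g6 (@Lb.r r387 (@Lb.r r149 (@Lb.r r72 (@Lb.d (nat_lit 16) (nat_lit 5) (nat_lit 66) (@Lb.fm (nat_lit 3) t319))))))))))
noncomputable def l26343 : Lb := (@Lb.r r323 (@Lb.d (nat_lit 0) (nat_lit 512) (nat_lit 18) (@Lb.g g10 (@Lb.r r408 (@Lb.r r533 (@Lb.r r1303 (@Lb.r r2596 (@Lb.d (nat_lit 0) (nat_lit 0) (nat_lit 69) (@Lb.t (@Lb.fm (nat_lit 3) t100))))))))))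
noncomputable def l26344 : Lb := (@Lb.r r150 (@Lb.r r360 (@Lb.r r407 (@Lb.r r2145 (@Lb.d (nat_lit 0) (nat_lit 16) (nat_lit 64) (@Lb.fm (nat_lit 1) t327))))))
noncomputable def l26345 : Lb := (@Lb.d (nat_lit 258) (nat_lit 136) (nat_lit 0) (@Lb.r r21 (@Lb.r r1158 (@Lb.r r2376 (@Lb.r r423 (@Lb.g g7 (@Lb.g g5 (@Lb.d (nat_lit 0) (nat_lit 1) (nat_lit 64) (@Lb.fm (nat_lit 3) t2033)))))))))
noncomputable def l26346 : Lb := (@Lb.d (nat_lit 294) (nat_lit 513) (nat_lit 64) (@Lb.r r2194 (@Lb.r r101 (@Lb.r r1304 (@Lb.g g7 (@Lb.g g6 (@Lb.d (nat_lit 64) (nat_lit 32) (nat_lit 576) (@Lb.fp (nat_lit 3) t152))))))))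
noncomputable def l26347 : Lb := (@Lb.d (nat_lit 0) (nat_lit 581) (nat_lit 33) (@Lb.r r1105 (@Lb.r r2214 (@Lb.r r1368 (@Lb.r r1575 (@Lb.g g5 (@Lb.r r98 (@Lb.t (@Lb.fp (nat_lit 3) t71)))))))))
noncomputable def l26348 : Lb := (@Lb.d (nat_lit 0) (nat_lit 522) (nat_lit 0) (@Lb.g g5 (@Lb.r r2154 (@Lb.r r2660 (@Lb.r r535 (@Lb.r r289 (@Lb.d (nat_lit 0) (nat_lit 82) (nat_lit 128) (@Lb.t (@Lb.fm (nat_lit 3) t591)))))))))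
noncomputable def l26349 : Lb := (@Lb.d (nat_lit 8) (nat_lit 2) (nat_lit 0) (@Lb.g g9 (@Lb.r r1194 (@Lb.r r1700 (@Lb.r r1687 (@Lb.r r2401 (@Lb.d (nat_lit 0) (nat_lit 90) (nat_lit 266) (@Lb.t (@Lb.fm (nat_lit 3) t334)))))))))
noncomputable def l26350 : Lb := (@Lb.r r81 (@Lb.d (nat_lit 138) (nat_lit 256) (nat_lit 41) (@Lb.g g8 (@Lb.g g6 (@Lb.r r661 (@Lb.r r663 (@Lb.r r360 (@Lb.d (nat_lit 533) (nat_lit 42) (nat_lit 548) (@Lb.fp (nat_lit 3) t580)))))))))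
noncomputable def l26351 : Lb := (@Lb.d (nat_lit 101) (nat_lit 426) (nat_lit 644) (@Lb.r r90 (@Lb.r r72 (@Lb.r r297 (@Lb.g g11 (@Lb.g g6 (@Lb.g g5 (@Lb.d (nat_lit 16) (nat_lit 1) (nat_lit 1) (@Lb.t (@Lb.fm (nat_lit 9) t1137))))))))))
noncomputable def l26352 : Lb := (@Lb.r r323 (@Lb.d (nat_lit 0) (nat_lit 517) (nat_lit 42) (@Lb.g g9 (@Lb.g g6 (@Lb.r r387 (@Lb.r r1317 (@Lb.r r24 (@Lb.d (nat_lit 642) (nat_lit 0) (nat_lit 16) (@Lb.fp (nat_lit 3) t41)))))))))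
noncomputable def l26353 : Lb := (@Lb.r r81 (@Lb.d (nat_lit 128) (nat_lit 260) (nat_lit 130) (@Lb.g g6 (@Lb.g g11 (@Lb.r r297 (@Lb.r r292 (@Lb.r r411 (@Lb.d (nat_lit 169) (nat_lit 26) (nat_lit 136) (@Lb.fm (nat_lit 3) t68)))))))))
noncomputable def l26354 : Lb := (@Lb.d (nat_lit 0) (nat_lit 17) (nat_lit 585) (@Lb.g g9 (@Lb.g g10 (@Lb.g g7 (@Lb.r r386 (@Lb.r r1125 (@Lb.r r24 (@Lb.d (nat_lit 546) (nat_lit 0) (nat_lit 25) (@Lb.t (@Lb.fm (nat_lit 9) t41))))))))))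
noncomputable def l26355 : Lb := (@Lb.d (nat_lit 0) (nat_lit 512) (nat_lit 9) (@Lb.g g9 (@Lb.g g10 (@Lb.g g7 (@Lb.r r386 (@Lb.r r101 (@Lb.r r24 (@Lb.d (nat_lit 34) (nat_lit 0) (nat_lit 137) (@Lb.t (@Lb.fm (nat_lit 9) t40))))))))))
noncomputable def l26356 : Lb := (@Lb.d (nat_lit 530) (nat_lit 288) (nat_lit 170) (@Lb.r r410 (@Lb.r r613 (@Lb.r r299 (@Lb.r r264 (@Lb.g g7 (@Lb.g g6 (@Lb.g g5 (@Lb.d (nat_lit 80) (nat_lit 0) (nat_lit 65) (@Lb.t (@Lb.fm (nat_lit 9) t406)))))))))))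
noncomputable def l26357 : Lb := (@Lb.r r323 (@Lb.d (nat_lit 129) (nat_lit 72) (nat_lit 2) (@Lb.g g8 (@Lb.g g5 (@Lb.g g10 (@Lb.r r359 (@Lb.r r146 (@Lb.r r580 (@Lb.d (nat_lit 146) (nat_lit 138) (nat_lit 154) (@Lb.t (@Lb.fm (nat_lit 9) t892)))))))))))
noncomputable def l26358 : Lb := (@Lb.d (nat_lit 128) (nat_lit 513) (nat_lit 130) (@Lb.g g9 (@Lb.g g10 (@Lb.g g11 (@Lb.r r610 (@Lb.r r36 (@Lb.r r613 (@Lb.r r2663 (@Lb.d (nat_lit 70) (nat_lit 89) (nat_lit 18) (@Lb.t (@Lb.fm (nat_lit 9) t312)))))))))))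
noncomputable def l26359 : Lb := (@Lb.r r70 (@Lb.r r263 (@Lb.d (nat_lit 2) (nat_lit 578) (nat_lit 0) (@Lb.g g8 (@Lb.g g9 (@Lb.r r2347 (@Lb.r r2154 (@Lb.r r2084 (@Lb.d (nat_lit 2) (nat_lit 66) (nat_lit 0) (@Lb.fm (nat_lit 3) t1605))))))))))
noncomputable def l26360 : Lb := (@Lb.r r323 (@Lb.d (nat_lit 32) (nat_lit 265) (nat_lit 1) (@Lb.g g8 (@Lb.g g9 (@Lb.g g10 (@Lb.r r1689 (@Lb.r r1563 (@Lb.r r2634 (@Lb.r r1540 (@Lb.d (nat_lit 258) (nat_lit 0) (nat_lit 344) (@Lb.t (@Lb.fp (nat_lit 9) t1328))))))))))))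
noncomputable def l26361 : Lb := (@Lb.d (nat_lit 262) (nat_lit 582) (nat_lit 17) (@Lb.r r2129 (@Lb.r r166 (@Lb.r r344 (@Lb.r r679 (@Lb.g g7 (@Lb.g g6 (@Lb.g g5 (@Lb.d (nat_lit 0) (nat_lit 5) (nat_lit 134) (@Lb.t (@Lb.fm (nat_lit 9) t356)))))))))))
noncomputable def l26362 : Lb := (@Lb.d (nat_lit 5) (nat_lit 256) (nat_lit 72) (@Lb.g g4 (@Lb.g g11 (@Lb.d (nat_lit 1) (nat_lit 1) (nat_lit 160) (@Lb.fp (nat_lit 3) t2)))))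
noncomputable def l26363 : Lb := (@Lb.d (nat_lit 0) (nat_lit 512) (nat_lit 161) (@Lb.g g9 (@Lb.g g6 (@Lb.g g11 (@Lb.r r579 (@Lb.r r101 (@Lb.r r24 (@Lb.d (nat_lit 34) (nat_lit 0) (nat_lit 16) (@Lb.t (@Lb.fm (nat_lit 9) t40))))))))))
noncomputable def l26364 : Lb := (@Lb.d (nat_lit 0) (nat_lit 5) (nat_lit 0) (@Lb.g g9 (@Lb.g g10 (@Lb.g g7 (@Lb.r r386 (@Lb.r r2661 (@Lb.r r24 (@Lb.d (nat_lit 354) (nat_lit 0) (nat_lit 9) (@Lb.t (@Lb.fm (nat_lit 9) t42))))))))))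
noncomputable def l26365 : Lb := (@Lb.d (nat_lit 0) (nat_lit 0) (nat_lit 10) (@Lb.g g9 (@Lb.g g10 (@Lb.g g11 (@Lb.r r679 (@Lb.r r344 (@Lb.r r166 (@Lb.r r1169 (@Lb.d (nat_lit 520) (nat_lit 137) (nat_lit 34) (@Lb.t (@Lb.fp (nat_lit 9) t51)))))))))))
noncomputable def l26366 : Lb := (@Lb.d (nat_lit 0) (nat_lit 256) (nat_lit 5) (@Lb.g g9 (@Lb.g g10 (@Lb.g g11 (@Lb.r r679 (@Lb.r r340 (@Lb.r r170 (@Lb.r r1169 (@Lb.d (nat_lit 262) (nat_lit 137) (nat_lit 34) (@Lb.t (@Lb.fm (nat_lit 9) t51)))))))))))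
noncomputable def l26367 : Lb := (@Lb.d (nat_lit 0) (nat_lit 256) (nat_lit 74) (@Lb.g g9 (@Lb.g g10 (@Lb.g g11 (@Lb.r r679 (@Lb.r r344 (@Lb.r r166 (@Lb.r r1169 (@Lb.d (nat_lit 521) (nat_lit 137) (nat_lit 34) (@Lb.t (@Lb.fp (nat_lit 9) t51)))))))))))
noncomputable def l26368 : Lb := (@Lb.d (nat_lit 33) (nat_lit 0) (nat_lit 128) (@Lb.g g8 (@Lb.g g11 (@Lb.r r2665 (@Lb.r r363 (@Lb.r r582 (@Lb.r r2180 (@Lb.d (nat_lit 546) (nat_lit 169) (nat_lit 38) (@Lb.fp (nat_lit 3) t1081)))))))))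
noncomputable def l26369 : Lb := (@Lb.d (nat_lit 81) (nat_lit 86) (nat_lit 585) (@Lb.r r361 (@Lb.r r292 (@Lb.r r426 (@Lb.g g11 (@Lb.g g6 (@Lb.g g5 (@Lb.d (nat_lit 4) (nat_lit 17) (nat_lit 257) (@Lb.t (@Lb.fm (nat_lit 9) t47))))))))))
noncomputable def l26370 : Lb := (@Lb.r r82 (@Lb.d (nat_lit 2) (nat_lit 522) (nat_lit 128) (@Lb.g g8 (@Lb.g g9 (@Lb.g g11 (@Lb.r r402 (@Lb.r r1607 (@Lb.r r1685 (@Lb.r r2436 (@Lb.d (nat_lit 322) (nat_lit 134) (nat_lit 545) (@Lb.t (@Lb.fm (nat_lit 9) t2019))))))))))))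
noncomputable def l26371 : Lb := (@Lb.d (nat_lit 6) (nat_lit 518) (nat_lit 33) (@Lb.r r81 (@Lb.r r102 (@Lb.r r593 (@Lb.r r339 (@Lb.g g7 (@Lb.g g6 (@Lb.g g5 (@Lb.g g4 (@Lb.d (nat_lit 1) (nat_lit 0) (nat_lit 65) (@Lb.fp (nat_lit 9) t1185)))))))))))
noncomputable def l26372 : Lb := (@Lb.r r323 (@Lb.d (nat_lit 8) (nat_lit 42) (nat_lit 2) (@Lb.g g9 (@Lb.g g10 (@Lb.r r2470 (@Lb.r r1624 (@Lb.r r1691 (@Lb.r r2385 (@Lb.d (nat_lit 258) (nat_lit 150) (nat_lit 678) (@Lb.fp (nat_lit 3) t74))))))))))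
noncomputable def l26373 : Lb := (@Lb.r r323 (@Lb.d (nat_lit 0) (nat_lit 512) (nat_lit 1) (@Lb.g g9 (@Lb.g g6 (@Lb.r r515 (@Lb.r r101 (@Lb.r r24 (@Lb.d (nat_lit 34) (nat_lit 0) (nat_lit 84) (@Lb.fm (nat_lit 3) t40)))))))))
noncomputable def l26374 : Lb := (@Lb.d (nat_lit 0) (nat_lit 512) (nat_lit 130) (@Lb.g g9 (@Lb.g g10 (@Lb.g g11 (@Lb.r r642 (@Lb.r r387 (@Lb.r r101 (@Lb.r r24 (@Lb.d (nat_lit 34) (nat_lit 0) (nat_lit 89) (@Lb.t (@Lb.fp (nat_lit 9) t40)))))))))))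
noncomputable def l26375 : Lb := (@Lb.d (nat_lit 0) (nat_lit 256) (nat_lit 130) (@Lb.g g9 (@Lb.g g10 (@Lb.g g11 (@Lb.r r642 (@Lb.r r387 (@Lb.r r101 (@Lb.r r24 (@Lb.d (nat_lit 34) (nat_lit 0) (nat_lit 146) (@Lb.t (@Lb.fp (nat_lit 9) t40)))))))))))
noncomputable def l26376 : Lb := (@Lb.d (nat_lit 130) (nat_lit 162) (nat_lit 336) (@Lb.r r24 (@Lb.r r2325 (@Lb.r r355 (@Lb.g g10 (@Lb.g g5 (@Lb.d (nat_lit 0) (nat_lit 17) (nat_lit 34) (@Lb.r r387 (@Lb.fm (nat_lit 3) t1444)))))))))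
noncomputable def l26377 : Lb := (@Lb.d (nat_lit 80) (nat_lit 162) (nat_lit 86) (@Lb.r r24 (@Lb.r r1178 (@Lb.r r2389 (@Lb.r r1699 (@Lb.g g7 (@Lb.g g6 (@Lb.g g5 (@Lb.d (nat_lit 0) (nat_lit 1) (nat_lit 134) (@Lb.t (@Lb.fm (nat_lit 9) t221)))))))))))
noncomputable def l26378 : Lb := (@Lb.r r21 (@Lb.d (nat_lit 2) (nat_lit 256) (nat_lit 66) (@Lb.g g8 (@Lb.g g10 (@Lb.g g7 (@Lb.r r386 (@Lb.r r97 (@Lb.r r72 (@Lb.d (nat_lit 34) (nat_lit 10) (nat_lit 8) (@Lb.t (@Lb.fm (nat_lit 9) t40)))))))))))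
noncomputable def l26379 : Lb := (@Lb.d (nat_lit 2) (nat_lit 521) (nat_lit 128) (@Lb.g g8 (@Lb.g g9 (@Lb.g g11 (@Lb.r r146 (@Lb.r r2401 (@Lb.r r2587 (@Lb.r r2564 (@Lb.d (nat_lit 424) (nat_lit 2) (nat_lit 417) (@Lb.t (@Lb.fp (nat_lit 9) t441)))))))))))
noncomputable def l26380 : Lb := (@Lb.d (nat_lit 80) (nat_lit 674) (nat_lit 152) (@Lb.r r24 (@Lb.r r1178 (@Lb.r r2389 (@Lb.r r1699 (@Lb.g g7 (@Lb.g g6 (@Lb.g g5 (@Lb.d (nat_lit 0) (nat_lit 1) (nat_lit 134) (@Lb.t (@Lb.fm (nat_lit 9) t221)))))))))))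
noncomputable def l26381 : Lb := (@Lb.d (nat_lit 6) (nat_lit 518) (nat_lit 33) (@Lb.r r2202 (@Lb.r r2708 (@Lb.r r2645 (@Lb.r r1703 (@Lb.g g6 (@Lb.g g5 (@Lb.r r387 (@Lb.fm (nat_lit 3) t4972)))))))))
noncomputable def l26382 : Lb := (@Lb.d (nat_lit 537) (nat_lit 265) (nat_lit 16) (@Lb.r r168 (@Lb.r r89 (@Lb.r r402 (@Lb.r r1379 (@Lb.g g7 (@Lb.g g6 (@Lb.g g4 (@Lb.d (nat_lit 5) (nat_lit 0) (nat_lit 0) (@Lb.t (@Lb.fp (nat_lit 9) t4973)))))))))))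
noncomputable def l26383 : Lb := (@Lb.d (nat_lit 8) (nat_lit 2) (nat_lit 64) (@Lb.g g9 (@Lb.g g11 (@Lb.r r24 (@Lb.r r101 (@Lb.r r658 (@Lb.r r2707 (@Lb.d (nat_lit 10) (nat_lit 148) (nat_lit 617) (@Lb.fm (nat_lit 3) t4974)))))))))
noncomputable def l26384 : Lb := (@Lb.r r323 (@Lb.d (nat_lit 8) (nat_lit 554) (nat_lit 2) (@Lb.g g9 (@Lb.g g10 (@Lb.r r1190 (@Lb.r r1624 (@Lb.r r1691 (@Lb.r r2385 (@Lb.d (nat_lit 260) (nat_lit 148) (nat_lit 678) (@Lb.fp (nat_lit 3) t125))))))))))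
noncomputable def l26385 : Lb := (@Lb.d (nat_lit 0) (nat_lit 0) (nat_lit 2) (@Lb.g g9 (@Lb.g g10 (@Lb.g g11 (@Lb.r r642 (@Lb.r r387 (@Lb.r r101 (@Lb.r r24 (@Lb.d (nat_lit 34) (nat_lit 0) (nat_lit 146) (@Lb.t (@Lb.fp (nat_lit 9) t40)))))))))))
noncomputable def l26386 : Lb := (@Lb.d (nat_lit 10) (nat_lit 512) (nat_lit 5) (@Lb.g g8 (@Lb.g g6 (@Lb.g g11 (@Lb.r r2659 (@Lb.r r149 (@Lb.r r168 (@Lb.d (nat_lit 149) (nat_lit 6) (nat_lit 389) (@Lb.t (@Lb.fp (nat_lit 9) t592))))))))))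
noncomputable def l26387 : Lb := (@Lb.d (nat_lit 0) (nat_lit 288) (nat_lit 130) (@Lb.g g9 (@Lb.g g10 (@Lb.g g11 (@Lb.r r657 (@Lb.r r531 (@Lb.r r386 (@Lb.d (nat_lit 0) (nat_lit 34) (nat_lit 73) (@Lb.t (@Lb.fm (nat_lit 9) t892))))))))))
noncomputable def l26388 : Lb := (@Lb.d (nat_lit 0) (nat_lit 256) (nat_lit 2) (@Lb.g g9 (@Lb.g g10 (@Lb.g g11 (@Lb.r r419 (@Lb.r r98 (@Lb.d (nat_lit 0) (nat_lit 9) (nat_lit 137) (@Lb.t (@Lb.fm (nat_lit 9) t51)))))))))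
noncomputable def l26389 : Lb := (@Lb.d (nat_lit 8) (nat_lit 9) (nat_lit 72) (@Lb.g g8 (@Lb.g g9 (@Lb.g g10 (@Lb.g g11 (@Lb.r r2691 (@Lb.r r2345 (@Lb.r r360 (@Lb.r r582 (@Lb.r r2180 (@Lb.d (nat_lit 641) (nat_lit 10) (nat_lit 89) (@Lb.fm (nat_lit 9) t98))))))))))))
noncomputable def l26390 : Lb := (@Lb.d (nat_lit 8) (nat_lit 265) (nat_lit 129) (@Lb.g g8 (@Lb.g g9 (@Lb.g g10 (@Lb.g g11 (@Lb.r r2691 (@Lb.r r2345 (@Lb.r r360 (@Lb.r r582 (@Lb.r r2180 (@Lb.d (nat_lit 642) (nat_lit 10) (nat_lit 89) (@Lb.fm (nat_lit 9) t98))))))))))))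
noncomputable def l26391 : Lb := (@Lb.d (nat_lit 0) (nat_lit 514) (nat_lit 130) (@Lb.g g8 (@Lb.g g9 (@Lb.g g10 (@Lb.g g11 (@Lb.r r2691 (@Lb.r r2665 (@Lb.r r1686 (@Lb.r r1124 (@Lb.d (nat_lit 665) (nat_lit 138) (nat_lit 345) (@Lb.fm (nat_lit 9) t836)))))))))))
noncomputable def l26392 : Lb := (@Lb.d (nat_lit 0) (nat_lit 2) (nat_lit 130) (@Lb.g g8 (@Lb.g g9 (@Lb.g g10 (@Lb.g g11 (@Lb.r r2691 (@Lb.r r88 (@Lb.r r1173 (@Lb.r r1622 (@Lb.r r1188 (@Lb.d (nat_lit 641) (nat_lit 0) (nat_lit 345) (@Lb.fp (nat_lit 9) t1558))))))))))))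
noncomputable def l26393 : Lb := (@Lb.d (nat_lit 0) (nat_lit 512) (nat_lit 66) (@Lb.g g9 (@Lb.g g10 (@Lb.g g7 (@Lb.r r386 (@Lb.r r2145 (@Lb.r r36 (@Lb.d (nat_lit 4) (nat_lit 72) (nat_lit 41) (@Lb.t (@Lb.fp (nat_lit 9) t319))))))))))
noncomputable def l26394 : Lb := (@Lb.r r323 (@Lb.d (nat_lit 33) (nat_lit 258) (nat_lit 2) (@Lb.g g8 (@Lb.g g9 (@Lb.g g10 (@Lb.r r2666 (@Lb.r r2391 (@Lb.r r1577 (@Lb.r r1556 (@Lb.d (nat_lit 388) (nat_lit 2) (nat_lit 256) (@Lb.t (@Lb.fp (nat_lit 9) t842))))))))))))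
noncomputable def l26395 : Lb := (@Lb.r r21 (@Lb.d (nat_lit 16) (nat_lit 0) (nat_lit 128) (@Lb.g g8 (@Lb.g g10 (@Lb.g g11 (@Lb.r r648 (@Lb.r r395 (@Lb.r r74 (@Lb.r r25 (@Lb.d (nat_lit 98) (nat_lit 0) (nat_lit 137) (@Lb.t (@Lb.fp (nat_lit 9) t68))))))))))))
noncomputable def l26396 : Lb := (@Lb.d (nat_lit 2) (nat_lit 546) (nat_lit 130) (@Lb.g g8 (@Lb.g g9 (@Lb.g g10 (@Lb.g g11 (@Lb.r r2217 (@Lb.r r2340 (@Lb.r r1419 (@Lb.r r386 (@Lb.d (nat_lit 544) (nat_lit 10) (nat_lit 321) (@Lb.fp (nat_lit 9) t3278)))))))))))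
noncomputable def l26397 : Lb := (@Lb.d (nat_lit 0) (nat_lit 294) (nat_lit 405) (@Lb.r r417 (@Lb.r r2466 (@Lb.g g7 (@Lb.g g9 (@Lb.d (nat_lit 0) (nat_lit 5) (nat_lit 0) (@Lb.fp (nat_lit 3) t246)))))))
noncomputable def l26398 : Lb := (@Lb.d (nat_lit 0) (nat_lit 514) (nat_lit 2) (@Lb.g g9 (@Lb.g g10 (@Lb.r r2595 (@Lb.r r386 (@Lb.r r2657 (@Lb.d (nat_lit 0) (nat_lit 153) (nat_lit 394) (@Lb.fp (nat_lit 3) t3354))))))))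
noncomputable def l26399 : Lb := (@Lb.d (nat_lit 0) (nat_lit 20) (nat_lit 617) (@Lb.g g6 (@Lb.g g7 (@Lb.d (nat_lit 0) (nat_lit 148) (nat_lit 641) (@Lb.fm (nat_lit 3) t356)))))
noncomputable def l26400 : Lb := (@Lb.d (nat_lit 0) (nat_lit 2) (nat_lit 2) (@Lb.g g9 (@Lb.g g10 (@Lb.g g11 (@Lb.r r1699 (@Lb.r r386 (@Lb.r r97 (@Lb.d (nat_lit 0) (nat_lit 41) (nat_lit 521) (@Lb.t (@Lb.fp (nat_lit 9) t4975))))))))))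
noncomputable def l26401 : Lb := (@Lb.d (nat_lit 0) (nat_lit 2) (nat_lit 2) (@Lb.g g9 (@Lb.g g10 (@Lb.g g11 (@Lb.r r1699 (@Lb.r r386 (@Lb.r r2657 (@Lb.d (nat_lit 0) (nat_lit 153) (nat_lit 549) (@Lb.t (@Lb.fp (nat_lit 9) t4604))))))))))
noncomputable def l26402 : Lb := (@Lb.d (nat_lit 0) (nat_lit 2) (nat_lit 66) (@Lb.g g9 (@Lb.g g10 (@Lb.g g11 (@Lb.r r1443 (@Lb.r r386 (@Lb.r r148 (@Lb.r r25 (@Lb.d (nat_lit 330) (nat_lit 36) (nat_lit 416) (@Lb.t (@Lb.fp (nat_lit 9) t2734)))))))))))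
noncomputable def l26403 : Lb := (@Lb.d (nat_lit 9) (nat_lit 513) (nat_lit 73) (@Lb.g g8 (@Lb.g g9 (@Lb.g g10 (@Lb.g g11 (@Lb.r r1699 (@Lb.r r164 (@Lb.r r2709 (@Lb.r r2198 (@Lb.r r2084 (@Lb.d (nat_lit 289) (nat_lit 162) (nat_lit 292) (@Lb.fp (nat_lit 9) t791))))))))))))
noncomputable def l26404 : Lb := (@Lb.d (nat_lit 2) (nat_lit 2) (nat_lit 73) (@Lb.g g8 (@Lb.g g9 (@Lb.g g10 (@Lb.g g11 (@Lb.r r1699 (@Lb.r r164 (@Lb.r r2709 (@Lb.r r2198 (@Lb.r r2084 (@Lb.d (nat_lit 289) (nat_lit 162) (nat_lit 361) (@Lb.fp (nat_lit 9) t791))))))))))))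
noncomputable def l26405 : Lb := (@Lb.d (nat_lit 5) (nat_lit 513) (nat_lit 0) (@Lb.r r134 (@Lb.r r328 (@Lb.r r535 (@Lb.r r289 (@Lb.g g6 (@Lb.t (@Lb.fm (nat_lit 3) t51))))))))
noncomputable def l26406 : Lb := (@Lb.d (nat_lit 128) (nat_lit 264) (nat_lit 130) (@Lb.g g10 (@Lb.g g11 (@Lb.r r361 (@Lb.r r292 (@Lb.r r539 (@Lb.r r134 (@Lb.d (nat_lit 105) (nat_lit 34) (nat_lit 145) (@Lb.fp (nat_lit 3) t2)))))))))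
noncomputable def l26407 : Lb := (@Lb.r r323 (@Lb.d (nat_lit 2) (nat_lit 521) (nat_lit 0) (@Lb.g g8 (@Lb.g g9 (@Lb.g g6 (@Lb.r r515 (@Lb.r r2153 (@Lb.r r36 (@Lb.d (nat_lit 297) (nat_lit 2) (nat_lit 68) (@Lb.t (@Lb.fp (nat_lit 9) t647)))))))))))
noncomputable def l26408 : Lb := (@Lb.r r21 (@Lb.r r70 (@Lb.d (nat_lit 10) (nat_lit 256) (nat_lit 0) (@Lb.g g8 (@Lb.r r1301 (@Lb.r r2603 (@Lb.r r1674 (@Lb.r r2568 (@Lb.d (nat_lit 602) (nat_lit 128) (nat_lit 293) (@Lb.t (@Lb.fm (nat_lit 3) t2165)))))))))))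
noncomputable def l26409 : Lb := (@Lb.r r323 (@Lb.d (nat_lit 130) (nat_lit 290) (nat_lit 2) (@Lb.g g8 (@Lb.g g9 (@Lb.g g10 (@Lb.r r263 (@Lb.r r358 (@Lb.r r536 (@Lb.d (nat_lit 409) (nat_lit 85) (nat_lit 386) (@Lb.t (@Lb.fp (nat_lit 9) t2164)))))))))))
noncomputable def l26410 : Lb := (@Lb.d (nat_lit 0) (nat_lit 10) (nat_lit 128) (@Lb.g g9 (@Lb.g g11 (@Lb.r r582 (@Lb.r r408 (@Lb.r r615 (@Lb.r r533 (@Lb.d (nat_lit 2) (nat_lit 26) (nat_lit 22) (@Lb.fm (nat_lit 3) t4976)))))))))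
noncomputable def l26411 : Lb := (@Lb.r r323 (@Lb.d (nat_lit 128) (nat_lit 514) (nat_lit 2) (@Lb.g g8 (@Lb.g g9 (@Lb.g g10 (@Lb.r r1559 (@Lb.r r153 (@Lb.r r602 (@Lb.r r2136 (@Lb.d (nat_lit 681) (nat_lit 134) (nat_lit 617) (@Lb.t (@Lb.fm (nat_lit 9) t1644))))))))))))
noncomputable def l26412 : Lb := (@Lb.d (nat_lit 530) (nat_lit 517) (nat_lit 72) (@Lb.r r2182 (@Lb.r r1108 (@Lb.r r1305 (@Lb.g g7 (@Lb.g g6 (@Lb.g g4 (@Lb.d (nat_lit 1) (nat_lit 32) (nat_lit 577) (@Lb.r r401 (@Lb.t (@Lb.fm (nat_lit 9) t3748)))))))))))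
noncomputable def l26413 : Lb := (@Lb.d (nat_lit 512) (nat_lit 512) (nat_lit 384) (@Lb.r r2120 (@Lb.r r89 (@Lb.r r1414 (@Lb.g g11 (@Lb.t (@Lb.fp (nat_lit 3) t2882)))))))
noncomputable def l26414 : Lb := (@Lb.d (nat_lit 10) (nat_lit 256) (nat_lit 129) (@Lb.r r289 (@Lb.r r535 (@Lb.r r328 (@Lb.g g6 (@Lb.d (nat_lit 16) (nat_lit 0) (nat_lit 9) (@Lb.t (@Lb.fp (nat_lit 3) t4977))))))))
noncomputable def l26415 : Lb := (@Lb.d (nat_lit 2) (nat_lit 258) (nat_lit 66) (@Lb.g g8 (@Lb.g g9 (@Lb.g g10 (@Lb.g g7 (@Lb.r r386 (@Lb.r r97 (@Lb.r r24 (@Lb.d (nat_lit 10) (nat_lit 9) (nat_lit 73) (@Lb.fp (nat_lit 9) t40))))))))))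
noncomputable def l26416 : Lb := (@Lb.r r24 (@Lb.r r101 (@Lb.r r402 (@Lb.d (nat_lit 0) (nat_lit 0) (nat_lit 21) (@Lb.fm (nat_lit 1) t590)))))
noncomputable def l26417 : Lb := (@Lb.d (nat_lit 97) (nat_lit 553) (nat_lit 72) (@Lb.r r583 (@Lb.r r360 (@Lb.r r89 (@Lb.g g7 (@Lb.g g10 (@Lb.g g4 (@Lb.d (nat_lit 5) (nat_lit 16) (nat_lit 66) (@Lb.r r145 (@Lb.t (@Lb.fm (nat_lit 9) t145)))))))))))
noncomputable def l26418 : Lb := (@Lb.d (nat_lit 548) (nat_lit 326) (nat_lit 416) (@Lb.r r2120 (@Lb.r r97 (@Lb.r r1414 (@Lb.g g11 (@Lb.g g5 (@Lb.d (nat_lit 0) (nat_lit 1) (nat_lit 0) (@Lb.fm (nat_lit 3) t4978))))))))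
noncomputable def l26419 : Lb := (@Lb.d (nat_lit 298) (nat_lit 581) (nat_lit 0) (@Lb.r r1113 (@Lb.r r2136 (@Lb.g g7 (@Lb.g g6 (@Lb.g g5 (@Lb.d (nat_lit 4) (nat_lit 6) (nat_lit 1) (@Lb.t (@Lb.fm (nat_lit 9) t1219)))))))))
noncomputable def l26420 : Lb := (@Lb.d (nat_lit 10) (nat_lit 512) (nat_lit 130) (@Lb.g g8 (@Lb.g g10 (@Lb.g g11 (@Lb.r r1109 (@Lb.r r2658 (@Lb.r r2436 (@Lb.d (nat_lit 610) (nat_lit 25) (nat_lit 613) (@Lb.t (@Lb.fm (nat_lit 9) t652))))))))))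
noncomputable def l26421 : Lb := (@Lb.d (nat_lit 0) (nat_lit 256) (nat_lit 72) (@Lb.g g8 (@Lb.g g11 (@Lb.d (nat_lit 1) (nat_lit 0) (nat_lit 106) (@Lb.fm (nat_lit 3) t2)))))
noncomputable def l26422 : Lb := (@Lb.d (nat_lit 42) (nat_lit 512) (nat_lit 128) (@Lb.g g8 (@Lb.g g11 (@Lb.r r614 (@Lb.r r1637 (@Lb.r r1428 (@Lb.d (nat_lit 358) (nat_lit 0) (nat_lit 394) (@Lb.fp (nat_lit 3) t2992))))))))
noncomputable def l26423 : Lb := (@Lb.d (nat_lit 0) (nat_lit 514) (nat_lit 130) (@Lb.g g8 (@Lb.g g9 (@Lb.g g10 (@Lb.g g11 (@Lb.r r2666 (@Lb.r r579 (@Lb.r r25 (@Lb.d (nat_lit 0) (nat_lit 161) (nat_lit 640) (@Lb.fm (nat_lit 9) t51))))))))))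
noncomputable def l26424 : Lb := (@Lb.d (nat_lit 528) (nat_lit 1) (nat_lit 64) (@Lb.g g8 (@Lb.g g9 (@Lb.g g11 (@Lb.r r657 (@Lb.r r275 (@Lb.r r2178 (@Lb.r r1553 (@Lb.d (nat_lit 530) (nat_lit 129) (nat_lit 342) (@Lb.t (@Lb.fp (nat_lit 9) t229)))))))))))
noncomputable def l26425 : Lb := (@Lb.d (nat_lit 528) (nat_lit 2) (nat_lit 64) (@Lb.g g8 (@Lb.g g9 (@Lb.g g11 (@Lb.r r657 (@Lb.r r1299 (@Lb.r r2178 (@Lb.r r529 (@Lb.d (nat_lit 530) (nat_lit 129) (nat_lit 648) (@Lb.t (@Lb.fp (nat_lit 9) t229)))))))))))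
noncomputable def l26426 : Lb := (@Lb.d (nat_lit 10) (nat_lit 288) (nat_lit 64) (@Lb.g g8 (@Lb.g g11 (@Lb.r r1109 (@Lb.r r2472 (@Lb.r r327 (@Lb.r r2178 (@Lb.d (nat_lit 609) (nat_lit 105) (nat_lit 361) (@Lb.fm (nat_lit 3) t296)))))))))
noncomputable def l26427 : Lb := (@Lb.d (nat_lit 0) (nat_lit 512) (nat_lit 128) (@Lb.g g11 (@Lb.r r664 (@Lb.r r154 (@Lb.r r2133 (@Lb.r r164 (@Lb.d (nat_lit 0) (nat_lit 0) (nat_lit 325) (@Lb.t (@Lb.fp (nat_lit 3) t2428)))))))))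
noncomputable def l26428 : Lb := (@Lb.d (nat_lit 645) (nat_lit 581) (nat_lit 170) (@Lb.r r584 (@Lb.r r390 (@Lb.r r2715 (@Lb.g g9 (@Lb.g g4 (@Lb.d (nat_lit 18) (nat_lit 134) (nat_lit 0) (@Lb.r r98 (@Lb.fm (nat_lit 3) t98)))))))))
noncomputable def l26429 : Lb := (@Lb.d (nat_lit 0) (nat_lit 0) (nat_lit 128) (@Lb.g g11 (@Lb.r r2370 (@Lb.r r387 (@Lb.r r2341 (@Lb.r r24 (@Lb.d (nat_lit 586) (nat_lit 128) (nat_lit 297) (@Lb.t (@Lb.fp (nat_lit 3) t2334)))))))))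
noncomputable def l26430 : Lb := (@Lb.d (nat_lit 97) (nat_lit 598) (nat_lit 666) (@Lb.r r2696 (@Lb.r r2698 (@Lb.r r2731 (@Lb.r r1625 (@Lb.g g7 (@Lb.g g6 (@Lb.g g4 (@Lb.d (nat_lit 10) (nat_lit 0) (nat_lit 65) (@Lb.t (@Lb.fm (nat_lit 9) t4979)))))))))))
noncomputable def l26431 : Lb := (@Lb.d (nat_lit 42) (nat_lit 522) (nat_lit 0) (@Lb.g g8 (@Lb.g g9 (@Lb.r r1094 (@Lb.r r2440 (@Lb.r r1303 (@Lb.r r2593 (@Lb.d (nat_lit 0) (nat_lit 150) (nat_lit 18) (@Lb.fm (nat_lit 3) t2)))))))))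
noncomputable def l26432 : Lb := (@Lb.r r273 (@Lb.r r2667 (@Lb.r r1414 (@Lb.r r2600 (@Lb.r r153 (@Lb.d (nat_lit 0) (nat_lit 152) (nat_lit 297) (@Lb.fm (nat_lit 1) t591)))))))
noncomputable def l26433 : Lb := (@Lb.d (nat_lit 130) (nat_lit 258) (nat_lit 0) (@Lb.g g8 (@Lb.g g9 (@Lb.r r1303 (@Lb.r r162 (@Lb.r r145 (@Lb.r r2644 (@Lb.d (nat_lit 662) (nat_lit 150) (nat_lit 2) (@Lb.fp (nat_lit 3) t334)))))))))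
noncomputable def l26434 : Lb := (@Lb.d (nat_lit 665) (nat_lit 357) (nat_lit 532) (@Lb.r r2403 (@Lb.r r2465 (@Lb.r r106 (@Lb.r r72 (@Lb.g g7 (@Lb.g g6 (@Lb.g g5 (@Lb.d (nat_lit 84) (nat_lit 0) (nat_lit 129) (@Lb.t (@Lb.fp (nat_lit 9) t2)))))))))))
noncomputable def l26435 : Lb := (@Lb.d (nat_lit 0) (nat_lit 520) (nat_lit 128) (@Lb.g g9 (@Lb.g g11 (@Lb.r r2450 (@Lb.r r593 (@Lb.d (nat_lit 0) (nat_lit 38) (nat_lit 672) (@Lb.fp (nat_lit 3) t2428)))))))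
noncomputable def l26436 : Lb := (@Lb.d (nat_lit 128) (nat_lit 550) (nat_lit 64) (@Lb.g g9 (@Lb.g g11 (@Lb.r r1304 (@Lb.r r359 (@Lb.r r2178 (@Lb.d (nat_lit 69) (nat_lit 162) (nat_lit 682) (@Lb.fm (nat_lit 3) t648))))))))
noncomputable def l26437 : Lb := (@Lb.r r2707 (@Lb.r r134 (@Lb.r r2644 (@Lb.r r1321 (@Lb.d (nat_lit 578) (nat_lit 576) (nat_lit 512) (@Lb.fm (nat_lit 1) t2048))))))
noncomputable def l26438 : Lb := (@Lb.d (nat_lit 0) (nat_lit 0) (nat_lit 138) (@Lb.g g10 (@Lb.g g7 (@Lb.r r1414 (@Lb.r r24 (@Lb.r r2069 (@Lb.r r36 (@Lb.d (nat_lit 0) (nat_lit 24) (nat_lit 9) (@Lb.fp (nat_lit 3) t44)))))))))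
noncomputable def l26439 : Lb := (@Lb.r r21 (@Lb.d (nat_lit 2) (nat_lit 0) (nat_lit 2) (@Lb.g g8 (@Lb.g g10 (@Lb.r r1707 (@Lb.r r2713 (@Lb.r r2202 (@Lb.r r2180 (@Lb.d (nat_lit 41) (nat_lit 65) (nat_lit 21) (@Lb.fm (nat_lit 3) t4167))))))))))
noncomputable def l26440 : Lb := (@Lb.d (nat_lit 162) (nat_lit 258) (nat_lit 0) (@Lb.g g8 (@Lb.g g9 (@Lb.r r598 (@Lb.r r425 (@Lb.r r599 (@Lb.r r424 (@Lb.d (nat_lit 145) (nat_lit 102) (nat_lit 74) (@Lb.fp (nat_lit 3) t2)))))))))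
noncomputable def l26441 : Lb := (@Lb.r r70 (@Lb.d (nat_lit 166) (nat_lit 261) (nat_lit 64) (@Lb.g g8 (@Lb.g g5 (@Lb.g g11 (@Lb.r r1563 (@Lb.r r2438 (@Lb.r r2648 (@Lb.d (nat_lit 642) (nat_lit 170) (nat_lit 153) (@Lb.t (@Lb.fm (nat_lit 9) t175)))))))))))
noncomputable def l26442 : Lb := (@Lb.d (nat_lit 146) (nat_lit 2) (nat_lit 64) (@Lb.g g8 (@Lb.g g9 (@Lb.g g10 (@Lb.g g11 (@Lb.r r1675 (@Lb.r r36 (@Lb.r r1381 (@Lb.r r2202 (@Lb.r r1156 (@Lb.d (nat_lit 386) (nat_lit 130) (nat_lit 618) (@Lb.fm (nat_lit 9) t594))))))))))))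
noncomputable def l26443 : Lb := (@Lb.r r82 (@Lb.r r275 (@Lb.d (nat_lit 6) (nat_lit 1) (nat_lit 0) (@Lb.g g8 (@Lb.g g9 (@Lb.r r1287 (@Lb.r r1094 (@Lb.r r20 (@Lb.r r2089 (@Lb.d (nat_lit 522) (nat_lit 0) (nat_lit 0) (@Lb.fp (nat_lit 3) t367)))))))))))
noncomputable def l26444 : Lb := (@Lb.d (nat_lit 1) (nat_lit 258) (nat_lit 73) (@Lb.g g8 (@Lb.g g9 (@Lb.g g10 (@Lb.g g11 (@Lb.r r2691 (@Lb.r r297 (@Lb.r r360 (@Lb.r r582 (@Lb.r r2180 (@Lb.d (nat_lit 640) (nat_lit 5) (nat_lit 328) (@Lb.fm (nat_lit 9) t242))))))))))))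
noncomputable def l26445 : Lb := (@Lb.d (nat_lit 168) (nat_lit 1) (nat_lit 130) (@Lb.g g9 (@Lb.g g10 (@Lb.g g11 (@Lb.r r72 (@Lb.r r150 (@Lb.r r357 (@Lb.r r539 (@Lb.d (nat_lit 9) (nat_lit 66) (nat_lit 329) (@Lb.t (@Lb.fm (nat_lit 9) t210)))))))))))
noncomputable def l26446 : Lb := (@Lb.r r70 (@Lb.r r263 (@Lb.d (nat_lit 513) (nat_lit 514) (nat_lit 0) (@Lb.g g4 (@Lb.g g9 (@Lb.r r267 (@Lb.r r74 (@Lb.r r37 (@Lb.d (nat_lit 256) (nat_lit 128) (nat_lit 0) (@Lb.fm (nat_lit 3) t68))))))))))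
noncomputable def l26447 : Lb := (@Lb.d (nat_lit 17) (nat_lit 260) (nat_lit 129) (@Lb.g g8 (@Lb.g g9 (@Lb.g g10 (@Lb.g g11 (@Lb.r r427 (@Lb.r r1169 (@Lb.r r404 (@Lb.r r1110 (@Lb.r r132 (@Lb.d (nat_lit 262) (nat_lit 73) (nat_lit 546) (@Lb.fp (nat_lit 9) t1246))))))))))))
noncomputable def l26448 : Lb := (@Lb.d (nat_lit 8) (nat_lit 554) (nat_lit 0) (@Lb.g g9 (@Lb.r r660 (@Lb.r r663 (@Lb.r r1686 (@Lb.r r1369 (@Lb.d (nat_lit 552) (nat_lit 86) (nat_lit 22) (@Lb.t (@Lb.fp (nat_lit 3) t322)))))))))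
noncomputable def l26449 : Lb := (@Lb.d (nat_lit 9) (nat_lit 513) (nat_lit 73) (@Lb.g g8 (@Lb.g g9 (@Lb.g g10 (@Lb.g g11 (@Lb.r r1706 (@Lb.r r664 (@Lb.r r1579 (@Lb.r r1553 (@Lb.r r36 (@Lb.d (nat_lit 640) (nat_lit 100) (nat_lit 353) (@Lb.fm (nat_lit 9) t242))))))))))))
noncomputable def l26450 : Lb := (@Lb.d (nat_lit 128) (nat_lit 514) (nat_lit 0) (@Lb.g g8 (@Lb.g g9 (@Lb.r r1303 (@Lb.r r162 (@Lb.r r145 (@Lb.r r2644 (@Lb.d (nat_lit 662) (nat_lit 38) (nat_lit 426) (@Lb.fp (nat_lit 3) t334)))))))))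
noncomputable def l26451 : Lb := (@Lb.d (nat_lit 0) (nat_lit 2) (nat_lit 66) (@Lb.g g9 (@Lb.g g10 (@Lb.g g7 (@Lb.r r386 (@Lb.r r2657 (@Lb.d (nat_lit 0) (nat_lit 169) (nat_lit 357) (@Lb.t (@Lb.fp (nat_lit 9) t603)))))))))
noncomputable def l26452 : Lb := (@Lb.d (nat_lit 0) (nat_lit 8) (nat_lit 130) (@Lb.g g10 (@Lb.g g11 (@Lb.r r353 (@Lb.r r663 (@Lb.r r356 (@Lb.r r154 (@Lb.d (nat_lit 257) (nat_lit 10) (nat_lit 17) (@Lb.fp (nat_lit 3) t127)))))))))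
noncomputable def l26453 : Lb := (@Lb.d (nat_lit 32) (nat_lit 8) (nat_lit 73) (@Lb.g g10 (@Lb.g g11 (@Lb.r r361 (@Lb.r r667 (@Lb.r r1124 (@Lb.r r2458 (@Lb.d (nat_lit 169) (nat_lit 146) (nat_lit 648) (@Lb.fp (nat_lit 3) t3035)))))))))
noncomputable def l26454 : Lb := (@Lb.d (nat_lit 0) (nat_lit 256) (nat_lit 73) (@Lb.g g10 (@Lb.g g11 (@Lb.r r289 (@Lb.r r535 (@Lb.r r2468 (@Lb.r r2150 (@Lb.d (nat_lit 549) (nat_lit 128) (nat_lit 32) (@Lb.fm (nat_lit 3) t743)))))))))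
noncomputable def l26455 : Lb := (@Lb.d (nat_lit 0) (nat_lit 260) (nat_lit 0) (@Lb.g g9 (@Lb.g g10 (@Lb.g g7 (@Lb.r r1186 (@Lb.r r2705 (@Lb.d (nat_lit 0) (nat_lit 98) (nat_lit 38) (@Lb.t (@Lb.fm (nat_lit 9) t99)))))))))
noncomputable def l26456 : Lb := (@Lb.g g11 (@Lb.t (@Lb.p (nat_lit 1) (@Lb.fp (nat_lit 3) t2))))
noncomputable def l26457 : Lb := (@Lb.d (nat_lit 8) (nat_lit 258) (nat_lit 2) (@Lb.g g9 (@Lb.g g10 (@Lb.r r2658 (@Lb.r r579 (@Lb.r r1624 (@Lb.r r2341 (@Lb.d (nat_lit 581) (nat_lit 137) (nat_lit 274) (@Lb.fp (nat_lit 3) t2387)))))))))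
noncomputable def l26458 : Lb := (@Lb.d (nat_lit 0) (nat_lit 256) (nat_lit 128) (@Lb.g g11 (@Lb.r r72 (@Lb.r r2134 (@Lb.r r1057 (@Lb.r r1156 (@Lb.d (nat_lit 0) (nat_lit 64) (nat_lit 128) (@Lb.t (@Lb.fp (nat_lit 3) t1222)))))))))
noncomputable def l26459 : Lb := (@Lb.d (nat_lit 390) (nat_lit 152) (nat_lit 34) (@Lb.r r2325 (@Lb.r r2390 (@Lb.g g7 (@Lb.g g6 (@Lb.g g5 (@Lb.g g4 (@Lb.d (nat_lit 1) (nat_lit 18) (nat_lit 641) (@Lb.fp (nat_lit 9) t2871)))))))))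
noncomputable def l26460 : Lb := (@Lb.d (nat_lit 2) (nat_lit 2) (nat_lit 2) (@Lb.g g8 (@Lb.g g9 (@Lb.g g10 (@Lb.g g11 (@Lb.r r673 (@Lb.r r1575 (@Lb.r r386 (@Lb.r r2193 (@Lb.d (nat_lit 545) (nat_lit 10) (nat_lit 86) (@Lb.fm (nat_lit 9) t1299)))))))))))
noncomputable def l26461 : Lb := (@Lb.g g7 (@Lb.d (nat_lit 0) (nat_lit 512) (nat_lit 64) (@Lb.t (@Lb.fm (nat_lit 3) t2))))
noncomputable def l26462 : Lb := (@Lb.r r616 (@Lb.r r2665 (@Lb.r r2390 (@Lb.r r2475 (@Lb.r r1188 (@Lb.d (nat_lit 320) (nat_lit 0) (nat_lit 320) (@Lb.fp (nat_lit 1) t322)))))))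
noncomputable def l26463 : Lb := (@Lb.r r82 (@Lb.r r283 (@Lb.d (nat_lit 514) (nat_lit 256) (nat_lit 0) (@Lb.g g8 (@Lb.g g9 (@Lb.r r1323 (@Lb.r r106 (@Lb.r r25 (@Lb.d (nat_lit 9) (nat_lit 2) (nat_lit 0) (@Lb.fm (nat_lit 3) t1169))))))))))
noncomputable def l26464 : Lb := (@Lb.d (nat_lit 2) (nat_lit 2) (nat_lit 10) (@Lb.g g8 (@Lb.g g9 (@Lb.g g10 (@Lb.r r1623 (@Lb.r r2193 (@Lb.r r340 (@Lb.r r602 (@Lb.d (nat_lit 665) (nat_lit 66) (nat_lit 420) (@Lb.t (@Lb.fp (nat_lit 9) t2387)))))))))))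
noncomputable def l26465 : Lb := (@Lb.d (nat_lit 273) (nat_lit 265) (nat_lit 6) (@Lb.r r1193 (@Lb.r r1124 (@Lb.r r386 (@Lb.g g11 (@Lb.g g6 (@Lb.g g5 (@Lb.d (nat_lit 4) (nat_lit 1) (nat_lit 129) (@Lb.t (@Lb.fm (nat_lit 9) t125))))))))))
noncomputable def l26466 : Lb := (@Lb.d (nat_lit 0) (nat_lit 262) (nat_lit 65) (@Lb.r r1284 (@Lb.r r82 (@Lb.r r347 (@Lb.r r340 (@Lb.g g7 (@Lb.g g6 (@Lb.g g5 (@Lb.g g4 (@Lb.d (nat_lit 1) (nat_lit 65) (nat_lit 1) (@Lb.fp (nat_lit 9) t721)))))))))))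
noncomputable def l26467 : Lb := (@Lb.d (nat_lit 6) (nat_lit 512) (nat_lit 0) (@Lb.g g8 (@Lb.g g9 (@Lb.r r138 (@Lb.r r644 (@Lb.r r1431 (@Lb.r r2657 (@Lb.d (nat_lit 0) (nat_lit 74) (nat_lit 258) (@Lb.fm (nat_lit 3) t334)))))))))
noncomputable def l26468 : Lb := (@Lb.d (nat_lit 134) (nat_lit 256) (nat_lit 0) (@Lb.g g8 (@Lb.g g9 (@Lb.r r2474 (@Lb.r r2457 (@Lb.r r1319 (@Lb.r r2564 (@Lb.d (nat_lit 642) (nat_lit 138) (nat_lit 402) (@Lb.fp (nat_lit 3) t51)))))))))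
noncomputable def l26469 : Lb := (@Lb.d (nat_lit 162) (nat_lit 2) (nat_lit 0) (@Lb.g g8 (@Lb.g g9 (@Lb.r r598 (@Lb.r r425 (@Lb.r r279 (@Lb.r r532 (@Lb.d (nat_lit 134) (nat_lit 74) (nat_lit 261) (@Lb.fp (nat_lit 3) t654)))))))))
noncomputable def l26470 : Lb := (@Lb.g g9 (@Lb.r r600 (@Lb.r r2587 (@Lb.r r2178 (@Lb.r r1429 (@Lb.r r1572 (@Lb.t (@Lb.p (nat_lit 1) (@Lb.fm (nat_lit 3) t307)))))))))
noncomputable def l26471 : Lb := (@Lb.d (nat_lit 128) (nat_lit 38) (nat_lit 64) (@Lb.g g9 (@Lb.g g11 (@Lb.r r1304 (@Lb.r r359 (@Lb.r r2178 (@Lb.d (nat_lit 70) (nat_lit 164) (nat_lit 680) (@Lb.fm (nat_lit 3) t223))))))))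
noncomputable def l26472 : Lb := (@Lb.d (nat_lit 128) (nat_lit 0) (nat_lit 128) (@Lb.g g9 (@Lb.g g11 (@Lb.r r597 (@Lb.r r292 (@Lb.r r1371 (@Lb.r r2178 (@Lb.d (nat_lit 137) (nat_lit 26) (nat_lit 137) (@Lb.fp (nat_lit 3) t1775)))))))))
noncomputable def l26473 : Lb := (@Lb.d (nat_lit 0) (nat_lit 402) (nat_lit 389) (@Lb.r r579 (@Lb.r r1362 (@Lb.g g7 (@Lb.g g6 (@Lb.g g5 (@Lb.d (nat_lit 0) (nat_lit 0) (nat_lit 1) (@Lb.t (@Lb.fm (nat_lit 9) t87)))))))))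
noncomputable def l26474 : Lb := (@Lb.d (nat_lit 128) (nat_lit 520) (nat_lit 132) (@Lb.g g9 (@Lb.g g11 (@Lb.r r1432 (@Lb.r r1114 (@Lb.r r2213 (@Lb.d (nat_lit 8) (nat_lit 68) (nat_lit 146) (@Lb.fm (nat_lit 3) t307))))))))
noncomputable def l26475 : Lb := (@Lb.r r82 (@Lb.d (nat_lit 34) (nat_lit 266) (nat_lit 128) (@Lb.g g8 (@Lb.g g9 (@Lb.g g11 (@Lb.r r402 (@Lb.r r359 (@Lb.r r660 (@Lb.r r25 (@Lb.d (nat_lit 26) (nat_lit 34) (nat_lit 132) (@Lb.t (@Lb.fp (nat_lit 9) t1037))))))))))))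
noncomputable def l26476 : Lb := (@Lb.d (nat_lit 9) (nat_lit 518) (nat_lit 128) (@Lb.g g8 (@Lb.g g9 (@Lb.g g10 (@Lb.g g11 (@Lb.r r516 (@Lb.r r263 (@Lb.r r618 (@Lb.r r97 (@Lb.r r516 (@Lb.d (nat_lit 2) (nat_lit 0) (nat_lit 130) (@Lb.fm (nat_lit 9) t1037))))))))))))
noncomputable def l26477 : Lb := (@Lb.d (nat_lit 9) (nat_lit 513) (nat_lit 2) (@Lb.g g8 (@Lb.g g9 (@Lb.g g10 (@Lb.g g11 (@Lb.r r2666 (@Lb.r r579 (@Lb.r r2337 (@Lb.r r24 (@Lb.d (nat_lit 586) (nat_lit 97) (nat_lit 640) (@Lb.fm (nat_lit 9) t504)))))))))))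
noncomputable def l26478 : Lb := (@Lb.d (nat_lit 128) (nat_lit 520) (nat_lit 130) (@Lb.g g10 (@Lb.g g11 (@Lb.r r264 (@Lb.r r519 (@Lb.r r101 (@Lb.r r154 (@Lb.d (nat_lit 385) (nat_lit 0) (nat_lit 162) (@Lb.fm (nat_lit 3) t947)))))))))
noncomputable def l26479 : Lb := (@Lb.d (nat_lit 16) (nat_lit 256) (nat_lit 66) (@Lb.g g10 (@Lb.g g7 (@Lb.r r424 (@Lb.r r617 (@Lb.r r338 (@Lb.d (nat_lit 608) (nat_lit 17) (nat_lit 548) (@Lb.fp (nat_lit 3) t1150))))))))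
noncomputable def l26480 : Lb := (@Lb.d (nat_lit 9) (nat_lit 512) (nat_lit 66) (@Lb.g g8 (@Lb.g g10 (@Lb.g g7 (@Lb.r r386 (@Lb.r r101 (@Lb.r r24 (@Lb.d (nat_lit 618) (nat_lit 9) (nat_lit 552) (@Lb.t (@Lb.fm (nat_lit 9) t1150))))))))))
noncomputable def l26481 : Lb := (@Lb.d (nat_lit 8) (nat_lit 258) (nat_lit 130) (@Lb.g g9 (@Lb.g g10 (@Lb.g g11 (@Lb.r r586 (@Lb.r r584 (@Lb.r r299 (@Lb.r r409 (@Lb.d (nat_lit 9) (nat_lit 73) (nat_lit 153) (@Lb.t (@Lb.fp (nat_lit 9) t1022)))))))))))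
noncomputable def l26482 : Lb := (@Lb.r r152 (@Lb.r r602 (@Lb.r r2453 (@Lb.r r1060 (@Lb.d (nat_lit 0) (nat_lit 0) (nat_lit 354) (@Lb.fm (nat_lit 1) t572))))))
noncomputable def l26483 : Lb := (@Lb.d (nat_lit 129) (nat_lit 258) (nat_lit 73) (@Lb.g g8 (@Lb.g g9 (@Lb.g g10 (@Lb.g g11 (@Lb.r r1706 (@Lb.r r1451 (@Lb.r r1177 (@Lb.r r1156 (@Lb.d (nat_lit 297) (nat_lit 97) (nat_lit 98) (@Lb.fm (nat_lit 9) t985)))))))))))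
noncomputable def l26484 : Lb := (@Lb.d (nat_lit 129) (nat_lit 16) (nat_lit 137) (@Lb.g g8 (@Lb.g g9 (@Lb.g g10 (@Lb.g g11 (@Lb.r r1706 (@Lb.r r1451 (@Lb.r r153 (@Lb.r r1156 (@Lb.d (nat_lit 553) (nat_lit 161) (nat_lit 290) (@Lb.fm (nat_lit 9) t720)))))))))))
noncomputable def l26485 : Lb := (@Lb.r r152 (@Lb.r r602 (@Lb.r r2453 (@Lb.r r1060 (@Lb.d (nat_lit 0) (nat_lit 256) (nat_lit 297) (@Lb.fm (nat_lit 1) t572))))))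
noncomputable def l26486 : Lb := (@Lb.r r21 (@Lb.d (nat_lit 42) (nat_lit 512) (nat_lit 64) (@Lb.g g8 (@Lb.g g7 (@Lb.r r1638 (@Lb.r r2661 (@Lb.r r1428 (@Lb.d (nat_lit 358) (nat_lit 90) (nat_lit 66) (@Lb.fm (nat_lit 3) t572)))))))))
noncomputable def l26487 : Lb := (@Lb.d (nat_lit 326) (nat_lit 416) (nat_lit 84) (@Lb.r r597 (@Lb.r r1367 (@Lb.r r2596 (@Lb.g g6 (@Lb.g g5 (@Lb.d (nat_lit 4) (nat_lit 1) (nat_lit 34) (@Lb.fm (nat_lit 3) t917))))))))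
noncomputable def l26488 : Lb := (@Lb.r r323 (@Lb.d (nat_lit 16) (nat_lit 264) (nat_lit 32) (@Lb.g g8 (@Lb.g g10 (@Lb.r r387 (@Lb.r r132 (@Lb.d (nat_lit 41) (nat_lit 1) (nat_lit 17) (@Lb.fm (nat_lit 3) t3619))))))))
noncomputable def l26489 : Lb := (@Lb.r r82 (@Lb.r r275 (@Lb.d (nat_lit 4) (nat_lit 329) (nat_lit 0) (@Lb.g g8 (@Lb.g g9 (@Lb.r r291 (@Lb.r r98 (@Lb.r r36 (@Lb.d (nat_lit 8) (nat_lit 132) (nat_lit 0) (@Lb.fm (nat_lit 3) t2780))))))))))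
noncomputable def l26490 : Lb := (@Lb.r r323 (@Lb.d (nat_lit 16) (nat_lit 66) (nat_lit 0) (@Lb.g g8 (@Lb.g g9 (@Lb.g g10 (@Lb.r r2467 (@Lb.r r2146 (@Lb.r r132 (@Lb.d (nat_lit 33) (nat_lit 66) (nat_lit 2) (@Lb.t (@Lb.fm (nat_lit 9) t1605)))))))))))
noncomputable def l26491 : Lb := (@Lb.r r323 (@Lb.d (nat_lit 128) (nat_lit 512) (nat_lit 18) (@Lb.g g8 (@Lb.g g10 (@Lb.r r613 (@Lb.r r1383 (@Lb.r r2708 (@Lb.d (nat_lit 678) (nat_lit 10) (nat_lit 260) (@Lb.fp (nat_lit 3) t100)))))))))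
noncomputable def l26492 : Lb := (@Lb.r r579 (@Lb.r r2118 (@Lb.r r2069 (@Lb.r r8 (@Lb.d (nat_lit 0) (nat_lit 512) (nat_lit 85) (@Lb.fp (nat_lit 1) t4743))))))
noncomputable def l26493 : Lb := (@Lb.d (nat_lit 2) (nat_lit 2) (nat_lit 130) (@Lb.g g8 (@Lb.g g9 (@Lb.g g10 (@Lb.g g11 (@Lb.r r2666 (@Lb.r r579 (@Lb.r r25 (@Lb.d (nat_lit 4) (nat_lit 96) (nat_lit 640) (@Lb.fm (nat_lit 9) t51))))))))))
noncomputable def l26494 : Lb := (@Lb.d (nat_lit 2) (nat_lit 4) (nat_lit 1) (@Lb.g g8 (@Lb.g g9 (@Lb.g g10 (@Lb.r r1623 (@Lb.r r2154 (@Lb.r r145 (@Lb.d (nat_lit 289) (nat_lit 69) (nat_lit 16) (@Lb.t (@Lb.fp (nat_lit 9) t5))))))))))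
noncomputable def l26495 : Lb := (@Lb.r r21 (@Lb.d (nat_lit 10) (nat_lit 256) (nat_lit 73) (@Lb.g g8 (@Lb.g g10 (@Lb.g g11 (@Lb.r r411 (@Lb.r r2645 (@Lb.r r1130 (@Lb.r r1096 (@Lb.d (nat_lit 601) (nat_lit 129) (nat_lit 678) (@Lb.t (@Lb.fp (nat_lit 9) t1155))))))))))))
noncomputable def l26496 : Lb := (@Lb.r r323 (@Lb.d (nat_lit 4) (nat_lit 5) (nat_lit 42) (@Lb.g g8 (@Lb.g g9 (@Lb.g g6 (@Lb.r r387 (@Lb.r r1313 (@Lb.r r24 (@Lb.d (nat_lit 0) (nat_lit 162) (nat_lit 16) (@Lb.t (@Lb.fp (nat_lit 9) t41)))))))))))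
noncomputable def l26497 : Lb := (@Lb.d (nat_lit 8) (nat_lit 538) (nat_lit 73) (@Lb.g g9 (@Lb.g g10 (@Lb.g g11 (@Lb.r r2392 (@Lb.r r1703 (@Lb.r r678 (@Lb.r r1573 (@Lb.d (nat_lit 664) (nat_lit 89) (nat_lit 534) (@Lb.t (@Lb.fm (nat_lit 9) t4980)))))))))))
noncomputable def l26498 : Lb := (@Lb.d (nat_lit 401) (nat_lit 600) (nat_lit 650) (@Lb.r r1604 (@Lb.r r402 (@Lb.r r89 (@Lb.g g4 (@Lb.d (nat_lit 5) (nat_lit 0) (nat_lit 0) (@Lb.t (@Lb.fp (nat_lit 3) t4380))))))))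
noncomputable def l26499 : Lb := (@Lb.d (nat_lit 6) (nat_lit 512) (nat_lit 73) (@Lb.g g8 (@Lb.g g9 (@Lb.g g10 (@Lb.g g11 (@Lb.r r427 (@Lb.r r356 (@Lb.r r154 (@Lb.r r2137 (@Lb.r r1044 (@Lb.d (nat_lit 553) (nat_lit 129) (nat_lit 18) (@Lb.fm (nat_lit 9) t1155))))))))))))
noncomputable def l26500 : Lb := (@Lb.d (nat_lit 9) (nat_lit 257) (nat_lit 4) (@Lb.g g8 (@Lb.g g9 (@Lb.g g10 (@Lb.g g11 (@Lb.r r427 (@Lb.r r2473 (@Lb.r r2154 (@Lb.r r2120 (@Lb.d (nat_lit 345) (nat_lit 65) (nat_lit 408) (@Lb.fp (nat_lit 9) t1025)))))))))))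
noncomputable def l26501 : Lb := (@Lb.d (nat_lit 153) (nat_lit 1) (nat_lit 133) (@Lb.g g8 (@Lb.g g9 (@Lb.g g10 (@Lb.g g11 (@Lb.r r427 (@Lb.r r597 (@Lb.r r682 (@Lb.r r72 (@Lb.d (nat_lit 34) (nat_lit 38) (nat_lit 65) (@Lb.fp (nat_lit 9) t594)))))))))))
noncomputable def l26502 : Lb := (@Lb.d (nat_lit 9) (nat_lit 513) (nat_lit 130) (@Lb.g g8 (@Lb.g g9 (@Lb.g g10 (@Lb.g g11 (@Lb.r r427 (@Lb.r r2473 (@Lb.r r2154 (@Lb.r r2120 (@Lb.d (nat_lit 345) (nat_lit 65) (nat_lit 408) (@Lb.fp (nat_lit 9) t1025)))))))))))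
noncomputable def l26503 : Lb := (@Lb.r r323 (@Lb.d (nat_lit 129) (nat_lit 9) (nat_lit 2) (@Lb.g g8 (@Lb.g g9 (@Lb.g g10 (@Lb.r r674 (@Lb.r r391 (@Lb.r r548 (@Lb.r r37 (@Lb.d (nat_lit 9) (nat_lit 36) (nat_lit 128) (@Lb.t (@Lb.fm (nat_lit 9) t1045))))))))))))
noncomputable def l26504 : Lb := (@Lb.r r323 (@Lb.d (nat_lit 130) (nat_lit 265) (nat_lit 2) (@Lb.g g8 (@Lb.g g9 (@Lb.g g10 (@Lb.r r674 (@Lb.r r391 (@Lb.r r548 (@Lb.r r37 (@Lb.d (nat_lit 9) (nat_lit 36) (nat_lit 5) (@Lb.t (@Lb.fm (nat_lit 9) t1045))))))))))))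
noncomputable def l26505 : Lb := (@Lb.d (nat_lit 9) (nat_lit 257) (nat_lit 130) (@Lb.g g8 (@Lb.g g9 (@Lb.g g10 (@Lb.g g11 (@Lb.r r427 (@Lb.r r297 (@Lb.r r136 (@Lb.r r154 (@Lb.r r132 (@Lb.d (nat_lit 4) (nat_lit 25) (nat_lit 137) (@Lb.fm (nat_lit 9) t119))))))))))))
noncomputable def l26506 : Lb := (@Lb.d (nat_lit 0) (nat_lit 264) (nat_lit 66) (@Lb.g g9 (@Lb.g g10 (@Lb.g g7 (@Lb.r r418 (@Lb.r r153 (@Lb.r r24 (@Lb.d (nat_lit 144) (nat_lit 0) (nat_lit 1) (@Lb.t (@Lb.fp (nat_lit 9) t42))))))))))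
noncomputable def l26507 : Lb := (@Lb.r r273 (@Lb.r r322 (@Lb.d (nat_lit 10) (nat_lit 0) (nat_lit 648) (@Lb.g g8 (@Lb.g g7 (@Lb.r r661 (@Lb.r r146 (@Lb.r r1624 (@Lb.d (nat_lit 168) (nat_lit 24) (nat_lit 320) (@Lb.fp (nat_lit 3) t525))))))))))
noncomputable def l26508 : Lb := (@Lb.d (nat_lit 96) (nat_lit 274) (nat_lit 165) (@Lb.r r2465 (@Lb.r r595 (@Lb.r r2470 (@Lb.g g6 (@Lb.g g5 (@Lb.g g8 (@Lb.d (nat_lit 320) (nat_lit 17) (nat_lit 1) (@Lb.t (@Lb.fp (nat_lit 9) t2953))))))))))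
noncomputable def l26509 : Lb := (@Lb.d (nat_lit 278) (nat_lit 70) (nat_lit 18) (@Lb.r r2068 (@Lb.r r89 (@Lb.r r323 (@Lb.g g10 (@Lb.g g4 (@Lb.d (nat_lit 5) (nat_lit 0) (nat_lit 18) (@Lb.r r387 (@Lb.r r145 (@Lb.fp (nat_lit 3) t2539))))))))))
noncomputable def l26510 : Lb := (@Lb.r r82 (@Lb.d (nat_lit 34) (nat_lit 0) (nat_lit 128) (@Lb.g g8 (@Lb.g g9 (@Lb.g g11 (@Lb.r r2723 (@Lb.r r582 (@Lb.r r2137 (@Lb.r r2180 (@Lb.d (nat_lit 96) (nat_lit 170) (nat_lit 5) (@Lb.t (@Lb.fp (nat_lit 9) t525))))))))))))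
noncomputable def l26511 : Lb := (@Lb.d (nat_lit 2) (nat_lit 264) (nat_lit 130) (@Lb.g g8 (@Lb.g g10 (@Lb.g g11 (@Lb.r r353 (@Lb.r r667 (@Lb.r r2632 (@Lb.r r1094 (@Lb.d (nat_lit 281) (nat_lit 134) (nat_lit 169) (@Lb.t (@Lb.fp (nat_lit 9) t4981)))))))))))
noncomputable def l26512 : Lb := (@Lb.d (nat_lit 2) (nat_lit 289) (nat_lit 130) (@Lb.g g8 (@Lb.g g9 (@Lb.g g10 (@Lb.g g11 (@Lb.r r1699 (@Lb.r r386 (@Lb.r r612 (@Lb.r r533 (@Lb.r r1060 (@Lb.d (nat_lit 33) (nat_lit 10) (nat_lit 361) (@Lb.fp (nat_lit 9) t3278))))))))))))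
noncomputable def l26513 : Lb := (@Lb.r r616 (@Lb.r r2665 (@Lb.r r2390 (@Lb.r r1188 (@Lb.d (nat_lit 2) (nat_lit 512) (nat_lit 576) (@Lb.fp (nat_lit 1) t322))))))
noncomputable def l26514 : Lb := (@Lb.g g6 (@Lb.d (nat_lit 0) (nat_lit 512) (nat_lit 64) (@Lb.t (@Lb.fm (nat_lit 3) t2))))
noncomputable def l26515 : Lb := (@Lb.r r82 (@Lb.d (nat_lit 2) (nat_lit 290) (nat_lit 128) (@Lb.g g8 (@Lb.g g9 (@Lb.g g11 (@Lb.r r1687 (@Lb.r r2137 (@Lb.r r98 (@Lb.d (nat_lit 289) (nat_lit 105) (nat_lit 22) (@Lb.t (@Lb.fp (nat_lit 9) t5)))))))))))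
noncomputable def l26516 : Lb := (@Lb.r r616 (@Lb.r r2665 (@Lb.r r2390 (@Lb.r r1188 (@Lb.d (nat_lit 0) (nat_lit 256) (nat_lit 576) (@Lb.fp (nat_lit 1) t322))))))
noncomputable def l26517 : Lb := (@Lb.r r81 (@Lb.d (nat_lit 128) (nat_lit 512) (nat_lit 169) (@Lb.g g10 (@Lb.g g11 (@Lb.r r344 (@Lb.r r679 (@Lb.r r37 (@Lb.d (nat_lit 2) (nat_lit 40) (nat_lit 25) (@Lb.fp (nat_lit 3) t1126)))))))))
noncomputable def l26518 : Lb := (@Lb.d (nat_lit 1) (nat_lit 8) (nat_lit 130) (@Lb.g g8 (@Lb.g g10 (@Lb.g g11 (@Lb.r r353 (@Lb.r r667 (@Lb.r r2632 (@Lb.r r1094 (@Lb.d (nat_lit 281) (nat_lit 134) (nat_lit 100) (@Lb.t (@Lb.fp (nat_lit 9) t4981)))))))))))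
noncomputable def l26519 : Lb := (@Lb.r r21 (@Lb.r r322 (@Lb.d (nat_lit 2) (nat_lit 0) (nat_lit 576) (@Lb.g g8 (@Lb.g g7 (@Lb.r r392 (@Lb.r r106 (@Lb.r r97 (@Lb.d (nat_lit 320) (nat_lit 88) (nat_lit 324) (@Lb.fp (nat_lit 3) t259))))))))))
noncomputable def l26520 : Lb := (@Lb.d (nat_lit 166) (nat_lit 660) (nat_lit 410) (@Lb.r r1620 (@Lb.r r2583 (@Lb.r r1385 (@Lb.g g10 (@Lb.g g5 (@Lb.g g4 (@Lb.d (nat_lit 64) (nat_lit 1) (nat_lit 34) (@Lb.r r387 (@Lb.t (@Lb.fm (nat_lit 9) t163)))))))))))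
noncomputable def l26521 : Lb := (@Lb.d (nat_lit 32) (nat_lit 8) (nat_lit 4) (@Lb.g g10 (@Lb.g g11 (@Lb.r r361 (@Lb.r r2711 (@Lb.r r1380 (@Lb.r r2730 (@Lb.d (nat_lit 342) (nat_lit 102) (nat_lit 662) (@Lb.fp (nat_lit 3) t71)))))))))
noncomputable def l26522 : Lb := (@Lb.d (nat_lit 0) (nat_lit 520) (nat_lit 2) (@Lb.g g10 (@Lb.d (nat_lit 608) (nat_lit 2) (nat_lit 610) (@Lb.t (@Lb.fp (nat_lit 3) t1554)))))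
noncomputable def l26523 : Lb := (@Lb.d (nat_lit 166) (nat_lit 148) (nat_lit 272) (@Lb.r r1620 (@Lb.r r2583 (@Lb.r r1385 (@Lb.g g10 (@Lb.g g5 (@Lb.g g4 (@Lb.d (nat_lit 65) (nat_lit 1) (nat_lit 34) (@Lb.r r387 (@Lb.t (@Lb.fm (nat_lit 9) t1039)))))))))))
noncomputable def l26524 : Lb := (@Lb.d (nat_lit 278) (nat_lit 392) (nat_lit 390) (@Lb.r r603 (@Lb.r r532 (@Lb.r r2389 (@Lb.g g7 (@Lb.g g6 (@Lb.d (nat_lit 80) (nat_lit 0) (nat_lit 82) (@Lb.fp (nat_lit 3) t1038))))))))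
noncomputable def l26525 : Lb := (@Lb.d (nat_lit 32) (nat_lit 520) (nat_lit 4) (@Lb.g g10 (@Lb.g g11 (@Lb.r r361 (@Lb.r r2711 (@Lb.r r1380 (@Lb.r r2730 (@Lb.d (nat_lit 342) (nat_lit 104) (nat_lit 660) (@Lb.fp (nat_lit 3) t71)))))))))
noncomputable def l26526 : Lb := (@Lb.d (nat_lit 144) (nat_lit 522) (nat_lit 533) (@Lb.r r2116 (@Lb.r r2579 (@Lb.r r1381 (@Lb.r r1178 (@Lb.g g4 (@Lb.t (@Lb.fp (nat_lit 3) t4982))))))))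
noncomputable def l26527 : Lb := (@Lb.d (nat_lit 289) (nat_lit 544) (nat_lit 0) (@Lb.g g4 (@Lb.g g11 (@Lb.r r2465 (@Lb.r r595 (@Lb.r r2178 (@Lb.d (nat_lit 288) (nat_lit 160) (nat_lit 280) (@Lb.fm (nat_lit 3) t1561))))))))
noncomputable def l26528 : Lb := (@Lb.d (nat_lit 10) (nat_lit 512) (nat_lit 0) (@Lb.g g4 (@Lb.g g11 (@Lb.r r153 (@Lb.r r1176 (@Lb.d (nat_lit 293) (nat_lit 73) (nat_lit 170) (@Lb.fm (nat_lit 3) t87)))))))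
noncomputable def l26529 : Lb := (@Lb.d (nat_lit 0) (nat_lit 544) (nat_lit 128) (@Lb.g g11 (@Lb.r r1445 (@Lb.r r1627 (@Lb.r r2178 (@Lb.r r1156 (@Lb.d (nat_lit 72) (nat_lit 38) (nat_lit 294) (@Lb.t (@Lb.fm (nat_lit 3) t3993)))))))))
noncomputable def l26530 : Lb := (@Lb.d (nat_lit 2) (nat_lit 512) (nat_lit 133) (@Lb.g g8 (@Lb.g g10 (@Lb.g g7 (@Lb.r r2698 (@Lb.r r1433 (@Lb.r r2436 (@Lb.d (nat_lit 336) (nat_lit 0) (nat_lit 9) (@Lb.t (@Lb.fm (nat_lit 9) t1741))))))))))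
noncomputable def l26531 : Lb := (@Lb.d (nat_lit 0) (nat_lit 549) (nat_lit 129) (@Lb.r r24 (@Lb.r r402 (@Lb.g g11 (@Lb.g g6 (@Lb.fp (nat_lit 3) t21))))))
noncomputable def l26532 : Lb := (@Lb.d (nat_lit 2) (nat_lit 2) (nat_lit 74) (@Lb.g g8 (@Lb.g g9 (@Lb.g g10 (@Lb.g g11 (@Lb.r r1177 (@Lb.r r658 (@Lb.r r387 (@Lb.d (nat_lit 641) (nat_lit 164) (nat_lit 520) (@Lb.fm (nat_lit 9) t242))))))))))
noncomputable def l26533 : Lb := (@Lb.r r82 (@Lb.d (nat_lit 2) (nat_lit 546) (nat_lit 64) (@Lb.g g8 (@Lb.g g9 (@Lb.g g11 (@Lb.r r1323 (@Lb.r r2198 (@Lb.r r1049 (@Lb.d (nat_lit 521) (nat_lit 21) (nat_lit 390) (@Lb.t (@Lb.fp (nat_lit 9) t3225)))))))))))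
noncomputable def l26534 : Lb := (@Lb.r r82 (@Lb.d (nat_lit 2) (nat_lit 258) (nat_lit 0) (@Lb.g g8 (@Lb.g g9 (@Lb.r r2154 (@Lb.r r1633 (@Lb.r r2663 (@Lb.d (nat_lit 64) (nat_lit 81) (nat_lit 160) (@Lb.fm (nat_lit 3) t2787)))))))))
noncomputable def l26535 : Lb := (@Lb.d (nat_lit 401) (nat_lit 554) (nat_lit 132) (@Lb.r r1604 (@Lb.r r82 (@Lb.r r409 (@Lb.g g11 (@Lb.g g6 (@Lb.g g4 (@Lb.d (nat_lit 5) (nat_lit 0) (nat_lit 72) (@Lb.t (@Lb.fm (nat_lit 9) t2312))))))))))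
noncomputable def l26536 : Lb := (@Lb.d (nat_lit 5) (nat_lit 256) (nat_lit 74) (@Lb.g g4 (@Lb.g g10 (@Lb.g g11 (@Lb.r r387 (@Lb.d (nat_lit 6) (nat_lit 9) (nat_lit 8) (@Lb.t (@Lb.fp (nat_lit 9) t21))))))))
noncomputable def l26537 : Lb := (@Lb.r r82 (@Lb.r r275 (@Lb.d (nat_lit 162) (nat_lit 577) (nat_lit 0) (@Lb.g g8 (@Lb.g g5 (@Lb.r r614 (@Lb.r r1607 (@Lb.r r420 (@Lb.d (nat_lit 101) (nat_lit 165) (nat_lit 138) (@Lb.fm (nat_lit 3) t512))))))))))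
noncomputable def l26538 : Lb := (@Lb.r r82 (@Lb.r r275 (@Lb.d (nat_lit 161) (nat_lit 321) (nat_lit 0) (@Lb.g g8 (@Lb.g g5 (@Lb.r r614 (@Lb.r r1607 (@Lb.r r420 (@Lb.d (nat_lit 101) (nat_lit 160) (nat_lit 137) (@Lb.fm (nat_lit 3) t512))))))))))
noncomputable def l26539 : Lb := (@Lb.r r20 (@Lb.r r275 (@Lb.d (nat_lit 8) (nat_lit 514) (nat_lit 2) (@Lb.g g5 (@Lb.g g10 (@Lb.r r1686 (@Lb.r r2376 (@Lb.r r1543 (@Lb.d (nat_lit 6) (nat_lit 144) (nat_lit 69) (@Lb.fm (nat_lit 3) t74))))))))))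
noncomputable def l26540 : Lb := (@Lb.d (nat_lit 418) (nat_lit 2) (nat_lit 356) (@Lb.r r24 (@Lb.r r1178 (@Lb.r r1691 (@Lb.g g7 (@Lb.g g6 (@Lb.g g9 (@Lb.d (nat_lit 8) (nat_lit 2) (nat_lit 134) (@Lb.t (@Lb.fp (nat_lit 9) t650))))))))))
noncomputable def l26541 : Lb := (@Lb.d (nat_lit 298) (nat_lit 90) (nat_lit 81) (@Lb.r r1158 (@Lb.r r2132 (@Lb.r r281 (@Lb.r r1699 (@Lb.g g7 (@Lb.g g6 (@Lb.g g5 (@Lb.d (nat_lit 0) (nat_lit 1) (nat_lit 134) (@Lb.t (@Lb.fp (nat_lit 9) t163)))))))))))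
noncomputable def l26542 : Lb := (@Lb.d (nat_lit 26) (nat_lit 537) (nat_lit 585) (@Lb.g g8 (@Lb.g g9 (@Lb.g g10 (@Lb.g g7 (@Lb.r r1442 (@Lb.r r1169 (@Lb.r r72 (@Lb.d (nat_lit 34) (nat_lit 100) (nat_lit 32) (@Lb.fm (nat_lit 9) t1833))))))))))
noncomputable def l26543 : Lb := (@Lb.d (nat_lit 260) (nat_lit 161) (nat_lit 133) (@Lb.r r1557 (@Lb.r r1687 (@Lb.r r2730 (@Lb.r r152 (@Lb.g g5 (@Lb.d (nat_lit 4) (nat_lit 5) (nat_lit 0) (@Lb.t (@Lb.fp (nat_lit 3) t2411)))))))))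
noncomputable def l26544 : Lb := (@Lb.d (nat_lit 289) (nat_lit 585) (nat_lit 72) (@Lb.g g8 (@Lb.g g9 (@Lb.g g10 (@Lb.g g11 (@Lb.r r427 (@Lb.r r106 (@Lb.d (nat_lit 292) (nat_lit 72) (nat_lit 137) (@Lb.fp (nat_lit 9) t68)))))))))
noncomputable def l26545 : Lb := (@Lb.d (nat_lit 64) (nat_lit 105) (nat_lit 261) (@Lb.r r1702 (@Lb.r r679 (@Lb.r r344 (@Lb.g g7 (@Lb.g g6 (@Lb.g g5 (@Lb.d (nat_lit 16) (nat_lit 136) (nat_lit 130) (@Lb.t (@Lb.fm (nat_lit 9) t98))))))))))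
noncomputable def l26546 : Lb := (@Lb.d (nat_lit 32) (nat_lit 257) (nat_lit 1) (@Lb.g g8 (@Lb.g g9 (@Lb.g g10 (@Lb.r r2658 (@Lb.r r1637 (@Lb.r r615 (@Lb.r r388 (@Lb.d (nat_lit 6) (nat_lit 101) (nat_lit 36) (@Lb.t (@Lb.fm (nat_lit 9) t320)))))))))))
noncomputable def l26547 : Lb := (@Lb.d (nat_lit 2) (nat_lit 258) (nat_lit 2) (@Lb.g g8 (@Lb.g g9 (@Lb.g g10 (@Lb.r r683 (@Lb.r r1689 (@Lb.r r1178 (@Lb.r r1156 (@Lb.d (nat_lit 553) (nat_lit 65) (nat_lit 546) (@Lb.t (@Lb.fm (nat_lit 9) t284)))))))))))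
noncomputable def l26548 : Lb := (@Lb.d (nat_lit 658) (nat_lit 512) (nat_lit 289) (@Lb.r r1608 (@Lb.r r2374 (@Lb.r r1691 (@Lb.r r1381 (@Lb.g g6 (@Lb.g g4 (@Lb.d (nat_lit 5) (nat_lit 0) (nat_lit 1) (@Lb.fp (nat_lit 3) t2493)))))))))
noncomputable def l26549 : Lb := (@Lb.d (nat_lit 289) (nat_lit 329) (nat_lit 8) (@Lb.g g8 (@Lb.g g9 (@Lb.g g10 (@Lb.g g11 (@Lb.r r427 (@Lb.r r106 (@Lb.d (nat_lit 292) (nat_lit 72) (nat_lit 68) (@Lb.fp (nat_lit 9) t68)))))))))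
noncomputable def l26550 : Lb := (@Lb.d (nat_lit 128) (nat_lit 0) (nat_lit 137) (@Lb.g g10 (@Lb.g g11 (@Lb.r r2725 (@Lb.r r280 (@Lb.r r551 (@Lb.r r2122 (@Lb.d (nat_lit 664) (nat_lit 144) (nat_lit 144) (@Lb.fp (nat_lit 3) t154)))))))))
noncomputable def l26551 : Lb := (@Lb.d (nat_lit 32) (nat_lit 0) (nat_lit 1) (@Lb.g g10 (@Lb.r r1364 (@Lb.r r2731 (@Lb.r r665 (@Lb.r r602 (@Lb.d (nat_lit 90) (nat_lit 38) (nat_lit 168) (@Lb.t (@Lb.fm (nat_lit 3) t1096)))))))))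
noncomputable def l26552 : Lb := (@Lb.r r21 (@Lb.d (nat_lit 33) (nat_lit 512) (nat_lit 136) (@Lb.g g8 (@Lb.g g10 (@Lb.g g11 (@Lb.r r651 (@Lb.r r293 (@Lb.r r644 (@Lb.r r614 (@Lb.d (nat_lit 148) (nat_lit 32) (nat_lit 134) (@Lb.t (@Lb.fm (nat_lit 9) t264))))))))))))
noncomputable def l26553 : Lb := (@Lb.d (nat_lit 32) (nat_lit 256) (nat_lit 1) (@Lb.g g10 (@Lb.r r1364 (@Lb.r r2731 (@Lb.r r665 (@Lb.r r602 (@Lb.d (nat_lit 85) (nat_lit 37) (nat_lit 168) (@Lb.t (@Lb.fm (nat_lit 3) t2888)))))))))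
noncomputable def l26554 : Lb := (@Lb.d (nat_lit 1) (nat_lit 33) (nat_lit 130) (@Lb.g g8 (@Lb.g g9 (@Lb.g g10 (@Lb.g g11 (@Lb.r r683 (@Lb.r r616 (@Lb.r r86 (@Lb.r r165 (@Lb.r r20 (@Lb.d (nat_lit 34) (nat_lit 2) (nat_lit 137) (@Lb.fm (nat_lit 9) t74))))))))))))
noncomputable def l26555 : Lb := (@Lb.d (nat_lit 2) (nat_lit 289) (nat_lit 130) (@Lb.g g8 (@Lb.g g9 (@Lb.g g10 (@Lb.g g11 (@Lb.r r683 (@Lb.r r616 (@Lb.r r86 (@Lb.r r165 (@Lb.r r20 (@Lb.d (nat_lit 34) (nat_lit 2) (nat_lit 2) (@Lb.fm (nat_lit 9) t74))))))))))))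
noncomputable def l26556 : Lb := (@Lb.d (nat_lit 146) (nat_lit 258) (nat_lit 64) (@Lb.g g8 (@Lb.g g9 (@Lb.g g10 (@Lb.g g11 (@Lb.r r1547 (@Lb.r r2469 (@Lb.r r1624 (@Lb.r r390 (@Lb.d (nat_lit 98) (nat_lit 96) (nat_lit 406) (@Lb.fp (nat_lit 9) t694)))))))))))
noncomputable def l26557 : Lb := (@Lb.r r82 (@Lb.d (nat_lit 34) (nat_lit 514) (nat_lit 128) (@Lb.g g8 (@Lb.g g9 (@Lb.g g11 (@Lb.r r363 (@Lb.r r582 (@Lb.r r420 (@Lb.d (nat_lit 101) (nat_lit 36) (nat_lit 137) (@Lb.t (@Lb.fm (nat_lit 9) t4983)))))))))))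
noncomputable def l26558 : Lb := (@Lb.d (nat_lit 2) (nat_lit 2) (nat_lit 4) (@Lb.g g8 (@Lb.g g9 (@Lb.g g10 (@Lb.g g11 (@Lb.r r427 (@Lb.r r356 (@Lb.r r154 (@Lb.r r21 (@Lb.r r36 (@Lb.d (nat_lit 33) (nat_lit 5) (nat_lit 137) (@Lb.fm (nat_lit 9) t61))))))))))))
noncomputable def l26559 : Lb := (@Lb.d (nat_lit 2) (nat_lit 258) (nat_lit 130) (@Lb.g g8 (@Lb.g g9 (@Lb.g g10 (@Lb.g g11 (@Lb.r r427 (@Lb.r r145 (@Lb.r r356 (@Lb.r r154 (@Lb.r r132 (@Lb.d (nat_lit 4) (nat_lit 1) (nat_lit 137) (@Lb.fm (nat_lit 9) t61))))))))))))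
noncomputable def l26560 : Lb := (@Lb.d (nat_lit 2) (nat_lit 514) (nat_lit 130) (@Lb.g g8 (@Lb.g g9 (@Lb.g g10 (@Lb.g g11 (@Lb.r r427 (@Lb.r r145 (@Lb.r r356 (@Lb.r r154 (@Lb.r r132 (@Lb.d (nat_lit 10) (nat_lit 2) (nat_lit 137) (@Lb.fm (nat_lit 9) t61))))))))))))
noncomputable def l26561 : Lb := (@Lb.r r82 (@Lb.r r275 (@Lb.d (nat_lit 34) (nat_lit 26) (nat_lit 0) (@Lb.g g8 (@Lb.g g9 (@Lb.r r427 (@Lb.r r582 (@Lb.r r392 (@Lb.d (nat_lit 129) (nat_lit 9) (nat_lit 1) (@Lb.fp (nat_lit 3) t601))))))))))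
noncomputable def l26562 : Lb := (@Lb.d (nat_lit 162) (nat_lit 0) (nat_lit 4) (@Lb.r r24 (@Lb.r r101 (@Lb.r r386 (@Lb.r r339 (@Lb.g g7 (@Lb.g g6 (@Lb.g g4 (@Lb.d (nat_lit 6) (nat_lit 0) (nat_lit 65) (@Lb.t (@Lb.fm (nat_lit 9) t175)))))))))))
noncomputable def l26563 : Lb := (@Lb.d (nat_lit 2) (nat_lit 265) (nat_lit 1) (@Lb.g g8 (@Lb.g g9 (@Lb.g g10 (@Lb.r r1555 (@Lb.r r297 (@Lb.r r1384 (@Lb.r r2630 (@Lb.d (nat_lit 416) (nat_lit 5) (nat_lit 358) (@Lb.t (@Lb.fp (nat_lit 9) t2399)))))))))))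
noncomputable def l26564 : Lb := (@Lb.d (nat_lit 1) (nat_lit 512) (nat_lit 130) (@Lb.g g8 (@Lb.g g10 (@Lb.g g11 (@Lb.r r419 (@Lb.r r386 (@Lb.r r101 (@Lb.r r24 (@Lb.d (nat_lit 105) (nat_lit 2) (nat_lit 9) (@Lb.t (@Lb.fp (nat_lit 9) t263)))))))))))
noncomputable def l26565 : Lb := (@Lb.d (nat_lit 4) (nat_lit 292) (nat_lit 5) (@Lb.g g8 (@Lb.g g9 (@Lb.g g10 (@Lb.g g11 (@Lb.r r683 (@Lb.r r1642 (@Lb.r r1561 (@Lb.d (nat_lit 586) (nat_lit 98) (nat_lit 402) (@Lb.fm (nat_lit 9) t958))))))))))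
noncomputable def l26566 : Lb := (@Lb.d (nat_lit 1) (nat_lit 5) (nat_lit 33) (@Lb.r r1635 (@Lb.r r601 (@Lb.r r2136 (@Lb.r r1158 (@Lb.g g7 (@Lb.g g5 (@Lb.g g8 (@Lb.t (@Lb.fp (nat_lit 9) t2911))))))))))
noncomputable def l26567 : Lb := (@Lb.d (nat_lit 2) (nat_lit 4) (nat_lit 128) (@Lb.g g8 (@Lb.g g9 (@Lb.g g10 (@Lb.g g11 (@Lb.r r427 (@Lb.r r420 (@Lb.r r102 (@Lb.r r21 (@Lb.r r36 (@Lb.d (nat_lit 24) (nat_lit 4) (nat_lit 136) (@Lb.fp (nat_lit 9) t597))))))))))))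
noncomputable def l26568 : Lb := (@Lb.d (nat_lit 2) (nat_lit 260) (nat_lit 128) (@Lb.g g8 (@Lb.g g9 (@Lb.g g10 (@Lb.g g11 (@Lb.r r427 (@Lb.r r420 (@Lb.r r102 (@Lb.r r21 (@Lb.r r36 (@Lb.d (nat_lit 21) (nat_lit 137) (nat_lit 137) (@Lb.fp (nat_lit 9) t125))))))))))))
noncomputable def l26569 : Lb := (@Lb.d (nat_lit 2) (nat_lit 260) (nat_lit 128) (@Lb.g g8 (@Lb.g g9 (@Lb.g g10 (@Lb.g g11 (@Lb.r r427 (@Lb.r r420 (@Lb.r r102 (@Lb.r r21 (@Lb.r r36 (@Lb.d (nat_lit 26) (nat_lit 4) (nat_lit 136) (@Lb.fp (nat_lit 9) t151))))))))))))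
noncomputable def l26570 : Lb := (@Lb.d (nat_lit 4) (nat_lit 512) (nat_lit 162) (@Lb.g g8 (@Lb.g g9 (@Lb.g g6 (@Lb.g g11 (@Lb.r r281 (@Lb.r r1635 (@Lb.r r1553 (@Lb.d (nat_lit 610) (nat_lit 136) (nat_lit 297) (@Lb.fp (nat_lit 9) t188))))))))))
noncomputable def l26571 : Lb := (@Lb.d (nat_lit 1) (nat_lit 5) (nat_lit 168) (@Lb.r r1635 (@Lb.r r601 (@Lb.r r2132 (@Lb.r r1162 (@Lb.g g4 (@Lb.d (nat_lit 1) (nat_lit 0) (nat_lit 0) (@Lb.t (@Lb.fm (nat_lit 3) t249)))))))))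
noncomputable def l26572 : Lb := (@Lb.d (nat_lit 0) (nat_lit 550) (nat_lit 128) (@Lb.g g9 (@Lb.g g10 (@Lb.g g11 (@Lb.r r683 (@Lb.r r1386 (@Lb.r r548 (@Lb.r r613 (@Lb.d (nat_lit 521) (nat_lit 102) (nat_lit 537) (@Lb.t (@Lb.fm (nat_lit 9) t4984)))))))))))
noncomputable def l26573 : Lb := (@Lb.g g4 (@Lb.g g11 (@Lb.d (nat_lit 1) (nat_lit 512) (nat_lit 0) (@Lb.fp (nat_lit 3) t2))))
noncomputable def l26574 : Lb := (@Lb.d (nat_lit 134) (nat_lit 17) (nat_lit 2) (@Lb.g g8 (@Lb.g g9 (@Lb.g g10 (@Lb.g g11 (@Lb.r r1667 (@Lb.r r609 (@Lb.r r666 (@Lb.r r1176 (@Lb.d (nat_lit 22) (nat_lit 169) (nat_lit 98) (@Lb.fp (nat_lit 9) t1913)))))))))))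
noncomputable def l26575 : Lb := (@Lb.r r323 (@Lb.d (nat_lit 32) (nat_lit 516) (nat_lit 25) (@Lb.g g6 (@Lb.r r2459 (@Lb.r r24 (@Lb.d (nat_lit 266) (nat_lit 0) (nat_lit 85) (@Lb.t (@Lb.fp (nat_lit 3) t282))))))))
noncomputable def l26576 : Lb := (@Lb.d (nat_lit 105) (nat_lit 33) (nat_lit 130) (@Lb.g g8 (@Lb.g g9 (@Lb.g g10 (@Lb.g g11 (@Lb.r r1706 (@Lb.r r1188 (@Lb.r r2597 (@Lb.r r2339 (@Lb.d (nat_lit 521) (nat_lit 145) (nat_lit 170) (@Lb.fp (nat_lit 9) t4985)))))))))))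
noncomputable def l26577 : Lb := (@Lb.r r82 (@Lb.r r275 (@Lb.d (nat_lit 34) (nat_lit 264) (nat_lit 0) (@Lb.g g8 (@Lb.g g9 (@Lb.r r427 (@Lb.r r582 (@Lb.r r408 (@Lb.d (nat_lit 154) (nat_lit 18) (nat_lit 17) (@Lb.fp (nat_lit 3) t573))))))))))
noncomputable def l26578 : Lb := (@Lb.d (nat_lit 33) (nat_lit 260) (nat_lit 2) (@Lb.g g8 (@Lb.g g9 (@Lb.g g10 (@Lb.g g11 (@Lb.r r683 (@Lb.r r2406 (@Lb.r r1561 (@Lb.r r1540 (@Lb.d (nat_lit 402) (nat_lit 9) (nat_lit 657) (@Lb.fm (nat_lit 9) t2093)))))))))))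
noncomputable def l26579 : Lb := (@Lb.d (nat_lit 134) (nat_lit 529) (nat_lit 68) (@Lb.g g8 (@Lb.g g9 (@Lb.g g10 (@Lb.g g11 (@Lb.r r683 (@Lb.r r2406 (@Lb.r r2325 (@Lb.r r536 (@Lb.d (nat_lit 345) (nat_lit 38) (nat_lit 161) (@Lb.fp (nat_lit 9) t799)))))))))))
noncomputable def l26580 : Lb := (@Lb.d (nat_lit 144) (nat_lit 0) (nat_lit 358) (@Lb.r r1105 (@Lb.r r98 (@Lb.r r601 (@Lb.r r1307 (@Lb.g g8 (@Lb.t (@Lb.fp (nat_lit 3) t2949))))))))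
noncomputable def l26581 : Lb := (@Lb.r r82 (@Lb.d (nat_lit 129) (nat_lit 2) (nat_lit 64) (@Lb.g g8 (@Lb.g g9 (@Lb.g g11 (@Lb.r r2723 (@Lb.r r1606 (@Lb.r r153 (@Lb.r r2456 (@Lb.d (nat_lit 405) (nat_lit 24) (nat_lit 90) (@Lb.t (@Lb.fm (nat_lit 9) t4986))))))))))))
noncomputable def l26582 : Lb := (@Lb.d (nat_lit 9) (nat_lit 8) (nat_lit 130) (@Lb.g g8 (@Lb.g g9 (@Lb.g g10 (@Lb.g g11 (@Lb.r r2731 (@Lb.r r680 (@Lb.r r2186 (@Lb.r r97 (@Lb.r r1060 (@Lb.d (nat_lit 538) (nat_lit 100) (nat_lit 673) (@Lb.fp (nat_lit 9) t916))))))))))))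
noncomputable def l26583 : Lb := (@Lb.r r82 (@Lb.d (nat_lit 2) (nat_lit 290) (nat_lit 136) (@Lb.g g8 (@Lb.g g9 (@Lb.g g11 (@Lb.r r98 (@Lb.r r36 (@Lb.d (nat_lit 8) (nat_lit 2) (nat_lit 2) (@Lb.t (@Lb.fm (nat_lit 9) t2353))))))))))
noncomputable def l26584 : Lb := (@Lb.d (nat_lit 4) (nat_lit 2) (nat_lit 0) (@Lb.g g8 (@Lb.g g9 (@Lb.r r322 (@Lb.r r1667 (@Lb.r r578 (@Lb.r r1049 (@Lb.d (nat_lit 521) (nat_lit 18) (nat_lit 266) (@Lb.fp (nat_lit 3) t210)))))))))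
noncomputable def l26585 : Lb := (@Lb.d (nat_lit 4) (nat_lit 2) (nat_lit 72) (@Lb.g g8 (@Lb.g g9 (@Lb.g g11 (@Lb.r r1410 (@Lb.r r579 (@Lb.r r1049 (@Lb.d (nat_lit 521) (nat_lit 18) (nat_lit 297) (@Lb.t (@Lb.fm (nat_lit 9) t210))))))))))
noncomputable def l26586 : Lb := (@Lb.d (nat_lit 2) (nat_lit 1) (nat_lit 64) (@Lb.g g8 (@Lb.g g9 (@Lb.g g10 (@Lb.g g11 (@Lb.r r1642 (@Lb.r r1049 (@Lb.d (nat_lit 521) (nat_lit 89) (nat_lit 130) (@Lb.fp (nat_lit 9) t71)))))))))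
noncomputable def l26587 : Lb := (@Lb.d (nat_lit 2) (nat_lit 258) (nat_lit 130) (@Lb.g g8 (@Lb.g g9 (@Lb.g g10 (@Lb.g g11 (@Lb.r r84 (@Lb.r r154 (@Lb.r r597 (@Lb.r r343 (@Lb.r r676 (@Lb.d (nat_lit 9) (nat_lit 66) (nat_lit 74) (@Lb.fm (nat_lit 9) t2))))))))))))
noncomputable def l26588 : Lb := (@Lb.r r70 (@Lb.d (nat_lit 166) (nat_lit 517) (nat_lit 64) (@Lb.g g8 (@Lb.g g5 (@Lb.g g11 (@Lb.r r1563 (@Lb.r r2438 (@Lb.r r2648 (@Lb.d (nat_lit 642) (nat_lit 165) (nat_lit 152) (@Lb.t (@Lb.fm (nat_lit 9) t175)))))))))))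
noncomputable def l26589 : Lb := (@Lb.d (nat_lit 8) (nat_lit 33) (nat_lit 1) (@Lb.g g9 (@Lb.g g10 (@Lb.r r1307 (@Lb.r r1160 (@Lb.r r2666 (@Lb.r r1625 (@Lb.d (nat_lit 613) (nat_lit 4) (nat_lit 410) (@Lb.fp (nat_lit 3) t430)))))))))
noncomputable def l26590 : Lb := (@Lb.d (nat_lit 674) (nat_lit 288) (nat_lit 136) (@Lb.r r1315 (@Lb.r r2405 (@Lb.r r154 (@Lb.g g7 (@Lb.g g5 (@Lb.g g8 (@Lb.d (nat_lit 9) (nat_lit 20) (nat_lit 68) (@Lb.t (@Lb.fm (nat_lit 9) t430))))))))))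
noncomputable def l26591 : Lb := (@Lb.d (nat_lit 9) (nat_lit 513) (nat_lit 130) (@Lb.g g8 (@Lb.g g9 (@Lb.g g10 (@Lb.g g11 (@Lb.r r427 (@Lb.r r297 (@Lb.r r104 (@Lb.r r70 (@Lb.r r132 (@Lb.d (nat_lit 9) (nat_lit 154) (nat_lit 9) (@Lb.fp (nat_lit 9) t51))))))))))))
noncomputable def l26592 : Lb := (@Lb.d (nat_lit 0) (nat_lit 258) (nat_lit 130) (@Lb.g g9 (@Lb.g g10 (@Lb.g g11 (@Lb.r r2467 (@Lb.r r401 (@Lb.r r1114 (@Lb.r r2193 (@Lb.d (nat_lit 522) (nat_lit 9) (nat_lit 546) (@Lb.t (@Lb.fm (nat_lit 9) t221)))))))))))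
noncomputable def l26593 : Lb := (@Lb.d (nat_lit 40) (nat_lit 513) (nat_lit 129) (@Lb.g g8 (@Lb.g g9 (@Lb.g g10 (@Lb.g g11 (@Lb.r r2666 (@Lb.r r359 (@Lb.r r277 (@Lb.r r520 (@Lb.d (nat_lit 394) (nat_lit 73) (nat_lit 258) (@Lb.fm (nat_lit 9) t842)))))))))))
noncomputable def l26594 : Lb := (@Lb.d (nat_lit 0) (nat_lit 65) (nat_lit 101) (@Lb.r r289 (@Lb.r r1386 (@Lb.r r1096 (@Lb.r r1307 (@Lb.g g10 (@Lb.g g5 (@Lb.fp (nat_lit 3) t807))))))))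
noncomputable def l26595 : Lb := (@Lb.d (nat_lit 8) (nat_lit 512) (nat_lit 128) (@Lb.g g8 (@Lb.g g11 (@Lb.r r1130 (@Lb.r r2453 (@Lb.r r1703 (@Lb.r r2372 (@Lb.d (nat_lit 616) (nat_lit 82) (nat_lit 276) (@Lb.fp (nat_lit 3) t807)))))))))
noncomputable def l26596 : Lb := (@Lb.d (nat_lit 5) (nat_lit 516) (nat_lit 33) (@Lb.r r289 (@Lb.r r279 (@Lb.r r584 (@Lb.g g6 (@Lb.g g5 (@Lb.d (nat_lit 16) (nat_lit 0) (nat_lit 1) (@Lb.r r387 (@Lb.fm (nat_lit 3) t74)))))))))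
noncomputable def l26597 : Lb := (@Lb.d (nat_lit 2) (nat_lit 261) (nat_lit 2) (@Lb.g g8 (@Lb.g g9 (@Lb.g g10 (@Lb.r r515 (@Lb.r r1130 (@Lb.r r2073 (@Lb.d (nat_lit 265) (nat_lit 9) (nat_lit 102) (@Lb.t (@Lb.fp (nat_lit 9) t69))))))))))
noncomputable def l26598 : Lb := (@Lb.r r21 (@Lb.d (nat_lit 17) (nat_lit 0) (nat_lit 128) (@Lb.g g8 (@Lb.g g10 (@Lb.g g11 (@Lb.r r2475 (@Lb.r r1557 (@Lb.r r2408 (@Lb.r r390 (@Lb.d (nat_lit 105) (nat_lit 154) (nat_lit 420) (@Lb.t (@Lb.fm (nat_lit 9) t1260))))))))))))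
noncomputable def l26599 : Lb := (@Lb.d (nat_lit 2) (nat_lit 292) (nat_lit 130) (@Lb.g g8 (@Lb.g g9 (@Lb.g g10 (@Lb.g g11 (@Lb.r r1707 (@Lb.r r2666 (@Lb.r r537 (@Lb.d (nat_lit 73) (nat_lit 105) (nat_lit 513) (@Lb.fm (nat_lit 9) t2714))))))))))
noncomputable def l26600 : Lb := (@Lb.g g8 (@Lb.g g11 (@Lb.r r1291 (@Lb.d (nat_lit 514) (nat_lit 0) (nat_lit 0) (@Lb.fm (nat_lit 3) t441)))))
noncomputable def l26601 : Lb := (@Lb.r r21 (@Lb.d (nat_lit 386) (nat_lit 520) (nat_lit 130) (@Lb.g g8 (@Lb.g g10 (@Lb.g g11 (@Lb.r r1419 (@Lb.r r101 (@Lb.r r410 (@Lb.d (nat_lit 9) (nat_lit 149) (nat_lit 649) (@Lb.t (@Lb.fm (nat_lit 9) t1606)))))))))))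
noncomputable def l26602 : Lb := (@Lb.d (nat_lit 2) (nat_lit 512) (nat_lit 136) (@Lb.g g8 (@Lb.g g9 (@Lb.g g11 (@Lb.r r1162 (@Lb.r r1188 (@Lb.r r405 (@Lb.r r1635 (@Lb.d (nat_lit 9) (nat_lit 2) (nat_lit 533) (@Lb.t (@Lb.fm (nat_lit 9) t4987)))))))))))
noncomputable def l26603 : Lb := (@Lb.d (nat_lit 2) (nat_lit 512) (nat_lit 136) (@Lb.g g8 (@Lb.g g9 (@Lb.g g11 (@Lb.r r1162 (@Lb.r r1188 (@Lb.r r405 (@Lb.r r1635 (@Lb.d (nat_lit 2) (nat_lit 73) (nat_lit 549) (@Lb.t (@Lb.fm (nat_lit 9) t4704)))))))))))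
noncomputable def l26604 : Lb := (@Lb.d (nat_lit 517) (nat_lit 326) (nat_lit 610) (@Lb.r r2068 (@Lb.r r281 (@Lb.r r615 (@Lb.g g6 (@Lb.g g4 (@Lb.d (nat_lit 69) (nat_lit 0) (nat_lit 33) (@Lb.r r387 (@Lb.fp (nat_lit 3) t3040)))))))))
noncomputable def l26605 : Lb := (@Lb.r r82 (@Lb.r r275 (@Lb.d (nat_lit 0) (nat_lit 1) (nat_lit 0) (@Lb.g g8 (@Lb.g g5 (@Lb.r r291 (@Lb.r r98 (@Lb.d (nat_lit 0) (nat_lit 128) (nat_lit 0) (@Lb.fp (nat_lit 3) t144)))))))))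
noncomputable def l26606 : Lb := (@Lb.d (nat_lit 2) (nat_lit 512) (nat_lit 130) (@Lb.g g8 (@Lb.g g9 (@Lb.g g10 (@Lb.g g11 (@Lb.r r1602 (@Lb.r r548 (@Lb.r r615 (@Lb.r r533 (@Lb.r r1060 (@Lb.d (nat_lit 10) (nat_lit 72) (nat_lit 345) (@Lb.fm (nat_lit 9) t4988))))))))))))
noncomputable def l26607 : Lb := (@Lb.d (nat_lit 9) (nat_lit 289) (nat_lit 66) (@Lb.g g8 (@Lb.g g9 (@Lb.g g10 (@Lb.g g11 (@Lb.r r1451 (@Lb.r r2154 (@Lb.r r2073 (@Lb.d (nat_lit 264) (nat_lit 137) (nat_lit 665) (@Lb.fp (nat_lit 9) t925))))))))))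
noncomputable def l26608 : Lb := (@Lb.r r168 (@Lb.r r425 (@Lb.r r2474 (@Lb.r r2391 (@Lb.r r1700 (@Lb.d (nat_lit 257) (nat_lit 0) (nat_lit 0) (@Lb.fm (nat_lit 1) t1261)))))))
noncomputable def l26609 : Lb := (@Lb.r r275 (@Lb.d (nat_lit 0) (nat_lit 522) (nat_lit 1) (@Lb.g g9 (@Lb.g g10 (@Lb.r r1699 (@Lb.r r2214 (@Lb.r r1112 (@Lb.r r2085 (@Lb.d (nat_lit 520) (nat_lit 130) (nat_lit 0) (@Lb.fm (nat_lit 3) t340))))))))))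
noncomputable def l26610 : Lb := (@Lb.r r275 (@Lb.d (nat_lit 0) (nat_lit 0) (nat_lit 2) (@Lb.g g9 (@Lb.g g10 (@Lb.r r1699 (@Lb.r r2214 (@Lb.r r1112 (@Lb.r r2085 (@Lb.d (nat_lit 521) (nat_lit 130) (nat_lit 0) (@Lb.fm (nat_lit 3) t823))))))))))
noncomputable def l26611 : Lb := (@Lb.d (nat_lit 2) (nat_lit 677) (nat_lit 646) (@Lb.r r24 (@Lb.r r97 (@Lb.r r386 (@Lb.g g11 (@Lb.g g6 (@Lb.g g5 (@Lb.d (nat_lit 0) (nat_lit 1) (nat_lit 129) (@Lb.t (@Lb.fp (nat_lit 9) t925))))))))))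
noncomputable def l26612 : Lb := (@Lb.d (nat_lit 402) (nat_lit 645) (nat_lit 401) (@Lb.r r2153 (@Lb.r r2084 (@Lb.r r426 (@Lb.g g11 (@Lb.g g6 (@Lb.g g5 (@Lb.d (nat_lit 4) (nat_lit 24) (nat_lit 394) (@Lb.t (@Lb.fm (nat_lit 9) t3890))))))))))
noncomputable def l26613 : Lb := (@Lb.r r81 (@Lb.r r263 (@Lb.d (nat_lit 0) (nat_lit 512) (nat_lit 34) (@Lb.g g8 (@Lb.g g10 (@Lb.r r2724 (@Lb.r r1575 (@Lb.r r37 (@Lb.d (nat_lit 2) (nat_lit 8) (nat_lit 17) (@Lb.fm (nat_lit 3) t2564))))))))))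
noncomputable def l26614 : Lb := (@Lb.r r2311 (@Lb.d (nat_lit 257) (nat_lit 256) (nat_lit 0) (@Lb.g g4 (@Lb.t (@Lb.fm (nat_lit 3) t3367)))))
noncomputable def l26615 : Lb := (@Lb.r r609 (@Lb.r r363 (@Lb.r r328 (@Lb.r r134 (@Lb.d (nat_lit 18) (nat_lit 10) (nat_lit 34) (@Lb.fm (nat_lit 1) t167))))))
noncomputable def l26616 : Lb := (@Lb.d (nat_lit 426) (nat_lit 322) (nat_lit 152) (@Lb.r r24 (@Lb.r r2321 (@Lb.r r386 (@Lb.r r1703 (@Lb.g g7 (@Lb.g g6 (@Lb.g g5 (@Lb.d (nat_lit 0) (nat_lit 24) (nat_lit 128) (@Lb.t (@Lb.fm (nat_lit 9) t1444)))))))))))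
noncomputable def l26617 : Lb := (@Lb.d (nat_lit 32) (nat_lit 256) (nat_lit 130) (@Lb.g g10 (@Lb.g g11 (@Lb.r r423 (@Lb.r r153 (@Lb.r r100 (@Lb.r r410 (@Lb.d (nat_lit 4) (nat_lit 20) (nat_lit 153) (@Lb.fp (nat_lit 3) t221)))))))))
noncomputable def l26618 : Lb := (@Lb.d (nat_lit 33) (nat_lit 162) (nat_lit 152) (@Lb.r r24 (@Lb.r r2325 (@Lb.r r386 (@Lb.r r1699 (@Lb.g g7 (@Lb.g g6 (@Lb.g g5 (@Lb.d (nat_lit 0) (nat_lit 25) (nat_lit 128) (@Lb.t (@Lb.fm (nat_lit 9) t1444)))))))))))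
noncomputable def l26619 : Lb := (@Lb.d (nat_lit 256) (nat_lit 164) (nat_lit 657) (@Lb.r r402 (@Lb.r r101 (@Lb.g g11 (@Lb.g g8 (@Lb.fm (nat_lit 3) t3622))))))
noncomputable def l26620 : Lb := (@Lb.g g8 (@Lb.g g5 (@Lb.g g10 (@Lb.g g7 (@Lb.r r402 (@Lb.d (nat_lit 0) (nat_lit 280) (nat_lit 66) (@Lb.fm (nat_lit 9) t71)))))))
noncomputable def l26621 : Lb := (@Lb.d (nat_lit 0) (nat_lit 2) (nat_lit 5) (@Lb.g g9 (@Lb.g g10 (@Lb.g g11 (@Lb.r r387 (@Lb.r r422 (@Lb.r r145 (@Lb.r r24 (@Lb.d (nat_lit 38) (nat_lit 8) (nat_lit 1) (@Lb.t (@Lb.fm (nat_lit 9) t145)))))))))))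
noncomputable def l26622 : Lb := (@Lb.d (nat_lit 5) (nat_lit 1) (nat_lit 129) (@Lb.r r402 (@Lb.r r101 (@Lb.r r24 (@Lb.g g11 (@Lb.g g6 (@Lb.fm (nat_lit 3) t145)))))))
noncomputable def l26623 : Lb := (@Lb.d (nat_lit 4) (nat_lit 522) (nat_lit 130) (@Lb.g g8 (@Lb.g g9 (@Lb.g g10 (@Lb.g g11 (@Lb.r r643 (@Lb.r r297 (@Lb.r r360 (@Lb.r r582 (@Lb.r r132 (@Lb.d (nat_lit 128) (nat_lit 136) (nat_lit 73) (@Lb.fm (nat_lit 9) t919))))))))))))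
noncomputable def l26624 : Lb := (@Lb.d (nat_lit 257) (nat_lit 258) (nat_lit 72) (@Lb.r r1608 (@Lb.r r2454 (@Lb.g g11 (@Lb.g g6 (@Lb.g g9 (@Lb.d (nat_lit 64) (nat_lit 154) (nat_lit 512) (@Lb.r r36 (@Lb.t (@Lb.fp (nat_lit 9) t4))))))))))
noncomputable def l26625 : Lb := (@Lb.d (nat_lit 8) (nat_lit 2) (nat_lit 0) (@Lb.g g9 (@Lb.r r2196 (@Lb.r r89 (@Lb.d (nat_lit 553) (nat_lit 6) (nat_lit 0) (@Lb.t (@Lb.fp (nat_lit 3) t4989)))))))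
noncomputable def l26626 : Lb := (@Lb.d (nat_lit 2) (nat_lit 514) (nat_lit 130) (@Lb.g g8 (@Lb.g g9 (@Lb.g g10 (@Lb.g g11 (@Lb.r r169 (@Lb.r r296 (@Lb.r r391 (@Lb.r r386 (@Lb.r r132 (@Lb.d (nat_lit 2) (nat_lit 10) (nat_lit 25) (@Lb.fm (nat_lit 9) t590))))))))))))
noncomputable def l26627 : Lb := (@Lb.d (nat_lit 578) (nat_lit 328) (nat_lit 101) (@Lb.r r1619 (@Lb.r r421 (@Lb.r r2136 (@Lb.r r1190 (@Lb.g g7 (@Lb.g g6 (@Lb.g g5 (@Lb.d (nat_lit 64) (nat_lit 0) (nat_lit 65) (@Lb.t (@Lb.fp (nat_lit 9) t948)))))))))))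
noncomputable def l26628 : Lb := (@Lb.d (nat_lit 2) (nat_lit 289) (nat_lit 66) (@Lb.g g8 (@Lb.g g9 (@Lb.g g10 (@Lb.g g11 (@Lb.r r427 (@Lb.r r409 (@Lb.r r2458 (@Lb.r r2436 (@Lb.d (nat_lit 664) (nat_lit 1) (nat_lit 408) (@Lb.fm (nat_lit 9) t378)))))))))))
noncomputable def l26629 : Lb := (@Lb.r r21 (@Lb.d (nat_lit 8) (nat_lit 0) (nat_lit 66) (@Lb.g g8 (@Lb.g g10 (@Lb.g g7 (@Lb.r r386 (@Lb.r r1173 (@Lb.r r1192 (@Lb.d (nat_lit 10) (nat_lit 132) (nat_lit 24) (@Lb.t (@Lb.fp (nat_lit 9) t40)))))))))))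
noncomputable def l26630 : Lb := (@Lb.r r21 (@Lb.d (nat_lit 0) (nat_lit 512) (nat_lit 66) (@Lb.g g8 (@Lb.g g10 (@Lb.g g7 (@Lb.r r386 (@Lb.r r2217 (@Lb.r r100 (@Lb.d (nat_lit 0) (nat_lit 8) (nat_lit 40) (@Lb.t (@Lb.fp (nat_lit 9) t3885)))))))))))
noncomputable def l26631 : Lb := (@Lb.d (nat_lit 0) (nat_lit 0) (nat_lit 66) (@Lb.g g10 (@Lb.g g7 (@Lb.r r386 (@Lb.r r2145 (@Lb.r r36 (@Lb.d (nat_lit 5) (nat_lit 9) (nat_lit 41) (@Lb.fp (nat_lit 3) t154))))))))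
noncomputable def l26632 : Lb := (@Lb.r r21 (@Lb.d (nat_lit 2) (nat_lit 512) (nat_lit 66) (@Lb.g g8 (@Lb.g g10 (@Lb.g g7 (@Lb.r r386 (@Lb.r r97 (@Lb.r r72 (@Lb.d (nat_lit 534) (nat_lit 1) (nat_lit 24) (@Lb.t (@Lb.fm (nat_lit 9) t40)))))))))))
noncomputable def l26633 : Lb := (@Lb.r r21 (@Lb.d (nat_lit 0) (nat_lit 256) (nat_lit 66) (@Lb.g g8 (@Lb.g g10 (@Lb.g g7 (@Lb.r r386 (@Lb.r r97 (@Lb.r r2072 (@Lb.d (nat_lit 34) (nat_lit 5) (nat_lit 10) (@Lb.t (@Lb.fm (nat_lit 9) t40)))))))))))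
noncomputable def l26634 : Lb := (@Lb.r r21 (@Lb.d (nat_lit 0) (nat_lit 0) (nat_lit 66) (@Lb.g g8 (@Lb.g g10 (@Lb.g g7 (@Lb.r r386 (@Lb.r r97 (@Lb.r r72 (@Lb.d (nat_lit 34) (nat_lit 10) (nat_lit 8) (@Lb.t (@Lb.fm (nat_lit 9) t40)))))))))))
noncomputable def l26635 : Lb := (@Lb.r r322 (@Lb.d (nat_lit 64) (nat_lit 554) (nat_lit 512) (@Lb.g g8 (@Lb.g g9 (@Lb.g g7 (@Lb.r r146 (@Lb.r r2180 (@Lb.d (nat_lit 546) (nat_lit 2) (nat_lit 68) (@Lb.t (@Lb.fm (nat_lit 9) t1397))))))))))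
noncomputable def l26636 : Lb := (@Lb.d (nat_lit 2) (nat_lit 289) (nat_lit 132) (@Lb.g g8 (@Lb.g g9 (@Lb.g g10 (@Lb.g g11 (@Lb.r r1610 (@Lb.r r600 (@Lb.r r293 (@Lb.r r2587 (@Lb.r r1540 (@Lb.d (nat_lit 521) (nat_lit 8) (nat_lit 130) (@Lb.fm (nat_lit 9) t948))))))))))))
noncomputable def l26637 : Lb := (@Lb.d (nat_lit 16) (nat_lit 264) (nat_lit 98) (@Lb.g g10 (@Lb.g g7 (@Lb.r r2069 (@Lb.r r8 (@Lb.d (nat_lit 152) (nat_lit 130) (nat_lit 676) (@Lb.fm (nat_lit 3) t4990)))))))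
noncomputable def l26638 : Lb := (@Lb.d (nat_lit 148) (nat_lit 594) (nat_lit 408) (@Lb.r r1382 (@Lb.r r85 (@Lb.r r2407 (@Lb.g g7 (@Lb.g g6 (@Lb.g g4 (@Lb.d (nat_lit 1) (nat_lit 0) (nat_lit 66) (@Lb.t (@Lb.fp (nat_lit 9) t4991))))))))))
noncomputable def l26639 : Lb := (@Lb.r r82 (@Lb.d (nat_lit 9) (nat_lit 544) (nat_lit 136) (@Lb.g g8 (@Lb.g g9 (@Lb.g g11 (@Lb.r r1430 (@Lb.r r2645 (@Lb.d (nat_lit 2) (nat_lit 170) (nat_lit 614) (@Lb.t (@Lb.fp (nat_lit 9) t2040))))))))))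
noncomputable def l26640 : Lb := (@Lb.d (nat_lit 522) (nat_lit 514) (nat_lit 256) (@Lb.r r24 (@Lb.r r101 (@Lb.r r402 (@Lb.g g11 (@Lb.t (@Lb.fm (nat_lit 3) t150)))))))
noncomputable def l26641 : Lb := (@Lb.r r323 (@Lb.d (nat_lit 0) (nat_lit 2) (nat_lit 41) (@Lb.g g9 (@Lb.g g6 (@Lb.r r387 (@Lb.r r97 (@Lb.d (nat_lit 357) (nat_lit 162) (nat_lit 613) (@Lb.fm (nat_lit 3) t2601))))))))
noncomputable def l26642 : Lb := (@Lb.d (nat_lit 130) (nat_lit 289) (nat_lit 0) (@Lb.g g8 (@Lb.g g9 (@Lb.g g10 (@Lb.r r2375 (@Lb.r r1690 (@Lb.r r2145 (@Lb.r r1572 (@Lb.d (nat_lit 138) (nat_lit 25) (nat_lit 673) (@Lb.t (@Lb.fm (nat_lit 9) t441)))))))))))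
noncomputable def l26643 : Lb := (@Lb.d (nat_lit 32) (nat_lit 512) (nat_lit 64) (@Lb.g g10 (@Lb.g g11 (@Lb.r r328 (@Lb.r r407 (@Lb.r r2726 (@Lb.r r609 (@Lb.d (nat_lit 586) (nat_lit 5) (nat_lit 530) (@Lb.fp (nat_lit 3) t1554)))))))))
noncomputable def l26644 : Lb := (@Lb.r r1045 (@Lb.d (nat_lit 261) (nat_lit 8) (nat_lit 130) (@Lb.g g4 (@Lb.g g10 (@Lb.g g11 (@Lb.r r387 (@Lb.d (nat_lit 1) (nat_lit 73) (nat_lit 1) (@Lb.t (@Lb.fp (nat_lit 9) t51)))))))))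
noncomputable def l26645 : Lb := (@Lb.r r1045 (@Lb.d (nat_lit 261) (nat_lit 288) (nat_lit 320) (@Lb.g g4 (@Lb.g g10 (@Lb.g g11 (@Lb.r r2626 (@Lb.d (nat_lit 1) (nat_lit 9) (nat_lit 386) (@Lb.t (@Lb.fp (nat_lit 9) t51)))))))))
noncomputable def l26646 : Lb := (@Lb.r r1045 (@Lb.r r323 (@Lb.d (nat_lit 261) (nat_lit 8) (nat_lit 6) (@Lb.g g4 (@Lb.g g10 (@Lb.r r387 (@Lb.d (nat_lit 1) (nat_lit 33) (nat_lit 386) (@Lb.fp (nat_lit 3) t51))))))))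
noncomputable def l26647 : Lb := (@Lb.r r1045 (@Lb.r r323 (@Lb.d (nat_lit 261) (nat_lit 520) (nat_lit 6) (@Lb.g g4 (@Lb.g g10 (@Lb.r r387 (@Lb.d (nat_lit 1) (nat_lit 38) (nat_lit 384) (@Lb.fp (nat_lit 3) t51))))))))
noncomputable def l26648 : Lb := (@Lb.r r82 (@Lb.d (nat_lit 2) (nat_lit 2) (nat_lit 0) (@Lb.g g8 (@Lb.g g9 (@Lb.r r2649 (@Lb.r r98 (@Lb.d (nat_lit 353) (nat_lit 90) (nat_lit 357) (@Lb.fm (nat_lit 3) t406))))))))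
noncomputable def l26649 : Lb := (@Lb.d (nat_lit 5) (nat_lit 514) (nat_lit 168) (@Lb.r r609 (@Lb.r r363 (@Lb.r r328 (@Lb.g g7 (@Lb.g g6 (@Lb.d (nat_lit 16) (nat_lit 0) (nat_lit 150) (@Lb.fm (nat_lit 3) t647))))))))
noncomputable def l26650 : Lb := (@Lb.d (nat_lit 5) (nat_lit 514) (nat_lit 168) (@Lb.r r609 (@Lb.r r363 (@Lb.r r328 (@Lb.g g6 (@Lb.d (nat_lit 16) (nat_lit 0) (nat_lit 17) (@Lb.t (@Lb.fm (nat_lit 3) t1043))))))))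
noncomputable def l26651 : Lb := (@Lb.d (nat_lit 32) (nat_lit 8) (nat_lit 130) (@Lb.g g10 (@Lb.g g11 (@Lb.r r2711 (@Lb.r r1384 (@Lb.r r361 (@Lb.r r1622 (@Lb.d (nat_lit 406) (nat_lit 102) (nat_lit 144) (@Lb.fp (nat_lit 3) t271)))))))))
noncomputable def l26652 : Lb := (@Lb.r r81 (@Lb.d (nat_lit 10) (nat_lit 32) (nat_lit 74) (@Lb.g g8 (@Lb.g g10 (@Lb.g g11 (@Lb.r r353 (@Lb.r r535 (@Lb.r r420 (@Lb.d (nat_lit 88) (nat_lit 36) (nat_lit 17) (@Lb.t (@Lb.fm (nat_lit 9) t573)))))))))))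
noncomputable def l26653 : Lb := (@Lb.d (nat_lit 401) (nat_lit 321) (nat_lit 512) (@Lb.r r1604 (@Lb.r r402 (@Lb.r r89 (@Lb.g g7 (@Lb.g g4 (@Lb.d (nat_lit 4) (nat_lit 0) (nat_lit 68) (@Lb.fp (nat_lit 3) t4992))))))))
noncomputable def l26654 : Lb := (@Lb.d (nat_lit 354) (nat_lit 346) (nat_lit 32) (@Lb.r r1354 (@Lb.r r1384 (@Lb.r r2711 (@Lb.g g6 (@Lb.g g9 (@Lb.d (nat_lit 0) (nat_lit 70) (nat_lit 2) (@Lb.fp (nat_lit 3) t4993))))))))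
noncomputable def l26655 : Lb := (@Lb.d (nat_lit 0) (nat_lit 516) (nat_lit 22) (@Lb.r r20 (@Lb.r r2145 (@Lb.r r386 (@Lb.g g11 (@Lb.g g6 (@Lb.d (nat_lit 0) (nat_lit 0) (nat_lit 129) (@Lb.fp (nat_lit 3) t594))))))))
noncomputable def l26656 : Lb := (@Lb.d (nat_lit 34) (nat_lit 264) (nat_lit 102) (@Lb.r r70 (@Lb.r r392 (@Lb.r r599 (@Lb.g g6 (@Lb.g g5 (@Lb.g g4 (@Lb.d (nat_lit 0) (nat_lit 17) (nat_lit 1) (@Lb.r r387 (@Lb.t (@Lb.fp (nat_lit 9) t242)))))))))))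
noncomputable def l26657 : Lb := (@Lb.d (nat_lit 5) (nat_lit 4) (nat_lit 128) (@Lb.g g8 (@Lb.g g9 (@Lb.g g10 (@Lb.g g11 (@Lb.r r1451 (@Lb.r r324 (@Lb.r r170 (@Lb.r r2217 (@Lb.r r1188 (@Lb.d (nat_lit 353) (nat_lit 73) (nat_lit 546) (@Lb.fp (nat_lit 9) t1246))))))))))))
noncomputable def l26658 : Lb := (@Lb.d (nat_lit 4) (nat_lit 6) (nat_lit 160) (@Lb.g g8 (@Lb.g g5 (@Lb.g g10 (@Lb.g g11 (@Lb.r r387 (@Lb.r r24 (@Lb.d (nat_lit 10) (nat_lit 0) (nat_lit 137) (@Lb.fp (nat_lit 9) t68)))))))))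
noncomputable def l26659 : Lb := (@Lb.d (nat_lit 69) (nat_lit 38) (nat_lit 102) (@Lb.r r408 (@Lb.r r330 (@Lb.r r343 (@Lb.g g5 (@Lb.g g4 (@Lb.d (nat_lit 17) (nat_lit 37) (nat_lit 0) (@Lb.r r291 (@Lb.r r98 (@Lb.fp (nat_lit 3) t98))))))))))
noncomputable def l26660 : Lb := (@Lb.d (nat_lit 100) (nat_lit 550) (nat_lit 32) (@Lb.r r408 (@Lb.r r330 (@Lb.r r343 (@Lb.g g5 (@Lb.g g4 (@Lb.d (nat_lit 17) (nat_lit 4) (nat_lit 0) (@Lb.r r291 (@Lb.r r98 (@Lb.fp (nat_lit 3) t50))))))))))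
noncomputable def l26661 : Lb := (@Lb.r r323 (@Lb.d (nat_lit 130) (nat_lit 516) (nat_lit 0) (@Lb.g g8 (@Lb.g g9 (@Lb.g g10 (@Lb.r r599 (@Lb.r r98 (@Lb.r r97 (@Lb.r r2312 (@Lb.d (nat_lit 673) (nat_lit 138) (nat_lit 656) (@Lb.t (@Lb.fp (nat_lit 9) t2060))))))))))))
noncomputable def l26662 : Lb := (@Lb.r r82 (@Lb.r r275 (@Lb.d (nat_lit 34) (nat_lit 538) (nat_lit 0) (@Lb.g g8 (@Lb.g g9 (@Lb.r r427 (@Lb.r r582 (@Lb.r r408 (@Lb.d (nat_lit 410) (nat_lit 20) (nat_lit 168) (@Lb.fp (nat_lit 3) t4994))))))))))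
noncomputable def l26663 : Lb := (@Lb.r r82 (@Lb.d (nat_lit 34) (nat_lit 514) (nat_lit 128) (@Lb.g g8 (@Lb.g g9 (@Lb.g g11 (@Lb.r r363 (@Lb.r r582 (@Lb.r r388 (@Lb.d (nat_lit 598) (nat_lit 4) (nat_lit 170) (@Lb.t (@Lb.fm (nat_lit 9) t819)))))))))))
noncomputable def l26664 : Lb := (@Lb.d (nat_lit 10) (nat_lit 513) (nat_lit 130) (@Lb.g g8 (@Lb.g g9 (@Lb.g g10 (@Lb.g g11 (@Lb.r r662 (@Lb.r r356 (@Lb.r r1323 (@Lb.r r1313 (@Lb.d (nat_lit 9) (nat_lit 66) (nat_lit 586) (@Lb.fp (nat_lit 9) t697)))))))))))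
noncomputable def l26665 : Lb := (@Lb.d (nat_lit 0) (nat_lit 256) (nat_lit 128) (@Lb.g g11 (@Lb.r r326 (@Lb.r r1419 (@Lb.r r1425 (@Lb.r r1432 (@Lb.d (nat_lit 264) (nat_lit 129) (nat_lit 613) (@Lb.t (@Lb.fm (nat_lit 3) t4797)))))))))
noncomputable def l26666 : Lb := (@Lb.d (nat_lit 298) (nat_lit 72) (nat_lit 1) (@Lb.r r168 (@Lb.r r90 (@Lb.r r1427 (@Lb.g g9 (@Lb.g g4 (@Lb.d (nat_lit 17) (nat_lit 130) (nat_lit 0) (@Lb.r r291 (@Lb.r r98 (@Lb.fm (nat_lit 3) t1538))))))))))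
noncomputable def l26667 : Lb := (@Lb.d (nat_lit 4) (nat_lit 292) (nat_lit 64) (@Lb.g g8 (@Lb.g g9 (@Lb.g g10 (@Lb.g g11 (@Lb.r r1443 (@Lb.r r578 (@Lb.r r1444 (@Lb.r r1317 (@Lb.d (nat_lit 18) (nat_lit 82) (nat_lit 86) (@Lb.fm (nat_lit 9) t4995)))))))))))
noncomputable def l26668 : Lb := (@Lb.d (nat_lit 144) (nat_lit 2) (nat_lit 64) (@Lb.g g8 (@Lb.g g9 (@Lb.g g10 (@Lb.g g11 (@Lb.r r427 (@Lb.r r1602 (@Lb.r r409 (@Lb.r r388 (@Lb.d (nat_lit 105) (nat_lit 40) (nat_lit 73) (@Lb.fp (nat_lit 9) t394)))))))))))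
noncomputable def l26669 : Lb := (@Lb.d (nat_lit 390) (nat_lit 512) (nat_lit 0) (@Lb.r r21 (@Lb.r r70 (@Lb.g g4 (@Lb.d (nat_lit 585) (nat_lit 0) (nat_lit 0) (@Lb.r r74 (@Lb.r r25 (@Lb.t (@Lb.fm (nat_lit 3) t2691)))))))))
noncomputable def l26670 : Lb := (@Lb.d (nat_lit 2) (nat_lit 257) (nat_lit 74) (@Lb.g g8 (@Lb.g g9 (@Lb.g g10 (@Lb.g g11 (@Lb.r r342 (@Lb.r r2728 (@Lb.r r2603 (@Lb.r r2581 (@Lb.d (nat_lit 386) (nat_lit 104) (nat_lit 329) (@Lb.fp (nat_lit 9) t3558)))))))))))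
noncomputable def l26671 : Lb := (@Lb.d (nat_lit 389) (nat_lit 145) (nat_lit 320) (@Lb.r r21 (@Lb.r r2340 (@Lb.r r2406 (@Lb.g g7 (@Lb.g g4 (@Lb.r r74 (@Lb.r r25 (@Lb.fm (nat_lit 3) t4996)))))))))
noncomputable def l26672 : Lb := (@Lb.r r331 (@Lb.d (nat_lit 37) (nat_lit 258) (nat_lit 2) (@Lb.g g8 (@Lb.g g9 (@Lb.g g10 (@Lb.r r1430 (@Lb.r r347 (@Lb.r r1573 (@Lb.r r2708 (@Lb.d (nat_lit 554) (nat_lit 104) (nat_lit 388) (@Lb.t (@Lb.fm (nat_lit 9) t3335))))))))))))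
noncomputable def l26673 : Lb := (@Lb.r r331 (@Lb.d (nat_lit 37) (nat_lit 514) (nat_lit 2) (@Lb.g g8 (@Lb.g g9 (@Lb.g g10 (@Lb.r r1430 (@Lb.r r347 (@Lb.r r1573 (@Lb.r r2708 (@Lb.d (nat_lit 550) (nat_lit 101) (nat_lit 390) (@Lb.t (@Lb.fm (nat_lit 9) t1039))))))))))))
noncomputable def l26674 : Lb := (@Lb.d (nat_lit 0) (nat_lit 356) (nat_lit 129) (@Lb.r r24 (@Lb.r r1617 (@Lb.r r354 (@Lb.g g11 (@Lb.g g10 (@Lb.g g8 (@Lb.t (@Lb.fp (nat_lit 9) t3129)))))))))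
noncomputable def l26675 : Lb := (@Lb.r r82 (@Lb.d (nat_lit 132) (nat_lit 17) (nat_lit 0) (@Lb.g g8 (@Lb.g g9 (@Lb.g g11 (@Lb.r r299 (@Lb.r r2154 (@Lb.r r2405 (@Lb.r r264 (@Lb.d (nat_lit 293) (nat_lit 166) (nat_lit 596) (@Lb.t (@Lb.fm (nat_lit 9) t2343))))))))))))
noncomputable def l26676 : Lb := (@Lb.r r275 (@Lb.d (nat_lit 0) (nat_lit 0) (nat_lit 2) (@Lb.g g9 (@Lb.g g10 (@Lb.r r2666 (@Lb.r r2635 (@Lb.r r600 (@Lb.r r293 (@Lb.d (nat_lit 69) (nat_lit 130) (nat_lit 512) (@Lb.fp (nat_lit 3) t827))))))))))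
noncomputable def l26677 : Lb := (@Lb.r r40 (@Lb.r r425 (@Lb.r r2474 (@Lb.r r2391 (@Lb.r r2212 (@Lb.d (nat_lit 266) (nat_lit 128) (nat_lit 576) (@Lb.fm (nat_lit 1) t1639)))))))
noncomputable def l26678 : Lb := (@Lb.d (nat_lit 5) (nat_lit 580) (nat_lit 33) (@Lb.r r2308 (@Lb.r r1563 (@Lb.r r277 (@Lb.r r616 (@Lb.g g6 (@Lb.d (nat_lit 16) (nat_lit 0) (nat_lit 1) (@Lb.r r387 (@Lb.t (@Lb.fm (nat_lit 3) t428))))))))))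
noncomputable def l26679 : Lb := (@Lb.d (nat_lit 2) (nat_lit 258) (nat_lit 130) (@Lb.g g8 (@Lb.g g9 (@Lb.g g10 (@Lb.g g11 (@Lb.r r1387 (@Lb.r r1442 (@Lb.r r2712 (@Lb.r r1445 (@Lb.d (nat_lit 416) (nat_lit 17) (nat_lit 105) (@Lb.fm (nat_lit 9) t2555)))))))))))
noncomputable def l26680 : Lb := (@Lb.d (nat_lit 17) (nat_lit 136) (nat_lit 97) (@Lb.r r21 (@Lb.r r100 (@Lb.r r515 (@Lb.g g10 (@Lb.g g5 (@Lb.d (nat_lit 0) (nat_lit 6) (nat_lit 4) (@Lb.fm (nat_lit 3) t4997))))))))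
noncomputable def l26681 : Lb := (@Lb.d (nat_lit 2) (nat_lit 512) (nat_lit 1) (@Lb.g g8 (@Lb.g g9 (@Lb.g g10 (@Lb.r r2579 (@Lb.r r2345 (@Lb.r r2408 (@Lb.r r1606 (@Lb.d (nat_lit 160) (nat_lit 5) (nat_lit 358) (@Lb.t (@Lb.fp (nat_lit 9) t2911)))))))))))
noncomputable def l26682 : Lb := (@Lb.d (nat_lit 2) (nat_lit 256) (nat_lit 64) (@Lb.g g8 (@Lb.g g11 (@Lb.r r89 (@Lb.r r610 (@Lb.r r24 (@Lb.d (nat_lit 516) (nat_lit 153) (nat_lit 658) (@Lb.fp (nat_lit 3) t1832))))))))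
noncomputable def l26683 : Lb := (@Lb.d (nat_lit 4) (nat_lit 6) (nat_lit 0) (@Lb.g g5 (@Lb.g g7 (@Lb.r r402 (@Lb.d (nat_lit 1) (nat_lit 6) (nat_lit 133) (@Lb.fp (nat_lit 3) t311))))))
noncomputable def l26684 : Lb := (@Lb.d (nat_lit 4) (nat_lit 262) (nat_lit 0) (@Lb.g g5 (@Lb.g g7 (@Lb.r r402 (@Lb.d (nat_lit 0) (nat_lit 6) (nat_lit 133) (@Lb.fp (nat_lit 3) t311))))))
noncomputable def l26685 : Lb := (@Lb.d (nat_lit 4) (nat_lit 517) (nat_lit 74) (@Lb.g g8 (@Lb.g g9 (@Lb.g g10 (@Lb.g g11 (@Lb.r r1699 (@Lb.r r1064 (@Lb.r r1689 (@Lb.r r146 (@Lb.d (nat_lit 586) (nat_lit 4) (nat_lit 664) (@Lb.fm (nat_lit 9) t151)))))))))))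
noncomputable def l26686 : Lb := (@Lb.d (nat_lit 6) (nat_lit 512) (nat_lit 130) (@Lb.g g8 (@Lb.g g9 (@Lb.g g10 (@Lb.g g11 (@Lb.r r2411 (@Lb.r r386 (@Lb.r r104 (@Lb.r r25 (@Lb.d (nat_lit 521) (nat_lit 9) (nat_lit 136) (@Lb.fp (nat_lit 9) t61)))))))))))
noncomputable def l26687 : Lb := (@Lb.g g9 (@Lb.r r154 (@Lb.r r664 (@Lb.r r411 (@Lb.r r609 (@Lb.r r36 (@Lb.d (nat_lit 10) (nat_lit 16) (nat_lit 0) (@Lb.t (@Lb.fm (nat_lit 3) t71)))))))))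
noncomputable def l26688 : Lb := (@Lb.g g9 (@Lb.r r1114 (@Lb.r r20 (@Lb.r r1049 (@Lb.d (nat_lit 586) (nat_lit 66) (nat_lit 512) (@Lb.t (@Lb.fp (nat_lit 3) t282)))))))
noncomputable def l26689 : Lb := (@Lb.d (nat_lit 2) (nat_lit 516) (nat_lit 128) (@Lb.g g8 (@Lb.g g9 (@Lb.g g10 (@Lb.g g11 (@Lb.r r427 (@Lb.r r145 (@Lb.r r356 (@Lb.r r154 (@Lb.r r132 (@Lb.d (nat_lit 10) (nat_lit 9) (nat_lit 146) (@Lb.fm (nat_lit 9) t4998))))))))))))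
noncomputable def l26690 : Lb := (@Lb.r r1379 (@Lb.r r89 (@Lb.r r1126 (@Lb.d (nat_lit 293) (nat_lit 325) (nat_lit 0) (@Lb.fp (nat_lit 1) t417)))))
noncomputable def l26691 : Lb := (@Lb.d (nat_lit 0) (nat_lit 550) (nat_lit 0) (@Lb.g g9 (@Lb.r r535 (@Lb.r r328 (@Lb.r r134 (@Lb.d (nat_lit 17) (nat_lit 9) (nat_lit 2) (@Lb.t (@Lb.fm (nat_lit 3) t61))))))))
noncomputable def l26692 : Lb := (@Lb.d (nat_lit 0) (nat_lit 514) (nat_lit 64) (@Lb.g g9 (@Lb.g g11 (@Lb.r r337 (@Lb.r r299 (@Lb.r r328 (@Lb.r r134 (@Lb.d (nat_lit 16) (nat_lit 5) (nat_lit 1) (@Lb.fm (nat_lit 3) t61)))))))))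
noncomputable def l26693 : Lb := (@Lb.d (nat_lit 530) (nat_lit 265) (nat_lit 32) (@Lb.r r2194 (@Lb.r r2133 (@Lb.r r1303 (@Lb.g g6 (@Lb.g g5 (@Lb.g g4 (@Lb.d (nat_lit 1) (nat_lit 6) (nat_lit 2) (@Lb.r r387 (@Lb.t (@Lb.fm (nat_lit 9) t125)))))))))))
noncomputable def l26694 : Lb := (@Lb.r r20 (@Lb.d (nat_lit 0) (nat_lit 577) (nat_lit 64) (@Lb.g g9 (@Lb.g g10 (@Lb.g g11 (@Lb.r r610 (@Lb.d (nat_lit 0) (nat_lit 25) (nat_lit 130) (@Lb.t (@Lb.fm (nat_lit 9) t71)))))))))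
noncomputable def l26695 : Lb := (@Lb.d (nat_lit 2) (nat_lit 272) (nat_lit 2) (@Lb.g g8 (@Lb.g g9 (@Lb.g g10 (@Lb.g g11 (@Lb.r r2391 (@Lb.r r358 (@Lb.r r664 (@Lb.r r421 (@Lb.d (nat_lit 105) (nat_lit 97) (nat_lit 137) (@Lb.fp (nat_lit 9) t823)))))))))))
noncomputable def l26696 : Lb := (@Lb.d (nat_lit 1) (nat_lit 290) (nat_lit 2) (@Lb.g g8 (@Lb.g g9 (@Lb.g g10 (@Lb.r r1194 (@Lb.r r2468 (@Lb.r r1307 (@Lb.r r1573 (@Lb.d (nat_lit 384) (nat_lit 18) (nat_lit 517) (@Lb.t (@Lb.fm (nat_lit 9) t284)))))))))))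
noncomputable def l26697 : Lb := (@Lb.d (nat_lit 2) (nat_lit 0) (nat_lit 73) (@Lb.g g8 (@Lb.g g9 (@Lb.g g10 (@Lb.g g11 (@Lb.r r2691 (@Lb.r r1610 (@Lb.r r596 (@Lb.r r297 (@Lb.r r2084 (@Lb.d (nat_lit 656) (nat_lit 104) (nat_lit 96) (@Lb.fp (nat_lit 9) t4999))))))))))))
noncomputable def l26698 : Lb := (@Lb.d (nat_lit 105) (nat_lit 612) (nat_lit 393) (@Lb.r r1642 (@Lb.r r619 (@Lb.r r1625 (@Lb.r r344 (@Lb.g g7 (@Lb.g g6 (@Lb.d (nat_lit 16) (nat_lit 0) (nat_lit 129) (@Lb.fm (nat_lit 3) t3660)))))))))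
noncomputable def l26699 : Lb := (@Lb.r r275 (@Lb.d (nat_lit 2) (nat_lit 0) (nat_lit 2) (@Lb.g g8 (@Lb.g g9 (@Lb.g g10 (@Lb.r r1699 (@Lb.r r386 (@Lb.r r613 (@Lb.r r24 (@Lb.d (nat_lit 352) (nat_lit 0) (nat_lit 261) (@Lb.t (@Lb.fm (nat_lit 9) t1937))))))))))))
noncomputable def l26700 : Lb := (@Lb.d (nat_lit 0) (nat_lit 257) (nat_lit 130) (@Lb.g g8 (@Lb.g g9 (@Lb.g g10 (@Lb.g g11 (@Lb.r r1451 (@Lb.r r1321 (@Lb.r r104 (@Lb.r r70 (@Lb.r r132 (@Lb.d (nat_lit 2) (nat_lit 137) (nat_lit 681) (@Lb.fp (nat_lit 9) t51))))))))))))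
noncomputable def l26701 : Lb := (@Lb.d (nat_lit 400) (nat_lit 82) (nat_lit 353) (@Lb.r r1092 (@Lb.r r330 (@Lb.r r2451 (@Lb.g g5 (@Lb.g g4 (@Lb.d (nat_lit 17) (nat_lit 33) (nat_lit 0) (@Lb.fm (nat_lit 3) t3557))))))))
noncomputable def l26702 : Lb := (@Lb.r r1045 (@Lb.r r322 (@Lb.d (nat_lit 1) (nat_lit 0) (nat_lit 8) (@Lb.g g8 (@Lb.g g11 (@Lb.r r1414 (@Lb.r r72 (@Lb.d (nat_lit 544) (nat_lit 0) (nat_lit 130) (@Lb.fm (nat_lit 3) t627)))))))))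
noncomputable def l26703 : Lb := (@Lb.d (nat_lit 406) (nat_lit 1) (nat_lit 545) (@Lb.r r1092 (@Lb.r r330 (@Lb.r r2707 (@Lb.r r273 (@Lb.g g7 (@Lb.g g5 (@Lb.g g4 (@Lb.d (nat_lit 17) (nat_lit 1) (nat_lit 128) (@Lb.t (@Lb.fm (nat_lit 9) t744)))))))))))
noncomputable def l26704 : Lb := (@Lb.d (nat_lit 400) (nat_lit 1) (nat_lit 545) (@Lb.r r1092 (@Lb.r r330 (@Lb.r r2451 (@Lb.g g5 (@Lb.g g4 (@Lb.d (nat_lit 17) (nat_lit 33) (nat_lit 0) (@Lb.fm (nat_lit 3) t744))))))))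
noncomputable def l26705 : Lb := (@Lb.d (nat_lit 5) (nat_lit 257) (nat_lit 32) (@Lb.r r154 (@Lb.r r660 (@Lb.r r1621 (@Lb.r r2599 (@Lb.g g11 (@Lb.g g5 (@Lb.fp (nat_lit 3) t5000))))))))
noncomputable def l26706 : Lb := (@Lb.r r323 (@Lb.d (nat_lit 32) (nat_lit 514) (nat_lit 2) (@Lb.g g9 (@Lb.g g10 (@Lb.r r2347 (@Lb.r r2197 (@Lb.r r1124 (@Lb.r r2458 (@Lb.d (nat_lit 660) (nat_lit 82) (nat_lit 666) (@Lb.fp (nat_lit 3) t61))))))))))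
noncomputable def l26707 : Lb := (@Lb.d (nat_lit 0) (nat_lit 516) (nat_lit 128) (@Lb.g g9 (@Lb.g g10 (@Lb.g g11 (@Lb.r r1699 (@Lb.r r1186 (@Lb.r r2705 (@Lb.d (nat_lit 0) (nat_lit 98) (nat_lit 98) (@Lb.t (@Lb.fm (nat_lit 9) t144))))))))))
noncomputable def l26708 : Lb := (@Lb.d (nat_lit 290) (nat_lit 518) (nat_lit 33) (@Lb.r r134 (@Lb.r r328 (@Lb.r r407 (@Lb.g g5 (@Lb.d (nat_lit 0) (nat_lit 33) (nat_lit 0) (@Lb.t (@Lb.fm (nat_lit 3) t3557))))))))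
noncomputable def l26709 : Lb := (@Lb.g g10 (@Lb.r r289 (@Lb.r r535 (@Lb.r r328 (@Lb.r r134 (@Lb.d (nat_lit 10) (nat_lit 514) (nat_lit 0) (@Lb.t (@Lb.fp (nat_lit 3) t40))))))))
noncomputable def l26710 : Lb := (@Lb.r r81 (@Lb.r r323 (@Lb.d (nat_lit 18) (nat_lit 0) (nat_lit 40) (@Lb.g g8 (@Lb.g g10 (@Lb.r r1619 (@Lb.r r101 (@Lb.r r152 (@Lb.d (nat_lit 664) (nat_lit 85) (nat_lit 592) (@Lb.fp (nat_lit 3) t3890))))))))))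
noncomputable def l26711 : Lb := (@Lb.d (nat_lit 0) (nat_lit 329) (nat_lit 129) (@Lb.g g9 (@Lb.g g10 (@Lb.g g11 (@Lb.r r2658 (@Lb.r r1611 (@Lb.r r2564 (@Lb.d (nat_lit 20) (nat_lit 0) (nat_lit 22) (@Lb.t (@Lb.fp (nat_lit 9) t5001))))))))))
noncomputable def l26712 : Lb := (@Lb.d (nat_lit 0) (nat_lit 578) (nat_lit 130) (@Lb.g g9 (@Lb.g g10 (@Lb.g g11 (@Lb.r r2658 (@Lb.r r1611 (@Lb.r r2564 (@Lb.d (nat_lit 25) (nat_lit 1) (nat_lit 22) (@Lb.t (@Lb.fp (nat_lit 9) t2934))))))))))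
noncomputable def l26713 : Lb := (@Lb.d (nat_lit 578) (nat_lit 530) (nat_lit 10) (@Lb.r r2340 (@Lb.r r1577 (@Lb.r r2134 (@Lb.r r2711 (@Lb.g g6 (@Lb.g g5 (@Lb.g g4 (@Lb.d (nat_lit 18) (nat_lit 1) (nat_lit 2) (@Lb.t (@Lb.fp (nat_lit 9) t377)))))))))))
noncomputable def l26714 : Lb := (@Lb.r r273 (@Lb.d (nat_lit 10) (nat_lit 512) (nat_lit 578) (@Lb.g g8 (@Lb.g g10 (@Lb.g g7 (@Lb.r r386 (@Lb.r r149 (@Lb.r r2408 (@Lb.d (nat_lit 548) (nat_lit 106) (nat_lit 1) (@Lb.t (@Lb.fp (nat_lit 9) t3278)))))))))))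
noncomputable def l26715 : Lb := (@Lb.r r21 (@Lb.d (nat_lit 10) (nat_lit 512) (nat_lit 64) (@Lb.g g8 (@Lb.g g11 (@Lb.r r2459 (@Lb.r r2138 (@Lb.r r37 (@Lb.d (nat_lit 4) (nat_lit 65) (nat_lit 170) (@Lb.fp (nat_lit 3) t51)))))))))
noncomputable def l26716 : Lb := (@Lb.r r82 (@Lb.d (nat_lit 0) (nat_lit 8) (nat_lit 584) (@Lb.g g9 (@Lb.g g7 (@Lb.r r2650 (@Lb.r r88 (@Lb.r r37 (@Lb.d (nat_lit 517) (nat_lit 146) (nat_lit 640) (@Lb.fp (nat_lit 3) t1117)))))))))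
noncomputable def l26717 : Lb := (@Lb.d (nat_lit 1) (nat_lit 538) (nat_lit 41) (@Lb.r r150 (@Lb.r r584 (@Lb.r r267 (@Lb.g g6 (@Lb.g g9 (@Lb.g g4 (@Lb.d (nat_lit 64) (nat_lit 33) (nat_lit 5) (@Lb.t (@Lb.fm (nat_lit 9) t5))))))))))
noncomputable def l26718 : Lb := (@Lb.d (nat_lit 0) (nat_lit 512) (nat_lit 2) (@Lb.g g9 (@Lb.g g10 (@Lb.r r2691 (@Lb.r r2658 (@Lb.d (nat_lit 0) (nat_lit 37) (nat_lit 297) (@Lb.fp (nat_lit 3) t71)))))))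
noncomputable def l26719 : Lb := (@Lb.d (nat_lit 74) (nat_lit 514) (nat_lit 680) (@Lb.r r20 (@Lb.r r297 (@Lb.g g11 (@Lb.g g5 (@Lb.g g4 (@Lb.d (nat_lit 4) (nat_lit 1) (nat_lit 128) (@Lb.r r2146 (@Lb.t (@Lb.fp (nat_lit 9) t51))))))))))
noncomputable def l26720 : Lb := (@Lb.d (nat_lit 2) (nat_lit 513) (nat_lit 0) (@Lb.g g8 (@Lb.g g9 (@Lb.r r153 (@Lb.r r402 (@Lb.d (nat_lit 97) (nat_lit 0) (nat_lit 90) (@Lb.fp (nat_lit 3) t590)))))))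
noncomputable def l26721 : Lb := (@Lb.d (nat_lit 128) (nat_lit 8) (nat_lit 130) (@Lb.g g10 (@Lb.g g11 (@Lb.r r361 (@Lb.r r292 (@Lb.r r539 (@Lb.r r134 (@Lb.d (nat_lit 105) (nat_lit 34) (nat_lit 22) (@Lb.fp (nat_lit 3) t2)))))))))
noncomputable def l26722 : Lb := (@Lb.d (nat_lit 2) (nat_lit 9) (nat_lit 65) (@Lb.g g8 (@Lb.g g9 (@Lb.g g10 (@Lb.g g11 (@Lb.r r427 (@Lb.r r106 (@Lb.r r25 (@Lb.d (nat_lit 9) (nat_lit 9) (nat_lit 137) (@Lb.fp (nat_lit 9) t594))))))))))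
noncomputable def l26723 : Lb := (@Lb.d (nat_lit 2) (nat_lit 265) (nat_lit 129) (@Lb.g g8 (@Lb.g g9 (@Lb.g g10 (@Lb.g g11 (@Lb.r r427 (@Lb.r r106 (@Lb.r r25 (@Lb.d (nat_lit 9) (nat_lit 9) (nat_lit 2) (@Lb.fp (nat_lit 9) t594))))))))))
noncomputable def l26724 : Lb := (@Lb.d (nat_lit 2) (nat_lit 521) (nat_lit 66) (@Lb.g g8 (@Lb.g g9 (@Lb.g g10 (@Lb.g g11 (@Lb.r r1323 (@Lb.r r2626 (@Lb.r r25 (@Lb.d (nat_lit 9) (nat_lit 104) (nat_lit 642) (@Lb.fp (nat_lit 9) t1161))))))))))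
noncomputable def l26725 : Lb := (@Lb.d (nat_lit 2) (nat_lit 521) (nat_lit 129) (@Lb.g g8 (@Lb.g g9 (@Lb.g g10 (@Lb.g g11 (@Lb.r r427 (@Lb.r r106 (@Lb.r r25 (@Lb.d (nat_lit 9) (nat_lit 9) (nat_lit 137) (@Lb.fp (nat_lit 9) t594))))))))))
noncomputable def l26726 : Lb := (@Lb.d (nat_lit 10) (nat_lit 8) (nat_lit 130) (@Lb.g g8 (@Lb.g g10 (@Lb.g g11 (@Lb.r r353 (@Lb.r r407 (@Lb.r r584 (@Lb.r r134 (@Lb.d (nat_lit 41) (nat_lit 2) (nat_lit 20) (@Lb.t (@Lb.fp (nat_lit 9) t2)))))))))))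
noncomputable def l26727 : Lb := (@Lb.d (nat_lit 8) (nat_lit 2) (nat_lit 130) (@Lb.g g9 (@Lb.g g10 (@Lb.g g11 (@Lb.r r614 (@Lb.r r408 (@Lb.r r295 (@Lb.r r1317 (@Lb.d (nat_lit 329) (nat_lit 33) (nat_lit 402) (@Lb.t (@Lb.fm (nat_lit 9) t4188)))))))))))
noncomputable def l26728 : Lb := (@Lb.d (nat_lit 585) (nat_lit 145) (nat_lit 322) (@Lb.r r2340 (@Lb.r r2145 (@Lb.r r363 (@Lb.g g10 (@Lb.g g4 (@Lb.d (nat_lit 65) (nat_lit 8) (nat_lit 1) (@Lb.r r387 (@Lb.fm (nat_lit 3) t901)))))))))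
noncomputable def l26729 : Lb := (@Lb.d (nat_lit 262) (nat_lit 594) (nat_lit 320) (@Lb.r r2145 (@Lb.r r150 (@Lb.r r324 (@Lb.r r651 (@Lb.g g7 (@Lb.g g6 (@Lb.g g4 (@Lb.d (nat_lit 2) (nat_lit 0) (nat_lit 64) (@Lb.t (@Lb.fm (nat_lit 9) t901)))))))))))
noncomputable def l26730 : Lb := (@Lb.d (nat_lit 8) (nat_lit 521) (nat_lit 129) (@Lb.g g9 (@Lb.g g10 (@Lb.g g11 (@Lb.r r614 (@Lb.r r408 (@Lb.r r295 (@Lb.r r1317 (@Lb.d (nat_lit 328) (nat_lit 33) (nat_lit 402) (@Lb.t (@Lb.fm (nat_lit 9) t5002)))))))))))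
noncomputable def l26731 : Lb := (@Lb.d (nat_lit 9) (nat_lit 513) (nat_lit 130) (@Lb.g g8 (@Lb.g g9 (@Lb.g g10 (@Lb.g g11 (@Lb.r r2411 (@Lb.r r386 (@Lb.r r97 (@Lb.r r24 (@Lb.d (nat_lit 533) (nat_lit 8) (nat_lit 68) (@Lb.fm (nat_lit 9) t61)))))))))))
noncomputable def l26732 : Lb := (@Lb.r r323 (@Lb.d (nat_lit 1) (nat_lit 546) (nat_lit 2) (@Lb.g g8 (@Lb.g g9 (@Lb.g g10 (@Lb.r r343 (@Lb.r r138 (@Lb.r r548 (@Lb.r r613 (@Lb.d (nat_lit 150) (nat_lit 149) (nat_lit 258) (@Lb.t (@Lb.fm (nat_lit 9) t51))))))))))))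
noncomputable def l26733 : Lb := (@Lb.r r323 (@Lb.d (nat_lit 2) (nat_lit 34) (nat_lit 2) (@Lb.g g8 (@Lb.g g9 (@Lb.g g10 (@Lb.r r343 (@Lb.r r138 (@Lb.r r548 (@Lb.r r613 (@Lb.d (nat_lit 150) (nat_lit 154) (nat_lit 256) (@Lb.t (@Lb.fm (nat_lit 9) t51))))))))))))
noncomputable def l26734 : Lb := (@Lb.r r82 (@Lb.d (nat_lit 2) (nat_lit 258) (nat_lit 64) (@Lb.g g8 (@Lb.g g9 (@Lb.g g11 (@Lb.r r299 (@Lb.r r418 (@Lb.r r289 (@Lb.r r24 (@Lb.d (nat_lit 74) (nat_lit 161) (nat_lit 384) (@Lb.t (@Lb.fp (nat_lit 9) t1589))))))))))))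
noncomputable def l26735 : Lb := (@Lb.d (nat_lit 128) (nat_lit 8) (nat_lit 74) (@Lb.g g10 (@Lb.g g11 (@Lb.r r1369 (@Lb.r r280 (@Lb.r r551 (@Lb.r r2186 (@Lb.d (nat_lit 648) (nat_lit 144) (nat_lit 129) (@Lb.fp (nat_lit 3) t127)))))))))
noncomputable def l26736 : Lb := (@Lb.d (nat_lit 408) (nat_lit 66) (nat_lit 662) (@Lb.r r2649 (@Lb.r r408 (@Lb.r r330 (@Lb.g g11 (@Lb.g g5 (@Lb.g g4 (@Lb.d (nat_lit 17) (nat_lit 5) (nat_lit 384) (@Lb.r r578 (@Lb.t (@Lb.fp (nat_lit 9) t1567)))))))))))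
noncomputable def l26737 : Lb := (@Lb.r r355 (@Lb.d (nat_lit 32) (nat_lit 40) (nat_lit 2) (@Lb.g g9 (@Lb.g g10 (@Lb.r r580 (@Lb.r r2439 (@Lb.r r1346 (@Lb.d (nat_lit 288) (nat_lit 132) (nat_lit 389) (@Lb.fm (nat_lit 3) t594)))))))))
noncomputable def l26738 : Lb := (@Lb.d (nat_lit 2) (nat_lit 0) (nat_lit 64) (@Lb.g g8 (@Lb.g g11 (@Lb.r r1387 (@Lb.r r594 (@Lb.r r2136 (@Lb.r r1061 (@Lb.d (nat_lit 96) (nat_lit 66) (nat_lit 596) (@Lb.fm (nat_lit 3) t413)))))))))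
noncomputable def l26739 : Lb := (@Lb.d (nat_lit 2) (nat_lit 514) (nat_lit 73) (@Lb.g g8 (@Lb.g g9 (@Lb.g g10 (@Lb.g g11 (@Lb.r r683 (@Lb.r r537 (@Lb.r r132 (@Lb.r r102 (@Lb.r r132 (@Lb.d (nat_lit 4) (nat_lit 136) (nat_lit 258) (@Lb.fm (nat_lit 9) t51))))))))))))
noncomputable def l26740 : Lb := (@Lb.d (nat_lit 0) (nat_lit 102) (nat_lit 72) (@Lb.r r2456 (@Lb.r r322 (@Lb.r r603 (@Lb.g g6 (@Lb.g g9 (@Lb.g g4 (@Lb.d (nat_lit 1) (nat_lit 130) (nat_lit 1) (@Lb.r r267 (@Lb.t (@Lb.fm (nat_lit 9) t74)))))))))))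
noncomputable def l26741 : Lb := (@Lb.r r82 (@Lb.r r275 (@Lb.d (nat_lit 34) (nat_lit 26) (nat_lit 0) (@Lb.g g8 (@Lb.g g9 (@Lb.r r427 (@Lb.r r582 (@Lb.r r408 (@Lb.d (nat_lit 130) (nat_lit 26) (nat_lit 136) (@Lb.fp (nat_lit 3) t1506))))))))))
noncomputable def l26742 : Lb := (@Lb.d (nat_lit 2) (nat_lit 294) (nat_lit 64) (@Lb.g g8 (@Lb.g g9 (@Lb.g g10 (@Lb.g g11 (@Lb.r r1706 (@Lb.r r676 (@Lb.r r551 (@Lb.r r533 (@Lb.r r1060 (@Lb.d (nat_lit 386) (nat_lit 2) (nat_lit 586) (@Lb.fp (nat_lit 9) t594))))))))))))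
noncomputable def l26743 : Lb := (@Lb.d (nat_lit 0) (nat_lit 256) (nat_lit 138) (@Lb.g g10 (@Lb.g g7 (@Lb.r r402 (@Lb.d (nat_lit 5) (nat_lit 18) (nat_lit 10) (@Lb.fm (nat_lit 3) t44))))))
noncomputable def l26744 : Lb := (@Lb.d (nat_lit 2) (nat_lit 514) (nat_lit 73) (@Lb.g g8 (@Lb.g g9 (@Lb.g g10 (@Lb.g g11 (@Lb.r r1706 (@Lb.r r680 (@Lb.r r555 (@Lb.r r1553 (@Lb.r r2084 (@Lb.d (nat_lit 4) (nat_lit 96) (nat_lit 586) (@Lb.fm (nat_lit 9) t51))))))))))))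
noncomputable def l26745 : Lb := (@Lb.d (nat_lit 0) (nat_lit 258) (nat_lit 4) (@Lb.g g9 (@Lb.g g10 (@Lb.g g11 (@Lb.r r2722 (@Lb.r r2713 (@Lb.r r2587 (@Lb.r r24 (@Lb.d (nat_lit 34) (nat_lit 0) (nat_lit 329) (@Lb.t (@Lb.fp (nat_lit 9) t1097)))))))))))
noncomputable def l26746 : Lb := (@Lb.g g10 (@Lb.r r2663 (@Lb.r r2145 (@Lb.r r360 (@Lb.r r150 (@Lb.d (nat_lit 260) (nat_lit 0) (nat_lit 0) (@Lb.t (@Lb.fp (nat_lit 3) t2199))))))))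
noncomputable def l26747 : Lb := (@Lb.r r275 (@Lb.d (nat_lit 0) (nat_lit 5) (nat_lit 1) (@Lb.g g9 (@Lb.g g6 (@Lb.r r1411 (@Lb.r r1697 (@Lb.d (nat_lit 0) (nat_lit 154) (nat_lit 410) (@Lb.fm (nat_lit 3) t1219))))))))
noncomputable def l26748 : Lb := (@Lb.d (nat_lit 0) (nat_lit 2) (nat_lit 130) (@Lb.g g9 (@Lb.g g10 (@Lb.g g11 (@Lb.r r2691 (@Lb.r r417 (@Lb.r r98 (@Lb.d (nat_lit 0) (nat_lit 160) (nat_lit 593) (@Lb.t (@Lb.fm (nat_lit 9) t311))))))))))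
noncomputable def l26749 : Lb := (@Lb.d (nat_lit 0) (nat_lit 517) (nat_lit 1) (@Lb.g g11 (@Lb.g g5 (@Lb.fp (nat_lit 3) t87))))
noncomputable def l26750 : Lb := (@Lb.d (nat_lit 298) (nat_lit 261) (nat_lit 660) (@Lb.r r150 (@Lb.r r72 (@Lb.r r293 (@Lb.r r2395 (@Lb.g g7 (@Lb.g g6 (@Lb.g g5 (@Lb.d (nat_lit 16) (nat_lit 1) (nat_lit 65) (@Lb.t (@Lb.fm (nat_lit 9) t1278)))))))))))
noncomputable def l26751 : Lb := (@Lb.d (nat_lit 2) (nat_lit 32) (nat_lit 128) (@Lb.g g8 (@Lb.g g9 (@Lb.g g11 (@Lb.r r2137 (@Lb.r r1378 (@Lb.r r403 (@Lb.d (nat_lit 137) (nat_lit 25) (nat_lit 530) (@Lb.t (@Lb.fm (nat_lit 9) t406))))))))))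
noncomputable def l26752 : Lb := (@Lb.d (nat_lit 2) (nat_lit 262) (nat_lit 0) (@Lb.g g8 (@Lb.g g9 (@Lb.g g10 (@Lb.r r665 (@Lb.r r659 (@Lb.r r146 (@Lb.d (nat_lit 409) (nat_lit 21) (nat_lit 169) (@Lb.t (@Lb.fm (nat_lit 9) t2444))))))))))
noncomputable def l26753 : Lb := (@Lb.r r81 (@Lb.r r323 (@Lb.d (nat_lit 10) (nat_lit 0) (nat_lit 33) (@Lb.g g8 (@Lb.g g6 (@Lb.r r149 (@Lb.r r1384 (@Lb.r r2439 (@Lb.d (nat_lit 0) (nat_lit 34) (nat_lit 544) (@Lb.fm (nat_lit 3) t1246))))))))))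
noncomputable def l26754 : Lb := (@Lb.r r275 (@Lb.d (nat_lit 18) (nat_lit 258) (nat_lit 8) (@Lb.g g8 (@Lb.g g9 (@Lb.g g10 (@Lb.r r401 (@Lb.r r1323 (@Lb.r r2440 (@Lb.r r410 (@Lb.d (nat_lit 258) (nat_lit 24) (nat_lit 649) (@Lb.t (@Lb.fm (nat_lit 9) t1000))))))))))))
noncomputable def l26755 : Lb := (@Lb.r r404 (@Lb.r r1451 (@Lb.r r2178 (@Lb.r r405 (@Lb.r r20 (@Lb.d (nat_lit 517) (nat_lit 257) (nat_lit 256) (@Lb.fm (nat_lit 1) t3207)))))))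
noncomputable def l26756 : Lb := (@Lb.r r404 (@Lb.r r1451 (@Lb.r r2178 (@Lb.r r405 (@Lb.r r20 (@Lb.d (nat_lit 512) (nat_lit 512) (nat_lit 256) (@Lb.fm (nat_lit 1) t3207)))))))
noncomputable def l26757 : Lb := (@Lb.d (nat_lit 0) (nat_lit 646) (nat_lit 0) (@Lb.g g9 (@Lb.r r260 (@Lb.r r523 (@Lb.r r1154 (@Lb.r r516 (@Lb.d (nat_lit 292) (nat_lit 132) (nat_lit 1) (@Lb.t (@Lb.fp (nat_lit 3) t3979)))))))))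
noncomputable def l26758 : Lb := (@Lb.r r20 (@Lb.d (nat_lit 0) (nat_lit 294) (nat_lit 0) (@Lb.g g9 (@Lb.g g10 (@Lb.r r1627 (@Lb.r r422 (@Lb.r r401 (@Lb.d (nat_lit 576) (nat_lit 26) (nat_lit 138) (@Lb.fm (nat_lit 3) t412)))))))))
noncomputable def l26759 : Lb := (@Lb.d (nat_lit 4) (nat_lit 294) (nat_lit 129) (@Lb.r r37 (@Lb.r r422 (@Lb.g g11 (@Lb.g g6 (@Lb.g g5 (@Lb.g g8 (@Lb.d (nat_lit 0) (nat_lit 6) (nat_lit 1) (@Lb.fp (nat_lit 9) t167)))))))))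
noncomputable def l26760 : Lb := (@Lb.r r82 (@Lb.d (nat_lit 8) (nat_lit 258) (nat_lit 128) (@Lb.g g9 (@Lb.g g11 (@Lb.r r291 (@Lb.r r422 (@Lb.r r600 (@Lb.r r293 (@Lb.d (nat_lit 73) (nat_lit 9) (nat_lit 137) (@Lb.fp (nat_lit 3) t5003))))))))))
noncomputable def l26761 : Lb := (@Lb.g g10 (@Lb.g g7 (@Lb.r r24 (@Lb.r r101 (@Lb.r r402 (@Lb.d (nat_lit 10) (nat_lit 2) (nat_lit 66) (@Lb.fm (nat_lit 3) t3133)))))))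
noncomputable def l26762 : Lb := (@Lb.d (nat_lit 25) (nat_lit 4) (nat_lit 2) (@Lb.r r24 (@Lb.r r81 (@Lb.r r422 (@Lb.r r323 (@Lb.g g7 (@Lb.g g6 (@Lb.g g5 (@Lb.d (nat_lit 0) (nat_lit 1) (nat_lit 64) (@Lb.t (@Lb.fp (nat_lit 9) t1531)))))))))))
noncomputable def l26763 : Lb := (@Lb.d (nat_lit 37) (nat_lit 513) (nat_lit 2) (@Lb.r r24 (@Lb.r r85 (@Lb.r r418 (@Lb.r r323 (@Lb.g g7 (@Lb.g g6 (@Lb.g g5 (@Lb.d (nat_lit 0) (nat_lit 2) (nat_lit 10) (@Lb.t (@Lb.fp (nat_lit 9) t686)))))))))))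
noncomputable def l26764 : Lb := (@Lb.d (nat_lit 144) (nat_lit 256) (nat_lit 129) (@Lb.r r402 (@Lb.r r101 (@Lb.g g11 (@Lb.g g8 (@Lb.fm (nat_lit 3) t4593))))))
noncomputable def l26765 : Lb := (@Lb.r r82 (@Lb.d (nat_lit 1) (nat_lit 2) (nat_lit 128) (@Lb.g g4 (@Lb.g g9 (@Lb.g g11 (@Lb.r r551 (@Lb.r r165 (@Lb.r r98 (@Lb.d (nat_lit 42) (nat_lit 4) (nat_lit 128) (@Lb.t (@Lb.fp (nat_lit 9) t5004)))))))))))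
noncomputable def l26766 : Lb := (@Lb.d (nat_lit 2) (nat_lit 292) (nat_lit 129) (@Lb.r r402 (@Lb.g g11 (@Lb.g g6 (@Lb.g g9 (@Lb.d (nat_lit 8) (nat_lit 2) (nat_lit 0) (@Lb.t (@Lb.fm (nat_lit 9) t39))))))))
noncomputable def l26767 : Lb := (@Lb.d (nat_lit 4) (nat_lit 550) (nat_lit 129) (@Lb.r r37 (@Lb.r r422 (@Lb.g g11 (@Lb.g g6 (@Lb.g g5 (@Lb.g g8 (@Lb.d (nat_lit 0) (nat_lit 1) (nat_lit 0) (@Lb.fp (nat_lit 9) t167)))))))))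
noncomputable def l26768 : Lb := (@Lb.d (nat_lit 0) (nat_lit 548) (nat_lit 129) (@Lb.r r402 (@Lb.g g11 (@Lb.g g6 (@Lb.g g9 (@Lb.g g4 (@Lb.d (nat_lit 8) (nat_lit 2) (nat_lit 0) (@Lb.fm (nat_lit 9) t39))))))))
noncomputable def l26769 : Lb := (@Lb.d (nat_lit 2) (nat_lit 521) (nat_lit 1) (@Lb.g g8 (@Lb.g g9 (@Lb.g g10 (@Lb.g g11 (@Lb.r r427 (@Lb.r r1177 (@Lb.r r146 (@Lb.d (nat_lit 545) (nat_lit 10) (nat_lit 17) (@Lb.fm (nat_lit 9) t1038))))))))))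
noncomputable def l26770 : Lb := (@Lb.r r82 (@Lb.r r275 (@Lb.d (nat_lit 2) (nat_lit 256) (nat_lit 0) (@Lb.g g8 (@Lb.g g9 (@Lb.r r299 (@Lb.r r386 (@Lb.r r25 (@Lb.d (nat_lit 9) (nat_lit 66) (nat_lit 650) (@Lb.fp (nat_lit 3) t2852))))))))))
noncomputable def l26771 : Lb := (@Lb.r r275 (@Lb.d (nat_lit 2) (nat_lit 522) (nat_lit 1) (@Lb.g g8 (@Lb.g g9 (@Lb.g g10 (@Lb.r r427 (@Lb.r r578 (@Lb.r r409 (@Lb.d (nat_lit 153) (nat_lit 90) (nat_lit 512) (@Lb.t (@Lb.fm (nat_lit 9) t948)))))))))))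
noncomputable def l26772 : Lb := (@Lb.r r323 (@Lb.d (nat_lit 0) (nat_lit 2) (nat_lit 41) (@Lb.g g9 (@Lb.g g6 (@Lb.r r387 (@Lb.r r1313 (@Lb.d (nat_lit 0) (nat_lit 161) (nat_lit 16) (@Lb.fm (nat_lit 3) t3012))))))))
noncomputable def l26773 : Lb := (@Lb.r r82 (@Lb.r r275 (@Lb.d (nat_lit 2) (nat_lit 0) (nat_lit 0) (@Lb.g g8 (@Lb.g g9 (@Lb.r r299 (@Lb.r r386 (@Lb.r r25 (@Lb.d (nat_lit 9) (nat_lit 66) (nat_lit 512) (@Lb.fp (nat_lit 3) t948))))))))))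
noncomputable def l26774 : Lb := (@Lb.r r323 (@Lb.d (nat_lit 2) (nat_lit 0) (nat_lit 2) (@Lb.g g8 (@Lb.g g9 (@Lb.g g10 (@Lb.r r2411 (@Lb.r r2434 (@Lb.r r1625 (@Lb.d (nat_lit 617) (nat_lit 166) (nat_lit 410) (@Lb.t (@Lb.fp (nat_lit 9) t2459)))))))))))
noncomputable def l26775 : Lb := (@Lb.r r323 (@Lb.d (nat_lit 8) (nat_lit 2) (nat_lit 2) (@Lb.g g9 (@Lb.g g10 (@Lb.r r102 (@Lb.r r404 (@Lb.r r619 (@Lb.r r609 (@Lb.d (nat_lit 1) (nat_lit 24) (nat_lit 2) (@Lb.fm (nat_lit 3) t71))))))))))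
noncomputable def l26776 : Lb := (@Lb.d (nat_lit 146) (nat_lit 0) (nat_lit 134) (@Lb.r r68 (@Lb.r r273 (@Lb.r r330 (@Lb.g g7 (@Lb.g g4 (@Lb.d (nat_lit 17) (nat_lit 0) (nat_lit 72) (@Lb.fm (nat_lit 3) t355))))))))
noncomputable def l26777 : Lb := (@Lb.d (nat_lit 17) (nat_lit 256) (nat_lit 6) (@Lb.r r68 (@Lb.r r273 (@Lb.r r330 (@Lb.g g7 (@Lb.g g4 (@Lb.d (nat_lit 17) (nat_lit 0) (nat_lit 128) (@Lb.fm (nat_lit 3) t98))))))))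
noncomputable def l26778 : Lb := (@Lb.d (nat_lit 149) (nat_lit 257) (nat_lit 134) (@Lb.r r68 (@Lb.r r273 (@Lb.r r330 (@Lb.g g7 (@Lb.g g4 (@Lb.d (nat_lit 17) (nat_lit 0) (nat_lit 72) (@Lb.fm (nat_lit 3) t355))))))))
noncomputable def l26779 : Lb := (@Lb.d (nat_lit 0) (nat_lit 521) (nat_lit 65) (@Lb.g g9 (@Lb.g g10 (@Lb.g g7 (@Lb.r r402 (@Lb.r r145 (@Lb.d (nat_lit 5) (nat_lit 22) (nat_lit 6) (@Lb.t (@Lb.fm (nat_lit 9) t607)))))))))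
noncomputable def l26780 : Lb := (@Lb.r r275 (@Lb.d (nat_lit 2) (nat_lit 517) (nat_lit 0) (@Lb.g g8 (@Lb.g g9 (@Lb.g g10 (@Lb.r r2666 (@Lb.r r1603 (@Lb.r r553 (@Lb.d (nat_lit 390) (nat_lit 25) (nat_lit 514) (@Lb.t (@Lb.fm (nat_lit 9) t536)))))))))))
noncomputable def l26781 : Lb := (@Lb.d (nat_lit 0) (nat_lit 5) (nat_lit 64) (@Lb.g g9 (@Lb.g g10 (@Lb.g g7 (@Lb.r r386 (@Lb.r r101 (@Lb.d (nat_lit 17) (nat_lit 10) (nat_lit 9) (@Lb.t (@Lb.fp (nat_lit 9) t607)))))))))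
noncomputable def l26782 : Lb := (@Lb.d (nat_lit 8) (nat_lit 644) (nat_lit 17) (@Lb.r r2129 (@Lb.r r1190 (@Lb.r r2392 (@Lb.r r1703 (@Lb.g g6 (@Lb.g g5 (@Lb.d (nat_lit 0) (nat_lit 5) (nat_lit 2) (@Lb.fp (nat_lit 3) t71)))))))))
noncomputable def l26783 : Lb := (@Lb.r r323 (@Lb.g g6 (@Lb.r r578 (@Lb.r r2659 (@Lb.r r101 (@Lb.r r24 (@Lb.d (nat_lit 258) (nat_lit 0) (nat_lit 33) (@Lb.t (@Lb.fp (nat_lit 3) t592)))))))))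
noncomputable def l26784 : Lb := (@Lb.d (nat_lit 0) (nat_lit 256) (nat_lit 512) (@Lb.r r84 (@Lb.r r1177 (@Lb.r r154 (@Lb.r r664 (@Lb.g g7 (@Lb.d (nat_lit 0) (nat_lit 0) (nat_lit 64) (@Lb.t (@Lb.fm (nat_lit 3) t322)))))))))
noncomputable def l26785 : Lb := (@Lb.r r323 (@Lb.d (nat_lit 0) (nat_lit 520) (nat_lit 6) (@Lb.g g4 (@Lb.g g10 (@Lb.r r387 (@Lb.d (nat_lit 1) (nat_lit 166) (nat_lit 384) (@Lb.fp (nat_lit 3) t51)))))))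
noncomputable def l26786 : Lb := (@Lb.g g10 (@Lb.g g7 (@Lb.r r612 (@Lb.r r359 (@Lb.r r1365 (@Lb.r r2730 (@Lb.r r676 (@Lb.fm (nat_lit 3) t2))))))))
noncomputable def l26787 : Lb := (@Lb.d (nat_lit 32) (nat_lit 8) (nat_lit 74) (@Lb.g g10 (@Lb.g g11 (@Lb.r r356 (@Lb.r r667 (@Lb.r r337 (@Lb.r r674 (@Lb.d (nat_lit 8) (nat_lit 21) (nat_lit 134) (@Lb.fm (nat_lit 3) t2)))))))))
noncomputable def l26788 : Lb := (@Lb.r r323 (@Lb.d (nat_lit 130) (nat_lit 514) (nat_lit 2) (@Lb.g g8 (@Lb.g g9 (@Lb.g g10 (@Lb.r r343 (@Lb.r r162 (@Lb.r r145 (@Lb.r r612 (@Lb.d (nat_lit 149) (nat_lit 21) (nat_lit 2) (@Lb.t (@Lb.fp (nat_lit 9) t51))))))))))))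
noncomputable def l26789 : Lb := (@Lb.d (nat_lit 130) (nat_lit 520) (nat_lit 0) (@Lb.g g8 (@Lb.g g10 (@Lb.r r279 (@Lb.r r2601 (@Lb.r r1704 (@Lb.r r2186 (@Lb.d (nat_lit 16) (nat_lit 90) (nat_lit 392) (@Lb.fp (nat_lit 3) t2)))))))))
noncomputable def l26790 : Lb := (@Lb.d (nat_lit 0) (nat_lit 512) (nat_lit 128) (@Lb.g g4 (@Lb.g g10 (@Lb.g g11 (@Lb.r r2626 (@Lb.d (nat_lit 1) (nat_lit 90) (nat_lit 682) (@Lb.t (@Lb.fp (nat_lit 9) t654))))))))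
noncomputable def l26791 : Lb := (@Lb.r r323 (@Lb.d (nat_lit 130) (nat_lit 258) (nat_lit 2) (@Lb.g g8 (@Lb.g g9 (@Lb.g g10 (@Lb.r r343 (@Lb.r r162 (@Lb.r r145 (@Lb.r r612 (@Lb.d (nat_lit 152) (nat_lit 22) (nat_lit 137) (@Lb.t (@Lb.fp (nat_lit 9) t51))))))))))))
noncomputable def l26792 : Lb := (@Lb.d (nat_lit 8) (nat_lit 2) (nat_lit 130) (@Lb.g g9 (@Lb.g g10 (@Lb.g g11 (@Lb.r r419 (@Lb.r r98 (@Lb.d (nat_lit 2) (nat_lit 4) (nat_lit 1) (@Lb.t (@Lb.fm (nat_lit 9) t51)))))))))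
noncomputable def l26793 : Lb := (@Lb.d (nat_lit 0) (nat_lit 288) (nat_lit 320) (@Lb.g g4 (@Lb.g g10 (@Lb.g g11 (@Lb.r r2626 (@Lb.d (nat_lit 1) (nat_lit 137) (nat_lit 386) (@Lb.t (@Lb.fp (nat_lit 9) t51))))))))
noncomputable def l26794 : Lb := (@Lb.g g4 (@Lb.r r322 (@Lb.r r659 (@Lb.r r578 (@Lb.d (nat_lit 1) (nat_lit 656) (nat_lit 320) (@Lb.t (@Lb.fp (nat_lit 3) t51)))))))
noncomputable def l26795 : Lb := (@Lb.d (nat_lit 2) (nat_lit 512) (nat_lit 2) (@Lb.g g8 (@Lb.g g5 (@Lb.g g10 (@Lb.g g7 (@Lb.r r1178 (@Lb.r r24 (@Lb.d (nat_lit 280) (nat_lit 0) (nat_lit 85) (@Lb.fp (nat_lit 9) t282)))))))))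
noncomputable def l26796 : Lb := (@Lb.d (nat_lit 32) (nat_lit 264) (nat_lit 2) (@Lb.g g6 (@Lb.r r1192 (@Lb.r r169 (@Lb.r r2218 (@Lb.d (nat_lit 281) (nat_lit 137) (nat_lit 16) (@Lb.t (@Lb.fp (nat_lit 3) t3183))))))))
noncomputable def l26797 : Lb := (@Lb.d (nat_lit 2) (nat_lit 514) (nat_lit 130) (@Lb.g g8 (@Lb.g g9 (@Lb.g g10 (@Lb.g g11 (@Lb.r r2666 (@Lb.r r579 (@Lb.r r25 (@Lb.d (nat_lit 9) (nat_lit 144) (nat_lit 320) (@Lb.fm (nat_lit 9) t51))))))))))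
noncomputable def l26798 : Lb := (@Lb.d (nat_lit 5) (nat_lit 422) (nat_lit 64) (@Lb.r r24 (@Lb.r r2657 (@Lb.g g7 (@Lb.g g10 (@Lb.g g5 (@Lb.g g4 (@Lb.d (nat_lit 1) (nat_lit 8) (nat_lit 166) (@Lb.fm (nat_lit 9) t51)))))))))
noncomputable def l26799 : Lb := (@Lb.d (nat_lit 665) (nat_lit 534) (nat_lit 390) (@Lb.r r2660 (@Lb.r r1637 (@Lb.r r346 (@Lb.g g11 (@Lb.g g4 (@Lb.d (nat_lit 21) (nat_lit 0) (nat_lit 72) (@Lb.fm (nat_lit 3) t386))))))))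
noncomputable def l26800 : Lb := (@Lb.r r323 (@Lb.d (nat_lit 2) (nat_lit 514) (nat_lit 2) (@Lb.g g8 (@Lb.g g9 (@Lb.g g10 (@Lb.r r362 (@Lb.r r387 (@Lb.r r25 (@Lb.d (nat_lit 9) (nat_lit 144) (nat_lit 320) (@Lb.t (@Lb.fm (nat_lit 9) t51)))))))))))
noncomputable def l26801 : Lb := (@Lb.d (nat_lit 665) (nat_lit 278) (nat_lit 390) (@Lb.r r2660 (@Lb.r r1637 (@Lb.r r346 (@Lb.g g11 (@Lb.g g4 (@Lb.d (nat_lit 22) (nat_lit 0) (nat_lit 72) (@Lb.fm (nat_lit 3) t386))))))))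
noncomputable def l26802 : Lb := (@Lb.d (nat_lit 4) (nat_lit 257) (nat_lit 74) (@Lb.g g5 (@Lb.g g10 (@Lb.g g11 (@Lb.r r387 (@Lb.d (nat_lit 293) (nat_lit 1) (nat_lit 40) (@Lb.t (@Lb.fp (nat_lit 9) t127))))))))
noncomputable def l26803 : Lb := (@Lb.d (nat_lit 337) (nat_lit 609) (nat_lit 593) (@Lb.r r1301 (@Lb.r r619 (@Lb.r r1604 (@Lb.r r2378 (@Lb.g g7 (@Lb.g g6 (@Lb.g g5 (@Lb.d (nat_lit 64) (nat_lit 1) (nat_lit 65) (@Lb.t (@Lb.fm (nat_lit 9) t4484)))))))))))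
noncomputable def l26804 : Lb := (@Lb.d (nat_lit 401) (nat_lit 401) (nat_lit 676) (@Lb.r r1355 (@Lb.r r360 (@Lb.r r89 (@Lb.g g7 (@Lb.g g10 (@Lb.g g4 (@Lb.d (nat_lit 6) (nat_lit 16) (nat_lit 81) (@Lb.t (@Lb.fp (nat_lit 9) t1813))))))))))
noncomputable def l26805 : Lb := (@Lb.d (nat_lit 128) (nat_lit 256) (nat_lit 644) (@Lb.g g9 (@Lb.g g11 (@Lb.r r2376 (@Lb.r r1158 (@Lb.r r1169 (@Lb.d (nat_lit 529) (nat_lit 0) (nat_lit 128) (@Lb.fm (nat_lit 3) t296))))))))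
noncomputable def l26806 : Lb := (@Lb.r r81 (@Lb.d (nat_lit 128) (nat_lit 32) (nat_lit 130) (@Lb.g g6 (@Lb.g g11 (@Lb.r r409 (@Lb.r r408 (@Lb.r r615 (@Lb.d (nat_lit 154) (nat_lit 152) (nat_lit 136) (@Lb.fp (nat_lit 3) t3562)))))))))
noncomputable def l26807 : Lb := (@Lb.d (nat_lit 610) (nat_lit 389) (nat_lit 38) (@Lb.r r2378 (@Lb.r r2408 (@Lb.r r1687 (@Lb.g g6 (@Lb.g g9 (@Lb.d (nat_lit 16) (nat_lit 68) (nat_lit 2) (@Lb.r r36 (@Lb.fp (nat_lit 3) t5005)))))))))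
noncomputable def l26808 : Lb := (@Lb.d (nat_lit 90) (nat_lit 277) (nat_lit 522) (@Lb.r r663 (@Lb.r r353 (@Lb.g g7 (@Lb.g g6 (@Lb.g g4 (@Lb.d (nat_lit 260) (nat_lit 16) (nat_lit 64) (@Lb.r r153 (@Lb.t (@Lb.fp (nat_lit 9) t5006))))))))))
noncomputable def l26809 : Lb := (@Lb.d (nat_lit 133) (nat_lit 326) (nat_lit 2) (@Lb.r r293 (@Lb.r r600 (@Lb.r r603 (@Lb.g g6 (@Lb.g g5 (@Lb.d (nat_lit 16) (nat_lit 26) (nat_lit 17) (@Lb.r r387 (@Lb.fp (nat_lit 3) t5007)))))))))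
noncomputable def l26810 : Lb := (@Lb.d (nat_lit 610) (nat_lit 640) (nat_lit 37) (@Lb.r r2378 (@Lb.r r2408 (@Lb.r r1687 (@Lb.g g6 (@Lb.g g9 (@Lb.d (nat_lit 16) (nat_lit 68) (nat_lit 2) (@Lb.r r36 (@Lb.fp (nat_lit 3) t4294)))))))))
noncomputable def l26811 : Lb := (@Lb.d (nat_lit 8) (nat_lit 2) (nat_lit 2) (@Lb.g g9 (@Lb.g g10 (@Lb.r r2392 (@Lb.r r1415 (@Lb.r r2438 (@Lb.r r1553 (@Lb.d (nat_lit 82) (nat_lit 98) (nat_lit 360) (@Lb.fm (nat_lit 3) t5008)))))))))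
noncomputable def l26812 : Lb := (@Lb.r r81 (@Lb.d (nat_lit 10) (nat_lit 544) (nat_lit 130) (@Lb.g g8 (@Lb.g g6 (@Lb.g g11 (@Lb.r r401 (@Lb.r r359 (@Lb.r r516 (@Lb.d (nat_lit 153) (nat_lit 136) (nat_lit 0) (@Lb.t (@Lb.fp (nat_lit 9) t3562)))))))))))
noncomputable def l26813 : Lb := (@Lb.d (nat_lit 4) (nat_lit 256) (nat_lit 130) (@Lb.g g8 (@Lb.g g9 (@Lb.g g10 (@Lb.g g11 (@Lb.r r1706 (@Lb.r r680 (@Lb.r r555 (@Lb.r r1553 (@Lb.r r2084 (@Lb.d (nat_lit 9) (nat_lit 97) (nat_lit 640) (@Lb.fm (nat_lit 9) t51))))))))))))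
noncomputable def l26814 : Lb := (@Lb.r r89 (@Lb.r r166 (@Lb.r r340 (@Lb.r r683 (@Lb.r r657 (@Lb.r r36 (@Lb.d (nat_lit 0) (nat_lit 512) (nat_lit 69) (@Lb.fp (nat_lit 1) t2))))))))
noncomputable def l26815 : Lb := (@Lb.d (nat_lit 273) (nat_lit 512) (nat_lit 544) (@Lb.r r1045 (@Lb.r r1287 (@Lb.r r1604 (@Lb.g g7 (@Lb.g g10 (@Lb.d (nat_lit 64) (nat_lit 0) (nat_lit 150) (@Lb.r r388 (@Lb.fp (nat_lit 3) t873)))))))))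
noncomputable def l26816 : Lb := (@Lb.d (nat_lit 0) (nat_lit 516) (nat_lit 128) (@Lb.g g8 (@Lb.g g9 (@Lb.g g10 (@Lb.g g11 (@Lb.r r2455 (@Lb.r r612 (@Lb.r r170 (@Lb.r r2473 (@Lb.r r1060 (@Lb.d (nat_lit 266) (nat_lit 97) (nat_lit 642) (@Lb.fp (nat_lit 9) t1355))))))))))))
noncomputable def l26817 : Lb := (@Lb.d (nat_lit 24) (nat_lit 514) (nat_lit 130) (@Lb.g g9 (@Lb.g g6 (@Lb.g g11 (@Lb.r r584 (@Lb.r r619 (@Lb.r r609 (@Lb.d (nat_lit 8) (nat_lit 73) (nat_lit 16) (@Lb.t (@Lb.fm (nat_lit 9) t334))))))))))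
noncomputable def l26818 : Lb := (@Lb.d (nat_lit 1) (nat_lit 266) (nat_lit 64) (@Lb.g g8 (@Lb.g g9 (@Lb.g g11 (@Lb.r r2450 (@Lb.r r2387 (@Lb.r r2705 (@Lb.r r24 (@Lb.d (nat_lit 5) (nat_lit 160) (nat_lit 296) (@Lb.t (@Lb.fm (nat_lit 9) t309)))))))))))
noncomputable def l26819 : Lb := (@Lb.d (nat_lit 2) (nat_lit 4) (nat_lit 10) (@Lb.g g8 (@Lb.g g9 (@Lb.g g10 (@Lb.g g11 (@Lb.r r619 (@Lb.r r1610 (@Lb.r r660 (@Lb.r r425 (@Lb.r r2084 (@Lb.d (nat_lit 277) (nat_lit 170) (nat_lit 674) (@Lb.fp (nat_lit 9) t510))))))))))))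
noncomputable def l26820 : Lb := (@Lb.d (nat_lit 129) (nat_lit 290) (nat_lit 2) (@Lb.g g8 (@Lb.g g9 (@Lb.g g10 (@Lb.r r599 (@Lb.r r98 (@Lb.r r408 (@Lb.r r101 (@Lb.d (nat_lit 21) (nat_lit 38) (nat_lit 145) (@Lb.t (@Lb.fp (nat_lit 9) t221)))))))))))
noncomputable def l26821 : Lb := (@Lb.r r275 (@Lb.d (nat_lit 2) (nat_lit 258) (nat_lit 2) (@Lb.g g8 (@Lb.g g9 (@Lb.g g10 (@Lb.r r619 (@Lb.r r2210 (@Lb.r r1176 (@Lb.r r2213 (@Lb.d (nat_lit 162) (nat_lit 80) (nat_lit 278) (@Lb.t (@Lb.fm (nat_lit 9) t510))))))))))))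
noncomputable def l26822 : Lb := (@Lb.d (nat_lit 130) (nat_lit 32) (nat_lit 128) (@Lb.g g8 (@Lb.g g11 (@Lb.r r2344 (@Lb.r r2329 (@Lb.r r551 (@Lb.r r2178 (@Lb.d (nat_lit 138) (nat_lit 25) (nat_lit 4) (@Lb.fp (nat_lit 3) t5009)))))))))
noncomputable def l26823 : Lb := (@Lb.g g7 (@Lb.r r273 (@Lb.r r2595 (@Lb.r r2178 (@Lb.r r529 (@Lb.r r8 (@Lb.t (@Lb.fp (nat_lit 3) t322))))))))
noncomputable def l26824 : Lb := (@Lb.r r273 (@Lb.r r2595 (@Lb.r r2178 (@Lb.r r529 (@Lb.r r8 (@Lb.d (nat_lit 1) (nat_lit 512) (nat_lit 0) (@Lb.fm (nat_lit 1) t322)))))))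
noncomputable def l26825 : Lb := (@Lb.r r82 (@Lb.d (nat_lit 0) (nat_lit 2) (nat_lit 128) (@Lb.g g9 (@Lb.g g11 (@Lb.r r555 (@Lb.r r548 (@Lb.r r165 (@Lb.r r98 (@Lb.d (nat_lit 9) (nat_lit 2) (nat_lit 0) (@Lb.fm (nat_lit 3) t5))))))))))
noncomputable def l26826 : Lb := (@Lb.d (nat_lit 9) (nat_lit 513) (nat_lit 130) (@Lb.g g8 (@Lb.g g9 (@Lb.g g10 (@Lb.g g11 (@Lb.r r1706 (@Lb.r r680 (@Lb.r r555 (@Lb.r r1553 (@Lb.r r2084 (@Lb.d (nat_lit 9) (nat_lit 97) (nat_lit 517) (@Lb.fm (nat_lit 9) t51))))))))))))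
noncomputable def l26827 : Lb := (@Lb.r r273 (@Lb.r r2595 (@Lb.r r2178 (@Lb.r r529 (@Lb.r r8 (@Lb.fm (nat_lit 1) t322))))))
noncomputable def l26828 : Lb := (@Lb.d (nat_lit 0) (nat_lit 514) (nat_lit 136) (@Lb.g g8 (@Lb.g g9 (@Lb.g g11 (@Lb.r r1641 (@Lb.r r402 (@Lb.r r1635 (@Lb.r r1156 (@Lb.d (nat_lit 289) (nat_lit 10) (nat_lit 18) (@Lb.t (@Lb.fp (nat_lit 9) t5010)))))))))))
noncomputable def l26829 : Lb := (@Lb.r r70 (@Lb.r r263 (@Lb.d (nat_lit 0) (nat_lit 514) (nat_lit 0) (@Lb.g g8 (@Lb.g g9 (@Lb.r r299 (@Lb.r r106 (@Lb.r r97 (@Lb.r r148 (@Lb.d (nat_lit 5) (nat_lit 10) (nat_lit 34) (@Lb.fp (nat_lit 3) t595)))))))))))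
noncomputable def l26830 : Lb := (@Lb.d (nat_lit 0) (nat_lit 514) (nat_lit 130) (@Lb.g g8 (@Lb.g g9 (@Lb.g g10 (@Lb.g g11 (@Lb.r r2435 (@Lb.r r2665 (@Lb.r r2450 (@Lb.r r1156 (@Lb.d (nat_lit 288) (nat_lit 149) (nat_lit 361) (@Lb.fp (nat_lit 9) t5010)))))))))))
noncomputable def l26831 : Lb := (@Lb.d (nat_lit 32) (nat_lit 2) (nat_lit 64) (@Lb.g g8 (@Lb.g g9 (@Lb.g g11 (@Lb.r r2198 (@Lb.r r1640 (@Lb.r r2571 (@Lb.r r97 (@Lb.d (nat_lit 641) (nat_lit 153) (nat_lit 96) (@Lb.t (@Lb.fm (nat_lit 9) t322)))))))))))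
noncomputable def l26832 : Lb := (@Lb.d (nat_lit 1) (nat_lit 288) (nat_lit 128) (@Lb.g g8 (@Lb.g g11 (@Lb.r r1162 (@Lb.r r401 (@Lb.r r1572 (@Lb.r r1639 (@Lb.d (nat_lit 410) (nat_lit 73) (nat_lit 549) (@Lb.fm (nat_lit 3) t4868)))))))))
noncomputable def l26833 : Lb := (@Lb.d (nat_lit 513) (nat_lit 578) (nat_lit 33) (@Lb.r r101 (@Lb.g g6 (@Lb.t (@Lb.fp (nat_lit 3) t267)))))
noncomputable def l26834 : Lb := (@Lb.d (nat_lit 137) (nat_lit 296) (nat_lit 137) (@Lb.r r657 (@Lb.r r602 (@Lb.r r344 (@Lb.g g7 (@Lb.g g6 (@Lb.g g5 (@Lb.d (nat_lit 4) (nat_lit 5) (nat_lit 130) (@Lb.t (@Lb.fm (nat_lit 9) t98))))))))))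
noncomputable def l26835 : Lb := (@Lb.d (nat_lit 4) (nat_lit 2) (nat_lit 390) (@Lb.r r1573 (@Lb.r r1556 (@Lb.r r323 (@Lb.g g7 (@Lb.g g6 (@Lb.g g5 (@Lb.g g4 (@Lb.d (nat_lit 0) (nat_lit 10) (nat_lit 80) (@Lb.fm (nat_lit 9) t151))))))))))
noncomputable def l26836 : Lb := (@Lb.d (nat_lit 2) (nat_lit 512) (nat_lit 66) (@Lb.g g8 (@Lb.g g9 (@Lb.g g10 (@Lb.g g7 (@Lb.r r386 (@Lb.r r2145 (@Lb.d (nat_lit 292) (nat_lit 8) (nat_lit 24) (@Lb.fm (nat_lit 9) t97)))))))))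
noncomputable def l26837 : Lb := (@Lb.d (nat_lit 2) (nat_lit 256) (nat_lit 66) (@Lb.g g8 (@Lb.g g9 (@Lb.g g10 (@Lb.g g7 (@Lb.r r386 (@Lb.r r104 (@Lb.r r1129 (@Lb.r r1060 (@Lb.d (nat_lit 548) (nat_lit 128) (nat_lit 9) (@Lb.fp (nat_lit 9) t3034)))))))))))
noncomputable def l26838 : Lb := (@Lb.d (nat_lit 137) (nat_lit 16) (nat_lit 74) (@Lb.r r68 (@Lb.r r273 (@Lb.r r346 (@Lb.r r84 (@Lb.g g7 (@Lb.g g6 (@Lb.g g5 (@Lb.g g4 (@Lb.d (nat_lit 1) (nat_lit 5) (nat_lit 130) (@Lb.fp (nat_lit 9) t98)))))))))))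
noncomputable def l26839 : Lb := (@Lb.d (nat_lit 0) (nat_lit 256) (nat_lit 136) (@Lb.g g11 (@Lb.r r1617 (@Lb.r r354 (@Lb.r r1427 (@Lb.r r1124 (@Lb.d (nat_lit 1) (nat_lit 154) (nat_lit 394) (@Lb.t (@Lb.fp (nat_lit 3) t2895)))))))))
noncomputable def l26840 : Lb := (@Lb.d (nat_lit 5) (nat_lit 257) (nat_lit 81) (@Lb.r r2129 (@Lb.r r1158 (@Lb.r r2376 (@Lb.g g7 (@Lb.g g5 (@Lb.d (nat_lit 64) (nat_lit 0) (nat_lit 384) (@Lb.fm (nat_lit 3) t98))))))))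
noncomputable def l26841 : Lb := (@Lb.d (nat_lit 4) (nat_lit 329) (nat_lit 0) (@Lb.g g5 (@Lb.r r1158 (@Lb.r r2376 (@Lb.r r1543 (@Lb.d (nat_lit 0) (nat_lit 32) (nat_lit 74) (@Lb.t (@Lb.fp (nat_lit 3) t242))))))))
noncomputable def l26842 : Lb := (@Lb.d (nat_lit 8) (nat_lit 388) (nat_lit 17) (@Lb.r r2129 (@Lb.r r1190 (@Lb.r r2392 (@Lb.r r1703 (@Lb.g g7 (@Lb.g g6 (@Lb.g g5 (@Lb.d (nat_lit 0) (nat_lit 5) (nat_lit 66) (@Lb.t (@Lb.fm (nat_lit 9) t51)))))))))))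
noncomputable def l26843 : Lb := (@Lb.r r82 (@Lb.d (nat_lit 34) (nat_lit 258) (nat_lit 128) (@Lb.g g8 (@Lb.g g9 (@Lb.g g11 (@Lb.r r363 (@Lb.r r582 (@Lb.r r677 (@Lb.r r408 (@Lb.d (nat_lit 424) (nat_lit 26) (nat_lit 168) (@Lb.t (@Lb.fm (nat_lit 9) t1613))))))))))))
noncomputable def l26844 : Lb := (@Lb.d (nat_lit 2) (nat_lit 258) (nat_lit 66) (@Lb.g g8 (@Lb.g g9 (@Lb.g g10 (@Lb.g g7 (@Lb.r r386 (@Lb.r r97 (@Lb.d (nat_lit 329) (nat_lit 105) (nat_lit 265) (@Lb.fm (nat_lit 9) t5011)))))))))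
noncomputable def l26845 : Lb := (@Lb.d (nat_lit 0) (nat_lit 514) (nat_lit 66) (@Lb.g g8 (@Lb.g g9 (@Lb.g g10 (@Lb.g g11 (@Lb.r r1543 (@Lb.r r424 (@Lb.r r106 (@Lb.r r25 (@Lb.d (nat_lit 521) (nat_lit 9) (nat_lit 170) (@Lb.fp (nat_lit 9) t1456)))))))))))
noncomputable def l26846 : Lb := (@Lb.d (nat_lit 2) (nat_lit 521) (nat_lit 129) (@Lb.g g8 (@Lb.g g9 (@Lb.g g10 (@Lb.g g11 (@Lb.r r427 (@Lb.r r424 (@Lb.r r106 (@Lb.r r97 (@Lb.d (nat_lit 296) (nat_lit 9) (nat_lit 168) (@Lb.fp (nat_lit 9) t5012)))))))))))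
noncomputable def l26847 : Lb := (@Lb.d (nat_lit 8) (nat_lit 290) (nat_lit 0) (@Lb.g g9 (@Lb.r r536 (@Lb.r r2715 (@Lb.r r2178 (@Lb.r r2385 (@Lb.d (nat_lit 261) (nat_lit 22) (nat_lit 662) (@Lb.t (@Lb.fm (nat_lit 3) t626)))))))))
noncomputable def l26848 : Lb := (@Lb.r r323 (@Lb.d (nat_lit 0) (nat_lit 10) (nat_lit 2) (@Lb.g g9 (@Lb.g g10 (@Lb.r r2339 (@Lb.r r578 (@Lb.d (nat_lit 0) (nat_lit 26) (nat_lit 394) (@Lb.fm (nat_lit 3) t2307))))))))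
noncomputable def l26849 : Lb := (@Lb.d (nat_lit 0) (nat_lit 514) (nat_lit 0) (@Lb.g g9 (@Lb.r r2339 (@Lb.r r2146 (@Lb.r r97 (@Lb.d (nat_lit 0) (nat_lit 169) (nat_lit 276) (@Lb.t (@Lb.fm (nat_lit 3) t3966))))))))
noncomputable def l26850 : Lb := (@Lb.d (nat_lit 136) (nat_lit 258) (nat_lit 128) (@Lb.g g9 (@Lb.g g11 (@Lb.r r24 (@Lb.r r2341 (@Lb.r r2387 (@Lb.r r2178 (@Lb.d (nat_lit 614) (nat_lit 154) (nat_lit 356) (@Lb.fp (nat_lit 3) t632)))))))))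
noncomputable def l26851 : Lb := (@Lb.d (nat_lit 0) (nat_lit 2) (nat_lit 128) (@Lb.g g9 (@Lb.g g11 (@Lb.r r347 (@Lb.r r2376 (@Lb.r r1158 (@Lb.r r25 (@Lb.d (nat_lit 513) (nat_lit 68) (nat_lit 0) (@Lb.fm (nat_lit 3) t2951)))))))))
noncomputable def l26852 : Lb := (@Lb.d (nat_lit 8) (nat_lit 290) (nat_lit 0) (@Lb.g g9 (@Lb.r r536 (@Lb.r r2715 (@Lb.r r2178 (@Lb.r r2469 (@Lb.d (nat_lit 69) (nat_lit 38) (nat_lit 682) (@Lb.t (@Lb.fp (nat_lit 3) t32)))))))))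
noncomputable def l26853 : Lb := (@Lb.d (nat_lit 8) (nat_lit 513) (nat_lit 0) (@Lb.g g9 (@Lb.r r388 (@Lb.r r358 (@Lb.r r341 (@Lb.r r555 (@Lb.r r548 (@Lb.d (nat_lit 10) (nat_lit 4) (nat_lit 138) (@Lb.t (@Lb.fm (nat_lit 3) t45))))))))))
noncomputable def l26854 : Lb := (@Lb.d (nat_lit 2) (nat_lit 545) (nat_lit 66) (@Lb.g g8 (@Lb.g g9 (@Lb.g g10 (@Lb.g g11 (@Lb.r r427 (@Lb.r r388 (@Lb.r r70 (@Lb.r r132 (@Lb.d (nat_lit 37) (nat_lit 6) (nat_lit 152) (@Lb.fp (nat_lit 9) t599)))))))))))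
noncomputable def l26855 : Lb := (@Lb.d (nat_lit 0) (nat_lit 256) (nat_lit 2) (@Lb.g g10 (@Lb.g g7 (@Lb.r r386 (@Lb.d (nat_lit 2) (nat_lit 0) (nat_lit 9) (@Lb.fm (nat_lit 3) t2))))))
noncomputable def l26856 : Lb := (@Lb.d (nat_lit 146) (nat_lit 426) (nat_lit 648) (@Lb.r r1426 (@Lb.r r2133 (@Lb.r r2371 (@Lb.g g7 (@Lb.g g6 (@Lb.g g5 (@Lb.g g4 (@Lb.d (nat_lit 281) (nat_lit 1) (nat_lit 65) (@Lb.fm (nat_lit 9) t5013))))))))))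
noncomputable def l26857 : Lb := (@Lb.d (nat_lit 32) (nat_lit 2) (nat_lit 73) (@Lb.g g9 (@Lb.g g10 (@Lb.g g11 (@Lb.r r2695 (@Lb.r r297 (@Lb.r r1352 (@Lb.r r2662 (@Lb.d (nat_lit 128) (nat_lit 86) (nat_lit 342) (@Lb.t (@Lb.fp (nat_lit 9) t2154)))))))))))
noncomputable def l26858 : Lb := (@Lb.d (nat_lit 0) (nat_lit 130) (nat_lit 576) (@Lb.r r2129 (@Lb.r r2210 (@Lb.r r673 (@Lb.g g7 (@Lb.g g6 (@Lb.g g5 (@Lb.d (nat_lit 0) (nat_lit 0) (nat_lit 66) (@Lb.t (@Lb.fp (nat_lit 9) t246))))))))))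
noncomputable def l26859 : Lb := (@Lb.d (nat_lit 0) (nat_lit 512) (nat_lit 130) (@Lb.g g10 (@Lb.g g11 (@Lb.r r2691 (@Lb.r r2385 (@Lb.r r2658 (@Lb.d (nat_lit 0) (nat_lit 20) (nat_lit 658) (@Lb.fp (nat_lit 3) t655))))))))
noncomputable def l26860 : Lb := (@Lb.d (nat_lit 0) (nat_lit 2) (nat_lit 2) (@Lb.g g9 (@Lb.g g10 (@Lb.r r673 (@Lb.r r419 (@Lb.r r98 (@Lb.d (nat_lit 0) (nat_lit 154) (nat_lit 130) (@Lb.fp (nat_lit 3) t1190))))))))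
noncomputable def l26861 : Lb := (@Lb.d (nat_lit 0) (nat_lit 521) (nat_lit 136) (@Lb.g g9 (@Lb.g g10 (@Lb.g g11 (@Lb.r r401 (@Lb.r r611 (@Lb.r r1378 (@Lb.r r2129 (@Lb.d (nat_lit 0) (nat_lit 33) (nat_lit 512) (@Lb.t (@Lb.fp (nat_lit 9) t4970)))))))))))
noncomputable def l26862 : Lb := (@Lb.d (nat_lit 0) (nat_lit 544) (nat_lit 0) (@Lb.r r2145 (@Lb.r r363 (@Lb.r r360 (@Lb.r r150 (@Lb.g g4 (@Lb.t (@Lb.fp (nat_lit 3) t5014))))))))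
noncomputable def l26863 : Lb := (@Lb.r r323 (@Lb.d (nat_lit 129) (nat_lit 328) (nat_lit 2) (@Lb.g g8 (@Lb.g g5 (@Lb.g g10 (@Lb.r r359 (@Lb.r r146 (@Lb.r r580 (@Lb.d (nat_lit 146) (nat_lit 138) (nat_lit 85) (@Lb.t (@Lb.fm (nat_lit 9) t892)))))))))))
noncomputable def l26864 : Lb := (@Lb.r r82 (@Lb.d (nat_lit 9) (nat_lit 513) (nat_lit 64) (@Lb.g g8 (@Lb.g g9 (@Lb.g g7 (@Lb.r r594 (@Lb.r r289 (@Lb.r r24 (@Lb.d (nat_lit 330) (nat_lit 16) (nat_lit 517) (@Lb.t (@Lb.fp (nat_lit 9) t80)))))))))))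
noncomputable def l26865 : Lb := (@Lb.d (nat_lit 129) (nat_lit 514) (nat_lit 130) (@Lb.g g8 (@Lb.g g9 (@Lb.g g10 (@Lb.g g11 (@Lb.r r427 (@Lb.r r145 (@Lb.r r356 (@Lb.r r2202 (@Lb.r r2180 (@Lb.d (nat_lit 9) (nat_lit 26) (nat_lit 388) (@Lb.fm (nat_lit 9) t1802))))))))))))
noncomputable def l26866 : Lb := (@Lb.d (nat_lit 1) (nat_lit 2) (nat_lit 137) (@Lb.g g8 (@Lb.g g9 (@Lb.g g10 (@Lb.g g11 (@Lb.r r1689 (@Lb.r r1688 (@Lb.r r1691 (@Lb.r r1610 (@Lb.d (nat_lit 609) (nat_lit 90) (nat_lit 345) (@Lb.fp (nat_lit 9) t2118)))))))))))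
noncomputable def l26867 : Lb := (@Lb.d (nat_lit 33) (nat_lit 266) (nat_lit 0) (@Lb.g g8 (@Lb.g g9 (@Lb.r r2379 (@Lb.r r582 (@Lb.r r408 (@Lb.r r2069 (@Lb.d (nat_lit 2) (nat_lit 88) (nat_lit 682) (@Lb.fp (nat_lit 3) t553)))))))))
noncomputable def l26868 : Lb := (@Lb.d (nat_lit 128) (nat_lit 2) (nat_lit 130) (@Lb.g g8 (@Lb.g g9 (@Lb.g g10 (@Lb.g g11 (@Lb.r r599 (@Lb.r r2726 (@Lb.r r344 (@Lb.r r1045 (@Lb.r r2084 (@Lb.d (nat_lit 9) (nat_lit 40) (nat_lit 89) (@Lb.fm (nat_lit 9) t5015))))))))))))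
noncomputable def l26869 : Lb := (@Lb.d (nat_lit 18) (nat_lit 258) (nat_lit 136) (@Lb.g g8 (@Lb.g g9 (@Lb.g g10 (@Lb.g g11 (@Lb.r r2713 (@Lb.r r2712 (@Lb.r r1707 (@Lb.r r1626 (@Lb.d (nat_lit 617) (nat_lit 161) (nat_lit 665) (@Lb.fp (nat_lit 9) t823)))))))))))
noncomputable def l26870 : Lb := (@Lb.d (nat_lit 0) (nat_lit 553) (nat_lit 582) (@Lb.r r2311 (@Lb.r r1704 (@Lb.r r89 (@Lb.g g10 (@Lb.g g4 (@Lb.d (nat_lit 5) (nat_lit 0) (nat_lit 34) (@Lb.r r145 (@Lb.fm (nat_lit 3) t5016)))))))))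
noncomputable def l26871 : Lb := (@Lb.d (nat_lit 640) (nat_lit 258) (nat_lit 66) (@Lb.g g4 (@Lb.g g9 (@Lb.g g10 (@Lb.g g11 (@Lb.r r2214 (@Lb.r r549 (@Lb.r r615 (@Lb.r r1553 (@Lb.d (nat_lit 165) (nat_lit 10) (nat_lit 329) (@Lb.fp (nat_lit 9) t1758)))))))))))
noncomputable def l26872 : Lb := (@Lb.d (nat_lit 513) (nat_lit 640) (nat_lit 258) (@Lb.r r297 (@Lb.r r420 (@Lb.r r603 (@Lb.g g10 (@Lb.g g5 (@Lb.d (nat_lit 32) (nat_lit 16) (nat_lit 1) (@Lb.fp (nat_lit 3) t5017))))))))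
noncomputable def l26873 : Lb := (@Lb.d (nat_lit 136) (nat_lit 512) (nat_lit 130) (@Lb.g g9 (@Lb.g g10 (@Lb.g g11 (@Lb.r r260 (@Lb.r r2651 (@Lb.r r386 (@Lb.r r2129 (@Lb.d (nat_lit 72) (nat_lit 5) (nat_lit 297) (@Lb.t (@Lb.fm (nat_lit 9) t3884)))))))))))
noncomputable def l26874 : Lb := (@Lb.d (nat_lit 34) (nat_lit 256) (nat_lit 0) (@Lb.g g8 (@Lb.r r289 (@Lb.r r2579 (@Lb.r r582 (@Lb.r r2180 (@Lb.d (nat_lit 546) (nat_lit 5) (nat_lit 16) (@Lb.t (@Lb.fp (nat_lit 3) t4389)))))))))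
noncomputable def l26875 : Lb := (@Lb.r r323 (@Lb.g g9 (@Lb.g g10 (@Lb.r r1619 (@Lb.r r2722 (@Lb.d (nat_lit 0) (nat_lit 85) (nat_lit 297) (@Lb.fm (nat_lit 3) t1673)))))))
noncomputable def l26876 : Lb := (@Lb.d (nat_lit 32) (nat_lit 256) (nat_lit 1) (@Lb.g g10 (@Lb.r r24 (@Lb.r r2341 (@Lb.r r2387 (@Lb.r r2658 (@Lb.d (nat_lit 0) (nat_lit 16) (nat_lit 657) (@Lb.t (@Lb.fp (nat_lit 3) t126)))))))))
noncomputable def l26877 : Lb := (@Lb.d (nat_lit 640) (nat_lit 258) (nat_lit 553) (@Lb.r r24 (@Lb.r r579 (@Lb.r r1346 (@Lb.g g7 (@Lb.g g6 (@Lb.g g9 (@Lb.d (nat_lit 8) (nat_lit 2) (nat_lit 133) (@Lb.t (@Lb.fm (nat_lit 9) t225))))))))))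
noncomputable def l26878 : Lb := (@Lb.d (nat_lit 529) (nat_lit 0) (nat_lit 64) (@Lb.r r24 (@Lb.r r101 (@Lb.r r2659 (@Lb.g g10 (@Lb.g g5 (@Lb.d (nat_lit 0) (nat_lit 0) (nat_lit 2) (@Lb.r r387 (@Lb.fm (nat_lit 3) t719)))))))))
noncomputable def l26879 : Lb := (@Lb.d (nat_lit 136) (nat_lit 4) (nat_lit 128) (@Lb.g g9 (@Lb.g g10 (@Lb.g g11 (@Lb.r r618 (@Lb.r r24 (@Lb.r r405 (@Lb.r r611 (@Lb.d (nat_lit 137) (nat_lit 25) (nat_lit 146) (@Lb.t (@Lb.fm (nat_lit 9) t1126)))))))))))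
noncomputable def l26880 : Lb := (@Lb.d (nat_lit 0) (nat_lit 326) (nat_lit 34) (@Lb.r r134 (@Lb.r r328 (@Lb.r r279 (@Lb.g g7 (@Lb.g g6 (@Lb.g g5 (@Lb.d (nat_lit 0) (nat_lit 66) (nat_lit 64) (@Lb.t (@Lb.fp (nat_lit 9) t5018))))))))))
noncomputable def l26881 : Lb := (@Lb.d (nat_lit 0) (nat_lit 298) (nat_lit 100) (@Lb.r r402 (@Lb.r r2661 (@Lb.r r1304 (@Lb.r r323 (@Lb.g g7 (@Lb.g g6 (@Lb.g g5 (@Lb.d (nat_lit 16) (nat_lit 0) (nat_lit 9) (@Lb.t (@Lb.fm (nat_lit 9) t2759)))))))))))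
noncomputable def l26882 : Lb := (@Lb.d (nat_lit 2) (nat_lit 2) (nat_lit 2) (@Lb.g g8 (@Lb.g g9 (@Lb.g g10 (@Lb.r r1689 (@Lb.r r1688 (@Lb.r r1691 (@Lb.r r1610 (@Lb.d (nat_lit 609) (nat_lit 90) (nat_lit 409) (@Lb.t (@Lb.fm (nat_lit 9) t2118)))))))))))
noncomputable def l26883 : Lb := (@Lb.d (nat_lit 2) (nat_lit 258) (nat_lit 73) (@Lb.g g8 (@Lb.g g9 (@Lb.g g10 (@Lb.g g11 (@Lb.r r2729 (@Lb.r r2475 (@Lb.r r2468 (@Lb.r r2438 (@Lb.d (nat_lit 609) (nat_lit 10) (nat_lit 617) (@Lb.fp (nat_lit 9) t590)))))))))))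
noncomputable def l26884 : Lb := (@Lb.d (nat_lit 2) (nat_lit 2) (nat_lit 73) (@Lb.g g8 (@Lb.g g9 (@Lb.g g10 (@Lb.g g11 (@Lb.r r1699 (@Lb.r r164 (@Lb.r r614 (@Lb.r r2149 (@Lb.r r1156 (@Lb.d (nat_lit 521) (nat_lit 97) (nat_lit 74) (@Lb.fp (nat_lit 9) t2542))))))))))))
noncomputable def l26885 : Lb := (@Lb.g g7 (@Lb.r r1379 (@Lb.r r594 (@Lb.r r1425 (@Lb.d (nat_lit 0) (nat_lit 325) (nat_lit 33) (@Lb.t (@Lb.fm (nat_lit 3) t5019)))))))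
noncomputable def l26886 : Lb := (@Lb.d (nat_lit 0) (nat_lit 256) (nat_lit 73) (@Lb.g g10 (@Lb.g g11 (@Lb.r r659 (@Lb.r r578 (@Lb.d (nat_lit 10) (nat_lit 22) (nat_lit 136) (@Lb.fp (nat_lit 3) t119)))))))
noncomputable def l26887 : Lb := (@Lb.d (nat_lit 2) (nat_lit 522) (nat_lit 64) (@Lb.g g8 (@Lb.g g9 (@Lb.g g11 (@Lb.r r2450 (@Lb.r r2387 (@Lb.r r2705 (@Lb.r r24 (@Lb.d (nat_lit 10) (nat_lit 161) (nat_lit 296) (@Lb.t (@Lb.fm (nat_lit 9) t309)))))))))))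
noncomputable def l26888 : Lb := (@Lb.r r275 (@Lb.d (nat_lit 40) (nat_lit 272) (nat_lit 2) (@Lb.g g5 (@Lb.g g10 (@Lb.r r1687 (@Lb.r r100 (@Lb.r r74 (@Lb.d (nat_lit 424) (nat_lit 138) (nat_lit 646) (@Lb.fm (nat_lit 3) t510)))))))))
noncomputable def l26889 : Lb := (@Lb.d (nat_lit 2) (nat_lit 266) (nat_lit 64) (@Lb.g g8 (@Lb.g g9 (@Lb.g g11 (@Lb.r r2450 (@Lb.r r2387 (@Lb.r r2705 (@Lb.r r24 (@Lb.d (nat_lit 8) (nat_lit 161) (nat_lit 296) (@Lb.t (@Lb.fm (nat_lit 9) t1769)))))))))))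
noncomputable def l26890 : Lb := (@Lb.d (nat_lit 32) (nat_lit 32) (nat_lit 74) (@Lb.g g10 (@Lb.g g11 (@Lb.r r360 (@Lb.r r281 (@Lb.r r2343 (@Lb.d (nat_lit 586) (nat_lit 40) (nat_lit 658) (@Lb.fp (nat_lit 3) t354))))))))
noncomputable def l26891 : Lb := (@Lb.d (nat_lit 545) (nat_lit 585) (nat_lit 65) (@Lb.r r609 (@Lb.r r1635 (@Lb.r r2378 (@Lb.r r72 (@Lb.g g7 (@Lb.g g6 (@Lb.g g5 (@Lb.d (nat_lit 20) (nat_lit 1) (nat_lit 129) (@Lb.t (@Lb.fm (nat_lit 9) t731)))))))))))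
noncomputable def l26892 : Lb := (@Lb.d (nat_lit 10) (nat_lit 261) (nat_lit 64) (@Lb.r r402 (@Lb.g g7 (@Lb.d (nat_lit 0) (nat_lit 0) (nat_lit 68) (@Lb.t (@Lb.fp (nat_lit 3) t119))))))
noncomputable def l26893 : Lb := (@Lb.d (nat_lit 10) (nat_lit 512) (nat_lit 73) (@Lb.g g8 (@Lb.g g10 (@Lb.g g11 (@Lb.r r659 (@Lb.r r578 (@Lb.d (nat_lit 0) (nat_lit 22) (nat_lit 136) (@Lb.t (@Lb.fp (nat_lit 9) t119)))))))))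
noncomputable def l26894 : Lb := (@Lb.r r323 (@Lb.d (nat_lit 0) (nat_lit 8) (nat_lit 6) (@Lb.g g4 (@Lb.g g10 (@Lb.r r387 (@Lb.d (nat_lit 1) (nat_lit 161) (nat_lit 386) (@Lb.fp (nat_lit 3) t51)))))))
noncomputable def l26895 : Lb := (@Lb.r r323 (@Lb.d (nat_lit 137) (nat_lit 294) (nat_lit 0) (@Lb.g g8 (@Lb.g g9 (@Lb.g g10 (@Lb.r r2387 (@Lb.r r1382 (@Lb.r r404 (@Lb.r r1561 (@Lb.d (nat_lit 9) (nat_lit 169) (nat_lit 34) (@Lb.t (@Lb.fm (nat_lit 9) t2661))))))))))))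
noncomputable def l26896 : Lb := (@Lb.r r90 (@Lb.d (nat_lit 41) (nat_lit 130) (nat_lit 128) (@Lb.g g8 (@Lb.g g9 (@Lb.g g11 (@Lb.r r1371 (@Lb.r r2646 (@Lb.r r420 (@Lb.d (nat_lit 96) (nat_lit 160) (nat_lit 153) (@Lb.t (@Lb.fm (nat_lit 9) t1499)))))))))))
noncomputable def l26897 : Lb := (@Lb.d (nat_lit 106) (nat_lit 389) (nat_lit 405) (@Lb.r r597 (@Lb.r r2666 (@Lb.r r2376 (@Lb.r r2691 (@Lb.g g7 (@Lb.g g6 (@Lb.g g5 (@Lb.d (nat_lit 4) (nat_lit 1) (nat_lit 65) (@Lb.t (@Lb.fp (nat_lit 9) t386)))))))))))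
noncomputable def l26898 : Lb := (@Lb.r r81 (@Lb.r r323 (@Lb.d (nat_lit 0) (nat_lit 264) (nat_lit 1) (@Lb.g g8 (@Lb.g g6 (@Lb.r r387 (@Lb.r r1173 (@Lb.r r36 (@Lb.d (nat_lit 529) (nat_lit 0) (nat_lit 17) (@Lb.fp (nat_lit 3) t68))))))))))
noncomputable def l26899 : Lb := (@Lb.d (nat_lit 150) (nat_lit 678) (nat_lit 594) (@Lb.r r2696 (@Lb.r r1607 (@Lb.r r1362 (@Lb.g g7 (@Lb.g g6 (@Lb.g g5 (@Lb.g g4 (@Lb.d (nat_lit 146) (nat_lit 129) (nat_lit 134) (@Lb.fp (nat_lit 9) t5020))))))))))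
noncomputable def l26900 : Lb := (@Lb.d (nat_lit 144) (nat_lit 258) (nat_lit 64) (@Lb.g g8 (@Lb.g g9 (@Lb.g g10 (@Lb.g g11 (@Lb.r r427 (@Lb.r r1418 (@Lb.r r292 (@Lb.r r21 (@Lb.r r36 (@Lb.d (nat_lit 344) (nat_lit 33) (nat_lit 424) (@Lb.fm (nat_lit 9) t5021))))))))))))
noncomputable def l26901 : Lb := (@Lb.d (nat_lit 298) (nat_lit 581) (nat_lit 0) (@Lb.r r1113 (@Lb.r r2136 (@Lb.g g6 (@Lb.g g5 (@Lb.d (nat_lit 4) (nat_lit 6) (nat_lit 1) (@Lb.fp (nat_lit 3) t1219)))))))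
noncomputable def l26902 : Lb := (@Lb.d (nat_lit 2) (nat_lit 288) (nat_lit 73) (@Lb.g g8 (@Lb.g g10 (@Lb.g g11 (@Lb.r r2122 (@Lb.r r360 (@Lb.r r281 (@Lb.r r2471 (@Lb.d (nat_lit 618) (nat_lit 96) (nat_lit 664) (@Lb.t (@Lb.fp (nat_lit 9) t295)))))))))))
noncomputable def l26903 : Lb := (@Lb.d (nat_lit 144) (nat_lit 514) (nat_lit 64) (@Lb.g g8 (@Lb.g g9 (@Lb.g g10 (@Lb.g g11 (@Lb.r r2454 (@Lb.r r2725 (@Lb.r r1364 (@Lb.r r2459 (@Lb.d (nat_lit 421) (nat_lit 84) (nat_lit 341) (@Lb.fp (nat_lit 9) t200)))))))))))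
noncomputable def l26904 : Lb := (@Lb.d (nat_lit 20) (nat_lit 1) (nat_lit 72) (@Lb.r r20 (@Lb.r r1110 (@Lb.r r409 (@Lb.g g11 (@Lb.g g6 (@Lb.g g4 (@Lb.d (nat_lit 18) (nat_lit 16) (nat_lit 386) (@Lb.r r601 (@Lb.t (@Lb.fm (nat_lit 9) t3207)))))))))))
noncomputable def l26905 : Lb := (@Lb.d (nat_lit 10) (nat_lit 256) (nat_lit 0) (@Lb.g g4 (@Lb.r r1303 (@Lb.r r153 (@Lb.r r1176 (@Lb.d (nat_lit 293) (nat_lit 85) (nat_lit 281) (@Lb.t (@Lb.fp (nat_lit 3) t3940))))))))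
noncomputable def l26906 : Lb := (@Lb.d (nat_lit 1) (nat_lit 512) (nat_lit 130) (@Lb.g g4 (@Lb.g g10 (@Lb.g g11 (@Lb.r r2691 (@Lb.r r1158 (@Lb.d (nat_lit 337) (nat_lit 0) (nat_lit 529) (@Lb.t (@Lb.fp (nat_lit 9) t282)))))))))
noncomputable def l26907 : Lb := (@Lb.d (nat_lit 0) (nat_lit 33) (nat_lit 4) (@Lb.g g8 (@Lb.g g9 (@Lb.g g10 (@Lb.g g11 (@Lb.r r1699 (@Lb.r r1642 (@Lb.r r612 (@Lb.r r533 (@Lb.r r1060 (@Lb.d (nat_lit 393) (nat_lit 136) (nat_lit 130) (@Lb.fm (nat_lit 9) t842))))))))))))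
noncomputable def l26908 : Lb := (@Lb.d (nat_lit 2) (nat_lit 289) (nat_lit 4) (@Lb.g g8 (@Lb.g g9 (@Lb.g g10 (@Lb.g g11 (@Lb.r r1699 (@Lb.r r1642 (@Lb.r r612 (@Lb.r r533 (@Lb.r r1060 (@Lb.d (nat_lit 393) (nat_lit 136) (nat_lit 130) (@Lb.fm (nat_lit 9) t842))))))))))))
noncomputable def l26909 : Lb := (@Lb.d (nat_lit 2) (nat_lit 258) (nat_lit 72) (@Lb.g g8 (@Lb.g g9 (@Lb.g g11 (@Lb.r r134 (@Lb.r r328 (@Lb.r r1575 (@Lb.r r1553 (@Lb.d (nat_lit 10) (nat_lit 42) (nat_lit 130) (@Lb.t (@Lb.fp (nat_lit 9) t51)))))))))))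
noncomputable def l26910 : Lb := (@Lb.d (nat_lit 2) (nat_lit 514) (nat_lit 72) (@Lb.g g8 (@Lb.g g9 (@Lb.g g11 (@Lb.r r134 (@Lb.r r328 (@Lb.r r1575 (@Lb.r r1553 (@Lb.d (nat_lit 9) (nat_lit 42) (nat_lit 130) (@Lb.t (@Lb.fp (nat_lit 9) t51)))))))))))
noncomputable def l26911 : Lb := (@Lb.d (nat_lit 5) (nat_lit 6) (nat_lit 6) (@Lb.r r24 (@Lb.r r97 (@Lb.r r386 (@Lb.g g11 (@Lb.g g6 (@Lb.g g5 (@Lb.d (nat_lit 0) (nat_lit 1) (nat_lit 129) (@Lb.t (@Lb.fp (nat_lit 9) t51))))))))))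
noncomputable def l26912 : Lb := (@Lb.r r283 (@Lb.d (nat_lit 40) (nat_lit 261) (nat_lit 0) (@Lb.g g8 (@Lb.g g9 (@Lb.g g10 (@Lb.r r1699 (@Lb.r r1642 (@Lb.r r1621 (@Lb.r r580 (@Lb.d (nat_lit 257) (nat_lit 101) (nat_lit 356) (@Lb.t (@Lb.fp (nat_lit 9) t128))))))))))))
noncomputable def l26913 : Lb := (@Lb.d (nat_lit 0) (nat_lit 258) (nat_lit 66) (@Lb.g g8 (@Lb.g g9 (@Lb.g g10 (@Lb.g g7 (@Lb.r r386 (@Lb.r r97 (@Lb.d (nat_lit 0) (nat_lit 138) (nat_lit 137) (@Lb.fm (nat_lit 9) t126)))))))))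
noncomputable def l26914 : Lb := (@Lb.r r82 (@Lb.d (nat_lit 0) (nat_lit 272) (nat_lit 128) (@Lb.g g8 (@Lb.g g9 (@Lb.g g11 (@Lb.r r555 (@Lb.r r1634 (@Lb.r r1553 (@Lb.r r36 (@Lb.d (nat_lit 330) (nat_lit 33) (nat_lit 128) (@Lb.t (@Lb.fp (nat_lit 9) t3213))))))))))))
noncomputable def l26915 : Lb := (@Lb.d (nat_lit 0) (nat_lit 9) (nat_lit 130) (@Lb.g g9 (@Lb.g g10 (@Lb.g g11 (@Lb.r r643 (@Lb.r r536 (@Lb.r r613 (@Lb.r r666 (@Lb.r r132 (@Lb.d (nat_lit 426) (nat_lit 34) (nat_lit 586) (@Lb.t (@Lb.fm (nat_lit 9) t283))))))))))))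
noncomputable def l26916 : Lb := (@Lb.d (nat_lit 612) (nat_lit 100) (nat_lit 102) (@Lb.r r2178 (@Lb.r r2727 (@Lb.r r661 (@Lb.g g7 (@Lb.g g8 (@Lb.d (nat_lit 2) (nat_lit 16) (nat_lit 64) (@Lb.fp (nat_lit 3) t271))))))))
noncomputable def l26917 : Lb := (@Lb.d (nat_lit 0) (nat_lit 520) (nat_lit 130) (@Lb.g g9 (@Lb.g g10 (@Lb.g g11 (@Lb.r r643 (@Lb.r r644 (@Lb.r r342 (@Lb.r r421 (@Lb.r r20 (@Lb.d (nat_lit 278) (nat_lit 33) (nat_lit 586) (@Lb.t (@Lb.fm (nat_lit 9) t283))))))))))))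
noncomputable def l26918 : Lb := (@Lb.d (nat_lit 0) (nat_lit 33) (nat_lit 0) (@Lb.g g9 (@Lb.r r2579 (@Lb.r r2178 (@Lb.r r289 (@Lb.r r8 (@Lb.d (nat_lit 321) (nat_lit 34) (nat_lit 5) (@Lb.t (@Lb.fp (nat_lit 3) t271)))))))))
noncomputable def l26919 : Lb := (@Lb.r r323 (@Lb.d (nat_lit 16) (nat_lit 40) (nat_lit 2) (@Lb.g g9 (@Lb.g g10 (@Lb.r r296 (@Lb.r r407 (@Lb.r r681 (@Lb.d (nat_lit 133) (nat_lit 17) (nat_lit 148) (@Lb.fm (nat_lit 3) t573)))))))))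
noncomputable def l26920 : Lb := (@Lb.d (nat_lit 0) (nat_lit 581) (nat_lit 84) (@Lb.r r101 (@Lb.g g7 (@Lb.g g8 (@Lb.d (nat_lit 9) (nat_lit 0) (nat_lit 68) (@Lb.fm (nat_lit 3) t5022))))))
noncomputable def l26921 : Lb := (@Lb.d (nat_lit 0) (nat_lit 521) (nat_lit 130) (@Lb.g g8 (@Lb.g g9 (@Lb.g g10 (@Lb.g g11 (@Lb.r r1451 (@Lb.r r420 (@Lb.r r102 (@Lb.r r97 (@Lb.r r1060 (@Lb.d (nat_lit 265) (nat_lit 130) (nat_lit 138) (@Lb.fm (nat_lit 9) t2390))))))))))))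
noncomputable def l26922 : Lb := (@Lb.d (nat_lit 326) (nat_lit 393) (nat_lit 388) (@Lb.r r597 (@Lb.r r2666 (@Lb.r r2376 (@Lb.r r2691 (@Lb.g g7 (@Lb.g g6 (@Lb.g g5 (@Lb.d (nat_lit 4) (nat_lit 1) (nat_lit 65) (@Lb.t (@Lb.fp (nat_lit 9) t1500)))))))))))
noncomputable def l26923 : Lb := (@Lb.d (nat_lit 0) (nat_lit 512) (nat_lit 10) (@Lb.g g8 (@Lb.g g10 (@Lb.r r2449 (@Lb.r r2403 (@Lb.r r594 (@Lb.d (nat_lit 0) (nat_lit 100) (nat_lit 330) (@Lb.fm (nat_lit 3) t3721))))))))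
noncomputable def l26924 : Lb := (@Lb.d (nat_lit 358) (nat_lit 97) (nat_lit 532) (@Lb.r r1428 (@Lb.r r150 (@Lb.r r2579 (@Lb.g g5 (@Lb.g g4 (@Lb.d (nat_lit 17) (nat_lit 80) (nat_lit 0) (@Lb.r r291 (@Lb.r r98 (@Lb.fm (nat_lit 3) t270))))))))))
noncomputable def l26925 : Lb := (@Lb.d (nat_lit 0) (nat_lit 6) (nat_lit 129) (@Lb.g g9 (@Lb.g g10 (@Lb.g g11 (@Lb.r r387 (@Lb.r r40 (@Lb.r r153 (@Lb.r r402 (@Lb.d (nat_lit 145) (nat_lit 21) (nat_lit 84) (@Lb.t (@Lb.fm (nat_lit 9) t5023)))))))))))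
noncomputable def l26926 : Lb := (@Lb.d (nat_lit 10) (nat_lit 256) (nat_lit 132) (@Lb.g g8 (@Lb.g g9 (@Lb.g g10 (@Lb.g g7 (@Lb.r r678 (@Lb.r r2453 (@Lb.r r2436 (@Lb.d (nat_lit 612) (nat_lit 21) (nat_lit 148) (@Lb.fp (nat_lit 9) t918))))))))))
noncomputable def l26927 : Lb := (@Lb.d (nat_lit 0) (nat_lit 264) (nat_lit 4) (@Lb.g g8 (@Lb.g g10 (@Lb.g g11 (@Lb.r r353 (@Lb.r r663 (@Lb.r r356 (@Lb.r r154 (@Lb.d (nat_lit 26) (nat_lit 89) (nat_lit 290) (@Lb.t (@Lb.fp (nat_lit 9) t210)))))))))))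
noncomputable def l26928 : Lb := (@Lb.d (nat_lit 289) (nat_lit 514) (nat_lit 0) (@Lb.g g4 (@Lb.g g9 (@Lb.g g11 (@Lb.r r593 (@Lb.r r339 (@Lb.r r2178 (@Lb.r r1553 (@Lb.d (nat_lit 289) (nat_lit 66) (nat_lit 514) (@Lb.t (@Lb.fm (nat_lit 9) t2982)))))))))))
noncomputable def l26929 : Lb := (@Lb.d (nat_lit 4) (nat_lit 294) (nat_lit 128) (@Lb.g g8 (@Lb.g g9 (@Lb.g g10 (@Lb.g g11 (@Lb.r r1707 (@Lb.r r1386 (@Lb.r r2585 (@Lb.d (nat_lit 330) (nat_lit 9) (nat_lit 549) (@Lb.fm (nat_lit 9) t1370))))))))))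
noncomputable def l26930 : Lb := (@Lb.g g8 (@Lb.g g11 (@Lb.r r273 (@Lb.r r551 (@Lb.r r340 (@Lb.r r170 (@Lb.r r153 (@Lb.d (nat_lit 0) (nat_lit 88) (nat_lit 290) (@Lb.fm (nat_lit 3) t654)))))))))
noncomputable def l26931 : Lb := (@Lb.d (nat_lit 256) (nat_lit 512) (nat_lit 0) (@Lb.r r263 (@Lb.g g8 (@Lb.d (nat_lit 514) (nat_lit 0) (nat_lit 0) (@Lb.r r267 (@Lb.t (@Lb.fp (nat_lit 3) t3238)))))))
noncomputable def l26932 : Lb := (@Lb.r r82 (@Lb.d (nat_lit 2) (nat_lit 16) (nat_lit 0) (@Lb.g g8 (@Lb.g g9 (@Lb.g g11 (@Lb.r r2659 (@Lb.r r386 (@Lb.r r37 (@Lb.r r1096 (@Lb.d (nat_lit 533) (nat_lit 133) (nat_lit 34) (@Lb.t (@Lb.fm (nat_lit 9) t5024))))))))))))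
noncomputable def l26933 : Lb := (@Lb.r r21 (@Lb.d (nat_lit 153) (nat_lit 0) (nat_lit 128) (@Lb.g g8 (@Lb.g g10 (@Lb.g g11 (@Lb.r r387 (@Lb.r r1617 (@Lb.r r2406 (@Lb.r r152 (@Lb.d (nat_lit 681) (nat_lit 10) (nat_lit 274) (@Lb.t (@Lb.fp (nat_lit 9) t1203))))))))))))
noncomputable def l26934 : Lb := (@Lb.d (nat_lit 130) (nat_lit 0) (nat_lit 128) (@Lb.g g8 (@Lb.g g11 (@Lb.r r264 (@Lb.r r1287 (@Lb.r r516 (@Lb.d (nat_lit 130) (nat_lit 0) (nat_lit 128) (@Lb.fp (nat_lit 3) t5025))))))))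
noncomputable def l26935 : Lb := (@Lb.d (nat_lit 128) (nat_lit 288) (nat_lit 136) (@Lb.g g11 (@Lb.r r420 (@Lb.r r2469 (@Lb.r r1446 (@Lb.r r347 (@Lb.d (nat_lit 288) (nat_lit 86) (nat_lit 646) (@Lb.t (@Lb.fp (nat_lit 3) t748)))))))))
noncomputable def l26936 : Lb := (@Lb.d (nat_lit 72) (nat_lit 22) (nat_lit 0) (@Lb.g g8 (@Lb.g g9 (@Lb.g g10 (@Lb.g g11 (@Lb.r r1702 (@Lb.r r1419 (@Lb.r r81 (@Lb.r r2148 (@Lb.d (nat_lit 528) (nat_lit 154) (nat_lit 336) (@Lb.fm (nat_lit 9) t1755)))))))))))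
noncomputable def l26937 : Lb := (@Lb.r r2451 (@Lb.r r1186 (@Lb.r r2209 (@Lb.r r2196 (@Lb.d (nat_lit 0) (nat_lit 133) (nat_lit 17) (@Lb.fp (nat_lit 1) t2560))))))
noncomputable def l26938 : Lb := (@Lb.d (nat_lit 10) (nat_lit 521) (nat_lit 16) (@Lb.r r21 (@Lb.r r70 (@Lb.r r263 (@Lb.g g4 (@Lb.r r267 (@Lb.r r74 (@Lb.r r25 (@Lb.t (@Lb.fm (nat_lit 3) t151))))))))))
noncomputable def l26939 : Lb := (@Lb.d (nat_lit 2) (nat_lit 2) (nat_lit 128) (@Lb.g g8 (@Lb.g g9 (@Lb.g g11 (@Lb.r r529 (@Lb.r r663 (@Lb.r r356 (@Lb.r r586 (@Lb.d (nat_lit 538) (nat_lit 4) (nat_lit 86) (@Lb.t (@Lb.fp (nat_lit 9) t61)))))))))))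
noncomputable def l26940 : Lb := (@Lb.d (nat_lit 2) (nat_lit 2) (nat_lit 130) (@Lb.g g8 (@Lb.g g9 (@Lb.g g10 (@Lb.g g11 (@Lb.r r427 (@Lb.r r386 (@Lb.r r104 (@Lb.r r25 (@Lb.d (nat_lit 586) (nat_lit 4) (nat_lit 152) (@Lb.fp (nat_lit 9) t61)))))))))))
noncomputable def l26941 : Lb := (@Lb.d (nat_lit 160) (nat_lit 512) (nat_lit 84) (@Lb.r r2370 (@Lb.r r2695 (@Lb.g g7 (@Lb.g g6 (@Lb.g g8 (@Lb.d (nat_lit 290) (nat_lit 0) (nat_lit 133) (@Lb.t (@Lb.fp (nat_lit 9) t890)))))))))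
noncomputable def l26942 : Lb := (@Lb.d (nat_lit 0) (nat_lit 512) (nat_lit 128) (@Lb.g g11 (@Lb.r r293 (@Lb.r r2587 (@Lb.r r1414 (@Lb.r r2584 (@Lb.d (nat_lit 66) (nat_lit 128) (nat_lit 256) (@Lb.t (@Lb.fp (nat_lit 3) t1628)))))))))
noncomputable def l26943 : Lb := (@Lb.d (nat_lit 9) (nat_lit 1) (nat_lit 0) (@Lb.g g8 (@Lb.g g9 (@Lb.r r406 (@Lb.r r579 (@Lb.r r25 (@Lb.r r24 (@Lb.d (nat_lit 6) (nat_lit 82) (nat_lit 64) (@Lb.fp (nat_lit 3) t51)))))))))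
noncomputable def l26944 : Lb := (@Lb.r r70 (@Lb.d (nat_lit 513) (nat_lit 257) (nat_lit 136) (@Lb.g g8 (@Lb.g g9 (@Lb.g g11 (@Lb.r r146 (@Lb.r r357 (@Lb.r r1435 (@Lb.d (nat_lit 9) (nat_lit 90) (nat_lit 402) (@Lb.t (@Lb.fm (nat_lit 9) t329)))))))))))
noncomputable def l26945 : Lb := (@Lb.g g5 (@Lb.r r20 (@Lb.r r2073 (@Lb.d (nat_lit 0) (nat_lit 645) (nat_lit 1) (@Lb.t (@Lb.fm (nat_lit 3) t45))))))
noncomputable def l26946 : Lb := (@Lb.d (nat_lit 0) (nat_lit 512) (nat_lit 2) (@Lb.g g5 (@Lb.g g10 (@Lb.r r146 (@Lb.r r24 (@Lb.d (nat_lit 610) (nat_lit 136) (nat_lit 529) (@Lb.fp (nat_lit 3) t1994)))))))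
noncomputable def l26947 : Lb := (@Lb.d (nat_lit 129) (nat_lit 258) (nat_lit 66) (@Lb.g g8 (@Lb.g g9 (@Lb.g g10 (@Lb.g g11 (@Lb.r r683 (@Lb.r r1689 (@Lb.r r1178 (@Lb.r r1172 (@Lb.d (nat_lit 548) (nat_lit 8) (nat_lit 546) (@Lb.fp (nat_lit 9) t264)))))))))))
noncomputable def l26948 : Lb := (@Lb.d (nat_lit 536) (nat_lit 258) (nat_lit 17) (@Lb.r r20 (@Lb.r r2073 (@Lb.r r24 (@Lb.g g6 (@Lb.g g5 (@Lb.g g8 (@Lb.t (@Lb.fp (nat_lit 9) t1400)))))))))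
noncomputable def l26949 : Lb := (@Lb.d (nat_lit 129) (nat_lit 258) (nat_lit 66) (@Lb.g g8 (@Lb.g g9 (@Lb.g g10 (@Lb.g g11 (@Lb.r r683 (@Lb.r r1689 (@Lb.r r1178 (@Lb.r r1172 (@Lb.d (nat_lit 549) (nat_lit 8) (nat_lit 681) (@Lb.fp (nat_lit 9) t264)))))))))))
noncomputable def l26950 : Lb := (@Lb.r r81 (@Lb.r r263 (@Lb.d (nat_lit 2) (nat_lit 256) (nat_lit 34) (@Lb.g g8 (@Lb.g g10 (@Lb.r r2724 (@Lb.r r1575 (@Lb.r r37 (@Lb.d (nat_lit 5) (nat_lit 72) (nat_lit 17) (@Lb.fm (nat_lit 3) t5026))))))))))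
noncomputable def l26951 : Lb := (@Lb.d (nat_lit 129) (nat_lit 2) (nat_lit 66) (@Lb.g g8 (@Lb.g g9 (@Lb.g g10 (@Lb.g g11 (@Lb.r r1194 (@Lb.r r520 (@Lb.r r2651 (@Lb.r r2337 (@Lb.r r2084 (@Lb.d (nat_lit 22) (nat_lit 32) (nat_lit 609) (@Lb.fp (nat_lit 9) t5027))))))))))))
noncomputable def l26952 : Lb := (@Lb.d (nat_lit 70) (nat_lit 289) (nat_lit 9) (@Lb.g g8 (@Lb.g g9 (@Lb.g g10 (@Lb.g g11 (@Lb.r r1675 (@Lb.r r613 (@Lb.r r662 (@Lb.r r2148 (@Lb.d (nat_lit 85) (nat_lit 82) (nat_lit 597) (@Lb.fm (nat_lit 9) t3462)))))))))))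
noncomputable def l26953 : Lb := (@Lb.d (nat_lit 0) (nat_lit 512) (nat_lit 136) (@Lb.g g11 (@Lb.r r2341 (@Lb.r r1624 (@Lb.d (nat_lit 577) (nat_lit 100) (nat_lit 37) (@Lb.t (@Lb.fp (nat_lit 3) t4189)))))))
noncomputable def l26954 : Lb := (@Lb.r r359 (@Lb.d (nat_lit 2) (nat_lit 514) (nat_lit 1) (@Lb.g g8 (@Lb.g g9 (@Lb.g g6 (@Lb.r r1643 (@Lb.r r2145 (@Lb.r r1048 (@Lb.d (nat_lit 0) (nat_lit 138) (nat_lit 160) (@Lb.t (@Lb.fm (nat_lit 9) t5028)))))))))))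
noncomputable def l26955 : Lb := (@Lb.d (nat_lit 70) (nat_lit 289) (nat_lit 66) (@Lb.g g8 (@Lb.g g9 (@Lb.g g10 (@Lb.g g11 (@Lb.r r1675 (@Lb.r r613 (@Lb.r r662 (@Lb.r r2148 (@Lb.d (nat_lit 80) (nat_lit 81) (nat_lit 597) (@Lb.fm (nat_lit 9) t1913)))))))))))
noncomputable def l26956 : Lb := (@Lb.d (nat_lit 136) (nat_lit 530) (nat_lit 130) (@Lb.g g8 (@Lb.g g9 (@Lb.g g10 (@Lb.g g11 (@Lb.r r1675 (@Lb.r r609 (@Lb.r r666 (@Lb.r r1176 (@Lb.d (nat_lit 290) (nat_lit 162) (nat_lit 96) (@Lb.fp (nat_lit 9) t1913)))))))))))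
noncomputable def l26957 : Lb := (@Lb.d (nat_lit 2) (nat_lit 514) (nat_lit 66) (@Lb.g g8 (@Lb.g g9 (@Lb.g g10 (@Lb.g g7 (@Lb.r r386 (@Lb.r r2657 (@Lb.r r1304 (@Lb.d (nat_lit 0) (nat_lit 170) (nat_lit 165) (@Lb.fp (nat_lit 9) t3394))))))))))
noncomputable def l26958 : Lb := (@Lb.d (nat_lit 0) (nat_lit 266) (nat_lit 0) (@Lb.g g4 (@Lb.g g9 (@Lb.g g7 (@Lb.r r2138 (@Lb.r r149 (@Lb.d (nat_lit 517) (nat_lit 10) (nat_lit 68) (@Lb.t (@Lb.fm (nat_lit 9) t1514)))))))))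
noncomputable def l26959 : Lb := (@Lb.d (nat_lit 136) (nat_lit 257) (nat_lit 66) (@Lb.g g8 (@Lb.g g9 (@Lb.g g10 (@Lb.g g11 (@Lb.r r586 (@Lb.r r1129 (@Lb.r r584 (@Lb.r r2459 (@Lb.d (nat_lit 409) (nat_lit 9) (nat_lit 21) (@Lb.fp (nat_lit 9) t594)))))))))))
noncomputable def l26960 : Lb := (@Lb.r r322 (@Lb.d (nat_lit 1) (nat_lit 545) (nat_lit 516) (@Lb.g g8 (@Lb.g g9 (@Lb.g g7 (@Lb.r r2474 (@Lb.r r1188 (@Lb.r r1061 (@Lb.d (nat_lit 260) (nat_lit 136) (nat_lit 66) (@Lb.t (@Lb.fp (nat_lit 9) t512)))))))))))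
noncomputable def l26961 : Lb := (@Lb.r r322 (@Lb.d (nat_lit 2) (nat_lit 33) (nat_lit 516) (@Lb.g g8 (@Lb.g g9 (@Lb.g g7 (@Lb.r r2474 (@Lb.r r1188 (@Lb.r r1061 (@Lb.d (nat_lit 260) (nat_lit 129) (nat_lit 64) (@Lb.t (@Lb.fp (nat_lit 9) t512)))))))))))
noncomputable def l26962 : Lb := (@Lb.d (nat_lit 9) (nat_lit 1) (nat_lit 130) (@Lb.g g8 (@Lb.g g9 (@Lb.g g10 (@Lb.g g11 (@Lb.r r427 (@Lb.r r297 (@Lb.r r104 (@Lb.r r70 (@Lb.r r132 (@Lb.d (nat_lit 9) (nat_lit 149) (nat_lit 8) (@Lb.fp (nat_lit 9) t51))))))))))))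
noncomputable def l26963 : Lb := (@Lb.g g4 (@Lb.g g7 (@Lb.r r405 (@Lb.r r82 (@Lb.r r2193 (@Lb.d (nat_lit 96) (nat_lit 0) (nat_lit 354) (@Lb.fm (nat_lit 3) t572)))))))
noncomputable def l26964 : Lb := (@Lb.r r322 (@Lb.d (nat_lit 2) (nat_lit 289) (nat_lit 516) (@Lb.g g8 (@Lb.g g9 (@Lb.g g7 (@Lb.r r2474 (@Lb.r r1188 (@Lb.r r1061 (@Lb.d (nat_lit 260) (nat_lit 136) (nat_lit 66) (@Lb.t (@Lb.fp (nat_lit 9) t512)))))))))))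
noncomputable def l26965 : Lb := (@Lb.d (nat_lit 6) (nat_lit 648) (nat_lit 362) (@Lb.r r1361 (@Lb.r r2471 (@Lb.r r612 (@Lb.r r346 (@Lb.g g7 (@Lb.g g6 (@Lb.g g5 (@Lb.d (nat_lit 8) (nat_lit 2) (nat_lit 65) (@Lb.t (@Lb.fp (nat_lit 9) t428)))))))))))
noncomputable def l26966 : Lb := (@Lb.r r323 (@Lb.d (nat_lit 8) (nat_lit 516) (nat_lit 0) (@Lb.g g9 (@Lb.g g10 (@Lb.r r426 (@Lb.r r1611 (@Lb.r r20 (@Lb.r r105 (@Lb.d (nat_lit 421) (nat_lit 41) (nat_lit 258) (@Lb.fp (nat_lit 3) t5029))))))))))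
noncomputable def l26967 : Lb := (@Lb.d (nat_lit 682) (nat_lit 392) (nat_lit 554) (@Lb.r r2650 (@Lb.r r1352 (@Lb.r r2711 (@Lb.r r361 (@Lb.g g7 (@Lb.g g6 (@Lb.d (nat_lit 16) (nat_lit 4) (nat_lit 129) (@Lb.fp (nat_lit 3) t3051)))))))))
noncomputable def l26968 : Lb := (@Lb.d (nat_lit 618) (nat_lit 597) (nat_lit 550) (@Lb.r r2710 (@Lb.r r1352 (@Lb.r r659 (@Lb.r r2401 (@Lb.g g7 (@Lb.g g6 (@Lb.d (nat_lit 16) (nat_lit 4) (nat_lit 129) (@Lb.fm (nat_lit 3) t895)))))))))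
noncomputable def l26969 : Lb := (@Lb.r r82 (@Lb.d (nat_lit 0) (nat_lit 553) (nat_lit 64) (@Lb.g g9 (@Lb.g g11 (@Lb.r r1635 (@Lb.r r2454 (@Lb.r r1636 (@Lb.r r1557 (@Lb.d (nat_lit 393) (nat_lit 80) (nat_lit 576) (@Lb.fm (nat_lit 3) t848))))))))))
noncomputable def l26970 : Lb := (@Lb.d (nat_lit 8) (nat_lit 545) (nat_lit 66) (@Lb.g g9 (@Lb.g g10 (@Lb.g g11 (@Lb.r r1703 (@Lb.r r1634 (@Lb.r r2328 (@Lb.r r1637 (@Lb.d (nat_lit 404) (nat_lit 138) (nat_lit 602) (@Lb.t (@Lb.fp (nat_lit 9) t261)))))))))))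
noncomputable def l26971 : Lb := (@Lb.d (nat_lit 2) (nat_lit 658) (nat_lit 389) (@Lb.r r579 (@Lb.r r1362 (@Lb.g g7 (@Lb.g g6 (@Lb.g g5 (@Lb.g g8 (@Lb.d (nat_lit 2) (nat_lit 129) (nat_lit 65) (@Lb.fp (nat_lit 9) t126)))))))))
noncomputable def l26972 : Lb := (@Lb.r r82 (@Lb.d (nat_lit 2) (nat_lit 0) (nat_lit 0) (@Lb.g g8 (@Lb.g g9 (@Lb.r r1291 (@Lb.r r2154 (@Lb.r r2073 (@Lb.d (nat_lit 9) (nat_lit 2) (nat_lit 0) (@Lb.fm (nat_lit 3) t3938)))))))))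
noncomputable def l26973 : Lb := (@Lb.d (nat_lit 96) (nat_lit 0) (nat_lit 584) (@Lb.r r24 (@Lb.r r85 (@Lb.r r2643 (@Lb.g g10 (@Lb.g g9 (@Lb.d (nat_lit 0) (nat_lit 1) (nat_lit 8) (@Lb.r r387 (@Lb.fm (nat_lit 3) t475)))))))))
noncomputable def l26974 : Lb := (@Lb.d (nat_lit 518) (nat_lit 576) (nat_lit 0) (@Lb.r r1045 (@Lb.g g4 (@Lb.d (nat_lit 1) (nat_lit 0) (nat_lit 0) (@Lb.t (@Lb.fm (nat_lit 3) t2))))))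
noncomputable def l26975 : Lb := (@Lb.r r323 (@Lb.d (nat_lit 0) (nat_lit 260) (nat_lit 0) (@Lb.g g8 (@Lb.g g9 (@Lb.g g10 (@Lb.r r401 (@Lb.r r299 (@Lb.r r392 (@Lb.r r74 (@Lb.d (nat_lit 33) (nat_lit 10) (nat_lit 138) (@Lb.t (@Lb.fp (nat_lit 9) t601))))))))))))
noncomputable def l26976 : Lb := (@Lb.d (nat_lit 4) (nat_lit 70) (nat_lit 1) (@Lb.r r289 (@Lb.r r279 (@Lb.r r584 (@Lb.r r326 (@Lb.g g7 (@Lb.g g6 (@Lb.g g5 (@Lb.d (nat_lit 4) (nat_lit 1) (nat_lit 65) (@Lb.t (@Lb.fp (nat_lit 9) t68)))))))))))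
noncomputable def l26977 : Lb := (@Lb.d (nat_lit 8) (nat_lit 41) (nat_lit 0) (@Lb.g g9 (@Lb.r r2708 (@Lb.r r2711 (@Lb.r r662 (@Lb.r r2393 (@Lb.d (nat_lit 298) (nat_lit 150) (nat_lit 294) (@Lb.t (@Lb.fp (nat_lit 3) t322)))))))))
noncomputable def l26978 : Lb := (@Lb.r r20 (@Lb.d (nat_lit 8) (nat_lit 73) (nat_lit 66) (@Lb.g g9 (@Lb.g g10 (@Lb.g g11 (@Lb.r r610 (@Lb.d (nat_lit 0) (nat_lit 25) (nat_lit 130) (@Lb.t (@Lb.fm (nat_lit 9) t1356)))))))))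
noncomputable def l26979 : Lb := (@Lb.r r323 (@Lb.d (nat_lit 5) (nat_lit 2) (nat_lit 2) (@Lb.g g8 (@Lb.g g9 (@Lb.g g10 (@Lb.r r409 (@Lb.r r295 (@Lb.r r580 (@Lb.r r74 (@Lb.d (nat_lit 81) (nat_lit 10) (nat_lit 138) (@Lb.t (@Lb.fm (nat_lit 9) t61))))))))))))
noncomputable def l26980 : Lb := (@Lb.r r21 (@Lb.r r70 (@Lb.d (nat_lit 293) (nat_lit 0) (nat_lit 128) (@Lb.g g4 (@Lb.g g11 (@Lb.r r583 (@Lb.r r101 (@Lb.r r410 (@Lb.d (nat_lit 608) (nat_lit 165) (nat_lit 68) (@Lb.fm (nat_lit 3) t541))))))))))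
noncomputable def l26981 : Lb := (@Lb.g g4 (@Lb.g g7 (@Lb.r r101 (@Lb.r r402 (@Lb.d (nat_lit 96) (nat_lit 512) (nat_lit 66) (@Lb.fm (nat_lit 3) t311))))))
noncomputable def l26982 : Lb := (@Lb.d (nat_lit 546) (nat_lit 4) (nat_lit 16) (@Lb.r r101 (@Lb.r r402 (@Lb.r r323 (@Lb.g g7 (@Lb.g g6 (@Lb.d (nat_lit 0) (nat_lit 0) (nat_lit 64) (@Lb.fm (nat_lit 3) t218))))))))
noncomputable def l26983 : Lb := (@Lb.d (nat_lit 0) (nat_lit 265) (nat_lit 129) (@Lb.g g8 (@Lb.g g9 (@Lb.g g10 (@Lb.g g11 (@Lb.r r1435 (@Lb.r r145 (@Lb.r r2646 (@Lb.r r1416 (@Lb.d (nat_lit 408) (nat_lit 9) (nat_lit 393) (@Lb.fm (nat_lit 9) t5030)))))))))))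
noncomputable def l26984 : Lb := (@Lb.g g8 (@Lb.g g5 (@Lb.r r101 (@Lb.d (nat_lit 256) (nat_lit 0) (nat_lit 32) (@Lb.fm (nat_lit 3) t743)))))
noncomputable def l26985 : Lb := (@Lb.g g5 (@Lb.d (nat_lit 292) (nat_lit 262) (nat_lit 32) (@Lb.t (@Lb.fm (nat_lit 3) t947))))
noncomputable def l26986 : Lb := (@Lb.d (nat_lit 282) (nat_lit 4) (nat_lit 33) (@Lb.g g9 (@Lb.d (nat_lit 8) (nat_lit 9) (nat_lit 0) (@Lb.t (@Lb.fp (nat_lit 3) t2477)))))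
noncomputable def l26987 : Lb := (@Lb.d (nat_lit 4) (nat_lit 1) (nat_lit 0) (@Lb.g g5 (@Lb.d (nat_lit 293) (nat_lit 6) (nat_lit 32) (@Lb.t (@Lb.fm (nat_lit 3) t947)))))
noncomputable def l26988 : Lb := (@Lb.d (nat_lit 128) (nat_lit 512) (nat_lit 128) (@Lb.g g10 (@Lb.g g11 (@Lb.r r586 (@Lb.r r24 (@Lb.r r405 (@Lb.r r611 (@Lb.d (nat_lit 0) (nat_lit 9) (nat_lit 128) (@Lb.fm (nat_lit 3) t242)))))))))
noncomputable def l26989 : Lb := (@Lb.d (nat_lit 2) (nat_lit 513) (nat_lit 128) (@Lb.g g8 (@Lb.g g9 (@Lb.g g11 (@Lb.r r2457 (@Lb.r r1379 (@Lb.r r2626 (@Lb.d (nat_lit 129) (nat_lit 169) (nat_lit 148) (@Lb.t (@Lb.fm (nat_lit 9) t242))))))))))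
noncomputable def l26990 : Lb := (@Lb.d (nat_lit 0) (nat_lit 650) (nat_lit 84) (@Lb.r r2641 (@Lb.r r354 (@Lb.r r2451 (@Lb.g g11 (@Lb.t (@Lb.fp (nat_lit 3) t4496)))))))
noncomputable def l26991 : Lb := (@Lb.d (nat_lit 582) (nat_lit 641) (nat_lit 388) (@Lb.r r2308 (@Lb.r r2325 (@Lb.r r1643 (@Lb.g g10 (@Lb.g g5 (@Lb.g g4 (@Lb.d (nat_lit 18) (nat_lit 1) (nat_lit 10) (@Lb.r r387 (@Lb.t (@Lb.fp (nat_lit 9) t693)))))))))))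
noncomputable def l26992 : Lb := (@Lb.d (nat_lit 1) (nat_lit 545) (nat_lit 4) (@Lb.g g8 (@Lb.g g9 (@Lb.g g10 (@Lb.g g11 (@Lb.r r683 (@Lb.r r616 (@Lb.r r86 (@Lb.r r165 (@Lb.r r20 (@Lb.d (nat_lit 41) (nat_lit 8) (nat_lit 70) (@Lb.fm (nat_lit 9) t597))))))))))))
noncomputable def l26993 : Lb := (@Lb.r r386 (@Lb.r r2371 (@Lb.r r578 (@Lb.r r2341 (@Lb.r r24 (@Lb.d (nat_lit 514) (nat_lit 256) (nat_lit 581) (@Lb.fm (nat_lit 1) t2027)))))))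
noncomputable def l26994 : Lb := (@Lb.g g5 (@Lb.g g6 (@Lb.r r1126 (@Lb.r r101 (@Lb.d (nat_lit 36) (nat_lit 392) (nat_lit 17) (@Lb.fp (nat_lit 3) t543))))))
noncomputable def l26995 : Lb := (@Lb.d (nat_lit 0) (nat_lit 296) (nat_lit 385) (@Lb.g g10 (@Lb.g g11 (@Lb.r r1105 (@Lb.r r98 (@Lb.d (nat_lit 546) (nat_lit 66) (nat_lit 17) (@Lb.fm (nat_lit 3) t372)))))))
noncomputable def l26996 : Lb := (@Lb.d (nat_lit 8) (nat_lit 2) (nat_lit 0) (@Lb.g g9 (@Lb.r r166 (@Lb.r r344 (@Lb.r r359 (@Lb.r r337 (@Lb.d (nat_lit 0) (nat_lit 17) (nat_lit 133) (@Lb.t (@Lb.fp (nat_lit 3) t51)))))))))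
noncomputable def l26997 : Lb := (@Lb.r r612 (@Lb.r r359 (@Lb.r r2178 (@Lb.r r405 (@Lb.r r2596 (@Lb.d (nat_lit 2) (nat_lit 512) (nat_lit 32) (@Lb.fm (nat_lit 1) t2884)))))))
noncomputable def l26998 : Lb := (@Lb.d (nat_lit 2) (nat_lit 2) (nat_lit 73) (@Lb.g g8 (@Lb.g g9 (@Lb.g g10 (@Lb.g g11 (@Lb.r r2666 (@Lb.r r579 (@Lb.r r97 (@Lb.r r24 (@Lb.d (nat_lit 425) (nat_lit 9) (nat_lit 356) (@Lb.fm (nat_lit 9) t61)))))))))))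
noncomputable def l26999 : Lb := (@Lb.r r21 (@Lb.d (nat_lit 33) (nat_lit 0) (nat_lit 1) (@Lb.g g8 (@Lb.g g10 (@Lb.r r651 (@Lb.r r1556 (@Lb.r r153 (@Lb.r r602 (@Lb.d (nat_lit 393) (nat_lit 101) (nat_lit 406) (@Lb.fp (nat_lit 3) t428))))))))))
noncomputable def l27000 : Lb := (@Lb.r r580 (@Lb.r r593 (@Lb.d (nat_lit 16) (nat_lit 264) (nat_lit 9) (@Lb.g g6 (@Lb.g g11 (@Lb.r r584 (@Lb.r r299 (@Lb.r r33 (@Lb.d (nat_lit 134) (nat_lit 33) (nat_lit 72) (@Lb.fp (nat_lit 3) t74))))))))))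
noncomputable def l27001 : Lb := (@Lb.d (nat_lit 128) (nat_lit 512) (nat_lit 66) (@Lb.g g10 (@Lb.g g11 (@Lb.r r264 (@Lb.r r519 (@Lb.r r161 (@Lb.r r98 (@Lb.d (nat_lit 130) (nat_lit 8) (nat_lit 129) (@Lb.fp (nat_lit 3) t97)))))))))
noncomputable def l27002 : Lb := (@Lb.d (nat_lit 128) (nat_lit 512) (nat_lit 64) (@Lb.g g11 (@Lb.r r264 (@Lb.r r519 (@Lb.r r101 (@Lb.r r154 (@Lb.d (nat_lit 393) (nat_lit 2) (nat_lit 160) (@Lb.t (@Lb.fp (nat_lit 3) t425)))))))))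
noncomputable def l27003 : Lb := (@Lb.d (nat_lit 129) (nat_lit 41) (nat_lit 1) (@Lb.g g8 (@Lb.g g9 (@Lb.g g10 (@Lb.r r343 (@Lb.r r162 (@Lb.r r2712 (@Lb.r r165 (@Lb.d (nat_lit 37) (nat_lit 146) (nat_lit 425) (@Lb.t (@Lb.fp (nat_lit 9) t428)))))))))))
noncomputable def l27004 : Lb := (@Lb.d (nat_lit 130) (nat_lit 297) (nat_lit 1) (@Lb.g g8 (@Lb.g g9 (@Lb.g g10 (@Lb.r r343 (@Lb.r r162 (@Lb.r r2712 (@Lb.r r165 (@Lb.d (nat_lit 37) (nat_lit 146) (nat_lit 290) (@Lb.t (@Lb.fp (nat_lit 9) t428)))))))))))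
noncomputable def l27005 : Lb := (@Lb.d (nat_lit 0) (nat_lit 512) (nat_lit 130) (@Lb.g g10 (@Lb.g g11 (@Lb.r r419 (@Lb.r r386 (@Lb.r r101 (@Lb.d (nat_lit 416) (nat_lit 20) (nat_lit 41) (@Lb.fm (nat_lit 3) t4713))))))))
noncomputable def l27006 : Lb := (@Lb.r r82 (@Lb.r r275 (@Lb.d (nat_lit 2) (nat_lit 282) (nat_lit 0) (@Lb.g g8 (@Lb.g g9 (@Lb.r r363 (@Lb.r r1416 (@Lb.r r1098 (@Lb.d (nat_lit 32) (nat_lit 9) (nat_lit 138) (@Lb.fp (nat_lit 3) t31))))))))))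
noncomputable def l27007 : Lb := (@Lb.r r323 (@Lb.d (nat_lit 2) (nat_lit 258) (nat_lit 2) (@Lb.g g8 (@Lb.g g9 (@Lb.g g10 (@Lb.r r401 (@Lb.r r299 (@Lb.r r420 (@Lb.r r102 (@Lb.d (nat_lit 16) (nat_lit 70) (nat_lit 152) (@Lb.t (@Lb.fm (nat_lit 9) t1022))))))))))))
noncomputable def l27008 : Lb := (@Lb.r r323 (@Lb.d (nat_lit 2) (nat_lit 2) (nat_lit 2) (@Lb.g g8 (@Lb.g g9 (@Lb.g g10 (@Lb.r r401 (@Lb.r r299 (@Lb.r r420 (@Lb.r r102 (@Lb.d (nat_lit 17) (nat_lit 70) (nat_lit 152) (@Lb.t (@Lb.fm (nat_lit 9) t1022))))))))))))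
noncomputable def l27009 : Lb := (@Lb.r r82 (@Lb.r r275 (@Lb.d (nat_lit 0) (nat_lit 26) (nat_lit 0) (@Lb.g g8 (@Lb.g g9 (@Lb.r r363 (@Lb.r r1416 (@Lb.r r1098 (@Lb.d (nat_lit 32) (nat_lit 9) (nat_lit 138) (@Lb.fp (nat_lit 3) t31))))))))))
noncomputable def l27010 : Lb := (@Lb.d (nat_lit 130) (nat_lit 258) (nat_lit 2) (@Lb.g g8 (@Lb.g g9 (@Lb.g g10 (@Lb.r r2691 (@Lb.r r2217 (@Lb.r r2666 (@Lb.r r104 (@Lb.d (nat_lit 676) (nat_lit 10) (nat_lit 393) (@Lb.t (@Lb.fp (nat_lit 9) t242)))))))))))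
noncomputable def l27011 : Lb := (@Lb.d (nat_lit 1) (nat_lit 514) (nat_lit 72) (@Lb.g g8 (@Lb.g g9 (@Lb.g g11 (@Lb.r r1410 (@Lb.r r579 (@Lb.r r1129 (@Lb.r r36 (@Lb.d (nat_lit 548) (nat_lit 1) (nat_lit 17) (@Lb.t (@Lb.fp (nat_lit 9) t40)))))))))))
noncomputable def l27012 : Lb := (@Lb.d (nat_lit 130) (nat_lit 9) (nat_lit 1) (@Lb.g g8 (@Lb.g g9 (@Lb.g g10 (@Lb.r r2691 (@Lb.r r2217 (@Lb.r r2666 (@Lb.r r104 (@Lb.d (nat_lit 676) (nat_lit 10) (nat_lit 329) (@Lb.t (@Lb.fp (nat_lit 9) t98)))))))))))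
noncomputable def l27013 : Lb := (@Lb.d (nat_lit 682) (nat_lit 276) (nat_lit 617) (@Lb.r r1381 (@Lb.r r1691 (@Lb.r r1624 (@Lb.r r1190 (@Lb.g g6 (@Lb.g g5 (@Lb.d (nat_lit 4) (nat_lit 21) (nat_lit 2) (@Lb.fm (nat_lit 3) t71)))))))))
noncomputable def l27014 : Lb := (@Lb.d (nat_lit 326) (nat_lit 422) (nat_lit 102) (@Lb.r r410 (@Lb.r r148 (@Lb.r r1365 (@Lb.r r1707 (@Lb.g g7 (@Lb.g g6 (@Lb.g g5 (@Lb.d (nat_lit 16) (nat_lit 5) (nat_lit 2) (@Lb.t (@Lb.fp (nat_lit 9) t119)))))))))))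
noncomputable def l27015 : Lb := (@Lb.g g4 (@Lb.r r360 (@Lb.r r2345 (@Lb.r r1367 (@Lb.r r2178 (@Lb.r r2596 (@Lb.t (@Lb.fp (nat_lit 3) t296))))))))
noncomputable def l27016 : Lb := (@Lb.d (nat_lit 10) (nat_lit 514) (nat_lit 0) (@Lb.g g8 (@Lb.g g9 (@Lb.r r24 (@Lb.r r2069 (@Lb.r r36 (@Lb.d (nat_lit 10) (nat_lit 4) (nat_lit 1) (@Lb.fp (nat_lit 3) t45))))))))
noncomputable def l27017 : Lb := (@Lb.d (nat_lit 613) (nat_lit 153) (nat_lit 361) (@Lb.r r2404 (@Lb.r r1563 (@Lb.r r2389 (@Lb.g g6 (@Lb.g g5 (@Lb.g g4 (@Lb.d (nat_lit 24) (nat_lit 0) (nat_lit 1) (@Lb.r r391 (@Lb.t (@Lb.fm (nat_lit 9) t74)))))))))))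
noncomputable def l27018 : Lb := (@Lb.d (nat_lit 2) (nat_lit 256) (nat_lit 128) (@Lb.g g8 (@Lb.g g11 (@Lb.r r1094 (@Lb.r r2328 (@Lb.r r1447 (@Lb.r r1425 (@Lb.d (nat_lit 10) (nat_lit 130) (nat_lit 594) (@Lb.fp (nat_lit 3) t5031)))))))))
noncomputable def l27019 : Lb := (@Lb.r r580 (@Lb.r r2327 (@Lb.r r402 (@Lb.r r609 (@Lb.r r1156 (@Lb.d (nat_lit 0) (nat_lit 69) (nat_lit 69) (@Lb.fp (nat_lit 1) t591)))))))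
noncomputable def l27020 : Lb := (@Lb.d (nat_lit 6) (nat_lit 521) (nat_lit 130) (@Lb.g g8 (@Lb.g g9 (@Lb.g g10 (@Lb.g g11 (@Lb.r r387 (@Lb.r r20 (@Lb.r r153 (@Lb.r r402 (@Lb.d (nat_lit 145) (nat_lit 21) (nat_lit 153) (@Lb.fm (nat_lit 9) t573)))))))))))
noncomputable def l27021 : Lb := (@Lb.r r1124 (@Lb.d (nat_lit 0) (nat_lit 64) (nat_lit 130) (@Lb.g g9 (@Lb.g g10 (@Lb.g g11 (@Lb.r r2467 (@Lb.r r2146 (@Lb.d (nat_lit 0) (nat_lit 73) (nat_lit 169) (@Lb.t (@Lb.fm (nat_lit 9) t213))))))))))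
noncomputable def l27022 : Lb := (@Lb.d (nat_lit 145) (nat_lit 1) (nat_lit 33) (@Lb.r r260 (@Lb.r r1170 (@Lb.r r2459 (@Lb.r r404 (@Lb.g g7 (@Lb.g g5 (@Lb.g g4 (@Lb.d (nat_lit 65) (nat_lit 134) (nat_lit 64) (@Lb.t (@Lb.fm (nat_lit 9) t5032)))))))))))
noncomputable def l27023 : Lb := (@Lb.r r70 (@Lb.d (nat_lit 137) (nat_lit 512) (nat_lit 256) (@Lb.g g8 (@Lb.g g7 (@Lb.r r1173 (@Lb.r r2450 (@Lb.r r388 (@Lb.d (nat_lit 98) (nat_lit 0) (nat_lit 297) (@Lb.fm (nat_lit 3) t2792)))))))))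
noncomputable def l27024 : Lb := (@Lb.r r70 (@Lb.d (nat_lit 129) (nat_lit 2) (nat_lit 256) (@Lb.g g8 (@Lb.g g9 (@Lb.g g7 (@Lb.r r2152 (@Lb.r r2454 (@Lb.r r25 (@Lb.d (nat_lit 522) (nat_lit 69) (nat_lit 538) (@Lb.t (@Lb.fp (nat_lit 9) t5033)))))))))))
noncomputable def l27025 : Lb := (@Lb.g g7 (@Lb.r r2579 (@Lb.r r2341 (@Lb.r r2136 (@Lb.r r1158 (@Lb.t (@Lb.fm (nat_lit 3) t296)))))))
noncomputable def l27026 : Lb := (@Lb.d (nat_lit 41) (nat_lit 256) (nat_lit 72) (@Lb.g g8 (@Lb.g g10 (@Lb.g g11 (@Lb.r r323 (@Lb.r r1382 (@Lb.r r1701 (@Lb.r r1364 (@Lb.d (nat_lit 342) (nat_lit 81) (nat_lit 68) (@Lb.t (@Lb.fp (nat_lit 9) t2792)))))))))))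
noncomputable def l27027 : Lb := (@Lb.d (nat_lit 10) (nat_lit 0) (nat_lit 73) (@Lb.g g8 (@Lb.g g10 (@Lb.g g11 (@Lb.r r2691 (@Lb.r r1109 (@Lb.r r2658 (@Lb.r r2436 (@Lb.d (nat_lit 610) (nat_lit 160) (nat_lit 593) (@Lb.t (@Lb.fp (nat_lit 9) t311)))))))))))
noncomputable def l27028 : Lb := (@Lb.r r338 (@Lb.d (nat_lit 8) (nat_lit 32) (nat_lit 128) (@Lb.g g9 (@Lb.g g11 (@Lb.r r2136 (@Lb.r r2182 (@Lb.r r81 (@Lb.d (nat_lit 610) (nat_lit 6) (nat_lit 546) (@Lb.fm (nat_lit 3) t707)))))))))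
noncomputable def l27029 : Lb := (@Lb.d (nat_lit 134) (nat_lit 554) (nat_lit 1) (@Lb.g g8 (@Lb.g g9 (@Lb.g g10 (@Lb.r r343 (@Lb.r r162 (@Lb.r r2712 (@Lb.r r165 (@Lb.d (nat_lit 37) (nat_lit 146) (nat_lit 425) (@Lb.t (@Lb.fp (nat_lit 9) t428)))))))))))
noncomputable def l27030 : Lb := (@Lb.d (nat_lit 2) (nat_lit 514) (nat_lit 130) (@Lb.g g8 (@Lb.g g9 (@Lb.g g10 (@Lb.g g11 (@Lb.r r427 (@Lb.r r388 (@Lb.r r70 (@Lb.r r153 (@Lb.r r132 (@Lb.d (nat_lit 4) (nat_lit 72) (nat_lit 153) (@Lb.fp (nat_lit 9) t1022))))))))))))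
noncomputable def l27031 : Lb := (@Lb.d (nat_lit 6) (nat_lit 402) (nat_lit 389) (@Lb.r r21 (@Lb.r r579 (@Lb.r r1366 (@Lb.g g7 (@Lb.g g6 (@Lb.g g5 (@Lb.g g4 (@Lb.d (nat_lit 1) (nat_lit 1) (nat_lit 1) (@Lb.fm (nat_lit 9) t40))))))))))
noncomputable def l27032 : Lb := (@Lb.d (nat_lit 528) (nat_lit 545) (nat_lit 0) (@Lb.g g8 (@Lb.g g9 (@Lb.r r339 (@Lb.r r2178 (@Lb.r r609 (@Lb.d (nat_lit 530) (nat_lit 21) (nat_lit 581) (@Lb.fm (nat_lit 3) t229))))))))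
noncomputable def l27033 : Lb := (@Lb.d (nat_lit 528) (nat_lit 257) (nat_lit 1) (@Lb.g g8 (@Lb.g g9 (@Lb.g g10 (@Lb.r r2731 (@Lb.r r665 (@Lb.r r2202 (@Lb.d (nat_lit 537) (nat_lit 9) (nat_lit 356) (@Lb.t (@Lb.fm (nat_lit 9) t602))))))))))
noncomputable def l27034 : Lb := (@Lb.d (nat_lit 2) (nat_lit 2) (nat_lit 2) (@Lb.g g8 (@Lb.g g9 (@Lb.g g10 (@Lb.g g7 (@Lb.r r386 (@Lb.r r2664 (@Lb.r r25 (@Lb.d (nat_lit 512) (nat_lit 170) (nat_lit 133) (@Lb.fm (nat_lit 9) t1403))))))))))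
noncomputable def l27035 : Lb := (@Lb.d (nat_lit 0) (nat_lit 520) (nat_lit 128) (@Lb.g g10 (@Lb.g g11 (@Lb.r r403 (@Lb.r r601 (@Lb.r r1382 (@Lb.r r24 (@Lb.d (nat_lit 297) (nat_lit 128) (nat_lit 278) (@Lb.fp (nat_lit 3) t1639)))))))))
noncomputable def l27036 : Lb := (@Lb.d (nat_lit 8) (nat_lit 514) (nat_lit 0) (@Lb.g g9 (@Lb.r r402 (@Lb.r r2631 (@Lb.d (nat_lit 521) (nat_lit 80) (nat_lit 0) (@Lb.t (@Lb.fp (nat_lit 3) t1387)))))))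
noncomputable def l27037 : Lb := (@Lb.d (nat_lit 530) (nat_lit 261) (nat_lit 68) (@Lb.r r1094 (@Lb.r r2440 (@Lb.r r535 (@Lb.r r1361 (@Lb.g g6 (@Lb.g g5 (@Lb.g g4 (@Lb.d (nat_lit 2) (nat_lit 1) (nat_lit 1) (@Lb.t (@Lb.fp (nat_lit 9) t150)))))))))))
noncomputable def l27038 : Lb := (@Lb.d (nat_lit 0) (nat_lit 512) (nat_lit 2) (@Lb.g g9 (@Lb.g g10 (@Lb.r r2435 (@Lb.r r98 (@Lb.d (nat_lit 0) (nat_lit 21) (nat_lit 537) (@Lb.fm (nat_lit 3) t387)))))))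
noncomputable def l27039 : Lb := (@Lb.g g9 (@Lb.g g6 (@Lb.r r97 (@Lb.r r1106 (@Lb.r r145 (@Lb.d (nat_lit 0) (nat_lit 256) (nat_lit 128) (@Lb.fm (nat_lit 3) t246)))))))
noncomputable def l27040 : Lb := (@Lb.r r82 (@Lb.d (nat_lit 0) (nat_lit 2) (nat_lit 0) (@Lb.g g9 (@Lb.g g7 (@Lb.r r386 (@Lb.r r289 (@Lb.d (nat_lit 0) (nat_lit 85) (nat_lit 641) (@Lb.fp (nat_lit 3) t5034))))))))
noncomputable def l27041 : Lb := (@Lb.d (nat_lit 129) (nat_lit 517) (nat_lit 612) (@Lb.r r2632 (@Lb.r r81 (@Lb.r r2635 (@Lb.g g7 (@Lb.g g10 (@Lb.g g4 (@Lb.d (nat_lit 1) (nat_lit 0) (nat_lit 81) (@Lb.r r25 (@Lb.t (@Lb.fm (nat_lit 9) t5035)))))))))))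
noncomputable def l27042 : Lb := (@Lb.d (nat_lit 298) (nat_lit 266) (nat_lit 592) (@Lb.r r150 (@Lb.r r72 (@Lb.r r293 (@Lb.r r2395 (@Lb.g g7 (@Lb.g g6 (@Lb.g g5 (@Lb.d (nat_lit 16) (nat_lit 1) (nat_lit 65) (@Lb.t (@Lb.fm (nat_lit 9) t4356)))))))))))
noncomputable def l27043 : Lb := (@Lb.r r82 (@Lb.d (nat_lit 129) (nat_lit 528) (nat_lit 0) (@Lb.g g8 (@Lb.g g9 (@Lb.g g11 (@Lb.r r555 (@Lb.r r618 (@Lb.r r341 (@Lb.r r516 (@Lb.d (nat_lit 145) (nat_lit 4) (nat_lit 129) (@Lb.t (@Lb.fp (nat_lit 9) t5036))))))))))))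
noncomputable def l27044 : Lb := (@Lb.d (nat_lit 129) (nat_lit 5) (nat_lit 612) (@Lb.r r2632 (@Lb.r r81 (@Lb.r r2635 (@Lb.g g7 (@Lb.g g10 (@Lb.g g4 (@Lb.d (nat_lit 0) (nat_lit 0) (nat_lit 81) (@Lb.r r25 (@Lb.t (@Lb.fm (nat_lit 9) t5035)))))))))))
noncomputable def l27045 : Lb := (@Lb.d (nat_lit 2) (nat_lit 0) (nat_lit 0) (@Lb.g g8 (@Lb.r r1162 (@Lb.r r1188 (@Lb.r r405 (@Lb.r r1635 (@Lb.d (nat_lit 1) (nat_lit 0) (nat_lit 154) (@Lb.t (@Lb.fp (nat_lit 3) t2981)))))))))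
noncomputable def l27046 : Lb := (@Lb.d (nat_lit 1) (nat_lit 0) (nat_lit 128) (@Lb.g g8 (@Lb.g g11 (@Lb.r r2375 (@Lb.r r2178 (@Lb.r r1561 (@Lb.r r2628 (@Lb.d (nat_lit 422) (nat_lit 1) (nat_lit 426) (@Lb.fp (nat_lit 3) t5037)))))))))
noncomputable def l27047 : Lb := (@Lb.d (nat_lit 1) (nat_lit 516) (nat_lit 146) (@Lb.g g8 (@Lb.g g10 (@Lb.g g11 (@Lb.r r1415 (@Lb.r r1561 (@Lb.r r2628 (@Lb.d (nat_lit 150) (nat_lit 69) (nat_lit 425) (@Lb.t (@Lb.fm (nat_lit 9) t1215))))))))))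
noncomputable def l27048 : Lb := (@Lb.d (nat_lit 0) (nat_lit 518) (nat_lit 128) (@Lb.g g9 (@Lb.g g10 (@Lb.g g11 (@Lb.r r2435 (@Lb.r r1450 (@Lb.r r153 (@Lb.r r8 (@Lb.d (nat_lit 596) (nat_lit 132) (nat_lit 257) (@Lb.t (@Lb.fm (nat_lit 9) t5038)))))))))))
noncomputable def l27049 : Lb := (@Lb.d (nat_lit 0) (nat_lit 260) (nat_lit 10) (@Lb.g g9 (@Lb.g g10 (@Lb.g g7 (@Lb.r r424 (@Lb.r r106 (@Lb.r r25 (@Lb.d (nat_lit 96) (nat_lit 10) (nat_lit 8) (@Lb.t (@Lb.fm (nat_lit 9) t4257))))))))))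
noncomputable def l27050 : Lb := (@Lb.r r82 (@Lb.d (nat_lit 169) (nat_lit 416) (nat_lit 0) (@Lb.g g8 (@Lb.g g5 (@Lb.r r2471 (@Lb.r r1382 (@Lb.r r2692 (@Lb.d (nat_lit 676) (nat_lit 137) (nat_lit 421) (@Lb.fp (nat_lit 3) t5039)))))))))
noncomputable def l27051 : Lb := (@Lb.d (nat_lit 9) (nat_lit 513) (nat_lit 130) (@Lb.g g8 (@Lb.g g9 (@Lb.g g10 (@Lb.g g11 (@Lb.r r2439 (@Lb.r r2666 (@Lb.r r664 (@Lb.r r1109 (@Lb.d (nat_lit 42) (nat_lit 97) (nat_lit 673) (@Lb.fm (nat_lit 9) t5040)))))))))))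
noncomputable def l27052 : Lb := (@Lb.d (nat_lit 32) (nat_lit 514) (nat_lit 73) (@Lb.g g9 (@Lb.g g10 (@Lb.g g11 (@Lb.r r2695 (@Lb.r r297 (@Lb.r r1352 (@Lb.r r2662 (@Lb.d (nat_lit 128) (nat_lit 88) (nat_lit 340) (@Lb.t (@Lb.fp (nat_lit 9) t2154)))))))))))
noncomputable def l27053 : Lb := (@Lb.r r82 (@Lb.r r275 (@Lb.d (nat_lit 0) (nat_lit 137) (nat_lit 0) (@Lb.g g5 (@Lb.r r291 (@Lb.r r98 (@Lb.d (nat_lit 0) (nat_lit 64) (nat_lit 66) (@Lb.t (@Lb.fm (nat_lit 3) t5041)))))))))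
noncomputable def l27054 : Lb := (@Lb.r r82 (@Lb.r r275 (@Lb.d (nat_lit 2) (nat_lit 649) (nat_lit 0) (@Lb.g g8 (@Lb.g g5 (@Lb.r r291 (@Lb.r r98 (@Lb.r r24 (@Lb.d (nat_lit 9) (nat_lit 69) (nat_lit 64) (@Lb.fm (nat_lit 3) t5042))))))))))
noncomputable def l27055 : Lb := (@Lb.d (nat_lit 2) (nat_lit 521) (nat_lit 1) (@Lb.g g8 (@Lb.g g9 (@Lb.g g10 (@Lb.g g11 (@Lb.r r1371 (@Lb.r r2466 (@Lb.r r97 (@Lb.r r24 (@Lb.d (nat_lit 536) (nat_lit 166) (nat_lit 328) (@Lb.fm (nat_lit 9) t5043)))))))))))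
noncomputable def l27056 : Lb := (@Lb.d (nat_lit 24) (nat_lit 100) (nat_lit 593) (@Lb.r r2393 (@Lb.r r2712 (@Lb.r r330 (@Lb.g g7 (@Lb.g g5 (@Lb.g g4 (@Lb.d (nat_lit 17) (nat_lit 4) (nat_lit 648) (@Lb.r r578 (@Lb.t (@Lb.fm (nat_lit 9) t5044)))))))))))
noncomputable def l27057 : Lb := (@Lb.d (nat_lit 170) (nat_lit 41) (nat_lit 360) (@Lb.r r680 (@Lb.r r427 (@Lb.r r345 (@Lb.g g10 (@Lb.g g4 (@Lb.d (nat_lit 69) (nat_lit 8) (nat_lit 38) (@Lb.r r145 (@Lb.fm (nat_lit 3) t4637)))))))))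
noncomputable def l27058 : Lb := (@Lb.d (nat_lit 168) (nat_lit 517) (nat_lit 357) (@Lb.r r104 (@Lb.r r281 (@Lb.r r355 (@Lb.g g10 (@Lb.g g5 (@Lb.g g4 (@Lb.d (nat_lit 65) (nat_lit 24) (nat_lit 37) (@Lb.t (@Lb.fp (nat_lit 9) t5045))))))))))
noncomputable def l27059 : Lb := (@Lb.d (nat_lit 170) (nat_lit 553) (nat_lit 417) (@Lb.r r680 (@Lb.r r427 (@Lb.r r345 (@Lb.g g10 (@Lb.g g4 (@Lb.d (nat_lit 69) (nat_lit 8) (nat_lit 38) (@Lb.r r145 (@Lb.fm (nat_lit 3) t4637)))))))))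
noncomputable def l27060 : Lb := (@Lb.d (nat_lit 0) (nat_lit 256) (nat_lit 170) (@Lb.r r1635 (@Lb.r r601 (@Lb.r r2132 (@Lb.r r1162 (@Lb.g g5 (@Lb.g g4 (@Lb.d (nat_lit 1) (nat_lit 0) (nat_lit 0) (@Lb.fm (nat_lit 3) t2842)))))))))
noncomputable def l27061 : Lb := (@Lb.d (nat_lit 128) (nat_lit 516) (nat_lit 74) (@Lb.g g8 (@Lb.g g9 (@Lb.g g10 (@Lb.g g11 (@Lb.r r683 (@Lb.r r2410 (@Lb.r r537 (@Lb.r r516 (@Lb.d (nat_lit 130) (nat_lit 90) (nat_lit 21) (@Lb.fm (nat_lit 9) t995)))))))))))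
noncomputable def l27062 : Lb := (@Lb.d (nat_lit 1) (nat_lit 544) (nat_lit 128) (@Lb.g g8 (@Lb.g g11 (@Lb.r r1361 (@Lb.r r299 (@Lb.r r2178 (@Lb.r r1288 (@Lb.d (nat_lit 584) (nat_lit 0) (nat_lit 578) (@Lb.fm (nat_lit 3) t307)))))))))
noncomputable def l27063 : Lb := (@Lb.d (nat_lit 32) (nat_lit 256) (nat_lit 128) (@Lb.g g10 (@Lb.g g11 (@Lb.r r328 (@Lb.r r647 (@Lb.r r2401 (@Lb.r r662 (@Lb.d (nat_lit 36) (nat_lit 37) (nat_lit 677) (@Lb.fm (nat_lit 3) t939)))))))))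
noncomputable def l27064 : Lb := (@Lb.d (nat_lit 9) (nat_lit 518) (nat_lit 128) (@Lb.g g8 (@Lb.g g9 (@Lb.g g10 (@Lb.g g11 (@Lb.r r427 (@Lb.r r297 (@Lb.r r104 (@Lb.r r70 (@Lb.r r132 (@Lb.d (nat_lit 9) (nat_lit 154) (nat_lit 137) (@Lb.fp (nat_lit 9) t1436))))))))))))
noncomputable def l27065 : Lb := (@Lb.d (nat_lit 0) (nat_lit 544) (nat_lit 130) (@Lb.g g9 (@Lb.g g10 (@Lb.g g11 (@Lb.r r2387 (@Lb.r r1702 (@Lb.r r1636 (@Lb.r r1557 (@Lb.d (nat_lit 390) (nat_lit 82) (nat_lit 645) (@Lb.t (@Lb.fp (nat_lit 9) t629)))))))))))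
noncomputable def l27066 : Lb := (@Lb.d (nat_lit 2) (nat_lit 514) (nat_lit 130) (@Lb.g g8 (@Lb.g g9 (@Lb.g g10 (@Lb.g g11 (@Lb.r r427 (@Lb.r r388 (@Lb.r r70 (@Lb.r r153 (@Lb.r r132 (@Lb.d (nat_lit 9) (nat_lit 73) (nat_lit 89) (@Lb.fp (nat_lit 9) t3912))))))))))))
noncomputable def l27067 : Lb := (@Lb.d (nat_lit 18) (nat_lit 537) (nat_lit 596) (@Lb.r r1433 (@Lb.r r1430 (@Lb.r r2659 (@Lb.g g7 (@Lb.g g5 (@Lb.g g4 (@Lb.d (nat_lit 0) (nat_lit 18) (nat_lit 128) (@Lb.r r98 (@Lb.t (@Lb.fp (nat_lit 9) t3740)))))))))))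
noncomputable def l27068 : Lb := (@Lb.d (nat_lit 609) (nat_lit 389) (nat_lit 410) (@Lb.r r1384 (@Lb.r r297 (@Lb.r r418 (@Lb.g g11 (@Lb.g g5 (@Lb.g g4 (@Lb.d (nat_lit 17) (nat_lit 18) (nat_lit 264) (@Lb.r r578 (@Lb.t (@Lb.fp (nat_lit 9) t3307)))))))))))
noncomputable def l27069 : Lb := (@Lb.d (nat_lit 682) (nat_lit 276) (nat_lit 640) (@Lb.r r2729 (@Lb.r r1366 (@Lb.g g7 (@Lb.g g5 (@Lb.g g4 (@Lb.d (nat_lit 345) (nat_lit 34) (nat_lit 516) (@Lb.r r578 (@Lb.t (@Lb.fm (nat_lit 9) t4497))))))))))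
noncomputable def l27070 : Lb := (@Lb.d (nat_lit 32) (nat_lit 266) (nat_lit 1) (@Lb.g g9 (@Lb.g g10 (@Lb.g g11 (@Lb.r r2695 (@Lb.r r1352 (@Lb.r r2390 (@Lb.r r289 (@Lb.d (nat_lit 665) (nat_lit 73) (nat_lit 362) (@Lb.t (@Lb.fp (nat_lit 9) t98)))))))))))
noncomputable def l27071 : Lb := (@Lb.r r322 (@Lb.d (nat_lit 0) (nat_lit 290) (nat_lit 580) (@Lb.g g9 (@Lb.g g7 (@Lb.r r422 (@Lb.r r1112 (@Lb.r r2085 (@Lb.d (nat_lit 522) (nat_lit 66) (nat_lit 64) (@Lb.fm (nat_lit 3) t1159)))))))))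
noncomputable def l27072 : Lb := (@Lb.d (nat_lit 10) (nat_lit 0) (nat_lit 66) (@Lb.g g8 (@Lb.g g10 (@Lb.g g7 (@Lb.r r386 (@Lb.r r149 (@Lb.r r168 (@Lb.d (nat_lit 340) (nat_lit 6) (nat_lit 521) (@Lb.t (@Lb.fp (nat_lit 9) t1150))))))))))
noncomputable def l27073 : Lb := (@Lb.d (nat_lit 0) (nat_lit 416) (nat_lit 2) (@Lb.g g9 (@Lb.g g10 (@Lb.g g11 (@Lb.r r387 (@Lb.r r98 (@Lb.d (nat_lit 0) (nat_lit 84) (nat_lit 137) (@Lb.t (@Lb.fm (nat_lit 9) t719)))))))))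
noncomputable def l27074 : Lb := (@Lb.d (nat_lit 2) (nat_lit 2) (nat_lit 2) (@Lb.g g8 (@Lb.g g9 (@Lb.g g10 (@Lb.g g11 (@Lb.r r169 (@Lb.r r296 (@Lb.r r391 (@Lb.r r386 (@Lb.r r132 (@Lb.d (nat_lit 0) (nat_lit 10) (nat_lit 25) (@Lb.fm (nat_lit 9) t590))))))))))))
noncomputable def l27075 : Lb := (@Lb.d (nat_lit 134) (nat_lit 258) (nat_lit 4) (@Lb.g g8 (@Lb.g g9 (@Lb.g g10 (@Lb.g g11 (@Lb.r r1707 (@Lb.r r1610 (@Lb.r r552 (@Lb.r r2089 (@Lb.r r1060 (@Lb.d (nat_lit 98) (nat_lit 169) (nat_lit 401) (@Lb.fm (nat_lit 9) t175))))))))))))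
noncomputable def l27076 : Lb := (@Lb.r r323 (@Lb.d (nat_lit 2) (nat_lit 2) (nat_lit 0) (@Lb.g g8 (@Lb.g g9 (@Lb.g g10 (@Lb.r r1435 (@Lb.r r145 (@Lb.r r2646 (@Lb.r r36 (@Lb.d (nat_lit 166) (nat_lit 20) (nat_lit 393) (@Lb.t (@Lb.fm (nat_lit 9) t5046))))))))))))
noncomputable def l27077 : Lb := (@Lb.r r82 (@Lb.d (nat_lit 2) (nat_lit 514) (nat_lit 128) (@Lb.g g8 (@Lb.g g9 (@Lb.g g11 (@Lb.r r2723 (@Lb.r r578 (@Lb.r r2201 (@Lb.d (nat_lit 68) (nat_lit 161) (nat_lit 402) (@Lb.t (@Lb.fp (nat_lit 9) t4859)))))))))))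
noncomputable def l27078 : Lb := (@Lb.d (nat_lit 2) (nat_lit 264) (nat_lit 73) (@Lb.g g8 (@Lb.g g9 (@Lb.g g10 (@Lb.g g11 (@Lb.r r2723 (@Lb.r r2434 (@Lb.r r612 (@Lb.r r533 (@Lb.r r2084 (@Lb.d (nat_lit 40) (nat_lit 9) (nat_lit 276) (@Lb.fp (nat_lit 9) t3577))))))))))))
noncomputable def l27079 : Lb := (@Lb.d (nat_lit 2) (nat_lit 521) (nat_lit 136) (@Lb.g g8 (@Lb.g g9 (@Lb.g g11 (@Lb.r r1106 (@Lb.r r2457 (@Lb.r r1319 (@Lb.d (nat_lit 361) (nat_lit 2) (nat_lit 681) (@Lb.t (@Lb.fm (nat_lit 9) t2238))))))))))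
noncomputable def l27080 : Lb := (@Lb.r r21 (@Lb.d (nat_lit 130) (nat_lit 0) (nat_lit 132) (@Lb.g g8 (@Lb.g g10 (@Lb.g g11 (@Lb.r r651 (@Lb.r r357 (@Lb.r r154 (@Lb.r r132 (@Lb.d (nat_lit 89) (nat_lit 25) (nat_lit 8) (@Lb.t (@Lb.fp (nat_lit 9) t74))))))))))))
noncomputable def l27081 : Lb := (@Lb.r r21 (@Lb.d (nat_lit 34) (nat_lit 256) (nat_lit 72) (@Lb.g g8 (@Lb.g g10 (@Lb.g g11 (@Lb.r r651 (@Lb.r r1556 (@Lb.r r153 (@Lb.r r602 (@Lb.d (nat_lit 393) (nat_lit 101) (nat_lit 280) (@Lb.t (@Lb.fp (nat_lit 9) t428))))))))))))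
noncomputable def l27082 : Lb := (@Lb.d (nat_lit 2) (nat_lit 290) (nat_lit 132) (@Lb.g g8 (@Lb.g g9 (@Lb.g g10 (@Lb.g g11 (@Lb.r r682 (@Lb.r r676 (@Lb.r r551 (@Lb.r r533 (@Lb.r r36 (@Lb.d (nat_lit 137) (nat_lit 1) (nat_lit 5) (@Lb.fp (nat_lit 9) t74))))))))))))
noncomputable def l27083 : Lb := (@Lb.d (nat_lit 8) (nat_lit 521) (nat_lit 0) (@Lb.g g9 (@Lb.d (nat_lit 282) (nat_lit 9) (nat_lit 34) (@Lb.t (@Lb.fp (nat_lit 3) t743)))))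
noncomputable def l27084 : Lb := (@Lb.d (nat_lit 10) (nat_lit 388) (nat_lit 17) (@Lb.r r2129 (@Lb.r r1190 (@Lb.r r2392 (@Lb.r r1703 (@Lb.g g7 (@Lb.g g6 (@Lb.g g5 (@Lb.d (nat_lit 0) (nat_lit 0) (nat_lit 1) (@Lb.t (@Lb.fm (nat_lit 9) t119)))))))))))
noncomputable def l27085 : Lb := (@Lb.d (nat_lit 0) (nat_lit 256) (nat_lit 137) (@Lb.g g9 (@Lb.g g10 (@Lb.g g11 (@Lb.r r2658 (@Lb.r r579 (@Lb.d (nat_lit 0) (nat_lit 97) (nat_lit 586) (@Lb.t (@Lb.fp (nat_lit 9) t51)))))))))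
noncomputable def l27086 : Lb := (@Lb.r r323 (@Lb.d (nat_lit 0) (nat_lit 522) (nat_lit 2) (@Lb.g g9 (@Lb.g g10 (@Lb.r r1681 (@Lb.r r146 (@Lb.d (nat_lit 0) (nat_lit 26) (nat_lit 537) (@Lb.fp (nat_lit 3) t70))))))))
noncomputable def l27087 : Lb := (@Lb.d (nat_lit 0) (nat_lit 36) (nat_lit 66) (@Lb.g g9 (@Lb.g g10 (@Lb.g g11 (@Lb.r r2723 (@Lb.r r2209 (@Lb.r r418 (@Lb.d (nat_lit 0) (nat_lit 148) (nat_lit 106) (@Lb.t (@Lb.fp (nat_lit 9) t5047))))))))))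
noncomputable def l27088 : Lb := (@Lb.d (nat_lit 1) (nat_lit 258) (nat_lit 64) (@Lb.g g8 (@Lb.g g9 (@Lb.g g11 (@Lb.r r343 (@Lb.r r2178 (@Lb.r r2649 (@Lb.r r2628 (@Lb.d (nat_lit 666) (nat_lit 68) (nat_lit 426) (@Lb.t (@Lb.fp (nat_lit 9) t5048)))))))))))
noncomputable def l27089 : Lb := (@Lb.r r323 (@Lb.d (nat_lit 8) (nat_lit 265) (nat_lit 1) (@Lb.g g9 (@Lb.g g10 (@Lb.r r2648 (@Lb.r r2395 (@Lb.r r610 (@Lb.r r1637 (@Lb.d (nat_lit 149) (nat_lit 21) (nat_lit 512) (@Lb.fm (nat_lit 3) t5049))))))))))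
noncomputable def l27090 : Lb := (@Lb.d (nat_lit 0) (nat_lit 161) (nat_lit 578) (@Lb.r r1426 (@Lb.g g7 (@Lb.g g5 (@Lb.d (nat_lit 0) (nat_lit 68) (nat_lit 576) (@Lb.r r578 (@Lb.fp (nat_lit 3) t5047)))))))
noncomputable def l27091 : Lb := (@Lb.d (nat_lit 2) (nat_lit 2) (nat_lit 73) (@Lb.g g8 (@Lb.g g9 (@Lb.g g10 (@Lb.g g11 (@Lb.r r1699 (@Lb.r r1176 (@Lb.r r1626 (@Lb.r r25 (@Lb.d (nat_lit 529) (nat_lit 170) (nat_lit 166) (@Lb.fp (nat_lit 9) t5050)))))))))))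
noncomputable def l27092 : Lb := (@Lb.d (nat_lit 2) (nat_lit 290) (nat_lit 66) (@Lb.g g8 (@Lb.g g9 (@Lb.g g10 (@Lb.g g11 (@Lb.r r1194 (@Lb.r r424 (@Lb.r r279 (@Lb.r r1065 (@Lb.r r2084 (@Lb.d (nat_lit 265) (nat_lit 98) (nat_lit 10) (@Lb.fm (nat_lit 9) t1758))))))))))))
noncomputable def l27093 : Lb := (@Lb.r r2403 (@Lb.r r101 (@Lb.r r24 (@Lb.d (nat_lit 322) (nat_lit 256) (nat_lit 528) (@Lb.fp (nat_lit 1) t314)))))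
noncomputable def l27094 : Lb := (@Lb.d (nat_lit 2) (nat_lit 514) (nat_lit 73) (@Lb.g g8 (@Lb.g g9 (@Lb.g g10 (@Lb.g g11 (@Lb.r r1699 (@Lb.r r1176 (@Lb.r r1626 (@Lb.r r25 (@Lb.d (nat_lit 529) (nat_lit 160) (nat_lit 164) (@Lb.fp (nat_lit 9) t5050)))))))))))
noncomputable def l27095 : Lb := (@Lb.d (nat_lit 649) (nat_lit 612) (nat_lit 22) (@Lb.r r20 (@Lb.r r1633 (@Lb.r r551 (@Lb.g g6 (@Lb.g g5 (@Lb.d (nat_lit 0) (nat_lit 0) (nat_lit 41) (@Lb.fm (nat_lit 3) t5051))))))))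
noncomputable def l27096 : Lb := (@Lb.d (nat_lit 402) (nat_lit 517) (nat_lit 20) (@Lb.r r2374 (@Lb.r r1684 (@Lb.r r2393 (@Lb.r r2723 (@Lb.g g6 (@Lb.g g5 (@Lb.g g4 (@Lb.d (nat_lit 1) (nat_lit 8) (nat_lit 0) (@Lb.t (@Lb.fm (nat_lit 9) t1641)))))))))))
noncomputable def l27097 : Lb := (@Lb.d (nat_lit 32) (nat_lit 0) (nat_lit 2) (@Lb.g g10 (@Lb.r r289 (@Lb.r r535 (@Lb.r r72 (@Lb.r r390 (@Lb.d (nat_lit 74) (nat_lit 2) (nat_lit 138) (@Lb.t (@Lb.fp (nat_lit 3) t87)))))))))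
noncomputable def l27098 : Lb := (@Lb.g g10 (@Lb.g g7 (@Lb.r r402 (@Lb.r r101 (@Lb.r r24 (@Lb.d (nat_lit 262) (nat_lit 320) (nat_lit 512) (@Lb.fm (nat_lit 3) t1863)))))))
noncomputable def l27099 : Lb := (@Lb.r r82 (@Lb.d (nat_lit 2) (nat_lit 34) (nat_lit 64) (@Lb.g g8 (@Lb.g g9 (@Lb.g g11 (@Lb.r r537 (@Lb.r r531 (@Lb.r r98 (@Lb.d (nat_lit 134) (nat_lit 18) (nat_lit 69) (@Lb.t (@Lb.fp (nat_lit 9) t238)))))))))))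
noncomputable def l27100 : Lb := (@Lb.d (nat_lit 2) (nat_lit 256) (nat_lit 0) (@Lb.g g8 (@Lb.g g7 (@Lb.fp (nat_lit 3) t2))))
noncomputable def l27101 : Lb := (@Lb.d (nat_lit 2) (nat_lit 38) (nat_lit 128) (@Lb.g g8 (@Lb.g g9 (@Lb.g g10 (@Lb.g g11 (@Lb.r r2729 (@Lb.r r2347 (@Lb.r r2404 (@Lb.r r1610 (@Lb.d (nat_lit 337) (nat_lit 0) (nat_lit 409) (@Lb.fm (nat_lit 9) t580)))))))))))
noncomputable def l27102 : Lb := (@Lb.d (nat_lit 8) (nat_lit 522) (nat_lit 0) (@Lb.g g5 (@Lb.r r106 (@Lb.r r612 (@Lb.r r679 (@Lb.r r657 (@Lb.d (nat_lit 0) (nat_lit 22) (nat_lit 73) (@Lb.t (@Lb.fp (nat_lit 3) t2)))))))))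
noncomputable def l27103 : Lb := (@Lb.r r323 (@Lb.d (nat_lit 32) (nat_lit 544) (nat_lit 2) (@Lb.g g9 (@Lb.g g10 (@Lb.r r283 (@Lb.r r280 (@Lb.r r613 (@Lb.r r402 (@Lb.d (nat_lit 34) (nat_lit 25) (nat_lit 137) (@Lb.fp (nat_lit 3) t2))))))))))
noncomputable def l27104 : Lb := (@Lb.g g9 (@Lb.r r154 (@Lb.r r660 (@Lb.r r407 (@Lb.r r609 (@Lb.d (nat_lit 0) (nat_lit 576) (nat_lit 384) (@Lb.t (@Lb.fp (nat_lit 3) t334))))))))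
noncomputable def l27105 : Lb := (@Lb.d (nat_lit 6) (nat_lit 514) (nat_lit 128) (@Lb.r r289 (@Lb.r r279 (@Lb.r r584 (@Lb.r r326 (@Lb.g g7 (@Lb.g g6 (@Lb.d (nat_lit 0) (nat_lit 0) (nat_lit 129) (@Lb.fm (nat_lit 3) t1085)))))))))
noncomputable def l27106 : Lb := (@Lb.d (nat_lit 136) (nat_lit 2) (nat_lit 130) (@Lb.g g9 (@Lb.g g10 (@Lb.g g11 (@Lb.r r618 (@Lb.r r24 (@Lb.r r405 (@Lb.r r611 (@Lb.d (nat_lit 137) (nat_lit 18) (nat_lit 144) (@Lb.t (@Lb.fm (nat_lit 9) t564)))))))))))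
noncomputable def l27107 : Lb := (@Lb.d (nat_lit 274) (nat_lit 273) (nat_lit 166) (@Lb.r r386 (@Lb.r r531 (@Lb.r r2389 (@Lb.g g7 (@Lb.g g6 (@Lb.g g5 (@Lb.g g4 (@Lb.d (nat_lit 1) (nat_lit 18) (nat_lit 65) (@Lb.fp (nat_lit 9) t1115))))))))))
noncomputable def l27108 : Lb := (@Lb.d (nat_lit 2) (nat_lit 0) (nat_lit 128) (@Lb.g g8 (@Lb.g g10 (@Lb.g g11 (@Lb.r r387 (@Lb.r r101 (@Lb.r r402 (@Lb.d (nat_lit 144) (nat_lit 21) (nat_lit 18) (@Lb.t (@Lb.fm (nat_lit 9) t590))))))))))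
noncomputable def l27109 : Lb := (@Lb.d (nat_lit 18) (nat_lit 266) (nat_lit 581) (@Lb.r r24 (@Lb.r r2587 (@Lb.r r1365 (@Lb.r r2722 (@Lb.g g7 (@Lb.g g6 (@Lb.g g5 (@Lb.d (nat_lit 0) (nat_lit 1) (nat_lit 8) (@Lb.t (@Lb.fm (nat_lit 9) t1444)))))))))))
noncomputable def l27110 : Lb := (@Lb.d (nat_lit 657) (nat_lit 10) (nat_lit 389) (@Lb.r r24 (@Lb.r r101 (@Lb.r r386 (@Lb.g g11 (@Lb.g g6 (@Lb.g g5 (@Lb.d (nat_lit 0) (nat_lit 0) (nat_lit 1) (@Lb.t (@Lb.fp (nat_lit 9) t2690))))))))))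
noncomputable def l27111 : Lb := (@Lb.d (nat_lit 641) (nat_lit 9) (nat_lit 386) (@Lb.r r24 (@Lb.g g9 (@Lb.d (nat_lit 8) (nat_lit 2) (nat_lit 0) (@Lb.t (@Lb.fm (nat_lit 3) t3733))))))
noncomputable def l27112 : Lb := (@Lb.d (nat_lit 4) (nat_lit 256) (nat_lit 130) (@Lb.g g8 (@Lb.g g9 (@Lb.g g10 (@Lb.g g11 (@Lb.r r1706 (@Lb.r r680 (@Lb.r r555 (@Lb.r r1553 (@Lb.r r2084 (@Lb.d (nat_lit 5) (nat_lit 96) (nat_lit 640) (@Lb.fm (nat_lit 9) t51))))))))))))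
noncomputable def l27113 : Lb := (@Lb.d (nat_lit 8) (nat_lit 36) (nat_lit 133) (@Lb.g g9 (@Lb.g g10 (@Lb.g g11 (@Lb.r r387 (@Lb.r r2136 (@Lb.r r2438 (@Lb.r r593 (@Lb.d (nat_lit 337) (nat_lit 38) (nat_lit 649) (@Lb.t (@Lb.fm (nat_lit 9) t1567)))))))))))
noncomputable def l27114 : Lb := (@Lb.d (nat_lit 8) (nat_lit 553) (nat_lit 134) (@Lb.g g9 (@Lb.g g10 (@Lb.g g11 (@Lb.r r579 (@Lb.r r1690 (@Lb.r r340 (@Lb.r r1689 (@Lb.d (nat_lit 265) (nat_lit 106) (nat_lit 146) (@Lb.t (@Lb.fm (nat_lit 9) t1567)))))))))))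
noncomputable def l27115 : Lb := (@Lb.d (nat_lit 128) (nat_lit 264) (nat_lit 64) (@Lb.g g10 (@Lb.g g11 (@Lb.r r264 (@Lb.r r519 (@Lb.r r81 (@Lb.r r162 (@Lb.d (nat_lit 129) (nat_lit 4) (nat_lit 4) (@Lb.fp (nat_lit 3) t2)))))))))
noncomputable def l27116 : Lb := (@Lb.g g4 (@Lb.g g5 (@Lb.r r1049 (@Lb.r r24 (@Lb.d (nat_lit 518) (nat_lit 1) (nat_lit 128) (@Lb.fp (nat_lit 3) t2))))))
noncomputable def l27117 : Lb := (@Lb.d (nat_lit 2) (nat_lit 1) (nat_lit 0) (@Lb.g g8 (@Lb.g g9 (@Lb.r r2089 (@Lb.r r36 (@Lb.d (nat_lit 258) (nat_lit 0) (nat_lit 128) (@Lb.fp (nat_lit 3) t2)))))))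
noncomputable def l27118 : Lb := (@Lb.d (nat_lit 2) (nat_lit 257) (nat_lit 0) (@Lb.g g8 (@Lb.g g9 (@Lb.r r2089 (@Lb.r r36 (@Lb.d (nat_lit 265) (nat_lit 2) (nat_lit 128) (@Lb.fp (nat_lit 3) t2)))))))
noncomputable def l27119 : Lb := (@Lb.r r82 (@Lb.d (nat_lit 129) (nat_lit 97) (nat_lit 0) (@Lb.g g8 (@Lb.g g5 (@Lb.r r423 (@Lb.r r98 (@Lb.r r584 (@Lb.d (nat_lit 73) (nat_lit 1) (nat_lit 85) (@Lb.fm (nat_lit 3) t7)))))))))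
noncomputable def l27120 : Lb := (@Lb.r r322 (@Lb.d (nat_lit 2) (nat_lit 258) (nat_lit 72) (@Lb.g g8 (@Lb.g g9 (@Lb.g g7 (@Lb.r r2409 (@Lb.r r2404 (@Lb.r r1610 (@Lb.d (nat_lit 528) (nat_lit 10) (nat_lit 132) (@Lb.t (@Lb.fm (nat_lit 9) t939)))))))))))
noncomputable def l27121 : Lb := (@Lb.d (nat_lit 330) (nat_lit 593) (nat_lit 644) (@Lb.r r1320 (@Lb.r r2583 (@Lb.r r1385 (@Lb.g g10 (@Lb.g g4 (@Lb.d (nat_lit 65) (nat_lit 8) (nat_lit 38) (@Lb.r r145 (@Lb.fm (nat_lit 3) t564)))))))))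
noncomputable def l27122 : Lb := (@Lb.d (nat_lit 146) (nat_lit 514) (nat_lit 5) (@Lb.g g8 (@Lb.g g9 (@Lb.g g10 (@Lb.g g11 (@Lb.r r683 (@Lb.r r1689 (@Lb.r r1178 (@Lb.r r132 (@Lb.d (nat_lit 41) (nat_lit 129) (nat_lit 649) (@Lb.fp (nat_lit 9) t264)))))))))))
noncomputable def l27123 : Lb := (@Lb.d (nat_lit 8) (nat_lit 289) (nat_lit 0) (@Lb.g g9 (@Lb.r r2587 (@Lb.r r1414 (@Lb.r r2580 (@Lb.r r105 (@Lb.d (nat_lit 36) (nat_lit 22) (nat_lit 257) (@Lb.t (@Lb.fm (nat_lit 3) t71)))))))))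
noncomputable def l27124 : Lb := (@Lb.d (nat_lit 137) (nat_lit 520) (nat_lit 0) (@Lb.g g8 (@Lb.g g10 (@Lb.r r81 (@Lb.r r2726 (@Lb.r r391 (@Lb.r r584 (@Lb.d (nat_lit 96) (nat_lit 80) (nat_lit 345) (@Lb.fm (nat_lit 3) t2)))))))))
noncomputable def l27125 : Lb := (@Lb.r r24 (@Lb.r r549 (@Lb.r r1319 (@Lb.r r2178 (@Lb.r r2564 (@Lb.d (nat_lit 265) (nat_lit 128) (nat_lit 0) (@Lb.fm (nat_lit 1) t1639)))))))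
noncomputable def l27126 : Lb := (@Lb.d (nat_lit 1) (nat_lit 512) (nat_lit 0) (@Lb.g g4 (@Lb.g g11 (@Lb.r r1547 (@Lb.d (nat_lit 642) (nat_lit 0) (nat_lit 384) (@Lb.fm (nat_lit 3) t1165))))))
noncomputable def l27127 : Lb := (@Lb.d (nat_lit 665) (nat_lit 297) (nat_lit 132) (@Lb.r r680 (@Lb.r r89 (@Lb.r r402 (@Lb.g g11 (@Lb.g g6 (@Lb.g g4 (@Lb.d (nat_lit 5) (nat_lit 16) (nat_lit 328) (@Lb.r r529 (@Lb.t (@Lb.fm (nat_lit 9) t1444)))))))))))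
noncomputable def l27128 : Lb := (@Lb.d (nat_lit 80) (nat_lit 261) (nat_lit 422) (@Lb.r r1044 (@Lb.r r601 (@Lb.r r532 (@Lb.r r2466 (@Lb.g g11 (@Lb.g g6 (@Lb.g g5 (@Lb.g g4 (@Lb.d (nat_lit 1) (nat_lit 6) (nat_lit 130) (@Lb.fp (nat_lit 9) t4039)))))))))))
noncomputable def l27129 : Lb := (@Lb.d (nat_lit 594) (nat_lit 517) (nat_lit 6) (@Lb.r r20 (@Lb.r r601 (@Lb.r r532 (@Lb.r r418 (@Lb.g g11 (@Lb.g g6 (@Lb.g g5 (@Lb.g g4 (@Lb.d (nat_lit 1) (nat_lit 18) (nat_lit 392) (@Lb.fp (nat_lit 9) t1444)))))))))))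
noncomputable def l27130 : Lb := (@Lb.d (nat_lit 544) (nat_lit 261) (nat_lit 72) (@Lb.r r2374 (@Lb.r r1684 (@Lb.r r361 (@Lb.g g11 (@Lb.g g5 (@Lb.g g4 (@Lb.d (nat_lit 1) (nat_lit 32) (nat_lit 324) (@Lb.r r578 (@Lb.t (@Lb.fp (nat_lit 9) t1446)))))))))))
noncomputable def l27131 : Lb := (@Lb.d (nat_lit 289) (nat_lit 517) (nat_lit 72) (@Lb.r r2374 (@Lb.r r1684 (@Lb.r r2409 (@Lb.g g11 (@Lb.g g5 (@Lb.g g4 (@Lb.d (nat_lit 1) (nat_lit 1) (nat_lit 132) (@Lb.r r578 (@Lb.t (@Lb.fp (nat_lit 9) t4417)))))))))))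
noncomputable def l27132 : Lb := (@Lb.d (nat_lit 640) (nat_lit 261) (nat_lit 552) (@Lb.r r1094 (@Lb.r r2196 (@Lb.r r297 (@Lb.g g11 (@Lb.g g5 (@Lb.g g4 (@Lb.d (nat_lit 1) (nat_lit 1) (nat_lit 384) (@Lb.r r578 (@Lb.t (@Lb.fp (nat_lit 9) t750)))))))))))
noncomputable def l27133 : Lb := (@Lb.d (nat_lit 129) (nat_lit 0) (nat_lit 2) (@Lb.g g8 (@Lb.g g9 (@Lb.g g10 (@Lb.r r2691 (@Lb.r r2218 (@Lb.r r289 (@Lb.r r152 (@Lb.d (nat_lit 664) (nat_lit 41) (nat_lit 322) (@Lb.t (@Lb.fm (nat_lit 9) t242)))))))))))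
noncomputable def l27134 : Lb := (@Lb.d (nat_lit 128) (nat_lit 0) (nat_lit 74) (@Lb.g g9 (@Lb.g g10 (@Lb.g g11 (@Lb.r r1186 (@Lb.r r2457 (@Lb.r r280 (@Lb.r r423 (@Lb.d (nat_lit 346) (nat_lit 164) (nat_lit 153) (@Lb.t (@Lb.fm (nat_lit 9) t284)))))))))))
noncomputable def l27135 : Lb := (@Lb.d (nat_lit 32) (nat_lit 520) (nat_lit 66) (@Lb.g g10 (@Lb.g g11 (@Lb.r r2711 (@Lb.r r1384 (@Lb.r r361 (@Lb.r r1622 (@Lb.d (nat_lit 5) (nat_lit 102) (nat_lit 514) (@Lb.fp (nat_lit 3) t1827)))))))))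
noncomputable def l27136 : Lb := (@Lb.d (nat_lit 2) (nat_lit 258) (nat_lit 73) (@Lb.g g8 (@Lb.g g9 (@Lb.g g10 (@Lb.g g11 (@Lb.r r427 (@Lb.r r677 (@Lb.r r340 (@Lb.r r170 (@Lb.d (nat_lit 21) (nat_lit 6) (nat_lit 153) (@Lb.fp (nat_lit 9) t221)))))))))))
noncomputable def l27137 : Lb := (@Lb.d (nat_lit 2) (nat_lit 32) (nat_lit 64) (@Lb.g g8 (@Lb.g g11 (@Lb.r r2344 (@Lb.r r345 (@Lb.r r2727 (@Lb.r r2178 (@Lb.d (nat_lit 421) (nat_lit 145) (nat_lit 154) (@Lb.fp (nat_lit 3) t772)))))))))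
noncomputable def l27138 : Lb := (@Lb.d (nat_lit 2) (nat_lit 9) (nat_lit 130) (@Lb.g g8 (@Lb.g g9 (@Lb.g g10 (@Lb.g g11 (@Lb.r r643 (@Lb.r r297 (@Lb.r r360 (@Lb.r r582 (@Lb.r r132 (@Lb.d (nat_lit 130) (nat_lit 5) (nat_lit 6) (@Lb.fm (nat_lit 9) t355))))))))))))
noncomputable def l27139 : Lb := (@Lb.d (nat_lit 32) (nat_lit 256) (nat_lit 2) (@Lb.g g6 (@Lb.r r24 (@Lb.r r2341 (@Lb.r r659 (@Lb.r r2706 (@Lb.d (nat_lit 0) (nat_lit 26) (nat_lit 341) (@Lb.t (@Lb.fm (nat_lit 3) t126)))))))))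
noncomputable def l27140 : Lb := (@Lb.r r386 (@Lb.r r1347 (@Lb.r r578 (@Lb.r r24 (@Lb.r r101 (@Lb.d (nat_lit 0) (nat_lit 645) (nat_lit 33) (@Lb.fm (nat_lit 1) t126)))))))
noncomputable def l27141 : Lb := (@Lb.d (nat_lit 32) (nat_lit 258) (nat_lit 130) (@Lb.g g9 (@Lb.g g10 (@Lb.g g11 (@Lb.r r1447 (@Lb.r r293 (@Lb.r r72 (@Lb.r r150 (@Lb.d (nat_lit 533) (nat_lit 5) (nat_lit 362) (@Lb.t (@Lb.fp (nat_lit 9) t88)))))))))))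
noncomputable def l27142 : Lb := (@Lb.r r273 (@Lb.r r322 (@Lb.d (nat_lit 129) (nat_lit 512) (nat_lit 0) (@Lb.g g8 (@Lb.g g7 (@Lb.r r361 (@Lb.r r146 (@Lb.r r264 (@Lb.d (nat_lit 642) (nat_lit 0) (nat_lit 549) (@Lb.fm (nat_lit 3) t1244))))))))))
noncomputable def l27143 : Lb := (@Lb.d (nat_lit 40) (nat_lit 358) (nat_lit 64) (@Lb.g g9 (@Lb.g g10 (@Lb.g g11 (@Lb.r r427 (@Lb.r r88 (@Lb.r r134 (@Lb.d (nat_lit 404) (nat_lit 20) (nat_lit 168) (@Lb.t (@Lb.fm (nat_lit 9) t5052))))))))))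
noncomputable def l27144 : Lb := (@Lb.d (nat_lit 4) (nat_lit 514) (nat_lit 66) (@Lb.g g9 (@Lb.g g10 (@Lb.g g11 (@Lb.r r1451 (@Lb.r r98 (@Lb.r r36 (@Lb.d (nat_lit 133) (nat_lit 154) (nat_lit 393) (@Lb.t (@Lb.fm (nat_lit 9) t1828))))))))))
noncomputable def l27145 : Lb := (@Lb.d (nat_lit 324) (nat_lit 533) (nat_lit 578) (@Lb.r r1560 (@Lb.r r85 (@Lb.r r1363 (@Lb.g g7 (@Lb.g g6 (@Lb.g g5 (@Lb.g g4 (@Lb.d (nat_lit 18) (nat_lit 1) (nat_lit 97) (@Lb.fm (nat_lit 9) t4836))))))))))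
noncomputable def l27146 : Lb := (@Lb.d (nat_lit 325) (nat_lit 277) (nat_lit 578) (@Lb.r r1560 (@Lb.r r85 (@Lb.r r1363 (@Lb.g g7 (@Lb.g g6 (@Lb.g g5 (@Lb.g g4 (@Lb.d (nat_lit 18) (nat_lit 1) (nat_lit 97) (@Lb.fm (nat_lit 9) t4836))))))))))
noncomputable def l27147 : Lb := (@Lb.d (nat_lit 8) (nat_lit 514) (nat_lit 64) (@Lb.g g9 (@Lb.g g11 (@Lb.r r1540 (@Lb.r r2407 (@Lb.r r2726 (@Lb.r r169 (@Lb.d (nat_lit 294) (nat_lit 4) (nat_lit 70) (@Lb.fm (nat_lit 3) t2734)))))))))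
noncomputable def l27148 : Lb := (@Lb.r r70 (@Lb.d (nat_lit 2) (nat_lit 514) (nat_lit 128) (@Lb.g g8 (@Lb.g g9 (@Lb.g g11 (@Lb.r r1627 (@Lb.r r1410 (@Lb.r r145 (@Lb.r r2132 (@Lb.d (nat_lit 69) (nat_lit 32) (nat_lit 357) (@Lb.t (@Lb.fm (nat_lit 9) t5053))))))))))))
noncomputable def l27149 : Lb := (@Lb.r r275 (@Lb.d (nat_lit 0) (nat_lit 518) (nat_lit 0) (@Lb.g g8 (@Lb.g g9 (@Lb.g g10 (@Lb.r r417 (@Lb.r r531 (@Lb.r r578 (@Lb.d (nat_lit 0) (nat_lit 10) (nat_lit 129) (@Lb.t (@Lb.fm (nat_lit 9) t50)))))))))))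
noncomputable def l27150 : Lb := (@Lb.d (nat_lit 0) (nat_lit 517) (nat_lit 128) (@Lb.g g8 (@Lb.g g5 (@Lb.g g10 (@Lb.g g11 (@Lb.r r659 (@Lb.r r578 (@Lb.d (nat_lit 0) (nat_lit 18) (nat_lit 138) (@Lb.fp (nat_lit 9) t50)))))))))
noncomputable def l27151 : Lb := (@Lb.d (nat_lit 1) (nat_lit 261) (nat_lit 74) (@Lb.g g8 (@Lb.g g5 (@Lb.g g10 (@Lb.g g11 (@Lb.r r659 (@Lb.r r578 (@Lb.d (nat_lit 2) (nat_lit 25) (nat_lit 137) (@Lb.fp (nat_lit 9) t50)))))))))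
noncomputable def l27152 : Lb := (@Lb.d (nat_lit 537) (nat_lit 168) (nat_lit 102) (@Lb.r r386 (@Lb.r r1371 (@Lb.g g7 (@Lb.g g5 (@Lb.g g8 (@Lb.d (nat_lit 322) (nat_lit 10) (nat_lit 128) (@Lb.r r98 (@Lb.t (@Lb.fp (nat_lit 9) t5054))))))))))
noncomputable def l27153 : Lb := (@Lb.r r21 (@Lb.d (nat_lit 2) (nat_lit 0) (nat_lit 73) (@Lb.g g8 (@Lb.g g10 (@Lb.g g11 (@Lb.r r1642 (@Lb.r r579 (@Lb.r r97 (@Lb.r r2072 (@Lb.d (nat_lit 402) (nat_lit 66) (nat_lit 325) (@Lb.t (@Lb.fp (nat_lit 9) t741))))))))))))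
noncomputable def l27154 : Lb := (@Lb.d (nat_lit 537) (nat_lit 264) (nat_lit 137) (@Lb.r r169 (@Lb.r r2726 (@Lb.r r1435 (@Lb.r r2308 (@Lb.g g7 (@Lb.g g5 (@Lb.d (nat_lit 4) (nat_lit 1) (nat_lit 128) (@Lb.fm (nat_lit 3) t5055)))))))))
noncomputable def l27155 : Lb := (@Lb.d (nat_lit 678) (nat_lit 608) (nat_lit 580) (@Lb.r r85 (@Lb.r r390 (@Lb.r r555 (@Lb.g g7 (@Lb.g g5 (@Lb.g g4 (@Lb.d (nat_lit 577) (nat_lit 2) (nat_lit 128) (@Lb.r r74 (@Lb.t (@Lb.fp (nat_lit 9) t5056)))))))))))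
noncomputable def l27156 : Lb := (@Lb.d (nat_lit 130) (nat_lit 514) (nat_lit 130) (@Lb.g g8 (@Lb.g g9 (@Lb.g g10 (@Lb.g g11 (@Lb.r r578 (@Lb.r r616 (@Lb.r r1643 (@Lb.r r549 (@Lb.r r2068 (@Lb.d (nat_lit 148) (nat_lit 9) (nat_lit 66) (@Lb.fm (nat_lit 9) t2350))))))))))))
noncomputable def l27157 : Lb := (@Lb.d (nat_lit 258) (nat_lit 321) (nat_lit 170) (@Lb.r r169 (@Lb.r r2726 (@Lb.r r1691 (@Lb.r r2564 (@Lb.g g5 (@Lb.d (nat_lit 4) (nat_lit 1) (nat_lit 0) (@Lb.t (@Lb.fp (nat_lit 3) t5057)))))))))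
noncomputable def l27158 : Lb := (@Lb.d (nat_lit 640) (nat_lit 128) (nat_lit 672) (@Lb.r r101 (@Lb.r r24 (@Lb.r r402 (@Lb.g g11 (@Lb.t (@Lb.fm (nat_lit 3) t5058)))))))
noncomputable def l27159 : Lb := (@Lb.r r331 (@Lb.d (nat_lit 32) (nat_lit 2) (nat_lit 2) (@Lb.g g8 (@Lb.g g9 (@Lb.g g10 (@Lb.r r1706 (@Lb.r r1411 (@Lb.r r537 (@Lb.r r516 (@Lb.d (nat_lit 137) (nat_lit 1) (nat_lit 384) (@Lb.t (@Lb.fp (nat_lit 9) t773))))))))))))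
noncomputable def l27160 : Lb := (@Lb.d (nat_lit 0) (nat_lit 258) (nat_lit 130) (@Lb.g g9 (@Lb.g g10 (@Lb.g g11 (@Lb.r r2691 (@Lb.r r2376 (@Lb.r r1158 (@Lb.r r97 (@Lb.d (nat_lit 81) (nat_lit 22) (nat_lit 165) (@Lb.t (@Lb.fm (nat_lit 9) t2597)))))))))))
noncomputable def l27161 : Lb := (@Lb.d (nat_lit 2) (nat_lit 2) (nat_lit 130) (@Lb.g g8 (@Lb.g g9 (@Lb.g g10 (@Lb.g g11 (@Lb.r r1130 (@Lb.r r356 (@Lb.r r411 (@Lb.r r533 (@Lb.r r2084 (@Lb.d (nat_lit 164) (nat_lit 74) (nat_lit 353) (@Lb.fp (nat_lit 9) t1863))))))))))))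
noncomputable def l27162 : Lb := (@Lb.d (nat_lit 345) (nat_lit 166) (nat_lit 256) (@Lb.r r615 (@Lb.r r1621 (@Lb.r r2340 (@Lb.r r2386 (@Lb.g g7 (@Lb.d (nat_lit 0) (nat_lit 16) (nat_lit 128) (@Lb.t (@Lb.fp (nat_lit 3) t3081)))))))))
noncomputable def l27163 : Lb := (@Lb.r r82 (@Lb.d (nat_lit 41) (nat_lit 513) (nat_lit 136) (@Lb.g g8 (@Lb.g g9 (@Lb.g g11 (@Lb.r r402 (@Lb.r r359 (@Lb.r r516 (@Lb.d (nat_lit 153) (nat_lit 1) (nat_lit 128) (@Lb.t (@Lb.fp (nat_lit 9) t720)))))))))))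
noncomputable def l27164 : Lb := (@Lb.d (nat_lit 32) (nat_lit 256) (nat_lit 66) (@Lb.g g9 (@Lb.g g10 (@Lb.g g11 (@Lb.r r545 (@Lb.r r299 (@Lb.r r72 (@Lb.r r390 (@Lb.d (nat_lit 64) (nat_lit 5) (nat_lit 136) (@Lb.t (@Lb.fp (nat_lit 9) t285)))))))))))
noncomputable def l27165 : Lb := (@Lb.d (nat_lit 2) (nat_lit 514) (nat_lit 130) (@Lb.g g8 (@Lb.g g9 (@Lb.g g10 (@Lb.g g11 (@Lb.r r2729 (@Lb.r r2475 (@Lb.r r2468 (@Lb.r r2438 (@Lb.d (nat_lit 609) (nat_lit 10) (nat_lit 674) (@Lb.fp (nat_lit 9) t590)))))))))))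
noncomputable def l27166 : Lb := (@Lb.d (nat_lit 18) (nat_lit 256) (nat_lit 74) (@Lb.g g8 (@Lb.g g10 (@Lb.g g11 (@Lb.r r1675 (@Lb.r r1668 (@Lb.r r2198 (@Lb.r r2145 (@Lb.d (nat_lit 265) (nat_lit 161) (nat_lit 128) (@Lb.t (@Lb.fp (nat_lit 9) t152)))))))))))
noncomputable def l27167 : Lb := (@Lb.d (nat_lit 2) (nat_lit 258) (nat_lit 130) (@Lb.g g8 (@Lb.g g9 (@Lb.g g10 (@Lb.g g11 (@Lb.r r1419 (@Lb.r r340 (@Lb.r r170 (@Lb.r r2217 (@Lb.r r2212 (@Lb.d (nat_lit 385) (nat_lit 73) (nat_lit 345) (@Lb.fp (nat_lit 9) t5059))))))))))))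
noncomputable def l27168 : Lb := (@Lb.d (nat_lit 0) (nat_lit 2) (nat_lit 130) (@Lb.g g8 (@Lb.g g9 (@Lb.g g10 (@Lb.g g11 (@Lb.r r1419 (@Lb.r r340 (@Lb.r r170 (@Lb.r r2217 (@Lb.r r2212 (@Lb.d (nat_lit 514) (nat_lit 73) (nat_lit 153) (@Lb.fp (nat_lit 9) t386))))))))))))
noncomputable def l27169 : Lb := (@Lb.g g8 (@Lb.g g5 (@Lb.r r101 (@Lb.d (nat_lit 517) (nat_lit 513) (nat_lit 16) (@Lb.fm (nat_lit 3) t420)))))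
noncomputable def l27170 : Lb := (@Lb.r r82 (@Lb.d (nat_lit 0) (nat_lit 74) (nat_lit 128) (@Lb.g g8 (@Lb.g g9 (@Lb.g g11 (@Lb.r r2411 (@Lb.r r1606 (@Lb.r r2436 (@Lb.d (nat_lit 100) (nat_lit 9) (nat_lit 546) (@Lb.t (@Lb.fm (nat_lit 9) t1246)))))))))))
noncomputable def l27171 : Lb := (@Lb.r r70 (@Lb.r r263 (@Lb.d (nat_lit 9) (nat_lit 513) (nat_lit 0) (@Lb.g g8 (@Lb.g g9 (@Lb.r r279 (@Lb.r r86 (@Lb.r r145 (@Lb.r r104 (@Lb.d (nat_lit 549) (nat_lit 0) (nat_lit 16) (@Lb.fp (nat_lit 3) t217)))))))))))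
noncomputable def l27172 : Lb := (@Lb.d (nat_lit 513) (nat_lit 512) (nat_lit 16) (@Lb.r r97 (@Lb.r r70 (@Lb.r r263 (@Lb.g g4 (@Lb.r r267 (@Lb.r r74 (@Lb.r r25 (@Lb.t (@Lb.fp (nat_lit 3) t217))))))))))
noncomputable def l27173 : Lb := (@Lb.d (nat_lit 520) (nat_lit 68) (nat_lit 129) (@Lb.r r1061 (@Lb.r r2132 (@Lb.r r2474 (@Lb.g g11 (@Lb.g g5 (@Lb.g g4 (@Lb.d (nat_lit 1) (nat_lit 18) (nat_lit 264) (@Lb.r r578 (@Lb.t (@Lb.fm (nat_lit 9) t5060)))))))))))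
noncomputable def l27174 : Lb := (@Lb.d (nat_lit 4) (nat_lit 513) (nat_lit 128) (@Lb.g g8 (@Lb.g g9 (@Lb.g g11 (@Lb.r r406 (@Lb.r r1643 (@Lb.r r1633 (@Lb.r r24 (@Lb.d (nat_lit 265) (nat_lit 153) (nat_lit 66) (@Lb.t (@Lb.fm (nat_lit 9) t1741)))))))))))
noncomputable def l27175 : Lb := (@Lb.d (nat_lit 0) (nat_lit 256) (nat_lit 130) (@Lb.g g9 (@Lb.g g10 (@Lb.g g11 (@Lb.r r614 (@Lb.r r404 (@Lb.r r299 (@Lb.r r409 (@Lb.d (nat_lit 153) (nat_lit 85) (nat_lit 18) (@Lb.t (@Lb.fm (nat_lit 9) t1022)))))))))))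
noncomputable def l27176 : Lb := (@Lb.d (nat_lit 5) (nat_lit 5) (nat_lit 128) (@Lb.g g8 (@Lb.g g9 (@Lb.g g10 (@Lb.g g11 (@Lb.r r427 (@Lb.r r388 (@Lb.r r70 (@Lb.r r153 (@Lb.r r132 (@Lb.d (nat_lit 9) (nat_lit 73) (nat_lit 18) (@Lb.fp (nat_lit 9) t5061))))))))))))
noncomputable def l27177 : Lb := (@Lb.d (nat_lit 5) (nat_lit 256) (nat_lit 130) (@Lb.g g8 (@Lb.g g9 (@Lb.g g10 (@Lb.g g11 (@Lb.r r427 (@Lb.r r388 (@Lb.r r70 (@Lb.r r153 (@Lb.r r132 (@Lb.d (nat_lit 9) (nat_lit 73) (nat_lit 18) (@Lb.fp (nat_lit 9) t1022))))))))))))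
noncomputable def l27178 : Lb := (@Lb.r r97 (@Lb.r r1106 (@Lb.r r145 (@Lb.d (nat_lit 0) (nat_lit 256) (nat_lit 128) (@Lb.fm (nat_lit 1) t246)))))
noncomputable def l27179 : Lb := (@Lb.d (nat_lit 0) (nat_lit 258) (nat_lit 2) (@Lb.g g9 (@Lb.g g10 (@Lb.g g7 (@Lb.r r417 (@Lb.r r98 (@Lb.d (nat_lit 0) (nat_lit 73) (nat_lit 521) (@Lb.t (@Lb.fm (nat_lit 9) t2975)))))))))
noncomputable def l27180 : Lb := (@Lb.d (nat_lit 288) (nat_lit 517) (nat_lit 85) (@Lb.r r1094 (@Lb.r r2440 (@Lb.r r535 (@Lb.r r1361 (@Lb.g g6 (@Lb.g g5 (@Lb.g g4 (@Lb.d (nat_lit 1) (nat_lit 1) (nat_lit 1) (@Lb.t (@Lb.fp (nat_lit 9) t393)))))))))))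
noncomputable def l27181 : Lb := (@Lb.d (nat_lit 288) (nat_lit 261) (nat_lit 85) (@Lb.r r1094 (@Lb.r r2440 (@Lb.r r535 (@Lb.r r1361 (@Lb.g g6 (@Lb.g g5 (@Lb.g g4 (@Lb.d (nat_lit 2) (nat_lit 1) (nat_lit 1) (@Lb.t (@Lb.fp (nat_lit 9) t393)))))))))))
noncomputable def l27182 : Lb := (@Lb.d (nat_lit 0) (nat_lit 514) (nat_lit 128) (@Lb.g g8 (@Lb.g g9 (@Lb.g g10 (@Lb.g g11 (@Lb.r r1443 (@Lb.r r1414 (@Lb.r r100 (@Lb.r r21 (@Lb.r r36 (@Lb.d (nat_lit 513) (nat_lit 128) (nat_lit 0) (@Lb.fm (nat_lit 9) t825))))))))))))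
noncomputable def l27183 : Lb := (@Lb.d (nat_lit 32) (nat_lit 0) (nat_lit 130) (@Lb.g g9 (@Lb.g g10 (@Lb.g g11 (@Lb.r r2323 (@Lb.r r1685 (@Lb.r r100 (@Lb.r r602 (@Lb.d (nat_lit 357) (nat_lit 134) (nat_lit 138) (@Lb.t (@Lb.fm (nat_lit 9) t2138)))))))))))
noncomputable def l27184 : Lb := (@Lb.d (nat_lit 8) (nat_lit 282) (nat_lit 73) (@Lb.g g9 (@Lb.g g10 (@Lb.g g11 (@Lb.r r1603 (@Lb.r r346 (@Lb.r r1620 (@Lb.r r2393 (@Lb.d (nat_lit 74) (nat_lit 150) (nat_lit 148) (@Lb.t (@Lb.fp (nat_lit 9) t1312)))))))))))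
noncomputable def l27185 : Lb := (@Lb.r r355 (@Lb.d (nat_lit 36) (nat_lit 130) (nat_lit 2) (@Lb.g g5 (@Lb.g g10 (@Lb.r r1611 (@Lb.r r1096 (@Lb.r r2198 (@Lb.d (nat_lit 6) (nat_lit 129) (nat_lit 1) (@Lb.fm (nat_lit 3) t1312)))))))))
noncomputable def l27186 : Lb := (@Lb.d (nat_lit 0) (nat_lit 2) (nat_lit 0) (@Lb.g g8 (@Lb.g g9 (@Lb.r r1122 (@Lb.r r25 (@Lb.r r24 (@Lb.d (nat_lit 513) (nat_lit 0) (nat_lit 0) (@Lb.fp (nat_lit 3) t994))))))))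
noncomputable def l27187 : Lb := (@Lb.r r82 (@Lb.d (nat_lit 8) (nat_lit 264) (nat_lit 64) (@Lb.g g9 (@Lb.g g11 (@Lb.r r408 (@Lb.r r666 (@Lb.r r337 (@Lb.d (nat_lit 65) (nat_lit 22) (nat_lit 70) (@Lb.fm (nat_lit 3) t1185)))))))))
noncomputable def l27188 : Lb := (@Lb.d (nat_lit 169) (nat_lit 4) (nat_lit 532) (@Lb.r r150 (@Lb.r r72 (@Lb.r r539 (@Lb.g g6 (@Lb.g g9 (@Lb.d (nat_lit 24) (nat_lit 130) (nat_lit 1) (@Lb.r r36 (@Lb.fm (nat_lit 3) t5062)))))))))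
noncomputable def l27189 : Lb := (@Lb.d (nat_lit 2) (nat_lit 2) (nat_lit 130) (@Lb.g g8 (@Lb.g g9 (@Lb.g g10 (@Lb.g g11 (@Lb.r r427 (@Lb.r r2726 (@Lb.r r2457 (@Lb.r r2436 (@Lb.d (nat_lit 577) (nat_lit 137) (nat_lit 545) (@Lb.fm (nat_lit 9) t5063)))))))))))
noncomputable def l27190 : Lb := (@Lb.d (nat_lit 66) (nat_lit 681) (nat_lit 324) (@Lb.r r386 (@Lb.r r531 (@Lb.r r277 (@Lb.g g7 (@Lb.g g5 (@Lb.g g4 (@Lb.d (nat_lit 1) (nat_lit 17) (nat_lit 128) (@Lb.r r98 (@Lb.t (@Lb.fp (nat_lit 9) t3180)))))))))))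
noncomputable def l27191 : Lb := (@Lb.d (nat_lit 2) (nat_lit 258) (nat_lit 130) (@Lb.g g8 (@Lb.g g9 (@Lb.g g10 (@Lb.g g11 (@Lb.r r427 (@Lb.r r2726 (@Lb.r r2457 (@Lb.r r2436 (@Lb.d (nat_lit 576) (nat_lit 137) (nat_lit 545) (@Lb.fm (nat_lit 9) t5063)))))))))))
noncomputable def l27192 : Lb := (@Lb.d (nat_lit 0) (nat_lit 393) (nat_lit 264) (@Lb.r r659 (@Lb.r r357 (@Lb.r r24 (@Lb.g g7 (@Lb.g g6 (@Lb.d (nat_lit 96) (nat_lit 0) (nat_lit 149) (@Lb.fp (nat_lit 3) t860))))))))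
noncomputable def l27193 : Lb := (@Lb.d (nat_lit 0) (nat_lit 8) (nat_lit 2) (@Lb.g g10 (@Lb.r r101 (@Lb.r r1114 (@Lb.r r24 (@Lb.d (nat_lit 18) (nat_lit 0) (nat_lit 18) (@Lb.t (@Lb.fp (nat_lit 3) t1261))))))))
noncomputable def l27194 : Lb := (@Lb.r r21 (@Lb.d (nat_lit 2) (nat_lit 256) (nat_lit 130) (@Lb.g g8 (@Lb.g g10 (@Lb.g g11 (@Lb.r r2379 (@Lb.r r386 (@Lb.r r145 (@Lb.r r72 (@Lb.d (nat_lit 514) (nat_lit 10) (nat_lit 136) (@Lb.t (@Lb.fm (nat_lit 9) t61))))))))))))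
noncomputable def l27195 : Lb := (@Lb.d (nat_lit 33) (nat_lit 258) (nat_lit 73) (@Lb.g g8 (@Lb.g g9 (@Lb.g g10 (@Lb.g g11 (@Lb.r r2690 (@Lb.r r2455 (@Lb.r r97 (@Lb.r r1560 (@Lb.d (nat_lit 616) (nat_lit 105) (nat_lit 529) (@Lb.fm (nat_lit 9) t1598)))))))))))
noncomputable def l27196 : Lb := (@Lb.d (nat_lit 10) (nat_lit 544) (nat_lit 128) (@Lb.g g8 (@Lb.g g11 (@Lb.r r1109 (@Lb.r r2472 (@Lb.r r2567 (@Lb.r r2178 (@Lb.d (nat_lit 642) (nat_lit 90) (nat_lit 601) (@Lb.fp (nat_lit 3) t124)))))))))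
noncomputable def l27197 : Lb := (@Lb.r r82 (@Lb.g g5 (@Lb.r r1122 (@Lb.r r1041 (@Lb.t (@Lb.p (nat_lit 1) (@Lb.fm (nat_lit 3) t99)))))))
noncomputable def l27198 : Lb := (@Lb.r r323 (@Lb.d (nat_lit 2) (nat_lit 297) (nat_lit 1) (@Lb.g g8 (@Lb.g g9 (@Lb.g g10 (@Lb.r r599 (@Lb.r r1122 (@Lb.r r2436 (@Lb.d (nat_lit 320) (nat_lit 137) (nat_lit 514) (@Lb.t (@Lb.fp (nat_lit 9) t460)))))))))))
noncomputable def l27199 : Lb := (@Lb.d (nat_lit 2) (nat_lit 9) (nat_lit 129) (@Lb.g g8 (@Lb.g g9 (@Lb.g g10 (@Lb.g g11 (@Lb.r r2218 (@Lb.r r420 (@Lb.r r283 (@Lb.r r1557 (@Lb.r r1060 (@Lb.d (nat_lit 641) (nat_lit 66) (nat_lit 330) (@Lb.fm (nat_lit 9) t428))))))))))))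
noncomputable def l27200 : Lb := (@Lb.d (nat_lit 33) (nat_lit 514) (nat_lit 1) (@Lb.g g8 (@Lb.g g9 (@Lb.g g10 (@Lb.r r683 (@Lb.r r676 (@Lb.r r2214 (@Lb.r r145 (@Lb.d (nat_lit 522) (nat_lit 66) (nat_lit 666) (@Lb.t (@Lb.fm (nat_lit 9) t925)))))))))))
noncomputable def l27201 : Lb := (@Lb.d (nat_lit 97) (nat_lit 550) (nat_lit 130) (@Lb.g g8 (@Lb.g g9 (@Lb.g g10 (@Lb.g g11 (@Lb.r r427 (@Lb.r r420 (@Lb.r r1126 (@Lb.r r1156 (@Lb.d (nat_lit 40) (nat_lit 65) (nat_lit 665) (@Lb.fp (nat_lit 9) t4214)))))))))))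
noncomputable def l27202 : Lb := (@Lb.d (nat_lit 33) (nat_lit 258) (nat_lit 1) (@Lb.g g8 (@Lb.g g9 (@Lb.g g10 (@Lb.r r683 (@Lb.r r676 (@Lb.r r2214 (@Lb.r r145 (@Lb.d (nat_lit 521) (nat_lit 73) (nat_lit 665) (@Lb.t (@Lb.fm (nat_lit 9) t925)))))))))))
noncomputable def l27203 : Lb := (@Lb.r r82 (@Lb.d (nat_lit 2) (nat_lit 512) (nat_lit 0) (@Lb.g g8 (@Lb.g g9 (@Lb.r r2154 (@Lb.r r2073 (@Lb.d (nat_lit 265) (nat_lit 2) (nat_lit 0) (@Lb.fm (nat_lit 3) t406))))))))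
noncomputable def l27204 : Lb := (@Lb.d (nat_lit 645) (nat_lit 529) (nat_lit 320) (@Lb.r r2584 (@Lb.r r82 (@Lb.g g7 (@Lb.g g9 (@Lb.g g4 (@Lb.d (nat_lit 128) (nat_lit 66) (nat_lit 256) (@Lb.r r98 (@Lb.t (@Lb.fp (nat_lit 9) t3938))))))))))
noncomputable def l27205 : Lb := (@Lb.d (nat_lit 128) (nat_lit 256) (nat_lit 128) (@Lb.g g11 (@Lb.r r264 (@Lb.r r519 (@Lb.r r101 (@Lb.r r2194 (@Lb.d (nat_lit 666) (nat_lit 128) (nat_lit 21) (@Lb.t (@Lb.fp (nat_lit 3) t3561)))))))))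
noncomputable def l27206 : Lb := (@Lb.r r82 (@Lb.d (nat_lit 2) (nat_lit 256) (nat_lit 0) (@Lb.g g8 (@Lb.g g9 (@Lb.r r2154 (@Lb.r r2073 (@Lb.d (nat_lit 258) (nat_lit 0) (nat_lit 0) (@Lb.fm (nat_lit 3) t869))))))))
noncomputable def l27207 : Lb := (@Lb.d (nat_lit 1) (nat_lit 258) (nat_lit 130) (@Lb.g g8 (@Lb.g g9 (@Lb.g g10 (@Lb.g g11 (@Lb.r r2705 (@Lb.r r535 (@Lb.r r2440 (@Lb.r r2122 (@Lb.d (nat_lit 289) (nat_lit 10) (nat_lit 136) (@Lb.fp (nat_lit 9) t221)))))))))))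
noncomputable def l27208 : Lb := (@Lb.r r82 (@Lb.d (nat_lit 9) (nat_lit 545) (nat_lit 64) (@Lb.g g8 (@Lb.g g9 (@Lb.g g11 (@Lb.r r2731 (@Lb.r r1610 (@Lb.r r2596 (@Lb.r r1061 (@Lb.d (nat_lit 289) (nat_lit 165) (nat_lit 658) (@Lb.t (@Lb.fm (nat_lit 9) t2083))))))))))))
noncomputable def l27209 : Lb := (@Lb.d (nat_lit 33) (nat_lit 514) (nat_lit 73) (@Lb.g g8 (@Lb.g g9 (@Lb.g g10 (@Lb.g g11 (@Lb.r r2731 (@Lb.r r2724 (@Lb.r r1190 (@Lb.r r145 (@Lb.d (nat_lit 265) (nat_lit 130) (nat_lit 666) (@Lb.fp (nat_lit 9) t925)))))))))))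
noncomputable def l27210 : Lb := (@Lb.r r600 (@Lb.r r1301 (@Lb.r r1579 (@Lb.r r2178 (@Lb.r r1572 (@Lb.d (nat_lit 0) (nat_lit 256) (nat_lit 32) (@Lb.fm (nat_lit 1) t124)))))))
noncomputable def l27211 : Lb := (@Lb.r r70 (@Lb.d (nat_lit 0) (nat_lit 514) (nat_lit 128) (@Lb.g g8 (@Lb.g g9 (@Lb.g g11 (@Lb.r r299 (@Lb.r r2390 (@Lb.r r97 (@Lb.r r408 (@Lb.d (nat_lit 665) (nat_lit 26) (nat_lit 610) (@Lb.t (@Lb.fm (nat_lit 9) t3306))))))))))))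
noncomputable def l27212 : Lb := (@Lb.d (nat_lit 2) (nat_lit 258) (nat_lit 130) (@Lb.g g8 (@Lb.g g9 (@Lb.g g10 (@Lb.g g11 (@Lb.r r427 (@Lb.r r386 (@Lb.r r97 (@Lb.r r24 (@Lb.d (nat_lit 617) (nat_lit 2) (nat_lit 153) (@Lb.fm (nat_lit 9) t61)))))))))))
noncomputable def l27213 : Lb := (@Lb.d (nat_lit 578) (nat_lit 537) (nat_lit 408) (@Lb.r r2068 (@Lb.r r409 (@Lb.r r20 (@Lb.r r2723 (@Lb.g g7 (@Lb.g g10 (@Lb.g g5 (@Lb.g g4 (@Lb.d (nat_lit 102) (nat_lit 38) (nat_lit 2) (@Lb.fp (nat_lit 9) t445)))))))))))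
noncomputable def l27214 : Lb := (@Lb.d (nat_lit 42) (nat_lit 512) (nat_lit 128) (@Lb.g g8 (@Lb.g g11 (@Lb.r r1446 (@Lb.r r1429 (@Lb.r r1643 (@Lb.r r1640 (@Lb.d (nat_lit 101) (nat_lit 154) (nat_lit 546) (@Lb.fp (nat_lit 3) t282)))))))))
noncomputable def l27215 : Lb := (@Lb.d (nat_lit 146) (nat_lit 258) (nat_lit 128) (@Lb.g g8 (@Lb.g g9 (@Lb.g g10 (@Lb.g g11 (@Lb.r r1706 (@Lb.r r1411 (@Lb.r r36 (@Lb.r r1045 (@Lb.r r2084 (@Lb.d (nat_lit 585) (nat_lit 65) (nat_lit 328) (@Lb.fm (nat_lit 9) t5064))))))))))))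
noncomputable def l27216 : Lb := (@Lb.d (nat_lit 402) (nat_lit 662) (nat_lit 354) (@Lb.r r2321 (@Lb.r r2386 (@Lb.r r679 (@Lb.g g7 (@Lb.g g6 (@Lb.g g5 (@Lb.g g8 (@Lb.d (nat_lit 10) (nat_lit 0) (nat_lit 65) (@Lb.fp (nat_lit 9) t1477))))))))))
noncomputable def l27217 : Lb := (@Lb.d (nat_lit 128) (nat_lit 517) (nat_lit 598) (@Lb.r r2627 (@Lb.r r410 (@Lb.r r2196 (@Lb.r r1385 (@Lb.g g7 (@Lb.d (nat_lit 0) (nat_lit 16) (nat_lit 64) (@Lb.t (@Lb.fp (nat_lit 3) t5065)))))))))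
noncomputable def l27218 : Lb := (@Lb.d (nat_lit 129) (nat_lit 514) (nat_lit 130) (@Lb.g g8 (@Lb.g g9 (@Lb.g g10 (@Lb.g g11 (@Lb.r r545 (@Lb.r r291 (@Lb.r r1178 (@Lb.r r1176 (@Lb.d (nat_lit 601) (nat_lit 25) (nat_lit 546) (@Lb.fm (nat_lit 9) t5066)))))))))))
noncomputable def l27219 : Lb := (@Lb.d (nat_lit 330) (nat_lit 162) (nat_lit 386) (@Lb.r r1320 (@Lb.r r2583 (@Lb.r r1385 (@Lb.g g10 (@Lb.g g4 (@Lb.d (nat_lit 65) (nat_lit 8) (nat_lit 38) (@Lb.r r145 (@Lb.fm (nat_lit 3) t1126)))))))))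
noncomputable def l27220 : Lb := (@Lb.r r323 (@Lb.d (nat_lit 2) (nat_lit 34) (nat_lit 0) (@Lb.g g8 (@Lb.g g9 (@Lb.g g10 (@Lb.r r2643 (@Lb.r r2154 (@Lb.r r1636 (@Lb.r r1557 (@Lb.d (nat_lit 385) (nat_lit 168) (nat_lit 642) (@Lb.t (@Lb.fp (nat_lit 9) t825))))))))))))
noncomputable def l27221 : Lb := (@Lb.r r275 (@Lb.d (nat_lit 2) (nat_lit 2) (nat_lit 2) (@Lb.g g8 (@Lb.g g5 (@Lb.g g10 (@Lb.r r1690 (@Lb.r r1688 (@Lb.r r1563 (@Lb.d (nat_lit 1) (nat_lit 82) (nat_lit 10) (@Lb.t (@Lb.fm (nat_lit 9) t1440)))))))))))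
noncomputable def l27222 : Lb := (@Lb.d (nat_lit 1) (nat_lit 512) (nat_lit 2) (@Lb.g g8 (@Lb.g g9 (@Lb.g g10 (@Lb.r r1707 (@Lb.r r2713 (@Lb.r r2650 (@Lb.r r2628 (@Lb.d (nat_lit 148) (nat_lit 1) (nat_lit 425) (@Lb.t (@Lb.fp (nat_lit 9) t441)))))))))))
noncomputable def l27223 : Lb := (@Lb.r r323 (@Lb.d (nat_lit 1) (nat_lit 546) (nat_lit 0) (@Lb.g g8 (@Lb.g g9 (@Lb.g g10 (@Lb.r r2643 (@Lb.r r2154 (@Lb.r r1636 (@Lb.r r1557 (@Lb.d (nat_lit 384) (nat_lit 168) (nat_lit 642) (@Lb.t (@Lb.fp (nat_lit 9) t825))))))))))))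
noncomputable def l27224 : Lb := (@Lb.g g10 (@Lb.r r2403 (@Lb.r r594 (@Lb.d (nat_lit 0) (nat_lit 576) (nat_lit 1) (@Lb.t (@Lb.fp (nat_lit 3) t1901))))))
noncomputable def l27225 : Lb := (@Lb.r r21 (@Lb.r r323 (@Lb.d (nat_lit 138) (nat_lit 0) (nat_lit 2) (@Lb.g g8 (@Lb.g g10 (@Lb.r r2394 (@Lb.r r1685 (@Lb.r r1559 (@Lb.r r2312 (@Lb.d (nat_lit 393) (nat_lit 70) (nat_lit 640) (@Lb.fm (nat_lit 3) t295)))))))))))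
noncomputable def l27226 : Lb := (@Lb.d (nat_lit 145) (nat_lit 512) (nat_lit 600) (@Lb.r r24 (@Lb.r r2725 (@Lb.r r386 (@Lb.r r1427 (@Lb.g g7 (@Lb.g g6 (@Lb.g g5 (@Lb.d (nat_lit 0) (nat_lit 10) (nat_lit 10) (@Lb.t (@Lb.fm (nat_lit 9) t686)))))))))))
noncomputable def l27227 : Lb := (@Lb.d (nat_lit 0) (nat_lit 512) (nat_lit 130) (@Lb.g g10 (@Lb.g g11 (@Lb.r r419 (@Lb.r r409 (@Lb.r r2458 (@Lb.r r24 (@Lb.d (nat_lit 104) (nat_lit 128) (nat_lit 297) (@Lb.fm (nat_lit 3) t2344)))))))))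
noncomputable def l27228 : Lb := (@Lb.d (nat_lit 0) (nat_lit 0) (nat_lit 130) (@Lb.g g10 (@Lb.g g11 (@Lb.r r2658 (@Lb.r r579 (@Lb.d (nat_lit 0) (nat_lit 97) (nat_lit 586) (@Lb.fp (nat_lit 3) t51)))))))
noncomputable def l27229 : Lb := (@Lb.d (nat_lit 80) (nat_lit 517) (nat_lit 66) (@Lb.r r24 (@Lb.r r101 (@Lb.r r418 (@Lb.r r355 (@Lb.g g7 (@Lb.g g6 (@Lb.d (nat_lit 0) (nat_lit 0) (nat_lit 66) (@Lb.fp (nat_lit 3) t175)))))))))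
noncomputable def l27230 : Lb := (@Lb.d (nat_lit 40) (nat_lit 512) (nat_lit 128) (@Lb.g g8 (@Lb.g g11 (@Lb.r r2331 (@Lb.r r614 (@Lb.r r1637 (@Lb.r r1428 (@Lb.d (nat_lit 358) (nat_lit 20) (nat_lit 393) (@Lb.fp (nat_lit 3) t386)))))))))
noncomputable def l27231 : Lb := (@Lb.d (nat_lit 130) (nat_lit 8) (nat_lit 1) (@Lb.g g8 (@Lb.g g10 (@Lb.r r295 (@Lb.r r2129 (@Lb.r r2470 (@Lb.r r1604 (@Lb.d (nat_lit 656) (nat_lit 130) (nat_lit 602) (@Lb.fp (nat_lit 3) t748)))))))))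
noncomputable def l27232 : Lb := (@Lb.d (nat_lit 8) (nat_lit 265) (nat_lit 130) (@Lb.g g9 (@Lb.g g10 (@Lb.g g11 (@Lb.r r1671 (@Lb.r r2376 (@Lb.r r1366 (@Lb.r r1425 (@Lb.d (nat_lit 645) (nat_lit 0) (nat_lit 586) (@Lb.t (@Lb.fm (nat_lit 9) t5067)))))))))))
noncomputable def l27233 : Lb := (@Lb.d (nat_lit 8) (nat_lit 9) (nat_lit 73) (@Lb.g g9 (@Lb.g g10 (@Lb.g g11 (@Lb.r r1671 (@Lb.r r2376 (@Lb.r r1366 (@Lb.r r1425 (@Lb.d (nat_lit 644) (nat_lit 0) (nat_lit 586) (@Lb.t (@Lb.fm (nat_lit 9) t5067)))))))))))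
noncomputable def l27234 : Lb := (@Lb.d (nat_lit 9) (nat_lit 522) (nat_lit 128) (@Lb.g g8 (@Lb.g g9 (@Lb.g g11 (@Lb.r r134 (@Lb.r r584 (@Lb.r r2603 (@Lb.r r2593 (@Lb.d (nat_lit 8) (nat_lit 128) (nat_lit 276) (@Lb.t (@Lb.fm (nat_lit 9) t334)))))))))))
noncomputable def l27235 : Lb := (@Lb.d (nat_lit 8) (nat_lit 2) (nat_lit 2) (@Lb.g g8 (@Lb.g g9 (@Lb.g g10 (@Lb.g g11 (@Lb.r r2691 (@Lb.r r2345 (@Lb.r r360 (@Lb.r r582 (@Lb.r r2180 (@Lb.d (nat_lit 641) (nat_lit 10) (nat_lit 89) (@Lb.fm (nat_lit 9) t242))))))))))))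
noncomputable def l27236 : Lb := (@Lb.d (nat_lit 9) (nat_lit 0) (nat_lit 128) (@Lb.g g8 (@Lb.g g11 (@Lb.r r545 (@Lb.r r299 (@Lb.r r328 (@Lb.r r134 (@Lb.d (nat_lit 5) (nat_lit 6) (nat_lit 145) (@Lb.fp (nat_lit 3) t40)))))))))
noncomputable def l27237 : Lb := (@Lb.d (nat_lit 137) (nat_lit 10) (nat_lit 0) (@Lb.g g8 (@Lb.g g9 (@Lb.r r646 (@Lb.r r2727 (@Lb.r r2593 (@Lb.r r104 (@Lb.d (nat_lit 38) (nat_lit 130) (nat_lit 276) (@Lb.fm (nat_lit 3) t334)))))))))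
noncomputable def l27238 : Lb := (@Lb.d (nat_lit 10) (nat_lit 258) (nat_lit 2) (@Lb.g g4 (@Lb.g g9 (@Lb.g g10 (@Lb.g g11 (@Lb.r r419 (@Lb.r r98 (@Lb.d (nat_lit 0) (nat_lit 9) (nat_lit 137) (@Lb.fm (nat_lit 9) t51)))))))))
noncomputable def l27239 : Lb := (@Lb.d (nat_lit 529) (nat_lit 256) (nat_lit 17) (@Lb.r r20 (@Lb.r r2153 (@Lb.r r323 (@Lb.g g10 (@Lb.g g5 (@Lb.g g4 (@Lb.d (nat_lit 8) (nat_lit 0) (nat_lit 2) (@Lb.r r387 (@Lb.t (@Lb.fp (nat_lit 9) t51)))))))))))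
noncomputable def l27240 : Lb := (@Lb.d (nat_lit 26) (nat_lit 1) (nat_lit 128) (@Lb.g g8 (@Lb.g g9 (@Lb.g g10 (@Lb.g g11 (@Lb.r r2723 (@Lb.r r596 (@Lb.r r2730 (@Lb.r r169 (@Lb.r r164 (@Lb.d (nat_lit 361) (nat_lit 161) (nat_lit 105) (@Lb.fm (nat_lit 9) t4859))))))))))))
noncomputable def l27241 : Lb := (@Lb.r r323 (@Lb.d (nat_lit 2) (nat_lit 34) (nat_lit 2) (@Lb.g g8 (@Lb.g g9 (@Lb.g g10 (@Lb.r r2340 (@Lb.r r619 (@Lb.r r1698 (@Lb.r r2725 (@Lb.d (nat_lit 278) (nat_lit 21) (nat_lit 165) (@Lb.t (@Lb.fp (nat_lit 9) t61))))))))))))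
noncomputable def l27242 : Lb := (@Lb.d (nat_lit 17) (nat_lit 0) (nat_lit 1) (@Lb.r r20 (@Lb.r r105 (@Lb.r r323 (@Lb.g g10 (@Lb.g g5 (@Lb.g g4 (@Lb.d (nat_lit 10) (nat_lit 6) (nat_lit 0) (@Lb.r r387 (@Lb.t (@Lb.fp (nat_lit 9) t51)))))))))))
noncomputable def l27243 : Lb := (@Lb.r r21 (@Lb.d (nat_lit 386) (nat_lit 8) (nat_lit 130) (@Lb.g g8 (@Lb.g g10 (@Lb.g g11 (@Lb.r r387 (@Lb.r r101 (@Lb.r r2450 (@Lb.d (nat_lit 609) (nat_lit 85) (nat_lit 409) (@Lb.t (@Lb.fm (nat_lit 9) t1039)))))))))))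
noncomputable def l27244 : Lb := (@Lb.r r21 (@Lb.r r323 (@Lb.d (nat_lit 130) (nat_lit 512) (nat_lit 2) (@Lb.g g8 (@Lb.g g10 (@Lb.r r346 (@Lb.r r661 (@Lb.r r535 (@Lb.r r264 (@Lb.d (nat_lit 137) (nat_lit 65) (nat_lit 266) (@Lb.fm (nat_lit 3) t119)))))))))))
noncomputable def l27245 : Lb := (@Lb.r r70 (@Lb.d (nat_lit 129) (nat_lit 258) (nat_lit 128) (@Lb.g g8 (@Lb.g g9 (@Lb.g g11 (@Lb.r r1129 (@Lb.r r658 (@Lb.r r1411 (@Lb.r r516 (@Lb.d (nat_lit 130) (nat_lit 0) (nat_lit 42) (@Lb.t (@Lb.fm (nat_lit 9) t50))))))))))))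
noncomputable def l27246 : Lb := (@Lb.d (nat_lit 8) (nat_lit 258) (nat_lit 0) (@Lb.g g9 (@Lb.d (nat_lit 4) (nat_lit 1) (nat_lit 0) (@Lb.t (@Lb.fp (nat_lit 3) t2)))))
noncomputable def l27247 : Lb := (@Lb.d (nat_lit 0) (nat_lit 257) (nat_lit 128) (@Lb.g g9 (@Lb.g g10 (@Lb.g g11 (@Lb.r r2723 (@Lb.r r2709 (@Lb.r r1174 (@Lb.r r8 (@Lb.d (nat_lit 278) (nat_lit 73) (nat_lit 324) (@Lb.t (@Lb.fp (nat_lit 9) t646)))))))))))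
noncomputable def l27248 : Lb := (@Lb.d (nat_lit 0) (nat_lit 38) (nat_lit 64) (@Lb.g g9 (@Lb.g g10 (@Lb.g g11 (@Lb.r r1699 (@Lb.r r1638 (@Lb.r r1633 (@Lb.r r8 (@Lb.d (nat_lit 554) (nat_lit 148) (nat_lit 392) (@Lb.t (@Lb.fp (nat_lit 9) t1876)))))))))))
noncomputable def l27249 : Lb := (@Lb.d (nat_lit 657) (nat_lit 298) (nat_lit 73) (@Lb.r r8 (@Lb.r r101 (@Lb.r r386 (@Lb.r r2395 (@Lb.g g7 (@Lb.g g6 (@Lb.d (nat_lit 0) (nat_lit 0) (nat_lit 65) (@Lb.fp (nat_lit 3) t5068)))))))))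
noncomputable def l27250 : Lb := (@Lb.d (nat_lit 0) (nat_lit 34) (nat_lit 322) (@Lb.g g9 (@Lb.g g10 (@Lb.g g11 (@Lb.r r1634 (@Lb.r r1553 (@Lb.d (nat_lit 0) (nat_lit 100) (nat_lit 86) (@Lb.t (@Lb.fm (nat_lit 9) t1413)))))))))
noncomputable def l27251 : Lb := (@Lb.d (nat_lit 614) (nat_lit 6) (nat_lit 645) (@Lb.r r1621 (@Lb.r r1706 (@Lb.g g11 (@Lb.g g6 (@Lb.g g5 (@Lb.g g4 (@Lb.d (nat_lit 8) (nat_lit 18) (nat_lit 6) (@Lb.fp (nat_lit 9) t309)))))))))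
noncomputable def l27252 : Lb := (@Lb.d (nat_lit 2) (nat_lit 521) (nat_lit 130) (@Lb.g g8 (@Lb.g g9 (@Lb.g g10 (@Lb.g g11 (@Lb.r r2347 (@Lb.r r2661 (@Lb.r r328 (@Lb.r r614 (@Lb.d (nat_lit 617) (nat_lit 85) (nat_lit 358) (@Lb.fp (nat_lit 9) t539)))))))))))
noncomputable def l27253 : Lb := (@Lb.d (nat_lit 320) (nat_lit 341) (nat_lit 406) (@Lb.r r24 (@Lb.r r2145 (@Lb.r r386 (@Lb.r r1447 (@Lb.g g7 (@Lb.g g6 (@Lb.g g4 (@Lb.d (nat_lit 1) (nat_lit 0) (nat_lit 129) (@Lb.t (@Lb.fm (nat_lit 9) t5069)))))))))))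
noncomputable def l27254 : Lb := (@Lb.r r21 (@Lb.r r70 (@Lb.r r263 (@Lb.g g8 (@Lb.r r267 (@Lb.r r74 (@Lb.r r97 (@Lb.d (nat_lit 16) (nat_lit 136) (nat_lit 34) (@Lb.t (@Lb.fm (nat_lit 3) t5070))))))))))
noncomputable def l27255 : Lb := (@Lb.d (nat_lit 329) (nat_lit 161) (nat_lit 390) (@Lb.r r2465 (@Lb.r r2214 (@Lb.r r2695 (@Lb.g g6 (@Lb.g g5 (@Lb.g g8 (@Lb.d (nat_lit 320) (nat_lit 17) (nat_lit 2) (@Lb.t (@Lb.fp (nat_lit 9) t2157))))))))))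
noncomputable def l27256 : Lb := (@Lb.d (nat_lit 329) (nat_lit 417) (nat_lit 390) (@Lb.r r2465 (@Lb.r r2214 (@Lb.r r2695 (@Lb.g g6 (@Lb.g g5 (@Lb.g g8 (@Lb.d (nat_lit 322) (nat_lit 17) (nat_lit 2) (@Lb.t (@Lb.fp (nat_lit 9) t1719))))))))))
noncomputable def l27257 : Lb := (@Lb.d (nat_lit 0) (nat_lit 5) (nat_lit 128) (@Lb.g g8 (@Lb.g g9 (@Lb.g g10 (@Lb.g g11 (@Lb.r r1602 (@Lb.r r516 (@Lb.r r2391 (@Lb.r r1577 (@Lb.r r1060 (@Lb.d (nat_lit 353) (nat_lit 73) (nat_lit 513) (@Lb.fm (nat_lit 9) t5071))))))))))))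
noncomputable def l27258 : Lb := (@Lb.d (nat_lit 0) (nat_lit 100) (nat_lit 129) (@Lb.r r20 (@Lb.r r1633 (@Lb.r r2403 (@Lb.r r2706 (@Lb.g g11 (@Lb.g g10 (@Lb.g g5 (@Lb.t (@Lb.fp (nat_lit 9) t3706))))))))))
noncomputable def l27259 : Lb := (@Lb.d (nat_lit 2) (nat_lit 1) (nat_lit 74) (@Lb.g g8 (@Lb.g g9 (@Lb.g g10 (@Lb.g g11 (@Lb.r r342 (@Lb.r r2728 (@Lb.r r2603 (@Lb.r r2581 (@Lb.d (nat_lit 386) (nat_lit 97) (nat_lit 330) (@Lb.fp (nat_lit 9) t881)))))))))))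
noncomputable def l27260 : Lb := (@Lb.d (nat_lit 4) (nat_lit 512) (nat_lit 74) (@Lb.g g8 (@Lb.g g9 (@Lb.g g10 (@Lb.g g11 (@Lb.r r1666 (@Lb.r r1431 (@Lb.r r2585 (@Lb.d (nat_lit 329) (nat_lit 42) (nat_lit 16) (@Lb.fm (nat_lit 9) t3706))))))))))
noncomputable def l27261 : Lb := (@Lb.d (nat_lit 2) (nat_lit 512) (nat_lit 0) (@Lb.g g8 (@Lb.r r2665 (@Lb.r r402 (@Lb.r r2596 (@Lb.r r2663 (@Lb.d (nat_lit 512) (nat_lit 10) (nat_lit 84) (@Lb.t (@Lb.fm (nat_lit 3) t2299)))))))))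
noncomputable def l27262 : Lb := (@Lb.r r82 (@Lb.r r2311 (@Lb.d (nat_lit 10) (nat_lit 512) (nat_lit 0) (@Lb.g g8 (@Lb.g g9 (@Lb.r r86 (@Lb.r r41 (@Lb.r r1048 (@Lb.d (nat_lit 264) (nat_lit 66) (nat_lit 0) (@Lb.fm (nat_lit 3) t5072))))))))))
noncomputable def l27263 : Lb := (@Lb.d (nat_lit 129) (nat_lit 258) (nat_lit 66) (@Lb.g g8 (@Lb.g g9 (@Lb.g g10 (@Lb.g g11 (@Lb.r r427 (@Lb.r r426 (@Lb.r r420 (@Lb.r r21 (@Lb.r r36 (@Lb.d (nat_lit 9) (nat_lit 41) (nat_lit 137) (@Lb.fm (nat_lit 9) t1108))))))))))))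
noncomputable def l27264 : Lb := (@Lb.r r70 (@Lb.d (nat_lit 161) (nat_lit 514) (nat_lit 64) (@Lb.g g8 (@Lb.g g9 (@Lb.g g11 (@Lb.r r1430 (@Lb.r r1367 (@Lb.r r97 (@Lb.r r596 (@Lb.d (nat_lit 149) (nat_lit 33) (nat_lit 17) (@Lb.t (@Lb.fm (nat_lit 9) t960))))))))))))
noncomputable def l27265 : Lb := (@Lb.d (nat_lit 145) (nat_lit 0) (nat_lit 129) (@Lb.r r402 (@Lb.r r101 (@Lb.g g11 (@Lb.t (@Lb.fp (nat_lit 3) t1163))))))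
noncomputable def l27266 : Lb := (@Lb.d (nat_lit 274) (nat_lit 86) (nat_lit 322) (@Lb.r r70 (@Lb.r r2579 (@Lb.r r1365 (@Lb.g g7 (@Lb.g g6 (@Lb.g g5 (@Lb.g g4 (@Lb.d (nat_lit 1) (nat_lit 1) (nat_lit 133) (@Lb.fm (nat_lit 9) t1205))))))))))
noncomputable def l27267 : Lb := (@Lb.d (nat_lit 0) (nat_lit 512) (nat_lit 32) (@Lb.r r1635 (@Lb.r r601 (@Lb.r r2136 (@Lb.r r1158 (@Lb.g g5 (@Lb.g g8 (@Lb.fm (nat_lit 3) t5073))))))))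
noncomputable def l27268 : Lb := (@Lb.d (nat_lit 1) (nat_lit 266) (nat_lit 74) (@Lb.r r402 (@Lb.r r101 (@Lb.g g11 (@Lb.g g8 (@Lb.d (nat_lit 10) (nat_lit 0) (nat_lit 0) (@Lb.fm (nat_lit 3) t35)))))))
noncomputable def l27269 : Lb := (@Lb.d (nat_lit 0) (nat_lit 512) (nat_lit 170) (@Lb.r r1635 (@Lb.r r601 (@Lb.r r2132 (@Lb.r r1162 (@Lb.g g4 (@Lb.d (nat_lit 1) (nat_lit 0) (nat_lit 0) (@Lb.t (@Lb.fm (nat_lit 3) t2842)))))))))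
noncomputable def l27270 : Lb := (@Lb.r r323 (@Lb.d (nat_lit 66) (nat_lit 258) (nat_lit 2) (@Lb.g g8 (@Lb.g g9 (@Lb.g g10 (@Lb.r r418 (@Lb.r r1383 (@Lb.r r1305 (@Lb.r r84 (@Lb.d (nat_lit 289) (nat_lit 165) (nat_lit 361) (@Lb.t (@Lb.fp (nat_lit 9) t3578))))))))))))
noncomputable def l27271 : Lb := (@Lb.d (nat_lit 2) (nat_lit 513) (nat_lit 0) (@Lb.g g8 (@Lb.g g9 (@Lb.r r418 (@Lb.r r40 (@Lb.r r153 (@Lb.d (nat_lit 281) (nat_lit 22) (nat_lit 577) (@Lb.fm (nat_lit 3) t2096))))))))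
noncomputable def l27272 : Lb := (@Lb.r r322 (@Lb.d (nat_lit 2) (nat_lit 545) (nat_lit 0) (@Lb.g g8 (@Lb.g g9 (@Lb.g g7 (@Lb.r r418 (@Lb.r r296 (@Lb.r r409 (@Lb.d (nat_lit 409) (nat_lit 38) (nat_lit 521) (@Lb.t (@Lb.fp (nat_lit 9) t5074)))))))))))
noncomputable def l27273 : Lb := (@Lb.d (nat_lit 8) (nat_lit 258) (nat_lit 128) (@Lb.g g9 (@Lb.g g11 (@Lb.r r1379 (@Lb.r r24 (@Lb.r r1381 (@Lb.r r2194 (@Lb.d (nat_lit 617) (nat_lit 68) (nat_lit 138) (@Lb.fp (nat_lit 3) t61)))))))))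
noncomputable def l27274 : Lb := (@Lb.d (nat_lit 0) (nat_lit 549) (nat_lit 101) (@Lb.r r402 (@Lb.r r101 (@Lb.r r24 (@Lb.g g7 (@Lb.d (nat_lit 0) (nat_lit 0) (nat_lit 68) (@Lb.t (@Lb.fp (nat_lit 3) t312))))))))
noncomputable def l27275 : Lb := (@Lb.r r323 (@Lb.d (nat_lit 0) (nat_lit 2) (nat_lit 32) (@Lb.g g9 (@Lb.g g6 (@Lb.r r387 (@Lb.r r97 (@Lb.d (nat_lit 0) (nat_lit 9) (nat_lit 16) (@Lb.fm (nat_lit 3) t87))))))))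
noncomputable def l27276 : Lb := (@Lb.d (nat_lit 6) (nat_lit 618) (nat_lit 73) (@Lb.r r673 (@Lb.r r683 (@Lb.r r612 (@Lb.r r346 (@Lb.g g7 (@Lb.g g6 (@Lb.g g5 (@Lb.d (nat_lit 4) (nat_lit 1) (nat_lit 65) (@Lb.t (@Lb.fp (nat_lit 9) t51)))))))))))
noncomputable def l27277 : Lb := (@Lb.d (nat_lit 512) (nat_lit 261) (nat_lit 260) (@Lb.r r386 (@Lb.r r2647 (@Lb.r r281 (@Lb.g g7 (@Lb.g g6 (@Lb.g g8 (@Lb.d (nat_lit 0) (nat_lit 0) (nat_lit 1) (@Lb.t (@Lb.fm (nat_lit 9) t2832))))))))))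
noncomputable def l27278 : Lb := (@Lb.d (nat_lit 272) (nat_lit 68) (nat_lit 1) (@Lb.g g8 (@Lb.g g9 (@Lb.g g10 (@Lb.r r1707 (@Lb.r r618 (@Lb.d (nat_lit 613) (nat_lit 154) (nat_lit 297) (@Lb.t (@Lb.fp (nat_lit 9) t2656)))))))))
noncomputable def l27279 : Lb := (@Lb.g g8 (@Lb.r r267 (@Lb.r r2458 (@Lb.r r1432 (@Lb.r r1125 (@Lb.d (nat_lit 256) (nat_lit 353) (nat_lit 640) (@Lb.t (@Lb.fm (nat_lit 3) t915))))))))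
noncomputable def l27280 : Lb := (@Lb.d (nat_lit 0) (nat_lit 522) (nat_lit 72) (@Lb.g g9 (@Lb.g g11 (@Lb.r r2370 (@Lb.r r2459 (@Lb.r r1557 (@Lb.d (nat_lit 65) (nat_lit 2) (nat_lit 610) (@Lb.fm (nat_lit 3) t5075))))))))
noncomputable def l27281 : Lb := (@Lb.d (nat_lit 0) (nat_lit 512) (nat_lit 72) (@Lb.g g9 (@Lb.g g11 (@Lb.r r2370 (@Lb.r r2459 (@Lb.r r1557 (@Lb.d (nat_lit 386) (nat_lit 64) (nat_lit 418) (@Lb.fm (nat_lit 3) t5076))))))))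
noncomputable def l27282 : Lb := (@Lb.d (nat_lit 2) (nat_lit 512) (nat_lit 0) (@Lb.g g8 (@Lb.r r267 (@Lb.r r2458 (@Lb.r r1432 (@Lb.r r1125 (@Lb.d (nat_lit 256) (nat_lit 97) (nat_lit 640) (@Lb.t (@Lb.fm (nat_lit 3) t915)))))))))
noncomputable def l27283 : Lb := (@Lb.d (nat_lit 512) (nat_lit 517) (nat_lit 68) (@Lb.r r1666 (@Lb.r r2475 (@Lb.r r281 (@Lb.g g7 (@Lb.g g10 (@Lb.g g8 (@Lb.d (nat_lit 0) (nat_lit 4) (nat_lit 1) (@Lb.t (@Lb.fm (nat_lit 9) t2832))))))))))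
noncomputable def l27284 : Lb := (@Lb.d (nat_lit 160) (nat_lit 256) (nat_lit 66) (@Lb.g g10 (@Lb.g g11 (@Lb.r r1304 (@Lb.r r2407 (@Lb.r r2650 (@Lb.r r1061 (@Lb.d (nat_lit 320) (nat_lit 73) (nat_lit 409) (@Lb.fm (nat_lit 3) t5077)))))))))
noncomputable def l27285 : Lb := (@Lb.d (nat_lit 8) (nat_lit 258) (nat_lit 0) (@Lb.g g5 (@Lb.r r2603 (@Lb.r r168 (@Lb.r r602 (@Lb.r r673 (@Lb.d (nat_lit 321) (nat_lit 10) (nat_lit 137) (@Lb.t (@Lb.fp (nat_lit 3) t2030)))))))))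
noncomputable def l27286 : Lb := (@Lb.r r82 (@Lb.r r1299 (@Lb.d (nat_lit 2) (nat_lit 581) (nat_lit 0) (@Lb.g g8 (@Lb.g g5 (@Lb.r r1426 (@Lb.r r1608 (@Lb.d (nat_lit 610) (nat_lit 1) (nat_lit 394) (@Lb.fp (nat_lit 3) t1246)))))))))
noncomputable def l27287 : Lb := (@Lb.d (nat_lit 38) (nat_lit 512) (nat_lit 134) (@Lb.g g8 (@Lb.g g9 (@Lb.g g10 (@Lb.g g7 (@Lb.r r1441 (@Lb.r r1122 (@Lb.r r2072 (@Lb.d (nat_lit 266) (nat_lit 85) (nat_lit 88) (@Lb.fm (nat_lit 9) t3360))))))))))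
noncomputable def l27288 : Lb := (@Lb.d (nat_lit 136) (nat_lit 260) (nat_lit 128) (@Lb.g g9 (@Lb.g g10 (@Lb.g g11 (@Lb.r r1606 (@Lb.r r20 (@Lb.r r409 (@Lb.r r611 (@Lb.d (nat_lit 609) (nat_lit 89) (nat_lit 162) (@Lb.t (@Lb.fp (nat_lit 9) t4963)))))))))))
noncomputable def l27289 : Lb := (@Lb.r r323 (@Lb.d (nat_lit 4) (nat_lit 2) (nat_lit 18) (@Lb.g g8 (@Lb.g g9 (@Lb.g g6 (@Lb.r r579 (@Lb.r r1049 (@Lb.d (nat_lit 521) (nat_lit 65) (nat_lit 84) (@Lb.t (@Lb.fm (nat_lit 9) t2))))))))))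
noncomputable def l27290 : Lb := (@Lb.d (nat_lit 5) (nat_lit 72) (nat_lit 69) (@Lb.r r289 (@Lb.r r279 (@Lb.r r584 (@Lb.g g6 (@Lb.g g5 (@Lb.d (nat_lit 20) (nat_lit 1) (nat_lit 1) (@Lb.r r387 (@Lb.fm (nat_lit 3) t74)))))))))
noncomputable def l27291 : Lb := (@Lb.d (nat_lit 258) (nat_lit 168) (nat_lit 345) (@Lb.r r1681 (@Lb.r r1691 (@Lb.r r1624 (@Lb.r r1446 (@Lb.g g6 (@Lb.g g5 (@Lb.d (nat_lit 4) (nat_lit 21) (nat_lit 2) (@Lb.r r387 (@Lb.fp (nat_lit 3) t51))))))))))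
noncomputable def l27292 : Lb := (@Lb.d (nat_lit 518) (nat_lit 582) (nat_lit 33) (@Lb.r r1105 (@Lb.r r2214 (@Lb.r r1368 (@Lb.r r1703 (@Lb.g g7 (@Lb.g g6 (@Lb.g g5 (@Lb.d (nat_lit 0) (nat_lit 17) (nat_lit 72) (@Lb.t (@Lb.fm (nat_lit 9) t51)))))))))))
noncomputable def l27293 : Lb := (@Lb.r r21 (@Lb.r r323 (@Lb.d (nat_lit 2) (nat_lit 0) (nat_lit 2) (@Lb.g g8 (@Lb.g g10 (@Lb.r r410 (@Lb.r r2635 (@Lb.r r2580 (@Lb.r r25 (@Lb.d (nat_lit 516) (nat_lit 2) (nat_lit 576) (@Lb.fm (nat_lit 3) t1371)))))))))))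
noncomputable def l27294 : Lb := (@Lb.d (nat_lit 4) (nat_lit 514) (nat_lit 2) (@Lb.g g8 (@Lb.g g9 (@Lb.g g10 (@Lb.r r1667 (@Lb.r r578 (@Lb.r r1049 (@Lb.d (nat_lit 521) (nat_lit 65) (nat_lit 420) (@Lb.t (@Lb.fp (nat_lit 9) t2))))))))))
noncomputable def l27295 : Lb := (@Lb.d (nat_lit 2) (nat_lit 342) (nat_lit 340) (@Lb.r r1362 (@Lb.g g7 (@Lb.g g6 (@Lb.g g5 (@Lb.g g8 (@Lb.d (nat_lit 0) (nat_lit 0) (nat_lit 65) (@Lb.fm (nat_lit 9) t5078))))))))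
noncomputable def l27296 : Lb := (@Lb.d (nat_lit 400) (nat_lit 358) (nat_lit 360) (@Lb.r r1610 (@Lb.r r360 (@Lb.r r2571 (@Lb.g g6 (@Lb.g g5 (@Lb.g g4 (@Lb.d (nat_lit 1) (nat_lit 25) (nat_lit 2) (@Lb.t (@Lb.fp (nat_lit 9) t5079))))))))))
noncomputable def l27297 : Lb := (@Lb.r r323 (@Lb.d (nat_lit 2) (nat_lit 265) (nat_lit 1) (@Lb.g g8 (@Lb.g g9 (@Lb.g g10 (@Lb.r r1706 (@Lb.r r2711 (@Lb.r r2325 (@Lb.r r24 (@Lb.d (nat_lit 576) (nat_lit 97) (nat_lit 338) (@Lb.t (@Lb.fp (nat_lit 9) t5080))))))))))))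
noncomputable def l27298 : Lb := (@Lb.d (nat_lit 401) (nat_lit 5) (nat_lit 20) (@Lb.r r2374 (@Lb.r r1684 (@Lb.r r2393 (@Lb.r r2723 (@Lb.g g6 (@Lb.g g5 (@Lb.g g4 (@Lb.d (nat_lit 1) (nat_lit 8) (nat_lit 0) (@Lb.t (@Lb.fm (nat_lit 9) t1641)))))))))))
noncomputable def l27299 : Lb := (@Lb.r r323 (@Lb.d (nat_lit 394) (nat_lit 512) (nat_lit 4) (@Lb.g g8 (@Lb.g g6 (@Lb.r r2659 (@Lb.d (nat_lit 0) (nat_lit 146) (nat_lit 17) (@Lb.fm (nat_lit 3) t5081)))))))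
noncomputable def l27300 : Lb := (@Lb.r r21 (@Lb.d (nat_lit 32) (nat_lit 256) (nat_lit 73) (@Lb.g g8 (@Lb.g g10 (@Lb.g g11 (@Lb.r r2721 (@Lb.r r619 (@Lb.r r1162 (@Lb.r r2372 (@Lb.d (nat_lit 298) (nat_lit 128) (nat_lit 618) (@Lb.t (@Lb.fp (nat_lit 9) t125))))))))))))
noncomputable def l27301 : Lb := (@Lb.r r323 (@Lb.d (nat_lit 0) (nat_lit 256) (nat_lit 21) (@Lb.g g10 (@Lb.r r1419 (@Lb.r r1557 (@Lb.r r1416 (@Lb.d (nat_lit 530) (nat_lit 0) (nat_lit 17) (@Lb.t (@Lb.fm (nat_lit 3) t1743)))))))))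
noncomputable def l27302 : Lb := (@Lb.d (nat_lit 580) (nat_lit 261) (nat_lit 676) (@Lb.r r2657 (@Lb.r r2214 (@Lb.r r663 (@Lb.g g7 (@Lb.g g6 (@Lb.g g5 (@Lb.g g8 (@Lb.d (nat_lit 329) (nat_lit 5) (nat_lit 130) (@Lb.fp (nat_lit 9) t5082))))))))))
noncomputable def l27303 : Lb := (@Lb.d (nat_lit 136) (nat_lit 266) (nat_lit 64) (@Lb.g g9 (@Lb.g g11 (@Lb.r r152 (@Lb.r r2650 (@Lb.r r1371 (@Lb.r r1685 (@Lb.d (nat_lit 38) (nat_lit 41) (nat_lit 266) (@Lb.fp (nat_lit 3) t1641)))))))))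
noncomputable def l27304 : Lb := (@Lb.r r1543 (@Lb.r r2376 (@Lb.r r1158 (@Lb.r r1169 (@Lb.fm (nat_lit 1) t296)))))
noncomputable def l27305 : Lb := (@Lb.d (nat_lit 1) (nat_lit 322) (nat_lit 2) (@Lb.g g4 (@Lb.g g9 (@Lb.g g10 (@Lb.g g11 (@Lb.r r419 (@Lb.r r98 (@Lb.d (nat_lit 1) (nat_lit 9) (nat_lit 137) (@Lb.fm (nat_lit 9) t51)))))))))
noncomputable def l27306 : Lb := (@Lb.d (nat_lit 0) (nat_lit 512) (nat_lit 5) (@Lb.g g6 (@Lb.g g11 (@Lb.r r2659 (@Lb.r r101 (@Lb.r r24 (@Lb.d (nat_lit 161) (nat_lit 0) (nat_lit 389) (@Lb.fm (nat_lit 3) t592))))))))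
noncomputable def l27307 : Lb := (@Lb.d (nat_lit 0) (nat_lit 545) (nat_lit 0) (@Lb.g g9 (@Lb.r r339 (@Lb.r r2658 (@Lb.r r609 (@Lb.d (nat_lit 0) (nat_lit 41) (nat_lit 586) (@Lb.t (@Lb.fm (nat_lit 3) t5083))))))))
noncomputable def l27308 : Lb := (@Lb.r r90 (@Lb.r r283 (@Lb.d (nat_lit 38) (nat_lit 416) (nat_lit 0) (@Lb.g g8 (@Lb.g g9 (@Lb.r r1555 (@Lb.r r70 (@Lb.r r1668 (@Lb.d (nat_lit 417) (nat_lit 2) (nat_lit 550) (@Lb.fp (nat_lit 3) t321))))))))))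
noncomputable def l27309 : Lb := (@Lb.g g4 (@Lb.g g6 (@Lb.g g11 (@Lb.r r2378 (@Lb.r r2439 (@Lb.d (nat_lit 96) (nat_lit 256) (nat_lit 354) (@Lb.t (@Lb.fm (nat_lit 9) t282))))))))
noncomputable def l27310 : Lb := (@Lb.d (nat_lit 0) (nat_lit 256) (nat_lit 136) (@Lb.g g4 (@Lb.g g7 (@Lb.r r1690 (@Lb.r r667 (@Lb.d (nat_lit 666) (nat_lit 85) (nat_lit 89) (@Lb.fm (nat_lit 3) t4530)))))))
noncomputable def l27311 : Lb := (@Lb.r r21 (@Lb.d (nat_lit 385) (nat_lit 8) (nat_lit 130) (@Lb.g g8 (@Lb.g g10 (@Lb.g g11 (@Lb.r r1419 (@Lb.r r101 (@Lb.r r410 (@Lb.d (nat_lit 8) (nat_lit 154) (nat_lit 650) (@Lb.t (@Lb.fm (nat_lit 9) t4285)))))))))))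
noncomputable def l27312 : Lb := (@Lb.r r323 (@Lb.d (nat_lit 0) (nat_lit 0) (nat_lit 2) (@Lb.g g4 (@Lb.g g10 (@Lb.r r1670 (@Lb.r r387 (@Lb.d (nat_lit 544) (nat_lit 0) (nat_lit 292) (@Lb.fm (nat_lit 3) t1025))))))))
noncomputable def l27313 : Lb := (@Lb.d (nat_lit 1) (nat_lit 0) (nat_lit 0) (@Lb.g g4 (@Lb.r r1291 (@Lb.r r1098 (@Lb.r r1049 (@Lb.d (nat_lit 2) (nat_lit 66) (nat_lit 0) (@Lb.t (@Lb.fm (nat_lit 3) t284))))))))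
noncomputable def l27314 : Lb := (@Lb.d (nat_lit 2) (nat_lit 514) (nat_lit 73) (@Lb.g g8 (@Lb.g g9 (@Lb.g g10 (@Lb.g g11 (@Lb.r r1671 (@Lb.r r153 (@Lb.r r2642 (@Lb.r r2193 (@Lb.d (nat_lit 420) (nat_lit 96) (nat_lit 106) (@Lb.fm (nat_lit 9) t504)))))))))))
noncomputable def l27315 : Lb := (@Lb.d (nat_lit 5) (nat_lit 512) (nat_lit 0) (@Lb.g g4 (@Lb.r r101 (@Lb.r r402 (@Lb.d (nat_lit 1) (nat_lit 0) (nat_lit 154) (@Lb.t (@Lb.fm (nat_lit 3) t590)))))))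
noncomputable def l27316 : Lb := (@Lb.r r1045 (@Lb.r r1094 (@Lb.r r1287 (@Lb.d (nat_lit 1) (nat_lit 0) (nat_lit 0) (@Lb.g g4 (@Lb.d (nat_lit 2) (nat_lit 0) (nat_lit 0) (@Lb.t (@Lb.fm (nat_lit 3) t428))))))))
noncomputable def l27317 : Lb := (@Lb.d (nat_lit 36) (nat_lit 513) (nat_lit 69) (@Lb.r r273 (@Lb.r r583 (@Lb.r r264 (@Lb.r r386 (@Lb.g g7 (@Lb.g g5 (@Lb.d (nat_lit 64) (nat_lit 0) (nat_lit 64) (@Lb.fp (nat_lit 3) t355)))))))))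
noncomputable def l27318 : Lb := (@Lb.d (nat_lit 106) (nat_lit 265) (nat_lit 329) (@Lb.r r153 (@Lb.r r88 (@Lb.r r422 (@Lb.r r1371 (@Lb.g g7 (@Lb.g g6 (@Lb.g g5 (@Lb.d (nat_lit 4) (nat_lit 0) (nat_lit 73) (@Lb.t (@Lb.fp (nat_lit 9) t5084)))))))))))
noncomputable def l27319 : Lb := (@Lb.d (nat_lit 2) (nat_lit 514) (nat_lit 137) (@Lb.g g8 (@Lb.g g9 (@Lb.g g10 (@Lb.g g11 (@Lb.r r2471 (@Lb.r r424 (@Lb.r r106 (@Lb.r r25 (@Lb.d (nat_lit 648) (nat_lit 9) (nat_lit 89) (@Lb.fm (nat_lit 9) t5085)))))))))))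
noncomputable def l27320 : Lb := (@Lb.d (nat_lit 406) (nat_lit 106) (nat_lit 168) (@Lb.r r2458 (@Lb.r r2129 (@Lb.r r1351 (@Lb.g g7 (@Lb.g g6 (@Lb.g g5 (@Lb.g g8 (@Lb.d (nat_lit 548) (nat_lit 9) (nat_lit 66) (@Lb.fp (nat_lit 9) t5086))))))))))
noncomputable def l27321 : Lb := (@Lb.d (nat_lit 0) (nat_lit 2) (nat_lit 73) (@Lb.g g8 (@Lb.g g9 (@Lb.g g10 (@Lb.g g11 (@Lb.r r2691 (@Lb.r r297 (@Lb.r r360 (@Lb.r r582 (@Lb.r r2180 (@Lb.d (nat_lit 164) (nat_lit 8) (nat_lit 360) (@Lb.fm (nat_lit 9) t2154))))))))))))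
noncomputable def l27322 : Lb := (@Lb.d (nat_lit 100) (nat_lit 106) (nat_lit 168) (@Lb.r r2458 (@Lb.r r2133 (@Lb.r r1351 (@Lb.g g7 (@Lb.g g6 (@Lb.g g5 (@Lb.g g4 (@Lb.d (nat_lit 281) (nat_lit 1) (nat_lit 65) (@Lb.fm (nat_lit 9) t5087))))))))))
noncomputable def l27323 : Lb := (@Lb.d (nat_lit 146) (nat_lit 682) (nat_lit 648) (@Lb.r r1426 (@Lb.r r2133 (@Lb.r r2371 (@Lb.g g7 (@Lb.g g6 (@Lb.g g5 (@Lb.g g4 (@Lb.d (nat_lit 281) (nat_lit 8) (nat_lit 64) (@Lb.fm (nat_lit 9) t5013))))))))))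
noncomputable def l27324 : Lb := (@Lb.d (nat_lit 0) (nat_lit 2) (nat_lit 130) (@Lb.g g8 (@Lb.g g9 (@Lb.g g10 (@Lb.g g11 (@Lb.r r2691 (@Lb.r r1350 (@Lb.r r97 (@Lb.r r1432 (@Lb.d (nat_lit 278) (nat_lit 70) (nat_lit 162) (@Lb.fm (nat_lit 9) t5088)))))))))))
noncomputable def l27325 : Lb := (@Lb.d (nat_lit 296) (nat_lit 73) (nat_lit 17) (@Lb.r r289 (@Lb.r r1626 (@Lb.r r1384 (@Lb.r r2711 (@Lb.g g7 (@Lb.g g6 (@Lb.d (nat_lit 16) (nat_lit 0) (nat_lit 64) (@Lb.fp (nat_lit 3) t41)))))))))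
noncomputable def l27326 : Lb := (@Lb.d (nat_lit 128) (nat_lit 0) (nat_lit 128) (@Lb.g g11 (@Lb.r r134 (@Lb.r r264 (@Lb.r r599 (@Lb.r r289 (@Lb.d (nat_lit 26) (nat_lit 9) (nat_lit 2) (@Lb.t (@Lb.fp (nat_lit 3) t51)))))))))
noncomputable def l27327 : Lb := (@Lb.d (nat_lit 66) (nat_lit 266) (nat_lit 666) (@Lb.r r2378 (@Lb.r r2408 (@Lb.r r2137 (@Lb.r r339 (@Lb.g g7 (@Lb.g g6 (@Lb.g g5 (@Lb.d (nat_lit 0) (nat_lit 24) (nat_lit 128) (@Lb.t (@Lb.fm (nat_lit 9) t5089)))))))))))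
noncomputable def l27328 : Lb := (@Lb.d (nat_lit 2) (nat_lit 9) (nat_lit 10) (@Lb.g g8 (@Lb.g g9 (@Lb.g g10 (@Lb.r r1555 (@Lb.r r297 (@Lb.r r1700 (@Lb.r r1670 (@Lb.d (nat_lit 130) (nat_lit 5) (nat_lit 522) (@Lb.t (@Lb.fp (nat_lit 9) t2842)))))))))))
noncomputable def l27329 : Lb := (@Lb.r r322 (@Lb.d (nat_lit 0) (nat_lit 522) (nat_lit 576) (@Lb.g g8 (@Lb.g g9 (@Lb.g g7 (@Lb.r r594 (@Lb.r r421 (@Lb.r r24 (@Lb.d (nat_lit 537) (nat_lit 2) (nat_lit 42) (@Lb.t (@Lb.fp (nat_lit 9) t991)))))))))))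
noncomputable def l27330 : Lb := (@Lb.d (nat_lit 0) (nat_lit 2) (nat_lit 66) (@Lb.g g8 (@Lb.g g9 (@Lb.g g10 (@Lb.g g7 (@Lb.r r386 (@Lb.r r97 (@Lb.d (nat_lit 5) (nat_lit 10) (nat_lit 137) (@Lb.fm (nat_lit 9) t285)))))))))
noncomputable def l27331 : Lb := (@Lb.r r70 (@Lb.d (nat_lit 2) (nat_lit 2) (nat_lit 0) (@Lb.g g8 (@Lb.g g9 (@Lb.g g11 (@Lb.r r1177 (@Lb.r r2450 (@Lb.r r579 (@Lb.r r2312 (@Lb.d (nat_lit 521) (nat_lit 2) (nat_lit 640) (@Lb.t (@Lb.fp (nat_lit 9) t443))))))))))))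
noncomputable def l27332 : Lb := (@Lb.d (nat_lit 2) (nat_lit 1) (nat_lit 64) (@Lb.g g8 (@Lb.g g9 (@Lb.g g11 (@Lb.r r2391 (@Lb.r r1700 (@Lb.r r1190 (@Lb.r r1173 (@Lb.d (nat_lit 553) (nat_lit 74) (nat_lit 169) (@Lb.t (@Lb.fp (nat_lit 9) t881)))))))))))
noncomputable def l27333 : Lb := (@Lb.r r82 (@Lb.d (nat_lit 2) (nat_lit 546) (nat_lit 64) (@Lb.g g8 (@Lb.g g9 (@Lb.g g11 (@Lb.r r537 (@Lb.r r531 (@Lb.r r386 (@Lb.d (nat_lit 129) (nat_lit 86) (nat_lit 648) (@Lb.t (@Lb.fm (nat_lit 9) t2852)))))))))))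
noncomputable def l27334 : Lb := (@Lb.g g4 (@Lb.g g5 (@Lb.g g7 (@Lb.r r1687 (@Lb.r r2408 (@Lb.r r1174 (@Lb.r r2153 (@Lb.d (nat_lit 18) (nat_lit 389) (nat_lit 17) (@Lb.t (@Lb.fp (nat_lit 9) t881))))))))))
noncomputable def l27335 : Lb := (@Lb.r r275 (@Lb.d (nat_lit 0) (nat_lit 260) (nat_lit 0) (@Lb.g g9 (@Lb.g g10 (@Lb.r r675 (@Lb.r r578 (@Lb.r r417 (@Lb.r r24 (@Lb.d (nat_lit 10) (nat_lit 129) (nat_lit 137) (@Lb.fp (nat_lit 3) t1436))))))))))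
noncomputable def l27336 : Lb := (@Lb.d (nat_lit 2) (nat_lit 2) (nat_lit 130) (@Lb.g g8 (@Lb.g g9 (@Lb.g g10 (@Lb.g g11 (@Lb.r r427 (@Lb.r r420 (@Lb.r r102 (@Lb.r r97 (@Lb.r r36 (@Lb.d (nat_lit 9) (nat_lit 137) (nat_lit 17) (@Lb.fm (nat_lit 9) t356))))))))))))
noncomputable def l27337 : Lb := (@Lb.d (nat_lit 1) (nat_lit 0) (nat_lit 66) (@Lb.g g8 (@Lb.g g10 (@Lb.g g7 (@Lb.r r386 (@Lb.r r2073 (@Lb.d (nat_lit 33) (nat_lit 5) (nat_lit 42) (@Lb.t (@Lb.fm (nat_lit 9) t382)))))))))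
noncomputable def l27338 : Lb := (@Lb.d (nat_lit 682) (nat_lit 529) (nat_lit 20) (@Lb.r r2650 (@Lb.r r1352 (@Lb.r r2711 (@Lb.r r361 (@Lb.g g7 (@Lb.g g6 (@Lb.d (nat_lit 16) (nat_lit 4) (nat_lit 65) (@Lb.fp (nat_lit 3) t584)))))))))
noncomputable def l27339 : Lb := (@Lb.d (nat_lit 0) (nat_lit 4) (nat_lit 105) (@Lb.g g6 (@Lb.g g11 (@Lb.r r579 (@Lb.r r101 (@Lb.d (nat_lit 360) (nat_lit 165) (nat_lit 545) (@Lb.fp (nat_lit 3) t1149)))))))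
noncomputable def l27340 : Lb := (@Lb.d (nat_lit 0) (nat_lit 9) (nat_lit 129) (@Lb.g g8 (@Lb.g g9 (@Lb.g g10 (@Lb.g g11 (@Lb.r r1699 (@Lb.r r358 (@Lb.r r36 (@Lb.r r2581 (@Lb.r r36 (@Lb.d (nat_lit 408) (nat_lit 106) (nat_lit 593) (@Lb.fm (nat_lit 9) t202))))))))))))
noncomputable def l27341 : Lb := (@Lb.d (nat_lit 128) (nat_lit 514) (nat_lit 130) (@Lb.g g9 (@Lb.g g10 (@Lb.g g11 (@Lb.r r264 (@Lb.r r2583 (@Lb.r r106 (@Lb.r r97 (@Lb.d (nat_lit 261) (nat_lit 65) (nat_lit 612) (@Lb.t (@Lb.fp (nat_lit 9) t781)))))))))))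
noncomputable def l27342 : Lb := (@Lb.d (nat_lit 4) (nat_lit 256) (nat_lit 130) (@Lb.g g8 (@Lb.g g9 (@Lb.g g10 (@Lb.g g11 (@Lb.r r582 (@Lb.r r392 (@Lb.r r1319 (@Lb.r r1313 (@Lb.r r36 (@Lb.d (nat_lit 617) (nat_lit 70) (nat_lit 17) (@Lb.fp (nat_lit 9) t171))))))))))))
noncomputable def l27343 : Lb := (@Lb.d (nat_lit 164) (nat_lit 258) (nat_lit 64) (@Lb.g g8 (@Lb.g g9 (@Lb.g g11 (@Lb.r r1643 (@Lb.r r1430 (@Lb.r r1625 (@Lb.r r596 (@Lb.d (nat_lit 22) (nat_lit 38) (nat_lit 680) (@Lb.t (@Lb.fm (nat_lit 9) t5090)))))))))))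
noncomputable def l27344 : Lb := (@Lb.d (nat_lit 4) (nat_lit 290) (nat_lit 130) (@Lb.g g8 (@Lb.g g9 (@Lb.g g10 (@Lb.g g11 (@Lb.r r387 (@Lb.r r1169 (@Lb.r r2454 (@Lb.r r36 (@Lb.d (nat_lit 660) (nat_lit 160) (nat_lit 68) (@Lb.fm (nat_lit 9) t4022)))))))))))
noncomputable def l27345 : Lb := (@Lb.d (nat_lit 64) (nat_lit 0) (nat_lit 72) (@Lb.g g11 (@Lb.r r394 (@Lb.r r420 (@Lb.r r597 (@Lb.r r2387 (@Lb.d (nat_lit 2) (nat_lit 18) (nat_lit 665) (@Lb.t (@Lb.fm (nat_lit 3) t5091)))))))))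
noncomputable def l27346 : Lb := (@Lb.r r81 (@Lb.r r323 (@Lb.d (nat_lit 0) (nat_lit 256) (nat_lit 33) (@Lb.g g8 (@Lb.g g6 (@Lb.r r2331 (@Lb.r r37 (@Lb.d (nat_lit 256) (nat_lit 68) (nat_lit 1) (@Lb.fm (nat_lit 3) t58)))))))))
noncomputable def l27347 : Lb := (@Lb.d (nat_lit 64) (nat_lit 256) (nat_lit 72) (@Lb.g g11 (@Lb.r r394 (@Lb.r r420 (@Lb.r r597 (@Lb.r r2387 (@Lb.d (nat_lit 4) (nat_lit 21) (nat_lit 666) (@Lb.t (@Lb.fm (nat_lit 3) t5091)))))))))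
noncomputable def l27348 : Lb := (@Lb.r r21 (@Lb.d (nat_lit 34) (nat_lit 8) (nat_lit 130) (@Lb.g g8 (@Lb.g g10 (@Lb.g g11 (@Lb.r r2475 (@Lb.r r533 (@Lb.r r1384 (@Lb.r r2150 (@Lb.d (nat_lit 265) (nat_lit 16) (nat_lit 165) (@Lb.t (@Lb.fp (nat_lit 9) t5092))))))))))))
noncomputable def l27349 : Lb := (@Lb.d (nat_lit 0) (nat_lit 0) (nat_lit 66) (@Lb.g g10 (@Lb.g g7 (@Lb.r r2465 (@Lb.r r2154 (@Lb.r r36 (@Lb.d (nat_lit 392) (nat_lit 164) (nat_lit 344) (@Lb.fm (nat_lit 3) t5093))))))))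
noncomputable def l27350 : Lb := (@Lb.d (nat_lit 149) (nat_lit 134) (nat_lit 265) (@Lb.r r20 (@Lb.r r97 (@Lb.r r346 (@Lb.g g7 (@Lb.g g5 (@Lb.d (nat_lit 64) (nat_lit 1) (nat_lit 584) (@Lb.fp (nat_lit 3) t3396))))))))
noncomputable def l27351 : Lb := (@Lb.g g7 (@Lb.r r20 (@Lb.r r2329 (@Lb.r r551 (@Lb.r r2658 (@Lb.d (nat_lit 580) (nat_lit 321) (nat_lit 576) (@Lb.t (@Lb.fp (nat_lit 3) t5094))))))))
noncomputable def l27352 : Lb := (@Lb.r r275 (@Lb.d (nat_lit 4) (nat_lit 257) (nat_lit 2) (@Lb.g g8 (@Lb.g g9 (@Lb.g g10 (@Lb.r r1689 (@Lb.r r1563 (@Lb.r r1604 (@Lb.r r2122 (@Lb.d (nat_lit 593) (nat_lit 10) (nat_lit 358) (@Lb.t (@Lb.fp (nat_lit 9) t3023))))))))))))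
noncomputable def l27353 : Lb := (@Lb.r r82 (@Lb.d (nat_lit 646) (nat_lit 0) (nat_lit 64) (@Lb.g g4 (@Lb.g g9 (@Lb.g g11 (@Lb.r r679 (@Lb.r r1701 (@Lb.r r2658 (@Lb.d (nat_lit 544) (nat_lit 134) (nat_lit 85) (@Lb.t (@Lb.fp (nat_lit 9) t5095)))))))))))
noncomputable def l27354 : Lb := (@Lb.d (nat_lit 0) (nat_lit 256) (nat_lit 73) (@Lb.g g10 (@Lb.g g11 (@Lb.r r2721 (@Lb.r r419 (@Lb.r r2726 (@Lb.r r2564 (@Lb.d (nat_lit 650) (nat_lit 86) (nat_lit 584) (@Lb.fm (nat_lit 3) t5096)))))))))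
noncomputable def l27355 : Lb := (@Lb.d (nat_lit 22) (nat_lit 5) (nat_lit 266) (@Lb.r r20 (@Lb.r r1686 (@Lb.r r407 (@Lb.g g6 (@Lb.g g9 (@Lb.d (nat_lit 0) (nat_lit 146) (nat_lit 4) (@Lb.fm (nat_lit 3) t5097))))))))
noncomputable def l27356 : Lb := (@Lb.d (nat_lit 148) (nat_lit 0) (nat_lit 73) (@Lb.g g8 (@Lb.g g9 (@Lb.g g10 (@Lb.g g11 (@Lb.r r2647 (@Lb.r r2726 (@Lb.r r97 (@Lb.r r408 (@Lb.d (nat_lit 148) (nat_lit 101) (nat_lit 393) (@Lb.fp (nat_lit 9) t5098)))))))))))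
noncomputable def l27357 : Lb := (@Lb.d (nat_lit 101) (nat_lit 90) (nat_lit 262) (@Lb.r r597 (@Lb.r r296 (@Lb.r r418 (@Lb.g g11 (@Lb.g g6 (@Lb.g g5 (@Lb.g g4 (@Lb.d (nat_lit 1) (nat_lit 18) (nat_lit 257) (@Lb.fm (nat_lit 9) t3457))))))))))
noncomputable def l27358 : Lb := (@Lb.r r21 (@Lb.d (nat_lit 0) (nat_lit 544) (nat_lit 128) (@Lb.g g8 (@Lb.g g11 (@Lb.r r1361 (@Lb.r r2731 (@Lb.r r2178 (@Lb.r r536 (@Lb.d (nat_lit 24) (nat_lit 69) (nat_lit 529) (@Lb.fp (nat_lit 3) t1222))))))))))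
noncomputable def l27359 : Lb := (@Lb.r r323 (@Lb.d (nat_lit 41) (nat_lit 256) (nat_lit 2) (@Lb.g g8 (@Lb.g g9 (@Lb.g g10 (@Lb.r r2347 (@Lb.r r2626 (@Lb.r r401 (@Lb.r r36 (@Lb.d (nat_lit 362) (nat_lit 25) (nat_lit 68) (@Lb.t (@Lb.fm (nat_lit 9) t5099))))))))))))
noncomputable def l27360 : Lb := (@Lb.d (nat_lit 100) (nat_lit 85) (nat_lit 358) (@Lb.r r1702 (@Lb.r r2725 (@Lb.r r2723 (@Lb.g g10 (@Lb.g g8 (@Lb.d (nat_lit 320) (nat_lit 4) (nat_lit 5) (@Lb.fp (nat_lit 3) t4894))))))))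
noncomputable def l27361 : Lb := (@Lb.d (nat_lit 0) (nat_lit 260) (nat_lit 1) (@Lb.g g6 (@Lb.r r1427 (@Lb.d (nat_lit 0) (nat_lit 102) (nat_lit 613) (@Lb.t (@Lb.fm (nat_lit 3) t44))))))
noncomputable def l27362 : Lb := (@Lb.d (nat_lit 2) (nat_lit 2) (nat_lit 4) (@Lb.g g8 (@Lb.g g9 (@Lb.g g10 (@Lb.g g11 (@Lb.r r427 (@Lb.r r386 (@Lb.r r25 (@Lb.d (nat_lit 9) (nat_lit 137) (nat_lit 393) (@Lb.fm (nat_lit 9) t51))))))))))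
noncomputable def l27363 : Lb := (@Lb.d (nat_lit 153) (nat_lit 521) (nat_lit 129) (@Lb.g g8 (@Lb.g g9 (@Lb.g g10 (@Lb.g g11 (@Lb.r r324 (@Lb.r r1707 (@Lb.r r2713 (@Lb.r r1540 (@Lb.d (nat_lit 677) (nat_lit 149) (nat_lit 42) (@Lb.fm (nat_lit 9) t3010)))))))))))
noncomputable def l27364 : Lb := (@Lb.d (nat_lit 0) (nat_lit 2) (nat_lit 130) (@Lb.g g9 (@Lb.g g10 (@Lb.g g11 (@Lb.r r427 (@Lb.r r1442 (@Lb.r r1433 (@Lb.d (nat_lit 325) (nat_lit 89) (nat_lit 393) (@Lb.t (@Lb.fp (nat_lit 9) t5100))))))))))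
noncomputable def l27365 : Lb := (@Lb.d (nat_lit 402) (nat_lit 65) (nat_lit 101) (@Lb.r r97 (@Lb.r r2370 (@Lb.r r1687 (@Lb.g g7 (@Lb.g g6 (@Lb.g g8 (@Lb.d (nat_lit 34) (nat_lit 0) (nat_lit 64) (@Lb.r r25 (@Lb.t (@Lb.fm (nat_lit 9) t5101)))))))))))
noncomputable def l27366 : Lb := (@Lb.d (nat_lit 1) (nat_lit 256) (nat_lit 130) (@Lb.g g8 (@Lb.g g9 (@Lb.g g10 (@Lb.g g11 (@Lb.r r618 (@Lb.r r612 (@Lb.r r615 (@Lb.r r1637 (@Lb.d (nat_lit 409) (nat_lit 18) (nat_lit 656) (@Lb.fp (nat_lit 9) t5102)))))))))))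
noncomputable def l27367 : Lb := (@Lb.d (nat_lit 0) (nat_lit 10) (nat_lit 1) (@Lb.g g9 (@Lb.g g10 (@Lb.r r1169 (@Lb.r r146 (@Lb.d (nat_lit 0) (nat_lit 136) (nat_lit 17) (@Lb.fp (nat_lit 3) t3129)))))))
noncomputable def l27368 : Lb := (@Lb.r r21 (@Lb.d (nat_lit 41) (nat_lit 512) (nat_lit 129) (@Lb.g g8 (@Lb.g g10 (@Lb.g g11 (@Lb.r r411 (@Lb.r r2645 (@Lb.r r1130 (@Lb.r r1700 (@Lb.d (nat_lit 281) (nat_lit 38) (nat_lit 264) (@Lb.t (@Lb.fm (nat_lit 9) t5103))))))))))))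
noncomputable def l27369 : Lb := (@Lb.r r21 (@Lb.d (nat_lit 10) (nat_lit 0) (nat_lit 130) (@Lb.g g8 (@Lb.g g10 (@Lb.g g11 (@Lb.r r411 (@Lb.r r2645 (@Lb.r r1130 (@Lb.r r1124 (@Lb.d (nat_lit 426) (nat_lit 26) (nat_lit 546) (@Lb.t (@Lb.fm (nat_lit 9) t2675))))))))))))
noncomputable def l27370 : Lb := (@Lb.d (nat_lit 0) (nat_lit 514) (nat_lit 130) (@Lb.g g9 (@Lb.g g10 (@Lb.g g11 (@Lb.r r427 (@Lb.r r1442 (@Lb.r r1433 (@Lb.d (nat_lit 326) (nat_lit 89) (nat_lit 393) (@Lb.t (@Lb.fp (nat_lit 9) t5100))))))))))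
noncomputable def l27371 : Lb := (@Lb.d (nat_lit 2) (nat_lit 258) (nat_lit 130) (@Lb.g g8 (@Lb.g g9 (@Lb.g g10 (@Lb.g g11 (@Lb.r r1387 (@Lb.r r1442 (@Lb.r r660 (@Lb.r r425 (@Lb.r r2084 (@Lb.d (nat_lit 602) (nat_lit 66) (nat_lit 106) (@Lb.fp (nat_lit 9) t1387))))))))))))
noncomputable def l27372 : Lb := (@Lb.d (nat_lit 678) (nat_lit 258) (nat_lit 645) (@Lb.r r2129 (@Lb.r r1126 (@Lb.r r2403 (@Lb.r r345 (@Lb.g g7 (@Lb.g g6 (@Lb.g g5 (@Lb.g g8 (@Lb.d (nat_lit 320) (nat_lit 1) (nat_lit 129) (@Lb.fm (nat_lit 9) t2761)))))))))))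
noncomputable def l27373 : Lb := (@Lb.d (nat_lit 0) (nat_lit 586) (nat_lit 514) (@Lb.r r402 (@Lb.g g11 (@Lb.g g9 (@Lb.fp (nat_lit 3) t1249)))))
noncomputable def l27374 : Lb := (@Lb.d (nat_lit 1) (nat_lit 66) (nat_lit 74) (@Lb.g g4 (@Lb.g g9 (@Lb.g g10 (@Lb.g g11 (@Lb.r r610 (@Lb.r r579 (@Lb.d (nat_lit 1) (nat_lit 33) (nat_lit 74) (@Lb.fp (nat_lit 9) t51)))))))))
noncomputable def l27375 : Lb := (@Lb.d (nat_lit 1) (nat_lit 578) (nat_lit 73) (@Lb.g g4 (@Lb.g g9 (@Lb.g g10 (@Lb.g g11 (@Lb.r r2658 (@Lb.r r579 (@Lb.d (nat_lit 1) (nat_lit 97) (nat_lit 586) (@Lb.fp (nat_lit 9) t51)))))))))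
noncomputable def l27376 : Lb := (@Lb.d (nat_lit 153) (nat_lit 32) (nat_lit 133) (@Lb.r r545 (@Lb.r r331 (@Lb.r r264 (@Lb.r r106 (@Lb.g g7 (@Lb.g g5 (@Lb.d (nat_lit 64) (nat_lit 5) (nat_lit 64) (@Lb.fm (nat_lit 3) t2)))))))))
noncomputable def l27377 : Lb := (@Lb.d (nat_lit 0) (nat_lit 32) (nat_lit 64) (@Lb.r r545 (@Lb.r r299 (@Lb.r r424 (@Lb.r r106 (@Lb.g g5 (@Lb.d (nat_lit 0) (nat_lit 5) (nat_lit 0) (@Lb.t (@Lb.fm (nat_lit 3) t2)))))))))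
noncomputable def l27378 : Lb := (@Lb.d (nat_lit 1) (nat_lit 361) (nat_lit 132) (@Lb.r r82 (@Lb.r r417 (@Lb.g g11 (@Lb.g g6 (@Lb.g g4 (@Lb.d (nat_lit 10) (nat_lit 0) (nat_lit 129) (@Lb.r r25 (@Lb.t (@Lb.fp (nat_lit 9) t714))))))))))
noncomputable def l27379 : Lb := (@Lb.d (nat_lit 32) (nat_lit 4) (nat_lit 88) (@Lb.g g6 (@Lb.g g11 (@Lb.r r1639 (@Lb.r r24 (@Lb.d (nat_lit 98) (nat_lit 64) (nat_lit 544) (@Lb.fp (nat_lit 3) t282)))))))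
noncomputable def l27380 : Lb := (@Lb.d (nat_lit 8) (nat_lit 514) (nat_lit 0) (@Lb.g g9 (@Lb.g g10 (@Lb.r r1319 (@Lb.r r1414 (@Lb.r r24 (@Lb.d (nat_lit 258) (nat_lit 137) (nat_lit 258) (@Lb.fm (nat_lit 3) t1122))))))))
noncomputable def l27381 : Lb := (@Lb.d (nat_lit 16) (nat_lit 520) (nat_lit 164) (@Lb.g g10 (@Lb.g g7 (@Lb.r r2069 (@Lb.r r8 (@Lb.d (nat_lit 152) (nat_lit 26) (nat_lit 417) (@Lb.fm (nat_lit 3) t2933)))))))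
noncomputable def l27382 : Lb := (@Lb.d (nat_lit 8) (nat_lit 2) (nat_lit 0) (@Lb.g g9 (@Lb.g g10 (@Lb.r r1319 (@Lb.r r1414 (@Lb.r r24 (@Lb.d (nat_lit 256) (nat_lit 130) (nat_lit 256) (@Lb.fm (nat_lit 3) t1122))))))))
noncomputable def l27383 : Lb := (@Lb.d (nat_lit 2) (nat_lit 2) (nat_lit 4) (@Lb.g g8 (@Lb.g g9 (@Lb.g g10 (@Lb.g g11 (@Lb.r r529 (@Lb.r r275 (@Lb.r r618 (@Lb.r r1553 (@Lb.r r2120 (@Lb.d (nat_lit 41) (nat_lit 65) (nat_lit 674) (@Lb.fm (nat_lit 9) t471))))))))))))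
noncomputable def l27384 : Lb := (@Lb.r r2579 (@Lb.r r2194 (@Lb.r r2069 (@Lb.r r8 (@Lb.d (nat_lit 0) (nat_lit 645) (nat_lit 6) (@Lb.fm (nat_lit 1) t2675))))))
noncomputable def l27385 : Lb := (@Lb.d (nat_lit 144) (nat_lit 256) (nat_lit 534) (@Lb.r r2116 (@Lb.r r2579 (@Lb.r r1381 (@Lb.r r1178 (@Lb.g g10 (@Lb.g g4 (@Lb.fm (nat_lit 3) t3614))))))))
noncomputable def l27386 : Lb := (@Lb.d (nat_lit 41) (nat_lit 0) (nat_lit 0) (@Lb.g g8 (@Lb.r r667 (@Lb.r r1173 (@Lb.r r150 (@Lb.r r2408 (@Lb.d (nat_lit 32) (nat_lit 169) (nat_lit 422) (@Lb.t (@Lb.fm (nat_lit 3) t5104)))))))))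
noncomputable def l27387 : Lb := (@Lb.d (nat_lit 9) (nat_lit 640) (nat_lit 73) (@Lb.g g8 (@Lb.g g5 (@Lb.g g10 (@Lb.g g11 (@Lb.r r2707 (@Lb.r r1176 (@Lb.r r1626 (@Lb.d (nat_lit 649) (nat_lit 100) (nat_lit 582) (@Lb.fm (nat_lit 9) t5105))))))))))
noncomputable def l27388 : Lb := (@Lb.d (nat_lit 277) (nat_lit 584) (nat_lit 612) (@Lb.r r1110 (@Lb.r r343 (@Lb.g g7 (@Lb.g g6 (@Lb.g g5 (@Lb.g g4 (@Lb.d (nat_lit 322) (nat_lit 134) (nat_lit 130) (@Lb.fp (nat_lit 9) t5106)))))))))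
noncomputable def l27389 : Lb := (@Lb.d (nat_lit 8) (nat_lit 514) (nat_lit 2) (@Lb.g g8 (@Lb.g g9 (@Lb.g g10 (@Lb.r r1705 (@Lb.r r2475 (@Lb.r r386 (@Lb.r r2120 (@Lb.d (nat_lit 553) (nat_lit 138) (nat_lit 328) (@Lb.t (@Lb.fp (nat_lit 9) t5107)))))))))))
noncomputable def l27390 : Lb := (@Lb.d (nat_lit 640) (nat_lit 520) (nat_lit 10) (@Lb.g g4 (@Lb.g g6 (@Lb.r r2723 (@Lb.r r2725 (@Lb.r r1702 (@Lb.d (nat_lit 145) (nat_lit 168) (nat_lit 665) (@Lb.fp (nat_lit 3) t430))))))))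
noncomputable def l27391 : Lb := (@Lb.r r70 (@Lb.d (nat_lit 1) (nat_lit 37) (nat_lit 0) (@Lb.g g8 (@Lb.g g5 (@Lb.r r1547 (@Lb.r r1178 (@Lb.r r1560 (@Lb.d (nat_lit 536) (nat_lit 74) (nat_lit 100) (@Lb.fm (nat_lit 3) t68)))))))))
noncomputable def l27392 : Lb := (@Lb.d (nat_lit 9) (nat_lit 1) (nat_lit 73) (@Lb.g g8 (@Lb.g g9 (@Lb.g g10 (@Lb.g g11 (@Lb.r r1699 (@Lb.r r1193 (@Lb.r r1188 (@Lb.r r1638 (@Lb.d (nat_lit 404) (nat_lit 101) (nat_lit 356) (@Lb.fp (nat_lit 9) t1146)))))))))))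
noncomputable def l27393 : Lb := (@Lb.d (nat_lit 9) (nat_lit 262) (nat_lit 74) (@Lb.g g8 (@Lb.g g9 (@Lb.g g10 (@Lb.g g11 (@Lb.r r1699 (@Lb.r r1160 (@Lb.r r1610 (@Lb.r r37 (@Lb.d (nat_lit 617) (nat_lit 90) (nat_lit 356) (@Lb.fm (nat_lit 9) t541)))))))))))
noncomputable def l27394 : Lb := (@Lb.d (nat_lit 10) (nat_lit 553) (nat_lit 660) (@Lb.r r1604 (@Lb.r r82 (@Lb.r r417 (@Lb.g g11 (@Lb.g g6 (@Lb.g g5 (@Lb.d (nat_lit 0) (nat_lit 1) (nat_lit 129) (@Lb.t (@Lb.fp (nat_lit 9) t2420))))))))))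
noncomputable def l27395 : Lb := (@Lb.d (nat_lit 640) (nat_lit 40) (nat_lit 128) (@Lb.g g4 (@Lb.g g10 (@Lb.g g11 (@Lb.r r2341 (@Lb.r r603 (@Lb.r r2370 (@Lb.d (nat_lit 104) (nat_lit 134) (nat_lit 21) (@Lb.t (@Lb.fp (nat_lit 9) t5108))))))))))
noncomputable def l27396 : Lb := (@Lb.r r70 (@Lb.d (nat_lit 129) (nat_lit 2) (nat_lit 64) (@Lb.g g8 (@Lb.g g9 (@Lb.g g11 (@Lb.r r1561 (@Lb.r r1691 (@Lb.r r664 (@Lb.r r2634 (@Lb.d (nat_lit 258) (nat_lit 74) (nat_lit 102) (@Lb.t (@Lb.fm (nat_lit 9) t3452))))))))))))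
noncomputable def l27397 : Lb := (@Lb.d (nat_lit 130) (nat_lit 256) (nat_lit 0) (@Lb.g g4 (@Lb.r r2469 (@Lb.r r603 (@Lb.r r2178 (@Lb.r r2708 (@Lb.d (nat_lit 72) (nat_lit 80) (nat_lit 96) (@Lb.t (@Lb.fp (nat_lit 3) t100)))))))))
noncomputable def l27398 : Lb := (@Lb.d (nat_lit 8) (nat_lit 514) (nat_lit 64) (@Lb.g g8 (@Lb.g g9 (@Lb.g g11 (@Lb.r r1543 (@Lb.r r2345 (@Lb.r r2468 (@Lb.r r2150 (@Lb.d (nat_lit 5) (nat_lit 145) (nat_lit 420) (@Lb.t (@Lb.fm (nat_lit 9) t1040)))))))))))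
noncomputable def l27399 : Lb := (@Lb.d (nat_lit 385) (nat_lit 325) (nat_lit 26) (@Lb.r r2325 (@Lb.r r598 (@Lb.r r683 (@Lb.g g7 (@Lb.g g6 (@Lb.g g5 (@Lb.g g4 (@Lb.d (nat_lit 8) (nat_lit 24) (nat_lit 133) (@Lb.fm (nat_lit 9) t309))))))))))
noncomputable def l27400 : Lb := (@Lb.d (nat_lit 129) (nat_lit 0) (nat_lit 0) (@Lb.g g8 (@Lb.r r2473 (@Lb.r r599 (@Lb.r r2178 (@Lb.r r1384 (@Lb.d (nat_lit 405) (nat_lit 165) (nat_lit 665) (@Lb.t (@Lb.fp (nat_lit 3) t100)))))))))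
noncomputable def l27401 : Lb := (@Lb.d (nat_lit 33) (nat_lit 258) (nat_lit 73) (@Lb.g g8 (@Lb.g g9 (@Lb.g g10 (@Lb.g g11 (@Lb.r r643 (@Lb.r r426 (@Lb.r r2337 (@Lb.r r1432 (@Lb.d (nat_lit 88) (nat_lit 137) (nat_lit 677) (@Lb.fp (nat_lit 9) t5109)))))))))))
noncomputable def l27402 : Lb := (@Lb.d (nat_lit 33) (nat_lit 514) (nat_lit 73) (@Lb.g g8 (@Lb.g g9 (@Lb.g g10 (@Lb.g g11 (@Lb.r r643 (@Lb.r r426 (@Lb.r r2337 (@Lb.r r1432 (@Lb.d (nat_lit 88) (nat_lit 137) (nat_lit 613) (@Lb.fp (nat_lit 9) t5110)))))))))))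
noncomputable def l27403 : Lb := (@Lb.r r21 (@Lb.d (nat_lit 0) (nat_lit 256) (nat_lit 138) (@Lb.g g8 (@Lb.g g10 (@Lb.g g7 (@Lb.r r593 (@Lb.r r106 (@Lb.r r612 (@Lb.d (nat_lit 410) (nat_lit 144) (nat_lit 136) (@Lb.t (@Lb.fp (nat_lit 9) t5111)))))))))))
noncomputable def l27404 : Lb := (@Lb.r r323 (@Lb.d (nat_lit 2) (nat_lit 9) (nat_lit 2) (@Lb.g g8 (@Lb.g g9 (@Lb.g g10 (@Lb.r r646 (@Lb.r r328 (@Lb.r r1575 (@Lb.r r1553 (@Lb.d (nat_lit 5) (nat_lit 41) (nat_lit 130) (@Lb.t (@Lb.fp (nat_lit 9) t842))))))))))))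
noncomputable def l27405 : Lb := (@Lb.d (nat_lit 32) (nat_lit 545) (nat_lit 4) (@Lb.g g9 (@Lb.g g10 (@Lb.g g11 (@Lb.r r1703 (@Lb.r r1685 (@Lb.r r100 (@Lb.r r410 (@Lb.d (nat_lit 338) (nat_lit 26) (nat_lit 517) (@Lb.t (@Lb.fm (nat_lit 9) t74)))))))))))
noncomputable def l27406 : Lb := (@Lb.d (nat_lit 0) (nat_lit 512) (nat_lit 66) (@Lb.g g10 (@Lb.g g7 (@Lb.r r386 (@Lb.r r101 (@Lb.r r24 (@Lb.d (nat_lit 34) (nat_lit 0) (nat_lit 9) (@Lb.fm (nat_lit 3) t40))))))))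
noncomputable def l27407 : Lb := (@Lb.d (nat_lit 0) (nat_lit 256) (nat_lit 66) (@Lb.g g10 (@Lb.g g7 (@Lb.r r386 (@Lb.r r101 (@Lb.r r24 (@Lb.d (nat_lit 32) (nat_lit 0) (nat_lit 9) (@Lb.fm (nat_lit 3) t167))))))))
noncomputable def l27408 : Lb := (@Lb.d (nat_lit 2) (nat_lit 545) (nat_lit 132) (@Lb.g g8 (@Lb.g g9 (@Lb.g g10 (@Lb.g g11 (@Lb.r r1706 (@Lb.r r676 (@Lb.r r551 (@Lb.r r533 (@Lb.r r1060 (@Lb.d (nat_lit 385) (nat_lit 2) (nat_lit 586) (@Lb.fp (nat_lit 9) t68))))))))))))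
noncomputable def l27409 : Lb := (@Lb.d (nat_lit 2) (nat_lit 514) (nat_lit 73) (@Lb.g g8 (@Lb.g g9 (@Lb.g g10 (@Lb.g g11 (@Lb.r r2705 (@Lb.r r279 (@Lb.r r2696 (@Lb.r r1610 (@Lb.d (nat_lit 609) (nat_lit 165) (nat_lit 290) (@Lb.fm (nat_lit 9) t3748)))))))))))
noncomputable def l27410 : Lb := (@Lb.d (nat_lit 81) (nat_lit 5) (nat_lit 66) (@Lb.r r20 (@Lb.r r89 (@Lb.r r20 (@Lb.r r418 (@Lb.g g11 (@Lb.g g6 (@Lb.g g5 (@Lb.g g4 (@Lb.d (nat_lit 1) (nat_lit 2) (nat_lit 5) (@Lb.fp (nat_lit 9) t714)))))))))))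
noncomputable def l27411 : Lb := (@Lb.d (nat_lit 88) (nat_lit 521) (nat_lit 64) (@Lb.r r168 (@Lb.r r89 (@Lb.r r402 (@Lb.g g11 (@Lb.g g6 (@Lb.g g4 (@Lb.d (nat_lit 5) (nat_lit 0) (nat_lit 5) (@Lb.t (@Lb.fm (nat_lit 9) t2791))))))))))
noncomputable def l27412 : Lb := (@Lb.d (nat_lit 146) (nat_lit 278) (nat_lit 66) (@Lb.r r273 (@Lb.r r338 (@Lb.r r679 (@Lb.g g7 (@Lb.g g6 (@Lb.g g5 (@Lb.g g8 (@Lb.d (nat_lit 10) (nat_lit 17) (nat_lit 65) (@Lb.fp (nat_lit 9) t31))))))))))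
noncomputable def l27413 : Lb := (@Lb.d (nat_lit 9) (nat_lit 258) (nat_lit 130) (@Lb.g g8 (@Lb.g g9 (@Lb.g g10 (@Lb.g g11 (@Lb.r r419 (@Lb.r r386 (@Lb.r r40 (@Lb.r r105 (@Lb.r r36 (@Lb.d (nat_lit 86) (nat_lit 8) (nat_lit 10) (@Lb.fm (nat_lit 9) t263))))))))))))
noncomputable def l27414 : Lb := (@Lb.d (nat_lit 40) (nat_lit 6) (nat_lit 74) (@Lb.g g8 (@Lb.g g9 (@Lb.g g10 (@Lb.g g11 (@Lb.r r675 (@Lb.r r164 (@Lb.r r661 (@Lb.r r150 (@Lb.r r36 (@Lb.d (nat_lit 32) (nat_lit 34) (nat_lit 73) (@Lb.fp (nat_lit 9) t355))))))))))))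
noncomputable def l27415 : Lb := (@Lb.d (nat_lit 33) (nat_lit 260) (nat_lit 74) (@Lb.g g8 (@Lb.g g9 (@Lb.g g10 (@Lb.g g11 (@Lb.r r675 (@Lb.r r164 (@Lb.r r661 (@Lb.r r150 (@Lb.r r36 (@Lb.d (nat_lit 32) (nat_lit 34) (nat_lit 130) (@Lb.fp (nat_lit 9) t98))))))))))))
noncomputable def l27416 : Lb := (@Lb.d (nat_lit 0) (nat_lit 258) (nat_lit 130) (@Lb.g g9 (@Lb.g g10 (@Lb.g g11 (@Lb.r r427 (@Lb.r r386 (@Lb.r r97 (@Lb.r r24 (@Lb.d (nat_lit 74) (nat_lit 4) (nat_lit 8) (@Lb.t (@Lb.fp (nat_lit 9) t263)))))))))))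
noncomputable def l27417 : Lb := (@Lb.d (nat_lit 160) (nat_lit 516) (nat_lit 66) (@Lb.g g8 (@Lb.g g9 (@Lb.g g10 (@Lb.g g11 (@Lb.r r683 (@Lb.r r618 (@Lb.r r1636 (@Lb.r r37 (@Lb.d (nat_lit 265) (nat_lit 101) (nat_lit 664) (@Lb.fp (nat_lit 9) t2964)))))))))))
noncomputable def l27418 : Lb := (@Lb.d (nat_lit 129) (nat_lit 4) (nat_lit 128) (@Lb.g g8 (@Lb.g g9 (@Lb.g g10 (@Lb.g g11 (@Lb.r r683 (@Lb.r r618 (@Lb.r r1572 (@Lb.r r37 (@Lb.d (nat_lit 297) (nat_lit 97) (nat_lit 673) (@Lb.fp (nat_lit 9) t2964)))))))))))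
noncomputable def l27419 : Lb := (@Lb.r r355 (@Lb.d (nat_lit 2) (nat_lit 258) (nat_lit 2) (@Lb.g g8 (@Lb.g g9 (@Lb.g g10 (@Lb.r r1636 (@Lb.r r519 (@Lb.r r1442 (@Lb.r r1441 (@Lb.d (nat_lit 5) (nat_lit 16) (nat_lit 105) (@Lb.t (@Lb.fp (nat_lit 9) t5098))))))))))))
noncomputable def l27420 : Lb := (@Lb.d (nat_lit 2) (nat_lit 512) (nat_lit 66) (@Lb.g g8 (@Lb.g g9 (@Lb.g g10 (@Lb.g g11 (@Lb.r r2630 (@Lb.r r2389 (@Lb.r r1432 (@Lb.r r2343 (@Lb.d (nat_lit 69) (nat_lit 97) (nat_lit 389) (@Lb.fm (nat_lit 9) t4908)))))))))))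
noncomputable def l27421 : Lb := (@Lb.d (nat_lit 2) (nat_lit 256) (nat_lit 5) (@Lb.g g8 (@Lb.g g9 (@Lb.g g6 (@Lb.g g11 (@Lb.r r579 (@Lb.r r36 (@Lb.d (nat_lit 6) (nat_lit 0) (nat_lit 129) (@Lb.fp (nat_lit 9) t2)))))))))
noncomputable def l27422 : Lb := (@Lb.d (nat_lit 2) (nat_lit 546) (nat_lit 6) (@Lb.g g8 (@Lb.g g9 (@Lb.g g10 (@Lb.g g11 (@Lb.r r1387 (@Lb.r r1442 (@Lb.r r36 (@Lb.r r149 (@Lb.r r1060 (@Lb.d (nat_lit 422) (nat_lit 105) (nat_lit 609) (@Lb.fm (nat_lit 9) t1383))))))))))))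
noncomputable def l27423 : Lb := (@Lb.r r323 (@Lb.d (nat_lit 2) (nat_lit 290) (nat_lit 2) (@Lb.g g8 (@Lb.g g9 (@Lb.g g10 (@Lb.r r275 (@Lb.r r74 (@Lb.r r616 (@Lb.r r537 (@Lb.d (nat_lit 72) (nat_lit 170) (nat_lit 642) (@Lb.t (@Lb.fp (nat_lit 9) t387))))))))))))
noncomputable def l27424 : Lb := (@Lb.d (nat_lit 536) (nat_lit 164) (nat_lit 342) (@Lb.r r402 (@Lb.g g7 (@Lb.g g8 (@Lb.d (nat_lit 0) (nat_lit 0) (nat_lit 68) (@Lb.fm (nat_lit 3) t5112))))))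
noncomputable def l27425 : Lb := (@Lb.d (nat_lit 2) (nat_lit 522) (nat_lit 66) (@Lb.g g8 (@Lb.t (@Lb.fp (nat_lit 3) t21))))
noncomputable def l27426 : Lb := (@Lb.d (nat_lit 0) (nat_lit 102) (nat_lit 358) (@Lb.r r404 (@Lb.r r2374 (@Lb.r r1691 (@Lb.g g7 (@Lb.g g9 (@Lb.g g4 (@Lb.d (nat_lit 8) (nat_lit 10) (nat_lit 64) (@Lb.r r74 (@Lb.t (@Lb.fp (nat_lit 9) t3193)))))))))))
noncomputable def l27427 : Lb := (@Lb.d (nat_lit 1) (nat_lit 9) (nat_lit 1) (@Lb.g g8 (@Lb.g g9 (@Lb.g g10 (@Lb.r r1555 (@Lb.r r297 (@Lb.r r1384 (@Lb.r r2630 (@Lb.d (nat_lit 418) (nat_lit 5) (nat_lit 358) (@Lb.t (@Lb.fp (nat_lit 9) t249)))))))))))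
noncomputable def l27428 : Lb := (@Lb.r r273 (@Lb.r r322 (@Lb.d (nat_lit 2) (nat_lit 512) (nat_lit 320) (@Lb.g g8 (@Lb.g g7 (@Lb.r r280 (@Lb.r r101 (@Lb.r r146 (@Lb.d (nat_lit 1) (nat_lit 0) (nat_lit 514) (@Lb.fm (nat_lit 3) t509))))))))))
noncomputable def l27429 : Lb := (@Lb.d (nat_lit 102) (nat_lit 406) (nat_lit 145) (@Lb.r r2149 (@Lb.r r1048 (@Lb.r r2635 (@Lb.r r338 (@Lb.g g7 (@Lb.g g6 (@Lb.g g5 (@Lb.d (nat_lit 4) (nat_lit 37) (nat_lit 65) (@Lb.t (@Lb.fm (nat_lit 9) t5113)))))))))))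
noncomputable def l27430 : Lb := (@Lb.d (nat_lit 640) (nat_lit 642) (nat_lit 256) (@Lb.r r293 (@Lb.r r600 (@Lb.r r2727 (@Lb.r r662 (@Lb.g g6 (@Lb.g g5 (@Lb.d (nat_lit 0) (nat_lit 0) (nat_lit 1) (@Lb.r r403 (@Lb.fm (nat_lit 3) t5114))))))))))
noncomputable def l27431 : Lb := (@Lb.r r21 (@Lb.d (nat_lit 129) (nat_lit 512) (nat_lit 130) (@Lb.g g8 (@Lb.g g10 (@Lb.g g11 (@Lb.r r419 (@Lb.r r132 (@Lb.r r2438 (@Lb.r r97 (@Lb.d (nat_lit 353) (nat_lit 24) (nat_lit 420) (@Lb.t (@Lb.fm (nat_lit 9) t2469))))))))))))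
noncomputable def l27432 : Lb := (@Lb.d (nat_lit 102) (nat_lit 406) (nat_lit 145) (@Lb.r r2149 (@Lb.r r1048 (@Lb.r r2635 (@Lb.r r338 (@Lb.g g7 (@Lb.g g6 (@Lb.g g5 (@Lb.d (nat_lit 4) (nat_lit 37) (nat_lit 70) (@Lb.t (@Lb.fm (nat_lit 9) t5115)))))))))))
noncomputable def l27433 : Lb := (@Lb.d (nat_lit 146) (nat_lit 258) (nat_lit 128) (@Lb.g g8 (@Lb.g g9 (@Lb.g g10 (@Lb.g g11 (@Lb.r r387 (@Lb.r r2465 (@Lb.r r344 (@Lb.r r1382 (@Lb.r r1156 (@Lb.d (nat_lit 85) (nat_lit 73) (nat_lit 394) (@Lb.fp (nat_lit 9) t5116))))))))))))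
noncomputable def l27434 : Lb := (@Lb.d (nat_lit 6) (nat_lit 281) (nat_lit 66) (@Lb.r r21 (@Lb.r r322 (@Lb.r r343 (@Lb.g g7 (@Lb.g g6 (@Lb.g g5 (@Lb.g g4 (@Lb.d (nat_lit 1) (nat_lit 1) (nat_lit 136) (@Lb.fp (nat_lit 9) t68))))))))))
noncomputable def l27435 : Lb := (@Lb.d (nat_lit 0) (nat_lit 520) (nat_lit 2) (@Lb.g g10 (@Lb.r r101 (@Lb.r r24 (@Lb.d (nat_lit 546) (nat_lit 0) (nat_lit 34) (@Lb.t (@Lb.fp (nat_lit 3) t313)))))))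
noncomputable def l27436 : Lb := (@Lb.d (nat_lit 0) (nat_lit 2) (nat_lit 73) (@Lb.g g9 (@Lb.g g10 (@Lb.g g11 (@Lb.r r1671 (@Lb.r r145 (@Lb.r r594 (@Lb.r r1169 (@Lb.d (nat_lit 536) (nat_lit 97) (nat_lit 586) (@Lb.t (@Lb.fp (nat_lit 9) t504)))))))))))
noncomputable def l27437 : Lb := (@Lb.d (nat_lit 32) (nat_lit 10) (nat_lit 0) (@Lb.g g8 (@Lb.g g9 (@Lb.r r582 (@Lb.r r579 (@Lb.r r536 (@Lb.r r533 (@Lb.d (nat_lit 2) (nat_lit 0) (nat_lit 128) (@Lb.fm (nat_lit 3) t1412)))))))))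
noncomputable def l27438 : Lb := (@Lb.d (nat_lit 2) (nat_lit 258) (nat_lit 66) (@Lb.g g8 (@Lb.g g9 (@Lb.g g10 (@Lb.g g7 (@Lb.r r386 (@Lb.r r97 (@Lb.d (nat_lit 0) (nat_lit 138) (nat_lit 9) (@Lb.fm (nat_lit 9) t126)))))))))

end Pool.Agent.MP_61a8e3_al.G4.K
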