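import Pool.Agent.MP_61a8e3_al.G4.KR
import Pool.Agent.MP_61a8e3_al.G4.KT0
import Pool.Agent.MP_61a8e3_al.G4.KT1

/-! Part K: labels, part 5. -/

set_option autoImplicit false
set_option maxRecDepth 100000
set_option linter.all false

namespace Pool.Agent.MP_61a8e3_al.G4.K

noncomputable def l27439 : Lb := (@Lb.d (nat_lit 88) (nat_lit 38) (nat_lit 102) (@Lb.r r359 (@Lb.r r532 (@Lb.r r1369 (@Lb.g g7 (@Lb.g g6 (@Lb.d (nat_lit 64) (nat_lit 8) (nat_lit 97) (@Lb.fm (nat_lit 3) t406))))))))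
noncomputable def l27440 : Lb := (@Lb.r r2311 (@Lb.r r2118 (@Lb.r r24 (@Lb.r r101 (@Lb.d (nat_lit 0) (nat_lit 5) (nat_lit 17) (@Lb.fp (nat_lit 1) t3059))))))
noncomputable def l27441 : Lb := (@Lb.r r323 (@Lb.d (nat_lit 166) (nat_lit 512) (nat_lit 2) (@Lb.g g8 (@Lb.g g9 (@Lb.g g10 (@Lb.r r2457 (@Lb.r r1319 (@Lb.r r1604 (@Lb.r r1098 (@Lb.d (nat_lit 342) (nat_lit 136) (nat_lit 136) (@Lb.t (@Lb.fm (nat_lit 9) t3464))))))))))))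
noncomputable def l27442 : Lb := (@Lb.r r21 (@Lb.r r323 (@Lb.d (nat_lit 417) (nat_lit 4) (nat_lit 2) (@Lb.g g8 (@Lb.g g10 (@Lb.r r1433 (@Lb.r r1707 (@Lb.r r1674 (@Lb.d (nat_lit 646) (nat_lit 136) (nat_lit 421) (@Lb.fm (nat_lit 3) t5117))))))))))
noncomputable def l27443 : Lb := (@Lb.d (nat_lit 32) (nat_lit 512) (nat_lit 130) (@Lb.g g10 (@Lb.g g11 (@Lb.r r2401 (@Lb.r r659 (@Lb.r r72 (@Lb.r r2710 (@Lb.d (nat_lit 405) (nat_lit 170) (nat_lit 665) (@Lb.fm (nat_lit 3) t100)))))))))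
noncomputable def l27444 : Lb := (@Lb.r r21 (@Lb.d (nat_lit 32) (nat_lit 256) (nat_lit 130) (@Lb.g g8 (@Lb.g g10 (@Lb.g g11 (@Lb.r r1350 (@Lb.r r2695 (@Lb.r r1553 (@Lb.r r1348 (@Lb.d (nat_lit 128) (nat_lit 0) (nat_lit 681) (@Lb.t (@Lb.fp (nat_lit 9) t1038))))))))))))
noncomputable def l27445 : Lb := (@Lb.d (nat_lit 0) (nat_lit 261) (nat_lit 70) (@Lb.g g6 (@Lb.t (@Lb.fm (nat_lit 3) t44))))
noncomputable def l27446 : Lb := (@Lb.d (nat_lit 0) (nat_lit 0) (nat_lit 69) (@Lb.g g10 (@Lb.g g7 (@Lb.r r402 (@Lb.d (nat_lit 0) (nat_lit 24) (nat_lit 66) (@Lb.fm (nat_lit 3) t71))))))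
noncomputable def l27447 : Lb := (@Lb.d (nat_lit 10) (nat_lit 520) (nat_lit 66) (@Lb.g g8 (@Lb.g g10 (@Lb.g g11 (@Lb.r r353 (@Lb.r r407 (@Lb.r r612 (@Lb.r r154 (@Lb.d (nat_lit 258) (nat_lit 10) (nat_lit 36) (@Lb.t (@Lb.fm (nat_lit 9) t127)))))))))))
noncomputable def l27448 : Lb := (@Lb.r r81 (@Lb.d (nat_lit 10) (nat_lit 32) (nat_lit 73) (@Lb.g g8 (@Lb.g g6 (@Lb.g g11 (@Lb.r r401 (@Lb.r r295 (@Lb.r r580 (@Lb.d (nat_lit 164) (nat_lit 133) (nat_lit 169) (@Lb.t (@Lb.fp (nat_lit 9) t4343)))))))))))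
noncomputable def l27449 : Lb := (@Lb.r r81 (@Lb.d (nat_lit 9) (nat_lit 544) (nat_lit 73) (@Lb.g g8 (@Lb.g g6 (@Lb.g g11 (@Lb.r r401 (@Lb.r r295 (@Lb.r r580 (@Lb.d (nat_lit 164) (nat_lit 133) (nat_lit 100) (@Lb.t (@Lb.fp (nat_lit 9) t4343)))))))))))
noncomputable def l27450 : Lb := (@Lb.d (nat_lit 0) (nat_lit 522) (nat_lit 64) (@Lb.g g9 (@Lb.g g11 (@Lb.r r2659 (@Lb.r r402 (@Lb.r r1617 (@Lb.d (nat_lit 352) (nat_lit 102) (nat_lit 680) (@Lb.fm (nat_lit 3) t2146))))))))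
noncomputable def l27451 : Lb := (@Lb.g g5 (@Lb.r r1126 (@Lb.r r24 (@Lb.d (nat_lit 577) (nat_lit 64) (nat_lit 512) (@Lb.t (@Lb.fp (nat_lit 3) t282))))))
noncomputable def l27452 : Lb := (@Lb.d (nat_lit 34) (nat_lit 514) (nat_lit 128) (@Lb.g g8 (@Lb.g g9 (@Lb.g g11 (@Lb.r r406 (@Lb.r r343 (@Lb.r r97 (@Lb.r r596 (@Lb.d (nat_lit 661) (nat_lit 33) (nat_lit 17) (@Lb.t (@Lb.fm (nat_lit 9) t61)))))))))))
noncomputable def l27453 : Lb := (@Lb.d (nat_lit 2) (nat_lit 514) (nat_lit 130) (@Lb.g g8 (@Lb.g g9 (@Lb.g g10 (@Lb.g g11 (@Lb.r r427 (@Lb.r r386 (@Lb.r r97 (@Lb.r r24 (@Lb.d (nat_lit 617) (nat_lit 9) (nat_lit 152) (@Lb.fm (nat_lit 9) t61)))))))))))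
noncomputable def l27454 : Lb := (@Lb.d (nat_lit 0) (nat_lit 0) (nat_lit 128) (@Lb.g g11 (@Lb.r r89 (@Lb.r r166 (@Lb.r r600 (@Lb.r r347 (@Lb.r r657 (@Lb.d (nat_lit 8) (nat_lit 146) (nat_lit 266) (@Lb.t (@Lb.fp (nat_lit 3) t210))))))))))
noncomputable def l27455 : Lb := (@Lb.d (nat_lit 9) (nat_lit 258) (nat_lit 128) (@Lb.g g8 (@Lb.g g9 (@Lb.g g10 (@Lb.g g11 (@Lb.r r1579 (@Lb.r r81 (@Lb.r r162 (@Lb.r r145 (@Lb.r r1608 (@Lb.d (nat_lit 97) (nat_lit 0) (nat_lit 537) (@Lb.fm (nat_lit 9) t1165))))))))))))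
noncomputable def l27456 : Lb := (@Lb.r r21 (@Lb.d (nat_lit 33) (nat_lit 256) (nat_lit 6) (@Lb.g g8 (@Lb.g g10 (@Lb.g g11 (@Lb.r r2635 (@Lb.r r610 (@Lb.r r97 (@Lb.r r1108 (@Lb.d (nat_lit 33) (nat_lit 34) (nat_lit 161) (@Lb.t (@Lb.fm (nat_lit 9) t718))))))))))))
noncomputable def l27457 : Lb := (@Lb.d (nat_lit 130) (nat_lit 674) (nat_lit 405) (@Lb.r r24 (@Lb.r r2325 (@Lb.r r355 (@Lb.g g10 (@Lb.g g5 (@Lb.d (nat_lit 0) (nat_lit 17) (nat_lit 34) (@Lb.r r387 (@Lb.fm (nat_lit 3) t1444)))))))))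
noncomputable def l27458 : Lb := (@Lb.d (nat_lit 513) (nat_lit 322) (nat_lit 0) (@Lb.r r24 (@Lb.r r322 (@Lb.r r1563 (@Lb.r r273 (@Lb.g g9 (@Lb.r r291 (@Lb.r r98 (@Lb.t (@Lb.fp (nat_lit 3) t536))))))))))
noncomputable def l27459 : Lb := (@Lb.d (nat_lit 0) (nat_lit 514) (nat_lit 66) (@Lb.g g9 (@Lb.g g10 (@Lb.g g7 (@Lb.r r2442 (@Lb.r r1125 (@Lb.r r8 (@Lb.d (nat_lit 352) (nat_lit 138) (nat_lit 537) (@Lb.t (@Lb.fm (nat_lit 9) t2058))))))))))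
noncomputable def l27460 : Lb := (@Lb.d (nat_lit 130) (nat_lit 2) (nat_lit 25) (@Lb.g g8 (@Lb.g g9 (@Lb.g g6 (@Lb.r r1385 (@Lb.r r2583 (@Lb.r r1320 (@Lb.d (nat_lit 645) (nat_lit 162) (nat_lit 328) (@Lb.t (@Lb.fm (nat_lit 9) t791))))))))))
noncomputable def l27461 : Lb := (@Lb.d (nat_lit 137) (nat_lit 513) (nat_lit 25) (@Lb.g g8 (@Lb.g g9 (@Lb.g g6 (@Lb.r r1385 (@Lb.r r2583 (@Lb.r r1320 (@Lb.d (nat_lit 645) (nat_lit 162) (nat_lit 262) (@Lb.t (@Lb.fm (nat_lit 9) t791))))))))))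
noncomputable def l27462 : Lb := (@Lb.d (nat_lit 330) (nat_lit 593) (nat_lit 644) (@Lb.r r1320 (@Lb.r r2583 (@Lb.r r1385 (@Lb.g g10 (@Lb.g g5 (@Lb.g g4 (@Lb.d (nat_lit 65) (nat_lit 8) (nat_lit 37) (@Lb.t (@Lb.fp (nat_lit 9) t564))))))))))
noncomputable def l27463 : Lb := (@Lb.r r323 (@Lb.d (nat_lit 1) (nat_lit 34) (nat_lit 2) (@Lb.g g8 (@Lb.g g9 (@Lb.g g10 (@Lb.r r599 (@Lb.r r392 (@Lb.r r74 (@Lb.d (nat_lit 17) (nat_lit 4) (nat_lit 89) (@Lb.t (@Lb.fm (nat_lit 9) t756)))))))))))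
noncomputable def l27464 : Lb := (@Lb.r r323 (@Lb.d (nat_lit 2) (nat_lit 546) (nat_lit 2) (@Lb.g g8 (@Lb.g g9 (@Lb.g g10 (@Lb.r r599 (@Lb.r r392 (@Lb.r r74 (@Lb.d (nat_lit 17) (nat_lit 4) (nat_lit 89) (@Lb.t (@Lb.fm (nat_lit 9) t756)))))))))))
noncomputable def l27465 : Lb := (@Lb.r r323 (@Lb.d (nat_lit 2) (nat_lit 290) (nat_lit 2) (@Lb.g g8 (@Lb.g g9 (@Lb.g g10 (@Lb.r r599 (@Lb.r r392 (@Lb.r r74 (@Lb.d (nat_lit 17) (nat_lit 4) (nat_lit 146) (@Lb.t (@Lb.fm (nat_lit 9) t756)))))))))))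
noncomputable def l27466 : Lb := (@Lb.d (nat_lit 2) (nat_lit 514) (nat_lit 130) (@Lb.g g8 (@Lb.g g9 (@Lb.g g10 (@Lb.g g11 (@Lb.r r1689 (@Lb.r r2579 (@Lb.r r386 (@Lb.d (nat_lit 289) (nat_lit 0) (nat_lit 169) (@Lb.fp (nat_lit 9) t791))))))))))
noncomputable def l27467 : Lb := (@Lb.d (nat_lit 2) (nat_lit 292) (nat_lit 132) (@Lb.g g8 (@Lb.g g9 (@Lb.g g10 (@Lb.g g11 (@Lb.r r2713 (@Lb.r r531 (@Lb.r r2722 (@Lb.d (nat_lit 105) (nat_lit 73) (nat_lit 337) (@Lb.fp (nat_lit 9) t892))))))))))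
noncomputable def l27468 : Lb := (@Lb.r r82 (@Lb.d (nat_lit 2) (nat_lit 0) (nat_lit 128) (@Lb.g g8 (@Lb.g g9 (@Lb.g g11 (@Lb.r r1323 (@Lb.r r2154 (@Lb.r r2073 (@Lb.d (nat_lit 265) (nat_lit 130) (nat_lit 0) (@Lb.t (@Lb.fm (nat_lit 9) t2083)))))))))))
noncomputable def l27469 : Lb := (@Lb.d (nat_lit 0) (nat_lit 288) (nat_lit 640) (@Lb.g g11 (@Lb.r r24 (@Lb.d (nat_lit 1) (nat_lit 80) (nat_lit 256) (@Lb.t (@Lb.fm (nat_lit 3) t2243))))))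
noncomputable def l27470 : Lb := (@Lb.d (nat_lit 9) (nat_lit 288) (nat_lit 640) (@Lb.g g8 (@Lb.g g11 (@Lb.d (nat_lit 0) (nat_lit 80) (nat_lit 256) (@Lb.fm (nat_lit 3) t2243)))))
noncomputable def l27471 : Lb := (@Lb.d (nat_lit 2) (nat_lit 288) (nat_lit 640) (@Lb.g g8 (@Lb.g g11 (@Lb.d (nat_lit 10) (nat_lit 80) (nat_lit 256) (@Lb.fm (nat_lit 3) t2243)))))
noncomputable def l27472 : Lb := (@Lb.d (nat_lit 1) (nat_lit 170) (nat_lit 386) (@Lb.r r2370 (@Lb.r r1427 (@Lb.r r386 (@Lb.g g7 (@Lb.g g6 (@Lb.g g5 (@Lb.d (nat_lit 4) (nat_lit 1) (nat_lit 129) (@Lb.t (@Lb.fm (nat_lit 9) t901))))))))))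
noncomputable def l27473 : Lb := (@Lb.d (nat_lit 1) (nat_lit 256) (nat_lit 66) (@Lb.g g8 (@Lb.g g9 (@Lb.g g10 (@Lb.g g11 (@Lb.r r1303 (@Lb.r r2713 (@Lb.r r2650 (@Lb.r r2628 (@Lb.d (nat_lit 401) (nat_lit 4) (nat_lit 426) (@Lb.fp (nat_lit 9) t528)))))))))))
noncomputable def l27474 : Lb := (@Lb.d (nat_lit 1) (nat_lit 266) (nat_lit 65) (@Lb.g g8 (@Lb.g g9 (@Lb.g g10 (@Lb.g g11 (@Lb.r r1303 (@Lb.r r2713 (@Lb.r r2650 (@Lb.r r2628 (@Lb.d (nat_lit 408) (nat_lit 1) (nat_lit 425) (@Lb.fp (nat_lit 9) t4455)))))))))))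
noncomputable def l27475 : Lb := (@Lb.r r331 (@Lb.d (nat_lit 32) (nat_lit 0) (nat_lit 1) (@Lb.g g8 (@Lb.g g9 (@Lb.g g10 (@Lb.r r2603 (@Lb.r r2713 (@Lb.r r2650 (@Lb.r r1624 (@Lb.d (nat_lit 358) (nat_lit 37) (nat_lit 665) (@Lb.t (@Lb.fm (nat_lit 9) t3238))))))))))))
noncomputable def l27476 : Lb := (@Lb.d (nat_lit 1) (nat_lit 514) (nat_lit 10) (@Lb.g g8 (@Lb.g g9 (@Lb.g g10 (@Lb.g g11 (@Lb.r r657 (@Lb.r r535 (@Lb.r r392 (@Lb.r r74 (@Lb.d (nat_lit 33) (nat_lit 5) (nat_lit 154) (@Lb.fp (nat_lit 9) t221)))))))))))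
noncomputable def l27477 : Lb := (@Lb.r r323 (@Lb.d (nat_lit 8) (nat_lit 2) (nat_lit 2) (@Lb.g g9 (@Lb.g g10 (@Lb.r r354 (@Lb.r r387 (@Lb.d (nat_lit 2) (nat_lit 38) (nat_lit 72) (@Lb.fm (nat_lit 3) t51))))))))
noncomputable def l27478 : Lb := (@Lb.d (nat_lit 9) (nat_lit 256) (nat_lit 64) (@Lb.g g8 (@Lb.g g11 (@Lb.r r337 (@Lb.r r679 (@Lb.r r340 (@Lb.r r170 (@Lb.r r153 (@Lb.d (nat_lit 293) (nat_lit 1) (nat_lit 162) (@Lb.fm (nat_lit 3) t127))))))))))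
noncomputable def l27479 : Lb := (@Lb.d (nat_lit 512) (nat_lit 677) (nat_lit 678) (@Lb.r r20 (@Lb.r r25 (@Lb.r r148 (@Lb.r r386 (@Lb.g g11 (@Lb.g g6 (@Lb.g g5 (@Lb.g g4 (@Lb.d (nat_lit 1) (nat_lit 1) (nat_lit 129) (@Lb.fp (nat_lit 9) t4966)))))))))))
noncomputable def l27480 : Lb := (@Lb.d (nat_lit 292) (nat_lit 389) (nat_lit 152) (@Lb.r r1560 (@Lb.r r1178 (@Lb.r r1547 (@Lb.g g9 (@Lb.g g4 (@Lb.d (nat_lit 1) (nat_lit 26) (nat_lit 0) (@Lb.r r74 (@Lb.fm (nat_lit 3) t524)))))))))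
noncomputable def l27481 : Lb := (@Lb.d (nat_lit 8) (nat_lit 514) (nat_lit 10) (@Lb.g g9 (@Lb.g g10 (@Lb.g g11 (@Lb.r r610 (@Lb.r r579 (@Lb.d (nat_lit 2) (nat_lit 33) (nat_lit 74) (@Lb.t (@Lb.fp (nat_lit 9) t51)))))))))
noncomputable def l27482 : Lb := (@Lb.r r323 (@Lb.d (nat_lit 1) (nat_lit 512) (nat_lit 21) (@Lb.g g8 (@Lb.g g10 (@Lb.r r1352 (@Lb.r r2439 (@Lb.r r537 (@Lb.d (nat_lit 418) (nat_lit 0) (nat_lit 25) (@Lb.fp (nat_lit 3) t4181)))))))))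
noncomputable def l27483 : Lb := (@Lb.r r323 (@Lb.d (nat_lit 32) (nat_lit 512) (nat_lit 2) (@Lb.g g10 (@Lb.r r584 (@Lb.r r619 (@Lb.r r609 (@Lb.d (nat_lit 10) (nat_lit 130) (nat_lit 70) (@Lb.t (@Lb.fm (nat_lit 3) t71)))))))))
noncomputable def l27484 : Lb := (@Lb.d (nat_lit 129) (nat_lit 0) (nat_lit 576) (@Lb.r r24 (@Lb.r r2661 (@Lb.r r2659 (@Lb.r r1362 (@Lb.g g7 (@Lb.g g6 (@Lb.g g5 (@Lb.d (nat_lit 0) (nat_lit 0) (nat_lit 65) (@Lb.t (@Lb.fm (nat_lit 9) t50)))))))))))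
noncomputable def l27485 : Lb := (@Lb.d (nat_lit 8) (nat_lit 514) (nat_lit 73) (@Lb.g g9 (@Lb.g g10 (@Lb.g g11 (@Lb.r r2658 (@Lb.r r579 (@Lb.d (nat_lit 2) (nat_lit 102) (nat_lit 584) (@Lb.t (@Lb.fp (nat_lit 9) t51)))))))))
noncomputable def l27486 : Lb := (@Lb.d (nat_lit 10) (nat_lit 521) (nat_lit 72) (@Lb.g g8 (@Lb.g g9 (@Lb.g g10 (@Lb.g g11 (@Lb.r r2327 (@Lb.r r2658 (@Lb.r r1689 (@Lb.r r1156 (@Lb.d (nat_lit 130) (nat_lit 166) (nat_lit 288) (@Lb.fp (nat_lit 9) t5118)))))))))))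
noncomputable def l27487 : Lb := (@Lb.d (nat_lit 2) (nat_lit 2) (nat_lit 130) (@Lb.g g8 (@Lb.g g9 (@Lb.g g10 (@Lb.g g11 (@Lb.r r610 (@Lb.r r1607 (@Lb.r r97 (@Lb.r r24 (@Lb.d (nat_lit 665) (nat_lit 66) (nat_lit 393) (@Lb.fm (nat_lit 9) t5119)))))))))))
noncomputable def l27488 : Lb := (@Lb.r r323 (@Lb.d (nat_lit 0) (nat_lit 546) (nat_lit 18) (@Lb.g g9 (@Lb.g g10 (@Lb.r r595 (@Lb.r r1321 (@Lb.r r8 (@Lb.d (nat_lit 133) (nat_lit 105) (nat_lit 294) (@Lb.fp (nat_lit 3) t646)))))))))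
noncomputable def l27489 : Lb := (@Lb.r r331 (@Lb.d (nat_lit 38) (nat_lit 0) (nat_lit 2) (@Lb.g g8 (@Lb.g g9 (@Lb.g g10 (@Lb.r r2635 (@Lb.r r658 (@Lb.r r2725 (@Lb.r r2584 (@Lb.d (nat_lit 410) (nat_lit 105) (nat_lit 145) (@Lb.t (@Lb.fm (nat_lit 9) t956))))))))))))
noncomputable def l27490 : Lb := (@Lb.d (nat_lit 73) (nat_lit 545) (nat_lit 66) (@Lb.g g8 (@Lb.g g9 (@Lb.g g10 (@Lb.g g11 (@Lb.r r2705 (@Lb.r r535 (@Lb.r r386 (@Lb.r r360 (@Lb.d (nat_lit 513) (nat_lit 154) (nat_lit 276) (@Lb.fm (nat_lit 9) t5120)))))))))))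
noncomputable def l27491 : Lb := (@Lb.r r148 (@Lb.d (nat_lit 0) (nat_lit 514) (nat_lit 73) (@Lb.g g9 (@Lb.g g10 (@Lb.g g11 (@Lb.r r610 (@Lb.r r579 (@Lb.r r2660 (@Lb.d (nat_lit 2) (nat_lit 97) (nat_lit 362) (@Lb.t (@Lb.fp (nat_lit 9) t5121)))))))))))
noncomputable def l27492 : Lb := (@Lb.r r21 (@Lb.d (nat_lit 2) (nat_lit 512) (nat_lit 66) (@Lb.g g8 (@Lb.g g10 (@Lb.g g11 (@Lb.r r2324 (@Lb.r r427 (@Lb.r r386 (@Lb.r r25 (@Lb.d (nat_lit 293) (nat_lit 162) (nat_lit 129) (@Lb.t (@Lb.fp (nat_lit 9) t5122))))))))))))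
noncomputable def l27493 : Lb := (@Lb.d (nat_lit 97) (nat_lit 292) (nat_lit 64) (@Lb.g g8 (@Lb.g g9 (@Lb.g g10 (@Lb.g g11 (@Lb.r r419 (@Lb.r r2694 (@Lb.r r2389 (@Lb.r r1172 (@Lb.d (nat_lit 298) (nat_lit 104) (nat_lit 70) (@Lb.fm (nat_lit 9) t5123)))))))))))
noncomputable def l27494 : Lb := (@Lb.r r21 (@Lb.r r331 (@Lb.d (nat_lit 677) (nat_lit 0) (nat_lit 2) (@Lb.g g8 (@Lb.g g10 (@Lb.r r362 (@Lb.r r1411 (@Lb.r r25 (@Lb.d (nat_lit 9) (nat_lit 32) (nat_lit 618) (@Lb.fm (nat_lit 3) t898))))))))))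
noncomputable def l27495 : Lb := (@Lb.d (nat_lit 528) (nat_lit 2) (nat_lit 64) (@Lb.g g8 (@Lb.g g9 (@Lb.g g11 (@Lb.r r1367 (@Lb.r r2178 (@Lb.r r1625 (@Lb.d (nat_lit 617) (nat_lit 105) (nat_lit 266) (@Lb.t (@Lb.fp (nat_lit 9) t4632))))))))))
noncomputable def l27496 : Lb := (@Lb.r r90 (@Lb.d (nat_lit 98) (nat_lit 674) (nat_lit 64) (@Lb.g g8 (@Lb.g g9 (@Lb.g g11 (@Lb.r r599 (@Lb.r r150 (@Lb.r r612 (@Lb.d (nat_lit 160) (nat_lit 26) (nat_lit 17) (@Lb.t (@Lb.fm (nat_lit 9) t5120)))))))))))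
noncomputable def l27497 : Lb := (@Lb.d (nat_lit 33) (nat_lit 514) (nat_lit 73) (@Lb.g g8 (@Lb.g g9 (@Lb.g g10 (@Lb.g g11 (@Lb.r r419 (@Lb.r r1177 (@Lb.r r1626 (@Lb.r r1540 (@Lb.d (nat_lit 404) (nat_lit 5) (nat_lit 616) (@Lb.fp (nat_lit 9) t168)))))))))))
noncomputable def l27498 : Lb := (@Lb.d (nat_lit 130) (nat_lit 258) (nat_lit 130) (@Lb.g g8 (@Lb.g g9 (@Lb.g g10 (@Lb.g g11 (@Lb.r r2666 (@Lb.r r612 (@Lb.r r1319 (@Lb.r r405 (@Lb.r r2084 (@Lb.d (nat_lit 408) (nat_lit 137) (nat_lit 580) (@Lb.fp (nat_lit 9) t1039))))))))))))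
noncomputable def l27499 : Lb := (@Lb.d (nat_lit 136) (nat_lit 520) (nat_lit 128) (@Lb.g g9 (@Lb.g g11 (@Lb.r r2202 (@Lb.r r260 (@Lb.r r1691 (@Lb.r r337 (@Lb.d (nat_lit 72) (nat_lit 80) (nat_lit 678) (@Lb.fm (nat_lit 3) t322)))))))))
noncomputable def l27500 : Lb := (@Lb.g g9 (@Lb.g g7 (@Lb.d (nat_lit 10) (nat_lit 258) (nat_lit 0) (@Lb.fp (nat_lit 3) t2))))
noncomputable def l27501 : Lb := (@Lb.d (nat_lit 136) (nat_lit 8) (nat_lit 128) (@Lb.g g9 (@Lb.g g11 (@Lb.r r2202 (@Lb.r r260 (@Lb.r r1691 (@Lb.r r337 (@Lb.d (nat_lit 74) (nat_lit 80) (nat_lit 678) (@Lb.fm (nat_lit 3) t322)))))))))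
noncomputable def l27502 : Lb := (@Lb.r r322 (@Lb.d (nat_lit 2) (nat_lit 0) (nat_lit 512) (@Lb.g g8 (@Lb.g g7 (@Lb.r r1610 (@Lb.r r1049 (@Lb.d (nat_lit 328) (nat_lit 64) (nat_lit 0) (@Lb.fp (nat_lit 3) t282))))))))
noncomputable def l27503 : Lb := (@Lb.r r1045 (@Lb.r r323 (@Lb.d (nat_lit 261) (nat_lit 520) (nat_lit 6) (@Lb.g g4 (@Lb.g g10 (@Lb.r r387 (@Lb.d (nat_lit 2) (nat_lit 68) (nat_lit 138) (@Lb.fp (nat_lit 3) t51))))))))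
noncomputable def l27504 : Lb := (@Lb.d (nat_lit 2) (nat_lit 256) (nat_lit 0) (@Lb.g g8 (@Lb.g g5 (@Lb.r r2311 (@Lb.d (nat_lit 72) (nat_lit 64) (nat_lit 512) (@Lb.fp (nat_lit 3) t1165))))))
noncomputable def l27505 : Lb := (@Lb.d (nat_lit 2) (nat_lit 257) (nat_lit 64) (@Lb.g g8 (@Lb.g g9 (@Lb.g g11 (@Lb.r r1363 (@Lb.r r134 (@Lb.r r2660 (@Lb.r r2581 (@Lb.d (nat_lit 136) (nat_lit 105) (nat_lit 642) (@Lb.t (@Lb.fp (nat_lit 9) t899)))))))))))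
noncomputable def l27506 : Lb := (@Lb.r r355 (@Lb.d (nat_lit 2) (nat_lit 170) (nat_lit 1) (@Lb.g g8 (@Lb.g g5 (@Lb.g g10 (@Lb.r r1347 (@Lb.r r2194 (@Lb.d (nat_lit 2) (nat_lit 86) (nat_lit 33) (@Lb.t (@Lb.fm (nat_lit 9) t1356))))))))))
noncomputable def l27507 : Lb := (@Lb.r r2315 (@Lb.r r1045 (@Lb.r r8 (@Lb.d (nat_lit 586) (nat_lit 576) (nat_lit 512) (@Lb.fm (nat_lit 1) t1165)))))
noncomputable def l27508 : Lb := (@Lb.d (nat_lit 0) (nat_lit 358) (nat_lit 534) (@Lb.r r20 (@Lb.r r338 (@Lb.r r1699 (@Lb.g g6 (@Lb.g g5 (@Lb.d (nat_lit 0) (nat_lit 2) (nat_lit 0) (@Lb.fp (nat_lit 3) t97))))))))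
noncomputable def l27509 : Lb := (@Lb.r r323 (@Lb.d (nat_lit 16) (nat_lit 520) (nat_lit 22) (@Lb.g g10 (@Lb.r r387 (@Lb.r r1045 (@Lb.r r8 (@Lb.d (nat_lit 522) (nat_lit 66) (nat_lit 137) (@Lb.t (@Lb.fm (nat_lit 3) t51)))))))))
noncomputable def l27510 : Lb := (@Lb.d (nat_lit 2) (nat_lit 1) (nat_lit 64) (@Lb.g g8 (@Lb.g g9 (@Lb.g g11 (@Lb.r r1363 (@Lb.r r134 (@Lb.r r2660 (@Lb.r r2581 (@Lb.d (nat_lit 137) (nat_lit 105) (nat_lit 642) (@Lb.t (@Lb.fp (nat_lit 9) t899)))))))))))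
noncomputable def l27511 : Lb := (@Lb.d (nat_lit 550) (nat_lit 294) (nat_lit 545) (@Lb.r r1125 (@Lb.r r1560 (@Lb.r r1611 (@Lb.r r338 (@Lb.g g7 (@Lb.g g6 (@Lb.g g5 (@Lb.d (nat_lit 4) (nat_lit 2) (nat_lit 65) (@Lb.t (@Lb.fm (nat_lit 9) t394)))))))))))
noncomputable def l27512 : Lb := (@Lb.r r1045 (@Lb.d (nat_lit 261) (nat_lit 264) (nat_lit 130) (@Lb.g g4 (@Lb.g g10 (@Lb.g g11 (@Lb.r r387 (@Lb.d (nat_lit 2) (nat_lit 66) (nat_lit 2) (@Lb.t (@Lb.fp (nat_lit 9) t51)))))))))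
noncomputable def l27513 : Lb := (@Lb.d (nat_lit 0) (nat_lit 521) (nat_lit 130) (@Lb.g g9 (@Lb.g g10 (@Lb.g g11 (@Lb.r r643 (@Lb.r r644 (@Lb.r r1366 (@Lb.r r2469 (@Lb.r r20 (@Lb.d (nat_lit 420) (nat_lit 33) (nat_lit 586) (@Lb.t (@Lb.fm (nat_lit 9) t162))))))))))))
noncomputable def l27514 : Lb := (@Lb.d (nat_lit 2) (nat_lit 1) (nat_lit 0) (@Lb.g g8 (@Lb.g g9 (@Lb.g g10 (@Lb.r r1699 (@Lb.r r610 (@Lb.d (nat_lit 1) (nat_lit 25) (nat_lit 297) (@Lb.t (@Lb.fp (nat_lit 9) t591)))))))))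
noncomputable def l27515 : Lb := (@Lb.d (nat_lit 0) (nat_lit 257) (nat_lit 0) (@Lb.g g9 (@Lb.g g10 (@Lb.r r1699 (@Lb.r r610 (@Lb.r r8 (@Lb.d (nat_lit 1) (nat_lit 25) (nat_lit 297) (@Lb.fm (nat_lit 3) t591))))))))
noncomputable def l27516 : Lb := (@Lb.d (nat_lit 0) (nat_lit 257) (nat_lit 0) (@Lb.g g8 (@Lb.g g9 (@Lb.g g10 (@Lb.r r1699 (@Lb.r r610 (@Lb.r r36 (@Lb.d (nat_lit 10) (nat_lit 25) (nat_lit 297) (@Lb.t (@Lb.fp (nat_lit 9) t591))))))))))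
noncomputable def l27517 : Lb := (@Lb.r r82 (@Lb.r r275 (@Lb.d (nat_lit 34) (nat_lit 282) (nat_lit 0) (@Lb.g g8 (@Lb.g g9 (@Lb.r r427 (@Lb.r r582 (@Lb.r r392 (@Lb.d (nat_lit 129) (nat_lit 9) (nat_lit 136) (@Lb.fp (nat_lit 3) t601))))))))))
noncomputable def l27518 : Lb := (@Lb.r r82 (@Lb.r r275 (@Lb.d (nat_lit 32) (nat_lit 538) (nat_lit 0) (@Lb.g g8 (@Lb.g g9 (@Lb.r r427 (@Lb.r r582 (@Lb.r r392 (@Lb.d (nat_lit 129) (nat_lit 9) (nat_lit 1) (@Lb.fp (nat_lit 3) t601))))))))))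
noncomputable def l27519 : Lb := (@Lb.d (nat_lit 289) (nat_lit 385) (nat_lit 518) (@Lb.r r2214 (@Lb.r r2709 (@Lb.r r1371 (@Lb.r r328 (@Lb.g g7 (@Lb.g g6 (@Lb.g g5 (@Lb.d (nat_lit 16) (nat_lit 1) (nat_lit 64) (@Lb.t (@Lb.fp (nat_lit 9) t1025)))))))))))
noncomputable def l27520 : Lb := (@Lb.d (nat_lit 289) (nat_lit 136) (nat_lit 280) (@Lb.r r2214 (@Lb.r r421 (@Lb.r r1687 (@Lb.r r328 (@Lb.g g7 (@Lb.g g6 (@Lb.g g5 (@Lb.d (nat_lit 20) (nat_lit 0) (nat_lit 64) (@Lb.t (@Lb.fp (nat_lit 9) t282)))))))))))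
noncomputable def l27521 : Lb := (@Lb.r r323 (@Lb.d (nat_lit 2) (nat_lit 4) (nat_lit 42) (@Lb.g g8 (@Lb.g g6 (@Lb.r r387 (@Lb.d (nat_lit 0) (nat_lit 82) (nat_lit 592) (@Lb.fp (nat_lit 3) t356)))))))
noncomputable def l27522 : Lb := (@Lb.d (nat_lit 393) (nat_lit 580) (nat_lit 273) (@Lb.r r2194 (@Lb.r r1381 (@Lb.r r2707 (@Lb.g g7 (@Lb.g g6 (@Lb.g g8 (@Lb.d (nat_lit 10) (nat_lit 4) (nat_lit 134) (@Lb.t (@Lb.fp (nat_lit 9) t1747))))))))))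
noncomputable def l27523 : Lb := (@Lb.r r20 (@Lb.d (nat_lit 0) (nat_lit 357) (nat_lit 132) (@Lb.g g5 (@Lb.g g10 (@Lb.g g11 (@Lb.r r2691 (@Lb.r r2198 (@Lb.r r1608 (@Lb.d (nat_lit 329) (nat_lit 64) (nat_lit 384) (@Lb.t (@Lb.fm (nat_lit 9) t3018)))))))))))
noncomputable def l27524 : Lb := (@Lb.d (nat_lit 146) (nat_lit 546) (nat_lit 132) (@Lb.g g8 (@Lb.g g9 (@Lb.g g10 (@Lb.g g11 (@Lb.r r2721 (@Lb.r r2343 (@Lb.r r2626 (@Lb.r r2180 (@Lb.d (nat_lit 602) (nat_lit 100) (nat_lit 649) (@Lb.fm (nat_lit 9) t328)))))))))))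
noncomputable def l27525 : Lb := (@Lb.r r283 (@Lb.d (nat_lit 1) (nat_lit 261) (nat_lit 0) (@Lb.g g8 (@Lb.g g9 (@Lb.g g10 (@Lb.r r683 (@Lb.r r1186 (@Lb.r r2385 (@Lb.r r600 (@Lb.d (nat_lit 154) (nat_lit 65) (nat_lit 610) (@Lb.t (@Lb.fp (nat_lit 9) t5124))))))))))))
noncomputable def l27526 : Lb := (@Lb.d (nat_lit 0) (nat_lit 290) (nat_lit 0) (@Lb.g g9 (@Lb.g g10 (@Lb.g g11 (@Lb.r r610 (@Lb.r r2659 (@Lb.r r2145 (@Lb.d (nat_lit 0) (nat_lit 168) (nat_lit 336) (@Lb.t (@Lb.fm (nat_lit 9) t917))))))))))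
noncomputable def l27527 : Lb := (@Lb.d (nat_lit 8) (nat_lit 514) (nat_lit 130) (@Lb.g g9 (@Lb.g g10 (@Lb.g g11 (@Lb.r r586 (@Lb.r r584 (@Lb.r r299 (@Lb.r r1425 (@Lb.d (nat_lit 293) (nat_lit 9) (nat_lit 137) (@Lb.t (@Lb.fp (nat_lit 9) t410)))))))))))
noncomputable def l27528 : Lb := (@Lb.d (nat_lit 8) (nat_lit 512) (nat_lit 132) (@Lb.g g9 (@Lb.g g10 (@Lb.g g11 (@Lb.r r2691 (@Lb.r r660 (@Lb.r r358 (@Lb.r r337 (@Lb.d (nat_lit 325) (nat_lit 21) (nat_lit 134) (@Lb.t (@Lb.fp (nat_lit 9) t1115)))))))))))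
noncomputable def l27529 : Lb := (@Lb.d (nat_lit 18) (nat_lit 514) (nat_lit 0) (@Lb.g g8 (@Lb.g g9 (@Lb.g g10 (@Lb.r r683 (@Lb.r r1686 (@Lb.r r169 (@Lb.r r148 (@Lb.d (nat_lit 34) (nat_lit 72) (nat_lit 258) (@Lb.t (@Lb.fp (nat_lit 9) t1051)))))))))))
noncomputable def l27530 : Lb := (@Lb.r r89 (@Lb.r r166 (@Lb.r r340 (@Lb.r r683 (@Lb.r r657 (@Lb.r r36 (@Lb.d (nat_lit 292) (nat_lit 593) (nat_lit 336) (@Lb.fp (nat_lit 1) t508))))))))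
noncomputable def l27531 : Lb := (@Lb.d (nat_lit 8) (nat_lit 514) (nat_lit 0) (@Lb.g g9 (@Lb.r r1300 (@Lb.r r2603 (@Lb.r r2178 (@Lb.r r537 (@Lb.d (nat_lit 10) (nat_lit 166) (nat_lit 277) (@Lb.t (@Lb.fp (nat_lit 3) t5125)))))))))
noncomputable def l27532 : Lb := (@Lb.d (nat_lit 0) (nat_lit 256) (nat_lit 66) (@Lb.g g9 (@Lb.g g10 (@Lb.g g11 (@Lb.r r2691 (@Lb.r r357 (@Lb.r r146 (@Lb.r r24 (@Lb.d (nat_lit 514) (nat_lit 150) (nat_lit 152) (@Lb.t (@Lb.fm (nat_lit 9) t1832)))))))))))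
noncomputable def l27533 : Lb := (@Lb.d (nat_lit 2) (nat_lit 258) (nat_lit 0) (@Lb.g g8 (@Lb.g g9 (@Lb.r r2411 (@Lb.r r2178 (@Lb.r r2457 (@Lb.r r2436 (@Lb.d (nat_lit 617) (nat_lit 129) (nat_lit 544) (@Lb.fp (nat_lit 3) t2700)))))))))
noncomputable def l27534 : Lb := (@Lb.d (nat_lit 1) (nat_lit 2) (nat_lit 66) (@Lb.g g8 (@Lb.g g9 (@Lb.g g10 (@Lb.g g11 (@Lb.r r2723 (@Lb.r r1634 (@Lb.r r548 (@Lb.r r1557 (@Lb.r r1060 (@Lb.d (nat_lit 166) (nat_lit 130) (nat_lit 593) (@Lb.fm (nat_lit 9) t5126))))))))))))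
noncomputable def l27535 : Lb := (@Lb.d (nat_lit 282) (nat_lit 132) (nat_lit 70) (@Lb.r r2134 (@Lb.r r1448 (@Lb.r r2391 (@Lb.g g7 (@Lb.g g6 (@Lb.g g5 (@Lb.g g4 (@Lb.d (nat_lit 4) (nat_lit 66) (nat_lit 65) (@Lb.fm (nat_lit 9) t1961))))))))))
noncomputable def l27536 : Lb := (@Lb.d (nat_lit 8) (nat_lit 34) (nat_lit 0) (@Lb.g g5 (@Lb.r r680 (@Lb.r r427 (@Lb.r r2178 (@Lb.r r2393 (@Lb.d (nat_lit 101) (nat_lit 105) (nat_lit 362) (@Lb.t (@Lb.fm (nat_lit 3) t2884)))))))))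
noncomputable def l27537 : Lb := (@Lb.r r81 (@Lb.r r323 (@Lb.d (nat_lit 1) (nat_lit 264) (nat_lit 1) (@Lb.g g8 (@Lb.g g6 (@Lb.r r387 (@Lb.r r1173 (@Lb.r r36 (@Lb.d (nat_lit 536) (nat_lit 2) (nat_lit 17) (@Lb.fp (nat_lit 3) t68))))))))))
noncomputable def l27538 : Lb := (@Lb.r r81 (@Lb.r r323 (@Lb.d (nat_lit 9) (nat_lit 264) (nat_lit 1) (@Lb.g g8 (@Lb.g g6 (@Lb.r r387 (@Lb.r r101 (@Lb.r r1108 (@Lb.d (nat_lit 292) (nat_lit 65) (nat_lit 18) (@Lb.fm (nat_lit 3) t4994))))))))))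
noncomputable def l27539 : Lb := (@Lb.d (nat_lit 136) (nat_lit 522) (nat_lit 64) (@Lb.g g9 (@Lb.g g10 (@Lb.g g11 (@Lb.r r88 (@Lb.r r2469 (@Lb.r r1555 (@Lb.r r70 (@Lb.d (nat_lit 278) (nat_lit 162) (nat_lit 596) (@Lb.t (@Lb.fp (nat_lit 9) t3200)))))))))))
noncomputable def l27540 : Lb := (@Lb.d (nat_lit 282) (nat_lit 644) (nat_lit 70) (@Lb.r r2134 (@Lb.r r1448 (@Lb.r r2391 (@Lb.g g7 (@Lb.g g6 (@Lb.g g5 (@Lb.g g4 (@Lb.d (nat_lit 1) (nat_lit 65) (nat_lit 65) (@Lb.fm (nat_lit 9) t791))))))))))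
noncomputable def l27541 : Lb := (@Lb.d (nat_lit 514) (nat_lit 518) (nat_lit 84) (@Lb.r r2118 (@Lb.r r1416 (@Lb.r r407 (@Lb.g g5 (@Lb.g g4 (@Lb.d (nat_lit 1) (nat_lit 37) (nat_lit 0) (@Lb.r r291 (@Lb.r r98 (@Lb.fp (nat_lit 3) t5127))))))))))
noncomputable def l27542 : Lb := (@Lb.d (nat_lit 10) (nat_lit 256) (nat_lit 66) (@Lb.g g8 (@Lb.g g10 (@Lb.g g11 (@Lb.r r341 (@Lb.r r1451 (@Lb.r r362 (@Lb.r r1316 (@Lb.d (nat_lit 681) (nat_lit 162) (nat_lit 17) (@Lb.t (@Lb.fm (nat_lit 9) t5128)))))))))))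
noncomputable def l27543 : Lb := (@Lb.r r82 (@Lb.d (nat_lit 1) (nat_lit 33) (nat_lit 64) (@Lb.g g8 (@Lb.g g9 (@Lb.g g11 (@Lb.r r275 (@Lb.r r354 (@Lb.r r1301 (@Lb.r r36 (@Lb.d (nat_lit 393) (nat_lit 2) (nat_lit 512) (@Lb.t (@Lb.fm (nat_lit 9) t68))))))))))))
noncomputable def l27544 : Lb := (@Lb.d (nat_lit 128) (nat_lit 10) (nat_lit 128) (@Lb.g g9 (@Lb.g g10 (@Lb.g g11 (@Lb.r r661 (@Lb.r r292 (@Lb.r r539 (@Lb.r r70 (@Lb.d (nat_lit 82) (nat_lit 98) (nat_lit 144) (@Lb.t (@Lb.fp (nat_lit 9) t3937)))))))))))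
noncomputable def l27545 : Lb := (@Lb.r r82 (@Lb.d (nat_lit 34) (nat_lit 522) (nat_lit 128) (@Lb.g g8 (@Lb.g g9 (@Lb.g g11 (@Lb.r r427 (@Lb.r r582 (@Lb.r r2456 (@Lb.r r1173 (@Lb.d (nat_lit 282) (nat_lit 82) (nat_lit 132) (@Lb.t (@Lb.fp (nat_lit 9) t1754))))))))))))
noncomputable def l27546 : Lb := (@Lb.d (nat_lit 2) (nat_lit 4) (nat_lit 128) (@Lb.g g8 (@Lb.g g9 (@Lb.g g10 (@Lb.g g11 (@Lb.r r427 (@Lb.r r297 (@Lb.r r2408 (@Lb.r r1174 (@Lb.d (nat_lit 289) (nat_lit 10) (nat_lit 152) (@Lb.fm (nat_lit 9) t2411)))))))))))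
noncomputable def l27547 : Lb := (@Lb.r r323 (@Lb.d (nat_lit 0) (nat_lit 516) (nat_lit 42) (@Lb.g g6 (@Lb.r r387 (@Lb.r r2145 (@Lb.r r36 (@Lb.d (nat_lit 0) (nat_lit 101) (nat_lit 326) (@Lb.t (@Lb.fp (nat_lit 3) t1242)))))))))
noncomputable def l27548 : Lb := (@Lb.d (nat_lit 536) (nat_lit 256) (nat_lit 74) (@Lb.g g8 (@Lb.g g10 (@Lb.g g11 (@Lb.r r1683 (@Lb.r r1602 (@Lb.d (nat_lit 0) (nat_lit 22) (nat_lit 664) (@Lb.t (@Lb.fp (nat_lit 9) t5098)))))))))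
noncomputable def l27549 : Lb := (@Lb.d (nat_lit 2) (nat_lit 514) (nat_lit 130) (@Lb.g g8 (@Lb.g g9 (@Lb.g g10 (@Lb.g g11 (@Lb.r r427 (@Lb.r r145 (@Lb.r r356 (@Lb.r r154 (@Lb.r r132 (@Lb.d (nat_lit 545) (nat_lit 0) (nat_lit 169) (@Lb.fm (nat_lit 9) t221))))))))))))
noncomputable def l27550 : Lb := (@Lb.r r323 (@Lb.d (nat_lit 130) (nat_lit 322) (nat_lit 2) (@Lb.g g8 (@Lb.g g9 (@Lb.g g10 (@Lb.r r1623 (@Lb.r r2146 (@Lb.r r2312 (@Lb.d (nat_lit 673) (nat_lit 68) (nat_lit 672) (@Lb.t (@Lb.fm (nat_lit 9) t1242)))))))))))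
noncomputable def l27551 : Lb := (@Lb.r r323 (@Lb.d (nat_lit 0) (nat_lit 260) (nat_lit 42) (@Lb.g g6 (@Lb.r r387 (@Lb.r r2145 (@Lb.r r36 (@Lb.d (nat_lit 5) (nat_lit 102) (nat_lit 326) (@Lb.t (@Lb.fp (nat_lit 3) t1242)))))))))
noncomputable def l27552 : Lb := (@Lb.d (nat_lit 1) (nat_lit 0) (nat_lit 0) (@Lb.r r24 (@Lb.r r101 (@Lb.r r402 (@Lb.r r323 (@Lb.g g7 (@Lb.g g6 (@Lb.g g4 (@Lb.d (nat_lit 1) (nat_lit 0) (nat_lit 10) (@Lb.t (@Lb.fm (nat_lit 9) t686)))))))))))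
noncomputable def l27553 : Lb := (@Lb.r r404 (@Lb.r r619 (@Lb.r r1625 (@Lb.r r2470 (@Lb.r r1540 (@Lb.d (nat_lit 10) (nat_lit 73) (nat_lit 34) (@Lb.fp (nat_lit 1) t5129)))))))
noncomputable def l27554 : Lb := (@Lb.r r404 (@Lb.r r619 (@Lb.r r1625 (@Lb.r r2470 (@Lb.r r1540 (@Lb.d (nat_lit 5) (nat_lit 328) (nat_lit 34) (@Lb.fp (nat_lit 1) t1096)))))))
noncomputable def l27555 : Lb := (@Lb.r r82 (@Lb.d (nat_lit 41) (nat_lit 288) (nat_lit 64) (@Lb.g g8 (@Lb.g g9 (@Lb.g g11 (@Lb.r r1571 (@Lb.r r582 (@Lb.r r1445 (@Lb.r r408 (@Lb.d (nat_lit 346) (nat_lit 26) (nat_lit 358) (@Lb.t (@Lb.fp (nat_lit 9) t3049))))))))))))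
noncomputable def l27556 : Lb := (@Lb.d (nat_lit 129) (nat_lit 256) (nat_lit 257) (@Lb.r r2341 (@Lb.r r1624 (@Lb.r r1371 (@Lb.g g7 (@Lb.g g6 (@Lb.g g5 (@Lb.d (nat_lit 16) (nat_lit 0) (nat_lit 166) (@Lb.t (@Lb.fp (nat_lit 9) t4721))))))))))
noncomputable def l27557 : Lb := (@Lb.d (nat_lit 25) (nat_lit 516) (nat_lit 137) (@Lb.r r104 (@Lb.r r609 (@Lb.r r402 (@Lb.r r551 (@Lb.g g4 (@Lb.d (nat_lit 65) (nat_lit 0) (nat_lit 0) (@Lb.t (@Lb.fm (nat_lit 3) t39)))))))))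
noncomputable def l27558 : Lb := (@Lb.r r609 (@Lb.r r548 (@Lb.r r295 (@Lb.r r390 (@Lb.r r516 (@Lb.d (nat_lit 24) (nat_lit 650) (nat_lit 2) (@Lb.fp (nat_lit 1) t154)))))))
noncomputable def l27559 : Lb := (@Lb.d (nat_lit 329) (nat_lit 26) (nat_lit 522) (@Lb.r r2583 (@Lb.r r1384 (@Lb.r r361 (@Lb.r r1622 (@Lb.g g7 (@Lb.d (nat_lit 64) (nat_lit 16) (nat_lit 64) (@Lb.t (@Lb.fp (nat_lit 3) t188)))))))))
noncomputable def l27560 : Lb := (@Lb.r r21 (@Lb.r r70 (@Lb.g g4 (@Lb.r r330 (@Lb.r r281 (@Lb.r r260 (@Lb.d (nat_lit 10) (nat_lit 258) (nat_lit 64) (@Lb.t (@Lb.fm (nat_lit 3) t5130)))))))))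
noncomputable def l27561 : Lb := (@Lb.r r323 (@Lb.d (nat_lit 9) (nat_lit 257) (nat_lit 2) (@Lb.g g8 (@Lb.g g9 (@Lb.g g10 (@Lb.r r1687 (@Lb.r r2154 (@Lb.r r97 (@Lb.r r24 (@Lb.d (nat_lit 281) (nat_lit 9) (nat_lit 2) (@Lb.t (@Lb.fp (nat_lit 9) t61))))))))))))
noncomputable def l27562 : Lb := (@Lb.r r323 (@Lb.d (nat_lit 9) (nat_lit 289) (nat_lit 2) (@Lb.g g8 (@Lb.g g9 (@Lb.g g10 (@Lb.r r599 (@Lb.r r74 (@Lb.r r296 (@Lb.r r409 (@Lb.d (nat_lit 149) (nat_lit 38) (nat_lit 9) (@Lb.t (@Lb.fm (nat_lit 9) t51))))))))))))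
noncomputable def l27563 : Lb := (@Lb.g g8 (@Lb.d (nat_lit 9) (nat_lit 2) (nat_lit 0) (@Lb.t (@Lb.fp (nat_lit 3) t2))))
noncomputable def l27564 : Lb := (@Lb.r r21 (@Lb.d (nat_lit 2) (nat_lit 256) (nat_lit 73) (@Lb.g g8 (@Lb.g g10 (@Lb.g g11 (@Lb.r r1691 (@Lb.r r1381 (@Lb.r r2202 (@Lb.r r2180 (@Lb.d (nat_lit 600) (nat_lit 65) (nat_lit 609) (@Lb.t (@Lb.fp (nat_lit 9) t284))))))))))))
noncomputable def l27565 : Lb := (@Lb.d (nat_lit 0) (nat_lit 0) (nat_lit 73) (@Lb.g g10 (@Lb.g g11 (@Lb.r r642 (@Lb.r r1683 (@Lb.r r1602 (@Lb.d (nat_lit 0) (nat_lit 24) (nat_lit 673) (@Lb.fm (nat_lit 3) t349))))))))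
noncomputable def l27566 : Lb := (@Lb.r r21 (@Lb.d (nat_lit 144) (nat_lit 0) (nat_lit 128) (@Lb.g g8 (@Lb.g g10 (@Lb.g g11 (@Lb.r r387 (@Lb.r r2122 (@Lb.r r97 (@Lb.r r600 (@Lb.d (nat_lit 682) (nat_lit 33) (nat_lit 682) (@Lb.t (@Lb.fm (nat_lit 9) t5131))))))))))))
noncomputable def l27567 : Lb := (@Lb.r r68 (@Lb.r r81 (@Lb.d (nat_lit 160) (nat_lit 4) (nat_lit 74) (@Lb.g g10 (@Lb.g g11 (@Lb.r r344 (@Lb.r r519 (@Lb.r r37 (@Lb.d (nat_lit 33) (nat_lit 32) (nat_lit 69) (@Lb.fp (nat_lit 3) t5132))))))))))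
noncomputable def l27568 : Lb := (@Lb.d (nat_lit 0) (nat_lit 256) (nat_lit 130) (@Lb.g g10 (@Lb.g g11 (@Lb.r r1447 (@Lb.r r386 (@Lb.r r101 (@Lb.r r8 (@Lb.d (nat_lit 354) (nat_lit 26) (nat_lit 132) (@Lb.fp (nat_lit 3) t4840)))))))))
noncomputable def l27569 : Lb := (@Lb.r r82 (@Lb.d (nat_lit 34) (nat_lit 258) (nat_lit 128) (@Lb.g g8 (@Lb.g g9 (@Lb.g g11 (@Lb.r r1571 (@Lb.r r582 (@Lb.r r1177 (@Lb.r r408 (@Lb.d (nat_lit 168) (nat_lit 26) (nat_lit 346) (@Lb.t (@Lb.fm (nat_lit 9) t5133))))))))))))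
noncomputable def l27570 : Lb := (@Lb.d (nat_lit 326) (nat_lit 32) (nat_lit 512) (@Lb.r r2088 (@Lb.r r1065 (@Lb.r r1114 (@Lb.g g7 (@Lb.t (@Lb.fm (nat_lit 3) t5134)))))))
noncomputable def l27571 : Lb := (@Lb.d (nat_lit 36) (nat_lit 516) (nat_lit 128) (@Lb.g g8 (@Lb.g g9 (@Lb.g g10 (@Lb.g g11 (@Lb.r r1435 (@Lb.r r145 (@Lb.r r2646 (@Lb.r r2212 (@Lb.d (nat_lit 165) (nat_lit 5) (nat_lit 81) (@Lb.fp (nat_lit 9) t5135)))))))))))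
noncomputable def l27572 : Lb := (@Lb.d (nat_lit 0) (nat_lit 8) (nat_lit 73) (@Lb.g g9 (@Lb.g g10 (@Lb.g g11 (@Lb.r r2451 (@Lb.r r1188 (@Lb.r r1686 (@Lb.r r1681 (@Lb.d (nat_lit 34) (nat_lit 26) (nat_lit 513) (@Lb.t (@Lb.fp (nat_lit 9) t5136)))))))))))
noncomputable def l27573 : Lb := (@Lb.d (nat_lit 586) (nat_lit 257) (nat_lit 100) (@Lb.r r2632 (@Lb.r r2454 (@Lb.r r1547 (@Lb.g g7 (@Lb.g g9 (@Lb.g g4 (@Lb.d (nat_lit 64) (nat_lit 8) (nat_lit 128) (@Lb.r r74 (@Lb.t (@Lb.fp (nat_lit 9) t4370)))))))))))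
noncomputable def l27574 : Lb := (@Lb.d (nat_lit 69) (nat_lit 34) (nat_lit 130) (@Lb.g g8 (@Lb.g g9 (@Lb.g g10 (@Lb.g g11 (@Lb.r r427 (@Lb.r r610 (@Lb.r r529 (@Lb.r r1672 (@Lb.d (nat_lit 402) (nat_lit 36) (nat_lit 153) (@Lb.fm (nat_lit 9) t5137)))))))))))
noncomputable def l27575 : Lb := (@Lb.d (nat_lit 153) (nat_lit 257) (nat_lit 128) (@Lb.g g8 (@Lb.g g9 (@Lb.g g10 (@Lb.g g11 (@Lb.r r2729 (@Lb.r r2731 (@Lb.r r1674 (@Lb.r r2568 (@Lb.d (nat_lit 322) (nat_lit 72) (nat_lit 406) (@Lb.fp (nat_lit 9) t2165)))))))))))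
noncomputable def l27576 : Lb := (@Lb.r r21 (@Lb.d (nat_lit 656) (nat_lit 512) (nat_lit 128) (@Lb.g g8 (@Lb.g g10 (@Lb.g g11 (@Lb.r r387 (@Lb.r r74 (@Lb.r r25 (@Lb.d (nat_lit 617) (nat_lit 9) (nat_lit 41) (@Lb.t (@Lb.fm (nat_lit 9) t5138)))))))))))
noncomputable def l27577 : Lb := (@Lb.d (nat_lit 326) (nat_lit 32) (nat_lit 512) (@Lb.r r2088 (@Lb.r r1065 (@Lb.r r1114 (@Lb.g g7 (@Lb.g g10 (@Lb.fp (nat_lit 3) t5134)))))))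
noncomputable def l27578 : Lb := (@Lb.r r323 (@Lb.d (nat_lit 0) (nat_lit 552) (nat_lit 1) (@Lb.g g8 (@Lb.g g9 (@Lb.g g10 (@Lb.r r2647 (@Lb.r r74 (@Lb.r r1320 (@Lb.r r1433 (@Lb.d (nat_lit 661) (nat_lit 150) (nat_lit 681) (@Lb.t (@Lb.fm (nat_lit 9) t394))))))))))))
noncomputable def l27579 : Lb := (@Lb.d (nat_lit 261) (nat_lit 166) (nat_lit 65) (@Lb.r r2069 (@Lb.r r2390 (@Lb.g g7 (@Lb.g g6 (@Lb.g g5 (@Lb.g g4 (@Lb.d (nat_lit 8) (nat_lit 8) (nat_lit 130) (@Lb.fp (nat_lit 9) t154)))))))))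
noncomputable def l27580 : Lb := (@Lb.d (nat_lit 586) (nat_lit 657) (nat_lit 64) (@Lb.r r1560 (@Lb.r r1114 (@Lb.g g11 (@Lb.g g9 (@Lb.g g4 (@Lb.d (nat_lit 1) (nat_lit 0) (nat_lit 256) (@Lb.r r586 (@Lb.t (@Lb.fm (nat_lit 9) t5139))))))))))
noncomputable def l27581 : Lb := (@Lb.d (nat_lit 8) (nat_lit 258) (nat_lit 0) (@Lb.g g5 (@Lb.g g10 (@Lb.g g7 (@Lb.r r164 (@Lb.r r598 (@Lb.r r673 (@Lb.d (nat_lit 0) (nat_lit 74) (nat_lit 265) (@Lb.t (@Lb.fp (nat_lit 9) t1115))))))))))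
noncomputable def l27582 : Lb := (@Lb.r r21 (@Lb.r r70 (@Lb.d (nat_lit 129) (nat_lit 256) (nat_lit 64) (@Lb.g g8 (@Lb.g g11 (@Lb.r r263 (@Lb.r r330 (@Lb.r r281 (@Lb.r r260 (@Lb.d (nat_lit 128) (nat_lit 0) (nat_lit 0) (@Lb.fm (nat_lit 3) t74)))))))))))
noncomputable def l27583 : Lb := (@Lb.d (nat_lit 2) (nat_lit 666) (nat_lit 581) (@Lb.r r402 (@Lb.r r101 (@Lb.g g8 (@Lb.d (nat_lit 9) (nat_lit 0) (nat_lit 0) (@Lb.t (@Lb.fp (nat_lit 3) t1479)))))))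
noncomputable def l27584 : Lb := (@Lb.r r82 (@Lb.r r275 (@Lb.d (nat_lit 4) (nat_lit 2) (nat_lit 0) (@Lb.g g8 (@Lb.g g9 (@Lb.r r279 (@Lb.r r86 (@Lb.r r41 (@Lb.r r36 (@Lb.d (nat_lit 9) (nat_lit 1) (nat_lit 0) (@Lb.fp (nat_lit 3) t68)))))))))))
noncomputable def l27585 : Lb := (@Lb.d (nat_lit 0) (nat_lit 145) (nat_lit 650) (@Lb.r r657 (@Lb.r r346 (@Lb.r r100 (@Lb.g g11 (@Lb.g g5 (@Lb.d (nat_lit 8) (nat_lit 1) (nat_lit 0) (@Lb.fp (nat_lit 3) t1137))))))))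
noncomputable def l27586 : Lb := (@Lb.d (nat_lit 0) (nat_lit 133) (nat_lit 262) (@Lb.r r673 (@Lb.r r618 (@Lb.r r340 (@Lb.g g11 (@Lb.g g9 (@Lb.d (nat_lit 4) (nat_lit 1) (nat_lit 256) (@Lb.r r578 (@Lb.fp (nat_lit 3) t1940)))))))))
noncomputable def l27587 : Lb := (@Lb.d (nat_lit 650) (nat_lit 554) (nat_lit 73) (@Lb.r r657 (@Lb.r r602 (@Lb.r r356 (@Lb.r r2691 (@Lb.g g7 (@Lb.g g6 (@Lb.g g5 (@Lb.d (nat_lit 4) (nat_lit 0) (nat_lit 72) (@Lb.t (@Lb.fm (nat_lit 9) t1940)))))))))))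
noncomputable def l27588 : Lb := (@Lb.d (nat_lit 34) (nat_lit 518) (nat_lit 168) (@Lb.r r153 (@Lb.r r2726 (@Lb.r r1435 (@Lb.r r2308 (@Lb.g g7 (@Lb.g g5 (@Lb.d (nat_lit 4) (nat_lit 1) (nat_lit 128) (@Lb.fp (nat_lit 3) t919)))))))))
noncomputable def l27589 : Lb := (@Lb.r r323 (@Lb.d (nat_lit 8) (nat_lit 514) (nat_lit 2) (@Lb.g g9 (@Lb.g g10 (@Lb.r r102 (@Lb.r r404 (@Lb.r r1371 (@Lb.r r2705 (@Lb.d (nat_lit 10) (nat_lit 96) (nat_lit 296) (@Lb.fm (nat_lit 3) t71))))))))))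
noncomputable def l27590 : Lb := (@Lb.d (nat_lit 662) (nat_lit 422) (nat_lit 600) (@Lb.r r20 (@Lb.r r2665 (@Lb.r r386 (@Lb.g g11 (@Lb.g g6 (@Lb.g g5 (@Lb.g g4 (@Lb.d (nat_lit 8) (nat_lit 1) (nat_lit 1) (@Lb.fm (nat_lit 9) t164))))))))))
noncomputable def l27591 : Lb := (@Lb.d (nat_lit 2) (nat_lit 296) (nat_lit 128) (@Lb.g g8 (@Lb.g g10 (@Lb.g g11 (@Lb.r r1045 (@Lb.r r2340 (@Lb.r r2635 (@Lb.r r2370 (@Lb.d (nat_lit 96) (nat_lit 73) (nat_lit 37) (@Lb.t (@Lb.fp (nat_lit 9) t322)))))))))))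
noncomputable def l27592 : Lb := (@Lb.r r82 (@Lb.r r275 (@Lb.d (nat_lit 2) (nat_lit 256) (nat_lit 0) (@Lb.g g8 (@Lb.g g9 (@Lb.r r299 (@Lb.r r106 (@Lb.r r25 (@Lb.r r24 (@Lb.d (nat_lit 4) (nat_lit 2) (nat_lit 0) (@Lb.fp (nat_lit 3) t168)))))))))))
noncomputable def l27593 : Lb := (@Lb.d (nat_lit 34) (nat_lit 512) (nat_lit 136) (@Lb.g g8 (@Lb.g g11 (@Lb.r r1173 (@Lb.r r150 (@Lb.r r356 (@Lb.r r1291 (@Lb.d (nat_lit 0) (nat_lit 41) (nat_lit 324) (@Lb.fp (nat_lit 3) t322)))))))))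
noncomputable def l27594 : Lb := (@Lb.r r355 (@Lb.d (nat_lit 4) (nat_lit 265) (nat_lit 2) (@Lb.g g8 (@Lb.g g9 (@Lb.g g10 (@Lb.r r683 (@Lb.r r1642 (@Lb.r r2649 (@Lb.d (nat_lit 362) (nat_lit 37) (nat_lit 9) (@Lb.t (@Lb.fp (nat_lit 9) t919)))))))))))
noncomputable def l27595 : Lb := (@Lb.d (nat_lit 2) (nat_lit 2) (nat_lit 66) (@Lb.g g8 (@Lb.g g9 (@Lb.g g10 (@Lb.g g11 (@Lb.r r145 (@Lb.r r356 (@Lb.r r154 (@Lb.r r132 (@Lb.d (nat_lit 9) (nat_lit 18) (nat_lit 74) (@Lb.fm (nat_lit 9) t521)))))))))))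
noncomputable def l27596 : Lb := (@Lb.r r323 (@Lb.d (nat_lit 8) (nat_lit 34) (nat_lit 18) (@Lb.g g9 (@Lb.g g10 (@Lb.r r603 (@Lb.r r2580 (@Lb.r r1433 (@Lb.d (nat_lit 394) (nat_lit 80) (nat_lit 648) (@Lb.fp (nat_lit 3) t296)))))))))
noncomputable def l27597 : Lb := (@Lb.d (nat_lit 0) (nat_lit 516) (nat_lit 74) (@Lb.g g8 (@Lb.g g9 (@Lb.g g10 (@Lb.g g11 (@Lb.r r2691 (@Lb.r r2474 (@Lb.r r1313 (@Lb.r r24 (@Lb.d (nat_lit 138) (nat_lit 161) (nat_lit 424) (@Lb.fp (nat_lit 9) t377)))))))))))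
noncomputable def l27598 : Lb := (@Lb.r r82 (@Lb.r r275 (@Lb.d (nat_lit 34) (nat_lit 266) (nat_lit 0) (@Lb.g g8 (@Lb.g g5 (@Lb.r r667 (@Lb.r r102 (@Lb.r r152 (@Lb.d (nat_lit 16) (nat_lit 4) (nat_lit 17) (@Lb.fp (nat_lit 3) t753))))))))))
noncomputable def l27599 : Lb := (@Lb.d (nat_lit 160) (nat_lit 8) (nat_lit 128) (@Lb.g g10 (@Lb.g g11 (@Lb.r r260 (@Lb.r r2667 (@Lb.r r1633 (@Lb.r r338 (@Lb.d (nat_lit 528) (nat_lit 86) (nat_lit 673) (@Lb.fm (nat_lit 3) t1850)))))))))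
noncomputable def l27600 : Lb := (@Lb.d (nat_lit 144) (nat_lit 513) (nat_lit 64) (@Lb.g g8 (@Lb.g g9 (@Lb.g g10 (@Lb.g g11 (@Lb.r r1451 (@Lb.r r2473 (@Lb.r r1130 (@Lb.r r72 (@Lb.d (nat_lit 33) (nat_lit 66) (nat_lit 681) (@Lb.fp (nat_lit 9) t594)))))))))))
noncomputable def l27601 : Lb := (@Lb.d (nat_lit 0) (nat_lit 258) (nat_lit 130) (@Lb.g g9 (@Lb.g g10 (@Lb.g g11 (@Lb.r r2691 (@Lb.r r536 (@Lb.r r1637 (@Lb.r r2714 (@Lb.r r132 (@Lb.d (nat_lit 678) (nat_lit 161) (nat_lit 74) (@Lb.t (@Lb.fm (nat_lit 9) t1866))))))))))))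
noncomputable def l27602 : Lb := (@Lb.r r2069 (@Lb.r r2118 (@Lb.r r2311 (@Lb.d (nat_lit 2) (nat_lit 256) (nat_lit 0) (@Lb.g g8 (@Lb.d (nat_lit 1) (nat_lit 0) (nat_lit 0) (@Lb.t (@Lb.fp (nat_lit 3) t4616))))))))
noncomputable def l27603 : Lb := (@Lb.d (nat_lit 0) (nat_lit 2) (nat_lit 130) (@Lb.g g9 (@Lb.g g10 (@Lb.g g11 (@Lb.r r2691 (@Lb.r r536 (@Lb.r r1637 (@Lb.r r2714 (@Lb.r r132 (@Lb.d (nat_lit 680) (nat_lit 162) (nat_lit 74) (@Lb.t (@Lb.fm (nat_lit 9) t1866))))))))))))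
noncomputable def l27604 : Lb := (@Lb.d (nat_lit 10) (nat_lit 256) (nat_lit 73) (@Lb.g g8 (@Lb.g g10 (@Lb.g g11 (@Lb.r r2691 (@Lb.r r1681 (@Lb.r r1178 (@Lb.r r2436 (@Lb.d (nat_lit 546) (nat_lit 160) (nat_lit 90) (@Lb.t (@Lb.fm (nat_lit 9) t521)))))))))))
noncomputable def l27605 : Lb := (@Lb.d (nat_lit 0) (nat_lit 640) (nat_lit 32) (@Lb.r r402 (@Lb.r r579 (@Lb.g g7 (@Lb.g g6 (@Lb.g g4 (@Lb.t (@Lb.fp (nat_lit 9) t51))))))))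
noncomputable def l27606 : Lb := (@Lb.d (nat_lit 9) (nat_lit 6) (nat_lit 74) (@Lb.g g8 (@Lb.g g9 (@Lb.g g10 (@Lb.g g11 (@Lb.r r2691 (@Lb.r r297 (@Lb.r r1188 (@Lb.r r1158 (@Lb.d (nat_lit 640) (nat_lit 10) (nat_lit 64) (@Lb.fm (nat_lit 9) t803)))))))))))
noncomputable def l27607 : Lb := (@Lb.d (nat_lit 641) (nat_lit 80) (nat_lit 261) (@Lb.r r2587 (@Lb.r r2712 (@Lb.r r2714 (@Lb.r r353 (@Lb.g g7 (@Lb.g g6 (@Lb.g g4 (@Lb.d (nat_lit 1) (nat_lit 16) (nat_lit 65) (@Lb.t (@Lb.fp (nat_lit 9) t2)))))))))))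
noncomputable def l27608 : Lb := (@Lb.d (nat_lit 68) (nat_lit 530) (nat_lit 74) (@Lb.r r24 (@Lb.r r2145 (@Lb.r r2390 (@Lb.r r2691 (@Lb.g g7 (@Lb.g g6 (@Lb.g g4 (@Lb.d (nat_lit 2) (nat_lit 0) (nat_lit 134) (@Lb.t (@Lb.fm (nat_lit 9) t981)))))))))))
noncomputable def l27609 : Lb := (@Lb.d (nat_lit 9) (nat_lit 512) (nat_lit 73) (@Lb.g g8 (@Lb.g g10 (@Lb.g g11 (@Lb.r r2691 (@Lb.r r1681 (@Lb.r r1178 (@Lb.r r2436 (@Lb.d (nat_lit 546) (nat_lit 160) (nat_lit 90) (@Lb.t (@Lb.fm (nat_lit 9) t521)))))))))))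
noncomputable def l27610 : Lb := (@Lb.d (nat_lit 9) (nat_lit 513) (nat_lit 130) (@Lb.g g8 (@Lb.g g9 (@Lb.g g10 (@Lb.g g11 (@Lb.r r148 (@Lb.r r102 (@Lb.r r357 (@Lb.r r667 (@Lb.r r644 (@Lb.d (nat_lit 9) (nat_lit 65) (nat_lit 74) (@Lb.fp (nat_lit 9) t2))))))))))))
noncomputable def l27611 : Lb := (@Lb.d (nat_lit 536) (nat_lit 384) (nat_lit 32) (@Lb.r r2148 (@Lb.r r402 (@Lb.r r323 (@Lb.g g7 (@Lb.g g6 (@Lb.d (nat_lit 0) (nat_lit 0) (nat_lit 64) (@Lb.fp (nat_lit 3) t5098))))))))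
noncomputable def l27612 : Lb := (@Lb.d (nat_lit 9) (nat_lit 1) (nat_lit 130) (@Lb.g g8 (@Lb.g g9 (@Lb.g g10 (@Lb.g g11 (@Lb.r r148 (@Lb.r r102 (@Lb.r r357 (@Lb.r r667 (@Lb.r r644 (@Lb.d (nat_lit 0) (nat_lit 66) (nat_lit 74) (@Lb.fp (nat_lit 9) t2))))))))))))
noncomputable def l27613 : Lb := (@Lb.d (nat_lit 0) (nat_lit 256) (nat_lit 72) (@Lb.g g4 (@Lb.g g10 (@Lb.g g11 (@Lb.r r2467 (@Lb.r r2386 (@Lb.d (nat_lit 0) (nat_lit 64) (nat_lit 613) (@Lb.t (@Lb.fp (nat_lit 9) t51)))))))))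
noncomputable def l27614 : Lb := (@Lb.d (nat_lit 264) (nat_lit 70) (nat_lit 97) (@Lb.r r2073 (@Lb.r r2456 (@Lb.r r1354 (@Lb.g g7 (@Lb.g g5 (@Lb.g g4 (@Lb.d (nat_lit 64) (nat_lit 4) (nat_lit 576) (@Lb.t (@Lb.fm (nat_lit 9) t386))))))))))
noncomputable def l27615 : Lb := (@Lb.d (nat_lit 16) (nat_lit 266) (nat_lit 66) (@Lb.g g8 (@Lb.g g9 (@Lb.g g10 (@Lb.g g11 (@Lb.r r548 (@Lb.r r1287 (@Lb.r r2145 (@Lb.r r1170 (@Lb.r r2564 (@Lb.d (nat_lit 1) (nat_lit 73) (nat_lit 409) (@Lb.fp (nat_lit 9) t406))))))))))))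
noncomputable def l27616 : Lb := (@Lb.d (nat_lit 128) (nat_lit 258) (nat_lit 0) (@Lb.g g8 (@Lb.g g9 (@Lb.r r1303 (@Lb.r r162 (@Lb.r r145 (@Lb.r r2664 (@Lb.d (nat_lit 358) (nat_lit 26) (nat_lit 298) (@Lb.fm (nat_lit 3) t334)))))))))
noncomputable def l27617 : Lb := (@Lb.d (nat_lit 0) (nat_lit 34) (nat_lit 0) (@Lb.g g9 (@Lb.r r1363 (@Lb.r r2178 (@Lb.r r2657 (@Lb.r r8 (@Lb.d (nat_lit 530) (nat_lit 90) (nat_lit 16) (@Lb.t (@Lb.fm (nat_lit 3) t64)))))))))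
noncomputable def l27618 : Lb := (@Lb.d (nat_lit 10) (nat_lit 1) (nat_lit 130) (@Lb.g g8 (@Lb.g g9 (@Lb.g g10 (@Lb.g g11 (@Lb.r r2691 (@Lb.r r404 (@Lb.r r2153 (@Lb.r r1622 (@Lb.r r1188 (@Lb.d (nat_lit 641) (nat_lit 22) (nat_lit 152) (@Lb.fp (nat_lit 9) t242))))))))))))
noncomputable def l27619 : Lb := (@Lb.d (nat_lit 16) (nat_lit 516) (nat_lit 129) (@Lb.g g8 (@Lb.g g9 (@Lb.g g10 (@Lb.g g11 (@Lb.r r2635 (@Lb.r r1618 (@Lb.r r597 (@Lb.r r2084 (@Lb.d (nat_lit 154) (nat_lit 130) (nat_lit 530) (@Lb.fm (nat_lit 9) t5140)))))))))))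
noncomputable def l27620 : Lb := (@Lb.r r70 (@Lb.d (nat_lit 2) (nat_lit 0) (nat_lit 128) (@Lb.g g8 (@Lb.g g11 (@Lb.r r1611 (@Lb.r r1410 (@Lb.r r2145 (@Lb.r r2180 (@Lb.d (nat_lit 81) (nat_lit 10) (nat_lit 592) (@Lb.fp (nat_lit 3) t98))))))))))
noncomputable def l27621 : Lb := (@Lb.r r21 (@Lb.r r70 (@Lb.d (nat_lit 293) (nat_lit 256) (nat_lit 324) (@Lb.g g4 (@Lb.g g7 (@Lb.r r101 (@Lb.r r2450 (@Lb.d (nat_lit 2) (nat_lit 106) (nat_lit 421) (@Lb.fm (nat_lit 3) t5141)))))))))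
noncomputable def l27622 : Lb := (@Lb.r r21 (@Lb.r r70 (@Lb.g g8 (@Lb.r r2122 (@Lb.r r2073 (@Lb.r r2052 (@Lb.d (nat_lit 0) (nat_lit 517) (nat_lit 1) (@Lb.t (@Lb.fp (nat_lit 3) t812)))))))))
noncomputable def l27623 : Lb := (@Lb.d (nat_lit 6) (nat_lit 512) (nat_lit 0) (@Lb.g g4 (@Lb.r r2138 (@Lb.d (nat_lit 280) (nat_lit 74) (nat_lit 16) (@Lb.t (@Lb.fm (nat_lit 3) t3589))))))
noncomputable def l27624 : Lb := (@Lb.r r532 (@Lb.r r82 (@Lb.d (nat_lit 0) (nat_lit 584) (nat_lit 384) (@Lb.g g9 (@Lb.g g11 (@Lb.r r2198 (@Lb.r r1096 (@Lb.d (nat_lit 518) (nat_lit 0) (nat_lit 0) (@Lb.fm (nat_lit 3) t5142)))))))))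
noncomputable def l27625 : Lb := (@Lb.d (nat_lit 6) (nat_lit 512) (nat_lit 0) (@Lb.g g4 (@Lb.g g7 (@Lb.r r2138 (@Lb.d (nat_lit 278) (nat_lit 73) (nat_lit 16) (@Lb.fm (nat_lit 3) t3589))))))
noncomputable def l27626 : Lb := (@Lb.d (nat_lit 65) (nat_lit 256) (nat_lit 408) (@Lb.r r1604 (@Lb.r r281 (@Lb.r r346 (@Lb.g g5 (@Lb.r r98 (@Lb.t (@Lb.fm (nat_lit 3) t5143))))))))
noncomputable def l27627 : Lb := (@Lb.d (nat_lit 6) (nat_lit 0) (nat_lit 0) (@Lb.g g4 (@Lb.r r2138 (@Lb.d (nat_lit 278) (nat_lit 73) (nat_lit 16) (@Lb.t (@Lb.fm (nat_lit 3) t3589))))))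
noncomputable def l27628 : Lb := (@Lb.d (nat_lit 24) (nat_lit 513) (nat_lit 128) (@Lb.g g8 (@Lb.g g9 (@Lb.g g10 (@Lb.g g11 (@Lb.r r2667 (@Lb.r r1610 (@Lb.r r664 (@Lb.r r1445 (@Lb.d (nat_lit 337) (nat_lit 150) (nat_lit 361) (@Lb.fm (nat_lit 9) t5144)))))))))))
noncomputable def l27629 : Lb := (@Lb.d (nat_lit 0) (nat_lit 2) (nat_lit 130) (@Lb.g g8 (@Lb.g g9 (@Lb.g g10 (@Lb.g g11 (@Lb.r r2691 (@Lb.r r297 (@Lb.r r648 (@Lb.r r666 (@Lb.r r1156 (@Lb.d (nat_lit 646) (nat_lit 40) (nat_lit 73) (@Lb.fp (nat_lit 9) t668))))))))))))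
noncomputable def l27630 : Lb := (@Lb.d (nat_lit 149) (nat_lit 26) (nat_lit 130) (@Lb.g g8 (@Lb.g g9 (@Lb.g g10 (@Lb.g g11 (@Lb.r r2691 (@Lb.r r2216 (@Lb.r r2634 (@Lb.r r2337 (@Lb.d (nat_lit 657) (nat_lit 162) (nat_lit 617) (@Lb.fm (nat_lit 9) t2528)))))))))))
noncomputable def l27631 : Lb := (@Lb.r r21 (@Lb.r r70 (@Lb.d (nat_lit 293) (nat_lit 512) (nat_lit 324) (@Lb.g g4 (@Lb.g g7 (@Lb.r r101 (@Lb.r r2450 (@Lb.d (nat_lit 1) (nat_lit 106) (nat_lit 421) (@Lb.fm (nat_lit 3) t3512)))))))))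
noncomputable def l27632 : Lb := (@Lb.d (nat_lit 9) (nat_lit 257) (nat_lit 130) (@Lb.g g8 (@Lb.g g9 (@Lb.g g10 (@Lb.g g11 (@Lb.r r610 (@Lb.r r1607 (@Lb.r r2457 (@Lb.r r2436 (@Lb.d (nat_lit 169) (nat_lit 4) (nat_lit 392) (@Lb.fm (nat_lit 9) t2103)))))))))))
noncomputable def l27633 : Lb := (@Lb.r r331 (@Lb.d (nat_lit 32) (nat_lit 514) (nat_lit 2) (@Lb.g g8 (@Lb.g g9 (@Lb.g g10 (@Lb.r r2454 (@Lb.r r1371 (@Lb.r r549 (@Lb.r r2708 (@Lb.d (nat_lit 294) (nat_lit 101) (nat_lit 150) (@Lb.t (@Lb.fm (nat_lit 9) t1039))))))))))))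
noncomputable def l27634 : Lb := (@Lb.r r331 (@Lb.d (nat_lit 161) (nat_lit 260) (nat_lit 0) (@Lb.g g8 (@Lb.g g9 (@Lb.g g10 (@Lb.r r1433 (@Lb.r r2343 (@Lb.r r1604 (@Lb.r r1098 (@Lb.d (nat_lit 337) (nat_lit 138) (nat_lit 136) (@Lb.t (@Lb.fm (nat_lit 9) t1846))))))))))))
noncomputable def l27635 : Lb := (@Lb.r r664 (@Lb.r r154 (@Lb.r r2133 (@Lb.r r164 (@Lb.d (nat_lit 608) (nat_lit 512) (nat_lit 16) (@Lb.fp (nat_lit 1) t2428))))))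
noncomputable def l27636 : Lb := (@Lb.d (nat_lit 10) (nat_lit 33) (nat_lit 130) (@Lb.g g8 (@Lb.g g9 (@Lb.g g10 (@Lb.g g11 (@Lb.r r387 (@Lb.r r1177 (@Lb.r r2458 (@Lb.r r24 (@Lb.d (nat_lit 593) (nat_lit 0) (nat_lit 100) (@Lb.fp (nat_lit 9) t3202)))))))))))
noncomputable def l27637 : Lb := (@Lb.r r664 (@Lb.r r154 (@Lb.r r2133 (@Lb.r r164 (@Lb.d (nat_lit 610) (nat_lit 0) (nat_lit 16) (@Lb.fp (nat_lit 1) t2428))))))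
noncomputable def l27638 : Lb := (@Lb.r r331 (@Lb.d (nat_lit 9) (nat_lit 512) (nat_lit 32) (@Lb.g g8 (@Lb.g g10 (@Lb.r r1301 (@Lb.r r291 (@Lb.r r1540 (@Lb.d (nat_lit 386) (nat_lit 10) (nat_lit 66) (@Lb.fm (nat_lit 3) t2004)))))))))
noncomputable def l27639 : Lb := (@Lb.d (nat_lit 144) (nat_lit 16) (nat_lit 128) (@Lb.g g8 (@Lb.g g9 (@Lb.g g10 (@Lb.g g11 (@Lb.r r427 (@Lb.r r1602 (@Lb.r r597 (@Lb.r r388 (@Lb.d (nat_lit 678) (nat_lit 97) (nat_lit 74) (@Lb.fp (nat_lit 9) t5145)))))))))))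
noncomputable def l27640 : Lb := (@Lb.d (nat_lit 0) (nat_lit 0) (nat_lit 2) (@Lb.g g10 (@Lb.r r2435 (@Lb.r r386 (@Lb.r r1172 (@Lb.r r2073 (@Lb.d (nat_lit 610) (nat_lit 101) (nat_lit 393) (@Lb.t (@Lb.fm (nat_lit 3) t5146)))))))))
noncomputable def l27641 : Lb := (@Lb.d (nat_lit 2) (nat_lit 260) (nat_lit 64) (@Lb.g g8 (@Lb.g g9 (@Lb.g g10 (@Lb.g g11 (@Lb.r r1543 (@Lb.r r2216 (@Lb.r r2666 (@Lb.r r2585 (@Lb.d (nat_lit 73) (nat_lit 9) (nat_lit 648) (@Lb.fp (nat_lit 9) t5147)))))))))))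
noncomputable def l27642 : Lb := (@Lb.g g8 (@Lb.r r101 (@Lb.d (nat_lit 261) (nat_lit 264) (nat_lit 34) (@Lb.t (@Lb.fm (nat_lit 3) t1591)))))
noncomputable def l27643 : Lb := (@Lb.r r70 (@Lb.d (nat_lit 5) (nat_lit 514) (nat_lit 128) (@Lb.g g8 (@Lb.g g9 (@Lb.g g11 (@Lb.r r1579 (@Lb.r r1410 (@Lb.r r1169 (@Lb.r r612 (@Lb.d (nat_lit 256) (nat_lit 5) (nat_lit 33) (@Lb.t (@Lb.fm (nat_lit 9) t5148))))))))))))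
noncomputable def l27644 : Lb := (@Lb.d (nat_lit 425) (nat_lit 106) (nat_lit 37) (@Lb.r r681 (@Lb.r r2731 (@Lb.r r1642 (@Lb.r r356 (@Lb.g g7 (@Lb.g g5 (@Lb.d (nat_lit 68) (nat_lit 4) (nat_lit 128) (@Lb.fm (nat_lit 3) t5149)))))))))
noncomputable def l27645 : Lb := (@Lb.r r664 (@Lb.r r667 (@Lb.r r1690 (@Lb.r r1365 (@Lb.r r1700 (@Lb.d (nat_lit 320) (nat_lit 256) (nat_lit 576) (@Lb.fm (nat_lit 1) t322)))))))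
noncomputable def l27646 : Lb := (@Lb.r r323 (@Lb.d (nat_lit 128) (nat_lit 4) (nat_lit 0) (@Lb.g g8 (@Lb.g g9 (@Lb.g g10 (@Lb.r r1607 (@Lb.r r2193 (@Lb.r r2450 (@Lb.r r72 (@Lb.d (nat_lit 41) (nat_lit 18) (nat_lit 682) (@Lb.t (@Lb.fp (nat_lit 9) t394))))))))))))
noncomputable def l27647 : Lb := (@Lb.g g8 (@Lb.r r101 (@Lb.d (nat_lit 261) (nat_lit 1) (nat_lit 32) (@Lb.t (@Lb.fm (nat_lit 3) t1591)))))
noncomputable def l27648 : Lb := (@Lb.r r70 (@Lb.d (nat_lit 5) (nat_lit 258) (nat_lit 128) (@Lb.g g8 (@Lb.g g9 (@Lb.g g11 (@Lb.r r1579 (@Lb.r r1410 (@Lb.r r1169 (@Lb.r r612 (@Lb.d (nat_lit 265) (nat_lit 4) (nat_lit 33) (@Lb.t (@Lb.fm (nat_lit 9) t152))))))))))))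
noncomputable def l27649 : Lb := (@Lb.r r70 (@Lb.d (nat_lit 0) (nat_lit 1) (nat_lit 128) (@Lb.g g8 (@Lb.g g9 (@Lb.g g11 (@Lb.r r1579 (@Lb.r r1410 (@Lb.r r529 (@Lb.r r1060 (@Lb.d (nat_lit 617) (nat_lit 85) (nat_lit 416) (@Lb.t (@Lb.fm (nat_lit 9) t5150))))))))))))
noncomputable def l27650 : Lb := (@Lb.d (nat_lit 618) (nat_lit 420) (nat_lit 325) (@Lb.r r2456 (@Lb.r r146 (@Lb.r r663 (@Lb.g g5 (@Lb.g g4 (@Lb.d (nat_lit 65) (nat_lit 5) (nat_lit 0) (@Lb.r r291 (@Lb.r r98 (@Lb.fp (nat_lit 3) t5150))))))))))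
noncomputable def l27651 : Lb := (@Lb.d (nat_lit 34) (nat_lit 512) (nat_lit 0) (@Lb.g g4 (@Lb.r r2391 (@Lb.r r618 (@Lb.r r1641 (@Lb.r r2664 (@Lb.d (nat_lit 153) (nat_lit 165) (nat_lit 660) (@Lb.t (@Lb.fm (nat_lit 3) t188)))))))))
noncomputable def l27652 : Lb := (@Lb.r r323 (@Lb.d (nat_lit 4) (nat_lit 546) (nat_lit 2) (@Lb.g g8 (@Lb.g g9 (@Lb.g g10 (@Lb.r r2647 (@Lb.r r74 (@Lb.r r1313 (@Lb.d (nat_lit 81) (nat_lit 169) (nat_lit 384) (@Lb.t (@Lb.fm (nat_lit 9) t61)))))))))))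
noncomputable def l27653 : Lb := (@Lb.d (nat_lit 5) (nat_lit 514) (nat_lit 73) (@Lb.g g8 (@Lb.g g9 (@Lb.g g10 (@Lb.g g11 (@Lb.r r1435 (@Lb.r r2581 (@Lb.r r580 (@Lb.r r2218 (@Lb.r r2180 (@Lb.d (nat_lit 8) (nat_lit 26) (nat_lit 660) (@Lb.fm (nat_lit 9) t51))))))))))))
noncomputable def l27654 : Lb := (@Lb.d (nat_lit 5) (nat_lit 321) (nat_lit 1) (@Lb.r r289 (@Lb.r r279 (@Lb.r r584 (@Lb.g g6 (@Lb.g g5 (@Lb.d (nat_lit 16) (nat_lit 10) (nat_lit 0) (@Lb.r r387 (@Lb.fm (nat_lit 3) t151)))))))))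
noncomputable def l27655 : Lb := (@Lb.d (nat_lit 262) (nat_lit 678) (nat_lit 65) (@Lb.r r2069 (@Lb.r r2390 (@Lb.g g7 (@Lb.g g6 (@Lb.g g5 (@Lb.g g4 (@Lb.d (nat_lit 10) (nat_lit 1) (nat_lit 128) (@Lb.fp (nat_lit 9) t253)))))))))
noncomputable def l27656 : Lb := (@Lb.d (nat_lit 388) (nat_lit 129) (nat_lit 256) (@Lb.r r2341 (@Lb.r r1624 (@Lb.r r2470 (@Lb.r r339 (@Lb.g g7 (@Lb.g g6 (@Lb.g g5 (@Lb.d (nat_lit 0) (nat_lit 0) (nat_lit 65) (@Lb.t (@Lb.fm (nat_lit 9) t1329)))))))))))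
noncomputable def l27657 : Lb := (@Lb.d (nat_lit 0) (nat_lit 550) (nat_lit 65) (@Lb.r r338 (@Lb.g g7 (@Lb.g g6 (@Lb.g g5 (@Lb.d (nat_lit 4) (nat_lit 129) (nat_lit 128) (@Lb.r r36 (@Lb.t (@Lb.fp (nat_lit 9) t253)))))))))
noncomputable def l27658 : Lb := (@Lb.d (nat_lit 25) (nat_lit 105) (nat_lit 257) (@Lb.r r2641 (@Lb.r r662 (@Lb.r r2711 (@Lb.r r328 (@Lb.g g7 (@Lb.g g6 (@Lb.g g5 (@Lb.d (nat_lit 20) (nat_lit 2) (nat_lit 128) (@Lb.t (@Lb.fm (nat_lit 9) t2796)))))))))))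
noncomputable def l27659 : Lb := (@Lb.d (nat_lit 32) (nat_lit 521) (nat_lit 0) (@Lb.g g8 (@Lb.g g9 (@Lb.g g11 (@Lb.r r1671 (@Lb.r r582 (@Lb.r r2452 (@Lb.r r25 (@Lb.d (nat_lit 521) (nat_lit 153) (nat_lit 648) (@Lb.t (@Lb.fp (nat_lit 9) t386)))))))))))
noncomputable def l27660 : Lb := (@Lb.r r355 (@Lb.d (nat_lit 2) (nat_lit 264) (nat_lit 34) (@Lb.g g8 (@Lb.g g9 (@Lb.g g10 (@Lb.r r2627 (@Lb.r r345 (@Lb.r r24 (@Lb.d (nat_lit 649) (nat_lit 2) (nat_lit 130) (@Lb.t (@Lb.fm (nat_lit 9) t2504)))))))))))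
noncomputable def l27661 : Lb := (@Lb.r r21 (@Lb.r r70 (@Lb.g g8 (@Lb.r r132 (@Lb.r r2454 (@Lb.r r97 (@Lb.d (nat_lit 0) (nat_lit 0) (nat_lit 640) (@Lb.t (@Lb.fp (nat_lit 3) t4)))))))))
noncomputable def l27662 : Lb := (@Lb.d (nat_lit 0) (nat_lit 0) (nat_lit 2) (@Lb.g g10 (@Lb.g g7 (@Lb.r r386 (@Lb.r r101 (@Lb.r r24 (@Lb.d (nat_lit 352) (nat_lit 0) (nat_lit 585) (@Lb.fm (nat_lit 3) t1150))))))))
noncomputable def l27663 : Lb := (@Lb.d (nat_lit 34) (nat_lit 9) (nat_lit 0) (@Lb.g g8 (@Lb.g g9 (@Lb.g g11 (@Lb.r r1671 (@Lb.r r582 (@Lb.r r2452 (@Lb.r r25 (@Lb.d (nat_lit 521) (nat_lit 153) (nat_lit 648) (@Lb.t (@Lb.fp (nat_lit 9) t386)))))))))))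
noncomputable def l27664 : Lb := (@Lb.d (nat_lit 406) (nat_lit 277) (nat_lit 550) (@Lb.r r2453 (@Lb.r r2667 (@Lb.g g10 (@Lb.g g5 (@Lb.g g4 (@Lb.d (nat_lit 8) (nat_lit 6) (nat_lit 34) (@Lb.r r403 (@Lb.t (@Lb.fp (nat_lit 9) t3136))))))))))
noncomputable def l27665 : Lb := (@Lb.d (nat_lit 5) (nat_lit 353) (nat_lit 129) (@Lb.r r1284 (@Lb.r r2587 (@Lb.r r676 (@Lb.r r89 (@Lb.g g6 (@Lb.d (nat_lit 16) (nat_lit 8) (nat_lit 1) (@Lb.r r387 (@Lb.t (@Lb.fp (nat_lit 3) t1751))))))))))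
noncomputable def l27666 : Lb := (@Lb.d (nat_lit 4) (nat_lit 522) (nat_lit 1) (@Lb.g g8 (@Lb.g g9 (@Lb.g g10 (@Lb.r r683 (@Lb.r r2666 (@Lb.r r2585 (@Lb.d (nat_lit 329) (nat_lit 169) (nat_lit 33) (@Lb.t (@Lb.fp (nat_lit 9) t2001))))))))))
noncomputable def l27667 : Lb := (@Lb.r r323 (@Lb.d (nat_lit 133) (nat_lit 0) (nat_lit 2) (@Lb.g g8 (@Lb.g g9 (@Lb.g g10 (@Lb.r r2410 (@Lb.r r2409 (@Lb.r r1367 (@Lb.r r2696 (@Lb.d (nat_lit 345) (nat_lit 70) (nat_lit 420) (@Lb.t (@Lb.fm (nat_lit 9) t51))))))))))))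
noncomputable def l27668 : Lb := (@Lb.r r323 (@Lb.d (nat_lit 4) (nat_lit 290) (nat_lit 2) (@Lb.g g8 (@Lb.g g9 (@Lb.g g10 (@Lb.r r2647 (@Lb.r r74 (@Lb.r r1320 (@Lb.r r1433 (@Lb.d (nat_lit 661) (nat_lit 150) (nat_lit 681) (@Lb.t (@Lb.fm (nat_lit 9) t51))))))))))))
noncomputable def l27669 : Lb := (@Lb.g g10 (@Lb.r r2451 (@Lb.r r402 (@Lb.r r101 (@Lb.r r24 (@Lb.d (nat_lit 258) (nat_lit 256) (nat_lit 170) (@Lb.t (@Lb.fm (nat_lit 3) t457))))))))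
noncomputable def l27670 : Lb := (@Lb.d (nat_lit 128) (nat_lit 256) (nat_lit 257) (@Lb.r r2341 (@Lb.r r1624 (@Lb.r r1627 (@Lb.g g6 (@Lb.g g5 (@Lb.d (nat_lit 16) (nat_lit 0) (nat_lit 37) (@Lb.r r387 (@Lb.fp (nat_lit 3) t3763)))))))))
noncomputable def l27671 : Lb := (@Lb.d (nat_lit 2) (nat_lit 545) (nat_lit 66) (@Lb.g g8 (@Lb.g g9 (@Lb.g g10 (@Lb.g g11 (@Lb.r r643 (@Lb.r r2345 (@Lb.r r360 (@Lb.r r582 (@Lb.r r2180 (@Lb.d (nat_lit 385) (nat_lit 10) (nat_lit 25) (@Lb.fm (nat_lit 9) t739))))))))))))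
noncomputable def l27672 : Lb := (@Lb.d (nat_lit 138) (nat_lit 68) (nat_lit 614) (@Lb.r r532 (@Lb.r r2370 (@Lb.r r1683 (@Lb.r r2389 (@Lb.g g6 (@Lb.g g5 (@Lb.g g4 (@Lb.d (nat_lit 33) (nat_lit 1) (nat_lit 0) (@Lb.t (@Lb.fm (nat_lit 9) t378)))))))))))
noncomputable def l27673 : Lb := (@Lb.r r323 (@Lb.d (nat_lit 8) (nat_lit 4) (nat_lit 22) (@Lb.g g8 (@Lb.g g10 (@Lb.r r2405 (@Lb.r r667 (@Lb.r r1304 (@Lb.d (nat_lit 546) (nat_lit 160) (nat_lit 594) (@Lb.fp (nat_lit 3) t521)))))))))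
noncomputable def l27674 : Lb := (@Lb.r r323 (@Lb.d (nat_lit 8) (nat_lit 260) (nat_lit 22) (@Lb.g g8 (@Lb.g g10 (@Lb.r r2405 (@Lb.r r667 (@Lb.r r1304 (@Lb.d (nat_lit 553) (nat_lit 162) (nat_lit 594) (@Lb.fp (nat_lit 3) t521)))))))))
noncomputable def l27675 : Lb := (@Lb.r r82 (@Lb.d (nat_lit 132) (nat_lit 256) (nat_lit 64) (@Lb.g g8 (@Lb.g g9 (@Lb.g g11 (@Lb.r r1443 (@Lb.r r2438 (@Lb.r r1049 (@Lb.r r1624 (@Lb.d (nat_lit 165) (nat_lit 106) (nat_lit 665) (@Lb.t (@Lb.fm (nat_lit 9) t5151))))))))))))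
noncomputable def l27676 : Lb := (@Lb.d (nat_lit 402) (nat_lit 322) (nat_lit 548) (@Lb.r r1297 (@Lb.r r1315 (@Lb.r r405 (@Lb.g g7 (@Lb.g g10 (@Lb.g g5 (@Lb.g g4 (@Lb.d (nat_lit 8) (nat_lit 5) (nat_lit 146) (@Lb.fm (nat_lit 9) t1222))))))))))
noncomputable def l27677 : Lb := (@Lb.d (nat_lit 144) (nat_lit 538) (nat_lit 73) (@Lb.g g8 (@Lb.g g9 (@Lb.g g10 (@Lb.g g11 (@Lb.r r1443 (@Lb.r r1188 (@Lb.r r422 (@Lb.r r2341 (@Lb.d (nat_lit 98) (nat_lit 170) (nat_lit 385) (@Lb.fp (nat_lit 9) t5152)))))))))))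
noncomputable def l27678 : Lb := (@Lb.d (nat_lit 146) (nat_lit 512) (nat_lit 130) (@Lb.g g8 (@Lb.g g9 (@Lb.g g10 (@Lb.g g11 (@Lb.r r276 (@Lb.r r1563 (@Lb.r r2453 (@Lb.r r2390 (@Lb.r r676 (@Lb.d (nat_lit 258) (nat_lit 64) (nat_lit 665) (@Lb.fm (nat_lit 9) t3785))))))))))))
noncomputable def l27679 : Lb := (@Lb.d (nat_lit 138) (nat_lit 324) (nat_lit 614) (@Lb.r r532 (@Lb.r r2370 (@Lb.r r1683 (@Lb.r r2389 (@Lb.g g6 (@Lb.g g5 (@Lb.g g4 (@Lb.d (nat_lit 40) (nat_lit 0) (nat_lit 0) (@Lb.t (@Lb.fm (nat_lit 9) t378)))))))))))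
noncomputable def l27680 : Lb := (@Lb.d (nat_lit 2) (nat_lit 264) (nat_lit 130) (@Lb.g g8 (@Lb.g g10 (@Lb.g g11 (@Lb.r r2707 (@Lb.r r2345 (@Lb.r r1188 (@Lb.r r1158 (@Lb.d (nat_lit 290) (nat_lit 10) (nat_lit 648) (@Lb.t (@Lb.fp (nat_lit 9) t242)))))))))))
noncomputable def l27681 : Lb := (@Lb.d (nat_lit 4) (nat_lit 512) (nat_lit 73) (@Lb.g g8 (@Lb.g g9 (@Lb.g g10 (@Lb.g g11 (@Lb.r r2666 (@Lb.r r579 (@Lb.r r97 (@Lb.r r24 (@Lb.d (nat_lit 152) (nat_lit 9) (nat_lit 326) (@Lb.fm (nat_lit 9) t61)))))))))))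
noncomputable def l27682 : Lb := (@Lb.d (nat_lit 553) (nat_lit 73) (nat_lit 292) (@Lb.r r1125 (@Lb.r r386 (@Lb.r r1371 (@Lb.g g7 (@Lb.g g6 (@Lb.g g5 (@Lb.g g8 (@Lb.d (nat_lit 0) (nat_lit 17) (nat_lit 65) (@Lb.fm (nat_lit 9) t2198))))))))))
noncomputable def l27683 : Lb := (@Lb.r r323 (@Lb.d (nat_lit 133) (nat_lit 0) (nat_lit 2) (@Lb.g g8 (@Lb.g g9 (@Lb.g g10 (@Lb.r r2410 (@Lb.r r2409 (@Lb.r r1367 (@Lb.r r2696 (@Lb.d (nat_lit 345) (nat_lit 133) (nat_lit 420) (@Lb.t (@Lb.fm (nat_lit 9) t51))))))))))))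
noncomputable def l27684 : Lb := (@Lb.r r323 (@Lb.d (nat_lit 32) (nat_lit 517) (nat_lit 0) (@Lb.g g9 (@Lb.g g10 (@Lb.r r584 (@Lb.r r299 (@Lb.r r289 (@Lb.d (nat_lit 10) (nat_lit 1) (nat_lit 2) (@Lb.fm (nat_lit 3) t2301)))))))))
noncomputable def l27685 : Lb := (@Lb.d (nat_lit 37) (nat_lit 326) (nat_lit 260) (@Lb.r r2129 (@Lb.r r386 (@Lb.r r355 (@Lb.r r293 (@Lb.g g7 (@Lb.g g6 (@Lb.g g5 (@Lb.g g8 (@Lb.d (nat_lit 9) (nat_lit 16) (nat_lit 65) (@Lb.fm (nat_lit 9) t148)))))))))))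
noncomputable def l27686 : Lb := (@Lb.d (nat_lit 5) (nat_lit 512) (nat_lit 73) (@Lb.g g8 (@Lb.g g9 (@Lb.g g10 (@Lb.g g11 (@Lb.r r323 (@Lb.r r322 (@Lb.r r2153 (@Lb.r r36 (@Lb.d (nat_lit 290) (nat_lit 0) (nat_lit 41) (@Lb.fm (nat_lit 9) t40)))))))))))
noncomputable def l27687 : Lb := (@Lb.d (nat_lit 9) (nat_lit 513) (nat_lit 74) (@Lb.g g8 (@Lb.g g9 (@Lb.g g10 (@Lb.g g11 (@Lb.r r618 (@Lb.r r579 (@Lb.r r25 (@Lb.r r24 (@Lb.d (nat_lit 6) (nat_lit 96) (nat_lit 74) (@Lb.fp (nat_lit 9) t51)))))))))))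
noncomputable def l27688 : Lb := (@Lb.r r593 (@Lb.r r1303 (@Lb.r r1414 (@Lb.r r2600 (@Lb.r r153 (@Lb.d (nat_lit 0) (nat_lit 24) (nat_lit 297) (@Lb.fp (nat_lit 1) t591)))))))
noncomputable def l27689 : Lb := (@Lb.d (nat_lit 0) (nat_lit 34) (nat_lit 0) (@Lb.g g9 (@Lb.r r1303 (@Lb.r r2178 (@Lb.r r1577 (@Lb.r r1156 (@Lb.d (nat_lit 341) (nat_lit 26) (nat_lit 537) (@Lb.t (@Lb.fp (nat_lit 3) t2551)))))))))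
noncomputable def l27690 : Lb := (@Lb.r r70 (@Lb.r r263 (@Lb.d (nat_lit 5) (nat_lit 512) (nat_lit 0) (@Lb.g g8 (@Lb.g g9 (@Lb.r r299 (@Lb.r r106 (@Lb.r r37 (@Lb.r r40 (@Lb.d (nat_lit 6) (nat_lit 2) (nat_lit 0) (@Lb.fm (nat_lit 3) t321)))))))))))
noncomputable def l27691 : Lb := (@Lb.d (nat_lit 136) (nat_lit 264) (nat_lit 128) (@Lb.g g9 (@Lb.g g11 (@Lb.r r2202 (@Lb.r r260 (@Lb.r r1691 (@Lb.r r337 (@Lb.d (nat_lit 72) (nat_lit 85) (nat_lit 676) (@Lb.fm (nat_lit 3) t322)))))))))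
noncomputable def l27692 : Lb := (@Lb.d (nat_lit 130) (nat_lit 514) (nat_lit 130) (@Lb.g g8 (@Lb.g g9 (@Lb.g g10 (@Lb.g g11 (@Lb.r r2666 (@Lb.r r612 (@Lb.r r1319 (@Lb.r r405 (@Lb.r r2084 (@Lb.d (nat_lit 617) (nat_lit 137) (nat_lit 100) (@Lb.fp (nat_lit 9) t2106))))))))))))
noncomputable def l27693 : Lb := (@Lb.g g9 (@Lb.g g7 (@Lb.fp (nat_lit 3) t2)))
noncomputable def l27694 : Lb := (@Lb.d (nat_lit 136) (nat_lit 520) (nat_lit 128) (@Lb.g g9 (@Lb.g g11 (@Lb.r r2202 (@Lb.r r260 (@Lb.r r1691 (@Lb.r r337 (@Lb.d (nat_lit 74) (nat_lit 85) (nat_lit 676) (@Lb.fm (nat_lit 3) t322)))))))))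
noncomputable def l27695 : Lb := (@Lb.d (nat_lit 8) (nat_lit 516) (nat_lit 74) (@Lb.g g8 (@Lb.g g9 (@Lb.g g10 (@Lb.g g11 (@Lb.r r2691 (@Lb.r r1450 (@Lb.r r289 (@Lb.r r24 (@Lb.d (nat_lit 136) (nat_lit 33) (nat_lit 168) (@Lb.fp (nat_lit 9) t378)))))))))))
noncomputable def l27696 : Lb := (@Lb.r r81 (@Lb.d (nat_lit 129) (nat_lit 260) (nat_lit 161) (@Lb.g g8 (@Lb.g g6 (@Lb.g g11 (@Lb.r r1553 (@Lb.r r407 (@Lb.r r1608 (@Lb.d (nat_lit 338) (nat_lit 130) (nat_lit 664) (@Lb.t (@Lb.fm (nat_lit 9) t5153)))))))))))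
noncomputable def l27697 : Lb := (@Lb.r r82 (@Lb.d (nat_lit 129) (nat_lit 2) (nat_lit 128) (@Lb.g g8 (@Lb.g g9 (@Lb.g g11 (@Lb.r r2593 (@Lb.r r2343 (@Lb.r r2150 (@Lb.r r2584 (@Lb.d (nat_lit 22) (nat_lit 97) (nat_lit 37) (@Lb.t (@Lb.fm (nat_lit 9) t5154))))))))))))
noncomputable def l27698 : Lb := (@Lb.d (nat_lit 129) (nat_lit 4) (nat_lit 64) (@Lb.g g8 (@Lb.g g9 (@Lb.g g10 (@Lb.g g11 (@Lb.r r675 (@Lb.r r1634 (@Lb.r r36 (@Lb.r r1557 (@Lb.r r1060 (@Lb.d (nat_lit 290) (nat_lit 98) (nat_lit 577) (@Lb.fm (nat_lit 9) t2847))))))))))))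
noncomputable def l27699 : Lb := (@Lb.r r81 (@Lb.d (nat_lit 1) (nat_lit 0) (nat_lit 9) (@Lb.g g8 (@Lb.g g6 (@Lb.r r1643 (@Lb.r r2649 (@Lb.r r2628 (@Lb.d (nat_lit 160) (nat_lit 137) (nat_lit 424) (@Lb.fm (nat_lit 3) t5155)))))))))
noncomputable def l27700 : Lb := (@Lb.r r82 (@Lb.r r275 (@Lb.d (nat_lit 8) (nat_lit 385) (nat_lit 0) (@Lb.g g5 (@Lb.r r1636 (@Lb.r r1543 (@Lb.r r578 (@Lb.d (nat_lit 290) (nat_lit 8) (nat_lit 262) (@Lb.t (@Lb.fp (nat_lit 3) t1700))))))))))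
noncomputable def l27701 : Lb := (@Lb.d (nat_lit 9) (nat_lit 545) (nat_lit 0) (@Lb.g g8 (@Lb.g g9 (@Lb.r r2340 (@Lb.r r2395 (@Lb.r r2178 (@Lb.r r1637 (@Lb.d (nat_lit 682) (nat_lit 149) (nat_lit 546) (@Lb.fm (nat_lit 3) t64)))))))))
noncomputable def l27702 : Lb := (@Lb.d (nat_lit 385) (nat_lit 645) (nat_lit 296) (@Lb.r r1544 (@Lb.r r2178 (@Lb.r r1451 (@Lb.r r2457 (@Lb.g g4 (@Lb.d (nat_lit 69) (nat_lit 0) (nat_lit 0) (@Lb.t (@Lb.fm (nat_lit 3) t229)))))))))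
noncomputable def l27703 : Lb := (@Lb.d (nat_lit 9) (nat_lit 34) (nat_lit 0) (@Lb.g g8 (@Lb.g g9 (@Lb.r r2404 (@Lb.r r2331 (@Lb.r r2178 (@Lb.r r549 (@Lb.d (nat_lit 410) (nat_lit 25) (nat_lit 5) (@Lb.fm (nat_lit 3) t229)))))))))
noncomputable def l27704 : Lb := (@Lb.r r21 (@Lb.r r323 (@Lb.d (nat_lit 2) (nat_lit 0) (nat_lit 0) (@Lb.g g8 (@Lb.g g10 (@Lb.r r423 (@Lb.r r2345 (@Lb.r r1156 (@Lb.r r2198 (@Lb.d (nat_lit 0) (nat_lit 168) (nat_lit 548) (@Lb.fm (nat_lit 3) t5156)))))))))))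
noncomputable def l27705 : Lb := (@Lb.r r323 (@Lb.d (nat_lit 2) (nat_lit 258) (nat_lit 2) (@Lb.g g8 (@Lb.g g9 (@Lb.g g10 (@Lb.r r2154 (@Lb.r r2664 (@Lb.r r2347 (@Lb.r r2337 (@Lb.d (nat_lit 10) (nat_lit 32) (nat_lit 674) (@Lb.t (@Lb.fm (nat_lit 9) t295))))))))))))
noncomputable def l27706 : Lb := (@Lb.d (nat_lit 9) (nat_lit 33) (nat_lit 66) (@Lb.g g8 (@Lb.g g9 (@Lb.g g10 (@Lb.g g11 (@Lb.r r419 (@Lb.r r1177 (@Lb.r r2454 (@Lb.r r1608 (@Lb.d (nat_lit 592) (nat_lit 9) (nat_lit 324) (@Lb.fp (nat_lit 9) t1039)))))))))))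
noncomputable def l27707 : Lb := (@Lb.d (nat_lit 1) (nat_lit 34) (nat_lit 66) (@Lb.g g4 (@Lb.g g9 (@Lb.g g10 (@Lb.g g11 (@Lb.r r419 (@Lb.r r1122 (@Lb.r r1125 (@Lb.d (nat_lit 290) (nat_lit 84) (nat_lit 164) (@Lb.fp (nat_lit 9) t200))))))))))
noncomputable def l27708 : Lb := (@Lb.r r21 (@Lb.r r323 (@Lb.d (nat_lit 138) (nat_lit 0) (nat_lit 2) (@Lb.g g8 (@Lb.g g10 (@Lb.r r2394 (@Lb.r r1685 (@Lb.r r1559 (@Lb.r r2312 (@Lb.d (nat_lit 393) (nat_lit 165) (nat_lit 320) (@Lb.fm (nat_lit 3) t295)))))))))))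
noncomputable def l27709 : Lb := (@Lb.d (nat_lit 8) (nat_lit 514) (nat_lit 74) (@Lb.g g8 (@Lb.g g9 (@Lb.g g10 (@Lb.g g11 (@Lb.r r1186 (@Lb.r r292 (@Lb.r r405 (@Lb.r r2667 (@Lb.r r1060 (@Lb.d (nat_lit 608) (nat_lit 5) (nat_lit 278) (@Lb.fp (nat_lit 9) t590))))))))))))
noncomputable def l27710 : Lb := (@Lb.d (nat_lit 9) (nat_lit 549) (nat_lit 10) (@Lb.g g8 (@Lb.g g9 (@Lb.g g10 (@Lb.g g11 (@Lb.r r1699 (@Lb.r r1160 (@Lb.r r1610 (@Lb.r r1633 (@Lb.d (nat_lit 36) (nat_lit 8) (nat_lit 384) (@Lb.fm (nat_lit 9) t3054)))))))))))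
noncomputable def l27711 : Lb := (@Lb.r r323 (@Lb.d (nat_lit 9) (nat_lit 513) (nat_lit 2) (@Lb.g g8 (@Lb.g g9 (@Lb.g g10 (@Lb.r r2210 (@Lb.r r2600 (@Lb.r r2713 (@Lb.r r1555 (@Lb.d (nat_lit 545) (nat_lit 74) (nat_lit 660) (@Lb.t (@Lb.fp (nat_lit 9) t1371))))))))))))
noncomputable def l27712 : Lb := (@Lb.g g4 (@Lb.g g10 (@Lb.g g7 (@Lb.r r402 (@Lb.r r101 (@Lb.d (nat_lit 72) (nat_lit 386) (nat_lit 320) (@Lb.t (@Lb.fm (nat_lit 9) t1628))))))))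
noncomputable def l27713 : Lb := (@Lb.d (nat_lit 9) (nat_lit 257) (nat_lit 73) (@Lb.g g8 (@Lb.g g9 (@Lb.g g10 (@Lb.g g11 (@Lb.r r1699 (@Lb.r r1193 (@Lb.r r1188 (@Lb.r r1638 (@Lb.d (nat_lit 404) (nat_lit 96) (nat_lit 358) (@Lb.fp (nat_lit 9) t1146)))))))))))
noncomputable def l27714 : Lb := (@Lb.d (nat_lit 1) (nat_lit 256) (nat_lit 64) (@Lb.g g8 (@Lb.g g10 (@Lb.g g7 (@Lb.r r402 (@Lb.r r2145 (@Lb.r r24 (@Lb.d (nat_lit 328) (nat_lit 97) (nat_lit 320) (@Lb.t (@Lb.fm (nat_lit 9) t3206))))))))))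
noncomputable def l27715 : Lb := (@Lb.d (nat_lit 0) (nat_lit 258) (nat_lit 66) (@Lb.g g9 (@Lb.g g10 (@Lb.g g11 (@Lb.r r676 (@Lb.r r1415 (@Lb.r r2438 (@Lb.r r2657 (@Lb.d (nat_lit 162) (nat_lit 85) (nat_lit 598) (@Lb.t (@Lb.fm (nat_lit 9) t3065)))))))))))
noncomputable def l27716 : Lb := (@Lb.d (nat_lit 6) (nat_lit 512) (nat_lit 130) (@Lb.g g8 (@Lb.g g9 (@Lb.g g10 (@Lb.g g11 (@Lb.r r1706 (@Lb.r r648 (@Lb.r r1563 (@Lb.r r2337 (@Lb.r r36 (@Lb.d (nat_lit 641) (nat_lit 105) (nat_lit 66) (@Lb.fp (nat_lit 9) t242))))))))))))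
noncomputable def l27717 : Lb := (@Lb.d (nat_lit 0) (nat_lit 552) (nat_lit 65) (@Lb.g g8 (@Lb.g g9 (@Lb.g g10 (@Lb.g g11 (@Lb.r r1699 (@Lb.r r610 (@Lb.r r100 (@Lb.r r2645 (@Lb.r r1060 (@Lb.d (nat_lit 144) (nat_lit 162) (nat_lit 344) (@Lb.fm (nat_lit 9) t208))))))))))))
noncomputable def l27718 : Lb := (@Lb.d (nat_lit 136) (nat_lit 658) (nat_lit 576) (@Lb.r r1317 (@Lb.r r2648 (@Lb.r r1414 (@Lb.r r2323 (@Lb.g g7 (@Lb.g g5 (@Lb.g g4 (@Lb.d (nat_lit 0) (nat_lit 5) (nat_lit 64) (@Lb.t (@Lb.fm (nat_lit 9) t208)))))))))))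
noncomputable def l27719 : Lb := (@Lb.d (nat_lit 2) (nat_lit 514) (nat_lit 130) (@Lb.g g8 (@Lb.g g9 (@Lb.g g10 (@Lb.g g11 (@Lb.r r1706 (@Lb.r r648 (@Lb.r r1563 (@Lb.r r2337 (@Lb.r r36 (@Lb.d (nat_lit 641) (nat_lit 105) (nat_lit 66) (@Lb.fp (nat_lit 9) t242))))))))))))
noncomputable def l27720 : Lb := (@Lb.d (nat_lit 2) (nat_lit 521) (nat_lit 129) (@Lb.g g8 (@Lb.g g9 (@Lb.g g10 (@Lb.g g11 (@Lb.r r1287 (@Lb.r r1689 (@Lb.r r146 (@Lb.r r2564 (@Lb.d (nat_lit 421) (nat_lit 5) (nat_lit 416) (@Lb.fm (nat_lit 9) t4218)))))))))))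
noncomputable def l27721 : Lb := (@Lb.r r21 (@Lb.d (nat_lit 33) (nat_lit 512) (nat_lit 129) (@Lb.g g8 (@Lb.g g6 (@Lb.g g11 (@Lb.r r529 (@Lb.r r1627 (@Lb.r r1624 (@Lb.d (nat_lit 340) (nat_lit 41) (nat_lit 664) (@Lb.t (@Lb.fp (nat_lit 9) t5157)))))))))))
noncomputable def l27722 : Lb := (@Lb.r r2331 (@Lb.r r101 (@Lb.r r594 (@Lb.d (nat_lit 256) (nat_lit 512) (nat_lit 417) (@Lb.fm (nat_lit 1) t5158)))))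
noncomputable def l27723 : Lb := (@Lb.d (nat_lit 518) (nat_lit 264) (nat_lit 258) (@Lb.r r289 (@Lb.r r279 (@Lb.r r584 (@Lb.r r358 (@Lb.g g7 (@Lb.d (nat_lit 0) (nat_lit 0) (nat_lit 64) (@Lb.t (@Lb.fm (nat_lit 3) t5159)))))))))
noncomputable def l27724 : Lb := (@Lb.r r21 (@Lb.d (nat_lit 33) (nat_lit 256) (nat_lit 129) (@Lb.g g8 (@Lb.g g6 (@Lb.g g11 (@Lb.r r529 (@Lb.r r1627 (@Lb.r r1624 (@Lb.d (nat_lit 345) (nat_lit 42) (nat_lit 664) (@Lb.t (@Lb.fp (nat_lit 9) t5157)))))))))))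
noncomputable def l27725 : Lb := (@Lb.d (nat_lit 324) (nat_lit 32) (nat_lit 576) (@Lb.r r101 (@Lb.r r1431 (@Lb.r r2454 (@Lb.g g7 (@Lb.d (nat_lit 0) (nat_lit 0) (nat_lit 68) (@Lb.t (@Lb.fm (nat_lit 3) t5160))))))))
noncomputable def l27726 : Lb := (@Lb.d (nat_lit 322) (nat_lit 97) (nat_lit 640) (@Lb.r r24 (@Lb.r r2145 (@Lb.r r402 (@Lb.r r1415 (@Lb.g g7 (@Lb.g g6 (@Lb.g g4 (@Lb.d (nat_lit 1) (nat_lit 0) (nat_lit 128) (@Lb.t (@Lb.fm (nat_lit 9) t2989)))))))))))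
noncomputable def l27727 : Lb := (@Lb.d (nat_lit 129) (nat_lit 256) (nat_lit 0) (@Lb.r r20 (@Lb.r r2145 (@Lb.r r402 (@Lb.r r1675 (@Lb.g g11 (@Lb.g g6 (@Lb.g g8 (@Lb.t (@Lb.fm (nat_lit 9) t5161))))))))))
noncomputable def l27728 : Lb := (@Lb.d (nat_lit 2) (nat_lit 512) (nat_lit 130) (@Lb.g g8 (@Lb.g g9 (@Lb.g g10 (@Lb.g g11 (@Lb.r r1602 (@Lb.r r516 (@Lb.r r2391 (@Lb.r r1577 (@Lb.r r1060 (@Lb.d (nat_lit 353) (nat_lit 73) (nat_lit 513) (@Lb.fm (nat_lit 9) t5162))))))))))))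
noncomputable def l27729 : Lb := (@Lb.r r21 (@Lb.d (nat_lit 65) (nat_lit 512) (nat_lit 137) (@Lb.g g8 (@Lb.g g10 (@Lb.g g11 (@Lb.r r2728 (@Lb.r r2699 (@Lb.r r2666 (@Lb.r r25 (@Lb.d (nat_lit 21) (nat_lit 148) (nat_lit 425) (@Lb.t (@Lb.fm (nat_lit 9) t795))))))))))))
noncomputable def l27730 : Lb := (@Lb.d (nat_lit 10) (nat_lit 80) (nat_lit 42) (@Lb.r r594 (@Lb.r r1425 (@Lb.g g11 (@Lb.g g6 (@Lb.fp (nat_lit 3) t5163))))))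
noncomputable def l27731 : Lb := (@Lb.d (nat_lit 536) (nat_lit 650) (nat_lit 34) (@Lb.r r2148 (@Lb.r r402 (@Lb.r r323 (@Lb.g g7 (@Lb.g g6 (@Lb.d (nat_lit 0) (nat_lit 0) (nat_lit 64) (@Lb.fp (nat_lit 3) t3687))))))))
noncomputable def l27732 : Lb := (@Lb.r r536 (@Lb.r r533 (@Lb.r r663 (@Lb.r r682 (@Lb.r r100 (@Lb.d (nat_lit 0) (nat_lit 256) (nat_lit 144) (@Lb.fm (nat_lit 1) t756)))))))
noncomputable def l27733 : Lb := (@Lb.r r323 (@Lb.d (nat_lit 128) (nat_lit 1) (nat_lit 2) (@Lb.g g8 (@Lb.g g9 (@Lb.g g10 (@Lb.r r362 (@Lb.r r361 (@Lb.r r1431 (@Lb.r r2632 (@Lb.d (nat_lit 361) (nat_lit 133) (nat_lit 640) (@Lb.t (@Lb.fm (nat_lit 9) t71))))))))))))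
noncomputable def l27734 : Lb := (@Lb.r r1291 (@Lb.r r24 (@Lb.r r101 (@Lb.d (nat_lit 0) (nat_lit 277) (nat_lit 297) (@Lb.fp (nat_lit 1) t3940)))))
noncomputable def l27735 : Lb := (@Lb.r r267 (@Lb.d (nat_lit 10) (nat_lit 0) (nat_lit 0) (@Lb.g g4 (@Lb.r r362 (@Lb.r r1385 (@Lb.r r403 (@Lb.r r2312 (@Lb.d (nat_lit 577) (nat_lit 128) (nat_lit 512) (@Lb.t (@Lb.fm (nat_lit 3) t927))))))))))
noncomputable def l27736 : Lb := (@Lb.r r580 (@Lb.d (nat_lit 152) (nat_lit 514) (nat_lit 105) (@Lb.g g9 (@Lb.g g10 (@Lb.g g11 (@Lb.r r328 (@Lb.r r535 (@Lb.r r1433 (@Lb.d (nat_lit 644) (nat_lit 153) (nat_lit 616) (@Lb.t (@Lb.fm (nat_lit 9) t5164)))))))))))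
noncomputable def l27737 : Lb := (@Lb.r r267 (@Lb.d (nat_lit 513) (nat_lit 258) (nat_lit 0) (@Lb.g g8 (@Lb.g g9 (@Lb.g g10 (@Lb.r r2731 (@Lb.r r618 (@Lb.r r25 (@Lb.d (nat_lit 9) (nat_lit 25) (nat_lit 297) (@Lb.t (@Lb.fp (nat_lit 9) t5165)))))))))))
noncomputable def l27738 : Lb := (@Lb.r r21 (@Lb.r r70 (@Lb.d (nat_lit 409) (nat_lit 0) (nat_lit 0) (@Lb.g g4 (@Lb.r r1291 (@Lb.r r402 (@Lb.r r97 (@Lb.d (nat_lit 1) (nat_lit 2) (nat_lit 544) (@Lb.t (@Lb.fm (nat_lit 3) t739))))))))))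
noncomputable def l27739 : Lb := (@Lb.d (nat_lit 18) (nat_lit 2) (nat_lit 64) (@Lb.g g8 (@Lb.g g9 (@Lb.g g10 (@Lb.g g11 (@Lb.r r264 (@Lb.r r2471 (@Lb.r r1445 (@Lb.r r1126 (@Lb.r r132 (@Lb.d (nat_lit 553) (nat_lit 5) (nat_lit 345) (@Lb.fp (nat_lit 9) t5164))))))))))))
noncomputable def l27740 : Lb := (@Lb.d (nat_lit 2) (nat_lit 2) (nat_lit 66) (@Lb.g g8 (@Lb.g g9 (@Lb.g g10 (@Lb.g g11 (@Lb.r r2467 (@Lb.r r1130 (@Lb.r r100 (@Lb.r r1429 (@Lb.r r1060 (@Lb.d (nat_lit 617) (nat_lit 144) (nat_lit 165) (@Lb.fp (nat_lit 9) t5166))))))))))))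
noncomputable def l27741 : Lb := (@Lb.r r2069 (@Lb.r r2118 (@Lb.d (nat_lit 521) (nat_lit 0) (nat_lit 0) (@Lb.g g8 (@Lb.d (nat_lit 1) (nat_lit 128) (nat_lit 0) (@Lb.t (@Lb.fp (nat_lit 3) t5167)))))))
noncomputable def l27742 : Lb := (@Lb.d (nat_lit 8) (nat_lit 2) (nat_lit 66) (@Lb.g g8 (@Lb.g g9 (@Lb.g g10 (@Lb.g g7 (@Lb.r r386 (@Lb.r r2145 (@Lb.r r2584 (@Lb.d (nat_lit 648) (nat_lit 41) (nat_lit 297) (@Lb.fp (nat_lit 9) t5168))))))))))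
noncomputable def l27743 : Lb := (@Lb.r r21 (@Lb.r r70 (@Lb.d (nat_lit 409) (nat_lit 256) (nat_lit 0) (@Lb.g g4 (@Lb.r r1291 (@Lb.r r402 (@Lb.r r97 (@Lb.d (nat_lit 8) (nat_lit 130) (nat_lit 544) (@Lb.t (@Lb.fm (nat_lit 3) t799))))))))))
noncomputable def l27744 : Lb := (@Lb.r r70 (@Lb.d (nat_lit 2) (nat_lit 2) (nat_lit 64) (@Lb.g g8 (@Lb.g g9 (@Lb.g g11 (@Lb.r r1305 (@Lb.r r1579 (@Lb.r r2632 (@Lb.r r2182 (@Lb.d (nat_lit 5) (nat_lit 6) (nat_lit 581) (@Lb.t (@Lb.fp (nat_lit 9) t5169))))))))))))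
noncomputable def l27745 : Lb := (@Lb.r r21 (@Lb.d (nat_lit 2) (nat_lit 256) (nat_lit 2) (@Lb.g g8 (@Lb.g g10 (@Lb.g g7 (@Lb.r r386 (@Lb.r r1640 (@Lb.r r25 (@Lb.d (nat_lit 608) (nat_lit 90) (nat_lit 660) (@Lb.t (@Lb.fp (nat_lit 9) t3264)))))))))))
noncomputable def l27746 : Lb := (@Lb.d (nat_lit 410) (nat_lit 146) (nat_lit 2) (@Lb.r r2457 (@Lb.r r1702 (@Lb.r r423 (@Lb.r r1700 (@Lb.g g6 (@Lb.g g5 (@Lb.d (nat_lit 4) (nat_lit 1) (nat_lit 1) (@Lb.fp (nat_lit 3) t1126)))))))))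
noncomputable def l27747 : Lb := (@Lb.r r70 (@Lb.d (nat_lit 2) (nat_lit 514) (nat_lit 0) (@Lb.g g8 (@Lb.g g9 (@Lb.r r409 (@Lb.r r2667 (@Lb.r r2632 (@Lb.r r2182 (@Lb.d (nat_lit 512) (nat_lit 0) (nat_lit 596) (@Lb.fp (nat_lit 3) t86))))))))))
noncomputable def l27748 : Lb := (@Lb.r r331 (@Lb.d (nat_lit 136) (nat_lit 513) (nat_lit 0) (@Lb.g g8 (@Lb.g g9 (@Lb.g g10 (@Lb.r r619 (@Lb.r r1177 (@Lb.r r1626 (@Lb.r r72 (@Lb.d (nat_lit 34) (nat_lit 161) (nat_lit 329) (@Lb.t (@Lb.fm (nat_lit 9) t5170))))))))))))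
noncomputable def l27749 : Lb := (@Lb.r r21 (@Lb.d (nat_lit 128) (nat_lit 0) (nat_lit 130) (@Lb.g g8 (@Lb.g g10 (@Lb.g g11 (@Lb.r r1691 (@Lb.r r409 (@Lb.r r90 (@Lb.r r68 (@Lb.d (nat_lit 73) (nat_lit 137) (nat_lit 594) (@Lb.t (@Lb.fp (nat_lit 9) t4784))))))))))))
noncomputable def l27750 : Lb := (@Lb.d (nat_lit 2) (nat_lit 514) (nat_lit 66) (@Lb.g g8 (@Lb.g g9 (@Lb.g g10 (@Lb.g g7 (@Lb.r r386 (@Lb.r r97 (@Lb.r r24 (@Lb.d (nat_lit 329) (nat_lit 9) (nat_lit 521) (@Lb.fp (nat_lit 9) t5171))))))))))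
noncomputable def l27751 : Lb := (@Lb.d (nat_lit 133) (nat_lit 0) (nat_lit 130) (@Lb.g g8 (@Lb.g g9 (@Lb.g g10 (@Lb.g g11 (@Lb.r r683 (@Lb.r r2410 (@Lb.r r2329 (@Lb.r r516 (@Lb.d (nat_lit 266) (nat_lit 169) (nat_lit 425) (@Lb.fm (nat_lit 9) t754)))))))))))
noncomputable def l27752 : Lb := (@Lb.d (nat_lit 0) (nat_lit 256) (nat_lit 10) (@Lb.g g10 (@Lb.g g11 (@Lb.r r610 (@Lb.r r579 (@Lb.d (nat_lit 0) (nat_lit 33) (nat_lit 5) (@Lb.fp (nat_lit 3) t51)))))))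
noncomputable def l27753 : Lb := (@Lb.d (nat_lit 41) (nat_lit 257) (nat_lit 64) (@Lb.g g8 (@Lb.g g9 (@Lb.g g11 (@Lb.r r2387 (@Lb.r r582 (@Lb.r r1188 (@Lb.r r1557 (@Lb.d (nat_lit 649) (nat_lit 85) (nat_lit 586) (@Lb.t (@Lb.fm (nat_lit 9) t881)))))))))))
noncomputable def l27754 : Lb := (@Lb.d (nat_lit 1) (nat_lit 677) (nat_lit 294) (@Lb.r r21 (@Lb.r r1366 (@Lb.r r683 (@Lb.g g6 (@Lb.g g5 (@Lb.g g4 (@Lb.d (nat_lit 1) (nat_lit 8) (nat_lit 0) (@Lb.t (@Lb.fm (nat_lit 9) t40))))))))))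
noncomputable def l27755 : Lb := (@Lb.r r323 (@Lb.d (nat_lit 2) (nat_lit 290) (nat_lit 2) (@Lb.g g8 (@Lb.g g9 (@Lb.g g10 (@Lb.r r599 (@Lb.r r74 (@Lb.r r296 (@Lb.r r409 (@Lb.d (nat_lit 149) (nat_lit 86) (nat_lit 329) (@Lb.t (@Lb.fm (nat_lit 9) t119))))))))))))
noncomputable def l27756 : Lb := (@Lb.d (nat_lit 130) (nat_lit 514) (nat_lit 130) (@Lb.g g8 (@Lb.g g9 (@Lb.g g10 (@Lb.g g11 (@Lb.r r2666 (@Lb.r r612 (@Lb.r r1319 (@Lb.r r405 (@Lb.r r2084 (@Lb.d (nat_lit 616) (nat_lit 137) (nat_lit 169) (@Lb.fp (nat_lit 9) t163))))))))))))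
noncomputable def l27757 : Lb := (@Lb.r r1291 (@Lb.r r2069 (@Lb.r r8 (@Lb.d (nat_lit 73) (nat_lit 640) (nat_lit 256) (@Lb.fm (nat_lit 1) t5172)))))
noncomputable def l27758 : Lb := (@Lb.d (nat_lit 102) (nat_lit 1) (nat_lit 9) (@Lb.g g8 (@Lb.g g5 (@Lb.g g10 (@Lb.g g11 (@Lb.r r2691 (@Lb.r r1170 (@Lb.r r584 (@Lb.d (nat_lit 98) (nat_lit 33) (nat_lit 358) (@Lb.fp (nat_lit 9) t1145))))))))))
noncomputable def l27759 : Lb := (@Lb.r r323 (@Lb.d (nat_lit 0) (nat_lit 8) (nat_lit 6) (@Lb.g g10 (@Lb.r r1419 (@Lb.d (nat_lit 402) (nat_lit 2) (nat_lit 425) (@Lb.t (@Lb.fp (nat_lit 3) t899)))))))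
noncomputable def l27760 : Lb := (@Lb.r r326 (@Lb.d (nat_lit 385) (nat_lit 2) (nat_lit 128) (@Lb.g g8 (@Lb.g g9 (@Lb.g g11 (@Lb.r r1323 (@Lb.r r2626 (@Lb.r r25 (@Lb.d (nat_lit 8) (nat_lit 104) (nat_lit 642) (@Lb.t (@Lb.fm (nat_lit 9) t1792)))))))))))
noncomputable def l27761 : Lb := (@Lb.d (nat_lit 137) (nat_lit 545) (nat_lit 2) (@Lb.g g8 (@Lb.g g9 (@Lb.g g10 (@Lb.r r343 (@Lb.r r1634 (@Lb.r r344 (@Lb.r r1637 (@Lb.d (nat_lit 405) (nat_lit 146) (nat_lit 280) (@Lb.t (@Lb.fm (nat_lit 9) t2047)))))))))))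
noncomputable def l27762 : Lb := (@Lb.d (nat_lit 261) (nat_lit 166) (nat_lit 65) (@Lb.r r2069 (@Lb.r r2390 (@Lb.g g7 (@Lb.g g6 (@Lb.g g5 (@Lb.g g4 (@Lb.d (nat_lit 10) (nat_lit 1) (nat_lit 128) (@Lb.fp (nat_lit 9) t253)))))))))
noncomputable def l27763 : Lb := (@Lb.d (nat_lit 2) (nat_lit 258) (nat_lit 74) (@Lb.g g8 (@Lb.g g9 (@Lb.g g10 (@Lb.g g11 (@Lb.r r1671 (@Lb.r r340 (@Lb.r r170 (@Lb.r r2201 (@Lb.r r2180 (@Lb.d (nat_lit 104) (nat_lit 74) (nat_lit 546) (@Lb.fp (nat_lit 9) t5173))))))))))))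
noncomputable def l27764 : Lb := (@Lb.r r322 (@Lb.d (nat_lit 34) (nat_lit 514) (nat_lit 576) (@Lb.g g8 (@Lb.g g9 (@Lb.g g7 (@Lb.r r361 (@Lb.r r150 (@Lb.r r1364 (@Lb.d (nat_lit 342) (nat_lit 164) (nat_lit 529) (@Lb.t (@Lb.fp (nat_lit 9) t1115)))))))))))
noncomputable def l27765 : Lb := (@Lb.d (nat_lit 385) (nat_lit 389) (nat_lit 353) (@Lb.r r1544 (@Lb.r r2178 (@Lb.r r1451 (@Lb.r r2457 (@Lb.g g4 (@Lb.d (nat_lit 69) (nat_lit 0) (nat_lit 0) (@Lb.t (@Lb.fm (nat_lit 3) t229)))))))))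
noncomputable def l27766 : Lb := (@Lb.d (nat_lit 130) (nat_lit 258) (nat_lit 66) (@Lb.g g8 (@Lb.g g9 (@Lb.g g10 (@Lb.g g11 (@Lb.r r292 (@Lb.r r651 (@Lb.r r650 (@Lb.r r2133 (@Lb.r r1188 (@Lb.d (nat_lit 329) (nat_lit 101) (nat_lit 546) (@Lb.fp (nat_lit 9) t5174))))))))))))
noncomputable def l27767 : Lb := (@Lb.d (nat_lit 32) (nat_lit 258) (nat_lit 66) (@Lb.g g9 (@Lb.g g10 (@Lb.g g11 (@Lb.r r149 (@Lb.r r100 (@Lb.r r602 (@Lb.d (nat_lit 105) (nat_lit 6) (nat_lit 74) (@Lb.t (@Lb.fm (nat_lit 9) t521))))))))))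
noncomputable def l27768 : Lb := (@Lb.d (nat_lit 162) (nat_lit 258) (nat_lit 64) (@Lb.g g8 (@Lb.g g9 (@Lb.g g11 (@Lb.r r594 (@Lb.r r2453 (@Lb.r r1636 (@Lb.r r2375 (@Lb.r r1610 (@Lb.d (nat_lit 578) (nat_lit 134) (nat_lit 610) (@Lb.t (@Lb.fm (nat_lit 9) t5175))))))))))))
noncomputable def l27769 : Lb := (@Lb.d (nat_lit 130) (nat_lit 2) (nat_lit 66) (@Lb.g g8 (@Lb.g g9 (@Lb.g g10 (@Lb.g g11 (@Lb.r r292 (@Lb.r r651 (@Lb.r r1634 (@Lb.r r85 (@Lb.r r164 (@Lb.d (nat_lit 609) (nat_lit 1) (nat_lit 24) (@Lb.fm (nat_lit 9) t3632))))))))))))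
noncomputable def l27770 : Lb := (@Lb.d (nat_lit 1) (nat_lit 678) (nat_lit 294) (@Lb.r r1362 (@Lb.r r675 (@Lb.g g6 (@Lb.g g5 (@Lb.d (nat_lit 0) (nat_lit 8) (nat_lit 0) (@Lb.r r36 (@Lb.fp (nat_lit 3) t40))))))))
noncomputable def l27771 : Lb := (@Lb.d (nat_lit 658) (nat_lit 290) (nat_lit 260) (@Lb.r r1366 (@Lb.r r660 (@Lb.r r345 (@Lb.r r427 (@Lb.g g6 (@Lb.g g5 (@Lb.g g4 (@Lb.d (nat_lit 165) (nat_lit 9) (nat_lit 2) (@Lb.t (@Lb.fp (nat_lit 9) t40)))))))))))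
noncomputable def l27772 : Lb := (@Lb.d (nat_lit 0) (nat_lit 258) (nat_lit 2) (@Lb.g g9 (@Lb.g g10 (@Lb.g g7 (@Lb.r r386 (@Lb.r r97 (@Lb.r r24 (@Lb.d (nat_lit 330) (nat_lit 9) (nat_lit 521) (@Lb.t (@Lb.fm (nat_lit 9) t166))))))))))
noncomputable def l27773 : Lb := (@Lb.g g7 (@Lb.d (nat_lit 10) (nat_lit 2) (nat_lit 69) (@Lb.t (@Lb.fm (nat_lit 3) t2))))
noncomputable def l27774 : Lb := (@Lb.d (nat_lit 32) (nat_lit 2) (nat_lit 130) (@Lb.g g9 (@Lb.g g10 (@Lb.g g11 (@Lb.r r2695 (@Lb.r r297 (@Lb.r r1352 (@Lb.r r2662 (@Lb.d (nat_lit 656) (nat_lit 86) (nat_lit 356) (@Lb.t (@Lb.fp (nat_lit 9) t1425)))))))))))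
noncomputable def l27775 : Lb := (@Lb.d (nat_lit 32) (nat_lit 514) (nat_lit 130) (@Lb.g g9 (@Lb.g g10 (@Lb.g g11 (@Lb.r r2695 (@Lb.r r297 (@Lb.r r1352 (@Lb.r r2662 (@Lb.d (nat_lit 665) (nat_lit 85) (nat_lit 356) (@Lb.t (@Lb.fp (nat_lit 9) t242)))))))))))
noncomputable def l27776 : Lb := (@Lb.d (nat_lit 0) (nat_lit 358) (nat_lit 6) (@Lb.r r2386 (@Lb.r r2723 (@Lb.g g6 (@Lb.g g5 (@Lb.d (nat_lit 0) (nat_lit 136) (nat_lit 0) (@Lb.r r2180 (@Lb.fp (nat_lit 3) t40))))))))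
noncomputable def l27777 : Lb := (@Lb.d (nat_lit 390) (nat_lit 406) (nat_lit 297) (@Lb.r r1556 (@Lb.r r2345 (@Lb.r r1623 (@Lb.g g6 (@Lb.g g5 (@Lb.g g4 (@Lb.d (nat_lit 65) (nat_lit 8) (nat_lit 32) (@Lb.r r387 (@Lb.t (@Lb.fp (nat_lit 9) t2556)))))))))))
noncomputable def l27778 : Lb := (@Lb.d (nat_lit 0) (nat_lit 258) (nat_lit 130) (@Lb.g g9 (@Lb.g g10 (@Lb.g g11 (@Lb.r r355 (@Lb.r r386 (@Lb.r r97 (@Lb.r r36 (@Lb.d (nat_lit 0) (nat_lit 74) (nat_lit 86) (@Lb.t (@Lb.fm (nat_lit 9) t309)))))))))))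
noncomputable def l27779 : Lb := (@Lb.d (nat_lit 390) (nat_lit 150) (nat_lit 297) (@Lb.r r1556 (@Lb.r r2345 (@Lb.r r1623 (@Lb.g g6 (@Lb.g g5 (@Lb.g g4 (@Lb.d (nat_lit 65) (nat_lit 1) (nat_lit 33) (@Lb.r r387 (@Lb.t (@Lb.fp (nat_lit 9) t1643)))))))))))
noncomputable def l27780 : Lb := (@Lb.d (nat_lit 144) (nat_lit 292) (nat_lit 133) (@Lb.g g8 (@Lb.g g9 (@Lb.g g10 (@Lb.g g11 (@Lb.r r419 (@Lb.r r2154 (@Lb.r r1624 (@Lb.r r293 (@Lb.d (nat_lit 640) (nat_lit 72) (nat_lit 82) (@Lb.fp (nat_lit 9) t163)))))))))))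
noncomputable def l27781 : Lb := (@Lb.d (nat_lit 8) (nat_lit 514) (nat_lit 130) (@Lb.g g8 (@Lb.g g9 (@Lb.g g10 (@Lb.g g11 (@Lb.r r2730 (@Lb.r r648 (@Lb.r r539 (@Lb.r r289 (@Lb.r r36 (@Lb.d (nat_lit 641) (nat_lit 41) (nat_lit 322) (@Lb.fp (nat_lit 9) t242))))))))))))
noncomputable def l27782 : Lb := (@Lb.d (nat_lit 134) (nat_lit 529) (nat_lit 73) (@Lb.g g8 (@Lb.g g9 (@Lb.g g10 (@Lb.g g11 (@Lb.r r1706 (@Lb.r r1672 (@Lb.r r1563 (@Lb.r r2341 (@Lb.d (nat_lit 336) (nat_lit 153) (nat_lit 354) (@Lb.fp (nat_lit 9) t3284)))))))))))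
noncomputable def l27783 : Lb := (@Lb.d (nat_lit 1) (nat_lit 0) (nat_lit 130) (@Lb.g g8 (@Lb.g g9 (@Lb.g g10 (@Lb.g g11 (@Lb.r r2691 (@Lb.r r2345 (@Lb.r r360 (@Lb.r r582 (@Lb.r r2180 (@Lb.d (nat_lit 641) (nat_lit 10) (nat_lit 89) (@Lb.fm (nat_lit 9) t242))))))))))))
noncomputable def l27784 : Lb := (@Lb.d (nat_lit 1) (nat_lit 512) (nat_lit 130) (@Lb.g g8 (@Lb.g g9 (@Lb.g g10 (@Lb.g g11 (@Lb.r r2730 (@Lb.r r648 (@Lb.r r539 (@Lb.r r289 (@Lb.r r36 (@Lb.d (nat_lit 644) (nat_lit 42) (nat_lit 322) (@Lb.fp (nat_lit 9) t1425))))))))))))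
noncomputable def l27785 : Lb := (@Lb.r r20 (@Lb.d (nat_lit 0) (nat_lit 4) (nat_lit 0) (@Lb.g g9 (@Lb.g g10 (@Lb.r r675 (@Lb.r r2658 (@Lb.d (nat_lit 0) (nat_lit 89) (nat_lit 537) (@Lb.fp (nat_lit 3) t1369))))))))
noncomputable def l27786 : Lb := (@Lb.d (nat_lit 292) (nat_lit 392) (nat_lit 18) (@Lb.r r597 (@Lb.r r279 (@Lb.r r584 (@Lb.g g6 (@Lb.g g5 (@Lb.d (nat_lit 16) (nat_lit 0) (nat_lit 1) (@Lb.r r387 (@Lb.fp (nat_lit 3) t694)))))))))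
noncomputable def l27787 : Lb := (@Lb.d (nat_lit 553) (nat_lit 522) (nat_lit 1) (@Lb.r r1432 (@Lb.r r1106 (@Lb.r r343 (@Lb.g g6 (@Lb.g g5 (@Lb.g g4 (@Lb.d (nat_lit 1) (nat_lit 33) (nat_lit 1) (@Lb.r r387 (@Lb.t (@Lb.fm (nat_lit 9) t2157)))))))))))
noncomputable def l27788 : Lb := (@Lb.d (nat_lit 4) (nat_lit 0) (nat_lit 130) (@Lb.g g8 (@Lb.g g9 (@Lb.g g10 (@Lb.g g11 (@Lb.r r2691 (@Lb.r r297 (@Lb.r r360 (@Lb.r r582 (@Lb.r r2180 (@Lb.d (nat_lit 644) (nat_lit 74) (nat_lit 329) (@Lb.fm (nat_lit 9) t379))))))))))))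
noncomputable def l27789 : Lb := (@Lb.d (nat_lit 536) (nat_lit 514) (nat_lit 0) (@Lb.g g4 (@Lb.g g9 (@Lb.d (nat_lit 0) (nat_lit 10) (nat_lit 16) (@Lb.fp (nat_lit 3) t5176)))))
noncomputable def l27790 : Lb := (@Lb.d (nat_lit 520) (nat_lit 640) (nat_lit 0) (@Lb.r r70 (@Lb.r r263 (@Lb.g g4 (@Lb.r r267 (@Lb.r r74 (@Lb.r r2073 (@Lb.t (@Lb.fm (nat_lit 3) t68)))))))))
noncomputable def l27791 : Lb := (@Lb.r r82 (@Lb.d (nat_lit 41) (nat_lit 513) (nat_lit 128) (@Lb.g g8 (@Lb.g g9 (@Lb.g g11 (@Lb.r r363 (@Lb.r r582 (@Lb.r r388 (@Lb.d (nat_lit 100) (nat_lit 9) (nat_lit 153) (@Lb.t (@Lb.fm (nat_lit 9) t1499)))))))))))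
noncomputable def l27792 : Lb := (@Lb.d (nat_lit 5) (nat_lit 146) (nat_lit 256) (@Lb.r r24 (@Lb.r r2145 (@Lb.r r402 (@Lb.g g11 (@Lb.g g6 (@Lb.g g4 (@Lb.d (nat_lit 2) (nat_lit 0) (nat_lit 128) (@Lb.t (@Lb.fp (nat_lit 9) t546))))))))))
noncomputable def l27793 : Lb := (@Lb.r r68 (@Lb.r r323 (@Lb.d (nat_lit 8) (nat_lit 266) (nat_lit 32) (@Lb.g g9 (@Lb.g g6 (@Lb.r r387 (@Lb.r r148 (@Lb.r r2073 (@Lb.d (nat_lit 10) (nat_lit 130) (nat_lit 16) (@Lb.fp (nat_lit 3) t68))))))))))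
noncomputable def l27794 : Lb := (@Lb.g g7 (@Lb.r r402 (@Lb.r r579 (@Lb.d (nat_lit 0) (nat_lit 325) (nat_lit 326) (@Lb.t (@Lb.fm (nat_lit 3) t51))))))
noncomputable def l27795 : Lb := (@Lb.d (nat_lit 10) (nat_lit 581) (nat_lit 104) (@Lb.r r82 (@Lb.r r1425 (@Lb.g g11 (@Lb.g g6 (@Lb.d (nat_lit 0) (nat_lit 16) (nat_lit 385) (@Lb.r r529 (@Lb.fp (nat_lit 3) t296))))))))
noncomputable def l27796 : Lb := (@Lb.d (nat_lit 6) (nat_lit 134) (nat_lit 33) (@Lb.r r597 (@Lb.r r279 (@Lb.r r584 (@Lb.r r326 (@Lb.g g7 (@Lb.g g6 (@Lb.g g5 (@Lb.d (nat_lit 4) (nat_lit 1) (nat_lit 129) (@Lb.t (@Lb.fm (nat_lit 9) t521)))))))))))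
noncomputable def l27797 : Lb := (@Lb.g g7 (@Lb.r r402 (@Lb.r r579 (@Lb.d (nat_lit 0) (nat_lit 576) (nat_lit 325) (@Lb.t (@Lb.fm (nat_lit 3) t51))))))
noncomputable def l27798 : Lb := (@Lb.d (nat_lit 5) (nat_lit 392) (nat_lit 32) (@Lb.r r597 (@Lb.r r535 (@Lb.r r328 (@Lb.g g6 (@Lb.g g5 (@Lb.d (nat_lit 20) (nat_lit 1) (nat_lit 9) (@Lb.fm (nat_lit 3) t502))))))))
noncomputable def l27799 : Lb := (@Lb.d (nat_lit 38) (nat_lit 645) (nat_lit 33) (@Lb.r r100 (@Lb.r r609 (@Lb.r r402 (@Lb.r r555 (@Lb.g g8 (@Lb.d (nat_lit 65) (nat_lit 0) (nat_lit 0) (@Lb.t (@Lb.fm (nat_lit 3) t40)))))))))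
noncomputable def l27800 : Lb := (@Lb.d (nat_lit 33) (nat_lit 516) (nat_lit 128) (@Lb.g g8 (@Lb.g g9 (@Lb.g g10 (@Lb.g g11 (@Lb.r r343 (@Lb.r r600 (@Lb.r r86 (@Lb.r r97 (@Lb.d (nat_lit 421) (nat_lit 66) (nat_lit 385) (@Lb.fp (nat_lit 9) t5177)))))))))))
noncomputable def l27801 : Lb := (@Lb.d (nat_lit 2) (nat_lit 4) (nat_lit 138) (@Lb.g g8 (@Lb.g g9 (@Lb.g g10 (@Lb.g g11 (@Lb.r r683 (@Lb.r r2666 (@Lb.r r25 (@Lb.d (nat_lit 617) (nat_lit 89) (nat_lit 420) (@Lb.fm (nat_lit 9) t4128))))))))))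
noncomputable def l27802 : Lb := (@Lb.d (nat_lit 1) (nat_lit 2) (nat_lit 137) (@Lb.g g8 (@Lb.g g9 (@Lb.g g10 (@Lb.g g11 (@Lb.r r1675 (@Lb.r r145 (@Lb.r r594 (@Lb.r r1169 (@Lb.r r36 (@Lb.d (nat_lit 290) (nat_lit 161) (nat_lit 585) (@Lb.fm (nat_lit 9) t3422))))))))))))
noncomputable def l27803 : Lb := (@Lb.d (nat_lit 0) (nat_lit 0) (nat_lit 136) (@Lb.g g11 (@Lb.r r402 (@Lb.r r1172 (@Lb.r r89 (@Lb.d (nat_lit 640) (nat_lit 154) (nat_lit 642) (@Lb.t (@Lb.fm (nat_lit 3) t5178))))))))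
noncomputable def l27804 : Lb := (@Lb.d (nat_lit 129) (nat_lit 4) (nat_lit 74) (@Lb.g g8 (@Lb.g g9 (@Lb.g g10 (@Lb.g g11 (@Lb.r r683 (@Lb.r r2410 (@Lb.r r537 (@Lb.r r516 (@Lb.d (nat_lit 137) (nat_lit 89) (nat_lit 144) (@Lb.fm (nat_lit 9) t1833)))))))))))
noncomputable def l27805 : Lb := (@Lb.d (nat_lit 666) (nat_lit 421) (nat_lit 645) (@Lb.r r580 (@Lb.r r2386 (@Lb.r r2201 (@Lb.g g7 (@Lb.g g6 (@Lb.g g4 (@Lb.d (nat_lit 98) (nat_lit 0) (nat_lit 577) (@Lb.t (@Lb.fp (nat_lit 9) t3145))))))))))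
noncomputable def l27806 : Lb := (@Lb.d (nat_lit 34) (nat_lit 520) (nat_lit 72) (@Lb.g g8 (@Lb.g g9 (@Lb.g g11 (@Lb.r r582 (@Lb.r r1432 (@Lb.r r1045 (@Lb.d (nat_lit 516) (nat_lit 72) (nat_lit 617) (@Lb.t (@Lb.fp (nat_lit 9) t572))))))))))
noncomputable def l27807 : Lb := (@Lb.r r21 (@Lb.r r70 (@Lb.d (nat_lit 657) (nat_lit 256) (nat_lit 0) (@Lb.g g4 (@Lb.r r1291 (@Lb.r r402 (@Lb.r r97 (@Lb.d (nat_lit 1) (nat_lit 130) (nat_lit 512) (@Lb.t (@Lb.fm (nat_lit 3) t739))))))))))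
noncomputable def l27808 : Lb := (@Lb.r r331 (@Lb.d (nat_lit 38) (nat_lit 512) (nat_lit 4) (@Lb.g g8 (@Lb.g g9 (@Lb.g g6 (@Lb.r r2635 (@Lb.r r2337 (@Lb.r r1636 (@Lb.d (nat_lit 166) (nat_lit 148) (nat_lit 682) (@Lb.t (@Lb.fp (nat_lit 9) t5179)))))))))))
noncomputable def l27809 : Lb := (@Lb.d (nat_lit 2) (nat_lit 258) (nat_lit 0) (@Lb.g g8 (@Lb.g g9 (@Lb.r r338 (@Lb.r r681 (@Lb.r r680 (@Lb.r r1675 (@Lb.r r586 (@Lb.d (nat_lit 578) (nat_lit 145) (nat_lit 522) (@Lb.fp (nat_lit 3) t5180))))))))))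
noncomputable def l27810 : Lb := (@Lb.d (nat_lit 388) (nat_lit 662) (nat_lit 297) (@Lb.r r1556 (@Lb.r r2345 (@Lb.r r1623 (@Lb.g g6 (@Lb.g g5 (@Lb.g g4 (@Lb.d (nat_lit 65) (nat_lit 1) (nat_lit 33) (@Lb.r r387 (@Lb.t (@Lb.fp (nat_lit 9) t1643)))))))))))
noncomputable def l27811 : Lb := (@Lb.d (nat_lit 408) (nat_lit 320) (nat_lit 101) (@Lb.r r1608 (@Lb.r r619 (@Lb.r r2390 (@Lb.g g7 (@Lb.g g5 (@Lb.d (nat_lit 8) (nat_lit 82) (nat_lit 128) (@Lb.r r36 (@Lb.fm (nat_lit 3) t5179)))))))))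
noncomputable def l27812 : Lb := (@Lb.d (nat_lit 132) (nat_lit 385) (nat_lit 258) (@Lb.r r283 (@Lb.r r1617 (@Lb.r r1126 (@Lb.g g7 (@Lb.g g4 (@Lb.d (nat_lit 613) (nat_lit 16) (nat_lit 64) (@Lb.r r25 (@Lb.fm (nat_lit 3) t5181)))))))))
noncomputable def l27813 : Lb := (@Lb.d (nat_lit 162) (nat_lit 518) (nat_lit 37) (@Lb.r r644 (@Lb.r r82 (@Lb.r r599 (@Lb.g g6 (@Lb.g g5 (@Lb.g g4 (@Lb.d (nat_lit 64) (nat_lit 1) (nat_lit 1) (@Lb.r r291 (@Lb.t (@Lb.fm (nat_lit 9) t622)))))))))))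
noncomputable def l27814 : Lb := (@Lb.d (nat_lit 4) (nat_lit 410) (nat_lit 0) (@Lb.g g9 (@Lb.r r322 (@Lb.r r1667 (@Lb.r r578 (@Lb.r r1608 (@Lb.d (nat_lit 401) (nat_lit 146) (nat_lit 320) (@Lb.t (@Lb.fp (nat_lit 3) t1403)))))))))
noncomputable def l27815 : Lb := (@Lb.g g9 (@Lb.r r674 (@Lb.r r665 (@Lb.r r340 (@Lb.r r1675 (@Lb.r r586 (@Lb.d (nat_lit 2) (nat_lit 657) (nat_lit 522) (@Lb.t (@Lb.fp (nat_lit 3) t2027)))))))))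
noncomputable def l27816 : Lb := (@Lb.g g10 (@Lb.r r2707 (@Lb.r r2626 (@Lb.d (nat_lit 0) (nat_lit 408) (nat_lit 297) (@Lb.t (@Lb.fm (nat_lit 3) t51))))))
noncomputable def l27817 : Lb := (@Lb.d (nat_lit 665) (nat_lit 582) (nat_lit 646) (@Lb.r r2660 (@Lb.r r1637 (@Lb.r r346 (@Lb.g g7 (@Lb.g g4 (@Lb.d (nat_lit 21) (nat_lit 0) (nat_lit 132) (@Lb.fp (nat_lit 3) t386))))))))
noncomputable def l27818 : Lb := (@Lb.r r2337 (@Lb.r r1303 (@Lb.r r2664 (@Lb.r r1174 (@Lb.g g10 (@Lb.g g5 (@Lb.d (nat_lit 0) (nat_lit 256) (nat_lit 2) (@Lb.r r387 (@Lb.r r36 (@Lb.fm (nat_lit 3) t68))))))))))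
noncomputable def l27819 : Lb := (@Lb.d (nat_lit 0) (nat_lit 512) (nat_lit 133) (@Lb.g g4 (@Lb.g g10 (@Lb.g g11 (@Lb.r r595 (@Lb.r r674 (@Lb.d (nat_lit 1) (nat_lit 21) (nat_lit 134) (@Lb.t (@Lb.fp (nat_lit 9) t51)))))))))
noncomputable def l27820 : Lb := (@Lb.r r323 (@Lb.d (nat_lit 137) (nat_lit 265) (nat_lit 1) (@Lb.g g8 (@Lb.g g9 (@Lb.g g10 (@Lb.r r426 (@Lb.r r583 (@Lb.r r1177 (@Lb.r r408 (@Lb.d (nat_lit 90) (nat_lit 26) (nat_lit 586) (@Lb.t (@Lb.fp (nat_lit 9) t68))))))))))))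
noncomputable def l27821 : Lb := (@Lb.d (nat_lit 0) (nat_lit 512) (nat_lit 10) (@Lb.g g4 (@Lb.g g10 (@Lb.g g11 (@Lb.r r610 (@Lb.r r323 (@Lb.d (nat_lit 0) (nat_lit 17) (nat_lit 137) (@Lb.t (@Lb.fp (nat_lit 9) t1359)))))))))
noncomputable def l27822 : Lb := (@Lb.d (nat_lit 0) (nat_lit 0) (nat_lit 133) (@Lb.g g10 (@Lb.g g11 (@Lb.r r595 (@Lb.r r674 (@Lb.d (nat_lit 0) (nat_lit 21) (nat_lit 134) (@Lb.fm (nat_lit 3) t51)))))))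
noncomputable def l27823 : Lb := (@Lb.d (nat_lit 0) (nat_lit 512) (nat_lit 130) (@Lb.g g10 (@Lb.g g11 (@Lb.r r419 (@Lb.r r386 (@Lb.r r101 (@Lb.r r24 (@Lb.d (nat_lit 290) (nat_lit 0) (nat_lit 521) (@Lb.fp (nat_lit 3) t5182)))))))))
noncomputable def l27824 : Lb := (@Lb.r r323 (@Lb.d (nat_lit 0) (nat_lit 8) (nat_lit 6) (@Lb.g g10 (@Lb.r r387 (@Lb.d (nat_lit 0) (nat_lit 4) (nat_lit 64) (@Lb.t (@Lb.fp (nat_lit 3) t369)))))))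
noncomputable def l27825 : Lb := (@Lb.d (nat_lit 9) (nat_lit 641) (nat_lit 130) (@Lb.g g8 (@Lb.g g9 (@Lb.g g10 (@Lb.g g11 (@Lb.r r1451 (@Lb.r r1448 (@Lb.r r1130 (@Lb.d (nat_lit 549) (nat_lit 72) (nat_lit 137) (@Lb.fm (nat_lit 9) t1416))))))))))
noncomputable def l27826 : Lb := (@Lb.d (nat_lit 10) (nat_lit 69) (nat_lit 426) (@Lb.r r1105 (@Lb.r r418 (@Lb.r r161 (@Lb.g g11 (@Lb.g g6 (@Lb.g g5 (@Lb.d (nat_lit 0) (nat_lit 1) (nat_lit 1) (@Lb.t (@Lb.fm (nat_lit 9) t306))))))))))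
noncomputable def l27827 : Lb := (@Lb.r r82 (@Lb.d (nat_lit 9) (nat_lit 1) (nat_lit 64) (@Lb.g g8 (@Lb.g g9 (@Lb.g g7 (@Lb.r r2345 (@Lb.r r1188 (@Lb.r r1158 (@Lb.d (nat_lit 320) (nat_lit 10) (nat_lit 36) (@Lb.t (@Lb.fp (nat_lit 9) t722)))))))))))
noncomputable def l27828 : Lb := (@Lb.d (nat_lit 8) (nat_lit 166) (nat_lit 0) (@Lb.g g9 (@Lb.r r2579 (@Lb.r r2626 (@Lb.d (nat_lit 2) (nat_lit 2) (nat_lit 597) (@Lb.t (@Lb.fm (nat_lit 3) t791)))))))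
noncomputable def l27829 : Lb := (@Lb.d (nat_lit 10) (nat_lit 325) (nat_lit 426) (@Lb.r r1105 (@Lb.r r418 (@Lb.r r161 (@Lb.g g11 (@Lb.g g6 (@Lb.g g5 (@Lb.d (nat_lit 0) (nat_lit 8) (nat_lit 0) (@Lb.t (@Lb.fm (nat_lit 9) t661))))))))))
noncomputable def l27830 : Lb := (@Lb.r r323 (@Lb.d (nat_lit 8) (nat_lit 674) (nat_lit 2) (@Lb.g g9 (@Lb.g g10 (@Lb.r r2643 (@Lb.r r1410 (@Lb.d (nat_lit 2) (nat_lit 4) (nat_lit 664) (@Lb.fm (nat_lit 3) t791))))))))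
noncomputable def l27831 : Lb := (@Lb.d (nat_lit 0) (nat_lit 38) (nat_lit 64) (@Lb.g g9 (@Lb.g g10 (@Lb.g g11 (@Lb.r r427 (@Lb.r r425 (@Lb.r r418 (@Lb.r r1169 (@Lb.d (nat_lit 33) (nat_lit 164) (nat_lit 144) (@Lb.t (@Lb.fm (nat_lit 9) t5)))))))))))
noncomputable def l27832 : Lb := (@Lb.d (nat_lit 2) (nat_lit 514) (nat_lit 130) (@Lb.g g8 (@Lb.g g9 (@Lb.g g10 (@Lb.g g11 (@Lb.r r148 (@Lb.r r102 (@Lb.r r357 (@Lb.r r667 (@Lb.r r644 (@Lb.d (nat_lit 0) (nat_lit 66) (nat_lit 74) (@Lb.fp (nat_lit 9) t2))))))))))))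
noncomputable def l27833 : Lb := (@Lb.d (nat_lit 37) (nat_lit 522) (nat_lit 129) (@Lb.g g8 (@Lb.g g9 (@Lb.g g10 (@Lb.g g11 (@Lb.r r1675 (@Lb.r r1317 (@Lb.r r1668 (@Lb.r r2662 (@Lb.d (nat_lit 665) (nat_lit 144) (nat_lit 342) (@Lb.fp (nat_lit 9) t1161)))))))))))
noncomputable def l27834 : Lb := (@Lb.d (nat_lit 130) (nat_lit 544) (nat_lit 0) (@Lb.g g4 (@Lb.g g9 (@Lb.r r267 (@Lb.r r2178 (@Lb.r r2468 (@Lb.r r1189 (@Lb.d (nat_lit 522) (nat_lit 100) (nat_lit 640) (@Lb.fp (nat_lit 3) t2884)))))))))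
noncomputable def l27835 : Lb := (@Lb.r r82 (@Lb.d (nat_lit 0) (nat_lit 514) (nat_lit 0) (@Lb.g g4 (@Lb.g g9 (@Lb.r r2138 (@Lb.r r1061 (@Lb.d (nat_lit 264) (nat_lit 65) (nat_lit 0) (@Lb.fm (nat_lit 3) t1221))))))))
noncomputable def l27836 : Lb := (@Lb.r r20 (@Lb.d (nat_lit 0) (nat_lit 514) (nat_lit 66) (@Lb.g g9 (@Lb.g g10 (@Lb.g g7 (@Lb.r r386 (@Lb.r r101 (@Lb.d (nat_lit 341) (nat_lit 10) (nat_lit 585) (@Lb.t (@Lb.fp (nat_lit 9) t1670))))))))))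
noncomputable def l27837 : Lb := (@Lb.r r21 (@Lb.d (nat_lit 18) (nat_lit 256) (nat_lit 74) (@Lb.g g8 (@Lb.g g10 (@Lb.g g11 (@Lb.r r2707 (@Lb.r r2408 (@Lb.r r1174 (@Lb.r r97 (@Lb.d (nat_lit 665) (nat_lit 166) (nat_lit 154) (@Lb.t (@Lb.fm (nat_lit 9) t981))))))))))))
noncomputable def l27838 : Lb := (@Lb.d (nat_lit 8) (nat_lit 514) (nat_lit 0) (@Lb.g g9 (@Lb.g g10 (@Lb.g g7 (@Lb.r r1414 (@Lb.d (nat_lit 104) (nat_lit 2) (nat_lit 354) (@Lb.t (@Lb.fm (nat_lit 9) t282))))))))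
noncomputable def l27839 : Lb := (@Lb.d (nat_lit 10) (nat_lit 0) (nat_lit 64) (@Lb.g g8 (@Lb.g g10 (@Lb.g g11 (@Lb.r r353 (@Lb.r r407 (@Lb.r r584 (@Lb.r r134 (@Lb.d (nat_lit 522) (nat_lit 2) (nat_lit 38) (@Lb.t (@Lb.fp (nat_lit 9) t40)))))))))))
noncomputable def l27840 : Lb := (@Lb.d (nat_lit 2) (nat_lit 528) (nat_lit 128) (@Lb.g g8 (@Lb.g g9 (@Lb.g g10 (@Lb.g g11 (@Lb.r r2134 (@Lb.r r1689 (@Lb.r r1427 (@Lb.r r2564 (@Lb.d (nat_lit 385) (nat_lit 90) (nat_lit 346) (@Lb.fp (nat_lit 9) t1622)))))))))))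
noncomputable def l27841 : Lb := (@Lb.d (nat_lit 664) (nat_lit 70) (nat_lit 646) (@Lb.r r2660 (@Lb.r r1637 (@Lb.r r346 (@Lb.g g7 (@Lb.g g4 (@Lb.d (nat_lit 21) (nat_lit 0) (nat_lit 132) (@Lb.fp (nat_lit 3) t386))))))))
noncomputable def l27842 : Lb := (@Lb.d (nat_lit 0) (nat_lit 256) (nat_lit 128) (@Lb.g g10 (@Lb.g g11 (@Lb.r r2707 (@Lb.r r1381 (@Lb.r r2194 (@Lb.r r24 (@Lb.d (nat_lit 514) (nat_lit 128) (nat_lit 32) (@Lb.fm (nat_lit 3) t232)))))))))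
noncomputable def l27843 : Lb := (@Lb.d (nat_lit 24) (nat_lit 258) (nat_lit 66) (@Lb.g g8 (@Lb.g g9 (@Lb.g g10 (@Lb.g g11 (@Lb.r r276 (@Lb.r r2651 (@Lb.r r2453 (@Lb.r r2390 (@Lb.r r676 (@Lb.d (nat_lit 149) (nat_lit 130) (nat_lit 665) (@Lb.fm (nat_lit 9) t3785))))))))))))
noncomputable def l27844 : Lb := (@Lb.r r70 (@Lb.r r263 (@Lb.d (nat_lit 42) (nat_lit 329) (nat_lit 0) (@Lb.g g8 (@Lb.g g9 (@Lb.r r2475 (@Lb.r r1174 (@Lb.r r72 (@Lb.d (nat_lit 277) (nat_lit 133) (nat_lit 18) (@Lb.fm (nat_lit 3) t594))))))))))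
noncomputable def l27845 : Lb := (@Lb.d (nat_lit 22) (nat_lit 65) (nat_lit 96) (@Lb.r r2202 (@Lb.r r2708 (@Lb.r r359 (@Lb.r r337 (@Lb.g g7 (@Lb.g g6 (@Lb.g g4 (@Lb.d (nat_lit 6) (nat_lit 8) (nat_lit 134) (@Lb.t (@Lb.fm (nat_lit 9) t334)))))))))))
noncomputable def l27846 : Lb := (@Lb.d (nat_lit 10) (nat_lit 2) (nat_lit 0) (@Lb.g g8 (@Lb.g g9 (@Lb.r r24 (@Lb.r r2069 (@Lb.r r36 (@Lb.d (nat_lit 0) (nat_lit 10) (nat_lit 2) (@Lb.fp (nat_lit 3) t21))))))))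
noncomputable def l27847 : Lb := (@Lb.d (nat_lit 536) (nat_lit 388) (nat_lit 169) (@Lb.r r1301 (@Lb.r r1639 (@Lb.r r2456 (@Lb.r r358 (@Lb.r r341 (@Lb.g g8 (@Lb.t (@Lb.fp (nat_lit 3) t591)))))))))
noncomputable def l27848 : Lb := (@Lb.r r70 (@Lb.r r263 (@Lb.d (nat_lit 10) (nat_lit 258) (nat_lit 0) (@Lb.g g8 (@Lb.g g9 (@Lb.r r1315 (@Lb.r r1122 (@Lb.r r2072 (@Lb.d (nat_lit 258) (nat_lit 128) (nat_lit 0) (@Lb.fp (nat_lit 3) t367))))))))))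
noncomputable def l27849 : Lb := (@Lb.r r70 (@Lb.d (nat_lit 9) (nat_lit 329) (nat_lit 0) (@Lb.g g8 (@Lb.g g9 (@Lb.g g11 (@Lb.r r2411 (@Lb.r r1174 (@Lb.r r72 (@Lb.d (nat_lit 16) (nat_lit 4) (nat_lit 18) (@Lb.t (@Lb.fm (nat_lit 9) t594)))))))))))
noncomputable def l27850 : Lb := (@Lb.d (nat_lit 10) (nat_lit 514) (nat_lit 154) (@Lb.r r2116 (@Lb.r r273 (@Lb.r r2178 (@Lb.r r2595 (@Lb.r r529 (@Lb.g g11 (@Lb.g g9 (@Lb.fm (nat_lit 3) t2551)))))))))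
noncomputable def l27851 : Lb := (@Lb.r r20 (@Lb.r r2137 (@Lb.r r323 (@Lb.g g10 (@Lb.g g4 (@Lb.d (nat_lit 21) (nat_lit 512) (nat_lit 0) (@Lb.r r387 (@Lb.r r145 (@Lb.fp (nat_lit 3) t238)))))))))
noncomputable def l27852 : Lb := (@Lb.r r101 (@Lb.d (nat_lit 17) (nat_lit 266) (nat_lit 0) (@Lb.fm (nat_lit 1) t285)))
noncomputable def l27853 : Lb := (@Lb.d (nat_lit 1) (nat_lit 264) (nat_lit 130) (@Lb.g g8 (@Lb.g g10 (@Lb.g g11 (@Lb.r r2707 (@Lb.r r2345 (@Lb.r r1188 (@Lb.r r1638 (@Lb.d (nat_lit 410) (nat_lit 154) (nat_lit 69) (@Lb.t (@Lb.fm (nat_lit 9) t242)))))))))))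
noncomputable def l27854 : Lb := (@Lb.d (nat_lit 1) (nat_lit 520) (nat_lit 130) (@Lb.g g8 (@Lb.g g10 (@Lb.g g11 (@Lb.r r2707 (@Lb.r r2345 (@Lb.r r1188 (@Lb.r r1638 (@Lb.d (nat_lit 409) (nat_lit 154) (nat_lit 69) (@Lb.t (@Lb.fm (nat_lit 9) t242)))))))))))
noncomputable def l27855 : Lb := (@Lb.d (nat_lit 1) (nat_lit 8) (nat_lit 130) (@Lb.g g8 (@Lb.g g10 (@Lb.g g11 (@Lb.r r2707 (@Lb.r r2345 (@Lb.r r1188 (@Lb.r r1158 (@Lb.d (nat_lit 289) (nat_lit 10) (nat_lit 648) (@Lb.t (@Lb.fp (nat_lit 9) t242)))))))))))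
noncomputable def l27856 : Lb := (@Lb.d (nat_lit 345) (nat_lit 133) (nat_lit 338) (@Lb.r r2312 (@Lb.r r1106 (@Lb.r r1623 (@Lb.g g6 (@Lb.g g5 (@Lb.g g4 (@Lb.d (nat_lit 65) (nat_lit 136) (nat_lit 0) (@Lb.r r387 (@Lb.t (@Lb.fp (nat_lit 9) t98)))))))))))
noncomputable def l27857 : Lb := (@Lb.d (nat_lit 0) (nat_lit 289) (nat_lit 0) (@Lb.g g9 (@Lb.r r339 (@Lb.r r134 (@Lb.r r616 (@Lb.r r537 (@Lb.d (nat_lit 74) (nat_lit 169) (nat_lit 585) (@Lb.t (@Lb.fp (nat_lit 3) t51)))))))))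
noncomputable def l27858 : Lb := (@Lb.d (nat_lit 9) (nat_lit 513) (nat_lit 73) (@Lb.g g8 (@Lb.g g9 (@Lb.g g10 (@Lb.g g11 (@Lb.r r1699 (@Lb.r r596 (@Lb.r r682 (@Lb.r r2217 (@Lb.r r2212 (@Lb.d (nat_lit 586) (nat_lit 97) (nat_lit 586) (@Lb.fm (nat_lit 9) t504))))))))))))
noncomputable def l27859 : Lb := (@Lb.d (nat_lit 26) (nat_lit 513) (nat_lit 128) (@Lb.g g8 (@Lb.g g9 (@Lb.g g10 (@Lb.g g11 (@Lb.r r2723 (@Lb.r r1557 (@Lb.r r1188 (@Lb.r r2182 (@Lb.d (nat_lit 545) (nat_lit 64) (nat_lit 596) (@Lb.fp (nat_lit 9) t594)))))))))))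
noncomputable def l27860 : Lb := (@Lb.d (nat_lit 37) (nat_lit 577) (nat_lit 98) (@Lb.r r1416 (@Lb.r r2329 (@Lb.g g7 (@Lb.g g10 (@Lb.d (nat_lit 64) (nat_lit 36) (nat_lit 82) (@Lb.fm (nat_lit 3) t5183)))))))
noncomputable def l27861 : Lb := (@Lb.d (nat_lit 128) (nat_lit 545) (nat_lit 66) (@Lb.g g8 (@Lb.g g9 (@Lb.g g10 (@Lb.g g11 (@Lb.r r1686 (@Lb.r r2404 (@Lb.r r299 (@Lb.r r2449 (@Lb.d (nat_lit 554) (nat_lit 66) (nat_lit 344) (@Lb.fm (nat_lit 9) t111)))))))))))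
noncomputable def l27862 : Lb := (@Lb.r r154 (@Lb.r r101 (@Lb.r r1304 (@Lb.r r2471 (@Lb.d (nat_lit 0) (nat_lit 24) (nat_lit 354) (@Lb.fm (nat_lit 1) t5184))))))
noncomputable def l27863 : Lb := (@Lb.d (nat_lit 33) (nat_lit 289) (nat_lit 132) (@Lb.g g8 (@Lb.g g9 (@Lb.g g10 (@Lb.g g11 (@Lb.r r419 (@Lb.r r2726 (@Lb.r r344 (@Lb.r r2453 (@Lb.r r1060 (@Lb.d (nat_lit 81) (nat_lit 41) (nat_lit 328) (@Lb.fp (nat_lit 9) t5185))))))))))))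
noncomputable def l27864 : Lb := (@Lb.d (nat_lit 1) (nat_lit 256) (nat_lit 130) (@Lb.g g8 (@Lb.g g9 (@Lb.g g10 (@Lb.g g11 (@Lb.r r1602 (@Lb.r r548 (@Lb.r r615 (@Lb.r r533 (@Lb.r r1060 (@Lb.d (nat_lit 0) (nat_lit 73) (nat_lit 402) (@Lb.fm (nat_lit 9) t2910))))))))))))
noncomputable def l27865 : Lb := (@Lb.d (nat_lit 293) (nat_lit 257) (nat_lit 64) (@Lb.r r154 (@Lb.r r101 (@Lb.r r1304 (@Lb.g g7 (@Lb.d (nat_lit 64) (nat_lit 32) (nat_lit 576) (@Lb.t (@Lb.fp (nat_lit 3) t472))))))))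
noncomputable def l27866 : Lb := (@Lb.r r327 (@Lb.d (nat_lit 9) (nat_lit 521) (nat_lit 1) (@Lb.g g8 (@Lb.g g9 (@Lb.g g10 (@Lb.r r1130 (@Lb.r r1572 (@Lb.r r423 (@Lb.r r1425 (@Lb.d (nat_lit 0) (nat_lit 16) (nat_lit 102) (@Lb.t (@Lb.fm (nat_lit 9) t5185))))))))))))
noncomputable def l27867 : Lb := (@Lb.r r21 (@Lb.r r70 (@Lb.d (nat_lit 130) (nat_lit 288) (nat_lit 64) (@Lb.g g8 (@Lb.g g11 (@Lb.r r2341 (@Lb.r r1371 (@Lb.r r610 (@Lb.d (nat_lit 649) (nat_lit 0) (nat_lit 326) (@Lb.fp (nat_lit 3) t1265))))))))))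
noncomputable def l27868 : Lb := (@Lb.d (nat_lit 2) (nat_lit 289) (nat_lit 132) (@Lb.g g8 (@Lb.g g9 (@Lb.g g10 (@Lb.g g11 (@Lb.r r2470 (@Lb.r r2407 (@Lb.r r1433 (@Lb.r r24 (@Lb.d (nat_lit 128) (nat_lit 82) (nat_lit 576) (@Lb.fp (nat_lit 9) t5186)))))))))))
noncomputable def l27869 : Lb := (@Lb.d (nat_lit 2) (nat_lit 550) (nat_lit 133) (@Lb.g g8 (@Lb.g g9 (@Lb.g g10 (@Lb.g g11 (@Lb.r r2470 (@Lb.r r2407 (@Lb.r r1433 (@Lb.r r24 (@Lb.d (nat_lit 128) (nat_lit 82) (nat_lit 645) (@Lb.fp (nat_lit 9) t3222)))))))))))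
noncomputable def l27870 : Lb := (@Lb.d (nat_lit 32) (nat_lit 512) (nat_lit 129) (@Lb.g g10 (@Lb.g g11 (@Lb.r r407 (@Lb.r r616 (@Lb.r r2665 (@Lb.r r2390 (@Lb.d (nat_lit 389) (nat_lit 150) (nat_lit 162) (@Lb.fm (nat_lit 3) t5187)))))))))
noncomputable def l27871 : Lb := (@Lb.d (nat_lit 402) (nat_lit 580) (nat_lit 534) (@Lb.r r2321 (@Lb.r r1635 (@Lb.r r533 (@Lb.g g7 (@Lb.g g10 (@Lb.g g5 (@Lb.g g4 (@Lb.d (nat_lit 8) (nat_lit 5) (nat_lit 82) (@Lb.fp (nat_lit 9) t303))))))))))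
noncomputable def l27872 : Lb := (@Lb.d (nat_lit 0) (nat_lit 100) (nat_lit 534) (@Lb.r r1346 (@Lb.r r2707 (@Lb.g g6 (@Lb.g g8 (@Lb.fm (nat_lit 3) t356))))))
noncomputable def l27873 : Lb := (@Lb.d (nat_lit 10) (nat_lit 256) (nat_lit 130) (@Lb.g g8 (@Lb.g g10 (@Lb.g g11 (@Lb.r r2443 (@Lb.r r2193 (@Lb.r r2458 (@Lb.r r2436 (@Lb.d (nat_lit 360) (nat_lit 2) (nat_lit 682) (@Lb.t (@Lb.fp (nat_lit 9) t221)))))))))))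
noncomputable def l27874 : Lb := (@Lb.d (nat_lit 21) (nat_lit 5) (nat_lit 6) (@Lb.r r105 (@Lb.r r386 (@Lb.g g11 (@Lb.g g6 (@Lb.g g5 (@Lb.g g4 (@Lb.d (nat_lit 0) (nat_lit 2) (nat_lit 129) (@Lb.fm (nat_lit 9) t51)))))))))
noncomputable def l27875 : Lb := (@Lb.r r21 (@Lb.d (nat_lit 34) (nat_lit 512) (nat_lit 72) (@Lb.g g8 (@Lb.g g10 (@Lb.g g11 (@Lb.r r651 (@Lb.r r2665 (@Lb.r r1686 (@Lb.r r1156 (@Lb.d (nat_lit 297) (nat_lit 101) (nat_lit 646) (@Lb.t (@Lb.fp (nat_lit 9) t125))))))))))))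
noncomputable def l27876 : Lb := (@Lb.d (nat_lit 10) (nat_lit 2) (nat_lit 73) (@Lb.g g8 (@Lb.g g9 (@Lb.g g10 (@Lb.g g11 (@Lb.r r676 (@Lb.r r1638 (@Lb.r r2661 (@Lb.r r359 (@Lb.r r644 (@Lb.d (nat_lit 10) (nat_lit 129) (nat_lit 18) (@Lb.fm (nat_lit 9) t2))))))))))))
noncomputable def l27877 : Lb := (@Lb.r r70 (@Lb.d (nat_lit 129) (nat_lit 258) (nat_lit 64) (@Lb.g g8 (@Lb.g g9 (@Lb.g g11 (@Lb.r r555 (@Lb.r r1410 (@Lb.r r145 (@Lb.r r1060 (@Lb.d (nat_lit 153) (nat_lit 97) (nat_lit 665) (@Lb.t (@Lb.fm (nat_lit 9) t152))))))))))))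
noncomputable def l27878 : Lb := (@Lb.d (nat_lit 2) (nat_lit 258) (nat_lit 73) (@Lb.g g8 (@Lb.g g9 (@Lb.g g10 (@Lb.g g11 (@Lb.r r2691 (@Lb.r r132 (@Lb.r r1622 (@Lb.r r145 (@Lb.r r1060 (@Lb.d (nat_lit 641) (nat_lit 98) (nat_lit 352) (@Lb.fm (nat_lit 9) t242))))))))))))
noncomputable def l27879 : Lb := (@Lb.d (nat_lit 2) (nat_lit 548) (nat_lit 64) (@Lb.g g8 (@Lb.g g9 (@Lb.g g10 (@Lb.g g11 (@Lb.r r2411 (@Lb.r r2154 (@Lb.r r601 (@Lb.d (nat_lit 105) (nat_lit 16) (nat_lit 601) (@Lb.fp (nat_lit 9) t4904))))))))))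
noncomputable def l27880 : Lb := (@Lb.d (nat_lit 0) (nat_lit 0) (nat_lit 73) (@Lb.g g10 (@Lb.g g11 (@Lb.r r419 (@Lb.r r2466 (@Lb.d (nat_lit 0) (nat_lit 25) (nat_lit 649) (@Lb.fp (nat_lit 3) t1545)))))))
noncomputable def l27881 : Lb := (@Lb.d (nat_lit 682) (nat_lit 648) (nat_lit 554) (@Lb.r r2650 (@Lb.r r1352 (@Lb.r r2711 (@Lb.r r361 (@Lb.g g7 (@Lb.g g6 (@Lb.d (nat_lit 16) (nat_lit 4) (nat_lit 65) (@Lb.fp (nat_lit 3) t428)))))))))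
noncomputable def l27882 : Lb := (@Lb.d (nat_lit 0) (nat_lit 512) (nat_lit 66) (@Lb.g g10 (@Lb.g g11 (@Lb.r r675 (@Lb.r r2658 (@Lb.r r101 (@Lb.r r24 (@Lb.d (nat_lit 96) (nat_lit 0) (nat_lit 342) (@Lb.fp (nat_lit 3) t592)))))))))
noncomputable def l27883 : Lb := (@Lb.r r82 (@Lb.d (nat_lit 2) (nat_lit 514) (nat_lit 0) (@Lb.g g8 (@Lb.g g9 (@Lb.r r1561 (@Lb.r r2579 (@Lb.r r578 (@Lb.d (nat_lit 385) (nat_lit 10) (nat_lit 642) (@Lb.fp (nat_lit 3) t5188)))))))))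
noncomputable def l27884 : Lb := (@Lb.r r593 (@Lb.d (nat_lit 146) (nat_lit 520) (nat_lit 130) (@Lb.g g8 (@Lb.g g6 (@Lb.g g11 (@Lb.r r1425 (@Lb.r r2343 (@Lb.r r2632 (@Lb.d (nat_lit 356) (nat_lit 72) (nat_lit 410) (@Lb.t (@Lb.fm (nat_lit 9) t428)))))))))))
noncomputable def l27885 : Lb := (@Lb.r r355 (@Lb.d (nat_lit 2) (nat_lit 257) (nat_lit 32) (@Lb.g g8 (@Lb.g g9 (@Lb.g g10 (@Lb.r r2713 (@Lb.r r403 (@Lb.r r24 (@Lb.d (nat_lit 640) (nat_lit 32) (nat_lit 400) (@Lb.t (@Lb.fp (nat_lit 9) t979)))))))))))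
noncomputable def l27886 : Lb := (@Lb.r r331 (@Lb.d (nat_lit 38) (nat_lit 2) (nat_lit 2) (@Lb.g g8 (@Lb.g g9 (@Lb.g g10 (@Lb.r r1577 (@Lb.r r619 (@Lb.r r548 (@Lb.d (nat_lit 169) (nat_lit 20) (nat_lit 417) (@Lb.t (@Lb.fm (nat_lit 9) t594)))))))))))
noncomputable def l27887 : Lb := (@Lb.d (nat_lit 5) (nat_lit 512) (nat_lit 73) (@Lb.g g8 (@Lb.g g9 (@Lb.g g10 (@Lb.g g11 (@Lb.r r1706 (@Lb.r r648 (@Lb.r r1563 (@Lb.r r2337 (@Lb.r r36 (@Lb.d (nat_lit 650) (nat_lit 97) (nat_lit 64) (@Lb.fp (nat_lit 9) t1412))))))))))))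
noncomputable def l27888 : Lb := (@Lb.d (nat_lit 0) (nat_lit 0) (nat_lit 9) (@Lb.g g9 (@Lb.g g10 (@Lb.g g7 (@Lb.r r386 (@Lb.r r2145 (@Lb.r r36 (@Lb.d (nat_lit 5) (nat_lit 72) (nat_lit 169) (@Lb.t (@Lb.fp (nat_lit 9) t40))))))))))
noncomputable def l27889 : Lb := (@Lb.d (nat_lit 529) (nat_lit 256) (nat_lit 86) (@Lb.r r20 (@Lb.r r2153 (@Lb.r r386 (@Lb.g g11 (@Lb.g g6 (@Lb.g g5 (@Lb.g g4 (@Lb.d (nat_lit 10) (nat_lit 0) (nat_lit 129) (@Lb.fm (nat_lit 9) t51))))))))))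
noncomputable def l27890 : Lb := (@Lb.d (nat_lit 16) (nat_lit 258) (nat_lit 128) (@Lb.g g8 (@Lb.g g9 (@Lb.g g10 (@Lb.g g11 (@Lb.r r683 (@Lb.r r676 (@Lb.r r1190 (@Lb.r r145 (@Lb.d (nat_lit 266) (nat_lit 137) (nat_lit 425) (@Lb.fp (nat_lit 9) t152)))))))))))
noncomputable def l27891 : Lb := (@Lb.g g8 (@Lb.r r593 (@Lb.r r1303 (@Lb.r r1414 (@Lb.r r2600 (@Lb.r r153 (@Lb.d (nat_lit 0) (nat_lit 280) (nat_lit 297) (@Lb.t (@Lb.fp (nat_lit 3) t591)))))))))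
noncomputable def l27892 : Lb := (@Lb.r r323 (@Lb.d (nat_lit 0) (nat_lit 520) (nat_lit 6) (@Lb.g g10 (@Lb.r r387 (@Lb.d (nat_lit 1) (nat_lit 2) (nat_lit 137) (@Lb.t (@Lb.fp (nat_lit 3) t51)))))))
noncomputable def l27893 : Lb := (@Lb.d (nat_lit 10) (nat_lit 1) (nat_lit 0) (@Lb.g g8 (@Lb.g g9 (@Lb.r r2084 (@Lb.r r37 (@Lb.d (nat_lit 264) (nat_lit 129) (nat_lit 0) (@Lb.fp (nat_lit 3) t2)))))))
noncomputable def l27894 : Lb := (@Lb.d (nat_lit 16) (nat_lit 2) (nat_lit 74) (@Lb.g g8 (@Lb.g g9 (@Lb.g g10 (@Lb.g g11 (@Lb.r r683 (@Lb.r r1602 (@Lb.r r2089 (@Lb.r r2084 (@Lb.d (nat_lit 522) (nat_lit 26) (nat_lit 665) (@Lb.fp (nat_lit 9) t50)))))))))))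
noncomputable def l27895 : Lb := (@Lb.r r21 (@Lb.d (nat_lit 5) (nat_lit 520) (nat_lit 73) (@Lb.g g4 (@Lb.g g10 (@Lb.g g11 (@Lb.r r1687 (@Lb.r r2401 (@Lb.r r1170 (@Lb.d (nat_lit 537) (nat_lit 73) (nat_lit 169) (@Lb.t (@Lb.fm (nat_lit 9) t504)))))))))))
noncomputable def l27896 : Lb := (@Lb.r r21 (@Lb.d (nat_lit 18) (nat_lit 0) (nat_lit 128) (@Lb.g g4 (@Lb.g g10 (@Lb.g g11 (@Lb.r r1687 (@Lb.r r2401 (@Lb.r r1170 (@Lb.d (nat_lit 537) (nat_lit 73) (nat_lit 34) (@Lb.t (@Lb.fm (nat_lit 9) t68)))))))))))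
noncomputable def l27897 : Lb := (@Lb.r r21 (@Lb.r r323 (@Lb.d (nat_lit 4) (nat_lit 0) (nat_lit 2) (@Lb.g g8 (@Lb.g g10 (@Lb.r r362 (@Lb.r r387 (@Lb.r r25 (@Lb.d (nat_lit 9) (nat_lit 33) (nat_lit 74) (@Lb.fm (nat_lit 3) t51))))))))))
noncomputable def l27898 : Lb := (@Lb.r r21 (@Lb.d (nat_lit 4) (nat_lit 256) (nat_lit 130) (@Lb.g g8 (@Lb.g g10 (@Lb.g g11 (@Lb.r r427 (@Lb.r r106 (@Lb.r r25 (@Lb.d (nat_lit 9) (nat_lit 9) (nat_lit 2) (@Lb.t (@Lb.fm (nat_lit 9) t51)))))))))))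
noncomputable def l27899 : Lb := (@Lb.d (nat_lit 16) (nat_lit 2) (nat_lit 74) (@Lb.g g8 (@Lb.g g9 (@Lb.g g10 (@Lb.g g11 (@Lb.r r683 (@Lb.r r676 (@Lb.r r1190 (@Lb.r r145 (@Lb.d (nat_lit 265) (nat_lit 137) (nat_lit 425) (@Lb.fp (nat_lit 9) t152)))))))))))
noncomputable def l27900 : Lb := (@Lb.d (nat_lit 65) (nat_lit 549) (nat_lit 68) (@Lb.r r408 (@Lb.r r330 (@Lb.r r343 (@Lb.g g5 (@Lb.g g4 (@Lb.d (nat_lit 18) (nat_lit 37) (nat_lit 0) (@Lb.r r291 (@Lb.r r98 (@Lb.fp (nat_lit 3) t98))))))))))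
noncomputable def l27901 : Lb := (@Lb.r r82 (@Lb.d (nat_lit 2) (nat_lit 522) (nat_lit 0) (@Lb.g g8 (@Lb.g g9 (@Lb.r r619 (@Lb.r r1430 (@Lb.r r2657 (@Lb.d (nat_lit 656) (nat_lit 165) (nat_lit 537) (@Lb.fp (nat_lit 3) t1369)))))))))
noncomputable def l27902 : Lb := (@Lb.r r82 (@Lb.d (nat_lit 0) (nat_lit 514) (nat_lit 128) (@Lb.g g8 (@Lb.g g9 (@Lb.g g11 (@Lb.r r555 (@Lb.r r386 (@Lb.r r548 (@Lb.r r613 (@Lb.d (nat_lit 9) (nat_lit 26) (nat_lit 66) (@Lb.t (@Lb.fp (nat_lit 9) t98))))))))))))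
noncomputable def l27903 : Lb := (@Lb.d (nat_lit 65) (nat_lit 37) (nat_lit 68) (@Lb.r r408 (@Lb.r r330 (@Lb.r r343 (@Lb.g g5 (@Lb.g g4 (@Lb.d (nat_lit 17) (nat_lit 37) (nat_lit 0) (@Lb.r r291 (@Lb.r r98 (@Lb.fp (nat_lit 3) t98))))))))))
noncomputable def l27904 : Lb := (@Lb.d (nat_lit 26) (nat_lit 264) (nat_lit 64) (@Lb.g g8 (@Lb.g g9 (@Lb.g g10 (@Lb.g g11 (@Lb.r r618 (@Lb.r r36 (@Lb.r r37 (@Lb.d (nat_lit 100) (nat_lit 0) (nat_lit 130) (@Lb.fm (nat_lit 9) t69))))))))))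
noncomputable def l27905 : Lb := (@Lb.d (nat_lit 34) (nat_lit 514) (nat_lit 72) (@Lb.g g8 (@Lb.g g9 (@Lb.g g11 (@Lb.r r1194 (@Lb.r r681 (@Lb.r r2343 (@Lb.r r1540 (@Lb.d (nat_lit 128) (nat_lit 66) (nat_lit 642) (@Lb.t (@Lb.fm (nat_lit 9) t3071)))))))))))
noncomputable def l27906 : Lb := (@Lb.d (nat_lit 65) (nat_lit 293) (nat_lit 2) (@Lb.r r408 (@Lb.r r330 (@Lb.r r343 (@Lb.g g5 (@Lb.g g4 (@Lb.d (nat_lit 17) (nat_lit 37) (nat_lit 0) (@Lb.r r291 (@Lb.r r98 (@Lb.fp (nat_lit 3) t98))))))))))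
noncomputable def l27907 : Lb := (@Lb.r r21 (@Lb.d (nat_lit 16) (nat_lit 0) (nat_lit 64) (@Lb.g g8 (@Lb.g g10 (@Lb.g g11 (@Lb.r r395 (@Lb.r r74 (@Lb.r r25 (@Lb.d (nat_lit 33) (nat_lit 0) (nat_lit 137) (@Lb.t (@Lb.fm (nat_lit 9) t321)))))))))))
noncomputable def l27908 : Lb := (@Lb.r r21 (@Lb.d (nat_lit 16) (nat_lit 256) (nat_lit 128) (@Lb.g g8 (@Lb.g g10 (@Lb.g g11 (@Lb.r r395 (@Lb.r r74 (@Lb.r r25 (@Lb.d (nat_lit 33) (nat_lit 0) (nat_lit 2) (@Lb.t (@Lb.fm (nat_lit 9) t321)))))))))))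
noncomputable def l27909 : Lb := (@Lb.r r21 (@Lb.d (nat_lit 17) (nat_lit 256) (nat_lit 128) (@Lb.g g4 (@Lb.g g10 (@Lb.g g11 (@Lb.r r1687 (@Lb.r r2401 (@Lb.r r1170 (@Lb.d (nat_lit 537) (nat_lit 73) (nat_lit 34) (@Lb.t (@Lb.fm (nat_lit 9) t68)))))))))))
noncomputable def l27910 : Lb := (@Lb.d (nat_lit 2) (nat_lit 10) (nat_lit 64) (@Lb.g g8 (@Lb.g g9 (@Lb.g g11 (@Lb.r r406 (@Lb.r r343 (@Lb.r r553 (@Lb.d (nat_lit 69) (nat_lit 165) (nat_lit 385) (@Lb.t (@Lb.fm (nat_lit 9) t119))))))))))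
noncomputable def l27911 : Lb := (@Lb.r r21 (@Lb.d (nat_lit 130) (nat_lit 256) (nat_lit 0) (@Lb.g g4 (@Lb.r r1435 (@Lb.r r1426 (@Lb.r r2657 (@Lb.r r68 (@Lb.d (nat_lit 33) (nat_lit 133) (nat_lit 84) (@Lb.t (@Lb.fm (nat_lit 3) t591))))))))))
noncomputable def l27912 : Lb := (@Lb.r r289 (@Lb.r r420 (@Lb.r r603 (@Lb.r r390 (@Lb.r r516 (@Lb.d (nat_lit 0) (nat_lit 266) (nat_lit 18) (@Lb.fm (nat_lit 1) t40)))))))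
noncomputable def l27913 : Lb := (@Lb.r r21 (@Lb.d (nat_lit 2) (nat_lit 296) (nat_lit 130) (@Lb.g g8 (@Lb.g g10 (@Lb.g g11 (@Lb.r r1121 (@Lb.r r1178 (@Lb.r r2724 (@Lb.r r423 (@Lb.d (nat_lit 106) (nat_lit 129) (nat_lit 612) (@Lb.t (@Lb.fm (nat_lit 9) t2))))))))))))
noncomputable def l27914 : Lb := (@Lb.d (nat_lit 1) (nat_lit 258) (nat_lit 130) (@Lb.g g8 (@Lb.g g9 (@Lb.g g10 (@Lb.g g11 (@Lb.r r276 (@Lb.r r2587 (@Lb.r r1429 (@Lb.r r2390 (@Lb.r r1700 (@Lb.d (nat_lit 9) (nat_lit 2) (nat_lit 153) (@Lb.fm (nat_lit 9) t2))))))))))))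
noncomputable def l27915 : Lb := (@Lb.d (nat_lit 2) (nat_lit 514) (nat_lit 130) (@Lb.g g8 (@Lb.g g9 (@Lb.g g10 (@Lb.g g11 (@Lb.r r276 (@Lb.r r2587 (@Lb.r r1429 (@Lb.r r2390 (@Lb.r r1700 (@Lb.d (nat_lit 9) (nat_lit 2) (nat_lit 18) (@Lb.fm (nat_lit 9) t2))))))))))))
noncomputable def l27916 : Lb := (@Lb.d (nat_lit 2) (nat_lit 2) (nat_lit 64) (@Lb.g g8 (@Lb.g g9 (@Lb.g g10 (@Lb.g g11 (@Lb.r r1323 (@Lb.r r2626 (@Lb.r r25 (@Lb.d (nat_lit 9) (nat_lit 97) (nat_lit 640) (@Lb.fp (nat_lit 9) t51))))))))))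
noncomputable def l27917 : Lb := (@Lb.r r323 (@Lb.d (nat_lit 2) (nat_lit 274) (nat_lit 2) (@Lb.g g8 (@Lb.g g9 (@Lb.g g10 (@Lb.r r427 (@Lb.r r342 (@Lb.r r169 (@Lb.d (nat_lit 21) (nat_lit 20) (nat_lit 132) (@Lb.t (@Lb.fp (nat_lit 9) t51)))))))))))
noncomputable def l27918 : Lb := (@Lb.d (nat_lit 2) (nat_lit 514) (nat_lit 68) (@Lb.g g8 (@Lb.g g9 (@Lb.g g10 (@Lb.g g11 (@Lb.r r427 (@Lb.r r578 (@Lb.r r25 (@Lb.d (nat_lit 9) (nat_lit 38) (nat_lit 129) (@Lb.fp (nat_lit 9) t51))))))))))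
noncomputable def l27919 : Lb := (@Lb.d (nat_lit 8) (nat_lit 258) (nat_lit 130) (@Lb.g g9 (@Lb.g g10 (@Lb.g g11 (@Lb.r r614 (@Lb.r r404 (@Lb.r r619 (@Lb.r r537 (@Lb.d (nat_lit 73) (nat_lit 105) (nat_lit 22) (@Lb.t (@Lb.fp (nat_lit 9) t822)))))))))))
noncomputable def l27920 : Lb := (@Lb.r r323 (@Lb.d (nat_lit 2) (nat_lit 258) (nat_lit 41) (@Lb.g g8 (@Lb.g g9 (@Lb.g g6 (@Lb.r r387 (@Lb.r r1313 (@Lb.r r24 (@Lb.d (nat_lit 9) (nat_lit 161) (nat_lit 16) (@Lb.t (@Lb.fp (nat_lit 9) t5189)))))))))))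
noncomputable def l27921 : Lb := (@Lb.r r21 (@Lb.d (nat_lit 130) (nat_lit 256) (nat_lit 66) (@Lb.g g8 (@Lb.g g10 (@Lb.g g11 (@Lb.r r644 (@Lb.r r2695 (@Lb.r r578 (@Lb.r r25 (@Lb.d (nat_lit 417) (nat_lit 81) (nat_lit 345) (@Lb.t (@Lb.fp (nat_lit 9) t5190))))))))))))
noncomputable def l27922 : Lb := (@Lb.r r1284 (@Lb.d (nat_lit 32) (nat_lit 258) (nat_lit 169) (@Lb.g g9 (@Lb.g g10 (@Lb.g g11 (@Lb.r r677 (@Lb.r r1443 (@Lb.d (nat_lit 288) (nat_lit 100) (nat_lit 88) (@Lb.t (@Lb.fp (nat_lit 9) t3189))))))))))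
noncomputable def l27923 : Lb := (@Lb.r r21 (@Lb.d (nat_lit 10) (nat_lit 544) (nat_lit 130) (@Lb.g g8 (@Lb.g g10 (@Lb.g g11 (@Lb.r r85 (@Lb.r r424 (@Lb.r r599 (@Lb.r r98 (@Lb.d (nat_lit 146) (nat_lit 138) (nat_lit 66) (@Lb.t (@Lb.fm (nat_lit 9) t126))))))))))))
noncomputable def l27924 : Lb := (@Lb.d (nat_lit 617) (nat_lit 0) (nat_lit 6) (@Lb.r r82 (@Lb.r r679 (@Lb.r r344 (@Lb.g g7 (@Lb.g g5 (@Lb.d (nat_lit 64) (nat_lit 154) (nat_lit 128) (@Lb.r r98 (@Lb.fm (nat_lit 3) t1047)))))))))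
noncomputable def l27925 : Lb := (@Lb.r r24 (@Lb.r r101 (@Lb.r r402 (@Lb.r r579 (@Lb.d (nat_lit 0) (nat_lit 256) (nat_lit 138) (@Lb.fp (nat_lit 1) t242))))))
noncomputable def l27926 : Lb := (@Lb.d (nat_lit 2) (nat_lit 266) (nat_lit 0) (@Lb.g g8 (@Lb.g g9 (@Lb.r r662 (@Lb.r r683 (@Lb.r r553 (@Lb.d (nat_lit 69) (nat_lit 160) (nat_lit 384) (@Lb.fp (nat_lit 3) t119))))))))
noncomputable def l27927 : Lb := (@Lb.d (nat_lit 16) (nat_lit 512) (nat_lit 0) (@Lb.r r21 (@Lb.g g8 (@Lb.d (nat_lit 34) (nat_lit 0) (nat_lit 0) (@Lb.r r25 (@Lb.t (@Lb.fp (nat_lit 3) t5191)))))))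
noncomputable def l27928 : Lb := (@Lb.d (nat_lit 1) (nat_lit 405) (nat_lit 354) (@Lb.r r37 (@Lb.r r2328 (@Lb.r r2375 (@Lb.g g7 (@Lb.g g6 (@Lb.g g4 (@Lb.d (nat_lit 128) (nat_lit 0) (nat_lit 17) (@Lb.r r145 (@Lb.t (@Lb.fp (nat_lit 9) t5192)))))))))))
noncomputable def l27929 : Lb := (@Lb.d (nat_lit 34) (nat_lit 258) (nat_lit 128) (@Lb.g g8 (@Lb.g g9 (@Lb.g g11 (@Lb.r r1387 (@Lb.r r361 (@Lb.r r150 (@Lb.r r612 (@Lb.d (nat_lit 152) (nat_lit 153) (nat_lit 517) (@Lb.t (@Lb.fm (nat_lit 9) t2367)))))))))))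
noncomputable def l27930 : Lb := (@Lb.d (nat_lit 2) (nat_lit 258) (nat_lit 73) (@Lb.g g8 (@Lb.g g9 (@Lb.g g10 (@Lb.g g11 (@Lb.r r427 (@Lb.r r356 (@Lb.r r154 (@Lb.r r1109 (@Lb.r r2212 (@Lb.d (nat_lit 553) (nat_lit 9) (nat_lit 137) (@Lb.fm (nat_lit 9) t4205))))))))))))
noncomputable def l27931 : Lb := (@Lb.r r323 (@Lb.d (nat_lit 130) (nat_lit 642) (nat_lit 2) (@Lb.g g8 (@Lb.g g9 (@Lb.g g10 (@Lb.r r2647 (@Lb.r r1122 (@Lb.r r388 (@Lb.d (nat_lit 98) (nat_lit 130) (nat_lit 137) (@Lb.t (@Lb.fp (nat_lit 9) t455)))))))))))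
noncomputable def l27932 : Lb := (@Lb.d (nat_lit 128) (nat_lit 512) (nat_lit 130) (@Lb.g g9 (@Lb.g g10 (@Lb.g g11 (@Lb.r r1190 (@Lb.r r2136 (@Lb.r r421 (@Lb.r r1619 (@Lb.d (nat_lit 385) (nat_lit 132) (nat_lit 16) (@Lb.t (@Lb.fm (nat_lit 9) t2894)))))))))))
noncomputable def l27933 : Lb := (@Lb.r r21 (@Lb.d (nat_lit 129) (nat_lit 512) (nat_lit 132) (@Lb.g g8 (@Lb.g g10 (@Lb.g g11 (@Lb.r r1691 (@Lb.r r1689 (@Lb.r r1370 (@Lb.r r1348 (@Lb.d (nat_lit 385) (nat_lit 26) (nat_lit 586) (@Lb.t (@Lb.fp (nat_lit 9) t68))))))))))))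
noncomputable def l27934 : Lb := (@Lb.d (nat_lit 26) (nat_lit 0) (nat_lit 128) (@Lb.g g8 (@Lb.g g10 (@Lb.g g11 (@Lb.r r1691 (@Lb.r r1602 (@Lb.r r21 (@Lb.r r2084 (@Lb.d (nat_lit 522) (nat_lit 26) (nat_lit 665) (@Lb.t (@Lb.fp (nat_lit 9) t50)))))))))))
noncomputable def l27935 : Lb := (@Lb.r r70 (@Lb.d (nat_lit 18) (nat_lit 2) (nat_lit 128) (@Lb.g g8 (@Lb.g g9 (@Lb.g g11 (@Lb.r r1706 (@Lb.r r2469 (@Lb.r r1307 (@Lb.r r1300 (@Lb.d (nat_lit 386) (nat_lit 34) (nat_lit 42) (@Lb.t (@Lb.fm (nat_lit 9) t1549))))))))))))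
noncomputable def l27936 : Lb := (@Lb.d (nat_lit 538) (nat_lit 34) (nat_lit 0) (@Lb.g g8 (@Lb.g g9 (@Lb.r r1299 (@Lb.r r2178 (@Lb.r r1569 (@Lb.d (nat_lit 322) (nat_lit 146) (nat_lit 17) (@Lb.fm (nat_lit 3) t1561))))))))
noncomputable def l27937 : Lb := (@Lb.d (nat_lit 18) (nat_lit 0) (nat_lit 128) (@Lb.g g8 (@Lb.g g10 (@Lb.g g11 (@Lb.r r1675 (@Lb.r r1668 (@Lb.r r2198 (@Lb.r r2145 (@Lb.d (nat_lit 265) (nat_lit 161) (nat_lit 128) (@Lb.t (@Lb.fp (nat_lit 9) t152)))))))))))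
noncomputable def l27938 : Lb := (@Lb.d (nat_lit 613) (nat_lit 665) (nat_lit 361) (@Lb.r r2404 (@Lb.r r1563 (@Lb.r r2389 (@Lb.g g6 (@Lb.g g5 (@Lb.g g4 (@Lb.d (nat_lit 17) (nat_lit 1) (nat_lit 1) (@Lb.r r391 (@Lb.t (@Lb.fm (nat_lit 9) t74)))))))))))
noncomputable def l27939 : Lb := (@Lb.r r70 (@Lb.d (nat_lit 161) (nat_lit 514) (nat_lit 64) (@Lb.g g8 (@Lb.g g9 (@Lb.g g11 (@Lb.r r2390 (@Lb.r r1448 (@Lb.r r665 (@Lb.r r539 (@Lb.d (nat_lit 265) (nat_lit 0) (nat_lit 106) (@Lb.t (@Lb.fm (nat_lit 9) t1549))))))))))))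
noncomputable def l27940 : Lb := (@Lb.g g5 (@Lb.d (nat_lit 2) (nat_lit 256) (nat_lit 0) (@Lb.t (@Lb.fm (nat_lit 3) t2))))
noncomputable def l27941 : Lb := (@Lb.d (nat_lit 2) (nat_lit 522) (nat_lit 72) (@Lb.g g8 (@Lb.g g9 (@Lb.g g11 (@Lb.r r86 (@Lb.r r424 (@Lb.r r279 (@Lb.r r545 (@Lb.d (nat_lit 9) (nat_lit 82) (nat_lit 74) (@Lb.t (@Lb.fm (nat_lit 9) t2)))))))))))
noncomputable def l27942 : Lb := (@Lb.d (nat_lit 0) (nat_lit 290) (nat_lit 0) (@Lb.g g9 (@Lb.r r2587 (@Lb.r r1414 (@Lb.r r2580 (@Lb.r r105 (@Lb.d (nat_lit 38) (nat_lit 129) (nat_lit 84) (@Lb.t (@Lb.fm (nat_lit 3) t71)))))))))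
noncomputable def l27943 : Lb := (@Lb.d (nat_lit 162) (nat_lit 2) (nat_lit 0) (@Lb.g g8 (@Lb.g g9 (@Lb.r r598 (@Lb.r r425 (@Lb.r r599 (@Lb.r r424 (@Lb.d (nat_lit 150) (nat_lit 100) (nat_lit 74) (@Lb.fp (nat_lit 3) t2)))))))))
noncomputable def l27944 : Lb := (@Lb.d (nat_lit 1) (nat_lit 512) (nat_lit 66) (@Lb.g g8 (@Lb.g g10 (@Lb.g g11 (@Lb.r r1559 (@Lb.r r425 (@Lb.r r98 (@Lb.r r1416 (@Lb.d (nat_lit 401) (nat_lit 137) (nat_lit 424) (@Lb.t (@Lb.fp (nat_lit 9) t386)))))))))))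
noncomputable def l27945 : Lb := (@Lb.d (nat_lit 0) (nat_lit 0) (nat_lit 73) (@Lb.g g9 (@Lb.g g10 (@Lb.g g11 (@Lb.r r2691 (@Lb.r r536 (@Lb.r r1637 (@Lb.r r1690 (@Lb.r r2180 (@Lb.d (nat_lit 672) (nat_lit 160) (nat_lit 602) (@Lb.t (@Lb.fm (nat_lit 9) t1866))))))))))))
noncomputable def l27946 : Lb := (@Lb.d (nat_lit 5) (nat_lit 385) (nat_lit 170) (@Lb.r r260 (@Lb.r r2178 (@Lb.r r603 (@Lb.r r2469 (@Lb.r r532 (@Lb.g g7 (@Lb.g g9 (@Lb.g g8 (@Lb.t (@Lb.fm (nat_lit 9) t307)))))))))))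
noncomputable def l27947 : Lb := (@Lb.d (nat_lit 134) (nat_lit 5) (nat_lit 74) (@Lb.g g8 (@Lb.g g9 (@Lb.g g10 (@Lb.g g11 (@Lb.r r683 (@Lb.r r2410 (@Lb.r r537 (@Lb.r r516 (@Lb.d (nat_lit 130) (nat_lit 90) (nat_lit 21) (@Lb.fm (nat_lit 9) t995)))))))))))
noncomputable def l27948 : Lb := (@Lb.r r322 (@Lb.d (nat_lit 2) (nat_lit 528) (nat_lit 68) (@Lb.g g8 (@Lb.g g9 (@Lb.g g11 (@Lb.r r402 (@Lb.r r2725 (@Lb.r r1156 (@Lb.d (nat_lit 294) (nat_lit 9) (nat_lit 88) (@Lb.t (@Lb.fm (nat_lit 9) t2979)))))))))))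
noncomputable def l27949 : Lb := (@Lb.d (nat_lit 5) (nat_lit 388) (nat_lit 1) (@Lb.r r1044 (@Lb.r r1110 (@Lb.r r1303 (@Lb.g g5 (@Lb.g g4 (@Lb.r r267 (@Lb.r r74 (@Lb.fm (nat_lit 3) t5193)))))))))
noncomputable def l27950 : Lb := (@Lb.d (nat_lit 2) (nat_lit 2) (nat_lit 2) (@Lb.g g8 (@Lb.g g9 (@Lb.g g10 (@Lb.g g7 (@Lb.r r386 (@Lb.r r1641 (@Lb.r r36 (@Lb.d (nat_lit 617) (nat_lit 2) (nat_lit 297) (@Lb.fm (nat_lit 9) t2877))))))))))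
noncomputable def l27951 : Lb := (@Lb.d (nat_lit 0) (nat_lit 512) (nat_lit 2) (@Lb.g g10 (@Lb.r r419 (@Lb.r r386 (@Lb.d (nat_lit 0) (nat_lit 138) (nat_lit 536) (@Lb.t (@Lb.fm (nat_lit 3) t305)))))))
noncomputable def l27952 : Lb := (@Lb.d (nat_lit 128) (nat_lit 544) (nat_lit 64) (@Lb.g g11 (@Lb.r r2345 (@Lb.r r2472 (@Lb.r r1623 (@Lb.r r2178 (@Lb.d (nat_lit 170) (nat_lit 106) (nat_lit 166) (@Lb.t (@Lb.fp (nat_lit 3) t3087)))))))))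
noncomputable def l27953 : Lb := (@Lb.d (nat_lit 8) (nat_lit 258) (nat_lit 66) (@Lb.g g9 (@Lb.g g10 (@Lb.g g11 (@Lb.r r586 (@Lb.r r1627 (@Lb.r r1624 (@Lb.r r2341 (@Lb.d (nat_lit 73) (nat_lit 9) (nat_lit 514) (@Lb.t (@Lb.fp (nat_lit 9) t1954)))))))))))
noncomputable def l27954 : Lb := (@Lb.d (nat_lit 128) (nat_lit 0) (nat_lit 130) (@Lb.g g10 (@Lb.g g11 (@Lb.r r264 (@Lb.r r519 (@Lb.r r161 (@Lb.r r98 (@Lb.d (nat_lit 128) (nat_lit 8) (nat_lit 129) (@Lb.fp (nat_lit 3) t97)))))))))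
noncomputable def l27955 : Lb := (@Lb.d (nat_lit 2) (nat_lit 521) (nat_lit 73) (@Lb.g g8 (@Lb.g g9 (@Lb.g g10 (@Lb.g g11 (@Lb.r r2731 (@Lb.r r2724 (@Lb.r r2214 (@Lb.r r145 (@Lb.d (nat_lit 521) (nat_lit 73) (nat_lit 137) (@Lb.fp (nat_lit 9) t594)))))))))))
noncomputable def l27956 : Lb := (@Lb.d (nat_lit 128) (nat_lit 256) (nat_lit 130) (@Lb.g g10 (@Lb.g g11 (@Lb.r r264 (@Lb.r r519 (@Lb.r r161 (@Lb.r r98 (@Lb.d (nat_lit 130) (nat_lit 8) (nat_lit 129) (@Lb.fp (nat_lit 3) t97)))))))))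
noncomputable def l27957 : Lb := (@Lb.d (nat_lit 1) (nat_lit 258) (nat_lit 2) (@Lb.g g8 (@Lb.g g9 (@Lb.g g10 (@Lb.g g7 (@Lb.r r386 (@Lb.r r1641 (@Lb.r r36 (@Lb.d (nat_lit 617) (nat_lit 2) (nat_lit 297) (@Lb.fm (nat_lit 9) t2877))))))))))
noncomputable def l27958 : Lb := (@Lb.d (nat_lit 2) (nat_lit 514) (nat_lit 2) (@Lb.g g8 (@Lb.g g9 (@Lb.g g10 (@Lb.g g7 (@Lb.r r386 (@Lb.r r1641 (@Lb.r r36 (@Lb.d (nat_lit 610) (nat_lit 0) (nat_lit 297) (@Lb.fm (nat_lit 9) t2877))))))))))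
noncomputable def l27959 : Lb := (@Lb.d (nat_lit 1) (nat_lit 421) (nat_lit 294) (@Lb.r r21 (@Lb.r r1366 (@Lb.r r683 (@Lb.g g6 (@Lb.g g5 (@Lb.g g4 (@Lb.d (nat_lit 1) (nat_lit 1) (nat_lit 1) (@Lb.t (@Lb.fm (nat_lit 9) t40))))))))))
noncomputable def l27960 : Lb := (@Lb.d (nat_lit 4) (nat_lit 512) (nat_lit 2) (@Lb.g g8 (@Lb.g g9 (@Lb.g g10 (@Lb.r r683 (@Lb.r r2666 (@Lb.r r25 (@Lb.d (nat_lit 2) (nat_lit 90) (nat_lit 537) (@Lb.t (@Lb.fp (nat_lit 9) t591))))))))))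
noncomputable def l27961 : Lb := (@Lb.d (nat_lit 144) (nat_lit 258) (nat_lit 64) (@Lb.g g8 (@Lb.g g9 (@Lb.g g10 (@Lb.g g11 (@Lb.r r387 (@Lb.r r164 (@Lb.r r2470 (@Lb.r r145 (@Lb.d (nat_lit 325) (nat_lit 68) (nat_lit 408) (@Lb.fm (nat_lit 9) t4)))))))))))
noncomputable def l27962 : Lb := (@Lb.r r323 (@Lb.d (nat_lit 134) (nat_lit 512) (nat_lit 2) (@Lb.g g8 (@Lb.g g9 (@Lb.g g10 (@Lb.r r599 (@Lb.r r98 (@Lb.r r97 (@Lb.r r408 (@Lb.d (nat_lit 149) (nat_lit 26) (nat_lit 138) (@Lb.t (@Lb.fp (nat_lit 9) t51))))))))))))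
noncomputable def l27963 : Lb := (@Lb.r r323 (@Lb.d (nat_lit 134) (nat_lit 0) (nat_lit 2) (@Lb.g g8 (@Lb.g g9 (@Lb.g g10 (@Lb.r r599 (@Lb.r r98 (@Lb.r r97 (@Lb.r r408 (@Lb.d (nat_lit 152) (nat_lit 24) (nat_lit 138) (@Lb.t (@Lb.fp (nat_lit 9) t51))))))))))))
noncomputable def l27964 : Lb := (@Lb.r r323 (@Lb.d (nat_lit 134) (nat_lit 0) (nat_lit 2) (@Lb.g g8 (@Lb.g g9 (@Lb.g g10 (@Lb.r r599 (@Lb.r r98 (@Lb.r r97 (@Lb.r r408 (@Lb.d (nat_lit 149) (nat_lit 21) (nat_lit 137) (@Lb.t (@Lb.fp (nat_lit 9) t51))))))))))))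
noncomputable def l27965 : Lb := (@Lb.d (nat_lit 144) (nat_lit 514) (nat_lit 64) (@Lb.g g8 (@Lb.g g9 (@Lb.g g10 (@Lb.g g11 (@Lb.r r2454 (@Lb.r r2725 (@Lb.r r1364 (@Lb.r r2459 (@Lb.d (nat_lit 148) (nat_lit 84) (nat_lit 356) (@Lb.fp (nat_lit 9) t1444)))))))))))
noncomputable def l27966 : Lb := (@Lb.r r1126 (@Lb.r r24 (@Lb.d (nat_lit 577) (nat_lit 64) (nat_lit 512) (@Lb.fm (nat_lit 1) t282))))
noncomputable def l27967 : Lb := (@Lb.d (nat_lit 134) (nat_lit 258) (nat_lit 66) (@Lb.g g8 (@Lb.g g9 (@Lb.g g10 (@Lb.g g11 (@Lb.r r1707 (@Lb.r r1610 (@Lb.r r552 (@Lb.r r2089 (@Lb.r r1060 (@Lb.d (nat_lit 105) (nat_lit 168) (nat_lit 401) (@Lb.fm (nat_lit 9) t50))))))))))))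
noncomputable def l27968 : Lb := (@Lb.r r70 (@Lb.d (nat_lit 4) (nat_lit 5) (nat_lit 128) (@Lb.g g8 (@Lb.g g5 (@Lb.g g11 (@Lb.r r1691 (@Lb.r r1610 (@Lb.r r612 (@Lb.d (nat_lit 0) (nat_lit 146) (nat_lit 666) (@Lb.t (@Lb.fm (nat_lit 9) t50)))))))))))
noncomputable def l27969 : Lb := (@Lb.d (nat_lit 33) (nat_lit 518) (nat_lit 130) (@Lb.g g8 (@Lb.g g9 (@Lb.g g10 (@Lb.g g11 (@Lb.r r1667 (@Lb.r r353 (@Lb.r r1178 (@Lb.r r388 (@Lb.d (nat_lit 38) (nat_lit 97) (nat_lit 586) (@Lb.fm (nat_lit 9) t68)))))))))))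
noncomputable def l27970 : Lb := (@Lb.d (nat_lit 618) (nat_lit 25) (nat_lit 361) (@Lb.r r2404 (@Lb.r r1563 (@Lb.r r2389 (@Lb.g g6 (@Lb.g g5 (@Lb.g g4 (@Lb.d (nat_lit 26) (nat_lit 0) (nat_lit 1) (@Lb.r r391 (@Lb.t (@Lb.fm (nat_lit 9) t68)))))))))))
noncomputable def l27971 : Lb := (@Lb.d (nat_lit 280) (nat_lit 533) (nat_lit 409) (@Lb.r r598 (@Lb.r r388 (@Lb.r r401 (@Lb.g g11 (@Lb.g g6 (@Lb.d (nat_lit 16) (nat_lit 0) (nat_lit 128) (@Lb.fp (nat_lit 3) t5194))))))))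
noncomputable def l27972 : Lb := (@Lb.d (nat_lit 34) (nat_lit 264) (nat_lit 102) (@Lb.r r70 (@Lb.r r392 (@Lb.r r599 (@Lb.g g6 (@Lb.g g5 (@Lb.g g4 (@Lb.d (nat_lit 4) (nat_lit 81) (nat_lit 1) (@Lb.r r387 (@Lb.t (@Lb.fp (nat_lit 9) t379)))))))))))
noncomputable def l27973 : Lb := (@Lb.d (nat_lit 522) (nat_lit 514) (nat_lit 100) (@Lb.r r1114 (@Lb.r r1620 (@Lb.r r409 (@Lb.r r1543 (@Lb.g g7 (@Lb.g g4 (@Lb.d (nat_lit 1) (nat_lit 0) (nat_lit 128) (@Lb.fp (nat_lit 3) t745)))))))))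
noncomputable def l27974 : Lb := (@Lb.d (nat_lit 0) (nat_lit 290) (nat_lit 2) (@Lb.g g9 (@Lb.g g10 (@Lb.r r1194 (@Lb.r r2468 (@Lb.r r1307 (@Lb.r r1573 (@Lb.d (nat_lit 390) (nat_lit 16) (nat_lit 586) (@Lb.fm (nat_lit 3) t284)))))))))
noncomputable def l27975 : Lb := (@Lb.r r1379 (@Lb.r r2209 (@Lb.r r1186 (@Lb.r r1124 (@Lb.d (nat_lit 0) (nat_lit 388) (nat_lit 2) (@Lb.fp (nat_lit 1) t4761))))))
noncomputable def l27976 : Lb := (@Lb.d (nat_lit 2) (nat_lit 258) (nat_lit 2) (@Lb.g g8 (@Lb.g g9 (@Lb.g g10 (@Lb.r r2666 (@Lb.r r579 (@Lb.r r25 (@Lb.d (nat_lit 9) (nat_lit 144) (nat_lit 320) (@Lb.t (@Lb.fp (nat_lit 9) t51))))))))))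
noncomputable def l27977 : Lb := (@Lb.d (nat_lit 665) (nat_lit 677) (nat_lit 129) (@Lb.r r2660 (@Lb.r r1637 (@Lb.r r346 (@Lb.g g11 (@Lb.g g4 (@Lb.d (nat_lit 21) (nat_lit 0) (nat_lit 0) (@Lb.fm (nat_lit 3) t322))))))))
noncomputable def l27978 : Lb := (@Lb.d (nat_lit 4) (nat_lit 549) (nat_lit 128) (@Lb.g g8 (@Lb.g g9 (@Lb.g g10 (@Lb.g g11 (@Lb.r r387 (@Lb.r r2154 (@Lb.r r2073 (@Lb.d (nat_lit 266) (nat_lit 20) (nat_lit 9) (@Lb.fp (nat_lit 9) t406))))))))))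
noncomputable def l27979 : Lb := (@Lb.d (nat_lit 138) (nat_lit 256) (nat_lit 0) (@Lb.g g4 (@Lb.r r299 (@Lb.r r2178 (@Lb.r r1305 (@Lb.r r2392 (@Lb.d (nat_lit 597) (nat_lit 105) (nat_lit 393) (@Lb.t (@Lb.fm (nat_lit 3) t2551)))))))))
noncomputable def l27980 : Lb := (@Lb.r r323 (@Lb.d (nat_lit 2) (nat_lit 256) (nat_lit 2) (@Lb.g g8 (@Lb.g g10 (@Lb.r r74 (@Lb.r r584 (@Lb.r r619 (@Lb.r r609 (@Lb.d (nat_lit 1) (nat_lit 1) (nat_lit 68) (@Lb.fp (nat_lit 3) t71))))))))))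
noncomputable def l27981 : Lb := (@Lb.d (nat_lit 129) (nat_lit 530) (nat_lit 2) (@Lb.g g8 (@Lb.g g9 (@Lb.g g10 (@Lb.r r519 (@Lb.r r1130 (@Lb.r r292 (@Lb.d (nat_lit 24) (nat_lit 33) (nat_lit 601) (@Lb.t (@Lb.fp (nat_lit 9) t1741))))))))))
noncomputable def l27982 : Lb := (@Lb.d (nat_lit 8) (nat_lit 514) (nat_lit 2) (@Lb.g g9 (@Lb.g g10 (@Lb.r r2658 (@Lb.r r579 (@Lb.d (nat_lit 2) (nat_lit 144) (nat_lit 320) (@Lb.fp (nat_lit 3) t51)))))))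
noncomputable def l27983 : Lb := (@Lb.d (nat_lit 613) (nat_lit 426) (nat_lit 104) (@Lb.r r1429 (@Lb.r r86 (@Lb.r r424 (@Lb.g g11 (@Lb.g g6 (@Lb.g g5 (@Lb.g g4 (@Lb.d (nat_lit 0) (nat_lit 1) (nat_lit 72) (@Lb.fp (nat_lit 9) t408))))))))))
noncomputable def l27984 : Lb := (@Lb.d (nat_lit 613) (nat_lit 682) (nat_lit 104) (@Lb.r r1429 (@Lb.r r86 (@Lb.r r424 (@Lb.g g11 (@Lb.g g6 (@Lb.g g5 (@Lb.g g4 (@Lb.d (nat_lit 6) (nat_lit 2) (nat_lit 72) (@Lb.fp (nat_lit 9) t1640))))))))))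
noncomputable def l27985 : Lb := (@Lb.d (nat_lit 2) (nat_lit 4) (nat_lit 128) (@Lb.g g8 (@Lb.g g9 (@Lb.g g10 (@Lb.g g11 (@Lb.r r2659 (@Lb.r r1606 (@Lb.r r424 (@Lb.r r297 (@Lb.d (nat_lit 512) (nat_lit 97) (nat_lit 640) (@Lb.fm (nat_lit 9) t842)))))))))))
noncomputable def l27986 : Lb := (@Lb.d (nat_lit 1) (nat_lit 549) (nat_lit 65) (@Lb.r r609 (@Lb.r r363 (@Lb.r r360 (@Lb.r r150 (@Lb.g g7 (@Lb.g g5 (@Lb.g g4 (@Lb.d (nat_lit 2) (nat_lit 5) (nat_lit 132) (@Lb.t (@Lb.fm (nat_lit 9) t2)))))))))))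
noncomputable def l27987 : Lb := (@Lb.d (nat_lit 16) (nat_lit 513) (nat_lit 136) (@Lb.g g8 (@Lb.g g9 (@Lb.g g10 (@Lb.g g11 (@Lb.r r600 (@Lb.r r342 (@Lb.r r1705 (@Lb.r r683 (@Lb.r r676 (@Lb.d (nat_lit 0) (nat_lit 128) (nat_lit 642) (@Lb.fm (nat_lit 9) t1356))))))))))))
noncomputable def l27988 : Lb := (@Lb.d (nat_lit 0) (nat_lit 512) (nat_lit 128) (@Lb.g g10 (@Lb.g g11 (@Lb.r r2707 (@Lb.r r1366 (@Lb.r r101 (@Lb.r r1432 (@Lb.d (nat_lit 260) (nat_lit 65) (nat_lit 325) (@Lb.fp (nat_lit 3) t5195)))))))))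
noncomputable def l27989 : Lb := (@Lb.d (nat_lit 70) (nat_lit 678) (nat_lit 353) (@Lb.r r2456 (@Lb.r r2378 (@Lb.r r663 (@Lb.g g5 (@Lb.g g4 (@Lb.d (nat_lit 73) (nat_lit 80) (nat_lit 0) (@Lb.r r295 (@Lb.r r98 (@Lb.fm (nat_lit 3) t1413))))))))))
noncomputable def l27990 : Lb := (@Lb.d (nat_lit 22) (nat_lit 1) (nat_lit 610) (@Lb.r r1284 (@Lb.r r2587 (@Lb.r r664 (@Lb.r r1361 (@Lb.g g7 (@Lb.g g6 (@Lb.g g5 (@Lb.g g4 (@Lb.d (nat_lit 37) (nat_lit 1) (nat_lit 65) (@Lb.fp (nat_lit 9) t1344)))))))))))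
noncomputable def l27991 : Lb := (@Lb.d (nat_lit 2) (nat_lit 2) (nat_lit 2) (@Lb.g g8 (@Lb.g g9 (@Lb.g g10 (@Lb.g g11 (@Lb.r r1706 (@Lb.r r2089 (@Lb.r r648 (@Lb.r r1691 (@Lb.r r2564 (@Lb.d (nat_lit 2) (nat_lit 162) (nat_lit 576) (@Lb.fp (nat_lit 9) t1344))))))))))))
noncomputable def l27992 : Lb := (@Lb.d (nat_lit 146) (nat_lit 288) (nat_lit 128) (@Lb.g g8 (@Lb.g g10 (@Lb.g g11 (@Lb.r r1297 (@Lb.r r683 (@Lb.r r1610 (@Lb.r r612 (@Lb.d (nat_lit 154) (nat_lit 82) (nat_lit 150) (@Lb.t (@Lb.fp (nat_lit 9) t5196)))))))))))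
noncomputable def l27993 : Lb := (@Lb.d (nat_lit 0) (nat_lit 2) (nat_lit 132) (@Lb.g g9 (@Lb.g g10 (@Lb.g g7 (@Lb.r r417 (@Lb.r r98 (@Lb.r r24 (@Lb.d (nat_lit 8) (nat_lit 148) (nat_lit 72) (@Lb.t (@Lb.fp (nat_lit 9) t4374))))))))))
noncomputable def l27994 : Lb := (@Lb.d (nat_lit 129) (nat_lit 617) (nat_lit 644) (@Lb.r r82 (@Lb.r r165 (@Lb.r r280 (@Lb.g g11 (@Lb.g g6 (@Lb.d (nat_lit 128) (nat_lit 16) (nat_lit 390) (@Lb.r r529 (@Lb.fp (nat_lit 3) t5197)))))))))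
noncomputable def l27995 : Lb := (@Lb.d (nat_lit 128) (nat_lit 545) (nat_lit 132) (@Lb.g g8 (@Lb.g g9 (@Lb.g g10 (@Lb.g g11 (@Lb.r r419 (@Lb.r r1668 (@Lb.r r2470 (@Lb.r r2449 (@Lb.d (nat_lit 553) (nat_lit 134) (nat_lit 344) (@Lb.fm (nat_lit 9) t1328)))))))))))
noncomputable def l27996 : Lb := (@Lb.d (nat_lit 0) (nat_lit 513) (nat_lit 130) (@Lb.g g8 (@Lb.g g9 (@Lb.g g10 (@Lb.g g11 (@Lb.r r618 (@Lb.r r105 (@Lb.r r612 (@Lb.r r1287 (@Lb.r r2564 (@Lb.d (nat_lit 9) (nat_lit 25) (nat_lit 642) (@Lb.fm (nat_lit 9) t71))))))))))))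
noncomputable def l27997 : Lb := (@Lb.r r21 (@Lb.d (nat_lit 10) (nat_lit 264) (nat_lit 130) (@Lb.g g8 (@Lb.g g10 (@Lb.g g11 (@Lb.r r427 (@Lb.r r533 (@Lb.r r360 (@Lb.r r390 (@Lb.d (nat_lit 105) (nat_lit 85) (nat_lit 392) (@Lb.t (@Lb.fm (nat_lit 9) t119))))))))))))
noncomputable def l27998 : Lb := (@Lb.g g8 (@Lb.g g5 (@Lb.g g10 (@Lb.g g7 (@Lb.r r612 (@Lb.r r359 (@Lb.r r1365 (@Lb.r r2730 (@Lb.r r676 (@Lb.d (nat_lit 0) (nat_lit 256) (nat_lit 128) (@Lb.fm (nat_lit 9) t2)))))))))))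
noncomputable def l27999 : Lb := (@Lb.d (nat_lit 0) (nat_lit 513) (nat_lit 74) (@Lb.g g8 (@Lb.g g9 (@Lb.g g10 (@Lb.g g11 (@Lb.r r165 (@Lb.r r166 (@Lb.r r600 (@Lb.r r347 (@Lb.r r657 (@Lb.d (nat_lit 8) (nat_lit 1) (nat_lit 1) (@Lb.fm (nat_lit 9) t2))))))))))))
noncomputable def l28000 : Lb := (@Lb.d (nat_lit 130) (nat_lit 33) (nat_lit 8) (@Lb.g g8 (@Lb.g g9 (@Lb.g g10 (@Lb.r r263 (@Lb.r r1604 (@Lb.r r2202 (@Lb.r r2145 (@Lb.d (nat_lit 260) (nat_lit 88) (nat_lit 417) (@Lb.t (@Lb.fm (nat_lit 9) t2)))))))))))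
noncomputable def l28001 : Lb := (@Lb.d (nat_lit 2) (nat_lit 0) (nat_lit 0) (@Lb.g g8 (@Lb.g g5 (@Lb.g g10 (@Lb.g g7 (@Lb.r r402 (@Lb.d (nat_lit 2) (nat_lit 24) (nat_lit 66) (@Lb.fm (nat_lit 9) t71))))))))
noncomputable def l28002 : Lb := (@Lb.d (nat_lit 8) (nat_lit 513) (nat_lit 130) (@Lb.g g8 (@Lb.g g9 (@Lb.g g10 (@Lb.g g11 (@Lb.r r1691 (@Lb.r r1193 (@Lb.r r1450 (@Lb.r r1416 (@Lb.d (nat_lit 409) (nat_lit 2) (nat_lit 356) (@Lb.fp (nat_lit 9) t61)))))))))))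
noncomputable def l28003 : Lb := (@Lb.d (nat_lit 128) (nat_lit 545) (nat_lit 8) (@Lb.g g8 (@Lb.g g9 (@Lb.g g10 (@Lb.r r263 (@Lb.r r1604 (@Lb.r r2202 (@Lb.r r2145 (@Lb.d (nat_lit 260) (nat_lit 88) (nat_lit 417) (@Lb.t (@Lb.fm (nat_lit 9) t2)))))))))))
noncomputable def l28004 : Lb := (@Lb.d (nat_lit 128) (nat_lit 257) (nat_lit 0) (@Lb.g g8 (@Lb.g g9 (@Lb.g g10 (@Lb.r r263 (@Lb.r r161 (@Lb.r r162 (@Lb.r r145 (@Lb.r r520 (@Lb.d (nat_lit 73) (nat_lit 4) (nat_lit 130) (@Lb.t (@Lb.fp (nat_lit 9) t45))))))))))))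
noncomputable def l28005 : Lb := (@Lb.d (nat_lit 169) (nat_lit 521) (nat_lit 0) (@Lb.g g8 (@Lb.g g9 (@Lb.r r2630 (@Lb.r r2407 (@Lb.r r289 (@Lb.r r1192 (@Lb.d (nat_lit 532) (nat_lit 70) (nat_lit 162) (@Lb.fm (nat_lit 3) t210)))))))))
noncomputable def l28006 : Lb := (@Lb.d (nat_lit 2) (nat_lit 514) (nat_lit 2) (@Lb.g g8 (@Lb.g g9 (@Lb.g g10 (@Lb.g g11 (@Lb.r r2705 (@Lb.r r356 (@Lb.r r667 (@Lb.r r586 (@Lb.r r1540 (@Lb.d (nat_lit 289) (nat_lit 10) (nat_lit 161) (@Lb.fm (nat_lit 9) t145))))))))))))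
noncomputable def l28007 : Lb := (@Lb.d (nat_lit 0) (nat_lit 612) (nat_lit 598) (@Lb.r r85 (@Lb.r r2600 (@Lb.r r1414 (@Lb.r r2667 (@Lb.r r529 (@Lb.g g4 (@Lb.t (@Lb.fp (nat_lit 3) t127)))))))))
noncomputable def l28008 : Lb := (@Lb.r r323 (@Lb.d (nat_lit 32) (nat_lit 256) (nat_lit 42) (@Lb.g g10 (@Lb.r r584 (@Lb.r r619 (@Lb.r r609 (@Lb.d (nat_lit 0) (nat_lit 2) (nat_lit 84) (@Lb.t (@Lb.fm (nat_lit 3) t479)))))))))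
noncomputable def l28009 : Lb := (@Lb.d (nat_lit 130) (nat_lit 514) (nat_lit 10) (@Lb.g g8 (@Lb.g g9 (@Lb.g g10 (@Lb.r r263 (@Lb.r r2193 (@Lb.r r612 (@Lb.r r602 (@Lb.d (nat_lit 665) (nat_lit 166) (nat_lit 321) (@Lb.t (@Lb.fm (nat_lit 9) t1224)))))))))))
noncomputable def l28010 : Lb := (@Lb.d (nat_lit 518) (nat_lit 548) (nat_lit 600) (@Lb.r r410 (@Lb.r r148 (@Lb.g g6 (@Lb.g g9 (@Lb.d (nat_lit 20) (nat_lit 64) (nat_lit 1) (@Lb.fm (nat_lit 3) t145)))))))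
noncomputable def l28011 : Lb := (@Lb.r r323 (@Lb.d (nat_lit 10) (nat_lit 264) (nat_lit 34) (@Lb.g g8 (@Lb.g g10 (@Lb.r r2577 (@Lb.r r2459 (@Lb.r r2436 (@Lb.d (nat_lit 336) (nat_lit 5) (nat_lit 681) (@Lb.fm (nat_lit 3) t221)))))))))
noncomputable def l28012 : Lb := (@Lb.d (nat_lit 0) (nat_lit 1) (nat_lit 130) (@Lb.g g8 (@Lb.g g9 (@Lb.g g10 (@Lb.g g11 (@Lb.r r618 (@Lb.r r105 (@Lb.r r340 (@Lb.r r2587 (@Lb.r r2564 (@Lb.d (nat_lit 8) (nat_lit 153) (nat_lit 642) (@Lb.fp (nat_lit 9) t71))))))))))))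
noncomputable def l28013 : Lb := (@Lb.r r323 (@Lb.d (nat_lit 1) (nat_lit 578) (nat_lit 2) (@Lb.g g4 (@Lb.g g9 (@Lb.g g10 (@Lb.r r354 (@Lb.r r387 (@Lb.d (nat_lit 1) (nat_lit 149) (nat_lit 321) (@Lb.t (@Lb.fp (nat_lit 9) t51))))))))))
noncomputable def l28014 : Lb := (@Lb.r r21 (@Lb.d (nat_lit 16) (nat_lit 256) (nat_lit 128) (@Lb.g g8 (@Lb.g g10 (@Lb.g g11 (@Lb.r r603 (@Lb.r r1602 (@Lb.r r97 (@Lb.r r1416 (@Lb.d (nat_lit 256) (nat_lit 130) (nat_lit 154) (@Lb.t (@Lb.fp (nat_lit 9) t842))))))))))))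
noncomputable def l28015 : Lb := (@Lb.d (nat_lit 9) (nat_lit 512) (nat_lit 0) (@Lb.g g8 (@Lb.g g10 (@Lb.g g7 (@Lb.r r402 (@Lb.d (nat_lit 10) (nat_lit 25) (nat_lit 66) (@Lb.t (@Lb.fm (nat_lit 9) t71))))))))
noncomputable def l28016 : Lb := (@Lb.d (nat_lit 9) (nat_lit 0) (nat_lit 0) (@Lb.g g8 (@Lb.g g10 (@Lb.g g7 (@Lb.r r402 (@Lb.d (nat_lit 9) (nat_lit 25) (nat_lit 66) (@Lb.t (@Lb.fm (nat_lit 9) t71))))))))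
noncomputable def l28017 : Lb := (@Lb.d (nat_lit 1) (nat_lit 578) (nat_lit 130) (@Lb.g g4 (@Lb.g g9 (@Lb.g g10 (@Lb.g g11 (@Lb.r r419 (@Lb.r r98 (@Lb.d (nat_lit 1) (nat_lit 4) (nat_lit 1) (@Lb.fm (nat_lit 9) t51)))))))))
noncomputable def l28018 : Lb := (@Lb.d (nat_lit 1) (nat_lit 578) (nat_lit 64) (@Lb.g g4 (@Lb.g g9 (@Lb.g g10 (@Lb.g g11 (@Lb.r r1315 (@Lb.r r2626 (@Lb.d (nat_lit 1) (nat_lit 104) (nat_lit 642) (@Lb.fm (nat_lit 9) t51)))))))))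
noncomputable def l28019 : Lb := (@Lb.r r70 (@Lb.d (nat_lit 4) (nat_lit 261) (nat_lit 128) (@Lb.g g8 (@Lb.g g5 (@Lb.g g11 (@Lb.r r1691 (@Lb.r r1610 (@Lb.r r612 (@Lb.d (nat_lit 0) (nat_lit 153) (nat_lit 665) (@Lb.t (@Lb.fm (nat_lit 9) t50)))))))))))
noncomputable def l28020 : Lb := (@Lb.r r273 (@Lb.r r2595 (@Lb.r r2178 (@Lb.r r529 (@Lb.r r1156 (@Lb.d (nat_lit 2) (nat_lit 256) (nat_lit 101) (@Lb.fp (nat_lit 1) t1540)))))))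
noncomputable def l28021 : Lb := (@Lb.r r70 (@Lb.d (nat_lit 4) (nat_lit 514) (nat_lit 128) (@Lb.g g8 (@Lb.g g9 (@Lb.g g11 (@Lb.r r1579 (@Lb.r r1410 (@Lb.r r1169 (@Lb.r r612 (@Lb.d (nat_lit 265) (nat_lit 4) (nat_lit 33) (@Lb.t (@Lb.fm (nat_lit 9) t152))))))))))))
noncomputable def l28022 : Lb := (@Lb.d (nat_lit 2) (nat_lit 4) (nat_lit 128) (@Lb.g g8 (@Lb.g g9 (@Lb.g g10 (@Lb.g g11 (@Lb.r r1699 (@Lb.r r533 (@Lb.r r1188 (@Lb.r r1158 (@Lb.d (nat_lit 289) (nat_lit 10) (nat_lit 513) (@Lb.fp (nat_lit 9) t98)))))))))))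
noncomputable def l28023 : Lb := (@Lb.d (nat_lit 2) (nat_lit 260) (nat_lit 128) (@Lb.g g8 (@Lb.g g9 (@Lb.g g10 (@Lb.g g11 (@Lb.r r1699 (@Lb.r r533 (@Lb.r r1188 (@Lb.r r1158 (@Lb.d (nat_lit 289) (nat_lit 10) (nat_lit 648) (@Lb.fp (nat_lit 9) t355)))))))))))
noncomputable def l28024 : Lb := (@Lb.d (nat_lit 2) (nat_lit 516) (nat_lit 128) (@Lb.g g8 (@Lb.g g9 (@Lb.g g10 (@Lb.g g11 (@Lb.r r1699 (@Lb.r r533 (@Lb.r r1188 (@Lb.r r1158 (@Lb.d (nat_lit 289) (nat_lit 162) (nat_lit 130) (@Lb.fp (nat_lit 9) t152)))))))))))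
noncomputable def l28025 : Lb := (@Lb.d (nat_lit 256) (nat_lit 0) (nat_lit 129) (@Lb.r r421 (@Lb.r r1414 (@Lb.r r2120 (@Lb.g g11 (@Lb.t (@Lb.fm (nat_lit 3) t145)))))))
noncomputable def l28026 : Lb := (@Lb.r r70 (@Lb.d (nat_lit 0) (nat_lit 1) (nat_lit 128) (@Lb.g g8 (@Lb.g g9 (@Lb.g g11 (@Lb.r r1579 (@Lb.r r1410 (@Lb.r r1169 (@Lb.r r612 (@Lb.d (nat_lit 266) (nat_lit 4) (nat_lit 102) (@Lb.t (@Lb.fm (nat_lit 9) t1027))))))))))))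
noncomputable def l28027 : Lb := (@Lb.d (nat_lit 144) (nat_lit 18) (nat_lit 128) (@Lb.g g8 (@Lb.g g9 (@Lb.g g10 (@Lb.g g11 (@Lb.r r2467 (@Lb.r r1156 (@Lb.r r390 (@Lb.r r2337 (@Lb.d (nat_lit 153) (nat_lit 166) (nat_lit 5) (@Lb.fp (nat_lit 9) t1032)))))))))))
noncomputable def l28028 : Lb := (@Lb.d (nat_lit 2) (nat_lit 258) (nat_lit 128) (@Lb.g g8 (@Lb.g g9 (@Lb.g g10 (@Lb.g g11 (@Lb.r r1683 (@Lb.r r297 (@Lb.r r1188 (@Lb.r r1158 (@Lb.d (nat_lit 289) (nat_lit 5) (nat_lit 272) (@Lb.fm (nat_lit 9) t296)))))))))))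
noncomputable def l28029 : Lb := (@Lb.r r70 (@Lb.d (nat_lit 0) (nat_lit 256) (nat_lit 128) (@Lb.g g8 (@Lb.g g11 (@Lb.r r1563 (@Lb.r r1410 (@Lb.r r2145 (@Lb.r r612 (@Lb.d (nat_lit 265) (nat_lit 66) (nat_lit 85) (@Lb.fp (nat_lit 3) t1027))))))))))
noncomputable def l28030 : Lb := (@Lb.r r70 (@Lb.d (nat_lit 0) (nat_lit 1) (nat_lit 128) (@Lb.g g8 (@Lb.g g9 (@Lb.g g11 (@Lb.r r1579 (@Lb.r r1410 (@Lb.r r1169 (@Lb.r r612 (@Lb.d (nat_lit 265) (nat_lit 9) (nat_lit 100) (@Lb.t (@Lb.fm (nat_lit 9) t1027))))))))))))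
noncomputable def l28031 : Lb := (@Lb.r r70 (@Lb.d (nat_lit 130) (nat_lit 513) (nat_lit 64) (@Lb.g g8 (@Lb.g g9 (@Lb.g g11 (@Lb.r r1579 (@Lb.r r1410 (@Lb.r r1169 (@Lb.r r1060 (@Lb.d (nat_lit 153) (nat_lit 168) (nat_lit 513) (@Lb.t (@Lb.fm (nat_lit 9) t1027))))))))))))
noncomputable def l28032 : Lb := (@Lb.d (nat_lit 41) (nat_lit 596) (nat_lit 289) (@Lb.r r169 (@Lb.r r106 (@Lb.r r612 (@Lb.r r359 (@Lb.g g5 (@Lb.d (nat_lit 4) (nat_lit 21) (nat_lit 0) (@Lb.t (@Lb.fp (nat_lit 3) t127)))))))))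
noncomputable def l28033 : Lb := (@Lb.r r323 (@Lb.d (nat_lit 16) (nat_lit 256) (nat_lit 2) (@Lb.g g10 (@Lb.r r2731 (@Lb.r r168 (@Lb.r r105 (@Lb.r r82 (@Lb.d (nat_lit 544) (nat_lit 6) (nat_lit 161) (@Lb.t (@Lb.fm (nat_lit 3) t335))))))))))
noncomputable def l28034 : Lb := (@Lb.d (nat_lit 32) (nat_lit 256) (nat_lit 74) (@Lb.g g10 (@Lb.g g11 (@Lb.r r2213 (@Lb.r r344 (@Lb.r r679 (@Lb.r r2658 (@Lb.d (nat_lit 292) (nat_lit 84) (nat_lit 394) (@Lb.fp (nat_lit 3) t154)))))))))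
noncomputable def l28035 : Lb := (@Lb.d (nat_lit 16) (nat_lit 256) (nat_lit 2) (@Lb.g g10 (@Lb.g g7 (@Lb.r r424 (@Lb.r r617 (@Lb.r r338 (@Lb.d (nat_lit 610) (nat_lit 22) (nat_lit 613) (@Lb.fp (nat_lit 3) t166))))))))
noncomputable def l28036 : Lb := (@Lb.d (nat_lit 16) (nat_lit 0) (nat_lit 66) (@Lb.g g10 (@Lb.g g7 (@Lb.r r424 (@Lb.r r617 (@Lb.r r338 (@Lb.d (nat_lit 610) (nat_lit 22) (nat_lit 613) (@Lb.fp (nat_lit 3) t166))))))))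
noncomputable def l28037 : Lb := (@Lb.d (nat_lit 32) (nat_lit 256) (nat_lit 74) (@Lb.g g10 (@Lb.g g11 (@Lb.r r2213 (@Lb.r r344 (@Lb.r r679 (@Lb.r r2658 (@Lb.d (nat_lit 290) (nat_lit 88) (nat_lit 392) (@Lb.fp (nat_lit 3) t154)))))))))
noncomputable def l28038 : Lb := (@Lb.r r70 (@Lb.r r263 (@Lb.d (nat_lit 2) (nat_lit 330) (nat_lit 0) (@Lb.g g8 (@Lb.g g9 (@Lb.r r402 (@Lb.r r1607 (@Lb.r r264 (@Lb.d (nat_lit 680) (nat_lit 1) (nat_lit 36) (@Lb.fp (nat_lit 3) t3042))))))))))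
noncomputable def l28039 : Lb := (@Lb.r r82 (@Lb.d (nat_lit 34) (nat_lit 10) (nat_lit 128) (@Lb.g g8 (@Lb.g g9 (@Lb.g g11 (@Lb.r r1635 (@Lb.r r582 (@Lb.r r2712 (@Lb.r r1637 (@Lb.d (nat_lit 422) (nat_lit 84) (nat_lit 85) (@Lb.t (@Lb.fp (nat_lit 9) t2996))))))))))))
noncomputable def l28040 : Lb := (@Lb.r r323 (@Lb.d (nat_lit 38) (nat_lit 530) (nat_lit 2) (@Lb.g g8 (@Lb.g g9 (@Lb.g g10 (@Lb.r r1323 (@Lb.r r328 (@Lb.r r1158 (@Lb.d (nat_lit 256) (nat_lit 2) (nat_lit 416) (@Lb.t (@Lb.fm (nat_lit 9) t1690)))))))))))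
noncomputable def l28041 : Lb := (@Lb.r r70 (@Lb.d (nat_lit 2) (nat_lit 513) (nat_lit 128) (@Lb.g g8 (@Lb.g g9 (@Lb.g g11 (@Lb.r r1579 (@Lb.r r1410 (@Lb.r r529 (@Lb.r r1060 (@Lb.d (nat_lit 617) (nat_lit 80) (nat_lit 418) (@Lb.t (@Lb.fm (nat_lit 9) t2095))))))))))))
noncomputable def l28042 : Lb := (@Lb.d (nat_lit 0) (nat_lit 2) (nat_lit 130) (@Lb.g g8 (@Lb.g g9 (@Lb.g g10 (@Lb.g g11 (@Lb.r r1699 (@Lb.r r533 (@Lb.r r1188 (@Lb.r r1158 (@Lb.d (nat_lit 289) (nat_lit 10) (nat_lit 513) (@Lb.fp (nat_lit 9) t791)))))))))))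
noncomputable def l28043 : Lb := (@Lb.r r82 (@Lb.d (nat_lit 2) (nat_lit 10) (nat_lit 128) (@Lb.g g8 (@Lb.g g9 (@Lb.g g11 (@Lb.r r1635 (@Lb.r r1418 (@Lb.r r2212 (@Lb.r r1685 (@Lb.d (nat_lit 409) (nat_lit 9) (nat_lit 346) (@Lb.t (@Lb.fm (nat_lit 9) t1161))))))))))))
noncomputable def l28044 : Lb := (@Lb.d (nat_lit 138) (nat_lit 512) (nat_lit 0) (@Lb.g g8 (@Lb.r r410 (@Lb.r r613 (@Lb.r r1383 (@Lb.r r2712 (@Lb.d (nat_lit 346) (nat_lit 101) (nat_lit 405) (@Lb.t (@Lb.fm (nat_lit 3) t334)))))))))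
noncomputable def l28045 : Lb := (@Lb.r r82 (@Lb.d (nat_lit 34) (nat_lit 266) (nat_lit 128) (@Lb.g g8 (@Lb.g g9 (@Lb.g g11 (@Lb.r r1635 (@Lb.r r582 (@Lb.r r2712 (@Lb.r r1637 (@Lb.d (nat_lit 421) (nat_lit 84) (nat_lit 85) (@Lb.t (@Lb.fp (nat_lit 9) t2996))))))))))))
noncomputable def l28046 : Lb := (@Lb.g g5 (@Lb.r r89 (@Lb.r r1126 (@Lb.r r24 (@Lb.d (nat_lit 357) (nat_lit 64) (nat_lit 512) (@Lb.t (@Lb.fp (nat_lit 3) t5198)))))))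
noncomputable def l28047 : Lb := (@Lb.r r82 (@Lb.d (nat_lit 134) (nat_lit 354) (nat_lit 0) (@Lb.g g8 (@Lb.g g9 (@Lb.g g11 (@Lb.r r2347 (@Lb.r r2630 (@Lb.r r1432 (@Lb.d (nat_lit 674) (nat_lit 89) (nat_lit 408) (@Lb.t (@Lb.fp (nat_lit 9) t5026)))))))))))
noncomputable def l28048 : Lb := (@Lb.d (nat_lit 130) (nat_lit 256) (nat_lit 128) (@Lb.r r533 (@Lb.r r598 (@Lb.g g9 (@Lb.g g8 (@Lb.r r98 (@Lb.fm (nat_lit 3) t3467)))))))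
noncomputable def l28049 : Lb := (@Lb.r r81 (@Lb.d (nat_lit 16) (nat_lit 520) (nat_lit 24) (@Lb.g g8 (@Lb.g g10 (@Lb.r r101 (@Lb.r r1560 (@Lb.d (nat_lit 577) (nat_lit 96) (nat_lit 322) (@Lb.fm (nat_lit 3) t1156))))))))
noncomputable def l28050 : Lb := (@Lb.r r1284 (@Lb.r r81 (@Lb.d (nat_lit 16) (nat_lit 544) (nat_lit 33) (@Lb.g g6 (@Lb.g g11 (@Lb.r r405 (@Lb.r r683 (@Lb.d (nat_lit 100) (nat_lit 148) (nat_lit 25) (@Lb.fm (nat_lit 3) t5199)))))))))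
noncomputable def l28051 : Lb := (@Lb.d (nat_lit 146) (nat_lit 282) (nat_lit 4) (@Lb.g g8 (@Lb.g g9 (@Lb.g g10 (@Lb.g g11 (@Lb.r r427 (@Lb.r r297 (@Lb.r r2408 (@Lb.r r2198 (@Lb.d (nat_lit 520) (nat_lit 6) (nat_lit 409) (@Lb.fm (nat_lit 9) t3041)))))))))))
noncomputable def l28052 : Lb := (@Lb.d (nat_lit 400) (nat_lit 152) (nat_lit 293) (@Lb.r r1617 (@Lb.g g10 (@Lb.d (nat_lit 0) (nat_lit 0) (nat_lit 10) (@Lb.t (@Lb.fp (nat_lit 3) t3337))))))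
noncomputable def l28053 : Lb := (@Lb.r r338 (@Lb.d (nat_lit 0) (nat_lit 296) (nat_lit 8) (@Lb.g g9 (@Lb.g g11 (@Lb.r r2202 (@Lb.r r24 (@Lb.d (nat_lit 86) (nat_lit 10) (nat_lit 545) (@Lb.fm (nat_lit 3) t5200))))))))
noncomputable def l28054 : Lb := (@Lb.d (nat_lit 326) (nat_lit 280) (nat_lit 282) (@Lb.r r1430 (@Lb.r r2152 (@Lb.r r1641 (@Lb.r r1699 (@Lb.g g7 (@Lb.g g6 (@Lb.g g5 (@Lb.d (nat_lit 0) (nat_lit 6) (nat_lit 132) (@Lb.t (@Lb.fp (nat_lit 9) t171)))))))))))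
noncomputable def l28055 : Lb := (@Lb.d (nat_lit 401) (nat_lit 664) (nat_lit 293) (@Lb.r r1617 (@Lb.g g10 (@Lb.d (nat_lit 0) (nat_lit 0) (nat_lit 10) (@Lb.t (@Lb.fp (nat_lit 3) t3337))))))
noncomputable def l28056 : Lb := (@Lb.d (nat_lit 6) (nat_lit 6) (nat_lit 529) (@Lb.r r1621 (@Lb.r r579 (@Lb.r r1366 (@Lb.g g6 (@Lb.g g5 (@Lb.g g4 (@Lb.d (nat_lit 1) (nat_lit 1) (nat_lit 1) (@Lb.t (@Lb.fm (nat_lit 9) t3394))))))))))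
noncomputable def l28057 : Lb := (@Lb.r r323 (@Lb.d (nat_lit 130) (nat_lit 258) (nat_lit 18) (@Lb.g g8 (@Lb.g g9 (@Lb.g g10 (@Lb.r r1623 (@Lb.r r409 (@Lb.r r388 (@Lb.d (nat_lit 100) (nat_lit 5) (nat_lit 169) (@Lb.t (@Lb.fp (nat_lit 9) t2503)))))))))))
noncomputable def l28058 : Lb := (@Lb.r r1045 (@Lb.r r323 (@Lb.d (nat_lit 33) (nat_lit 256) (nat_lit 2) (@Lb.g g8 (@Lb.g g10 (@Lb.r r395 (@Lb.r r74 (@Lb.r r1112 (@Lb.d (nat_lit 276) (nat_lit 9) (nat_lit 34) (@Lb.fp (nat_lit 3) t213))))))))))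
noncomputable def l28059 : Lb := (@Lb.r r70 (@Lb.d (nat_lit 130) (nat_lit 330) (nat_lit 128) (@Lb.g g8 (@Lb.g g9 (@Lb.g g11 (@Lb.r r2315 (@Lb.r r2198 (@Lb.r r2120 (@Lb.d (nat_lit 577) (nat_lit 4) (nat_lit 9) (@Lb.t (@Lb.fm (nat_lit 9) t868)))))))))))
noncomputable def l28060 : Lb := (@Lb.d (nat_lit 132) (nat_lit 1) (nat_lit 136) (@Lb.g g5 (@Lb.g g11 (@Lb.r r388 (@Lb.r r390 (@Lb.r r1355 (@Lb.d (nat_lit 32) (nat_lit 5) (nat_lit 149) (@Lb.fm (nat_lit 3) t322))))))))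
noncomputable def l28061 : Lb := (@Lb.d (nat_lit 34) (nat_lit 512) (nat_lit 129) (@Lb.g g8 (@Lb.g g5 (@Lb.g g10 (@Lb.g g11 (@Lb.r r1667 (@Lb.r r580 (@Lb.r r1690 (@Lb.r r132 (@Lb.d (nat_lit 426) (nat_lit 130) (nat_lit 74) (@Lb.fm (nat_lit 9) t5201)))))))))))
noncomputable def l28062 : Lb := (@Lb.r r21 (@Lb.r r323 (@Lb.d (nat_lit 258) (nat_lit 256) (nat_lit 0) (@Lb.g g8 (@Lb.g g10 (@Lb.r r2443 (@Lb.r r2122 (@Lb.r r1125 (@Lb.d (nat_lit 520) (nat_lit 128) (nat_lit 18) (@Lb.fp (nat_lit 3) t228))))))))))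
noncomputable def l28063 : Lb := (@Lb.r r323 (@Lb.d (nat_lit 1) (nat_lit 578) (nat_lit 0) (@Lb.g g4 (@Lb.g g9 (@Lb.g g10 (@Lb.r r2471 (@Lb.r r98 (@Lb.d (nat_lit 261) (nat_lit 10) (nat_lit 2) (@Lb.t (@Lb.fp (nat_lit 9) t1082))))))))))
noncomputable def l28064 : Lb := (@Lb.r r70 (@Lb.r r263 (@Lb.d (nat_lit 0) (nat_lit 578) (nat_lit 0) (@Lb.g g8 (@Lb.g g9 (@Lb.r r2347 (@Lb.r r2154 (@Lb.r r2084 (@Lb.d (nat_lit 10) (nat_lit 9) (nat_lit 2) (@Lb.fm (nat_lit 3) t3619))))))))))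
noncomputable def l28065 : Lb := (@Lb.d (nat_lit 132) (nat_lit 330) (nat_lit 128) (@Lb.g g9 (@Lb.g g11 (@Lb.r r2148 (@Lb.r r1354 (@Lb.r r391 (@Lb.d (nat_lit 37) (nat_lit 64) (nat_lit 530) (@Lb.fm (nat_lit 3) t867))))))))
noncomputable def l28066 : Lb := (@Lb.d (nat_lit 614) (nat_lit 664) (nat_lit 136) (@Lb.r r358 (@Lb.r r85 (@Lb.r r296 (@Lb.g g7 (@Lb.g g6 (@Lb.g g5 (@Lb.d (nat_lit 64) (nat_lit 1) (nat_lit 645) (@Lb.r r388 (@Lb.t (@Lb.fm (nat_lit 9) t148)))))))))))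
noncomputable def l28067 : Lb := (@Lb.d (nat_lit 0) (nat_lit 514) (nat_lit 0) (@Lb.g g9 (@Lb.g g7 (@Lb.r r2068 (@Lb.r r25 (@Lb.d (nat_lit 514) (nat_lit 65) (nat_lit 0) (@Lb.fp (nat_lit 3) t2)))))))
noncomputable def l28068 : Lb := (@Lb.d (nat_lit 8) (nat_lit 2) (nat_lit 128) (@Lb.g g9 (@Lb.g g11 (@Lb.r r1194 (@Lb.r r1444 (@Lb.r r2411 (@Lb.r r2401 (@Lb.d (nat_lit 8) (nat_lit 152) (nat_lit 330) (@Lb.fm (nat_lit 3) t334)))))))))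
noncomputable def l28069 : Lb := (@Lb.d (nat_lit 81) (nat_lit 104) (nat_lit 33) (@Lb.r r1108 (@Lb.r r106 (@Lb.r r609 (@Lb.r r2339 (@Lb.g g6 (@Lb.g g5 (@Lb.g g4 (@Lb.d (nat_lit 69) (nat_lit 17) (nat_lit 5) (@Lb.t (@Lb.fm (nat_lit 9) t2)))))))))))
noncomputable def l28070 : Lb := (@Lb.d (nat_lit 10) (nat_lit 518) (nat_lit 598) (@Lb.r r1130 (@Lb.r r612 (@Lb.r r2391 (@Lb.g g7 (@Lb.g g6 (@Lb.g g5 (@Lb.g g4 (@Lb.d (nat_lit 97) (nat_lit 65) (nat_lit 128) (@Lb.fp (nat_lit 9) t580))))))))))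
noncomputable def l28071 : Lb := (@Lb.r r323 (@Lb.d (nat_lit 0) (nat_lit 514) (nat_lit 1) (@Lb.g g8 (@Lb.g g9 (@Lb.g g6 (@Lb.r r387 (@Lb.r r97 (@Lb.r r24 (@Lb.d (nat_lit 10) (nat_lit 9) (nat_lit 2) (@Lb.t (@Lb.fp (nat_lit 9) t40)))))))))))
noncomputable def l28072 : Lb := (@Lb.d (nat_lit 2) (nat_lit 2) (nat_lit 130) (@Lb.g g8 (@Lb.g g9 (@Lb.g g10 (@Lb.g g11 (@Lb.r r2705 (@Lb.r r356 (@Lb.r r667 (@Lb.r r586 (@Lb.r r1540 (@Lb.d (nat_lit 528) (nat_lit 0) (nat_lit 81) (@Lb.fm (nat_lit 9) t145))))))))))))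
noncomputable def l28073 : Lb := (@Lb.r r82 (@Lb.d (nat_lit 2) (nat_lit 2) (nat_lit 136) (@Lb.g g8 (@Lb.g g9 (@Lb.g g11 (@Lb.r r2665 (@Lb.r r2198 (@Lb.r r1380 (@Lb.r r395 (@Lb.d (nat_lit 385) (nat_lit 81) (nat_lit 610) (@Lb.t (@Lb.fm (nat_lit 9) t1161))))))))))))
noncomputable def l28074 : Lb := (@Lb.d (nat_lit 0) (nat_lit 256) (nat_lit 128) (@Lb.g g10 (@Lb.g g11 (@Lb.r r2568 (@Lb.r r1419 (@Lb.r r402 (@Lb.r r1121 (@Lb.d (nat_lit 328) (nat_lit 162) (nat_lit 512) (@Lb.fp (nat_lit 3) t820)))))))))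
noncomputable def l28075 : Lb := (@Lb.d (nat_lit 4) (nat_lit 512) (nat_lit 2) (@Lb.g g8 (@Lb.g g9 (@Lb.g g10 (@Lb.r r683 (@Lb.r r2666 (@Lb.r r2585 (@Lb.r r24 (@Lb.d (nat_lit 10) (nat_lit 105) (nat_lit 417) (@Lb.t (@Lb.fm (nat_lit 9) t820)))))))))))
noncomputable def l28076 : Lb := (@Lb.d (nat_lit 72) (nat_lit 17) (nat_lit 320) (@Lb.r r2130 (@Lb.r r539 (@Lb.g g7 (@Lb.g g9 (@Lb.g g4 (@Lb.d (nat_lit 584) (nat_lit 2) (nat_lit 128) (@Lb.r r74 (@Lb.t (@Lb.fp (nat_lit 9) t5202))))))))))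
noncomputable def l28077 : Lb := (@Lb.d (nat_lit 2) (nat_lit 0) (nat_lit 66) (@Lb.g g8 (@Lb.g g9 (@Lb.g g10 (@Lb.g g7 (@Lb.r r386 (@Lb.r r2145 (@Lb.r r24 (@Lb.d (nat_lit 325) (nat_lit 9) (nat_lit 617) (@Lb.fp (nat_lit 9) t3927))))))))))
noncomputable def l28078 : Lb := (@Lb.r r610 (@Lb.d (nat_lit 72) (nat_lit 1) (nat_lit 128) (@Lb.g g8 (@Lb.g g9 (@Lb.g g7 (@Lb.r r2630 (@Lb.r r2133 (@Lb.r r1364 (@Lb.d (nat_lit 86) (nat_lit 98) (nat_lit 26) (@Lb.t (@Lb.fp (nat_lit 9) t841)))))))))))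
noncomputable def l28079 : Lb := (@Lb.d (nat_lit 2) (nat_lit 0) (nat_lit 64) (@Lb.g g8 (@Lb.g g9 (@Lb.g g11 (@Lb.r r1162 (@Lb.r r1188 (@Lb.r r661 (@Lb.r r2451 (@Lb.d (nat_lit 2) (nat_lit 101) (nat_lit 394) (@Lb.t (@Lb.fp (nat_lit 9) t1592)))))))))))
noncomputable def l28080 : Lb := (@Lb.g g7 (@Lb.r r597 (@Lb.r r1386 (@Lb.r r407 (@Lb.r r1096 (@Lb.d (nat_lit 576) (nat_lit 0) (nat_lit 336) (@Lb.t (@Lb.fp (nat_lit 3) t2238))))))))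
noncomputable def l28081 : Lb := (@Lb.d (nat_lit 322) (nat_lit 33) (nat_lit 64) (@Lb.r r24 (@Lb.r r2145 (@Lb.r r402 (@Lb.r r1543 (@Lb.g g7 (@Lb.g g5 (@Lb.g g4 (@Lb.d (nat_lit 1) (nat_lit 0) (nat_lit 128) (@Lb.t (@Lb.fp (nat_lit 9) t1246)))))))))))
noncomputable def l28082 : Lb := (@Lb.d (nat_lit 537) (nat_lit 341) (nat_lit 64) (@Lb.r r1129 (@Lb.r r1636 (@Lb.r r583 (@Lb.g g6 (@Lb.g g5 (@Lb.g g4 (@Lb.d (nat_lit 65) (nat_lit 8) (nat_lit 4) (@Lb.r r387 (@Lb.t (@Lb.fp (nat_lit 9) t5203)))))))))))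
noncomputable def l28083 : Lb := (@Lb.r r2311 (@Lb.r r24 (@Lb.r r101 (@Lb.r r1114 (@Lb.d (nat_lit 534) (nat_lit 1) (nat_lit 33) (@Lb.fp (nat_lit 1) t5204))))))
noncomputable def l28084 : Lb := (@Lb.d (nat_lit 38) (nat_lit 0) (nat_lit 130) (@Lb.g g8 (@Lb.g g9 (@Lb.g g10 (@Lb.g g11 (@Lb.r r1686 (@Lb.r r360 (@Lb.r r2343 (@Lb.r r2453 (@Lb.r r36 (@Lb.d (nat_lit 294) (nat_lit 72) (nat_lit 386) (@Lb.fp (nat_lit 9) t3480))))))))))))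
noncomputable def l28085 : Lb := (@Lb.d (nat_lit 260) (nat_lit 260) (nat_lit 257) (@Lb.r r97 (@Lb.r r402 (@Lb.r r2311 (@Lb.g g8 (@Lb.d (nat_lit 401) (nat_lit 0) (nat_lit 0) (@Lb.r r74 (@Lb.r r25 (@Lb.t (@Lb.fp (nat_lit 3) t5205))))))))))
noncomputable def l28086 : Lb := (@Lb.d (nat_lit 8) (nat_lit 258) (nat_lit 64) (@Lb.g g9 (@Lb.g g11 (@Lb.r r134 (@Lb.r r584 (@Lb.r r619 (@Lb.r r609 (@Lb.d (nat_lit 8) (nat_lit 72) (nat_lit 18) (@Lb.fm (nat_lit 3) t334)))))))))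
noncomputable def l28087 : Lb := (@Lb.r r323 (@Lb.d (nat_lit 9) (nat_lit 513) (nat_lit 2) (@Lb.g g8 (@Lb.g g9 (@Lb.g g10 (@Lb.r r401 (@Lb.r r299 (@Lb.r r392 (@Lb.r r74 (@Lb.d (nat_lit 38) (nat_lit 8) (nat_lit 17) (@Lb.t (@Lb.fp (nat_lit 9) t221))))))))))))
noncomputable def l28088 : Lb := (@Lb.g g7 (@Lb.r r609 (@Lb.r r363 (@Lb.r r356 (@Lb.r r154 (@Lb.d (nat_lit 576) (nat_lit 512) (nat_lit 528) (@Lb.t (@Lb.fm (nat_lit 3) t1641))))))))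
noncomputable def l28089 : Lb := (@Lb.r r323 (@Lb.d (nat_lit 9) (nat_lit 257) (nat_lit 2) (@Lb.g g8 (@Lb.g g9 (@Lb.g g10 (@Lb.r r401 (@Lb.r r299 (@Lb.r r392 (@Lb.r r74 (@Lb.d (nat_lit 33) (nat_lit 10) (nat_lit 152) (@Lb.t (@Lb.fp (nat_lit 9) t221))))))))))))
noncomputable def l28090 : Lb := (@Lb.r r2331 (@Lb.r r24 (@Lb.d (nat_lit 66) (nat_lit 320) (nat_lit 512) (@Lb.fm (nat_lit 1) t1165))))
noncomputable def l28091 : Lb := (@Lb.r r323 (@Lb.d (nat_lit 8) (nat_lit 513) (nat_lit 2) (@Lb.g g8 (@Lb.g g9 (@Lb.g g10 (@Lb.r r401 (@Lb.r r299 (@Lb.r r392 (@Lb.r r74 (@Lb.d (nat_lit 33) (nat_lit 10) (nat_lit 152) (@Lb.t (@Lb.fp (nat_lit 9) t221))))))))))))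
noncomputable def l28092 : Lb := (@Lb.d (nat_lit 33) (nat_lit 261) (nat_lit 74) (@Lb.g g8 (@Lb.g g5 (@Lb.g g10 (@Lb.g g11 (@Lb.r r1683 (@Lb.r r1602 (@Lb.r r1048 (@Lb.d (nat_lit 521) (nat_lit 24) (nat_lit 537) (@Lb.fm (nat_lit 9) t98))))))))))
noncomputable def l28093 : Lb := (@Lb.d (nat_lit 9) (nat_lit 1) (nat_lit 130) (@Lb.g g8 (@Lb.g g9 (@Lb.g g10 (@Lb.g g11 (@Lb.r r427 (@Lb.r r145 (@Lb.r r356 (@Lb.r r154 (@Lb.r r132 (@Lb.d (nat_lit 9) (nat_lit 2) (nat_lit 16) (@Lb.fm (nat_lit 9) t221))))))))))))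
noncomputable def l28094 : Lb := (@Lb.r r21 (@Lb.d (nat_lit 386) (nat_lit 520) (nat_lit 66) (@Lb.g g8 (@Lb.g g10 (@Lb.g g11 (@Lb.r r1419 (@Lb.r r101 (@Lb.r r410 (@Lb.d (nat_lit 2) (nat_lit 150) (nat_lit 649) (@Lb.t (@Lb.fm (nat_lit 9) t1606)))))))))))
noncomputable def l28095 : Lb := (@Lb.r r81 (@Lb.d (nat_lit 130) (nat_lit 512) (nat_lit 98) (@Lb.g g8 (@Lb.g g10 (@Lb.g g11 (@Lb.r r1419 (@Lb.r r2212 (@Lb.r r37 (@Lb.d (nat_lit 2) (nat_lit 84) (nat_lit 133) (@Lb.t (@Lb.fp (nat_lit 9) t2564)))))))))))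
noncomputable def l28096 : Lb := (@Lb.d (nat_lit 130) (nat_lit 256) (nat_lit 256) (@Lb.g g8 (@Lb.g g7 (@Lb.r r402 (@Lb.r r2145 (@Lb.r r264 (@Lb.d (nat_lit 137) (nat_lit 130) (nat_lit 384) (@Lb.fm (nat_lit 3) t5206))))))))
noncomputable def l28097 : Lb := (@Lb.r r82 (@Lb.d (nat_lit 9) (nat_lit 32) (nat_lit 64) (@Lb.g g8 (@Lb.g g9 (@Lb.g g11 (@Lb.r r2659 (@Lb.r r2152 (@Lb.r r1430 (@Lb.r r2645 (@Lb.d (nat_lit 546) (nat_lit 40) (nat_lit 68) (@Lb.t (@Lb.fp (nat_lit 9) t243))))))))))))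
noncomputable def l28098 : Lb := (@Lb.d (nat_lit 129) (nat_lit 258) (nat_lit 66) (@Lb.g g8 (@Lb.g g9 (@Lb.g g10 (@Lb.g g11 (@Lb.r r1194 (@Lb.r r360 (@Lb.r r345 (@Lb.r r359 (@Lb.r r2564 (@Lb.d (nat_lit 537) (nat_lit 33) (nat_lit 617) (@Lb.fp (nat_lit 9) t3284))))))))))))
noncomputable def l28099 : Lb := (@Lb.r r323 (@Lb.d (nat_lit 9) (nat_lit 514) (nat_lit 1) (@Lb.g g8 (@Lb.g g9 (@Lb.g g6 (@Lb.r r1643 (@Lb.r r2145 (@Lb.r r24 (@Lb.d (nat_lit 264) (nat_lit 73) (nat_lit 160) (@Lb.t (@Lb.fm (nat_lit 9) t335)))))))))))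
noncomputable def l28100 : Lb := (@Lb.d (nat_lit 1) (nat_lit 290) (nat_lit 2) (@Lb.g g8 (@Lb.g g9 (@Lb.g g10 (@Lb.r r1675 (@Lb.r r1194 (@Lb.r r425 (@Lb.r r36 (@Lb.d (nat_lit 385) (nat_lit 166) (nat_lit 586) (@Lb.t (@Lb.fp (nat_lit 9) t445)))))))))))
noncomputable def l28101 : Lb := (@Lb.r r82 (@Lb.d (nat_lit 161) (nat_lit 2) (nat_lit 0) (@Lb.g g8 (@Lb.g g9 (@Lb.r r647 (@Lb.r r1113 (@Lb.r r614 (@Lb.r r424 (@Lb.d (nat_lit 520) (nat_lit 38) (nat_lit 404) (@Lb.fm (nat_lit 3) t5207))))))))))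
noncomputable def l28102 : Lb := (@Lb.d (nat_lit 640) (nat_lit 258) (nat_lit 130) (@Lb.g g4 (@Lb.g g9 (@Lb.g g10 (@Lb.g g11 (@Lb.r r2214 (@Lb.r r545 (@Lb.r r611 (@Lb.r r2577 (@Lb.d (nat_lit 144) (nat_lit 72) (nat_lit 361) (@Lb.fp (nat_lit 9) t3462)))))))))))
noncomputable def l28103 : Lb := (@Lb.d (nat_lit 330) (nat_lit 149) (nat_lit 532) (@Lb.r r1444 (@Lb.r r2665 (@Lb.r r2651 (@Lb.g g7 (@Lb.g g10 (@Lb.g g4 (@Lb.d (nat_lit 17) (nat_lit 0) (nat_lit 66) (@Lb.r r25 (@Lb.t (@Lb.fm (nat_lit 9) t825)))))))))))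
noncomputable def l28104 : Lb := (@Lb.d (nat_lit 33) (nat_lit 4) (nat_lit 130) (@Lb.g g8 (@Lb.g g9 (@Lb.g g10 (@Lb.g g11 (@Lb.r r148 (@Lb.r r2150 (@Lb.r r357 (@Lb.r r667 (@Lb.r r644 (@Lb.d (nat_lit 521) (nat_lit 2) (nat_lit 426) (@Lb.fp (nat_lit 9) t979))))))))))))
noncomputable def l28105 : Lb := (@Lb.r r101 (@Lb.d (nat_lit 261) (nat_lit 8) (nat_lit 34) (@Lb.fm (nat_lit 1) t1591)))
noncomputable def l28106 : Lb := (@Lb.r r323 (@Lb.d (nat_lit 130) (nat_lit 514) (nat_lit 18) (@Lb.g g8 (@Lb.g g9 (@Lb.g g10 (@Lb.r r1623 (@Lb.r r2345 (@Lb.r r2340 (@Lb.d (nat_lit 584) (nat_lit 105) (nat_lit 534) (@Lb.t (@Lb.fm (nat_lit 9) t386)))))))))))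
noncomputable def l28107 : Lb := (@Lb.g g9 (@Lb.g g7 (@Lb.r r134 (@Lb.r r328 (@Lb.r r535 (@Lb.r r289 (@Lb.d (nat_lit 6) (nat_lit 320) (nat_lit 0) (@Lb.fp (nat_lit 3) t51))))))))
noncomputable def l28108 : Lb := (@Lb.d (nat_lit 32) (nat_lit 512) (nat_lit 64) (@Lb.g g10 (@Lb.g g11 (@Lb.r r328 (@Lb.r r647 (@Lb.r r2401 (@Lb.r r662 (@Lb.d (nat_lit 389) (nat_lit 37) (nat_lit 26) (@Lb.fm (nat_lit 3) t939)))))))))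
noncomputable def l28109 : Lb := (@Lb.r r82 (@Lb.r r275 (@Lb.d (nat_lit 2) (nat_lit 2) (nat_lit 0) (@Lb.g g8 (@Lb.g g9 (@Lb.r r362 (@Lb.r r353 (@Lb.r r411 (@Lb.d (nat_lit 593) (nat_lit 24) (nat_lit 90) (@Lb.fp (nat_lit 3) t4018))))))))))
noncomputable def l28110 : Lb := (@Lb.g g9 (@Lb.g g7 (@Lb.r r2403 (@Lb.r r134 (@Lb.r r1624 (@Lb.r r2341 (@Lb.d (nat_lit 66) (nat_lit 320) (nat_lit 512) (@Lb.fm (nat_lit 3) t1954))))))))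
noncomputable def l28111 : Lb := (@Lb.d (nat_lit 41) (nat_lit 406) (nat_lit 345) (@Lb.r r21 (@Lb.r r104 (@Lb.r r2375 (@Lb.r r642 (@Lb.g g7 (@Lb.g g6 (@Lb.g g5 (@Lb.d (nat_lit 0) (nat_lit 1) (nat_lit 65) (@Lb.t (@Lb.fp (nat_lit 9) t3053)))))))))))
noncomputable def l28112 : Lb := (@Lb.d (nat_lit 17) (nat_lit 330) (nat_lit 154) (@Lb.r r169 (@Lb.r r100 (@Lb.r r2567 (@Lb.g g10 (@Lb.g g5 (@Lb.d (nat_lit 4) (nat_lit 0) (nat_lit 2) (@Lb.r r387 (@Lb.fp (nat_lit 3) t830)))))))))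
noncomputable def l28113 : Lb := (@Lb.d (nat_lit 0) (nat_lit 266) (nat_lit 128) (@Lb.g g9 (@Lb.g g11 (@Lb.r r2450 (@Lb.r r2659 (@Lb.r r1633 (@Lb.r r8 (@Lb.d (nat_lit 10) (nat_lit 152) (nat_lit 514) (@Lb.fm (nat_lit 3) t844)))))))))
noncomputable def l28114 : Lb := (@Lb.r r644 (@Lb.r r423 (@Lb.r r1446 (@Lb.r r353 (@Lb.r r1044 (@Lb.d (nat_lit 0) (nat_lit 642) (nat_lit 17) (@Lb.fp (nat_lit 1) t5208)))))))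
noncomputable def l28115 : Lb := (@Lb.r r82 (@Lb.d (nat_lit 2) (nat_lit 514) (nat_lit 128) (@Lb.g g8 (@Lb.g g9 (@Lb.g g11 (@Lb.r r593 (@Lb.r r1623 (@Lb.r r98 (@Lb.r r2436 (@Lb.d (nat_lit 80) (nat_lit 10) (nat_lit 512) (@Lb.t (@Lb.fp (nat_lit 9) t3499))))))))))))
noncomputable def l28116 : Lb := (@Lb.r r21 (@Lb.d (nat_lit 161) (nat_lit 256) (nat_lit 8) (@Lb.g g8 (@Lb.g g6 (@Lb.r r391 (@Lb.r r2648 (@Lb.r r37 (@Lb.d (nat_lit 0) (nat_lit 149) (nat_lit 410) (@Lb.fp (nat_lit 3) t199)))))))))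
noncomputable def l28117 : Lb := (@Lb.d (nat_lit 34) (nat_lit 513) (nat_lit 128) (@Lb.g g8 (@Lb.g g9 (@Lb.g g11 (@Lb.r r657 (@Lb.r r658 (@Lb.r r667 (@Lb.r r664 (@Lb.d (nat_lit 105) (nat_lit 42) (nat_lit 133) (@Lb.t (@Lb.fp (nat_lit 9) t285)))))))))))
noncomputable def l28118 : Lb := (@Lb.d (nat_lit 153) (nat_lit 537) (nat_lit 130) (@Lb.g g8 (@Lb.g g9 (@Lb.g g10 (@Lb.g g11 (@Lb.r r1706 (@Lb.r r644 (@Lb.r r1559 (@Lb.r r2345 (@Lb.r r36 (@Lb.d (nat_lit 416) (nat_lit 161) (nat_lit 66) (@Lb.fm (nat_lit 9) t1871))))))))))))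
noncomputable def l28119 : Lb := (@Lb.d (nat_lit 104) (nat_lit 680) (nat_lit 102) (@Lb.r r421 (@Lb.r r667 (@Lb.r r584 (@Lb.r r326 (@Lb.g g7 (@Lb.g g6 (@Lb.g g5 (@Lb.d (nat_lit 0) (nat_lit 2) (nat_lit 65) (@Lb.t (@Lb.fm (nat_lit 9) t521)))))))))))
noncomputable def l28120 : Lb := (@Lb.r r82 (@Lb.d (nat_lit 4) (nat_lit 264) (nat_lit 0) (@Lb.g g8 (@Lb.g g9 (@Lb.r r1094 (@Lb.r r2200 (@Lb.r r101 (@Lb.d (nat_lit 533) (nat_lit 8) (nat_lit 2) (@Lb.fm (nat_lit 3) t3197)))))))))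
noncomputable def l28121 : Lb := (@Lb.d (nat_lit 280) (nat_lit 72) (nat_lit 133) (@Lb.r r596 (@Lb.r r1386 (@Lb.r r1633 (@Lb.r r291 (@Lb.g g6 (@Lb.g g5 (@Lb.g g4 (@Lb.d (nat_lit 65) (nat_lit 17) (nat_lit 5) (@Lb.t (@Lb.fm (nat_lit 9) t2)))))))))))
noncomputable def l28122 : Lb := (@Lb.d (nat_lit 278) (nat_lit 0) (nat_lit 102) (@Lb.r r260 (@Lb.r r82 (@Lb.r r539 (@Lb.r r648 (@Lb.g g7 (@Lb.g g6 (@Lb.g g5 (@Lb.g g4 (@Lb.d (nat_lit 1) (nat_lit 65) (nat_lit 129) (@Lb.fp (nat_lit 9) t150)))))))))))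
noncomputable def l28123 : Lb := (@Lb.d (nat_lit 2) (nat_lit 256) (nat_lit 0) (@Lb.g g4 (@Lb.r r1098 (@Lb.r r1049 (@Lb.d (nat_lit 258) (nat_lit 0) (nat_lit 0) (@Lb.t (@Lb.fm (nat_lit 3) t994)))))))
noncomputable def l28124 : Lb := (@Lb.d (nat_lit 0) (nat_lit 514) (nat_lit 130) (@Lb.g g8 (@Lb.g g9 (@Lb.g g10 (@Lb.g g11 (@Lb.r r2691 (@Lb.r r297 (@Lb.r r360 (@Lb.r r582 (@Lb.r r2180 (@Lb.d (nat_lit 641) (nat_lit 10) (nat_lit 329) (@Lb.fm (nat_lit 9) t242))))))))))))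
noncomputable def l28125 : Lb := (@Lb.r r1045 (@Lb.r r1094 (@Lb.r r1287 (@Lb.d (nat_lit 321) (nat_lit 0) (nat_lit 0) (@Lb.g g4 (@Lb.d (nat_lit 9) (nat_lit 2) (nat_lit 384) (@Lb.t (@Lb.fm (nat_lit 3) t1751))))))))
noncomputable def l28126 : Lb := (@Lb.d (nat_lit 2) (nat_lit 512) (nat_lit 0) (@Lb.g g8 (@Lb.r r1098 (@Lb.r r1049 (@Lb.d (nat_lit 96) (nat_lit 0) (nat_lit 528) (@Lb.t (@Lb.fp (nat_lit 3) t49)))))))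
noncomputable def l28127 : Lb := (@Lb.d (nat_lit 10) (nat_lit 0) (nat_lit 0) (@Lb.g g4 (@Lb.r r2089 (@Lb.r r1064 (@Lb.d (nat_lit 266) (nat_lit 2) (nat_lit 0) (@Lb.t (@Lb.fm (nat_lit 3) t2)))))))
noncomputable def l28128 : Lb := (@Lb.r r323 (@Lb.d (nat_lit 26) (nat_lit 290) (nat_lit 2) (@Lb.g g8 (@Lb.g g9 (@Lb.g g10 (@Lb.r r2643 (@Lb.r r1382 (@Lb.r r536 (@Lb.r r293 (@Lb.d (nat_lit 609) (nat_lit 169) (nat_lit 518) (@Lb.t (@Lb.fp (nat_lit 9) t1246))))))))))))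
noncomputable def l28129 : Lb := (@Lb.d (nat_lit 278) (nat_lit 512) (nat_lit 102) (@Lb.r r260 (@Lb.r r82 (@Lb.r r539 (@Lb.r r648 (@Lb.g g7 (@Lb.g g6 (@Lb.g g5 (@Lb.g g4 (@Lb.d (nat_lit 2) (nat_lit 65) (nat_lit 129) (@Lb.fp (nat_lit 9) t150)))))))))))
noncomputable def l28130 : Lb := (@Lb.d (nat_lit 281) (nat_lit 33) (nat_lit 0) (@Lb.g g4 (@Lb.g g9 (@Lb.r r531 (@Lb.r r134 (@Lb.r r293 (@Lb.d (nat_lit 584) (nat_lit 34) (nat_lit 677) (@Lb.fm (nat_lit 3) t40))))))))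
noncomputable def l28131 : Lb := (@Lb.d (nat_lit 257) (nat_lit 514) (nat_lit 16) (@Lb.r r1094 (@Lb.r r2196 (@Lb.r r407 (@Lb.g g9 (@Lb.d (nat_lit 4) (nat_lit 10) (nat_lit 0) (@Lb.r r291 (@Lb.r r98 (@Lb.t (@Lb.fp (nat_lit 3) t5209))))))))))
noncomputable def l28132 : Lb := (@Lb.d (nat_lit 585) (nat_lit 516) (nat_lit 74) (@Lb.r r2698 (@Lb.r r2475 (@Lb.r r1365 (@Lb.g g6 (@Lb.g g4 (@Lb.d (nat_lit 257) (nat_lit 8) (nat_lit 1) (@Lb.r r25 (@Lb.fp (nat_lit 3) t1900)))))))))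
noncomputable def l28133 : Lb := (@Lb.d (nat_lit 0) (nat_lit 294) (nat_lit 97) (@Lb.r r134 (@Lb.r r344 (@Lb.r r519 (@Lb.g g6 (@Lb.g g5 (@Lb.g g4 (@Lb.d (nat_lit 66) (nat_lit 18) (nat_lit 0) (@Lb.t (@Lb.fm (nat_lit 9) t594))))))))))
noncomputable def l28134 : Lb := (@Lb.r r323 (@Lb.d (nat_lit 9) (nat_lit 34) (nat_lit 0) (@Lb.g g8 (@Lb.g g9 (@Lb.g g10 (@Lb.r r1299 (@Lb.r r2182 (@Lb.r r2664 (@Lb.r r2585 (@Lb.d (nat_lit 330) (nat_lit 18) (nat_lit 276) (@Lb.t (@Lb.fm (nat_lit 9) t334))))))))))))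
noncomputable def l28135 : Lb := (@Lb.r r323 (@Lb.d (nat_lit 9) (nat_lit 258) (nat_lit 2) (@Lb.g g8 (@Lb.g g9 (@Lb.g g10 (@Lb.r r2601 (@Lb.r r299 (@Lb.r r420 (@Lb.r r102 (@Lb.d (nat_lit 38) (nat_lit 133) (nat_lit 360) (@Lb.t (@Lb.fp (nat_lit 9) t126))))))))))))
noncomputable def l28136 : Lb := (@Lb.d (nat_lit 4) (nat_lit 612) (nat_lit 517) (@Lb.r r2401 (@Lb.r r1431 (@Lb.r r2644 (@Lb.r r1194 (@Lb.g g7 (@Lb.g g5 (@Lb.d (nat_lit 4) (nat_lit 1) (nat_lit 64) (@Lb.fm (nat_lit 3) t40)))))))))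
noncomputable def l28137 : Lb := (@Lb.r r323 (@Lb.d (nat_lit 1) (nat_lit 258) (nat_lit 2) (@Lb.g g8 (@Lb.g g9 (@Lb.g g10 (@Lb.r r659 (@Lb.r r98 (@Lb.r r1129 (@Lb.r r36 (@Lb.d (nat_lit 6) (nat_lit 1) (nat_lit 18) (@Lb.t (@Lb.fm (nat_lit 9) t61))))))))))))
noncomputable def l28138 : Lb := (@Lb.r r323 (@Lb.d (nat_lit 10) (nat_lit 514) (nat_lit 2) (@Lb.g g4 (@Lb.g g9 (@Lb.g g10 (@Lb.r r354 (@Lb.r r387 (@Lb.d (nat_lit 1) (nat_lit 144) (nat_lit 320) (@Lb.t (@Lb.fp (nat_lit 9) t51))))))))))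
noncomputable def l28139 : Lb := (@Lb.d (nat_lit 40) (nat_lit 262) (nat_lit 130) (@Lb.g g8 (@Lb.g g9 (@Lb.g g10 (@Lb.g g11 (@Lb.r r1667 (@Lb.r r2401 (@Lb.r r1178 (@Lb.r r388 (@Lb.d (nat_lit 294) (nat_lit 97) (nat_lit 586) (@Lb.fm (nat_lit 9) t68)))))))))))
noncomputable def l28140 : Lb := (@Lb.d (nat_lit 10) (nat_lit 514) (nat_lit 130) (@Lb.g g4 (@Lb.g g9 (@Lb.g g10 (@Lb.g g11 (@Lb.r r419 (@Lb.r r98 (@Lb.d (nat_lit 0) (nat_lit 4) (nat_lit 1) (@Lb.fm (nat_lit 9) t51)))))))))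
noncomputable def l28141 : Lb := (@Lb.d (nat_lit 10) (nat_lit 514) (nat_lit 64) (@Lb.g g4 (@Lb.g g9 (@Lb.g g10 (@Lb.g g11 (@Lb.r r1315 (@Lb.r r2626 (@Lb.d (nat_lit 0) (nat_lit 104) (nat_lit 642) (@Lb.fm (nat_lit 9) t51)))))))))
noncomputable def l28142 : Lb := (@Lb.d (nat_lit 10) (nat_lit 258) (nat_lit 73) (@Lb.g g4 (@Lb.g g9 (@Lb.g g10 (@Lb.g g11 (@Lb.r r419 (@Lb.r r674 (@Lb.d (nat_lit 0) (nat_lit 132) (nat_lit 392) (@Lb.fp (nat_lit 9) t51)))))))))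
noncomputable def l28143 : Lb := (@Lb.d (nat_lit 538) (nat_lit 545) (nat_lit 0) (@Lb.g g8 (@Lb.g g9 (@Lb.r r343 (@Lb.r r2178 (@Lb.r r617 (@Lb.d (nat_lit 660) (nat_lit 26) (nat_lit 389) (@Lb.fm (nat_lit 3) t2551))))))))
noncomputable def l28144 : Lb := (@Lb.r r21 (@Lb.r r70 (@Lb.g g4 (@Lb.r r330 (@Lb.r r281 (@Lb.r r260 (@Lb.d (nat_lit 0) (nat_lit 0) (nat_lit 64) (@Lb.t (@Lb.fm (nat_lit 3) t5130)))))))))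
noncomputable def l28145 : Lb := (@Lb.d (nat_lit 389) (nat_lit 129) (nat_lit 0) (@Lb.r r21 (@Lb.r r70 (@Lb.g g4 (@Lb.d (nat_lit 585) (nat_lit 0) (nat_lit 0) (@Lb.r r74 (@Lb.r r25 (@Lb.t (@Lb.fm (nat_lit 3) t2691)))))))))
noncomputable def l28146 : Lb := (@Lb.r r21 (@Lb.r r70 (@Lb.d (nat_lit 658) (nat_lit 256) (nat_lit 136) (@Lb.g g8 (@Lb.g g11 (@Lb.r r74 (@Lb.r r25 (@Lb.d (nat_lit 290) (nat_lit 5) (nat_lit 0) (@Lb.fm (nat_lit 3) t812)))))))))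
noncomputable def l28147 : Lb := (@Lb.d (nat_lit 4) (nat_lit 38) (nat_lit 74) (@Lb.g g8 (@Lb.g g9 (@Lb.g g10 (@Lb.g g11 (@Lb.r r1707 (@Lb.r r1386 (@Lb.r r2585 (@Lb.d (nat_lit 329) (nat_lit 9) (nat_lit 549) (@Lb.fm (nat_lit 9) t1370))))))))))
noncomputable def l28148 : Lb := (@Lb.r r279 (@Lb.d (nat_lit 38) (nat_lit 258) (nat_lit 2) (@Lb.g g8 (@Lb.g g9 (@Lb.g g10 (@Lb.r r1448 (@Lb.r r519 (@Lb.r r1410 (@Lb.r r2657 (@Lb.d (nat_lit 0) (nat_lit 137) (nat_lit 149) (@Lb.t (@Lb.fm (nat_lit 9) t5210))))))))))))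
noncomputable def l28149 : Lb := (@Lb.d (nat_lit 4) (nat_lit 550) (nat_lit 74) (@Lb.g g8 (@Lb.g g9 (@Lb.g g10 (@Lb.g g11 (@Lb.r r1707 (@Lb.r r1386 (@Lb.r r2585 (@Lb.d (nat_lit 330) (nat_lit 9) (nat_lit 549) (@Lb.fm (nat_lit 9) t1370))))))))))
noncomputable def l28150 : Lb := (@Lb.d (nat_lit 5) (nat_lit 585) (nat_lit 96) (@Lb.r r2213 (@Lb.r r1304 (@Lb.r r2178 (@Lb.g g7 (@Lb.d (nat_lit 64) (nat_lit 0) (nat_lit 328) (@Lb.t (@Lb.fp (nat_lit 3) t1173))))))))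
noncomputable def l28151 : Lb := (@Lb.d (nat_lit 4) (nat_lit 289) (nat_lit 73) (@Lb.g g8 (@Lb.g g9 (@Lb.g g10 (@Lb.g g11 (@Lb.r r1707 (@Lb.r r1386 (@Lb.r r2585 (@Lb.d (nat_lit 329) (nat_lit 9) (nat_lit 549) (@Lb.fm (nat_lit 9) t1047))))))))))
noncomputable def l28152 : Lb := (@Lb.d (nat_lit 100) (nat_lit 549) (nat_lit 145) (@Lb.r r1321 (@Lb.r r1444 (@Lb.r r2374 (@Lb.r r611 (@Lb.g g7 (@Lb.g g6 (@Lb.g g5 (@Lb.d (nat_lit 4) (nat_lit 1) (nat_lit 134) (@Lb.t (@Lb.fp (nat_lit 9) t5211)))))))))))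
noncomputable def l28153 : Lb := (@Lb.d (nat_lit 4) (nat_lit 256) (nat_lit 162) (@Lb.g g8 (@Lb.g g9 (@Lb.g g6 (@Lb.g g11 (@Lb.r r2667 (@Lb.r r2657 (@Lb.r r24 (@Lb.d (nat_lit 265) (nat_lit 89) (nat_lit 168) (@Lb.fp (nat_lit 9) t3748))))))))))
noncomputable def l28154 : Lb := (@Lb.d (nat_lit 168) (nat_lit 257) (nat_lit 8) (@Lb.g g8 (@Lb.g g9 (@Lb.g g6 (@Lb.r r407 (@Lb.r r2665 (@Lb.r r2644 (@Lb.d (nat_lit 657) (nat_lit 98) (nat_lit 282) (@Lb.t (@Lb.fm (nat_lit 9) t451))))))))))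
noncomputable def l28155 : Lb := (@Lb.d (nat_lit 8) (nat_lit 258) (nat_lit 66) (@Lb.g g9 (@Lb.g g10 (@Lb.g g11 (@Lb.r r586 (@Lb.r r584 (@Lb.r r299 (@Lb.r r1425 (@Lb.d (nat_lit 294) (nat_lit 9) (nat_lit 2) (@Lb.t (@Lb.fp (nat_lit 9) t410)))))))))))
noncomputable def l28156 : Lb := (@Lb.d (nat_lit 2) (nat_lit 552) (nat_lit 65) (@Lb.g g8 (@Lb.g g9 (@Lb.g g10 (@Lb.g g11 (@Lb.r r2454 (@Lb.r r2627 (@Lb.r r2409 (@Lb.r r24 (@Lb.d (nat_lit 390) (nat_lit 168) (nat_lit 617) (@Lb.fp (nat_lit 9) t1424)))))))))))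
noncomputable def l28157 : Lb := (@Lb.d (nat_lit 145) (nat_lit 672) (nat_lit 417) (@Lb.r r24 (@Lb.r r1383 (@Lb.r r2389 (@Lb.g g6 (@Lb.g g4 (@Lb.d (nat_lit 1) (nat_lit 8) (nat_lit 41) (@Lb.r r387 (@Lb.fp (nat_lit 3) t531)))))))))
noncomputable def l28158 : Lb := (@Lb.d (nat_lit 328) (nat_lit 546) (nat_lit 512) (@Lb.r r2567 (@Lb.r r280 (@Lb.r r101 (@Lb.r r2642 (@Lb.g g7 (@Lb.d (nat_lit 64) (nat_lit 0) (nat_lit 132) (@Lb.t (@Lb.fp (nat_lit 3) t1877)))))))))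
noncomputable def l28159 : Lb := (@Lb.d (nat_lit 130) (nat_lit 258) (nat_lit 66) (@Lb.g g8 (@Lb.g g9 (@Lb.g g10 (@Lb.g g11 (@Lb.r r2666 (@Lb.r r612 (@Lb.r r1319 (@Lb.r r405 (@Lb.r r2084 (@Lb.d (nat_lit 610) (nat_lit 138) (nat_lit 169) (@Lb.fp (nat_lit 9) t1039))))))))))))
noncomputable def l28160 : Lb := (@Lb.d (nat_lit 8) (nat_lit 674) (nat_lit 9) (@Lb.g g9 (@Lb.g g10 (@Lb.r r595 (@Lb.r r386 (@Lb.d (nat_lit 2) (nat_lit 168) (nat_lit 146) (@Lb.fm (nat_lit 3) t791)))))))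
noncomputable def l28161 : Lb := (@Lb.d (nat_lit 2) (nat_lit 265) (nat_lit 9) (@Lb.g g8 (@Lb.g g9 (@Lb.g g10 (@Lb.g g11 (@Lb.r r1194 (@Lb.r r424 (@Lb.r r279 (@Lb.r r1553 (@Lb.r r2084 (@Lb.d (nat_lit 1) (nat_lit 97) (nat_lit 586) (@Lb.fp (nat_lit 9) t594))))))))))))
noncomputable def l28162 : Lb := (@Lb.d (nat_lit 2) (nat_lit 2) (nat_lit 10) (@Lb.g g8 (@Lb.g g9 (@Lb.g g10 (@Lb.g g11 (@Lb.r r1194 (@Lb.r r424 (@Lb.r r279 (@Lb.r r1553 (@Lb.r r2084 (@Lb.d (nat_lit 1) (nat_lit 97) (nat_lit 586) (@Lb.fp (nat_lit 9) t51))))))))))))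
noncomputable def l28163 : Lb := (@Lb.d (nat_lit 2) (nat_lit 514) (nat_lit 10) (@Lb.g g8 (@Lb.g g9 (@Lb.g g10 (@Lb.g g11 (@Lb.r r1194 (@Lb.r r424 (@Lb.r r279 (@Lb.r r1553 (@Lb.r r2084 (@Lb.d (nat_lit 2) (nat_lit 97) (nat_lit 586) (@Lb.fp (nat_lit 9) t51))))))))))))
noncomputable def l28164 : Lb := (@Lb.d (nat_lit 2) (nat_lit 512) (nat_lit 72) (@Lb.g g8 (@Lb.g g11 (@Lb.r r2436 (@Lb.d (nat_lit 618) (nat_lit 2) (nat_lit 425) (@Lb.fm (nat_lit 3) t1737))))))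
noncomputable def l28165 : Lb := (@Lb.d (nat_lit 1) (nat_lit 258) (nat_lit 130) (@Lb.g g8 (@Lb.g g9 (@Lb.g g10 (@Lb.g g11 (@Lb.r r610 (@Lb.r r1607 (@Lb.r r97 (@Lb.r r2436 (@Lb.d (nat_lit 154) (nat_lit 9) (nat_lit 392) (@Lb.fp (nat_lit 9) t3176)))))))))))
noncomputable def l28166 : Lb := (@Lb.d (nat_lit 2) (nat_lit 2) (nat_lit 73) (@Lb.g g8 (@Lb.g g9 (@Lb.g g10 (@Lb.g g11 (@Lb.r r619 (@Lb.r r1610 (@Lb.r r660 (@Lb.r r425 (@Lb.r r2084 (@Lb.d (nat_lit 164) (nat_lit 170) (nat_lit 89) (@Lb.fp (nat_lit 9) t5212))))))))))))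
noncomputable def l28167 : Lb := (@Lb.r r82 (@Lb.d (nat_lit 134) (nat_lit 512) (nat_lit 64) (@Lb.g g8 (@Lb.g g9 (@Lb.g g11 (@Lb.r r1124 (@Lb.r r618 (@Lb.r r609 (@Lb.r r2339 (@Lb.d (nat_lit 610) (nat_lit 104) (nat_lit 73) (@Lb.t (@Lb.fp (nat_lit 9) t5213))))))))))))
noncomputable def l28168 : Lb := (@Lb.d (nat_lit 2) (nat_lit 2) (nat_lit 73) (@Lb.g g8 (@Lb.g g9 (@Lb.g g10 (@Lb.g g11 (@Lb.r r2691 (@Lb.r r2474 (@Lb.r r1313 (@Lb.r r24 (@Lb.d (nat_lit 136) (nat_lit 80) (nat_lit 616) (@Lb.fp (nat_lit 9) t5214)))))))))))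
noncomputable def l28169 : Lb := (@Lb.d (nat_lit 601) (nat_lit 613) (nat_lit 645) (@Lb.r r2409 (@Lb.r r548 (@Lb.r r1414 (@Lb.r r295 (@Lb.g g5 (@Lb.d (nat_lit 4) (nat_lit 17) (nat_lit 0) (@Lb.t (@Lb.fm (nat_lit 3) t40)))))))))
noncomputable def l28170 : Lb := (@Lb.r r323 (@Lb.d (nat_lit 2) (nat_lit 22) (nat_lit 16) (@Lb.g g8 (@Lb.g g5 (@Lb.g g10 (@Lb.r r2459 (@Lb.r r24 (@Lb.d (nat_lit 586) (nat_lit 0) (nat_lit 416) (@Lb.t (@Lb.fm (nat_lit 9) t2389))))))))))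
noncomputable def l28171 : Lb := (@Lb.d (nat_lit 32) (nat_lit 8) (nat_lit 74) (@Lb.g g10 (@Lb.g g11 (@Lb.r r661 (@Lb.r r2664 (@Lb.r r2411 (@Lb.r r2714 (@Lb.d (nat_lit 104) (nat_lit 96) (nat_lit 405) (@Lb.fm (nat_lit 3) t40)))))))))
noncomputable def l28172 : Lb := (@Lb.r r322 (@Lb.d (nat_lit 4) (nat_lit 514) (nat_lit 576) (@Lb.g g9 (@Lb.g g7 (@Lb.r r660 (@Lb.r r358 (@Lb.r r337 (@Lb.d (nat_lit 642) (nat_lit 98) (nat_lit 5) (@Lb.fp (nat_lit 3) t385)))))))))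
noncomputable def l28173 : Lb := (@Lb.r r82 (@Lb.d (nat_lit 9) (nat_lit 297) (nat_lit 64) (@Lb.g g8 (@Lb.g g9 (@Lb.g g11 (@Lb.r r355 (@Lb.r r1174 (@Lb.r r2133 (@Lb.d (nat_lit 358) (nat_lit 136) (nat_lit 281) (@Lb.t (@Lb.fp (nat_lit 9) t868)))))))))))
noncomputable def l28174 : Lb := (@Lb.d (nat_lit 0) (nat_lit 258) (nat_lit 66) (@Lb.g g9 (@Lb.g g10 (@Lb.g g7 (@Lb.r r386 (@Lb.r r97 (@Lb.r r24 (@Lb.d (nat_lit 328) (nat_lit 9) (nat_lit 585) (@Lb.t (@Lb.fm (nat_lit 9) t1150))))))))))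
noncomputable def l28175 : Lb := (@Lb.d (nat_lit 2) (nat_lit 258) (nat_lit 130) (@Lb.g g8 (@Lb.g g9 (@Lb.g g10 (@Lb.g g11 (@Lb.r r358 (@Lb.r r404 (@Lb.r r1433 (@Lb.r r2343 (@Lb.r r1540 (@Lb.d (nat_lit 258) (nat_lit 97) (nat_lit 586) (@Lb.fp (nat_lit 9) t5215))))))))))))
noncomputable def l28176 : Lb := (@Lb.d (nat_lit 2) (nat_lit 516) (nat_lit 0) (@Lb.g g8 (@Lb.g g9 (@Lb.g g10 (@Lb.r r683 (@Lb.r r2666 (@Lb.r r25 (@Lb.d (nat_lit 10) (nat_lit 89) (nat_lit 537) (@Lb.t (@Lb.fp (nat_lit 9) t1369))))))))))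
noncomputable def l28177 : Lb := (@Lb.r r323 (@Lb.d (nat_lit 0) (nat_lit 2) (nat_lit 1) (@Lb.g g9 (@Lb.g g6 (@Lb.r r2667 (@Lb.r r97 (@Lb.r r24 (@Lb.d (nat_lit 264) (nat_lit 9) (nat_lit 128) (@Lb.fm (nat_lit 3) t335)))))))))
noncomputable def l28178 : Lb := (@Lb.d (nat_lit 149) (nat_lit 0) (nat_lit 130) (@Lb.g g8 (@Lb.g g9 (@Lb.g g10 (@Lb.g g11 (@Lb.r r1703 (@Lb.r r358 (@Lb.r r280 (@Lb.r r1045 (@Lb.r r2084 (@Lb.d (nat_lit 617) (nat_lit 84) (nat_lit 325) (@Lb.fp (nat_lit 9) t5216))))))))))))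
noncomputable def l28179 : Lb := (@Lb.d (nat_lit 8) (nat_lit 2) (nat_lit 130) (@Lb.g g9 (@Lb.g g10 (@Lb.g g11 (@Lb.r r1130 (@Lb.r r24 (@Lb.r r1685 (@Lb.r r1427 (@Lb.d (nat_lit 550) (nat_lit 154) (nat_lit 601) (@Lb.t (@Lb.fp (nat_lit 9) t4456)))))))))))
noncomputable def l28180 : Lb := (@Lb.r r82 (@Lb.d (nat_lit 134) (nat_lit 256) (nat_lit 64) (@Lb.g g8 (@Lb.g g9 (@Lb.g g11 (@Lb.r r1124 (@Lb.r r618 (@Lb.r r609 (@Lb.r r2339 (@Lb.d (nat_lit 608) (nat_lit 104) (nat_lit 73) (@Lb.t (@Lb.fp (nat_lit 9) t3226))))))))))))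
noncomputable def l28181 : Lb := (@Lb.d (nat_lit 4) (nat_lit 0) (nat_lit 73) (@Lb.g g8 (@Lb.g g9 (@Lb.g g10 (@Lb.g g11 (@Lb.r r2691 (@Lb.r r1621 (@Lb.r r2730 (@Lb.r r1124 (@Lb.d (nat_lit 666) (nat_lit 138) (nat_lit 342) (@Lb.fp (nat_lit 9) t5217)))))))))))
noncomputable def l28182 : Lb := (@Lb.d (nat_lit 128) (nat_lit 2) (nat_lit 258) (@Lb.g g9 (@Lb.g g10 (@Lb.g g7 (@Lb.r r2438 (@Lb.r r2657 (@Lb.d (nat_lit 100) (nat_lit 170) (nat_lit 133) (@Lb.t (@Lb.fp (nat_lit 9) t5218)))))))))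
noncomputable def l28183 : Lb := (@Lb.r r82 (@Lb.d (nat_lit 2) (nat_lit 289) (nat_lit 64) (@Lb.g g8 (@Lb.g g9 (@Lb.g g11 (@Lb.r r2659 (@Lb.r r386 (@Lb.r r2472 (@Lb.r r2393 (@Lb.d (nat_lit 592) (nat_lit 6) (nat_lit 73) (@Lb.t (@Lb.fp (nat_lit 9) t3362))))))))))))
noncomputable def l28184 : Lb := (@Lb.r r82 (@Lb.d (nat_lit 134) (nat_lit 0) (nat_lit 64) (@Lb.g g8 (@Lb.g g9 (@Lb.g g11 (@Lb.r r1124 (@Lb.r r618 (@Lb.r r609 (@Lb.r r2339 (@Lb.d (nat_lit 608) (nat_lit 97) (nat_lit 74) (@Lb.t (@Lb.fp (nat_lit 9) t5219))))))))))))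
noncomputable def l28185 : Lb := (@Lb.r r82 (@Lb.d (nat_lit 0) (nat_lit 2) (nat_lit 128) (@Lb.g g9 (@Lb.g g11 (@Lb.r r2659 (@Lb.r r386 (@Lb.r r1169 (@Lb.r r24 (@Lb.d (nat_lit 544) (nat_lit 90) (nat_lit 273) (@Lb.fp (nat_lit 3) t5220))))))))))
noncomputable def l28186 : Lb := (@Lb.r r81 (@Lb.r r331 (@Lb.d (nat_lit 34) (nat_lit 8) (nat_lit 17) (@Lb.g g8 (@Lb.g g6 (@Lb.r r1411 (@Lb.r r2325 (@Lb.r r2724 (@Lb.d (nat_lit 392) (nat_lit 86) (nat_lit 644) (@Lb.fp (nat_lit 3) t5221))))))))))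
noncomputable def l28187 : Lb := (@Lb.d (nat_lit 10) (nat_lit 258) (nat_lit 130) (@Lb.g g8 (@Lb.g g9 (@Lb.g g10 (@Lb.g g11 (@Lb.r r676 (@Lb.r r1638 (@Lb.r r2661 (@Lb.r r359 (@Lb.r r644 (@Lb.d (nat_lit 0) (nat_lit 130) (nat_lit 18) (@Lb.fm (nat_lit 9) t2))))))))))))
noncomputable def l28188 : Lb := (@Lb.d (nat_lit 33) (nat_lit 537) (nat_lit 0) (@Lb.g g8 (@Lb.g g9 (@Lb.r r402 (@Lb.r r615 (@Lb.r r388 (@Lb.d (nat_lit 610) (nat_lit 2) (nat_lit 162) (@Lb.fm (nat_lit 3) t40))))))))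
noncomputable def l28189 : Lb := (@Lb.r r70 (@Lb.r r263 (@Lb.d (nat_lit 41) (nat_lit 585) (nat_lit 0) (@Lb.g g8 (@Lb.g g9 (@Lb.r r1686 (@Lb.r r2731 (@Lb.r r1300 (@Lb.d (nat_lit 260) (nat_lit 17) (nat_lit 64) (@Lb.fm (nat_lit 3) t3686))))))))))
noncomputable def l28190 : Lb := (@Lb.d (nat_lit 10) (nat_lit 514) (nat_lit 130) (@Lb.g g8 (@Lb.g g9 (@Lb.g g10 (@Lb.g g11 (@Lb.r r2691 (@Lb.r r132 (@Lb.r r614 (@Lb.r r2145 (@Lb.r r1060 (@Lb.d (nat_lit 641) (nat_lit 34) (nat_lit 320) (@Lb.fp (nat_lit 9) t242))))))))))))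
noncomputable def l28191 : Lb := (@Lb.d (nat_lit 128) (nat_lit 512) (nat_lit 257) (@Lb.g g7 (@Lb.d (nat_lit 64) (nat_lit 0) (nat_lit 580) (@Lb.t (@Lb.fm (nat_lit 3) t1911)))))
noncomputable def l28192 : Lb := (@Lb.r r323 (@Lb.d (nat_lit 2) (nat_lit 546) (nat_lit 2) (@Lb.g g8 (@Lb.g g9 (@Lb.g g10 (@Lb.r r599 (@Lb.r r1702 (@Lb.r r1444 (@Lb.r r149 (@Lb.d (nat_lit 289) (nat_lit 168) (nat_lit 386) (@Lb.t (@Lb.fm (nat_lit 9) t1089))))))))))))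
noncomputable def l28193 : Lb := (@Lb.d (nat_lit 138) (nat_lit 512) (nat_lit 64) (@Lb.g g8 (@Lb.g g11 (@Lb.r r1307 (@Lb.r r2662 (@Lb.r r613 (@Lb.r r2452 (@Lb.d (nat_lit 614) (nat_lit 144) (nat_lit 520) (@Lb.fp (nat_lit 3) t745)))))))))
noncomputable def l28194 : Lb := (@Lb.r r323 (@Lb.d (nat_lit 137) (nat_lit 262) (nat_lit 0) (@Lb.g g8 (@Lb.g g9 (@Lb.g g10 (@Lb.r r599 (@Lb.r r98 (@Lb.r r97 (@Lb.r r2312 (@Lb.d (nat_lit 393) (nat_lit 137) (nat_lit 673) (@Lb.t (@Lb.fp (nat_lit 9) t3023))))))))))))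
noncomputable def l28195 : Lb := (@Lb.d (nat_lit 32) (nat_lit 520) (nat_lit 74) (@Lb.g g10 (@Lb.g g11 (@Lb.r r407 (@Lb.r r612 (@Lb.r r2661 (@Lb.r r2394 (@Lb.d (nat_lit 424) (nat_lit 150) (nat_lit 294) (@Lb.fp (nat_lit 3) t322)))))))))
noncomputable def l28196 : Lb := (@Lb.r r21 (@Lb.r r70 (@Lb.d (nat_lit 0) (nat_lit 0) (nat_lit 324) (@Lb.g g8 (@Lb.g g7 (@Lb.r r402 (@Lb.r r1129 (@Lb.r r2084 (@Lb.d (nat_lit 66) (nat_lit 64) (nat_lit 645) (@Lb.fp (nat_lit 3) t5222))))))))))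
noncomputable def l28197 : Lb := (@Lb.d (nat_lit 2) (nat_lit 520) (nat_lit 130) (@Lb.g g8 (@Lb.g g9 (@Lb.g g10 (@Lb.g g11 (@Lb.r r2667 (@Lb.r r1610 (@Lb.r r337 (@Lb.r r24 (@Lb.d (nat_lit 661) (nat_lit 106) (nat_lit 592) (@Lb.fp (nat_lit 9) t5223)))))))))))
noncomputable def l28198 : Lb := (@Lb.d (nat_lit 0) (nat_lit 514) (nat_lit 130) (@Lb.g g8 (@Lb.g g9 (@Lb.g g10 (@Lb.g g11 (@Lb.r r2691 (@Lb.r r297 (@Lb.r r648 (@Lb.r r666 (@Lb.r r1156 (@Lb.d (nat_lit 648) (nat_lit 41) (nat_lit 73) (@Lb.fp (nat_lit 9) t668))))))))))))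
noncomputable def l28199 : Lb := (@Lb.d (nat_lit 4) (nat_lit 512) (nat_lit 64) (@Lb.g g8 (@Lb.g g9 (@Lb.g g10 (@Lb.g g11 (@Lb.r r618 (@Lb.r r323 (@Lb.r r2626 (@Lb.r r2585 (@Lb.d (nat_lit 329) (nat_lit 97) (nat_lit 17) (@Lb.fp (nat_lit 9) t3706)))))))))))
noncomputable def l28200 : Lb := (@Lb.r r21 (@Lb.r r70 (@Lb.d (nat_lit 33) (nat_lit 256) (nat_lit 0) (@Lb.g g4 (@Lb.g g7 (@Lb.r r74 (@Lb.r r25 (@Lb.d (nat_lit 17) (nat_lit 0) (nat_lit 69) (@Lb.fm (nat_lit 3) t5130)))))))))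
noncomputable def l28201 : Lb := (@Lb.d (nat_lit 2) (nat_lit 5) (nat_lit 128) (@Lb.g g8 (@Lb.g g9 (@Lb.g g10 (@Lb.g g11 (@Lb.r r601 (@Lb.r r535 (@Lb.r r2440 (@Lb.r r2122 (@Lb.d (nat_lit 160) (nat_lit 0) (nat_lit 73) (@Lb.fp (nat_lit 9) t19)))))))))))
noncomputable def l28202 : Lb := (@Lb.d (nat_lit 4) (nat_lit 40) (nat_lit 64) (@Lb.g g8 (@Lb.g g10 (@Lb.g g11 (@Lb.r r2129 (@Lb.r r2466 (@Lb.r r1603 (@Lb.d (nat_lit 322) (nat_lit 130) (nat_lit 585) (@Lb.t (@Lb.fm (nat_lit 9) t3352))))))))))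
noncomputable def l28203 : Lb := (@Lb.d (nat_lit 325) (nat_lit 678) (nat_lit 528) (@Lb.r r1300 (@Lb.r r601 (@Lb.r r283 (@Lb.g g6 (@Lb.g g4 (@Lb.d (nat_lit 68) (nat_lit 0) (nat_lit 2) (@Lb.r r387 (@Lb.fm (nat_lit 3) t2372)))))))))
noncomputable def l28204 : Lb := (@Lb.g g7 (@Lb.r r616 (@Lb.r r2665 (@Lb.r r2390 (@Lb.r r1188 (@Lb.d (nat_lit 1) (nat_lit 256) (nat_lit 512) (@Lb.t (@Lb.fm (nat_lit 3) t322))))))))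
noncomputable def l28205 : Lb := (@Lb.d (nat_lit 5) (nat_lit 8) (nat_lit 130) (@Lb.g g4 (@Lb.g g10 (@Lb.g g11 (@Lb.r r387 (@Lb.d (nat_lit 0) (nat_lit 0) (nat_lit 137) (@Lb.t (@Lb.fp (nat_lit 9) t51))))))))
noncomputable def l28206 : Lb := (@Lb.r r21 (@Lb.d (nat_lit 146) (nat_lit 512) (nat_lit 256) (@Lb.g g8 (@Lb.g g10 (@Lb.g g7 (@Lb.r r394 (@Lb.r r1177 (@Lb.r r1156 (@Lb.d (nat_lit 38) (nat_lit 1) (nat_lit 290) (@Lb.t (@Lb.fm (nat_lit 9) t491)))))))))))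
noncomputable def l28207 : Lb := (@Lb.d (nat_lit 134) (nat_lit 261) (nat_lit 128) (@Lb.g g8 (@Lb.g g9 (@Lb.g g10 (@Lb.g g11 (@Lb.r r683 (@Lb.r r2724 (@Lb.r r1158 (@Lb.r r97 (@Lb.d (nat_lit 33) (nat_lit 105) (nat_lit 673) (@Lb.fm (nat_lit 9) t1144)))))))))))
noncomputable def l28208 : Lb := (@Lb.d (nat_lit 133) (nat_lit 257) (nat_lit 257) (@Lb.g g7 (@Lb.d (nat_lit 64) (nat_lit 0) (nat_lit 580) (@Lb.t (@Lb.fm (nat_lit 3) t1911)))))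
noncomputable def l28209 : Lb := (@Lb.d (nat_lit 136) (nat_lit 256) (nat_lit 64) (@Lb.g g8 (@Lb.g g11 (@Lb.r r1307 (@Lb.r r2662 (@Lb.r r613 (@Lb.r r2452 (@Lb.d (nat_lit 612) (nat_lit 144) (nat_lit 648) (@Lb.fp (nat_lit 3) t927)))))))))
noncomputable def l28210 : Lb := (@Lb.d (nat_lit 148) (nat_lit 0) (nat_lit 64) (@Lb.g g8 (@Lb.g g9 (@Lb.g g10 (@Lb.g g11 (@Lb.r r427 (@Lb.r r426 (@Lb.r r409 (@Lb.r r388 (@Lb.d (nat_lit 105) (nat_lit 1) (nat_lit 136) (@Lb.fm (nat_lit 9) t4185)))))))))))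
noncomputable def l28211 : Lb := (@Lb.r r323 (@Lb.d (nat_lit 2) (nat_lit 544) (nat_lit 2) (@Lb.g g8 (@Lb.g g9 (@Lb.g g10 (@Lb.r r1623 (@Lb.r r678 (@Lb.r r420 (@Lb.r r2197 (@Lb.d (nat_lit 33) (nat_lit 102) (nat_lit 401) (@Lb.t (@Lb.fm (nat_lit 9) t1089))))))))))))
noncomputable def l28212 : Lb := (@Lb.d (nat_lit 406) (nat_lit 513) (nat_lit 289) (@Lb.g g7 (@Lb.d (nat_lit 0) (nat_lit 0) (nat_lit 68) (@Lb.t (@Lb.fm (nat_lit 3) t469)))))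
noncomputable def l28213 : Lb := (@Lb.d (nat_lit 128) (nat_lit 512) (nat_lit 384) (@Lb.g g8 (@Lb.g g11 (@Lb.r r2662 (@Lb.r r613 (@Lb.r r2452 (@Lb.d (nat_lit 100) (nat_lit 10) (nat_lit 546) (@Lb.fp (nat_lit 3) t745))))))))
noncomputable def l28214 : Lb := (@Lb.r r323 (@Lb.d (nat_lit 2) (nat_lit 290) (nat_lit 2) (@Lb.g g8 (@Lb.g g9 (@Lb.g g10 (@Lb.r r599 (@Lb.r r1702 (@Lb.r r1444 (@Lb.r r149 (@Lb.d (nat_lit 288) (nat_lit 166) (nat_lit 385) (@Lb.t (@Lb.fm (nat_lit 9) t1089))))))))))))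
noncomputable def l28215 : Lb := (@Lb.r r21 (@Lb.r r70 (@Lb.d (nat_lit 130) (nat_lit 0) (nat_lit 256) (@Lb.g g8 (@Lb.g g7 (@Lb.r r392 (@Lb.r r74 (@Lb.r r25 (@Lb.d (nat_lit 17) (nat_lit 10) (nat_lit 528) (@Lb.fm (nat_lit 3) t5224))))))))))
noncomputable def l28216 : Lb := (@Lb.d (nat_lit 292) (nat_lit 513) (nat_lit 34) (@Lb.r r20 (@Lb.r r2137 (@Lb.r r323 (@Lb.g g10 (@Lb.g g4 (@Lb.d (nat_lit 2) (nat_lit 4) (nat_lit 2) (@Lb.r r387 (@Lb.r r145 (@Lb.fp (nat_lit 3) t5))))))))))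
noncomputable def l28217 : Lb := (@Lb.d (nat_lit 8) (nat_lit 1) (nat_lit 130) (@Lb.g g8 (@Lb.g g9 (@Lb.g g10 (@Lb.g g11 (@Lb.r r1435 (@Lb.r r404 (@Lb.r r2150 (@Lb.r r97 (@Lb.r r1060 (@Lb.d (nat_lit 9) (nat_lit 40) (nat_lit 578) (@Lb.fm (nat_lit 9) t119))))))))))))
noncomputable def l28218 : Lb := (@Lb.r r1045 (@Lb.r r323 (@Lb.d (nat_lit 258) (nat_lit 256) (nat_lit 0) (@Lb.g g8 (@Lb.g g10 (@Lb.r r2443 (@Lb.r r2122 (@Lb.d (nat_lit 550) (nat_lit 64) (nat_lit 34) (@Lb.fm (nat_lit 3) t284)))))))))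
noncomputable def l28219 : Lb := (@Lb.r r1045 (@Lb.d (nat_lit 258) (nat_lit 512) (nat_lit 2) (@Lb.g g8 (@Lb.g g10 (@Lb.g g11 (@Lb.r r2443 (@Lb.r r2122 (@Lb.d (nat_lit 550) (nat_lit 64) (nat_lit 34) (@Lb.t (@Lb.fm (nat_lit 9) t284))))))))))
noncomputable def l28220 : Lb := (@Lb.d (nat_lit 33) (nat_lit 266) (nat_lit 128) (@Lb.g g8 (@Lb.g g9 (@Lb.g g11 (@Lb.r r2134 (@Lb.r r1704 (@Lb.r r555 (@Lb.r r545 (@Lb.d (nat_lit 8) (nat_lit 154) (nat_lit 425) (@Lb.t (@Lb.fp (nat_lit 9) t334)))))))))))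
noncomputable def l28221 : Lb := (@Lb.d (nat_lit 9) (nat_lit 1) (nat_lit 130) (@Lb.g g8 (@Lb.g g9 (@Lb.g g10 (@Lb.g g11 (@Lb.r r1699 (@Lb.r r164 (@Lb.r r2709 (@Lb.r r2198 (@Lb.r r2084 (@Lb.d (nat_lit 290) (nat_lit 162) (nat_lit 292) (@Lb.fp (nat_lit 9) t791))))))))))))
noncomputable def l28222 : Lb := (@Lb.d (nat_lit 129) (nat_lit 514) (nat_lit 0) (@Lb.g g8 (@Lb.g g9 (@Lb.r r1450 (@Lb.r r1433 (@Lb.r r2663 (@Lb.r r1432 (@Lb.d (nat_lit 666) (nat_lit 21) (nat_lit 425) (@Lb.fp (nat_lit 3) t334)))))))))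
noncomputable def l28223 : Lb := (@Lb.d (nat_lit 9) (nat_lit 257) (nat_lit 130) (@Lb.g g8 (@Lb.g g9 (@Lb.g g10 (@Lb.g g11 (@Lb.r r1699 (@Lb.r r164 (@Lb.r r2709 (@Lb.r r2198 (@Lb.r r2084 (@Lb.d (nat_lit 289) (nat_lit 162) (nat_lit 292) (@Lb.fp (nat_lit 9) t791))))))))))))
noncomputable def l28224 : Lb := (@Lb.g g8 (@Lb.r r674 (@Lb.r r665 (@Lb.r r340 (@Lb.r r1675 (@Lb.r r586 (@Lb.d (nat_lit 2) (nat_lit 256) (nat_lit 256) (@Lb.t (@Lb.fp (nat_lit 3) t2027)))))))))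
noncomputable def l28225 : Lb := (@Lb.d (nat_lit 261) (nat_lit 64) (nat_lit 160) (@Lb.r r24 (@Lb.r r2394 (@Lb.r r661 (@Lb.g g11 (@Lb.g g4 (@Lb.d (nat_lit 1) (nat_lit 32) (nat_lit 324) (@Lb.r r578 (@Lb.fm (nat_lit 3) t927)))))))))
noncomputable def l28226 : Lb := (@Lb.r r322 (@Lb.d (nat_lit 0) (nat_lit 514) (nat_lit 136) (@Lb.g g9 (@Lb.g g11 (@Lb.r r402 (@Lb.r r1125 (@Lb.r r24 (@Lb.d (nat_lit 65) (nat_lit 0) (nat_lit 656) (@Lb.fp (nat_lit 3) t145)))))))))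
noncomputable def l28227 : Lb := (@Lb.r r21 (@Lb.d (nat_lit 2) (nat_lit 256) (nat_lit 2) (@Lb.g g8 (@Lb.g g10 (@Lb.g g7 (@Lb.r r386 (@Lb.r r97 (@Lb.r r2632 (@Lb.d (nat_lit 356) (nat_lit 88) (nat_lit 36) (@Lb.t (@Lb.fm (nat_lit 9) t3305)))))))))))
noncomputable def l28228 : Lb := (@Lb.r r21 (@Lb.r r70 (@Lb.d (nat_lit 513) (nat_lit 256) (nat_lit 0) (@Lb.g g4 (@Lb.r r74 (@Lb.r r25 (@Lb.d (nat_lit 96) (nat_lit 10) (nat_lit 530) (@Lb.t (@Lb.fm (nat_lit 3) t5225)))))))))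
noncomputable def l28229 : Lb := (@Lb.d (nat_lit 4) (nat_lit 521) (nat_lit 130) (@Lb.g g8 (@Lb.g g9 (@Lb.g g10 (@Lb.g g11 (@Lb.r r2667 (@Lb.r r1642 (@Lb.r r673 (@Lb.r r24 (@Lb.d (nat_lit 344) (nat_lit 21) (nat_lit 402) (@Lb.fm (nat_lit 9) t200)))))))))))
noncomputable def l28230 : Lb := (@Lb.d (nat_lit 2) (nat_lit 1) (nat_lit 128) (@Lb.g g8 (@Lb.g g9 (@Lb.g g10 (@Lb.g g11 (@Lb.r r643 (@Lb.r r1642 (@Lb.r r1121 (@Lb.r r24 (@Lb.d (nat_lit 40) (nat_lit 137) (nat_lit 17) (@Lb.fm (nat_lit 9) t145)))))))))))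
noncomputable def l28231 : Lb := (@Lb.d (nat_lit 130) (nat_lit 516) (nat_lit 64) (@Lb.g g8 (@Lb.g g9 (@Lb.g g10 (@Lb.g g11 (@Lb.r r292 (@Lb.r r651 (@Lb.r r1634 (@Lb.r r85 (@Lb.r r164 (@Lb.d (nat_lit 609) (nat_lit 1) (nat_lit 24) (@Lb.fm (nat_lit 9) t3626))))))))))))
noncomputable def l28232 : Lb := (@Lb.r r323 (@Lb.d (nat_lit 2) (nat_lit 2) (nat_lit 2) (@Lb.g g8 (@Lb.g g9 (@Lb.g g10 (@Lb.r r1682 (@Lb.r r1703 (@Lb.r r1320 (@Lb.r r25 (@Lb.d (nat_lit 104) (nat_lit 42) (nat_lit 146) (@Lb.t (@Lb.fp (nat_lit 9) t5226))))))))))))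
noncomputable def l28233 : Lb := (@Lb.r r82 (@Lb.d (nat_lit 132) (nat_lit 512) (nat_lit 384) (@Lb.g g8 (@Lb.g g9 (@Lb.g g11 (@Lb.r r610 (@Lb.r r529 (@Lb.r r292 (@Lb.d (nat_lit 72) (nat_lit 34) (nat_lit 640) (@Lb.t (@Lb.fm (nat_lit 9) t5227)))))))))))
noncomputable def l28234 : Lb := (@Lb.d (nat_lit 596) (nat_lit 662) (nat_lit 594) (@Lb.r r1556 (@Lb.r r2345 (@Lb.r r1623 (@Lb.g g6 (@Lb.g g5 (@Lb.g g4 (@Lb.d (nat_lit 66) (nat_lit 1) (nat_lit 33) (@Lb.r r387 (@Lb.t (@Lb.fp (nat_lit 9) t5228)))))))))))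
noncomputable def l28235 : Lb := (@Lb.r r323 (@Lb.d (nat_lit 2) (nat_lit 514) (nat_lit 2) (@Lb.g g8 (@Lb.g g9 (@Lb.g g10 (@Lb.r r1682 (@Lb.r r1703 (@Lb.r r1320 (@Lb.r r25 (@Lb.d (nat_lit 104) (nat_lit 32) (nat_lit 144) (@Lb.t (@Lb.fp (nat_lit 9) t5226))))))))))))
noncomputable def l28236 : Lb := (@Lb.r r82 (@Lb.d (nat_lit 0) (nat_lit 289) (nat_lit 64) (@Lb.g g8 (@Lb.g g9 (@Lb.g g11 (@Lb.r r1543 (@Lb.r r2152 (@Lb.r r2438 (@Lb.r r1361 (@Lb.d (nat_lit 5) (nat_lit 4) (nat_lit 345) (@Lb.t (@Lb.fp (nat_lit 9) t2301))))))))))))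
noncomputable def l28237 : Lb := (@Lb.r r82 (@Lb.d (nat_lit 32) (nat_lit 613) (nat_lit 64) (@Lb.g g8 (@Lb.g g5 (@Lb.g g11 (@Lb.r r599 (@Lb.r r582 (@Lb.r r408 (@Lb.d (nat_lit 553) (nat_lit 24) (nat_lit 546) (@Lb.t (@Lb.fp (nat_lit 9) t3278)))))))))))
noncomputable def l28238 : Lb := (@Lb.d (nat_lit 2) (nat_lit 2) (nat_lit 64) (@Lb.g g8 (@Lb.g g9 (@Lb.g g10 (@Lb.g g11 (@Lb.r r657 (@Lb.r r612 (@Lb.r r666 (@Lb.r r132 (@Lb.d (nat_lit 73) (nat_lit 2) (nat_lit 5) (@Lb.fm (nat_lit 9) t521)))))))))))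
noncomputable def l28239 : Lb := (@Lb.d (nat_lit 132) (nat_lit 534) (nat_lit 41) (@Lb.r r532 (@Lb.r r297 (@Lb.r r599 (@Lb.g g6 (@Lb.g g5 (@Lb.g g4 (@Lb.d (nat_lit 101) (nat_lit 4) (nat_lit 1) (@Lb.r r387 (@Lb.t (@Lb.fp (nat_lit 9) t3216)))))))))))
noncomputable def l28240 : Lb := (@Lb.d (nat_lit 4) (nat_lit 266) (nat_lit 161) (@Lb.g g8 (@Lb.g g9 (@Lb.g g6 (@Lb.g g11 (@Lb.r r281 (@Lb.r r1635 (@Lb.r r1553 (@Lb.d (nat_lit 609) (nat_lit 136) (nat_lit 297) (@Lb.fp (nat_lit 9) t919))))))))))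
noncomputable def l28241 : Lb := (@Lb.d (nat_lit 4) (nat_lit 10) (nat_lit 161) (@Lb.g g8 (@Lb.g g9 (@Lb.g g6 (@Lb.g g11 (@Lb.r r281 (@Lb.r r1635 (@Lb.r r1553 (@Lb.d (nat_lit 610) (nat_lit 136) (nat_lit 297) (@Lb.fp (nat_lit 9) t919))))))))))
noncomputable def l28242 : Lb := (@Lb.d (nat_lit 4) (nat_lit 546) (nat_lit 4) (@Lb.g g8 (@Lb.g g9 (@Lb.g g10 (@Lb.g g11 (@Lb.r r683 (@Lb.r r1642 (@Lb.r r1561 (@Lb.d (nat_lit 585) (nat_lit 98) (nat_lit 274) (@Lb.fm (nat_lit 9) t919))))))))))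
noncomputable def l28243 : Lb := (@Lb.d (nat_lit 662) (nat_lit 320) (nat_lit 656) (@Lb.r r2696 (@Lb.r r2731 (@Lb.r r2657 (@Lb.g g7 (@Lb.g g10 (@Lb.g g4 (@Lb.d (nat_lit 5) (nat_lit 0) (nat_lit 134) (@Lb.r r145 (@Lb.t (@Lb.fp (nat_lit 9) t69)))))))))))
noncomputable def l28244 : Lb := (@Lb.d (nat_lit 40) (nat_lit 0) (nat_lit 64) (@Lb.g g8 (@Lb.g g11 (@Lb.r r2213 (@Lb.r r1190 (@Lb.r r2648 (@Lb.r r2571 (@Lb.d (nat_lit 648) (nat_lit 150) (nat_lit 326) (@Lb.fm (nat_lit 3) t1079)))))))))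
noncomputable def l28245 : Lb := (@Lb.d (nat_lit 10) (nat_lit 2) (nat_lit 74) (@Lb.g g4 (@Lb.g g9 (@Lb.g g10 (@Lb.g g11 (@Lb.r r610 (@Lb.r r579 (@Lb.d (nat_lit 0) (nat_lit 33) (nat_lit 74) (@Lb.fp (nat_lit 9) t51)))))))))
noncomputable def l28246 : Lb := (@Lb.d (nat_lit 8) (nat_lit 34) (nat_lit 0) (@Lb.g g5 (@Lb.r r1443 (@Lb.r r1414 (@Lb.r r100 (@Lb.r r1301 (@Lb.d (nat_lit 649) (nat_lit 137) (nat_lit 106) (@Lb.t (@Lb.fp (nat_lit 3) t591)))))))))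
noncomputable def l28247 : Lb := (@Lb.r r70 (@Lb.d (nat_lit 2) (nat_lit 133) (nat_lit 0) (@Lb.g g8 (@Lb.g g5 (@Lb.r r1691 (@Lb.r r1610 (@Lb.r r612 (@Lb.d (nat_lit 2) (nat_lit 153) (nat_lit 537) (@Lb.fm (nat_lit 3) t98)))))))))
noncomputable def l28248 : Lb := (@Lb.d (nat_lit 388) (nat_lit 646) (nat_lit 257) (@Lb.r r2341 (@Lb.r r1624 (@Lb.r r2470 (@Lb.r r339 (@Lb.g g7 (@Lb.g g6 (@Lb.g g5 (@Lb.d (nat_lit 4) (nat_lit 1) (nat_lit 65) (@Lb.t (@Lb.fm (nat_lit 9) t1329)))))))))))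
noncomputable def l28249 : Lb := (@Lb.d (nat_lit 34) (nat_lit 512) (nat_lit 0) (@Lb.g g4 (@Lb.g g7 (@Lb.r r426 (@Lb.r r289 (@Lb.r r680 (@Lb.d (nat_lit 162) (nat_lit 162) (nat_lit 394) (@Lb.fp (nat_lit 3) t259))))))))
noncomputable def l28250 : Lb := (@Lb.g g7 (@Lb.r r2343 (@Lb.r r1561 (@Lb.r r1684 (@Lb.r r2150 (@Lb.d (nat_lit 5) (nat_lit 645) (nat_lit 100) (@Lb.t (@Lb.fm (nat_lit 3) t1040))))))))
noncomputable def l28251 : Lb := (@Lb.d (nat_lit 5) (nat_lit 70) (nat_lit 2) (@Lb.r r289 (@Lb.r r279 (@Lb.r r584 (@Lb.g g6 (@Lb.g g5 (@Lb.d (nat_lit 20) (nat_lit 8) (nat_lit 0) (@Lb.r r387 (@Lb.fm (nat_lit 3) t151)))))))))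
noncomputable def l28252 : Lb := (@Lb.r r21 (@Lb.d (nat_lit 136) (nat_lit 264) (nat_lit 130) (@Lb.g g8 (@Lb.g g10 (@Lb.g g11 (@Lb.r r1415 (@Lb.r r1573 (@Lb.r r600 (@Lb.r r2662 (@Lb.d (nat_lit 405) (nat_lit 10) (nat_lit 86) (@Lb.t (@Lb.fm (nat_lit 9) t3478))))))))))))
noncomputable def l28253 : Lb := (@Lb.d (nat_lit 2) (nat_lit 516) (nat_lit 64) (@Lb.g g8 (@Lb.g g9 (@Lb.g g10 (@Lb.g g7 (@Lb.r r386 (@Lb.r r97 (@Lb.d (nat_lit 9) (nat_lit 137) (nat_lit 9) (@Lb.fm (nat_lit 9) t2651)))))))))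
noncomputable def l28254 : Lb := (@Lb.g g4 (@Lb.g g9 (@Lb.fp (nat_lit 3) t2)))
noncomputable def l28255 : Lb := (@Lb.r r322 (@Lb.d (nat_lit 34) (nat_lit 289) (nat_lit 580) (@Lb.g g8 (@Lb.g g9 (@Lb.g g7 (@Lb.r r418 (@Lb.r r297 (@Lb.r r1384 (@Lb.d (nat_lit 405) (nat_lit 165) (nat_lit 292) (@Lb.t (@Lb.fm (nat_lit 9) t1159)))))))))))
noncomputable def l28256 : Lb := (@Lb.d (nat_lit 2) (nat_lit 521) (nat_lit 129) (@Lb.g g8 (@Lb.g g9 (@Lb.g g10 (@Lb.g g11 (@Lb.r r427 (@Lb.r r388 (@Lb.r r70 (@Lb.r r153 (@Lb.r r132 (@Lb.d (nat_lit 9) (nat_lit 73) (nat_lit 153) (@Lb.fp (nat_lit 9) t1640))))))))))))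
noncomputable def l28257 : Lb := (@Lb.r r323 (@Lb.d (nat_lit 129) (nat_lit 2) (nat_lit 2) (@Lb.g g8 (@Lb.g g9 (@Lb.g g10 (@Lb.r r2663 (@Lb.r r98 (@Lb.r r97 (@Lb.r r1384 (@Lb.d (nat_lit 673) (nat_lit 66) (nat_lit 642) (@Lb.t (@Lb.fp (nat_lit 9) t51))))))))))))
noncomputable def l28258 : Lb := (@Lb.r r21 (@Lb.d (nat_lit 32) (nat_lit 256) (nat_lit 72) (@Lb.g g8 (@Lb.g g10 (@Lb.g g11 (@Lb.r r2439 (@Lb.r r1608 (@Lb.r r2662 (@Lb.r r97 (@Lb.d (nat_lit 645) (nat_lit 162) (nat_lit 256) (@Lb.t (@Lb.fm (nat_lit 9) t50))))))))))))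
noncomputable def l28259 : Lb := (@Lb.r r24 (@Lb.r r101 (@Lb.d (nat_lit 0) (nat_lit 400) (nat_lit 264) (@Lb.fp (nat_lit 1) t1174))))
noncomputable def l28260 : Lb := (@Lb.r r21 (@Lb.d (nat_lit 2) (nat_lit 256) (nat_lit 130) (@Lb.g g8 (@Lb.g g10 (@Lb.g g11 (@Lb.r r2379 (@Lb.r r386 (@Lb.r r145 (@Lb.r r72 (@Lb.d (nat_lit 521) (nat_lit 2) (nat_lit 137) (@Lb.t (@Lb.fm (nat_lit 9) t61))))))))))))
noncomputable def l28261 : Lb := (@Lb.d (nat_lit 2) (nat_lit 516) (nat_lit 74) (@Lb.g g8 (@Lb.g g9 (@Lb.g g10 (@Lb.g g11 (@Lb.r r1699 (@Lb.r r1160 (@Lb.r r1610 (@Lb.r r37 (@Lb.d (nat_lit 610) (nat_lit 154) (nat_lit 356) (@Lb.fm (nat_lit 9) t3049)))))))))))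
noncomputable def l28262 : Lb := (@Lb.d (nat_lit 530) (nat_lit 342) (nat_lit 66) (@Lb.r r386 (@Lb.r r339 (@Lb.r r1557 (@Lb.g g7 (@Lb.g g6 (@Lb.g g5 (@Lb.g g4 (@Lb.d (nat_lit 1) (nat_lit 1) (nat_lit 129) (@Lb.fm (nat_lit 9) t795))))))))))
noncomputable def l28263 : Lb := (@Lb.d (nat_lit 0) (nat_lit 2) (nat_lit 2) (@Lb.g g8 (@Lb.g g9 (@Lb.g g10 (@Lb.g g7 (@Lb.r r386 (@Lb.r r25 (@Lb.r r24 (@Lb.d (nat_lit 609) (nat_lit 0) (nat_lit 537) (@Lb.fm (nat_lit 9) t698))))))))))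
noncomputable def l28264 : Lb := (@Lb.r r70 (@Lb.r r263 (@Lb.d (nat_lit 5) (nat_lit 18) (nat_lit 0) (@Lb.g g8 (@Lb.g g5 (@Lb.r r1303 (@Lb.r r2632 (@Lb.r r2182 (@Lb.d (nat_lit 2) (nat_lit 1) (nat_lit 537) (@Lb.fp (nat_lit 3) t5229))))))))))
noncomputable def l28265 : Lb := (@Lb.d (nat_lit 8) (nat_lit 258) (nat_lit 0) (@Lb.g g5 (@Lb.r r164 (@Lb.r r1110 (@Lb.r r2465 (@Lb.r r2579 (@Lb.d (nat_lit 2) (nat_lit 0) (nat_lit 18) (@Lb.t (@Lb.fm (nat_lit 3) t5189)))))))))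
noncomputable def l28266 : Lb := (@Lb.r r82 (@Lb.d (nat_lit 34) (nat_lit 258) (nat_lit 128) (@Lb.g g8 (@Lb.g g9 (@Lb.g g11 (@Lb.r r363 (@Lb.r r582 (@Lb.r r388 (@Lb.d (nat_lit 100) (nat_lit 9) (nat_lit 153) (@Lb.t (@Lb.fm (nat_lit 9) t1499)))))))))))
noncomputable def l28267 : Lb := (@Lb.r r2145 (@Lb.r r402 (@Lb.r r2436 (@Lb.d (nat_lit 0) (nat_lit 512) (nat_lit 85) (@Lb.fp (nat_lit 1) t590)))))
noncomputable def l28268 : Lb := (@Lb.d (nat_lit 8) (nat_lit 258) (nat_lit 2) (@Lb.g g8 (@Lb.g g9 (@Lb.g g10 (@Lb.r r1705 (@Lb.r r2475 (@Lb.r r386 (@Lb.r r2120 (@Lb.d (nat_lit 546) (nat_lit 136) (nat_lit 328) (@Lb.t (@Lb.fp (nat_lit 9) t5107)))))))))))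
noncomputable def l28269 : Lb := (@Lb.g g8 (@Lb.r r2315 (@Lb.r r2345 (@Lb.r r2468 (@Lb.r r134 (@Lb.d (nat_lit 0) (nat_lit 421) (nat_lit 613) (@Lb.t (@Lb.fp (nat_lit 3) t954))))))))
noncomputable def l28270 : Lb := (@Lb.d (nat_lit 9) (nat_lit 1) (nat_lit 73) (@Lb.g g8 (@Lb.g g9 (@Lb.g g10 (@Lb.g g11 (@Lb.r r619 (@Lb.r r1610 (@Lb.r r660 (@Lb.r r425 (@Lb.r r2084 (@Lb.d (nat_lit 165) (nat_lit 170) (nat_lit 89) (@Lb.fp (nat_lit 9) t5230))))))))))))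
noncomputable def l28271 : Lb := (@Lb.d (nat_lit 0) (nat_lit 288) (nat_lit 64) (@Lb.g g11 (@Lb.r r2337 (@Lb.r r531 (@Lb.r r2658 (@Lb.r r36 (@Lb.d (nat_lit 330) (nat_lit 161) (nat_lit 384) (@Lb.t (@Lb.fp (nat_lit 3) t303)))))))))
noncomputable def l28272 : Lb := (@Lb.d (nat_lit 644) (nat_lit 146) (nat_lit 384) (@Lb.r r289 (@Lb.r r279 (@Lb.r r584 (@Lb.r r166 (@Lb.g g7 (@Lb.g g6 (@Lb.g g5 (@Lb.d (nat_lit 0) (nat_lit 0) (nat_lit 129) (@Lb.t (@Lb.fm (nat_lit 9) t5231)))))))))))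
noncomputable def l28273 : Lb := (@Lb.r r289 (@Lb.r r2651 (@Lb.r r1414 (@Lb.r r2564 (@Lb.d (nat_lit 154) (nat_lit 144) (nat_lit 680) (@Lb.fm (nat_lit 1) t4164))))))
noncomputable def l28274 : Lb := (@Lb.d (nat_lit 144) (nat_lit 265) (nat_lit 129) (@Lb.g g9 (@Lb.g g6 (@Lb.g g11 (@Lb.r r264 (@Lb.r r1639 (@Lb.r r1553 (@Lb.d (nat_lit 25) (nat_lit 41) (nat_lit 128) (@Lb.t (@Lb.fp (nat_lit 9) t925))))))))))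
noncomputable def l28275 : Lb := (@Lb.d (nat_lit 282) (nat_lit 64) (nat_lit 6) (@Lb.r r2068 (@Lb.r r1129 (@Lb.r r104 (@Lb.r r386 (@Lb.g g11 (@Lb.g g6 (@Lb.g g5 (@Lb.g g4 (@Lb.d (nat_lit 1) (nat_lit 0) (nat_lit 129) (@Lb.fp (nat_lit 9) t51)))))))))))
noncomputable def l28276 : Lb := (@Lb.d (nat_lit 280) (nat_lit 576) (nat_lit 6) (@Lb.r r2068 (@Lb.r r1129 (@Lb.r r104 (@Lb.r r386 (@Lb.g g11 (@Lb.g g6 (@Lb.g g5 (@Lb.g g4 (@Lb.d (nat_lit 1) (nat_lit 0) (nat_lit 129) (@Lb.fp (nat_lit 9) t51)))))))))))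
noncomputable def l28277 : Lb := (@Lb.r r323 (@Lb.d (nat_lit 9) (nat_lit 33) (nat_lit 0) (@Lb.g g8 (@Lb.g g9 (@Lb.g g10 (@Lb.r r1419 (@Lb.r r1448 (@Lb.r r425 (@Lb.r r98 (@Lb.d (nat_lit 404) (nat_lit 73) (nat_lit 137) (@Lb.t (@Lb.fm (nat_lit 9) t51))))))))))))
noncomputable def l28278 : Lb := (@Lb.r r82 (@Lb.d (nat_lit 2) (nat_lit 2) (nat_lit 8) (@Lb.g g8 (@Lb.g g9 (@Lb.g g11 (@Lb.r r2665 (@Lb.r r2198 (@Lb.r r1380 (@Lb.r r395 (@Lb.d (nat_lit 385) (nat_lit 162) (nat_lit 361) (@Lb.t (@Lb.fm (nat_lit 9) t2095))))))))))))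
noncomputable def l28279 : Lb := (@Lb.d (nat_lit 282) (nat_lit 0) (nat_lit 0) (@Lb.g g8 (@Lb.r r1291 (@Lb.r r101 (@Lb.r r1434 (@Lb.d (nat_lit 354) (nat_lit 100) (nat_lit 325) (@Lb.t (@Lb.fp (nat_lit 3) t5232))))))))
noncomputable def l28280 : Lb := (@Lb.r r323 (@Lb.d (nat_lit 16) (nat_lit 297) (nat_lit 2) (@Lb.g g9 (@Lb.g g10 (@Lb.r r2468 (@Lb.r r1627 (@Lb.r r2449 (@Lb.d (nat_lit 96) (nat_lit 154) (nat_lit 136) (@Lb.fp (nat_lit 3) t329)))))))))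
noncomputable def l28281 : Lb := (@Lb.d (nat_lit 144) (nat_lit 9) (nat_lit 129) (@Lb.g g9 (@Lb.g g6 (@Lb.g g11 (@Lb.r r264 (@Lb.r r1639 (@Lb.r r1553 (@Lb.d (nat_lit 26) (nat_lit 41) (nat_lit 128) (@Lb.t (@Lb.fp (nat_lit 9) t925))))))))))
noncomputable def l28282 : Lb := (@Lb.d (nat_lit 138) (nat_lit 602) (nat_lit 514) (@Lb.r r553 (@Lb.r r427 (@Lb.r r406 (@Lb.g g7 (@Lb.g g5 (@Lb.g g4 (@Lb.d (nat_lit 1) (nat_lit 5) (nat_lit 128) (@Lb.t (@Lb.fp (nat_lit 9) t41))))))))))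
noncomputable def l28283 : Lb := (@Lb.d (nat_lit 9) (nat_lit 258) (nat_lit 130) (@Lb.g g8 (@Lb.g g9 (@Lb.g g10 (@Lb.g g11 (@Lb.r r2731 (@Lb.r r2601 (@Lb.r r648 (@Lb.r r1178 (@Lb.r r1156 (@Lb.d (nat_lit 9) (nat_lit 25) (nat_lit 297) (@Lb.fp (nat_lit 9) t591))))))))))))
noncomputable def l28284 : Lb := (@Lb.d (nat_lit 2) (nat_lit 265) (nat_lit 72) (@Lb.g g8 (@Lb.g g9 (@Lb.g g10 (@Lb.g g11 (@Lb.r r1706 (@Lb.r r680 (@Lb.r r555 (@Lb.r r1573 (@Lb.r r1044 (@Lb.d (nat_lit 649) (nat_lit 128) (nat_lit 330) (@Lb.fp (nat_lit 9) t68))))))))))))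
noncomputable def l28285 : Lb := (@Lb.r r322 (@Lb.d (nat_lit 34) (nat_lit 258) (nat_lit 576) (@Lb.g g8 (@Lb.g g9 (@Lb.g g7 (@Lb.r r361 (@Lb.r r150 (@Lb.r r1364 (@Lb.d (nat_lit 342) (nat_lit 38) (nat_lit 593) (@Lb.t (@Lb.fp (nat_lit 9) t259)))))))))))
noncomputable def l28286 : Lb := (@Lb.d (nat_lit 384) (nat_lit 2) (nat_lit 256) (@Lb.r r24 (@Lb.r r2138 (@Lb.g g9 (@Lb.d (nat_lit 8) (nat_lit 2) (nat_lit 0) (@Lb.t (@Lb.fm (nat_lit 3) t225)))))))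
noncomputable def l28287 : Lb := (@Lb.r r323 (@Lb.d (nat_lit 16) (nat_lit 520) (nat_lit 33) (@Lb.g g6 (@Lb.r r2705 (@Lb.r r2587 (@Lb.r r24 (@Lb.d (nat_lit 130) (nat_lit 69) (nat_lit 9) (@Lb.t (@Lb.fm (nat_lit 3) t1429)))))))))
noncomputable def l28288 : Lb := (@Lb.d (nat_lit 2) (nat_lit 2) (nat_lit 73) (@Lb.g g8 (@Lb.g g9 (@Lb.g g10 (@Lb.g g11 (@Lb.r r391 (@Lb.r r2146 (@Lb.r r2585 (@Lb.r r2564 (@Lb.d (nat_lit 674) (nat_lit 134) (nat_lit 401) (@Lb.fp (nat_lit 9) t715)))))))))))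
noncomputable def l28289 : Lb := (@Lb.d (nat_lit 36) (nat_lit 530) (nat_lit 422) (@Lb.r r532 (@Lb.r r2134 (@Lb.r r519 (@Lb.g g6 (@Lb.g g5 (@Lb.g g4 (@Lb.d (nat_lit 66) (nat_lit 33) (nat_lit 1) (@Lb.t (@Lb.fm (nat_lit 9) t744))))))))))
noncomputable def l28290 : Lb := (@Lb.g g10 (@Lb.g g7 (@Lb.r r402 (@Lb.r r101 (@Lb.r r24 (@Lb.d (nat_lit 258) (nat_lit 0) (nat_lit 576) (@Lb.fm (nat_lit 3) t145)))))))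
noncomputable def l28291 : Lb := (@Lb.d (nat_lit 102) (nat_lit 390) (nat_lit 641) (@Lb.r r289 (@Lb.r r362 (@Lb.r r72 (@Lb.g g11 (@Lb.g g6 (@Lb.g g5 (@Lb.d (nat_lit 16) (nat_lit 0) (nat_lit 1) (@Lb.t (@Lb.fm (nat_lit 9) t1976))))))))))
noncomputable def l28292 : Lb := (@Lb.d (nat_lit 69) (nat_lit 386) (nat_lit 512) (@Lb.r r537 (@Lb.r r660 (@Lb.r r342 (@Lb.g g11 (@Lb.g g9 (@Lb.d (nat_lit 0) (nat_lit 5) (nat_lit 0) (@Lb.fm (nat_lit 3) t1976))))))))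
noncomputable def l28293 : Lb := (@Lb.d (nat_lit 402) (nat_lit 9) (nat_lit 677) (@Lb.r r2642 (@Lb.r r661 (@Lb.r r2627 (@Lb.g g7 (@Lb.g g6 (@Lb.g g5 (@Lb.g g4 (@Lb.d (nat_lit 1) (nat_lit 6) (nat_lit 65) (@Lb.fm (nat_lit 9) t3050))))))))))
noncomputable def l28294 : Lb := (@Lb.d (nat_lit 32) (nat_lit 512) (nat_lit 66) (@Lb.g g9 (@Lb.g g10 (@Lb.g g11 (@Lb.r r1307 (@Lb.r r2713 (@Lb.r r100 (@Lb.r r410 (@Lb.d (nat_lit 138) (nat_lit 25) (nat_lit 153) (@Lb.t (@Lb.fp (nat_lit 9) t284)))))))))))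
noncomputable def l28295 : Lb := (@Lb.d (nat_lit 40) (nat_lit 553) (nat_lit 65) (@Lb.g g9 (@Lb.g g10 (@Lb.g g11 (@Lb.r r680 (@Lb.r r363 (@Lb.r r1618 (@Lb.r r2713 (@Lb.d (nat_lit 36) (nat_lit 137) (nat_lit 344) (@Lb.t (@Lb.fp (nat_lit 9) t378)))))))))))
noncomputable def l28296 : Lb := (@Lb.d (nat_lit 32) (nat_lit 0) (nat_lit 66) (@Lb.g g9 (@Lb.g g10 (@Lb.g g11 (@Lb.r r1411 (@Lb.r r2713 (@Lb.r r100 (@Lb.r r410 (@Lb.d (nat_lit 676) (nat_lit 149) (nat_lit 168) (@Lb.t (@Lb.fp (nat_lit 9) t2366)))))))))))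
noncomputable def l28297 : Lb := (@Lb.r r82 (@Lb.d (nat_lit 2) (nat_lit 2) (nat_lit 136) (@Lb.g g8 (@Lb.g g9 (@Lb.g g11 (@Lb.r r2665 (@Lb.r r2198 (@Lb.r r1380 (@Lb.r r395 (@Lb.d (nat_lit 386) (nat_lit 162) (nat_lit 361) (@Lb.t (@Lb.fm (nat_lit 9) t2095))))))))))))
noncomputable def l28298 : Lb := (@Lb.d (nat_lit 0) (nat_lit 265) (nat_lit 130) (@Lb.g g9 (@Lb.g g10 (@Lb.g g11 (@Lb.r r1671 (@Lb.r r2376 (@Lb.r r1158 (@Lb.r r97 (@Lb.d (nat_lit 289) (nat_lit 74) (nat_lit 152) (@Lb.t (@Lb.fm (nat_lit 9) t892)))))))))))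
noncomputable def l28299 : Lb := (@Lb.r r323 (@Lb.d (nat_lit 9) (nat_lit 545) (nat_lit 10) (@Lb.g g8 (@Lb.g g9 (@Lb.g g10 (@Lb.r r2631 (@Lb.r r1428 (@Lb.r r601 (@Lb.r r674 (@Lb.d (nat_lit 402) (nat_lit 84) (nat_lit 8) (@Lb.t (@Lb.fm (nat_lit 9) t51))))))))))))
noncomputable def l28300 : Lb := (@Lb.r r323 (@Lb.d (nat_lit 9) (nat_lit 289) (nat_lit 10) (@Lb.g g8 (@Lb.g g9 (@Lb.g g10 (@Lb.r r2631 (@Lb.r r1428 (@Lb.r r601 (@Lb.r r674 (@Lb.d (nat_lit 404) (nat_lit 85) (nat_lit 8) (@Lb.t (@Lb.fm (nat_lit 9) t51))))))))))))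
noncomputable def l28301 : Lb := (@Lb.d (nat_lit 280) (nat_lit 265) (nat_lit 73) (@Lb.g g4 (@Lb.g g9 (@Lb.g g10 (@Lb.g g11 (@Lb.r r1667 (@Lb.r r145 (@Lb.r r602 (@Lb.r r1169 (@Lb.d (nat_lit 293) (nat_lit 97) (nat_lit 346) (@Lb.fp (nat_lit 9) t68)))))))))))
noncomputable def l28302 : Lb := (@Lb.d (nat_lit 9) (nat_lit 1) (nat_lit 0) (@Lb.g g8 (@Lb.g g9 (@Lb.r r40 (@Lb.r r2089 (@Lb.r r2084 (@Lb.d (nat_lit 257) (nat_lit 66) (nat_lit 0) (@Lb.fm (nat_lit 3) t2))))))))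
noncomputable def l28303 : Lb := (@Lb.d (nat_lit 152) (nat_lit 256) (nat_lit 386) (@Lb.g g8 (@Lb.g g10 (@Lb.g g11 (@Lb.r r1109 (@Lb.r r1634 (@Lb.r r388 (@Lb.d (nat_lit 98) (nat_lit 89) (nat_lit 330) (@Lb.t (@Lb.fm (nat_lit 9) t399))))))))))
noncomputable def l28304 : Lb := (@Lb.d (nat_lit 144) (nat_lit 2) (nat_lit 64) (@Lb.g g8 (@Lb.g g9 (@Lb.g g10 (@Lb.g g11 (@Lb.r r427 (@Lb.r r1177 (@Lb.r r1176 (@Lb.r r602 (@Lb.d (nat_lit 105) (nat_lit 80) (nat_lit 601) (@Lb.fm (nat_lit 9) t1446)))))))))))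
noncomputable def l28305 : Lb := (@Lb.d (nat_lit 136) (nat_lit 0) (nat_lit 384) (@Lb.g g8 (@Lb.g g11 (@Lb.r r2662 (@Lb.r r613 (@Lb.r r2452 (@Lb.d (nat_lit 614) (nat_lit 0) (nat_lit 544) (@Lb.fp (nat_lit 3) t1659))))))))
noncomputable def l28306 : Lb := (@Lb.d (nat_lit 0) (nat_lit 666) (nat_lit 649) (@Lb.r r20 (@Lb.r r2145 (@Lb.r r323 (@Lb.g g10 (@Lb.d (nat_lit 0) (nat_lit 8) (nat_lit 21) (@Lb.r r387 (@Lb.t (@Lb.fm (nat_lit 3) t3686)))))))))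
noncomputable def l28307 : Lb := (@Lb.r r20 (@Lb.r r82 (@Lb.d (nat_lit 4) (nat_lit 672) (nat_lit 72) (@Lb.g g5 (@Lb.g g11 (@Lb.r r1624 (@Lb.r r2438 (@Lb.r r1611 (@Lb.d (nat_lit 608) (nat_lit 1) (nat_lit 514) (@Lb.fm (nat_lit 3) t981))))))))))
noncomputable def l28308 : Lb := (@Lb.d (nat_lit 2) (nat_lit 514) (nat_lit 66) (@Lb.g g8 (@Lb.g g9 (@Lb.g g10 (@Lb.g g11 (@Lb.r r148 (@Lb.r r102 (@Lb.r r357 (@Lb.r r667 (@Lb.r r644 (@Lb.d (nat_lit 538) (nat_lit 2) (nat_lit 88) (@Lb.fp (nat_lit 9) t1607))))))))))))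
noncomputable def l28309 : Lb := (@Lb.d (nat_lit 2) (nat_lit 258) (nat_lit 130) (@Lb.g g8 (@Lb.g g9 (@Lb.g g10 (@Lb.g g11 (@Lb.r r2729 (@Lb.r r2475 (@Lb.r r2468 (@Lb.r r2438 (@Lb.d (nat_lit 614) (nat_lit 8) (nat_lit 674) (@Lb.fp (nat_lit 9) t1614)))))))))))
noncomputable def l28310 : Lb := (@Lb.d (nat_lit 9) (nat_lit 2) (nat_lit 130) (@Lb.g g8 (@Lb.g g9 (@Lb.g g10 (@Lb.g g11 (@Lb.r r1705 (@Lb.r r2475 (@Lb.r r2468 (@Lb.r r2438 (@Lb.d (nat_lit 609) (nat_lit 10) (nat_lit 105) (@Lb.fp (nat_lit 9) t590)))))))))))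
noncomputable def l28311 : Lb := (@Lb.d (nat_lit 9) (nat_lit 384) (nat_lit 128) (@Lb.r r289 (@Lb.r r535 (@Lb.r r328 (@Lb.r r134 (@Lb.g g11 (@Lb.t (@Lb.fp (nat_lit 3) t40))))))))
noncomputable def l28312 : Lb := (@Lb.d (nat_lit 9) (nat_lit 640) (nat_lit 0) (@Lb.r r289 (@Lb.r r535 (@Lb.r r328 (@Lb.r r134 (@Lb.g g11 (@Lb.g g5 (@Lb.fp (nat_lit 3) t40))))))))
noncomputable def l28313 : Lb := (@Lb.d (nat_lit 9) (nat_lit 265) (nat_lit 129) (@Lb.g g8 (@Lb.g g9 (@Lb.g g10 (@Lb.g g11 (@Lb.r r1705 (@Lb.r r2475 (@Lb.r r2468 (@Lb.r r2438 (@Lb.d (nat_lit 609) (nat_lit 10) (nat_lit 105) (@Lb.fp (nat_lit 9) t150)))))))))))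
noncomputable def l28314 : Lb := (@Lb.d (nat_lit 9) (nat_lit 258) (nat_lit 130) (@Lb.g g8 (@Lb.g g9 (@Lb.g g10 (@Lb.g g11 (@Lb.r r1705 (@Lb.r r2475 (@Lb.r r2468 (@Lb.r r2438 (@Lb.d (nat_lit 610) (nat_lit 10) (nat_lit 162) (@Lb.fp (nat_lit 9) t590)))))))))))
noncomputable def l28315 : Lb := (@Lb.d (nat_lit 9) (nat_lit 258) (nat_lit 130) (@Lb.g g8 (@Lb.g g9 (@Lb.g g10 (@Lb.g g11 (@Lb.r r1705 (@Lb.r r2475 (@Lb.r r2468 (@Lb.r r2438 (@Lb.d (nat_lit 614) (nat_lit 8) (nat_lit 162) (@Lb.fp (nat_lit 9) t1614)))))))))))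
noncomputable def l28316 : Lb := (@Lb.d (nat_lit 144) (nat_lit 81) (nat_lit 513) (@Lb.r r289 (@Lb.r r70 (@Lb.r r420 (@Lb.g g11 (@Lb.g g6 (@Lb.d (nat_lit 16) (nat_lit 0) (nat_lit 129) (@Lb.fm (nat_lit 3) t1436))))))))
noncomputable def l28317 : Lb := (@Lb.d (nat_lit 0) (nat_lit 2) (nat_lit 66) (@Lb.g g9 (@Lb.g g10 (@Lb.g g7 (@Lb.r r386 (@Lb.r r97 (@Lb.r r8 (@Lb.d (nat_lit 329) (nat_lit 10) (nat_lit 585) (@Lb.t (@Lb.fm (nat_lit 9) t1670))))))))))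
noncomputable def l28318 : Lb := (@Lb.d (nat_lit 37) (nat_lit 68) (nat_lit 33) (@Lb.r r1362 (@Lb.r r2443 (@Lb.r r264 (@Lb.g g7 (@Lb.g g6 (@Lb.g g9 (@Lb.d (nat_lit 64) (nat_lit 70) (nat_lit 65) (@Lb.t (@Lb.fp (nat_lit 9) t3481))))))))))
noncomputable def l28319 : Lb := (@Lb.d (nat_lit 37) (nat_lit 517) (nat_lit 32) (@Lb.r r609 (@Lb.r r299 (@Lb.r r264 (@Lb.g g7 (@Lb.g g10 (@Lb.g g5 (@Lb.d (nat_lit 96) (nat_lit 0) (nat_lit 65) (@Lb.t (@Lb.fm (nat_lit 9) t42))))))))))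
noncomputable def l28320 : Lb := (@Lb.d (nat_lit 37) (nat_lit 517) (nat_lit 32) (@Lb.r r609 (@Lb.r r299 (@Lb.r r264 (@Lb.g g7 (@Lb.g g10 (@Lb.d (nat_lit 96) (nat_lit 0) (nat_lit 65) (@Lb.fp (nat_lit 3) t42))))))))
noncomputable def l28321 : Lb := (@Lb.d (nat_lit 168) (nat_lit 0) (nat_lit 66) (@Lb.g g9 (@Lb.g g10 (@Lb.g g11 (@Lb.r r72 (@Lb.r r86 (@Lb.r r421 (@Lb.r r411 (@Lb.d (nat_lit 538) (nat_lit 26) (nat_lit 25) (@Lb.t (@Lb.fm (nat_lit 9) t1607)))))))))))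
noncomputable def l28322 : Lb := (@Lb.d (nat_lit 645) (nat_lit 262) (nat_lit 262) (@Lb.r r24 (@Lb.r r97 (@Lb.r r386 (@Lb.g g11 (@Lb.g g6 (@Lb.g g5 (@Lb.d (nat_lit 0) (nat_lit 1) (nat_lit 129) (@Lb.t (@Lb.fp (nat_lit 9) t1884))))))))))
noncomputable def l28323 : Lb := (@Lb.r r21 (@Lb.r r70 (@Lb.d (nat_lit 389) (nat_lit 512) (nat_lit 128) (@Lb.g g8 (@Lb.g g11 (@Lb.r r1419 (@Lb.r r402 (@Lb.r r97 (@Lb.d (nat_lit 586) (nat_lit 0) (nat_lit 528) (@Lb.fm (nat_lit 3) t1383))))))))))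
noncomputable def l28324 : Lb := (@Lb.d (nat_lit 641) (nat_lit 514) (nat_lit 66) (@Lb.g g8 (@Lb.g g9 (@Lb.g g10 (@Lb.g g11 (@Lb.r r1451 (@Lb.r r106 (@Lb.r r25 (@Lb.d (nat_lit 2) (nat_lit 73) (nat_lit 425) (@Lb.fp (nat_lit 9) t898))))))))))
noncomputable def l28325 : Lb := (@Lb.r r323 (@Lb.d (nat_lit 33) (nat_lit 258) (nat_lit 1) (@Lb.g g8 (@Lb.g g9 (@Lb.g g10 (@Lb.r r1705 (@Lb.r r2596 (@Lb.r r1383 (@Lb.r r2634 (@Lb.d (nat_lit 128) (nat_lit 0) (nat_lit 166) (@Lb.t (@Lb.fp (nat_lit 9) t217))))))))))))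
noncomputable def l28326 : Lb := (@Lb.d (nat_lit 0) (nat_lit 0) (nat_lit 73) (@Lb.g g4 (@Lb.g g10 (@Lb.g g11 (@Lb.r r2691 (@Lb.r r1158 (@Lb.d (nat_lit 129) (nat_lit 0) (nat_lit 424) (@Lb.t (@Lb.fp (nat_lit 9) t282)))))))))
noncomputable def l28327 : Lb := (@Lb.g g7 (@Lb.r r2343 (@Lb.r r1561 (@Lb.r r1684 (@Lb.r r2150 (@Lb.d (nat_lit 5) (nat_lit 128) (nat_lit 102) (@Lb.t (@Lb.fm (nat_lit 3) t1040))))))))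
noncomputable def l28328 : Lb := (@Lb.d (nat_lit 4) (nat_lit 522) (nat_lit 1) (@Lb.g g8 (@Lb.g g9 (@Lb.g g10 (@Lb.r r683 (@Lb.r r2666 (@Lb.r r2585 (@Lb.d (nat_lit 330) (nat_lit 169) (nat_lit 161) (@Lb.t (@Lb.fp (nat_lit 9) t1399))))))))))
noncomputable def l28329 : Lb := (@Lb.d (nat_lit 402) (nat_lit 256) (nat_lit 6) (@Lb.r r1633 (@Lb.r r2390 (@Lb.r r2731 (@Lb.g g5 (@Lb.g g4 (@Lb.d (nat_lit 545) (nat_lit 1) (nat_lit 0) (@Lb.r r98 (@Lb.fm (nat_lit 3) t40)))))))))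
noncomputable def l28330 : Lb := (@Lb.r r323 (@Lb.d (nat_lit 129) (nat_lit 2) (nat_lit 2) (@Lb.g g8 (@Lb.g g9 (@Lb.g g10 (@Lb.r r2663 (@Lb.r r98 (@Lb.r r97 (@Lb.r r1384 (@Lb.d (nat_lit 673) (nat_lit 129) (nat_lit 642) (@Lb.t (@Lb.fp (nat_lit 9) t51))))))))))))
noncomputable def l28331 : Lb := (@Lb.r r21 (@Lb.r r323 (@Lb.d (nat_lit 0) (nat_lit 512) (nat_lit 1) (@Lb.g g4 (@Lb.g g6 (@Lb.r r387 (@Lb.r r153 (@Lb.r r132 (@Lb.fm (nat_lit 3) t40)))))))))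
noncomputable def l28332 : Lb := (@Lb.d (nat_lit 2) (nat_lit 513) (nat_lit 74) (@Lb.g g8 (@Lb.g g9 (@Lb.g g10 (@Lb.g g11 (@Lb.r r1671 (@Lb.r r1681 (@Lb.r r2404 (@Lb.r r1178 (@Lb.d (nat_lit 386) (nat_lit 70) (nat_lit 68) (@Lb.fp (nat_lit 9) t626)))))))))))
noncomputable def l28333 : Lb := (@Lb.r r21 (@Lb.d (nat_lit 25) (nat_lit 256) (nat_lit 64) (@Lb.g g8 (@Lb.g g10 (@Lb.g g11 (@Lb.r r2385 (@Lb.r r1447 (@Lb.r r358 (@Lb.r r536 (@Lb.d (nat_lit 169) (nat_lit 34) (nat_lit 673) (@Lb.t (@Lb.fp (nat_lit 9) t148))))))))))))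
noncomputable def l28334 : Lb := (@Lb.d (nat_lit 166) (nat_lit 529) (nat_lit 101) (@Lb.r r596 (@Lb.r r535 (@Lb.r r353 (@Lb.g g7 (@Lb.g g6 (@Lb.g g4 (@Lb.d (nat_lit 5) (nat_lit 16) (nat_lit 5) (@Lb.r r145 (@Lb.t (@Lb.fp (nat_lit 9) t98)))))))))))
noncomputable def l28335 : Lb := (@Lb.r r323 (@Lb.d (nat_lit 32) (nat_lit 260) (nat_lit 0) (@Lb.g g9 (@Lb.g g10 (@Lb.r r584 (@Lb.r r1323 (@Lb.r r1313 (@Lb.d (nat_lit 10) (nat_lit 66) (nat_lit 258) (@Lb.fm (nat_lit 3) t501)))))))))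
noncomputable def l28336 : Lb := (@Lb.r r21 (@Lb.d (nat_lit 18) (nat_lit 256) (nat_lit 128) (@Lb.g g8 (@Lb.g g10 (@Lb.g g11 (@Lb.r r2695 (@Lb.r r2634 (@Lb.r r2585 (@Lb.r r2564 (@Lb.d (nat_lit 512) (nat_lit 0) (nat_lit 425) (@Lb.t (@Lb.fp (nat_lit 9) t830))))))))))))
noncomputable def l28337 : Lb := (@Lb.d (nat_lit 166) (nat_lit 273) (nat_lit 101) (@Lb.r r596 (@Lb.r r535 (@Lb.r r353 (@Lb.g g7 (@Lb.g g6 (@Lb.g g4 (@Lb.d (nat_lit 6) (nat_lit 16) (nat_lit 5) (@Lb.r r145 (@Lb.t (@Lb.fp (nat_lit 9) t98)))))))))))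
noncomputable def l28338 : Lb := (@Lb.r r323 (@Lb.d (nat_lit 1) (nat_lit 258) (nat_lit 1) (@Lb.g g8 (@Lb.g g9 (@Lb.g g6 (@Lb.r r387 (@Lb.r r97 (@Lb.r r24 (@Lb.d (nat_lit 10) (nat_lit 9) (nat_lit 2) (@Lb.t (@Lb.fp (nat_lit 9) t40)))))))))))
noncomputable def l28339 : Lb := (@Lb.d (nat_lit 8) (nat_lit 518) (nat_lit 64) (@Lb.g g9 (@Lb.g g10 (@Lb.g g11 (@Lb.r r1672 (@Lb.r r683 (@Lb.r r2666 (@Lb.r r2585 (@Lb.d (nat_lit 330) (nat_lit 137) (nat_lit 161) (@Lb.t (@Lb.fm (nat_lit 9) t148)))))))))))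
noncomputable def l28340 : Lb := (@Lb.d (nat_lit 0) (nat_lit 9) (nat_lit 65) (@Lb.g g8 (@Lb.g g9 (@Lb.g g10 (@Lb.g g7 (@Lb.r r2466 (@Lb.r r292 (@Lb.r r405 (@Lb.r r2084 (@Lb.d (nat_lit 609) (nat_lit 90) (nat_lit 281) (@Lb.fp (nat_lit 9) t2655)))))))))))
noncomputable def l28341 : Lb := (@Lb.r r273 (@Lb.r r322 (@Lb.d (nat_lit 0) (nat_lit 0) (nat_lit 320) (@Lb.g g8 (@Lb.g g7 (@Lb.r r280 (@Lb.r r101 (@Lb.r r146 (@Lb.d (nat_lit 10) (nat_lit 128) (nat_lit 514) (@Lb.fm (nat_lit 3) t541))))))))))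
noncomputable def l28342 : Lb := (@Lb.d (nat_lit 32) (nat_lit 9) (nat_lit 2) (@Lb.g g9 (@Lb.g g10 (@Lb.r r1555 (@Lb.r r293 (@Lb.r r328 (@Lb.r r662 (@Lb.d (nat_lit 644) (nat_lit 32) (nat_lit 80) (@Lb.fm (nat_lit 3) t2399)))))))))
noncomputable def l28343 : Lb := (@Lb.d (nat_lit 602) (nat_lit 165) (nat_lit 152) (@Lb.r r1621 (@Lb.r r2344 (@Lb.r r1346 (@Lb.r r2691 (@Lb.g g7 (@Lb.g g6 (@Lb.g g5 (@Lb.d (nat_lit 0) (nat_lit 33) (nat_lit 133) (@Lb.t (@Lb.fp (nat_lit 9) t2123)))))))))))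
noncomputable def l28344 : Lb := (@Lb.d (nat_lit 149) (nat_lit 576) (nat_lit 128) (@Lb.g g8 (@Lb.g g9 (@Lb.g g10 (@Lb.g g11 (@Lb.r r387 (@Lb.r r1130 (@Lb.r r1060 (@Lb.d (nat_lit 88) (nat_lit 129) (nat_lit 9) (@Lb.fp (nat_lit 9) t3197))))))))))
noncomputable def l28345 : Lb := (@Lb.r r21 (@Lb.d (nat_lit 656) (nat_lit 512) (nat_lit 128) (@Lb.g g8 (@Lb.g g10 (@Lb.g g11 (@Lb.r r387 (@Lb.r r74 (@Lb.r r25 (@Lb.d (nat_lit 342) (nat_lit 64) (nat_lit 9) (@Lb.t (@Lb.fm (nat_lit 9) t3937)))))))))))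
noncomputable def l28346 : Lb := (@Lb.r r21 (@Lb.d (nat_lit 656) (nat_lit 256) (nat_lit 128) (@Lb.g g8 (@Lb.g g10 (@Lb.g g11 (@Lb.r r387 (@Lb.r r74 (@Lb.r r25 (@Lb.d (nat_lit 340) (nat_lit 64) (nat_lit 9) (@Lb.t (@Lb.fm (nat_lit 9) t2015)))))))))))
noncomputable def l28347 : Lb := (@Lb.d (nat_lit 6) (nat_lit 256) (nat_lit 0) (@Lb.g g4 (@Lb.d (nat_lit 4) (nat_lit 65) (nat_lit 0) (@Lb.t (@Lb.fm (nat_lit 3) t2)))))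
noncomputable def l28348 : Lb := (@Lb.d (nat_lit 6) (nat_lit 550) (nat_lit 64) (@Lb.r r2657 (@Lb.g g7 (@Lb.g g10 (@Lb.g g5 (@Lb.g g4 (@Lb.d (nat_lit 1) (nat_lit 1) (nat_lit 164) (@Lb.fp (nat_lit 9) t51))))))))
noncomputable def l28349 : Lb := (@Lb.r r323 (@Lb.d (nat_lit 16) (nat_lit 512) (nat_lit 34) (@Lb.g g9 (@Lb.g g6 (@Lb.r r584 (@Lb.r r619 (@Lb.r r609 (@Lb.d (nat_lit 0) (nat_lit 1) (nat_lit 17) (@Lb.fm (nat_lit 3) t334)))))))))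
noncomputable def l28350 : Lb := (@Lb.r r323 (@Lb.d (nat_lit 6) (nat_lit 64) (nat_lit 2) (@Lb.g g4 (@Lb.g g9 (@Lb.g g10 (@Lb.r r354 (@Lb.r r387 (@Lb.d (nat_lit 1) (nat_lit 144) (nat_lit 266) (@Lb.t (@Lb.fp (nat_lit 9) t51))))))))))
noncomputable def l28351 : Lb := (@Lb.d (nat_lit 102) (nat_lit 106) (nat_lit 132) (@Lb.r r20 (@Lb.r r25 (@Lb.r r90 (@Lb.r r596 (@Lb.g g11 (@Lb.g g6 (@Lb.g g5 (@Lb.g g4 (@Lb.d (nat_lit 1) (nat_lit 1) (nat_lit 129) (@Lb.fm (nat_lit 9) t31)))))))))))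
noncomputable def l28352 : Lb := (@Lb.d (nat_lit 6) (nat_lit 320) (nat_lit 73) (@Lb.g g4 (@Lb.g g9 (@Lb.g g10 (@Lb.g g11 (@Lb.r r2658 (@Lb.r r579 (@Lb.d (nat_lit 1) (nat_lit 97) (nat_lit 586) (@Lb.fp (nat_lit 9) t51)))))))))
noncomputable def l28353 : Lb := (@Lb.d (nat_lit 2) (nat_lit 0) (nat_lit 64) (@Lb.g g8 (@Lb.g g11 (@Lb.r r1543 (@Lb.r r2345 (@Lb.r r2468 (@Lb.r r2150 (@Lb.d (nat_lit 5) (nat_lit 152) (nat_lit 422) (@Lb.fm (nat_lit 3) t1040)))))))))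
noncomputable def l28354 : Lb := (@Lb.r r580 (@Lb.r r593 (@Lb.d (nat_lit 128) (nat_lit 256) (nat_lit 25) (@Lb.g g6 (@Lb.g g11 (@Lb.r r1428 (@Lb.r r2699 (@Lb.r r33 (@Lb.d (nat_lit 346) (nat_lit 134) (nat_lit 281) (@Lb.fp (nat_lit 3) t74))))))))))
noncomputable def l28355 : Lb := (@Lb.r r580 (@Lb.r r593 (@Lb.d (nat_lit 128) (nat_lit 0) (nat_lit 25) (@Lb.g g6 (@Lb.g g11 (@Lb.r r1428 (@Lb.r r2699 (@Lb.r r33 (@Lb.d (nat_lit 336) (nat_lit 132) (nat_lit 281) (@Lb.fp (nat_lit 3) t74))))))))))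
noncomputable def l28356 : Lb := (@Lb.r r21 (@Lb.r r326 (@Lb.d (nat_lit 422) (nat_lit 272) (nat_lit 68) (@Lb.g g8 (@Lb.g g11 (@Lb.r r2198 (@Lb.r r97 (@Lb.d (nat_lit 336) (nat_lit 65) (nat_lit 648) (@Lb.fm (nat_lit 3) t462)))))))))
noncomputable def l28357 : Lb := (@Lb.d (nat_lit 0) (nat_lit 258) (nat_lit 66) (@Lb.g g8 (@Lb.g g9 (@Lb.g g10 (@Lb.g g11 (@Lb.r r1447 (@Lb.r r106 (@Lb.r r25 (@Lb.d (nat_lit 408) (nat_lit 9) (nat_lit 425) (@Lb.fp (nat_lit 9) t899))))))))))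
noncomputable def l28358 : Lb := (@Lb.d (nat_lit 2) (nat_lit 258) (nat_lit 73) (@Lb.g g8 (@Lb.g g9 (@Lb.g g10 (@Lb.g g11 (@Lb.r r2666 (@Lb.r r579 (@Lb.r r25 (@Lb.r r24 (@Lb.d (nat_lit 9) (nat_lit 161) (nat_lit 586) (@Lb.fp (nat_lit 9) t51)))))))))))
noncomputable def l28359 : Lb := (@Lb.r r337 (@Lb.r r2723 (@Lb.r r1682 (@Lb.r r2129 (@Lb.r r2564 (@Lb.d (nat_lit 0) (nat_lit 384) (nat_lit 394) (@Lb.fp (nat_lit 1) t242)))))))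
noncomputable def l28360 : Lb := (@Lb.d (nat_lit 4) (nat_lit 290) (nat_lit 66) (@Lb.g g8 (@Lb.g g9 (@Lb.g g10 (@Lb.g g11 (@Lb.r r2729 (@Lb.r r1642 (@Lb.r r1640 (@Lb.r r587 (@Lb.d (nat_lit 97) (nat_lit 162) (nat_lit 664) (@Lb.fm (nat_lit 9) t1161)))))))))))
noncomputable def l28361 : Lb := (@Lb.d (nat_lit 4) (nat_lit 292) (nat_lit 128) (@Lb.g g8 (@Lb.g g9 (@Lb.g g10 (@Lb.g g11 (@Lb.r r1706 (@Lb.r r387 (@Lb.r r2201 (@Lb.d (nat_lit 281) (nat_lit 21) (nat_lit 393) (@Lb.fm (nat_lit 9) t1370))))))))))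
noncomputable def l28362 : Lb := (@Lb.d (nat_lit 96) (nat_lit 549) (nat_lit 4) (@Lb.g g8 (@Lb.g g9 (@Lb.g g10 (@Lb.g g11 (@Lb.r r1704 (@Lb.r r683 (@Lb.r r1638 (@Lb.r r2585 (@Lb.d (nat_lit 656) (nat_lit 41) (nat_lit 321) (@Lb.fp (nat_lit 9) t1367)))))))))))
noncomputable def l28363 : Lb := (@Lb.d (nat_lit 5) (nat_lit 678) (nat_lit 294) (@Lb.r r21 (@Lb.r r1366 (@Lb.r r683 (@Lb.g g6 (@Lb.g g5 (@Lb.g g4 (@Lb.d (nat_lit 8) (nat_lit 0) (nat_lit 1) (@Lb.t (@Lb.fm (nat_lit 9) t40))))))))))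
noncomputable def l28364 : Lb := (@Lb.d (nat_lit 128) (nat_lit 32) (nat_lit 64) (@Lb.g g11 (@Lb.r r2345 (@Lb.r r2472 (@Lb.r r1623 (@Lb.r r2178 (@Lb.d (nat_lit 538) (nat_lit 106) (nat_lit 646) (@Lb.t (@Lb.fp (nat_lit 3) t2622)))))))))
noncomputable def l28365 : Lb := (@Lb.d (nat_lit 9) (nat_lit 1) (nat_lit 130) (@Lb.g g8 (@Lb.g g9 (@Lb.g g10 (@Lb.g g11 (@Lb.r r427 (@Lb.r r297 (@Lb.r r136 (@Lb.r r154 (@Lb.r r132 (@Lb.d (nat_lit 5) (nat_lit 25) (nat_lit 137) (@Lb.fm (nat_lit 9) t119))))))))))))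
noncomputable def l28366 : Lb := (@Lb.d (nat_lit 0) (nat_lit 512) (nat_lit 73) (@Lb.g g10 (@Lb.g g11 (@Lb.r r2698 (@Lb.r r660 (@Lb.r r535 (@Lb.r r289 (@Lb.d (nat_lit 640) (nat_lit 16) (nat_lit 522) (@Lb.fp (nat_lit 3) t1115)))))))))
noncomputable def l28367 : Lb := (@Lb.d (nat_lit 1) (nat_lit 0) (nat_lit 73) (@Lb.g g8 (@Lb.g g10 (@Lb.g g11 (@Lb.r r2694 (@Lb.r r360 (@Lb.r r535 (@Lb.r r289 (@Lb.d (nat_lit 640) (nat_lit 16) (nat_lit 645) (@Lb.t (@Lb.fm (nat_lit 9) t1115)))))))))))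
noncomputable def l28368 : Lb := (@Lb.d (nat_lit 0) (nat_lit 165) (nat_lit 294) (@Lb.r r21 (@Lb.r r1366 (@Lb.r r683 (@Lb.g g6 (@Lb.g g5 (@Lb.g g4 (@Lb.d (nat_lit 8) (nat_lit 0) (nat_lit 1) (@Lb.t (@Lb.fm (nat_lit 9) t40))))))))))
noncomputable def l28369 : Lb := (@Lb.d (nat_lit 168) (nat_lit 256) (nat_lit 128) (@Lb.g g9 (@Lb.g g10 (@Lb.g g11 (@Lb.r r260 (@Lb.r r2635 (@Lb.r r402 (@Lb.r r2129 (@Lb.d (nat_lit 72) (nat_lit 148) (nat_lit 16) (@Lb.t (@Lb.fm (nat_lit 9) t322)))))))))))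
noncomputable def l28370 : Lb := (@Lb.r r21 (@Lb.r r323 (@Lb.d (nat_lit 130) (nat_lit 256) (nat_lit 2) (@Lb.g g8 (@Lb.g g10 (@Lb.r r362 (@Lb.r r361 (@Lb.r r535 (@Lb.r r264 (@Lb.d (nat_lit 137) (nat_lit 17) (nat_lit 128) (@Lb.fp (nat_lit 3) t119)))))))))))
noncomputable def l28371 : Lb := (@Lb.d (nat_lit 400) (nat_lit 257) (nat_lit 294) (@Lb.r r24 (@Lb.r r386 (@Lb.g g11 (@Lb.g g6 (@Lb.g g5 (@Lb.d (nat_lit 4) (nat_lit 1) (nat_lit 70) (@Lb.t (@Lb.fm (nat_lit 9) t1427)))))))))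
noncomputable def l28372 : Lb := (@Lb.d (nat_lit 2) (nat_lit 514) (nat_lit 73) (@Lb.g g8 (@Lb.g g9 (@Lb.g g10 (@Lb.g g11 (@Lb.r r427 (@Lb.r r420 (@Lb.r r102 (@Lb.r r21 (@Lb.r r36 (@Lb.d (nat_lit 516) (nat_lit 8) (nat_lit 34) (@Lb.fp (nat_lit 9) t221))))))))))))
noncomputable def l28373 : Lb := (@Lb.r r20 (@Lb.d (nat_lit 136) (nat_lit 393) (nat_lit 4) (@Lb.g g5 (@Lb.g g10 (@Lb.g g11 (@Lb.r r264 (@Lb.r r2343 (@Lb.r r154 (@Lb.d (nat_lit 598) (nat_lit 74) (nat_lit 32) (@Lb.t (@Lb.fp (nat_lit 9) t1038)))))))))))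
noncomputable def l28374 : Lb := (@Lb.d (nat_lit 2) (nat_lit 288) (nat_lit 0) (@Lb.g g8 (@Lb.g g11 (@Lb.r r2584 (@Lb.r r421 (@Lb.r r2651 (@Lb.r r2178 (@Lb.d (nat_lit 320) (nat_lit 37) (nat_lit 677) (@Lb.fm (nat_lit 3) t1282)))))))))
noncomputable def l28375 : Lb := (@Lb.d (nat_lit 289) (nat_lit 32) (nat_lit 0) (@Lb.g g4 (@Lb.g g11 (@Lb.r r2465 (@Lb.r r595 (@Lb.r r2178 (@Lb.d (nat_lit 288) (nat_lit 160) (nat_lit 406) (@Lb.fm (nat_lit 3) t2551))))))))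
noncomputable def l28376 : Lb := (@Lb.d (nat_lit 289) (nat_lit 32) (nat_lit 0) (@Lb.g g4 (@Lb.g g11 (@Lb.r r2465 (@Lb.r r595 (@Lb.r r2178 (@Lb.d (nat_lit 288) (nat_lit 34) (nat_lit 406) (@Lb.fm (nat_lit 3) t2551))))))))
noncomputable def l28377 : Lb := (@Lb.d (nat_lit 0) (nat_lit 32) (nat_lit 128) (@Lb.g g11 (@Lb.r r1445 (@Lb.r r1627 (@Lb.r r2178 (@Lb.r r1156 (@Lb.d (nat_lit 72) (nat_lit 38) (nat_lit 417) (@Lb.t (@Lb.fm (nat_lit 3) t5233)))))))))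
noncomputable def l28378 : Lb := (@Lb.d (nat_lit 610) (nat_lit 512) (nat_lit 610) (@Lb.r r1297 (@Lb.r r134 (@Lb.r r2471 (@Lb.r r289 (@Lb.g g4 (@Lb.d (nat_lit 1) (nat_lit 0) (nat_lit 0) (@Lb.t (@Lb.fm (nat_lit 3) t990)))))))))
noncomputable def l28379 : Lb := (@Lb.d (nat_lit 548) (nat_lit 609) (nat_lit 514) (@Lb.r r1284 (@Lb.r r1414 (@Lb.r r2651 (@Lb.g g5 (@Lb.d (nat_lit 0) (nat_lit 25) (nat_lit 0) (@Lb.t (@Lb.fm (nat_lit 3) t5079))))))))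
noncomputable def l28380 : Lb := (@Lb.r r21 (@Lb.r r263 (@Lb.d (nat_lit 0) (nat_lit 256) (nat_lit 37) (@Lb.g g8 (@Lb.g g6 (@Lb.r r2695 (@Lb.r r1621 (@Lb.r r2440 (@Lb.d (nat_lit 161) (nat_lit 0) (nat_lit 529) (@Lb.fp (nat_lit 3) t5234))))))))))
noncomputable def l28381 : Lb := (@Lb.d (nat_lit 32) (nat_lit 546) (nat_lit 129) (@Lb.g g9 (@Lb.g g10 (@Lb.g g11 (@Lb.r r1352 (@Lb.r r1431 (@Lb.r r1633 (@Lb.d (nat_lit 354) (nat_lit 4) (nat_lit 256) (@Lb.t (@Lb.fm (nat_lit 9) t4337))))))))))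
noncomputable def l28382 : Lb := (@Lb.d (nat_lit 74) (nat_lit 146) (nat_lit 660) (@Lb.r r681 (@Lb.r r363 (@Lb.r r296 (@Lb.g g10 (@Lb.g g5 (@Lb.d (nat_lit 16) (nat_lit 18) (nat_lit 24) (@Lb.r r387 (@Lb.fp (nat_lit 3) t200)))))))))
noncomputable def l28383 : Lb := (@Lb.r r21 (@Lb.d (nat_lit 144) (nat_lit 512) (nat_lit 133) (@Lb.g g8 (@Lb.g g10 (@Lb.g g11 (@Lb.r r651 (@Lb.r r357 (@Lb.r r154 (@Lb.r r516 (@Lb.d (nat_lit 137) (nat_lit 37) (nat_lit 137) (@Lb.t (@Lb.fp (nat_lit 9) t264))))))))))))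
noncomputable def l28384 : Lb := (@Lb.r r82 (@Lb.d (nat_lit 4) (nat_lit 513) (nat_lit 64) (@Lb.g g8 (@Lb.g g9 (@Lb.g g11 (@Lb.r r618 (@Lb.r r537 (@Lb.d (nat_lit 73) (nat_lit 2) (nat_lit 128) (@Lb.t (@Lb.fm (nat_lit 9) t69))))))))))
noncomputable def l28385 : Lb := (@Lb.d (nat_lit 144) (nat_lit 36) (nat_lit 133) (@Lb.g g8 (@Lb.g g9 (@Lb.g g10 (@Lb.g g11 (@Lb.r r387 (@Lb.r r164 (@Lb.r r2470 (@Lb.r r1553 (@Lb.d (nat_lit 533) (nat_lit 68) (nat_lit 592) (@Lb.fm (nat_lit 9) t4)))))))))))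
noncomputable def l28386 : Lb := (@Lb.r r21 (@Lb.d (nat_lit 144) (nat_lit 0) (nat_lit 133) (@Lb.g g8 (@Lb.g g10 (@Lb.g g11 (@Lb.r r651 (@Lb.r r2665 (@Lb.r r1686 (@Lb.r r536 (@Lb.d (nat_lit 534) (nat_lit 162) (nat_lit 665) (@Lb.t (@Lb.fm (nat_lit 9) t125))))))))))))
noncomputable def l28387 : Lb := (@Lb.d (nat_lit 288) (nat_lit 262) (nat_lit 613) (@Lb.r r150 (@Lb.r r72 (@Lb.r r293 (@Lb.r r2395 (@Lb.g g7 (@Lb.g g6 (@Lb.g g5 (@Lb.d (nat_lit 16) (nat_lit 1) (nat_lit 65) (@Lb.t (@Lb.fm (nat_lit 9) t1278)))))))))))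
noncomputable def l28388 : Lb := (@Lb.d (nat_lit 5) (nat_lit 512) (nat_lit 73) (@Lb.g g8 (@Lb.g g9 (@Lb.g g10 (@Lb.g g11 (@Lb.r r1691 (@Lb.r r2341 (@Lb.r r360 (@Lb.r r1126 (@Lb.r r2180 (@Lb.d (nat_lit 9) (nat_lit 26) (nat_lit 420) (@Lb.fm (nat_lit 9) t51))))))))))))
noncomputable def l28389 : Lb := (@Lb.d (nat_lit 530) (nat_lit 394) (nat_lit 33) (@Lb.r r421 (@Lb.r r362 (@Lb.r r72 (@Lb.r r2391 (@Lb.g g7 (@Lb.g g6 (@Lb.g g5 (@Lb.d (nat_lit 20) (nat_lit 1) (nat_lit 65) (@Lb.t (@Lb.fp (nat_lit 9) t283)))))))))))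
noncomputable def l28390 : Lb := (@Lb.d (nat_lit 8) (nat_lit 34) (nat_lit 0) (@Lb.g g9 (@Lb.r r536 (@Lb.r r283 (@Lb.r r2178 (@Lb.r r2597 (@Lb.d (nat_lit 521) (nat_lit 89) (nat_lit 130) (@Lb.t (@Lb.fm (nat_lit 3) t322)))))))))
noncomputable def l28391 : Lb := (@Lb.d (nat_lit 288) (nat_lit 256) (nat_lit 274) (@Lb.r r24 (@Lb.r r101 (@Lb.r r2450 (@Lb.r r1347 (@Lb.g g7 (@Lb.g g6 (@Lb.d (nat_lit 0) (nat_lit 0) (nat_lit 65) (@Lb.fp (nat_lit 3) t399)))))))))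
noncomputable def l28392 : Lb := (@Lb.r r82 (@Lb.d (nat_lit 1) (nat_lit 101) (nat_lit 64) (@Lb.g g8 (@Lb.g g5 (@Lb.g g11 (@Lb.r r2667 (@Lb.r r2650 (@Lb.r r2628 (@Lb.d (nat_lit 394) (nat_lit 0) (nat_lit 393) (@Lb.t (@Lb.fm (nat_lit 9) t5235)))))))))))
noncomputable def l28393 : Lb := (@Lb.d (nat_lit 0) (nat_lit 258) (nat_lit 1) (@Lb.g g9 (@Lb.g g10 (@Lb.r r2339 (@Lb.r r297 (@Lb.r r1160 (@Lb.r r1178 (@Lb.d (nat_lit 293) (nat_lit 80) (nat_lit 165) (@Lb.fp (nat_lit 3) t1040)))))))))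
noncomputable def l28394 : Lb := (@Lb.g g9 (@Lb.g g6 (@Lb.r r2343 (@Lb.r r1096 (@Lb.r r2646 (@Lb.r r289 (@Lb.d (nat_lit 0) (nat_lit 130) (nat_lit 154) (@Lb.fp (nat_lit 3) t1040))))))))
noncomputable def l28395 : Lb := (@Lb.r r323 (@Lb.d (nat_lit 2) (nat_lit 258) (nat_lit 2) (@Lb.g g8 (@Lb.g g9 (@Lb.g g10 (@Lb.r r401 (@Lb.r r299 (@Lb.r r392 (@Lb.r r74 (@Lb.d (nat_lit 38) (nat_lit 8) (nat_lit 0) (@Lb.t (@Lb.fp (nat_lit 9) t61))))))))))))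
noncomputable def l28396 : Lb := (@Lb.d (nat_lit 8) (nat_lit 546) (nat_lit 0) (@Lb.g g9 (@Lb.r r536 (@Lb.r r283 (@Lb.r r2178 (@Lb.r r2597 (@Lb.d (nat_lit 522) (nat_lit 89) (nat_lit 130) (@Lb.t (@Lb.fm (nat_lit 3) t322)))))))))
noncomputable def l28397 : Lb := (@Lb.d (nat_lit 289) (nat_lit 512) (nat_lit 0) (@Lb.g g4 (@Lb.g g9 (@Lb.g g11 (@Lb.r r593 (@Lb.r r1363 (@Lb.r r2178 (@Lb.r r529 (@Lb.d (nat_lit 288) (nat_lit 66) (nat_lit 2) (@Lb.t (@Lb.fm (nat_lit 9) t2551)))))))))))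
noncomputable def l28398 : Lb := (@Lb.d (nat_lit 0) (nat_lit 256) (nat_lit 66) (@Lb.g g8 (@Lb.g g9 (@Lb.g g10 (@Lb.g g7 (@Lb.r r386 (@Lb.r r2145 (@Lb.d (nat_lit 2) (nat_lit 10) (nat_lit 169) (@Lb.fm (nat_lit 9) t126)))))))))
noncomputable def l28399 : Lb := (@Lb.d (nat_lit 298) (nat_lit 516) (nat_lit 153) (@Lb.r r260 (@Lb.r r1317 (@Lb.r r347 (@Lb.r r276 (@Lb.g g7 (@Lb.g g6 (@Lb.g g5 (@Lb.g g4 (@Lb.d (nat_lit 2) (nat_lit 18) (nat_lit 98) (@Lb.fm (nat_lit 9) t1038)))))))))))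
noncomputable def l28400 : Lb := (@Lb.r r323 (@Lb.d (nat_lit 33) (nat_lit 521) (nat_lit 1) (@Lb.g g8 (@Lb.g g9 (@Lb.g g10 (@Lb.r r2666 (@Lb.r r2391 (@Lb.r r1577 (@Lb.r r1556 (@Lb.d (nat_lit 384) (nat_lit 130) (nat_lit 256) (@Lb.t (@Lb.fp (nat_lit 9) t3804))))))))))))
noncomputable def l28401 : Lb := (@Lb.d (nat_lit 393) (nat_lit 346) (nat_lit 521) (@Lb.r r1685 (@Lb.r r662 (@Lb.r r600 (@Lb.r r347 (@Lb.g g7 (@Lb.g g6 (@Lb.g g5 (@Lb.d (nat_lit 4) (nat_lit 0) (nat_lit 65) (@Lb.t (@Lb.fp (nat_lit 9) t830)))))))))))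
noncomputable def l28402 : Lb := (@Lb.d (nat_lit 2) (nat_lit 0) (nat_lit 0) (@Lb.g g8 (@Lb.r r1291 (@Lb.r r1098 (@Lb.r r1049 (@Lb.d (nat_lit 281) (nat_lit 64) (nat_lit 32) (@Lb.t (@Lb.fp (nat_lit 3) t396))))))))
noncomputable def l28403 : Lb := (@Lb.d (nat_lit 662) (nat_lit 533) (nat_lit 536) (@Lb.r r1685 (@Lb.r r662 (@Lb.r r600 (@Lb.r r347 (@Lb.g g7 (@Lb.g g6 (@Lb.g g5 (@Lb.d (nat_lit 4) (nat_lit 0) (nat_lit 65) (@Lb.t (@Lb.fp (nat_lit 9) t3694)))))))))))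
noncomputable def l28404 : Lb := (@Lb.d (nat_lit 0) (nat_lit 576) (nat_lit 32) (@Lb.r r101 (@Lb.r r1172 (@Lb.g g4 (@Lb.t (@Lb.fp (nat_lit 3) t743))))))
noncomputable def l28405 : Lb := (@Lb.r r1045 (@Lb.d (nat_lit 552) (nat_lit 516) (nat_lit 161) (@Lb.g g4 (@Lb.g g10 (@Lb.g g11 (@Lb.r r387 (@Lb.d (nat_lit 8) (nat_lit 138) (nat_lit 136) (@Lb.t (@Lb.fp (nat_lit 9) t3154)))))))))
noncomputable def l28406 : Lb := (@Lb.r r82 (@Lb.d (nat_lit 0) (nat_lit 258) (nat_lit 136) (@Lb.g g8 (@Lb.g g9 (@Lb.g g11 (@Lb.r r138 (@Lb.r r2713 (@Lb.r r664 (@Lb.r r411 (@Lb.d (nat_lit 521) (nat_lit 26) (nat_lit 425) (@Lb.t (@Lb.fm (nat_lit 9) t42))))))))))))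
noncomputable def l28407 : Lb := (@Lb.r r322 (@Lb.d (nat_lit 0) (nat_lit 266) (nat_lit 576) (@Lb.g g8 (@Lb.g g9 (@Lb.g g7 (@Lb.r r594 (@Lb.r r421 (@Lb.r r24 (@Lb.d (nat_lit 538) (nat_lit 2) (nat_lit 42) (@Lb.t (@Lb.fp (nat_lit 9) t991)))))))))))
noncomputable def l28408 : Lb := (@Lb.d (nat_lit 24) (nat_lit 537) (nat_lit 137) (@Lb.g g8 (@Lb.g g9 (@Lb.g g10 (@Lb.g g11 (@Lb.r r598 (@Lb.r r1432 (@Lb.r r1543 (@Lb.r r1633 (@Lb.d (nat_lit 340) (nat_lit 164) (nat_lit 80) (@Lb.fm (nat_lit 9) t4543)))))))))))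
noncomputable def l28409 : Lb := (@Lb.d (nat_lit 529) (nat_lit 321) (nat_lit 520) (@Lb.r r322 (@Lb.r r1543 (@Lb.r r2452 (@Lb.g g9 (@Lb.d (nat_lit 0) (nat_lit 65) (nat_lit 0) (@Lb.r r291 (@Lb.r r98 (@Lb.t (@Lb.fm (nat_lit 3) t3577))))))))))
noncomputable def l28410 : Lb := (@Lb.r r346 (@Lb.d (nat_lit 65) (nat_lit 514) (nat_lit 648) (@Lb.g g8 (@Lb.g g9 (@Lb.g g7 (@Lb.r r2730 (@Lb.r r1113 (@Lb.r r84 (@Lb.d (nat_lit 324) (nat_lit 8) (nat_lit 578) (@Lb.t (@Lb.fm (nat_lit 9) t4543)))))))))))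
noncomputable def l28411 : Lb := (@Lb.d (nat_lit 1) (nat_lit 1) (nat_lit 9) (@Lb.r r1158 (@Lb.r r2372 (@Lb.r r539 (@Lb.g g5 (@Lb.d (nat_lit 0) (nat_lit 81) (nat_lit 0) (@Lb.r r98 (@Lb.t (@Lb.fm (nat_lit 3) t1929)))))))))
noncomputable def l28412 : Lb := (@Lb.d (nat_lit 2) (nat_lit 2) (nat_lit 1) (@Lb.g g8 (@Lb.g g9 (@Lb.g g10 (@Lb.g g11 (@Lb.r r2475 (@Lb.r r98 (@Lb.r r292 (@Lb.r r1045 (@Lb.r r2084 (@Lb.d (nat_lit 33) (nat_lit 162) (nat_lit 578) (@Lb.fp (nat_lit 9) t2113))))))))))))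
noncomputable def l28413 : Lb := (@Lb.d (nat_lit 422) (nat_lit 340) (nat_lit 646) (@Lb.r r2651 (@Lb.r r2580 (@Lb.r r361 (@Lb.g g7 (@Lb.g g6 (@Lb.d (nat_lit 64) (nat_lit 16) (nat_lit 17) (@Lb.r r145 (@Lb.fm (nat_lit 3) t1929)))))))))
noncomputable def l28414 : Lb := (@Lb.d (nat_lit 529) (nat_lit 4) (nat_lit 521) (@Lb.r r322 (@Lb.r r1543 (@Lb.r r2452 (@Lb.g g9 (@Lb.d (nat_lit 4) (nat_lit 66) (nat_lit 0) (@Lb.r r291 (@Lb.r r98 (@Lb.t (@Lb.fm (nat_lit 3) t981))))))))))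
noncomputable def l28415 : Lb := (@Lb.d (nat_lit 1) (nat_lit 328) (nat_lit 598) (@Lb.r r1619 (@Lb.r r421 (@Lb.r r2136 (@Lb.g g7 (@Lb.g g10 (@Lb.d (nat_lit 64) (nat_lit 0) (nat_lit 81) (@Lb.fm (nat_lit 3) t4066))))))))
noncomputable def l28416 : Lb := (@Lb.r r323 (@Lb.d (nat_lit 128) (nat_lit 34) (nat_lit 10) (@Lb.g g8 (@Lb.g g9 (@Lb.g g10 (@Lb.r r275 (@Lb.r r609 (@Lb.r r598 (@Lb.r r420 (@Lb.d (nat_lit 36) (nat_lit 5) (nat_lit 128) (@Lb.t (@Lb.fp (nat_lit 9) t2))))))))))))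
noncomputable def l28417 : Lb := (@Lb.d (nat_lit 97) (nat_lit 322) (nat_lit 73) (@Lb.g g8 (@Lb.g g9 (@Lb.g g10 (@Lb.g g11 (@Lb.r r2658 (@Lb.r r1607 (@Lb.r r2696 (@Lb.d (nat_lit 105) (nat_lit 89) (nat_lit 417) (@Lb.fp (nat_lit 9) t3081))))))))))
noncomputable def l28418 : Lb := (@Lb.d (nat_lit 1) (nat_lit 262) (nat_lit 273) (@Lb.r r1434 (@Lb.r r1172 (@Lb.r r279 (@Lb.g g7 (@Lb.g g6 (@Lb.g g5 (@Lb.d (nat_lit 0) (nat_lit 134) (nat_lit 8) (@Lb.t (@Lb.fm (nat_lit 9) t5236))))))))))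
noncomputable def l28419 : Lb := (@Lb.d (nat_lit 276) (nat_lit 577) (nat_lit 40) (@Lb.r r1158 (@Lb.r r2372 (@Lb.r r667 (@Lb.r r1361 (@Lb.g g7 (@Lb.g g6 (@Lb.g g5 (@Lb.d (nat_lit 0) (nat_lit 18) (nat_lit 65) (@Lb.t (@Lb.fp (nat_lit 9) t153)))))))))))
noncomputable def l28420 : Lb := (@Lb.r r70 (@Lb.d (nat_lit 41) (nat_lit 1) (nat_lit 0) (@Lb.g g8 (@Lb.g g9 (@Lb.g g11 (@Lb.r r2390 (@Lb.r r1691 (@Lb.r r1381 (@Lb.r r280 (@Lb.d (nat_lit 600) (nat_lit 153) (nat_lit 260) (@Lb.t (@Lb.fp (nat_lit 9) t5237))))))))))))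
noncomputable def l28421 : Lb := (@Lb.d (nat_lit 1) (nat_lit 256) (nat_lit 66) (@Lb.g g8 (@Lb.g g10 (@Lb.g g7 (@Lb.r r386 (@Lb.r r2152 (@Lb.r r2073 (@Lb.d (nat_lit 0) (nat_lit 138) (nat_lit 25) (@Lb.t (@Lb.fp (nat_lit 9) t40))))))))))
noncomputable def l28422 : Lb := (@Lb.d (nat_lit 2) (nat_lit 4) (nat_lit 74) (@Lb.g g8 (@Lb.g g9 (@Lb.g g10 (@Lb.g g11 (@Lb.r r1623 (@Lb.r r2730 (@Lb.r r104 (@Lb.r r25 (@Lb.d (nat_lit 666) (nat_lit 9) (nat_lit 289) (@Lb.fm (nat_lit 9) t31)))))))))))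
noncomputable def l28423 : Lb := (@Lb.r r515 (@Lb.r r130 (@Lb.r r24 (@Lb.r r149 (@Lb.r r36 (@Lb.d (nat_lit 0) (nat_lit 517) (nat_lit 17) (@Lb.fm (nat_lit 1) t40)))))))
noncomputable def l28424 : Lb := (@Lb.r r323 (@Lb.d (nat_lit 0) (nat_lit 2) (nat_lit 2) (@Lb.g g9 (@Lb.g g10 (@Lb.r r1627 (@Lb.r r2150 (@Lb.r r148 (@Lb.r r25 (@Lb.d (nat_lit 521) (nat_lit 4) (nat_lit 0) (@Lb.fp (nat_lit 3) t61))))))))))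
noncomputable def l28425 : Lb := (@Lb.r r515 (@Lb.r r130 (@Lb.r r24 (@Lb.r r149 (@Lb.r r36 (@Lb.d (nat_lit 5) (nat_lit 513) (nat_lit 16) (@Lb.fm (nat_lit 1) t40)))))))
noncomputable def l28426 : Lb := (@Lb.r r323 (@Lb.d (nat_lit 32) (nat_lit 0) (nat_lit 2) (@Lb.g g10 (@Lb.r r1643 (@Lb.r r1121 (@Lb.r r1096 (@Lb.r r2198 (@Lb.d (nat_lit 516) (nat_lit 138) (nat_lit 18) (@Lb.t (@Lb.fp (nat_lit 3) t61))))))))))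
noncomputable def l28427 : Lb := (@Lb.r r515 (@Lb.r r130 (@Lb.r r24 (@Lb.r r149 (@Lb.r r36 (@Lb.d (nat_lit 1) (nat_lit 512) (nat_lit 16) (@Lb.fm (nat_lit 1) t167)))))))
noncomputable def l28428 : Lb := (@Lb.d (nat_lit 0) (nat_lit 260) (nat_lit 128) (@Lb.g g8 (@Lb.g g9 (@Lb.g g10 (@Lb.g g11 (@Lb.r r2595 (@Lb.r r386 (@Lb.r r612 (@Lb.r r533 (@Lb.r r2084 (@Lb.d (nat_lit 548) (nat_lit 8) (nat_lit 145) (@Lb.fp (nat_lit 9) t175))))))))))))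
noncomputable def l28429 : Lb := (@Lb.r r515 (@Lb.r r130 (@Lb.r r24 (@Lb.r r149 (@Lb.r r36 (@Lb.d (nat_lit 0) (nat_lit 0) (nat_lit 16) (@Lb.fm (nat_lit 1) t40)))))))
noncomputable def l28430 : Lb := (@Lb.d (nat_lit 665) (nat_lit 421) (nat_lit 129) (@Lb.r r2660 (@Lb.r r1637 (@Lb.r r346 (@Lb.g g11 (@Lb.g g4 (@Lb.d (nat_lit 22) (nat_lit 0) (nat_lit 0) (@Lb.fm (nat_lit 3) t322))))))))
noncomputable def l28431 : Lb := (@Lb.d (nat_lit 144) (nat_lit 0) (nat_lit 657) (@Lb.r r1105 (@Lb.r r98 (@Lb.r r601 (@Lb.g g11 (@Lb.g g8 (@Lb.fm (nat_lit 3) t2949)))))))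
noncomputable def l28432 : Lb := (@Lb.d (nat_lit 4) (nat_lit 258) (nat_lit 64) (@Lb.g g9 (@Lb.g g10 (@Lb.g g11 (@Lb.r r2347 (@Lb.r r1606 (@Lb.r r8 (@Lb.d (nat_lit 330) (nat_lit 40) (nat_lit 130) (@Lb.t (@Lb.fp (nat_lit 9) t4151))))))))))
noncomputable def l28433 : Lb := (@Lb.d (nat_lit 32) (nat_lit 0) (nat_lit 128) (@Lb.g g10 (@Lb.g g11 (@Lb.r r324 (@Lb.r r555 (@Lb.r r2402 (@Lb.r r1057 (@Lb.d (nat_lit 328) (nat_lit 149) (nat_lit 150) (@Lb.fm (nat_lit 3) t324)))))))))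
noncomputable def l28434 : Lb := (@Lb.d (nat_lit 0) (nat_lit 258) (nat_lit 64) (@Lb.g g9 (@Lb.g g10 (@Lb.g g11 (@Lb.r r2595 (@Lb.r r1414 (@Lb.r r88 (@Lb.r r37 (@Lb.d (nat_lit 68) (nat_lit 97) (nat_lit 128) (@Lb.t (@Lb.fm (nat_lit 9) t2815)))))))))))
noncomputable def l28435 : Lb := (@Lb.d (nat_lit 2) (nat_lit 2) (nat_lit 2) (@Lb.g g8 (@Lb.g g9 (@Lb.g g10 (@Lb.r r2411 (@Lb.r r386 (@Lb.r r97 (@Lb.r r24 (@Lb.d (nat_lit 256) (nat_lit 73) (nat_lit 100) (@Lb.t (@Lb.fp (nat_lit 9) t741)))))))))))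
noncomputable def l28436 : Lb := (@Lb.d (nat_lit 130) (nat_lit 274) (nat_lit 0) (@Lb.g g8 (@Lb.g g9 (@Lb.g g10 (@Lb.r r1434 (@Lb.r r583 (@Lb.r r420 (@Lb.d (nat_lit 422) (nat_lit 86) (nat_lit 586) (@Lb.t (@Lb.fm (nat_lit 9) t2902))))))))))
noncomputable def l28437 : Lb := (@Lb.d (nat_lit 5) (nat_lit 576) (nat_lit 0) (@Lb.g g4 (@Lb.g g9 (@Lb.fp (nat_lit 3) t2))))
noncomputable def l28438 : Lb := (@Lb.d (nat_lit 10) (nat_lit 0) (nat_lit 0) (@Lb.g g8 (@Lb.r r289 (@Lb.r r279 (@Lb.r r584 (@Lb.r r134 (@Lb.d (nat_lit 0) (nat_lit 0) (nat_lit 132) (@Lb.t (@Lb.fm (nat_lit 3) t40)))))))))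
noncomputable def l28439 : Lb := (@Lb.d (nat_lit 0) (nat_lit 514) (nat_lit 66) (@Lb.g g9 (@Lb.g g10 (@Lb.g g11 (@Lb.r r661 (@Lb.r r2587 (@Lb.r r386 (@Lb.r r24 (@Lb.d (nat_lit 401) (nat_lit 73) (nat_lit 345) (@Lb.t (@Lb.fp (nat_lit 9) t1767)))))))))))
noncomputable def l28440 : Lb := (@Lb.d (nat_lit 8) (nat_lit 514) (nat_lit 130) (@Lb.g g9 (@Lb.g g10 (@Lb.g g11 (@Lb.r r419 (@Lb.r r98 (@Lb.d (nat_lit 2) (nat_lit 9) (nat_lit 9) (@Lb.t (@Lb.fm (nat_lit 9) t369)))))))))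
noncomputable def l28441 : Lb := (@Lb.d (nat_lit 256) (nat_lit 657) (nat_lit 10) (@Lb.r r657 (@Lb.r r1626 (@Lb.r r1380 (@Lb.r r2715 (@Lb.g g7 (@Lb.g g6 (@Lb.g g5 (@Lb.d (nat_lit 8) (nat_lit 1) (nat_lit 64) (@Lb.t (@Lb.fm (nat_lit 9) t41)))))))))))
noncomputable def l28442 : Lb := (@Lb.r r2130 (@Lb.r r2323 (@Lb.d (nat_lit 2) (nat_lit 642) (nat_lit 0) (@Lb.g g8 (@Lb.g g5 (@Lb.r r24 (@Lb.d (nat_lit 5) (nat_lit 128) (nat_lit 0) (@Lb.fm (nat_lit 3) t125))))))))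
noncomputable def l28443 : Lb := (@Lb.d (nat_lit 2) (nat_lit 2) (nat_lit 2) (@Lb.g g8 (@Lb.g g9 (@Lb.g g10 (@Lb.g g11 (@Lb.r r148 (@Lb.r r102 (@Lb.r r357 (@Lb.r r667 (@Lb.r r644 (@Lb.d (nat_lit 2) (nat_lit 0) (nat_lit 10) (@Lb.fp (nat_lit 9) t2))))))))))))
noncomputable def l28444 : Lb := (@Lb.d (nat_lit 160) (nat_lit 329) (nat_lit 129) (@Lb.g g5 (@Lb.g g10 (@Lb.g g11 (@Lb.r r292 (@Lb.r r603 (@Lb.r r354 (@Lb.d (nat_lit 41) (nat_lit 72) (nat_lit 645) (@Lb.t (@Lb.fm (nat_lit 9) t394))))))))))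
noncomputable def l28445 : Lb := (@Lb.r r323 (@Lb.g g9 (@Lb.g g10 (@Lb.r r2339 (@Lb.r r146 (@Lb.d (nat_lit 0) (nat_lit 325) (nat_lit 0) (@Lb.fp (nat_lit 3) t295)))))))
noncomputable def l28446 : Lb := (@Lb.d (nat_lit 128) (nat_lit 0) (nat_lit 128) (@Lb.g g11 (@Lb.r r549 (@Lb.r r344 (@Lb.r r679 (@Lb.r r134 (@Lb.d (nat_lit 0) (nat_lit 21) (nat_lit 18) (@Lb.t (@Lb.fp (nat_lit 3) t40)))))))))
noncomputable def l28447 : Lb := (@Lb.r r2130 (@Lb.r r2323 (@Lb.d (nat_lit 2) (nat_lit 386) (nat_lit 0) (@Lb.g g8 (@Lb.g g5 (@Lb.r r24 (@Lb.d (nat_lit 10) (nat_lit 129) (nat_lit 0) (@Lb.fm (nat_lit 3) t125))))))))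
noncomputable def l28448 : Lb := (@Lb.d (nat_lit 2) (nat_lit 512) (nat_lit 0) (@Lb.g g8 (@Lb.r r289 (@Lb.r r535 (@Lb.r r328 (@Lb.r r134 (@Lb.t (@Lb.fp (nat_lit 3) t40))))))))
noncomputable def l28449 : Lb := (@Lb.d (nat_lit 0) (nat_lit 514) (nat_lit 130) (@Lb.g g8 (@Lb.g g9 (@Lb.g g10 (@Lb.g g11 (@Lb.r r2691 (@Lb.r r88 (@Lb.r r1173 (@Lb.r r1622 (@Lb.r r1188 (@Lb.d (nat_lit 642) (nat_lit 66) (nat_lit 362) (@Lb.fp (nat_lit 9) t992))))))))))))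
noncomputable def l28450 : Lb := (@Lb.d (nat_lit 129) (nat_lit 256) (nat_lit 384) (@Lb.g g8 (@Lb.g g11 (@Lb.r r260 (@Lb.d (nat_lit 66) (nat_lit 0) (nat_lit 512) (@Lb.fm (nat_lit 3) t4381))))))
noncomputable def l28451 : Lb := (@Lb.d (nat_lit 128) (nat_lit 288) (nat_lit 72) (@Lb.g g11 (@Lb.r r2410 (@Lb.r r361 (@Lb.r r1384 (@Lb.r r2583 (@Lb.d (nat_lit 646) (nat_lit 162) (nat_lit 329) (@Lb.t (@Lb.fm (nat_lit 3) t386)))))))))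
noncomputable def l28452 : Lb := (@Lb.d (nat_lit 8) (nat_lit 520) (nat_lit 66) (@Lb.g g8 (@Lb.g g10 (@Lb.g g11 (@Lb.r r2385 (@Lb.r r1447 (@Lb.r r358 (@Lb.r r2564 (@Lb.d (nat_lit 409) (nat_lit 9) (nat_lit 293) (@Lb.t (@Lb.fm (nat_lit 9) t5238)))))))))))
noncomputable def l28453 : Lb := (@Lb.d (nat_lit 0) (nat_lit 322) (nat_lit 0) (@Lb.g g9 (@Lb.r r1319 (@Lb.r r1126 (@Lb.r r24 (@Lb.d (nat_lit 258) (nat_lit 128) (nat_lit 0) (@Lb.t (@Lb.fm (nat_lit 3) t284))))))))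
noncomputable def l28454 : Lb := (@Lb.g g8 (@Lb.g g5 (@Lb.r r2323 (@Lb.r r2130 (@Lb.r r2085 (@Lb.r r24 (@Lb.fp (nat_lit 3) t284)))))))
noncomputable def l28455 : Lb := (@Lb.d (nat_lit 2) (nat_lit 521) (nat_lit 129) (@Lb.g g8 (@Lb.g g9 (@Lb.g g10 (@Lb.g g11 (@Lb.r r169 (@Lb.r r296 (@Lb.r r391 (@Lb.r r386 (@Lb.r r132 (@Lb.d (nat_lit 2) (nat_lit 10) (nat_lit 89) (@Lb.fm (nat_lit 9) t150))))))))))))
noncomputable def l28456 : Lb := (@Lb.d (nat_lit 8) (nat_lit 321) (nat_lit 0) (@Lb.g g9 (@Lb.r r1319 (@Lb.r r1126 (@Lb.r r24 (@Lb.d (nat_lit 258) (nat_lit 128) (nat_lit 0) (@Lb.t (@Lb.fm (nat_lit 3) t284))))))))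
noncomputable def l28457 : Lb := (@Lb.d (nat_lit 288) (nat_lit 344) (nat_lit 678) (@Lb.r r386 (@Lb.r r2579 (@Lb.r r2389 (@Lb.g g6 (@Lb.g g5 (@Lb.g g4 (@Lb.d (nat_lit 1) (nat_lit 1) (nat_lit 1) (@Lb.t (@Lb.fp (nat_lit 9) t1490))))))))))
noncomputable def l28458 : Lb := (@Lb.r r82 (@Lb.d (nat_lit 34) (nat_lit 514) (nat_lit 136) (@Lb.g g8 (@Lb.g g9 (@Lb.g g11 (@Lb.r r1362 (@Lb.r r2645 (@Lb.r r356 (@Lb.r r587 (@Lb.d (nat_lit 336) (nat_lit 22) (nat_lit 165) (@Lb.t (@Lb.fp (nat_lit 9) t580))))))))))))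
noncomputable def l28459 : Lb := (@Lb.d (nat_lit 9) (nat_lit 514) (nat_lit 2) (@Lb.g g8 (@Lb.g g9 (@Lb.g g10 (@Lb.g g11 (@Lb.r r148 (@Lb.r r1126 (@Lb.r r1381 (@Lb.r r1691 (@Lb.r r1668 (@Lb.d (nat_lit 2) (nat_lit 0) (nat_lit 330) (@Lb.fp (nat_lit 9) t2))))))))))))
noncomputable def l28460 : Lb := (@Lb.d (nat_lit 530) (nat_lit 512) (nat_lit 152) (@Lb.r r386 (@Lb.r r2579 (@Lb.r r2389 (@Lb.g g6 (@Lb.g g5 (@Lb.g g4 (@Lb.d (nat_lit 1) (nat_lit 1) (nat_lit 1) (@Lb.t (@Lb.fp (nat_lit 9) t1436))))))))))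
noncomputable def l28461 : Lb := (@Lb.d (nat_lit 2) (nat_lit 290) (nat_lit 2) (@Lb.g g8 (@Lb.g g9 (@Lb.g g10 (@Lb.r r1194 (@Lb.r r2468 (@Lb.r r1627 (@Lb.r r1445 (@Lb.d (nat_lit 357) (nat_lit 36) (nat_lit 330) (@Lb.t (@Lb.fp (nat_lit 9) t994)))))))))))
noncomputable def l28462 : Lb := (@Lb.d (nat_lit 32) (nat_lit 256) (nat_lit 73) (@Lb.g g9 (@Lb.g g10 (@Lb.g g11 (@Lb.r r2695 (@Lb.r r1352 (@Lb.r r2390 (@Lb.r r289 (@Lb.d (nat_lit 665) (nat_lit 73) (nat_lit 426) (@Lb.t (@Lb.fp (nat_lit 9) t242)))))))))))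
noncomputable def l28463 : Lb := (@Lb.r r323 (@Lb.d (nat_lit 0) (nat_lit 0) (nat_lit 2) (@Lb.g g9 (@Lb.g g10 (@Lb.r r354 (@Lb.r r387 (@Lb.d (nat_lit 0) (nat_lit 33) (nat_lit 74) (@Lb.fm (nat_lit 3) t51))))))))
noncomputable def l28464 : Lb := (@Lb.d (nat_lit 128) (nat_lit 256) (nat_lit 73) (@Lb.g g10 (@Lb.g g11 (@Lb.r r2725 (@Lb.r r280 (@Lb.r r551 (@Lb.r r2122 (@Lb.d (nat_lit 664) (nat_lit 144) (nat_lit 144) (@Lb.fp (nat_lit 3) t154)))))))))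
noncomputable def l28465 : Lb := (@Lb.d (nat_lit 0) (nat_lit 512) (nat_lit 9) (@Lb.g g10 (@Lb.g g11 (@Lb.r r642 (@Lb.r r1683 (@Lb.r r101 (@Lb.r r24 (@Lb.d (nat_lit 274) (nat_lit 0) (nat_lit 89) (@Lb.fm (nat_lit 3) t314)))))))))
noncomputable def l28466 : Lb := (@Lb.r r323 (@Lb.d (nat_lit 2) (nat_lit 258) (nat_lit 2) (@Lb.g g8 (@Lb.g g9 (@Lb.g g10 (@Lb.r r401 (@Lb.r r299 (@Lb.r r392 (@Lb.r r74 (@Lb.d (nat_lit 33) (nat_lit 5) (nat_lit 154) (@Lb.t (@Lb.fp (nat_lit 9) t221))))))))))))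
noncomputable def l28467 : Lb := (@Lb.d (nat_lit 4) (nat_lit 513) (nat_lit 0) (@Lb.g g9 (@Lb.r r1319 (@Lb.r r1126 (@Lb.r r24 (@Lb.d (nat_lit 265) (nat_lit 1) (nat_lit 0) (@Lb.t (@Lb.fm (nat_lit 3) t284))))))))
noncomputable def l28468 : Lb := (@Lb.d (nat_lit 9) (nat_lit 514) (nat_lit 130) (@Lb.g g8 (@Lb.g g9 (@Lb.g g10 (@Lb.g g11 (@Lb.r r2475 (@Lb.r r2193 (@Lb.r r356 (@Lb.r r154 (@Lb.r r132 (@Lb.d (nat_lit 516) (nat_lit 8) (nat_lit 153) (@Lb.fm (nat_lit 9) t221))))))))))))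
noncomputable def l28469 : Lb := (@Lb.r r21 (@Lb.d (nat_lit 161) (nat_lit 256) (nat_lit 128) (@Lb.g g8 (@Lb.g g10 (@Lb.g g11 (@Lb.r r603 (@Lb.r r2393 (@Lb.r r1190 (@Lb.r r2212 (@Lb.d (nat_lit 554) (nat_lit 72) (nat_lit 2) (@Lb.t (@Lb.fm (nat_lit 9) t68))))))))))))
noncomputable def l28470 : Lb := (@Lb.d (nat_lit 153) (nat_lit 25) (nat_lit 2) (@Lb.g g8 (@Lb.g g9 (@Lb.g g10 (@Lb.g g11 (@Lb.r r1706 (@Lb.r r644 (@Lb.r r1559 (@Lb.r r2345 (@Lb.r r36 (@Lb.d (nat_lit 417) (nat_lit 161) (nat_lit 66) (@Lb.fm (nat_lit 9) t1185))))))))))))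
noncomputable def l28471 : Lb := (@Lb.d (nat_lit 36) (nat_lit 38) (nat_lit 341) (@Lb.r r2663 (@Lb.r r1450 (@Lb.r r1172 (@Lb.g g7 (@Lb.g g5 (@Lb.d (nat_lit 72) (nat_lit 133) (nat_lit 128) (@Lb.fm (nat_lit 3) t5239))))))))
noncomputable def l28472 : Lb := (@Lb.d (nat_lit 2) (nat_lit 288) (nat_lit 64) (@Lb.g g8 (@Lb.g g11 (@Lb.r r2337 (@Lb.r r531 (@Lb.r r2658 (@Lb.r r24 (@Lb.d (nat_lit 5) (nat_lit 0) (nat_lit 0) (@Lb.fp (nat_lit 3) t303)))))))))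
noncomputable def l28473 : Lb := (@Lb.r r263 (@Lb.d (nat_lit 33) (nat_lit 265) (nat_lit 0) (@Lb.g g8 (@Lb.g g9 (@Lb.g g10 (@Lb.r r2729 (@Lb.r r2475 (@Lb.r r402 (@Lb.r r104 (@Lb.d (nat_lit 296) (nat_lit 16) (nat_lit 88) (@Lb.t (@Lb.fp (nat_lit 9) t5240))))))))))))
noncomputable def l28474 : Lb := (@Lb.d (nat_lit 145) (nat_lit 324) (nat_lit 336) (@Lb.r r2641 (@Lb.r r358 (@Lb.r r132 (@Lb.g g7 (@Lb.g g6 (@Lb.d (nat_lit 16) (nat_lit 16) (nat_lit 577) (@Lb.fm (nat_lit 3) t5241))))))))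
noncomputable def l28475 : Lb := (@Lb.d (nat_lit 2) (nat_lit 258) (nat_lit 73) (@Lb.g g8 (@Lb.g g9 (@Lb.g g10 (@Lb.g g11 (@Lb.r r642 (@Lb.r r1687 (@Lb.r r97 (@Lb.r r24 (@Lb.d (nat_lit 298) (nat_lit 9) (nat_lit 89) (@Lb.fp (nat_lit 9) t314)))))))))))
noncomputable def l28476 : Lb := (@Lb.d (nat_lit 640) (nat_lit 2) (nat_lit 66) (@Lb.g g4 (@Lb.g g9 (@Lb.g g10 (@Lb.g g11 (@Lb.r r1705 (@Lb.r r1451 (@Lb.r r2438 (@Lb.d (nat_lit 85) (nat_lit 10) (nat_lit 674) (@Lb.fm (nat_lit 9) t2605))))))))))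
noncomputable def l28477 : Lb := (@Lb.d (nat_lit 9) (nat_lit 513) (nat_lit 128) (@Lb.g g8 (@Lb.g g9 (@Lb.g g10 (@Lb.g g11 (@Lb.r r676 (@Lb.r r263 (@Lb.r r162 (@Lb.r r145 (@Lb.r r516 (@Lb.d (nat_lit 2) (nat_lit 9) (nat_lit 137) (@Lb.fm (nat_lit 9) t51))))))))))))
noncomputable def l28478 : Lb := (@Lb.d (nat_lit 9) (nat_lit 258) (nat_lit 128) (@Lb.g g8 (@Lb.g g9 (@Lb.g g10 (@Lb.g g11 (@Lb.r r337 (@Lb.r r683 (@Lb.r r680 (@Lb.r r170 (@Lb.r r153 (@Lb.d (nat_lit 2) (nat_lit 0) (nat_lit 137) (@Lb.fm (nat_lit 9) t2))))))))))))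
noncomputable def l28479 : Lb := (@Lb.d (nat_lit 10) (nat_lit 10) (nat_lit 0) (@Lb.g g8 (@Lb.g g9 (@Lb.r r1707 (@Lb.r r82 (@Lb.r r161 (@Lb.r r1608 (@Lb.d (nat_lit 98) (nat_lit 4) (nat_lit 537) (@Lb.fp (nat_lit 3) t1165)))))))))
noncomputable def l28480 : Lb := (@Lb.d (nat_lit 2) (nat_lit 258) (nat_lit 73) (@Lb.g g8 (@Lb.g g9 (@Lb.g g10 (@Lb.g g11 (@Lb.r r1559 (@Lb.r r2474 (@Lb.r r97 (@Lb.r r24 (@Lb.d (nat_lit 298) (nat_lit 9) (nat_lit 89) (@Lb.fp (nat_lit 9) t314)))))))))))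
noncomputable def l28481 : Lb := (@Lb.d (nat_lit 137) (nat_lit 8) (nat_lit 1) (@Lb.g g8 (@Lb.g g10 (@Lb.r r97 (@Lb.r r2710 (@Lb.r r391 (@Lb.r r584 (@Lb.d (nat_lit 96) (nat_lit 161) (nat_lit 345) (@Lb.fp (nat_lit 3) t2)))))))))
noncomputable def l28482 : Lb := (@Lb.d (nat_lit 168) (nat_lit 2) (nat_lit 65) (@Lb.g g9 (@Lb.g g10 (@Lb.g g11 (@Lb.r r264 (@Lb.r r279 (@Lb.r r609 (@Lb.r r402 (@Lb.d (nat_lit 98) (nat_lit 25) (nat_lit 68) (@Lb.t (@Lb.fp (nat_lit 9) t2)))))))))))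
noncomputable def l28483 : Lb := (@Lb.d (nat_lit 272) (nat_lit 0) (nat_lit 65) (@Lb.r r72 (@Lb.r r1414 (@Lb.g g7 (@Lb.g g4 (@Lb.d (nat_lit 2) (nat_lit 0) (nat_lit 4) (@Lb.r r578 (@Lb.r r2073 (@Lb.fm (nat_lit 3) t2188)))))))))
noncomputable def l28484 : Lb := (@Lb.d (nat_lit 9) (nat_lit 257) (nat_lit 145) (@Lb.g g8 (@Lb.g g9 (@Lb.g g10 (@Lb.g g11 (@Lb.r r2089 (@Lb.r r296 (@Lb.r r2311 (@Lb.r r1540 (@Lb.d (nat_lit 2) (nat_lit 98) (nat_lit 529) (@Lb.fp (nat_lit 9) t246)))))))))))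
noncomputable def l28485 : Lb := (@Lb.d (nat_lit 0) (nat_lit 514) (nat_lit 129) (@Lb.g g9 (@Lb.g g10 (@Lb.g g11 (@Lb.r r529 (@Lb.r r599 (@Lb.r r392 (@Lb.r r410 (@Lb.d (nat_lit 98) (nat_lit 164) (nat_lit 101) (@Lb.t (@Lb.fp (nat_lit 9) t232)))))))))))
noncomputable def l28486 : Lb := (@Lb.d (nat_lit 138) (nat_lit 518) (nat_lit 18) (@Lb.g g8 (@Lb.g g9 (@Lb.g g10 (@Lb.r r1687 (@Lb.r r2329 (@Lb.r r1108 (@Lb.d (nat_lit 166) (nat_lit 70) (nat_lit 642) (@Lb.t (@Lb.fp (nat_lit 9) t400))))))))))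
noncomputable def l28487 : Lb := (@Lb.d (nat_lit 137) (nat_lit 522) (nat_lit 0) (@Lb.g g8 (@Lb.g g9 (@Lb.r r407 (@Lb.r r82 (@Lb.r r161 (@Lb.r r612 (@Lb.d (nat_lit 149) (nat_lit 17) (nat_lit 137) (@Lb.fp (nat_lit 3) t2)))))))))
noncomputable def l28488 : Lb := (@Lb.d (nat_lit 2) (nat_lit 257) (nat_lit 128) (@Lb.g g8 (@Lb.g g9 (@Lb.g g11 (@Lb.r r1363 (@Lb.r r170 (@Lb.r r153 (@Lb.r r1416 (@Lb.d (nat_lit 88) (nat_lit 169) (nat_lit 617) (@Lb.t (@Lb.fm (nat_lit 9) t899)))))))))))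
noncomputable def l28489 : Lb := (@Lb.d (nat_lit 128) (nat_lit 0) (nat_lit 128) (@Lb.g g11 (@Lb.r r154 (@Lb.r r264 (@Lb.r r391 (@Lb.r r289 (@Lb.d (nat_lit 102) (nat_lit 128) (nat_lit 394) (@Lb.t (@Lb.fm (nat_lit 3) t51)))))))))
noncomputable def l28490 : Lb := (@Lb.d (nat_lit 10) (nat_lit 256) (nat_lit 128) (@Lb.g g8 (@Lb.g g11 (@Lb.r r293 (@Lb.r r347 (@Lb.r r330 (@Lb.r r420 (@Lb.d (nat_lit 97) (nat_lit 169) (nat_lit 138) (@Lb.fp (nat_lit 3) t1231)))))))))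
noncomputable def l28491 : Lb := (@Lb.d (nat_lit 144) (nat_lit 282) (nat_lit 166) (@Lb.r r293 (@Lb.r r600 (@Lb.r r322 (@Lb.r r643 (@Lb.g g7 (@Lb.g g6 (@Lb.g g5 (@Lb.d (nat_lit 0) (nat_lit 34) (nat_lit 70) (@Lb.t (@Lb.fm (nat_lit 9) t510)))))))))))
noncomputable def l28492 : Lb := (@Lb.r r323 (@Lb.d (nat_lit 2) (nat_lit 514) (nat_lit 1) (@Lb.g g8 (@Lb.g g9 (@Lb.g g6 (@Lb.r r2347 (@Lb.r r25 (@Lb.d (nat_lit 9) (nat_lit 66) (nat_lit 0) (@Lb.t (@Lb.fp (nat_lit 9) t2243))))))))))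
noncomputable def l28493 : Lb := (@Lb.d (nat_lit 144) (nat_lit 16) (nat_lit 164) (@Lb.r r293 (@Lb.r r600 (@Lb.r r322 (@Lb.r r643 (@Lb.g g7 (@Lb.g g6 (@Lb.g g5 (@Lb.d (nat_lit 0) (nat_lit 34) (nat_lit 70) (@Lb.t (@Lb.fm (nat_lit 9) t629)))))))))))
noncomputable def l28494 : Lb := (@Lb.d (nat_lit 16) (nat_lit 514) (nat_lit 18) (@Lb.r r24 (@Lb.r r1114 (@Lb.r r347 (@Lb.g g9 (@Lb.d (nat_lit 8) (nat_lit 70) (nat_lit 0) (@Lb.r r291 (@Lb.t (@Lb.fm (nat_lit 3) t1038)))))))))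
noncomputable def l28495 : Lb := (@Lb.d (nat_lit 4) (nat_lit 512) (nat_lit 130) (@Lb.g g8 (@Lb.g g9 (@Lb.g g10 (@Lb.g g11 (@Lb.r r2411 (@Lb.r r386 (@Lb.r r104 (@Lb.r r25 (@Lb.d (nat_lit 512) (nat_lit 10) (nat_lit 136) (@Lb.fp (nat_lit 9) t61)))))))))))
noncomputable def l28496 : Lb := (@Lb.d (nat_lit 4) (nat_lit 0) (nat_lit 130) (@Lb.g g8 (@Lb.g g9 (@Lb.g g10 (@Lb.g g11 (@Lb.r r2411 (@Lb.r r386 (@Lb.r r104 (@Lb.r r25 (@Lb.d (nat_lit 522) (nat_lit 9) (nat_lit 136) (@Lb.fp (nat_lit 9) t61)))))))))))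
noncomputable def l28497 : Lb := (@Lb.r r82 (@Lb.r r275 (@Lb.d (nat_lit 1) (nat_lit 512) (nat_lit 0) (@Lb.g g8 (@Lb.g g9 (@Lb.r r299 (@Lb.r r106 (@Lb.r r25 (@Lb.d (nat_lit 8) (nat_lit 2) (nat_lit 0) (@Lb.fm (nat_lit 3) t5))))))))))
noncomputable def l28498 : Lb := (@Lb.g g4 (@Lb.r r420 (@Lb.r r1382 (@Lb.r r1365 (@Lb.r r1707 (@Lb.r r1700 (@Lb.t (@Lb.fp (nat_lit 3) t2))))))))
noncomputable def l28499 : Lb := (@Lb.d (nat_lit 128) (nat_lit 522) (nat_lit 64) (@Lb.g g9 (@Lb.g g11 (@Lb.r r86 (@Lb.r r264 (@Lb.r r391 (@Lb.r r545 (@Lb.d (nat_lit 97) (nat_lit 18) (nat_lit 74) (@Lb.fm (nat_lit 3) t2)))))))))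
noncomputable def l28500 : Lb := (@Lb.d (nat_lit 34) (nat_lit 257) (nat_lit 64) (@Lb.g g8 (@Lb.g g9 (@Lb.g g11 (@Lb.r r1363 (@Lb.r r582 (@Lb.r r2212 (@Lb.r r2581 (@Lb.d (nat_lit 137) (nat_lit 144) (nat_lit 329) (@Lb.t (@Lb.fm (nat_lit 9) t3558)))))))))))
noncomputable def l28501 : Lb := (@Lb.r r331 (@Lb.d (nat_lit 166) (nat_lit 514) (nat_lit 2) (@Lb.g g8 (@Lb.g g9 (@Lb.g g10 (@Lb.r r2457 (@Lb.r r2343 (@Lb.r r1604 (@Lb.r r1098 (@Lb.d (nat_lit 597) (nat_lit 136) (nat_lit 424) (@Lb.t (@Lb.fm (nat_lit 9) t163))))))))))))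
noncomputable def l28502 : Lb := (@Lb.r r323 (@Lb.d (nat_lit 32) (nat_lit 512) (nat_lit 10) (@Lb.g g10 (@Lb.r r1635 (@Lb.r r1557 (@Lb.r r104 (@Lb.r r2438 (@Lb.d (nat_lit 610) (nat_lit 70) (nat_lit 666) (@Lb.t (@Lb.fm (nat_lit 3) t660))))))))))
noncomputable def l28503 : Lb := (@Lb.d (nat_lit 32) (nat_lit 512) (nat_lit 4) (@Lb.g g10 (@Lb.g g11 (@Lb.r r2451 (@Lb.r r1557 (@Lb.r r100 (@Lb.r r2442 (@Lb.d (nat_lit 402) (nat_lit 70) (nat_lit 666) (@Lb.fp (nat_lit 3) t660)))))))))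
noncomputable def l28504 : Lb := (@Lb.d (nat_lit 1) (nat_lit 0) (nat_lit 130) (@Lb.g g8 (@Lb.g g9 (@Lb.g g10 (@Lb.g g11 (@Lb.r r532 (@Lb.r r295 (@Lb.r r357 (@Lb.r r666 (@Lb.r r644 (@Lb.d (nat_lit 9) (nat_lit 1) (nat_lit 68) (@Lb.fp (nat_lit 9) t2))))))))))))
noncomputable def l28505 : Lb := (@Lb.d (nat_lit 4) (nat_lit 256) (nat_lit 73) (@Lb.g g8 (@Lb.g g9 (@Lb.g g10 (@Lb.g g11 (@Lb.r r1699 (@Lb.r r164 (@Lb.r r2709 (@Lb.r r2198 (@Lb.r r2084 (@Lb.d (nat_lit 289) (nat_lit 162) (nat_lit 418) (@Lb.fp (nat_lit 9) t791))))))))))))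
noncomputable def l28506 : Lb := (@Lb.d (nat_lit 2) (nat_lit 642) (nat_lit 2) (@Lb.g g8 (@Lb.g g9 (@Lb.g g10 (@Lb.g g11 (@Lb.r r676 (@Lb.r r423 (@Lb.r r98 (@Lb.r r2564 (@Lb.d (nat_lit 0) (nat_lit 9) (nat_lit 130) (@Lb.fp (nat_lit 9) t4156)))))))))))
noncomputable def l28507 : Lb := (@Lb.d (nat_lit 0) (nat_lit 256) (nat_lit 128) (@Lb.g g10 (@Lb.g g11 (@Lb.r r353 (@Lb.r r663 (@Lb.r r356 (@Lb.r r154 (@Lb.d (nat_lit 257) (nat_lit 0) (nat_lit 16) (@Lb.fp (nat_lit 3) t743)))))))))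
noncomputable def l28508 : Lb := (@Lb.d (nat_lit 160) (nat_lit 256) (nat_lit 128) (@Lb.g g10 (@Lb.g g11 (@Lb.r r264 (@Lb.r r279 (@Lb.r r593 (@Lb.r r418 (@Lb.d (nat_lit 97) (nat_lit 36) (nat_lit 101) (@Lb.fm (nat_lit 3) t2)))))))))
noncomputable def l28509 : Lb := (@Lb.g g8 (@Lb.g g11 (@Lb.r r2339 (@Lb.d (nat_lit 0) (nat_lit 128) (nat_lit 0) (@Lb.fm (nat_lit 3) t2243)))))
noncomputable def l28510 : Lb := (@Lb.d (nat_lit 1) (nat_lit 256) (nat_lit 128) (@Lb.g g8 (@Lb.g g11 (@Lb.r r353 (@Lb.r r667 (@Lb.r r664 (@Lb.r r154 (@Lb.d (nat_lit 257) (nat_lit 0) (nat_lit 154) (@Lb.fm (nat_lit 3) t743)))))))))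
noncomputable def l28511 : Lb := (@Lb.d (nat_lit 0) (nat_lit 2) (nat_lit 66) (@Lb.g g9 (@Lb.g g10 (@Lb.g g7 (@Lb.r r386 (@Lb.r r97 (@Lb.d (nat_lit 326) (nat_lit 10) (nat_lit 521) (@Lb.t (@Lb.fp (nat_lit 9) t1098)))))))))
noncomputable def l28512 : Lb := (@Lb.d (nat_lit 273) (nat_lit 2) (nat_lit 353) (@Lb.r r1092 (@Lb.r r330 (@Lb.r r2579 (@Lb.g g9 (@Lb.g g4 (@Lb.d (nat_lit 17) (nat_lit 98) (nat_lit 0) (@Lb.r r291 (@Lb.r r98 (@Lb.fm (nat_lit 3) t5))))))))))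
noncomputable def l28513 : Lb := (@Lb.d (nat_lit 2) (nat_lit 609) (nat_lit 0) (@Lb.g g8 (@Lb.g g5 (@Lb.r r322 (@Lb.r r1667 (@Lb.r r578 (@Lb.r r24 (@Lb.d (nat_lit 553) (nat_lit 0) (nat_lit 34) (@Lb.fp (nat_lit 3) t40)))))))))
noncomputable def l28514 : Lb := (@Lb.d (nat_lit 2) (nat_lit 353) (nat_lit 0) (@Lb.g g8 (@Lb.g g5 (@Lb.r r322 (@Lb.r r1667 (@Lb.r r578 (@Lb.r r24 (@Lb.d (nat_lit 553) (nat_lit 0) (nat_lit 100) (@Lb.fp (nat_lit 3) t40)))))))))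
noncomputable def l28515 : Lb := (@Lb.r r21 (@Lb.d (nat_lit 386) (nat_lit 264) (nat_lit 66) (@Lb.g g8 (@Lb.g g10 (@Lb.g g11 (@Lb.r r1419 (@Lb.r r101 (@Lb.r r410 (@Lb.d (nat_lit 8) (nat_lit 149) (nat_lit 649) (@Lb.t (@Lb.fm (nat_lit 9) t2443)))))))))))
noncomputable def l28516 : Lb := (@Lb.r r2311 (@Lb.r r2118 (@Lb.r r24 (@Lb.r r2085 (@Lb.d (nat_lit 5) (nat_lit 513) (nat_lit 0) (@Lb.fp (nat_lit 1) t51))))))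
noncomputable def l28517 : Lb := (@Lb.d (nat_lit 9) (nat_lit 258) (nat_lit 66) (@Lb.g g8 (@Lb.g g9 (@Lb.g g10 (@Lb.g g7 (@Lb.r r386 (@Lb.r r2073 (@Lb.d (nat_lit 265) (nat_lit 133) (nat_lit 10) (@Lb.fp (nat_lit 9) t45)))))))))
noncomputable def l28518 : Lb := (@Lb.d (nat_lit 9) (nat_lit 2) (nat_lit 66) (@Lb.g g8 (@Lb.g g9 (@Lb.g g10 (@Lb.g g7 (@Lb.r r386 (@Lb.r r2145 (@Lb.r r24 (@Lb.d (nat_lit 328) (nat_lit 73) (nat_lit 553) (@Lb.fp (nat_lit 9) t1150))))))))))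
noncomputable def l28519 : Lb := (@Lb.d (nat_lit 2) (nat_lit 514) (nat_lit 2) (@Lb.g g8 (@Lb.g g9 (@Lb.g g10 (@Lb.g g11 (@Lb.r r2595 (@Lb.r r2705 (@Lb.r r356 (@Lb.r r154 (@Lb.r r132 (@Lb.d (nat_lit 130) (nat_lit 2) (nat_lit 330) (@Lb.fp (nat_lit 9) t284))))))))))))
noncomputable def l28520 : Lb := (@Lb.d (nat_lit 8) (nat_lit 422) (nat_lit 6) (@Lb.r r21 (@Lb.r r2390 (@Lb.r r2731 (@Lb.g g6 (@Lb.g g5 (@Lb.g g4 (@Lb.d (nat_lit 549) (nat_lit 2) (nat_lit 0) (@Lb.t (@Lb.fm (nat_lit 9) t40))))))))))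
noncomputable def l28521 : Lb := (@Lb.d (nat_lit 4) (nat_lit 260) (nat_lit 0) (@Lb.g g8 (@Lb.g g9 (@Lb.g g10 (@Lb.r r1707 (@Lb.r r618 (@Lb.r r1049 (@Lb.d (nat_lit 521) (nat_lit 153) (nat_lit 537) (@Lb.t (@Lb.fp (nat_lit 9) t1369))))))))))
noncomputable def l28522 : Lb := (@Lb.d (nat_lit 4) (nat_lit 292) (nat_lit 132) (@Lb.g g8 (@Lb.g g9 (@Lb.g g10 (@Lb.g g11 (@Lb.r r2435 (@Lb.r r1441 (@Lb.r r2726 (@Lb.r r24 (@Lb.d (nat_lit 294) (nat_lit 89) (nat_lit 608) (@Lb.fm (nat_lit 9) t42)))))))))))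
noncomputable def l28523 : Lb := (@Lb.d (nat_lit 6) (nat_lit 165) (nat_lit 6) (@Lb.r r21 (@Lb.r r2390 (@Lb.r r2731 (@Lb.g g6 (@Lb.g g5 (@Lb.g g4 (@Lb.d (nat_lit 544) (nat_lit 1) (nat_lit 0) (@Lb.t (@Lb.fm (nat_lit 9) t40))))))))))
noncomputable def l28524 : Lb := (@Lb.d (nat_lit 2) (nat_lit 257) (nat_lit 130) (@Lb.g g8 (@Lb.g g9 (@Lb.g g10 (@Lb.g g11 (@Lb.r r1419 (@Lb.r r340 (@Lb.r r170 (@Lb.r r2217 (@Lb.r r1188 (@Lb.d (nat_lit 257) (nat_lit 73) (nat_lit 153) (@Lb.fp (nat_lit 9) t386))))))))))))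
noncomputable def l28525 : Lb := (@Lb.d (nat_lit 0) (nat_lit 32) (nat_lit 136) (@Lb.g g11 (@Lb.r r1444 (@Lb.r r421 (@Lb.r r2470 (@Lb.r r2395 (@Lb.d (nat_lit 544) (nat_lit 69) (nat_lit 422) (@Lb.t (@Lb.fp (nat_lit 3) t3737)))))))))
noncomputable def l28526 : Lb := (@Lb.d (nat_lit 353) (nat_lit 261) (nat_lit 84) (@Lb.r r82 (@Lb.r r421 (@Lb.r r2395 (@Lb.g g7 (@Lb.g g6 (@Lb.g g5 (@Lb.g g8 (@Lb.d (nat_lit 1) (nat_lit 2) (nat_lit 8) (@Lb.fp (nat_lit 9) t4364))))))))))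
noncomputable def l28527 : Lb := (@Lb.g g8 (@Lb.g g7 (@Lb.r r289 (@Lb.r r279 (@Lb.r r584 (@Lb.r r2150 (@Lb.d (nat_lit 5) (nat_lit 26) (nat_lit 272) (@Lb.fp (nat_lit 3) t5242))))))))
noncomputable def l28528 : Lb := (@Lb.r r21 (@Lb.r r70 (@Lb.d (nat_lit 129) (nat_lit 512) (nat_lit 256) (@Lb.g g8 (@Lb.g g7 (@Lb.r r1606 (@Lb.r r1557 (@Lb.r r2312 (@Lb.d (nat_lit 642) (nat_lit 0) (nat_lit 384) (@Lb.fm (nat_lit 3) t2389))))))))))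
noncomputable def l28529 : Lb := (@Lb.r r70 (@Lb.d (nat_lit 136) (nat_lit 65) (nat_lit 128) (@Lb.g g8 (@Lb.g g9 (@Lb.g g11 (@Lb.r r2347 (@Lb.r r1122 (@Lb.r r1300 (@Lb.d (nat_lit 136) (nat_lit 65) (nat_lit 128) (@Lb.t (@Lb.fm (nat_lit 9) t2493)))))))))))
noncomputable def l28530 : Lb := (@Lb.d (nat_lit 342) (nat_lit 609) (nat_lit 336) (@Lb.r r2324 (@Lb.r r617 (@Lb.r r1387 (@Lb.g g10 (@Lb.g g5 (@Lb.g g4 (@Lb.d (nat_lit 65) (nat_lit 6) (nat_lit 20) (@Lb.t (@Lb.fp (nat_lit 9) t982))))))))))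
noncomputable def l28531 : Lb := (@Lb.d (nat_lit 2) (nat_lit 9) (nat_lit 1) (@Lb.g g8 (@Lb.g g9 (@Lb.g g10 (@Lb.g g11 (@Lb.r r169 (@Lb.r r296 (@Lb.r r391 (@Lb.r r386 (@Lb.r r132 (@Lb.d (nat_lit 0) (nat_lit 10) (nat_lit 89) (@Lb.fm (nat_lit 9) t150))))))))))))
noncomputable def l28532 : Lb := (@Lb.r r70 (@Lb.r r263 (@Lb.d (nat_lit 521) (nat_lit 65) (nat_lit 0) (@Lb.g g4 (@Lb.g g9 (@Lb.r r1315 (@Lb.r r1122 (@Lb.d (nat_lit 1) (nat_lit 2) (nat_lit 0) (@Lb.fp (nat_lit 3) t1751)))))))))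
noncomputable def l28533 : Lb := (@Lb.r r82 (@Lb.d (nat_lit 38) (nat_lit 512) (nat_lit 0) (@Lb.g g8 (@Lb.g g9 (@Lb.r r2343 (@Lb.r r2198 (@Lb.r r2405 (@Lb.r r1300 (@Lb.d (nat_lit 326) (nat_lit 18) (nat_lit 73) (@Lb.fm (nat_lit 3) t644))))))))))
noncomputable def l28534 : Lb := (@Lb.r r82 (@Lb.d (nat_lit 136) (nat_lit 1) (nat_lit 64) (@Lb.g g8 (@Lb.g g9 (@Lb.g g11 (@Lb.r r299 (@Lb.r r2137 (@Lb.r r98 (@Lb.r r276 (@Lb.d (nat_lit 417) (nat_lit 132) (nat_lit 340) (@Lb.t (@Lb.fm (nat_lit 9) t5243))))))))))))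
noncomputable def l28535 : Lb := (@Lb.r r21 (@Lb.r r70 (@Lb.d (nat_lit 137) (nat_lit 256) (nat_lit 256) (@Lb.g g8 (@Lb.g g7 (@Lb.r r402 (@Lb.r r2581 (@Lb.r r360 (@Lb.d (nat_lit 680) (nat_lit 40) (nat_lit 390) (@Lb.fp (nat_lit 3) t2160))))))))))
noncomputable def l28536 : Lb := (@Lb.r r82 (@Lb.d (nat_lit 38) (nat_lit 512) (nat_lit 0) (@Lb.g g8 (@Lb.g g9 (@Lb.r r2343 (@Lb.r r2198 (@Lb.r r2405 (@Lb.r r1300 (@Lb.d (nat_lit 325) (nat_lit 18) (nat_lit 137) (@Lb.fm (nat_lit 3) t2584))))))))))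
noncomputable def l28537 : Lb := (@Lb.r r21 (@Lb.r r70 (@Lb.d (nat_lit 658) (nat_lit 0) (nat_lit 0) (@Lb.g g4 (@Lb.r r74 (@Lb.r r25 (@Lb.d (nat_lit 354) (nat_lit 0) (nat_lit 0) (@Lb.t (@Lb.fm (nat_lit 3) t647)))))))))
noncomputable def l28538 : Lb := (@Lb.r r82 (@Lb.d (nat_lit 2) (nat_lit 289) (nat_lit 64) (@Lb.g g8 (@Lb.g g9 (@Lb.g g11 (@Lb.r r1543 (@Lb.r r2152 (@Lb.r r2438 (@Lb.r r1361 (@Lb.d (nat_lit 6) (nat_lit 4) (nat_lit 345) (@Lb.t (@Lb.fp (nat_lit 9) t1006))))))))))))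
noncomputable def l28539 : Lb := (@Lb.d (nat_lit 644) (nat_lit 402) (nat_lit 272) (@Lb.r r289 (@Lb.r r279 (@Lb.r r584 (@Lb.g g7 (@Lb.g g10 (@Lb.g g5 (@Lb.d (nat_lit 0) (nat_lit 0) (nat_lit 64) (@Lb.t (@Lb.fm (nat_lit 9) t5244))))))))))
noncomputable def l28540 : Lb := (@Lb.r r21 (@Lb.r r323 (@Lb.d (nat_lit 5) (nat_lit 520) (nat_lit 0) (@Lb.g g8 (@Lb.g g10 (@Lb.r r395 (@Lb.r r101 (@Lb.r r410 (@Lb.d (nat_lit 1) (nat_lit 24) (nat_lit 85) (@Lb.fm (nat_lit 3) t221))))))))))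
noncomputable def l28541 : Lb := (@Lb.d (nat_lit 644) (nat_lit 676) (nat_lit 346) (@Lb.r r289 (@Lb.r r279 (@Lb.r r584 (@Lb.g g10 (@Lb.d (nat_lit 0) (nat_lit 8) (nat_lit 10) (@Lb.r r387 (@Lb.t (@Lb.fp (nat_lit 3) t5245)))))))))
noncomputable def l28542 : Lb := (@Lb.d (nat_lit 145) (nat_lit 258) (nat_lit 128) (@Lb.g g8 (@Lb.g g9 (@Lb.g g10 (@Lb.g g11 (@Lb.r r548 (@Lb.r r1319 (@Lb.r r1162 (@Lb.r r405 (@Lb.r r2084 (@Lb.d (nat_lit 74) (nat_lit 69) (nat_lit 144) (@Lb.fm (nat_lit 9) t1686))))))))))))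
noncomputable def l28543 : Lb := (@Lb.d (nat_lit 9) (nat_lit 1) (nat_lit 128) (@Lb.g g8 (@Lb.g g9 (@Lb.g g10 (@Lb.g g11 (@Lb.r r2730 (@Lb.r r420 (@Lb.r r283 (@Lb.r r1577 (@Lb.r r2068 (@Lb.d (nat_lit 681) (nat_lit 161) (nat_lit 90) (@Lb.fp (nat_lit 9) t4954))))))))))))
noncomputable def l28544 : Lb := (@Lb.d (nat_lit 150) (nat_lit 512) (nat_lit 74) (@Lb.g g8 (@Lb.g g9 (@Lb.g g10 (@Lb.g g11 (@Lb.r r679 (@Lb.r r1425 (@Lb.r r1688 (@Lb.r r2202 (@Lb.d (nat_lit 105) (nat_lit 69) (nat_lit 148) (@Lb.fm (nat_lit 9) t5246)))))))))))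
noncomputable def l28545 : Lb := (@Lb.r r21 (@Lb.r r70 (@Lb.r r263 (@Lb.d (nat_lit 2) (nat_lit 256) (nat_lit 0) (@Lb.g g8 (@Lb.r r267 (@Lb.r r101 (@Lb.r r410 (@Lb.d (nat_lit 98) (nat_lit 0) (nat_lit 16) (@Lb.t (@Lb.fp (nat_lit 3) t573)))))))))))
noncomputable def l28546 : Lb := (@Lb.d (nat_lit 129) (nat_lit 258) (nat_lit 64) (@Lb.g g8 (@Lb.g g9 (@Lb.g g11 (@Lb.r r520 (@Lb.r r2331 (@Lb.r r2178 (@Lb.r r2657 (@Lb.r r2084 (@Lb.d (nat_lit 17) (nat_lit 21) (nat_lit 26) (@Lb.t (@Lb.fp (nat_lit 9) t5247))))))))))))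
noncomputable def l28547 : Lb := (@Lb.r r21 (@Lb.r r70 (@Lb.r r2311 (@Lb.d (nat_lit 2) (nat_lit 256) (nat_lit 0) (@Lb.g g8 (@Lb.r r101 (@Lb.r r2450 (@Lb.d (nat_lit 102) (nat_lit 64) (nat_lit 16) (@Lb.t (@Lb.fp (nat_lit 3) t5248))))))))))
noncomputable def l28548 : Lb := (@Lb.d (nat_lit 2) (nat_lit 294) (nat_lit 74) (@Lb.g g8 (@Lb.g g9 (@Lb.g g10 (@Lb.g g11 (@Lb.r r683 (@Lb.r r362 (@Lb.r r1561 (@Lb.d (nat_lit 585) (nat_lit 137) (nat_lit 37) (@Lb.fm (nat_lit 9) t1370))))))))))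
noncomputable def l28549 : Lb := (@Lb.d (nat_lit 2) (nat_lit 522) (nat_lit 161) (@Lb.g g8 (@Lb.g g9 (@Lb.g g6 (@Lb.g g11 (@Lb.r r1643 (@Lb.r r1633 (@Lb.r r24 (@Lb.d (nat_lit 265) (nat_lit 153) (nat_lit 280) (@Lb.fp (nat_lit 9) t1923))))))))))
noncomputable def l28550 : Lb := (@Lb.d (nat_lit 10) (nat_lit 512) (nat_lit 130) (@Lb.g g8 (@Lb.g g10 (@Lb.g g11 (@Lb.r r602 (@Lb.r r1611 (@Lb.r r149 (@Lb.r r1636 (@Lb.d (nat_lit 261) (nat_lit 25) (nat_lit 258) (@Lb.t (@Lb.fp (nat_lit 9) t461)))))))))))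
noncomputable def l28551 : Lb := (@Lb.r r21 (@Lb.r r263 (@Lb.d (nat_lit 290) (nat_lit 4) (nat_lit 1) (@Lb.g g8 (@Lb.g g10 (@Lb.r r665 (@Lb.r r1367 (@Lb.r r1674 (@Lb.d (nat_lit 640) (nat_lit 0) (nat_lit 406) (@Lb.fp (nat_lit 3) t2443))))))))))
noncomputable def l28552 : Lb := (@Lb.d (nat_lit 0) (nat_lit 0) (nat_lit 128) (@Lb.g g9 (@Lb.g g7 (@Lb.d (nat_lit 0) (nat_lit 0) (nat_lit 64) (@Lb.fp (nat_lit 3) t2)))))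
noncomputable def l28553 : Lb := (@Lb.d (nat_lit 352) (nat_lit 346) (nat_lit 294) (@Lb.r r2657 (@Lb.r r1430 (@Lb.r r619 (@Lb.g g5 (@Lb.g g4 (@Lb.d (nat_lit 1) (nat_lit 5) (nat_lit 0) (@Lb.r r98 (@Lb.fp (nat_lit 3) t40)))))))))
noncomputable def l28554 : Lb := (@Lb.g g9 (@Lb.g g7 (@Lb.d (nat_lit 0) (nat_lit 256) (nat_lit 133) (@Lb.fp (nat_lit 3) t2))))
noncomputable def l28555 : Lb := (@Lb.d (nat_lit 0) (nat_lit 256) (nat_lit 66) (@Lb.g g9 (@Lb.g g10 (@Lb.g g7 (@Lb.r r386 (@Lb.d (nat_lit 0) (nat_lit 5) (nat_lit 74) (@Lb.t (@Lb.fm (nat_lit 9) t45))))))))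
noncomputable def l28556 : Lb := (@Lb.d (nat_lit 0) (nat_lit 256) (nat_lit 136) (@Lb.g g11 (@Lb.r r24 (@Lb.r r101 (@Lb.d (nat_lit 0) (nat_lit 154) (nat_lit 265) (@Lb.t (@Lb.fp (nat_lit 3) t1174)))))))
noncomputable def l28557 : Lb := (@Lb.d (nat_lit 9) (nat_lit 2) (nat_lit 64) (@Lb.g g8 (@Lb.g g9 (@Lb.g g11 (@Lb.r r356 (@Lb.r r1307 (@Lb.r r2178 (@Lb.r r533 (@Lb.r r1060 (@Lb.d (nat_lit 658) (nat_lit 129) (nat_lit 584) (@Lb.t (@Lb.fp (nat_lit 9) t229))))))))))))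
noncomputable def l28558 : Lb := (@Lb.d (nat_lit 9) (nat_lit 546) (nat_lit 0) (@Lb.g g8 (@Lb.g g9 (@Lb.r r2404 (@Lb.r r2331 (@Lb.r r2178 (@Lb.r r549 (@Lb.d (nat_lit 410) (nat_lit 18) (nat_lit 6) (@Lb.fm (nat_lit 3) t229)))))))))
noncomputable def l28559 : Lb := (@Lb.d (nat_lit 5) (nat_lit 130) (nat_lit 338) (@Lb.r r359 (@Lb.r r676 (@Lb.r r150 (@Lb.g g5 (@Lb.g g4 (@Lb.d (nat_lit 16) (nat_lit 65) (nat_lit 0) (@Lb.r r291 (@Lb.r r98 (@Lb.fp (nat_lit 3) t217))))))))))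
noncomputable def l28560 : Lb := (@Lb.r r323 (@Lb.d (nat_lit 2) (nat_lit 521) (nat_lit 1) (@Lb.g g8 (@Lb.g g9 (@Lb.g g10 (@Lb.r r401 (@Lb.r r299 (@Lb.r r420 (@Lb.r r102 (@Lb.d (nat_lit 16) (nat_lit 4) (nat_lit 152) (@Lb.t (@Lb.fm (nat_lit 9) t699))))))))))))
noncomputable def l28561 : Lb := (@Lb.r r70 (@Lb.d (nat_lit 0) (nat_lit 257) (nat_lit 128) (@Lb.g g8 (@Lb.g g9 (@Lb.g g11 (@Lb.r r1579 (@Lb.r r1410 (@Lb.r r1169 (@Lb.r r612 (@Lb.d (nat_lit 266) (nat_lit 4) (nat_lit 33) (@Lb.t (@Lb.fm (nat_lit 9) t152))))))))))))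
noncomputable def l28562 : Lb := (@Lb.d (nat_lit 2) (nat_lit 513) (nat_lit 0) (@Lb.g g8 (@Lb.g g9 (@Lb.r r168 (@Lb.r r41 (@Lb.r r2084 (@Lb.d (nat_lit 537) (nat_lit 74) (nat_lit 18) (@Lb.fm (nat_lit 3) t743))))))))
noncomputable def l28563 : Lb := (@Lb.d (nat_lit 65) (nat_lit 576) (nat_lit 65) (@Lb.r r264 (@Lb.r r82 (@Lb.r r599 (@Lb.g g5 (@Lb.g g4 (@Lb.d (nat_lit 65) (nat_lit 9) (nat_lit 0) (@Lb.r r291 (@Lb.r r98 (@Lb.fm (nat_lit 3) t5))))))))))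
noncomputable def l28564 : Lb := (@Lb.r r70 (@Lb.d (nat_lit 0) (nat_lit 513) (nat_lit 128) (@Lb.g g8 (@Lb.g g9 (@Lb.g g11 (@Lb.r r1579 (@Lb.r r1410 (@Lb.r r1169 (@Lb.r r612 (@Lb.d (nat_lit 265) (nat_lit 4) (nat_lit 33) (@Lb.t (@Lb.fm (nat_lit 9) t152))))))))))))
noncomputable def l28565 : Lb := (@Lb.d (nat_lit 106) (nat_lit 293) (nat_lit 4) (@Lb.g g8 (@Lb.g g9 (@Lb.g g10 (@Lb.g g11 (@Lb.r r427 (@Lb.r r1634 (@Lb.r r1688 (@Lb.r r405 (@Lb.d (nat_lit 521) (nat_lit 5) (nat_lit 552) (@Lb.fm (nat_lit 9) t3968)))))))))))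
noncomputable def l28566 : Lb := (@Lb.d (nat_lit 2) (nat_lit 538) (nat_lit 585) (@Lb.g g8 (@Lb.g g9 (@Lb.g g10 (@Lb.g g11 (@Lb.r r1321 (@Lb.r r360 (@Lb.r r582 (@Lb.r r132 (@Lb.d (nat_lit 656) (nat_lit 5) (nat_lit 153) (@Lb.fp (nat_lit 9) t1312)))))))))))
noncomputable def l28567 : Lb := (@Lb.d (nat_lit 262) (nat_lit 297) (nat_lit 518) (@Lb.r r2069 (@Lb.r r2390 (@Lb.r r643 (@Lb.g g7 (@Lb.g g6 (@Lb.g g5 (@Lb.g g4 (@Lb.d (nat_lit 8) (nat_lit 1) (nat_lit 133) (@Lb.fm (nat_lit 9) t1340))))))))))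
noncomputable def l28568 : Lb := (@Lb.d (nat_lit 2) (nat_lit 2) (nat_lit 73) (@Lb.g g8 (@Lb.g g9 (@Lb.g g10 (@Lb.g g11 (@Lb.r r427 (@Lb.r r2440 (@Lb.r r2122 (@Lb.r r1125 (@Lb.d (nat_lit 521) (nat_lit 129) (nat_lit 168) (@Lb.fp (nat_lit 9) t3484)))))))))))
noncomputable def l28569 : Lb := (@Lb.r r82 (@Lb.r r275 (@Lb.d (nat_lit 34) (nat_lit 26) (nat_lit 0) (@Lb.g g8 (@Lb.g g9 (@Lb.r r427 (@Lb.r r582 (@Lb.r r408 (@Lb.d (nat_lit 408) (nat_lit 25) (nat_lit 169) (@Lb.fp (nat_lit 3) t5249))))))))))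
noncomputable def l28570 : Lb := (@Lb.d (nat_lit 0) (nat_lit 514) (nat_lit 73) (@Lb.g g8 (@Lb.g g9 (@Lb.g g10 (@Lb.g g11 (@Lb.r r427 (@Lb.r r2440 (@Lb.r r2122 (@Lb.r r1125 (@Lb.d (nat_lit 521) (nat_lit 129) (nat_lit 168) (@Lb.fp (nat_lit 9) t3484)))))))))))
noncomputable def l28571 : Lb := (@Lb.d (nat_lit 4) (nat_lit 512) (nat_lit 66) (@Lb.g g8 (@Lb.g g9 (@Lb.g g10 (@Lb.g g11 (@Lb.r r2327 (@Lb.r r2666 (@Lb.r r2585 (@Lb.d (nat_lit 330) (nat_lit 170) (nat_lit 145) (@Lb.fp (nat_lit 9) t324))))))))))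
noncomputable def l28572 : Lb := (@Lb.r r81 (@Lb.r r323 (@Lb.d (nat_lit 130) (nat_lit 512) (nat_lit 2) (@Lb.g g8 (@Lb.g g10 (@Lb.r r583 (@Lb.r r2081 (@Lb.r r2312 (@Lb.d (nat_lit 673) (nat_lit 136) (nat_lit 640) (@Lb.fp (nat_lit 3) t2060))))))))))
noncomputable def l28573 : Lb := (@Lb.r r323 (@Lb.d (nat_lit 130) (nat_lit 265) (nat_lit 1) (@Lb.g g8 (@Lb.g g9 (@Lb.g g10 (@Lb.r r599 (@Lb.r r98 (@Lb.r r361 (@Lb.r r2312 (@Lb.d (nat_lit 402) (nat_lit 9) (nat_lit 641) (@Lb.t (@Lb.fp (nat_lit 9) t3977))))))))))))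
noncomputable def l28574 : Lb := (@Lb.d (nat_lit 2) (nat_lit 554) (nat_lit 133) (@Lb.g g8 (@Lb.g g9 (@Lb.g g10 (@Lb.g g11 (@Lb.r r2435 (@Lb.r r642 (@Lb.r r356 (@Lb.r r277 (@Lb.r r1060 (@Lb.d (nat_lit 128) (nat_lit 5) (nat_lit 404) (@Lb.fm (nat_lit 9) t4384))))))))))))
noncomputable def l28575 : Lb := (@Lb.d (nat_lit 8) (nat_lit 298) (nat_lit 133) (@Lb.g g9 (@Lb.g g10 (@Lb.g g11 (@Lb.r r2435 (@Lb.r r642 (@Lb.r r2584 (@Lb.r r1429 (@Lb.d (nat_lit 164) (nat_lit 80) (nat_lit 386) (@Lb.t (@Lb.fm (nat_lit 9) t4384)))))))))))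
noncomputable def l28576 : Lb := (@Lb.r r82 (@Lb.r r275 (@Lb.d (nat_lit 32) (nat_lit 26) (nat_lit 0) (@Lb.g g8 (@Lb.g g9 (@Lb.r r427 (@Lb.r r582 (@Lb.r r388 (@Lb.d (nat_lit 610) (nat_lit 2) (nat_lit 169) (@Lb.fm (nat_lit 3) t819))))))))))
noncomputable def l28577 : Lb := (@Lb.d (nat_lit 512) (nat_lit 517) (nat_lit 17) (@Lb.r r101 (@Lb.g g4 (@Lb.t (@Lb.fp (nat_lit 3) t253)))))
noncomputable def l28578 : Lb := (@Lb.d (nat_lit 1) (nat_lit 512) (nat_lit 130) (@Lb.g g8 (@Lb.g g9 (@Lb.g g10 (@Lb.g g11 (@Lb.r r2730 (@Lb.r r648 (@Lb.r r539 (@Lb.r r289 (@Lb.r r36 (@Lb.d (nat_lit 641) (nat_lit 36) (nat_lit 321) (@Lb.fp (nat_lit 9) t242))))))))))))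
noncomputable def l28579 : Lb := (@Lb.r r1291 (@Lb.r r24 (@Lb.d (nat_lit 581) (nat_lit 289) (nat_lit 256) (@Lb.fm (nat_lit 1) t5250))))
noncomputable def l28580 : Lb := (@Lb.d (nat_lit 8) (nat_lit 514) (nat_lit 73) (@Lb.g g9 (@Lb.g g10 (@Lb.g g11 (@Lb.r r2726 (@Lb.r r328 (@Lb.r r535 (@Lb.r r289 (@Lb.d (nat_lit 640) (nat_lit 25) (nat_lit 130) (@Lb.t (@Lb.fm (nat_lit 9) t259)))))))))))
noncomputable def l28581 : Lb := (@Lb.r r1291 (@Lb.r r24 (@Lb.d (nat_lit 586) (nat_lit 34) (nat_lit 256) (@Lb.fm (nat_lit 1) t5250))))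
noncomputable def l28582 : Lb := (@Lb.d (nat_lit 8) (nat_lit 514) (nat_lit 0) (@Lb.g g9 (@Lb.g g6 (@Lb.r r1319 (@Lb.r r24 (@Lb.d (nat_lit 522) (nat_lit 1) (nat_lit 0) (@Lb.fm (nat_lit 3) t441)))))))
noncomputable def l28583 : Lb := (@Lb.d (nat_lit 9) (nat_lit 513) (nat_lit 73) (@Lb.g g8 (@Lb.g g9 (@Lb.g g10 (@Lb.g g11 (@Lb.r r148 (@Lb.r r102 (@Lb.r r357 (@Lb.r r667 (@Lb.r r644 (@Lb.d (nat_lit 4) (nat_lit 1) (nat_lit 10) (@Lb.fp (nat_lit 9) t2))))))))))))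
noncomputable def l28584 : Lb := (@Lb.d (nat_lit 100) (nat_lit 326) (nat_lit 576) (@Lb.r r615 (@Lb.r r1617 (@Lb.r r2390 (@Lb.g g7 (@Lb.g g6 (@Lb.g g4 (@Lb.d (nat_lit 613) (nat_lit 16) (nat_lit 64) (@Lb.r r25 (@Lb.t (@Lb.fm (nat_lit 9) t4257)))))))))))
noncomputable def l28585 : Lb := (@Lb.d (nat_lit 641) (nat_lit 256) (nat_lit 0) (@Lb.g g4 (@Lb.r r579 (@Lb.r r402 (@Lb.r r2145 (@Lb.d (nat_lit 9) (nat_lit 2) (nat_lit 0) (@Lb.t (@Lb.fp (nat_lit 3) t2659))))))))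
noncomputable def l28586 : Lb := (@Lb.d (nat_lit 100) (nat_lit 582) (nat_lit 576) (@Lb.r r615 (@Lb.r r1617 (@Lb.r r2390 (@Lb.g g7 (@Lb.g g6 (@Lb.g g4 (@Lb.d (nat_lit 612) (nat_lit 16) (nat_lit 64) (@Lb.r r25 (@Lb.t (@Lb.fm (nat_lit 9) t2175)))))))))))
noncomputable def l28587 : Lb := (@Lb.r r21 (@Lb.d (nat_lit 2) (nat_lit 264) (nat_lit 137) (@Lb.g g8 (@Lb.g g10 (@Lb.g g11 (@Lb.r r1707 (@Lb.r r2341 (@Lb.r r1640 (@Lb.r r422 (@Lb.d (nat_lit 100) (nat_lit 72) (nat_lit 280) (@Lb.t (@Lb.fm (nat_lit 9) t51))))))))))))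
noncomputable def l28588 : Lb := (@Lb.d (nat_lit 0) (nat_lit 272) (nat_lit 137) (@Lb.g g8 (@Lb.g g9 (@Lb.g g10 (@Lb.g g11 (@Lb.r r2391 (@Lb.r r358 (@Lb.r r1112 (@Lb.r r2085 (@Lb.d (nat_lit 409) (nat_lit 97) (nat_lit 601) (@Lb.fp (nat_lit 9) t4011)))))))))))
noncomputable def l28589 : Lb := (@Lb.d (nat_lit 641) (nat_lit 10) (nat_lit 40) (@Lb.g g4 (@Lb.g g9 (@Lb.g g6 (@Lb.r r1427 (@Lb.r r1633 (@Lb.d (nat_lit 8) (nat_lit 25) (nat_lit 280) (@Lb.t (@Lb.fp (nat_lit 9) t1762)))))))))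
noncomputable def l28590 : Lb := (@Lb.r r82 (@Lb.d (nat_lit 2) (nat_lit 289) (nat_lit 128) (@Lb.g g8 (@Lb.g g9 (@Lb.g g11 (@Lb.r r2475 (@Lb.r r386 (@Lb.r r1060 (@Lb.r r1173 (@Lb.d (nat_lit 69) (nat_lit 64) (nat_lit 514) (@Lb.t (@Lb.fp (nat_lit 9) t644))))))))))))
noncomputable def l28591 : Lb := (@Lb.d (nat_lit 134) (nat_lit 258) (nat_lit 130) (@Lb.g g8 (@Lb.g g9 (@Lb.g g10 (@Lb.g g11 (@Lb.r r1443 (@Lb.r r2726 (@Lb.r r344 (@Lb.r r1429 (@Lb.r r2084 (@Lb.d (nat_lit 105) (nat_lit 37) (nat_lit 641) (@Lb.fp (nat_lit 9) t5251))))))))))))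
noncomputable def l28592 : Lb := (@Lb.r r21 (@Lb.r r70 (@Lb.d (nat_lit 389) (nat_lit 256) (nat_lit 128) (@Lb.g g8 (@Lb.g g11 (@Lb.r r1419 (@Lb.r r402 (@Lb.r r97 (@Lb.d (nat_lit 581) (nat_lit 9) (nat_lit 530) (@Lb.fm (nat_lit 3) t644))))))))))
noncomputable def l28593 : Lb := (@Lb.d (nat_lit 618) (nat_lit 341) (nat_lit 328) (@Lb.r r1385 (@Lb.r r1320 (@Lb.r r599 (@Lb.g g6 (@Lb.g g5 (@Lb.d (nat_lit 0) (nat_lit 18) (nat_lit 33) (@Lb.r r387 (@Lb.fp (nat_lit 3) t3208)))))))))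
noncomputable def l28594 : Lb := (@Lb.d (nat_lit 362) (nat_lit 277) (nat_lit 360) (@Lb.r r1432 (@Lb.r r81 (@Lb.r r2631 (@Lb.g g6 (@Lb.g g4 (@Lb.d (nat_lit 66) (nat_lit 8) (nat_lit 1) (@Lb.r r387 (@Lb.r r25 (@Lb.fm (nat_lit 3) t1751))))))))))
noncomputable def l28595 : Lb := (@Lb.d (nat_lit 537) (nat_lit 582) (nat_lit 70) (@Lb.r r68 (@Lb.r r74 (@Lb.r r580 (@Lb.r r1367 (@Lb.g g7 (@Lb.g g6 (@Lb.g g5 (@Lb.g g4 (@Lb.d (nat_lit 1) (nat_lit 129) (nat_lit 8) (@Lb.fp (nat_lit 9) t242)))))))))))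
noncomputable def l28596 : Lb := (@Lb.r r82 (@Lb.d (nat_lit 2) (nat_lit 266) (nat_lit 128) (@Lb.g g8 (@Lb.g g9 (@Lb.g g11 (@Lb.r r1707 (@Lb.r r1414 (@Lb.r r664 (@Lb.r r421 (@Lb.d (nat_lit 421) (nat_lit 37) (nat_lit 522) (@Lb.t (@Lb.fm (nat_lit 9) t98))))))))))))
noncomputable def l28597 : Lb := (@Lb.d (nat_lit 34) (nat_lit 1) (nat_lit 100) (@Lb.r r70 (@Lb.r r392 (@Lb.r r599 (@Lb.g g6 (@Lb.g g5 (@Lb.g g4 (@Lb.d (nat_lit 2) (nat_lit 22) (nat_lit 2) (@Lb.r r387 (@Lb.t (@Lb.fp (nat_lit 9) t594)))))))))))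
noncomputable def l28598 : Lb := (@Lb.r r323 (@Lb.d (nat_lit 9) (nat_lit 674) (nat_lit 2) (@Lb.g g8 (@Lb.g g9 (@Lb.g g10 (@Lb.r r599 (@Lb.r r392 (@Lb.r r74 (@Lb.d (nat_lit 17) (nat_lit 4) (nat_lit 153) (@Lb.t (@Lb.fm (nat_lit 9) t221)))))))))))
noncomputable def l28599 : Lb := (@Lb.r r21 (@Lb.r r263 (@Lb.d (nat_lit 17) (nat_lit 512) (nat_lit 0) (@Lb.g g8 (@Lb.g g10 (@Lb.r r2212 (@Lb.r r101 (@Lb.r r402 (@Lb.r r2627 (@Lb.d (nat_lit 0) (nat_lit 153) (nat_lit 642) (@Lb.fp (nat_lit 3) t644)))))))))))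
noncomputable def l28600 : Lb := (@Lb.d (nat_lit 2) (nat_lit 256) (nat_lit 130) (@Lb.g g8 (@Lb.g g10 (@Lb.g g11 (@Lb.r r2691 (@Lb.r r578 (@Lb.d (nat_lit 0) (nat_lit 81) (nat_lit 153) (@Lb.t (@Lb.fp (nat_lit 9) t885)))))))))
noncomputable def l28601 : Lb := (@Lb.d (nat_lit 640) (nat_lit 320) (nat_lit 128) (@Lb.r r1169 (@Lb.r r1682 (@Lb.r r2723 (@Lb.r r657 (@Lb.g g4 (@Lb.d (nat_lit 9) (nat_lit 0) (nat_lit 0) (@Lb.t (@Lb.fm (nat_lit 3) t3205)))))))))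
noncomputable def l28602 : Lb := (@Lb.r r260 (@Lb.r r273 (@Lb.d (nat_lit 0) (nat_lit 272) (nat_lit 578) (@Lb.g g10 (@Lb.g g7 (@Lb.r r386 (@Lb.r r101 (@Lb.r r1048 (@Lb.d (nat_lit 98) (nat_lit 0) (nat_lit 554) (@Lb.fm (nat_lit 3) t1244))))))))))
noncomputable def l28603 : Lb := (@Lb.d (nat_lit 645) (nat_lit 0) (nat_lit 73) (@Lb.g g4 (@Lb.g g9 (@Lb.g g10 (@Lb.g g11 (@Lb.r r677 (@Lb.r r1443 (@Lb.r r2122 (@Lb.d (nat_lit 585) (nat_lit 36) (nat_lit 360) (@Lb.fp (nat_lit 9) t3189))))))))))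
noncomputable def l28604 : Lb := (@Lb.d (nat_lit 0) (nat_lit 576) (nat_lit 64) (@Lb.r r37 (@Lb.r r1304 (@Lb.r r2375 (@Lb.r r2626 (@Lb.g g6 (@Lb.r r145 (@Lb.r r132 (@Lb.t (@Lb.fm (nat_lit 3) t803))))))))))
noncomputable def l28605 : Lb := (@Lb.d (nat_lit 0) (nat_lit 65) (nat_lit 320) (@Lb.r r1284 (@Lb.r r322 (@Lb.r r659 (@Lb.r r578 (@Lb.g g5 (@Lb.d (nat_lit 0) (nat_lit 134) (nat_lit 0) (@Lb.t (@Lb.fp (nat_lit 3) t1754)))))))))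
noncomputable def l28606 : Lb := (@Lb.g g4 (@Lb.r r2311 (@Lb.r r601 (@Lb.r r1624 (@Lb.r r2150 (@Lb.d (nat_lit 256) (nat_lit 512) (nat_lit 69) (@Lb.t (@Lb.fp (nat_lit 3) t5252))))))))
noncomputable def l28607 : Lb := (@Lb.d (nat_lit 1) (nat_lit 408) (nat_lit 148) (@Lb.r r2371 (@Lb.r r658 (@Lb.r r101 (@Lb.g g7 (@Lb.g g6 (@Lb.g g4 (@Lb.d (nat_lit 612) (nat_lit 0) (nat_lit 64) (@Lb.r r25 (@Lb.t (@Lb.fp (nat_lit 9) t2017)))))))))))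
noncomputable def l28608 : Lb := (@Lb.d (nat_lit 529) (nat_lit 512) (nat_lit 74) (@Lb.g g4 (@Lb.g g9 (@Lb.g g10 (@Lb.g g11 (@Lb.r r2695 (@Lb.r r1602 (@Lb.d (nat_lit 80) (nat_lit 0) (nat_lit 168) (@Lb.fp (nat_lit 9) t2491)))))))))
noncomputable def l28609 : Lb := (@Lb.d (nat_lit 2) (nat_lit 322) (nat_lit 64) (@Lb.g g8 (@Lb.g g9 (@Lb.g g10 (@Lb.g g11 (@Lb.r r411 (@Lb.r r72 (@Lb.r r102 (@Lb.r r2180 (@Lb.d (nat_lit 409) (nat_lit 129) (nat_lit 425) (@Lb.fm (nat_lit 9) t2607)))))))))))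
noncomputable def l28610 : Lb := (@Lb.d (nat_lit 137) (nat_lit 514) (nat_lit 2) (@Lb.g g8 (@Lb.g g9 (@Lb.g g10 (@Lb.r r297 (@Lb.r r599 (@Lb.r r386 (@Lb.r r84 (@Lb.d (nat_lit 22) (nat_lit 80) (nat_lit 666) (@Lb.t (@Lb.fp (nat_lit 9) t2231)))))))))))
noncomputable def l28611 : Lb := (@Lb.d (nat_lit 0) (nat_lit 544) (nat_lit 64) (@Lb.g g11 (@Lb.r r2337 (@Lb.r r1363 (@Lb.r r2658 (@Lb.r r36 (@Lb.d (nat_lit 5) (nat_lit 64) (nat_lit 84) (@Lb.t (@Lb.fm (nat_lit 3) t1242)))))))))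
noncomputable def l28612 : Lb := (@Lb.r r21 (@Lb.d (nat_lit 33) (nat_lit 512) (nat_lit 1) (@Lb.g g8 (@Lb.g g10 (@Lb.r r1691 (@Lb.r r1381 (@Lb.r r2202 (@Lb.r r2372 (@Lb.d (nat_lit 548) (nat_lit 100) (nat_lit 330) (@Lb.fp (nat_lit 3) t1751))))))))))
noncomputable def l28613 : Lb := (@Lb.r r20 (@Lb.r r82 (@Lb.d (nat_lit 0) (nat_lit 417) (nat_lit 72) (@Lb.g g5 (@Lb.g g11 (@Lb.r r1624 (@Lb.r r2438 (@Lb.r r1611 (@Lb.d (nat_lit 608) (nat_lit 6) (nat_lit 512) (@Lb.fm (nat_lit 3) t981))))))))))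
noncomputable def l28614 : Lb := (@Lb.d (nat_lit 402) (nat_lit 578) (nat_lit 548) (@Lb.r r1297 (@Lb.r r1315 (@Lb.r r405 (@Lb.g g7 (@Lb.g g10 (@Lb.g g5 (@Lb.g g4 (@Lb.d (nat_lit 8) (nat_lit 0) (nat_lit 145) (@Lb.fm (nat_lit 9) t1222))))))))))
noncomputable def l28615 : Lb := (@Lb.d (nat_lit 6) (nat_lit 146) (nat_lit 161) (@Lb.r r68 (@Lb.r r154 (@Lb.r r660 (@Lb.r r81 (@Lb.g g11 (@Lb.g g6 (@Lb.g g5 (@Lb.g g4 (@Lb.d (nat_lit 1) (nat_lit 1) (nat_lit 129) (@Lb.fp (nat_lit 9) t50)))))))))))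
noncomputable def l28616 : Lb := (@Lb.r r289 (@Lb.r r535 (@Lb.r r356 (@Lb.r r154 (@Lb.d (nat_lit 0) (nat_lit 64) (nat_lit 0) (@Lb.fm (nat_lit 1) t743))))))
noncomputable def l28617 : Lb := (@Lb.d (nat_lit 2) (nat_lit 2) (nat_lit 73) (@Lb.g g8 (@Lb.g g9 (@Lb.g g10 (@Lb.g g11 (@Lb.r r427 (@Lb.r r356 (@Lb.r r154 (@Lb.r r1109 (@Lb.r r2212 (@Lb.d (nat_lit 553) (nat_lit 9) (nat_lit 2) (@Lb.fm (nat_lit 9) t4205))))))))))))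
noncomputable def l28618 : Lb := (@Lb.d (nat_lit 66) (nat_lit 512) (nat_lit 64) (@Lb.r r579 (@Lb.r r402 (@Lb.r r85 (@Lb.g g5 (@Lb.g g4 (@Lb.d (nat_lit 1) (nat_lit 2) (nat_lit 0) (@Lb.fm (nat_lit 3) t985))))))))
noncomputable def l28619 : Lb := (@Lb.d (nat_lit 2) (nat_lit 642) (nat_lit 130) (@Lb.g g8 (@Lb.g g9 (@Lb.g g10 (@Lb.g g11 (@Lb.r r1451 (@Lb.r r420 (@Lb.r r102 (@Lb.r r132 (@Lb.d (nat_lit 553) (nat_lit 1) (nat_lit 34) (@Lb.fp (nat_lit 9) t1194)))))))))))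
noncomputable def l28620 : Lb := (@Lb.d (nat_lit 1) (nat_lit 258) (nat_lit 9) (@Lb.g g8 (@Lb.g g9 (@Lb.g g10 (@Lb.g g7 (@Lb.r r386 (@Lb.r r2153 (@Lb.r r36 (@Lb.d (nat_lit 297) (nat_lit 2) (nat_lit 169) (@Lb.fm (nat_lit 9) t40))))))))))
noncomputable def l28621 : Lb := (@Lb.d (nat_lit 2) (nat_lit 514) (nat_lit 9) (@Lb.g g8 (@Lb.g g9 (@Lb.g g10 (@Lb.g g7 (@Lb.r r386 (@Lb.r r2153 (@Lb.r r36 (@Lb.d (nat_lit 290) (nat_lit 0) (nat_lit 169) (@Lb.fm (nat_lit 9) t40))))))))))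
noncomputable def l28622 : Lb := (@Lb.d (nat_lit 613) (nat_lit 580) (nat_lit 352) (@Lb.r r1637 (@Lb.r r2328 (@Lb.r r2386 (@Lb.r r1703 (@Lb.g g7 (@Lb.g g6 (@Lb.g g5 (@Lb.d (nat_lit 4) (nat_lit 18) (nat_lit 129) (@Lb.t (@Lb.fm (nat_lit 9) t501)))))))))))
noncomputable def l28623 : Lb := (@Lb.d (nat_lit 618) (nat_lit 38) (nat_lit 592) (@Lb.r r101 (@Lb.r r2451 (@Lb.r r402 (@Lb.g g7 (@Lb.d (nat_lit 0) (nat_lit 0) (nat_lit 68) (@Lb.t (@Lb.fm (nat_lit 3) t1399))))))))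
noncomputable def l28624 : Lb := (@Lb.d (nat_lit 534) (nat_lit 257) (nat_lit 86) (@Lb.r r20 (@Lb.r r2153 (@Lb.r r386 (@Lb.g g11 (@Lb.g g6 (@Lb.g g5 (@Lb.g g4 (@Lb.d (nat_lit 1) (nat_lit 1) (nat_lit 129) (@Lb.fm (nat_lit 9) t51))))))))))
noncomputable def l28625 : Lb := (@Lb.d (nat_lit 136) (nat_lit 2) (nat_lit 256) (@Lb.g g9 (@Lb.g g7 (@Lb.r r2196 (@Lb.r r2454 (@Lb.r r601 (@Lb.d (nat_lit 617) (nat_lit 105) (nat_lit 64) (@Lb.fm (nat_lit 3) t1456))))))))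
noncomputable def l28626 : Lb := (@Lb.r r21 (@Lb.r r70 (@Lb.d (nat_lit 658) (nat_lit 256) (nat_lit 136) (@Lb.g g8 (@Lb.g g11 (@Lb.r r74 (@Lb.r r25 (@Lb.d (nat_lit 290) (nat_lit 5) (nat_lit 34) (@Lb.fm (nat_lit 3) t985)))))))))
noncomputable def l28627 : Lb := (@Lb.d (nat_lit 0) (nat_lit 514) (nat_lit 73) (@Lb.g g8 (@Lb.g g9 (@Lb.g g10 (@Lb.g g11 (@Lb.r r2691 (@Lb.r r536 (@Lb.r r2197 (@Lb.r r2646 (@Lb.r r164 (@Lb.d (nat_lit 129) (nat_lit 0) (nat_lit 362) (@Lb.fp (nat_lit 9) t991))))))))))))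
noncomputable def l28628 : Lb := (@Lb.d (nat_lit 9) (nat_lit 1) (nat_lit 2) (@Lb.g g8 (@Lb.g g9 (@Lb.g g10 (@Lb.g g11 (@Lb.r r148 (@Lb.r r102 (@Lb.r r357 (@Lb.r r667 (@Lb.r r644 (@Lb.d (nat_lit 2) (nat_lit 0) (nat_lit 74) (@Lb.fp (nat_lit 9) t2))))))))))))
noncomputable def l28629 : Lb := (@Lb.d (nat_lit 2) (nat_lit 585) (nat_lit 1) (@Lb.g g8 (@Lb.g g9 (@Lb.g g10 (@Lb.g g11 (@Lb.r r2475 (@Lb.r r2154 (@Lb.d (nat_lit 554) (nat_lit 137) (nat_lit 34) (@Lb.fp (nat_lit 9) t594)))))))))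
noncomputable def l28630 : Lb := (@Lb.d (nat_lit 0) (nat_lit 546) (nat_lit 0) (@Lb.g g9 (@Lb.r r136 (@Lb.r r2714 (@Lb.r r1691 (@Lb.r r1668 (@Lb.d (nat_lit 512) (nat_lit 2) (nat_lit 0) (@Lb.t (@Lb.fm (nat_lit 3) t414)))))))))
noncomputable def l28631 : Lb := (@Lb.d (nat_lit 136) (nat_lit 514) (nat_lit 130) (@Lb.g g9 (@Lb.g g10 (@Lb.g g11 (@Lb.r r1606 (@Lb.r r20 (@Lb.r r409 (@Lb.r r2663 (@Lb.d (nat_lit 136) (nat_lit 153) (nat_lit 658) (@Lb.t (@Lb.fp (nat_lit 9) t1827)))))))))))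
noncomputable def l28632 : Lb := (@Lb.d (nat_lit 538) (nat_lit 320) (nat_lit 168) (@Lb.r r1412 (@Lb.r r427 (@Lb.r r353 (@Lb.r r1618 (@Lb.g g7 (@Lb.d (nat_lit 0) (nat_lit 16) (nat_lit 132) (@Lb.t (@Lb.fp (nat_lit 3) t5253)))))))))
noncomputable def l28633 : Lb := (@Lb.d (nat_lit 33) (nat_lit 265) (nat_lit 129) (@Lb.g g8 (@Lb.g g9 (@Lb.g g10 (@Lb.g g11 (@Lb.r r663 (@Lb.r r342 (@Lb.r r1577 (@Lb.r r1556 (@Lb.d (nat_lit 384) (nat_lit 168) (nat_lit 89) (@Lb.fp (nat_lit 9) t5254)))))))))))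
noncomputable def l28634 : Lb := (@Lb.d (nat_lit 0) (nat_lit 521) (nat_lit 72) (@Lb.g g8 (@Lb.g g9 (@Lb.g g10 (@Lb.g g11 (@Lb.r r2691 (@Lb.r r2665 (@Lb.r r1686 (@Lb.r r1096 (@Lb.d (nat_lit 674) (nat_lit 160) (nat_lit 89) (@Lb.fp (nat_lit 9) t5255)))))))))))
noncomputable def l28635 : Lb := (@Lb.d (nat_lit 516) (nat_lit 578) (nat_lit 0) (@Lb.r r1128 (@Lb.r r2214 (@Lb.r r2705 (@Lb.r r2643 (@Lb.g g7 (@Lb.g g6 (@Lb.g g5 (@Lb.d (nat_lit 0) (nat_lit 0) (nat_lit 65) (@Lb.t (@Lb.fm (nat_lit 9) t5256)))))))))))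
noncomputable def l28636 : Lb := (@Lb.d (nat_lit 33) (nat_lit 521) (nat_lit 129) (@Lb.g g8 (@Lb.g g9 (@Lb.g g10 (@Lb.g g11 (@Lb.r r663 (@Lb.r r342 (@Lb.r r1577 (@Lb.r r1556 (@Lb.d (nat_lit 384) (nat_lit 166) (nat_lit 88) (@Lb.fp (nat_lit 9) t5257)))))))))))
noncomputable def l28637 : Lb := (@Lb.d (nat_lit 0) (nat_lit 512) (nat_lit 130) (@Lb.g g10 (@Lb.g g11 (@Lb.r r419 (@Lb.r r1444 (@Lb.r r421 (@Lb.r r2470 (@Lb.d (nat_lit 618) (nat_lit 100) (nat_lit 297) (@Lb.fm (nat_lit 3) t5253)))))))))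
noncomputable def l28638 : Lb := (@Lb.r r70 (@Lb.d (nat_lit 166) (nat_lit 261) (nat_lit 64) (@Lb.g g8 (@Lb.g g5 (@Lb.g g11 (@Lb.r r1563 (@Lb.r r2438 (@Lb.r r2648 (@Lb.d (nat_lit 648) (nat_lit 164) (nat_lit 152) (@Lb.t (@Lb.fm (nat_lit 9) t50)))))))))))
noncomputable def l28639 : Lb := (@Lb.r r70 (@Lb.d (nat_lit 132) (nat_lit 517) (nat_lit 64) (@Lb.g g8 (@Lb.g g5 (@Lb.g g11 (@Lb.r r1643 (@Lb.r r1626 (@Lb.r r580 (@Lb.d (nat_lit 545) (nat_lit 1) (nat_lit 680) (@Lb.t (@Lb.fm (nat_lit 9) t50)))))))))))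
noncomputable def l28640 : Lb := (@Lb.d (nat_lit 8) (nat_lit 290) (nat_lit 0) (@Lb.g g9 (@Lb.r r2708 (@Lb.r r2711 (@Lb.r r662 (@Lb.r r2393 (@Lb.d (nat_lit 298) (nat_lit 20) (nat_lit 422) (@Lb.t (@Lb.fp (nat_lit 3) t430)))))))))
noncomputable def l28641 : Lb := (@Lb.d (nat_lit 2) (nat_lit 4) (nat_lit 64) (@Lb.g g8 (@Lb.g g9 (@Lb.g g10 (@Lb.g g7 (@Lb.r r386 (@Lb.r r97 (@Lb.d (nat_lit 0) (nat_lit 138) (nat_lit 9) (@Lb.fm (nat_lit 9) t267)))))))))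
noncomputable def l28642 : Lb := (@Lb.d (nat_lit 32) (nat_lit 520) (nat_lit 128) (@Lb.g g10 (@Lb.g g11 (@Lb.r r360 (@Lb.r r2567 (@Lb.r r1633 (@Lb.r r338 (@Lb.d (nat_lit 650) (nat_lit 21) (nat_lit 326) (@Lb.fp (nat_lit 3) t1079)))))))))
noncomputable def l28643 : Lb := (@Lb.d (nat_lit 2) (nat_lit 516) (nat_lit 64) (@Lb.g g8 (@Lb.g g9 (@Lb.g g10 (@Lb.g g7 (@Lb.r r1366 (@Lb.r r1109 (@Lb.r r24 (@Lb.d (nat_lit 145) (nat_lit 137) (nat_lit 297) (@Lb.fp (nat_lit 9) t1073))))))))))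
noncomputable def l28644 : Lb := (@Lb.d (nat_lit 2) (nat_lit 4) (nat_lit 128) (@Lb.g g8 (@Lb.g g9 (@Lb.g g10 (@Lb.g g11 (@Lb.r r1367 (@Lb.r r386 (@Lb.r r1109 (@Lb.r r24 (@Lb.d (nat_lit 129) (nat_lit 130) (nat_lit 330) (@Lb.fp (nat_lit 9) t742)))))))))))
noncomputable def l28645 : Lb := (@Lb.r r82 (@Lb.r r275 (@Lb.d (nat_lit 2) (nat_lit 538) (nat_lit 0) (@Lb.g g8 (@Lb.g g9 (@Lb.r r363 (@Lb.r r1416 (@Lb.r r1098 (@Lb.d (nat_lit 32) (nat_lit 9) (nat_lit 74) (@Lb.fp (nat_lit 3) t1684))))))))))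
noncomputable def l28646 : Lb := (@Lb.r r21 (@Lb.d (nat_lit 33) (nat_lit 256) (nat_lit 72) (@Lb.g g8 (@Lb.g g10 (@Lb.g g11 (@Lb.r r323 (@Lb.r r2392 (@Lb.r r2661 (@Lb.r r658 (@Lb.d (nat_lit 0) (nat_lit 81) (nat_lit 596) (@Lb.t (@Lb.fp (nat_lit 9) t3512))))))))))))
noncomputable def l28647 : Lb := (@Lb.d (nat_lit 0) (nat_lit 2) (nat_lit 130) (@Lb.g g8 (@Lb.g g9 (@Lb.g g10 (@Lb.g g11 (@Lb.r r427 (@Lb.r r145 (@Lb.r r356 (@Lb.r r154 (@Lb.r r132 (@Lb.d (nat_lit 0) (nat_lit 73) (nat_lit 18) (@Lb.fm (nat_lit 9) t741))))))))))))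
noncomputable def l28648 : Lb := (@Lb.r r21 (@Lb.d (nat_lit 129) (nat_lit 512) (nat_lit 258) (@Lb.g g8 (@Lb.g g10 (@Lb.g g7 (@Lb.r r1434 (@Lb.r r1125 (@Lb.r r2196 (@Lb.d (nat_lit 38) (nat_lit 40) (nat_lit 530) (@Lb.t (@Lb.fp (nat_lit 9) t58)))))))))))
noncomputable def l28649 : Lb := (@Lb.r r21 (@Lb.r r70 (@Lb.d (nat_lit 129) (nat_lit 512) (nat_lit 256) (@Lb.g g8 (@Lb.g g7 (@Lb.r r1606 (@Lb.r r1557 (@Lb.r r2312 (@Lb.d (nat_lit 642) (nat_lit 10) (nat_lit 260) (@Lb.fm (nat_lit 3) t5224))))))))))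
noncomputable def l28650 : Lb := (@Lb.d (nat_lit 10) (nat_lit 256) (nat_lit 130) (@Lb.g g8 (@Lb.g g10 (@Lb.g g11 (@Lb.r r2691 (@Lb.r r2085 (@Lb.r r2392 (@Lb.r r1158 (@Lb.d (nat_lit 81) (nat_lit 66) (nat_lit 612) (@Lb.t (@Lb.fm (nat_lit 9) t2054)))))))))))
noncomputable def l28651 : Lb := (@Lb.d (nat_lit 0) (nat_lit 258) (nat_lit 130) (@Lb.g g9 (@Lb.g g10 (@Lb.g g11 (@Lb.r r2691 (@Lb.r r2376 (@Lb.r r1158 (@Lb.r r1313 (@Lb.d (nat_lit 81) (nat_lit 138) (nat_lit 289) (@Lb.t (@Lb.fm (nat_lit 9) t2597)))))))))))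
noncomputable def l28652 : Lb := (@Lb.d (nat_lit 146) (nat_lit 521) (nat_lit 73) (@Lb.g g8 (@Lb.g g9 (@Lb.g g10 (@Lb.g g11 (@Lb.r r1689 (@Lb.r r1560 (@Lb.r r2315 (@Lb.r r582 (@Lb.d (nat_lit 337) (nat_lit 17) (nat_lit 325) (@Lb.fm (nat_lit 9) t2596)))))))))))
noncomputable def l28653 : Lb := (@Lb.d (nat_lit 2) (nat_lit 513) (nat_lit 0) (@Lb.g g8 (@Lb.g g9 (@Lb.r r342 (@Lb.r r2713 (@Lb.r r2451 (@Lb.r r2564 (@Lb.d (nat_lit 385) (nat_lit 24) (nat_lit 329) (@Lb.fm (nat_lit 3) t1558)))))))))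
noncomputable def l28654 : Lb := (@Lb.r r21 (@Lb.d (nat_lit 146) (nat_lit 0) (nat_lit 256) (@Lb.g g8 (@Lb.g g10 (@Lb.g g7 (@Lb.r r1434 (@Lb.r r2196 (@Lb.r r25 (@Lb.d (nat_lit 538) (nat_lit 4) (nat_lit 258) (@Lb.t (@Lb.fm (nat_lit 9) t522)))))))))))
noncomputable def l28655 : Lb := (@Lb.d (nat_lit 4) (nat_lit 258) (nat_lit 0) (@Lb.g g8 (@Lb.g g9 (@Lb.g g10 (@Lb.r r2731 (@Lb.r r1642 (@Lb.r r1049 (@Lb.d (nat_lit 521) (nat_lit 84) (nat_lit 296) (@Lb.t (@Lb.fp (nat_lit 9) t944))))))))))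
noncomputable def l28656 : Lb := (@Lb.d (nat_lit 0) (nat_lit 9) (nat_lit 129) (@Lb.g g9 (@Lb.g g10 (@Lb.g g11 (@Lb.r r2691 (@Lb.r r536 (@Lb.r r1637 (@Lb.r r2714 (@Lb.r r132 (@Lb.d (nat_lit 677) (nat_lit 161) (nat_lit 74) (@Lb.t (@Lb.fm (nat_lit 9) t283))))))))))))
noncomputable def l28657 : Lb := (@Lb.d (nat_lit 0) (nat_lit 514) (nat_lit 73) (@Lb.g g9 (@Lb.g g10 (@Lb.g g11 (@Lb.r r2691 (@Lb.r r2376 (@Lb.r r1158 (@Lb.r r1313 (@Lb.d (nat_lit 81) (nat_lit 138) (nat_lit 289) (@Lb.t (@Lb.fm (nat_lit 9) t2597)))))))))))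
noncomputable def l28658 : Lb := (@Lb.d (nat_lit 153) (nat_lit 409) (nat_lit 297) (@Lb.r r1556 (@Lb.r r1638 (@Lb.r r1623 (@Lb.g g6 (@Lb.g g5 (@Lb.g g4 (@Lb.d (nat_lit 65) (nat_lit 134) (nat_lit 2) (@Lb.r r387 (@Lb.t (@Lb.fm (nat_lit 9) t5258)))))))))))
noncomputable def l28659 : Lb := (@Lb.r r82 (@Lb.d (nat_lit 9) (nat_lit 32) (nat_lit 64) (@Lb.g g8 (@Lb.g g9 (@Lb.g g11 (@Lb.r r1543 (@Lb.r r2152 (@Lb.r r2438 (@Lb.r r1361 (@Lb.d (nat_lit 5) (nat_lit 4) (nat_lit 345) (@Lb.t (@Lb.fp (nat_lit 9) t2301))))))))))))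
noncomputable def l28660 : Lb := (@Lb.d (nat_lit 2) (nat_lit 514) (nat_lit 73) (@Lb.g g8 (@Lb.g g9 (@Lb.g g10 (@Lb.g g11 (@Lb.r r2666 (@Lb.r r579 (@Lb.r r104 (@Lb.r r25 (@Lb.d (nat_lit 402) (nat_lit 90) (nat_lit 594) (@Lb.fp (nat_lit 9) t492)))))))))))
noncomputable def l28661 : Lb := (@Lb.d (nat_lit 9) (nat_lit 6) (nat_lit 74) (@Lb.g g8 (@Lb.g g9 (@Lb.g g10 (@Lb.g g11 (@Lb.r r619 (@Lb.r r1610 (@Lb.r r660 (@Lb.r r425 (@Lb.r r2084 (@Lb.d (nat_lit 282) (nat_lit 168) (nat_lit 617) (@Lb.fp (nat_lit 9) t261))))))))))))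
noncomputable def l28662 : Lb := (@Lb.r r21 (@Lb.r r70 (@Lb.d (nat_lit 294) (nat_lit 0) (nat_lit 64) (@Lb.g g4 (@Lb.g g11 (@Lb.r r2567 (@Lb.r r101 (@Lb.r r410 (@Lb.d (nat_lit 585) (nat_lit 5) (nat_lit 96) (@Lb.fm (nat_lit 3) t5259))))))))))
noncomputable def l28663 : Lb := (@Lb.d (nat_lit 4) (nat_lit 10) (nat_lit 33) (@Lb.g g8 (@Lb.g g9 (@Lb.g g6 (@Lb.g g11 (@Lb.r r345 (@Lb.r r1571 (@Lb.r r2577 (@Lb.d (nat_lit 609) (nat_lit 0) (nat_lit 280) (@Lb.fp (nat_lit 9) t1849))))))))))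
noncomputable def l28664 : Lb := (@Lb.d (nat_lit 0) (nat_lit 256) (nat_lit 66) (@Lb.g g8 (@Lb.g g10 (@Lb.g g11 (@Lb.r r419 (@Lb.r r386 (@Lb.d (nat_lit 0) (nat_lit 105) (nat_lit 17) (@Lb.t (@Lb.fp (nat_lit 9) t305)))))))))
noncomputable def l28665 : Lb := (@Lb.d (nat_lit 42) (nat_lit 256) (nat_lit 128) (@Lb.g g8 (@Lb.g g11 (@Lb.r r614 (@Lb.r r1637 (@Lb.r r1428 (@Lb.d (nat_lit 358) (nat_lit 90) (nat_lit 677) (@Lb.fp (nat_lit 3) t2428))))))))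
noncomputable def l28666 : Lb := (@Lb.r r20 (@Lb.r r82 (@Lb.d (nat_lit 0) (nat_lit 577) (nat_lit 0) (@Lb.g g5 (@Lb.g g7 (@Lb.r r1624 (@Lb.r r2438 (@Lb.d (nat_lit 608) (nat_lit 6) (nat_lit 394) (@Lb.fm (nat_lit 3) t5260)))))))))
noncomputable def l28667 : Lb := (@Lb.d (nat_lit 0) (nat_lit 10) (nat_lit 34) (@Lb.r r1346 (@Lb.r r387 (@Lb.g g11 (@Lb.g g10 (@Lb.g g8 (@Lb.t (@Lb.fm (nat_lit 9) t371))))))))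
noncomputable def l28668 : Lb := (@Lb.d (nat_lit 0) (nat_lit 1) (nat_lit 129) (@Lb.r r323 (@Lb.g g6 (@Lb.d (nat_lit 0) (nat_lit 4) (nat_lit 9) (@Lb.r r387 (@Lb.t (@Lb.fm (nat_lit 3) t45)))))))
noncomputable def l28669 : Lb := (@Lb.r r21 (@Lb.d (nat_lit 10) (nat_lit 264) (nat_lit 130) (@Lb.g g8 (@Lb.g g10 (@Lb.g g11 (@Lb.r r427 (@Lb.r r533 (@Lb.r r360 (@Lb.r r102 (@Lb.d (nat_lit 26) (nat_lit 16) (nat_lit 133) (@Lb.t (@Lb.fp (nat_lit 9) t51))))))))))))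
noncomputable def l28670 : Lb := (@Lb.d (nat_lit 8) (nat_lit 514) (nat_lit 130) (@Lb.g g9 (@Lb.g g10 (@Lb.g g11 (@Lb.r r614 (@Lb.r r404 (@Lb.r r683 (@Lb.r r673 (@Lb.d (nat_lit 2) (nat_lit 26) (nat_lit 9) (@Lb.t (@Lb.fm (nat_lit 9) t51)))))))))))
noncomputable def l28671 : Lb := (@Lb.r r323 (@Lb.d (nat_lit 66) (nat_lit 1) (nat_lit 0) (@Lb.g g8 (@Lb.g g9 (@Lb.g g10 (@Lb.r r2647 (@Lb.r r1369 (@Lb.r r166 (@Lb.r r84 (@Lb.d (nat_lit 21) (nat_lit 72) (nat_lit 682) (@Lb.t (@Lb.fm (nat_lit 9) t51))))))))))))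
noncomputable def l28672 : Lb := (@Lb.d (nat_lit 42) (nat_lit 256) (nat_lit 0) (@Lb.g g8 (@Lb.r r2395 (@Lb.r r614 (@Lb.r r1637 (@Lb.r r1428 (@Lb.d (nat_lit 358) (nat_lit 90) (nat_lit 266) (@Lb.t (@Lb.fm (nat_lit 3) t188)))))))))
noncomputable def l28673 : Lb := (@Lb.r r24 (@Lb.r r2069 (@Lb.r r36 (@Lb.d (nat_lit 10) (nat_lit 2) (nat_lit 64) (@Lb.fm (nat_lit 1) t2)))))
noncomputable def l28674 : Lb := (@Lb.r r323 (@Lb.d (nat_lit 66) (nat_lit 258) (nat_lit 0) (@Lb.g g8 (@Lb.g g9 (@Lb.g g10 (@Lb.r r599 (@Lb.r r345 (@Lb.r r166 (@Lb.r r84 (@Lb.d (nat_lit 21) (nat_lit 72) (nat_lit 394) (@Lb.t (@Lb.fm (nat_lit 9) t51))))))))))))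
noncomputable def l28675 : Lb := (@Lb.d (nat_lit 42) (nat_lit 0) (nat_lit 64) (@Lb.g g8 (@Lb.g g7 (@Lb.r r614 (@Lb.r r1637 (@Lb.r r1428 (@Lb.d (nat_lit 358) (nat_lit 90) (nat_lit 66) (@Lb.fm (nat_lit 3) t572))))))))
noncomputable def l28676 : Lb := (@Lb.r r263 (@Lb.d (nat_lit 16) (nat_lit 2) (nat_lit 0) (@Lb.g g8 (@Lb.g g9 (@Lb.g g10 (@Lb.r r424 (@Lb.r r1559 (@Lb.r r2401 (@Lb.r r1170 (@Lb.d (nat_lit 10) (nat_lit 25) (nat_lit 169) (@Lb.t (@Lb.fm (nat_lit 9) t68))))))))))))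
noncomputable def l28677 : Lb := (@Lb.d (nat_lit 16) (nat_lit 514) (nat_lit 128) (@Lb.g g8 (@Lb.g g9 (@Lb.g g10 (@Lb.g g11 (@Lb.r r1675 (@Lb.r r2401 (@Lb.r r1170 (@Lb.r r584 (@Lb.d (nat_lit 576) (nat_lit 74) (nat_lit 169) (@Lb.fp (nat_lit 9) t68)))))))))))
noncomputable def l28678 : Lb := (@Lb.d (nat_lit 0) (nat_lit 514) (nat_lit 0) (@Lb.g g8 (@Lb.g g9 (@Lb.r r25 (@Lb.d (nat_lit 9) (nat_lit 66) (nat_lit 0) (@Lb.fm (nat_lit 3) t2))))))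
noncomputable def l28679 : Lb := (@Lb.d (nat_lit 40) (nat_lit 512) (nat_lit 72) (@Lb.g g8 (@Lb.g g11 (@Lb.r r2370 (@Lb.r r1703 (@Lb.r r1573 (@Lb.r r1300 (@Lb.d (nat_lit 326) (nat_lit 82) (nat_lit 290) (@Lb.fm (nat_lit 3) t322)))))))))
noncomputable def l28680 : Lb := (@Lb.r r21 (@Lb.r r323 (@Lb.d (nat_lit 6) (nat_lit 4) (nat_lit 2) (@Lb.g g8 (@Lb.g g10 (@Lb.r r409 (@Lb.r r683 (@Lb.r r650 (@Lb.d (nat_lit 128) (nat_lit 10) (nat_lit 80) (@Lb.fm (nat_lit 3) t221))))))))))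
noncomputable def l28681 : Lb := (@Lb.d (nat_lit 16) (nat_lit 258) (nat_lit 74) (@Lb.g g8 (@Lb.g g9 (@Lb.g g10 (@Lb.g g11 (@Lb.r r1675 (@Lb.r r2401 (@Lb.r r1170 (@Lb.r r584 (@Lb.d (nat_lit 586) (nat_lit 73) (nat_lit 169) (@Lb.fp (nat_lit 9) t68)))))))))))
noncomputable def l28682 : Lb := (@Lb.d (nat_lit 42) (nat_lit 512) (nat_lit 0) (@Lb.g g8 (@Lb.r r2395 (@Lb.r r614 (@Lb.r r1637 (@Lb.r r1428 (@Lb.d (nat_lit 358) (nat_lit 90) (nat_lit 420) (@Lb.t (@Lb.fm (nat_lit 3) t188)))))))))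
noncomputable def l28683 : Lb := (@Lb.r r21 (@Lb.d (nat_lit 512) (nat_lit 8) (nat_lit 130) (@Lb.g g8 (@Lb.g g10 (@Lb.g g11 (@Lb.r r395 (@Lb.r r101 (@Lb.r r410 (@Lb.d (nat_lit 9) (nat_lit 26) (nat_lit 682) (@Lb.t (@Lb.fm (nat_lit 9) t221)))))))))))
noncomputable def l28684 : Lb := (@Lb.d (nat_lit 0) (nat_lit 258) (nat_lit 0) (@Lb.g g9 (@Lb.r r1044 (@Lb.r r25 (@Lb.d (nat_lit 265) (nat_lit 2) (nat_lit 0) (@Lb.t (@Lb.fp (nat_lit 3) t2)))))))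
noncomputable def l28685 : Lb := (@Lb.r r323 (@Lb.d (nat_lit 2) (nat_lit 546) (nat_lit 2) (@Lb.g g8 (@Lb.g g9 (@Lb.g g10 (@Lb.r r599 (@Lb.r r74 (@Lb.r r296 (@Lb.r r409 (@Lb.d (nat_lit 149) (nat_lit 162) (nat_lit 134) (@Lb.t (@Lb.fm (nat_lit 9) t51))))))))))))
noncomputable def l28686 : Lb := (@Lb.r r323 (@Lb.d (nat_lit 130) (nat_lit 265) (nat_lit 1) (@Lb.g g8 (@Lb.g g9 (@Lb.g g10 (@Lb.r r1639 (@Lb.r r2193 (@Lb.r r2642 (@Lb.r r72 (@Lb.d (nat_lit 41) (nat_lit 105) (nat_lit 356) (@Lb.t (@Lb.fm (nat_lit 9) t55))))))))))))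
noncomputable def l28687 : Lb := (@Lb.d (nat_lit 41) (nat_lit 5) (nat_lit 168) (@Lb.r r153 (@Lb.r r2726 (@Lb.r r1435 (@Lb.r r2308 (@Lb.g g7 (@Lb.g g5 (@Lb.d (nat_lit 4) (nat_lit 1) (nat_lit 128) (@Lb.fp (nat_lit 3) t919)))))))))
noncomputable def l28688 : Lb := (@Lb.r r21 (@Lb.d (nat_lit 144) (nat_lit 256) (nat_lit 64) (@Lb.g g8 (@Lb.g g10 (@Lb.g g11 (@Lb.r r387 (@Lb.r r132 (@Lb.r r2454 (@Lb.r r97 (@Lb.d (nat_lit 325) (nat_lit 161) (nat_lit 384) (@Lb.t (@Lb.fm (nat_lit 9) t4))))))))))))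
noncomputable def l28689 : Lb := (@Lb.r r2315 (@Lb.r r356 (@Lb.r r154 (@Lb.r r2133 (@Lb.r r164 (@Lb.d (nat_lit 358) (nat_lit 513) (nat_lit 596) (@Lb.fm (nat_lit 1) t632)))))))
noncomputable def l28690 : Lb := (@Lb.r r82 (@Lb.r r275 (@Lb.d (nat_lit 34) (nat_lit 538) (nat_lit 0) (@Lb.g g8 (@Lb.g g9 (@Lb.r r427 (@Lb.r r582 (@Lb.r r408 (@Lb.d (nat_lit 130) (nat_lit 16) (nat_lit 137) (@Lb.fp (nat_lit 3) t1506))))))))))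
noncomputable def l28691 : Lb := (@Lb.d (nat_lit 42) (nat_lit 0) (nat_lit 0) (@Lb.g g4 (@Lb.r r2391 (@Lb.r r618 (@Lb.r r1641 (@Lb.r r2664 (@Lb.d (nat_lit 658) (nat_lit 166) (nat_lit 596) (@Lb.t (@Lb.fm (nat_lit 3) t632)))))))))
noncomputable def l28692 : Lb := (@Lb.r r21 (@Lb.d (nat_lit 33) (nat_lit 256) (nat_lit 129) (@Lb.g g8 (@Lb.g g10 (@Lb.g g11 (@Lb.r r1691 (@Lb.r r1561 (@Lb.r r1640 (@Lb.r r614 (@Lb.d (nat_lit 153) (nat_lit 73) (nat_lit 586) (@Lb.t (@Lb.fm (nat_lit 9) t594))))))))))))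
noncomputable def l28693 : Lb := (@Lb.d (nat_lit 4) (nat_lit 298) (nat_lit 33) (@Lb.g g8 (@Lb.g g9 (@Lb.g g6 (@Lb.r r2455 (@Lb.r r617 (@Lb.d (nat_lit 101) (nat_lit 26) (nat_lit 520) (@Lb.t (@Lb.fm (nat_lit 9) t1849)))))))))
noncomputable def l28694 : Lb := (@Lb.d (nat_lit 2) (nat_lit 298) (nat_lit 33) (@Lb.g g8 (@Lb.g g9 (@Lb.g g6 (@Lb.r r407 (@Lb.r r2665 (@Lb.d (nat_lit 357) (nat_lit 90) (nat_lit 40) (@Lb.t (@Lb.fm (nat_lit 9) t1849)))))))))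
noncomputable def l28695 : Lb := (@Lb.d (nat_lit 10) (nat_lit 0) (nat_lit 2) (@Lb.g g8 (@Lb.g g10 (@Lb.r r2331 (@Lb.r r2193 (@Lb.r r2458 (@Lb.r r2436 (@Lb.d (nat_lit 360) (nat_lit 64) (nat_lit 665) (@Lb.fp (nat_lit 3) t4779)))))))))
noncomputable def l28696 : Lb := (@Lb.d (nat_lit 6) (nat_lit 544) (nat_lit 66) (@Lb.r r359 (@Lb.r r341 (@Lb.r r166 (@Lb.r r72 (@Lb.g g7 (@Lb.g g6 (@Lb.g g5 (@Lb.d (nat_lit 80) (nat_lit 1) (nat_lit 65) (@Lb.t (@Lb.fp (nat_lit 9) t238)))))))))))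
noncomputable def l28697 : Lb := (@Lb.d (nat_lit 384) (nat_lit 512) (nat_lit 402) (@Lb.r r24 (@Lb.r r602 (@Lb.r r2651 (@Lb.r r1317 (@Lb.g g11 (@Lb.t (@Lb.fm (nat_lit 3) t3436))))))))
noncomputable def l28698 : Lb := (@Lb.d (nat_lit 0) (nat_lit 322) (nat_lit 0) (@Lb.g g9 (@Lb.r r402 (@Lb.r r579 (@Lb.r r2564 (@Lb.d (nat_lit 10) (nat_lit 18) (nat_lit 256) (@Lb.t (@Lb.fp (nat_lit 3) t4699))))))))
noncomputable def l28699 : Lb := (@Lb.d (nat_lit 128) (nat_lit 322) (nat_lit 64) (@Lb.g g9 (@Lb.g g11 (@Lb.r r2148 (@Lb.r r1450 (@Lb.r r2663 (@Lb.d (nat_lit 661) (nat_lit 36) (nat_lit 169) (@Lb.fm (nat_lit 3) t4699))))))))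
noncomputable def l28700 : Lb := (@Lb.d (nat_lit 0) (nat_lit 322) (nat_lit 0) (@Lb.g g9 (@Lb.r r322 (@Lb.r r659 (@Lb.r r578 (@Lb.r r2564 (@Lb.d (nat_lit 10) (nat_lit 146) (nat_lit 512) (@Lb.t (@Lb.fm (nat_lit 3) t4699)))))))))
noncomputable def l28701 : Lb := (@Lb.r r593 (@Lb.r r347 (@Lb.r r340 (@Lb.r r170 (@Lb.r r153 (@Lb.d (nat_lit 0) (nat_lit 517) (nat_lit 0) (@Lb.fm (nat_lit 1) t45)))))))
noncomputable def l28702 : Lb := (@Lb.d (nat_lit 130) (nat_lit 512) (nat_lit 0) (@Lb.g g4 (@Lb.r r682 (@Lb.r r665 (@Lb.r r1435 (@Lb.r r1428 (@Lb.d (nat_lit 665) (nat_lit 102) (nat_lit 297) (@Lb.t (@Lb.fp (nat_lit 3) t71)))))))))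
noncomputable def l28703 : Lb := (@Lb.d (nat_lit 17) (nat_lit 0) (nat_lit 134) (@Lb.r r24 (@Lb.r r101 (@Lb.r r386 (@Lb.g g11 (@Lb.g g6 (@Lb.g g5 (@Lb.d (nat_lit 0) (nat_lit 10) (nat_lit 128) (@Lb.t (@Lb.fp (nat_lit 9) t51))))))))))
noncomputable def l28704 : Lb := (@Lb.r r21 (@Lb.r r263 (@Lb.d (nat_lit 321) (nat_lit 512) (nat_lit 2) (@Lb.g g4 (@Lb.g g10 (@Lb.r r1559 (@Lb.r r386 (@Lb.r r97 (@Lb.d (nat_lit 1) (nat_lit 90) (nat_lit 325) (@Lb.fm (nat_lit 3) t1244))))))))))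
noncomputable def l28705 : Lb := (@Lb.r r21 (@Lb.d (nat_lit 18) (nat_lit 0) (nat_lit 74) (@Lb.g g4 (@Lb.g g10 (@Lb.g g11 (@Lb.r r1687 (@Lb.r r2401 (@Lb.r r1170 (@Lb.d (nat_lit 538) (nat_lit 73) (nat_lit 34) (@Lb.t (@Lb.fm (nat_lit 9) t74)))))))))))
noncomputable def l28706 : Lb := (@Lb.d (nat_lit 1) (nat_lit 4) (nat_lit 340) (@Lb.r r37 (@Lb.r r2599 (@Lb.r r1364 (@Lb.g g6 (@Lb.g g4 (@Lb.d (nat_lit 1) (nat_lit 0) (nat_lit 17) (@Lb.r r145 (@Lb.fm (nat_lit 3) t1246)))))))))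
noncomputable def l28707 : Lb := (@Lb.d (nat_lit 16) (nat_lit 296) (nat_lit 66) (@Lb.g g8 (@Lb.g g10 (@Lb.g g11 (@Lb.r r2145 (@Lb.r r1174 (@Lb.r r328 (@Lb.r r2567 (@Lb.d (nat_lit 641) (nat_lit 33) (nat_lit 386) (@Lb.t (@Lb.fm (nat_lit 9) t69)))))))))))
noncomputable def l28708 : Lb := (@Lb.d (nat_lit 337) (nat_lit 522) (nat_lit 345) (@Lb.r r24 (@Lb.r r1109 (@Lb.r r386 (@Lb.r r2595 (@Lb.g g7 (@Lb.g g6 (@Lb.g g5 (@Lb.d (nat_lit 0) (nat_lit 25) (nat_lit 128) (@Lb.t (@Lb.fm (nat_lit 9) t1444)))))))))))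
noncomputable def l28709 : Lb := (@Lb.d (nat_lit 2) (nat_lit 9) (nat_lit 65) (@Lb.g g8 (@Lb.g g9 (@Lb.g g10 (@Lb.g g11 (@Lb.r r2315 (@Lb.r r164 (@Lb.r r614 (@Lb.r r1553 (@Lb.r r1156 (@Lb.d (nat_lit 534) (nat_lit 96) (nat_lit 617) (@Lb.fp (nat_lit 9) t223))))))))))))
noncomputable def l28710 : Lb := (@Lb.d (nat_lit 2) (nat_lit 512) (nat_lit 0) (@Lb.g g8 (@Lb.r r609 (@Lb.r r2659 (@Lb.r r338 (@Lb.r r2705 (@Lb.d (nat_lit 642) (nat_lit 0) (nat_lit 384) (@Lb.t (@Lb.fp (nat_lit 3) t322)))))))))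
noncomputable def l28711 : Lb := (@Lb.r r322 (@Lb.d (nat_lit 8) (nat_lit 289) (nat_lit 516) (@Lb.g g9 (@Lb.g g7 (@Lb.r r422 (@Lb.r r1112 (@Lb.r r2085 (@Lb.d (nat_lit 521) (nat_lit 73) (nat_lit 66) (@Lb.fm (nat_lit 3) t739)))))))))
noncomputable def l28712 : Lb := (@Lb.d (nat_lit 10) (nat_lit 514) (nat_lit 0) (@Lb.r r579 (@Lb.r r402 (@Lb.r r101 (@Lb.r r24 (@Lb.g g10 (@Lb.t (@Lb.fp (nat_lit 3) t145))))))))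
noncomputable def l28713 : Lb := (@Lb.d (nat_lit 41) (nat_lit 9) (nat_lit 0) (@Lb.g g8 (@Lb.g g9 (@Lb.r r2118 (@Lb.r r1416 (@Lb.r r535 (@Lb.r r289 (@Lb.d (nat_lit 0) (nat_lit 6) (nat_lit 162) (@Lb.fp (nat_lit 3) t210)))))))))
noncomputable def l28714 : Lb := (@Lb.d (nat_lit 2) (nat_lit 258) (nat_lit 73) (@Lb.g g8 (@Lb.g g9 (@Lb.g g10 (@Lb.g g11 (@Lb.r r2705 (@Lb.r r535 (@Lb.r r2440 (@Lb.r r2122 (@Lb.d (nat_lit 289) (nat_lit 10) (nat_lit 136) (@Lb.fp (nat_lit 9) t221)))))))))))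
noncomputable def l28715 : Lb := (@Lb.d (nat_lit 2) (nat_lit 258) (nat_lit 130) (@Lb.g g8 (@Lb.g g9 (@Lb.g g10 (@Lb.g g11 (@Lb.r r2729 (@Lb.r r2475 (@Lb.r r2468 (@Lb.r r2438 (@Lb.d (nat_lit 610) (nat_lit 10) (nat_lit 674) (@Lb.fp (nat_lit 9) t590)))))))))))
noncomputable def l28716 : Lb := (@Lb.d (nat_lit 2) (nat_lit 130) (nat_lit 66) (@Lb.g g8 (@Lb.g g9 (@Lb.g g10 (@Lb.g g11 (@Lb.r r648 (@Lb.r r539 (@Lb.r r98 (@Lb.r r516 (@Lb.d (nat_lit 553) (nat_lit 0) (nat_lit 153) (@Lb.fp (nat_lit 9) t1194)))))))))))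
noncomputable def l28717 : Lb := (@Lb.d (nat_lit 2) (nat_lit 2) (nat_lit 130) (@Lb.g g8 (@Lb.g g9 (@Lb.g g10 (@Lb.g g11 (@Lb.r r1426 (@Lb.r r1371 (@Lb.r r2457 (@Lb.r r2436 (@Lb.d (nat_lit 105) (nat_lit 8) (nat_lit 546) (@Lb.fm (nat_lit 9) t2103)))))))))))
noncomputable def l28718 : Lb := (@Lb.d (nat_lit 0) (nat_lit 256) (nat_lit 73) (@Lb.g g9 (@Lb.g g10 (@Lb.g g11 (@Lb.r r2658 (@Lb.r r101 (@Lb.d (nat_lit 650) (nat_lit 18) (nat_lit 512) (@Lb.t (@Lb.fp (nat_lit 9) t240)))))))))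
noncomputable def l28719 : Lb := (@Lb.d (nat_lit 153) (nat_lit 281) (nat_lit 129) (@Lb.g g8 (@Lb.g g9 (@Lb.g g6 (@Lb.g g11 (@Lb.r r1129 (@Lb.r r296 (@Lb.r r2311 (@Lb.r r516 (@Lb.d (nat_lit 514) (nat_lit 98) (nat_lit 104) (@Lb.fm (nat_lit 9) t4350)))))))))))
noncomputable def l28720 : Lb := (@Lb.d (nat_lit 325) (nat_lit 545) (nat_lit 256) (@Lb.r r101 (@Lb.r r1362 (@Lb.g g7 (@Lb.g g6 (@Lb.g g5 (@Lb.g g4 (@Lb.d (nat_lit 0) (nat_lit 0) (nat_lit 134) (@Lb.fm (nat_lit 9) t482)))))))))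
noncomputable def l28721 : Lb := (@Lb.d (nat_lit 9) (nat_lit 537) (nat_lit 1) (@Lb.g g8 (@Lb.g g9 (@Lb.g g10 (@Lb.g g11 (@Lb.r r1706 (@Lb.r r1700 (@Lb.r r1575 (@Lb.r r2085 (@Lb.d (nat_lit 521) (nat_lit 66) (nat_lit 394) (@Lb.fm (nat_lit 9) t1225)))))))))))
noncomputable def l28722 : Lb := (@Lb.r r322 (@Lb.d (nat_lit 0) (nat_lit 0) (nat_lit 136) (@Lb.g g9 (@Lb.g g11 (@Lb.r r1426 (@Lb.r r101 (@Lb.r r24 (@Lb.d (nat_lit 321) (nat_lit 0) (nat_lit 640) (@Lb.fp (nat_lit 3) t145)))))))))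
noncomputable def l28723 : Lb := (@Lb.d (nat_lit 136) (nat_lit 338) (nat_lit 576) (@Lb.r r1096 (@Lb.r r619 (@Lb.r r2390 (@Lb.r r657 (@Lb.g g7 (@Lb.g g5 (@Lb.d (nat_lit 0) (nat_lit 1) (nat_lit 128) (@Lb.fm (nat_lit 3) t3252)))))))))
noncomputable def l28724 : Lb := (@Lb.d (nat_lit 68) (nat_lit 22) (nat_lit 357) (@Lb.r r1635 (@Lb.r r1362 (@Lb.r r661 (@Lb.g g7 (@Lb.g g4 (@Lb.d (nat_lit 1) (nat_lit 16) (nat_lit 128) (@Lb.fp (nat_lit 3) t3221))))))))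
noncomputable def l28725 : Lb := (@Lb.d (nat_lit 6) (nat_lit 326) (nat_lit 70) (@Lb.r r289 (@Lb.r r279 (@Lb.r r584 (@Lb.r r326 (@Lb.g g7 (@Lb.g g6 (@Lb.g g5 (@Lb.d (nat_lit 4) (nat_lit 8) (nat_lit 64) (@Lb.t (@Lb.fp (nat_lit 9) t151)))))))))))
noncomputable def l28726 : Lb := (@Lb.d (nat_lit 262) (nat_lit 65) (nat_lit 0) (@Lb.r r24 (@Lb.r r2138 (@Lb.g g5 (@Lb.d (nat_lit 4) (nat_lit 1) (nat_lit 0) (@Lb.t (@Lb.fp (nat_lit 3) t1221)))))))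
noncomputable def l28727 : Lb := (@Lb.g g5 (@Lb.r r24 (@Lb.d (nat_lit 321) (nat_lit 320) (nat_lit 512) (@Lb.t (@Lb.fp (nat_lit 3) t716)))))
noncomputable def l28728 : Lb := (@Lb.d (nat_lit 0) (nat_lit 0) (nat_lit 136) (@Lb.g g5 (@Lb.g g11 (@Lb.d (nat_lit 5) (nat_lit 1) (nat_lit 2) (@Lb.fp (nat_lit 3) t2)))))
noncomputable def l28729 : Lb := (@Lb.d (nat_lit 2) (nat_lit 289) (nat_lit 66) (@Lb.g g8 (@Lb.g g9 (@Lb.g g10 (@Lb.g g11 (@Lb.r r610 (@Lb.r r404 (@Lb.r r619 (@Lb.r r516 (@Lb.d (nat_lit 37) (nat_lit 8) (nat_lit 130) (@Lb.fm (nat_lit 9) t1219)))))))))))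
noncomputable def l28730 : Lb := (@Lb.d (nat_lit 6) (nat_lit 512) (nat_lit 130) (@Lb.g g8 (@Lb.g g9 (@Lb.g g10 (@Lb.g g11 (@Lb.r r427 (@Lb.r r424 (@Lb.r r106 (@Lb.r r2153 (@Lb.r r36 (@Lb.d (nat_lit 41) (nat_lit 65) (nat_lit 105) (@Lb.fp (nat_lit 9) t1025))))))))))))
noncomputable def l28731 : Lb := (@Lb.d (nat_lit 6) (nat_lit 256) (nat_lit 73) (@Lb.g g8 (@Lb.g g9 (@Lb.g g10 (@Lb.g g11 (@Lb.r r427 (@Lb.r r424 (@Lb.r r106 (@Lb.r r2153 (@Lb.r r36 (@Lb.d (nat_lit 36) (nat_lit 64) (nat_lit 105) (@Lb.fp (nat_lit 9) t1025))))))))))))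
noncomputable def l28732 : Lb := (@Lb.r r1158 (@Lb.r r2136 (@Lb.r r2341 (@Lb.r r2579 (@Lb.d (nat_lit 2) (nat_lit 0) (nat_lit 69) (@Lb.fp (nat_lit 1) t1593))))))
noncomputable def l28733 : Lb := (@Lb.d (nat_lit 2) (nat_lit 514) (nat_lit 130) (@Lb.g g8 (@Lb.g g9 (@Lb.g g10 (@Lb.g g11 (@Lb.r r427 (@Lb.r r420 (@Lb.r r102 (@Lb.r r2149 (@Lb.r r1156 (@Lb.d (nat_lit 553) (nat_lit 65) (nat_lit 2) (@Lb.fm (nat_lit 9) t5261))))))))))))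
noncomputable def l28734 : Lb := (@Lb.d (nat_lit 0) (nat_lit 256) (nat_lit 128) (@Lb.g g11 (@Lb.r r1346 (@Lb.r r387 (@Lb.r r1425 (@Lb.d (nat_lit 0) (nat_lit 164) (nat_lit 544) (@Lb.t (@Lb.fp (nat_lit 3) t1466))))))))
noncomputable def l28735 : Lb := (@Lb.d (nat_lit 0) (nat_lit 288) (nat_lit 128) (@Lb.g g11 (@Lb.r r618 (@Lb.r r600 (@Lb.r r293 (@Lb.r r1303 (@Lb.d (nat_lit 132) (nat_lit 146) (nat_lit 384) (@Lb.t (@Lb.fp (nat_lit 3) t4777)))))))))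
noncomputable def l28736 : Lb := (@Lb.d (nat_lit 2) (nat_lit 402) (nat_lit 389) (@Lb.r r579 (@Lb.r r1362 (@Lb.g g6 (@Lb.g g5 (@Lb.g g8 (@Lb.d (nat_lit 2) (nat_lit 129) (nat_lit 1) (@Lb.t (@Lb.fp (nat_lit 9) t126)))))))))
noncomputable def l28737 : Lb := (@Lb.d (nat_lit 0) (nat_lit 0) (nat_lit 64) (@Lb.g g7 (@Lb.r r2118 (@Lb.r r2069 (@Lb.r r8 (@Lb.d (nat_lit 128) (nat_lit 0) (nat_lit 660) (@Lb.t (@Lb.fp (nat_lit 3) t2817))))))))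
noncomputable def l28738 : Lb := (@Lb.d (nat_lit 0) (nat_lit 256) (nat_lit 136) (@Lb.g g11 (@Lb.d (nat_lit 618) (nat_lit 2) (nat_lit 530) (@Lb.t (@Lb.fp (nat_lit 3) t698)))))
noncomputable def l28739 : Lb := (@Lb.r r2069 (@Lb.r r2118 (@Lb.d (nat_lit 522) (nat_lit 512) (nat_lit 0) (@Lb.g g8 (@Lb.d (nat_lit 1) (nat_lit 128) (nat_lit 0) (@Lb.t (@Lb.fp (nat_lit 3) t5167)))))))
noncomputable def l28740 : Lb := (@Lb.d (nat_lit 578) (nat_lit 517) (nat_lit 88) (@Lb.r r2698 (@Lb.r r2475 (@Lb.r r1365 (@Lb.g g7 (@Lb.g g6 (@Lb.g g4 (@Lb.d (nat_lit 257) (nat_lit 8) (nat_lit 134) (@Lb.r r25 (@Lb.t (@Lb.fm (nat_lit 9) t988)))))))))))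
noncomputable def l28741 : Lb := (@Lb.d (nat_lit 40) (nat_lit 512) (nat_lit 64) (@Lb.g g8 (@Lb.g g11 (@Lb.r r2626 (@Lb.r r2395 (@Lb.r r1573 (@Lb.r r1300 (@Lb.d (nat_lit 326) (nat_lit 20) (nat_lit 257) (@Lb.fp (nat_lit 3) t322)))))))))
noncomputable def l28742 : Lb := (@Lb.d (nat_lit 34) (nat_lit 258) (nat_lit 128) (@Lb.g g8 (@Lb.g g9 (@Lb.g g11 (@Lb.r r662 (@Lb.r r2455 (@Lb.r r97 (@Lb.r r1560 (@Lb.d (nat_lit 266) (nat_lit 105) (nat_lit 38) (@Lb.t (@Lb.fp (nat_lit 9) t564)))))))))))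
noncomputable def l28743 : Lb := (@Lb.d (nat_lit 9) (nat_lit 1) (nat_lit 74) (@Lb.g g8 (@Lb.g g9 (@Lb.g g10 (@Lb.g g11 (@Lb.r r1194 (@Lb.r r680 (@Lb.r r427 (@Lb.r r1445 (@Lb.r r1044 (@Lb.d (nat_lit 362) (nat_lit 128) (nat_lit 618) (@Lb.fm (nat_lit 9) t994))))))))))))
noncomputable def l28744 : Lb := (@Lb.r r82 (@Lb.d (nat_lit 128) (nat_lit 74) (nat_lit 136) (@Lb.g g5 (@Lb.g g11 (@Lb.r r392 (@Lb.r r410 (@Lb.r r615 (@Lb.d (nat_lit 154) (nat_lit 104) (nat_lit 586) (@Lb.fm (nat_lit 3) t475)))))))))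
noncomputable def l28745 : Lb := (@Lb.d (nat_lit 5) (nat_lit 512) (nat_lit 130) (@Lb.g g8 (@Lb.g g9 (@Lb.g g10 (@Lb.g g11 (@Lb.r r1706 (@Lb.r r648 (@Lb.r r1563 (@Lb.r r2337 (@Lb.r r36 (@Lb.d (nat_lit 641) (nat_lit 98) (nat_lit 64) (@Lb.fp (nat_lit 9) t242))))))))))))
noncomputable def l28746 : Lb := (@Lb.g g8 (@Lb.g g7 (@Lb.r r1291 (@Lb.d (nat_lit 512) (nat_lit 256) (nat_lit 0) (@Lb.fp (nat_lit 3) t441)))))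
noncomputable def l28747 : Lb := (@Lb.r r21 (@Lb.r r70 (@Lb.d (nat_lit 265) (nat_lit 0) (nat_lit 0) (@Lb.g g4 (@Lb.r r74 (@Lb.r r25 (@Lb.d (nat_lit 517) (nat_lit 129) (nat_lit 0) (@Lb.t (@Lb.fm (nat_lit 3) t1043)))))))))
noncomputable def l28748 : Lb := (@Lb.r r20 (@Lb.r r82 (@Lb.d (nat_lit 4) (nat_lit 358) (nat_lit 128) (@Lb.g g5 (@Lb.g g11 (@Lb.r r1560 (@Lb.r r1419 (@Lb.r r386 (@Lb.d (nat_lit 96) (nat_lit 8) (nat_lit 266) (@Lb.fp (nat_lit 3) t739))))))))))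
noncomputable def l28749 : Lb := (@Lb.r r21 (@Lb.r r70 (@Lb.d (nat_lit 610) (nat_lit 0) (nat_lit 0) (@Lb.g g4 (@Lb.r r1291 (@Lb.r r402 (@Lb.r r97 (@Lb.d (nat_lit 520) (nat_lit 8) (nat_lit 514) (@Lb.t (@Lb.fm (nat_lit 3) t739))))))))))
noncomputable def l28750 : Lb := (@Lb.d (nat_lit 130) (nat_lit 514) (nat_lit 128) (@Lb.g g8 (@Lb.g g9 (@Lb.g g11 (@Lb.r r662 (@Lb.r r2455 (@Lb.r r97 (@Lb.r r2584 (@Lb.d (nat_lit 521) (nat_lit 169) (nat_lit 38) (@Lb.t (@Lb.fp (nat_lit 9) t1126)))))))))))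
noncomputable def l28751 : Lb := (@Lb.d (nat_lit 138) (nat_lit 0) (nat_lit 328) (@Lb.g g8 (@Lb.g g11 (@Lb.r r2662 (@Lb.r r613 (@Lb.r r2452 (@Lb.d (nat_lit 614) (nat_lit 137) (nat_lit 674) (@Lb.fp (nat_lit 3) t927))))))))
noncomputable def l28752 : Lb := (@Lb.d (nat_lit 0) (nat_lit 1) (nat_lit 130) (@Lb.g g8 (@Lb.g g9 (@Lb.g g10 (@Lb.g g11 (@Lb.r r2154 (@Lb.r r105 (@Lb.r r596 (@Lb.r r1319 (@Lb.r r2564 (@Lb.d (nat_lit 0) (nat_lit 89) (nat_lit 642) (@Lb.fm (nat_lit 9) t71))))))))))))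
noncomputable def l28753 : Lb := (@Lb.d (nat_lit 0) (nat_lit 2) (nat_lit 128) (@Lb.g g9 (@Lb.g g10 (@Lb.g g11 (@Lb.r r1699 (@Lb.r r1685 (@Lb.r r1174 (@Lb.r r8 (@Lb.d (nat_lit 280) (nat_lit 74) (nat_lit 681) (@Lb.t (@Lb.fp (nat_lit 9) t646)))))))))))
noncomputable def l28754 : Lb := (@Lb.r r21 (@Lb.d (nat_lit 6) (nat_lit 256) (nat_lit 130) (@Lb.g g8 (@Lb.g g10 (@Lb.g g11 (@Lb.r r2666 (@Lb.r r579 (@Lb.r r25 (@Lb.d (nat_lit 9) (nat_lit 160) (nat_lit 640) (@Lb.t (@Lb.fp (nat_lit 9) t51)))))))))))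
noncomputable def l28755 : Lb := (@Lb.d (nat_lit 10) (nat_lit 40) (nat_lit 146) (@Lb.g g8 (@Lb.g g10 (@Lb.g g11 (@Lb.r r353 (@Lb.r r535 (@Lb.r r2436 (@Lb.d (nat_lit 84) (nat_lit 128) (nat_lit 649) (@Lb.t (@Lb.fm (nat_lit 9) t221))))))))))
noncomputable def l28756 : Lb := (@Lb.r r21 (@Lb.d (nat_lit 2) (nat_lit 544) (nat_lit 130) (@Lb.g g8 (@Lb.g g10 (@Lb.g g11 (@Lb.r r2138 (@Lb.r r149 (@Lb.r r328 (@Lb.r r423 (@Lb.d (nat_lit 96) (nat_lit 21) (nat_lit 389) (@Lb.t (@Lb.fp (nat_lit 9) t119))))))))))))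
noncomputable def l28757 : Lb := (@Lb.d (nat_lit 0) (nat_lit 256) (nat_lit 130) (@Lb.g g10 (@Lb.g g11 (@Lb.r r2658 (@Lb.r r579 (@Lb.d (nat_lit 1) (nat_lit 97) (nat_lit 640) (@Lb.fp (nat_lit 3) t51)))))))
noncomputable def l28758 : Lb := (@Lb.r r21 (@Lb.d (nat_lit 6) (nat_lit 512) (nat_lit 130) (@Lb.g g8 (@Lb.g g10 (@Lb.g g11 (@Lb.r r2666 (@Lb.r r579 (@Lb.r r25 (@Lb.d (nat_lit 0) (nat_lit 161) (nat_lit 640) (@Lb.t (@Lb.fp (nat_lit 9) t51)))))))))))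
noncomputable def l28759 : Lb := (@Lb.d (nat_lit 128) (nat_lit 9) (nat_lit 64) (@Lb.g g9 (@Lb.g g11 (@Lb.r r264 (@Lb.r r519 (@Lb.r r146 (@Lb.r r97 (@Lb.d (nat_lit 129) (nat_lit 152) (nat_lit 257) (@Lb.fm (nat_lit 3) t210)))))))))
noncomputable def l28760 : Lb := (@Lb.d (nat_lit 676) (nat_lit 512) (nat_lit 105) (@Lb.r r644 (@Lb.r r614 (@Lb.r r1435 (@Lb.g g7 (@Lb.g g6 (@Lb.g g9 (@Lb.g g4 (@Lb.d (nat_lit 132) (nat_lit 64) (nat_lit 1) (@Lb.fm (nat_lit 9) t145))))))))))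
noncomputable def l28761 : Lb := (@Lb.d (nat_lit 9) (nat_lit 520) (nat_lit 130) (@Lb.g g8 (@Lb.g g10 (@Lb.g g11 (@Lb.r r681 (@Lb.r r619 (@Lb.r r326 (@Lb.r r2436 (@Lb.d (nat_lit 289) (nat_lit 90) (nat_lit 617) (@Lb.t (@Lb.fm (nat_lit 9) t311)))))))))))
noncomputable def l28762 : Lb := (@Lb.r r275 (@Lb.g g8 (@Lb.g g5 (@Lb.r r609 (@Lb.r r1635 (@Lb.r r82 (@Lb.r r2193 (@Lb.p (nat_lit 1) (@Lb.fp (nat_lit 3) t927)))))))))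
noncomputable def l28763 : Lb := (@Lb.r r70 (@Lb.r r263 (@Lb.d (nat_lit 9) (nat_lit 1) (nat_lit 0) (@Lb.g g8 (@Lb.g g9 (@Lb.r r296 (@Lb.r r2631 (@Lb.r r418 (@Lb.r r145 (@Lb.d (nat_lit 0) (nat_lit 10) (nat_lit 32) (@Lb.fp (nat_lit 3) t739)))))))))))
noncomputable def l28764 : Lb := (@Lb.r r273 (@Lb.d (nat_lit 16) (nat_lit 264) (nat_lit 522) (@Lb.g g8 (@Lb.g g10 (@Lb.g g7 (@Lb.r r593 (@Lb.r r2146 (@Lb.r r1048 (@Lb.d (nat_lit 522) (nat_lit 73) (nat_lit 290) (@Lb.t (@Lb.fm (nat_lit 9) t5262)))))))))))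
noncomputable def l28765 : Lb := (@Lb.d (nat_lit 2) (nat_lit 9) (nat_lit 129) (@Lb.g g8 (@Lb.g g9 (@Lb.g g10 (@Lb.g g11 (@Lb.r r2722 (@Lb.r r2467 (@Lb.r r292 (@Lb.r r405 (@Lb.r r2084 (@Lb.d (nat_lit 97) (nat_lit 10) (nat_lit 601) (@Lb.fm (nat_lit 9) t801))))))))))))
noncomputable def l28766 : Lb := (@Lb.d (nat_lit 16) (nat_lit 520) (nat_lit 18) (@Lb.g g10 (@Lb.r r1427 (@Lb.r r101 (@Lb.r r24 (@Lb.d (nat_lit 258) (nat_lit 1) (nat_lit 2) (@Lb.t (@Lb.fp (nat_lit 3) t1920))))))))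
noncomputable def l28767 : Lb := (@Lb.d (nat_lit 16) (nat_lit 264) (nat_lit 18) (@Lb.g g10 (@Lb.r r1427 (@Lb.r r101 (@Lb.r r24 (@Lb.d (nat_lit 260) (nat_lit 65) (nat_lit 2) (@Lb.t (@Lb.fp (nat_lit 3) t1920))))))))
noncomputable def l28768 : Lb := (@Lb.r r275 (@Lb.d (nat_lit 130) (nat_lit 258) (nat_lit 2) (@Lb.g g8 (@Lb.g g9 (@Lb.g g10 (@Lb.r r599 (@Lb.r r98 (@Lb.r r324 (@Lb.d (nat_lit 81) (nat_lit 4) (nat_lit 25) (@Lb.t (@Lb.fp (nat_lit 9) t3095)))))))))))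
noncomputable def l28769 : Lb := (@Lb.d (nat_lit 1) (nat_lit 258) (nat_lit 130) (@Lb.g g8 (@Lb.g g9 (@Lb.g g10 (@Lb.g g11 (@Lb.r r427 (@Lb.r r145 (@Lb.r r356 (@Lb.r r154 (@Lb.r r132 (@Lb.d (nat_lit 552) (nat_lit 2) (nat_lit 169) (@Lb.fm (nat_lit 9) t221))))))))))))
noncomputable def l28770 : Lb := (@Lb.d (nat_lit 2) (nat_lit 2) (nat_lit 130) (@Lb.g g8 (@Lb.g g9 (@Lb.g g10 (@Lb.g g11 (@Lb.r r427 (@Lb.r r424 (@Lb.r r106 (@Lb.r r25 (@Lb.d (nat_lit 20) (nat_lit 132) (nat_lit 17) (@Lb.fm (nat_lit 9) t5263)))))))))))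
noncomputable def l28771 : Lb := (@Lb.r r323 (@Lb.d (nat_lit 129) (nat_lit 512) (nat_lit 0) (@Lb.g g8 (@Lb.g g10 (@Lb.r r279 (@Lb.r r97 (@Lb.r r146 (@Lb.r r612 (@Lb.d (nat_lit 153) (nat_lit 26) (nat_lit 69) (@Lb.fm (nat_lit 3) t319))))))))))
noncomputable def l28772 : Lb := (@Lb.d (nat_lit 32) (nat_lit 0) (nat_lit 2) (@Lb.g g10 (@Lb.r r603 (@Lb.r r2341 (@Lb.r r72 (@Lb.r r150 (@Lb.d (nat_lit 260) (nat_lit 0) (nat_lit 0) (@Lb.t (@Lb.fp (nat_lit 3) t296)))))))))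
noncomputable def l28773 : Lb := (@Lb.d (nat_lit 138) (nat_lit 0) (nat_lit 22) (@Lb.g g8 (@Lb.g g10 (@Lb.r r661 (@Lb.r r1559 (@Lb.r r1444 (@Lb.d (nat_lit 584) (nat_lit 161) (nat_lit 424) (@Lb.fp (nat_lit 3) t296))))))))
noncomputable def l28774 : Lb := (@Lb.d (nat_lit 130) (nat_lit 514) (nat_lit 66) (@Lb.g g8 (@Lb.g g9 (@Lb.g g10 (@Lb.g g11 (@Lb.r r1674 (@Lb.r r1419 (@Lb.r r1129 (@Lb.r r2084 (@Lb.d (nat_lit 130) (nat_lit 88) (nat_lit 601) (@Lb.fp (nat_lit 9) t3814)))))))))))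
noncomputable def l28775 : Lb := (@Lb.d (nat_lit 0) (nat_lit 402) (nat_lit 389) (@Lb.r r579 (@Lb.r r1362 (@Lb.g g7 (@Lb.g g6 (@Lb.g g5 (@Lb.g g8 (@Lb.d (nat_lit 2) (nat_lit 129) (nat_lit 65) (@Lb.fp (nat_lit 9) t126)))))))))
noncomputable def l28776 : Lb := (@Lb.d (nat_lit 678) (nat_lit 657) (nat_lit 8) (@Lb.r r1365 (@Lb.r r2390 (@Lb.r r2667 (@Lb.g g7 (@Lb.g g6 (@Lb.g g5 (@Lb.g g4 (@Lb.d (nat_lit 8) (nat_lit 40) (nat_lit 134) (@Lb.fm (nat_lit 9) t2211))))))))))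
noncomputable def l28777 : Lb := (@Lb.r r1045 (@Lb.d (nat_lit 18) (nat_lit 0) (nat_lit 144) (@Lb.g g4 (@Lb.g g10 (@Lb.g g11 (@Lb.r r387 (@Lb.d (nat_lit 1) (nat_lit 0) (nat_lit 137) (@Lb.t (@Lb.fp (nat_lit 9) t367)))))))))
noncomputable def l28778 : Lb := (@Lb.g g8 (@Lb.g g7 (@Lb.r r609 (@Lb.r r619 (@Lb.r r584 (@Lb.r r1414 (@Lb.d (nat_lit 512) (nat_lit 0) (nat_lit 356) (@Lb.fp (nat_lit 3) t2877))))))))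
noncomputable def l28779 : Lb := (@Lb.d (nat_lit 1) (nat_lit 256) (nat_lit 0) (@Lb.r r24 (@Lb.r r101 (@Lb.r r402 (@Lb.g g7 (@Lb.d (nat_lit 0) (nat_lit 0) (nat_lit 68) (@Lb.t (@Lb.fp (nat_lit 3) t50))))))))
noncomputable def l28780 : Lb := (@Lb.r r82 (@Lb.d (nat_lit 2) (nat_lit 514) (nat_lit 0) (@Lb.g g8 (@Lb.g g9 (@Lb.r r299 (@Lb.r r386 (@Lb.r r2084 (@Lb.r r1061 (@Lb.d (nat_lit 40) (nat_lit 1) (nat_lit 546) (@Lb.fm (nat_lit 3) t2171))))))))))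
noncomputable def l28781 : Lb := (@Lb.d (nat_lit 34) (nat_lit 512) (nat_lit 0) (@Lb.g g8 (@Lb.r r289 (@Lb.r r2579 (@Lb.r r150 (@Lb.r r2660 (@Lb.d (nat_lit 666) (nat_lit 73) (nat_lit 324) (@Lb.t (@Lb.fm (nat_lit 3) t5264)))))))))
noncomputable def l28782 : Lb := (@Lb.d (nat_lit 6) (nat_lit 0) (nat_lit 130) (@Lb.g g8 (@Lb.g g9 (@Lb.g g10 (@Lb.g g11 (@Lb.r r427 (@Lb.r r420 (@Lb.r r102 (@Lb.r r97 (@Lb.r r36 (@Lb.d (nat_lit 9) (nat_lit 130) (nat_lit 138) (@Lb.fm (nat_lit 9) t51))))))))))))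
noncomputable def l28783 : Lb := (@Lb.d (nat_lit 4) (nat_lit 418) (nat_lit 130) (@Lb.g g9 (@Lb.g g10 (@Lb.g g11 (@Lb.r r2467 (@Lb.r r98 (@Lb.r r36 (@Lb.d (nat_lit 6) (nat_lit 9) (nat_lit 665) (@Lb.t (@Lb.fm (nat_lit 9) t842))))))))))
noncomputable def l28784 : Lb := (@Lb.r r82 (@Lb.d (nat_lit 2) (nat_lit 641) (nat_lit 0) (@Lb.g g8 (@Lb.g g5 (@Lb.r r98 (@Lb.r r24 (@Lb.d (nat_lit 10) (nat_lit 66) (nat_lit 0) (@Lb.fm (nat_lit 3) t1043))))))))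
noncomputable def l28785 : Lb := (@Lb.r r1045 (@Lb.r r1094 (@Lb.r r1287 (@Lb.d (nat_lit 321) (nat_lit 512) (nat_lit 0) (@Lb.g g4 (@Lb.d (nat_lit 2) (nat_lit 0) (nat_lit 384) (@Lb.t (@Lb.fm (nat_lit 3) t428))))))))
noncomputable def l28786 : Lb := (@Lb.r r322 (@Lb.d (nat_lit 0) (nat_lit 289) (nat_lit 644) (@Lb.g g9 (@Lb.g g7 (@Lb.r r418 (@Lb.r r289 (@Lb.d (nat_lit 0) (nat_lit 81) (nat_lit 4) (@Lb.fp (nat_lit 3) t1655))))))))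
noncomputable def l28787 : Lb := (@Lb.d (nat_lit 0) (nat_lit 292) (nat_lit 657) (@Lb.r r354 (@Lb.r r1427 (@Lb.g g10 (@Lb.g g5 (@Lb.fp (nat_lit 3) t87))))))
noncomputable def l28788 : Lb := (@Lb.d (nat_lit 0) (nat_lit 658) (nat_lit 420) (@Lb.r r579 (@Lb.r r1362 (@Lb.g g7 (@Lb.g g6 (@Lb.g g5 (@Lb.d (nat_lit 0) (nat_lit 0) (nat_lit 134) (@Lb.t (@Lb.fm (nat_lit 9) t87)))))))))
noncomputable def l28789 : Lb := (@Lb.d (nat_lit 32) (nat_lit 2) (nat_lit 66) (@Lb.g g9 (@Lb.g g10 (@Lb.g g11 (@Lb.r r419 (@Lb.r r149 (@Lb.r r100 (@Lb.r r410 (@Lb.d (nat_lit 153) (nat_lit 21) (nat_lit 136) (@Lb.t (@Lb.fp (nat_lit 9) t61)))))))))))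
noncomputable def l28790 : Lb := (@Lb.d (nat_lit 9) (nat_lit 257) (nat_lit 130) (@Lb.g g8 (@Lb.g g9 (@Lb.g g10 (@Lb.g g11 (@Lb.r r427 (@Lb.r r145 (@Lb.r r356 (@Lb.r r154 (@Lb.r r132 (@Lb.d (nat_lit 9) (nat_lit 9) (nat_lit 18) (@Lb.fm (nat_lit 9) t221))))))))))))
noncomputable def l28791 : Lb := (@Lb.d (nat_lit 8) (nat_lit 258) (nat_lit 0) (@Lb.g g9 (@Lb.g g11 (@Lb.r r658 (@Lb.r r2707 (@Lb.r r24 (@Lb.r r101 (@Lb.d (nat_lit 592) (nat_lit 40) (nat_lit 386) (@Lb.fm (nat_lit 3) t240)))))))))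
noncomputable def l28792 : Lb := (@Lb.d (nat_lit 8) (nat_lit 514) (nat_lit 9) (@Lb.g g9 (@Lb.g g10 (@Lb.g g11 (@Lb.r r2691 (@Lb.r r2658 (@Lb.r r24 (@Lb.r r101 (@Lb.d (nat_lit 602) (nat_lit 42) (nat_lit 578) (@Lb.t (@Lb.fp (nat_lit 9) t240)))))))))))
noncomputable def l28793 : Lb := (@Lb.r r584 (@Lb.r r86 (@Lb.r r289 (@Lb.r r132 (@Lb.d (nat_lit 5) (nat_lit 384) (nat_lit 320) (@Lb.fp (nat_lit 1) t259))))))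
noncomputable def l28794 : Lb := (@Lb.d (nat_lit 2) (nat_lit 264) (nat_lit 130) (@Lb.g g8 (@Lb.g g9 (@Lb.g g10 (@Lb.g g11 (@Lb.r r1287 (@Lb.r r1642 (@Lb.r r1625 (@Lb.r r2564 (@Lb.d (nat_lit 426) (nat_lit 133) (nat_lit 417) (@Lb.fp (nat_lit 9) t5265)))))))))))
noncomputable def l28795 : Lb := (@Lb.d (nat_lit 0) (nat_lit 0) (nat_lit 130) (@Lb.g g10 (@Lb.g g11 (@Lb.r r419 (@Lb.r r386 (@Lb.r r101 (@Lb.d (nat_lit 149) (nat_lit 153) (nat_lit 132) (@Lb.fm (nat_lit 3) t1725))))))))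
noncomputable def l28796 : Lb := (@Lb.r r82 (@Lb.d (nat_lit 0) (nat_lit 8) (nat_lit 64) (@Lb.g g9 (@Lb.g g7 (@Lb.r r1626 (@Lb.r r1624 (@Lb.r r2341 (@Lb.d (nat_lit 576) (nat_lit 128) (nat_lit 256) (@Lb.fp (nat_lit 3) t5266)))))))))
noncomputable def l28797 : Lb := (@Lb.d (nat_lit 406) (nat_lit 130) (nat_lit 405) (@Lb.r r1350 (@Lb.r r2708 (@Lb.r r2439 (@Lb.g g6 (@Lb.g g5 (@Lb.d (nat_lit 16) (nat_lit 17) (nat_lit 6) (@Lb.fm (nat_lit 3) t5267))))))))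
noncomputable def l28798 : Lb := (@Lb.d (nat_lit 5) (nat_lit 257) (nat_lit 1) (@Lb.r r24 (@Lb.r r101 (@Lb.g g11 (@Lb.g g6 (@Lb.d (nat_lit 0) (nat_lit 4) (nat_lit 1) (@Lb.fp (nat_lit 3) t1219)))))))
noncomputable def l28799 : Lb := (@Lb.d (nat_lit 2) (nat_lit 2) (nat_lit 2) (@Lb.g g8 (@Lb.g g9 (@Lb.g g10 (@Lb.g g7 (@Lb.r r386 (@Lb.r r97 (@Lb.r r2584 (@Lb.d (nat_lit 645) (nat_lit 168) (nat_lit 393) (@Lb.fp (nat_lit 9) t996))))))))))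
noncomputable def l28800 : Lb := (@Lb.r r82 (@Lb.d (nat_lit 4) (nat_lit 0) (nat_lit 0) (@Lb.g g8 (@Lb.g g9 (@Lb.r r2118 (@Lb.r r2088 (@Lb.r r1049 (@Lb.d (nat_lit 265) (nat_lit 129) (nat_lit 0) (@Lb.fp (nat_lit 3) t1654)))))))))
noncomputable def l28801 : Lb := (@Lb.d (nat_lit 0) (nat_lit 2) (nat_lit 66) (@Lb.g g8 (@Lb.g g9 (@Lb.g g10 (@Lb.g g7 (@Lb.r r386 (@Lb.r r97 (@Lb.d (nat_lit 2) (nat_lit 138) (nat_lit 73) (@Lb.fm (nat_lit 9) t126)))))))))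
noncomputable def l28802 : Lb := (@Lb.d (nat_lit 136) (nat_lit 161) (nat_lit 64) (@Lb.r r537 (@Lb.r r660 (@Lb.r r598 (@Lb.r r1443 (@Lb.g g7 (@Lb.g g6 (@Lb.g g5 (@Lb.d (nat_lit 0) (nat_lit 36) (nat_lit 2) (@Lb.t (@Lb.fp (nat_lit 9) t634)))))))))))
noncomputable def l28803 : Lb := (@Lb.d (nat_lit 34) (nat_lit 256) (nat_lit 128) (@Lb.g g8 (@Lb.g g11 (@Lb.r r2118 (@Lb.r r1057 (@Lb.r r2212 (@Lb.d (nat_lit 554) (nat_lit 148) (nat_lit 274) (@Lb.fp (nat_lit 3) t430))))))))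
noncomputable def l28804 : Lb := (@Lb.d (nat_lit 0) (nat_lit 273) (nat_lit 2) (@Lb.g g9 (@Lb.g g10 (@Lb.g g11 (@Lb.r r347 (@Lb.r r1382 (@Lb.r r2712 (@Lb.r r1445 (@Lb.d (nat_lit 360) (nat_lit 166) (nat_lit 394) (@Lb.t (@Lb.fm (nat_lit 9) t750)))))))))))
noncomputable def l28805 : Lb := (@Lb.d (nat_lit 2) (nat_lit 0) (nat_lit 130) (@Lb.g g8 (@Lb.g g9 (@Lb.g g10 (@Lb.g g11 (@Lb.r r548 (@Lb.r r295 (@Lb.r r357 (@Lb.r r666 (@Lb.r r644 (@Lb.d (nat_lit 2) (nat_lit 2) (nat_lit 128) (@Lb.fp (nat_lit 9) t2))))))))))))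
noncomputable def l28806 : Lb := (@Lb.d (nat_lit 128) (nat_lit 521) (nat_lit 0) (@Lb.g g8 (@Lb.g g9 (@Lb.r r263 (@Lb.r r146 (@Lb.r r97 (@Lb.r r548 (@Lb.d (nat_lit 138) (nat_lit 153) (nat_lit 1) (@Lb.fm (nat_lit 3) t2)))))))))
noncomputable def l28807 : Lb := (@Lb.d (nat_lit 612) (nat_lit 297) (nat_lit 81) (@Lb.r r276 (@Lb.r r1366 (@Lb.r r267 (@Lb.g g6 (@Lb.g g5 (@Lb.g g4 (@Lb.d (nat_lit 65) (nat_lit 33) (nat_lit 1) (@Lb.t (@Lb.fp (nat_lit 9) t590))))))))))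
noncomputable def l28808 : Lb := (@Lb.g g5 (@Lb.r r289 (@Lb.r r535 (@Lb.r r328 (@Lb.r r134 (@Lb.t (@Lb.fm (nat_lit 3) t40)))))))
noncomputable def l28809 : Lb := (@Lb.d (nat_lit 513) (nat_lit 36) (nat_lit 681) (@Lb.r r97 (@Lb.r r331 (@Lb.r r264 (@Lb.g g7 (@Lb.g g10 (@Lb.g g5 (@Lb.d (nat_lit 80) (nat_lit 1) (nat_lit 66) (@Lb.t (@Lb.fm (nat_lit 9) t3914))))))))))
noncomputable def l28810 : Lb := (@Lb.r r1045 (@Lb.d (nat_lit 261) (nat_lit 256) (nat_lit 74) (@Lb.g g4 (@Lb.g g10 (@Lb.g g11 (@Lb.r r610 (@Lb.r r579 (@Lb.d (nat_lit 1) (nat_lit 97) (nat_lit 74) (@Lb.t (@Lb.fm (nat_lit 9) t51))))))))))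
noncomputable def l28811 : Lb := (@Lb.d (nat_lit 513) (nat_lit 280) (nat_lit 664) (@Lb.r r418 (@Lb.r r401 (@Lb.r r299 (@Lb.r r264 (@Lb.g g7 (@Lb.g g6 (@Lb.g g5 (@Lb.d (nat_lit 84) (nat_lit 1) (nat_lit 64) (@Lb.t (@Lb.fp (nat_lit 9) t441)))))))))))
noncomputable def l28812 : Lb := (@Lb.d (nat_lit 146) (nat_lit 536) (nat_lit 136) (@Lb.r r418 (@Lb.r r401 (@Lb.r r299 (@Lb.r r264 (@Lb.g g7 (@Lb.g g6 (@Lb.g g5 (@Lb.d (nat_lit 84) (nat_lit 1) (nat_lit 64) (@Lb.t (@Lb.fp (nat_lit 9) t2)))))))))))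
noncomputable def l28813 : Lb := (@Lb.d (nat_lit 145) (nat_lit 24) (nat_lit 136) (@Lb.r r418 (@Lb.r r401 (@Lb.r r299 (@Lb.r r264 (@Lb.g g7 (@Lb.g g6 (@Lb.g g5 (@Lb.d (nat_lit 84) (nat_lit 1) (nat_lit 64) (@Lb.t (@Lb.fp (nat_lit 9) t2)))))))))))
noncomputable def l28814 : Lb := (@Lb.d (nat_lit 0) (nat_lit 73) (nat_lit 73) (@Lb.g g9 (@Lb.g g10 (@Lb.g g11 (@Lb.r r2467 (@Lb.r r2146 (@Lb.r r36 (@Lb.d (nat_lit 8) (nat_lit 74) (nat_lit 169) (@Lb.t (@Lb.fm (nat_lit 9) t74))))))))))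
noncomputable def l28815 : Lb := (@Lb.d (nat_lit 66) (nat_lit 256) (nat_lit 161) (@Lb.r r68 (@Lb.r r74 (@Lb.r r104 (@Lb.r r297 (@Lb.g g11 (@Lb.g g6 (@Lb.g g5 (@Lb.g g4 (@Lb.d (nat_lit 1) (nat_lit 1) (nat_lit 129) (@Lb.fm (nat_lit 9) t2394)))))))))))
noncomputable def l28816 : Lb := (@Lb.d (nat_lit 32) (nat_lit 514) (nat_lit 0) (@Lb.g g8 (@Lb.g g9 (@Lb.r r1106 (@Lb.r r1189 (@Lb.r r2136 (@Lb.d (nat_lit 352) (nat_lit 132) (nat_lit 546) (@Lb.fm (nat_lit 3) t282))))))))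
noncomputable def l28817 : Lb := (@Lb.d (nat_lit 10) (nat_lit 322) (nat_lit 0) (@Lb.r r101 (@Lb.r r402 (@Lb.r r579 (@Lb.g g11 (@Lb.g g6 (@Lb.fm (nat_lit 3) t98)))))))
noncomputable def l28818 : Lb := (@Lb.d (nat_lit 0) (nat_lit 1) (nat_lit 128) (@Lb.g g9 (@Lb.g g10 (@Lb.g g11 (@Lb.r r2583 (@Lb.r r418 (@Lb.r r1320 (@Lb.r r1433 (@Lb.d (nat_lit 610) (nat_lit 36) (nat_lit 613) (@Lb.t (@Lb.fp (nat_lit 9) t1122)))))))))))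
noncomputable def l28819 : Lb := (@Lb.d (nat_lit 0) (nat_lit 646) (nat_lit 8) (@Lb.g g9 (@Lb.g g10 (@Lb.r r599 (@Lb.r r404 (@Lb.r r422 (@Lb.d (nat_lit 106) (nat_lit 128) (nat_lit 682) (@Lb.fm (nat_lit 3) t898))))))))
noncomputable def l28820 : Lb := (@Lb.d (nat_lit 144) (nat_lit 512) (nat_lit 66) (@Lb.g g6 (@Lb.g g11 (@Lb.r r264 (@Lb.r r279 (@Lb.r r609 (@Lb.d (nat_lit 26) (nat_lit 10) (nat_lit 16) (@Lb.fp (nat_lit 3) t334))))))))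
noncomputable def l28821 : Lb := (@Lb.d (nat_lit 144) (nat_lit 0) (nat_lit 130) (@Lb.g g6 (@Lb.g g11 (@Lb.r r264 (@Lb.r r279 (@Lb.r r609 (@Lb.d (nat_lit 24) (nat_lit 10) (nat_lit 16) (@Lb.fp (nat_lit 3) t334))))))))
noncomputable def l28822 : Lb := (@Lb.d (nat_lit 128) (nat_lit 0) (nat_lit 64) (@Lb.g g11 (@Lb.r r328 (@Lb.r r407 (@Lb.r r2454 (@Lb.r r609 (@Lb.d (nat_lit 0) (nat_lit 66) (nat_lit 34) (@Lb.t (@Lb.fm (nat_lit 3) t334)))))))))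
noncomputable def l28823 : Lb := (@Lb.d (nat_lit 34) (nat_lit 8) (nat_lit 97) (@Lb.r r70 (@Lb.r r392 (@Lb.r r599 (@Lb.g g6 (@Lb.g g5 (@Lb.g g4 (@Lb.d (nat_lit 1) (nat_lit 17) (nat_lit 1) (@Lb.r r387 (@Lb.t (@Lb.fp (nat_lit 9) t242)))))))))))
noncomputable def l28824 : Lb := (@Lb.d (nat_lit 4) (nat_lit 326) (nat_lit 38) (@Lb.r r24 (@Lb.r r1121 (@Lb.r r386 (@Lb.g g11 (@Lb.g g6 (@Lb.g g5 (@Lb.d (nat_lit 0) (nat_lit 32) (nat_lit 390) (@Lb.t (@Lb.fp (nat_lit 9) t51))))))))))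
noncomputable def l28825 : Lb := (@Lb.d (nat_lit 165) (nat_lit 597) (nat_lit 65) (@Lb.r r101 (@Lb.r r418 (@Lb.r r355 (@Lb.g g7 (@Lb.g g6 (@Lb.d (nat_lit 0) (nat_lit 0) (nat_lit 66) (@Lb.fm (nat_lit 3) t50))))))))
noncomputable def l28826 : Lb := (@Lb.d (nat_lit 1) (nat_lit 677) (nat_lit 644) (@Lb.r r1284 (@Lb.r r2315 (@Lb.r r404 (@Lb.r r2153 (@Lb.g g7 (@Lb.g g10 (@Lb.g g5 (@Lb.g g4 (@Lb.d (nat_lit 6) (nat_lit 9) (nat_lit 97) (@Lb.fp (nat_lit 9) t145)))))))))))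
noncomputable def l28827 : Lb := (@Lb.r r1045 (@Lb.d (nat_lit 18) (nat_lit 512) (nat_lit 0) (@Lb.g g8 (@Lb.g g10 (@Lb.r r2634 (@Lb.r r579 (@Lb.r r1288 (@Lb.d (nat_lit 289) (nat_lit 0) (nat_lit 674) (@Lb.fm (nat_lit 3) t1524)))))))))
noncomputable def l28828 : Lb := (@Lb.d (nat_lit 674) (nat_lit 512) (nat_lit 6) (@Lb.r r1604 (@Lb.r r2645 (@Lb.r r2698 (@Lb.g g11 (@Lb.g g6 (@Lb.g g4 (@Lb.d (nat_lit 1) (nat_lit 0) (nat_lit 128) (@Lb.t (@Lb.fp (nat_lit 9) t1524))))))))))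
noncomputable def l28829 : Lb := (@Lb.d (nat_lit 256) (nat_lit 165) (nat_lit 294) (@Lb.r r21 (@Lb.r r2664 (@Lb.r r386 (@Lb.g g11 (@Lb.g g6 (@Lb.g g5 (@Lb.g g4 (@Lb.d (nat_lit 8) (nat_lit 0) (nat_lit 1) (@Lb.fm (nat_lit 9) t994))))))))))
noncomputable def l28830 : Lb := (@Lb.d (nat_lit 8) (nat_lit 513) (nat_lit 130) (@Lb.g g8 (@Lb.g g9 (@Lb.g g10 (@Lb.g g11 (@Lb.r r1642 (@Lb.r r1640 (@Lb.r r1323 (@Lb.r r1313 (@Lb.d (nat_lit 9) (nat_lit 97) (nat_lit 345) (@Lb.fp (nat_lit 9) t356)))))))))))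
noncomputable def l28831 : Lb := (@Lb.d (nat_lit 2) (nat_lit 529) (nat_lit 642) (@Lb.r r2567 (@Lb.r r1300 (@Lb.r r105 (@Lb.g g10 (@Lb.g g4 (@Lb.d (nat_lit 18) (nat_lit 8) (nat_lit 16) (@Lb.r r387 (@Lb.r r145 (@Lb.fp (nat_lit 3) t536))))))))))
noncomputable def l28832 : Lb := (@Lb.d (nat_lit 8) (nat_lit 2) (nat_lit 130) (@Lb.g g9 (@Lb.g g10 (@Lb.g g11 (@Lb.r r166 (@Lb.r r584 (@Lb.r r299 (@Lb.r r409 (@Lb.d (nat_lit 150) (nat_lit 36) (nat_lit 361) (@Lb.t (@Lb.fm (nat_lit 9) t4374)))))))))))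
noncomputable def l28833 : Lb := (@Lb.d (nat_lit 8) (nat_lit 258) (nat_lit 64) (@Lb.g g9 (@Lb.g g10 (@Lb.g g11 (@Lb.r r1606 (@Lb.r r20 (@Lb.r r2089 (@Lb.d (nat_lit 2) (nat_lit 8) (nat_lit 386) (@Lb.t (@Lb.fp (nat_lit 9) t334))))))))))
noncomputable def l28834 : Lb := (@Lb.d (nat_lit 2) (nat_lit 258) (nat_lit 64) (@Lb.g g8 (@Lb.g g9 (@Lb.g g10 (@Lb.g g7 (@Lb.r r406 (@Lb.r r97 (@Lb.r r24 (@Lb.d (nat_lit 280) (nat_lit 9) (nat_lit 576) (@Lb.fp (nat_lit 9) t145))))))))))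
noncomputable def l28835 : Lb := (@Lb.d (nat_lit 4) (nat_lit 514) (nat_lit 2) (@Lb.g g8 (@Lb.g g9 (@Lb.g g10 (@Lb.r r363 (@Lb.r r386 (@Lb.r r1121 (@Lb.r r24 (@Lb.d (nat_lit 266) (nat_lit 137) (nat_lit 102) (@Lb.t (@Lb.fp (nat_lit 9) t61)))))))))))
noncomputable def l28836 : Lb := (@Lb.r r326 (@Lb.d (nat_lit 388) (nat_lit 514) (nat_lit 128) (@Lb.g g8 (@Lb.g g9 (@Lb.g g11 (@Lb.r r2347 (@Lb.r r2626 (@Lb.r r1049 (@Lb.d (nat_lit 521) (nat_lit 42) (nat_lit 642) (@Lb.t (@Lb.fm (nat_lit 9) t898)))))))))))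
noncomputable def l28837 : Lb := (@Lb.r r21 (@Lb.d (nat_lit 146) (nat_lit 512) (nat_lit 128) (@Lb.g g8 (@Lb.g g10 (@Lb.g g11 (@Lb.r r2706 (@Lb.r r1415 (@Lb.r r97 (@Lb.r r584 (@Lb.d (nat_lit 360) (nat_lit 66) (nat_lit 154) (@Lb.t (@Lb.fp (nat_lit 9) t1666))))))))))))
noncomputable def l28838 : Lb := (@Lb.r r21 (@Lb.r r70 (@Lb.g g4 (@Lb.r r2443 (@Lb.r r358 (@Lb.r r97 (@Lb.r r1048 (@Lb.d (nat_lit 578) (nat_lit 0) (nat_lit 512) (@Lb.t (@Lb.fm (nat_lit 3) t50))))))))))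
noncomputable def l28839 : Lb := (@Lb.d (nat_lit 4) (nat_lit 512) (nat_lit 2) (@Lb.g g8 (@Lb.g g9 (@Lb.g g10 (@Lb.r r683 (@Lb.r r2666 (@Lb.r r2585 (@Lb.d (nat_lit 329) (nat_lit 169) (nat_lit 161) (@Lb.t (@Lb.fp (nat_lit 9) t324))))))))))
noncomputable def l28840 : Lb := (@Lb.r r355 (@Lb.d (nat_lit 16) (nat_lit 520) (nat_lit 33) (@Lb.g g9 (@Lb.g g6 (@Lb.r r2667 (@Lb.r r597 (@Lb.d (nat_lit 256) (nat_lit 106) (nat_lit 24) (@Lb.fm (nat_lit 3) t98))))))))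
noncomputable def l28841 : Lb := (@Lb.d (nat_lit 0) (nat_lit 522) (nat_lit 72) (@Lb.g g9 (@Lb.g g10 (@Lb.g g11 (@Lb.r r1703 (@Lb.r r342 (@Lb.r r2577 (@Lb.d (nat_lit 338) (nat_lit 169) (nat_lit 293) (@Lb.t (@Lb.fp (nat_lit 9) t1372))))))))))
noncomputable def l28842 : Lb := (@Lb.d (nat_lit 66) (nat_lit 290) (nat_lit 66) (@Lb.g g8 (@Lb.g g9 (@Lb.g g10 (@Lb.g g11 (@Lb.r r355 (@Lb.r r386 (@Lb.r r1129 (@Lb.r r296 (@Lb.d (nat_lit 518) (nat_lit 34) (nat_lit 404) (@Lb.fm (nat_lit 9) t31)))))))))))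
noncomputable def l28843 : Lb := (@Lb.r r323 (@Lb.d (nat_lit 32) (nat_lit 0) (nat_lit 33) (@Lb.g g10 (@Lb.r r584 (@Lb.r r619 (@Lb.r r609 (@Lb.d (nat_lit 10) (nat_lit 1) (nat_lit 18) (@Lb.t (@Lb.fm (nat_lit 3) t334)))))))))
noncomputable def l28844 : Lb := (@Lb.d (nat_lit 0) (nat_lit 512) (nat_lit 5) (@Lb.g g10 (@Lb.g g11 (@Lb.r r387 (@Lb.r r402 (@Lb.r r101 (@Lb.r r24 (@Lb.d (nat_lit 2) (nat_lit 0) (nat_lit 0) (@Lb.fp (nat_lit 3) t145)))))))))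
noncomputable def l28845 : Lb := (@Lb.d (nat_lit 656) (nat_lit 0) (nat_lit 534) (@Lb.r r402 (@Lb.r r101 (@Lb.r r24 (@Lb.g g11 (@Lb.t (@Lb.fm (nat_lit 3) t1637)))))))
noncomputable def l28846 : Lb := (@Lb.d (nat_lit 4) (nat_lit 512) (nat_lit 66) (@Lb.g g8 (@Lb.g g9 (@Lb.g g10 (@Lb.g g7 (@Lb.r r2466 (@Lb.r r36 (@Lb.r r149 (@Lb.r r1060 (@Lb.d (nat_lit 160) (nat_lit 0) (nat_lit 290) (@Lb.fp (nat_lit 9) t145)))))))))))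
noncomputable def l28847 : Lb := (@Lb.d (nat_lit 2) (nat_lit 0) (nat_lit 133) (@Lb.g g8 (@Lb.g g10 (@Lb.g g7 (@Lb.r r2456 (@Lb.r r2138 (@Lb.r r421 (@Lb.d (nat_lit 5) (nat_lit 72) (nat_lit 98) (@Lb.t (@Lb.fp (nat_lit 9) t4853))))))))))
noncomputable def l28848 : Lb := (@Lb.d (nat_lit 658) (nat_lit 512) (nat_lit 154) (@Lb.r r2641 (@Lb.r r579 (@Lb.r r2370 (@Lb.g g7 (@Lb.g g8 (@Lb.d (nat_lit 2) (nat_lit 0) (nat_lit 64) (@Lb.fm (nat_lit 3) t148))))))))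
noncomputable def l28849 : Lb := (@Lb.d (nat_lit 658) (nat_lit 520) (nat_lit 0) (@Lb.g g8 (@Lb.g g9 (@Lb.r r1543 (@Lb.r r2450 (@Lb.r r2385 (@Lb.d (nat_lit 2) (nat_lit 34) (nat_lit 602) (@Lb.fm (nat_lit 3) t5268))))))))
noncomputable def l28850 : Lb := (@Lb.d (nat_lit 2) (nat_lit 4) (nat_lit 133) (@Lb.g g8 (@Lb.g g9 (@Lb.g g10 (@Lb.g g7 (@Lb.r r420 (@Lb.r r102 (@Lb.r r21 (@Lb.r r36 (@Lb.d (nat_lit 154) (nat_lit 149) (nat_lit 72) (@Lb.fm (nat_lit 9) t5269)))))))))))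
noncomputable def l28851 : Lb := (@Lb.d (nat_lit 658) (nat_lit 264) (nat_lit 0) (@Lb.g g8 (@Lb.g g9 (@Lb.r r1543 (@Lb.r r2450 (@Lb.r r2385 (@Lb.d (nat_lit 4) (nat_lit 32) (nat_lit 602) (@Lb.fm (nat_lit 3) t5268))))))))
noncomputable def l28852 : Lb := (@Lb.d (nat_lit 0) (nat_lit 512) (nat_lit 130) (@Lb.g g9 (@Lb.g g10 (@Lb.g g11 (@Lb.r r1411 (@Lb.r r165 (@Lb.r r2470 (@Lb.r r1169 (@Lb.d (nat_lit 69) (nat_lit 161) (nat_lit 128) (@Lb.t (@Lb.fm (nat_lit 9) t1866)))))))))))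
noncomputable def l28853 : Lb := (@Lb.d (nat_lit 2) (nat_lit 260) (nat_lit 133) (@Lb.g g8 (@Lb.g g9 (@Lb.g g10 (@Lb.g g7 (@Lb.r r420 (@Lb.r r102 (@Lb.r r21 (@Lb.r r36 (@Lb.d (nat_lit 153) (nat_lit 149) (nat_lit 72) (@Lb.fm (nat_lit 9) t5270)))))))))))
noncomputable def l28854 : Lb := (@Lb.d (nat_lit 38) (nat_lit 582) (nat_lit 33) (@Lb.r r1109 (@Lb.r r2218 (@Lb.r r2724 (@Lb.r r2727 (@Lb.g g7 (@Lb.g g6 (@Lb.g g5 (@Lb.d (nat_lit 0) (nat_lit 0) (nat_lit 64) (@Lb.t (@Lb.fp (nat_lit 9) t295)))))))))))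
noncomputable def l28855 : Lb := (@Lb.d (nat_lit 134) (nat_lit 513) (nat_lit 69) (@Lb.r r1109 (@Lb.r r2178 (@Lb.r r2443 (@Lb.r r264 (@Lb.g g7 (@Lb.d (nat_lit 64) (nat_lit 0) (nat_lit 64) (@Lb.t (@Lb.fm (nat_lit 3) t296)))))))))
noncomputable def l28856 : Lb := (@Lb.d (nat_lit 2) (nat_lit 256) (nat_lit 74) (@Lb.g g8 (@Lb.g g10 (@Lb.g g11 (@Lb.r r2345 (@Lb.r r535 (@Lb.r r1188 (@Lb.r r1158 (@Lb.d (nat_lit 608) (nat_lit 5) (nat_lit 26) (@Lb.t (@Lb.fp (nat_lit 9) t2283)))))))))))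
noncomputable def l28857 : Lb := (@Lb.d (nat_lit 34) (nat_lit 256) (nat_lit 0) (@Lb.g g8 (@Lb.r r609 (@Lb.r r1379 (@Lb.r r582 (@Lb.r r2180 (@Lb.d (nat_lit 290) (nat_lit 162) (nat_lit 601) (@Lb.t (@Lb.fm (nat_lit 3) t351)))))))))
noncomputable def l28858 : Lb := (@Lb.r r21 (@Lb.r r70 (@Lb.d (nat_lit 658) (nat_lit 512) (nat_lit 136) (@Lb.g g8 (@Lb.g g11 (@Lb.r r74 (@Lb.r r25 (@Lb.d (nat_lit 290) (nat_lit 66) (nat_lit 2) (@Lb.fm (nat_lit 3) t3937)))))))))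
noncomputable def l28859 : Lb := (@Lb.d (nat_lit 0) (nat_lit 544) (nat_lit 64) (@Lb.g g11 (@Lb.r r1689 (@Lb.r r1620 (@Lb.r r2442 (@Lb.r r587 (@Lb.d (nat_lit 337) (nat_lit 5) (nat_lit 512) (@Lb.t (@Lb.fp (nat_lit 3) t2283)))))))))
noncomputable def l28860 : Lb := (@Lb.d (nat_lit 134) (nat_lit 80) (nat_lit 513) (@Lb.r r90 (@Lb.r r72 (@Lb.r r667 (@Lb.g g7 (@Lb.g g6 (@Lb.g g9 (@Lb.d (nat_lit 16) (nat_lit 146) (nat_lit 8) (@Lb.t (@Lb.fm (nat_lit 9) t4069))))))))))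
noncomputable def l28861 : Lb := (@Lb.d (nat_lit 8) (nat_lit 2) (nat_lit 130) (@Lb.g g9 (@Lb.g g10 (@Lb.g g11 (@Lb.r r586 (@Lb.r r584 (@Lb.r r299 (@Lb.r r409 (@Lb.d (nat_lit 533) (nat_lit 70) (nat_lit 162) (@Lb.t (@Lb.fp (nat_lit 9) t519)))))))))))
noncomputable def l28862 : Lb := (@Lb.d (nat_lit 8) (nat_lit 1) (nat_lit 130) (@Lb.g g8 (@Lb.g g9 (@Lb.g g10 (@Lb.g g11 (@Lb.r r427 (@Lb.r r297 (@Lb.r r104 (@Lb.r r70 (@Lb.r r132 (@Lb.d (nat_lit 9) (nat_lit 149) (nat_lit 70) (@Lb.fp (nat_lit 9) t119))))))))))))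
noncomputable def l28863 : Lb := (@Lb.g g5 (@Lb.g g7 (@Lb.r r1299 (@Lb.r r24 (@Lb.d (nat_lit 10) (nat_lit 64) (nat_lit 64) (@Lb.fp (nat_lit 3) t591))))))
noncomputable def l28864 : Lb := (@Lb.d (nat_lit 9) (nat_lit 256) (nat_lit 128) (@Lb.g g8 (@Lb.g g11 (@Lb.r r593 (@Lb.r r2587 (@Lb.r r2178 (@Lb.r r2584 (@Lb.d (nat_lit 340) (nat_lit 161) (nat_lit 384) (@Lb.fp (nat_lit 3) t1385)))))))))
noncomputable def l28865 : Lb := (@Lb.d (nat_lit 593) (nat_lit 266) (nat_lit 600) (@Lb.r r1158 (@Lb.r r2136 (@Lb.r r1445 (@Lb.r r1363 (@Lb.g g7 (@Lb.g g6 (@Lb.g g5 (@Lb.d (nat_lit 0) (nat_lit 38) (nat_lit 134) (@Lb.t (@Lb.fm (nat_lit 9) t3081)))))))))))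
noncomputable def l28866 : Lb := (@Lb.d (nat_lit 2) (nat_lit 512) (nat_lit 0) (@Lb.g g4 (@Lb.g g5 (@Lb.d (nat_lit 1) (nat_lit 0) (nat_lit 0) (@Lb.fm (nat_lit 3) t2)))))
noncomputable def l28867 : Lb := (@Lb.d (nat_lit 530) (nat_lit 517) (nat_lit 324) (@Lb.r r1158 (@Lb.r r2132 (@Lb.r r2345 (@Lb.r r2707 (@Lb.g g7 (@Lb.g g6 (@Lb.g g4 (@Lb.d (nat_lit 1) (nat_lit 4) (nat_lit 65) (@Lb.t (@Lb.fm (nat_lit 9) t4205)))))))))))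
noncomputable def l28868 : Lb := (@Lb.r r81 (@Lb.d (nat_lit 10) (nat_lit 32) (nat_lit 146) (@Lb.g g8 (@Lb.g g6 (@Lb.g g11 (@Lb.r r149 (@Lb.r r360 (@Lb.r r583 (@Lb.d (nat_lit 146) (nat_lit 22) (nat_lit 66) (@Lb.t (@Lb.fp (nat_lit 9) t355)))))))))))
noncomputable def l28869 : Lb := (@Lb.d (nat_lit 8) (nat_lit 2) (nat_lit 0) (@Lb.g g9 (@Lb.r r579 (@Lb.r r426 (@Lb.r r20 (@Lb.r r105 (@Lb.d (nat_lit 356) (nat_lit 74) (nat_lit 514) (@Lb.t (@Lb.fm (nat_lit 3) t1628)))))))))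
noncomputable def l28870 : Lb := (@Lb.d (nat_lit 281) (nat_lit 602) (nat_lit 389) (@Lb.r r1045 (@Lb.r r2370 (@Lb.r r1671 (@Lb.r r674 (@Lb.g g7 (@Lb.g g6 (@Lb.g g5 (@Lb.g g4 (@Lb.d (nat_lit 1) (nat_lit 17) (nat_lit 73) (@Lb.fp (nat_lit 9) t4093)))))))))))
noncomputable def l28871 : Lb := (@Lb.d (nat_lit 602) (nat_lit 613) (nat_lit 272) (@Lb.r r97 (@Lb.r r579 (@Lb.r r1366 (@Lb.g g7 (@Lb.g g6 (@Lb.g g4 (@Lb.d (nat_lit 17) (nat_lit 0) (nat_lit 134) (@Lb.r r25 (@Lb.t (@Lb.fp (nat_lit 9) t5193)))))))))))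
noncomputable def l28872 : Lb := (@Lb.d (nat_lit 144) (nat_lit 1) (nat_lit 518) (@Lb.r r386 (@Lb.r r2375 (@Lb.r r1560 (@Lb.g g7 (@Lb.g g5 (@Lb.d (nat_lit 4) (nat_lit 88) (nat_lit 64) (@Lb.r r98 (@Lb.r r36 (@Lb.fm (nat_lit 3) t4369))))))))))
noncomputable def l28873 : Lb := (@Lb.d (nat_lit 10) (nat_lit 256) (nat_lit 128) (@Lb.g g8 (@Lb.g g10 (@Lb.g g11 (@Lb.r r357 (@Lb.r r1626 (@Lb.r r603 (@Lb.r r1112 (@Lb.d (nat_lit 681) (nat_lit 4) (nat_lit 594) (@Lb.t (@Lb.fp (nat_lit 9) t1639)))))))))))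
noncomputable def l28874 : Lb := (@Lb.r r338 (@Lb.d (nat_lit 8) (nat_lit 98) (nat_lit 136) (@Lb.g g9 (@Lb.g g11 (@Lb.r r1410 (@Lb.r r24 (@Lb.d (nat_lit 608) (nat_lit 2) (nat_lit 672) (@Lb.fm (nat_lit 3) t2504))))))))
noncomputable def l28875 : Lb := (@Lb.d (nat_lit 0) (nat_lit 512) (nat_lit 129) (@Lb.r r24 (@Lb.r r101 (@Lb.g g6 (@Lb.g g4 (@Lb.d (nat_lit 0) (nat_lit 4) (nat_lit 1) (@Lb.fm (nat_lit 3) t1219)))))))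
noncomputable def l28876 : Lb := (@Lb.d (nat_lit 0) (nat_lit 9) (nat_lit 73) (@Lb.g g9 (@Lb.g g10 (@Lb.g g11 (@Lb.r r2467 (@Lb.r r1442 (@Lb.r r97 (@Lb.d (nat_lit 0) (nat_lit 88) (nat_lit 144) (@Lb.t (@Lb.fm (nat_lit 9) t5271))))))))))
noncomputable def l28877 : Lb := (@Lb.g g5 (@Lb.r r1291 (@Lb.d (nat_lit 386) (nat_lit 256) (nat_lit 384) (@Lb.t (@Lb.fm (nat_lit 3) t441)))))
noncomputable def l28878 : Lb := (@Lb.d (nat_lit 594) (nat_lit 2) (nat_lit 85) (@Lb.r r2379 (@Lb.r r658 (@Lb.g g7 (@Lb.g g6 (@Lb.g g9 (@Lb.d (nat_lit 0) (nat_lit 90) (nat_lit 128) (@Lb.t (@Lb.fp (nat_lit 9) t2150)))))))))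
noncomputable def l28879 : Lb := (@Lb.r r331 (@Lb.d (nat_lit 673) (nat_lit 265) (nat_lit 1) (@Lb.g g8 (@Lb.g g9 (@Lb.g g10 (@Lb.r r362 (@Lb.r r1411 (@Lb.r r97 (@Lb.d (nat_lit 677) (nat_lit 84) (nat_lit 597) (@Lb.t (@Lb.fp (nat_lit 9) t1167)))))))))))
noncomputable def l28880 : Lb := (@Lb.r r355 (@Lb.d (nat_lit 0) (nat_lit 520) (nat_lit 34) (@Lb.g g8 (@Lb.g g9 (@Lb.g g10 (@Lb.r r2627 (@Lb.r r345 (@Lb.r r24 (@Lb.d (nat_lit 642) (nat_lit 0) (nat_lit 130) (@Lb.t (@Lb.fm (nat_lit 9) t2504)))))))))))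
noncomputable def l28881 : Lb := (@Lb.d (nat_lit 2) (nat_lit 258) (nat_lit 128) (@Lb.g g8 (@Lb.g g9 (@Lb.g g10 (@Lb.g g11 (@Lb.r r643 (@Lb.r r328 (@Lb.r r1638 (@Lb.r r97 (@Lb.r r2084 (@Lb.d (nat_lit 545) (nat_lit 73) (nat_lit 70) (@Lb.fm (nat_lit 9) t1827))))))))))))
noncomputable def l28882 : Lb := (@Lb.d (nat_lit 0) (nat_lit 2) (nat_lit 130) (@Lb.g g8 (@Lb.g g9 (@Lb.g g10 (@Lb.g g11 (@Lb.r r427 (@Lb.r r424 (@Lb.r r106 (@Lb.r r25 (@Lb.d (nat_lit 26) (nat_lit 4) (nat_lit 17) (@Lb.fm (nat_lit 9) t1149)))))))))))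
noncomputable def l28883 : Lb := (@Lb.r r322 (@Lb.d (nat_lit 2) (nat_lit 545) (nat_lit 72) (@Lb.g g8 (@Lb.g g9 (@Lb.g g7 (@Lb.r r342 (@Lb.r r1433 (@Lb.d (nat_lit 665) (nat_lit 40) (nat_lit 538) (@Lb.t (@Lb.fp (nat_lit 9) t233))))))))))
noncomputable def l28884 : Lb := (@Lb.d (nat_lit 136) (nat_lit 10) (nat_lit 64) (@Lb.g g9 (@Lb.g g11 (@Lb.r r148 (@Lb.r r2646 (@Lb.r r1367 (@Lb.r r1689 (@Lb.d (nat_lit 578) (nat_lit 105) (nat_lit 554) (@Lb.fm (nat_lit 3) t743)))))))))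
noncomputable def l28885 : Lb := (@Lb.d (nat_lit 0) (nat_lit 0) (nat_lit 72) (@Lb.g g10 (@Lb.g g11 (@Lb.r r2407 (@Lb.r r1429 (@Lb.r r1106 (@Lb.d (nat_lit 256) (nat_lit 10) (nat_lit 0) (@Lb.fm (nat_lit 3) t2146))))))))
noncomputable def l28886 : Lb := (@Lb.d (nat_lit 0) (nat_lit 257) (nat_lit 72) (@Lb.g g9 (@Lb.g g10 (@Lb.g g11 (@Lb.r r2391 (@Lb.r r2665 (@Lb.r r1106 (@Lb.d (nat_lit 401) (nat_lit 10) (nat_lit 138) (@Lb.t (@Lb.fp (nat_lit 9) t2146))))))))))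
noncomputable def l28887 : Lb := (@Lb.d (nat_lit 9) (nat_lit 513) (nat_lit 130) (@Lb.g g8 (@Lb.g g9 (@Lb.g g10 (@Lb.g g11 (@Lb.r r2691 (@Lb.r r297 (@Lb.r r360 (@Lb.r r582 (@Lb.r r2180 (@Lb.d (nat_lit 641) (nat_lit 10) (nat_lit 260) (@Lb.fm (nat_lit 9) t242))))))))))))
noncomputable def l28888 : Lb := (@Lb.d (nat_lit 10) (nat_lit 258) (nat_lit 0) (@Lb.g g7 (@Lb.g g9 (@Lb.fp (nat_lit 3) t2))))
noncomputable def l28889 : Lb := (@Lb.d (nat_lit 9) (nat_lit 1) (nat_lit 73) (@Lb.g g8 (@Lb.g g9 (@Lb.g g10 (@Lb.g g11 (@Lb.r r2691 (@Lb.r r297 (@Lb.r r360 (@Lb.r r582 (@Lb.r r2180 (@Lb.d (nat_lit 641) (nat_lit 10) (nat_lit 260) (@Lb.fm (nat_lit 9) t242))))))))))))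
noncomputable def l28890 : Lb := (@Lb.d (nat_lit 8) (nat_lit 514) (nat_lit 2) (@Lb.g g9 (@Lb.g g10 (@Lb.g g7 (@Lb.r r386 (@Lb.d (nat_lit 2) (nat_lit 0) (nat_lit 9) (@Lb.t (@Lb.fm (nat_lit 9) t2))))))))
noncomputable def l28891 : Lb := (@Lb.d (nat_lit 128) (nat_lit 521) (nat_lit 73) (@Lb.g g9 (@Lb.g g10 (@Lb.g g11 (@Lb.r r1194 (@Lb.r r2453 (@Lb.r r280 (@Lb.r r423 (@Lb.d (nat_lit 298) (nat_lit 164) (nat_lit 261) (@Lb.t (@Lb.fm (nat_lit 9) t125)))))))))))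
noncomputable def l28892 : Lb := (@Lb.d (nat_lit 582) (nat_lit 545) (nat_lit 74) (@Lb.r r68 (@Lb.r r154 (@Lb.r r660 (@Lb.r r2385 (@Lb.g g7 (@Lb.g g6 (@Lb.g g5 (@Lb.g g4 (@Lb.d (nat_lit 1) (nat_lit 0) (nat_lit 129) (@Lb.fm (nat_lit 9) t98)))))))))))
noncomputable def l28893 : Lb := (@Lb.d (nat_lit 128) (nat_lit 256) (nat_lit 384) (@Lb.g g10 (@Lb.g g11 (@Lb.r r1606 (@Lb.r r1557 (@Lb.r r1316 (@Lb.d (nat_lit 10) (nat_lit 130) (nat_lit 128) (@Lb.fm (nat_lit 3) t2102))))))))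
noncomputable def l28894 : Lb := (@Lb.d (nat_lit 0) (nat_lit 520) (nat_lit 2) (@Lb.g g10 (@Lb.r r101 (@Lb.r r24 (@Lb.d (nat_lit 546) (nat_lit 0) (nat_lit 17) (@Lb.t (@Lb.fp (nat_lit 3) t145)))))))
noncomputable def l28895 : Lb := (@Lb.d (nat_lit 0) (nat_lit 264) (nat_lit 2) (@Lb.g g10 (@Lb.g g7 (@Lb.r r101 (@Lb.r r24 (@Lb.d (nat_lit 546) (nat_lit 0) (nat_lit 17) (@Lb.fp (nat_lit 3) t145)))))))
noncomputable def l28896 : Lb := (@Lb.d (nat_lit 34) (nat_lit 257) (nat_lit 128) (@Lb.g g8 (@Lb.g g9 (@Lb.g g11 (@Lb.r r2411 (@Lb.r r1385 (@Lb.r r150 (@Lb.r r612 (@Lb.d (nat_lit 154) (nat_lit 153) (nat_lit 37) (@Lb.t (@Lb.fm (nat_lit 9) t2030)))))))))))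
noncomputable def l28897 : Lb := (@Lb.d (nat_lit 0) (nat_lit 520) (nat_lit 2) (@Lb.g g10 (@Lb.g g7 (@Lb.r r101 (@Lb.r r24 (@Lb.d (nat_lit 548) (nat_lit 6) (nat_lit 18) (@Lb.fp (nat_lit 3) t145)))))))
noncomputable def l28898 : Lb := (@Lb.d (nat_lit 36) (nat_lit 514) (nat_lit 128) (@Lb.g g8 (@Lb.g g9 (@Lb.g g11 (@Lb.r r2411 (@Lb.r r1385 (@Lb.r r150 (@Lb.r r612 (@Lb.d (nat_lit 154) (nat_lit 146) (nat_lit 38) (@Lb.t (@Lb.fm (nat_lit 9) t2030)))))))))))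
noncomputable def l28899 : Lb := (@Lb.d (nat_lit 5) (nat_lit 601) (nat_lit 64) (@Lb.r r657 (@Lb.r r667 (@Lb.r r584 (@Lb.g g6 (@Lb.g g5 (@Lb.d (nat_lit 16) (nat_lit 2) (nat_lit 1) (@Lb.r r387 (@Lb.fm (nat_lit 3) t74)))))))))
noncomputable def l28900 : Lb := (@Lb.d (nat_lit 5) (nat_lit 646) (nat_lit 580) (@Lb.r r1313 (@Lb.r r2327 (@Lb.r r584 (@Lb.g g6 (@Lb.g g5 (@Lb.d (nat_lit 20) (nat_lit 2) (nat_lit 1) (@Lb.r r387 (@Lb.fm (nat_lit 3) t125)))))))))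
noncomputable def l28901 : Lb := (@Lb.d (nat_lit 2) (nat_lit 512) (nat_lit 73) (@Lb.g g8 (@Lb.g g10 (@Lb.g g11 (@Lb.r r2475 (@Lb.r r2725 (@Lb.r r340 (@Lb.r r170 (@Lb.d (nat_lit 260) (nat_lit 8) (nat_lit 169) (@Lb.t (@Lb.fm (nat_lit 9) t221)))))))))))
noncomputable def l28902 : Lb := (@Lb.d (nat_lit 2) (nat_lit 514) (nat_lit 74) (@Lb.g g8 (@Lb.g g9 (@Lb.g g10 (@Lb.g g11 (@Lb.r r1666 (@Lb.r r1431 (@Lb.r r2585 (@Lb.r r2564 (@Lb.d (nat_lit 649) (nat_lit 74) (nat_lit 400) (@Lb.fm (nat_lit 9) t820)))))))))))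
noncomputable def l28903 : Lb := (@Lb.r r323 (@Lb.d (nat_lit 128) (nat_lit 2) (nat_lit 18) (@Lb.g g8 (@Lb.g g9 (@Lb.g g10 (@Lb.r r2345 (@Lb.r r1431 (@Lb.r r680 (@Lb.d (nat_lit 582) (nat_lit 22) (nat_lit 81) (@Lb.t (@Lb.fm (nat_lit 9) t596)))))))))))
noncomputable def l28904 : Lb := (@Lb.d (nat_lit 146) (nat_lit 514) (nat_lit 64) (@Lb.g g8 (@Lb.g g9 (@Lb.g g10 (@Lb.g g11 (@Lb.r r427 (@Lb.r r2154 (@Lb.r r361 (@Lb.r r1316 (@Lb.d (nat_lit 617) (nat_lit 169) (nat_lit 360) (@Lb.fm (nat_lit 9) t4350)))))))))))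
noncomputable def l28905 : Lb := (@Lb.g g10 (@Lb.d (nat_lit 2) (nat_lit 512) (nat_lit 0) (@Lb.t (@Lb.fp (nat_lit 3) t2))))
noncomputable def l28906 : Lb := (@Lb.d (nat_lit 16) (nat_lit 514) (nat_lit 146) (@Lb.g g8 (@Lb.g g9 (@Lb.g g6 (@Lb.g g11 (@Lb.r r2731 (@Lb.r r97 (@Lb.r r2648 (@Lb.d (nat_lit 617) (nat_lit 161) (nat_lit 410) (@Lb.fp (nat_lit 9) t493))))))))))
noncomputable def l28907 : Lb := (@Lb.r r264 (@Lb.r r279 (@Lb.r r1617 (@Lb.r r2466 (@Lb.r r2084 (@Lb.d (nat_lit 0) (nat_lit 337) (nat_lit 64) (@Lb.fp (nat_lit 1) t5272)))))))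
noncomputable def l28908 : Lb := (@Lb.d (nat_lit 401) (nat_lit 272) (nat_lit 678) (@Lb.r r1355 (@Lb.r r360 (@Lb.r r89 (@Lb.r r166 (@Lb.g g7 (@Lb.g g4 (@Lb.d (nat_lit 5) (nat_lit 16) (nat_lit 128) (@Lb.fm (nat_lit 3) t127)))))))))
noncomputable def l28909 : Lb := (@Lb.d (nat_lit 521) (nat_lit 69) (nat_lit 97) (@Lb.r r146 (@Lb.r r2149 (@Lb.r r1304 (@Lb.g g7 (@Lb.d (nat_lit 64) (nat_lit 32) (nat_lit 64) (@Lb.r r578 (@Lb.t (@Lb.fp (nat_lit 3) t5273)))))))))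
noncomputable def l28910 : Lb := (@Lb.r r263 (@Lb.d (nat_lit 2) (nat_lit 258) (nat_lit 2) (@Lb.g g8 (@Lb.g g9 (@Lb.g g10 (@Lb.r r2666 (@Lb.r r2627 (@Lb.r r361 (@Lb.r r1316 (@Lb.d (nat_lit 617) (nat_lit 5) (nat_lit 512) (@Lb.t (@Lb.fm (nat_lit 9) t4350))))))))))))
noncomputable def l28911 : Lb := (@Lb.d (nat_lit 2) (nat_lit 528) (nat_lit 2) (@Lb.g g8 (@Lb.g g9 (@Lb.g g10 (@Lb.g g11 (@Lb.r r2595 (@Lb.r r386 (@Lb.r r532 (@Lb.r r361 (@Lb.r r1060 (@Lb.d (nat_lit 416) (nat_lit 10) (nat_lit 388) (@Lb.fm (nat_lit 9) t509))))))))))))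
noncomputable def l28912 : Lb := (@Lb.d (nat_lit 256) (nat_lit 10) (nat_lit 36) (@Lb.r r20 (@Lb.r r281 (@Lb.r r404 (@Lb.r r386 (@Lb.g g11 (@Lb.g g6 (@Lb.g g5 (@Lb.g g4 (@Lb.d (nat_lit 1) (nat_lit 17) (nat_lit 641) (@Lb.fp (nat_lit 9) t5274)))))))))))
noncomputable def l28913 : Lb := (@Lb.d (nat_lit 2) (nat_lit 516) (nat_lit 128) (@Lb.g g8 (@Lb.g g9 (@Lb.g g10 (@Lb.g g11 (@Lb.r r427 (@Lb.r r424 (@Lb.r r106 (@Lb.r r25 (@Lb.d (nat_lit 521) (nat_lit 9) (nat_lit 33) (@Lb.fm (nat_lit 9) t1147)))))))))))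
noncomputable def l28914 : Lb := (@Lb.d (nat_lit 2) (nat_lit 4) (nat_lit 128) (@Lb.g g8 (@Lb.g g9 (@Lb.g g10 (@Lb.g g11 (@Lb.r r427 (@Lb.r r424 (@Lb.r r106 (@Lb.r r25 (@Lb.d (nat_lit 514) (nat_lit 0) (nat_lit 34) (@Lb.fm (nat_lit 9) t4791)))))))))))
noncomputable def l28915 : Lb := (@Lb.d (nat_lit 133) (nat_lit 261) (nat_lit 74) (@Lb.g g8 (@Lb.g g9 (@Lb.g g10 (@Lb.g g11 (@Lb.r r2658 (@Lb.r r1643 (@Lb.r r2721 (@Lb.r r1156 (@Lb.d (nat_lit 342) (nat_lit 89) (nat_lit 166) (@Lb.fp (nat_lit 9) t1816)))))))))))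
noncomputable def l28916 : Lb := (@Lb.d (nat_lit 297) (nat_lit 646) (nat_lit 161) (@Lb.r r1044 (@Lb.r r146 (@Lb.r r361 (@Lb.g g11 (@Lb.g g4 (@Lb.d (nat_lit 66) (nat_lit 32) (nat_lit 388) (@Lb.r r578 (@Lb.r r529 (@Lb.fp (nat_lit 3) t3096))))))))))
noncomputable def l28917 : Lb := (@Lb.d (nat_lit 1) (nat_lit 32) (nat_lit 128) (@Lb.g g8 (@Lb.g g11 (@Lb.r r2712 (@Lb.r r293 (@Lb.r r2587 (@Lb.r r2178 (@Lb.d (nat_lit 96) (nat_lit 98) (nat_lit 276) (@Lb.fm (nat_lit 3) t1624)))))))))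
noncomputable def l28918 : Lb := (@Lb.d (nat_lit 677) (nat_lit 37) (nat_lit 38) (@Lb.r r8 (@Lb.r r101 (@Lb.r r2442 (@Lb.r r339 (@Lb.g g7 (@Lb.g g6 (@Lb.d (nat_lit 0) (nat_lit 0) (nat_lit 65) (@Lb.fp (nat_lit 3) t107)))))))))
noncomputable def l28919 : Lb := (@Lb.r r2118 (@Lb.d (nat_lit 9) (nat_lit 257) (nat_lit 0) (@Lb.g g8 (@Lb.g g9 (@Lb.r r1065 (@Lb.r r1060 (@Lb.d (nat_lit 264) (nat_lit 130) (nat_lit 0) (@Lb.fp (nat_lit 3) t1221))))))))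
noncomputable def l28920 : Lb := (@Lb.d (nat_lit 10) (nat_lit 33) (nat_lit 66) (@Lb.g g8 (@Lb.g g9 (@Lb.g g10 (@Lb.g g11 (@Lb.r r387 (@Lb.r r1177 (@Lb.r r2458 (@Lb.r r24 (@Lb.d (nat_lit 593) (nat_lit 0) (nat_lit 169) (@Lb.fp (nat_lit 9) t2061)))))))))))
noncomputable def l28921 : Lb := (@Lb.r r21 (@Lb.r r70 (@Lb.d (nat_lit 34) (nat_lit 512) (nat_lit 0) (@Lb.g g4 (@Lb.r r74 (@Lb.r r25 (@Lb.d (nat_lit 584) (nat_lit 9) (nat_lit 544) (@Lb.t (@Lb.fm (nat_lit 3) t5225)))))))))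
noncomputable def l28922 : Lb := (@Lb.d (nat_lit 32) (nat_lit 264) (nat_lit 130) (@Lb.g g9 (@Lb.g g10 (@Lb.g g11 (@Lb.r r647 (@Lb.r r328 (@Lb.r r166 (@Lb.r r289 (@Lb.d (nat_lit 385) (nat_lit 24) (nat_lit 100) (@Lb.t (@Lb.fm (nat_lit 9) t2603)))))))))))
noncomputable def l28923 : Lb := (@Lb.d (nat_lit 1) (nat_lit 288) (nat_lit 64) (@Lb.g g8 (@Lb.g g11 (@Lb.r r2217 (@Lb.r r2724 (@Lb.r r2567 (@Lb.r r2178 (@Lb.d (nat_lit 641) (nat_lit 165) (nat_lit 5) (@Lb.fp (nat_lit 3) t124)))))))))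
noncomputable def l28924 : Lb := (@Lb.r r600 (@Lb.r r1301 (@Lb.r r1579 (@Lb.r r2178 (@Lb.r r1572 (@Lb.d (nat_lit 0) (nat_lit 90) (nat_lit 282) (@Lb.fm (nat_lit 1) t124)))))))
noncomputable def l28925 : Lb := (@Lb.d (nat_lit 656) (nat_lit 517) (nat_lit 388) (@Lb.r r24 (@Lb.r r101 (@Lb.r r386 (@Lb.g g11 (@Lb.g g6 (@Lb.g g4 (@Lb.d (nat_lit 0) (nat_lit 0) (nat_lit 1) (@Lb.t (@Lb.fp (nat_lit 9) t5275))))))))))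
noncomputable def l28926 : Lb := (@Lb.r r323 (@Lb.d (nat_lit 130) (nat_lit 4) (nat_lit 0) (@Lb.g g8 (@Lb.g g9 (@Lb.g g10 (@Lb.r r1639 (@Lb.r r2193 (@Lb.r r2642 (@Lb.r r72 (@Lb.d (nat_lit 346) (nat_lit 37) (nat_lit 136) (@Lb.t (@Lb.fm (nat_lit 9) t1806))))))))))))
noncomputable def l28927 : Lb := (@Lb.d (nat_lit 0) (nat_lit 10) (nat_lit 0) (@Lb.g g5 (@Lb.g g7 (@Lb.r r1186 (@Lb.r r2209 (@Lb.d (nat_lit 0) (nat_lit 26) (nat_lit 578) (@Lb.fm (nat_lit 3) t980)))))))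
noncomputable def l28928 : Lb := (@Lb.d (nat_lit 298) (nat_lit 266) (nat_lit 597) (@Lb.r r150 (@Lb.r r72 (@Lb.r r293 (@Lb.r r2395 (@Lb.g g7 (@Lb.g g6 (@Lb.g g5 (@Lb.d (nat_lit 16) (nat_lit 1) (nat_lit 65) (@Lb.t (@Lb.fm (nat_lit 9) t4356)))))))))))
noncomputable def l28929 : Lb := (@Lb.d (nat_lit 642) (nat_lit 4) (nat_lit 64) (@Lb.g g8 (@Lb.g g9 (@Lb.g g10 (@Lb.g g11 (@Lb.r r1451 (@Lb.r r106 (@Lb.r r25 (@Lb.d (nat_lit 2) (nat_lit 10) (nat_lit 425) (@Lb.fp (nat_lit 9) t442))))))))))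
noncomputable def l28930 : Lb := (@Lb.r r2118 (@Lb.d (nat_lit 8) (nat_lit 513) (nat_lit 0) (@Lb.g g8 (@Lb.g g9 (@Lb.r r617 (@Lb.r r612 (@Lb.d (nat_lit 152) (nat_lit 26) (nat_lit 357) (@Lb.fp (nat_lit 3) t1221))))))))
noncomputable def l28931 : Lb := (@Lb.d (nat_lit 9) (nat_lit 257) (nat_lit 73) (@Lb.g g8 (@Lb.g g9 (@Lb.g g10 (@Lb.g g11 (@Lb.r r2705 (@Lb.r r535 (@Lb.r r2440 (@Lb.r r2122 (@Lb.d (nat_lit 294) (nat_lit 74) (nat_lit 136) (@Lb.fp (nat_lit 9) t741)))))))))))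
noncomputable def l28932 : Lb := (@Lb.d (nat_lit 2) (nat_lit 258) (nat_lit 73) (@Lb.g g8 (@Lb.g g9 (@Lb.g g10 (@Lb.g g11 (@Lb.r r2691 (@Lb.r r2666 (@Lb.r r97 (@Lb.r r24 (@Lb.d (nat_lit 136) (nat_lit 2) (nat_lit 602) (@Lb.fm (nat_lit 9) t556)))))))))))
noncomputable def l28933 : Lb := (@Lb.d (nat_lit 9) (nat_lit 1) (nat_lit 73) (@Lb.g g8 (@Lb.g g9 (@Lb.g g10 (@Lb.g g11 (@Lb.r r2705 (@Lb.r r535 (@Lb.r r2440 (@Lb.r r2122 (@Lb.d (nat_lit 292) (nat_lit 74) (nat_lit 136) (@Lb.fp (nat_lit 9) t741)))))))))))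
noncomputable def l28934 : Lb := (@Lb.d (nat_lit 2) (nat_lit 520) (nat_lit 73) (@Lb.g g8 (@Lb.g g10 (@Lb.g g11 (@Lb.r r2707 (@Lb.r r2345 (@Lb.r r1188 (@Lb.r r1158 (@Lb.d (nat_lit 294) (nat_lit 8) (nat_lit 648) (@Lb.t (@Lb.fp (nat_lit 9) t1425)))))))))))
noncomputable def l28935 : Lb := (@Lb.d (nat_lit 2) (nat_lit 9) (nat_lit 72) (@Lb.g g8 (@Lb.g g9 (@Lb.g g10 (@Lb.g g11 (@Lb.r r2691 (@Lb.r r536 (@Lb.r r2197 (@Lb.r r2646 (@Lb.r r164 (@Lb.d (nat_lit 136) (nat_lit 9) (nat_lit 361) (@Lb.fp (nat_lit 9) t2556))))))))))))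
noncomputable def l28936 : Lb := (@Lb.r r322 (@Lb.d (nat_lit 10) (nat_lit 514) (nat_lit 136) (@Lb.g g8 (@Lb.g g9 (@Lb.g g11 (@Lb.r r1426 (@Lb.r r101 (@Lb.r r24 (@Lb.d (nat_lit 0) (nat_lit 0) (nat_lit 64) (@Lb.t (@Lb.fp (nat_lit 9) t145)))))))))))
noncomputable def l28937 : Lb := (@Lb.d (nat_lit 0) (nat_lit 352) (nat_lit 674) (@Lb.r r1114 (@Lb.r r1624 (@Lb.r r2341 (@Lb.r r1291 (@Lb.g g11 (@Lb.t (@Lb.fp (nat_lit 3) t1698))))))))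
noncomputable def l28938 : Lb := (@Lb.d (nat_lit 1) (nat_lit 336) (nat_lit 389) (@Lb.r r579 (@Lb.r r1362 (@Lb.g g7 (@Lb.g g6 (@Lb.g g5 (@Lb.d (nat_lit 0) (nat_lit 1) (nat_lit 134) (@Lb.r r36 (@Lb.t (@Lb.fm (nat_lit 9) t40))))))))))
noncomputable def l28939 : Lb := (@Lb.d (nat_lit 5) (nat_lit 0) (nat_lit 73) (@Lb.g g8 (@Lb.g g9 (@Lb.g g10 (@Lb.g g11 (@Lb.r r1706 (@Lb.r r648 (@Lb.r r1563 (@Lb.r r2337 (@Lb.r r36 (@Lb.d (nat_lit 641) (nat_lit 98) (nat_lit 64) (@Lb.fp (nat_lit 9) t242))))))))))))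
noncomputable def l28940 : Lb := (@Lb.d (nat_lit 152) (nat_lit 513) (nat_lit 128) (@Lb.g g8 (@Lb.g g9 (@Lb.g g10 (@Lb.g g11 (@Lb.r r387 (@Lb.r r2694 (@Lb.r r145 (@Lb.r r612 (@Lb.d (nat_lit 16) (nat_lit 146) (nat_lit 648) (@Lb.fm (nat_lit 9) t1156)))))))))))
noncomputable def l28941 : Lb := (@Lb.d (nat_lit 152) (nat_lit 1) (nat_lit 128) (@Lb.g g8 (@Lb.g g9 (@Lb.g g10 (@Lb.g g11 (@Lb.r r387 (@Lb.r r2694 (@Lb.r r145 (@Lb.r r612 (@Lb.d (nat_lit 18) (nat_lit 146) (nat_lit 648) (@Lb.fm (nat_lit 9) t3629)))))))))))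
noncomputable def l28942 : Lb := (@Lb.d (nat_lit 153) (nat_lit 513) (nat_lit 128) (@Lb.g g8 (@Lb.g g9 (@Lb.g g10 (@Lb.g g11 (@Lb.r r387 (@Lb.r r164 (@Lb.r r2470 (@Lb.r r145 (@Lb.d (nat_lit 325) (nat_lit 68) (nat_lit 408) (@Lb.fm (nat_lit 9) t4)))))))))))
noncomputable def l28943 : Lb := (@Lb.d (nat_lit 5) (nat_lit 260) (nat_lit 68) (@Lb.r r289 (@Lb.r r279 (@Lb.r r584 (@Lb.g g6 (@Lb.g g5 (@Lb.d (nat_lit 20) (nat_lit 1) (nat_lit 1) (@Lb.r r387 (@Lb.fm (nat_lit 3) t68)))))))))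
noncomputable def l28944 : Lb := (@Lb.r r82 (@Lb.d (nat_lit 6) (nat_lit 520) (nat_lit 0) (@Lb.g g4 (@Lb.g g9 (@Lb.g g7 (@Lb.r r90 (@Lb.r r145 (@Lb.d (nat_lit 18) (nat_lit 10) (nat_lit 2) (@Lb.t (@Lb.fm (nat_lit 9) t1219))))))))))
noncomputable def l28945 : Lb := (@Lb.d (nat_lit 149) (nat_lit 24) (nat_lit 130) (@Lb.g g8 (@Lb.g g9 (@Lb.g g10 (@Lb.g g11 (@Lb.r r2667 (@Lb.r r1602 (@Lb.r r424 (@Lb.r r2345 (@Lb.d (nat_lit 36) (nat_lit 162) (nat_lit 89) (@Lb.fm (nat_lit 9) t5276)))))))))))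
noncomputable def l28946 : Lb := (@Lb.d (nat_lit 4) (nat_lit 522) (nat_lit 73) (@Lb.g g8 (@Lb.g g9 (@Lb.g g10 (@Lb.g g11 (@Lb.r r1699 (@Lb.r r1689 (@Lb.r r1178 (@Lb.d (nat_lit 276) (nat_lit 73) (nat_lit 681) (@Lb.fp (nat_lit 9) t3917))))))))))
noncomputable def l28947 : Lb := (@Lb.d (nat_lit 149) (nat_lit 22) (nat_lit 129) (@Lb.g g8 (@Lb.g g9 (@Lb.g g10 (@Lb.g g11 (@Lb.r r2691 (@Lb.r r1192 (@Lb.r r2634 (@Lb.r r1313 (@Lb.d (nat_lit 658) (nat_lit 34) (nat_lit 361) (@Lb.fm (nat_lit 9) t5277)))))))))))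
noncomputable def l28948 : Lb := (@Lb.d (nat_lit 320) (nat_lit 345) (nat_lit 522) (@Lb.r r2583 (@Lb.r r1384 (@Lb.r r361 (@Lb.r r1622 (@Lb.g g7 (@Lb.d (nat_lit 64) (nat_lit 16) (nat_lit 132) (@Lb.t (@Lb.fp (nat_lit 3) t188)))))))))
noncomputable def l28949 : Lb := (@Lb.d (nat_lit 2) (nat_lit 258) (nat_lit 2) (@Lb.g g8 (@Lb.g g9 (@Lb.g g10 (@Lb.g g7 (@Lb.r r386 (@Lb.r r1641 (@Lb.r r1608 (@Lb.d (nat_lit 408) (nat_lit 130) (nat_lit 660) (@Lb.fp (nat_lit 9) t2877))))))))))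
noncomputable def l28950 : Lb := (@Lb.d (nat_lit 0) (nat_lit 296) (nat_lit 1) (@Lb.g g8 (@Lb.g g9 (@Lb.g g10 (@Lb.r r2387 (@Lb.r r610 (@Lb.r r601 (@Lb.r r24 (@Lb.d (nat_lit 657) (nat_lit 0) (nat_lit 330) (@Lb.t (@Lb.fp (nat_lit 9) t5278)))))))))))
noncomputable def l28951 : Lb := (@Lb.d (nat_lit 64) (nat_lit 618) (nat_lit 578) (@Lb.r r101 (@Lb.r r2451 (@Lb.r r402 (@Lb.g g7 (@Lb.d (nat_lit 0) (nat_lit 0) (nat_lit 68) (@Lb.t (@Lb.fm (nat_lit 3) t5279))))))))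
noncomputable def l28952 : Lb := (@Lb.d (nat_lit 2) (nat_lit 272) (nat_lit 2) (@Lb.g g8 (@Lb.g g9 (@Lb.g g10 (@Lb.g g11 (@Lb.r r1706 (@Lb.r r1700 (@Lb.r r1575 (@Lb.r r2345 (@Lb.d (nat_lit 5) (nat_lit 98) (nat_lit 138) (@Lb.fm (nat_lit 9) t264)))))))))))
noncomputable def l28953 : Lb := (@Lb.d (nat_lit 388) (nat_lit 16) (nat_lit 265) (@Lb.r r1556 (@Lb.r r2345 (@Lb.r r1623 (@Lb.g g6 (@Lb.g g5 (@Lb.g g4 (@Lb.d (nat_lit 65) (nat_lit 1) (nat_lit 33) (@Lb.r r387 (@Lb.t (@Lb.fp (nat_lit 9) t5280)))))))))))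
noncomputable def l28954 : Lb := (@Lb.d (nat_lit 128) (nat_lit 32) (nat_lit 72) (@Lb.g g11 (@Lb.r r2410 (@Lb.r r361 (@Lb.r r1384 (@Lb.r r2583 (@Lb.d (nat_lit 646) (nat_lit 164) (nat_lit 330) (@Lb.t (@Lb.fm (nat_lit 3) t386)))))))))
noncomputable def l28955 : Lb := (@Lb.d (nat_lit 0) (nat_lit 265) (nat_lit 129) (@Lb.g g9 (@Lb.g g10 (@Lb.g g11 (@Lb.r r2691 (@Lb.r r536 (@Lb.r r1637 (@Lb.r r2714 (@Lb.r r132 (@Lb.d (nat_lit 680) (nat_lit 162) (nat_lit 74) (@Lb.t (@Lb.fm (nat_lit 9) t283))))))))))))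
noncomputable def l28956 : Lb := (@Lb.d (nat_lit 1) (nat_lit 416) (nat_lit 5) (@Lb.r r2386 (@Lb.r r2723 (@Lb.g g6 (@Lb.g g5 (@Lb.d (nat_lit 0) (nat_lit 136) (nat_lit 0) (@Lb.r r2180 (@Lb.fp (nat_lit 3) t2917))))))))
noncomputable def l28957 : Lb := (@Lb.d (nat_lit 5) (nat_lit 514) (nat_lit 0) (@Lb.g g8 (@Lb.g g9 (@Lb.g g10 (@Lb.r r2731 (@Lb.r r1642 (@Lb.r r1049 (@Lb.d (nat_lit 521) (nat_lit 89) (nat_lit 297) (@Lb.t (@Lb.fp (nat_lit 9) t591))))))))))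
noncomputable def l28958 : Lb := (@Lb.d (nat_lit 32) (nat_lit 514) (nat_lit 64) (@Lb.g g9 (@Lb.g g10 (@Lb.g g11 (@Lb.r r661 (@Lb.r r356 (@Lb.r r346 (@Lb.d (nat_lit 169) (nat_lit 38) (nat_lit 8) (@Lb.t (@Lb.fm (nat_lit 9) t521))))))))))
noncomputable def l28959 : Lb := (@Lb.d (nat_lit 0) (nat_lit 521) (nat_lit 129) (@Lb.g g9 (@Lb.g g10 (@Lb.g g11 (@Lb.r r2691 (@Lb.r r536 (@Lb.r r1637 (@Lb.r r2714 (@Lb.r r132 (@Lb.d (nat_lit 678) (nat_lit 161) (nat_lit 74) (@Lb.t (@Lb.fm (nat_lit 9) t283))))))))))))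
noncomputable def l28960 : Lb := (@Lb.d (nat_lit 0) (nat_lit 258) (nat_lit 73) (@Lb.g g9 (@Lb.g g10 (@Lb.g g11 (@Lb.r r2705 (@Lb.r r1691 (@Lb.r r1610 (@Lb.r r2564 (@Lb.d (nat_lit 337) (nat_lit 10) (nat_lit 597) (@Lb.t (@Lb.fp (nat_lit 9) t312)))))))))))
noncomputable def l28961 : Lb := (@Lb.r r21 (@Lb.r r70 (@Lb.d (nat_lit 33) (nat_lit 512) (nat_lit 0) (@Lb.g g8 (@Lb.r r2650 (@Lb.r r597 (@Lb.r r343 (@Lb.r r660 (@Lb.d (nat_lit 678) (nat_lit 165) (nat_lit 645) (@Lb.t (@Lb.fp (nat_lit 3) t42)))))))))))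
noncomputable def l28962 : Lb := (@Lb.r r21 (@Lb.r r70 (@Lb.d (nat_lit 33) (nat_lit 0) (nat_lit 0) (@Lb.g g8 (@Lb.r r2650 (@Lb.r r597 (@Lb.r r343 (@Lb.r r660 (@Lb.d (nat_lit 677) (nat_lit 165) (nat_lit 645) (@Lb.t (@Lb.fp (nat_lit 3) t318)))))))))))
noncomputable def l28963 : Lb := (@Lb.d (nat_lit 0) (nat_lit 322) (nat_lit 73) (@Lb.g g8 (@Lb.g g9 (@Lb.g g10 (@Lb.g g11 (@Lb.r r2658 (@Lb.r r579 (@Lb.r r2564 (@Lb.d (nat_lit 0) (nat_lit 97) (nat_lit 10) (@Lb.fm (nat_lit 9) t2030))))))))))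
noncomputable def l28964 : Lb := (@Lb.d (nat_lit 0) (nat_lit 66) (nat_lit 73) (@Lb.g g8 (@Lb.g g9 (@Lb.g g10 (@Lb.g g11 (@Lb.r r2658 (@Lb.r r579 (@Lb.r r2564 (@Lb.d (nat_lit 1) (nat_lit 97) (nat_lit 10) (@Lb.fm (nat_lit 9) t2367))))))))))
noncomputable def l28965 : Lb := (@Lb.r r70 (@Lb.d (nat_lit 386) (nat_lit 513) (nat_lit 64) (@Lb.g g8 (@Lb.g g9 (@Lb.g g11 (@Lb.r r555 (@Lb.r r390 (@Lb.r r153 (@Lb.d (nat_lit 345) (nat_lit 144) (nat_lit 392) (@Lb.t (@Lb.fm (nat_lit 9) t3213)))))))))))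
noncomputable def l28966 : Lb := (@Lb.r r21 (@Lb.r r70 (@Lb.d (nat_lit 389) (nat_lit 544) (nat_lit 64) (@Lb.g g8 (@Lb.g g11 (@Lb.r r2341 (@Lb.r r1563 (@Lb.r r2182 (@Lb.d (nat_lit 360) (nat_lit 100) (nat_lit 416) (@Lb.fp (nat_lit 3) t4385))))))))))
noncomputable def l28967 : Lb := (@Lb.d (nat_lit 405) (nat_lit 360) (nat_lit 345) (@Lb.r r1642 (@Lb.r r2405 (@Lb.r r1683 (@Lb.g g7 (@Lb.g g6 (@Lb.g g5 (@Lb.g g8 (@Lb.d (nat_lit 546) (nat_lit 8) (nat_lit 132) (@Lb.fm (nat_lit 9) t3609))))))))))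
noncomputable def l28968 : Lb := (@Lb.d (nat_lit 328) (nat_lit 165) (nat_lit 105) (@Lb.r r8 (@Lb.r r661 (@Lb.r r599 (@Lb.g g6 (@Lb.g g5 (@Lb.d (nat_lit 0) (nat_lit 18) (nat_lit 33) (@Lb.r r387 (@Lb.fm (nat_lit 3) t1889)))))))))
noncomputable def l28969 : Lb := (@Lb.d (nat_lit 5) (nat_lit 136) (nat_lit 34) (@Lb.r r260 (@Lb.r r2178 (@Lb.r r603 (@Lb.r r2469 (@Lb.r r532 (@Lb.g g7 (@Lb.g g5 (@Lb.g g8 (@Lb.t (@Lb.fp (nat_lit 9) t64)))))))))))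
noncomputable def l28970 : Lb := (@Lb.d (nat_lit 0) (nat_lit 512) (nat_lit 73) (@Lb.g g8 (@Lb.g g10 (@Lb.g g11 (@Lb.r r579 (@Lb.r r1682 (@Lb.r r101 (@Lb.r r24 (@Lb.d (nat_lit 640) (nat_lit 0) (nat_lit 256) (@Lb.t (@Lb.fm (nat_lit 9) t145)))))))))))
noncomputable def l28971 : Lb := (@Lb.r r70 (@Lb.d (nat_lit 257) (nat_lit 514) (nat_lit 0) (@Lb.g g4 (@Lb.g g9 (@Lb.g g7 (@Lb.r r74 (@Lb.r r37 (@Lb.d (nat_lit 522) (nat_lit 130) (nat_lit 69) (@Lb.t (@Lb.fp (nat_lit 9) t647))))))))))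
noncomputable def l28972 : Lb := (@Lb.d (nat_lit 0) (nat_lit 512) (nat_lit 73) (@Lb.g g8 (@Lb.g g9 (@Lb.g g10 (@Lb.g g11 (@Lb.r r579 (@Lb.r r1682 (@Lb.r r101 (@Lb.r r24 (@Lb.d (nat_lit 640) (nat_lit 0) (nat_lit 256) (@Lb.fp (nat_lit 9) t145)))))))))))
noncomputable def l28973 : Lb := (@Lb.d (nat_lit 129) (nat_lit 522) (nat_lit 33) (@Lb.g g8 (@Lb.g g9 (@Lb.g g6 (@Lb.r r407 (@Lb.r r2665 (@Lb.r r1636 (@Lb.d (nat_lit 154) (nat_lit 154) (nat_lit 648) (@Lb.t (@Lb.fm (nat_lit 9) t5281))))))))))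
noncomputable def l28974 : Lb := (@Lb.d (nat_lit 1) (nat_lit 266) (nat_lit 97) (@Lb.g g8 (@Lb.g g9 (@Lb.g g6 (@Lb.g g11 (@Lb.r r324 (@Lb.r r555 (@Lb.r r2601 (@Lb.r r1572 (@Lb.d (nat_lit 402) (nat_lit 129) (nat_lit 408) (@Lb.fm (nat_lit 9) t5281)))))))))))
noncomputable def l28975 : Lb := (@Lb.r r70 (@Lb.d (nat_lit 2) (nat_lit 2) (nat_lit 128) (@Lb.g g8 (@Lb.g g9 (@Lb.g g11 (@Lb.r r164 (@Lb.r r1414 (@Lb.r r579 (@Lb.r r2337 (@Lb.d (nat_lit 2) (nat_lit 97) (nat_lit 586) (@Lb.t (@Lb.fp (nat_lit 9) t2661))))))))))))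
noncomputable def l28976 : Lb := (@Lb.d (nat_lit 41) (nat_lit 0) (nat_lit 128) (@Lb.g g8 (@Lb.g g11 (@Lb.r r1446 (@Lb.r r1429 (@Lb.r r1643 (@Lb.r r1640 (@Lb.d (nat_lit 106) (nat_lit 152) (nat_lit 681) (@Lb.fp (nat_lit 3) t3071)))))))))
noncomputable def l28977 : Lb := (@Lb.d (nat_lit 0) (nat_lit 514) (nat_lit 64) (@Lb.g g9 (@Lb.g g11 (@Lb.r r337 (@Lb.r r1642 (@Lb.r r619 (@Lb.r r1096 (@Lb.d (nat_lit 614) (nat_lit 161) (nat_lit 402) (@Lb.fm (nat_lit 3) t414)))))))))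
noncomputable def l28978 : Lb := (@Lb.d (nat_lit 128) (nat_lit 258) (nat_lit 73) (@Lb.g g8 (@Lb.g g9 (@Lb.g g10 (@Lb.g g11 (@Lb.r r1675 (@Lb.r r613 (@Lb.r r666 (@Lb.r r1156 (@Lb.d (nat_lit 665) (nat_lit 105) (nat_lit 170) (@Lb.fm (nat_lit 9) t1225)))))))))))
noncomputable def l28979 : Lb := (@Lb.d (nat_lit 0) (nat_lit 2) (nat_lit 0) (@Lb.g g9 (@Lb.r r1416 (@Lb.r r1370 (@Lb.r r2725 (@Lb.r r2471 (@Lb.d (nat_lit 0) (nat_lit 1) (nat_lit 416) (@Lb.t (@Lb.fp (nat_lit 3) t2149)))))))))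
noncomputable def l28980 : Lb := (@Lb.d (nat_lit 128) (nat_lit 544) (nat_lit 136) (@Lb.g g11 (@Lb.r r424 (@Lb.r r1386 (@Lb.r r1369 (@Lb.r r1703 (@Lb.d (nat_lit 128) (nat_lit 148) (nat_lit 662) (@Lb.t (@Lb.fp (nat_lit 3) t1607)))))))))
noncomputable def l28981 : Lb := (@Lb.g g8 (@Lb.r r101 (@Lb.r r24 (@Lb.d (nat_lit 577) (nat_lit 256) (nat_lit 592) (@Lb.t (@Lb.fp (nat_lit 3) t1150))))))
noncomputable def l28982 : Lb := (@Lb.g g8 (@Lb.r r101 (@Lb.r r24 (@Lb.d (nat_lit 576) (nat_lit 512) (nat_lit 592) (@Lb.t (@Lb.fp (nat_lit 3) t166))))))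
noncomputable def l28983 : Lb := (@Lb.r r82 (@Lb.d (nat_lit 0) (nat_lit 0) (nat_lit 128) (@Lb.g g4 (@Lb.g g9 (@Lb.g g11 (@Lb.r r1634 (@Lb.r r1553 (@Lb.d (nat_lit 1) (nat_lit 0) (nat_lit 640) (@Lb.t (@Lb.fp (nat_lit 9) t225))))))))))
noncomputable def l28984 : Lb := (@Lb.r r323 (@Lb.d (nat_lit 1) (nat_lit 105) (nat_lit 1) (@Lb.g g8 (@Lb.g g5 (@Lb.g g10 (@Lb.r r2731 (@Lb.r r1350 (@Lb.r r2628 (@Lb.d (nat_lit 136) (nat_lit 0) (nat_lit 409) (@Lb.t (@Lb.fm (nat_lit 9) t2709)))))))))))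
noncomputable def l28985 : Lb := (@Lb.d (nat_lit 262) (nat_lit 422) (nat_lit 534) (@Lb.r r2069 (@Lb.r r2390 (@Lb.r r2731 (@Lb.g g6 (@Lb.g g5 (@Lb.g g4 (@Lb.d (nat_lit 1) (nat_lit 9) (nat_lit 2) (@Lb.t (@Lb.fm (nat_lit 9) t154))))))))))
noncomputable def l28986 : Lb := (@Lb.d (nat_lit 4) (nat_lit 258) (nat_lit 66) (@Lb.g g9 (@Lb.g g10 (@Lb.g g11 (@Lb.r r1559 (@Lb.r r596 (@Lb.r r666 (@Lb.r r337 (@Lb.d (nat_lit 534) (nat_lit 42) (nat_lit 161) (@Lb.t (@Lb.fm (nat_lit 9) t1195)))))))))))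
noncomputable def l28987 : Lb := (@Lb.d (nat_lit 101) (nat_lit 613) (nat_lit 129) (@Lb.r r101 (@Lb.r r24 (@Lb.r r338 (@Lb.r r387 (@Lb.g g7 (@Lb.g g6 (@Lb.g g5 (@Lb.d (nat_lit 4) (nat_lit 1) (nat_lit 66) (@Lb.t (@Lb.fp (nat_lit 9) t2318)))))))))))
noncomputable def l28988 : Lb := (@Lb.r r2118 (@Lb.d (nat_lit 10) (nat_lit 1) (nat_lit 0) (@Lb.g g8 (@Lb.g g9 (@Lb.r r1065 (@Lb.r r1060 (@Lb.d (nat_lit 264) (nat_lit 130) (nat_lit 0) (@Lb.fp (nat_lit 3) t1221))))))))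
noncomputable def l28989 : Lb := (@Lb.d (nat_lit 72) (nat_lit 262) (nat_lit 138) (@Lb.g g8 (@Lb.g g9 (@Lb.g g10 (@Lb.g g11 (@Lb.r r427 (@Lb.r r1706 (@Lb.r r1425 (@Lb.r r264 (@Lb.d (nat_lit 296) (nat_lit 89) (nat_lit 596) (@Lb.fp (nat_lit 9) t5282)))))))))))
noncomputable def l28990 : Lb := (@Lb.d (nat_lit 1) (nat_lit 38) (nat_lit 70) (@Lb.r r322 (@Lb.r r659 (@Lb.g g7 (@Lb.g g6 (@Lb.g g9 (@Lb.g g4 (@Lb.d (nat_lit 1) (nat_lit 0) (nat_lit 70) (@Lb.fp (nat_lit 9) t594)))))))))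
noncomputable def l28991 : Lb := (@Lb.r r275 (@Lb.d (nat_lit 0) (nat_lit 9) (nat_lit 1) (@Lb.g g9 (@Lb.g g10 (@Lb.r r1700 (@Lb.r r1543 (@Lb.r r386 (@Lb.r r2145 (@Lb.d (nat_lit 0) (nat_lit 137) (nat_lit 169) (@Lb.fp (nat_lit 3) t3727))))))))))
noncomputable def l28992 : Lb := (@Lb.d (nat_lit 577) (nat_lit 512) (nat_lit 66) (@Lb.r r2308 (@Lb.r r2323 (@Lb.r r1641 (@Lb.g g10 (@Lb.g g5 (@Lb.g g4 (@Lb.d (nat_lit 18) (nat_lit 8) (nat_lit 33) (@Lb.r r387 (@Lb.t (@Lb.fp (nat_lit 9) t1893)))))))))))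
noncomputable def l28993 : Lb := (@Lb.d (nat_lit 9) (nat_lit 42) (nat_lit 65) (@Lb.g g8 (@Lb.g g9 (@Lb.g g10 (@Lb.g g11 (@Lb.r r1706 (@Lb.r r1700 (@Lb.r r1575 (@Lb.r r1557 (@Lb.d (nat_lit 388) (nat_lit 96) (nat_lit 586) (@Lb.fp (nat_lit 9) t68)))))))))))
noncomputable def l28994 : Lb := (@Lb.r r21 (@Lb.r r70 (@Lb.d (nat_lit 129) (nat_lit 512) (nat_lit 128) (@Lb.g g8 (@Lb.g g11 (@Lb.r r523 (@Lb.r r580 (@Lb.r r74 (@Lb.r r97 (@Lb.d (nat_lit 290) (nat_lit 0) (nat_lit 40) (@Lb.fm (nat_lit 3) t544)))))))))))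
noncomputable def l28995 : Lb := (@Lb.d (nat_lit 6) (nat_lit 166) (nat_lit 294) (@Lb.r r21 (@Lb.r r1366 (@Lb.r r683 (@Lb.g g7 (@Lb.g g6 (@Lb.g g5 (@Lb.g g4 (@Lb.d (nat_lit 1) (nat_lit 8) (nat_lit 0) (@Lb.fm (nat_lit 9) t40))))))))))
noncomputable def l28996 : Lb := (@Lb.r r323 (@Lb.d (nat_lit 32) (nat_lit 0) (nat_lit 2) (@Lb.g g9 (@Lb.g g10 (@Lb.r r584 (@Lb.r r299 (@Lb.r r1425 (@Lb.d (nat_lit 294) (nat_lit 133) (nat_lit 0) (@Lb.fp (nat_lit 3) t410)))))))))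
noncomputable def l28997 : Lb := (@Lb.d (nat_lit 8) (nat_lit 258) (nat_lit 64) (@Lb.g g9 (@Lb.g g11 (@Lb.r r1563 (@Lb.r r2438 (@Lb.r r24 (@Lb.r r101 (@Lb.d (nat_lit 80) (nat_lit 74) (nat_lit 130) (@Lb.fm (nat_lit 3) t5283)))))))))
noncomputable def l28998 : Lb := (@Lb.d (nat_lit 6) (nat_lit 641) (nat_lit 32) (@Lb.r r597 (@Lb.r r279 (@Lb.r r584 (@Lb.r r326 (@Lb.g g7 (@Lb.g g6 (@Lb.g g5 (@Lb.d (nat_lit 4) (nat_lit 1) (nat_lit 65) (@Lb.t (@Lb.fm (nat_lit 9) t1023)))))))))))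
noncomputable def l28999 : Lb := (@Lb.d (nat_lit 130) (nat_lit 514) (nat_lit 578) (@Lb.g g8 (@Lb.g g9 (@Lb.g g10 (@Lb.g g7 (@Lb.r r386 (@Lb.r r97 (@Lb.r r1176 (@Lb.d (nat_lit 538) (nat_lit 69) (nat_lit 24) (@Lb.fp (nat_lit 9) t217))))))))))
noncomputable def l29000 : Lb := (@Lb.d (nat_lit 538) (nat_lit 392) (nat_lit 389) (@Lb.r r596 (@Lb.r r362 (@Lb.r r1361 (@Lb.r r2595 (@Lb.g g6 (@Lb.g g5 (@Lb.g g4 (@Lb.d (nat_lit 65) (nat_lit 1) (nat_lit 1) (@Lb.t (@Lb.fm (nat_lit 9) t1035)))))))))))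
noncomputable def l29001 : Lb := (@Lb.d (nat_lit 32) (nat_lit 514) (nat_lit 130) (@Lb.g g9 (@Lb.g g10 (@Lb.g g11 (@Lb.r r1447 (@Lb.r r293 (@Lb.r r72 (@Lb.r r150 (@Lb.d (nat_lit 533) (nat_lit 10) (nat_lit 424) (@Lb.t (@Lb.fp (nat_lit 9) t296)))))))))))
noncomputable def l29002 : Lb := (@Lb.d (nat_lit 129) (nat_lit 2) (nat_lit 130) (@Lb.g g8 (@Lb.g g9 (@Lb.g g10 (@Lb.g g11 (@Lb.r r419 (@Lb.r r344 (@Lb.r r1429 (@Lb.r r1110 (@Lb.r r2212 (@Lb.d (nat_lit 38) (nat_lit 106) (nat_lit 616) (@Lb.fm (nat_lit 9) t238))))))))))))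
noncomputable def l29003 : Lb := (@Lb.r r21 (@Lb.d (nat_lit 138) (nat_lit 8) (nat_lit 66) (@Lb.g g8 (@Lb.g g10 (@Lb.g g11 (@Lb.r r2401 (@Lb.r r407 (@Lb.r r1608 (@Lb.r r102 (@Lb.d (nat_lit 533) (nat_lit 86) (nat_lit 537) (@Lb.t (@Lb.fm (nat_lit 9) t2052))))))))))))
noncomputable def l29004 : Lb := (@Lb.r r21 (@Lb.r r323 (@Lb.d (nat_lit 41) (nat_lit 0) (nat_lit 36) (@Lb.g g8 (@Lb.g g6 (@Lb.r r1627 (@Lb.r r2341 (@Lb.r r1556 (@Lb.d (nat_lit 390) (nat_lit 168) (nat_lit 586) (@Lb.fp (nat_lit 3) t686))))))))))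
noncomputable def l29005 : Lb := (@Lb.r r24 (@Lb.d (nat_lit 330) (nat_lit 610) (nat_lit 256) (@Lb.fm (nat_lit 1) t2327)))
noncomputable def l29006 : Lb := (@Lb.d (nat_lit 160) (nat_lit 2) (nat_lit 130) (@Lb.g g9 (@Lb.g g10 (@Lb.g g11 (@Lb.r r72 (@Lb.r r166 (@Lb.r r545 (@Lb.r r611 (@Lb.d (nat_lit 642) (nat_lit 26) (nat_lit 165) (@Lb.t (@Lb.fm (nat_lit 9) t126)))))))))))
noncomputable def l29007 : Lb := (@Lb.r r323 (@Lb.d (nat_lit 2) (nat_lit 514) (nat_lit 0) (@Lb.g g8 (@Lb.g g9 (@Lb.g g10 (@Lb.r r1706 (@Lb.r r1700 (@Lb.r r1575 (@Lb.r r37 (@Lb.d (nat_lit 325) (nat_lit 2) (nat_lit 394) (@Lb.t (@Lb.fp (nat_lit 9) t2542))))))))))))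
noncomputable def l29008 : Lb := (@Lb.d (nat_lit 2) (nat_lit 294) (nat_lit 64) (@Lb.g g8 (@Lb.g g9 (@Lb.g g10 (@Lb.g g11 (@Lb.r r1699 (@Lb.r r1192 (@Lb.r r1642 (@Lb.r r1633 (@Lb.d (nat_lit 594) (nat_lit 154) (nat_lit 422) (@Lb.fm (nat_lit 9) t2429)))))))))))
noncomputable def l29009 : Lb := (@Lb.d (nat_lit 2) (nat_lit 0) (nat_lit 64) (@Lb.g g8 (@Lb.g g9 (@Lb.g g10 (@Lb.g g11 (@Lb.r r1603 (@Lb.r r1346 (@Lb.r r36 (@Lb.r r149 (@Lb.r r36 (@Lb.d (nat_lit 2) (nat_lit 5) (nat_lit 169) (@Lb.fm (nat_lit 9) t319))))))))))))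
noncomputable def l29010 : Lb := (@Lb.d (nat_lit 2) (nat_lit 256) (nat_lit 66) (@Lb.g g8 (@Lb.g g9 (@Lb.g g10 (@Lb.g g11 (@Lb.r r2435 (@Lb.r r386 (@Lb.r r36 (@Lb.r r149 (@Lb.r r36 (@Lb.d (nat_lit 2) (nat_lit 5) (nat_lit 640) (@Lb.fm (nat_lit 9) t319))))))))))))
noncomputable def l29011 : Lb := (@Lb.r r331 (@Lb.d (nat_lit 38) (nat_lit 0) (nat_lit 21) (@Lb.g g8 (@Lb.g g9 (@Lb.g g10 (@Lb.r r1579 (@Lb.r r1384 (@Lb.r r2585 (@Lb.d (nat_lit 674) (nat_lit 90) (nat_lit 612) (@Lb.t (@Lb.fm (nat_lit 9) t5284)))))))))))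
noncomputable def l29012 : Lb := (@Lb.d (nat_lit 136) (nat_lit 10) (nat_lit 64) (@Lb.g g9 (@Lb.g g11 (@Lb.r r152 (@Lb.r r2650 (@Lb.r r1371 (@Lb.r r1685 (@Lb.d (nat_lit 38) (nat_lit 34) (nat_lit 264) (@Lb.fp (nat_lit 3) t1641)))))))))
noncomputable def l29013 : Lb := (@Lb.d (nat_lit 38) (nat_lit 0) (nat_lit 73) (@Lb.g g8 (@Lb.g g9 (@Lb.g g10 (@Lb.g g11 (@Lb.r r1194 (@Lb.r r549 (@Lb.r r615 (@Lb.r r2577 (@Lb.r r2180 (@Lb.d (nat_lit 394) (nat_lit 128) (nat_lit 150) (@Lb.fm (nat_lit 9) t125))))))))))))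
noncomputable def l29014 : Lb := (@Lb.d (nat_lit 32) (nat_lit 2) (nat_lit 130) (@Lb.g g9 (@Lb.g g10 (@Lb.g g11 (@Lb.r r1447 (@Lb.r r293 (@Lb.r r72 (@Lb.r r150 (@Lb.d (nat_lit 533) (nat_lit 5) (nat_lit 426) (@Lb.t (@Lb.fp (nat_lit 9) t296)))))))))))
noncomputable def l29015 : Lb := (@Lb.r r81 (@Lb.d (nat_lit 2) (nat_lit 512) (nat_lit 129) (@Lb.g g8 (@Lb.g g6 (@Lb.g g11 (@Lb.r r2659 (@Lb.r r2577 (@Lb.r r24 (@Lb.d (nat_lit 290) (nat_lit 74) (nat_lit 100) (@Lb.t (@Lb.fp (nat_lit 9) t5285)))))))))))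
noncomputable def l29016 : Lb := (@Lb.d (nat_lit 0) (nat_lit 258) (nat_lit 66) (@Lb.g g8 (@Lb.g g9 (@Lb.g g10 (@Lb.g g7 (@Lb.r r386 (@Lb.r r97 (@Lb.d (nat_lit 5) (nat_lit 10) (nat_lit 73) (@Lb.fm (nat_lit 9) t285)))))))))
noncomputable def l29017 : Lb := (@Lb.r r21 (@Lb.r r70 (@Lb.d (nat_lit 264) (nat_lit 256) (nat_lit 64) (@Lb.g g8 (@Lb.g g11 (@Lb.r r2587 (@Lb.r r101 (@Lb.r r2450 (@Lb.d (nat_lit 2) (nat_lit 5) (nat_lit 649) (@Lb.fp (nat_lit 3) t4856))))))))))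
noncomputable def l29018 : Lb := (@Lb.r r21 (@Lb.d (nat_lit 0) (nat_lit 256) (nat_lit 66) (@Lb.g g8 (@Lb.g g10 (@Lb.g g7 (@Lb.r r386 (@Lb.r r1553 (@Lb.r r72 (@Lb.d (nat_lit 362) (nat_lit 4) (nat_lit 277) (@Lb.t (@Lb.fp (nat_lit 9) t4268)))))))))))
noncomputable def l29019 : Lb := (@Lb.d (nat_lit 0) (nat_lit 514) (nat_lit 130) (@Lb.g g8 (@Lb.g g9 (@Lb.g g10 (@Lb.g g11 (@Lb.r r642 (@Lb.r r1687 (@Lb.r r97 (@Lb.r r24 (@Lb.d (nat_lit 680) (nat_lit 9) (nat_lit 409) (@Lb.fp (nat_lit 9) t314)))))))))))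
noncomputable def l29020 : Lb := (@Lb.d (nat_lit 2) (nat_lit 256) (nat_lit 66) (@Lb.g g8 (@Lb.g g9 (@Lb.g g10 (@Lb.g g11 (@Lb.r r1681 (@Lb.r r356 (@Lb.r r154 (@Lb.r r132 (@Lb.d (nat_lit 393) (nat_lit 144) (nat_lit 133) (@Lb.fm (nat_lit 9) t907)))))))))))
noncomputable def l29021 : Lb := (@Lb.d (nat_lit 98) (nat_lit 9) (nat_lit 90) (@Lb.r r324 (@Lb.r r666 (@Lb.r r2459 (@Lb.g g9 (@Lb.g g4 (@Lb.d (nat_lit 70) (nat_lit 152) (nat_lit 0) (@Lb.r r98 (@Lb.fm (nat_lit 3) t564)))))))))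
noncomputable def l29022 : Lb := (@Lb.d (nat_lit 2) (nat_lit 2) (nat_lit 130) (@Lb.g g8 (@Lb.g g9 (@Lb.g g10 (@Lb.g g11 (@Lb.r r427 (@Lb.r r145 (@Lb.r r356 (@Lb.r r154 (@Lb.r r132 (@Lb.d (nat_lit 0) (nat_lit 73) (nat_lit 89) (@Lb.fm (nat_lit 9) t4550))))))))))))
noncomputable def l29023 : Lb := (@Lb.d (nat_lit 644) (nat_lit 512) (nat_lit 256) (@Lb.r r24 (@Lb.g g9 (@Lb.t (@Lb.fm (nat_lit 3) t2308)))))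
noncomputable def l29024 : Lb := (@Lb.d (nat_lit 642) (nat_lit 2) (nat_lit 256) (@Lb.r r24 (@Lb.g g9 (@Lb.d (nat_lit 8) (nat_lit 2) (nat_lit 0) (@Lb.t (@Lb.fm (nat_lit 3) t121))))))
noncomputable def l29025 : Lb := (@Lb.d (nat_lit 4) (nat_lit 258) (nat_lit 2) (@Lb.g g8 (@Lb.g g9 (@Lb.g g10 (@Lb.g g11 (@Lb.r r1451 (@Lb.r r1321 (@Lb.r r104 (@Lb.r r70 (@Lb.r r132 (@Lb.d (nat_lit 9) (nat_lit 73) (nat_lit 681) (@Lb.fp (nat_lit 9) t51))))))))))))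
noncomputable def l29026 : Lb := (@Lb.r r81 (@Lb.d (nat_lit 33) (nat_lit 4) (nat_lit 129) (@Lb.g g8 (@Lb.g g6 (@Lb.g g11 (@Lb.r r1643 (@Lb.r r1640 (@Lb.r r25 (@Lb.d (nat_lit 144) (nat_lit 37) (nat_lit 280) (@Lb.t (@Lb.fp (nat_lit 9) t5286)))))))))))
noncomputable def l29027 : Lb := (@Lb.d (nat_lit 9) (nat_lit 32) (nat_lit 128) (@Lb.g g8 (@Lb.g g10 (@Lb.g g11 (@Lb.r r1634 (@Lb.r r401 (@Lb.r r615 (@Lb.r r2436 (@Lb.d (nat_lit 610) (nat_lit 73) (nat_lit 546) (@Lb.t (@Lb.fp (nat_lit 9) t939)))))))))))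
noncomputable def l29028 : Lb := (@Lb.d (nat_lit 2) (nat_lit 516) (nat_lit 128) (@Lb.g g8 (@Lb.g g9 (@Lb.g g10 (@Lb.g g11 (@Lb.r r427 (@Lb.r r420 (@Lb.r r1094 (@Lb.r r145 (@Lb.r r36 (@Lb.d (nat_lit 277) (nat_lit 68) (nat_lit 145) (@Lb.fp (nat_lit 9) t3246))))))))))))
noncomputable def l29029 : Lb := (@Lb.d (nat_lit 100) (nat_lit 426) (nat_lit 609) (@Lb.r r597 (@Lb.r r2178 (@Lb.r r2579 (@Lb.g g5 (@Lb.g g8 (@Lb.d (nat_lit 320) (nat_lit 18) (nat_lit 0) (@Lb.fp (nat_lit 3) t307))))))))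
noncomputable def l29030 : Lb := (@Lb.d (nat_lit 640) (nat_lit 2) (nat_lit 384) (@Lb.r r24 (@Lb.g g9 (@Lb.d (nat_lit 8) (nat_lit 2) (nat_lit 0) (@Lb.t (@Lb.fm (nat_lit 3) t121))))))
noncomputable def l29031 : Lb := (@Lb.d (nat_lit 645) (nat_lit 512) (nat_lit 384) (@Lb.r r24 (@Lb.g g9 (@Lb.t (@Lb.fm (nat_lit 3) t2308)))))
noncomputable def l29032 : Lb := (@Lb.d (nat_lit 10) (nat_lit 257) (nat_lit 130) (@Lb.g g8 (@Lb.g g9 (@Lb.g g10 (@Lb.g g11 (@Lb.r r427 (@Lb.r r420 (@Lb.r r102 (@Lb.r r97 (@Lb.r r36 (@Lb.d (nat_lit 9) (nat_lit 137) (nat_lit 137) (@Lb.fm (nat_lit 9) t51))))))))))))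
noncomputable def l29033 : Lb := (@Lb.d (nat_lit 132) (nat_lit 256) (nat_lit 130) (@Lb.g g8 (@Lb.g g9 (@Lb.g g10 (@Lb.g g11 (@Lb.r r2666 (@Lb.r r612 (@Lb.r r1319 (@Lb.r r405 (@Lb.r r2084 (@Lb.d (nat_lit 616) (nat_lit 137) (nat_lit 169) (@Lb.fp (nat_lit 9) t163))))))))))))
noncomputable def l29034 : Lb := (@Lb.d (nat_lit 0) (nat_lit 88) (nat_lit 69) (@Lb.r r2628 (@Lb.r r2641 (@Lb.r r1667 (@Lb.r r2690 (@Lb.g g11 (@Lb.t (@Lb.fp (nat_lit 3) t5287))))))))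
noncomputable def l29035 : Lb := (@Lb.d (nat_lit 2) (nat_lit 512) (nat_lit 66) (@Lb.g g8 (@Lb.g g9 (@Lb.g g10 (@Lb.g g7 (@Lb.r r386 (@Lb.r r2145 (@Lb.r r24 (@Lb.d (nat_lit 328) (nat_lit 73) (nat_lit 553) (@Lb.fp (nat_lit 9) t1150))))))))))
noncomputable def l29036 : Lb := (@Lb.d (nat_lit 2) (nat_lit 256) (nat_lit 66) (@Lb.g g8 (@Lb.g g9 (@Lb.g g10 (@Lb.g g7 (@Lb.r r386 (@Lb.r r2145 (@Lb.r r24 (@Lb.d (nat_lit 328) (nat_lit 73) (nat_lit 617) (@Lb.fp (nat_lit 9) t1150))))))))))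
noncomputable def l29037 : Lb := (@Lb.d (nat_lit 0) (nat_lit 582) (nat_lit 582) (@Lb.r r673 (@Lb.r r362 (@Lb.r r84 (@Lb.g g9 (@Lb.d (nat_lit 4) (nat_lit 1) (nat_lit 0) (@Lb.t (@Lb.fm (nat_lit 3) t3934))))))))
noncomputable def l29038 : Lb := (@Lb.r r82 (@Lb.r r2311 (@Lb.d (nat_lit 258) (nat_lit 2) (nat_lit 0) (@Lb.g g4 (@Lb.g g9 (@Lb.r r2138 (@Lb.r r1061 (@Lb.d (nat_lit 262) (nat_lit 1) (nat_lit 0) (@Lb.fm (nat_lit 3) t5288)))))))))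
noncomputable def l29039 : Lb := (@Lb.r r82 (@Lb.d (nat_lit 130) (nat_lit 258) (nat_lit 256) (@Lb.g g8 (@Lb.g g9 (@Lb.g g7 (@Lb.r r2646 (@Lb.r r1321 (@Lb.r r264 (@Lb.d (nat_lit 388) (nat_lit 1) (nat_lit 640) (@Lb.t (@Lb.fp (nat_lit 9) t5288)))))))))))
noncomputable def l29040 : Lb := (@Lb.d (nat_lit 2) (nat_lit 512) (nat_lit 130) (@Lb.g g8 (@Lb.g g9 (@Lb.g g10 (@Lb.g g11 (@Lb.r r148 (@Lb.r r1126 (@Lb.r r1381 (@Lb.r r1691 (@Lb.r r1668 (@Lb.d (nat_lit 538) (nat_lit 90) (nat_lit 85) (@Lb.fp (nat_lit 9) t4415))))))))))))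
noncomputable def l29041 : Lb := (@Lb.r r134 (@Lb.r r328 (@Lb.r r535 (@Lb.r r289 (@Lb.d (nat_lit 5) (nat_lit 345) (nat_lit 521) (@Lb.fp (nat_lit 1) t51))))))
noncomputable def l29042 : Lb := (@Lb.d (nat_lit 129) (nat_lit 4) (nat_lit 128) (@Lb.g g8 (@Lb.g g9 (@Lb.g g10 (@Lb.g g11 (@Lb.r r419 (@Lb.r r2212 (@Lb.r r422 (@Lb.r r2469 (@Lb.d (nat_lit 88) (nat_lit 102) (nat_lit 153) (@Lb.fp (nat_lit 9) t2958)))))))))))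
noncomputable def l29043 : Lb := (@Lb.d (nat_lit 8) (nat_lit 258) (nat_lit 137) (@Lb.g g8 (@Lb.g g9 (@Lb.g g10 (@Lb.g g11 (@Lb.r r2691 (@Lb.r r2345 (@Lb.r r360 (@Lb.r r582 (@Lb.r r2180 (@Lb.d (nat_lit 641) (nat_lit 10) (nat_lit 89) (@Lb.fm (nat_lit 9) t242))))))))))))
noncomputable def l29044 : Lb := (@Lb.d (nat_lit 642) (nat_lit 646) (nat_lit 262) (@Lb.r r24 (@Lb.r r97 (@Lb.r r386 (@Lb.g g11 (@Lb.g g6 (@Lb.g g5 (@Lb.d (nat_lit 0) (nat_lit 1) (nat_lit 1) (@Lb.t (@Lb.fp (nat_lit 9) t928))))))))))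
noncomputable def l29045 : Lb := (@Lb.d (nat_lit 666) (nat_lit 128) (nat_lit 262) (@Lb.r r24 (@Lb.r r101 (@Lb.r r386 (@Lb.g g11 (@Lb.g g6 (@Lb.g g5 (@Lb.d (nat_lit 0) (nat_lit 0) (nat_lit 1) (@Lb.t (@Lb.fp (nat_lit 9) t475))))))))))
noncomputable def l29046 : Lb := (@Lb.d (nat_lit 400) (nat_lit 264) (nat_lit 293) (@Lb.r r24 (@Lb.r r386 (@Lb.g g11 (@Lb.g g6 (@Lb.g g5 (@Lb.d (nat_lit 4) (nat_lit 1) (nat_lit 129) (@Lb.t (@Lb.fm (nat_lit 9) t1771)))))))))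
noncomputable def l29047 : Lb := (@Lb.d (nat_lit 153) (nat_lit 264) (nat_lit 73) (@Lb.g g8 (@Lb.g g9 (@Lb.g g10 (@Lb.g g11 (@Lb.r r683 (@Lb.r r2724 (@Lb.r r134 (@Lb.r r97 (@Lb.d (nat_lit 545) (nat_lit 169) (nat_lit 385) (@Lb.fm (nat_lit 9) t1167)))))))))))
noncomputable def l29048 : Lb := (@Lb.g g4 (@Lb.g g6 (@Lb.r r97 (@Lb.r r2130 (@Lb.r r145 (@Lb.p (nat_lit 2) (@Lb.fp (nat_lit 3) t980)))))))
noncomputable def l29049 : Lb := (@Lb.d (nat_lit 10) (nat_lit 0) (nat_lit 130) (@Lb.g g8 (@Lb.g g10 (@Lb.g g11 (@Lb.r r1602 (@Lb.r r2453 (@Lb.r r619 (@Lb.r r2596 (@Lb.d (nat_lit 161) (nat_lit 90) (nat_lit 277) (@Lb.t (@Lb.fp (nat_lit 9) t5289)))))))))))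
noncomputable def l29050 : Lb := (@Lb.d (nat_lit 9) (nat_lit 32) (nat_lit 130) (@Lb.g g8 (@Lb.g g10 (@Lb.g g11 (@Lb.r r1618 (@Lb.r r149 (@Lb.r r2340 (@Lb.r r587 (@Lb.d (nat_lit 592) (nat_lit 85) (nat_lit 426) (@Lb.t (@Lb.fp (nat_lit 9) t100)))))))))))
noncomputable def l29051 : Lb := (@Lb.d (nat_lit 42) (nat_lit 0) (nat_lit 0) (@Lb.g g8 (@Lb.g g11 (@Lb.r r421 (@Lb.r r2470 (@Lb.r r2395 (@Lb.r r2392 (@Lb.d (nat_lit 682) (nat_lit 84) (nat_lit 678) (@Lb.fp (nat_lit 3) t1639)))))))))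
noncomputable def l29052 : Lb := (@Lb.r r275 (@Lb.d (nat_lit 130) (nat_lit 544) (nat_lit 9) (@Lb.g g8 (@Lb.g g9 (@Lb.g g10 (@Lb.r r1347 (@Lb.r r2710 (@Lb.r r1096 (@Lb.d (nat_lit 105) (nat_lit 102) (nat_lit 336) (@Lb.t (@Lb.fm (nat_lit 9) t3851)))))))))))
noncomputable def l29053 : Lb := (@Lb.d (nat_lit 354) (nat_lit 618) (nat_lit 42) (@Lb.r r1378 (@Lb.r r85 (@Lb.r r343 (@Lb.g g7 (@Lb.g g6 (@Lb.g g5 (@Lb.g g4 (@Lb.d (nat_lit 613) (nat_lit 4) (nat_lit 65) (@Lb.fp (nat_lit 9) t1832))))))))))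
noncomputable def l29054 : Lb := (@Lb.d (nat_lit 34) (nat_lit 514) (nat_lit 0) (@Lb.g g8 (@Lb.g g9 (@Lb.g g11 (@Lb.r r406 (@Lb.r r2395 (@Lb.r r2409 (@Lb.r r2408 (@Lb.d (nat_lit 421) (nat_lit 160) (nat_lit 676) (@Lb.t (@Lb.fp (nat_lit 9) t825)))))))))))
noncomputable def l29055 : Lb := (@Lb.d (nat_lit 33) (nat_lit 2) (nat_lit 73) (@Lb.g g8 (@Lb.g g9 (@Lb.g g10 (@Lb.g g11 (@Lb.r r2690 (@Lb.r r2455 (@Lb.r r97 (@Lb.r r1560 (@Lb.d (nat_lit 616) (nat_lit 98) (nat_lit 530) (@Lb.fm (nat_lit 9) t1598)))))))))))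
noncomputable def l29056 : Lb := (@Lb.d (nat_lit 1) (nat_lit 512) (nat_lit 73) (@Lb.g g8 (@Lb.g g10 (@Lb.g g11 (@Lb.r r2691 (@Lb.r r1185 (@Lb.r r2658 (@Lb.d (nat_lit 2) (nat_lit 160) (nat_lit 388) (@Lb.t (@Lb.fm (nat_lit 9) t590))))))))))
noncomputable def l29057 : Lb := (@Lb.d (nat_lit 129) (nat_lit 514) (nat_lit 130) (@Lb.g g8 (@Lb.g g9 (@Lb.g g10 (@Lb.g g11 (@Lb.r r2658 (@Lb.r r1701 (@Lb.r r1432 (@Lb.r r583 (@Lb.d (nat_lit 9) (nat_lit 34) (nat_lit 585) (@Lb.fm (nat_lit 9) t2420)))))))))))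
noncomputable def l29058 : Lb := (@Lb.r r70 (@Lb.d (nat_lit 136) (nat_lit 513) (nat_lit 256) (@Lb.g g8 (@Lb.g g9 (@Lb.g g7 (@Lb.r r2465 (@Lb.r r2150 (@Lb.r r408 (@Lb.d (nat_lit 656) (nat_lit 24) (nat_lit 325) (@Lb.t (@Lb.fp (nat_lit 9) t4859)))))))))))
noncomputable def l29059 : Lb := (@Lb.d (nat_lit 1) (nat_lit 264) (nat_lit 73) (@Lb.g g8 (@Lb.g g10 (@Lb.g g11 (@Lb.r r2707 (@Lb.r r2345 (@Lb.r r1160 (@Lb.r r1178 (@Lb.d (nat_lit 80) (nat_lit 68) (nat_lit 392) (@Lb.t (@Lb.fm (nat_lit 9) t1115)))))))))))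
noncomputable def l29060 : Lb := (@Lb.r r70 (@Lb.d (nat_lit 136) (nat_lit 257) (nat_lit 256) (@Lb.g g8 (@Lb.g g9 (@Lb.g g7 (@Lb.r r2465 (@Lb.r r2150 (@Lb.r r408 (@Lb.d (nat_lit 656) (nat_lit 24) (nat_lit 394) (@Lb.t (@Lb.fp (nat_lit 9) t491)))))))))))
noncomputable def l29061 : Lb := (@Lb.r r82 (@Lb.d (nat_lit 41) (nat_lit 544) (nat_lit 64) (@Lb.g g8 (@Lb.g g9 (@Lb.g g11 (@Lb.r r1571 (@Lb.r r582 (@Lb.r r1445 (@Lb.r r408 (@Lb.d (nat_lit 344) (nat_lit 16) (nat_lit 356) (@Lb.t (@Lb.fp (nat_lit 9) t509))))))))))))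
noncomputable def l29062 : Lb := (@Lb.d (nat_lit 0) (nat_lit 677) (nat_lit 294) (@Lb.r r21 (@Lb.r r1366 (@Lb.r r683 (@Lb.g g7 (@Lb.g g6 (@Lb.g g5 (@Lb.g g4 (@Lb.d (nat_lit 8) (nat_lit 10) (nat_lit 69) (@Lb.fm (nat_lit 9) t40))))))))))
noncomputable def l29063 : Lb := (@Lb.d (nat_lit 96) (nat_lit 514) (nat_lit 9) (@Lb.g g8 (@Lb.g g9 (@Lb.g g10 (@Lb.g g11 (@Lb.r r642 (@Lb.r r1415 (@Lb.r r2337 (@Lb.r r1572 (@Lb.d (nat_lit 426) (nat_lit 90) (nat_lit 642) (@Lb.fp (nat_lit 9) t5290)))))))))))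
noncomputable def l29064 : Lb := (@Lb.d (nat_lit 129) (nat_lit 258) (nat_lit 66) (@Lb.g g8 (@Lb.g g9 (@Lb.g g10 (@Lb.g g11 (@Lb.r r427 (@Lb.r r1177 (@Lb.r r1176 (@Lb.r r1610 (@Lb.d (nat_lit 609) (nat_lit 6) (nat_lit 73) (@Lb.fm (nat_lit 9) t5291)))))))))))
noncomputable def l29065 : Lb := (@Lb.r r70 (@Lb.d (nat_lit 161) (nat_lit 258) (nat_lit 64) (@Lb.g g8 (@Lb.g g9 (@Lb.g g11 (@Lb.r r1430 (@Lb.r r1367 (@Lb.r r553 (@Lb.r r552 (@Lb.d (nat_lit 385) (nat_lit 74) (nat_lit 404) (@Lb.t (@Lb.fp (nat_lit 9) t443))))))))))))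
noncomputable def l29066 : Lb := (@Lb.d (nat_lit 145) (nat_lit 256) (nat_lit 128) (@Lb.g g8 (@Lb.g g10 (@Lb.g g11 (@Lb.r r1675 (@Lb.r r330 (@Lb.r r537 (@Lb.r r1540 (@Lb.d (nat_lit 546) (nat_lit 0) (nat_lit 661) (@Lb.t (@Lb.fp (nat_lit 9) t2188)))))))))))
noncomputable def l29067 : Lb := (@Lb.r r82 (@Lb.d (nat_lit 9) (nat_lit 16) (nat_lit 0) (@Lb.g g8 (@Lb.g g9 (@Lb.g g11 (@Lb.r r2730 (@Lb.r r2345 (@Lb.r r2596 (@Lb.r r2663 (@Lb.d (nat_lit 677) (nat_lit 90) (nat_lit 325) (@Lb.t (@Lb.fp (nat_lit 9) t525))))))))))))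
noncomputable def l29068 : Lb := (@Lb.d (nat_lit 42) (nat_lit 512) (nat_lit 136) (@Lb.g g8 (@Lb.g g11 (@Lb.r r2370 (@Lb.r r1703 (@Lb.r r1573 (@Lb.r r1300 (@Lb.d (nat_lit 326) (nat_lit 82) (nat_lit 290) (@Lb.fm (nat_lit 3) t322)))))))))
noncomputable def l29069 : Lb := (@Lb.d (nat_lit 1) (nat_lit 9) (nat_lit 72) (@Lb.g g8 (@Lb.g g9 (@Lb.g g10 (@Lb.g g11 (@Lb.r r2705 (@Lb.r r1430 (@Lb.r r1352 (@Lb.r r2439 (@Lb.d (nat_lit 609) (nat_lit 165) (nat_lit 4) (@Lb.fp (nat_lit 9) t5292)))))))))))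
noncomputable def l29070 : Lb := (@Lb.d (nat_lit 0) (nat_lit 385) (nat_lit 0) (@Lb.g g9 (@Lb.r r388 (@Lb.r r587 (@Lb.r r358 (@Lb.r r1668 (@Lb.d (nat_lit 0) (nat_lit 2) (nat_lit 84) (@Lb.t (@Lb.fm (nat_lit 3) t578)))))))))
noncomputable def l29071 : Lb := (@Lb.r r323 (@Lb.d (nat_lit 8) (nat_lit 297) (nat_lit 9) (@Lb.g g9 (@Lb.g g10 (@Lb.r r536 (@Lb.r r283 (@Lb.r r1641 (@Lb.r r1110 (@Lb.d (nat_lit 534) (nat_lit 6) (nat_lit 273) (@Lb.fm (nat_lit 3) t5293))))))))))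
noncomputable def l29072 : Lb := (@Lb.d (nat_lit 321) (nat_lit 388) (nat_lit 534) (@Lb.r r1048 (@Lb.r r410 (@Lb.r r1625 (@Lb.g g11 (@Lb.g g6 (@Lb.g g5 (@Lb.d (nat_lit 64) (nat_lit 25) (nat_lit 325) (@Lb.r r516 (@Lb.t (@Lb.fm (nat_lit 9) t1106)))))))))))
noncomputable def l29073 : Lb := (@Lb.d (nat_lit 321) (nat_lit 132) (nat_lit 534) (@Lb.r r1048 (@Lb.r r410 (@Lb.r r1625 (@Lb.g g11 (@Lb.g g6 (@Lb.g g5 (@Lb.d (nat_lit 64) (nat_lit 18) (nat_lit 326) (@Lb.r r516 (@Lb.t (@Lb.fm (nat_lit 9) t1106)))))))))))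
noncomputable def l29074 : Lb := (@Lb.r r323 (@Lb.d (nat_lit 8) (nat_lit 553) (nat_lit 9) (@Lb.g g9 (@Lb.g g10 (@Lb.r r536 (@Lb.r r283 (@Lb.r r1641 (@Lb.r r1110 (@Lb.d (nat_lit 529) (nat_lit 5) (nat_lit 273) (@Lb.fm (nat_lit 3) t2813))))))))))
noncomputable def l29075 : Lb := (@Lb.d (nat_lit 1) (nat_lit 521) (nat_lit 72) (@Lb.g g8 (@Lb.g g9 (@Lb.g g10 (@Lb.g g11 (@Lb.r r1706 (@Lb.r r648 (@Lb.r r1563 (@Lb.r r2337 (@Lb.r r36 (@Lb.d (nat_lit 641) (nat_lit 105) (nat_lit 66) (@Lb.fp (nat_lit 9) t98))))))))))))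
noncomputable def l29076 : Lb := (@Lb.d (nat_lit 2) (nat_lit 9) (nat_lit 72) (@Lb.g g8 (@Lb.g g9 (@Lb.g g10 (@Lb.g g11 (@Lb.r r1706 (@Lb.r r648 (@Lb.r r1563 (@Lb.r r2337 (@Lb.r r36 (@Lb.d (nat_lit 641) (nat_lit 98) (nat_lit 64) (@Lb.fp (nat_lit 9) t98))))))))))))
noncomputable def l29077 : Lb := (@Lb.d (nat_lit 32) (nat_lit 256) (nat_lit 73) (@Lb.g g10 (@Lb.g g11 (@Lb.r r2695 (@Lb.r r1352 (@Lb.r r2182 (@Lb.r r289 (@Lb.d (nat_lit 545) (nat_lit 98) (nat_lit 658) (@Lb.fm (nat_lit 3) t242)))))))))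
noncomputable def l29078 : Lb := (@Lb.d (nat_lit 128) (nat_lit 256) (nat_lit 128) (@Lb.g g11 (@Lb.r r2456 (@Lb.r r1351 (@Lb.r r2178 (@Lb.r r2213 (@Lb.d (nat_lit 361) (nat_lit 134) (nat_lit 154) (@Lb.t (@Lb.fm (nat_lit 3) t5294)))))))))
noncomputable def l29079 : Lb := (@Lb.r r21 (@Lb.r r263 (@Lb.d (nat_lit 646) (nat_lit 0) (nat_lit 2) (@Lb.g g8 (@Lb.g g10 (@Lb.r r1639 (@Lb.r r106 (@Lb.r r97 (@Lb.d (nat_lit 21) (nat_lit 65) (nat_lit 613) (@Lb.fm (nat_lit 3) t4411))))))))))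
noncomputable def l29080 : Lb := (@Lb.r r21 (@Lb.r r263 (@Lb.d (nat_lit 646) (nat_lit 512) (nat_lit 2) (@Lb.g g8 (@Lb.g g10 (@Lb.r r1639 (@Lb.r r106 (@Lb.r r97 (@Lb.d (nat_lit 26) (nat_lit 66) (nat_lit 613) (@Lb.fm (nat_lit 3) t4411))))))))))
noncomputable def l29081 : Lb := (@Lb.r r68 (@Lb.r r81 (@Lb.d (nat_lit 128) (nat_lit 260) (nat_lit 168) (@Lb.g g10 (@Lb.g g11 (@Lb.r r344 (@Lb.r r391 (@Lb.r r37 (@Lb.d (nat_lit 425) (nat_lit 66) (nat_lit 649) (@Lb.fm (nat_lit 3) t3711))))))))))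
noncomputable def l29082 : Lb := (@Lb.r r82 (@Lb.d (nat_lit 68) (nat_lit 274) (nat_lit 64) (@Lb.g g8 (@Lb.g g9 (@Lb.g g11 (@Lb.r r615 (@Lb.r r386 (@Lb.r r1060 (@Lb.r r2213 (@Lb.d (nat_lit 582) (nat_lit 66) (nat_lit 514) (@Lb.t (@Lb.fp (nat_lit 9) t5295))))))))))))
noncomputable def l29083 : Lb := (@Lb.r r21 (@Lb.r r70 (@Lb.d (nat_lit 389) (nat_lit 512) (nat_lit 128) (@Lb.g g8 (@Lb.g g11 (@Lb.r r1419 (@Lb.r r402 (@Lb.r r25 (@Lb.d (nat_lit 577) (nat_lit 4) (nat_lit 530) (@Lb.fp (nat_lit 3) t5296))))))))))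
noncomputable def l29084 : Lb := (@Lb.d (nat_lit 389) (nat_lit 641) (nat_lit 576) (@Lb.r r2325 (@Lb.r r2603 (@Lb.r r1544 (@Lb.g g7 (@Lb.g g5 (@Lb.d (nat_lit 4) (nat_lit 34) (nat_lit 128) (@Lb.fm (nat_lit 3) t5297))))))))
noncomputable def l29085 : Lb := (@Lb.d (nat_lit 41) (nat_lit 512) (nat_lit 136) (@Lb.g g8 (@Lb.g g9 (@Lb.g g11 (@Lb.r r2118 (@Lb.r r1416 (@Lb.r r295 (@Lb.r r273 (@Lb.d (nat_lit 610) (nat_lit 36) (nat_lit 642) (@Lb.t (@Lb.fp (nat_lit 9) t4088)))))))))))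
noncomputable def l29086 : Lb := (@Lb.d (nat_lit 1) (nat_lit 289) (nat_lit 66) (@Lb.g g4 (@Lb.g g9 (@Lb.g g10 (@Lb.g g11 (@Lb.r r598 (@Lb.r r2577 (@Lb.r r411 (@Lb.d (nat_lit 6) (nat_lit 20) (nat_lit 160) (@Lb.fm (nat_lit 9) t5298))))))))))
noncomputable def l29087 : Lb := (@Lb.d (nat_lit 0) (nat_lit 320) (nat_lit 320) (@Lb.r r24 (@Lb.g g5 (@Lb.d (nat_lit 0) (nat_lit 17) (nat_lit 0) (@Lb.r r1299 (@Lb.t (@Lb.fp (nat_lit 3) t591)))))))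
noncomputable def l29088 : Lb := (@Lb.d (nat_lit 4) (nat_lit 0) (nat_lit 130) (@Lb.g g8 (@Lb.g g9 (@Lb.g g10 (@Lb.g g11 (@Lb.r r582 (@Lb.r r392 (@Lb.r r1319 (@Lb.r r1313 (@Lb.r r36 (@Lb.d (nat_lit 610) (nat_lit 68) (nat_lit 17) (@Lb.fp (nat_lit 9) t171))))))))))))
noncomputable def l29089 : Lb := (@Lb.d (nat_lit 22) (nat_lit 320) (nat_lit 601) (@Lb.r r24 (@Lb.r r1435 (@Lb.r r2458 (@Lb.r r597 (@Lb.g g7 (@Lb.d (nat_lit 0) (nat_lit 16) (nat_lit 68) (@Lb.t (@Lb.fm (nat_lit 3) t386)))))))))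
noncomputable def l29090 : Lb := (@Lb.r r21 (@Lb.d (nat_lit 10) (nat_lit 264) (nat_lit 130) (@Lb.g g8 (@Lb.g g10 (@Lb.g g11 (@Lb.r r427 (@Lb.r r533 (@Lb.r r360 (@Lb.r r390 (@Lb.d (nat_lit 105) (nat_lit 90) (nat_lit 353) (@Lb.t (@Lb.fm (nat_lit 9) t295))))))))))))
noncomputable def l29091 : Lb := (@Lb.d (nat_lit 0) (nat_lit 258) (nat_lit 130) (@Lb.g g9 (@Lb.g g10 (@Lb.g g11 (@Lb.r r1443 (@Lb.r r1686 (@Lb.r r1313 (@Lb.r r1128 (@Lb.d (nat_lit 585) (nat_lit 132) (nat_lit 1) (@Lb.t (@Lb.fp (nat_lit 9) t1179)))))))))))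
noncomputable def l29092 : Lb := (@Lb.r r21 (@Lb.d (nat_lit 146) (nat_lit 256) (nat_lit 128) (@Lb.g g8 (@Lb.g g10 (@Lb.g g11 (@Lb.r r387 (@Lb.r r1172 (@Lb.r r2454 (@Lb.r r97 (@Lb.d (nat_lit 330) (nat_lit 0) (nat_lit 138) (@Lb.t (@Lb.fm (nat_lit 9) t1156))))))))))))
noncomputable def l29093 : Lb := (@Lb.d (nat_lit 2) (nat_lit 516) (nat_lit 1) (@Lb.g g8 (@Lb.g g9 (@Lb.g g10 (@Lb.r r515 (@Lb.r r618 (@Lb.r r25 (@Lb.d (nat_lit 2) (nat_lit 26) (nat_lit 2) (@Lb.t (@Lb.fp (nat_lit 9) t524))))))))))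
noncomputable def l29094 : Lb := (@Lb.d (nat_lit 0) (nat_lit 260) (nat_lit 64) (@Lb.g g8 (@Lb.g g9 (@Lb.g g10 (@Lb.g g7 (@Lb.r r386 (@Lb.r r97 (@Lb.d (nat_lit 0) (nat_lit 128) (nat_lit 10) (@Lb.fm (nat_lit 9) t108)))))))))
noncomputable def l29095 : Lb := (@Lb.d (nat_lit 25) (nat_lit 25) (nat_lit 64) (@Lb.r r662 (@Lb.r r328 (@Lb.r r515 (@Lb.g g6 (@Lb.g g9 (@Lb.d (nat_lit 24) (nat_lit 18) (nat_lit 0) (@Lb.fm (nat_lit 3) t5299))))))))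
noncomputable def l29096 : Lb := (@Lb.d (nat_lit 34) (nat_lit 0) (nat_lit 132) (@Lb.g g8 (@Lb.g g11 (@Lb.r r582 (@Lb.r r529 (@Lb.r r132 (@Lb.d (nat_lit 97) (nat_lit 0) (nat_lit 73) (@Lb.fm (nat_lit 3) t242))))))))
noncomputable def l29097 : Lb := (@Lb.d (nat_lit 2) (nat_lit 260) (nat_lit 64) (@Lb.g g8 (@Lb.g g9 (@Lb.g g10 (@Lb.g g7 (@Lb.r r386 (@Lb.r r97 (@Lb.d (nat_lit 9) (nat_lit 130) (nat_lit 10) (@Lb.fm (nat_lit 9) t2129)))))))))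
noncomputable def l29098 : Lb := (@Lb.d (nat_lit 0) (nat_lit 516) (nat_lit 64) (@Lb.g g8 (@Lb.g g9 (@Lb.g g10 (@Lb.g g7 (@Lb.r r386 (@Lb.r r97 (@Lb.d (nat_lit 2) (nat_lit 128) (nat_lit 10) (@Lb.fm (nat_lit 9) t108)))))))))
noncomputable def l29099 : Lb := (@Lb.d (nat_lit 4) (nat_lit 644) (nat_lit 641) (@Lb.r r24 (@Lb.r r82 (@Lb.r r417 (@Lb.g g11 (@Lb.g g6 (@Lb.g g5 (@Lb.d (nat_lit 0) (nat_lit 1) (nat_lit 129) (@Lb.t (@Lb.fm (nat_lit 9) t296))))))))))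
noncomputable def l29100 : Lb := (@Lb.d (nat_lit 9) (nat_lit 258) (nat_lit 73) (@Lb.g g8 (@Lb.g g9 (@Lb.g g10 (@Lb.g g11 (@Lb.r r1451 (@Lb.r r2201 (@Lb.r r146 (@Lb.d (nat_lit 289) (nat_lit 105) (nat_lit 673) (@Lb.fm (nat_lit 9) t296))))))))))
noncomputable def l29101 : Lb := (@Lb.d (nat_lit 401) (nat_lit 344) (nat_lit 650) (@Lb.r r1604 (@Lb.r r402 (@Lb.r r89 (@Lb.g g4 (@Lb.d (nat_lit 6) (nat_lit 0) (nat_lit 0) (@Lb.t (@Lb.fp (nat_lit 3) t5300))))))))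
noncomputable def l29102 : Lb := (@Lb.d (nat_lit 2) (nat_lit 265) (nat_lit 129) (@Lb.g g8 (@Lb.g g9 (@Lb.g g10 (@Lb.g g11 (@Lb.r r2451 (@Lb.r r277 (@Lb.r r1384 (@Lb.r r2630 (@Lb.d (nat_lit 657) (nat_lit 10) (nat_lit 354) (@Lb.fm (nat_lit 9) t1372)))))))))))
noncomputable def l29103 : Lb := (@Lb.d (nat_lit 96) (nat_lit 384) (nat_lit 650) (@Lb.r r1432 (@Lb.r r2641 (@Lb.r r2375 (@Lb.r r586 (@Lb.g g7 (@Lb.d (nat_lit 0) (nat_lit 0) (nat_lit 64) (@Lb.t (@Lb.fp (nat_lit 3) t5301)))))))))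
noncomputable def l29104 : Lb := (@Lb.d (nat_lit 2) (nat_lit 516) (nat_lit 128) (@Lb.g g8 (@Lb.g g9 (@Lb.g g10 (@Lb.g g11 (@Lb.r r2691 (@Lb.r r297 (@Lb.r r360 (@Lb.r r582 (@Lb.r r2180 (@Lb.d (nat_lit 289) (nat_lit 10) (nat_lit 168) (@Lb.fm (nat_lit 9) t750))))))))))))
noncomputable def l29105 : Lb := (@Lb.d (nat_lit 2) (nat_lit 528) (nat_lit 137) (@Lb.g g8 (@Lb.g g9 (@Lb.g g10 (@Lb.g g11 (@Lb.r r420 (@Lb.r r661 (@Lb.r r2711 (@Lb.r r2646 (@Lb.r r164 (@Lb.d (nat_lit 129) (nat_lit 10) (nat_lit 610) (@Lb.fm (nat_lit 9) t1942))))))))))))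
noncomputable def l29106 : Lb := (@Lb.d (nat_lit 0) (nat_lit 512) (nat_lit 73) (@Lb.g g9 (@Lb.g g10 (@Lb.g g11 (@Lb.r r2658 (@Lb.r r579 (@Lb.d (nat_lit 0) (nat_lit 97) (nat_lit 600) (@Lb.t (@Lb.fp (nat_lit 9) t1673)))))))))
noncomputable def l29107 : Lb := (@Lb.d (nat_lit 9) (nat_lit 257) (nat_lit 74) (@Lb.g g8 (@Lb.g g9 (@Lb.g g10 (@Lb.g g11 (@Lb.r r1177 (@Lb.r r658 (@Lb.r r387 (@Lb.d (nat_lit 641) (nat_lit 164) (nat_lit 520) (@Lb.fm (nat_lit 9) t242))))))))))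
noncomputable def l29108 : Lb := (@Lb.d (nat_lit 0) (nat_lit 130) (nat_lit 289) (@Lb.r r609 (@Lb.r r363 (@Lb.r r356 (@Lb.r r154 (@Lb.g g4 (@Lb.t (@Lb.fm (nat_lit 3) t126))))))))
noncomputable def l29109 : Lb := (@Lb.d (nat_lit 0) (nat_lit 613) (nat_lit 1) (@Lb.r r1362 (@Lb.r r2691 (@Lb.g g7 (@Lb.g g6 (@Lb.g g5 (@Lb.d (nat_lit 0) (nat_lit 0) (nat_lit 65) (@Lb.t (@Lb.fm (nat_lit 9) t1465)))))))))
noncomputable def l29110 : Lb := (@Lb.d (nat_lit 0) (nat_lit 512) (nat_lit 68) (@Lb.g g10 (@Lb.g g11 (@Lb.r r419 (@Lb.r r578 (@Lb.d (nat_lit 0) (nat_lit 33) (nat_lit 5) (@Lb.fm (nat_lit 3) t51)))))))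
noncomputable def l29111 : Lb := (@Lb.d (nat_lit 0) (nat_lit 644) (nat_lit 530) (@Lb.r r146 (@Lb.r r2385 (@Lb.g g7 (@Lb.g g6 (@Lb.g g5 (@Lb.d (nat_lit 0) (nat_lit 0) (nat_lit 65) (@Lb.t (@Lb.fm (nat_lit 9) t216)))))))))
noncomputable def l29112 : Lb := (@Lb.d (nat_lit 4) (nat_lit 294) (nat_lit 610) (@Lb.r r24 (@Lb.r r2659 (@Lb.r r1362 (@Lb.r r673 (@Lb.g g7 (@Lb.g g6 (@Lb.g g5 (@Lb.d (nat_lit 0) (nat_lit 6) (nat_lit 66) (@Lb.t (@Lb.fm (nat_lit 9) t242)))))))))))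
noncomputable def l29113 : Lb := (@Lb.g g10 (@Lb.r r579 (@Lb.r r402 (@Lb.r r101 (@Lb.r r24 (@Lb.t (@Lb.p (nat_lit 1) (@Lb.fp (nat_lit 3) t145))))))))
noncomputable def l29114 : Lb := (@Lb.d (nat_lit 0) (nat_lit 256) (nat_lit 10) (@Lb.g g11 (@Lb.t (@Lb.fp (nat_lit 3) t2))))
noncomputable def l29115 : Lb := (@Lb.d (nat_lit 0) (nat_lit 66) (nat_lit 0) (@Lb.g g5 (@Lb.r r664 (@Lb.r r682 (@Lb.r r2699 (@Lb.r r2692 (@Lb.d (nat_lit 330) (nat_lit 129) (nat_lit 512) (@Lb.t (@Lb.fp (nat_lit 3) t324)))))))))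
noncomputable def l29116 : Lb := (@Lb.d (nat_lit 2) (nat_lit 16) (nat_lit 137) (@Lb.g g8 (@Lb.g g9 (@Lb.g g10 (@Lb.g g11 (@Lb.r r427 (@Lb.r r1130 (@Lb.r r2649 (@Lb.d (nat_lit 361) (nat_lit 21) (nat_lit 106) (@Lb.fp (nat_lit 9) t631))))))))))
noncomputable def l29117 : Lb := (@Lb.d (nat_lit 10) (nat_lit 0) (nat_lit 0) (@Lb.g g8 (@Lb.r r149 (@Lb.r r1124 (@Lb.d (nat_lit 282) (nat_lit 138) (nat_lit 34) (@Lb.t (@Lb.fp (nat_lit 3) t126)))))))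
noncomputable def l29118 : Lb := (@Lb.d (nat_lit 272) (nat_lit 512) (nat_lit 16) (@Lb.r r24 (@Lb.r r101 (@Lb.r r402 (@Lb.r r323 (@Lb.g g7 (@Lb.g g6 (@Lb.d (nat_lit 0) (nat_lit 0) (nat_lit 64) (@Lb.fp (nat_lit 3) t218)))))))))
noncomputable def l29119 : Lb := (@Lb.d (nat_lit 2) (nat_lit 258) (nat_lit 73) (@Lb.g g8 (@Lb.g g9 (@Lb.g g10 (@Lb.g g11 (@Lb.r r2691 (@Lb.r r153 (@Lb.r r602 (@Lb.r r2193 (@Lb.d (nat_lit 130) (nat_lit 160) (nat_lit 90) (@Lb.fm (nat_lit 9) t521)))))))))))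
noncomputable def l29120 : Lb := (@Lb.d (nat_lit 256) (nat_lit 256) (nat_lit 272) (@Lb.r r20 (@Lb.r r105 (@Lb.r r36 (@Lb.r r402 (@Lb.g g11 (@Lb.t (@Lb.fp (nat_lit 3) t1900))))))))
noncomputable def l29121 : Lb := (@Lb.d (nat_lit 646) (nat_lit 346) (nat_lit 256) (@Lb.r r1317 (@Lb.r r2395 (@Lb.r r1348 (@Lb.g g7 (@Lb.g g6 (@Lb.g g5 (@Lb.d (nat_lit 4) (nat_lit 0) (nat_lit 133) (@Lb.r r132 (@Lb.t (@Lb.fm (nat_lit 9) t2491)))))))))))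
noncomputable def l29122 : Lb := (@Lb.d (nat_lit 0) (nat_lit 257) (nat_lit 130) (@Lb.g g8 (@Lb.g g9 (@Lb.g g10 (@Lb.g g11 (@Lb.r r618 (@Lb.r r105 (@Lb.r r612 (@Lb.r r1287 (@Lb.r r2564 (@Lb.d (nat_lit 5) (nat_lit 17) (nat_lit 640) (@Lb.fm (nat_lit 9) t71))))))))))))
noncomputable def l29123 : Lb := (@Lb.d (nat_lit 18) (nat_lit 512) (nat_lit 417) (@Lb.r r21 (@Lb.r r331 (@Lb.r r2630 (@Lb.g g7 (@Lb.g g4 (@Lb.d (nat_lit 352) (nat_lit 0) (nat_lit 64) (@Lb.r r25 (@Lb.fm (nat_lit 3) t2877)))))))))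
noncomputable def l29124 : Lb := (@Lb.d (nat_lit 2) (nat_lit 8) (nat_lit 130) (@Lb.g g8 (@Lb.g g9 (@Lb.g g10 (@Lb.g g11 (@Lb.r r2667 (@Lb.r r1642 (@Lb.r r673 (@Lb.r r24 (@Lb.d (nat_lit 342) (nat_lit 20) (nat_lit 276) (@Lb.fm (nat_lit 9) t998)))))))))))
noncomputable def l29125 : Lb := (@Lb.r r326 (@Lb.d (nat_lit 132) (nat_lit 16) (nat_lit 648) (@Lb.g g8 (@Lb.g g9 (@Lb.g g7 (@Lb.r r1622 (@Lb.r r2088 (@Lb.r r1129 (@Lb.d (nat_lit 260) (nat_lit 5) (nat_lit 134) (@Lb.t (@Lb.fp (nat_lit 9) t3702)))))))))))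
noncomputable def l29126 : Lb := (@Lb.d (nat_lit 4) (nat_lit 512) (nat_lit 74) (@Lb.g g8 (@Lb.g g9 (@Lb.g g10 (@Lb.g g11 (@Lb.r r1666 (@Lb.r r1431 (@Lb.r r2585 (@Lb.d (nat_lit 330) (nat_lit 42) (nat_lit 144) (@Lb.fm (nat_lit 9) t324))))))))))
noncomputable def l29127 : Lb := (@Lb.d (nat_lit 2) (nat_lit 258) (nat_lit 2) (@Lb.g g8 (@Lb.g g9 (@Lb.g g10 (@Lb.r r2435 (@Lb.r r386 (@Lb.r r2664 (@Lb.r r25 (@Lb.d (nat_lit 512) (nat_lit 165) (nat_lit 354) (@Lb.t (@Lb.fm (nat_lit 9) t2877)))))))))))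
noncomputable def l29128 : Lb := (@Lb.d (nat_lit 66) (nat_lit 578) (nat_lit 128) (@Lb.r r553 (@Lb.r r676 (@Lb.r r342 (@Lb.g g7 (@Lb.g g5 (@Lb.d (nat_lit 0) (nat_lit 16) (nat_lit 64) (@Lb.r r578 (@Lb.fp (nat_lit 3) t1506)))))))))
noncomputable def l29129 : Lb := (@Lb.r r1284 (@Lb.r r322 (@Lb.d (nat_lit 0) (nat_lit 33) (nat_lit 128) (@Lb.g g9 (@Lb.g g11 (@Lb.r r2593 (@Lb.r r2403 (@Lb.r r578 (@Lb.d (nat_lit 529) (nat_lit 6) (nat_lit 16) (@Lb.fp (nat_lit 3) t2060))))))))))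
noncomputable def l29130 : Lb := (@Lb.d (nat_lit 146) (nat_lit 521) (nat_lit 130) (@Lb.g g8 (@Lb.g g9 (@Lb.g g10 (@Lb.g g11 (@Lb.r r387 (@Lb.r r1686 (@Lb.r r1561 (@Lb.r r1560 (@Lb.d (nat_lit 21) (nat_lit 65) (nat_lit 401) (@Lb.fp (nat_lit 9) t1490)))))))))))
noncomputable def l29131 : Lb := (@Lb.d (nat_lit 144) (nat_lit 265) (nat_lit 130) (@Lb.g g8 (@Lb.g g9 (@Lb.g g10 (@Lb.g g11 (@Lb.r r387 (@Lb.r r1177 (@Lb.r r2450 (@Lb.r r2632 (@Lb.d (nat_lit 514) (nat_lit 85) (nat_lit 169) (@Lb.fp (nat_lit 9) t986)))))))))))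
noncomputable def l29132 : Lb := (@Lb.d (nat_lit 4) (nat_lit 257) (nat_lit 0) (@Lb.g g9 (@Lb.r r164 (@Lb.r r1110 (@Lb.r r2465 (@Lb.r r2579 (@Lb.d (nat_lit 0) (nat_lit 0) (nat_lit 40) (@Lb.t (@Lb.fp (nat_lit 3) t351)))))))))
noncomputable def l29133 : Lb := (@Lb.r r70 (@Lb.d (nat_lit 137) (nat_lit 329) (nat_lit 128) (@Lb.g g8 (@Lb.g g9 (@Lb.g g11 (@Lb.r r2315 (@Lb.r r2198 (@Lb.r r2120 (@Lb.d (nat_lit 576) (nat_lit 2) (nat_lit 8) (@Lb.t (@Lb.fm (nat_lit 9) t393)))))))))))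
noncomputable def l29134 : Lb := (@Lb.r r24 (@Lb.d (nat_lit 320) (nat_lit 320) (nat_lit 576) (@Lb.fm (nat_lit 1) t716)))
noncomputable def l29135 : Lb := (@Lb.d (nat_lit 130) (nat_lit 388) (nat_lit 353) (@Lb.r r2438 (@Lb.r r347 (@Lb.r r677 (@Lb.g g7 (@Lb.g g6 (@Lb.g g5 (@Lb.g g8 (@Lb.d (nat_lit 320) (nat_lit 1) (nat_lit 65) (@Lb.fm (nat_lit 9) t2953))))))))))
noncomputable def l29136 : Lb := (@Lb.d (nat_lit 336) (nat_lit 388) (nat_lit 662) (@Lb.r r2438 (@Lb.r r347 (@Lb.r r677 (@Lb.g g7 (@Lb.g g6 (@Lb.g g5 (@Lb.g g8 (@Lb.d (nat_lit 320) (nat_lit 1) (nat_lit 65) (@Lb.fm (nat_lit 9) t4257))))))))))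
noncomputable def l29137 : Lb := (@Lb.d (nat_lit 2) (nat_lit 288) (nat_lit 0) (@Lb.g g8 (@Lb.g g9 (@Lb.r r279 (@Lb.r r2178 (@Lb.r r2601 (@Lb.d (nat_lit 325) (nat_lit 89) (nat_lit 2) (@Lb.fm (nat_lit 3) t322))))))))
noncomputable def l29138 : Lb := (@Lb.d (nat_lit 2) (nat_lit 0) (nat_lit 0) (@Lb.g g8 (@Lb.r r273 (@Lb.r r2595 (@Lb.r r2178 (@Lb.r r529 (@Lb.d (nat_lit 322) (nat_lit 10) (nat_lit 514) (@Lb.t (@Lb.fp (nat_lit 3) t322)))))))))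
noncomputable def l29139 : Lb := (@Lb.d (nat_lit 389) (nat_lit 529) (nat_lit 25) (@Lb.r r134 (@Lb.r r539 (@Lb.r r532 (@Lb.r r345 (@Lb.g g7 (@Lb.g g5 (@Lb.d (nat_lit 64) (nat_lit 2) (nat_lit 128) (@Lb.fm (nat_lit 3) t1602)))))))))
noncomputable def l29140 : Lb := (@Lb.g g5 (@Lb.g g7 (@Lb.r r402 (@Lb.r r101 (@Lb.r r24 (@Lb.d (nat_lit 256) (nat_lit 5) (nat_lit 577) (@Lb.fp (nat_lit 3) t145)))))))
noncomputable def l29141 : Lb := (@Lb.d (nat_lit 1) (nat_lit 550) (nat_lit 326) (@Lb.r r2466 (@Lb.r r339 (@Lb.g g7 (@Lb.g g6 (@Lb.g g5 (@Lb.d (nat_lit 4) (nat_lit 1) (nat_lit 134) (@Lb.t (@Lb.fm (nat_lit 9) t524)))))))))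
noncomputable def l29142 : Lb := (@Lb.d (nat_lit 2) (nat_lit 41) (nat_lit 1) (@Lb.g g8 (@Lb.g g9 (@Lb.g g10 (@Lb.r r1194 (@Lb.r r2468 (@Lb.r r1307 (@Lb.r r1573 (@Lb.d (nat_lit 388) (nat_lit 16) (nat_lit 586) (@Lb.t (@Lb.fm (nat_lit 9) t367)))))))))))
noncomputable def l29143 : Lb := (@Lb.r r21 (@Lb.r r70 (@Lb.g g4 (@Lb.g g7 (@Lb.r r523 (@Lb.r r586 (@Lb.r r97 (@Lb.r r516 (@Lb.d (nat_lit 578) (nat_lit 512) (nat_lit 85) (@Lb.fm (nat_lit 3) t5302))))))))))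
noncomputable def l29144 : Lb := (@Lb.r r21 (@Lb.d (nat_lit 6) (nat_lit 512) (nat_lit 138) (@Lb.g g8 (@Lb.g g10 (@Lb.g g11 (@Lb.r r2154 (@Lb.r r25 (@Lb.d (nat_lit 0) (nat_lit 137) (nat_lit 2) (@Lb.t (@Lb.fm (nat_lit 9) t334))))))))))
noncomputable def l29145 : Lb := (@Lb.r r323 (@Lb.r r2626 (@Lb.d (nat_lit 0) (nat_lit 336) (nat_lit 288) (@Lb.fp (nat_lit 1) t210))))
noncomputable def l29146 : Lb := (@Lb.d (nat_lit 128) (nat_lit 257) (nat_lit 64) (@Lb.g g9 (@Lb.g g11 (@Lb.r r661 (@Lb.r r292 (@Lb.r r539 (@Lb.r r134 (@Lb.d (nat_lit 586) (nat_lit 34) (nat_lit 38) (@Lb.fm (nat_lit 3) t40)))))))))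
noncomputable def l29147 : Lb := (@Lb.d (nat_lit 129) (nat_lit 265) (nat_lit 65) (@Lb.g g8 (@Lb.g g9 (@Lb.g g10 (@Lb.g g11 (@Lb.r r1706 (@Lb.r r1411 (@Lb.r r2657 (@Lb.r r2584 (@Lb.d (nat_lit 280) (nat_lit 9) (nat_lit 106) (@Lb.fm (nat_lit 9) t5303)))))))))))
noncomputable def l29148 : Lb := (@Lb.d (nat_lit 409) (nat_lit 0) (nat_lit 272) (@Lb.r r1636 (@Lb.r r613 (@Lb.r r1370 (@Lb.g g7 (@Lb.g g4 (@Lb.d (nat_lit 68) (nat_lit 0) (nat_lit 576) (@Lb.fp (nat_lit 3) t1561))))))))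
noncomputable def l29149 : Lb := (@Lb.g g7 (@Lb.r r402 (@Lb.r r579 (@Lb.d (nat_lit 0) (nat_lit 325) (nat_lit 357) (@Lb.t (@Lb.fm (nat_lit 3) t295))))))
noncomputable def l29150 : Lb := (@Lb.d (nat_lit 538) (nat_lit 530) (nat_lit 138) (@Lb.g g8 (@Lb.g g9 (@Lb.g g10 (@Lb.g g11 (@Lb.r r2347 (@Lb.r r1602 (@Lb.r r409 (@Lb.d (nat_lit 153) (nat_lit 26) (nat_lit 597) (@Lb.fp (nat_lit 9) t1774))))))))))
noncomputable def l29151 : Lb := (@Lb.d (nat_lit 530) (nat_lit 342) (nat_lit 660) (@Lb.r r1634 (@Lb.r r617 (@Lb.r r1559 (@Lb.g g7 (@Lb.g g6 (@Lb.g g5 (@Lb.g g4 (@Lb.d (nat_lit 1) (nat_lit 6) (nat_lit 132) (@Lb.fp (nat_lit 9) t4891))))))))))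
noncomputable def l29152 : Lb := (@Lb.d (nat_lit 641) (nat_lit 546) (nat_lit 2) (@Lb.g g4 (@Lb.g g9 (@Lb.g g10 (@Lb.r r643 (@Lb.r r162 (@Lb.r r2465 (@Lb.d (nat_lit 8) (nat_lit 150) (nat_lit 330) (@Lb.t (@Lb.fm (nat_lit 9) t5304))))))))))
noncomputable def l29153 : Lb := (@Lb.d (nat_lit 144) (nat_lit 514) (nat_lit 64) (@Lb.g g8 (@Lb.g g9 (@Lb.g g10 (@Lb.g g11 (@Lb.r r427 (@Lb.r r2154 (@Lb.r r292 (@Lb.r r21 (@Lb.r r36 (@Lb.d (nat_lit 361) (nat_lit 38) (nat_lit 597) (@Lb.fp (nat_lit 9) t495))))))))))))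
noncomputable def l29154 : Lb := (@Lb.d (nat_lit 2) (nat_lit 512) (nat_lit 64) (@Lb.g g8 (@Lb.g g11 (@Lb.r r1543 (@Lb.r r2122 (@Lb.r r2073 (@Lb.d (nat_lit 578) (nat_lit 0) (nat_lit 389) (@Lb.fp (nat_lit 3) t1155))))))))
noncomputable def l29155 : Lb := (@Lb.d (nat_lit 10) (nat_lit 0) (nat_lit 0) (@Lb.g g8 (@Lb.r r358 (@Lb.r r1381 (@Lb.r r2451 (@Lb.r r2564 (@Lb.d (nat_lit 642) (nat_lit 128) (nat_lit 576) (@Lb.t (@Lb.fm (nat_lit 3) t992)))))))))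
noncomputable def l29156 : Lb := (@Lb.d (nat_lit 138) (nat_lit 256) (nat_lit 328) (@Lb.g g8 (@Lb.g g11 (@Lb.r r102 (@Lb.r r1125 (@Lb.r r1172 (@Lb.d (nat_lit 294) (nat_lit 105) (nat_lit 262) (@Lb.fp (nat_lit 3) t745))))))))
noncomputable def l29157 : Lb := (@Lb.d (nat_lit 66) (nat_lit 256) (nat_lit 662) (@Lb.r r24 (@Lb.r r101 (@Lb.r r2658 (@Lb.r r2467 (@Lb.g g7 (@Lb.g g6 (@Lb.d (nat_lit 0) (nat_lit 0) (nat_lit 72) (@Lb.fm (nat_lit 3) t868)))))))))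
noncomputable def l29158 : Lb := (@Lb.d (nat_lit 512) (nat_lit 522) (nat_lit 258) (@Lb.r r24 (@Lb.r r101 (@Lb.r r402 (@Lb.g g11 (@Lb.g g9 (@Lb.fp (nat_lit 3) t3107)))))))
noncomputable def l29159 : Lb := (@Lb.d (nat_lit 2) (nat_lit 514) (nat_lit 128) (@Lb.g g8 (@Lb.g g9 (@Lb.g g10 (@Lb.g g11 (@Lb.r r516 (@Lb.r r263 (@Lb.r r2453 (@Lb.r r666 (@Lb.r r516 (@Lb.d (nat_lit 2) (nat_lit 10) (nat_lit 161) (@Lb.fm (nat_lit 9) t3052))))))))))))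
noncomputable def l29160 : Lb := (@Lb.d (nat_lit 1) (nat_lit 0) (nat_lit 128) (@Lb.g g8 (@Lb.g g11 (@Lb.r r337 (@Lb.r r683 (@Lb.r r680 (@Lb.r r170 (@Lb.r r153 (@Lb.d (nat_lit 532) (nat_lit 1) (nat_lit 154) (@Lb.fp (nat_lit 3) t1607))))))))))
noncomputable def l29161 : Lb := (@Lb.d (nat_lit 2) (nat_lit 258) (nat_lit 128) (@Lb.g g8 (@Lb.g g9 (@Lb.g g10 (@Lb.g g11 (@Lb.r r657 (@Lb.r r100 (@Lb.r r666 (@Lb.r r387 (@Lb.r r132 (@Lb.d (nat_lit 98) (nat_lit 66) (nat_lit 68) (@Lb.fm (nat_lit 9) t5305))))))))))))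
noncomputable def l29162 : Lb := (@Lb.d (nat_lit 2) (nat_lit 258) (nat_lit 128) (@Lb.g g8 (@Lb.g g9 (@Lb.g g10 (@Lb.g g11 (@Lb.r r516 (@Lb.r r263 (@Lb.r r2453 (@Lb.r r666 (@Lb.r r516 (@Lb.d (nat_lit 2) (nat_lit 0) (nat_lit 162) (@Lb.fm (nat_lit 9) t3052))))))))))))
noncomputable def l29163 : Lb := (@Lb.r r82 (@Lb.d (nat_lit 6) (nat_lit 32) (nat_lit 128) (@Lb.g g8 (@Lb.g g9 (@Lb.g g11 (@Lb.r r2713 (@Lb.r r658 (@Lb.r r1419 (@Lb.r r1288 (@Lb.d (nat_lit 673) (nat_lit 5) (nat_lit 601) (@Lb.t (@Lb.fm (nat_lit 9) t644))))))))))))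
noncomputable def l29164 : Lb := (@Lb.d (nat_lit 64) (nat_lit 512) (nat_lit 426) (@Lb.r r24 (@Lb.r r2661 (@Lb.r r2403 (@Lb.g g10 (@Lb.d (nat_lit 0) (nat_lit 8) (nat_lit 38) (@Lb.t (@Lb.fp (nat_lit 3) t242))))))))
noncomputable def l29165 : Lb := (@Lb.d (nat_lit 0) (nat_lit 676) (nat_lit 385) (@Lb.g g5 (@Lb.g g6 (@Lb.g g11 (@Lb.t (@Lb.fm (nat_lit 9) t661))))))
noncomputable def l29166 : Lb := (@Lb.d (nat_lit 330) (nat_lit 337) (nat_lit 644) (@Lb.r r1320 (@Lb.r r2583 (@Lb.r r1385 (@Lb.g g10 (@Lb.g g5 (@Lb.g g4 (@Lb.d (nat_lit 70) (nat_lit 9) (nat_lit 37) (@Lb.t (@Lb.fp (nat_lit 9) t564))))))))))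
noncomputable def l29167 : Lb := (@Lb.r r331 (@Lb.d (nat_lit 514) (nat_lit 258) (nat_lit 1) (@Lb.g g8 (@Lb.g g9 (@Lb.g g6 (@Lb.r r1411 (@Lb.r r97 (@Lb.d (nat_lit 2) (nat_lit 138) (nat_lit 2) (@Lb.t (@Lb.fm (nat_lit 9) t5306))))))))))
noncomputable def l29168 : Lb := (@Lb.d (nat_lit 2) (nat_lit 514) (nat_lit 130) (@Lb.g g8 (@Lb.g g9 (@Lb.g g10 (@Lb.g g11 (@Lb.r r2705 (@Lb.r r535 (@Lb.r r2440 (@Lb.r r2122 (@Lb.d (nat_lit 528) (nat_lit 0) (nat_lit 168) (@Lb.fp (nat_lit 9) t221)))))))))))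
noncomputable def l29169 : Lb := (@Lb.r r2118 (@Lb.r r2069 (@Lb.r r8 (@Lb.d (nat_lit 257) (nat_lit 0) (nat_lit 0) (@Lb.fm (nat_lit 1) t2817)))))
noncomputable def l29170 : Lb := (@Lb.d (nat_lit 9) (nat_lit 262) (nat_lit 128) (@Lb.g g8 (@Lb.g g9 (@Lb.g g10 (@Lb.g g11 (@Lb.r r1699 (@Lb.r r164 (@Lb.r r2709 (@Lb.r r2198 (@Lb.r r2084 (@Lb.d (nat_lit 290) (nat_lit 162) (nat_lit 361) (@Lb.fp (nat_lit 9) t2095))))))))))))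
noncomputable def l29171 : Lb := (@Lb.d (nat_lit 10) (nat_lit 256) (nat_lit 128) (@Lb.g g8 (@Lb.g g10 (@Lb.g g11 (@Lb.r r2389 (@Lb.r r683 (@Lb.r r676 (@Lb.r r1158 (@Lb.d (nat_lit 289) (nat_lit 90) (nat_lit 425) (@Lb.t (@Lb.fm (nat_lit 9) t124)))))))))))
noncomputable def l29172 : Lb := (@Lb.g g4 (@Lb.g g10 (@Lb.g g7 (@Lb.r r579 (@Lb.d (nat_lit 1) (nat_lit 256) (nat_lit 68) (@Lb.t (@Lb.fp (nat_lit 9) t2)))))))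
noncomputable def l29173 : Lb := (@Lb.d (nat_lit 0) (nat_lit 256) (nat_lit 128) (@Lb.g g4 (@Lb.g g10 (@Lb.g g11 (@Lb.r r387 (@Lb.d (nat_lit 1) (nat_lit 0) (nat_lit 2) (@Lb.t (@Lb.fp (nat_lit 9) t2))))))))
noncomputable def l29174 : Lb := (@Lb.d (nat_lit 0) (nat_lit 0) (nat_lit 129) (@Lb.r r323 (@Lb.g g10 (@Lb.g g4 (@Lb.d (nat_lit 1) (nat_lit 0) (nat_lit 2) (@Lb.r r387 (@Lb.fp (nat_lit 3) t2)))))))
noncomputable def l29175 : Lb := (@Lb.d (nat_lit 2) (nat_lit 256) (nat_lit 128) (@Lb.g g8 (@Lb.g g9 (@Lb.g g10 (@Lb.g g11 (@Lb.r r164 (@Lb.r r2325 (@Lb.r r555 (@Lb.r r1430 (@Lb.r r548 (@Lb.d (nat_lit 290) (nat_lit 10) (nat_lit 1) (@Lb.fp (nat_lit 9) t124))))))))))))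
noncomputable def l29176 : Lb := (@Lb.d (nat_lit 2) (nat_lit 18) (nat_lit 0) (@Lb.g g8 (@Lb.g g9 (@Lb.r r363 (@Lb.r r328 (@Lb.r r134 (@Lb.d (nat_lit 529) (nat_lit 2) (nat_lit 161) (@Lb.fm (nat_lit 3) t756))))))))
noncomputable def l29177 : Lb := (@Lb.d (nat_lit 0) (nat_lit 5) (nat_lit 0) (@Lb.g g5 (@Lb.d (nat_lit 2) (nat_lit 129) (nat_lit 1) (@Lb.t (@Lb.fm (nat_lit 3) t126)))))
noncomputable def l29178 : Lb := (@Lb.d (nat_lit 2) (nat_lit 256) (nat_lit 128) (@Lb.g g8 (@Lb.g g9 (@Lb.g g10 (@Lb.g g11 (@Lb.r r164 (@Lb.r r2325 (@Lb.r r555 (@Lb.r r1430 (@Lb.r r548 (@Lb.d (nat_lit 294) (nat_lit 8) (nat_lit 1) (@Lb.fp (nat_lit 9) t1805))))))))))))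
noncomputable def l29179 : Lb := (@Lb.d (nat_lit 10) (nat_lit 262) (nat_lit 128) (@Lb.g g8 (@Lb.g g9 (@Lb.g g10 (@Lb.g g11 (@Lb.r r1699 (@Lb.r r533 (@Lb.r r1188 (@Lb.r r1158 (@Lb.d (nat_lit 289) (nat_lit 10) (nat_lit 648) (@Lb.fp (nat_lit 9) t355)))))))))))
noncomputable def l29180 : Lb := (@Lb.r r275 (@Lb.d (nat_lit 0) (nat_lit 517) (nat_lit 5) (@Lb.g g9 (@Lb.g g6 (@Lb.r r2659 (@Lb.r r2385 (@Lb.d (nat_lit 0) (nat_lit 102) (nat_lit 361) (@Lb.fm (nat_lit 3) t5047))))))))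
noncomputable def l29181 : Lb := (@Lb.d (nat_lit 357) (nat_lit 405) (nat_lit 41) (@Lb.r r2394 (@Lb.g g7 (@Lb.g g6 (@Lb.g g5 (@Lb.d (nat_lit 64) (nat_lit 0) (nat_lit 646) (@Lb.t (@Lb.fp (nat_lit 9) t5307))))))))
noncomputable def l29182 : Lb := (@Lb.r r275 (@Lb.g g9 (@Lb.g g6 (@Lb.r r1411 (@Lb.r r1697 (@Lb.d (nat_lit 5) (nat_lit 150) (nat_lit 281) (@Lb.fm (nat_lit 3) t5308)))))))
noncomputable def l29183 : Lb := (@Lb.r r322 (@Lb.d (nat_lit 0) (nat_lit 289) (nat_lit 516) (@Lb.g g9 (@Lb.g g7 (@Lb.r r1441 (@Lb.r r98 (@Lb.d (nat_lit 5) (nat_lit 128) (nat_lit 554) (@Lb.fm (nat_lit 3) t1834))))))))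
noncomputable def l29184 : Lb := (@Lb.r r273 (@Lb.d (nat_lit 8) (nat_lit 288) (nat_lit 386) (@Lb.g g8 (@Lb.g g10 (@Lb.g g11 (@Lb.r r1642 (@Lb.r r149 (@Lb.r r2408 (@Lb.d (nat_lit 42) (nat_lit 40) (nat_lit 358) (@Lb.t (@Lb.fp (nat_lit 9) t827)))))))))))
noncomputable def l29185 : Lb := (@Lb.d (nat_lit 2) (nat_lit 517) (nat_lit 0) (@Lb.g g8 (@Lb.g g5 (@Lb.r r411 (@Lb.r r1434 (@Lb.r r1432 (@Lb.d (nat_lit 410) (nat_lit 88) (nat_lit 394) (@Lb.fp (nat_lit 3) t5309))))))))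
noncomputable def l29186 : Lb := (@Lb.d (nat_lit 144) (nat_lit 2) (nat_lit 130) (@Lb.g g8 (@Lb.g g9 (@Lb.g g10 (@Lb.g g11 (@Lb.r r1443 (@Lb.r r1125 (@Lb.r r1622 (@Lb.r r2632 (@Lb.d (nat_lit 6) (nat_lit 148) (nat_lit 169) (@Lb.fp (nat_lit 9) t5310)))))))))))
noncomputable def l29187 : Lb := (@Lb.d (nat_lit 0) (nat_lit 5) (nat_lit 138) (@Lb.g g8 (@Lb.g g5 (@Lb.g g10 (@Lb.g g11 (@Lb.r r659 (@Lb.r r578 (@Lb.d (nat_lit 0) (nat_lit 25) (nat_lit 137) (@Lb.fp (nat_lit 9) t50)))))))))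
noncomputable def l29188 : Lb := (@Lb.r r275 (@Lb.d (nat_lit 0) (nat_lit 260) (nat_lit 0) (@Lb.g g8 (@Lb.g g9 (@Lb.g g10 (@Lb.r r675 (@Lb.r r578 (@Lb.r r417 (@Lb.d (nat_lit 0) (nat_lit 2) (nat_lit 137) (@Lb.t (@Lb.fm (nat_lit 9) t50)))))))))))
noncomputable def l29189 : Lb := (@Lb.d (nat_lit 32) (nat_lit 258) (nat_lit 0) (@Lb.g g8 (@Lb.g g9 (@Lb.r r363 (@Lb.r r2646 (@Lb.r r409 (@Lb.r r388 (@Lb.d (nat_lit 98) (nat_lit 128) (nat_lit 154) (@Lb.fm (nat_lit 3) t2503)))))))))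
noncomputable def l29190 : Lb := (@Lb.d (nat_lit 34) (nat_lit 514) (nat_lit 0) (@Lb.g g8 (@Lb.g g9 (@Lb.r r363 (@Lb.r r2646 (@Lb.r r409 (@Lb.r r388 (@Lb.d (nat_lit 98) (nat_lit 128) (nat_lit 154) (@Lb.fm (nat_lit 3) t2503)))))))))
noncomputable def l29191 : Lb := (@Lb.d (nat_lit 130) (nat_lit 514) (nat_lit 2) (@Lb.g g8 (@Lb.g g9 (@Lb.g g10 (@Lb.r r1623 (@Lb.r r426 (@Lb.r r345 (@Lb.r r324 (@Lb.d (nat_lit 89) (nat_lit 9) (nat_lit 132) (@Lb.t (@Lb.fm (nat_lit 9) t2211)))))))))))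
noncomputable def l29192 : Lb := (@Lb.d (nat_lit 129) (nat_lit 2) (nat_lit 2) (@Lb.g g8 (@Lb.g g9 (@Lb.g g10 (@Lb.r r1623 (@Lb.r r426 (@Lb.r r345 (@Lb.r r324 (@Lb.d (nat_lit 89) (nat_lit 9) (nat_lit 132) (@Lb.t (@Lb.fm (nat_lit 9) t2211)))))))))))
noncomputable def l29193 : Lb := (@Lb.d (nat_lit 33) (nat_lit 260) (nat_lit 74) (@Lb.g g8 (@Lb.g g9 (@Lb.g g10 (@Lb.g g11 (@Lb.r r2731 (@Lb.r r2724 (@Lb.r r2182 (@Lb.r r97 (@Lb.d (nat_lit 544) (nat_lit 41) (nat_lit 145) (@Lb.fm (nat_lit 9) t546)))))))))))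
noncomputable def l29194 : Lb := (@Lb.d (nat_lit 34) (nat_lit 258) (nat_lit 128) (@Lb.g g8 (@Lb.g g9 (@Lb.g g11 (@Lb.r r406 (@Lb.r r1643 (@Lb.r r97 (@Lb.r r1560 (@Lb.d (nat_lit 346) (nat_lit 100) (nat_lit 534) (@Lb.t (@Lb.fm (nat_lit 9) t564)))))))))))
noncomputable def l29195 : Lb := (@Lb.d (nat_lit 128) (nat_lit 522) (nat_lit 644) (@Lb.g g9 (@Lb.g g10 (@Lb.g g11 (@Lb.r r2468 (@Lb.r r2150 (@Lb.r r1169 (@Lb.d (nat_lit 8) (nat_lit 1) (nat_lit 162) (@Lb.t (@Lb.fm (nat_lit 9) t1408))))))))))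
noncomputable def l29196 : Lb := (@Lb.d (nat_lit 406) (nat_lit 32) (nat_lit 577) (@Lb.r r2453 (@Lb.r r86 (@Lb.r r1431 (@Lb.g g7 (@Lb.g g6 (@Lb.g g5 (@Lb.g g4 (@Lb.d (nat_lit 1) (nat_lit 0) (nat_lit 134) (@Lb.fp (nat_lit 9) t3180))))))))))
noncomputable def l29197 : Lb := (@Lb.d (nat_lit 0) (nat_lit 10) (nat_lit 2) (@Lb.g g9 (@Lb.g g10 (@Lb.g g7 (@Lb.r r2449 (@Lb.r r402 (@Lb.d (nat_lit 0) (nat_lit 88) (nat_lit 164) (@Lb.t (@Lb.fm (nat_lit 9) t2994)))))))))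
noncomputable def l29198 : Lb := (@Lb.d (nat_lit 0) (nat_lit 134) (nat_lit 88) (@Lb.r r82 (@Lb.r r2449 (@Lb.g g11 (@Lb.g g6 (@Lb.d (nat_lit 0) (nat_lit 16) (nat_lit 513) (@Lb.r r529 (@Lb.fp (nat_lit 3) t4496))))))))
noncomputable def l29199 : Lb := (@Lb.r r323 (@Lb.d (nat_lit 0) (nat_lit 10) (nat_lit 1) (@Lb.g g9 (@Lb.g g10 (@Lb.r r2339 (@Lb.r r2657 (@Lb.r r338 (@Lb.d (nat_lit 0) (nat_lit 84) (nat_lit 162) (@Lb.fp (nat_lit 3) t28)))))))))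
noncomputable def l29200 : Lb := (@Lb.d (nat_lit 0) (nat_lit 586) (nat_lit 384) (@Lb.r r386 (@Lb.r r275 (@Lb.g g9 (@Lb.d (nat_lit 0) (nat_lit 90) (nat_lit 0) (@Lb.r r291 (@Lb.r r98 (@Lb.t (@Lb.fm (nat_lit 3) t875)))))))))
noncomputable def l29201 : Lb := (@Lb.d (nat_lit 1) (nat_lit 2) (nat_lit 130) (@Lb.g g8 (@Lb.g g9 (@Lb.g g10 (@Lb.g g11 (@Lb.r r2705 (@Lb.r r535 (@Lb.r r2440 (@Lb.r r2122 (@Lb.d (nat_lit 289) (nat_lit 0) (nat_lit 137) (@Lb.fp (nat_lit 9) t221)))))))))))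
noncomputable def l29202 : Lb := (@Lb.d (nat_lit 2) (nat_lit 2) (nat_lit 130) (@Lb.g g8 (@Lb.g g9 (@Lb.g g10 (@Lb.g g11 (@Lb.r r2691 (@Lb.r r297 (@Lb.r r648 (@Lb.r r666 (@Lb.r r1156 (@Lb.d (nat_lit 648) (nat_lit 41) (nat_lit 73) (@Lb.fp (nat_lit 9) t668))))))))))))
noncomputable def l29203 : Lb := (@Lb.r r21 (@Lb.d (nat_lit 65) (nat_lit 512) (nat_lit 74) (@Lb.g g8 (@Lb.g g10 (@Lb.g g11 (@Lb.r r2184 (@Lb.r r2634 (@Lb.r r587 (@Lb.r r25 (@Lb.d (nat_lit 32) (nat_lit 0) (nat_lit 536) (@Lb.t (@Lb.fm (nat_lit 9) t647))))))))))))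
noncomputable def l29204 : Lb := (@Lb.d (nat_lit 2) (nat_lit 258) (nat_lit 130) (@Lb.g g8 (@Lb.g g9 (@Lb.g g10 (@Lb.g g11 (@Lb.r r2666 (@Lb.r r579 (@Lb.r r97 (@Lb.r r24 (@Lb.d (nat_lit 425) (nat_lit 4) (nat_lit 296) (@Lb.fm (nat_lit 9) t263)))))))))))
noncomputable def l29205 : Lb := (@Lb.r r21 (@Lb.d (nat_lit 16) (nat_lit 0) (nat_lit 128) (@Lb.g g8 (@Lb.g g10 (@Lb.g g11 (@Lb.r r603 (@Lb.r r2401 (@Lb.r r1170 (@Lb.r r1128 (@Lb.d (nat_lit 261) (nat_lit 74) (nat_lit 34) (@Lb.t (@Lb.fm (nat_lit 9) t74))))))))))))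
noncomputable def l29206 : Lb := (@Lb.r r82 (@Lb.d (nat_lit 34) (nat_lit 2) (nat_lit 128) (@Lb.g g8 (@Lb.g g9 (@Lb.g g11 (@Lb.r r1430 (@Lb.r r579 (@Lb.r r2449 (@Lb.r r84 (@Lb.d (nat_lit 582) (nat_lit 86) (nat_lit 9) (@Lb.t (@Lb.fm (nat_lit 9) t2153))))))))))))
noncomputable def l29207 : Lb := (@Lb.d (nat_lit 2) (nat_lit 514) (nat_lit 130) (@Lb.g g8 (@Lb.g g9 (@Lb.g g10 (@Lb.g g11 (@Lb.r r2691 (@Lb.r r297 (@Lb.r r360 (@Lb.r r582 (@Lb.r r2180 (@Lb.d (nat_lit 644) (nat_lit 8) (nat_lit 265) (@Lb.fm (nat_lit 9) t1425))))))))))))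
noncomputable def l29208 : Lb := (@Lb.d (nat_lit 0) (nat_lit 512) (nat_lit 64) (@Lb.g g4 (@Lb.g g10 (@Lb.g g7 (@Lb.d (nat_lit 1) (nat_lit 0) (nat_lit 148) (@Lb.t (@Lb.fm (nat_lit 9) t2)))))))
noncomputable def l29209 : Lb := (@Lb.r r1346 (@Lb.d (nat_lit 0) (nat_lit 545) (nat_lit 4) (@Lb.g g9 (@Lb.g g7 (@Lb.r r417 (@Lb.d (nat_lit 5) (nat_lit 38) (nat_lit 658) (@Lb.fm (nat_lit 3) t2197)))))))
noncomputable def l29210 : Lb := (@Lb.d (nat_lit 0) (nat_lit 0) (nat_lit 586) (@Lb.r r84 (@Lb.r r1177 (@Lb.r r154 (@Lb.r r664 (@Lb.g g7 (@Lb.d (nat_lit 0) (nat_lit 0) (nat_lit 64) (@Lb.t (@Lb.fm (nat_lit 3) t322)))))))))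
noncomputable def l29211 : Lb := (@Lb.d (nat_lit 282) (nat_lit 576) (nat_lit 426) (@Lb.r r1604 (@Lb.r r2666 (@Lb.r r2401 (@Lb.g g7 (@Lb.g g6 (@Lb.g g4 (@Lb.d (nat_lit 5) (nat_lit 4) (nat_lit 64) (@Lb.t (@Lb.fm (nat_lit 9) t927))))))))))
noncomputable def l29212 : Lb := (@Lb.d (nat_lit 169) (nat_lit 344) (nat_lit 9) (@Lb.r r618 (@Lb.r r360 (@Lb.r r2409 (@Lb.g g7 (@Lb.g g6 (@Lb.d (nat_lit 16) (nat_lit 4) (nat_lit 64) (@Lb.fm (nat_lit 3) t927))))))))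
noncomputable def l29213 : Lb := (@Lb.d (nat_lit 8) (nat_lit 514) (nat_lit 0) (@Lb.g g9 (@Lb.r r402 (@Lb.r r24 (@Lb.r r101 (@Lb.d (nat_lit 144) (nat_lit 150) (nat_lit 65) (@Lb.t (@Lb.fm (nat_lit 3) t240))))))))
noncomputable def l29214 : Lb := (@Lb.d (nat_lit 137) (nat_lit 553) (nat_lit 401) (@Lb.r r665 (@Lb.r r1688 (@Lb.r r386 (@Lb.g g7 (@Lb.g g5 (@Lb.d (nat_lit 4) (nat_lit 18) (nat_lit 68) (@Lb.r r98 (@Lb.fm (nat_lit 3) t399)))))))))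
noncomputable def l29215 : Lb := (@Lb.d (nat_lit 9) (nat_lit 293) (nat_lit 64) (@Lb.g g8 (@Lb.g g9 (@Lb.g g10 (@Lb.g g11 (@Lb.r r41 (@Lb.r r360 (@Lb.r r327 (@Lb.r r386 (@Lb.r r132 (@Lb.d (nat_lit 146) (nat_lit 10) (nat_lit 69) (@Lb.fm (nat_lit 9) t50))))))))))))
noncomputable def l29216 : Lb := (@Lb.g g4 (@Lb.g g10 (@Lb.r r579 (@Lb.r r402 (@Lb.r r101 (@Lb.r r24 (@Lb.d (nat_lit 0) (nat_lit 256) (nat_lit 128) (@Lb.fp (nat_lit 3) t145))))))))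
noncomputable def l29217 : Lb := (@Lb.g g8 (@Lb.g g5 (@Lb.g g7 (@Lb.r r402 (@Lb.d (nat_lit 0) (nat_lit 17) (nat_lit 64) (@Lb.t (@Lb.fp (nat_lit 9) t71)))))))
noncomputable def l29218 : Lb := (@Lb.d (nat_lit 2) (nat_lit 514) (nat_lit 73) (@Lb.g g8 (@Lb.g g9 (@Lb.g g10 (@Lb.g g11 (@Lb.r r1699 (@Lb.r r164 (@Lb.r r2709 (@Lb.r r2198 (@Lb.r r2084 (@Lb.d (nat_lit 289) (nat_lit 162) (nat_lit 418) (@Lb.fp (nat_lit 9) t791))))))))))))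
noncomputable def l29219 : Lb := (@Lb.r r323 (@Lb.d (nat_lit 2) (nat_lit 290) (nat_lit 2) (@Lb.g g8 (@Lb.g g9 (@Lb.g g10 (@Lb.r r599 (@Lb.r r74 (@Lb.r r409 (@Lb.d (nat_lit 682) (nat_lit 16) (nat_lit 681) (@Lb.t (@Lb.fp (nat_lit 9) t221)))))))))))
noncomputable def l29220 : Lb := (@Lb.r r277 (@Lb.r r326 (@Lb.d (nat_lit 513) (nat_lit 512) (nat_lit 516) (@Lb.g g4 (@Lb.g g7 (@Lb.r r402 (@Lb.r r1121 (@Lb.d (nat_lit 1) (nat_lit 2) (nat_lit 64) (@Lb.fm (nat_lit 3) t2408)))))))))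
noncomputable def l29221 : Lb := (@Lb.g g7 (@Lb.r r273 (@Lb.r r551 (@Lb.r r340 (@Lb.r r170 (@Lb.r r153 (@Lb.d (nat_lit 6) (nat_lit 657) (nat_lit 288) (@Lb.t (@Lb.fm (nat_lit 3) t210)))))))))
noncomputable def l29222 : Lb := (@Lb.d (nat_lit 642) (nat_lit 388) (nat_lit 390) (@Lb.r r273 (@Lb.r r1635 (@Lb.r r549 (@Lb.r r2214 (@Lb.g g7 (@Lb.g g6 (@Lb.g g5 (@Lb.g g8 (@Lb.d (nat_lit 320) (nat_lit 1) (nat_lit 65) (@Lb.fp (nat_lit 9) t5311)))))))))))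
noncomputable def l29223 : Lb := (@Lb.d (nat_lit 33) (nat_lit 262) (nat_lit 74) (@Lb.g g8 (@Lb.g g9 (@Lb.g g10 (@Lb.g g11 (@Lb.r r683 (@Lb.r r676 (@Lb.r r2214 (@Lb.r r1169 (@Lb.d (nat_lit 265) (nat_lit 9) (nat_lit 649) (@Lb.fp (nat_lit 9) t2083)))))))))))
noncomputable def l29224 : Lb := (@Lb.d (nat_lit 641) (nat_lit 261) (nat_lit 294) (@Lb.r r2438 (@Lb.r r1620 (@Lb.r r2473 (@Lb.g g11 (@Lb.g g6 (@Lb.g g5 (@Lb.g g4 (@Lb.d (nat_lit 1) (nat_lit 8) (nat_lit 128) (@Lb.fm (nat_lit 9) t2980))))))))))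
noncomputable def l29225 : Lb := (@Lb.d (nat_lit 129) (nat_lit 2) (nat_lit 0) (@Lb.g g8 (@Lb.g g9 (@Lb.r r1450 (@Lb.r r1433 (@Lb.r r2663 (@Lb.r r1432 (@Lb.d (nat_lit 666) (nat_lit 21) (nat_lit 361) (@Lb.fp (nat_lit 3) t334)))))))))
noncomputable def l29226 : Lb := (@Lb.d (nat_lit 146) (nat_lit 514) (nat_lit 128) (@Lb.g g8 (@Lb.g g9 (@Lb.g g10 (@Lb.g g11 (@Lb.r r404 (@Lb.r r2395 (@Lb.r r2714 (@Lb.r r85 (@Lb.r r164 (@Lb.d (nat_lit 521) (nat_lit 104) (nat_lit 148) (@Lb.fm (nat_lit 9) t443))))))))))))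
noncomputable def l29227 : Lb := (@Lb.d (nat_lit 0) (nat_lit 2) (nat_lit 64) (@Lb.r r24 (@Lb.g g9 (@Lb.d (nat_lit 8) (nat_lit 2) (nat_lit 0) (@Lb.t (@Lb.fm (nat_lit 3) t2))))))
noncomputable def l29228 : Lb := (@Lb.r r322 (@Lb.d (nat_lit 2) (nat_lit 2) (nat_lit 576) (@Lb.g g8 (@Lb.g g9 (@Lb.g g7 (@Lb.r r353 (@Lb.r r146 (@Lb.d (nat_lit 2) (nat_lit 0) (nat_lit 322) (@Lb.t (@Lb.fp (nat_lit 9) t311))))))))))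
noncomputable def l29229 : Lb := (@Lb.d (nat_lit 2) (nat_lit 514) (nat_lit 130) (@Lb.g g8 (@Lb.g g9 (@Lb.g g10 (@Lb.g g11 (@Lb.r r2691 (@Lb.r r353 (@Lb.r r146 (@Lb.d (nat_lit 2) (nat_lit 90) (nat_lit 681) (@Lb.fm (nat_lit 9) t311))))))))))
noncomputable def l29230 : Lb := (@Lb.d (nat_lit 0) (nat_lit 546) (nat_lit 582) (@Lb.g g9 (@Lb.g g10 (@Lb.g g7 (@Lb.r r1442 (@Lb.r r401 (@Lb.r r24 (@Lb.d (nat_lit 610) (nat_lit 82) (nat_lit 10) (@Lb.t (@Lb.fp (nat_lit 9) t4265))))))))))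
noncomputable def l29231 : Lb := (@Lb.g g9 (@Lb.r r134 (@Lb.r r328 (@Lb.r r535 (@Lb.r r289 (@Lb.d (nat_lit 5) (nat_lit 1) (nat_lit 0) (@Lb.t (@Lb.fp (nat_lit 3) t51))))))))
noncomputable def l29232 : Lb := (@Lb.d (nat_lit 4) (nat_lit 262) (nat_lit 0) (@Lb.g g5 (@Lb.d (nat_lit 549) (nat_lit 6) (nat_lit 81) (@Lb.t (@Lb.fm (nat_lit 3) t126)))))
noncomputable def l29233 : Lb := (@Lb.r r275 (@Lb.d (nat_lit 0) (nat_lit 5) (nat_lit 5) (@Lb.g g9 (@Lb.g g6 (@Lb.r r2659 (@Lb.r r2328 (@Lb.r r1637 (@Lb.d (nat_lit 24) (nat_lit 9) (nat_lit 385) (@Lb.fm (nat_lit 3) t3919)))))))))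
noncomputable def l29234 : Lb := (@Lb.d (nat_lit 0) (nat_lit 357) (nat_lit 584) (@Lb.r r101 (@Lb.r r24 (@Lb.r r323 (@Lb.g g7 (@Lb.g g6 (@Lb.d (nat_lit 0) (nat_lit 0) (nat_lit 64) (@Lb.fm (nat_lit 3) t1061))))))))
noncomputable def l29235 : Lb := (@Lb.r r82 (@Lb.d (nat_lit 73) (nat_lit 289) (nat_lit 64) (@Lb.g g8 (@Lb.g g9 (@Lb.g g11 (@Lb.r r1607 (@Lb.r r1450 (@Lb.r r2385 (@Lb.r r680 (@Lb.d (nat_lit 344) (nat_lit 144) (nat_lit 257) (@Lb.t (@Lb.fp (nat_lit 9) t4025))))))))))))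
noncomputable def l29236 : Lb := (@Lb.r r82 (@Lb.d (nat_lit 2) (nat_lit 546) (nat_lit 64) (@Lb.g g8 (@Lb.g g9 (@Lb.g g11 (@Lb.r r1697 (@Lb.r r1447 (@Lb.r r98 (@Lb.r r2584 (@Lb.d (nat_lit 104) (nat_lit 42) (nat_lit 400) (@Lb.t (@Lb.fm (nat_lit 9) t1095))))))))))))
noncomputable def l29237 : Lb := (@Lb.d (nat_lit 645) (nat_lit 262) (nat_lit 282) (@Lb.r r1301 (@Lb.r r2646 (@Lb.r r1707 (@Lb.g g7 (@Lb.g g6 (@Lb.g g5 (@Lb.g g4 (@Lb.d (nat_lit 8) (nat_lit 25) (nat_lit 133) (@Lb.fm (nat_lit 9) t309))))))))))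
noncomputable def l29238 : Lb := (@Lb.d (nat_lit 33) (nat_lit 514) (nat_lit 73) (@Lb.g g8 (@Lb.g g9 (@Lb.g g10 (@Lb.g g11 (@Lb.r r2690 (@Lb.r r2455 (@Lb.r r97 (@Lb.r r1560 (@Lb.d (nat_lit 616) (nat_lit 105) (nat_lit 657) (@Lb.fm (nat_lit 9) t1739)))))))))))
noncomputable def l29239 : Lb := (@Lb.r r82 (@Lb.d (nat_lit 2) (nat_lit 289) (nat_lit 64) (@Lb.g g8 (@Lb.g g9 (@Lb.g g11 (@Lb.r r2659 (@Lb.r r386 (@Lb.r r2472 (@Lb.r r2393 (@Lb.d (nat_lit 274) (nat_lit 132) (nat_lit 265) (@Lb.t (@Lb.fp (nat_lit 9) t1778))))))))))))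
noncomputable def l29240 : Lb := (@Lb.d (nat_lit 33) (nat_lit 258) (nat_lit 73) (@Lb.g g8 (@Lb.g g9 (@Lb.g g10 (@Lb.g g11 (@Lb.r r292 (@Lb.r r651 (@Lb.r r2658 (@Lb.r r2069 (@Lb.r r1060 (@Lb.d (nat_lit 353) (nat_lit 73) (nat_lit 552) (@Lb.fm (nat_lit 9) t5312))))))))))))
noncomputable def l29241 : Lb := (@Lb.d (nat_lit 38) (nat_lit 5) (nat_lit 74) (@Lb.g g8 (@Lb.g g9 (@Lb.g g10 (@Lb.g g11 (@Lb.r r2690 (@Lb.r r2455 (@Lb.r r97 (@Lb.r r1560 (@Lb.d (nat_lit 616) (nat_lit 105) (nat_lit 657) (@Lb.fm (nat_lit 9) t2179)))))))))))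
noncomputable def l29242 : Lb := (@Lb.d (nat_lit 2) (nat_lit 258) (nat_lit 66) (@Lb.g g8 (@Lb.g g9 (@Lb.g g10 (@Lb.g g11 (@Lb.r r2329 (@Lb.r r419 (@Lb.r r386 (@Lb.d (nat_lit 533) (nat_lit 170) (nat_lit 160) (@Lb.fm (nat_lit 9) t1961))))))))))
noncomputable def l29243 : Lb := (@Lb.d (nat_lit 2) (nat_lit 0) (nat_lit 1) (@Lb.r r1048 (@Lb.r r101 (@Lb.g g7 (@Lb.g g6 (@Lb.d (nat_lit 0) (nat_lit 4) (nat_lit 352) (@Lb.r r401 (@Lb.r r388 (@Lb.fm (nat_lit 3) t3018)))))))))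
noncomputable def l29244 : Lb := (@Lb.r r323 (@Lb.d (nat_lit 38) (nat_lit 517) (nat_lit 0) (@Lb.g g8 (@Lb.g g9 (@Lb.g g10 (@Lb.r r1319 (@Lb.r r610 (@Lb.r r105 (@Lb.r r1412 (@Lb.d (nat_lit 645) (nat_lit 80) (nat_lit 645) (@Lb.t (@Lb.fp (nat_lit 9) t888))))))))))))
noncomputable def l29245 : Lb := (@Lb.g g4 (@Lb.g g9 (@Lb.g g7 (@Lb.d (nat_lit 1) (nat_lit 512) (nat_lit 0) (@Lb.t (@Lb.fm (nat_lit 9) t2))))))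
noncomputable def l29246 : Lb := (@Lb.r r323 (@Lb.d (nat_lit 8) (nat_lit 2) (nat_lit 2) (@Lb.g g9 (@Lb.g g10 (@Lb.r r2467 (@Lb.r r2146 (@Lb.d (nat_lit 9) (nat_lit 72) (nat_lit 34) (@Lb.fm (nat_lit 3) t51))))))))
noncomputable def l29247 : Lb := (@Lb.r r323 (@Lb.d (nat_lit 9) (nat_lit 1) (nat_lit 2) (@Lb.g g8 (@Lb.g g9 (@Lb.g g10 (@Lb.r r102 (@Lb.r r404 (@Lb.r r683 (@Lb.r r673 (@Lb.d (nat_lit 10) (nat_lit 148) (nat_lit 136) (@Lb.t (@Lb.fm (nat_lit 9) t119))))))))))))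
noncomputable def l29248 : Lb := (@Lb.d (nat_lit 130) (nat_lit 258) (nat_lit 2) (@Lb.g g8 (@Lb.g g9 (@Lb.g g10 (@Lb.g g11 (@Lb.r r2658 (@Lb.r r1060 (@Lb.r r2661 (@Lb.r r675 (@Lb.d (nat_lit 408) (nat_lit 26) (nat_lit 322) (@Lb.fp (nat_lit 9) t2805)))))))))))
noncomputable def l29249 : Lb := (@Lb.d (nat_lit 33) (nat_lit 8) (nat_lit 136) (@Lb.g g8 (@Lb.g g9 (@Lb.g g11 (@Lb.r r2194 (@Lb.r r2133 (@Lb.r r2340 (@Lb.r r1291 (@Lb.d (nat_lit 5) (nat_lit 98) (nat_lit 532) (@Lb.t (@Lb.fp (nat_lit 9) t748)))))))))))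
noncomputable def l29250 : Lb := (@Lb.r r323 (@Lb.d (nat_lit 1) (nat_lit 2) (nat_lit 2) (@Lb.g g8 (@Lb.g g9 (@Lb.g g10 (@Lb.r r2632 (@Lb.r r2347 (@Lb.r r2465 (@Lb.r r2146 (@Lb.d (nat_lit 292) (nat_lit 168) (nat_lit 584) (@Lb.t (@Lb.fm (nat_lit 9) t4958))))))))))))
noncomputable def l29251 : Lb := (@Lb.r r323 (@Lb.d (nat_lit 33) (nat_lit 258) (nat_lit 2) (@Lb.g g8 (@Lb.g g9 (@Lb.g g10 (@Lb.r r1689 (@Lb.r r1563 (@Lb.r r1540 (@Lb.d (nat_lit 417) (nat_lit 0) (nat_lit 552) (@Lb.t (@Lb.fp (nat_lit 9) t123)))))))))))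
noncomputable def l29252 : Lb := (@Lb.d (nat_lit 2) (nat_lit 513) (nat_lit 0) (@Lb.r r1045 (@Lb.r r36 (@Lb.g g9 (@Lb.t (@Lb.fp (nat_lit 3) t2))))))
noncomputable def l29253 : Lb := (@Lb.d (nat_lit 130) (nat_lit 258) (nat_lit 2) (@Lb.g g8 (@Lb.g g9 (@Lb.g g10 (@Lb.g g11 (@Lb.r r1698 (@Lb.r r1415 (@Lb.r r1177 (@Lb.r r1156 (@Lb.d (nat_lit 601) (nat_lit 89) (nat_lit 166) (@Lb.fm (nat_lit 9) t773)))))))))))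
noncomputable def l29254 : Lb := (@Lb.r r82 (@Lb.d (nat_lit 129) (nat_lit 514) (nat_lit 128) (@Lb.g g8 (@Lb.g g9 (@Lb.g g11 (@Lb.r r291 (@Lb.r r1124 (@Lb.r r1626 (@Lb.r r2341 (@Lb.d (nat_lit 342) (nat_lit 168) (nat_lit 74) (@Lb.t (@Lb.fp (nat_lit 9) t4533))))))))))))
noncomputable def l29255 : Lb := (@Lb.d (nat_lit 2) (nat_lit 514) (nat_lit 130) (@Lb.g g8 (@Lb.g g9 (@Lb.g g10 (@Lb.g g11 (@Lb.r r1291 (@Lb.r r1685 (@Lb.r r2404 (@Lb.r r1610 (@Lb.d (nat_lit 609) (nat_lit 154) (nat_lit 137) (@Lb.fp (nat_lit 9) t2487)))))))))))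
noncomputable def l29256 : Lb := (@Lb.g g4 (@Lb.r r2311 (@Lb.d (nat_lit 257) (nat_lit 256) (nat_lit 0) (@Lb.t (@Lb.fm (nat_lit 3) t469)))))
noncomputable def l29257 : Lb := (@Lb.r r275 (@Lb.d (nat_lit 9) (nat_lit 1) (nat_lit 2) (@Lb.g g8 (@Lb.g g9 (@Lb.g g10 (@Lb.r r1707 (@Lb.r r386 (@Lb.r r609 (@Lb.r r24 (@Lb.d (nat_lit 266) (nat_lit 25) (nat_lit 261) (@Lb.t (@Lb.fm (nat_lit 9) t811))))))))))))
noncomputable def l29258 : Lb := (@Lb.d (nat_lit 322) (nat_lit 38) (nat_lit 129) (@Lb.r r289 (@Lb.r r535 (@Lb.r r328 (@Lb.r r2726 (@Lb.g g7 (@Lb.g g6 (@Lb.g g5 (@Lb.d (nat_lit 4) (nat_lit 6) (nat_lit 4) (@Lb.t (@Lb.fp (nat_lit 9) t5313)))))))))))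
noncomputable def l29259 : Lb := (@Lb.d (nat_lit 0) (nat_lit 513) (nat_lit 357) (@Lb.r r386 (@Lb.r r1619 (@Lb.g g6 (@Lb.g g5 (@Lb.g g8 (@Lb.d (nat_lit 0) (nat_lit 144) (nat_lit 1) (@Lb.r r291 (@Lb.t (@Lb.fm (nat_lit 9) t412))))))))))
noncomputable def l29260 : Lb := (@Lb.r r402 (@Lb.r r20 (@Lb.r r105 (@Lb.r r36 (@Lb.d (nat_lit 577) (nat_lit 256) (nat_lit 16) (@Lb.fp (nat_lit 1) t145))))))
noncomputable def l29261 : Lb := (@Lb.d (nat_lit 97) (nat_lit 297) (nat_lit 294) (@Lb.r r583 (@Lb.r r360 (@Lb.r r89 (@Lb.g g7 (@Lb.g g10 (@Lb.g g4 (@Lb.d (nat_lit 5) (nat_lit 24) (nat_lit 82) (@Lb.r r145 (@Lb.t (@Lb.fm (nat_lit 9) t1480)))))))))))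
noncomputable def l29262 : Lb := (@Lb.d (nat_lit 2) (nat_lit 38) (nat_lit 133) (@Lb.g g8 (@Lb.g g9 (@Lb.g g10 (@Lb.g g11 (@Lb.r r41 (@Lb.r r360 (@Lb.r r582 (@Lb.r r583 (@Lb.r r132 (@Lb.d (nat_lit 129) (nat_lit 10) (nat_lit 65) (@Lb.fm (nat_lit 9) t50))))))))))))
noncomputable def l29263 : Lb := (@Lb.d (nat_lit 513) (nat_lit 297) (nat_lit 664) (@Lb.r r97 (@Lb.r r331 (@Lb.r r264 (@Lb.g g7 (@Lb.g g10 (@Lb.g g5 (@Lb.d (nat_lit 80) (nat_lit 6) (nat_lit 64) (@Lb.t (@Lb.fm (nat_lit 9) t715))))))))))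
noncomputable def l29264 : Lb := (@Lb.d (nat_lit 8) (nat_lit 608) (nat_lit 0) (@Lb.g g8 (@Lb.g g5 (@Lb.r r322 (@Lb.r r1667 (@Lb.r r578 (@Lb.r r24 (@Lb.d (nat_lit 5) (nat_lit 2) (nat_lit 16) (@Lb.fp (nat_lit 3) t40)))))))))
noncomputable def l29265 : Lb := (@Lb.d (nat_lit 9) (nat_lit 514) (nat_lit 64) (@Lb.g g8 (@Lb.t (@Lb.fp (nat_lit 3) t2))))
noncomputable def l29266 : Lb := (@Lb.d (nat_lit 9) (nat_lit 352) (nat_lit 69) (@Lb.r r1543 (@Lb.r r2372 (@Lb.r r1690 (@Lb.g g6 (@Lb.g g9 (@Lb.g g4 (@Lb.d (nat_lit 1) (nat_lit 1) (nat_lit 1) (@Lb.r r291 (@Lb.t (@Lb.fm (nat_lit 9) t422)))))))))))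
noncomputable def l29267 : Lb := (@Lb.d (nat_lit 2) (nat_lit 265) (nat_lit 1) (@Lb.g g8 (@Lb.g g9 (@Lb.g g10 (@Lb.g g11 (@Lb.r r1706 (@Lb.r r648 (@Lb.r r1563 (@Lb.r r2337 (@Lb.r r36 (@Lb.d (nat_lit 641) (nat_lit 98) (nat_lit 64) (@Lb.fp (nat_lit 9) t98))))))))))))
noncomputable def l29268 : Lb := (@Lb.d (nat_lit 34) (nat_lit 258) (nat_lit 0) (@Lb.g g8 (@Lb.g g9 (@Lb.r r515 (@Lb.r r361 (@Lb.r r150 (@Lb.r r612 (@Lb.d (nat_lit 153) (nat_lit 21) (nat_lit 2) (@Lb.fp (nat_lit 3) t242)))))))))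
noncomputable def l29269 : Lb := (@Lb.d (nat_lit 136) (nat_lit 256) (nat_lit 64) (@Lb.g g8 (@Lb.g g11 (@Lb.r r661 (@Lb.r r1431 (@Lb.r r2178 (@Lb.r r2724 (@Lb.d (nat_lit 130) (nat_lit 84) (nat_lit 404) (@Lb.fp (nat_lit 3) t4749)))))))))
noncomputable def l29270 : Lb := (@Lb.d (nat_lit 128) (nat_lit 258) (nat_lit 64) (@Lb.g g8 (@Lb.g g9 (@Lb.g g11 (@Lb.r r597 (@Lb.r r1431 (@Lb.r r2178 (@Lb.r r2577 (@Lb.r r164 (@Lb.d (nat_lit 258) (nat_lit 4) (nat_lit 537) (@Lb.t (@Lb.fp (nat_lit 9) t5314))))))))))))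
noncomputable def l29271 : Lb := (@Lb.d (nat_lit 360) (nat_lit 293) (nat_lit 260) (@Lb.r r616 (@Lb.r r617 (@Lb.r r1387 (@Lb.g g10 (@Lb.g g5 (@Lb.g g4 (@Lb.d (nat_lit 70) (nat_lit 2) (nat_lit 17) (@Lb.t (@Lb.fm (nat_lit 9) t4749))))))))))
noncomputable def l29272 : Lb := (@Lb.d (nat_lit 0) (nat_lit 258) (nat_lit 130) (@Lb.g g9 (@Lb.g g10 (@Lb.g g11 (@Lb.r r1443 (@Lb.r r536 (@Lb.r r357 (@Lb.r r154 (@Lb.r r132 (@Lb.d (nat_lit 581) (nat_lit 1) (nat_lit 32) (@Lb.t (@Lb.fp (nat_lit 9) t222))))))))))))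
noncomputable def l29273 : Lb := (@Lb.d (nat_lit 37) (nat_lit 10) (nat_lit 72) (@Lb.g g8 (@Lb.g g9 (@Lb.g g10 (@Lb.g g11 (@Lb.r r1698 (@Lb.r r1415 (@Lb.r r2389 (@Lb.r r2660 (@Lb.d (nat_lit 132) (nat_lit 88) (nat_lit 409) (@Lb.fm (nat_lit 9) t3705)))))))))))
noncomputable def l29274 : Lb := (@Lb.d (nat_lit 0) (nat_lit 514) (nat_lit 73) (@Lb.g g9 (@Lb.g g10 (@Lb.g g11 (@Lb.r r610 (@Lb.r r579 (@Lb.r r97 (@Lb.r r36 (@Lb.d (nat_lit 10) (nat_lit 101) (nat_lit 84) (@Lb.t (@Lb.fm (nat_lit 9) t309)))))))))))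
noncomputable def l29275 : Lb := (@Lb.r r21 (@Lb.r r70 (@Lb.d (nat_lit 389) (nat_lit 0) (nat_lit 72) (@Lb.g g8 (@Lb.g g11 (@Lb.r r2454 (@Lb.r r579 (@Lb.r r25 (@Lb.d (nat_lit 289) (nat_lit 66) (nat_lit 34) (@Lb.fm (nat_lit 3) t2313))))))))))
noncomputable def l29276 : Lb := (@Lb.d (nat_lit 0) (nat_lit 0) (nat_lit 130) (@Lb.g g9 (@Lb.g g10 (@Lb.g g11 (@Lb.r r586 (@Lb.r r584 (@Lb.r r2715 (@Lb.r r1361 (@Lb.d (nat_lit 9) (nat_lit 40) (nat_lit 276) (@Lb.t (@Lb.fm (nat_lit 9) t51)))))))))))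
noncomputable def l29277 : Lb := (@Lb.r r346 (@Lb.d (nat_lit 4) (nat_lit 290) (nat_lit 128) (@Lb.g g8 (@Lb.g g9 (@Lb.g g11 (@Lb.r r2724 (@Lb.r r134 (@Lb.r r2641 (@Lb.d (nat_lit 2) (nat_lit 165) (nat_lit 38) (@Lb.t (@Lb.fp (nat_lit 9) t5315)))))))))))
noncomputable def l29278 : Lb := (@Lb.d (nat_lit 2) (nat_lit 258) (nat_lit 130) (@Lb.g g8 (@Lb.g g9 (@Lb.g g10 (@Lb.g g11 (@Lb.r r1443 (@Lb.r r40 (@Lb.r r425 (@Lb.r r98 (@Lb.r r2084 (@Lb.d (nat_lit 402) (nat_lit 88) (nat_lit 340) (@Lb.fp (nat_lit 9) t1231))))))))))))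
noncomputable def l29279 : Lb := (@Lb.d (nat_lit 4) (nat_lit 0) (nat_lit 130) (@Lb.g g8 (@Lb.g g9 (@Lb.g g10 (@Lb.g g11 (@Lb.r r1443 (@Lb.r r40 (@Lb.r r425 (@Lb.r r98 (@Lb.r r2084 (@Lb.d (nat_lit 402) (nat_lit 88) (nat_lit 340) (@Lb.fp (nat_lit 9) t1231))))))))))))
noncomputable def l29280 : Lb := (@Lb.r r21 (@Lb.d (nat_lit 10) (nat_lit 520) (nat_lit 130) (@Lb.g g8 (@Lb.g g10 (@Lb.g g11 (@Lb.r r427 (@Lb.r r533 (@Lb.r r360 (@Lb.r r390 (@Lb.d (nat_lit 105) (nat_lit 90) (nat_lit 258) (@Lb.t (@Lb.fm (nat_lit 9) t119))))))))))))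
noncomputable def l29281 : Lb := (@Lb.d (nat_lit 0) (nat_lit 9) (nat_lit 129) (@Lb.g g8 (@Lb.g g9 (@Lb.g g10 (@Lb.g g11 (@Lb.r r1443 (@Lb.r r678 (@Lb.r r1313 (@Lb.r r1608 (@Lb.d (nat_lit 586) (nat_lit 161) (nat_lit 74) (@Lb.fm (nat_lit 9) t5316)))))))))))
noncomputable def l29282 : Lb := (@Lb.d (nat_lit 656) (nat_lit 64) (nat_lit 84) (@Lb.r r2705 (@Lb.r r2650 (@Lb.r r1384 (@Lb.r r283 (@Lb.g g7 (@Lb.g g5 (@Lb.d (nat_lit 4) (nat_lit 1) (nat_lit 128) (@Lb.r r98 (@Lb.fp (nat_lit 3) t3144))))))))))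
noncomputable def l29283 : Lb := (@Lb.d (nat_lit 0) (nat_lit 258) (nat_lit 130) (@Lb.g g8 (@Lb.g g9 (@Lb.g g10 (@Lb.g g11 (@Lb.r r662 (@Lb.r r356 (@Lb.r r1323 (@Lb.r r1313 (@Lb.d (nat_lit 9) (nat_lit 66) (nat_lit 586) (@Lb.fp (nat_lit 9) t697)))))))))))
noncomputable def l29284 : Lb := (@Lb.d (nat_lit 4) (nat_lit 512) (nat_lit 130) (@Lb.g g8 (@Lb.g g9 (@Lb.g g10 (@Lb.g g11 (@Lb.r r582 (@Lb.r r388 (@Lb.r r1323 (@Lb.r r1433 (@Lb.d (nat_lit 272) (nat_lit 133) (nat_lit 274) (@Lb.fp (nat_lit 9) t1233)))))))))))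
noncomputable def l29285 : Lb := (@Lb.d (nat_lit 577) (nat_lit 25) (nat_lit 133) (@Lb.r r2465 (@Lb.r r595 (@Lb.r r2470 (@Lb.g g6 (@Lb.g g5 (@Lb.g g8 (@Lb.d (nat_lit 322) (nat_lit 17) (nat_lit 1) (@Lb.t (@Lb.fp (nat_lit 9) t1561))))))))))
noncomputable def l29286 : Lb := (@Lb.d (nat_lit 82) (nat_lit 73) (nat_lit 594) (@Lb.r r1284 (@Lb.r r1297 (@Lb.r r1315 (@Lb.r r405 (@Lb.g g7 (@Lb.g g10 (@Lb.g g5 (@Lb.g g4 (@Lb.d (nat_lit 1) (nat_lit 1) (nat_lit 22) (@Lb.fm (nat_lit 9) t5317)))))))))))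
noncomputable def l29287 : Lb := (@Lb.d (nat_lit 128) (nat_lit 272) (nat_lit 386) (@Lb.g g10 (@Lb.g g11 (@Lb.r r2709 (@Lb.r r2646 (@Lb.r r1416 (@Lb.d (nat_lit 514) (nat_lit 4) (nat_lit 128) (@Lb.fp (nat_lit 3) t528))))))))
noncomputable def l29288 : Lb := (@Lb.r r21 (@Lb.d (nat_lit 656) (nat_lit 0) (nat_lit 128) (@Lb.g g8 (@Lb.g g11 (@Lb.r r1354 (@Lb.r r391 (@Lb.r r25 (@Lb.d (nat_lit 34) (nat_lit 0) (nat_lit 594) (@Lb.fm (nat_lit 3) t164)))))))))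
noncomputable def l29289 : Lb := (@Lb.d (nat_lit 422) (nat_lit 340) (nat_lit 581) (@Lb.r r2644 (@Lb.r r535 (@Lb.r r345 (@Lb.g g10 (@Lb.g g4 (@Lb.d (nat_lit 68) (nat_lit 0) (nat_lit 18) (@Lb.r r387 (@Lb.r r145 (@Lb.fm (nat_lit 3) t1246))))))))))
noncomputable def l29290 : Lb := (@Lb.d (nat_lit 16) (nat_lit 537) (nat_lit 10) (@Lb.g g8 (@Lb.g g5 (@Lb.g g10 (@Lb.r r2587 (@Lb.r r644 (@Lb.r r1158 (@Lb.d (nat_lit 265) (nat_lit 152) (nat_lit 661) (@Lb.t (@Lb.fp (nat_lit 9) t5318))))))))))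
noncomputable def l29291 : Lb := (@Lb.d (nat_lit 554) (nat_lit 336) (nat_lit 2) (@Lb.r r1384 (@Lb.r r150 (@Lb.r r361 (@Lb.g g11 (@Lb.g g5 (@Lb.g g4 (@Lb.d (nat_lit 26) (nat_lit 0) (nat_lit 384) (@Lb.r r578 (@Lb.t (@Lb.fp (nat_lit 9) t5319)))))))))))
noncomputable def l29292 : Lb := (@Lb.d (nat_lit 278) (nat_lit 5) (nat_lit 66) (@Lb.r r1416 (@Lb.r r2710 (@Lb.r r1385 (@Lb.g g7 (@Lb.g g6 (@Lb.d (nat_lit 64) (nat_lit 32) (nat_lit 578) (@Lb.fp (nat_lit 3) t472))))))))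
noncomputable def l29293 : Lb := (@Lb.d (nat_lit 554) (nat_lit 80) (nat_lit 2) (@Lb.r r1384 (@Lb.r r150 (@Lb.r r361 (@Lb.g g11 (@Lb.g g5 (@Lb.g g4 (@Lb.d (nat_lit 16) (nat_lit 1) (nat_lit 384) (@Lb.r r578 (@Lb.t (@Lb.fp (nat_lit 9) t2017)))))))))))
noncomputable def l29294 : Lb := (@Lb.d (nat_lit 32) (nat_lit 513) (nat_lit 128) (@Lb.g g8 (@Lb.g g9 (@Lb.g g11 (@Lb.r r1430 (@Lb.r r1365 (@Lb.r r427 (@Lb.r r424 (@Lb.d (nat_lit 405) (nat_lit 38) (nat_lit 162) (@Lb.t (@Lb.fm (nat_lit 9) t4696)))))))))))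
noncomputable def l29295 : Lb := (@Lb.d (nat_lit 528) (nat_lit 1) (nat_lit 137) (@Lb.g g8 (@Lb.g g9 (@Lb.g g10 (@Lb.g g11 (@Lb.r r1667 (@Lb.r r1618 (@Lb.r r1061 (@Lb.d (nat_lit 616) (nat_lit 100) (nat_lit 137) (@Lb.fp (nat_lit 9) t5320))))))))))
noncomputable def l29296 : Lb := (@Lb.d (nat_lit 513) (nat_lit 10) (nat_lit 258) (@Lb.r r24 (@Lb.r r101 (@Lb.r r2642 (@Lb.r r2691 (@Lb.g g11 (@Lb.g g6 (@Lb.fm (nat_lit 3) t5321))))))))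
noncomputable def l29297 : Lb := (@Lb.r r85 (@Lb.r r327 (@Lb.d (nat_lit 10) (nat_lit 0) (nat_lit 40) (@Lb.g g8 (@Lb.g g10 (@Lb.r r1619 (@Lb.r r2581 (@Lb.r r552 (@Lb.d (nat_lit 329) (nat_lit 26) (nat_lit 321) (@Lb.fm (nat_lit 3) t5322))))))))))
noncomputable def l29298 : Lb := (@Lb.d (nat_lit 0) (nat_lit 514) (nat_lit 137) (@Lb.g g9 (@Lb.g g10 (@Lb.g g11 (@Lb.r r1685 (@Lb.r r659 (@Lb.r r578 (@Lb.r r36 (@Lb.d (nat_lit 321) (nat_lit 74) (nat_lit 649) (@Lb.t (@Lb.fp (nat_lit 9) t668)))))))))))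
noncomputable def l29299 : Lb := (@Lb.d (nat_lit 276) (nat_lit 96) (nat_lit 598) (@Lb.r r2456 (@Lb.r r2394 (@Lb.r r1169 (@Lb.r r679 (@Lb.g g7 (@Lb.g g6 (@Lb.g g4 (@Lb.d (nat_lit 5) (nat_lit 0) (nat_lit 129) (@Lb.t (@Lb.fp (nat_lit 9) t5323)))))))))))
noncomputable def l29300 : Lb := (@Lb.d (nat_lit 2) (nat_lit 289) (nat_lit 130) (@Lb.g g8 (@Lb.g g9 (@Lb.g g10 (@Lb.g g11 (@Lb.r r2722 (@Lb.r r2435 (@Lb.r r2201 (@Lb.r r24 (@Lb.d (nat_lit 88) (nat_lit 4) (nat_lit 426) (@Lb.fp (nat_lit 9) t2805)))))))))))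
noncomputable def l29301 : Lb := (@Lb.d (nat_lit 2) (nat_lit 521) (nat_lit 130) (@Lb.g g8 (@Lb.g g9 (@Lb.g g10 (@Lb.g g11 (@Lb.r r644 (@Lb.r r391 (@Lb.r r1430 (@Lb.r r2665 (@Lb.r r548 (@Lb.d (nat_lit 33) (nat_lit 0) (nat_lit 161) (@Lb.fp (nat_lit 9) t362))))))))))))
noncomputable def l29302 : Lb := (@Lb.d (nat_lit 17) (nat_lit 261) (nat_lit 130) (@Lb.r r1158 (@Lb.r r2132 (@Lb.r r425 (@Lb.g g11 (@Lb.g g6 (@Lb.g g5 (@Lb.g g4 (@Lb.d (nat_lit 6) (nat_lit 40) (nat_lit 389) (@Lb.fm (nat_lit 9) t2185))))))))))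
noncomputable def l29303 : Lb := (@Lb.r r81 (@Lb.d (nat_lit 129) (nat_lit 512) (nat_lit 98) (@Lb.g g8 (@Lb.g g10 (@Lb.g g11 (@Lb.r r1419 (@Lb.r r2212 (@Lb.r r37 (@Lb.d (nat_lit 0) (nat_lit 84) (nat_lit 133) (@Lb.t (@Lb.fp (nat_lit 9) t4197)))))))))))
noncomputable def l29304 : Lb := (@Lb.r r21 (@Lb.d (nat_lit 385) (nat_lit 520) (nat_lit 130) (@Lb.g g8 (@Lb.g g10 (@Lb.g g11 (@Lb.r r1419 (@Lb.r r101 (@Lb.r r410 (@Lb.d (nat_lit 2) (nat_lit 150) (nat_lit 649) (@Lb.t (@Lb.fm (nat_lit 9) t1606)))))))))))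
noncomputable def l29305 : Lb := (@Lb.d (nat_lit 146) (nat_lit 514) (nat_lit 73) (@Lb.g g8 (@Lb.g g9 (@Lb.g g10 (@Lb.g g11 (@Lb.r r2647 (@Lb.r r1637 (@Lb.r r2452 (@Lb.r r1110 (@Lb.d (nat_lit 342) (nat_lit 101) (nat_lit 34) (@Lb.fp (nat_lit 9) t5324)))))))))))
noncomputable def l29306 : Lb := (@Lb.d (nat_lit 146) (nat_lit 9) (nat_lit 130) (@Lb.g g8 (@Lb.g g9 (@Lb.g g10 (@Lb.g g11 (@Lb.r r1706 (@Lb.r r1411 (@Lb.r r2201 (@Lb.r r388 (@Lb.d (nat_lit 426) (nat_lit 73) (nat_lit 85) (@Lb.fm (nat_lit 9) t5325)))))))))))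
noncomputable def l29307 : Lb := (@Lb.d (nat_lit 96) (nat_lit 2) (nat_lit 4) (@Lb.g g8 (@Lb.g g9 (@Lb.g g10 (@Lb.g g11 (@Lb.r r610 (@Lb.r r1607 (@Lb.r r97 (@Lb.r r612 (@Lb.d (nat_lit 513) (nat_lit 72) (nat_lit 392) (@Lb.fp (nat_lit 9) t4561)))))))))))
noncomputable def l29308 : Lb := (@Lb.d (nat_lit 320) (nat_lit 617) (nat_lit 416) (@Lb.r r82 (@Lb.r r1429 (@Lb.r r2088 (@Lb.r r2595 (@Lb.g g7 (@Lb.g g6 (@Lb.g g5 (@Lb.d (nat_lit 0) (nat_lit 18) (nat_lit 129) (@Lb.t (@Lb.fp (nat_lit 9) t3610)))))))))))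
noncomputable def l29309 : Lb := (@Lb.d (nat_lit 2) (nat_lit 38) (nat_lit 5) (@Lb.g g8 (@Lb.g g9 (@Lb.g g10 (@Lb.g g11 (@Lb.r r2729 (@Lb.r r427 (@Lb.r r2468 (@Lb.r r2438 (@Lb.d (nat_lit 353) (nat_lit 10) (nat_lit 162) (@Lb.fp (nat_lit 9) t1244)))))))))))
noncomputable def l29310 : Lb := (@Lb.r r402 (@Lb.r r24 (@Lb.r r101 (@Lb.d (nat_lit 514) (nat_lit 401) (nat_lit 592) (@Lb.fm (nat_lit 1) t2096)))))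
noncomputable def l29311 : Lb := (@Lb.r r70 (@Lb.r r263 (@Lb.d (nat_lit 512) (nat_lit 10) (nat_lit 0) (@Lb.g g8 (@Lb.g g9 (@Lb.r r1387 (@Lb.r r594 (@Lb.r r1433 (@Lb.d (nat_lit 153) (nat_lit 2) (nat_lit 16) (@Lb.fm (nat_lit 3) t5326))))))))))
noncomputable def l29312 : Lb := (@Lb.d (nat_lit 10) (nat_lit 0) (nat_lit 0) (@Lb.g g8 (@Lb.r r2641 (@Lb.r r2651 (@Lb.r r358 (@Lb.r r2564 (@Lb.d (nat_lit 33) (nat_lit 5) (nat_lit 128) (@Lb.t (@Lb.fm (nat_lit 3) t1639)))))))))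
noncomputable def l29313 : Lb := (@Lb.d (nat_lit 2) (nat_lit 518) (nat_lit 0) (@Lb.g g8 (@Lb.g g9 (@Lb.g g10 (@Lb.r r675 (@Lb.r r2709 (@Lb.r r2404 (@Lb.r r1610 (@Lb.d (nat_lit 97) (nat_lit 5) (nat_lit 42) (@Lb.t (@Lb.fp (nat_lit 9) t3144)))))))))))
noncomputable def l29314 : Lb := (@Lb.r r24 (@Lb.r r101 (@Lb.d (nat_lit 282) (nat_lit 346) (nat_lit 282) (@Lb.fp (nat_lit 1) t1174))))
noncomputable def l29315 : Lb := (@Lb.d (nat_lit 162) (nat_lit 512) (nat_lit 0) (@Lb.g g4 (@Lb.r r427 (@Lb.r r1450 (@Lb.r r2473 (@Lb.r r404 (@Lb.d (nat_lit 96) (nat_lit 1) (nat_lit 553) (@Lb.t (@Lb.fm (nat_lit 3) t5327)))))))))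
noncomputable def l29316 : Lb := (@Lb.r r21 (@Lb.d (nat_lit 2) (nat_lit 520) (nat_lit 73) (@Lb.g g8 (@Lb.g g10 (@Lb.g g11 (@Lb.r r1451 (@Lb.r r2581 (@Lb.r r1384 (@Lb.r r150 (@Lb.d (nat_lit 32) (nat_lit 149) (nat_lit 536) (@Lb.t (@Lb.fm (nat_lit 9) t51))))))))))))
noncomputable def l29317 : Lb := (@Lb.r r2343 (@Lb.r r584 (@Lb.r r86 (@Lb.r r2201 (@Lb.r r132 (@Lb.d (nat_lit 282) (nat_lit 586) (nat_lit 37) (@Lb.fm (nat_lit 1) t4808)))))))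
noncomputable def l29318 : Lb := (@Lb.d (nat_lit 640) (nat_lit 277) (nat_lit 264) (@Lb.r r2343 (@Lb.r r676 (@Lb.r r150 (@Lb.r r2137 (@Lb.g g4 (@Lb.d (nat_lit 17) (nat_lit 0) (nat_lit 0) (@Lb.t (@Lb.fp (nat_lit 3) t5328)))))))))
noncomputable def l29319 : Lb := (@Lb.d (nat_lit 5) (nat_lit 324) (nat_lit 168) (@Lb.r r1185 (@Lb.r r594 (@Lb.r r2663 (@Lb.r r2308 (@Lb.g g7 (@Lb.g g5 (@Lb.d (nat_lit 4) (nat_lit 1) (nat_lit 64) (@Lb.fm (nat_lit 3) t1637)))))))))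
noncomputable def l29320 : Lb := (@Lb.d (nat_lit 640) (nat_lit 277) (nat_lit 297) (@Lb.r r2343 (@Lb.r r676 (@Lb.r r150 (@Lb.r r2137 (@Lb.g g4 (@Lb.d (nat_lit 22) (nat_lit 0) (nat_lit 0) (@Lb.t (@Lb.fp (nat_lit 3) t2838)))))))))
noncomputable def l29321 : Lb := (@Lb.d (nat_lit 641) (nat_lit 546) (nat_lit 0) (@Lb.g g4 (@Lb.g g9 (@Lb.r r275 (@Lb.r r2178 (@Lb.r r2593 (@Lb.d (nat_lit 1) (nat_lit 25) (nat_lit 2) (@Lb.fp (nat_lit 3) t1222))))))))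
noncomputable def l29322 : Lb := (@Lb.d (nat_lit 22) (nat_lit 33) (nat_lit 102) (@Lb.r r24 (@Lb.r r609 (@Lb.r r386 (@Lb.r r2603 (@Lb.g g7 (@Lb.g g6 (@Lb.g g5 (@Lb.d (nat_lit 0) (nat_lit 33) (nat_lit 65) (@Lb.t (@Lb.fp (nat_lit 9) t2230)))))))))))
noncomputable def l29323 : Lb := (@Lb.d (nat_lit 0) (nat_lit 288) (nat_lit 64) (@Lb.g g11 (@Lb.r r2401 (@Lb.r r659 (@Lb.r r2178 (@Lb.r r8 (@Lb.d (nat_lit 290) (nat_lit 170) (nat_lit 665) (@Lb.t (@Lb.fp (nat_lit 3) t3183)))))))))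
noncomputable def l29324 : Lb := (@Lb.d (nat_lit 1) (nat_lit 0) (nat_lit 128) (@Lb.g g8 (@Lb.g g11 (@Lb.r r337 (@Lb.r r1643 (@Lb.r r1610 (@Lb.r r1684 (@Lb.r r153 (@Lb.d (nat_lit 4) (nat_lit 166) (nat_lit 665) (@Lb.fp (nat_lit 3) t2243))))))))))
noncomputable def l29325 : Lb := (@Lb.d (nat_lit 33) (nat_lit 2) (nat_lit 73) (@Lb.g g8 (@Lb.g g9 (@Lb.g g10 (@Lb.g g11 (@Lb.r r676 (@Lb.r r263 (@Lb.r r2210 (@Lb.r r145 (@Lb.r r516 (@Lb.d (nat_lit 1) (nat_lit 66) (nat_lit 666) (@Lb.fm (nat_lit 9) t925))))))))))))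
noncomputable def l29326 : Lb := (@Lb.r r323 (@Lb.d (nat_lit 161) (nat_lit 514) (nat_lit 2) (@Lb.g g8 (@Lb.g g9 (@Lb.g g10 (@Lb.r r2722 (@Lb.r r2439 (@Lb.r r145 (@Lb.r r1636 (@Lb.d (nat_lit 666) (nat_lit 148) (nat_lit 665) (@Lb.t (@Lb.fp (nat_lit 9) t842))))))))))))
noncomputable def l29327 : Lb := (@Lb.d (nat_lit 1) (nat_lit 256) (nat_lit 128) (@Lb.g g8 (@Lb.g g11 (@Lb.r r337 (@Lb.r r1643 (@Lb.r r1610 (@Lb.r r1684 (@Lb.r r153 (@Lb.d (nat_lit 6) (nat_lit 166) (nat_lit 665) (@Lb.fp (nat_lit 3) t2243))))))))))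
noncomputable def l29328 : Lb := (@Lb.r r21 (@Lb.r r70 (@Lb.d (nat_lit 129) (nat_lit 32) (nat_lit 128) (@Lb.g g8 (@Lb.g g11 (@Lb.r r2341 (@Lb.r r531 (@Lb.r r2182 (@Lb.d (nat_lit 288) (nat_lit 36) (nat_lit 160) (@Lb.fp (nat_lit 3) t3112))))))))))
noncomputable def l29329 : Lb := (@Lb.d (nat_lit 0) (nat_lit 516) (nat_lit 408) (@Lb.r r2325 (@Lb.r r683 (@Lb.r r2666 (@Lb.r r1384 (@Lb.g g7 (@Lb.d (nat_lit 128) (nat_lit 0) (nat_lit 128) (@Lb.t (@Lb.fm (nat_lit 3) t3144)))))))))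
noncomputable def l29330 : Lb := (@Lb.d (nat_lit 401) (nat_lit 673) (nat_lit 5) (@Lb.r r24 (@Lb.r r593 (@Lb.r r1442 (@Lb.g g11 (@Lb.g g6 (@Lb.g g5 (@Lb.d (nat_lit 0) (nat_lit 17) (nat_lit 393) (@Lb.t (@Lb.fm (nat_lit 9) t200))))))))))
noncomputable def l29331 : Lb := (@Lb.d (nat_lit 0) (nat_lit 289) (nat_lit 0) (@Lb.g g8 (@Lb.g g9 (@Lb.r r292 (@Lb.r r1371 (@Lb.r r2178 (@Lb.r r2661 (@Lb.d (nat_lit 168) (nat_lit 85) (nat_lit 324) (@Lb.fm (nat_lit 3) t64)))))))))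
noncomputable def l29332 : Lb := (@Lb.r r21 (@Lb.d (nat_lit 646) (nat_lit 256) (nat_lit 0) (@Lb.g g8 (@Lb.r r25 (@Lb.d (nat_lit 320) (nat_lit 74) (nat_lit 2) (@Lb.t (@Lb.fp (nat_lit 3) t1632)))))))
noncomputable def l29333 : Lb := (@Lb.d (nat_lit 0) (nat_lit 33) (nat_lit 0) (@Lb.g g8 (@Lb.g g9 (@Lb.r r292 (@Lb.r r1371 (@Lb.r r2178 (@Lb.r r2661 (@Lb.d (nat_lit 168) (nat_lit 90) (nat_lit 325) (@Lb.fm (nat_lit 3) t64)))))))))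
noncomputable def l29334 : Lb := (@Lb.r r1287 (@Lb.r r1094 (@Lb.r r1045 (@Lb.r r8 (@Lb.d (nat_lit 10) (nat_lit 258) (nat_lit 0) (@Lb.fm (nat_lit 1) t284))))))
noncomputable def l29335 : Lb := (@Lb.d (nat_lit 128) (nat_lit 258) (nat_lit 10) (@Lb.g g8 (@Lb.g g9 (@Lb.g g10 (@Lb.r r263 (@Lb.r r405 (@Lb.r r612 (@Lb.r r602 (@Lb.d (nat_lit 105) (nat_lit 4) (nat_lit 129) (@Lb.t (@Lb.fm (nat_lit 9) t1087)))))))))))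
noncomputable def l29336 : Lb := (@Lb.d (nat_lit 65) (nat_lit 290) (nat_lit 66) (@Lb.g g8 (@Lb.g g9 (@Lb.g g10 (@Lb.g g11 (@Lb.r r1411 (@Lb.r r420 (@Lb.r r1173 (@Lb.r r2454 (@Lb.r r36 (@Lb.d (nat_lit 81) (nat_lit 98) (nat_lit 4) (@Lb.fm (nat_lit 9) t523))))))))))))
noncomputable def l29337 : Lb := (@Lb.d (nat_lit 136) (nat_lit 260) (nat_lit 576) (@Lb.r r2392 (@Lb.r r1685 (@Lb.r r1194 (@Lb.r r1699 (@Lb.g g6 (@Lb.g g5 (@Lb.g g4 (@Lb.d (nat_lit 65) (nat_lit 1) (nat_lit 1) (@Lb.t (@Lb.fm (nat_lit 9) t1265)))))))))))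
noncomputable def l29338 : Lb := (@Lb.d (nat_lit 613) (nat_lit 160) (nat_lit 37) (@Lb.r r1178 (@Lb.r r1156 (@Lb.r r539 (@Lb.r r2341 (@Lb.g g7 (@Lb.g g6 (@Lb.d (nat_lit 0) (nat_lit 0) (nat_lit 133) (@Lb.fp (nat_lit 3) t3081)))))))))
noncomputable def l29339 : Lb := (@Lb.d (nat_lit 4) (nat_lit 256) (nat_lit 73) (@Lb.g g8 (@Lb.g g9 (@Lb.g g10 (@Lb.g g11 (@Lb.r r610 (@Lb.r r579 (@Lb.r r1129 (@Lb.r r36 (@Lb.d (nat_lit 152) (nat_lit 2) (nat_lit 324) (@Lb.fp (nat_lit 9) t61)))))))))))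
noncomputable def l29340 : Lb := (@Lb.d (nat_lit 8) (nat_lit 34) (nat_lit 0) (@Lb.g g9 (@Lb.r r536 (@Lb.r r2715 (@Lb.r r2178 (@Lb.r r2469 (@Lb.d (nat_lit 72) (nat_lit 97) (nat_lit 681) (@Lb.t (@Lb.fp (nat_lit 3) t64)))))))))
noncomputable def l29341 : Lb := (@Lb.r r21 (@Lb.d (nat_lit 2) (nat_lit 0) (nat_lit 66) (@Lb.g g8 (@Lb.g g10 (@Lb.g g7 (@Lb.r r386 (@Lb.r r149 (@Lb.r r72 (@Lb.d (nat_lit 17) (nat_lit 0) (nat_lit 8) (@Lb.t (@Lb.fp (nat_lit 9) t40)))))))))))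
noncomputable def l29342 : Lb := (@Lb.d (nat_lit 145) (nat_lit 512) (nat_lit 6) (@Lb.r r24 (@Lb.r r101 (@Lb.r r386 (@Lb.r r339 (@Lb.g g7 (@Lb.g g6 (@Lb.g g4 (@Lb.d (nat_lit 1) (nat_lit 0) (nat_lit 8) (@Lb.t (@Lb.fm (nat_lit 9) t686)))))))))))
noncomputable def l29343 : Lb := (@Lb.d (nat_lit 129) (nat_lit 258) (nat_lit 130) (@Lb.g g8 (@Lb.g g9 (@Lb.g g10 (@Lb.g g11 (@Lb.r r1706 (@Lb.r r1411 (@Lb.r r1177 (@Lb.r r1156 (@Lb.d (nat_lit 290) (nat_lit 90) (nat_lit 665) (@Lb.fm (nat_lit 9) t773)))))))))))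
noncomputable def l29344 : Lb := (@Lb.r r322 (@Lb.d (nat_lit 129) (nat_lit 545) (nat_lit 260) (@Lb.g g8 (@Lb.g g9 (@Lb.g g7 (@Lb.r r418 (@Lb.r r1365 (@Lb.r r2120 (@Lb.d (nat_lit 577) (nat_lit 169) (nat_lit 41) (@Lb.t (@Lb.fp (nat_lit 9) t5329)))))))))))
noncomputable def l29345 : Lb := (@Lb.r r331 (@Lb.d (nat_lit 42) (nat_lit 257) (nat_lit 1) (@Lb.g g8 (@Lb.g g9 (@Lb.g g10 (@Lb.r r682 (@Lb.r r1411 (@Lb.r r537 (@Lb.r r532 (@Lb.d (nat_lit 132) (nat_lit 96) (nat_lit 384) (@Lb.t (@Lb.fp (nat_lit 9) t482))))))))))))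
noncomputable def l29346 : Lb := (@Lb.d (nat_lit 137) (nat_lit 256) (nat_lit 0) (@Lb.g g8 (@Lb.r r551 (@Lb.r r2178 (@Lb.r r1557 (@Lb.r r1444 (@Lb.d (nat_lit 361) (nat_lit 166) (nat_lit 272) (@Lb.t (@Lb.fp (nat_lit 3) t1540)))))))))
noncomputable def l29347 : Lb := (@Lb.d (nat_lit 32) (nat_lit 256) (nat_lit 2) (@Lb.g g10 (@Lb.r r1348 (@Lb.r r2459 (@Lb.r r613 (@Lb.r r410 (@Lb.d (nat_lit 266) (nat_lit 89) (nat_lit 665) (@Lb.t (@Lb.fp (nat_lit 3) t698)))))))))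
noncomputable def l29348 : Lb := (@Lb.d (nat_lit 64) (nat_lit 289) (nat_lit 645) (@Lb.r r402 (@Lb.r r2567 (@Lb.g g7 (@Lb.g g8 (@Lb.d (nat_lit 9) (nat_lit 0) (nat_lit 64) (@Lb.fp (nat_lit 3) t5330)))))))
noncomputable def l29349 : Lb := (@Lb.g g10 (@Lb.r r579 (@Lb.r r402 (@Lb.r r2145 (@Lb.r r36 (@Lb.t (@Lb.p (nat_lit 1) (@Lb.fm (nat_lit 3) t940))))))))
noncomputable def l29350 : Lb := (@Lb.d (nat_lit 130) (nat_lit 34) (nat_lit 2) (@Lb.g g8 (@Lb.g g9 (@Lb.g g10 (@Lb.r r599 (@Lb.r r98 (@Lb.r r408 (@Lb.r r101 (@Lb.d (nat_lit 21) (nat_lit 68) (nat_lit 529) (@Lb.t (@Lb.fp (nat_lit 9) t4056)))))))))))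
noncomputable def l29351 : Lb := (@Lb.d (nat_lit 2) (nat_lit 512) (nat_lit 128) (@Lb.g g8 (@Lb.g g11 (@Lb.r r2731 (@Lb.r r81 (@Lb.r r162 (@Lb.r r145 (@Lb.r r2648 (@Lb.d (nat_lit 617) (nat_lit 37) (nat_lit 425) (@Lb.fp (nat_lit 3) t1855))))))))))
noncomputable def l29352 : Lb := (@Lb.d (nat_lit 8) (nat_lit 2) (nat_lit 2) (@Lb.g g9 (@Lb.g g10 (@Lb.r r614 (@Lb.r r2631 (@Lb.r r24 (@Lb.r r1317 (@Lb.d (nat_lit 325) (nat_lit 33) (nat_lit 384) (@Lb.fp (nat_lit 3) t1089)))))))))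
noncomputable def l29353 : Lb := (@Lb.r r533 (@Lb.r r136 (@Lb.r r2714 (@Lb.r r1691 (@Lb.r r1668 (@Lb.d (nat_lit 576) (nat_lit 512) (nat_lit 528) (@Lb.fm (nat_lit 1) t2238)))))))
noncomputable def l29354 : Lb := (@Lb.r r275 (@Lb.d (nat_lit 0) (nat_lit 517) (nat_lit 1) (@Lb.g g9 (@Lb.g g6 (@Lb.r r1411 (@Lb.r r1697 (@Lb.d (nat_lit 0) (nat_lit 154) (nat_lit 282) (@Lb.fm (nat_lit 3) t1219))))))))
noncomputable def l29355 : Lb := (@Lb.d (nat_lit 137) (nat_lit 0) (nat_lit 0) (@Lb.g g8 (@Lb.r r1621 (@Lb.r r2391 (@Lb.r r2178 (@Lb.r r1544 (@Lb.d (nat_lit 585) (nat_lit 66) (nat_lit 533) (@Lb.t (@Lb.fp (nat_lit 3) t1624)))))))))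
noncomputable def l29356 : Lb := (@Lb.d (nat_lit 8) (nat_lit 257) (nat_lit 130) (@Lb.g g8 (@Lb.g g9 (@Lb.g g10 (@Lb.g g11 (@Lb.r r1443 (@Lb.r r1414 (@Lb.r r1313 (@Lb.r r2648 (@Lb.d (nat_lit 613) (nat_lit 150) (nat_lit 585) (@Lb.fm (nat_lit 9) t3611)))))))))))
noncomputable def l29357 : Lb := (@Lb.d (nat_lit 9) (nat_lit 513) (nat_lit 162) (@Lb.g g8 (@Lb.g g9 (@Lb.g g6 (@Lb.g g11 (@Lb.r r2667 (@Lb.r r97 (@Lb.r r2584 (@Lb.d (nat_lit 90) (nat_lit 164) (nat_lit 416) (@Lb.fp (nat_lit 9) t777))))))))))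
noncomputable def l29358 : Lb := (@Lb.d (nat_lit 0) (nat_lit 2) (nat_lit 73) (@Lb.g g9 (@Lb.g g10 (@Lb.g g11 (@Lb.r r2691 (@Lb.r r2665 (@Lb.r r1686 (@Lb.r r1096 (@Lb.d (nat_lit 672) (nat_lit 160) (nat_lit 89) (@Lb.t (@Lb.fm (nat_lit 9) t807)))))))))))
noncomputable def l29359 : Lb := (@Lb.r r358 (@Lb.d (nat_lit 134) (nat_lit 529) (nat_lit 384) (@Lb.g g8 (@Lb.g g9 (@Lb.g g7 (@Lb.r r1418 (@Lb.r r1321 (@Lb.r r2180 (@Lb.d (nat_lit 534) (nat_lit 42) (nat_lit 325) (@Lb.t (@Lb.fp (nat_lit 9) t1161)))))))))))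
noncomputable def l29360 : Lb := (@Lb.d (nat_lit 134) (nat_lit 514) (nat_lit 130) (@Lb.g g8 (@Lb.g g9 (@Lb.g g10 (@Lb.g g11 (@Lb.r r1707 (@Lb.r r1610 (@Lb.r r552 (@Lb.r r2089 (@Lb.r r1060 (@Lb.d (nat_lit 98) (nat_lit 169) (nat_lit 401) (@Lb.fm (nat_lit 9) t175))))))))))))
noncomputable def l29361 : Lb := (@Lb.d (nat_lit 2) (nat_lit 550) (nat_lit 74) (@Lb.g g8 (@Lb.g g9 (@Lb.g g10 (@Lb.g g11 (@Lb.r r545 (@Lb.r r1315 (@Lb.r r1178 (@Lb.r r2436 (@Lb.d (nat_lit 425) (nat_lit 81) (nat_lit 154) (@Lb.fp (nat_lit 9) t5331)))))))))))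
noncomputable def l29362 : Lb := (@Lb.d (nat_lit 21) (nat_lit 256) (nat_lit 0) (@Lb.g g8 (@Lb.g g9 (@Lb.g g10 (@Lb.r r2729 (@Lb.r r2411 (@Lb.r r1410 (@Lb.r r676 (@Lb.d (nat_lit 282) (nat_lit 24) (nat_lit 662) (@Lb.t (@Lb.fm (nat_lit 9) t1399)))))))))))
noncomputable def l29363 : Lb := (@Lb.d (nat_lit 33) (nat_lit 262) (nat_lit 2) (@Lb.g g8 (@Lb.g g9 (@Lb.g g10 (@Lb.g g11 (@Lb.r r1667 (@Lb.r r353 (@Lb.r r1178 (@Lb.r r388 (@Lb.d (nat_lit 38) (nat_lit 97) (nat_lit 586) (@Lb.fm (nat_lit 9) t68)))))))))))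
noncomputable def l29364 : Lb := (@Lb.d (nat_lit 33) (nat_lit 262) (nat_lit 73) (@Lb.g g8 (@Lb.g g9 (@Lb.g g10 (@Lb.g g11 (@Lb.r r1667 (@Lb.r r353 (@Lb.r r1178 (@Lb.r r388 (@Lb.d (nat_lit 33) (nat_lit 96) (nat_lit 586) (@Lb.fm (nat_lit 9) t68)))))))))))
noncomputable def l29365 : Lb := (@Lb.d (nat_lit 512) (nat_lit 256) (nat_lit 384) (@Lb.r r1048 (@Lb.r r97 (@Lb.r r402 (@Lb.g g11 (@Lb.g g8 (@Lb.r r74 (@Lb.r r25 (@Lb.fp (nat_lit 3) t150)))))))))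
noncomputable def l29366 : Lb := (@Lb.r r1094 (@Lb.r r1045 (@Lb.r r8 (@Lb.d (nat_lit 96) (nat_lit 0) (nat_lit 528) (@Lb.fm (nat_lit 1) t49)))))
noncomputable def l29367 : Lb := (@Lb.d (nat_lit 6) (nat_lit 256) (nat_lit 0) (@Lb.g g4 (@Lb.r r101 (@Lb.r r402 (@Lb.d (nat_lit 1) (nat_lit 0) (nat_lit 154) (@Lb.t (@Lb.fm (nat_lit 3) t590)))))))
noncomputable def l29368 : Lb := (@Lb.d (nat_lit 2) (nat_lit 2) (nat_lit 73) (@Lb.g g8 (@Lb.g g9 (@Lb.g g10 (@Lb.g g11 (@Lb.r r427 (@Lb.r r356 (@Lb.r r154 (@Lb.r r1109 (@Lb.r r2212 (@Lb.d (nat_lit 554) (nat_lit 9) (nat_lit 137) (@Lb.fm (nat_lit 9) t4205))))))))))))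
noncomputable def l29369 : Lb := (@Lb.d (nat_lit 2) (nat_lit 2) (nat_lit 64) (@Lb.g g8 (@Lb.g g9 (@Lb.g g11 (@Lb.r r343 (@Lb.r r2178 (@Lb.r r2649 (@Lb.d (nat_lit 361) (nat_lit 40) (nat_lit 138) (@Lb.t (@Lb.fp (nat_lit 9) t2751))))))))))
noncomputable def l29370 : Lb := (@Lb.r r81 (@Lb.r r323 (@Lb.d (nat_lit 130) (nat_lit 0) (nat_lit 2) (@Lb.g g8 (@Lb.g g10 (@Lb.r r583 (@Lb.r r2081 (@Lb.r r2312 (@Lb.d (nat_lit 674) (nat_lit 0) (nat_lit 641) (@Lb.fp (nat_lit 3) t1470))))))))))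
noncomputable def l29371 : Lb := (@Lb.r r82 (@Lb.d (nat_lit 8) (nat_lit 522) (nat_lit 64) (@Lb.g g9 (@Lb.g g11 (@Lb.r r2343 (@Lb.r r2650 (@Lb.r r2648 (@Lb.r r1365 (@Lb.d (nat_lit 358) (nat_lit 88) (nat_lit 664) (@Lb.fp (nat_lit 3) t1781))))))))))
noncomputable def l29372 : Lb := (@Lb.r r82 (@Lb.d (nat_lit 34) (nat_lit 522) (nat_lit 128) (@Lb.g g8 (@Lb.g g9 (@Lb.g g11 (@Lb.r r427 (@Lb.r r582 (@Lb.r r2456 (@Lb.r r1125 (@Lb.d (nat_lit 533) (nat_lit 105) (nat_lit 65) (@Lb.t (@Lb.fm (nat_lit 9) t5332))))))))))))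
noncomputable def l29373 : Lb := (@Lb.d (nat_lit 2) (nat_lit 544) (nat_lit 129) (@Lb.g g8 (@Lb.g g10 (@Lb.g g11 (@Lb.r r586 (@Lb.r r600 (@Lb.r r293 (@Lb.r r2587 (@Lb.d (nat_lit 649) (nat_lit 41) (nat_lit 86) (@Lb.t (@Lb.fp (nat_lit 9) t1612)))))))))))
noncomputable def l29374 : Lb := (@Lb.d (nat_lit 2) (nat_lit 146) (nat_lit 389) (@Lb.r r579 (@Lb.r r1362 (@Lb.g g7 (@Lb.g g6 (@Lb.g g5 (@Lb.g g8 (@Lb.d (nat_lit 9) (nat_lit 128) (nat_lit 65) (@Lb.fp (nat_lit 9) t360)))))))))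
noncomputable def l29375 : Lb := (@Lb.r r263 (@Lb.d (nat_lit 0) (nat_lit 258) (nat_lit 2) (@Lb.g g8 (@Lb.g g9 (@Lb.g g10 (@Lb.r r1706 (@Lb.r r1451 (@Lb.r r97 (@Lb.r r388 (@Lb.d (nat_lit 0) (nat_lit 150) (nat_lit 392) (@Lb.t (@Lb.fm (nat_lit 9) t5333))))))))))))
noncomputable def l29376 : Lb := (@Lb.d (nat_lit 0) (nat_lit 256) (nat_lit 2) (@Lb.g g10 (@Lb.r r2129 (@Lb.r r98 (@Lb.d (nat_lit 290) (nat_lit 137) (nat_lit 2) (@Lb.t (@Lb.fp (nat_lit 3) t761)))))))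
noncomputable def l29377 : Lb := (@Lb.d (nat_lit 33) (nat_lit 4) (nat_lit 130) (@Lb.g g8 (@Lb.g g9 (@Lb.g g6 (@Lb.g g11 (@Lb.r r612 (@Lb.r r263 (@Lb.r r97 (@Lb.r r516 (@Lb.d (nat_lit 2) (nat_lit 34) (nat_lit 129) (@Lb.fp (nat_lit 9) t594)))))))))))
noncomputable def l29378 : Lb := (@Lb.d (nat_lit 2) (nat_lit 514) (nat_lit 66) (@Lb.g g8 (@Lb.g g9 (@Lb.g g10 (@Lb.g g7 (@Lb.r r1442 (@Lb.r r145 (@Lb.r r2120 (@Lb.d (nat_lit 610) (nat_lit 169) (nat_lit 33) (@Lb.fm (nat_lit 9) t5077))))))))))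
noncomputable def l29379 : Lb := (@Lb.d (nat_lit 424) (nat_lit 265) (nat_lit 406) (@Lb.r r169 (@Lb.r r100 (@Lb.r r386 (@Lb.g g11 (@Lb.g g6 (@Lb.g g5 (@Lb.d (nat_lit 4) (nat_lit 0) (nat_lit 129) (@Lb.t (@Lb.fm (nat_lit 9) t2407))))))))))
noncomputable def l29380 : Lb := (@Lb.d (nat_lit 2) (nat_lit 37) (nat_lit 352) (@Lb.r r593 (@Lb.r r134 (@Lb.r r531 (@Lb.g g5 (@Lb.g g8 (@Lb.d (nat_lit 550) (nat_lit 18) (nat_lit 0) (@Lb.fp (nat_lit 3) t2403))))))))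
noncomputable def l29381 : Lb := (@Lb.r r20 (@Lb.r r82 (@Lb.r r275 (@Lb.d (nat_lit 4) (nat_lit 673) (nat_lit 0) (@Lb.g g5 (@Lb.r r1304 (@Lb.r r2631 (@Lb.r r98 (@Lb.d (nat_lit 357) (nat_lit 129) (nat_lit 256) (@Lb.t (@Lb.fm (nat_lit 3) t1622)))))))))))
noncomputable def l29382 : Lb := (@Lb.d (nat_lit 162) (nat_lit 2) (nat_lit 129) (@Lb.g g8 (@Lb.g g9 (@Lb.g g10 (@Lb.g g11 (@Lb.r r1675 (@Lb.r r613 (@Lb.r r666 (@Lb.r r1352 (@Lb.d (nat_lit 404) (nat_lit 81) (nat_lit 640) (@Lb.fp (nat_lit 9) t270)))))))))))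
noncomputable def l29383 : Lb := (@Lb.d (nat_lit 152) (nat_lit 513) (nat_lit 128) (@Lb.g g8 (@Lb.g g9 (@Lb.g g10 (@Lb.g g11 (@Lb.r r683 (@Lb.r r2410 (@Lb.r r548 (@Lb.r r37 (@Lb.d (nat_lit 357) (nat_lit 32) (nat_lit 149) (@Lb.fp (nat_lit 9) t2188)))))))))))
noncomputable def l29384 : Lb := (@Lb.d (nat_lit 256) (nat_lit 266) (nat_lit 138) (@Lb.r r21 (@Lb.r r100 (@Lb.r r386 (@Lb.r r1435 (@Lb.g g7 (@Lb.g g6 (@Lb.g g5 (@Lb.d (nat_lit 0) (nat_lit 1) (nat_lit 1) (@Lb.t (@Lb.fm (nat_lit 9) t5334)))))))))))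
noncomputable def l29385 : Lb := (@Lb.d (nat_lit 146) (nat_lit 514) (nat_lit 5) (@Lb.g g8 (@Lb.g g9 (@Lb.g g10 (@Lb.g g11 (@Lb.r r1675 (@Lb.r r36 (@Lb.r r1381 (@Lb.r r2202 (@Lb.r r1156 (@Lb.d (nat_lit 393) (nat_lit 129) (nat_lit 618) (@Lb.fm (nat_lit 9) t264))))))))))))
noncomputable def l29386 : Lb := (@Lb.d (nat_lit 534) (nat_lit 513) (nat_lit 86) (@Lb.r r20 (@Lb.r r2153 (@Lb.r r386 (@Lb.g g11 (@Lb.g g6 (@Lb.g g5 (@Lb.g g4 (@Lb.d (nat_lit 1) (nat_lit 8) (nat_lit 128) (@Lb.fm (nat_lit 9) t51))))))))))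
noncomputable def l29387 : Lb := (@Lb.d (nat_lit 2) (nat_lit 258) (nat_lit 128) (@Lb.g g8 (@Lb.g g9 (@Lb.g g10 (@Lb.g g11 (@Lb.r r643 (@Lb.r r618 (@Lb.r r97 (@Lb.r r24 (@Lb.d (nat_lit 38) (nat_lit 8) (nat_lit 70) (@Lb.fm (nat_lit 9) t312)))))))))))
noncomputable def l29388 : Lb := (@Lb.r r273 (@Lb.d (nat_lit 8) (nat_lit 32) (nat_lit 386) (@Lb.g g8 (@Lb.g g10 (@Lb.g g11 (@Lb.r r1642 (@Lb.r r149 (@Lb.r r2408 (@Lb.d (nat_lit 42) (nat_lit 33) (nat_lit 356) (@Lb.t (@Lb.fp (nat_lit 9) t827)))))))))))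
noncomputable def l29389 : Lb := (@Lb.r r82 (@Lb.r r275 (@Lb.d (nat_lit 32) (nat_lit 130) (nat_lit 0) (@Lb.g g8 (@Lb.g g9 (@Lb.r r1619 (@Lb.r r150 (@Lb.r r84 (@Lb.d (nat_lit 533) (nat_lit 138) (nat_lit 0) (@Lb.fm (nat_lit 3) t685))))))))))
noncomputable def l29390 : Lb := (@Lb.d (nat_lit 132) (nat_lit 390) (nat_lit 614) (@Lb.r r1114 (@Lb.r r2644 (@Lb.r r1367 (@Lb.g g7 (@Lb.g g6 (@Lb.g g5 (@Lb.g g4 (@Lb.d (nat_lit 97) (nat_lit 129) (nat_lit 64) (@Lb.fp (nat_lit 9) t5306))))))))))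
noncomputable def l29391 : Lb := (@Lb.d (nat_lit 0) (nat_lit 2) (nat_lit 130) (@Lb.g g8 (@Lb.g g9 (@Lb.g g10 (@Lb.g g11 (@Lb.r r427 (@Lb.r r424 (@Lb.r r106 (@Lb.r r25 (@Lb.d (nat_lit 584) (nat_lit 4) (nat_lit 545) (@Lb.fm (nat_lit 9) t2258)))))))))))
noncomputable def l29392 : Lb := (@Lb.d (nat_lit 2) (nat_lit 0) (nat_lit 2) (@Lb.g g8 (@Lb.g g10 (@Lb.r r273 (@Lb.r r2595 (@Lb.r r2122 (@Lb.r r529 (@Lb.r r2120 (@Lb.d (nat_lit 32) (nat_lit 0) (nat_lit 70) (@Lb.fm (nat_lit 3) t282))))))))))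
noncomputable def l29393 : Lb := (@Lb.r r20 (@Lb.d (nat_lit 0) (nat_lit 33) (nat_lit 66) (@Lb.g g9 (@Lb.g g10 (@Lb.g g11 (@Lb.r r1451 (@Lb.r r98 (@Lb.d (nat_lit 402) (nat_lit 72) (nat_lit 425) (@Lb.t (@Lb.fm (nat_lit 9) t1117))))))))))
noncomputable def l29394 : Lb := (@Lb.d (nat_lit 0) (nat_lit 2) (nat_lit 0) (@Lb.g g9 (@Lb.g g7 (@Lb.r r2068 (@Lb.r r25 (@Lb.d (nat_lit 521) (nat_lit 64) (nat_lit 0) (@Lb.fp (nat_lit 3) t2)))))))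
noncomputable def l29395 : Lb := (@Lb.d (nat_lit 132) (nat_lit 513) (nat_lit 136) (@Lb.g g5 (@Lb.g g11 (@Lb.r r388 (@Lb.r r390 (@Lb.r r1355 (@Lb.d (nat_lit 34) (nat_lit 0) (nat_lit 148) (@Lb.fm (nat_lit 3) t322))))))))
noncomputable def l29396 : Lb := (@Lb.r r70 (@Lb.r r263 (@Lb.d (nat_lit 0) (nat_lit 322) (nat_lit 0) (@Lb.g g8 (@Lb.g g9 (@Lb.r r2347 (@Lb.r r2154 (@Lb.r r2084 (@Lb.d (nat_lit 10) (nat_lit 65) (nat_lit 0) (@Lb.fm (nat_lit 3) t350))))))))))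
noncomputable def l29397 : Lb := (@Lb.d (nat_lit 534) (nat_lit 161) (nat_lit 598) (@Lb.r r1300 (@Lb.r r1641 (@Lb.r r386 (@Lb.g g11 (@Lb.g g6 (@Lb.g g5 (@Lb.g g4 (@Lb.d (nat_lit 8) (nat_lit 0) (nat_lit 1) (@Lb.fm (nat_lit 9) t475))))))))))
noncomputable def l29398 : Lb := (@Lb.d (nat_lit 132) (nat_lit 257) (nat_lit 136) (@Lb.g g5 (@Lb.g g11 (@Lb.r r388 (@Lb.r r390 (@Lb.r r1355 (@Lb.d (nat_lit 32) (nat_lit 0) (nat_lit 148) (@Lb.fm (nat_lit 3) t322))))))))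
noncomputable def l29399 : Lb := (@Lb.d (nat_lit 618) (nat_lit 165) (nat_lit 581) (@Lb.r r1432 (@Lb.r r1434 (@Lb.r r359 (@Lb.g g9 (@Lb.g g4 (@Lb.d (nat_lit 1) (nat_lit 10) (nat_lit 0) (@Lb.fp (nat_lit 3) t2014))))))))
noncomputable def l29400 : Lb := (@Lb.d (nat_lit 160) (nat_lit 514) (nat_lit 0) (@Lb.g g8 (@Lb.g g9 (@Lb.g g11 (@Lb.r r662 (@Lb.r r2455 (@Lb.r r97 (@Lb.r r280 (@Lb.d (nat_lit 137) (nat_lit 25) (nat_lit 294) (@Lb.t (@Lb.fp (nat_lit 9) t1126)))))))))))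
noncomputable def l29401 : Lb := (@Lb.d (nat_lit 0) (nat_lit 128) (nat_lit 384) (@Lb.r r1121 (@Lb.r r2454 (@Lb.r r2632 (@Lb.g g11 (@Lb.t (@Lb.fm (nat_lit 3) t162)))))))
noncomputable def l29402 : Lb := (@Lb.d (nat_lit 2) (nat_lit 2) (nat_lit 66) (@Lb.g g8 (@Lb.g g9 (@Lb.g g10 (@Lb.g g11 (@Lb.r r648 (@Lb.r r1563 (@Lb.r r2453 (@Lb.r r2134 (@Lb.r r1188 (@Lb.d (nat_lit 552) (nat_lit 2) (nat_lit 361) (@Lb.fp (nat_lit 9) t1025))))))))))))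
noncomputable def l29403 : Lb := (@Lb.d (nat_lit 2) (nat_lit 256) (nat_lit 65) (@Lb.g g8 (@Lb.g g9 (@Lb.g g10 (@Lb.g g11 (@Lb.r r583 (@Lb.r r2154 (@Lb.r r1633 (@Lb.r r24 (@Lb.d (nat_lit 72) (nat_lit 16) (nat_lit 128) (@Lb.fm (nat_lit 9) t5335)))))))))))
noncomputable def l29404 : Lb := (@Lb.d (nat_lit 513) (nat_lit 146) (nat_lit 320) (@Lb.r r264 (@Lb.r r2130 (@Lb.r r1559 (@Lb.g g7 (@Lb.g g5 (@Lb.g g4 (@Lb.d (nat_lit 69) (nat_lit 130) (nat_lit 64) (@Lb.r r74 (@Lb.t (@Lb.fp (nat_lit 9) t4618)))))))))))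
noncomputable def l29405 : Lb := (@Lb.r r82 (@Lb.d (nat_lit 6) (nat_lit 1) (nat_lit 0) (@Lb.g g4 (@Lb.g g9 (@Lb.r r2122 (@Lb.r r1065 (@Lb.d (nat_lit 266) (nat_lit 64) (nat_lit 0) (@Lb.fm (nat_lit 3) t1602))))))))
noncomputable def l29406 : Lb := (@Lb.d (nat_lit 128) (nat_lit 0) (nat_lit 128) (@Lb.g g8 (@Lb.g g11 (@Lb.r r1543 (@Lb.r r2630 (@Lb.r r280 (@Lb.r r2085 (@Lb.d (nat_lit 5) (nat_lit 64) (nat_lit 640) (@Lb.fp (nat_lit 3) t898)))))))))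
noncomputable def l29407 : Lb := (@Lb.d (nat_lit 10) (nat_lit 514) (nat_lit 130) (@Lb.g g8 (@Lb.g g9 (@Lb.g g10 (@Lb.g g11 (@Lb.r r2658 (@Lb.r r1607 (@Lb.r r292 (@Lb.r r1045 (@Lb.r r1060 (@Lb.d (nat_lit 521) (nat_lit 161) (nat_lit 640) (@Lb.fm (nat_lit 9) t2815))))))))))))
noncomputable def l29408 : Lb := (@Lb.d (nat_lit 2) (nat_lit 258) (nat_lit 66) (@Lb.g g8 (@Lb.g g9 (@Lb.g g10 (@Lb.g g11 (@Lb.r r1602 (@Lb.r r2647 (@Lb.r r2457 (@Lb.r r2436 (@Lb.d (nat_lit 617) (nat_lit 0) (nat_lit 649) (@Lb.fm (nat_lit 9) t2211)))))))))))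
noncomputable def l29409 : Lb := (@Lb.d (nat_lit 2) (nat_lit 258) (nat_lit 130) (@Lb.g g8 (@Lb.g g9 (@Lb.g g10 (@Lb.g g11 (@Lb.r r648 (@Lb.r r1563 (@Lb.r r2453 (@Lb.r r2134 (@Lb.r r1188 (@Lb.d (nat_lit 545) (nat_lit 0) (nat_lit 361) (@Lb.fp (nat_lit 9) t1025))))))))))))
noncomputable def l29410 : Lb := (@Lb.d (nat_lit 390) (nat_lit 544) (nat_lit 0) (@Lb.r r548 (@Lb.r r533 (@Lb.r r1299 (@Lb.g g5 (@Lb.g g4 (@Lb.d (nat_lit 70) (nat_lit 2) (nat_lit 0) (@Lb.fm (nat_lit 3) t5336))))))))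
noncomputable def l29411 : Lb := (@Lb.d (nat_lit 2) (nat_lit 514) (nat_lit 66) (@Lb.g g8 (@Lb.g g9 (@Lb.g g10 (@Lb.g g11 (@Lb.r r1602 (@Lb.r r2647 (@Lb.r r2457 (@Lb.r r2436 (@Lb.d (nat_lit 617) (nat_lit 136) (nat_lit 648) (@Lb.fm (nat_lit 9) t2211)))))))))))
noncomputable def l29412 : Lb := (@Lb.r r70 (@Lb.r r263 (@Lb.d (nat_lit 0) (nat_lit 258) (nat_lit 0) (@Lb.g g8 (@Lb.g g9 (@Lb.r r299 (@Lb.r r106 (@Lb.r r97 (@Lb.r r148 (@Lb.d (nat_lit 294) (nat_lit 5) (nat_lit 33) (@Lb.fp (nat_lit 3) t2453)))))))))))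
noncomputable def l29413 : Lb := (@Lb.d (nat_lit 578) (nat_lit 5) (nat_lit 74) (@Lb.r r2698 (@Lb.r r2475 (@Lb.r r1365 (@Lb.g g7 (@Lb.g g6 (@Lb.g g4 (@Lb.d (nat_lit 257) (nat_lit 8) (nat_lit 65) (@Lb.r r25 (@Lb.t (@Lb.fm (nat_lit 9) t988)))))))))))
noncomputable def l29414 : Lb := (@Lb.d (nat_lit 33) (nat_lit 518) (nat_lit 128) (@Lb.g g8 (@Lb.g g9 (@Lb.g g10 (@Lb.g g11 (@Lb.r r1699 (@Lb.r r41 (@Lb.r r2408 (@Lb.r r2630 (@Lb.d (nat_lit 257) (nat_lit 9) (nat_lit 289) (@Lb.fm (nat_lit 9) t1915)))))))))))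
noncomputable def l29415 : Lb := (@Lb.r r70 (@Lb.d (nat_lit 0) (nat_lit 1) (nat_lit 128) (@Lb.g g8 (@Lb.g g9 (@Lb.g g11 (@Lb.r r1705 (@Lb.r r363 (@Lb.r r1410 (@Lb.r r1700 (@Lb.d (nat_lit 537) (nat_lit 21) (nat_lit 298) (@Lb.t (@Lb.fm (nat_lit 9) t2004))))))))))))
noncomputable def l29416 : Lb := (@Lb.r r323 (@Lb.d (nat_lit 0) (nat_lit 518) (nat_lit 0) (@Lb.g g9 (@Lb.g g10 (@Lb.r r2201 (@Lb.r r1690 (@Lb.r r387 (@Lb.r r2564 (@Lb.d (nat_lit 393) (nat_lit 144) (nat_lit 576) (@Lb.fp (nat_lit 3) t3113))))))))))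
noncomputable def l29417 : Lb := (@Lb.r r21 (@Lb.d (nat_lit 130) (nat_lit 512) (nat_lit 66) (@Lb.g g8 (@Lb.g g10 (@Lb.g g11 (@Lb.r r395 (@Lb.r r2122 (@Lb.r r25 (@Lb.d (nat_lit 289) (nat_lit 0) (nat_lit 409) (@Lb.t (@Lb.fm (nat_lit 9) t5337)))))))))))
noncomputable def l29418 : Lb := (@Lb.d (nat_lit 65) (nat_lit 69) (nat_lit 66) (@Lb.r r264 (@Lb.r r82 (@Lb.r r599 (@Lb.g g5 (@Lb.g g4 (@Lb.d (nat_lit 66) (nat_lit 9) (nat_lit 0) (@Lb.r r291 (@Lb.r r98 (@Lb.fm (nat_lit 3) t892))))))))))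
noncomputable def l29419 : Lb := (@Lb.d (nat_lit 0) (nat_lit 261) (nat_lit 0) (@Lb.g g5 (@Lb.d (nat_lit 294) (nat_lit 6) (nat_lit 33) (@Lb.t (@Lb.fm (nat_lit 3) t743)))))
noncomputable def l29420 : Lb := (@Lb.d (nat_lit 136) (nat_lit 522) (nat_lit 64) (@Lb.g g9 (@Lb.g g11 (@Lb.r r152 (@Lb.r r1690 (@Lb.r r1411 (@Lb.r r2325 (@Lb.d (nat_lit 68) (nat_lit 148) (nat_lit 90) (@Lb.fm (nat_lit 3) t322)))))))))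
noncomputable def l29421 : Lb := (@Lb.d (nat_lit 9) (nat_lit 257) (nat_lit 0) (@Lb.g g8 (@Lb.g g9 (@Lb.r r25 (@Lb.d (nat_lit 9) (nat_lit 0) (nat_lit 0) (@Lb.fm (nat_lit 3) t2))))))
noncomputable def l29422 : Lb := (@Lb.d (nat_lit 0) (nat_lit 517) (nat_lit 0) (@Lb.g g5 (@Lb.d (nat_lit 294) (nat_lit 1) (nat_lit 32) (@Lb.t (@Lb.fm (nat_lit 3) t743)))))
noncomputable def l29423 : Lb := (@Lb.r r283 (@Lb.d (nat_lit 8) (nat_lit 257) (nat_lit 2) (@Lb.g g8 (@Lb.g g9 (@Lb.g g10 (@Lb.r r2643 (@Lb.r r90 (@Lb.r r1129 (@Lb.r r1300 (@Lb.d (nat_lit 600) (nat_lit 38) (nat_lit 405) (@Lb.t (@Lb.fm (nat_lit 9) t344))))))))))))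
noncomputable def l29424 : Lb := (@Lb.d (nat_lit 297) (nat_lit 8) (nat_lit 18) (@Lb.r r597 (@Lb.r r279 (@Lb.r r584 (@Lb.g g6 (@Lb.g g5 (@Lb.d (nat_lit 20) (nat_lit 1) (nat_lit 1) (@Lb.r r387 (@Lb.fp (nat_lit 3) t694)))))))))
noncomputable def l29425 : Lb := (@Lb.d (nat_lit 65) (nat_lit 581) (nat_lit 9) (@Lb.r r264 (@Lb.r r82 (@Lb.r r599 (@Lb.g g5 (@Lb.g g4 (@Lb.d (nat_lit 65) (nat_lit 9) (nat_lit 0) (@Lb.r r291 (@Lb.r r98 (@Lb.fm (nat_lit 3) t892))))))))))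
noncomputable def l29426 : Lb := (@Lb.d (nat_lit 9) (nat_lit 2) (nat_lit 9) (@Lb.g g8 (@Lb.g g9 (@Lb.g g10 (@Lb.g g11 (@Lb.r r273 (@Lb.r r1707 (@Lb.r r1610 (@Lb.r r2600 (@Lb.r r153 (@Lb.d (nat_lit 5) (nat_lit 90) (nat_lit 297) (@Lb.fp (nat_lit 9) t591))))))))))))
noncomputable def l29427 : Lb := (@Lb.r r21 (@Lb.r r326 (@Lb.d (nat_lit 530) (nat_lit 256) (nat_lit 512) (@Lb.g g8 (@Lb.g g7 (@Lb.r r586 (@Lb.r r25 (@Lb.d (nat_lit 354) (nat_lit 0) (nat_lit 394) (@Lb.fp (nat_lit 3) t164)))))))))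
noncomputable def l29428 : Lb := (@Lb.d (nat_lit 9) (nat_lit 289) (nat_lit 66) (@Lb.g g8 (@Lb.g g9 (@Lb.g g10 (@Lb.g g11 (@Lb.r r2721 (@Lb.r r1447 (@Lb.r r386 (@Lb.r r24 (@Lb.d (nat_lit 148) (nat_lit 145) (nat_lit 577) (@Lb.fm (nat_lit 9) t1937)))))))))))
noncomputable def l29429 : Lb := (@Lb.d (nat_lit 154) (nat_lit 2) (nat_lit 130) (@Lb.g g8 (@Lb.g g9 (@Lb.g g10 (@Lb.g g11 (@Lb.r r404 (@Lb.r r1563 (@Lb.r r2453 (@Lb.r r2390 (@Lb.r r676 (@Lb.d (nat_lit 97) (nat_lit 64) (nat_lit 297) (@Lb.fm (nat_lit 9) t1129))))))))))))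
noncomputable def l29430 : Lb := (@Lb.d (nat_lit 401) (nat_lit 0) (nat_lit 580) (@Lb.r r1611 (@Lb.r r1560 (@Lb.r r101 (@Lb.g g7 (@Lb.g g10 (@Lb.g g5 (@Lb.d (nat_lit 0) (nat_lit 8) (nat_lit 150) (@Lb.r r132 (@Lb.t (@Lb.fp (nat_lit 9) t4)))))))))))
noncomputable def l29431 : Lb := (@Lb.r r21 (@Lb.d (nat_lit 128) (nat_lit 0) (nat_lit 129) (@Lb.g g8 (@Lb.g g10 (@Lb.g g11 (@Lb.r r2180 (@Lb.r r2694 (@Lb.r r391 (@Lb.r r25 (@Lb.d (nat_lit 98) (nat_lit 0) (nat_lit 338) (@Lb.t (@Lb.fp (nat_lit 9) t164))))))))))))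
noncomputable def l29432 : Lb := (@Lb.d (nat_lit 0) (nat_lit 258) (nat_lit 130) (@Lb.g g9 (@Lb.g g10 (@Lb.g g11 (@Lb.r r1096 (@Lb.r r2214 (@Lb.r r2469 (@Lb.r r1307 (@Lb.d (nat_lit 642) (nat_lit 80) (nat_lit 134) (@Lb.t (@Lb.fp (nat_lit 9) t4514)))))))))))
noncomputable def l29433 : Lb := (@Lb.d (nat_lit 9) (nat_lit 290) (nat_lit 129) (@Lb.g g8 (@Lb.g g9 (@Lb.g g10 (@Lb.g g11 (@Lb.r r2201 (@Lb.r r2706 (@Lb.r r403 (@Lb.r r24 (@Lb.d (nat_lit 68) (nat_lit 9) (nat_lit 338) (@Lb.fp (nat_lit 9) t164)))))))))))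
noncomputable def l29434 : Lb := (@Lb.d (nat_lit 2) (nat_lit 265) (nat_lit 72) (@Lb.g g8 (@Lb.g g9 (@Lb.g g10 (@Lb.g g11 (@Lb.r r2705 (@Lb.r r535 (@Lb.r r2440 (@Lb.r r2458 (@Lb.d (nat_lit 404) (nat_lit 37) (nat_lit 68) (@Lb.fm (nat_lit 9) t1313)))))))))))
noncomputable def l29435 : Lb := (@Lb.r r21 (@Lb.d (nat_lit 145) (nat_lit 512) (nat_lit 66) (@Lb.g g8 (@Lb.g g10 (@Lb.g g11 (@Lb.r r2691 (@Lb.r r1414 (@Lb.r r1621 (@Lb.r r2440 (@Lb.d (nat_lit 386) (nat_lit 0) (nat_lit 105) (@Lb.t (@Lb.fp (nat_lit 9) t164))))))))))))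
noncomputable def l29436 : Lb := (@Lb.d (nat_lit 32) (nat_lit 520) (nat_lit 129) (@Lb.g g10 (@Lb.g g11 (@Lb.r r1687 (@Lb.r r2408 (@Lb.r r1385 (@Lb.r r598 (@Lb.d (nat_lit 150) (nat_lit 38) (nat_lit 330) (@Lb.fp (nat_lit 3) t322)))))))))
noncomputable def l29437 : Lb := (@Lb.d (nat_lit 401) (nat_lit 161) (nat_lit 5) (@Lb.r r24 (@Lb.r r593 (@Lb.r r1442 (@Lb.g g11 (@Lb.g g6 (@Lb.g g5 (@Lb.d (nat_lit 0) (nat_lit 24) (nat_lit 392) (@Lb.t (@Lb.fm (nat_lit 9) t2693))))))))))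
noncomputable def l29438 : Lb := (@Lb.d (nat_lit 4) (nat_lit 512) (nat_lit 72) (@Lb.g g8 (@Lb.g g9 (@Lb.g g11 (@Lb.r r1410 (@Lb.r r579 (@Lb.r r1129 (@Lb.d (nat_lit 2) (nat_lit 138) (nat_lit 33) (@Lb.t (@Lb.fp (nat_lit 9) t743))))))))))
noncomputable def l29439 : Lb := (@Lb.r r21 (@Lb.d (nat_lit 64) (nat_lit 512) (nat_lit 2) (@Lb.g g8 (@Lb.g g10 (@Lb.g g11 (@Lb.r r2587 (@Lb.r r386 (@Lb.r r97 (@Lb.r r2376 (@Lb.d (nat_lit 416) (nat_lit 90) (nat_lit 416) (@Lb.t (@Lb.fm (nat_lit 9) t509))))))))))))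
noncomputable def l29440 : Lb := (@Lb.r r21 (@Lb.d (nat_lit 33) (nat_lit 0) (nat_lit 72) (@Lb.g g8 (@Lb.g g10 (@Lb.g g11 (@Lb.r r1691 (@Lb.r r340 (@Lb.r r1641 (@Lb.r r2710 (@Lb.d (nat_lit 360) (nat_lit 145) (nat_lit 356) (@Lb.t (@Lb.fp (nat_lit 9) t3049))))))))))))
noncomputable def l29441 : Lb := (@Lb.r r322 (@Lb.d (nat_lit 0) (nat_lit 545) (nat_lit 516) (@Lb.g g8 (@Lb.g g9 (@Lb.g g7 (@Lb.r r418 (@Lb.r r2088 (@Lb.r r2201 (@Lb.d (nat_lit 592) (nat_lit 132) (nat_lit 593) (@Lb.t (@Lb.fp (nat_lit 9) t605)))))))))))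
noncomputable def l29442 : Lb := (@Lb.r r323 (@Lb.d (nat_lit 128) (nat_lit 513) (nat_lit 2) (@Lb.g g8 (@Lb.g g9 (@Lb.g g10 (@Lb.r r362 (@Lb.r r361 (@Lb.r r1431 (@Lb.r r2632 (@Lb.d (nat_lit 362) (nat_lit 70) (nat_lit 640) (@Lb.t (@Lb.fm (nat_lit 9) t71))))))))))))
noncomputable def l29443 : Lb := (@Lb.d (nat_lit 2) (nat_lit 514) (nat_lit 73) (@Lb.g g8 (@Lb.g g9 (@Lb.g g10 (@Lb.g g11 (@Lb.r r2666 (@Lb.r r579 (@Lb.r r104 (@Lb.r r25 (@Lb.d (nat_lit 402) (nat_lit 5) (nat_lit 357) (@Lb.fp (nat_lit 9) t61)))))))))))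
noncomputable def l29444 : Lb := (@Lb.r r21 (@Lb.d (nat_lit 2) (nat_lit 0) (nat_lit 73) (@Lb.g g8 (@Lb.g g10 (@Lb.g g11 (@Lb.r r2634 (@Lb.r r579 (@Lb.r r97 (@Lb.r r72 (@Lb.d (nat_lit 134) (nat_lit 8) (nat_lit 325) (@Lb.t (@Lb.fp (nat_lit 9) t61))))))))))))
noncomputable def l29445 : Lb := (@Lb.d (nat_lit 5) (nat_lit 10) (nat_lit 9) (@Lb.g g4 (@Lb.g g9 (@Lb.g g10 (@Lb.g g11 (@Lb.r r2694 (@Lb.r r2451 (@Lb.r r1553 (@Lb.d (nat_lit 324) (nat_lit 42) (nat_lit 642) (@Lb.fp (nat_lit 9) t50))))))))))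
noncomputable def l29446 : Lb := (@Lb.r r355 (@Lb.d (nat_lit 5) (nat_lit 9) (nat_lit 2) (@Lb.g g4 (@Lb.g g9 (@Lb.g g10 (@Lb.r r679 (@Lb.r r610 (@Lb.r r601 (@Lb.d (nat_lit 150) (nat_lit 42) (nat_lit 138) (@Lb.t (@Lb.fm (nat_lit 9) t175)))))))))))
noncomputable def l29447 : Lb := (@Lb.r r338 (@Lb.d (nat_lit 128) (nat_lit 168) (nat_lit 128) (@Lb.g g9 (@Lb.g g11 (@Lb.r r356 (@Lb.r r2650 (@Lb.r r331 (@Lb.d (nat_lit 298) (nat_lit 1) (nat_lit 518) (@Lb.fm (nat_lit 3) t2557)))))))))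
noncomputable def l29448 : Lb := (@Lb.r r82 (@Lb.d (nat_lit 134) (nat_lit 554) (nat_lit 0) (@Lb.g g8 (@Lb.g g5 (@Lb.r r423 (@Lb.r r386 (@Lb.r r152 (@Lb.d (nat_lit 73) (nat_lit 160) (nat_lit 324) (@Lb.fp (nat_lit 3) t152)))))))))
noncomputable def l29449 : Lb := (@Lb.r r323 (@Lb.d (nat_lit 129) (nat_lit 514) (nat_lit 24) (@Lb.g g8 (@Lb.g g9 (@Lb.g g10 (@Lb.r r1623 (@Lb.r r2345 (@Lb.r r2340 (@Lb.d (nat_lit 585) (nat_lit 98) (nat_lit 658) (@Lb.t (@Lb.fm (nat_lit 9) t386)))))))))))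
noncomputable def l29450 : Lb := (@Lb.d (nat_lit 154) (nat_lit 384) (nat_lit 96) (@Lb.r r24 (@Lb.r r402 (@Lb.r r101 (@Lb.g g7 (@Lb.d (nat_lit 0) (nat_lit 0) (nat_lit 68) (@Lb.t (@Lb.fp (nat_lit 3) t494))))))))
noncomputable def l29451 : Lb := (@Lb.d (nat_lit 137) (nat_lit 513) (nat_lit 0) (@Lb.g g8 (@Lb.g g9 (@Lb.r r343 (@Lb.r r162 (@Lb.r r145 (@Lb.r r612 (@Lb.d (nat_lit 154) (nat_lit 21) (nat_lit 137) (@Lb.fp (nat_lit 3) t51)))))))))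
noncomputable def l29452 : Lb := (@Lb.d (nat_lit 10) (nat_lit 513) (nat_lit 0) (@Lb.g g8 (@Lb.g g9 (@Lb.r r1579 (@Lb.r r162 (@Lb.r r145 (@Lb.r r1608 (@Lb.d (nat_lit 98) (nat_lit 10) (nat_lit 665) (@Lb.fp (nat_lit 3) t1082)))))))))
noncomputable def l29453 : Lb := (@Lb.d (nat_lit 145) (nat_lit 86) (nat_lit 25) (@Lb.r r1092 (@Lb.r r330 (@Lb.r r407 (@Lb.r r2585 (@Lb.g g7 (@Lb.g g5 (@Lb.g g4 (@Lb.d (nat_lit 18) (nat_lit 1) (nat_lit 64) (@Lb.t (@Lb.fp (nat_lit 9) t5338)))))))))))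
noncomputable def l29454 : Lb := (@Lb.r r82 (@Lb.d (nat_lit 0) (nat_lit 514) (nat_lit 128) (@Lb.g g9 (@Lb.g g11 (@Lb.r r338 (@Lb.r r387 (@Lb.r r609 (@Lb.d (nat_lit 5) (nat_lit 37) (nat_lit 132) (@Lb.fp (nat_lit 3) t579)))))))))
noncomputable def l29455 : Lb := (@Lb.d (nat_lit 9) (nat_lit 294) (nat_lit 64) (@Lb.g g8 (@Lb.g g9 (@Lb.g g10 (@Lb.g g11 (@Lb.r r1451 (@Lb.r r578 (@Lb.r r1433 (@Lb.d (nat_lit 664) (nat_lit 4) (nat_lit 617) (@Lb.fp (nat_lit 9) t925))))))))))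
noncomputable def l29456 : Lb := (@Lb.d (nat_lit 2) (nat_lit 38) (nat_lit 64) (@Lb.g g8 (@Lb.g g9 (@Lb.g g10 (@Lb.g g11 (@Lb.r r1699 (@Lb.r r386 (@Lb.r r612 (@Lb.r r533 (@Lb.r r1060 (@Lb.d (nat_lit 42) (nat_lit 9) (nat_lit 361) (@Lb.fp (nat_lit 9) t1876))))))))))))
noncomputable def l29457 : Lb := (@Lb.r r82 (@Lb.d (nat_lit 2) (nat_lit 608) (nat_lit 0) (@Lb.g g8 (@Lb.g g5 (@Lb.r r98 (@Lb.r r24 (@Lb.d (nat_lit 10) (nat_lit 144) (nat_lit 0) (@Lb.fm (nat_lit 3) t2691))))))))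
noncomputable def l29458 : Lb := (@Lb.d (nat_lit 0) (nat_lit 550) (nat_lit 64) (@Lb.g g9 (@Lb.g g10 (@Lb.g g11 (@Lb.r r1699 (@Lb.r r386 (@Lb.r r1561 (@Lb.r r24 (@Lb.d (nat_lit 16) (nat_lit 0) (nat_lit 361) (@Lb.t (@Lb.fp (nat_lit 9) t860)))))))))))
noncomputable def l29459 : Lb := (@Lb.d (nat_lit 2) (nat_lit 514) (nat_lit 2) (@Lb.g g8 (@Lb.g g9 (@Lb.g g10 (@Lb.r r2411 (@Lb.r r386 (@Lb.r r97 (@Lb.r r24 (@Lb.d (nat_lit 257) (nat_lit 73) (nat_lit 100) (@Lb.t (@Lb.fp (nat_lit 9) t741)))))))))))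
noncomputable def l29460 : Lb := (@Lb.d (nat_lit 2) (nat_lit 353) (nat_lit 340) (@Lb.r r24 (@Lb.r r1313 (@Lb.r r1442 (@Lb.r r2691 (@Lb.g g7 (@Lb.g g6 (@Lb.g g5 (@Lb.d (nat_lit 0) (nat_lit 8) (nat_lit 133) (@Lb.t (@Lb.fp (nat_lit 9) t925)))))))))))
noncomputable def l29461 : Lb := (@Lb.d (nat_lit 21) (nat_lit 0) (nat_lit 128) (@Lb.g g8 (@Lb.g g9 (@Lb.g g10 (@Lb.g g11 (@Lb.r r2729 (@Lb.r r2475 (@Lb.r r2468 (@Lb.r r2182 (@Lb.d (nat_lit 550) (nat_lit 106) (nat_lit 165) (@Lb.fp (nat_lit 9) t5339)))))))))))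
noncomputable def l29462 : Lb := (@Lb.d (nat_lit 8) (nat_lit 514) (nat_lit 130) (@Lb.g g9 (@Lb.g g10 (@Lb.g g11 (@Lb.r r586 (@Lb.r r584 (@Lb.r r299 (@Lb.r r289 (@Lb.d (nat_lit 10) (nat_lit 137) (nat_lit 2) (@Lb.t (@Lb.fm (nat_lit 9) t51)))))))))))
noncomputable def l29463 : Lb := (@Lb.g g6 (@Lb.r r1427 (@Lb.r r101 (@Lb.r r24 (@Lb.d (nat_lit 66) (nat_lit 10) (nat_lit 530) (@Lb.t (@Lb.fm (nat_lit 3) t335)))))))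
noncomputable def l29464 : Lb := (@Lb.d (nat_lit 614) (nat_lit 357) (nat_lit 138) (@Lb.r r2394 (@Lb.r r2132 (@Lb.r r2345 (@Lb.r r2707 (@Lb.g g7 (@Lb.g g6 (@Lb.g g4 (@Lb.d (nat_lit 2) (nat_lit 4) (nat_lit 134) (@Lb.t (@Lb.fp (nat_lit 9) t1470)))))))))))
noncomputable def l29465 : Lb := (@Lb.d (nat_lit 0) (nat_lit 552) (nat_lit 641) (@Lb.g g10 (@Lb.g g11 (@Lb.r r2129 (@Lb.r r98 (@Lb.d (nat_lit 0) (nat_lit 137) (nat_lit 1) (@Lb.fm (nat_lit 3) t392)))))))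
noncomputable def l29466 : Lb := (@Lb.d (nat_lit 0) (nat_lit 8) (nat_lit 1) (@Lb.g g10 (@Lb.r r2129 (@Lb.r r98 (@Lb.d (nat_lit 0) (nat_lit 130) (nat_lit 0) (@Lb.t (@Lb.fp (nat_lit 3) t1746)))))))
noncomputable def l29467 : Lb := (@Lb.d (nat_lit 512) (nat_lit 512) (nat_lit 16) (@Lb.r r101 (@Lb.g g6 (@Lb.g g5 (@Lb.fp (nat_lit 3) t267)))))
noncomputable def l29468 : Lb := (@Lb.d (nat_lit 0) (nat_lit 514) (nat_lit 9) (@Lb.g g9 (@Lb.g g10 (@Lb.g g7 (@Lb.r r1442 (@Lb.r r145 (@Lb.d (nat_lit 529) (nat_lit 169) (nat_lit 258) (@Lb.t (@Lb.fm (nat_lit 9) t5340)))))))))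
noncomputable def l29469 : Lb := (@Lb.d (nat_lit 257) (nat_lit 613) (nat_lit 324) (@Lb.r r21 (@Lb.r r1640 (@Lb.r r1643 (@Lb.g g7 (@Lb.g g10 (@Lb.g g5 (@Lb.g g4 (@Lb.d (nat_lit 17) (nat_lit 1) (nat_lit 66) (@Lb.fm (nat_lit 9) t468))))))))))
noncomputable def l29470 : Lb := (@Lb.d (nat_lit 257) (nat_lit 357) (nat_lit 324) (@Lb.r r21 (@Lb.r r1640 (@Lb.r r1643 (@Lb.g g7 (@Lb.g g10 (@Lb.g g5 (@Lb.g g4 (@Lb.d (nat_lit 18) (nat_lit 1) (nat_lit 66) (@Lb.fm (nat_lit 9) t468))))))))))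
noncomputable def l29471 : Lb := (@Lb.r r323 (@Lb.d (nat_lit 8) (nat_lit 513) (nat_lit 0) (@Lb.g g8 (@Lb.g g9 (@Lb.g g10 (@Lb.r r1435 (@Lb.r r145 (@Lb.r r2646 (@Lb.r r1416 (@Lb.d (nat_lit 410) (nat_lit 2) (nat_lit 394) (@Lb.t (@Lb.fp (nat_lit 9) t221))))))))))))
noncomputable def l29472 : Lb := (@Lb.d (nat_lit 153) (nat_lit 276) (nat_lit 69) (@Lb.g g8 (@Lb.g g9 (@Lb.g g10 (@Lb.g g11 (@Lb.r r610 (@Lb.r r599 (@Lb.r r149 (@Lb.r r2180 (@Lb.d (nat_lit 154) (nat_lit 136) (nat_lit 358) (@Lb.fm (nat_lit 9) t5341)))))))))))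
noncomputable def l29473 : Lb := (@Lb.d (nat_lit 2) (nat_lit 521) (nat_lit 138) (@Lb.g g8 (@Lb.g g9 (@Lb.g g10 (@Lb.g g11 (@Lb.r r361 (@Lb.r r539 (@Lb.r r2660 (@Lb.r r1450 (@Lb.d (nat_lit 549) (nat_lit 38) (nat_lit 86) (@Lb.fm (nat_lit 9) t4946)))))))))))
noncomputable def l29474 : Lb := (@Lb.d (nat_lit 0) (nat_lit 1) (nat_lit 130) (@Lb.g g9 (@Lb.g g10 (@Lb.g g11 (@Lb.r r618 (@Lb.r r1611 (@Lb.r r105 (@Lb.r r1636 (@Lb.d (nat_lit 326) (nat_lit 18) (nat_lit 320) (@Lb.t (@Lb.fm (nat_lit 9) t461)))))))))))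
noncomputable def l29475 : Lb := (@Lb.d (nat_lit 261) (nat_lit 513) (nat_lit 65) (@Lb.r r260 (@Lb.r r539 (@Lb.r r664 (@Lb.r r1361 (@Lb.g g7 (@Lb.g g6 (@Lb.g g5 (@Lb.g g4 (@Lb.d (nat_lit 1) (nat_lit 0) (nat_lit 162) (@Lb.fp (nat_lit 9) t917)))))))))))
noncomputable def l29476 : Lb := (@Lb.d (nat_lit 4) (nat_lit 2) (nat_lit 73) (@Lb.g g9 (@Lb.g g10 (@Lb.g g11 (@Lb.r r423 (@Lb.r r596 (@Lb.r r666 (@Lb.r r337 (@Lb.d (nat_lit 6) (nat_lit 32) (nat_lit 5) (@Lb.t (@Lb.fp (nat_lit 9) t51)))))))))))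
noncomputable def l29477 : Lb := (@Lb.d (nat_lit 128) (nat_lit 2) (nat_lit 130) (@Lb.g g8 (@Lb.g g9 (@Lb.g g10 (@Lb.g g11 (@Lb.r r683 (@Lb.r r2410 (@Lb.r r537 (@Lb.r r516 (@Lb.d (nat_lit 130) (nat_lit 90) (nat_lit 149) (@Lb.fm (nat_lit 9) t2855)))))))))))
noncomputable def l29478 : Lb := (@Lb.d (nat_lit 128) (nat_lit 265) (nat_lit 129) (@Lb.g g8 (@Lb.g g9 (@Lb.g g10 (@Lb.g g11 (@Lb.r r1675 (@Lb.r r164 (@Lb.r r2197 (@Lb.r r2646 (@Lb.r r164 (@Lb.d (nat_lit 393) (nat_lit 128) (nat_lit 362) (@Lb.fm (nat_lit 9) t3040))))))))))))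
noncomputable def l29479 : Lb := (@Lb.d (nat_lit 152) (nat_lit 513) (nat_lit 128) (@Lb.g g8 (@Lb.g g9 (@Lb.g g10 (@Lb.g g11 (@Lb.r r683 (@Lb.r r2410 (@Lb.r r1561 (@Lb.r r1540 (@Lb.d (nat_lit 388) (nat_lit 89) (nat_lit 133) (@Lb.fm (nat_lit 9) t764)))))))))))
noncomputable def l29480 : Lb := (@Lb.d (nat_lit 2) (nat_lit 265) (nat_lit 129) (@Lb.g g8 (@Lb.g g9 (@Lb.g g10 (@Lb.g g11 (@Lb.r r1706 (@Lb.r r680 (@Lb.r r555 (@Lb.r r1553 (@Lb.r r2084 (@Lb.d (nat_lit 282) (nat_lit 97) (nat_lit 602) (@Lb.fm (nat_lit 9) t5342))))))))))))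
noncomputable def l29481 : Lb := (@Lb.d (nat_lit 2) (nat_lit 265) (nat_lit 129) (@Lb.g g8 (@Lb.g g9 (@Lb.g g10 (@Lb.g g11 (@Lb.r r1706 (@Lb.r r680 (@Lb.r r555 (@Lb.r r1553 (@Lb.r r2084 (@Lb.d (nat_lit 278) (nat_lit 96) (nat_lit 602) (@Lb.fm (nat_lit 9) t5343))))))))))))
noncomputable def l29482 : Lb := (@Lb.d (nat_lit 0) (nat_lit 2) (nat_lit 130) (@Lb.g g8 (@Lb.g g9 (@Lb.g g10 (@Lb.g g11 (@Lb.r r427 (@Lb.r r536 (@Lb.r r405 (@Lb.r r86 (@Lb.r r164 (@Lb.d (nat_lit 98) (nat_lit 100) (nat_lit 154) (@Lb.fm (nat_lit 9) t1022))))))))))))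
noncomputable def l29483 : Lb := (@Lb.r r323 (@Lb.d (nat_lit 6) (nat_lit 520) (nat_lit 34) (@Lb.g g4 (@Lb.g g10 (@Lb.r r2659 (@Lb.d (nat_lit 613) (nat_lit 152) (nat_lit 9) (@Lb.fm (nat_lit 3) t1554)))))))
noncomputable def l29484 : Lb := (@Lb.d (nat_lit 0) (nat_lit 256) (nat_lit 128) (@Lb.g g11 (@Lb.r r664 (@Lb.r r154 (@Lb.r r2133 (@Lb.r r164 (@Lb.d (nat_lit 1) (nat_lit 0) (nat_lit 325) (@Lb.t (@Lb.fp (nat_lit 3) t2428)))))))))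
noncomputable def l29485 : Lb := (@Lb.r r331 (@Lb.d (nat_lit 38) (nat_lit 5) (nat_lit 0) (@Lb.g g8 (@Lb.g g9 (@Lb.g g10 (@Lb.r r2666 (@Lb.r r2635 (@Lb.r r164 (@Lb.r r2469 (@Lb.d (nat_lit 345) (nat_lit 149) (nat_lit 401) (@Lb.t (@Lb.fm (nat_lit 9) t2958))))))))))))
noncomputable def l29486 : Lb := (@Lb.r r331 (@Lb.d (nat_lit 38) (nat_lit 0) (nat_lit 4) (@Lb.g g8 (@Lb.g g9 (@Lb.g g6 (@Lb.r r2635 (@Lb.r r2337 (@Lb.r r1636 (@Lb.d (nat_lit 165) (nat_lit 148) (nat_lit 682) (@Lb.t (@Lb.fp (nat_lit 9) t4226)))))))))))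
noncomputable def l29487 : Lb := (@Lb.d (nat_lit 10) (nat_lit 256) (nat_lit 128) (@Lb.g g8 (@Lb.g g11 (@Lb.r r1303 (@Lb.r r2341 (@Lb.r r532 (@Lb.d (nat_lit 2) (nat_lit 17) (nat_lit 320) (@Lb.fp (nat_lit 3) t2102))))))))
noncomputable def l29488 : Lb := (@Lb.d (nat_lit 2) (nat_lit 514) (nat_lit 2) (@Lb.g g8 (@Lb.g g9 (@Lb.g g10 (@Lb.g g7 (@Lb.r r386 (@Lb.r r1641 (@Lb.r r1608 (@Lb.d (nat_lit 406) (nat_lit 129) (nat_lit 660) (@Lb.fp (nat_lit 9) t2877))))))))))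
noncomputable def l29489 : Lb := (@Lb.d (nat_lit 128) (nat_lit 256) (nat_lit 384) (@Lb.g g11 (@Lb.r r1557 (@Lb.r r1316 (@Lb.d (nat_lit 261) (nat_lit 18) (nat_lit 256) (@Lb.t (@Lb.fp (nat_lit 3) t2102)))))))
noncomputable def l29490 : Lb := (@Lb.d (nat_lit 409) (nat_lit 665) (nat_lit 170) (@Lb.r r2410 (@Lb.r r85 (@Lb.r r1379 (@Lb.g g6 (@Lb.g g5 (@Lb.g g4 (@Lb.d (nat_lit 281) (nat_lit 5) (nat_lit 2) (@Lb.r r387 (@Lb.t (@Lb.fp (nat_lit 9) t5344)))))))))))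
noncomputable def l29491 : Lb := (@Lb.d (nat_lit 1) (nat_lit 512) (nat_lit 66) (@Lb.g g8 (@Lb.g g9 (@Lb.g g10 (@Lb.g g7 (@Lb.r r386 (@Lb.r r105 (@Lb.r r36 (@Lb.d (nat_lit 42) (nat_lit 82) (nat_lit 329) (@Lb.fm (nat_lit 9) t1926))))))))))
noncomputable def l29492 : Lb := (@Lb.d (nat_lit 25) (nat_lit 33) (nat_lit 64) (@Lb.g g8 (@Lb.g g9 (@Lb.g g10 (@Lb.g g11 (@Lb.r r1639 (@Lb.r r1674 (@Lb.r r1321 (@Lb.r r1096 (@Lb.d (nat_lit 84) (nat_lit 101) (nat_lit 614) (@Lb.fp (nat_lit 9) t5345)))))))))))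
noncomputable def l29493 : Lb := (@Lb.r r275 (@Lb.d (nat_lit 2) (nat_lit 266) (nat_lit 1) (@Lb.g g8 (@Lb.g g9 (@Lb.g g10 (@Lb.r r683 (@Lb.r r2218 (@Lb.r r2212 (@Lb.r r2085 (@Lb.d (nat_lit 520) (nat_lit 10) (nat_lit 18) (@Lb.t (@Lb.fp (nat_lit 9) t5346))))))))))))
noncomputable def l29494 : Lb := (@Lb.d (nat_lit 130) (nat_lit 512) (nat_lit 128) (@Lb.g g8 (@Lb.g g11 (@Lb.r r1543 (@Lb.r r280 (@Lb.d (nat_lit 522) (nat_lit 64) (nat_lit 640) (@Lb.fm (nat_lit 3) t1101)))))))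
noncomputable def l29495 : Lb := (@Lb.d (nat_lit 70) (nat_lit 70) (nat_lit 601) (@Lb.r r2068 (@Lb.r r1321 (@Lb.r r2387 (@Lb.g g6 (@Lb.g g5 (@Lb.g g4 (@Lb.d (nat_lit 65) (nat_lit 2) (nat_lit 41) (@Lb.r r403 (@Lb.t (@Lb.fm (nat_lit 9) t5347)))))))))))
noncomputable def l29496 : Lb := (@Lb.d (nat_lit 25) (nat_lit 289) (nat_lit 64) (@Lb.g g8 (@Lb.g g9 (@Lb.g g10 (@Lb.g g11 (@Lb.r r2459 (@Lb.r r1177 (@Lb.r r2650 (@Lb.r r1096 (@Lb.d (nat_lit 546) (nat_lit 168) (nat_lit 104) (@Lb.fm (nat_lit 9) t5348)))))))))))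
noncomputable def l29497 : Lb := (@Lb.r r82 (@Lb.d (nat_lit 132) (nat_lit 258) (nat_lit 128) (@Lb.g g8 (@Lb.g g9 (@Lb.g g11 (@Lb.r r2659 (@Lb.r r386 (@Lb.r r1449 (@Lb.r r2408 (@Lb.d (nat_lit 37) (nat_lit 96) (nat_lit 386) (@Lb.t (@Lb.fm (nat_lit 9) t3730))))))))))))
noncomputable def l29498 : Lb := (@Lb.r r82 (@Lb.d (nat_lit 1) (nat_lit 34) (nat_lit 64) (@Lb.g g8 (@Lb.g g9 (@Lb.g g11 (@Lb.r r1049 (@Lb.r r2392 (@Lb.r r1447 (@Lb.r r2438 (@Lb.d (nat_lit 0) (nat_lit 68) (nat_lit 278) (@Lb.t (@Lb.fm (nat_lit 9) t1885))))))))))))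
noncomputable def l29499 : Lb := (@Lb.d (nat_lit 4) (nat_lit 0) (nat_lit 74) (@Lb.g g8 (@Lb.g g9 (@Lb.g g10 (@Lb.g g11 (@Lb.r r1666 (@Lb.r r2451 (@Lb.r r1553 (@Lb.d (nat_lit 2) (nat_lit 170) (nat_lit 400) (@Lb.fm (nat_lit 9) t324))))))))))
noncomputable def l29500 : Lb := (@Lb.d (nat_lit 0) (nat_lit 516) (nat_lit 64) (@Lb.g g4 (@Lb.g g9 (@Lb.g g10 (@Lb.g g11 (@Lb.r r1547 (@Lb.r r2438 (@Lb.r r2657 (@Lb.d (nat_lit 676) (nat_lit 90) (nat_lit 345) (@Lb.fp (nat_lit 9) t5349))))))))))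
noncomputable def l29501 : Lb := (@Lb.d (nat_lit 512) (nat_lit 0) (nat_lit 32) (@Lb.r r24 (@Lb.r r359 (@Lb.r r1301 (@Lb.g g10 (@Lb.g g5 (@Lb.g g4 (@Lb.r r291 (@Lb.t (@Lb.fp (nat_lit 9) t412))))))))))
noncomputable def l29502 : Lb := (@Lb.d (nat_lit 138) (nat_lit 0) (nat_lit 384) (@Lb.g g8 (@Lb.g g11 (@Lb.r r2662 (@Lb.r r613 (@Lb.r r2452 (@Lb.d (nat_lit 614) (nat_lit 10) (nat_lit 674) (@Lb.fp (nat_lit 3) t927))))))))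
noncomputable def l29503 : Lb := (@Lb.r r20 (@Lb.d (nat_lit 0) (nat_lit 613) (nat_lit 0) (@Lb.g g5 (@Lb.g g10 (@Lb.r r2454 (@Lb.r r1608 (@Lb.d (nat_lit 418) (nat_lit 1) (nat_lit 666) (@Lb.fp (nat_lit 3) t4720))))))))
noncomputable def l29504 : Lb := (@Lb.d (nat_lit 8) (nat_lit 513) (nat_lit 130) (@Lb.g g8 (@Lb.g g9 (@Lb.g g10 (@Lb.g g11 (@Lb.r r610 (@Lb.r r1607 (@Lb.r r97 (@Lb.r r2436 (@Lb.d (nat_lit 154) (nat_lit 9) (nat_lit 392) (@Lb.fp (nat_lit 9) t3176)))))))))))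
noncomputable def l29505 : Lb := (@Lb.d (nat_lit 4) (nat_lit 66) (nat_lit 512) (@Lb.r r1608 (@Lb.r r619 (@Lb.r r2390 (@Lb.g g7 (@Lb.g g5 (@Lb.d (nat_lit 0) (nat_lit 81) (nat_lit 128) (@Lb.r r36 (@Lb.fm (nat_lit 3) t4226)))))))))
noncomputable def l29506 : Lb := (@Lb.d (nat_lit 9) (nat_lit 289) (nat_lit 66) (@Lb.g g8 (@Lb.g g9 (@Lb.g g10 (@Lb.g g11 (@Lb.r r2475 (@Lb.r r2440 (@Lb.r r2122 (@Lb.r r2581 (@Lb.d (nat_lit 409) (nat_lit 1) (nat_lit 648) (@Lb.fm (nat_lit 9) t5350)))))))))))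
noncomputable def l29507 : Lb := (@Lb.d (nat_lit 101) (nat_lit 297) (nat_lit 390) (@Lb.r r408 (@Lb.r r1178 (@Lb.r r1683 (@Lb.g g6 (@Lb.g g9 (@Lb.g g4 (@Lb.d (nat_lit 70) (nat_lit 42) (nat_lit 0) (@Lb.r r387 (@Lb.t (@Lb.fp (nat_lit 9) t3013)))))))))))
noncomputable def l29508 : Lb := (@Lb.d (nat_lit 538) (nat_lit 148) (nat_lit 338) (@Lb.r r1697 (@Lb.r r1387 (@Lb.r r264 (@Lb.g g7 (@Lb.g g10 (@Lb.g g5 (@Lb.d (nat_lit 68) (nat_lit 1) (nat_lit 81) (@Lb.r r36 (@Lb.t (@Lb.fm (nat_lit 9) t1723)))))))))))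
noncomputable def l29509 : Lb := (@Lb.d (nat_lit 8) (nat_lit 36) (nat_lit 65) (@Lb.g g9 (@Lb.g g6 (@Lb.g g11 (@Lb.r r2663 (@Lb.r r1048 (@Lb.r r21 (@Lb.d (nat_lit 148) (nat_lit 4) (nat_lit 680) (@Lb.t (@Lb.fp (nat_lit 9) t5351))))))))))
noncomputable def l29510 : Lb := (@Lb.d (nat_lit 656) (nat_lit 678) (nat_lit 598) (@Lb.r r2379 (@Lb.r r2372 (@Lb.r r1114 (@Lb.g g7 (@Lb.g g6 (@Lb.g g5 (@Lb.d (nat_lit 0) (nat_lit 17) (nat_lit 65) (@Lb.t (@Lb.fp (nat_lit 9) t311))))))))))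
noncomputable def l29511 : Lb := (@Lb.d (nat_lit 640) (nat_lit 69) (nat_lit 577) (@Lb.r r293 (@Lb.r r2392 (@Lb.r r1447 (@Lb.r r2390 (@Lb.g g7 (@Lb.g g5 (@Lb.d (nat_lit 0) (nat_lit 6) (nat_lit 0) (@Lb.fm (nat_lit 3) t5352)))))))))
noncomputable def l29512 : Lb := (@Lb.r r70 (@Lb.d (nat_lit 1) (nat_lit 514) (nat_lit 0) (@Lb.g g8 (@Lb.g g9 (@Lb.r r1547 (@Lb.r r1428 (@Lb.r r1369 (@Lb.r r2214 (@Lb.d (nat_lit 5) (nat_lit 170) (nat_lit 338) (@Lb.fm (nat_lit 3) t3878))))))))))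
noncomputable def l29513 : Lb := (@Lb.d (nat_lit 0) (nat_lit 512) (nat_lit 73) (@Lb.g g4 (@Lb.g g10 (@Lb.g g11 (@Lb.r r2375 (@Lb.r r2374 (@Lb.d (nat_lit 289) (nat_lit 5) (nat_lit 90) (@Lb.t (@Lb.fp (nat_lit 9) t2264)))))))))
noncomputable def l29514 : Lb := (@Lb.d (nat_lit 6) (nat_lit 257) (nat_lit 74) (@Lb.g g8 (@Lb.g g9 (@Lb.g g10 (@Lb.g g11 (@Lb.r r170 (@Lb.r r680 (@Lb.r r363 (@Lb.r r2405 (@Lb.r r2068 (@Lb.d (nat_lit 90) (nat_lit 128) (nat_lit 406) (@Lb.fm (nat_lit 9) t284))))))))))))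
noncomputable def l29515 : Lb := (@Lb.r r2370 (@Lb.d (nat_lit 128) (nat_lit 32) (nat_lit 128) (@Lb.g g11 (@Lb.r r2329 (@Lb.r r280 (@Lb.r r295 (@Lb.d (nat_lit 64) (nat_lit 42) (nat_lit 66) (@Lb.t (@Lb.fm (nat_lit 3) t748)))))))))
noncomputable def l29516 : Lb := (@Lb.d (nat_lit 137) (nat_lit 0) (nat_lit 0) (@Lb.g g8 (@Lb.r r1621 (@Lb.r r2391 (@Lb.r r2178 (@Lb.r r2664 (@Lb.d (nat_lit 90) (nat_lit 86) (nat_lit 289) (@Lb.t (@Lb.fp (nat_lit 3) t1951)))))))))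
noncomputable def l29517 : Lb := (@Lb.d (nat_lit 146) (nat_lit 514) (nat_lit 64) (@Lb.g g8 (@Lb.g g9 (@Lb.g g10 (@Lb.g g11 (@Lb.r r427 (@Lb.r r1602 (@Lb.r r409 (@Lb.r r388 (@Lb.d (nat_lit 98) (nat_lit 97) (nat_lit 74) (@Lb.fp (nat_lit 9) t898)))))))))))
noncomputable def l29518 : Lb := (@Lb.d (nat_lit 33) (nat_lit 256) (nat_lit 64) (@Lb.g g8 (@Lb.g g11 (@Lb.r r1687 (@Lb.r r598 (@Lb.r r2457 (@Lb.r r408 (@Lb.d (nat_lit 361) (nat_lit 26) (nat_lit 342) (@Lb.fm (nat_lit 3) t386)))))))))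
noncomputable def l29519 : Lb := (@Lb.g g4 (@Lb.g g7 (@Lb.r r2311 (@Lb.d (nat_lit 658) (nat_lit 512) (nat_lit 421) (@Lb.fm (nat_lit 3) t1165)))))
noncomputable def l29520 : Lb := (@Lb.d (nat_lit 9) (nat_lit 293) (nat_lit 64) (@Lb.g g8 (@Lb.g g9 (@Lb.g g10 (@Lb.g g11 (@Lb.r r1190 (@Lb.r r164 (@Lb.r r2709 (@Lb.r r2451 (@Lb.d (nat_lit 552) (nat_lit 153) (nat_lit 128) (@Lb.fm (nat_lit 9) t1050)))))))))))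
noncomputable def l29521 : Lb := (@Lb.r r402 (@Lb.r r101 (@Lb.d (nat_lit 130) (nat_lit 534) (nat_lit 1) (@Lb.fp (nat_lit 1) t1163))))
noncomputable def l29522 : Lb := (@Lb.d (nat_lit 4) (nat_lit 614) (nat_lit 6) (@Lb.r r1637 (@Lb.r r386 (@Lb.g g11 (@Lb.g g6 (@Lb.g g5 (@Lb.g g8 (@Lb.d (nat_lit 9) (nat_lit 0) (nat_lit 1) (@Lb.fp (nat_lit 9) t3197)))))))))
noncomputable def l29523 : Lb := (@Lb.d (nat_lit 0) (nat_lit 256) (nat_lit 130) (@Lb.g g9 (@Lb.g g10 (@Lb.g g11 (@Lb.r r2691 (@Lb.r r536 (@Lb.r r1637 (@Lb.r r1690 (@Lb.r r2180 (@Lb.d (nat_lit 677) (nat_lit 161) (nat_lit 602) (@Lb.t (@Lb.fm (nat_lit 9) t1866))))))))))))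
noncomputable def l29524 : Lb := (@Lb.d (nat_lit 150) (nat_lit 513) (nat_lit 129) (@Lb.r r402 (@Lb.r r101 (@Lb.g g11 (@Lb.t (@Lb.fp (nat_lit 3) t1163))))))
noncomputable def l29525 : Lb := (@Lb.r r323 (@Lb.d (nat_lit 4) (nat_lit 32) (nat_lit 2) (@Lb.g g9 (@Lb.g g10 (@Lb.r r599 (@Lb.r r420 (@Lb.r r102 (@Lb.d (nat_lit 42) (nat_lit 4) (nat_lit 86) (@Lb.fp (nat_lit 3) t1149)))))))))
noncomputable def l29526 : Lb := (@Lb.d (nat_lit 4) (nat_lit 102) (nat_lit 6) (@Lb.r r1637 (@Lb.r r386 (@Lb.g g11 (@Lb.g g6 (@Lb.g g5 (@Lb.g g8 (@Lb.d (nat_lit 9) (nat_lit 10) (nat_lit 0) (@Lb.fp (nat_lit 9) t4291)))))))))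
noncomputable def l29527 : Lb := (@Lb.r r21 (@Lb.d (nat_lit 146) (nat_lit 256) (nat_lit 256) (@Lb.g g8 (@Lb.g g10 (@Lb.g g7 (@Lb.r r394 (@Lb.r r1177 (@Lb.r r1156 (@Lb.d (nat_lit 36) (nat_lit 1) (nat_lit 290) (@Lb.t (@Lb.fm (nat_lit 9) t491)))))))))))
noncomputable def l29528 : Lb := (@Lb.r r2311 (@Lb.d (nat_lit 262) (nat_lit 1) (nat_lit 0) (@Lb.fp (nat_lit 1) t469)))
noncomputable def l29529 : Lb := (@Lb.d (nat_lit 129) (nat_lit 256) (nat_lit 385) (@Lb.g g8 (@Lb.g g10 (@Lb.g g11 (@Lb.r r1434 (@Lb.r r1321 (@Lb.r r2344 (@Lb.d (nat_lit 98) (nat_lit 133) (nat_lit 657) (@Lb.t (@Lb.fp (nat_lit 9) t2538))))))))))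
noncomputable def l29530 : Lb := (@Lb.r r70 (@Lb.d (nat_lit 128) (nat_lit 256) (nat_lit 384) (@Lb.g g8 (@Lb.g g11 (@Lb.r r1602 (@Lb.r r2197 (@Lb.r r100 (@Lb.d (nat_lit 273) (nat_lit 86) (nat_lit 665) (@Lb.fm (nat_lit 3) t5353)))))))))
noncomputable def l29531 : Lb := (@Lb.r r21 (@Lb.d (nat_lit 8) (nat_lit 512) (nat_lit 2) (@Lb.g g8 (@Lb.g g10 (@Lb.r r667 (@Lb.r r2405 (@Lb.r r1178 (@Lb.r r1156 (@Lb.d (nat_lit 345) (nat_lit 70) (nat_lit 404) (@Lb.fp (nat_lit 3) t1046))))))))))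
noncomputable def l29532 : Lb := (@Lb.d (nat_lit 4) (nat_lit 0) (nat_lit 130) (@Lb.g g8 (@Lb.g g9 (@Lb.g g10 (@Lb.g g11 (@Lb.r r2411 (@Lb.r r386 (@Lb.r r97 (@Lb.r r24 (@Lb.d (nat_lit 266) (nat_lit 9) (nat_lit 152) (@Lb.fm (nat_lit 9) t61)))))))))))
noncomputable def l29533 : Lb := (@Lb.r r21 (@Lb.d (nat_lit 34) (nat_lit 256) (nat_lit 1) (@Lb.g g8 (@Lb.g g10 (@Lb.r r651 (@Lb.r r1556 (@Lb.r r153 (@Lb.r r602 (@Lb.d (nat_lit 393) (nat_lit 101) (nat_lit 280) (@Lb.fp (nat_lit 3) t428))))))))))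
noncomputable def l29534 : Lb := (@Lb.d (nat_lit 0) (nat_lit 256) (nat_lit 136) (@Lb.g g11 (@Lb.r r402 (@Lb.r r101 (@Lb.d (nat_lit 10) (nat_lit 130) (nat_lit 128) (@Lb.t (@Lb.fp (nat_lit 3) t240)))))))
noncomputable def l29535 : Lb := (@Lb.r r322 (@Lb.d (nat_lit 4) (nat_lit 514) (nat_lit 576) (@Lb.g g9 (@Lb.g g7 (@Lb.r r660 (@Lb.r r358 (@Lb.r r337 (@Lb.d (nat_lit 1) (nat_lit 161) (nat_lit 517) (@Lb.fp (nat_lit 3) t668)))))))))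
noncomputable def l29536 : Lb := (@Lb.d (nat_lit 0) (nat_lit 512) (nat_lit 137) (@Lb.g g10 (@Lb.g g11 (@Lb.r r578 (@Lb.r r24 (@Lb.d (nat_lit 2) (nat_lit 8) (nat_lit 74) (@Lb.fp (nat_lit 3) t21)))))))
noncomputable def l29537 : Lb := (@Lb.d (nat_lit 0) (nat_lit 258) (nat_lit 130) (@Lb.g g9 (@Lb.g g10 (@Lb.g g11 (@Lb.r r642 (@Lb.r r387 (@Lb.r r104 (@Lb.r r25 (@Lb.d (nat_lit 22) (nat_lit 8) (nat_lit 73) (@Lb.t (@Lb.fm (nat_lit 9) t40)))))))))))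
noncomputable def l29538 : Lb := (@Lb.d (nat_lit 0) (nat_lit 258) (nat_lit 130) (@Lb.g g9 (@Lb.g g10 (@Lb.g g11 (@Lb.r r2698 (@Lb.r r2692 (@Lb.r r2567 (@Lb.r r97 (@Lb.d (nat_lit 642) (nat_lit 22) (nat_lit 584) (@Lb.t (@Lb.fp (nat_lit 9) t242)))))))))))
noncomputable def l29539 : Lb := (@Lb.d (nat_lit 0) (nat_lit 1) (nat_lit 132) (@Lb.r r24 (@Lb.r r579 (@Lb.g g7 (@Lb.g g10 (@Lb.g g5 (@Lb.d (nat_lit 4) (nat_lit 1) (nat_lit 64) (@Lb.t (@Lb.fm (nat_lit 9) t2)))))))))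
noncomputable def l29540 : Lb := (@Lb.r r82 (@Lb.d (nat_lit 0) (nat_lit 2) (nat_lit 584) (@Lb.g g9 (@Lb.g g7 (@Lb.r r1377 (@Lb.r r146 (@Lb.r r24 (@Lb.d (nat_lit 8) (nat_lit 153) (nat_lit 361) (@Lb.fm (nat_lit 3) t2000)))))))))
noncomputable def l29541 : Lb := (@Lb.r r82 (@Lb.d (nat_lit 34) (nat_lit 2) (nat_lit 128) (@Lb.g g8 (@Lb.g g9 (@Lb.g g11 (@Lb.r r363 (@Lb.r r582 (@Lb.r r677 (@Lb.r r408 (@Lb.d (nat_lit 133) (nat_lit 154) (nat_lit 17) (@Lb.t (@Lb.fm (nat_lit 9) t388))))))))))))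
noncomputable def l29542 : Lb := (@Lb.r r81 (@Lb.r r263 (@Lb.d (nat_lit 2) (nat_lit 0) (nat_lit 34) (@Lb.g g8 (@Lb.g g10 (@Lb.r r2724 (@Lb.r r1575 (@Lb.r r37 (@Lb.d (nat_lit 2) (nat_lit 8) (nat_lit 17) (@Lb.fm (nat_lit 3) t2564))))))))))
noncomputable def l29543 : Lb := (@Lb.d (nat_lit 0) (nat_lit 21) (nat_lit 586) (@Lb.g g9 (@Lb.g g10 (@Lb.g g7 (@Lb.r r2642 (@Lb.r r1361 (@Lb.r r24 (@Lb.d (nat_lit 10) (nat_lit 32) (nat_lit 341) (@Lb.t (@Lb.fm (nat_lit 9) t1256))))))))))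
noncomputable def l29544 : Lb := (@Lb.d (nat_lit 517) (nat_lit 37) (nat_lit 513) (@Lb.r r2452 (@Lb.r r89 (@Lb.r r1611 (@Lb.r r358 (@Lb.g g7 (@Lb.g g6 (@Lb.g g4 (@Lb.d (nat_lit 5) (nat_lit 0) (nat_lit 65) (@Lb.t (@Lb.fm (nat_lit 9) t2521)))))))))))
noncomputable def l29545 : Lb := (@Lb.r r81 (@Lb.d (nat_lit 33) (nat_lit 520) (nat_lit 129) (@Lb.g g8 (@Lb.g g6 (@Lb.g g11 (@Lb.r r2635 (@Lb.r r2665 (@Lb.r r2660 (@Lb.d (nat_lit 278) (nat_lit 153) (nat_lit 8) (@Lb.t (@Lb.fp (nat_lit 9) t5354)))))))))))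
noncomputable def l29546 : Lb := (@Lb.d (nat_lit 9) (nat_lit 513) (nat_lit 130) (@Lb.g g8 (@Lb.g g9 (@Lb.g g10 (@Lb.g g11 (@Lb.r r1706 (@Lb.r r680 (@Lb.r r555 (@Lb.r r2089 (@Lb.r r2084 (@Lb.d (nat_lit 9) (nat_lit 2) (nat_lit 640) (@Lb.fp (nat_lit 9) t504))))))))))))
noncomputable def l29547 : Lb := (@Lb.r r21 (@Lb.d (nat_lit 410) (nat_lit 512) (nat_lit 8) (@Lb.g g8 (@Lb.g g10 (@Lb.r r613 (@Lb.r r1379 (@Lb.r r2722 (@Lb.d (nat_lit 1) (nat_lit 100) (nat_lit 641) (@Lb.fm (nat_lit 3) t3404)))))))))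
noncomputable def l29548 : Lb := (@Lb.r r70 (@Lb.d (nat_lit 386) (nat_lit 0) (nat_lit 0) (@Lb.g g4 (@Lb.r r74 (@Lb.d (nat_lit 577) (nat_lit 0) (nat_lit 0) (@Lb.t (@Lb.fm (nat_lit 3) t5355)))))))
noncomputable def l29549 : Lb := (@Lb.r r21 (@Lb.d (nat_lit 410) (nat_lit 288) (nat_lit 128) (@Lb.g g8 (@Lb.g g10 (@Lb.g g11 (@Lb.r r1642 (@Lb.r r2449 (@Lb.r r615 (@Lb.d (nat_lit 152) (nat_lit 137) (nat_lit 330) (@Lb.t (@Lb.fp (nat_lit 9) t1913)))))))))))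
noncomputable def l29550 : Lb := (@Lb.d (nat_lit 0) (nat_lit 8) (nat_lit 2) (@Lb.g g10 (@Lb.r r2401 (@Lb.r r2642 (@Lb.d (nat_lit 10) (nat_lit 149) (nat_lit 42) (@Lb.t (@Lb.fm (nat_lit 3) t402)))))))
noncomputable def l29551 : Lb := (@Lb.d (nat_lit 8) (nat_lit 2) (nat_lit 74) (@Lb.g g9 (@Lb.g g10 (@Lb.g g11 (@Lb.r r387 (@Lb.r r1126 (@Lb.r r24 (@Lb.d (nat_lit 90) (nat_lit 137) (nat_lit 552) (@Lb.t (@Lb.fp (nat_lit 9) t1962))))))))))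
noncomputable def l29552 : Lb := (@Lb.r r101 (@Lb.r r24 (@Lb.d (nat_lit 584) (nat_lit 514) (nat_lit 528) (@Lb.fp (nat_lit 1) t1150))))
noncomputable def l29553 : Lb := (@Lb.r r101 (@Lb.r r24 (@Lb.d (nat_lit 577) (nat_lit 522) (nat_lit 530) (@Lb.fp (nat_lit 1) t1150))))
noncomputable def l29554 : Lb := (@Lb.r r21 (@Lb.d (nat_lit 2) (nat_lit 512) (nat_lit 2) (@Lb.g g8 (@Lb.g g10 (@Lb.r r2634 (@Lb.r r1429 (@Lb.r r2632 (@Lb.d (nat_lit 353) (nat_lit 0) (nat_lit 682) (@Lb.fp (nat_lit 3) t4187)))))))))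
noncomputable def l29555 : Lb := (@Lb.r r21 (@Lb.d (nat_lit 2) (nat_lit 0) (nat_lit 2) (@Lb.g g8 (@Lb.g g10 (@Lb.g g11 (@Lb.r r2634 (@Lb.r r1429 (@Lb.r r2632 (@Lb.d (nat_lit 353) (nat_lit 0) (nat_lit 682) (@Lb.t (@Lb.fp (nat_lit 9) t4187)))))))))))
noncomputable def l29556 : Lb := (@Lb.r r70 (@Lb.r r263 (@Lb.d (nat_lit 10) (nat_lit 513) (nat_lit 0) (@Lb.g g8 (@Lb.g g9 (@Lb.r r2667 (@Lb.r r2434 (@Lb.r r97 (@Lb.r r152 (@Lb.d (nat_lit 280) (nat_lit 5) (nat_lit 16) (@Lb.fm (nat_lit 3) t5356)))))))))))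
noncomputable def l29557 : Lb := (@Lb.d (nat_lit 0) (nat_lit 2) (nat_lit 130) (@Lb.g g9 (@Lb.g g10 (@Lb.g g11 (@Lb.r r610 (@Lb.r r1611 (@Lb.r r1556 (@Lb.r r25 (@Lb.d (nat_lit 2) (nat_lit 88) (nat_lit 258) (@Lb.t (@Lb.fp (nat_lit 9) t3756)))))))))))
noncomputable def l29558 : Lb := (@Lb.r r21 (@Lb.d (nat_lit 2) (nat_lit 0) (nat_lit 2) (@Lb.g g8 (@Lb.g g10 (@Lb.r r2634 (@Lb.r r1429 (@Lb.r r2632 (@Lb.d (nat_lit 360) (nat_lit 2) (nat_lit 682) (@Lb.fp (nat_lit 3) t4187)))))))))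
noncomputable def l29559 : Lb := (@Lb.d (nat_lit 16) (nat_lit 265) (nat_lit 2) (@Lb.g g8 (@Lb.g g9 (@Lb.g g10 (@Lb.r r2666 (@Lb.r r2665 (@Lb.r r2632 (@Lb.d (nat_lit 356) (nat_lit 0) (nat_lit 682) (@Lb.t (@Lb.fm (nat_lit 9) t5357))))))))))
noncomputable def l29560 : Lb := (@Lb.r r70 (@Lb.r r263 (@Lb.d (nat_lit 10) (nat_lit 1) (nat_lit 0) (@Lb.g g8 (@Lb.g g9 (@Lb.r r2667 (@Lb.r r418 (@Lb.r r145 (@Lb.r r104 (@Lb.d (nat_lit 297) (nat_lit 0) (nat_lit 0) (@Lb.fp (nat_lit 3) t1159)))))))))))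
noncomputable def l29561 : Lb := (@Lb.r r70 (@Lb.r r263 (@Lb.d (nat_lit 10) (nat_lit 257) (nat_lit 0) (@Lb.g g8 (@Lb.g g9 (@Lb.r r2667 (@Lb.r r418 (@Lb.r r145 (@Lb.r r104 (@Lb.d (nat_lit 296) (nat_lit 0) (nat_lit 0) (@Lb.fp (nat_lit 3) t739)))))))))))
noncomputable def l29562 : Lb := (@Lb.d (nat_lit 82) (nat_lit 256) (nat_lit 601) (@Lb.r r2372 (@Lb.r r2389 (@Lb.r r138 (@Lb.g g11 (@Lb.g g6 (@Lb.g g4 (@Lb.d (nat_lit 33) (nat_lit 0) (nat_lit 0) (@Lb.r r25 (@Lb.t (@Lb.fp (nat_lit 9) t5358)))))))))))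
noncomputable def l29563 : Lb := (@Lb.d (nat_lit 32) (nat_lit 4) (nat_lit 74) (@Lb.g g9 (@Lb.g g10 (@Lb.g g11 (@Lb.r r2695 (@Lb.r r1352 (@Lb.r r2182 (@Lb.r r97 (@Lb.d (nat_lit 545) (nat_lit 22) (nat_lit 26) (@Lb.t (@Lb.fm (nat_lit 9) t546)))))))))))
noncomputable def l29564 : Lb := (@Lb.d (nat_lit 601) (nat_lit 32) (nat_lit 84) (@Lb.r r2405 (@Lb.r r2178 (@Lb.r r2323 (@Lb.g g9 (@Lb.g g8 (@Lb.d (nat_lit 320) (nat_lit 17) (nat_lit 0) (@Lb.fm (nat_lit 3) t307))))))))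
noncomputable def l29565 : Lb := (@Lb.d (nat_lit 0) (nat_lit 2) (nat_lit 73) (@Lb.g g9 (@Lb.g g10 (@Lb.g g11 (@Lb.r r647 (@Lb.r r328 (@Lb.r r134 (@Lb.r r2721 (@Lb.d (nat_lit 33) (nat_lit 98) (nat_lit 585) (@Lb.t (@Lb.fm (nat_lit 9) t296)))))))))))
noncomputable def l29566 : Lb := (@Lb.d (nat_lit 537) (nat_lit 257) (nat_lit 138) (@Lb.r r169 (@Lb.r r2726 (@Lb.r r1435 (@Lb.r r2308 (@Lb.g g7 (@Lb.g g5 (@Lb.d (nat_lit 4) (nat_lit 1) (nat_lit 64) (@Lb.fm (nat_lit 3) t3104)))))))))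
noncomputable def l29567 : Lb := (@Lb.r r323 (@Lb.d (nat_lit 130) (nat_lit 4) (nat_lit 16) (@Lb.g g8 (@Lb.g g9 (@Lb.g g10 (@Lb.r r1623 (@Lb.r r2345 (@Lb.r r2340 (@Lb.d (nat_lit 585) (nat_lit 105) (nat_lit 534) (@Lb.t (@Lb.fm (nat_lit 9) t1246)))))))))))
noncomputable def l29568 : Lb := (@Lb.r r82 (@Lb.d (nat_lit 169) (nat_lit 416) (nat_lit 0) (@Lb.g g8 (@Lb.g g5 (@Lb.r r2471 (@Lb.r r1382 (@Lb.r r2712 (@Lb.d (nat_lit 392) (nat_lit 168) (nat_lit 133) (@Lb.fm (nat_lit 3) t5359)))))))))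
noncomputable def l29569 : Lb := (@Lb.d (nat_lit 152) (nat_lit 276) (nat_lit 577) (@Lb.r r587 (@Lb.r r346 (@Lb.g g7 (@Lb.g g6 (@Lb.g g5 (@Lb.d (nat_lit 4) (nat_lit 1) (nat_lit 134) (@Lb.r r2436 (@Lb.t (@Lb.fm (nat_lit 9) t2179))))))))))
noncomputable def l29570 : Lb := (@Lb.d (nat_lit 2) (nat_lit 514) (nat_lit 2) (@Lb.g g8 (@Lb.g g9 (@Lb.g g10 (@Lb.r r427 (@Lb.r r386 (@Lb.r r97 (@Lb.r r24 (@Lb.d (nat_lit 265) (nat_lit 9) (nat_lit 521) (@Lb.t (@Lb.fp (nat_lit 9) t5182)))))))))))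
noncomputable def l29571 : Lb := (@Lb.r r82 (@Lb.d (nat_lit 9) (nat_lit 288) (nat_lit 128) (@Lb.g g8 (@Lb.g g9 (@Lb.g g11 (@Lb.r r2152 (@Lb.r r102 (@Lb.r r337 (@Lb.r r1315 (@Lb.d (nat_lit 6) (nat_lit 160) (nat_lit 344) (@Lb.t (@Lb.fp (nat_lit 9) t74))))))))))))
noncomputable def l29572 : Lb := (@Lb.d (nat_lit 33) (nat_lit 265) (nat_lit 72) (@Lb.g g8 (@Lb.g g9 (@Lb.g g10 (@Lb.g g11 (@Lb.r r1707 (@Lb.r r1194 (@Lb.r r2657 (@Lb.r r2632 (@Lb.d (nat_lit 596) (nat_lit 148) (nat_lit 581) (@Lb.fp (nat_lit 9) t2685)))))))))))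
noncomputable def l29573 : Lb := (@Lb.r r82 (@Lb.d (nat_lit 9) (nat_lit 32) (nat_lit 128) (@Lb.g g8 (@Lb.g g9 (@Lb.g g11 (@Lb.r r2152 (@Lb.r r102 (@Lb.r r337 (@Lb.r r1315 (@Lb.d (nat_lit 0) (nat_lit 162) (nat_lit 344) (@Lb.t (@Lb.fp (nat_lit 9) t68))))))))))))
noncomputable def l29574 : Lb := (@Lb.d (nat_lit 10) (nat_lit 649) (nat_lit 353) (@Lb.r r1114 (@Lb.r r2376 (@Lb.r r279 (@Lb.r r1569 (@Lb.g g7 (@Lb.g g4 (@Lb.d (nat_lit 70) (nat_lit 0) (nat_lit 128) (@Lb.fm (nat_lit 3) t3457)))))))))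
noncomputable def l29575 : Lb := (@Lb.r r2403 (@Lb.r r101 (@Lb.r r24 (@Lb.d (nat_lit 322) (nat_lit 522) (nat_lit 530) (@Lb.fp (nat_lit 1) t314)))))
noncomputable def l29576 : Lb := (@Lb.d (nat_lit 8) (nat_lit 258) (nat_lit 130) (@Lb.g g9 (@Lb.g g10 (@Lb.g g11 (@Lb.r r419 (@Lb.r r98 (@Lb.d (nat_lit 2) (nat_lit 9) (nat_lit 66) (@Lb.t (@Lb.fm (nat_lit 9) t369)))))))))
noncomputable def l29577 : Lb := (@Lb.d (nat_lit 10) (nat_lit 41) (nat_lit 534) (@Lb.r r2114 (@Lb.r r2149 (@Lb.r r24 (@Lb.r r1351 (@Lb.g g10 (@Lb.r r387 (@Lb.t (@Lb.fp (nat_lit 3) t5360)))))))))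
noncomputable def l29578 : Lb := (@Lb.r r323 (@Lb.d (nat_lit 137) (nat_lit 257) (nat_lit 18) (@Lb.g g8 (@Lb.g g9 (@Lb.g g10 (@Lb.r r1623 (@Lb.r r2345 (@Lb.r r2340 (@Lb.d (nat_lit 578) (nat_lit 106) (nat_lit 534) (@Lb.t (@Lb.fm (nat_lit 9) t632)))))))))))
noncomputable def l29579 : Lb := (@Lb.r r323 (@Lb.d (nat_lit 8) (nat_lit 353) (nat_lit 21) (@Lb.g g5 (@Lb.g g10 (@Lb.r r2339 (@Lb.r r2564 (@Lb.d (nat_lit 641) (nat_lit 106) (nat_lit 353) (@Lb.fp (nat_lit 3) t5361))))))))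
noncomputable def l29580 : Lb := (@Lb.r r2403 (@Lb.r r101 (@Lb.r r24 (@Lb.d (nat_lit 330) (nat_lit 521) (nat_lit 530) (@Lb.fp (nat_lit 1) t1172)))))
noncomputable def l29581 : Lb := (@Lb.d (nat_lit 328) (nat_lit 137) (nat_lit 144) (@Lb.r r2216 (@Lb.r r665 (@Lb.r r2391 (@Lb.g g6 (@Lb.g g5 (@Lb.g g4 (@Lb.d (nat_lit 146) (nat_lit 9) (nat_lit 1) (@Lb.r r387 (@Lb.t (@Lb.fm (nat_lit 9) t1751)))))))))))
noncomputable def l29582 : Lb := (@Lb.d (nat_lit 0) (nat_lit 274) (nat_lit 74) (@Lb.r r2323 (@Lb.r r2597 (@Lb.r r2132 (@Lb.r r1354 (@Lb.g g7 (@Lb.g g6 (@Lb.g g4 (@Lb.d (nat_lit 1) (nat_lit 0) (nat_lit 129) (@Lb.t (@Lb.fm (nat_lit 9) t1549)))))))))))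
noncomputable def l29583 : Lb := (@Lb.d (nat_lit 328) (nat_lit 614) (nat_lit 404) (@Lb.r r2645 (@Lb.r r535 (@Lb.r r328 (@Lb.g g7 (@Lb.g g6 (@Lb.g g5 (@Lb.d (nat_lit 100) (nat_lit 1) (nat_lit 150) (@Lb.r r388 (@Lb.t (@Lb.fp (nat_lit 9) t994)))))))))))
noncomputable def l29584 : Lb := (@Lb.d (nat_lit 4) (nat_lit 256) (nat_lit 130) (@Lb.g g8 (@Lb.g g9 (@Lb.g g10 (@Lb.g g11 (@Lb.r r1299 (@Lb.r r2666 (@Lb.r r612 (@Lb.r r533 (@Lb.r r2084 (@Lb.d (nat_lit 404) (nat_lit 89) (nat_lit 425) (@Lb.fp (nat_lit 9) t826))))))))))))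
noncomputable def l29585 : Lb := (@Lb.d (nat_lit 536) (nat_lit 529) (nat_lit 150) (@Lb.r r386 (@Lb.r r339 (@Lb.g g7 (@Lb.g g6 (@Lb.g g5 (@Lb.g g8 (@Lb.d (nat_lit 2) (nat_lit 129) (nat_lit 65) (@Lb.fp (nat_lit 9) t3104)))))))))
noncomputable def l29586 : Lb := (@Lb.d (nat_lit 681) (nat_lit 657) (nat_lit 321) (@Lb.r r1560 (@Lb.r r1307 (@Lb.g g6 (@Lb.g g9 (@Lb.g g4 (@Lb.d (nat_lit 70) (nat_lit 16) (nat_lit 41) (@Lb.t (@Lb.fp (nat_lit 9) t1537)))))))))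
noncomputable def l29587 : Lb := (@Lb.r r21 (@Lb.r r70 (@Lb.r r263 (@Lb.d (nat_lit 2) (nat_lit 256) (nat_lit 0) (@Lb.g g4 (@Lb.r r2631 (@Lb.r r402 (@Lb.r r97 (@Lb.d (nat_lit 262) (nat_lit 0) (nat_lit 0) (@Lb.t (@Lb.fp (nat_lit 3) t739)))))))))))
noncomputable def l29588 : Lb := (@Lb.d (nat_lit 6) (nat_lit 517) (nat_lit 522) (@Lb.r r2138 (@Lb.r r324 (@Lb.r r667 (@Lb.r r2405 (@Lb.g g7 (@Lb.g g6 (@Lb.d (nat_lit 0) (nat_lit 0) (nat_lit 65) (@Lb.fm (nat_lit 3) t5362)))))))))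
noncomputable def l29589 : Lb := (@Lb.d (nat_lit 73) (nat_lit 545) (nat_lit 0) (@Lb.r r1284 (@Lb.r r2138 (@Lb.r r2587 (@Lb.r r293 (@Lb.g g7 (@Lb.d (nat_lit 0) (nat_lit 0) (nat_lit 64) (@Lb.t (@Lb.fm (nat_lit 3) t199)))))))))
noncomputable def l29590 : Lb := (@Lb.r r21 (@Lb.d (nat_lit 2) (nat_lit 256) (nat_lit 0) (@Lb.g g8 (@Lb.g g11 (@Lb.r r1626 (@Lb.r r1429 (@Lb.r r2632 (@Lb.d (nat_lit 657) (nat_lit 128) (nat_lit 394) (@Lb.fp (nat_lit 3) t5363)))))))))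
noncomputable def l29591 : Lb := (@Lb.d (nat_lit 24) (nat_lit 521) (nat_lit 8) (@Lb.g g9 (@Lb.g g6 (@Lb.r r1284 (@Lb.r r2459 (@Lb.r r613 (@Lb.d (nat_lit 5) (nat_lit 72) (nat_lit 170) (@Lb.fm (nat_lit 3) t199))))))))
noncomputable def l29592 : Lb := (@Lb.d (nat_lit 0) (nat_lit 258) (nat_lit 73) (@Lb.g g9 (@Lb.g g10 (@Lb.g g11 (@Lb.r r651 (@Lb.r r644 (@Lb.r r2214 (@Lb.r r2337 (@Lb.d (nat_lit 409) (nat_lit 106) (nat_lit 97) (@Lb.t (@Lb.fp (nat_lit 9) t5364)))))))))))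
noncomputable def l29593 : Lb := (@Lb.d (nat_lit 104) (nat_lit 289) (nat_lit 66) (@Lb.g g8 (@Lb.g g9 (@Lb.g g10 (@Lb.g g11 (@Lb.r r2217 (@Lb.r r610 (@Lb.r r1603 (@Lb.r r584 (@Lb.d (nat_lit 641) (nat_lit 96) (nat_lit 278) (@Lb.fm (nat_lit 9) t5365)))))))))))
noncomputable def l29594 : Lb := (@Lb.d (nat_lit 0) (nat_lit 514) (nat_lit 130) (@Lb.g g9 (@Lb.g g10 (@Lb.g g11 (@Lb.r r2722 (@Lb.r r1544 (@Lb.r r427 (@Lb.r r2337 (@Lb.d (nat_lit 641) (nat_lit 64) (nat_lit 362) (@Lb.t (@Lb.fp (nat_lit 9) t5366)))))))))))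
noncomputable def l29595 : Lb := (@Lb.r r21 (@Lb.r r331 (@Lb.d (nat_lit 33) (nat_lit 512) (nat_lit 21) (@Lb.g g8 (@Lb.g g10 (@Lb.r r1547 (@Lb.r r1429 (@Lb.r r1352 (@Lb.d (nat_lit 337) (nat_lit 0) (nat_lit 592) (@Lb.fm (nat_lit 3) t5284))))))))))
noncomputable def l29596 : Lb := (@Lb.d (nat_lit 128) (nat_lit 0) (nat_lit 64) (@Lb.g g11 (@Lb.r r134 (@Lb.r r264 (@Lb.r r599 (@Lb.r r289 (@Lb.d (nat_lit 346) (nat_lit 74) (nat_lit 514) (@Lb.t (@Lb.fp (nat_lit 3) t1449)))))))))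
noncomputable def l29597 : Lb := (@Lb.d (nat_lit 8) (nat_lit 264) (nat_lit 66) (@Lb.g g8 (@Lb.g g10 (@Lb.g g11 (@Lb.r r353 (@Lb.r r407 (@Lb.r r612 (@Lb.r r154 (@Lb.d (nat_lit 258) (nat_lit 10) (nat_lit 36) (@Lb.t (@Lb.fm (nat_lit 9) t127)))))))))))
noncomputable def l29598 : Lb := (@Lb.d (nat_lit 33) (nat_lit 258) (nat_lit 73) (@Lb.g g8 (@Lb.g g9 (@Lb.g g10 (@Lb.g g11 (@Lb.r r2721 (@Lb.r r2343 (@Lb.r r330 (@Lb.r r1540 (@Lb.d (nat_lit 90) (nat_lit 100) (nat_lit 602) (@Lb.fm (nat_lit 9) t5367)))))))))))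
noncomputable def l29599 : Lb := (@Lb.r r82 (@Lb.d (nat_lit 34) (nat_lit 514) (nat_lit 0) (@Lb.g g8 (@Lb.g g9 (@Lb.r r1571 (@Lb.r r582 (@Lb.r r2089 (@Lb.r r420 (@Lb.d (nat_lit 130) (nat_lit 68) (nat_lit 676) (@Lb.fm (nat_lit 3) t5368))))))))))
noncomputable def l29600 : Lb := (@Lb.r r21 (@Lb.r r70 (@Lb.d (nat_lit 33) (nat_lit 0) (nat_lit 128) (@Lb.g g4 (@Lb.g g11 (@Lb.r r583 (@Lb.r r74 (@Lb.r r25 (@Lb.d (nat_lit 24) (nat_lit 128) (nat_lit 129) (@Lb.fm (nat_lit 3) t1435))))))))))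
noncomputable def l29601 : Lb := (@Lb.d (nat_lit 9) (nat_lit 514) (nat_lit 64) (@Lb.g g8 (@Lb.g g9 (@Lb.g g11 (@Lb.r r356 (@Lb.r r1307 (@Lb.r r2178 (@Lb.r r533 (@Lb.r r1060 (@Lb.d (nat_lit 656) (nat_lit 129) (nat_lit 584) (@Lb.t (@Lb.fp (nat_lit 9) t307))))))))))))
noncomputable def l29602 : Lb := (@Lb.d (nat_lit 9) (nat_lit 258) (nat_lit 74) (@Lb.g g8 (@Lb.g g9 (@Lb.g g10 (@Lb.g g11 (@Lb.r r1699 (@Lb.r r1193 (@Lb.r r424 (@Lb.r r106 (@Lb.d (nat_lit 421) (nat_lit 0) (nat_lit 602) (@Lb.fm (nat_lit 9) t228)))))))))))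
noncomputable def l29603 : Lb := (@Lb.d (nat_lit 9) (nat_lit 38) (nat_lit 64) (@Lb.g g8 (@Lb.g g9 (@Lb.g g10 (@Lb.g g11 (@Lb.r r342 (@Lb.r r663 (@Lb.r r2657 (@Lb.r r24 (@Lb.d (nat_lit 168) (nat_lit 89) (nat_lit 281) (@Lb.fm (nat_lit 9) t811)))))))))))
noncomputable def l29604 : Lb := (@Lb.r r331 (@Lb.d (nat_lit 32) (nat_lit 2) (nat_lit 2) (@Lb.g g8 (@Lb.g g9 (@Lb.g g10 (@Lb.r r2454 (@Lb.r r1371 (@Lb.r r549 (@Lb.r r2708 (@Lb.d (nat_lit 293) (nat_lit 101) (nat_lit 150) (@Lb.t (@Lb.fm (nat_lit 9) t163))))))))))))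
noncomputable def l29605 : Lb := (@Lb.d (nat_lit 9) (nat_lit 260) (nat_lit 73) (@Lb.g g8 (@Lb.g g10 (@Lb.g g11 (@Lb.r r657 (@Lb.r r411 (@Lb.r r1380 (@Lb.r r2202 (@Lb.d (nat_lit 41) (nat_lit 130) (nat_lit 144) (@Lb.t (@Lb.fp (nat_lit 9) t3035)))))))))))
noncomputable def l29606 : Lb := (@Lb.r r82 (@Lb.d (nat_lit 2) (nat_lit 2) (nat_lit 0) (@Lb.g g8 (@Lb.g g9 (@Lb.r r1642 (@Lb.r r1561 (@Lb.r r24 (@Lb.d (nat_lit 388) (nat_lit 18) (nat_lit 640) (@Lb.fp (nat_lit 3) t329)))))))))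
noncomputable def l29607 : Lb := (@Lb.d (nat_lit 2) (nat_lit 2) (nat_lit 73) (@Lb.g g8 (@Lb.g g9 (@Lb.g g10 (@Lb.g g11 (@Lb.r r1559 (@Lb.r r2474 (@Lb.r r97 (@Lb.r r24 (@Lb.d (nat_lit 296) (nat_lit 9) (nat_lit 89) (@Lb.fp (nat_lit 9) t1172)))))))))))
noncomputable def l29608 : Lb := (@Lb.r r331 (@Lb.d (nat_lit 37) (nat_lit 514) (nat_lit 2) (@Lb.g g8 (@Lb.g g9 (@Lb.g g10 (@Lb.r r1430 (@Lb.r r347 (@Lb.r r1573 (@Lb.r r2708 (@Lb.d (nat_lit 554) (nat_lit 102) (nat_lit 390) (@Lb.t (@Lb.fm (nat_lit 9) t163))))))))))))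
noncomputable def l29609 : Lb := (@Lb.d (nat_lit 0) (nat_lit 513) (nat_lit 4) (@Lb.g g8 (@Lb.g g9 (@Lb.g g10 (@Lb.g g11 (@Lb.r r618 (@Lb.r r105 (@Lb.r r340 (@Lb.r r2587 (@Lb.r r2564 (@Lb.d (nat_lit 0) (nat_lit 25) (nat_lit 642) (@Lb.fp (nat_lit 9) t71))))))))))))
noncomputable def l29610 : Lb := (@Lb.r r21 (@Lb.d (nat_lit 2) (nat_lit 0) (nat_lit 2) (@Lb.g g8 (@Lb.g g10 (@Lb.g g11 (@Lb.r r2379 (@Lb.r r386 (@Lb.r r97 (@Lb.r r72 (@Lb.d (nat_lit 290) (nat_lit 10) (nat_lit 85) (@Lb.t (@Lb.fp (nat_lit 9) t61))))))))))))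
noncomputable def l29611 : Lb := (@Lb.d (nat_lit 26) (nat_lit 513) (nat_lit 0) (@Lb.g g8 (@Lb.g g9 (@Lb.g g10 (@Lb.g g7 (@Lb.r r1193 (@Lb.r r1188 (@Lb.r r390 (@Lb.d (nat_lit 97) (nat_lit 154) (nat_lit 9) (@Lb.fm (nat_lit 9) t2020))))))))))
noncomputable def l29612 : Lb := (@Lb.d (nat_lit 9) (nat_lit 258) (nat_lit 74) (@Lb.g g8 (@Lb.g g9 (@Lb.g g10 (@Lb.g g11 (@Lb.r r387 (@Lb.r r2146 (@Lb.r r2436 (@Lb.d (nat_lit 608) (nat_lit 18) (nat_lit 646) (@Lb.fp (nat_lit 9) t3153))))))))))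
noncomputable def l29613 : Lb := (@Lb.d (nat_lit 10) (nat_lit 677) (nat_lit 64) (@Lb.r r2657 (@Lb.g g7 (@Lb.g g10 (@Lb.g g5 (@Lb.d (nat_lit 0) (nat_lit 8) (nat_lit 166) (@Lb.t (@Lb.fp (nat_lit 9) t51))))))))
noncomputable def l29614 : Lb := (@Lb.r r21 (@Lb.d (nat_lit 536) (nat_lit 512) (nat_lit 0) (@Lb.g g8 (@Lb.g g10 (@Lb.r r1381 (@Lb.r r1683 (@Lb.r r1602 (@Lb.d (nat_lit 2) (nat_lit 10) (nat_lit 665) (@Lb.fm (nat_lit 3) t644)))))))))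
noncomputable def l29615 : Lb := (@Lb.d (nat_lit 8) (nat_lit 2) (nat_lit 72) (@Lb.g g9 (@Lb.g g11 (@Lb.r r402 (@Lb.r r579 (@Lb.d (nat_lit 2) (nat_lit 154) (nat_lit 265) (@Lb.fm (nat_lit 3) t51)))))))
noncomputable def l29616 : Lb := (@Lb.d (nat_lit 8) (nat_lit 514) (nat_lit 73) (@Lb.g g9 (@Lb.g g10 (@Lb.g g11 (@Lb.r r419 (@Lb.r r2466 (@Lb.d (nat_lit 2) (nat_lit 25) (nat_lit 649) (@Lb.t (@Lb.fp (nat_lit 9) t1545)))))))))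
noncomputable def l29617 : Lb := (@Lb.d (nat_lit 144) (nat_lit 2) (nat_lit 128) (@Lb.g g8 (@Lb.g g9 (@Lb.g g10 (@Lb.g g11 (@Lb.r r1706 (@Lb.r r1411 (@Lb.r r2201 (@Lb.r r2180 (@Lb.d (nat_lit 548) (nat_lit 152) (nat_lit 100) (@Lb.fm (nat_lit 9) t2228)))))))))))
noncomputable def l29618 : Lb := (@Lb.d (nat_lit 146) (nat_lit 514) (nat_lit 74) (@Lb.g g8 (@Lb.g g9 (@Lb.g g10 (@Lb.g g11 (@Lb.r r1706 (@Lb.r r1411 (@Lb.r r2201 (@Lb.r r2180 (@Lb.d (nat_lit 548) (nat_lit 152) (nat_lit 100) (@Lb.fm (nat_lit 9) t2228)))))))))))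
noncomputable def l29619 : Lb := (@Lb.d (nat_lit 394) (nat_lit 338) (nat_lit 640) (@Lb.r r1096 (@Lb.r r1686 (@Lb.r r2657 (@Lb.r r2691 (@Lb.g g7 (@Lb.g g6 (@Lb.g g5 (@Lb.d (nat_lit 0) (nat_lit 0) (nat_lit 65) (@Lb.t (@Lb.fp (nat_lit 9) t4855)))))))))))
noncomputable def l29620 : Lb := (@Lb.d (nat_lit 144) (nat_lit 2) (nat_lit 74) (@Lb.g g8 (@Lb.g g9 (@Lb.g g10 (@Lb.g g11 (@Lb.r r683 (@Lb.r r2724 (@Lb.r r134 (@Lb.r r97 (@Lb.d (nat_lit 544) (nat_lit 164) (nat_lit 384) (@Lb.fm (nat_lit 9) t3913)))))))))))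
noncomputable def l29621 : Lb := (@Lb.d (nat_lit 512) (nat_lit 0) (nat_lit 256) (@Lb.r r1048 (@Lb.r r97 (@Lb.r r402 (@Lb.g g11 (@Lb.g g8 (@Lb.r r74 (@Lb.r r25 (@Lb.fp (nat_lit 3) t150)))))))))
noncomputable def l29622 : Lb := (@Lb.d (nat_lit 660) (nat_lit 658) (nat_lit 80) (@Lb.r r2321 (@Lb.r r2371 (@Lb.r r2726 (@Lb.g g6 (@Lb.g g5 (@Lb.g g8 (@Lb.d (nat_lit 266) (nat_lit 0) (nat_lit 0) (@Lb.r r391 (@Lb.t (@Lb.fp (nat_lit 9) t2379)))))))))))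
noncomputable def l29623 : Lb := (@Lb.d (nat_lit 2) (nat_lit 258) (nat_lit 73) (@Lb.g g8 (@Lb.g g9 (@Lb.g g10 (@Lb.g g11 (@Lb.r r2691 (@Lb.r r153 (@Lb.r r602 (@Lb.r r2193 (@Lb.d (nat_lit 673) (nat_lit 160) (nat_lit 105) (@Lb.fm (nat_lit 9) t466)))))))))))
noncomputable def l29624 : Lb := (@Lb.d (nat_lit 2) (nat_lit 514) (nat_lit 2) (@Lb.g g8 (@Lb.g g9 (@Lb.g g10 (@Lb.g g11 (@Lb.r r2722 (@Lb.r r387 (@Lb.r r2664 (@Lb.r r2585 (@Lb.d (nat_lit 325) (nat_lit 104) (nat_lit 162) (@Lb.fp (nat_lit 9) t5369)))))))))))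
noncomputable def l29625 : Lb := (@Lb.d (nat_lit 32) (nat_lit 512) (nat_lit 6) (@Lb.g g10 (@Lb.r r328 (@Lb.r r407 (@Lb.r r537 (@Lb.d (nat_lit 586) (nat_lit 164) (nat_lit 596) (@Lb.t (@Lb.fm (nat_lit 3) t822))))))))
noncomputable def l29626 : Lb := (@Lb.r r322 (@Lb.d (nat_lit 34) (nat_lit 289) (nat_lit 580) (@Lb.g g8 (@Lb.g g9 (@Lb.g g7 (@Lb.r r418 (@Lb.r r297 (@Lb.r r1384 (@Lb.d (nat_lit 404) (nat_lit 170) (nat_lit 293) (@Lb.t (@Lb.fm (nat_lit 9) t739)))))))))))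
noncomputable def l29627 : Lb := (@Lb.r r600 (@Lb.r r2587 (@Lb.r r2178 (@Lb.r r1429 (@Lb.r r1572 (@Lb.d (nat_lit 2) (nat_lit 5) (nat_lit 1) (@Lb.fm (nat_lit 1) t229)))))))
noncomputable def l29628 : Lb := (@Lb.r r21 (@Lb.d (nat_lit 144) (nat_lit 512) (nat_lit 64) (@Lb.g g8 (@Lb.g g10 (@Lb.g g11 (@Lb.r r2475 (@Lb.r r2344 (@Lb.r r1385 (@Lb.r r2198 (@Lb.d (nat_lit 289) (nat_lit 68) (nat_lit 33) (@Lb.t (@Lb.fp (nat_lit 9) t5))))))))))))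
noncomputable def l29629 : Lb := (@Lb.r r355 (@Lb.d (nat_lit 2) (nat_lit 9) (nat_lit 17) (@Lb.g g8 (@Lb.g g9 (@Lb.g g6 (@Lb.r r1643 (@Lb.r r601 (@Lb.d (nat_lit 105) (nat_lit 170) (nat_lit 649) (@Lb.t (@Lb.fm (nat_lit 9) t1397))))))))))
noncomputable def l29630 : Lb := (@Lb.r r323 (@Lb.d (nat_lit 136) (nat_lit 8) (nat_lit 34) (@Lb.g g8 (@Lb.g g10 (@Lb.r r615 (@Lb.r r533 (@Lb.r r2340 (@Lb.d (nat_lit 322) (nat_lit 106) (nat_lit 534) (@Lb.fp (nat_lit 3) t221)))))))))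
noncomputable def l29631 : Lb := (@Lb.d (nat_lit 2) (nat_lit 549) (nat_lit 548) (@Lb.r r1633 (@Lb.r r2403 (@Lb.g g10 (@Lb.g g5 (@Lb.g g8 (@Lb.d (nat_lit 322) (nat_lit 5) (nat_lit 18) (@Lb.t (@Lb.fm (nat_lit 9) t3352)))))))))
noncomputable def l29632 : Lb := (@Lb.r r355 (@Lb.d (nat_lit 2) (nat_lit 520) (nat_lit 17) (@Lb.g g8 (@Lb.g g9 (@Lb.g g6 (@Lb.r r2667 (@Lb.r r1625 (@Lb.d (nat_lit 617) (nat_lit 37) (nat_lit 280) (@Lb.t (@Lb.fm (nat_lit 9) t1541))))))))))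
noncomputable def l29633 : Lb := (@Lb.d (nat_lit 2) (nat_lit 521) (nat_lit 73) (@Lb.g g8 (@Lb.g g9 (@Lb.g g10 (@Lb.g g11 (@Lb.r r1666 (@Lb.r r2451 (@Lb.r r1553 (@Lb.d (nat_lit 2) (nat_lit 170) (nat_lit 400) (@Lb.fm (nat_lit 9) t1397))))))))))
noncomputable def l29634 : Lb := (@Lb.d (nat_lit 2) (nat_lit 9) (nat_lit 1) (@Lb.g g8 (@Lb.g g9 (@Lb.g g10 (@Lb.g g11 (@Lb.r r427 (@Lb.r r388 (@Lb.r r70 (@Lb.r r153 (@Lb.r r132 (@Lb.d (nat_lit 6) (nat_lit 72) (nat_lit 153) (@Lb.fp (nat_lit 9) t408))))))))))))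
noncomputable def l29635 : Lb := (@Lb.d (nat_lit 2) (nat_lit 264) (nat_lit 2) (@Lb.g g8 (@Lb.g g10 (@Lb.r r2579 (@Lb.r r2345 (@Lb.r r2468 (@Lb.r r2438 (@Lb.d (nat_lit 322) (nat_lit 5) (nat_lit 536) (@Lb.fp (nat_lit 3) t3156)))))))))
noncomputable def l29636 : Lb := (@Lb.d (nat_lit 32) (nat_lit 256) (nat_lit 2) (@Lb.g g10 (@Lb.r r2579 (@Lb.r r2341 (@Lb.r r72 (@Lb.r r150 (@Lb.d (nat_lit 518) (nat_lit 0) (nat_lit 64) (@Lb.t (@Lb.fp (nat_lit 3) t3156)))))))))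
noncomputable def l29637 : Lb := (@Lb.d (nat_lit 0) (nat_lit 96) (nat_lit 581) (@Lb.r r2323 (@Lb.r r2597 (@Lb.r r2132 (@Lb.r r1354 (@Lb.g g7 (@Lb.g g6 (@Lb.g g4 (@Lb.d (nat_lit 1) (nat_lit 0) (nat_lit 65) (@Lb.t (@Lb.fm (nat_lit 9) t5370)))))))))))
noncomputable def l29638 : Lb := (@Lb.d (nat_lit 2) (nat_lit 0) (nat_lit 2) (@Lb.g g8 (@Lb.g g9 (@Lb.g g10 (@Lb.r r515 (@Lb.r r1681 (@Lb.r r356 (@Lb.r r154 (@Lb.r r132 (@Lb.d (nat_lit 393) (nat_lit 18) (nat_lit 69) (@Lb.t (@Lb.fm (nat_lit 9) t1988))))))))))))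
noncomputable def l29639 : Lb := (@Lb.d (nat_lit 38) (nat_lit 360) (nat_lit 344) (@Lb.r r105 (@Lb.r r40 (@Lb.r r2375 (@Lb.g g7 (@Lb.g g6 (@Lb.g g5 (@Lb.d (nat_lit 32) (nat_lit 2) (nat_lit 97) (@Lb.t (@Lb.fp (nat_lit 9) t143))))))))))
noncomputable def l29640 : Lb := (@Lb.d (nat_lit 646) (nat_lit 342) (nat_lit 82) (@Lb.r r1301 (@Lb.r r1366 (@Lb.r r683 (@Lb.g g6 (@Lb.g g5 (@Lb.g g4 (@Lb.d (nat_lit 8) (nat_lit 5) (nat_lit 2) (@Lb.t (@Lb.fm (nat_lit 9) t578))))))))))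
noncomputable def l29641 : Lb := (@Lb.r r21 (@Lb.d (nat_lit 1) (nat_lit 512) (nat_lit 130) (@Lb.g g8 (@Lb.g g10 (@Lb.g g11 (@Lb.r r347 (@Lb.r r386 (@Lb.r r1112 (@Lb.r r37 (@Lb.d (nat_lit 536) (nat_lit 68) (nat_lit 168) (@Lb.t (@Lb.fp (nat_lit 9) t61))))))))))))
noncomputable def l29642 : Lb := (@Lb.d (nat_lit 8) (nat_lit 1) (nat_lit 73) (@Lb.g g8 (@Lb.g g9 (@Lb.g g10 (@Lb.g g11 (@Lb.r r1699 (@Lb.r r164 (@Lb.r r2709 (@Lb.r r2198 (@Lb.r r2084 (@Lb.d (nat_lit 289) (nat_lit 162) (nat_lit 292) (@Lb.fp (nat_lit 9) t791))))))))))))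
noncomputable def l29643 : Lb := (@Lb.d (nat_lit 9) (nat_lit 260) (nat_lit 74) (@Lb.g g8 (@Lb.g g5 (@Lb.g g10 (@Lb.g g11 (@Lb.r r1691 (@Lb.r r1610 (@Lb.d (nat_lit 102) (nat_lit 153) (nat_lit 665) (@Lb.fp (nat_lit 9) t50)))))))))
noncomputable def l29644 : Lb := (@Lb.d (nat_lit 272) (nat_lit 257) (nat_lit 17) (@Lb.r r70 (@Lb.r r392 (@Lb.r r599 (@Lb.g g6 (@Lb.g g5 (@Lb.g g4 (@Lb.d (nat_lit 1) (nat_lit 17) (nat_lit 1) (@Lb.r r387 (@Lb.t (@Lb.fp (nat_lit 9) t791)))))))))))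
noncomputable def l29645 : Lb := (@Lb.r r70 (@Lb.d (nat_lit 130) (nat_lit 513) (nat_lit 64) (@Lb.g g8 (@Lb.g g9 (@Lb.g g11 (@Lb.r r1563 (@Lb.r r1410 (@Lb.r r1169 (@Lb.r r84 (@Lb.d (nat_lit 677) (nat_lit 165) (nat_lit 664) (@Lb.t (@Lb.fm (nat_lit 9) t152))))))))))))
noncomputable def l29646 : Lb := (@Lb.g g7 (@Lb.r r402 (@Lb.r r24 (@Lb.r r101 (@Lb.d (nat_lit 320) (nat_lit 586) (nat_lit 338) (@Lb.t (@Lb.fp (nat_lit 3) t1628)))))))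
noncomputable def l29647 : Lb := (@Lb.d (nat_lit 133) (nat_lit 597) (nat_lit 64) (@Lb.r r536 (@Lb.r r411 (@Lb.r r661 (@Lb.g g6 (@Lb.g g5 (@Lb.g g4 (@Lb.d (nat_lit 80) (nat_lit 1) (nat_lit 1) (@Lb.r r391 (@Lb.t (@Lb.fm (nat_lit 9) t68)))))))))))
noncomputable def l29648 : Lb := (@Lb.d (nat_lit 1) (nat_lit 322) (nat_lit 66) (@Lb.g g8 (@Lb.g g9 (@Lb.g g10 (@Lb.g g11 (@Lb.r r419 (@Lb.r r386 (@Lb.r r2152 (@Lb.d (nat_lit 538) (nat_lit 164) (nat_lit 128) (@Lb.fp (nat_lit 9) t4450))))))))))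
noncomputable def l29649 : Lb := (@Lb.d (nat_lit 289) (nat_lit 257) (nat_lit 150) (@Lb.r r24 (@Lb.r r2458 (@Lb.r r1575 (@Lb.g g7 (@Lb.g g6 (@Lb.g g5 (@Lb.d (nat_lit 4) (nat_lit 1) (nat_lit 6) (@Lb.t (@Lb.fm (nat_lit 9) t1221))))))))))
noncomputable def l29650 : Lb := (@Lb.d (nat_lit 130) (nat_lit 425) (nat_lit 297) (@Lb.r r537 (@Lb.r r596 (@Lb.r r602 (@Lb.r r2643 (@Lb.g g6 (@Lb.g g5 (@Lb.g g4 (@Lb.d (nat_lit 69) (nat_lit 34) (nat_lit 1) (@Lb.t (@Lb.fm (nat_lit 9) t71)))))))))))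
noncomputable def l29651 : Lb := (@Lb.d (nat_lit 128) (nat_lit 264) (nat_lit 74) (@Lb.g g10 (@Lb.g g11 (@Lb.r r1369 (@Lb.r r280 (@Lb.r r551 (@Lb.r r2186 (@Lb.d (nat_lit 648) (nat_lit 32) (nat_lit 425) (@Lb.fp (nat_lit 3) t508)))))))))
noncomputable def l29652 : Lb := (@Lb.r r21 (@Lb.d (nat_lit 24) (nat_lit 256) (nat_lit 64) (@Lb.g g8 (@Lb.g g10 (@Lb.g g11 (@Lb.r r1575 (@Lb.r r1114 (@Lb.r r1685 (@Lb.r r1124 (@Lb.d (nat_lit 282) (nat_lit 64) (nat_lit 650) (@Lb.t (@Lb.fp (nat_lit 9) t644))))))))))))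
noncomputable def l29653 : Lb := (@Lb.d (nat_lit 82) (nat_lit 2) (nat_lit 73) (@Lb.g g8 (@Lb.g g9 (@Lb.g g10 (@Lb.g g11 (@Lb.r r419 (@Lb.r r1610 (@Lb.r r1193 (@Lb.r r2600 (@Lb.d (nat_lit 677) (nat_lit 153) (nat_lit 162) (@Lb.fp (nat_lit 9) t5371)))))))))))
noncomputable def l29654 : Lb := (@Lb.d (nat_lit 288) (nat_lit 513) (nat_lit 150) (@Lb.r r24 (@Lb.r r2458 (@Lb.r r1575 (@Lb.g g7 (@Lb.g g6 (@Lb.g g5 (@Lb.d (nat_lit 4) (nat_lit 1) (nat_lit 6) (@Lb.t (@Lb.fm (nat_lit 9) t1221))))))))))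
noncomputable def l29655 : Lb := (@Lb.r r580 (@Lb.r r593 (@Lb.d (nat_lit 64) (nat_lit 512) (nat_lit 338) (@Lb.g g10 (@Lb.g g7 (@Lb.r r1304 (@Lb.r r2085 (@Lb.d (nat_lit 0) (nat_lit 72) (nat_lit 33) (@Lb.fp (nat_lit 3) t644)))))))))
noncomputable def l29656 : Lb := (@Lb.d (nat_lit 128) (nat_lit 24) (nat_lit 161) (@Lb.g g6 (@Lb.g g11 (@Lb.r r1557 (@Lb.r r1416 (@Lb.d (nat_lit 16) (nat_lit 128) (nat_lit 145) (@Lb.fm (nat_lit 3) t3333)))))))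
noncomputable def l29657 : Lb := (@Lb.d (nat_lit 644) (nat_lit 20) (nat_lit 257) (@Lb.r r21 (@Lb.r r100 (@Lb.r r394 (@Lb.g g11 (@Lb.g g6 (@Lb.g g4 (@Lb.d (nat_lit 18) (nat_lit 0) (nat_lit 70) (@Lb.r r25 (@Lb.t (@Lb.fp (nat_lit 9) t5372)))))))))))
noncomputable def l29658 : Lb := (@Lb.r r260 (@Lb.d (nat_lit 68) (nat_lit 258) (nat_lit 578) (@Lb.g g9 (@Lb.g g10 (@Lb.g g7 (@Lb.r r2644 (@Lb.r r1690 (@Lb.r r2385 (@Lb.d (nat_lit 265) (nat_lit 97) (nat_lit 325) (@Lb.t (@Lb.fm (nat_lit 9) t728)))))))))))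
noncomputable def l29659 : Lb := (@Lb.d (nat_lit 0) (nat_lit 33) (nat_lit 513) (@Lb.r r1284 (@Lb.r r1297 (@Lb.r r579 (@Lb.g g6 (@Lb.d (nat_lit 0) (nat_lit 8) (nat_lit 21) (@Lb.t (@Lb.fp (nat_lit 3) t4599))))))))
noncomputable def l29660 : Lb := (@Lb.d (nat_lit 2) (nat_lit 514) (nat_lit 66) (@Lb.g g8 (@Lb.g g9 (@Lb.g g10 (@Lb.g g7 (@Lb.r r297 (@Lb.r r136 (@Lb.r r154 (@Lb.r r132 (@Lb.d (nat_lit 533) (nat_lit 20) (nat_lit 617) (@Lb.fp (nat_lit 9) t2706)))))))))))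
noncomputable def l29661 : Lb := (@Lb.r r20 (@Lb.r r275 (@Lb.d (nat_lit 32) (nat_lit 1) (nat_lit 2) (@Lb.g g5 (@Lb.g g10 (@Lb.r r2579 (@Lb.r r100 (@Lb.r r602 (@Lb.d (nat_lit 361) (nat_lit 6) (nat_lit 138) (@Lb.fm (nat_lit 3) t728))))))))))
noncomputable def l29662 : Lb := (@Lb.r r21 (@Lb.r r263 (@Lb.d (nat_lit 33) (nat_lit 520) (nat_lit 2) (@Lb.g g8 (@Lb.g g10 (@Lb.r r1427 (@Lb.r r1125 (@Lb.r r1048 (@Lb.d (nat_lit 261) (nat_lit 2) (nat_lit 2) (@Lb.fm (nat_lit 3) t894))))))))))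
noncomputable def l29663 : Lb := (@Lb.d (nat_lit 549) (nat_lit 4) (nat_lit 33) (@Lb.r r1109 (@Lb.r r1190 (@Lb.r r2392 (@Lb.r r1703 (@Lb.g g7 (@Lb.g g6 (@Lb.g g5 (@Lb.d (nat_lit 4) (nat_lit 6) (nat_lit 132) (@Lb.t (@Lb.fm (nat_lit 9) t51)))))))))))
noncomputable def l29664 : Lb := (@Lb.r r82 (@Lb.d (nat_lit 134) (nat_lit 272) (nat_lit 0) (@Lb.g g8 (@Lb.g g9 (@Lb.g g11 (@Lb.r r2659 (@Lb.r r386 (@Lb.r r1065 (@Lb.r r264 (@Lb.d (nat_lit 329) (nat_lit 18) (nat_lit 338) (@Lb.t (@Lb.fm (nat_lit 9) t3730))))))))))))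
noncomputable def l29665 : Lb := (@Lb.d (nat_lit 0) (nat_lit 548) (nat_lit 10) (@Lb.g g9 (@Lb.g g10 (@Lb.g g11 (@Lb.r r2726 (@Lb.r r2435 (@Lb.r r1112 (@Lb.r r2085 (@Lb.d (nat_lit 361) (nat_lit 66) (nat_lit 325) (@Lb.t (@Lb.fp (nat_lit 9) t750)))))))))))
noncomputable def l29666 : Lb := (@Lb.d (nat_lit 40) (nat_lit 169) (nat_lit 646) (@Lb.r r168 (@Lb.r r89 (@Lb.r r386 (@Lb.g g11 (@Lb.g g6 (@Lb.g g4 (@Lb.d (nat_lit 4) (nat_lit 0) (nat_lit 1) (@Lb.t (@Lb.fm (nat_lit 9) t5373))))))))))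
noncomputable def l29667 : Lb := (@Lb.d (nat_lit 18) (nat_lit 2) (nat_lit 0) (@Lb.g g8 (@Lb.g g9 (@Lb.g g10 (@Lb.r r683 (@Lb.r r1689 (@Lb.r r1688 (@Lb.r r586 (@Lb.d (nat_lit 97) (nat_lit 162) (nat_lit 530) (@Lb.t (@Lb.fm (nat_lit 9) t5374)))))))))))
noncomputable def l29668 : Lb := (@Lb.d (nat_lit 2) (nat_lit 512) (nat_lit 0) (@Lb.g g8 (@Lb.r r101 (@Lb.d (nat_lit 36) (nat_lit 81) (nat_lit 298) (@Lb.t (@Lb.fm (nat_lit 3) t153))))))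
noncomputable def l29669 : Lb := (@Lb.r r331 (@Lb.d (nat_lit 5) (nat_lit 0) (nat_lit 18) (@Lb.g g8 (@Lb.g g9 (@Lb.g g6 (@Lb.r r2667 (@Lb.r r2393 (@Lb.r r600 (@Lb.d (nat_lit 105) (nat_lit 26) (nat_lit 277) (@Lb.t (@Lb.fp (nat_lit 9) t4339)))))))))))
noncomputable def l29670 : Lb := (@Lb.d (nat_lit 2) (nat_lit 2) (nat_lit 0) (@Lb.g g8 (@Lb.g g9 (@Lb.r r2585 (@Lb.d (nat_lit 644) (nat_lit 169) (nat_lit 578) (@Lb.fm (nat_lit 3) t1410))))))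
noncomputable def l29671 : Lb := (@Lb.r r82 (@Lb.r r275 (@Lb.d (nat_lit 2) (nat_lit 677) (nat_lit 0) (@Lb.g g8 (@Lb.g g5 (@Lb.r r291 (@Lb.r r386 (@Lb.r r24 (@Lb.d (nat_lit 0) (nat_lit 129) (nat_lit 514) (@Lb.fp (nat_lit 3) t1830))))))))))
noncomputable def l29672 : Lb := (@Lb.r r283 (@Lb.d (nat_lit 657) (nat_lit 0) (nat_lit 2) (@Lb.g g8 (@Lb.g g9 (@Lb.g g10 (@Lb.r r1699 (@Lb.r r161 (@Lb.r r422 (@Lb.d (nat_lit 532) (nat_lit 149) (nat_lit 261) (@Lb.t (@Lb.fp (nat_lit 9) t1144)))))))))))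
noncomputable def l29673 : Lb := (@Lb.d (nat_lit 1) (nat_lit 165) (nat_lit 294) (@Lb.r r21 (@Lb.r r1366 (@Lb.r r683 (@Lb.g g6 (@Lb.g g5 (@Lb.g g4 (@Lb.d (nat_lit 8) (nat_lit 10) (nat_lit 0) (@Lb.t (@Lb.fm (nat_lit 9) t40))))))))))
noncomputable def l29674 : Lb := (@Lb.r r82 (@Lb.d (nat_lit 9) (nat_lit 513) (nat_lit 0) (@Lb.g g8 (@Lb.g g9 (@Lb.r r1561 (@Lb.r r595 (@Lb.r r386 (@Lb.r r24 (@Lb.d (nat_lit 593) (nat_lit 6) (nat_lit 529) (@Lb.fp (nat_lit 3) t3823))))))))))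
noncomputable def l29675 : Lb := (@Lb.d (nat_lit 105) (nat_lit 33) (nat_lit 73) (@Lb.g g8 (@Lb.g g9 (@Lb.g g10 (@Lb.g g11 (@Lb.r r1706 (@Lb.r r1411 (@Lb.r r1188 (@Lb.r r2085 (@Lb.d (nat_lit 105) (nat_lit 85) (nat_lit 390) (@Lb.fp (nat_lit 9) t4985)))))))))))
noncomputable def l29676 : Lb := (@Lb.r r580 (@Lb.r r593 (@Lb.d (nat_lit 128) (nat_lit 520) (nat_lit 66) (@Lb.g g6 (@Lb.g g11 (@Lb.r r388 (@Lb.r r667 (@Lb.r r33 (@Lb.d (nat_lit 84) (nat_lit 24) (nat_lit 132) (@Lb.fp (nat_lit 3) t74))))))))))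
noncomputable def l29677 : Lb := (@Lb.r r277 (@Lb.r r326 (@Lb.d (nat_lit 160) (nat_lit 528) (nat_lit 648) (@Lb.g g8 (@Lb.g g11 (@Lb.r r402 (@Lb.r r2661 (@Lb.d (nat_lit 281) (nat_lit 24) (nat_lit 409) (@Lb.fm (nat_lit 3) t2436)))))))))
noncomputable def l29678 : Lb := (@Lb.d (nat_lit 9) (nat_lit 553) (nat_lit 1) (@Lb.g g8 (@Lb.g g9 (@Lb.g g10 (@Lb.r r170 (@Lb.r r1444 (@Lb.r r2331 (@Lb.r r549 (@Lb.d (nat_lit 133) (nat_lit 80) (nat_lit 5) (@Lb.t (@Lb.fm (nat_lit 9) t428)))))))))))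
noncomputable def l29679 : Lb := (@Lb.d (nat_lit 34) (nat_lit 514) (nat_lit 73) (@Lb.g g8 (@Lb.g g9 (@Lb.g g10 (@Lb.g g11 (@Lb.r r2658 (@Lb.r r579 (@Lb.r r1561 (@Lb.r r1540 (@Lb.d (nat_lit 581) (nat_lit 97) (nat_lit 266) (@Lb.fm (nat_lit 9) t3094)))))))))))
noncomputable def l29680 : Lb := (@Lb.r r70 (@Lb.d (nat_lit 9) (nat_lit 32) (nat_lit 0) (@Lb.g g8 (@Lb.g g5 (@Lb.r r1611 (@Lb.r r1604 (@Lb.r r410 (@Lb.d (nat_lit 0) (nat_lit 22) (nat_lit 337) (@Lb.fp (nat_lit 3) t2490)))))))))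
noncomputable def l29681 : Lb := (@Lb.d (nat_lit 4) (nat_lit 6) (nat_lit 0) (@Lb.g g5 (@Lb.d (nat_lit 293) (nat_lit 1) (nat_lit 32) (@Lb.t (@Lb.fm (nat_lit 3) t743)))))
noncomputable def l29682 : Lb := (@Lb.r r70 (@Lb.d (nat_lit 164) (nat_lit 576) (nat_lit 128) (@Lb.g g8 (@Lb.g g9 (@Lb.g g11 (@Lb.r r2315 (@Lb.r r2198 (@Lb.r r2120 (@Lb.d (nat_lit 70) (nat_lit 128) (nat_lit 8) (@Lb.t (@Lb.fm (nat_lit 9) t5375)))))))))))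
noncomputable def l29683 : Lb := (@Lb.d (nat_lit 4) (nat_lit 36) (nat_lit 128) (@Lb.g g8 (@Lb.g g9 (@Lb.g g10 (@Lb.g g11 (@Lb.r r425 (@Lb.r r2647 (@Lb.r r346 (@Lb.r r2129 (@Lb.r r2436 (@Lb.d (nat_lit 105) (nat_lit 1) (nat_lit 154) (@Lb.fp (nat_lit 9) t5331))))))))))))
noncomputable def l29684 : Lb := (@Lb.d (nat_lit 388) (nat_lit 64) (nat_lit 581) (@Lb.r r2453 (@Lb.r r2148 (@Lb.r r402 (@Lb.r r1291 (@Lb.g g11 (@Lb.t (@Lb.fm (nat_lit 3) t5376))))))))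
noncomputable def l29685 : Lb := (@Lb.r r1045 (@Lb.r r584 (@Lb.r r358 (@Lb.r r132 (@Lb.d (nat_lit 5) (nat_lit 338) (nat_lit 592) (@Lb.fm (nat_lit 1) t430))))))
noncomputable def l29686 : Lb := (@Lb.d (nat_lit 2) (nat_lit 294) (nat_lit 0) (@Lb.g g8 (@Lb.g g9 (@Lb.g g10 (@Lb.r r2571 (@Lb.r r1188 (@Lb.r r2438 (@Lb.d (nat_lit 576) (nat_lit 153) (nat_lit 650) (@Lb.t (@Lb.fm (nat_lit 9) t5377))))))))))
noncomputable def l29687 : Lb := (@Lb.r r1045 (@Lb.r r584 (@Lb.r r358 (@Lb.r r132 (@Lb.d (nat_lit 5) (nat_lit 601) (nat_lit 594) (@Lb.fm (nat_lit 1) t430))))))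
noncomputable def l29688 : Lb := (@Lb.d (nat_lit 553) (nat_lit 390) (nat_lit 32) (@Lb.r r1126 (@Lb.g g8 (@Lb.d (nat_lit 9) (nat_lit 0) (nat_lit 0) (@Lb.t (@Lb.fp (nat_lit 3) t5378))))))
noncomputable def l29689 : Lb := (@Lb.d (nat_lit 324) (nat_lit 69) (nat_lit 320) (@Lb.r r2308 (@Lb.r r1307 (@Lb.r r2657 (@Lb.g g7 (@Lb.g g10 (@Lb.g g5 (@Lb.g g4 (@Lb.d (nat_lit 18) (nat_lit 8) (nat_lit 134) (@Lb.fp (nat_lit 9) t5379))))))))))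
noncomputable def l29690 : Lb := (@Lb.d (nat_lit 2) (nat_lit 514) (nat_lit 130) (@Lb.g g8 (@Lb.g g9 (@Lb.g g10 (@Lb.g g11 (@Lb.r r427 (@Lb.r r145 (@Lb.r r356 (@Lb.r r154 (@Lb.r r132 (@Lb.d (nat_lit 8) (nat_lit 9) (nat_lit 153) (@Lb.fm (nat_lit 9) t221))))))))))))
noncomputable def l29691 : Lb := (@Lb.d (nat_lit 0) (nat_lit 260) (nat_lit 0) (@Lb.g g8 (@Lb.g g9 (@Lb.g g10 (@Lb.r r145 (@Lb.r r2458 (@Lb.r r579 (@Lb.r r2564 (@Lb.d (nat_lit 266) (nat_lit 16) (nat_lit 0) (@Lb.t (@Lb.fm (nat_lit 9) t5380)))))))))))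
noncomputable def l29692 : Lb := (@Lb.g g9 (@Lb.r r2458 (@Lb.r r1045 (@Lb.r r2436 (@Lb.d (nat_lit 256) (nat_lit 514) (nat_lit 85) (@Lb.t (@Lb.fm (nat_lit 3) t4032)))))))
noncomputable def l29693 : Lb := (@Lb.r r1045 (@Lb.d (nat_lit 2) (nat_lit 256) (nat_lit 130) (@Lb.g g8 (@Lb.g g10 (@Lb.g g11 (@Lb.r r395 (@Lb.r r410 (@Lb.r r388 (@Lb.d (nat_lit 360) (nat_lit 137) (nat_lit 18) (@Lb.t (@Lb.fp (nat_lit 9) t5381)))))))))))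
noncomputable def l29694 : Lb := (@Lb.g g9 (@Lb.r r2458 (@Lb.r r1045 (@Lb.r r2436 (@Lb.d (nat_lit 261) (nat_lit 256) (nat_lit 85) (@Lb.t (@Lb.fm (nat_lit 3) t3153)))))))
noncomputable def l29695 : Lb := (@Lb.d (nat_lit 5) (nat_lit 512) (nat_lit 130) (@Lb.g g8 (@Lb.g g9 (@Lb.g g10 (@Lb.g g11 (@Lb.r r427 (@Lb.r r145 (@Lb.r r356 (@Lb.r r154 (@Lb.r r132 (@Lb.d (nat_lit 4) (nat_lit 8) (nat_lit 18) (@Lb.fm (nat_lit 9) t221))))))))))))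
noncomputable def l29696 : Lb := (@Lb.r r70 (@Lb.d (nat_lit 164) (nat_lit 517) (nat_lit 0) (@Lb.g g8 (@Lb.g g5 (@Lb.r r1415 (@Lb.r r2438 (@Lb.r r2648 (@Lb.d (nat_lit 681) (nat_lit 164) (nat_lit 170) (@Lb.fp (nat_lit 3) t412)))))))))
noncomputable def l29697 : Lb := (@Lb.d (nat_lit 34) (nat_lit 6) (nat_lit 73) (@Lb.g g8 (@Lb.g g9 (@Lb.g g10 (@Lb.g g11 (@Lb.r r1667 (@Lb.r r353 (@Lb.r r1178 (@Lb.r r388 (@Lb.d (nat_lit 33) (nat_lit 96) (nat_lit 586) (@Lb.fm (nat_lit 9) t68)))))))))))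
noncomputable def l29698 : Lb := (@Lb.r r70 (@Lb.d (nat_lit 36) (nat_lit 64) (nat_lit 128) (@Lb.g g8 (@Lb.g g9 (@Lb.g g11 (@Lb.r r2411 (@Lb.r r1174 (@Lb.r r72 (@Lb.d (nat_lit 273) (nat_lit 130) (nat_lit 152) (@Lb.t (@Lb.fm (nat_lit 9) t3619)))))))))))
noncomputable def l29699 : Lb := (@Lb.r r21 (@Lb.r r70 (@Lb.d (nat_lit 65) (nat_lit 256) (nat_lit 0) (@Lb.g g8 (@Lb.g g11 (@Lb.r r519 (@Lb.r r326 (@Lb.r r277 (@Lb.r r520 (@Lb.d (nat_lit 66) (nat_lit 5) (nat_lit 129) (@Lb.fm (nat_lit 3) t1599)))))))))))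
noncomputable def l29700 : Lb := (@Lb.d (nat_lit 2) (nat_lit 33) (nat_lit 66) (@Lb.g g8 (@Lb.g g9 (@Lb.g g10 (@Lb.g g11 (@Lb.r r2722 (@Lb.r r1415 (@Lb.r r1572 (@Lb.r r1685 (@Lb.d (nat_lit 420) (nat_lit 69) (nat_lit 293) (@Lb.fm (nat_lit 9) t5382)))))))))))
noncomputable def l29701 : Lb := (@Lb.d (nat_lit 2) (nat_lit 2) (nat_lit 66) (@Lb.g g8 (@Lb.g g9 (@Lb.g g10 (@Lb.g g7 (@Lb.r r2466 (@Lb.r r292 (@Lb.r r405 (@Lb.r r2084 (@Lb.d (nat_lit 613) (nat_lit 154) (nat_lit 281) (@Lb.fp (nat_lit 9) t5383)))))))))))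
noncomputable def l29702 : Lb := (@Lb.d (nat_lit 602) (nat_lit 357) (nat_lit 410) (@Lb.r r97 (@Lb.r r579 (@Lb.r r1366 (@Lb.g g7 (@Lb.g g6 (@Lb.g g4 (@Lb.d (nat_lit 17) (nat_lit 0) (nat_lit 65) (@Lb.r r25 (@Lb.t (@Lb.fp (nat_lit 9) t5193)))))))))))
noncomputable def l29703 : Lb := (@Lb.r r82 (@Lb.d (nat_lit 2) (nat_lit 273) (nat_lit 0) (@Lb.g g8 (@Lb.g g9 (@Lb.g g11 (@Lb.r r2587 (@Lb.r r1362 (@Lb.r r2593 (@Lb.d (nat_lit 514) (nat_lit 82) (nat_lit 384) (@Lb.t (@Lb.fm (nat_lit 9) t4455)))))))))))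
noncomputable def l29704 : Lb := (@Lb.d (nat_lit 642) (nat_lit 260) (nat_lit 658) (@Lb.r r386 (@Lb.r r2567 (@Lb.r r1368 (@Lb.g g7 (@Lb.g g9 (@Lb.d (nat_lit 8) (nat_lit 128) (nat_lit 128) (@Lb.r r98 (@Lb.r r36 (@Lb.fm (nat_lit 3) t3708))))))))))
noncomputable def l29705 : Lb := (@Lb.d (nat_lit 673) (nat_lit 528) (nat_lit 528) (@Lb.r r276 (@Lb.r r2710 (@Lb.r r1387 (@Lb.r r1381 (@Lb.g g7 (@Lb.g g6 (@Lb.g g4 (@Lb.d (nat_lit 5) (nat_lit 0) (nat_lit 134) (@Lb.t (@Lb.fp (nat_lit 9) t606)))))))))))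
noncomputable def l29706 : Lb := (@Lb.r r323 (@Lb.d (nat_lit 137) (nat_lit 256) (nat_lit 21) (@Lb.g g8 (@Lb.g g10 (@Lb.r r661 (@Lb.r r1431 (@Lb.r r2632 (@Lb.d (nat_lit 88) (nat_lit 68) (nat_lit 273) (@Lb.fp (nat_lit 3) t2689)))))))))
noncomputable def l29707 : Lb := (@Lb.d (nat_lit 129) (nat_lit 2) (nat_lit 66) (@Lb.g g8 (@Lb.g g9 (@Lb.g g10 (@Lb.g g11 (@Lb.r r2666 (@Lb.r r612 (@Lb.r r1319 (@Lb.r r405 (@Lb.r r2084 (@Lb.d (nat_lit 617) (nat_lit 137) (nat_lit 169) (@Lb.fp (nat_lit 9) t1039))))))))))))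
noncomputable def l29708 : Lb := (@Lb.d (nat_lit 25) (nat_lit 257) (nat_lit 0) (@Lb.g g8 (@Lb.g g9 (@Lb.g g10 (@Lb.r r683 (@Lb.r r1686 (@Lb.r r169 (@Lb.r r148 (@Lb.d (nat_lit 33) (nat_lit 72) (nat_lit 258) (@Lb.t (@Lb.fp (nat_lit 9) t531)))))))))))
noncomputable def l29709 : Lb := (@Lb.d (nat_lit 153) (nat_lit 289) (nat_lit 66) (@Lb.g g8 (@Lb.g g9 (@Lb.g g10 (@Lb.g g11 (@Lb.r r2731 (@Lb.r r2724 (@Lb.r r1190 (@Lb.r r2193 (@Lb.d (nat_lit 521) (nat_lit 9) (nat_lit 681) (@Lb.fp (nat_lit 9) t3406)))))))))))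
noncomputable def l29710 : Lb := (@Lb.r r331 (@Lb.d (nat_lit 32) (nat_lit 265) (nat_lit 1) (@Lb.g g8 (@Lb.g g9 (@Lb.g g10 (@Lb.r r1579 (@Lb.r r386 (@Lb.r r2657 (@Lb.r r2584 (@Lb.d (nat_lit 584) (nat_lit 9) (nat_lit 517) (@Lb.t (@Lb.fm (nat_lit 9) t5384))))))))))))
noncomputable def l29711 : Lb := (@Lb.d (nat_lit 153) (nat_lit 258) (nat_lit 130) (@Lb.g g8 (@Lb.g g9 (@Lb.g g10 (@Lb.g g11 (@Lb.r r276 (@Lb.r r1563 (@Lb.r r2453 (@Lb.r r2390 (@Lb.r r676 (@Lb.d (nat_lit 265) (nat_lit 66) (nat_lit 665) (@Lb.fm (nat_lit 9) t1101))))))))))))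
noncomputable def l29712 : Lb := (@Lb.d (nat_lit 8) (nat_lit 289) (nat_lit 66) (@Lb.g g8 (@Lb.g g9 (@Lb.g g10 (@Lb.g g11 (@Lb.r r618 (@Lb.r r612 (@Lb.r r295 (@Lb.r r1429 (@Lb.r r36 (@Lb.d (nat_lit 361) (nat_lit 73) (nat_lit 356) (@Lb.fp (nat_lit 9) t5385))))))))))))
noncomputable def l29713 : Lb := (@Lb.r r323 (@Lb.d (nat_lit 2) (nat_lit 260) (nat_lit 16) (@Lb.g g8 (@Lb.g g10 (@Lb.r r1689 (@Lb.r r2459 (@Lb.r r24 (@Lb.d (nat_lit 256) (nat_lit 80) (nat_lit 132) (@Lb.fp (nat_lit 3) t521)))))))))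
noncomputable def l29714 : Lb := (@Lb.d (nat_lit 0) (nat_lit 66) (nat_lit 0) (@Lb.g g9 (@Lb.r r584 (@Lb.r r358 (@Lb.r r132 (@Lb.d (nat_lit 0) (nat_lit 137) (nat_lit 578) (@Lb.t (@Lb.fm (nat_lit 3) t1222))))))))
noncomputable def l29715 : Lb := (@Lb.d (nat_lit 9) (nat_lit 550) (nat_lit 128) (@Lb.g g8 (@Lb.g g9 (@Lb.g g10 (@Lb.g g11 (@Lb.r r1194 (@Lb.r r424 (@Lb.r r279 (@Lb.r r1065 (@Lb.r r2084 (@Lb.d (nat_lit 258) (nat_lit 96) (nat_lit 10) (@Lb.fm (nat_lit 9) t125))))))))))))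
noncomputable def l29716 : Lb := (@Lb.r r275 (@Lb.d (nat_lit 9) (nat_lit 257) (nat_lit 2) (@Lb.g g8 (@Lb.g g5 (@Lb.g g10 (@Lb.r r1690 (@Lb.r r1688 (@Lb.r r1563 (@Lb.d (nat_lit 6) (nat_lit 80) (nat_lit 138) (@Lb.t (@Lb.fm (nat_lit 9) t1352)))))))))))
noncomputable def l29717 : Lb := (@Lb.d (nat_lit 137) (nat_lit 545) (nat_lit 10) (@Lb.g g8 (@Lb.g g9 (@Lb.g g10 (@Lb.r r275 (@Lb.r r1633 (@Lb.r r2646 (@Lb.r r420 (@Lb.d (nat_lit 548) (nat_lit 132) (nat_lit 74) (@Lb.t (@Lb.fp (nat_lit 9) t2)))))))))))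
noncomputable def l29718 : Lb := (@Lb.d (nat_lit 17) (nat_lit 549) (nat_lit 105) (@Lb.r r2455 (@Lb.r r390 (@Lb.r r596 (@Lb.g g7 (@Lb.g g5 (@Lb.d (nat_lit 64) (nat_lit 129) (nat_lit 68) (@Lb.fp (nat_lit 3) t1443))))))))
noncomputable def l29719 : Lb := (@Lb.d (nat_lit 593) (nat_lit 674) (nat_lit 344) (@Lb.r r2408 (@Lb.r r89 (@Lb.r r2406 (@Lb.g g7 (@Lb.g g6 (@Lb.g g4 (@Lb.d (nat_lit 4) (nat_lit 0) (nat_lit 646) (@Lb.r r529 (@Lb.t (@Lb.fm (nat_lit 9) t5386)))))))))))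
noncomputable def l29720 : Lb := (@Lb.r r21 (@Lb.d (nat_lit 33) (nat_lit 8) (nat_lit 161) (@Lb.g g8 (@Lb.g g6 (@Lb.g g11 (@Lb.r r2651 (@Lb.r r2453 (@Lb.r r1608 (@Lb.d (nat_lit 401) (nat_lit 36) (nat_lit 280) (@Lb.t (@Lb.fp (nat_lit 9) t1762)))))))))))
noncomputable def l29721 : Lb := (@Lb.r r21 (@Lb.d (nat_lit 128) (nat_lit 0) (nat_lit 130) (@Lb.g g8 (@Lb.g g10 (@Lb.g g11 (@Lb.r r419 (@Lb.r r1172 (@Lb.r r2438 (@Lb.r r97 (@Lb.d (nat_lit 354) (nat_lit 34) (nat_lit 128) (@Lb.t (@Lb.fm (nat_lit 9) t2470))))))))))))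
noncomputable def l29722 : Lb := (@Lb.d (nat_lit 4) (nat_lit 522) (nat_lit 130) (@Lb.g g8 (@Lb.g g9 (@Lb.g g10 (@Lb.g g11 (@Lb.r r2730 (@Lb.r r1419 (@Lb.r r1553 (@Lb.r r1416 (@Lb.d (nat_lit 257) (nat_lit 97) (nat_lit 640) (@Lb.fp (nat_lit 9) t876)))))))))))
noncomputable def l29723 : Lb := (@Lb.d (nat_lit 5) (nat_lit 66) (nat_lit 256) (@Lb.r r68 (@Lb.r r2375 (@Lb.r r602 (@Lb.r r584 (@Lb.g g5 (@Lb.d (nat_lit 0) (nat_lit 129) (nat_lit 0) (@Lb.t (@Lb.fp (nat_lit 3) t1443)))))))))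
noncomputable def l29724 : Lb := (@Lb.d (nat_lit 37) (nat_lit 0) (nat_lit 130) (@Lb.g g8 (@Lb.g g9 (@Lb.g g10 (@Lb.g g11 (@Lb.r r1366 (@Lb.r r2711 (@Lb.r r1449 (@Lb.r r612 (@Lb.d (nat_lit 521) (nat_lit 68) (nat_lit 20) (@Lb.fp (nat_lit 9) t1377)))))))))))
noncomputable def l29725 : Lb := (@Lb.d (nat_lit 146) (nat_lit 553) (nat_lit 134) (@Lb.g g8 (@Lb.g g9 (@Lb.g g10 (@Lb.g g11 (@Lb.r r2730 (@Lb.r r2435 (@Lb.r r2137 (@Lb.r r2180 (@Lb.d (nat_lit 521) (nat_lit 150) (nat_lit 389) (@Lb.fm (nat_lit 9) t2448)))))))))))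
noncomputable def l29726 : Lb := (@Lb.d (nat_lit 516) (nat_lit 512) (nat_lit 1) (@Lb.r r24 (@Lb.r r386 (@Lb.r r2651 (@Lb.g g9 (@Lb.d (nat_lit 0) (nat_lit 2) (nat_lit 0) (@Lb.r r291 (@Lb.r r98 (@Lb.t (@Lb.fm (nat_lit 3) t1884))))))))))
noncomputable def l29727 : Lb := (@Lb.r r1379 (@Lb.r r2209 (@Lb.r r1186 (@Lb.r r1124 (@Lb.d (nat_lit 2) (nat_lit 330) (nat_lit 34) (@Lb.fp (nat_lit 1) t5387))))))
noncomputable def l29728 : Lb := (@Lb.d (nat_lit 0) (nat_lit 258) (nat_lit 130) (@Lb.g g8 (@Lb.g g9 (@Lb.g g10 (@Lb.g g11 (@Lb.r r1367 (@Lb.r r386 (@Lb.r r1109 (@Lb.r r24 (@Lb.d (nat_lit 129) (nat_lit 137) (nat_lit 329) (@Lb.fp (nat_lit 9) t1918)))))))))))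
noncomputable def l29729 : Lb := (@Lb.r r21 (@Lb.r r323 (@Lb.d (nat_lit 33) (nat_lit 0) (nat_lit 2) (@Lb.g g8 (@Lb.g g10 (@Lb.r r1691 (@Lb.r r1561 (@Lb.r r1620 (@Lb.r r586 (@Lb.d (nat_lit 96) (nat_lit 97) (nat_lit 586) (@Lb.fp (nat_lit 3) t74)))))))))))
noncomputable def l29730 : Lb := (@Lb.d (nat_lit 641) (nat_lit 10) (nat_lit 33) (@Lb.g g4 (@Lb.g g9 (@Lb.g g6 (@Lb.r r1427 (@Lb.r r1633 (@Lb.d (nat_lit 8) (nat_lit 154) (nat_lit 280) (@Lb.t (@Lb.fp (nat_lit 9) t1762)))))))))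
noncomputable def l29731 : Lb := (@Lb.d (nat_lit 1) (nat_lit 266) (nat_lit 2) (@Lb.r r1284 (@Lb.r r579 (@Lb.r r402 (@Lb.r r2145 (@Lb.g g11 (@Lb.t (@Lb.fm (nat_lit 3) t5388))))))))
noncomputable def l29732 : Lb := (@Lb.d (nat_lit 641) (nat_lit 338) (nat_lit 0) (@Lb.r r1362 (@Lb.r r531 (@Lb.r r2337 (@Lb.g g7 (@Lb.g g4 (@Lb.d (nat_lit 8) (nat_lit 16) (nat_lit 128) (@Lb.fm (nat_lit 3) t4027))))))))
noncomputable def l29733 : Lb := (@Lb.d (nat_lit 2) (nat_lit 521) (nat_lit 129) (@Lb.g g8 (@Lb.g g9 (@Lb.g g10 (@Lb.g g11 (@Lb.r r1371 (@Lb.r r386 (@Lb.r r97 (@Lb.r r24 (@Lb.d (nat_lit 265) (nat_lit 6) (nat_lit 136) (@Lb.fm (nat_lit 9) t5389)))))))))))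
noncomputable def l29734 : Lb := (@Lb.d (nat_lit 4) (nat_lit 512) (nat_lit 1) (@Lb.g g8 (@Lb.g g10 (@Lb.r r1697 (@Lb.r r2467 (@Lb.r r1378 (@Lb.d (nat_lit 322) (nat_lit 90) (nat_lit 581) (@Lb.fp (nat_lit 3) t3721))))))))
noncomputable def l29735 : Lb := (@Lb.d (nat_lit 10) (nat_lit 264) (nat_lit 161) (@Lb.g g8 (@Lb.g g9 (@Lb.g g6 (@Lb.g g11 (@Lb.r r2667 (@Lb.r r97 (@Lb.r r2584 (@Lb.d (nat_lit 585) (nat_lit 169) (nat_lit 384) (@Lb.fp (nat_lit 9) t1095))))))))))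
noncomputable def l29736 : Lb := (@Lb.d (nat_lit 0) (nat_lit 521) (nat_lit 161) (@Lb.g g8 (@Lb.g g9 (@Lb.g g6 (@Lb.g g11 (@Lb.r r2667 (@Lb.r r97 (@Lb.r r2584 (@Lb.d (nat_lit 578) (nat_lit 170) (nat_lit 384) (@Lb.fp (nat_lit 9) t5390))))))))))
noncomputable def l29737 : Lb := (@Lb.d (nat_lit 153) (nat_lit 264) (nat_lit 130) (@Lb.g g8 (@Lb.g g9 (@Lb.g g10 (@Lb.g g11 (@Lb.r r2666 (@Lb.r r2665 (@Lb.r r291 (@Lb.r r2628 (@Lb.d (nat_lit 656) (nat_lit 38) (nat_lit 550) (@Lb.fm (nat_lit 9) t1964)))))))))))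
noncomputable def l29738 : Lb := (@Lb.d (nat_lit 322) (nat_lit 522) (nat_lit 676) (@Lb.r r154 (@Lb.r r660 (@Lb.r r1625 (@Lb.r r2595 (@Lb.g g5 (@Lb.g g4 (@Lb.d (nat_lit 1) (nat_lit 1) (nat_lit 0) (@Lb.fm (nat_lit 3) t5391)))))))))
noncomputable def l29739 : Lb := (@Lb.d (nat_lit 2) (nat_lit 258) (nat_lit 130) (@Lb.g g8 (@Lb.g g9 (@Lb.g g10 (@Lb.g g11 (@Lb.r r610 (@Lb.r r404 (@Lb.r r619 (@Lb.r r97 (@Lb.r r516 (@Lb.d (nat_lit 617) (nat_lit 137) (nat_lit 529) (@Lb.fp (nat_lit 9) t1994))))))))))))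
noncomputable def l29740 : Lb := (@Lb.d (nat_lit 8) (nat_lit 290) (nat_lit 0) (@Lb.g g9 (@Lb.g g6 (@Lb.g g11 (@Lb.r r2651 (@Lb.r r1048 (@Lb.r r21 (@Lb.d (nat_lit 6) (nat_lit 2) (nat_lit 394) (@Lb.t (@Lb.fp (nat_lit 9) t5392))))))))))
noncomputable def l29741 : Lb := (@Lb.d (nat_lit 2) (nat_lit 2) (nat_lit 130) (@Lb.g g8 (@Lb.g g9 (@Lb.g g10 (@Lb.g g11 (@Lb.r r427 (@Lb.r r386 (@Lb.r r104 (@Lb.r r2153 (@Lb.r r36 (@Lb.d (nat_lit 34) (nat_lit 9) (nat_lit 680) (@Lb.fm (nat_lit 9) t1469))))))))))))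
noncomputable def l29742 : Lb := (@Lb.d (nat_lit 2) (nat_lit 514) (nat_lit 130) (@Lb.g g8 (@Lb.g g9 (@Lb.g g10 (@Lb.g g11 (@Lb.r r427 (@Lb.r r536 (@Lb.r r405 (@Lb.r r86 (@Lb.r r164 (@Lb.d (nat_lit 586) (nat_lit 104) (nat_lit 105) (@Lb.fm (nat_lit 9) t519))))))))))))
noncomputable def l29743 : Lb := (@Lb.d (nat_lit 32) (nat_lit 260) (nat_lit 74) (@Lb.g g9 (@Lb.g g10 (@Lb.g g11 (@Lb.r r2709 (@Lb.r r1380 (@Lb.r r2715 (@Lb.r r2634 (@Lb.d (nat_lit 356) (nat_lit 74) (nat_lit 257) (@Lb.t (@Lb.fp (nat_lit 9) t2032)))))))))))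
noncomputable def l29744 : Lb := (@Lb.d (nat_lit 8) (nat_lit 264) (nat_lit 74) (@Lb.g g8 (@Lb.g g10 (@Lb.g g11 (@Lb.r r1361 (@Lb.r r2471 (@Lb.r r1604 (@Lb.r r2186 (@Lb.d (nat_lit 520) (nat_lit 128) (nat_lit 4) (@Lb.t (@Lb.fp (nat_lit 9) t127)))))))))))
noncomputable def l29745 : Lb := (@Lb.d (nat_lit 2) (nat_lit 514) (nat_lit 73) (@Lb.g g8 (@Lb.g g9 (@Lb.g g10 (@Lb.g g11 (@Lb.r r2666 (@Lb.r r579 (@Lb.r r25 (@Lb.d (nat_lit 9) (nat_lit 104) (nat_lit 585) (@Lb.fm (nat_lit 9) t51))))))))))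
noncomputable def l29746 : Lb := (@Lb.r r273 (@Lb.d (nat_lit 2) (nat_lit 544) (nat_lit 644) (@Lb.g g8 (@Lb.g g10 (@Lb.g g7 (@Lb.r r402 (@Lb.r r2145 (@Lb.r r1096 (@Lb.d (nat_lit 546) (nat_lit 68) (nat_lit 96) (@Lb.t (@Lb.fm (nat_lit 9) t1205)))))))))))
noncomputable def l29747 : Lb := (@Lb.r r21 (@Lb.d (nat_lit 145) (nat_lit 512) (nat_lit 74) (@Lb.g g8 (@Lb.g g10 (@Lb.g g11 (@Lb.r r651 (@Lb.r r2378 (@Lb.r r1572 (@Lb.r r37 (@Lb.d (nat_lit 10) (nat_lit 8) (nat_lit 5) (@Lb.t (@Lb.fm (nat_lit 9) t531))))))))))))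
noncomputable def l29748 : Lb := (@Lb.r r263 (@Lb.d (nat_lit 4) (nat_lit 512) (nat_lit 0) (@Lb.g g8 (@Lb.g g9 (@Lb.r r2451 (@Lb.r r86 (@Lb.r r2201 (@Lb.r r2180 (@Lb.d (nat_lit 10) (nat_lit 64) (nat_lit 2) (@Lb.fm (nat_lit 3) t5393))))))))))
noncomputable def l29749 : Lb := (@Lb.d (nat_lit 592) (nat_lit 342) (nat_lit 345) (@Lb.r r2408 (@Lb.r r2409 (@Lb.r r1447 (@Lb.r r406 (@Lb.g g7 (@Lb.g g5 (@Lb.g g4 (@Lb.d (nat_lit 16) (nat_lit 1) (nat_lit 0) (@Lb.t (@Lb.fm (nat_lit 9) t5394)))))))))))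
noncomputable def l29750 : Lb := (@Lb.d (nat_lit 4) (nat_lit 256) (nat_lit 128) (@Lb.g g8 (@Lb.g g9 (@Lb.g g11 (@Lb.r r342 (@Lb.r r387 (@Lb.r r2585 (@Lb.r r2564 (@Lb.d (nat_lit 10) (nat_lit 64) (nat_lit 425) (@Lb.t (@Lb.fm (nat_lit 9) t5395)))))))))))
noncomputable def l29751 : Lb := (@Lb.r r82 (@Lb.d (nat_lit 8) (nat_lit 0) (nat_lit 128) (@Lb.g g9 (@Lb.g g11 (@Lb.r r1364 (@Lb.r r1691 (@Lb.r r1370 (@Lb.r r2705 (@Lb.d (nat_lit 320) (nat_lit 168) (nat_lit 672) (@Lb.fp (nat_lit 3) t2499))))))))))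
noncomputable def l29752 : Lb := (@Lb.d (nat_lit 1) (nat_lit 0) (nat_lit 129) (@Lb.g g4 (@Lb.g g9 (@Lb.g g10 (@Lb.g g11 (@Lb.r r1634 (@Lb.r r2659 (@Lb.r r1633 (@Lb.d (nat_lit 9) (nat_lit 152) (nat_lit 386) (@Lb.fm (nat_lit 9) t1679))))))))))
noncomputable def l29753 : Lb := (@Lb.r r275 (@Lb.d (nat_lit 2) (nat_lit 32) (nat_lit 2) (@Lb.g g8 (@Lb.g g9 (@Lb.g g10 (@Lb.r r362 (@Lb.r r360 (@Lb.r r535 (@Lb.r r1433 (@Lb.d (nat_lit 426) (nat_lit 166) (nat_lit 96) (@Lb.t (@Lb.fm (nat_lit 9) t5396))))))))))))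
noncomputable def l29754 : Lb := (@Lb.r r82 (@Lb.r r275 (@Lb.g g4 (@Lb.g g9 (@Lb.r r1639 (@Lb.r r386 (@Lb.r r37 (@Lb.r r24 (@Lb.d (nat_lit 0) (nat_lit 320) (nat_lit 2) (@Lb.fp (nat_lit 3) t4746))))))))))
noncomputable def l29755 : Lb := (@Lb.d (nat_lit 134) (nat_lit 256) (nat_lit 130) (@Lb.g g8 (@Lb.g g9 (@Lb.g g10 (@Lb.g g11 (@Lb.r r2459 (@Lb.r r1177 (@Lb.r r1626 (@Lb.r r1604 (@Lb.d (nat_lit 265) (nat_lit 130) (nat_lit 410) (@Lb.fp (nat_lit 9) t2889)))))))))))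
noncomputable def l29756 : Lb := (@Lb.r r82 (@Lb.r r275 (@Lb.d (nat_lit 424) (nat_lit 1) (nat_lit 0) (@Lb.g g4 (@Lb.g g9 (@Lb.r r2474 (@Lb.r r2635 (@Lb.r r1577 (@Lb.d (nat_lit 384) (nat_lit 64) (nat_lit 144) (@Lb.fm (nat_lit 3) t5397))))))))))
noncomputable def l29757 : Lb := (@Lb.d (nat_lit 154) (nat_lit 384) (nat_lit 17) (@Lb.r r2120 (@Lb.r r1414 (@Lb.g g5 (@Lb.d (nat_lit 4) (nat_lit 89) (nat_lit 0) (@Lb.t (@Lb.fm (nat_lit 3) t5398)))))))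
noncomputable def l29758 : Lb := (@Lb.d (nat_lit 4) (nat_lit 513) (nat_lit 0) (@Lb.g g9 (@Lb.r r1428 (@Lb.r r2406 (@Lb.r r2129 (@Lb.d (nat_lit 5) (nat_lit 82) (nat_lit 609) (@Lb.t (@Lb.fp (nat_lit 3) t430))))))))
noncomputable def l29759 : Lb := (@Lb.d (nat_lit 40) (nat_lit 133) (nat_lit 0) (@Lb.g g5 (@Lb.g g10 (@Lb.r r100 (@Lb.r r410 (@Lb.d (nat_lit 265) (nat_lit 24) (nat_lit 420) (@Lb.fm (nat_lit 3) t5399)))))))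
noncomputable def l29760 : Lb := (@Lb.d (nat_lit 8) (nat_lit 2) (nat_lit 2) (@Lb.g g9 (@Lb.g g10 (@Lb.g g11 (@Lb.r r419 (@Lb.r r98 (@Lb.d (nat_lit 2) (nat_lit 4) (nat_lit 136) (@Lb.t (@Lb.fm (nat_lit 9) t51)))))))))
noncomputable def l29761 : Lb := (@Lb.g g5 (@Lb.r r2395 (@Lb.r r1705 (@Lb.r r614 (@Lb.d (nat_lit 5) (nat_lit 581) (nat_lit 86) (@Lb.t (@Lb.fp (nat_lit 3) t1019)))))))
noncomputable def l29762 : Lb := (@Lb.d (nat_lit 0) (nat_lit 266) (nat_lit 128) (@Lb.g g9 (@Lb.g g11 (@Lb.r r406 (@Lb.r r343 (@Lb.r r661 (@Lb.d (nat_lit 144) (nat_lit 161) (nat_lit 8) (@Lb.fp (nat_lit 3) t1231))))))))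
noncomputable def l29763 : Lb := (@Lb.d (nat_lit 8) (nat_lit 258) (nat_lit 130) (@Lb.g g9 (@Lb.g g10 (@Lb.g g11 (@Lb.r r1451 (@Lb.r r98 (@Lb.d (nat_lit 401) (nat_lit 4) (nat_lit 424) (@Lb.t (@Lb.fm (nat_lit 9) t899)))))))))
noncomputable def l29764 : Lb := (@Lb.d (nat_lit 0) (nat_lit 265) (nat_lit 129) (@Lb.g g9 (@Lb.g g10 (@Lb.g g11 (@Lb.r r1443 (@Lb.r r386 (@Lb.r r148 (@Lb.r r25 (@Lb.d (nat_lit 330) (nat_lit 34) (nat_lit 418) (@Lb.t (@Lb.fp (nat_lit 9) t2310)))))))))))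
noncomputable def l29765 : Lb := (@Lb.d (nat_lit 134) (nat_lit 401) (nat_lit 322) (@Lb.r r1560 (@Lb.r r97 (@Lb.r r1643 (@Lb.g g7 (@Lb.g g10 (@Lb.g g5 (@Lb.g g4 (@Lb.d (nat_lit 18) (nat_lit 1) (nat_lit 66) (@Lb.fp (nat_lit 9) t3914))))))))))
noncomputable def l29766 : Lb := (@Lb.d (nat_lit 2) (nat_lit 257) (nat_lit 128) (@Lb.g g8 (@Lb.g g9 (@Lb.g g11 (@Lb.r r673 (@Lb.r r674 (@Lb.r r2471 (@Lb.r r1620 (@Lb.r r153 (@Lb.d (nat_lit 4) (nat_lit 162) (nat_lit 641) (@Lb.t (@Lb.fm (nat_lit 9) t2243))))))))))))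
noncomputable def l29767 : Lb := (@Lb.d (nat_lit 2) (nat_lit 257) (nat_lit 128) (@Lb.g g8 (@Lb.g g9 (@Lb.g g11 (@Lb.r r673 (@Lb.r r674 (@Lb.r r2471 (@Lb.r r1620 (@Lb.r r153 (@Lb.d (nat_lit 6) (nat_lit 164) (nat_lit 642) (@Lb.t (@Lb.fm (nat_lit 9) t660))))))))))))
noncomputable def l29768 : Lb := (@Lb.d (nat_lit 2) (nat_lit 1) (nat_lit 128) (@Lb.g g8 (@Lb.g g9 (@Lb.g g11 (@Lb.r r673 (@Lb.r r674 (@Lb.r r2471 (@Lb.r r1620 (@Lb.r r153 (@Lb.d (nat_lit 4) (nat_lit 164) (nat_lit 642) (@Lb.t (@Lb.fm (nat_lit 9) t660))))))))))))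
noncomputable def l29769 : Lb := (@Lb.r r70 (@Lb.d (nat_lit 161) (nat_lit 2) (nat_lit 72) (@Lb.g g8 (@Lb.g g9 (@Lb.g g11 (@Lb.r r2134 (@Lb.r r345 (@Lb.r r359 (@Lb.r r644 (@Lb.d (nat_lit 169) (nat_lit 2) (nat_lit 165) (@Lb.t (@Lb.fm (nat_lit 9) t68))))))))))))
noncomputable def l29770 : Lb := (@Lb.r r516 (@Lb.r r529 (@Lb.d (nat_lit 128) (nat_lit 272) (nat_lit 648) (@Lb.g g7 (@Lb.r r2341 (@Lb.r r1112 (@Lb.d (nat_lit 578) (nat_lit 68) (nat_lit 608) (@Lb.t (@Lb.fm (nat_lit 3) t5400)))))))))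
noncomputable def l29771 : Lb := (@Lb.r r21 (@Lb.r r331 (@Lb.d (nat_lit 416) (nat_lit 260) (nat_lit 2) (@Lb.g g8 (@Lb.g g10 (@Lb.r r409 (@Lb.r r2731 (@Lb.r r1674 (@Lb.d (nat_lit 646) (nat_lit 129) (nat_lit 422) (@Lb.fm (nat_lit 3) t2889))))))))))
noncomputable def l29772 : Lb := (@Lb.d (nat_lit 153) (nat_lit 514) (nat_lit 66) (@Lb.g g8 (@Lb.g g9 (@Lb.g g10 (@Lb.g g11 (@Lb.r r275 (@Lb.r r1634 (@Lb.r r1177 (@Lb.r r388 (@Lb.d (nat_lit 289) (nat_lit 33) (nat_lit 345) (@Lb.fp (nat_lit 9) t5401)))))))))))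
noncomputable def l29773 : Lb := (@Lb.d (nat_lit 1) (nat_lit 34) (nat_lit 2) (@Lb.g g8 (@Lb.g g9 (@Lb.g g10 (@Lb.r r1675 (@Lb.r r1194 (@Lb.r r425 (@Lb.r r36 (@Lb.d (nat_lit 392) (nat_lit 160) (nat_lit 585) (@Lb.t (@Lb.fp (nat_lit 9) t3422)))))))))))
noncomputable def l29774 : Lb := (@Lb.r r21 (@Lb.r r70 (@Lb.d (nat_lit 657) (nat_lit 256) (nat_lit 128) (@Lb.g g8 (@Lb.g g11 (@Lb.r r1419 (@Lb.r r74 (@Lb.r r25 (@Lb.d (nat_lit 354) (nat_lit 5) (nat_lit 25) (@Lb.fm (nat_lit 3) t742))))))))))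
noncomputable def l29775 : Lb := (@Lb.d (nat_lit 298) (nat_lit 69) (nat_lit 4) (@Lb.r r1124 (@Lb.r r1045 (@Lb.r r386 (@Lb.g g11 (@Lb.g g6 (@Lb.g g5 (@Lb.g g4 (@Lb.d (nat_lit 6) (nat_lit 1) (nat_lit 129) (@Lb.fp (nat_lit 9) t710))))))))))
noncomputable def l29776 : Lb := (@Lb.d (nat_lit 2) (nat_lit 258) (nat_lit 130) (@Lb.g g8 (@Lb.g g9 (@Lb.g g10 (@Lb.g g11 (@Lb.r r427 (@Lb.r r106 (@Lb.r r97 (@Lb.d (nat_lit 514) (nat_lit 5) (nat_lit 152) (@Lb.fm (nat_lit 9) t232))))))))))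
noncomputable def l29777 : Lb := (@Lb.d (nat_lit 612) (nat_lit 385) (nat_lit 521) (@Lb.r r1621 (@Lb.r r1346 (@Lb.r r2391 (@Lb.g g7 (@Lb.g g6 (@Lb.g g5 (@Lb.g g4 (@Lb.d (nat_lit 614) (nat_lit 1) (nat_lit 65) (@Lb.fp (nat_lit 9) t5354))))))))))
noncomputable def l29778 : Lb := (@Lb.r r82 (@Lb.d (nat_lit 0) (nat_lit 258) (nat_lit 580) (@Lb.g g8 (@Lb.g g9 (@Lb.g g7 (@Lb.r r1441 (@Lb.r r98 (@Lb.r r24 (@Lb.d (nat_lit 608) (nat_lit 66) (nat_lit 266) (@Lb.t (@Lb.fp (nat_lit 9) t3700)))))))))))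
noncomputable def l29779 : Lb := (@Lb.d (nat_lit 529) (nat_lit 513) (nat_lit 65) (@Lb.r r68 (@Lb.r r90 (@Lb.r r596 (@Lb.r r1367 (@Lb.g g7 (@Lb.g g6 (@Lb.g g5 (@Lb.g g4 (@Lb.d (nat_lit 1) (nat_lit 136) (nat_lit 64) (@Lb.fp (nat_lit 9) t242)))))))))))
noncomputable def l29780 : Lb := (@Lb.r r323 (@Lb.d (nat_lit 8) (nat_lit 2) (nat_lit 1) (@Lb.g g9 (@Lb.g g6 (@Lb.r r579 (@Lb.r r24 (@Lb.d (nat_lit 0) (nat_lit 4) (nat_lit 130) (@Lb.fp (nat_lit 3) t45))))))))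
noncomputable def l29781 : Lb := (@Lb.r r323 (@Lb.d (nat_lit 8) (nat_lit 258) (nat_lit 1) (@Lb.g g9 (@Lb.g g6 (@Lb.r r579 (@Lb.r r24 (@Lb.d (nat_lit 10) (nat_lit 6) (nat_lit 130) (@Lb.fp (nat_lit 3) t45))))))))
noncomputable def l29782 : Lb := (@Lb.d (nat_lit 596) (nat_lit 578) (nat_lit 104) (@Lb.r r264 (@Lb.r r1607 (@Lb.r r1362 (@Lb.g g7 (@Lb.g g6 (@Lb.g g5 (@Lb.g g4 (@Lb.d (nat_lit 154) (nat_lit 128) (nat_lit 134) (@Lb.fp (nat_lit 9) t2118))))))))))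
noncomputable def l29783 : Lb := (@Lb.d (nat_lit 8) (nat_lit 258) (nat_lit 9) (@Lb.g g9 (@Lb.g g10 (@Lb.g g7 (@Lb.r r386 (@Lb.r r24 (@Lb.d (nat_lit 608) (nat_lit 4) (nat_lit 538) (@Lb.t (@Lb.fp (nat_lit 9) t4165)))))))))
noncomputable def l29784 : Lb := (@Lb.d (nat_lit 10) (nat_lit 388) (nat_lit 257) (@Lb.r r402 (@Lb.g g8 (@Lb.t (@Lb.fm (nat_lit 3) t479)))))
noncomputable def l29785 : Lb := (@Lb.r r402 (@Lb.d (nat_lit 10) (nat_lit 130) (nat_lit 325) (@Lb.fm (nat_lit 1) t479)))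
noncomputable def l29786 : Lb := (@Lb.g g9 (@Lb.r r402 (@Lb.r r1617 (@Lb.d (nat_lit 0) (nat_lit 640) (nat_lit 394) (@Lb.t (@Lb.fm (nat_lit 3) t5402))))))
noncomputable def l29787 : Lb := (@Lb.r r2311 (@Lb.r r2454 (@Lb.d (nat_lit 153) (nat_lit 386) (nat_lit 613) (@Lb.fm (nat_lit 1) t5403))))
noncomputable def l29788 : Lb := (@Lb.d (nat_lit 1) (nat_lit 514) (nat_lit 2) (@Lb.g g8 (@Lb.g g9 (@Lb.g g10 (@Lb.r r427 (@Lb.r r386 (@Lb.r r97 (@Lb.r r24 (@Lb.d (nat_lit 266) (nat_lit 2) (nat_lit 681) (@Lb.t (@Lb.fp (nat_lit 9) t61)))))))))))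
noncomputable def l29789 : Lb := (@Lb.d (nat_lit 146) (nat_lit 264) (nat_lit 130) (@Lb.g g8 (@Lb.g g10 (@Lb.g g11 (@Lb.r r1569 (@Lb.r r295 (@Lb.r r644 (@Lb.r r2182 (@Lb.d (nat_lit 292) (nat_lit 129) (nat_lit 664) (@Lb.t (@Lb.fm (nat_lit 9) t5404)))))))))))
noncomputable def l29790 : Lb := (@Lb.d (nat_lit 2) (nat_lit 546) (nat_lit 130) (@Lb.g g8 (@Lb.g g9 (@Lb.g g10 (@Lb.g g11 (@Lb.r r2217 (@Lb.r r264 (@Lb.r r423 (@Lb.r r98 (@Lb.r r516 (@Lb.d (nat_lit 354) (nat_lit 6) (nat_lit 154) (@Lb.fp (nat_lit 9) t5405))))))))))))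
noncomputable def l29791 : Lb := (@Lb.d (nat_lit 2) (nat_lit 290) (nat_lit 130) (@Lb.g g8 (@Lb.g g9 (@Lb.g g10 (@Lb.g g11 (@Lb.r r2217 (@Lb.r r264 (@Lb.r r423 (@Lb.r r98 (@Lb.r r516 (@Lb.d (nat_lit 354) (nat_lit 8) (nat_lit 152) (@Lb.fp (nat_lit 9) t5405))))))))))))
noncomputable def l29792 : Lb := (@Lb.d (nat_lit 146) (nat_lit 2) (nat_lit 130) (@Lb.g g8 (@Lb.g g9 (@Lb.g g10 (@Lb.g g11 (@Lb.r r1415 (@Lb.r r584 (@Lb.r r2150 (@Lb.r r97 (@Lb.r r36 (@Lb.d (nat_lit 258) (nat_lit 98) (nat_lit 386) (@Lb.fp (nat_lit 9) t2836))))))))))))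
noncomputable def l29793 : Lb := (@Lb.d (nat_lit 0) (nat_lit 512) (nat_lit 650) (@Lb.r r84 (@Lb.r r1177 (@Lb.r r154 (@Lb.r r664 (@Lb.g g7 (@Lb.d (nat_lit 0) (nat_lit 0) (nat_lit 64) (@Lb.t (@Lb.fm (nat_lit 3) t322)))))))))
noncomputable def l29794 : Lb := (@Lb.d (nat_lit 146) (nat_lit 258) (nat_lit 130) (@Lb.g g8 (@Lb.g g9 (@Lb.g g10 (@Lb.g g11 (@Lb.r r1415 (@Lb.r r584 (@Lb.r r2150 (@Lb.r r97 (@Lb.r r36 (@Lb.d (nat_lit 265) (nat_lit 97) (nat_lit 386) (@Lb.fp (nat_lit 9) t1965))))))))))))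
noncomputable def l29795 : Lb := (@Lb.d (nat_lit 1) (nat_lit 258) (nat_lit 66) (@Lb.g g8 (@Lb.g g9 (@Lb.g g10 (@Lb.g g11 (@Lb.r r599 (@Lb.r r386 (@Lb.r r97 (@Lb.r r24 (@Lb.d (nat_lit 264) (nat_lit 9) (nat_lit 649) (@Lb.fp (nat_lit 9) t221)))))))))))
noncomputable def l29796 : Lb := (@Lb.d (nat_lit 130) (nat_lit 2) (nat_lit 130) (@Lb.g g8 (@Lb.g g9 (@Lb.g g10 (@Lb.g g11 (@Lb.r r2308 (@Lb.r r1451 (@Lb.r r386 (@Lb.r r97 (@Lb.d (nat_lit 522) (nat_lit 136) (nat_lit 649) (@Lb.fp (nat_lit 9) t411)))))))))))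
noncomputable def l29797 : Lb := (@Lb.d (nat_lit 0) (nat_lit 8) (nat_lit 130) (@Lb.g g10 (@Lb.g g11 (@Lb.r r353 (@Lb.r r663 (@Lb.r r2692 (@Lb.r r2374 (@Lb.d (nat_lit 386) (nat_lit 132) (nat_lit 145) (@Lb.fm (nat_lit 3) t5406)))))))))
noncomputable def l29798 : Lb := (@Lb.d (nat_lit 1) (nat_lit 256) (nat_lit 128) (@Lb.g g8 (@Lb.g g10 (@Lb.g g11 (@Lb.r r2699 (@Lb.r r1610 (@Lb.r r1561 (@Lb.r r2564 (@Lb.d (nat_lit 161) (nat_lit 0) (nat_lit 401) (@Lb.t (@Lb.fp (nat_lit 9) t468)))))))))))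
noncomputable def l29799 : Lb := (@Lb.d (nat_lit 0) (nat_lit 10) (nat_lit 0) (@Lb.g g9 (@Lb.r r86 (@Lb.r r424 (@Lb.r r599 (@Lb.r r417 (@Lb.d (nat_lit 320) (nat_lit 36) (nat_lit 682) (@Lb.t (@Lb.fm (nat_lit 3) t716)))))))))
noncomputable def l29800 : Lb := (@Lb.d (nat_lit 2) (nat_lit 514) (nat_lit 137) (@Lb.g g8 (@Lb.g g9 (@Lb.g g10 (@Lb.g g11 (@Lb.r r2666 (@Lb.r r579 (@Lb.r r97 (@Lb.r r24 (@Lb.d (nat_lit 146) (nat_lit 0) (nat_lit 324) (@Lb.fm (nat_lit 9) t61)))))))))))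
noncomputable def l29801 : Lb := (@Lb.d (nat_lit 154) (nat_lit 512) (nat_lit 128) (@Lb.g g8 (@Lb.g g10 (@Lb.g g11 (@Lb.r r1381 (@Lb.r r1691 (@Lb.r r644 (@Lb.r r2182 (@Lb.d (nat_lit 296) (nat_lit 66) (nat_lit 514) (@Lb.t (@Lb.fp (nat_lit 9) t4963)))))))))))
noncomputable def l29802 : Lb := (@Lb.d (nat_lit 32) (nat_lit 256) (nat_lit 128) (@Lb.g g10 (@Lb.g g11 (@Lb.r r324 (@Lb.r r395 (@Lb.r r2378 (@Lb.r r2073 (@Lb.d (nat_lit 290) (nat_lit 0) (nat_lit 405) (@Lb.fm (nat_lit 3) t2238)))))))))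
noncomputable def l29803 : Lb := (@Lb.d (nat_lit 10) (nat_lit 264) (nat_lit 64) (@Lb.g g8 (@Lb.g g10 (@Lb.g g7 (@Lb.r r1121 (@Lb.r r2646 (@Lb.r r2436 (@Lb.d (nat_lit 101) (nat_lit 128) (nat_lit 354) (@Lb.t (@Lb.fm (nat_lit 9) t572))))))))))
noncomputable def l29804 : Lb := (@Lb.r r70 (@Lb.d (nat_lit 161) (nat_lit 258) (nat_lit 128) (@Lb.g g8 (@Lb.g g9 (@Lb.g g11 (@Lb.r r2390 (@Lb.r r1448 (@Lb.r r665 (@Lb.r r539 (@Lb.d (nat_lit 265) (nat_lit 0) (nat_lit 106) (@Lb.t (@Lb.fm (nat_lit 9) t1549))))))))))))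
noncomputable def l29805 : Lb := (@Lb.d (nat_lit 405) (nat_lit 518) (nat_lit 273) (@Lb.r r81 (@Lb.r r102 (@Lb.r r593 (@Lb.r r339 (@Lb.g g7 (@Lb.g g6 (@Lb.g g5 (@Lb.g g8 (@Lb.d (nat_lit 2) (nat_lit 0) (nat_lit 65) (@Lb.fm (nat_lit 9) t5407)))))))))))
noncomputable def l29806 : Lb := (@Lb.r r323 (@Lb.d (nat_lit 130) (nat_lit 514) (nat_lit 2) (@Lb.g g8 (@Lb.g g9 (@Lb.g g10 (@Lb.r r599 (@Lb.r r98 (@Lb.r r97 (@Lb.r r408 (@Lb.d (nat_lit 393) (nat_lit 148) (nat_lit 168) (@Lb.t (@Lb.fp (nat_lit 9) t3056))))))))))))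
noncomputable def l29807 : Lb := (@Lb.g g10 (@Lb.g g7 (@Lb.r r2663 (@Lb.r r2145 (@Lb.r r360 (@Lb.r r150 (@Lb.d (nat_lit 260) (nat_lit 512) (nat_lit 0) (@Lb.fp (nat_lit 3) t2199))))))))
noncomputable def l29808 : Lb := (@Lb.d (nat_lit 6) (nat_lit 404) (nat_lit 390) (@Lb.r r21 (@Lb.r r579 (@Lb.r r1366 (@Lb.g g7 (@Lb.g g6 (@Lb.g g5 (@Lb.g g4 (@Lb.d (nat_lit 1) (nat_lit 1) (nat_lit 134) (@Lb.fm (nat_lit 9) t41))))))))))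
noncomputable def l29809 : Lb := (@Lb.r r323 (@Lb.d (nat_lit 129) (nat_lit 2) (nat_lit 2) (@Lb.g g8 (@Lb.g g9 (@Lb.g g10 (@Lb.r r599 (@Lb.r r98 (@Lb.r r97 (@Lb.r r408 (@Lb.d (nat_lit 393) (nat_lit 148) (nat_lit 168) (@Lb.t (@Lb.fp (nat_lit 9) t3056))))))))))))
noncomputable def l29810 : Lb := (@Lb.g g10 (@Lb.g g7 (@Lb.r r402 (@Lb.d (nat_lit 0) (nat_lit 320) (nat_lit 650) (@Lb.fm (nat_lit 3) t1604)))))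
noncomputable def l29811 : Lb := (@Lb.d (nat_lit 0) (nat_lit 548) (nat_lit 657) (@Lb.r r354 (@Lb.r r1427 (@Lb.g g10 (@Lb.t (@Lb.fp (nat_lit 3) t45))))))
noncomputable def l29812 : Lb := (@Lb.r r21 (@Lb.d (nat_lit 656) (nat_lit 256) (nat_lit 128) (@Lb.g g8 (@Lb.g g11 (@Lb.r r1354 (@Lb.r r391 (@Lb.r r25 (@Lb.d (nat_lit 33) (nat_lit 0) (nat_lit 594) (@Lb.fm (nat_lit 3) t1728)))))))))
noncomputable def l29813 : Lb := (@Lb.r r21 (@Lb.d (nat_lit 0) (nat_lit 0) (nat_lit 74) (@Lb.g g8 (@Lb.g g10 (@Lb.g g11 (@Lb.r r170 (@Lb.r r1433 (@Lb.r r2343 (@Lb.r r1540 (@Lb.d (nat_lit 42) (nat_lit 128) (nat_lit 34) (@Lb.t (@Lb.fp (nat_lit 9) t284))))))))))))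
noncomputable def l29814 : Lb := (@Lb.d (nat_lit 8) (nat_lit 258) (nat_lit 2) (@Lb.g g9 (@Lb.g g10 (@Lb.r r2658 (@Lb.r r579 (@Lb.d (nat_lit 2) (nat_lit 149) (nat_lit 321) (@Lb.fp (nat_lit 3) t51)))))))
noncomputable def l29815 : Lb := (@Lb.d (nat_lit 8) (nat_lit 2) (nat_lit 2) (@Lb.g g9 (@Lb.g g10 (@Lb.r r2658 (@Lb.d (nat_lit 2) (nat_lit 169) (nat_lit 680) (@Lb.fm (nat_lit 3) t479))))))
noncomputable def l29816 : Lb := (@Lb.d (nat_lit 8) (nat_lit 514) (nat_lit 2) (@Lb.g g9 (@Lb.g g10 (@Lb.r r2658 (@Lb.r r579 (@Lb.d (nat_lit 2) (nat_lit 149) (nat_lit 264) (@Lb.fp (nat_lit 3) t51)))))))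
noncomputable def l29817 : Lb := (@Lb.d (nat_lit 8) (nat_lit 2) (nat_lit 73) (@Lb.g g9 (@Lb.g g10 (@Lb.g g11 (@Lb.r r2726 (@Lb.r r328 (@Lb.r r535 (@Lb.r r289 (@Lb.d (nat_lit 640) (nat_lit 25) (nat_lit 66) (@Lb.t (@Lb.fm (nat_lit 9) t259)))))))))))
noncomputable def l29818 : Lb := (@Lb.d (nat_lit 513) (nat_lit 273) (nat_lit 266) (@Lb.r r293 (@Lb.r r600 (@Lb.r r587 (@Lb.r r406 (@Lb.g g7 (@Lb.r r578 (@Lb.r r529 (@Lb.t (@Lb.fm (nat_lit 3) t5408))))))))))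
noncomputable def l29819 : Lb := (@Lb.r r2069 (@Lb.r r2118 (@Lb.d (nat_lit 410) (nat_lit 0) (nat_lit 392) (@Lb.g g8 (@Lb.g g11 (@Lb.d (nat_lit 2) (nat_lit 64) (nat_lit 34) (@Lb.fm (nat_lit 3) t4174)))))))
noncomputable def l29820 : Lb := (@Lb.d (nat_lit 2) (nat_lit 16) (nat_lit 137) (@Lb.g g8 (@Lb.g g9 (@Lb.g g10 (@Lb.g g11 (@Lb.r r519 (@Lb.r r1448 (@Lb.r r1130 (@Lb.r r1049 (@Lb.d (nat_lit 265) (nat_lit 73) (nat_lit 152) (@Lb.fp (nat_lit 9) t5409)))))))))))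
noncomputable def l29821 : Lb := (@Lb.r r21 (@Lb.r r70 (@Lb.d (nat_lit 658) (nat_lit 256) (nat_lit 136) (@Lb.g g8 (@Lb.g g11 (@Lb.r r74 (@Lb.r r25 (@Lb.d (nat_lit 292) (nat_lit 64) (nat_lit 2) (@Lb.fm (nat_lit 3) t3937)))))))))
noncomputable def l29822 : Lb := (@Lb.r r2069 (@Lb.r r2118 (@Lb.d (nat_lit 408) (nat_lit 512) (nat_lit 392) (@Lb.g g8 (@Lb.g g11 (@Lb.d (nat_lit 2) (nat_lit 64) (nat_lit 34) (@Lb.fm (nat_lit 3) t4174)))))))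
noncomputable def l29823 : Lb := (@Lb.r r82 (@Lb.d (nat_lit 8) (nat_lit 258) (nat_lit 128) (@Lb.g g9 (@Lb.g g11 (@Lb.r r1319 (@Lb.r r602 (@Lb.r r600 (@Lb.r r341 (@Lb.d (nat_lit 580) (nat_lit 24) (nat_lit 296) (@Lb.fp (nat_lit 3) t2409))))))))))
noncomputable def l29824 : Lb := (@Lb.d (nat_lit 162) (nat_lit 70) (nat_lit 328) (@Lb.r r101 (@Lb.r r24 (@Lb.r r682 (@Lb.r r1447 (@Lb.g g7 (@Lb.g g6 (@Lb.g g5 (@Lb.d (nat_lit 4) (nat_lit 8) (nat_lit 70) (@Lb.t (@Lb.fm (nat_lit 9) t635)))))))))))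
noncomputable def l29825 : Lb := (@Lb.r r21 (@Lb.r r70 (@Lb.d (nat_lit 408) (nat_lit 512) (nat_lit 136) (@Lb.g g8 (@Lb.g g11 (@Lb.r r74 (@Lb.r r25 (@Lb.d (nat_lit 548) (nat_lit 0) (nat_lit 2) (@Lb.fm (nat_lit 3) t3937)))))))))
noncomputable def l29826 : Lb := (@Lb.d (nat_lit 102) (nat_lit 257) (nat_lit 517) (@Lb.r r1060 (@Lb.r r97 (@Lb.r r618 (@Lb.g g11 (@Lb.g g6 (@Lb.g g4 (@Lb.d (nat_lit 130) (nat_lit 32) (nat_lit 390) (@Lb.r r25 (@Lb.t (@Lb.fp (nat_lit 9) t5410)))))))))))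
noncomputable def l29827 : Lb := (@Lb.d (nat_lit 5) (nat_lit 258) (nat_lit 40) (@Lb.r r609 (@Lb.r r619 (@Lb.r r584 (@Lb.g g6 (@Lb.d (nat_lit 16) (nat_lit 0) (nat_lit 1) (@Lb.r r387 (@Lb.t (@Lb.fp (nat_lit 3) t68)))))))))
noncomputable def l29828 : Lb := (@Lb.d (nat_lit 329) (nat_lit 549) (nat_lit 129) (@Lb.r r289 (@Lb.r r535 (@Lb.r r328 (@Lb.r r2726 (@Lb.g g7 (@Lb.g g6 (@Lb.g g5 (@Lb.d (nat_lit 4) (nat_lit 6) (nat_lit 132) (@Lb.t (@Lb.fp (nat_lit 9) t3377)))))))))))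
noncomputable def l29829 : Lb := (@Lb.d (nat_lit 322) (nat_lit 64) (nat_lit 128) (@Lb.r r289 (@Lb.r r2567 (@Lb.r r1368 (@Lb.r r2726 (@Lb.g g7 (@Lb.g g6 (@Lb.d (nat_lit 0) (nat_lit 0) (nat_lit 129) (@Lb.fm (nat_lit 3) t1260)))))))))
noncomputable def l29830 : Lb := (@Lb.r r1346 (@Lb.d (nat_lit 0) (nat_lit 0) (nat_lit 576) (@Lb.g g9 (@Lb.g g7 (@Lb.d (nat_lit 0) (nat_lit 0) (nat_lit 64) (@Lb.fp (nat_lit 3) t2))))))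
noncomputable def l29831 : Lb := (@Lb.r r323 (@Lb.d (nat_lit 10) (nat_lit 0) (nat_lit 18) (@Lb.g g8 (@Lb.g g10 (@Lb.r r2659 (@Lb.r r149 (@Lb.r r1636 (@Lb.d (nat_lit 42) (nat_lit 154) (nat_lit 274) (@Lb.fp (nat_lit 3) t3998)))))))))
noncomputable def l29832 : Lb := (@Lb.d (nat_lit 2) (nat_lit 36) (nat_lit 128) (@Lb.g g8 (@Lb.g g9 (@Lb.g g10 (@Lb.g g11 (@Lb.r r1194 (@Lb.r r1444 (@Lb.r r2331 (@Lb.r r2085 (@Lb.d (nat_lit 69) (nat_lit 33) (nat_lit 586) (@Lb.fp (nat_lit 9) t3612)))))))))))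
noncomputable def l29833 : Lb := (@Lb.r r275 (@Lb.d (nat_lit 0) (nat_lit 512) (nat_lit 2) (@Lb.g g9 (@Lb.g g10 (@Lb.r r611 (@Lb.r r2214 (@Lb.r r2148 (@Lb.r r2069 (@Lb.d (nat_lit 138) (nat_lit 145) (nat_lit 384) (@Lb.fm (nat_lit 3) t261))))))))))
noncomputable def l29834 : Lb := (@Lb.d (nat_lit 2) (nat_lit 514) (nat_lit 73) (@Lb.g g4 (@Lb.g g9 (@Lb.g g10 (@Lb.g g11 (@Lb.r r1671 (@Lb.r r145 (@Lb.r r594 (@Lb.r r1169 (@Lb.d (nat_lit 264) (nat_lit 97) (nat_lit 618) (@Lb.fp (nat_lit 9) t1649)))))))))))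
noncomputable def l29835 : Lb := (@Lb.d (nat_lit 2) (nat_lit 2) (nat_lit 130) (@Lb.g g4 (@Lb.g g9 (@Lb.g g10 (@Lb.g g11 (@Lb.r r1671 (@Lb.r r145 (@Lb.r r594 (@Lb.r r1169 (@Lb.d (nat_lit 265) (nat_lit 97) (nat_lit 618) (@Lb.fp (nat_lit 9) t1649)))))))))))
noncomputable def l29836 : Lb := (@Lb.d (nat_lit 32) (nat_lit 514) (nat_lit 130) (@Lb.g g9 (@Lb.g g10 (@Lb.g g11 (@Lb.r r2695 (@Lb.r r1352 (@Lb.r r1190 (@Lb.r r2337 (@Lb.d (nat_lit 677) (nat_lit 18) (nat_lit 84) (@Lb.t (@Lb.fm (nat_lit 9) t242)))))))))))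
noncomputable def l29837 : Lb := (@Lb.r r82 (@Lb.d (nat_lit 0) (nat_lit 258) (nat_lit 128) (@Lb.g g8 (@Lb.g g9 (@Lb.g g11 (@Lb.r r1643 (@Lb.r r386 (@Lb.r r1188 (@Lb.r r1061 (@Lb.d (nat_lit 361) (nat_lit 130) (nat_lit 594) (@Lb.t (@Lb.fp (nat_lit 9) t98))))))))))))
noncomputable def l29838 : Lb := (@Lb.d (nat_lit 2) (nat_lit 258) (nat_lit 130) (@Lb.g g4 (@Lb.g g9 (@Lb.g g10 (@Lb.g g11 (@Lb.r r1671 (@Lb.r r145 (@Lb.r r594 (@Lb.r r1169 (@Lb.d (nat_lit 264) (nat_lit 97) (nat_lit 618) (@Lb.fp (nat_lit 9) t1649)))))))))))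
noncomputable def l29839 : Lb := (@Lb.r r24 (@Lb.r r82 (@Lb.r r275 (@Lb.g g9 (@Lb.g g4 (@Lb.d (nat_lit 1) (nat_lit 514) (nat_lit 0) (@Lb.r r291 (@Lb.r r98 (@Lb.fm (nat_lit 3) t5)))))))))
noncomputable def l29840 : Lb := (@Lb.r r82 (@Lb.d (nat_lit 0) (nat_lit 32) (nat_lit 64) (@Lb.g g4 (@Lb.g g9 (@Lb.g g11 (@Lb.r r1635 (@Lb.r r2454 (@Lb.r r1621 (@Lb.d (nat_lit 546) (nat_lit 166) (nat_lit 664) (@Lb.t (@Lb.fp (nat_lit 9) t218)))))))))))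
noncomputable def l29841 : Lb := (@Lb.r r1307 (@Lb.r r1114 (@Lb.r r20 (@Lb.r r1049 (@Lb.d (nat_lit 258) (nat_lit 2) (nat_lit 0) (@Lb.fp (nat_lit 1) t284))))))
noncomputable def l29842 : Lb := (@Lb.r r323 (@Lb.d (nat_lit 0) (nat_lit 258) (nat_lit 1) (@Lb.g g9 (@Lb.g g6 (@Lb.r r387 (@Lb.r r97 (@Lb.r r24 (@Lb.d (nat_lit 10) (nat_lit 9) (nat_lit 2) (@Lb.fp (nat_lit 3) t40)))))))))
noncomputable def l29843 : Lb := (@Lb.r r82 (@Lb.d (nat_lit 9) (nat_lit 9) (nat_lit 128) (@Lb.g g8 (@Lb.g g9 (@Lb.g g11 (@Lb.r r363 (@Lb.r r150 (@Lb.r r85 (@Lb.d (nat_lit 4) (nat_lit 6) (nat_lit 136) (@Lb.t (@Lb.fp (nat_lit 9) t546)))))))))))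
noncomputable def l29844 : Lb := (@Lb.d (nat_lit 0) (nat_lit 514) (nat_lit 73) (@Lb.g g4 (@Lb.g g9 (@Lb.g g10 (@Lb.g g11 (@Lb.r r1671 (@Lb.r r145 (@Lb.r r594 (@Lb.r r1169 (@Lb.d (nat_lit 532) (nat_lit 96) (nat_lit 586) (@Lb.fp (nat_lit 9) t504)))))))))))
noncomputable def l29845 : Lb := (@Lb.d (nat_lit 9) (nat_lit 256) (nat_lit 0) (@Lb.g g8 (@Lb.r r101 (@Lb.r r402 (@Lb.d (nat_lit 2) (nat_lit 0) (nat_lit 16) (@Lb.t (@Lb.fp (nat_lit 3) t590)))))))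
noncomputable def l29846 : Lb := (@Lb.r r82 (@Lb.d (nat_lit 2) (nat_lit 10) (nat_lit 128) (@Lb.g g8 (@Lb.g g9 (@Lb.g g11 (@Lb.r r363 (@Lb.r r150 (@Lb.r r85 (@Lb.d (nat_lit 4) (nat_lit 170) (nat_lit 386) (@Lb.t (@Lb.fp (nat_lit 9) t3686)))))))))))
noncomputable def l29847 : Lb := (@Lb.d (nat_lit 5) (nat_lit 256) (nat_lit 73) (@Lb.g g4 (@Lb.g g9 (@Lb.g g10 (@Lb.g g11 (@Lb.r r1671 (@Lb.r r145 (@Lb.r r594 (@Lb.r r1169 (@Lb.d (nat_lit 532) (nat_lit 96) (nat_lit 586) (@Lb.fp (nat_lit 9) t504)))))))))))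
noncomputable def l29848 : Lb := (@Lb.r r82 (@Lb.d (nat_lit 2) (nat_lit 256) (nat_lit 128) (@Lb.g g8 (@Lb.g g9 (@Lb.g g11 (@Lb.r r586 (@Lb.r r611 (@Lb.r r529 (@Lb.d (nat_lit 74) (nat_lit 40) (nat_lit 130) (@Lb.t (@Lb.fp (nat_lit 9) t50)))))))))))
noncomputable def l29849 : Lb := (@Lb.r r82 (@Lb.d (nat_lit 2) (nat_lit 522) (nat_lit 0) (@Lb.g g8 (@Lb.g g9 (@Lb.r r2631 (@Lb.r r150 (@Lb.r r85 (@Lb.d (nat_lit 4) (nat_lit 134) (nat_lit 86) (@Lb.fm (nat_lit 3) t1161)))))))))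
noncomputable def l29850 : Lb := (@Lb.r r20 (@Lb.r r82 (@Lb.d (nat_lit 0) (nat_lit 514) (nat_lit 584) (@Lb.g g9 (@Lb.g g7 (@Lb.r r1381 (@Lb.r r146 (@Lb.d (nat_lit 360) (nat_lit 154) (nat_lit 361) (@Lb.fp (nat_lit 3) t1325)))))))))
noncomputable def l29851 : Lb := (@Lb.r r275 (@Lb.d (nat_lit 1) (nat_lit 266) (nat_lit 9) (@Lb.g g8 (@Lb.g g9 (@Lb.g g10 (@Lb.r r595 (@Lb.r r1177 (@Lb.r r1688 (@Lb.r r1610 (@Lb.d (nat_lit 673) (nat_lit 10) (nat_lit 1) (@Lb.t (@Lb.fm (nat_lit 9) t5411))))))))))))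
noncomputable def l29852 : Lb := (@Lb.d (nat_lit 22) (nat_lit 64) (nat_lit 341) (@Lb.r r1702 (@Lb.r r1687 (@Lb.r r328 (@Lb.r r353 (@Lb.g g7 (@Lb.g g6 (@Lb.d (nat_lit 16) (nat_lit 0) (nat_lit 64) (@Lb.fm (nat_lit 3) t5412)))))))))
noncomputable def l29853 : Lb := (@Lb.d (nat_lit 133) (nat_lit 256) (nat_lit 130) (@Lb.g g8 (@Lb.g g9 (@Lb.g g10 (@Lb.g g11 (@Lb.r r683 (@Lb.r r2410 (@Lb.r r2329 (@Lb.r r516 (@Lb.d (nat_lit 265) (nat_lit 169) (nat_lit 425) (@Lb.fm (nat_lit 9) t605)))))))))))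
noncomputable def l29854 : Lb := (@Lb.r r21 (@Lb.r r70 (@Lb.d (nat_lit 2) (nat_lit 528) (nat_lit 256) (@Lb.g g8 (@Lb.g g11 (@Lb.r r2469 (@Lb.r r1706 (@Lb.r r1636 (@Lb.d (nat_lit 528) (nat_lit 22) (nat_lit 650) (@Lb.fm (nat_lit 3) t5413))))))))))
noncomputable def l29855 : Lb := (@Lb.r r21 (@Lb.r r70 (@Lb.d (nat_lit 2) (nat_lit 256) (nat_lit 0) (@Lb.g g8 (@Lb.g g11 (@Lb.r r2469 (@Lb.r r1706 (@Lb.r r1636 (@Lb.d (nat_lit 0) (nat_lit 154) (nat_lit 666) (@Lb.fm (nat_lit 3) t5414))))))))))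
noncomputable def l29856 : Lb := (@Lb.r r20 (@Lb.d (nat_lit 0) (nat_lit 277) (nat_lit 586) (@Lb.g g9 (@Lb.g g10 (@Lb.g g7 (@Lb.r r2650 (@Lb.r r1365 (@Lb.d (nat_lit 336) (nat_lit 33) (nat_lit 341) (@Lb.t (@Lb.fp (nat_lit 9) t2288))))))))))
noncomputable def l29857 : Lb := (@Lb.r r275 (@Lb.d (nat_lit 2) (nat_lit 10) (nat_lit 9) (@Lb.g g8 (@Lb.g g9 (@Lb.g g10 (@Lb.r r595 (@Lb.r r1177 (@Lb.r r1688 (@Lb.r r1610 (@Lb.d (nat_lit 673) (nat_lit 10) (nat_lit 1) (@Lb.t (@Lb.fm (nat_lit 9) t5411))))))))))))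
noncomputable def l29858 : Lb := (@Lb.d (nat_lit 1) (nat_lit 278) (nat_lit 586) (@Lb.g g8 (@Lb.g g9 (@Lb.g g10 (@Lb.g g7 (@Lb.r r2646 (@Lb.r r1369 (@Lb.r r36 (@Lb.d (nat_lit 674) (nat_lit 68) (nat_lit 341) (@Lb.fm (nat_lit 9) t2024))))))))))
noncomputable def l29859 : Lb := (@Lb.r r20 (@Lb.d (nat_lit 0) (nat_lit 21) (nat_lit 586) (@Lb.g g9 (@Lb.g g10 (@Lb.g g7 (@Lb.r r2650 (@Lb.r r1365 (@Lb.d (nat_lit 337) (nat_lit 33) (nat_lit 341) (@Lb.t (@Lb.fp (nat_lit 9) t2288))))))))))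
noncomputable def l29860 : Lb := (@Lb.d (nat_lit 640) (nat_lit 538) (nat_lit 1) (@Lb.g g4 (@Lb.g g9 (@Lb.g g10 (@Lb.g g11 (@Lb.r r677 (@Lb.r r1634 (@Lb.r r1635 (@Lb.d (nat_lit 544) (nat_lit 88) (nat_lit 673) (@Lb.fm (nat_lit 9) t328))))))))))
noncomputable def l29861 : Lb := (@Lb.d (nat_lit 2) (nat_lit 9) (nat_lit 9) (@Lb.g g8 (@Lb.g g9 (@Lb.g g10 (@Lb.g g11 (@Lb.r r1194 (@Lb.r r424 (@Lb.r r279 (@Lb.r r1553 (@Lb.r r2084 (@Lb.d (nat_lit 2) (nat_lit 97) (nat_lit 586) (@Lb.fp (nat_lit 9) t594))))))))))))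
noncomputable def l29862 : Lb := (@Lb.d (nat_lit 8) (nat_lit 2) (nat_lit 0) (@Lb.g g5 (@Lb.g g7 (@Lb.r r164 (@Lb.r r598 (@Lb.r r673 (@Lb.d (nat_lit 0) (nat_lit 137) (nat_lit 265) (@Lb.fp (nat_lit 3) t259))))))))
noncomputable def l29863 : Lb := (@Lb.d (nat_lit 0) (nat_lit 0) (nat_lit 5) (@Lb.g g10 (@Lb.g g11 (@Lb.r r2694 (@Lb.r r2404 (@Lb.r r1579 (@Lb.r r289 (@Lb.d (nat_lit 518) (nat_lit 96) (nat_lit 0) (@Lb.fp (nat_lit 3) t4699)))))))))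
noncomputable def l29864 : Lb := (@Lb.d (nat_lit 2) (nat_lit 2) (nat_lit 2) (@Lb.g g8 (@Lb.g g9 (@Lb.g g10 (@Lb.r r1689 (@Lb.r r2579 (@Lb.r r386 (@Lb.d (nat_lit 289) (nat_lit 10) (nat_lit 102) (@Lb.t (@Lb.fm (nat_lit 9) t791))))))))))
noncomputable def l29865 : Lb := (@Lb.d (nat_lit 2) (nat_lit 265) (nat_lit 72) (@Lb.g g8 (@Lb.g g9 (@Lb.g g10 (@Lb.g g11 (@Lb.r r1559 (@Lb.r r617 (@Lb.r r2386 (@Lb.d (nat_lit 289) (nat_lit 162) (nat_lit 361) (@Lb.fp (nat_lit 9) t4731))))))))))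
noncomputable def l29866 : Lb := (@Lb.d (nat_lit 18) (nat_lit 514) (nat_lit 138) (@Lb.g g8 (@Lb.g g9 (@Lb.g g10 (@Lb.g g11 (@Lb.r r680 (@Lb.r r2731 (@Lb.r r138 (@Lb.r r97 (@Lb.r r36 (@Lb.d (nat_lit 666) (nat_lit 68) (nat_lit 641) (@Lb.fp (nat_lit 9) t5415))))))))))))
noncomputable def l29867 : Lb := (@Lb.d (nat_lit 18) (nat_lit 258) (nat_lit 0) (@Lb.g g8 (@Lb.g g9 (@Lb.g g10 (@Lb.g g11 (@Lb.r r683 (@Lb.r r610 (@Lb.r r2069 (@Lb.r r1060 (@Lb.d (nat_lit 264) (nat_lit 90) (nat_lit 665) (@Lb.fm (nat_lit 9) t10)))))))))))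
noncomputable def l29868 : Lb := (@Lb.d (nat_lit 18) (nat_lit 2) (nat_lit 136) (@Lb.g g8 (@Lb.g g9 (@Lb.g g10 (@Lb.g g11 (@Lb.r r1622 (@Lb.r r1640 (@Lb.r r619 (@Lb.r r97 (@Lb.d (nat_lit 545) (nat_lit 100) (nat_lit 661) (@Lb.fm (nat_lit 9) t5416)))))))))))
noncomputable def l29869 : Lb := (@Lb.d (nat_lit 129) (nat_lit 258) (nat_lit 66) (@Lb.g g8 (@Lb.g g9 (@Lb.g g10 (@Lb.g g11 (@Lb.r r427 (@Lb.r r164 (@Lb.r r2438 (@Lb.r r97 (@Lb.d (nat_lit 545) (nat_lit 24) (nat_lit 402) (@Lb.fp (nat_lit 9) t5417)))))))))))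
noncomputable def l29870 : Lb := (@Lb.g g10 (@Lb.r r289 (@Lb.r r535 (@Lb.r r328 (@Lb.r r134 (@Lb.t (@Lb.p (nat_lit 1) (@Lb.fp (nat_lit 3) t40))))))))
noncomputable def l29871 : Lb := (@Lb.d (nat_lit 32) (nat_lit 256) (nat_lit 74) (@Lb.g g10 (@Lb.g g11 (@Lb.r r1384 (@Lb.r r2471 (@Lb.r r2449 (@Lb.r r2386 (@Lb.d (nat_lit 278) (nat_lit 148) (nat_lit 660) (@Lb.fp (nat_lit 3) t40)))))))))
noncomputable def l29872 : Lb := (@Lb.d (nat_lit 0) (nat_lit 544) (nat_lit 64) (@Lb.g g11 (@Lb.r r293 (@Lb.r r347 (@Lb.r r614 (@Lb.d (nat_lit 1) (nat_lit 2) (nat_lit 84) (@Lb.t (@Lb.fm (nat_lit 3) t1149))))))))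
noncomputable def l29873 : Lb := (@Lb.d (nat_lit 0) (nat_lit 516) (nat_lit 1) (@Lb.g g6 (@Lb.g g11 (@Lb.d (nat_lit 0) (nat_lit 166) (nat_lit 597) (@Lb.fp (nat_lit 3) t44)))))
noncomputable def l29874 : Lb := (@Lb.d (nat_lit 2) (nat_lit 36) (nat_lit 4) (@Lb.g g8 (@Lb.g g9 (@Lb.g g10 (@Lb.g g11 (@Lb.r r2713 (@Lb.r r531 (@Lb.r r2722 (@Lb.d (nat_lit 105) (nat_lit 73) (nat_lit 337) (@Lb.fp (nat_lit 9) t892))))))))))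
noncomputable def l29875 : Lb := (@Lb.d (nat_lit 2) (nat_lit 514) (nat_lit 66) (@Lb.g g8 (@Lb.g g9 (@Lb.g g10 (@Lb.g g11 (@Lb.r r1299 (@Lb.r r2666 (@Lb.r r612 (@Lb.r r533 (@Lb.r r2084 (@Lb.d (nat_lit 129) (nat_lit 137) (nat_lit 642) (@Lb.fp (nat_lit 9) t1122))))))))))))
noncomputable def l29876 : Lb := (@Lb.d (nat_lit 2) (nat_lit 264) (nat_lit 66) (@Lb.g g8 (@Lb.g g10 (@Lb.g g11 (@Lb.r r1419 (@Lb.r r1321 (@Lb.r r1416 (@Lb.r r1434 (@Lb.d (nat_lit 258) (nat_lit 21) (nat_lit 8) (@Lb.t (@Lb.fp (nat_lit 9) t1663)))))))))))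
noncomputable def l29877 : Lb := (@Lb.d (nat_lit 2) (nat_lit 2) (nat_lit 66) (@Lb.g g8 (@Lb.g g9 (@Lb.g g10 (@Lb.g g11 (@Lb.r r1299 (@Lb.r r2666 (@Lb.r r612 (@Lb.r r533 (@Lb.r r2084 (@Lb.d (nat_lit 128) (nat_lit 137) (nat_lit 642) (@Lb.fp (nat_lit 9) t1122))))))))))))
noncomputable def l29878 : Lb := (@Lb.d (nat_lit 2) (nat_lit 265) (nat_lit 65) (@Lb.g g8 (@Lb.g g9 (@Lb.g g10 (@Lb.g g11 (@Lb.r r1299 (@Lb.r r2666 (@Lb.r r612 (@Lb.r r533 (@Lb.r r2084 (@Lb.d (nat_lit 136) (nat_lit 136) (nat_lit 642) (@Lb.fp (nat_lit 9) t5418))))))))))))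
noncomputable def l29879 : Lb := (@Lb.d (nat_lit 2) (nat_lit 2) (nat_lit 66) (@Lb.g g8 (@Lb.g g9 (@Lb.g g10 (@Lb.g g11 (@Lb.r r1299 (@Lb.r r2666 (@Lb.r r612 (@Lb.r r533 (@Lb.r r2084 (@Lb.d (nat_lit 136) (nat_lit 136) (nat_lit 642) (@Lb.fp (nat_lit 9) t1122))))))))))))
noncomputable def l29880 : Lb := (@Lb.d (nat_lit 2) (nat_lit 322) (nat_lit 130) (@Lb.g g8 (@Lb.g g9 (@Lb.g g10 (@Lb.g g11 (@Lb.r r2475 (@Lb.r r420 (@Lb.r r102 (@Lb.r r132 (@Lb.d (nat_lit 297) (nat_lit 1) (nat_lit 73) (@Lb.fp (nat_lit 9) t2488)))))))))))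
noncomputable def l29881 : Lb := (@Lb.d (nat_lit 0) (nat_lit 586) (nat_lit 514) (@Lb.r r402 (@Lb.g g11 (@Lb.t (@Lb.fm (nat_lit 3) t349)))))
noncomputable def l29882 : Lb := (@Lb.d (nat_lit 2) (nat_lit 96) (nat_lit 640) (@Lb.r r322 (@Lb.r r659 (@Lb.r r578 (@Lb.g g5 (@Lb.g g8 (@Lb.d (nat_lit 9) (nat_lit 128) (nat_lit 0) (@Lb.fm (nat_lit 3) t2297))))))))
noncomputable def l29883 : Lb := (@Lb.d (nat_lit 162) (nat_lit 258) (nat_lit 0) (@Lb.g g8 (@Lb.g g9 (@Lb.r r598 (@Lb.r r425 (@Lb.r r599 (@Lb.r r404 (@Lb.d (nat_lit 102) (nat_lit 22) (nat_lit 73) (@Lb.fm (nat_lit 3) t21)))))))))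
noncomputable def l29884 : Lb := (@Lb.d (nat_lit 4) (nat_lit 1) (nat_lit 2) (@Lb.g g8 (@Lb.g g9 (@Lb.g g10 (@Lb.r r2731 (@Lb.r r1642 (@Lb.r r1561 (@Lb.d (nat_lit 585) (nat_lit 100) (nat_lit 416) (@Lb.t (@Lb.fp (nat_lit 9) t324))))))))))
noncomputable def l29885 : Lb := (@Lb.d (nat_lit 0) (nat_lit 260) (nat_lit 105) (@Lb.g g8 (@Lb.g g9 (@Lb.g g6 (@Lb.g g11 (@Lb.r r579 (@Lb.r r1313 (@Lb.d (nat_lit 2) (nat_lit 98) (nat_lit 154) (@Lb.fm (nat_lit 9) t388)))))))))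
noncomputable def l29886 : Lb := (@Lb.d (nat_lit 2) (nat_lit 274) (nat_lit 133) (@Lb.r r579 (@Lb.r r338 (@Lb.g g7 (@Lb.g g6 (@Lb.g g5 (@Lb.g g8 (@Lb.d (nat_lit 9) (nat_lit 128) (nat_lit 133) (@Lb.fp (nat_lit 9) t360)))))))))
noncomputable def l29887 : Lb := (@Lb.d (nat_lit 0) (nat_lit 514) (nat_lit 130) (@Lb.g g9 (@Lb.g g10 (@Lb.g g11 (@Lb.r r642 (@Lb.r r387 (@Lb.r r104 (@Lb.r r25 (@Lb.d (nat_lit 22) (nat_lit 148) (nat_lit 392) (@Lb.t (@Lb.fm (nat_lit 9) t2781)))))))))))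
noncomputable def l29888 : Lb := (@Lb.d (nat_lit 102) (nat_lit 362) (nat_lit 132) (@Lb.r r20 (@Lb.r r25 (@Lb.r r90 (@Lb.r r596 (@Lb.g g11 (@Lb.g g6 (@Lb.g g5 (@Lb.g g4 (@Lb.d (nat_lit 1) (nat_lit 8) (nat_lit 128) (@Lb.fm (nat_lit 9) t31)))))))))))
noncomputable def l29889 : Lb := (@Lb.d (nat_lit 128) (nat_lit 512) (nat_lit 64) (@Lb.g g9 (@Lb.g g11 (@Lb.r r264 (@Lb.r r279 (@Lb.r r402 (@Lb.r r609 (@Lb.d (nat_lit 25) (nat_lit 74) (nat_lit 18) (@Lb.fp (nat_lit 3) t334)))))))))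
noncomputable def l29890 : Lb := (@Lb.r r21 (@Lb.g g8 (@Lb.r r1049 (@Lb.r r1028 (@Lb.t (@Lb.fp (nat_lit 3) t2))))))
noncomputable def l29891 : Lb := (@Lb.g g8 (@Lb.r r101 (@Lb.d (nat_lit 256) (nat_lit 592) (nat_lit 280) (@Lb.t (@Lb.fm (nat_lit 3) t1174)))))
noncomputable def l29892 : Lb := (@Lb.d (nat_lit 102) (nat_lit 618) (nat_lit 132) (@Lb.r r20 (@Lb.r r25 (@Lb.r r90 (@Lb.r r596 (@Lb.g g11 (@Lb.g g6 (@Lb.g g5 (@Lb.g g4 (@Lb.d (nat_lit 1) (nat_lit 8) (nat_lit 74) (@Lb.fm (nat_lit 9) t31)))))))))))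
noncomputable def l29893 : Lb := (@Lb.d (nat_lit 0) (nat_lit 290) (nat_lit 66) (@Lb.g g9 (@Lb.g g10 (@Lb.g g11 (@Lb.r r1415 (@Lb.r r2585 (@Lb.r r1624 (@Lb.r r2438 (@Lb.d (nat_lit 105) (nat_lit 80) (nat_lit 352) (@Lb.t (@Lb.fm (nat_lit 9) t523)))))))))))
noncomputable def l29894 : Lb := (@Lb.r r323 (@Lb.d (nat_lit 6) (nat_lit 64) (nat_lit 0) (@Lb.g g4 (@Lb.g g9 (@Lb.g g10 (@Lb.r r419 (@Lb.r r98 (@Lb.d (nat_lit 8) (nat_lit 8) (nat_lit 2) (@Lb.t (@Lb.fp (nat_lit 9) t51))))))))))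
noncomputable def l29895 : Lb := (@Lb.d (nat_lit 262) (nat_lit 257) (nat_lit 613) (@Lb.r r1096 (@Lb.r r323 (@Lb.r r2710 (@Lb.r r337 (@Lb.g g7 (@Lb.g g6 (@Lb.g g5 (@Lb.d (nat_lit 0) (nat_lit 1) (nat_lit 128) (@Lb.t (@Lb.fp (nat_lit 9) t4157)))))))))))
noncomputable def l29896 : Lb := (@Lb.d (nat_lit 4) (nat_lit 256) (nat_lit 88) (@Lb.g g8 (@Lb.g g9 (@Lb.g g6 (@Lb.g g11 (@Lb.r r2657 (@Lb.r r24 (@Lb.d (nat_lit 0) (nat_lit 90) (nat_lit 128) (@Lb.fm (nat_lit 9) t2877)))))))))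
noncomputable def l29897 : Lb := (@Lb.r r275 (@Lb.d (nat_lit 130) (nat_lit 514) (nat_lit 2) (@Lb.g g8 (@Lb.g g9 (@Lb.g g10 (@Lb.r r394 (@Lb.r r583 (@Lb.r r1432 (@Lb.d (nat_lit 661) (nat_lit 26) (nat_lit 106) (@Lb.t (@Lb.fp (nat_lit 9) t4759)))))))))))
noncomputable def l29898 : Lb := (@Lb.d (nat_lit 4) (nat_lit 512) (nat_lit 88) (@Lb.g g8 (@Lb.g g9 (@Lb.g g6 (@Lb.g g11 (@Lb.r r2657 (@Lb.r r24 (@Lb.d (nat_lit 10) (nat_lit 89) (nat_lit 128) (@Lb.fm (nat_lit 9) t2877)))))))))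
noncomputable def l29899 : Lb := (@Lb.d (nat_lit 32) (nat_lit 0) (nat_lit 89) (@Lb.g g9 (@Lb.g g10 (@Lb.g g11 (@Lb.r r2471 (@Lb.r r1624 (@Lb.r r2341 (@Lb.d (nat_lit 66) (nat_lit 0) (nat_lit 514) (@Lb.t (@Lb.fm (nat_lit 9) t1954))))))))))
noncomputable def l29900 : Lb := (@Lb.d (nat_lit 0) (nat_lit 256) (nat_lit 73) (@Lb.g g9 (@Lb.g g10 (@Lb.g g11 (@Lb.r r419 (@Lb.r r674 (@Lb.r r2341 (@Lb.r r24 (@Lb.d (nat_lit 354) (nat_lit 0) (nat_lit 32) (@Lb.t (@Lb.fp (nat_lit 9) t3695)))))))))))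
noncomputable def l29901 : Lb := (@Lb.d (nat_lit 528) (nat_lit 290) (nat_lit 10) (@Lb.g g8 (@Lb.g g9 (@Lb.g g6 (@Lb.r r403 (@Lb.r r2657 (@Lb.d (nat_lit 2) (nat_lit 153) (nat_lit 168) (@Lb.t (@Lb.fm (nat_lit 9) t600)))))))))
noncomputable def l29902 : Lb := (@Lb.d (nat_lit 16) (nat_lit 545) (nat_lit 10) (@Lb.g g9 (@Lb.g g6 (@Lb.r r2579 (@Lb.r r289 (@Lb.r r1608 (@Lb.d (nat_lit 658) (nat_lit 97) (nat_lit 550) (@Lb.fm (nat_lit 3) t5419))))))))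
noncomputable def l29903 : Lb := (@Lb.r r21 (@Lb.d (nat_lit 16) (nat_lit 256) (nat_lit 0) (@Lb.g g8 (@Lb.g g10 (@Lb.r r1684 (@Lb.r r1687 (@Lb.r r1602 (@Lb.r r25 (@Lb.d (nat_lit 10) (nat_lit 153) (nat_lit 409) (@Lb.fp (nat_lit 3) t898))))))))))
noncomputable def l29904 : Lb := (@Lb.d (nat_lit 16) (nat_lit 2) (nat_lit 0) (@Lb.g g8 (@Lb.g g9 (@Lb.g g10 (@Lb.r r683 (@Lb.r r676 (@Lb.r r1190 (@Lb.r r145 (@Lb.d (nat_lit 265) (nat_lit 130) (nat_lit 426) (@Lb.t (@Lb.fm (nat_lit 9) t152)))))))))))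
noncomputable def l29905 : Lb := (@Lb.g g8 (@Lb.g g5 (@Lb.r r1446 (@Lb.r r1429 (@Lb.r r1643 (@Lb.r r1608 (@Lb.d (nat_lit 105) (nat_lit 0) (nat_lit 354) (@Lb.fm (nat_lit 3) t282))))))))
noncomputable def l29906 : Lb := (@Lb.r r81 (@Lb.r r323 (@Lb.d (nat_lit 0) (nat_lit 0) (nat_lit 33) (@Lb.g g6 (@Lb.r r387 (@Lb.r r88 (@Lb.r r37 (@Lb.d (nat_lit 10) (nat_lit 90) (nat_lit 281) (@Lb.t (@Lb.fm (nat_lit 3) t1291))))))))))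
noncomputable def l29907 : Lb := (@Lb.d (nat_lit 401) (nat_lit 273) (nat_lit 342) (@Lb.r r2453 (@Lb.r r1174 (@Lb.r r343 (@Lb.g g5 (@Lb.g g4 (@Lb.d (nat_lit 257) (nat_lit 5) (nat_lit 0) (@Lb.r r74 (@Lb.fp (nat_lit 3) t5420)))))))))
noncomputable def l29908 : Lb := (@Lb.d (nat_lit 10) (nat_lit 0) (nat_lit 0) (@Lb.g g8 (@Lb.r r149 (@Lb.r r2148 (@Lb.d (nat_lit 538) (nat_lit 144) (nat_lit 264) (@Lb.t (@Lb.fp (nat_lit 3) t1174)))))))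
noncomputable def l29909 : Lb := (@Lb.d (nat_lit 9) (nat_lit 274) (nat_lit 2) (@Lb.g g8 (@Lb.g g9 (@Lb.g g10 (@Lb.g g11 (@Lb.r r1571 (@Lb.r r404 (@Lb.r r86 (@Lb.r r2201 (@Lb.d (nat_lit 277) (nat_lit 72) (nat_lit 681) (@Lb.fm (nat_lit 9) t5421)))))))))))
noncomputable def l29910 : Lb := (@Lb.d (nat_lit 641) (nat_lit 258) (nat_lit 66) (@Lb.g g8 (@Lb.g g9 (@Lb.g g10 (@Lb.g g11 (@Lb.r r665 (@Lb.r r411 (@Lb.r r2138 (@Lb.r r1169 (@Lb.d (nat_lit 264) (nat_lit 130) (nat_lit 362) (@Lb.fp (nat_lit 9) t3209)))))))))))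
noncomputable def l29911 : Lb := (@Lb.d (nat_lit 2) (nat_lit 514) (nat_lit 66) (@Lb.g g8 (@Lb.g g9 (@Lb.g g10 (@Lb.g g7 (@Lb.r r386 (@Lb.r r100 (@Lb.r r21 (@Lb.r r36 (@Lb.d (nat_lit 258) (nat_lit 90) (nat_lit 345) (@Lb.fp (nat_lit 9) t1174)))))))))))
noncomputable def l29912 : Lb := (@Lb.r r275 (@Lb.d (nat_lit 26) (nat_lit 513) (nat_lit 0) (@Lb.g g8 (@Lb.g g9 (@Lb.g g10 (@Lb.r r1675 (@Lb.r r1185 (@Lb.r r610 (@Lb.r r2072 (@Lb.d (nat_lit 522) (nat_lit 25) (nat_lit 420) (@Lb.t (@Lb.fp (nat_lit 9) t5422))))))))))))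
noncomputable def l29913 : Lb := (@Lb.d (nat_lit 9) (nat_lit 530) (nat_lit 2) (@Lb.g g8 (@Lb.g g9 (@Lb.g g10 (@Lb.g g11 (@Lb.r r1571 (@Lb.r r1106 (@Lb.r r1369 (@Lb.r r2436 (@Lb.d (nat_lit 65) (nat_lit 136) (nat_lit 393) (@Lb.fm (nat_lit 9) t5423)))))))))))
noncomputable def l29914 : Lb := (@Lb.d (nat_lit 641) (nat_lit 2) (nat_lit 66) (@Lb.g g8 (@Lb.g g9 (@Lb.g g10 (@Lb.g g11 (@Lb.r r665 (@Lb.r r411 (@Lb.r r2138 (@Lb.r r1169 (@Lb.d (nat_lit 265) (nat_lit 130) (nat_lit 362) (@Lb.fp (nat_lit 9) t2504)))))))))))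
noncomputable def l29915 : Lb := (@Lb.g g4 (@Lb.r r529 (@Lb.r r659 (@Lb.r r674 (@Lb.r r1105 (@Lb.r r36 (@Lb.d (nat_lit 0) (nat_lit 0) (nat_lit 16) (@Lb.t (@Lb.fm (nat_lit 3) t1242)))))))))
noncomputable def l29916 : Lb := (@Lb.d (nat_lit 641) (nat_lit 272) (nat_lit 2) (@Lb.g g8 (@Lb.g g9 (@Lb.g g10 (@Lb.g g11 (@Lb.r r2707 (@Lb.r r153 (@Lb.r r1114 (@Lb.r r2193 (@Lb.d (nat_lit 532) (nat_lit 149) (nat_lit 266) (@Lb.fm (nat_lit 9) t3810)))))))))))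
noncomputable def l29917 : Lb := (@Lb.d (nat_lit 330) (nat_lit 581) (nat_lit 5) (@Lb.r r2729 (@Lb.r r2660 (@Lb.r r1579 (@Lb.g g6 (@Lb.g g5 (@Lb.d (nat_lit 20) (nat_lit 6) (nat_lit 10) (@Lb.r r403 (@Lb.fm (nat_lit 3) t3199)))))))))
noncomputable def l29918 : Lb := (@Lb.d (nat_lit 73) (nat_lit 273) (nat_lit 2) (@Lb.g g8 (@Lb.g g9 (@Lb.g g10 (@Lb.g g11 (@Lb.r r2323 (@Lb.r r2217 (@Lb.r r98 (@Lb.r r600 (@Lb.d (nat_lit 38) (nat_lit 145) (nat_lit 149) (@Lb.fp (nat_lit 9) t754)))))))))))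
noncomputable def l29919 : Lb := (@Lb.d (nat_lit 394) (nat_lit 4) (nat_lit 614) (@Lb.r r532 (@Lb.r r2370 (@Lb.r r1683 (@Lb.r r1365 (@Lb.g g6 (@Lb.g g5 (@Lb.g g4 (@Lb.d (nat_lit 42) (nat_lit 1) (nat_lit 0) (@Lb.t (@Lb.fm (nat_lit 9) t3084)))))))))))
noncomputable def l29920 : Lb := (@Lb.r r323 (@Lb.d (nat_lit 2) (nat_lit 522) (nat_lit 1) (@Lb.g g8 (@Lb.g g9 (@Lb.g g10 (@Lb.r r1447 (@Lb.r r2212 (@Lb.r r2662 (@Lb.r r533 (@Lb.d (nat_lit 548) (nat_lit 105) (nat_lit 616) (@Lb.t (@Lb.fm (nat_lit 9) t5424))))))))))))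
noncomputable def l29921 : Lb := (@Lb.d (nat_lit 73) (nat_lit 529) (nat_lit 2) (@Lb.g g8 (@Lb.g g9 (@Lb.g g10 (@Lb.g g11 (@Lb.r r2323 (@Lb.r r2217 (@Lb.r r98 (@Lb.r r600 (@Lb.d (nat_lit 38) (nat_lit 152) (nat_lit 148) (@Lb.fp (nat_lit 9) t754)))))))))))
noncomputable def l29922 : Lb := (@Lb.r r275 (@Lb.d (nat_lit 8) (nat_lit 514) (nat_lit 2) (@Lb.g g9 (@Lb.g g10 (@Lb.r r600 (@Lb.r r347 (@Lb.r r610 (@Lb.r r2657 (@Lb.d (nat_lit 292) (nat_lit 149) (nat_lit 256) (@Lb.fm (nat_lit 3) t2767))))))))))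
noncomputable def l29923 : Lb := (@Lb.r r275 (@Lb.d (nat_lit 130) (nat_lit 258) (nat_lit 2) (@Lb.g g8 (@Lb.g g9 (@Lb.g g10 (@Lb.r r599 (@Lb.r r98 (@Lb.r r2145 (@Lb.r r264 (@Lb.d (nat_lit 422) (nat_lit 133) (nat_lit 64) (@Lb.t (@Lb.fp (nat_lit 9) t5425))))))))))))
noncomputable def l29924 : Lb := (@Lb.d (nat_lit 1) (nat_lit 0) (nat_lit 66) (@Lb.g g8 (@Lb.g g9 (@Lb.g g10 (@Lb.g g7 (@Lb.r r386 (@Lb.r r105 (@Lb.r r36 (@Lb.d (nat_lit 41) (nat_lit 82) (nat_lit 329) (@Lb.fm (nat_lit 9) t845))))))))))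
noncomputable def l29925 : Lb := (@Lb.d (nat_lit 33) (nat_lit 0) (nat_lit 128) (@Lb.g g8 (@Lb.g g11 (@Lb.r r1158 (@Lb.r r1057 (@Lb.r r100 (@Lb.d (nat_lit 26) (nat_lit 88) (nat_lit 289) (@Lb.fm (nat_lit 3) t430))))))))
noncomputable def l29926 : Lb := (@Lb.r r275 (@Lb.d (nat_lit 2) (nat_lit 266) (nat_lit 1) (@Lb.g g8 (@Lb.g g9 (@Lb.g g10 (@Lb.r r683 (@Lb.r r2218 (@Lb.r r2212 (@Lb.r r2085 (@Lb.d (nat_lit 520) (nat_lit 73) (nat_lit 18) (@Lb.t (@Lb.fp (nat_lit 9) t803))))))))))))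
noncomputable def l29927 : Lb := (@Lb.d (nat_lit 168) (nat_lit 514) (nat_lit 64) (@Lb.g g9 (@Lb.g g10 (@Lb.g g11 (@Lb.r r264 (@Lb.r r279 (@Lb.r r593 (@Lb.r r418 (@Lb.d (nat_lit 98) (nat_lit 36) (nat_lit 68) (@Lb.t (@Lb.fm (nat_lit 9) t2)))))))))))
noncomputable def l29928 : Lb := (@Lb.d (nat_lit 168) (nat_lit 2) (nat_lit 128) (@Lb.g g9 (@Lb.g g10 (@Lb.g g11 (@Lb.r r264 (@Lb.r r279 (@Lb.r r593 (@Lb.r r418 (@Lb.d (nat_lit 96) (nat_lit 36) (nat_lit 68) (@Lb.t (@Lb.fm (nat_lit 9) t2)))))))))))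
noncomputable def l29929 : Lb := (@Lb.d (nat_lit 1) (nat_lit 264) (nat_lit 0) (@Lb.g g8 (@Lb.g g10 (@Lb.r r1361 (@Lb.r r1699 (@Lb.r r618 (@Lb.r r2120 (@Lb.d (nat_lit 168) (nat_lit 144) (nat_lit 518) (@Lb.fm (nat_lit 3) t282)))))))))
noncomputable def l29930 : Lb := (@Lb.d (nat_lit 1) (nat_lit 0) (nat_lit 74) (@Lb.g g8 (@Lb.g g10 (@Lb.g g11 (@Lb.r r651 (@Lb.r r644 (@Lb.r r150 (@Lb.r r2145 (@Lb.d (nat_lit 521) (nat_lit 161) (nat_lit 640) (@Lb.t (@Lb.fp (nat_lit 9) t51)))))))))))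
noncomputable def l29931 : Lb := (@Lb.d (nat_lit 10) (nat_lit 288) (nat_lit 128) (@Lb.g g8 (@Lb.g g11 (@Lb.r r1126 (@Lb.r r353 (@Lb.r r535 (@Lb.r r2436 (@Lb.d (nat_lit 341) (nat_lit 138) (nat_lit 593) (@Lb.fm (nat_lit 3) t311)))))))))
noncomputable def l29932 : Lb := (@Lb.d (nat_lit 9) (nat_lit 389) (nat_lit 128) (@Lb.g g8 (@Lb.g g5 (@Lb.g g10 (@Lb.g g11 (@Lb.r r1178 (@Lb.r r408 (@Lb.r r295 (@Lb.r r516 (@Lb.d (nat_lit 10) (nat_lit 128) (nat_lit 74) (@Lb.fm (nat_lit 9) t68)))))))))))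
noncomputable def l29933 : Lb := (@Lb.d (nat_lit 2) (nat_lit 2) (nat_lit 74) (@Lb.g g8 (@Lb.g g9 (@Lb.g g10 (@Lb.g g11 (@Lb.r r651 (@Lb.r r164 (@Lb.r r2469 (@Lb.r r2150 (@Lb.r r132 (@Lb.d (nat_lit 521) (nat_lit 33) (nat_lit 672) (@Lb.fp (nat_lit 9) t51))))))))))))
noncomputable def l29934 : Lb := (@Lb.d (nat_lit 17) (nat_lit 160) (nat_lit 518) (@Lb.r r24 (@Lb.r r101 (@Lb.r r386 (@Lb.g g11 (@Lb.g g6 (@Lb.g g5 (@Lb.d (nat_lit 0) (nat_lit 0) (nat_lit 129) (@Lb.t (@Lb.fp (nat_lit 9) t1117))))))))))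
noncomputable def l29935 : Lb := (@Lb.d (nat_lit 4) (nat_lit 162) (nat_lit 130) (@Lb.g g9 (@Lb.g g10 (@Lb.g g11 (@Lb.r r2467 (@Lb.r r98 (@Lb.r r36 (@Lb.d (nat_lit 8) (nat_lit 10) (nat_lit 665) (@Lb.t (@Lb.fm (nat_lit 9) t842))))))))))
noncomputable def l29936 : Lb := (@Lb.d (nat_lit 0) (nat_lit 546) (nat_lit 130) (@Lb.g g9 (@Lb.g g10 (@Lb.g g11 (@Lb.r r1415 (@Lb.r r2193 (@Lb.r r2454 (@Lb.r r1608 (@Lb.d (nat_lit 265) (nat_lit 73) (nat_lit 68) (@Lb.t (@Lb.fm (nat_lit 9) t1039)))))))))))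
noncomputable def l29937 : Lb := (@Lb.d (nat_lit 0) (nat_lit 290) (nat_lit 0) (@Lb.g g5 (@Lb.r r299 (@Lb.r r134 (@Lb.r r292 (@Lb.r r405 (@Lb.d (nat_lit 154) (nat_lit 90) (nat_lit 154) (@Lb.t (@Lb.fp (nat_lit 3) t334)))))))))
noncomputable def l29938 : Lb := (@Lb.d (nat_lit 2) (nat_lit 258) (nat_lit 137) (@Lb.g g8 (@Lb.g g9 (@Lb.g g10 (@Lb.g g11 (@Lb.r r2705 (@Lb.r r356 (@Lb.r r667 (@Lb.r r586 (@Lb.r r1540 (@Lb.d (nat_lit 289) (nat_lit 10) (nat_lit 97) (@Lb.fm (nat_lit 9) t145))))))))))))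
noncomputable def l29939 : Lb := (@Lb.d (nat_lit 0) (nat_lit 256) (nat_lit 128) (@Lb.g g11 (@Lb.r r337 (@Lb.r r679 (@Lb.r r340 (@Lb.r r170 (@Lb.r r153 (@Lb.d (nat_lit 2) (nat_lit 90) (nat_lit 354) (@Lb.t (@Lb.fp (nat_lit 3) t654))))))))))
noncomputable def l29940 : Lb := (@Lb.d (nat_lit 293) (nat_lit 0) (nat_lit 98) (@Lb.r r337 (@Lb.r r679 (@Lb.r r344 (@Lb.r r166 (@Lb.r r149 (@Lb.g g4 (@Lb.t (@Lb.fp (nat_lit 3) t654)))))))))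
noncomputable def l29941 : Lb := (@Lb.d (nat_lit 32) (nat_lit 512) (nat_lit 64) (@Lb.g g10 (@Lb.g g11 (@Lb.r r2711 (@Lb.r r1384 (@Lb.r r361 (@Lb.r r1622 (@Lb.d (nat_lit 5) (nat_lit 102) (nat_lit 544) (@Lb.fp (nat_lit 3) t386)))))))))
noncomputable def l29942 : Lb := (@Lb.d (nat_lit 40) (nat_lit 528) (nat_lit 74) (@Lb.g g9 (@Lb.g g10 (@Lb.g g11 (@Lb.r r1575 (@Lb.r r580 (@Lb.r r2714 (@Lb.r r1625 (@Lb.d (nat_lit 290) (nat_lit 69) (nat_lit 386) (@Lb.t (@Lb.fm (nat_lit 9) t2350)))))))))))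
noncomputable def l29943 : Lb := (@Lb.d (nat_lit 2) (nat_lit 265) (nat_lit 73) (@Lb.g g8 (@Lb.g g9 (@Lb.g g10 (@Lb.g g11 (@Lb.r r2694 (@Lb.r r324 (@Lb.r r1579 (@Lb.r r1553 (@Lb.r r36 (@Lb.d (nat_lit 521) (nat_lit 104) (nat_lit 130) (@Lb.fp (nat_lit 9) t925))))))))))))
noncomputable def l29944 : Lb := (@Lb.d (nat_lit 8) (nat_lit 288) (nat_lit 64) (@Lb.g g8 (@Lb.g g11 (@Lb.r r166 (@Lb.r r149 (@Lb.r r360 (@Lb.r r615 (@Lb.d (nat_lit 154) (nat_lit 74) (nat_lit 82) (@Lb.fp (nat_lit 3) t334)))))))))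
noncomputable def l29945 : Lb := (@Lb.d (nat_lit 128) (nat_lit 521) (nat_lit 25) (@Lb.g g8 (@Lb.g g9 (@Lb.g g6 (@Lb.r r583 (@Lb.r r97 (@Lb.r r392 (@Lb.d (nat_lit 145) (nat_lit 74) (nat_lit 170) (@Lb.t (@Lb.fm (nat_lit 9) t892))))))))))
noncomputable def l29946 : Lb := (@Lb.r r82 (@Lb.d (nat_lit 128) (nat_lit 106) (nat_lit 0) (@Lb.g g8 (@Lb.g g5 (@Lb.r r599 (@Lb.r r386 (@Lb.r r104 (@Lb.d (nat_lit 85) (nat_lit 165) (nat_lit 325) (@Lb.fm (nat_lit 3) t152)))))))))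
noncomputable def l29947 : Lb := (@Lb.d (nat_lit 0) (nat_lit 258) (nat_lit 2) (@Lb.g g9 (@Lb.g g10 (@Lb.r r1685 (@Lb.r r659 (@Lb.r r578 (@Lb.r r36 (@Lb.d (nat_lit 320) (nat_lit 74) (nat_lit 649) (@Lb.fp (nat_lit 3) t259)))))))))
noncomputable def l29948 : Lb := (@Lb.d (nat_lit 10) (nat_lit 512) (nat_lit 0) (@Lb.g g8 (@Lb.r r289 (@Lb.r r279 (@Lb.r r612 (@Lb.r r154 (@Lb.d (nat_lit 5) (nat_lit 0) (nat_lit 132) (@Lb.t (@Lb.fp (nat_lit 3) t285)))))))))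
noncomputable def l29949 : Lb := (@Lb.r r580 (@Lb.r r327 (@Lb.r r357 (@Lb.r r666 (@Lb.r r516 (@Lb.d (nat_lit 5) (nat_lit 0) (nat_lit 129) (@Lb.fp (nat_lit 1) t285)))))))
noncomputable def l29950 : Lb := (@Lb.d (nat_lit 145) (nat_lit 294) (nat_lit 136) (@Lb.r r402 (@Lb.r r609 (@Lb.r r299 (@Lb.r r264 (@Lb.g g7 (@Lb.g g6 (@Lb.g g5 (@Lb.d (nat_lit 84) (nat_lit 1) (nat_lit 130) (@Lb.t (@Lb.fm (nat_lit 9) t2)))))))))))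
noncomputable def l29951 : Lb := (@Lb.d (nat_lit 2) (nat_lit 256) (nat_lit 0) (@Lb.g g8 (@Lb.r r101 (@Lb.d (nat_lit 36) (nat_lit 86) (nat_lit 296) (@Lb.t (@Lb.fm (nat_lit 3) t153))))))
noncomputable def l29952 : Lb := (@Lb.d (nat_lit 1) (nat_lit 36) (nat_lit 128) (@Lb.g g8 (@Lb.g g9 (@Lb.g g10 (@Lb.g g11 (@Lb.r r2730 (@Lb.r r2435 (@Lb.r r2212 (@Lb.r r2085 (@Lb.d (nat_lit 361) (nat_lit 68) (nat_lit 392) (@Lb.fp (nat_lit 9) t580)))))))))))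
noncomputable def l29953 : Lb := (@Lb.d (nat_lit 2) (nat_lit 256) (nat_lit 0) (@Lb.g g8 (@Lb.d (nat_lit 5) (nat_lit 1) (nat_lit 0) (@Lb.t (@Lb.fp (nat_lit 3) t2)))))
noncomputable def l29954 : Lb := (@Lb.d (nat_lit 290) (nat_lit 512) (nat_lit 0) (@Lb.r r24 (@Lb.r r101 (@Lb.r r2403 (@Lb.g g6 (@Lb.t (@Lb.fm (nat_lit 3) t5426)))))))
noncomputable def l29955 : Lb := (@Lb.r r323 (@Lb.d (nat_lit 33) (nat_lit 265) (nat_lit 16) (@Lb.g g8 (@Lb.g g9 (@Lb.g g6 (@Lb.r r387 (@Lb.r r169 (@Lb.r r1124 (@Lb.d (nat_lit 521) (nat_lit 138) (nat_lit 97) (@Lb.t (@Lb.fm (nat_lit 9) t5427)))))))))))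
noncomputable def l29956 : Lb := (@Lb.d (nat_lit 32) (nat_lit 512) (nat_lit 130) (@Lb.g g10 (@Lb.g g11 (@Lb.r r340 (@Lb.r r683 (@Lb.r r673 (@Lb.r r610 (@Lb.d (nat_lit 641) (nat_lit 101) (nat_lit 648) (@Lb.fm (nat_lit 3) t5428)))))))))
noncomputable def l29957 : Lb := (@Lb.d (nat_lit 0) (nat_lit 0) (nat_lit 2) (@Lb.g g10 (@Lb.r r1284 (@Lb.r r2571 (@Lb.r r161 (@Lb.r r98 (@Lb.d (nat_lit 1) (nat_lit 8) (nat_lit 513) (@Lb.t (@Lb.fp (nat_lit 3) t5429)))))))))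
noncomputable def l29958 : Lb := (@Lb.d (nat_lit 292) (nat_lit 418) (nat_lit 21) (@Lb.r r1284 (@Lb.r r101 (@Lb.r r154 (@Lb.r r2571 (@Lb.g g5 (@Lb.g g8 (@Lb.fm (nat_lit 3) t5428))))))))
noncomputable def l29959 : Lb := (@Lb.d (nat_lit 130) (nat_lit 0) (nat_lit 257) (@Lb.g g7 (@Lb.d (nat_lit 64) (nat_lit 0) (nat_lit 580) (@Lb.t (@Lb.fm (nat_lit 3) t1911)))))
noncomputable def l29960 : Lb := (@Lb.d (nat_lit 9) (nat_lit 8) (nat_lit 132) (@Lb.g g8 (@Lb.g g10 (@Lb.g g7 (@Lb.r r2641 (@Lb.r r1126 (@Lb.r r2436 (@Lb.d (nat_lit 674) (nat_lit 162) (nat_lit 297) (@Lb.t (@Lb.fp (nat_lit 9) t5430))))))))))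
noncomputable def l29961 : Lb := (@Lb.d (nat_lit 297) (nat_lit 4) (nat_lit 153) (@Lb.r r260 (@Lb.r r1317 (@Lb.r r347 (@Lb.r r276 (@Lb.g g7 (@Lb.g g6 (@Lb.g g5 (@Lb.g g4 (@Lb.d (nat_lit 2) (nat_lit 18) (nat_lit 98) (@Lb.fm (nat_lit 9) t1038)))))))))))
noncomputable def l29962 : Lb := (@Lb.r r20 (@Lb.d (nat_lit 128) (nat_lit 648) (nat_lit 4) (@Lb.g g5 (@Lb.g g10 (@Lb.g g11 (@Lb.r r264 (@Lb.r r2343 (@Lb.r r154 (@Lb.d (nat_lit 597) (nat_lit 169) (nat_lit 672) (@Lb.t (@Lb.fp (nat_lit 9) t1038)))))))))))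
noncomputable def l29963 : Lb := (@Lb.d (nat_lit 2) (nat_lit 2) (nat_lit 66) (@Lb.g g8 (@Lb.g g9 (@Lb.g g10 (@Lb.g g7 (@Lb.r r386 (@Lb.r r97 (@Lb.d (nat_lit 2) (nat_lit 138) (nat_lit 137) (@Lb.fm (nat_lit 9) t126)))))))))
noncomputable def l29964 : Lb := (@Lb.d (nat_lit 2) (nat_lit 512) (nat_lit 136) (@Lb.g g8 (@Lb.g g11 (@Lb.d (nat_lit 5) (nat_lit 1) (nat_lit 2) (@Lb.fm (nat_lit 3) t2)))))
noncomputable def l29965 : Lb := (@Lb.g g4 (@Lb.r r36 (@Lb.d (nat_lit 0) (nat_lit 1) (nat_lit 0) (@Lb.t (@Lb.fm (nat_lit 3) t2)))))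
noncomputable def l29966 : Lb := (@Lb.d (nat_lit 532) (nat_lit 8) (nat_lit 32) (@Lb.r r1096 (@Lb.r r1431 (@Lb.r r2454 (@Lb.r r593 (@Lb.g g7 (@Lb.g g5 (@Lb.d (nat_lit 0) (nat_lit 1) (nat_lit 68) (@Lb.fm (nat_lit 3) t5431)))))))))
noncomputable def l29967 : Lb := (@Lb.r r1291 (@Lb.r r101 (@Lb.r r402 (@Lb.d (nat_lit 290) (nat_lit 256) (nat_lit 258) (@Lb.fp (nat_lit 1) t5432)))))
noncomputable def l29968 : Lb := (@Lb.d (nat_lit 2) (nat_lit 521) (nat_lit 66) (@Lb.g g8 (@Lb.g g9 (@Lb.g g10 (@Lb.g g11 (@Lb.r r1194 (@Lb.r r424 (@Lb.r r279 (@Lb.r r1553 (@Lb.r r2084 (@Lb.d (nat_lit 2) (nat_lit 97) (nat_lit 586) (@Lb.fp (nat_lit 9) t594))))))))))))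
noncomputable def l29969 : Lb := (@Lb.r r21 (@Lb.r r326 (@Lb.d (nat_lit 529) (nat_lit 288) (nat_lit 644) (@Lb.g g4 (@Lb.g g7 (@Lb.r r2198 (@Lb.r r97 (@Lb.d (nat_lit 545) (nat_lit 130) (nat_lit 84) (@Lb.fm (nat_lit 3) t2745)))))))))
noncomputable def l29970 : Lb := (@Lb.d (nat_lit 100) (nat_lit 546) (nat_lit 66) (@Lb.g g8 (@Lb.g g9 (@Lb.g g10 (@Lb.g g11 (@Lb.r r2705 (@Lb.r r1303 (@Lb.r r2698 (@Lb.r r520 (@Lb.d (nat_lit 616) (nat_lit 66) (nat_lit 1) (@Lb.fp (nat_lit 9) t5433)))))))))))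
noncomputable def l29971 : Lb := (@Lb.r r275 (@Lb.d (nat_lit 0) (nat_lit 2) (nat_lit 2) (@Lb.g g9 (@Lb.g g10 (@Lb.r r2470 (@Lb.r r1624 (@Lb.r r2341 (@Lb.r r1559 (@Lb.d (nat_lit 645) (nat_lit 162) (nat_lit 0) (@Lb.fm (nat_lit 3) t1826))))))))))
noncomputable def l29972 : Lb := (@Lb.d (nat_lit 536) (nat_lit 409) (nat_lit 292) (@Lb.r r2457 (@Lb.r r2454 (@Lb.r r1635 (@Lb.g g7 (@Lb.g g5 (@Lb.g g4 (@Lb.d (nat_lit 0) (nat_lit 22) (nat_lit 128) (@Lb.r r98 (@Lb.t (@Lb.fp (nat_lit 9) t3851)))))))))))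
noncomputable def l29973 : Lb := (@Lb.r r20 (@Lb.d (nat_lit 0) (nat_lit 546) (nat_lit 41) (@Lb.g g9 (@Lb.g g6 (@Lb.r r2451 (@Lb.r r609 (@Lb.d (nat_lit 0) (nat_lit 84) (nat_lit 522) (@Lb.fm (nat_lit 3) t188))))))))
noncomputable def l29974 : Lb := (@Lb.d (nat_lit 0) (nat_lit 522) (nat_lit 0) (@Lb.g g5 (@Lb.g g7 (@Lb.r r618 (@Lb.r r356 (@Lb.r r277 (@Lb.d (nat_lit 138) (nat_lit 65) (nat_lit 256) (@Lb.fm (nat_lit 3) t1190))))))))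
noncomputable def l29975 : Lb := (@Lb.d (nat_lit 32) (nat_lit 512) (nat_lit 2) (@Lb.g g9 (@Lb.g g10 (@Lb.g g7 (@Lb.r r72 (@Lb.r r598 (@Lb.r r289 (@Lb.d (nat_lit 154) (nat_lit 73) (nat_lit 322) (@Lb.t (@Lb.fp (nat_lit 9) t1190))))))))))
noncomputable def l29976 : Lb := (@Lb.g g10 (@Lb.g g7 (@Lb.r r579 (@Lb.r r402 (@Lb.r r101 (@Lb.d (nat_lit 5) (nat_lit 641) (nat_lit 0) (@Lb.fm (nat_lit 3) t240)))))))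
noncomputable def l29977 : Lb := (@Lb.r r323 (@Lb.d (nat_lit 2) (nat_lit 258) (nat_lit 2) (@Lb.g g8 (@Lb.g g9 (@Lb.g g10 (@Lb.r r1449 (@Lb.r r535 (@Lb.r r328 (@Lb.r r134 (@Lb.d (nat_lit 384) (nat_lit 136) (nat_lit 357) (@Lb.t (@Lb.fm (nat_lit 9) t1350))))))))))))
noncomputable def l29978 : Lb := (@Lb.d (nat_lit 4) (nat_lit 32) (nat_lit 41) (@Lb.g g8 (@Lb.g g9 (@Lb.g g6 (@Lb.r r2455 (@Lb.r r617 (@Lb.d (nat_lit 102) (nat_lit 84) (nat_lit 522) (@Lb.t (@Lb.fm (nat_lit 9) t188)))))))))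
noncomputable def l29979 : Lb := (@Lb.d (nat_lit 0) (nat_lit 297) (nat_lit 133) (@Lb.g g9 (@Lb.g g10 (@Lb.g g11 (@Lb.r r2451 (@Lb.r r1634 (@Lb.r r2593 (@Lb.r r24 (@Lb.d (nat_lit 0) (nat_lit 162) (nat_lit 129) (@Lb.t (@Lb.fm (nat_lit 9) t148)))))))))))
noncomputable def l29980 : Lb := (@Lb.d (nat_lit 2) (nat_lit 10) (nat_lit 64) (@Lb.g g8 (@Lb.g g9 (@Lb.g g11 (@Lb.r r2455 (@Lb.r r1636 (@Lb.r r2138 (@Lb.r r1189 (@Lb.d (nat_lit 544) (nat_lit 132) (nat_lit 169) (@Lb.t (@Lb.fp (nat_lit 9) t284)))))))))))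
noncomputable def l29981 : Lb := (@Lb.d (nat_lit 0) (nat_lit 40) (nat_lit 133) (@Lb.g g9 (@Lb.g g10 (@Lb.g g11 (@Lb.r r1699 (@Lb.r r2386 (@Lb.r r529 (@Lb.r r24 (@Lb.d (nat_lit 10) (nat_lit 0) (nat_lit 641) (@Lb.t (@Lb.fm (nat_lit 9) t148)))))))))))
noncomputable def l29982 : Lb := (@Lb.d (nat_lit 598) (nat_lit 276) (nat_lit 133) (@Lb.r r1701 (@Lb.r r386 (@Lb.r r1435 (@Lb.g g7 (@Lb.g g6 (@Lb.g g5 (@Lb.g g8 (@Lb.d (nat_lit 9) (nat_lit 17) (nat_lit 65) (@Lb.fm (nat_lit 9) t148))))))))))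
noncomputable def l29983 : Lb := (@Lb.d (nat_lit 32) (nat_lit 512) (nat_lit 64) (@Lb.g g10 (@Lb.g g11 (@Lb.r r328 (@Lb.r r647 (@Lb.r r2401 (@Lb.r r662 (@Lb.d (nat_lit 36) (nat_lit 37) (nat_lit 677) (@Lb.fm (nat_lit 3) t939)))))))))
noncomputable def l29984 : Lb := (@Lb.d (nat_lit 2) (nat_lit 522) (nat_lit 64) (@Lb.g g8 (@Lb.g g9 (@Lb.g g11 (@Lb.r r2455 (@Lb.r r1636 (@Lb.r r2138 (@Lb.r r1189 (@Lb.d (nat_lit 545) (nat_lit 132) (nat_lit 169) (@Lb.t (@Lb.fp (nat_lit 9) t284)))))))))))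
noncomputable def l29985 : Lb := (@Lb.d (nat_lit 0) (nat_lit 552) (nat_lit 133) (@Lb.g g9 (@Lb.g g10 (@Lb.g g11 (@Lb.r r1699 (@Lb.r r2386 (@Lb.r r529 (@Lb.r r24 (@Lb.d (nat_lit 0) (nat_lit 1) (nat_lit 641) (@Lb.t (@Lb.fm (nat_lit 9) t148)))))))))))
noncomputable def l29986 : Lb := (@Lb.r r323 (@Lb.d (nat_lit 32) (nat_lit 520) (nat_lit 2) (@Lb.g g10 (@Lb.r r616 (@Lb.r r363 (@Lb.r r353 (@Lb.r r2710 (@Lb.d (nat_lit 529) (nat_lit 169) (nat_lit 133) (@Lb.t (@Lb.fm (nat_lit 3) t282))))))))))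
noncomputable def l29987 : Lb := (@Lb.d (nat_lit 0) (nat_lit 256) (nat_lit 2) (@Lb.g g10 (@Lb.g g7 (@Lb.r r386 (@Lb.r r2449 (@Lb.r r24 (@Lb.d (nat_lit 0) (nat_lit 128) (nat_lit 354) (@Lb.fp (nat_lit 3) t2877))))))))
noncomputable def l29988 : Lb := (@Lb.d (nat_lit 32) (nat_lit 256) (nat_lit 64) (@Lb.g g10 (@Lb.g g11 (@Lb.r r1355 (@Lb.r r1433 (@Lb.r r2632 (@Lb.r r1382 (@Lb.d (nat_lit 88) (nat_lit 170) (nat_lit 326) (@Lb.fp (nat_lit 3) t145)))))))))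
noncomputable def l29989 : Lb := (@Lb.d (nat_lit 9) (nat_lit 257) (nat_lit 73) (@Lb.g g8 (@Lb.g g9 (@Lb.g g10 (@Lb.g g11 (@Lb.r r2691 (@Lb.r r1193 (@Lb.r r2658 (@Lb.r r2436 (@Lb.d (nat_lit 609) (nat_lit 160) (nat_lit 662) (@Lb.fp (nat_lit 9) t311)))))))))))
noncomputable def l29990 : Lb := (@Lb.d (nat_lit 9) (nat_lit 513) (nat_lit 73) (@Lb.g g8 (@Lb.g g9 (@Lb.g g10 (@Lb.g g11 (@Lb.r r2691 (@Lb.r r1193 (@Lb.r r2658 (@Lb.r r2436 (@Lb.d (nat_lit 608) (nat_lit 160) (nat_lit 662) (@Lb.fp (nat_lit 9) t311)))))))))))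
noncomputable def l29991 : Lb := (@Lb.d (nat_lit 41) (nat_lit 256) (nat_lit 64) (@Lb.g g8 (@Lb.g g11 (@Lb.r r1173 (@Lb.r r150 (@Lb.r r596 (@Lb.r r2599 (@Lb.d (nat_lit 650) (nat_lit 153) (nat_lit 342) (@Lb.fm (nat_lit 3) t430)))))))))
noncomputable def l29992 : Lb := (@Lb.d (nat_lit 2) (nat_lit 4) (nat_lit 128) (@Lb.g g8 (@Lb.g g9 (@Lb.g g10 (@Lb.g g11 (@Lb.r r2705 (@Lb.r r356 (@Lb.r r667 (@Lb.r r586 (@Lb.r r1540 (@Lb.d (nat_lit 610) (nat_lit 10) (nat_lit 673) (@Lb.fm (nat_lit 9) t4))))))))))))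
noncomputable def l29993 : Lb := (@Lb.d (nat_lit 356) (nat_lit 100) (nat_lit 593) (@Lb.r r2645 (@Lb.r r343 (@Lb.r r680 (@Lb.r r106 (@Lb.g g7 (@Lb.g g5 (@Lb.g g4 (@Lb.d (nat_lit 1) (nat_lit 5) (nat_lit 128) (@Lb.t (@Lb.fm (nat_lit 9) t2)))))))))))
noncomputable def l29994 : Lb := (@Lb.d (nat_lit 6) (nat_lit 64) (nat_lit 66) (@Lb.g g4 (@Lb.g g9 (@Lb.g g10 (@Lb.g g11 (@Lb.r r419 (@Lb.r r98 (@Lb.d (nat_lit 1) (nat_lit 4) (nat_lit 136) (@Lb.fm (nat_lit 9) t51)))))))))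
noncomputable def l29995 : Lb := (@Lb.d (nat_lit 6) (nat_lit 320) (nat_lit 130) (@Lb.g g4 (@Lb.g g9 (@Lb.g g10 (@Lb.g g11 (@Lb.r r419 (@Lb.r r98 (@Lb.d (nat_lit 1) (nat_lit 4) (nat_lit 1) (@Lb.fm (nat_lit 9) t51)))))))))
noncomputable def l29996 : Lb := (@Lb.d (nat_lit 6) (nat_lit 320) (nat_lit 64) (@Lb.g g4 (@Lb.g g9 (@Lb.g g10 (@Lb.g g11 (@Lb.r r1315 (@Lb.r r2626 (@Lb.d (nat_lit 1) (nat_lit 104) (nat_lit 642) (@Lb.fm (nat_lit 9) t51)))))))))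
noncomputable def l29997 : Lb := (@Lb.d (nat_lit 138) (nat_lit 512) (nat_lit 0) (@Lb.g g8 (@Lb.r r410 (@Lb.r r613 (@Lb.r r1383 (@Lb.r r2712 (@Lb.d (nat_lit 346) (nat_lit 134) (nat_lit 21) (@Lb.t (@Lb.fm (nat_lit 3) t71)))))))))
noncomputable def l29998 : Lb := (@Lb.d (nat_lit 6) (nat_lit 576) (nat_lit 72) (@Lb.g g4 (@Lb.g g9 (@Lb.g g11 (@Lb.r r402 (@Lb.r r579 (@Lb.d (nat_lit 1) (nat_lit 154) (nat_lit 265) (@Lb.t (@Lb.fp (nat_lit 9) t51)))))))))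
noncomputable def l29999 : Lb := (@Lb.d (nat_lit 518) (nat_lit 530) (nat_lit 38) (@Lb.r r2132 (@Lb.r r1177 (@Lb.r r602 (@Lb.r r340 (@Lb.g g11 (@Lb.g g6 (@Lb.g g5 (@Lb.g g4 (@Lb.d (nat_lit 1) (nat_lit 1) (nat_lit 129) (@Lb.fm (nat_lit 9) t386)))))))))))
noncomputable def l30000 : Lb := (@Lb.d (nat_lit 5) (nat_lit 64) (nat_lit 130) (@Lb.g g4 (@Lb.g g9 (@Lb.g g10 (@Lb.g g11 (@Lb.r r419 (@Lb.r r98 (@Lb.d (nat_lit 1) (nat_lit 4) (nat_lit 136) (@Lb.fm (nat_lit 9) t51)))))))))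
noncomputable def l30001 : Lb := (@Lb.d (nat_lit 2) (nat_lit 258) (nat_lit 136) (@Lb.g g8 (@Lb.g g9 (@Lb.g g11 (@Lb.r r134 (@Lb.r r328 (@Lb.r r1575 (@Lb.r r1553 (@Lb.d (nat_lit 9) (nat_lit 42) (nat_lit 130) (@Lb.t (@Lb.fp (nat_lit 9) t51)))))))))))
noncomputable def l30002 : Lb := (@Lb.r r81 (@Lb.d (nat_lit 128) (nat_lit 288) (nat_lit 34) (@Lb.g g10 (@Lb.g g11 (@Lb.r r361 (@Lb.r r1316 (@Lb.r r2651 (@Lb.d (nat_lit 601) (nat_lit 168) (nat_lit 386) (@Lb.fm (nat_lit 3) t4457)))))))))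
noncomputable def l30003 : Lb := (@Lb.r r21 (@Lb.r r323 (@Lb.d (nat_lit 130) (nat_lit 520) (nat_lit 8) (@Lb.g g8 (@Lb.g g10 (@Lb.r r615 (@Lb.r r533 (@Lb.r r292 (@Lb.d (nat_lit 73) (nat_lit 34) (nat_lit 20) (@Lb.fp (nat_lit 3) t221))))))))))
noncomputable def l30004 : Lb := (@Lb.d (nat_lit 130) (nat_lit 513) (nat_lit 0) (@Lb.g g8 (@Lb.g g9 (@Lb.r r263 (@Lb.r r418 (@Lb.r r401 (@Lb.r r520 (@Lb.d (nat_lit 66) (nat_lit 85) (nat_lit 89) (@Lb.fm (nat_lit 3) t334)))))))))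
noncomputable def l30005 : Lb := (@Lb.d (nat_lit 2) (nat_lit 290) (nat_lit 0) (@Lb.g g8 (@Lb.g g9 (@Lb.r r356 (@Lb.r r667 (@Lb.r r2178 (@Lb.r r1445 (@Lb.d (nat_lit 586) (nat_lit 166) (nat_lit 385) (@Lb.fp (nat_lit 3) t1540)))))))))
noncomputable def l30006 : Lb := (@Lb.d (nat_lit 4) (nat_lit 616) (nat_lit 660) (@Lb.r r24 (@Lb.r r146 (@Lb.r r1377 (@Lb.g g11 (@Lb.g g5 (@Lb.d (nat_lit 0) (nat_lit 1) (nat_lit 388) (@Lb.r r98 (@Lb.fm (nat_lit 3) t3225)))))))))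
noncomputable def l30007 : Lb := (@Lb.d (nat_lit 130) (nat_lit 512) (nat_lit 0) (@Lb.g g8 (@Lb.r r263 (@Lb.r r2664 (@Lb.r r89 (@Lb.r r166 (@Lb.d (nat_lit 5) (nat_lit 154) (nat_lit 290) (@Lb.t (@Lb.fp (nat_lit 3) t1096)))))))))
noncomputable def l30008 : Lb := (@Lb.d (nat_lit 357) (nat_lit 153) (nat_lit 150) (@Lb.r r2663 (@Lb.r r264 (@Lb.r r105 (@Lb.r r150 (@Lb.g g7 (@Lb.g g5 (@Lb.d (nat_lit 64) (nat_lit 2) (nat_lit 128) (@Lb.fm (nat_lit 3) t1096)))))))))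
noncomputable def l30009 : Lb := (@Lb.r r20 (@Lb.r r82 (@Lb.d (nat_lit 4) (nat_lit 97) (nat_lit 0) (@Lb.g g9 (@Lb.r r2579 (@Lb.r r146 (@Lb.r r8 (@Lb.d (nat_lit 0) (nat_lit 130) (nat_lit 256) (@Lb.t (@Lb.fm (nat_lit 3) t1161))))))))))
noncomputable def l30010 : Lb := (@Lb.d (nat_lit 0) (nat_lit 36) (nat_lit 129) (@Lb.r r402 (@Lb.g g11 (@Lb.g g6 (@Lb.g g9 (@Lb.t (@Lb.fm (nat_lit 9) t97)))))))
noncomputable def l30011 : Lb := (@Lb.d (nat_lit 4) (nat_lit 102) (nat_lit 662) (@Lb.r r24 (@Lb.r r146 (@Lb.r r1377 (@Lb.g g11 (@Lb.g g5 (@Lb.d (nat_lit 0) (nat_lit 1) (nat_lit 388) (@Lb.r r98 (@Lb.fm (nat_lit 3) t3686)))))))))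
noncomputable def l30012 : Lb := (@Lb.d (nat_lit 0) (nat_lit 548) (nat_lit 129) (@Lb.r r402 (@Lb.g g11 (@Lb.g g6 (@Lb.g g9 (@Lb.g g4 (@Lb.fm (nat_lit 9) t97)))))))
noncomputable def l30013 : Lb := (@Lb.d (nat_lit 536) (nat_lit 153) (nat_lit 356) (@Lb.r r2457 (@Lb.r r2454 (@Lb.r r1635 (@Lb.g g7 (@Lb.g g5 (@Lb.g g4 (@Lb.d (nat_lit 0) (nat_lit 22) (nat_lit 128) (@Lb.r r98 (@Lb.t (@Lb.fp (nat_lit 9) t3851)))))))))))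
noncomputable def l30014 : Lb := (@Lb.d (nat_lit 0) (nat_lit 0) (nat_lit 136) (@Lb.g g11 (@Lb.r r402 (@Lb.r r101 (@Lb.d (nat_lit 0) (nat_lit 128) (nat_lit 128) (@Lb.t (@Lb.fp (nat_lit 3) t240)))))))
noncomputable def l30015 : Lb := (@Lb.d (nat_lit 2) (nat_lit 4) (nat_lit 0) (@Lb.g g8 (@Lb.g g9 (@Lb.g g10 (@Lb.g g11 (@Lb.r r1371 (@Lb.r r386 (@Lb.r r97 (@Lb.r r24 (@Lb.d (nat_lit 256) (nat_lit 161) (nat_lit 384) (@Lb.fm (nat_lit 9) t3196)))))))))))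
noncomputable def l30016 : Lb := (@Lb.r r273 (@Lb.d (nat_lit 0) (nat_lit 32) (nat_lit 578) (@Lb.g g10 (@Lb.g g7 (@Lb.r r402 (@Lb.r r280 (@Lb.r r613 (@Lb.d (nat_lit 106) (nat_lit 66) (nat_lit 578) (@Lb.fm (nat_lit 3) t5434)))))))))
noncomputable def l30017 : Lb := (@Lb.d (nat_lit 2) (nat_lit 516) (nat_lit 0) (@Lb.g g8 (@Lb.g g9 (@Lb.g g10 (@Lb.g g11 (@Lb.r r1371 (@Lb.r r386 (@Lb.r r97 (@Lb.r r24 (@Lb.d (nat_lit 266) (nat_lit 170) (nat_lit 386) (@Lb.fm (nat_lit 9) t897)))))))))))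
noncomputable def l30018 : Lb := (@Lb.d (nat_lit 128) (nat_lit 641) (nat_lit 64) (@Lb.g g5 (@Lb.g g11 (@Lb.r r344 (@Lb.r r598 (@Lb.r r611 (@Lb.d (nat_lit 4) (nat_lit 106) (nat_lit 650) (@Lb.fp (nat_lit 3) t4689))))))))
noncomputable def l30019 : Lb := (@Lb.d (nat_lit 2) (nat_lit 514) (nat_lit 2) (@Lb.g g8 (@Lb.g g9 (@Lb.g g10 (@Lb.r r1689 (@Lb.r r1691 (@Lb.r r1610 (@Lb.d (nat_lit 341) (nat_lit 8) (nat_lit 648) (@Lb.t (@Lb.fp (nat_lit 9) t5435))))))))))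
noncomputable def l30020 : Lb := (@Lb.d (nat_lit 2) (nat_lit 2) (nat_lit 130) (@Lb.g g8 (@Lb.g g9 (@Lb.g g10 (@Lb.g g11 (@Lb.r r1706 (@Lb.r r680 (@Lb.r r555 (@Lb.r r2089 (@Lb.r r2084 (@Lb.d (nat_lit 10) (nat_lit 2) (nat_lit 640) (@Lb.fp (nat_lit 9) t504))))))))))))
noncomputable def l30021 : Lb := (@Lb.d (nat_lit 392) (nat_lit 346) (nat_lit 578) (@Lb.r r1685 (@Lb.r r662 (@Lb.r r600 (@Lb.r r347 (@Lb.g g7 (@Lb.g g6 (@Lb.g g5 (@Lb.d (nat_lit 8) (nat_lit 1) (nat_lit 65) (@Lb.t (@Lb.fp (nat_lit 9) t3694)))))))))))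
noncomputable def l30022 : Lb := (@Lb.d (nat_lit 550) (nat_lit 321) (nat_lit 70) (@Lb.r r2138 (@Lb.r r2644 (@Lb.r r2391 (@Lb.g g7 (@Lb.g g6 (@Lb.g g5 (@Lb.g g4 (@Lb.d (nat_lit 2) (nat_lit 65) (nat_lit 65) (@Lb.fp (nat_lit 9) t892))))))))))
noncomputable def l30023 : Lb := (@Lb.d (nat_lit 162) (nat_lit 400) (nat_lit 554) (@Lb.r r1685 (@Lb.r r662 (@Lb.r r600 (@Lb.r r347 (@Lb.g g7 (@Lb.g g6 (@Lb.g g5 (@Lb.d (nat_lit 8) (nat_lit 1) (nat_lit 65) (@Lb.t (@Lb.fp (nat_lit 9) t830)))))))))))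
noncomputable def l30024 : Lb := (@Lb.r r322 (@Lb.d (nat_lit 290) (nat_lit 544) (nat_lit 128) (@Lb.g g8 (@Lb.g g11 (@Lb.r r2198 (@Lb.r r1121 (@Lb.d (nat_lit 609) (nat_lit 74) (nat_lit 530) (@Lb.fm (nat_lit 3) t5436))))))))
noncomputable def l30025 : Lb := (@Lb.d (nat_lit 392) (nat_lit 602) (nat_lit 521) (@Lb.r r1685 (@Lb.r r662 (@Lb.r r600 (@Lb.r r347 (@Lb.g g7 (@Lb.g g6 (@Lb.g g5 (@Lb.d (nat_lit 8) (nat_lit 1) (nat_lit 65) (@Lb.t (@Lb.fp (nat_lit 9) t3694)))))))))))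
noncomputable def l30026 : Lb := (@Lb.d (nat_lit 0) (nat_lit 520) (nat_lit 128) (@Lb.g g8 (@Lb.g g10 (@Lb.g g11 (@Lb.r r1579 (@Lb.r r81 (@Lb.r r162 (@Lb.r r1608 (@Lb.d (nat_lit 97) (nat_lit 4) (nat_lit 536) (@Lb.t (@Lb.fp (nat_lit 9) t1165)))))))))))
noncomputable def l30027 : Lb := (@Lb.d (nat_lit 0) (nat_lit 257) (nat_lit 66) (@Lb.g g8 (@Lb.g g9 (@Lb.g g10 (@Lb.g g7 (@Lb.r r425 (@Lb.r r98 (@Lb.r r2436 (@Lb.d (nat_lit 358) (nat_lit 22) (nat_lit 72) (@Lb.fp (nat_lit 9) t1831))))))))))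
noncomputable def l30028 : Lb := (@Lb.d (nat_lit 16) (nat_lit 258) (nat_lit 138) (@Lb.g g8 (@Lb.g g9 (@Lb.g g10 (@Lb.g g11 (@Lb.r r1602 (@Lb.r r168 (@Lb.r r1065 (@Lb.r r1060 (@Lb.d (nat_lit 512) (nat_lit 138) (nat_lit 601) (@Lb.fp (nat_lit 9) t267)))))))))))
noncomputable def l30029 : Lb := (@Lb.d (nat_lit 32) (nat_lit 513) (nat_lit 128) (@Lb.g g8 (@Lb.g g9 (@Lb.g g11 (@Lb.r r1430 (@Lb.r r2665 (@Lb.r r1643 (@Lb.r r1640 (@Lb.d (nat_lit 101) (nat_lit 154) (nat_lit 162) (@Lb.t (@Lb.fm (nat_lit 9) t282)))))))))))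
noncomputable def l30030 : Lb := (@Lb.r r323 (@Lb.d (nat_lit 130) (nat_lit 258) (nat_lit 0) (@Lb.g g8 (@Lb.g g9 (@Lb.g g10 (@Lb.r r674 (@Lb.r r391 (@Lb.r r145 (@Lb.r r612 (@Lb.d (nat_lit 154) (nat_lit 20) (nat_lit 137) (@Lb.t (@Lb.fp (nat_lit 9) t51))))))))))))
noncomputable def l30031 : Lb := (@Lb.d (nat_lit 0) (nat_lit 9) (nat_lit 128) (@Lb.g g8 (@Lb.g g9 (@Lb.g g11 (@Lb.r r106 (@Lb.r r356 (@Lb.r r1323 (@Lb.r r1313 (@Lb.d (nat_lit 8) (nat_lit 136) (nat_lit 642) (@Lb.t (@Lb.fp (nat_lit 9) t71)))))))))))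
noncomputable def l30032 : Lb := (@Lb.r r21 (@Lb.d (nat_lit 2) (nat_lit 256) (nat_lit 130) (@Lb.g g8 (@Lb.g g10 (@Lb.g g11 (@Lb.r r395 (@Lb.r r386 (@Lb.r r97 (@Lb.r r72 (@Lb.d (nat_lit 593) (nat_lit 10) (nat_lit 154) (@Lb.t (@Lb.fp (nat_lit 9) t61))))))))))))
noncomputable def l30033 : Lb := (@Lb.r r82 (@Lb.d (nat_lit 0) (nat_lit 33) (nat_lit 320) (@Lb.g g9 (@Lb.g g7 (@Lb.r r386 (@Lb.r r97 (@Lb.r r36 (@Lb.d (nat_lit 612) (nat_lit 33) (nat_lit 420) (@Lb.fp (nat_lit 3) t5437)))))))))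
noncomputable def l30034 : Lb := (@Lb.d (nat_lit 2) (nat_lit 258) (nat_lit 2) (@Lb.g g8 (@Lb.g g9 (@Lb.g g10 (@Lb.g g11 (@Lb.r r427 (@Lb.r r1442 (@Lb.r r145 (@Lb.d (nat_lit 354) (nat_lit 162) (nat_lit 530) (@Lb.fm (nat_lit 9) t5438))))))))))
noncomputable def l30035 : Lb := (@Lb.d (nat_lit 529) (nat_lit 100) (nat_lit 4) (@Lb.r r168 (@Lb.r r89 (@Lb.r r402 (@Lb.g g11 (@Lb.g g6 (@Lb.g g4 (@Lb.d (nat_lit 4) (nat_lit 0) (nat_lit 69) (@Lb.t (@Lb.fm (nat_lit 9) t5439))))))))))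
noncomputable def l30036 : Lb := (@Lb.d (nat_lit 673) (nat_lit 98) (nat_lit 144) (@Lb.r r20 (@Lb.r r2329 (@Lb.r r2403 (@Lb.g g6 (@Lb.d (nat_lit 0) (nat_lit 0) (nat_lit 41) (@Lb.t (@Lb.fm (nat_lit 3) t5051))))))))
noncomputable def l30037 : Lb := (@Lb.d (nat_lit 32) (nat_lit 265) (nat_lit 129) (@Lb.g g9 (@Lb.g g10 (@Lb.g g11 (@Lb.r r1352 (@Lb.r r2695 (@Lb.r r657 (@Lb.r r2710 (@Lb.d (nat_lit 132) (nat_lit 165) (nat_lit 298) (@Lb.t (@Lb.fp (nat_lit 9) t1337)))))))))))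
noncomputable def l30038 : Lb := (@Lb.r r323 (@Lb.d (nat_lit 130) (nat_lit 514) (nat_lit 2) (@Lb.g g8 (@Lb.g g9 (@Lb.g g10 (@Lb.r r1450 (@Lb.r r583 (@Lb.r r296 (@Lb.r r25 (@Lb.d (nat_lit 517) (nat_lit 0) (nat_lit 144) (@Lb.t (@Lb.fp (nat_lit 9) t5050))))))))))))
noncomputable def l30039 : Lb := (@Lb.r r82 (@Lb.d (nat_lit 2) (nat_lit 258) (nat_lit 580) (@Lb.g g8 (@Lb.g g9 (@Lb.g g7 (@Lb.r r1441 (@Lb.r r98 (@Lb.r r24 (@Lb.d (nat_lit 10) (nat_lit 65) (nat_lit 608) (@Lb.t (@Lb.fp (nat_lit 9) t5440)))))))))))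
noncomputable def l30040 : Lb := (@Lb.r r82 (@Lb.d (nat_lit 0) (nat_lit 514) (nat_lit 580) (@Lb.g g8 (@Lb.g g9 (@Lb.g g7 (@Lb.r r1441 (@Lb.r r98 (@Lb.r r24 (@Lb.d (nat_lit 8) (nat_lit 65) (nat_lit 608) (@Lb.t (@Lb.fp (nat_lit 9) t5441)))))))))))
noncomputable def l30041 : Lb := (@Lb.r r82 (@Lb.d (nat_lit 2) (nat_lit 2) (nat_lit 580) (@Lb.g g8 (@Lb.g g9 (@Lb.g g7 (@Lb.r r1441 (@Lb.r r98 (@Lb.d (nat_lit 0) (nat_lit 130) (nat_lit 608) (@Lb.t (@Lb.fm (nat_lit 9) t5442))))))))))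
noncomputable def l30042 : Lb := (@Lb.d (nat_lit 386) (nat_lit 513) (nat_lit 325) (@Lb.r r20 (@Lb.r r579 (@Lb.r r2454 (@Lb.g g7 (@Lb.g g5 (@Lb.d (nat_lit 8) (nat_lit 1) (nat_lit 132) (@Lb.fm (nat_lit 3) t5443))))))))
noncomputable def l30043 : Lb := (@Lb.d (nat_lit 2) (nat_lit 166) (nat_lit 512) (@Lb.r r1362 (@Lb.g g7 (@Lb.g g6 (@Lb.g g5 (@Lb.g g8 (@Lb.d (nat_lit 0) (nat_lit 0) (nat_lit 65) (@Lb.fm (nat_lit 9) t87))))))))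
noncomputable def l30044 : Lb := (@Lb.d (nat_lit 386) (nat_lit 102) (nat_lit 5) (@Lb.r r134 (@Lb.r r1364 (@Lb.r r2571 (@Lb.g g5 (@Lb.g g4 (@Lb.d (nat_lit 1) (nat_lit 25) (nat_lit 0) (@Lb.fm (nat_lit 3) t5079))))))))
noncomputable def l30045 : Lb := (@Lb.r r323 (@Lb.d (nat_lit 1) (nat_lit 256) (nat_lit 18) (@Lb.g g4 (@Lb.g g10 (@Lb.r r2659 (@Lb.r r1633 (@Lb.d (nat_lit 1) (nat_lit 4) (nat_lit 100) (@Lb.fp (nat_lit 3) t5444))))))))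
noncomputable def l30046 : Lb := (@Lb.d (nat_lit 261) (nat_lit 422) (nat_lit 170) (@Lb.r r21 (@Lb.r r1366 (@Lb.r r2216 (@Lb.g g7 (@Lb.g g6 (@Lb.g g5 (@Lb.g g4 (@Lb.d (nat_lit 1) (nat_lit 1) (nat_lit 65) (@Lb.fm (nat_lit 9) t2551))))))))))
noncomputable def l30047 : Lb := (@Lb.r r323 (@Lb.d (nat_lit 138) (nat_lit 512) (nat_lit 1) (@Lb.g g8 (@Lb.g g10 (@Lb.r r615 (@Lb.r r533 (@Lb.r r2468 (@Lb.d (nat_lit 618) (nat_lit 97) (nat_lit 544) (@Lb.fp (nat_lit 3) t307)))))))))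
noncomputable def l30048 : Lb := (@Lb.r r355 (@Lb.d (nat_lit 129) (nat_lit 520) (nat_lit 21) (@Lb.g g8 (@Lb.g g9 (@Lb.g g10 (@Lb.r r391 (@Lb.r r664 (@Lb.r r2133 (@Lb.d (nat_lit 33) (nat_lit 162) (nat_lit 346) (@Lb.t (@Lb.fp (nat_lit 9) t5445)))))))))))
noncomputable def l30049 : Lb := (@Lb.r r81 (@Lb.d (nat_lit 16) (nat_lit 256) (nat_lit 146) (@Lb.g g10 (@Lb.g g11 (@Lb.r r1700 (@Lb.r r1447 (@Lb.r r37 (@Lb.d (nat_lit 5) (nat_lit 152) (nat_lit 1) (@Lb.fp (nat_lit 3) t4338)))))))))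
noncomputable def l30050 : Lb := (@Lb.r r355 (@Lb.d (nat_lit 40) (nat_lit 265) (nat_lit 5) (@Lb.g g9 (@Lb.g g10 (@Lb.r r1579 (@Lb.r r1428 (@Lb.r r2729 (@Lb.d (nat_lit 645) (nat_lit 138) (nat_lit 10) (@Lb.fm (nat_lit 3) t4337)))))))))
noncomputable def l30051 : Lb := (@Lb.r r355 (@Lb.d (nat_lit 65) (nat_lit 9) (nat_lit 1) (@Lb.g g8 (@Lb.g g9 (@Lb.g g10 (@Lb.r r2327 (@Lb.r r1634 (@Lb.r r1685 (@Lb.r r1192 (@Lb.d (nat_lit 166) (nat_lit 42) (nat_lit 2) (@Lb.t (@Lb.fp (nat_lit 9) t4337))))))))))))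
noncomputable def l30052 : Lb := (@Lb.d (nat_lit 1) (nat_lit 548) (nat_lit 132) (@Lb.g g8 (@Lb.g g9 (@Lb.g g10 (@Lb.g g11 (@Lb.r r2327 (@Lb.r r1634 (@Lb.r r2212 (@Lb.r r2085 (@Lb.d (nat_lit 665) (nat_lit 170) (nat_lit 680) (@Lb.fm (nat_lit 9) t4337)))))))))))
noncomputable def l30053 : Lb := (@Lb.d (nat_lit 386) (nat_lit 384) (nat_lit 256) (@Lb.r r24 (@Lb.r r2138 (@Lb.g g9 (@Lb.t (@Lb.fm (nat_lit 3) t4309))))))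
noncomputable def l30054 : Lb := (@Lb.r r2118 (@Lb.r r2069 (@Lb.r r36 (@Lb.d (nat_lit 138) (nat_lit 402) (nat_lit 256) (@Lb.fp (nat_lit 1) t2830)))))
noncomputable def l30055 : Lb := (@Lb.r r331 (@Lb.d (nat_lit 34) (nat_lit 2) (nat_lit 17) (@Lb.g g8 (@Lb.g g9 (@Lb.g g6 (@Lb.r r1411 (@Lb.r r1577 (@Lb.r r2724 (@Lb.d (nat_lit 153) (nat_lit 81) (nat_lit 660) (@Lb.t (@Lb.fm (nat_lit 9) t5446)))))))))))
noncomputable def l30056 : Lb := (@Lb.r r323 (@Lb.d (nat_lit 32) (nat_lit 258) (nat_lit 33) (@Lb.g g9 (@Lb.g g6 (@Lb.r r2692 (@Lb.r r2567 (@Lb.r r97 (@Lb.d (nat_lit 401) (nat_lit 22) (nat_lit 533) (@Lb.fp (nat_lit 3) t1597)))))))))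
noncomputable def l30057 : Lb := (@Lb.d (nat_lit 386) (nat_lit 128) (nat_lit 256) (@Lb.r r24 (@Lb.r r2138 (@Lb.g g7 (@Lb.g g9 (@Lb.fm (nat_lit 3) t5447))))))
noncomputable def l30058 : Lb := (@Lb.d (nat_lit 9) (nat_lit 513) (nat_lit 73) (@Lb.g g8 (@Lb.g g9 (@Lb.g g10 (@Lb.g g11 (@Lb.r r2691 (@Lb.r r297 (@Lb.r r648 (@Lb.r r666 (@Lb.r r1156 (@Lb.d (nat_lit 640) (nat_lit 42) (nat_lit 73) (@Lb.fp (nat_lit 9) t259))))))))))))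
noncomputable def l30059 : Lb := (@Lb.r r323 (@Lb.d (nat_lit 0) (nat_lit 289) (nat_lit 18) (@Lb.g g9 (@Lb.g g10 (@Lb.r r599 (@Lb.r r1320 (@Lb.r r1385 (@Lb.d (nat_lit 408) (nat_lit 166) (nat_lit 677) (@Lb.fp (nat_lit 3) t3845)))))))))
noncomputable def l30060 : Lb := (@Lb.d (nat_lit 0) (nat_lit 258) (nat_lit 130) (@Lb.g g9 (@Lb.g g10 (@Lb.g g11 (@Lb.r r2691 (@Lb.r r297 (@Lb.r r2404 (@Lb.r r1610 (@Lb.d (nat_lit 402) (nat_lit 10) (nat_lit 342) (@Lb.t (@Lb.fm (nat_lit 9) t2157)))))))))))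
noncomputable def l30061 : Lb := (@Lb.d (nat_lit 660) (nat_lit 65) (nat_lit 258) (@Lb.r r289 (@Lb.r r1094 (@Lb.r r2468 (@Lb.r r1563 (@Lb.g g7 (@Lb.g g6 (@Lb.g g5 (@Lb.d (nat_lit 0) (nat_lit 0) (nat_lit 64) (@Lb.t (@Lb.fp (nat_lit 9) t5448)))))))))))
noncomputable def l30062 : Lb := (@Lb.r r275 (@Lb.d (nat_lit 8) (nat_lit 0) (nat_lit 17) (@Lb.g g9 (@Lb.g g10 (@Lb.r r344 (@Lb.r r359 (@Lb.r r2385 (@Lb.d (nat_lit 0) (nat_lit 24) (nat_lit 677) (@Lb.fp (nat_lit 3) t3240)))))))))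
noncomputable def l30063 : Lb := (@Lb.r r275 (@Lb.d (nat_lit 129) (nat_lit 0) (nat_lit 17) (@Lb.g g8 (@Lb.g g9 (@Lb.g g10 (@Lb.r r391 (@Lb.r r2193 (@Lb.r r1636 (@Lb.d (nat_lit 410) (nat_lit 154) (nat_lit 680) (@Lb.t (@Lb.fm (nat_lit 9) t3240)))))))))))
noncomputable def l30064 : Lb := (@Lb.d (nat_lit 1) (nat_lit 553) (nat_lit 128) (@Lb.g g8 (@Lb.g g9 (@Lb.g g11 (@Lb.r r1443 (@Lb.r r138 (@Lb.r r2472 (@Lb.r r2345 (@Lb.d (nat_lit 641) (nat_lit 4) (nat_lit 641) (@Lb.t (@Lb.fp (nat_lit 9) t3687)))))))))))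
noncomputable def l30065 : Lb := (@Lb.d (nat_lit 2) (nat_lit 386) (nat_lit 9) (@Lb.r r98 (@Lb.r r105 (@Lb.r r168 (@Lb.r r1671 (@Lb.g g6 (@Lb.d (nat_lit 32) (nat_lit 0) (nat_lit 1) (@Lb.r r387 (@Lb.t (@Lb.fp (nat_lit 3) t2389))))))))))
noncomputable def l30066 : Lb := (@Lb.d (nat_lit 38) (nat_lit 256) (nat_lit 129) (@Lb.g g8 (@Lb.g g9 (@Lb.g g10 (@Lb.g g11 (@Lb.r r1634 (@Lb.r r404 (@Lb.r r2667 (@Lb.r r97 (@Lb.r r2564 (@Lb.d (nat_lit 104) (nat_lit 130) (nat_lit 18) (@Lb.fp (nat_lit 9) t5449))))))))))))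
noncomputable def l30067 : Lb := (@Lb.r r275 (@Lb.d (nat_lit 129) (nat_lit 0) (nat_lit 2) (@Lb.g g8 (@Lb.g g9 (@Lb.g g10 (@Lb.r r610 (@Lb.r r583 (@Lb.r r2345 (@Lb.r r264 (@Lb.d (nat_lit 137) (nat_lit 129) (nat_lit 144) (@Lb.t (@Lb.fp (nat_lit 9) t5450))))))))))))
noncomputable def l30068 : Lb := (@Lb.r r275 (@Lb.g g4 (@Lb.g g9 (@Lb.g g6 (@Lb.r r1553 (@Lb.r r2451 (@Lb.d (nat_lit 0) (nat_lit 512) (nat_lit 16) (@Lb.t (@Lb.fm (nat_lit 9) t1481)))))))))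
noncomputable def l30069 : Lb := (@Lb.d (nat_lit 42) (nat_lit 326) (nat_lit 33) (@Lb.r r1109 (@Lb.r r2218 (@Lb.r r2724 (@Lb.r r2599 (@Lb.g g5 (@Lb.g g8 (@Lb.fp (nat_lit 3) t210))))))))
noncomputable def l30070 : Lb := (@Lb.r r20 (@Lb.d (nat_lit 168) (nat_lit 2) (nat_lit 130) (@Lb.g g9 (@Lb.g g6 (@Lb.g g11 (@Lb.r r264 (@Lb.r r2455 (@Lb.r r1553 (@Lb.d (nat_lit 42) (nat_lit 82) (nat_lit 646) (@Lb.t (@Lb.fm (nat_lit 9) t51)))))))))))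
noncomputable def l30071 : Lb := (@Lb.d (nat_lit 0) (nat_lit 8) (nat_lit 4) (@Lb.g g10 (@Lb.g g11 (@Lb.r r353 (@Lb.r r663 (@Lb.r r356 (@Lb.r r154 (@Lb.d (nat_lit 25) (nat_lit 89) (nat_lit 354) (@Lb.fp (nat_lit 3) t210)))))))))
noncomputable def l30072 : Lb := (@Lb.r r20 (@Lb.d (nat_lit 160) (nat_lit 257) (nat_lit 130) (@Lb.g g9 (@Lb.g g6 (@Lb.g g11 (@Lb.r r264 (@Lb.r r2455 (@Lb.r r1553 (@Lb.d (nat_lit 42) (nat_lit 89) (nat_lit 645) (@Lb.t (@Lb.fm (nat_lit 9) t51)))))))))))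
noncomputable def l30073 : Lb := (@Lb.d (nat_lit 0) (nat_lit 258) (nat_lit 132) (@Lb.g g8 (@Lb.g g9 (@Lb.g g10 (@Lb.g g7 (@Lb.r r682 (@Lb.r r2457 (@Lb.r r2436 (@Lb.d (nat_lit 617) (nat_lit 161) (nat_lit 610) (@Lb.fp (nat_lit 9) t918))))))))))
noncomputable def l30074 : Lb := (@Lb.r r20 (@Lb.r r275 (@Lb.d (nat_lit 4) (nat_lit 674) (nat_lit 2) (@Lb.g g9 (@Lb.g g10 (@Lb.r r1619 (@Lb.r r386 (@Lb.r r8 (@Lb.d (nat_lit 0) (nat_lit 2) (nat_lit 666) (@Lb.fp (nat_lit 3) t546))))))))))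
noncomputable def l30075 : Lb := (@Lb.d (nat_lit 0) (nat_lit 514) (nat_lit 130) (@Lb.g g9 (@Lb.g g10 (@Lb.g g11 (@Lb.r r610 (@Lb.r r2667 (@Lb.r r97 (@Lb.r r2564 (@Lb.d (nat_lit 392) (nat_lit 130) (nat_lit 386) (@Lb.t (@Lb.fm (nat_lit 9) t826)))))))))))
noncomputable def l30076 : Lb := (@Lb.r r275 (@Lb.d (nat_lit 8) (nat_lit 512) (nat_lit 2) (@Lb.g g9 (@Lb.g g10 (@Lb.r r1638 (@Lb.r r1603 (@Lb.r r532 (@Lb.r r361 (@Lb.d (nat_lit 294) (nat_lit 42) (nat_lit 22) (@Lb.fm (nat_lit 3) t5451))))))))))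
noncomputable def l30077 : Lb := (@Lb.d (nat_lit 400) (nat_lit 0) (nat_lit 38) (@Lb.r r1158 (@Lb.r r2136 (@Lb.r r539 (@Lb.r r2341 (@Lb.g g7 (@Lb.g g6 (@Lb.d (nat_lit 0) (nat_lit 0) (nat_lit 133) (@Lb.fm (nat_lit 3) t4337)))))))))
noncomputable def l30078 : Lb := (@Lb.d (nat_lit 674) (nat_lit 522) (nat_lit 256) (@Lb.r r587 (@Lb.r r2442 (@Lb.r r2468 (@Lb.r r2389 (@Lb.g g7 (@Lb.d (nat_lit 0) (nat_lit 16) (nat_lit 128) (@Lb.t (@Lb.fm (nat_lit 3) t3081)))))))))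
noncomputable def l30079 : Lb := (@Lb.d (nat_lit 80) (nat_lit 266) (nat_lit 137) (@Lb.r r2438 (@Lb.r r1624 (@Lb.r r539 (@Lb.r r2341 (@Lb.g g7 (@Lb.g g6 (@Lb.d (nat_lit 0) (nat_lit 0) (nat_lit 134) (@Lb.fm (nat_lit 3) t3081)))))))))
noncomputable def l30080 : Lb := (@Lb.d (nat_lit 401) (nat_lit 0) (nat_lit 646) (@Lb.r r1094 (@Lb.r r2196 (@Lb.r r297 (@Lb.g g11 (@Lb.g g5 (@Lb.g g4 (@Lb.d (nat_lit 1) (nat_lit 1) (nat_lit 384) (@Lb.r r578 (@Lb.t (@Lb.fp (nat_lit 9) t981)))))))))))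
noncomputable def l30081 : Lb := (@Lb.d (nat_lit 0) (nat_lit 513) (nat_lit 73) (@Lb.g g8 (@Lb.g g9 (@Lb.g g10 (@Lb.g g11 (@Lb.r r2154 (@Lb.r r105 (@Lb.r r596 (@Lb.r r1319 (@Lb.r r2564 (@Lb.d (nat_lit 10) (nat_lit 88) (nat_lit 642) (@Lb.fm (nat_lit 9) t71))))))))))))
noncomputable def l30082 : Lb := (@Lb.d (nat_lit 298) (nat_lit 512) (nat_lit 544) (@Lb.r r1190 (@Lb.r r679 (@Lb.r r344 (@Lb.g g7 (@Lb.g g5 (@Lb.d (nat_lit 64) (nat_lit 136) (nat_lit 128) (@Lb.fp (nat_lit 3) t98))))))))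
noncomputable def l30083 : Lb := (@Lb.d (nat_lit 32) (nat_lit 1) (nat_lit 64) (@Lb.g g8 (@Lb.g g9 (@Lb.g g11 (@Lb.r r2153 (@Lb.r r150 (@Lb.r r596 (@Lb.r r2599 (@Lb.d (nat_lit 650) (nat_lit 153) (nat_lit 357) (@Lb.t (@Lb.fp (nat_lit 9) t430)))))))))))
noncomputable def l30084 : Lb := (@Lb.d (nat_lit 0) (nat_lit 513) (nat_lit 73) (@Lb.g g8 (@Lb.g g9 (@Lb.g g10 (@Lb.g g11 (@Lb.r r2691 (@Lb.r r2217 (@Lb.r r2658 (@Lb.r r2436 (@Lb.d (nat_lit 358) (nat_lit 166) (nat_lit 660) (@Lb.fp (nat_lit 9) t1831)))))))))))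
noncomputable def l30085 : Lb := (@Lb.d (nat_lit 0) (nat_lit 514) (nat_lit 73) (@Lb.g g8 (@Lb.g g9 (@Lb.g g10 (@Lb.g g11 (@Lb.r r2691 (@Lb.r r1193 (@Lb.r r2658 (@Lb.r r2436 (@Lb.d (nat_lit 612) (nat_lit 166) (nat_lit 660) (@Lb.fp (nat_lit 9) t1831)))))))))))
noncomputable def l30086 : Lb := (@Lb.d (nat_lit 424) (nat_lit 661) (nat_lit 257) (@Lb.r r2406 (@Lb.r r337 (@Lb.r r423 (@Lb.r r600 (@Lb.g g6 (@Lb.d (nat_lit 16) (nat_lit 0) (nat_lit 2) (@Lb.r r387 (@Lb.t (@Lb.fp (nat_lit 3) t1549))))))))))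
noncomputable def l30087 : Lb := (@Lb.d (nat_lit 138) (nat_lit 1) (nat_lit 2) (@Lb.g g8 (@Lb.g g9 (@Lb.g g10 (@Lb.r r1303 (@Lb.r r138 (@Lb.r r1577 (@Lb.r r164 (@Lb.d (nat_lit 324) (nat_lit 68) (nat_lit 264) (@Lb.t (@Lb.fm (nat_lit 9) t994)))))))))))
noncomputable def l30088 : Lb := (@Lb.d (nat_lit 0) (nat_lit 1) (nat_lit 9) (@Lb.g g8 (@Lb.g g9 (@Lb.g g10 (@Lb.g g11 (@Lb.r r2154 (@Lb.r r2409 (@Lb.r r2455 (@Lb.r r1608 (@Lb.d (nat_lit 102) (nat_lit 1) (nat_lit 162) (@Lb.fp (nat_lit 9) t282)))))))))))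
noncomputable def l30089 : Lb := (@Lb.d (nat_lit 8) (nat_lit 258) (nat_lit 2) (@Lb.g g9 (@Lb.g g10 (@Lb.r r2658 (@Lb.d (nat_lit 2) (nat_lit 164) (nat_lit 682) (@Lb.fm (nat_lit 3) t479))))))
noncomputable def l30090 : Lb := (@Lb.d (nat_lit 2) (nat_lit 516) (nat_lit 74) (@Lb.g g8 (@Lb.g g9 (@Lb.g g10 (@Lb.g g11 (@Lb.r r1443 (@Lb.r r578 (@Lb.r r424 (@Lb.r r297 (@Lb.r r1060 (@Lb.d (nat_lit 81) (nat_lit 85) (nat_lit 513) (@Lb.fp (nat_lit 9) t3890))))))))))))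
noncomputable def l30091 : Lb := (@Lb.d (nat_lit 9) (nat_lit 4) (nat_lit 74) (@Lb.g g8 (@Lb.g g9 (@Lb.g g10 (@Lb.g g11 (@Lb.r r2691 (@Lb.r r1450 (@Lb.r r2325 (@Lb.r r2068 (@Lb.d (nat_lit 266) (nat_lit 33) (nat_lit 424) (@Lb.fp (nat_lit 9) t5452)))))))))))
noncomputable def l30092 : Lb := (@Lb.d (nat_lit 2) (nat_lit 261) (nat_lit 74) (@Lb.g g8 (@Lb.g g9 (@Lb.g g10 (@Lb.g g11 (@Lb.r r2691 (@Lb.r r1450 (@Lb.r r289 (@Lb.r r24 (@Lb.d (nat_lit 138) (nat_lit 162) (nat_lit 168) (@Lb.fp (nat_lit 9) t3084)))))))))))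
noncomputable def l30093 : Lb := (@Lb.d (nat_lit 154) (nat_lit 18) (nat_lit 74) (@Lb.g g8 (@Lb.g g9 (@Lb.g g10 (@Lb.g g11 (@Lb.r r2691 (@Lb.r r1450 (@Lb.r r1320 (@Lb.r r2153 (@Lb.d (nat_lit 424) (nat_lit 22) (nat_lit 165) (@Lb.fp (nat_lit 9) t5453)))))))))))
noncomputable def l30094 : Lb := (@Lb.d (nat_lit 0) (nat_lit 260) (nat_lit 74) (@Lb.g g9 (@Lb.g g10 (@Lb.g g11 (@Lb.r r2691 (@Lb.r r1442 (@Lb.r r1313 (@Lb.r r24 (@Lb.d (nat_lit 0) (nat_lit 146) (nat_lit 680) (@Lb.t (@Lb.fm (nat_lit 9) t1256)))))))))))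
noncomputable def l30095 : Lb := (@Lb.r r263 (@Lb.d (nat_lit 0) (nat_lit 514) (nat_lit 2) (@Lb.g g8 (@Lb.g g9 (@Lb.g g10 (@Lb.r r683 (@Lb.r r386 (@Lb.r r2657 (@Lb.r r1048 (@Lb.d (nat_lit 0) (nat_lit 154) (nat_lit 613) (@Lb.t (@Lb.fm (nat_lit 9) t4925))))))))))))
noncomputable def l30096 : Lb := (@Lb.d (nat_lit 0) (nat_lit 4) (nat_lit 128) (@Lb.g g8 (@Lb.g g9 (@Lb.g g10 (@Lb.g g11 (@Lb.r r427 (@Lb.r r424 (@Lb.r r106 (@Lb.r r97 (@Lb.d (nat_lit 2) (nat_lit 10) (nat_lit 17) (@Lb.fp (nat_lit 9) t901)))))))))))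
noncomputable def l30097 : Lb := (@Lb.d (nat_lit 0) (nat_lit 258) (nat_lit 130) (@Lb.g g8 (@Lb.g g9 (@Lb.g g10 (@Lb.g g11 (@Lb.r r427 (@Lb.r r2146 (@Lb.r r1433 (@Lb.r r1432 (@Lb.d (nat_lit 40) (nat_lit 137) (nat_lit 33) (@Lb.fm (nat_lit 9) t968)))))))))))
noncomputable def l30098 : Lb := (@Lb.r r263 (@Lb.d (nat_lit 0) (nat_lit 260) (nat_lit 0) (@Lb.g g8 (@Lb.g g9 (@Lb.g g10 (@Lb.r r676 (@Lb.r r519 (@Lb.r r2146 (@Lb.r r2149 (@Lb.d (nat_lit 516) (nat_lit 73) (nat_lit 1) (@Lb.t (@Lb.fm (nat_lit 9) t5454))))))))))))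
noncomputable def l30099 : Lb := (@Lb.d (nat_lit 32) (nat_lit 512) (nat_lit 130) (@Lb.g g10 (@Lb.g g11 (@Lb.r r423 (@Lb.r r600 (@Lb.r r1429 (@Lb.r r406 (@Lb.d (nat_lit 666) (nat_lit 24) (nat_lit 420) (@Lb.fm (nat_lit 3) t1057)))))))))
noncomputable def l30100 : Lb := (@Lb.d (nat_lit 130) (nat_lit 516) (nat_lit 128) (@Lb.g g8 (@Lb.g g9 (@Lb.g g10 (@Lb.g g11 (@Lb.r r1706 (@Lb.r r1411 (@Lb.r r1177 (@Lb.r r1156 (@Lb.d (nat_lit 290) (nat_lit 90) (nat_lit 665) (@Lb.fm (nat_lit 9) t995)))))))))))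
noncomputable def l30101 : Lb := (@Lb.d (nat_lit 0) (nat_lit 544) (nat_lit 64) (@Lb.g g11 (@Lb.r r1684 (@Lb.r r345 (@Lb.r r1638 (@Lb.r r1635 (@Lb.d (nat_lit 0) (nat_lit 170) (nat_lit 410) (@Lb.t (@Lb.fm (nat_lit 3) t1818)))))))))
noncomputable def l30102 : Lb := (@Lb.d (nat_lit 130) (nat_lit 2) (nat_lit 130) (@Lb.g g8 (@Lb.g g9 (@Lb.g g10 (@Lb.g g11 (@Lb.r r2666 (@Lb.r r612 (@Lb.r r1319 (@Lb.r r405 (@Lb.r r2084 (@Lb.d (nat_lit 617) (nat_lit 130) (nat_lit 170) (@Lb.fp (nat_lit 9) t2805))))))))))))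
noncomputable def l30103 : Lb := (@Lb.d (nat_lit 2) (nat_lit 292) (nat_lit 128) (@Lb.g g8 (@Lb.g g9 (@Lb.g g10 (@Lb.g g11 (@Lb.r r104 (@Lb.r r1350 (@Lb.r r2451 (@Lb.r r2597 (@Lb.r r2068 (@Lb.d (nat_lit 41) (nat_lit 132) (nat_lit 384) (@Lb.fp (nat_lit 9) t4))))))))))))
noncomputable def l30104 : Lb := (@Lb.r r21 (@Lb.d (nat_lit 16) (nat_lit 8) (nat_lit 128) (@Lb.g g8 (@Lb.g g10 (@Lb.g g11 (@Lb.r r1707 (@Lb.r r293 (@Lb.r r2664 (@Lb.r r1446 (@Lb.d (nat_lit 362) (nat_lit 137) (nat_lit 662) (@Lb.t (@Lb.fm (nat_lit 9) t2996))))))))))))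
noncomputable def l30105 : Lb := (@Lb.r r323 (@Lb.d (nat_lit 128) (nat_lit 545) (nat_lit 32) (@Lb.g g8 (@Lb.g g9 (@Lb.g g10 (@Lb.r r583 (@Lb.r r2452 (@Lb.r r1129 (@Lb.d (nat_lit 294) (nat_lit 164) (nat_lit 160) (@Lb.t (@Lb.fm (nat_lit 9) t386)))))))))))
noncomputable def l30106 : Lb := (@Lb.d (nat_lit 16) (nat_lit 258) (nat_lit 128) (@Lb.g g8 (@Lb.g g9 (@Lb.g g10 (@Lb.g g11 (@Lb.r r683 (@Lb.r r676 (@Lb.r r1190 (@Lb.r r145 (@Lb.d (nat_lit 265) (nat_lit 130) (nat_lit 426) (@Lb.fp (nat_lit 9) t152)))))))))))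
noncomputable def l30107 : Lb := (@Lb.r r21 (@Lb.d (nat_lit 16) (nat_lit 264) (nat_lit 128) (@Lb.g g8 (@Lb.g g10 (@Lb.g g11 (@Lb.r r1707 (@Lb.r r293 (@Lb.r r2664 (@Lb.r r1446 (@Lb.d (nat_lit 361) (nat_lit 137) (nat_lit 662) (@Lb.t (@Lb.fm (nat_lit 9) t2996))))))))))))
noncomputable def l30108 : Lb := (@Lb.d (nat_lit 36) (nat_lit 357) (nat_lit 646) (@Lb.r r101 (@Lb.r r386 (@Lb.g g11 (@Lb.g g6 (@Lb.g g5 (@Lb.g g8 (@Lb.d (nat_lit 0) (nat_lit 0) (nat_lit 1) (@Lb.fp (nat_lit 9) t1266)))))))))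
noncomputable def l30109 : Lb := (@Lb.r r323 (@Lb.d (nat_lit 2) (nat_lit 544) (nat_lit 1) (@Lb.g g8 (@Lb.g g9 (@Lb.g g10 (@Lb.r r1299 (@Lb.r r1354 (@Lb.r r2664 (@Lb.r r2585 (@Lb.d (nat_lit 325) (nat_lit 137) (nat_lit 662) (@Lb.t (@Lb.fp (nat_lit 9) t3883))))))))))))
noncomputable def l30110 : Lb := (@Lb.r r82 (@Lb.d (nat_lit 418) (nat_lit 258) (nat_lit 128) (@Lb.g g8 (@Lb.g g9 (@Lb.g g11 (@Lb.r r291 (@Lb.r r2438 (@Lb.r r2449 (@Lb.d (nat_lit 4) (nat_lit 33) (nat_lit 409) (@Lb.t (@Lb.fp (nat_lit 9) t5455)))))))))))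
noncomputable def l30111 : Lb := (@Lb.d (nat_lit 132) (nat_lit 65) (nat_lit 640) (@Lb.r r101 (@Lb.r r402 (@Lb.g g11 (@Lb.g g6 (@Lb.g g8 (@Lb.t (@Lb.fp (nat_lit 9) t5456))))))))
noncomputable def l30112 : Lb := (@Lb.r r82 (@Lb.r r275 (@Lb.d (nat_lit 8) (nat_lit 641) (nat_lit 0) (@Lb.g g5 (@Lb.r r2347 (@Lb.r r2154 (@Lb.r r36 (@Lb.d (nat_lit 258) (nat_lit 1) (nat_lit 0) (@Lb.t (@Lb.fm (nat_lit 3) t68))))))))))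
noncomputable def l30113 : Lb := (@Lb.d (nat_lit 8) (nat_lit 258) (nat_lit 73) (@Lb.g g8 (@Lb.g g9 (@Lb.g g10 (@Lb.g g11 (@Lb.r r2691 (@Lb.r r1434 (@Lb.r r289 (@Lb.r r552 (@Lb.d (nat_lit 6) (nat_lit 32) (nat_lit 40) (@Lb.fp (nat_lit 9) t5457)))))))))))
noncomputable def l30114 : Lb := (@Lb.d (nat_lit 130) (nat_lit 258) (nat_lit 130) (@Lb.g g8 (@Lb.g g9 (@Lb.g g10 (@Lb.g g11 (@Lb.r r1706 (@Lb.r r1411 (@Lb.r r1177 (@Lb.r r1156 (@Lb.d (nat_lit 297) (nat_lit 89) (nat_lit 665) (@Lb.fm (nat_lit 9) t773)))))))))))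
noncomputable def l30115 : Lb := (@Lb.r r82 (@Lb.r r275 (@Lb.d (nat_lit 2) (nat_lit 513) (nat_lit 0) (@Lb.g g8 (@Lb.g g5 (@Lb.r r291 (@Lb.r r98 (@Lb.d (nat_lit 10) (nat_lit 130) (nat_lit 0) (@Lb.fp (nat_lit 3) t1585)))))))))
noncomputable def l30116 : Lb := (@Lb.d (nat_lit 0) (nat_lit 516) (nat_lit 64) (@Lb.g g9 (@Lb.g g10 (@Lb.g g7 (@Lb.r r386 (@Lb.r r97 (@Lb.d (nat_lit 5) (nat_lit 10) (nat_lit 137) (@Lb.t (@Lb.fp (nat_lit 9) t607)))))))))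
noncomputable def l30117 : Lb := (@Lb.d (nat_lit 18) (nat_lit 32) (nat_lit 64) (@Lb.g g8 (@Lb.g g10 (@Lb.g g11 (@Lb.r r2337 (@Lb.r r531 (@Lb.r r2122 (@Lb.r r1112 (@Lb.d (nat_lit 553) (nat_lit 165) (nat_lit 38) (@Lb.t (@Lb.fp (nat_lit 9) t2426)))))))))))
noncomputable def l30118 : Lb := (@Lb.r r21 (@Lb.d (nat_lit 18) (nat_lit 256) (nat_lit 0) (@Lb.g g8 (@Lb.g g10 (@Lb.g g7 (@Lb.r r1688 (@Lb.r r101 (@Lb.r r2450 (@Lb.d (nat_lit 608) (nat_lit 146) (nat_lit 665) (@Lb.t (@Lb.fm (nat_lit 9) t4720)))))))))))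
noncomputable def l30119 : Lb := (@Lb.d (nat_lit 258) (nat_lit 384) (nat_lit 1) (@Lb.r r1048 (@Lb.r r101 (@Lb.g g7 (@Lb.g g6 (@Lb.d (nat_lit 96) (nat_lit 4) (nat_lit 421) (@Lb.r r401 (@Lb.r r388 (@Lb.fm (nat_lit 3) t4720)))))))))
noncomputable def l30120 : Lb := (@Lb.r r580 (@Lb.d (nat_lit 16) (nat_lit 288) (nat_lit 105) (@Lb.g g10 (@Lb.g g11 (@Lb.r r2405 (@Lb.r r667 (@Lb.r r1048 (@Lb.d (nat_lit 664) (nat_lit 70) (nat_lit 265) (@Lb.fp (nat_lit 3) t2426)))))))))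
noncomputable def l30121 : Lb := (@Lb.r r664 (@Lb.r r154 (@Lb.r r2133 (@Lb.r r164 (@Lb.d (nat_lit 610) (nat_lit 256) (nat_lit 154) (@Lb.fp (nat_lit 1) t2428))))))
noncomputable def l30122 : Lb := (@Lb.d (nat_lit 9) (nat_lit 2) (nat_lit 74) (@Lb.g g8 (@Lb.g g9 (@Lb.g g10 (@Lb.g g11 (@Lb.r r387 (@Lb.r r2146 (@Lb.r r2436 (@Lb.d (nat_lit 608) (nat_lit 20) (nat_lit 644) (@Lb.fp (nat_lit 9) t3153))))))))))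
noncomputable def l30123 : Lb := (@Lb.d (nat_lit 144) (nat_lit 512) (nat_lit 384) (@Lb.g g8 (@Lb.g g10 (@Lb.g g11 (@Lb.r r1602 (@Lb.r r2457 (@Lb.r r388 (@Lb.d (nat_lit 360) (nat_lit 128) (nat_lit 394) (@Lb.t (@Lb.fm (nat_lit 9) t5139))))))))))
noncomputable def l30124 : Lb := (@Lb.d (nat_lit 40) (nat_lit 1) (nat_lit 64) (@Lb.g g9 (@Lb.g g10 (@Lb.g g11 (@Lb.r r328 (@Lb.r r2711 (@Lb.r r662 (@Lb.r r1425 (@Lb.d (nat_lit 598) (nat_lit 150) (nat_lit 409) (@Lb.t (@Lb.fp (nat_lit 9) t3263)))))))))))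
noncomputable def l30125 : Lb := (@Lb.d (nat_lit 26) (nat_lit 264) (nat_lit 2) (@Lb.g g8 (@Lb.g g9 (@Lb.g g10 (@Lb.g g7 (@Lb.r r418 (@Lb.r r40 (@Lb.r r2457 (@Lb.d (nat_lit 656) (nat_lit 129) (nat_lit 420) (@Lb.fm (nat_lit 9) t1664))))))))))
noncomputable def l30126 : Lb := (@Lb.d (nat_lit 390) (nat_lit 528) (nat_lit 544) (@Lb.r r2325 (@Lb.r r1387 (@Lb.g g10 (@Lb.g g5 (@Lb.g g4 (@Lb.d (nat_lit 8) (nat_lit 21) (nat_lit 22) (@Lb.r r387 (@Lb.t (@Lb.fm (nat_lit 9) t304))))))))))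
noncomputable def l30127 : Lb := (@Lb.d (nat_lit 10) (nat_lit 512) (nat_lit 130) (@Lb.g g8 (@Lb.g g10 (@Lb.g g11 (@Lb.r r2443 (@Lb.r r2193 (@Lb.r r2458 (@Lb.r r2436 (@Lb.d (nat_lit 358) (nat_lit 1) (nat_lit 682) (@Lb.t (@Lb.fp (nat_lit 9) t221)))))))))))
noncomputable def l30128 : Lb := (@Lb.d (nat_lit 144) (nat_lit 512) (nat_lit 384) (@Lb.g g8 (@Lb.g g5 (@Lb.g g10 (@Lb.g g11 (@Lb.r r1602 (@Lb.r r388 (@Lb.d (nat_lit 105) (nat_lit 128) (nat_lit 394) (@Lb.fm (nat_lit 9) t5458)))))))))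
noncomputable def l30129 : Lb := (@Lb.d (nat_lit 40) (nat_lit 1) (nat_lit 64) (@Lb.g g9 (@Lb.g g10 (@Lb.g g11 (@Lb.r r328 (@Lb.r r2711 (@Lb.r r662 (@Lb.r r1425 (@Lb.d (nat_lit 36) (nat_lit 150) (nat_lit 514) (@Lb.t (@Lb.fp (nat_lit 9) t100)))))))))))
noncomputable def l30130 : Lb := (@Lb.r r21 (@Lb.d (nat_lit 144) (nat_lit 288) (nat_lit 320) (@Lb.g g8 (@Lb.g g10 (@Lb.g g11 (@Lb.r r1626 (@Lb.r r341 (@Lb.r r2148 (@Lb.d (nat_lit 70) (nat_lit 73) (nat_lit 674) (@Lb.t (@Lb.fm (nat_lit 9) t163)))))))))))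
noncomputable def l30131 : Lb := (@Lb.d (nat_lit 40) (nat_lit 257) (nat_lit 64) (@Lb.g g9 (@Lb.g g10 (@Lb.g g11 (@Lb.r r328 (@Lb.r r2711 (@Lb.r r662 (@Lb.r r1425 (@Lb.d (nat_lit 38) (nat_lit 150) (nat_lit 514) (@Lb.t (@Lb.fp (nat_lit 9) t100)))))))))))
noncomputable def l30132 : Lb := (@Lb.d (nat_lit 408) (nat_lit 74) (nat_lit 274) (@Lb.r r1169 (@Lb.r r1178 (@Lb.r r1416 (@Lb.r r1575 (@Lb.g g7 (@Lb.g g5 (@Lb.d (nat_lit 0) (nat_lit 0) (nat_lit 64) (@Lb.r r98 (@Lb.fp (nat_lit 3) t5459))))))))))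
noncomputable def l30133 : Lb := (@Lb.r r323 (@Lb.d (nat_lit 0) (nat_lit 545) (nat_lit 18) (@Lb.g g9 (@Lb.g g10 (@Lb.r r599 (@Lb.r r1320 (@Lb.r r1385 (@Lb.d (nat_lit 405) (nat_lit 170) (nat_lit 678) (@Lb.fp (nat_lit 3) t296)))))))))
noncomputable def l30134 : Lb := (@Lb.d (nat_lit 8) (nat_lit 166) (nat_lit 657) (@Lb.r r1049 (@Lb.r r408 (@Lb.r r330 (@Lb.g g11 (@Lb.g g5 (@Lb.g g4 (@Lb.d (nat_lit 17) (nat_lit 5) (nat_lit 128) (@Lb.t (@Lb.fp (nat_lit 9) t322))))))))))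
noncomputable def l30135 : Lb := (@Lb.d (nat_lit 9) (nat_lit 293) (nat_lit 10) (@Lb.g g8 (@Lb.g g9 (@Lb.g g10 (@Lb.g g11 (@Lb.r r1699 (@Lb.r r1160 (@Lb.r r1610 (@Lb.r r1633 (@Lb.d (nat_lit 41) (nat_lit 9) (nat_lit 384) (@Lb.fm (nat_lit 9) t865)))))))))))
noncomputable def l30136 : Lb := (@Lb.d (nat_lit 144) (nat_lit 514) (nat_lit 64) (@Lb.g g8 (@Lb.g g9 (@Lb.g g10 (@Lb.g g11 (@Lb.r r1315 (@Lb.r r390 (@Lb.r r1621 (@Lb.r r2440 (@Lb.d (nat_lit 277) (nat_lit 104) (nat_lit 345) (@Lb.fp (nat_lit 9) t394)))))))))))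
noncomputable def l30137 : Lb := (@Lb.d (nat_lit 129) (nat_lit 546) (nat_lit 2) (@Lb.g g8 (@Lb.g g9 (@Lb.g g10 (@Lb.r r327 (@Lb.r r346 (@Lb.r r1429 (@Lb.r r296 (@Lb.d (nat_lit 533) (nat_lit 64) (nat_lit 645) (@Lb.t (@Lb.fp (nat_lit 9) t5395)))))))))))
noncomputable def l30138 : Lb := (@Lb.d (nat_lit 32) (nat_lit 8) (nat_lit 2) (@Lb.g g10 (@Lb.r r1380 (@Lb.r r2715 (@Lb.r r357 (@Lb.r r666 (@Lb.d (nat_lit 69) (nat_lit 104) (nat_lit 165) (@Lb.t (@Lb.fm (nat_lit 3) t127)))))))))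
noncomputable def l30139 : Lb := (@Lb.d (nat_lit 144) (nat_lit 130) (nat_lit 64) (@Lb.g g8 (@Lb.g g9 (@Lb.g g10 (@Lb.g g11 (@Lb.r r2339 (@Lb.r r1602 (@Lb.r r392 (@Lb.d (nat_lit 146) (nat_lit 40) (nat_lit 73) (@Lb.fm (nat_lit 9) t1259))))))))))
noncomputable def l30140 : Lb := (@Lb.d (nat_lit 8) (nat_lit 514) (nat_lit 0) (@Lb.g g9 (@Lb.g g10 (@Lb.r r2707 (@Lb.r r2626 (@Lb.d (nat_lit 2) (nat_lit 26) (nat_lit 297) (@Lb.fp (nat_lit 3) t51)))))))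
noncomputable def l30141 : Lb := (@Lb.d (nat_lit 146) (nat_lit 256) (nat_lit 384) (@Lb.g g8 (@Lb.g g10 (@Lb.g g11 (@Lb.r r1602 (@Lb.r r420 (@Lb.d (nat_lit 101) (nat_lit 165) (nat_lit 394) (@Lb.t (@Lb.fm (nat_lit 9) t5458)))))))))
noncomputable def l30142 : Lb := (@Lb.d (nat_lit 657) (nat_lit 342) (nat_lit 290) (@Lb.r r81 (@Lb.r r1442 (@Lb.r r343 (@Lb.g g7 (@Lb.g g6 (@Lb.g g5 (@Lb.g g4 (@Lb.d (nat_lit 1) (nat_lit 1) (nat_lit 1) (@Lb.fm (nat_lit 9) t5460))))))))))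
noncomputable def l30143 : Lb := (@Lb.d (nat_lit 2) (nat_lit 514) (nat_lit 66) (@Lb.g g8 (@Lb.g g9 (@Lb.g g10 (@Lb.g g7 (@Lb.r r386 (@Lb.r r97 (@Lb.d (nat_lit 10) (nat_lit 137) (nat_lit 9) (@Lb.fm (nat_lit 9) t360)))))))))
noncomputable def l30144 : Lb := (@Lb.d (nat_lit 0) (nat_lit 258) (nat_lit 66) (@Lb.g g9 (@Lb.g g10 (@Lb.g g7 (@Lb.r r386 (@Lb.r r97 (@Lb.d (nat_lit 2) (nat_lit 138) (nat_lit 9) (@Lb.t (@Lb.fp (nat_lit 9) t126)))))))))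
noncomputable def l30145 : Lb := (@Lb.d (nat_lit 146) (nat_lit 282) (nat_lit 130) (@Lb.g g8 (@Lb.g g9 (@Lb.g g10 (@Lb.g g11 (@Lb.r r2691 (@Lb.r r1610 (@Lb.r r289 (@Lb.r r1048 (@Lb.d (nat_lit 421) (nat_lit 132) (nat_lit 89) (@Lb.fm (nat_lit 9) t5461)))))))))))
noncomputable def l30146 : Lb := (@Lb.d (nat_lit 6) (nat_lit 70) (nat_lit 513) (@Lb.r r21 (@Lb.r r386 (@Lb.r r343 (@Lb.g g7 (@Lb.g g6 (@Lb.g g5 (@Lb.g g4 (@Lb.d (nat_lit 6) (nat_lit 9) (nat_lit 64) (@Lb.fm (nat_lit 9) t5462))))))))))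
noncomputable def l30147 : Lb := (@Lb.r r322 (@Lb.d (nat_lit 2) (nat_lit 514) (nat_lit 576) (@Lb.g g8 (@Lb.g g9 (@Lb.g g7 (@Lb.r r417 (@Lb.r r98 (@Lb.r r1096 (@Lb.d (nat_lit 0) (nat_lit 152) (nat_lit 20) (@Lb.t (@Lb.fp (nat_lit 9) t5463)))))))))))
noncomputable def l30148 : Lb := (@Lb.d (nat_lit 32) (nat_lit 2) (nat_lit 130) (@Lb.g g9 (@Lb.g g10 (@Lb.g g11 (@Lb.r r2695 (@Lb.r r1320 (@Lb.r r2201 (@Lb.r r2650 (@Lb.d (nat_lit 89) (nat_lit 101) (nat_lit 324) (@Lb.t (@Lb.fm (nat_lit 9) t473)))))))))))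
noncomputable def l30149 : Lb := (@Lb.r r322 (@Lb.d (nat_lit 2) (nat_lit 2) (nat_lit 576) (@Lb.g g8 (@Lb.g g9 (@Lb.g g7 (@Lb.r r417 (@Lb.r r98 (@Lb.r r1096 (@Lb.d (nat_lit 0) (nat_lit 150) (nat_lit 22) (@Lb.t (@Lb.fp (nat_lit 9) t5463)))))))))))
noncomputable def l30150 : Lb := (@Lb.d (nat_lit 130) (nat_lit 0) (nat_lit 656) (@Lb.r r289 (@Lb.r r1126 (@Lb.r r2436 (@Lb.r r579 (@Lb.g g10 (@Lb.t (@Lb.fp (nat_lit 3) t5464))))))))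
noncomputable def l30151 : Lb := (@Lb.d (nat_lit 129) (nat_lit 260) (nat_lit 74) (@Lb.g g8 (@Lb.g g9 (@Lb.g g10 (@Lb.g g11 (@Lb.r r683 (@Lb.r r2724 (@Lb.r r1158 (@Lb.r r97 (@Lb.d (nat_lit 32) (nat_lit 105) (nat_lit 673) (@Lb.fm (nat_lit 9) t3408)))))))))))
noncomputable def l30152 : Lb := (@Lb.d (nat_lit 129) (nat_lit 272) (nat_lit 137) (@Lb.g g8 (@Lb.g g9 (@Lb.g g10 (@Lb.g g11 (@Lb.r r1706 (@Lb.r r1672 (@Lb.r r1563 (@Lb.r r2341 (@Lb.d (nat_lit 337) (nat_lit 153) (nat_lit 354) (@Lb.fp (nat_lit 9) t3423)))))))))))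
noncomputable def l30153 : Lb := (@Lb.d (nat_lit 0) (nat_lit 256) (nat_lit 130) (@Lb.g g10 (@Lb.g g11 (@Lb.r r2435 (@Lb.r r1434 (@Lb.r r101 (@Lb.r r8 (@Lb.d (nat_lit 586) (nat_lit 130) (nat_lit 256) (@Lb.fp (nat_lit 3) t5465)))))))))
noncomputable def l30154 : Lb := (@Lb.d (nat_lit 33) (nat_lit 512) (nat_lit 69) (@Lb.r r154 (@Lb.r r664 (@Lb.r r667 (@Lb.r r353 (@Lb.g g7 (@Lb.g g4 (@Lb.d (nat_lit 2) (nat_lit 0) (nat_lit 64) (@Lb.fm (nat_lit 3) t51)))))))))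
noncomputable def l30155 : Lb := (@Lb.d (nat_lit 0) (nat_lit 2) (nat_lit 9) (@Lb.g g9 (@Lb.g g10 (@Lb.g g7 (@Lb.r r424 (@Lb.r r106 (@Lb.r r25 (@Lb.d (nat_lit 106) (nat_lit 9) (nat_lit 8) (@Lb.t (@Lb.fm (nat_lit 9) t670))))))))))
noncomputable def l30156 : Lb := (@Lb.d (nat_lit 0) (nat_lit 4) (nat_lit 2) (@Lb.g g9 (@Lb.g g10 (@Lb.r r168 (@Lb.r r618 (@Lb.r r25 (@Lb.d (nat_lit 105) (nat_lit 25) (nat_lit 132) (@Lb.fp (nat_lit 3) t5466))))))))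
noncomputable def l30157 : Lb := (@Lb.r r323 (@Lb.d (nat_lit 161) (nat_lit 516) (nat_lit 34) (@Lb.g g8 (@Lb.g g9 (@Lb.g g6 (@Lb.r r407 (@Lb.r r97 (@Lb.r r532 (@Lb.d (nat_lit 134) (nat_lit 41) (nat_lit 128) (@Lb.t (@Lb.fm (nat_lit 9) t546)))))))))))
noncomputable def l30158 : Lb := (@Lb.r r21 (@Lb.g g8 (@Lb.r r1049 (@Lb.r r1028 (@Lb.d (nat_lit 5) (nat_lit 513) (nat_lit 0) (@Lb.t (@Lb.fp (nat_lit 3) t2)))))))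
noncomputable def l30159 : Lb := (@Lb.d (nat_lit 24) (nat_lit 514) (nat_lit 1) (@Lb.r r20 (@Lb.r r105 (@Lb.r r323 (@Lb.g g10 (@Lb.g g5 (@Lb.g g4 (@Lb.d (nat_lit 2) (nat_lit 0) (nat_lit 2) (@Lb.r r387 (@Lb.t (@Lb.fp (nat_lit 9) t51)))))))))))
noncomputable def l30160 : Lb := (@Lb.d (nat_lit 0) (nat_lit 0) (nat_lit 130) (@Lb.g g8 (@Lb.g g10 (@Lb.g g11 (@Lb.r r614 (@Lb.r r404 (@Lb.r r619 (@Lb.r r537 (@Lb.d (nat_lit 282) (nat_lit 132) (nat_lit 614) (@Lb.t (@Lb.fp (nat_lit 9) t494)))))))))))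
noncomputable def l30161 : Lb := (@Lb.d (nat_lit 8) (nat_lit 0) (nat_lit 136) (@Lb.g g8 (@Lb.g g11 (@Lb.r r2085 (@Lb.r r2068 (@Lb.d (nat_lit 513) (nat_lit 66) (nat_lit 2) (@Lb.fp (nat_lit 3) t2)))))))
noncomputable def l30162 : Lb := (@Lb.r r323 (@Lb.d (nat_lit 132) (nat_lit 544) (nat_lit 0) (@Lb.g g8 (@Lb.g g9 (@Lb.g g10 (@Lb.r r599 (@Lb.r r98 (@Lb.r r408 (@Lb.r r101 (@Lb.d (nat_lit 581) (nat_lit 40) (nat_lit 674) (@Lb.t (@Lb.fp (nat_lit 9) t221))))))))))))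
noncomputable def l30163 : Lb := (@Lb.d (nat_lit 1) (nat_lit 514) (nat_lit 73) (@Lb.g g8 (@Lb.g g9 (@Lb.g g10 (@Lb.g g11 (@Lb.r r2666 (@Lb.r r579 (@Lb.r r97 (@Lb.r r24 (@Lb.d (nat_lit 425) (nat_lit 4) (nat_lit 358) (@Lb.fm (nat_lit 9) t61)))))))))))
noncomputable def l30164 : Lb := (@Lb.r r616 (@Lb.r r2665 (@Lb.r r2390 (@Lb.r r1188 (@Lb.d (nat_lit 4) (nat_lit 576) (nat_lit 512) (@Lb.fp (nat_lit 1) t748))))))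
noncomputable def l30165 : Lb := (@Lb.d (nat_lit 0) (nat_lit 512) (nat_lit 137) (@Lb.g g10 (@Lb.g g7 (@Lb.r r386 (@Lb.d (nat_lit 2) (nat_lit 0) (nat_lit 9) (@Lb.fm (nat_lit 3) t2))))))
noncomputable def l30166 : Lb := (@Lb.d (nat_lit 4) (nat_lit 36) (nat_lit 128) (@Lb.g g8 (@Lb.g g9 (@Lb.g g10 (@Lb.g g11 (@Lb.r r1706 (@Lb.r r387 (@Lb.r r2201 (@Lb.d (nat_lit 282) (nat_lit 21) (nat_lit 393) (@Lb.fm (nat_lit 9) t1370))))))))))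
noncomputable def l30167 : Lb := (@Lb.r r82 (@Lb.d (nat_lit 132) (nat_lit 258) (nat_lit 64) (@Lb.g g8 (@Lb.g g9 (@Lb.g g11 (@Lb.r r2467 (@Lb.r r2438 (@Lb.r r401 (@Lb.r r1636 (@Lb.d (nat_lit 680) (nat_lit 106) (nat_lit 681) (@Lb.t (@Lb.fp (nat_lit 9) t5467))))))))))))
noncomputable def l30168 : Lb := (@Lb.d (nat_lit 144) (nat_lit 18) (nat_lit 74) (@Lb.g g8 (@Lb.g g9 (@Lb.g g10 (@Lb.g g11 (@Lb.r r1625 (@Lb.r r2651 (@Lb.r r1170 (@Lb.r r2632 (@Lb.d (nat_lit 346) (nat_lit 5) (nat_lit 129) (@Lb.fm (nat_lit 9) t986)))))))))))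
noncomputable def l30169 : Lb := (@Lb.d (nat_lit 2) (nat_lit 550) (nat_lit 128) (@Lb.g g8 (@Lb.g g9 (@Lb.g g10 (@Lb.g g11 (@Lb.r r1706 (@Lb.r r387 (@Lb.r r2201 (@Lb.d (nat_lit 281) (nat_lit 21) (nat_lit 393) (@Lb.fm (nat_lit 9) t1370))))))))))
noncomputable def l30170 : Lb := (@Lb.r r326 (@Lb.d (nat_lit 385) (nat_lit 514) (nat_lit 128) (@Lb.g g8 (@Lb.g g9 (@Lb.g g11 (@Lb.r r1323 (@Lb.r r2626 (@Lb.r r25 (@Lb.d (nat_lit 8) (nat_lit 97) (nat_lit 640) (@Lb.t (@Lb.fm (nat_lit 9) t1792)))))))))))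
noncomputable def l30171 : Lb := (@Lb.d (nat_lit 128) (nat_lit 256) (nat_lit 384) (@Lb.g g10 (@Lb.g g11 (@Lb.r r1606 (@Lb.r r24 (@Lb.d (nat_lit 513) (nat_lit 66) (nat_lit 256) (@Lb.fp (nat_lit 3) t5250)))))))
noncomputable def l30172 : Lb := (@Lb.r r323 (@Lb.g g10 (@Lb.r r395 (@Lb.r r24 (@Lb.r r2114 (@Lb.d (nat_lit 581) (nat_lit 289) (nat_lit 256) (@Lb.t (@Lb.fm (nat_lit 3) t5250))))))))
noncomputable def l30173 : Lb := (@Lb.d (nat_lit 512) (nat_lit 134) (nat_lit 104) (@Lb.r r24 (@Lb.r r1177 (@Lb.r r682 (@Lb.g g11 (@Lb.g g5 (@Lb.d (nat_lit 0) (nat_lit 32) (nat_lit 324) (@Lb.r r578 (@Lb.fp (nat_lit 3) t1884)))))))))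
noncomputable def l30174 : Lb := (@Lb.d (nat_lit 130) (nat_lit 8) (nat_lit 2) (@Lb.g g8 (@Lb.g g10 (@Lb.r r263 (@Lb.r r2712 (@Lb.r r101 (@Lb.r r154 (@Lb.d (nat_lit 5) (nat_lit 154) (nat_lit 289) (@Lb.fp (nat_lit 3) t127)))))))))
noncomputable def l30175 : Lb := (@Lb.d (nat_lit 354) (nat_lit 134) (nat_lit 518) (@Lb.r r24 (@Lb.r r1177 (@Lb.r r618 (@Lb.g g11 (@Lb.g g6 (@Lb.g g5 (@Lb.g g4 (@Lb.d (nat_lit 0) (nat_lit 32) (nat_lit 390) (@Lb.fp (nat_lit 9) t1792))))))))))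
noncomputable def l30176 : Lb := (@Lb.r r323 (@Lb.d (nat_lit 1) (nat_lit 2) (nat_lit 2) (@Lb.g g8 (@Lb.g g9 (@Lb.g g10 (@Lb.r r401 (@Lb.r r299 (@Lb.r r392 (@Lb.r r74 (@Lb.d (nat_lit 38) (nat_lit 8) (nat_lit 152) (@Lb.t (@Lb.fp (nat_lit 9) t221))))))))))))
noncomputable def l30177 : Lb := (@Lb.d (nat_lit 1) (nat_lit 258) (nat_lit 72) (@Lb.g g8 (@Lb.g g9 (@Lb.g g11 (@Lb.r r1410 (@Lb.r r579 (@Lb.r r1129 (@Lb.r r1124 (@Lb.d (nat_lit 276) (nat_lit 69) (nat_lit 18) (@Lb.t (@Lb.fp (nat_lit 9) t39)))))))))))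
noncomputable def l30178 : Lb := (@Lb.r r21 (@Lb.d (nat_lit 1) (nat_lit 0) (nat_lit 73) (@Lb.g g8 (@Lb.g g10 (@Lb.g g11 (@Lb.r r602 (@Lb.r r579 (@Lb.r r1112 (@Lb.r r37 (@Lb.d (nat_lit 426) (nat_lit 68) (nat_lit 342) (@Lb.t (@Lb.fp (nat_lit 9) t61))))))))))))
noncomputable def l30179 : Lb := (@Lb.r r2331 (@Lb.r r24 (@Lb.d (nat_lit 73) (nat_lit 578) (nat_lit 512) (@Lb.fm (nat_lit 1) t1165))))
noncomputable def l30180 : Lb := (@Lb.d (nat_lit 104) (nat_lit 37) (nat_lit 10) (@Lb.g g8 (@Lb.g g9 (@Lb.g g10 (@Lb.g g11 (@Lb.r r1435 (@Lb.r r2201 (@Lb.r r1618 (@Lb.r r1348 (@Lb.d (nat_lit 534) (nat_lit 152) (nat_lit 36) (@Lb.fp (nat_lit 9) t5)))))))))))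
noncomputable def l30181 : Lb := (@Lb.r r283 (@Lb.d (nat_lit 8) (nat_lit 513) (nat_lit 2) (@Lb.g g8 (@Lb.g g9 (@Lb.g g10 (@Lb.r r1700 (@Lb.r r1623 (@Lb.r r386 (@Lb.r r2641 (@Lb.d (nat_lit 656) (nat_lit 166) (nat_lit 80) (@Lb.t (@Lb.fm (nat_lit 9) t31))))))))))))
noncomputable def l30182 : Lb := (@Lb.d (nat_lit 1) (nat_lit 258) (nat_lit 130) (@Lb.g g8 (@Lb.g g9 (@Lb.g g10 (@Lb.g g11 (@Lb.r r427 (@Lb.r r145 (@Lb.r r356 (@Lb.r r154 (@Lb.r r132 (@Lb.d (nat_lit 9) (nat_lit 2) (nat_lit 154) (@Lb.fm (nat_lit 9) t221))))))))))))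
noncomputable def l30183 : Lb := (@Lb.d (nat_lit 33) (nat_lit 514) (nat_lit 1) (@Lb.g g8 (@Lb.g g9 (@Lb.g g10 (@Lb.g g11 (@Lb.r r2595 (@Lb.r r164 (@Lb.r r533 (@Lb.r r2084 (@Lb.d (nat_lit 129) (nat_lit 38) (nat_lit 328) (@Lb.fm (nat_lit 9) t2644)))))))))))
noncomputable def l30184 : Lb := (@Lb.d (nat_lit 4) (nat_lit 10) (nat_lit 1) (@Lb.g g8 (@Lb.g g9 (@Lb.g g10 (@Lb.g g11 (@Lb.r r2729 (@Lb.r r1642 (@Lb.r r1643 (@Lb.r r1636 (@Lb.d (nat_lit 522) (nat_lit 154) (nat_lit 161) (@Lb.fp (nat_lit 9) t971)))))))))))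
noncomputable def l30185 : Lb := (@Lb.d (nat_lit 8) (nat_lit 522) (nat_lit 129) (@Lb.g g9 (@Lb.g g10 (@Lb.g g11 (@Lb.r r2691 (@Lb.r r578 (@Lb.r r2580 (@Lb.r r1385 (@Lb.d (nat_lit 642) (nat_lit 169) (nat_lit 320) (@Lb.t (@Lb.fm (nat_lit 9) t1083)))))))))))
noncomputable def l30186 : Lb := (@Lb.d (nat_lit 8) (nat_lit 0) (nat_lit 130) (@Lb.g g9 (@Lb.g g10 (@Lb.g g11 (@Lb.r r2691 (@Lb.r r578 (@Lb.r r2580 (@Lb.r r1385 (@Lb.d (nat_lit 642) (nat_lit 169) (nat_lit 389) (@Lb.t (@Lb.fm (nat_lit 9) t1081)))))))))))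
noncomputable def l30187 : Lb := (@Lb.d (nat_lit 597) (nat_lit 6) (nat_lit 664) (@Lb.r r24 (@Lb.r r97 (@Lb.r r579 (@Lb.r r1366 (@Lb.g g7 (@Lb.g g6 (@Lb.g g5 (@Lb.d (nat_lit 0) (nat_lit 1) (nat_lit 134) (@Lb.t (@Lb.fm (nat_lit 9) t809)))))))))))
noncomputable def l30188 : Lb := (@Lb.d (nat_lit 9) (nat_lit 418) (nat_lit 512) (@Lb.r r24 (@Lb.g g7 (@Lb.d (nat_lit 0) (nat_lit 16) (nat_lit 320) (@Lb.t (@Lb.fp (nat_lit 3) t591))))))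
noncomputable def l30189 : Lb := (@Lb.r r326 (@Lb.d (nat_lit 386) (nat_lit 2) (nat_lit 128) (@Lb.g g8 (@Lb.g g9 (@Lb.g g11 (@Lb.r r1323 (@Lb.r r2626 (@Lb.r r25 (@Lb.d (nat_lit 2) (nat_lit 105) (nat_lit 642) (@Lb.t (@Lb.fm (nat_lit 9) t394)))))))))))
noncomputable def l30190 : Lb := (@Lb.d (nat_lit 642) (nat_lit 320) (nat_lit 1) (@Lb.r r293 (@Lb.r r600 (@Lb.r r603 (@Lb.g g6 (@Lb.g g5 (@Lb.d (nat_lit 16) (nat_lit 1) (nat_lit 37) (@Lb.r r387 (@Lb.fp (nat_lit 3) t5468)))))))))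
noncomputable def l30191 : Lb := (@Lb.d (nat_lit 10) (nat_lit 256) (nat_lit 64) (@Lb.g g8 (@Lb.g g10 (@Lb.g g11 (@Lb.r r2581 (@Lb.r r279 (@Lb.r r676 (@Lb.r r1158 (@Lb.d (nat_lit 610) (nat_lit 90) (nat_lit 168) (@Lb.t (@Lb.fp (nat_lit 9) t3263)))))))))))
noncomputable def l30192 : Lb := (@Lb.d (nat_lit 0) (nat_lit 6) (nat_lit 74) (@Lb.g g9 (@Lb.g g10 (@Lb.g g11 (@Lb.r r1707 (@Lb.r r1610 (@Lb.r r40 (@Lb.r r153 (@Lb.d (nat_lit 596) (nat_lit 85) (nat_lit 646) (@Lb.t (@Lb.fm (nat_lit 9) t629)))))))))))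
noncomputable def l30193 : Lb := (@Lb.d (nat_lit 10) (nat_lit 256) (nat_lit 64) (@Lb.g g8 (@Lb.g g10 (@Lb.g g11 (@Lb.r r2581 (@Lb.r r279 (@Lb.r r676 (@Lb.r r1158 (@Lb.d (nat_lit 4) (nat_lit 88) (nat_lit 273) (@Lb.t (@Lb.fp (nat_lit 9) t1951)))))))))))
noncomputable def l30194 : Lb := (@Lb.d (nat_lit 33) (nat_lit 521) (nat_lit 0) (@Lb.g g8 (@Lb.g g9 (@Lb.r r2379 (@Lb.r r582 (@Lb.r r2452 (@Lb.r r25 (@Lb.d (nat_lit 522) (nat_lit 153) (nat_lit 682) (@Lb.fm (nat_lit 3) t386)))))))))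
noncomputable def l30195 : Lb := (@Lb.d (nat_lit 2) (nat_lit 514) (nat_lit 66) (@Lb.g g8 (@Lb.g g9 (@Lb.g g10 (@Lb.g g7 (@Lb.r r386 (@Lb.r r2153 (@Lb.r r2120 (@Lb.d (nat_lit 617) (nat_lit 130) (nat_lit 521) (@Lb.fp (nat_lit 9) t166))))))))))
noncomputable def l30196 : Lb := (@Lb.r r70 (@Lb.d (nat_lit 129) (nat_lit 1) (nat_lit 128) (@Lb.g g8 (@Lb.g g9 (@Lb.g g11 (@Lb.r r2692 (@Lb.r r2198 (@Lb.r r1633 (@Lb.r r611 (@Lb.d (nat_lit 5) (nat_lit 165) (nat_lit 162) (@Lb.t (@Lb.fp (nat_lit 9) t329))))))))))))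
noncomputable def l30197 : Lb := (@Lb.g g4 (@Lb.g g5 (@Lb.r r2311 (@Lb.d (nat_lit 261) (nat_lit 513) (nat_lit 64) (@Lb.fm (nat_lit 3) t1165)))))
noncomputable def l30198 : Lb := (@Lb.r r322 (@Lb.d (nat_lit 32) (nat_lit 258) (nat_lit 576) (@Lb.g g8 (@Lb.g g9 (@Lb.g g7 (@Lb.r r361 (@Lb.r r150 (@Lb.r r84 (@Lb.d (nat_lit 22) (nat_lit 150) (nat_lit 521) (@Lb.t (@Lb.fp (nat_lit 9) t259)))))))))))
noncomputable def l30199 : Lb := (@Lb.d (nat_lit 4) (nat_lit 256) (nat_lit 4) (@Lb.g g8 (@Lb.g g10 (@Lb.g g11 (@Lb.r r642 (@Lb.r r387 (@Lb.r r2073 (@Lb.d (nat_lit 550) (nat_lit 70) (nat_lit 34) (@Lb.t (@Lb.fp (nat_lit 9) t382))))))))))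
noncomputable def l30200 : Lb := (@Lb.d (nat_lit 0) (nat_lit 144) (nat_lit 10) (@Lb.r r579 (@Lb.r r338 (@Lb.g g7 (@Lb.g g6 (@Lb.g g5 (@Lb.g g8 (@Lb.d (nat_lit 2) (nat_lit 129) (nat_lit 5) (@Lb.fp (nat_lit 9) t126)))))))))
noncomputable def l30201 : Lb := (@Lb.r r21 (@Lb.r r323 (@Lb.d (nat_lit 0) (nat_lit 512) (nat_lit 1) (@Lb.g g8 (@Lb.g g6 (@Lb.r r1323 (@Lb.r r2152 (@Lb.r r25 (@Lb.d (nat_lit 548) (nat_lit 1) (nat_lit 98) (@Lb.fm (nat_lit 3) t314))))))))))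
noncomputable def l30202 : Lb := (@Lb.d (nat_lit 410) (nat_lit 258) (nat_lit 101) (@Lb.r r2453 (@Lb.r r612 (@Lb.r r2659 (@Lb.g g7 (@Lb.g g10 (@Lb.g g5 (@Lb.d (nat_lit 32) (nat_lit 36) (nat_lit 16) (@Lb.t (@Lb.fp (nat_lit 9) t2102))))))))))
noncomputable def l30203 : Lb := (@Lb.d (nat_lit 0) (nat_lit 544) (nat_lit 4) (@Lb.g g8 (@Lb.g g10 (@Lb.g g11 (@Lb.r r618 (@Lb.r r149 (@Lb.r r340 (@Lb.r r2587 (@Lb.d (nat_lit 320) (nat_lit 137) (nat_lit 258) (@Lb.t (@Lb.fp (nat_lit 9) t71)))))))))))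
noncomputable def l30204 : Lb := (@Lb.d (nat_lit 6) (nat_lit 0) (nat_lit 130) (@Lb.g g4 (@Lb.g g10 (@Lb.g g11 (@Lb.r r419 (@Lb.r r386 (@Lb.d (nat_lit 292) (nat_lit 42) (nat_lit 168) (@Lb.t (@Lb.fm (nat_lit 9) t4055)))))))))
noncomputable def l30205 : Lb := (@Lb.d (nat_lit 0) (nat_lit 512) (nat_lit 64) (@Lb.g g8 (@Lb.g g10 (@Lb.g g7 (@Lb.r r402 (@Lb.r r2145 (@Lb.r r2120 (@Lb.d (nat_lit 617) (nat_lit 164) (nat_lit 256) (@Lb.t (@Lb.fm (nat_lit 9) t5077))))))))))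
noncomputable def l30206 : Lb := (@Lb.d (nat_lit 0) (nat_lit 2) (nat_lit 73) (@Lb.g g9 (@Lb.g g10 (@Lb.g g11 (@Lb.r r610 (@Lb.r r579 (@Lb.r r97 (@Lb.r r36 (@Lb.d (nat_lit 10) (nat_lit 96) (nat_lit 86) (@Lb.t (@Lb.fm (nat_lit 9) t309)))))))))))
noncomputable def l30207 : Lb := (@Lb.d (nat_lit 0) (nat_lit 292) (nat_lit 132) (@Lb.g g9 (@Lb.g g10 (@Lb.g g11 (@Lb.r r2331 (@Lb.r r1634 (@Lb.r r1112 (@Lb.r r2085 (@Lb.d (nat_lit 665) (nat_lit 165) (nat_lit 682) (@Lb.t (@Lb.fm (nat_lit 9) t4337)))))))))))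
noncomputable def l30208 : Lb := (@Lb.d (nat_lit 1) (nat_lit 292) (nat_lit 132) (@Lb.g g8 (@Lb.g g9 (@Lb.g g10 (@Lb.g g11 (@Lb.r r2327 (@Lb.r r1634 (@Lb.r r2212 (@Lb.r r2085 (@Lb.d (nat_lit 665) (nat_lit 160) (nat_lit 681) (@Lb.fm (nat_lit 9) t4337)))))))))))
noncomputable def l30209 : Lb := (@Lb.d (nat_lit 6) (nat_lit 520) (nat_lit 0) (@Lb.g g8 (@Lb.g g9 (@Lb.r r1387 (@Lb.r r594 (@Lb.r r1433 (@Lb.d (nat_lit 520) (nat_lit 90) (nat_lit 394) (@Lb.fm (nat_lit 3) t221))))))))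
noncomputable def l30210 : Lb := (@Lb.r r323 (@Lb.d (nat_lit 102) (nat_lit 0) (nat_lit 2) (@Lb.g g8 (@Lb.g g9 (@Lb.g g10 (@Lb.r r2583 (@Lb.r r2325 (@Lb.r r1704 (@Lb.r r586 (@Lb.d (nat_lit 356) (nat_lit 146) (nat_lit 356) (@Lb.t (@Lb.fm (nat_lit 9) t1499))))))))))))
noncomputable def l30211 : Lb := (@Lb.d (nat_lit 33) (nat_lit 256) (nat_lit 0) (@Lb.g g8 (@Lb.r r2395 (@Lb.r r2709 (@Lb.r r150 (@Lb.r r1124 (@Lb.d (nat_lit 282) (nat_lit 10) (nat_lit 100) (@Lb.t (@Lb.fm (nat_lit 3) t51)))))))))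
noncomputable def l30212 : Lb := (@Lb.d (nat_lit 2) (nat_lit 514) (nat_lit 66) (@Lb.g g8 (@Lb.g g9 (@Lb.g g10 (@Lb.g g7 (@Lb.r r386 (@Lb.r r97 (@Lb.r r24 (@Lb.d (nat_lit 330) (nat_lit 4) (nat_lit 520) (@Lb.fp (nat_lit 9) t166))))))))))
noncomputable def l30213 : Lb := (@Lb.d (nat_lit 6) (nat_lit 37) (nat_lit 128) (@Lb.g g8 (@Lb.g g9 (@Lb.g g10 (@Lb.g g11 (@Lb.r r387 (@Lb.r r145 (@Lb.r r2454 (@Lb.r r36 (@Lb.d (nat_lit 148) (nat_lit 96) (nat_lit 425) (@Lb.fm (nat_lit 9) t5200)))))))))))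
noncomputable def l30214 : Lb := (@Lb.d (nat_lit 1) (nat_lit 0) (nat_lit 66) (@Lb.g g8 (@Lb.g g9 (@Lb.g g10 (@Lb.g g7 (@Lb.r r386 (@Lb.r r105 (@Lb.r r36 (@Lb.d (nat_lit 37) (nat_lit 81) (nat_lit 329) (@Lb.fm (nat_lit 9) t1926))))))))))
noncomputable def l30215 : Lb := (@Lb.d (nat_lit 137) (nat_lit 288) (nat_lit 64) (@Lb.g g8 (@Lb.g g11 (@Lb.r r273 (@Lb.r r1451 (@Lb.r r2374 (@Lb.r r2692 (@Lb.d (nat_lit 617) (nat_lit 25) (nat_lit 86) (@Lb.fm (nat_lit 3) t5469)))))))))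
noncomputable def l30216 : Lb := (@Lb.d (nat_lit 2) (nat_lit 514) (nat_lit 4) (@Lb.g g8 (@Lb.g g9 (@Lb.g g10 (@Lb.g g11 (@Lb.r r1367 (@Lb.r r1366 (@Lb.r r97 (@Lb.r r24 (@Lb.d (nat_lit 153) (nat_lit 4) (nat_lit 360) (@Lb.fp (nat_lit 9) t457)))))))))))
noncomputable def l30217 : Lb := (@Lb.d (nat_lit 129) (nat_lit 4) (nat_lit 64) (@Lb.g g8 (@Lb.g g9 (@Lb.g g10 (@Lb.g g11 (@Lb.r r648 (@Lb.r r2698 (@Lb.r r357 (@Lb.r r667 (@Lb.r r516 (@Lb.d (nat_lit 293) (nat_lit 4) (nat_lit 144) (@Lb.fp (nat_lit 9) t5470))))))))))))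
noncomputable def l30218 : Lb := (@Lb.d (nat_lit 32) (nat_lit 10) (nat_lit 128) (@Lb.g g8 (@Lb.g g9 (@Lb.g g11 (@Lb.r r394 (@Lb.r r331 (@Lb.r r1368 (@Lb.r r2197 (@Lb.d (nat_lit 612) (nat_lit 134) (nat_lit 385) (@Lb.t (@Lb.fm (nat_lit 9) t2157)))))))))))
noncomputable def l30219 : Lb := (@Lb.d (nat_lit 5) (nat_lit 262) (nat_lit 70) (@Lb.r r24 (@Lb.r r97 (@Lb.r r386 (@Lb.g g11 (@Lb.g g6 (@Lb.g g5 (@Lb.d (nat_lit 0) (nat_lit 1) (nat_lit 6) (@Lb.t (@Lb.fp (nat_lit 9) t51))))))))))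
noncomputable def l30220 : Lb := (@Lb.r r516 (@Lb.r r2439 (@Lb.r r402 (@Lb.r r2137 (@Lb.r r20 (@Lb.fm (nat_lit 1) t468))))))
noncomputable def l30221 : Lb := (@Lb.r r275 (@Lb.d (nat_lit 2) (nat_lit 512) (nat_lit 2) (@Lb.g g8 (@Lb.g g9 (@Lb.g g10 (@Lb.r r2666 (@Lb.r r1603 (@Lb.r r1313 (@Lb.d (nat_lit 520) (nat_lit 66) (nat_lit 0) (@Lb.t (@Lb.fm (nat_lit 9) t495)))))))))))
noncomputable def l30222 : Lb := (@Lb.d (nat_lit 0) (nat_lit 258) (nat_lit 0) (@Lb.g g8 (@Lb.g g9 (@Lb.r r25 (@Lb.d (nat_lit 9) (nat_lit 0) (nat_lit 64) (@Lb.fm (nat_lit 3) t2))))))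
noncomputable def l30223 : Lb := (@Lb.g g8 (@Lb.d (nat_lit 10) (nat_lit 258) (nat_lit 64) (@Lb.t (@Lb.fp (nat_lit 3) t2))))
noncomputable def l30224 : Lb := (@Lb.r r322 (@Lb.d (nat_lit 0) (nat_lit 514) (nat_lit 576) (@Lb.g g8 (@Lb.g g9 (@Lb.g g7 (@Lb.r r353 (@Lb.r r146 (@Lb.d (nat_lit 2) (nat_lit 0) (nat_lit 322) (@Lb.t (@Lb.fp (nat_lit 9) t311))))))))))
noncomputable def l30225 : Lb := (@Lb.d (nat_lit 10) (nat_lit 264) (nat_lit 0) (@Lb.g g8 (@Lb.g g9 (@Lb.r r2411 (@Lb.r r598 (@Lb.r r2457 (@Lb.d (nat_lit 409) (nat_lit 154) (nat_lit 394) (@Lb.fm (nat_lit 3) t386))))))))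
noncomputable def l30226 : Lb := (@Lb.d (nat_lit 537) (nat_lit 1) (nat_lit 138) (@Lb.r r169 (@Lb.r r2726 (@Lb.r r1435 (@Lb.r r2308 (@Lb.g g7 (@Lb.g g5 (@Lb.d (nat_lit 4) (nat_lit 1) (nat_lit 128) (@Lb.fm (nat_lit 3) t4875)))))))))
noncomputable def l30227 : Lb := (@Lb.d (nat_lit 170) (nat_lit 72) (nat_lit 642) (@Lb.r r85 (@Lb.r r40 (@Lb.r r418 (@Lb.g g11 (@Lb.g g6 (@Lb.g g5 (@Lb.g g4 (@Lb.d (nat_lit 1) (nat_lit 2) (nat_lit 0) (@Lb.fm (nat_lit 9) t5471))))))))))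
noncomputable def l30228 : Lb := (@Lb.r r323 (@Lb.d (nat_lit 2) (nat_lit 288) (nat_lit 1) (@Lb.g g8 (@Lb.g g9 (@Lb.g g10 (@Lb.r r1299 (@Lb.r r1354 (@Lb.r r2664 (@Lb.r r2585 (@Lb.d (nat_lit 325) (nat_lit 130) (nat_lit 660) (@Lb.t (@Lb.fp (nat_lit 9) t3883))))))))))))
noncomputable def l30229 : Lb := (@Lb.r r532 (@Lb.d (nat_lit 4) (nat_lit 420) (nat_lit 64) (@Lb.g g9 (@Lb.g g10 (@Lb.g g11 (@Lb.r r1704 (@Lb.r r267 (@Lb.r r2658 (@Lb.d (nat_lit 674) (nat_lit 89) (nat_lit 418) (@Lb.t (@Lb.fp (nat_lit 9) t4874)))))))))))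
noncomputable def l30230 : Lb := (@Lb.d (nat_lit 8) (nat_lit 514) (nat_lit 130) (@Lb.g g8 (@Lb.g g9 (@Lb.g g10 (@Lb.g g11 (@Lb.r r2691 (@Lb.r r164 (@Lb.r r342 (@Lb.r r1425 (@Lb.r r1060 (@Lb.d (nat_lit 641) (nat_lit 80) (nat_lit 585) (@Lb.fm (nat_lit 9) t5472))))))))))))
noncomputable def l30231 : Lb := (@Lb.d (nat_lit 144) (nat_lit 65) (nat_lit 512) (@Lb.r r101 (@Lb.r r24 (@Lb.r r402 (@Lb.g g9 (@Lb.t (@Lb.fm (nat_lit 3) t5473)))))))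
noncomputable def l30232 : Lb := (@Lb.d (nat_lit 601) (nat_lit 162) (nat_lit 86) (@Lb.r r421 (@Lb.r r2470 (@Lb.r r1096 (@Lb.r r1367 (@Lb.g g7 (@Lb.g g6 (@Lb.g g5 (@Lb.d (nat_lit 0) (nat_lit 4) (nat_lit 65) (@Lb.t (@Lb.fm (nat_lit 9) t5474)))))))))))
noncomputable def l30233 : Lb := (@Lb.r r82 (@Lb.d (nat_lit 0) (nat_lit 514) (nat_lit 128) (@Lb.g g9 (@Lb.g g11 (@Lb.r r2634 (@Lb.r r579 (@Lb.r r420 (@Lb.r r1061 (@Lb.d (nat_lit 661) (nat_lit 24) (nat_lit 600) (@Lb.fm (nat_lit 3) t5475))))))))))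
noncomputable def l30234 : Lb := (@Lb.d (nat_lit 320) (nat_lit 102) (nat_lit 102) (@Lb.r r408 (@Lb.r r330 (@Lb.r r343 (@Lb.g g5 (@Lb.g g4 (@Lb.d (nat_lit 17) (nat_lit 168) (nat_lit 0) (@Lb.r r291 (@Lb.r r98 (@Lb.fp (nat_lit 3) t5476))))))))))
noncomputable def l30235 : Lb := (@Lb.d (nat_lit 1) (nat_lit 512) (nat_lit 73) (@Lb.g g8 (@Lb.g g9 (@Lb.g g10 (@Lb.g g11 (@Lb.r r2730 (@Lb.r r644 (@Lb.r r535 (@Lb.r r1321 (@Lb.r r36 (@Lb.d (nat_lit 418) (nat_lit 170) (nat_lit 81) (@Lb.fm (nat_lit 9) t5477))))))))))))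
noncomputable def l30236 : Lb := (@Lb.d (nat_lit 405) (nat_lit 144) (nat_lit 33) (@Lb.r r1445 (@Lb.r r2715 (@Lb.r r580 (@Lb.r r330 (@Lb.g g7 (@Lb.g g6 (@Lb.g g5 (@Lb.d (nat_lit 4) (nat_lit 10) (nat_lit 64) (@Lb.t (@Lb.fp (nat_lit 9) t5478)))))))))))
noncomputable def l30237 : Lb := (@Lb.d (nat_lit 553) (nat_lit 266) (nat_lit 1) (@Lb.r r1432 (@Lb.r r1106 (@Lb.r r343 (@Lb.g g6 (@Lb.g g5 (@Lb.g g4 (@Lb.d (nat_lit 10) (nat_lit 32) (nat_lit 1) (@Lb.r r387 (@Lb.t (@Lb.fm (nat_lit 9) t5479)))))))))))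
noncomputable def l30238 : Lb := (@Lb.d (nat_lit 2) (nat_lit 545) (nat_lit 130) (@Lb.g g8 (@Lb.g g9 (@Lb.g g10 (@Lb.g g11 (@Lb.r r2315 (@Lb.r r610 (@Lb.r r1636 (@Lb.r r613 (@Lb.d (nat_lit 149) (nat_lit 128) (nat_lit 38) (@Lb.fm (nat_lit 9) t5480)))))))))))
noncomputable def l30239 : Lb := (@Lb.d (nat_lit 533) (nat_lit 393) (nat_lit 2) (@Lb.r r85 (@Lb.r r98 (@Lb.r r2371 (@Lb.g g6 (@Lb.g g5 (@Lb.d (nat_lit 0) (nat_lit 2) (nat_lit 1) (@Lb.fm (nat_lit 3) t58))))))))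
noncomputable def l30240 : Lb := (@Lb.r r82 (@Lb.d (nat_lit 2) (nat_lit 514) (nat_lit 128) (@Lb.g g8 (@Lb.g g9 (@Lb.g g11 (@Lb.r r299 (@Lb.r r296 (@Lb.r r89 (@Lb.r r98 (@Lb.d (nat_lit 545) (nat_lit 10) (nat_lit 32) (@Lb.t (@Lb.fp (nat_lit 9) t1147))))))))))))
noncomputable def l30241 : Lb := (@Lb.g g7 (@Lb.r r134 (@Lb.r r328 (@Lb.r r407 (@Lb.r r609 (@Lb.d (nat_lit 0) (nat_lit 0) (nat_lit 16) (@Lb.t (@Lb.fp (nat_lit 3) t334))))))))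
noncomputable def l30242 : Lb := (@Lb.d (nat_lit 390) (nat_lit 80) (nat_lit 545) (@Lb.r r2584 (@Lb.r r2178 (@Lb.r r2587 (@Lb.g g7 (@Lb.g g9 (@Lb.g g4 (@Lb.d (nat_lit 1) (nat_lit 70) (nat_lit 64) (@Lb.t (@Lb.fp (nat_lit 9) t3425))))))))))
noncomputable def l30243 : Lb := (@Lb.d (nat_lit 68) (nat_lit 321) (nat_lit 581) (@Lb.r r597 (@Lb.r r1642 (@Lb.r r1352 (@Lb.r r2695 (@Lb.g g7 (@Lb.g g6 (@Lb.g g5 (@Lb.d (nat_lit 20) (nat_lit 1) (nat_lit 134) (@Lb.t (@Lb.fp (nat_lit 9) t221)))))))))))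
noncomputable def l30244 : Lb := (@Lb.d (nat_lit 16) (nat_lit 9) (nat_lit 65) (@Lb.g g9 (@Lb.g g6 (@Lb.g g11 (@Lb.r r2667 (@Lb.r r2657 (@Lb.r r24 (@Lb.d (nat_lit 642) (nat_lit 42) (nat_lit 296) (@Lb.t (@Lb.fm (nat_lit 9) t4038))))))))))
noncomputable def l30245 : Lb := (@Lb.d (nat_lit 390) (nat_lit 336) (nat_lit 545) (@Lb.r r2584 (@Lb.r r2178 (@Lb.r r2587 (@Lb.g g7 (@Lb.g g9 (@Lb.g g4 (@Lb.d (nat_lit 0) (nat_lit 70) (nat_lit 64) (@Lb.t (@Lb.fp (nat_lit 9) t3425))))))))))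
noncomputable def l30246 : Lb := (@Lb.d (nat_lit 144) (nat_lit 9) (nat_lit 65) (@Lb.g g8 (@Lb.g g9 (@Lb.g g6 (@Lb.g g11 (@Lb.r r2659 (@Lb.r r2153 (@Lb.r r1316 (@Lb.d (nat_lit 680) (nat_lit 162) (nat_lit 152) (@Lb.fm (nat_lit 9) t5481))))))))))
noncomputable def l30247 : Lb := (@Lb.d (nat_lit 644) (nat_lit 262) (nat_lit 582) (@Lb.r r1317 (@Lb.r r2648 (@Lb.r r1446 (@Lb.r r339 (@Lb.g g7 (@Lb.g g6 (@Lb.g g5 (@Lb.d (nat_lit 4) (nat_lit 1) (nat_lit 65) (@Lb.t (@Lb.fm (nat_lit 9) t898)))))))))))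
noncomputable def l30248 : Lb := (@Lb.d (nat_lit 646) (nat_lit 518) (nat_lit 582) (@Lb.r r1317 (@Lb.r r2648 (@Lb.r r1446 (@Lb.r r339 (@Lb.g g7 (@Lb.g g6 (@Lb.g g5 (@Lb.d (nat_lit 4) (nat_lit 1) (nat_lit 65) (@Lb.t (@Lb.fm (nat_lit 9) t898)))))))))))
noncomputable def l30249 : Lb := (@Lb.r r82 (@Lb.d (nat_lit 4) (nat_lit 354) (nat_lit 64) (@Lb.g g9 (@Lb.g g11 (@Lb.r r291 (@Lb.r r146 (@Lb.r r36 (@Lb.d (nat_lit 6) (nat_lit 149) (nat_lit 390) (@Lb.fp (nat_lit 3) t5482)))))))))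
noncomputable def l30250 : Lb := (@Lb.d (nat_lit 2) (nat_lit 0) (nat_lit 0) (@Lb.g g8 (@Lb.r r1098 (@Lb.r r1049 (@Lb.d (nat_lit 329) (nat_lit 64) (nat_lit 512) (@Lb.t (@Lb.fp (nat_lit 3) t282)))))))
noncomputable def l30251 : Lb := (@Lb.r r1045 (@Lb.r r323 (@Lb.d (nat_lit 261) (nat_lit 264) (nat_lit 6) (@Lb.g g4 (@Lb.g g10 (@Lb.r r387 (@Lb.d (nat_lit 2) (nat_lit 38) (nat_lit 384) (@Lb.fp (nat_lit 3) t51))))))))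
noncomputable def l30252 : Lb := (@Lb.d (nat_lit 2) (nat_lit 0) (nat_lit 0) (@Lb.g g8 (@Lb.g g7 (@Lb.r r1098 (@Lb.r r1049 (@Lb.d (nat_lit 537) (nat_lit 64) (nat_lit 101) (@Lb.fp (nat_lit 3) t282)))))))
noncomputable def l30253 : Lb := (@Lb.r r82 (@Lb.d (nat_lit 4) (nat_lit 610) (nat_lit 64) (@Lb.g g9 (@Lb.g g11 (@Lb.r r291 (@Lb.r r146 (@Lb.r r36 (@Lb.d (nat_lit 6) (nat_lit 144) (nat_lit 389) (@Lb.fp (nat_lit 3) t723)))))))))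
noncomputable def l30254 : Lb := (@Lb.d (nat_lit 128) (nat_lit 137) (nat_lit 0) (@Lb.g g8 (@Lb.g g5 (@Lb.r r2695 (@Lb.r r2178 (@Lb.r r392 (@Lb.d (nat_lit 641) (nat_lit 65) (nat_lit 153) (@Lb.fm (nat_lit 3) t296))))))))
noncomputable def l30255 : Lb := (@Lb.r r2635 (@Lb.r r1094 (@Lb.r r1045 (@Lb.r r8 (@Lb.d (nat_lit 130) (nat_lit 512) (nat_lit 416) (@Lb.fp (nat_lit 1) t284))))))
noncomputable def l30256 : Lb := (@Lb.d (nat_lit 128) (nat_lit 649) (nat_lit 0) (@Lb.g g8 (@Lb.g g5 (@Lb.r r2695 (@Lb.r r2178 (@Lb.r r392 (@Lb.d (nat_lit 641) (nat_lit 65) (nat_lit 18) (@Lb.fm (nat_lit 3) t296))))))))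
noncomputable def l30257 : Lb := (@Lb.d (nat_lit 32) (nat_lit 0) (nat_lit 64) (@Lb.g g8 (@Lb.g g7 (@Lb.r r614 (@Lb.r r1637 (@Lb.r r1428 (@Lb.d (nat_lit 612) (nat_lit 90) (nat_lit 66) (@Lb.fm (nat_lit 3) t572))))))))
noncomputable def l30258 : Lb := (@Lb.d (nat_lit 0) (nat_lit 0) (nat_lit 128) (@Lb.g g11 (@Lb.r r337 (@Lb.r r679 (@Lb.r r340 (@Lb.r r170 (@Lb.r r153 (@Lb.d (nat_lit 2) (nat_lit 80) (nat_lit 352) (@Lb.t (@Lb.fp (nat_lit 3) t210))))))))))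
noncomputable def l30259 : Lb := (@Lb.d (nat_lit 38) (nat_lit 353) (nat_lit 129) (@Lb.g g8 (@Lb.g g5 (@Lb.g g10 (@Lb.g g11 (@Lb.r r2712 (@Lb.r r2315 (@Lb.r r2194 (@Lb.d (nat_lit 394) (nat_lit 86) (nat_lit 72) (@Lb.fm (nat_lit 9) t841))))))))))
noncomputable def l30260 : Lb := (@Lb.d (nat_lit 274) (nat_lit 602) (nat_lit 72) (@Lb.r r1361 (@Lb.r r1094 (@Lb.r r2339 (@Lb.g g6 (@Lb.g g5 (@Lb.g g4 (@Lb.d (nat_lit 2) (nat_lit 16) (nat_lit 1) (@Lb.t (@Lb.fp (nat_lit 9) t1075))))))))))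
noncomputable def l30261 : Lb := (@Lb.d (nat_lit 128) (nat_lit 520) (nat_lit 128) (@Lb.g g9 (@Lb.g g11 (@Lb.r r264 (@Lb.r r407 (@Lb.r r82 (@Lb.r r161 (@Lb.d (nat_lit 98) (nat_lit 81) (nat_lit 425) (@Lb.fm (nat_lit 3) t654)))))))))
noncomputable def l30262 : Lb := (@Lb.d (nat_lit 2) (nat_lit 513) (nat_lit 0) (@Lb.g g8 (@Lb.g g9 (@Lb.g g10 (@Lb.r r515 (@Lb.r r1642 (@Lb.r r1049 (@Lb.d (nat_lit 521) (nat_lit 89) (nat_lit 66) (@Lb.t (@Lb.fp (nat_lit 9) t71))))))))))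
noncomputable def l30263 : Lb := (@Lb.d (nat_lit 4) (nat_lit 2) (nat_lit 0) (@Lb.g g8 (@Lb.g g9 (@Lb.g g10 (@Lb.r r515 (@Lb.r r1642 (@Lb.r r1049 (@Lb.d (nat_lit 522) (nat_lit 89) (nat_lit 66) (@Lb.t (@Lb.fp (nat_lit 9) t71))))))))))
noncomputable def l30264 : Lb := (@Lb.d (nat_lit 2) (nat_lit 656) (nat_lit 593) (@Lb.r r2182 (@Lb.r r2323 (@Lb.r r661 (@Lb.g g7 (@Lb.g g8 (@Lb.d (nat_lit 352) (nat_lit 16) (nat_lit 128) (@Lb.r r74 (@Lb.r r25 (@Lb.fm (nat_lit 3) t329))))))))))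
noncomputable def l30265 : Lb := (@Lb.d (nat_lit 4) (nat_lit 258) (nat_lit 0) (@Lb.g g8 (@Lb.g g9 (@Lb.g g10 (@Lb.r r515 (@Lb.r r1642 (@Lb.r r1049 (@Lb.d (nat_lit 521) (nat_lit 89) (nat_lit 66) (@Lb.t (@Lb.fp (nat_lit 9) t71))))))))))
noncomputable def l30266 : Lb := (@Lb.d (nat_lit 0) (nat_lit 256) (nat_lit 2) (@Lb.g g4 (@Lb.g g5 (@Lb.g g10 (@Lb.g g7 (@Lb.r r386 (@Lb.d (nat_lit 1) (nat_lit 0) (nat_lit 9) (@Lb.fp (nat_lit 9) t2))))))))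
noncomputable def l30267 : Lb := (@Lb.d (nat_lit 8) (nat_lit 521) (nat_lit 0) (@Lb.g g9 (@Lb.d (nat_lit 2) (nat_lit 90) (nat_lit 297) (@Lb.t (@Lb.fp (nat_lit 3) t153)))))
noncomputable def l30268 : Lb := (@Lb.d (nat_lit 32) (nat_lit 9) (nat_lit 129) (@Lb.g g9 (@Lb.g g10 (@Lb.g g11 (@Lb.r r2695 (@Lb.r r297 (@Lb.r r1352 (@Lb.r r2662 (@Lb.d (nat_lit 665) (nat_lit 85) (nat_lit 356) (@Lb.t (@Lb.fp (nat_lit 9) t98)))))))))))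
noncomputable def l30269 : Lb := (@Lb.d (nat_lit 649) (nat_lit 513) (nat_lit 66) (@Lb.g g8 (@Lb.g g9 (@Lb.g g10 (@Lb.g g11 (@Lb.r r2443 (@Lb.r r106 (@Lb.r r25 (@Lb.d (nat_lit 146) (nat_lit 22) (nat_lit 665) (@Lb.fp (nat_lit 9) t842))))))))))
noncomputable def l30270 : Lb := (@Lb.d (nat_lit 33) (nat_lit 258) (nat_lit 1) (@Lb.g g8 (@Lb.g g9 (@Lb.g g10 (@Lb.r r683 (@Lb.r r1689 (@Lb.r r1688 (@Lb.r r602 (@Lb.d (nat_lit 105) (nat_lit 101) (nat_lit 280) (@Lb.t (@Lb.fm (nat_lit 9) t1235)))))))))))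
noncomputable def l30271 : Lb := (@Lb.d (nat_lit 293) (nat_lit 106) (nat_lit 614) (@Lb.r r2133 (@Lb.r r323 (@Lb.r r682 (@Lb.g g7 (@Lb.g g6 (@Lb.g g5 (@Lb.g g4 (@Lb.d (nat_lit 8) (nat_lit 26) (nat_lit 64) (@Lb.fm (nat_lit 9) t309))))))))))
noncomputable def l30272 : Lb := (@Lb.d (nat_lit 1) (nat_lit 292) (nat_lit 64) (@Lb.g g8 (@Lb.g g9 (@Lb.g g10 (@Lb.g g11 (@Lb.r r387 (@Lb.r r1177 (@Lb.r r2458 (@Lb.r r24 (@Lb.d (nat_lit 600) (nat_lit 2) (nat_lit 169) (@Lb.fp (nat_lit 9) t2504)))))))))))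
noncomputable def l30273 : Lb := (@Lb.d (nat_lit 9) (nat_lit 257) (nat_lit 130) (@Lb.g g8 (@Lb.g g9 (@Lb.g g10 (@Lb.g g11 (@Lb.r r580 (@Lb.r r1367 (@Lb.r r2218 (@Lb.r r1193 (@Lb.r r1188 (@Lb.d (nat_lit 640) (nat_lit 2) (nat_lit 586) (@Lb.fp (nat_lit 9) t992))))))))))))
noncomputable def l30274 : Lb := (@Lb.d (nat_lit 10) (nat_lit 513) (nat_lit 130) (@Lb.g g8 (@Lb.g g9 (@Lb.g g10 (@Lb.g g11 (@Lb.r r580 (@Lb.r r1367 (@Lb.r r2218 (@Lb.r r1193 (@Lb.r r1188 (@Lb.d (nat_lit 640) (nat_lit 4) (nat_lit 584) (@Lb.fp (nat_lit 9) t2602))))))))))))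
noncomputable def l30275 : Lb := (@Lb.d (nat_lit 33) (nat_lit 545) (nat_lit 129) (@Lb.g g8 (@Lb.g g9 (@Lb.g g10 (@Lb.g g11 (@Lb.r r578 (@Lb.r r2627 (@Lb.r r164 (@Lb.r r2197 (@Lb.r r36 (@Lb.d (nat_lit 82) (nat_lit 130) (nat_lit 344) (@Lb.fm (nat_lit 9) t3226))))))))))))
noncomputable def l30276 : Lb := (@Lb.d (nat_lit 9) (nat_lit 1) (nat_lit 130) (@Lb.g g8 (@Lb.g g9 (@Lb.g g10 (@Lb.g g11 (@Lb.r r1602 (@Lb.r r409 (@Lb.r r2659 (@Lb.r r2577 (@Lb.r r2564 (@Lb.d (nat_lit 641) (nat_lit 73) (nat_lit 386) (@Lb.fm (nat_lit 9) t322))))))))))))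
noncomputable def l30277 : Lb := (@Lb.d (nat_lit 33) (nat_lit 550) (nat_lit 580) (@Lb.g g8 (@Lb.g g9 (@Lb.g g10 (@Lb.g g7 (@Lb.r r1442 (@Lb.r r1169 (@Lb.r r100 (@Lb.d (nat_lit 26) (nat_lit 4) (nat_lit 353) (@Lb.fp (nat_lit 9) t5483))))))))))
noncomputable def l30278 : Lb := (@Lb.r r81 (@Lb.r r323 (@Lb.d (nat_lit 16) (nat_lit 264) (nat_lit 34) (@Lb.g g6 (@Lb.r r387 (@Lb.r r88 (@Lb.r r37 (@Lb.d (nat_lit 17) (nat_lit 88) (nat_lit 282) (@Lb.t (@Lb.fm (nat_lit 3) t2499))))))))))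
noncomputable def l30279 : Lb := (@Lb.r r82 (@Lb.d (nat_lit 134) (nat_lit 546) (nat_lit 64) (@Lb.g g8 (@Lb.g g9 (@Lb.g g11 (@Lb.r r555 (@Lb.r r2660 (@Lb.r r90 (@Lb.r r37 (@Lb.d (nat_lit 545) (nat_lit 72) (nat_lit 410) (@Lb.t (@Lb.fm (nat_lit 9) t1167))))))))))))
noncomputable def l30280 : Lb := (@Lb.d (nat_lit 354) (nat_lit 0) (nat_lit 602) (@Lb.r r1291 (@Lb.g g11 (@Lb.g g8 (@Lb.fm (nat_lit 3) t4041)))))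
noncomputable def l30281 : Lb := (@Lb.r r21 (@Lb.d (nat_lit 138) (nat_lit 256) (nat_lit 2) (@Lb.g g8 (@Lb.g g10 (@Lb.r r1178 (@Lb.r r2661 (@Lb.r r2727 (@Lb.r r1368 (@Lb.d (nat_lit 676) (nat_lit 97) (nat_lit 517) (@Lb.fm (nat_lit 3) t51))))))))))
noncomputable def l30282 : Lb := (@Lb.d (nat_lit 2) (nat_lit 512) (nat_lit 72) (@Lb.g g8 (@Lb.g g11 (@Lb.r r2436 (@Lb.d (nat_lit 610) (nat_lit 0) (nat_lit 425) (@Lb.fm (nat_lit 3) t5484))))))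
noncomputable def l30283 : Lb := (@Lb.d (nat_lit 402) (nat_lit 421) (nat_lit 678) (@Lb.r r1044 (@Lb.r r601 (@Lb.r r532 (@Lb.r r2466 (@Lb.g g11 (@Lb.g g6 (@Lb.g g5 (@Lb.g g4 (@Lb.d (nat_lit 1) (nat_lit 1) (nat_lit 129) (@Lb.fp (nat_lit 9) t827)))))))))))
noncomputable def l30284 : Lb := (@Lb.d (nat_lit 8) (nat_lit 256) (nat_lit 2) (@Lb.g g9 (@Lb.g g10 (@Lb.r r2372 (@Lb.r r2459 (@Lb.r r1370 (@Lb.r r2597 (@Lb.d (nat_lit 640) (nat_lit 88) (nat_lit 33) (@Lb.fp (nat_lit 3) t1222)))))))))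
noncomputable def l30285 : Lb := (@Lb.d (nat_lit 8) (nat_lit 8) (nat_lit 89) (@Lb.g g8 (@Lb.g g10 (@Lb.g g11 (@Lb.r r2321 (@Lb.r r1639 (@Lb.r r2436 (@Lb.d (nat_lit 344) (nat_lit 70) (nat_lit 681) (@Lb.t (@Lb.fp (nat_lit 9) t741))))))))))
noncomputable def l30286 : Lb := (@Lb.d (nat_lit 0) (nat_lit 2) (nat_lit 9) (@Lb.g g8 (@Lb.g g9 (@Lb.g g10 (@Lb.g g11 (@Lb.r r1543 (@Lb.r r424 (@Lb.r r106 (@Lb.r r25 (@Lb.d (nat_lit 521) (nat_lit 9) (nat_lit 170) (@Lb.fp (nat_lit 9) t1456)))))))))))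
noncomputable def l30287 : Lb := (@Lb.d (nat_lit 0) (nat_lit 514) (nat_lit 2) (@Lb.g g8 (@Lb.g g9 (@Lb.g g10 (@Lb.r r2723 (@Lb.r r1634 (@Lb.r r1553 (@Lb.d (nat_lit 2) (nat_lit 105) (nat_lit 417) (@Lb.t (@Lb.fp (nat_lit 9) t324))))))))))
noncomputable def l30288 : Lb := (@Lb.r r275 (@Lb.d (nat_lit 1) (nat_lit 512) (nat_lit 2) (@Lb.g g8 (@Lb.g g9 (@Lb.g g10 (@Lb.r r683 (@Lb.r r2218 (@Lb.r r2212 (@Lb.r r2085 (@Lb.d (nat_lit 520) (nat_lit 68) (nat_lit 17) (@Lb.t (@Lb.fp (nat_lit 9) t750))))))))))))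
noncomputable def l30289 : Lb := (@Lb.r r82 (@Lb.r r275 (@Lb.d (nat_lit 4) (nat_lit 2) (nat_lit 0) (@Lb.g g5 (@Lb.r r1619 (@Lb.r r386 (@Lb.r r24 (@Lb.d (nat_lit 0) (nat_lit 70) (nat_lit 0) (@Lb.t (@Lb.fp (nat_lit 3) t582))))))))))
noncomputable def l30290 : Lb := (@Lb.r r323 (@Lb.d (nat_lit 26) (nat_lit 264) (nat_lit 33) (@Lb.g g8 (@Lb.g g9 (@Lb.g g6 (@Lb.r r387 (@Lb.r r161 (@Lb.r r1176 (@Lb.d (nat_lit 538) (nat_lit 65) (nat_lit 1) (@Lb.t (@Lb.fp (nat_lit 9) t3916)))))))))))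
noncomputable def l30291 : Lb := (@Lb.d (nat_lit 0) (nat_lit 512) (nat_lit 130) (@Lb.g g10 (@Lb.g g11 (@Lb.r r2691 (@Lb.r r1638 (@Lb.r r2069 (@Lb.r r8 (@Lb.d (nat_lit 641) (nat_lit 37) (nat_lit 169) (@Lb.fm (nat_lit 3) t2335)))))))))
noncomputable def l30292 : Lb := (@Lb.r r323 (@Lb.d (nat_lit 0) (nat_lit 260) (nat_lit 0) (@Lb.g g8 (@Lb.g g9 (@Lb.g g10 (@Lb.r r2643 (@Lb.r r2154 (@Lb.r r104 (@Lb.r r25 (@Lb.d (nat_lit 521) (nat_lit 72) (nat_lit 2) (@Lb.t (@Lb.fm (nat_lit 9) t685))))))))))))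
noncomputable def l30293 : Lb := (@Lb.r r323 (@Lb.d (nat_lit 134) (nat_lit 0) (nat_lit 34) (@Lb.g g8 (@Lb.g g9 (@Lb.g g10 (@Lb.r r2647 (@Lb.r r145 (@Lb.r r360 (@Lb.d (nat_lit 405) (nat_lit 37) (nat_lit 150) (@Lb.t (@Lb.fm (nat_lit 9) t791)))))))))))
noncomputable def l30294 : Lb := (@Lb.d (nat_lit 4) (nat_lit 257) (nat_lit 0) (@Lb.g g5 (@Lb.r r2331 (@Lb.r r24 (@Lb.d (nat_lit 70) (nat_lit 65) (nat_lit 512) (@Lb.t (@Lb.fp (nat_lit 3) t1165)))))))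
noncomputable def l30295 : Lb := (@Lb.d (nat_lit 21) (nat_lit 10) (nat_lit 73) (@Lb.g g8 (@Lb.g g9 (@Lb.g g10 (@Lb.g g11 (@Lb.r r1667 (@Lb.r r1321 (@Lb.r r616 (@Lb.r r2630 (@Lb.r r2180 (@Lb.d (nat_lit 385) (nat_lit 106) (nat_lit 133) (@Lb.fm (nat_lit 9) t1161))))))))))))
noncomputable def l30296 : Lb := (@Lb.d (nat_lit 4) (nat_lit 513) (nat_lit 0) (@Lb.g g5 (@Lb.r r2331 (@Lb.r r24 (@Lb.d (nat_lit 69) (nat_lit 65) (nat_lit 512) (@Lb.t (@Lb.fp (nat_lit 3) t1165)))))))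
noncomputable def l30297 : Lb := (@Lb.d (nat_lit 10) (nat_lit 613) (nat_lit 534) (@Lb.r r20 (@Lb.r r338 (@Lb.r r1699 (@Lb.g g6 (@Lb.g g5 (@Lb.d (nat_lit 8) (nat_lit 1) (nat_lit 0) (@Lb.fp (nat_lit 3) t39))))))))
noncomputable def l30298 : Lb := (@Lb.d (nat_lit 26) (nat_lit 257) (nat_lit 74) (@Lb.g g8 (@Lb.g g9 (@Lb.g g10 (@Lb.g g11 (@Lb.r r2667 (@Lb.r r1602 (@Lb.r r425 (@Lb.r r420 (@Lb.d (nat_lit 105) (nat_lit 130) (nat_lit 420) (@Lb.fp (nat_lit 9) t355)))))))))))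
noncomputable def l30299 : Lb := (@Lb.d (nat_lit 32) (nat_lit 514) (nat_lit 74) (@Lb.g g9 (@Lb.g g10 (@Lb.g g11 (@Lb.r r328 (@Lb.r r2471 (@Lb.r r2449 (@Lb.r r2130 (@Lb.d (nat_lit 10) (nat_lit 70) (nat_lit 280) (@Lb.t (@Lb.fp (nat_lit 9) t2)))))))))))
noncomputable def l30300 : Lb := (@Lb.d (nat_lit 8) (nat_lit 2) (nat_lit 137) (@Lb.g g9 (@Lb.g g10 (@Lb.g g7 (@Lb.r r386 (@Lb.d (nat_lit 2) (nat_lit 0) (nat_lit 9) (@Lb.t (@Lb.fm (nat_lit 9) t2))))))))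
noncomputable def l30301 : Lb := (@Lb.d (nat_lit 26) (nat_lit 513) (nat_lit 74) (@Lb.g g8 (@Lb.g g9 (@Lb.g g10 (@Lb.g g11 (@Lb.r r2667 (@Lb.r r1602 (@Lb.r r425 (@Lb.r r420 (@Lb.d (nat_lit 104) (nat_lit 130) (nat_lit 420) (@Lb.fp (nat_lit 9) t355)))))))))))
noncomputable def l30302 : Lb := (@Lb.d (nat_lit 257) (nat_lit 512) (nat_lit 610) (@Lb.r r24 (@Lb.r r2325 (@Lb.r r1682 (@Lb.r r323 (@Lb.g g7 (@Lb.g g6 (@Lb.g g5 (@Lb.d (nat_lit 0) (nat_lit 18) (nat_lit 129) (@Lb.t (@Lb.fp (nat_lit 9) t355)))))))))))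
noncomputable def l30303 : Lb := (@Lb.d (nat_lit 405) (nat_lit 257) (nat_lit 292) (@Lb.r r24 (@Lb.r r101 (@Lb.r r323 (@Lb.g g7 (@Lb.g g6 (@Lb.g g4 (@Lb.d (nat_lit 0) (nat_lit 4) (nat_lit 65) (@Lb.t (@Lb.fp (nat_lit 9) t58))))))))))
noncomputable def l30304 : Lb := (@Lb.d (nat_lit 2) (nat_lit 258) (nat_lit 73) (@Lb.g g8 (@Lb.g g9 (@Lb.g g10 (@Lb.g g11 (@Lb.r r2666 (@Lb.r r579 (@Lb.r r97 (@Lb.r r24 (@Lb.d (nat_lit 420) (nat_lit 8) (nat_lit 356) (@Lb.fm (nat_lit 9) t61)))))))))))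
noncomputable def l30305 : Lb := (@Lb.r r331 (@Lb.d (nat_lit 165) (nat_lit 0) (nat_lit 2) (@Lb.g g8 (@Lb.g g9 (@Lb.g g10 (@Lb.r r345 (@Lb.r r359 (@Lb.r r536 (@Lb.d (nat_lit 64) (nat_lit 42) (nat_lit 128) (@Lb.t (@Lb.fp (nat_lit 9) t238)))))))))))
noncomputable def l30306 : Lb := (@Lb.d (nat_lit 144) (nat_lit 2) (nat_lit 160) (@Lb.g g8 (@Lb.g g9 (@Lb.g g10 (@Lb.g g11 (@Lb.r r1411 (@Lb.r r1065 (@Lb.r r1060 (@Lb.d (nat_lit 264) (nat_lit 130) (nat_lit 297) (@Lb.fm (nat_lit 9) t1221))))))))))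
noncomputable def l30307 : Lb := (@Lb.d (nat_lit 4) (nat_lit 0) (nat_lit 73) (@Lb.g g8 (@Lb.g g9 (@Lb.g g10 (@Lb.g g11 (@Lb.r r2666 (@Lb.r r579 (@Lb.r r97 (@Lb.r r24 (@Lb.d (nat_lit 145) (nat_lit 0) (nat_lit 324) (@Lb.fm (nat_lit 9) t61)))))))))))
noncomputable def l30308 : Lb := (@Lb.r r82 (@Lb.d (nat_lit 4) (nat_lit 8) (nat_lit 0) (@Lb.g g8 (@Lb.g g9 (@Lb.r r619 (@Lb.r r1430 (@Lb.r r2657 (@Lb.d (nat_lit 661) (nat_lit 166) (nat_lit 537) (@Lb.fp (nat_lit 3) t2985)))))))))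
noncomputable def l30309 : Lb := (@Lb.d (nat_lit 145) (nat_lit 512) (nat_lit 1) (@Lb.r r613 (@Lb.r r280 (@Lb.r r402 (@Lb.g g7 (@Lb.d (nat_lit 64) (nat_lit 0) (nat_lit 64) (@Lb.r r578 (@Lb.r r529 (@Lb.t (@Lb.fp (nat_lit 3) t215))))))))))
noncomputable def l30310 : Lb := (@Lb.d (nat_lit 144) (nat_lit 258) (nat_lit 64) (@Lb.g g8 (@Lb.g g9 (@Lb.g g10 (@Lb.g g11 (@Lb.r r601 (@Lb.r r603 (@Lb.r r1170 (@Lb.r r2632 (@Lb.d (nat_lit 601) (nat_lit 133) (nat_lit 401) (@Lb.fm (nat_lit 9) t524)))))))))))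
noncomputable def l30311 : Lb := (@Lb.r r404 (@Lb.r r619 (@Lb.r r1625 (@Lb.r r2470 (@Lb.r r1540 (@Lb.d (nat_lit 5) (nat_lit 72) (nat_lit 100) (@Lb.fp (nat_lit 1) t1096)))))))
noncomputable def l30312 : Lb := (@Lb.d (nat_lit 657) (nat_lit 666) (nat_lit 150) (@Lb.r r2667 (@Lb.r r516 (@Lb.r r105 (@Lb.r r150 (@Lb.g g7 (@Lb.g g5 (@Lb.d (nat_lit 64) (nat_lit 2) (nat_lit 0) (@Lb.fp (nat_lit 3) t1096)))))))))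
noncomputable def l30313 : Lb := (@Lb.d (nat_lit 32) (nat_lit 0) (nat_lit 2) (@Lb.r r24 (@Lb.r r85 (@Lb.r r418 (@Lb.r r323 (@Lb.g g7 (@Lb.g g6 (@Lb.g g5 (@Lb.d (nat_lit 0) (nat_lit 2) (nat_lit 10) (@Lb.t (@Lb.fp (nat_lit 9) t686)))))))))))
noncomputable def l30314 : Lb := (@Lb.r r82 (@Lb.d (nat_lit 9) (nat_lit 257) (nat_lit 128) (@Lb.g g8 (@Lb.g g9 (@Lb.g g11 (@Lb.r r1571 (@Lb.r r1192 (@Lb.r r1642 (@Lb.r r1633 (@Lb.d (nat_lit 613) (nat_lit 152) (nat_lit 356) (@Lb.t (@Lb.fp (nat_lit 9) t509))))))))))))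
noncomputable def l30315 : Lb := (@Lb.d (nat_lit 0) (nat_lit 296) (nat_lit 65) (@Lb.g g9 (@Lb.g g10 (@Lb.g g11 (@Lb.r r1706 (@Lb.r r1700 (@Lb.r r1575 (@Lb.r r1557 (@Lb.d (nat_lit 388) (nat_lit 96) (nat_lit 586) (@Lb.t (@Lb.fm (nat_lit 9) t68)))))))))))
noncomputable def l30316 : Lb := (@Lb.d (nat_lit 8) (nat_lit 41) (nat_lit 65) (@Lb.g g9 (@Lb.g g10 (@Lb.g g11 (@Lb.r r1702 (@Lb.r r2392 (@Lb.r r1383 (@Lb.r r1365 (@Lb.d (nat_lit 340) (nat_lit 84) (nat_lit 406) (@Lb.t (@Lb.fm (nat_lit 9) t68)))))))))))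
noncomputable def l30317 : Lb := (@Lb.d (nat_lit 0) (nat_lit 586) (nat_lit 132) (@Lb.r r1130 (@Lb.r r1636 (@Lb.r r1623 (@Lb.r r2473 (@Lb.g g6 (@Lb.g g5 (@Lb.g g4 (@Lb.d (nat_lit 1) (nat_lit 1) (nat_lit 2) (@Lb.t (@Lb.fp (nat_lit 9) t329)))))))))))
noncomputable def l30318 : Lb := (@Lb.g g5 (@Lb.r r149 (@Lb.d (nat_lit 17) (nat_lit 0) (nat_lit 1) (@Lb.t (@Lb.fm (nat_lit 3) t285)))))
noncomputable def l30319 : Lb := (@Lb.d (nat_lit 0) (nat_lit 517) (nat_lit 0) (@Lb.g g5 (@Lb.d (nat_lit 5) (nat_lit 8) (nat_lit 0) (@Lb.t (@Lb.fm (nat_lit 3) t285)))))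
noncomputable def l30320 : Lb := (@Lb.d (nat_lit 40) (nat_lit 6) (nat_lit 74) (@Lb.g g8 (@Lb.g g9 (@Lb.g g10 (@Lb.g g11 (@Lb.r r666 (@Lb.r r545 (@Lb.r r615 (@Lb.r r388 (@Lb.d (nat_lit 165) (nat_lit 32) (nat_lit 74) (@Lb.fm (nat_lit 9) t74)))))))))))
noncomputable def l30321 : Lb := (@Lb.d (nat_lit 38) (nat_lit 256) (nat_lit 73) (@Lb.g g8 (@Lb.g g9 (@Lb.g g10 (@Lb.g g11 (@Lb.r r1366 (@Lb.r r2711 (@Lb.r r1449 (@Lb.r r612 (@Lb.d (nat_lit 521) (nat_lit 66) (nat_lit 22) (@Lb.fp (nat_lit 9) t1377)))))))))))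
noncomputable def l30322 : Lb := (@Lb.d (nat_lit 129) (nat_lit 550) (nat_lit 64) (@Lb.g g8 (@Lb.g g9 (@Lb.g g10 (@Lb.g g11 (@Lb.r r683 (@Lb.r r1386 (@Lb.r r1305 (@Lb.r r516 (@Lb.d (nat_lit 521) (nat_lit 105) (nat_lit 25) (@Lb.fm (nat_lit 9) t1797)))))))))))
noncomputable def l30323 : Lb := (@Lb.d (nat_lit 66) (nat_lit 390) (nat_lit 577) (@Lb.r r24 (@Lb.r r101 (@Lb.r r1622 (@Lb.r r395 (@Lb.g g7 (@Lb.g g6 (@Lb.d (nat_lit 0) (nat_lit 0) (nat_lit 72) (@Lb.fm (nat_lit 3) t5485)))))))))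
noncomputable def l30324 : Lb := (@Lb.d (nat_lit 134) (nat_lit 36) (nat_lit 64) (@Lb.g g8 (@Lb.g g9 (@Lb.g g10 (@Lb.g g11 (@Lb.r r683 (@Lb.r r1386 (@Lb.r r1305 (@Lb.r r516 (@Lb.d (nat_lit 522) (nat_lit 105) (nat_lit 25) (@Lb.fm (nat_lit 9) t5486)))))))))))
noncomputable def l30325 : Lb := (@Lb.d (nat_lit 169) (nat_lit 290) (nat_lit 66) (@Lb.g g8 (@Lb.g g9 (@Lb.g g10 (@Lb.g g11 (@Lb.r r343 (@Lb.r r1410 (@Lb.r r85 (@Lb.r r2580 (@Lb.d (nat_lit 82) (nat_lit 9) (nat_lit 277) (@Lb.fm (nat_lit 9) t3672)))))))))))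
noncomputable def l30326 : Lb := (@Lb.r r70 (@Lb.r r263 (@Lb.d (nat_lit 544) (nat_lit 514) (nat_lit 0) (@Lb.g g8 (@Lb.g g9 (@Lb.r r2649 (@Lb.r r1555 (@Lb.r r1602 (@Lb.d (nat_lit 289) (nat_lit 10) (nat_lit 342) (@Lb.fp (nat_lit 3) t4350))))))))))
noncomputable def l30327 : Lb := (@Lb.d (nat_lit 2) (nat_lit 661) (nat_lit 641) (@Lb.r r1346 (@Lb.r r2323 (@Lb.r r549 (@Lb.g g7 (@Lb.g g5 (@Lb.g g8 (@Lb.d (nat_lit 586) (nat_lit 0) (nat_lit 64) (@Lb.r r586 (@Lb.t (@Lb.fp (nat_lit 9) t344)))))))))))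
noncomputable def l30328 : Lb := (@Lb.d (nat_lit 5) (nat_lit 514) (nat_lit 130) (@Lb.g g8 (@Lb.g g9 (@Lb.g g10 (@Lb.g g11 (@Lb.r r347 (@Lb.r r386 (@Lb.r r1121 (@Lb.r r1576 (@Lb.d (nat_lit 74) (nat_lit 40) (nat_lit 532) (@Lb.fm (nat_lit 9) t5487)))))))))))
noncomputable def l30329 : Lb := (@Lb.d (nat_lit 2) (nat_lit 280) (nat_lit 133) (@Lb.g g8 (@Lb.g g9 (@Lb.g g10 (@Lb.g g11 (@Lb.r r1691 (@Lb.r r406 (@Lb.r r1556 (@Lb.r r2409 (@Lb.d (nat_lit 421) (nat_lit 152) (nat_lit 165) (@Lb.fm (nat_lit 9) t152)))))))))))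
noncomputable def l30330 : Lb := (@Lb.d (nat_lit 8) (nat_lit 1) (nat_lit 130) (@Lb.g g8 (@Lb.g g9 (@Lb.g g10 (@Lb.g g11 (@Lb.r r347 (@Lb.r r386 (@Lb.r r1129 (@Lb.r r2324 (@Lb.d (nat_lit 40) (nat_lit 166) (nat_lit 608) (@Lb.fp (nat_lit 9) t5487)))))))))))
noncomputable def l30331 : Lb := (@Lb.d (nat_lit 4) (nat_lit 262) (nat_lit 0) (@Lb.g g5 (@Lb.g g7 (@Lb.r r402 (@Lb.d (nat_lit 1) (nat_lit 1) (nat_lit 132) (@Lb.fp (nat_lit 3) t311))))))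
noncomputable def l30332 : Lb := (@Lb.d (nat_lit 4) (nat_lit 290) (nat_lit 66) (@Lb.g g8 (@Lb.g g9 (@Lb.g g10 (@Lb.g g11 (@Lb.r r1706 (@Lb.r r1700 (@Lb.r r1575 (@Lb.r r1557 (@Lb.d (nat_lit 389) (nat_lit 96) (nat_lit 640) (@Lb.fp (nat_lit 9) t264)))))))))))
noncomputable def l30333 : Lb := (@Lb.d (nat_lit 257) (nat_lit 0) (nat_lit 32) (@Lb.r r2120 (@Lb.r r2145 (@Lb.r r1414 (@Lb.r r323 (@Lb.g g7 (@Lb.g g6 (@Lb.d (nat_lit 0) (nat_lit 0) (nat_lit 64) (@Lb.fp (nat_lit 3) t1919)))))))))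
noncomputable def l30334 : Lb := (@Lb.d (nat_lit 257) (nat_lit 266) (nat_lit 34) (@Lb.r r2120 (@Lb.r r2145 (@Lb.r r1414 (@Lb.r r323 (@Lb.g g7 (@Lb.g g6 (@Lb.d (nat_lit 0) (nat_lit 0) (nat_lit 64) (@Lb.fp (nat_lit 3) t5488)))))))))
noncomputable def l30335 : Lb := (@Lb.r r21 (@Lb.r r331 (@Lb.d (nat_lit 168) (nat_lit 512) (nat_lit 1) (@Lb.g g8 (@Lb.g g6 (@Lb.r r597 (@Lb.r r279 (@Lb.r r676 (@Lb.d (nat_lit 168) (nat_lit 22) (nat_lit 134) (@Lb.fp (nat_lit 3) t892))))))))))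
noncomputable def l30336 : Lb := (@Lb.d (nat_lit 0) (nat_lit 258) (nat_lit 0) (@Lb.g g9 (@Lb.g g10 (@Lb.g g7 (@Lb.r r145 (@Lb.d (nat_lit 0) (nat_lit 1) (nat_lit 2) (@Lb.t (@Lb.fp (nat_lit 9) t97))))))))
noncomputable def l30337 : Lb := (@Lb.r r70 (@Lb.d (nat_lit 161) (nat_lit 129) (nat_lit 64) (@Lb.g g8 (@Lb.g g5 (@Lb.g g11 (@Lb.r r1627 (@Lb.r r2470 (@Lb.r r2644 (@Lb.d (nat_lit 664) (nat_lit 165) (nat_lit 424) (@Lb.t (@Lb.fp (nat_lit 9) t3276)))))))))))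
noncomputable def l30338 : Lb := (@Lb.d (nat_lit 0) (nat_lit 520) (nat_lit 130) (@Lb.g g4 (@Lb.g g10 (@Lb.g g11 (@Lb.r r387 (@Lb.d (nat_lit 1) (nat_lit 2) (nat_lit 2) (@Lb.t (@Lb.fp (nat_lit 9) t51))))))))
noncomputable def l30339 : Lb := (@Lb.d (nat_lit 4) (nat_lit 257) (nat_lit 0) (@Lb.g g8 (@Lb.g g9 (@Lb.r r322 (@Lb.r r1667 (@Lb.r r578 (@Lb.r r1561 (@Lb.d (nat_lit 585) (nat_lit 2) (nat_lit 394) (@Lb.fp (nat_lit 3) t1035)))))))))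
noncomputable def l30340 : Lb := (@Lb.d (nat_lit 5) (nat_lit 0) (nat_lit 130) (@Lb.g g8 (@Lb.g g9 (@Lb.g g10 (@Lb.g g11 (@Lb.r r2691 (@Lb.r r2665 (@Lb.r r1686 (@Lb.r r1124 (@Lb.d (nat_lit 658) (nat_lit 136) (nat_lit 345) (@Lb.fm (nat_lit 9) t4501)))))))))))
noncomputable def l30341 : Lb := (@Lb.r r21 (@Lb.d (nat_lit 146) (nat_lit 0) (nat_lit 64) (@Lb.g g8 (@Lb.g g10 (@Lb.g g11 (@Lb.r r648 (@Lb.r r1627 (@Lb.r r338 (@Lb.r r97 (@Lb.d (nat_lit 520) (nat_lit 129) (nat_lit 325) (@Lb.t (@Lb.fp (nat_lit 9) t4178))))))))))))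
noncomputable def l30342 : Lb := (@Lb.d (nat_lit 2) (nat_lit 258) (nat_lit 1) (@Lb.g g8 (@Lb.g g9 (@Lb.g g10 (@Lb.r r2473 (@Lb.r r1623 (@Lb.r r2452 (@Lb.r r2134 (@Lb.d (nat_lit 1) (nat_lit 133) (nat_lit 72) (@Lb.t (@Lb.fm (nat_lit 9) t167)))))))))))
noncomputable def l30343 : Lb := (@Lb.d (nat_lit 2) (nat_lit 2) (nat_lit 73) (@Lb.g g8 (@Lb.g g9 (@Lb.g g10 (@Lb.g g11 (@Lb.r r1065 (@Lb.r r360 (@Lb.r r582 (@Lb.r r2407 (@Lb.r r2180 (@Lb.d (nat_lit 330) (nat_lit 88) (nat_lit 97) (@Lb.fp (nat_lit 9) t324))))))))))))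
noncomputable def l30344 : Lb := (@Lb.d (nat_lit 282) (nat_lit 320) (nat_lit 6) (@Lb.r r2068 (@Lb.r r1129 (@Lb.r r104 (@Lb.r r386 (@Lb.g g11 (@Lb.g g6 (@Lb.g g5 (@Lb.g g4 (@Lb.d (nat_lit 1) (nat_lit 10) (nat_lit 128) (@Lb.fp (nat_lit 9) t51)))))))))))
noncomputable def l30345 : Lb := (@Lb.d (nat_lit 280) (nat_lit 64) (nat_lit 6) (@Lb.r r2068 (@Lb.r r1129 (@Lb.r r104 (@Lb.r r386 (@Lb.g g11 (@Lb.g g6 (@Lb.g g5 (@Lb.g g4 (@Lb.d (nat_lit 1) (nat_lit 10) (nat_lit 128) (@Lb.fp (nat_lit 9) t51)))))))))))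
noncomputable def l30346 : Lb := (@Lb.d (nat_lit 280) (nat_lit 576) (nat_lit 6) (@Lb.r r2068 (@Lb.r r1129 (@Lb.r r104 (@Lb.r r386 (@Lb.g g11 (@Lb.g g6 (@Lb.g g5 (@Lb.g g4 (@Lb.d (nat_lit 6) (nat_lit 8) (nat_lit 128) (@Lb.fp (nat_lit 9) t51)))))))))))
noncomputable def l30347 : Lb := (@Lb.g g4 (@Lb.g g10 (@Lb.fp (nat_lit 3) t2)))
noncomputable def l30348 : Lb := (@Lb.d (nat_lit 280) (nat_lit 521) (nat_lit 73) (@Lb.g g4 (@Lb.g g9 (@Lb.g g10 (@Lb.g g11 (@Lb.r r1667 (@Lb.r r145 (@Lb.r r602 (@Lb.r r1169 (@Lb.d (nat_lit 288) (nat_lit 96) (nat_lit 346) (@Lb.fp (nat_lit 9) t68)))))))))))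
noncomputable def l30349 : Lb := (@Lb.d (nat_lit 9) (nat_lit 514) (nat_lit 130) (@Lb.g g8 (@Lb.g g9 (@Lb.g g10 (@Lb.g g11 (@Lb.r r1451 (@Lb.r r409 (@Lb.r r2138 (@Lb.r r1169 (@Lb.d (nat_lit 518) (nat_lit 8) (nat_lit 18) (@Lb.fp (nat_lit 9) t221)))))))))))
noncomputable def l30350 : Lb := (@Lb.d (nat_lit 0) (nat_lit 548) (nat_lit 64) (@Lb.g g9 (@Lb.g g10 (@Lb.g g11 (@Lb.r r1703 (@Lb.r r386 (@Lb.r r2328 (@Lb.r r1637 (@Lb.d (nat_lit 360) (nat_lit 66) (nat_lit 85) (@Lb.t (@Lb.fm (nat_lit 9) t152)))))))))))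
noncomputable def l30351 : Lb := (@Lb.d (nat_lit 165) (nat_lit 341) (nat_lit 417) (@Lb.r r68 (@Lb.r r1690 (@Lb.r r404 (@Lb.r r337 (@Lb.g g7 (@Lb.g g6 (@Lb.g g5 (@Lb.g g4 (@Lb.d (nat_lit 96) (nat_lit 0) (nat_lit 577) (@Lb.fm (nat_lit 9) t1916)))))))))))
noncomputable def l30352 : Lb := (@Lb.d (nat_lit 34) (nat_lit 262) (nat_lit 130) (@Lb.g g8 (@Lb.g g9 (@Lb.g g10 (@Lb.g g11 (@Lb.r r2713 (@Lb.r r1691 (@Lb.r r2194 (@Lb.r r2632 (@Lb.d (nat_lit 614) (nat_lit 22) (nat_lit 408) (@Lb.fm (nat_lit 9) t5489)))))))))))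
noncomputable def l30353 : Lb := (@Lb.d (nat_lit 0) (nat_lit 322) (nat_lit 128) (@Lb.g g9 (@Lb.g g11 (@Lb.r r658 (@Lb.r r387 (@Lb.r r2564 (@Lb.d (nat_lit 10) (nat_lit 18) (nat_lit 325) (@Lb.fp (nat_lit 3) t4699))))))))
noncomputable def l30354 : Lb := (@Lb.r r323 (@Lb.d (nat_lit 73) (nat_lit 1) (nat_lit 0) (@Lb.g g8 (@Lb.g g9 (@Lb.g g10 (@Lb.r r2473 (@Lb.r r1367 (@Lb.r r678 (@Lb.r r324 (@Lb.d (nat_lit 82) (nat_lit 88) (nat_lit 597) (@Lb.t (@Lb.fm (nat_lit 9) t1340))))))))))))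
noncomputable def l30355 : Lb := (@Lb.d (nat_lit 581) (nat_lit 417) (nat_lit 341) (@Lb.r r340 (@Lb.r r1689 (@Lb.r r1418 (@Lb.g g7 (@Lb.g g6 (@Lb.g g4 (@Lb.d (nat_lit 98) (nat_lit 0) (nat_lit 577) (@Lb.t (@Lb.fm (nat_lit 9) t1916))))))))))
noncomputable def l30356 : Lb := (@Lb.d (nat_lit 530) (nat_lit 400) (nat_lit 677) (@Lb.r r2129 (@Lb.r r358 (@Lb.r r81 (@Lb.r r1667 (@Lb.g g7 (@Lb.g g6 (@Lb.g g5 (@Lb.g g8 (@Lb.d (nat_lit 548) (nat_lit 8) (nat_lit 132) (@Lb.fp (nat_lit 9) t4693)))))))))))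
noncomputable def l30357 : Lb := (@Lb.d (nat_lit 1) (nat_lit 2) (nat_lit 0) (@Lb.g g8 (@Lb.g g9 (@Lb.g g10 (@Lb.r r515 (@Lb.r r297 (@Lb.r r360 (@Lb.r r582 (@Lb.r r132 (@Lb.d (nat_lit 2) (nat_lit 5) (nat_lit 70) (@Lb.t (@Lb.fp (nat_lit 9) t242))))))))))))
noncomputable def l30358 : Lb := (@Lb.d (nat_lit 530) (nat_lit 656) (nat_lit 677) (@Lb.r r2129 (@Lb.r r358 (@Lb.r r81 (@Lb.r r1667 (@Lb.g g7 (@Lb.g g6 (@Lb.g g5 (@Lb.g g8 (@Lb.d (nat_lit 550) (nat_lit 8) (nat_lit 132) (@Lb.fp (nat_lit 9) t4692)))))))))))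
noncomputable def l30359 : Lb := (@Lb.r r323 (@Lb.d (nat_lit 293) (nat_lit 256) (nat_lit 2) (@Lb.g g4 (@Lb.g g9 (@Lb.g g10 (@Lb.r r1575 (@Lb.r r2434 (@Lb.r r1553 (@Lb.d (nat_lit 609) (nat_lit 36) (nat_lit 104) (@Lb.t (@Lb.fp (nat_lit 9) t916)))))))))))
noncomputable def l30360 : Lb := (@Lb.d (nat_lit 32) (nat_lit 260) (nat_lit 1) (@Lb.g g9 (@Lb.g g10 (@Lb.r r515 (@Lb.r r661 (@Lb.r r356 (@Lb.r r346 (@Lb.d (nat_lit 169) (nat_lit 38) (nat_lit 6) (@Lb.fp (nat_lit 3) t1871)))))))))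
noncomputable def l30361 : Lb := (@Lb.d (nat_lit 133) (nat_lit 36) (nat_lit 133) (@Lb.g g8 (@Lb.g g9 (@Lb.g g10 (@Lb.g g11 (@Lb.r r683 (@Lb.r r610 (@Lb.r r1305 (@Lb.r r536 (@Lb.d (nat_lit 404) (nat_lit 5) (nat_lit 681) (@Lb.fp (nat_lit 9) t197)))))))))))
noncomputable def l30362 : Lb := (@Lb.r r81 (@Lb.r r323 (@Lb.d (nat_lit 10) (nat_lit 512) (nat_lit 5) (@Lb.g g8 (@Lb.g g6 (@Lb.r r2347 (@Lb.r r149 (@Lb.r r1704 (@Lb.d (nat_lit 96) (nat_lit 150) (nat_lit 537) (@Lb.fm (nat_lit 3) t2705))))))))))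
noncomputable def l30363 : Lb := (@Lb.r r68 (@Lb.r r330 (@Lb.r r356 (@Lb.r r277 (@Lb.r r515 (@Lb.g g6 (@Lb.g g9 (@Lb.g g8 (@Lb.d (nat_lit 2) (nat_lit 258) (nat_lit 0) (@Lb.t (@Lb.fm (nat_lit 9) t1871)))))))))))
noncomputable def l30364 : Lb := (@Lb.d (nat_lit 0) (nat_lit 266) (nat_lit 73) (@Lb.r r68 (@Lb.r r330 (@Lb.r r360 (@Lb.r r297 (@Lb.g g7 (@Lb.g g6 (@Lb.g g5 (@Lb.g g4 (@Lb.d (nat_lit 1) (nat_lit 1) (nat_lit 128) (@Lb.fp (nat_lit 9) t3412)))))))))))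
noncomputable def l30365 : Lb := (@Lb.r r21 (@Lb.d (nat_lit 33) (nat_lit 256) (nat_lit 73) (@Lb.g g8 (@Lb.g g10 (@Lb.g g11 (@Lb.r r1698 (@Lb.r r1447 (@Lb.r r145 (@Lb.r r2564 (@Lb.d (nat_lit 138) (nat_lit 64) (nat_lit 384) (@Lb.t (@Lb.fp (nat_lit 9) t394))))))))))))
noncomputable def l30366 : Lb := (@Lb.r r21 (@Lb.r r323 (@Lb.d (nat_lit 33) (nat_lit 512) (nat_lit 2) (@Lb.g g8 (@Lb.g g10 (@Lb.r r1691 (@Lb.r r2209 (@Lb.r r2658 (@Lb.r r2372 (@Lb.d (nat_lit 129) (nat_lit 24) (nat_lit 618) (@Lb.fm (nat_lit 3) t125)))))))))))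
noncomputable def l30367 : Lb := (@Lb.d (nat_lit 0) (nat_lit 513) (nat_lit 4) (@Lb.g g8 (@Lb.g g9 (@Lb.g g10 (@Lb.g g11 (@Lb.r r618 (@Lb.r r105 (@Lb.r r340 (@Lb.r r2587 (@Lb.r r2564 (@Lb.d (nat_lit 10) (nat_lit 146) (nat_lit 640) (@Lb.fp (nat_lit 9) t71))))))))))))
noncomputable def l30368 : Lb := (@Lb.r r21 (@Lb.d (nat_lit 645) (nat_lit 8) (nat_lit 130) (@Lb.g g8 (@Lb.g g10 (@Lb.g g11 (@Lb.r r1419 (@Lb.r r101 (@Lb.r r410 (@Lb.d (nat_lit 8) (nat_lit 149) (nat_lit 100) (@Lb.t (@Lb.fm (nat_lit 9) t2443)))))))))))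
noncomputable def l30369 : Lb := (@Lb.d (nat_lit 2) (nat_lit 258) (nat_lit 4) (@Lb.g g8 (@Lb.g g9 (@Lb.g g10 (@Lb.g g11 (@Lb.r r427 (@Lb.r r420 (@Lb.r r102 (@Lb.r r97 (@Lb.r r36 (@Lb.d (nat_lit 10) (nat_lit 90) (nat_lit 324) (@Lb.fm (nat_lit 9) t119))))))))))))
noncomputable def l30370 : Lb := (@Lb.r r21 (@Lb.d (nat_lit 129) (nat_lit 0) (nat_lit 4) (@Lb.g g8 (@Lb.g g10 (@Lb.g g11 (@Lb.r r1674 (@Lb.r r1125 (@Lb.r r1688 (@Lb.r r2635 (@Lb.d (nat_lit 361) (nat_lit 161) (nat_lit 618) (@Lb.t (@Lb.fm (nat_lit 9) t125))))))))))))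
noncomputable def l30371 : Lb := (@Lb.r r346 (@Lb.d (nat_lit 74) (nat_lit 288) (nat_lit 320) (@Lb.g g8 (@Lb.g g9 (@Lb.g g7 (@Lb.r r2152 (@Lb.r r1190 (@Lb.r r2705 (@Lb.d (nat_lit 0) (nat_lit 97) (nat_lit 321) (@Lb.t (@Lb.fp (nat_lit 9) t2317)))))))))))
noncomputable def l30372 : Lb := (@Lb.d (nat_lit 21) (nat_lit 10) (nat_lit 73) (@Lb.g g8 (@Lb.g g9 (@Lb.g g10 (@Lb.g g11 (@Lb.r r1667 (@Lb.r r154 (@Lb.r r1321 (@Lb.r r360 (@Lb.d (nat_lit 597) (nat_lit 154) (nat_lit 165) (@Lb.fp (nat_lit 9) t2317)))))))))))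
noncomputable def l30373 : Lb := (@Lb.r r70 (@Lb.d (nat_lit 137) (nat_lit 257) (nat_lit 64) (@Lb.g g8 (@Lb.g g9 (@Lb.g g11 (@Lb.r r2730 (@Lb.r r2451 (@Lb.r r2089 (@Lb.r r424 (@Lb.d (nat_lit 360) (nat_lit 105) (nat_lit 357) (@Lb.t (@Lb.fp (nat_lit 9) t874))))))))))))
noncomputable def l30374 : Lb := (@Lb.d (nat_lit 73) (nat_lit 545) (nat_lit 73) (@Lb.g g8 (@Lb.g g9 (@Lb.g g10 (@Lb.g g11 (@Lb.r r1667 (@Lb.r r2216 (@Lb.r r1610 (@Lb.r r2145 (@Lb.d (nat_lit 384) (nat_lit 24) (nat_lit 640) (@Lb.fm (nat_lit 9) t5490)))))))))))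
noncomputable def l30375 : Lb := (@Lb.d (nat_lit 657) (nat_lit 1) (nat_lit 6) (@Lb.r r20 (@Lb.r r2390 (@Lb.r r2731 (@Lb.g g6 (@Lb.g g5 (@Lb.d (nat_lit 8) (nat_lit 1) (nat_lit 1) (@Lb.fp (nat_lit 3) t743))))))))
noncomputable def l30376 : Lb := (@Lb.d (nat_lit 0) (nat_lit 256) (nat_lit 128) (@Lb.g g5 (@Lb.g g7 (@Lb.d (nat_lit 5) (nat_lit 1) (nat_lit 64) (@Lb.fm (nat_lit 3) t2)))))
noncomputable def l30377 : Lb := (@Lb.d (nat_lit 0) (nat_lit 4) (nat_lit 1) (@Lb.g g6 (@Lb.r r1427 (@Lb.r r24 (@Lb.d (nat_lit 613) (nat_lit 104) (nat_lit 326) (@Lb.t (@Lb.fp (nat_lit 3) t1994)))))))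
noncomputable def l30378 : Lb := (@Lb.r r323 (@Lb.d (nat_lit 36) (nat_lit 258) (nat_lit 2) (@Lb.g g8 (@Lb.g g9 (@Lb.g g10 (@Lb.r r1691 (@Lb.r r2210 (@Lb.r r2585 (@Lb.r r1556 (@Lb.d (nat_lit 33) (nat_lit 38) (nat_lit 416) (@Lb.t (@Lb.fm (nat_lit 9) t50))))))))))))
noncomputable def l30379 : Lb := (@Lb.d (nat_lit 0) (nat_lit 256) (nat_lit 70) (@Lb.g g10 (@Lb.g g11 (@Lb.r r1690 (@Lb.r r2459 (@Lb.r r24 (@Lb.d (nat_lit 98) (nat_lit 64) (nat_lit 162) (@Lb.fm (nat_lit 3) t282))))))))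
noncomputable def l30380 : Lb := (@Lb.r r323 (@Lb.d (nat_lit 166) (nat_lit 258) (nat_lit 2) (@Lb.g g8 (@Lb.g g9 (@Lb.g g10 (@Lb.r r2721 (@Lb.r r1319 (@Lb.r r644 (@Lb.r r1158 (@Lb.d (nat_lit 361) (nat_lit 132) (nat_lit 154) (@Lb.t (@Lb.fm (nat_lit 9) t50))))))))))))
noncomputable def l30381 : Lb := (@Lb.r r323 (@Lb.d (nat_lit 66) (nat_lit 521) (nat_lit 2) (@Lb.g g8 (@Lb.g g9 (@Lb.g g10 (@Lb.r r2473 (@Lb.r r1623 (@Lb.r r2390 (@Lb.r r1704 (@Lb.d (nat_lit 36) (nat_lit 150) (nat_lit 648) (@Lb.t (@Lb.fp (nat_lit 9) t981))))))))))))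
noncomputable def l30382 : Lb := (@Lb.d (nat_lit 2) (nat_lit 514) (nat_lit 73) (@Lb.g g8 (@Lb.g g9 (@Lb.g g10 (@Lb.g g11 (@Lb.r r2666 (@Lb.r r579 (@Lb.r r104 (@Lb.r r25 (@Lb.d (nat_lit 409) (nat_lit 9) (nat_lit 358) (@Lb.fp (nat_lit 9) t61)))))))))))
noncomputable def l30383 : Lb := (@Lb.d (nat_lit 4) (nat_lit 256) (nat_lit 73) (@Lb.g g8 (@Lb.g g9 (@Lb.g g10 (@Lb.g g11 (@Lb.r r2666 (@Lb.r r579 (@Lb.r r104 (@Lb.r r25 (@Lb.d (nat_lit 409) (nat_lit 9) (nat_lit 358) (@Lb.fp (nat_lit 9) t61)))))))))))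
noncomputable def l30384 : Lb := (@Lb.r r323 (@Lb.d (nat_lit 130) (nat_lit 514) (nat_lit 2) (@Lb.g g8 (@Lb.g g9 (@Lb.g g10 (@Lb.r r263 (@Lb.r r98 (@Lb.r r97 (@Lb.r r536 (@Lb.d (nat_lit 677) (nat_lit 160) (nat_lit 530) (@Lb.t (@Lb.fm (nat_lit 9) t1994))))))))))))
noncomputable def l30385 : Lb := (@Lb.r r323 (@Lb.d (nat_lit 16) (nat_lit 264) (nat_lit 2) (@Lb.g g10 (@Lb.r r404 (@Lb.r r619 (@Lb.r r537 (@Lb.d (nat_lit 280) (nat_lit 132) (nat_lit 613) (@Lb.t (@Lb.fm (nat_lit 3) t494)))))))))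
noncomputable def l30386 : Lb := (@Lb.d (nat_lit 0) (nat_lit 160) (nat_lit 640) (@Lb.r r1096 (@Lb.r r2137 (@Lb.r r1410 (@Lb.r r1607 (@Lb.g g8 (@Lb.r r74 (@Lb.t (@Lb.fm (nat_lit 3) t5491)))))))))
noncomputable def l30387 : Lb := (@Lb.d (nat_lit 324) (nat_lit 65) (nat_lit 74) (@Lb.r r289 (@Lb.r r2567 (@Lb.r r1368 (@Lb.r r2726 (@Lb.g g7 (@Lb.g g6 (@Lb.d (nat_lit 0) (nat_lit 0) (nat_lit 129) (@Lb.fm (nat_lit 3) t1260)))))))))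
noncomputable def l30388 : Lb := (@Lb.r r82 (@Lb.d (nat_lit 6) (nat_lit 0) (nat_lit 0) (@Lb.g g4 (@Lb.g g9 (@Lb.g g11 (@Lb.r r2138 (@Lb.r r1169 (@Lb.d (nat_lit 280) (nat_lit 138) (nat_lit 34) (@Lb.t (@Lb.fp (nat_lit 9) t108))))))))))
noncomputable def l30389 : Lb := (@Lb.r r263 (@Lb.d (nat_lit 36) (nat_lit 288) (nat_lit 1) (@Lb.g g8 (@Lb.g g9 (@Lb.g g10 (@Lb.r r1675 (@Lb.r r1194 (@Lb.r r1384 (@Lb.r r1369 (@Lb.d (nat_lit 584) (nat_lit 149) (nat_lit 336) (@Lb.t (@Lb.fp (nat_lit 9) t5492))))))))))))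
noncomputable def l30390 : Lb := (@Lb.g g9 (@Lb.g g6 (@Lb.r r2579 (@Lb.r r2341 (@Lb.r r1620 (@Lb.r r2442 (@Lb.d (nat_lit 321) (nat_lit 261) (nat_lit 1) (@Lb.fm (nat_lit 3) t3282))))))))
noncomputable def l30391 : Lb := (@Lb.d (nat_lit 32) (nat_lit 512) (nat_lit 137) (@Lb.g g9 (@Lb.g g10 (@Lb.g g11 (@Lb.r r2695 (@Lb.r r2341 (@Lb.r r1352 (@Lb.r r2710 (@Lb.d (nat_lit 677) (nat_lit 160) (nat_lit 98) (@Lb.t (@Lb.fm (nat_lit 9) t242)))))))))))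
noncomputable def l30392 : Lb := (@Lb.r r263 (@Lb.d (nat_lit 36) (nat_lit 32) (nat_lit 1) (@Lb.g g8 (@Lb.g g9 (@Lb.g g10 (@Lb.r r1675 (@Lb.r r1194 (@Lb.r r1384 (@Lb.r r1369 (@Lb.d (nat_lit 584) (nat_lit 154) (nat_lit 337) (@Lb.t (@Lb.fp (nat_lit 9) t3284))))))))))))
noncomputable def l30393 : Lb := (@Lb.d (nat_lit 4) (nat_lit 256) (nat_lit 137) (@Lb.g g8 (@Lb.g g9 (@Lb.g g10 (@Lb.g g11 (@Lb.r r1675 (@Lb.r r536 (@Lb.r r2197 (@Lb.r r2646 (@Lb.r r164 (@Lb.d (nat_lit 385) (nat_lit 138) (nat_lit 361) (@Lb.fp (nat_lit 9) t3245))))))))))))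
noncomputable def l30394 : Lb := (@Lb.d (nat_lit 34) (nat_lit 258) (nat_lit 136) (@Lb.g g8 (@Lb.g g9 (@Lb.g g10 (@Lb.g g11 (@Lb.r r683 (@Lb.r r1689 (@Lb.r r1688 (@Lb.r r602 (@Lb.d (nat_lit 105) (nat_lit 101) (nat_lit 280) (@Lb.fp (nat_lit 9) t1235)))))))))))
noncomputable def l30395 : Lb := (@Lb.d (nat_lit 2) (nat_lit 522) (nat_lit 8) (@Lb.g g8 (@Lb.g g9 (@Lb.g g11 (@Lb.r r1162 (@Lb.r r1188 (@Lb.r r1301 (@Lb.r r547 (@Lb.d (nat_lit 2) (nat_lit 66) (nat_lit 394) (@Lb.t (@Lb.fm (nat_lit 9) t643)))))))))))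
noncomputable def l30396 : Lb := (@Lb.d (nat_lit 2) (nat_lit 266) (nat_lit 128) (@Lb.g g8 (@Lb.g g9 (@Lb.g g11 (@Lb.r r1162 (@Lb.r r1188 (@Lb.r r2597 (@Lb.r r1315 (@Lb.d (nat_lit 2) (nat_lit 18) (nat_lit 330) (@Lb.t (@Lb.fm (nat_lit 9) t643)))))))))))
noncomputable def l30397 : Lb := (@Lb.d (nat_lit 16) (nat_lit 68) (nat_lit 260) (@Lb.r r1301 (@Lb.r r2210 (@Lb.r r1691 (@Lb.g g6 (@Lb.g g5 (@Lb.g g4 (@Lb.d (nat_lit 1) (nat_lit 6) (nat_lit 2) (@Lb.r r387 (@Lb.t (@Lb.fp (nat_lit 9) t4399)))))))))))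
noncomputable def l30398 : Lb := (@Lb.d (nat_lit 530) (nat_lit 261) (nat_lit 642) (@Lb.r r2321 (@Lb.r r70 (@Lb.r r1383 (@Lb.r r341 (@Lb.g g7 (@Lb.g g6 (@Lb.g g5 (@Lb.g g4 (@Lb.d (nat_lit 1) (nat_lit 2) (nat_lit 133) (@Lb.fp (nat_lit 9) t4544)))))))))))
noncomputable def l30399 : Lb := (@Lb.r r82 (@Lb.d (nat_lit 0) (nat_lit 17) (nat_lit 0) (@Lb.g g9 (@Lb.g g11 (@Lb.r r2467 (@Lb.r r386 (@Lb.r r165 (@Lb.d (nat_lit 549) (nat_lit 5) (nat_lit 16) (@Lb.fm (nat_lit 3) t5493)))))))))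
noncomputable def l30400 : Lb := (@Lb.d (nat_lit 128) (nat_lit 512) (nat_lit 128) (@Lb.g g7 (@Lb.r r1096 (@Lb.r r646 (@Lb.r r1443 (@Lb.r r281 (@Lb.d (nat_lit 276) (nat_lit 133) (nat_lit 33) (@Lb.t (@Lb.fm (nat_lit 3) t2260)))))))))
noncomputable def l30401 : Lb := (@Lb.d (nat_lit 4) (nat_lit 264) (nat_lit 0) (@Lb.g g8 (@Lb.g g9 (@Lb.r r1414 (@Lb.r r2395 (@Lb.r r545 (@Lb.r r2120 (@Lb.d (nat_lit 546) (nat_lit 16) (nat_lit 513) (@Lb.fp (nat_lit 3) t3071)))))))))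
noncomputable def l30402 : Lb := (@Lb.r r323 (@Lb.d (nat_lit 128) (nat_lit 6) (nat_lit 16) (@Lb.g g8 (@Lb.g g9 (@Lb.g g10 (@Lb.r r599 (@Lb.r r297 (@Lb.r r1060 (@Lb.d (nat_lit 649) (nat_lit 137) (nat_lit 150) (@Lb.t (@Lb.fm (nat_lit 9) t1700)))))))))))
noncomputable def l30403 : Lb := (@Lb.g g8 (@Lb.r r1446 (@Lb.r r1429 (@Lb.r r1643 (@Lb.r r1608 (@Lb.d (nat_lit 105) (nat_lit 512) (nat_lit 290) (@Lb.t (@Lb.fm (nat_lit 3) t282))))))))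
noncomputable def l30404 : Lb := (@Lb.d (nat_lit 0) (nat_lit 512) (nat_lit 136) (@Lb.g g11 (@Lb.r r405 (@Lb.r r2454 (@Lb.r r2411 (@Lb.r r1096 (@Lb.d (nat_lit 24) (nat_lit 2) (nat_lit 69) (@Lb.t (@Lb.fp (nat_lit 3) t421)))))))))
noncomputable def l30405 : Lb := (@Lb.r r21 (@Lb.d (nat_lit 146) (nat_lit 0) (nat_lit 74) (@Lb.g g8 (@Lb.g g10 (@Lb.g g11 (@Lb.r r1691 (@Lb.r r660 (@Lb.r r1174 (@Lb.r r97 (@Lb.d (nat_lit 9) (nat_lit 66) (nat_lit 394) (@Lb.t (@Lb.fp (nat_lit 9) t472))))))))))))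
noncomputable def l30406 : Lb := (@Lb.d (nat_lit 401) (nat_lit 409) (nat_lit 600) (@Lb.r r24 (@Lb.r r402 (@Lb.g g11 (@Lb.g g9 (@Lb.d (nat_lit 0) (nat_lit 10) (nat_lit 0) (@Lb.fm (nat_lit 3) t409)))))))
noncomputable def l30407 : Lb := (@Lb.d (nat_lit 257) (nat_lit 388) (nat_lit 137) (@Lb.r r405 (@Lb.r r2454 (@Lb.r r1096 (@Lb.r r1319 (@Lb.g g9 (@Lb.t (@Lb.fp (nat_lit 3) t421))))))))
noncomputable def l30408 : Lb := (@Lb.d (nat_lit 164) (nat_lit 64) (nat_lit 388) (@Lb.r r1094 (@Lb.r r2440 (@Lb.r r1367 (@Lb.r r2729 (@Lb.g g6 (@Lb.g g5 (@Lb.g g4 (@Lb.d (nat_lit 1) (nat_lit 1) (nat_lit 1) (@Lb.t (@Lb.fp (nat_lit 9) t4385)))))))))))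
noncomputable def l30409 : Lb := (@Lb.d (nat_lit 657) (nat_lit 293) (nat_lit 69) (@Lb.r r97 (@Lb.r r331 (@Lb.r r662 (@Lb.g g7 (@Lb.g g6 (@Lb.g g8 (@Lb.d (nat_lit 614) (nat_lit 0) (nat_lit 64) (@Lb.r r25 (@Lb.t (@Lb.fm (nat_lit 9) t4349)))))))))))
noncomputable def l30410 : Lb := (@Lb.d (nat_lit 10) (nat_lit 38) (nat_lit 128) (@Lb.g g8 (@Lb.g g9 (@Lb.g g10 (@Lb.g g11 (@Lb.r r674 (@Lb.r r2435 (@Lb.r r420 (@Lb.r r2197 (@Lb.r r1060 (@Lb.d (nat_lit 593) (nat_lit 162) (nat_lit 345) (@Lb.fm (nat_lit 9) t3984))))))))))))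
noncomputable def l30411 : Lb := (@Lb.d (nat_lit 133) (nat_lit 133) (nat_lit 353) (@Lb.r r2438 (@Lb.r r347 (@Lb.r r677 (@Lb.g g7 (@Lb.g g6 (@Lb.g g5 (@Lb.g g8 (@Lb.d (nat_lit 330) (nat_lit 0) (nat_lit 65) (@Lb.fm (nat_lit 9) t800))))))))))
noncomputable def l30412 : Lb := (@Lb.r r405 (@Lb.r r2454 (@Lb.r r2411 (@Lb.r r1124 (@Lb.d (nat_lit 517) (nat_lit 257) (nat_lit 528) (@Lb.fm (nat_lit 1) t2014))))))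
noncomputable def l30413 : Lb := (@Lb.d (nat_lit 2) (nat_lit 2) (nat_lit 73) (@Lb.g g8 (@Lb.g g9 (@Lb.g g10 (@Lb.g g11 (@Lb.r r610 (@Lb.r r579 (@Lb.r r1060 (@Lb.r r1125 (@Lb.d (nat_lit 677) (nat_lit 168) (nat_lit 16) (@Lb.fp (nat_lit 9) t1306)))))))))))
noncomputable def l30414 : Lb := (@Lb.r r405 (@Lb.r r2454 (@Lb.r r2411 (@Lb.r r1124 (@Lb.d (nat_lit 512) (nat_lit 512) (nat_lit 528) (@Lb.fm (nat_lit 1) t2014))))))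
noncomputable def l30415 : Lb := (@Lb.d (nat_lit 128) (nat_lit 512) (nat_lit 64) (@Lb.g g11 (@Lb.r r1572 (@Lb.r r2325 (@Lb.r r555 (@Lb.r r2178 (@Lb.d (nat_lit 68) (nat_lit 17) (nat_lit 640) (@Lb.t (@Lb.fp (nat_lit 3) t1495)))))))))
noncomputable def l30416 : Lb := (@Lb.r r2343 (@Lb.r r1096 (@Lb.r r2646 (@Lb.r r409 (@Lb.d (nat_lit 514) (nat_lit 584) (nat_lit 136) (@Lb.fm (nat_lit 1) t1456))))))
noncomputable def l30417 : Lb := (@Lb.d (nat_lit 41) (nat_lit 514) (nat_lit 330) (@Lb.r r1096 (@Lb.r r363 (@Lb.r r2646 (@Lb.r r409 (@Lb.g g11 (@Lb.t (@Lb.fm (nat_lit 3) t1456))))))))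
noncomputable def l30418 : Lb := (@Lb.d (nat_lit 660) (nat_lit 677) (nat_lit 341) (@Lb.r r2664 (@Lb.r r1430 (@Lb.g g7 (@Lb.g g5 (@Lb.g g4 (@Lb.d (nat_lit 17) (nat_lit 18) (nat_lit 64) (@Lb.r r578 (@Lb.t (@Lb.fp (nat_lit 9) t1087))))))))))
noncomputable def l30419 : Lb := (@Lb.d (nat_lit 662) (nat_lit 421) (nat_lit 341) (@Lb.r r2664 (@Lb.r r1430 (@Lb.g g7 (@Lb.g g5 (@Lb.g g4 (@Lb.d (nat_lit 24) (nat_lit 8) (nat_lit 4) (@Lb.r r578 (@Lb.t (@Lb.fp (nat_lit 9) t1097))))))))))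
noncomputable def l30420 : Lb := (@Lb.d (nat_lit 8) (nat_lit 2) (nat_lit 128) (@Lb.g g9 (@Lb.g g11 (@Lb.r r2471 (@Lb.r r1096 (@Lb.r r2646 (@Lb.r r409 (@Lb.d (nat_lit 521) (nat_lit 9) (nat_lit 18) (@Lb.fp (nat_lit 3) t1456)))))))))
noncomputable def l30421 : Lb := (@Lb.d (nat_lit 0) (nat_lit 0) (nat_lit 72) (@Lb.g g5 (@Lb.g g11 (@Lb.r r24 (@Lb.d (nat_lit 400) (nat_lit 88) (nat_lit 530) (@Lb.fm (nat_lit 3) t3766))))))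
noncomputable def l30422 : Lb := (@Lb.r r82 (@Lb.d (nat_lit 0) (nat_lit 290) (nat_lit 64) (@Lb.g g9 (@Lb.g g11 (@Lb.r r1575 (@Lb.r r386 (@Lb.r r1169 (@Lb.r r24 (@Lb.d (nat_lit 598) (nat_lit 153) (nat_lit 406) (@Lb.fp (nat_lit 3) t5494))))))))))
noncomputable def l30423 : Lb := (@Lb.d (nat_lit 8) (nat_lit 521) (nat_lit 73) (@Lb.g g9 (@Lb.g g10 (@Lb.g g11 (@Lb.r r1671 (@Lb.r r2376 (@Lb.r r1366 (@Lb.r r409 (@Lb.d (nat_lit 641) (nat_lit 128) (nat_lit 586) (@Lb.t (@Lb.fm (nat_lit 9) t4222)))))))))))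
noncomputable def l30424 : Lb := (@Lb.r r21 (@Lb.d (nat_lit 2) (nat_lit 256) (nat_lit 130) (@Lb.g g8 (@Lb.g g10 (@Lb.g g11 (@Lb.r r2379 (@Lb.r r386 (@Lb.r r149 (@Lb.r r72 (@Lb.d (nat_lit 552) (nat_lit 128) (nat_lit 136) (@Lb.t (@Lb.fm (nat_lit 9) t1350))))))))))))
noncomputable def l30425 : Lb := (@Lb.d (nat_lit 0) (nat_lit 256) (nat_lit 73) (@Lb.g g10 (@Lb.g g11 (@Lb.r r2691 (@Lb.r r1381 (@Lb.r r1178 (@Lb.r r2436 (@Lb.d (nat_lit 69) (nat_lit 161) (nat_lit 416) (@Lb.fp (nat_lit 3) t1866)))))))))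
noncomputable def l30426 : Lb := (@Lb.d (nat_lit 0) (nat_lit 9) (nat_lit 73) (@Lb.g g9 (@Lb.g g10 (@Lb.g g11 (@Lb.r r1671 (@Lb.r r2376 (@Lb.r r1158 (@Lb.r r97 (@Lb.d (nat_lit 288) (nat_lit 22) (nat_lit 336) (@Lb.t (@Lb.fm (nat_lit 9) t1549)))))))))))
noncomputable def l30427 : Lb := (@Lb.d (nat_lit 2) (nat_lit 33) (nat_lit 0) (@Lb.g g8 (@Lb.g g9 (@Lb.r r519 (@Lb.r r2178 (@Lb.r r664 (@Lb.r r2661 (@Lb.d (nat_lit 170) (nat_lit 4) (nat_lit 105) (@Lb.fm (nat_lit 3) t5495)))))))))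
noncomputable def l30428 : Lb := (@Lb.d (nat_lit 262) (nat_lit 64) (nat_lit 32) (@Lb.r r597 (@Lb.r r331 (@Lb.r r264 (@Lb.r r2122 (@Lb.g g7 (@Lb.d (nat_lit 64) (nat_lit 0) (nat_lit 64) (@Lb.t (@Lb.fp (nat_lit 3) t468)))))))))
noncomputable def l30429 : Lb := (@Lb.d (nat_lit 0) (nat_lit 521) (nat_lit 73) (@Lb.g g9 (@Lb.g g10 (@Lb.g g11 (@Lb.r r1671 (@Lb.r r2376 (@Lb.r r1158 (@Lb.r r97 (@Lb.d (nat_lit 289) (nat_lit 22) (nat_lit 336) (@Lb.t (@Lb.fm (nat_lit 9) t1549)))))))))))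
noncomputable def l30430 : Lb := (@Lb.d (nat_lit 38) (nat_lit 256) (nat_lit 130) (@Lb.g g8 (@Lb.g g9 (@Lb.g g10 (@Lb.g g11 (@Lb.r r1579 (@Lb.r r1410 (@Lb.r r2657 (@Lb.r r2200 (@Lb.d (nat_lit 537) (nat_lit 21) (nat_lit 649) (@Lb.fp (nat_lit 9) t2210)))))))))))
noncomputable def l30431 : Lb := (@Lb.d (nat_lit 261) (nat_lit 160) (nat_lit 0) (@Lb.r r2631 (@Lb.r r402 (@Lb.g g5 (@Lb.d (nat_lit 4) (nat_lit 1) (nat_lit 0) (@Lb.t (@Lb.fm (nat_lit 3) t4956)))))))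
noncomputable def l30432 : Lb := (@Lb.r r1284 (@Lb.d (nat_lit 0) (nat_lit 521) (nat_lit 129) (@Lb.g g9 (@Lb.g g10 (@Lb.g g11 (@Lb.r r2726 (@Lb.r r1411 (@Lb.r r1553 (@Lb.d (nat_lit 357) (nat_lit 96) (nat_lit 346) (@Lb.t (@Lb.fp (nat_lit 9) t856)))))))))))
noncomputable def l30433 : Lb := (@Lb.r r2631 (@Lb.r r402 (@Lb.r r101 (@Lb.d (nat_lit 262) (nat_lit 0) (nat_lit 0) (@Lb.fm (nat_lit 1) t5496)))))
noncomputable def l30434 : Lb := (@Lb.d (nat_lit 0) (nat_lit 512) (nat_lit 68) (@Lb.g g10 (@Lb.g g7 (@Lb.r r1418 (@Lb.d (nat_lit 18) (nat_lit 0) (nat_lit 98) (@Lb.fm (nat_lit 3) t3062))))))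
noncomputable def l30435 : Lb := (@Lb.r r322 (@Lb.d (nat_lit 4) (nat_lit 1) (nat_lit 512) (@Lb.g g5 (@Lb.g g7 (@Lb.r r1638 (@Lb.r r24 (@Lb.d (nat_lit 576) (nat_lit 1) (nat_lit 0) (@Lb.fp (nat_lit 3) t282))))))))
noncomputable def l30436 : Lb := (@Lb.d (nat_lit 10) (nat_lit 266) (nat_lit 0) (@Lb.g g8 (@Lb.g g9 (@Lb.r r1707 (@Lb.r r82 (@Lb.r r161 (@Lb.r r1608 (@Lb.d (nat_lit 105) (nat_lit 6) (nat_lit 537) (@Lb.fp (nat_lit 3) t1165)))))))))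
noncomputable def l30437 : Lb := (@Lb.r r21 (@Lb.d (nat_lit 536) (nat_lit 256) (nat_lit 128) (@Lb.g g8 (@Lb.g g10 (@Lb.g g11 (@Lb.r r1381 (@Lb.r r1683 (@Lb.r r1602 (@Lb.d (nat_lit 2) (nat_lit 10) (nat_lit 665) (@Lb.t (@Lb.fm (nat_lit 9) t644)))))))))))
noncomputable def l30438 : Lb := (@Lb.d (nat_lit 2) (nat_lit 258) (nat_lit 130) (@Lb.g g8 (@Lb.g g9 (@Lb.g g10 (@Lb.g g11 (@Lb.r r425 (@Lb.r r599 (@Lb.r r1366 (@Lb.r r1124 (@Lb.d (nat_lit 578) (nat_lit 10) (nat_lit 673) (@Lb.fp (nat_lit 9) t5497)))))))))))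
noncomputable def l30439 : Lb := (@Lb.d (nat_lit 38) (nat_lit 266) (nat_lit 128) (@Lb.g g8 (@Lb.g g9 (@Lb.g g11 (@Lb.r r326 (@Lb.r r387 (@Lb.r r2580 (@Lb.r r25 (@Lb.d (nat_lit 74) (nat_lit 161) (nat_lit 425) (@Lb.t (@Lb.fm (nat_lit 9) t1558)))))))))))
noncomputable def l30440 : Lb := (@Lb.r r82 (@Lb.d (nat_lit 0) (nat_lit 264) (nat_lit 128) (@Lb.g g9 (@Lb.g g11 (@Lb.r r1370 (@Lb.r r387 (@Lb.r r1304 (@Lb.r r2661 (@Lb.d (nat_lit 666) (nat_lit 24) (nat_lit 132) (@Lb.fm (nat_lit 3) t5405))))))))))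
noncomputable def l30441 : Lb := (@Lb.r r82 (@Lb.d (nat_lit 133) (nat_lit 0) (nat_lit 128) (@Lb.g g8 (@Lb.g g9 (@Lb.g g11 (@Lb.r r1561 (@Lb.r r2584 (@Lb.r r395 (@Lb.r r386 (@Lb.d (nat_lit 598) (nat_lit 134) (nat_lit 528) (@Lb.t (@Lb.fm (nat_lit 9) t442))))))))))))
noncomputable def l30442 : Lb := (@Lb.d (nat_lit 130) (nat_lit 258) (nat_lit 2) (@Lb.g g8 (@Lb.g g9 (@Lb.g g10 (@Lb.r r1699 (@Lb.r r1194 (@Lb.r r1553 (@Lb.r r392 (@Lb.d (nat_lit 153) (nat_lit 97) (nat_lit 586) (@Lb.t (@Lb.fp (nat_lit 9) t51)))))))))))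
noncomputable def l30443 : Lb := (@Lb.d (nat_lit 106) (nat_lit 276) (nat_lit 576) (@Lb.r r533 (@Lb.r r2178 (@Lb.r r1303 (@Lb.g g9 (@Lb.g g4 (@Lb.d (nat_lit 288) (nat_lit 17) (nat_lit 0) (@Lb.fm (nat_lit 3) t5498))))))))
noncomputable def l30444 : Lb := (@Lb.d (nat_lit 10) (nat_lit 256) (nat_lit 128) (@Lb.g g8 (@Lb.g g10 (@Lb.g g11 (@Lb.r r1637 (@Lb.r r2407 (@Lb.r r2390 (@Lb.r r1608 (@Lb.d (nat_lit 360) (nat_lit 2) (nat_lit 530) (@Lb.t (@Lb.fm (nat_lit 9) t426)))))))))))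
noncomputable def l30445 : Lb := (@Lb.d (nat_lit 4) (nat_lit 36) (nat_lit 74) (@Lb.g g8 (@Lb.g g9 (@Lb.g g10 (@Lb.g g11 (@Lb.r r387 (@Lb.r r1690 (@Lb.r r1561 (@Lb.r r1608 (@Lb.d (nat_lit 676) (nat_lit 26) (nat_lit 386) (@Lb.fp (nat_lit 9) t2605)))))))))))
noncomputable def l30446 : Lb := (@Lb.d (nat_lit 4) (nat_lit 550) (nat_lit 74) (@Lb.g g8 (@Lb.g g9 (@Lb.g g10 (@Lb.g g11 (@Lb.r r1707 (@Lb.r r1386 (@Lb.r r2585 (@Lb.d (nat_lit 322) (nat_lit 10) (nat_lit 549) (@Lb.fm (nat_lit 9) t4149))))))))))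
noncomputable def l30447 : Lb := (@Lb.d (nat_lit 578) (nat_lit 281) (nat_lit 408) (@Lb.r r2068 (@Lb.r r409 (@Lb.r r20 (@Lb.r r2723 (@Lb.g g7 (@Lb.g g10 (@Lb.g g5 (@Lb.g g4 (@Lb.d (nat_lit 102) (nat_lit 38) (nat_lit 68) (@Lb.fp (nat_lit 9) t445)))))))))))
noncomputable def l30448 : Lb := (@Lb.d (nat_lit 353) (nat_lit 580) (nat_lit 388) (@Lb.r r2068 (@Lb.r r281 (@Lb.r r615 (@Lb.r r276 (@Lb.g g7 (@Lb.g g10 (@Lb.g g5 (@Lb.g g4 (@Lb.d (nat_lit 6) (nat_lit 1) (nat_lit 81) (@Lb.fp (nat_lit 9) t1183)))))))))))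
noncomputable def l30449 : Lb := (@Lb.d (nat_lit 2) (nat_lit 264) (nat_lit 130) (@Lb.g g8 (@Lb.g g10 (@Lb.g g11 (@Lb.r r353 (@Lb.r r2707 (@Lb.r r662 (@Lb.r r2120 (@Lb.d (nat_lit 344) (nat_lit 166) (nat_lit 294) (@Lb.t (@Lb.fm (nat_lit 9) t3316)))))))))))
noncomputable def l30450 : Lb := (@Lb.d (nat_lit 130) (nat_lit 289) (nat_lit 0) (@Lb.g g8 (@Lb.g g9 (@Lb.r r2579 (@Lb.r r2178 (@Lb.r r1429 (@Lb.r r104 (@Lb.d (nat_lit 404) (nat_lit 5) (nat_lit 576) (@Lb.fp (nat_lit 3) t124)))))))))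
noncomputable def l30451 : Lb := (@Lb.d (nat_lit 0) (nat_lit 288) (nat_lit 64) (@Lb.g g8 (@Lb.g g11 (@Lb.r r166 (@Lb.r r149 (@Lb.r r360 (@Lb.r r2567 (@Lb.d (nat_lit 642) (nat_lit 138) (nat_lit 642) (@Lb.fp (nat_lit 3) t334)))))))))
noncomputable def l30452 : Lb := (@Lb.d (nat_lit 402) (nat_lit 256) (nat_lit 6) (@Lb.r r1633 (@Lb.r r2390 (@Lb.r r2731 (@Lb.g g5 (@Lb.g g4 (@Lb.d (nat_lit 553) (nat_lit 0) (nat_lit 0) (@Lb.r r98 (@Lb.fm (nat_lit 3) t167)))))))))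
noncomputable def l30453 : Lb := (@Lb.d (nat_lit 0) (nat_lit 512) (nat_lit 2) (@Lb.g g8 (@Lb.g g10 (@Lb.g g7 (@Lb.r r386 (@Lb.r r2145 (@Lb.r r2120 (@Lb.d (nat_lit 610) (nat_lit 0) (nat_lit 617) (@Lb.t (@Lb.fm (nat_lit 9) t166))))))))))
noncomputable def l30454 : Lb := (@Lb.r r70 (@Lb.d (nat_lit 162) (nat_lit 522) (nat_lit 64) (@Lb.g g8 (@Lb.g g9 (@Lb.g g11 (@Lb.r r2666 (@Lb.r r2395 (@Lb.r r2597 (@Lb.r r660 (@Lb.d (nat_lit 533) (nat_lit 96) (nat_lit 660) (@Lb.t (@Lb.fp (nat_lit 9) t329))))))))))))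
noncomputable def l30455 : Lb := (@Lb.d (nat_lit 132) (nat_lit 2) (nat_lit 130) (@Lb.g g8 (@Lb.g g9 (@Lb.g g10 (@Lb.g g11 (@Lb.r r618 (@Lb.r r612 (@Lb.r r1319 (@Lb.r r405 (@Lb.r r36 (@Lb.d (nat_lit 98) (nat_lit 9) (nat_lit 409) (@Lb.fp (nat_lit 9) t5251))))))))))))
noncomputable def l30456 : Lb := (@Lb.r r323 (@Lb.d (nat_lit 102) (nat_lit 512) (nat_lit 2) (@Lb.g g8 (@Lb.g g9 (@Lb.g g10 (@Lb.r r2583 (@Lb.r r2325 (@Lb.r r1704 (@Lb.r r586 (@Lb.d (nat_lit 356) (nat_lit 146) (nat_lit 420) (@Lb.t (@Lb.fm (nat_lit 9) t5499))))))))))))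
noncomputable def l30457 : Lb := (@Lb.r r263 (@Lb.d (nat_lit 4) (nat_lit 266) (nat_lit 2) (@Lb.g g8 (@Lb.g g9 (@Lb.g g10 (@Lb.r r2443 (@Lb.r r2201 (@Lb.r r2180 (@Lb.d (nat_lit 9) (nat_lit 10) (nat_lit 17) (@Lb.t (@Lb.fm (nat_lit 9) t4368)))))))))))
noncomputable def l30458 : Lb := (@Lb.d (nat_lit 4) (nat_lit 266) (nat_lit 130) (@Lb.g g8 (@Lb.g g9 (@Lb.g g10 (@Lb.g g11 (@Lb.r r387 (@Lb.r r2585 (@Lb.r r2564 (@Lb.d (nat_lit 9) (nat_lit 0) (nat_lit 393) (@Lb.fp (nat_lit 9) t5500))))))))))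
noncomputable def l30459 : Lb := (@Lb.r r263 (@Lb.d (nat_lit 4) (nat_lit 522) (nat_lit 2) (@Lb.g g8 (@Lb.g g9 (@Lb.g g10 (@Lb.r r2443 (@Lb.r r2201 (@Lb.r r2180 (@Lb.d (nat_lit 9) (nat_lit 10) (nat_lit 152) (@Lb.t (@Lb.fm (nat_lit 9) t3865)))))))))))
noncomputable def l30460 : Lb := (@Lb.d (nat_lit 393) (nat_lit 656) (nat_lit 321) (@Lb.r r37 (@Lb.r r2324 (@Lb.r r323 (@Lb.g g6 (@Lb.g g5 (@Lb.g g4 (@Lb.d (nat_lit 5) (nat_lit 2) (nat_lit 42) (@Lb.r r387 (@Lb.t (@Lb.fm (nat_lit 9) t2685)))))))))))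
noncomputable def l30461 : Lb := (@Lb.d (nat_lit 2) (nat_lit 258) (nat_lit 66) (@Lb.g g8 (@Lb.g g9 (@Lb.g g10 (@Lb.g g7 (@Lb.r r386 (@Lb.r r25 (@Lb.d (nat_lit 4) (nat_lit 9) (nat_lit 25) (@Lb.fp (nat_lit 9) t21)))))))))
noncomputable def l30462 : Lb := (@Lb.d (nat_lit 66) (nat_lit 261) (nat_lit 422) (@Lb.r r2370 (@Lb.r r1683 (@Lb.r r2389 (@Lb.g g7 (@Lb.g g6 (@Lb.g g5 (@Lb.g g4 (@Lb.d (nat_lit 293) (nat_lit 1) (nat_lit 133) (@Lb.fm (nat_lit 9) t5501))))))))))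
noncomputable def l30463 : Lb := (@Lb.r r263 (@Lb.d (nat_lit 2) (nat_lit 2) (nat_lit 2) (@Lb.g g8 (@Lb.g g9 (@Lb.g g10 (@Lb.r r1626 (@Lb.r r1635 (@Lb.r r97 (@Lb.r r1048 (@Lb.d (nat_lit 165) (nat_lit 106) (nat_lit 601) (@Lb.t (@Lb.fp (nat_lit 9) t4341))))))))))))
noncomputable def l30464 : Lb := (@Lb.d (nat_lit 2) (nat_lit 512) (nat_lit 128) (@Lb.g g8 (@Lb.g g11 (@Lb.r r408 (@Lb.r r295 (@Lb.r r516 (@Lb.d (nat_lit 360) (nat_lit 165) (nat_lit 682) (@Lb.fp (nat_lit 3) t5502))))))))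
noncomputable def l30465 : Lb := (@Lb.d (nat_lit 0) (nat_lit 640) (nat_lit 16) (@Lb.r r37 (@Lb.r r88 (@Lb.r r1355 (@Lb.g g10 (@Lb.d (nat_lit 0) (nat_lit 0) (nat_lit 18) (@Lb.r r387 (@Lb.r r145 (@Lb.t (@Lb.fp (nat_lit 3) t5503))))))))))
noncomputable def l30466 : Lb := (@Lb.d (nat_lit 5) (nat_lit 385) (nat_lit 16) (@Lb.r r37 (@Lb.r r88 (@Lb.r r1355 (@Lb.g g10 (@Lb.d (nat_lit 0) (nat_lit 0) (nat_lit 18) (@Lb.r r387 (@Lb.r r145 (@Lb.t (@Lb.fp (nat_lit 3) t5503))))))))))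
noncomputable def l30467 : Lb := (@Lb.d (nat_lit 2) (nat_lit 288) (nat_lit 130) (@Lb.g g8 (@Lb.g g10 (@Lb.g g11 (@Lb.r r1618 (@Lb.r r401 (@Lb.r r2659 (@Lb.d (nat_lit 322) (nat_lit 153) (nat_lit 34) (@Lb.t (@Lb.fp (nat_lit 9) t271))))))))))
noncomputable def l30468 : Lb := (@Lb.d (nat_lit 6) (nat_lit 402) (nat_lit 389) (@Lb.r r21 (@Lb.r r579 (@Lb.r r1366 (@Lb.g g7 (@Lb.g g6 (@Lb.g g5 (@Lb.g g4 (@Lb.d (nat_lit 0) (nat_lit 1) (nat_lit 65) (@Lb.fm (nat_lit 9) t319))))))))))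
noncomputable def l30469 : Lb := (@Lb.r r21 (@Lb.r r263 (@Lb.d (nat_lit 0) (nat_lit 264) (nat_lit 18) (@Lb.g g8 (@Lb.g g10 (@Lb.r r2459 (@Lb.r r2196 (@Lb.r r25 (@Lb.d (nat_lit 536) (nat_lit 137) (nat_lit 18) (@Lb.fm (nat_lit 3) t5504))))))))))
noncomputable def l30470 : Lb := (@Lb.d (nat_lit 0) (nat_lit 520) (nat_lit 2) (@Lb.g g10 (@Lb.r r1427 (@Lb.r r101 (@Lb.d (nat_lit 536) (nat_lit 73) (nat_lit 34) (@Lb.t (@Lb.fm (nat_lit 3) t2216)))))))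
noncomputable def l30471 : Lb := (@Lb.d (nat_lit 4) (nat_lit 257) (nat_lit 70) (@Lb.g g5 (@Lb.g g10 (@Lb.g g11 (@Lb.r r1690 (@Lb.r r2459 (@Lb.r r24 (@Lb.d (nat_lit 98) (nat_lit 1) (nat_lit 162) (@Lb.t (@Lb.fp (nat_lit 9) t282))))))))))
noncomputable def l30472 : Lb := (@Lb.g g11 (@Lb.r r1346 (@Lb.r r387 (@Lb.d (nat_lit 0) (nat_lit 420) (nat_lit 16) (@Lb.t (@Lb.fp (nat_lit 3) t1119))))))
noncomputable def l30473 : Lb := (@Lb.d (nat_lit 8) (nat_lit 514) (nat_lit 73) (@Lb.g g9 (@Lb.g g10 (@Lb.g g11 (@Lb.r r1130 (@Lb.r r24 (@Lb.r r1685 (@Lb.r r1427 (@Lb.d (nat_lit 545) (nat_lit 165) (nat_lit 4) (@Lb.t (@Lb.fp (nat_lit 9) t1741)))))))))))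
noncomputable def l30474 : Lb := (@Lb.r r323 (@Lb.d (nat_lit 0) (nat_lit 32) (nat_lit 2) (@Lb.g g9 (@Lb.g g10 (@Lb.r r283 (@Lb.r r344 (@Lb.r r166 (@Lb.r r165 (@Lb.d (nat_lit 41) (nat_lit 5) (nat_lit 2) (@Lb.fp (nat_lit 3) t2))))))))))
noncomputable def l30475 : Lb := (@Lb.r r323 (@Lb.d (nat_lit 1) (nat_lit 288) (nat_lit 2) (@Lb.g g8 (@Lb.g g9 (@Lb.g g10 (@Lb.r r279 (@Lb.r r676 (@Lb.r r166 (@Lb.r r165 (@Lb.d (nat_lit 41) (nat_lit 5) (nat_lit 137) (@Lb.t (@Lb.fm (nat_lit 9) t2))))))))))))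
noncomputable def l30476 : Lb := (@Lb.g g7 (@Lb.r r402 (@Lb.r r101 (@Lb.d (nat_lit 512) (nat_lit 128) (nat_lit 512) (@Lb.t (@Lb.fm (nat_lit 3) t1618))))))
noncomputable def l30477 : Lb := (@Lb.d (nat_lit 2) (nat_lit 514) (nat_lit 130) (@Lb.g g8 (@Lb.g g9 (@Lb.g g10 (@Lb.g g11 (@Lb.r r2411 (@Lb.r r386 (@Lb.r r97 (@Lb.d (nat_lit 292) (nat_lit 74) (nat_lit 136) (@Lb.fp (nat_lit 9) t1231))))))))))
noncomputable def l30478 : Lb := (@Lb.d (nat_lit 32) (nat_lit 2) (nat_lit 73) (@Lb.g g8 (@Lb.g g9 (@Lb.g g10 (@Lb.g g11 (@Lb.r r407 (@Lb.r r618 (@Lb.r r553 (@Lb.r r532 (@Lb.d (nat_lit 129) (nat_lit 40) (nat_lit 74) (@Lb.fm (nat_lit 9) t5505)))))))))))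
noncomputable def l30479 : Lb := (@Lb.d (nat_lit 402) (nat_lit 325) (nat_lit 532) (@Lb.r r24 (@Lb.r r21 (@Lb.r r386 (@Lb.r r343 (@Lb.g g6 (@Lb.g g5 (@Lb.g g4 (@Lb.d (nat_lit 1) (nat_lit 1) (nat_lit 1) (@Lb.t (@Lb.fp (nat_lit 9) t5506)))))))))))
noncomputable def l30480 : Lb := (@Lb.d (nat_lit 401) (nat_lit 581) (nat_lit 532) (@Lb.r r24 (@Lb.r r21 (@Lb.r r386 (@Lb.r r343 (@Lb.g g6 (@Lb.g g5 (@Lb.g g4 (@Lb.d (nat_lit 1) (nat_lit 1) (nat_lit 1) (@Lb.t (@Lb.fp (nat_lit 9) t5506)))))))))))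
noncomputable def l30481 : Lb := (@Lb.r r82 (@Lb.d (nat_lit 130) (nat_lit 2) (nat_lit 64) (@Lb.g g8 (@Lb.g g9 (@Lb.g g11 (@Lb.r r1443 (@Lb.r r2438 (@Lb.r r2449 (@Lb.r r1636 (@Lb.d (nat_lit 673) (nat_lit 40) (nat_lit 393) (@Lb.t (@Lb.fp (nat_lit 9) t3442))))))))))))
noncomputable def l30482 : Lb := (@Lb.r r1045 (@Lb.r r1094 (@Lb.d (nat_lit 0) (nat_lit 0) (nat_lit 136) (@Lb.g g8 (@Lb.g g11 (@Lb.r r584 (@Lb.d (nat_lit 98) (nat_lit 0) (nat_lit 665) (@Lb.fp (nat_lit 3) t367))))))))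
noncomputable def l30483 : Lb := (@Lb.d (nat_lit 26) (nat_lit 41) (nat_lit 72) (@Lb.r r273 (@Lb.r r363 (@Lb.r r264 (@Lb.g g7 (@Lb.g g10 (@Lb.g g5 (@Lb.d (nat_lit 80) (nat_lit 1) (nat_lit 65) (@Lb.r r36 (@Lb.t (@Lb.fp (nat_lit 9) t607)))))))))))
noncomputable def l30484 : Lb := (@Lb.d (nat_lit 0) (nat_lit 0) (nat_lit 128) (@Lb.g g11 (@Lb.r r602 (@Lb.r r584 (@Lb.r r619 (@Lb.r r609 (@Lb.d (nat_lit 517) (nat_lit 1) (nat_lit 613) (@Lb.t (@Lb.fm (nat_lit 3) t988)))))))))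
noncomputable def l30485 : Lb := (@Lb.d (nat_lit 2) (nat_lit 514) (nat_lit 0) (@Lb.g g8 (@Lb.g g9 (@Lb.r r25 (@Lb.r r24 (@Lb.d (nat_lit 9) (nat_lit 64) (nat_lit 64) (@Lb.fp (nat_lit 3) t2)))))))
noncomputable def l30486 : Lb := (@Lb.d (nat_lit 20) (nat_lit 64) (nat_lit 601) (@Lb.r r24 (@Lb.r r1435 (@Lb.r r2458 (@Lb.r r597 (@Lb.g g7 (@Lb.d (nat_lit 0) (nat_lit 16) (nat_lit 68) (@Lb.t (@Lb.fm (nat_lit 3) t386)))))))))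
noncomputable def l30487 : Lb := (@Lb.r r21 (@Lb.d (nat_lit 656) (nat_lit 0) (nat_lit 128) (@Lb.g g4 (@Lb.g g10 (@Lb.g g11 (@Lb.r r519 (@Lb.r r402 (@Lb.r r97 (@Lb.d (nat_lit 386) (nat_lit 162) (nat_lit 64) (@Lb.t (@Lb.fm (nat_lit 9) t1702)))))))))))
noncomputable def l30488 : Lb := (@Lb.d (nat_lit 2) (nat_lit 514) (nat_lit 64) (@Lb.g g8 (@Lb.g g9 (@Lb.g g7 (@Lb.r r598 (@Lb.r r2457 (@Lb.r r2436 (@Lb.d (nat_lit 617) (nat_lit 64) (nat_lit 354) (@Lb.t (@Lb.fp (nat_lit 9) t918))))))))))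
noncomputable def l30489 : Lb := (@Lb.r r21 (@Lb.d (nat_lit 145) (nat_lit 512) (nat_lit 74) (@Lb.g g8 (@Lb.g g10 (@Lb.g g11 (@Lb.r r1691 (@Lb.r r660 (@Lb.r r1174 (@Lb.r r97 (@Lb.d (nat_lit 8) (nat_lit 66) (nat_lit 394) (@Lb.t (@Lb.fp (nat_lit 9) t1666))))))))))))
noncomputable def l30490 : Lb := (@Lb.r r21 (@Lb.d (nat_lit 1) (nat_lit 512) (nat_lit 2) (@Lb.g g8 (@Lb.g g10 (@Lb.g g11 (@Lb.r r1691 (@Lb.r r1684 (@Lb.r r150 (@Lb.r r97 (@Lb.d (nat_lit 5) (nat_lit 129) (nat_lit 682) (@Lb.t (@Lb.fp (nat_lit 9) t51))))))))))))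
noncomputable def l30491 : Lb := (@Lb.d (nat_lit 4) (nat_lit 514) (nat_lit 137) (@Lb.g g8 (@Lb.g g9 (@Lb.g g10 (@Lb.g g11 (@Lb.r r618 (@Lb.r r579 (@Lb.r r1121 (@Lb.r r24 (@Lb.d (nat_lit 153) (nat_lit 137) (nat_lit 342) (@Lb.fm (nat_lit 9) t61)))))))))))
noncomputable def l30492 : Lb := (@Lb.d (nat_lit 2) (nat_lit 514) (nat_lit 0) (@Lb.g g8 (@Lb.g g9 (@Lb.r r2411 (@Lb.r r598 (@Lb.r r2457 (@Lb.r r2436 (@Lb.d (nat_lit 617) (nat_lit 64) (nat_lit 554) (@Lb.fm (nat_lit 3) t2131)))))))))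
noncomputable def l30493 : Lb := (@Lb.r r81 (@Lb.d (nat_lit 16) (nat_lit 264) (nat_lit 24) (@Lb.g g8 (@Lb.g g10 (@Lb.r r101 (@Lb.r r152 (@Lb.d (nat_lit 584) (nat_lit 10) (nat_lit 641) (@Lb.fm (nat_lit 3) t4))))))))
noncomputable def l30494 : Lb := (@Lb.d (nat_lit 585) (nat_lit 352) (nat_lit 386) (@Lb.r r101 (@Lb.r r2403 (@Lb.g g10 (@Lb.d (nat_lit 0) (nat_lit 8) (nat_lit 2) (@Lb.t (@Lb.fm (nat_lit 3) t2307)))))))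
noncomputable def l30495 : Lb := (@Lb.d (nat_lit 2) (nat_lit 513) (nat_lit 130) (@Lb.g g8 (@Lb.g g9 (@Lb.g g10 (@Lb.g g11 (@Lb.r r2459 (@Lb.r r1121 (@Lb.r r356 (@Lb.r r154 (@Lb.r r132 (@Lb.d (nat_lit 10) (nat_lit 9) (nat_lit 153) (@Lb.fp (nat_lit 9) t221))))))))))))
noncomputable def l30496 : Lb := (@Lb.d (nat_lit 8) (nat_lit 514) (nat_lit 130) (@Lb.g g9 (@Lb.g g10 (@Lb.g g11 (@Lb.r r419 (@Lb.r r2150 (@Lb.r r24 (@Lb.r r1317 (@Lb.d (nat_lit 617) (nat_lit 152) (nat_lit 609) (@Lb.t (@Lb.fm (nat_lit 9) t1089)))))))))))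
noncomputable def l30497 : Lb := (@Lb.d (nat_lit 134) (nat_lit 289) (nat_lit 266) (@Lb.r r2178 (@Lb.r r555 (@Lb.r r1561 (@Lb.r r2324 (@Lb.g g7 (@Lb.d (nat_lit 64) (nat_lit 0) (nat_lit 128) (@Lb.t (@Lb.fm (nat_lit 3) t1222)))))))))
noncomputable def l30498 : Lb := (@Lb.d (nat_lit 1) (nat_lit 2) (nat_lit 0) (@Lb.g g8 (@Lb.g g9 (@Lb.r r322 (@Lb.r r1667 (@Lb.r r578 (@Lb.r r25 (@Lb.d (nat_lit 9) (nat_lit 146) (nat_lit 266) (@Lb.fp (nat_lit 3) t210)))))))))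
noncomputable def l30499 : Lb := (@Lb.d (nat_lit 641) (nat_lit 512) (nat_lit 0) (@Lb.g g4 (@Lb.r r273 (@Lb.r r2595 (@Lb.r r2178 (@Lb.r r529 (@Lb.d (nat_lit 1) (nat_lit 138) (nat_lit 2) (@Lb.t (@Lb.fm (nat_lit 3) t1222)))))))))
noncomputable def l30500 : Lb := (@Lb.r r70 (@Lb.d (nat_lit 2) (nat_lit 2) (nat_lit 128) (@Lb.g g8 (@Lb.g g9 (@Lb.g g11 (@Lb.r r1611 (@Lb.r r418 (@Lb.r r145 (@Lb.r r1060 (@Lb.d (nat_lit 325) (nat_lit 65) (nat_lit 608) (@Lb.t (@Lb.fm (nat_lit 9) t98))))))))))))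
noncomputable def l30501 : Lb := (@Lb.d (nat_lit 146) (nat_lit 282) (nat_lit 73) (@Lb.g g8 (@Lb.g g9 (@Lb.g g10 (@Lb.g g11 (@Lb.r r2666 (@Lb.r r2337 (@Lb.r r1624 (@Lb.r r283 (@Lb.d (nat_lit 73) (nat_lit 1) (nat_lit 602) (@Lb.fp (nat_lit 9) t1810)))))))))))
noncomputable def l30502 : Lb := (@Lb.d (nat_lit 137) (nat_lit 1) (nat_lit 66) (@Lb.g g8 (@Lb.g g9 (@Lb.g g10 (@Lb.g g11 (@Lb.r r2666 (@Lb.r r612 (@Lb.r r1623 (@Lb.r r297 (@Lb.r r2084 (@Lb.d (nat_lit 393) (nat_lit 137) (nat_lit 530) (@Lb.fp (nat_lit 9) t2350))))))))))))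
noncomputable def l30503 : Lb := (@Lb.d (nat_lit 393) (nat_lit 418) (nat_lit 576) (@Lb.r r2600 (@Lb.r r2666 (@Lb.r r1559 (@Lb.g g7 (@Lb.g g5 (@Lb.g g4 (@Lb.d (nat_lit 132) (nat_lit 130) (nat_lit 0) (@Lb.r r74 (@Lb.t (@Lb.fp (nat_lit 9) t68)))))))))))
noncomputable def l30504 : Lb := (@Lb.d (nat_lit 16) (nat_lit 514) (nat_lit 74) (@Lb.g g8 (@Lb.g g9 (@Lb.g g10 (@Lb.g g11 (@Lb.r r2723 (@Lb.r r596 (@Lb.r r2730 (@Lb.r r169 (@Lb.r r164 (@Lb.d (nat_lit 584) (nat_lit 161) (nat_lit 90) (@Lb.fm (nat_lit 9) t502))))))))))))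
noncomputable def l30505 : Lb := (@Lb.d (nat_lit 0) (nat_lit 10) (nat_lit 0) (@Lb.g g8 (@Lb.g g9 (@Lb.r r402 (@Lb.r r2436 (@Lb.d (nat_lit 608) (nat_lit 2) (nat_lit 325) (@Lb.fp (nat_lit 3) t590)))))))
noncomputable def l30506 : Lb := (@Lb.d (nat_lit 9) (nat_lit 513) (nat_lit 130) (@Lb.g g8 (@Lb.g g9 (@Lb.g g10 (@Lb.g g11 (@Lb.r r1689 (@Lb.r r1431 (@Lb.r r1350 (@Lb.r r1544 (@Lb.d (nat_lit 417) (nat_lit 0) (nat_lit 290) (@Lb.fm (nat_lit 9) t145)))))))))))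
noncomputable def l30507 : Lb := (@Lb.d (nat_lit 9) (nat_lit 1) (nat_lit 130) (@Lb.g g8 (@Lb.g g9 (@Lb.g g10 (@Lb.g g11 (@Lb.r r1689 (@Lb.r r1431 (@Lb.r r1350 (@Lb.r r1544 (@Lb.d (nat_lit 417) (nat_lit 10) (nat_lit 289) (@Lb.fm (nat_lit 9) t145)))))))))))
noncomputable def l30508 : Lb := (@Lb.d (nat_lit 16) (nat_lit 513) (nat_lit 162) (@Lb.g g9 (@Lb.g g10 (@Lb.g g11 (@Lb.r r353 (@Lb.r r1427 (@Lb.r r2577 (@Lb.r r8 (@Lb.d (nat_lit 260) (nat_lit 74) (nat_lit 577) (@Lb.t (@Lb.fm (nat_lit 9) t1863)))))))))))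
noncomputable def l30509 : Lb := (@Lb.d (nat_lit 0) (nat_lit 256) (nat_lit 130) (@Lb.g g9 (@Lb.g g10 (@Lb.g g11 (@Lb.r r2691 (@Lb.r r2657 (@Lb.r r1686 (@Lb.r r1124 (@Lb.d (nat_lit 517) (nat_lit 32) (nat_lit 576) (@Lb.t (@Lb.fp (nat_lit 9) t5507)))))))))))
noncomputable def l30510 : Lb := (@Lb.g g8 (@Lb.g g7 (@Lb.r r402 (@Lb.r r101 (@Lb.r r24 (@Lb.d (nat_lit 536) (nat_lit 265) (nat_lit 608) (@Lb.fm (nat_lit 3) t145)))))))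
noncomputable def l30511 : Lb := (@Lb.d (nat_lit 136) (nat_lit 2) (nat_lit 128) (@Lb.g g9 (@Lb.g g11 (@Lb.r r260 (@Lb.r r2459 (@Lb.r r354 (@Lb.r r1185 (@Lb.d (nat_lit 354) (nat_lit 161) (nat_lit 324) (@Lb.fp (nat_lit 3) t1036)))))))))
noncomputable def l30512 : Lb := (@Lb.r r70 (@Lb.r r263 (@Lb.d (nat_lit 0) (nat_lit 514) (nat_lit 0) (@Lb.g g8 (@Lb.g g9 (@Lb.r r299 (@Lb.r r106 (@Lb.r r97 (@Lb.r r148 (@Lb.d (nat_lit 2) (nat_lit 4) (nat_lit 2) (@Lb.fp (nat_lit 3) t3349)))))))))))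
noncomputable def l30513 : Lb := (@Lb.d (nat_lit 682) (nat_lit 649) (nat_lit 273) (@Lb.r r1604 (@Lb.r r535 (@Lb.r r353 (@Lb.g g7 (@Lb.g g6 (@Lb.g g4 (@Lb.d (nat_lit 5) (nat_lit 16) (nat_lit 165) (@Lb.t (@Lb.fp (nat_lit 9) t927))))))))))
noncomputable def l30514 : Lb := (@Lb.d (nat_lit 682) (nat_lit 137) (nat_lit 342) (@Lb.r r1604 (@Lb.r r535 (@Lb.r r353 (@Lb.g g7 (@Lb.g g6 (@Lb.g g4 (@Lb.d (nat_lit 6) (nat_lit 16) (nat_lit 165) (@Lb.t (@Lb.fp (nat_lit 9) t927))))))))))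
noncomputable def l30515 : Lb := (@Lb.d (nat_lit 129) (nat_lit 2) (nat_lit 64) (@Lb.g g8 (@Lb.g g9 (@Lb.g g11 (@Lb.r r2385 (@Lb.r r299 (@Lb.r r2376 (@Lb.r r134 (@Lb.d (nat_lit 16) (nat_lit 133) (nat_lit 585) (@Lb.t (@Lb.fm (nat_lit 9) t5508)))))))))))
noncomputable def l30516 : Lb := (@Lb.r r323 (@Lb.d (nat_lit 2) (nat_lit 258) (nat_lit 0) (@Lb.g g8 (@Lb.g g9 (@Lb.g g10 (@Lb.r r427 (@Lb.r r106 (@Lb.r r25 (@Lb.d (nat_lit 276) (nat_lit 137) (nat_lit 18) (@Lb.t (@Lb.fm (nat_lit 9) t4304)))))))))))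
noncomputable def l30517 : Lb := (@Lb.d (nat_lit 129) (nat_lit 516) (nat_lit 128) (@Lb.g g8 (@Lb.g g9 (@Lb.g g10 (@Lb.g g11 (@Lb.r r619 (@Lb.r r1194 (@Lb.r r425 (@Lb.r r2084 (@Lb.d (nat_lit 522) (nat_lit 161) (nat_lit 658) (@Lb.fm (nat_lit 9) t269)))))))))))
noncomputable def l30518 : Lb := (@Lb.d (nat_lit 1) (nat_lit 294) (nat_lit 65) (@Lb.r r338 (@Lb.g g7 (@Lb.g g6 (@Lb.g g5 (@Lb.d (nat_lit 0) (nat_lit 130) (nat_lit 128) (@Lb.r r36 (@Lb.t (@Lb.fp (nat_lit 9) t154)))))))))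
noncomputable def l30519 : Lb := (@Lb.r r275 (@Lb.d (nat_lit 130) (nat_lit 290) (nat_lit 2) (@Lb.g g8 (@Lb.g g9 (@Lb.g g10 (@Lb.r r427 (@Lb.r r678 (@Lb.r r340 (@Lb.r r2649 (@Lb.d (nat_lit 677) (nat_lit 96) (nat_lit 580) (@Lb.t (@Lb.fp (nat_lit 9) t422))))))))))))
noncomputable def l30520 : Lb := (@Lb.d (nat_lit 385) (nat_lit 25) (nat_lit 69) (@Lb.r r401 (@Lb.r r410 (@Lb.r r1383 (@Lb.g g5 (@Lb.g g8 (@Lb.d (nat_lit 10) (nat_lit 20) (nat_lit 0) (@Lb.r r98 (@Lb.fm (nat_lit 3) t30)))))))))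
noncomputable def l30521 : Lb := (@Lb.d (nat_lit 2) (nat_lit 33) (nat_lit 66) (@Lb.g g8 (@Lb.g g9 (@Lb.g g10 (@Lb.g g11 (@Lb.r r610 (@Lb.r r2201 (@Lb.r r2388 (@Lb.r r1387 (@Lb.d (nat_lit 677) (nat_lit 8) (nat_lit 353) (@Lb.fp (nat_lit 9) t687)))))))))))
noncomputable def l30522 : Lb := (@Lb.d (nat_lit 0) (nat_lit 549) (nat_lit 74) (@Lb.g g9 (@Lb.g g10 (@Lb.g g11 (@Lb.r r387 (@Lb.r r406 (@Lb.r r340 (@Lb.r r553 (@Lb.d (nat_lit 1) (nat_lit 161) (nat_lit 64) (@Lb.t (@Lb.fm (nat_lit 9) t3851)))))))))))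
noncomputable def l30523 : Lb := (@Lb.g g4 (@Lb.g g6 (@Lb.g g7 (@Lb.r r323 (@Lb.r r2626 (@Lb.d (nat_lit 0) (nat_lit 261) (nat_lit 17) (@Lb.t (@Lb.fp (nat_lit 9) t45))))))))
noncomputable def l30524 : Lb := (@Lb.d (nat_lit 9) (nat_lit 518) (nat_lit 128) (@Lb.g g8 (@Lb.g g9 (@Lb.g g10 (@Lb.g g11 (@Lb.r r1699 (@Lb.r r164 (@Lb.r r614 (@Lb.r r2149 (@Lb.r r1156 (@Lb.d (nat_lit 522) (nat_lit 2) (nat_lit 330) (@Lb.fp (nat_lit 9) t278))))))))))))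
noncomputable def l30525 : Lb := (@Lb.d (nat_lit 138) (nat_lit 256) (nat_lit 2) (@Lb.g g8 (@Lb.g g10 (@Lb.r r613 (@Lb.r r1383 (@Lb.r r666 (@Lb.r r664 (@Lb.d (nat_lit 593) (nat_lit 72) (nat_lit 262) (@Lb.fp (nat_lit 3) t2238)))))))))
noncomputable def l30526 : Lb := (@Lb.d (nat_lit 9) (nat_lit 6) (nat_lit 128) (@Lb.g g8 (@Lb.g g9 (@Lb.g g10 (@Lb.g g11 (@Lb.r r1699 (@Lb.r r164 (@Lb.r r614 (@Lb.r r2149 (@Lb.r r1156 (@Lb.d (nat_lit 521) (nat_lit 2) (nat_lit 330) (@Lb.fp (nat_lit 9) t278))))))))))))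
noncomputable def l30527 : Lb := (@Lb.d (nat_lit 9) (nat_lit 513) (nat_lit 129) (@Lb.g g8 (@Lb.g g9 (@Lb.g g10 (@Lb.g g11 (@Lb.r r2595 (@Lb.r r657 (@Lb.r r356 (@Lb.r r154 (@Lb.r r2180 (@Lb.d (nat_lit 134) (nat_lit 129) (nat_lit 330) (@Lb.fp (nat_lit 9) t284))))))))))))
noncomputable def l30528 : Lb := (@Lb.d (nat_lit 10) (nat_lit 256) (nat_lit 0) (@Lb.g g8 (@Lb.g g10 (@Lb.r r2331 (@Lb.r r2709 (@Lb.r r2194 (@Lb.r r2436 (@Lb.d (nat_lit 610) (nat_lit 0) (nat_lit 546) (@Lb.fp (nat_lit 3) t386)))))))))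
noncomputable def l30529 : Lb := (@Lb.d (nat_lit 4) (nat_lit 262) (nat_lit 138) (@Lb.g g9 (@Lb.g g10 (@Lb.g g11 (@Lb.r r612 (@Lb.r r682 (@Lb.r r673 (@Lb.d (nat_lit 69) (nat_lit 132) (nat_lit 70) (@Lb.t (@Lb.fm (nat_lit 9) t3851))))))))))
noncomputable def l30530 : Lb := (@Lb.r r323 (@Lb.g g10 (@Lb.r r90 (@Lb.r r584 (@Lb.r r299 (@Lb.r r289 (@Lb.d (nat_lit 10) (nat_lit 144) (nat_lit 138) (@Lb.t (@Lb.fp (nat_lit 3) t1115)))))))))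
noncomputable def l30531 : Lb := (@Lb.d (nat_lit 544) (nat_lit 68) (nat_lit 64) (@Lb.g g4 (@Lb.g g9 (@Lb.g g10 (@Lb.g g11 (@Lb.r r1634 (@Lb.d (nat_lit 1) (nat_lit 90) (nat_lit 658) (@Lb.fm (nat_lit 9) t329))))))))
noncomputable def l30532 : Lb := (@Lb.d (nat_lit 8) (nat_lit 258) (nat_lit 129) (@Lb.g g9 (@Lb.g g10 (@Lb.g g11 (@Lb.r r2723 (@Lb.r r2642 (@Lb.d (nat_lit 2) (nat_lit 64) (nat_lit 425) (@Lb.t (@Lb.fp (nat_lit 9) t1496)))))))))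
noncomputable def l30533 : Lb := (@Lb.r r323 (@Lb.d (nat_lit 8) (nat_lit 514) (nat_lit 2) (@Lb.g g9 (@Lb.g g10 (@Lb.r r2339 (@Lb.r r2146 (@Lb.d (nat_lit 2) (nat_lit 132) (nat_lit 162) (@Lb.fm (nat_lit 3) t333))))))))
noncomputable def l30534 : Lb := (@Lb.r r323 (@Lb.d (nat_lit 137) (nat_lit 1) (nat_lit 18) (@Lb.g g8 (@Lb.g g9 (@Lb.g g10 (@Lb.r r1623 (@Lb.r r2345 (@Lb.r r2340 (@Lb.d (nat_lit 584) (nat_lit 105) (nat_lit 517) (@Lb.t (@Lb.fm (nat_lit 9) t386)))))))))))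
noncomputable def l30535 : Lb := (@Lb.d (nat_lit 8) (nat_lit 258) (nat_lit 66) (@Lb.g g9 (@Lb.g g10 (@Lb.g g11 (@Lb.r r675 (@Lb.r r2658 (@Lb.d (nat_lit 2) (nat_lit 169) (nat_lit 274) (@Lb.t (@Lb.fp (nat_lit 9) t5509)))))))))
noncomputable def l30536 : Lb := (@Lb.d (nat_lit 137) (nat_lit 6) (nat_lit 64) (@Lb.g g8 (@Lb.g g9 (@Lb.g g10 (@Lb.g g11 (@Lb.r r2729 (@Lb.r r2475 (@Lb.r r362 (@Lb.r r1316 (@Lb.d (nat_lit 681) (nat_lit 162) (nat_lit 65) (@Lb.fm (nat_lit 9) t2847)))))))))))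
noncomputable def l30537 : Lb := (@Lb.r r21 (@Lb.d (nat_lit 2) (nat_lit 256) (nat_lit 130) (@Lb.g g8 (@Lb.g g10 (@Lb.g g11 (@Lb.r r395 (@Lb.r r386 (@Lb.r r149 (@Lb.r r72 (@Lb.d (nat_lit 81) (nat_lit 164) (nat_lit 386) (@Lb.t (@Lb.fm (nat_lit 9) t139))))))))))))
noncomputable def l30538 : Lb := (@Lb.r r21 (@Lb.d (nat_lit 32) (nat_lit 0) (nat_lit 130) (@Lb.g g8 (@Lb.g g10 (@Lb.g g11 (@Lb.r r419 (@Lb.r r406 (@Lb.r r105 (@Lb.r r84 (@Lb.d (nat_lit 81) (nat_lit 36) (nat_lit 2) (@Lb.t (@Lb.fm (nat_lit 9) t2544))))))))))))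
noncomputable def l30539 : Lb := (@Lb.d (nat_lit 0) (nat_lit 0) (nat_lit 10) (@Lb.g g8 (@Lb.g g5 (@Lb.g g10 (@Lb.r r2403 (@Lb.r r594 (@Lb.d (nat_lit 0) (nat_lit 133) (nat_lit 138) (@Lb.t (@Lb.fp (nat_lit 9) t368)))))))))
noncomputable def l30540 : Lb := (@Lb.d (nat_lit 2) (nat_lit 2) (nat_lit 130) (@Lb.g g8 (@Lb.g g9 (@Lb.g g10 (@Lb.g g11 (@Lb.r r427 (@Lb.r r145 (@Lb.r r356 (@Lb.r r154 (@Lb.r r132 (@Lb.d (nat_lit 9) (nat_lit 128) (nat_lit 137) (@Lb.fm (nat_lit 9) t1350))))))))))))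
noncomputable def l30541 : Lb := (@Lb.r r21 (@Lb.d (nat_lit 2) (nat_lit 256) (nat_lit 130) (@Lb.g g8 (@Lb.g g10 (@Lb.g g11 (@Lb.r r2634 (@Lb.r r529 (@Lb.r r603 (@Lb.r r600 (@Lb.d (nat_lit 677) (nat_lit 84) (nat_lit 74) (@Lb.t (@Lb.fm (nat_lit 9) t3158))))))))))))
noncomputable def l30542 : Lb := (@Lb.r r21 (@Lb.r r70 (@Lb.d (nat_lit 130) (nat_lit 0) (nat_lit 0) (@Lb.g g8 (@Lb.r r391 (@Lb.r r402 (@Lb.r r97 (@Lb.r r36 (@Lb.d (nat_lit 10) (nat_lit 1) (nat_lit 138) (@Lb.t (@Lb.fp (nat_lit 3) t686)))))))))))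
noncomputable def l30543 : Lb := (@Lb.d (nat_lit 0) (nat_lit 0) (nat_lit 130) (@Lb.g g8 (@Lb.g g10 (@Lb.g g11 (@Lb.r r419 (@Lb.r r386 (@Lb.r r101 (@Lb.r r24 (@Lb.d (nat_lit 98) (nat_lit 10) (nat_lit 8) (@Lb.t (@Lb.fp (nat_lit 9) t263)))))))))))
noncomputable def l30544 : Lb := (@Lb.d (nat_lit 0) (nat_lit 40) (nat_lit 65) (@Lb.g g8 (@Lb.g g9 (@Lb.g g10 (@Lb.g g11 (@Lb.r r1706 (@Lb.r r1700 (@Lb.r r1575 (@Lb.r r1557 (@Lb.d (nat_lit 389) (nat_lit 96) (nat_lit 586) (@Lb.fp (nat_lit 9) t74)))))))))))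
noncomputable def l30545 : Lb := (@Lb.d (nat_lit 512) (nat_lit 529) (nat_lit 336) (@Lb.r r24 (@Lb.r r2329 (@Lb.r r363 (@Lb.g g10 (@Lb.g g5 (@Lb.d (nat_lit 0) (nat_lit 18) (nat_lit 34) (@Lb.r r387 (@Lb.fm (nat_lit 3) t1444)))))))))
noncomputable def l30546 : Lb := (@Lb.r r275 (@Lb.d (nat_lit 2) (nat_lit 260) (nat_lit 0) (@Lb.g g8 (@Lb.g g9 (@Lb.g g10 (@Lb.r r1691 (@Lb.r r386 (@Lb.r r609 (@Lb.r r24 (@Lb.d (nat_lit 266) (nat_lit 80) (nat_lit 138) (@Lb.t (@Lb.fm (nat_lit 9) t5510))))))))))))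
noncomputable def l30547 : Lb := (@Lb.d (nat_lit 1) (nat_lit 256) (nat_lit 66) (@Lb.g g8 (@Lb.g g9 (@Lb.g g10 (@Lb.g g11 (@Lb.r r1303 (@Lb.r r616 (@Lb.r r86 (@Lb.r r1189 (@Lb.r r1044 (@Lb.d (nat_lit 40) (nat_lit 1) (nat_lit 153) (@Lb.fp (nat_lit 9) t284))))))))))))
noncomputable def l30548 : Lb := (@Lb.d (nat_lit 512) (nat_lit 38) (nat_lit 548) (@Lb.r r20 (@Lb.r r1633 (@Lb.r r1639 (@Lb.g g7 (@Lb.g g10 (@Lb.g g5 (@Lb.d (nat_lit 16) (nat_lit 0) (nat_lit 65) (@Lb.t (@Lb.fm (nat_lit 9) t5511))))))))))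
noncomputable def l30549 : Lb := (@Lb.r r2403 (@Lb.d (nat_lit 0) (nat_lit 522) (nat_lit 36) (@Lb.g g9 (@Lb.g g6 (@Lb.r r2641 (@Lb.d (nat_lit 0) (nat_lit 164) (nat_lit 168) (@Lb.fp (nat_lit 3) t1979)))))))
noncomputable def l30550 : Lb := (@Lb.d (nat_lit 0) (nat_lit 320) (nat_lit 512) (@Lb.r r2403 (@Lb.r r594 (@Lb.g g11 (@Lb.g g6 (@Lb.g g9 (@Lb.t (@Lb.fp (nat_lit 9) t5512))))))))
noncomputable def l30551 : Lb := (@Lb.d (nat_lit 0) (nat_lit 5) (nat_lit 0) (@Lb.g g9 (@Lb.g g10 (@Lb.g g7 (@Lb.r r386 (@Lb.r r1617 (@Lb.d (nat_lit 0) (nat_lit 100) (nat_lit 410) (@Lb.t (@Lb.fm (nat_lit 9) t2930)))))))))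
noncomputable def l30552 : Lb := (@Lb.d (nat_lit 262) (nat_lit 294) (nat_lit 20) (@Lb.r r2657 (@Lb.r r2667 (@Lb.g g7 (@Lb.g g10 (@Lb.g g5 (@Lb.d (nat_lit 0) (nat_lit 0) (nat_lit 81) (@Lb.r r36 (@Lb.t (@Lb.fm (nat_lit 9) t2535))))))))))
noncomputable def l30553 : Lb := (@Lb.d (nat_lit 0) (nat_lit 678) (nat_lit 548) (@Lb.r r20 (@Lb.r r1633 (@Lb.r r2659 (@Lb.g g7 (@Lb.g g10 (@Lb.g g5 (@Lb.d (nat_lit 0) (nat_lit 0) (nat_lit 81) (@Lb.t (@Lb.fm (nat_lit 9) t324))))))))))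
noncomputable def l30554 : Lb := (@Lb.d (nat_lit 2) (nat_lit 256) (nat_lit 66) (@Lb.g g8 (@Lb.g g9 (@Lb.g g10 (@Lb.g g11 (@Lb.r r2323 (@Lb.r r1681 (@Lb.r r356 (@Lb.r r154 (@Lb.r r132 (@Lb.d (nat_lit 650) (nat_lit 1) (nat_lit 586) (@Lb.fm (nat_lit 9) t284))))))))))))
noncomputable def l30555 : Lb := (@Lb.d (nat_lit 1) (nat_lit 256) (nat_lit 66) (@Lb.g g8 (@Lb.g g9 (@Lb.g g10 (@Lb.g g11 (@Lb.r r279 (@Lb.r r1642 (@Lb.r r1561 (@Lb.r r2628 (@Lb.d (nat_lit 170) (nat_lit 134) (nat_lit 394) (@Lb.fp (nat_lit 9) t3956)))))))))))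
noncomputable def l30556 : Lb := (@Lb.d (nat_lit 32) (nat_lit 2) (nat_lit 130) (@Lb.g g9 (@Lb.g g10 (@Lb.g g11 (@Lb.r r1447 (@Lb.r r293 (@Lb.r r72 (@Lb.r r150 (@Lb.d (nat_lit 528) (nat_lit 9) (nat_lit 424) (@Lb.t (@Lb.fp (nat_lit 9) t669)))))))))))
noncomputable def l30557 : Lb := (@Lb.d (nat_lit 0) (nat_lit 258) (nat_lit 4) (@Lb.g g9 (@Lb.g g10 (@Lb.g g11 (@Lb.r r2647 (@Lb.r r2726 (@Lb.r r97 (@Lb.r r36 (@Lb.d (nat_lit 404) (nat_lit 148) (nat_lit 392) (@Lb.t (@Lb.fp (nat_lit 9) t413)))))))))))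
noncomputable def l30558 : Lb := (@Lb.r r322 (@Lb.d (nat_lit 8) (nat_lit 512) (nat_lit 576) (@Lb.g g9 (@Lb.g g7 (@Lb.r r660 (@Lb.r r358 (@Lb.r r337 (@Lb.d (nat_lit 10) (nat_lit 102) (nat_lit 582) (@Lb.fp (nat_lit 3) t1115)))))))))
noncomputable def l30559 : Lb := (@Lb.d (nat_lit 4) (nat_lit 1) (nat_lit 2) (@Lb.g g5 (@Lb.g g10 (@Lb.r r1347 (@Lb.r r146 (@Lb.r r24 (@Lb.d (nat_lit 614) (nat_lit 36) (nat_lit 324) (@Lb.fp (nat_lit 3) t1994))))))))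
noncomputable def l30560 : Lb := (@Lb.r r275 (@Lb.d (nat_lit 2) (nat_lit 288) (nat_lit 2) (@Lb.g g8 (@Lb.g g9 (@Lb.g g10 (@Lb.r r1442 (@Lb.r r2635 (@Lb.r r548 (@Lb.r r2085 (@Lb.d (nat_lit 22) (nat_lit 101) (nat_lit 658) (@Lb.t (@Lb.fp (nat_lit 9) t1038))))))))))))
noncomputable def l30561 : Lb := (@Lb.d (nat_lit 0) (nat_lit 512) (nat_lit 129) (@Lb.g g10 (@Lb.g g11 (@Lb.r r650 (@Lb.r r1419 (@Lb.r r24 (@Lb.d (nat_lit 616) (nat_lit 38) (nat_lit 585) (@Lb.fm (nat_lit 3) t3589))))))))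
noncomputable def l30562 : Lb := (@Lb.d (nat_lit 5) (nat_lit 328) (nat_lit 0) (@Lb.r r289 (@Lb.r r279 (@Lb.r r584 (@Lb.g g6 (@Lb.g g5 (@Lb.d (nat_lit 20) (nat_lit 1) (nat_lit 1) (@Lb.r r387 (@Lb.fm (nat_lit 3) t74)))))))))
noncomputable def l30563 : Lb := (@Lb.d (nat_lit 2) (nat_lit 257) (nat_lit 0) (@Lb.g g8 (@Lb.g g9 (@Lb.g g10 (@Lb.r r2731 (@Lb.r r1642 (@Lb.r r1049 (@Lb.d (nat_lit 521) (nat_lit 89) (nat_lit 297) (@Lb.t (@Lb.fp (nat_lit 9) t591))))))))))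
noncomputable def l30564 : Lb := (@Lb.d (nat_lit 4) (nat_lit 514) (nat_lit 0) (@Lb.g g8 (@Lb.g g9 (@Lb.g g10 (@Lb.r r2731 (@Lb.r r1642 (@Lb.r r1049 (@Lb.d (nat_lit 522) (nat_lit 89) (nat_lit 297) (@Lb.t (@Lb.fp (nat_lit 9) t591))))))))))
noncomputable def l30565 : Lb := (@Lb.r r21 (@Lb.d (nat_lit 6) (nat_lit 0) (nat_lit 64) (@Lb.g g8 (@Lb.g g10 (@Lb.g g11 (@Lb.r r618 (@Lb.r r25 (@Lb.d (nat_lit 9) (nat_lit 25) (nat_lit 130) (@Lb.t (@Lb.fm (nat_lit 9) t71))))))))))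
noncomputable def l30566 : Lb := (@Lb.d (nat_lit 4) (nat_lit 257) (nat_lit 0) (@Lb.g g5 (@Lb.d (nat_lit 6) (nat_lit 130) (nat_lit 0) (@Lb.t (@Lb.fm (nat_lit 3) t2)))))
noncomputable def l30567 : Lb := (@Lb.r r338 (@Lb.d (nat_lit 34) (nat_lit 546) (nat_lit 64) (@Lb.g g8 (@Lb.g g9 (@Lb.g g7 (@Lb.r r418 (@Lb.r r297 (@Lb.r r360 (@Lb.d (nat_lit 22) (nat_lit 37) (nat_lit 2) (@Lb.t (@Lb.fm (nat_lit 9) t355)))))))))))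
noncomputable def l30568 : Lb := (@Lb.d (nat_lit 86) (nat_lit 40) (nat_lit 66) (@Lb.r r276 (@Lb.r r619 (@Lb.r r553 (@Lb.g g6 (@Lb.g g5 (@Lb.g g4 (@Lb.d (nat_lit 25) (nat_lit 0) (nat_lit 1) (@Lb.r r391 (@Lb.t (@Lb.fp (nat_lit 9) t68)))))))))))
noncomputable def l30569 : Lb := (@Lb.d (nat_lit 86) (nat_lit 296) (nat_lit 66) (@Lb.r r276 (@Lb.r r619 (@Lb.r r553 (@Lb.g g6 (@Lb.g g5 (@Lb.g g4 (@Lb.d (nat_lit 16) (nat_lit 1) (nat_lit 1) (@Lb.r r391 (@Lb.t (@Lb.fp (nat_lit 9) t74)))))))))))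
noncomputable def l30570 : Lb := (@Lb.r r323 (@Lb.d (nat_lit 138) (nat_lit 264) (nat_lit 34) (@Lb.g g8 (@Lb.g g10 (@Lb.r r615 (@Lb.r r533 (@Lb.r r2340 (@Lb.d (nat_lit 97) (nat_lit 96) (nat_lit 673) (@Lb.fp (nat_lit 3) t221)))))))))
noncomputable def l30571 : Lb := (@Lb.d (nat_lit 18) (nat_lit 0) (nat_lit 18) (@Lb.r r1361 (@Lb.r r1699 (@Lb.r r610 (@Lb.r r617 (@Lb.g g7 (@Lb.g g6 (@Lb.g g5 (@Lb.g g4 (@Lb.d (nat_lit 8) (nat_lit 1) (nat_lit 0) (@Lb.fp (nat_lit 9) t1222)))))))))))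
noncomputable def l30572 : Lb := (@Lb.d (nat_lit 2) (nat_lit 265) (nat_lit 73) (@Lb.g g8 (@Lb.g g9 (@Lb.g g10 (@Lb.g g11 (@Lb.r r643 (@Lb.r r657 (@Lb.r r612 (@Lb.r r666 (@Lb.r r132 (@Lb.d (nat_lit 130) (nat_lit 32) (nat_lit 5) (@Lb.fp (nat_lit 9) t68))))))))))))
noncomputable def l30573 : Lb := (@Lb.r r273 (@Lb.r r322 (@Lb.d (nat_lit 64) (nat_lit 32) (nat_lit 384) (@Lb.g g7 (@Lb.r r280 (@Lb.r r101 (@Lb.r r146 (@Lb.d (nat_lit 609) (nat_lit 0) (nat_lit 610) (@Lb.t (@Lb.fp (nat_lit 3) t5513))))))))))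
noncomputable def l30574 : Lb := (@Lb.d (nat_lit 0) (nat_lit 5) (nat_lit 128) (@Lb.g g9 (@Lb.g g10 (@Lb.g g11 (@Lb.r r346 (@Lb.r r612 (@Lb.r r533 (@Lb.r r1555 (@Lb.d (nat_lit 392) (nat_lit 33) (nat_lit 576) (@Lb.t (@Lb.fp (nat_lit 9) t2956)))))))))))
noncomputable def l30575 : Lb := (@Lb.d (nat_lit 8) (nat_lit 514) (nat_lit 2) (@Lb.g g9 (@Lb.g g10 (@Lb.r r170 (@Lb.r r20 (@Lb.r r105 (@Lb.d (nat_lit 41) (nat_lit 152) (nat_lit 322) (@Lb.fm (nat_lit 3) t1628))))))))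
noncomputable def l30576 : Lb := (@Lb.d (nat_lit 0) (nat_lit 548) (nat_lit 64) (@Lb.g g9 (@Lb.g g10 (@Lb.g g11 (@Lb.r r346 (@Lb.r r612 (@Lb.r r533 (@Lb.r r539 (@Lb.d (nat_lit 69) (nat_lit 161) (nat_lit 320) (@Lb.t (@Lb.fp (nat_lit 9) t5514)))))))))))
noncomputable def l30577 : Lb := (@Lb.d (nat_lit 2) (nat_lit 258) (nat_lit 128) (@Lb.g g8 (@Lb.g g9 (@Lb.g g10 (@Lb.g g11 (@Lb.r r2723 (@Lb.r r657 (@Lb.r r612 (@Lb.r r666 (@Lb.r r132 (@Lb.d (nat_lit 74) (nat_lit 97) (nat_lit 586) (@Lb.fp (nat_lit 9) t178))))))))))))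
noncomputable def l30578 : Lb := (@Lb.d (nat_lit 2) (nat_lit 10) (nat_lit 2) (@Lb.g g8 (@Lb.g g9 (@Lb.g g10 (@Lb.g g7 (@Lb.r r402 (@Lb.r r40 (@Lb.r r105 (@Lb.r r36 (@Lb.d (nat_lit 514) (nat_lit 5) (nat_lit 545) (@Lb.fp (nat_lit 9) t5515)))))))))))
noncomputable def l30579 : Lb := (@Lb.d (nat_lit 2) (nat_lit 9) (nat_lit 72) (@Lb.g g8 (@Lb.g g9 (@Lb.g g10 (@Lb.g g11 (@Lb.r r2666 (@Lb.r r1608 (@Lb.r r1291 (@Lb.r r2337 (@Lb.d (nat_lit 324) (nat_lit 64) (nat_lit 586) (@Lb.fp (nat_lit 9) t1913)))))))))))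
noncomputable def l30580 : Lb := (@Lb.d (nat_lit 8) (nat_lit 265) (nat_lit 0) (@Lb.g g9 (@Lb.r r2315 (@Lb.r r2196 (@Lb.r r2646 (@Lb.r r409 (@Lb.d (nat_lit 665) (nat_lit 26) (nat_lit 137) (@Lb.t (@Lb.fp (nat_lit 3) t386)))))))))
noncomputable def l30581 : Lb := (@Lb.d (nat_lit 0) (nat_lit 289) (nat_lit 66) (@Lb.g g8 (@Lb.g g9 (@Lb.g g10 (@Lb.g g11 (@Lb.r r2595 (@Lb.r r2442 (@Lb.r r168 (@Lb.r r41 (@Lb.r r2084 (@Lb.d (nat_lit 640) (nat_lit 34) (nat_lit 320) (@Lb.fp (nat_lit 9) t2097))))))))))))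
noncomputable def l30582 : Lb := (@Lb.r r70 (@Lb.d (nat_lit 137) (nat_lit 257) (nat_lit 64) (@Lb.g g8 (@Lb.g g9 (@Lb.g g11 (@Lb.r r1451 (@Lb.r r418 (@Lb.r r145 (@Lb.r r100 (@Lb.d (nat_lit 593) (nat_lit 66) (nat_lit 512) (@Lb.t (@Lb.fp (nat_lit 9) t644))))))))))))
noncomputable def l30583 : Lb := (@Lb.d (nat_lit 0) (nat_lit 609) (nat_lit 0) (@Lb.g g5 (@Lb.r r402 (@Lb.r r1635 (@Lb.r r8 (@Lb.d (nat_lit 1) (nat_lit 89) (nat_lit 650) (@Lb.t (@Lb.fp (nat_lit 3) t4748))))))))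
noncomputable def l30584 : Lb := (@Lb.d (nat_lit 8) (nat_lit 289) (nat_lit 66) (@Lb.g g9 (@Lb.g g10 (@Lb.g g11 (@Lb.r r2599 (@Lb.r r2442 (@Lb.r r2068 (@Lb.r r1177 (@Lb.d (nat_lit 664) (nat_lit 105) (nat_lit 354) (@Lb.t (@Lb.fm (nat_lit 9) t2097)))))))))))
noncomputable def l30585 : Lb := (@Lb.d (nat_lit 582) (nat_lit 257) (nat_lit 354) (@Lb.r r20 (@Lb.r r1321 (@Lb.r r595 (@Lb.g g6 (@Lb.g g5 (@Lb.g g4 (@Lb.d (nat_lit 2) (nat_lit 17) (nat_lit 33) (@Lb.r r387 (@Lb.t (@Lb.fp (nat_lit 9) t1952)))))))))))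
noncomputable def l30586 : Lb := (@Lb.d (nat_lit 8) (nat_lit 0) (nat_lit 64) (@Lb.g g9 (@Lb.g g11 (@Lb.r r130 (@Lb.r r88 (@Lb.r r85 (@Lb.d (nat_lit 38) (nat_lit 6) (nat_lit 80) (@Lb.fm (nat_lit 3) t319))))))))
noncomputable def l30587 : Lb := (@Lb.d (nat_lit 4) (nat_lit 0) (nat_lit 130) (@Lb.g g8 (@Lb.g g9 (@Lb.g g10 (@Lb.g g11 (@Lb.r r675 (@Lb.r r2216 (@Lb.r r665 (@Lb.r r154 (@Lb.d (nat_lit 24) (nat_lit 9) (nat_lit 137) (@Lb.fm (nat_lit 9) t1195)))))))))))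
noncomputable def l30588 : Lb := (@Lb.d (nat_lit 0) (nat_lit 512) (nat_lit 128) (@Lb.g g8 (@Lb.g g11 (@Lb.r r2626 (@Lb.r r579 (@Lb.r r2341 (@Lb.r r24 (@Lb.d (nat_lit 577) (nat_lit 0) (nat_lit 600) (@Lb.fp (nat_lit 3) t1644)))))))))
noncomputable def l30589 : Lb := (@Lb.d (nat_lit 356) (nat_lit 161) (nat_lit 337) (@Lb.r r1370 (@Lb.r r1447 (@Lb.r r2341 (@Lb.g g6 (@Lb.g g8 (@Lb.d (nat_lit 9) (nat_lit 4) (nat_lit 2) (@Lb.fm (nat_lit 3) t1644))))))))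
noncomputable def l30590 : Lb := (@Lb.d (nat_lit 2) (nat_lit 265) (nat_lit 72) (@Lb.g g8 (@Lb.g g9 (@Lb.g g10 (@Lb.g g11 (@Lb.r r427 (@Lb.r r424 (@Lb.r r106 (@Lb.r r97 (@Lb.d (nat_lit 298) (nat_lit 9) (nat_lit 168) (@Lb.fp (nat_lit 9) t5012)))))))))))
noncomputable def l30591 : Lb := (@Lb.d (nat_lit 2) (nat_lit 514) (nat_lit 74) (@Lb.g g8 (@Lb.g g9 (@Lb.g g10 (@Lb.g g11 (@Lb.r r657 (@Lb.r r535 (@Lb.r r392 (@Lb.r r74 (@Lb.d (nat_lit 33) (nat_lit 81) (nat_lit 660) (@Lb.fp (nat_lit 9) t4056)))))))))))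
noncomputable def l30592 : Lb := (@Lb.d (nat_lit 8) (nat_lit 8) (nat_lit 73) (@Lb.g g8 (@Lb.g g10 (@Lb.g g11 (@Lb.r r2707 (@Lb.r r2085 (@Lb.r r2392 (@Lb.r r582 (@Lb.d (nat_lit 144) (nat_lit 68) (nat_lit 361) (@Lb.t (@Lb.fp (nat_lit 9) t322)))))))))))
noncomputable def l30593 : Lb := (@Lb.d (nat_lit 2) (nat_lit 544) (nat_lit 128) (@Lb.g g8 (@Lb.g g10 (@Lb.g g11 (@Lb.r r362 (@Lb.r r600 (@Lb.r r293 (@Lb.r r2587 (@Lb.d (nat_lit 326) (nat_lit 41) (nat_lit 278) (@Lb.t (@Lb.fp (nat_lit 9) t71)))))))))))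
noncomputable def l30594 : Lb := (@Lb.d (nat_lit 0) (nat_lit 514) (nat_lit 73) (@Lb.g g8 (@Lb.g g9 (@Lb.g g10 (@Lb.g g11 (@Lb.r r2691 (@Lb.r r88 (@Lb.r r1173 (@Lb.r r1622 (@Lb.r r1188 (@Lb.d (nat_lit 640) (nat_lit 0) (nat_lit 345) (@Lb.fp (nat_lit 9) t1558))))))))))))
noncomputable def l30595 : Lb := (@Lb.d (nat_lit 2) (nat_lit 520) (nat_lit 130) (@Lb.g g8 (@Lb.g g10 (@Lb.g g11 (@Lb.r r353 (@Lb.r r2707 (@Lb.r r662 (@Lb.r r2120 (@Lb.d (nat_lit 105) (nat_lit 161) (nat_lit 262) (@Lb.t (@Lb.fm (nat_lit 9) t282)))))))))))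
noncomputable def l30596 : Lb := (@Lb.d (nat_lit 42) (nat_lit 256) (nat_lit 64) (@Lb.g g8 (@Lb.g g7 (@Lb.r r614 (@Lb.r r1637 (@Lb.r r1428 (@Lb.d (nat_lit 358) (nat_lit 168) (nat_lit 585) (@Lb.fm (nat_lit 3) t572))))))))
noncomputable def l30597 : Lb := (@Lb.d (nat_lit 405) (nat_lit 282) (nat_lit 548) (@Lb.r r2453 (@Lb.r r2667 (@Lb.g g10 (@Lb.g g5 (@Lb.g g4 (@Lb.d (nat_lit 8) (nat_lit 6) (nat_lit 34) (@Lb.r r403 (@Lb.t (@Lb.fp (nat_lit 9) t2700))))))))))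
noncomputable def l30598 : Lb := (@Lb.r r81 (@Lb.d (nat_lit 9) (nat_lit 32) (nat_lit 10) (@Lb.g g8 (@Lb.g g10 (@Lb.g g11 (@Lb.r r353 (@Lb.r r535 (@Lb.r r420 (@Lb.d (nat_lit 89) (nat_lit 34) (nat_lit 154) (@Lb.t (@Lb.fm (nat_lit 9) t699)))))))))))
noncomputable def l30599 : Lb := (@Lb.d (nat_lit 1) (nat_lit 258) (nat_lit 2) (@Lb.g g8 (@Lb.g g9 (@Lb.g g10 (@Lb.g g7 (@Lb.r r386 (@Lb.r r97 (@Lb.r r2584 (@Lb.d (nat_lit 645) (nat_lit 168) (nat_lit 393) (@Lb.fp (nat_lit 9) t996))))))))))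
noncomputable def l30600 : Lb := (@Lb.d (nat_lit 164) (nat_lit 273) (nat_lit 101) (@Lb.r r596 (@Lb.r r535 (@Lb.r r353 (@Lb.g g7 (@Lb.g g6 (@Lb.g g4 (@Lb.d (nat_lit 6) (nat_lit 16) (nat_lit 133) (@Lb.r r145 (@Lb.t (@Lb.fp (nat_lit 9) t50)))))))))))
noncomputable def l30601 : Lb := (@Lb.d (nat_lit 69) (nat_lit 256) (nat_lit 596) (@Lb.r r24 (@Lb.r r1178 (@Lb.r r2691 (@Lb.g g7 (@Lb.g g6 (@Lb.g g9 (@Lb.d (nat_lit 0) (nat_lit 0) (nat_lit 6) (@Lb.t (@Lb.fp (nat_lit 9) t3910))))))))))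
noncomputable def l30602 : Lb := (@Lb.d (nat_lit 0) (nat_lit 2) (nat_lit 73) (@Lb.g g9 (@Lb.g g6 (@Lb.g g11 (@Lb.r r579 (@Lb.r r148 (@Lb.r r25 (@Lb.d (nat_lit 34) (nat_lit 73) (nat_lit 25) (@Lb.t (@Lb.fm (nat_lit 9) t787))))))))))
noncomputable def l30603 : Lb := (@Lb.d (nat_lit 537) (nat_lit 404) (nat_lit 338) (@Lb.r r1697 (@Lb.r r1387 (@Lb.r r264 (@Lb.g g7 (@Lb.g g10 (@Lb.g g5 (@Lb.d (nat_lit 68) (nat_lit 1) (nat_lit 81) (@Lb.r r36 (@Lb.t (@Lb.fm (nat_lit 9) t1723)))))))))))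
noncomputable def l30604 : Lb := (@Lb.d (nat_lit 146) (nat_lit 258) (nat_lit 64) (@Lb.g g8 (@Lb.g g9 (@Lb.g g10 (@Lb.g g11 (@Lb.r r404 (@Lb.r r2395 (@Lb.r r2714 (@Lb.r r85 (@Lb.r r164 (@Lb.d (nat_lit 521) (nat_lit 104) (nat_lit 82) (@Lb.fm (nat_lit 9) t443))))))))))))
noncomputable def l30605 : Lb := (@Lb.d (nat_lit 1) (nat_lit 2) (nat_lit 74) (@Lb.g g8 (@Lb.g g9 (@Lb.g g10 (@Lb.g g11 (@Lb.r r1177 (@Lb.r r658 (@Lb.r r1352 (@Lb.r r2439 (@Lb.d (nat_lit 38) (nat_lit 38) (nat_lit 536) (@Lb.fp (nat_lit 9) t2118)))))))))))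
noncomputable def l30606 : Lb := (@Lb.d (nat_lit 136) (nat_lit 520) (nat_lit 64) (@Lb.g g9 (@Lb.g g11 (@Lb.r r660 (@Lb.r r2390 (@Lb.r r2731 (@Lb.r r681 (@Lb.d (nat_lit 598) (nat_lit 154) (nat_lit 24) (@Lb.fm (nat_lit 3) t40)))))))))
noncomputable def l30607 : Lb := (@Lb.d (nat_lit 6) (nat_lit 422) (nat_lit 294) (@Lb.r r21 (@Lb.r r1366 (@Lb.r r683 (@Lb.g g6 (@Lb.g g5 (@Lb.g g4 (@Lb.d (nat_lit 8) (nat_lit 0) (nat_lit 1) (@Lb.t (@Lb.fm (nat_lit 9) t40))))))))))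
noncomputable def l30608 : Lb := (@Lb.r r82 (@Lb.d (nat_lit 0) (nat_lit 2) (nat_lit 64) (@Lb.g g8 (@Lb.g g9 (@Lb.g g7 (@Lb.r r1377 (@Lb.r r146 (@Lb.r r2120 (@Lb.d (nat_lit 608) (nat_lit 81) (nat_lit 4) (@Lb.t (@Lb.fm (nat_lit 9) t5106)))))))))))
noncomputable def l30609 : Lb := (@Lb.d (nat_lit 144) (nat_lit 4) (nat_lit 128) (@Lb.g g8 (@Lb.g g9 (@Lb.g g10 (@Lb.g g11 (@Lb.r r2435 (@Lb.r r2212 (@Lb.r r1446 (@Lb.r r145 (@Lb.d (nat_lit 68) (nat_lit 132) (nat_lit 152) (@Lb.fm (nat_lit 9) t5516)))))))))))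
noncomputable def l30610 : Lb := (@Lb.d (nat_lit 134) (nat_lit 261) (nat_lit 128) (@Lb.g g8 (@Lb.g g9 (@Lb.g g10 (@Lb.g g11 (@Lb.r r419 (@Lb.r r344 (@Lb.r r1429 (@Lb.r r1110 (@Lb.r r2212 (@Lb.d (nat_lit 33) (nat_lit 105) (nat_lit 673) (@Lb.fm (nat_lit 9) t1976))))))))))))
noncomputable def l30611 : Lb := (@Lb.d (nat_lit 32) (nat_lit 256) (nat_lit 2) (@Lb.g g9 (@Lb.g g10 (@Lb.r r2579 (@Lb.r r2341 (@Lb.r r1352 (@Lb.r r2710 (@Lb.d (nat_lit 390) (nat_lit 160) (nat_lit 64) (@Lb.fm (nat_lit 3) t3282)))))))))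
noncomputable def l30612 : Lb := (@Lb.d (nat_lit 130) (nat_lit 521) (nat_lit 6) (@Lb.g g8 (@Lb.g g9 (@Lb.g g10 (@Lb.g g11 (@Lb.r r683 (@Lb.r r676 (@Lb.r r1190 (@Lb.r r2197 (@Lb.r r2084 (@Lb.d (nat_lit 289) (nat_lit 130) (nat_lit 409) (@Lb.fp (nat_lit 9) t4263))))))))))))
noncomputable def l30613 : Lb := (@Lb.r r21 (@Lb.r r323 (@Lb.d (nat_lit 34) (nat_lit 512) (nat_lit 2) (@Lb.g g8 (@Lb.g g10 (@Lb.r r651 (@Lb.r r2209 (@Lb.r r2658 (@Lb.r r1156 (@Lb.d (nat_lit 598) (nat_lit 25) (nat_lit 646) (@Lb.fm (nat_lit 3) t125)))))))))))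
noncomputable def l30614 : Lb := (@Lb.d (nat_lit 0) (nat_lit 38) (nat_lit 133) (@Lb.g g9 (@Lb.g g10 (@Lb.g g11 (@Lb.r r387 (@Lb.r r1666 (@Lb.r r1561 (@Lb.r r24 (@Lb.d (nat_lit 40) (nat_lit 128) (nat_lit 133) (@Lb.t (@Lb.fm (nat_lit 9) t5517)))))))))))
noncomputable def l30615 : Lb := (@Lb.d (nat_lit 2) (nat_lit 288) (nat_lit 130) (@Lb.g g8 (@Lb.g g10 (@Lb.g g11 (@Lb.r r650 (@Lb.r r153 (@Lb.r r664 (@Lb.r r539 (@Lb.d (nat_lit 65) (nat_lit 18) (nat_lit 10) (@Lb.t (@Lb.fp (nat_lit 9) t51)))))))))))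
noncomputable def l30616 : Lb := (@Lb.d (nat_lit 409) (nat_lit 0) (nat_lit 0) (@Lb.g g4 (@Lb.r r322 (@Lb.r r1667 (@Lb.r r578 (@Lb.r r1633 (@Lb.d (nat_lit 1) (nat_lit 154) (nat_lit 82) (@Lb.t (@Lb.fm (nat_lit 3) t2877)))))))))
noncomputable def l30617 : Lb := (@Lb.d (nat_lit 10) (nat_lit 258) (nat_lit 130) (@Lb.g g8 (@Lb.g g9 (@Lb.g g10 (@Lb.g g11 (@Lb.r r650 (@Lb.r r648 (@Lb.r r555 (@Lb.r r529 (@Lb.r r36 (@Lb.d (nat_lit 5) (nat_lit 8) (nat_lit 2) (@Lb.fm (nat_lit 9) t51))))))))))))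
noncomputable def l30618 : Lb := (@Lb.d (nat_lit 9) (nat_lit 257) (nat_lit 98) (@Lb.g g8 (@Lb.g g9 (@Lb.g g6 (@Lb.g g11 (@Lb.r r340 (@Lb.r r1563 (@Lb.r r277 (@Lb.r r548 (@Lb.d (nat_lit 400) (nat_lit 129) (nat_lit 280) (@Lb.fp (nat_lit 9) t188)))))))))))
noncomputable def l30619 : Lb := (@Lb.d (nat_lit 0) (nat_lit 265) (nat_lit 128) (@Lb.g g9 (@Lb.g g11 (@Lb.r r658 (@Lb.r r2451 (@Lb.r r1641 (@Lb.r r36 (@Lb.d (nat_lit 81) (nat_lit 0) (nat_lit 665) (@Lb.fm (nat_lit 3) t145)))))))))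
noncomputable def l30620 : Lb := (@Lb.r r323 (@Lb.d (nat_lit 0) (nat_lit 521) (nat_lit 10) (@Lb.g g9 (@Lb.g g10 (@Lb.r r2347 (@Lb.r r409 (@Lb.r r1426 (@Lb.d (nat_lit 289) (nat_lit 150) (nat_lit 329) (@Lb.fp (nat_lit 3) t1)))))))))
noncomputable def l30621 : Lb := (@Lb.d (nat_lit 41) (nat_lit 257) (nat_lit 64) (@Lb.g g8 (@Lb.g g9 (@Lb.g g11 (@Lb.r r1186 (@Lb.r r1065 (@Lb.r r616 (@Lb.r r2315 (@Lb.d (nat_lit 578) (nat_lit 154) (nat_lit 85) (@Lb.t (@Lb.fp (nat_lit 9) t242)))))))))))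
noncomputable def l30622 : Lb := (@Lb.d (nat_lit 1) (nat_lit 293) (nat_lit 534) (@Lb.r r21 (@Lb.r r342 (@Lb.r r1707 (@Lb.g g7 (@Lb.g g6 (@Lb.g g5 (@Lb.g g4 (@Lb.d (nat_lit 1) (nat_lit 1) (nat_lit 69) (@Lb.fm (nat_lit 9) t40))))))))))
noncomputable def l30623 : Lb := (@Lb.d (nat_lit 2) (nat_lit 266) (nat_lit 130) (@Lb.g g8 (@Lb.g g9 (@Lb.g g10 (@Lb.g g11 (@Lb.r r643 (@Lb.r r1065 (@Lb.r r360 (@Lb.r r582 (@Lb.r r132 (@Lb.d (nat_lit 129) (nat_lit 10) (nat_lit 289) (@Lb.fm (nat_lit 9) t98))))))))))))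
noncomputable def l30624 : Lb := (@Lb.d (nat_lit 40) (nat_lit 513) (nat_lit 72) (@Lb.g g8 (@Lb.g g9 (@Lb.g g10 (@Lb.g g11 (@Lb.r r683 (@Lb.r r1366 (@Lb.r r1561 (@Lb.r r1556 (@Lb.d (nat_lit 394) (nat_lit 96) (nat_lit 673) (@Lb.fm (nat_lit 9) t175)))))))))))
noncomputable def l30625 : Lb := (@Lb.d (nat_lit 2) (nat_lit 521) (nat_lit 72) (@Lb.g g8 (@Lb.g g9 (@Lb.g g10 (@Lb.g g11 (@Lb.r r427 (@Lb.r r420 (@Lb.r r102 (@Lb.r r1129 (@Lb.r r36 (@Lb.d (nat_lit 554) (nat_lit 64) (nat_lit 18) (@Lb.fm (nat_lit 9) t74))))))))))))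
noncomputable def l30626 : Lb := (@Lb.d (nat_lit 0) (nat_lit 0) (nat_lit 130) (@Lb.g g4 (@Lb.g g10 (@Lb.g g11 (@Lb.r r1681 (@Lb.r r146 (@Lb.d (nat_lit 1) (nat_lit 72) (nat_lit 289) (@Lb.t (@Lb.fm (nat_lit 9) t452)))))))))
noncomputable def l30627 : Lb := (@Lb.d (nat_lit 9) (nat_lit 392) (nat_lit 73) (@Lb.g g8 (@Lb.g g5 (@Lb.g g10 (@Lb.g g11 (@Lb.r r516 (@Lb.r r2343 (@Lb.r r2714 (@Lb.r r1540 (@Lb.d (nat_lit 528) (nat_lit 104) (nat_lit 656) (@Lb.fp (nat_lit 9) t916)))))))))))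
noncomputable def l30628 : Lb := (@Lb.d (nat_lit 9) (nat_lit 648) (nat_lit 130) (@Lb.g g8 (@Lb.g g5 (@Lb.g g10 (@Lb.g g11 (@Lb.r r516 (@Lb.r r2343 (@Lb.r r2714 (@Lb.r r1540 (@Lb.d (nat_lit 533) (nat_lit 105) (nat_lit 656) (@Lb.fp (nat_lit 9) t916)))))))))))
noncomputable def l30629 : Lb := (@Lb.d (nat_lit 0) (nat_lit 9) (nat_lit 72) (@Lb.g g9 (@Lb.g g10 (@Lb.g g11 (@Lb.r r1689 (@Lb.r r2706 (@Lb.d (nat_lit 81) (nat_lit 38) (nat_lit 102) (@Lb.t (@Lb.fp (nat_lit 9) t3194)))))))))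
noncomputable def l30630 : Lb := (@Lb.d (nat_lit 618) (nat_lit 146) (nat_lit 518) (@Lb.r r2458 (@Lb.r r2440 (@Lb.r r1623 (@Lb.g g6 (@Lb.g g5 (@Lb.d (nat_lit 0) (nat_lit 129) (nat_lit 5) (@Lb.r r387 (@Lb.fp (nat_lit 3) t1470)))))))))
noncomputable def l30631 : Lb := (@Lb.r r21 (@Lb.d (nat_lit 154) (nat_lit 256) (nat_lit 256) (@Lb.g g8 (@Lb.g g10 (@Lb.g g7 (@Lb.r r2645 (@Lb.r r1706 (@Lb.r r2468 (@Lb.d (nat_lit 88) (nat_lit 26) (nat_lit 0) (@Lb.t (@Lb.fm (nat_lit 9) t4556)))))))))))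
noncomputable def l30632 : Lb := (@Lb.r r21 (@Lb.d (nat_lit 137) (nat_lit 256) (nat_lit 258) (@Lb.g g8 (@Lb.g g10 (@Lb.g g7 (@Lb.r r2645 (@Lb.r r1706 (@Lb.r r2660 (@Lb.d (nat_lit 41) (nat_lit 2) (nat_lit 9) (@Lb.t (@Lb.fm (nat_lit 9) t1470)))))))))))
noncomputable def l30633 : Lb := (@Lb.d (nat_lit 0) (nat_lit 0) (nat_lit 72) (@Lb.g g11 (@Lb.r r2386 (@Lb.r r657 (@Lb.r r539 (@Lb.r r2648 (@Lb.d (nat_lit 32) (nat_lit 66) (nat_lit 102) (@Lb.t (@Lb.fp (nat_lit 3) t1469)))))))))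
noncomputable def l30634 : Lb := (@Lb.d (nat_lit 128) (nat_lit 32) (nat_lit 72) (@Lb.g g11 (@Lb.r r2410 (@Lb.r r361 (@Lb.r r1384 (@Lb.r r2583 (@Lb.d (nat_lit 86) (nat_lit 164) (nat_lit 549) (@Lb.t (@Lb.fm (nat_lit 3) t386)))))))))
noncomputable def l30635 : Lb := (@Lb.d (nat_lit 4) (nat_lit 512) (nat_lit 66) (@Lb.g g8 (@Lb.g g9 (@Lb.g g10 (@Lb.g g7 (@Lb.r r386 (@Lb.r r97 (@Lb.r r24 (@Lb.d (nat_lit 330) (nat_lit 9) (nat_lit 585) (@Lb.fp (nat_lit 9) t166))))))))))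
noncomputable def l30636 : Lb := (@Lb.r r21 (@Lb.d (nat_lit 33) (nat_lit 0) (nat_lit 73) (@Lb.g g8 (@Lb.g g10 (@Lb.g g11 (@Lb.r r1284 (@Lb.r r1451 (@Lb.r r2389 (@Lb.r r1194 (@Lb.d (nat_lit 105) (nat_lit 134) (nat_lit 596) (@Lb.t (@Lb.fp (nat_lit 9) t4519))))))))))))
noncomputable def l30637 : Lb := (@Lb.d (nat_lit 42) (nat_lit 0) (nat_lit 64) (@Lb.g g8 (@Lb.g g11 (@Lb.r r1703 (@Lb.r r614 (@Lb.r r1637 (@Lb.r r1428 (@Lb.d (nat_lit 5) (nat_lit 80) (nat_lit 580) (@Lb.fm (nat_lit 3) t386)))))))))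
noncomputable def l30638 : Lb := (@Lb.d (nat_lit 34) (nat_lit 256) (nat_lit 64) (@Lb.g g8 (@Lb.g g11 (@Lb.r r1703 (@Lb.r r614 (@Lb.r r1637 (@Lb.r r1428 (@Lb.d (nat_lit 612) (nat_lit 80) (nat_lit 409) (@Lb.fm (nat_lit 3) t386)))))))))
noncomputable def l30639 : Lb := (@Lb.d (nat_lit 0) (nat_lit 0) (nat_lit 72) (@Lb.g g11 (@Lb.r r1410 (@Lb.r r579 (@Lb.r r2193 (@Lb.r r2180 (@Lb.d (nat_lit 5) (nat_lit 8) (nat_lit 1) (@Lb.t (@Lb.fp (nat_lit 3) t40)))))))))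
noncomputable def l30640 : Lb := (@Lb.r r70 (@Lb.d (nat_lit 20) (nat_lit 0) (nat_lit 0) (@Lb.g g8 (@Lb.g g9 (@Lb.r r2729 (@Lb.r r1642 (@Lb.r r1367 (@Lb.r r2728 (@Lb.d (nat_lit 132) (nat_lit 88) (nat_lit 166) (@Lb.fm (nat_lit 3) t1399))))))))))
noncomputable def l30641 : Lb := (@Lb.d (nat_lit 148) (nat_lit 0) (nat_lit 128) (@Lb.g g8 (@Lb.g g9 (@Lb.g g10 (@Lb.g g11 (@Lb.r r2729 (@Lb.r r2475 (@Lb.r r1130 (@Lb.r r2340 (@Lb.d (nat_lit 426) (nat_lit 138) (nat_lit 276) (@Lb.fm (nat_lit 9) t3194)))))))))))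
noncomputable def l30642 : Lb := (@Lb.r r323 (@Lb.d (nat_lit 4) (nat_lit 512) (nat_lit 0) (@Lb.g g8 (@Lb.g g9 (@Lb.g g10 (@Lb.r r2729 (@Lb.r r2475 (@Lb.r r2442 (@Lb.r r2436 (@Lb.d (nat_lit 97) (nat_lit 0) (nat_lit 672) (@Lb.t (@Lb.fm (nat_lit 9) t3561))))))))))))
noncomputable def l30643 : Lb := (@Lb.d (nat_lit 2) (nat_lit 516) (nat_lit 128) (@Lb.g g8 (@Lb.g g9 (@Lb.g g10 (@Lb.g g11 (@Lb.r r1699 (@Lb.r r596 (@Lb.r r682 (@Lb.r r2217 (@Lb.r r2212 (@Lb.d (nat_lit 352) (nat_lit 100) (nat_lit 602) (@Lb.fm (nat_lit 9) t1461))))))))))))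
noncomputable def l30644 : Lb := (@Lb.r r323 (@Lb.d (nat_lit 4) (nat_lit 256) (nat_lit 0) (@Lb.g g8 (@Lb.g g9 (@Lb.g g10 (@Lb.r r2729 (@Lb.r r2475 (@Lb.r r2442 (@Lb.r r2436 (@Lb.d (nat_lit 98) (nat_lit 0) (nat_lit 672) (@Lb.t (@Lb.fm (nat_lit 9) t3561))))))))))))
noncomputable def l30645 : Lb := (@Lb.r r323 (@Lb.d (nat_lit 128) (nat_lit 0) (nat_lit 2) (@Lb.g g8 (@Lb.g g10 (@Lb.r r346 (@Lb.r r661 (@Lb.r r1431 (@Lb.r r2632 (@Lb.d (nat_lit 361) (nat_lit 133) (nat_lit 64) (@Lb.fp (nat_lit 3) t71))))))))))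
noncomputable def l30646 : Lb := (@Lb.d (nat_lit 1) (nat_lit 2) (nat_lit 2) (@Lb.g g8 (@Lb.g g9 (@Lb.g g10 (@Lb.g g11 (@Lb.r r427 (@Lb.r r388 (@Lb.r r70 (@Lb.r r153 (@Lb.r r132 (@Lb.d (nat_lit 9) (nat_lit 66) (nat_lit 154) (@Lb.fp (nat_lit 9) t1022))))))))))))
noncomputable def l30647 : Lb := (@Lb.d (nat_lit 274) (nat_lit 273) (nat_lit 166) (@Lb.r r386 (@Lb.r r275 (@Lb.r r2645 (@Lb.g g6 (@Lb.g g5 (@Lb.g g4 (@Lb.d (nat_lit 338) (nat_lit 1) (nat_lit 1) (@Lb.r r391 (@Lb.t (@Lb.fm (nat_lit 9) t5518)))))))))))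
noncomputable def l30648 : Lb := (@Lb.r r70 (@Lb.r r263 (@Lb.d (nat_lit 2) (nat_lit 258) (nat_lit 0) (@Lb.g g8 (@Lb.g g9 (@Lb.r r1382 (@Lb.r r2601 (@Lb.r r2667 (@Lb.r r584 (@Lb.d (nat_lit 356) (nat_lit 24) (nat_lit 132) (@Lb.fp (nat_lit 3) t2989)))))))))))
noncomputable def l30649 : Lb := (@Lb.d (nat_lit 1) (nat_lit 258) (nat_lit 2) (@Lb.g g8 (@Lb.g g9 (@Lb.g g10 (@Lb.g g11 (@Lb.r r427 (@Lb.r r388 (@Lb.r r70 (@Lb.r r153 (@Lb.r r132 (@Lb.d (nat_lit 9) (nat_lit 73) (nat_lit 153) (@Lb.fp (nat_lit 9) t1022))))))))))))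
noncomputable def l30650 : Lb := (@Lb.r r612 (@Lb.r r359 (@Lb.r r2178 (@Lb.r r405 (@Lb.r r2596 (@Lb.d (nat_lit 0) (nat_lit 256) (nat_lit 32) (@Lb.fm (nat_lit 1) t2551)))))))
noncomputable def l30651 : Lb := (@Lb.r r1092 (@Lb.r r1105 (@Lb.d (nat_lit 0) (nat_lit 512) (nat_lit 2) (@Lb.g g10 (@Lb.r r643 (@Lb.r r2626 (@Lb.d (nat_lit 10) (nat_lit 2) (nat_lit 537) (@Lb.t (@Lb.fm (nat_lit 3) t979)))))))))
noncomputable def l30652 : Lb := (@Lb.d (nat_lit 137) (nat_lit 256) (nat_lit 0) (@Lb.g g8 (@Lb.r r551 (@Lb.r r2178 (@Lb.r r1557 (@Lb.r r1444 (@Lb.d (nat_lit 362) (nat_lit 166) (nat_lit 400) (@Lb.t (@Lb.fp (nat_lit 3) t1561)))))))))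
noncomputable def l30653 : Lb := (@Lb.r r323 (@Lb.d (nat_lit 16) (nat_lit 512) (nat_lit 2) (@Lb.g g10 (@Lb.r r327 (@Lb.r r168 (@Lb.r r105 (@Lb.r r82 (@Lb.d (nat_lit 290) (nat_lit 6) (nat_lit 32) (@Lb.t (@Lb.fp (nat_lit 3) t40))))))))))
noncomputable def l30654 : Lb := (@Lb.r r70 (@Lb.d (nat_lit 390) (nat_lit 10) (nat_lit 64) (@Lb.g g8 (@Lb.g g9 (@Lb.g g11 (@Lb.r r1430 (@Lb.r r1367 (@Lb.r r661 (@Lb.d (nat_lit 169) (nat_lit 41) (nat_lit 26) (@Lb.t (@Lb.fp (nat_lit 9) t601)))))))))))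
noncomputable def l30655 : Lb := (@Lb.d (nat_lit 2) (nat_lit 258) (nat_lit 73) (@Lb.g g8 (@Lb.g g9 (@Lb.g g10 (@Lb.g g11 (@Lb.r r2691 (@Lb.r r297 (@Lb.r r648 (@Lb.r r666 (@Lb.r r1156 (@Lb.d (nat_lit 646) (nat_lit 40) (nat_lit 137) (@Lb.fp (nat_lit 9) t668))))))))))))
noncomputable def l30656 : Lb := (@Lb.d (nat_lit 2) (nat_lit 258) (nat_lit 73) (@Lb.g g8 (@Lb.g g9 (@Lb.g g10 (@Lb.g g11 (@Lb.r r2691 (@Lb.r r297 (@Lb.r r648 (@Lb.r r666 (@Lb.r r1156 (@Lb.d (nat_lit 640) (nat_lit 37) (nat_lit 136) (@Lb.fp (nat_lit 9) t259))))))))))))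
noncomputable def l30657 : Lb := (@Lb.d (nat_lit 134) (nat_lit 545) (nat_lit 65) (@Lb.g g8 (@Lb.g g9 (@Lb.g g10 (@Lb.g g11 (@Lb.r r586 (@Lb.r r1611 (@Lb.r r2453 (@Lb.r r2084 (@Lb.d (nat_lit 513) (nat_lit 100) (nat_lit 548) (@Lb.fm (nat_lit 9) t4458)))))))))))
noncomputable def l30658 : Lb := (@Lb.d (nat_lit 0) (nat_lit 609) (nat_lit 0) (@Lb.g g5 (@Lb.r r322 (@Lb.r r1667 (@Lb.r r578 (@Lb.r r36 (@Lb.d (nat_lit 5) (nat_lit 128) (nat_lit 2) (@Lb.t (@Lb.fp (nat_lit 3) t154)))))))))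
noncomputable def l30659 : Lb := (@Lb.d (nat_lit 0) (nat_lit 8) (nat_lit 130) (@Lb.g g8 (@Lb.g g10 (@Lb.g g11 (@Lb.r r387 (@Lb.r r101 (@Lb.r r24 (@Lb.d (nat_lit 618) (nat_lit 2) (nat_lit 536) (@Lb.t (@Lb.fm (nat_lit 9) t263))))))))))
noncomputable def l30660 : Lb := (@Lb.d (nat_lit 4) (nat_lit 546) (nat_lit 73) (@Lb.g g8 (@Lb.g g9 (@Lb.g g10 (@Lb.g g11 (@Lb.r r683 (@Lb.r r89 (@Lb.r r2658 (@Lb.d (nat_lit 354) (nat_lit 72) (nat_lit 38) (@Lb.fm (nat_lit 9) t2372))))))))))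
noncomputable def l30661 : Lb := (@Lb.d (nat_lit 4) (nat_lit 513) (nat_lit 0) (@Lb.g g5 (@Lb.g g6 (@Lb.r r24 (@Lb.d (nat_lit 325) (nat_lit 4) (nat_lit 513) (@Lb.fp (nat_lit 3) t1021))))))
noncomputable def l30662 : Lb := (@Lb.d (nat_lit 2) (nat_lit 522) (nat_lit 129) (@Lb.g g8 (@Lb.g g9 (@Lb.g g10 (@Lb.g g11 (@Lb.r r1323 (@Lb.r r356 (@Lb.r r154 (@Lb.r r21 (@Lb.r r2084 (@Lb.d (nat_lit 2) (nat_lit 70) (nat_lit 138) (@Lb.fm (nat_lit 9) t5519))))))))))))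
noncomputable def l30663 : Lb := (@Lb.r r275 (@Lb.d (nat_lit 0) (nat_lit 0) (nat_lit 2) (@Lb.g g9 (@Lb.g g10 (@Lb.r r1698 (@Lb.r r1411 (@Lb.r r404 (@Lb.r r537 (@Lb.d (nat_lit 538) (nat_lit 0) (nat_lit 0) (@Lb.fp (nat_lit 3) t5520))))))))))
noncomputable def l30664 : Lb := (@Lb.d (nat_lit 134) (nat_lit 290) (nat_lit 9) (@Lb.g g8 (@Lb.g g9 (@Lb.g g10 (@Lb.g g11 (@Lb.r r2658 (@Lb.r r552 (@Lb.r r1641 (@Lb.r r299 (@Lb.r r2084 (@Lb.d (nat_lit 641) (nat_lit 138) (nat_lit 674) (@Lb.fp (nat_lit 9) t5521))))))))))))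
noncomputable def l30665 : Lb := (@Lb.d (nat_lit 2) (nat_lit 2) (nat_lit 130) (@Lb.g g8 (@Lb.g g9 (@Lb.g g10 (@Lb.g g11 (@Lb.r r427 (@Lb.r r420 (@Lb.r r102 (@Lb.r r21 (@Lb.r r36 (@Lb.d (nat_lit 265) (nat_lit 2) (nat_lit 169) (@Lb.fp (nat_lit 9) t61))))))))))))
noncomputable def l30666 : Lb := (@Lb.r r331 (@Lb.d (nat_lit 37) (nat_lit 256) (nat_lit 2) (@Lb.g g8 (@Lb.g g9 (@Lb.g g10 (@Lb.r r1689 (@Lb.r r1563 (@Lb.r r1684 (@Lb.d (nat_lit 405) (nat_lit 101) (nat_lit 662) (@Lb.t (@Lb.fp (nat_lit 9) t5)))))))))))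
noncomputable def l30667 : Lb := (@Lb.r r355 (@Lb.d (nat_lit 4) (nat_lit 9) (nat_lit 17) (@Lb.g g8 (@Lb.g g9 (@Lb.g g6 (@Lb.r r2667 (@Lb.r r1625 (@Lb.d (nat_lit 618) (nat_lit 37) (nat_lit 280) (@Lb.t (@Lb.fm (nat_lit 9) t1541))))))))))
noncomputable def l30668 : Lb := (@Lb.d (nat_lit 2) (nat_lit 9) (nat_lit 72) (@Lb.g g8 (@Lb.g g9 (@Lb.g g10 (@Lb.g g11 (@Lb.r r1689 (@Lb.r r2391 (@Lb.r r1674 (@Lb.r r24 (@Lb.d (nat_lit 641) (nat_lit 82) (nat_lit 522) (@Lb.fp (nat_lit 9) t1001)))))))))))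
noncomputable def l30669 : Lb := (@Lb.d (nat_lit 2) (nat_lit 521) (nat_lit 72) (@Lb.g g8 (@Lb.g g9 (@Lb.g g10 (@Lb.g g11 (@Lb.r r2705 (@Lb.r r535 (@Lb.r r2440 (@Lb.r r2458 (@Lb.d (nat_lit 408) (nat_lit 33) (nat_lit 70) (@Lb.fm (nat_lit 9) t5522)))))))))))
noncomputable def l30670 : Lb := (@Lb.r r355 (@Lb.d (nat_lit 4) (nat_lit 521) (nat_lit 17) (@Lb.g g8 (@Lb.g g9 (@Lb.g g6 (@Lb.r r2667 (@Lb.r r1625 (@Lb.d (nat_lit 618) (nat_lit 42) (nat_lit 281) (@Lb.t (@Lb.fm (nat_lit 9) t1541))))))))))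
noncomputable def l30671 : Lb := (@Lb.d (nat_lit 154) (nat_lit 37) (nat_lit 260) (@Lb.r r617 (@Lb.r r1387 (@Lb.g g10 (@Lb.g g5 (@Lb.g g4 (@Lb.d (nat_lit 8) (nat_lit 21) (nat_lit 18) (@Lb.t (@Lb.fp (nat_lit 9) t1222)))))))))
noncomputable def l30672 : Lb := (@Lb.d (nat_lit 2) (nat_lit 521) (nat_lit 72) (@Lb.g g8 (@Lb.g g9 (@Lb.g g10 (@Lb.g g11 (@Lb.r r2705 (@Lb.r r535 (@Lb.r r2440 (@Lb.r r2458 (@Lb.d (nat_lit 406) (nat_lit 32) (nat_lit 134) (@Lb.fm (nat_lit 9) t3446)))))))))))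
noncomputable def l30673 : Lb := (@Lb.d (nat_lit 144) (nat_lit 353) (nat_lit 132) (@Lb.g g8 (@Lb.g g5 (@Lb.g g10 (@Lb.g g11 (@Lb.r r658 (@Lb.r r1415 (@Lb.r r1060 (@Lb.d (nat_lit 416) (nat_lit 82) (nat_lit 682) (@Lb.fp (nat_lit 9) t5523))))))))))
noncomputable def l30674 : Lb := (@Lb.d (nat_lit 2) (nat_lit 514) (nat_lit 130) (@Lb.g g8 (@Lb.g g9 (@Lb.g g10 (@Lb.g g11 (@Lb.r r427 (@Lb.r r145 (@Lb.r r356 (@Lb.r r154 (@Lb.r r132 (@Lb.d (nat_lit 280) (nat_lit 2) (nat_lit 170) (@Lb.fm (nat_lit 9) t61))))))))))))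
noncomputable def l30675 : Lb := (@Lb.d (nat_lit 4) (nat_lit 32) (nat_lit 64) (@Lb.g g8 (@Lb.g g11 (@Lb.r r2337 (@Lb.r r531 (@Lb.r r2178 (@Lb.d (nat_lit 320) (nat_lit 149) (nat_lit 129) (@Lb.fp (nat_lit 3) t3352))))))))
noncomputable def l30676 : Lb := (@Lb.r r331 (@Lb.d (nat_lit 32) (nat_lit 521) (nat_lit 1) (@Lb.g g8 (@Lb.g g9 (@Lb.g g10 (@Lb.r r683 (@Lb.r r1186 (@Lb.r r341 (@Lb.r r1636 (@Lb.d (nat_lit 645) (nat_lit 154) (nat_lit 649) (@Lb.t (@Lb.fm (nat_lit 9) t5524))))))))))))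
noncomputable def l30677 : Lb := (@Lb.g g7 (@Lb.r r354 (@Lb.r r1427 (@Lb.r r101 (@Lb.d (nat_lit 133) (nat_lit 401) (nat_lit 0) (@Lb.t (@Lb.fp (nat_lit 3) t240)))))))
noncomputable def l30678 : Lb := (@Lb.d (nat_lit 137) (nat_lit 2) (nat_lit 17) (@Lb.g g8 (@Lb.g g9 (@Lb.g g10 (@Lb.r r1571 (@Lb.r r41 (@Lb.r r2344 (@Lb.d (nat_lit 68) (nat_lit 98) (nat_lit 337) (@Lb.t (@Lb.fp (nat_lit 9) t468))))))))))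
noncomputable def l30679 : Lb := (@Lb.d (nat_lit 9) (nat_lit 545) (nat_lit 66) (@Lb.g g8 (@Lb.g g9 (@Lb.g g10 (@Lb.g g11 (@Lb.r r1707 (@Lb.r r2724 (@Lb.r r2214 (@Lb.r r2193 (@Lb.d (nat_lit 258) (nat_lit 138) (nat_lit 153) (@Lb.fp (nat_lit 9) t125)))))))))))
noncomputable def l30680 : Lb := (@Lb.d (nat_lit 9) (nat_lit 2) (nat_lit 73) (@Lb.g g8 (@Lb.g g9 (@Lb.g g10 (@Lb.g g11 (@Lb.r r276 (@Lb.r r539 (@Lb.r r405 (@Lb.r r342 (@Lb.r r676 (@Lb.d (nat_lit 9) (nat_lit 2) (nat_lit 137) (@Lb.fm (nat_lit 9) t2))))))))))))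
noncomputable def l30681 : Lb := (@Lb.r r331 (@Lb.d (nat_lit 33) (nat_lit 265) (nat_lit 1) (@Lb.g g8 (@Lb.g g9 (@Lb.g g10 (@Lb.r r683 (@Lb.r r1186 (@Lb.r r341 (@Lb.r r1636 (@Lb.d (nat_lit 645) (nat_lit 154) (nat_lit 649) (@Lb.t (@Lb.fm (nat_lit 9) t5524))))))))))))
noncomputable def l30682 : Lb := (@Lb.r r359 (@Lb.d (nat_lit 16) (nat_lit 9) (nat_lit 33) (@Lb.g g8 (@Lb.g g9 (@Lb.g g6 (@Lb.r r2563 (@Lb.r r1109 (@Lb.r r20 (@Lb.d (nat_lit 81) (nat_lit 137) (nat_lit 528) (@Lb.t (@Lb.fm (nat_lit 9) t5525)))))))))))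
noncomputable def l30683 : Lb := (@Lb.d (nat_lit 150) (nat_lit 161) (nat_lit 102) (@Lb.r r24 (@Lb.r r1383 (@Lb.r r2389 (@Lb.g g6 (@Lb.g g4 (@Lb.d (nat_lit 1) (nat_lit 0) (nat_lit 42) (@Lb.r r387 (@Lb.fp (nat_lit 3) t2801)))))))))
noncomputable def l30684 : Lb := (@Lb.d (nat_lit 145) (nat_lit 0) (nat_lit 256) (@Lb.r r24 (@Lb.r r101 (@Lb.r r2402 (@Lb.r r1299 (@Lb.g g10 (@Lb.r r387 (@Lb.t (@Lb.fp (nat_lit 3) t2558)))))))))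
noncomputable def l30685 : Lb := (@Lb.d (nat_lit 136) (nat_lit 10) (nat_lit 64) (@Lb.g g9 (@Lb.g g11 (@Lb.r r2708 (@Lb.r r1366 (@Lb.r r683 (@Lb.r r1705 (@Lb.d (nat_lit 586) (nat_lit 88) (nat_lit 554) (@Lb.fm (nat_lit 3) t40)))))))))
noncomputable def l30686 : Lb := (@Lb.d (nat_lit 133) (nat_lit 160) (nat_lit 65) (@Lb.r r2308 (@Lb.r r2587 (@Lb.r r520 (@Lb.g g7 (@Lb.g g5 (@Lb.g g4 (@Lb.d (nat_lit 68) (nat_lit 6) (nat_lit 64) (@Lb.t (@Lb.fp (nat_lit 9) t5526))))))))))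
noncomputable def l30687 : Lb := (@Lb.d (nat_lit 2) (nat_lit 514) (nat_lit 130) (@Lb.g g8 (@Lb.g g9 (@Lb.g g10 (@Lb.g g11 (@Lb.r r610 (@Lb.r r1607 (@Lb.r r97 (@Lb.r r2436 (@Lb.d (nat_lit 153) (nat_lit 89) (nat_lit 676) (@Lb.fp (nat_lit 9) t1954)))))))))))
noncomputable def l30688 : Lb := (@Lb.d (nat_lit 0) (nat_lit 257) (nat_lit 64) (@Lb.g g8 (@Lb.g g9 (@Lb.g g10 (@Lb.g g7 (@Lb.r r418 (@Lb.r r1169 (@Lb.r r2120 (@Lb.d (nat_lit 613) (nat_lit 170) (nat_lit 273) (@Lb.fm (nat_lit 9) t3206))))))))))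
noncomputable def l30689 : Lb := (@Lb.d (nat_lit 22) (nat_lit 8) (nat_lit 390) (@Lb.r r21 (@Lb.r r100 (@Lb.r r386 (@Lb.r r1347 (@Lb.g g7 (@Lb.g g6 (@Lb.g g5 (@Lb.d (nat_lit 0) (nat_lit 1) (nat_lit 129) (@Lb.t (@Lb.fm (nat_lit 9) t979)))))))))))
noncomputable def l30690 : Lb := (@Lb.r r82 (@Lb.d (nat_lit 16) (nat_lit 513) (nat_lit 128) (@Lb.g g8 (@Lb.g g9 (@Lb.g g11 (@Lb.r r618 (@Lb.r r345 (@Lb.r r2471 (@Lb.r r1620 (@Lb.d (nat_lit 678) (nat_lit 102) (nat_lit 384) (@Lb.t (@Lb.fm (nat_lit 9) t1686))))))))))))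
noncomputable def l30691 : Lb := (@Lb.r r322 (@Lb.d (nat_lit 4) (nat_lit 34) (nat_lit 128) (@Lb.g g8 (@Lb.g g9 (@Lb.g g11 (@Lb.r r1642 (@Lb.r r2328 (@Lb.r r1685 (@Lb.d (nat_lit 358) (nat_lit 10) (nat_lit 614) (@Lb.t (@Lb.fp (nat_lit 9) t501)))))))))))
noncomputable def l30692 : Lb := (@Lb.d (nat_lit 617) (nat_lit 576) (nat_lit 664) (@Lb.r r1412 (@Lb.r r1382 (@Lb.r r2731 (@Lb.g g7 (@Lb.g g9 (@Lb.g g4 (@Lb.d (nat_lit 4) (nat_lit 130) (nat_lit 64) (@Lb.r r98 (@Lb.t (@Lb.fp (nat_lit 9) t3306)))))))))))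
noncomputable def l30693 : Lb := (@Lb.r r21 (@Lb.r r322 (@Lb.d (nat_lit 129) (nat_lit 32) (nat_lit 128) (@Lb.g g8 (@Lb.g g11 (@Lb.r r1626 (@Lb.r r2341 (@Lb.r r600 (@Lb.d (nat_lit 678) (nat_lit 154) (nat_lit 330) (@Lb.fm (nat_lit 3) t1311))))))))))
noncomputable def l30694 : Lb := (@Lb.d (nat_lit 5) (nat_lit 101) (nat_lit 70) (@Lb.r r289 (@Lb.r r279 (@Lb.r r584 (@Lb.r r102 (@Lb.g g6 (@Lb.r r387 (@Lb.t (@Lb.fm (nat_lit 3) t597)))))))))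
noncomputable def l30695 : Lb := (@Lb.r r21 (@Lb.r r70 (@Lb.d (nat_lit 129) (nat_lit 512) (nat_lit 136) (@Lb.g g8 (@Lb.g g11 (@Lb.r r1620 (@Lb.r r74 (@Lb.r r25 (@Lb.d (nat_lit 405) (nat_lit 165) (nat_lit 596) (@Lb.fm (nat_lit 3) t42))))))))))
noncomputable def l30696 : Lb := (@Lb.d (nat_lit 33) (nat_lit 258) (nat_lit 73) (@Lb.g g8 (@Lb.g g9 (@Lb.g g10 (@Lb.g g11 (@Lb.r r1194 (@Lb.r r549 (@Lb.r r615 (@Lb.r r2577 (@Lb.r r2180 (@Lb.d (nat_lit 394) (nat_lit 2) (nat_lit 150) (@Lb.fm (nat_lit 9) t68))))))))))))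
noncomputable def l30697 : Lb := (@Lb.r r331 (@Lb.d (nat_lit 161) (nat_lit 2) (nat_lit 2) (@Lb.g g8 (@Lb.g g9 (@Lb.g g10 (@Lb.r r1433 (@Lb.r r2343 (@Lb.r r1604 (@Lb.r r1098 (@Lb.d (nat_lit 336) (nat_lit 138) (nat_lit 136) (@Lb.t (@Lb.fm (nat_lit 9) t163))))))))))))
noncomputable def l30698 : Lb := (@Lb.d (nat_lit 2) (nat_lit 1) (nat_lit 10) (@Lb.g g8 (@Lb.g g9 (@Lb.g g10 (@Lb.g g11 (@Lb.r r74 (@Lb.r r296 (@Lb.r r409 (@Lb.r r1319 (@Lb.r r2564 (@Lb.d (nat_lit 5) (nat_lit 74) (nat_lit 681) (@Lb.fm (nat_lit 9) t51))))))))))))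
noncomputable def l30699 : Lb := (@Lb.r r580 (@Lb.r r593 (@Lb.d (nat_lit 0) (nat_lit 40) (nat_lit 66) (@Lb.g g6 (@Lb.g g11 (@Lb.r r1425 (@Lb.r r2343 (@Lb.r r2632 (@Lb.d (nat_lit 260) (nat_lit 72) (nat_lit 32) (@Lb.fm (nat_lit 3) t125))))))))))
noncomputable def l30700 : Lb := (@Lb.r r275 (@Lb.d (nat_lit 9) (nat_lit 513) (nat_lit 0) (@Lb.g g8 (@Lb.g g9 (@Lb.r r2596 (@Lb.r r1351 (@Lb.r r2178 (@Lb.d (nat_lit 0) (nat_lit 164) (nat_lit 9) (@Lb.fp (nat_lit 3) t5527)))))))))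
noncomputable def l30701 : Lb := (@Lb.d (nat_lit 2) (nat_lit 538) (nat_lit 1) (@Lb.g g8 (@Lb.g g9 (@Lb.g g10 (@Lb.g g11 (@Lb.r r2391 (@Lb.r r358 (@Lb.r r664 (@Lb.r r421 (@Lb.d (nat_lit 105) (nat_lit 97) (nat_lit 137) (@Lb.fp (nat_lit 9) t1879)))))))))))
noncomputable def l30702 : Lb := (@Lb.g g4 (@Lb.r r2387 (@Lb.r r2178 (@Lb.r r1633 (@Lb.r r36 (@Lb.d (nat_lit 0) (nat_lit 152) (nat_lit 297) (@Lb.t (@Lb.fm (nat_lit 3) t2131))))))))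
noncomputable def l30703 : Lb := (@Lb.d (nat_lit 1) (nat_lit 265) (nat_lit 1) (@Lb.g g8 (@Lb.g g9 (@Lb.g g10 (@Lb.g g11 (@Lb.r r427 (@Lb.r r388 (@Lb.r r70 (@Lb.r r153 (@Lb.r r132 (@Lb.d (nat_lit 6) (nat_lit 72) (nat_lit 153) (@Lb.fp (nat_lit 9) t408))))))))))))
noncomputable def l30704 : Lb := (@Lb.d (nat_lit 34) (nat_lit 521) (nat_lit 0) (@Lb.g g8 (@Lb.g g9 (@Lb.g g11 (@Lb.r r1106 (@Lb.r r2469 (@Lb.r r1307 (@Lb.r r1304 (@Lb.d (nat_lit 137) (nat_lit 16) (nat_lit 345) (@Lb.t (@Lb.fm (nat_lit 9) t1639)))))))))))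
noncomputable def l30705 : Lb := (@Lb.d (nat_lit 34) (nat_lit 265) (nat_lit 0) (@Lb.g g8 (@Lb.g g9 (@Lb.r r1106 (@Lb.r r2469 (@Lb.r r1307 (@Lb.r r1304 (@Lb.d (nat_lit 137) (nat_lit 16) (nat_lit 345) (@Lb.fm (nat_lit 3) t1639)))))))))
noncomputable def l30706 : Lb := (@Lb.d (nat_lit 68) (nat_lit 16) (nat_lit 2) (@Lb.g g8 (@Lb.g g9 (@Lb.g g10 (@Lb.g g11 (@Lb.r r1698 (@Lb.r r1415 (@Lb.r r149 (@Lb.r r408 (@Lb.d (nat_lit 593) (nat_lit 69) (nat_lit 82) (@Lb.fp (nat_lit 9) t823)))))))))))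
noncomputable def l30707 : Lb := (@Lb.d (nat_lit 129) (nat_lit 521) (nat_lit 129) (@Lb.g g8 (@Lb.g g9 (@Lb.g g10 (@Lb.g g11 (@Lb.r r419 (@Lb.r r1156 (@Lb.r r2438 (@Lb.r r25 (@Lb.d (nat_lit 406) (nat_lit 38) (nat_lit 101) (@Lb.fm (nat_lit 9) t3500)))))))))))
noncomputable def l30708 : Lb := (@Lb.d (nat_lit 129) (nat_lit 545) (nat_lit 66) (@Lb.g g8 (@Lb.g g9 (@Lb.g g10 (@Lb.g g11 (@Lb.r r2698 (@Lb.r r101 (@Lb.r r2692 (@Lb.r r1447 (@Lb.d (nat_lit 153) (nat_lit 73) (nat_lit 128) (@Lb.fp (nat_lit 9) t750)))))))))))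
noncomputable def l30709 : Lb := (@Lb.d (nat_lit 2) (nat_lit 545) (nat_lit 9) (@Lb.g g8 (@Lb.g g9 (@Lb.g g10 (@Lb.g g11 (@Lb.r r1699 (@Lb.r r2088 (@Lb.r r89 (@Lb.r r2658 (@Lb.d (nat_lit 553) (nat_lit 137) (nat_lit 416) (@Lb.fp (nat_lit 9) t3498)))))))))))
noncomputable def l30710 : Lb := (@Lb.d (nat_lit 642) (nat_lit 512) (nat_lit 320) (@Lb.r r24 (@Lb.r r101 (@Lb.r r1426 (@Lb.g g7 (@Lb.g g5 (@Lb.g g4 (@Lb.d (nat_lit 5) (nat_lit 1) (nat_lit 68) (@Lb.r r578 (@Lb.t (@Lb.fm (nat_lit 9) t737)))))))))))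
noncomputable def l30711 : Lb := (@Lb.d (nat_lit 2) (nat_lit 265) (nat_lit 129) (@Lb.g g8 (@Lb.g g9 (@Lb.g g10 (@Lb.g g11 (@Lb.r r427 (@Lb.r r424 (@Lb.r r106 (@Lb.r r97 (@Lb.d (nat_lit 325) (nat_lit 6) (nat_lit 513) (@Lb.fp (nat_lit 9) t3501)))))))))))
noncomputable def l30712 : Lb := (@Lb.d (nat_lit 2) (nat_lit 289) (nat_lit 130) (@Lb.g g8 (@Lb.g g9 (@Lb.g g10 (@Lb.g g11 (@Lb.r r1666 (@Lb.r r516 (@Lb.r r1431 (@Lb.r r2577 (@Lb.r r1060 (@Lb.d (nat_lit 617) (nat_lit 161) (nat_lit 665) (@Lb.fm (nat_lit 9) t823))))))))))))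
noncomputable def l30713 : Lb := (@Lb.d (nat_lit 1) (nat_lit 514) (nat_lit 130) (@Lb.g g4 (@Lb.g g9 (@Lb.g g10 (@Lb.g g11 (@Lb.r r679 (@Lb.r r578 (@Lb.r r37 (@Lb.d (nat_lit 8) (nat_lit 137) (nat_lit 386) (@Lb.fm (nat_lit 9) t119))))))))))
noncomputable def l30714 : Lb := (@Lb.d (nat_lit 130) (nat_lit 521) (nat_lit 129) (@Lb.g g8 (@Lb.g g9 (@Lb.g g10 (@Lb.g g11 (@Lb.r r419 (@Lb.r r1156 (@Lb.r r2438 (@Lb.r r25 (@Lb.d (nat_lit 406) (nat_lit 33) (nat_lit 100) (@Lb.fm (nat_lit 9) t3545)))))))))))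
noncomputable def l30715 : Lb := (@Lb.d (nat_lit 170) (nat_lit 648) (nat_lit 258) (@Lb.r r1317 (@Lb.r r603 (@Lb.r r516 (@Lb.g g7 (@Lb.g g6 (@Lb.d (nat_lit 80) (nat_lit 0) (nat_lit 97) (@Lb.fm (nat_lit 3) t5528))))))))
noncomputable def l30716 : Lb := (@Lb.d (nat_lit 610) (nat_lit 101) (nat_lit 16) (@Lb.r r101 (@Lb.r r2403 (@Lb.r r594 (@Lb.g g6 (@Lb.t (@Lb.fp (nat_lit 3) t5529)))))))
noncomputable def l30717 : Lb := (@Lb.r r2331 (@Lb.r r101 (@Lb.r r594 (@Lb.d (nat_lit 96) (nat_lit 100) (nat_lit 129) (@Lb.fm (nat_lit 1) t5530)))))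
noncomputable def l30718 : Lb := (@Lb.d (nat_lit 0) (nat_lit 0) (nat_lit 130) (@Lb.g g10 (@Lb.g g11 (@Lb.r r2435 (@Lb.r r1434 (@Lb.r r101 (@Lb.r r8 (@Lb.d (nat_lit 586) (nat_lit 6) (nat_lit 257) (@Lb.fp (nat_lit 3) t5465)))))))))
noncomputable def l30719 : Lb := (@Lb.d (nat_lit 104) (nat_lit 294) (nat_lit 592) (@Lb.r r101 (@Lb.r r1431 (@Lb.r r2454 (@Lb.g g7 (@Lb.d (nat_lit 0) (nat_lit 0) (nat_lit 68) (@Lb.t (@Lb.fm (nat_lit 3) t5531))))))))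
noncomputable def l30720 : Lb := (@Lb.r r82 (@Lb.d (nat_lit 134) (nat_lit 0) (nat_lit 128) (@Lb.g g8 (@Lb.g g9 (@Lb.g g11 (@Lb.r r2467 (@Lb.r r386 (@Lb.r r36 (@Lb.r r1125 (@Lb.d (nat_lit 70) (nat_lit 9) (nat_lit 530) (@Lb.t (@Lb.fm (nat_lit 9) t3330))))))))))))
noncomputable def l30721 : Lb := (@Lb.d (nat_lit 146) (nat_lit 516) (nat_lit 65) (@Lb.g g8 (@Lb.g g9 (@Lb.g g10 (@Lb.g g11 (@Lb.r r427 (@Lb.r r1172 (@Lb.r r598 (@Lb.r r37 (@Lb.d (nat_lit 102) (nat_lit 69) (nat_lit 601) (@Lb.fm (nat_lit 9) t4197)))))))))))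
noncomputable def l30722 : Lb := (@Lb.d (nat_lit 1) (nat_lit 258) (nat_lit 73) (@Lb.g g8 (@Lb.g g9 (@Lb.g g10 (@Lb.g g11 (@Lb.r r2666 (@Lb.r r579 (@Lb.r r104 (@Lb.r r25 (@Lb.d (nat_lit 408) (nat_lit 9) (nat_lit 358) (@Lb.fp (nat_lit 9) t61)))))))))))
noncomputable def l30723 : Lb := (@Lb.r r532 (@Lb.r r82 (@Lb.d (nat_lit 128) (nat_lit 341) (nat_lit 264) (@Lb.g g9 (@Lb.g g11 (@Lb.r r1112 (@Lb.r r2438 (@Lb.d (nat_lit 612) (nat_lit 26) (nat_lit 394) (@Lb.fm (nat_lit 3) t3511)))))))))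
noncomputable def l30724 : Lb := (@Lb.d (nat_lit 146) (nat_lit 4) (nat_lit 65) (@Lb.g g8 (@Lb.g g9 (@Lb.g g10 (@Lb.g g11 (@Lb.r r427 (@Lb.r r1172 (@Lb.r r598 (@Lb.r r37 (@Lb.d (nat_lit 101) (nat_lit 69) (nat_lit 601) (@Lb.fm (nat_lit 9) t2564)))))))))))
noncomputable def l30725 : Lb := (@Lb.d (nat_lit 2) (nat_lit 2) (nat_lit 73) (@Lb.g g8 (@Lb.g g9 (@Lb.g g10 (@Lb.g g11 (@Lb.r r2666 (@Lb.r r579 (@Lb.r r104 (@Lb.r r25 (@Lb.d (nat_lit 409) (nat_lit 89) (nat_lit 594) (@Lb.fp (nat_lit 9) t492)))))))))))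
noncomputable def l30726 : Lb := (@Lb.d (nat_lit 400) (nat_lit 256) (nat_lit 33) (@Lb.r r1604 (@Lb.r r1617 (@Lb.g g6 (@Lb.g g4 (@Lb.d (nat_lit 1) (nat_lit 0) (nat_lit 5) (@Lb.fm (nat_lit 3) t5532)))))))
noncomputable def l30727 : Lb := (@Lb.r r82 (@Lb.d (nat_lit 1) (nat_lit 290) (nat_lit 64) (@Lb.g g8 (@Lb.g g9 (@Lb.g g11 (@Lb.r r291 (@Lb.r r1124 (@Lb.r r2650 (@Lb.r r1425 (@Lb.d (nat_lit 0) (nat_lit 149) (nat_lit 356) (@Lb.t (@Lb.fm (nat_lit 9) t1754))))))))))))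
noncomputable def l30728 : Lb := (@Lb.d (nat_lit 0) (nat_lit 2) (nat_lit 128) (@Lb.g g8 (@Lb.g g9 (@Lb.g g10 (@Lb.g g11 (@Lb.r r1451 (@Lb.r r1444 (@Lb.r r390 (@Lb.r r97 (@Lb.d (nat_lit 97) (nat_lit 73) (nat_lit 521) (@Lb.fp (nat_lit 9) t188)))))))))))
noncomputable def l30729 : Lb := (@Lb.r r20 (@Lb.r r323 (@Lb.d (nat_lit 0) (nat_lit 514) (nat_lit 0) (@Lb.g g9 (@Lb.g g10 (@Lb.r r419 (@Lb.r r98 (@Lb.r r2200 (@Lb.d (nat_lit 8) (nat_lit 129) (nat_lit 16) (@Lb.fp (nat_lit 3) t5533))))))))))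
noncomputable def l30730 : Lb := (@Lb.r r70 (@Lb.r r263 (@Lb.d (nat_lit 5) (nat_lit 512) (nat_lit 0) (@Lb.g g8 (@Lb.g g9 (@Lb.r r299 (@Lb.r r106 (@Lb.r r97 (@Lb.r r148 (@Lb.d (nat_lit 294) (nat_lit 10) (nat_lit 17) (@Lb.fp (nat_lit 3) t5014)))))))))))
noncomputable def l30731 : Lb := (@Lb.r r21 (@Lb.r r70 (@Lb.r r263 (@Lb.g g8 (@Lb.r r267 (@Lb.r r74 (@Lb.r r97 (@Lb.d (nat_lit 258) (nat_lit 512) (nat_lit 18) (@Lb.t (@Lb.fm (nat_lit 3) t5014))))))))))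
noncomputable def l30732 : Lb := (@Lb.r r70 (@Lb.r r263 (@Lb.d (nat_lit 0) (nat_lit 2) (nat_lit 0) (@Lb.g g8 (@Lb.g g9 (@Lb.r r299 (@Lb.r r106 (@Lb.r r37 (@Lb.r r40 (@Lb.d (nat_lit 277) (nat_lit 9) (nat_lit 18) (@Lb.fm (nat_lit 3) t2462)))))))))))
noncomputable def l30733 : Lb := (@Lb.r r20 (@Lb.r r323 (@Lb.d (nat_lit 0) (nat_lit 2) (nat_lit 0) (@Lb.g g9 (@Lb.g g10 (@Lb.r r419 (@Lb.r r98 (@Lb.r r2200 (@Lb.d (nat_lit 8) (nat_lit 136) (nat_lit 18) (@Lb.fp (nat_lit 3) t5533))))))))))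
noncomputable def l30734 : Lb := (@Lb.d (nat_lit 0) (nat_lit 514) (nat_lit 74) (@Lb.g g8 (@Lb.g g9 (@Lb.g g10 (@Lb.g g11 (@Lb.r r1451 (@Lb.r r1444 (@Lb.r r390 (@Lb.r r97 (@Lb.d (nat_lit 96) (nat_lit 73) (nat_lit 521) (@Lb.fp (nat_lit 9) t188)))))))))))
noncomputable def l30735 : Lb := (@Lb.d (nat_lit 130) (nat_lit 32) (nat_lit 66) (@Lb.g g8 (@Lb.g g10 (@Lb.g g11 (@Lb.r r2642 (@Lb.r r1125 (@Lb.r r340 (@Lb.r r1611 (@Lb.d (nat_lit 609) (nat_lit 133) (nat_lit 400) (@Lb.t (@Lb.fm (nat_lit 9) t2879)))))))))))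
noncomputable def l30736 : Lb := (@Lb.d (nat_lit 102) (nat_lit 1) (nat_lit 149) (@Lb.r r1416 (@Lb.r r2391 (@Lb.r r2729 (@Lb.r r2666 (@Lb.g g5 (@Lb.d (nat_lit 0) (nat_lit 5) (nat_lit 0) (@Lb.t (@Lb.fm (nat_lit 3) t5406)))))))))
noncomputable def l30737 : Lb := (@Lb.d (nat_lit 37) (nat_lit 65) (nat_lit 96) (@Lb.r r1416 (@Lb.r r2329 (@Lb.r r2146 (@Lb.g g7 (@Lb.d (nat_lit 64) (nat_lit 32) (nat_lit 68) (@Lb.r r578 (@Lb.t (@Lb.fp (nat_lit 3) t5534)))))))))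
noncomputable def l30738 : Lb := (@Lb.r r323 (@Lb.d (nat_lit 0) (nat_lit 2) (nat_lit 1) (@Lb.g g9 (@Lb.g g6 (@Lb.r r2567 (@Lb.r r97 (@Lb.r r2120 (@Lb.d (nat_lit 280) (nat_lit 137) (nat_lit 85) (@Lb.fm (nat_lit 3) t1172)))))))))
noncomputable def l30739 : Lb := (@Lb.d (nat_lit 134) (nat_lit 0) (nat_lit 64) (@Lb.g g8 (@Lb.g g9 (@Lb.g g11 (@Lb.r r618 (@Lb.r r2667 (@Lb.r r2073 (@Lb.r r2072 (@Lb.d (nat_lit 266) (nat_lit 164) (nat_lit 613) (@Lb.t (@Lb.fm (nat_lit 9) t2686)))))))))))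
noncomputable def l30740 : Lb := (@Lb.r r20 (@Lb.d (nat_lit 0) (nat_lit 258) (nat_lit 162) (@Lb.g g9 (@Lb.g g6 (@Lb.g g11 (@Lb.r r2659 (@Lb.r r2661 (@Lb.d (nat_lit 405) (nat_lit 18) (nat_lit 41) (@Lb.t (@Lb.fp (nat_lit 9) t5535))))))))))
noncomputable def l30741 : Lb := (@Lb.r r275 (@Lb.d (nat_lit 25) (nat_lit 516) (nat_lit 1) (@Lb.g g8 (@Lb.g g9 (@Lb.g g10 (@Lb.r r2666 (@Lb.r r1603 (@Lb.r r2084 (@Lb.r r1557 (@Lb.d (nat_lit 580) (nat_lit 17) (nat_lit 0) (@Lb.t (@Lb.fp (nat_lit 9) t4303))))))))))))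
noncomputable def l30742 : Lb := (@Lb.d (nat_lit 549) (nat_lit 666) (nat_lit 165) (@Lb.r r37 (@Lb.r r408 (@Lb.r r2178 (@Lb.g g7 (@Lb.g g5 (@Lb.d (nat_lit 68) (nat_lit 2) (nat_lit 328) (@Lb.fp (nat_lit 3) t3390))))))))
noncomputable def l30743 : Lb := (@Lb.r r330 (@Lb.d (nat_lit 6) (nat_lit 0) (nat_lit 8) (@Lb.g g8 (@Lb.g g9 (@Lb.g g11 (@Lb.r r2649 (@Lb.r r1122 (@Lb.r r584 (@Lb.d (nat_lit 98) (nat_lit 101) (nat_lit 144) (@Lb.t (@Lb.fp (nat_lit 9) t393)))))))))))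
noncomputable def l30744 : Lb := (@Lb.d (nat_lit 0) (nat_lit 10) (nat_lit 128) (@Lb.g g9 (@Lb.g g11 (@Lb.r r2450 (@Lb.r r2659 (@Lb.r r2452 (@Lb.r r1561 (@Lb.d (nat_lit 596) (nat_lit 96) (nat_lit 550) (@Lb.fm (nat_lit 3) t5536)))))))))
noncomputable def l30745 : Lb := (@Lb.d (nat_lit 394) (nat_lit 530) (nat_lit 576) (@Lb.r r24 (@Lb.r r2311 (@Lb.g g9 (@Lb.t (@Lb.fm (nat_lit 3) t1165))))))
noncomputable def l30746 : Lb := (@Lb.d (nat_lit 0) (nat_lit 2) (nat_lit 130) (@Lb.g g9 (@Lb.g g10 (@Lb.g g11 (@Lb.r r1443 (@Lb.r r536 (@Lb.r r357 (@Lb.r r154 (@Lb.r r132 (@Lb.d (nat_lit 581) (nat_lit 137) (nat_lit 152) (@Lb.t (@Lb.fp (nat_lit 9) t646))))))))))))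
noncomputable def l30747 : Lb := (@Lb.d (nat_lit 405) (nat_lit 390) (nat_lit 154) (@Lb.r r1044 (@Lb.r r665 (@Lb.r r595 (@Lb.g g6 (@Lb.g g5 (@Lb.g g4 (@Lb.d (nat_lit 65) (nat_lit 17) (nat_lit 41) (@Lb.t (@Lb.fm (nat_lit 9) t5537))))))))))
noncomputable def l30748 : Lb := (@Lb.d (nat_lit 0) (nat_lit 2) (nat_lit 130) (@Lb.g g9 (@Lb.g g10 (@Lb.g g11 (@Lb.r r1443 (@Lb.r r536 (@Lb.r r357 (@Lb.r r154 (@Lb.r r132 (@Lb.d (nat_lit 84) (nat_lit 132) (nat_lit 136) (@Lb.t (@Lb.fp (nat_lit 9) t626))))))))))))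
noncomputable def l30749 : Lb := (@Lb.r r81 (@Lb.r r323 (@Lb.d (nat_lit 10) (nat_lit 0) (nat_lit 42) (@Lb.g g8 (@Lb.g g6 (@Lb.r r387 (@Lb.r r149 (@Lb.r r2340 (@Lb.d (nat_lit 586) (nat_lit 105) (nat_lit 341) (@Lb.fp (nat_lit 3) t5054))))))))))
noncomputable def l30750 : Lb := (@Lb.d (nat_lit 0) (nat_lit 273) (nat_lit 2) (@Lb.g g9 (@Lb.g g10 (@Lb.g g11 (@Lb.r r1447 (@Lb.r r2730 (@Lb.r r296 (@Lb.r r361 (@Lb.d (nat_lit 330) (nat_lit 168) (nat_lit 330) (@Lb.t (@Lb.fp (nat_lit 9) t5538)))))))))))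
noncomputable def l30751 : Lb := (@Lb.d (nat_lit 584) (nat_lit 353) (nat_lit 74) (@Lb.r r68 (@Lb.r r154 (@Lb.r r660 (@Lb.r r2385 (@Lb.g g7 (@Lb.g g6 (@Lb.g g5 (@Lb.g g4 (@Lb.d (nat_lit 1) (nat_lit 0) (nat_lit 129) (@Lb.fm (nat_lit 9) t98)))))))))))
noncomputable def l30752 : Lb := (@Lb.d (nat_lit 0) (nat_lit 257) (nat_lit 4) (@Lb.g g8 (@Lb.g g9 (@Lb.g g10 (@Lb.g g11 (@Lb.r r618 (@Lb.r r105 (@Lb.r r340 (@Lb.r r2587 (@Lb.r r2564 (@Lb.d (nat_lit 0) (nat_lit 18) (nat_lit 640) (@Lb.fp (nat_lit 9) t71))))))))))))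
noncomputable def l30753 : Lb := (@Lb.r r323 (@Lb.d (nat_lit 128) (nat_lit 257) (nat_lit 2) (@Lb.g g8 (@Lb.g g9 (@Lb.g g10 (@Lb.r r362 (@Lb.r r361 (@Lb.r r1431 (@Lb.r r2632 (@Lb.d (nat_lit 352) (nat_lit 134) (nat_lit 640) (@Lb.t (@Lb.fm (nat_lit 9) t71))))))))))))
noncomputable def l30754 : Lb := (@Lb.r r21 (@Lb.d (nat_lit 146) (nat_lit 0) (nat_lit 5) (@Lb.g g8 (@Lb.g g10 (@Lb.g g11 (@Lb.r r1319 (@Lb.r r1626 (@Lb.r r2196 (@Lb.r r25 (@Lb.d (nat_lit 665) (nat_lit 9) (nat_lit 390) (@Lb.t (@Lb.fm (nat_lit 9) t979))))))))))))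
noncomputable def l30755 : Lb := (@Lb.d (nat_lit 584) (nat_lit 97) (nat_lit 74) (@Lb.r r68 (@Lb.r r154 (@Lb.r r660 (@Lb.r r2385 (@Lb.g g7 (@Lb.g g6 (@Lb.g g5 (@Lb.g g4 (@Lb.d (nat_lit 1) (nat_lit 5) (nat_lit 130) (@Lb.fm (nat_lit 9) t98)))))))))))
noncomputable def l30756 : Lb := (@Lb.d (nat_lit 9) (nat_lit 256) (nat_lit 129) (@Lb.g g8 (@Lb.g g10 (@Lb.g g11 (@Lb.r r2643 (@Lb.r r1045 (@Lb.r r424 (@Lb.r r394 (@Lb.d (nat_lit 610) (nat_lit 73) (nat_lit 84) (@Lb.t (@Lb.fp (nat_lit 9) t386)))))))))))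
noncomputable def l30757 : Lb := (@Lb.d (nat_lit 9) (nat_lit 6) (nat_lit 74) (@Lb.g g8 (@Lb.g g9 (@Lb.g g10 (@Lb.g g11 (@Lb.r r2691 (@Lb.r r297 (@Lb.r r1188 (@Lb.r r1158 (@Lb.d (nat_lit 650) (nat_lit 9) (nat_lit 133) (@Lb.fm (nat_lit 9) t3482)))))))))))
noncomputable def l30758 : Lb := (@Lb.d (nat_lit 9) (nat_lit 513) (nat_lit 2) (@Lb.g g8 (@Lb.g g9 (@Lb.g g10 (@Lb.g g11 (@Lb.r r2729 (@Lb.r r2475 (@Lb.r r388 (@Lb.r r70 (@Lb.r r132 (@Lb.d (nat_lit 1) (nat_lit 0) (nat_lit 90) (@Lb.fm (nat_lit 9) t126))))))))))))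
noncomputable def l30759 : Lb := (@Lb.d (nat_lit 129) (nat_lit 2) (nat_lit 130) (@Lb.g g8 (@Lb.g g9 (@Lb.g g10 (@Lb.g g11 (@Lb.r r2411 (@Lb.r r386 (@Lb.r r676 (@Lb.r r2069 (@Lb.r r1060 (@Lb.d (nat_lit 537) (nat_lit 168) (nat_lit 602) (@Lb.fm (nat_lit 9) t5539))))))))))))
noncomputable def l30760 : Lb := (@Lb.d (nat_lit 0) (nat_lit 514) (nat_lit 72) (@Lb.r r402 (@Lb.g g9 (@Lb.g g4 (@Lb.d (nat_lit 1) (nat_lit 10) (nat_lit 0) (@Lb.fm (nat_lit 3) t374))))))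
noncomputable def l30761 : Lb := (@Lb.g g4 (@Lb.g g9 (@Lb.r r1158 (@Lb.r r2136 (@Lb.r r405 (@Lb.r r1635 (@Lb.d (nat_lit 2) (nat_lit 512) (nat_lit 16) (@Lb.fm (nat_lit 3) t1592))))))))
noncomputable def l30762 : Lb := (@Lb.r r323 (@Lb.d (nat_lit 1) (nat_lit 258) (nat_lit 2) (@Lb.g g8 (@Lb.g g9 (@Lb.g g10 (@Lb.r r1623 (@Lb.r r2154 (@Lb.r r97 (@Lb.r r24 (@Lb.d (nat_lit 265) (nat_lit 2) (nat_lit 18) (@Lb.t (@Lb.fp (nat_lit 9) t61))))))))))))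
noncomputable def l30763 : Lb := (@Lb.r r323 (@Lb.d (nat_lit 2) (nat_lit 514) (nat_lit 2) (@Lb.g g8 (@Lb.g g9 (@Lb.g g10 (@Lb.r r2643 (@Lb.r r2154 (@Lb.r r104 (@Lb.r r25 (@Lb.d (nat_lit 514) (nat_lit 66) (nat_lit 138) (@Lb.t (@Lb.fm (nat_lit 9) t5540))))))))))))
noncomputable def l30764 : Lb := (@Lb.d (nat_lit 1) (nat_lit 2) (nat_lit 2) (@Lb.g g8 (@Lb.g g9 (@Lb.g g10 (@Lb.r r2705 (@Lb.r r535 (@Lb.r r2440 (@Lb.r r2122 (@Lb.d (nat_lit 294) (nat_lit 8) (nat_lit 72) (@Lb.t (@Lb.fm (nat_lit 9) t756)))))))))))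
noncomputable def l30765 : Lb := (@Lb.r r580 (@Lb.d (nat_lit 16) (nat_lit 288) (nat_lit 169) (@Lb.g g10 (@Lb.g g11 (@Lb.r r1365 (@Lb.r r1707 (@Lb.r r1032 (@Lb.d (nat_lit 152) (nat_lit 148) (nat_lit 41) (@Lb.fm (nat_lit 3) t2426)))))))))
noncomputable def l30766 : Lb := (@Lb.r r616 (@Lb.r r2665 (@Lb.r r2390 (@Lb.r r2475 (@Lb.r r1188 (@Lb.d (nat_lit 10) (nat_lit 2) (nat_lit 512) (@Lb.fp (nat_lit 1) t1079)))))))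
noncomputable def l30767 : Lb := (@Lb.d (nat_lit 610) (nat_lit 100) (nat_lit 273) (@Lb.r r1604 (@Lb.r r1617 (@Lb.g g6 (@Lb.d (nat_lit 0) (nat_lit 0) (nat_lit 5) (@Lb.t (@Lb.fm (nat_lit 3) t5541)))))))
noncomputable def l30768 : Lb := (@Lb.r r323 (@Lb.d (nat_lit 1) (nat_lit 258) (nat_lit 2) (@Lb.g g8 (@Lb.g g9 (@Lb.g g10 (@Lb.r r1386 (@Lb.r r2408 (@Lb.r r1559 (@Lb.r r25 (@Lb.d (nat_lit 521) (nat_lit 101) (nat_lit 6) (@Lb.t (@Lb.fm (nat_lit 9) t5542))))))))))))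
noncomputable def l30769 : Lb := (@Lb.r r21 (@Lb.r r70 (@Lb.d (nat_lit 513) (nat_lit 256) (nat_lit 64) (@Lb.g g4 (@Lb.g g11 (@Lb.r r1687 (@Lb.r r2401 (@Lb.r r1170 (@Lb.d (nat_lit 533) (nat_lit 129) (nat_lit 16) (@Lb.fm (nat_lit 3) t74))))))))))
noncomputable def l30770 : Lb := (@Lb.d (nat_lit 610) (nat_lit 546) (nat_lit 362) (@Lb.r r1604 (@Lb.r r1617 (@Lb.r r354 (@Lb.g g11 (@Lb.t (@Lb.fp (nat_lit 3) t5543)))))))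
noncomputable def l30771 : Lb := (@Lb.r r21 (@Lb.r r70 (@Lb.d (nat_lit 2) (nat_lit 256) (nat_lit 0) (@Lb.g g8 (@Lb.g g7 (@Lb.r r402 (@Lb.r r1129 (@Lb.r r2084 (@Lb.d (nat_lit 0) (nat_lit 64) (nat_lit 512) (@Lb.fp (nat_lit 3) t2652))))))))))
noncomputable def l30772 : Lb := (@Lb.d (nat_lit 97) (nat_lit 514) (nat_lit 4) (@Lb.g g8 (@Lb.g g9 (@Lb.g g10 (@Lb.g g11 (@Lb.r r1642 (@Lb.r r2631 (@Lb.r r2152 (@Lb.r r25 (@Lb.d (nat_lit 134) (nat_lit 2) (nat_lit 85) (@Lb.fp (nat_lit 9) t3407)))))))))))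
noncomputable def l30773 : Lb := (@Lb.d (nat_lit 2) (nat_lit 2) (nat_lit 130) (@Lb.g g8 (@Lb.g g9 (@Lb.g g10 (@Lb.g g11 (@Lb.r r2454 (@Lb.r r343 (@Lb.r r2457 (@Lb.r r2436 (@Lb.d (nat_lit 404) (nat_lit 42) (nat_lit 17) (@Lb.fm (nat_lit 9) t4512)))))))))))
noncomputable def l30774 : Lb := (@Lb.d (nat_lit 2) (nat_lit 514) (nat_lit 2) (@Lb.g g8 (@Lb.g g9 (@Lb.g g10 (@Lb.r r1626 (@Lb.r r2659 (@Lb.r r2457 (@Lb.r r2436 (@Lb.d (nat_lit 88) (nat_lit 66) (nat_lit 393) (@Lb.t (@Lb.fp (nat_lit 9) t4513)))))))))))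
noncomputable def l30775 : Lb := (@Lb.g g9 (@Lb.r r1291 (@Lb.r r1557 (@Lb.d (nat_lit 130) (nat_lit 256) (nat_lit 640) (@Lb.t (@Lb.fp (nat_lit 3) t3947))))))
noncomputable def l30776 : Lb := (@Lb.d (nat_lit 144) (nat_lit 677) (nat_lit 362) (@Lb.r r1604 (@Lb.r r2723 (@Lb.r r2649 (@Lb.g g7 (@Lb.g g10 (@Lb.g g4 (@Lb.d (nat_lit 0) (nat_lit 0) (nat_lit 138) (@Lb.t (@Lb.fp (nat_lit 9) t5544))))))))))
noncomputable def l30777 : Lb := (@Lb.r r331 (@Lb.d (nat_lit 166) (nat_lit 0) (nat_lit 2) (@Lb.g g8 (@Lb.g g9 (@Lb.g g10 (@Lb.r r1433 (@Lb.r r2343 (@Lb.r r1624 (@Lb.d (nat_lit 618) (nat_lit 34) (nat_lit 648) (@Lb.t (@Lb.fp (nat_lit 9) t1250)))))))))))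
noncomputable def l30778 : Lb := (@Lb.d (nat_lit 0) (nat_lit 160) (nat_lit 0) (@Lb.g g9 (@Lb.g g11 (@Lb.r r1307 (@Lb.d (nat_lit 522) (nat_lit 146) (nat_lit 0) (@Lb.fm (nat_lit 3) t5545))))))
noncomputable def l30779 : Lb := (@Lb.d (nat_lit 401) (nat_lit 513) (nat_lit 512) (@Lb.r r2438 (@Lb.r r1112 (@Lb.g g7 (@Lb.g g5 (@Lb.d (nat_lit 4) (nat_lit 153) (nat_lit 644) (@Lb.r r98 (@Lb.r r292 (@Lb.fm (nat_lit 3) t5546)))))))))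
noncomputable def l30780 : Lb := (@Lb.d (nat_lit 2) (nat_lit 514) (nat_lit 130) (@Lb.g g8 (@Lb.g g9 (@Lb.g g10 (@Lb.g g11 (@Lb.r r2666 (@Lb.r r579 (@Lb.r r97 (@Lb.r r24 (@Lb.d (nat_lit 426) (nat_lit 4) (nat_lit 358) (@Lb.fm (nat_lit 9) t61)))))))))))
noncomputable def l30781 : Lb := (@Lb.d (nat_lit 2) (nat_lit 2) (nat_lit 73) (@Lb.g g8 (@Lb.g g9 (@Lb.g g10 (@Lb.g g11 (@Lb.r r1699 (@Lb.r r1193 (@Lb.r r1188 (@Lb.r r1638 (@Lb.d (nat_lit 533) (nat_lit 96) (nat_lit 166) (@Lb.fp (nat_lit 9) t1146)))))))))))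
noncomputable def l30782 : Lb := (@Lb.d (nat_lit 146) (nat_lit 137) (nat_lit 73) (@Lb.g g8 (@Lb.g g5 (@Lb.g g10 (@Lb.g g11 (@Lb.r r276 (@Lb.r r2571 (@Lb.r r2438 (@Lb.r r1540 (@Lb.d (nat_lit 550) (nat_lit 161) (nat_lit 416) (@Lb.fm (nat_lit 9) t1157)))))))))))
noncomputable def l30783 : Lb := (@Lb.d (nat_lit 1) (nat_lit 2) (nat_lit 130) (@Lb.g g8 (@Lb.g g9 (@Lb.g g10 (@Lb.g g11 (@Lb.r r427 (@Lb.r r145 (@Lb.r r356 (@Lb.r r154 (@Lb.r r132 (@Lb.d (nat_lit 280) (nat_lit 2) (nat_lit 170) (@Lb.fm (nat_lit 9) t61))))))))))))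
noncomputable def l30784 : Lb := (@Lb.r r338 (@Lb.d (nat_lit 0) (nat_lit 257) (nat_lit 512) (@Lb.g g4 (@Lb.g g9 (@Lb.g g7 (@Lb.r r90 (@Lb.r r549 (@Lb.d (nat_lit 134) (nat_lit 33) (nat_lit 384) (@Lb.t (@Lb.fp (nat_lit 9) t5547))))))))))
noncomputable def l30785 : Lb := (@Lb.d (nat_lit 154) (nat_lit 37) (nat_lit 581) (@Lb.r r612 (@Lb.r r597 (@Lb.r r2370 (@Lb.g g7 (@Lb.g g6 (@Lb.g g5 (@Lb.g g4 (@Lb.d (nat_lit 101) (nat_lit 2) (nat_lit 576) (@Lb.fp (nat_lit 9) t282))))))))))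
noncomputable def l30786 : Lb := (@Lb.r r355 (@Lb.d (nat_lit 6) (nat_lit 265) (nat_lit 17) (@Lb.g g8 (@Lb.g g9 (@Lb.g g6 (@Lb.r r2667 (@Lb.r r1625 (@Lb.d (nat_lit 618) (nat_lit 37) (nat_lit 280) (@Lb.t (@Lb.fm (nat_lit 9) t1541))))))))))
noncomputable def l30787 : Lb := (@Lb.d (nat_lit 154) (nat_lit 549) (nat_lit 581) (@Lb.r r612 (@Lb.r r597 (@Lb.r r2370 (@Lb.g g7 (@Lb.g g6 (@Lb.g g5 (@Lb.g g4 (@Lb.d (nat_lit 102) (nat_lit 2) (nat_lit 576) (@Lb.fp (nat_lit 9) t282))))))))))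
noncomputable def l30788 : Lb := (@Lb.r r355 (@Lb.d (nat_lit 6) (nat_lit 9) (nat_lit 17) (@Lb.g g8 (@Lb.g g9 (@Lb.g g6 (@Lb.r r2667 (@Lb.r r1625 (@Lb.d (nat_lit 618) (nat_lit 42) (nat_lit 281) (@Lb.t (@Lb.fm (nat_lit 9) t1541))))))))))
noncomputable def l30789 : Lb := (@Lb.r r82 (@Lb.d (nat_lit 0) (nat_lit 258) (nat_lit 128) (@Lb.g g8 (@Lb.g g9 (@Lb.g g11 (@Lb.r r674 (@Lb.r r411 (@Lb.r r409 (@Lb.r r24 (@Lb.d (nat_lit 389) (nat_lit 90) (nat_lit 676) (@Lb.t (@Lb.fm (nat_lit 9) t5548))))))))))))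
noncomputable def l30790 : Lb := (@Lb.d (nat_lit 2) (nat_lit 16) (nat_lit 137) (@Lb.g g8 (@Lb.g g9 (@Lb.g g10 (@Lb.g g11 (@Lb.r r427 (@Lb.r r2440 (@Lb.r r2122 (@Lb.r r1061 (@Lb.d (nat_lit 553) (nat_lit 137) (nat_lit 88) (@Lb.fp (nat_lit 9) t5549)))))))))))
noncomputable def l30791 : Lb := (@Lb.r r21 (@Lb.r r70 (@Lb.d (nat_lit 410) (nat_lit 256) (nat_lit 0) (@Lb.g g8 (@Lb.g g11 (@Lb.r r2715 (@Lb.r r101 (@Lb.r r2450 (@Lb.d (nat_lit 2) (nat_lit 34) (nat_lit 549) (@Lb.fp (nat_lit 3) t4856))))))))))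
noncomputable def l30792 : Lb := (@Lb.r r21 (@Lb.r r70 (@Lb.d (nat_lit 408) (nat_lit 0) (nat_lit 136) (@Lb.g g8 (@Lb.g g7 (@Lb.r r74 (@Lb.r r25 (@Lb.d (nat_lit 548) (nat_lit 0) (nat_lit 68) (@Lb.fp (nat_lit 3) t5414)))))))))
noncomputable def l30793 : Lb := (@Lb.d (nat_lit 2) (nat_lit 0) (nat_lit 66) (@Lb.g g8 (@Lb.g g9 (@Lb.g g10 (@Lb.g g11 (@Lb.r r164 (@Lb.r r2709 (@Lb.r r407 (@Lb.r r1430 (@Lb.r r1060 (@Lb.d (nat_lit 320) (nat_lit 5) (nat_lit 144) (@Lb.fm (nat_lit 9) t3065))))))))))))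
noncomputable def l30794 : Lb := (@Lb.r r323 (@Lb.d (nat_lit 128) (nat_lit 290) (nat_lit 10) (@Lb.g g8 (@Lb.g g9 (@Lb.g g10 (@Lb.r r275 (@Lb.r r609 (@Lb.r r598 (@Lb.r r2180 (@Lb.d (nat_lit 282) (nat_lit 84) (nat_lit 324) (@Lb.t (@Lb.fp (nat_lit 9) t5550))))))))))))
noncomputable def l30795 : Lb := (@Lb.d (nat_lit 6) (nat_lit 4) (nat_lit 1) (@Lb.g g4 (@Lb.g g6 (@Lb.r r1427 (@Lb.d (nat_lit 613) (nat_lit 41) (nat_lit 326) (@Lb.fm (nat_lit 3) t1994))))))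
noncomputable def l30796 : Lb := (@Lb.d (nat_lit 0) (nat_lit 32) (nat_lit 4) (@Lb.g g8 (@Lb.g g10 (@Lb.g g11 (@Lb.r r618 (@Lb.r r149 (@Lb.r r340 (@Lb.r r2587 (@Lb.d (nat_lit 330) (nat_lit 73) (nat_lit 258) (@Lb.t (@Lb.fp (nat_lit 9) t71)))))))))))
noncomputable def l30797 : Lb := (@Lb.d (nat_lit 134) (nat_lit 256) (nat_lit 130) (@Lb.g g8 (@Lb.g g9 (@Lb.g g10 (@Lb.g g11 (@Lb.r r419 (@Lb.r r1702 (@Lb.r r344 (@Lb.r r1429 (@Lb.r r1060 (@Lb.d (nat_lit 616) (nat_lit 166) (nat_lit 401) (@Lb.fp (nat_lit 9) t163))))))))))))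
noncomputable def l30798 : Lb := (@Lb.d (nat_lit 0) (nat_lit 544) (nat_lit 4) (@Lb.g g8 (@Lb.g g10 (@Lb.g g11 (@Lb.r r618 (@Lb.r r149 (@Lb.r r340 (@Lb.r r2587 (@Lb.d (nat_lit 330) (nat_lit 66) (nat_lit 256) (@Lb.t (@Lb.fp (nat_lit 9) t71)))))))))))
noncomputable def l30799 : Lb := (@Lb.r r70 (@Lb.d (nat_lit 2) (nat_lit 514) (nat_lit 64) (@Lb.g g8 (@Lb.g g9 (@Lb.g g11 (@Lb.r r164 (@Lb.r r422 (@Lb.r r1619 (@Lb.r r2337 (@Lb.d (nat_lit 2) (nat_lit 85) (nat_lit 577) (@Lb.t (@Lb.fp (nat_lit 9) t5029))))))))))))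
noncomputable def l30800 : Lb := (@Lb.d (nat_lit 2) (nat_lit 258) (nat_lit 133) (@Lb.g g8 (@Lb.g g9 (@Lb.g g10 (@Lb.g g11 (@Lb.r r2631 (@Lb.r r2714 (@Lb.r r25 (@Lb.d (nat_lit 617) (nat_lit 73) (nat_lit 662) (@Lb.fp (nat_lit 9) t4420))))))))))
noncomputable def l30801 : Lb := (@Lb.r r82 (@Lb.d (nat_lit 8) (nat_lit 0) (nat_lit 128) (@Lb.g g9 (@Lb.g g11 (@Lb.r r2136 (@Lb.r r2438 (@Lb.r r593 (@Lb.d (nat_lit 0) (nat_lit 38) (nat_lit 16) (@Lb.fm (nat_lit 3) t1567)))))))))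
noncomputable def l30802 : Lb := (@Lb.d (nat_lit 137) (nat_lit 530) (nat_lit 257) (@Lb.r r532 (@Lb.r r97 (@Lb.g g11 (@Lb.g g6 (@Lb.g g4 (@Lb.d (nat_lit 80) (nat_lit 4) (nat_lit 513) (@Lb.r r25 (@Lb.t (@Lb.fp (nat_lit 9) t4258))))))))))
noncomputable def l30803 : Lb := (@Lb.d (nat_lit 2) (nat_lit 256) (nat_lit 2) (@Lb.g g8 (@Lb.g g9 (@Lb.g g10 (@Lb.g g7 (@Lb.r r386 (@Lb.r r20 (@Lb.r r105 (@Lb.r r36 (@Lb.d (nat_lit 610) (nat_lit 0) (nat_lit 553) (@Lb.fm (nat_lit 9) t166)))))))))))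
noncomputable def l30804 : Lb := (@Lb.r r323 (@Lb.d (nat_lit 8) (nat_lit 34) (nat_lit 1) (@Lb.g g9 (@Lb.g g10 (@Lb.r r536 (@Lb.r r283 (@Lb.r r613 (@Lb.d (nat_lit 426) (nat_lit 21) (nat_lit 32) (@Lb.fm (nat_lit 3) t287)))))))))
noncomputable def l30805 : Lb := (@Lb.d (nat_lit 1) (nat_lit 258) (nat_lit 130) (@Lb.g g8 (@Lb.g g9 (@Lb.g g10 (@Lb.g g11 (@Lb.r r427 (@Lb.r r145 (@Lb.r r356 (@Lb.r r154 (@Lb.r r132 (@Lb.d (nat_lit 282) (nat_lit 2) (nat_lit 170) (@Lb.fm (nat_lit 9) t61))))))))))))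
noncomputable def l30806 : Lb := (@Lb.r r70 (@Lb.d (nat_lit 161) (nat_lit 2) (nat_lit 64) (@Lb.g g8 (@Lb.g g9 (@Lb.g g11 (@Lb.r r1430 (@Lb.r r1367 (@Lb.r r97 (@Lb.r r1688 (@Lb.d (nat_lit 106) (nat_lit 96) (nat_lit 538) (@Lb.t (@Lb.fp (nat_lit 9) t601))))))))))))
noncomputable def l30807 : Lb := (@Lb.d (nat_lit 130) (nat_lit 516) (nat_lit 64) (@Lb.g g8 (@Lb.g g9 (@Lb.g g10 (@Lb.g g11 (@Lb.r r292 (@Lb.r r651 (@Lb.r r650 (@Lb.r r2133 (@Lb.r r1188 (@Lb.d (nat_lit 330) (nat_lit 101) (nat_lit 546) (@Lb.fp (nat_lit 9) t5551))))))))))))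
noncomputable def l30808 : Lb := (@Lb.d (nat_lit 0) (nat_lit 2) (nat_lit 66) (@Lb.g g9 (@Lb.g g10 (@Lb.g g11 (@Lb.r r1443 (@Lb.r r386 (@Lb.r r97 (@Lb.r r36 (@Lb.d (nat_lit 0) (nat_lit 21) (nat_lit 326) (@Lb.t (@Lb.fm (nat_lit 9) t309)))))))))))
noncomputable def l30809 : Lb := (@Lb.r r323 (@Lb.d (nat_lit 8) (nat_lit 290) (nat_lit 18) (@Lb.g g9 (@Lb.g g10 (@Lb.r r603 (@Lb.r r2580 (@Lb.r r1433 (@Lb.d (nat_lit 394) (nat_lit 90) (nat_lit 650) (@Lb.fp (nat_lit 3) t296)))))))))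
noncomputable def l30810 : Lb := (@Lb.r r82 (@Lb.d (nat_lit 2) (nat_lit 289) (nat_lit 64) (@Lb.g g8 (@Lb.g g9 (@Lb.g g11 (@Lb.r r1543 (@Lb.r r2152 (@Lb.r r2438 (@Lb.r r1361 (@Lb.d (nat_lit 0) (nat_lit 1) (nat_lit 344) (@Lb.t (@Lb.fp (nat_lit 9) t2301))))))))))))
noncomputable def l30811 : Lb := (@Lb.d (nat_lit 8) (nat_lit 612) (nat_lit 6) (@Lb.r r21 (@Lb.r r2390 (@Lb.r r2731 (@Lb.g g6 (@Lb.g g5 (@Lb.g g4 (@Lb.d (nat_lit 544) (nat_lit 1) (nat_lit 0) (@Lb.t (@Lb.fm (nat_lit 9) t40))))))))))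
noncomputable def l30812 : Lb := (@Lb.d (nat_lit 8) (nat_lit 356) (nat_lit 6) (@Lb.r r21 (@Lb.r r2390 (@Lb.r r2731 (@Lb.g g6 (@Lb.g g5 (@Lb.g g4 (@Lb.d (nat_lit 544) (nat_lit 6) (nat_lit 1) (@Lb.t (@Lb.fm (nat_lit 9) t40))))))))))
noncomputable def l30813 : Lb := (@Lb.r r580 (@Lb.r r593 (@Lb.d (nat_lit 0) (nat_lit 40) (nat_lit 66) (@Lb.g g6 (@Lb.g g11 (@Lb.r r1425 (@Lb.r r2343 (@Lb.r r2632 (@Lb.d (nat_lit 258) (nat_lit 74) (nat_lit 101) (@Lb.fm (nat_lit 3) t125))))))))))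
noncomputable def l30814 : Lb := (@Lb.r r580 (@Lb.r r593 (@Lb.d (nat_lit 0) (nat_lit 552) (nat_lit 66) (@Lb.g g6 (@Lb.g g11 (@Lb.r r1425 (@Lb.r r2343 (@Lb.r r2632 (@Lb.d (nat_lit 260) (nat_lit 72) (nat_lit 101) (@Lb.fm (nat_lit 3) t125))))))))))
noncomputable def l30815 : Lb := (@Lb.d (nat_lit 8) (nat_lit 265) (nat_lit 129) (@Lb.g g9 (@Lb.g g10 (@Lb.g g11 (@Lb.r r614 (@Lb.r r404 (@Lb.r r619 (@Lb.r r537 (@Lb.d (nat_lit 70) (nat_lit 104) (nat_lit 22) (@Lb.t (@Lb.fp (nat_lit 9) t3326)))))))))))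
noncomputable def l30816 : Lb := (@Lb.d (nat_lit 134) (nat_lit 10) (nat_lit 97) (@Lb.g g8 (@Lb.g g9 (@Lb.g g6 (@Lb.g g11 (@Lb.r r2667 (@Lb.r r617 (@Lb.r r2084 (@Lb.d (nat_lit 361) (nat_lit 65) (nat_lit 280) (@Lb.fm (nat_lit 9) t5552))))))))))
noncomputable def l30817 : Lb := (@Lb.d (nat_lit 2) (nat_lit 9) (nat_lit 129) (@Lb.g g8 (@Lb.g g9 (@Lb.g g10 (@Lb.g g11 (@Lb.r r1367 (@Lb.r r1366 (@Lb.r r97 (@Lb.r r24 (@Lb.d (nat_lit 616) (nat_lit 9) (nat_lit 532) (@Lb.fp (nat_lit 9) t5553)))))))))))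
noncomputable def l30818 : Lb := (@Lb.r r323 (@Lb.d (nat_lit 33) (nat_lit 265) (nat_lit 1) (@Lb.g g8 (@Lb.g g9 (@Lb.g g10 (@Lb.r r2666 (@Lb.r r2391 (@Lb.r r1577 (@Lb.r r1556 (@Lb.d (nat_lit 385) (nat_lit 130) (nat_lit 256) (@Lb.t (@Lb.fp (nat_lit 9) t3747))))))))))))
noncomputable def l30819 : Lb := (@Lb.d (nat_lit 1) (nat_lit 266) (nat_lit 128) (@Lb.g g4 (@Lb.g g9 (@Lb.g g11 (@Lb.r r2450 (@Lb.r r2659 (@Lb.r r1633 (@Lb.d (nat_lit 8) (nat_lit 82) (nat_lit 512) (@Lb.t (@Lb.fm (nat_lit 9) t844))))))))))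
noncomputable def l30820 : Lb := (@Lb.d (nat_lit 1) (nat_lit 10) (nat_lit 128) (@Lb.g g4 (@Lb.g g9 (@Lb.g g11 (@Lb.r r2450 (@Lb.r r2659 (@Lb.r r1633 (@Lb.d (nat_lit 9) (nat_lit 145) (nat_lit 512) (@Lb.t (@Lb.fm (nat_lit 9) t844))))))))))
noncomputable def l30821 : Lb := (@Lb.d (nat_lit 0) (nat_lit 266) (nat_lit 161) (@Lb.g g9 (@Lb.g g6 (@Lb.g g11 (@Lb.r r1419 (@Lb.r r1557 (@Lb.r r1416 (@Lb.d (nat_lit 537) (nat_lit 2) (nat_lit 34) (@Lb.t (@Lb.fm (nat_lit 9) t2036))))))))))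
noncomputable def l30822 : Lb := (@Lb.d (nat_lit 274) (nat_lit 536) (nat_lit 165) (@Lb.r r386 (@Lb.r r275 (@Lb.r r2645 (@Lb.g g6 (@Lb.g g5 (@Lb.g g4 (@Lb.d (nat_lit 338) (nat_lit 1) (nat_lit 1) (@Lb.r r391 (@Lb.t (@Lb.fm (nat_lit 9) t5554)))))))))))
noncomputable def l30823 : Lb := (@Lb.d (nat_lit 2) (nat_lit 2) (nat_lit 130) (@Lb.g g8 (@Lb.g g9 (@Lb.g g10 (@Lb.g g11 (@Lb.r r427 (@Lb.r r424 (@Lb.r r106 (@Lb.r r25 (@Lb.d (nat_lit 354) (nat_lit 10) (nat_lit 513) (@Lb.fm (nat_lit 9) t1306)))))))))))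
noncomputable def l30824 : Lb := (@Lb.d (nat_lit 645) (nat_lit 598) (nat_lit 82) (@Lb.r r1301 (@Lb.r r1366 (@Lb.r r683 (@Lb.g g6 (@Lb.g g5 (@Lb.g g4 (@Lb.d (nat_lit 8) (nat_lit 5) (nat_lit 2) (@Lb.t (@Lb.fm (nat_lit 9) t578))))))))))
noncomputable def l30825 : Lb := (@Lb.d (nat_lit 1) (nat_lit 266) (nat_lit 128) (@Lb.g g4 (@Lb.g g9 (@Lb.g g11 (@Lb.r r2450 (@Lb.r r2659 (@Lb.r r1633 (@Lb.d (nat_lit 8) (nat_lit 145) (nat_lit 512) (@Lb.t (@Lb.fm (nat_lit 9) t844))))))))))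
noncomputable def l30826 : Lb := (@Lb.d (nat_lit 2) (nat_lit 2) (nat_lit 130) (@Lb.g g8 (@Lb.g g9 (@Lb.g g10 (@Lb.g g11 (@Lb.r r427 (@Lb.r r424 (@Lb.r r106 (@Lb.r r25 (@Lb.d (nat_lit 354) (nat_lit 0) (nat_lit 649) (@Lb.fm (nat_lit 9) t1306)))))))))))
noncomputable def l30827 : Lb := (@Lb.d (nat_lit 2) (nat_lit 258) (nat_lit 128) (@Lb.g g8 (@Lb.g g9 (@Lb.g g11 (@Lb.r r664 (@Lb.r r2341 (@Lb.r r1563 (@Lb.r r2178 (@Lb.r r1540 (@Lb.d (nat_lit 544) (nat_lit 137) (nat_lit 529) (@Lb.t (@Lb.fm (nat_lit 9) t1282))))))))))))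
noncomputable def l30828 : Lb := (@Lb.r r82 (@Lb.r r275 (@Lb.d (nat_lit 10) (nat_lit 512) (nat_lit 0) (@Lb.g g8 (@Lb.g g9 (@Lb.r r2315 (@Lb.r r2122 (@Lb.r r41 (@Lb.d (nat_lit 265) (nat_lit 2) (nat_lit 0) (@Lb.fp (nat_lit 3) t116))))))))))
noncomputable def l30829 : Lb := (@Lb.r r82 (@Lb.d (nat_lit 0) (nat_lit 256) (nat_lit 128) (@Lb.g g9 (@Lb.g g11 (@Lb.r r547 (@Lb.r r386 (@Lb.r r1304 (@Lb.r r2709 (@Lb.d (nat_lit 533) (nat_lit 133) (nat_lit 85) (@Lb.fp (nat_lit 3) t5555))))))))))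
noncomputable def l30830 : Lb := (@Lb.r r21 (@Lb.r r70 (@Lb.d (nat_lit 388) (nat_lit 512) (nat_lit 256) (@Lb.g g4 (@Lb.g g7 (@Lb.r r101 (@Lb.r r2450 (@Lb.d (nat_lit 1) (nat_lit 134) (nat_lit 64) (@Lb.fm (nat_lit 3) t1789)))))))))
noncomputable def l30831 : Lb := (@Lb.r r70 (@Lb.d (nat_lit 389) (nat_lit 0) (nat_lit 256) (@Lb.g g4 (@Lb.g g9 (@Lb.g g7 (@Lb.r r101 (@Lb.r r2450 (@Lb.d (nat_lit 1) (nat_lit 134) (nat_lit 64) (@Lb.t (@Lb.fm (nat_lit 9) t1789))))))))))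
noncomputable def l30832 : Lb := (@Lb.d (nat_lit 32) (nat_lit 516) (nat_lit 65) (@Lb.g g9 (@Lb.g g10 (@Lb.g g11 (@Lb.r r661 (@Lb.r r356 (@Lb.r r346 (@Lb.d (nat_lit 169) (nat_lit 38) (nat_lit 134) (@Lb.t (@Lb.fm (nat_lit 9) t1871))))))))))
noncomputable def l30833 : Lb := (@Lb.d (nat_lit 32) (nat_lit 260) (nat_lit 65) (@Lb.g g9 (@Lb.g g10 (@Lb.g g11 (@Lb.r r661 (@Lb.r r356 (@Lb.r r346 (@Lb.d (nat_lit 170) (nat_lit 38) (nat_lit 134) (@Lb.t (@Lb.fm (nat_lit 9) t1185))))))))))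
noncomputable def l30834 : Lb := (@Lb.r r82 (@Lb.r r275 (@Lb.d (nat_lit 130) (nat_lit 262) (nat_lit 0) (@Lb.g g8 (@Lb.g g9 (@Lb.r r599 (@Lb.r r98 (@Lb.r r292 (@Lb.d (nat_lit 389) (nat_lit 33) (nat_lit 642) (@Lb.fp (nat_lit 3) t278))))))))))
noncomputable def l30835 : Lb := (@Lb.d (nat_lit 144) (nat_lit 297) (nat_lit 134) (@Lb.g g8 (@Lb.g g9 (@Lb.g g10 (@Lb.g g11 (@Lb.r r2627 (@Lb.r r658 (@Lb.r r2725 (@Lb.r r1048 (@Lb.d (nat_lit 520) (nat_lit 66) (nat_lit 162) (@Lb.fp (nat_lit 9) t1816)))))))))))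
noncomputable def l30836 : Lb := (@Lb.r r82 (@Lb.d (nat_lit 2) (nat_lit 545) (nat_lit 64) (@Lb.g g8 (@Lb.g g9 (@Lb.g g11 (@Lb.r r1543 (@Lb.r r2152 (@Lb.r r2438 (@Lb.r r1361 (@Lb.d (nat_lit 6) (nat_lit 2) (nat_lit 344) (@Lb.t (@Lb.fp (nat_lit 9) t1006))))))))))))
noncomputable def l30837 : Lb := (@Lb.d (nat_lit 9) (nat_lit 264) (nat_lit 72) (@Lb.g g8 (@Lb.g g9 (@Lb.g g10 (@Lb.g g11 (@Lb.r r2691 (@Lb.r r297 (@Lb.r r648 (@Lb.r r666 (@Lb.r r1156 (@Lb.d (nat_lit 646) (nat_lit 40) (nat_lit 73) (@Lb.fp (nat_lit 9) t1234))))))))))))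
noncomputable def l30838 : Lb := (@Lb.d (nat_lit 1) (nat_lit 256) (nat_lit 74) (@Lb.g g8 (@Lb.g g10 (@Lb.g g11 (@Lb.r r2312 (@Lb.r r423 (@Lb.r r401 (@Lb.r r2450 (@Lb.d (nat_lit 10) (nat_lit 88) (nat_lit 297) (@Lb.t (@Lb.fm (nat_lit 9) t2131)))))))))))
noncomputable def l30839 : Lb := (@Lb.r r21 (@Lb.r r326 (@Lb.d (nat_lit 162) (nat_lit 544) (nat_lit 128) (@Lb.g g8 (@Lb.g g11 (@Lb.r r2198 (@Lb.r r97 (@Lb.d (nat_lit 609) (nat_lit 129) (nat_lit 530) (@Lb.fm (nat_lit 3) t1377)))))))))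
noncomputable def l30840 : Lb := (@Lb.d (nat_lit 609) (nat_lit 40) (nat_lit 36) (@Lb.r r1354 (@Lb.r r2404 (@Lb.r r1563 (@Lb.g g6 (@Lb.g g9 (@Lb.g g4 (@Lb.d (nat_lit 2) (nat_lit 1) (nat_lit 5) (@Lb.r r295 (@Lb.t (@Lb.fp (nat_lit 9) t1035)))))))))))
noncomputable def l30841 : Lb := (@Lb.d (nat_lit 5) (nat_lit 65) (nat_lit 64) (@Lb.r r101 (@Lb.r r402 (@Lb.g g7 (@Lb.d (nat_lit 0) (nat_lit 0) (nat_lit 68) (@Lb.t (@Lb.fm (nat_lit 3) t50)))))))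
noncomputable def l30842 : Lb := (@Lb.d (nat_lit 257) (nat_lit 17) (nat_lit 282) (@Lb.r r1699 (@Lb.r r2641 (@Lb.r r1382 (@Lb.g g7 (@Lb.g g6 (@Lb.g g5 (@Lb.g g4 (@Lb.d (nat_lit 1) (nat_lit 32) (nat_lit 129) (@Lb.fm (nat_lit 9) t3159))))))))))
noncomputable def l30843 : Lb := (@Lb.d (nat_lit 521) (nat_lit 0) (nat_lit 0) (@Lb.r r97 (@Lb.r r402 (@Lb.r r2631 (@Lb.g g8 (@Lb.d (nat_lit 1) (nat_lit 0) (nat_lit 0) (@Lb.r r267 (@Lb.r r74 (@Lb.r r25 (@Lb.t (@Lb.fm (nat_lit 3) t3404)))))))))))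
noncomputable def l30844 : Lb := (@Lb.r r90 (@Lb.d (nat_lit 132) (nat_lit 264) (nat_lit 0) (@Lb.g g8 (@Lb.g g9 (@Lb.r r1367 (@Lb.r r1642 (@Lb.r r2664 (@Lb.d (nat_lit 425) (nat_lit 90) (nat_lit 170) (@Lb.fp (nat_lit 3) t1717)))))))))
noncomputable def l30845 : Lb := (@Lb.r r323 (@Lb.d (nat_lit 1) (nat_lit 0) (nat_lit 1) (@Lb.g g8 (@Lb.g g9 (@Lb.g g6 (@Lb.r r387 (@Lb.r r105 (@Lb.r r36 (@Lb.d (nat_lit 42) (nat_lit 2) (nat_lit 2) (@Lb.t (@Lb.fm (nat_lit 9) t167)))))))))))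
noncomputable def l30846 : Lb := (@Lb.r r82 (@Lb.d (nat_lit 0) (nat_lit 2) (nat_lit 128) (@Lb.g g9 (@Lb.g g11 (@Lb.r r299 (@Lb.r r1377 (@Lb.r r146 (@Lb.r r2120 (@Lb.d (nat_lit 354) (nat_lit 0) (nat_lit 644) (@Lb.fp (nat_lit 3) t1771))))))))))
noncomputable def l30847 : Lb := (@Lb.r r82 (@Lb.d (nat_lit 0) (nat_lit 256) (nat_lit 128) (@Lb.g g9 (@Lb.g g11 (@Lb.r r291 (@Lb.r r1381 (@Lb.r r146 (@Lb.r r2120 (@Lb.d (nat_lit 2) (nat_lit 0) (nat_lit 426) (@Lb.fp (nat_lit 3) t1771))))))))))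
noncomputable def l30848 : Lb := (@Lb.d (nat_lit 146) (nat_lit 0) (nat_lit 2) (@Lb.g g8 (@Lb.g g9 (@Lb.g g10 (@Lb.r r1367 (@Lb.r r1642 (@Lb.r r612 (@Lb.d (nat_lit 272) (nat_lit 26) (nat_lit 650) (@Lb.t (@Lb.fm (nat_lit 9) t3785))))))))))
noncomputable def l30849 : Lb := (@Lb.r r82 (@Lb.d (nat_lit 0) (nat_lit 514) (nat_lit 128) (@Lb.g g9 (@Lb.g g11 (@Lb.r r299 (@Lb.r r1377 (@Lb.r r146 (@Lb.r r2120 (@Lb.d (nat_lit 354) (nat_lit 5) (nat_lit 645) (@Lb.fp (nat_lit 3) t5556))))))))))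
noncomputable def l30850 : Lb := (@Lb.d (nat_lit 6) (nat_lit 390) (nat_lit 33) (@Lb.r r597 (@Lb.r r279 (@Lb.r r584 (@Lb.r r326 (@Lb.g g7 (@Lb.g g6 (@Lb.g g5 (@Lb.d (nat_lit 0) (nat_lit 0) (nat_lit 65) (@Lb.t (@Lb.fm (nat_lit 9) t521)))))))))))
noncomputable def l30851 : Lb := (@Lb.r r322 (@Lb.d (nat_lit 34) (nat_lit 2) (nat_lit 576) (@Lb.g g8 (@Lb.g g9 (@Lb.g g7 (@Lb.r r361 (@Lb.r r150 (@Lb.r r84 (@Lb.d (nat_lit 20) (nat_lit 150) (nat_lit 585) (@Lb.t (@Lb.fp (nat_lit 9) t668)))))))))))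
noncomputable def l30852 : Lb := (@Lb.d (nat_lit 32) (nat_lit 514) (nat_lit 130) (@Lb.g g9 (@Lb.g g10 (@Lb.g g11 (@Lb.r r1447 (@Lb.r r293 (@Lb.r r72 (@Lb.r r150 (@Lb.d (nat_lit 260) (nat_lit 10) (nat_lit 394) (@Lb.t (@Lb.fp (nat_lit 9) t296)))))))))))
noncomputable def l30853 : Lb := (@Lb.d (nat_lit 288) (nat_lit 514) (nat_lit 325) (@Lb.r r388 (@Lb.r r2406 (@Lb.r r2459 (@Lb.g g9 (@Lb.g g4 (@Lb.d (nat_lit 65) (nat_lit 8) (nat_lit 0) (@Lb.r r74 (@Lb.fp (nat_lit 3) t4370)))))))))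
noncomputable def l30854 : Lb := (@Lb.r r263 (@Lb.d (nat_lit 642) (nat_lit 258) (nat_lit 2) (@Lb.g g8 (@Lb.g g9 (@Lb.g g10 (@Lb.r r2647 (@Lb.r r106 (@Lb.r r25 (@Lb.d (nat_lit 9) (nat_lit 72) (nat_lit 596) (@Lb.t (@Lb.fp (nat_lit 9) t898)))))))))))
noncomputable def l30855 : Lb := (@Lb.d (nat_lit 2) (nat_lit 9) (nat_lit 6) (@Lb.g g8 (@Lb.g g9 (@Lb.g g10 (@Lb.g g11 (@Lb.r r2472 (@Lb.r r1431 (@Lb.r r2645 (@Lb.r r610 (@Lb.d (nat_lit 641) (nat_lit 85) (nat_lit 329) (@Lb.fm (nat_lit 9) t2301)))))))))))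
noncomputable def l30856 : Lb := (@Lb.r r323 (@Lb.d (nat_lit 2) (nat_lit 9) (nat_lit 1) (@Lb.g g8 (@Lb.g g9 (@Lb.g g10 (@Lb.r r331 (@Lb.r r2217 (@Lb.r r356 (@Lb.r r586 (@Lb.d (nat_lit 544) (nat_lit 74) (nat_lit 329) (@Lb.t (@Lb.fp (nat_lit 9) t2301))))))))))))
noncomputable def l30857 : Lb := (@Lb.d (nat_lit 2) (nat_lit 258) (nat_lit 4) (@Lb.g g8 (@Lb.g g9 (@Lb.g g10 (@Lb.g g11 (@Lb.r r1367 (@Lb.r r1366 (@Lb.r r97 (@Lb.r r24 (@Lb.d (nat_lit 153) (nat_lit 4) (nat_lit 417) (@Lb.fp (nat_lit 9) t592)))))))))))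
noncomputable def l30858 : Lb := (@Lb.d (nat_lit 2) (nat_lit 289) (nat_lit 136) (@Lb.g g8 (@Lb.g g9 (@Lb.g g11 (@Lb.r r386 (@Lb.r r1347 (@Lb.r r2201 (@Lb.r r24 (@Lb.d (nat_lit 24) (nat_lit 128) (nat_lit 388) (@Lb.t (@Lb.fm (nat_lit 9) t3900)))))))))))
noncomputable def l30859 : Lb := (@Lb.d (nat_lit 16) (nat_lit 517) (nat_lit 594) (@Lb.r r2321 (@Lb.r r1094 (@Lb.r r2407 (@Lb.r r337 (@Lb.g g7 (@Lb.g g6 (@Lb.g g5 (@Lb.g g8 (@Lb.d (nat_lit 10) (nat_lit 0) (nat_lit 65) (@Lb.fm (nat_lit 9) t5557)))))))))))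
noncomputable def l30860 : Lb := (@Lb.d (nat_lit 401) (nat_lit 337) (nat_lit 406) (@Lb.r r386 (@Lb.r r1563 (@Lb.r r345 (@Lb.g g6 (@Lb.g g5 (@Lb.g g4 (@Lb.d (nat_lit 8) (nat_lit 0) (nat_lit 1) (@Lb.t (@Lb.fp (nat_lit 9) t501))))))))))
noncomputable def l30861 : Lb := (@Lb.d (nat_lit 41) (nat_lit 260) (nat_lit 0) (@Lb.r r1126 (@Lb.r r101 (@Lb.g g10 (@Lb.t (@Lb.fm (nat_lit 3) t1487))))))
noncomputable def l30862 : Lb := (@Lb.d (nat_lit 1) (nat_lit 0) (nat_lit 0) (@Lb.r r2120 (@Lb.r r89 (@Lb.r r1414 (@Lb.r r323 (@Lb.g g7 (@Lb.g g6 (@Lb.d (nat_lit 0) (nat_lit 0) (nat_lit 64) (@Lb.fm (nat_lit 3) t2491)))))))))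
noncomputable def l30863 : Lb := (@Lb.d (nat_lit 401) (nat_lit 81) (nat_lit 406) (@Lb.r r386 (@Lb.r r1563 (@Lb.r r345 (@Lb.g g6 (@Lb.g g5 (@Lb.g g4 (@Lb.d (nat_lit 1) (nat_lit 1) (nat_lit 1) (@Lb.t (@Lb.fp (nat_lit 9) t501))))))))))
noncomputable def l30864 : Lb := (@Lb.d (nat_lit 10) (nat_lit 516) (nat_lit 0) (@Lb.g g9 (@Lb.d (nat_lit 0) (nat_lit 10) (nat_lit 0) (@Lb.t (@Lb.fp (nat_lit 3) t4794)))))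
noncomputable def l30865 : Lb := (@Lb.d (nat_lit 4) (nat_lit 258) (nat_lit 128) (@Lb.r r101 (@Lb.r r402 (@Lb.g g11 (@Lb.d (nat_lit 0) (nat_lit 0) (nat_lit 72) (@Lb.t (@Lb.fp (nat_lit 3) t711)))))))
noncomputable def l30866 : Lb := (@Lb.r r70 (@Lb.r r263 (@Lb.d (nat_lit 5) (nat_lit 5) (nat_lit 0) (@Lb.g g8 (@Lb.g g5 (@Lb.r r402 (@Lb.r r2375 (@Lb.r r2568 (@Lb.d (nat_lit 641) (nat_lit 1) (nat_lit 128) (@Lb.fp (nat_lit 3) t50))))))))))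
noncomputable def l30867 : Lb := (@Lb.d (nat_lit 0) (nat_lit 0) (nat_lit 128) (@Lb.g g10 (@Lb.g g11 (@Lb.r r387 (@Lb.r r1414 (@Lb.r r24 (@Lb.r r101 (@Lb.d (nat_lit 0) (nat_lit 2) (nat_lit 16) (@Lb.fp (nat_lit 3) t1344)))))))))
noncomputable def l30868 : Lb := (@Lb.d (nat_lit 4) (nat_lit 2) (nat_lit 130) (@Lb.g g8 (@Lb.g g9 (@Lb.g g10 (@Lb.g g11 (@Lb.r r1451 (@Lb.r r386 (@Lb.r r1121 (@Lb.r r24 (@Lb.d (nat_lit 610) (nat_lit 138) (nat_lit 102) (@Lb.fm (nat_lit 9) t61)))))))))))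
noncomputable def l30869 : Lb := (@Lb.d (nat_lit 2) (nat_lit 2) (nat_lit 2) (@Lb.g g8 (@Lb.g g9 (@Lb.g g10 (@Lb.g g11 (@Lb.r r1706 (@Lb.r r648 (@Lb.r r1563 (@Lb.r r2337 (@Lb.r r36 (@Lb.d (nat_lit 641) (nat_lit 98) (nat_lit 64) (@Lb.fp (nat_lit 9) t242))))))))))))
noncomputable def l30870 : Lb := (@Lb.d (nat_lit 577) (nat_lit 256) (nat_lit 26) (@Lb.r r154 (@Lb.r r101 (@Lb.r r519 (@Lb.r r264 (@Lb.g g7 (@Lb.d (nat_lit 64) (nat_lit 0) (nat_lit 128) (@Lb.t (@Lb.fm (nat_lit 3) t334)))))))))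
noncomputable def l30871 : Lb := (@Lb.r r82 (@Lb.d (nat_lit 0) (nat_lit 34) (nat_lit 0) (@Lb.g g9 (@Lb.g g11 (@Lb.r r537 (@Lb.r r531 (@Lb.r r98 (@Lb.d (nat_lit 129) (nat_lit 17) (nat_lit 69) (@Lb.fp (nat_lit 3) t5)))))))))
noncomputable def l30872 : Lb := (@Lb.r r82 (@Lb.d (nat_lit 162) (nat_lit 2) (nat_lit 0) (@Lb.g g8 (@Lb.g g9 (@Lb.r r647 (@Lb.r r1113 (@Lb.r r614 (@Lb.r r424 (@Lb.d (nat_lit 518) (nat_lit 166) (nat_lit 404) (@Lb.fm (nat_lit 3) t4))))))))))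
noncomputable def l30873 : Lb := (@Lb.d (nat_lit 137) (nat_lit 266) (nat_lit 0) (@Lb.g g8 (@Lb.g g9 (@Lb.r r646 (@Lb.r r2727 (@Lb.r r2593 (@Lb.r r104 (@Lb.d (nat_lit 38) (nat_lit 137) (nat_lit 278) (@Lb.fm (nat_lit 3) t334)))))))))
noncomputable def l30874 : Lb := (@Lb.r r82 (@Lb.d (nat_lit 9) (nat_lit 41) (nat_lit 128) (@Lb.g g8 (@Lb.g g9 (@Lb.g g11 (@Lb.r r355 (@Lb.r r1174 (@Lb.r r2133 (@Lb.d (nat_lit 358) (nat_lit 136) (nat_lit 281) (@Lb.t (@Lb.fp (nat_lit 9) t868)))))))))))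
noncomputable def l30875 : Lb := (@Lb.d (nat_lit 408) (nat_lit 37) (nat_lit 410) (@Lb.r r1604 (@Lb.r r1362 (@Lb.r r2201 (@Lb.g g7 (@Lb.g g6 (@Lb.g g4 (@Lb.d (nat_lit 5) (nat_lit 0) (nat_lit 65) (@Lb.t (@Lb.fp (nat_lit 9) t2551))))))))))
noncomputable def l30876 : Lb := (@Lb.r r82 (@Lb.d (nat_lit 34) (nat_lit 33) (nat_lit 72) (@Lb.g g8 (@Lb.g g9 (@Lb.g g11 (@Lb.r r1362 (@Lb.r r2645 (@Lb.r r2404 (@Lb.r r1611 (@Lb.d (nat_lit 593) (nat_lit 22) (nat_lit 661) (@Lb.t (@Lb.fp (nat_lit 9) t981))))))))))))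
noncomputable def l30877 : Lb := (@Lb.d (nat_lit 322) (nat_lit 324) (nat_lit 320) (@Lb.r r2308 (@Lb.r r1307 (@Lb.r r2657 (@Lb.g g7 (@Lb.g g10 (@Lb.g g5 (@Lb.g g4 (@Lb.d (nat_lit 18) (nat_lit 8) (nat_lit 134) (@Lb.fp (nat_lit 9) t5379))))))))))
noncomputable def l30878 : Lb := (@Lb.r r283 (@Lb.d (nat_lit 130) (nat_lit 290) (nat_lit 2) (@Lb.g g8 (@Lb.g g9 (@Lb.g g10 (@Lb.r r2643 (@Lb.r r386 (@Lb.r r1109 (@Lb.r r548 (@Lb.d (nat_lit 345) (nat_lit 18) (nat_lit 656) (@Lb.t (@Lb.fm (nat_lit 9) t31))))))))))))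
noncomputable def l30879 : Lb := (@Lb.r r21 (@Lb.r r323 (@Lb.d (nat_lit 2) (nat_lit 260) (nat_lit 33) (@Lb.g g8 (@Lb.g g6 (@Lb.r r2451 (@Lb.r r97 (@Lb.r r1048 (@Lb.d (nat_lit 522) (nat_lit 129) (nat_lit 1) (@Lb.fp (nat_lit 3) t4156))))))))))
noncomputable def l30880 : Lb := (@Lb.d (nat_lit 1) (nat_lit 2) (nat_lit 130) (@Lb.g g8 (@Lb.g g9 (@Lb.g g10 (@Lb.g g11 (@Lb.r r1443 (@Lb.r r386 (@Lb.r r1129 (@Lb.r r36 (@Lb.d (nat_lit 612) (nat_lit 1) (nat_lit 148) (@Lb.fp (nat_lit 9) t263)))))))))))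
noncomputable def l30881 : Lb := (@Lb.d (nat_lit 0) (nat_lit 256) (nat_lit 128) (@Lb.g g10 (@Lb.g g11 (@Lb.r r387 (@Lb.r r402 (@Lb.r r24 (@Lb.r r101 (@Lb.d (nat_lit 580) (nat_lit 130) (nat_lit 528) (@Lb.fp (nat_lit 3) t2096)))))))))
noncomputable def l30882 : Lb := (@Lb.d (nat_lit 616) (nat_lit 21) (nat_lit 26) (@Lb.r r360 (@Lb.r r1321 (@Lb.r r418 (@Lb.g g11 (@Lb.g g5 (@Lb.g g4 (@Lb.d (nat_lit 24) (nat_lit 17) (nat_lit 520) (@Lb.r r614 (@Lb.t (@Lb.fp (nat_lit 9) t495)))))))))))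
noncomputable def l30883 : Lb := (@Lb.d (nat_lit 0) (nat_lit 640) (nat_lit 325) (@Lb.r r402 (@Lb.g g5 (@Lb.t (@Lb.fp (nat_lit 3) t406)))))
noncomputable def l30884 : Lb := (@Lb.d (nat_lit 149) (nat_lit 594) (nat_lit 641) (@Lb.r r21 (@Lb.r r86 (@Lb.r r424 (@Lb.g g11 (@Lb.g g6 (@Lb.g g5 (@Lb.d (nat_lit 0) (nat_lit 1) (nat_lit 129) (@Lb.t (@Lb.fp (nat_lit 9) t222))))))))))
noncomputable def l30885 : Lb := (@Lb.d (nat_lit 2) (nat_lit 258) (nat_lit 66) (@Lb.g g8 (@Lb.g g9 (@Lb.g g10 (@Lb.g g7 (@Lb.r r2466 (@Lb.r r36 (@Lb.r r149 (@Lb.r r1060 (@Lb.d (nat_lit 160) (nat_lit 10) (nat_lit 289) (@Lb.fp (nat_lit 9) t145)))))))))))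
noncomputable def l30886 : Lb := (@Lb.g g8 (@Lb.r r402 (@Lb.r r101 (@Lb.r r24 (@Lb.d (nat_lit 65) (nat_lit 10) (nat_lit 2) (@Lb.t (@Lb.fm (nat_lit 3) t145)))))))
noncomputable def l30887 : Lb := (@Lb.d (nat_lit 5) (nat_lit 1) (nat_lit 129) (@Lb.r r425 (@Lb.r r342 (@Lb.r r168 (@Lb.g g5 (@Lb.t (@Lb.fm (nat_lit 3) t145)))))))
noncomputable def l30888 : Lb := (@Lb.r r323 (@Lb.d (nat_lit 137) (nat_lit 264) (nat_lit 34) (@Lb.g g8 (@Lb.g g9 (@Lb.g g10 (@Lb.r r519 (@Lb.r r2201 (@Lb.r r280 (@Lb.d (nat_lit 89) (nat_lit 18) (nat_lit 260) (@Lb.t (@Lb.fm (nat_lit 9) t164)))))))))))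
noncomputable def l30889 : Lb := (@Lb.r r82 (@Lb.d (nat_lit 128) (nat_lit 514) (nat_lit 128) (@Lb.g g9 (@Lb.g g11 (@Lb.r r1432 (@Lb.r r2663 (@Lb.r r1098 (@Lb.d (nat_lit 8) (nat_lit 81) (nat_lit 34) (@Lb.fm (nat_lit 3) t1337)))))))))
noncomputable def l30890 : Lb := (@Lb.d (nat_lit 134) (nat_lit 0) (nat_lit 130) (@Lb.g g8 (@Lb.g g9 (@Lb.g g10 (@Lb.g g11 (@Lb.r r419 (@Lb.r r344 (@Lb.r r1429 (@Lb.r r1110 (@Lb.r r2212 (@Lb.d (nat_lit 38) (nat_lit 96) (nat_lit 674) (@Lb.fm (nat_lit 9) t1358))))))))))))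
noncomputable def l30891 : Lb := (@Lb.r r323 (@Lb.d (nat_lit 8) (nat_lit 512) (nat_lit 2) (@Lb.g g9 (@Lb.g g10 (@Lb.r r610 (@Lb.r r584 (@Lb.r r2411 (@Lb.r r2401 (@Lb.d (nat_lit 386) (nat_lit 170) (nat_lit 358) (@Lb.fm (nat_lit 3) t966))))))))))
noncomputable def l30892 : Lb := (@Lb.d (nat_lit 38) (nat_lit 548) (nat_lit 130) (@Lb.g g8 (@Lb.g g9 (@Lb.g g10 (@Lb.g g11 (@Lb.r r1291 (@Lb.r r1634 (@Lb.r r612 (@Lb.r r613 (@Lb.d (nat_lit 666) (nat_lit 129) (nat_lit 38) (@Lb.fm (nat_lit 9) t5558)))))))))))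
noncomputable def l30893 : Lb := (@Lb.d (nat_lit 2) (nat_lit 512) (nat_lit 128) (@Lb.g g8 (@Lb.g g11 (@Lb.r r101 (@Lb.r r658 (@Lb.r r387 (@Lb.d (nat_lit 64) (nat_lit 164) (nat_lit 328) (@Lb.fm (nat_lit 3) t242))))))))
noncomputable def l30894 : Lb := (@Lb.d (nat_lit 2) (nat_lit 516) (nat_lit 128) (@Lb.g g8 (@Lb.g g9 (@Lb.g g10 (@Lb.g g11 (@Lb.r r1419 (@Lb.r r1449 (@Lb.r r1444 (@Lb.r r1414 (@Lb.d (nat_lit 518) (nat_lit 26) (nat_lit 425) (@Lb.fp (nat_lit 9) t1778)))))))))))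
noncomputable def l30895 : Lb := (@Lb.r r70 (@Lb.d (nat_lit 2) (nat_lit 2) (nat_lit 128) (@Lb.g g8 (@Lb.g g9 (@Lb.g g11 (@Lb.r r2731 (@Lb.r r610 (@Lb.r r97 (@Lb.r r2200 (@Lb.d (nat_lit 345) (nat_lit 98) (nat_lit 277) (@Lb.t (@Lb.fp (nat_lit 9) t629))))))))))))
noncomputable def l30896 : Lb := (@Lb.d (nat_lit 2) (nat_lit 512) (nat_lit 130) (@Lb.g g8 (@Lb.g g10 (@Lb.g g11 (@Lb.r r586 (@Lb.r r2659 (@Lb.r r2661 (@Lb.r r24 (@Lb.d (nat_lit 26) (nat_lit 137) (nat_lit 84) (@Lb.t (@Lb.fp (nat_lit 9) t2103)))))))))))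
noncomputable def l30897 : Lb := (@Lb.r r1109 (@Lb.d (nat_lit 1) (nat_lit 256) (nat_lit 130) (@Lb.g g8 (@Lb.g g10 (@Lb.g g11 (@Lb.r r1411 (@Lb.r r1414 (@Lb.r r72 (@Lb.d (nat_lit 161) (nat_lit 81) (nat_lit 657) (@Lb.t (@Lb.fm (nat_lit 9) t5559)))))))))))
noncomputable def l30898 : Lb := (@Lb.d (nat_lit 68) (nat_lit 256) (nat_lit 614) (@Lb.r r1412 (@Lb.r r2634 (@Lb.r r2731 (@Lb.g g6 (@Lb.g g9 (@Lb.g g4 (@Lb.d (nat_lit 2) (nat_lit 150) (nat_lit 2) (@Lb.r r387 (@Lb.t (@Lb.fp (nat_lit 9) t1385)))))))))))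
noncomputable def l30899 : Lb := (@Lb.g g9 (@Lb.g g10 (@Lb.p (nat_lit 1) (@Lb.fm (nat_lit 3) t2))))
noncomputable def l30900 : Lb := (@Lb.d (nat_lit 133) (nat_lit 262) (nat_lit 6) (@Lb.r r24 (@Lb.r r97 (@Lb.r r386 (@Lb.r r343 (@Lb.g g7 (@Lb.g g6 (@Lb.g g5 (@Lb.d (nat_lit 0) (nat_lit 1) (nat_lit 65) (@Lb.t (@Lb.fm (nat_lit 9) t175)))))))))))
noncomputable def l30901 : Lb := (@Lb.d (nat_lit 106) (nat_lit 36) (nat_lit 1) (@Lb.r r408 (@Lb.r r330 (@Lb.r r407 (@Lb.g g7 (@Lb.g g5 (@Lb.g g4 (@Lb.d (nat_lit 17) (nat_lit 1) (nat_lit 64) (@Lb.r r98 (@Lb.t (@Lb.fm (nat_lit 9) t98)))))))))))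
noncomputable def l30902 : Lb := (@Lb.d (nat_lit 106) (nat_lit 292) (nat_lit 70) (@Lb.r r408 (@Lb.r r330 (@Lb.r r407 (@Lb.g g7 (@Lb.g g5 (@Lb.g g4 (@Lb.d (nat_lit 18) (nat_lit 1) (nat_lit 64) (@Lb.r r98 (@Lb.t (@Lb.fm (nat_lit 9) t98)))))))))))
noncomputable def l30903 : Lb := (@Lb.r r323 (@Lb.d (nat_lit 130) (nat_lit 9) (nat_lit 1) (@Lb.g g8 (@Lb.g g9 (@Lb.g g10 (@Lb.r r1639 (@Lb.r r2193 (@Lb.r r2642 (@Lb.r r72 (@Lb.d (nat_lit 41) (nat_lit 37) (nat_lit 289) (@Lb.t (@Lb.fm (nat_lit 9) t375))))))))))))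
noncomputable def l30904 : Lb := (@Lb.d (nat_lit 86) (nat_lit 552) (nat_lit 66) (@Lb.r r276 (@Lb.r r619 (@Lb.r r553 (@Lb.g g6 (@Lb.g g5 (@Lb.g g4 (@Lb.d (nat_lit 18) (nat_lit 1) (nat_lit 1) (@Lb.r r391 (@Lb.t (@Lb.fp (nat_lit 9) t68)))))))))))
noncomputable def l30905 : Lb := (@Lb.d (nat_lit 129) (nat_lit 256) (nat_lit 0) (@Lb.g g8 (@Lb.g g10 (@Lb.r r2391 (@Lb.r r681 (@Lb.r r618 (@Lb.r r1636 (@Lb.d (nat_lit 154) (nat_lit 154) (nat_lit 665) (@Lb.fp (nat_lit 3) t441)))))))))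
noncomputable def l30906 : Lb := (@Lb.d (nat_lit 329) (nat_lit 346) (nat_lit 329) (@Lb.r r2120 (@Lb.r r297 (@Lb.r r1442 (@Lb.r r343 (@Lb.g g7 (@Lb.g g6 (@Lb.g g5 (@Lb.d (nat_lit 0) (nat_lit 1) (nat_lit 65) (@Lb.t (@Lb.fm (nat_lit 9) t842)))))))))))
noncomputable def l30907 : Lb := (@Lb.d (nat_lit 592) (nat_lit 256) (nat_lit 597) (@Lb.r r1412 (@Lb.r r2379 (@Lb.r r658 (@Lb.r r353 (@Lb.g g7 (@Lb.g g4 (@Lb.d (nat_lit 2) (nat_lit 0) (nat_lit 64) (@Lb.fm (nat_lit 3) t1082)))))))))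
noncomputable def l30908 : Lb := (@Lb.d (nat_lit 618) (nat_lit 38) (nat_lit 592) (@Lb.r r101 (@Lb.r r2451 (@Lb.r r402 (@Lb.g g7 (@Lb.g g8 (@Lb.d (nat_lit 0) (nat_lit 0) (nat_lit 68) (@Lb.fp (nat_lit 3) t1399))))))))
noncomputable def l30909 : Lb := (@Lb.d (nat_lit 37) (nat_lit 646) (nat_lit 16) (@Lb.r r1114 (@Lb.g g5 (@Lb.d (nat_lit 4) (nat_lit 1) (nat_lit 0) (@Lb.t (@Lb.fm (nat_lit 3) t989))))))
noncomputable def l30910 : Lb := (@Lb.d (nat_lit 640) (nat_lit 529) (nat_lit 394) (@Lb.r r1114 (@Lb.g g11 (@Lb.g g5 (@Lb.d (nat_lit 4) (nat_lit 1) (nat_lit 0) (@Lb.fp (nat_lit 3) t1440))))))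
noncomputable def l30911 : Lb := (@Lb.d (nat_lit 0) (nat_lit 258) (nat_lit 0) (@Lb.g g9 (@Lb.g g6 (@Lb.r r97 (@Lb.d (nat_lit 548) (nat_lit 0) (nat_lit 16) (@Lb.fm (nat_lit 3) t126))))))
noncomputable def l30912 : Lb := (@Lb.d (nat_lit 148) (nat_lit 17) (nat_lit 74) (@Lb.g g8 (@Lb.g g9 (@Lb.g g10 (@Lb.g g11 (@Lb.r r1706 (@Lb.r r644 (@Lb.r r1559 (@Lb.r r2345 (@Lb.d (nat_lit 424) (nat_lit 25) (nat_lit 66) (@Lb.fm (nat_lit 9) t5560)))))))))))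
noncomputable def l30913 : Lb := (@Lb.d (nat_lit 32) (nat_lit 258) (nat_lit 130) (@Lb.g g9 (@Lb.g g10 (@Lb.g g11 (@Lb.r r1447 (@Lb.r r293 (@Lb.r r72 (@Lb.r r150 (@Lb.d (nat_lit 260) (nat_lit 0) (nat_lit 392) (@Lb.t (@Lb.fp (nat_lit 9) t296)))))))))))
noncomputable def l30914 : Lb := (@Lb.d (nat_lit 405) (nat_lit 153) (nat_lit 394) (@Lb.r r1620 (@Lb.r r2583 (@Lb.r r1385 (@Lb.g g10 (@Lb.g g5 (@Lb.g g4 (@Lb.d (nat_lit 65) (nat_lit 1) (nat_lit 34) (@Lb.r r387 (@Lb.t (@Lb.fm (nat_lit 9) t1444)))))))))))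
noncomputable def l30915 : Lb := (@Lb.d (nat_lit 0) (nat_lit 0) (nat_lit 130) (@Lb.g g4 (@Lb.g g10 (@Lb.g g11 (@Lb.r r419 (@Lb.r r386 (@Lb.d (nat_lit 1) (nat_lit 137) (nat_lit 393) (@Lb.t (@Lb.fm (nat_lit 9) t51)))))))))
noncomputable def l30916 : Lb := (@Lb.r r323 (@Lb.d (nat_lit 161) (nat_lit 2) (nat_lit 2) (@Lb.g g8 (@Lb.g g9 (@Lb.g g10 (@Lb.r r2722 (@Lb.r r2439 (@Lb.r r145 (@Lb.r r1636 (@Lb.d (nat_lit 656) (nat_lit 154) (nat_lit 666) (@Lb.t (@Lb.fp (nat_lit 9) t842))))))))))))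
noncomputable def l30917 : Lb := (@Lb.d (nat_lit 2) (nat_lit 514) (nat_lit 4) (@Lb.g g8 (@Lb.g g9 (@Lb.g g10 (@Lb.g g11 (@Lb.r r427 (@Lb.r r420 (@Lb.r r102 (@Lb.r r21 (@Lb.r r36 (@Lb.d (nat_lit 521) (nat_lit 9) (nat_lit 34) (@Lb.fp (nat_lit 9) t221))))))))))))
noncomputable def l30918 : Lb := (@Lb.d (nat_lit 2) (nat_lit 2) (nat_lit 130) (@Lb.g g8 (@Lb.g g9 (@Lb.g g10 (@Lb.g g11 (@Lb.r r427 (@Lb.r r420 (@Lb.r r102 (@Lb.r r21 (@Lb.r r36 (@Lb.d (nat_lit 521) (nat_lit 9) (nat_lit 34) (@Lb.fp (nat_lit 9) t221))))))))))))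
noncomputable def l30919 : Lb := (@Lb.d (nat_lit 1) (nat_lit 258) (nat_lit 130) (@Lb.g g8 (@Lb.g g9 (@Lb.g g10 (@Lb.g g11 (@Lb.r r582 (@Lb.r r388 (@Lb.r r1323 (@Lb.r r1313 (@Lb.d (nat_lit 2) (nat_lit 132) (nat_lit 257) (@Lb.fm (nat_lit 9) t51)))))))))))
noncomputable def l30920 : Lb := (@Lb.r r323 (@Lb.d (nat_lit 2) (nat_lit 514) (nat_lit 0) (@Lb.g g8 (@Lb.g g9 (@Lb.g g10 (@Lb.r r646 (@Lb.r r328 (@Lb.r r1575 (@Lb.r r1553 (@Lb.d (nat_lit 0) (nat_lit 40) (nat_lit 4) (@Lb.t (@Lb.fp (nat_lit 9) t51))))))))))))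
noncomputable def l30921 : Lb := (@Lb.d (nat_lit 17) (nat_lit 256) (nat_lit 133) (@Lb.r r21 (@Lb.r r104 (@Lb.r r515 (@Lb.g g10 (@Lb.g g5 (@Lb.g g4 (@Lb.d (nat_lit 9) (nat_lit 0) (nat_lit 6) (@Lb.t (@Lb.fm (nat_lit 9) t69))))))))))
noncomputable def l30922 : Lb := (@Lb.d (nat_lit 2) (nat_lit 258) (nat_lit 8) (@Lb.g g8 (@Lb.g g9 (@Lb.g g10 (@Lb.r r1555 (@Lb.r r297 (@Lb.r r1700 (@Lb.r r1670 (@Lb.d (nat_lit 130) (nat_lit 5) (nat_lit 576) (@Lb.t (@Lb.fp (nat_lit 9) t3282)))))))))))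
noncomputable def l30923 : Lb := (@Lb.r r70 (@Lb.d (nat_lit 514) (nat_lit 266) (nat_lit 0) (@Lb.g g8 (@Lb.g g9 (@Lb.g g11 (@Lb.r r406 (@Lb.r r1367 (@Lb.r r2601 (@Lb.d (nat_lit 325) (nat_lit 82) (nat_lit 384) (@Lb.t (@Lb.fm (nat_lit 9) t394)))))))))))
noncomputable def l30924 : Lb := (@Lb.d (nat_lit 0) (nat_lit 256) (nat_lit 16) (@Lb.r r2068 (@Lb.r r25 (@Lb.r r148 (@Lb.g g6 (@Lb.t (@Lb.fm (nat_lit 3) t5561)))))))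
noncomputable def l30925 : Lb := (@Lb.r r263 (@Lb.d (nat_lit 545) (nat_lit 258) (nat_lit 1) (@Lb.g g4 (@Lb.g g9 (@Lb.g g10 (@Lb.r r267 (@Lb.r r134 (@Lb.r r97 (@Lb.d (nat_lit 290) (nat_lit 138) (nat_lit 1) (@Lb.t (@Lb.fp (nat_lit 9) t217)))))))))))
noncomputable def l30926 : Lb := (@Lb.d (nat_lit 2) (nat_lit 0) (nat_lit 73) (@Lb.g g8 (@Lb.g g10 (@Lb.g g11 (@Lb.r r1419 (@Lb.r r1416 (@Lb.r r1098 (@Lb.r r529 (@Lb.d (nat_lit 545) (nat_lit 0) (nat_lit 329) (@Lb.t (@Lb.fp (nat_lit 9) t88)))))))))))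
noncomputable def l30927 : Lb := (@Lb.d (nat_lit 0) (nat_lit 514) (nat_lit 0) (@Lb.g g8 (@Lb.g g9 (@Lb.g g6 (@Lb.r r1315 (@Lb.r r25 (@Lb.r r24 (@Lb.d (nat_lit 514) (nat_lit 0) (nat_lit 0) (@Lb.t (@Lb.fm (nat_lit 9) t441))))))))))
noncomputable def l30928 : Lb := (@Lb.d (nat_lit 8) (nat_lit 258) (nat_lit 0) (@Lb.g g9 (@Lb.g g6 (@Lb.r r24 (@Lb.d (nat_lit 608) (nat_lit 2) (nat_lit 528) (@Lb.fm (nat_lit 3) t698))))))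
noncomputable def l30929 : Lb := (@Lb.d (nat_lit 582) (nat_lit 672) (nat_lit 358) (@Lb.r r2645 (@Lb.r r1316 (@Lb.r r603 (@Lb.g g6 (@Lb.g g5 (@Lb.d (nat_lit 4) (nat_lit 17) (nat_lit 33) (@Lb.r r387 (@Lb.fp (nat_lit 3) t3019)))))))))
noncomputable def l30930 : Lb := (@Lb.r r323 (@Lb.d (nat_lit 2) (nat_lit 521) (nat_lit 1) (@Lb.g g8 (@Lb.g g9 (@Lb.g g10 (@Lb.r r401 (@Lb.r r299 (@Lb.r r420 (@Lb.r r102 (@Lb.d (nat_lit 18) (nat_lit 9) (nat_lit 136) (@Lb.t (@Lb.fm (nat_lit 9) t601))))))))))))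
noncomputable def l30931 : Lb := (@Lb.d (nat_lit 9) (nat_lit 593) (nat_lit 554) (@Lb.r r1320 (@Lb.r r89 (@Lb.r r1602 (@Lb.g g11 (@Lb.g g6 (@Lb.g g4 (@Lb.d (nat_lit 5) (nat_lit 0) (nat_lit 386) (@Lb.r r657 (@Lb.t (@Lb.fp (nat_lit 9) t5562)))))))))))
noncomputable def l30932 : Lb := (@Lb.r r21 (@Lb.d (nat_lit 2) (nat_lit 256) (nat_lit 73) (@Lb.g g8 (@Lb.g g10 (@Lb.g g11 (@Lb.r r2634 (@Lb.r r579 (@Lb.r r97 (@Lb.r r72 (@Lb.d (nat_lit 133) (nat_lit 8) (nat_lit 325) (@Lb.t (@Lb.fp (nat_lit 9) t61))))))))))))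
noncomputable def l30933 : Lb := (@Lb.d (nat_lit 2) (nat_lit 41) (nat_lit 40) (@Lb.g g8 (@Lb.g g9 (@Lb.g g6 (@Lb.r r2455 (@Lb.r r617 (@Lb.d (nat_lit 101) (nat_lit 84) (nat_lit 522) (@Lb.t (@Lb.fm (nat_lit 9) t2714)))))))))
noncomputable def l30934 : Lb := (@Lb.d (nat_lit 2) (nat_lit 9) (nat_lit 104) (@Lb.g g8 (@Lb.g g9 (@Lb.g g6 (@Lb.g g11 (@Lb.r r281 (@Lb.r r1635 (@Lb.r r1553 (@Lb.d (nat_lit 609) (nat_lit 136) (nat_lit 297) (@Lb.fp (nat_lit 9) t919))))))))))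
noncomputable def l30935 : Lb := (@Lb.d (nat_lit 130) (nat_lit 257) (nat_lit 66) (@Lb.g g8 (@Lb.g g9 (@Lb.g g10 (@Lb.g g11 (@Lb.r r421 (@Lb.r r1371 (@Lb.r r2706 (@Lb.r r2129 (@Lb.r r2084 (@Lb.d (nat_lit 596) (nat_lit 101) (nat_lit 578) (@Lb.fp (nat_lit 9) t5563))))))))))))
noncomputable def l30936 : Lb := (@Lb.r r82 (@Lb.d (nat_lit 2) (nat_lit 289) (nat_lit 72) (@Lb.g g8 (@Lb.g g9 (@Lb.g g11 (@Lb.r r1625 (@Lb.r r2150 (@Lb.r r24 (@Lb.d (nat_lit 106) (nat_lit 2) (nat_lit 356) (@Lb.t (@Lb.fp (nat_lit 9) t42)))))))))))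
noncomputable def l30937 : Lb := (@Lb.d (nat_lit 9) (nat_lit 1) (nat_lit 0) (@Lb.g g8 (@Lb.g g9 (@Lb.r r1579 (@Lb.r r2178 (@Lb.r r2585 (@Lb.r r2564 (@Lb.d (nat_lit 649) (nat_lit 129) (nat_lit 384) (@Lb.fm (nat_lit 3) t820)))))))))
noncomputable def l30938 : Lb := (@Lb.d (nat_lit 2) (nat_lit 258) (nat_lit 41) (@Lb.g g8 (@Lb.g g9 (@Lb.g g6 (@Lb.g g11 (@Lb.r r601 (@Lb.r r2323 (@Lb.r r2577 (@Lb.r r2564 (@Lb.d (nat_lit 161) (nat_lit 129) (nat_lit 416) (@Lb.fm (nat_lit 9) t307)))))))))))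
noncomputable def l30939 : Lb := (@Lb.d (nat_lit 2) (nat_lit 258) (nat_lit 2) (@Lb.g g8 (@Lb.g g9 (@Lb.g g10 (@Lb.r r683 (@Lb.r r2666 (@Lb.r r2585 (@Lb.r r2564 (@Lb.d (nat_lit 649) (nat_lit 9) (nat_lit 417) (@Lb.t (@Lb.fp (nat_lit 9) t820)))))))))))
noncomputable def l30940 : Lb := (@Lb.d (nat_lit 2) (nat_lit 2) (nat_lit 41) (@Lb.g g8 (@Lb.g g9 (@Lb.g g6 (@Lb.g g11 (@Lb.r r601 (@Lb.r r2323 (@Lb.r r2577 (@Lb.r r2564 (@Lb.d (nat_lit 162) (nat_lit 129) (nat_lit 416) (@Lb.fm (nat_lit 9) t268)))))))))))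
noncomputable def l30941 : Lb := (@Lb.r r323 (@Lb.d (nat_lit 16) (nat_lit 512) (nat_lit 37) (@Lb.g g6 (@Lb.r r584 (@Lb.r r299 (@Lb.r r289 (@Lb.d (nat_lit 326) (nat_lit 2) (nat_lit 513) (@Lb.t (@Lb.fm (nat_lit 3) t1449)))))))))
noncomputable def l30942 : Lb := (@Lb.d (nat_lit 2) (nat_lit 258) (nat_lit 105) (@Lb.g g8 (@Lb.g g9 (@Lb.g g6 (@Lb.g g11 (@Lb.r r2657 (@Lb.r r1319 (@Lb.r r2564 (@Lb.d (nat_lit 136) (nat_lit 138) (nat_lit 384) (@Lb.fp (nat_lit 9) t1775))))))))))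
noncomputable def l30943 : Lb := (@Lb.d (nat_lit 2) (nat_lit 550) (nat_lit 133) (@Lb.g g8 (@Lb.g g9 (@Lb.g g10 (@Lb.g g11 (@Lb.r r1706 (@Lb.r r273 (@Lb.r r1700 (@Lb.r r1575 (@Lb.d (nat_lit 6) (nat_lit 98) (nat_lit 266) (@Lb.fp (nat_lit 9) t594)))))))))))
noncomputable def l30944 : Lb := (@Lb.d (nat_lit 4) (nat_lit 0) (nat_lit 73) (@Lb.g g8 (@Lb.g g9 (@Lb.g g10 (@Lb.g g11 (@Lb.r r2666 (@Lb.r r579 (@Lb.r r97 (@Lb.r r24 (@Lb.d (nat_lit 146) (nat_lit 10) (nat_lit 326) (@Lb.fm (nat_lit 9) t61)))))))))))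
noncomputable def l30945 : Lb := (@Lb.d (nat_lit 2) (nat_lit 544) (nat_lit 73) (@Lb.g g8 (@Lb.g g10 (@Lb.g g11 (@Lb.r r2122 (@Lb.r r360 (@Lb.r r281 (@Lb.r r2599 (@Lb.d (nat_lit 150) (nat_lit 85) (nat_lit 262) (@Lb.t (@Lb.fm (nat_lit 9) t5564)))))))))))
noncomputable def l30946 : Lb := (@Lb.r r355 (@Lb.d (nat_lit 2) (nat_lit 1) (nat_lit 22) (@Lb.g g8 (@Lb.g g9 (@Lb.g g10 (@Lb.r r2647 (@Lb.r r2389 (@Lb.r r24 (@Lb.d (nat_lit 144) (nat_lit 105) (nat_lit 153) (@Lb.t (@Lb.fm (nat_lit 9) t1108)))))))))))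
noncomputable def l30947 : Lb := (@Lb.d (nat_lit 130) (nat_lit 514) (nat_lit 66) (@Lb.g g8 (@Lb.g g9 (@Lb.g g10 (@Lb.g g11 (@Lb.r r421 (@Lb.r r347 (@Lb.r r1682 (@Lb.r r81 (@Lb.r r2084 (@Lb.d (nat_lit 596) (nat_lit 101) (nat_lit 322) (@Lb.fp (nat_lit 9) t5563))))))))))))
noncomputable def l30948 : Lb := (@Lb.d (nat_lit 130) (nat_lit 516) (nat_lit 64) (@Lb.g g8 (@Lb.g g9 (@Lb.g g10 (@Lb.g g11 (@Lb.r r2666 (@Lb.r r1619 (@Lb.r r297 (@Lb.r r2084 (@Lb.d (nat_lit 666) (nat_lit 37) (nat_lit 66) (@Lb.fp (nat_lit 9) t5565)))))))))))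
noncomputable def l30949 : Lb := (@Lb.r r82 (@Lb.d (nat_lit 4) (nat_lit 512) (nat_lit 0) (@Lb.g g8 (@Lb.g g9 (@Lb.r r555 (@Lb.r r362 (@Lb.r r1561 (@Lb.d (nat_lit 586) (nat_lit 161) (nat_lit 640) (@Lb.fp (nat_lit 3) t1370)))))))))
noncomputable def l30950 : Lb := (@Lb.d (nat_lit 0) (nat_lit 5) (nat_lit 0) (@Lb.g g8 (@Lb.g g5 (@Lb.g g7 (@Lb.r r402 (@Lb.d (nat_lit 0) (nat_lit 1) (nat_lit 132) (@Lb.t (@Lb.fp (nat_lit 9) t311))))))))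
noncomputable def l30951 : Lb := (@Lb.d (nat_lit 2) (nat_lit 22) (nat_lit 64) (@Lb.r r260 (@Lb.r r97 (@Lb.r r267 (@Lb.r r404 (@Lb.g g7 (@Lb.g g10 (@Lb.g g5 (@Lb.g g4 (@Lb.d (nat_lit 18) (nat_lit 8) (nat_lit 134) (@Lb.fp (nat_lit 9) t494)))))))))))
noncomputable def l30952 : Lb := (@Lb.d (nat_lit 0) (nat_lit 514) (nat_lit 130) (@Lb.g g9 (@Lb.g g10 (@Lb.g g11 (@Lb.r r423 (@Lb.r r386 (@Lb.r r148 (@Lb.r r25 (@Lb.d (nat_lit 98) (nat_lit 162) (nat_lit 329) (@Lb.t (@Lb.fp (nat_lit 9) t139)))))))))))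
noncomputable def l30953 : Lb := (@Lb.d (nat_lit 666) (nat_lit 166) (nat_lit 84) (@Lb.r r24 (@Lb.r r405 (@Lb.r r338 (@Lb.r r1699 (@Lb.g g7 (@Lb.g g6 (@Lb.g g5 (@Lb.d (nat_lit 0) (nat_lit 20) (nat_lit 130) (@Lb.t (@Lb.fp (nat_lit 9) t2096)))))))))))
noncomputable def l30954 : Lb := (@Lb.d (nat_lit 0) (nat_lit 5) (nat_lit 10) (@Lb.g g8 (@Lb.g g5 (@Lb.g g10 (@Lb.r r2371 (@Lb.r r578 (@Lb.d (nat_lit 0) (nat_lit 145) (nat_lit 138) (@Lb.t (@Lb.fp (nat_lit 9) t412)))))))))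
noncomputable def l30955 : Lb := (@Lb.d (nat_lit 656) (nat_lit 676) (nat_lit 84) (@Lb.r r24 (@Lb.r r405 (@Lb.r r338 (@Lb.r r1699 (@Lb.g g7 (@Lb.g g6 (@Lb.g g5 (@Lb.d (nat_lit 0) (nat_lit 20) (nat_lit 130) (@Lb.t (@Lb.fp (nat_lit 9) t2096)))))))))))
noncomputable def l30956 : Lb := (@Lb.d (nat_lit 0) (nat_lit 549) (nat_lit 10) (@Lb.g g8 (@Lb.g g9 (@Lb.g g10 (@Lb.g g11 (@Lb.r r675 (@Lb.r r578 (@Lb.r r609 (@Lb.d (nat_lit 0) (nat_lit 9) (nat_lit 133) (@Lb.fp (nat_lit 9) t50))))))))))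
noncomputable def l30957 : Lb := (@Lb.d (nat_lit 0) (nat_lit 512) (nat_lit 130) (@Lb.g g10 (@Lb.g g11 (@Lb.r r1447 (@Lb.r r386 (@Lb.r r2196 (@Lb.r r1049 (@Lb.d (nat_lit 610) (nat_lit 69) (nat_lit 133) (@Lb.fp (nat_lit 3) t263)))))))))
noncomputable def l30958 : Lb := (@Lb.d (nat_lit 64) (nat_lit 36) (nat_lit 576) (@Lb.g g9 (@Lb.g g10 (@Lb.g g7 (@Lb.r r386 (@Lb.r r2328 (@Lb.r r1637 (@Lb.d (nat_lit 514) (nat_lit 129) (nat_lit 26) (@Lb.t (@Lb.fm (nat_lit 9) t149))))))))))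
noncomputable def l30959 : Lb := (@Lb.d (nat_lit 146) (nat_lit 512) (nat_lit 70) (@Lb.r r584 (@Lb.r r2454 (@Lb.r r1707 (@Lb.g g7 (@Lb.g g5 (@Lb.g g4 (@Lb.d (nat_lit 17) (nat_lit 69) (nat_lit 0) (@Lb.r r74 (@Lb.t (@Lb.fm (nat_lit 9) t61)))))))))))
noncomputable def l30960 : Lb := (@Lb.d (nat_lit 0) (nat_lit 36) (nat_lit 64) (@Lb.g g9 (@Lb.g g10 (@Lb.g g11 (@Lb.r r1703 (@Lb.r r1634 (@Lb.r r1637 (@Lb.d (nat_lit 297) (nat_lit 154) (nat_lit 664) (@Lb.t (@Lb.fm (nat_lit 9) t50))))))))))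
noncomputable def l30961 : Lb := (@Lb.d (nat_lit 8) (nat_lit 260) (nat_lit 0) (@Lb.g g9 (@Lb.g g10 (@Lb.r r2631 (@Lb.r r386 (@Lb.r r1432 (@Lb.r r2725 (@Lb.d (nat_lit 16) (nat_lit 22) (nat_lit 134) (@Lb.fm (nat_lit 3) t3204)))))))))
noncomputable def l30962 : Lb := (@Lb.d (nat_lit 392) (nat_lit 326) (nat_lit 289) (@Lb.r r101 (@Lb.r r24 (@Lb.r r402 (@Lb.r r323 (@Lb.g g7 (@Lb.g g6 (@Lb.d (nat_lit 0) (nat_lit 0) (nat_lit 64) (@Lb.fp (nat_lit 3) t5566)))))))))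
noncomputable def l30963 : Lb := (@Lb.d (nat_lit 144) (nat_lit 514) (nat_lit 128) (@Lb.g g8 (@Lb.g g9 (@Lb.g g10 (@Lb.g g11 (@Lb.r r1706 (@Lb.r r1411 (@Lb.r r2201 (@Lb.r r2180 (@Lb.d (nat_lit 553) (nat_lit 153) (nat_lit 100) (@Lb.fm (nat_lit 9) t2228)))))))))))
noncomputable def l30964 : Lb := (@Lb.d (nat_lit 4) (nat_lit 544) (nat_lit 130) (@Lb.g g8 (@Lb.g g9 (@Lb.g g10 (@Lb.g g11 (@Lb.r r1642 (@Lb.r r612 (@Lb.r r679 (@Lb.r r597 (@Lb.r r1060 (@Lb.d (nat_lit 408) (nat_lit 9) (nat_lit 681) (@Lb.fm (nat_lit 9) t1152))))))))))))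
noncomputable def l30965 : Lb := (@Lb.d (nat_lit 320) (nat_lit 261) (nat_lit 650) (@Lb.r r2374 (@Lb.r r1684 (@Lb.r r297 (@Lb.r r2691 (@Lb.g g7 (@Lb.g g6 (@Lb.g g5 (@Lb.d (nat_lit 0) (nat_lit 1) (nat_lit 134) (@Lb.t (@Lb.fp (nat_lit 9) t5567)))))))))))
noncomputable def l30966 : Lb := (@Lb.d (nat_lit 2) (nat_lit 34) (nat_lit 130) (@Lb.g g8 (@Lb.g g9 (@Lb.g g10 (@Lb.g g11 (@Lb.r r682 (@Lb.r r387 (@Lb.r r1177 (@Lb.d (nat_lit 537) (nat_lit 149) (nat_lit 409) (@Lb.fm (nat_lit 9) t1047))))))))))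
noncomputable def l30967 : Lb := (@Lb.r r82 (@Lb.d (nat_lit 34) (nat_lit 258) (nat_lit 136) (@Lb.g g8 (@Lb.g g9 (@Lb.g g11 (@Lb.r r1362 (@Lb.r r2645 (@Lb.r r356 (@Lb.r r395 (@Lb.d (nat_lit 548) (nat_lit 98) (nat_lit 680) (@Lb.t (@Lb.fm (nat_lit 9) t4371))))))))))))
noncomputable def l30968 : Lb := (@Lb.d (nat_lit 2) (nat_lit 273) (nat_lit 66) (@Lb.r r260 (@Lb.r r97 (@Lb.r r267 (@Lb.r r404 (@Lb.g g7 (@Lb.g g10 (@Lb.g g5 (@Lb.g g4 (@Lb.d (nat_lit 18) (nat_lit 1) (nat_lit 66) (@Lb.fp (nat_lit 9) t1037)))))))))))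
noncomputable def l30969 : Lb := (@Lb.d (nat_lit 0) (nat_lit 521) (nat_lit 128) (@Lb.g g8 (@Lb.g g9 (@Lb.g g11 (@Lb.r r2699 (@Lb.r r146 (@Lb.r r97 (@Lb.r r2584 (@Lb.d (nat_lit 578) (nat_lit 41) (nat_lit 385) (@Lb.t (@Lb.fm (nat_lit 9) t1855)))))))))))
noncomputable def l30970 : Lb := (@Lb.d (nat_lit 548) (nat_lit 400) (nat_lit 581) (@Lb.r r24 (@Lb.r r1433 (@Lb.r r2727 (@Lb.g g7 (@Lb.g g10 (@Lb.g g5 (@Lb.d (nat_lit 32) (nat_lit 4) (nat_lit 66) (@Lb.t (@Lb.fm (nat_lit 9) t3329))))))))))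
noncomputable def l30971 : Lb := (@Lb.d (nat_lit 0) (nat_lit 521) (nat_lit 128) (@Lb.g g8 (@Lb.g g9 (@Lb.g g11 (@Lb.r r2699 (@Lb.r r146 (@Lb.r r97 (@Lb.r r2584 (@Lb.d (nat_lit 585) (nat_lit 33) (nat_lit 386) (@Lb.t (@Lb.fm (nat_lit 9) t5568)))))))))))
noncomputable def l30972 : Lb := (@Lb.d (nat_lit 10) (nat_lit 0) (nat_lit 0) (@Lb.g g8 (@Lb.g g10 (@Lb.r r2325 (@Lb.r r555 (@Lb.r r676 (@Lb.r r1158 (@Lb.d (nat_lit 2) (nat_lit 85) (nat_lit 258) (@Lb.fm (nat_lit 3) t100)))))))))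
noncomputable def l30973 : Lb := (@Lb.d (nat_lit 0) (nat_lit 0) (nat_lit 128) (@Lb.g g4 (@Lb.g g10 (@Lb.g g11 (@Lb.r r2626 (@Lb.d (nat_lit 1) (nat_lit 0) (nat_lit 384) (@Lb.t (@Lb.fp (nat_lit 9) t2))))))))
noncomputable def l30974 : Lb := (@Lb.d (nat_lit 129) (nat_lit 272) (nat_lit 2) (@Lb.g g8 (@Lb.g g9 (@Lb.g g10 (@Lb.g g11 (@Lb.r r683 (@Lb.r r1610 (@Lb.r r2596 (@Lb.r r1061 (@Lb.d (nat_lit 538) (nat_lit 164) (nat_lit 673) (@Lb.fp (nat_lit 9) t211)))))))))))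
noncomputable def l30975 : Lb := (@Lb.d (nat_lit 4) (nat_lit 513) (nat_lit 0) (@Lb.g g5 (@Lb.r r1319 (@Lb.r r1126 (@Lb.r r24 (@Lb.d (nat_lit 65) (nat_lit 1) (nat_lit 512) (@Lb.t (@Lb.fp (nat_lit 3) t1025))))))))
noncomputable def l30976 : Lb := (@Lb.d (nat_lit 0) (nat_lit 266) (nat_lit 0) (@Lb.g g9 (@Lb.r r594 (@Lb.r r677 (@Lb.r r24 (@Lb.d (nat_lit 656) (nat_lit 0) (nat_lit 533) (@Lb.t (@Lb.fp (nat_lit 3) t4869))))))))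
noncomputable def l30977 : Lb := (@Lb.d (nat_lit 0) (nat_lit 274) (nat_lit 68) (@Lb.g g9 (@Lb.g g10 (@Lb.g g11 (@Lb.r r1697 (@Lb.r r2467 (@Lb.r r578 (@Lb.d (nat_lit 0) (nat_lit 166) (nat_lit 150) (@Lb.t (@Lb.fp (nat_lit 9) t144))))))))))
noncomputable def l30978 : Lb := (@Lb.d (nat_lit 10) (nat_lit 512) (nat_lit 0) (@Lb.g g8 (@Lb.g g10 (@Lb.r r2325 (@Lb.r r555 (@Lb.r r676 (@Lb.r r1158 (@Lb.d (nat_lit 2) (nat_lit 90) (nat_lit 256) (@Lb.fm (nat_lit 3) t100)))))))))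
noncomputable def l30979 : Lb := (@Lb.d (nat_lit 0) (nat_lit 256) (nat_lit 657) (@Lb.r r2068 (@Lb.r r1625 (@Lb.r r358 (@Lb.r r152 (@Lb.g g11 (@Lb.t (@Lb.fm (nat_lit 3) t1261))))))))
noncomputable def l30980 : Lb := (@Lb.d (nat_lit 9) (nat_lit 513) (nat_lit 2) (@Lb.g g8 (@Lb.g g9 (@Lb.g g10 (@Lb.r r676 (@Lb.r r1415 (@Lb.r r2438 (@Lb.r r1425 (@Lb.d (nat_lit 82) (nat_lit 160) (nat_lit 144) (@Lb.t (@Lb.fp (nat_lit 9) t5569)))))))))))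
noncomputable def l30981 : Lb := (@Lb.d (nat_lit 4) (nat_lit 0) (nat_lit 72) (@Lb.g g8 (@Lb.g g9 (@Lb.g g11 (@Lb.r r1410 (@Lb.r r579 (@Lb.r r25 (@Lb.d (nat_lit 0) (nat_lit 144) (nat_lit 425) (@Lb.t (@Lb.fm (nat_lit 9) t210))))))))))
noncomputable def l30982 : Lb := (@Lb.g g9 (@Lb.r r2343 (@Lb.r r1096 (@Lb.r r2646 (@Lb.r r409 (@Lb.d (nat_lit 273) (nat_lit 394) (nat_lit 18) (@Lb.t (@Lb.fm (nat_lit 3) t3997))))))))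
noncomputable def l30983 : Lb := (@Lb.d (nat_lit 2) (nat_lit 2) (nat_lit 2) (@Lb.g g8 (@Lb.g g9 (@Lb.g g10 (@Lb.r r683 (@Lb.r r2666 (@Lb.r r25 (@Lb.d (nat_lit 6) (nat_lit 25) (nat_lit 537) (@Lb.t (@Lb.fp (nat_lit 9) t591))))))))))
noncomputable def l30984 : Lb := (@Lb.d (nat_lit 9) (nat_lit 513) (nat_lit 2) (@Lb.g g8 (@Lb.g g9 (@Lb.g g10 (@Lb.r r683 (@Lb.r r2666 (@Lb.r r25 (@Lb.r r40 (@Lb.d (nat_lit 9) (nat_lit 90) (nat_lit 537) (@Lb.t (@Lb.fm (nat_lit 9) t591)))))))))))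
noncomputable def l30985 : Lb := (@Lb.d (nat_lit 272) (nat_lit 580) (nat_lit 1) (@Lb.g g8 (@Lb.g g9 (@Lb.g g10 (@Lb.r r1707 (@Lb.r r618 (@Lb.d (nat_lit 614) (nat_lit 154) (nat_lit 297) (@Lb.t (@Lb.fp (nat_lit 9) t979)))))))))
noncomputable def l30986 : Lb := (@Lb.r r323 (@Lb.d (nat_lit 0) (nat_lit 522) (nat_lit 0) (@Lb.g g9 (@Lb.g g10 (@Lb.r r339 (@Lb.r r162 (@Lb.r r101 (@Lb.d (nat_lit 22) (nat_lit 8) (nat_lit 2) (@Lb.fm (nat_lit 3) t579)))))))))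
noncomputable def l30987 : Lb := (@Lb.d (nat_lit 128) (nat_lit 256) (nat_lit 64) (@Lb.g g11 (@Lb.r r264 (@Lb.r r519 (@Lb.r r1154 (@Lb.r r1057 (@Lb.d (nat_lit 130) (nat_lit 0) (nat_lit 128) (@Lb.t (@Lb.fp (nat_lit 3) t980)))))))))
noncomputable def l30988 : Lb := (@Lb.d (nat_lit 2) (nat_lit 260) (nat_lit 0) (@Lb.g g8 (@Lb.g g9 (@Lb.g g10 (@Lb.r r1689 (@Lb.r r1688 (@Lb.r r1691 (@Lb.r r1610 (@Lb.d (nat_lit 610) (nat_lit 90) (nat_lit 409) (@Lb.t (@Lb.fm (nat_lit 9) t5570)))))))))))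
noncomputable def l30989 : Lb := (@Lb.r r82 (@Lb.d (nat_lit 128) (nat_lit 2) (nat_lit 128) (@Lb.g g8 (@Lb.g g9 (@Lb.g g11 (@Lb.r r1697 (@Lb.r r1447 (@Lb.r r98 (@Lb.r r584 (@Lb.d (nat_lit 104) (nat_lit 4) (nat_lit 136) (@Lb.t (@Lb.fm (nat_lit 9) t3734))))))))))))
noncomputable def l30990 : Lb := (@Lb.d (nat_lit 0) (nat_lit 261) (nat_lit 128) (@Lb.g g5 (@Lb.g g10 (@Lb.g g11 (@Lb.r r1691 (@Lb.r r578 (@Lb.r r24 (@Lb.d (nat_lit 256) (nat_lit 89) (nat_lit 137) (@Lb.t (@Lb.fp (nat_lit 9) t3548))))))))))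
noncomputable def l30991 : Lb := (@Lb.d (nat_lit 0) (nat_lit 517) (nat_lit 74) (@Lb.g g5 (@Lb.g g10 (@Lb.g g11 (@Lb.r r1691 (@Lb.r r1610 (@Lb.r r24 (@Lb.d (nat_lit 673) (nat_lit 160) (nat_lit 681) (@Lb.t (@Lb.fp (nat_lit 9) t5571))))))))))
noncomputable def l30992 : Lb := (@Lb.d (nat_lit 2) (nat_lit 256) (nat_lit 64) (@Lb.g g8 (@Lb.g g11 (@Lb.r r337 (@Lb.r r683 (@Lb.r r680 (@Lb.r r170 (@Lb.r r153 (@Lb.d (nat_lit 2) (nat_lit 5) (nat_lit 10) (@Lb.fp (nat_lit 3) t45))))))))))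
noncomputable def l30993 : Lb := (@Lb.r r263 (@Lb.d (nat_lit 161) (nat_lit 2) (nat_lit 1) (@Lb.g g8 (@Lb.g g9 (@Lb.g g10 (@Lb.r r1194 (@Lb.r r1681 (@Lb.r r1623 (@Lb.r r328 (@Lb.d (nat_lit 416) (nat_lit 69) (nat_lit 296) (@Lb.t (@Lb.fp (nat_lit 9) t5572))))))))))))
noncomputable def l30994 : Lb := (@Lb.d (nat_lit 33) (nat_lit 514) (nat_lit 136) (@Lb.g g8 (@Lb.g g9 (@Lb.g g10 (@Lb.g g11 (@Lb.r r683 (@Lb.r r1689 (@Lb.r r1688 (@Lb.r r602 (@Lb.d (nat_lit 105) (nat_lit 101) (nat_lit 280) (@Lb.fp (nat_lit 9) t1235)))))))))))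
noncomputable def l30995 : Lb := (@Lb.d (nat_lit 33) (nat_lit 264) (nat_lit 0) (@Lb.g g8 (@Lb.g g9 (@Lb.r r2379 (@Lb.r r582 (@Lb.r r1432 (@Lb.r r1045 (@Lb.d (nat_lit 514) (nat_lit 24) (nat_lit 682) (@Lb.fp (nat_lit 3) t553)))))))))
noncomputable def l30996 : Lb := (@Lb.d (nat_lit 1) (nat_lit 256) (nat_lit 128) (@Lb.g g8 (@Lb.g g11 (@Lb.r r353 (@Lb.r r667 (@Lb.r r664 (@Lb.r r154 (@Lb.d (nat_lit 513) (nat_lit 5) (nat_lit 85) (@Lb.fm (nat_lit 3) t126)))))))))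
noncomputable def l30997 : Lb := (@Lb.d (nat_lit 2) (nat_lit 2) (nat_lit 130) (@Lb.g g8 (@Lb.g g9 (@Lb.g g10 (@Lb.g g11 (@Lb.r r427 (@Lb.r r145 (@Lb.r r356 (@Lb.r r154 (@Lb.r r132 (@Lb.d (nat_lit 9) (nat_lit 9) (nat_lit 1) (@Lb.fm (nat_lit 9) t61))))))))))))
noncomputable def l30998 : Lb := (@Lb.d (nat_lit 2) (nat_lit 40) (nat_lit 68) (@Lb.r r322 (@Lb.r r659 (@Lb.g g7 (@Lb.g g6 (@Lb.g g9 (@Lb.d (nat_lit 8) (nat_lit 9) (nat_lit 133) (@Lb.t (@Lb.fp (nat_lit 9) t3411)))))))))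
noncomputable def l30999 : Lb := (@Lb.d (nat_lit 8) (nat_lit 9) (nat_lit 130) (@Lb.g g9 (@Lb.g g10 (@Lb.g g11 (@Lb.r r2471 (@Lb.r r1096 (@Lb.r r2646 (@Lb.r r409 (@Lb.d (nat_lit 280) (nat_lit 70) (nat_lit 169) (@Lb.t (@Lb.fp (nat_lit 9) t5573)))))))))))
noncomputable def l31000 : Lb := (@Lb.d (nat_lit 296) (nat_lit 66) (nat_lit 18) (@Lb.r r24 (@Lb.r r2138 (@Lb.r r2331 (@Lb.g g5 (@Lb.d (nat_lit 8) (nat_lit 9) (nat_lit 0) (@Lb.t (@Lb.fp (nat_lit 3) t25))))))))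
noncomputable def l31001 : Lb := (@Lb.d (nat_lit 516) (nat_lit 402) (nat_lit 405) (@Lb.r r2129 (@Lb.r r354 (@Lb.r r81 (@Lb.r r1671 (@Lb.g g7 (@Lb.g g6 (@Lb.g g5 (@Lb.g g8 (@Lb.d (nat_lit 1) (nat_lit 1) (nat_lit 134) (@Lb.fp (nat_lit 9) t229)))))))))))
noncomputable def l31002 : Lb := (@Lb.d (nat_lit 516) (nat_lit 65) (nat_lit 0) (@Lb.r r1121 (@Lb.r r402 (@Lb.r r2375 (@Lb.g g7 (@Lb.g g6 (@Lb.g g4 (@Lb.d (nat_lit 2) (nat_lit 0) (nat_lit 64) (@Lb.t (@Lb.fp (nat_lit 9) t5574))))))))))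
noncomputable def l31003 : Lb := (@Lb.d (nat_lit 518) (nat_lit 65) (nat_lit 0) (@Lb.r r8 (@Lb.r r1121 (@Lb.r r402 (@Lb.r r2379 (@Lb.g g7 (@Lb.g g6 (@Lb.d (nat_lit 0) (nat_lit 0) (nat_lit 64) (@Lb.fp (nat_lit 3) t109)))))))))
noncomputable def l31004 : Lb := (@Lb.d (nat_lit 128) (nat_lit 32) (nat_lit 136) (@Lb.g g11 (@Lb.r r420 (@Lb.r r2469 (@Lb.r r1446 (@Lb.r r347 (@Lb.d (nat_lit 288) (nat_lit 86) (nat_lit 518) (@Lb.t (@Lb.fp (nat_lit 3) t748)))))))))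
noncomputable def l31005 : Lb := (@Lb.d (nat_lit 278) (nat_lit 548) (nat_lit 273) (@Lb.r r408 (@Lb.r r330 (@Lb.r r599 (@Lb.g g7 (@Lb.g g9 (@Lb.g g4 (@Lb.d (nat_lit 16) (nat_lit 154) (nat_lit 128) (@Lb.r r98 (@Lb.t (@Lb.fm (nat_lit 9) t5575)))))))))))
noncomputable def l31006 : Lb := (@Lb.d (nat_lit 148) (nat_lit 256) (nat_lit 128) (@Lb.g g8 (@Lb.g g9 (@Lb.g g10 (@Lb.g g11 (@Lb.r r360 (@Lb.r r1623 (@Lb.r r341 (@Lb.r r170 (@Lb.r r1044 (@Lb.d (nat_lit 22) (nat_lit 21) (nat_lit 168) (@Lb.fm (nat_lit 9) t278))))))))))))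
noncomputable def l31007 : Lb := (@Lb.d (nat_lit 321) (nat_lit 2) (nat_lit 578) (@Lb.g g8 (@Lb.g g9 (@Lb.g g10 (@Lb.g g7 (@Lb.r r386 (@Lb.r r97 (@Lb.d (nat_lit 9) (nat_lit 137) (nat_lit 9) (@Lb.fm (nat_lit 9) t347)))))))))
noncomputable def l31008 : Lb := (@Lb.d (nat_lit 16) (nat_lit 258) (nat_lit 128) (@Lb.g g8 (@Lb.g g9 (@Lb.g g10 (@Lb.g g11 (@Lb.r r683 (@Lb.r r676 (@Lb.r r1190 (@Lb.r r145 (@Lb.d (nat_lit 256) (nat_lit 133) (nat_lit 424) (@Lb.fp (nat_lit 9) t5148)))))))))))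
noncomputable def l31009 : Lb := (@Lb.d (nat_lit 144) (nat_lit 266) (nat_lit 9) (@Lb.g g8 (@Lb.g g9 (@Lb.g g10 (@Lb.r r1303 (@Lb.r r1641 (@Lb.r r2454 (@Lb.r r2632 (@Lb.d (nat_lit 105) (nat_lit 65) (nat_lit 425) (@Lb.t (@Lb.fp (nat_lit 9) t406)))))))))))
noncomputable def l31010 : Lb := (@Lb.d (nat_lit 16) (nat_lit 514) (nat_lit 162) (@Lb.g g9 (@Lb.g g10 (@Lb.g g11 (@Lb.r r648 (@Lb.r r1435 (@Lb.r r2581 (@Lb.r r36 (@Lb.d (nat_lit 133) (nat_lit 74) (nat_lit 129) (@Lb.t (@Lb.fp (nat_lit 9) t1863)))))))))))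
noncomputable def l31011 : Lb := (@Lb.d (nat_lit 0) (nat_lit 258) (nat_lit 73) (@Lb.g g9 (@Lb.g g10 (@Lb.g g11 (@Lb.r r1671 (@Lb.r r145 (@Lb.r r594 (@Lb.r r1169 (@Lb.d (nat_lit 538) (nat_lit 97) (nat_lit 586) (@Lb.t (@Lb.fp (nat_lit 9) t504)))))))))))
noncomputable def l31012 : Lb := (@Lb.d (nat_lit 0) (nat_lit 514) (nat_lit 0) (@Lb.g g8 (@Lb.g g9 (@Lb.r r1122 (@Lb.r r25 (@Lb.r r24 (@Lb.d (nat_lit 520) (nat_lit 9) (nat_lit 2) (@Lb.fp (nat_lit 3) t1962))))))))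
noncomputable def l31013 : Lb := (@Lb.d (nat_lit 536) (nat_lit 0) (nat_lit 73) (@Lb.g g8 (@Lb.g g10 (@Lb.g g11 (@Lb.r r1667 (@Lb.r r1634 (@Lb.d (nat_lit 9) (nat_lit 164) (nat_lit 665) (@Lb.t (@Lb.fp (nat_lit 9) t5576)))))))))
noncomputable def l31014 : Lb := (@Lb.d (nat_lit 536) (nat_lit 512) (nat_lit 130) (@Lb.g g8 (@Lb.g g10 (@Lb.g g11 (@Lb.r r1667 (@Lb.r r1634 (@Lb.d (nat_lit 9) (nat_lit 164) (nat_lit 665) (@Lb.t (@Lb.fp (nat_lit 9) t5576)))))))))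
noncomputable def l31015 : Lb := (@Lb.d (nat_lit 536) (nat_lit 512) (nat_lit 74) (@Lb.g g8 (@Lb.g g10 (@Lb.g g11 (@Lb.r r1683 (@Lb.r r1602 (@Lb.d (nat_lit 9) (nat_lit 26) (nat_lit 665) (@Lb.t (@Lb.fp (nat_lit 9) t5577)))))))))
noncomputable def l31016 : Lb := (@Lb.d (nat_lit 106) (nat_lit 609) (nat_lit 5) (@Lb.r r101 (@Lb.r r386 (@Lb.r r339 (@Lb.g g7 (@Lb.g g6 (@Lb.d (nat_lit 0) (nat_lit 0) (nat_lit 65) (@Lb.fm (nat_lit 3) t1531))))))))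
noncomputable def l31017 : Lb := (@Lb.d (nat_lit 4) (nat_lit 8) (nat_lit 0) (@Lb.g g8 (@Lb.g g9 (@Lb.r r1636 (@Lb.r r1383 (@Lb.r r1626 (@Lb.r r1429 (@Lb.d (nat_lit 612) (nat_lit 90) (nat_lit 258) (@Lb.fm (nat_lit 3) t3300)))))))))
noncomputable def l31018 : Lb := (@Lb.d (nat_lit 0) (nat_lit 514) (nat_lit 130) (@Lb.g g8 (@Lb.g g9 (@Lb.g g10 (@Lb.g g11 (@Lb.r r427 (@Lb.r r2146 (@Lb.r r292 (@Lb.r r2069 (@Lb.r r1060 (@Lb.d (nat_lit 294) (nat_lit 138) (nat_lit 33) (@Lb.fp (nat_lit 9) t1351))))))))))))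
noncomputable def l31019 : Lb := (@Lb.d (nat_lit 273) (nat_lit 293) (nat_lit 324) (@Lb.r r2120 (@Lb.r r386 (@Lb.r r1367 (@Lb.g g6 (@Lb.g g5 (@Lb.g g4 (@Lb.d (nat_lit 2) (nat_lit 73) (nat_lit 0) (@Lb.t (@Lb.fp (nat_lit 9) t3194))))))))))
noncomputable def l31020 : Lb := (@Lb.d (nat_lit 33) (nat_lit 257) (nat_lit 130) (@Lb.g g8 (@Lb.g g9 (@Lb.g g10 (@Lb.g g11 (@Lb.r r1689 (@Lb.r r667 (@Lb.r r664 (@Lb.r r2634 (@Lb.d (nat_lit 358) (nat_lit 152) (nat_lit 73) (@Lb.fp (nat_lit 9) t5578)))))))))))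
noncomputable def l31021 : Lb := (@Lb.g g10 (@Lb.r r101 (@Lb.d (nat_lit 256) (nat_lit 522) (nat_lit 34) (@Lb.t (@Lb.fm (nat_lit 3) t743)))))
noncomputable def l31022 : Lb := (@Lb.d (nat_lit 25) (nat_lit 580) (nat_lit 390) (@Lb.r r1297 (@Lb.r r2667 (@Lb.r r545 (@Lb.r r170 (@Lb.g g7 (@Lb.g g6 (@Lb.g g5 (@Lb.g g8 (@Lb.d (nat_lit 320) (nat_lit 32) (nat_lit 1) (@Lb.fp (nat_lit 9) t2953)))))))))))
noncomputable def l31023 : Lb := (@Lb.d (nat_lit 1) (nat_lit 258) (nat_lit 130) (@Lb.g g4 (@Lb.g g9 (@Lb.g g10 (@Lb.g g11 (@Lb.r r1443 (@Lb.r r386 (@Lb.r r1125 (@Lb.d (nat_lit 405) (nat_lit 144) (nat_lit 85) (@Lb.fm (nat_lit 9) t714))))))))))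
noncomputable def l31024 : Lb := (@Lb.g g5 (@Lb.g g10 (@Lb.d (nat_lit 290) (nat_lit 0) (nat_lit 34) (@Lb.fp (nat_lit 3) t127))))
noncomputable def l31025 : Lb := (@Lb.d (nat_lit 33) (nat_lit 0) (nat_lit 73) (@Lb.g g8 (@Lb.g g5 (@Lb.g g10 (@Lb.g g11 (@Lb.r r2471 (@Lb.r r1156 (@Lb.r r1366 (@Lb.d (nat_lit 548) (nat_lit 133) (nat_lit 289) (@Lb.fm (nat_lit 9) t5579))))))))))
noncomputable def l31026 : Lb := (@Lb.d (nat_lit 273) (nat_lit 1) (nat_lit 84) (@Lb.r r2120 (@Lb.r r1442 (@Lb.r r359 (@Lb.g g6 (@Lb.g g5 (@Lb.g g4 (@Lb.d (nat_lit 1) (nat_lit 73) (nat_lit 2) (@Lb.t (@Lb.fp (nat_lit 9) t3194))))))))))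
noncomputable def l31027 : Lb := (@Lb.d (nat_lit 9) (nat_lit 293) (nat_lit 128) (@Lb.g g8 (@Lb.g g9 (@Lb.g g10 (@Lb.g g11 (@Lb.r r1699 (@Lb.r r1418 (@Lb.r r36 (@Lb.r r2581 (@Lb.r r2084 (@Lb.d (nat_lit 409) (nat_lit 148) (nat_lit 357) (@Lb.fp (nat_lit 9) t1161))))))))))))
noncomputable def l31028 : Lb := (@Lb.g g4 (@Lb.r r101 (@Lb.r r1172 (@Lb.d (nat_lit 256) (nat_lit 517) (nat_lit 33) (@Lb.t (@Lb.fp (nat_lit 3) t743))))))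
noncomputable def l31029 : Lb := (@Lb.d (nat_lit 280) (nat_lit 513) (nat_lit 32) (@Lb.r r1121 (@Lb.r r402 (@Lb.r r323 (@Lb.g g7 (@Lb.g g6 (@Lb.g g4 (@Lb.d (nat_lit 1) (nat_lit 0) (nat_lit 64) (@Lb.t (@Lb.fp (nat_lit 9) t1436))))))))))
noncomputable def l31030 : Lb := (@Lb.d (nat_lit 280) (nat_lit 320) (nat_lit 6) (@Lb.r r2068 (@Lb.r r1129 (@Lb.r r104 (@Lb.r r386 (@Lb.g g11 (@Lb.g g6 (@Lb.g g5 (@Lb.g g4 (@Lb.d (nat_lit 6) (nat_lit 1) (nat_lit 129) (@Lb.fp (nat_lit 9) t51)))))))))))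
noncomputable def l31031 : Lb := (@Lb.d (nat_lit 274) (nat_lit 0) (nat_lit 0) (@Lb.g g8 (@Lb.r r1291 (@Lb.r r1098 (@Lb.r r1049 (@Lb.d (nat_lit 530) (nat_lit 136) (nat_lit 16) (@Lb.t (@Lb.fp (nat_lit 3) t1775))))))))
noncomputable def l31032 : Lb := (@Lb.r r82 (@Lb.d (nat_lit 274) (nat_lit 514) (nat_lit 128) (@Lb.g g8 (@Lb.g g9 (@Lb.g g11 (@Lb.r r2475 (@Lb.r r2154 (@Lb.r r2145 (@Lb.d (nat_lit 289) (nat_lit 0) (nat_lit 169) (@Lb.t (@Lb.fp (nat_lit 9) t350)))))))))))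
noncomputable def l31033 : Lb := (@Lb.r r1307 (@Lb.r r1114 (@Lb.r r20 (@Lb.r r1049 (@Lb.d (nat_lit 529) (nat_lit 64) (nat_lit 32) (@Lb.fp (nat_lit 1) t396))))))
noncomputable def l31034 : Lb := (@Lb.r r273 (@Lb.r r322 (@Lb.d (nat_lit 129) (nat_lit 544) (nat_lit 320) (@Lb.g g8 (@Lb.g g7 (@Lb.r r404 (@Lb.r r2454 (@Lb.r r1633 (@Lb.d (nat_lit 0) (nat_lit 6) (nat_lit 132) (@Lb.fp (nat_lit 3) t5580))))))))))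
noncomputable def l31035 : Lb := (@Lb.d (nat_lit 0) (nat_lit 2) (nat_lit 0) (@Lb.g g9 (@Lb.g g10 (@Lb.r r97 (@Lb.d (nat_lit 292) (nat_lit 10) (nat_lit 34) (@Lb.fp (nat_lit 3) t743))))))
noncomputable def l31036 : Lb := (@Lb.d (nat_lit 512) (nat_lit 166) (nat_lit 70) (@Lb.r r24 (@Lb.r r322 (@Lb.r r1691 (@Lb.g g7 (@Lb.g g6 (@Lb.g g9 (@Lb.d (nat_lit 0) (nat_lit 10) (nat_lit 64) (@Lb.t (@Lb.fm (nat_lit 9) t1109))))))))))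
noncomputable def l31037 : Lb := (@Lb.d (nat_lit 42) (nat_lit 582) (nat_lit 32) (@Lb.r r533 (@Lb.r r1619 (@Lb.r r1414 (@Lb.r r1096 (@Lb.g g11 (@Lb.t (@Lb.fm (nat_lit 3) t2238))))))))
noncomputable def l31038 : Lb := (@Lb.d (nat_lit 1) (nat_lit 256) (nat_lit 170) (@Lb.r r1635 (@Lb.r r601 (@Lb.r r2132 (@Lb.r r1162 (@Lb.g g4 (@Lb.d (nat_lit 1) (nat_lit 0) (nat_lit 0) (@Lb.t (@Lb.fm (nat_lit 3) t2842)))))))))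
noncomputable def l31039 : Lb := (@Lb.d (nat_lit 128) (nat_lit 2) (nat_lit 73) (@Lb.g g8 (@Lb.g g9 (@Lb.g g10 (@Lb.g g11 (@Lb.r r1675 (@Lb.r r613 (@Lb.r r666 (@Lb.r r1176 (@Lb.d (nat_lit 681) (nat_lit 65) (nat_lit 362) (@Lb.fp (nat_lit 9) t3462)))))))))))
noncomputable def l31040 : Lb := (@Lb.r r263 (@Lb.d (nat_lit 641) (nat_lit 290) (nat_lit 2) (@Lb.g g4 (@Lb.g g9 (@Lb.g g10 (@Lb.r r2470 (@Lb.r r595 (@Lb.r r1441 (@Lb.d (nat_lit 389) (nat_lit 100) (nat_lit 602) (@Lb.t (@Lb.fm (nat_lit 9) t2991)))))))))))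
noncomputable def l31041 : Lb := (@Lb.d (nat_lit 516) (nat_lit 582) (nat_lit 610) (@Lb.r r2068 (@Lb.r r281 (@Lb.r r615 (@Lb.g g6 (@Lb.g g4 (@Lb.d (nat_lit 69) (nat_lit 0) (nat_lit 33) (@Lb.r r387 (@Lb.fp (nat_lit 3) t3040)))))))))
noncomputable def l31042 : Lb := (@Lb.r r580 (@Lb.r r593 (@Lb.d (nat_lit 0) (nat_lit 296) (nat_lit 66) (@Lb.g g6 (@Lb.g g11 (@Lb.r r1425 (@Lb.r r2343 (@Lb.r r2632 (@Lb.d (nat_lit 258) (nat_lit 74) (nat_lit 32) (@Lb.fm (nat_lit 3) t125))))))))))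
noncomputable def l31043 : Lb := (@Lb.d (nat_lit 168) (nat_lit 640) (nat_lit 8) (@Lb.g g5 (@Lb.g g10 (@Lb.g g11 (@Lb.r r280 (@Lb.r r599 (@Lb.r r322 (@Lb.d (nat_lit 17) (nat_lit 65) (nat_lit 516) (@Lb.t (@Lb.fp (nat_lit 9) t1818))))))))))
noncomputable def l31044 : Lb := (@Lb.r r326 (@Lb.d (nat_lit 36) (nat_lit 544) (nat_lit 128) (@Lb.g g8 (@Lb.g g9 (@Lb.g g11 (@Lb.r r598 (@Lb.r r153 (@Lb.r r676 (@Lb.d (nat_lit 96) (nat_lit 4) (nat_lit 70) (@Lb.t (@Lb.fm (nat_lit 9) t5315)))))))))))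
noncomputable def l31045 : Lb := (@Lb.d (nat_lit 2) (nat_lit 517) (nat_lit 64) (@Lb.g g8 (@Lb.g g9 (@Lb.g g11 (@Lb.r r2450 (@Lb.r r2387 (@Lb.r r2705 (@Lb.r r24 (@Lb.d (nat_lit 10) (nat_lit 8) (nat_lit 662) (@Lb.t (@Lb.fm (nat_lit 9) t303)))))))))))
noncomputable def l31046 : Lb := (@Lb.d (nat_lit 1) (nat_lit 664) (nat_lit 534) (@Lb.r r1361 (@Lb.r r2471 (@Lb.r r612 (@Lb.r r346 (@Lb.g g7 (@Lb.g g6 (@Lb.g g5 (@Lb.d (nat_lit 4) (nat_lit 1) (nat_lit 65) (@Lb.t (@Lb.fp (nat_lit 9) t3967)))))))))))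
noncomputable def l31047 : Lb := (@Lb.d (nat_lit 2) (nat_lit 512) (nat_lit 98) (@Lb.g g8 (@Lb.g g6 (@Lb.g g11 (@Lb.r r2659 (@Lb.r r1633 (@Lb.r r24 (@Lb.d (nat_lit 10) (nat_lit 88) (nat_lit 280) (@Lb.t (@Lb.fm (nat_lit 9) t2131))))))))))
noncomputable def l31048 : Lb := (@Lb.d (nat_lit 2) (nat_lit 0) (nat_lit 98) (@Lb.g g8 (@Lb.g g6 (@Lb.g g11 (@Lb.r r2659 (@Lb.r r1633 (@Lb.r r24 (@Lb.d (nat_lit 10) (nat_lit 86) (nat_lit 282) (@Lb.t (@Lb.fm (nat_lit 9) t2131))))))))))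
noncomputable def l31049 : Lb := (@Lb.d (nat_lit 128) (nat_lit 0) (nat_lit 64) (@Lb.g g11 (@Lb.r r264 (@Lb.r r519 (@Lb.r r81 (@Lb.r r162 (@Lb.r r145 (@Lb.d (nat_lit 422) (nat_lit 1) (nat_lit 162) (@Lb.t (@Lb.fm (nat_lit 3) t127))))))))))
noncomputable def l31050 : Lb := (@Lb.d (nat_lit 9) (nat_lit 513) (nat_lit 130) (@Lb.g g8 (@Lb.g g9 (@Lb.g g10 (@Lb.g g11 (@Lb.r r427 (@Lb.r r1442 (@Lb.r r297 (@Lb.r r2120 (@Lb.d (nat_lit 646) (nat_lit 165) (nat_lit 648) (@Lb.fm (nat_lit 9) t5581)))))))))))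
noncomputable def l31051 : Lb := (@Lb.d (nat_lit 0) (nat_lit 36) (nat_lit 2) (@Lb.g g9 (@Lb.g g10 (@Lb.r r1363 (@Lb.r r1634 (@Lb.r r593 (@Lb.r r24 (@Lb.d (nat_lit 10) (nat_lit 5) (nat_lit 650) (@Lb.fp (nat_lit 3) t148)))))))))
noncomputable def l31052 : Lb := (@Lb.d (nat_lit 166) (nat_lit 536) (nat_lit 89) (@Lb.r r357 (@Lb.r r2459 (@Lb.r r410 (@Lb.g g7 (@Lb.g g5 (@Lb.g g8 (@Lb.d (nat_lit 9) (nat_lit 21) (nat_lit 64) (@Lb.t (@Lb.fm (nat_lit 9) t148))))))))))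
noncomputable def l31053 : Lb := (@Lb.d (nat_lit 0) (nat_lit 292) (nat_lit 2) (@Lb.g g9 (@Lb.g g10 (@Lb.r r343 (@Lb.r r2666 (@Lb.r r1625 (@Lb.d (nat_lit 617) (nat_lit 69) (nat_lit 282) (@Lb.fm (nat_lit 3) t1369))))))))
noncomputable def l31054 : Lb := (@Lb.d (nat_lit 0) (nat_lit 548) (nat_lit 2) (@Lb.g g9 (@Lb.g g10 (@Lb.r r1363 (@Lb.r r1634 (@Lb.r r593 (@Lb.r r24 (@Lb.d (nat_lit 0) (nat_lit 6) (nat_lit 650) (@Lb.fp (nat_lit 3) t148)))))))))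
noncomputable def l31055 : Lb := (@Lb.d (nat_lit 1) (nat_lit 2) (nat_lit 73) (@Lb.g g4 (@Lb.g g9 (@Lb.g g10 (@Lb.g g11 (@Lb.r r2691 (@Lb.r r145 (@Lb.r r1626 (@Lb.r r1169 (@Lb.d (nat_lit 545) (nat_lit 160) (nat_lit 618) (@Lb.fp (nat_lit 9) t521)))))))))))
noncomputable def l31056 : Lb := (@Lb.d (nat_lit 34) (nat_lit 262) (nat_lit 128) (@Lb.g g8 (@Lb.g g9 (@Lb.g g10 (@Lb.g g11 (@Lb.r r1291 (@Lb.r r25 (@Lb.r r2116 (@Lb.r r2458 (@Lb.d (nat_lit 512) (nat_lit 85) (nat_lit 612) (@Lb.fm (nat_lit 9) t3204)))))))))))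
noncomputable def l31057 : Lb := (@Lb.d (nat_lit 9) (nat_lit 262) (nat_lit 128) (@Lb.g g8 (@Lb.g g9 (@Lb.g g10 (@Lb.g g11 (@Lb.r r427 (@Lb.r r1442 (@Lb.r r297 (@Lb.r r2120 (@Lb.d (nat_lit 646) (nat_lit 165) (nat_lit 648) (@Lb.fm (nat_lit 9) t5582)))))))))))
noncomputable def l31058 : Lb := (@Lb.d (nat_lit 25) (nat_lit 329) (nat_lit 170) (@Lb.r r105 (@Lb.r r1316 (@Lb.r r1414 (@Lb.r r2587 (@Lb.g g5 (@Lb.d (nat_lit 0) (nat_lit 17) (nat_lit 0) (@Lb.t (@Lb.fp (nat_lit 3) t3885)))))))))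
noncomputable def l31059 : Lb := (@Lb.d (nat_lit 25) (nat_lit 36) (nat_lit 513) (@Lb.r r105 (@Lb.r r1316 (@Lb.r r1414 (@Lb.r r2587 (@Lb.g g5 (@Lb.d (nat_lit 4) (nat_lit 18) (nat_lit 0) (@Lb.t (@Lb.fp (nat_lit 3) t154)))))))))
noncomputable def l31060 : Lb := (@Lb.d (nat_lit 0) (nat_lit 32) (nat_lit 64) (@Lb.g g11 (@Lb.r r293 (@Lb.r r347 (@Lb.r r614 (@Lb.d (nat_lit 0) (nat_lit 128) (nat_lit 70) (@Lb.t (@Lb.fm (nat_lit 3) t1231))))))))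
noncomputable def l31061 : Lb := (@Lb.d (nat_lit 25) (nat_lit 66) (nat_lit 168) (@Lb.r r105 (@Lb.r r1316 (@Lb.r r1414 (@Lb.r r2587 (@Lb.g g5 (@Lb.d (nat_lit 0) (nat_lit 17) (nat_lit 0) (@Lb.t (@Lb.fp (nat_lit 3) t154)))))))))
noncomputable def l31062 : Lb := (@Lb.d (nat_lit 0) (nat_lit 36) (nat_lit 534) (@Lb.r r85 (@Lb.r r2600 (@Lb.r r1414 (@Lb.r r2347 (@Lb.r r401 (@Lb.g g4 (@Lb.t (@Lb.fm (nat_lit 3) t127)))))))))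
noncomputable def l31063 : Lb := (@Lb.r r82 (@Lb.d (nat_lit 129) (nat_lit 545) (nat_lit 64) (@Lb.g g8 (@Lb.g g9 (@Lb.g g11 (@Lb.r r2667 (@Lb.r r2438 (@Lb.r r145 (@Lb.r r1624 (@Lb.d (nat_lit 104) (nat_lit 98) (nat_lit 665) (@Lb.t (@Lb.fp (nat_lit 9) t4255))))))))))))
noncomputable def l31064 : Lb := (@Lb.d (nat_lit 36) (nat_lit 576) (nat_lit 33) (@Lb.r r24 (@Lb.r r2150 (@Lb.r r101 (@Lb.g g6 (@Lb.d (nat_lit 0) (nat_lit 4) (nat_lit 1) (@Lb.t (@Lb.fm (nat_lit 3) t980))))))))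
noncomputable def l31065 : Lb := (@Lb.g g8 (@Lb.g g5 (@Lb.g g7 (@Lb.r r149 (@Lb.r r402 (@Lb.r r2436 (@Lb.d (nat_lit 96) (nat_lit 0) (nat_lit 66) (@Lb.t (@Lb.fp (nat_lit 9) t311)))))))))
noncomputable def l31066 : Lb := (@Lb.d (nat_lit 2) (nat_lit 2) (nat_lit 130) (@Lb.g g8 (@Lb.g g9 (@Lb.g g10 (@Lb.g g11 (@Lb.r r683 (@Lb.r r680 (@Lb.r r170 (@Lb.r r145 (@Lb.r r36 (@Lb.d (nat_lit 10) (nat_lit 8) (nat_lit 137) (@Lb.fm (nat_lit 9) t51))))))))))))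
noncomputable def l31067 : Lb := (@Lb.r r21 (@Lb.r r70 (@Lb.r r263 (@Lb.d (nat_lit 410) (nat_lit 256) (nat_lit 0) (@Lb.g g4 (@Lb.r r267 (@Lb.r r402 (@Lb.r r97 (@Lb.d (nat_lit 8) (nat_lit 132) (nat_lit 545) (@Lb.t (@Lb.fm (nat_lit 3) t128)))))))))))
noncomputable def l31068 : Lb := (@Lb.d (nat_lit 132) (nat_lit 261) (nat_lit 74) (@Lb.g g8 (@Lb.g g9 (@Lb.g g10 (@Lb.g g11 (@Lb.r r683 (@Lb.r r2724 (@Lb.r r1158 (@Lb.r r97 (@Lb.d (nat_lit 33) (nat_lit 105) (nat_lit 673) (@Lb.fm (nat_lit 9) t1144)))))))))))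
noncomputable def l31069 : Lb := (@Lb.d (nat_lit 144) (nat_lit 0) (nat_lit 386) (@Lb.g g8 (@Lb.g g10 (@Lb.g g11 (@Lb.r r1109 (@Lb.r r1634 (@Lb.r r388 (@Lb.d (nat_lit 357) (nat_lit 90) (nat_lit 394) (@Lb.t (@Lb.fm (nat_lit 9) t5583))))))))))
noncomputable def l31070 : Lb := (@Lb.d (nat_lit 146) (nat_lit 514) (nat_lit 74) (@Lb.g g8 (@Lb.g g9 (@Lb.g g10 (@Lb.g g11 (@Lb.r r683 (@Lb.r r2724 (@Lb.r r1190 (@Lb.r r145 (@Lb.d (nat_lit 9) (nat_lit 132) (nat_lit 664) (@Lb.fp (nat_lit 9) t472)))))))))))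
noncomputable def l31071 : Lb := (@Lb.r r21 (@Lb.r r70 (@Lb.d (nat_lit 137) (nat_lit 512) (nat_lit 256) (@Lb.g g8 (@Lb.g g7 (@Lb.r r402 (@Lb.r r2581 (@Lb.r r360 (@Lb.d (nat_lit 388) (nat_lit 42) (nat_lit 404) (@Lb.fp (nat_lit 3) t5584))))))))))
noncomputable def l31072 : Lb := (@Lb.r r21 (@Lb.r r70 (@Lb.d (nat_lit 137) (nat_lit 512) (nat_lit 256) (@Lb.g g8 (@Lb.g g7 (@Lb.r r402 (@Lb.r r2581 (@Lb.r r360 (@Lb.d (nat_lit 393) (nat_lit 38) (nat_lit 406) (@Lb.fp (nat_lit 3) t1674))))))))))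
noncomputable def l31073 : Lb := (@Lb.d (nat_lit 146) (nat_lit 256) (nat_lit 10) (@Lb.g g8 (@Lb.g g9 (@Lb.g g10 (@Lb.g g11 (@Lb.r r2475 (@Lb.r r145 (@Lb.r r356 (@Lb.r r1178 (@Lb.r r132 (@Lb.d (nat_lit 258) (nat_lit 5) (nat_lit 408) (@Lb.fm (nat_lit 9) t2185))))))))))))
noncomputable def l31074 : Lb := (@Lb.r r323 (@Lb.d (nat_lit 2) (nat_lit 34) (nat_lit 2) (@Lb.g g8 (@Lb.g g9 (@Lb.g g10 (@Lb.r r599 (@Lb.r r420 (@Lb.r r102 (@Lb.d (nat_lit 329) (nat_lit 2) (nat_lit 649) (@Lb.t (@Lb.fp (nat_lit 9) t1306)))))))))))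
noncomputable def l31075 : Lb := (@Lb.r r323 (@Lb.d (nat_lit 0) (nat_lit 546) (nat_lit 2) (@Lb.g g9 (@Lb.g g10 (@Lb.r r599 (@Lb.r r420 (@Lb.r r102 (@Lb.d (nat_lit 537) (nat_lit 2) (nat_lit 34) (@Lb.fp (nat_lit 3) t1231)))))))))
noncomputable def l31076 : Lb := (@Lb.d (nat_lit 38) (nat_lit 266) (nat_lit 72) (@Lb.g g8 (@Lb.g g9 (@Lb.g g10 (@Lb.g g11 (@Lb.r r1451 (@Lb.r r164 (@Lb.r r1638 (@Lb.r r2337 (@Lb.d (nat_lit 277) (nat_lit 105) (nat_lit 281) (@Lb.fm (nat_lit 9) t644)))))))))))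
noncomputable def l31077 : Lb := (@Lb.r r323 (@Lb.d (nat_lit 0) (nat_lit 34) (nat_lit 2) (@Lb.g g8 (@Lb.g g9 (@Lb.g g10 (@Lb.r r599 (@Lb.r r420 (@Lb.r r102 (@Lb.d (nat_lit 537) (nat_lit 2) (nat_lit 34) (@Lb.t (@Lb.fp (nat_lit 9) t1231)))))))))))
noncomputable def l31078 : Lb := (@Lb.d (nat_lit 0) (nat_lit 521) (nat_lit 73) (@Lb.g g4 (@Lb.g g9 (@Lb.g g10 (@Lb.g g11 (@Lb.r r1634 (@Lb.r r97 (@Lb.d (nat_lit 1) (nat_lit 100) (nat_lit 678) (@Lb.fp (nat_lit 9) t225)))))))))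
noncomputable def l31079 : Lb := (@Lb.d (nat_lit 0) (nat_lit 265) (nat_lit 73) (@Lb.g g9 (@Lb.g g10 (@Lb.g g11 (@Lb.r r361 (@Lb.r r2642 (@Lb.r r2193 (@Lb.d (nat_lit 289) (nat_lit 170) (nat_lit 662) (@Lb.t (@Lb.fp (nat_lit 9) t225))))))))))
noncomputable def l31080 : Lb := (@Lb.d (nat_lit 0) (nat_lit 512) (nat_lit 66) (@Lb.g g10 (@Lb.g g11 (@Lb.r r2691 (@Lb.r r578 (@Lb.d (nat_lit 0) (nat_lit 0) (nat_lit 402) (@Lb.fp (nat_lit 3) t2)))))))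
noncomputable def l31081 : Lb := (@Lb.r r322 (@Lb.d (nat_lit 10) (nat_lit 32) (nat_lit 64) (@Lb.g g8 (@Lb.g g7 (@Lb.r r1617 (@Lb.r r2150 (@Lb.r r1156 (@Lb.d (nat_lit 673) (nat_lit 0) (nat_lit 546) (@Lb.fp (nat_lit 3) t284)))))))))
noncomputable def l31082 : Lb := (@Lb.d (nat_lit 0) (nat_lit 1) (nat_lit 138) (@Lb.g g9 (@Lb.g g10 (@Lb.g g7 (@Lb.r r418 (@Lb.r r153 (@Lb.r r24 (@Lb.d (nat_lit 273) (nat_lit 0) (nat_lit 513) (@Lb.t (@Lb.fp (nat_lit 9) t145))))))))))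
noncomputable def l31083 : Lb := (@Lb.d (nat_lit 0) (nat_lit 1) (nat_lit 2) (@Lb.g g9 (@Lb.g g10 (@Lb.r r162 (@Lb.r r153 (@Lb.r r24 (@Lb.d (nat_lit 337) (nat_lit 0) (nat_lit 513) (@Lb.fm (nat_lit 3) t145))))))))
noncomputable def l31084 : Lb := (@Lb.d (nat_lit 0) (nat_lit 512) (nat_lit 138) (@Lb.g g10 (@Lb.t (@Lb.fp (nat_lit 3) t2))))
noncomputable def l31085 : Lb := (@Lb.d (nat_lit 10) (nat_lit 514) (nat_lit 73) (@Lb.g g8 (@Lb.g g9 (@Lb.g g10 (@Lb.g g11 (@Lb.r r675 (@Lb.r r1681 (@Lb.r r1178 (@Lb.r r1156 (@Lb.d (nat_lit 298) (nat_lit 65) (nat_lit 34) (@Lb.fp (nat_lit 9) t284)))))))))))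
noncomputable def l31086 : Lb := (@Lb.d (nat_lit 6) (nat_lit 545) (nat_lit 133) (@Lb.r r68 (@Lb.r r154 (@Lb.r r660 (@Lb.r r81 (@Lb.g g7 (@Lb.g g6 (@Lb.g g5 (@Lb.g g4 (@Lb.d (nat_lit 2) (nat_lit 1) (nat_lit 129) (@Lb.fm (nat_lit 9) t98)))))))))))
noncomputable def l31087 : Lb := (@Lb.r r263 (@Lb.d (nat_lit 9) (nat_lit 1) (nat_lit 2) (@Lb.g g8 (@Lb.g g9 (@Lb.g g10 (@Lb.r r2631 (@Lb.r r2198 (@Lb.r r1193 (@Lb.r r1172 (@Lb.d (nat_lit 530) (nat_lit 166) (nat_lit 293) (@Lb.t (@Lb.fp (nat_lit 9) t898))))))))))))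
noncomputable def l31088 : Lb := (@Lb.d (nat_lit 69) (nat_lit 546) (nat_lit 578) (@Lb.g g8 (@Lb.g g9 (@Lb.g g10 (@Lb.g g7 (@Lb.r r386 (@Lb.r r2389 (@Lb.r r1300 (@Lb.d (nat_lit 81) (nat_lit 105) (nat_lit 645) (@Lb.fp (nat_lit 9) t5525))))))))))
noncomputable def l31089 : Lb := (@Lb.d (nat_lit 136) (nat_lit 640) (nat_lit 66) (@Lb.g g8 (@Lb.g g5 (@Lb.g g10 (@Lb.g g11 (@Lb.r r1691 (@Lb.r r1626 (@Lb.r r1604 (@Lb.d (nat_lit 664) (nat_lit 0) (nat_lit 664) (@Lb.fp (nat_lit 9) t5585))))))))))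
noncomputable def l31090 : Lb := (@Lb.r r82 (@Lb.d (nat_lit 136) (nat_lit 644) (nat_lit 64) (@Lb.g g8 (@Lb.g g5 (@Lb.g g11 (@Lb.r r1691 (@Lb.r r1626 (@Lb.r r1604 (@Lb.d (nat_lit 658) (nat_lit 1) (nat_lit 664) (@Lb.t (@Lb.fm (nat_lit 9) t5586)))))))))))
noncomputable def l31091 : Lb := (@Lb.d (nat_lit 392) (nat_lit 130) (nat_lit 384) (@Lb.r r1362 (@Lb.r r551 (@Lb.r r1557 (@Lb.r r36 (@Lb.g g11 (@Lb.t (@Lb.fm (nat_lit 3) t5587))))))))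
noncomputable def l31092 : Lb := (@Lb.d (nat_lit 5) (nat_lit 256) (nat_lit 128) (@Lb.g g8 (@Lb.g g11 (@Lb.r r293 (@Lb.r r279 (@Lb.r r362 (@Lb.r r548 (@Lb.d (nat_lit 9) (nat_lit 129) (nat_lit 389) (@Lb.fp (nat_lit 3) t1008)))))))))
noncomputable def l31093 : Lb := (@Lb.r r82 (@Lb.d (nat_lit 8) (nat_lit 386) (nat_lit 0) (@Lb.g g5 (@Lb.r r98 (@Lb.d (nat_lit 2) (nat_lit 64) (nat_lit 0) (@Lb.t (@Lb.fm (nat_lit 3) t99)))))))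
noncomputable def l31094 : Lb := (@Lb.d (nat_lit 136) (nat_lit 138) (nat_lit 65) (@Lb.g g8 (@Lb.g g5 (@Lb.g g10 (@Lb.g g11 (@Lb.r r1691 (@Lb.r r1626 (@Lb.r r1604 (@Lb.d (nat_lit 664) (nat_lit 0) (nat_lit 664) (@Lb.fp (nat_lit 9) t5588))))))))))
noncomputable def l31095 : Lb := (@Lb.d (nat_lit 6) (nat_lit 544) (nat_lit 130) (@Lb.g g8 (@Lb.g g9 (@Lb.g g10 (@Lb.g g11 (@Lb.r r2395 (@Lb.r r2402 (@Lb.r r1177 (@Lb.r r2628 (@Lb.d (nat_lit 422) (nat_lit 149) (nat_lit 678) (@Lb.fp (nat_lit 9) t3428)))))))))))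
noncomputable def l31096 : Lb := (@Lb.d (nat_lit 101) (nat_lit 149) (nat_lit 69) (@Lb.r r408 (@Lb.r r330 (@Lb.r r2579 (@Lb.g g9 (@Lb.g g4 (@Lb.d (nat_lit 17) (nat_lit 65) (nat_lit 0) (@Lb.r r291 (@Lb.r r98 (@Lb.fp (nat_lit 3) t244))))))))))
noncomputable def l31097 : Lb := (@Lb.d (nat_lit 136) (nat_lit 512) (nat_lit 130) (@Lb.g g8 (@Lb.g g10 (@Lb.g g11 (@Lb.r r2467 (@Lb.r r2193 (@Lb.r r1626 (@Lb.r r1604 (@Lb.d (nat_lit 152) (nat_lit 33) (nat_lit 21) (@Lb.t (@Lb.fm (nat_lit 9) t1444)))))))))))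
noncomputable def l31098 : Lb := (@Lb.d (nat_lit 361) (nat_lit 25) (nat_lit 41) (@Lb.r r2436 (@Lb.r r2374 (@Lb.r r275 (@Lb.g g7 (@Lb.g g6 (@Lb.g g5 (@Lb.g g4 (@Lb.d (nat_lit 66) (nat_lit 134) (nat_lit 66) (@Lb.fp (nat_lit 9) t5589))))))))))
noncomputable def l31099 : Lb := (@Lb.d (nat_lit 356) (nat_lit 80) (nat_lit 153) (@Lb.r r1365 (@Lb.r r1700 (@Lb.r r358 (@Lb.g g11 (@Lb.g g5 (@Lb.d (nat_lit 4) (nat_lit 5) (nat_lit 384) (@Lb.r r578 (@Lb.fp (nat_lit 3) t1444)))))))))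
noncomputable def l31100 : Lb := (@Lb.d (nat_lit 0) (nat_lit 512) (nat_lit 130) (@Lb.g g10 (@Lb.g g11 (@Lb.r r586 (@Lb.r r584 (@Lb.r r299 (@Lb.r r289 (@Lb.d (nat_lit 9) (nat_lit 137) (nat_lit 2) (@Lb.fm (nat_lit 3) t51)))))))))
noncomputable def l31101 : Lb := (@Lb.r r275 (@Lb.d (nat_lit 648) (nat_lit 513) (nat_lit 2) (@Lb.g g4 (@Lb.g g9 (@Lb.g g10 (@Lb.r r2651 (@Lb.r r98 (@Lb.r r101 (@Lb.d (nat_lit 281) (nat_lit 85) (nat_lit 24) (@Lb.t (@Lb.fp (nat_lit 9) t3053)))))))))))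
noncomputable def l31102 : Lb := (@Lb.d (nat_lit 9) (nat_lit 9) (nat_lit 6) (@Lb.g g8 (@Lb.g g9 (@Lb.g g10 (@Lb.g g11 (@Lb.r r1158 (@Lb.r r2664 (@Lb.r r2585 (@Lb.r r1555 (@Lb.d (nat_lit 666) (nat_lit 8) (nat_lit 608) (@Lb.fm (nat_lit 9) t1348)))))))))))
noncomputable def l31103 : Lb := (@Lb.d (nat_lit 129) (nat_lit 257) (nat_lit 130) (@Lb.g g8 (@Lb.g g9 (@Lb.g g10 (@Lb.g g11 (@Lb.r r610 (@Lb.r r552 (@Lb.r r1641 (@Lb.r r619 (@Lb.r r1060 (@Lb.d (nat_lit 358) (nat_lit 24) (nat_lit 409) (@Lb.fm (nat_lit 9) t5578))))))))))))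
noncomputable def l31104 : Lb := (@Lb.d (nat_lit 100) (nat_lit 292) (nat_lit 389) (@Lb.r r408 (@Lb.r r1178 (@Lb.r r1683 (@Lb.g g6 (@Lb.g g9 (@Lb.g g4 (@Lb.d (nat_lit 65) (nat_lit 41) (nat_lit 0) (@Lb.r r387 (@Lb.t (@Lb.fp (nat_lit 9) t5)))))))))))
noncomputable def l31105 : Lb := (@Lb.d (nat_lit 0) (nat_lit 512) (nat_lit 136) (@Lb.g g4 (@Lb.g g7 (@Lb.r r1690 (@Lb.r r667 (@Lb.r r101 (@Lb.d (nat_lit 24) (nat_lit 168) (nat_lit 96) (@Lb.fp (nat_lit 3) t1076))))))))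
noncomputable def l31106 : Lb := (@Lb.r r323 (@Lb.d (nat_lit 672) (nat_lit 297) (nat_lit 1) (@Lb.g g4 (@Lb.g g9 (@Lb.g g10 (@Lb.r r1307 (@Lb.r r2714 (@Lb.r r2577 (@Lb.d (nat_lit 153) (nat_lit 89) (nat_lit 88) (@Lb.t (@Lb.fm (nat_lit 9) t5590)))))))))))
noncomputable def l31107 : Lb := (@Lb.d (nat_lit 32) (nat_lit 512) (nat_lit 2) (@Lb.r r24 (@Lb.r r85 (@Lb.r r98 (@Lb.g g7 (@Lb.g g6 (@Lb.g g5 (@Lb.d (nat_lit 0) (nat_lit 2) (nat_lit 70) (@Lb.t (@Lb.fm (nat_lit 9) t70))))))))))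
noncomputable def l31108 : Lb := (@Lb.r r21 (@Lb.r r70 (@Lb.d (nat_lit 33) (nat_lit 256) (nat_lit 64) (@Lb.g g4 (@Lb.g g11 (@Lb.r r2567 (@Lb.r r74 (@Lb.r r25 (@Lb.d (nat_lit 394) (nat_lit 128) (nat_lit 405) (@Lb.fm (nat_lit 3) t5591))))))))))
noncomputable def l31109 : Lb := (@Lb.r r331 (@Lb.d (nat_lit 33) (nat_lit 514) (nat_lit 2) (@Lb.g g8 (@Lb.g g9 (@Lb.g g10 (@Lb.r r553 (@Lb.r r619 (@Lb.r r548 (@Lb.d (nat_lit 169) (nat_lit 20) (nat_lit 129) (@Lb.t (@Lb.fm (nat_lit 9) t594)))))))))))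
noncomputable def l31110 : Lb := (@Lb.g g5 (@Lb.g g7 (@Lb.r r24 (@Lb.r r101 (@Lb.r r402 (@Lb.d (nat_lit 0) (nat_lit 256) (nat_lit 66) (@Lb.fp (nat_lit 3) t311)))))))
noncomputable def l31111 : Lb := (@Lb.r r70 (@Lb.d (nat_lit 168) (nat_lit 384) (nat_lit 64) (@Lb.g g8 (@Lb.g g5 (@Lb.g g11 (@Lb.r r1627 (@Lb.r r2470 (@Lb.r r2644 (@Lb.d (nat_lit 664) (nat_lit 36) (nat_lit 424) (@Lb.t (@Lb.fp (nat_lit 9) t3276)))))))))))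
noncomputable def l31112 : Lb := (@Lb.g g5 (@Lb.r r1126 (@Lb.r r24 (@Lb.d (nat_lit 24) (nat_lit 0) (nat_lit 32) (@Lb.t (@Lb.fp (nat_lit 3) t3071))))))
noncomputable def l31113 : Lb := (@Lb.r r89 (@Lb.r r1126 (@Lb.r r24 (@Lb.d (nat_lit 24) (nat_lit 384) (nat_lit 0) (@Lb.fm (nat_lit 1) t5592)))))
noncomputable def l31114 : Lb := (@Lb.d (nat_lit 9) (nat_lit 33) (nat_lit 66) (@Lb.g g8 (@Lb.g g9 (@Lb.g g10 (@Lb.g g11 (@Lb.r r1571 (@Lb.r r386 (@Lb.r r612 (@Lb.r r533 (@Lb.r r36 (@Lb.d (nat_lit 384) (nat_lit 10) (nat_lit 89) (@Lb.fp (nat_lit 9) t1244))))))))))))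
noncomputable def l31115 : Lb := (@Lb.r r275 (@Lb.d (nat_lit 9) (nat_lit 261) (nat_lit 0) (@Lb.g g8 (@Lb.g g5 (@Lb.g g10 (@Lb.r r1178 (@Lb.r r1668 (@Lb.r r1543 (@Lb.d (nat_lit 10) (nat_lit 0) (nat_lit 586) (@Lb.t (@Lb.fp (nat_lit 9) t68)))))))))))
noncomputable def l31116 : Lb := (@Lb.r r82 (@Lb.d (nat_lit 9) (nat_lit 33) (nat_lit 64) (@Lb.g g8 (@Lb.g g9 (@Lb.g g11 (@Lb.r r1707 (@Lb.r r1668 (@Lb.r r1158 (@Lb.r r2465 (@Lb.d (nat_lit 164) (nat_lit 0) (nat_lit 394) (@Lb.t (@Lb.fp (nat_lit 9) t5593))))))))))))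
noncomputable def l31117 : Lb := (@Lb.r r322 (@Lb.d (nat_lit 8) (nat_lit 10) (nat_lit 576) (@Lb.g g9 (@Lb.g g7 (@Lb.r r602 (@Lb.r r2388 (@Lb.r r1577 (@Lb.d (nat_lit 426) (nat_lit 154) (nat_lit 353) (@Lb.fm (nat_lit 3) t2154)))))))))
noncomputable def l31118 : Lb := (@Lb.d (nat_lit 0) (nat_lit 2) (nat_lit 0) (@Lb.g g9 (@Lb.r r2660 (@Lb.r r2378 (@Lb.r r2439 (@Lb.r r97 (@Lb.d (nat_lit 10) (nat_lit 72) (nat_lit 594) (@Lb.t (@Lb.fm (nat_lit 3) t5594)))))))))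
noncomputable def l31119 : Lb := (@Lb.d (nat_lit 0) (nat_lit 294) (nat_lit 65) (@Lb.g g9 (@Lb.g g6 (@Lb.g g11 (@Lb.r r2667 (@Lb.r r2084 (@Lb.r r1061 (@Lb.d (nat_lit 406) (nat_lit 0) (nat_lit 682) (@Lb.t (@Lb.fp (nat_lit 9) t4126))))))))))
noncomputable def l31120 : Lb := (@Lb.d (nat_lit 128) (nat_lit 292) (nat_lit 129) (@Lb.g g6 (@Lb.g g11 (@Lb.r r292 (@Lb.r r2341 (@Lb.r r1307 (@Lb.d (nat_lit 8) (nat_lit 82) (nat_lit 0) (@Lb.fm (nat_lit 3) t5595))))))))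
noncomputable def l31121 : Lb := (@Lb.d (nat_lit 128) (nat_lit 266) (nat_lit 128) (@Lb.g g9 (@Lb.g g11 (@Lb.r r2198 (@Lb.r r260 (@Lb.r r2411 (@Lb.r r1305 (@Lb.d (nat_lit 528) (nat_lit 150) (nat_lit 2) (@Lb.fp (nat_lit 3) t1261)))))))))
noncomputable def l31122 : Lb := (@Lb.d (nat_lit 389) (nat_lit 390) (nat_lit 84) (@Lb.r r1284 (@Lb.r r1317 (@Lb.r r1371 (@Lb.r r356 (@Lb.g g7 (@Lb.g g6 (@Lb.g g5 (@Lb.g g4 (@Lb.d (nat_lit 72) (nat_lit 0) (nat_lit 98) (@Lb.fm (nat_lit 9) t2685)))))))))))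
noncomputable def l31123 : Lb := (@Lb.d (nat_lit 386) (nat_lit 261) (nat_lit 289) (@Lb.r r154 (@Lb.r r660 (@Lb.r r407 (@Lb.r r609 (@Lb.g g11 (@Lb.g g6 (@Lb.fp (nat_lit 3) t5596))))))))
noncomputable def l31124 : Lb := (@Lb.d (nat_lit 518) (nat_lit 4) (nat_lit 581) (@Lb.r r150 (@Lb.r r72 (@Lb.r r293 (@Lb.r r2395 (@Lb.g g7 (@Lb.g g6 (@Lb.g g5 (@Lb.d (nat_lit 16) (nat_lit 1) (nat_lit 65) (@Lb.t (@Lb.fm (nat_lit 9) t3543)))))))))))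
noncomputable def l31125 : Lb := (@Lb.r r323 (@Lb.d (nat_lit 16) (nat_lit 256) (nat_lit 37) (@Lb.g g6 (@Lb.r r584 (@Lb.r r299 (@Lb.r r289 (@Lb.d (nat_lit 328) (nat_lit 0) (nat_lit 513) (@Lb.t (@Lb.fm (nat_lit 3) t1449)))))))))
noncomputable def l31126 : Lb := (@Lb.d (nat_lit 0) (nat_lit 520) (nat_lit 2) (@Lb.g g9 (@Lb.g g10 (@Lb.g g7 (@Lb.r r2438 (@Lb.r r105 (@Lb.d (nat_lit 85) (nat_lit 9) (nat_lit 537) (@Lb.t (@Lb.fp (nat_lit 9) t5597)))))))))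
noncomputable def l31127 : Lb := (@Lb.d (nat_lit 128) (nat_lit 258) (nat_lit 130) (@Lb.g g9 (@Lb.g g10 (@Lb.g g11 (@Lb.r r264 (@Lb.r r2583 (@Lb.r r106 (@Lb.r r97 (@Lb.d (nat_lit 266) (nat_lit 153) (nat_lit 18) (@Lb.t (@Lb.fp (nat_lit 9) t781)))))))))))
noncomputable def l31128 : Lb := (@Lb.d (nat_lit 2) (nat_lit 258) (nat_lit 66) (@Lb.g g8 (@Lb.g g9 (@Lb.g g10 (@Lb.g g7 (@Lb.r r386 (@Lb.r r97 (@Lb.r r1304 (@Lb.d (nat_lit 649) (nat_lit 89) (nat_lit 137) (@Lb.fp (nat_lit 9) t5598))))))))))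
noncomputable def l31129 : Lb := (@Lb.d (nat_lit 96) (nat_lit 2) (nat_lit 644) (@Lb.g g8 (@Lb.g g9 (@Lb.g g10 (@Lb.g g7 (@Lb.r r1410 (@Lb.r r97 (@Lb.r r2328 (@Lb.d (nat_lit 393) (nat_lit 153) (nat_lit 681) (@Lb.fp (nat_lit 9) t5599))))))))))
noncomputable def l31130 : Lb := (@Lb.d (nat_lit 128) (nat_lit 256) (nat_lit 258) (@Lb.g g10 (@Lb.g g7 (@Lb.r r386 (@Lb.d (nat_lit 66) (nat_lit 0) (nat_lit 521) (@Lb.fm (nat_lit 3) t4816))))))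
noncomputable def l31131 : Lb := (@Lb.r r277 (@Lb.r r326 (@Lb.d (nat_lit 394) (nat_lit 256) (nat_lit 128) (@Lb.g g8 (@Lb.g g11 (@Lb.r r101 (@Lb.r r2194 (@Lb.d (nat_lit 609) (nat_lit 0) (nat_lit 544) (@Lb.fm (nat_lit 3) t1846)))))))))
noncomputable def l31132 : Lb := (@Lb.d (nat_lit 9) (nat_lit 550) (nat_lit 66) (@Lb.g g8 (@Lb.g g9 (@Lb.g g10 (@Lb.g g11 (@Lb.r r2723 (@Lb.r r2216 (@Lb.r r2666 (@Lb.r r1553 (@Lb.d (nat_lit 86) (nat_lit 41) (nat_lit 360) (@Lb.fp (nat_lit 9) t5600)))))))))))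
noncomputable def l31133 : Lb := (@Lb.d (nat_lit 130) (nat_lit 2) (nat_lit 130) (@Lb.g g8 (@Lb.g g9 (@Lb.g g10 (@Lb.g g11 (@Lb.r r643 (@Lb.r r1194 (@Lb.r r2337 (@Lb.r r152 (@Lb.d (nat_lit 664) (nat_lit 98) (nat_lit 64) (@Lb.fp (nat_lit 9) t5601)))))))))))
noncomputable def l31134 : Lb := (@Lb.r r82 (@Lb.d (nat_lit 129) (nat_lit 2) (nat_lit 128) (@Lb.g g8 (@Lb.g g9 (@Lb.g g11 (@Lb.r r2593 (@Lb.r r1447 (@Lb.r r386 (@Lb.r r152 (@Lb.d (nat_lit 324) (nat_lit 137) (nat_lit 593) (@Lb.t (@Lb.fp (nat_lit 9) t5602))))))))))))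
noncomputable def l31135 : Lb := (@Lb.d (nat_lit 9) (nat_lit 256) (nat_lit 0) (@Lb.g g8 (@Lb.g g11 (@Lb.r r1575 (@Lb.r r101 (@Lb.d (nat_lit 2) (nat_lit 166) (nat_lit 596) (@Lb.fm (nat_lit 3) t5603)))))))
noncomputable def l31136 : Lb := (@Lb.d (nat_lit 4) (nat_lit 257) (nat_lit 0) (@Lb.g g5 (@Lb.g g7 (@Lb.r r24 (@Lb.d (nat_lit 320) (nat_lit 1) (nat_lit 512) (@Lb.fp (nat_lit 3) t716))))))
noncomputable def l31137 : Lb := (@Lb.d (nat_lit 162) (nat_lit 406) (nat_lit 330) (@Lb.r r2596 (@Lb.r r1689 (@Lb.r r386 (@Lb.g g11 (@Lb.g g6 (@Lb.g g5 (@Lb.g g4 (@Lb.d (nat_lit 138) (nat_lit 17) (nat_lit 385) (@Lb.fp (nat_lit 9) t4575))))))))))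
noncomputable def l31138 : Lb := (@Lb.d (nat_lit 646) (nat_lit 641) (nat_lit 356) (@Lb.r r1604 (@Lb.r r679 (@Lb.r r593 (@Lb.g g7 (@Lb.g g10 (@Lb.g g4 (@Lb.d (nat_lit 5) (nat_lit 16) (nat_lit 10) (@Lb.t (@Lb.fp (nat_lit 9) t1288))))))))))
noncomputable def l31139 : Lb := (@Lb.r r82 (@Lb.d (nat_lit 2) (nat_lit 290) (nat_lit 64) (@Lb.g g8 (@Lb.g g9 (@Lb.g g11 (@Lb.r r2713 (@Lb.r r658 (@Lb.r r2435 (@Lb.d (nat_lit 610) (nat_lit 5) (nat_lit 149) (@Lb.t (@Lb.fp (nat_lit 9) t536)))))))))))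
noncomputable def l31140 : Lb := (@Lb.d (nat_lit 162) (nat_lit 326) (nat_lit 294) (@Lb.r r36 (@Lb.r r2201 (@Lb.r r386 (@Lb.g g11 (@Lb.g g6 (@Lb.g g5 (@Lb.g g4 (@Lb.d (nat_lit 128) (nat_lit 18) (nat_lit 385) (@Lb.fp (nat_lit 9) t5604))))))))))
noncomputable def l31141 : Lb := (@Lb.g g7 (@Lb.r r1096 (@Lb.r r1414 (@Lb.r r1619 (@Lb.r r281 (@Lb.d (nat_lit 16) (nat_lit 136) (nat_lit 16) (@Lb.t (@Lb.fp (nat_lit 3) t5605))))))))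
noncomputable def l31142 : Lb := (@Lb.d (nat_lit 36) (nat_lit 2) (nat_lit 72) (@Lb.g g8 (@Lb.g g9 (@Lb.g g11 (@Lb.r r2370 (@Lb.r r1431 (@Lb.r r2585 (@Lb.r r1556 (@Lb.d (nat_lit 262) (nat_lit 105) (nat_lit 417) (@Lb.t (@Lb.fm (nat_lit 9) t322)))))))))))
noncomputable def l31143 : Lb := (@Lb.d (nat_lit 608) (nat_lit 86) (nat_lit 538) (@Lb.r r1384 (@Lb.r r297 (@Lb.r r418 (@Lb.g g11 (@Lb.g g5 (@Lb.g g4 (@Lb.d (nat_lit 17) (nat_lit 18) (nat_lit 392) (@Lb.r r578 (@Lb.t (@Lb.fp (nat_lit 9) t780)))))))))))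
noncomputable def l31144 : Lb := (@Lb.d (nat_lit 132) (nat_lit 256) (nat_lit 130) (@Lb.g g8 (@Lb.g g9 (@Lb.g g10 (@Lb.g g11 (@Lb.r r2666 (@Lb.r r612 (@Lb.r r1319 (@Lb.r r405 (@Lb.r r2084 (@Lb.d (nat_lit 10) (nat_lit 137) (nat_lit 409) (@Lb.fp (nat_lit 9) t2106))))))))))))
noncomputable def l31145 : Lb := (@Lb.d (nat_lit 2) (nat_lit 2) (nat_lit 2) (@Lb.g g8 (@Lb.g g9 (@Lb.g g10 (@Lb.r r2459 (@Lb.r r386 (@Lb.r r97 (@Lb.r r24 (@Lb.d (nat_lit 265) (nat_lit 104) (nat_lit 146) (@Lb.t (@Lb.fp (nat_lit 9) t5606)))))))))))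
noncomputable def l31146 : Lb := (@Lb.d (nat_lit 32) (nat_lit 521) (nat_lit 2) (@Lb.g g9 (@Lb.g g10 (@Lb.r r2324 (@Lb.r r363 (@Lb.r r1686 (@Lb.r r25 (@Lb.d (nat_lit 41) (nat_lit 98) (nat_lit 6) (@Lb.fp (nat_lit 3) t4820)))))))))
noncomputable def l31147 : Lb := (@Lb.d (nat_lit 65) (nat_lit 265) (nat_lit 645) (@Lb.r r24 (@Lb.r r386 (@Lb.r r2587 (@Lb.g g7 (@Lb.g g9 (@Lb.d (nat_lit 8) (nat_lit 10) (nat_lit 64) (@Lb.r r98 (@Lb.fm (nat_lit 3) t4463)))))))))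
noncomputable def l31148 : Lb := (@Lb.d (nat_lit 618) (nat_lit 608) (nat_lit 170) (@Lb.r r1125 (@Lb.r r386 (@Lb.r r2387 (@Lb.g g7 (@Lb.g g6 (@Lb.g g5 (@Lb.g g8 (@Lb.d (nat_lit 2) (nat_lit 1) (nat_lit 65) (@Lb.fm (nat_lit 9) t3716))))))))))
noncomputable def l31149 : Lb := (@Lb.d (nat_lit 389) (nat_lit 64) (nat_lit 294) (@Lb.r r24 (@Lb.r r386 (@Lb.r r2331 (@Lb.r r597 (@Lb.g g6 (@Lb.d (nat_lit 0) (nat_lit 0) (nat_lit 1) (@Lb.t (@Lb.fm (nat_lit 3) t5607)))))))))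
noncomputable def l31150 : Lb := (@Lb.r r330 (@Lb.d (nat_lit 134) (nat_lit 289) (nat_lit 516) (@Lb.g g8 (@Lb.g g9 (@Lb.g g7 (@Lb.r r418 (@Lb.r r1109 (@Lb.r r100 (@Lb.d (nat_lit 6) (nat_lit 154) (nat_lit 417) (@Lb.t (@Lb.fm (nat_lit 9) t5608)))))))))))
noncomputable def l31151 : Lb := (@Lb.d (nat_lit 360) (nat_lit 26) (nat_lit 4) (@Lb.r r597 (@Lb.r r296 (@Lb.r r1619 (@Lb.g g6 (@Lb.g g5 (@Lb.d (nat_lit 16) (nat_lit 6) (nat_lit 38) (@Lb.r r291 (@Lb.fm (nat_lit 3) t4721)))))))))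
noncomputable def l31152 : Lb := (@Lb.r r21 (@Lb.d (nat_lit 129) (nat_lit 256) (nat_lit 9) (@Lb.g g8 (@Lb.g g10 (@Lb.g g11 (@Lb.r r1691 (@Lb.r r2585 (@Lb.r r1640 (@Lb.r r1638 (@Lb.d (nat_lit 152) (nat_lit 73) (nat_lit 618) (@Lb.t (@Lb.fm (nat_lit 9) t5609))))))))))))
noncomputable def l31153 : Lb := (@Lb.r r21 (@Lb.r r70 (@Lb.d (nat_lit 656) (nat_lit 512) (nat_lit 256) (@Lb.g g4 (@Lb.g g7 (@Lb.r r2454 (@Lb.r r97 (@Lb.d (nat_lit 609) (nat_lit 130) (nat_lit 26) (@Lb.fm (nat_lit 3) t4411)))))))))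
noncomputable def l31154 : Lb := (@Lb.r r21 (@Lb.r r70 (@Lb.d (nat_lit 388) (nat_lit 0) (nat_lit 64) (@Lb.g g4 (@Lb.g g11 (@Lb.r r519 (@Lb.r r101 (@Lb.r r410 (@Lb.d (nat_lit 650) (nat_lit 133) (nat_lit 128) (@Lb.fm (nat_lit 3) t3666))))))))))
noncomputable def l31155 : Lb := (@Lb.d (nat_lit 400) (nat_lit 650) (nat_lit 656) (@Lb.r r402 (@Lb.g g11 (@Lb.t (@Lb.fm (nat_lit 3) t4055)))))
noncomputable def l31156 : Lb := (@Lb.r r338 (@Lb.d (nat_lit 4) (nat_lit 544) (nat_lit 128) (@Lb.g g8 (@Lb.g g9 (@Lb.g g11 (@Lb.r r1049 (@Lb.r r1112 (@Lb.r r2182 (@Lb.d (nat_lit 610) (nat_lit 10) (nat_lit 529) (@Lb.t (@Lb.fm (nat_lit 9) t1377)))))))))))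
noncomputable def l31157 : Lb := (@Lb.d (nat_lit 138) (nat_lit 256) (nat_lit 0) (@Lb.g g8 (@Lb.g g11 (@Lb.r r1317 (@Lb.r r1563 (@Lb.r r2178 (@Lb.r r2712 (@Lb.d (nat_lit 360) (nat_lit 10) (nat_lit 672) (@Lb.fm (nat_lit 3) t5610)))))))))
noncomputable def l31158 : Lb := (@Lb.d (nat_lit 401) (nat_lit 394) (nat_lit 656) (@Lb.r r402 (@Lb.g g11 (@Lb.t (@Lb.fm (nat_lit 3) t4055)))))
noncomputable def l31159 : Lb := (@Lb.r r21 (@Lb.d (nat_lit 2) (nat_lit 512) (nat_lit 73) (@Lb.g g8 (@Lb.g g10 (@Lb.g g11 (@Lb.r r587 (@Lb.r r1634 (@Lb.r r97 (@Lb.r r1320 (@Lb.d (nat_lit 292) (nat_lit 2) (nat_lit 597) (@Lb.t (@Lb.fp (nat_lit 9) t1371))))))))))))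
noncomputable def l31160 : Lb := (@Lb.r r323 (@Lb.d (nat_lit 2) (nat_lit 264) (nat_lit 34) (@Lb.g g8 (@Lb.g g10 (@Lb.r r1419 (@Lb.r r1621 (@Lb.r r1444 (@Lb.d (nat_lit 345) (nat_lit 42) (nat_lit 393) (@Lb.fm (nat_lit 3) t3327)))))))))
noncomputable def l31161 : Lb := (@Lb.d (nat_lit 385) (nat_lit 0) (nat_lit 576) (@Lb.r r24 (@Lb.r r101 (@Lb.r r2642 (@Lb.r r2435 (@Lb.g g7 (@Lb.g g6 (@Lb.d (nat_lit 0) (nat_lit 0) (nat_lit 74) (@Lb.fm (nat_lit 3) t393)))))))))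
noncomputable def l31162 : Lb := (@Lb.d (nat_lit 0) (nat_lit 0) (nat_lit 2) (@Lb.g g10 (@Lb.g g7 (@Lb.r r386 (@Lb.r r101 (@Lb.r r24 (@Lb.d (nat_lit 357) (nat_lit 1) (nat_lit 521) (@Lb.fm (nat_lit 3) t1150))))))))
noncomputable def l31163 : Lb := (@Lb.r r90 (@Lb.d (nat_lit 165) (nat_lit 577) (nat_lit 136) (@Lb.g g8 (@Lb.g g5 (@Lb.g g11 (@Lb.r r386 (@Lb.r r2663 (@Lb.r r276 (@Lb.d (nat_lit 597) (nat_lit 16) (nat_lit 128) (@Lb.t (@Lb.fp (nat_lit 9) t5611)))))))))))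
noncomputable def l31164 : Lb := (@Lb.d (nat_lit 658) (nat_lit 10) (nat_lit 84) (@Lb.r r2196 (@Lb.r r322 (@Lb.r r2455 (@Lb.r r537 (@Lb.g g7 (@Lb.g g6 (@Lb.d (nat_lit 0) (nat_lit 0) (nat_lit 65) (@Lb.fm (nat_lit 3) t1865)))))))))
noncomputable def l31165 : Lb := (@Lb.d (nat_lit 132) (nat_lit 0) (nat_lit 385) (@Lb.r r101 (@Lb.g g11 (@Lb.g g6 (@Lb.d (nat_lit 64) (nat_lit 4) (nat_lit 513) (@Lb.fm (nat_lit 3) t4258))))))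
noncomputable def l31166 : Lb := (@Lb.r r90 (@Lb.d (nat_lit 166) (nat_lit 321) (nat_lit 136) (@Lb.g g8 (@Lb.g g5 (@Lb.g g11 (@Lb.r r386 (@Lb.r r2663 (@Lb.r r276 (@Lb.d (nat_lit 597) (nat_lit 16) (nat_lit 128) (@Lb.t (@Lb.fp (nat_lit 9) t5611)))))))))))
noncomputable def l31167 : Lb := (@Lb.r r21 (@Lb.r r323 (@Lb.d (nat_lit 130) (nat_lit 520) (nat_lit 2) (@Lb.g g8 (@Lb.g g10 (@Lb.r r615 (@Lb.r r533 (@Lb.r r292 (@Lb.d (nat_lit 681) (nat_lit 41) (nat_lit 673) (@Lb.fp (nat_lit 3) t221))))))))))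
noncomputable def l31168 : Lb := (@Lb.d (nat_lit 2) (nat_lit 32) (nat_lit 64) (@Lb.g g8 (@Lb.g g11 (@Lb.r r1321 (@Lb.r r1428 (@Lb.r r1446 (@Lb.r r603 (@Lb.d (nat_lit 104) (nat_lit 168) (nat_lit 528) (@Lb.fp (nat_lit 3) t5612)))))))))
noncomputable def l31169 : Lb := (@Lb.d (nat_lit 0) (nat_lit 132) (nat_lit 418) (@Lb.r r2438 (@Lb.r r1620 (@Lb.r r1287 (@Lb.g g9 (@Lb.d (nat_lit 4) (nat_lit 66) (nat_lit 0) (@Lb.r r291 (@Lb.r r98 (@Lb.t (@Lb.fm (nat_lit 3) t2136))))))))))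
noncomputable def l31170 : Lb := (@Lb.d (nat_lit 70) (nat_lit 676) (nat_lit 102) (@Lb.r r408 (@Lb.r r330 (@Lb.r r343 (@Lb.g g5 (@Lb.g g4 (@Lb.d (nat_lit 17) (nat_lit 37) (nat_lit 0) (@Lb.r r291 (@Lb.r r98 (@Lb.fp (nat_lit 3) t98))))))))))
noncomputable def l31171 : Lb := (@Lb.d (nat_lit 2) (nat_lit 512) (nat_lit 64) (@Lb.g g8 (@Lb.g g11 (@Lb.r r1543 (@Lb.r r2345 (@Lb.r r2468 (@Lb.r r2150 (@Lb.d (nat_lit 273) (nat_lit 88) (nat_lit 321) (@Lb.fm (nat_lit 3) t1195)))))))))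
noncomputable def l31172 : Lb := (@Lb.g g7 (@Lb.r r2343 (@Lb.r r1561 (@Lb.r r1684 (@Lb.r r2150 (@Lb.d (nat_lit 273) (nat_lit 320) (nat_lit 70) (@Lb.t (@Lb.fm (nat_lit 3) t1195))))))))
noncomputable def l31173 : Lb := (@Lb.r r21 (@Lb.r r70 (@Lb.g g8 (@Lb.r r2469 (@Lb.r r1706 (@Lb.r r1636 (@Lb.d (nat_lit 0) (nat_lit 593) (nat_lit 650) (@Lb.t (@Lb.fp (nat_lit 3) t4997)))))))))
noncomputable def l31174 : Lb := (@Lb.d (nat_lit 2) (nat_lit 512) (nat_lit 66) (@Lb.g g8 (@Lb.g g9 (@Lb.g g10 (@Lb.g g11 (@Lb.r r1315 (@Lb.r r2345 (@Lb.r r360 (@Lb.r r582 (@Lb.r r2180 (@Lb.d (nat_lit 402) (nat_lit 5) (nat_lit 74) (@Lb.fp (nat_lit 9) t3282))))))))))))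
noncomputable def l31175 : Lb := (@Lb.d (nat_lit 130) (nat_lit 514) (nat_lit 66) (@Lb.g g8 (@Lb.g g9 (@Lb.g g10 (@Lb.g g11 (@Lb.r r357 (@Lb.r r343 (@Lb.r r386 (@Lb.r r72 (@Lb.d (nat_lit 681) (nat_lit 41) (nat_lit 600) (@Lb.fm (nat_lit 9) t5613)))))))))))
noncomputable def l31176 : Lb := (@Lb.d (nat_lit 18) (nat_lit 530) (nat_lit 0) (@Lb.g g8 (@Lb.g g5 (@Lb.g g10 (@Lb.r r2343 (@Lb.r r1384 (@Lb.r r390 (@Lb.d (nat_lit 74) (nat_lit 22) (nat_lit 420) (@Lb.t (@Lb.fp (nat_lit 9) t2370))))))))))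
noncomputable def l31177 : Lb := (@Lb.r r2130 (@Lb.r r2323 (@Lb.d (nat_lit 10) (nat_lit 513) (nat_lit 0) (@Lb.g g8 (@Lb.g g9 (@Lb.r r36 (@Lb.r r2341 (@Lb.d (nat_lit 389) (nat_lit 81) (nat_lit 64) (@Lb.fp (nat_lit 3) t5614)))))))))
noncomputable def l31178 : Lb := (@Lb.d (nat_lit 8) (nat_lit 514) (nat_lit 2) (@Lb.g g8 (@Lb.g g9 (@Lb.g g10 (@Lb.g g7 (@Lb.r r386 (@Lb.r r1620 (@Lb.d (nat_lit 402) (nat_lit 2) (nat_lit 420) (@Lb.fp (nat_lit 9) t5615)))))))))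
noncomputable def l31179 : Lb := (@Lb.d (nat_lit 154) (nat_lit 2) (nat_lit 4) (@Lb.g g8 (@Lb.g g9 (@Lb.g g10 (@Lb.g g11 (@Lb.r r1675 (@Lb.r r1188 (@Lb.r r422 (@Lb.d (nat_lit 165) (nat_lit 165) (nat_lit 357) (@Lb.fp (nat_lit 9) t5616))))))))))
noncomputable def l31180 : Lb := (@Lb.r r323 (@Lb.d (nat_lit 2) (nat_lit 534) (nat_lit 16) (@Lb.g g8 (@Lb.g g5 (@Lb.g g10 (@Lb.r r2459 (@Lb.r r24 (@Lb.d (nat_lit 576) (nat_lit 1) (nat_lit 416) (@Lb.t (@Lb.fm (nat_lit 9) t2389))))))))))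
noncomputable def l31181 : Lb := (@Lb.d (nat_lit 8) (nat_lit 514) (nat_lit 66) (@Lb.g g9 (@Lb.g g10 (@Lb.g g7 (@Lb.r r386 (@Lb.r r24 (@Lb.d (nat_lit 608) (nat_lit 4) (nat_lit 602) (@Lb.t (@Lb.fp (nat_lit 9) t4165)))))))))
noncomputable def l31182 : Lb := (@Lb.d (nat_lit 9) (nat_lit 514) (nat_lit 145) (@Lb.g g8 (@Lb.g g9 (@Lb.g g6 (@Lb.g g11 (@Lb.r r1643 (@Lb.r r2145 (@Lb.r r2584 (@Lb.d (nat_lit 585) (nat_lit 41) (nat_lit 288) (@Lb.fp (nat_lit 9) t3930))))))))))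
noncomputable def l31183 : Lb := (@Lb.d (nat_lit 10) (nat_lit 129) (nat_lit 0) (@Lb.r r353 (@Lb.r r1683 (@Lb.r r2634 (@Lb.r r1096 (@Lb.g g7 (@Lb.d (nat_lit 64) (nat_lit 0) (nat_lit 128) (@Lb.t (@Lb.fp (nat_lit 3) t1714)))))))))
noncomputable def l31184 : Lb := (@Lb.g g6 (@Lb.r r24 (@Lb.r r101 (@Lb.d (nat_lit 10) (nat_lit 90) (nat_lit 266) (@Lb.t (@Lb.fm (nat_lit 3) t2432))))))
noncomputable def l31185 : Lb := (@Lb.r r2118 (@Lb.r r24 (@Lb.d (nat_lit 105) (nat_lit 34) (nat_lit 290) (@Lb.fm (nat_lit 1) t2272))))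
noncomputable def l31186 : Lb := (@Lb.r r273 (@Lb.d (nat_lit 0) (nat_lit 256) (nat_lit 521) (@Lb.g g10 (@Lb.g g7 (@Lb.r r386 (@Lb.r r280 (@Lb.r r613 (@Lb.d (nat_lit 10) (nat_lit 90) (nat_lit 644) (@Lb.fm (nat_lit 3) t1291)))))))))
noncomputable def l31187 : Lb := (@Lb.r r70 (@Lb.d (nat_lit 408) (nat_lit 261) (nat_lit 128) (@Lb.g g8 (@Lb.g g9 (@Lb.g g11 (@Lb.r r2454 (@Lb.r r2391 (@Lb.r r2601 (@Lb.d (nat_lit 324) (nat_lit 136) (nat_lit 660) (@Lb.t (@Lb.fm (nat_lit 9) t1913)))))))))))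
noncomputable def l31188 : Lb := (@Lb.d (nat_lit 354) (nat_lit 129) (nat_lit 517) (@Lb.r r24 (@Lb.r r1177 (@Lb.r r618 (@Lb.g g11 (@Lb.g g6 (@Lb.g g5 (@Lb.g g4 (@Lb.d (nat_lit 0) (nat_lit 37) (nat_lit 388) (@Lb.fp (nat_lit 9) t5617))))))))))
noncomputable def l31189 : Lb := (@Lb.d (nat_lit 2) (nat_lit 521) (nat_lit 72) (@Lb.g g8 (@Lb.g g9 (@Lb.g g10 (@Lb.g g11 (@Lb.r r2691 (@Lb.r r297 (@Lb.r r648 (@Lb.r r666 (@Lb.r r1156 (@Lb.d (nat_lit 640) (nat_lit 42) (nat_lit 73) (@Lb.fp (nat_lit 9) t3362))))))))))))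
noncomputable def l31190 : Lb := (@Lb.g g6 (@Lb.r r24 (@Lb.r r101 (@Lb.d (nat_lit 0) (nat_lit 600) (nat_lit 266) (@Lb.t (@Lb.fm (nat_lit 3) t153))))))
noncomputable def l31191 : Lb := (@Lb.d (nat_lit 32) (nat_lit 256) (nat_lit 130) (@Lb.g g10 (@Lb.g g11 (@Lb.r r423 (@Lb.r r600 (@Lb.r r1429 (@Lb.r r406 (@Lb.d (nat_lit 97) (nat_lit 25) (nat_lit 537) (@Lb.fm (nat_lit 3) t2600)))))))))
noncomputable def l31192 : Lb := (@Lb.r r82 (@Lb.d (nat_lit 0) (nat_lit 2) (nat_lit 584) (@Lb.g g8 (@Lb.g g9 (@Lb.g g7 (@Lb.r r1377 (@Lb.r r146 (@Lb.r r24 (@Lb.d (nat_lit 608) (nat_lit 154) (nat_lit 4) (@Lb.t (@Lb.fm (nat_lit 9) t5618)))))))))))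
noncomputable def l31193 : Lb := (@Lb.d (nat_lit 0) (nat_lit 16) (nat_lit 585) (@Lb.g g8 (@Lb.g g9 (@Lb.g g10 (@Lb.g g7 (@Lb.r r342 (@Lb.r r2133 (@Lb.r r24 (@Lb.d (nat_lit 657) (nat_lit 73) (nat_lit 265) (@Lb.fp (nat_lit 9) t378))))))))))
noncomputable def l31194 : Lb := (@Lb.d (nat_lit 0) (nat_lit 26) (nat_lit 136) (@Lb.g g8 (@Lb.g g9 (@Lb.g g10 (@Lb.g g11 (@Lb.r r2375 (@Lb.r r1674 (@Lb.r r1688 (@Lb.r r2469 (@Lb.d (nat_lit 594) (nat_lit 25) (nat_lit 326) (@Lb.fm (nat_lit 9) t4787)))))))))))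
noncomputable def l31195 : Lb := (@Lb.d (nat_lit 24) (nat_lit 25) (nat_lit 585) (@Lb.g g8 (@Lb.g g9 (@Lb.g g10 (@Lb.g g7 (@Lb.r r1442 (@Lb.r r2133 (@Lb.r r72 (@Lb.d (nat_lit 645) (nat_lit 36) (nat_lit 272) (@Lb.fm (nat_lit 9) t3491))))))))))
noncomputable def l31196 : Lb := (@Lb.d (nat_lit 4) (nat_lit 513) (nat_lit 2) (@Lb.g g8 (@Lb.g g9 (@Lb.g g10 (@Lb.r r2731 (@Lb.r r1642 (@Lb.r r1561 (@Lb.d (nat_lit 585) (nat_lit 105) (nat_lit 417) (@Lb.t (@Lb.fp (nat_lit 9) t324))))))))))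
noncomputable def l31197 : Lb := (@Lb.d (nat_lit 0) (nat_lit 514) (nat_lit 73) (@Lb.g g8 (@Lb.g g9 (@Lb.g g10 (@Lb.g g11 (@Lb.r r619 (@Lb.r r1610 (@Lb.r r660 (@Lb.r r425 (@Lb.r r2084 (@Lb.d (nat_lit 164) (nat_lit 104) (nat_lit 89) (@Lb.fp (nat_lit 9) t5619))))))))))))
noncomputable def l31198 : Lb := (@Lb.d (nat_lit 2) (nat_lit 2) (nat_lit 2) (@Lb.g g8 (@Lb.g g9 (@Lb.g g10 (@Lb.r r2454 (@Lb.r r343 (@Lb.r r2457 (@Lb.r r2436 (@Lb.d (nat_lit 617) (nat_lit 132) (nat_lit 257) (@Lb.t (@Lb.fp (nat_lit 9) t790)))))))))))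
noncomputable def l31199 : Lb := (@Lb.r r21 (@Lb.d (nat_lit 146) (nat_lit 512) (nat_lit 128) (@Lb.g g8 (@Lb.g g10 (@Lb.g g11 (@Lb.r r2395 (@Lb.r r402 (@Lb.r r97 (@Lb.r r1604 (@Lb.d (nat_lit 676) (nat_lit 2) (nat_lit 666) (@Lb.t (@Lb.fm (nat_lit 9) t2963))))))))))))
noncomputable def l31200 : Lb := (@Lb.d (nat_lit 341) (nat_lit 169) (nat_lit 672) (@Lb.r r1364 (@Lb.r r386 (@Lb.r r599 (@Lb.r r2329 (@Lb.g g6 (@Lb.g g4 (@Lb.d (nat_lit 70) (nat_lit 0) (nat_lit 1) (@Lb.fm (nat_lit 3) t927)))))))))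
noncomputable def l31201 : Lb := (@Lb.d (nat_lit 517) (nat_lit 518) (nat_lit 152) (@Lb.r r24 (@Lb.r r97 (@Lb.r r386 (@Lb.r r1431 (@Lb.g g6 (@Lb.g g5 (@Lb.g g4 (@Lb.d (nat_lit 2) (nat_lit 1) (nat_lit 1) (@Lb.t (@Lb.fm (nat_lit 9) t1933)))))))))))
noncomputable def l31202 : Lb := (@Lb.r r323 (@Lb.d (nat_lit 36) (nat_lit 514) (nat_lit 2) (@Lb.g g8 (@Lb.g g9 (@Lb.g g10 (@Lb.r r2347 (@Lb.r r2372 (@Lb.r r586 (@Lb.r r421 (@Lb.d (nat_lit 25) (nat_lit 38) (nat_lit 581) (@Lb.t (@Lb.fp (nat_lit 9) t5620))))))))))))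
noncomputable def l31203 : Lb := (@Lb.d (nat_lit 2) (nat_lit 0) (nat_lit 128) (@Lb.g g8 (@Lb.g g11 (@Lb.r r408 (@Lb.r r295 (@Lb.r r516 (@Lb.d (nat_lit 358) (nat_lit 164) (nat_lit 682) (@Lb.fp (nat_lit 3) t5502))))))))
noncomputable def l31204 : Lb := (@Lb.d (nat_lit 145) (nat_lit 73) (nat_lit 152) (@Lb.r r2634 (@Lb.r r2664 (@Lb.r r281 (@Lb.g g7 (@Lb.g g6 (@Lb.g g4 (@Lb.d (nat_lit 1) (nat_lit 36) (nat_lit 385) (@Lb.r r145 (@Lb.t (@Lb.fm (nat_lit 9) t5621)))))))))))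
noncomputable def l31205 : Lb := (@Lb.d (nat_lit 36) (nat_lit 169) (nat_lit 665) (@Lb.r r1637 (@Lb.r r1319 (@Lb.r r2644 (@Lb.g g6 (@Lb.g g5 (@Lb.g g4 (@Lb.d (nat_lit 1) (nat_lit 16) (nat_lit 33) (@Lb.r r387 (@Lb.t (@Lb.fm (nat_lit 9) t3040)))))))))))
noncomputable def l31206 : Lb := (@Lb.d (nat_lit 293) (nat_lit 128) (nat_lit 581) (@Lb.r r2308 (@Lb.r r2587 (@Lb.r r644 (@Lb.g g7 (@Lb.g g9 (@Lb.g g4 (@Lb.d (nat_lit 72) (nat_lit 2) (nat_lit 64) (@Lb.t (@Lb.fp (nat_lit 9) t5622))))))))))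
noncomputable def l31207 : Lb := (@Lb.d (nat_lit 517) (nat_lit 389) (nat_lit 610) (@Lb.r r2068 (@Lb.r r281 (@Lb.r r615 (@Lb.g g6 (@Lb.g g4 (@Lb.d (nat_lit 69) (nat_lit 0) (nat_lit 33) (@Lb.r r387 (@Lb.fp (nat_lit 3) t3040)))))))))
noncomputable def l31208 : Lb := (@Lb.d (nat_lit 2) (nat_lit 2) (nat_lit 130) (@Lb.g g8 (@Lb.g g9 (@Lb.g g10 (@Lb.g g11 (@Lb.r r2691 (@Lb.r r2666 (@Lb.r r97 (@Lb.r r24 (@Lb.d (nat_lit 137) (nat_lit 9) (nat_lit 601) (@Lb.fm (nat_lit 9) t556)))))))))))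
noncomputable def l31209 : Lb := (@Lb.d (nat_lit 128) (nat_lit 512) (nat_lit 324) (@Lb.g g7 (@Lb.r r1410 (@Lb.r r2193 (@Lb.r r2180 (@Lb.d (nat_lit 66) (nat_lit 5) (nat_lit 593) (@Lb.t (@Lb.fp (nat_lit 3) t61))))))))
noncomputable def l31210 : Lb := (@Lb.d (nat_lit 390) (nat_lit 662) (nat_lit 354) (@Lb.r r1556 (@Lb.r r2345 (@Lb.r r1623 (@Lb.g g6 (@Lb.g g5 (@Lb.g g4 (@Lb.d (nat_lit 73) (nat_lit 0) (nat_lit 33) (@Lb.r r387 (@Lb.t (@Lb.fp (nat_lit 9) t1643)))))))))))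
noncomputable def l31211 : Lb := (@Lb.d (nat_lit 408) (nat_lit 658) (nat_lit 2) (@Lb.r r2457 (@Lb.r r1702 (@Lb.r r423 (@Lb.r r1700 (@Lb.g g6 (@Lb.g g5 (@Lb.d (nat_lit 4) (nat_lit 1) (nat_lit 1) (@Lb.fp (nat_lit 3) t1126)))))))))
noncomputable def l31212 : Lb := (@Lb.d (nat_lit 2) (nat_lit 512) (nat_lit 128) (@Lb.g g8 (@Lb.g g11 (@Lb.r r1639 (@Lb.r r1410 (@Lb.r r2193 (@Lb.r r24 (@Lb.d (nat_lit 618) (nat_lit 68) (nat_lit 528) (@Lb.fp (nat_lit 3) t61)))))))))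
noncomputable def l31213 : Lb := (@Lb.d (nat_lit 0) (nat_lit 258) (nat_lit 73) (@Lb.g g8 (@Lb.g g9 (@Lb.g g10 (@Lb.g g11 (@Lb.r r427 (@Lb.r r677 (@Lb.r r340 (@Lb.r r170 (@Lb.d (nat_lit 21) (nat_lit 8) (nat_lit 2) (@Lb.fp (nat_lit 9) t61)))))))))))
noncomputable def l31214 : Lb := (@Lb.r r21 (@Lb.d (nat_lit 386) (nat_lit 8) (nat_lit 130) (@Lb.g g8 (@Lb.g g10 (@Lb.g g11 (@Lb.r r1419 (@Lb.r r101 (@Lb.r r410 (@Lb.d (nat_lit 0) (nat_lit 21) (nat_lit 649) (@Lb.t (@Lb.fm (nat_lit 9) t5623)))))))))))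
noncomputable def l31215 : Lb := (@Lb.r r323 (@Lb.d (nat_lit 8) (nat_lit 258) (nat_lit 0) (@Lb.g g9 (@Lb.g g10 (@Lb.r r419 (@Lb.r r2134 (@Lb.d (nat_lit 514) (nat_lit 73) (nat_lit 2) (@Lb.fm (nat_lit 3) t2037))))))))
noncomputable def l31216 : Lb := (@Lb.d (nat_lit 1) (nat_lit 137) (nat_lit 161) (@Lb.g g8 (@Lb.g g5 (@Lb.g g6 (@Lb.g g11 (@Lb.r r596 (@Lb.r r2311 (@Lb.r r1540 (@Lb.d (nat_lit 4) (nat_lit 101) (nat_lit 648) (@Lb.fp (nat_lit 9) t5624))))))))))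
noncomputable def l31217 : Lb := (@Lb.d (nat_lit 8) (nat_lit 529) (nat_lit 0) (@Lb.g g5 (@Lb.g g11 (@Lb.r r2579 (@Lb.r r1096 (@Lb.r r2150 (@Lb.d (nat_lit 0) (nat_lit 106) (nat_lit 420) (@Lb.fp (nat_lit 3) t5625))))))))
noncomputable def l31218 : Lb := (@Lb.d (nat_lit 2) (nat_lit 288) (nat_lit 64) (@Lb.g g8 (@Lb.g g11 (@Lb.r r345 (@Lb.r r2658 (@Lb.r r1635 (@Lb.d (nat_lit 552) (nat_lit 41) (nat_lit 426) (@Lb.fp (nat_lit 3) t2238))))))))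
noncomputable def l31219 : Lb := (@Lb.d (nat_lit 517) (nat_lit 393) (nat_lit 0) (@Lb.r r2644 (@Lb.r r1433 (@Lb.r r146 (@Lb.r r2455 (@Lb.g g7 (@Lb.g g5 (@Lb.d (nat_lit 0) (nat_lit 1) (nat_lit 64) (@Lb.fp (nat_lit 3) t1144)))))))))
noncomputable def l31220 : Lb := (@Lb.d (nat_lit 0) (nat_lit 32) (nat_lit 73) (@Lb.g g9 (@Lb.g g10 (@Lb.g g11 (@Lb.r r1707 (@Lb.r r358 (@Lb.r r1557 (@Lb.d (nat_lit 612) (nat_lit 137) (nat_lit 533) (@Lb.t (@Lb.fp (nat_lit 9) t809))))))))))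
noncomputable def l31221 : Lb := (@Lb.d (nat_lit 536) (nat_lit 645) (nat_lit 68) (@Lb.r r97 (@Lb.r r386 (@Lb.r r1431 (@Lb.g g7 (@Lb.g g6 (@Lb.g g5 (@Lb.g g4 (@Lb.d (nat_lit 0) (nat_lit 1) (nat_lit 65) (@Lb.fp (nat_lit 9) t5626))))))))))
noncomputable def l31222 : Lb := (@Lb.d (nat_lit 0) (nat_lit 258) (nat_lit 128) (@Lb.g g9 (@Lb.g g10 (@Lb.g g11 (@Lb.r r2723 (@Lb.r r2453 (@Lb.r r356 (@Lb.r r154 (@Lb.d (nat_lit 666) (nat_lit 10) (nat_lit 345) (@Lb.t (@Lb.fm (nat_lit 9) t228)))))))))))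
noncomputable def l31223 : Lb := (@Lb.d (nat_lit 16) (nat_lit 514) (nat_lit 130) (@Lb.g g9 (@Lb.g g6 (@Lb.g g11 (@Lb.r r2667 (@Lb.r r2657 (@Lb.r r24 (@Lb.d (nat_lit 642) (nat_lit 42) (nat_lit 424) (@Lb.t (@Lb.fm (nat_lit 9) t3564))))))))))
noncomputable def l31224 : Lb := (@Lb.d (nat_lit 152) (nat_lit 2) (nat_lit 73) (@Lb.g g8 (@Lb.g g9 (@Lb.g g10 (@Lb.g g11 (@Lb.r r1579 (@Lb.r r1641 (@Lb.r r2454 (@Lb.r r1124 (@Lb.d (nat_lit 274) (nat_lit 40) (nat_lit 593) (@Lb.fm (nat_lit 9) t2380)))))))))))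
noncomputable def l31225 : Lb := (@Lb.d (nat_lit 517) (nat_lit 262) (nat_lit 538) (@Lb.r r24 (@Lb.r r2587 (@Lb.r r1381 (@Lb.g g10 (@Lb.g g4 (@Lb.d (nat_lit 1) (nat_lit 0) (nat_lit 18) (@Lb.r r387 (@Lb.r r145 (@Lb.fm (nat_lit 3) t2282))))))))))
noncomputable def l31226 : Lb := (@Lb.r r323 (@Lb.d (nat_lit 2) (nat_lit 646) (nat_lit 33) (@Lb.g g8 (@Lb.g g5 (@Lb.g g10 (@Lb.r r387 (@Lb.r r24 (@Lb.d (nat_lit 10) (nat_lit 0) (nat_lit 2) (@Lb.t (@Lb.fm (nat_lit 9) t68))))))))))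
noncomputable def l31227 : Lb := (@Lb.r r101 (@Lb.d (nat_lit 517) (nat_lit 8) (nat_lit 18) (@Lb.fm (nat_lit 1) t420)))
noncomputable def l31228 : Lb := (@Lb.d (nat_lit 2) (nat_lit 288) (nat_lit 64) (@Lb.g g8 (@Lb.g g11 (@Lb.r r2344 (@Lb.r r345 (@Lb.r r2727 (@Lb.r r2178 (@Lb.d (nat_lit 421) (nat_lit 26) (nat_lit 170) (@Lb.fp (nat_lit 3) t1282)))))))))
noncomputable def l31229 : Lb := (@Lb.d (nat_lit 150) (nat_lit 37) (nat_lit 392) (@Lb.r r24 (@Lb.r r2145 (@Lb.r r1642 (@Lb.r r427 (@Lb.g g7 (@Lb.g g6 (@Lb.g g5 (@Lb.d (nat_lit 0) (nat_lit 37) (nat_lit 2) (@Lb.t (@Lb.fp (nat_lit 9) t2090)))))))))))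
noncomputable def l31230 : Lb := (@Lb.d (nat_lit 38) (nat_lit 34) (nat_lit 132) (@Lb.g g8 (@Lb.g g9 (@Lb.g g10 (@Lb.g g11 (@Lb.r r1707 (@Lb.r r162 (@Lb.r r548 (@Lb.r r2197 (@Lb.r r36 (@Lb.d (nat_lit 296) (nat_lit 24) (nat_lit 681) (@Lb.fp (nat_lit 9) t5627))))))))))))
noncomputable def l31231 : Lb := (@Lb.d (nat_lit 144) (nat_lit 342) (nat_lit 298) (@Lb.r r1428 (@Lb.r r89 (@Lb.r r1350 (@Lb.g g7 (@Lb.g g6 (@Lb.g g4 (@Lb.d (nat_lit 1) (nat_lit 32) (nat_lit 577) (@Lb.r r25 (@Lb.t (@Lb.fp (nat_lit 9) t1666)))))))))))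
noncomputable def l31232 : Lb := (@Lb.r r263 (@Lb.d (nat_lit 130) (nat_lit 258) (nat_lit 34) (@Lb.g g8 (@Lb.g g9 (@Lb.g g6 (@Lb.r r1431 (@Lb.r r97 (@Lb.r r660 (@Lb.d (nat_lit 165) (nat_lit 37) (nat_lit 164) (@Lb.t (@Lb.fm (nat_lit 9) t3913)))))))))))
noncomputable def l31233 : Lb := (@Lb.d (nat_lit 1) (nat_lit 545) (nat_lit 4) (@Lb.g g8 (@Lb.g g9 (@Lb.g g10 (@Lb.g g11 (@Lb.r r2370 (@Lb.r r425 (@Lb.r r1687 (@Lb.r r1444 (@Lb.d (nat_lit 74) (nat_lit 166) (nat_lit 102) (@Lb.fp (nat_lit 9) t5628)))))))))))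
noncomputable def l31234 : Lb := (@Lb.d (nat_lit 16) (nat_lit 8) (nat_lit 129) (@Lb.g g9 (@Lb.g g6 (@Lb.g g11 (@Lb.r r2727 (@Lb.r r2645 (@Lb.r r24 (@Lb.d (nat_lit 280) (nat_lit 96) (nat_lit 394) (@Lb.t (@Lb.fp (nat_lit 9) t5629))))))))))
noncomputable def l31235 : Lb := (@Lb.d (nat_lit 33) (nat_lit 289) (nat_lit 132) (@Lb.g g8 (@Lb.g g9 (@Lb.g g10 (@Lb.g g11 (@Lb.r r1707 (@Lb.r r162 (@Lb.r r548 (@Lb.r r2197 (@Lb.r r36 (@Lb.d (nat_lit 296) (nat_lit 24) (nat_lit 681) (@Lb.fp (nat_lit 9) t5627))))))))))))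
noncomputable def l31236 : Lb := (@Lb.d (nat_lit 272) (nat_lit 258) (nat_lit 0) (@Lb.g g8 (@Lb.g g9 (@Lb.g g10 (@Lb.r r2731 (@Lb.r r1642 (@Lb.r r25 (@Lb.d (nat_lit 9) (nat_lit 153) (nat_lit 9) (@Lb.t (@Lb.fp (nat_lit 9) t863))))))))))
noncomputable def l31237 : Lb := (@Lb.d (nat_lit 613) (nat_lit 421) (nat_lit 292) (@Lb.r r101 (@Lb.r r323 (@Lb.g g7 (@Lb.g g6 (@Lb.d (nat_lit 0) (nat_lit 4) (nat_lit 65) (@Lb.fp (nat_lit 3) t58)))))))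
noncomputable def l31238 : Lb := (@Lb.d (nat_lit 8) (nat_lit 9) (nat_lit 0) (@Lb.g g9 (@Lb.r r154 (@Lb.r r660 (@Lb.r r407 (@Lb.r r609 (@Lb.d (nat_lit 320) (nat_lit 64) (nat_lit 330) (@Lb.t (@Lb.fp (nat_lit 3) t3115)))))))))
noncomputable def l31239 : Lb := (@Lb.d (nat_lit 641) (nat_lit 289) (nat_lit 2) (@Lb.g g4 (@Lb.g g9 (@Lb.g g10 (@Lb.r r595 (@Lb.r r386 (@Lb.r r2145 (@Lb.d (nat_lit 2) (nat_lit 152) (nat_lit 425) (@Lb.t (@Lb.fm (nat_lit 9) t5630))))))))))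
noncomputable def l31240 : Lb := (@Lb.r r82 (@Lb.r r275 (@Lb.d (nat_lit 9) (nat_lit 385) (nat_lit 0) (@Lb.g g8 (@Lb.g g5 (@Lb.r r1619 (@Lb.r r1418 (@Lb.r r1416 (@Lb.d (nat_lit 410) (nat_lit 146) (nat_lit 426) (@Lb.fm (nat_lit 3) t5631))))))))))
noncomputable def l31241 : Lb := (@Lb.d (nat_lit 149) (nat_lit 262) (nat_lit 4) (@Lb.r r21 (@Lb.r r86 (@Lb.r r424 (@Lb.g g11 (@Lb.g g6 (@Lb.g g5 (@Lb.d (nat_lit 0) (nat_lit 1) (nat_lit 6) (@Lb.t (@Lb.fp (nat_lit 9) t61))))))))))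
noncomputable def l31242 : Lb := (@Lb.r r322 (@Lb.d (nat_lit 8) (nat_lit 289) (nat_lit 516) (@Lb.g g9 (@Lb.g g7 (@Lb.r r422 (@Lb.r r1112 (@Lb.r r149 (@Lb.d (nat_lit 38) (nat_lit 0) (nat_lit 82) (@Lb.fp (nat_lit 3) t5632)))))))))
noncomputable def l31243 : Lb := (@Lb.r r322 (@Lb.d (nat_lit 34) (nat_lit 545) (nat_lit 516) (@Lb.g g8 (@Lb.g g9 (@Lb.g g7 (@Lb.r r418 (@Lb.r r297 (@Lb.r r1384 (@Lb.d (nat_lit 404) (nat_lit 41) (nat_lit 293) (@Lb.t (@Lb.fm (nat_lit 9) t5633)))))))))))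
noncomputable def l31244 : Lb := (@Lb.d (nat_lit 130) (nat_lit 2) (nat_lit 2) (@Lb.g g8 (@Lb.g g9 (@Lb.g g10 (@Lb.r r2691 (@Lb.r r1194 (@Lb.r r2337 (@Lb.r r152 (@Lb.d (nat_lit 664) (nat_lit 98) (nat_lit 64) (@Lb.t (@Lb.fm (nat_lit 9) t242)))))))))))
noncomputable def l31245 : Lb := (@Lb.d (nat_lit 144) (nat_lit 130) (nat_lit 33) (@Lb.r r587 (@Lb.r r580 (@Lb.r r410 (@Lb.g g7 (@Lb.g g5 (@Lb.d (nat_lit 64) (nat_lit 1) (nat_lit 68) (@Lb.r r98 (@Lb.fm (nat_lit 3) t242)))))))))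
noncomputable def l31246 : Lb := (@Lb.d (nat_lit 9) (nat_lit 2) (nat_lit 0) (@Lb.g g8 (@Lb.t (@Lb.fp (nat_lit 3) t2))))
noncomputable def l31247 : Lb := (@Lb.d (nat_lit 144) (nat_lit 521) (nat_lit 130) (@Lb.g g8 (@Lb.g g9 (@Lb.g g10 (@Lb.g g11 (@Lb.r r1666 (@Lb.r r1431 (@Lb.r r97 (@Lb.r r536 (@Lb.d (nat_lit 104) (nat_lit 36) (nat_lit 128) (@Lb.fm (nat_lit 9) t5634)))))))))))
noncomputable def l31248 : Lb := (@Lb.d (nat_lit 356) (nat_lit 641) (nat_lit 657) (@Lb.r r358 (@Lb.r r676 (@Lb.r r1105 (@Lb.r r1623 (@Lb.g g6 (@Lb.g g5 (@Lb.g g4 (@Lb.d (nat_lit 1) (nat_lit 1) (nat_lit 5) (@Lb.t (@Lb.fm (nat_lit 9) t2655)))))))))))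
noncomputable def l31249 : Lb := (@Lb.d (nat_lit 144) (nat_lit 265) (nat_lit 130) (@Lb.g g8 (@Lb.g g9 (@Lb.g g10 (@Lb.g g11 (@Lb.r r1666 (@Lb.r r1431 (@Lb.r r97 (@Lb.r r536 (@Lb.d (nat_lit 104) (nat_lit 41) (nat_lit 129) (@Lb.fm (nat_lit 9) t3734)))))))))))
noncomputable def l31250 : Lb := (@Lb.r r2118 (@Lb.r r24 (@Lb.r r149 (@Lb.d (nat_lit 292) (nat_lit 613) (nat_lit 277) (@Lb.fm (nat_lit 1) t843)))))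
noncomputable def l31251 : Lb := (@Lb.r r21 (@Lb.r r70 (@Lb.d (nat_lit 388) (nat_lit 0) (nat_lit 256) (@Lb.g g4 (@Lb.g g7 (@Lb.r r101 (@Lb.r r2450 (@Lb.d (nat_lit 8) (nat_lit 133) (nat_lit 64) (@Lb.fm (nat_lit 3) t1732)))))))))
noncomputable def l31252 : Lb := (@Lb.d (nat_lit 2) (nat_lit 256) (nat_lit 64) (@Lb.g g8 (@Lb.g g10 (@Lb.g g7 (@Lb.r r402 (@Lb.r r2145 (@Lb.r r24 (@Lb.d (nat_lit 328) (nat_lit 97) (nat_lit 256) (@Lb.t (@Lb.fm (nat_lit 9) t3206))))))))))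
noncomputable def l31253 : Lb := (@Lb.d (nat_lit 18) (nat_lit 512) (nat_lit 0) (@Lb.g g8 (@Lb.g g10 (@Lb.g g11 (@Lb.r r1675 (@Lb.r r1668 (@Lb.r r2198 (@Lb.r r2145 (@Lb.d (nat_lit 265) (nat_lit 161) (nat_lit 128) (@Lb.t (@Lb.fp (nat_lit 9) t152)))))))))))
noncomputable def l31254 : Lb := (@Lb.d (nat_lit 2) (nat_lit 32) (nat_lit 130) (@Lb.g g8 (@Lb.g g10 (@Lb.g g11 (@Lb.r r602 (@Lb.r r600 (@Lb.r r293 (@Lb.r r2587 (@Lb.d (nat_lit 328) (nat_lit 34) (nat_lit 276) (@Lb.t (@Lb.fp (nat_lit 9) t71)))))))))))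
noncomputable def l31255 : Lb := (@Lb.r r323 (@Lb.d (nat_lit 130) (nat_lit 258) (nat_lit 0) (@Lb.g g8 (@Lb.g g9 (@Lb.g g10 (@Lb.r r2154 (@Lb.r r2409 (@Lb.r r1367 (@Lb.r r2696 (@Lb.d (nat_lit 337) (nat_lit 69) (nat_lit 420) (@Lb.t (@Lb.fm (nat_lit 9) t51))))))))))))
noncomputable def l31256 : Lb := (@Lb.r r82 (@Lb.d (nat_lit 128) (nat_lit 514) (nat_lit 128) (@Lb.g g8 (@Lb.g g9 (@Lb.g g11 (@Lb.r r1643 (@Lb.r r662 (@Lb.r r425 (@Lb.r r1636 (@Lb.d (nat_lit 521) (nat_lit 1) (nat_lit 420) (@Lb.t (@Lb.fp (nat_lit 9) t5635))))))))))))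
noncomputable def l31257 : Lb := (@Lb.d (nat_lit 273) (nat_lit 38) (nat_lit 273) (@Lb.r r408 (@Lb.r r330 (@Lb.r r599 (@Lb.g g7 (@Lb.g g9 (@Lb.g g4 (@Lb.d (nat_lit 16) (nat_lit 154) (nat_lit 128) (@Lb.r r98 (@Lb.t (@Lb.fm (nat_lit 9) t5575)))))))))))
noncomputable def l31258 : Lb := (@Lb.d (nat_lit 144) (nat_lit 512) (nat_lit 128) (@Lb.g g8 (@Lb.g g9 (@Lb.g g10 (@Lb.g g11 (@Lb.r r1666 (@Lb.r r2455 (@Lb.r r1633 (@Lb.r r1048 (@Lb.d (nat_lit 553) (nat_lit 25) (nat_lit 409) (@Lb.fm (nat_lit 9) t5636)))))))))))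
noncomputable def l31259 : Lb := (@Lb.d (nat_lit 2) (nat_lit 266) (nat_lit 64) (@Lb.g g8 (@Lb.g g9 (@Lb.g g11 (@Lb.r r1380 (@Lb.r r2715 (@Lb.r r1626 (@Lb.r r1429 (@Lb.d (nat_lit 612) (nat_lit 80) (nat_lit 401) (@Lb.t (@Lb.fp (nat_lit 9) t3300)))))))))))
noncomputable def l31260 : Lb := (@Lb.d (nat_lit 130) (nat_lit 258) (nat_lit 66) (@Lb.g g8 (@Lb.g g9 (@Lb.g g10 (@Lb.g g11 (@Lb.r r1194 (@Lb.r r596 (@Lb.r r425 (@Lb.r r279 (@Lb.r r1572 (@Lb.d (nat_lit 262) (nat_lit 161) (nat_lit 618) (@Lb.fp (nat_lit 9) t5637))))))))))))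
noncomputable def l31261 : Lb := (@Lb.d (nat_lit 130) (nat_lit 516) (nat_lit 128) (@Lb.g g8 (@Lb.g g9 (@Lb.g g10 (@Lb.g g11 (@Lb.r r2690 (@Lb.r r2455 (@Lb.r r97 (@Lb.r r2584 (@Lb.d (nat_lit 617) (nat_lit 169) (nat_lit 417) (@Lb.fm (nat_lit 9) t1144)))))))))))
noncomputable def l31262 : Lb := (@Lb.d (nat_lit 2) (nat_lit 36) (nat_lit 128) (@Lb.g g8 (@Lb.g g9 (@Lb.g g10 (@Lb.g g11 (@Lb.r r1666 (@Lb.r r1431 (@Lb.r r2664 (@Lb.r r1641 (@Lb.d (nat_lit 85) (nat_lit 25) (nat_lit 393) (@Lb.fm (nat_lit 9) t5392)))))))))))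
noncomputable def l31263 : Lb := (@Lb.d (nat_lit 2) (nat_lit 522) (nat_lit 64) (@Lb.g g8 (@Lb.g g9 (@Lb.g g11 (@Lb.r r1380 (@Lb.r r2715 (@Lb.r r1626 (@Lb.r r1429 (@Lb.d (nat_lit 614) (nat_lit 80) (nat_lit 401) (@Lb.t (@Lb.fp (nat_lit 9) t1561)))))))))))
noncomputable def l31264 : Lb := (@Lb.d (nat_lit 2) (nat_lit 544) (nat_lit 130) (@Lb.g g8 (@Lb.g g9 (@Lb.g g10 (@Lb.g g11 (@Lb.r r1666 (@Lb.r r2455 (@Lb.r r1640 (@Lb.r r617 (@Lb.d (nat_lit 341) (nat_lit 89) (nat_lit 681) (@Lb.fm (nat_lit 9) t5638)))))))))))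
noncomputable def l31265 : Lb := (@Lb.d (nat_lit 130) (nat_lit 2) (nat_lit 130) (@Lb.g g8 (@Lb.g g9 (@Lb.g g10 (@Lb.g g11 (@Lb.r r1194 (@Lb.r r424 (@Lb.r r409 (@Lb.r r295 (@Lb.r r1540 (@Lb.d (nat_lit 258) (nat_lit 97) (nat_lit 618) (@Lb.fp (nat_lit 9) t5637))))))))))))
noncomputable def l31266 : Lb := (@Lb.d (nat_lit 2) (nat_lit 258) (nat_lit 2) (@Lb.g g8 (@Lb.g g9 (@Lb.g g10 (@Lb.r r1689 (@Lb.r r2579 (@Lb.r r2440 (@Lb.r r2122 (@Lb.d (nat_lit 289) (nat_lit 10) (nat_lit 664) (@Lb.t (@Lb.fm (nat_lit 9) t5639)))))))))))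
noncomputable def l31267 : Lb := (@Lb.d (nat_lit 2) (nat_lit 522) (nat_lit 64) (@Lb.g g8 (@Lb.g g9 (@Lb.g g11 (@Lb.r r1380 (@Lb.r r2715 (@Lb.r r1626 (@Lb.r r1429 (@Lb.d (nat_lit 612) (nat_lit 90) (nat_lit 400) (@Lb.t (@Lb.fp (nat_lit 9) t3300)))))))))))
noncomputable def l31268 : Lb := (@Lb.d (nat_lit 4) (nat_lit 34) (nat_lit 66) (@Lb.g g8 (@Lb.g g9 (@Lb.g g10 (@Lb.g g11 (@Lb.r r2386 (@Lb.r r597 (@Lb.r r1640 (@Lb.r r587 (@Lb.d (nat_lit 336) (nat_lit 162) (nat_lit 292) (@Lb.fp (nat_lit 9) t5640)))))))))))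
noncomputable def l31269 : Lb := (@Lb.d (nat_lit 66) (nat_lit 330) (nat_lit 644) (@Lb.r r597 (@Lb.r r1642 (@Lb.r r1352 (@Lb.r r2695 (@Lb.g g7 (@Lb.g g6 (@Lb.g g5 (@Lb.d (nat_lit 16) (nat_lit 5) (nat_lit 132) (@Lb.t (@Lb.fp (nat_lit 9) t5641)))))))))))
noncomputable def l31270 : Lb := (@Lb.r r323 (@Lb.d (nat_lit 32) (nat_lit 256) (nat_lit 2) (@Lb.g g10 (@Lb.r r584 (@Lb.r r299 (@Lb.r r289 (@Lb.d (nat_lit 10) (nat_lit 102) (nat_lit 290) (@Lb.t (@Lb.fp (nat_lit 3) t349)))))))))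
noncomputable def l31271 : Lb := (@Lb.d (nat_lit 2) (nat_lit 260) (nat_lit 0) (@Lb.g g8 (@Lb.g g9 (@Lb.g g10 (@Lb.r r683 (@Lb.r r2666 (@Lb.r r25 (@Lb.d (nat_lit 2) (nat_lit 80) (nat_lit 538) (@Lb.t (@Lb.fp (nat_lit 9) t5642))))))))))
noncomputable def l31272 : Lb := (@Lb.d (nat_lit 2) (nat_lit 0) (nat_lit 0) (@Lb.g g8 (@Lb.r r1162 (@Lb.r r1188 (@Lb.r r405 (@Lb.r r1635 (@Lb.d (nat_lit 6) (nat_lit 1) (nat_lit 85) (@Lb.t (@Lb.fp (nat_lit 3) t5643)))))))))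
noncomputable def l31273 : Lb := (@Lb.d (nat_lit 8) (nat_lit 2) (nat_lit 0) (@Lb.g g9 (@Lb.r r2311 (@Lb.r r2196 (@Lb.r r2454 (@Lb.r r601 (@Lb.d (nat_lit 617) (nat_lit 100) (nat_lit 16) (@Lb.t (@Lb.fm (nat_lit 3) t1456)))))))))
noncomputable def l31274 : Lb := (@Lb.r r322 (@Lb.d (nat_lit 8) (nat_lit 290) (nat_lit 516) (@Lb.g g9 (@Lb.g g7 (@Lb.r r2470 (@Lb.r r2136 (@Lb.r r1109 (@Lb.d (nat_lit 278) (nat_lit 72) (nat_lit 80) (@Lb.fp (nat_lit 3) t1159)))))))))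
noncomputable def l31275 : Lb := (@Lb.r r322 (@Lb.d (nat_lit 5) (nat_lit 546) (nat_lit 516) (@Lb.g g8 (@Lb.g g9 (@Lb.g g7 (@Lb.r r2474 (@Lb.r r1188 (@Lb.r r1061 (@Lb.d (nat_lit 266) (nat_lit 130) (nat_lit 64) (@Lb.t (@Lb.fp (nat_lit 9) t1159)))))))))))
noncomputable def l31276 : Lb := (@Lb.r r97 (@Lb.r r2130 (@Lb.r r145 (@Lb.d (nat_lit 529) (nat_lit 266) (nat_lit 16) (@Lb.fm (nat_lit 1) t300)))))
noncomputable def l31277 : Lb := (@Lb.d (nat_lit 130) (nat_lit 546) (nat_lit 0) (@Lb.g g8 (@Lb.g g9 (@Lb.g g10 (@Lb.r r2474 (@Lb.r r583 (@Lb.r r408 (@Lb.r r2085 (@Lb.d (nat_lit 581) (nat_lit 22) (nat_lit 346) (@Lb.t (@Lb.fm (nat_lit 9) t178)))))))))))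
noncomputable def l31278 : Lb := (@Lb.d (nat_lit 161) (nat_lit 2) (nat_lit 2) (@Lb.g g8 (@Lb.g g9 (@Lb.g g10 (@Lb.r r2691 (@Lb.r r2218 (@Lb.r r2473 (@Lb.r r2472 (@Lb.d (nat_lit 405) (nat_lit 148) (nat_lit 346) (@Lb.t (@Lb.fm (nat_lit 9) t1059)))))))))))
noncomputable def l31279 : Lb := (@Lb.d (nat_lit 9) (nat_lit 257) (nat_lit 130) (@Lb.g g8 (@Lb.g g9 (@Lb.g g10 (@Lb.g g11 (@Lb.r r2411 (@Lb.r r386 (@Lb.r r97 (@Lb.r r24 (@Lb.d (nat_lit 534) (nat_lit 6) (nat_lit 136) (@Lb.fm (nat_lit 9) t61)))))))))))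
noncomputable def l31280 : Lb := (@Lb.d (nat_lit 0) (nat_lit 2) (nat_lit 130) (@Lb.g g9 (@Lb.g g10 (@Lb.g g11 (@Lb.r r2411 (@Lb.r r386 (@Lb.r r97 (@Lb.r r24 (@Lb.d (nat_lit 536) (nat_lit 9) (nat_lit 137) (@Lb.t (@Lb.fp (nat_lit 9) t61)))))))))))
noncomputable def l31281 : Lb := (@Lb.r r70 (@Lb.d (nat_lit 137) (nat_lit 1) (nat_lit 256) (@Lb.g g8 (@Lb.g g9 (@Lb.g g7 (@Lb.r r2465 (@Lb.r r2150 (@Lb.r r408 (@Lb.d (nat_lit 656) (nat_lit 24) (nat_lit 394) (@Lb.t (@Lb.fp (nat_lit 9) t491)))))))))))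
noncomputable def l31282 : Lb := (@Lb.d (nat_lit 9) (nat_lit 257) (nat_lit 130) (@Lb.g g8 (@Lb.g g9 (@Lb.g g10 (@Lb.g g11 (@Lb.r r2411 (@Lb.r r386 (@Lb.r r97 (@Lb.r r24 (@Lb.d (nat_lit 538) (nat_lit 4) (nat_lit 136) (@Lb.fm (nat_lit 9) t61)))))))))))
noncomputable def l31283 : Lb := (@Lb.d (nat_lit 9) (nat_lit 1) (nat_lit 130) (@Lb.g g8 (@Lb.g g9 (@Lb.g g10 (@Lb.g g11 (@Lb.r r2411 (@Lb.r r386 (@Lb.r r97 (@Lb.r r24 (@Lb.d (nat_lit 536) (nat_lit 4) (nat_lit 136) (@Lb.fm (nat_lit 9) t61)))))))))))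
noncomputable def l31284 : Lb := (@Lb.d (nat_lit 66) (nat_lit 546) (nat_lit 66) (@Lb.g g8 (@Lb.g g9 (@Lb.g g10 (@Lb.g g11 (@Lb.r r614 (@Lb.r r408 (@Lb.r r1319 (@Lb.r r2069 (@Lb.r r36 (@Lb.d (nat_lit 520) (nat_lit 97) (nat_lit 362) (@Lb.fm (nat_lit 9) t163))))))))))))
noncomputable def l31285 : Lb := (@Lb.d (nat_lit 66) (nat_lit 546) (nat_lit 130) (@Lb.g g8 (@Lb.g g9 (@Lb.g g10 (@Lb.g g11 (@Lb.r r1451 (@Lb.r r2193 (@Lb.r r356 (@Lb.r r1178 (@Lb.r r1156 (@Lb.d (nat_lit 520) (nat_lit 137) (nat_lit 274) (@Lb.fm (nat_lit 9) t163))))))))))))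
noncomputable def l31286 : Lb := (@Lb.d (nat_lit 521) (nat_lit 384) (nat_lit 16) (@Lb.r r97 (@Lb.r r402 (@Lb.r r2631 (@Lb.g g8 (@Lb.d (nat_lit 261) (nat_lit 0) (nat_lit 0) (@Lb.r r267 (@Lb.r r74 (@Lb.r r25 (@Lb.t (@Lb.fm (nat_lit 3) t4215)))))))))))
noncomputable def l31287 : Lb := (@Lb.r r263 (@Lb.d (nat_lit 34) (nat_lit 514) (nat_lit 2) (@Lb.g g8 (@Lb.g g9 (@Lb.g g10 (@Lb.r r2713 (@Lb.r r1563 (@Lb.r r580 (@Lb.r r2122 (@Lb.d (nat_lit 81) (nat_lit 0) (nat_lit 137) (@Lb.t (@Lb.fp (nat_lit 9) t1039))))))))))))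
noncomputable def l31288 : Lb := (@Lb.d (nat_lit 128) (nat_lit 288) (nat_lit 136) (@Lb.g g11 (@Lb.r r420 (@Lb.r r2469 (@Lb.r r1446 (@Lb.r r347 (@Lb.d (nat_lit 288) (nat_lit 20) (nat_lit 646) (@Lb.t (@Lb.fp (nat_lit 3) t748)))))))))
noncomputable def l31289 : Lb := (@Lb.d (nat_lit 8) (nat_lit 258) (nat_lit 73) (@Lb.g g9 (@Lb.g g10 (@Lb.g g11 (@Lb.r r1130 (@Lb.r r24 (@Lb.r r1685 (@Lb.r r1427 (@Lb.d (nat_lit 545) (nat_lit 165) (nat_lit 68) (@Lb.t (@Lb.fp (nat_lit 9) t1741)))))))))))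
noncomputable def l31290 : Lb := (@Lb.d (nat_lit 602) (nat_lit 324) (nat_lit 554) (@Lb.r r2325 (@Lb.r r2438 (@Lb.r r1096 (@Lb.r r1699 (@Lb.g g7 (@Lb.g g6 (@Lb.g g5 (@Lb.d (nat_lit 0) (nat_lit 25) (nat_lit 128) (@Lb.t (@Lb.fm (nat_lit 9) t171)))))))))))
noncomputable def l31291 : Lb := (@Lb.d (nat_lit 2) (nat_lit 2) (nat_lit 73) (@Lb.g g8 (@Lb.g g9 (@Lb.g g10 (@Lb.g g11 (@Lb.r r427 (@Lb.r r420 (@Lb.r r102 (@Lb.r r97 (@Lb.r r36 (@Lb.d (nat_lit 8) (nat_lit 90) (nat_lit 265) (@Lb.fm (nat_lit 9) t51))))))))))))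
noncomputable def l31292 : Lb := (@Lb.d (nat_lit 602) (nat_lit 272) (nat_lit 10) (@Lb.r r2374 (@Lb.r r1160 (@Lb.r r343 (@Lb.g g7 (@Lb.g g6 (@Lb.g g5 (@Lb.g g4 (@Lb.d (nat_lit 1) (nat_lit 25) (nat_lit 128) (@Lb.fm (nat_lit 9) t2597))))))))))
noncomputable def l31293 : Lb := (@Lb.d (nat_lit 148) (nat_lit 10) (nat_lit 130) (@Lb.g g8 (@Lb.g g9 (@Lb.g g10 (@Lb.g g11 (@Lb.r r2467 (@Lb.r r164 (@Lb.r r1445 (@Lb.r r1126 (@Lb.d (nat_lit 21) (nat_lit 104) (nat_lit 345) (@Lb.fm (nat_lit 9) t2596)))))))))))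
noncomputable def l31294 : Lb := (@Lb.r r331 (@Lb.d (nat_lit 1) (nat_lit 258) (nat_lit 2) (@Lb.g g8 (@Lb.g g9 (@Lb.g g10 (@Lb.r r1387 (@Lb.r r98 (@Lb.r r97 (@Lb.r r392 (@Lb.d (nat_lit 402) (nat_lit 152) (nat_lit 393) (@Lb.t (@Lb.fm (nat_lit 9) t5098))))))))))))
noncomputable def l31295 : Lb := (@Lb.d (nat_lit 1) (nat_lit 36) (nat_lit 6) (@Lb.r r37 (@Lb.r r386 (@Lb.r r359 (@Lb.g g6 (@Lb.g g4 (@Lb.d (nat_lit 5) (nat_lit 0) (nat_lit 1) (@Lb.r r25 (@Lb.fm (nat_lit 3) t68)))))))))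
noncomputable def l31296 : Lb := (@Lb.d (nat_lit 1) (nat_lit 2) (nat_lit 73) (@Lb.g g8 (@Lb.g g9 (@Lb.g g10 (@Lb.g g11 (@Lb.r r2705 (@Lb.r r1687 (@Lb.r r578 (@Lb.r r1316 (@Lb.d (nat_lit 548) (nat_lit 161) (nat_lit 277) (@Lb.fm (nat_lit 9) t521)))))))))))
noncomputable def l31297 : Lb := (@Lb.r r21 (@Lb.d (nat_lit 257) (nat_lit 0) (nat_lit 2) (@Lb.g g8 (@Lb.g g10 (@Lb.r r2699 (@Lb.r r1610 (@Lb.r r145 (@Lb.d (nat_lit 598) (nat_lit 64) (nat_lit 25) (@Lb.fp (nat_lit 3) t1346)))))))))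
noncomputable def l31298 : Lb := (@Lb.d (nat_lit 132) (nat_lit 257) (nat_lit 128) (@Lb.g g8 (@Lb.g g5 (@Lb.g g11 (@Lb.r r324 (@Lb.r r2587 (@Lb.r r1540 (@Lb.d (nat_lit 538) (nat_lit 64) (nat_lit 394) (@Lb.t (@Lb.fm (nat_lit 9) t4646))))))))))
noncomputable def l31299 : Lb := (@Lb.d (nat_lit 602) (nat_lit 528) (nat_lit 133) (@Lb.r r2374 (@Lb.r r1160 (@Lb.r r343 (@Lb.g g7 (@Lb.g g6 (@Lb.g g5 (@Lb.g g4 (@Lb.d (nat_lit 1) (nat_lit 25) (nat_lit 128) (@Lb.fm (nat_lit 9) t2597))))))))))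
noncomputable def l31300 : Lb := (@Lb.d (nat_lit 146) (nat_lit 258) (nat_lit 64) (@Lb.g g8 (@Lb.g g9 (@Lb.g g10 (@Lb.g g11 (@Lb.r r427 (@Lb.r r2154 (@Lb.r r409 (@Lb.r r388 (@Lb.d (nat_lit 105) (nat_lit 90) (nat_lit 338) (@Lb.fp (nat_lit 9) t394)))))))))))
noncomputable def l31301 : Lb := (@Lb.r r21 (@Lb.d (nat_lit 130) (nat_lit 512) (nat_lit 129) (@Lb.g g8 (@Lb.g g10 (@Lb.g g11 (@Lb.r r2180 (@Lb.r r2694 (@Lb.r r1411 (@Lb.r r25 (@Lb.d (nat_lit 161) (nat_lit 0) (nat_lit 82) (@Lb.t (@Lb.fp (nat_lit 9) t1071))))))))))))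
noncomputable def l31302 : Lb := (@Lb.d (nat_lit 32) (nat_lit 520) (nat_lit 258) (@Lb.g g10 (@Lb.g g7 (@Lb.r r104 (@Lb.r r2153 (@Lb.r r2134 (@Lb.d (nat_lit 150) (nat_lit 5) (nat_lit 290) (@Lb.fp (nat_lit 3) t322))))))))
noncomputable def l31303 : Lb := (@Lb.d (nat_lit 8) (nat_lit 2) (nat_lit 130) (@Lb.g g9 (@Lb.g g10 (@Lb.g g11 (@Lb.r r1130 (@Lb.r r24 (@Lb.r r1685 (@Lb.r r1427 (@Lb.d (nat_lit 550) (nat_lit 88) (nat_lit 601) (@Lb.t (@Lb.fp (nat_lit 9) t1741)))))))))))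
noncomputable def l31304 : Lb := (@Lb.d (nat_lit 1) (nat_lit 258) (nat_lit 73) (@Lb.g g8 (@Lb.g g9 (@Lb.g g10 (@Lb.g g11 (@Lb.r r2666 (@Lb.r r579 (@Lb.r r97 (@Lb.r r24 (@Lb.d (nat_lit 426) (nat_lit 4) (nat_lit 358) (@Lb.fm (nat_lit 9) t61)))))))))))
noncomputable def l31305 : Lb := (@Lb.d (nat_lit 0) (nat_lit 34) (nat_lit 128) (@Lb.r r289 (@Lb.r r535 (@Lb.r r356 (@Lb.r r154 (@Lb.g g7 (@Lb.g g9 (@Lb.fm (nat_lit 3) t45))))))))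
noncomputable def l31306 : Lb := (@Lb.r r1045 (@Lb.d (nat_lit 666) (nat_lit 0) (nat_lit 128) (@Lb.g g8 (@Lb.g g10 (@Lb.g g11 (@Lb.r r387 (@Lb.r r90 (@Lb.d (nat_lit 600) (nat_lit 170) (nat_lit 9) (@Lb.t (@Lb.fm (nat_lit 9) t3197))))))))))
noncomputable def l31307 : Lb := (@Lb.r r1045 (@Lb.d (nat_lit 666) (nat_lit 0) (nat_lit 128) (@Lb.g g8 (@Lb.g g10 (@Lb.g g11 (@Lb.r r387 (@Lb.r r90 (@Lb.d (nat_lit 600) (nat_lit 104) (nat_lit 9) (@Lb.t (@Lb.fm (nat_lit 9) t3197))))))))))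
noncomputable def l31308 : Lb := (@Lb.d (nat_lit 2) (nat_lit 289) (nat_lit 130) (@Lb.g g8 (@Lb.g g9 (@Lb.g g10 (@Lb.g g11 (@Lb.r r2729 (@Lb.r r2347 (@Lb.r r2404 (@Lb.r r1610 (@Lb.d (nat_lit 337) (nat_lit 0) (nat_lit 409) (@Lb.fm (nat_lit 9) t981)))))))))))
noncomputable def l31309 : Lb := (@Lb.d (nat_lit 4) (nat_lit 320) (nat_lit 8) (@Lb.r r24 (@Lb.r r1426 (@Lb.g g11 (@Lb.g g9 (@Lb.d (nat_lit 0) (nat_lit 74) (nat_lit 384) (@Lb.r r578 (@Lb.fm (nat_lit 3) t749))))))))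
noncomputable def l31310 : Lb := (@Lb.d (nat_lit 1) (nat_lit 33) (nat_lit 4) (@Lb.g g8 (@Lb.g g9 (@Lb.g g10 (@Lb.g g11 (@Lb.r r1431 (@Lb.r r2665 (@Lb.r r2650 (@Lb.r r2628 (@Lb.d (nat_lit 392) (nat_lit 1) (nat_lit 425) (@Lb.fm (nat_lit 9) t5644)))))))))))
noncomputable def l31311 : Lb := (@Lb.r r21 (@Lb.r r70 (@Lb.r r2311 (@Lb.d (nat_lit 549) (nat_lit 256) (nat_lit 0) (@Lb.g g4 (@Lb.r r101 (@Lb.r r2450 (@Lb.d (nat_lit 609) (nat_lit 36) (nat_lit 256) (@Lb.t (@Lb.fm (nat_lit 3) t5645))))))))))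
noncomputable def l31312 : Lb := (@Lb.r r273 (@Lb.r r322 (@Lb.d (nat_lit 129) (nat_lit 528) (nat_lit 520) (@Lb.g g8 (@Lb.g g7 (@Lb.r r361 (@Lb.r r146 (@Lb.r r264 (@Lb.d (nat_lit 169) (nat_lit 134) (nat_lit 517) (@Lb.fm (nat_lit 3) t5646))))))))))
noncomputable def l31313 : Lb := (@Lb.d (nat_lit 0) (nat_lit 401) (nat_lit 674) (@Lb.r r2635 (@Lb.r r676 (@Lb.r r150 (@Lb.g g9 (@Lb.g g4 (@Lb.d (nat_lit 17) (nat_lit 70) (nat_lit 0) (@Lb.fp (nat_lit 3) t678))))))))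
noncomputable def l31314 : Lb := (@Lb.d (nat_lit 0) (nat_lit 641) (nat_lit 0) (@Lb.g g9 (@Lb.r r388 (@Lb.r r587 (@Lb.r r358 (@Lb.r r1668 (@Lb.d (nat_lit 0) (nat_lit 9) (nat_lit 86) (@Lb.t (@Lb.fm (nat_lit 3) t578)))))))))
noncomputable def l31315 : Lb := (@Lb.d (nat_lit 640) (nat_lit 512) (nat_lit 384) (@Lb.r r1048 (@Lb.r r97 (@Lb.r r402 (@Lb.r r2631 (@Lb.g g8 (@Lb.r r74 (@Lb.r r25 (@Lb.t (@Lb.fp (nat_lit 3) t1298))))))))))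
noncomputable def l31316 : Lb := (@Lb.d (nat_lit 2) (nat_lit 294) (nat_lit 64) (@Lb.g g8 (@Lb.g g9 (@Lb.g g10 (@Lb.g g11 (@Lb.r r2722 (@Lb.r r1415 (@Lb.r r2088 (@Lb.r r2201 (@Lb.d (nat_lit 282) (nat_lit 86) (nat_lit 86) (@Lb.fp (nat_lit 9) t510)))))))))))
noncomputable def l31317 : Lb := (@Lb.d (nat_lit 74) (nat_lit 529) (nat_lit 66) (@Lb.r r296 (@Lb.r r535 (@Lb.r r361 (@Lb.g g10 (@Lb.g g4 (@Lb.d (nat_lit 82) (nat_lit 8) (nat_lit 20) (@Lb.r r145 (@Lb.fm (nat_lit 3) t564)))))))))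
noncomputable def l31318 : Lb := (@Lb.d (nat_lit 642) (nat_lit 2) (nat_lit 66) (@Lb.g g8 (@Lb.g g9 (@Lb.g g10 (@Lb.g g11 (@Lb.r r1451 (@Lb.r r106 (@Lb.r r25 (@Lb.d (nat_lit 8) (nat_lit 9) (nat_lit 425) (@Lb.fp (nat_lit 9) t1792))))))))))
noncomputable def l31319 : Lb := (@Lb.d (nat_lit 2) (nat_lit 258) (nat_lit 2) (@Lb.g g8 (@Lb.g g9 (@Lb.g g10 (@Lb.r r427 (@Lb.r r386 (@Lb.r r97 (@Lb.r r24 (@Lb.d (nat_lit 256) (nat_lit 73) (nat_lit 649) (@Lb.t (@Lb.fp (nat_lit 9) t741)))))))))))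
noncomputable def l31320 : Lb := (@Lb.d (nat_lit 642) (nat_lit 514) (nat_lit 66) (@Lb.g g8 (@Lb.g g9 (@Lb.g g10 (@Lb.g g11 (@Lb.r r419 (@Lb.r r106 (@Lb.r r25 (@Lb.d (nat_lit 360) (nat_lit 9) (nat_lit 137) (@Lb.fp (nat_lit 9) t1792))))))))))
noncomputable def l31321 : Lb := (@Lb.r r21 (@Lb.d (nat_lit 645) (nat_lit 0) (nat_lit 66) (@Lb.g g8 (@Lb.g g10 (@Lb.g g11 (@Lb.r r2459 (@Lb.r r106 (@Lb.r r97 (@Lb.d (nat_lit 21) (nat_lit 104) (nat_lit 130) (@Lb.t (@Lb.fp (nat_lit 9) t1343)))))))))))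
noncomputable def l31322 : Lb := (@Lb.r r277 (@Lb.d (nat_lit 517) (nat_lit 264) (nat_lit 2) (@Lb.g g8 (@Lb.g g10 (@Lb.g g11 (@Lb.r r1411 (@Lb.r r101 (@Lb.r r1434 (@Lb.d (nat_lit 20) (nat_lit 90) (nat_lit 394) (@Lb.t (@Lb.fm (nat_lit 9) t2805)))))))))))
noncomputable def l31323 : Lb := (@Lb.d (nat_lit 2) (nat_lit 0) (nat_lit 73) (@Lb.g g8 (@Lb.g g5 (@Lb.g g10 (@Lb.g g11 (@Lb.r r2691 (@Lb.r r1178 (@Lb.r r24 (@Lb.d (nat_lit 138) (nat_lit 0) (nat_lit 424) (@Lb.fp (nat_lit 9) t282))))))))))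
noncomputable def l31324 : Lb := (@Lb.d (nat_lit 32) (nat_lit 0) (nat_lit 130) (@Lb.g g10 (@Lb.g g11 (@Lb.r r423 (@Lb.r r600 (@Lb.r r1429 (@Lb.r r406 (@Lb.d (nat_lit 106) (nat_lit 24) (nat_lit 537) (@Lb.fm (nat_lit 3) t1057)))))))))
noncomputable def l31325 : Lb := (@Lb.d (nat_lit 425) (nat_lit 520) (nat_lit 418) (@Lb.r r1109 (@Lb.r r2088 (@Lb.r r418 (@Lb.g g11 (@Lb.g g6 (@Lb.g g5 (@Lb.g g4 (@Lb.d (nat_lit 1) (nat_lit 18) (nat_lit 392) (@Lb.fm (nat_lit 9) t1343))))))))))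
noncomputable def l31326 : Lb := (@Lb.d (nat_lit 9) (nat_lit 128) (nat_lit 0) (@Lb.g g8 (@Lb.t (@Lb.fp (nat_lit 3) t2))))
noncomputable def l31327 : Lb := (@Lb.r r21 (@Lb.r r70 (@Lb.d (nat_lit 389) (nat_lit 256) (nat_lit 128) (@Lb.g g8 (@Lb.g g11 (@Lb.r r1419 (@Lb.r r1410 (@Lb.r r145 (@Lb.d (nat_lit 342) (nat_lit 72) (nat_lit 545) (@Lb.fp (nat_lit 3) t1383))))))))))
noncomputable def l31328 : Lb := (@Lb.r r323 (@Lb.d (nat_lit 2) (nat_lit 521) (nat_lit 1) (@Lb.g g8 (@Lb.g g9 (@Lb.g g10 (@Lb.r r2714 (@Lb.r r2600 (@Lb.r r2713 (@Lb.r r2587 (@Lb.d (nat_lit 130) (nat_lit 74) (nat_lit 585) (@Lb.t (@Lb.fp (nat_lit 9) t4938))))))))))))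
noncomputable def l31329 : Lb := (@Lb.d (nat_lit 20) (nat_lit 576) (nat_lit 601) (@Lb.r r24 (@Lb.r r1435 (@Lb.r r2458 (@Lb.r r597 (@Lb.g g7 (@Lb.d (nat_lit 0) (nat_lit 16) (nat_lit 132) (@Lb.t (@Lb.fm (nat_lit 3) t188)))))))))
noncomputable def l31330 : Lb := (@Lb.r r323 (@Lb.d (nat_lit 2) (nat_lit 297) (nat_lit 2) (@Lb.g g8 (@Lb.g g9 (@Lb.g g10 (@Lb.r r2474 (@Lb.r r2468 (@Lb.r r1307 (@Lb.r r2661 (@Lb.d (nat_lit 664) (nat_lit 24) (nat_lit 325) (@Lb.t (@Lb.fm (nat_lit 9) t2034))))))))))))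
noncomputable def l31331 : Lb := (@Lb.r r21 (@Lb.d (nat_lit 128) (nat_lit 0) (nat_lit 130) (@Lb.g g8 (@Lb.g g10 (@Lb.g g11 (@Lb.r r2587 (@Lb.r r386 (@Lb.r r97 (@Lb.r r1620 (@Lb.d (nat_lit 665) (nat_lit 66) (nat_lit 596) (@Lb.t (@Lb.fp (nat_lit 9) t509))))))))))))
noncomputable def l31332 : Lb := (@Lb.r r82 (@Lb.d (nat_lit 2) (nat_lit 545) (nat_lit 128) (@Lb.g g8 (@Lb.g g9 (@Lb.g g11 (@Lb.r r2475 (@Lb.r r386 (@Lb.r r1060 (@Lb.r r1173 (@Lb.d (nat_lit 74) (nat_lit 70) (nat_lit 512) (@Lb.t (@Lb.fp (nat_lit 9) t1383))))))))))))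
noncomputable def l31333 : Lb := (@Lb.d (nat_lit 128) (nat_lit 512) (nat_lit 644) (@Lb.g g11 (@Lb.r r2178 (@Lb.r r1304 (@Lb.r r2213 (@Lb.d (nat_lit 10) (nat_lit 134) (nat_lit 144) (@Lb.t (@Lb.fm (nat_lit 3) t5647))))))))
noncomputable def l31334 : Lb := (@Lb.r r82 (@Lb.d (nat_lit 68) (nat_lit 530) (nat_lit 64) (@Lb.g g8 (@Lb.g g9 (@Lb.g g11 (@Lb.r r615 (@Lb.r r386 (@Lb.r r1060 (@Lb.r r2213 (@Lb.d (nat_lit 577) (nat_lit 65) (nat_lit 514) (@Lb.t (@Lb.fp (nat_lit 9) t36))))))))))))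
noncomputable def l31335 : Lb := (@Lb.r r21 (@Lb.d (nat_lit 129) (nat_lit 520) (nat_lit 1) (@Lb.g g8 (@Lb.g g10 (@Lb.r r295 (@Lb.r r2129 (@Lb.r r2470 (@Lb.r r2648 (@Lb.d (nat_lit 164) (nat_lit 165) (nat_lit 170) (@Lb.fm (nat_lit 3) t430))))))))))
noncomputable def l31336 : Lb := (@Lb.d (nat_lit 128) (nat_lit 2) (nat_lit 130) (@Lb.g g8 (@Lb.g g9 (@Lb.g g10 (@Lb.g g11 (@Lb.r r419 (@Lb.r r2154 (@Lb.r r680 (@Lb.r r25 (@Lb.d (nat_lit 617) (nat_lit 149) (nat_lit 390) (@Lb.fm (nat_lit 9) t3353)))))))))))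
noncomputable def l31337 : Lb := (@Lb.d (nat_lit 9) (nat_lit 260) (nat_lit 128) (@Lb.g g8 (@Lb.g g9 (@Lb.g g10 (@Lb.g g11 (@Lb.r r676 (@Lb.r r2311 (@Lb.r r161 (@Lb.r r98 (@Lb.r r1540 (@Lb.d (nat_lit 2) (nat_lit 162) (nat_lit 642) (@Lb.fm (nat_lit 9) t233))))))))))))
noncomputable def l31338 : Lb := (@Lb.d (nat_lit 9) (nat_lit 516) (nat_lit 64) (@Lb.g g8 (@Lb.g g9 (@Lb.g g10 (@Lb.g g11 (@Lb.r r676 (@Lb.r r2311 (@Lb.r r161 (@Lb.r r98 (@Lb.r r1540 (@Lb.d (nat_lit 2) (nat_lit 162) (nat_lit 642) (@Lb.fm (nat_lit 9) t233))))))))))))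
noncomputable def l31339 : Lb := (@Lb.d (nat_lit 9) (nat_lit 4) (nat_lit 64) (@Lb.g g8 (@Lb.g g9 (@Lb.g g10 (@Lb.g g11 (@Lb.r r529 (@Lb.r r2391 (@Lb.r r1610 (@Lb.r r1169 (@Lb.r r2564 (@Lb.d (nat_lit 424) (nat_lit 65) (nat_lit 417) (@Lb.fp (nat_lit 9) t5648))))))))))))
noncomputable def l31340 : Lb := (@Lb.d (nat_lit 261) (nat_lit 258) (nat_lit 0) (@Lb.r r24 (@Lb.r r2138 (@Lb.g g5 (@Lb.d (nat_lit 4) (nat_lit 1) (nat_lit 0) (@Lb.t (@Lb.fp (nat_lit 3) t1221)))))))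
noncomputable def l31341 : Lb := (@Lb.d (nat_lit 0) (nat_lit 513) (nat_lit 2) (@Lb.g g9 (@Lb.g g10 (@Lb.r r2474 (@Lb.r r153 (@Lb.d (nat_lit 25) (nat_lit 98) (nat_lit 530) (@Lb.fp (nat_lit 3) t543)))))))
noncomputable def l31342 : Lb := (@Lb.d (nat_lit 8) (nat_lit 514) (nat_lit 4) (@Lb.g g9 (@Lb.g g10 (@Lb.g g11 (@Lb.r r419 (@Lb.r r386 (@Lb.d (nat_lit 2) (nat_lit 137) (nat_lit 393) (@Lb.t (@Lb.fp (nat_lit 9) t51)))))))))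
noncomputable def l31343 : Lb := (@Lb.d (nat_lit 8) (nat_lit 2) (nat_lit 130) (@Lb.g g9 (@Lb.g g10 (@Lb.g g11 (@Lb.r r419 (@Lb.r r386 (@Lb.d (nat_lit 2) (nat_lit 137) (nat_lit 393) (@Lb.t (@Lb.fp (nat_lit 9) t51)))))))))
noncomputable def l31344 : Lb := (@Lb.r r70 (@Lb.g g8 (@Lb.g g5 (@Lb.r r1556 (@Lb.r r343 (@Lb.r r673 (@Lb.r r610 (@Lb.d (nat_lit 0) (nat_lit 640) (nat_lit 101) (@Lb.fm (nat_lit 3) t5649)))))))))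
noncomputable def l31345 : Lb := (@Lb.r r70 (@Lb.g g8 (@Lb.g g5 (@Lb.r r1317 (@Lb.r r1563 (@Lb.r r644 (@Lb.r r2182 (@Lb.d (nat_lit 0) (nat_lit 266) (nat_lit 290) (@Lb.fm (nat_lit 3) t5650)))))))))
noncomputable def l31346 : Lb := (@Lb.r r70 (@Lb.g g8 (@Lb.g g5 (@Lb.g g7 (@Lb.r r1317 (@Lb.r r1563 (@Lb.r r644 (@Lb.r r2182 (@Lb.d (nat_lit 0) (nat_lit 0) (nat_lit 288) (@Lb.t (@Lb.fp (nat_lit 9) t5650)))))))))))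
noncomputable def l31347 : Lb := (@Lb.r r70 (@Lb.g g8 (@Lb.g g5 (@Lb.r r1317 (@Lb.r r1563 (@Lb.r r644 (@Lb.r r2182 (@Lb.d (nat_lit 0) (nat_lit 0) (nat_lit 288) (@Lb.fm (nat_lit 3) t5650)))))))))
noncomputable def l31348 : Lb := (@Lb.r r70 (@Lb.g g8 (@Lb.r r1317 (@Lb.r r1563 (@Lb.r r644 (@Lb.r r2182 (@Lb.d (nat_lit 2) (nat_lit 512) (nat_lit 288) (@Lb.t (@Lb.fm (nat_lit 3) t4963)))))))))
noncomputable def l31349 : Lb := (@Lb.d (nat_lit 34) (nat_lit 1) (nat_lit 1) (@Lb.g g8 (@Lb.g g9 (@Lb.g g10 (@Lb.r r1700 (@Lb.r r423 (@Lb.r r401 (@Lb.r r402 (@Lb.d (nat_lit 0) (nat_lit 106) (nat_lit 585) (@Lb.t (@Lb.fp (nat_lit 9) t5649)))))))))))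
noncomputable def l31350 : Lb := (@Lb.d (nat_lit 9) (nat_lit 513) (nat_lit 73) (@Lb.g g8 (@Lb.g g9 (@Lb.g g10 (@Lb.g g11 (@Lb.r r586 (@Lb.r r40 (@Lb.r r1433 (@Lb.r r2343 (@Lb.r r1540 (@Lb.d (nat_lit 89) (nat_lit 65) (nat_lit 408) (@Lb.fm (nat_lit 9) t1025))))))))))))
noncomputable def l31351 : Lb := (@Lb.d (nat_lit 9) (nat_lit 1) (nat_lit 130) (@Lb.g g8 (@Lb.g g9 (@Lb.g g10 (@Lb.g g11 (@Lb.r r586 (@Lb.r r40 (@Lb.r r1433 (@Lb.r r2343 (@Lb.r r1540 (@Lb.d (nat_lit 82) (nat_lit 66) (nat_lit 408) (@Lb.fm (nat_lit 9) t1025))))))))))))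
noncomputable def l31352 : Lb := (@Lb.r r323 (@Lb.d (nat_lit 1) (nat_lit 265) (nat_lit 0) (@Lb.g g8 (@Lb.g g9 (@Lb.g g6 (@Lb.r r515 (@Lb.r r2153 (@Lb.r r36 (@Lb.d (nat_lit 297) (nat_lit 2) (nat_lit 2) (@Lb.t (@Lb.fp (nat_lit 9) t1043)))))))))))
noncomputable def l31353 : Lb := (@Lb.r r323 (@Lb.d (nat_lit 2) (nat_lit 521) (nat_lit 0) (@Lb.g g8 (@Lb.g g9 (@Lb.g g6 (@Lb.r r515 (@Lb.r r2153 (@Lb.r r36 (@Lb.d (nat_lit 290) (nat_lit 0) (nat_lit 2) (@Lb.t (@Lb.fp (nat_lit 9) t1043)))))))))))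
noncomputable def l31354 : Lb := (@Lb.d (nat_lit 8) (nat_lit 289) (nat_lit 64) (@Lb.g g9 (@Lb.g g11 (@Lb.r r1352 (@Lb.r r1367 (@Lb.r r1625 (@Lb.d (nat_lit 618) (nat_lit 74) (nat_lit 408) (@Lb.fp (nat_lit 3) t1044))))))))
noncomputable def l31355 : Lb := (@Lb.r r68 (@Lb.r r323 (@Lb.d (nat_lit 16) (nat_lit 553) (nat_lit 1) (@Lb.g g9 (@Lb.g g10 (@Lb.r r599 (@Lb.r r297 (@Lb.r r2312 (@Lb.d (nat_lit 168) (nat_lit 130) (nat_lit 662) (@Lb.fp (nat_lit 3) t4457))))))))))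
noncomputable def l31356 : Lb := (@Lb.g g4 (@Lb.g g5 (@Lb.g g7 (@Lb.d (nat_lit 0) (nat_lit 256) (nat_lit 69) (@Lb.t (@Lb.fp (nat_lit 9) t2))))))
noncomputable def l31357 : Lb := (@Lb.d (nat_lit 2) (nat_lit 1) (nat_lit 0) (@Lb.g g8 (@Lb.g g9 (@Lb.r r579 (@Lb.r r2089 (@Lb.r r36 (@Lb.d (nat_lit 265) (nat_lit 2) (nat_lit 16) (@Lb.fm (nat_lit 3) t2))))))))
noncomputable def l31358 : Lb := (@Lb.d (nat_lit 2) (nat_lit 265) (nat_lit 129) (@Lb.g g8 (@Lb.g g9 (@Lb.g g10 (@Lb.g g11 (@Lb.r r642 (@Lb.r r387 (@Lb.r r2153 (@Lb.r r36 (@Lb.d (nat_lit 297) (nat_lit 2) (nat_lit 66) (@Lb.fp (nat_lit 9) t1799)))))))))))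
noncomputable def l31359 : Lb := (@Lb.d (nat_lit 0) (nat_lit 516) (nat_lit 64) (@Lb.g g8 (@Lb.g g9 (@Lb.g g10 (@Lb.g g7 (@Lb.r r161 (@Lb.r r418 (@Lb.r r2193 (@Lb.r r2436 (@Lb.d (nat_lit 610) (nat_lit 74) (nat_lit 148) (@Lb.fm (nat_lit 9) t5651)))))))))))
noncomputable def l31360 : Lb := (@Lb.d (nat_lit 96) (nat_lit 677) (nat_lit 329) (@Lb.r r2138 (@Lb.r r2116 (@Lb.r r347 (@Lb.g g7 (@Lb.g g6 (@Lb.g g5 (@Lb.d (nat_lit 4) (nat_lit 153) (nat_lit 5) (@Lb.t (@Lb.fp (nat_lit 9) t5651))))))))))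
noncomputable def l31361 : Lb := (@Lb.d (nat_lit 662) (nat_lit 537) (nat_lit 85) (@Lb.r r600 (@Lb.r r614 (@Lb.r r345 (@Lb.r r515 (@Lb.g g4 (@Lb.d (nat_lit 10) (nat_lit 0) (nat_lit 0) (@Lb.t (@Lb.fm (nat_lit 3) t3971)))))))))
noncomputable def l31362 : Lb := (@Lb.d (nat_lit 392) (nat_lit 4) (nat_lit 17) (@Lb.r r81 (@Lb.r r102 (@Lb.r r597 (@Lb.r r2387 (@Lb.g g7 (@Lb.g g6 (@Lb.g g5 (@Lb.g g8 (@Lb.d (nat_lit 1) (nat_lit 1) (nat_lit 65) (@Lb.fm (nat_lit 9) t2914)))))))))))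
noncomputable def l31363 : Lb := (@Lb.r r82 (@Lb.d (nat_lit 0) (nat_lit 326) (nat_lit 64) (@Lb.g g8 (@Lb.g g9 (@Lb.g g7 (@Lb.r r2442 (@Lb.r r2436 (@Lb.d (nat_lit 361) (nat_lit 97) (nat_lit 610) (@Lb.t (@Lb.fm (nat_lit 9) t5652))))))))))
noncomputable def l31364 : Lb := (@Lb.r r82 (@Lb.d (nat_lit 0) (nat_lit 70) (nat_lit 64) (@Lb.g g8 (@Lb.g g9 (@Lb.g g7 (@Lb.r r2442 (@Lb.r r2436 (@Lb.d (nat_lit 362) (nat_lit 97) (nat_lit 610) (@Lb.t (@Lb.fm (nat_lit 9) t5653))))))))))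
noncomputable def l31365 : Lb := (@Lb.d (nat_lit 0) (nat_lit 256) (nat_lit 130) (@Lb.g g8 (@Lb.g g10 (@Lb.g g11 (@Lb.r r602 (@Lb.r r1611 (@Lb.r r149 (@Lb.r r1608 (@Lb.d (nat_lit 550) (nat_lit 145) (nat_lit 98) (@Lb.t (@Lb.fm (nat_lit 9) t3176)))))))))))
noncomputable def l31366 : Lb := (@Lb.d (nat_lit 34) (nat_lit 512) (nat_lit 0) (@Lb.g g4 (@Lb.r r515 (@Lb.r r618 (@Lb.r r529 (@Lb.r r360 (@Lb.d (nat_lit 88) (nat_lit 38) (nat_lit 68) (@Lb.t (@Lb.fm (nat_lit 3) t242)))))))))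
noncomputable def l31367 : Lb := (@Lb.d (nat_lit 4) (nat_lit 512) (nat_lit 137) (@Lb.g g8 (@Lb.g g9 (@Lb.g g10 (@Lb.g g11 (@Lb.r r1675 (@Lb.r r536 (@Lb.r r2197 (@Lb.r r2646 (@Lb.r r164 (@Lb.d (nat_lit 392) (nat_lit 137) (nat_lit 361) (@Lb.fp (nat_lit 9) t3245))))))))))))
noncomputable def l31368 : Lb := (@Lb.d (nat_lit 32) (nat_lit 520) (nat_lit 128) (@Lb.g g10 (@Lb.g g11 (@Lb.r r1284 (@Lb.r r1643 (@Lb.r r1633 (@Lb.r r338 (@Lb.d (nat_lit 328) (nat_lit 132) (nat_lit 262) (@Lb.fm (nat_lit 3) t1495)))))))))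
noncomputable def l31369 : Lb := (@Lb.d (nat_lit 74) (nat_lit 288) (nat_lit 602) (@Lb.r r101 (@Lb.r r24 (@Lb.r r1362 (@Lb.r r2691 (@Lb.g g7 (@Lb.g g6 (@Lb.d (nat_lit 0) (nat_lit 0) (nat_lit 134) (@Lb.fp (nat_lit 3) t1900)))))))))
noncomputable def l31370 : Lb := (@Lb.d (nat_lit 73) (nat_lit 544) (nat_lit 602) (@Lb.r r101 (@Lb.r r24 (@Lb.r r1362 (@Lb.r r2691 (@Lb.g g7 (@Lb.g g6 (@Lb.d (nat_lit 0) (nat_lit 0) (nat_lit 134) (@Lb.fp (nat_lit 3) t1900)))))))))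
noncomputable def l31371 : Lb := (@Lb.d (nat_lit 152) (nat_lit 2) (nat_lit 73) (@Lb.g g8 (@Lb.g g9 (@Lb.g g10 (@Lb.g g11 (@Lb.r r1707 (@Lb.r r676 (@Lb.r r2182 (@Lb.r r2145 (@Lb.d (nat_lit 288) (nat_lit 41) (nat_lit 385) (@Lb.fm (nat_lit 9) t3913)))))))))))
noncomputable def l31372 : Lb := (@Lb.d (nat_lit 0) (nat_lit 256) (nat_lit 136) (@Lb.g g11 (@Lb.r r101 (@Lb.r r402 (@Lb.r r24 (@Lb.d (nat_lit 101) (nat_lit 64) (nat_lit 90) (@Lb.t (@Lb.fm (nat_lit 3) t988))))))))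
noncomputable def l31373 : Lb := (@Lb.d (nat_lit 129) (nat_lit 16) (nat_lit 137) (@Lb.g g8 (@Lb.g g9 (@Lb.g g10 (@Lb.g g11 (@Lb.r r1706 (@Lb.r r1672 (@Lb.r r1563 (@Lb.r r2341 (@Lb.d (nat_lit 342) (nat_lit 154) (nat_lit 354) (@Lb.fp (nat_lit 9) t5654)))))))))))
noncomputable def l31374 : Lb := (@Lb.r r21 (@Lb.d (nat_lit 16) (nat_lit 0) (nat_lit 138) (@Lb.g g8 (@Lb.g g10 (@Lb.g g11 (@Lb.r r1674 (@Lb.r r1451 (@Lb.r r2661 (@Lb.r r1448 (@Lb.d (nat_lit 662) (nat_lit 38) (nat_lit 426) (@Lb.t (@Lb.fp (nat_lit 9) t495))))))))))))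
noncomputable def l31375 : Lb := (@Lb.d (nat_lit 128) (nat_lit 256) (nat_lit 64) (@Lb.g g11 (@Lb.r r2585 (@Lb.r r2712 (@Lb.r r1370 (@Lb.r r679 (@Lb.d (nat_lit 425) (nat_lit 22) (nat_lit 405) (@Lb.t (@Lb.fp (nat_lit 3) t3147)))))))))
noncomputable def l31376 : Lb := (@Lb.r r322 (@Lb.d (nat_lit 0) (nat_lit 288) (nat_lit 128) (@Lb.g g11 (@Lb.r r24 (@Lb.r r357 (@Lb.r r1626 (@Lb.d (nat_lit 24) (nat_lit 2) (nat_lit 277) (@Lb.t (@Lb.fp (nat_lit 3) t3207)))))))))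
noncomputable def l31377 : Lb := (@Lb.g g8 (@Lb.g g5 (@Lb.g g7 (@Lb.r r532 (@Lb.r r2711 (@Lb.r r2178 (@Lb.r r2473 (@Lb.r r2084 (@Lb.d (nat_lit 322) (nat_lit 512) (nat_lit 16) (@Lb.t (@Lb.fp (nat_lit 9) t64)))))))))))
noncomputable def l31378 : Lb := (@Lb.r r21 (@Lb.r r326 (@Lb.d (nat_lit 390) (nat_lit 288) (nat_lit 128) (@Lb.g g8 (@Lb.g g11 (@Lb.r r586 (@Lb.r r25 (@Lb.d (nat_lit 512) (nat_lit 9) (nat_lit 258) (@Lb.fm (nat_lit 3) t1354)))))))))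
noncomputable def l31379 : Lb := (@Lb.r r21 (@Lb.d (nat_lit 2) (nat_lit 256) (nat_lit 0) (@Lb.g g8 (@Lb.g g7 (@Lb.r r1429 (@Lb.r r402 (@Lb.r r2180 (@Lb.d (nat_lit 34) (nat_lit 5) (nat_lit 613) (@Lb.fm (nat_lit 3) t4213)))))))))
noncomputable def l31380 : Lb := (@Lb.d (nat_lit 32) (nat_lit 2) (nat_lit 73) (@Lb.g g9 (@Lb.g g10 (@Lb.g g11 (@Lb.r r2695 (@Lb.r r1352 (@Lb.r r2182 (@Lb.r r1313 (@Lb.d (nat_lit 129) (nat_lit 138) (nat_lit 582) (@Lb.t (@Lb.fm (nat_lit 9) t5655)))))))))))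
noncomputable def l31381 : Lb := (@Lb.d (nat_lit 2) (nat_lit 265) (nat_lit 73) (@Lb.g g8 (@Lb.g g9 (@Lb.g g10 (@Lb.g g11 (@Lb.r r1194 (@Lb.r r1444 (@Lb.r r2331 (@Lb.r r1553 (@Lb.d (nat_lit 554) (nat_lit 98) (nat_lit 601) (@Lb.fm (nat_lit 9) t957)))))))))))
noncomputable def l31382 : Lb := (@Lb.r r21 (@Lb.d (nat_lit 2) (nat_lit 512) (nat_lit 0) (@Lb.g g8 (@Lb.g g7 (@Lb.r r1429 (@Lb.r r402 (@Lb.r r2180 (@Lb.d (nat_lit 34) (nat_lit 5) (nat_lit 544) (@Lb.fm (nat_lit 3) t1875)))))))))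
noncomputable def l31383 : Lb := (@Lb.d (nat_lit 256) (nat_lit 521) (nat_lit 74) (@Lb.r r24 (@Lb.r r2394 (@Lb.g g11 (@Lb.g g9 (@Lb.d (nat_lit 8) (nat_lit 161) (nat_lit 324) (@Lb.r r578 (@Lb.fp (nat_lit 3) t1446))))))))
noncomputable def l31384 : Lb := (@Lb.d (nat_lit 657) (nat_lit 42) (nat_lit 70) (@Lb.r r81 (@Lb.r r331 (@Lb.r r678 (@Lb.g g7 (@Lb.g g6 (@Lb.g g5 (@Lb.g g8 (@Lb.d (nat_lit 612) (nat_lit 2) (nat_lit 64) (@Lb.fp (nat_lit 9) t5656))))))))))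
noncomputable def l31385 : Lb := (@Lb.d (nat_lit 36) (nat_lit 321) (nat_lit 0) (@Lb.r r289 (@Lb.r r343 (@Lb.r r2690 (@Lb.g g7 (@Lb.g g6 (@Lb.g g8 (@Lb.d (nat_lit 354) (nat_lit 0) (nat_lit 8) (@Lb.r r537 (@Lb.t (@Lb.fm (nat_lit 9) t1039)))))))))))
noncomputable def l31386 : Lb := (@Lb.d (nat_lit 9) (nat_lit 9) (nat_lit 130) (@Lb.g g8 (@Lb.g g9 (@Lb.g g10 (@Lb.g g11 (@Lb.r r1579 (@Lb.r r81 (@Lb.r r162 (@Lb.r r145 (@Lb.r r1608 (@Lb.d (nat_lit 97) (nat_lit 10) (nat_lit 536) (@Lb.fm (nat_lit 9) t1109))))))))))))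
noncomputable def l31387 : Lb := (@Lb.d (nat_lit 136) (nat_lit 521) (nat_lit 256) (@Lb.g g9 (@Lb.g g7 (@Lb.d (nat_lit 73) (nat_lit 2) (nat_lit 578) (@Lb.fp (nat_lit 3) t5657)))))
noncomputable def l31388 : Lb := (@Lb.d (nat_lit 2) (nat_lit 545) (nat_lit 73) (@Lb.g g8 (@Lb.g g9 (@Lb.g g10 (@Lb.g g11 (@Lb.r r1634 (@Lb.r r552 (@Lb.r r617 (@Lb.r r2347 (@Lb.r r2084 (@Lb.d (nat_lit 133) (nat_lit 8) (nat_lit 345) (@Lb.fp (nat_lit 9) t2545))))))))))))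
noncomputable def l31389 : Lb := (@Lb.d (nat_lit 9) (nat_lit 265) (nat_lit 0) (@Lb.g g8 (@Lb.g g9 (@Lb.r r36 (@Lb.d (nat_lit 8) (nat_lit 1) (nat_lit 2) (@Lb.fm (nat_lit 3) t167))))))
noncomputable def l31390 : Lb := (@Lb.d (nat_lit 598) (nat_lit 361) (nat_lit 346) (@Lb.r r1704 (@Lb.r r2390 (@Lb.g g7 (@Lb.g g5 (@Lb.g g4 (@Lb.d (nat_lit 136) (nat_lit 20) (nat_lit 4) (@Lb.r r614 (@Lb.t (@Lb.fm (nat_lit 9) t545))))))))))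
noncomputable def l31391 : Lb := (@Lb.d (nat_lit 128) (nat_lit 258) (nat_lit 73) (@Lb.g g8 (@Lb.g g9 (@Lb.g g10 (@Lb.g g11 (@Lb.r r419 (@Lb.r r1702 (@Lb.r r344 (@Lb.r r1429 (@Lb.r r1060 (@Lb.d (nat_lit 10) (nat_lit 166) (nat_lit 641) (@Lb.fp (nat_lit 9) t2106))))))))))))
noncomputable def l31392 : Lb := (@Lb.d (nat_lit 2) (nat_lit 289) (nat_lit 73) (@Lb.g g8 (@Lb.g g9 (@Lb.g g10 (@Lb.g g11 (@Lb.r r1634 (@Lb.r r552 (@Lb.r r617 (@Lb.r r2347 (@Lb.r r2084 (@Lb.d (nat_lit 134) (nat_lit 8) (nat_lit 345) (@Lb.fp (nat_lit 9) t2545))))))))))))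
noncomputable def l31393 : Lb := (@Lb.d (nat_lit 104) (nat_lit 289) (nat_lit 72) (@Lb.g g8 (@Lb.g g9 (@Lb.g g6 (@Lb.g g11 (@Lb.r r324 (@Lb.r r555 (@Lb.r r553 (@Lb.r r1572 (@Lb.d (nat_lit 662) (nat_lit 66) (nat_lit 648) (@Lb.fm (nat_lit 9) t3617)))))))))))
noncomputable def l31394 : Lb := (@Lb.d (nat_lit 9) (nat_lit 257) (nat_lit 73) (@Lb.g g8 (@Lb.g g9 (@Lb.g g10 (@Lb.g g11 (@Lb.r r427 (@Lb.r r297 (@Lb.r r104 (@Lb.r r70 (@Lb.r r132 (@Lb.d (nat_lit 4) (nat_lit 148) (nat_lit 70) (@Lb.fp (nat_lit 9) t119))))))))))))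
noncomputable def l31395 : Lb := (@Lb.d (nat_lit 9) (nat_lit 289) (nat_lit 130) (@Lb.g g8 (@Lb.g g9 (@Lb.g g10 (@Lb.g g11 (@Lb.r r2721 (@Lb.r r2343 (@Lb.r r1668 (@Lb.r r1158 (@Lb.d (nat_lit 258) (nat_lit 8) (nat_lit 168) (@Lb.fp (nat_lit 9) t85)))))))))))
noncomputable def l31396 : Lb := (@Lb.d (nat_lit 104) (nat_lit 33) (nat_lit 72) (@Lb.g g8 (@Lb.g g9 (@Lb.g g6 (@Lb.g g11 (@Lb.r r2657 (@Lb.r r2343 (@Lb.r r1604 (@Lb.d (nat_lit 648) (nat_lit 136) (nat_lit 682) (@Lb.fp (nat_lit 9) t5658))))))))))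
noncomputable def l31397 : Lb := (@Lb.d (nat_lit 2) (nat_lit 545) (nat_lit 66) (@Lb.g g8 (@Lb.g g9 (@Lb.g g10 (@Lb.g g11 (@Lb.r r2595 (@Lb.r r386 (@Lb.r r612 (@Lb.r r533 (@Lb.r r1060 (@Lb.d (nat_lit 650) (nat_lit 9) (nat_lit 601) (@Lb.fp (nat_lit 9) t3303))))))))))))
noncomputable def l31398 : Lb := (@Lb.d (nat_lit 130) (nat_lit 289) (nat_lit 2) (@Lb.g g8 (@Lb.g g5 (@Lb.g g10 (@Lb.r r1434 (@Lb.r r583 (@Lb.r r392 (@Lb.d (nat_lit 662) (nat_lit 97) (nat_lit 74) (@Lb.t (@Lb.fm (nat_lit 9) t2542))))))))))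
noncomputable def l31399 : Lb := (@Lb.d (nat_lit 0) (nat_lit 9) (nat_lit 128) (@Lb.g g9 (@Lb.g g7 (@Lb.r r1106 (@Lb.r r145 (@Lb.d (nat_lit 0) (nat_lit 0) (nat_lit 18) (@Lb.fp (nat_lit 3) t1487)))))))
noncomputable def l31400 : Lb := (@Lb.d (nat_lit 0) (nat_lit 289) (nat_lit 66) (@Lb.g g9 (@Lb.g g10 (@Lb.g g11 (@Lb.r r2595 (@Lb.r r386 (@Lb.r r1561 (@Lb.r r24 (@Lb.d (nat_lit 674) (nat_lit 5) (nat_lit 602) (@Lb.t (@Lb.fp (nat_lit 9) t5659)))))))))))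
noncomputable def l31401 : Lb := (@Lb.d (nat_lit 130) (nat_lit 545) (nat_lit 2) (@Lb.g g8 (@Lb.g g5 (@Lb.g g10 (@Lb.r r1434 (@Lb.r r583 (@Lb.r r392 (@Lb.d (nat_lit 657) (nat_lit 96) (nat_lit 74) (@Lb.t (@Lb.fm (nat_lit 9) t2542))))))))))
noncomputable def l31402 : Lb := (@Lb.r r21 (@Lb.d (nat_lit 10) (nat_lit 520) (nat_lit 162) (@Lb.g g8 (@Lb.g g10 (@Lb.g g11 (@Lb.r r1451 (@Lb.r r2661 (@Lb.r r1428 (@Lb.d (nat_lit 405) (nat_lit 137) (nat_lit 1) (@Lb.t (@Lb.fp (nat_lit 9) t968)))))))))))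
noncomputable def l31403 : Lb := (@Lb.d (nat_lit 6) (nat_lit 546) (nat_lit 130) (@Lb.g g8 (@Lb.g g9 (@Lb.g g10 (@Lb.g g11 (@Lb.r r387 (@Lb.r r1169 (@Lb.r r2454 (@Lb.r r36 (@Lb.d (nat_lit 660) (nat_lit 160) (nat_lit 68) (@Lb.fm (nat_lit 9) t4022)))))))))))
noncomputable def l31404 : Lb := (@Lb.r r21 (@Lb.d (nat_lit 128) (nat_lit 256) (nat_lit 73) (@Lb.g g8 (@Lb.g g10 (@Lb.g g11 (@Lb.r r1691 (@Lb.r r2585 (@Lb.r r1620 (@Lb.r r1610 (@Lb.d (nat_lit 664) (nat_lit 145) (nat_lit 89) (@Lb.t (@Lb.fp (nat_lit 9) t5660))))))))))))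
noncomputable def l31405 : Lb := (@Lb.d (nat_lit 21) (nat_lit 266) (nat_lit 677) (@Lb.r r24 (@Lb.r r386 (@Lb.r r1563 (@Lb.g g6 (@Lb.g g9 (@Lb.d (nat_lit 0) (nat_lit 160) (nat_lit 1) (@Lb.r r291 (@Lb.fm (nat_lit 3) t2185)))))))))
noncomputable def l31406 : Lb := (@Lb.d (nat_lit 16) (nat_lit 521) (nat_lit 677) (@Lb.r r24 (@Lb.r r386 (@Lb.r r1563 (@Lb.g g7 (@Lb.g g6 (@Lb.g g9 (@Lb.d (nat_lit 8) (nat_lit 161) (nat_lit 1) (@Lb.t (@Lb.fp (nat_lit 9) t1446))))))))))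
noncomputable def l31407 : Lb := (@Lb.d (nat_lit 21) (nat_lit 274) (nat_lit 664) (@Lb.r r2408 (@Lb.r r89 (@Lb.r r2390 (@Lb.g g7 (@Lb.g g6 (@Lb.g g4 (@Lb.d (nat_lit 4) (nat_lit 16) (nat_lit 577) (@Lb.r r529 (@Lb.t (@Lb.fm (nat_lit 9) t4734)))))))))))
noncomputable def l31408 : Lb := (@Lb.r r21 (@Lb.d (nat_lit 128) (nat_lit 512) (nat_lit 130) (@Lb.g g8 (@Lb.g g10 (@Lb.g g11 (@Lb.r r419 (@Lb.r r1172 (@Lb.r r2438 (@Lb.r r97 (@Lb.d (nat_lit 354) (nat_lit 41) (nat_lit 73) (@Lb.t (@Lb.fm (nat_lit 9) t3815))))))))))))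
noncomputable def l31409 : Lb := (@Lb.d (nat_lit 128) (nat_lit 0) (nat_lit 72) (@Lb.g g11 (@Lb.r r1418 (@Lb.r r1444 (@Lb.r r2645 (@Lb.r r1363 (@Lb.d (nat_lit 2) (nat_lit 86) (nat_lit 645) (@Lb.t (@Lb.fm (nat_lit 3) t2027)))))))))
noncomputable def l31410 : Lb := (@Lb.r r82 (@Lb.d (nat_lit 34) (nat_lit 514) (nat_lit 0) (@Lb.g g8 (@Lb.g g9 (@Lb.r r1571 (@Lb.r r582 (@Lb.r r2212 (@Lb.r r2661 (@Lb.d (nat_lit 153) (nat_lit 34) (nat_lit 320) (@Lb.fm (nat_lit 3) t5661))))))))))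
noncomputable def l31411 : Lb := (@Lb.r r21 (@Lb.d (nat_lit 33) (nat_lit 256) (nat_lit 73) (@Lb.g g8 (@Lb.g g10 (@Lb.g g11 (@Lb.r r2721 (@Lb.r r619 (@Lb.r r1162 (@Lb.r r2372 (@Lb.d (nat_lit 298) (nat_lit 138) (nat_lit 617) (@Lb.t (@Lb.fp (nat_lit 9) t789))))))))))))
noncomputable def l31412 : Lb := (@Lb.d (nat_lit 145) (nat_lit 96) (nat_lit 596) (@Lb.r r1044 (@Lb.r r1641 (@Lb.g g10 (@Lb.g g5 (@Lb.g g4 (@Lb.d (nat_lit 25) (nat_lit 1) (nat_lit 40) (@Lb.r r2439 (@Lb.t (@Lb.fp (nat_lit 9) t5662))))))))))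
noncomputable def l31413 : Lb := (@Lb.d (nat_lit 144) (nat_lit 265) (nat_lit 130) (@Lb.g g8 (@Lb.g g9 (@Lb.g g10 (@Lb.g g11 (@Lb.r r2723 (@Lb.r r1194 (@Lb.r r2657 (@Lb.r r408 (@Lb.d (nat_lit 297) (nat_lit 100) (nat_lit 132) (@Lb.fp (nat_lit 9) t5095)))))))))))
noncomputable def l31414 : Lb := (@Lb.d (nat_lit 9) (nat_lit 2) (nat_lit 130) (@Lb.g g8 (@Lb.g g9 (@Lb.g g10 (@Lb.g g11 (@Lb.r r419 (@Lb.r r2122 (@Lb.r r1317 (@Lb.d (nat_lit 289) (nat_lit 74) (nat_lit 33) (@Lb.fm (nat_lit 9) t1089))))))))))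
noncomputable def l31415 : Lb := (@Lb.d (nat_lit 146) (nat_lit 521) (nat_lit 130) (@Lb.g g8 (@Lb.g g9 (@Lb.g g10 (@Lb.g g11 (@Lb.r r2729 (@Lb.r r2475 (@Lb.r r1418 (@Lb.r r2340 (@Lb.d (nat_lit 22) (nat_lit 68) (nat_lit 417) (@Lb.fp (nat_lit 9) t5663)))))))))))
noncomputable def l31416 : Lb := (@Lb.d (nat_lit 145) (nat_lit 96) (nat_lit 362) (@Lb.r r1044 (@Lb.r r1641 (@Lb.r r1410 (@Lb.g g11 (@Lb.g g6 (@Lb.g g5 (@Lb.g g4 (@Lb.d (nat_lit 153) (nat_lit 1) (nat_lit 262) (@Lb.fm (nat_lit 9) t2183))))))))))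
noncomputable def l31417 : Lb := (@Lb.r r82 (@Lb.d (nat_lit 134) (nat_lit 256) (nat_lit 128) (@Lb.g g8 (@Lb.g g9 (@Lb.g g11 (@Lb.r r2723 (@Lb.r r392 (@Lb.r r2394 (@Lb.r r1705 (@Lb.d (nat_lit 386) (nat_lit 134) (nat_lit 133) (@Lb.t (@Lb.fp (nat_lit 9) t5664))))))))))))
noncomputable def l31418 : Lb := (@Lb.r r323 (@Lb.d (nat_lit 2) (nat_lit 0) (nat_lit 10) (@Lb.g g8 (@Lb.g g10 (@Lb.r r1579 (@Lb.r r676 (@Lb.r r2630 (@Lb.r r1057 (@Lb.d (nat_lit 406) (nat_lit 138) (nat_lit 393) (@Lb.fm (nat_lit 3) t632))))))))))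
noncomputable def l31419 : Lb := (@Lb.d (nat_lit 522) (nat_lit 130) (nat_lit 64) (@Lb.r r2580 (@Lb.r r2329 (@Lb.g g7 (@Lb.d (nat_lit 64) (nat_lit 0) (nat_lit 576) (@Lb.t (@Lb.fm (nat_lit 3) t4646)))))))
noncomputable def l31420 : Lb := (@Lb.d (nat_lit 2) (nat_lit 514) (nat_lit 130) (@Lb.g g8 (@Lb.g g9 (@Lb.g g10 (@Lb.g g11 (@Lb.r r427 (@Lb.r r145 (@Lb.r r356 (@Lb.r r154 (@Lb.r r132 (@Lb.d (nat_lit 0) (nat_lit 73) (nat_lit 146) (@Lb.fm (nat_lit 9) t4550))))))))))))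
noncomputable def l31421 : Lb := (@Lb.r r82 (@Lb.d (nat_lit 2) (nat_lit 289) (nat_lit 64) (@Lb.g g8 (@Lb.g g9 (@Lb.g g11 (@Lb.r r1633 (@Lb.r r2599 (@Lb.r r146 (@Lb.r r2120 (@Lb.d (nat_lit 18) (nat_lit 137) (nat_lit 329) (@Lb.t (@Lb.fm (nat_lit 9) t5665))))))))))))
noncomputable def l31422 : Lb := (@Lb.d (nat_lit 0) (nat_lit 256) (nat_lit 145) (@Lb.g g9 (@Lb.g g10 (@Lb.g g11 (@Lb.r r1419 (@Lb.r r1557 (@Lb.r r1416 (@Lb.d (nat_lit 529) (nat_lit 0) (nat_lit 17) (@Lb.t (@Lb.fp (nat_lit 9) t1743))))))))))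
noncomputable def l31423 : Lb := (@Lb.r r322 (@Lb.d (nat_lit 2) (nat_lit 514) (nat_lit 576) (@Lb.g g8 (@Lb.g g9 (@Lb.g g7 (@Lb.r r1320 (@Lb.r r1449 (@Lb.r r1130 (@Lb.d (nat_lit 354) (nat_lit 90) (nat_lit 548) (@Lb.t (@Lb.fp (nat_lit 9) t5666)))))))))))
noncomputable def l31424 : Lb := (@Lb.d (nat_lit 164) (nat_lit 0) (nat_lit 129) (@Lb.g g8 (@Lb.g g9 (@Lb.g g10 (@Lb.g g11 (@Lb.r r1675 (@Lb.r r613 (@Lb.r r666 (@Lb.r r88 (@Lb.d (nat_lit 405) (nat_lit 8) (nat_lit 84) (@Lb.fp (nat_lit 9) t5667)))))))))))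
noncomputable def l31425 : Lb := (@Lb.d (nat_lit 105) (nat_lit 37) (nat_lit 578) (@Lb.g g8 (@Lb.g g9 (@Lb.g g10 (@Lb.g g7 (@Lb.r r1410 (@Lb.r r341 (@Lb.r r276 (@Lb.d (nat_lit 593) (nat_lit 41) (nat_lit 677) (@Lb.fp (nat_lit 9) t5668))))))))))
noncomputable def l31426 : Lb := (@Lb.d (nat_lit 6) (nat_lit 512) (nat_lit 137) (@Lb.g g8 (@Lb.g g9 (@Lb.g g10 (@Lb.g g11 (@Lb.r r1675 (@Lb.r r145 (@Lb.r r594 (@Lb.r r1169 (@Lb.r r36 (@Lb.d (nat_lit 297) (nat_lit 165) (nat_lit 586) (@Lb.fm (nat_lit 9) t445))))))))))))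
noncomputable def l31427 : Lb := (@Lb.d (nat_lit 0) (nat_lit 256) (nat_lit 528) (@Lb.r r2182 (@Lb.r r324 (@Lb.r r1563 (@Lb.r r1317 (@Lb.g g11 (@Lb.g g9 (@Lb.g g4 (@Lb.r r74 (@Lb.t (@Lb.fm (nat_lit 9) t5669)))))))))))
noncomputable def l31428 : Lb := (@Lb.d (nat_lit 0) (nat_lit 512) (nat_lit 72) (@Lb.g g11 (@Lb.d (nat_lit 618) (nat_lit 2) (nat_lit 530) (@Lb.t (@Lb.fp (nat_lit 3) t698)))))
noncomputable def l31429 : Lb := (@Lb.d (nat_lit 85) (nat_lit 8) (nat_lit 33) (@Lb.r r597 (@Lb.r r682 (@Lb.r r420 (@Lb.r r347 (@Lb.g g7 (@Lb.g g6 (@Lb.d (nat_lit 16) (nat_lit 0) (nat_lit 65) (@Lb.fp (nat_lit 3) t714)))))))))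
noncomputable def l31430 : Lb := (@Lb.d (nat_lit 0) (nat_lit 288) (nat_lit 72) (@Lb.g g11 (@Lb.r r409 (@Lb.r r2458 (@Lb.r r2407 (@Lb.r r24 (@Lb.d (nat_lit 41) (nat_lit 128) (nat_lit 422) (@Lb.t (@Lb.fp (nat_lit 3) t1639)))))))))
noncomputable def l31431 : Lb := (@Lb.d (nat_lit 9) (nat_lit 294) (nat_lit 64) (@Lb.g g8 (@Lb.g g9 (@Lb.g g10 (@Lb.g g11 (@Lb.r r1707 (@Lb.r r2724 (@Lb.r r2214 (@Lb.r r2193 (@Lb.d (nat_lit 258) (nat_lit 138) (nat_lit 153) (@Lb.fp (nat_lit 9) t428)))))))))))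
noncomputable def l31432 : Lb := (@Lb.d (nat_lit 0) (nat_lit 0) (nat_lit 136) (@Lb.g g11 (@Lb.r r24 (@Lb.r r101 (@Lb.d (nat_lit 0) (nat_lit 2) (nat_lit 128) (@Lb.t (@Lb.fp (nat_lit 3) t87)))))))
noncomputable def l31433 : Lb := (@Lb.d (nat_lit 6) (nat_lit 512) (nat_lit 130) (@Lb.g g8 (@Lb.g g9 (@Lb.g g10 (@Lb.g g11 (@Lb.r r582 (@Lb.r r388 (@Lb.r r1323 (@Lb.r r1433 (@Lb.d (nat_lit 277) (nat_lit 134) (nat_lit 274) (@Lb.fp (nat_lit 9) t1233)))))))))))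
noncomputable def l31434 : Lb := (@Lb.d (nat_lit 2) (nat_lit 514) (nat_lit 130) (@Lb.g g8 (@Lb.g g9 (@Lb.g g10 (@Lb.g g11 (@Lb.r r427 (@Lb.r r424 (@Lb.r r106 (@Lb.r r97 (@Lb.d (nat_lit 610) (nat_lit 90) (nat_lit 148) (@Lb.fp (nat_lit 9) t171)))))))))))
noncomputable def l31435 : Lb := (@Lb.d (nat_lit 2) (nat_lit 258) (nat_lit 130) (@Lb.g g8 (@Lb.g g9 (@Lb.g g10 (@Lb.g g11 (@Lb.r r427 (@Lb.r r424 (@Lb.r r106 (@Lb.r r97 (@Lb.d (nat_lit 610) (nat_lit 90) (nat_lit 25) (@Lb.fp (nat_lit 9) t171)))))))))))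
noncomputable def l31436 : Lb := (@Lb.d (nat_lit 6) (nat_lit 0) (nat_lit 130) (@Lb.g g8 (@Lb.g g9 (@Lb.g g10 (@Lb.g g11 (@Lb.r r582 (@Lb.r r599 (@Lb.r r420 (@Lb.r r293 (@Lb.d (nat_lit 616) (nat_lit 70) (nat_lit 17) (@Lb.fp (nat_lit 9) t5670)))))))))))
noncomputable def l31437 : Lb := (@Lb.d (nat_lit 162) (nat_lit 258) (nat_lit 0) (@Lb.g g8 (@Lb.g g9 (@Lb.r r2595 (@Lb.r r1110 (@Lb.r r2217 (@Lb.r r424 (@Lb.d (nat_lit 89) (nat_lit 36) (nat_lit 330) (@Lb.fp (nat_lit 3) t284)))))))))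
noncomputable def l31438 : Lb := (@Lb.r r101 (@Lb.d (nat_lit 657) (nat_lit 90) (nat_lit 512) (@Lb.fm (nat_lit 1) t5671)))
noncomputable def l31439 : Lb := (@Lb.r r323 (@Lb.d (nat_lit 8) (nat_lit 34) (nat_lit 10) (@Lb.g g9 (@Lb.g g10 (@Lb.r r536 (@Lb.r r283 (@Lb.r r1641 (@Lb.r r1110 (@Lb.d (nat_lit 529) (nat_lit 10) (nat_lit 274) (@Lb.fm (nat_lit 3) t564))))))))))
noncomputable def l31440 : Lb := (@Lb.d (nat_lit 0) (nat_lit 512) (nat_lit 66) (@Lb.g g10 (@Lb.g g11 (@Lb.r r2658 (@Lb.r r2659 (@Lb.d (nat_lit 0) (nat_lit 26) (nat_lit 362) (@Lb.fp (nat_lit 3) t334)))))))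
noncomputable def l31441 : Lb := (@Lb.r r532 (@Lb.d (nat_lit 32) (nat_lit 420) (nat_lit 0) (@Lb.g g9 (@Lb.g g10 (@Lb.g g11 (@Lb.r r2372 (@Lb.r r2475 (@Lb.r r1362 (@Lb.d (nat_lit 86) (nat_lit 16) (nat_lit 133) (@Lb.t (@Lb.fm (nat_lit 9) t1169)))))))))))
noncomputable def l31442 : Lb := (@Lb.r r21 (@Lb.d (nat_lit 657) (nat_lit 512) (nat_lit 132) (@Lb.g g4 (@Lb.g g10 (@Lb.g g11 (@Lb.r r2691 (@Lb.r r2198 (@Lb.r r97 (@Lb.d (nat_lit 72) (nat_lit 161) (nat_lit 5) (@Lb.t (@Lb.fm (nat_lit 9) t1547)))))))))))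
noncomputable def l31443 : Lb := (@Lb.d (nat_lit 128) (nat_lit 257) (nat_lit 0) (@Lb.g g8 (@Lb.g g9 (@Lb.r r291 (@Lb.r r1174 (@Lb.r r2153 (@Lb.r r2664 (@Lb.d (nat_lit 681) (nat_lit 152) (nat_lit 386) (@Lb.fp (nat_lit 3) t2580)))))))))
noncomputable def l31444 : Lb := (@Lb.d (nat_lit 528) (nat_lit 274) (nat_lit 329) (@Lb.r r391 (@Lb.r r1446 (@Lb.r r596 (@Lb.g g7 (@Lb.g g5 (@Lb.d (nat_lit 64) (nat_lit 129) (nat_lit 68) (@Lb.fp (nat_lit 3) t2326))))))))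
noncomputable def l31445 : Lb := (@Lb.r r21 (@Lb.d (nat_lit 128) (nat_lit 256) (nat_lit 73) (@Lb.g g8 (@Lb.g g10 (@Lb.g g11 (@Lb.r r419 (@Lb.r r1686 (@Lb.r r97 (@Lb.r r1684 (@Lb.d (nat_lit 552) (nat_lit 73) (nat_lit 329) (@Lb.t (@Lb.fm (nat_lit 9) t5538))))))))))))
noncomputable def l31446 : Lb := (@Lb.d (nat_lit 0) (nat_lit 257) (nat_lit 130) (@Lb.g g9 (@Lb.g g10 (@Lb.g g11 (@Lb.r r1607 (@Lb.r r646 (@Lb.r r1448 (@Lb.r r1049 (@Lb.d (nat_lit 614) (nat_lit 102) (nat_lit 514) (@Lb.t (@Lb.fp (nat_lit 9) t2607)))))))))))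
noncomputable def l31447 : Lb := (@Lb.d (nat_lit 0) (nat_lit 321) (nat_lit 256) (@Lb.r r68 (@Lb.r r2375 (@Lb.r r602 (@Lb.r r584 (@Lb.g g5 (@Lb.d (nat_lit 0) (nat_lit 129) (nat_lit 0) (@Lb.t (@Lb.fp (nat_lit 3) t1443)))))))))
noncomputable def l31448 : Lb := (@Lb.d (nat_lit 84) (nat_lit 280) (nat_lit 149) (@Lb.r r1445 (@Lb.r r2712 (@Lb.r r2438 (@Lb.g g7 (@Lb.g g5 (@Lb.g g4 (@Lb.d (nat_lit 8) (nat_lit 4) (nat_lit 324) (@Lb.r r610 (@Lb.t (@Lb.fm (nat_lit 9) t4947)))))))))))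
noncomputable def l31449 : Lb := (@Lb.r r21 (@Lb.d (nat_lit 2) (nat_lit 0) (nat_lit 130) (@Lb.g g8 (@Lb.g g10 (@Lb.g g11 (@Lb.r r395 (@Lb.r r2472 (@Lb.r r106 (@Lb.r r25 (@Lb.d (nat_lit 410) (nat_lit 153) (nat_lit 34) (@Lb.t (@Lb.fp (nat_lit 9) t2503))))))))))))
noncomputable def l31450 : Lb := (@Lb.d (nat_lit 388) (nat_lit 272) (nat_lit 256) (@Lb.r r2337 (@Lb.r r1619 (@Lb.r r326 (@Lb.r r2180 (@Lb.g g6 (@Lb.g g4 (@Lb.d (nat_lit 1) (nat_lit 0) (nat_lit 1) (@Lb.fm (nat_lit 3) t2097)))))))))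
noncomputable def l31451 : Lb := (@Lb.d (nat_lit 2) (nat_lit 2) (nat_lit 73) (@Lb.g g8 (@Lb.g g9 (@Lb.g g10 (@Lb.g g11 (@Lb.r r2691 (@Lb.r r1193 (@Lb.r r2658 (@Lb.r r2436 (@Lb.d (nat_lit 609) (nat_lit 160) (nat_lit 662) (@Lb.fp (nat_lit 9) t311)))))))))))
noncomputable def l31452 : Lb := (@Lb.r r21 (@Lb.r r70 (@Lb.d (nat_lit 656) (nat_lit 544) (nat_lit 64) (@Lb.g g4 (@Lb.g g11 (@Lb.r r345 (@Lb.r r1315 (@Lb.r r2182 (@Lb.d (nat_lit 1) (nat_lit 169) (nat_lit 417) (@Lb.fm (nat_lit 3) t151))))))))))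
noncomputable def l31453 : Lb := (@Lb.d (nat_lit 10) (nat_lit 256) (nat_lit 128) (@Lb.g g8 (@Lb.g g11 (@Lb.r r293 (@Lb.r r2587 (@Lb.r r2178 (@Lb.r r2584 (@Lb.d (nat_lit 585) (nat_lit 2) (nat_lit 650) (@Lb.fm (nat_lit 3) t3068)))))))))
noncomputable def l31454 : Lb := (@Lb.r r275 (@Lb.d (nat_lit 9) (nat_lit 41) (nat_lit 1) (@Lb.g g8 (@Lb.g g9 (@Lb.g g10 (@Lb.r r1442 (@Lb.r r2635 (@Lb.r r548 (@Lb.r r661 (@Lb.d (nat_lit 165) (nat_lit 101) (nat_lit 133) (@Lb.t (@Lb.fm (nat_lit 9) t1879))))))))))))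
noncomputable def l31455 : Lb := (@Lb.d (nat_lit 9) (nat_lit 40) (nat_lit 65) (@Lb.g g8 (@Lb.g g9 (@Lb.g g10 (@Lb.g g11 (@Lb.r r1698 (@Lb.r r1415 (@Lb.r r548 (@Lb.r r661 (@Lb.d (nat_lit 164) (nat_lit 134) (nat_lit 517) (@Lb.fm (nat_lit 9) t340)))))))))))
noncomputable def l31456 : Lb := (@Lb.d (nat_lit 0) (nat_lit 0) (nat_lit 130) (@Lb.g g10 (@Lb.g g11 (@Lb.r r1553 (@Lb.r r595 (@Lb.r r386 (@Lb.r r1124 (@Lb.d (nat_lit 280) (nat_lit 5) (nat_lit 522) (@Lb.fm (nat_lit 3) t4555)))))))))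
noncomputable def l31457 : Lb := (@Lb.d (nat_lit 17) (nat_lit 585) (nat_lit 0) (@Lb.r r72 (@Lb.r r150 (@Lb.r r2579 (@Lb.g g5 (@Lb.g g4 (@Lb.d (nat_lit 16) (nat_lit 65) (nat_lit 0) (@Lb.r r291 (@Lb.r r98 (@Lb.fp (nat_lit 3) t340))))))))))
noncomputable def l31458 : Lb := (@Lb.d (nat_lit 137) (nat_lit 512) (nat_lit 2) (@Lb.g g8 (@Lb.g g10 (@Lb.r r1557 (@Lb.r r599 (@Lb.r r386 (@Lb.r r100 (@Lb.d (nat_lit 26) (nat_lit 10) (nat_lit 536) (@Lb.fm (nat_lit 3) t188)))))))))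
noncomputable def l31459 : Lb := (@Lb.d (nat_lit 9) (nat_lit 521) (nat_lit 1) (@Lb.g g8 (@Lb.g g9 (@Lb.g g10 (@Lb.g g11 (@Lb.r r682 (@Lb.r r680 (@Lb.r r555 (@Lb.r r529 (@Lb.r r36 (@Lb.d (nat_lit 9) (nat_lit 33) (nat_lit 74) (@Lb.fm (nat_lit 9) t594))))))))))))
noncomputable def l31460 : Lb := (@Lb.d (nat_lit 33) (nat_lit 265) (nat_lit 64) (@Lb.g g8 (@Lb.g g9 (@Lb.g g11 (@Lb.r r1611 (@Lb.r r390 (@Lb.r r2644 (@Lb.r r25 (@Lb.d (nat_lit 521) (nat_lit 170) (nat_lit 274) (@Lb.t (@Lb.fm (nat_lit 9) t386)))))))))))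
noncomputable def l31461 : Lb := (@Lb.g g10 (@Lb.d (nat_lit 5) (nat_lit 1) (nat_lit 0) (@Lb.t (@Lb.fp (nat_lit 3) t2))))
noncomputable def l31462 : Lb := (@Lb.d (nat_lit 134) (nat_lit 257) (nat_lit 133) (@Lb.r r68 (@Lb.r r666 (@Lb.r r404 (@Lb.r r337 (@Lb.g g7 (@Lb.g g6 (@Lb.g g5 (@Lb.g g4 (@Lb.d (nat_lit 1) (nat_lit 1) (nat_lit 128) (@Lb.fm (nat_lit 9) t98)))))))))))
noncomputable def l31463 : Lb := (@Lb.d (nat_lit 134) (nat_lit 1) (nat_lit 10) (@Lb.r r68 (@Lb.r r666 (@Lb.r r404 (@Lb.r r337 (@Lb.g g7 (@Lb.g g6 (@Lb.g g5 (@Lb.g g4 (@Lb.d (nat_lit 1) (nat_lit 1) (nat_lit 128) (@Lb.fm (nat_lit 9) t98)))))))))))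
noncomputable def l31464 : Lb := (@Lb.d (nat_lit 512) (nat_lit 17) (nat_lit 80) (@Lb.r r24 (@Lb.r r293 (@Lb.r r358 (@Lb.r r1435 (@Lb.g g11 (@Lb.g g5 (@Lb.r r98 (@Lb.fp (nat_lit 3) t5672)))))))))
noncomputable def l31465 : Lb := (@Lb.d (nat_lit 644) (nat_lit 544) (nat_lit 66) (@Lb.r r24 (@Lb.r r289 (@Lb.r r354 (@Lb.r r1683 (@Lb.g g7 (@Lb.g g5 (@Lb.d (nat_lit 0) (nat_lit 1) (nat_lit 128) (@Lb.r r98 (@Lb.fp (nat_lit 3) t5672))))))))))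
noncomputable def l31466 : Lb := (@Lb.r r82 (@Lb.d (nat_lit 34) (nat_lit 33) (nat_lit 64) (@Lb.g g8 (@Lb.g g9 (@Lb.g g11 (@Lb.r r1430 (@Lb.r r1367 (@Lb.r r2405 (@Lb.r r84 (@Lb.d (nat_lit 597) (nat_lit 90) (nat_lit 326) (@Lb.t (@Lb.fm (nat_lit 9) t5459))))))))))))
noncomputable def l31467 : Lb := (@Lb.d (nat_lit 0) (nat_lit 408) (nat_lit 666) (@Lb.r r657 (@Lb.r r346 (@Lb.r r100 (@Lb.g g5 (@Lb.d (nat_lit 8) (nat_lit 1) (nat_lit 0) (@Lb.t (@Lb.fm (nat_lit 3) t2204))))))))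
noncomputable def l31468 : Lb := (@Lb.d (nat_lit 5) (nat_lit 293) (nat_lit 1) (@Lb.r r154 (@Lb.r r101 (@Lb.r r651 (@Lb.r r644 (@Lb.g g7 (@Lb.d (nat_lit 64) (nat_lit 0) (nat_lit 64) (@Lb.t (@Lb.fp (nat_lit 3) t71)))))))))
noncomputable def l31469 : Lb := (@Lb.d (nat_lit 5) (nat_lit 658) (nat_lit 97) (@Lb.r r657 (@Lb.r r667 (@Lb.r r584 (@Lb.g g6 (@Lb.g g5 (@Lb.d (nat_lit 0) (nat_lit 4) (nat_lit 17) (@Lb.r r387 (@Lb.fm (nat_lit 3) t1556)))))))))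
noncomputable def l31470 : Lb := (@Lb.r r21 (@Lb.r r70 (@Lb.d (nat_lit 0) (nat_lit 0) (nat_lit 128) (@Lb.g g8 (@Lb.g g11 (@Lb.r r2311 (@Lb.r r1348 (@Lb.r r74 (@Lb.r r25 (@Lb.d (nat_lit 17) (nat_lit 10) (nat_lit 137) (@Lb.fm (nat_lit 3) t5412)))))))))))
noncomputable def l31471 : Lb := (@Lb.d (nat_lit 8) (nat_lit 512) (nat_lit 128) (@Lb.g g8 (@Lb.g g11 (@Lb.r r1130 (@Lb.r r2453 (@Lb.r r1703 (@Lb.r r2372 (@Lb.d (nat_lit 41) (nat_lit 82) (nat_lit 20) (@Lb.fp (nat_lit 3) t476)))))))))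
noncomputable def l31472 : Lb := (@Lb.d (nat_lit 2) (nat_lit 521) (nat_lit 73) (@Lb.g g8 (@Lb.g g9 (@Lb.g g10 (@Lb.g g11 (@Lb.r r2443 (@Lb.r r1177 (@Lb.r r2456 (@Lb.r r2138 (@Lb.d (nat_lit 533) (nat_lit 133) (nat_lit 72) (@Lb.fm (nat_lit 9) t1606)))))))))))
noncomputable def l31473 : Lb := (@Lb.d (nat_lit 26) (nat_lit 325) (nat_lit 153) (@Lb.r r85 (@Lb.r r40 (@Lb.r r323 (@Lb.g g7 (@Lb.g g6 (@Lb.g g5 (@Lb.d (nat_lit 0) (nat_lit 4) (nat_lit 65) (@Lb.t (@Lb.fm (nat_lit 9) t2207))))))))))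
noncomputable def l31474 : Lb := (@Lb.d (nat_lit 0) (nat_lit 520) (nat_lit 66) (@Lb.g g8 (@Lb.g g9 (@Lb.g g10 (@Lb.g g7 (@Lb.r r1410 (@Lb.r r1121 (@Lb.d (nat_lit 0) (nat_lit 74) (nat_lit 265) (@Lb.fm (nat_lit 9) t989)))))))))
noncomputable def l31475 : Lb := (@Lb.d (nat_lit 0) (nat_lit 408) (nat_lit 282) (@Lb.r r657 (@Lb.r r602 (@Lb.r r356 (@Lb.g g11 (@Lb.g g5 (@Lb.d (nat_lit 8) (nat_lit 1) (nat_lit 384) (@Lb.r r578 (@Lb.fp (nat_lit 3) t5673)))))))))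
noncomputable def l31476 : Lb := (@Lb.r r2311 (@Lb.r r664 (@Lb.r r154 (@Lb.r r2133 (@Lb.r r164 (@Lb.d (nat_lit 9) (nat_lit 384) (nat_lit 85) (@Lb.fp (nat_lit 1) t553)))))))
noncomputable def l31477 : Lb := (@Lb.d (nat_lit 152) (nat_lit 257) (nat_lit 128) (@Lb.g g8 (@Lb.g g9 (@Lb.g g10 (@Lb.g g11 (@Lb.r r423 (@Lb.r r1681 (@Lb.r r1432 (@Lb.r r2202 (@Lb.d (nat_lit 169) (nat_lit 69) (nat_lit 81) (@Lb.fp (nat_lit 9) t2593)))))))))))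
noncomputable def l31478 : Lb := (@Lb.r r20 (@Lb.d (nat_lit 4) (nat_lit 417) (nat_lit 133) (@Lb.g g9 (@Lb.g g10 (@Lb.g g11 (@Lb.r r2475 (@Lb.r r2402 (@Lb.r r8 (@Lb.d (nat_lit 297) (nat_lit 104) (nat_lit 293) (@Lb.t (@Lb.fp (nat_lit 9) t3250)))))))))))
noncomputable def l31479 : Lb := (@Lb.d (nat_lit 152) (nat_lit 1) (nat_lit 128) (@Lb.g g8 (@Lb.g g9 (@Lb.g g10 (@Lb.g g11 (@Lb.r r423 (@Lb.r r1681 (@Lb.r r1432 (@Lb.r r2202 (@Lb.d (nat_lit 170) (nat_lit 69) (nat_lit 81) (@Lb.fp (nat_lit 9) t2593)))))))))))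
noncomputable def l31480 : Lb := (@Lb.d (nat_lit 641) (nat_lit 0) (nat_lit 384) (@Lb.r r24 (@Lb.r r101 (@Lb.r r402 (@Lb.g g11 (@Lb.d (nat_lit 0) (nat_lit 0) (nat_lit 136) (@Lb.t (@Lb.fm (nat_lit 3) t1790))))))))
noncomputable def l31481 : Lb := (@Lb.d (nat_lit 2) (nat_lit 293) (nat_lit 128) (@Lb.g g8 (@Lb.g g9 (@Lb.g g10 (@Lb.g g11 (@Lb.r r2723 (@Lb.r r2453 (@Lb.r r356 (@Lb.r r154 (@Lb.d (nat_lit 665) (nat_lit 5) (nat_lit 330) (@Lb.fp (nat_lit 9) t5674)))))))))))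
noncomputable def l31482 : Lb := (@Lb.r r323 (@Lb.d (nat_lit 2) (nat_lit 258) (nat_lit 2) (@Lb.g g8 (@Lb.g g9 (@Lb.g g10 (@Lb.r r401 (@Lb.r r299 (@Lb.r r420 (@Lb.r r102 (@Lb.d (nat_lit 21) (nat_lit 68) (nat_lit 88) (@Lb.t (@Lb.fm (nat_lit 9) t3912))))))))))))
noncomputable def l31483 : Lb := (@Lb.d (nat_lit 40) (nat_lit 514) (nat_lit 129) (@Lb.g g9 (@Lb.g g10 (@Lb.g g11 (@Lb.r r1671 (@Lb.r r2376 (@Lb.r r1366 (@Lb.r r1425 (@Lb.d (nat_lit 645) (nat_lit 9) (nat_lit 585) (@Lb.t (@Lb.fm (nat_lit 9) t1558)))))))))))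
noncomputable def l31484 : Lb := (@Lb.d (nat_lit 9) (nat_lit 1) (nat_lit 74) (@Lb.g g8 (@Lb.g g9 (@Lb.g g10 (@Lb.g g11 (@Lb.r r1666 (@Lb.r r1431 (@Lb.r r2585 (@Lb.r r2564 (@Lb.d (nat_lit 649) (nat_lit 74) (nat_lit 400) (@Lb.fm (nat_lit 9) t820)))))))))))
noncomputable def l31485 : Lb := (@Lb.d (nat_lit 2) (nat_lit 258) (nat_lit 74) (@Lb.g g8 (@Lb.g g9 (@Lb.g g10 (@Lb.g g11 (@Lb.r r1666 (@Lb.r r1431 (@Lb.r r2585 (@Lb.r r2564 (@Lb.d (nat_lit 650) (nat_lit 74) (nat_lit 400) (@Lb.fm (nat_lit 9) t2507)))))))))))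
noncomputable def l31486 : Lb := (@Lb.d (nat_lit 8) (nat_lit 2) (nat_lit 74) (@Lb.g g9 (@Lb.g g10 (@Lb.g g11 (@Lb.r r1671 (@Lb.r r2132 (@Lb.r r1450 (@Lb.r r409 (@Lb.d (nat_lit 10) (nat_lit 86) (nat_lit 553) (@Lb.t (@Lb.fm (nat_lit 9) t2142)))))))))))
noncomputable def l31487 : Lb := (@Lb.d (nat_lit 2) (nat_lit 514) (nat_lit 2) (@Lb.g g8 (@Lb.g g9 (@Lb.g g10 (@Lb.r r683 (@Lb.r r2666 (@Lb.r r2585 (@Lb.r r2564 (@Lb.d (nat_lit 649) (nat_lit 4) (nat_lit 416) (@Lb.t (@Lb.fp (nat_lit 9) t820)))))))))))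
noncomputable def l31488 : Lb := (@Lb.r r355 (@Lb.d (nat_lit 4) (nat_lit 2) (nat_lit 0) (@Lb.g g8 (@Lb.g g9 (@Lb.g g10 (@Lb.r r683 (@Lb.r r1642 (@Lb.r r2649 (@Lb.d (nat_lit 362) (nat_lit 37) (nat_lit 9) (@Lb.t (@Lb.fp (nat_lit 9) t2714)))))))))))
noncomputable def l31489 : Lb := (@Lb.r r81 (@Lb.r r323 (@Lb.d (nat_lit 138) (nat_lit 256) (nat_lit 2) (@Lb.g g8 (@Lb.g g6 (@Lb.r r661 (@Lb.r r343 (@Lb.r r648 (@Lb.d (nat_lit 88) (nat_lit 0) (nat_lit 9) (@Lb.fm (nat_lit 3) t792))))))))))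
noncomputable def l31490 : Lb := (@Lb.d (nat_lit 18) (nat_lit 256) (nat_lit 18) (@Lb.r r1416 (@Lb.r r2391 (@Lb.r r2705 (@Lb.r r2642 (@Lb.g g9 (@Lb.d (nat_lit 0) (nat_lit 5) (nat_lit 0) (@Lb.t (@Lb.fm (nat_lit 3) t1093)))))))))
noncomputable def l31491 : Lb := (@Lb.d (nat_lit 128) (nat_lit 21) (nat_lit 64) (@Lb.r r536 (@Lb.r r411 (@Lb.r r661 (@Lb.g g6 (@Lb.g g5 (@Lb.g g4 (@Lb.d (nat_lit 80) (nat_lit 1) (nat_lit 1) (@Lb.r r391 (@Lb.t (@Lb.fm (nat_lit 9) t68)))))))))))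
noncomputable def l31492 : Lb := (@Lb.r r283 (@Lb.d (nat_lit 40) (nat_lit 5) (nat_lit 0) (@Lb.g g8 (@Lb.g g5 (@Lb.g g10 (@Lb.r r170 (@Lb.r r660 (@Lb.r r519 (@Lb.d (nat_lit 10) (nat_lit 26) (nat_lit 74) (@Lb.t (@Lb.fp (nat_lit 9) t68)))))))))))
noncomputable def l31493 : Lb := (@Lb.d (nat_lit 40) (nat_lit 262) (nat_lit 128) (@Lb.g g8 (@Lb.g g9 (@Lb.g g10 (@Lb.g g11 (@Lb.r r666 (@Lb.r r545 (@Lb.r r615 (@Lb.r r388 (@Lb.d (nat_lit 162) (nat_lit 34) (nat_lit 74) (@Lb.fm (nat_lit 9) t68)))))))))))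
noncomputable def l31494 : Lb := (@Lb.g g5 (@Lb.g g11 (@Lb.r r1291 (@Lb.d (nat_lit 514) (nat_lit 512) (nat_lit 0) (@Lb.fp (nat_lit 3) t441)))))
noncomputable def l31495 : Lb := (@Lb.g g5 (@Lb.r r24 (@Lb.r r101 (@Lb.d (nat_lit 0) (nat_lit 400) (nat_lit 264) (@Lb.t (@Lb.fm (nat_lit 3) t1174))))))
noncomputable def l31496 : Lb := (@Lb.d (nat_lit 9) (nat_lit 136) (nat_lit 0) (@Lb.g g8 (@Lb.g g5 (@Lb.g g11 (@Lb.r r596 (@Lb.r r2375 (@Lb.r r2178 (@Lb.r r1540 (@Lb.d (nat_lit 0) (nat_lit 96) (nat_lit 640) (@Lb.t (@Lb.fm (nat_lit 9) t296)))))))))))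
noncomputable def l31497 : Lb := (@Lb.r r323 (@Lb.d (nat_lit 33) (nat_lit 2) (nat_lit 2) (@Lb.g g8 (@Lb.g g9 (@Lb.g g10 (@Lb.r r683 (@Lb.r r170 (@Lb.r r153 (@Lb.r r132 (@Lb.d (nat_lit 34) (nat_lit 2) (nat_lit 84) (@Lb.t (@Lb.fm (nat_lit 9) t1987))))))))))))
noncomputable def l31498 : Lb := (@Lb.r r323 (@Lb.d (nat_lit 9) (nat_lit 264) (nat_lit 2) (@Lb.g g8 (@Lb.g g9 (@Lb.g g10 (@Lb.r r683 (@Lb.r r170 (@Lb.r r164 (@Lb.r r37 (@Lb.d (nat_lit 4) (nat_lit 8) (nat_lit 84) (@Lb.t (@Lb.fp (nat_lit 9) t390))))))))))))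
noncomputable def l31499 : Lb := (@Lb.d (nat_lit 33) (nat_lit 514) (nat_lit 129) (@Lb.g g8 (@Lb.g g9 (@Lb.g g6 (@Lb.g g11 (@Lb.r r529 (@Lb.r r407 (@Lb.r r612 (@Lb.d (nat_lit 408) (nat_lit 26) (nat_lit 168) (@Lb.fm (nat_lit 9) t1237))))))))))
noncomputable def l31500 : Lb := (@Lb.d (nat_lit 9) (nat_lit 648) (nat_lit 0) (@Lb.g g8 (@Lb.g g5 (@Lb.g g11 (@Lb.r r596 (@Lb.r r2375 (@Lb.r r2178 (@Lb.r r1540 (@Lb.d (nat_lit 2) (nat_lit 106) (nat_lit 642) (@Lb.t (@Lb.fm (nat_lit 9) t296)))))))))))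
noncomputable def l31501 : Lb := (@Lb.d (nat_lit 2) (nat_lit 26) (nat_lit 534) (@Lb.r r1362 (@Lb.r r2691 (@Lb.g g6 (@Lb.g g5 (@Lb.g g8 (@Lb.d (nat_lit 0) (nat_lit 0) (nat_lit 1) (@Lb.t (@Lb.fp (nat_lit 9) t599)))))))))
noncomputable def l31502 : Lb := (@Lb.r r20 (@Lb.r r355 (@Lb.d (nat_lit 36) (nat_lit 298) (nat_lit 2) (@Lb.g g5 (@Lb.g g10 (@Lb.r r584 (@Lb.r r267 (@Lb.d (nat_lit 130) (nat_lit 129) (nat_lit 329) (@Lb.fm (nat_lit 3) t3821)))))))))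
noncomputable def l31503 : Lb := (@Lb.r r323 (@Lb.d (nat_lit 2) (nat_lit 521) (nat_lit 1) (@Lb.g g8 (@Lb.g g9 (@Lb.g g10 (@Lb.r r2210 (@Lb.r r2600 (@Lb.r r2713 (@Lb.r r1555 (@Lb.d (nat_lit 82) (nat_lit 74) (nat_lit 297) (@Lb.t (@Lb.fp (nat_lit 9) t5675))))))))))))
noncomputable def l31504 : Lb := (@Lb.d (nat_lit 390) (nat_lit 168) (nat_lit 614) (@Lb.r r532 (@Lb.r r1321 (@Lb.r r618 (@Lb.r r1667 (@Lb.g g6 (@Lb.g g5 (@Lb.g g4 (@Lb.d (nat_lit 32) (nat_lit 2) (nat_lit 1) (@Lb.t (@Lb.fp (nat_lit 9) t5676)))))))))))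
noncomputable def l31505 : Lb := (@Lb.d (nat_lit 130) (nat_lit 257) (nat_lit 8) (@Lb.g g8 (@Lb.g g9 (@Lb.g g10 (@Lb.r r2627 (@Lb.r r1641 (@Lb.r r1430 (@Lb.r r72 (@Lb.d (nat_lit 36) (nat_lit 145) (nat_lit 529) (@Lb.t (@Lb.fm (nat_lit 9) t430)))))))))))
noncomputable def l31506 : Lb := (@Lb.r r82 (@Lb.d (nat_lit 2) (nat_lit 514) (nat_lit 580) (@Lb.g g8 (@Lb.g g9 (@Lb.g g7 (@Lb.r r418 (@Lb.r r664 (@Lb.r r421 (@Lb.d (nat_lit 544) (nat_lit 144) (nat_lit 329) (@Lb.t (@Lb.fm (nat_lit 9) t5677)))))))))))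
noncomputable def l31507 : Lb := (@Lb.d (nat_lit 2) (nat_lit 33) (nat_lit 580) (@Lb.g g8 (@Lb.g g9 (@Lb.g g10 (@Lb.g g7 (@Lb.r r418 (@Lb.r r2088 (@Lb.r r2201 (@Lb.d (nat_lit 592) (nat_lit 132) (nat_lit 593) (@Lb.fm (nat_lit 9) t605))))))))))
noncomputable def l31508 : Lb := (@Lb.d (nat_lit 358) (nat_lit 641) (nat_lit 600) (@Lb.r r358 (@Lb.r r676 (@Lb.r r1105 (@Lb.r r1623 (@Lb.g g6 (@Lb.g g5 (@Lb.g g4 (@Lb.d (nat_lit 0) (nat_lit 1) (nat_lit 5) (@Lb.t (@Lb.fm (nat_lit 9) t2073)))))))))))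
noncomputable def l31509 : Lb := (@Lb.d (nat_lit 130) (nat_lit 257) (nat_lit 128) (@Lb.g g8 (@Lb.g g9 (@Lb.g g10 (@Lb.g g11 (@Lb.r r1321 (@Lb.r r136 (@Lb.r r1690 (@Lb.r r667 (@Lb.r r2692 (@Lb.d (nat_lit 354) (nat_lit 74) (nat_lit 528) (@Lb.fp (nat_lit 9) t5678))))))))))))
noncomputable def l31510 : Lb := (@Lb.d (nat_lit 8) (nat_lit 513) (nat_lit 64) (@Lb.g g9 (@Lb.g g10 (@Lb.g g11 (@Lb.r r1540 (@Lb.r r2343 (@Lb.r r1370 (@Lb.r r1317 (@Lb.d (nat_lit 330) (nat_lit 8) (nat_lit 585) (@Lb.t (@Lb.fp (nat_lit 9) t5031)))))))))))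
noncomputable def l31511 : Lb := (@Lb.r r82 (@Lb.d (nat_lit 34) (nat_lit 2) (nat_lit 64) (@Lb.g g8 (@Lb.g g9 (@Lb.g g7 (@Lb.r r594 (@Lb.r r341 (@Lb.r r100 (@Lb.d (nat_lit 137) (nat_lit 5) (nat_lit 8) (@Lb.t (@Lb.fp (nat_lit 9) t984)))))))))))
noncomputable def l31512 : Lb := (@Lb.r r82 (@Lb.d (nat_lit 34) (nat_lit 528) (nat_lit 132) (@Lb.g g8 (@Lb.g g9 (@Lb.g g7 (@Lb.r r361 (@Lb.r r150 (@Lb.r r100 (@Lb.d (nat_lit 88) (nat_lit 5) (nat_lit 8) (@Lb.t (@Lb.fp (nat_lit 9) t984)))))))))))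
noncomputable def l31513 : Lb := (@Lb.d (nat_lit 393) (nat_lit 2) (nat_lit 672) (@Lb.r r1096 (@Lb.r r363 (@Lb.r r2646 (@Lb.r r409 (@Lb.g g11 (@Lb.t (@Lb.fm (nat_lit 3) t450))))))))
noncomputable def l31514 : Lb := (@Lb.d (nat_lit 9) (nat_lit 257) (nat_lit 130) (@Lb.g g8 (@Lb.g g9 (@Lb.g g10 (@Lb.g g11 (@Lb.r r2411 (@Lb.r r386 (@Lb.r r97 (@Lb.r r24 (@Lb.d (nat_lit 536) (nat_lit 4) (nat_lit 70) (@Lb.fm (nat_lit 9) t61)))))))))))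
noncomputable def l31515 : Lb := (@Lb.r r70 (@Lb.d (nat_lit 137) (nat_lit 1) (nat_lit 136) (@Lb.g g8 (@Lb.g g9 (@Lb.g g11 (@Lb.r r2438 (@Lb.r r145 (@Lb.r r100 (@Lb.d (nat_lit 597) (nat_lit 0) (nat_lit 640) (@Lb.t (@Lb.fp (nat_lit 9) t4)))))))))))
noncomputable def l31516 : Lb := (@Lb.d (nat_lit 0) (nat_lit 256) (nat_lit 129) (@Lb.g g10 (@Lb.g g11 (@Lb.r r1634 (@Lb.r r2659 (@Lb.r r1633 (@Lb.r r8 (@Lb.d (nat_lit 9) (nat_lit 89) (nat_lit 386) (@Lb.fp (nat_lit 3) t1679)))))))))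
noncomputable def l31517 : Lb := (@Lb.d (nat_lit 8) (nat_lit 289) (nat_lit 8) (@Lb.g g9 (@Lb.g g10 (@Lb.r r2580 (@Lb.r r2583 (@Lb.r r2409 (@Lb.r r1106 (@Lb.d (nat_lit 34) (nat_lit 132) (nat_lit 533) (@Lb.fm (nat_lit 3) t322)))))))))
noncomputable def l31518 : Lb := (@Lb.d (nat_lit 420) (nat_lit 344) (nat_lit 596) (@Lb.r r2644 (@Lb.r r535 (@Lb.r r2401 (@Lb.g g7 (@Lb.g g6 (@Lb.g g4 (@Lb.d (nat_lit 101) (nat_lit 16) (nat_lit 80) (@Lb.r r145 (@Lb.t (@Lb.fp (nat_lit 9) t311)))))))))))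
noncomputable def l31519 : Lb := (@Lb.r r21 (@Lb.d (nat_lit 146) (nat_lit 0) (nat_lit 64) (@Lb.g g8 (@Lb.g g10 (@Lb.g g11 (@Lb.r r327 (@Lb.r r646 (@Lb.r r597 (@Lb.r r392 (@Lb.d (nat_lit 18) (nat_lit 0) (nat_lit 10) (@Lb.t (@Lb.fm (nat_lit 9) t68))))))))))))
noncomputable def l31520 : Lb := (@Lb.r r21 (@Lb.d (nat_lit 6) (nat_lit 520) (nat_lit 130) (@Lb.g g8 (@Lb.g g10 (@Lb.g g11 (@Lb.r r395 (@Lb.r r101 (@Lb.r r410 (@Lb.d (nat_lit 9) (nat_lit 26) (nat_lit 137) (@Lb.t (@Lb.fm (nat_lit 9) t61)))))))))))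
noncomputable def l31521 : Lb := (@Lb.d (nat_lit 2) (nat_lit 294) (nat_lit 64) (@Lb.g g8 (@Lb.g g9 (@Lb.g g10 (@Lb.g g11 (@Lb.r r1699 (@Lb.r r1192 (@Lb.r r1642 (@Lb.r r1633 (@Lb.d (nat_lit 600) (nat_lit 153) (nat_lit 358) (@Lb.fm (nat_lit 9) t3361)))))))))))
noncomputable def l31522 : Lb := (@Lb.d (nat_lit 2) (nat_lit 294) (nat_lit 581) (@Lb.g g8 (@Lb.g g9 (@Lb.g g10 (@Lb.g g7 (@Lb.r r418 (@Lb.r r2088 (@Lb.r r2201 (@Lb.d (nat_lit 597) (nat_lit 4) (nat_lit 593) (@Lb.fm (nat_lit 9) t3362))))))))))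
noncomputable def l31523 : Lb := (@Lb.d (nat_lit 2) (nat_lit 265) (nat_lit 72) (@Lb.g g8 (@Lb.g g9 (@Lb.g g10 (@Lb.g g11 (@Lb.r r1559 (@Lb.r r1434 (@Lb.r r292 (@Lb.r r405 (@Lb.r r2084 (@Lb.d (nat_lit 617) (nat_lit 106) (nat_lit 345) (@Lb.fp (nat_lit 9) t2301))))))))))))
noncomputable def l31524 : Lb := (@Lb.r r323 (@Lb.d (nat_lit 32) (nat_lit 256) (nat_lit 26) (@Lb.g g9 (@Lb.g g10 (@Lb.r r1627 (@Lb.r r1624 (@Lb.r r2341 (@Lb.d (nat_lit 65) (nat_lit 0) (nat_lit 514) (@Lb.fp (nat_lit 3) t1954)))))))))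
noncomputable def l31525 : Lb := (@Lb.d (nat_lit 0) (nat_lit 288) (nat_lit 130) (@Lb.g g8 (@Lb.g g10 (@Lb.g g11 (@Lb.r r2337 (@Lb.r r2707 (@Lb.r r1642 (@Lb.r r1636 (@Lb.d (nat_lit 642) (nat_lit 137) (nat_lit 258) (@Lb.t (@Lb.fm (nat_lit 9) t3039)))))))))))
noncomputable def l31526 : Lb := (@Lb.d (nat_lit 0) (nat_lit 264) (nat_lit 2) (@Lb.g g8 (@Lb.g g10 (@Lb.g g7 (@Lb.r r101 (@Lb.r r24 (@Lb.d (nat_lit 0) (nat_lit 5) (nat_lit 0) (@Lb.t (@Lb.fp (nat_lit 9) t145)))))))))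
noncomputable def l31527 : Lb := (@Lb.r r21 (@Lb.d (nat_lit 33) (nat_lit 8) (nat_lit 2) (@Lb.g g8 (@Lb.g g10 (@Lb.g g7 (@Lb.r r97 (@Lb.r r36 (@Lb.d (nat_lit 5) (nat_lit 1) (nat_lit 2) (@Lb.t (@Lb.fm (nat_lit 9) t765))))))))))
noncomputable def l31528 : Lb := (@Lb.d (nat_lit 4) (nat_lit 8) (nat_lit 130) (@Lb.g g8 (@Lb.g g9 (@Lb.g g10 (@Lb.g g11 (@Lb.r r164 (@Lb.r r2470 (@Lb.r r2651 (@Lb.r r2453 (@Lb.r r1572 (@Lb.d (nat_lit 610) (nat_lit 137) (nat_lit 513) (@Lb.fp (nat_lit 9) t429))))))))))))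
noncomputable def l31529 : Lb := (@Lb.d (nat_lit 4) (nat_lit 548) (nat_lit 133) (@Lb.g g8 (@Lb.g g9 (@Lb.g g10 (@Lb.g g11 (@Lb.r r1699 (@Lb.r r2217 (@Lb.r r1448 (@Lb.r r1418 (@Lb.d (nat_lit 88) (nat_lit 85) (nat_lit 582) (@Lb.fp (nat_lit 9) t5679)))))))))))
noncomputable def l31530 : Lb := (@Lb.r r82 (@Lb.d (nat_lit 132) (nat_lit 258) (nat_lit 128) (@Lb.g g8 (@Lb.g g9 (@Lb.g g11 (@Lb.r r1315 (@Lb.r r2438 (@Lb.r r2073 (@Lb.r r1624 (@Lb.d (nat_lit 146) (nat_lit 34) (nat_lit 100) (@Lb.t (@Lb.fm (nat_lit 9) t3906))))))))))))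
noncomputable def l31531 : Lb := (@Lb.r r21 (@Lb.d (nat_lit 2) (nat_lit 256) (nat_lit 73) (@Lb.g g8 (@Lb.g g10 (@Lb.g g11 (@Lb.r r602 (@Lb.r r579 (@Lb.r r1112 (@Lb.r r37 (@Lb.d (nat_lit 416) (nat_lit 69) (nat_lit 342) (@Lb.t (@Lb.fp (nat_lit 9) t61))))))))))))
noncomputable def l31532 : Lb := (@Lb.d (nat_lit 6) (nat_lit 288) (nat_lit 72) (@Lb.g g4 (@Lb.g g11 (@Lb.r r2449 (@Lb.r r1426 (@Lb.r r355 (@Lb.d (nat_lit 274) (nat_lit 74) (nat_lit 260) (@Lb.fm (nat_lit 3) t246))))))))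
noncomputable def l31533 : Lb := (@Lb.d (nat_lit 4) (nat_lit 256) (nat_lit 73) (@Lb.g g8 (@Lb.g g9 (@Lb.g g10 (@Lb.g g11 (@Lb.r r610 (@Lb.r r1607 (@Lb.r r40 (@Lb.r r105 (@Lb.r r2084 (@Lb.d (nat_lit 426) (nat_lit 152) (nat_lit 593) (@Lb.fm (nat_lit 9) t490))))))))))))
noncomputable def l31534 : Lb := (@Lb.d (nat_lit 133) (nat_lit 64) (nat_lit 128) (@Lb.g g8 (@Lb.g g9 (@Lb.g g11 (@Lb.r r1124 (@Lb.r r1354 (@Lb.r r391 (@Lb.d (nat_lit 105) (nat_lit 97) (nat_lit 274) (@Lb.t (@Lb.fm (nat_lit 9) t3197))))))))))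
noncomputable def l31535 : Lb := (@Lb.r r355 (@Lb.d (nat_lit 4) (nat_lit 521) (nat_lit 17) (@Lb.g g8 (@Lb.g g9 (@Lb.g g6 (@Lb.r r2667 (@Lb.r r1625 (@Lb.d (nat_lit 612) (nat_lit 36) (nat_lit 280) (@Lb.t (@Lb.fm (nat_lit 9) t5680))))))))))
noncomputable def l31536 : Lb := (@Lb.d (nat_lit 2) (nat_lit 2) (nat_lit 130) (@Lb.g g8 (@Lb.g g9 (@Lb.g g10 (@Lb.g g11 (@Lb.r r2411 (@Lb.r r2442 (@Lb.r r40 (@Lb.r r105 (@Lb.r r2084 (@Lb.d (nat_lit 292) (nat_lit 24) (nat_lit 337) (@Lb.fm (nat_lit 9) t490))))))))))))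
noncomputable def l31537 : Lb := (@Lb.d (nat_lit 600) (nat_lit 129) (nat_lit 133) (@Lb.r r68 (@Lb.r r1690 (@Lb.r r388 (@Lb.r r1667 (@Lb.g g7 (@Lb.g g6 (@Lb.g g9 (@Lb.g g4 (@Lb.d (nat_lit 17) (nat_lit 10) (nat_lit 65) (@Lb.fm (nat_lit 9) t5681)))))))))))
noncomputable def l31538 : Lb := (@Lb.d (nat_lit 2) (nat_lit 2) (nat_lit 73) (@Lb.g g8 (@Lb.g g9 (@Lb.g g10 (@Lb.g g11 (@Lb.r r2666 (@Lb.r r579 (@Lb.r r104 (@Lb.r r25 (@Lb.d (nat_lit 170) (nat_lit 4) (nat_lit 326) (@Lb.fp (nat_lit 9) t61)))))))))))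
noncomputable def l31539 : Lb := (@Lb.d (nat_lit 9) (nat_lit 293) (nat_lit 582) (@Lb.r r97 (@Lb.r r1706 (@Lb.r r1627 (@Lb.r r2628 (@Lb.g g7 (@Lb.g g6 (@Lb.g g5 (@Lb.d (nat_lit 0) (nat_lit 1) (nat_lit 134) (@Lb.t (@Lb.fm (nat_lit 9) t3428)))))))))))
noncomputable def l31540 : Lb := (@Lb.r r323 (@Lb.d (nat_lit 0) (nat_lit 512) (nat_lit 1) (@Lb.g g10 (@Lb.r r401 (@Lb.r r2659 (@Lb.r r2577 (@Lb.r r2584 (@Lb.d (nat_lit 0) (nat_lit 138) (nat_lit 581) (@Lb.t (@Lb.fp (nat_lit 3) t3368))))))))))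
noncomputable def l31541 : Lb := (@Lb.r r82 (@Lb.d (nat_lit 8) (nat_lit 34) (nat_lit 72) (@Lb.g g9 (@Lb.g g11 (@Lb.r r1434 (@Lb.r r2072 (@Lb.r r2069 (@Lb.d (nat_lit 357) (nat_lit 130) (nat_lit 672) (@Lb.fm (nat_lit 3) t1567)))))))))
noncomputable def l31542 : Lb := (@Lb.d (nat_lit 0) (nat_lit 522) (nat_lit 129) (@Lb.g g9 (@Lb.g g10 (@Lb.g g11 (@Lb.r r1681 (@Lb.r r146 (@Lb.d (nat_lit 0) (nat_lit 150) (nat_lit 536) (@Lb.t (@Lb.fp (nat_lit 9) t225)))))))))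
noncomputable def l31543 : Lb := (@Lb.d (nat_lit 0) (nat_lit 672) (nat_lit 128) (@Lb.g g5 (@Lb.g g4 (@Lb.d (nat_lit 1) (nat_lit 80) (nat_lit 0) (@Lb.fm (nat_lit 3) t1378)))))
noncomputable def l31544 : Lb := (@Lb.d (nat_lit 401) (nat_lit 0) (nat_lit 680) (@Lb.r r2584 (@Lb.r r2405 (@Lb.r r386 (@Lb.r r2387 (@Lb.g g7 (@Lb.g g6 (@Lb.g g5 (@Lb.d (nat_lit 0) (nat_lit 1) (nat_lit 65) (@Lb.t (@Lb.fm (nat_lit 9) t196)))))))))))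
noncomputable def l31545 : Lb := (@Lb.d (nat_lit 0) (nat_lit 2) (nat_lit 0) (@Lb.g g9 (@Lb.r r2339 (@Lb.r r2146 (@Lb.r r97 (@Lb.d (nat_lit 0) (nat_lit 144) (nat_lit 552) (@Lb.t (@Lb.fm (nat_lit 3) t617))))))))
noncomputable def l31546 : Lb := (@Lb.d (nat_lit 0) (nat_lit 258) (nat_lit 0) (@Lb.g g9 (@Lb.r r2339 (@Lb.r r297 (@Lb.r r1096 (@Lb.r r2150 (@Lb.d (nat_lit 0) (nat_lit 154) (nat_lit 20) (@Lb.t (@Lb.fp (nat_lit 3) t5682)))))))))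
noncomputable def l31547 : Lb := (@Lb.d (nat_lit 8) (nat_lit 33) (nat_lit 132) (@Lb.g g8 (@Lb.g g9 (@Lb.g g10 (@Lb.g g11 (@Lb.r r2715 (@Lb.r r618 (@Lb.r r537 (@Lb.r r1556 (@Lb.d (nat_lit 166) (nat_lit 41) (nat_lit 641) (@Lb.fm (nat_lit 9) t196)))))))))))
noncomputable def l31548 : Lb := (@Lb.d (nat_lit 8) (nat_lit 418) (nat_lit 2) (@Lb.g g9 (@Lb.g g10 (@Lb.r r595 (@Lb.r r386 (@Lb.d (nat_lit 2) (nat_lit 161) (nat_lit 144) (@Lb.fm (nat_lit 3) t791)))))))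
noncomputable def l31549 : Lb := (@Lb.r r68 (@Lb.d (nat_lit 0) (nat_lit 258) (nat_lit 162) (@Lb.g g9 (@Lb.g g10 (@Lb.g g11 (@Lb.r r2705 (@Lb.r r2579 (@Lb.r r2312 (@Lb.d (nat_lit 290) (nat_lit 0) (nat_lit 673) (@Lb.t (@Lb.fm (nat_lit 9) t3519)))))))))))
noncomputable def l31550 : Lb := (@Lb.d (nat_lit 514) (nat_lit 256) (nat_lit 128) (@Lb.r r1291 (@Lb.g g11 (@Lb.g g5 (@Lb.g g8 (@Lb.t (@Lb.fp (nat_lit 9) t997)))))))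
noncomputable def l31551 : Lb := (@Lb.d (nat_lit 128) (nat_lit 264) (nat_lit 66) (@Lb.g g10 (@Lb.g g11 (@Lb.r r264 (@Lb.r r519 (@Lb.r r101 (@Lb.r r154 (@Lb.d (nat_lit 392) (nat_lit 2) (nat_lit 162) (@Lb.fm (nat_lit 3) t947)))))))))
noncomputable def l31552 : Lb := (@Lb.d (nat_lit 0) (nat_lit 0) (nat_lit 73) (@Lb.g g9 (@Lb.g g10 (@Lb.g g11 (@Lb.r r2691 (@Lb.r r2657 (@Lb.r r1686 (@Lb.r r1096 (@Lb.d (nat_lit 576) (nat_lit 170) (nat_lit 322) (@Lb.t (@Lb.fm (nat_lit 9) t2133)))))))))))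
noncomputable def l31553 : Lb := (@Lb.d (nat_lit 357) (nat_lit 37) (nat_lit 17) (@Lb.r r613 (@Lb.r r134 (@Lb.r r423 (@Lb.r r600 (@Lb.g g5 (@Lb.d (nat_lit 4) (nat_lit 18) (nat_lit 0) (@Lb.t (@Lb.fp (nat_lit 3) t1602)))))))))
noncomputable def l31554 : Lb := (@Lb.r r21 (@Lb.d (nat_lit 646) (nat_lit 0) (nat_lit 130) (@Lb.g g8 (@Lb.g g10 (@Lb.g g11 (@Lb.r r1451 (@Lb.r r106 (@Lb.r r97 (@Lb.d (nat_lit 21) (nat_lit 148) (nat_lit 676) (@Lb.t (@Lb.fp (nat_lit 9) t5683)))))))))))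
noncomputable def l31555 : Lb := (@Lb.d (nat_lit 336) (nat_lit 522) (nat_lit 409) (@Lb.r r24 (@Lb.r r1109 (@Lb.r r386 (@Lb.r r2595 (@Lb.g g7 (@Lb.g g6 (@Lb.g g5 (@Lb.d (nat_lit 0) (nat_lit 25) (nat_lit 128) (@Lb.t (@Lb.fm (nat_lit 9) t1444)))))))))))
noncomputable def l31556 : Lb := (@Lb.r r21 (@Lb.d (nat_lit 646) (nat_lit 512) (nat_lit 130) (@Lb.g g8 (@Lb.g g10 (@Lb.g g11 (@Lb.r r1451 (@Lb.r r106 (@Lb.r r97 (@Lb.d (nat_lit 21) (nat_lit 153) (nat_lit 677) (@Lb.t (@Lb.fp (nat_lit 9) t5683)))))))))))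
noncomputable def l31557 : Lb := (@Lb.r r323 (@Lb.d (nat_lit 16) (nat_lit 553) (nat_lit 2) (@Lb.g g9 (@Lb.g g10 (@Lb.r r2468 (@Lb.r r1627 (@Lb.r r2449 (@Lb.d (nat_lit 96) (nat_lit 42) (nat_lit 420) (@Lb.fp (nat_lit 3) t3420)))))))))
noncomputable def l31558 : Lb := (@Lb.d (nat_lit 129) (nat_lit 260) (nat_lit 64) (@Lb.g g8 (@Lb.g g9 (@Lb.g g10 (@Lb.g g11 (@Lb.r r1706 (@Lb.r r1411 (@Lb.r r1177 (@Lb.r r1156 (@Lb.d (nat_lit 290) (nat_lit 90) (nat_lit 665) (@Lb.fm (nat_lit 9) t995)))))))))))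
noncomputable def l31559 : Lb := (@Lb.d (nat_lit 154) (nat_lit 518) (nat_lit 64) (@Lb.g g8 (@Lb.g g9 (@Lb.g g10 (@Lb.g g11 (@Lb.r r2435 (@Lb.r r2212 (@Lb.r r1446 (@Lb.r r145 (@Lb.d (nat_lit 68) (nat_lit 132) (nat_lit 152) (@Lb.fm (nat_lit 9) t5516)))))))))))
noncomputable def l31560 : Lb := (@Lb.d (nat_lit 10) (nat_lit 676) (nat_lit 0) (@Lb.g g9 (@Lb.d (nat_lit 0) (nat_lit 90) (nat_lit 0) (@Lb.t (@Lb.fp (nat_lit 3) t1464)))))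
noncomputable def l31561 : Lb := (@Lb.r r101 (@Lb.d (nat_lit 389) (nat_lit 600) (nat_lit 530) (@Lb.fm (nat_lit 1) t2148)))
noncomputable def l31562 : Lb := (@Lb.r r323 (@Lb.d (nat_lit 130) (nat_lit 516) (nat_lit 0) (@Lb.g g8 (@Lb.g g9 (@Lb.g g10 (@Lb.r r1639 (@Lb.r r2193 (@Lb.r r2642 (@Lb.r r72 (@Lb.d (nat_lit 346) (nat_lit 42) (nat_lit 137) (@Lb.t (@Lb.fm (nat_lit 9) t1806))))))))))))
noncomputable def l31563 : Lb := (@Lb.d (nat_lit 406) (nat_lit 538) (nat_lit 548) (@Lb.r r2453 (@Lb.r r2667 (@Lb.g g10 (@Lb.g g5 (@Lb.g g4 (@Lb.d (nat_lit 1) (nat_lit 4) (nat_lit 34) (@Lb.r r403 (@Lb.t (@Lb.fp (nat_lit 9) t2700))))))))))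
noncomputable def l31564 : Lb := (@Lb.d (nat_lit 153) (nat_lit 520) (nat_lit 98) (@Lb.g g8 (@Lb.g g9 (@Lb.g g10 (@Lb.g g11 (@Lb.r r1411 (@Lb.r r1065 (@Lb.r r1060 (@Lb.d (nat_lit 264) (nat_lit 130) (nat_lit 425) (@Lb.fm (nat_lit 9) t3350))))))))))
noncomputable def l31565 : Lb := (@Lb.r r21 (@Lb.d (nat_lit 130) (nat_lit 0) (nat_lit 66) (@Lb.g g8 (@Lb.g g10 (@Lb.g g11 (@Lb.r r419 (@Lb.r r132 (@Lb.r r2438 (@Lb.r r97 (@Lb.d (nat_lit 361) (nat_lit 26) (nat_lit 356) (@Lb.t (@Lb.fm (nat_lit 9) t344))))))))))))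
noncomputable def l31566 : Lb := (@Lb.d (nat_lit 408) (nat_lit 89) (nat_lit 360) (@Lb.r r1604 (@Lb.r r1362 (@Lb.r r2201 (@Lb.r r2691 (@Lb.g g6 (@Lb.g g4 (@Lb.d (nat_lit 5) (nat_lit 0) (nat_lit 1) (@Lb.fp (nat_lit 3) t5684)))))))))
noncomputable def l31567 : Lb := (@Lb.d (nat_lit 0) (nat_lit 290) (nat_lit 533) (@Lb.r r85 (@Lb.r r2600 (@Lb.r r1414 (@Lb.r r2347 (@Lb.r r401 (@Lb.g g4 (@Lb.t (@Lb.fm (nat_lit 3) t4621)))))))))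
noncomputable def l31568 : Lb := (@Lb.d (nat_lit 2) (nat_lit 294) (nat_lit 64) (@Lb.g g8 (@Lb.g g9 (@Lb.g g10 (@Lb.g g11 (@Lb.r r1559 (@Lb.r r617 (@Lb.r r1362 (@Lb.r r24 (@Lb.d (nat_lit 74) (nat_lit 149) (nat_lit 321) (@Lb.fm (nat_lit 9) t4411)))))))))))
noncomputable def l31569 : Lb := (@Lb.d (nat_lit 406) (nat_lit 21) (nat_lit 550) (@Lb.r r2453 (@Lb.r r2667 (@Lb.g g10 (@Lb.g g5 (@Lb.g g4 (@Lb.d (nat_lit 1) (nat_lit 4) (nat_lit 34) (@Lb.r r403 (@Lb.t (@Lb.fp (nat_lit 9) t3136))))))))))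
noncomputable def l31570 : Lb := (@Lb.d (nat_lit 34) (nat_lit 514) (nat_lit 0) (@Lb.g g8 (@Lb.g g9 (@Lb.r r515 (@Lb.r r2198 (@Lb.r r97 (@Lb.r r1556 (@Lb.d (nat_lit 37) (nat_lit 98) (nat_lit 516) (@Lb.fp (nat_lit 3) t1827)))))))))
noncomputable def l31571 : Lb := (@Lb.d (nat_lit 2) (nat_lit 2) (nat_lit 0) (@Lb.g g8 (@Lb.g g9 (@Lb.r r322 (@Lb.r r1667 (@Lb.r r578 (@Lb.r r25 (@Lb.d (nat_lit 2) (nat_lit 144) (nat_lit 320) (@Lb.fp (nat_lit 3) t210)))))))))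
noncomputable def l31572 : Lb := (@Lb.d (nat_lit 25) (nat_lit 17) (nat_lit 388) (@Lb.r r2393 (@Lb.r r2471 (@Lb.r r1382 (@Lb.r r152 (@Lb.g g7 (@Lb.g g5 (@Lb.d (nat_lit 68) (nat_lit 0) (nat_lit 128) (@Lb.fp (nat_lit 3) t3144)))))))))
noncomputable def l31573 : Lb := (@Lb.d (nat_lit 2) (nat_lit 513) (nat_lit 64) (@Lb.g g8 (@Lb.g g9 (@Lb.g g11 (@Lb.r r1559 (@Lb.r r2154 (@Lb.r r1049 (@Lb.d (nat_lit 521) (nat_lit 18) (nat_lit 645) (@Lb.t (@Lb.fp (nat_lit 9) t51))))))))))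
noncomputable def l31574 : Lb := (@Lb.r r70 (@Lb.d (nat_lit 161) (nat_lit 258) (nat_lit 64) (@Lb.g g8 (@Lb.g g9 (@Lb.g g11 (@Lb.r r1430 (@Lb.r r1367 (@Lb.r r97 (@Lb.r r596 (@Lb.d (nat_lit 149) (nat_lit 38) (nat_lit 18) (@Lb.t (@Lb.fm (nat_lit 9) t960))))))))))))
noncomputable def l31575 : Lb := (@Lb.g g5 (@Lb.r r2311 (@Lb.d (nat_lit 257) (nat_lit 256) (nat_lit 0) (@Lb.t (@Lb.fm (nat_lit 3) t469)))))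
noncomputable def l31576 : Lb := (@Lb.d (nat_lit 2) (nat_lit 0) (nat_lit 0) (@Lb.g g8 (@Lb.g g9 (@Lb.r r1049 (@Lb.r r24 (@Lb.d (nat_lit 260) (nat_lit 130) (nat_lit 0) (@Lb.fp (nat_lit 3) t2)))))))
noncomputable def l31577 : Lb := (@Lb.d (nat_lit 16) (nat_lit 266) (nat_lit 129) (@Lb.g g8 (@Lb.g g9 (@Lb.g g10 (@Lb.g g11 (@Lb.r r1443 (@Lb.r r2694 (@Lb.r r2664 (@Lb.r r2153 (@Lb.d (nat_lit 42) (nat_lit 144) (nat_lit 648) (@Lb.fm (nat_lit 9) t5316)))))))))))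
noncomputable def l31578 : Lb := (@Lb.d (nat_lit 0) (nat_lit 280) (nat_lit 0) (@Lb.g g9 (@Lb.g g11 (@Lb.r r338 (@Lb.r r2443 (@Lb.r r533 (@Lb.d (nat_lit 406) (nat_lit 34) (nat_lit 130) (@Lb.fm (nat_lit 3) t2708))))))))
noncomputable def l31579 : Lb := (@Lb.d (nat_lit 641) (nat_lit 256) (nat_lit 0) (@Lb.g g4 (@Lb.r r2387 (@Lb.r r2178 (@Lb.r r1633 (@Lb.d (nat_lit 1) (nat_lit 152) (nat_lit 297) (@Lb.t (@Lb.fm (nat_lit 3) t2131))))))))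
noncomputable def l31580 : Lb := (@Lb.r r1624 (@Lb.r r2341 (@Lb.d (nat_lit 608) (nat_lit 514) (nat_lit 266) (@Lb.fp (nat_lit 1) t5685))))
noncomputable def l31581 : Lb := (@Lb.d (nat_lit 4) (nat_lit 513) (nat_lit 1) (@Lb.g g5 (@Lb.g g10 (@Lb.g g11 (@Lb.r r1690 (@Lb.r r2459 (@Lb.r r24 (@Lb.d (nat_lit 98) (nat_lit 1) (nat_lit 162) (@Lb.t (@Lb.fp (nat_lit 9) t282))))))))))
noncomputable def l31582 : Lb := (@Lb.d (nat_lit 8) (nat_lit 546) (nat_lit 66) (@Lb.g g9 (@Lb.g g10 (@Lb.g g11 (@Lb.r r423 (@Lb.r r386 (@Lb.r r1048 (@Lb.r r21 (@Lb.d (nat_lit 276) (nat_lit 2) (nat_lit 648) (@Lb.t (@Lb.fm (nat_lit 9) t2312)))))))))))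
noncomputable def l31583 : Lb := (@Lb.r r275 (@Lb.d (nat_lit 8) (nat_lit 0) (nat_lit 2) (@Lb.g g9 (@Lb.g g10 (@Lb.r r1304 (@Lb.r r2631 (@Lb.r r386 (@Lb.r r1105 (@Lb.d (nat_lit 1) (nat_lit 70) (nat_lit 681) (@Lb.fp (nat_lit 3) t732))))))))))
noncomputable def l31584 : Lb := (@Lb.d (nat_lit 0) (nat_lit 546) (nat_lit 528) (@Lb.r r1425 (@Lb.r r402 (@Lb.r r1379 (@Lb.g g9 (@Lb.t (@Lb.fm (nat_lit 3) t5686)))))))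
noncomputable def l31585 : Lb := (@Lb.d (nat_lit 148) (nat_lit 522) (nat_lit 130) (@Lb.g g8 (@Lb.g g9 (@Lb.g g10 (@Lb.g g11 (@Lb.r r1194 (@Lb.r r392 (@Lb.r r2343 (@Lb.r r1429 (@Lb.r r548 (@Lb.d (nat_lit 289) (nat_lit 138) (nat_lit 161) (@Lb.fp (nat_lit 9) t5687))))))))))))
noncomputable def l31586 : Lb := (@Lb.d (nat_lit 2) (nat_lit 512) (nat_lit 2) (@Lb.g g8 (@Lb.g g10 (@Lb.r r586 (@Lb.r r1619 (@Lb.r r2337 (@Lb.d (nat_lit 520) (nat_lit 66) (nat_lit 0) (@Lb.fm (nat_lit 3) t1089))))))))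
noncomputable def l31587 : Lb := (@Lb.d (nat_lit 2) (nat_lit 662) (nat_lit 320) (@Lb.r r2308 (@Lb.r r97 (@Lb.r r1291 (@Lb.r r404 (@Lb.g g7 (@Lb.g g10 (@Lb.g g5 (@Lb.g g4 (@Lb.d (nat_lit 6) (nat_lit 4) (nat_lit 82) (@Lb.fp (nat_lit 9) t1018)))))))))))
noncomputable def l31588 : Lb := (@Lb.d (nat_lit 68) (nat_lit 513) (nat_lit 386) (@Lb.r r611 (@Lb.r r1701 (@Lb.r r2136 (@Lb.r r1698 (@Lb.g g7 (@Lb.g g6 (@Lb.g g5 (@Lb.d (nat_lit 4) (nat_lit 6) (nat_lit 66) (@Lb.t (@Lb.fp (nat_lit 9) t1179)))))))))))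
noncomputable def l31589 : Lb := (@Lb.r r21 (@Lb.r r70 (@Lb.d (nat_lit 390) (nat_lit 256) (nat_lit 0) (@Lb.g g8 (@Lb.r r74 (@Lb.r r25 (@Lb.d (nat_lit 586) (nat_lit 66) (nat_lit 0) (@Lb.t (@Lb.fp (nat_lit 3) t329)))))))))
noncomputable def l31590 : Lb := (@Lb.d (nat_lit 2) (nat_lit 258) (nat_lit 66) (@Lb.g g8 (@Lb.g g9 (@Lb.g g10 (@Lb.g g7 (@Lb.r r386 (@Lb.r r97 (@Lb.r r24 (@Lb.d (nat_lit 325) (nat_lit 137) (nat_lit 585) (@Lb.fp (nat_lit 9) t3927))))))))))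
noncomputable def l31591 : Lb := (@Lb.r r323 (@Lb.d (nat_lit 0) (nat_lit 546) (nat_lit 2) (@Lb.g g8 (@Lb.g g9 (@Lb.g g10 (@Lb.r r354 (@Lb.r r1419 (@Lb.r r1444 (@Lb.d (nat_lit 274) (nat_lit 70) (nat_lit 18) (@Lb.t (@Lb.fm (nat_lit 9) t3327)))))))))))
noncomputable def l31592 : Lb := (@Lb.r r21 (@Lb.d (nat_lit 138) (nat_lit 512) (nat_lit 130) (@Lb.g g8 (@Lb.g g10 (@Lb.g g11 (@Lb.r r1553 (@Lb.r r1435 (@Lb.r r386 (@Lb.r r88 (@Lb.d (nat_lit 281) (nat_lit 69) (nat_lit 520) (@Lb.t (@Lb.fm (nat_lit 9) t3021))))))))))))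
noncomputable def l31593 : Lb := (@Lb.d (nat_lit 9) (nat_lit 258) (nat_lit 584) (@Lb.r r146 (@Lb.r r357 (@Lb.g g11 (@Lb.g g8 (@Lb.d (nat_lit 10) (nat_lit 0) (nat_lit 384) (@Lb.r r578 (@Lb.fm (nat_lit 3) t1197))))))))
noncomputable def l31594 : Lb := (@Lb.r r82 (@Lb.r r283 (@Lb.d (nat_lit 40) (nat_lit 580) (nat_lit 0) (@Lb.g g8 (@Lb.g g5 (@Lb.r r1382 (@Lb.r r2708 (@Lb.r r1415 (@Lb.d (nat_lit 105) (nat_lit 98) (nat_lit 656) (@Lb.fp (nat_lit 3) t5688))))))))))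
noncomputable def l31595 : Lb := (@Lb.d (nat_lit 0) (nat_lit 545) (nat_lit 66) (@Lb.g g9 (@Lb.g g10 (@Lb.g g11 (@Lb.r r387 (@Lb.r r1188 (@Lb.r r2438 (@Lb.r r1633 (@Lb.d (nat_lit 337) (nat_lit 25) (nat_lit 340) (@Lb.t (@Lb.fm (nat_lit 9) t2550)))))))))))
noncomputable def l31596 : Lb := (@Lb.r r326 (@Lb.d (nat_lit 9) (nat_lit 545) (nat_lit 64) (@Lb.g g8 (@Lb.g g9 (@Lb.g g11 (@Lb.r r2593 (@Lb.r r2343 (@Lb.r r1540 (@Lb.d (nat_lit 664) (nat_lit 138) (nat_lit 528) (@Lb.t (@Lb.fp (nat_lit 9) t5689)))))))))))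
noncomputable def l31597 : Lb := (@Lb.r r82 (@Lb.d (nat_lit 2) (nat_lit 289) (nat_lit 64) (@Lb.g g8 (@Lb.g g9 (@Lb.g g11 (@Lb.r r2454 (@Lb.r r2627 (@Lb.r r2457 (@Lb.r r24 (@Lb.d (nat_lit 402) (nat_lit 16) (nat_lit 592) (@Lb.t (@Lb.fp (nat_lit 9) t1424))))))))))))
noncomputable def l31598 : Lb := (@Lb.r r101 (@Lb.r r402 (@Lb.r r24 (@Lb.d (nat_lit 272) (nat_lit 584) (nat_lit 258) (@Lb.fm (nat_lit 1) t4485)))))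
noncomputable def l31599 : Lb := (@Lb.d (nat_lit 0) (nat_lit 33) (nat_lit 66) (@Lb.g g8 (@Lb.g g9 (@Lb.g g10 (@Lb.g g11 (@Lb.r r1699 (@Lb.r r610 (@Lb.r r36 (@Lb.r r2581 (@Lb.r r2084 (@Lb.d (nat_lit 672) (nat_lit 162) (nat_lit 81) (@Lb.fm (nat_lit 9) t208))))))))))))
noncomputable def l31600 : Lb := (@Lb.d (nat_lit 417) (nat_lit 336) (nat_lit 592) (@Lb.r r1362 (@Lb.r r1685 (@Lb.r r1320 (@Lb.r r2691 (@Lb.g g7 (@Lb.g g6 (@Lb.g g5 (@Lb.d (nat_lit 0) (nat_lit 1) (nat_lit 134) (@Lb.t (@Lb.fp (nat_lit 9) t1253)))))))))))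
noncomputable def l31601 : Lb := (@Lb.d (nat_lit 0) (nat_lit 520) (nat_lit 64) (@Lb.g g9 (@Lb.g g11 (@Lb.r r2659 (@Lb.r r2450 (@Lb.r r593 (@Lb.d (nat_lit 0) (nat_lit 70) (nat_lit 514) (@Lb.fm (nat_lit 3) t616))))))))
noncomputable def l31602 : Lb := (@Lb.d (nat_lit 8) (nat_lit 548) (nat_lit 64) (@Lb.g g9 (@Lb.g g10 (@Lb.g g11 (@Lb.r r1307 (@Lb.r r1626 (@Lb.r r404 (@Lb.r r1625 (@Lb.d (nat_lit 650) (nat_lit 102) (nat_lit 409) (@Lb.t (@Lb.fm (nat_lit 9) t5690)))))))))))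
noncomputable def l31603 : Lb := (@Lb.d (nat_lit 16) (nat_lit 548) (nat_lit 133) (@Lb.g g8 (@Lb.g g9 (@Lb.g g10 (@Lb.g g11 (@Lb.r r2651 (@Lb.r r610 (@Lb.r r2193 (@Lb.r r2440 (@Lb.d (nat_lit 256) (nat_lit 86) (nat_lit 645) (@Lb.fp (nat_lit 9) t5691)))))))))))
noncomputable def l31604 : Lb := (@Lb.d (nat_lit 8) (nat_lit 545) (nat_lit 145) (@Lb.g g9 (@Lb.g g10 (@Lb.g g11 (@Lb.r r344 (@Lb.r r359 (@Lb.r r1445 (@Lb.d (nat_lit 582) (nat_lit 32) (nat_lit 408) (@Lb.t (@Lb.fm (nat_lit 9) t3240))))))))))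
noncomputable def l31605 : Lb := (@Lb.r r275 (@Lb.d (nat_lit 166) (nat_lit 261) (nat_lit 2) (@Lb.g g8 (@Lb.g g9 (@Lb.g g10 (@Lb.r r1415 (@Lb.r r2194 (@Lb.r r2209 (@Lb.r r1620 (@Lb.d (nat_lit 406) (nat_lit 170) (nat_lit 648) (@Lb.t (@Lb.fm (nat_lit 9) t5692))))))))))))
noncomputable def l31606 : Lb := (@Lb.d (nat_lit 2) (nat_lit 2) (nat_lit 130) (@Lb.g g8 (@Lb.g g9 (@Lb.g g10 (@Lb.g g11 (@Lb.r r580 (@Lb.r r1367 (@Lb.r r2218 (@Lb.r r1193 (@Lb.r r1188 (@Lb.d (nat_lit 640) (nat_lit 2) (nat_lit 586) (@Lb.fp (nat_lit 9) t992))))))))))))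
noncomputable def l31607 : Lb := (@Lb.d (nat_lit 550) (nat_lit 97) (nat_lit 514) (@Lb.r r1284 (@Lb.r r1414 (@Lb.r r2651 (@Lb.g g5 (@Lb.d (nat_lit 0) (nat_lit 25) (nat_lit 0) (@Lb.t (@Lb.fm (nat_lit 3) t5079))))))))
noncomputable def l31608 : Lb := (@Lb.d (nat_lit 544) (nat_lit 261) (nat_lit 324) (@Lb.r r20 (@Lb.r r2321 (@Lb.r r1323 (@Lb.r r388 (@Lb.g g7 (@Lb.g g10 (@Lb.g g5 (@Lb.g g4 (@Lb.d (nat_lit 8) (nat_lit 0) (nat_lit 81) (@Lb.fm (nat_lit 9) t5693)))))))))))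
noncomputable def l31609 : Lb := (@Lb.r r323 (@Lb.d (nat_lit 0) (nat_lit 266) (nat_lit 1) (@Lb.g g9 (@Lb.g g10 (@Lb.r r1687 (@Lb.r r2214 (@Lb.r r2577 (@Lb.d (nat_lit 678) (nat_lit 136) (nat_lit 520) (@Lb.fm (nat_lit 3) t50)))))))))
noncomputable def l31610 : Lb := (@Lb.d (nat_lit 2) (nat_lit 2) (nat_lit 17) (@Lb.g g8 (@Lb.g g9 (@Lb.g g10 (@Lb.r r1579 (@Lb.r r2585 (@Lb.r r2564 (@Lb.d (nat_lit 644) (nat_lit 70) (nat_lit 402) (@Lb.t (@Lb.fp (nat_lit 9) t820))))))))))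
noncomputable def l31611 : Lb := (@Lb.d (nat_lit 0) (nat_lit 256) (nat_lit 128) (@Lb.g g11 (@Lb.r r2626 (@Lb.d (nat_lit 0) (nat_lit 0) (nat_lit 384) (@Lb.t (@Lb.fp (nat_lit 3) t2))))))
noncomputable def l31612 : Lb := (@Lb.d (nat_lit 10) (nat_lit 0) (nat_lit 10) (@Lb.g g8 (@Lb.g g10 (@Lb.r r2325 (@Lb.r r555 (@Lb.r r676 (@Lb.r r1158 (@Lb.d (nat_lit 2) (nat_lit 85) (nat_lit 289) (@Lb.fm (nat_lit 3) t100)))))))))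
noncomputable def l31613 : Lb := (@Lb.r r323 (@Lb.d (nat_lit 0) (nat_lit 8) (nat_lit 2) (@Lb.g g6 (@Lb.r r1445 (@Lb.r r2587 (@Lb.r r2690 (@Lb.r r24 (@Lb.d (nat_lit 256) (nat_lit 0) (nat_lit 681) (@Lb.t (@Lb.fm (nat_lit 3) t1261))))))))))
noncomputable def l31614 : Lb := (@Lb.d (nat_lit 10) (nat_lit 512) (nat_lit 10) (@Lb.g g8 (@Lb.g g10 (@Lb.r r2325 (@Lb.r r555 (@Lb.r r676 (@Lb.r r1158 (@Lb.d (nat_lit 2) (nat_lit 90) (nat_lit 290) (@Lb.fm (nat_lit 3) t100)))))))))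
noncomputable def l31615 : Lb := (@Lb.d (nat_lit 2) (nat_lit 258) (nat_lit 10) (@Lb.g g8 (@Lb.g g9 (@Lb.g g10 (@Lb.r r1555 (@Lb.r r297 (@Lb.r r1188 (@Lb.r r1158 (@Lb.d (nat_lit 2) (nat_lit 10) (nat_lit 418) (@Lb.t (@Lb.fp (nat_lit 9) t88)))))))))))
noncomputable def l31616 : Lb := (@Lb.d (nat_lit 8) (nat_lit 265) (nat_lit 129) (@Lb.g g9 (@Lb.g g10 (@Lb.g g11 (@Lb.r r419 (@Lb.r r98 (@Lb.d (nat_lit 2) (nat_lit 9) (nat_lit 137) (@Lb.t (@Lb.fm (nat_lit 9) t594)))))))))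
noncomputable def l31617 : Lb := (@Lb.d (nat_lit 130) (nat_lit 340) (nat_lit 86) (@Lb.r r422 (@Lb.r r2465 (@Lb.r r1303 (@Lb.g g6 (@Lb.g g5 (@Lb.g g4 (@Lb.d (nat_lit 1) (nat_lit 6) (nat_lit 5) (@Lb.r r387 (@Lb.t (@Lb.fp (nat_lit 9) t125)))))))))))
noncomputable def l31618 : Lb := (@Lb.d (nat_lit 40) (nat_lit 328) (nat_lit 9) (@Lb.g g5 (@Lb.g g10 (@Lb.r r587 (@Lb.r r600 (@Lb.r r342 (@Lb.d (nat_lit 86) (nat_lit 96) (nat_lit 645) (@Lb.fp (nat_lit 3) t394))))))))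
noncomputable def l31619 : Lb := (@Lb.r r21 (@Lb.d (nat_lit 514) (nat_lit 288) (nat_lit 130) (@Lb.g g8 (@Lb.g g10 (@Lb.g g11 (@Lb.r r602 (@Lb.r r401 (@Lb.r r2663 (@Lb.d (nat_lit 342) (nat_lit 89) (nat_lit 618) (@Lb.t (@Lb.fp (nat_lit 9) t145)))))))))))
noncomputable def l31620 : Lb := (@Lb.r r323 (@Lb.d (nat_lit 0) (nat_lit 521) (nat_lit 10) (@Lb.g g9 (@Lb.g g10 (@Lb.r r1323 (@Lb.r r1441 (@Lb.r r422 (@Lb.d (nat_lit 72) (nat_lit 106) (nat_lit 153) (@Lb.fm (nat_lit 3) t144)))))))))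
noncomputable def l31621 : Lb := (@Lb.r r82 (@Lb.r r275 (@Lb.d (nat_lit 130) (nat_lit 548) (nat_lit 0) (@Lb.g g8 (@Lb.g g9 (@Lb.r r599 (@Lb.r r98 (@Lb.r r264 (@Lb.d (nat_lit 386) (nat_lit 133) (nat_lit 160) (@Lb.fm (nat_lit 3) t5694))))))))))
noncomputable def l31622 : Lb := (@Lb.d (nat_lit 2) (nat_lit 36) (nat_lit 130) (@Lb.g g8 (@Lb.g g9 (@Lb.g g10 (@Lb.g g11 (@Lb.r r1602 (@Lb.r r2627 (@Lb.r r36 (@Lb.r r149 (@Lb.r r1060 (@Lb.d (nat_lit 594) (nat_lit 10) (nat_lit 586) (@Lb.fm (nat_lit 9) t5695))))))))))))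
noncomputable def l31623 : Lb := (@Lb.r r323 (@Lb.g g9 (@Lb.g g6 (@Lb.r r2339 (@Lb.r r82 (@Lb.d (nat_lit 0) (nat_lit 576) (nat_lit 1) (@Lb.fp (nat_lit 3) t1366)))))))
noncomputable def l31624 : Lb := (@Lb.d (nat_lit 18) (nat_lit 6) (nat_lit 609) (@Lb.r r150 (@Lb.r r72 (@Lb.r r293 (@Lb.r r2395 (@Lb.g g7 (@Lb.g g6 (@Lb.g g5 (@Lb.d (nat_lit 16) (nat_lit 1) (nat_lit 129) (@Lb.t (@Lb.fm (nat_lit 9) t5696)))))))))))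
noncomputable def l31625 : Lb := (@Lb.d (nat_lit 18) (nat_lit 520) (nat_lit 610) (@Lb.r r150 (@Lb.r r72 (@Lb.r r293 (@Lb.r r2395 (@Lb.g g7 (@Lb.g g6 (@Lb.g g5 (@Lb.d (nat_lit 16) (nat_lit 1) (nat_lit 129) (@Lb.t (@Lb.fm (nat_lit 9) t5697)))))))))))
noncomputable def l31626 : Lb := (@Lb.d (nat_lit 262) (nat_lit 0) (nat_lit 128) (@Lb.r r2085 (@Lb.r r1112 (@Lb.r r422 (@Lb.g g11 (@Lb.g g5 (@Lb.d (nat_lit 0) (nat_lit 17) (nat_lit 264) (@Lb.r r578 (@Lb.fm (nat_lit 3) t1895)))))))))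
noncomputable def l31627 : Lb := (@Lb.d (nat_lit 32) (nat_lit 0) (nat_lit 73) (@Lb.g g10 (@Lb.g g11 (@Lb.r r1683 (@Lb.r r24 (@Lb.r r2405 (@Lb.r r2650 (@Lb.d (nat_lit 608) (nat_lit 164) (nat_lit 640) (@Lb.fp (nat_lit 3) t5698)))))))))
noncomputable def l31628 : Lb := (@Lb.d (nat_lit 65) (nat_lit 2) (nat_lit 2) (@Lb.g g8 (@Lb.g g9 (@Lb.g g10 (@Lb.g g11 (@Lb.r r2473 (@Lb.r r1623 (@Lb.r r386 (@Lb.r r1108 (@Lb.d (nat_lit 534) (nat_lit 70) (nat_lit 105) (@Lb.fm (nat_lit 9) t5699)))))))))))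
noncomputable def l31629 : Lb := (@Lb.r r1284 (@Lb.d (nat_lit 0) (nat_lit 2) (nat_lit 2) (@Lb.g g9 (@Lb.g g10 (@Lb.g g11 (@Lb.r r2721 (@Lb.r r2467 (@Lb.r r2438 (@Lb.d (nat_lit 610) (nat_lit 138) (nat_lit 642) (@Lb.t (@Lb.fm (nat_lit 9) t2605)))))))))))
noncomputable def l31630 : Lb := (@Lb.r r323 (@Lb.d (nat_lit 130) (nat_lit 66) (nat_lit 2) (@Lb.g g8 (@Lb.g g9 (@Lb.g g10 (@Lb.r r1623 (@Lb.r r2146 (@Lb.r r2312 (@Lb.d (nat_lit 673) (nat_lit 73) (nat_lit 673) (@Lb.t (@Lb.fm (nat_lit 9) t1242)))))))))))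
noncomputable def l31631 : Lb := (@Lb.r r323 (@Lb.d (nat_lit 129) (nat_lit 516) (nat_lit 16) (@Lb.g g8 (@Lb.g g9 (@Lb.g g10 (@Lb.r r1623 (@Lb.r r2345 (@Lb.r r2340 (@Lb.d (nat_lit 585) (nat_lit 105) (nat_lit 657) (@Lb.t (@Lb.fm (nat_lit 9) t803)))))))))))
noncomputable def l31632 : Lb := (@Lb.g g9 (@Lb.g g7 (@Lb.r r402 (@Lb.d (nat_lit 0) (nat_lit 581) (nat_lit 513) (@Lb.fm (nat_lit 3) t387)))))
noncomputable def l31633 : Lb := (@Lb.d (nat_lit 0) (nat_lit 325) (nat_lit 130) (@Lb.r r2403 (@Lb.g g6 (@Lb.d (nat_lit 0) (nat_lit 4) (nat_lit 1) (@Lb.t (@Lb.fm (nat_lit 3) t295))))))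
noncomputable def l31634 : Lb := (@Lb.d (nat_lit 0) (nat_lit 518) (nat_lit 65) (@Lb.g g9 (@Lb.g g10 (@Lb.g g11 (@Lb.r r643 (@Lb.r r1186 (@Lb.r r1433 (@Lb.r r24 (@Lb.d (nat_lit 658) (nat_lit 0) (nat_lit 425) (@Lb.t (@Lb.fp (nat_lit 9) t1444)))))))))))
noncomputable def l31635 : Lb := (@Lb.d (nat_lit 160) (nat_lit 256) (nat_lit 2) (@Lb.g g10 (@Lb.g g11 (@Lb.r r264 (@Lb.r r2647 (@Lb.r r2449 (@Lb.r r1426 (@Lb.d (nat_lit 258) (nat_lit 89) (nat_lit 9) (@Lb.fp (nat_lit 3) t2600)))))))))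
noncomputable def l31636 : Lb := (@Lb.r r90 (@Lb.d (nat_lit 38) (nat_lit 129) (nat_lit 128) (@Lb.g g8 (@Lb.g g9 (@Lb.g g11 (@Lb.r r1371 (@Lb.r r2646 (@Lb.r r420 (@Lb.d (nat_lit 106) (nat_lit 162) (nat_lit 153) (@Lb.t (@Lb.fm (nat_lit 9) t390)))))))))))
noncomputable def l31637 : Lb := (@Lb.d (nat_lit 8) (nat_lit 258) (nat_lit 0) (@Lb.g g9 (@Lb.r r2663 (@Lb.r r1414 (@Lb.r r20 (@Lb.r r105 (@Lb.d (nat_lit 613) (nat_lit 74) (nat_lit 514) (@Lb.t (@Lb.fm (nat_lit 3) t3756)))))))))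
noncomputable def l31638 : Lb := (@Lb.d (nat_lit 0) (nat_lit 545) (nat_lit 261) (@Lb.g g9 (@Lb.g g6 (@Lb.g g11 (@Lb.r r2145 (@Lb.d (nat_lit 0) (nat_lit 73) (nat_lit 32) (@Lb.t (@Lb.fm (nat_lit 9) t1465))))))))
noncomputable def l31639 : Lb := (@Lb.d (nat_lit 0) (nat_lit 38) (nat_lit 262) (@Lb.g g9 (@Lb.g g6 (@Lb.g g11 (@Lb.r r2145 (@Lb.d (nat_lit 5) (nat_lit 74) (nat_lit 32) (@Lb.t (@Lb.fm (nat_lit 9) t5700))))))))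
noncomputable def l31640 : Lb := (@Lb.d (nat_lit 0) (nat_lit 0) (nat_lit 5) (@Lb.g g6 (@Lb.d (nat_lit 0) (nat_lit 164) (nat_lit 326) (@Lb.t (@Lb.fm (nat_lit 3) t1119)))))
noncomputable def l31641 : Lb := (@Lb.d (nat_lit 32) (nat_lit 258) (nat_lit 66) (@Lb.g g9 (@Lb.g g10 (@Lb.g g11 (@Lb.r r1447 (@Lb.r r293 (@Lb.r r72 (@Lb.r r150 (@Lb.d (nat_lit 33) (nat_lit 9) (nat_lit 402) (@Lb.t (@Lb.fp (nat_lit 9) t5701)))))))))))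
noncomputable def l31642 : Lb := (@Lb.d (nat_lit 2) (nat_lit 514) (nat_lit 2) (@Lb.g g8 (@Lb.g g9 (@Lb.g g10 (@Lb.r r1706 (@Lb.r r1451 (@Lb.r r2457 (@Lb.r r2436 (@Lb.d (nat_lit 617) (nat_lit 129) (nat_lit 410) (@Lb.t (@Lb.fp (nat_lit 9) t3136)))))))))))
noncomputable def l31643 : Lb := (@Lb.d (nat_lit 72) (nat_lit 133) (nat_lit 520) (@Lb.r r345 (@Lb.r r134 (@Lb.r r295 (@Lb.r r536 (@Lb.g g5 (@Lb.d (nat_lit 4) (nat_lit 17) (nat_lit 0) (@Lb.t (@Lb.fm (nat_lit 3) t2479)))))))))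
noncomputable def l31644 : Lb := (@Lb.d (nat_lit 2) (nat_lit 258) (nat_lit 2) (@Lb.g g8 (@Lb.g g9 (@Lb.g g10 (@Lb.r r1689 (@Lb.r r2579 (@Lb.r r2122 (@Lb.r r2120 (@Lb.d (nat_lit 98) (nat_lit 162) (nat_lit 361) (@Lb.t (@Lb.fm (nat_lit 9) t506)))))))))))
noncomputable def l31645 : Lb := (@Lb.d (nat_lit 293) (nat_lit 136) (nat_lit 17) (@Lb.r r597 (@Lb.r r279 (@Lb.r r584 (@Lb.r r326 (@Lb.g g7 (@Lb.g g6 (@Lb.g g5 (@Lb.d (nat_lit 4) (nat_lit 1) (nat_lit 65) (@Lb.t (@Lb.fm (nat_lit 9) t504)))))))))))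
noncomputable def l31646 : Lb := (@Lb.d (nat_lit 133) (nat_lit 0) (nat_lit 130) (@Lb.g g8 (@Lb.g g9 (@Lb.g g10 (@Lb.g g11 (@Lb.r r2666 (@Lb.r r2664 (@Lb.r r299 (@Lb.r r2337 (@Lb.d (nat_lit 521) (nat_lit 2) (nat_lit 426) (@Lb.fp (nat_lit 9) t631)))))))))))
noncomputable def l31647 : Lb := (@Lb.r r260 (@Lb.r r322 (@Lb.d (nat_lit 0) (nat_lit 2) (nat_lit 324) (@Lb.g g9 (@Lb.g g7 (@Lb.r r422 (@Lb.r r1173 (@Lb.r r2148 (@Lb.d (nat_lit 9) (nat_lit 137) (nat_lit 66) (@Lb.fm (nat_lit 3) t3565))))))))))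
noncomputable def l31648 : Lb := (@Lb.r r260 (@Lb.r r322 (@Lb.d (nat_lit 0) (nat_lit 514) (nat_lit 324) (@Lb.g g9 (@Lb.g g7 (@Lb.r r422 (@Lb.r r1173 (@Lb.r r2148 (@Lb.d (nat_lit 9) (nat_lit 130) (nat_lit 64) (@Lb.fm (nat_lit 3) t2345))))))))))
noncomputable def l31649 : Lb := (@Lb.d (nat_lit 296) (nat_lit 144) (nat_lit 389) (@Lb.r r2129 (@Lb.r r354 (@Lb.r r81 (@Lb.r r1671 (@Lb.g g7 (@Lb.g g6 (@Lb.g g5 (@Lb.g g8 (@Lb.d (nat_lit 9) (nat_lit 0) (nat_lit 134) (@Lb.fp (nat_lit 9) t3349)))))))))))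
noncomputable def l31650 : Lb := (@Lb.d (nat_lit 36) (nat_lit 0) (nat_lit 136) (@Lb.g g8 (@Lb.g g9 (@Lb.g g11 (@Lb.r r86 (@Lb.r r345 (@Lb.r r359 (@Lb.r r1540 (@Lb.d (nat_lit 665) (nat_lit 9) (nat_lit 514) (@Lb.t (@Lb.fm (nat_lit 9) t87)))))))))))
noncomputable def l31651 : Lb := (@Lb.r r322 (@Lb.d (nat_lit 8) (nat_lit 266) (nat_lit 576) (@Lb.g g9 (@Lb.g g7 (@Lb.r r602 (@Lb.r r2388 (@Lb.r r2713 (@Lb.d (nat_lit 666) (nat_lit 160) (nat_lit 102) (@Lb.fp (nat_lit 3) t1255)))))))))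
noncomputable def l31652 : Lb := (@Lb.d (nat_lit 8) (nat_lit 521) (nat_lit 129) (@Lb.g g9 (@Lb.g g10 (@Lb.g g11 (@Lb.r r614 (@Lb.r r404 (@Lb.r r619 (@Lb.r r537 (@Lb.d (nat_lit 73) (nat_lit 105) (nat_lit 22) (@Lb.t (@Lb.fp (nat_lit 9) t2032)))))))))))
noncomputable def l31653 : Lb := (@Lb.d (nat_lit 0) (nat_lit 2) (nat_lit 2) (@Lb.g g8 (@Lb.g g9 (@Lb.g g10 (@Lb.g g7 (@Lb.r r386 (@Lb.r r97 (@Lb.r r24 (@Lb.d (nat_lit 330) (nat_lit 9) (nat_lit 585) (@Lb.fp (nat_lit 9) t166))))))))))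
noncomputable def l31654 : Lb := (@Lb.d (nat_lit 136) (nat_lit 522) (nat_lit 64) (@Lb.g g9 (@Lb.g g11 (@Lb.r r2708 (@Lb.r r1366 (@Lb.r r683 (@Lb.r r1705 (@Lb.d (nat_lit 586) (nat_lit 81) (nat_lit 552) (@Lb.fm (nat_lit 3) t40)))))))))
noncomputable def l31655 : Lb := (@Lb.d (nat_lit 650) (nat_lit 681) (nat_lit 26) (@Lb.r r2325 (@Lb.r r1190 (@Lb.r r2392 (@Lb.r r1699 (@Lb.g g7 (@Lb.g g6 (@Lb.g g5 (@Lb.d (nat_lit 0) (nat_lit 25) (nat_lit 74) (@Lb.t (@Lb.fm (nat_lit 9) t171)))))))))))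
noncomputable def l31656 : Lb := (@Lb.d (nat_lit 10) (nat_lit 545) (nat_lit 0) (@Lb.g g8 (@Lb.g g9 (@Lb.r r356 (@Lb.r r1307 (@Lb.r r2178 (@Lb.r r1573 (@Lb.d (nat_lit 666) (nat_lit 146) (nat_lit 584) (@Lb.fm (nat_lit 3) t229)))))))))
noncomputable def l31657 : Lb := (@Lb.r r24 (@Lb.r r101 (@Lb.d (nat_lit 2) (nat_lit 593) (nat_lit 298) (@Lb.fp (nat_lit 1) t153))))
noncomputable def l31658 : Lb := (@Lb.d (nat_lit 10) (nat_lit 0) (nat_lit 0) (@Lb.g g8 (@Lb.d (nat_lit 10) (nat_lit 1) (nat_lit 0) (@Lb.t (@Lb.fp (nat_lit 3) t2)))))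
noncomputable def l31659 : Lb := (@Lb.r r21 (@Lb.d (nat_lit 280) (nat_lit 256) (nat_lit 0) (@Lb.g g8 (@Lb.g g10 (@Lb.r r2715 (@Lb.r r1626 (@Lb.r r145 (@Lb.d (nat_lit 609) (nat_lit 106) (nat_lit 32) (@Lb.fp (nat_lit 3) t5702)))))))))
noncomputable def l31660 : Lb := (@Lb.d (nat_lit 144) (nat_lit 514) (nat_lit 64) (@Lb.g g8 (@Lb.g g9 (@Lb.g g10 (@Lb.g g11 (@Lb.r r387 (@Lb.r r1177 (@Lb.r r2450 (@Lb.r r2632 (@Lb.d (nat_lit 354) (nat_lit 85) (nat_lit 649) (@Lb.fp (nat_lit 9) t749)))))))))))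
noncomputable def l31661 : Lb := (@Lb.d (nat_lit 10) (nat_lit 544) (nat_lit 0) (@Lb.g g8 (@Lb.g g9 (@Lb.r r292 (@Lb.r r1371 (@Lb.r r2178 (@Lb.r r2661 (@Lb.d (nat_lit 170) (nat_lit 90) (nat_lit 325) (@Lb.fm (nat_lit 3) t64)))))))))
noncomputable def l31662 : Lb := (@Lb.d (nat_lit 8) (nat_lit 2) (nat_lit 0) (@Lb.fp (nat_lit 1) t2))
noncomputable def l31663 : Lb := (@Lb.d (nat_lit 10) (nat_lit 6) (nat_lit 74) (@Lb.g g8 (@Lb.g g9 (@Lb.g g10 (@Lb.g g11 (@Lb.r r619 (@Lb.r r1610 (@Lb.r r660 (@Lb.r r425 (@Lb.r r2084 (@Lb.d (nat_lit 277) (nat_lit 104) (nat_lit 617) (@Lb.fp (nat_lit 9) t658))))))))))))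
noncomputable def l31664 : Lb := (@Lb.r r21 (@Lb.d (nat_lit 280) (nat_lit 512) (nat_lit 0) (@Lb.g g8 (@Lb.g g10 (@Lb.r r2715 (@Lb.r r1626 (@Lb.r r145 (@Lb.d (nat_lit 609) (nat_lit 101) (nat_lit 34) (@Lb.fp (nat_lit 3) t5702)))))))))
noncomputable def l31665 : Lb := (@Lb.r r323 (@Lb.d (nat_lit 34) (nat_lit 262) (nat_lit 0) (@Lb.g g8 (@Lb.g g9 (@Lb.g g10 (@Lb.r r401 (@Lb.r r2727 (@Lb.r r2694 (@Lb.r r2180 (@Lb.d (nat_lit 673) (nat_lit 0) (nat_lit 88) (@Lb.t (@Lb.fm (nat_lit 9) t3379))))))))))))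
noncomputable def l31666 : Lb := (@Lb.r r81 (@Lb.r r323 (@Lb.d (nat_lit 162) (nat_lit 4) (nat_lit 32) (@Lb.g g8 (@Lb.g g6 (@Lb.r r361 (@Lb.r r535 (@Lb.r r264 (@Lb.d (nat_lit 130) (nat_lit 1) (nat_lit 65) (@Lb.fm (nat_lit 3) t128))))))))))
noncomputable def l31667 : Lb := (@Lb.d (nat_lit 10) (nat_lit 513) (nat_lit 66) (@Lb.g g8 (@Lb.g g9 (@Lb.g g10 (@Lb.g g7 (@Lb.r r386 (@Lb.r r97 (@Lb.r r24 (@Lb.d (nat_lit 328) (nat_lit 9) (nat_lit 585) (@Lb.fp (nat_lit 9) t1150))))))))))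
noncomputable def l31668 : Lb := (@Lb.d (nat_lit 10) (nat_lit 33) (nat_lit 0) (@Lb.g g8 (@Lb.g g9 (@Lb.r r356 (@Lb.r r1307 (@Lb.r r2178 (@Lb.r r1573 (@Lb.d (nat_lit 666) (nat_lit 153) (nat_lit 586) (@Lb.fm (nat_lit 3) t229)))))))))
noncomputable def l31669 : Lb := (@Lb.d (nat_lit 272) (nat_lit 2) (nat_lit 0) (@Lb.g g8 (@Lb.g g9 (@Lb.r r322 (@Lb.r r1667 (@Lb.r r578 (@Lb.r r25 (@Lb.d (nat_lit 9) (nat_lit 146) (nat_lit 10) (@Lb.fp (nat_lit 3) t3596)))))))))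
noncomputable def l31670 : Lb := (@Lb.d (nat_lit 2) (nat_lit 288) (nat_lit 128) (@Lb.g g8 (@Lb.g g11 (@Lb.r r1162 (@Lb.r r401 (@Lb.r r1572 (@Lb.r r1639 (@Lb.d (nat_lit 409) (nat_lit 73) (nat_lit 549) (@Lb.fm (nat_lit 3) t4704)))))))))
noncomputable def l31671 : Lb := (@Lb.r r21 (@Lb.r r263 (@Lb.d (nat_lit 34) (nat_lit 264) (nat_lit 2) (@Lb.g g8 (@Lb.g g10 (@Lb.r r1427 (@Lb.r r1125 (@Lb.r r1048 (@Lb.d (nat_lit 261) (nat_lit 2) (nat_lit 2) (@Lb.fm (nat_lit 3) t894))))))))))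
noncomputable def l31672 : Lb := (@Lb.d (nat_lit 2) (nat_lit 265) (nat_lit 129) (@Lb.g g8 (@Lb.g g9 (@Lb.g g10 (@Lb.g g11 (@Lb.r r427 (@Lb.r r388 (@Lb.r r70 (@Lb.r r153 (@Lb.r r132 (@Lb.d (nat_lit 4) (nat_lit 72) (nat_lit 89) (@Lb.fp (nat_lit 9) t5703))))))))))))
noncomputable def l31673 : Lb := (@Lb.d (nat_lit 2) (nat_lit 258) (nat_lit 130) (@Lb.g g8 (@Lb.g g9 (@Lb.g g10 (@Lb.g g11 (@Lb.r r2347 (@Lb.r r1606 (@Lb.r r2457 (@Lb.r r2436 (@Lb.d (nat_lit 682) (nat_lit 73) (nat_lit 425) (@Lb.fp (nat_lit 9) t2103)))))))))))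
noncomputable def l31674 : Lb := (@Lb.r r101 (@Lb.d (nat_lit 256) (nat_lit 336) (nat_lit 280) (@Lb.fm (nat_lit 1) t1174)))
noncomputable def l31675 : Lb := (@Lb.d (nat_lit 66) (nat_lit 165) (nat_lit 646) (@Lb.r r68 (@Lb.r r74 (@Lb.r r104 (@Lb.r r297 (@Lb.g g11 (@Lb.g g6 (@Lb.g g5 (@Lb.g g4 (@Lb.d (nat_lit 0) (nat_lit 1) (nat_lit 129) (@Lb.fm (nat_lit 9) t1919)))))))))))
noncomputable def l31676 : Lb := (@Lb.d (nat_lit 336) (nat_lit 336) (nat_lit 166) (@Lb.r r1096 (@Lb.r r1686 (@Lb.r r2665 (@Lb.r r2691 (@Lb.g g7 (@Lb.g g6 (@Lb.g g5 (@Lb.d (nat_lit 0) (nat_lit 1) (nat_lit 134) (@Lb.t (@Lb.fp (nat_lit 9) t3293)))))))))))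
noncomputable def l31677 : Lb := (@Lb.d (nat_lit 274) (nat_lit 514) (nat_lit 0) (@Lb.g g8 (@Lb.g g9 (@Lb.r r322 (@Lb.r r1667 (@Lb.r r578 (@Lb.r r25 (@Lb.d (nat_lit 4) (nat_lit 82) (nat_lit 10) (@Lb.fp (nat_lit 3) t1644)))))))))
noncomputable def l31678 : Lb := (@Lb.d (nat_lit 134) (nat_lit 256) (nat_lit 130) (@Lb.g g8 (@Lb.g g9 (@Lb.g g10 (@Lb.g g11 (@Lb.r r419 (@Lb.r r164 (@Lb.r r2438 (@Lb.r r97 (@Lb.d (nat_lit 361) (nat_lit 33) (nat_lit 602) (@Lb.fp (nat_lit 9) t3270)))))))))))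
noncomputable def l31679 : Lb := (@Lb.r r21 (@Lb.d (nat_lit 657) (nat_lit 0) (nat_lit 10) (@Lb.g g4 (@Lb.g g10 (@Lb.g g11 (@Lb.r r1623 (@Lb.r r2401 (@Lb.r r1170 (@Lb.d (nat_lit 288) (nat_lit 138) (nat_lit 32) (@Lb.t (@Lb.fm (nat_lit 9) t151)))))))))))
noncomputable def l31680 : Lb := (@Lb.r r20 (@Lb.d (nat_lit 0) (nat_lit 357) (nat_lit 128) (@Lb.g g5 (@Lb.g g10 (@Lb.g g11 (@Lb.r r658 (@Lb.r r1419 (@Lb.r r1288 (@Lb.d (nat_lit 545) (nat_lit 6) (nat_lit 0) (@Lb.t (@Lb.fp (nat_lit 9) t739)))))))))))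
noncomputable def l31681 : Lb := (@Lb.r r323 (@Lb.d (nat_lit 1) (nat_lit 0) (nat_lit 8) (@Lb.g g8 (@Lb.g g10 (@Lb.r r1579 (@Lb.r r644 (@Lb.r r2646 (@Lb.r r1057 (@Lb.d (nat_lit 658) (nat_lit 17) (nat_lit 152) (@Lb.fm (nat_lit 3) t1456))))))))))
noncomputable def l31682 : Lb := (@Lb.d (nat_lit 1) (nat_lit 256) (nat_lit 128) (@Lb.g g8 (@Lb.g g10 (@Lb.g g11 (@Lb.r r353 (@Lb.r r667 (@Lb.r r664 (@Lb.r r154 (@Lb.d (nat_lit 25) (nat_lit 2) (nat_lit 69) (@Lb.t (@Lb.fm (nat_lit 9) t87)))))))))))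
noncomputable def l31683 : Lb := (@Lb.d (nat_lit 136) (nat_lit 2) (nat_lit 130) (@Lb.g g9 (@Lb.g g10 (@Lb.g g11 (@Lb.r r618 (@Lb.r r24 (@Lb.r r405 (@Lb.r r611 (@Lb.d (nat_lit 132) (nat_lit 24) (nat_lit 82) (@Lb.t (@Lb.fm (nat_lit 9) t564)))))))))))
noncomputable def l31684 : Lb := (@Lb.d (nat_lit 26) (nat_lit 154) (nat_lit 297) (@Lb.r r2662 (@Lb.r r1444 (@Lb.r r2651 (@Lb.g g6 (@Lb.g g9 (@Lb.d (nat_lit 16) (nat_lit 129) (nat_lit 4) (@Lb.fm (nat_lit 3) t5292))))))))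
noncomputable def l31685 : Lb := (@Lb.d (nat_lit 0) (nat_lit 256) (nat_lit 66) (@Lb.g g9 (@Lb.g g10 (@Lb.g g7 (@Lb.r r386 (@Lb.r r101 (@Lb.r r24 (@Lb.d (nat_lit 37) (nat_lit 81) (nat_lit 329) (@Lb.t (@Lb.fm (nat_lit 9) t1926))))))))))
noncomputable def l31686 : Lb := (@Lb.r r323 (@Lb.d (nat_lit 2) (nat_lit 322) (nat_lit 10) (@Lb.g g8 (@Lb.g g5 (@Lb.g g10 (@Lb.r r539 (@Lb.r r2708 (@Lb.r r2630 (@Lb.d (nat_lit 406) (nat_lit 4) (nat_lit 392) (@Lb.t (@Lb.fm (nat_lit 9) t632)))))))))))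
noncomputable def l31687 : Lb := (@Lb.d (nat_lit 1) (nat_lit 258) (nat_lit 130) (@Lb.g g4 (@Lb.g g9 (@Lb.g g10 (@Lb.g g11 (@Lb.r r1443 (@Lb.r r386 (@Lb.r r97 (@Lb.d (nat_lit 9) (nat_lit 89) (nat_lit 324) (@Lb.fm (nat_lit 9) t2300))))))))))
noncomputable def l31688 : Lb := (@Lb.r r322 (@Lb.d (nat_lit 34) (nat_lit 514) (nat_lit 576) (@Lb.g g8 (@Lb.g g9 (@Lb.g g7 (@Lb.r r361 (@Lb.r r150 (@Lb.r r84 (@Lb.d (nat_lit 22) (nat_lit 150) (nat_lit 521) (@Lb.t (@Lb.fp (nat_lit 9) t259)))))))))))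
noncomputable def l31689 : Lb := (@Lb.d (nat_lit 128) (nat_lit 16) (nat_lit 384) (@Lb.g g10 (@Lb.g g11 (@Lb.r r1304 (@Lb.r r101 (@Lb.r r154 (@Lb.d (nat_lit 530) (nat_lit 0) (nat_lit 128) (@Lb.fp (nat_lit 3) t1069))))))))
noncomputable def l31690 : Lb := (@Lb.d (nat_lit 358) (nat_lit 294) (nat_lit 70) (@Lb.r r2664 (@Lb.r r2470 (@Lb.r r1643 (@Lb.g g7 (@Lb.g g9 (@Lb.g g4 (@Lb.d (nat_lit 10) (nat_lit 10) (nat_lit 64) (@Lb.r r74 (@Lb.t (@Lb.fp (nat_lit 9) t3193)))))))))))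
noncomputable def l31691 : Lb := (@Lb.d (nat_lit 10) (nat_lit 264) (nat_lit 0) (@Lb.g g8 (@Lb.g g10 (@Lb.g g11 (@Lb.r r293 (@Lb.r r2651 (@Lb.r r2370 (@Lb.r r1112 (@Lb.d (nat_lit 42) (nat_lit 4) (nat_lit 261) (@Lb.t (@Lb.fp (nat_lit 9) t1639)))))))))))
noncomputable def l31692 : Lb := (@Lb.d (nat_lit 133) (nat_lit 534) (nat_lit 354) (@Lb.r r277 (@Lb.r r342 (@Lb.r r2731 (@Lb.g g7 (@Lb.g g6 (@Lb.g g5 (@Lb.g g4 (@Lb.d (nat_lit 8) (nat_lit 16) (nat_lit 8) (@Lb.fm (nat_lit 9) t309))))))))))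
noncomputable def l31693 : Lb := (@Lb.d (nat_lit 129) (nat_lit 256) (nat_lit 128) (@Lb.g g8 (@Lb.g g11 (@Lb.r r1291 (@Lb.r r264 (@Lb.d (nat_lit 320) (nat_lit 0) (nat_lit 640) (@Lb.fp (nat_lit 3) t5025)))))))
noncomputable def l31694 : Lb := (@Lb.d (nat_lit 320) (nat_lit 272) (nat_lit 340) (@Lb.r r24 (@Lb.r r1317 (@Lb.r r1446 (@Lb.r r2691 (@Lb.g g7 (@Lb.g g6 (@Lb.g g5 (@Lb.d (nat_lit 0) (nat_lit 10) (nat_lit 133) (@Lb.t (@Lb.fp (nat_lit 9) t1117)))))))))))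
noncomputable def l31695 : Lb := (@Lb.r r82 (@Lb.d (nat_lit 34) (nat_lit 33) (nat_lit 64) (@Lb.g g8 (@Lb.g g9 (@Lb.g g11 (@Lb.r r1571 (@Lb.r r582 (@Lb.r r1445 (@Lb.r r408 (@Lb.d (nat_lit 344) (nat_lit 16) (nat_lit 420) (@Lb.t (@Lb.fp (nat_lit 9) t2429))))))))))))
noncomputable def l31696 : Lb := (@Lb.r r82 (@Lb.d (nat_lit 9) (nat_lit 33) (nat_lit 64) (@Lb.g g8 (@Lb.g g9 (@Lb.g g11 (@Lb.r r1707 (@Lb.r r1668 (@Lb.r r1158 (@Lb.r r2465 (@Lb.d (nat_lit 406) (nat_lit 0) (nat_lit 425) (@Lb.t (@Lb.fp (nat_lit 9) t2927))))))))))))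
noncomputable def l31697 : Lb := (@Lb.d (nat_lit 0) (nat_lit 289) (nat_lit 64) (@Lb.g g9 (@Lb.g g10 (@Lb.g g11 (@Lb.r r618 (@Lb.r r2667 (@Lb.r r2084 (@Lb.r r1061 (@Lb.d (nat_lit 406) (nat_lit 0) (nat_lit 154) (@Lb.t (@Lb.fm (nat_lit 9) t5704)))))))))))
noncomputable def l31698 : Lb := (@Lb.d (nat_lit 9) (nat_lit 257) (nat_lit 136) (@Lb.g g8 (@Lb.g g9 (@Lb.g g11 (@Lb.r r1186 (@Lb.r r1576 (@Lb.r r1689 (@Lb.r r1563 (@Lb.d (nat_lit 9) (nat_lit 5) (nat_lit 518) (@Lb.t (@Lb.fp (nat_lit 9) t385)))))))))))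
noncomputable def l31699 : Lb := (@Lb.d (nat_lit 1) (nat_lit 256) (nat_lit 130) (@Lb.g g8 (@Lb.g g10 (@Lb.g g11 (@Lb.r r618 (@Lb.r r616 (@Lb.r r619 (@Lb.r r609 (@Lb.d (nat_lit 9) (nat_lit 153) (nat_lit 130) (@Lb.t (@Lb.fp (nat_lit 9) t71)))))))))))
noncomputable def l31700 : Lb := (@Lb.d (nat_lit 9) (nat_lit 257) (nat_lit 130) (@Lb.g g8 (@Lb.g g9 (@Lb.g g10 (@Lb.g g11 (@Lb.r r427 (@Lb.r r297 (@Lb.r r104 (@Lb.r r70 (@Lb.r r132 (@Lb.d (nat_lit 9) (nat_lit 149) (nat_lit 136) (@Lb.fp (nat_lit 9) t119))))))))))))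
noncomputable def l31701 : Lb := (@Lb.d (nat_lit 40) (nat_lit 514) (nat_lit 146) (@Lb.g g9 (@Lb.g g10 (@Lb.g g11 (@Lb.r r2471 (@Lb.r r1624 (@Lb.r r405 (@Lb.d (nat_lit 358) (nat_lit 130) (nat_lit 530) (@Lb.t (@Lb.fp (nat_lit 9) t1020))))))))))
noncomputable def l31702 : Lb := (@Lb.d (nat_lit 2) (nat_lit 289) (nat_lit 128) (@Lb.g g8 (@Lb.g g9 (@Lb.g g11 (@Lb.r r516 (@Lb.r r2391 (@Lb.r r2178 (@Lb.r r2577 (@Lb.r r1060 (@Lb.d (nat_lit 74) (nat_lit 161) (nat_lit 682) (@Lb.t (@Lb.fp (nat_lit 9) t4667))))))))))))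
noncomputable def l31703 : Lb := (@Lb.r r323 (@Lb.d (nat_lit 137) (nat_lit 296) (nat_lit 2) (@Lb.g g8 (@Lb.g g9 (@Lb.g g10 (@Lb.r r1707 (@Lb.r r1382 (@Lb.r r2712 (@Lb.r r2469 (@Lb.d (nat_lit 88) (nat_lit 33) (nat_lit 152) (@Lb.t (@Lb.fp (nat_lit 9) t2927))))))))))))
noncomputable def l31704 : Lb := (@Lb.r r81 (@Lb.r r323 (@Lb.d (nat_lit 33) (nat_lit 260) (nat_lit 17) (@Lb.g g8 (@Lb.g g6 (@Lb.r r1641 (@Lb.r r1315 (@Lb.r r1540 (@Lb.d (nat_lit 673) (nat_lit 0) (nat_lit 160) (@Lb.fm (nat_lit 3) t2927))))))))))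
noncomputable def l31705 : Lb := (@Lb.d (nat_lit 40) (nat_lit 2) (nat_lit 146) (@Lb.g g9 (@Lb.g g10 (@Lb.g g11 (@Lb.r r2471 (@Lb.r r1624 (@Lb.r r405 (@Lb.d (nat_lit 358) (nat_lit 137) (nat_lit 529) (@Lb.t (@Lb.fp (nat_lit 9) t1020))))))))))
noncomputable def l31706 : Lb := (@Lb.d (nat_lit 33) (nat_lit 2) (nat_lit 73) (@Lb.g g8 (@Lb.g g9 (@Lb.g g10 (@Lb.g g11 (@Lb.r r1707 (@Lb.r r1194 (@Lb.r r153 (@Lb.r r1560 (@Lb.d (nat_lit 586) (nat_lit 161) (nat_lit 362) (@Lb.fm (nat_lit 9) t5705)))))))))))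
noncomputable def l31707 : Lb := (@Lb.d (nat_lit 33) (nat_lit 514) (nat_lit 129) (@Lb.g g8 (@Lb.g g9 (@Lb.g g6 (@Lb.g g11 (@Lb.r r529 (@Lb.r r407 (@Lb.r r612 (@Lb.d (nat_lit 409) (nat_lit 21) (nat_lit 170) (@Lb.fm (nat_lit 9) t768))))))))))
noncomputable def l31708 : Lb := (@Lb.r r21 (@Lb.d (nat_lit 41) (nat_lit 256) (nat_lit 129) (@Lb.g g8 (@Lb.g g6 (@Lb.g g11 (@Lb.r r529 (@Lb.r r603 (@Lb.r r600 (@Lb.d (nat_lit 356) (nat_lit 37) (nat_lit 168) (@Lb.t (@Lb.fp (nat_lit 9) t1237)))))))))))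
noncomputable def l31709 : Lb := (@Lb.d (nat_lit 33) (nat_lit 258) (nat_lit 129) (@Lb.g g8 (@Lb.g g9 (@Lb.g g6 (@Lb.g g11 (@Lb.r r529 (@Lb.r r407 (@Lb.r r612 (@Lb.d (nat_lit 409) (nat_lit 26) (nat_lit 168) (@Lb.fm (nat_lit 9) t1237))))))))))
noncomputable def l31710 : Lb := (@Lb.d (nat_lit 9) (nat_lit 264) (nat_lit 130) (@Lb.g g8 (@Lb.g g9 (@Lb.g g10 (@Lb.g g11 (@Lb.r r676 (@Lb.r r263 (@Lb.r r162 (@Lb.r r145 (@Lb.r r516 (@Lb.d (nat_lit 2) (nat_lit 4) (nat_lit 136) (@Lb.fm (nat_lit 9) t546))))))))))))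
noncomputable def l31711 : Lb := (@Lb.r r82 (@Lb.d (nat_lit 9) (nat_lit 257) (nat_lit 128) (@Lb.g g8 (@Lb.g g5 (@Lb.g g11 (@Lb.r r660 (@Lb.r r263 (@Lb.r r146 (@Lb.r r516 (@Lb.d (nat_lit 2) (nat_lit 2) (nat_lit 137) (@Lb.t (@Lb.fm (nat_lit 9) t546))))))))))))
noncomputable def l31712 : Lb := (@Lb.d (nat_lit 389) (nat_lit 658) (nat_lit 320) (@Lb.r r24 (@Lb.r r2337 (@Lb.r r579 (@Lb.r r1366 (@Lb.g g6 (@Lb.g g5 (@Lb.g g4 (@Lb.d (nat_lit 6) (nat_lit 2) (nat_lit 1) (@Lb.t (@Lb.fm (nat_lit 9) t985)))))))))))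
noncomputable def l31713 : Lb := (@Lb.d (nat_lit 386) (nat_lit 152) (nat_lit 149) (@Lb.r r1624 (@Lb.r r2341 (@Lb.g g7 (@Lb.d (nat_lit 0) (nat_lit 0) (nat_lit 68) (@Lb.t (@Lb.fm (nat_lit 3) t5706)))))))
noncomputable def l31714 : Lb := (@Lb.r r21 (@Lb.d (nat_lit 130) (nat_lit 8) (nat_lit 41) (@Lb.g g8 (@Lb.g g6 (@Lb.r r661 (@Lb.r r535 (@Lb.r r296 (@Lb.d (nat_lit 133) (nat_lit 150) (nat_lit 322) (@Lb.fp (nat_lit 3) t242)))))))))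
noncomputable def l31715 : Lb := (@Lb.d (nat_lit 36) (nat_lit 409) (nat_lit 73) (@Lb.g g5 (@Lb.g g10 (@Lb.g g11 (@Lb.r r2439 (@Lb.r r1096 (@Lb.r r2198 (@Lb.d (nat_lit 128) (nat_lit 138) (nat_lit 128) (@Lb.t (@Lb.fp (nat_lit 9) t5707))))))))))
noncomputable def l31716 : Lb := (@Lb.d (nat_lit 666) (nat_lit 321) (nat_lit 289) (@Lb.r r601 (@Lb.r r1624 (@Lb.r r1371 (@Lb.g g7 (@Lb.g g6 (@Lb.g g5 (@Lb.d (nat_lit 20) (nat_lit 1) (nat_lit 97) (@Lb.t (@Lb.fm (nat_lit 9) t4807))))))))))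
noncomputable def l31717 : Lb := (@Lb.r r21 (@Lb.d (nat_lit 128) (nat_lit 512) (nat_lit 2) (@Lb.g g8 (@Lb.g g10 (@Lb.r r2691 (@Lb.r r1162 (@Lb.r r2337 (@Lb.r r2440 (@Lb.d (nat_lit 80) (nat_lit 100) (nat_lit 536) (@Lb.fm (nat_lit 3) t242))))))))))
noncomputable def l31718 : Lb := (@Lb.d (nat_lit 2) (nat_lit 25) (nat_lit 73) (@Lb.g g8 (@Lb.g g9 (@Lb.g g10 (@Lb.g g11 (@Lb.r r2567 (@Lb.r r424 (@Lb.r r1177 (@Lb.r r2194 (@Lb.d (nat_lit 33) (nat_lit 40) (nat_lit 641) (@Lb.fm (nat_lit 9) t5708)))))))))))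
noncomputable def l31719 : Lb := (@Lb.r r277 (@Lb.r r326 (@Lb.d (nat_lit 392) (nat_lit 512) (nat_lit 264) (@Lb.g g8 (@Lb.g g11 (@Lb.r r81 (@Lb.r r2214 (@Lb.r r145 (@Lb.d (nat_lit 322) (nat_lit 74) (nat_lit 544) (@Lb.fp (nat_lit 3) t3958))))))))))
noncomputable def l31720 : Lb := (@Lb.r r21 (@Lb.r r70 (@Lb.g g8 (@Lb.r r1636 (@Lb.r r74 (@Lb.r r97 (@Lb.d (nat_lit 330) (nat_lit 98) (nat_lit 656) (@Lb.t (@Lb.fm (nat_lit 3) t5709)))))))))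
noncomputable def l31721 : Lb := (@Lb.r r323 (@Lb.d (nat_lit 128) (nat_lit 2) (nat_lit 2) (@Lb.g g8 (@Lb.g g9 (@Lb.g g10 (@Lb.r r599 (@Lb.r r98 (@Lb.r r97 (@Lb.r r420 (@Lb.d (nat_lit 96) (nat_lit 73) (nat_lit 321) (@Lb.t (@Lb.fm (nat_lit 9) t51))))))))))))
noncomputable def l31722 : Lb := (@Lb.r r21 (@Lb.r r70 (@Lb.r r263 (@Lb.d (nat_lit 10) (nat_lit 256) (nat_lit 0) (@Lb.g g4 (@Lb.r r1575 (@Lb.r r1049 (@Lb.r r660 (@Lb.r r2182 (@Lb.d (nat_lit 1) (nat_lit 18) (nat_lit 325) (@Lb.t (@Lb.fm (nat_lit 3) t74))))))))))))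
noncomputable def l31723 : Lb := (@Lb.r r275 (@Lb.d (nat_lit 0) (nat_lit 34) (nat_lit 2) (@Lb.g g8 (@Lb.g g9 (@Lb.g g10 (@Lb.r r1450 (@Lb.r r1444 (@Lb.r r2331 (@Lb.r r2661 (@Lb.d (nat_lit 665) (nat_lit 40) (nat_lit 645) (@Lb.t (@Lb.fm (nat_lit 9) t5710))))))))))))
noncomputable def l31724 : Lb := (@Lb.d (nat_lit 641) (nat_lit 264) (nat_lit 9) (@Lb.g g4 (@Lb.g g10 (@Lb.r r609 (@Lb.r r1379 (@Lb.r r2706 (@Lb.d (nat_lit 288) (nat_lit 169) (nat_lit 298) (@Lb.fp (nat_lit 3) t1561))))))))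
noncomputable def l31725 : Lb := (@Lb.r r323 (@Lb.d (nat_lit 2) (nat_lit 545) (nat_lit 18) (@Lb.g g4 (@Lb.g g9 (@Lb.g g10 (@Lb.r r603 (@Lb.r r341 (@Lb.d (nat_lit 646) (nat_lit 24) (nat_lit 150) (@Lb.t (@Lb.fm (nat_lit 9) t386))))))))))
noncomputable def l31726 : Lb := (@Lb.d (nat_lit 0) (nat_lit 256) (nat_lit 136) (@Lb.g g8 (@Lb.g g11 (@Lb.d (nat_lit 608) (nat_lit 0) (nat_lit 665) (@Lb.fm (nat_lit 3) t698)))))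
noncomputable def l31727 : Lb := (@Lb.r r323 (@Lb.d (nat_lit 128) (nat_lit 2) (nat_lit 2) (@Lb.g g8 (@Lb.g g9 (@Lb.g g10 (@Lb.r r599 (@Lb.r r98 (@Lb.r r97 (@Lb.r r420 (@Lb.d (nat_lit 96) (nat_lit 66) (nat_lit 265) (@Lb.t (@Lb.fm (nat_lit 9) t51))))))))))))
noncomputable def l31728 : Lb := (@Lb.d (nat_lit 528) (nat_lit 517) (nat_lit 169) (@Lb.r r273 (@Lb.r r2178 (@Lb.r r2595 (@Lb.r r529 (@Lb.g g8 (@Lb.d (nat_lit 530) (nat_lit 0) (nat_lit 0) (@Lb.t (@Lb.fp (nat_lit 3) t1540)))))))))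
noncomputable def l31729 : Lb := (@Lb.r r70 (@Lb.d (nat_lit 34) (nat_lit 1) (nat_lit 0) (@Lb.g g8 (@Lb.g g9 (@Lb.r r2666 (@Lb.r r425 (@Lb.r r1367 (@Lb.r r2708 (@Lb.d (nat_lit 422) (nat_lit 101) (nat_lit 602) (@Lb.fp (nat_lit 3) t329))))))))))
noncomputable def l31730 : Lb := (@Lb.r r323 (@Lb.d (nat_lit 2) (nat_lit 546) (nat_lit 2) (@Lb.g g8 (@Lb.g g9 (@Lb.g g10 (@Lb.r r599 (@Lb.r r392 (@Lb.r r74 (@Lb.d (nat_lit 425) (nat_lit 81) (nat_lit 681) (@Lb.t (@Lb.fm (nat_lit 9) t5711)))))))))))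
noncomputable def l31731 : Lb := (@Lb.d (nat_lit 0) (nat_lit 258) (nat_lit 130) (@Lb.g g9 (@Lb.g g10 (@Lb.g g11 (@Lb.r r427 (@Lb.r r424 (@Lb.r r106 (@Lb.r r25 (@Lb.d (nat_lit 512) (nat_lit 73) (nat_lit 137) (@Lb.t (@Lb.fp (nat_lit 9) t1149)))))))))))
noncomputable def l31732 : Lb := (@Lb.d (nat_lit 2) (nat_lit 514) (nat_lit 130) (@Lb.g g8 (@Lb.g g9 (@Lb.g g10 (@Lb.g g11 (@Lb.r r427 (@Lb.r r424 (@Lb.r r106 (@Lb.r r25 (@Lb.d (nat_lit 514) (nat_lit 73) (nat_lit 2) (@Lb.fm (nat_lit 9) t1149)))))))))))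
noncomputable def l31733 : Lb := (@Lb.r r323 (@Lb.d (nat_lit 33) (nat_lit 2) (nat_lit 20) (@Lb.g g8 (@Lb.g g9 (@Lb.g g6 (@Lb.r r1635 (@Lb.r r97 (@Lb.r r1288 (@Lb.d (nat_lit 642) (nat_lit 41) (nat_lit 581) (@Lb.t (@Lb.fm (nat_lit 9) t1348)))))))))))
noncomputable def l31734 : Lb := (@Lb.r r275 (@Lb.d (nat_lit 130) (nat_lit 2) (nat_lit 2) (@Lb.g g8 (@Lb.g g9 (@Lb.g g10 (@Lb.r r599 (@Lb.r r98 (@Lb.r r1444 (@Lb.d (nat_lit 361) (nat_lit 166) (nat_lit 274) (@Lb.t (@Lb.fp (nat_lit 9) t337)))))))))))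
noncomputable def l31735 : Lb := (@Lb.d (nat_lit 9) (nat_lit 256) (nat_lit 0) (@Lb.g g8 (@Lb.r r358 (@Lb.r r1381 (@Lb.r r2451 (@Lb.r r2564 (@Lb.d (nat_lit 642) (nat_lit 128) (nat_lit 576) (@Lb.t (@Lb.fm (nat_lit 3) t992)))))))))
noncomputable def l31736 : Lb := (@Lb.d (nat_lit 400) (nat_lit 0) (nat_lit 256) (@Lb.g g4 (@Lb.g g7 (@Lb.d (nat_lit 0) (nat_lit 0) (nat_lit 101) (@Lb.fm (nat_lit 3) t3367)))))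
noncomputable def l31737 : Lb := (@Lb.d (nat_lit 641) (nat_lit 256) (nat_lit 0) (@Lb.g g4 (@Lb.r r273 (@Lb.r r2595 (@Lb.r r2178 (@Lb.r r529 (@Lb.d (nat_lit 1) (nat_lit 128) (nat_lit 0) (@Lb.t (@Lb.fm (nat_lit 3) t1222)))))))))
noncomputable def l31738 : Lb := (@Lb.r r323 (@Lb.d (nat_lit 2) (nat_lit 34) (nat_lit 2) (@Lb.g g8 (@Lb.g g9 (@Lb.g g10 (@Lb.r r599 (@Lb.r r420 (@Lb.r r102 (@Lb.d (nat_lit 42) (nat_lit 4) (nat_lit 17) (@Lb.t (@Lb.fp (nat_lit 9) t1149)))))))))))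
noncomputable def l31739 : Lb := (@Lb.d (nat_lit 640) (nat_lit 546) (nat_lit 2) (@Lb.g g4 (@Lb.g g9 (@Lb.g g10 (@Lb.r r643 (@Lb.r r162 (@Lb.r r2465 (@Lb.d (nat_lit 1) (nat_lit 148) (nat_lit 330) (@Lb.t (@Lb.fm (nat_lit 9) t5304))))))))))
noncomputable def l31740 : Lb := (@Lb.d (nat_lit 16) (nat_lit 262) (nat_lit 133) (@Lb.r r2118 (@Lb.r r1416 (@Lb.r r407 (@Lb.g g5 (@Lb.g g4 (@Lb.d (nat_lit 1) (nat_lit 37) (nat_lit 0) (@Lb.r r291 (@Lb.r r98 (@Lb.fp (nat_lit 3) t2697))))))))))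
noncomputable def l31741 : Lb := (@Lb.d (nat_lit 16) (nat_lit 262) (nat_lit 133) (@Lb.r r2118 (@Lb.r r1416 (@Lb.r r407 (@Lb.g g7 (@Lb.g g5 (@Lb.g g4 (@Lb.d (nat_lit 1) (nat_lit 36) (nat_lit 0) (@Lb.r r98 (@Lb.t (@Lb.fm (nat_lit 9) t1549)))))))))))
noncomputable def l31742 : Lb := (@Lb.r r82 (@Lb.r r275 (@Lb.d (nat_lit 6) (nat_lit 1) (nat_lit 0) (@Lb.g g8 (@Lb.g g9 (@Lb.r r1287 (@Lb.r r1094 (@Lb.r r84 (@Lb.r r2217 (@Lb.d (nat_lit 538) (nat_lit 137) (nat_lit 18) (@Lb.fp (nat_lit 3) t1268)))))))))))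
noncomputable def l31743 : Lb := (@Lb.d (nat_lit 136) (nat_lit 514) (nat_lit 0) (@Lb.g g5 (@Lb.g g11 (@Lb.r r168 (@Lb.r r2729 (@Lb.r r2595 (@Lb.r r2178 (@Lb.d (nat_lit 609) (nat_lit 16) (nat_lit 64) (@Lb.fp (nat_lit 3) t1540)))))))))
noncomputable def l31744 : Lb := (@Lb.d (nat_lit 128) (nat_lit 512) (nat_lit 128) (@Lb.g g9 (@Lb.g g11 (@Lb.r r597 (@Lb.r r292 (@Lb.r r539 (@Lb.r r2178 (@Lb.d (nat_lit 586) (nat_lit 34) (nat_lit 37) (@Lb.fm (nat_lit 3) t403)))))))))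
noncomputable def l31745 : Lb := (@Lb.d (nat_lit 18) (nat_lit 516) (nat_lit 1) (@Lb.g g8 (@Lb.g g9 (@Lb.g g10 (@Lb.g g11 (@Lb.r r683 (@Lb.r r676 (@Lb.r r165 (@Lb.r r422 (@Lb.d (nat_lit 105) (nat_lit 149) (nat_lit 330) (@Lb.fm (nat_lit 9) t152)))))))))))
noncomputable def l31746 : Lb := (@Lb.r r82 (@Lb.d (nat_lit 4) (nat_lit 0) (nat_lit 0) (@Lb.g g8 (@Lb.g g9 (@Lb.g g11 (@Lb.r r1643 (@Lb.r r386 (@Lb.r r1188 (@Lb.r r613 (@Lb.d (nat_lit 9) (nat_lit 26) (nat_lit 297) (@Lb.t (@Lb.fp (nat_lit 9) t2697))))))))))))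
noncomputable def l31747 : Lb := (@Lb.d (nat_lit 1) (nat_lit 0) (nat_lit 512) (@Lb.r r24 (@Lb.r r613 (@Lb.r r338 (@Lb.g g7 (@Lb.g g6 (@Lb.d (nat_lit 0) (nat_lit 0) (nat_lit 326) (@Lb.r r529 (@Lb.fm (nat_lit 3) t70)))))))))
noncomputable def l31748 : Lb := (@Lb.d (nat_lit 2) (nat_lit 514) (nat_lit 66) (@Lb.g g8 (@Lb.g g9 (@Lb.g g10 (@Lb.g g11 (@Lb.r r2410 (@Lb.r r387 (@Lb.r r2457 (@Lb.r r2436 (@Lb.d (nat_lit 617) (nat_lit 9) (nat_lit 356) (@Lb.fp (nat_lit 9) t790)))))))))))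
noncomputable def l31749 : Lb := (@Lb.r r260 (@Lb.r r523 (@Lb.r r357 (@Lb.r r666 (@Lb.r r516 (@Lb.d (nat_lit 256) (nat_lit 0) (nat_lit 32) (@Lb.fm (nat_lit 1) t743)))))))
noncomputable def l31750 : Lb := (@Lb.d (nat_lit 9) (nat_lit 8) (nat_lit 72) (@Lb.g g8 (@Lb.g g9 (@Lb.g g10 (@Lb.g g11 (@Lb.r r1699 (@Lb.r r664 (@Lb.r r346 (@Lb.r r2585 (@Lb.d (nat_lit 409) (nat_lit 169) (nat_lit 74) (@Lb.fp (nat_lit 9) t509)))))))))))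
noncomputable def l31751 : Lb := (@Lb.d (nat_lit 522) (nat_lit 420) (nat_lit 656) (@Lb.r r1114 (@Lb.r r1624 (@Lb.r r405 (@Lb.r r1291 (@Lb.g g11 (@Lb.t (@Lb.fm (nat_lit 3) t5374))))))))
noncomputable def l31752 : Lb := (@Lb.r r20 (@Lb.d (nat_lit 0) (nat_lit 101) (nat_lit 132) (@Lb.g g5 (@Lb.g g10 (@Lb.g g11 (@Lb.r r2691 (@Lb.r r2198 (@Lb.r r1608 (@Lb.d (nat_lit 169) (nat_lit 64) (nat_lit 90) (@Lb.t (@Lb.fm (nat_lit 9) t4720)))))))))))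
noncomputable def l31753 : Lb := (@Lb.d (nat_lit 0) (nat_lit 512) (nat_lit 640) (@Lb.r r84 (@Lb.r r1177 (@Lb.r r154 (@Lb.r r664 (@Lb.g g7 (@Lb.d (nat_lit 0) (nat_lit 0) (nat_lit 64) (@Lb.t (@Lb.fm (nat_lit 3) t322)))))))))
noncomputable def l31754 : Lb := (@Lb.d (nat_lit 9) (nat_lit 1) (nat_lit 10) (@Lb.g g8 (@Lb.g g9 (@Lb.g g10 (@Lb.r r1623 (@Lb.r r2193 (@Lb.r r340 (@Lb.r r602 (@Lb.d (nat_lit 664) (nat_lit 66) (nat_lit 354) (@Lb.t (@Lb.fp (nat_lit 9) t3509)))))))))))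
noncomputable def l31755 : Lb := (@Lb.r r260 (@Lb.r r322 (@Lb.d (nat_lit 68) (nat_lit 514) (nat_lit 320) (@Lb.g g9 (@Lb.g g7 (@Lb.r r2708 (@Lb.r r2406 (@Lb.r r2385 (@Lb.d (nat_lit 10) (nat_lit 32) (nat_lit 325) (@Lb.fp (nat_lit 3) t68))))))))))
noncomputable def l31756 : Lb := (@Lb.r r21 (@Lb.r r323 (@Lb.d (nat_lit 5) (nat_lit 520) (nat_lit 0) (@Lb.g g8 (@Lb.g g10 (@Lb.r r395 (@Lb.r r101 (@Lb.r r410 (@Lb.d (nat_lit 9) (nat_lit 26) (nat_lit 85) (@Lb.fm (nat_lit 3) t221))))))))))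
noncomputable def l31757 : Lb := (@Lb.r r70 (@Lb.d (nat_lit 128) (nat_lit 258) (nat_lit 128) (@Lb.g g8 (@Lb.g g9 (@Lb.g g11 (@Lb.r r1547 (@Lb.r r549 (@Lb.r r1624 (@Lb.r r2182 (@Lb.d (nat_lit 0) (nat_lit 33) (nat_lit 150) (@Lb.t (@Lb.fm (nat_lit 9) t125))))))))))))
noncomputable def l31758 : Lb := (@Lb.d (nat_lit 153) (nat_lit 281) (nat_lit 74) (@Lb.g g8 (@Lb.g g9 (@Lb.g g10 (@Lb.g g11 (@Lb.r r2471 (@Lb.r r1130 (@Lb.r r2084 (@Lb.r r2581 (@Lb.d (nat_lit 165) (nat_lit 86) (nat_lit 336) (@Lb.fp (nat_lit 9) t1444)))))))))))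
noncomputable def l31759 : Lb := (@Lb.r r20 (@Lb.r r322 (@Lb.g g5 (@Lb.g g11 (@Lb.r r279 (@Lb.r r676 (@Lb.r r166 (@Lb.r r145 (@Lb.d (nat_lit 2) (nat_lit 593) (nat_lit 266) (@Lb.fm (nat_lit 3) t51))))))))))
noncomputable def l31760 : Lb := (@Lb.d (nat_lit 26) (nat_lit 8) (nat_lit 2) (@Lb.g g8 (@Lb.g g9 (@Lb.g g10 (@Lb.r r683 (@Lb.r r2666 (@Lb.r r36 (@Lb.r r37 (@Lb.d (nat_lit 357) (nat_lit 0) (nat_lit 537) (@Lb.t (@Lb.fm (nat_lit 9) t1369)))))))))))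
noncomputable def l31761 : Lb := (@Lb.d (nat_lit 2) (nat_lit 258) (nat_lit 0) (@Lb.g g8 (@Lb.g g9 (@Lb.g g10 (@Lb.r r1707 (@Lb.r r618 (@Lb.r r25 (@Lb.d (nat_lit 2) (nat_lit 26) (nat_lit 297) (@Lb.t (@Lb.fp (nat_lit 9) t591))))))))))
noncomputable def l31762 : Lb := (@Lb.r r355 (@Lb.d (nat_lit 2) (nat_lit 616) (nat_lit 1) (@Lb.g g8 (@Lb.g g5 (@Lb.g g10 (@Lb.r r1603 (@Lb.r r74 (@Lb.r r24 (@Lb.d (nat_lit 674) (nat_lit 22) (nat_lit 648) (@Lb.t (@Lb.fp (nat_lit 9) t42)))))))))))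
noncomputable def l31763 : Lb := (@Lb.d (nat_lit 132) (nat_lit 10) (nat_lit 64) (@Lb.g g9 (@Lb.g g11 (@Lb.r r660 (@Lb.r r2390 (@Lb.r r2731 (@Lb.r r681 (@Lb.d (nat_lit 598) (nat_lit 149) (nat_lit 26) (@Lb.fm (nat_lit 3) t40)))))))))
noncomputable def l31764 : Lb := (@Lb.d (nat_lit 2) (nat_lit 545) (nat_lit 130) (@Lb.g g8 (@Lb.g g9 (@Lb.g g10 (@Lb.g g11 (@Lb.r r683 (@Lb.r r1642 (@Lb.r r1561 (@Lb.d (nat_lit 585) (nat_lit 98) (nat_lit 402) (@Lb.fm (nat_lit 9) t218))))))))))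
noncomputable def l31765 : Lb := (@Lb.r r323 (@Lb.d (nat_lit 2) (nat_lit 297) (nat_lit 41) (@Lb.g g8 (@Lb.g g9 (@Lb.g g6 (@Lb.r r2455 (@Lb.r r1561 (@Lb.d (nat_lit 585) (nat_lit 32) (nat_lit 400) (@Lb.t (@Lb.fp (nat_lit 9) t218))))))))))
noncomputable def l31766 : Lb := (@Lb.d (nat_lit 0) (nat_lit 512) (nat_lit 130) (@Lb.g g8 (@Lb.g g10 (@Lb.g g11 (@Lb.r r599 (@Lb.r r1702 (@Lb.r r1621 (@Lb.r r1444 (@Lb.d (nat_lit 34) (nat_lit 66) (nat_lit 18) (@Lb.t (@Lb.fm (nat_lit 9) t3327)))))))))))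
noncomputable def l31767 : Lb := (@Lb.d (nat_lit 128) (nat_lit 256) (nat_lit 384) (@Lb.g g11 (@Lb.r r1606 (@Lb.r r1557 (@Lb.r r1316 (@Lb.d (nat_lit 0) (nat_lit 138) (nat_lit 130) (@Lb.t (@Lb.fp (nat_lit 3) t5712))))))))
noncomputable def l31768 : Lb := (@Lb.d (nat_lit 2) (nat_lit 34) (nat_lit 130) (@Lb.g g8 (@Lb.g g9 (@Lb.g g10 (@Lb.g g11 (@Lb.r r2731 (@Lb.r r618 (@Lb.r r537 (@Lb.d (nat_lit 73) (nat_lit 34) (nat_lit 658) (@Lb.fm (nat_lit 9) t218))))))))))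
noncomputable def l31769 : Lb := (@Lb.d (nat_lit 2) (nat_lit 266) (nat_lit 136) (@Lb.g g8 (@Lb.g g9 (@Lb.g g10 (@Lb.g g11 (@Lb.r r2731 (@Lb.r r665 (@Lb.r r146 (@Lb.d (nat_lit 97) (nat_lit 68) (nat_lit 648) (@Lb.fp (nat_lit 9) t941))))))))))
noncomputable def l31770 : Lb := (@Lb.d (nat_lit 10) (nat_lit 32) (nat_lit 73) (@Lb.g g8 (@Lb.g g10 (@Lb.g g11 (@Lb.r r618 (@Lb.r r149 (@Lb.r r360 (@Lb.r r2567 (@Lb.d (nat_lit 649) (nat_lit 25) (nat_lit 642) (@Lb.t (@Lb.fm (nat_lit 9) t71)))))))))))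
noncomputable def l31771 : Lb := (@Lb.d (nat_lit 582) (nat_lit 421) (nat_lit 325) (@Lb.r r2645 (@Lb.r r1316 (@Lb.r r603 (@Lb.g g6 (@Lb.g g5 (@Lb.d (nat_lit 4) (nat_lit 17) (nat_lit 33) (@Lb.r r387 (@Lb.fp (nat_lit 3) t1916)))))))))
noncomputable def l31772 : Lb := (@Lb.d (nat_lit 0) (nat_lit 2) (nat_lit 0) (@Lb.g g9 (@Lb.r r2339 (@Lb.r r2146 (@Lb.r r97 (@Lb.d (nat_lit 5) (nat_lit 145) (nat_lit 680) (@Lb.t (@Lb.fm (nat_lit 3) t1676))))))))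
noncomputable def l31773 : Lb := (@Lb.d (nat_lit 0) (nat_lit 258) (nat_lit 0) (@Lb.g g9 (@Lb.r r2339 (@Lb.r r297 (@Lb.r r1096 (@Lb.r r2150 (@Lb.d (nat_lit 1) (nat_lit 154) (nat_lit 148) (@Lb.t (@Lb.fp (nat_lit 3) t1195)))))))))
noncomputable def l31774 : Lb := (@Lb.d (nat_lit 0) (nat_lit 264) (nat_lit 128) (@Lb.g g9 (@Lb.g g11 (@Lb.r r2450 (@Lb.r r593 (@Lb.d (nat_lit 5) (nat_lit 34) (nat_lit 546) (@Lb.fp (nat_lit 3) t5713)))))))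
noncomputable def l31775 : Lb := (@Lb.d (nat_lit 1) (nat_lit 266) (nat_lit 161) (@Lb.g g8 (@Lb.g g9 (@Lb.g g6 (@Lb.g g11 (@Lb.r r580 (@Lb.r r263 (@Lb.r r2713 (@Lb.r r516 (@Lb.d (nat_lit 25) (nat_lit 2) (nat_lit 100) (@Lb.fm (nat_lit 9) t5714)))))))))))
noncomputable def l31776 : Lb := (@Lb.d (nat_lit 2) (nat_lit 514) (nat_lit 130) (@Lb.g g8 (@Lb.g g9 (@Lb.g g10 (@Lb.g g11 (@Lb.r r427 (@Lb.r r424 (@Lb.r r106 (@Lb.r r25 (@Lb.d (nat_lit 514) (nat_lit 10) (nat_lit 33) (@Lb.fm (nat_lit 9) t1231)))))))))))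
noncomputable def l31777 : Lb := (@Lb.d (nat_lit 33) (nat_lit 258) (nat_lit 129) (@Lb.g g8 (@Lb.g g9 (@Lb.g g6 (@Lb.g g11 (@Lb.r r1643 (@Lb.r r1640 (@Lb.r r25 (@Lb.d (nat_lit 514) (nat_lit 154) (nat_lit 520) (@Lb.fm (nat_lit 9) t1923))))))))))
noncomputable def l31778 : Lb := (@Lb.d (nat_lit 33) (nat_lit 521) (nat_lit 72) (@Lb.g g8 (@Lb.g g9 (@Lb.g g10 (@Lb.g g11 (@Lb.r r2327 (@Lb.r r1194 (@Lb.r r2657 (@Lb.r r536 (@Lb.d (nat_lit 426) (nat_lit 73) (nat_lit 90) (@Lb.fm (nat_lit 9) t4709)))))))))))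
noncomputable def l31779 : Lb := (@Lb.d (nat_lit 642) (nat_lit 258) (nat_lit 130) (@Lb.g g8 (@Lb.g g9 (@Lb.g g10 (@Lb.g g11 (@Lb.r r419 (@Lb.r r106 (@Lb.r r25 (@Lb.d (nat_lit 360) (nat_lit 9) (nat_lit 137) (@Lb.fp (nat_lit 9) t1792))))))))))
noncomputable def l31780 : Lb := (@Lb.d (nat_lit 386) (nat_lit 256) (nat_lit 288) (@Lb.r r154 (@Lb.r r660 (@Lb.r r663 (@Lb.r r353 (@Lb.g g7 (@Lb.d (nat_lit 0) (nat_lit 0) (nat_lit 64) (@Lb.t (@Lb.fp (nat_lit 3) t1082)))))))))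
noncomputable def l31781 : Lb := (@Lb.d (nat_lit 512) (nat_lit 421) (nat_lit 549) (@Lb.r r101 (@Lb.g g4 (@Lb.t (@Lb.fp (nat_lit 3) t5715)))))
noncomputable def l31782 : Lb := (@Lb.d (nat_lit 138) (nat_lit 512) (nat_lit 0) (@Lb.g g4 (@Lb.r r555 (@Lb.r r2178 (@Lb.r r1561 (@Lb.r r2648 (@Lb.d (nat_lit 661) (nat_lit 89) (nat_lit 581) (@Lb.t (@Lb.fp (nat_lit 3) t2551)))))))))
noncomputable def l31783 : Lb := (@Lb.d (nat_lit 36) (nat_lit 168) (nat_lit 646) (@Lb.r r21 (@Lb.r r104 (@Lb.r r386 (@Lb.g g11 (@Lb.g g6 (@Lb.g g5 (@Lb.g g4 (@Lb.d (nat_lit 1) (nat_lit 1) (nat_lit 129) (@Lb.fm (nat_lit 9) t2094))))))))))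
noncomputable def l31784 : Lb := (@Lb.r r154 (@Lb.r r664 (@Lb.r r411 (@Lb.r r609 (@Lb.r r36 (@Lb.d (nat_lit 0) (nat_lit 640) (nat_lit 325) (@Lb.fm (nat_lit 1) t479)))))))
noncomputable def l31785 : Lb := (@Lb.d (nat_lit 137) (nat_lit 522) (nat_lit 0) (@Lb.g g8 (@Lb.g g9 (@Lb.r r646 (@Lb.r r2727 (@Lb.r r2593 (@Lb.r r104 (@Lb.d (nat_lit 33) (nat_lit 136) (nat_lit 278) (@Lb.fm (nat_lit 3) t334)))))))))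
noncomputable def l31786 : Lb := (@Lb.r r323 (@Lb.d (nat_lit 5) (nat_lit 256) (nat_lit 18) (@Lb.g g8 (@Lb.g g10 (@Lb.r r293 (@Lb.r r279 (@Lb.r r548 (@Lb.d (nat_lit 154) (nat_lit 18) (nat_lit 388) (@Lb.fp (nat_lit 3) t421)))))))))
noncomputable def l31787 : Lb := (@Lb.r r101 (@Lb.d (nat_lit 36) (nat_lit 81) (nat_lit 298) (@Lb.fm (nat_lit 1) t153)))
noncomputable def l31788 : Lb := (@Lb.r r82 (@Lb.d (nat_lit 8) (nat_lit 258) (nat_lit 128) (@Lb.g g9 (@Lb.g g11 (@Lb.r r2663 (@Lb.r r386 (@Lb.r r1112 (@Lb.r r2085 (@Lb.d (nat_lit 617) (nat_lit 73) (nat_lit 593) (@Lb.fm (nat_lit 3) t98))))))))))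
noncomputable def l31789 : Lb := (@Lb.r r20 (@Lb.d (nat_lit 0) (nat_lit 417) (nat_lit 0) (@Lb.g g5 (@Lb.r r402 (@Lb.r r2667 (@Lb.r r2660 (@Lb.d (nat_lit 405) (nat_lit 90) (nat_lit 272) (@Lb.t (@Lb.fm (nat_lit 3) t232)))))))))
noncomputable def l31790 : Lb := (@Lb.d (nat_lit 613) (nat_lit 68) (nat_lit 352) (@Lb.r r1637 (@Lb.r r2328 (@Lb.r r2386 (@Lb.r r1703 (@Lb.g g7 (@Lb.g g6 (@Lb.g g5 (@Lb.d (nat_lit 4) (nat_lit 18) (nat_lit 65) (@Lb.t (@Lb.fm (nat_lit 9) t1436)))))))))))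
noncomputable def l31791 : Lb := (@Lb.d (nat_lit 2) (nat_lit 514) (nat_lit 137) (@Lb.g g8 (@Lb.g g9 (@Lb.g g10 (@Lb.g g11 (@Lb.r r1706 (@Lb.r r648 (@Lb.r r1563 (@Lb.r r2337 (@Lb.r r36 (@Lb.d (nat_lit 641) (nat_lit 105) (nat_lit 66) (@Lb.fp (nat_lit 9) t242))))))))))))
noncomputable def l31792 : Lb := (@Lb.d (nat_lit 2) (nat_lit 258) (nat_lit 137) (@Lb.g g8 (@Lb.g g9 (@Lb.g g10 (@Lb.g g11 (@Lb.r r1706 (@Lb.r r648 (@Lb.r r1563 (@Lb.r r2337 (@Lb.r r36 (@Lb.d (nat_lit 641) (nat_lit 98) (nat_lit 64) (@Lb.fp (nat_lit 9) t242))))))))))))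
noncomputable def l31793 : Lb := (@Lb.d (nat_lit 585) (nat_lit 673) (nat_lit 330) (@Lb.r r2329 (@Lb.r r2452 (@Lb.r r1702 (@Lb.r r1443 (@Lb.g g7 (@Lb.g g6 (@Lb.g g5 (@Lb.d (nat_lit 0) (nat_lit 16) (nat_lit 65) (@Lb.t (@Lb.fm (nat_lit 9) t1436)))))))))))
noncomputable def l31794 : Lb := (@Lb.d (nat_lit 0) (nat_lit 256) (nat_lit 128) (@Lb.g g11 (@Lb.r r154 (@Lb.r r404 (@Lb.r r619 (@Lb.r r609 (@Lb.d (nat_lit 8) (nat_lit 129) (nat_lit 325) (@Lb.t (@Lb.fm (nat_lit 3) t479)))))))))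
noncomputable def l31795 : Lb := (@Lb.d (nat_lit 101) (nat_lit 129) (nat_lit 96) (@Lb.r r613 (@Lb.r r280 (@Lb.r r338 (@Lb.r r679 (@Lb.g g7 (@Lb.g g6 (@Lb.g g5 (@Lb.d (nat_lit 0) (nat_lit 18) (nat_lit 65) (@Lb.t (@Lb.fm (nat_lit 9) t128)))))))))))
noncomputable def l31796 : Lb := (@Lb.d (nat_lit 389) (nat_lit 153) (nat_lit 388) (@Lb.r r24 (@Lb.r r2337 (@Lb.r r579 (@Lb.r r1366 (@Lb.g g6 (@Lb.g g5 (@Lb.g g4 (@Lb.d (nat_lit 1) (nat_lit 1) (nat_lit 1) (@Lb.t (@Lb.fm (nat_lit 9) t5716)))))))))))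
noncomputable def l31797 : Lb := (@Lb.d (nat_lit 146) (nat_lit 613) (nat_lit 6) (@Lb.r r390 (@Lb.r r2132 (@Lb.r r1193 (@Lb.g g11 (@Lb.g g6 (@Lb.g g5 (@Lb.g g4 (@Lb.d (nat_lit 32) (nat_lit 1) (nat_lit 0) (@Lb.fm (nat_lit 9) t2058))))))))))
noncomputable def l31798 : Lb := (@Lb.d (nat_lit 0) (nat_lit 520) (nat_lit 74) (@Lb.g g10 (@Lb.g g11 (@Lb.r r2723 (@Lb.r r1125 (@Lb.r r90 (@Lb.r r24 (@Lb.d (nat_lit 74) (nat_lit 128) (nat_lit 546) (@Lb.fp (nat_lit 3) t4779)))))))))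
noncomputable def l31799 : Lb := (@Lb.d (nat_lit 0) (nat_lit 262) (nat_lit 74) (@Lb.g g9 (@Lb.g g10 (@Lb.g g11 (@Lb.r r2691 (@Lb.r r2401 (@Lb.r r1178 (@Lb.r r24 (@Lb.d (nat_lit 533) (nat_lit 42) (nat_lit 134) (@Lb.t (@Lb.fm (nat_lit 9) t3321)))))))))))
noncomputable def l31800 : Lb := (@Lb.d (nat_lit 2) (nat_lit 512) (nat_lit 64) (@Lb.g g8 (@Lb.g g9 (@Lb.g g10 (@Lb.g g11 (@Lb.r r164 (@Lb.r r2709 (@Lb.r r407 (@Lb.r r1430 (@Lb.r r548 (@Lb.d (nat_lit 610) (nat_lit 10) (nat_lit 512) (@Lb.fm (nat_lit 9) t3263))))))))))))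
noncomputable def l31801 : Lb := (@Lb.r r70 (@Lb.d (nat_lit 162) (nat_lit 578) (nat_lit 64) (@Lb.g g8 (@Lb.g g9 (@Lb.g g11 (@Lb.r r658 (@Lb.r r2443 (@Lb.r r264 (@Lb.d (nat_lit 660) (nat_lit 128) (nat_lit 6) (@Lb.t (@Lb.fm (nat_lit 9) t3081)))))))))))
noncomputable def l31802 : Lb := (@Lb.r r331 (@Lb.d (nat_lit 137) (nat_lit 292) (nat_lit 0) (@Lb.g g8 (@Lb.g g9 (@Lb.g g10 (@Lb.r r1707 (@Lb.r r1690 (@Lb.r r2389 (@Lb.r r548 (@Lb.d (nat_lit 128) (nat_lit 146) (nat_lit 162) (@Lb.t (@Lb.fm (nat_lit 9) t5717))))))))))))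
noncomputable def l31803 : Lb := (@Lb.d (nat_lit 132) (nat_lit 2) (nat_lit 66) (@Lb.g g8 (@Lb.g g9 (@Lb.g g10 (@Lb.g g11 (@Lb.r r618 (@Lb.r r612 (@Lb.r r1319 (@Lb.r r405 (@Lb.r r36 (@Lb.d (nat_lit 104) (nat_lit 8) (nat_lit 409) (@Lb.fp (nat_lit 9) t5718))))))))))))
noncomputable def l31804 : Lb := (@Lb.d (nat_lit 2) (nat_lit 550) (nat_lit 64) (@Lb.g g8 (@Lb.g g9 (@Lb.g g10 (@Lb.g g11 (@Lb.r r427 (@Lb.r r1160 (@Lb.r r1610 (@Lb.d (nat_lit 421) (nat_lit 32) (nat_lit 5) (@Lb.fm (nat_lit 9) t5719))))))))))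
noncomputable def l31805 : Lb := (@Lb.r r21 (@Lb.d (nat_lit 2) (nat_lit 0) (nat_lit 66) (@Lb.g g8 (@Lb.g g10 (@Lb.g g7 (@Lb.r r386 (@Lb.r r149 (@Lb.r r72 (@Lb.d (nat_lit 337) (nat_lit 5) (nat_lit 585) (@Lb.t (@Lb.fp (nat_lit 9) t166)))))))))))
noncomputable def l31806 : Lb := (@Lb.r r323 (@Lb.d (nat_lit 2) (nat_lit 290) (nat_lit 2) (@Lb.g g8 (@Lb.g g9 (@Lb.g g10 (@Lb.r r599 (@Lb.r r392 (@Lb.r r74 (@Lb.d (nat_lit 418) (nat_lit 82) (nat_lit 681) (@Lb.t (@Lb.fm (nat_lit 9) t5711)))))))))))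
noncomputable def l31807 : Lb := (@Lb.d (nat_lit 2) (nat_lit 258) (nat_lit 64) (@Lb.g g8 (@Lb.g g9 (@Lb.g g11 (@Lb.r r280 (@Lb.r r2725 (@Lb.r r2471 (@Lb.r r2178 (@Lb.r r1540 (@Lb.d (nat_lit 550) (nat_lit 138) (nat_lit 514) (@Lb.t (@Lb.fp (nat_lit 9) t2895))))))))))))
noncomputable def l31808 : Lb := (@Lb.d (nat_lit 645) (nat_lit 256) (nat_lit 384) (@Lb.r r24 (@Lb.g g9 (@Lb.g g4 (@Lb.fm (nat_lit 3) t2334)))))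
noncomputable def l31809 : Lb := (@Lb.d (nat_lit 0) (nat_lit 520) (nat_lit 42) (@Lb.g g10 (@Lb.d (nat_lit 0) (nat_lit 2) (nat_lit 20) (@Lb.t (@Lb.fp (nat_lit 3) t479)))))
noncomputable def l31810 : Lb := (@Lb.d (nat_lit 153) (nat_lit 17) (nat_lit 593) (@Lb.r r2579 (@Lb.r r1385 (@Lb.r r1174 (@Lb.g g7 (@Lb.g g5 (@Lb.g g4 (@Lb.d (nat_lit 1) (nat_lit 5) (nat_lit 132) (@Lb.t (@Lb.fm (nat_lit 9) t1222))))))))))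
noncomputable def l31811 : Lb := (@Lb.d (nat_lit 658) (nat_lit 64) (nat_lit 513) (@Lb.r r2632 (@Lb.r r2649 (@Lb.r r2635 (@Lb.r r406 (@Lb.g g7 (@Lb.g g5 (@Lb.g g4 (@Lb.d (nat_lit 17) (nat_lit 1) (nat_lit 64) (@Lb.t (@Lb.fm (nat_lit 9) t2644)))))))))))
noncomputable def l31812 : Lb := (@Lb.d (nat_lit 146) (nat_lit 25) (nat_lit 592) (@Lb.r r2579 (@Lb.r r1385 (@Lb.r r1174 (@Lb.g g7 (@Lb.g g5 (@Lb.g g4 (@Lb.d (nat_lit 1) (nat_lit 5) (nat_lit 132) (@Lb.t (@Lb.fm (nat_lit 9) t3570))))))))))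
noncomputable def l31813 : Lb := (@Lb.g g6 (@Lb.r r101 (@Lb.d (nat_lit 512) (nat_lit 256) (nat_lit 144) (@Lb.t (@Lb.fp (nat_lit 3) t126)))))
noncomputable def l31814 : Lb := (@Lb.d (nat_lit 0) (nat_lit 0) (nat_lit 73) (@Lb.g g10 (@Lb.g g11 (@Lb.r r642 (@Lb.r r1683 (@Lb.r r1602 (@Lb.d (nat_lit 0) (nat_lit 24) (nat_lit 678) (@Lb.fm (nat_lit 3) t295))))))))
noncomputable def l31815 : Lb := (@Lb.g g5 (@Lb.g g7 (@Lb.r r402 (@Lb.r r101 (@Lb.r r24 (@Lb.d (nat_lit 256) (nat_lit 261) (nat_lit 513) (@Lb.fp (nat_lit 3) t145)))))))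
noncomputable def l31816 : Lb := (@Lb.d (nat_lit 146) (nat_lit 26) (nat_lit 130) (@Lb.g g8 (@Lb.g g9 (@Lb.g g10 (@Lb.g g11 (@Lb.r r2691 (@Lb.r r132 (@Lb.r r1622 (@Lb.r r1177 (@Lb.r r132 (@Lb.d (nat_lit 101) (nat_lit 36) (nat_lit 426) (@Lb.fm (nat_lit 9) t1185))))))))))))
noncomputable def l31817 : Lb := (@Lb.d (nat_lit 130) (nat_lit 9) (nat_lit 65) (@Lb.g g8 (@Lb.g g9 (@Lb.g g10 (@Lb.g g11 (@Lb.r r1706 (@Lb.r r1411 (@Lb.r r2657 (@Lb.r r2584 (@Lb.d (nat_lit 280) (nat_lit 9) (nat_lit 106) (@Lb.fm (nat_lit 9) t5303)))))))))))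
noncomputable def l31818 : Lb := (@Lb.d (nat_lit 522) (nat_lit 33) (nat_lit 512) (@Lb.r r2580 (@Lb.r r2329 (@Lb.g g7 (@Lb.d (nat_lit 64) (nat_lit 0) (nat_lit 576) (@Lb.t (@Lb.fm (nat_lit 3) t5720)))))))
noncomputable def l31819 : Lb := (@Lb.r r275 (@Lb.d (nat_lit 2) (nat_lit 521) (nat_lit 2) (@Lb.g g8 (@Lb.g g9 (@Lb.g g10 (@Lb.r r586 (@Lb.r r1603 (@Lb.r r529 (@Lb.d (nat_lit 134) (nat_lit 82) (nat_lit 512) (@Lb.t (@Lb.fp (nat_lit 9) t2185)))))))))))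
noncomputable def l31820 : Lb := (@Lb.d (nat_lit 2) (nat_lit 514) (nat_lit 9) (@Lb.g g8 (@Lb.g g9 (@Lb.g g6 (@Lb.r r515 (@Lb.r r97 (@Lb.r r24 (@Lb.d (nat_lit 10) (nat_lit 70) (nat_lit 144) (@Lb.t (@Lb.fm (nat_lit 9) t787))))))))))
noncomputable def l31821 : Lb := (@Lb.d (nat_lit 66) (nat_lit 258) (nat_lit 640) (@Lb.r r24 (@Lb.r r2587 (@Lb.g g7 (@Lb.g g9 (@Lb.d (nat_lit 8) (nat_lit 2) (nat_lit 64) (@Lb.fp (nat_lit 3) t121)))))))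
noncomputable def l31822 : Lb := (@Lb.d (nat_lit 528) (nat_lit 256) (nat_lit 10) (@Lb.r r24 (@Lb.r r101 (@Lb.r r2659 (@Lb.g g10 (@Lb.g g5 (@Lb.g g4 (@Lb.d (nat_lit 1) (nat_lit 0) (nat_lit 2) (@Lb.r r387 (@Lb.t (@Lb.fp (nat_lit 9) t719)))))))))))
noncomputable def l31823 : Lb := (@Lb.r r1284 (@Lb.d (nat_lit 16) (nat_lit 289) (nat_lit 150) (@Lb.g g9 (@Lb.g g6 (@Lb.g g11 (@Lb.r r2657 (@Lb.r r1315 (@Lb.d (nat_lit 584) (nat_lit 98) (nat_lit 344) (@Lb.t (@Lb.fm (nat_lit 9) t4201))))))))))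
noncomputable def l31824 : Lb := (@Lb.d (nat_lit 2) (nat_lit 262) (nat_lit 1) (@Lb.g g8 (@Lb.g g9 (@Lb.g g10 (@Lb.g g11 (@Lb.r r1691 (@Lb.r r1684 (@Lb.r r1190 (@Lb.r r529 (@Lb.d (nat_lit 361) (nat_lit 80) (nat_lit 386) (@Lb.fp (nat_lit 9) t152)))))))))))
noncomputable def l31825 : Lb := (@Lb.d (nat_lit 0) (nat_lit 256) (nat_lit 128) (@Lb.g g10 (@Lb.g g11 (@Lb.r r387 (@Lb.r r402 (@Lb.r r1172 (@Lb.d (nat_lit 292) (nat_lit 69) (nat_lit 17) (@Lb.fp (nat_lit 3) t5721))))))))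
noncomputable def l31826 : Lb := (@Lb.d (nat_lit 2) (nat_lit 516) (nat_lit 74) (@Lb.g g8 (@Lb.g g9 (@Lb.g g10 (@Lb.g g11 (@Lb.r r642 (@Lb.r r1687 (@Lb.r r97 (@Lb.r r24 (@Lb.d (nat_lit 298) (nat_lit 2) (nat_lit 90) (@Lb.fp (nat_lit 9) t5722)))))))))))
noncomputable def l31827 : Lb := (@Lb.r r2331 (@Lb.r r101 (@Lb.d (nat_lit 256) (nat_lit 74) (nat_lit 146) (@Lb.fm (nat_lit 1) t4062))))
noncomputable def l31828 : Lb := (@Lb.r r2331 (@Lb.r r101 (@Lb.d (nat_lit 256) (nat_lit 576) (nat_lit 144) (@Lb.fm (nat_lit 1) t4062))))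
noncomputable def l31829 : Lb := (@Lb.d (nat_lit 2) (nat_lit 538) (nat_lit 136) (@Lb.g g8 (@Lb.g g9 (@Lb.g g10 (@Lb.g g11 (@Lb.r r2411 (@Lb.r r1686 (@Lb.r r1621 (@Lb.r r24 (@Lb.d (nat_lit 640) (nat_lit 153) (nat_lit 402) (@Lb.fp (nat_lit 9) t5723)))))))))))
noncomputable def l31830 : Lb := (@Lb.r r21 (@Lb.r r70 (@Lb.d (nat_lit 409) (nat_lit 256) (nat_lit 128) (@Lb.g g8 (@Lb.g g11 (@Lb.r r1419 (@Lb.r r402 (@Lb.r r97 (@Lb.d (nat_lit 581) (nat_lit 38) (nat_lit 272) (@Lb.fm (nat_lit 3) t2439))))))))))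
noncomputable def l31831 : Lb := (@Lb.d (nat_lit 0) (nat_lit 577) (nat_lit 170) (@Lb.r r1354 (@Lb.r r1384 (@Lb.r r297 (@Lb.r r1383 (@Lb.g g6 (@Lb.g g5 (@Lb.d (nat_lit 0) (nat_lit 1) (nat_lit 0) (@Lb.r r387 (@Lb.fm (nat_lit 3) t2174))))))))))
noncomputable def l31832 : Lb := (@Lb.d (nat_lit 2) (nat_lit 21) (nat_lit 586) (@Lb.g g8 (@Lb.g g9 (@Lb.g g10 (@Lb.g g7 (@Lb.r r2134 (@Lb.r r1621 (@Lb.r r24 (@Lb.d (nat_lit 336) (nat_lit 153) (nat_lit 657) (@Lb.fp (nat_lit 9) t5724))))))))))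
noncomputable def l31833 : Lb := (@Lb.d (nat_lit 280) (nat_lit 9) (nat_lit 0) (@Lb.g g4 (@Lb.g g9 (@Lb.r r2311 (@Lb.d (nat_lit 257) (nat_lit 10) (nat_lit 98) (@Lb.fp (nat_lit 3) t5725))))))
noncomputable def l31834 : Lb := (@Lb.r r82 (@Lb.d (nat_lit 133) (nat_lit 512) (nat_lit 128) (@Lb.g g8 (@Lb.g g9 (@Lb.g g11 (@Lb.r r1643 (@Lb.r r386 (@Lb.r r89 (@Lb.r r2392 (@Lb.d (nat_lit 170) (nat_lit 153) (nat_lit 662) (@Lb.t (@Lb.fp (nat_lit 9) t5726))))))))))))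
noncomputable def l31835 : Lb := (@Lb.d (nat_lit 34) (nat_lit 522) (nat_lit 136) (@Lb.g g8 (@Lb.g g9 (@Lb.g g11 (@Lb.r r2118 (@Lb.r r1416 (@Lb.r r535 (@Lb.r r289 (@Lb.d (nat_lit 610) (nat_lit 5) (nat_lit 514) (@Lb.t (@Lb.fp (nat_lit 9) t5727)))))))))))
noncomputable def l31836 : Lb := (@Lb.r r82 (@Lb.d (nat_lit 6) (nat_lit 290) (nat_lit 128) (@Lb.g g8 (@Lb.g g9 (@Lb.g g11 (@Lb.r r2649 (@Lb.r r531 (@Lb.r r98 (@Lb.r r2408 (@Lb.d (nat_lit 545) (nat_lit 84) (nat_lit 169) (@Lb.t (@Lb.fm (nat_lit 9) t5728))))))))))))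
noncomputable def l31837 : Lb := (@Lb.d (nat_lit 25) (nat_lit 521) (nat_lit 4) (@Lb.g g8 (@Lb.g g9 (@Lb.g g10 (@Lb.g g11 (@Lb.r r2391 (@Lb.r r342 (@Lb.r r1129 (@Lb.r r1060 (@Lb.d (nat_lit 292) (nat_lit 164) (nat_lit 425) (@Lb.fm (nat_lit 9) t5729)))))))))))
noncomputable def l31838 : Lb := (@Lb.r r323 (@Lb.d (nat_lit 130) (nat_lit 521) (nat_lit 1) (@Lb.g g8 (@Lb.g g9 (@Lb.g g10 (@Lb.r r2473 (@Lb.r r339 (@Lb.r r646 (@Lb.r r72 (@Lb.d (nat_lit 528) (nat_lit 64) (nat_lit 345) (@Lb.t (@Lb.fp (nat_lit 9) t1006))))))))))))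
noncomputable def l31839 : Lb := (@Lb.r r82 (@Lb.r r275 (@Lb.g g4 (@Lb.g g9 (@Lb.r r1559 (@Lb.r r2658 (@Lb.r r2577 (@Lb.r r1556 (@Lb.d (nat_lit 66) (nat_lit 64) (nat_lit 512) (@Lb.fm (nat_lit 3) t5730))))))))))
noncomputable def l31840 : Lb := (@Lb.d (nat_lit 402) (nat_lit 657) (nat_lit 322) (@Lb.r r1620 (@Lb.r r281 (@Lb.r r615 (@Lb.g g6 (@Lb.g g4 (@Lb.d (nat_lit 69) (nat_lit 8) (nat_lit 41) (@Lb.r r387 (@Lb.fp (nat_lit 3) t5731)))))))))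
noncomputable def l31841 : Lb := (@Lb.d (nat_lit 152) (nat_lit 513) (nat_lit 128) (@Lb.g g8 (@Lb.g g9 (@Lb.g g10 (@Lb.g g11 (@Lb.r r423 (@Lb.r r1681 (@Lb.r r1432 (@Lb.r r2202 (@Lb.d (nat_lit 169) (nat_lit 69) (nat_lit 24) (@Lb.fp (nat_lit 9) t929)))))))))))
noncomputable def l31842 : Lb := (@Lb.d (nat_lit 129) (nat_lit 130) (nat_lit 256) (@Lb.r r2196 (@Lb.r r1414 (@Lb.r r1363 (@Lb.r r529 (@Lb.g g7 (@Lb.g g5 (@Lb.d (nat_lit 0) (nat_lit 1) (nat_lit 64) (@Lb.fp (nat_lit 3) t1443)))))))))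
noncomputable def l31843 : Lb := (@Lb.r r323 (@Lb.g g6 (@Lb.r r1411 (@Lb.r r24 (@Lb.r r2149 (@Lb.r r1090 (@Lb.d (nat_lit 0) (nat_lit 593) (nat_lit 298) (@Lb.t (@Lb.fm (nat_lit 3) t153)))))))))
noncomputable def l31844 : Lb := (@Lb.d (nat_lit 0) (nat_lit 2) (nat_lit 130) (@Lb.g g9 (@Lb.g g10 (@Lb.g g11 (@Lb.r r1443 (@Lb.r r536 (@Lb.r r357 (@Lb.r r154 (@Lb.r r132 (@Lb.d (nat_lit 580) (nat_lit 130) (nat_lit 170) (@Lb.t (@Lb.fp (nat_lit 9) t651))))))))))))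
noncomputable def l31845 : Lb := (@Lb.r r21 (@Lb.r r70 (@Lb.d (nat_lit 129) (nat_lit 0) (nat_lit 128) (@Lb.g g8 (@Lb.g g11 (@Lb.r r1419 (@Lb.r r402 (@Lb.r r97 (@Lb.d (nat_lit 586) (nat_lit 64) (nat_lit 581) (@Lb.fm (nat_lit 3) t4006))))))))))
noncomputable def l31846 : Lb := (@Lb.r r21 (@Lb.r r70 (@Lb.r r2311 (@Lb.g g8 (@Lb.r r2084 (@Lb.r r101 (@Lb.r r2450 (@Lb.d (nat_lit 6) (nat_lit 576) (nat_lit 16) (@Lb.t (@Lb.fp (nat_lit 3) t5732))))))))))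
noncomputable def l31847 : Lb := (@Lb.d (nat_lit 145) (nat_lit 0) (nat_lit 73) (@Lb.g g8 (@Lb.g g9 (@Lb.g g10 (@Lb.g g11 (@Lb.r r2435 (@Lb.r r584 (@Lb.r r1126 (@Lb.r r1633 (@Lb.r r1060 (@Lb.d (nat_lit 64) (nat_lit 146) (nat_lit 128) (@Lb.fp (nat_lit 9) t5733))))))))))))
noncomputable def l31848 : Lb := (@Lb.d (nat_lit 581) (nat_lit 609) (nat_lit 281) (@Lb.r r2324 (@Lb.r r2411 (@Lb.r r345 (@Lb.g g6 (@Lb.g g4 (@Lb.d (nat_lit 69) (nat_lit 0) (nat_lit 34) (@Lb.fm (nat_lit 3) t3380))))))))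
noncomputable def l31849 : Lb := (@Lb.d (nat_lit 581) (nat_lit 358) (nat_lit 282) (@Lb.r r2324 (@Lb.r r2411 (@Lb.r r345 (@Lb.g g6 (@Lb.g g4 (@Lb.d (nat_lit 69) (nat_lit 0) (nat_lit 34) (@Lb.fm (nat_lit 3) t5734))))))))
noncomputable def l31850 : Lb := (@Lb.d (nat_lit 146) (nat_lit 514) (nat_lit 130) (@Lb.g g8 (@Lb.g g9 (@Lb.g g10 (@Lb.g g11 (@Lb.r r1415 (@Lb.r r584 (@Lb.r r2150 (@Lb.r r97 (@Lb.r r36 (@Lb.d (nat_lit 265) (nat_lit 104) (nat_lit 385) (@Lb.fp (nat_lit 9) t1965))))))))))))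
noncomputable def l31851 : Lb := (@Lb.d (nat_lit 2) (nat_lit 34) (nat_lit 66) (@Lb.g g8 (@Lb.g g9 (@Lb.g g10 (@Lb.g g11 (@Lb.r r1451 (@Lb.r r2154 (@Lb.r r2145 (@Lb.d (nat_lit 20) (nat_lit 20) (nat_lit 132) (@Lb.fm (nat_lit 9) t200))))))))))
noncomputable def l31852 : Lb := (@Lb.d (nat_lit 422) (nat_lit 528) (nat_lit 665) (@Lb.r r97 (@Lb.r r579 (@Lb.r r1366 (@Lb.g g7 (@Lb.g g6 (@Lb.g g5 (@Lb.g g4 (@Lb.d (nat_lit 1) (nat_lit 1) (nat_lit 134) (@Lb.fp (nat_lit 9) t606))))))))))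
noncomputable def l31853 : Lb := (@Lb.d (nat_lit 128) (nat_lit 0) (nat_lit 136) (@Lb.g g11 (@Lb.r r1045 (@Lb.r r388 (@Lb.r r406 (@Lb.r r1387 (@Lb.d (nat_lit 41) (nat_lit 168) (nat_lit 166) (@Lb.t (@Lb.fm (nat_lit 3) t748)))))))))
noncomputable def l31854 : Lb := (@Lb.r r323 (@Lb.d (nat_lit 41) (nat_lit 261) (nat_lit 0) (@Lb.g g8 (@Lb.g g9 (@Lb.g g10 (@Lb.r r2455 (@Lb.r r98 (@Lb.r r297 (@Lb.r r2180 (@Lb.d (nat_lit 405) (nat_lit 17) (nat_lit 358) (@Lb.t (@Lb.fp (nat_lit 9) t4057))))))))))))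
noncomputable def l31855 : Lb := (@Lb.r r323 (@Lb.d (nat_lit 36) (nat_lit 4) (nat_lit 0) (@Lb.g g8 (@Lb.g g9 (@Lb.g g10 (@Lb.r r401 (@Lb.r r2727 (@Lb.r r2694 (@Lb.r r2180 (@Lb.d (nat_lit 673) (nat_lit 0) (nat_lit 88) (@Lb.t (@Lb.fm (nat_lit 9) t3379))))))))))))
noncomputable def l31856 : Lb := (@Lb.d (nat_lit 4) (nat_lit 256) (nat_lit 73) (@Lb.g g8 (@Lb.g g9 (@Lb.g g10 (@Lb.g g11 (@Lb.r r2691 (@Lb.r r2209 (@Lb.r r2658 (@Lb.d (nat_lit 545) (nat_lit 160) (nat_lit 646) (@Lb.fp (nat_lit 9) t4701))))))))))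
noncomputable def l31857 : Lb := (@Lb.r r82 (@Lb.d (nat_lit 130) (nat_lit 513) (nat_lit 64) (@Lb.g g8 (@Lb.g g9 (@Lb.g g11 (@Lb.r r2667 (@Lb.r r386 (@Lb.r r1105 (@Lb.r r1384 (@Lb.d (nat_lit 548) (nat_lit 40) (nat_lit 22) (@Lb.t (@Lb.fp (nat_lit 9) t5344))))))))))))
noncomputable def l31858 : Lb := (@Lb.r r82 (@Lb.r r263 (@Lb.g g8 (@Lb.g g5 (@Lb.r r2648 (@Lb.r r267 (@Lb.r r386 (@Lb.r r2209 (@Lb.d (nat_lit 0) (nat_lit 66) (nat_lit 545) (@Lb.fm (nat_lit 3) t5344))))))))))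
noncomputable def l31859 : Lb := (@Lb.r r323 (@Lb.d (nat_lit 41) (nat_lit 5) (nat_lit 0) (@Lb.g g8 (@Lb.g g9 (@Lb.g g10 (@Lb.r r2455 (@Lb.r r2193 (@Lb.r r1622 (@Lb.r r36 (@Lb.d (nat_lit 661) (nat_lit 89) (nat_lit 596) (@Lb.t (@Lb.fm (nat_lit 9) t5735))))))))))))
noncomputable def l31860 : Lb := (@Lb.r r82 (@Lb.d (nat_lit 641) (nat_lit 258) (nat_lit 64) (@Lb.g g4 (@Lb.g g9 (@Lb.g g11 (@Lb.r r679 (@Lb.r r1701 (@Lb.r r2658 (@Lb.d (nat_lit 544) (nat_lit 134) (nat_lit 85) (@Lb.t (@Lb.fp (nat_lit 9) t5095)))))))))))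
noncomputable def l31861 : Lb := (@Lb.r r20 (@Lb.d (nat_lit 8) (nat_lit 66) (nat_lit 136) (@Lb.g g9 (@Lb.g g11 (@Lb.r r402 (@Lb.r r1635 (@Lb.d (nat_lit 293) (nat_lit 16) (nat_lit 546) (@Lb.fm (nat_lit 3) t5736))))))))
noncomputable def l31862 : Lb := (@Lb.d (nat_lit 0) (nat_lit 512) (nat_lit 128) (@Lb.g g4 (@Lb.g g11 (@Lb.d (nat_lit 1) (nat_lit 0) (nat_lit 64) (@Lb.fp (nat_lit 3) t2)))))
noncomputable def l31863 : Lb := (@Lb.d (nat_lit 1) (nat_lit 0) (nat_lit 128) (@Lb.g g8 (@Lb.g g11 (@Lb.r r1367 (@Lb.r r81 (@Lb.r r162 (@Lb.r r145 (@Lb.r r2628 (@Lb.d (nat_lit 162) (nat_lit 1) (nat_lit 394) (@Lb.fp (nat_lit 3) t3355))))))))))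
noncomputable def l31864 : Lb := (@Lb.d (nat_lit 2) (nat_lit 550) (nat_lit 64) (@Lb.g g8 (@Lb.g g9 (@Lb.g g10 (@Lb.g g11 (@Lb.r r387 (@Lb.r r1682 (@Lb.r r1561 (@Lb.r r24 (@Lb.d (nat_lit 514) (nat_lit 0) (nat_lit 401) (@Lb.fp (nat_lit 9) t2504)))))))))))
noncomputable def l31865 : Lb := (@Lb.d (nat_lit 0) (nat_lit 0) (nat_lit 128) (@Lb.g g4 (@Lb.g g11 (@Lb.d (nat_lit 1) (nat_lit 0) (nat_lit 0) (@Lb.fp (nat_lit 3) t2)))))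
noncomputable def l31866 : Lb := (@Lb.d (nat_lit 2) (nat_lit 514) (nat_lit 2) (@Lb.g g8 (@Lb.g g9 (@Lb.g g10 (@Lb.g g11 (@Lb.r r1682 (@Lb.r r2727 (@Lb.r r2457 (@Lb.r r2436 (@Lb.d (nat_lit 328) (nat_lit 73) (nat_lit 530) (@Lb.fp (nat_lit 9) t2103)))))))))))
noncomputable def l31867 : Lb := (@Lb.d (nat_lit 0) (nat_lit 544) (nat_lit 72) (@Lb.g g11 (@Lb.r r409 (@Lb.r r2458 (@Lb.r r2407 (@Lb.r r24 (@Lb.d (nat_lit 40) (nat_lit 128) (nat_lit 422) (@Lb.t (@Lb.fp (nat_lit 3) t1639)))))))))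
noncomputable def l31868 : Lb := (@Lb.d (nat_lit 0) (nat_lit 512) (nat_lit 2) (@Lb.g g4 (@Lb.g g10 (@Lb.g g7 (@Lb.r r386 (@Lb.d (nat_lit 1) (nat_lit 5) (nat_lit 138) (@Lb.t (@Lb.fp (nat_lit 9) t45))))))))
noncomputable def l31869 : Lb := (@Lb.d (nat_lit 0) (nat_lit 650) (nat_lit 0) (@Lb.r r97 (@Lb.r r1354 (@Lb.r r1128 (@Lb.r r1383 (@Lb.g g6 (@Lb.g g8 (@Lb.r r387 (@Lb.r r25 (@Lb.fp (nat_lit 3) t5259))))))))))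
noncomputable def l31870 : Lb := (@Lb.d (nat_lit 9) (nat_lit 256) (nat_lit 2) (@Lb.g g8 (@Lb.g g10 (@Lb.r r2331 (@Lb.r r2193 (@Lb.r r2458 (@Lb.r r2436 (@Lb.d (nat_lit 360) (nat_lit 64) (nat_lit 682) (@Lb.fp (nat_lit 3) t4779)))))))))
noncomputable def l31871 : Lb := (@Lb.r r68 (@Lb.r r81 (@Lb.d (nat_lit 16) (nat_lit 0) (nat_lit 152) (@Lb.g g6 (@Lb.g g11 (@Lb.r r1624 (@Lb.r r1291 (@Lb.r r37 (@Lb.d (nat_lit 389) (nat_lit 146) (nat_lit 385) (@Lb.fp (nat_lit 3) t5259))))))))))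
noncomputable def l31872 : Lb := (@Lb.r r21 (@Lb.d (nat_lit 33) (nat_lit 512) (nat_lit 130) (@Lb.g g8 (@Lb.g g10 (@Lb.g g11 (@Lb.r r359 (@Lb.r r161 (@Lb.r r612 (@Lb.r r1642 (@Lb.d (nat_lit 602) (nat_lit 137) (nat_lit 362) (@Lb.t (@Lb.fp (nat_lit 9) t5737))))))))))))
noncomputable def l31873 : Lb := (@Lb.d (nat_lit 2) (nat_lit 521) (nat_lit 130) (@Lb.g g8 (@Lb.g g9 (@Lb.g g10 (@Lb.g g11 (@Lb.r r2730 (@Lb.r r420 (@Lb.r r283 (@Lb.r r1577 (@Lb.r r2068 (@Lb.d (nat_lit 681) (nat_lit 161) (nat_lit 154) (@Lb.fp (nat_lit 9) t5738))))))))))))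
noncomputable def l31874 : Lb := (@Lb.d (nat_lit 2) (nat_lit 9) (nat_lit 130) (@Lb.g g8 (@Lb.g g9 (@Lb.g g10 (@Lb.g g11 (@Lb.r r2730 (@Lb.r r420 (@Lb.r r283 (@Lb.r r1577 (@Lb.r r2068 (@Lb.d (nat_lit 681) (nat_lit 161) (nat_lit 90) (@Lb.fp (nat_lit 9) t3066))))))))))))
noncomputable def l31875 : Lb := (@Lb.r r2311 (@Lb.r r664 (@Lb.r r154 (@Lb.r r2133 (@Lb.r r164 (@Lb.d (nat_lit 0) (nat_lit 0) (nat_lit 16) (@Lb.fp (nat_lit 1) t386)))))))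
noncomputable def l31876 : Lb := (@Lb.r r82 (@Lb.d (nat_lit 72) (nat_lit 529) (nat_lit 0) (@Lb.g g8 (@Lb.g g9 (@Lb.g g11 (@Lb.r r657 (@Lb.r r1686 (@Lb.r r1419 (@Lb.r r516 (@Lb.d (nat_lit 354) (nat_lit 0) (nat_lit 408) (@Lb.t (@Lb.fp (nat_lit 9) t5739))))))))))))
noncomputable def l31877 : Lb := (@Lb.d (nat_lit 146) (nat_lit 514) (nat_lit 128) (@Lb.g g8 (@Lb.g g9 (@Lb.g g10 (@Lb.g g11 (@Lb.r r1706 (@Lb.r r1411 (@Lb.r r36 (@Lb.r r1045 (@Lb.r r2084 (@Lb.d (nat_lit 585) (nat_lit 72) (nat_lit 330) (@Lb.fm (nat_lit 9) t341))))))))))))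
noncomputable def l31878 : Lb := (@Lb.r r21 (@Lb.r r70 (@Lb.r r263 (@Lb.d (nat_lit 2) (nat_lit 256) (nat_lit 0) (@Lb.g g8 (@Lb.r r267 (@Lb.r r101 (@Lb.r r410 (@Lb.d (nat_lit 97) (nat_lit 0) (nat_lit 85) (@Lb.t (@Lb.fp (nat_lit 3) t540)))))))))))
noncomputable def l31879 : Lb := (@Lb.d (nat_lit 0) (nat_lit 544) (nat_lit 130) (@Lb.g g8 (@Lb.g g10 (@Lb.g g11 (@Lb.r r618 (@Lb.r r149 (@Lb.r r340 (@Lb.r r2587 (@Lb.d (nat_lit 329) (nat_lit 66) (nat_lit 384) (@Lb.t (@Lb.fp (nat_lit 9) t71)))))))))))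
noncomputable def l31880 : Lb := (@Lb.r r82 (@Lb.r r275 (@Lb.d (nat_lit 2) (nat_lit 513) (nat_lit 0) (@Lb.g g8 (@Lb.g g5 (@Lb.r r2315 (@Lb.r r2122 (@Lb.d (nat_lit 260) (nat_lit 1) (nat_lit 0) (@Lb.fp (nat_lit 3) t116)))))))))
noncomputable def l31881 : Lb := (@Lb.d (nat_lit 137) (nat_lit 256) (nat_lit 130) (@Lb.g g8 (@Lb.g g10 (@Lb.g g11 (@Lb.r r594 (@Lb.r r1125 (@Lb.r r2388 (@Lb.r r2635 (@Lb.d (nat_lit 358) (nat_lit 134) (nat_lit 416) (@Lb.t (@Lb.fm (nat_lit 9) t524)))))))))))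
noncomputable def l31882 : Lb := (@Lb.d (nat_lit 4) (nat_lit 256) (nat_lit 130) (@Lb.g g8 (@Lb.g g9 (@Lb.g g10 (@Lb.g g11 (@Lb.r r427 (@Lb.r r420 (@Lb.r r102 (@Lb.r r97 (@Lb.r r36 (@Lb.d (nat_lit 9) (nat_lit 137) (nat_lit 73) (@Lb.fm (nat_lit 9) t119))))))))))))
noncomputable def l31883 : Lb := (@Lb.d (nat_lit 0) (nat_lit 258) (nat_lit 130) (@Lb.g g9 (@Lb.g g10 (@Lb.g g11 (@Lb.r r1443 (@Lb.r r536 (@Lb.r r357 (@Lb.r r154 (@Lb.r r132 (@Lb.d (nat_lit 580) (nat_lit 137) (nat_lit 169) (@Lb.t (@Lb.fp (nat_lit 9) t646))))))))))))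
noncomputable def l31884 : Lb := (@Lb.r r326 (@Lb.d (nat_lit 33) (nat_lit 258) (nat_lit 576) (@Lb.g g8 (@Lb.g g9 (@Lb.g g7 (@Lb.r r1129 (@Lb.r r2454 (@Lb.r r596 (@Lb.d (nat_lit 150) (nat_lit 134) (nat_lit 5) (@Lb.t (@Lb.fp (nat_lit 9) t2528)))))))))))
noncomputable def l31885 : Lb := (@Lb.d (nat_lit 146) (nat_lit 514) (nat_lit 66) (@Lb.g g8 (@Lb.g g9 (@Lb.g g10 (@Lb.g g11 (@Lb.r r1415 (@Lb.r r584 (@Lb.r r2150 (@Lb.r r97 (@Lb.r r36 (@Lb.d (nat_lit 265) (nat_lit 97) (nat_lit 386) (@Lb.fp (nat_lit 9) t1965))))))))))))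
noncomputable def l31886 : Lb := (@Lb.r r21 (@Lb.r r70 (@Lb.r r263 (@Lb.d (nat_lit 657) (nat_lit 0) (nat_lit 0) (@Lb.g g4 (@Lb.r r267 (@Lb.r r402 (@Lb.r r97 (@Lb.d (nat_lit 1) (nat_lit 64) (nat_lit 512) (@Lb.t (@Lb.fm (nat_lit 3) t128)))))))))))
noncomputable def l31887 : Lb := (@Lb.r r21 (@Lb.r r70 (@Lb.r r263 (@Lb.d (nat_lit 658) (nat_lit 512) (nat_lit 0) (@Lb.g g4 (@Lb.r r267 (@Lb.r r402 (@Lb.r r97 (@Lb.d (nat_lit 1) (nat_lit 64) (nat_lit 512) (@Lb.t (@Lb.fm (nat_lit 3) t128)))))))))))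
noncomputable def l31888 : Lb := (@Lb.d (nat_lit 17) (nat_lit 261) (nat_lit 130) (@Lb.r r1158 (@Lb.r r2132 (@Lb.r r425 (@Lb.g g11 (@Lb.g g6 (@Lb.g g5 (@Lb.g g4 (@Lb.d (nat_lit 1) (nat_lit 32) (nat_lit 390) (@Lb.fm (nat_lit 9) t1445))))))))))
noncomputable def l31889 : Lb := (@Lb.d (nat_lit 2) (nat_lit 2) (nat_lit 73) (@Lb.g g8 (@Lb.g g9 (@Lb.g g10 (@Lb.g g11 (@Lb.r r1699 (@Lb.r r2440 (@Lb.r r2122 (@Lb.r r37 (@Lb.d (nat_lit 290) (nat_lit 166) (nat_lit 102) (@Lb.fm (nat_lit 9) t5740)))))))))))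
noncomputable def l31890 : Lb := (@Lb.d (nat_lit 2) (nat_lit 521) (nat_lit 129) (@Lb.g g8 (@Lb.g g9 (@Lb.g g10 (@Lb.g g11 (@Lb.r r427 (@Lb.r r424 (@Lb.r r106 (@Lb.r r25 (@Lb.d (nat_lit 586) (nat_lit 9) (nat_lit 546) (@Lb.fm (nat_lit 9) t5741)))))))))))
noncomputable def l31891 : Lb := (@Lb.r r273 (@Lb.r r322 (@Lb.d (nat_lit 2) (nat_lit 512) (nat_lit 320) (@Lb.g g8 (@Lb.g g7 (@Lb.r r280 (@Lb.r r101 (@Lb.r r146 (@Lb.d (nat_lit 0) (nat_lit 0) (nat_lit 578) (@Lb.fm (nat_lit 3) t865))))))))))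
noncomputable def l31892 : Lb := (@Lb.d (nat_lit 2) (nat_lit 9) (nat_lit 129) (@Lb.g g8 (@Lb.g g9 (@Lb.g g10 (@Lb.g g11 (@Lb.r r427 (@Lb.r r424 (@Lb.r r106 (@Lb.r r25 (@Lb.d (nat_lit 585) (nat_lit 9) (nat_lit 546) (@Lb.fm (nat_lit 9) t5741)))))))))))
noncomputable def l31893 : Lb := (@Lb.d (nat_lit 2) (nat_lit 9) (nat_lit 129) (@Lb.g g8 (@Lb.g g9 (@Lb.g g10 (@Lb.g g11 (@Lb.r r427 (@Lb.r r424 (@Lb.r r106 (@Lb.r r25 (@Lb.d (nat_lit 586) (nat_lit 9) (nat_lit 681) (@Lb.fm (nat_lit 9) t5741)))))))))))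
noncomputable def l31894 : Lb := (@Lb.d (nat_lit 154) (nat_lit 576) (nat_lit 640) (@Lb.r r101 (@Lb.r r24 (@Lb.r r402 (@Lb.g g11 (@Lb.t (@Lb.fm (nat_lit 3) t2839)))))))
noncomputable def l31895 : Lb := (@Lb.d (nat_lit 0) (nat_lit 258) (nat_lit 66) (@Lb.g g4 (@Lb.g g9 (@Lb.g g10 (@Lb.g g11 (@Lb.r r2691 (@Lb.r r145 (@Lb.r r594 (@Lb.r r1169 (@Lb.d (nat_lit 1) (nat_lit 33) (nat_lit 601) (@Lb.fp (nat_lit 9) t247)))))))))))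
noncomputable def l31896 : Lb := (@Lb.d (nat_lit 386) (nat_lit 517) (nat_lit 406) (@Lb.r r24 (@Lb.r r101 (@Lb.r r386 (@Lb.g g11 (@Lb.g g6 (@Lb.d (nat_lit 0) (nat_lit 0) (nat_lit 1) (@Lb.fm (nat_lit 3) t834))))))))
noncomputable def l31897 : Lb := (@Lb.d (nat_lit 9) (nat_lit 256) (nat_lit 0) (@Lb.g g8 (@Lb.r r101 (@Lb.d (nat_lit 2) (nat_lit 88) (nat_lit 425) (@Lb.t (@Lb.fm (nat_lit 3) t153))))))
noncomputable def l31898 : Lb := (@Lb.d (nat_lit 2) (nat_lit 298) (nat_lit 128) (@Lb.g g8 (@Lb.g g9 (@Lb.g g11 (@Lb.r r1110 (@Lb.r r424 (@Lb.r r279 (@Lb.r r2593 (@Lb.d (nat_lit 74) (nat_lit 146) (nat_lit 138) (@Lb.t (@Lb.fm (nat_lit 9) t895)))))))))))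
noncomputable def l31899 : Lb := (@Lb.d (nat_lit 162) (nat_lit 2) (nat_lit 0) (@Lb.g g8 (@Lb.g g9 (@Lb.r r2595 (@Lb.r r1110 (@Lb.r r2217 (@Lb.r r424 (@Lb.d (nat_lit 90) (nat_lit 36) (nat_lit 330) (@Lb.fp (nat_lit 3) t284)))))))))
noncomputable def l31900 : Lb := (@Lb.d (nat_lit 16) (nat_lit 288) (nat_lit 2) (@Lb.g g9 (@Lb.g g6 (@Lb.r r603 (@Lb.r r596 (@Lb.r r297 (@Lb.d (nat_lit 258) (nat_lit 64) (nat_lit 513) (@Lb.fp (nat_lit 3) t1449))))))))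
noncomputable def l31901 : Lb := (@Lb.d (nat_lit 16) (nat_lit 256) (nat_lit 2) (@Lb.g g6 (@Lb.r r324 (@Lb.r r539 (@Lb.r r289 (@Lb.r r36 (@Lb.d (nat_lit 328) (nat_lit 64) (nat_lit 513) (@Lb.t (@Lb.fm (nat_lit 3) t1449)))))))))
noncomputable def l31902 : Lb := (@Lb.d (nat_lit 0) (nat_lit 38) (nat_lit 65) (@Lb.g g9 (@Lb.g g6 (@Lb.g g11 (@Lb.r r2627 (@Lb.r r289 (@Lb.d (nat_lit 0) (nat_lit 38) (nat_lit 548) (@Lb.t (@Lb.fp (nat_lit 9) t1219)))))))))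
noncomputable def l31903 : Lb := (@Lb.d (nat_lit 150) (nat_lit 346) (nat_lit 324) (@Lb.r r405 (@Lb.r r1643 (@Lb.g g10 (@Lb.g g5 (@Lb.g g4 (@Lb.d (nat_lit 1) (nat_lit 1) (nat_lit 2) (@Lb.r r403 (@Lb.t (@Lb.fp (nat_lit 9) t2700))))))))))
noncomputable def l31904 : Lb := (@Lb.r r323 (@Lb.d (nat_lit 0) (nat_lit 514) (nat_lit 1) (@Lb.g g9 (@Lb.g g6 (@Lb.r r515 (@Lb.r r97 (@Lb.r r24 (@Lb.d (nat_lit 401) (nat_lit 85) (nat_lit 612) (@Lb.fm (nat_lit 3) t5742)))))))))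
noncomputable def l31905 : Lb := (@Lb.r r323 (@Lb.d (nat_lit 33) (nat_lit 262) (nat_lit 0) (@Lb.g g8 (@Lb.g g9 (@Lb.g g10 (@Lb.r r2713 (@Lb.r r343 (@Lb.r r2694 (@Lb.r r2180 (@Lb.d (nat_lit 166) (nat_lit 64) (nat_lit 72) (@Lb.t (@Lb.fp (nat_lit 9) t4296))))))))))))
noncomputable def l31906 : Lb := (@Lb.r r2311 (@Lb.r r2196 (@Lb.r r2454 (@Lb.r r601 (@Lb.d (nat_lit 0) (nat_lit 384) (nat_lit 544) (@Lb.fm (nat_lit 1) t2503))))))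
noncomputable def l31907 : Lb := (@Lb.r r2311 (@Lb.r r2196 (@Lb.r r2454 (@Lb.r r601 (@Lb.d (nat_lit 10) (nat_lit 642) (nat_lit 544) (@Lb.fm (nat_lit 1) t2503))))))
noncomputable def l31908 : Lb := (@Lb.d (nat_lit 265) (nat_lit 258) (nat_lit 0) (@Lb.r r24 (@Lb.r r2069 (@Lb.g g9 (@Lb.g g8 (@Lb.fp (nat_lit 3) t2))))))
noncomputable def l31909 : Lb := (@Lb.d (nat_lit 2) (nat_lit 518) (nat_lit 136) (@Lb.g g8 (@Lb.g g9 (@Lb.g g10 (@Lb.g g11 (@Lb.r r1691 (@Lb.r r1684 (@Lb.r r1190 (@Lb.r r529 (@Lb.d (nat_lit 361) (nat_lit 80) (nat_lit 386) (@Lb.fp (nat_lit 9) t152)))))))))))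
noncomputable def l31910 : Lb := (@Lb.d (nat_lit 0) (nat_lit 341) (nat_lit 409) (@Lb.r r134 (@Lb.r r1620 (@Lb.r r2345 (@Lb.r r1287 (@Lb.g g4 (@Lb.t (@Lb.fm (nat_lit 3) t1449))))))))
noncomputable def l31911 : Lb := (@Lb.d (nat_lit 0) (nat_lit 554) (nat_lit 550) (@Lb.r r134 (@Lb.r r1624 (@Lb.r r2341 (@Lb.r r1291 (@Lb.g g8 (@Lb.t (@Lb.fm (nat_lit 3) t1449))))))))
noncomputable def l31912 : Lb := (@Lb.d (nat_lit 9) (nat_lit 513) (nat_lit 2) (@Lb.g g8 (@Lb.g g9 (@Lb.g g10 (@Lb.g g11 (@Lb.r r1706 (@Lb.r r1451 (@Lb.r r1444 (@Lb.r r1317 (@Lb.d (nat_lit 581) (nat_lit 168) (nat_lit 322) (@Lb.fp (nat_lit 9) t2118)))))))))))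
noncomputable def l31913 : Lb := (@Lb.r r21 (@Lb.d (nat_lit 2) (nat_lit 0) (nat_lit 2) (@Lb.g g8 (@Lb.g g10 (@Lb.g g11 (@Lb.r r1674 (@Lb.r r1419 (@Lb.r r1433 (@Lb.r r1412 (@Lb.d (nat_lit 290) (nat_lit 80) (nat_lit 426) (@Lb.t (@Lb.fp (nat_lit 9) t2259))))))))))))
noncomputable def l31914 : Lb := (@Lb.d (nat_lit 34) (nat_lit 385) (nat_lit 420) (@Lb.r r134 (@Lb.r r2376 (@Lb.r r1559 (@Lb.g g5 (@Lb.g g4 (@Lb.d (nat_lit 66) (nat_lit 25) (nat_lit 0) (@Lb.fp (nat_lit 3) t2479))))))))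
noncomputable def l31915 : Lb := (@Lb.d (nat_lit 0) (nat_lit 550) (nat_lit 0) (@Lb.g g9 (@Lb.r r2651 (@Lb.r r1414 (@Lb.r r2564 (@Lb.d (nat_lit 280) (nat_lit 146) (nat_lit 257) (@Lb.t (@Lb.fp (nat_lit 3) t4354))))))))
noncomputable def l31916 : Lb := (@Lb.d (nat_lit 261) (nat_lit 106) (nat_lit 420) (@Lb.r r597 (@Lb.r r279 (@Lb.r r584 (@Lb.r r166 (@Lb.g g7 (@Lb.g g6 (@Lb.g g5 (@Lb.d (nat_lit 4) (nat_lit 1) (nat_lit 129) (@Lb.t (@Lb.fp (nat_lit 9) t4162)))))))))))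
noncomputable def l31917 : Lb := (@Lb.d (nat_lit 0) (nat_lit 512) (nat_lit 128) (@Lb.g g10 (@Lb.g g11 (@Lb.r r2707 (@Lb.r r2408 (@Lb.r r1174 (@Lb.r r289 (@Lb.d (nat_lit 153) (nat_lit 102) (nat_lit 682) (@Lb.fm (nat_lit 3) t5184)))))))))
noncomputable def l31918 : Lb := (@Lb.d (nat_lit 0) (nat_lit 550) (nat_lit 0) (@Lb.g g9 (@Lb.r r2651 (@Lb.r r1414 (@Lb.r r2564 (@Lb.d (nat_lit 281) (nat_lit 153) (nat_lit 256) (@Lb.t (@Lb.fp (nat_lit 3) t4354))))))))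
noncomputable def l31919 : Lb := (@Lb.r r20 (@Lb.d (nat_lit 128) (nat_lit 133) (nat_lit 74) (@Lb.g g5 (@Lb.g g10 (@Lb.g g11 (@Lb.r r1174 (@Lb.r r280 (@Lb.r r615 (@Lb.d (nat_lit 154) (nat_lit 150) (nat_lit 73) (@Lb.t (@Lb.fm (nat_lit 9) t151)))))))))))
noncomputable def l31920 : Lb := (@Lb.d (nat_lit 0) (nat_lit 294) (nat_lit 0) (@Lb.g g9 (@Lb.r r2651 (@Lb.r r1414 (@Lb.r r2564 (@Lb.d (nat_lit 281) (nat_lit 146) (nat_lit 257) (@Lb.t (@Lb.fp (nat_lit 3) t4354))))))))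
noncomputable def l31921 : Lb := (@Lb.r r21 (@Lb.d (nat_lit 410) (nat_lit 0) (nat_lit 128) (@Lb.g g8 (@Lb.g g10 (@Lb.g g11 (@Lb.r r387 (@Lb.r r101 (@Lb.r r2450 (@Lb.d (nat_lit 2) (nat_lit 85) (nat_lit 578) (@Lb.t (@Lb.fm (nat_lit 9) t2605)))))))))))
noncomputable def l31922 : Lb := (@Lb.d (nat_lit 400) (nat_lit 513) (nat_lit 294) (@Lb.r r24 (@Lb.r r386 (@Lb.g g11 (@Lb.g g6 (@Lb.g g5 (@Lb.d (nat_lit 4) (nat_lit 1) (nat_lit 1) (@Lb.t (@Lb.fm (nat_lit 9) t1221)))))))))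
noncomputable def l31923 : Lb := (@Lb.r r82 (@Lb.d (nat_lit 0) (nat_lit 2) (nat_lit 64) (@Lb.g g9 (@Lb.g g7 (@Lb.r r386 (@Lb.r r289 (@Lb.d (nat_lit 5) (nat_lit 34) (nat_lit 138) (@Lb.fp (nat_lit 3) t607))))))))
noncomputable def l31924 : Lb := (@Lb.d (nat_lit 33) (nat_lit 4) (nat_lit 73) (@Lb.g g8 (@Lb.g g9 (@Lb.g g6 (@Lb.g g11 (@Lb.r r612 (@Lb.r r263 (@Lb.r r97 (@Lb.r r516 (@Lb.d (nat_lit 1) (nat_lit 41) (nat_lit 128) (@Lb.fp (nat_lit 9) t546)))))))))))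
noncomputable def l31925 : Lb := (@Lb.d (nat_lit 1) (nat_lit 289) (nat_lit 128) (@Lb.g g8 (@Lb.g g9 (@Lb.g g11 (@Lb.r r548 (@Lb.r r1383 (@Lb.r r2178 (@Lb.r r1317 (@Lb.r r516 (@Lb.d (nat_lit 533) (nat_lit 8) (nat_lit 85) (@Lb.t (@Lb.fm (nat_lit 9) t5445))))))))))))
noncomputable def l31926 : Lb := (@Lb.r r275 (@Lb.d (nat_lit 129) (nat_lit 516) (nat_lit 0) (@Lb.g g8 (@Lb.g g9 (@Lb.r r1351 (@Lb.r r2178 (@Lb.r r1636 (@Lb.d (nat_lit 409) (nat_lit 18) (nat_lit 582) (@Lb.fp (nat_lit 3) t5445)))))))))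
noncomputable def l31927 : Lb := (@Lb.r r20 (@Lb.r r275 (@Lb.d (nat_lit 16) (nat_lit 516) (nat_lit 2) (@Lb.g g9 (@Lb.g g6 (@Lb.r r104 (@Lb.r r2585 (@Lb.r r2579 (@Lb.d (nat_lit 34) (nat_lit 5) (nat_lit 17) (@Lb.fp (nat_lit 3) t990))))))))))
noncomputable def l31928 : Lb := (@Lb.r r1284 (@Lb.r r273 (@Lb.d (nat_lit 16) (nat_lit 544) (nat_lit 22) (@Lb.g g6 (@Lb.g g11 (@Lb.r r1425 (@Lb.r r295 (@Lb.d (nat_lit 389) (nat_lit 162) (nat_lit 673) (@Lb.fp (nat_lit 3) t5079)))))))))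
noncomputable def l31929 : Lb := (@Lb.d (nat_lit 545) (nat_lit 517) (nat_lit 324) (@Lb.r r20 (@Lb.r r2321 (@Lb.r r1323 (@Lb.r r388 (@Lb.g g7 (@Lb.g g10 (@Lb.g g5 (@Lb.g g4 (@Lb.d (nat_lit 8) (nat_lit 0) (nat_lit 150) (@Lb.fm (nat_lit 9) t4960)))))))))))
noncomputable def l31930 : Lb := (@Lb.r r275 (@Lb.d (nat_lit 2) (nat_lit 517) (nat_lit 18) (@Lb.g g8 (@Lb.g g9 (@Lb.g g6 (@Lb.r r1411 (@Lb.r r1697 (@Lb.r r24 (@Lb.d (nat_lit 10) (nat_lit 154) (nat_lit 282) (@Lb.t (@Lb.fp (nat_lit 9) t985)))))))))))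
noncomputable def l31931 : Lb := (@Lb.r r275 (@Lb.d (nat_lit 162) (nat_lit 4) (nat_lit 2) (@Lb.g g8 (@Lb.g g9 (@Lb.g g10 (@Lb.r r1287 (@Lb.r r1122 (@Lb.r r548 (@Lb.d (nat_lit 137) (nat_lit 153) (nat_lit 161) (@Lb.t (@Lb.fm (nat_lit 9) t5693)))))))))))
noncomputable def l31932 : Lb := (@Lb.d (nat_lit 33) (nat_lit 294) (nat_lit 66) (@Lb.g g8 (@Lb.g g9 (@Lb.g g10 (@Lb.g g11 (@Lb.r r2723 (@Lb.r r2073 (@Lb.r r340 (@Lb.r r1162 (@Lb.r r132 (@Lb.d (nat_lit 337) (nat_lit 90) (nat_lit 598) (@Lb.fp (nat_lit 9) t5743))))))))))))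
noncomputable def l31933 : Lb := (@Lb.d (nat_lit 1) (nat_lit 609) (nat_lit 0) (@Lb.g g8 (@Lb.g g5 (@Lb.r r322 (@Lb.r r1667 (@Lb.r r578 (@Lb.r r24 (@Lb.d (nat_lit 5) (nat_lit 9) (nat_lit 18) (@Lb.fp (nat_lit 3) t40)))))))))
noncomputable def l31934 : Lb := (@Lb.r r82 (@Lb.d (nat_lit 34) (nat_lit 33) (nat_lit 64) (@Lb.g g8 (@Lb.g g9 (@Lb.g g11 (@Lb.r r363 (@Lb.r r582 (@Lb.r r549 (@Lb.r r408 (@Lb.d (nat_lit 392) (nat_lit 26) (nat_lit 105) (@Lb.t (@Lb.fm (nat_lit 9) t5744))))))))))))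
noncomputable def l31935 : Lb := (@Lb.d (nat_lit 132) (nat_lit 256) (nat_lit 66) (@Lb.g g8 (@Lb.g g9 (@Lb.g g10 (@Lb.g g11 (@Lb.r r2453 (@Lb.r r1575 (@Lb.r r386 (@Lb.r r2564 (@Lb.d (nat_lit 681) (nat_lit 82) (nat_lit 277) (@Lb.fp (nat_lit 9) t5745)))))))))))
noncomputable def l31936 : Lb := (@Lb.r r82 (@Lb.d (nat_lit 164) (nat_lit 256) (nat_lit 384) (@Lb.g g8 (@Lb.g g9 (@Lb.g g11 (@Lb.r r1113 (@Lb.r r614 (@Lb.r r424 (@Lb.d (nat_lit 517) (nat_lit 86) (nat_lit 393) (@Lb.t (@Lb.fp (nat_lit 9) t5746)))))))))))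
noncomputable def l31937 : Lb := (@Lb.d (nat_lit 4) (nat_lit 1) (nat_lit 2) (@Lb.g g8 (@Lb.g g9 (@Lb.g g10 (@Lb.r r2731 (@Lb.r r1642 (@Lb.r r1561 (@Lb.d (nat_lit 586) (nat_lit 105) (nat_lit 294) (@Lb.t (@Lb.fp (nat_lit 9) t5747))))))))))
noncomputable def l31938 : Lb := (@Lb.d (nat_lit 4) (nat_lit 1) (nat_lit 72) (@Lb.g g8 (@Lb.g g9 (@Lb.g g11 (@Lb.r r1410 (@Lb.r r579 (@Lb.r r1561 (@Lb.d (nat_lit 586) (nat_lit 2) (nat_lit 425) (@Lb.t (@Lb.fm (nat_lit 9) t1035))))))))))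
noncomputable def l31939 : Lb := (@Lb.r r82 (@Lb.d (nat_lit 132) (nat_lit 256) (nat_lit 64) (@Lb.g g8 (@Lb.g g9 (@Lb.g g11 (@Lb.r r1124 (@Lb.r r618 (@Lb.r r609 (@Lb.r r2339 (@Lb.d (nat_lit 610) (nat_lit 104) (nat_lit 73) (@Lb.t (@Lb.fp (nat_lit 9) t5213))))))))))))
noncomputable def l31940 : Lb := (@Lb.d (nat_lit 0) (nat_lit 0) (nat_lit 66) (@Lb.g g8 (@Lb.g g9 (@Lb.g g10 (@Lb.g g7 (@Lb.r r386 (@Lb.r r101 (@Lb.r r24 (@Lb.d (nat_lit 352) (nat_lit 0) (nat_lit 585) (@Lb.fp (nat_lit 9) t1150))))))))))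
noncomputable def l31941 : Lb := (@Lb.d (nat_lit 390) (nat_lit 326) (nat_lit 258) (@Lb.r r1044 (@Lb.r r2601 (@Lb.r r2731 (@Lb.g g6 (@Lb.g g5 (@Lb.g g4 (@Lb.d (nat_lit 32) (nat_lit 0) (nat_lit 17) (@Lb.t (@Lb.fp (nat_lit 9) t5748))))))))))
noncomputable def l31942 : Lb := (@Lb.d (nat_lit 261) (nat_lit 514) (nat_lit 138) (@Lb.r r24 (@Lb.r r2138 (@Lb.g g5 (@Lb.d (nat_lit 4) (nat_lit 1) (nat_lit 0) (@Lb.t (@Lb.fp (nat_lit 3) t1221)))))))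
noncomputable def l31943 : Lb := (@Lb.d (nat_lit 2) (nat_lit 0) (nat_lit 73) (@Lb.g g8 (@Lb.g g9 (@Lb.g g10 (@Lb.g g11 (@Lb.r r273 (@Lb.r r1707 (@Lb.r r1610 (@Lb.r r2600 (@Lb.r r153 (@Lb.d (nat_lit 10) (nat_lit 88) (nat_lit 297) (@Lb.fp (nat_lit 9) t591))))))))))))
noncomputable def l31944 : Lb := (@Lb.r r70 (@Lb.d (nat_lit 408) (nat_lit 261) (nat_lit 0) (@Lb.g g8 (@Lb.g g9 (@Lb.r r662 (@Lb.r r2731 (@Lb.r r2601 (@Lb.d (nat_lit 324) (nat_lit 18) (nat_lit 106) (@Lb.fp (nat_lit 3) t3404)))))))))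
noncomputable def l31945 : Lb := (@Lb.d (nat_lit 16) (nat_lit 514) (nat_lit 74) (@Lb.g g8 (@Lb.g g9 (@Lb.g g10 (@Lb.g g11 (@Lb.r r2667 (@Lb.r r2666 (@Lb.r r97 (@Lb.r r2648 (@Lb.d (nat_lit 600) (nat_lit 161) (nat_lit 408) (@Lb.fm (nat_lit 9) t493)))))))))))
noncomputable def l31946 : Lb := (@Lb.r r323 (@Lb.d (nat_lit 394) (nat_lit 4) (nat_lit 5) (@Lb.g g8 (@Lb.g g6 (@Lb.r r2659 (@Lb.d (nat_lit 9) (nat_lit 146) (nat_lit 17) (@Lb.fm (nat_lit 3) t5749)))))))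
noncomputable def l31947 : Lb := (@Lb.d (nat_lit 400) (nat_lit 513) (nat_lit 288) (@Lb.r r532 (@Lb.r r1418 (@Lb.r r2647 (@Lb.r r1441 (@Lb.g g10 (@Lb.r r145 (@Lb.r r132 (@Lb.t (@Lb.fm (nat_lit 3) t2183))))))))))
noncomputable def l31948 : Lb := (@Lb.d (nat_lit 665) (nat_lit 577) (nat_lit 289) (@Lb.r r601 (@Lb.r r1624 (@Lb.r r1371 (@Lb.g g7 (@Lb.g g6 (@Lb.g g5 (@Lb.d (nat_lit 20) (nat_lit 1) (nat_lit 97) (@Lb.t (@Lb.fm (nat_lit 9) t4807))))))))))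
noncomputable def l31949 : Lb := (@Lb.d (nat_lit 329) (nat_lit 618) (nat_lit 266) (@Lb.r r680 (@Lb.r r602 (@Lb.r r331 (@Lb.g g5 (@Lb.g g4 (@Lb.d (nat_lit 81) (nat_lit 81) (nat_lit 0) (@Lb.r r98 (@Lb.fp (nat_lit 3) t5750)))))))))
noncomputable def l31950 : Lb := (@Lb.d (nat_lit 329) (nat_lit 106) (nat_lit 330) (@Lb.r r680 (@Lb.r r602 (@Lb.r r331 (@Lb.g g5 (@Lb.g g4 (@Lb.d (nat_lit 82) (nat_lit 81) (nat_lit 0) (@Lb.r r98 (@Lb.fp (nat_lit 3) t5751)))))))))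
noncomputable def l31951 : Lb := (@Lb.d (nat_lit 352) (nat_lit 516) (nat_lit 582) (@Lb.r r1604 (@Lb.r r2442 (@Lb.r r1367 (@Lb.g g7 (@Lb.g g6 (@Lb.g g5 (@Lb.g g4 (@Lb.d (nat_lit 1) (nat_lit 129) (nat_lit 65) (@Lb.fm (nat_lit 9) t5752))))))))))
noncomputable def l31952 : Lb := (@Lb.d (nat_lit 0) (nat_lit 0) (nat_lit 2) (@Lb.g g10 (@Lb.r r1671 (@Lb.r r1638 (@Lb.r r101 (@Lb.r r24 (@Lb.d (nat_lit 388) (nat_lit 162) (nat_lit 645) (@Lb.t (@Lb.fm (nat_lit 3) t5753)))))))))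
noncomputable def l31953 : Lb := (@Lb.d (nat_lit 401) (nat_lit 256) (nat_lit 258) (@Lb.r r1300 (@Lb.r r601 (@Lb.r r539 (@Lb.r r532 (@Lb.g g6 (@Lb.d (nat_lit 0) (nat_lit 0) (nat_lit 34) (@Lb.t (@Lb.fp (nat_lit 3) t496)))))))))
noncomputable def l31954 : Lb := (@Lb.d (nat_lit 0) (nat_lit 2) (nat_lit 130) (@Lb.g g9 (@Lb.g g10 (@Lb.g g11 (@Lb.r r1602 (@Lb.r r388 (@Lb.r r2667 (@Lb.r r549 (@Lb.r r2068 (@Lb.d (nat_lit 665) (nat_lit 9) (nat_lit 146) (@Lb.t (@Lb.fm (nat_lit 9) t2570))))))))))))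
noncomputable def l31955 : Lb := (@Lb.d (nat_lit 666) (nat_lit 329) (nat_lit 69) (@Lb.r r358 (@Lb.r r148 (@Lb.r r2393 (@Lb.r r1315 (@Lb.g g7 (@Lb.g g6 (@Lb.g g5 (@Lb.d (nat_lit 16) (nat_lit 0) (nat_lit 65) (@Lb.t (@Lb.fp (nat_lit 9) t850)))))))))))
noncomputable def l31956 : Lb := (@Lb.d (nat_lit 37) (nat_lit 266) (nat_lit 129) (@Lb.g g8 (@Lb.g g9 (@Lb.g g10 (@Lb.g g11 (@Lb.r r1366 (@Lb.r r2711 (@Lb.r r1449 (@Lb.r r612 (@Lb.d (nat_lit 521) (nat_lit 68) (nat_lit 20) (@Lb.fp (nat_lit 9) t3991)))))))))))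
noncomputable def l31957 : Lb := (@Lb.d (nat_lit 106) (nat_lit 289) (nat_lit 69) (@Lb.r r21 (@Lb.r r583 (@Lb.r r264 (@Lb.r r386 (@Lb.g g7 (@Lb.g g5 (@Lb.d (nat_lit 64) (nat_lit 1) (nat_lit 64) (@Lb.fp (nat_lit 3) t355)))))))))
noncomputable def l31958 : Lb := (@Lb.d (nat_lit 2) (nat_lit 264) (nat_lit 4) (@Lb.g g8 (@Lb.g g10 (@Lb.g g11 (@Lb.r r2699 (@Lb.r r2601 (@Lb.r r2696 (@Lb.r r154 (@Lb.d (nat_lit 25) (nat_lit 26) (nat_lit 297) (@Lb.t (@Lb.fm (nat_lit 9) t2919)))))))))))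
noncomputable def l31959 : Lb := (@Lb.d (nat_lit 2) (nat_lit 520) (nat_lit 130) (@Lb.g g8 (@Lb.g g10 (@Lb.g g11 (@Lb.r r2699 (@Lb.r r2601 (@Lb.r r2696 (@Lb.r r154 (@Lb.d (nat_lit 25) (nat_lit 26) (nat_lit 297) (@Lb.t (@Lb.fm (nat_lit 9) t2919)))))))))))
noncomputable def l31960 : Lb := (@Lb.d (nat_lit 2) (nat_lit 514) (nat_lit 130) (@Lb.g g8 (@Lb.g g9 (@Lb.g g10 (@Lb.g g11 (@Lb.r r427 (@Lb.r r424 (@Lb.r r106 (@Lb.r r97 (@Lb.d (nat_lit 9) (nat_lit 2) (nat_lit 18) (@Lb.fp (nat_lit 9) t356)))))))))))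
noncomputable def l31961 : Lb := (@Lb.r r323 (@Lb.d (nat_lit 129) (nat_lit 296) (nat_lit 2) (@Lb.g g8 (@Lb.g g5 (@Lb.g g10 (@Lb.r r359 (@Lb.r r146 (@Lb.r r584 (@Lb.d (nat_lit 74) (nat_lit 10) (nat_lit 69) (@Lb.t (@Lb.fp (nat_lit 9) t892)))))))))))
noncomputable def l31962 : Lb := (@Lb.d (nat_lit 2) (nat_lit 289) (nat_lit 130) (@Lb.g g8 (@Lb.g g9 (@Lb.g g10 (@Lb.g g11 (@Lb.r r683 (@Lb.r r1700 (@Lb.r r1190 (@Lb.r r1061 (@Lb.d (nat_lit 9) (nat_lit 137) (nat_lit 169) (@Lb.fm (nat_lit 9) t1640)))))))))))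
noncomputable def l31963 : Lb := (@Lb.r r322 (@Lb.d (nat_lit 8) (nat_lit 545) (nat_lit 580) (@Lb.g g9 (@Lb.g g7 (@Lb.r r422 (@Lb.r r1112 (@Lb.r r2085 (@Lb.d (nat_lit 41) (nat_lit 73) (nat_lit 97) (@Lb.fm (nat_lit 3) t5754)))))))))
noncomputable def l31964 : Lb := (@Lb.r r322 (@Lb.d (nat_lit 1) (nat_lit 545) (nat_lit 580) (@Lb.g g8 (@Lb.g g9 (@Lb.g g7 (@Lb.r r2474 (@Lb.r r1188 (@Lb.r r1061 (@Lb.d (nat_lit 266) (nat_lit 137) (nat_lit 66) (@Lb.t (@Lb.fp (nat_lit 9) t1159)))))))))))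
noncomputable def l31965 : Lb := (@Lb.r r322 (@Lb.d (nat_lit 2) (nat_lit 33) (nat_lit 580) (@Lb.g g8 (@Lb.g g9 (@Lb.g g7 (@Lb.r r2474 (@Lb.r r1188 (@Lb.r r1061 (@Lb.d (nat_lit 266) (nat_lit 130) (nat_lit 64) (@Lb.t (@Lb.fp (nat_lit 9) t1159)))))))))))
noncomputable def l31966 : Lb := (@Lb.r r322 (@Lb.d (nat_lit 2) (nat_lit 545) (nat_lit 580) (@Lb.g g8 (@Lb.g g9 (@Lb.g g7 (@Lb.r r2474 (@Lb.r r1188 (@Lb.r r1061 (@Lb.d (nat_lit 265) (nat_lit 137) (nat_lit 66) (@Lb.t (@Lb.fp (nat_lit 9) t739)))))))))))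
noncomputable def l31967 : Lb := (@Lb.r r322 (@Lb.d (nat_lit 2) (nat_lit 289) (nat_lit 580) (@Lb.g g8 (@Lb.g g9 (@Lb.g g7 (@Lb.r r2474 (@Lb.r r1188 (@Lb.r r1061 (@Lb.d (nat_lit 266) (nat_lit 137) (nat_lit 66) (@Lb.t (@Lb.fp (nat_lit 9) t1159)))))))))))
noncomputable def l31968 : Lb := (@Lb.r r81 (@Lb.r r323 (@Lb.d (nat_lit 10) (nat_lit 256) (nat_lit 33) (@Lb.g g8 (@Lb.g g6 (@Lb.r r2347 (@Lb.r r149 (@Lb.r r1704 (@Lb.d (nat_lit 97) (nat_lit 21) (nat_lit 537) (@Lb.fm (nat_lit 3) t2301))))))))))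
noncomputable def l31969 : Lb := (@Lb.d (nat_lit 0) (nat_lit 256) (nat_lit 128) (@Lb.g g10 (@Lb.g g11 (@Lb.r r353 (@Lb.r r663 (@Lb.r r356 (@Lb.r r154 (@Lb.d (nat_lit 577) (nat_lit 10) (nat_lit 530) (@Lb.fp (nat_lit 3) t1641)))))))))
noncomputable def l31970 : Lb := (@Lb.d (nat_lit 74) (nat_lit 97) (nat_lit 321) (@Lb.r r280 (@Lb.r r2661 (@Lb.g g11 (@Lb.g g6 (@Lb.g g4 (@Lb.d (nat_lit 80) (nat_lit 4) (nat_lit 513) (@Lb.r r25 (@Lb.t (@Lb.fm (nat_lit 9) t4258))))))))))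
noncomputable def l31971 : Lb := (@Lb.d (nat_lit 2) (nat_lit 260) (nat_lit 0) (@Lb.g g8 (@Lb.g g9 (@Lb.g g10 (@Lb.g g11 (@Lb.r r425 (@Lb.r r599 (@Lb.r r2394 (@Lb.r r81 (@Lb.r r2436 (@Lb.d (nat_lit 105) (nat_lit 2) (nat_lit 666) (@Lb.fp (nat_lit 9) t5755))))))))))))
noncomputable def l31972 : Lb := (@Lb.d (nat_lit 274) (nat_lit 5) (nat_lit 82) (@Lb.r r2321 (@Lb.r r1094 (@Lb.r r2407 (@Lb.r r341 (@Lb.g g7 (@Lb.g g6 (@Lb.g g5 (@Lb.g g4 (@Lb.d (nat_lit 2) (nat_lit 0) (nat_lit 65) (@Lb.fp (nat_lit 9) t444)))))))))))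
noncomputable def l31973 : Lb := (@Lb.r r82 (@Lb.d (nat_lit 18) (nat_lit 514) (nat_lit 0) (@Lb.g g8 (@Lb.g g9 (@Lb.g g11 (@Lb.r r1706 (@Lb.r r1449 (@Lb.r r1623 (@Lb.r r2472 (@Lb.d (nat_lit 662) (nat_lit 102) (nat_lit 154) (@Lb.t (@Lb.fm (nat_lit 9) t5331))))))))))))
noncomputable def l31974 : Lb := (@Lb.d (nat_lit 274) (nat_lit 261) (nat_lit 82) (@Lb.r r2321 (@Lb.r r1094 (@Lb.r r2407 (@Lb.r r341 (@Lb.g g7 (@Lb.g g6 (@Lb.g g5 (@Lb.g g4 (@Lb.d (nat_lit 1) (nat_lit 0) (nat_lit 65) (@Lb.fp (nat_lit 9) t2054)))))))))))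
noncomputable def l31975 : Lb := (@Lb.d (nat_lit 133) (nat_lit 658) (nat_lit 256) (@Lb.r r1114 (@Lb.r r1307 (@Lb.g g5 (@Lb.d (nat_lit 4) (nat_lit 1) (nat_lit 0) (@Lb.t (@Lb.fm (nat_lit 3) t1440)))))))
noncomputable def l31976 : Lb := (@Lb.d (nat_lit 0) (nat_lit 0) (nat_lit 74) (@Lb.g g10 (@Lb.g g11 (@Lb.r r2707 (@Lb.r r24 (@Lb.r r1381 (@Lb.r r2194 (@Lb.d (nat_lit 536) (nat_lit 137) (nat_lit 546) (@Lb.fm (nat_lit 3) t61)))))))))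
noncomputable def l31977 : Lb := (@Lb.d (nat_lit 8) (nat_lit 514) (nat_lit 2) (@Lb.g g9 (@Lb.g g10 (@Lb.g g7 (@Lb.r r386 (@Lb.r r24 (@Lb.d (nat_lit 608) (nat_lit 2) (nat_lit 537) (@Lb.t (@Lb.fp (nat_lit 9) t698)))))))))
noncomputable def l31978 : Lb := (@Lb.r r275 (@Lb.d (nat_lit 9) (nat_lit 257) (nat_lit 2) (@Lb.g g8 (@Lb.g g5 (@Lb.g g10 (@Lb.r r2563 (@Lb.r r2458 (@Lb.r r2436 (@Lb.d (nat_lit 105) (nat_lit 80) (nat_lit 538) (@Lb.t (@Lb.fp (nat_lit 9) t5756)))))))))))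
noncomputable def l31979 : Lb := (@Lb.d (nat_lit 10) (nat_lit 138) (nat_lit 81) (@Lb.r r97 (@Lb.r r1106 (@Lb.r r1299 (@Lb.g g5 (@Lb.d (nat_lit 0) (nat_lit 1) (nat_lit 0) (@Lb.t (@Lb.fp (nat_lit 3) t216))))))))
noncomputable def l31980 : Lb := (@Lb.d (nat_lit 9) (nat_lit 513) (nat_lit 130) (@Lb.g g8 (@Lb.g g9 (@Lb.g g10 (@Lb.g g11 (@Lb.r r2666 (@Lb.r r579 (@Lb.r r25 (@Lb.r r24 (@Lb.d (nat_lit 330) (nat_lit 161) (nat_lit 330) (@Lb.fp (nat_lit 9) t1449)))))))))))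
noncomputable def l31981 : Lb := (@Lb.d (nat_lit 9) (nat_lit 1) (nat_lit 130) (@Lb.g g8 (@Lb.g g9 (@Lb.g g10 (@Lb.g g11 (@Lb.r r427 (@Lb.r r106 (@Lb.r r97 (@Lb.d (nat_lit 265) (nat_lit 4) (nat_lit 168) (@Lb.fm (nat_lit 9) t1022))))))))))
noncomputable def l31982 : Lb := (@Lb.d (nat_lit 2) (nat_lit 2) (nat_lit 130) (@Lb.g g8 (@Lb.g g9 (@Lb.g g10 (@Lb.g g11 (@Lb.r r1130 (@Lb.r r356 (@Lb.r r411 (@Lb.r r533 (@Lb.r r2084 (@Lb.d (nat_lit 289) (nat_lit 10) (nat_lit 161) (@Lb.fp (nat_lit 9) t145))))))))))))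
noncomputable def l31983 : Lb := (@Lb.d (nat_lit 1) (nat_lit 514) (nat_lit 2) (@Lb.g g8 (@Lb.g g9 (@Lb.g g10 (@Lb.g g11 (@Lb.r r1706 (@Lb.r r648 (@Lb.r r1563 (@Lb.r r2337 (@Lb.r r36 (@Lb.d (nat_lit 641) (nat_lit 105) (nat_lit 66) (@Lb.fp (nat_lit 9) t242))))))))))))
noncomputable def l31984 : Lb := (@Lb.d (nat_lit 0) (nat_lit 550) (nat_lit 10) (@Lb.g g8 (@Lb.g g9 (@Lb.g g10 (@Lb.g g11 (@Lb.r r2666 (@Lb.r r612 (@Lb.r r1287 (@Lb.r r2577 (@Lb.r r2084 (@Lb.d (nat_lit 384) (nat_lit 2) (nat_lit 320) (@Lb.fp (nat_lit 9) t3851))))))))))))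
noncomputable def l31985 : Lb := (@Lb.d (nat_lit 0) (nat_lit 2) (nat_lit 9) (@Lb.g g8 (@Lb.g g9 (@Lb.g g10 (@Lb.g g11 (@Lb.r r2691 (@Lb.r r297 (@Lb.r r648 (@Lb.r r666 (@Lb.r r1156 (@Lb.d (nat_lit 641) (nat_lit 42) (nat_lit 73) (@Lb.fp (nat_lit 9) t668))))))))))))
noncomputable def l31986 : Lb := (@Lb.r r82 (@Lb.d (nat_lit 132) (nat_lit 16) (nat_lit 128) (@Lb.g g8 (@Lb.g g9 (@Lb.g g11 (@Lb.r r1315 (@Lb.r r2438 (@Lb.r r296 (@Lb.r r2601 (@Lb.d (nat_lit 581) (nat_lit 128) (nat_lit 320) (@Lb.t (@Lb.fp (nat_lit 9) t5757))))))))))))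
noncomputable def l31987 : Lb := (@Lb.d (nat_lit 592) (nat_lit 161) (nat_lit 341) (@Lb.r r2068 (@Lb.r r2379 (@Lb.r r658 (@Lb.g g7 (@Lb.g g6 (@Lb.g g9 (@Lb.g g4 (@Lb.d (nat_lit 96) (nat_lit 153) (nat_lit 74) (@Lb.fp (nat_lit 9) t5758))))))))))
noncomputable def l31988 : Lb := (@Lb.d (nat_lit 0) (nat_lit 512) (nat_lit 66) (@Lb.g g8 (@Lb.g g10 (@Lb.g g11 (@Lb.r r2698 (@Lb.r r2692 (@Lb.r r2567 (@Lb.r r409 (@Lb.d (nat_lit 34) (nat_lit 5) (nat_lit 384) (@Lb.t (@Lb.fm (nat_lit 9) t1087)))))))))))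
noncomputable def l31989 : Lb := (@Lb.d (nat_lit 356) (nat_lit 390) (nat_lit 601) (@Lb.r r358 (@Lb.r r676 (@Lb.r r1105 (@Lb.r r1623 (@Lb.g g6 (@Lb.g g5 (@Lb.g g4 (@Lb.d (nat_lit 2) (nat_lit 1) (nat_lit 5) (@Lb.t (@Lb.fm (nat_lit 9) t2118)))))))))))
noncomputable def l31990 : Lb := (@Lb.d (nat_lit 5) (nat_lit 81) (nat_lit 602) (@Lb.r r1543 (@Lb.r r424 (@Lb.r r90 (@Lb.g g9 (@Lb.g g4 (@Lb.d (nat_lit 18) (nat_lit 130) (nat_lit 0) (@Lb.r r291 (@Lb.r r98 (@Lb.fp (nat_lit 3) t5759))))))))))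
noncomputable def l31991 : Lb := (@Lb.d (nat_lit 528) (nat_lit 170) (nat_lit 682) (@Lb.r r657 (@Lb.r r595 (@Lb.g g6 (@Lb.g g5 (@Lb.g g8 (@Lb.d (nat_lit 4) (nat_lit 18) (nat_lit 33) (@Lb.r r387 (@Lb.t (@Lb.fp (nat_lit 9) t5760))))))))))
noncomputable def l31992 : Lb := (@Lb.d (nat_lit 5) (nat_lit 129) (nat_lit 32) (@Lb.r r260 (@Lb.r r2178 (@Lb.r r603 (@Lb.r r2469 (@Lb.r r532 (@Lb.g g7 (@Lb.g g9 (@Lb.g g8 (@Lb.t (@Lb.fm (nat_lit 9) t307)))))))))))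
noncomputable def l31993 : Lb := (@Lb.d (nat_lit 34) (nat_lit 0) (nat_lit 0) (@Lb.g g8 (@Lb.g g9 (@Lb.g g11 (@Lb.r r406 (@Lb.r r2649 (@Lb.r r600 (@Lb.d (nat_lit 409) (nat_lit 33) (nat_lit 153) (@Lb.t (@Lb.fm (nat_lit 9) t1814))))))))))
noncomputable def l31994 : Lb := (@Lb.d (nat_lit 134) (nat_lit 517) (nat_lit 128) (@Lb.g g8 (@Lb.g g9 (@Lb.g g10 (@Lb.g g11 (@Lb.r r683 (@Lb.r r2410 (@Lb.r r537 (@Lb.r r516 (@Lb.d (nat_lit 130) (nat_lit 90) (nat_lit 21) (@Lb.fm (nat_lit 9) t995)))))))))))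
noncomputable def l31995 : Lb := (@Lb.d (nat_lit 4) (nat_lit 5) (nat_lit 0) (@Lb.g g8 (@Lb.g g9 (@Lb.g g10 (@Lb.g g11 (@Lb.r r683 (@Lb.r r2666 (@Lb.r r25 (@Lb.d (nat_lit 0) (nat_lit 90) (nat_lit 537) (@Lb.fm (nat_lit 9) t2985))))))))))
noncomputable def l31996 : Lb := (@Lb.r r322 (@Lb.d (nat_lit 2) (nat_lit 528) (nat_lit 68) (@Lb.g g8 (@Lb.g g9 (@Lb.g g11 (@Lb.r r402 (@Lb.r r340 (@Lb.r r601 (@Lb.d (nat_lit 37) (nat_lit 138) (nat_lit 72) (@Lb.t (@Lb.fp (nat_lit 9) t658)))))))))))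
noncomputable def l31997 : Lb := (@Lb.r r21 (@Lb.d (nat_lit 17) (nat_lit 256) (nat_lit 64) (@Lb.g g8 (@Lb.g g10 (@Lb.g g7 (@Lb.r r402 (@Lb.r r2389 (@Lb.r r2344 (@Lb.d (nat_lit 537) (nat_lit 128) (nat_lit 357) (@Lb.t (@Lb.fp (nat_lit 9) t1241)))))))))))
noncomputable def l31998 : Lb := (@Lb.d (nat_lit 134) (nat_lit 258) (nat_lit 130) (@Lb.g g8 (@Lb.g g9 (@Lb.g g10 (@Lb.g g11 (@Lb.r r610 (@Lb.r r552 (@Lb.r r1641 (@Lb.r r619 (@Lb.r r1060 (@Lb.d (nat_lit 353) (nat_lit 26) (nat_lit 409) (@Lb.fm (nat_lit 9) t70))))))))))))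
noncomputable def l31999 : Lb := (@Lb.r r323 (@Lb.d (nat_lit 38) (nat_lit 10) (nat_lit 1) (@Lb.g g8 (@Lb.g g9 (@Lb.g g10 (@Lb.r r2666 (@Lb.r r2635 (@Lb.r r2580 (@Lb.r r25 (@Lb.d (nat_lit 384) (nat_lit 130) (nat_lit 320) (@Lb.t (@Lb.fp (nat_lit 9) t2584))))))))))))
noncomputable def l32000 : Lb := (@Lb.r r21 (@Lb.d (nat_lit 128) (nat_lit 512) (nat_lit 130) (@Lb.g g8 (@Lb.g g10 (@Lb.g g11 (@Lb.r r1626 (@Lb.r r1624 (@Lb.r r2635 (@Lb.r r145 (@Lb.d (nat_lit 358) (nat_lit 166) (nat_lit 420) (@Lb.t (@Lb.fm (nat_lit 9) t5761))))))))))))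
noncomputable def l32001 : Lb := (@Lb.d (nat_lit 641) (nat_lit 2) (nat_lit 581) (@Lb.r r1543 (@Lb.r r2372 (@Lb.r r1626 (@Lb.g g9 (@Lb.g g4 (@Lb.d (nat_lit 6) (nat_lit 6) (nat_lit 0) (@Lb.r r291 (@Lb.r r98 (@Lb.fm (nat_lit 3) t5762))))))))))
noncomputable def l32002 : Lb := (@Lb.d (nat_lit 134) (nat_lit 514) (nat_lit 130) (@Lb.g g8 (@Lb.g g9 (@Lb.g g10 (@Lb.g g11 (@Lb.r r610 (@Lb.r r552 (@Lb.r r1641 (@Lb.r r619 (@Lb.r r1060 (@Lb.d (nat_lit 353) (nat_lit 21) (nat_lit 408) (@Lb.fm (nat_lit 9) t69))))))))))))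
noncomputable def l32003 : Lb := (@Lb.d (nat_lit 545) (nat_lit 149) (nat_lit 89) (@Lb.r r1416 (@Lb.r r2402 (@Lb.r r2401 (@Lb.r r2327 (@Lb.g g7 (@Lb.g g6 (@Lb.g g5 (@Lb.d (nat_lit 0) (nat_lit 9) (nat_lit 65) (@Lb.t (@Lb.fp (nat_lit 9) t5763)))))))))))
noncomputable def l32004 : Lb := (@Lb.d (nat_lit 128) (nat_lit 266) (nat_lit 324) (@Lb.g g8 (@Lb.g g9 (@Lb.g g7 (@Lb.r r264 (@Lb.d (nat_lit 130) (nat_lit 0) (nat_lit 517) (@Lb.t (@Lb.fm (nat_lit 9) t5764))))))))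
noncomputable def l32005 : Lb := (@Lb.d (nat_lit 129) (nat_lit 514) (nat_lit 64) (@Lb.g g8 (@Lb.g g9 (@Lb.g g11 (@Lb.r r2730 (@Lb.r r2713 (@Lb.r r1427 (@Lb.r r1572 (@Lb.d (nat_lit 384) (nat_lit 69) (nat_lit 362) (@Lb.t (@Lb.fp (nat_lit 9) t531)))))))))))
noncomputable def l32006 : Lb := (@Lb.d (nat_lit 665) (nat_lit 329) (nat_lit 133) (@Lb.r r358 (@Lb.r r148 (@Lb.r r2393 (@Lb.g g7 (@Lb.g g6 (@Lb.d (nat_lit 16) (nat_lit 32) (nat_lit 321) (@Lb.fm (nat_lit 3) t152))))))))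
noncomputable def l32007 : Lb := (@Lb.d (nat_lit 2) (nat_lit 514) (nat_lit 66) (@Lb.g g8 (@Lb.g g9 (@Lb.g g10 (@Lb.g g7 (@Lb.r r1366 (@Lb.r r1109 (@Lb.r r24 (@Lb.d (nat_lit 353) (nat_lit 137) (nat_lit 537) (@Lb.fp (nat_lit 9) t5765))))))))))
noncomputable def l32008 : Lb := (@Lb.d (nat_lit 0) (nat_lit 512) (nat_lit 66) (@Lb.g g10 (@Lb.g g7 (@Lb.r r386 (@Lb.d (nat_lit 2) (nat_lit 5) (nat_lit 10) (@Lb.fm (nat_lit 3) t45))))))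
noncomputable def l32009 : Lb := (@Lb.r r21 (@Lb.d (nat_lit 128) (nat_lit 256) (nat_lit 4) (@Lb.g g8 (@Lb.g g10 (@Lb.g g11 (@Lb.r r1691 (@Lb.r r1689 (@Lb.r r1370 (@Lb.r r1348 (@Lb.d (nat_lit 386) (nat_lit 26) (nat_lit 586) (@Lb.t (@Lb.fp (nat_lit 9) t74))))))))))))
noncomputable def l32010 : Lb := (@Lb.d (nat_lit 130) (nat_lit 553) (nat_lit 137) (@Lb.r r657 (@Lb.r r666 (@Lb.r r408 (@Lb.g g7 (@Lb.g g5 (@Lb.d (nat_lit 4) (nat_lit 4) (nat_lit 128) (@Lb.r r98 (@Lb.fm (nat_lit 3) t98)))))))))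
noncomputable def l32011 : Lb := (@Lb.r r82 (@Lb.d (nat_lit 2) (nat_lit 528) (nat_lit 132) (@Lb.g g8 (@Lb.g g9 (@Lb.g g7 (@Lb.r r1366 (@Lb.r r1109 (@Lb.r r24 (@Lb.d (nat_lit 354) (nat_lit 137) (nat_lit 594) (@Lb.t (@Lb.fm (nat_lit 9) t1073)))))))))))
noncomputable def l32012 : Lb := (@Lb.d (nat_lit 130) (nat_lit 297) (nat_lit 2) (@Lb.r r657 (@Lb.r r666 (@Lb.r r408 (@Lb.g g7 (@Lb.g g5 (@Lb.d (nat_lit 4) (nat_lit 4) (nat_lit 128) (@Lb.r r98 (@Lb.fm (nat_lit 3) t98)))))))))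
noncomputable def l32013 : Lb := (@Lb.r r21 (@Lb.d (nat_lit 2) (nat_lit 0) (nat_lit 2) (@Lb.g g8 (@Lb.g g10 (@Lb.r r651 (@Lb.r r2634 (@Lb.r r2580 (@Lb.r r25 (@Lb.d (nat_lit 328) (nat_lit 88) (nat_lit 161) (@Lb.fp (nat_lit 3) t820))))))))))
noncomputable def l32014 : Lb := (@Lb.d (nat_lit 10) (nat_lit 0) (nat_lit 73) (@Lb.g g8 (@Lb.g g10 (@Lb.g g11 (@Lb.r r2691 (@Lb.r r1681 (@Lb.r r1178 (@Lb.r r2436 (@Lb.d (nat_lit 548) (nat_lit 161) (nat_lit 90) (@Lb.t (@Lb.fm (nat_lit 9) t521)))))))))))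
noncomputable def l32015 : Lb := (@Lb.r r323 (@Lb.d (nat_lit 130) (nat_lit 290) (nat_lit 18) (@Lb.g g8 (@Lb.g g9 (@Lb.g g10 (@Lb.r r583 (@Lb.r r404 (@Lb.r r105 (@Lb.d (nat_lit 549) (nat_lit 170) (nat_lit 128) (@Lb.t (@Lb.fm (nat_lit 9) t386)))))))))))
noncomputable def l32016 : Lb := (@Lb.d (nat_lit 294) (nat_lit 586) (nat_lit 0) (@Lb.r r2152 (@Lb.r r579 (@Lb.r r402 (@Lb.g g7 (@Lb.g g5 (@Lb.g g4 (@Lb.d (nat_lit 2) (nat_lit 129) (nat_lit 132) (@Lb.t (@Lb.fm (nat_lit 9) t4875))))))))))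
noncomputable def l32017 : Lb := (@Lb.d (nat_lit 0) (nat_lit 578) (nat_lit 128) (@Lb.g g8 (@Lb.g g9 (@Lb.g g10 (@Lb.g g11 (@Lb.r r680 (@Lb.r r650 (@Lb.r r2715 (@Lb.r r2692 (@Lb.d (nat_lit 328) (nat_lit 96) (nat_lit 512) (@Lb.fm (nat_lit 9) t820)))))))))))
noncomputable def l32018 : Lb := (@Lb.d (nat_lit 150) (nat_lit 273) (nat_lit 538) (@Lb.r r2587 (@Lb.r r293 (@Lb.r r600 (@Lb.g g7 (@Lb.g g6 (@Lb.g g4 (@Lb.d (nat_lit 2) (nat_lit 16) (nat_lit 98) (@Lb.t (@Lb.fm (nat_lit 9) t3380))))))))))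
noncomputable def l32019 : Lb := (@Lb.d (nat_lit 356) (nat_lit 393) (nat_lit 5) (@Lb.r r24 (@Lb.r r597 (@Lb.r r1450 (@Lb.g g11 (@Lb.g g6 (@Lb.g g5 (@Lb.d (nat_lit 0) (nat_lit 18) (nat_lit 393) (@Lb.t (@Lb.fm (nat_lit 9) t200))))))))))
noncomputable def l32020 : Lb := (@Lb.d (nat_lit 149) (nat_lit 522) (nat_lit 130) (@Lb.g g8 (@Lb.g g9 (@Lb.g g10 (@Lb.g g11 (@Lb.r r1666 (@Lb.r r1431 (@Lb.r r2657 (@Lb.r r1048 (@Lb.d (nat_lit 552) (nat_lit 153) (nat_lit 41) (@Lb.fm (nat_lit 9) t5766)))))))))))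
noncomputable def l32021 : Lb := (@Lb.r r323 (@Lb.d (nat_lit 32) (nat_lit 514) (nat_lit 26) (@Lb.g g9 (@Lb.g g10 (@Lb.r r603 (@Lb.r r1313 (@Lb.r r1128 (@Lb.d (nat_lit 578) (nat_lit 133) (nat_lit 0) (@Lb.fp (nat_lit 3) t1179)))))))))
noncomputable def l32022 : Lb := (@Lb.d (nat_lit 38) (nat_lit 546) (nat_lit 65) (@Lb.g g8 (@Lb.g g9 (@Lb.g g10 (@Lb.g g11 (@Lb.r r1706 (@Lb.r r676 (@Lb.r r1575 (@Lb.r r2577 (@Lb.d (nat_lit 586) (nat_lit 97) (nat_lit 656) (@Lb.fp (nat_lit 9) t5767)))))))))))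
noncomputable def l32023 : Lb := (@Lb.d (nat_lit 150) (nat_lit 296) (nat_lit 404) (@Lb.r r405 (@Lb.r r1110 (@Lb.r r323 (@Lb.g g7 (@Lb.g g6 (@Lb.g g5 (@Lb.g g4 (@Lb.d (nat_lit 1) (nat_lit 17) (nat_lit 65) (@Lb.fp (nat_lit 9) t2700))))))))))
noncomputable def l32024 : Lb := (@Lb.d (nat_lit 128) (nat_lit 256) (nat_lit 81) (@Lb.g g9 (@Lb.g g10 (@Lb.g g11 (@Lb.r r2709 (@Lb.r r292 (@Lb.r r539 (@Lb.d (nat_lit 586) (nat_lit 34) (nat_lit 6) (@Lb.t (@Lb.fp (nat_lit 9) t403))))))))))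
noncomputable def l32025 : Lb := (@Lb.d (nat_lit 0) (nat_lit 512) (nat_lit 73) (@Lb.g g9 (@Lb.g g10 (@Lb.g g11 (@Lb.r r2658 (@Lb.r r2661 (@Lb.r r1319 (@Lb.d (nat_lit 69) (nat_lit 161) (nat_lit 640) (@Lb.t (@Lb.fp (nat_lit 9) t1866))))))))))
noncomputable def l32026 : Lb := (@Lb.d (nat_lit 5) (nat_lit 0) (nat_lit 2) (@Lb.g g4 (@Lb.g g10 (@Lb.r r2193 (@Lb.r r146 (@Lb.d (nat_lit 1) (nat_lit 72) (nat_lit 2) (@Lb.fm (nat_lit 3) t1404)))))))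
noncomputable def l32027 : Lb := (@Lb.d (nat_lit 161) (nat_lit 258) (nat_lit 1) (@Lb.g g8 (@Lb.g g9 (@Lb.g g10 (@Lb.r r2695 (@Lb.r r402 (@Lb.r r2469 (@Lb.r r664 (@Lb.d (nat_lit 169) (nat_lit 37) (nat_lit 294) (@Lb.t (@Lb.fm (nat_lit 9) t400)))))))))))
noncomputable def l32028 : Lb := (@Lb.d (nat_lit 0) (nat_lit 0) (nat_lit 73) (@Lb.g g9 (@Lb.g g10 (@Lb.g g11 (@Lb.r r2658 (@Lb.r r2661 (@Lb.r r1319 (@Lb.d (nat_lit 64) (nat_lit 160) (nat_lit 640) (@Lb.t (@Lb.fp (nat_lit 9) t1866))))))))))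
noncomputable def l32029 : Lb := (@Lb.d (nat_lit 128) (nat_lit 0) (nat_lit 81) (@Lb.g g9 (@Lb.g g10 (@Lb.g g11 (@Lb.r r264 (@Lb.r r519 (@Lb.r r1169 (@Lb.d (nat_lit 129) (nat_lit 130) (nat_lit 6) (@Lb.t (@Lb.fm (nat_lit 9) t655))))))))))
noncomputable def l32030 : Lb := (@Lb.d (nat_lit 2) (nat_lit 256) (nat_lit 129) (@Lb.g g8 (@Lb.g g10 (@Lb.g g11 (@Lb.r r2186 (@Lb.r r2328 (@Lb.r r1447 (@Lb.r r1425 (@Lb.d (nat_lit 10) (nat_lit 130) (nat_lit 402) (@Lb.t (@Lb.fm (nat_lit 9) t5031)))))))))))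
noncomputable def l32031 : Lb := (@Lb.r r70 (@Lb.d (nat_lit 514) (nat_lit 42) (nat_lit 0) (@Lb.g g8 (@Lb.g g9 (@Lb.r r1686 (@Lb.r r403 (@Lb.r r529 (@Lb.d (nat_lit 32) (nat_lit 41) (nat_lit 129) (@Lb.fp (nat_lit 3) t1700)))))))))
noncomputable def l32032 : Lb := (@Lb.d (nat_lit 82) (nat_lit 578) (nat_lit 592) (@Lb.r r1284 (@Lb.r r1297 (@Lb.r r1315 (@Lb.r r405 (@Lb.g g7 (@Lb.g g10 (@Lb.g g5 (@Lb.g g4 (@Lb.d (nat_lit 1) (nat_lit 1) (nat_lit 22) (@Lb.fm (nat_lit 9) t982)))))))))))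
noncomputable def l32033 : Lb := (@Lb.r r81 (@Lb.d (nat_lit 24) (nat_lit 544) (nat_lit 18) (@Lb.g g8 (@Lb.g g6 (@Lb.g g11 (@Lb.r r1173 (@Lb.r r2408 (@Lb.r r263 (@Lb.d (nat_lit 64) (nat_lit 106) (nat_lit 644) (@Lb.t (@Lb.fm (nat_lit 9) t393)))))))))))
noncomputable def l32034 : Lb := (@Lb.d (nat_lit 8) (nat_lit 290) (nat_lit 0) (@Lb.g g5 (@Lb.r r1579 (@Lb.r r1576 (@Lb.r r553 (@Lb.r r2114 (@Lb.d (nat_lit 137) (nat_lit 33) (nat_lit 330) (@Lb.t (@Lb.fp (nat_lit 3) t4413)))))))))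
noncomputable def l32035 : Lb := (@Lb.r r21 (@Lb.r r70 (@Lb.r r263 (@Lb.d (nat_lit 410) (nat_lit 0) (nat_lit 0) (@Lb.g g4 (@Lb.r r267 (@Lb.r r402 (@Lb.r r97 (@Lb.d (nat_lit 1) (nat_lit 133) (nat_lit 545) (@Lb.t (@Lb.fm (nat_lit 3) t128)))))))))))
noncomputable def l32036 : Lb := (@Lb.d (nat_lit 2) (nat_lit 256) (nat_lit 0) (@Lb.g g8 (@Lb.r r358 (@Lb.r r1381 (@Lb.r r2451 (@Lb.r r2564 (@Lb.d (nat_lit 128) (nat_lit 128) (nat_lit 576) (@Lb.t (@Lb.fm (nat_lit 3) t992)))))))))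
noncomputable def l32037 : Lb := (@Lb.d (nat_lit 134) (nat_lit 517) (nat_lit 74) (@Lb.g g8 (@Lb.g g9 (@Lb.g g10 (@Lb.g g11 (@Lb.r r683 (@Lb.r r2724 (@Lb.r r1158 (@Lb.r r97 (@Lb.d (nat_lit 33) (nat_lit 105) (nat_lit 673) (@Lb.fm (nat_lit 9) t1144)))))))))))
noncomputable def l32038 : Lb := (@Lb.d (nat_lit 0) (nat_lit 10) (nat_lit 64) (@Lb.g g9 (@Lb.g g11 (@Lb.r r2450 (@Lb.r r2659 (@Lb.r r1633 (@Lb.r r36 (@Lb.d (nat_lit 0) (nat_lit 82) (nat_lit 512) (@Lb.fp (nat_lit 3) t578)))))))))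
noncomputable def l32039 : Lb := (@Lb.d (nat_lit 33) (nat_lit 265) (nat_lit 0) (@Lb.g g8 (@Lb.g g9 (@Lb.g g11 (@Lb.r r1671 (@Lb.r r582 (@Lb.r r2452 (@Lb.r r25 (@Lb.d (nat_lit 521) (nat_lit 153) (nat_lit 648) (@Lb.t (@Lb.fp (nat_lit 9) t386)))))))))))
noncomputable def l32040 : Lb := (@Lb.d (nat_lit 425) (nat_lit 361) (nat_lit 614) (@Lb.r r2641 (@Lb.r r662 (@Lb.r r2711 (@Lb.r r328 (@Lb.g g7 (@Lb.g g6 (@Lb.g g5 (@Lb.d (nat_lit 20) (nat_lit 2) (nat_lit 128) (@Lb.t (@Lb.fm (nat_lit 9) t5768)))))))))))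
noncomputable def l32041 : Lb := (@Lb.r r323 (@Lb.d (nat_lit 8) (nat_lit 34) (nat_lit 21) (@Lb.g g9 (@Lb.g g10 (@Lb.r r603 (@Lb.r r2580 (@Lb.r r1433 (@Lb.d (nat_lit 162) (nat_lit 88) (nat_lit 658) (@Lb.fp (nat_lit 3) t5769)))))))))
noncomputable def l32042 : Lb := (@Lb.d (nat_lit 34) (nat_lit 1) (nat_lit 0) (@Lb.g g8 (@Lb.g g9 (@Lb.r r2370 (@Lb.r r1671 (@Lb.r r2408 (@Lb.r r1049 (@Lb.d (nat_lit 266) (nat_lit 104) (nat_lit 406) (@Lb.fm (nat_lit 3) t3737)))))))))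
noncomputable def l32043 : Lb := (@Lb.d (nat_lit 144) (nat_lit 9) (nat_lit 129) (@Lb.g g8 (@Lb.g g9 (@Lb.g g10 (@Lb.g g11 (@Lb.r r2691 (@Lb.r r536 (@Lb.r r2197 (@Lb.r r2646 (@Lb.r r2212 (@Lb.d (nat_lit 136) (nat_lit 66) (nat_lit 618) (@Lb.fp (nat_lit 9) t5770))))))))))))
noncomputable def l32044 : Lb := (@Lb.d (nat_lit 154) (nat_lit 512) (nat_lit 132) (@Lb.g g8 (@Lb.g g10 (@Lb.g g11 (@Lb.r r1575 (@Lb.r r597 (@Lb.r r2146 (@Lb.r r388 (@Lb.d (nat_lit 100) (nat_lit 10) (nat_lit 152) (@Lb.t (@Lb.fp (nat_lit 9) t5771)))))))))))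
noncomputable def l32045 : Lb := (@Lb.d (nat_lit 553) (nat_lit 532) (nat_lit 293) (@Lb.r r362 (@Lb.r r1431 (@Lb.r r1641 (@Lb.r r360 (@Lb.g g7 (@Lb.g g6 (@Lb.d (nat_lit 16) (nat_lit 4) (nat_lit 128) (@Lb.fm (nat_lit 3) t3660)))))))))
noncomputable def l32046 : Lb := (@Lb.r r21 (@Lb.r r70 (@Lb.d (nat_lit 34) (nat_lit 256) (nat_lit 0) (@Lb.g g8 (@Lb.r r2454 (@Lb.r r97 (@Lb.d (nat_lit 4) (nat_lit 146) (nat_lit 0) (@Lb.t (@Lb.fp (nat_lit 3) t1156)))))))))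
noncomputable def l32047 : Lb := (@Lb.d (nat_lit 128) (nat_lit 256) (nat_lit 324) (@Lb.g g10 (@Lb.g g7 (@Lb.r r2438 (@Lb.d (nat_lit 96) (nat_lit 5) (nat_lit 538) (@Lb.fm (nat_lit 3) t2270))))))
noncomputable def l32048 : Lb := (@Lb.d (nat_lit 34) (nat_lit 10) (nat_lit 0) (@Lb.g g8 (@Lb.g g9 (@Lb.r r2379 (@Lb.r r582 (@Lb.r r1688 (@Lb.r r1557 (@Lb.d (nat_lit 5) (nat_lit 9) (nat_lit 89) (@Lb.fp (nat_lit 3) t2838)))))))))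
noncomputable def l32049 : Lb := (@Lb.d (nat_lit 2) (nat_lit 0) (nat_lit 64) (@Lb.g g8 (@Lb.g g9 (@Lb.g g10 (@Lb.g g11 (@Lb.r r164 (@Lb.r r2709 (@Lb.r r407 (@Lb.r r1430 (@Lb.r r548 (@Lb.d (nat_lit 610) (nat_lit 5) (nat_lit 514) (@Lb.fm (nat_lit 9) t3263))))))))))))
noncomputable def l32050 : Lb := (@Lb.d (nat_lit 401) (nat_lit 258) (nat_lit 548) (@Lb.r r21 (@Lb.r r1640 (@Lb.r r2635 (@Lb.g g7 (@Lb.g g10 (@Lb.g g4 (@Lb.d (nat_lit 1) (nat_lit 0) (nat_lit 81) (@Lb.r r25 (@Lb.t (@Lb.fm (nat_lit 9) t820)))))))))))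
noncomputable def l32051 : Lb := (@Lb.r r21 (@Lb.d (nat_lit 17) (nat_lit 0) (nat_lit 74) (@Lb.g g8 (@Lb.g g10 (@Lb.g g11 (@Lb.r r2707 (@Lb.r r2442 (@Lb.r r97 (@Lb.r r1432 (@Lb.d (nat_lit 612) (nat_lit 129) (nat_lit 394) (@Lb.t (@Lb.fm (nat_lit 9) t3577))))))))))))
noncomputable def l32052 : Lb := (@Lb.d (nat_lit 536) (nat_lit 256) (nat_lit 17) (@Lb.r r579 (@Lb.r r402 (@Lb.g g7 (@Lb.g g5 (@Lb.g g8 (@Lb.d (nat_lit 2) (nat_lit 129) (nat_lit 68) (@Lb.t (@Lb.fm (nat_lit 9) t3104)))))))))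
noncomputable def l32053 : Lb := (@Lb.d (nat_lit 145) (nat_lit 265) (nat_lit 73) (@Lb.g g8 (@Lb.g g9 (@Lb.g g10 (@Lb.g g11 (@Lb.r r2347 (@Lb.r r1366 (@Lb.r r1433 (@Lb.r r2072 (@Lb.d (nat_lit 426) (nat_lit 166) (nat_lit 600) (@Lb.fm (nat_lit 9) t3096)))))))))))
noncomputable def l32054 : Lb := (@Lb.d (nat_lit 128) (nat_lit 32) (nat_lit 72) (@Lb.g g11 (@Lb.r r2410 (@Lb.r r361 (@Lb.r r1384 (@Lb.r r2583 (@Lb.d (nat_lit 644) (nat_lit 164) (nat_lit 261) (@Lb.t (@Lb.fm (nat_lit 3) t386)))))))))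
noncomputable def l32055 : Lb := (@Lb.d (nat_lit 577) (nat_lit 536) (nat_lit 294) (@Lb.r r600 (@Lb.r r2379 (@Lb.r r658 (@Lb.g g7 (@Lb.g g6 (@Lb.g g9 (@Lb.g g4 (@Lb.d (nat_lit 146) (nat_lit 146) (nat_lit 129) (@Lb.fm (nat_lit 9) t4093))))))))))
noncomputable def l32056 : Lb := (@Lb.d (nat_lit 4) (nat_lit 266) (nat_lit 73) (@Lb.g g8 (@Lb.g g9 (@Lb.g g10 (@Lb.g g11 (@Lb.r r162 (@Lb.r r1425 (@Lb.r r612 (@Lb.r r295 (@Lb.r r516 (@Lb.d (nat_lit 42) (nat_lit 128) (nat_lit 34) (@Lb.fm (nat_lit 9) t125))))))))))))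
noncomputable def l32057 : Lb := (@Lb.d (nat_lit 144) (nat_lit 8) (nat_lit 64) (@Lb.g g8 (@Lb.g g10 (@Lb.g g11 (@Lb.r r2201 (@Lb.r r2644 (@Lb.r r2695 (@Lb.r r1686 (@Lb.d (nat_lit 33) (nat_lit 36) (nat_lit 517) (@Lb.t (@Lb.fm (nat_lit 9) t69)))))))))))
noncomputable def l32058 : Lb := (@Lb.d (nat_lit 6) (nat_lit 522) (nat_lit 73) (@Lb.g g8 (@Lb.g g9 (@Lb.g g10 (@Lb.g g11 (@Lb.r r1666 (@Lb.r r2451 (@Lb.r r1553 (@Lb.d (nat_lit 2) (nat_lit 170) (nat_lit 400) (@Lb.fm (nat_lit 9) t1397))))))))))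
noncomputable def l32059 : Lb := (@Lb.r r323 (@Lb.d (nat_lit 2) (nat_lit 256) (nat_lit 1) (@Lb.g g8 (@Lb.g g9 (@Lb.g g6 (@Lb.r r1643 (@Lb.r r2145 (@Lb.r r24 (@Lb.d (nat_lit 264) (nat_lit 73) (nat_lit 160) (@Lb.t (@Lb.fm (nat_lit 9) t335)))))))))))
noncomputable def l32060 : Lb := (@Lb.d (nat_lit 33) (nat_lit 258) (nat_lit 72) (@Lb.g g8 (@Lb.g g9 (@Lb.g g10 (@Lb.g g11 (@Lb.r r323 (@Lb.r r2390 (@Lb.r r1369 (@Lb.r r1364 (@Lb.d (nat_lit 132) (nat_lit 81) (nat_lit 596) (@Lb.fp (nat_lit 9) t5772)))))))))))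
noncomputable def l32061 : Lb := (@Lb.r r21 (@Lb.d (nat_lit 154) (nat_lit 288) (nat_lit 64) (@Lb.g g8 (@Lb.g g10 (@Lb.g g11 (@Lb.r r1178 (@Lb.r r1125 (@Lb.r r1432 (@Lb.r r1415 (@Lb.d (nat_lit 354) (nat_lit 33) (nat_lit 384) (@Lb.t (@Lb.fp (nat_lit 9) t5773))))))))))))
noncomputable def l32062 : Lb := (@Lb.d (nat_lit 0) (nat_lit 2) (nat_lit 130) (@Lb.g g9 (@Lb.g g10 (@Lb.g g11 (@Lb.r r1443 (@Lb.r r536 (@Lb.r r357 (@Lb.r r154 (@Lb.r r132 (@Lb.d (nat_lit 581) (nat_lit 8) (nat_lit 169) (@Lb.t (@Lb.fp (nat_lit 9) t626))))))))))))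
noncomputable def l32063 : Lb := (@Lb.d (nat_lit 106) (nat_lit 37) (nat_lit 360) (@Lb.r r601 (@Lb.r r1624 (@Lb.r r1371 (@Lb.g g7 (@Lb.g g6 (@Lb.g g5 (@Lb.d (nat_lit 4) (nat_lit 6) (nat_lit 65) (@Lb.t (@Lb.fm (nat_lit 9) t5774))))))))))
noncomputable def l32064 : Lb := (@Lb.d (nat_lit 0) (nat_lit 2) (nat_lit 66) (@Lb.g g9 (@Lb.g g10 (@Lb.g g11 (@Lb.r r1443 (@Lb.r r536 (@Lb.r r357 (@Lb.r r154 (@Lb.r r132 (@Lb.d (nat_lit 581) (nat_lit 8) (nat_lit 34) (@Lb.t (@Lb.fp (nat_lit 9) t626))))))))))))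
noncomputable def l32065 : Lb := (@Lb.d (nat_lit 38) (nat_lit 594) (nat_lit 405) (@Lb.r r1611 (@Lb.r r1362 (@Lb.g g7 (@Lb.g g6 (@Lb.g g5 (@Lb.g g8 (@Lb.d (nat_lit 9) (nat_lit 128) (nat_lit 134) (@Lb.fp (nat_lit 9) t5775)))))))))
noncomputable def l32066 : Lb := (@Lb.d (nat_lit 0) (nat_lit 257) (nat_lit 130) (@Lb.g g9 (@Lb.g g10 (@Lb.g g11 (@Lb.r r1451 (@Lb.r r132 (@Lb.r r598 (@Lb.r r421 (@Lb.r r20 (@Lb.d (nat_lit 678) (nat_lit 8) (nat_lit 169) (@Lb.t (@Lb.fp (nat_lit 9) t626))))))))))))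
noncomputable def l32067 : Lb := (@Lb.d (nat_lit 152) (nat_lit 256) (nat_lit 132) (@Lb.g g8 (@Lb.g g10 (@Lb.g g11 (@Lb.r r1575 (@Lb.r r597 (@Lb.r r2146 (@Lb.r r388 (@Lb.d (nat_lit 100) (nat_lit 10) (nat_lit 152) (@Lb.t (@Lb.fp (nat_lit 9) t5771)))))))))))
noncomputable def l32068 : Lb := (@Lb.d (nat_lit 38) (nat_lit 338) (nat_lit 405) (@Lb.r r1611 (@Lb.r r1362 (@Lb.g g7 (@Lb.g g6 (@Lb.g g5 (@Lb.g g8 (@Lb.d (nat_lit 2) (nat_lit 129) (nat_lit 134) (@Lb.fp (nat_lit 9) t5306)))))))))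
noncomputable def l32069 : Lb := (@Lb.d (nat_lit 138) (nat_lit 0) (nat_lit 128) (@Lb.g g8 (@Lb.g g11 (@Lb.r r529 (@Lb.r r1307 (@Lb.r r260 (@Lb.d (nat_lit 329) (nat_lit 66) (nat_lit 128) (@Lb.fm (nat_lit 3) t5776))))))))
noncomputable def l32070 : Lb := (@Lb.d (nat_lit 401) (nat_lit 677) (nat_lit 678) (@Lb.r r1044 (@Lb.r r601 (@Lb.r r532 (@Lb.r r2466 (@Lb.g g11 (@Lb.g g6 (@Lb.g g5 (@Lb.g g4 (@Lb.d (nat_lit 1) (nat_lit 1) (nat_lit 129) (@Lb.fp (nat_lit 9) t827)))))))))))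
noncomputable def l32071 : Lb := (@Lb.d (nat_lit 610) (nat_lit 518) (nat_lit 550) (@Lb.r r24 (@Lb.r r153 (@Lb.r r1642 (@Lb.g g11 (@Lb.g g6 (@Lb.g g5 (@Lb.g g4 (@Lb.d (nat_lit 6) (nat_lit 8) (nat_lit 128) (@Lb.fp (nat_lit 9) t1950))))))))))
noncomputable def l32072 : Lb := (@Lb.d (nat_lit 0) (nat_lit 2) (nat_lit 130) (@Lb.g g9 (@Lb.g g10 (@Lb.g g11 (@Lb.r r427 (@Lb.r r132 (@Lb.r r1622 (@Lb.r r2469 (@Lb.r r20 (@Lb.d (nat_lit 424) (nat_lit 2) (nat_lit 512) (@Lb.t (@Lb.fp (nat_lit 9) t222))))))))))))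
noncomputable def l32073 : Lb := (@Lb.d (nat_lit 153) (nat_lit 1) (nat_lit 64) (@Lb.g g8 (@Lb.g g9 (@Lb.g g10 (@Lb.g g11 (@Lb.r r292 (@Lb.r r651 (@Lb.r r2210 (@Lb.r r145 (@Lb.r r516 (@Lb.d (nat_lit 522) (nat_lit 6) (nat_lit 664) (@Lb.fp (nat_lit 9) t152))))))))))))
noncomputable def l32074 : Lb := (@Lb.d (nat_lit 1) (nat_lit 265) (nat_lit 73) (@Lb.g g8 (@Lb.g g9 (@Lb.g g10 (@Lb.g g11 (@Lb.r r162 (@Lb.r r1425 (@Lb.r r612 (@Lb.r r295 (@Lb.r r516 (@Lb.d (nat_lit 42) (nat_lit 128) (nat_lit 169) (@Lb.fm (nat_lit 9) t125))))))))))))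
noncomputable def l32075 : Lb := (@Lb.d (nat_lit 385) (nat_lit 256) (nat_lit 288) (@Lb.r r154 (@Lb.r r660 (@Lb.r r663 (@Lb.r r353 (@Lb.g g7 (@Lb.g g6 (@Lb.g g4 (@Lb.d (nat_lit 0) (nat_lit 0) (nat_lit 64) (@Lb.t (@Lb.fm (nat_lit 9) t1666)))))))))))
noncomputable def l32076 : Lb := (@Lb.d (nat_lit 153) (nat_lit 513) (nat_lit 64) (@Lb.g g8 (@Lb.g g9 (@Lb.g g10 (@Lb.g g11 (@Lb.r r292 (@Lb.r r651 (@Lb.r r2210 (@Lb.r r145 (@Lb.r r516 (@Lb.d (nat_lit 520) (nat_lit 6) (nat_lit 664) (@Lb.fp (nat_lit 9) t152))))))))))))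
noncomputable def l32077 : Lb := (@Lb.d (nat_lit 0) (nat_lit 1) (nat_lit 130) (@Lb.g g9 (@Lb.g g10 (@Lb.g g11 (@Lb.r r1451 (@Lb.r r132 (@Lb.r r598 (@Lb.r r421 (@Lb.r r20 (@Lb.d (nat_lit 678) (nat_lit 1) (nat_lit 170) (@Lb.t (@Lb.fp (nat_lit 9) t222))))))))))))
noncomputable def l32078 : Lb := (@Lb.d (nat_lit 154) (nat_lit 0) (nat_lit 130) (@Lb.g g8 (@Lb.g g10 (@Lb.g g11 (@Lb.r r2138 (@Lb.r r1685 (@Lb.r r2455 (@Lb.r r2632 (@Lb.d (nat_lit 97) (nat_lit 64) (nat_lit 258) (@Lb.t (@Lb.fp (nat_lit 9) t3140)))))))))))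
noncomputable def l32079 : Lb := (@Lb.d (nat_lit 145) (nat_lit 512) (nat_lit 132) (@Lb.g g8 (@Lb.g g10 (@Lb.g g11 (@Lb.r r1559 (@Lb.r r425 (@Lb.r r2146 (@Lb.r r2440 (@Lb.d (nat_lit 145) (nat_lit 9) (nat_lit 680) (@Lb.t (@Lb.fp (nat_lit 9) t1952)))))))))))
noncomputable def l32080 : Lb := (@Lb.d (nat_lit 32) (nat_lit 265) (nat_lit 72) (@Lb.g g8 (@Lb.g g9 (@Lb.g g10 (@Lb.g g11 (@Lb.r r1698 (@Lb.r r1415 (@Lb.r r2389 (@Lb.r r2660 (@Lb.d (nat_lit 132) (nat_lit 88) (nat_lit 409) (@Lb.fm (nat_lit 9) t3705)))))))))))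
noncomputable def l32081 : Lb := (@Lb.d (nat_lit 128) (nat_lit 521) (nat_lit 73) (@Lb.g g9 (@Lb.g g10 (@Lb.g g11 (@Lb.r r162 (@Lb.r r1433 (@Lb.r r280 (@Lb.r r615 (@Lb.d (nat_lit 138) (nat_lit 152) (nat_lit 100) (@Lb.t (@Lb.fp (nat_lit 9) t125)))))))))))
noncomputable def l32082 : Lb := (@Lb.d (nat_lit 9) (nat_lit 0) (nat_lit 130) (@Lb.g g8 (@Lb.g g10 (@Lb.g g11 (@Lb.r r2138 (@Lb.r r1685 (@Lb.r r2455 (@Lb.r r1608 (@Lb.d (nat_lit 102) (nat_lit 1) (nat_lit 546) (@Lb.t (@Lb.fp (nat_lit 9) t282)))))))))))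
noncomputable def l32083 : Lb := (@Lb.d (nat_lit 512) (nat_lit 409) (nat_lit 600) (@Lb.r r24 (@Lb.r r134 (@Lb.r r2727 (@Lb.r r2597 (@Lb.g g7 (@Lb.d (nat_lit 0) (nat_lit 0) (nat_lit 64) (@Lb.t (@Lb.fm (nat_lit 3) t2113)))))))))
noncomputable def l32084 : Lb := (@Lb.d (nat_lit 410) (nat_lit 264) (nat_lit 130) (@Lb.g g8 (@Lb.g g9 (@Lb.g g10 (@Lb.g g11 (@Lb.r r427 (@Lb.r r153 (@Lb.r r2642 (@Lb.d (nat_lit 657) (nat_lit 149) (nat_lit 21) (@Lb.fp (nat_lit 9) t5777))))))))))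
noncomputable def l32085 : Lb := (@Lb.d (nat_lit 0) (nat_lit 264) (nat_lit 73) (@Lb.g g8 (@Lb.g g9 (@Lb.g g10 (@Lb.g g11 (@Lb.r r1671 (@Lb.r r610 (@Lb.r r36 (@Lb.r r2581 (@Lb.d (nat_lit 154) (nat_lit 152) (nat_lit 577) (@Lb.fm (nat_lit 9) t5778)))))))))))
noncomputable def l32086 : Lb := (@Lb.r r275 (@Lb.d (nat_lit 1) (nat_lit 514) (nat_lit 2) (@Lb.g g4 (@Lb.g g9 (@Lb.g g10 (@Lb.r r1681 (@Lb.r r531 (@Lb.r r386 (@Lb.d (nat_lit 0) (nat_lit 0) (nat_lit 84) (@Lb.t (@Lb.fp (nat_lit 9) t546)))))))))))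
noncomputable def l32087 : Lb := (@Lb.d (nat_lit 1) (nat_lit 514) (nat_lit 130) (@Lb.g g4 (@Lb.g g9 (@Lb.g g10 (@Lb.g g11 (@Lb.r r1443 (@Lb.r r386 (@Lb.r r1125 (@Lb.d (nat_lit 672) (nat_lit 148) (nat_lit 68) (@Lb.fm (nat_lit 9) t1022))))))))))
noncomputable def l32088 : Lb := (@Lb.d (nat_lit 0) (nat_lit 0) (nat_lit 128) (@Lb.g g8 (@Lb.g g10 (@Lb.g g11 (@Lb.r r353 (@Lb.r r663 (@Lb.r r356 (@Lb.r r154 (@Lb.d (nat_lit 578) (nat_lit 0) (nat_lit 528) (@Lb.t (@Lb.fp (nat_lit 9) t1641)))))))))))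
noncomputable def l32089 : Lb := (@Lb.d (nat_lit 409) (nat_lit 138) (nat_lit 612) (@Lb.r r146 (@Lb.r r2389 (@Lb.r r683 (@Lb.g g7 (@Lb.g g6 (@Lb.g g5 (@Lb.g g4 (@Lb.d (nat_lit 8) (nat_lit 5) (nat_lit 2) (@Lb.fp (nat_lit 9) t1986))))))))))
noncomputable def l32090 : Lb := (@Lb.d (nat_lit 409) (nat_lit 138) (nat_lit 612) (@Lb.r r146 (@Lb.r r2389 (@Lb.r r683 (@Lb.g g7 (@Lb.g g6 (@Lb.g g5 (@Lb.g g4 (@Lb.d (nat_lit 1) (nat_lit 1) (nat_lit 1) (@Lb.fp (nat_lit 9) t5779))))))))))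
noncomputable def l32091 : Lb := (@Lb.d (nat_lit 153) (nat_lit 394) (nat_lit 324) (@Lb.r r146 (@Lb.r r341 (@Lb.r r2731 (@Lb.g g7 (@Lb.g g6 (@Lb.g g5 (@Lb.g g4 (@Lb.d (nat_lit 1) (nat_lit 5) (nat_lit 2) (@Lb.fp (nat_lit 9) t1986))))))))))
noncomputable def l32092 : Lb := (@Lb.d (nat_lit 9) (nat_lit 6) (nat_lit 0) (@Lb.g g8 (@Lb.g g9 (@Lb.g g10 (@Lb.g g11 (@Lb.r r1371 (@Lb.r r417 (@Lb.r r98 (@Lb.r r24 (@Lb.d (nat_lit 256) (nat_lit 40) (nat_lit 73) (@Lb.fp (nat_lit 9) t3824)))))))))))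
noncomputable def l32093 : Lb := (@Lb.r r331 (@Lb.d (nat_lit 160) (nat_lit 514) (nat_lit 2) (@Lb.g g8 (@Lb.g g9 (@Lb.g g10 (@Lb.r r1433 (@Lb.r r2343 (@Lb.r r1604 (@Lb.r r1098 (@Lb.d (nat_lit 342) (nat_lit 136) (nat_lit 136) (@Lb.t (@Lb.fm (nat_lit 9) t1039))))))))))))
noncomputable def l32094 : Lb := (@Lb.r r331 (@Lb.d (nat_lit 1) (nat_lit 514) (nat_lit 10) (@Lb.g g8 (@Lb.g g9 (@Lb.g g10 (@Lb.r r2449 (@Lb.r r299 (@Lb.r r2440 (@Lb.r r410 (@Lb.d (nat_lit 153) (nat_lit 166) (nat_lit 340) (@Lb.t (@Lb.fm (nat_lit 9) t780))))))))))))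
noncomputable def l32095 : Lb := (@Lb.d (nat_lit 9) (nat_lit 513) (nat_lit 130) (@Lb.g g8 (@Lb.g g9 (@Lb.g g10 (@Lb.g g11 (@Lb.r r553 (@Lb.r r299 (@Lb.r r388 (@Lb.r r70 (@Lb.r r132 (@Lb.d (nat_lit 26) (nat_lit 4) (nat_lit 9) (@Lb.fm (nat_lit 9) t87))))))))))))
noncomputable def l32096 : Lb := (@Lb.d (nat_lit 10) (nat_lit 530) (nat_lit 320) (@Lb.r r20 (@Lb.r r2145 (@Lb.r r402 (@Lb.g g11 (@Lb.g g6 (@Lb.d (nat_lit 0) (nat_lit 0) (nat_lit 5) (@Lb.fp (nat_lit 3) t546))))))))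
noncomputable def l32097 : Lb := (@Lb.d (nat_lit 522) (nat_lit 256) (nat_lit 0) (@Lb.r r2085 (@Lb.r r1126 (@Lb.r r1319 (@Lb.g g4 (@Lb.d (nat_lit 1) (nat_lit 0) (nat_lit 0) (@Lb.t (@Lb.fp (nat_lit 3) t1751))))))))
noncomputable def l32098 : Lb := (@Lb.d (nat_lit 538) (nat_lit 274) (nat_lit 138) (@Lb.g g8 (@Lb.g g9 (@Lb.g g10 (@Lb.g g11 (@Lb.r r2699 (@Lb.r r2634 (@Lb.r r2341 (@Lb.d (nat_lit 425) (nat_lit 34) (nat_lit 169) (@Lb.fp (nat_lit 9) t4875))))))))))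
noncomputable def l32099 : Lb := (@Lb.r r81 (@Lb.d (nat_lit 33) (nat_lit 36) (nat_lit 128) (@Lb.g g8 (@Lb.g g6 (@Lb.g g11 (@Lb.r r105 (@Lb.r r584 (@Lb.r r283 (@Lb.d (nat_lit 138) (nat_lit 105) (nat_lit 88) (@Lb.t (@Lb.fp (nat_lit 9) t1900)))))))))))
noncomputable def l32100 : Lb := (@Lb.d (nat_lit 0) (nat_lit 274) (nat_lit 10) (@Lb.r r322 (@Lb.r r339 (@Lb.g g7 (@Lb.g g6 (@Lb.g g5 (@Lb.g g8 (@Lb.d (nat_lit 0) (nat_lit 129) (nat_lit 136) (@Lb.fm (nat_lit 9) t267)))))))))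
noncomputable def l32101 : Lb := (@Lb.r r21 (@Lb.d (nat_lit 2) (nat_lit 8) (nat_lit 68) (@Lb.g g8 (@Lb.g g10 (@Lb.g g11 (@Lb.r r1707 (@Lb.r r2341 (@Lb.r r1604 (@Lb.r r410 (@Lb.d (nat_lit 150) (nat_lit 97) (nat_lit 280) (@Lb.t (@Lb.fp (nat_lit 9) t51))))))))))))
noncomputable def l32102 : Lb := (@Lb.d (nat_lit 0) (nat_lit 512) (nat_lit 10) (@Lb.g g8 (@Lb.g g10 (@Lb.g g11 (@Lb.r r678 (@Lb.r r596 (@Lb.r r263 (@Lb.r r289 (@Lb.d (nat_lit 8) (nat_lit 130) (nat_lit 256) (@Lb.t (@Lb.fm (nat_lit 9) t1412)))))))))))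
noncomputable def l32103 : Lb := (@Lb.r r263 (@Lb.d (nat_lit 41) (nat_lit 517) (nat_lit 2) (@Lb.g g8 (@Lb.g g9 (@Lb.g g10 (@Lb.r r1303 (@Lb.r r2218 (@Lb.r r1109 (@Lb.r r2132 (@Lb.d (nat_lit 25) (nat_lit 129) (nat_lit 34) (@Lb.t (@Lb.fp (nat_lit 9) t2408))))))))))))
noncomputable def l32104 : Lb := (@Lb.d (nat_lit 0) (nat_lit 550) (nat_lit 10) (@Lb.g g8 (@Lb.g g9 (@Lb.g g10 (@Lb.g g11 (@Lb.r r2722 (@Lb.r r1432 (@Lb.r r2725 (@Lb.r r551 (@Lb.d (nat_lit 128) (nat_lit 104) (nat_lit 345) (@Lb.fp (nat_lit 9) t5780)))))))))))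
noncomputable def l32105 : Lb := (@Lb.d (nat_lit 4) (nat_lit 37) (nat_lit 128) (@Lb.g g8 (@Lb.g g9 (@Lb.g g10 (@Lb.g g11 (@Lb.r r387 (@Lb.r r1177 (@Lb.r r2454 (@Lb.r r1608 (@Lb.d (nat_lit 538) (nat_lit 34) (nat_lit 394) (@Lb.fp (nat_lit 9) t4013)))))))))))
noncomputable def l32106 : Lb := (@Lb.d (nat_lit 128) (nat_lit 512) (nat_lit 64) (@Lb.g g11 (@Lb.r r264 (@Lb.r r519 (@Lb.r r101 (@Lb.r r154 (@Lb.d (nat_lit 385) (nat_lit 0) (nat_lit 160) (@Lb.t (@Lb.fp (nat_lit 3) t743)))))))))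
noncomputable def l32107 : Lb := (@Lb.d (nat_lit 97) (nat_lit 258) (nat_lit 73) (@Lb.g g8 (@Lb.g g9 (@Lb.g g10 (@Lb.g g11 (@Lb.r r2691 (@Lb.r r1193 (@Lb.r r1642 (@Lb.r r2084 (@Lb.d (nat_lit 394) (nat_lit 68) (nat_lit 132) (@Lb.fp (nat_lit 9) t2528)))))))))))
noncomputable def l32108 : Lb := (@Lb.r r21 (@Lb.d (nat_lit 10) (nat_lit 256) (nat_lit 0) (@Lb.g g8 (@Lb.g g7 (@Lb.r r2453 (@Lb.r r402 (@Lb.r r1156 (@Lb.d (nat_lit 290) (nat_lit 5) (nat_lit 512) (@Lb.fm (nat_lit 3) t1875)))))))))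
noncomputable def l32109 : Lb := (@Lb.d (nat_lit 273) (nat_lit 548) (nat_lit 64) (@Lb.g g4 (@Lb.g g9 (@Lb.g g10 (@Lb.g g11 (@Lb.r r1411 (@Lb.r r1169 (@Lb.r r2450 (@Lb.d (nat_lit 8) (nat_lit 20) (nat_lit 137) (@Lb.fp (nat_lit 9) t5781))))))))))
noncomputable def l32110 : Lb := (@Lb.d (nat_lit 274) (nat_lit 292) (nat_lit 64) (@Lb.g g4 (@Lb.g g9 (@Lb.g g10 (@Lb.g g11 (@Lb.r r1411 (@Lb.r r1169 (@Lb.r r2450 (@Lb.d (nat_lit 8) (nat_lit 20) (nat_lit 137) (@Lb.fp (nat_lit 9) t5781))))))))))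
noncomputable def l32111 : Lb := (@Lb.r r101 (@Lb.d (nat_lit 256) (nat_lit 90) (nat_lit 410) (@Lb.fm (nat_lit 1) t1174)))
noncomputable def l32112 : Lb := (@Lb.d (nat_lit 320) (nat_lit 0) (nat_lit 408) (@Lb.r r1096 (@Lb.r r146 (@Lb.r r357 (@Lb.g g11 (@Lb.g g5 (@Lb.d (nat_lit 0) (nat_lit 0) (nat_lit 384) (@Lb.r r578 (@Lb.fm (nat_lit 3) t5782)))))))))
noncomputable def l32113 : Lb := (@Lb.d (nat_lit 261) (nat_lit 422) (nat_lit 678) (@Lb.r r21 (@Lb.r r104 (@Lb.r r386 (@Lb.g g11 (@Lb.g g6 (@Lb.g g5 (@Lb.g g4 (@Lb.d (nat_lit 1) (nat_lit 1) (nat_lit 129) (@Lb.fm (nat_lit 9) t4966))))))))))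
noncomputable def l32114 : Lb := (@Lb.d (nat_lit 2) (nat_lit 514) (nat_lit 130) (@Lb.g g8 (@Lb.g g9 (@Lb.g g10 (@Lb.g g11 (@Lb.r r391 (@Lb.r r2666 (@Lb.r r2585 (@Lb.r r2564 (@Lb.d (nat_lit 137) (nat_lit 6) (nat_lit 385) (@Lb.fp (nat_lit 9) t715)))))))))))
noncomputable def l32115 : Lb := (@Lb.r r273 (@Lb.r r322 (@Lb.d (nat_lit 1) (nat_lit 288) (nat_lit 0) (@Lb.g g8 (@Lb.g g11 (@Lb.r r1684 (@Lb.r r1174 (@Lb.r r2145 (@Lb.d (nat_lit 0) (nat_lit 165) (nat_lit 672) (@Lb.fm (nat_lit 3) t1801))))))))))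
noncomputable def l32116 : Lb := (@Lb.r r323 (@Lb.d (nat_lit 1) (nat_lit 514) (nat_lit 0) (@Lb.g g8 (@Lb.g g9 (@Lb.g g10 (@Lb.r r2459 (@Lb.r r297 (@Lb.r r1384 (@Lb.r r2630 (@Lb.d (nat_lit 2) (nat_lit 74) (nat_lit 134) (@Lb.t (@Lb.fm (nat_lit 9) t1254))))))))))))
noncomputable def l32117 : Lb := (@Lb.d (nat_lit 166) (nat_lit 10) (nat_lit 0) (@Lb.g g8 (@Lb.g g9 (@Lb.r r391 (@Lb.r r1414 (@Lb.r r1620 (@Lb.r r25 (@Lb.d (nat_lit 74) (nat_lit 101) (nat_lit 410) (@Lb.fp (nat_lit 3) t322)))))))))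
noncomputable def l32118 : Lb := (@Lb.d (nat_lit 133) (nat_lit 0) (nat_lit 73) (@Lb.g g8 (@Lb.g g9 (@Lb.g g10 (@Lb.g g11 (@Lb.r r1639 (@Lb.r r344 (@Lb.r r357 (@Lb.r r154 (@Lb.r r132 (@Lb.d (nat_lit 640) (nat_lit 102) (nat_lit 129) (@Lb.fp (nat_lit 9) t1152))))))))))))
noncomputable def l32119 : Lb := (@Lb.d (nat_lit 678) (nat_lit 257) (nat_lit 409) (@Lb.r r20 (@Lb.r r2329 (@Lb.r r2659 (@Lb.r r2370 (@Lb.g g7 (@Lb.g g6 (@Lb.g g4 (@Lb.d (nat_lit 1) (nat_lit 0) (nat_lit 65) (@Lb.t (@Lb.fm (nat_lit 9) t4182)))))))))))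
noncomputable def l32120 : Lb := (@Lb.d (nat_lit 272) (nat_lit 513) (nat_lit 0) (@Lb.g g8 (@Lb.g g9 (@Lb.r r322 (@Lb.r r1667 (@Lb.r r578 (@Lb.r r2329 (@Lb.d (nat_lit 393) (nat_lit 98) (nat_lit 330) (@Lb.fp (nat_lit 3) t4514)))))))))
noncomputable def l32121 : Lb := (@Lb.r r323 (@Lb.d (nat_lit 128) (nat_lit 514) (nat_lit 2) (@Lb.g g8 (@Lb.g g9 (@Lb.g g10 (@Lb.r r263 (@Lb.r r98 (@Lb.r r97 (@Lb.r r536 (@Lb.d (nat_lit 69) (nat_lit 160) (nat_lit 68) (@Lb.t (@Lb.fm (nat_lit 9) t71))))))))))))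
noncomputable def l32122 : Lb := (@Lb.d (nat_lit 682) (nat_lit 134) (nat_lit 553) (@Lb.r r2650 (@Lb.r r1352 (@Lb.r r2711 (@Lb.r r361 (@Lb.g g7 (@Lb.g g6 (@Lb.d (nat_lit 16) (nat_lit 4) (nat_lit 65) (@Lb.fp (nat_lit 3) t1751)))))))))
noncomputable def l32123 : Lb := (@Lb.d (nat_lit 4) (nat_lit 513) (nat_lit 66) (@Lb.g g5 (@Lb.g g10 (@Lb.g g7 (@Lb.r r2458 (@Lb.r r24 (@Lb.d (nat_lit 146) (nat_lit 6) (nat_lit 298) (@Lb.t (@Lb.fm (nat_lit 9) t3316)))))))))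
noncomputable def l32124 : Lb := (@Lb.r r331 (@Lb.d (nat_lit 38) (nat_lit 10) (nat_lit 1) (@Lb.g g8 (@Lb.g g9 (@Lb.g g10 (@Lb.r r683 (@Lb.r r1186 (@Lb.r r341 (@Lb.r r1636 (@Lb.d (nat_lit 645) (nat_lit 154) (nat_lit 649) (@Lb.t (@Lb.fm (nat_lit 9) t5524))))))))))))
noncomputable def l32125 : Lb := (@Lb.d (nat_lit 10) (nat_lit 0) (nat_lit 66) (@Lb.g g8 (@Lb.g g10 (@Lb.g g11 (@Lb.r r1602 (@Lb.r r1637 (@Lb.r r2407 (@Lb.r r2584 (@Lb.d (nat_lit 360) (nat_lit 9) (nat_lit 529) (@Lb.t (@Lb.fm (nat_lit 9) t4132)))))))))))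
noncomputable def l32126 : Lb := (@Lb.d (nat_lit 8) (nat_lit 418) (nat_lit 0) (@Lb.g g9 (@Lb.r r1291 (@Lb.d (nat_lit 521) (nat_lit 2) (nat_lit 640) (@Lb.t (@Lb.fp (nat_lit 3) t3947))))))
noncomputable def l32127 : Lb := (@Lb.d (nat_lit 0) (nat_lit 298) (nat_lit 64) (@Lb.g g9 (@Lb.g g11 (@Lb.r r402 (@Lb.r r1379 (@Lb.r r353 (@Lb.d (nat_lit 0) (nat_lit 166) (nat_lit 166) (@Lb.fm (nat_lit 3) t406))))))))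
noncomputable def l32128 : Lb := (@Lb.d (nat_lit 8) (nat_lit 162) (nat_lit 0) (@Lb.g g9 (@Lb.r r1291 (@Lb.d (nat_lit 522) (nat_lit 2) (nat_lit 640) (@Lb.t (@Lb.fp (nat_lit 3) t3947))))))
noncomputable def l32129 : Lb := (@Lb.d (nat_lit 2) (nat_lit 2) (nat_lit 2) (@Lb.g g8 (@Lb.g g9 (@Lb.g g10 (@Lb.r r1689 (@Lb.r r2579 (@Lb.r r2122 (@Lb.r r2120 (@Lb.d (nat_lit 98) (nat_lit 164) (nat_lit 362) (@Lb.t (@Lb.fm (nat_lit 9) t1053)))))))))))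
noncomputable def l32130 : Lb := (@Lb.r r1291 (@Lb.r r24 (@Lb.d (nat_lit 584) (nat_lit 34) (nat_lit 384) (@Lb.fm (nat_lit 1) t1855))))
noncomputable def l32131 : Lb := (@Lb.d (nat_lit 9) (nat_lit 1) (nat_lit 128) (@Lb.g g8 (@Lb.g g9 (@Lb.g g11 (@Lb.r r1707 (@Lb.r r2178 (@Lb.r r612 (@Lb.r r1045 (@Lb.r r2084 (@Lb.d (nat_lit 104) (nat_lit 153) (nat_lit 9) (@Lb.t (@Lb.fm (nat_lit 9) t3378))))))))))))
noncomputable def l32132 : Lb := (@Lb.d (nat_lit 1) (nat_lit 2) (nat_lit 130) (@Lb.g g8 (@Lb.g g9 (@Lb.g g10 (@Lb.g g11 (@Lb.r r2459 (@Lb.r r297 (@Lb.r r1384 (@Lb.r r2630 (@Lb.d (nat_lit 10) (nat_lit 73) (nat_lit 136) (@Lb.fp (nat_lit 9) t91)))))))))))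
noncomputable def l32133 : Lb := (@Lb.d (nat_lit 512) (nat_lit 389) (nat_lit 161) (@Lb.r r24 (@Lb.r r1113 (@Lb.r r426 (@Lb.g g11 (@Lb.g g5 (@Lb.g g4 (@Lb.d (nat_lit 0) (nat_lit 16) (nat_lit 264) (@Lb.r r578 (@Lb.t (@Lb.fm (nat_lit 9) t1964)))))))))))
noncomputable def l32134 : Lb := (@Lb.d (nat_lit 682) (nat_lit 400) (nat_lit 133) (@Lb.r r392 (@Lb.r r1178 (@Lb.r r1683 (@Lb.g g6 (@Lb.g g9 (@Lb.g g4 (@Lb.d (nat_lit 65) (nat_lit 134) (nat_lit 0) (@Lb.t (@Lb.fp (nat_lit 9) t5783))))))))))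
noncomputable def l32135 : Lb := (@Lb.d (nat_lit 0) (nat_lit 8) (nat_lit 2) (@Lb.g g10 (@Lb.d (nat_lit 0) (nat_lit 144) (nat_lit 266) (@Lb.t (@Lb.fp (nat_lit 3) t334)))))
noncomputable def l32136 : Lb := (@Lb.d (nat_lit 0) (nat_lit 521) (nat_lit 134) (@Lb.g g9 (@Lb.g g10 (@Lb.g g7 (@Lb.r r2466 (@Lb.r r2337 (@Lb.d (nat_lit 0) (nat_lit 152) (nat_lit 518) (@Lb.t (@Lb.fp (nat_lit 9) t99)))))))))
noncomputable def l32137 : Lb := (@Lb.d (nat_lit 150) (nat_lit 18) (nat_lit 406) (@Lb.r r358 (@Lb.r r1700 (@Lb.r r1701 (@Lb.r r1367 (@Lb.g g6 (@Lb.g g5 (@Lb.g g4 (@Lb.d (nat_lit 66) (nat_lit 1) (nat_lit 5) (@Lb.t (@Lb.fm (nat_lit 9) t145)))))))))))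
noncomputable def l32138 : Lb := (@Lb.d (nat_lit 6) (nat_lit 513) (nat_lit 64) (@Lb.r r273 (@Lb.r r611 (@Lb.r r601 (@Lb.r r326 (@Lb.g g7 (@Lb.g g6 (@Lb.g g5 (@Lb.g g4 (@Lb.d (nat_lit 1) (nat_lit 0) (nat_lit 65) (@Lb.fm (nat_lit 9) t3217)))))))))))
noncomputable def l32139 : Lb := (@Lb.d (nat_lit 0) (nat_lit 26) (nat_lit 2) (@Lb.g g9 (@Lb.g g10 (@Lb.g g11 (@Lb.r r1411 (@Lb.r r1633 (@Lb.d (nat_lit 0) (nat_lit 153) (nat_lit 537) (@Lb.t (@Lb.fp (nat_lit 9) t406)))))))))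
noncomputable def l32140 : Lb := (@Lb.d (nat_lit 0) (nat_lit 616) (nat_lit 345) (@Lb.r r2438 (@Lb.r r1371 (@Lb.r r1364 (@Lb.g g7 (@Lb.g g5 (@Lb.d (nat_lit 8) (nat_lit 0) (nat_lit 64) (@Lb.r r98 (@Lb.fp (nat_lit 3) t443)))))))))
noncomputable def l32141 : Lb := (@Lb.d (nat_lit 134) (nat_lit 0) (nat_lit 66) (@Lb.g g8 (@Lb.g g9 (@Lb.g g10 (@Lb.g g11 (@Lb.r r1194 (@Lb.r r360 (@Lb.r r345 (@Lb.r r359 (@Lb.r r2564 (@Lb.d (nat_lit 537) (nat_lit 33) (nat_lit 617) (@Lb.fp (nat_lit 9) t3284))))))))))))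
noncomputable def l32142 : Lb := (@Lb.r r82 (@Lb.d (nat_lit 34) (nat_lit 258) (nat_lit 128) (@Lb.g g8 (@Lb.g g9 (@Lb.g g11 (@Lb.r r1571 (@Lb.r r582 (@Lb.r r1177 (@Lb.r r408 (@Lb.d (nat_lit 617) (nat_lit 26) (nat_lit 602) (@Lb.t (@Lb.fm (nat_lit 9) t5343))))))))))))
noncomputable def l32143 : Lb := (@Lb.r r331 (@Lb.d (nat_lit 2) (nat_lit 2) (nat_lit 2) (@Lb.g g8 (@Lb.g g9 (@Lb.g g10 (@Lb.r r2475 (@Lb.r r1130 (@Lb.r r2152 (@Lb.r r25 (@Lb.d (nat_lit 74) (nat_lit 26) (nat_lit 25) (@Lb.t (@Lb.fp (nat_lit 9) t5784))))))))))))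
noncomputable def l32144 : Lb := (@Lb.r r323 (@Lb.d (nat_lit 2) (nat_lit 514) (nat_lit 2) (@Lb.g g8 (@Lb.g g9 (@Lb.g g10 (@Lb.r r1623 (@Lb.r r582 (@Lb.r r2457 (@Lb.r r2436 (@Lb.d (nat_lit 134) (nat_lit 21) (nat_lit 150) (@Lb.t (@Lb.fp (nat_lit 9) t5785))))))))))))
noncomputable def l32145 : Lb := (@Lb.d (nat_lit 0) (nat_lit 514) (nat_lit 73) (@Lb.g g8 (@Lb.g g9 (@Lb.g g10 (@Lb.g g11 (@Lb.r r2666 (@Lb.r r579 (@Lb.r r104 (@Lb.r r25 (@Lb.d (nat_lit 170) (nat_lit 154) (nat_lit 578) (@Lb.fp (nat_lit 9) t5786)))))))))))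
noncomputable def l32146 : Lb := (@Lb.d (nat_lit 133) (nat_lit 261) (nat_lit 128) (@Lb.g g8 (@Lb.g g9 (@Lb.g g10 (@Lb.g g11 (@Lb.r r2690 (@Lb.r r2455 (@Lb.r r2721 (@Lb.r r152 (@Lb.d (nat_lit 265) (nat_lit 86) (nat_lit 149) (@Lb.fm (nat_lit 9) t5787)))))))))))
noncomputable def l32147 : Lb := (@Lb.d (nat_lit 144) (nat_lit 258) (nat_lit 4) (@Lb.g g8 (@Lb.g g9 (@Lb.g g10 (@Lb.g g11 (@Lb.r r1563 (@Lb.r r1130 (@Lb.r r409 (@Lb.r r388 (@Lb.d (nat_lit 401) (nat_lit 97) (nat_lit 602) (@Lb.fm (nat_lit 9) t3407)))))))))))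
noncomputable def l32148 : Lb := (@Lb.d (nat_lit 144) (nat_lit 514) (nat_lit 4) (@Lb.g g8 (@Lb.g g9 (@Lb.g g10 (@Lb.g g11 (@Lb.r r1563 (@Lb.r r1130 (@Lb.r r409 (@Lb.r r388 (@Lb.d (nat_lit 408) (nat_lit 96) (nat_lit 602) (@Lb.fm (nat_lit 9) t3407)))))))))))
noncomputable def l32149 : Lb := (@Lb.r r283 (@Lb.d (nat_lit 2) (nat_lit 4) (nat_lit 0) (@Lb.g g8 (@Lb.g g9 (@Lb.g g10 (@Lb.r r2343 (@Lb.r r1130 (@Lb.r r1684 (@Lb.r r1449 (@Lb.d (nat_lit 405) (nat_lit 9) (nat_lit 678) (@Lb.t (@Lb.fp (nat_lit 9) t5788))))))))))))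
noncomputable def l32150 : Lb := (@Lb.d (nat_lit 144) (nat_lit 258) (nat_lit 130) (@Lb.g g8 (@Lb.g g9 (@Lb.g g10 (@Lb.g g11 (@Lb.r r2722 (@Lb.r r2457 (@Lb.r r1319 (@Lb.r r536 (@Lb.d (nat_lit 265) (nat_lit 41) (nat_lit 41) (@Lb.fp (nat_lit 9) t5789)))))))))))
noncomputable def l32151 : Lb := (@Lb.d (nat_lit 0) (nat_lit 553) (nat_lit 357) (@Lb.r r611 (@Lb.r r362 (@Lb.r r344 (@Lb.g g7 (@Lb.g g5 (@Lb.d (nat_lit 64) (nat_lit 129) (nat_lit 128) (@Lb.fm (nat_lit 3) t1922))))))))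
noncomputable def l32152 : Lb := (@Lb.d (nat_lit 0) (nat_lit 616) (nat_lit 326) (@Lb.r r611 (@Lb.r r362 (@Lb.r r344 (@Lb.g g7 (@Lb.g g5 (@Lb.d (nat_lit 64) (nat_lit 129) (nat_lit 128) (@Lb.fm (nat_lit 3) t1922))))))))
noncomputable def l32153 : Lb := (@Lb.r r283 (@Lb.d (nat_lit 514) (nat_lit 514) (nat_lit 2) (@Lb.g g8 (@Lb.g g9 (@Lb.g g10 (@Lb.r r2731 (@Lb.r r618 (@Lb.r r537 (@Lb.d (nat_lit 73) (nat_lit 41) (nat_lit 673) (@Lb.t (@Lb.fp (nat_lit 9) t5790)))))))))))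
noncomputable def l32154 : Lb := (@Lb.r r277 (@Lb.d (nat_lit 357) (nat_lit 512) (nat_lit 73) (@Lb.g g8 (@Lb.g g10 (@Lb.g g11 (@Lb.r r2406 (@Lb.r r2439 (@Lb.r r289 (@Lb.d (nat_lit 422) (nat_lit 166) (nat_lit 600) (@Lb.t (@Lb.fp (nat_lit 9) t5791)))))))))))
noncomputable def l32155 : Lb := (@Lb.d (nat_lit 2) (nat_lit 0) (nat_lit 66) (@Lb.g g8 (@Lb.g g10 (@Lb.g g7 (@Lb.r r386 (@Lb.r r2145 (@Lb.r r2564 (@Lb.d (nat_lit 166) (nat_lit 8) (nat_lit 664) (@Lb.t (@Lb.fp (nat_lit 9) t5792))))))))))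
noncomputable def l32156 : Lb := (@Lb.d (nat_lit 42) (nat_lit 256) (nat_lit 64) (@Lb.g g8 (@Lb.g g11 (@Lb.r r1703 (@Lb.r r614 (@Lb.r r1637 (@Lb.r r1428 (@Lb.d (nat_lit 357) (nat_lit 80) (nat_lit 409) (@Lb.fm (nat_lit 3) t386)))))))))
noncomputable def l32157 : Lb := (@Lb.d (nat_lit 150) (nat_lit 0) (nat_lit 358) (@Lb.r r24 (@Lb.r r1383 (@Lb.g g7 (@Lb.g g6 (@Lb.g g9 (@Lb.g g4 (@Lb.d (nat_lit 1) (nat_lit 66) (nat_lit 81) (@Lb.fp (nat_lit 9) t1644)))))))))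
noncomputable def l32158 : Lb := (@Lb.d (nat_lit 42) (nat_lit 0) (nat_lit 0) (@Lb.g g8 (@Lb.r r614 (@Lb.r r1637 (@Lb.r r1428 (@Lb.d (nat_lit 358) (nat_lit 80) (nat_lit 614) (@Lb.t (@Lb.fm (nat_lit 3) t5793))))))))
noncomputable def l32159 : Lb := (@Lb.r r21 (@Lb.d (nat_lit 10) (nat_lit 512) (nat_lit 66) (@Lb.g g8 (@Lb.g g10 (@Lb.g g11 (@Lb.r r2457 (@Lb.r r2731 (@Lb.r r2698 (@Lb.r r2724 (@Lb.d (nat_lit 533) (nat_lit 144) (nat_lit 336) (@Lb.t (@Lb.fm (nat_lit 9) t5794))))))))))))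
noncomputable def l32160 : Lb := (@Lb.d (nat_lit 0) (nat_lit 102) (nat_lit 325) (@Lb.r r611 (@Lb.r r362 (@Lb.r r344 (@Lb.g g7 (@Lb.g g5 (@Lb.d (nat_lit 64) (nat_lit 129) (nat_lit 128) (@Lb.fm (nat_lit 3) t4157))))))))
noncomputable def l32161 : Lb := (@Lb.d (nat_lit 130) (nat_lit 257) (nat_lit 64) (@Lb.g g8 (@Lb.g g9 (@Lb.g g11 (@Lb.r r532 (@Lb.r r297 (@Lb.r r1303 (@Lb.r r2178 (@Lb.r r548 (@Lb.d (nat_lit 257) (nat_lit 9) (nat_lit 644) (@Lb.t (@Lb.fm (nat_lit 9) t5795))))))))))))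
noncomputable def l32162 : Lb := (@Lb.d (nat_lit 641) (nat_lit 256) (nat_lit 0) (@Lb.g g4 (@Lb.r r273 (@Lb.r r2595 (@Lb.r r2178 (@Lb.r r529 (@Lb.d (nat_lit 288) (nat_lit 128) (nat_lit 34) (@Lb.t (@Lb.fm (nat_lit 3) t5796)))))))))
noncomputable def l32163 : Lb := (@Lb.d (nat_lit 0) (nat_lit 0) (nat_lit 73) (@Lb.g g10 (@Lb.g g11 (@Lb.r r419 (@Lb.r r1620 (@Lb.r r409 (@Lb.r r2458 (@Lb.d (nat_lit 402) (nat_lit 153) (nat_lit 297) (@Lb.fp (nat_lit 3) t3673)))))))))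
noncomputable def l32164 : Lb := (@Lb.d (nat_lit 0) (nat_lit 512) (nat_lit 73) (@Lb.g g10 (@Lb.g g11 (@Lb.r r419 (@Lb.r r1620 (@Lb.r r409 (@Lb.r r2458 (@Lb.d (nat_lit 404) (nat_lit 154) (nat_lit 297) (@Lb.fp (nat_lit 3) t3673)))))))))
noncomputable def l32165 : Lb := (@Lb.d (nat_lit 148) (nat_lit 522) (nat_lit 130) (@Lb.g g8 (@Lb.g g9 (@Lb.g g10 (@Lb.g g11 (@Lb.r r1666 (@Lb.r r1431 (@Lb.r r2657 (@Lb.r r1048 (@Lb.d (nat_lit 553) (nat_lit 153) (nat_lit 41) (@Lb.fm (nat_lit 9) t5797)))))))))))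
noncomputable def l32166 : Lb := (@Lb.d (nat_lit 144) (nat_lit 548) (nat_lit 133) (@Lb.g g8 (@Lb.g g9 (@Lb.g g10 (@Lb.g g11 (@Lb.r r2627 (@Lb.r r658 (@Lb.r r2725 (@Lb.r r1048 (@Lb.d (nat_lit 520) (nat_lit 66) (nat_lit 162) (@Lb.fp (nat_lit 9) t4153)))))))))))
noncomputable def l32167 : Lb := (@Lb.r r326 (@Lb.d (nat_lit 34) (nat_lit 2) (nat_lit 576) (@Lb.g g8 (@Lb.g g9 (@Lb.g g7 (@Lb.r r1129 (@Lb.r r2454 (@Lb.r r596 (@Lb.d (nat_lit 150) (nat_lit 134) (nat_lit 5) (@Lb.t (@Lb.fp (nat_lit 9) t2528)))))))))))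
noncomputable def l32168 : Lb := (@Lb.d (nat_lit 10) (nat_lit 512) (nat_lit 66) (@Lb.g g8 (@Lb.g g10 (@Lb.g g11 (@Lb.r r1602 (@Lb.r r1637 (@Lb.r r2407 (@Lb.r r2584 (@Lb.d (nat_lit 360) (nat_lit 2) (nat_lit 530) (@Lb.t (@Lb.fm (nat_lit 9) t2238)))))))))))
noncomputable def l32169 : Lb := (@Lb.r r322 (@Lb.d (nat_lit 2) (nat_lit 288) (nat_lit 516) (@Lb.g g4 (@Lb.g g7 (@Lb.r r2442 (@Lb.r r153 (@Lb.r r1156 (@Lb.d (nat_lit 546) (nat_lit 138) (nat_lit 97) (@Lb.fp (nat_lit 3) t5798)))))))))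
noncomputable def l32170 : Lb := (@Lb.r r322 (@Lb.d (nat_lit 0) (nat_lit 290) (nat_lit 516) (@Lb.g g8 (@Lb.g g9 (@Lb.g g7 (@Lb.r r2438 (@Lb.r r1129 (@Lb.r r2120 (@Lb.d (nat_lit 297) (nat_lit 2) (nat_lit 98) (@Lb.t (@Lb.fm (nat_lit 9) t5799)))))))))))
noncomputable def l32171 : Lb := (@Lb.d (nat_lit 0) (nat_lit 292) (nat_lit 66) (@Lb.g g8 (@Lb.g g9 (@Lb.g g10 (@Lb.g g11 (@Lb.r r611 (@Lb.r r2666 (@Lb.r r612 (@Lb.r r533 (@Lb.d (nat_lit 2) (nat_lit 40) (nat_lit 386) (@Lb.fm (nat_lit 9) t4903)))))))))))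
noncomputable def l32172 : Lb := (@Lb.d (nat_lit 409) (nat_lit 256) (nat_lit 336) (@Lb.r r1636 (@Lb.r r613 (@Lb.r r1370 (@Lb.g g7 (@Lb.g g4 (@Lb.d (nat_lit 69) (nat_lit 0) (nat_lit 576) (@Lb.fp (nat_lit 3) t3300))))))))
noncomputable def l32173 : Lb := (@Lb.d (nat_lit 409) (nat_lit 5) (nat_lit 337) (@Lb.r r1636 (@Lb.r r613 (@Lb.r r1370 (@Lb.g g7 (@Lb.g g4 (@Lb.d (nat_lit 69) (nat_lit 0) (nat_lit 576) (@Lb.fp (nat_lit 3) t386))))))))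
noncomputable def l32174 : Lb := (@Lb.d (nat_lit 0) (nat_lit 512) (nat_lit 128) (@Lb.g g11 (@Lb.r r658 (@Lb.r r387 (@Lb.d (nat_lit 0) (nat_lit 69) (nat_lit 392) (@Lb.t (@Lb.fm (nat_lit 3) t51)))))))
noncomputable def l32175 : Lb := (@Lb.d (nat_lit 102) (nat_lit 322) (nat_lit 650) (@Lb.r r24 (@Lb.r r2145 (@Lb.r r579 (@Lb.r r2390 (@Lb.g g7 (@Lb.g g6 (@Lb.g g4 (@Lb.d (nat_lit 1) (nat_lit 0) (nat_lit 134) (@Lb.t (@Lb.fm (nat_lit 9) t3040)))))))))))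
noncomputable def l32176 : Lb := (@Lb.r r275 (@Lb.d (nat_lit 0) (nat_lit 264) (nat_lit 2) (@Lb.g g9 (@Lb.g g10 (@Lb.r r1411 (@Lb.r r2137 (@Lb.d (nat_lit 5) (nat_lit 129) (nat_lit 2) (@Lb.fm (nat_lit 3) t4221))))))))
noncomputable def l32177 : Lb := (@Lb.r r21 (@Lb.d (nat_lit 2) (nat_lit 8) (nat_lit 130) (@Lb.g g8 (@Lb.g g10 (@Lb.g g11 (@Lb.r r353 (@Lb.r r407 (@Lb.r r584 (@Lb.r r390 (@Lb.d (nat_lit 98) (nat_lit 0) (nat_lit 8) (@Lb.t (@Lb.fp (nat_lit 9) t2))))))))))))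
noncomputable def l32178 : Lb := (@Lb.d (nat_lit 8) (nat_lit 33) (nat_lit 130) (@Lb.g g9 (@Lb.g g10 (@Lb.g g11 (@Lb.r r2694 (@Lb.r r1352 (@Lb.r r1367 (@Lb.r r1697 (@Lb.d (nat_lit 361) (nat_lit 73) (nat_lit 280) (@Lb.t (@Lb.fp (nat_lit 9) t580)))))))))))
noncomputable def l32179 : Lb := (@Lb.r r322 (@Lb.d (nat_lit 64) (nat_lit 545) (nat_lit 324) (@Lb.g g9 (@Lb.g g7 (@Lb.r r418 (@Lb.r r1169 (@Lb.r r24 (@Lb.d (nat_lit 293) (nat_lit 128) (nat_lit 98) (@Lb.fp (nat_lit 3) t251)))))))))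
noncomputable def l32180 : Lb := (@Lb.r r21 (@Lb.d (nat_lit 128) (nat_lit 256) (nat_lit 73) (@Lb.g g8 (@Lb.g g10 (@Lb.g g11 (@Lb.r r1691 (@Lb.r r409 (@Lb.r r90 (@Lb.r r1348 (@Lb.d (nat_lit 516) (nat_lit 104) (nat_lit 338) (@Lb.t (@Lb.fp (nat_lit 9) t2055))))))))))))
noncomputable def l32181 : Lb := (@Lb.r r1045 (@Lb.d (nat_lit 257) (nat_lit 512) (nat_lit 8) (@Lb.g g8 (@Lb.g g11 (@Lb.r r1414 (@Lb.r r1351 (@Lb.d (nat_lit 353) (nat_lit 0) (nat_lit 420) (@Lb.fp (nat_lit 3) t284))))))))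
noncomputable def l32182 : Lb := (@Lb.d (nat_lit 8) (nat_lit 289) (nat_lit 130) (@Lb.g g9 (@Lb.g g10 (@Lb.g g11 (@Lb.r r2694 (@Lb.r r1352 (@Lb.r r1367 (@Lb.r r1697 (@Lb.d (nat_lit 360) (nat_lit 10) (nat_lit 280) (@Lb.t (@Lb.fp (nat_lit 9) t5800)))))))))))
noncomputable def l32183 : Lb := (@Lb.r r322 (@Lb.d (nat_lit 64) (nat_lit 33) (nat_lit 324) (@Lb.g g9 (@Lb.g g7 (@Lb.r r418 (@Lb.r r1169 (@Lb.r r24 (@Lb.d (nat_lit 292) (nat_lit 128) (nat_lit 98) (@Lb.fp (nat_lit 3) t582)))))))))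
noncomputable def l32184 : Lb := (@Lb.d (nat_lit 2) (nat_lit 513) (nat_lit 0) (@Lb.g g8 (@Lb.g g9 (@Lb.r r1130 (@Lb.r r2596 (@Lb.r r2439 (@Lb.r r2657 (@Lb.d (nat_lit 0) (nat_lit 153) (nat_lit 394) (@Lb.fp (nat_lit 3) t2054)))))))))
noncomputable def l32185 : Lb := (@Lb.d (nat_lit 9) (nat_lit 257) (nat_lit 2) (@Lb.g g8 (@Lb.g g9 (@Lb.g g10 (@Lb.r r427 (@Lb.r r386 (@Lb.r r1129 (@Lb.r r1124 (@Lb.d (nat_lit 281) (nat_lit 0) (nat_lit 553) (@Lb.t (@Lb.fm (nat_lit 9) t2547)))))))))))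
noncomputable def l32186 : Lb := (@Lb.d (nat_lit 545) (nat_lit 137) (nat_lit 33) (@Lb.r r2644 (@Lb.r r2375 (@Lb.r r594 (@Lb.g g6 (@Lb.g g5 (@Lb.g g4 (@Lb.d (nat_lit 10) (nat_lit 16) (nat_lit 1) (@Lb.r r387 (@Lb.t (@Lb.fp (nat_lit 9) t5801)))))))))))
noncomputable def l32187 : Lb := (@Lb.r r70 (@Lb.d (nat_lit 168) (nat_lit 257) (nat_lit 128) (@Lb.g g8 (@Lb.g g9 (@Lb.g g11 (@Lb.r r2390 (@Lb.r r1411 (@Lb.r r2597 (@Lb.r r1300 (@Lb.d (nat_lit 676) (nat_lit 82) (nat_lit 538) (@Lb.t (@Lb.fp (nat_lit 9) t3))))))))))))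
noncomputable def l32188 : Lb := (@Lb.d (nat_lit 8) (nat_lit 264) (nat_lit 130) (@Lb.g g9 (@Lb.g g10 (@Lb.g g11 (@Lb.r r2459 (@Lb.r r2452 (@Lb.r r2662 (@Lb.r r2721 (@Lb.d (nat_lit 597) (nat_lit 104) (nat_lit 402) (@Lb.t (@Lb.fp (nat_lit 9) t5802)))))))))))
noncomputable def l32189 : Lb := (@Lb.r r70 (@Lb.d (nat_lit 168) (nat_lit 1) (nat_lit 128) (@Lb.g g8 (@Lb.g g9 (@Lb.g g11 (@Lb.r r2390 (@Lb.r r1411 (@Lb.r r2597 (@Lb.r r1300 (@Lb.d (nat_lit 677) (nat_lit 82) (nat_lit 538) (@Lb.t (@Lb.fp (nat_lit 9) t3))))))))))))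
noncomputable def l32190 : Lb := (@Lb.d (nat_lit 256) (nat_lit 138) (nat_lit 2) (@Lb.r r21 (@Lb.r r1124 (@Lb.r r323 (@Lb.g g10 (@Lb.g g5 (@Lb.d (nat_lit 16) (nat_lit 8) (nat_lit 17) (@Lb.r r387 (@Lb.r r132 (@Lb.fp (nat_lit 3) t3619))))))))))
noncomputable def l32191 : Lb := (@Lb.d (nat_lit 153) (nat_lit 1) (nat_lit 128) (@Lb.g g8 (@Lb.g g9 (@Lb.g g10 (@Lb.g g11 (@Lb.r r1706 (@Lb.r r1411 (@Lb.r r36 (@Lb.r r1045 (@Lb.r r2084 (@Lb.d (nat_lit 353) (nat_lit 66) (nat_lit 410) (@Lb.fm (nat_lit 9) t5803))))))))))))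
noncomputable def l32192 : Lb := (@Lb.r r323 (@Lb.d (nat_lit 8) (nat_lit 2) (nat_lit 2) (@Lb.g g9 (@Lb.g g10 (@Lb.r r102 (@Lb.r r404 (@Lb.r r1371 (@Lb.r r2705 (@Lb.d (nat_lit 1) (nat_lit 97) (nat_lit 296) (@Lb.fm (nat_lit 3) t71))))))))))
noncomputable def l32193 : Lb := (@Lb.d (nat_lit 2) (nat_lit 289) (nat_lit 4) (@Lb.g g8 (@Lb.g g9 (@Lb.g g10 (@Lb.g g11 (@Lb.r r1706 (@Lb.r r676 (@Lb.r r551 (@Lb.r r533 (@Lb.r r1060 (@Lb.d (nat_lit 168) (nat_lit 1) (nat_lit 601) (@Lb.fp (nat_lit 9) t957))))))))))))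
noncomputable def l32194 : Lb := (@Lb.r r21 (@Lb.d (nat_lit 129) (nat_lit 512) (nat_lit 130) (@Lb.g g8 (@Lb.g g10 (@Lb.g g11 (@Lb.r r419 (@Lb.r r1626 (@Lb.r r2341 (@Lb.r r1576 (@Lb.d (nat_lit 289) (nat_lit 138) (nat_lit 73) (@Lb.t (@Lb.fm (nat_lit 9) t1354))))))))))))
noncomputable def l32195 : Lb := (@Lb.d (nat_lit 0) (nat_lit 514) (nat_lit 130) (@Lb.g g9 (@Lb.g g10 (@Lb.g g11 (@Lb.r r1443 (@Lb.r r1686 (@Lb.r r1313 (@Lb.r r1128 (@Lb.d (nat_lit 581) (nat_lit 129) (nat_lit 0) (@Lb.t (@Lb.fp (nat_lit 9) t4176)))))))))))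
noncomputable def l32196 : Lb := (@Lb.r r21 (@Lb.d (nat_lit 129) (nat_lit 512) (nat_lit 130) (@Lb.g g8 (@Lb.g g10 (@Lb.g g11 (@Lb.r r419 (@Lb.r r1172 (@Lb.r r2438 (@Lb.r r97 (@Lb.d (nat_lit 360) (nat_lit 33) (nat_lit 74) (@Lb.t (@Lb.fm (nat_lit 9) t5804))))))))))))
noncomputable def l32197 : Lb := (@Lb.r r82 (@Lb.r r283 (@Lb.d (nat_lit 130) (nat_lit 522) (nat_lit 0) (@Lb.g g8 (@Lb.g g9 (@Lb.r r1287 (@Lb.r r146 (@Lb.r r644 (@Lb.d (nat_lit 290) (nat_lit 2) (nat_lit 518) (@Lb.fp (nat_lit 3) t5805))))))))))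
noncomputable def l32198 : Lb := (@Lb.r r82 (@Lb.d (nat_lit 36) (nat_lit 264) (nat_lit 0) (@Lb.g g8 (@Lb.g g9 (@Lb.g g11 (@Lb.r r1635 (@Lb.r r582 (@Lb.r r2712 (@Lb.r r37 (@Lb.d (nat_lit 581) (nat_lit 37) (nat_lit 86) (@Lb.t (@Lb.fp (nat_lit 9) t1549))))))))))))
noncomputable def l32199 : Lb := (@Lb.d (nat_lit 517) (nat_lit 20) (nat_lit 321) (@Lb.r r2069 (@Lb.r r2344 (@Lb.r r386 (@Lb.g g11 (@Lb.g g5 (@Lb.g g4 (@Lb.d (nat_lit 73) (nat_lit 0) (nat_lit 512) (@Lb.r r98 (@Lb.t (@Lb.fm (nat_lit 9) t3858)))))))))))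
noncomputable def l32200 : Lb := (@Lb.d (nat_lit 6) (nat_lit 261) (nat_lit 128) (@Lb.g g8 (@Lb.g g9 (@Lb.g g10 (@Lb.g g11 (@Lb.r r1130 (@Lb.r r580 (@Lb.r r2471 (@Lb.r r409 (@Lb.r r2068 (@Lb.d (nat_lit 132) (nat_lit 1) (nat_lit 408) (@Lb.fp (nat_lit 9) t1919))))))))))))
noncomputable def l32201 : Lb := (@Lb.d (nat_lit 146) (nat_lit 258) (nat_lit 74) (@Lb.g g8 (@Lb.g g9 (@Lb.g g10 (@Lb.g g11 (@Lb.r r1706 (@Lb.r r1188 (@Lb.r r405 (@Lb.r r2339 (@Lb.d (nat_lit 24) (nat_lit 145) (nat_lit 325) (@Lb.fm (nat_lit 9) t5331)))))))))))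
noncomputable def l32202 : Lb := (@Lb.d (nat_lit 145) (nat_lit 258) (nat_lit 74) (@Lb.g g8 (@Lb.g g9 (@Lb.g g10 (@Lb.g g11 (@Lb.r r683 (@Lb.r r610 (@Lb.r r1561 (@Lb.r r1540 (@Lb.d (nat_lit 288) (nat_lit 24) (nat_lit 533) (@Lb.fm (nat_lit 9) t5587)))))))))))
noncomputable def l32203 : Lb := (@Lb.d (nat_lit 146) (nat_lit 514) (nat_lit 128) (@Lb.g g8 (@Lb.g g9 (@Lb.g g10 (@Lb.g g11 (@Lb.r r356 (@Lb.r r666 (@Lb.r r1435 (@Lb.r r1113 (@Lb.r r2068 (@Lb.d (nat_lit 360) (nat_lit 106) (nat_lit 644) (@Lb.fm (nat_lit 9) t5806))))))))))))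
noncomputable def l32204 : Lb := (@Lb.d (nat_lit 33) (nat_lit 258) (nat_lit 130) (@Lb.g g8 (@Lb.g g9 (@Lb.g g10 (@Lb.g g11 (@Lb.r r2731 (@Lb.r r680 (@Lb.r r138 (@Lb.r r97 (@Lb.r r1060 (@Lb.d (nat_lit 272) (nat_lit 101) (nat_lit 145) (@Lb.fp (nat_lit 9) t467))))))))))))
noncomputable def l32205 : Lb := (@Lb.r r21 (@Lb.d (nat_lit 408) (nat_lit 0) (nat_lit 128) (@Lb.g g8 (@Lb.g g10 (@Lb.g g11 (@Lb.r r387 (@Lb.r r101 (@Lb.r r2450 (@Lb.d (nat_lit 2) (nat_lit 85) (nat_lit 514) (@Lb.t (@Lb.fm (nat_lit 9) t2605)))))))))))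
noncomputable def l32206 : Lb := (@Lb.d (nat_lit 138) (nat_lit 512) (nat_lit 0) (@Lb.g g8 (@Lb.r r678 (@Lb.r r661 (@Lb.r r1431 (@Lb.r r2664 (@Lb.d (nat_lit 354) (nat_lit 26) (nat_lit 258) (@Lb.t (@Lb.fp (nat_lit 3) t71)))))))))
noncomputable def l32207 : Lb := (@Lb.d (nat_lit 2) (nat_lit 2) (nat_lit 130) (@Lb.g g8 (@Lb.g g9 (@Lb.g g10 (@Lb.g g11 (@Lb.r r273 (@Lb.r r2475 (@Lb.r r2440 (@Lb.r r2122 (@Lb.d (nat_lit 88) (nat_lit 161) (nat_lit 648) (@Lb.fm (nat_lit 9) t1042)))))))))))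
noncomputable def l32208 : Lb := (@Lb.d (nat_lit 138) (nat_lit 256) (nat_lit 0) (@Lb.g g8 (@Lb.r r678 (@Lb.r r661 (@Lb.r r1431 (@Lb.r r2664 (@Lb.d (nat_lit 356) (nat_lit 24) (nat_lit 258) (@Lb.t (@Lb.fp (nat_lit 3) t71)))))))))
noncomputable def l32209 : Lb := (@Lb.d (nat_lit 130) (nat_lit 294) (nat_lit 0) (@Lb.g g8 (@Lb.g g9 (@Lb.r r1559 (@Lb.r r2376 (@Lb.r r134 (@Lb.d (nat_lit 17) (nat_lit 66) (nat_lit 600) (@Lb.fp (nat_lit 3) t2113))))))))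
noncomputable def l32210 : Lb := (@Lb.r r283 (@Lb.d (nat_lit 132) (nat_lit 261) (nat_lit 0) (@Lb.g g8 (@Lb.g g9 (@Lb.g g10 (@Lb.r r98 (@Lb.r r1385 (@Lb.r r2647 (@Lb.r r2404 (@Lb.d (nat_lit 592) (nat_lit 104) (nat_lit 42) (@Lb.t (@Lb.fm (nat_lit 9) t5807))))))))))))
noncomputable def l32211 : Lb := (@Lb.d (nat_lit 0) (nat_lit 514) (nat_lit 2) (@Lb.g g8 (@Lb.g g9 (@Lb.g g10 (@Lb.r r515 (@Lb.r r145 (@Lb.r r100 (@Lb.r r2202 (@Lb.r r2180 (@Lb.d (nat_lit 9) (nat_lit 18) (nat_lit 594) (@Lb.t (@Lb.fm (nat_lit 9) t5808))))))))))))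
noncomputable def l32212 : Lb := (@Lb.r r323 (@Lb.d (nat_lit 0) (nat_lit 260) (nat_lit 0) (@Lb.g g9 (@Lb.g g10 (@Lb.r r1363 (@Lb.r r2210 (@Lb.r r145 (@Lb.d (nat_lit 273) (nat_lit 73) (nat_lit 65) (@Lb.fp (nat_lit 3) t5809)))))))))
noncomputable def l32213 : Lb := (@Lb.d (nat_lit 272) (nat_lit 2) (nat_lit 0) (@Lb.g g8 (@Lb.g g9 (@Lb.g g10 (@Lb.r r2731 (@Lb.r r1642 (@Lb.r r25 (@Lb.d (nat_lit 10) (nat_lit 153) (nat_lit 9) (@Lb.t (@Lb.fp (nat_lit 9) t5810))))))))))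
noncomputable def l32214 : Lb := (@Lb.d (nat_lit 18) (nat_lit 512) (nat_lit 66) (@Lb.g g8 (@Lb.g g10 (@Lb.g g11 (@Lb.r r610 (@Lb.r r2659 (@Lb.r r1129 (@Lb.r r2340 (@Lb.d (nat_lit 649) (nat_lit 98) (nat_lit 512) (@Lb.t (@Lb.fm (nat_lit 9) t2606)))))))))))
noncomputable def l32215 : Lb := (@Lb.d (nat_lit 8) (nat_lit 265) (nat_lit 130) (@Lb.g g9 (@Lb.g g10 (@Lb.g g11 (@Lb.r r1638 (@Lb.d (nat_lit 666) (nat_lit 36) (nat_lit 154) (@Lb.t (@Lb.fm (nat_lit 9) t5811))))))))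
noncomputable def l32216 : Lb := (@Lb.d (nat_lit 2) (nat_lit 2) (nat_lit 2) (@Lb.g g8 (@Lb.g g9 (@Lb.g g10 (@Lb.r r683 (@Lb.r r2666 (@Lb.r r2585 (@Lb.r r2564 (@Lb.d (nat_lit 417) (nat_lit 10) (nat_lit 384) (@Lb.t (@Lb.fp (nat_lit 9) t5812)))))))))))
noncomputable def l32217 : Lb := (@Lb.d (nat_lit 32) (nat_lit 34) (nat_lit 66) (@Lb.g g9 (@Lb.g g10 (@Lb.g g11 (@Lb.r r324 (@Lb.r r2587 (@Lb.r r1433 (@Lb.r r410 (@Lb.d (nat_lit 585) (nat_lit 26) (nat_lit 581) (@Lb.t (@Lb.fm (nat_lit 9) t5813)))))))))))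
noncomputable def l32218 : Lb := (@Lb.d (nat_lit 2) (nat_lit 2) (nat_lit 74) (@Lb.g g8 (@Lb.g g9 (@Lb.g g10 (@Lb.g g11 (@Lb.r r674 (@Lb.r r391 (@Lb.r r2585 (@Lb.r r2564 (@Lb.d (nat_lit 672) (nat_lit 130) (nat_lit 416) (@Lb.fm (nat_lit 9) t5814)))))))))))
noncomputable def l32219 : Lb := (@Lb.r r21 (@Lb.d (nat_lit 645) (nat_lit 256) (nat_lit 66) (@Lb.g g8 (@Lb.g g10 (@Lb.g g11 (@Lb.r r2459 (@Lb.r r106 (@Lb.r r97 (@Lb.d (nat_lit 21) (nat_lit 165) (nat_lit 146) (@Lb.t (@Lb.fp (nat_lit 9) t5815)))))))))))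
noncomputable def l32220 : Lb := (@Lb.d (nat_lit 1) (nat_lit 8) (nat_lit 130) (@Lb.g g8 (@Lb.g g10 (@Lb.g g11 (@Lb.r r353 (@Lb.r r667 (@Lb.r r664 (@Lb.r r154 (@Lb.d (nat_lit 18) (nat_lit 0) (nat_lit 137) (@Lb.t (@Lb.fm (nat_lit 9) t45)))))))))))
noncomputable def l32221 : Lb := (@Lb.d (nat_lit 0) (nat_lit 0) (nat_lit 73) (@Lb.g g10 (@Lb.g g11 (@Lb.r r2726 (@Lb.r r2705 (@Lb.r r2587 (@Lb.d (nat_lit 384) (nat_lit 160) (nat_lit 586) (@Lb.fm (nat_lit 3) t521))))))))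
noncomputable def l32222 : Lb := (@Lb.d (nat_lit 281) (nat_lit 288) (nat_lit 73) (@Lb.g g4 (@Lb.g g9 (@Lb.g g10 (@Lb.g g11 (@Lb.r r1411 (@Lb.r r2706 (@Lb.r r529 (@Lb.d (nat_lit 1) (nat_lit 66) (nat_lit 584) (@Lb.fp (nat_lit 9) t2017))))))))))
noncomputable def l32223 : Lb := (@Lb.d (nat_lit 1) (nat_lit 264) (nat_lit 130) (@Lb.g g8 (@Lb.g g10 (@Lb.g g11 (@Lb.r r353 (@Lb.r r667 (@Lb.r r664 (@Lb.r r154 (@Lb.d (nat_lit 25) (nat_lit 2) (nat_lit 137) (@Lb.t (@Lb.fm (nat_lit 9) t45)))))))))))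
noncomputable def l32224 : Lb := (@Lb.d (nat_lit 8) (nat_lit 32) (nat_lit 130) (@Lb.g g8 (@Lb.g g9 (@Lb.g g10 (@Lb.g g11 (@Lb.r r2666 (@Lb.r r2657 (@Lb.r r1315 (@Lb.d (nat_lit 520) (nat_lit 166) (nat_lit 518) (@Lb.fm (nat_lit 9) t495))))))))))
noncomputable def l32225 : Lb := (@Lb.d (nat_lit 576) (nat_lit 672) (nat_lit 416) (@Lb.r r101 (@Lb.g g7 (@Lb.t (@Lb.fp (nat_lit 3) t4062)))))
noncomputable def l32226 : Lb := (@Lb.d (nat_lit 144) (nat_lit 521) (nat_lit 2) (@Lb.g g8 (@Lb.g g9 (@Lb.g g10 (@Lb.r r1667 (@Lb.r r2217 (@Lb.r r2666 (@Lb.r r1128 (@Lb.d (nat_lit 164) (nat_lit 138) (nat_lit 601) (@Lb.t (@Lb.fp (nat_lit 9) t1161)))))))))))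
noncomputable def l32227 : Lb := (@Lb.d (nat_lit 2) (nat_lit 521) (nat_lit 129) (@Lb.g g8 (@Lb.g g9 (@Lb.g g10 (@Lb.g g11 (@Lb.r r2722 (@Lb.r r2467 (@Lb.r r292 (@Lb.r r405 (@Lb.r r2084 (@Lb.d (nat_lit 102) (nat_lit 74) (nat_lit 601) (@Lb.fm (nat_lit 9) t5816))))))))))))
noncomputable def l32228 : Lb := (@Lb.d (nat_lit 2) (nat_lit 521) (nat_lit 129) (@Lb.g g8 (@Lb.g g9 (@Lb.g g10 (@Lb.g g11 (@Lb.r r162 (@Lb.r r552 (@Lb.r r665 (@Lb.r r539 (@Lb.r r516 (@Lb.d (nat_lit 10) (nat_lit 73) (nat_lit 73) (@Lb.fm (nat_lit 9) t641))))))))))))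
noncomputable def l32229 : Lb := (@Lb.d (nat_lit 2) (nat_lit 9) (nat_lit 1) (@Lb.g g8 (@Lb.g g9 (@Lb.g g10 (@Lb.g g11 (@Lb.r r162 (@Lb.r r660 (@Lb.r r425 (@Lb.r r279 (@Lb.r r548 (@Lb.d (nat_lit 0) (nat_lit 10) (nat_lit 73) (@Lb.fp (nat_lit 9) t98))))))))))))
noncomputable def l32230 : Lb := (@Lb.d (nat_lit 0) (nat_lit 256) (nat_lit 130) (@Lb.g g10 (@Lb.g g11 (@Lb.r r1350 (@Lb.r r387 (@Lb.r r2577 (@Lb.r r2564 (@Lb.d (nat_lit 576) (nat_lit 0) (nat_lit 69) (@Lb.fm (nat_lit 3) t504)))))))))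
noncomputable def l32231 : Lb := (@Lb.d (nat_lit 2) (nat_lit 545) (nat_lit 128) (@Lb.g g8 (@Lb.g g9 (@Lb.g g11 (@Lb.r r548 (@Lb.r r1383 (@Lb.r r2178 (@Lb.r r1317 (@Lb.r r516 (@Lb.d (nat_lit 533) (nat_lit 8) (nat_lit 154) (@Lb.t (@Lb.fm (nat_lit 9) t5445))))))))))))
noncomputable def l32232 : Lb := (@Lb.d (nat_lit 0) (nat_lit 36) (nat_lit 529) (@Lb.r r354 (@Lb.r r1427 (@Lb.g g10 (@Lb.g g5 (@Lb.fp (nat_lit 3) t87))))))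
noncomputable def l32233 : Lb := (@Lb.d (nat_lit 421) (nat_lit 581) (nat_lit 321) (@Lb.r r1684 (@Lb.r r345 (@Lb.g g7 (@Lb.g g4 (@Lb.d (nat_lit 68) (nat_lit 0) (nat_lit 576) (@Lb.fm (nat_lit 3) t5392)))))))
noncomputable def l32234 : Lb := (@Lb.d (nat_lit 128) (nat_lit 512) (nat_lit 644) (@Lb.g g11 (@Lb.r r2178 (@Lb.r r1557 (@Lb.r r1416 (@Lb.d (nat_lit 528) (nat_lit 0) (nat_lit 128) (@Lb.t (@Lb.fp (nat_lit 3) t1743))))))))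
noncomputable def l32235 : Lb := (@Lb.d (nat_lit 421) (nat_lit 325) (nat_lit 321) (@Lb.r r1684 (@Lb.r r345 (@Lb.g g7 (@Lb.g g4 (@Lb.d (nat_lit 69) (nat_lit 0) (nat_lit 576) (@Lb.fm (nat_lit 3) t3861)))))))
noncomputable def l32236 : Lb := (@Lb.d (nat_lit 1) (nat_lit 514) (nat_lit 130) (@Lb.g g8 (@Lb.g g9 (@Lb.g g10 (@Lb.g g11 (@Lb.r r427 (@Lb.r r424 (@Lb.r r106 (@Lb.r r97 (@Lb.d (nat_lit 296) (nat_lit 9) (nat_lit 168) (@Lb.fp (nat_lit 9) t3056)))))))))))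
noncomputable def l32237 : Lb := (@Lb.d (nat_lit 128) (nat_lit 258) (nat_lit 130) (@Lb.g g9 (@Lb.g g10 (@Lb.g g11 (@Lb.r r264 (@Lb.r r519 (@Lb.r r106 (@Lb.r r97 (@Lb.d (nat_lit 424) (nat_lit 9) (nat_lit 37) (@Lb.t (@Lb.fp (nat_lit 9) t5736)))))))))))
noncomputable def l32238 : Lb := (@Lb.d (nat_lit 42) (nat_lit 256) (nat_lit 0) (@Lb.g g4 (@Lb.r r2217 (@Lb.r r1194 (@Lb.r r1704 (@Lb.r r1291 (@Lb.d (nat_lit 2) (nat_lit 165) (nat_lit 584) (@Lb.t (@Lb.fp (nat_lit 3) t322)))))))))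
noncomputable def l32239 : Lb := (@Lb.d (nat_lit 106) (nat_lit 41) (nat_lit 33) (@Lb.r r408 (@Lb.r r330 (@Lb.r r407 (@Lb.g g7 (@Lb.g g5 (@Lb.g g4 (@Lb.d (nat_lit 24) (nat_lit 0) (nat_lit 64) (@Lb.r r98 (@Lb.t (@Lb.fm (nat_lit 9) t1412)))))))))))
noncomputable def l32240 : Lb := (@Lb.r r323 (@Lb.d (nat_lit 138) (nat_lit 512) (nat_lit 18) (@Lb.g g8 (@Lb.g g10 (@Lb.r r615 (@Lb.r r533 (@Lb.r r1060 (@Lb.d (nat_lit 266) (nat_lit 137) (nat_lit 401) (@Lb.fp (nat_lit 3) t2910)))))))))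
noncomputable def l32241 : Lb := (@Lb.d (nat_lit 0) (nat_lit 322) (nat_lit 73) (@Lb.g g4 (@Lb.g g9 (@Lb.g g10 (@Lb.g g11 (@Lb.r r2658 (@Lb.r r579 (@Lb.d (nat_lit 0) (nat_lit 97) (nat_lit 586) (@Lb.fp (nat_lit 9) t51)))))))))
noncomputable def l32242 : Lb := (@Lb.d (nat_lit 128) (nat_lit 0) (nat_lit 64) (@Lb.g g11 (@Lb.r r1045 (@Lb.r r344 (@Lb.r r598 (@Lb.r r2647 (@Lb.d (nat_lit 662) (nat_lit 70) (nat_lit 138) (@Lb.t (@Lb.fp (nat_lit 3) t430)))))))))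
noncomputable def l32243 : Lb := (@Lb.d (nat_lit 0) (nat_lit 1) (nat_lit 2) (@Lb.g g9 (@Lb.g g10 (@Lb.g g7 (@Lb.r r593 (@Lb.r r2466 (@Lb.r r145 (@Lb.d (nat_lit 0) (nat_lit 166) (nat_lit 546) (@Lb.t (@Lb.fm (nat_lit 9) t1487))))))))))
noncomputable def l32244 : Lb := (@Lb.r r322 (@Lb.d (nat_lit 128) (nat_lit 545) (nat_lit 72) (@Lb.g g9 (@Lb.g g11 (@Lb.r r410 (@Lb.r r424 (@Lb.r r599 (@Lb.d (nat_lit 150) (nat_lit 32) (nat_lit 17) (@Lb.fp (nat_lit 3) t726)))))))))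
noncomputable def l32245 : Lb := (@Lb.r r323 (@Lb.d (nat_lit 2) (nat_lit 553) (nat_lit 1) (@Lb.g g8 (@Lb.g g9 (@Lb.g g10 (@Lb.r r599 (@Lb.r r392 (@Lb.r r74 (@Lb.d (nat_lit 17) (nat_lit 2) (nat_lit 17) (@Lb.t (@Lb.fm (nat_lit 9) t41)))))))))))
noncomputable def l32246 : Lb := (@Lb.d (nat_lit 530) (nat_lit 593) (nat_lit 662) (@Lb.r r1634 (@Lb.r r617 (@Lb.r r1559 (@Lb.g g7 (@Lb.g g6 (@Lb.g g5 (@Lb.g g4 (@Lb.d (nat_lit 1) (nat_lit 6) (nat_lit 132) (@Lb.fp (nat_lit 9) t501))))))))))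
noncomputable def l32247 : Lb := (@Lb.d (nat_lit 33) (nat_lit 2) (nat_lit 73) (@Lb.g g8 (@Lb.g g9 (@Lb.g g10 (@Lb.g g11 (@Lb.r r419 (@Lb.r r1177 (@Lb.r r1626 (@Lb.r r1540 (@Lb.d (nat_lit 406) (nat_lit 5) (nat_lit 616) (@Lb.fp (nat_lit 9) t321)))))))))))
noncomputable def l32248 : Lb := (@Lb.r r21 (@Lb.r r323 (@Lb.d (nat_lit 138) (nat_lit 512) (nat_lit 2) (@Lb.g g8 (@Lb.g g10 (@Lb.r r2394 (@Lb.r r1685 (@Lb.r r1559 (@Lb.r r2312 (@Lb.d (nat_lit 386) (nat_lit 134) (nat_lit 640) (@Lb.fm (nat_lit 3) t295)))))))))))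
noncomputable def l32249 : Lb := (@Lb.d (nat_lit 40) (nat_lit 257) (nat_lit 73) (@Lb.g g8 (@Lb.g g9 (@Lb.g g10 (@Lb.g g11 (@Lb.r r419 (@Lb.r r1177 (@Lb.r r1626 (@Lb.r r1540 (@Lb.d (nat_lit 406) (nat_lit 5) (nat_lit 616) (@Lb.fp (nat_lit 9) t321)))))))))))
noncomputable def l32250 : Lb := (@Lb.d (nat_lit 389) (nat_lit 646) (nat_lit 86) (@Lb.r r584 (@Lb.r r1170 (@Lb.r r2401 (@Lb.r r1675 (@Lb.g g6 (@Lb.g g5 (@Lb.g g4 (@Lb.d (nat_lit 32) (nat_lit 1) (nat_lit 0) (@Lb.t (@Lb.fp (nat_lit 9) t320)))))))))))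
noncomputable def l32251 : Lb := (@Lb.d (nat_lit 609) (nat_lit 0) (nat_lit 645) (@Lb.r r24 (@Lb.r r603 (@Lb.r r2406 (@Lb.r r357 (@Lb.g g7 (@Lb.d (nat_lit 0) (nat_lit 16) (nat_lit 128) (@Lb.t (@Lb.fp (nat_lit 3) t271)))))))))
noncomputable def l32252 : Lb := (@Lb.g g7 (@Lb.r r24 (@Lb.r r101 (@Lb.r r402 (@Lb.d (nat_lit 0) (nat_lit 261) (nat_lit 86) (@Lb.t (@Lb.fp (nat_lit 3) t590)))))))
noncomputable def l32253 : Lb := (@Lb.d (nat_lit 0) (nat_lit 8) (nat_lit 2) (@Lb.g g10 (@Lb.g g7 (@Lb.d (nat_lit 0) (nat_lit 90) (nat_lit 521) (@Lb.fp (nat_lit 3) t387)))))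
noncomputable def l32254 : Lb := (@Lb.d (nat_lit 2) (nat_lit 2) (nat_lit 104) (@Lb.g g8 (@Lb.g g9 (@Lb.g g6 (@Lb.g g11 (@Lb.r r579 (@Lb.r r1313 (@Lb.r r24 (@Lb.d (nat_lit 10) (nat_lit 161) (nat_lit 154) (@Lb.fp (nat_lit 9) t351))))))))))
noncomputable def l32255 : Lb := (@Lb.d (nat_lit 154) (nat_lit 358) (nat_lit 294) (@Lb.r r2450 (@Lb.r r1621 (@Lb.r r1627 (@Lb.r r516 (@Lb.g g7 (@Lb.g g6 (@Lb.d (nat_lit 80) (nat_lit 0) (nat_lit 134) (@Lb.fm (nat_lit 3) t150)))))))))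
noncomputable def l32256 : Lb := (@Lb.d (nat_lit 0) (nat_lit 2) (nat_lit 66) (@Lb.g g8 (@Lb.g g9 (@Lb.g g10 (@Lb.g g7 (@Lb.r r386 (@Lb.r r2153 (@Lb.r r2120 (@Lb.d (nat_lit 618) (nat_lit 130) (nat_lit 521) (@Lb.fp (nat_lit 9) t1150))))))))))
noncomputable def l32257 : Lb := (@Lb.d (nat_lit 676) (nat_lit 282) (nat_lit 70) (@Lb.r r422 (@Lb.r r88 (@Lb.r r1363 (@Lb.g g7 (@Lb.g g6 (@Lb.g g5 (@Lb.d (nat_lit 16) (nat_lit 129) (nat_lit 134) (@Lb.t (@Lb.fp (nat_lit 9) t242))))))))))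
noncomputable def l32258 : Lb := (@Lb.d (nat_lit 298) (nat_lit 69) (nat_lit 0) (@Lb.r r1113 (@Lb.r r2136 (@Lb.g g11 (@Lb.g g6 (@Lb.g g5 (@Lb.d (nat_lit 4) (nat_lit 6) (nat_lit 1) (@Lb.t (@Lb.fp (nat_lit 9) t1219)))))))))
noncomputable def l32259 : Lb := (@Lb.d (nat_lit 80) (nat_lit 517) (nat_lit 530) (@Lb.r r2068 (@Lb.r r89 (@Lb.r r20 (@Lb.r r2466 (@Lb.g g11 (@Lb.g g6 (@Lb.g g5 (@Lb.g g4 (@Lb.d (nat_lit 1) (nat_lit 6) (nat_lit 73) (@Lb.fp (nat_lit 9) t232)))))))))))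
noncomputable def l32260 : Lb := (@Lb.d (nat_lit 1) (nat_lit 512) (nat_lit 0) (@Lb.g g4 (@Lb.r r2579 (@Lb.r r2341 (@Lb.r r2136 (@Lb.r r1158 (@Lb.t (@Lb.fm (nat_lit 3) t296))))))))
noncomputable def l32261 : Lb := (@Lb.d (nat_lit 0) (nat_lit 1) (nat_lit 66) (@Lb.g g8 (@Lb.g g9 (@Lb.g g10 (@Lb.g g7 (@Lb.r r386 (@Lb.r r105 (@Lb.r r2120 (@Lb.d (nat_lit 101) (nat_lit 65) (nat_lit 521) (@Lb.fp (nat_lit 9) t1150))))))))))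
noncomputable def l32262 : Lb := (@Lb.d (nat_lit 513) (nat_lit 512) (nat_lit 384) (@Lb.r r24 (@Lb.r r101 (@Lb.r r402 (@Lb.g g11 (@Lb.g g6 (@Lb.g g4 (@Lb.d (nat_lit 1) (nat_lit 0) (nat_lit 0) (@Lb.t (@Lb.fp (nat_lit 9) t393))))))))))
noncomputable def l32263 : Lb := (@Lb.d (nat_lit 70) (nat_lit 545) (nat_lit 133) (@Lb.r r597 (@Lb.r r599 (@Lb.r r264 (@Lb.r r166 (@Lb.g g7 (@Lb.g g6 (@Lb.g g5 (@Lb.d (nat_lit 68) (nat_lit 6) (nat_lit 66) (@Lb.t (@Lb.fm (nat_lit 9) t145)))))))))))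
noncomputable def l32264 : Lb := (@Lb.d (nat_lit 512) (nat_lit 0) (nat_lit 384) (@Lb.r r24 (@Lb.r r101 (@Lb.r r402 (@Lb.g g11 (@Lb.g g4 (@Lb.d (nat_lit 1) (nat_lit 0) (nat_lit 0) (@Lb.fm (nat_lit 3) t150))))))))
noncomputable def l32265 : Lb := (@Lb.d (nat_lit 0) (nat_lit 256) (nat_lit 66) (@Lb.g g10 (@Lb.g g11 (@Lb.r r586 (@Lb.r r584 (@Lb.r r619 (@Lb.r r609 (@Lb.d (nat_lit 9) (nat_lit 1) (nat_lit 85) (@Lb.fp (nat_lit 3) t479)))))))))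
noncomputable def l32266 : Lb := (@Lb.d (nat_lit 0) (nat_lit 512) (nat_lit 66) (@Lb.g g10 (@Lb.g g11 (@Lb.r r586 (@Lb.r r584 (@Lb.r r619 (@Lb.r r609 (@Lb.d (nat_lit 9) (nat_lit 1) (nat_lit 21) (@Lb.fp (nat_lit 3) t479)))))))))
noncomputable def l32267 : Lb := (@Lb.d (nat_lit 9) (nat_lit 672) (nat_lit 5) (@Lb.r r1563 (@Lb.r r1688 (@Lb.r r1690 (@Lb.g g6 (@Lb.g g9 (@Lb.g g4 (@Lb.d (nat_lit 1) (nat_lit 1) (nat_lit 1) (@Lb.r r291 (@Lb.t (@Lb.fp (nat_lit 9) t422)))))))))))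
noncomputable def l32268 : Lb := (@Lb.d (nat_lit 8) (nat_lit 514) (nat_lit 66) (@Lb.g g8 (@Lb.g g9 (@Lb.g g10 (@Lb.g g7 (@Lb.r r386 (@Lb.r r2145 (@Lb.r r24 (@Lb.d (nat_lit 9) (nat_lit 73) (nat_lit 169) (@Lb.fp (nat_lit 9) t319))))))))))
noncomputable def l32269 : Lb := (@Lb.d (nat_lit 4) (nat_lit 256) (nat_lit 0) (@Lb.g g8 (@Lb.g g9 (@Lb.g g11 (@Lb.r r516 (@Lb.r r343 (@Lb.r r2178 (@Lb.r r1553 (@Lb.r r2084 (@Lb.d (nat_lit 0) (nat_lit 0) (nat_lit 666) (@Lb.t (@Lb.fp (nat_lit 9) t296))))))))))))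
noncomputable def l32270 : Lb := (@Lb.d (nat_lit 4) (nat_lit 0) (nat_lit 0) (@Lb.g g8 (@Lb.g g9 (@Lb.g g11 (@Lb.r r516 (@Lb.r r343 (@Lb.r r2178 (@Lb.r r1553 (@Lb.r r2084 (@Lb.d (nat_lit 2) (nat_lit 10) (nat_lit 665) (@Lb.t (@Lb.fp (nat_lit 9) t296))))))))))))
noncomputable def l32271 : Lb := (@Lb.d (nat_lit 2) (nat_lit 516) (nat_lit 0) (@Lb.g g8 (@Lb.g g9 (@Lb.g g10 (@Lb.r r515 (@Lb.r r145 (@Lb.r r356 (@Lb.r r154 (@Lb.r r132 (@Lb.d (nat_lit 9) (nat_lit 18) (nat_lit 133) (@Lb.t (@Lb.fm (nat_lit 9) t1871))))))))))))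
noncomputable def l32272 : Lb := (@Lb.d (nat_lit 4) (nat_lit 548) (nat_lit 128) (@Lb.g g8 (@Lb.g g9 (@Lb.g g10 (@Lb.g g11 (@Lb.r r683 (@Lb.r r1642 (@Lb.r r1561 (@Lb.d (nat_lit 586) (nat_lit 98) (nat_lit 402) (@Lb.fm (nat_lit 9) t958))))))))))
noncomputable def l32273 : Lb := (@Lb.d (nat_lit 1) (nat_lit 261) (nat_lit 168) (@Lb.r r1635 (@Lb.r r601 (@Lb.r r2136 (@Lb.r r1158 (@Lb.g g7 (@Lb.g g5 (@Lb.g g8 (@Lb.t (@Lb.fp (nat_lit 9) t2911))))))))))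
noncomputable def l32274 : Lb := (@Lb.d (nat_lit 34) (nat_lit 0) (nat_lit 0) (@Lb.g g8 (@Lb.g g9 (@Lb.r r1683 (@Lb.r r594 (@Lb.r r341 (@Lb.r r612 (@Lb.d (nat_lit 665) (nat_lit 21) (nat_lit 153) (@Lb.fp (nat_lit 3) t592)))))))))
noncomputable def l32275 : Lb := (@Lb.d (nat_lit 1) (nat_lit 5) (nat_lit 102) (@Lb.r r1635 (@Lb.r r601 (@Lb.r r2132 (@Lb.r r1162 (@Lb.g g5 (@Lb.g g4 (@Lb.d (nat_lit 1) (nat_lit 0) (nat_lit 0) (@Lb.fm (nat_lit 3) t249)))))))))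
noncomputable def l32276 : Lb := (@Lb.r r323 (@Lb.d (nat_lit 130) (nat_lit 34) (nat_lit 2) (@Lb.g g8 (@Lb.g g9 (@Lb.g g10 (@Lb.r r2387 (@Lb.r r1382 (@Lb.r r404 (@Lb.r r105 (@Lb.d (nat_lit 545) (nat_lit 132) (nat_lit 145) (@Lb.t (@Lb.fp (nat_lit 9) t1146))))))))))))
noncomputable def l32277 : Lb := (@Lb.d (nat_lit 2) (nat_lit 514) (nat_lit 4) (@Lb.g g8 (@Lb.g g9 (@Lb.g g10 (@Lb.g g11 (@Lb.r r343 (@Lb.r r1382 (@Lb.r r88 (@Lb.r r37 (@Lb.d (nat_lit 9) (nat_lit 161) (nat_lit 674) (@Lb.fp (nat_lit 9) t5817)))))))))))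
noncomputable def l32278 : Lb := (@Lb.d (nat_lit 0) (nat_lit 266) (nat_lit 0) (@Lb.g g9 (@Lb.r r2451 (@Lb.r r402 (@Lb.r r2641 (@Lb.r r2628 (@Lb.d (nat_lit 0) (nat_lit 166) (nat_lit 417) (@Lb.t (@Lb.fm (nat_lit 3) t2505)))))))))
noncomputable def l32279 : Lb := (@Lb.d (nat_lit 1) (nat_lit 545) (nat_lit 130) (@Lb.g g8 (@Lb.g g9 (@Lb.g g10 (@Lb.g g11 (@Lb.r r2666 (@Lb.r r2664 (@Lb.r r267 (@Lb.r r2577 (@Lb.d (nat_lit 129) (nat_lit 24) (nat_lit 514) (@Lb.fm (nat_lit 9) t948)))))))))))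
noncomputable def l32280 : Lb := (@Lb.r r275 (@Lb.d (nat_lit 2) (nat_lit 0) (nat_lit 10) (@Lb.g g8 (@Lb.g g9 (@Lb.g g10 (@Lb.r r595 (@Lb.r r1177 (@Lb.r r1684 (@Lb.r r1606 (@Lb.d (nat_lit 134) (nat_lit 8) (nat_lit 664) (@Lb.t (@Lb.fp (nat_lit 9) t357))))))))))))
noncomputable def l32281 : Lb := (@Lb.r r275 (@Lb.d (nat_lit 641) (nat_lit 2) (nat_lit 2) (@Lb.g g4 (@Lb.g g9 (@Lb.g g10 (@Lb.r r2651 (@Lb.r r98 (@Lb.r r101 (@Lb.d (nat_lit 281) (nat_lit 85) (nat_lit 81) (@Lb.t (@Lb.fp (nat_lit 9) t3053)))))))))))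
noncomputable def l32282 : Lb := (@Lb.d (nat_lit 2) (nat_lit 258) (nat_lit 4) (@Lb.g g8 (@Lb.g g9 (@Lb.g g10 (@Lb.g g11 (@Lb.r r343 (@Lb.r r1382 (@Lb.r r88 (@Lb.r r37 (@Lb.d (nat_lit 2) (nat_lit 162) (nat_lit 674) (@Lb.fp (nat_lit 9) t5817)))))))))))
noncomputable def l32283 : Lb := (@Lb.r r275 (@Lb.d (nat_lit 129) (nat_lit 256) (nat_lit 2) (@Lb.g g8 (@Lb.g g9 (@Lb.g g10 (@Lb.r r2722 (@Lb.r r2467 (@Lb.r r2345 (@Lb.r r2084 (@Lb.d (nat_lit 522) (nat_lit 73) (nat_lit 674) (@Lb.t (@Lb.fm (nat_lit 9) t5650))))))))))))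
noncomputable def l32284 : Lb := (@Lb.d (nat_lit 32) (nat_lit 516) (nat_lit 74) (@Lb.g g9 (@Lb.g g10 (@Lb.g g11 (@Lb.r r2709 (@Lb.r r1380 (@Lb.r r2715 (@Lb.r r2634 (@Lb.d (nat_lit 354) (nat_lit 10) (nat_lit 257) (@Lb.t (@Lb.fp (nat_lit 9) t1298)))))))))))
noncomputable def l32285 : Lb := (@Lb.d (nat_lit 2) (nat_lit 516) (nat_lit 74) (@Lb.g g8 (@Lb.g g9 (@Lb.g g10 (@Lb.g g11 (@Lb.r r1699 (@Lb.r r1160 (@Lb.r r1610 (@Lb.r r37 (@Lb.d (nat_lit 610) (nat_lit 149) (nat_lit 422) (@Lb.fm (nat_lit 9) t865)))))))))))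
noncomputable def l32286 : Lb := (@Lb.d (nat_lit 642) (nat_lit 258) (nat_lit 66) (@Lb.g g8 (@Lb.g g9 (@Lb.g g10 (@Lb.g g11 (@Lb.r r1451 (@Lb.r r106 (@Lb.r r25 (@Lb.d (nat_lit 277) (nat_lit 6) (nat_lit 409) (@Lb.fp (nat_lit 9) t5818))))))))))
noncomputable def l32287 : Lb := (@Lb.r r82 (@Lb.d (nat_lit 34) (nat_lit 545) (nat_lit 64) (@Lb.g g8 (@Lb.g g9 (@Lb.g g11 (@Lb.r r1571 (@Lb.r r582 (@Lb.r r1445 (@Lb.r r408 (@Lb.d (nat_lit 346) (nat_lit 26) (nat_lit 422) (@Lb.t (@Lb.fp (nat_lit 9) t865))))))))))))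
noncomputable def l32288 : Lb := (@Lb.d (nat_lit 150) (nat_lit 146) (nat_lit 401) (@Lb.r r1604 (@Lb.r r2645 (@Lb.r r2730 (@Lb.g g11 (@Lb.g g6 (@Lb.g g5 (@Lb.g g4 (@Lb.d (nat_lit 6) (nat_lit 1) (nat_lit 129) (@Lb.fp (nat_lit 9) t741))))))))))
noncomputable def l32289 : Lb := (@Lb.d (nat_lit 144) (nat_lit 514) (nat_lit 64) (@Lb.g g8 (@Lb.g g9 (@Lb.g g10 (@Lb.g g11 (@Lb.r r427 (@Lb.r r1602 (@Lb.r r409 (@Lb.r r388 (@Lb.d (nat_lit 105) (nat_lit 33) (nat_lit 74) (@Lb.fp (nat_lit 9) t394)))))))))))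
noncomputable def l32290 : Lb := (@Lb.r r323 (@Lb.d (nat_lit 2) (nat_lit 34) (nat_lit 2) (@Lb.g g8 (@Lb.g g9 (@Lb.g g10 (@Lb.r r599 (@Lb.r r420 (@Lb.r r102 (@Lb.d (nat_lit 596) (nat_lit 137) (nat_lit 681) (@Lb.t (@Lb.fp (nat_lit 9) t5819)))))))))))
noncomputable def l32291 : Lb := (@Lb.r r21 (@Lb.d (nat_lit 386) (nat_lit 264) (nat_lit 130) (@Lb.g g8 (@Lb.g g10 (@Lb.g g11 (@Lb.r r1419 (@Lb.r r101 (@Lb.r r410 (@Lb.d (nat_lit 9) (nat_lit 149) (nat_lit 514) (@Lb.t (@Lb.fm (nat_lit 9) t1606)))))))))))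
noncomputable def l32292 : Lb := (@Lb.r r24 (@Lb.r r101 (@Lb.d (nat_lit 280) (nat_lit 90) (nat_lit 282) (@Lb.fp (nat_lit 1) t1174))))
noncomputable def l32293 : Lb := (@Lb.d (nat_lit 2) (nat_lit 258) (nat_lit 66) (@Lb.g g8 (@Lb.g g9 (@Lb.g g10 (@Lb.g g7 (@Lb.r r386 (@Lb.r r97 (@Lb.r r2584 (@Lb.d (nat_lit 650) (nat_lit 169) (nat_lit 393) (@Lb.fp (nat_lit 9) t3305))))))))))
noncomputable def l32294 : Lb := (@Lb.d (nat_lit 4) (nat_lit 672) (nat_lit 640) (@Lb.r r273 (@Lb.r r2178 (@Lb.r r2595 (@Lb.r r529 (@Lb.g g8 (@Lb.d (nat_lit 322) (nat_lit 0) (nat_lit 0) (@Lb.t (@Lb.fp (nat_lit 3) t3352)))))))))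
noncomputable def l32295 : Lb := (@Lb.r r21 (@Lb.r r322 (@Lb.d (nat_lit 644) (nat_lit 512) (nat_lit 0) (@Lb.g g4 (@Lb.g g7 (@Lb.r r2405 (@Lb.r r146 (@Lb.d (nat_lit 1) (nat_lit 0) (nat_lit 322) (@Lb.fm (nat_lit 3) t3512)))))))))
noncomputable def l32296 : Lb := (@Lb.d (nat_lit 4) (nat_lit 10) (nat_lit 72) (@Lb.g g8 (@Lb.g g9 (@Lb.g g10 (@Lb.g g11 (@Lb.r r2691 (@Lb.r r297 (@Lb.r r360 (@Lb.r r582 (@Lb.r r2180 (@Lb.d (nat_lit 641) (nat_lit 0) (nat_lit 330) (@Lb.fm (nat_lit 9) t98))))))))))))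
noncomputable def l32297 : Lb := (@Lb.d (nat_lit 1) (nat_lit 521) (nat_lit 72) (@Lb.g g8 (@Lb.g g9 (@Lb.g g10 (@Lb.g g11 (@Lb.r r1559 (@Lb.r r2146 (@Lb.r r2457 (@Lb.r r2436 (@Lb.d (nat_lit 388) (nat_lit 132) (nat_lit 408) (@Lb.fm (nat_lit 9) t4468)))))))))))
noncomputable def l32298 : Lb := (@Lb.r r331 (@Lb.d (nat_lit 0) (nat_lit 9) (nat_lit 34) (@Lb.g g8 (@Lb.g g9 (@Lb.g g10 (@Lb.r r1577 (@Lb.r r1643 (@Lb.r r596 (@Lb.d (nat_lit 657) (nat_lit 0) (nat_lit 354) (@Lb.t (@Lb.fm (nat_lit 9) t5820)))))))))))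
noncomputable def l32299 : Lb := (@Lb.r r322 (@Lb.d (nat_lit 2) (nat_lit 289) (nat_lit 516) (@Lb.g g8 (@Lb.g g9 (@Lb.g g7 (@Lb.r r418 (@Lb.r r2088 (@Lb.r r2201 (@Lb.d (nat_lit 594) (nat_lit 132) (nat_lit 593) (@Lb.t (@Lb.fp (nat_lit 9) t5821)))))))))))
noncomputable def l32300 : Lb := (@Lb.d (nat_lit 1) (nat_lit 36) (nat_lit 401) (@Lb.r r2450 (@Lb.r r101 (@Lb.r r2331 (@Lb.g g6 (@Lb.g g4 (@Lb.d (nat_lit 612) (nat_lit 0) (nat_lit 0) (@Lb.r r25 (@Lb.fm (nat_lit 3) t5678)))))))))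
noncomputable def l32301 : Lb := (@Lb.r r82 (@Lb.r r275 (@Lb.d (nat_lit 0) (nat_lit 165) (nat_lit 0) (@Lb.g g5 (@Lb.r r1379 (@Lb.r r146 (@Lb.d (nat_lit 5) (nat_lit 9) (nat_lit 614) (@Lb.t (@Lb.fp (nat_lit 3) t5822)))))))))
noncomputable def l32302 : Lb := (@Lb.d (nat_lit 9) (nat_lit 288) (nat_lit 145) (@Lb.g g8 (@Lb.g g9 (@Lb.g g10 (@Lb.g g11 (@Lb.r r1415 (@Lb.r r1688 (@Lb.r r85 (@Lb.d (nat_lit 290) (nat_lit 41) (nat_lit 658) (@Lb.fm (nat_lit 9) t5823))))))))))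
noncomputable def l32303 : Lb := (@Lb.d (nat_lit 134) (nat_lit 529) (nat_lit 17) (@Lb.g g8 (@Lb.g g9 (@Lb.g g10 (@Lb.g g11 (@Lb.r r1415 (@Lb.r r1561 (@Lb.r r1636 (@Lb.d (nat_lit 417) (nat_lit 22) (nat_lit 664) (@Lb.fp (nat_lit 9) t5823))))))))))
noncomputable def l32304 : Lb := (@Lb.d (nat_lit 160) (nat_lit 2) (nat_lit 1) (@Lb.g g9 (@Lb.g g10 (@Lb.g g11 (@Lb.r r533 (@Lb.r r292 (@Lb.r r1371 (@Lb.r r2658 (@Lb.d (nat_lit 294) (nat_lit 152) (nat_lit 617) (@Lb.t (@Lb.fm (nat_lit 9) t240)))))))))))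
noncomputable def l32305 : Lb := (@Lb.d (nat_lit 9) (nat_lit 544) (nat_lit 128) (@Lb.g g8 (@Lb.g g9 (@Lb.g g11 (@Lb.r r2375 (@Lb.r r2178 (@Lb.r r1688 (@Lb.r r85 (@Lb.d (nat_lit 289) (nat_lit 41) (nat_lit 641) (@Lb.t (@Lb.fm (nat_lit 9) t4532)))))))))))
noncomputable def l32306 : Lb := (@Lb.d (nat_lit 8) (nat_lit 522) (nat_lit 0) (@Lb.g g5 (@Lb.r r2311 (@Lb.r r1192 (@Lb.r r1450 (@Lb.r r2473 (@Lb.d (nat_lit 666) (nat_lit 153) (nat_lit 85) (@Lb.t (@Lb.fp (nat_lit 3) t386)))))))))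
noncomputable def l32307 : Lb := (@Lb.d (nat_lit 128) (nat_lit 4) (nat_lit 128) (@Lb.g g8 (@Lb.g g9 (@Lb.g g10 (@Lb.g g11 (@Lb.r r683 (@Lb.r r2724 (@Lb.r r1158 (@Lb.r r97 (@Lb.d (nat_lit 33) (nat_lit 105) (nat_lit 673) (@Lb.fm (nat_lit 9) t1144)))))))))))
noncomputable def l32308 : Lb := (@Lb.r r2311 (@Lb.r r152 (@Lb.r r410 (@Lb.r r2645 (@Lb.r r1060 (@Lb.d (nat_lit 608) (nat_lit 512) (nat_lit 85) (@Lb.fp (nat_lit 1) t386)))))))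
noncomputable def l32309 : Lb := (@Lb.d (nat_lit 9) (nat_lit 258) (nat_lit 66) (@Lb.g g8 (@Lb.g g9 (@Lb.g g10 (@Lb.g g7 (@Lb.r r386 (@Lb.r r2145 (@Lb.r r1304 (@Lb.d (nat_lit 10) (nat_lit 153) (nat_lit 553) (@Lb.fp (nat_lit 9) t4822))))))))))
noncomputable def l32310 : Lb := (@Lb.r r21 (@Lb.d (nat_lit 129) (nat_lit 0) (nat_lit 258) (@Lb.g g8 (@Lb.g g10 (@Lb.g g7 (@Lb.r r386 (@Lb.r r1128 (@Lb.r r25 (@Lb.d (nat_lit 610) (nat_lit 74) (nat_lit 536) (@Lb.t (@Lb.fp (nat_lit 9) t3022)))))))))))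
noncomputable def l32311 : Lb := (@Lb.d (nat_lit 9) (nat_lit 257) (nat_lit 130) (@Lb.g g8 (@Lb.g g9 (@Lb.g g10 (@Lb.g g11 (@Lb.r r2666 (@Lb.r r2664 (@Lb.r r2347 (@Lb.r r2337 (@Lb.d (nat_lit 9) (nat_lit 33) (nat_lit 586) (@Lb.fp (nat_lit 9) t51)))))))))))
noncomputable def l32312 : Lb := (@Lb.d (nat_lit 2) (nat_lit 2) (nat_lit 130) (@Lb.g g8 (@Lb.g g9 (@Lb.g g10 (@Lb.g g11 (@Lb.r r2666 (@Lb.r r579 (@Lb.r r97 (@Lb.r r24 (@Lb.d (nat_lit 361) (nat_lit 2) (nat_lit 553) (@Lb.fm (nat_lit 9) t263)))))))))))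
noncomputable def l32313 : Lb := (@Lb.r r273 (@Lb.r r2595 (@Lb.r r2178 (@Lb.r r529 (@Lb.r r1156 (@Lb.d (nat_lit 0) (nat_lit 522) (nat_lit 34) (@Lb.fp (nat_lit 1) t2551)))))))
noncomputable def l32314 : Lb := (@Lb.d (nat_lit 2) (nat_lit 258) (nat_lit 132) (@Lb.g g8 (@Lb.g g9 (@Lb.g g10 (@Lb.g g7 (@Lb.r r2410 (@Lb.r r100 (@Lb.r r21 (@Lb.r r36 (@Lb.d (nat_lit 393) (nat_lit 89) (nat_lit 642) (@Lb.fm (nat_lit 9) t240)))))))))))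
noncomputable def l32315 : Lb := (@Lb.d (nat_lit 2) (nat_lit 258) (nat_lit 130) (@Lb.g g8 (@Lb.g g9 (@Lb.g g10 (@Lb.g g11 (@Lb.r r2411 (@Lb.r r424 (@Lb.r r106 (@Lb.r r25 (@Lb.d (nat_lit 354) (nat_lit 85) (nat_lit 422) (@Lb.fm (nat_lit 9) t5824)))))))))))
noncomputable def l32316 : Lb := (@Lb.d (nat_lit 96) (nat_lit 258) (nat_lit 9) (@Lb.g g8 (@Lb.g g9 (@Lb.g g10 (@Lb.g g11 (@Lb.r r2691 (@Lb.r r1193 (@Lb.r r1642 (@Lb.r r596 (@Lb.d (nat_lit 598) (nat_lit 17) (nat_lit 516) (@Lb.fp (nat_lit 9) t2175)))))))))))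
noncomputable def l32317 : Lb := (@Lb.d (nat_lit 2) (nat_lit 2) (nat_lit 73) (@Lb.g g8 (@Lb.g g9 (@Lb.g g10 (@Lb.g g11 (@Lb.r r2705 (@Lb.r r535 (@Lb.r r2440 (@Lb.r r2458 (@Lb.d (nat_lit 409) (nat_lit 85) (nat_lit 642) (@Lb.fm (nat_lit 9) t1721)))))))))))
noncomputable def l32318 : Lb := (@Lb.r r331 (@Lb.d (nat_lit 1) (nat_lit 514) (nat_lit 2) (@Lb.g g8 (@Lb.g g9 (@Lb.g g10 (@Lb.r r1378 (@Lb.r r1419 (@Lb.r r296 (@Lb.r r25 (@Lb.d (nat_lit 354) (nat_lit 97) (nat_lit 656) (@Lb.t (@Lb.fp (nat_lit 9) t3407))))))))))))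
noncomputable def l32319 : Lb := (@Lb.r r331 (@Lb.d (nat_lit 1) (nat_lit 2) (nat_lit 2) (@Lb.g g8 (@Lb.g g9 (@Lb.g g10 (@Lb.r r1378 (@Lb.r r1419 (@Lb.r r296 (@Lb.r r25 (@Lb.d (nat_lit 354) (nat_lit 104) (nat_lit 658) (@Lb.t (@Lb.fp (nat_lit 9) t3985))))))))))))
noncomputable def l32320 : Lb := (@Lb.d (nat_lit 145) (nat_lit 512) (nat_lit 130) (@Lb.g g8 (@Lb.g g10 (@Lb.g g11 (@Lb.r r2375 (@Lb.r r1610 (@Lb.r r341 (@Lb.r r2724 (@Lb.d (nat_lit 548) (nat_lit 150) (nat_lit 10) (@Lb.t (@Lb.fm (nat_lit 9) t5825)))))))))))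
noncomputable def l32321 : Lb := (@Lb.d (nat_lit 2) (nat_lit 258) (nat_lit 130) (@Lb.g g8 (@Lb.g g9 (@Lb.g g10 (@Lb.g g11 (@Lb.r r2411 (@Lb.r r424 (@Lb.r r106 (@Lb.r r25 (@Lb.d (nat_lit 362) (nat_lit 84) (nat_lit 422) (@Lb.fm (nat_lit 9) t5824)))))))))))
noncomputable def l32322 : Lb := (@Lb.d (nat_lit 32) (nat_lit 264) (nat_lit 130) (@Lb.g g10 (@Lb.g g11 (@Lb.r r361 (@Lb.r r2711 (@Lb.r r1352 (@Lb.r r1382 (@Lb.d (nat_lit 341) (nat_lit 34) (nat_lit 40) (@Lb.fp (nat_lit 3) t71)))))))))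
noncomputable def l32323 : Lb := (@Lb.d (nat_lit 5) (nat_lit 421) (nat_lit 550) (@Lb.r r37 (@Lb.r r88 (@Lb.r r323 (@Lb.g g10 (@Lb.d (nat_lit 0) (nat_lit 0) (nat_lit 18) (@Lb.r r387 (@Lb.r r145 (@Lb.t (@Lb.fp (nat_lit 3) t5826))))))))))
noncomputable def l32324 : Lb := (@Lb.d (nat_lit 0) (nat_lit 514) (nat_lit 130) (@Lb.g g8 (@Lb.g g9 (@Lb.g g10 (@Lb.g g11 (@Lb.r r1602 (@Lb.r r548 (@Lb.r r615 (@Lb.r r533 (@Lb.r r2084 (@Lb.d (nat_lit 146) (nat_lit 73) (nat_lit 329) (@Lb.fm (nat_lit 9) t229))))))))))))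
noncomputable def l32325 : Lb := (@Lb.d (nat_lit 0) (nat_lit 512) (nat_lit 130) (@Lb.g g8 (@Lb.g g10 (@Lb.g g11 (@Lb.r r586 (@Lb.r r584 (@Lb.r r619 (@Lb.r r609 (@Lb.d (nat_lit 9) (nat_lit 1) (nat_lit 21) (@Lb.t (@Lb.fp (nat_lit 9) t479)))))))))))
noncomputable def l32326 : Lb := (@Lb.d (nat_lit 400) (nat_lit 0) (nat_lit 289) (@Lb.g g7 (@Lb.g g9 (@Lb.d (nat_lit 0) (nat_lit 0) (nat_lit 132) (@Lb.fp (nat_lit 3) t1165)))))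
noncomputable def l32327 : Lb := (@Lb.d (nat_lit 146) (nat_lit 258) (nat_lit 394) (@Lb.g g8 (@Lb.g g9 (@Lb.g g10 (@Lb.g g7 (@Lb.r r418 (@Lb.r r36 (@Lb.r r2197 (@Lb.r r2084 (@Lb.d (nat_lit 273) (nat_lit 138) (nat_lit 288) (@Lb.fp (nat_lit 9) t5584)))))))))))
noncomputable def l32328 : Lb := (@Lb.r r323 (@Lb.d (nat_lit 0) (nat_lit 512) (nat_lit 10) (@Lb.g g9 (@Lb.g g10 (@Lb.r r595 (@Lb.r r338 (@Lb.d (nat_lit 292) (nat_lit 5) (nat_lit 42) (@Lb.fp (nat_lit 3) t4055))))))))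
noncomputable def l32329 : Lb := (@Lb.d (nat_lit 150) (nat_lit 513) (nat_lit 534) (@Lb.r r1045 (@Lb.r r386 (@Lb.r r343 (@Lb.g g6 (@Lb.g g5 (@Lb.g g4 (@Lb.d (nat_lit 1) (nat_lit 0) (nat_lit 1) (@Lb.r r291 (@Lb.t (@Lb.fm (nat_lit 9) t2663)))))))))))
noncomputable def l32330 : Lb := (@Lb.r r1617 (@Lb.d (nat_lit 400) (nat_lit 512) (nat_lit 641) (@Lb.fp (nat_lit 1) t5827)))
noncomputable def l32331 : Lb := (@Lb.d (nat_lit 5) (nat_lit 1) (nat_lit 602) (@Lb.r r1617 (@Lb.g g10 (@Lb.d (nat_lit 0) (nat_lit 0) (nat_lit 10) (@Lb.t (@Lb.fp (nat_lit 3) t3336))))))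
noncomputable def l32332 : Lb := (@Lb.d (nat_lit 353) (nat_lit 152) (nat_lit 294) (@Lb.r r1045 (@Lb.r r418 (@Lb.r r343 (@Lb.g g6 (@Lb.g g5 (@Lb.g g4 (@Lb.d (nat_lit 1) (nat_lit 5) (nat_lit 0) (@Lb.r r355 (@Lb.t (@Lb.fm (nat_lit 9) t1348)))))))))))
noncomputable def l32333 : Lb := (@Lb.r r82 (@Lb.d (nat_lit 128) (nat_lit 290) (nat_lit 328) (@Lb.g g9 (@Lb.g g11 (@Lb.r r2458 (@Lb.r r101 (@Lb.d (nat_lit 86) (nat_lit 4) (nat_lit 674) (@Lb.fm (nat_lit 3) t5828))))))))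
noncomputable def l32334 : Lb := (@Lb.r r323 (@Lb.d (nat_lit 2) (nat_lit 2) (nat_lit 2) (@Lb.g g8 (@Lb.g g9 (@Lb.g g10 (@Lb.r r401 (@Lb.r r299 (@Lb.r r392 (@Lb.r r74 (@Lb.d (nat_lit 33) (nat_lit 129) (nat_lit 72) (@Lb.t (@Lb.fp (nat_lit 9) t5829))))))))))))
noncomputable def l32335 : Lb := (@Lb.d (nat_lit 17) (nat_lit 514) (nat_lit 128) (@Lb.g g8 (@Lb.g g9 (@Lb.g g10 (@Lb.g g11 (@Lb.r r1369 (@Lb.r r2471 (@Lb.r r1640 (@Lb.r r2182 (@Lb.d (nat_lit 553) (nat_lit 90) (nat_lit 152) (@Lb.fp (nat_lit 9) t329)))))))))))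
noncomputable def l32336 : Lb := (@Lb.d (nat_lit 0) (nat_lit 289) (nat_lit 132) (@Lb.g g8 (@Lb.g g9 (@Lb.g g10 (@Lb.g g11 (@Lb.r r1699 (@Lb.r r610 (@Lb.r r36 (@Lb.r r2581 (@Lb.r r2084 (@Lb.d (nat_lit 673) (nat_lit 162) (nat_lit 81) (@Lb.fm (nat_lit 9) t3572))))))))))))
noncomputable def l32337 : Lb := (@Lb.d (nat_lit 1) (nat_lit 265) (nat_lit 169) (@Lb.r r154 (@Lb.r r664 (@Lb.r r411 (@Lb.g g9 (@Lb.d (nat_lit 0) (nat_lit 169) (nat_lit 0) (@Lb.r r36 (@Lb.t (@Lb.fp (nat_lit 3) t2492)))))))))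
noncomputable def l32338 : Lb := (@Lb.d (nat_lit 0) (nat_lit 545) (nat_lit 132) (@Lb.g g8 (@Lb.g g9 (@Lb.g g10 (@Lb.g g11 (@Lb.r r1699 (@Lb.r r610 (@Lb.r r36 (@Lb.r r2581 (@Lb.r r2084 (@Lb.d (nat_lit 672) (nat_lit 162) (nat_lit 81) (@Lb.fm (nat_lit 9) t208))))))))))))
noncomputable def l32339 : Lb := (@Lb.d (nat_lit 9) (nat_lit 33) (nat_lit 130) (@Lb.g g8 (@Lb.g g9 (@Lb.g g10 (@Lb.g g11 (@Lb.r r1287 (@Lb.r r1194 (@Lb.r r401 (@Lb.r r1544 (@Lb.d (nat_lit 170) (nat_lit 25) (nat_lit 362) (@Lb.fp (nat_lit 9) t5830)))))))))))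
noncomputable def l32340 : Lb := (@Lb.d (nat_lit 517) (nat_lit 384) (nat_lit 0) (@Lb.r r2584 (@Lb.r r1414 (@Lb.r r2331 (@Lb.g g9 (@Lb.g g4 (@Lb.d (nat_lit 0) (nat_lit 18) (nat_lit 0) (@Lb.fp (nat_lit 3) t1048))))))))
noncomputable def l32341 : Lb := (@Lb.d (nat_lit 82) (nat_lit 597) (nat_lit 384) (@Lb.r r1361 (@Lb.r r2438 (@Lb.r r2379 (@Lb.r r344 (@Lb.g g7 (@Lb.g g6 (@Lb.g g5 (@Lb.d (nat_lit 4) (nat_lit 5) (nat_lit 130) (@Lb.t (@Lb.fp (nat_lit 9) t5506)))))))))))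
noncomputable def l32342 : Lb := (@Lb.r r322 (@Lb.d (nat_lit 0) (nat_lit 514) (nat_lit 576) (@Lb.g g8 (@Lb.g g9 (@Lb.g g7 (@Lb.r r105 (@Lb.r r406 (@Lb.r r1096 (@Lb.d (nat_lit 362) (nat_lit 2) (nat_lit 89) (@Lb.t (@Lb.fm (nat_lit 9) t807)))))))))))
noncomputable def l32343 : Lb := (@Lb.d (nat_lit 144) (nat_lit 0) (nat_lit 384) (@Lb.g g8 (@Lb.g g10 (@Lb.g g11 (@Lb.r r1602 (@Lb.r r2457 (@Lb.r r388 (@Lb.d (nat_lit 354) (nat_lit 0) (nat_lit 394) (@Lb.t (@Lb.fm (nat_lit 9) t979))))))))))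
noncomputable def l32344 : Lb := (@Lb.d (nat_lit 149) (nat_lit 0) (nat_lit 128) (@Lb.g g8 (@Lb.g g9 (@Lb.g g10 (@Lb.g g11 (@Lb.r r1666 (@Lb.r r1431 (@Lb.r r2657 (@Lb.r r1048 (@Lb.d (nat_lit 553) (nat_lit 153) (nat_lit 41) (@Lb.fm (nat_lit 9) t5527)))))))))))
noncomputable def l32345 : Lb := (@Lb.r r82 (@Lb.d (nat_lit 132) (nat_lit 0) (nat_lit 384) (@Lb.g g8 (@Lb.g g9 (@Lb.g g11 (@Lb.r r610 (@Lb.r r529 (@Lb.r r292 (@Lb.d (nat_lit 74) (nat_lit 34) (nat_lit 640) (@Lb.t (@Lb.fm (nat_lit 9) t4875)))))))))))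
noncomputable def l32346 : Lb := (@Lb.g g8 (@Lb.g g7 (@Lb.r r101 (@Lb.r r24 (@Lb.d (nat_lit 17) (nat_lit 256) (nat_lit 133) (@Lb.fp (nat_lit 3) t40))))))
noncomputable def l32347 : Lb := (@Lb.r r21 (@Lb.d (nat_lit 144) (nat_lit 512) (nat_lit 324) (@Lb.g g8 (@Lb.g g10 (@Lb.g g7 (@Lb.r r1450 (@Lb.r r1177 (@Lb.r r2584 (@Lb.d (nat_lit 273) (nat_lit 105) (nat_lit 100) (@Lb.t (@Lb.fp (nat_lit 9) t5831)))))))))))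
noncomputable def l32348 : Lb := (@Lb.d (nat_lit 0) (nat_lit 512) (nat_lit 2) (@Lb.g g8 (@Lb.g g9 (@Lb.g g10 (@Lb.g g7 (@Lb.r r386 (@Lb.r r101 (@Lb.r r24 (@Lb.d (nat_lit 354) (nat_lit 0) (nat_lit 585) (@Lb.fp (nat_lit 9) t166))))))))))
noncomputable def l32349 : Lb := (@Lb.d (nat_lit 8) (nat_lit 546) (nat_lit 0) (@Lb.g g9 (@Lb.r r283 (@Lb.r r1414 (@Lb.r r276 (@Lb.r r2409 (@Lb.d (nat_lit 422) (nat_lit 154) (nat_lit 330) (@Lb.t (@Lb.fp (nat_lit 3) t334)))))))))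
noncomputable def l32350 : Lb := (@Lb.d (nat_lit 2) (nat_lit 256) (nat_lit 0) (@Lb.g g8 (@Lb.r r2603 (@Lb.r r81 (@Lb.r r162 (@Lb.r r145 (@Lb.r r2648 (@Lb.d (nat_lit 613) (nat_lit 37) (nat_lit 420) (@Lb.t (@Lb.fm (nat_lit 3) t4461))))))))))
noncomputable def l32351 : Lb := (@Lb.d (nat_lit 132) (nat_lit 514) (nat_lit 130) (@Lb.g g8 (@Lb.g g9 (@Lb.g g10 (@Lb.g g11 (@Lb.r r2730 (@Lb.r r1411 (@Lb.r r164 (@Lb.r r1061 (@Lb.d (nat_lit 105) (nat_lit 73) (nat_lit 169) (@Lb.fp (nat_lit 9) t1039)))))))))))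
noncomputable def l32352 : Lb := (@Lb.d (nat_lit 130) (nat_lit 256) (nat_lit 0) (@Lb.g g4 (@Lb.r r555 (@Lb.r r402 (@Lb.r r609 (@Lb.r r148 (@Lb.d (nat_lit 20) (nat_lit 73) (nat_lit 146) (@Lb.t (@Lb.fp (nat_lit 3) t334)))))))))
noncomputable def l32353 : Lb := (@Lb.d (nat_lit 1) (nat_lit 105) (nat_lit 132) (@Lb.r r82 (@Lb.r r417 (@Lb.g g11 (@Lb.g g6 (@Lb.g g4 (@Lb.d (nat_lit 8) (nat_lit 0) (nat_lit 129) (@Lb.r r25 (@Lb.t (@Lb.fp (nat_lit 9) t714))))))))))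
noncomputable def l32354 : Lb := (@Lb.d (nat_lit 645) (nat_lit 40) (nat_lit 104) (@Lb.r r24 (@Lb.r r1362 (@Lb.r r2209 (@Lb.r r2691 (@Lb.g g7 (@Lb.g g6 (@Lb.g g5 (@Lb.d (nat_lit 0) (nat_lit 1) (nat_lit 134) (@Lb.t (@Lb.fm (nat_lit 9) t2210)))))))))))
noncomputable def l32355 : Lb := (@Lb.g g5 (@Lb.r r2148 (@Lb.d (nat_lit 292) (nat_lit 278) (nat_lit 296) (@Lb.t (@Lb.fm (nat_lit 3) t5832)))))
noncomputable def l32356 : Lb := (@Lb.d (nat_lit 9) (nat_lit 257) (nat_lit 130) (@Lb.g g8 (@Lb.g g9 (@Lb.g g10 (@Lb.g g11 (@Lb.r r1571 (@Lb.r r1633 (@Lb.r r2458 (@Lb.r r2436 (@Lb.d (nat_lit 297) (nat_lit 66) (nat_lit 90) (@Lb.fm (nat_lit 9) t1165)))))))))))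
noncomputable def l32357 : Lb := (@Lb.d (nat_lit 9) (nat_lit 256) (nat_lit 0) (@Lb.g g8 (@Lb.r r277 (@Lb.r r363 (@Lb.r r356 (@Lb.r r586 (@Lb.d (nat_lit 10) (nat_lit 9) (nat_lit 84) (@Lb.t (@Lb.fp (nat_lit 3) t221)))))))))
noncomputable def l32358 : Lb := (@Lb.d (nat_lit 2) (nat_lit 258) (nat_lit 66) (@Lb.g g8 (@Lb.g g9 (@Lb.g g10 (@Lb.g g7 (@Lb.r r386 (@Lb.r r100 (@Lb.r r21 (@Lb.r r36 (@Lb.d (nat_lit 578) (nat_lit 10) (nat_lit 537) (@Lb.fp (nat_lit 9) t1641)))))))))))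
noncomputable def l32359 : Lb := (@Lb.d (nat_lit 2) (nat_lit 2) (nat_lit 66) (@Lb.g g8 (@Lb.g g9 (@Lb.g g10 (@Lb.g g7 (@Lb.r r386 (@Lb.r r100 (@Lb.r r21 (@Lb.r r36 (@Lb.d (nat_lit 576) (nat_lit 10) (nat_lit 537) (@Lb.fp (nat_lit 9) t1641)))))))))))
noncomputable def l32360 : Lb := (@Lb.d (nat_lit 9) (nat_lit 513) (nat_lit 130) (@Lb.g g8 (@Lb.g g9 (@Lb.g g10 (@Lb.g g11 (@Lb.r r1571 (@Lb.r r1633 (@Lb.r r2458 (@Lb.r r2436 (@Lb.d (nat_lit 292) (nat_lit 65) (nat_lit 90) (@Lb.fm (nat_lit 9) t1165)))))))))))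
noncomputable def l32361 : Lb := (@Lb.d (nat_lit 537) (nat_lit 272) (nat_lit 640) (@Lb.g g4 (@Lb.g g11 (@Lb.r r2626 (@Lb.r r1633 (@Lb.d (nat_lit 1) (nat_lit 128) (nat_lit 549) (@Lb.fm (nat_lit 3) t790)))))))
noncomputable def l32362 : Lb := (@Lb.d (nat_lit 8) (nat_lit 258) (nat_lit 132) (@Lb.g g9 (@Lb.g g10 (@Lb.g g11 (@Lb.r r2587 (@Lb.r r1446 (@Lb.r r24 (@Lb.d (nat_lit 386) (nat_lit 2) (nat_lit 386) (@Lb.t (@Lb.fp (nat_lit 9) t441))))))))))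
noncomputable def l32363 : Lb := (@Lb.d (nat_lit 0) (nat_lit 321) (nat_lit 389) (@Lb.r r1284 (@Lb.r r322 (@Lb.r r659 (@Lb.r r578 (@Lb.g g5 (@Lb.g g4 (@Lb.d (nat_lit 0) (nat_lit 134) (nat_lit 0) (@Lb.fp (nat_lit 3) t1754)))))))))
noncomputable def l32364 : Lb := (@Lb.d (nat_lit 1) (nat_lit 258) (nat_lit 66) (@Lb.g g8 (@Lb.g g9 (@Lb.g g10 (@Lb.g g7 (@Lb.r r386 (@Lb.r r100 (@Lb.r r21 (@Lb.r r36 (@Lb.d (nat_lit 576) (nat_lit 10) (nat_lit 537) (@Lb.fp (nat_lit 9) t1641)))))))))))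
noncomputable def l32365 : Lb := (@Lb.d (nat_lit 0) (nat_lit 0) (nat_lit 72) (@Lb.g g11 (@Lb.r r1410 (@Lb.r r579 (@Lb.r r2193 (@Lb.r r2180 (@Lb.d (nat_lit 0) (nat_lit 0) (nat_lit 2) (@Lb.t (@Lb.fp (nat_lit 3) t40)))))))))
noncomputable def l32366 : Lb := (@Lb.d (nat_lit 146) (nat_lit 581) (nat_lit 362) (@Lb.r r1610 (@Lb.r r2667 (@Lb.r r661 (@Lb.g g7 (@Lb.g g6 (@Lb.g g8 (@Lb.d (nat_lit 354) (nat_lit 4) (nat_lit 128) (@Lb.r r25 (@Lb.t (@Lb.fp (nat_lit 9) t329)))))))))))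
noncomputable def l32367 : Lb := (@Lb.d (nat_lit 2) (nat_lit 545) (nat_lit 1) (@Lb.r r609 (@Lb.r r619 (@Lb.r r612 (@Lb.g g6 (@Lb.d (nat_lit 32) (nat_lit 4) (nat_lit 1) (@Lb.r r387 (@Lb.t (@Lb.fm (nat_lit 3) t264)))))))))
noncomputable def l32368 : Lb := (@Lb.d (nat_lit 2) (nat_lit 514) (nat_lit 130) (@Lb.g g8 (@Lb.g g9 (@Lb.g g10 (@Lb.g g11 (@Lb.r r427 (@Lb.r r388 (@Lb.r r70 (@Lb.r r153 (@Lb.r r132 (@Lb.d (nat_lit 9) (nat_lit 66) (nat_lit 16) (@Lb.fp (nat_lit 9) t1022))))))))))))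
noncomputable def l32369 : Lb := (@Lb.d (nat_lit 165) (nat_lit 85) (nat_lit 513) (@Lb.r r2584 (@Lb.r r2178 (@Lb.r r2587 (@Lb.g g7 (@Lb.g g9 (@Lb.g g4 (@Lb.d (nat_lit 0) (nat_lit 70) (nat_lit 64) (@Lb.t (@Lb.fp (nat_lit 9) t1063))))))))))
noncomputable def l32370 : Lb := (@Lb.d (nat_lit 165) (nat_lit 597) (nat_lit 513) (@Lb.r r2584 (@Lb.r r2178 (@Lb.r r2587 (@Lb.g g7 (@Lb.g g9 (@Lb.g g4 (@Lb.d (nat_lit 1) (nat_lit 70) (nat_lit 64) (@Lb.t (@Lb.fp (nat_lit 9) t1063))))))))))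
noncomputable def l32371 : Lb := (@Lb.d (nat_lit 2) (nat_lit 514) (nat_lit 1) (@Lb.g g8 (@Lb.g g9 (@Lb.g g10 (@Lb.r r2473 (@Lb.r r1623 (@Lb.r r2452 (@Lb.r r2134 (@Lb.d (nat_lit 0) (nat_lit 133) (nat_lit 72) (@Lb.t (@Lb.fm (nat_lit 9) t40)))))))))))
noncomputable def l32372 : Lb := (@Lb.d (nat_lit 10) (nat_lit 0) (nat_lit 73) (@Lb.g g8 (@Lb.g g10 (@Lb.g g11 (@Lb.r r289 (@Lb.r r279 (@Lb.r r2696 (@Lb.r r2122 (@Lb.d (nat_lit 273) (nat_lit 10) (nat_lit 6) (@Lb.t (@Lb.fm (nat_lit 9) t40)))))))))))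
noncomputable def l32373 : Lb := (@Lb.r r81 (@Lb.r r323 (@Lb.d (nat_lit 17) (nat_lit 264) (nat_lit 34) (@Lb.g g8 (@Lb.g g6 (@Lb.r r603 (@Lb.r r1553 (@Lb.r r2648 (@Lb.d (nat_lit 616) (nat_lit 68) (nat_lit 17) (@Lb.fp (nat_lit 3) t5833))))))))))
noncomputable def l32374 : Lb := (@Lb.d (nat_lit 0) (nat_lit 258) (nat_lit 130) (@Lb.g g8 (@Lb.g g9 (@Lb.g g10 (@Lb.g g11 (@Lb.r r2666 (@Lb.r r579 (@Lb.r r25 (@Lb.d (nat_lit 9) (nat_lit 97) (nat_lit 640) (@Lb.fm (nat_lit 9) t51))))))))))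
noncomputable def l32375 : Lb := (@Lb.d (nat_lit 0) (nat_lit 2) (nat_lit 130) (@Lb.g g8 (@Lb.g g9 (@Lb.g g10 (@Lb.g g11 (@Lb.r r1447 (@Lb.r r106 (@Lb.r r25 (@Lb.d (nat_lit 106) (nat_lit 9) (nat_lit 596) (@Lb.fp (nat_lit 9) t899))))))))))
noncomputable def l32376 : Lb := (@Lb.d (nat_lit 1) (nat_lit 1) (nat_lit 132) (@Lb.r r1158 (@Lb.r r2376 (@Lb.r r1559 (@Lb.g g5 (@Lb.g g4 (@Lb.d (nat_lit 2) (nat_lit 145) (nat_lit 0) (@Lb.r r291 (@Lb.r r98 (@Lb.fp (nat_lit 3) t594))))))))))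
noncomputable def l32377 : Lb := (@Lb.r r20 (@Lb.r r275 (@Lb.d (nat_lit 8) (nat_lit 36) (nat_lit 0) (@Lb.g g5 (@Lb.g g10 (@Lb.r r1174 (@Lb.r r2376 (@Lb.r r1543 (@Lb.d (nat_lit 578) (nat_lit 1) (nat_lit 69) (@Lb.fm (nat_lit 3) t74))))))))))
noncomputable def l32378 : Lb := (@Lb.d (nat_lit 2) (nat_lit 514) (nat_lit 2) (@Lb.g g8 (@Lb.g g9 (@Lb.g g10 (@Lb.g g11 (@Lb.r r2666 (@Lb.r r579 (@Lb.r r292 (@Lb.r r1045 (@Lb.r r2084 (@Lb.d (nat_lit 9) (nat_lit 33) (nat_lit 384) (@Lb.fm (nat_lit 9) t2542))))))))))))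
noncomputable def l32379 : Lb := (@Lb.d (nat_lit 336) (nat_lit 133) (nat_lit 290) (@Lb.r r20 (@Lb.r r2137 (@Lb.r r20 (@Lb.r r418 (@Lb.g g11 (@Lb.g g6 (@Lb.g g5 (@Lb.g g4 (@Lb.d (nat_lit 25) (nat_lit 10) (nat_lit 72) (@Lb.fp (nat_lit 9) t1233)))))))))))
noncomputable def l32380 : Lb := (@Lb.d (nat_lit 24) (nat_lit 512) (nat_lit 0) (@Lb.g g8 (@Lb.g g10 (@Lb.g g11 (@Lb.r r1381 (@Lb.r r1691 (@Lb.r r1610 (@Lb.r r584 (@Lb.d (nat_lit 97) (nat_lit 0) (nat_lit 2) (@Lb.t (@Lb.fp (nat_lit 9) t4963)))))))))))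
noncomputable def l32381 : Lb := (@Lb.r r21 (@Lb.r r70 (@Lb.d (nat_lit 32) (nat_lit 32) (nat_lit 128) (@Lb.g g8 (@Lb.g g7 (@Lb.r r2725 (@Lb.r r2471 (@Lb.r r2182 (@Lb.d (nat_lit 2) (nat_lit 26) (nat_lit 144) (@Lb.fp (nat_lit 3) t5650))))))))))
noncomputable def l32382 : Lb := (@Lb.r r21 (@Lb.d (nat_lit 33) (nat_lit 0) (nat_lit 1) (@Lb.g g8 (@Lb.g g10 (@Lb.g g11 (@Lb.r r651 (@Lb.r r644 (@Lb.r r134 (@Lb.r r25 (@Lb.d (nat_lit 17) (nat_lit 0) (nat_lit 136) (@Lb.t (@Lb.fm (nat_lit 9) t1074))))))))))))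
noncomputable def l32383 : Lb := (@Lb.r r21 (@Lb.r r70 (@Lb.d (nat_lit 34) (nat_lit 32) (nat_lit 0) (@Lb.g g8 (@Lb.g g11 (@Lb.r r2469 (@Lb.r r1627 (@Lb.r r2182 (@Lb.d (nat_lit 2) (nat_lit 32) (nat_lit 25) (@Lb.fp (nat_lit 3) t5650))))))))))
noncomputable def l32384 : Lb := (@Lb.d (nat_lit 8) (nat_lit 521) (nat_lit 128) (@Lb.g g9 (@Lb.g g11 (@Lb.r r410 (@Lb.r r1639 (@Lb.r r2452 (@Lb.r r1561 (@Lb.d (nat_lit 169) (nat_lit 98) (nat_lit 418) (@Lb.fm (nat_lit 3) t145)))))))))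
noncomputable def l32385 : Lb := (@Lb.r r322 (@Lb.d (nat_lit 34) (nat_lit 514) (nat_lit 68) (@Lb.g g8 (@Lb.g g9 (@Lb.g g7 (@Lb.r r2466 (@Lb.r r2345 (@Lb.r r1384 (@Lb.d (nat_lit 598) (nat_lit 170) (nat_lit 645) (@Lb.t (@Lb.fm (nat_lit 9) t145)))))))))))
noncomputable def l32386 : Lb := (@Lb.d (nat_lit 6) (nat_lit 682) (nat_lit 260) (@Lb.r r21 (@Lb.r r427 (@Lb.r r2454 (@Lb.g g7 (@Lb.g g6 (@Lb.g g5 (@Lb.g g4 (@Lb.d (nat_lit 1) (nat_lit 1) (nat_lit 1) (@Lb.fm (nat_lit 9) t647))))))))))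
noncomputable def l32387 : Lb := (@Lb.g g5 (@Lb.r r579 (@Lb.r r402 (@Lb.r r101 (@Lb.r r24 (@Lb.t (@Lb.fm (nat_lit 3) t145)))))))
noncomputable def l32388 : Lb := (@Lb.d (nat_lit 0) (nat_lit 320) (nat_lit 394) (@Lb.r r2341 (@Lb.r r24 (@Lb.g g10 (@Lb.t (@Lb.fp (nat_lit 3) t1644))))))
noncomputable def l32389 : Lb := (@Lb.d (nat_lit 2) (nat_lit 2) (nat_lit 132) (@Lb.g g8 (@Lb.g g9 (@Lb.g g10 (@Lb.g g7 (@Lb.r r2466 (@Lb.r r36 (@Lb.r r149 (@Lb.r r1060 (@Lb.d (nat_lit 289) (nat_lit 10) (nat_lit 97) (@Lb.fp (nat_lit 9) t145)))))))))))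
noncomputable def l32390 : Lb := (@Lb.d (nat_lit 150) (nat_lit 530) (nat_lit 342) (@Lb.r r358 (@Lb.r r1700 (@Lb.r r1701 (@Lb.r r1367 (@Lb.g g6 (@Lb.g g5 (@Lb.g g4 (@Lb.d (nat_lit 65) (nat_lit 1) (nat_lit 5) (@Lb.t (@Lb.fm (nat_lit 9) t145)))))))))))
noncomputable def l32391 : Lb := (@Lb.d (nat_lit 9) (nat_lit 289) (nat_lit 130) (@Lb.g g8 (@Lb.g g9 (@Lb.g g10 (@Lb.g g11 (@Lb.r r2344 (@Lb.r r1559 (@Lb.r r2465 (@Lb.r r98 (@Lb.d (nat_lit 517) (nat_lit 72) (nat_lit 537) (@Lb.fm (nat_lit 9) t5834)))))))))))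
noncomputable def l32392 : Lb := (@Lb.d (nat_lit 25) (nat_lit 289) (nat_lit 66) (@Lb.g g8 (@Lb.g g9 (@Lb.g g10 (@Lb.g g11 (@Lb.r r1415 (@Lb.r r1169 (@Lb.r r2454 (@Lb.r r612 (@Lb.d (nat_lit 416) (nat_lit 145) (nat_lit 136) (@Lb.fm (nat_lit 9) t5835)))))))))))
noncomputable def l32393 : Lb := (@Lb.r r277 (@Lb.d (nat_lit 257) (nat_lit 8) (nat_lit 137) (@Lb.g g4 (@Lb.g g10 (@Lb.g g11 (@Lb.r r1667 (@Lb.r r89 (@Lb.r r2658 (@Lb.d (nat_lit 328) (nat_lit 20) (nat_lit 169) (@Lb.t (@Lb.fm (nat_lit 9) t1120)))))))))))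
noncomputable def l32394 : Lb := (@Lb.r r20 (@Lb.d (nat_lit 4) (nat_lit 417) (nat_lit 66) (@Lb.g g9 (@Lb.g g10 (@Lb.g g11 (@Lb.r r2467 (@Lb.r r386 (@Lb.r r8 (@Lb.d (nat_lit 9) (nat_lit 134) (nat_lit 680) (@Lb.t (@Lb.fm (nat_lit 9) t2791)))))))))))
noncomputable def l32395 : Lb := (@Lb.d (nat_lit 73) (nat_lit 33) (nat_lit 73) (@Lb.g g8 (@Lb.g g9 (@Lb.g g10 (@Lb.g g11 (@Lb.r r1707 (@Lb.r r1193 (@Lb.r r2666 (@Lb.r r2632 (@Lb.d (nat_lit 165) (nat_lit 32) (nat_lit 384) (@Lb.fm (nat_lit 9) t1120)))))))))))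
noncomputable def l32396 : Lb := (@Lb.d (nat_lit 2) (nat_lit 257) (nat_lit 0) (@Lb.g g8 (@Lb.g g9 (@Lb.r r2347 (@Lb.r r153 (@Lb.r r1170 (@Lb.d (nat_lit 289) (nat_lit 0) (nat_lit 162) (@Lb.fp (nat_lit 3) t88))))))))
noncomputable def l32397 : Lb := (@Lb.r r323 (@Lb.d (nat_lit 2) (nat_lit 265) (nat_lit 1) (@Lb.g g8 (@Lb.g g9 (@Lb.g g10 (@Lb.r r2347 (@Lb.r r2154 (@Lb.r r25 (@Lb.d (nat_lit 9) (nat_lit 137) (nat_lit 146) (@Lb.t (@Lb.fm (nat_lit 9) t3616)))))))))))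
noncomputable def l32398 : Lb := (@Lb.r r323 (@Lb.d (nat_lit 25) (nat_lit 521) (nat_lit 2) (@Lb.g g8 (@Lb.g g9 (@Lb.g g10 (@Lb.r r666 (@Lb.r r2467 (@Lb.r r1064 (@Lb.r r2457 (@Lb.d (nat_lit 84) (nat_lit 5) (nat_lit 384) (@Lb.t (@Lb.fm (nat_lit 9) t1120))))))))))))
noncomputable def l32399 : Lb := (@Lb.r r323 (@Lb.d (nat_lit 2) (nat_lit 521) (nat_lit 1) (@Lb.g g8 (@Lb.g g9 (@Lb.g g10 (@Lb.r r2347 (@Lb.r r2154 (@Lb.r r25 (@Lb.d (nat_lit 9) (nat_lit 132) (nat_lit 145) (@Lb.t (@Lb.fm (nat_lit 9) t245)))))))))))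
noncomputable def l32400 : Lb := (@Lb.d (nat_lit 2) (nat_lit 514) (nat_lit 2) (@Lb.g g8 (@Lb.g g9 (@Lb.g g10 (@Lb.r r427 (@Lb.r r386 (@Lb.r r1129 (@Lb.r r1096 (@Lb.d (nat_lit 554) (nat_lit 70) (nat_lit 553) (@Lb.t (@Lb.fp (nat_lit 9) t5836)))))))))))
noncomputable def l32401 : Lb := (@Lb.d (nat_lit 8) (nat_lit 674) (nat_lit 81) (@Lb.r r2133 (@Lb.r r1634 (@Lb.r r583 (@Lb.r r264 (@Lb.g g7 (@Lb.g g6 (@Lb.g g5 (@Lb.d (nat_lit 84) (nat_lit 6) (nat_lit 130) (@Lb.t (@Lb.fp (nat_lit 9) t5837)))))))))))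
noncomputable def l32402 : Lb := (@Lb.d (nat_lit 9) (nat_lit 33) (nat_lit 130) (@Lb.g g8 (@Lb.g g9 (@Lb.g g10 (@Lb.g g11 (@Lb.r r2344 (@Lb.r r1559 (@Lb.r r2465 (@Lb.r r98 (@Lb.d (nat_lit 514) (nat_lit 8) (nat_lit 537) (@Lb.fm (nat_lit 9) t3562)))))))))))
noncomputable def l32403 : Lb := (@Lb.r r323 (@Lb.d (nat_lit 2) (nat_lit 514) (nat_lit 1) (@Lb.g g8 (@Lb.g g9 (@Lb.g g6 (@Lb.r r387 (@Lb.r r97 (@Lb.r r24 (@Lb.d (nat_lit 4) (nat_lit 8) (nat_lit 2) (@Lb.t (@Lb.fp (nat_lit 9) t319)))))))))))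
noncomputable def l32404 : Lb := (@Lb.r r323 (@Lb.d (nat_lit 0) (nat_lit 0) (nat_lit 1) (@Lb.g g8 (@Lb.g g6 (@Lb.r r387 (@Lb.d (nat_lit 10) (nat_lit 4) (nat_lit 0) (@Lb.fp (nat_lit 3) t45)))))))
noncomputable def l32405 : Lb := (@Lb.r r323 (@Lb.d (nat_lit 0) (nat_lit 258) (nat_lit 1) (@Lb.g g8 (@Lb.g g9 (@Lb.g g6 (@Lb.r r387 (@Lb.r r100 (@Lb.r r1125 (@Lb.d (nat_lit 534) (nat_lit 9) (nat_lit 18) (@Lb.t (@Lb.fm (nat_lit 9) t2893)))))))))))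
noncomputable def l32406 : Lb := (@Lb.r r21 (@Lb.r r323 (@Lb.d (nat_lit 2) (nat_lit 0) (nat_lit 1) (@Lb.g g8 (@Lb.g g6 (@Lb.r r387 (@Lb.r r149 (@Lb.r r72 (@Lb.d (nat_lit 16) (nat_lit 5) (nat_lit 2) (@Lb.fm (nat_lit 3) t319))))))))))
noncomputable def l32407 : Lb := (@Lb.d (nat_lit 6) (nat_lit 274) (nat_lit 133) (@Lb.r r21 (@Lb.r r579 (@Lb.r r342 (@Lb.g g7 (@Lb.g g6 (@Lb.g g4 (@Lb.d (nat_lit 8) (nat_lit 0) (nat_lit 133) (@Lb.r r25 (@Lb.t (@Lb.fm (nat_lit 9) t319)))))))))))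
noncomputable def l32408 : Lb := (@Lb.d (nat_lit 129) (nat_lit 514) (nat_lit 130) (@Lb.g g8 (@Lb.g g9 (@Lb.g g10 (@Lb.g g11 (@Lb.r r2666 (@Lb.r r612 (@Lb.r r1319 (@Lb.r r1045 (@Lb.r r2084 (@Lb.d (nat_lit 9) (nat_lit 33) (nat_lit 549) (@Lb.fp (nat_lit 9) t1444))))))))))))
noncomputable def l32409 : Lb := (@Lb.d (nat_lit 128) (nat_lit 32) (nat_lit 128) (@Lb.g g11 (@Lb.r r420 (@Lb.r r2469 (@Lb.r r1446 (@Lb.r r347 (@Lb.d (nat_lit 298) (nat_lit 22) (nat_lit 262) (@Lb.t (@Lb.fp (nat_lit 3) t322)))))))))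
noncomputable def l32410 : Lb := (@Lb.d (nat_lit 41) (nat_lit 512) (nat_lit 72) (@Lb.g g8 (@Lb.g g11 (@Lb.r r1173 (@Lb.r r150 (@Lb.r r356 (@Lb.r r1291 (@Lb.d (nat_lit 9) (nat_lit 169) (nat_lit 342) (@Lb.fp (nat_lit 3) t1079)))))))))
noncomputable def l32411 : Lb := (@Lb.d (nat_lit 128) (nat_lit 0) (nat_lit 384) (@Lb.g g8 (@Lb.g g11 (@Lb.r r260 (@Lb.d (nat_lit 74) (nat_lit 2) (nat_lit 640) (@Lb.fm (nat_lit 3) t828))))))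
noncomputable def l32412 : Lb := (@Lb.d (nat_lit 2) (nat_lit 289) (nat_lit 66) (@Lb.g g8 (@Lb.g g9 (@Lb.g g10 (@Lb.g g11 (@Lb.r r1699 (@Lb.r r680 (@Lb.r r362 (@Lb.r r1561 (@Lb.d (nat_lit 553) (nat_lit 137) (nat_lit 416) (@Lb.fp (nat_lit 9) t3498)))))))))))
noncomputable def l32413 : Lb := (@Lb.d (nat_lit 32) (nat_lit 256) (nat_lit 132) (@Lb.g g10 (@Lb.g g11 (@Lb.r r423 (@Lb.r r600 (@Lb.r r1429 (@Lb.r r406 (@Lb.d (nat_lit 101) (nat_lit 26) (nat_lit 537) (@Lb.fm (nat_lit 3) t188)))))))))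
noncomputable def l32414 : Lb := (@Lb.d (nat_lit 2) (nat_lit 4) (nat_lit 128) (@Lb.g g8 (@Lb.g g9 (@Lb.g g10 (@Lb.g g11 (@Lb.r r1699 (@Lb.r r2216 (@Lb.r r2666 (@Lb.r r25 (@Lb.d (nat_lit 362) (nat_lit 89) (nat_lit 660) (@Lb.fp (nat_lit 9) t5838)))))))))))
noncomputable def l32415 : Lb := (@Lb.d (nat_lit 128) (nat_lit 38) (nat_lit 64) (@Lb.g g9 (@Lb.g g10 (@Lb.g g11 (@Lb.r r2709 (@Lb.r r662 (@Lb.r r328 (@Lb.r r647 (@Lb.d (nat_lit 408) (nat_lit 132) (nat_lit 9) (@Lb.t (@Lb.fp (nat_lit 9) t1126)))))))))))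
noncomputable def l32416 : Lb := (@Lb.r r82 (@Lb.d (nat_lit 132) (nat_lit 17) (nat_lit 128) (@Lb.g g8 (@Lb.g g9 (@Lb.g g11 (@Lb.r r299 (@Lb.r r2154 (@Lb.r r2073 (@Lb.r r292 (@Lb.d (nat_lit 384) (nat_lit 65) (nat_lit 320) (@Lb.t (@Lb.fm (nat_lit 9) t5634))))))))))))
noncomputable def l32417 : Lb := (@Lb.d (nat_lit 170) (nat_lit 553) (nat_lit 106) (@Lb.r r680 (@Lb.r r427 (@Lb.r r345 (@Lb.g g10 (@Lb.g g4 (@Lb.d (nat_lit 69) (nat_lit 0) (nat_lit 22) (@Lb.r r145 (@Lb.fm (nat_lit 3) t564)))))))))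
noncomputable def l32418 : Lb := (@Lb.r r82 (@Lb.d (nat_lit 132) (nat_lit 529) (nat_lit 128) (@Lb.g g8 (@Lb.g g9 (@Lb.g g11 (@Lb.r r299 (@Lb.r r2154 (@Lb.r r2073 (@Lb.r r292 (@Lb.d (nat_lit 385) (nat_lit 65) (nat_lit 320) (@Lb.t (@Lb.fm (nat_lit 9) t1169))))))))))))
noncomputable def l32419 : Lb := (@Lb.r r82 (@Lb.d (nat_lit 134) (nat_lit 273) (nat_lit 128) (@Lb.g g8 (@Lb.g g9 (@Lb.g g11 (@Lb.r r299 (@Lb.r r2154 (@Lb.r r2073 (@Lb.r r292 (@Lb.d (nat_lit 384) (nat_lit 65) (nat_lit 320) (@Lb.t (@Lb.fm (nat_lit 9) t5634))))))))))))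
noncomputable def l32420 : Lb := (@Lb.d (nat_lit 644) (nat_lit 512) (nat_lit 2) (@Lb.g g8 (@Lb.g g9 (@Lb.g g10 (@Lb.g g11 (@Lb.r r2727 (@Lb.r r106 (@Lb.r r25 (@Lb.d (nat_lit 26) (nat_lit 9) (nat_lit 597) (@Lb.fm (nat_lit 9) t5839))))))))))
noncomputable def l32421 : Lb := (@Lb.r r82 (@Lb.d (nat_lit 0) (nat_lit 289) (nat_lit 64) (@Lb.g g9 (@Lb.g g11 (@Lb.r r275 (@Lb.r r354 (@Lb.r r273 (@Lb.d (nat_lit 6) (nat_lit 34) (nat_lit 0) (@Lb.fm (nat_lit 3) t579)))))))))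
noncomputable def l32422 : Lb := (@Lb.d (nat_lit 132) (nat_lit 256) (nat_lit 130) (@Lb.g g8 (@Lb.g g9 (@Lb.g g10 (@Lb.g g11 (@Lb.r r2666 (@Lb.r r612 (@Lb.r r1319 (@Lb.r r405 (@Lb.r r2084 (@Lb.d (nat_lit 617) (nat_lit 130) (nat_lit 42) (@Lb.fp (nat_lit 9) t3631))))))))))))
noncomputable def l32423 : Lb := (@Lb.r r82 (@Lb.d (nat_lit 0) (nat_lit 258) (nat_lit 128) (@Lb.g g8 (@Lb.g g9 (@Lb.g g11 (@Lb.r r2659 (@Lb.r r386 (@Lb.r r1109 (@Lb.r r1124 (@Lb.d (nat_lit 608) (nat_lit 10) (nat_lit 512) (@Lb.t (@Lb.fm (nat_lit 9) t5840))))))))))))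
noncomputable def l32424 : Lb := (@Lb.r r82 (@Lb.d (nat_lit 0) (nat_lit 2) (nat_lit 128) (@Lb.g g8 (@Lb.g g9 (@Lb.g g11 (@Lb.r r2659 (@Lb.r r386 (@Lb.r r1109 (@Lb.r r1124 (@Lb.d (nat_lit 617) (nat_lit 138) (nat_lit 512) (@Lb.t (@Lb.fm (nat_lit 9) t3515))))))))))))
noncomputable def l32425 : Lb := (@Lb.r r82 (@Lb.r r275 (@Lb.d (nat_lit 0) (nat_lit 1) (nat_lit 0) (@Lb.g g8 (@Lb.g g5 (@Lb.r r291 (@Lb.r r98 (@Lb.d (nat_lit 0) (nat_lit 2) (nat_lit 0) (@Lb.fp (nat_lit 3) t286)))))))))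
noncomputable def l32426 : Lb := (@Lb.d (nat_lit 258) (nat_lit 673) (nat_lit 576) (@Lb.r r2593 (@Lb.r r2658 (@Lb.r r2587 (@Lb.g g7 (@Lb.g g5 (@Lb.g g4 (@Lb.d (nat_lit 1) (nat_lit 34) (nat_lit 0) (@Lb.r r98 (@Lb.t (@Lb.fp (nat_lit 9) t5841)))))))))))
noncomputable def l32427 : Lb := (@Lb.d (nat_lit 0) (nat_lit 2) (nat_lit 130) (@Lb.g g8 (@Lb.g g9 (@Lb.g g10 (@Lb.g g11 (@Lb.r r425 (@Lb.r r599 (@Lb.r r1366 (@Lb.r r1124 (@Lb.d (nat_lit 578) (nat_lit 10) (nat_lit 673) (@Lb.fp (nat_lit 9) t5497)))))))))))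
noncomputable def l32428 : Lb := (@Lb.d (nat_lit 2) (nat_lit 2) (nat_lit 4) (@Lb.g g8 (@Lb.g g9 (@Lb.g g10 (@Lb.g g11 (@Lb.r r2722 (@Lb.r r548 (@Lb.r r661 (@Lb.r r535 (@Lb.r r2084 (@Lb.d (nat_lit 0) (nat_lit 10) (nat_lit 329) (@Lb.fp (nat_lit 9) t242))))))))))))
noncomputable def l32429 : Lb := (@Lb.r r273 (@Lb.d (nat_lit 10) (nat_lit 32) (nat_lit 644) (@Lb.g g8 (@Lb.g g10 (@Lb.g g7 (@Lb.r r402 (@Lb.r r149 (@Lb.r r680 (@Lb.d (nat_lit 358) (nat_lit 22) (nat_lit 72) (@Lb.t (@Lb.fp (nat_lit 9) t98)))))))))))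
noncomputable def l32430 : Lb := (@Lb.r r275 (@Lb.d (nat_lit 0) (nat_lit 516) (nat_lit 1) (@Lb.g g9 (@Lb.g g6 (@Lb.r r1411 (@Lb.r r2145 (@Lb.d (nat_lit 0) (nat_lit 66) (nat_lit 1) (@Lb.fm (nat_lit 3) t1219))))))))
noncomputable def l32431 : Lb := (@Lb.d (nat_lit 0) (nat_lit 8) (nat_lit 2) (@Lb.g g10 (@Lb.r r2641 (@Lb.r r354 (@Lb.d (nat_lit 0) (nat_lit 169) (nat_lit 6) (@Lb.t (@Lb.fp (nat_lit 3) t980)))))))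
noncomputable def l32432 : Lb := (@Lb.d (nat_lit 0) (nat_lit 2) (nat_lit 132) (@Lb.g g9 (@Lb.g g10 (@Lb.g g11 (@Lb.r r2722 (@Lb.r r2713 (@Lb.r r2587 (@Lb.r r24 (@Lb.d (nat_lit 33) (nat_lit 0) (nat_lit 329) (@Lb.t (@Lb.fp (nat_lit 9) t1097)))))))))))
noncomputable def l32433 : Lb := (@Lb.d (nat_lit 0) (nat_lit 258) (nat_lit 4) (@Lb.g g9 (@Lb.g g10 (@Lb.g g11 (@Lb.r r2722 (@Lb.r r2713 (@Lb.r r2587 (@Lb.r r24 (@Lb.d (nat_lit 33) (nat_lit 5) (nat_lit 330) (@Lb.t (@Lb.fp (nat_lit 9) t1087)))))))))))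
noncomputable def l32434 : Lb := (@Lb.r r584 (@Lb.r r86 (@Lb.r r2201 (@Lb.r r132 (@Lb.d (nat_lit 586) (nat_lit 34) (nat_lit 586) (@Lb.fm (nat_lit 1) t5842))))))
noncomputable def l32435 : Lb := (@Lb.d (nat_lit 2) (nat_lit 546) (nat_lit 66) (@Lb.g g8 (@Lb.g g9 (@Lb.g g10 (@Lb.g g11 (@Lb.r r387 (@Lb.r r1177 (@Lb.r r2458 (@Lb.r r24 (@Lb.d (nat_lit 602) (nat_lit 128) (nat_lit 169) (@Lb.fp (nat_lit 9) t5843)))))))))))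
noncomputable def l32436 : Lb := (@Lb.d (nat_lit 2) (nat_lit 521) (nat_lit 8) (@Lb.g g8 (@Lb.g g9 (@Lb.g g10 (@Lb.g g11 (@Lb.r r2691 (@Lb.r r297 (@Lb.r r648 (@Lb.r r666 (@Lb.r r1156 (@Lb.d (nat_lit 641) (nat_lit 42) (nat_lit 73) (@Lb.fp (nat_lit 9) t1234))))))))))))
noncomputable def l32437 : Lb := (@Lb.d (nat_lit 148) (nat_lit 522) (nat_lit 66) (@Lb.g g8 (@Lb.g g9 (@Lb.g g10 (@Lb.g g11 (@Lb.r r1698 (@Lb.r r1415 (@Lb.r r36 (@Lb.r r2197 (@Lb.r r2084 (@Lb.d (nat_lit 105) (nat_lit 152) (nat_lit 321) (@Lb.fm (nat_lit 9) t3546))))))))))))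
noncomputable def l32438 : Lb := (@Lb.d (nat_lit 533) (nat_lit 325) (nat_lit 342) (@Lb.r r148 (@Lb.r r386 (@Lb.r r599 (@Lb.g g6 (@Lb.g g5 (@Lb.g g4 (@Lb.d (nat_lit 65) (nat_lit 17) (nat_lit 1) (@Lb.t (@Lb.fp (nat_lit 9) t4181))))))))))
noncomputable def l32439 : Lb := (@Lb.r r70 (@Lb.d (nat_lit 5) (nat_lit 514) (nat_lit 0) (@Lb.g g8 (@Lb.g g9 (@Lb.g g11 (@Lb.r r1563 (@Lb.r r1410 (@Lb.r r1169 (@Lb.r r2708 (@Lb.d (nat_lit 21) (nat_lit 82) (nat_lit 280) (@Lb.t (@Lb.fm (nat_lit 9) t152))))))))))))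
noncomputable def l32440 : Lb := (@Lb.d (nat_lit 538) (nat_lit 70) (nat_lit 342) (@Lb.r r148 (@Lb.r r386 (@Lb.r r599 (@Lb.g g6 (@Lb.g g5 (@Lb.g g4 (@Lb.d (nat_lit 65) (nat_lit 17) (nat_lit 1) (@Lb.t (@Lb.fp (nat_lit 9) t4181))))))))))
noncomputable def l32441 : Lb := (@Lb.r r70 (@Lb.d (nat_lit 5) (nat_lit 2) (nat_lit 0) (@Lb.g g8 (@Lb.g g9 (@Lb.g g11 (@Lb.r r1563 (@Lb.r r1410 (@Lb.r r1169 (@Lb.r r2708 (@Lb.d (nat_lit 21) (nat_lit 89) (nat_lit 282) (@Lb.t (@Lb.fm (nat_lit 9) t152))))))))))))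
noncomputable def l32442 : Lb := (@Lb.r r82 (@Lb.d (nat_lit 34) (nat_lit 289) (nat_lit 128) (@Lb.g g8 (@Lb.g g9 (@Lb.g g11 (@Lb.r r1698 (@Lb.r r1577 (@Lb.r r616 (@Lb.r r587 (@Lb.d (nat_lit 385) (nat_lit 34) (nat_lit 102) (@Lb.t (@Lb.fm (nat_lit 9) t355))))))))))))
noncomputable def l32443 : Lb := (@Lb.d (nat_lit 2) (nat_lit 2) (nat_lit 66) (@Lb.g g8 (@Lb.g g9 (@Lb.g g10 (@Lb.g g7 (@Lb.r r420 (@Lb.r r102 (@Lb.r r21 (@Lb.r r36 (@Lb.d (nat_lit 153) (nat_lit 149) (nat_lit 72) (@Lb.fm (nat_lit 9) t1308)))))))))))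
noncomputable def l32444 : Lb := (@Lb.d (nat_lit 393) (nat_lit 528) (nat_lit 612) (@Lb.r r1445 (@Lb.r r411 (@Lb.r r344 (@Lb.g g7 (@Lb.g g6 (@Lb.g g5 (@Lb.d (nat_lit 4) (nat_lit 18) (nat_lit 98) (@Lb.t (@Lb.fp (nat_lit 9) t1038))))))))))
noncomputable def l32445 : Lb := (@Lb.d (nat_lit 72) (nat_lit 256) (nat_lit 64) (@Lb.r r644 (@Lb.r r678 (@Lb.r r427 (@Lb.g g6 (@Lb.g g5 (@Lb.g g4 (@Lb.d (nat_lit 4) (nat_lit 38) (nat_lit 2) (@Lb.r r295 (@Lb.t (@Lb.fm (nat_lit 9) t98)))))))))))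
noncomputable def l32446 : Lb := (@Lb.d (nat_lit 393) (nat_lit 16) (nat_lit 546) (@Lb.r r1445 (@Lb.r r411 (@Lb.r r344 (@Lb.g g7 (@Lb.g g6 (@Lb.g g5 (@Lb.d (nat_lit 4) (nat_lit 18) (nat_lit 98) (@Lb.t (@Lb.fp (nat_lit 9) t1038))))))))))
noncomputable def l32447 : Lb := (@Lb.d (nat_lit 2) (nat_lit 514) (nat_lit 130) (@Lb.g g8 (@Lb.g g9 (@Lb.g g10 (@Lb.g g11 (@Lb.r r610 (@Lb.r r404 (@Lb.r r619 (@Lb.r r97 (@Lb.r r516 (@Lb.d (nat_lit 329) (nat_lit 105) (nat_lit 385) (@Lb.fp (nat_lit 9) t3608))))))))))))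
noncomputable def l32448 : Lb := (@Lb.r r273 (@Lb.r r2370 (@Lb.d (nat_lit 517) (nat_lit 256) (nat_lit 0) (@Lb.g g4 (@Lb.g g11 (@Lb.r r549 (@Lb.r r2595 (@Lb.d (nat_lit 1) (nat_lit 16) (nat_lit 576) (@Lb.fp (nat_lit 3) t3736)))))))))
noncomputable def l32449 : Lb := (@Lb.r r82 (@Lb.d (nat_lit 2) (nat_lit 33) (nat_lit 64) (@Lb.g g8 (@Lb.g g9 (@Lb.g g11 (@Lb.r r2659 (@Lb.r r386 (@Lb.r r2472 (@Lb.r r2393 (@Lb.d (nat_lit 272) (nat_lit 6) (nat_lit 265) (@Lb.t (@Lb.fp (nat_lit 9) t1515))))))))))))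
noncomputable def l32450 : Lb := (@Lb.d (nat_lit 1) (nat_lit 258) (nat_lit 2) (@Lb.g g8 (@Lb.g g9 (@Lb.g g10 (@Lb.r r2723 (@Lb.r r1634 (@Lb.r r1553 (@Lb.d (nat_lit 2) (nat_lit 105) (nat_lit 417) (@Lb.t (@Lb.fp (nat_lit 9) t324))))))))))
noncomputable def l32451 : Lb := (@Lb.d (nat_lit 9) (nat_lit 0) (nat_lit 0) (@Lb.g g8 (@Lb.g g7 (@Lb.r r402 (@Lb.r r101 (@Lb.r r24 (@Lb.d (nat_lit 522) (nat_lit 9) (nat_lit 610) (@Lb.fm (nat_lit 3) t145))))))))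
noncomputable def l32452 : Lb := (@Lb.d (nat_lit 9) (nat_lit 257) (nat_lit 73) (@Lb.g g8 (@Lb.g g9 (@Lb.g g10 (@Lb.g g11 (@Lb.r r2691 (@Lb.r r297 (@Lb.r r648 (@Lb.r r666 (@Lb.r r1156 (@Lb.d (nat_lit 645) (nat_lit 40) (nat_lit 73) (@Lb.fp (nat_lit 9) t259))))))))))))
noncomputable def l32453 : Lb := (@Lb.d (nat_lit 0) (nat_lit 256) (nat_lit 130) (@Lb.g g9 (@Lb.g g10 (@Lb.g g11 (@Lb.r r419 (@Lb.r r2150 (@Lb.r r24 (@Lb.r r1317 (@Lb.d (nat_lit 610) (nat_lit 138) (nat_lit 33) (@Lb.t (@Lb.fm (nat_lit 9) t1351)))))))))))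
noncomputable def l32454 : Lb := (@Lb.d (nat_lit 98) (nat_lit 340) (nat_lit 358) (@Lb.r r1702 (@Lb.r r2725 (@Lb.r r2723 (@Lb.g g10 (@Lb.g g8 (@Lb.d (nat_lit 320) (nat_lit 4) (nat_lit 5) (@Lb.fp (nat_lit 3) t4894))))))))
noncomputable def l32455 : Lb := (@Lb.d (nat_lit 598) (nat_lit 520) (nat_lit 641) (@Lb.r r1354 (@Lb.r r1384 (@Lb.r r281 (@Lb.g g11 (@Lb.g g6 (@Lb.g g4 (@Lb.d (nat_lit 1) (nat_lit 20) (nat_lit 646) (@Lb.r r145 (@Lb.t (@Lb.fp (nat_lit 9) t5844)))))))))))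
noncomputable def l32456 : Lb := (@Lb.r r323 (@Lb.d (nat_lit 132) (nat_lit 512) (nat_lit 2) (@Lb.g g8 (@Lb.g g9 (@Lb.g g10 (@Lb.r r599 (@Lb.r r98 (@Lb.r r97 (@Lb.r r408 (@Lb.d (nat_lit 149) (nat_lit 21) (nat_lit 130) (@Lb.t (@Lb.fp (nat_lit 9) t119))))))))))))
noncomputable def l32457 : Lb := (@Lb.d (nat_lit 10) (nat_lit 512) (nat_lit 0) (@Lb.g g4 (@Lb.r r2343 (@Lb.r r2150 (@Lb.r r1065 (@Lb.r r2088 (@Lb.d (nat_lit 10) (nat_lit 1) (nat_lit 0) (@Lb.t (@Lb.fm (nat_lit 3) t710)))))))))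
noncomputable def l32458 : Lb := (@Lb.d (nat_lit 130) (nat_lit 4) (nat_lit 64) (@Lb.g g8 (@Lb.g g9 (@Lb.g g10 (@Lb.g g11 (@Lb.r r681 (@Lb.r r427 (@Lb.r r388 (@Lb.r r2438 (@Lb.r r25 (@Lb.d (nat_lit 352) (nat_lit 65) (nat_lit 673) (@Lb.fp (nat_lit 9) t5845))))))))))))
noncomputable def l32459 : Lb := (@Lb.r r82 (@Lb.d (nat_lit 73) (nat_lit 16) (nat_lit 0) (@Lb.g g8 (@Lb.g g9 (@Lb.g g11 (@Lb.r r2659 (@Lb.r r386 (@Lb.r r1109 (@Lb.r r2708 (@Lb.d (nat_lit 609) (nat_lit 9) (nat_lit 101) (@Lb.t (@Lb.fm (nat_lit 9) t5344))))))))))))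
noncomputable def l32460 : Lb := (@Lb.r r82 (@Lb.d (nat_lit 134) (nat_lit 545) (nat_lit 64) (@Lb.g g8 (@Lb.g g9 (@Lb.g g11 (@Lb.r r2659 (@Lb.r r386 (@Lb.r r1109 (@Lb.r r264 (@Lb.d (nat_lit 402) (nat_lit 8) (nat_lit 410) (@Lb.t (@Lb.fp (nat_lit 9) t5344))))))))))))
noncomputable def l32461 : Lb := (@Lb.r r323 (@Lb.d (nat_lit 132) (nat_lit 0) (nat_lit 2) (@Lb.g g8 (@Lb.g g9 (@Lb.g g10 (@Lb.r r599 (@Lb.r r98 (@Lb.r r97 (@Lb.r r408 (@Lb.d (nat_lit 149) (nat_lit 150) (nat_lit 73) (@Lb.t (@Lb.fp (nat_lit 9) t119))))))))))))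
noncomputable def l32462 : Lb := (@Lb.r r2331 (@Lb.r r2138 (@Lb.r r2085 (@Lb.d (nat_lit 261) (nat_lit 385) (nat_lit 0) (@Lb.fm (nat_lit 1) t51)))))
noncomputable def l32463 : Lb := (@Lb.d (nat_lit 289) (nat_lit 358) (nat_lit 529) (@Lb.r r1156 (@Lb.r r2182 (@Lb.r r1703 (@Lb.r r529 (@Lb.g g7 (@Lb.g g4 (@Lb.d (nat_lit 82) (nat_lit 16) (nat_lit 128) (@Lb.fm (nat_lit 3) t716)))))))))
noncomputable def l32464 : Lb := (@Lb.r r1291 (@Lb.r r24 (@Lb.d (nat_lit 582) (nat_lit 289) (nat_lit 384) (@Lb.fm (nat_lit 1) t1855))))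
noncomputable def l32465 : Lb := (@Lb.r r323 (@Lb.d (nat_lit 1) (nat_lit 66) (nat_lit 2) (@Lb.g g4 (@Lb.g g9 (@Lb.g g10 (@Lb.r r354 (@Lb.r r2439 (@Lb.d (nat_lit 672) (nat_lit 161) (nat_lit 346) (@Lb.t (@Lb.fp (nat_lit 9) t1082))))))))))
noncomputable def l32466 : Lb := (@Lb.r r580 (@Lb.d (nat_lit 0) (nat_lit 514) (nat_lit 322) (@Lb.g g9 (@Lb.g g10 (@Lb.g g11 (@Lb.r r2658 (@Lb.r r1172 (@Lb.r r25 (@Lb.d (nat_lit 661) (nat_lit 153) (nat_lit 386) (@Lb.t (@Lb.fm (nat_lit 9) t3982)))))))))))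
noncomputable def l32467 : Lb := (@Lb.r r323 (@Lb.d (nat_lit 8) (nat_lit 2) (nat_lit 2) (@Lb.g g9 (@Lb.g g10 (@Lb.r r102 (@Lb.r r404 (@Lb.r r1371 (@Lb.r r2705 (@Lb.d (nat_lit 10) (nat_lit 106) (nat_lit 264) (@Lb.fm (nat_lit 3) t479))))))))))
noncomputable def l32468 : Lb := (@Lb.r r580 (@Lb.d (nat_lit 4) (nat_lit 386) (nat_lit 322) (@Lb.g g9 (@Lb.g g10 (@Lb.g g11 (@Lb.r r618 (@Lb.r r1060 (@Lb.d (nat_lit 610) (nat_lit 89) (nat_lit 665) (@Lb.t (@Lb.fm (nat_lit 9) t5846))))))))))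
noncomputable def l32469 : Lb := (@Lb.r r2580 (@Lb.d (nat_lit 0) (nat_lit 289) (nat_lit 2) (@Lb.g g9 (@Lb.g g10 (@Lb.g g11 (@Lb.r r1443 (@Lb.r r98 (@Lb.d (nat_lit 0) (nat_lit 72) (nat_lit 425) (@Lb.t (@Lb.fm (nat_lit 9) t898))))))))))
noncomputable def l32470 : Lb := (@Lb.d (nat_lit 0) (nat_lit 10) (nat_lit 0) (@Lb.g g5 (@Lb.r r326 (@Lb.r r340 (@Lb.r r683 (@Lb.r r553 (@Lb.d (nat_lit 10) (nat_lit 161) (nat_lit 330) (@Lb.t (@Lb.fm (nat_lit 3) t242)))))))))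
noncomputable def l32471 : Lb := (@Lb.r r1092 (@Lb.d (nat_lit 0) (nat_lit 68) (nat_lit 0) (@Lb.g g9 (@Lb.g g10 (@Lb.r r2723 (@Lb.r r1634 (@Lb.d (nat_lit 10) (nat_lit 89) (nat_lit 9) (@Lb.fp (nat_lit 3) t979))))))))
noncomputable def l32472 : Lb := (@Lb.r r277 (@Lb.r r326 (@Lb.d (nat_lit 514) (nat_lit 256) (nat_lit 384) (@Lb.g g8 (@Lb.g g11 (@Lb.r r101 (@Lb.r r2194 (@Lb.d (nat_lit 97) (nat_lit 0) (nat_lit 528) (@Lb.fm (nat_lit 3) t1846)))))))))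
noncomputable def l32473 : Lb := (@Lb.r r277 (@Lb.d (nat_lit 517) (nat_lit 8) (nat_lit 130) (@Lb.g g8 (@Lb.g g10 (@Lb.g g11 (@Lb.r r1411 (@Lb.r r101 (@Lb.r r1434 (@Lb.d (nat_lit 22) (nat_lit 90) (nat_lit 394) (@Lb.t (@Lb.fm (nat_lit 9) t3335)))))))))))
noncomputable def l32474 : Lb := (@Lb.d (nat_lit 34) (nat_lit 257) (nat_lit 128) (@Lb.g g8 (@Lb.g g9 (@Lb.g g11 (@Lb.r r2626 (@Lb.r r1313 (@Lb.r r603 (@Lb.r r580 (@Lb.d (nat_lit 17) (nat_lit 96) (nat_lit 330) (@Lb.t (@Lb.fm (nat_lit 9) t2102)))))))))))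
noncomputable def l32475 : Lb := (@Lb.r r323 (@Lb.d (nat_lit 10) (nat_lit 520) (nat_lit 17) (@Lb.g g8 (@Lb.g g6 (@Lb.r r293 (@Lb.r r2459 (@Lb.r r2456 (@Lb.d (nat_lit 261) (nat_lit 1) (nat_lit 648) (@Lb.fp (nat_lit 3) t991)))))))))
noncomputable def l32476 : Lb := (@Lb.d (nat_lit 69) (nat_lit 612) (nat_lit 152) (@Lb.r r615 (@Lb.r r280 (@Lb.r r2645 (@Lb.r r162 (@Lb.g g7 (@Lb.g g6 (@Lb.g g5 (@Lb.d (nat_lit 64) (nat_lit 6) (nat_lit 134) (@Lb.t (@Lb.fm (nat_lit 9) t71)))))))))))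
noncomputable def l32477 : Lb := (@Lb.r r21 (@Lb.d (nat_lit 2) (nat_lit 0) (nat_lit 130) (@Lb.g g8 (@Lb.g g10 (@Lb.g g11 (@Lb.r r1435 (@Lb.r r597 (@Lb.r r98 (@Lb.r r408 (@Lb.d (nat_lit 661) (nat_lit 102) (nat_lit 34) (@Lb.t (@Lb.fp (nat_lit 9) t2231))))))))))))
noncomputable def l32478 : Lb := (@Lb.d (nat_lit 97) (nat_lit 258) (nat_lit 73) (@Lb.g g8 (@Lb.g g9 (@Lb.g g10 (@Lb.g g11 (@Lb.r r610 (@Lb.r r1607 (@Lb.r r97 (@Lb.r r600 (@Lb.d (nat_lit 97) (nat_lit 36) (nat_lit 148) (@Lb.fm (nat_lit 9) t4546)))))))))))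
noncomputable def l32479 : Lb := (@Lb.d (nat_lit 154) (nat_lit 536) (nat_lit 130) (@Lb.g g8 (@Lb.g g9 (@Lb.g g10 (@Lb.g g11 (@Lb.r r618 (@Lb.r r1603 (@Lb.r r105 (@Lb.r r420 (@Lb.d (nat_lit 552) (nat_lit 70) (nat_lit 673) (@Lb.fp (nat_lit 9) t4546)))))))))))
noncomputable def l32480 : Lb := (@Lb.r r82 (@Lb.d (nat_lit 6) (nat_lit 34) (nat_lit 136) (@Lb.g g4 (@Lb.g g9 (@Lb.g g11 (@Lb.r r1434 (@Lb.r r2641 (@Lb.d (nat_lit 358) (nat_lit 24) (nat_lit 360) (@Lb.t (@Lb.fm (nat_lit 9) t2127))))))))))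
noncomputable def l32481 : Lb := (@Lb.d (nat_lit 130) (nat_lit 257) (nat_lit 66) (@Lb.g g8 (@Lb.g g9 (@Lb.g g10 (@Lb.g g11 (@Lb.r r2730 (@Lb.r r2724 (@Lb.r r679 (@Lb.r r1169 (@Lb.d (nat_lit 644) (nat_lit 102) (nat_lit 81) (@Lb.fp (nat_lit 9) t1698)))))))))))
noncomputable def l32482 : Lb := (@Lb.d (nat_lit 4) (nat_lit 512) (nat_lit 0) (@Lb.g g8 (@Lb.g g9 (@Lb.g g6 (@Lb.g g11 (@Lb.r r2664 (@Lb.r r2729 (@Lb.d (nat_lit 356) (nat_lit 81) (nat_lit 40) (@Lb.fm (nat_lit 9) t3305)))))))))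
noncomputable def l32483 : Lb := (@Lb.r r322 (@Lb.d (nat_lit 4) (nat_lit 546) (nat_lit 128) (@Lb.g g8 (@Lb.g g9 (@Lb.g g11 (@Lb.r r1642 (@Lb.r r2328 (@Lb.r r1685 (@Lb.d (nat_lit 360) (nat_lit 8) (nat_lit 614) (@Lb.t (@Lb.fp (nat_lit 9) t501)))))))))))
noncomputable def l32484 : Lb := (@Lb.d (nat_lit 0) (nat_lit 512) (nat_lit 136) (@Lb.g g8 (@Lb.g g11 (@Lb.d (nat_lit 618) (nat_lit 2) (nat_lit 665) (@Lb.fm (nat_lit 3) t698)))))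
noncomputable def l32485 : Lb := (@Lb.d (nat_lit 422) (nat_lit 84) (nat_lit 581) (@Lb.r r2644 (@Lb.r r535 (@Lb.r r345 (@Lb.g g10 (@Lb.g g4 (@Lb.d (nat_lit 69) (nat_lit 0) (nat_lit 18) (@Lb.r r387 (@Lb.r r145 (@Lb.fm (nat_lit 3) t981))))))))))
noncomputable def l32486 : Lb := (@Lb.r r21 (@Lb.r r323 (@Lb.d (nat_lit 25) (nat_lit 256) (nat_lit 0) (@Lb.g g8 (@Lb.g g10 (@Lb.r r619 (@Lb.r r1109 (@Lb.r r2474 (@Lb.r r1320 (@Lb.d (nat_lit 644) (nat_lit 34) (nat_lit 402) (@Lb.fp (nat_lit 3) t597)))))))))))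
noncomputable def l32487 : Lb := (@Lb.d (nat_lit 10) (nat_lit 512) (nat_lit 1) (@Lb.g g8 (@Lb.g g10 (@Lb.g g11 (@Lb.r r2650 (@Lb.r r1429 (@Lb.r r1643 (@Lb.r r1608 (@Lb.d (nat_lit 98) (nat_lit 2) (nat_lit 546) (@Lb.t (@Lb.fm (nat_lit 9) t282)))))))))))
noncomputable def l32488 : Lb := (@Lb.d (nat_lit 24) (nat_lit 512) (nat_lit 137) (@Lb.g g8 (@Lb.g g10 (@Lb.g g11 (@Lb.r r1365 (@Lb.r r1634 (@Lb.r r132 (@Lb.d (nat_lit 34) (nat_lit 89) (nat_lit 585) (@Lb.t (@Lb.fm (nat_lit 9) t1004))))))))))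
noncomputable def l32489 : Lb := (@Lb.r r21 (@Lb.r r70 (@Lb.d (nat_lit 129) (nat_lit 256) (nat_lit 128) (@Lb.g g8 (@Lb.g g11 (@Lb.r r1563 (@Lb.r r281 (@Lb.r r2196 (@Lb.r r2182 (@Lb.d (nat_lit 0) (nat_lit 9) (nat_lit 18) (@Lb.fm (nat_lit 3) t125)))))))))))
noncomputable def l32490 : Lb := (@Lb.r r21 (@Lb.r r70 (@Lb.d (nat_lit 129) (nat_lit 512) (nat_lit 128) (@Lb.g g8 (@Lb.g g11 (@Lb.r r1563 (@Lb.r r281 (@Lb.r r2196 (@Lb.r r2182 (@Lb.d (nat_lit 6) (nat_lit 73) (nat_lit 18) (@Lb.fm (nat_lit 3) t74)))))))))))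
noncomputable def l32491 : Lb := (@Lb.d (nat_lit 2) (nat_lit 10) (nat_lit 64) (@Lb.g g8 (@Lb.g g9 (@Lb.g g7 (@Lb.r r594 (@Lb.r r2449 (@Lb.d (nat_lit 2) (nat_lit 154) (nat_lit 66) (@Lb.t (@Lb.fp (nat_lit 9) t572)))))))))
noncomputable def l32492 : Lb := (@Lb.d (nat_lit 673) (nat_lit 256) (nat_lit 341) (@Lb.r r1668 (@Lb.r r1703 (@Lb.r r1617 (@Lb.g g6 (@Lb.g g4 (@Lb.d (nat_lit 5) (nat_lit 0) (nat_lit 34) (@Lb.fp (nat_lit 3) t917))))))))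
noncomputable def l32493 : Lb := (@Lb.r r323 (@Lb.d (nat_lit 8) (nat_lit 546) (nat_lit 0) (@Lb.g g9 (@Lb.g g10 (@Lb.r r536 (@Lb.r r619 (@Lb.r r674 (@Lb.r r677 (@Lb.d (nat_lit 533) (nat_lit 21) (nat_lit 552) (@Lb.fm (nat_lit 3) t221))))))))))
noncomputable def l32494 : Lb := (@Lb.r r323 (@Lb.d (nat_lit 16) (nat_lit 521) (nat_lit 33) (@Lb.g g8 (@Lb.g g9 (@Lb.g g6 (@Lb.r r1635 (@Lb.r r105 (@Lb.r r2312 (@Lb.d (nat_lit 665) (nat_lit 90) (nat_lit 152) (@Lb.t (@Lb.fm (nat_lit 9) t4885)))))))))))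
noncomputable def l32495 : Lb := (@Lb.d (nat_lit 2) (nat_lit 514) (nat_lit 0) (@Lb.g g8 (@Lb.g g9 (@Lb.r r40 (@Lb.r r2089 (@Lb.r r2084 (@Lb.d (nat_lit 578) (nat_lit 66) (nat_lit 576) (@Lb.fm (nat_lit 3) t716))))))))
noncomputable def l32496 : Lb := (@Lb.d (nat_lit 130) (nat_lit 2) (nat_lit 0) (@Lb.g g8 (@Lb.g g9 (@Lb.r r2339 (@Lb.r r281 (@Lb.r r276 (@Lb.d (nat_lit 581) (nat_lit 18) (nat_lit 0) (@Lb.fm (nat_lit 3) t1165))))))))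
noncomputable def l32497 : Lb := (@Lb.d (nat_lit 2) (nat_lit 258) (nat_lit 130) (@Lb.g g8 (@Lb.g g9 (@Lb.g g10 (@Lb.g g11 (@Lb.r r610 (@Lb.r r404 (@Lb.r r619 (@Lb.r r97 (@Lb.r r516 (@Lb.d (nat_lit 617) (nat_lit 130) (nat_lit 658) (@Lb.fp (nat_lit 9) t1994))))))))))))
noncomputable def l32498 : Lb := (@Lb.d (nat_lit 130) (nat_lit 642) (nat_lit 256) (@Lb.r r2196 (@Lb.r r1414 (@Lb.r r1363 (@Lb.r r529 (@Lb.g g7 (@Lb.g g5 (@Lb.d (nat_lit 0) (nat_lit 1) (nat_lit 64) (@Lb.fp (nat_lit 3) t1443)))))))))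
noncomputable def l32499 : Lb := (@Lb.r r322 (@Lb.d (nat_lit 8) (nat_lit 256) (nat_lit 136) (@Lb.g g9 (@Lb.g g11 (@Lb.r r1434 (@Lb.r r1432 (@Lb.r r597 (@Lb.d (nat_lit 68) (nat_lit 38) (nat_lit 528) (@Lb.fm (nat_lit 3) t5847)))))))))
noncomputable def l32500 : Lb := (@Lb.d (nat_lit 2) (nat_lit 258) (nat_lit 130) (@Lb.g g8 (@Lb.g g9 (@Lb.g g10 (@Lb.g g11 (@Lb.r r1699 (@Lb.r r164 (@Lb.r r614 (@Lb.r r533 (@Lb.r r2084 (@Lb.d (nat_lit 656) (nat_lit 134) (nat_lit 296) (@Lb.fm (nat_lit 9) t4830))))))))))))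
noncomputable def l32501 : Lb := (@Lb.d (nat_lit 74) (nat_lit 389) (nat_lit 420) (@Lb.r r2438 (@Lb.r r1108 (@Lb.r r2379 (@Lb.g g7 (@Lb.g g6 (@Lb.g g5 (@Lb.g g4 (@Lb.d (nat_lit 134) (nat_lit 169) (nat_lit 0) (@Lb.fm (nat_lit 9) t5848))))))))))
noncomputable def l32502 : Lb := (@Lb.r r323 (@Lb.d (nat_lit 0) (nat_lit 0) (nat_lit 38) (@Lb.g g9 (@Lb.g g10 (@Lb.r r387 (@Lb.r r2577 (@Lb.d (nat_lit 0) (nat_lit 0) (nat_lit 410) (@Lb.fm (nat_lit 3) t121))))))))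
noncomputable def l32503 : Lb := (@Lb.d (nat_lit 150) (nat_lit 161) (nat_lit 294) (@Lb.r r24 (@Lb.r r1383 (@Lb.r r2389 (@Lb.g g6 (@Lb.g g4 (@Lb.d (nat_lit 1) (nat_lit 8) (nat_lit 41) (@Lb.r r387 (@Lb.fp (nat_lit 3) t531)))))))))
noncomputable def l32504 : Lb := (@Lb.d (nat_lit 81) (nat_lit 389) (nat_lit 22) (@Lb.r r1044 (@Lb.r r2649 (@Lb.r r532 (@Lb.r r1442 (@Lb.g g11 (@Lb.g g6 (@Lb.g g5 (@Lb.g g4 (@Lb.d (nat_lit 25) (nat_lit 24) (nat_lit 392) (@Lb.fp (nat_lit 9) t2693)))))))))))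
noncomputable def l32505 : Lb := (@Lb.r r323 (@Lb.d (nat_lit 0) (nat_lit 553) (nat_lit 1) (@Lb.g g9 (@Lb.g g10 (@Lb.r r1450 (@Lb.r r2468 (@Lb.r r1307 (@Lb.r r2577 (@Lb.d (nat_lit 353) (nat_lit 22) (nat_lit 672) (@Lb.fp (nat_lit 3) t5849))))))))))
noncomputable def l32506 : Lb := (@Lb.r r21 (@Lb.d (nat_lit 410) (nat_lit 544) (nat_lit 128) (@Lb.g g8 (@Lb.g g11 (@Lb.r r2138 (@Lb.r r2449 (@Lb.r r295 (@Lb.d (nat_lit 72) (nat_lit 66) (nat_lit 513) (@Lb.fm (nat_lit 3) t4276)))))))))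
noncomputable def l32507 : Lb := (@Lb.r r277 (@Lb.d (nat_lit 385) (nat_lit 520) (nat_lit 2) (@Lb.g g8 (@Lb.g g10 (@Lb.g g11 (@Lb.r r387 (@Lb.r r101 (@Lb.r r1434 (@Lb.d (nat_lit 532) (nat_lit 149) (nat_lit 137) (@Lb.t (@Lb.fm (nat_lit 9) t1039)))))))))))
noncomputable def l32508 : Lb := (@Lb.d (nat_lit 9) (nat_lit 512) (nat_lit 9) (@Lb.g g8 (@Lb.g g10 (@Lb.g g11 (@Lb.r r679 (@Lb.r r1109 (@Lb.r r2658 (@Lb.r r2436 (@Lb.d (nat_lit 610) (nat_lit 8) (nat_lit 277) (@Lb.t (@Lb.fp (nat_lit 9) t2938)))))))))))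
noncomputable def l32509 : Lb := (@Lb.d (nat_lit 132) (nat_lit 256) (nat_lit 130) (@Lb.g g8 (@Lb.g g9 (@Lb.g g10 (@Lb.g g11 (@Lb.r r419 (@Lb.r r2154 (@Lb.r r100 (@Lb.r r405 (@Lb.r r2084 (@Lb.d (nat_lit 69) (nat_lit 18) (nat_lit 662) (@Lb.fp (nat_lit 9) t5850))))))))))))
noncomputable def l32510 : Lb := (@Lb.d (nat_lit 0) (nat_lit 257) (nat_lit 130) (@Lb.g g9 (@Lb.g g10 (@Lb.g g11 (@Lb.r r1451 (@Lb.r r132 (@Lb.r r598 (@Lb.r r421 (@Lb.r r20 (@Lb.d (nat_lit 677) (nat_lit 130) (nat_lit 170) (@Lb.t (@Lb.fp (nat_lit 9) t651))))))))))))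
noncomputable def l32511 : Lb := (@Lb.d (nat_lit 598) (nat_lit 168) (nat_lit 421) (@Lb.r r2465 (@Lb.r r1194 (@Lb.r r1675 (@Lb.g g6 (@Lb.g g5 (@Lb.g g4 (@Lb.d (nat_lit 1) (nat_lit 22) (nat_lit 2) (@Lb.t (@Lb.fm (nat_lit 9) t5851))))))))))
noncomputable def l32512 : Lb := (@Lb.d (nat_lit 666) (nat_lit 258) (nat_lit 262) (@Lb.r r24 (@Lb.r r101 (@Lb.r r386 (@Lb.g g11 (@Lb.g g6 (@Lb.g g5 (@Lb.d (nat_lit 0) (nat_lit 0) (nat_lit 129) (@Lb.t (@Lb.fp (nat_lit 9) t719))))))))))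
noncomputable def l32513 : Lb := (@Lb.d (nat_lit 0) (nat_lit 514) (nat_lit 130) (@Lb.g g9 (@Lb.g g10 (@Lb.g g11 (@Lb.r r427 (@Lb.r r1096 (@Lb.r r2438 (@Lb.r r97 (@Lb.d (nat_lit 402) (nat_lit 138) (nat_lit 150) (@Lb.t (@Lb.fp (nat_lit 9) t5852)))))))))))
noncomputable def l32514 : Lb := (@Lb.r r323 (@Lb.d (nat_lit 10) (nat_lit 514) (nat_lit 0) (@Lb.g g8 (@Lb.g g9 (@Lb.g g10 (@Lb.r r2459 (@Lb.r r2193 (@Lb.r r2646 (@Lb.r r1416 (@Lb.d (nat_lit 154) (nat_lit 2) (nat_lit 394) (@Lb.t (@Lb.fp (nat_lit 9) t221))))))))))))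
noncomputable def l32515 : Lb := (@Lb.d (nat_lit 136) (nat_lit 513) (nat_lit 130) (@Lb.g g8 (@Lb.g g9 (@Lb.g g10 (@Lb.g g11 (@Lb.r r2666 (@Lb.r r612 (@Lb.r r1319 (@Lb.r r405 (@Lb.r r2084 (@Lb.d (nat_lit 408) (nat_lit 130) (nat_lit 581) (@Lb.fp (nat_lit 9) t2805))))))))))))
noncomputable def l32516 : Lb := (@Lb.d (nat_lit 129) (nat_lit 514) (nat_lit 130) (@Lb.g g8 (@Lb.g g9 (@Lb.g g10 (@Lb.g g11 (@Lb.r r419 (@Lb.r r164 (@Lb.r r2438 (@Lb.r r97 (@Lb.d (nat_lit 354) (nat_lit 74) (nat_lit 409) (@Lb.fp (nat_lit 9) t2470)))))))))))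
noncomputable def l32517 : Lb := (@Lb.d (nat_lit 40) (nat_lit 389) (nat_lit 66) (@Lb.g g8 (@Lb.g g5 (@Lb.g g10 (@Lb.g g7 (@Lb.r r2458 (@Lb.r r404 (@Lb.d (nat_lit 617) (nat_lit 88) (nat_lit 594) (@Lb.fm (nat_lit 9) t5853)))))))))
noncomputable def l32518 : Lb := (@Lb.d (nat_lit 2) (nat_lit 1) (nat_lit 73) (@Lb.g g8 (@Lb.g g9 (@Lb.g g10 (@Lb.g g11 (@Lb.r r1367 (@Lb.r r2440 (@Lb.r r2122 (@Lb.r r405 (@Lb.d (nat_lit 341) (nat_lit 72) (nat_lit 650) (@Lb.fm (nat_lit 9) t3887)))))))))))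
noncomputable def l32519 : Lb := (@Lb.r r86 (@Lb.d (nat_lit 134) (nat_lit 357) (nat_lit 64) (@Lb.g g8 (@Lb.g g5 (@Lb.g g11 (@Lb.r r1691 (@Lb.r r1124 (@Lb.r r602 (@Lb.d (nat_lit 641) (nat_lit 1) (nat_lit 88) (@Lb.t (@Lb.fm (nat_lit 9) t1541)))))))))))
noncomputable def l32520 : Lb := (@Lb.r r82 (@Lb.d (nat_lit 0) (nat_lit 33) (nat_lit 64) (@Lb.g g8 (@Lb.g g9 (@Lb.g g11 (@Lb.r r2659 (@Lb.r r386 (@Lb.r r2472 (@Lb.r r2393 (@Lb.d (nat_lit 592) (nat_lit 132) (nat_lit 73) (@Lb.t (@Lb.fp (nat_lit 9) t2707))))))))))))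
noncomputable def l32521 : Lb := (@Lb.g g9 (@Lb.g g6 (@Lb.r r2403 (@Lb.r r594 (@Lb.d (nat_lit 0) (nat_lit 536) (nat_lit 354) (@Lb.fp (nat_lit 3) t3468))))))
noncomputable def l32522 : Lb := (@Lb.d (nat_lit 144) (nat_lit 512) (nat_lit 386) (@Lb.g g8 (@Lb.g g9 (@Lb.g g10 (@Lb.g g11 (@Lb.r r1634 (@Lb.r r388 (@Lb.d (nat_lit 96) (nat_lit 153) (nat_lit 394) (@Lb.fp (nat_lit 9) t5854)))))))))
noncomputable def l32523 : Lb := (@Lb.d (nat_lit 150) (nat_lit 530) (nat_lit 1) (@Lb.r r289 (@Lb.r r595 (@Lb.r r326 (@Lb.g g6 (@Lb.g g5 (@Lb.g g4 (@Lb.d (nat_lit 1) (nat_lit 17) (nat_lit 0) (@Lb.r r387 (@Lb.t (@Lb.fp (nat_lit 9) t2318)))))))))))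
noncomputable def l32524 : Lb := (@Lb.d (nat_lit 2) (nat_lit 512) (nat_lit 64) (@Lb.g g8 (@Lb.g g11 (@Lb.r r1575 (@Lb.r r2138 (@Lb.r r2085 (@Lb.d (nat_lit 260) (nat_lit 81) (nat_lit 645) (@Lb.fm (nat_lit 3) t51))))))))
noncomputable def l32525 : Lb := (@Lb.r r323 (@Lb.d (nat_lit 0) (nat_lit 0) (nat_lit 2) (@Lb.g g9 (@Lb.g g10 (@Lb.r r2467 (@Lb.r r2146 (@Lb.r r24 (@Lb.r r101 (@Lb.d (nat_lit 277) (nat_lit 26) (nat_lit 394) (@Lb.fm (nat_lit 3) t5819))))))))))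
noncomputable def l32526 : Lb := (@Lb.d (nat_lit 162) (nat_lit 261) (nat_lit 5) (@Lb.r r273 (@Lb.r r70 (@Lb.r r359 (@Lb.r r289 (@Lb.g g7 (@Lb.g g6 (@Lb.g g5 (@Lb.g g4 (@Lb.d (nat_lit 1) (nat_lit 1) (nat_lit 133) (@Lb.fm (nat_lit 9) t2175)))))))))))
noncomputable def l32527 : Lb := (@Lb.d (nat_lit 4) (nat_lit 264) (nat_lit 0) (@Lb.g g8 (@Lb.g g9 (@Lb.r r1636 (@Lb.r r1383 (@Lb.r r1626 (@Lb.r r1429 (@Lb.d (nat_lit 610) (nat_lit 89) (nat_lit 258) (@Lb.fm (nat_lit 3) t5855)))))))))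
noncomputable def l32528 : Lb := (@Lb.r r82 (@Lb.d (nat_lit 134) (nat_lit 289) (nat_lit 64) (@Lb.g g8 (@Lb.g g9 (@Lb.g g11 (@Lb.r r2659 (@Lb.r r386 (@Lb.r r1109 (@Lb.r r264 (@Lb.d (nat_lit 404) (nat_lit 9) (nat_lit 410) (@Lb.t (@Lb.fp (nat_lit 9) t5856))))))))))))
noncomputable def l32529 : Lb := (@Lb.d (nat_lit 644) (nat_lit 342) (nat_lit 82) (@Lb.r r8 (@Lb.r r289 (@Lb.r r595 (@Lb.g g6 (@Lb.g g5 (@Lb.d (nat_lit 0) (nat_lit 17) (nat_lit 33) (@Lb.r r387 (@Lb.fp (nat_lit 3) t283)))))))))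
noncomputable def l32530 : Lb := (@Lb.d (nat_lit 644) (nat_lit 598) (nat_lit 25) (@Lb.r r8 (@Lb.r r289 (@Lb.r r595 (@Lb.g g6 (@Lb.g g5 (@Lb.d (nat_lit 0) (nat_lit 17) (nat_lit 33) (@Lb.r r387 (@Lb.fp (nat_lit 3) t283)))))))))
noncomputable def l32531 : Lb := (@Lb.r r21 (@Lb.r r331 (@Lb.d (nat_lit 417) (nat_lit 4) (nat_lit 2) (@Lb.g g8 (@Lb.g g10 (@Lb.r r409 (@Lb.r r2731 (@Lb.r r1674 (@Lb.d (nat_lit 640) (nat_lit 138) (nat_lit 421) (@Lb.fm (nat_lit 3) t2443))))))))))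
noncomputable def l32532 : Lb := (@Lb.d (nat_lit 2) (nat_lit 258) (nat_lit 26) (@Lb.g g8 (@Lb.g g9 (@Lb.g g10 (@Lb.g g11 (@Lb.r r600 (@Lb.r r1707 (@Lb.r r1577 (@Lb.r r1572 (@Lb.d (nat_lit 608) (nat_lit 5) (nat_lit 682) (@Lb.fm (nat_lit 9) t386)))))))))))
noncomputable def l32533 : Lb := (@Lb.g g8 (@Lb.g g7 (@Lb.r r101 (@Lb.r r24 (@Lb.d (nat_lit 576) (nat_lit 0) (nat_lit 661) (@Lb.fp (nat_lit 3) t166))))))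
noncomputable def l32534 : Lb := (@Lb.r r355 (@Lb.d (nat_lit 8) (nat_lit 514) (nat_lit 18) (@Lb.g g9 (@Lb.g g10 (@Lb.r r2627 (@Lb.r r1688 (@Lb.r r2325 (@Lb.d (nat_lit 388) (nat_lit 146) (nat_lit 649) (@Lb.fm (nat_lit 3) t2399)))))))))
noncomputable def l32535 : Lb := (@Lb.d (nat_lit 0) (nat_lit 257) (nat_lit 73) (@Lb.g g8 (@Lb.g g9 (@Lb.g g10 (@Lb.g g11 (@Lb.r r2154 (@Lb.r r105 (@Lb.r r596 (@Lb.r r1319 (@Lb.r r2564 (@Lb.d (nat_lit 10) (nat_lit 81) (nat_lit 640) (@Lb.fm (nat_lit 9) t71))))))))))))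
noncomputable def l32536 : Lb := (@Lb.d (nat_lit 401) (nat_lit 410) (nat_lit 256) (@Lb.r r2150 (@Lb.r r101 (@Lb.r r2196 (@Lb.g g9 (@Lb.t (@Lb.fm (nat_lit 3) t657)))))))
noncomputable def l32537 : Lb := (@Lb.d (nat_lit 0) (nat_lit 0) (nat_lit 73) (@Lb.g g8 (@Lb.g g10 (@Lb.g g11 (@Lb.r r2691 (@Lb.r r1160 (@Lb.r r1642 (@Lb.r r2145 (@Lb.d (nat_lit 646) (nat_lit 16) (nat_lit 64) (@Lb.t (@Lb.fp (nat_lit 9) t668)))))))))))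
noncomputable def l32538 : Lb := (@Lb.d (nat_lit 32) (nat_lit 0) (nat_lit 64) (@Lb.g g8 (@Lb.g g11 (@Lb.r r1687 (@Lb.r r598 (@Lb.r r2457 (@Lb.r r408 (@Lb.d (nat_lit 665) (nat_lit 26) (nat_lit 168) (@Lb.fm (nat_lit 3) t386)))))))))
noncomputable def l32539 : Lb := (@Lb.r r82 (@Lb.d (nat_lit 9) (nat_lit 288) (nat_lit 64) (@Lb.g g8 (@Lb.g g9 (@Lb.g g11 (@Lb.r r2659 (@Lb.r r2152 (@Lb.r r1430 (@Lb.r r2645 (@Lb.d (nat_lit 546) (nat_lit 38) (nat_lit 70) (@Lb.t (@Lb.fp (nat_lit 9) t243))))))))))))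
noncomputable def l32540 : Lb := (@Lb.d (nat_lit 129) (nat_lit 516) (nat_lit 128) (@Lb.g g8 (@Lb.g g9 (@Lb.g g10 (@Lb.g g11 (@Lb.r r1706 (@Lb.r r1411 (@Lb.r r1177 (@Lb.r r1156 (@Lb.d (nat_lit 297) (nat_lit 89) (nat_lit 596) (@Lb.fm (nat_lit 9) t1833)))))))))))
noncomputable def l32541 : Lb := (@Lb.d (nat_lit 640) (nat_lit 514) (nat_lit 130) (@Lb.g g4 (@Lb.g g9 (@Lb.g g10 (@Lb.g g11 (@Lb.r r2214 (@Lb.r r545 (@Lb.r r611 (@Lb.r r2577 (@Lb.d (nat_lit 154) (nat_lit 74) (nat_lit 361) (@Lb.fp (nat_lit 9) t1913)))))))))))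
noncomputable def l32542 : Lb := (@Lb.d (nat_lit 597) (nat_lit 20) (nat_lit 422) (@Lb.r r24 (@Lb.r r97 (@Lb.r r2659 (@Lb.r r2406 (@Lb.g g6 (@Lb.g g5 (@Lb.g g4 (@Lb.d (nat_lit 1) (nat_lit 1) (nat_lit 1) (@Lb.t (@Lb.fm (nat_lit 9) t3890)))))))))))
noncomputable def l32543 : Lb := (@Lb.d (nat_lit 640) (nat_lit 514) (nat_lit 130) (@Lb.g g4 (@Lb.g g9 (@Lb.g g10 (@Lb.g g11 (@Lb.r r2214 (@Lb.r r421 (@Lb.r r283 (@Lb.r r1553 (@Lb.d (nat_lit 640) (nat_lit 130) (nat_lit 362) (@Lb.fm (nat_lit 9) t1622)))))))))))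
noncomputable def l32544 : Lb := (@Lb.d (nat_lit 2) (nat_lit 10) (nat_lit 0) (@Lb.g g8 (@Lb.g g9 (@Lb.r r1636 (@Lb.r r1383 (@Lb.r r1626 (@Lb.r r1429 (@Lb.d (nat_lit 610) (nat_lit 89) (nat_lit 386) (@Lb.fm (nat_lit 3) t5855)))))))))
noncomputable def l32545 : Lb := (@Lb.d (nat_lit 144) (nat_lit 514) (nat_lit 384) (@Lb.g g8 (@Lb.g g9 (@Lb.g g10 (@Lb.g g11 (@Lb.r r1602 (@Lb.r r409 (@Lb.r r388 (@Lb.d (nat_lit 105) (nat_lit 0) (nat_lit 394) (@Lb.fp (nat_lit 9) t2688))))))))))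
noncomputable def l32546 : Lb := (@Lb.d (nat_lit 40) (nat_lit 0) (nat_lit 64) (@Lb.g g8 (@Lb.g g11 (@Lb.r r1627 (@Lb.r r422 (@Lb.r r1445 (@Lb.r r1620 (@Lb.d (nat_lit 5) (nat_lit 104) (nat_lit 274) (@Lb.fp (nat_lit 3) t386)))))))))
noncomputable def l32547 : Lb := (@Lb.d (nat_lit 356) (nat_lit 545) (nat_lit 260) (@Lb.r r1370 (@Lb.r r360 (@Lb.r r345 (@Lb.r r427 (@Lb.g g6 (@Lb.g g5 (@Lb.g g4 (@Lb.d (nat_lit 160) (nat_lit 6) (nat_lit 1) (@Lb.t (@Lb.fm (nat_lit 9) t40)))))))))))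
noncomputable def l32548 : Lb := (@Lb.d (nat_lit 0) (nat_lit 262) (nat_lit 678) (@Lb.r r2659 (@Lb.r r406 (@Lb.r r2664 (@Lb.r r2585 (@Lb.g g7 (@Lb.g g6 (@Lb.g g4 (@Lb.d (nat_lit 5) (nat_lit 16) (nat_lit 64) (@Lb.t (@Lb.fm (nat_lit 9) t2030)))))))))))
noncomputable def l32549 : Lb := (@Lb.d (nat_lit 138) (nat_lit 6) (nat_lit 74) (@Lb.g g8 (@Lb.g g9 (@Lb.g g10 (@Lb.g g11 (@Lb.r r683 (@Lb.r r2410 (@Lb.r r1572 (@Lb.r r37 (@Lb.d (nat_lit 617) (nat_lit 97) (nat_lit 5) (@Lb.fp (nat_lit 9) t1846)))))))))))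
noncomputable def l32550 : Lb := (@Lb.r r260 (@Lb.d (nat_lit 128) (nat_lit 289) (nat_lit 649) (@Lb.g g9 (@Lb.g g10 (@Lb.g g7 (@Lb.r r2453 (@Lb.r r410 (@Lb.r r1048 (@Lb.d (nat_lit 642) (nat_lit 72) (nat_lit 297) (@Lb.t (@Lb.fp (nat_lit 9) t2239)))))))))))
noncomputable def l32551 : Lb := (@Lb.d (nat_lit 641) (nat_lit 101) (nat_lit 325) (@Lb.r r609 (@Lb.r r363 (@Lb.r r328 (@Lb.r r1642 (@Lb.g g5 (@Lb.d (nat_lit 4) (nat_lit 5) (nat_lit 0) (@Lb.r r98 (@Lb.t (@Lb.fm (nat_lit 3) t5857))))))))))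
noncomputable def l32552 : Lb := (@Lb.d (nat_lit 8) (nat_lit 514) (nat_lit 130) (@Lb.g g8 (@Lb.g g9 (@Lb.g g10 (@Lb.g g11 (@Lb.r r2217 (@Lb.r r520 (@Lb.r r603 (@Lb.r r386 (@Lb.r r132 (@Lb.d (nat_lit 10) (nat_lit 73) (nat_lit 345) (@Lb.fp (nat_lit 9) t988))))))))))))
noncomputable def l32553 : Lb := (@Lb.d (nat_lit 614) (nat_lit 665) (nat_lit 298) (@Lb.r r1627 (@Lb.r r2469 (@Lb.r r2214 (@Lb.r r1096 (@Lb.g g7 (@Lb.g g6 (@Lb.g g5 (@Lb.d (nat_lit 0) (nat_lit 1) (nat_lit 65) (@Lb.t (@Lb.fp (nat_lit 9) t698)))))))))))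
noncomputable def l32554 : Lb := (@Lb.r r21 (@Lb.r r70 (@Lb.d (nat_lit 9) (nat_lit 0) (nat_lit 0) (@Lb.g g8 (@Lb.r r1579 (@Lb.r r2069 (@Lb.r r2408 (@Lb.r r2182 (@Lb.d (nat_lit 0) (nat_lit 38) (nat_lit 393) (@Lb.t (@Lb.fm (nat_lit 3) t1506)))))))))))
noncomputable def l32555 : Lb := (@Lb.d (nat_lit 2) (nat_lit 289) (nat_lit 130) (@Lb.g g8 (@Lb.g g9 (@Lb.g g10 (@Lb.g g11 (@Lb.r r1699 (@Lb.r r36 (@Lb.r r661 (@Lb.r r146 (@Lb.r r2084 (@Lb.d (nat_lit 409) (nat_lit 85) (nat_lit 340) (@Lb.fp (nat_lit 9) t1640))))))))))))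
noncomputable def l32556 : Lb := (@Lb.r r323 (@Lb.d (nat_lit 2) (nat_lit 9) (nat_lit 2) (@Lb.g g8 (@Lb.g g9 (@Lb.g g10 (@Lb.r r1706 (@Lb.r r1700 (@Lb.r r1575 (@Lb.r r1553 (@Lb.d (nat_lit 5) (nat_lit 98) (nat_lit 586) (@Lb.t (@Lb.fm (nat_lit 9) t74))))))))))))
noncomputable def l32557 : Lb := (@Lb.d (nat_lit 281) (nat_lit 165) (nat_lit 608) (@Lb.r r1366 (@Lb.r r2692 (@Lb.r r2705 (@Lb.r r2439 (@Lb.g g7 (@Lb.g g6 (@Lb.d (nat_lit 16) (nat_lit 0) (nat_lit 68) (@Lb.fm (nat_lit 3) t1921)))))))))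
noncomputable def l32558 : Lb := (@Lb.r r101 (@Lb.d (nat_lit 25) (nat_lit 265) (nat_lit 0) (@Lb.fm (nat_lit 1) t87)))
noncomputable def l32559 : Lb := (@Lb.r r82 (@Lb.d (nat_lit 34) (nat_lit 514) (nat_lit 128) (@Lb.g g8 (@Lb.g g9 (@Lb.g g11 (@Lb.r r363 (@Lb.r r582 (@Lb.r r420 (@Lb.d (nat_lit 105) (nat_lit 166) (nat_lit 137) (@Lb.t (@Lb.fm (nat_lit 9) t337)))))))))))
noncomputable def l32560 : Lb := (@Lb.d (nat_lit 657) (nat_lit 82) (nat_lit 648) (@Lb.r r1185 (@Lb.r r594 (@Lb.r r1383 (@Lb.r r516 (@Lb.g g7 (@Lb.g g5 (@Lb.d (nat_lit 68) (nat_lit 1) (nat_lit 64) (@Lb.fp (nat_lit 3) t1350)))))))))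
noncomputable def l32561 : Lb := (@Lb.d (nat_lit 10) (nat_lit 512) (nat_lit 0) (@Lb.g g8 (@Lb.r r1355 (@Lb.r r1606 (@Lb.r r1557 (@Lb.r r1316 (@Lb.d (nat_lit 354) (nat_lit 36) (nat_lit 384) (@Lb.t (@Lb.fp (nat_lit 3) t2102)))))))))
noncomputable def l32562 : Lb := (@Lb.d (nat_lit 577) (nat_lit 74) (nat_lit 80) (@Lb.r r264 (@Lb.r r82 (@Lb.r r599 (@Lb.g g5 (@Lb.g g4 (@Lb.d (nat_lit 66) (nat_lit 24) (nat_lit 0) (@Lb.r r291 (@Lb.r r98 (@Lb.fm (nat_lit 3) t1573))))))))))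
noncomputable def l32563 : Lb := (@Lb.d (nat_lit 401) (nat_lit 642) (nat_lit 657) (@Lb.r r24 (@Lb.r r402 (@Lb.g g11 (@Lb.g g6 (@Lb.g g9 (@Lb.g g4 (@Lb.fp (nat_lit 9) t5858))))))))
noncomputable def l32564 : Lb := (@Lb.r r323 (@Lb.d (nat_lit 136) (nat_lit 264) (nat_lit 34) (@Lb.g g8 (@Lb.g g10 (@Lb.r r615 (@Lb.r r533 (@Lb.r r2340 (@Lb.d (nat_lit 104) (nat_lit 98) (nat_lit 673) (@Lb.fp (nat_lit 3) t221)))))))))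
noncomputable def l32565 : Lb := (@Lb.r r323 (@Lb.d (nat_lit 0) (nat_lit 256) (nat_lit 1) (@Lb.g g6 (@Lb.r r387 (@Lb.r r2145 (@Lb.r r36 (@Lb.d (nat_lit 5) (nat_lit 72) (nat_lit 34) (@Lb.t (@Lb.fp (nat_lit 3) t40)))))))))
noncomputable def l32566 : Lb := (@Lb.d (nat_lit 130) (nat_lit 256) (nat_lit 0) (@Lb.g g8 (@Lb.r r345 (@Lb.r r2727 (@Lb.r r1638 (@Lb.r r1176 (@Lb.d (nat_lit 154) (nat_lit 154) (nat_lit 354) (@Lb.t (@Lb.fp (nat_lit 3) t5859)))))))))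
noncomputable def l32567 : Lb := (@Lb.d (nat_lit 38) (nat_lit 548) (nat_lit 64) (@Lb.g g8 (@Lb.g g9 (@Lb.g g10 (@Lb.g g11 (@Lb.r r419 (@Lb.r r1122 (@Lb.r r1060 (@Lb.r r2341 (@Lb.d (nat_lit 170) (nat_lit 17) (nat_lit 4) (@Lb.fm (nat_lit 9) t2845)))))))))))
noncomputable def l32568 : Lb := (@Lb.r r82 (@Lb.r r275 (@Lb.d (nat_lit 9) (nat_lit 129) (nat_lit 0) (@Lb.g g8 (@Lb.g g5 (@Lb.r r2315 (@Lb.r r2122 (@Lb.d (nat_lit 260) (nat_lit 1) (nat_lit 0) (@Lb.fp (nat_lit 3) t116)))))))))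
noncomputable def l32569 : Lb := (@Lb.r r81 (@Lb.r r263 (@Lb.d (nat_lit 16) (nat_lit 516) (nat_lit 1) (@Lb.g g8 (@Lb.g g10 (@Lb.r r2459 (@Lb.r r2201 (@Lb.r r2216 (@Lb.d (nat_lit 545) (nat_lit 65) (nat_lit 17) (@Lb.fp (nat_lit 3) t4368))))))))))
noncomputable def l32570 : Lb := (@Lb.d (nat_lit 136) (nat_lit 512) (nat_lit 130) (@Lb.g g9 (@Lb.g g10 (@Lb.g g11 (@Lb.r r264 (@Lb.r r1303 (@Lb.r r1697 (@Lb.r r98 (@Lb.d (nat_lit 258) (nat_lit 8) (nat_lit 294) (@Lb.t (@Lb.fm (nat_lit 9) t420)))))))))))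
noncomputable def l32571 : Lb := (@Lb.g g4 (@Lb.r r2311 (@Lb.r r2118 (@Lb.r r2069 (@Lb.r r36 (@Lb.d (nat_lit 1) (nat_lit 576) (nat_lit 0) (@Lb.t (@Lb.fm (nat_lit 3) t710))))))))
noncomputable def l32572 : Lb := (@Lb.r r82 (@Lb.d (nat_lit 2) (nat_lit 2) (nat_lit 128) (@Lb.g g8 (@Lb.g g9 (@Lb.g g11 (@Lb.r r1643 (@Lb.r r386 (@Lb.r r1188 (@Lb.r r1061 (@Lb.d (nat_lit 361) (nat_lit 137) (nat_lit 593) (@Lb.t (@Lb.fp (nat_lit 9) t98))))))))))))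
noncomputable def l32573 : Lb := (@Lb.g g9 (@Lb.d (nat_lit 10) (nat_lit 9) (nat_lit 2) (@Lb.t (@Lb.fp (nat_lit 3) t21))))
noncomputable def l32574 : Lb := (@Lb.r r82 (@Lb.d (nat_lit 2) (nat_lit 545) (nat_lit 64) (@Lb.g g8 (@Lb.g g9 (@Lb.g g11 (@Lb.r r1643 (@Lb.r r386 (@Lb.r r1380 (@Lb.r r1445 (@Lb.d (nat_lit 264) (nat_lit 161) (nat_lit 65) (@Lb.t (@Lb.fp (nat_lit 9) t98))))))))))))
noncomputable def l32575 : Lb := (@Lb.d (nat_lit 2) (nat_lit 514) (nat_lit 130) (@Lb.g g8 (@Lb.g g9 (@Lb.g g10 (@Lb.g g11 (@Lb.r r665 (@Lb.r r411 (@Lb.r r2122 (@Lb.r r2577 (@Lb.d (nat_lit 550) (nat_lit 74) (nat_lit 673) (@Lb.fp (nat_lit 9) t1863)))))))))))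
noncomputable def l32576 : Lb := (@Lb.d (nat_lit 338) (nat_lit 390) (nat_lit 338) (@Lb.r r2312 (@Lb.r r1106 (@Lb.r r1623 (@Lb.g g6 (@Lb.g g5 (@Lb.g g4 (@Lb.d (nat_lit 65) (nat_lit 129) (nat_lit 1) (@Lb.r r387 (@Lb.t (@Lb.fp (nat_lit 9) t98)))))))))))
noncomputable def l32577 : Lb := (@Lb.d (nat_lit 0) (nat_lit 384) (nat_lit 640) (@Lb.r r289 (@Lb.r r279 (@Lb.r r584 (@Lb.r r2406 (@Lb.g g10 (@Lb.r r387 (@Lb.t (@Lb.fp (nat_lit 3) t1260)))))))))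
noncomputable def l32578 : Lb := (@Lb.g g5 (@Lb.g g7 (@Lb.r r2323 (@Lb.r r2130 (@Lb.r r2085 (@Lb.r r24 (@Lb.p (nat_lit 2) (@Lb.fm (nat_lit 3) t284))))))))
noncomputable def l32579 : Lb := (@Lb.d (nat_lit 338) (nat_lit 134) (nat_lit 338) (@Lb.r r2312 (@Lb.r r1106 (@Lb.r r1623 (@Lb.g g6 (@Lb.g g5 (@Lb.g g4 (@Lb.d (nat_lit 66) (nat_lit 129) (nat_lit 1) (@Lb.r r387 (@Lb.t (@Lb.fp (nat_lit 9) t98)))))))))))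
noncomputable def l32580 : Lb := (@Lb.d (nat_lit 528) (nat_lit 0) (nat_lit 1) (@Lb.r r273 (@Lb.r r2178 (@Lb.r r2467 (@Lb.r r401 (@Lb.g g8 (@Lb.d (nat_lit 530) (nat_lit 0) (nat_lit 0) (@Lb.t (@Lb.fm (nat_lit 3) t229)))))))))
noncomputable def l32581 : Lb := (@Lb.r r2323 (@Lb.r r2130 (@Lb.r r2085 (@Lb.r r24 (@Lb.fp (nat_lit 1) t284)))))
noncomputable def l32582 : Lb := (@Lb.d (nat_lit 32) (nat_lit 520) (nat_lit 130) (@Lb.g g10 (@Lb.g g11 (@Lb.r r324 (@Lb.r r651 (@Lb.r r357 (@Lb.r r666 (@Lb.d (nat_lit 74) (nat_lit 37) (nat_lit 8) (@Lb.fp (nat_lit 3) t167)))))))))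
noncomputable def l32583 : Lb := (@Lb.d (nat_lit 2) (nat_lit 264) (nat_lit 130) (@Lb.g g8 (@Lb.g g10 (@Lb.g g11 (@Lb.r r2699 (@Lb.r r2601 (@Lb.r r2724 (@Lb.r r134 (@Lb.d (nat_lit 34) (nat_lit 18) (nat_lit 297) (@Lb.t (@Lb.fp (nat_lit 9) t2919)))))))))))
noncomputable def l32584 : Lb := (@Lb.d (nat_lit 24) (nat_lit 257) (nat_lit 74) (@Lb.g g8 (@Lb.g g9 (@Lb.g g10 (@Lb.g g11 (@Lb.r r427 (@Lb.r r1602 (@Lb.r r2601 (@Lb.r r1316 (@Lb.d (nat_lit 9) (nat_lit 69) (nat_lit 600) (@Lb.fm (nat_lit 9) t644)))))))))))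
noncomputable def l32585 : Lb := (@Lb.d (nat_lit 0) (nat_lit 10) (nat_lit 129) (@Lb.g g9 (@Lb.g g10 (@Lb.g g11 (@Lb.r r419 (@Lb.r r98 (@Lb.d (nat_lit 0) (nat_lit 4) (nat_lit 8) (@Lb.t (@Lb.fm (nat_lit 9) t1176)))))))))
noncomputable def l32586 : Lb := (@Lb.d (nat_lit 0) (nat_lit 514) (nat_lit 1) (@Lb.g g9 (@Lb.g g10 (@Lb.r r673 (@Lb.r r162 (@Lb.r r2193 (@Lb.d (nat_lit 0) (nat_lit 153) (nat_lit 410) (@Lb.fm (nat_lit 3) t5860))))))))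
noncomputable def l32587 : Lb := (@Lb.d (nat_lit 0) (nat_lit 256) (nat_lit 4) (@Lb.g g10 (@Lb.g g11 (@Lb.r r419 (@Lb.r r386 (@Lb.r r101 (@Lb.r r24 (@Lb.d (nat_lit 98) (nat_lit 10) (nat_lit 8) (@Lb.fp (nat_lit 3) t263)))))))))
noncomputable def l32588 : Lb := (@Lb.r r323 (@Lb.d (nat_lit 2) (nat_lit 9) (nat_lit 20) (@Lb.g g8 (@Lb.g g9 (@Lb.g g6 (@Lb.r r2657 (@Lb.r r24 (@Lb.d (nat_lit 10) (nat_lit 89) (nat_lit 552) (@Lb.t (@Lb.fp (nat_lit 9) t647))))))))))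
noncomputable def l32589 : Lb := (@Lb.d (nat_lit 0) (nat_lit 138) (nat_lit 18) (@Lb.r r402 (@Lb.r r2403 (@Lb.g g11 (@Lb.g g10 (@Lb.fp (nat_lit 3) t369))))))
noncomputable def l32590 : Lb := (@Lb.d (nat_lit 0) (nat_lit 656) (nat_lit 168) (@Lb.r r2403 (@Lb.r r594 (@Lb.g g6 (@Lb.t (@Lb.fm (nat_lit 3) t295))))))
noncomputable def l32591 : Lb := (@Lb.d (nat_lit 26) (nat_lit 1) (nat_lit 128) (@Lb.g g8 (@Lb.g g9 (@Lb.g g10 (@Lb.g g11 (@Lb.r r2723 (@Lb.r r164 (@Lb.r r661 (@Lb.r r150 (@Lb.r r2084 (@Lb.d (nat_lit 546) (nat_lit 34) (nat_lit 89) (@Lb.fp (nat_lit 9) t546))))))))))))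
noncomputable def l32592 : Lb := (@Lb.d (nat_lit 0) (nat_lit 600) (nat_lit 521) (@Lb.g g5 (@Lb.t (@Lb.fm (nat_lit 3) t5861))))
noncomputable def l32593 : Lb := (@Lb.d (nat_lit 146) (nat_lit 272) (nat_lit 74) (@Lb.g g8 (@Lb.g g9 (@Lb.g g10 (@Lb.g g11 (@Lb.r r2691 (@Lb.r r1442 (@Lb.r r297 (@Lb.r r1060 (@Lb.d (nat_lit 329) (nat_lit 130) (nat_lit 136) (@Lb.fm (nat_lit 9) t1077)))))))))))
noncomputable def l32594 : Lb := (@Lb.d (nat_lit 657) (nat_lit 386) (nat_lit 152) (@Lb.r r529 (@Lb.r r2194 (@Lb.r r1563 (@Lb.r r516 (@Lb.g g7 (@Lb.g g5 (@Lb.d (nat_lit 68) (nat_lit 0) (nat_lit 64) (@Lb.fm (nat_lit 3) t741)))))))))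
noncomputable def l32595 : Lb := (@Lb.r r82 (@Lb.r r275 (@Lb.d (nat_lit 130) (nat_lit 10) (nat_lit 0) (@Lb.g g8 (@Lb.g g9 (@Lb.r r663 (@Lb.r r146 (@Lb.r r2456 (@Lb.d (nat_lit 649) (nat_lit 82) (nat_lit 682) (@Lb.fp (nat_lit 3) t1754))))))))))
noncomputable def l32596 : Lb := (@Lb.d (nat_lit 536) (nat_lit 585) (nat_lit 2) (@Lb.r r1172 (@Lb.g g9 (@Lb.d (nat_lit 0) (nat_lit 10) (nat_lit 0) (@Lb.t (@Lb.fp (nat_lit 3) t5176))))))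
noncomputable def l32597 : Lb := (@Lb.d (nat_lit 17) (nat_lit 136) (nat_lit 36) (@Lb.r r21 (@Lb.r r100 (@Lb.r r579 (@Lb.g g7 (@Lb.g g10 (@Lb.g g5 (@Lb.d (nat_lit 0) (nat_lit 1) (nat_lit 134) (@Lb.t (@Lb.fp (nat_lit 9) t329))))))))))
noncomputable def l32598 : Lb := (@Lb.r r1362 (@Lb.d (nat_lit 4) (nat_lit 256) (nat_lit 128) (@Lb.g g8 (@Lb.g g9 (@Lb.g g11 (@Lb.r r2667 (@Lb.r r609 (@Lb.r r24 (@Lb.d (nat_lit 9) (nat_lit 25) (nat_lit 537) (@Lb.t (@Lb.fp (nat_lit 9) t1023)))))))))))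
noncomputable def l32599 : Lb := (@Lb.d (nat_lit 32) (nat_lit 256) (nat_lit 1) (@Lb.g g10 (@Lb.r r1284 (@Lb.r r2651 (@Lb.r r1414 (@Lb.r r2145 (@Lb.d (nat_lit 356) (nat_lit 88) (nat_lit 682) (@Lb.t (@Lb.fm (nat_lit 3) t1242)))))))))
noncomputable def l32600 : Lb := (@Lb.d (nat_lit 32) (nat_lit 322) (nat_lit 136) (@Lb.g g8 (@Lb.g g9 (@Lb.g g11 (@Lb.r r150 (@Lb.r r340 (@Lb.r r1291 (@Lb.d (nat_lit 10) (nat_lit 136) (nat_lit 340) (@Lb.t (@Lb.fp (nat_lit 9) t820))))))))))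
noncomputable def l32601 : Lb := (@Lb.d (nat_lit 2) (nat_lit 282) (nat_lit 136) (@Lb.g g8 (@Lb.g g9 (@Lb.g g10 (@Lb.g g11 (@Lb.r r427 (@Lb.r r1169 (@Lb.r r356 (@Lb.r r154 (@Lb.r r132 (@Lb.d (nat_lit 265) (nat_lit 73) (nat_lit 137) (@Lb.fm (nat_lit 9) t5862))))))))))))
noncomputable def l32602 : Lb := (@Lb.d (nat_lit 2) (nat_lit 282) (nat_lit 73) (@Lb.g g8 (@Lb.g g9 (@Lb.g g10 (@Lb.g g11 (@Lb.r r618 (@Lb.r r2411 (@Lb.r r1121 (@Lb.r r24 (@Lb.d (nat_lit 585) (nat_lit 137) (nat_lit 134) (@Lb.fp (nat_lit 9) t2304)))))))))))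
noncomputable def l32603 : Lb := (@Lb.r r21 (@Lb.d (nat_lit 2) (nat_lit 0) (nat_lit 130) (@Lb.g g8 (@Lb.g g10 (@Lb.g g11 (@Lb.r r1691 (@Lb.r r1381 (@Lb.r r2202 (@Lb.r r2180 (@Lb.d (nat_lit 600) (nat_lit 65) (nat_lit 609) (@Lb.t (@Lb.fp (nat_lit 9) t284))))))))))))
noncomputable def l32604 : Lb := (@Lb.d (nat_lit 2) (nat_lit 282) (nat_lit 1) (@Lb.g g8 (@Lb.g g9 (@Lb.g g10 (@Lb.g g11 (@Lb.r r427 (@Lb.r r420 (@Lb.r r102 (@Lb.r r1109 (@Lb.r r164 (@Lb.d (nat_lit 545) (nat_lit 70) (nat_lit 153) (@Lb.fp (nat_lit 9) t1754))))))))))))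
noncomputable def l32605 : Lb := (@Lb.r r323 (@Lb.d (nat_lit 10) (nat_lit 520) (nat_lit 26) (@Lb.g g8 (@Lb.g g10 (@Lb.r r2577 (@Lb.r r2459 (@Lb.r r2436 (@Lb.d (nat_lit 342) (nat_lit 69) (nat_lit 681) (@Lb.fm (nat_lit 3) t741)))))))))
noncomputable def l32606 : Lb := (@Lb.r r323 (@Lb.d (nat_lit 130) (nat_lit 66) (nat_lit 2) (@Lb.g g8 (@Lb.g g9 (@Lb.g g10 (@Lb.r r1623 (@Lb.r r2146 (@Lb.r r408 (@Lb.d (nat_lit 393) (nat_lit 20) (nat_lit 136) (@Lb.t (@Lb.fm (nat_lit 9) t1242)))))))))))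
noncomputable def l32607 : Lb := (@Lb.r r323 (@Lb.d (nat_lit 130) (nat_lit 578) (nat_lit 2) (@Lb.g g8 (@Lb.g g9 (@Lb.g g10 (@Lb.r r1623 (@Lb.r r2146 (@Lb.r r408 (@Lb.d (nat_lit 393) (nat_lit 25) (nat_lit 137) (@Lb.t (@Lb.fm (nat_lit 9) t1242)))))))))))
noncomputable def l32608 : Lb := (@Lb.d (nat_lit 394) (nat_lit 672) (nat_lit 640) (@Lb.r r2341 (@Lb.r r1624 (@Lb.r r1430 (@Lb.r r1555 (@Lb.g g7 (@Lb.g g6 (@Lb.g g5 (@Lb.d (nat_lit 0) (nat_lit 5) (nat_lit 132) (@Lb.t (@Lb.fp (nat_lit 9) t1490)))))))))))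
noncomputable def l32609 : Lb := (@Lb.d (nat_lit 1) (nat_lit 384) (nat_lit 640) (@Lb.r r2341 (@Lb.r r1624 (@Lb.r r2438 (@Lb.g g11 (@Lb.g g5 (@Lb.d (nat_lit 0) (nat_lit 0) (nat_lit 128) (@Lb.fm (nat_lit 3) t635))))))))
noncomputable def l32610 : Lb := (@Lb.d (nat_lit 10) (nat_lit 0) (nat_lit 66) (@Lb.g g8 (@Lb.g g10 (@Lb.g g11 (@Lb.r r1575 (@Lb.r r597 (@Lb.r r98 (@Lb.r r2436 (@Lb.d (nat_lit 86) (nat_lit 128) (nat_lit 648) (@Lb.t (@Lb.fp (nat_lit 9) t5863)))))))))))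
noncomputable def l32611 : Lb := (@Lb.r r21 (@Lb.d (nat_lit 129) (nat_lit 256) (nat_lit 66) (@Lb.g g8 (@Lb.g g10 (@Lb.g g11 (@Lb.r r1691 (@Lb.r r1689 (@Lb.r r1370 (@Lb.r r1348 (@Lb.d (nat_lit 392) (nat_lit 25) (nat_lit 586) (@Lb.t (@Lb.fp (nat_lit 9) t68))))))))))))
noncomputable def l32612 : Lb := (@Lb.d (nat_lit 4) (nat_lit 546) (nat_lit 4) (@Lb.g g8 (@Lb.g g9 (@Lb.g g10 (@Lb.g g11 (@Lb.r r2723 (@Lb.r r610 (@Lb.r r529 (@Lb.d (nat_lit 2) (nat_lit 41) (nat_lit 657) (@Lb.fm (nat_lit 9) t218))))))))))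
noncomputable def l32613 : Lb := (@Lb.r r323 (@Lb.d (nat_lit 0) (nat_lit 34) (nat_lit 2) (@Lb.g g8 (@Lb.g g9 (@Lb.g g10 (@Lb.r r599 (@Lb.r r74 (@Lb.r r296 (@Lb.r r409 (@Lb.d (nat_lit 149) (nat_lit 164) (nat_lit 132) (@Lb.t (@Lb.fm (nat_lit 9) t51))))))))))))
noncomputable def l32614 : Lb := (@Lb.d (nat_lit 357) (nat_lit 678) (nat_lit 581) (@Lb.r r1432 (@Lb.r r1354 (@Lb.r r343 (@Lb.g g5 (@Lb.g g4 (@Lb.d (nat_lit 17) (nat_lit 4) (nat_lit 0) (@Lb.r r299 (@Lb.r r98 (@Lb.fp (nat_lit 3) t50))))))))))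
noncomputable def l32615 : Lb := (@Lb.d (nat_lit 0) (nat_lit 0) (nat_lit 130) (@Lb.g g8 (@Lb.g g10 (@Lb.g g11 (@Lb.r r419 (@Lb.r r386 (@Lb.d (nat_lit 0) (nat_lit 98) (nat_lit 153) (@Lb.t (@Lb.fp (nat_lit 9) t305)))))))))
noncomputable def l32616 : Lb := (@Lb.d (nat_lit 1) (nat_lit 102) (nat_lit 358) (@Lb.r r404 (@Lb.r r2374 (@Lb.r r1691 (@Lb.g g7 (@Lb.g g9 (@Lb.g g4 (@Lb.d (nat_lit 10) (nat_lit 10) (nat_lit 64) (@Lb.r r74 (@Lb.t (@Lb.fp (nat_lit 9) t5864)))))))))))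
noncomputable def l32617 : Lb := (@Lb.g g8 (@Lb.g g5 (@Lb.g g10 (@Lb.g g7 (@Lb.r r402 (@Lb.r r24 (@Lb.d (nat_lit 610) (nat_lit 321) (nat_lit 354) (@Lb.fp (nat_lit 9) t1994))))))))
noncomputable def l32618 : Lb := (@Lb.r r82 (@Lb.d (nat_lit 2) (nat_lit 2) (nat_lit 128) (@Lb.g g8 (@Lb.g g9 (@Lb.g g11 (@Lb.r r657 (@Lb.r r1687 (@Lb.r r146 (@Lb.r r2436 (@Lb.d (nat_lit 144) (nat_lit 5) (nat_lit 394) (@Lb.t (@Lb.fm (nat_lit 9) t460))))))))))))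
noncomputable def l32619 : Lb := (@Lb.d (nat_lit 106) (nat_lit 321) (nat_lit 70) (@Lb.r r2632 (@Lb.r r2454 (@Lb.r r1611 (@Lb.g g7 (@Lb.g g9 (@Lb.g g4 (@Lb.d (nat_lit 24) (nat_lit 10) (nat_lit 64) (@Lb.r r74 (@Lb.t (@Lb.fp (nat_lit 9) t5864)))))))))))
noncomputable def l32620 : Lb := (@Lb.d (nat_lit 88) (nat_lit 666) (nat_lit 74) (@Lb.r r345 (@Lb.r r276 (@Lb.r r2635 (@Lb.r r1442 (@Lb.g g6 (@Lb.g g5 (@Lb.g g4 (@Lb.d (nat_lit 8) (nat_lit 21) (nat_lit 2) (@Lb.t (@Lb.fp (nat_lit 9) t1702)))))))))))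
noncomputable def l32621 : Lb := (@Lb.d (nat_lit 5) (nat_lit 601) (nat_lit 10) (@Lb.r r594 (@Lb.r r539 (@Lb.r r660 (@Lb.g g6 (@Lb.g g5 (@Lb.d (nat_lit 16) (nat_lit 1) (nat_lit 0) (@Lb.r r419 (@Lb.fp (nat_lit 3) t2394)))))))))
noncomputable def l32622 : Lb := (@Lb.r r82 (@Lb.r r275 (@Lb.d (nat_lit 32) (nat_lit 386) (nat_lit 0) (@Lb.g g8 (@Lb.g g9 (@Lb.r r1619 (@Lb.r r150 (@Lb.r r84 (@Lb.d (nat_lit 533) (nat_lit 133) (nat_lit 2) (@Lb.fm (nat_lit 3) t685))))))))))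
noncomputable def l32623 : Lb := (@Lb.d (nat_lit 2) (nat_lit 514) (nat_lit 66) (@Lb.g g8 (@Lb.g g9 (@Lb.g g10 (@Lb.g g11 (@Lb.r r586 (@Lb.r r1619 (@Lb.r r2337 (@Lb.r r24 (@Lb.d (nat_lit 586) (nat_lit 85) (nat_lit 577) (@Lb.fm (nat_lit 9) t3756)))))))))))
noncomputable def l32624 : Lb := (@Lb.d (nat_lit 2) (nat_lit 33) (nat_lit 66) (@Lb.g g8 (@Lb.g g9 (@Lb.g g10 (@Lb.g g11 (@Lb.r r427 (@Lb.r r68 (@Lb.r r2474 (@Lb.r r2453 (@Lb.r r20 (@Lb.d (nat_lit 134) (nat_lit 25) (nat_lit 649) (@Lb.fm (nat_lit 9) t5865))))))))))))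
noncomputable def l32625 : Lb := (@Lb.d (nat_lit 2) (nat_lit 2) (nat_lit 2) (@Lb.g g8 (@Lb.g g9 (@Lb.g g10 (@Lb.r r2666 (@Lb.r r579 (@Lb.r r2337 (@Lb.r r24 (@Lb.d (nat_lit 581) (nat_lit 146) (nat_lit 266) (@Lb.t (@Lb.fp (nat_lit 9) t504)))))))))))
noncomputable def l32626 : Lb := (@Lb.d (nat_lit 2) (nat_lit 514) (nat_lit 2) (@Lb.g g8 (@Lb.g g9 (@Lb.g g10 (@Lb.r r2666 (@Lb.r r579 (@Lb.r r2337 (@Lb.r r24 (@Lb.d (nat_lit 586) (nat_lit 144) (nat_lit 266) (@Lb.t (@Lb.fp (nat_lit 9) t504)))))))))))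
noncomputable def l32627 : Lb := (@Lb.d (nat_lit 32) (nat_lit 512) (nat_lit 73) (@Lb.g g10 (@Lb.g g11 (@Lb.r r423 (@Lb.r r596 (@Lb.r r1433 (@Lb.r r410 (@Lb.d (nat_lit 154) (nat_lit 26) (nat_lit 660) (@Lb.fp (nat_lit 3) t188)))))))))
noncomputable def l32628 : Lb := (@Lb.d (nat_lit 9) (nat_lit 1) (nat_lit 130) (@Lb.g g8 (@Lb.g g9 (@Lb.g g10 (@Lb.g g11 (@Lb.r r2666 (@Lb.r r579 (@Lb.r r97 (@Lb.r r24 (@Lb.d (nat_lit 425) (nat_lit 4) (nat_lit 424) (@Lb.fm (nat_lit 9) t61)))))))))))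
noncomputable def l32629 : Lb := (@Lb.d (nat_lit 32) (nat_lit 256) (nat_lit 74) (@Lb.g g10 (@Lb.g g11 (@Lb.r r324 (@Lb.r r651 (@Lb.r r681 (@Lb.r r618 (@Lb.d (nat_lit 86) (nat_lit 16) (nat_lit 138) (@Lb.fm (nat_lit 3) t39)))))))))
noncomputable def l32630 : Lb := (@Lb.r r21 (@Lb.r r70 (@Lb.d (nat_lit 33) (nat_lit 512) (nat_lit 0) (@Lb.g g4 (@Lb.g g7 (@Lb.r r74 (@Lb.r r25 (@Lb.d (nat_lit 24) (nat_lit 128) (nat_lit 69) (@Lb.fm (nat_lit 3) t2691)))))))))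
noncomputable def l32631 : Lb := (@Lb.r r82 (@Lb.d (nat_lit 130) (nat_lit 266) (nat_lit 128) (@Lb.g g8 (@Lb.g g9 (@Lb.g g11 (@Lb.r r2386 (@Lb.r r667 (@Lb.r r145 (@Lb.r r2644 (@Lb.d (nat_lit 153) (nat_lit 33) (nat_lit 425) (@Lb.t (@Lb.fp (nat_lit 9) t4255))))))))))))
noncomputable def l32632 : Lb := (@Lb.d (nat_lit 128) (nat_lit 0) (nat_lit 64) (@Lb.g g11 (@Lb.r r264 (@Lb.r r519 (@Lb.r r81 (@Lb.r r162 (@Lb.r r145 (@Lb.d (nat_lit 129) (nat_lit 145) (nat_lit 394) (@Lb.t (@Lb.fm (nat_lit 3) t210))))))))))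
noncomputable def l32633 : Lb := (@Lb.r r323 (@Lb.d (nat_lit 2) (nat_lit 521) (nat_lit 1) (@Lb.g g8 (@Lb.g g9 (@Lb.g g10 (@Lb.r r2730 (@Lb.r r1419 (@Lb.r r664 (@Lb.r r1637 (@Lb.d (nat_lit 420) (nat_lit 128) (nat_lit 74) (@Lb.t (@Lb.fp (nat_lit 9) t202))))))))))))
noncomputable def l32634 : Lb := (@Lb.d (nat_lit 146) (nat_lit 521) (nat_lit 129) (@Lb.g g8 (@Lb.g g9 (@Lb.g g10 (@Lb.g g11 (@Lb.r r1699 (@Lb.r r1193 (@Lb.r r2472 (@Lb.r r1130 (@Lb.d (nat_lit 420) (nat_lit 5) (nat_lit 584) (@Lb.fm (nat_lit 9) t4640)))))))))))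
noncomputable def l32635 : Lb := (@Lb.r r20 (@Lb.d (nat_lit 0) (nat_lit 289) (nat_lit 130) (@Lb.g g9 (@Lb.g g10 (@Lb.g g11 (@Lb.r r675 (@Lb.r r2705 (@Lb.r r146 (@Lb.d (nat_lit 0) (nat_lit 137) (nat_lit 169) (@Lb.t (@Lb.fm (nat_lit 9) t1397)))))))))))
noncomputable def l32636 : Lb := (@Lb.d (nat_lit 2) (nat_lit 256) (nat_lit 0) (@Lb.g g8 (@Lb.r r101 (@Lb.d (nat_lit 256) (nat_lit 90) (nat_lit 282) (@Lb.t (@Lb.fm (nat_lit 3) t1174))))))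
noncomputable def l32637 : Lb := (@Lb.r r421 (@Lb.r r2651 (@Lb.r r2178 (@Lb.r r2564 (@Lb.d (nat_lit 664) (nat_lit 410) (nat_lit 394) (@Lb.fm (nat_lit 1) t5866))))))
noncomputable def l32638 : Lb := (@Lb.d (nat_lit 134) (nat_lit 266) (nat_lit 129) (@Lb.g g8 (@Lb.g g9 (@Lb.g g10 (@Lb.g g11 (@Lb.r r2435 (@Lb.r r1177 (@Lb.r r1426 (@Lb.r r584 (@Lb.d (nat_lit 98) (nat_lit 21) (nat_lit 100) (@Lb.fp (nat_lit 9) t4460)))))))))))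
noncomputable def l32639 : Lb := (@Lb.d (nat_lit 5) (nat_lit 289) (nat_lit 128) (@Lb.r r402 (@Lb.g g11 (@Lb.g g4 (@Lb.d (nat_lit 5) (nat_lit 0) (nat_lit 0) (@Lb.fm (nat_lit 3) t369))))))
noncomputable def l32640 : Lb := (@Lb.r r21 (@Lb.d (nat_lit 129) (nat_lit 0) (nat_lit 9) (@Lb.g g8 (@Lb.g g10 (@Lb.g g11 (@Lb.r r2730 (@Lb.r r2467 (@Lb.r r145 (@Lb.r r2180 (@Lb.d (nat_lit 325) (nat_lit 32) (nat_lit 344) (@Lb.t (@Lb.fp (nat_lit 9) t2306))))))))))))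
noncomputable def l32641 : Lb := (@Lb.r r273 (@Lb.r r2595 (@Lb.r r2178 (@Lb.r r529 (@Lb.r r2584 (@Lb.d (nat_lit 330) (nat_lit 610) (nat_lit 128) (@Lb.fm (nat_lit 1) t1222)))))))
noncomputable def l32642 : Lb := (@Lb.r r81 (@Lb.r r323 (@Lb.d (nat_lit 16) (nat_lit 520) (nat_lit 34) (@Lb.g g6 (@Lb.r r387 (@Lb.r r88 (@Lb.r r37 (@Lb.d (nat_lit 24) (nat_lit 90) (nat_lit 282) (@Lb.t (@Lb.fm (nat_lit 3) t1291))))))))))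
noncomputable def l32643 : Lb := (@Lb.r r21 (@Lb.d (nat_lit 129) (nat_lit 0) (nat_lit 73) (@Lb.g g8 (@Lb.g g10 (@Lb.g g11 (@Lb.r r1674 (@Lb.r r1125 (@Lb.r r1688 (@Lb.r r2443 (@Lb.d (nat_lit 409) (nat_lit 149) (nat_lit 264) (@Lb.t (@Lb.fp (nat_lit 9) t125))))))))))))
noncomputable def l32644 : Lb := (@Lb.d (nat_lit 9) (nat_lit 260) (nat_lit 64) (@Lb.g g8 (@Lb.g g9 (@Lb.g g10 (@Lb.g g11 (@Lb.r r2435 (@Lb.r r386 (@Lb.r r612 (@Lb.r r533 (@Lb.r r1060 (@Lb.d (nat_lit 0) (nat_lit 5) (nat_lit 400) (@Lb.fm (nat_lit 9) t4384))))))))))))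
noncomputable def l32645 : Lb := (@Lb.d (nat_lit 18) (nat_lit 261) (nat_lit 394) (@Lb.r r2120 (@Lb.r r662 (@Lb.r r2707 (@Lb.r r353 (@Lb.g g7 (@Lb.g g4 (@Lb.d (nat_lit 1) (nat_lit 0) (nat_lit 64) (@Lb.fm (nat_lit 3) t5867)))))))))
noncomputable def l32646 : Lb := (@Lb.d (nat_lit 153) (nat_lit 534) (nat_lit 594) (@Lb.r r2579 (@Lb.r r1385 (@Lb.r r1174 (@Lb.g g7 (@Lb.g g5 (@Lb.g g4 (@Lb.d (nat_lit 1) (nat_lit 5) (nat_lit 132) (@Lb.t (@Lb.fm (nat_lit 9) t5868))))))))))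
noncomputable def l32647 : Lb := (@Lb.d (nat_lit 10) (nat_lit 410) (nat_lit 362) (@Lb.r r1317 (@Lb.r r24 (@Lb.r r1354 (@Lb.r r2691 (@Lb.g g7 (@Lb.g g6 (@Lb.d (nat_lit 0) (nat_lit 0) (nat_lit 72) (@Lb.fp (nat_lit 3) t5869)))))))))
noncomputable def l32648 : Lb := (@Lb.d (nat_lit 648) (nat_lit 342) (nat_lit 1) (@Lb.r r1362 (@Lb.r r531 (@Lb.r r2337 (@Lb.g g7 (@Lb.g g4 (@Lb.d (nat_lit 8) (nat_lit 16) (nat_lit 128) (@Lb.fm (nat_lit 3) t1762))))))))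
noncomputable def l32649 : Lb := (@Lb.d (nat_lit 10) (nat_lit 610) (nat_lit 276) (@Lb.r r97 (@Lb.r r1106 (@Lb.r r1299 (@Lb.g g5 (@Lb.d (nat_lit 0) (nat_lit 1) (nat_lit 0) (@Lb.t (@Lb.fp (nat_lit 3) t1484))))))))
noncomputable def l32650 : Lb := (@Lb.d (nat_lit 10) (nat_lit 553) (nat_lit 132) (@Lb.r r82 (@Lb.r r421 (@Lb.r r24 (@Lb.g g11 (@Lb.g g6 (@Lb.d (nat_lit 0) (nat_lit 0) (nat_lit 1) (@Lb.fp (nat_lit 3) t263))))))))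
noncomputable def l32651 : Lb := (@Lb.d (nat_lit 536) (nat_lit 98) (nat_lit 357) (@Lb.r r2148 (@Lb.r r402 (@Lb.g g7 (@Lb.d (nat_lit 0) (nat_lit 0) (nat_lit 68) (@Lb.t (@Lb.fp (nat_lit 3) t5870)))))))
noncomputable def l32652 : Lb := (@Lb.r r323 (@Lb.d (nat_lit 8) (nat_lit 674) (nat_lit 2) (@Lb.g g9 (@Lb.g g10 (@Lb.r r354 (@Lb.r r387 (@Lb.d (nat_lit 2) (nat_lit 33) (nat_lit 321) (@Lb.fm (nat_lit 3) t2833))))))))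
noncomputable def l32653 : Lb := (@Lb.d (nat_lit 10) (nat_lit 354) (nat_lit 340) (@Lb.r r97 (@Lb.r r1106 (@Lb.r r1299 (@Lb.g g5 (@Lb.d (nat_lit 0) (nat_lit 1) (nat_lit 0) (@Lb.t (@Lb.fp (nat_lit 3) t1484))))))))
noncomputable def l32654 : Lb := (@Lb.r r21 (@Lb.d (nat_lit 41) (nat_lit 256) (nat_lit 8) (@Lb.g g8 (@Lb.g g6 (@Lb.r r273 (@Lb.r r423 (@Lb.r r600 (@Lb.d (nat_lit 88) (nat_lit 38) (nat_lit 138) (@Lb.fm (nat_lit 3) t1074)))))))))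
noncomputable def l32655 : Lb := (@Lb.r r283 (@Lb.d (nat_lit 8) (nat_lit 513) (nat_lit 2) (@Lb.g g8 (@Lb.g g5 (@Lb.g g10 (@Lb.r r682 (@Lb.r r660 (@Lb.r r519 (@Lb.d (nat_lit 6) (nat_lit 42) (nat_lit 138) (@Lb.t (@Lb.fp (nat_lit 9) t74)))))))))))
noncomputable def l32656 : Lb := (@Lb.d (nat_lit 8) (nat_lit 514) (nat_lit 128) (@Lb.g g9 (@Lb.g g11 (@Lb.r r1379 (@Lb.r r2626 (@Lb.d (nat_lit 2) (nat_lit 137) (nat_lit 84) (@Lb.fm (nat_lit 3) t51)))))))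
noncomputable def l32657 : Lb := (@Lb.d (nat_lit 2) (nat_lit 512) (nat_lit 130) (@Lb.g g8 (@Lb.g g9 (@Lb.g g10 (@Lb.g g11 (@Lb.r r2731 (@Lb.r r2601 (@Lb.r r616 (@Lb.r r2118 (@Lb.r r1156 (@Lb.d (nat_lit 2) (nat_lit 25) (nat_lit 297) (@Lb.fm (nat_lit 9) t591))))))))))))
noncomputable def l32658 : Lb := (@Lb.d (nat_lit 617) (nat_lit 152) (nat_lit 326) (@Lb.r r1623 (@Lb.r r2472 (@Lb.r r410 (@Lb.r r613 (@Lb.g g7 (@Lb.d (nat_lit 64) (nat_lit 0) (nat_lit 68) (@Lb.t (@Lb.fm (nat_lit 3) t210)))))))))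
noncomputable def l32659 : Lb := (@Lb.d (nat_lit 130) (nat_lit 256) (nat_lit 0) (@Lb.g g8 (@Lb.r r551 (@Lb.r r402 (@Lb.r r609 (@Lb.r r104 (@Lb.d (nat_lit 38) (nat_lit 64) (nat_lit 85) (@Lb.t (@Lb.fp (nat_lit 3) t479)))))))))
noncomputable def l32660 : Lb := (@Lb.d (nat_lit 1) (nat_lit 2) (nat_lit 73) (@Lb.g g8 (@Lb.g g9 (@Lb.g g10 (@Lb.g g11 (@Lb.r r2705 (@Lb.r r356 (@Lb.r r667 (@Lb.r r586 (@Lb.r r1540 (@Lb.d (nat_lit 289) (nat_lit 10) (nat_lit 97) (@Lb.fm (nat_lit 9) t145))))))))))))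
noncomputable def l32661 : Lb := (@Lb.d (nat_lit 5) (nat_lit 0) (nat_lit 2) (@Lb.g g4 (@Lb.g g10 (@Lb.g g7 (@Lb.r r386 (@Lb.d (nat_lit 6) (nat_lit 65) (nat_lit 9) (@Lb.t (@Lb.fp (nat_lit 9) t2))))))))
noncomputable def l32662 : Lb := (@Lb.d (nat_lit 4) (nat_lit 0) (nat_lit 0) (@Lb.g g8 (@Lb.g g9 (@Lb.r r40 (@Lb.r r105 (@Lb.r r1060 (@Lb.d (nat_lit 265) (nat_lit 138) (nat_lit 18) (@Lb.fm (nat_lit 3) t253))))))))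
noncomputable def l32663 : Lb := (@Lb.d (nat_lit 5) (nat_lit 256) (nat_lit 130) (@Lb.g g8 (@Lb.g g9 (@Lb.g g10 (@Lb.g g11 (@Lb.r r2691 (@Lb.r r297 (@Lb.r r360 (@Lb.r r582 (@Lb.r r2180 (@Lb.d (nat_lit 641) (nat_lit 10) (nat_lit 329) (@Lb.fm (nat_lit 9) t242))))))))))))
noncomputable def l32664 : Lb := (@Lb.r r323 (@Lb.d (nat_lit 0) (nat_lit 514) (nat_lit 2) (@Lb.g g8 (@Lb.g g9 (@Lb.g g10 (@Lb.r r150 (@Lb.r r356 (@Lb.r r1323 (@Lb.r r1313 (@Lb.d (nat_lit 10) (nat_lit 128) (nat_lit 640) (@Lb.t (@Lb.fm (nat_lit 9) t2166))))))))))))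
noncomputable def l32665 : Lb := (@Lb.d (nat_lit 144) (nat_lit 514) (nat_lit 4) (@Lb.g g8 (@Lb.g g9 (@Lb.g g10 (@Lb.g g11 (@Lb.r r642 (@Lb.r r1687 (@Lb.r r97 (@Lb.r r1048 (@Lb.d (nat_lit 680) (nat_lit 73) (nat_lit 681) (@Lb.fp (nat_lit 9) t4820)))))))))))
noncomputable def l32666 : Lb := (@Lb.d (nat_lit 553) (nat_lit 276) (nat_lit 357) (@Lb.r r362 (@Lb.r r1431 (@Lb.r r1641 (@Lb.r r360 (@Lb.g g7 (@Lb.g g6 (@Lb.d (nat_lit 16) (nat_lit 4) (nat_lit 128) (@Lb.fm (nat_lit 3) t3660)))))))))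
noncomputable def l32667 : Lb := (@Lb.d (nat_lit 8) (nat_lit 2) (nat_lit 130) (@Lb.g g9 (@Lb.g g10 (@Lb.g g11 (@Lb.r r2691 (@Lb.r r2376 (@Lb.r r1366 (@Lb.r r409 (@Lb.d (nat_lit 642) (nat_lit 66) (nat_lit 586) (@Lb.t (@Lb.fm (nat_lit 9) t5871)))))))))))
noncomputable def l32668 : Lb := (@Lb.d (nat_lit 8) (nat_lit 0) (nat_lit 73) (@Lb.g g9 (@Lb.g g10 (@Lb.g g11 (@Lb.r r2691 (@Lb.r r1610 (@Lb.r r2580 (@Lb.r r1385 (@Lb.d (nat_lit 642) (nat_lit 21) (nat_lit 70) (@Lb.t (@Lb.fm (nat_lit 9) t5872)))))))))))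
noncomputable def l32669 : Lb := (@Lb.d (nat_lit 0) (nat_lit 0) (nat_lit 73) (@Lb.g g10 (@Lb.g g11 (@Lb.r r1691 (@Lb.r r1610 (@Lb.r r24 (@Lb.r r101 (@Lb.d (nat_lit 609) (nat_lit 80) (nat_lit 645) (@Lb.fp (nat_lit 3) t3471)))))))))
noncomputable def l32670 : Lb := (@Lb.r r82 (@Lb.d (nat_lit 162) (nat_lit 674) (nat_lit 0) (@Lb.g g8 (@Lb.g g9 (@Lb.r r391 (@Lb.r r358 (@Lb.r r680 (@Lb.d (nat_lit 646) (nat_lit 149) (nat_lit 645) (@Lb.fp (nat_lit 3) t4)))))))))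
noncomputable def l32671 : Lb := (@Lb.d (nat_lit 4) (nat_lit 257) (nat_lit 73) (@Lb.g g5 (@Lb.g g10 (@Lb.g g11 (@Lb.r r2691 (@Lb.r r1178 (@Lb.r r24 (@Lb.d (nat_lit 337) (nat_lit 1) (nat_lit 529) (@Lb.t (@Lb.fm (nat_lit 9) t282))))))))))
noncomputable def l32672 : Lb := (@Lb.g g9 (@Lb.g g6 (@Lb.r r2599 (@Lb.r r2457 (@Lb.r r356 (@Lb.r r154 (@Lb.d (nat_lit 545) (nat_lit 512) (nat_lit 34) (@Lb.fp (nat_lit 3) t228))))))))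
noncomputable def l32673 : Lb := (@Lb.d (nat_lit 36) (nat_lit 260) (nat_lit 0) (@Lb.g g8 (@Lb.g g9 (@Lb.g g10 (@Lb.r r403 (@Lb.r r1169 (@Lb.r r598 (@Lb.r r2180 (@Lb.d (nat_lit 673) (nat_lit 161) (nat_lit 594) (@Lb.t (@Lb.fm (nat_lit 9) t86)))))))))))
noncomputable def l32674 : Lb := (@Lb.d (nat_lit 36) (nat_lit 546) (nat_lit 2) (@Lb.g g8 (@Lb.g g9 (@Lb.g g10 (@Lb.r r2579 (@Lb.r r2150 (@Lb.r r2405 (@Lb.r r2180 (@Lb.d (nat_lit 677) (nat_lit 144) (nat_lit 82) (@Lb.t (@Lb.fm (nat_lit 9) t329)))))))))))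
noncomputable def l32675 : Lb := (@Lb.d (nat_lit 8) (nat_lit 522) (nat_lit 0) (@Lb.g g9 (@Lb.g g10 (@Lb.r r1364 (@Lb.r r2715 (@Lb.r r357 (@Lb.r r90 (@Lb.d (nat_lit 344) (nat_lit 69) (nat_lit 660) (@Lb.fm (nat_lit 3) t5873)))))))))
noncomputable def l32676 : Lb := (@Lb.d (nat_lit 8) (nat_lit 258) (nat_lit 0) (@Lb.g g9 (@Lb.r r2599 (@Lb.r r1194 (@Lb.r r1304 (@Lb.r r2661 (@Lb.d (nat_lit 345) (nat_lit 73) (nat_lit 42) (@Lb.t (@Lb.fp (nat_lit 3) t2059)))))))))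
noncomputable def l32677 : Lb := (@Lb.d (nat_lit 4) (nat_lit 256) (nat_lit 130) (@Lb.g g8 (@Lb.g g9 (@Lb.g g10 (@Lb.g g11 (@Lb.r r2691 (@Lb.r r88 (@Lb.r r1173 (@Lb.r r1622 (@Lb.r r1188 (@Lb.d (nat_lit 641) (nat_lit 73) (nat_lit 361) (@Lb.fp (nat_lit 9) t5874))))))))))))
noncomputable def l32678 : Lb := (@Lb.d (nat_lit 6) (nat_lit 512) (nat_lit 0) (@Lb.g g8 (@Lb.r r2315 (@Lb.r r2122 (@Lb.r r2073 (@Lb.d (nat_lit 518) (nat_lit 65) (nat_lit 0) (@Lb.t (@Lb.fp (nat_lit 3) t1155))))))))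
noncomputable def l32679 : Lb := (@Lb.r r81 (@Lb.d (nat_lit 10) (nat_lit 256) (nat_lit 144) (@Lb.g g8 (@Lb.g g10 (@Lb.g g11 (@Lb.r r387 (@Lb.r r2341 (@Lb.r r1560 (@Lb.d (nat_lit 584) (nat_lit 105) (nat_lit 72) (@Lb.t (@Lb.fm (nat_lit 9) t2338)))))))))))
noncomputable def l32680 : Lb := (@Lb.r r2069 (@Lb.r r2118 (@Lb.r r2311 (@Lb.d (nat_lit 1) (nat_lit 256) (nat_lit 0) (@Lb.g g4 (@Lb.d (nat_lit 1) (nat_lit 65) (nat_lit 0) (@Lb.t (@Lb.fm (nat_lit 3) t3818))))))))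
noncomputable def l32681 : Lb := (@Lb.d (nat_lit 0) (nat_lit 258) (nat_lit 73) (@Lb.g g9 (@Lb.g g10 (@Lb.g g11 (@Lb.r r2705 (@Lb.r r1434 (@Lb.r r2692 (@Lb.r r2439 (@Lb.d (nat_lit 609) (nat_lit 165) (nat_lit 132) (@Lb.t (@Lb.fp (nat_lit 9) t1741)))))))))))
noncomputable def l32682 : Lb := (@Lb.r r263 (@Lb.d (nat_lit 10) (nat_lit 389) (nat_lit 0) (@Lb.g g8 (@Lb.g g5 (@Lb.g g10 (@Lb.r r1691 (@Lb.r r2202 (@Lb.r r2180 (@Lb.d (nat_lit 33) (nat_lit 1) (nat_lit 34) (@Lb.t (@Lb.fp (nat_lit 9) t2085)))))))))))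
noncomputable def l32683 : Lb := (@Lb.d (nat_lit 134) (nat_lit 512) (nat_lit 73) (@Lb.g g8 (@Lb.g g9 (@Lb.g g10 (@Lb.g g11 (@Lb.r r1579 (@Lb.r r1686 (@Lb.r r617 (@Lb.r r2084 (@Lb.d (nat_lit 361) (nat_lit 166) (nat_lit 88) (@Lb.fm (nat_lit 9) t5875)))))))))))
noncomputable def l32684 : Lb := (@Lb.d (nat_lit 0) (nat_lit 256) (nat_lit 2) (@Lb.g g10 (@Lb.r r1411 (@Lb.r r1169 (@Lb.r r146 (@Lb.r r1124 (@Lb.d (nat_lit 0) (nat_lit 74) (nat_lit 18) (@Lb.t (@Lb.fm (nat_lit 3) t1282)))))))))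
noncomputable def l32685 : Lb := (@Lb.d (nat_lit 129) (nat_lit 4) (nat_lit 74) (@Lb.g g8 (@Lb.g g9 (@Lb.g g10 (@Lb.g g11 (@Lb.r r599 (@Lb.r r1706 (@Lb.r r1625 (@Lb.r r1604 (@Lb.d (nat_lit 409) (nat_lit 9) (nat_lit 290) (@Lb.fp (nat_lit 9) t1169)))))))))))
noncomputable def l32686 : Lb := (@Lb.r r327 (@Lb.d (nat_lit 34) (nat_lit 514) (nat_lit 2) (@Lb.g g8 (@Lb.g g9 (@Lb.g g10 (@Lb.r r2729 (@Lb.r r1443 (@Lb.r r2434 (@Lb.r r132 (@Lb.d (nat_lit 593) (nat_lit 0) (nat_lit 340) (@Lb.t (@Lb.fm (nat_lit 9) t5875))))))))))))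
noncomputable def l32687 : Lb := (@Lb.r r21 (@Lb.r r263 (@Lb.d (nat_lit 34) (nat_lit 264) (nat_lit 2) (@Lb.g g8 (@Lb.g g10 (@Lb.r r1427 (@Lb.r r1125 (@Lb.r r1048 (@Lb.d (nat_lit 265) (nat_lit 0) (nat_lit 2) (@Lb.fm (nat_lit 3) t5876))))))))))
noncomputable def l32688 : Lb := (@Lb.d (nat_lit 0) (nat_lit 256) (nat_lit 72) (@Lb.g g11 (@Lb.r r1346 (@Lb.r r1419 (@Lb.d (nat_lit 402) (nat_lit 0) (nat_lit 393) (@Lb.t (@Lb.fp (nat_lit 3) t441)))))))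
noncomputable def l32689 : Lb := (@Lb.r r1172 (@Lb.r r89 (@Lb.r r1126 (@Lb.r r2307 (@Lb.d (nat_lit 10) (nat_lit 386) (nat_lit 32) (@Lb.fp (nat_lit 1) t5877))))))
noncomputable def l32690 : Lb := (@Lb.d (nat_lit 32) (nat_lit 264) (nat_lit 2) (@Lb.g g10 (@Lb.r r1431 (@Lb.r r100 (@Lb.r r2149 (@Lb.r r2138 (@Lb.d (nat_lit 618) (nat_lit 134) (nat_lit 610) (@Lb.t (@Lb.fm (nat_lit 3) t322)))))))))
noncomputable def l32691 : Lb := (@Lb.d (nat_lit 32) (nat_lit 514) (nat_lit 130) (@Lb.g g9 (@Lb.g g10 (@Lb.g g11 (@Lb.r r1447 (@Lb.r r293 (@Lb.r r72 (@Lb.r r150 (@Lb.d (nat_lit 528) (nat_lit 2) (nat_lit 408) (@Lb.t (@Lb.fp (nat_lit 9) t669)))))))))))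
noncomputable def l32692 : Lb := (@Lb.r r322 (@Lb.d (nat_lit 8) (nat_lit 512) (nat_lit 576) (@Lb.g g9 (@Lb.g g7 (@Lb.r r660 (@Lb.r r358 (@Lb.r r337 (@Lb.d (nat_lit 0) (nat_lit 100) (nat_lit 518) (@Lb.fp (nat_lit 3) t1115)))))))))
noncomputable def l32693 : Lb := (@Lb.d (nat_lit 2) (nat_lit 0) (nat_lit 128) (@Lb.g g8 (@Lb.g g9 (@Lb.g g11 (@Lb.r r1162 (@Lb.r r1188 (@Lb.r r2597 (@Lb.r r1315 (@Lb.d (nat_lit 0) (nat_lit 18) (nat_lit 650) (@Lb.t (@Lb.fm (nat_lit 9) t2604)))))))))))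
noncomputable def l32694 : Lb := (@Lb.r r322 (@Lb.d (nat_lit 8) (nat_lit 0) (nat_lit 576) (@Lb.g g9 (@Lb.g g7 (@Lb.r r660 (@Lb.r r358 (@Lb.r r337 (@Lb.d (nat_lit 10) (nat_lit 102) (nat_lit 518) (@Lb.fp (nat_lit 3) t1115)))))))))
noncomputable def l32695 : Lb := (@Lb.d (nat_lit 38) (nat_lit 325) (nat_lit 609) (@Lb.r r1109 (@Lb.r r322 (@Lb.r r2467 (@Lb.g g6 (@Lb.g g5 (@Lb.g g4 (@Lb.d (nat_lit 1) (nat_lit 18) (nat_lit 1) (@Lb.t (@Lb.fp (nat_lit 9) t322))))))))))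
noncomputable def l32696 : Lb := (@Lb.d (nat_lit 4) (nat_lit 72) (nat_lit 2) (@Lb.r r273 (@Lb.r r2178 (@Lb.r r2595 (@Lb.r r529 (@Lb.g g8 (@Lb.d (nat_lit 322) (nat_lit 0) (nat_lit 0) (@Lb.t (@Lb.fp (nat_lit 3) t4352)))))))))
noncomputable def l32697 : Lb := (@Lb.d (nat_lit 132) (nat_lit 522) (nat_lit 129) (@Lb.g g8 (@Lb.g g9 (@Lb.g g10 (@Lb.g g11 (@Lb.r r2666 (@Lb.r r612 (@Lb.r r1319 (@Lb.r r405 (@Lb.r r2084 (@Lb.d (nat_lit 612) (nat_lit 136) (nat_lit 169) (@Lb.fp (nat_lit 9) t4469))))))))))))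
noncomputable def l32698 : Lb := (@Lb.d (nat_lit 0) (nat_lit 0) (nat_lit 130) (@Lb.g g10 (@Lb.g g11 (@Lb.r r1553 (@Lb.r r595 (@Lb.r r386 (@Lb.r r1124 (@Lb.d (nat_lit 0) (nat_lit 1) (nat_lit 536) (@Lb.fm (nat_lit 3) t1924)))))))))
noncomputable def l32699 : Lb := (@Lb.d (nat_lit 4) (nat_lit 520) (nat_lit 33) (@Lb.g g8 (@Lb.g g6 (@Lb.r r273 (@Lb.r r2595 (@Lb.r r529 (@Lb.d (nat_lit 322) (nat_lit 0) (nat_lit 681) (@Lb.fm (nat_lit 3) t3544))))))))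
noncomputable def l32700 : Lb := (@Lb.r r21 (@Lb.r r263 (@Lb.d (nat_lit 2) (nat_lit 256) (nat_lit 2) (@Lb.g g8 (@Lb.g g10 (@Lb.r r1691 (@Lb.r r386 (@Lb.r r405 (@Lb.r r584 (@Lb.d (nat_lit 401) (nat_lit 37) (nat_lit 261) (@Lb.fp (nat_lit 3) t811)))))))))))
noncomputable def l32701 : Lb := (@Lb.r r21 (@Lb.d (nat_lit 2) (nat_lit 0) (nat_lit 73) (@Lb.g g8 (@Lb.g g10 (@Lb.g g11 (@Lb.r r1691 (@Lb.r r417 (@Lb.r r98 (@Lb.r r2180 (@Lb.d (nat_lit 617) (nat_lit 133) (nat_lit 594) (@Lb.t (@Lb.fm (nat_lit 9) t228))))))))))))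
noncomputable def l32702 : Lb := (@Lb.r r21 (@Lb.r r70 (@Lb.d (nat_lit 656) (nat_lit 0) (nat_lit 256) (@Lb.g g4 (@Lb.g g7 (@Lb.r r2454 (@Lb.r r97 (@Lb.d (nat_lit 614) (nat_lit 128) (nat_lit 80) (@Lb.fm (nat_lit 3) t5878)))))))))
noncomputable def l32703 : Lb := (@Lb.d (nat_lit 2) (nat_lit 2) (nat_lit 130) (@Lb.g g8 (@Lb.g g9 (@Lb.g g10 (@Lb.g g11 (@Lb.r r2722 (@Lb.r r387 (@Lb.r r2664 (@Lb.r r2585 (@Lb.d (nat_lit 325) (nat_lit 104) (nat_lit 162) (@Lb.fp (nat_lit 9) t5369)))))))))))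
noncomputable def l32704 : Lb := (@Lb.d (nat_lit 0) (nat_lit 521) (nat_lit 129) (@Lb.g g8 (@Lb.g g9 (@Lb.g g10 (@Lb.g g11 (@Lb.r r1443 (@Lb.r r1122 (@Lb.r r616 (@Lb.r r2153 (@Lb.r r1060 (@Lb.d (nat_lit 544) (nat_lit 0) (nat_lit 425) (@Lb.fp (nat_lit 9) t5879))))))))))))
noncomputable def l32705 : Lb := (@Lb.r r90 (@Lb.d (nat_lit 256) (nat_lit 258) (nat_lit 136) (@Lb.g g4 (@Lb.g g9 (@Lb.g g11 (@Lb.r r402 (@Lb.r r1639 (@Lb.d (nat_lit 154) (nat_lit 25) (nat_lit 666) (@Lb.t (@Lb.fp (nat_lit 9) t898))))))))))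
noncomputable def l32706 : Lb := (@Lb.d (nat_lit 1) (nat_lit 258) (nat_lit 1) (@Lb.g g8 (@Lb.g g9 (@Lb.g g10 (@Lb.r r70 (@Lb.r r644 (@Lb.r r2583 (@Lb.r r1313 (@Lb.d (nat_lit 0) (nat_lit 68) (nat_lit 385) (@Lb.t (@Lb.fm (nat_lit 9) t119)))))))))))
noncomputable def l32707 : Lb := (@Lb.d (nat_lit 16) (nat_lit 520) (nat_lit 1) (@Lb.g g6 (@Lb.r r328 (@Lb.r r407 (@Lb.r r609 (@Lb.d (nat_lit 0) (nat_lit 24) (nat_lit 17) (@Lb.t (@Lb.fm (nat_lit 3) t1796))))))))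
noncomputable def l32708 : Lb := (@Lb.d (nat_lit 8) (nat_lit 553) (nat_lit 65) (@Lb.g g9 (@Lb.g g10 (@Lb.g g11 (@Lb.r r2343 (@Lb.r r578 (@Lb.r r2648 (@Lb.r r2453 (@Lb.d (nat_lit 389) (nat_lit 154) (nat_lit 274) (@Lb.t (@Lb.fp (nat_lit 9) t1471)))))))))))
noncomputable def l32709 : Lb := (@Lb.d (nat_lit 2) (nat_lit 514) (nat_lit 66) (@Lb.g g8 (@Lb.g g9 (@Lb.g g10 (@Lb.g g11 (@Lb.r r1316 (@Lb.r r1419 (@Lb.r r386 (@Lb.r r97 (@Lb.d (nat_lit 161) (nat_lit 132) (nat_lit 416) (@Lb.fp (nat_lit 9) t4280)))))))))))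
noncomputable def l32710 : Lb := (@Lb.d (nat_lit 0) (nat_lit 10) (nat_lit 72) (@Lb.g g9 (@Lb.g g10 (@Lb.g g11 (@Lb.r r2726 (@Lb.r r328 (@Lb.r r535 (@Lb.r r289 (@Lb.d (nat_lit 640) (nat_lit 144) (nat_lit 64) (@Lb.t (@Lb.fm (nat_lit 9) t2707)))))))))))
noncomputable def l32711 : Lb := (@Lb.d (nat_lit 400) (nat_lit 256) (nat_lit 641) (@Lb.r r1604 (@Lb.r r146 (@Lb.r r2409 (@Lb.g g11 (@Lb.g g5 (@Lb.g g4 (@Lb.d (nat_lit 6) (nat_lit 2) (nat_lit 384) (@Lb.r r578 (@Lb.t (@Lb.fm (nat_lit 9) t143)))))))))))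
noncomputable def l32712 : Lb := (@Lb.r r277 (@Lb.r r326 (@Lb.d (nat_lit 160) (nat_lit 512) (nat_lit 520) (@Lb.g g8 (@Lb.g g11 (@Lb.r r402 (@Lb.r r2661 (@Lb.d (nat_lit 578) (nat_lit 129) (nat_lit 0) (@Lb.fm (nat_lit 3) t1774)))))))))
noncomputable def l32713 : Lb := (@Lb.d (nat_lit 394) (nat_lit 297) (nat_lit 4) (@Lb.r r680 (@Lb.r r2411 (@Lb.r r345 (@Lb.g g6 (@Lb.g g4 (@Lb.d (nat_lit 69) (nat_lit 0) (nat_lit 33) (@Lb.r r387 (@Lb.fp (nat_lit 3) t2437)))))))))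
noncomputable def l32714 : Lb := (@Lb.d (nat_lit 136) (nat_lit 146) (nat_lit 64) (@Lb.r r37 (@Lb.r r88 (@Lb.r r1414 (@Lb.r r2595 (@Lb.g g7 (@Lb.g g6 (@Lb.g g5 (@Lb.d (nat_lit 0) (nat_lit 1) (nat_lit 128) (@Lb.t (@Lb.fp (nat_lit 9) t5875)))))))))))
noncomputable def l32715 : Lb := (@Lb.d (nat_lit 128) (nat_lit 144) (nat_lit 64) (@Lb.r r37 (@Lb.r r88 (@Lb.r r1414 (@Lb.r r2595 (@Lb.g g7 (@Lb.g g5 (@Lb.d (nat_lit 0) (nat_lit 1) (nat_lit 128) (@Lb.fm (nat_lit 3) t5880)))))))))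
noncomputable def l32716 : Lb := (@Lb.r r82 (@Lb.d (nat_lit 2) (nat_lit 258) (nat_lit 128) (@Lb.g g8 (@Lb.g g9 (@Lb.g g11 (@Lb.r r2451 (@Lb.r r405 (@Lb.r r1448 (@Lb.r r1418 (@Lb.d (nat_lit 80) (nat_lit 10) (nat_lit 544) (@Lb.t (@Lb.fm (nat_lit 9) t50))))))))))))
noncomputable def l32717 : Lb := (@Lb.d (nat_lit 0) (nat_lit 256) (nat_lit 2) (@Lb.g g9 (@Lb.g g10 (@Lb.g g7 (@Lb.r r386 (@Lb.r r24 (@Lb.r r101 (@Lb.d (nat_lit 0) (nat_lit 81) (nat_lit 361) (@Lb.t (@Lb.fm (nat_lit 9) t153))))))))))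
noncomputable def l32718 : Lb := (@Lb.d (nat_lit 640) (nat_lit 514) (nat_lit 681) (@Lb.r r24 (@Lb.r r579 (@Lb.r r1346 (@Lb.g g7 (@Lb.g g6 (@Lb.g g9 (@Lb.d (nat_lit 8) (nat_lit 2) (nat_lit 133) (@Lb.t (@Lb.fm (nat_lit 9) t225))))))))))
noncomputable def l32719 : Lb := (@Lb.d (nat_lit 0) (nat_lit 512) (nat_lit 134) (@Lb.g g10 (@Lb.g g11 (@Lb.r r2690 (@Lb.r r387 (@Lb.d (nat_lit 0) (nat_lit 0) (nat_lit 402) (@Lb.fp (nat_lit 3) t2)))))))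
noncomputable def l32720 : Lb := (@Lb.r r322 (@Lb.d (nat_lit 0) (nat_lit 522) (nat_lit 512) (@Lb.g g9 (@Lb.g g7 (@Lb.r r594 (@Lb.r r1169 (@Lb.d (nat_lit 400) (nat_lit 74) (nat_lit 100) (@Lb.fp (nat_lit 3) t3853))))))))
noncomputable def l32721 : Lb := (@Lb.d (nat_lit 2) (nat_lit 258) (nat_lit 66) (@Lb.g g8 (@Lb.g g9 (@Lb.g g10 (@Lb.g g11 (@Lb.r r2439 (@Lb.r r584 (@Lb.r r1126 (@Lb.r r97 (@Lb.r r2084 (@Lb.d (nat_lit 4) (nat_lit 170) (nat_lit 641) (@Lb.fp (nat_lit 9) t295))))))))))))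
noncomputable def l32722 : Lb := (@Lb.r r21 (@Lb.d (nat_lit 146) (nat_lit 516) (nat_lit 82) (@Lb.g g8 (@Lb.g g6 (@Lb.g g11 (@Lb.r r2659 (@Lb.r r97 (@Lb.r r264 (@Lb.d (nat_lit 130) (nat_lit 145) (nat_lit 513) (@Lb.t (@Lb.fm (nat_lit 9) t720)))))))))))
noncomputable def l32723 : Lb := (@Lb.d (nat_lit 8) (nat_lit 10) (nat_lit 128) (@Lb.g g9 (@Lb.g g11 (@Lb.r r1432 (@Lb.r r2714 (@Lb.r r1691 (@Lb.r r1365 (@Lb.d (nat_lit 328) (nat_lit 88) (nat_lit 422) (@Lb.fp (nat_lit 3) t5881)))))))))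
noncomputable def l32724 : Lb := (@Lb.r r21 (@Lb.r r263 (@Lb.d (nat_lit 16) (nat_lit 260) (nat_lit 18) (@Lb.g g8 (@Lb.g g6 (@Lb.r r1427 (@Lb.r r97 (@Lb.r r2072 (@Lb.d (nat_lit 266) (nat_lit 2) (nat_lit 1) (@Lb.fp (nat_lit 3) t720))))))))))
noncomputable def l32725 : Lb := (@Lb.d (nat_lit 0) (nat_lit 516) (nat_lit 1) (@Lb.g g6 (@Lb.r r1427 (@Lb.r r101 (@Lb.d (nat_lit 518) (nat_lit 64) (nat_lit 1) (@Lb.t (@Lb.fp (nat_lit 3) t983)))))))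
noncomputable def l32726 : Lb := (@Lb.d (nat_lit 0) (nat_lit 4) (nat_lit 1) (@Lb.g g6 (@Lb.r r1427 (@Lb.r r101 (@Lb.d (nat_lit 513) (nat_lit 66) (nat_lit 1) (@Lb.t (@Lb.fp (nat_lit 3) t983)))))))
noncomputable def l32727 : Lb := (@Lb.r r82 (@Lb.d (nat_lit 128) (nat_lit 2) (nat_lit 128) (@Lb.g g8 (@Lb.g g9 (@Lb.g g11 (@Lb.r r1643 (@Lb.r r662 (@Lb.r r425 (@Lb.r r1636 (@Lb.d (nat_lit 521) (nat_lit 165) (nat_lit 682) (@Lb.t (@Lb.fp (nat_lit 9) t1776))))))))))))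
noncomputable def l32728 : Lb := (@Lb.d (nat_lit 100) (nat_lit 169) (nat_lit 97) (@Lb.r r408 (@Lb.r r330 (@Lb.r r407 (@Lb.g g7 (@Lb.g g5 (@Lb.g g4 (@Lb.d (nat_lit 17) (nat_lit 1) (nat_lit 64) (@Lb.r r98 (@Lb.t (@Lb.fm (nat_lit 9) t242)))))))))))
noncomputable def l32729 : Lb := (@Lb.d (nat_lit 549) (nat_lit 20) (nat_lit 577) (@Lb.r r1178 (@Lb.r r1160 (@Lb.r r1361 (@Lb.r r2667 (@Lb.g g7 (@Lb.g g6 (@Lb.g g5 (@Lb.d (nat_lit 0) (nat_lit 24) (nat_lit 129) (@Lb.t (@Lb.fm (nat_lit 9) t5882)))))))))))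
noncomputable def l32730 : Lb := (@Lb.d (nat_lit 128) (nat_lit 256) (nat_lit 64) (@Lb.g g11 (@Lb.r r1096 (@Lb.r r1350 (@Lb.r r1683 (@Lb.r r353 (@Lb.d (nat_lit 5) (nat_lit 66) (nat_lit 0) (@Lb.t (@Lb.fm (nat_lit 3) t5208)))))))))
noncomputable def l32731 : Lb := (@Lb.r r322 (@Lb.d (nat_lit 8) (nat_lit 34) (nat_lit 516) (@Lb.g g9 (@Lb.g g7 (@Lb.r r426 (@Lb.r r1044 (@Lb.r r2153 (@Lb.d (nat_lit 616) (nat_lit 73) (nat_lit 610) (@Lb.fp (nat_lit 3) t605)))))))))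
noncomputable def l32732 : Lb := (@Lb.d (nat_lit 0) (nat_lit 512) (nat_lit 384) (@Lb.r r2577 (@Lb.g g7 (@Lb.g g9 (@Lb.fp (nat_lit 3) t484)))))
noncomputable def l32733 : Lb := (@Lb.d (nat_lit 518) (nat_lit 682) (nat_lit 660) (@Lb.r r1604 (@Lb.r r405 (@Lb.r r682 (@Lb.g g11 (@Lb.g g6 (@Lb.g g5 (@Lb.g g4 (@Lb.d (nat_lit 6) (nat_lit 32) (nat_lit 390) (@Lb.fp (nat_lit 9) t499))))))))))
noncomputable def l32734 : Lb := (@Lb.d (nat_lit 2) (nat_lit 292) (nat_lit 4) (@Lb.g g8 (@Lb.g g9 (@Lb.g g10 (@Lb.g g11 (@Lb.r r1707 (@Lb.r r2666 (@Lb.r r537 (@Lb.d (nat_lit 73) (nat_lit 105) (nat_lit 641) (@Lb.fm (nat_lit 9) t941))))))))))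
noncomputable def l32735 : Lb := (@Lb.d (nat_lit 2) (nat_lit 36) (nat_lit 130) (@Lb.g g8 (@Lb.g g9 (@Lb.g g10 (@Lb.g g11 (@Lb.r r586 (@Lb.r r1611 (@Lb.r r36 (@Lb.r r149 (@Lb.r r1060 (@Lb.d (nat_lit 106) (nat_lit 168) (nat_lit 97) (@Lb.fm (nat_lit 9) t436))))))))))))
noncomputable def l32736 : Lb := (@Lb.d (nat_lit 2) (nat_lit 256) (nat_lit 128) (@Lb.g g8 (@Lb.g g11 (@Lb.r r406 (@Lb.r r1643 (@Lb.r r1640 (@Lb.r r1561 (@Lb.d (nat_lit 528) (nat_lit 133) (nat_lit 614) (@Lb.fp (nat_lit 3) t1756)))))))))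
noncomputable def l32737 : Lb := (@Lb.r r82 (@Lb.d (nat_lit 2) (nat_lit 2) (nat_lit 0) (@Lb.g g8 (@Lb.g g9 (@Lb.g g11 (@Lb.r r1643 (@Lb.r r2649 (@Lb.r r98 (@Lb.d (nat_lit 353) (nat_lit 130) (nat_lit 154) (@Lb.t (@Lb.fp (nat_lit 9) t958)))))))))))
noncomputable def l32738 : Lb := (@Lb.d (nat_lit 2) (nat_lit 256) (nat_lit 137) (@Lb.g g8 (@Lb.g g9 (@Lb.g g10 (@Lb.g g11 (@Lb.r r2731 (@Lb.r r1642 (@Lb.r r1561 (@Lb.d (nat_lit 585) (nat_lit 105) (nat_lit 417) (@Lb.fm (nat_lit 9) t324))))))))))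
noncomputable def l32739 : Lb := (@Lb.r r273 (@Lb.r r322 (@Lb.d (nat_lit 130) (nat_lit 0) (nat_lit 0) (@Lb.g g8 (@Lb.g g7 (@Lb.r r361 (@Lb.r r146 (@Lb.r r264 (@Lb.d (nat_lit 640) (nat_lit 0) (nat_lit 549) (@Lb.fm (nat_lit 3) t3278))))))))))
noncomputable def l32740 : Lb := (@Lb.d (nat_lit 1) (nat_lit 512) (nat_lit 66) (@Lb.g g8 (@Lb.g g10 (@Lb.g g11 (@Lb.r r1303 (@Lb.r r2713 (@Lb.r r2650 (@Lb.r r2628 (@Lb.d (nat_lit 401) (nat_lit 2) (nat_lit 425) (@Lb.t (@Lb.fm (nat_lit 9) t441)))))))))))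
noncomputable def l32741 : Lb := (@Lb.d (nat_lit 2) (nat_lit 521) (nat_lit 72) (@Lb.g g8 (@Lb.g g9 (@Lb.g g10 (@Lb.g g11 (@Lb.r r2705 (@Lb.r r535 (@Lb.r r2440 (@Lb.r r2458 (@Lb.d (nat_lit 409) (nat_lit 38) (nat_lit 132) (@Lb.fm (nat_lit 9) t4412)))))))))))
noncomputable def l32742 : Lb := (@Lb.d (nat_lit 146) (nat_lit 514) (nat_lit 133) (@Lb.g g8 (@Lb.g g9 (@Lb.g g10 (@Lb.g g11 (@Lb.r r683 (@Lb.r r2218 (@Lb.r r548 (@Lb.r r37 (@Lb.d (nat_lit 409) (nat_lit 40) (nat_lit 617) (@Lb.fm (nat_lit 9) t5883)))))))))))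
noncomputable def l32743 : Lb := (@Lb.d (nat_lit 130) (nat_lit 516) (nat_lit 0) (@Lb.g g8 (@Lb.g g9 (@Lb.g g10 (@Lb.r r2595 (@Lb.r r386 (@Lb.r r2665 (@Lb.r r104 (@Lb.d (nat_lit 533) (nat_lit 10) (nat_lit 162) (@Lb.t (@Lb.fm (nat_lit 9) t1397)))))))))))
noncomputable def l32744 : Lb := (@Lb.d (nat_lit 150) (nat_lit 642) (nat_lit 657) (@Lb.r r24 (@Lb.r r597 (@Lb.r r1450 (@Lb.g g11 (@Lb.g g6 (@Lb.g g5 (@Lb.g g4 (@Lb.d (nat_lit 1) (nat_lit 0) (nat_lit 2) (@Lb.fm (nat_lit 9) t2413))))))))))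
noncomputable def l32745 : Lb := (@Lb.d (nat_lit 0) (nat_lit 98) (nat_lit 640) (@Lb.r r1556 (@Lb.r r1622 (@Lb.g g9 (@Lb.g g8 (@Lb.r r74 (@Lb.fm (nat_lit 3) t1742)))))))
noncomputable def l32746 : Lb := (@Lb.d (nat_lit 130) (nat_lit 4) (nat_lit 0) (@Lb.g g8 (@Lb.g g9 (@Lb.g g10 (@Lb.r r2595 (@Lb.r r386 (@Lb.r r2665 (@Lb.r r104 (@Lb.d (nat_lit 532) (nat_lit 10) (nat_lit 162) (@Lb.t (@Lb.fm (nat_lit 9) t1397)))))))))))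
noncomputable def l32747 : Lb := (@Lb.d (nat_lit 149) (nat_lit 2) (nat_lit 64) (@Lb.g g8 (@Lb.g g9 (@Lb.g g10 (@Lb.g g11 (@Lb.r r674 (@Lb.r r2645 (@Lb.r r1380 (@Lb.r r2635 (@Lb.d (nat_lit 90) (nat_lit 21) (nat_lit 80) (@Lb.fp (nat_lit 9) t5884)))))))))))
noncomputable def l32748 : Lb := (@Lb.d (nat_lit 68) (nat_lit 82) (nat_lit 596) (@Lb.r r24 (@Lb.r r1313 (@Lb.r r2474 (@Lb.r r2691 (@Lb.g g7 (@Lb.g g6 (@Lb.g g5 (@Lb.d (nat_lit 0) (nat_lit 8) (nat_lit 133) (@Lb.t (@Lb.fp (nat_lit 9) t1884)))))))))))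
noncomputable def l32749 : Lb := (@Lb.d (nat_lit 149) (nat_lit 514) (nat_lit 64) (@Lb.g g8 (@Lb.g g9 (@Lb.g g10 (@Lb.g g11 (@Lb.r r2339 (@Lb.r r1188 (@Lb.r r2405 (@Lb.r r1170 (@Lb.d (nat_lit 90) (nat_lit 21) (nat_lit 149) (@Lb.fp (nat_lit 9) t163)))))))))))
noncomputable def l32750 : Lb := (@Lb.d (nat_lit 410) (nat_lit 553) (nat_lit 137) (@Lb.r r1637 (@Lb.r r2650 (@Lb.r r344 (@Lb.g g7 (@Lb.g g6 (@Lb.d (nat_lit 16) (nat_lit 32) (nat_lit 321) (@Lb.r r401 (@Lb.r r388 (@Lb.fm (nat_lit 3) t626))))))))))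
noncomputable def l32751 : Lb := (@Lb.d (nat_lit 256) (nat_lit 256) (nat_lit 400) (@Lb.r r21 (@Lb.r r2152 (@Lb.r r2454 (@Lb.g g11 (@Lb.g g4 (@Lb.d (nat_lit 1) (nat_lit 0) (nat_lit 320) (@Lb.r r578 (@Lb.r r25 (@Lb.fp (nat_lit 3) t5885))))))))))
noncomputable def l32752 : Lb := (@Lb.d (nat_lit 576) (nat_lit 512) (nat_lit 354) (@Lb.r r24 (@Lb.r r1178 (@Lb.r r341 (@Lb.r r611 (@Lb.g g7 (@Lb.g g6 (@Lb.g g5 (@Lb.d (nat_lit 0) (nat_lit 24) (nat_lit 133) (@Lb.t (@Lb.fm (nat_lit 9) t204)))))))))))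
noncomputable def l32753 : Lb := (@Lb.d (nat_lit 548) (nat_lit 518) (nat_lit 384) (@Lb.r r24 (@Lb.r r97 (@Lb.r r1430 (@Lb.g g11 (@Lb.g g5 (@Lb.g g4 (@Lb.d (nat_lit 1) (nat_lit 1) (nat_lit 320) (@Lb.r r578 (@Lb.t (@Lb.fp (nat_lit 9) t207)))))))))))
noncomputable def l32754 : Lb := (@Lb.r r21 (@Lb.r r70 (@Lb.d (nat_lit 2) (nat_lit 272) (nat_lit 584) (@Lb.g g8 (@Lb.g g7 (@Lb.r r361 (@Lb.r r150 (@Lb.r r2084 (@Lb.d (nat_lit 296) (nat_lit 129) (nat_lit 82) (@Lb.fp (nat_lit 3) t784))))))))))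
noncomputable def l32755 : Lb := (@Lb.d (nat_lit 257) (nat_lit 517) (nat_lit 337) (@Lb.r r24 (@Lb.r r402 (@Lb.r r101 (@Lb.g g7 (@Lb.d (nat_lit 0) (nat_lit 0) (nat_lit 68) (@Lb.t (@Lb.fp (nat_lit 3) t1721))))))))
noncomputable def l32756 : Lb := (@Lb.d (nat_lit 128) (nat_lit 256) (nat_lit 128) (@Lb.g g11 (@Lb.r r2698 (@Lb.r r260 (@Lb.r r603 (@Lb.r r1425 (@Lb.d (nat_lit 544) (nat_lit 0) (nat_lit 18) (@Lb.t (@Lb.fp (nat_lit 3) t433)))))))))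
noncomputable def l32757 : Lb := (@Lb.r r21 (@Lb.d (nat_lit 64) (nat_lit 272) (nat_lit 585) (@Lb.g g8 (@Lb.g g10 (@Lb.g g7 (@Lb.r r342 (@Lb.r r97 (@Lb.r r2068 (@Lb.d (nat_lit 153) (nat_lit 2) (nat_lit 266) (@Lb.t (@Lb.fm (nat_lit 9) t3482)))))))))))
noncomputable def l32758 : Lb := (@Lb.r r21 (@Lb.d (nat_lit 65) (nat_lit 528) (nat_lit 585) (@Lb.g g8 (@Lb.g g10 (@Lb.g g7 (@Lb.r r342 (@Lb.r r97 (@Lb.r r2068 (@Lb.d (nat_lit 154) (nat_lit 2) (nat_lit 266) (@Lb.t (@Lb.fm (nat_lit 9) t3577)))))))))))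
noncomputable def l32759 : Lb := (@Lb.d (nat_lit 2) (nat_lit 258) (nat_lit 73) (@Lb.g g8 (@Lb.g g9 (@Lb.g g10 (@Lb.g g11 (@Lb.r r427 (@Lb.r r1634 (@Lb.r r292 (@Lb.r r2069 (@Lb.r r1060 (@Lb.d (nat_lit 609) (nat_lit 149) (nat_lit 260) (@Lb.fp (nat_lit 9) t4774))))))))))))
noncomputable def l32760 : Lb := (@Lb.d (nat_lit 2) (nat_lit 2) (nat_lit 64) (@Lb.g g8 (@Lb.g g9 (@Lb.g g11 (@Lb.r r1287 (@Lb.r r146 (@Lb.r r2585 (@Lb.r r2564 (@Lb.d (nat_lit 392) (nat_lit 6) (nat_lit 385) (@Lb.t (@Lb.fp (nat_lit 9) t715)))))))))))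
noncomputable def l32761 : Lb := (@Lb.r r82 (@Lb.d (nat_lit 2) (nat_lit 512) (nat_lit 128) (@Lb.g g8 (@Lb.g g9 (@Lb.g g11 (@Lb.r r2410 (@Lb.r r2596 (@Lb.r r2663 (@Lb.r r2581 (@Lb.d (nat_lit 0) (nat_lit 168) (nat_lit 89) (@Lb.t (@Lb.fp (nat_lit 9) t19))))))))))))
noncomputable def l32762 : Lb := (@Lb.r r82 (@Lb.d (nat_lit 128) (nat_lit 514) (nat_lit 136) (@Lb.g g9 (@Lb.g g11 (@Lb.r r410 (@Lb.r r388 (@Lb.r r587 (@Lb.d (nat_lit 105) (nat_lit 64) (nat_lit 18) (@Lb.fm (nat_lit 3) t3326)))))))))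
noncomputable def l32763 : Lb := (@Lb.r r82 (@Lb.d (nat_lit 128) (nat_lit 258) (nat_lit 136) (@Lb.g g9 (@Lb.g g11 (@Lb.r r410 (@Lb.r r388 (@Lb.r r587 (@Lb.d (nat_lit 105) (nat_lit 6) (nat_lit 2) (@Lb.fm (nat_lit 3) t935)))))))))
noncomputable def l32764 : Lb := (@Lb.r r20 (@Lb.r r275 (@Lb.d (nat_lit 0) (nat_lit 138) (nat_lit 1) (@Lb.g g9 (@Lb.g g10 (@Lb.r r610 (@Lb.r r2631 (@Lb.r r1288 (@Lb.d (nat_lit 585) (nat_lit 1) (nat_lit 512) (@Lb.fm (nat_lit 3) t1383))))))))))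
noncomputable def l32765 : Lb := (@Lb.d (nat_lit 0) (nat_lit 138) (nat_lit 2) (@Lb.r r2325 (@Lb.r r1636 (@Lb.r r1370 (@Lb.r r1443 (@Lb.r r417 (@Lb.g g8 (@Lb.t (@Lb.fm (nat_lit 3) t716)))))))))
noncomputable def l32766 : Lb := (@Lb.r r21 (@Lb.r r263 (@Lb.d (nat_lit 34) (nat_lit 256) (nat_lit 1) (@Lb.g g8 (@Lb.g g10 (@Lb.r r395 (@Lb.r r132 (@Lb.r r134 (@Lb.r r25 (@Lb.d (nat_lit 18) (nat_lit 5) (nat_lit 1) (@Lb.fp (nat_lit 3) t1178)))))))))))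
noncomputable def l32767 : Lb := (@Lb.d (nat_lit 65) (nat_lit 138) (nat_lit 129) (@Lb.r r24 (@Lb.r r2587 (@Lb.r r1361 (@Lb.g g10 (@Lb.d (nat_lit 32) (nat_lit 4) (nat_lit 18) (@Lb.r r387 (@Lb.t (@Lb.fp (nat_lit 3) t4316)))))))))
noncomputable def l32768 : Lb := (@Lb.r r21 (@Lb.r r263 (@Lb.d (nat_lit 2) (nat_lit 512) (nat_lit 2) (@Lb.g g8 (@Lb.g g10 (@Lb.r r327 (@Lb.r r386 (@Lb.r r405 (@Lb.r r584 (@Lb.d (nat_lit 145) (nat_lit 164) (nat_lit 394) (@Lb.fm (nat_lit 3) t5886)))))))))))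
noncomputable def l32769 : Lb := (@Lb.d (nat_lit 90) (nat_lit 160) (nat_lit 330) (@Lb.r r407 (@Lb.r r681 (@Lb.r r360 (@Lb.g g7 (@Lb.g g6 (@Lb.d (nat_lit 128) (nat_lit 4) (nat_lit 133) (@Lb.r r145 (@Lb.r r132 (@Lb.fm (nat_lit 3) t3180))))))))))
noncomputable def l32770 : Lb := (@Lb.d (nat_lit 161) (nat_lit 353) (nat_lit 32) (@Lb.r r1284 (@Lb.r r2138 (@Lb.r r2587 (@Lb.r r289 (@Lb.g g7 (@Lb.g g5 (@Lb.d (nat_lit 0) (nat_lit 1) (nat_lit 64) (@Lb.fm (nat_lit 3) t5887)))))))))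
noncomputable def l32771 : Lb := (@Lb.d (nat_lit 406) (nat_lit 518) (nat_lit 529) (@Lb.r r1604 (@Lb.r r1621 (@Lb.r r2666 (@Lb.r r1303 (@Lb.g g7 (@Lb.g g5 (@Lb.g g4 (@Lb.d (nat_lit 1) (nat_lit 1) (nat_lit 64) (@Lb.t (@Lb.fp (nat_lit 9) t5888)))))))))))
noncomputable def l32772 : Lb := (@Lb.d (nat_lit 2) (nat_lit 256) (nat_lit 73) (@Lb.g g8 (@Lb.g g10 (@Lb.g g11 (@Lb.r r2691 (@Lb.r r1610 (@Lb.r r149 (@Lb.r r2120 (@Lb.d (nat_lit 576) (nat_lit 88) (nat_lit 130) (@Lb.t (@Lb.fm (nat_lit 9) t5889)))))))))))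
noncomputable def l32773 : Lb := (@Lb.d (nat_lit 0) (nat_lit 346) (nat_lit 341) (@Lb.r r1604 (@Lb.r r402 (@Lb.g g9 (@Lb.d (nat_lit 0) (nat_lit 10) (nat_lit 0) (@Lb.t (@Lb.fm (nat_lit 3) t4758)))))))
noncomputable def l32774 : Lb := (@Lb.d (nat_lit 361) (nat_lit 150) (nat_lit 642) (@Lb.r r337 (@Lb.r r2438 (@Lb.r r663 (@Lb.r r344 (@Lb.g g7 (@Lb.g g6 (@Lb.g g5 (@Lb.d (nat_lit 4) (nat_lit 0) (nat_lit 129) (@Lb.t (@Lb.fm (nat_lit 9) t3490)))))))))))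
noncomputable def l32775 : Lb := (@Lb.d (nat_lit 2) (nat_lit 0) (nat_lit 73) (@Lb.g g8 (@Lb.g g10 (@Lb.g g11 (@Lb.r r2691 (@Lb.r r1610 (@Lb.r r149 (@Lb.r r2120 (@Lb.d (nat_lit 581) (nat_lit 89) (nat_lit 130) (@Lb.t (@Lb.fm (nat_lit 9) t5889)))))))))))
noncomputable def l32776 : Lb := (@Lb.d (nat_lit 9) (nat_lit 258) (nat_lit 129) (@Lb.g g8 (@Lb.g g9 (@Lb.g g10 (@Lb.g g11 (@Lb.r r578 (@Lb.r r548 (@Lb.r r615 (@Lb.r r533 (@Lb.r r1060 (@Lb.d (nat_lit 656) (nat_lit 9) (nat_lit 585) (@Lb.fm (nat_lit 9) t307))))))))))))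
noncomputable def l32777 : Lb := (@Lb.d (nat_lit 645) (nat_lit 538) (nat_lit 290) (@Lb.r r2601 (@Lb.r r1451 (@Lb.r r2454 (@Lb.g g7 (@Lb.g g5 (@Lb.g g4 (@Lb.d (nat_lit 578) (nat_lit 5) (nat_lit 128) (@Lb.r r74 (@Lb.t (@Lb.fp (nat_lit 9) t378)))))))))))
noncomputable def l32778 : Lb := (@Lb.d (nat_lit 2) (nat_lit 289) (nat_lit 66) (@Lb.g g8 (@Lb.g g9 (@Lb.g g10 (@Lb.g g11 (@Lb.r r2595 (@Lb.r r386 (@Lb.r r612 (@Lb.r r533 (@Lb.r r1060 (@Lb.d (nat_lit 641) (nat_lit 10) (nat_lit 532) (@Lb.fp (nat_lit 9) t3278))))))))))))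
noncomputable def l32779 : Lb := (@Lb.d (nat_lit 97) (nat_lit 4) (nat_lit 102) (@Lb.r r1556 (@Lb.r r2730 (@Lb.r r663 (@Lb.g g7 (@Lb.g g6 (@Lb.g g9 (@Lb.d (nat_lit 0) (nat_lit 130) (nat_lit 8) (@Lb.r r612 (@Lb.t (@Lb.fm (nat_lit 9) t5890)))))))))))
noncomputable def l32780 : Lb := (@Lb.d (nat_lit 162) (nat_lit 258) (nat_lit 72) (@Lb.g g8 (@Lb.g g9 (@Lb.g g10 (@Lb.g g11 (@Lb.r r1675 (@Lb.r r613 (@Lb.r r666 (@Lb.r r1352 (@Lb.d (nat_lit 404) (nat_lit 81) (nat_lit 640) (@Lb.fp (nat_lit 9) t270)))))))))))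
noncomputable def l32781 : Lb := (@Lb.d (nat_lit 9) (nat_lit 2) (nat_lit 66) (@Lb.g g8 (@Lb.g g9 (@Lb.g g10 (@Lb.g g7 (@Lb.r r2730 (@Lb.r r1433 (@Lb.r r2436 (@Lb.d (nat_lit 105) (nat_lit 97) (nat_lit 610) (@Lb.fp (nat_lit 9) t918))))))))))
noncomputable def l32782 : Lb := (@Lb.d (nat_lit 128) (nat_lit 258) (nat_lit 73) (@Lb.g g8 (@Lb.g g9 (@Lb.g g10 (@Lb.g g11 (@Lb.r r1675 (@Lb.r r164 (@Lb.r r2197 (@Lb.r r2646 (@Lb.r r164 (@Lb.d (nat_lit 393) (nat_lit 128) (nat_lit 362) (@Lb.fm (nat_lit 9) t1622))))))))))))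
noncomputable def l32783 : Lb := (@Lb.d (nat_lit 9) (nat_lit 520) (nat_lit 66) (@Lb.g g8 (@Lb.g g9 (@Lb.g g10 (@Lb.g g7 (@Lb.r r1706 (@Lb.r r2457 (@Lb.r r2436 (@Lb.d (nat_lit 617) (nat_lit 97) (nat_lit 98) (@Lb.fp (nat_lit 9) t3359))))))))))
noncomputable def l32784 : Lb := (@Lb.d (nat_lit 34) (nat_lit 0) (nat_lit 0) (@Lb.g g4 (@Lb.r r2407 (@Lb.r r602 (@Lb.r r2453 (@Lb.r r612 (@Lb.d (nat_lit 612) (nat_lit 32) (nat_lit 84) (@Lb.t (@Lb.fm (nat_lit 3) t386)))))))))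
noncomputable def l32785 : Lb := (@Lb.r r424 (@Lb.r r2473 (@Lb.r r1450 (@Lb.r r343 (@Lb.r r1188 (@Lb.d (nat_lit 10) (nat_lit 9) (nat_lit 578) (@Lb.fm (nat_lit 1) t1079)))))))
noncomputable def l32786 : Lb := (@Lb.r r21 (@Lb.r r70 (@Lb.d (nat_lit 656) (nat_lit 0) (nat_lit 128) (@Lb.g g8 (@Lb.g g11 (@Lb.r r1419 (@Lb.r r402 (@Lb.r r97 (@Lb.d (nat_lit 585) (nat_lit 164) (nat_lit 288) (@Lb.fm (nat_lit 3) t5891))))))))))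
noncomputable def l32787 : Lb := (@Lb.d (nat_lit 160) (nat_lit 0) (nat_lit 129) (@Lb.g g10 (@Lb.g g11 (@Lb.r r2728 (@Lb.r r1449 (@Lb.r r1367 (@Lb.r r602 (@Lb.d (nat_lit 681) (nat_lit 161) (nat_lit 392) (@Lb.fm (nat_lit 3) t4570)))))))))
noncomputable def l32788 : Lb := (@Lb.r r359 (@Lb.d (nat_lit 2) (nat_lit 260) (nat_lit 0) (@Lb.g g8 (@Lb.g g9 (@Lb.g g10 (@Lb.r r2454 (@Lb.r r1367 (@Lb.r r1433 (@Lb.r r388 (@Lb.d (nat_lit 617) (nat_lit 73) (nat_lit 530) (@Lb.t (@Lb.fp (nat_lit 9) t1169))))))))))))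
noncomputable def l32789 : Lb := (@Lb.r r82 (@Lb.r r263 (@Lb.d (nat_lit 642) (nat_lit 514) (nat_lit 0) (@Lb.g g8 (@Lb.g g9 (@Lb.r r2583 (@Lb.r r89 (@Lb.r r98 (@Lb.d (nat_lit 33) (nat_lit 10) (nat_lit 598) (@Lb.fp (nat_lit 3) t1169))))))))))
noncomputable def l32790 : Lb := (@Lb.d (nat_lit 128) (nat_lit 544) (nat_lit 136) (@Lb.g g11 (@Lb.r r420 (@Lb.r r2469 (@Lb.r r1446 (@Lb.r r347 (@Lb.d (nat_lit 298) (nat_lit 85) (nat_lit 646) (@Lb.t (@Lb.fp (nat_lit 3) t322)))))))))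
noncomputable def l32791 : Lb := (@Lb.g g6 (@Lb.g g11 (@Lb.d (nat_lit 2) (nat_lit 256) (nat_lit 0) (@Lb.fp (nat_lit 3) t2))))
noncomputable def l32792 : Lb := (@Lb.d (nat_lit 0) (nat_lit 272) (nat_lit 585) (@Lb.g g10 (@Lb.g g7 (@Lb.r r1620 (@Lb.r r2122 (@Lb.r r289 (@Lb.d (nat_lit 362) (nat_lit 69) (nat_lit 658) (@Lb.fm (nat_lit 3) t4495))))))))
noncomputable def l32793 : Lb := (@Lb.d (nat_lit 32) (nat_lit 0) (nat_lit 73) (@Lb.g g10 (@Lb.g g11 (@Lb.r r2341 (@Lb.r r1380 (@Lb.r r2715 (@Lb.r r1354 (@Lb.d (nat_lit 658) (nat_lit 170) (nat_lit 520) (@Lb.fm (nat_lit 3) t5892)))))))))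
noncomputable def l32794 : Lb := (@Lb.d (nat_lit 2) (nat_lit 289) (nat_lit 66) (@Lb.g g8 (@Lb.g g9 (@Lb.g g10 (@Lb.g g11 (@Lb.r r2595 (@Lb.r r386 (@Lb.r r36 (@Lb.r r149 (@Lb.r r2084 (@Lb.d (nat_lit 650) (nat_lit 9) (nat_lit 677) (@Lb.fp (nat_lit 9) t3054))))))))))))
noncomputable def l32795 : Lb := (@Lb.d (nat_lit 8) (nat_lit 265) (nat_lit 130) (@Lb.g g9 (@Lb.g g10 (@Lb.g g11 (@Lb.r r2471 (@Lb.r r1624 (@Lb.r r405 (@Lb.d (nat_lit 149) (nat_lit 26) (nat_lit 660) (@Lb.t (@Lb.fp (nat_lit 9) t5893))))))))))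
noncomputable def l32796 : Lb := (@Lb.d (nat_lit 130) (nat_lit 34) (nat_lit 0) (@Lb.g g8 (@Lb.g g9 (@Lb.r r275 (@Lb.r r2178 (@Lb.r r661 (@Lb.r r104 (@Lb.d (nat_lit 596) (nat_lit 5) (nat_lit 512) (@Lb.fm (nat_lit 3) t124)))))))))
noncomputable def l32797 : Lb := (@Lb.d (nat_lit 0) (nat_lit 260) (nat_lit 74) (@Lb.g g8 (@Lb.g g9 (@Lb.g g10 (@Lb.g g11 (@Lb.r r619 (@Lb.r r1610 (@Lb.r r660 (@Lb.r r425 (@Lb.r r2084 (@Lb.d (nat_lit 277) (nat_lit 104) (nat_lit 674) (@Lb.fp (nat_lit 9) t467))))))))))))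
noncomputable def l32798 : Lb := (@Lb.d (nat_lit 2) (nat_lit 514) (nat_lit 64) (@Lb.g g8 (@Lb.g g9 (@Lb.g g11 (@Lb.r r280 (@Lb.r r2725 (@Lb.r r2471 (@Lb.r r2178 (@Lb.r r1540 (@Lb.d (nat_lit 282) (nat_lit 129) (nat_lit 530) (@Lb.t (@Lb.fp (nat_lit 9) t772))))))))))))
noncomputable def l32799 : Lb := (@Lb.d (nat_lit 16) (nat_lit 258) (nat_lit 0) (@Lb.g g8 (@Lb.g g9 (@Lb.g g10 (@Lb.r r2729 (@Lb.r r2475 (@Lb.r r2468 (@Lb.r r2470 (@Lb.d (nat_lit 617) (nat_lit 98) (nat_lit 673) (@Lb.t (@Lb.fm (nat_lit 9) t744)))))))))))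
noncomputable def l32800 : Lb := (@Lb.d (nat_lit 130) (nat_lit 544) (nat_lit 0) (@Lb.g g8 (@Lb.g g9 (@Lb.r r1299 (@Lb.r r2178 (@Lb.r r2709 (@Lb.r r104 (@Lb.d (nat_lit 84) (nat_lit 5) (nat_lit 0) (@Lb.fm (nat_lit 3) t124)))))))))
noncomputable def l32801 : Lb := (@Lb.d (nat_lit 289) (nat_lit 514) (nat_lit 0) (@Lb.g g4 (@Lb.g g9 (@Lb.g g11 (@Lb.r r665 (@Lb.r r411 (@Lb.r r2178 (@Lb.r r529 (@Lb.d (nat_lit 534) (nat_lit 69) (nat_lit 512) (@Lb.t (@Lb.fm (nat_lit 9) t2806)))))))))))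
noncomputable def l32802 : Lb := (@Lb.d (nat_lit 17) (nat_lit 1) (nat_lit 74) (@Lb.g g8 (@Lb.g g9 (@Lb.g g10 (@Lb.g g11 (@Lb.r r2154 (@Lb.r r2405 (@Lb.r r2459 (@Lb.r r2472 (@Lb.d (nat_lit 149) (nat_lit 64) (nat_lit 642) (@Lb.fp (nat_lit 9) t5894)))))))))))
noncomputable def l32803 : Lb := (@Lb.r r331 (@Lb.d (nat_lit 38) (nat_lit 256) (nat_lit 2) (@Lb.g g8 (@Lb.g g9 (@Lb.g g10 (@Lb.r r2666 (@Lb.r r2635 (@Lb.r r2337 (@Lb.r r1636 (@Lb.d (nat_lit 152) (nat_lit 86) (nat_lit 682) (@Lb.t (@Lb.fm (nat_lit 9) t5895))))))))))))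
noncomputable def l32804 : Lb := (@Lb.d (nat_lit 128) (nat_lit 0) (nat_lit 384) (@Lb.g g8 (@Lb.g g5 (@Lb.g g11 (@Lb.r r260 (@Lb.d (nat_lit 73) (nat_lit 128) (nat_lit 512) (@Lb.t (@Lb.fp (nat_lit 9) t5458))))))))
noncomputable def l32805 : Lb := (@Lb.r r331 (@Lb.d (nat_lit 38) (nat_lit 256) (nat_lit 2) (@Lb.g g8 (@Lb.g g9 (@Lb.g g10 (@Lb.r r2635 (@Lb.r r658 (@Lb.r r2725 (@Lb.r r2584 (@Lb.d (nat_lit 409) (nat_lit 105) (nat_lit 145) (@Lb.t (@Lb.fm (nat_lit 9) t952))))))))))))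
noncomputable def l32806 : Lb := (@Lb.r r20 (@Lb.r r338 (@Lb.d (nat_lit 0) (nat_lit 360) (nat_lit 128) (@Lb.g g9 (@Lb.g g11 (@Lb.r r2198 (@Lb.r r1608 (@Lb.d (nat_lit 520) (nat_lit 1) (nat_lit 256) (@Lb.fm (nat_lit 3) t1039)))))))))
noncomputable def l32807 : Lb := (@Lb.d (nat_lit 4) (nat_lit 256) (nat_lit 72) (@Lb.g g8 (@Lb.g g9 (@Lb.g g11 (@Lb.r r1410 (@Lb.r r579 (@Lb.r r104 (@Lb.r r2153 (@Lb.d (nat_lit 33) (nat_lit 73) (nat_lit 16) (@Lb.t (@Lb.fm (nat_lit 9) t5176)))))))))))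
noncomputable def l32808 : Lb := (@Lb.d (nat_lit 400) (nat_lit 325) (nat_lit 353) (@Lb.r r2438 (@Lb.r r600 (@Lb.r r405 (@Lb.g g7 (@Lb.g g5 (@Lb.g g4 (@Lb.d (nat_lit 73) (nat_lit 17) (nat_lit 644) (@Lb.r r98 (@Lb.t (@Lb.fp (nat_lit 9) t5896)))))))))))
noncomputable def l32809 : Lb := (@Lb.d (nat_lit 149) (nat_lit 640) (nat_lit 133) (@Lb.g g8 (@Lb.g g9 (@Lb.g g10 (@Lb.g g11 (@Lb.r r1451 (@Lb.r r616 (@Lb.r r1686 (@Lb.d (nat_lit 357) (nat_lit 74) (nat_lit 337) (@Lb.fp (nat_lit 9) t3044))))))))))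
noncomputable def l32810 : Lb := (@Lb.g g8 (@Lb.g g5 (@Lb.g g7 (@Lb.r r2707 (@Lb.r r134 (@Lb.r r2644 (@Lb.r r1321 (@Lb.d (nat_lit 578) (nat_lit 320) (nat_lit 581) (@Lb.t (@Lb.fp (nat_lit 9) t507))))))))))
noncomputable def l32811 : Lb := (@Lb.r r331 (@Lb.d (nat_lit 38) (nat_lit 0) (nat_lit 2) (@Lb.g g8 (@Lb.g g9 (@Lb.g g10 (@Lb.r r2666 (@Lb.r r2635 (@Lb.r r2337 (@Lb.r r1636 (@Lb.d (nat_lit 149) (nat_lit 85) (nat_lit 682) (@Lb.t (@Lb.fm (nat_lit 9) t5897))))))))))))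
noncomputable def l32812 : Lb := (@Lb.r r326 (@Lb.d (nat_lit 2) (nat_lit 514) (nat_lit 512) (@Lb.g g8 (@Lb.g g9 (@Lb.g g7 (@Lb.r r1129 (@Lb.r r2194 (@Lb.r r132 (@Lb.d (nat_lit 592) (nat_lit 0) (nat_lit 577) (@Lb.t (@Lb.fp (nat_lit 9) t4297)))))))))))
noncomputable def l32813 : Lb := (@Lb.d (nat_lit 133) (nat_lit 512) (nat_lit 130) (@Lb.g g8 (@Lb.g g9 (@Lb.g g10 (@Lb.g g11 (@Lb.r r2635 (@Lb.r r2154 (@Lb.r r533 (@Lb.r r1704 (@Lb.d (nat_lit 130) (nat_lit 149) (nat_lit 406) (@Lb.fp (nat_lit 9) t956)))))))))))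
noncomputable def l32814 : Lb := (@Lb.d (nat_lit 1) (nat_lit 522) (nat_lit 64) (@Lb.g g8 (@Lb.g g9 (@Lb.g g11 (@Lb.r r2450 (@Lb.r r2387 (@Lb.r r2705 (@Lb.r r24 (@Lb.d (nat_lit 5) (nat_lit 170) (nat_lit 298) (@Lb.t (@Lb.fm (nat_lit 9) t309)))))))))))
noncomputable def l32815 : Lb := (@Lb.d (nat_lit 0) (nat_lit 6) (nat_lit 0) (@Lb.g g9 (@Lb.g g10 (@Lb.r r1697 (@Lb.r r2658 (@Lb.d (nat_lit 0) (nat_lit 146) (nat_lit 402) (@Lb.fp (nat_lit 3) t84)))))))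
noncomputable def l32816 : Lb := (@Lb.d (nat_lit 2) (nat_lit 289) (nat_lit 66) (@Lb.g g8 (@Lb.g g9 (@Lb.g g10 (@Lb.g g11 (@Lb.r r2595 (@Lb.r r386 (@Lb.r r612 (@Lb.r r533 (@Lb.r r1060 (@Lb.d (nat_lit 648) (nat_lit 9) (nat_lit 601) (@Lb.fp (nat_lit 9) t4493))))))))))))
noncomputable def l32817 : Lb := (@Lb.d (nat_lit 2) (nat_lit 10) (nat_lit 64) (@Lb.g g8 (@Lb.g g9 (@Lb.g g11 (@Lb.r r2450 (@Lb.r r2387 (@Lb.r r2705 (@Lb.r r24 (@Lb.d (nat_lit 10) (nat_lit 168) (nat_lit 298) (@Lb.t (@Lb.fm (nat_lit 9) t309)))))))))))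
noncomputable def l32818 : Lb := (@Lb.r r70 (@Lb.d (nat_lit 4) (nat_lit 257) (nat_lit 0) (@Lb.g g8 (@Lb.g g5 (@Lb.r r1122 (@Lb.r r1560 (@Lb.d (nat_lit 586) (nat_lit 0) (nat_lit 384) (@Lb.fm (nat_lit 3) t1145))))))))
noncomputable def l32819 : Lb := (@Lb.d (nat_lit 2) (nat_lit 516) (nat_lit 0) (@Lb.g g8 (@Lb.g g9 (@Lb.g g10 (@Lb.r r2729 (@Lb.r r2475 (@Lb.r r2468 (@Lb.r r2438 (@Lb.d (nat_lit 609) (nat_lit 10) (nat_lit 546) (@Lb.t (@Lb.fm (nat_lit 9) t1541)))))))))))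
noncomputable def l32820 : Lb := (@Lb.d (nat_lit 2) (nat_lit 4) (nat_lit 128) (@Lb.g g8 (@Lb.g g9 (@Lb.g g10 (@Lb.g g11 (@Lb.r r1699 (@Lb.r r164 (@Lb.r r2709 (@Lb.r r2198 (@Lb.r r2084 (@Lb.d (nat_lit 289) (nat_lit 81) (nat_lit 610) (@Lb.fp (nat_lit 9) t1161))))))))))))
noncomputable def l32821 : Lb := (@Lb.d (nat_lit 6) (nat_lit 6) (nat_lit 1) (@Lb.g g4 (@Lb.t (@Lb.fm (nat_lit 3) t45))))
noncomputable def l32822 : Lb := (@Lb.d (nat_lit 89) (nat_lit 256) (nat_lit 66) (@Lb.r r264 (@Lb.r r583 (@Lb.r r338 (@Lb.g g6 (@Lb.g g5 (@Lb.g g4 (@Lb.d (nat_lit 65) (nat_lit 38) (nat_lit 2) (@Lb.r r291 (@Lb.t (@Lb.fp (nat_lit 9) t98)))))))))))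
noncomputable def l32823 : Lb := (@Lb.r r323 (@Lb.d (nat_lit 0) (nat_lit 34) (nat_lit 32) (@Lb.g g8 (@Lb.g g9 (@Lb.g g10 (@Lb.r r595 (@Lb.r r296 (@Lb.r r409 (@Lb.d (nat_lit 149) (nat_lit 106) (nat_lit 148) (@Lb.t (@Lb.fm (nat_lit 9) t219)))))))))))
noncomputable def l32824 : Lb := (@Lb.d (nat_lit 4) (nat_lit 4) (nat_lit 65) (@Lb.g g8 (@Lb.g g9 (@Lb.g g10 (@Lb.g g11 (@Lb.r r1642 (@Lb.r r1049 (@Lb.d (nat_lit 522) (nat_lit 89) (nat_lit 130) (@Lb.fp (nat_lit 9) t69)))))))))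
noncomputable def l32825 : Lb := (@Lb.d (nat_lit 512) (nat_lit 662) (nat_lit 608) (@Lb.r r8 (@Lb.r r1317 (@Lb.r r599 (@Lb.g g6 (@Lb.g g5 (@Lb.d (nat_lit 0) (nat_lit 18) (nat_lit 33) (@Lb.r r387 (@Lb.fp (nat_lit 3) t162)))))))))
noncomputable def l32826 : Lb := (@Lb.d (nat_lit 74) (nat_lit 150) (nat_lit 608) (@Lb.r r8 (@Lb.r r1321 (@Lb.r r595 (@Lb.g g6 (@Lb.g g5 (@Lb.d (nat_lit 0) (nat_lit 17) (nat_lit 33) (@Lb.r r387 (@Lb.fp (nat_lit 3) t162)))))))))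
noncomputable def l32827 : Lb := (@Lb.g g10 (@Lb.r r1683 (@Lb.r r594 (@Lb.r r33 (@Lb.r r36 (@Lb.d (nat_lit 0) (nat_lit 408) (nat_lit 297) (@Lb.t (@Lb.fp (nat_lit 3) t591))))))))
noncomputable def l32828 : Lb := (@Lb.d (nat_lit 4) (nat_lit 0) (nat_lit 2) (@Lb.g g8 (@Lb.g g6 (@Lb.r r1619 (@Lb.r r418 (@Lb.r r33 (@Lb.d (nat_lit 2) (nat_lit 166) (nat_lit 420) (@Lb.fm (nat_lit 3) t591))))))))
noncomputable def l32829 : Lb := (@Lb.d (nat_lit 0) (nat_lit 258) (nat_lit 128) (@Lb.g g9 (@Lb.g g10 (@Lb.g g11 (@Lb.r r643 (@Lb.r r536 (@Lb.r r613 (@Lb.r r666 (@Lb.r r132 (@Lb.d (nat_lit 421) (nat_lit 33) (nat_lit 517) (@Lb.t (@Lb.fm (nat_lit 9) t1866))))))))))))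
noncomputable def l32830 : Lb := (@Lb.d (nat_lit 4) (nat_lit 260) (nat_lit 65) (@Lb.g g8 (@Lb.g g9 (@Lb.g g10 (@Lb.g g11 (@Lb.r r1642 (@Lb.r r1049 (@Lb.d (nat_lit 521) (nat_lit 89) (nat_lit 130) (@Lb.fp (nat_lit 9) t69)))))))))
noncomputable def l32831 : Lb := (@Lb.d (nat_lit 4) (nat_lit 516) (nat_lit 1) (@Lb.g g8 (@Lb.g g9 (@Lb.g g10 (@Lb.r r1699 (@Lb.r r610 (@Lb.r r1049 (@Lb.r r24 (@Lb.d (nat_lit 361) (nat_lit 2) (nat_lit 537) (@Lb.t (@Lb.fm (nat_lit 9) t979)))))))))))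
noncomputable def l32832 : Lb := (@Lb.d (nat_lit 2) (nat_lit 294) (nat_lit 64) (@Lb.g g8 (@Lb.g g9 (@Lb.g g10 (@Lb.g g11 (@Lb.r r387 (@Lb.r r1188 (@Lb.r r2438 (@Lb.r r2577 (@Lb.d (nat_lit 337) (nat_lit 164) (nat_lit 144) (@Lb.fm (nat_lit 9) t4)))))))))))
noncomputable def l32833 : Lb := (@Lb.d (nat_lit 0) (nat_lit 2) (nat_lit 128) (@Lb.g g8 (@Lb.g g9 (@Lb.g g10 (@Lb.g g11 (@Lb.r r2467 (@Lb.r r297 (@Lb.r r1096 (@Lb.r r2150 (@Lb.d (nat_lit 538) (nat_lit 150) (nat_lit 134) (@Lb.fp (nat_lit 9) t219)))))))))))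
noncomputable def l32834 : Lb := (@Lb.d (nat_lit 74) (nat_lit 406) (nat_lit 554) (@Lb.r r8 (@Lb.r r1321 (@Lb.r r595 (@Lb.g g6 (@Lb.g g5 (@Lb.d (nat_lit 0) (nat_lit 17) (nat_lit 33) (@Lb.r r387 (@Lb.fp (nat_lit 3) t162)))))))))
noncomputable def l32835 : Lb := (@Lb.r r82 (@Lb.d (nat_lit 2) (nat_lit 514) (nat_lit 520) (@Lb.g g8 (@Lb.g g9 (@Lb.g g7 (@Lb.r r1377 (@Lb.r r146 (@Lb.r r1608 (@Lb.d (nat_lit 401) (nat_lit 26) (nat_lit 130) (@Lb.t (@Lb.fm (nat_lit 9) t5898)))))))))))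
noncomputable def l32836 : Lb := (@Lb.d (nat_lit 38) (nat_lit 16) (nat_lit 521) (@Lb.g g8 (@Lb.g g9 (@Lb.g g10 (@Lb.g g7 (@Lb.r r1622 (@Lb.r r341 (@Lb.r r1560 (@Lb.d (nat_lit 26) (nat_lit 40) (nat_lit 665) (@Lb.fp (nat_lit 9) t5899))))))))))
noncomputable def l32837 : Lb := (@Lb.r r402 (@Lb.r r2145 (@Lb.r r36 (@Lb.d (nat_lit 5) (nat_lit 128) (nat_lit 512) (@Lb.fp (nat_lit 1) t940)))))
noncomputable def l32838 : Lb := (@Lb.r r82 (@Lb.d (nat_lit 32) (nat_lit 2) (nat_lit 128) (@Lb.g g8 (@Lb.g g9 (@Lb.g g11 (@Lb.r r363 (@Lb.r r582 (@Lb.r r677 (@Lb.r r408 (@Lb.d (nat_lit 550) (nat_lit 154) (nat_lit 680) (@Lb.t (@Lb.fm (nat_lit 9) t3646))))))))))))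
noncomputable def l32839 : Lb := (@Lb.d (nat_lit 402) (nat_lit 408) (nat_lit 32) (@Lb.r r2145 (@Lb.r r1350 (@Lb.r r2715 (@Lb.g g6 (@Lb.g g4 (@Lb.d (nat_lit 288) (nat_lit 0) (nat_lit 0) (@Lb.fm (nat_lit 3) t2597))))))))
noncomputable def l32840 : Lb := (@Lb.d (nat_lit 10) (nat_lit 0) (nat_lit 73) (@Lb.g g8 (@Lb.g g10 (@Lb.g g11 (@Lb.r r2721 (@Lb.r r2731 (@Lb.r r2696 (@Lb.r r2122 (@Lb.d (nat_lit 536) (nat_lit 128) (nat_lit 22) (@Lb.t (@Lb.fp (nat_lit 9) t154)))))))))))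
noncomputable def l32841 : Lb := (@Lb.d (nat_lit 0) (nat_lit 514) (nat_lit 0) (@Lb.g g9 (@Lb.g g7 (@Lb.r r422 (@Lb.r r88 (@Lb.r r37 (@Lb.d (nat_lit 138) (nat_lit 82) (nat_lit 320) (@Lb.fm (nat_lit 3) t2244))))))))
noncomputable def l32842 : Lb := (@Lb.d (nat_lit 2) (nat_lit 521) (nat_lit 72) (@Lb.g g8 (@Lb.g g9 (@Lb.g g10 (@Lb.g g11 (@Lb.r r1559 (@Lb.r r617 (@Lb.r r2386 (@Lb.d (nat_lit 289) (nat_lit 169) (nat_lit 360) (@Lb.fp (nat_lit 9) t2854))))))))))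
noncomputable def l32843 : Lb := (@Lb.d (nat_lit 6) (nat_lit 0) (nat_lit 130) (@Lb.g g8 (@Lb.g g9 (@Lb.g g10 (@Lb.g g11 (@Lb.r r1443 (@Lb.r r1690 (@Lb.r r1313 (@Lb.r r2196 (@Lb.d (nat_lit 82) (nat_lit 6) (nat_lit 33) (@Lb.fp (nat_lit 9) t4176)))))))))))
noncomputable def l32844 : Lb := (@Lb.d (nat_lit 170) (nat_lit 154) (nat_lit 426) (@Lb.r r1125 (@Lb.r r2324 (@Lb.r r1362 (@Lb.g g7 (@Lb.g g6 (@Lb.g g5 (@Lb.g g4 (@Lb.d (nat_lit 154) (nat_lit 0) (nat_lit 577) (@Lb.fm (nat_lit 9) t1948))))))))))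
noncomputable def l32845 : Lb := (@Lb.r r323 (@Lb.d (nat_lit 66) (nat_lit 258) (nat_lit 0) (@Lb.g g8 (@Lb.g g9 (@Lb.g g10 (@Lb.r r1559 (@Lb.r r2389 (@Lb.r r422 (@Lb.r r600 (@Lb.d (nat_lit 324) (nat_lit 97) (nat_lit 9) (@Lb.t (@Lb.fp (nat_lit 9) t5900))))))))))))
noncomputable def l32846 : Lb := (@Lb.d (nat_lit 2) (nat_lit 258) (nat_lit 128) (@Lb.g g8 (@Lb.g g9 (@Lb.g g10 (@Lb.g g11 (@Lb.r r2723 (@Lb.r r134 (@Lb.r r2664 (@Lb.r r2585 (@Lb.d (nat_lit 282) (nat_lit 104) (nat_lit 36) (@Lb.fm (nat_lit 9) t1082)))))))))))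
noncomputable def l32847 : Lb := (@Lb.r r322 (@Lb.d (nat_lit 2) (nat_lit 258) (nat_lit 8) (@Lb.g g8 (@Lb.g g9 (@Lb.g g11 (@Lb.r r1430 (@Lb.r r2585 (@Lb.d (nat_lit 329) (nat_lit 4) (nat_lit 386) (@Lb.t (@Lb.fp (nat_lit 9) t2775))))))))))
noncomputable def l32848 : Lb := (@Lb.r r532 (@Lb.d (nat_lit 0) (nat_lit 33) (nat_lit 644) (@Lb.g g9 (@Lb.g g10 (@Lb.g g11 (@Lb.r r1634 (@Lb.r r2193 (@Lb.r r1156 (@Lb.d (nat_lit 0) (nat_lit 17) (nat_lit 409) (@Lb.t (@Lb.fm (nat_lit 9) t5901)))))))))))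
noncomputable def l32849 : Lb := (@Lb.d (nat_lit 2) (nat_lit 265) (nat_lit 130) (@Lb.g g8 (@Lb.g g9 (@Lb.g g10 (@Lb.g g11 (@Lb.r r2627 (@Lb.r r345 (@Lb.r r1378 (@Lb.d (nat_lit 609) (nat_lit 1) (nat_lit 345) (@Lb.fm (nat_lit 9) t5902))))))))))
noncomputable def l32850 : Lb := (@Lb.d (nat_lit 2) (nat_lit 536) (nat_lit 74) (@Lb.g g8 (@Lb.g g9 (@Lb.g g10 (@Lb.g g11 (@Lb.r r1691 (@Lb.r r328 (@Lb.r r1190 (@Lb.r r1361 (@Lb.d (nat_lit 361) (nat_lit 40) (nat_lit 421) (@Lb.fm (nat_lit 9) t472)))))))))))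
noncomputable def l32851 : Lb := (@Lb.d (nat_lit 341) (nat_lit 298) (nat_lit 518) (@Lb.r r2727 (@Lb.r r1432 (@Lb.r r597 (@Lb.r r1386 (@Lb.g g7 (@Lb.d (nat_lit 64) (nat_lit 16) (nat_lit 64) (@Lb.t (@Lb.fm (nat_lit 3) t271)))))))))
noncomputable def l32852 : Lb := (@Lb.r r21 (@Lb.r r70 (@Lb.d (nat_lit 514) (nat_lit 512) (nat_lit 0) (@Lb.g g8 (@Lb.r r1291 (@Lb.r r402 (@Lb.r r97 (@Lb.d (nat_lit 521) (nat_lit 130) (nat_lit 512) (@Lb.t (@Lb.fp (nat_lit 3) t3075))))))))))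
noncomputable def l32853 : Lb := (@Lb.d (nat_lit 88) (nat_lit 677) (nat_lit 578) (@Lb.r r2649 (@Lb.r r2584 (@Lb.r r642 (@Lb.r r1347 (@Lb.g g7 (@Lb.g g6 (@Lb.g g5 (@Lb.d (nat_lit 4) (nat_lit 21) (nat_lit 74) (@Lb.t (@Lb.fp (nat_lit 9) t5903)))))))))))
noncomputable def l32854 : Lb := (@Lb.d (nat_lit 1) (nat_lit 258) (nat_lit 73) (@Lb.g g8 (@Lb.g g9 (@Lb.g g10 (@Lb.g g11 (@Lb.r r2691 (@Lb.r r536 (@Lb.r r2197 (@Lb.r r2646 (@Lb.r r164 (@Lb.d (nat_lit 138) (nat_lit 9) (nat_lit 361) (@Lb.fp (nat_lit 9) t1636))))))))))))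
noncomputable def l32855 : Lb := (@Lb.d (nat_lit 640) (nat_lit 514) (nat_lit 73) (@Lb.g g4 (@Lb.g g9 (@Lb.g g10 (@Lb.g g11 (@Lb.r r2214 (@Lb.r r545 (@Lb.r r611 (@Lb.r r2577 (@Lb.d (nat_lit 386) (nat_lit 72) (nat_lit 344) (@Lb.fp (nat_lit 9) t1317)))))))))))
noncomputable def l32856 : Lb := (@Lb.r r21 (@Lb.r r70 (@Lb.d (nat_lit 409) (nat_lit 0) (nat_lit 136) (@Lb.g g8 (@Lb.g g11 (@Lb.r r101 (@Lb.r r2450 (@Lb.d (nat_lit 2) (nat_lit 154) (nat_lit 544) (@Lb.fm (nat_lit 3) t2605)))))))))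
noncomputable def l32857 : Lb := (@Lb.r r82 (@Lb.d (nat_lit 6) (nat_lit 2) (nat_lit 0) (@Lb.g g8 (@Lb.g g9 (@Lb.r r2664 (@Lb.r r1625 (@Lb.r r98 (@Lb.d (nat_lit 358) (nat_lit 90) (nat_lit 666) (@Lb.fp (nat_lit 3) t5904)))))))))
noncomputable def l32858 : Lb := (@Lb.d (nat_lit 640) (nat_lit 258) (nat_lit 9) (@Lb.g g4 (@Lb.g g9 (@Lb.g g10 (@Lb.g g11 (@Lb.r r2667 (@Lb.r r145 (@Lb.r r594 (@Lb.r r1169 (@Lb.d (nat_lit 0) (nat_lit 162) (nat_lit 600) (@Lb.fp (nat_lit 9) t5905)))))))))))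
noncomputable def l32859 : Lb := (@Lb.d (nat_lit 640) (nat_lit 2) (nat_lit 9) (@Lb.g g4 (@Lb.g g9 (@Lb.g g10 (@Lb.g g11 (@Lb.r r2667 (@Lb.r r145 (@Lb.r r594 (@Lb.r r1169 (@Lb.d (nat_lit 1) (nat_lit 162) (nat_lit 600) (@Lb.fp (nat_lit 9) t5906)))))))))))
noncomputable def l32860 : Lb := (@Lb.d (nat_lit 40) (nat_lit 258) (nat_lit 73) (@Lb.g g9 (@Lb.g g10 (@Lb.g g11 (@Lb.r r2695 (@Lb.r r1352 (@Lb.r r2390 (@Lb.r r1425 (@Lb.d (nat_lit 128) (nat_lit 65) (nat_lit 330) (@Lb.t (@Lb.fm (nat_lit 9) t4769)))))))))))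
noncomputable def l32861 : Lb := (@Lb.d (nat_lit 262) (nat_lit 6) (nat_lit 33) (@Lb.r r2129 (@Lb.r r1126 (@Lb.r r597 (@Lb.r r2391 (@Lb.g g7 (@Lb.g g6 (@Lb.g g5 (@Lb.g g4 (@Lb.d (nat_lit 6) (nat_lit 1) (nat_lit 65) (@Lb.fp (nat_lit 9) t5907)))))))))))
noncomputable def l32862 : Lb := (@Lb.r r21 (@Lb.r r70 (@Lb.d (nat_lit 657) (nat_lit 256) (nat_lit 0) (@Lb.g g8 (@Lb.g g11 (@Lb.r r2695 (@Lb.r r74 (@Lb.r r25 (@Lb.d (nat_lit 2) (nat_lit 0) (nat_lit 597) (@Lb.fp (nat_lit 3) t1071))))))))))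
noncomputable def l32863 : Lb := (@Lb.d (nat_lit 129) (nat_lit 260) (nat_lit 10) (@Lb.g g8 (@Lb.g g9 (@Lb.g g10 (@Lb.g g11 (@Lb.r r2647 (@Lb.r r1634 (@Lb.r r36 (@Lb.r r2069 (@Lb.r r1060 (@Lb.d (nat_lit 609) (nat_lit 1) (nat_lit 362) (@Lb.fm (nat_lit 9) t5908))))))))))))
noncomputable def l32864 : Lb := (@Lb.d (nat_lit 144) (nat_lit 358) (nat_lit 645) (@Lb.r r580 (@Lb.r r2386 (@Lb.g g7 (@Lb.g g6 (@Lb.g g5 (@Lb.g g4 (@Lb.d (nat_lit 98) (nat_lit 0) (nat_lit 577) (@Lb.fp (nat_lit 9) t426)))))))))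
noncomputable def l32865 : Lb := (@Lb.d (nat_lit 0) (nat_lit 262) (nat_lit 74) (@Lb.g g8 (@Lb.g g9 (@Lb.g g10 (@Lb.g g11 (@Lb.r r1707 (@Lb.r r1685 (@Lb.r r1178 (@Lb.r r24 (@Lb.d (nat_lit 69) (nat_lit 106) (nat_lit 169) (@Lb.fm (nat_lit 9) t5494)))))))))))
noncomputable def l32866 : Lb := (@Lb.d (nat_lit 6) (nat_lit 32) (nat_lit 136) (@Lb.g g4 (@Lb.g g11 (@Lb.r r409 (@Lb.r r2458 (@Lb.r r2407 (@Lb.d (nat_lit 354) (nat_lit 136) (nat_lit 36) (@Lb.fm (nat_lit 3) t2238))))))))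
noncomputable def l32867 : Lb := (@Lb.d (nat_lit 128) (nat_lit 32) (nat_lit 72) (@Lb.g g11 (@Lb.r r2410 (@Lb.r r361 (@Lb.r r1384 (@Lb.r r2455 (@Lb.d (nat_lit 166) (nat_lit 144) (nat_lit 266) (@Lb.t (@Lb.fp (nat_lit 3) t322)))))))))
noncomputable def l32868 : Lb := (@Lb.r r82 (@Lb.d (nat_lit 0) (nat_lit 545) (nat_lit 64) (@Lb.g g8 (@Lb.g g9 (@Lb.g g11 (@Lb.r r2659 (@Lb.r r386 (@Lb.r r2472 (@Lb.r r2393 (@Lb.d (nat_lit 593) (nat_lit 132) (nat_lit 73) (@Lb.t (@Lb.fp (nat_lit 9) t3457))))))))))))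
noncomputable def l32869 : Lb := (@Lb.g g8 (@Lb.r r101 (@Lb.d (nat_lit 256) (nat_lit 256) (nat_lit 32) (@Lb.t (@Lb.fm (nat_lit 3) t743)))))
noncomputable def l32870 : Lb := (@Lb.d (nat_lit 2) (nat_lit 290) (nat_lit 2) (@Lb.g g8 (@Lb.g g9 (@Lb.g g10 (@Lb.r r643 (@Lb.r r1194 (@Lb.r r425 (@Lb.d (nat_lit 149) (nat_lit 148) (nat_lit 618) (@Lb.t (@Lb.fp (nat_lit 9) t3409))))))))))
noncomputable def l32871 : Lb := (@Lb.d (nat_lit 4) (nat_lit 288) (nat_lit 2) (@Lb.g g8 (@Lb.g g9 (@Lb.g g10 (@Lb.r r1675 (@Lb.r r1194 (@Lb.r r2465 (@Lb.d (nat_lit 425) (nat_lit 84) (nat_lit 666) (@Lb.t (@Lb.fp (nat_lit 9) t172))))))))))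
noncomputable def l32872 : Lb := (@Lb.g g8 (@Lb.r r101 (@Lb.d (nat_lit 256) (nat_lit 522) (nat_lit 34) (@Lb.t (@Lb.fm (nat_lit 3) t743)))))
noncomputable def l32873 : Lb := (@Lb.d (nat_lit 5) (nat_lit 597) (nat_lit 32) (@Lb.r r1442 (@Lb.r r343 (@Lb.r r2729 (@Lb.r r2664 (@Lb.g g6 (@Lb.d (nat_lit 32) (nat_lit 0) (nat_lit 1) (@Lb.r r387 (@Lb.t (@Lb.fp (nat_lit 3) t5909))))))))))
noncomputable def l32874 : Lb := (@Lb.d (nat_lit 0) (nat_lit 16) (nat_lit 130) (@Lb.g g8 (@Lb.g g9 (@Lb.g g10 (@Lb.g g11 (@Lb.r r2571 (@Lb.r r386 (@Lb.r r1125 (@Lb.r r24 (@Lb.d (nat_lit 41) (nat_lit 18) (nat_lit 153) (@Lb.fp (nat_lit 9) t2273)))))))))))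
noncomputable def l32875 : Lb := (@Lb.d (nat_lit 128) (nat_lit 38) (nat_lit 133) (@Lb.g g8 (@Lb.g g9 (@Lb.g g10 (@Lb.g g11 (@Lb.r r683 (@Lb.r r1386 (@Lb.r r1305 (@Lb.r r516 (@Lb.d (nat_lit 521) (nat_lit 105) (nat_lit 153) (@Lb.fm (nat_lit 9) t2352)))))))))))
noncomputable def l32876 : Lb := (@Lb.r r323 (@Lb.d (nat_lit 161) (nat_lit 514) (nat_lit 2) (@Lb.g g8 (@Lb.g g9 (@Lb.g g10 (@Lb.r r2457 (@Lb.r r1319 (@Lb.r r1604 (@Lb.r r1098 (@Lb.d (nat_lit 336) (nat_lit 72) (nat_lit 136) (@Lb.t (@Lb.fm (nat_lit 9) t5910))))))))))))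
noncomputable def l32877 : Lb := (@Lb.d (nat_lit 128) (nat_lit 2) (nat_lit 130) (@Lb.g g8 (@Lb.g g9 (@Lb.g g10 (@Lb.g g11 (@Lb.r r683 (@Lb.r r1433 (@Lb.r r146 (@Lb.r r516 (@Lb.d (nat_lit 545) (nat_lit 100) (nat_lit 152) (@Lb.fp (nat_lit 9) t344)))))))))))
noncomputable def l32878 : Lb := (@Lb.r r273 (@Lb.r r322 (@Lb.d (nat_lit 129) (nat_lit 272) (nat_lit 256) (@Lb.g g8 (@Lb.g g7 (@Lb.r r361 (@Lb.r r146 (@Lb.r r264 (@Lb.d (nat_lit 162) (nat_lit 10) (nat_lit 517) (@Lb.fm (nat_lit 3) t509))))))))))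
noncomputable def l32879 : Lb := (@Lb.r r21 (@Lb.r r70 (@Lb.d (nat_lit 265) (nat_lit 256) (nat_lit 0) (@Lb.g g4 (@Lb.g g7 (@Lb.r r74 (@Lb.r r25 (@Lb.d (nat_lit 517) (nat_lit 129) (nat_lit 69) (@Lb.fm (nat_lit 3) t647)))))))))
noncomputable def l32880 : Lb := (@Lb.d (nat_lit 2) (nat_lit 260) (nat_lit 128) (@Lb.g g8 (@Lb.g g9 (@Lb.g g10 (@Lb.g g11 (@Lb.r r2666 (@Lb.r r579 (@Lb.r r104 (@Lb.r r25 (@Lb.d (nat_lit 618) (nat_lit 84) (nat_lit 8) (@Lb.fp (nat_lit 9) t2153)))))))))))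
noncomputable def l32881 : Lb := (@Lb.r r21 (@Lb.d (nat_lit 2) (nat_lit 256) (nat_lit 2) (@Lb.g g8 (@Lb.g g10 (@Lb.g g11 (@Lb.r r386 (@Lb.r r1640 (@Lb.r r25 (@Lb.d (nat_lit 612) (nat_lit 81) (nat_lit 661) (@Lb.t (@Lb.fm (nat_lit 9) t1403)))))))))))
noncomputable def l32882 : Lb := (@Lb.d (nat_lit 2) (nat_lit 256) (nat_lit 130) (@Lb.g g8 (@Lb.g g9 (@Lb.g g10 (@Lb.g g11 (@Lb.r r1681 (@Lb.r r535 (@Lb.r r2440 (@Lb.r r2122 (@Lb.d (nat_lit 33) (nat_lit 0) (nat_lit 137) (@Lb.fp (nat_lit 9) t221)))))))))))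
noncomputable def l32883 : Lb := (@Lb.d (nat_lit 4) (nat_lit 512) (nat_lit 130) (@Lb.g g8 (@Lb.g g9 (@Lb.g g10 (@Lb.g g11 (@Lb.r r1689 (@Lb.r r539 (@Lb.r r1604 (@Lb.r r2122 (@Lb.d (nat_lit 81) (nat_lit 0) (nat_lit 665) (@Lb.fm (nat_lit 9) t221)))))))))))
noncomputable def l32884 : Lb := (@Lb.r r21 (@Lb.r r70 (@Lb.d (nat_lit 2) (nat_lit 0) (nat_lit 324) (@Lb.g g8 (@Lb.g g7 (@Lb.r r402 (@Lb.r r1129 (@Lb.r r2084 (@Lb.d (nat_lit 592) (nat_lit 74) (nat_lit 592) (@Lb.fp (nat_lit 3) t1674))))))))))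
noncomputable def l32885 : Lb := (@Lb.r r82 (@Lb.d (nat_lit 4) (nat_lit 0) (nat_lit 0) (@Lb.g g8 (@Lb.g g9 (@Lb.g g7 (@Lb.r r2134 (@Lb.r r1065 (@Lb.r r36 (@Lb.d (nat_lit 514) (nat_lit 66) (nat_lit 69) (@Lb.t (@Lb.fm (nat_lit 9) t647)))))))))))
noncomputable def l32886 : Lb := (@Lb.d (nat_lit 2) (nat_lit 0) (nat_lit 130) (@Lb.g g8 (@Lb.g g9 (@Lb.g g10 (@Lb.g g11 (@Lb.r r2475 (@Lb.r r2440 (@Lb.r r2122 (@Lb.r r101 (@Lb.d (nat_lit 265) (nat_lit 88) (nat_lit 646) (@Lb.fp (nat_lit 9) t5911)))))))))))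
noncomputable def l32887 : Lb := (@Lb.r r275 (@Lb.d (nat_lit 145) (nat_lit 2) (nat_lit 0) (@Lb.g g8 (@Lb.g g9 (@Lb.g g10 (@Lb.r r599 (@Lb.r r1602 (@Lb.r r1672 (@Lb.d (nat_lit 601) (nat_lit 89) (nat_lit 549) (@Lb.t (@Lb.fm (nat_lit 9) t2343)))))))))))
noncomputable def l32888 : Lb := (@Lb.d (nat_lit 9) (nat_lit 8) (nat_lit 129) (@Lb.g g8 (@Lb.g g9 (@Lb.g g10 (@Lb.g g11 (@Lb.r r1706 (@Lb.r r660 (@Lb.r r535 (@Lb.r r1317 (@Lb.r r1060 (@Lb.d (nat_lit 325) (nat_lit 96) (nat_lit 394) (@Lb.fm (nat_lit 9) t3612))))))))))))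
noncomputable def l32889 : Lb := (@Lb.r r273 (@Lb.d (nat_lit 32) (nat_lit 288) (nat_lit 386) (@Lb.g g10 (@Lb.g g11 (@Lb.r r2409 (@Lb.r r100 (@Lb.r r74 (@Lb.d (nat_lit 618) (nat_lit 130) (nat_lit 642) (@Lb.fp (nat_lit 3) t1702)))))))))
noncomputable def l32890 : Lb := (@Lb.r r275 (@Lb.d (nat_lit 130) (nat_lit 514) (nat_lit 2) (@Lb.g g8 (@Lb.g g9 (@Lb.g g10 (@Lb.r r599 (@Lb.r r98 (@Lb.r r2456 (@Lb.d (nat_lit 405) (nat_lit 81) (nat_lit 513) (@Lb.t (@Lb.fm (nat_lit 9) t573)))))))))))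
noncomputable def l32891 : Lb := (@Lb.d (nat_lit 1) (nat_lit 512) (nat_lit 128) (@Lb.g g8 (@Lb.g g9 (@Lb.g g10 (@Lb.g g11 (@Lb.r r683 (@Lb.r r1610 (@Lb.r r1561 (@Lb.r r2628 (@Lb.d (nat_lit 681) (nat_lit 74) (nat_lit 393) (@Lb.fm (nat_lit 9) t915)))))))))))
noncomputable def l32892 : Lb := (@Lb.d (nat_lit 0) (nat_lit 512) (nat_lit 2) (@Lb.g g9 (@Lb.g g10 (@Lb.g g7 (@Lb.r r98 (@Lb.d (nat_lit 0) (nat_lit 9) (nat_lit 0) (@Lb.t (@Lb.fp (nat_lit 9) t354))))))))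
noncomputable def l32893 : Lb := (@Lb.r r81 (@Lb.r r323 (@Lb.d (nat_lit 130) (nat_lit 512) (nat_lit 2) (@Lb.g g8 (@Lb.g g10 (@Lb.r r583 (@Lb.r r2081 (@Lb.r r2312 (@Lb.d (nat_lit 673) (nat_lit 10) (nat_lit 640) (@Lb.fp (nat_lit 3) t2369))))))))))
noncomputable def l32894 : Lb := (@Lb.r r323 (@Lb.d (nat_lit 130) (nat_lit 0) (nat_lit 2) (@Lb.g g8 (@Lb.g g9 (@Lb.g g10 (@Lb.r r1169 (@Lb.r r402 (@Lb.r r583 (@Lb.r r2312 (@Lb.d (nat_lit 648) (nat_lit 0) (nat_lit 642) (@Lb.t (@Lb.fp (nat_lit 9) t1350))))))))))))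
noncomputable def l32895 : Lb := (@Lb.d (nat_lit 1) (nat_lit 336) (nat_lit 389) (@Lb.r r579 (@Lb.r r1362 (@Lb.g g7 (@Lb.g g6 (@Lb.g g5 (@Lb.d (nat_lit 0) (nat_lit 130) (nat_lit 134) (@Lb.r r36 (@Lb.t (@Lb.fm (nat_lit 9) t154))))))))))
noncomputable def l32896 : Lb := (@Lb.d (nat_lit 164) (nat_lit 258) (nat_lit 358) (@Lb.r r68 (@Lb.r r90 (@Lb.r r596 (@Lb.r r1367 (@Lb.g g7 (@Lb.g g6 (@Lb.g g5 (@Lb.g g4 (@Lb.d (nat_lit 8) (nat_lit 128) (nat_lit 134) (@Lb.fp (nat_lit 9) t5912)))))))))))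
noncomputable def l32897 : Lb := (@Lb.d (nat_lit 2) (nat_lit 2) (nat_lit 2) (@Lb.g g8 (@Lb.g g9 (@Lb.g g10 (@Lb.g g11 (@Lb.r r1383 (@Lb.r r424 (@Lb.r r106 (@Lb.r r25 (@Lb.d (nat_lit 9) (nat_lit 132) (nat_lit 680) (@Lb.fm (nat_lit 9) t5913)))))))))))
noncomputable def l32898 : Lb := (@Lb.d (nat_lit 642) (nat_lit 2) (nat_lit 2) (@Lb.g g8 (@Lb.g g9 (@Lb.g g10 (@Lb.r r2651 (@Lb.r r106 (@Lb.r r25 (@Lb.d (nat_lit 9) (nat_lit 9) (nat_lit 530) (@Lb.t (@Lb.fp (nat_lit 9) t5914))))))))))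
noncomputable def l32899 : Lb := (@Lb.d (nat_lit 144) (nat_lit 258) (nat_lit 130) (@Lb.g g8 (@Lb.g g9 (@Lb.g g10 (@Lb.g g11 (@Lb.r r2705 (@Lb.r r535 (@Lb.r r2440 (@Lb.r r1434 (@Lb.d (nat_lit 665) (nat_lit 154) (nat_lit 69) (@Lb.fm (nat_lit 9) t1802)))))))))))
noncomputable def l32900 : Lb := (@Lb.d (nat_lit 152) (nat_lit 0) (nat_lit 130) (@Lb.g g8 (@Lb.g g10 (@Lb.g g11 (@Lb.r r2691 (@Lb.r r657 (@Lb.r r1178 (@Lb.r r408 (@Lb.d (nat_lit 74) (nat_lit 26) (nat_lit 162) (@Lb.t (@Lb.fp (nat_lit 9) t5915)))))))))))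
noncomputable def l32901 : Lb := (@Lb.d (nat_lit 152) (nat_lit 0) (nat_lit 81) (@Lb.g g8 (@Lb.g g6 (@Lb.g g11 (@Lb.r r1603 (@Lb.r r2197 (@Lb.r r100 (@Lb.d (nat_lit 26) (nat_lit 130) (nat_lit 648) (@Lb.t (@Lb.fm (nat_lit 9) t1219))))))))))
noncomputable def l32902 : Lb := (@Lb.d (nat_lit 642) (nat_lit 258) (nat_lit 2) (@Lb.g g8 (@Lb.g g9 (@Lb.g g10 (@Lb.r r2651 (@Lb.r r106 (@Lb.r r25 (@Lb.d (nat_lit 8) (nat_lit 9) (nat_lit 530) (@Lb.t (@Lb.fp (nat_lit 9) t5913))))))))))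
noncomputable def l32903 : Lb := (@Lb.g g4 (@Lb.r r152 (@Lb.r r2202 (@Lb.r r85 (@Lb.r r2212 (@Lb.t (@Lb.fm (nat_lit 3) t980)))))))
noncomputable def l32904 : Lb := (@Lb.d (nat_lit 22) (nat_lit 65) (nat_lit 41) (@Lb.r r2202 (@Lb.r r2452 (@Lb.r r667 (@Lb.r r337 (@Lb.g g7 (@Lb.g g6 (@Lb.g g4 (@Lb.d (nat_lit 4) (nat_lit 8) (nat_lit 134) (@Lb.t (@Lb.fp (nat_lit 9) t334)))))))))))
noncomputable def l32905 : Lb := (@Lb.d (nat_lit 400) (nat_lit 166) (nat_lit 282) (@Lb.r r1604 (@Lb.r r1362 (@Lb.g g7 (@Lb.g g6 (@Lb.g g5 (@Lb.g g4 (@Lb.d (nat_lit 5) (nat_lit 1) (nat_lit 134) (@Lb.fp (nat_lit 9) t939)))))))))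
noncomputable def l32906 : Lb := (@Lb.d (nat_lit 146) (nat_lit 514) (nat_lit 133) (@Lb.g g8 (@Lb.g g9 (@Lb.g g10 (@Lb.g g11 (@Lb.r r427 (@Lb.r r2154 (@Lb.r r409 (@Lb.r r388 (@Lb.d (nat_lit 96) (nat_lit 149) (nat_lit 337) (@Lb.fp (nat_lit 9) t842)))))))))))
noncomputable def l32907 : Lb := (@Lb.d (nat_lit 2) (nat_lit 258) (nat_lit 130) (@Lb.g g8 (@Lb.g g9 (@Lb.g g10 (@Lb.g g11 (@Lb.r r2666 (@Lb.r r579 (@Lb.r r25 (@Lb.d (nat_lit 0) (nat_lit 161) (nat_lit 586) (@Lb.fm (nat_lit 9) t51))))))))))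
noncomputable def l32908 : Lb := (@Lb.d (nat_lit 146) (nat_lit 8) (nat_lit 133) (@Lb.g g8 (@Lb.g g10 (@Lb.g g11 (@Lb.r r1125 (@Lb.r r2328 (@Lb.r r2695 (@Lb.r r1686 (@Lb.d (nat_lit 673) (nat_lit 165) (nat_lit 537) (@Lb.t (@Lb.fm (nat_lit 9) t225)))))))))))
noncomputable def l32909 : Lb := (@Lb.r r70 (@Lb.d (nat_lit 41) (nat_lit 512) (nat_lit 0) (@Lb.g g8 (@Lb.r r1445 (@Lb.r r1627 (@Lb.r r2438 (@Lb.r r2648 (@Lb.d (nat_lit 154) (nat_lit 102) (nat_lit 137) (@Lb.t (@Lb.fp (nat_lit 3) t4))))))))))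
noncomputable def l32910 : Lb := (@Lb.d (nat_lit 320) (nat_lit 613) (nat_lit 602) (@Lb.r r357 (@Lb.r r2715 (@Lb.r r678 (@Lb.g g5 (@Lb.g g8 (@Lb.d (nat_lit 586) (nat_lit 4) (nat_lit 0) (@Lb.r r74 (@Lb.fm (nat_lit 3) t5916)))))))))
noncomputable def l32911 : Lb := (@Lb.r r616 (@Lb.r r619 (@Lb.r r2390 (@Lb.r r665 (@Lb.r r1668 (@Lb.d (nat_lit 321) (nat_lit 64) (nat_lit 576) (@Lb.fp (nat_lit 1) t2832)))))))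
noncomputable def l32912 : Lb := (@Lb.g g8 (@Lb.g g9 (@Lb.r r2148 (@Lb.r r101 (@Lb.d (nat_lit 0) (nat_lit 640) (nat_lit 16) (@Lb.fp (nat_lit 3) t5917))))))
noncomputable def l32913 : Lb := (@Lb.d (nat_lit 8) (nat_lit 514) (nat_lit 0) (@Lb.g g9 (@Lb.d (nat_lit 529) (nat_lit 10) (nat_lit 16) (@Lb.t (@Lb.fp (nat_lit 3) t516)))))
noncomputable def l32914 : Lb := (@Lb.d (nat_lit 16) (nat_lit 514) (nat_lit 128) (@Lb.g g8 (@Lb.g g9 (@Lb.g g10 (@Lb.g g11 (@Lb.r r392 (@Lb.r r615 (@Lb.r r2649 (@Lb.r r2470 (@Lb.r r1044 (@Lb.d (nat_lit 105) (nat_lit 2) (nat_lit 169) (@Lb.fm (nat_lit 9) t148))))))))))))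
noncomputable def l32915 : Lb := (@Lb.r r70 (@Lb.d (nat_lit 129) (nat_lit 256) (nat_lit 64) (@Lb.g g8 (@Lb.g g9 (@Lb.g g11 (@Lb.r r1547 (@Lb.r r2454 (@Lb.r r2632 (@Lb.d (nat_lit 384) (nat_lit 64) (nat_lit 152) (@Lb.t (@Lb.fp (nat_lit 9) t5918)))))))))))
noncomputable def l32916 : Lb := (@Lb.r r81 (@Lb.d (nat_lit 0) (nat_lit 292) (nat_lit 145) (@Lb.g g8 (@Lb.g g6 (@Lb.g g11 (@Lb.r r2153 (@Lb.r r2660 (@Lb.r r263 (@Lb.d (nat_lit 66) (nat_lit 90) (nat_lit 328) (@Lb.t (@Lb.fm (nat_lit 9) t393)))))))))))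
noncomputable def l32917 : Lb := (@Lb.d (nat_lit 537) (nat_lit 74) (nat_lit 0) (@Lb.r r2641 (@Lb.r r279 (@Lb.r r584 (@Lb.g g6 (@Lb.g g5 (@Lb.d (nat_lit 16) (nat_lit 0) (nat_lit 1) (@Lb.r r387 (@Lb.fp (nat_lit 3) t2304)))))))))
noncomputable def l32918 : Lb := (@Lb.d (nat_lit 641) (nat_lit 512) (nat_lit 8) (@Lb.g g4 (@Lb.g g10 (@Lb.r r355 (@Lb.r r674 (@Lb.r r2145 (@Lb.d (nat_lit 8) (nat_lit 26) (nat_lit 256) (@Lb.fp (nat_lit 3) t1242))))))))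
noncomputable def l32919 : Lb := (@Lb.d (nat_lit 34) (nat_lit 512) (nat_lit 136) (@Lb.g g8 (@Lb.g g11 (@Lb.r r150 (@Lb.r r356 (@Lb.r r411 (@Lb.r r2145 (@Lb.d (nat_lit 2) (nat_lit 161) (nat_lit 384) (@Lb.fm (nat_lit 3) t5919)))))))))
noncomputable def l32920 : Lb := (@Lb.d (nat_lit 152) (nat_lit 266) (nat_lit 346) (@Lb.r r1288 (@Lb.r r1434 (@Lb.r r2145 (@Lb.r r2375 (@Lb.g g7 (@Lb.g g6 (@Lb.g g4 (@Lb.d (nat_lit 2) (nat_lit 4) (nat_lit 65) (@Lb.t (@Lb.fm (nat_lit 9) t1620)))))))))))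
noncomputable def l32921 : Lb := (@Lb.r r2311 (@Lb.r r2118 (@Lb.r r2069 (@Lb.r r36 (@Lb.d (nat_lit 554) (nat_lit 518) (nat_lit 16) (@Lb.fp (nat_lit 1) t4624))))))
noncomputable def l32922 : Lb := (@Lb.d (nat_lit 4) (nat_lit 2) (nat_lit 0) (@Lb.g g9 (@Lb.g g7 (@Lb.r r148 (@Lb.r r614 (@Lb.r r337 (@Lb.d (nat_lit 0) (nat_lit 161) (nat_lit 325) (@Lb.fp (nat_lit 3) t259))))))))
noncomputable def l32923 : Lb := (@Lb.d (nat_lit 10) (nat_lit 0) (nat_lit 64) (@Lb.g g8 (@Lb.g g10 (@Lb.g g11 (@Lb.r r2581 (@Lb.r r279 (@Lb.r r676 (@Lb.r r1158 (@Lb.d (nat_lit 2) (nat_lit 85) (nat_lit 272) (@Lb.t (@Lb.fp (nat_lit 9) t100)))))))))))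
noncomputable def l32924 : Lb := (@Lb.d (nat_lit 6) (nat_lit 576) (nat_lit 130) (@Lb.g g4 (@Lb.g g9 (@Lb.g g10 (@Lb.g g11 (@Lb.r r419 (@Lb.r r98 (@Lb.d (nat_lit 1) (nat_lit 4) (nat_lit 136) (@Lb.fm (nat_lit 9) t51)))))))))
noncomputable def l32925 : Lb := (@Lb.g g9 (@Lb.r r2407 (@Lb.r r1105 (@Lb.r r1126 (@Lb.r r24 (@Lb.d (nat_lit 0) (nat_lit 581) (nat_lit 16) (@Lb.t (@Lb.fm (nat_lit 3) t1767))))))))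
noncomputable def l32926 : Lb := (@Lb.r r82 (@Lb.r r275 (@Lb.d (nat_lit 648) (nat_lit 2) (nat_lit 0) (@Lb.g g4 (@Lb.g g9 (@Lb.r r283 (@Lb.r r386 (@Lb.r r145 (@Lb.d (nat_lit 8) (nat_lit 148) (nat_lit 66) (@Lb.fm (nat_lit 3) t5920))))))))))

end Pool.Agent.MP_61a8e3_al.G4.K
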