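import Pool.Agent.MP_61a8e3_al.G4.KR
import Pool.Agent.MP_61a8e3_al.G4.KT0
import Pool.Agent.MP_61a8e3_al.G4.KT1

/-! Part K: labels, part 6. -/

set_option autoImplicit false
set_option maxRecDepth 100000
set_option linter.all false

namespace Pool.Agent.MP_61a8e3_al.G4.K

noncomputable def l32927 : Lb := (@Lb.d (nat_lit 16) (nat_lit 258) (nat_lit 129) (@Lb.g g8 (@Lb.g g9 (@Lb.g g10 (@Lb.g g11 (@Lb.r r659 (@Lb.r r338 (@Lb.r r1573 (@Lb.r r2344 (@Lb.d (nat_lit 546) (nat_lit 102) (nat_lit 641) (@Lb.fm (nat_lit 9) t3738)))))))))))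
noncomputable def l32928 : Lb := (@Lb.r r20 (@Lb.d (nat_lit 0) (nat_lit 2) (nat_lit 162) (@Lb.g g9 (@Lb.g g6 (@Lb.g g11 (@Lb.r r2659 (@Lb.r r2661 (@Lb.d (nat_lit 404) (nat_lit 25) (nat_lit 40) (@Lb.t (@Lb.fp (nat_lit 9) t2105))))))))))
noncomputable def l32929 : Lb := (@Lb.r r263 (@Lb.d (nat_lit 2) (nat_lit 260) (nat_lit 0) (@Lb.g g8 (@Lb.g g9 (@Lb.g g10 (@Lb.r r1689 (@Lb.r r2584 (@Lb.r r603 (@Lb.r r2438 (@Lb.d (nat_lit 98) (nat_lit 0) (nat_lit 665) (@Lb.t (@Lb.fp (nat_lit 9) t1893))))))))))))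
noncomputable def l32930 : Lb := (@Lb.r r263 (@Lb.d (nat_lit 130) (nat_lit 261) (nat_lit 8) (@Lb.g g8 (@Lb.g g9 (@Lb.g g10 (@Lb.r r1691 (@Lb.r r2137 (@Lb.r r340 (@Lb.r r2650 (@Lb.d (nat_lit 40) (nat_lit 66) (nat_lit 409) (@Lb.t (@Lb.fp (nat_lit 9) t5921))))))))))))
noncomputable def l32931 : Lb := (@Lb.d (nat_lit 618) (nat_lit 90) (nat_lit 536) (@Lb.r r1384 (@Lb.r r297 (@Lb.r r418 (@Lb.g g11 (@Lb.g g5 (@Lb.g g4 (@Lb.d (nat_lit 17) (nat_lit 18) (nat_lit 392) (@Lb.r r578 (@Lb.t (@Lb.fp (nat_lit 9) t5922)))))))))))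
noncomputable def l32932 : Lb := (@Lb.d (nat_lit 4) (nat_lit 261) (nat_lit 2) (@Lb.g g8 (@Lb.g g9 (@Lb.g g10 (@Lb.r r515 (@Lb.r r2154 (@Lb.r r25 (@Lb.d (nat_lit 9) (nat_lit 73) (nat_lit 102) (@Lb.t (@Lb.fp (nat_lit 9) t69))))))))))
noncomputable def l32933 : Lb := (@Lb.d (nat_lit 0) (nat_lit 516) (nat_lit 128) (@Lb.g g8 (@Lb.g g9 (@Lb.g g10 (@Lb.g g11 (@Lb.r r427 (@Lb.r r324 (@Lb.r r2218 (@Lb.r r1193 (@Lb.r r1188 (@Lb.d (nat_lit 609) (nat_lit 73) (nat_lit 546) (@Lb.fp (nat_lit 9) t1246))))))))))))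
noncomputable def l32934 : Lb := (@Lb.d (nat_lit 4) (nat_lit 512) (nat_lit 1) (@Lb.g g8 (@Lb.g g9 (@Lb.g g10 (@Lb.r r515 (@Lb.r r2154 (@Lb.r r25 (@Lb.d (nat_lit 9) (nat_lit 73) (nat_lit 102) (@Lb.t (@Lb.fp (nat_lit 9) t71))))))))))
noncomputable def l32935 : Lb := (@Lb.d (nat_lit 1) (nat_lit 357) (nat_lit 272) (@Lb.r r2450 (@Lb.r r101 (@Lb.g g7 (@Lb.g g4 (@Lb.d (nat_lit 613) (nat_lit 0) (nat_lit 68) (@Lb.r r74 (@Lb.r r25 (@Lb.fm (nat_lit 3) t1547)))))))))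
noncomputable def l32936 : Lb := (@Lb.d (nat_lit 136) (nat_lit 34) (nat_lit 266) (@Lb.r r2178 (@Lb.r r555 (@Lb.r r1561 (@Lb.r r2324 (@Lb.g g7 (@Lb.d (nat_lit 64) (nat_lit 0) (nat_lit 128) (@Lb.t (@Lb.fm (nat_lit 3) t1222)))))))))
noncomputable def l32937 : Lb := (@Lb.r r21 (@Lb.d (nat_lit 1) (nat_lit 256) (nat_lit 137) (@Lb.g g8 (@Lb.g g10 (@Lb.g g7 (@Lb.r r386 (@Lb.r r1429 (@Lb.r r2632 (@Lb.d (nat_lit 657) (nat_lit 5) (nat_lit 421) (@Lb.t (@Lb.fp (nat_lit 9) t1403)))))))))))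
noncomputable def l32938 : Lb := (@Lb.d (nat_lit 1) (nat_lit 514) (nat_lit 73) (@Lb.g g8 (@Lb.g g9 (@Lb.g g10 (@Lb.g g11 (@Lb.r r2691 (@Lb.r r297 (@Lb.r r360 (@Lb.r r582 (@Lb.r r2180 (@Lb.d (nat_lit 641) (nat_lit 10) (nat_lit 329) (@Lb.fm (nat_lit 9) t242))))))))))))
noncomputable def l32939 : Lb := (@Lb.r r21 (@Lb.r r70 (@Lb.d (nat_lit 610) (nat_lit 512) (nat_lit 0) (@Lb.g g4 (@Lb.r r1291 (@Lb.r r402 (@Lb.r r97 (@Lb.d (nat_lit 520) (nat_lit 1) (nat_lit 512) (@Lb.t (@Lb.fm (nat_lit 3) t739))))))))))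
noncomputable def l32940 : Lb := (@Lb.d (nat_lit 0) (nat_lit 256) (nat_lit 130) (@Lb.g g10 (@Lb.g g11 (@Lb.r r2658 (@Lb.r r579 (@Lb.d (nat_lit 5) (nat_lit 98) (nat_lit 640) (@Lb.fp (nat_lit 3) t51)))))))
noncomputable def l32941 : Lb := (@Lb.r r323 (@Lb.d (nat_lit 138) (nat_lit 520) (nat_lit 34) (@Lb.g g8 (@Lb.g g10 (@Lb.r r615 (@Lb.r r533 (@Lb.r r2340 (@Lb.d (nat_lit 330) (nat_lit 105) (nat_lit 657) (@Lb.fp (nat_lit 3) t221)))))))))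
noncomputable def l32942 : Lb := (@Lb.d (nat_lit 0) (nat_lit 0) (nat_lit 73) (@Lb.g g10 (@Lb.g g11 (@Lb.r r2658 (@Lb.r r579 (@Lb.d (nat_lit 5) (nat_lit 98) (nat_lit 586) (@Lb.fp (nat_lit 3) t51)))))))
noncomputable def l32943 : Lb := (@Lb.r r82 (@Lb.d (nat_lit 34) (nat_lit 512) (nat_lit 64) (@Lb.g g8 (@Lb.g g9 (@Lb.g g11 (@Lb.r r582 (@Lb.r r153 (@Lb.r r408 (@Lb.d (nat_lit 154) (nat_lit 26) (nat_lit 133) (@Lb.t (@Lb.fp (nat_lit 9) t1185)))))))))))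
noncomputable def l32944 : Lb := (@Lb.d (nat_lit 2) (nat_lit 258) (nat_lit 130) (@Lb.g g8 (@Lb.g g9 (@Lb.g g10 (@Lb.g g11 (@Lb.r r427 (@Lb.r r420 (@Lb.r r102 (@Lb.r r21 (@Lb.r r36 (@Lb.d (nat_lit 26) (nat_lit 9) (nat_lit 137) (@Lb.fp (nat_lit 9) t61))))))))))))
noncomputable def l32945 : Lb := (@Lb.r r275 (@Lb.d (nat_lit 130) (nat_lit 537) (nat_lit 1) (@Lb.g g8 (@Lb.g g9 (@Lb.g g10 (@Lb.r r610 (@Lb.r r583 (@Lb.r r264 (@Lb.d (nat_lit 166) (nat_lit 5) (nat_lit 130) (@Lb.t (@Lb.fm (nat_lit 9) t601)))))))))))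
noncomputable def l32946 : Lb := (@Lb.d (nat_lit 8) (nat_lit 522) (nat_lit 65) (@Lb.g g9 (@Lb.g g10 (@Lb.g g11 (@Lb.r r344 (@Lb.r r358 (@Lb.r r337 (@Lb.d (nat_lit 70) (nat_lit 20) (nat_lit 136) (@Lb.t (@Lb.fp (nat_lit 9) t1185))))))))))
noncomputable def l32947 : Lb := (@Lb.d (nat_lit 153) (nat_lit 274) (nat_lit 128) (@Lb.g g8 (@Lb.g g9 (@Lb.g g10 (@Lb.g g11 (@Lb.r r1706 (@Lb.r r644 (@Lb.r r1559 (@Lb.r r2345 (@Lb.r r36 (@Lb.d (nat_lit 416) (nat_lit 161) (nat_lit 66) (@Lb.fm (nat_lit 9) t5560))))))))))))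
noncomputable def l32948 : Lb := (@Lb.r r323 (@Lb.d (nat_lit 2) (nat_lit 134) (nat_lit 36) (@Lb.g g8 (@Lb.g g5 (@Lb.g g10 (@Lb.r r387 (@Lb.r r24 (@Lb.d (nat_lit 10) (nat_lit 0) (nat_lit 137) (@Lb.t (@Lb.fm (nat_lit 9) t68))))))))))
noncomputable def l32949 : Lb := (@Lb.d (nat_lit 16) (nat_lit 262) (nat_lit 69) (@Lb.r r2118 (@Lb.r r1416 (@Lb.r r407 (@Lb.g g5 (@Lb.g g4 (@Lb.d (nat_lit 2) (nat_lit 37) (nat_lit 0) (@Lb.r r291 (@Lb.r r98 (@Lb.fp (nat_lit 3) t2697))))))))))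
noncomputable def l32950 : Lb := (@Lb.d (nat_lit 9) (nat_lit 0) (nat_lit 0) (@Lb.g g8 (@Lb.r r101 (@Lb.r r1172 (@Lb.d (nat_lit 294) (nat_lit 69) (nat_lit 17) (@Lb.t (@Lb.fm (nat_lit 3) t743)))))))
noncomputable def l32951 : Lb := (@Lb.g g9 (@Lb.r r149 (@Lb.r r1124 (@Lb.d (nat_lit 256) (nat_lit 522) (nat_lit 34) (@Lb.t (@Lb.fp (nat_lit 3) t743))))))
noncomputable def l32952 : Lb := (@Lb.g g9 (@Lb.r r24 (@Lb.r r1045 (@Lb.r r36 (@Lb.t (@Lb.p (nat_lit 1) (@Lb.fm (nat_lit 3) t2)))))))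
noncomputable def l32953 : Lb := (@Lb.d (nat_lit 282) (nat_lit 582) (nat_lit 70) (@Lb.r r2134 (@Lb.r r1448 (@Lb.r r2391 (@Lb.g g7 (@Lb.g g6 (@Lb.g g5 (@Lb.g g4 (@Lb.d (nat_lit 1) (nat_lit 65) (nat_lit 65) (@Lb.fm (nat_lit 9) t791))))))))))
noncomputable def l32954 : Lb := (@Lb.d (nat_lit 362) (nat_lit 282) (nat_lit 292) (@Lb.r r1096 (@Lb.r r1321 (@Lb.r r595 (@Lb.g g6 (@Lb.g g5 (@Lb.d (nat_lit 16) (nat_lit 17) (nat_lit 1) (@Lb.r r387 (@Lb.fp (nat_lit 3) t68)))))))))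
noncomputable def l32955 : Lb := (@Lb.d (nat_lit 16) (nat_lit 6) (nat_lit 0) (@Lb.r r2118 (@Lb.r r1416 (@Lb.r r407 (@Lb.g g5 (@Lb.g g4 (@Lb.d (nat_lit 1) (nat_lit 37) (nat_lit 0) (@Lb.r r291 (@Lb.r r98 (@Lb.fp (nat_lit 3) t2697))))))))))
noncomputable def l32956 : Lb := (@Lb.d (nat_lit 4) (nat_lit 256) (nat_lit 66) (@Lb.g g8 (@Lb.g g9 (@Lb.g g10 (@Lb.g g11 (@Lb.r r1316 (@Lb.r r2587 (@Lb.r r2469 (@Lb.r r98 (@Lb.d (nat_lit 98) (nat_lit 74) (nat_lit 528) (@Lb.fp (nat_lit 9) t1561)))))))))))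
noncomputable def l32957 : Lb := (@Lb.d (nat_lit 0) (nat_lit 514) (nat_lit 130) (@Lb.g g8 (@Lb.g g9 (@Lb.g g10 (@Lb.g g11 (@Lb.r r427 (@Lb.r r424 (@Lb.r r106 (@Lb.r r25 (@Lb.d (nat_lit 361) (nat_lit 2) (nat_lit 514) (@Lb.fm (nat_lit 9) t1306)))))))))))
noncomputable def l32958 : Lb := (@Lb.d (nat_lit 401) (nat_lit 150) (nat_lit 354) (@Lb.r r2337 (@Lb.r r1619 (@Lb.g g6 (@Lb.g g5 (@Lb.d (nat_lit 0) (nat_lit 17) (nat_lit 33) (@Lb.r r387 (@Lb.r r36 (@Lb.fm (nat_lit 3) t1643)))))))))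
noncomputable def l32959 : Lb := (@Lb.r r322 (@Lb.d (nat_lit 0) (nat_lit 256) (nat_lit 136) (@Lb.g g8 (@Lb.g g9 (@Lb.g g11 (@Lb.r r1426 (@Lb.r r101 (@Lb.r r24 (@Lb.d (nat_lit 321) (nat_lit 0) (nat_lit 640) (@Lb.t (@Lb.fp (nat_lit 9) t145)))))))))))
noncomputable def l32960 : Lb := (@Lb.d (nat_lit 0) (nat_lit 258) (nat_lit 130) (@Lb.g g8 (@Lb.g g9 (@Lb.g g10 (@Lb.g g11 (@Lb.r r427 (@Lb.r r424 (@Lb.r r106 (@Lb.r r25 (@Lb.d (nat_lit 362) (nat_lit 2) (nat_lit 514) (@Lb.fm (nat_lit 9) t1306)))))))))))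
noncomputable def l32961 : Lb := (@Lb.d (nat_lit 144) (nat_lit 0) (nat_lit 386) (@Lb.g g8 (@Lb.g g9 (@Lb.g g10 (@Lb.g g11 (@Lb.r r1634 (@Lb.r r2145 (@Lb.r r1048 (@Lb.d (nat_lit 69) (nat_lit 144) (nat_lit 64) (@Lb.fp (nat_lit 9) t1666))))))))))
noncomputable def l32962 : Lb := (@Lb.d (nat_lit 0) (nat_lit 258) (nat_lit 130) (@Lb.g g9 (@Lb.g g10 (@Lb.g g11 (@Lb.r r1443 (@Lb.r r536 (@Lb.r r357 (@Lb.r r154 (@Lb.r r132 (@Lb.d (nat_lit 582) (nat_lit 130) (nat_lit 153) (@Lb.t (@Lb.fp (nat_lit 9) t651))))))))))))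
noncomputable def l32963 : Lb := (@Lb.d (nat_lit 148) (nat_lit 512) (nat_lit 128) (@Lb.g g8 (@Lb.g g9 (@Lb.g g10 (@Lb.g g11 (@Lb.r r2467 (@Lb.r r344 (@Lb.r r2453 (@Lb.r r2134 (@Lb.r r164 (@Lb.d (nat_lit 545) (nat_lit 169) (nat_lit 360) (@Lb.fm (nat_lit 9) t1386))))))))))))
noncomputable def l32964 : Lb := (@Lb.d (nat_lit 34) (nat_lit 256) (nat_lit 0) (@Lb.g g4 (@Lb.r r2391 (@Lb.r r2713 (@Lb.r r154 (@Lb.r r2200 (@Lb.d (nat_lit 550) (nat_lit 133) (nat_lit 70) (@Lb.t (@Lb.fm (nat_lit 3) t51)))))))))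
noncomputable def l32965 : Lb := (@Lb.d (nat_lit 640) (nat_lit 514) (nat_lit 256) (@Lb.r r24 (@Lb.g g10 (@Lb.g g9 (@Lb.d (nat_lit 8) (nat_lit 2) (nat_lit 0) (@Lb.fp (nat_lit 3) t121))))))
noncomputable def l32966 : Lb := (@Lb.d (nat_lit 146) (nat_lit 258) (nat_lit 74) (@Lb.g g8 (@Lb.g g9 (@Lb.g g10 (@Lb.g g11 (@Lb.r r683 (@Lb.r r2724 (@Lb.r r134 (@Lb.r r97 (@Lb.d (nat_lit 544) (nat_lit 164) (nat_lit 384) (@Lb.fm (nat_lit 9) t3913)))))))))))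
noncomputable def l32967 : Lb := (@Lb.d (nat_lit 129) (nat_lit 260) (nat_lit 74) (@Lb.g g8 (@Lb.g g9 (@Lb.g g10 (@Lb.g g11 (@Lb.r r683 (@Lb.r r1634 (@Lb.r r36 (@Lb.r r2069 (@Lb.r r1060 (@Lb.d (nat_lit 612) (nat_lit 132) (nat_lit 8) (@Lb.fm (nat_lit 9) t5923))))))))))))
noncomputable def l32968 : Lb := (@Lb.r r82 (@Lb.d (nat_lit 2) (nat_lit 258) (nat_lit 64) (@Lb.g g8 (@Lb.g g9 (@Lb.g g7 (@Lb.r r594 (@Lb.r r289 (@Lb.r r24 (@Lb.d (nat_lit 330) (nat_lit 16) (nat_lit 517) (@Lb.t (@Lb.fp (nat_lit 9) t80)))))))))))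
noncomputable def l32969 : Lb := (@Lb.d (nat_lit 1) (nat_lit 512) (nat_lit 129) (@Lb.g g4 (@Lb.g g9 (@Lb.g g10 (@Lb.g g11 (@Lb.r r1634 (@Lb.r r2659 (@Lb.r r1633 (@Lb.d (nat_lit 9) (nat_lit 145) (nat_lit 384) (@Lb.fm (nat_lit 9) t1682))))))))))
noncomputable def l32970 : Lb := (@Lb.r r21 (@Lb.d (nat_lit 33) (nat_lit 512) (nat_lit 129) (@Lb.g g8 (@Lb.g g10 (@Lb.g g11 (@Lb.r r1691 (@Lb.r r2596 (@Lb.r r1621 (@Lb.r r2730 (@Lb.d (nat_lit 20) (nat_lit 81) (nat_lit 613) (@Lb.t (@Lb.fm (nat_lit 9) t217))))))))))))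
noncomputable def l32971 : Lb := (@Lb.r r21 (@Lb.d (nat_lit 33) (nat_lit 0) (nat_lit 72) (@Lb.g g8 (@Lb.g g10 (@Lb.g g11 (@Lb.r r1691 (@Lb.r r2596 (@Lb.r r1621 (@Lb.r r2730 (@Lb.d (nat_lit 20) (nat_lit 81) (nat_lit 613) (@Lb.t (@Lb.fm (nat_lit 9) t217))))))))))))
noncomputable def l32972 : Lb := (@Lb.r r21 (@Lb.r r326 (@Lb.d (nat_lit 422) (nat_lit 528) (nat_lit 68) (@Lb.g g8 (@Lb.g g11 (@Lb.r r2198 (@Lb.r r97 (@Lb.d (nat_lit 336) (nat_lit 72) (nat_lit 650) (@Lb.fm (nat_lit 3) t462)))))))))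
noncomputable def l32973 : Lb := (@Lb.d (nat_lit 4) (nat_lit 288) (nat_lit 64) (@Lb.g g8 (@Lb.g g11 (@Lb.r r2337 (@Lb.r r531 (@Lb.r r2658 (@Lb.d (nat_lit 325) (nat_lit 169) (nat_lit 2) (@Lb.fm (nat_lit 3) t5924))))))))
noncomputable def l32974 : Lb := (@Lb.d (nat_lit 32) (nat_lit 512) (nat_lit 72) (@Lb.g g8 (@Lb.g g9 (@Lb.g g11 (@Lb.r r150 (@Lb.r r360 (@Lb.r r1319 (@Lb.r r1297 (@Lb.d (nat_lit 10) (nat_lit 137) (nat_lit 640) (@Lb.t (@Lb.fm (nat_lit 9) t591)))))))))))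
noncomputable def l32975 : Lb := (@Lb.d (nat_lit 8) (nat_lit 544) (nat_lit 64) (@Lb.g g8 (@Lb.g g11 (@Lb.r r165 (@Lb.r r2662 (@Lb.r r1383 (@Lb.r r2324 (@Lb.d (nat_lit 530) (nat_lit 98) (nat_lit 425) (@Lb.fp (nat_lit 3) t2027)))))))))
noncomputable def l32976 : Lb := (@Lb.d (nat_lit 4) (nat_lit 32) (nat_lit 64) (@Lb.g g8 (@Lb.g g11 (@Lb.r r2337 (@Lb.r r531 (@Lb.r r2658 (@Lb.d (nat_lit 322) (nat_lit 168) (nat_lit 2) (@Lb.fm (nat_lit 3) t5925))))))))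
noncomputable def l32977 : Lb := (@Lb.d (nat_lit 162) (nat_lit 598) (nat_lit 576) (@Lb.r r1313 (@Lb.r r70 (@Lb.r r2647 (@Lb.g g6 (@Lb.g g5 (@Lb.g g4 (@Lb.d (nat_lit 8) (nat_lit 17) (nat_lit 1) (@Lb.r r387 (@Lb.t (@Lb.fp (nat_lit 9) t5926)))))))))))
noncomputable def l32978 : Lb := (@Lb.d (nat_lit 134) (nat_lit 36) (nat_lit 64) (@Lb.g g8 (@Lb.g g9 (@Lb.g g10 (@Lb.g g11 (@Lb.r r1411 (@Lb.r r537 (@Lb.r r600 (@Lb.r r2438 (@Lb.d (nat_lit 81) (nat_lit 138) (nat_lit 408) (@Lb.fp (nat_lit 9) t1816)))))))))))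
noncomputable def l32979 : Lb := (@Lb.r r82 (@Lb.d (nat_lit 0) (nat_lit 256) (nat_lit 128) (@Lb.g g9 (@Lb.g g11 (@Lb.r r1575 (@Lb.r r548 (@Lb.r r341 (@Lb.r r98 (@Lb.d (nat_lit 665) (nat_lit 4) (nat_lit 421) (@Lb.fp (nat_lit 3) t3304))))))))))
noncomputable def l32980 : Lb := (@Lb.d (nat_lit 146) (nat_lit 516) (nat_lit 65) (@Lb.g g8 (@Lb.g g9 (@Lb.g g10 (@Lb.g g11 (@Lb.r r427 (@Lb.r r426 (@Lb.r r292 (@Lb.r r21 (@Lb.r r36 (@Lb.d (nat_lit 25) (nat_lit 33) (nat_lit 130) (@Lb.fm (nat_lit 9) t5927))))))))))))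
noncomputable def l32981 : Lb := (@Lb.d (nat_lit 146) (nat_lit 514) (nat_lit 74) (@Lb.g g8 (@Lb.g g9 (@Lb.g g10 (@Lb.g g11 (@Lb.r r1689 (@Lb.r r1560 (@Lb.r r2315 (@Lb.r r582 (@Lb.d (nat_lit 337) (nat_lit 162) (nat_lit 576) (@Lb.fm (nat_lit 9) t5928)))))))))))
noncomputable def l32982 : Lb := (@Lb.r r82 (@Lb.d (nat_lit 0) (nat_lit 258) (nat_lit 128) (@Lb.g g8 (@Lb.g g9 (@Lb.g g11 (@Lb.r r1571 (@Lb.r r1416 (@Lb.r r1642 (@Lb.r r1633 (@Lb.d (nat_lit 612) (nat_lit 72) (nat_lit 601) (@Lb.t (@Lb.fp (nat_lit 9) t532))))))))))))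
noncomputable def l32983 : Lb := (@Lb.d (nat_lit 144) (nat_lit 260) (nat_lit 65) (@Lb.g g8 (@Lb.g g9 (@Lb.g g10 (@Lb.g g11 (@Lb.r r427 (@Lb.r r426 (@Lb.r r292 (@Lb.r r21 (@Lb.r r36 (@Lb.d (nat_lit 25) (nat_lit 33) (nat_lit 130) (@Lb.fm (nat_lit 9) t5927))))))))))))
noncomputable def l32984 : Lb := (@Lb.g g5 (@Lb.g g6 (@Lb.r r344 (@Lb.r r679 (@Lb.r r1689 (@Lb.r r1626 (@Lb.r r2084 (@Lb.d (nat_lit 664) (nat_lit 260) (nat_lit 534) (@Lb.fm (nat_lit 3) t603)))))))))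
noncomputable def l32985 : Lb := (@Lb.r r20 (@Lb.r r82 (@Lb.d (nat_lit 4) (nat_lit 513) (nat_lit 0) (@Lb.g g9 (@Lb.r r1323 (@Lb.r r386 (@Lb.r r1288 (@Lb.d (nat_lit 137) (nat_lit 25) (nat_lit 386) (@Lb.t (@Lb.fp (nat_lit 3) t538))))))))))
noncomputable def l32986 : Lb := (@Lb.d (nat_lit 0) (nat_lit 1) (nat_lit 73) (@Lb.g g9 (@Lb.g g10 (@Lb.g g11 (@Lb.r r1700 (@Lb.r r1447 (@Lb.r r1425 (@Lb.r r1426 (@Lb.d (nat_lit 10) (nat_lit 169) (nat_lit 361) (@Lb.t (@Lb.fp (nat_lit 9) t1403)))))))))))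
noncomputable def l32987 : Lb := (@Lb.r r70 (@Lb.d (nat_lit 8) (nat_lit 257) (nat_lit 0) (@Lb.g g8 (@Lb.g g9 (@Lb.r r1307 (@Lb.r r418 (@Lb.r r25 (@Lb.r r2580 (@Lb.d (nat_lit 262) (nat_lit 105) (nat_lit 2) (@Lb.fp (nat_lit 3) t538))))))))))
noncomputable def l32988 : Lb := (@Lb.d (nat_lit 2) (nat_lit 9) (nat_lit 129) (@Lb.g g8 (@Lb.g g9 (@Lb.g g10 (@Lb.g g11 (@Lb.r r1371 (@Lb.r r386 (@Lb.r r97 (@Lb.r r24 (@Lb.d (nat_lit 256) (nat_lit 4) (nat_lit 136) (@Lb.fm (nat_lit 9) t3510)))))))))))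
noncomputable def l32989 : Lb := (@Lb.r r89 (@Lb.r r166 (@Lb.r r340 (@Lb.r r683 (@Lb.r r657 (@Lb.r r36 (@Lb.d (nat_lit 10) (nat_lit 258) (nat_lit 0) (@Lb.fp (nat_lit 1) t2))))))))
noncomputable def l32990 : Lb := (@Lb.d (nat_lit 32) (nat_lit 257) (nat_lit 1) (@Lb.g g8 (@Lb.g g9 (@Lb.g g10 (@Lb.r r1451 (@Lb.r r1444 (@Lb.r r1173 (@Lb.r r1174 (@Lb.d (nat_lit 293) (nat_lit 168) (nat_lit 161) (@Lb.t (@Lb.fp (nat_lit 9) t2388)))))))))))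
noncomputable def l32991 : Lb := (@Lb.r r21 (@Lb.r r70 (@Lb.d (nat_lit 129) (nat_lit 288) (nat_lit 64) (@Lb.g g8 (@Lb.g g11 (@Lb.r r2341 (@Lb.r r531 (@Lb.r r2182 (@Lb.d (nat_lit 288) (nat_lit 36) (nat_lit 160) (@Lb.fp (nat_lit 3) t3112))))))))))
noncomputable def l32992 : Lb := (@Lb.d (nat_lit 130) (nat_lit 262) (nat_lit 26) (@Lb.g g8 (@Lb.g g9 (@Lb.g g6 (@Lb.r r407 (@Lb.r r529 (@Lb.r r104 (@Lb.d (nat_lit 37) (nat_lit 152) (nat_lit 149) (@Lb.t (@Lb.fm (nat_lit 9) t152))))))))))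
noncomputable def l32993 : Lb := (@Lb.d (nat_lit 0) (nat_lit 5) (nat_lit 0) (@Lb.g g5 (@Lb.g g7 (@Lb.r r402 (@Lb.r r2436 (@Lb.d (nat_lit 0) (nat_lit 6) (nat_lit 421) (@Lb.fp (nat_lit 3) t311)))))))
noncomputable def l32994 : Lb := (@Lb.d (nat_lit 262) (nat_lit 549) (nat_lit 538) (@Lb.r r359 (@Lb.r r341 (@Lb.r r2214 (@Lb.r r1096 (@Lb.g g7 (@Lb.g g6 (@Lb.g g5 (@Lb.d (nat_lit 64) (nat_lit 1) (nat_lit 65) (@Lb.t (@Lb.fp (nat_lit 9) t127)))))))))))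
noncomputable def l32995 : Lb := (@Lb.r r82 (@Lb.d (nat_lit 34) (nat_lit 33) (nat_lit 64) (@Lb.g g8 (@Lb.g g9 (@Lb.g g11 (@Lb.r r2665 (@Lb.r r1315 (@Lb.r r150 (@Lb.r r2660 (@Lb.d (nat_lit 266) (nat_lit 86) (nat_lit 517) (@Lb.t (@Lb.fm (nat_lit 9) t4885))))))))))))
noncomputable def l32996 : Lb := (@Lb.d (nat_lit 325) (nat_lit 353) (nat_lit 64) (@Lb.r r24 (@Lb.r r2145 (@Lb.r r402 (@Lb.r r1543 (@Lb.g g7 (@Lb.g g6 (@Lb.g g4 (@Lb.d (nat_lit 1) (nat_lit 0) (nat_lit 128) (@Lb.t (@Lb.fp (nat_lit 9) t2017)))))))))))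
noncomputable def l32997 : Lb := (@Lb.d (nat_lit 10) (nat_lit 153) (nat_lit 649) (@Lb.r r24 (@Lb.r r2145 (@Lb.r r323 (@Lb.g g10 (@Lb.g g4 (@Lb.d (nat_lit 2) (nat_lit 8) (nat_lit 21) (@Lb.r r387 (@Lb.fp (nat_lit 3) t3686)))))))))
noncomputable def l32998 : Lb := (@Lb.d (nat_lit 16) (nat_lit 8) (nat_lit 130) (@Lb.g g8 (@Lb.g g9 (@Lb.g g10 (@Lb.g g11 (@Lb.r r619 (@Lb.r r1602 (@Lb.r r1449 (@Lb.r r2084 (@Lb.d (nat_lit 153) (nat_lit 130) (nat_lit 356) (@Lb.fp (nat_lit 9) t5140)))))))))))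
noncomputable def l32999 : Lb := (@Lb.r r338 (@Lb.d (nat_lit 36) (nat_lit 256) (nat_lit 648) (@Lb.g g8 (@Lb.g g9 (@Lb.g g11 (@Lb.r r2466 (@Lb.r r2345 (@Lb.r r360 (@Lb.d (nat_lit 24) (nat_lit 40) (nat_lit 597) (@Lb.t (@Lb.fp (nat_lit 9) t175)))))))))))
noncomputable def l33000 : Lb := (@Lb.d (nat_lit 8) (nat_lit 258) (nat_lit 66) (@Lb.g g9 (@Lb.g g10 (@Lb.g g11 (@Lb.r r2388 (@Lb.r r1451 (@Lb.r r362 (@Lb.r r281 (@Lb.d (nat_lit 10) (nat_lit 25) (nat_lit 545) (@Lb.t (@Lb.fm (nat_lit 9) t430)))))))))))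
noncomputable def l33001 : Lb := (@Lb.r r82 (@Lb.d (nat_lit 4) (nat_lit 264) (nat_lit 584) (@Lb.g g8 (@Lb.g g9 (@Lb.g g11 (@Lb.r r1430 (@Lb.r r601 (@Lb.d (nat_lit 105) (nat_lit 85) (nat_lit 674) (@Lb.t (@Lb.fp (nat_lit 9) t1161))))))))))
noncomputable def l33002 : Lb := (@Lb.d (nat_lit 10) (nat_lit 409) (nat_lit 649) (@Lb.r r24 (@Lb.r r2145 (@Lb.r r323 (@Lb.g g10 (@Lb.g g4 (@Lb.d (nat_lit 1) (nat_lit 8) (nat_lit 21) (@Lb.r r387 (@Lb.fp (nat_lit 3) t3686)))))))))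
noncomputable def l33003 : Lb := (@Lb.d (nat_lit 32) (nat_lit 2) (nat_lit 0) (@Lb.g g8 (@Lb.g g9 (@Lb.r r2379 (@Lb.r r582 (@Lb.r r2452 (@Lb.r r25 (@Lb.d (nat_lit 521) (nat_lit 26) (nat_lit 530) (@Lb.fm (nat_lit 3) t1456)))))))))
noncomputable def l33004 : Lb := (@Lb.d (nat_lit 530) (nat_lit 133) (nat_lit 162) (@Lb.r r2182 (@Lb.r r2132 (@Lb.r r425 (@Lb.g g11 (@Lb.g g6 (@Lb.g g5 (@Lb.g g4 (@Lb.d (nat_lit 37) (nat_lit 33) (nat_lit 389) (@Lb.fm (nat_lit 9) t2383))))))))))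
noncomputable def l33005 : Lb := (@Lb.r r355 (@Lb.d (nat_lit 2) (nat_lit 1) (nat_lit 32) (@Lb.g g8 (@Lb.g g9 (@Lb.g g10 (@Lb.r r1700 (@Lb.r r1447 (@Lb.r r2469 (@Lb.d (nat_lit 102) (nat_lit 41) (nat_lit 602) (@Lb.t (@Lb.fp (nat_lit 9) t2241)))))))))))
noncomputable def l33006 : Lb := (@Lb.d (nat_lit 282) (nat_lit 1) (nat_lit 0) (@Lb.g g8 (@Lb.g g9 (@Lb.g g10 (@Lb.r r2731 (@Lb.r r1642 (@Lb.r r25 (@Lb.d (nat_lit 4) (nat_lit 89) (nat_lit 9) (@Lb.t (@Lb.fp (nat_lit 9) t979))))))))))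
noncomputable def l33007 : Lb := (@Lb.r r82 (@Lb.d (nat_lit 10) (nat_lit 32) (nat_lit 64) (@Lb.g g8 (@Lb.g g9 (@Lb.g g11 (@Lb.r r1543 (@Lb.r r2152 (@Lb.r r2438 (@Lb.r r1361 (@Lb.d (nat_lit 0) (nat_lit 132) (nat_lit 345) (@Lb.t (@Lb.fp (nat_lit 9) t501))))))))))))
noncomputable def l33008 : Lb := (@Lb.r r21 (@Lb.r r70 (@Lb.d (nat_lit 513) (nat_lit 256) (nat_lit 324) (@Lb.g g4 (@Lb.g g7 (@Lb.r r2454 (@Lb.r r97 (@Lb.d (nat_lit 393) (nat_lit 81) (nat_lit 640) (@Lb.fm (nat_lit 3) t1006)))))))))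
noncomputable def l33009 : Lb := (@Lb.r r21 (@Lb.d (nat_lit 280) (nat_lit 256) (nat_lit 0) (@Lb.g g8 (@Lb.g g10 (@Lb.r r2715 (@Lb.r r1626 (@Lb.r r37 (@Lb.d (nat_lit 2) (nat_lit 88) (nat_lit 9) (@Lb.fm (nat_lit 3) t979)))))))))
noncomputable def l33010 : Lb := (@Lb.d (nat_lit 610) (nat_lit 409) (nat_lit 548) (@Lb.r r1608 (@Lb.r r1625 (@Lb.r r2651 (@Lb.g g7 (@Lb.g g10 (@Lb.g g4 (@Lb.d (nat_lit 18) (nat_lit 4) (nat_lit 82) (@Lb.r r25 (@Lb.t (@Lb.fm (nat_lit 9) t820)))))))))))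
noncomputable def l33011 : Lb := (@Lb.d (nat_lit 612) (nat_lit 25) (nat_lit 548) (@Lb.r r1608 (@Lb.r r1625 (@Lb.r r2651 (@Lb.g g7 (@Lb.g g10 (@Lb.g g4 (@Lb.d (nat_lit 18) (nat_lit 4) (nat_lit 82) (@Lb.r r25 (@Lb.t (@Lb.fm (nat_lit 9) t820)))))))))))
noncomputable def l33012 : Lb := (@Lb.d (nat_lit 2) (nat_lit 512) (nat_lit 130) (@Lb.g g8 (@Lb.g g9 (@Lb.g g10 (@Lb.g g11 (@Lb.r r1602 (@Lb.r r552 (@Lb.r r619 (@Lb.r r549 (@Lb.r r1044 (@Lb.d (nat_lit 266) (nat_lit 2) (nat_lit 346) (@Lb.fm (nat_lit 9) t5929))))))))))))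
noncomputable def l33013 : Lb := (@Lb.d (nat_lit 2) (nat_lit 32) (nat_lit 64) (@Lb.g g8 (@Lb.g g11 (@Lb.r r2337 (@Lb.r r1363 (@Lb.r r2658 (@Lb.r r24 (@Lb.d (nat_lit 5) (nat_lit 64) (nat_lit 84) (@Lb.fm (nat_lit 3) t1242)))))))))
noncomputable def l33014 : Lb := (@Lb.d (nat_lit 612) (nat_lit 154) (nat_lit 548) (@Lb.r r1608 (@Lb.r r1625 (@Lb.r r2651 (@Lb.g g7 (@Lb.g g10 (@Lb.g g4 (@Lb.d (nat_lit 18) (nat_lit 4) (nat_lit 82) (@Lb.r r25 (@Lb.t (@Lb.fm (nat_lit 9) t820)))))))))))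
noncomputable def l33015 : Lb := (@Lb.d (nat_lit 576) (nat_lit 321) (nat_lit 36) (@Lb.r r260 (@Lb.r r2438 (@Lb.r r1371 (@Lb.r r404 (@Lb.g g7 (@Lb.g g6 (@Lb.g g5 (@Lb.g g4 (@Lb.d (nat_lit 18) (nat_lit 129) (nat_lit 65) (@Lb.fm (nat_lit 9) t5930)))))))))))
noncomputable def l33016 : Lb := (@Lb.d (nat_lit 402) (nat_lit 322) (nat_lit 548) (@Lb.r r1297 (@Lb.r r1315 (@Lb.r r405 (@Lb.g g7 (@Lb.g g10 (@Lb.g g5 (@Lb.g g4 (@Lb.d (nat_lit 9) (nat_lit 0) (nat_lit 145) (@Lb.fm (nat_lit 9) t1495))))))))))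
noncomputable def l33017 : Lb := (@Lb.d (nat_lit 402) (nat_lit 66) (nat_lit 548) (@Lb.r r1297 (@Lb.r r1315 (@Lb.r r405 (@Lb.g g7 (@Lb.g g10 (@Lb.g g5 (@Lb.g g4 (@Lb.d (nat_lit 9) (nat_lit 5) (nat_lit 146) (@Lb.fm (nat_lit 9) t1495))))))))))
noncomputable def l33018 : Lb := (@Lb.d (nat_lit 128) (nat_lit 520) (nat_lit 258) (@Lb.g g10 (@Lb.g g7 (@Lb.r r601 (@Lb.r r1624 (@Lb.r r2150 (@Lb.d (nat_lit 528) (nat_lit 10) (nat_lit 132) (@Lb.fm (nat_lit 3) t632))))))))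
noncomputable def l33019 : Lb := (@Lb.g g8 (@Lb.r r2341 (@Lb.r r1624 (@Lb.r r2150 (@Lb.d (nat_lit 0) (nat_lit 133) (nat_lit 360) (@Lb.t (@Lb.fp (nat_lit 3) t4271)))))))
noncomputable def l33020 : Lb := (@Lb.d (nat_lit 9) (nat_lit 258) (nat_lit 73) (@Lb.g g8 (@Lb.g g9 (@Lb.g g10 (@Lb.g g11 (@Lb.r r2691 (@Lb.r r536 (@Lb.r r2197 (@Lb.r r598 (@Lb.r r2212 (@Lb.d (nat_lit 136) (nat_lit 2) (nat_lit 74) (@Lb.fp (nat_lit 9) t991))))))))))))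
noncomputable def l33021 : Lb := (@Lb.d (nat_lit 146) (nat_lit 1) (nat_lit 128) (@Lb.g g8 (@Lb.g g9 (@Lb.g g10 (@Lb.g g11 (@Lb.r r1666 (@Lb.r r663 (@Lb.r r353 (@Lb.r r1048 (@Lb.d (nat_lit 552) (nat_lit 105) (nat_lit 325) (@Lb.fp (nat_lit 9) t5931)))))))))))
noncomputable def l33022 : Lb := (@Lb.r r21 (@Lb.d (nat_lit 536) (nat_lit 512) (nat_lit 0) (@Lb.g g8 (@Lb.g g10 (@Lb.r r1691 (@Lb.r r1381 (@Lb.r r2202 (@Lb.d (nat_lit 329) (nat_lit 9) (nat_lit 354) (@Lb.fp (nat_lit 3) t924)))))))))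
noncomputable def l33023 : Lb := (@Lb.d (nat_lit 40) (nat_lit 513) (nat_lit 72) (@Lb.g g8 (@Lb.g g9 (@Lb.g g10 (@Lb.g g11 (@Lb.r r2583 (@Lb.r r601 (@Lb.r r678 (@Lb.r r1124 (@Lb.d (nat_lit 280) (nat_lit 104) (nat_lit 345) (@Lb.fp (nat_lit 9) t5932)))))))))))
noncomputable def l33024 : Lb := (@Lb.d (nat_lit 8) (nat_lit 2) (nat_lit 73) (@Lb.g g8 (@Lb.g g9 (@Lb.g g10 (@Lb.g g11 (@Lb.r r2691 (@Lb.r r2345 (@Lb.r r648 (@Lb.r r666 (@Lb.r r1156 (@Lb.d (nat_lit 646) (nat_lit 40) (nat_lit 601) (@Lb.fp (nat_lit 9) t668))))))))))))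
noncomputable def l33025 : Lb := (@Lb.d (nat_lit 146) (nat_lit 282) (nat_lit 73) (@Lb.g g8 (@Lb.g g9 (@Lb.g g10 (@Lb.g g11 (@Lb.r r427 (@Lb.r r1188 (@Lb.r r614 (@Lb.r r2145 (@Lb.d (nat_lit 104) (nat_lit 170) (nat_lit 321) (@Lb.fm (nat_lit 9) t3041)))))))))))
noncomputable def l33026 : Lb := (@Lb.r r326 (@Lb.d (nat_lit 168) (nat_lit 258) (nat_lit 8) (@Lb.g g8 (@Lb.g g9 (@Lb.g g11 (@Lb.r r2198 (@Lb.r r84 (@Lb.d (nat_lit 86) (nat_lit 65) (nat_lit 514) (@Lb.t (@Lb.fp (nat_lit 9) t1567))))))))))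
noncomputable def l33027 : Lb := (@Lb.r r82 (@Lb.d (nat_lit 134) (nat_lit 0) (nat_lit 64) (@Lb.g g8 (@Lb.g g9 (@Lb.g g11 (@Lb.r r299 (@Lb.r r2630 (@Lb.r r1049 (@Lb.r r1432 (@Lb.d (nat_lit 665) (nat_lit 42) (nat_lit 601) (@Lb.t (@Lb.fp (nat_lit 9) t5933))))))))))))
noncomputable def l33028 : Lb := (@Lb.d (nat_lit 40) (nat_lit 1) (nat_lit 72) (@Lb.g g8 (@Lb.g g9 (@Lb.g g10 (@Lb.g g11 (@Lb.r r1543 (@Lb.r r422 (@Lb.r r153 (@Lb.r r1412 (@Lb.d (nat_lit 514) (nat_lit 41) (nat_lit 328) (@Lb.fp (nat_lit 9) t5934)))))))))))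
noncomputable def l33029 : Lb := (@Lb.d (nat_lit 406) (nat_lit 321) (nat_lit 336) (@Lb.r r24 (@Lb.r r1410 (@Lb.g g7 (@Lb.g g5 (@Lb.d (nat_lit 4) (nat_lit 145) (nat_lit 68) (@Lb.r r610 (@Lb.fm (nat_lit 3) t311))))))))
noncomputable def l33030 : Lb := (@Lb.d (nat_lit 5) (nat_lit 258) (nat_lit 130) (@Lb.g g8 (@Lb.g g9 (@Lb.g g10 (@Lb.g g11 (@Lb.r r618 (@Lb.r r595 (@Lb.r r105 (@Lb.r r680 (@Lb.d (nat_lit 410) (nat_lit 153) (nat_lit 132) (@Lb.fm (nat_lit 9) t1954)))))))))))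
noncomputable def l33031 : Lb := (@Lb.d (nat_lit 129) (nat_lit 258) (nat_lit 130) (@Lb.g g8 (@Lb.g g9 (@Lb.g g10 (@Lb.g g11 (@Lb.r r2666 (@Lb.r r612 (@Lb.r r1319 (@Lb.r r405 (@Lb.r r2084 (@Lb.d (nat_lit 9) (nat_lit 137) (nat_lit 409) (@Lb.fp (nat_lit 9) t774))))))))))))
noncomputable def l33032 : Lb := (@Lb.r r323 (@Lb.d (nat_lit 40) (nat_lit 514) (nat_lit 2) (@Lb.g g9 (@Lb.g g10 (@Lb.r r584 (@Lb.r r299 (@Lb.r r289 (@Lb.d (nat_lit 10) (nat_lit 132) (nat_lit 0) (@Lb.fm (nat_lit 3) t51)))))))))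
noncomputable def l33033 : Lb := (@Lb.r r355 (@Lb.d (nat_lit 0) (nat_lit 520) (nat_lit 34) (@Lb.g g4 (@Lb.g g9 (@Lb.g g10 (@Lb.r r2627 (@Lb.r r2469 (@Lb.d (nat_lit 408) (nat_lit 101) (nat_lit 660) (@Lb.t (@Lb.fp (nat_lit 9) t3964))))))))))
noncomputable def l33034 : Lb := (@Lb.r r331 (@Lb.d (nat_lit 32) (nat_lit 258) (nat_lit 4) (@Lb.g g8 (@Lb.g g9 (@Lb.g g6 (@Lb.r r2635 (@Lb.r r2337 (@Lb.r r1636 (@Lb.d (nat_lit 165) (nat_lit 153) (nat_lit 680) (@Lb.t (@Lb.fp (nat_lit 9) t5290)))))))))))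
noncomputable def l33035 : Lb := (@Lb.d (nat_lit 0) (nat_lit 514) (nat_lit 66) (@Lb.g g4 (@Lb.g g9 (@Lb.g g10 (@Lb.g g11 (@Lb.r r1547 (@Lb.r r2438 (@Lb.r r2657 (@Lb.d (nat_lit 676) (nat_lit 80) (nat_lit 346) (@Lb.fp (nat_lit 9) t5218))))))))))
noncomputable def l33036 : Lb := (@Lb.r r2343 (@Lb.r r1096 (@Lb.r r2646 (@Lb.r r409 (@Lb.d (nat_lit 282) (nat_lit 74) (nat_lit 153) (@Lb.fm (nat_lit 1) t450))))))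
noncomputable def l33037 : Lb := (@Lb.d (nat_lit 393) (nat_lit 2) (nat_lit 672) (@Lb.r r1096 (@Lb.r r363 (@Lb.r r2646 (@Lb.r r409 (@Lb.g g11 (@Lb.g g9 (@Lb.fp (nat_lit 3) t5935))))))))
noncomputable def l33038 : Lb := (@Lb.d (nat_lit 146) (nat_lit 265) (nat_lit 386) (@Lb.g g8 (@Lb.g g9 (@Lb.g g10 (@Lb.g g11 (@Lb.r r168 (@Lb.r r2666 (@Lb.r r2153 (@Lb.r r36 (@Lb.d (nat_lit 33) (nat_lit 106) (nat_lit 81) (@Lb.fp (nat_lit 9) t5202)))))))))))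
noncomputable def l33039 : Lb := (@Lb.g g5 (@Lb.r r24 (@Lb.r r101 (@Lb.d (nat_lit 1) (nat_lit 666) (nat_lit 394) (@Lb.t (@Lb.fm (nat_lit 3) t1174))))))
noncomputable def l33040 : Lb := (@Lb.r r323 (@Lb.d (nat_lit 0) (nat_lit 520) (nat_lit 17) (@Lb.g g10 (@Lb.r r2659 (@Lb.r r1633 (@Lb.r r8 (@Lb.d (nat_lit 2) (nat_lit 146) (nat_lit 514) (@Lb.t (@Lb.fm (nat_lit 3) t751)))))))))
noncomputable def l33041 : Lb := (@Lb.d (nat_lit 6) (nat_lit 576) (nat_lit 9) (@Lb.g g4 (@Lb.g g9 (@Lb.g g10 (@Lb.g g11 (@Lb.r r2691 (@Lb.r r1158 (@Lb.d (nat_lit 129) (nat_lit 0) (nat_lit 424) (@Lb.fm (nat_lit 9) t282)))))))))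
noncomputable def l33042 : Lb := (@Lb.d (nat_lit 0) (nat_lit 0) (nat_lit 9) (@Lb.g g8 (@Lb.g g5 (@Lb.g g10 (@Lb.g g11 (@Lb.r r2691 (@Lb.r r1178 (@Lb.r r24 (@Lb.d (nat_lit 138) (nat_lit 0) (nat_lit 424) (@Lb.fp (nat_lit 9) t282))))))))))
noncomputable def l33043 : Lb := (@Lb.d (nat_lit 144) (nat_lit 257) (nat_lit 64) (@Lb.g g8 (@Lb.g g9 (@Lb.g g10 (@Lb.g g11 (@Lb.r r2713 (@Lb.r r1691 (@Lb.r r644 (@Lb.r r2662 (@Lb.d (nat_lit 5) (nat_lit 153) (nat_lit 418) (@Lb.fm (nat_lit 9) t1185)))))))))))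
noncomputable def l33044 : Lb := (@Lb.d (nat_lit 6) (nat_lit 512) (nat_lit 9) (@Lb.g g4 (@Lb.g g10 (@Lb.g g11 (@Lb.r r2691 (@Lb.r r1158 (@Lb.d (nat_lit 129) (nat_lit 64) (nat_lit 424) (@Lb.t (@Lb.fp (nat_lit 9) t282)))))))))
noncomputable def l33045 : Lb := (@Lb.r r326 (@Lb.d (nat_lit 2) (nat_lit 256) (nat_lit 512) (@Lb.g g8 (@Lb.g g5 (@Lb.g g7 (@Lb.r r2150 (@Lb.r r1560 (@Lb.d (nat_lit 394) (nat_lit 96) (nat_lit 128) (@Lb.t (@Lb.fp (nat_lit 9) t5355))))))))))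
noncomputable def l33046 : Lb := (@Lb.d (nat_lit 2) (nat_lit 550) (nat_lit 581) (@Lb.g g8 (@Lb.g g9 (@Lb.g g10 (@Lb.g g7 (@Lb.r r418 (@Lb.r r2088 (@Lb.r r2201 (@Lb.d (nat_lit 592) (nat_lit 38) (nat_lit 273) (@Lb.fm (nat_lit 9) t1702))))))))))
noncomputable def l33047 : Lb := (@Lb.r r323 (@Lb.d (nat_lit 8) (nat_lit 545) (nat_lit 32) (@Lb.g g9 (@Lb.g g10 (@Lb.r r2580 (@Lb.r r2647 (@Lb.r r1321 (@Lb.d (nat_lit 550) (nat_lit 169) (nat_lit 161) (@Lb.fm (nat_lit 3) t386)))))))))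
noncomputable def l33048 : Lb := (@Lb.d (nat_lit 664) (nat_lit 665) (nat_lit 73) (@Lb.r r2379 (@Lb.r r2328 (@Lb.r r1109 (@Lb.g g7 (@Lb.g g6 (@Lb.g g4 (@Lb.d (nat_lit 144) (nat_lit 8) (nat_lit 150) (@Lb.t (@Lb.fm (nat_lit 9) t2075))))))))))
noncomputable def l33049 : Lb := (@Lb.r r326 (@Lb.d (nat_lit 386) (nat_lit 514) (nat_lit 128) (@Lb.g g8 (@Lb.g g9 (@Lb.g g11 (@Lb.r r291 (@Lb.r r586 (@Lb.r r25 (@Lb.d (nat_lit 581) (nat_lit 168) (nat_lit 386) (@Lb.t (@Lb.fm (nat_lit 9) t394)))))))))))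
noncomputable def l33050 : Lb := (@Lb.d (nat_lit 137) (nat_lit 262) (nat_lit 0) (@Lb.g g8 (@Lb.g g9 (@Lb.g g10 (@Lb.r r1303 (@Lb.r r1194 (@Lb.r r145 (@Lb.r r2664 (@Lb.d (nat_lit 148) (nat_lit 160) (nat_lit 132) (@Lb.t (@Lb.fm (nat_lit 9) t2372)))))))))))
noncomputable def l33051 : Lb := (@Lb.d (nat_lit 144) (nat_lit 258) (nat_lit 64) (@Lb.g g8 (@Lb.g g9 (@Lb.g g10 (@Lb.g g11 (@Lb.r r1315 (@Lb.r r390 (@Lb.r r1621 (@Lb.r r2440 (@Lb.d (nat_lit 277) (nat_lit 97) (nat_lit 346) (@Lb.fp (nat_lit 9) t394)))))))))))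
noncomputable def l33052 : Lb := (@Lb.d (nat_lit 8) (nat_lit 422) (nat_lit 657) (@Lb.r r1049 (@Lb.r r408 (@Lb.r r330 (@Lb.g g11 (@Lb.g g5 (@Lb.g g4 (@Lb.d (nat_lit 24) (nat_lit 4) (nat_lit 128) (@Lb.t (@Lb.fp (nat_lit 9) t1079))))))))))
noncomputable def l33053 : Lb := (@Lb.d (nat_lit 610) (nat_lit 273) (nat_lit 102) (@Lb.r r600 (@Lb.r r1429 (@Lb.r r406 (@Lb.g g7 (@Lb.g g4 (@Lb.d (nat_lit 17) (nat_lit 0) (nat_lit 0) (@Lb.fm (nat_lit 3) t5936))))))))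
noncomputable def l33054 : Lb := (@Lb.d (nat_lit 2) (nat_lit 38) (nat_lit 10) (@Lb.g g8 (@Lb.g g9 (@Lb.g g10 (@Lb.g g11 (@Lb.r r1699 (@Lb.r r1160 (@Lb.r r1610 (@Lb.r r1633 (@Lb.d (nat_lit 41) (nat_lit 9) (nat_lit 384) (@Lb.fm (nat_lit 9) t865)))))))))))
noncomputable def l33055 : Lb := (@Lb.r r580 (@Lb.r r593 (@Lb.d (nat_lit 0) (nat_lit 520) (nat_lit 656) (@Lb.g g10 (@Lb.g g11 (@Lb.r r101 (@Lb.r r1048 (@Lb.d (nat_lit 6) (nat_lit 1) (nat_lit 2) (@Lb.fm (nat_lit 3) t5937)))))))))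
noncomputable def l33056 : Lb := (@Lb.r r1121 (@Lb.r r2454 (@Lb.r r2632 (@Lb.d (nat_lit 256) (nat_lit 0) (nat_lit 384) (@Lb.fm (nat_lit 1) t1866)))))
noncomputable def l33057 : Lb := (@Lb.r r580 (@Lb.r r593 (@Lb.d (nat_lit 0) (nat_lit 8) (nat_lit 656) (@Lb.g g10 (@Lb.g g11 (@Lb.r r101 (@Lb.r r1048 (@Lb.d (nat_lit 1) (nat_lit 0) (nat_lit 2) (@Lb.fm (nat_lit 3) t3747)))))))))
noncomputable def l33058 : Lb := (@Lb.d (nat_lit 66) (nat_lit 2) (nat_lit 2) (@Lb.g g8 (@Lb.g g9 (@Lb.g g10 (@Lb.r r2475 (@Lb.r r1365 (@Lb.r r2218 (@Lb.r r2216 (@Lb.d (nat_lit 21) (nat_lit 70) (nat_lit 329) (@Lb.t (@Lb.fm (nat_lit 9) t5938)))))))))))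
noncomputable def l33059 : Lb := (@Lb.d (nat_lit 642) (nat_lit 522) (nat_lit 0) (@Lb.g g8 (@Lb.g g9 (@Lb.r r662 (@Lb.r r2455 (@Lb.r r1633 (@Lb.d (nat_lit 1) (nat_lit 90) (nat_lit 514) (@Lb.fm (nat_lit 3) t5939))))))))
noncomputable def l33060 : Lb := (@Lb.r r21 (@Lb.r r70 (@Lb.d (nat_lit 513) (nat_lit 512) (nat_lit 64) (@Lb.g g4 (@Lb.g g11 (@Lb.r r2587 (@Lb.r r101 (@Lb.r r2450 (@Lb.d (nat_lit 146) (nat_lit 5) (nat_lit 580) (@Lb.fm (nat_lit 3) t5940))))))))))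
noncomputable def l33061 : Lb := (@Lb.d (nat_lit 2) (nat_lit 514) (nat_lit 64) (@Lb.g g8 (@Lb.g g9 (@Lb.g g10 (@Lb.g g11 (@Lb.r r2339 (@Lb.r r297 (@Lb.r r360 (@Lb.r r582 (@Lb.r r132 (@Lb.d (nat_lit 0) (nat_lit 169) (nat_lit 586) (@Lb.fp (nat_lit 9) t5941))))))))))))
noncomputable def l33062 : Lb := (@Lb.d (nat_lit 134) (nat_lit 406) (nat_lit 290) (@Lb.r r277 (@Lb.r r1366 (@Lb.r r683 (@Lb.g g6 (@Lb.g g5 (@Lb.g g4 (@Lb.d (nat_lit 544) (nat_lit 0) (nat_lit 1) (@Lb.t (@Lb.fm (nat_lit 9) t5491))))))))))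
noncomputable def l33063 : Lb := (@Lb.r r21 (@Lb.d (nat_lit 0) (nat_lit 272) (nat_lit 258) (@Lb.g g8 (@Lb.g g10 (@Lb.g g7 (@Lb.r r417 (@Lb.r r98 (@Lb.r r1540 (@Lb.d (nat_lit 546) (nat_lit 74) (nat_lit 70) (@Lb.t (@Lb.fm (nat_lit 9) t2910)))))))))))
noncomputable def l33064 : Lb := (@Lb.d (nat_lit 16) (nat_lit 0) (nat_lit 677) (@Lb.r r1668 (@Lb.r r2450 (@Lb.r r1641 (@Lb.g g11 (@Lb.g g5 (@Lb.g g4 (@Lb.d (nat_lit 4) (nat_lit 2) (nat_lit 0) (@Lb.r r74 (@Lb.t (@Lb.fm (nat_lit 9) t3747)))))))))))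
noncomputable def l33065 : Lb := (@Lb.r r21 (@Lb.r r70 (@Lb.d (nat_lit 390) (nat_lit 512) (nat_lit 0) (@Lb.g g8 (@Lb.r r74 (@Lb.r r25 (@Lb.d (nat_lit 586) (nat_lit 66) (nat_lit 138) (@Lb.t (@Lb.fp (nat_lit 3) t42)))))))))
noncomputable def l33066 : Lb := (@Lb.d (nat_lit 6) (nat_lit 549) (nat_lit 294) (@Lb.r r21 (@Lb.r r1366 (@Lb.r r683 (@Lb.g g6 (@Lb.g g5 (@Lb.g g4 (@Lb.d (nat_lit 8) (nat_lit 10) (nat_lit 0) (@Lb.t (@Lb.fm (nat_lit 9) t40))))))))))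
noncomputable def l33067 : Lb := (@Lb.d (nat_lit 5) (nat_lit 584) (nat_lit 0) (@Lb.r r289 (@Lb.r r279 (@Lb.r r584 (@Lb.g g6 (@Lb.g g5 (@Lb.d (nat_lit 20) (nat_lit 8) (nat_lit 0) (@Lb.r r387 (@Lb.fm (nat_lit 3) t597)))))))))
noncomputable def l33068 : Lb := (@Lb.r r82 (@Lb.d (nat_lit 0) (nat_lit 2) (nat_lit 580) (@Lb.g g8 (@Lb.g g9 (@Lb.g g7 (@Lb.r r418 (@Lb.r r664 (@Lb.r r421 (@Lb.d (nat_lit 549) (nat_lit 145) (nat_lit 329) (@Lb.t (@Lb.fm (nat_lit 9) t605)))))))))))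
noncomputable def l33069 : Lb := (@Lb.r r81 (@Lb.r r323 (@Lb.d (nat_lit 0) (nat_lit 256) (nat_lit 33) (@Lb.g g8 (@Lb.g g6 (@Lb.r r1611 (@Lb.r r88 (@Lb.r r37 (@Lb.d (nat_lit 360) (nat_lit 161) (nat_lit 384) (@Lb.fm (nat_lit 3) t43))))))))))
noncomputable def l33070 : Lb := (@Lb.r r323 (@Lb.d (nat_lit 4) (nat_lit 520) (nat_lit 17) (@Lb.g g8 (@Lb.g g6 (@Lb.r r1569 (@Lb.r r2659 (@Lb.d (nat_lit 400) (nat_lit 90) (nat_lit 33) (@Lb.fp (nat_lit 3) t590))))))))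
noncomputable def l33071 : Lb := (@Lb.d (nat_lit 144) (nat_lit 20) (nat_lit 72) (@Lb.g g8 (@Lb.g g9 (@Lb.g g10 (@Lb.g g11 (@Lb.r r2467 (@Lb.r r2212 (@Lb.r r1446 (@Lb.r r2337 (@Lb.d (nat_lit 276) (nat_lit 41) (nat_lit 417) (@Lb.fp (nat_lit 9) t5942)))))))))))
noncomputable def l33072 : Lb := (@Lb.r r82 (@Lb.d (nat_lit 2) (nat_lit 33) (nat_lit 64) (@Lb.g g8 (@Lb.g g9 (@Lb.g g11 (@Lb.r r1643 (@Lb.r r386 (@Lb.r r1380 (@Lb.r r1445 (@Lb.d (nat_lit 262) (nat_lit 160) (nat_lit 65) (@Lb.t (@Lb.fp (nat_lit 9) t1698))))))))))))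
noncomputable def l33073 : Lb := (@Lb.r r21 (@Lb.d (nat_lit 0) (nat_lit 0) (nat_lit 128) (@Lb.g g8 (@Lb.g g11 (@Lb.r r1419 (@Lb.r r2345 (@Lb.r r1444 (@Lb.r r2150 (@Lb.d (nat_lit 533) (nat_lit 2) (nat_lit 650) (@Lb.fp (nat_lit 3) t219))))))))))
noncomputable def l33074 : Lb := (@Lb.r r21 (@Lb.d (nat_lit 2) (nat_lit 256) (nat_lit 128) (@Lb.g g8 (@Lb.g g11 (@Lb.r r1419 (@Lb.r r2345 (@Lb.r r1444 (@Lb.r r2150 (@Lb.d (nat_lit 533) (nat_lit 2) (nat_lit 650) (@Lb.fp (nat_lit 3) t219))))))))))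
noncomputable def l33075 : Lb := (@Lb.d (nat_lit 2) (nat_lit 2) (nat_lit 130) (@Lb.g g8 (@Lb.g g9 (@Lb.g g10 (@Lb.g g11 (@Lb.r r2666 (@Lb.r r612 (@Lb.r r615 (@Lb.r r2657 (@Lb.r r2084 (@Lb.d (nat_lit 10) (nat_lit 164) (nat_lit 665) (@Lb.fp (nat_lit 9) t71))))))))))))
noncomputable def l33076 : Lb := (@Lb.r r70 (@Lb.d (nat_lit 0) (nat_lit 2) (nat_lit 128) (@Lb.g g8 (@Lb.g g9 (@Lb.g g11 (@Lb.r r681 (@Lb.r r422 (@Lb.r r331 (@Lb.r r324 (@Lb.d (nat_lit 153) (nat_lit 144) (nat_lit 257) (@Lb.t (@Lb.fm (nat_lit 9) t1549))))))))))))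
noncomputable def l33077 : Lb := (@Lb.d (nat_lit 0) (nat_lit 4) (nat_lit 128) (@Lb.g g9 (@Lb.g g10 (@Lb.g g11 (@Lb.r r1706 (@Lb.r r168 (@Lb.r r409 (@Lb.r r295 (@Lb.r r516 (@Lb.d (nat_lit 618) (nat_lit 97) (nat_lit 330) (@Lb.t (@Lb.fm (nat_lit 9) t1889))))))))))))
noncomputable def l33078 : Lb := (@Lb.d (nat_lit 9) (nat_lit 258) (nat_lit 73) (@Lb.g g8 (@Lb.g g9 (@Lb.g g10 (@Lb.g g11 (@Lb.r r2691 (@Lb.r r2345 (@Lb.r r648 (@Lb.r r666 (@Lb.r r1156 (@Lb.d (nat_lit 640) (nat_lit 168) (nat_lit 601) (@Lb.fp (nat_lit 9) t1115))))))))))))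
noncomputable def l33079 : Lb := (@Lb.r r21 (@Lb.d (nat_lit 144) (nat_lit 256) (nat_lit 256) (@Lb.g g8 (@Lb.g g10 (@Lb.g g7 (@Lb.r r394 (@Lb.r r1177 (@Lb.r r1156 (@Lb.d (nat_lit 33) (nat_lit 5) (nat_lit 288) (@Lb.t (@Lb.fm (nat_lit 9) t5943)))))))))))
noncomputable def l33080 : Lb := (@Lb.d (nat_lit 0) (nat_lit 344) (nat_lit 101) (@Lb.r r24 (@Lb.r r1635 (@Lb.g g7 (@Lb.g g10 (@Lb.g g5 (@Lb.d (nat_lit 0) (nat_lit 145) (nat_lit 128) (@Lb.t (@Lb.fm (nat_lit 9) t412)))))))))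
noncomputable def l33081 : Lb := (@Lb.d (nat_lit 20) (nat_lit 257) (nat_lit 129) (@Lb.r r24 (@Lb.r r1109 (@Lb.r r418 (@Lb.g g11 (@Lb.g g5 (@Lb.g g4 (@Lb.d (nat_lit 1) (nat_lit 18) (nat_lit 264) (@Lb.r r578 (@Lb.t (@Lb.fm (nat_lit 9) t3438)))))))))))
noncomputable def l33082 : Lb := (@Lb.d (nat_lit 8) (nat_lit 258) (nat_lit 130) (@Lb.g g9 (@Lb.g g10 (@Lb.g g11 (@Lb.r r614 (@Lb.r r404 (@Lb.r r619 (@Lb.r r537 (@Lb.d (nat_lit 610) (nat_lit 34) (nat_lit 38) (@Lb.t (@Lb.fp (nat_lit 9) t5944)))))))))))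
noncomputable def l33083 : Lb := (@Lb.r r82 (@Lb.d (nat_lit 128) (nat_lit 2) (nat_lit 128) (@Lb.g g9 (@Lb.g g11 (@Lb.r r597 (@Lb.r r1444 (@Lb.r r2651 (@Lb.r r98 (@Lb.d (nat_lit 585) (nat_lit 128) (nat_lit 290) (@Lb.fp (nat_lit 3) t5945))))))))))
noncomputable def l33084 : Lb := (@Lb.r r82 (@Lb.d (nat_lit 0) (nat_lit 258) (nat_lit 580) (@Lb.g g9 (@Lb.g g7 (@Lb.r r1441 (@Lb.r r98 (@Lb.r r24 (@Lb.d (nat_lit 8) (nat_lit 65) (nat_lit 608) (@Lb.fp (nat_lit 3) t5441)))))))))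
noncomputable def l33085 : Lb := (@Lb.r r21 (@Lb.d (nat_lit 81) (nat_lit 528) (nat_lit 586) (@Lb.g g8 (@Lb.g g10 (@Lb.g g7 (@Lb.r r394 (@Lb.r r97 (@Lb.r r2456 (@Lb.d (nat_lit 9) (nat_lit 130) (nat_lit 80) (@Lb.t (@Lb.fm (nat_lit 9) t1246)))))))))))
noncomputable def l33086 : Lb := (@Lb.d (nat_lit 16) (nat_lit 401) (nat_lit 81) (@Lb.r r2069 (@Lb.r r386 (@Lb.r r2391 (@Lb.g g7 (@Lb.g g6 (@Lb.g g4 (@Lb.d (nat_lit 2) (nat_lit 0) (nat_lit 129) (@Lb.t (@Lb.fm (nat_lit 9) t5946))))))))))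
noncomputable def l33087 : Lb := (@Lb.r r263 (@Lb.d (nat_lit 0) (nat_lit 2) (nat_lit 2) (@Lb.g g8 (@Lb.g g9 (@Lb.g g10 (@Lb.r r1689 (@Lb.r r1555 (@Lb.r r386 (@Lb.r r72 (@Lb.d (nat_lit 353) (nat_lit 0) (nat_lit 537) (@Lb.t (@Lb.fp (nat_lit 9) t4877))))))))))))
noncomputable def l33088 : Lb := (@Lb.r r21 (@Lb.d (nat_lit 65) (nat_lit 512) (nat_lit 137) (@Lb.g g8 (@Lb.g g10 (@Lb.g g11 (@Lb.r r2731 (@Lb.r r170 (@Lb.r r2657 (@Lb.r r2200 (@Lb.d (nat_lit 418) (nat_lit 64) (nat_lit 341) (@Lb.t (@Lb.fm (nat_lit 9) t5947))))))))))))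
noncomputable def l33089 : Lb := (@Lb.d (nat_lit 529) (nat_lit 337) (nat_lit 146) (@Lb.r r2312 (@Lb.r r2579 (@Lb.r r1361 (@Lb.g g6 (@Lb.g g5 (@Lb.d (nat_lit 0) (nat_lit 1) (nat_lit 17) (@Lb.r r132 (@Lb.fm (nat_lit 3) t5756)))))))))
noncomputable def l33090 : Lb := (@Lb.d (nat_lit 536) (nat_lit 261) (nat_lit 81) (@Lb.r r402 (@Lb.g g7 (@Lb.g g8 (@Lb.d (nat_lit 0) (nat_lit 0) (nat_lit 68) (@Lb.fm (nat_lit 3) t5098))))))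
noncomputable def l33091 : Lb := (@Lb.r r1114 (@Lb.r r1369 (@Lb.r r2411 (@Lb.r r1124 (@Lb.d (nat_lit 409) (nat_lit 538) (nat_lit 544) (@Lb.fp (nat_lit 1) t5948))))))
noncomputable def l33092 : Lb := (@Lb.d (nat_lit 134) (nat_lit 5) (nat_lit 10) (@Lb.g g8 (@Lb.g g9 (@Lb.g g10 (@Lb.g g11 (@Lb.r r1706 (@Lb.r r1411 (@Lb.r r1177 (@Lb.r r1156 (@Lb.d (nat_lit 297) (nat_lit 89) (nat_lit 596) (@Lb.fm (nat_lit 9) t1833)))))))))))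
noncomputable def l33093 : Lb := (@Lb.d (nat_lit 4) (nat_lit 289) (nat_lit 0) (@Lb.g g8 (@Lb.g g9 (@Lb.r r2404 (@Lb.r r603 (@Lb.r r2178 (@Lb.r r357 (@Lb.d (nat_lit 362) (nat_lit 42) (nat_lit 132) (@Lb.fp (nat_lit 3) t229)))))))))
noncomputable def l33094 : Lb := (@Lb.d (nat_lit 41) (nat_lit 681) (nat_lit 646) (@Lb.r r21 (@Lb.r r104 (@Lb.r r386 (@Lb.g g11 (@Lb.g g6 (@Lb.g g5 (@Lb.g g4 (@Lb.d (nat_lit 1) (nat_lit 1) (nat_lit 129) (@Lb.fm (nat_lit 9) t2094))))))))))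
noncomputable def l33095 : Lb := (@Lb.d (nat_lit 132) (nat_lit 0) (nat_lit 9) (@Lb.g g8 (@Lb.g g9 (@Lb.g g10 (@Lb.g g11 (@Lb.r r1706 (@Lb.r r1411 (@Lb.r r1177 (@Lb.r r1156 (@Lb.d (nat_lit 297) (nat_lit 89) (nat_lit 596) (@Lb.fm (nat_lit 9) t1692)))))))))))
noncomputable def l33096 : Lb := (@Lb.d (nat_lit 0) (nat_lit 544) (nat_lit 64) (@Lb.g g11 (@Lb.r r1114 (@Lb.r r2453 (@Lb.r r1315 (@Lb.r r1096 (@Lb.d (nat_lit 513) (nat_lit 2) (nat_lit 0) (@Lb.t (@Lb.fm (nat_lit 3) t807)))))))))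
noncomputable def l33097 : Lb := (@Lb.d (nat_lit 512) (nat_lit 165) (nat_lit 549) (@Lb.r r101 (@Lb.g g4 (@Lb.d (nat_lit 1) (nat_lit 0) (nat_lit 0) (@Lb.t (@Lb.fp (nat_lit 3) t5949))))))
noncomputable def l33098 : Lb := (@Lb.d (nat_lit 298) (nat_lit 296) (nat_lit 406) (@Lb.r r68 (@Lb.r r154 (@Lb.r r136 (@Lb.r r297 (@Lb.g g11 (@Lb.g g6 (@Lb.g g5 (@Lb.g g4 (@Lb.d (nat_lit 1) (nat_lit 1) (nat_lit 129) (@Lb.fp (nat_lit 9) t5950)))))))))))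
noncomputable def l33099 : Lb := (@Lb.d (nat_lit 136) (nat_lit 10) (nat_lit 256) (@Lb.g g9 (@Lb.g g7 (@Lb.r r152 (@Lb.r r410 (@Lb.r r2645 (@Lb.d (nat_lit 148) (nat_lit 168) (nat_lit 352) (@Lb.fp (nat_lit 3) t386))))))))
noncomputable def l33100 : Lb := (@Lb.d (nat_lit 0) (nat_lit 406) (nat_lit 33) (@Lb.r r82 (@Lb.r r2469 (@Lb.r r1176 (@Lb.g g11 (@Lb.g g6 (@Lb.g g4 (@Lb.d (nat_lit 66) (nat_lit 0) (nat_lit 513) (@Lb.r r25 (@Lb.t (@Lb.fm (nat_lit 9) t1377)))))))))))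
noncomputable def l33101 : Lb := (@Lb.d (nat_lit 1) (nat_lit 322) (nat_lit 0) (@Lb.g g4 (@Lb.g g9 (@Lb.g g11 (@Lb.r r1547 (@Lb.d (nat_lit 641) (nat_lit 0) (nat_lit 384) (@Lb.t (@Lb.fm (nat_lit 9) t1165))))))))
noncomputable def l33102 : Lb := (@Lb.r r82 (@Lb.d (nat_lit 164) (nat_lit 258) (nat_lit 0) (@Lb.g g8 (@Lb.g g9 (@Lb.r r647 (@Lb.r r2137 (@Lb.r r614 (@Lb.r r424 (@Lb.d (nat_lit 520) (nat_lit 38) (nat_lit 164) (@Lb.fm (nat_lit 3) t5207))))))))))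
noncomputable def l33103 : Lb := (@Lb.d (nat_lit 8) (nat_lit 166) (nat_lit 6) (@Lb.r r21 (@Lb.r r2390 (@Lb.r r2731 (@Lb.g g6 (@Lb.g g5 (@Lb.g g4 (@Lb.d (nat_lit 549) (nat_lit 4) (nat_lit 1) (@Lb.t (@Lb.fm (nat_lit 9) t40))))))))))
noncomputable def l33104 : Lb := (@Lb.d (nat_lit 36) (nat_lit 2) (nat_lit 73) (@Lb.g g8 (@Lb.g g9 (@Lb.g g10 (@Lb.g g11 (@Lb.r r610 (@Lb.r r579 (@Lb.r r2585 (@Lb.r r1540 (@Lb.d (nat_lit 325) (nat_lit 161) (nat_lit 266) (@Lb.fm (nat_lit 9) t3094)))))))))))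
noncomputable def l33105 : Lb := (@Lb.r r82 (@Lb.d (nat_lit 132) (nat_lit 417) (nat_lit 0) (@Lb.g g8 (@Lb.g g5 (@Lb.r r423 (@Lb.r r386 (@Lb.r r152 (@Lb.d (nat_lit 73) (nat_lit 1) (nat_lit 594) (@Lb.fp (nat_lit 3) t98)))))))))
noncomputable def l33106 : Lb := (@Lb.d (nat_lit 0) (nat_lit 2) (nat_lit 64) (@Lb.g g9 (@Lb.g g11 (@Lb.r r539 (@Lb.r r2585 (@Lb.r r1684 (@Lb.r r2150 (@Lb.d (nat_lit 5) (nat_lit 69) (nat_lit 85) (@Lb.fp (nat_lit 3) t1040)))))))))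
noncomputable def l33107 : Lb := (@Lb.d (nat_lit 136) (nat_lit 266) (nat_lit 256) (@Lb.g g9 (@Lb.g g7 (@Lb.r r152 (@Lb.r r410 (@Lb.r r2645 (@Lb.d (nat_lit 148) (nat_lit 166) (nat_lit 354) (@Lb.fp (nat_lit 3) t386))))))))
noncomputable def l33108 : Lb := (@Lb.r r82 (@Lb.d (nat_lit 132) (nat_lit 258) (nat_lit 128) (@Lb.g g8 (@Lb.g g9 (@Lb.g g11 (@Lb.r r617 (@Lb.r r2403 (@Lb.r r2198 (@Lb.r r584 (@Lb.d (nat_lit 336) (nat_lit 0) (nat_lit 361) (@Lb.t (@Lb.fp (nat_lit 9) t5951))))))))))))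
noncomputable def l33109 : Lb := (@Lb.d (nat_lit 2) (nat_lit 258) (nat_lit 10) (@Lb.g g8 (@Lb.g g9 (@Lb.g g10 (@Lb.r r1623 (@Lb.r r2193 (@Lb.r r340 (@Lb.r r602 (@Lb.d (nat_lit 165) (nat_lit 70) (nat_lit 337) (@Lb.t (@Lb.fp (nat_lit 9) t5952)))))))))))
noncomputable def l33110 : Lb := (@Lb.r r20 (@Lb.d (nat_lit 8) (nat_lit 546) (nat_lit 130) (@Lb.g g9 (@Lb.g g10 (@Lb.g g11 (@Lb.r r1560 (@Lb.r r1419 (@Lb.r r386 (@Lb.d (nat_lit 98) (nat_lit 4) (nat_lit 266) (@Lb.t (@Lb.fm (nat_lit 9) t5953)))))))))))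
noncomputable def l33111 : Lb := (@Lb.d (nat_lit 418) (nat_lit 278) (nat_lit 346) (@Lb.r r548 (@Lb.r r665 (@Lb.r r1410 (@Lb.g g11 (@Lb.g g6 (@Lb.g g5 (@Lb.g g4 (@Lb.d (nat_lit 149) (nat_lit 26) (nat_lit 385) (@Lb.fp (nat_lit 9) t5954))))))))))
noncomputable def l33112 : Lb := (@Lb.d (nat_lit 642) (nat_lit 258) (nat_lit 2) (@Lb.g g8 (@Lb.g g9 (@Lb.g g10 (@Lb.r r599 (@Lb.r r106 (@Lb.r r25 (@Lb.d (nat_lit 8) (nat_lit 9) (nat_lit 530) (@Lb.t (@Lb.fp (nat_lit 9) t5955))))))))))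
noncomputable def l33113 : Lb := (@Lb.r r21 (@Lb.d (nat_lit 408) (nat_lit 544) (nat_lit 128) (@Lb.g g8 (@Lb.g g11 (@Lb.r r2138 (@Lb.r r2449 (@Lb.r r295 (@Lb.d (nat_lit 66) (nat_lit 64) (nat_lit 513) (@Lb.fm (nat_lit 3) t4013)))))))))
noncomputable def l33114 : Lb := (@Lb.r r21 (@Lb.d (nat_lit 2) (nat_lit 256) (nat_lit 2) (@Lb.g g8 (@Lb.g g10 (@Lb.r r2587 (@Lb.r r417 (@Lb.r r98 (@Lb.r r2180 (@Lb.d (nat_lit 610) (nat_lit 6) (nat_lit 578) (@Lb.fm (nat_lit 3) t662))))))))))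
noncomputable def l33115 : Lb := (@Lb.d (nat_lit 2) (nat_lit 0) (nat_lit 128) (@Lb.g g8 (@Lb.g g11 (@Lb.r r408 (@Lb.r r295 (@Lb.r r516 (@Lb.d (nat_lit 362) (nat_lit 102) (nat_lit 682) (@Lb.fp (nat_lit 3) t5956))))))))
noncomputable def l33116 : Lb := (@Lb.d (nat_lit 642) (nat_lit 512) (nat_lit 344) (@Lb.g g11 (@Lb.g g8 (@Lb.fm (nat_lit 3) t3723))))
noncomputable def l33117 : Lb := (@Lb.r r21 (@Lb.d (nat_lit 34) (nat_lit 0) (nat_lit 130) (@Lb.g g8 (@Lb.g g10 (@Lb.g g11 (@Lb.r r2666 (@Lb.r r579 (@Lb.r r97 (@Lb.d (nat_lit 421) (nat_lit 154) (nat_lit 613) (@Lb.t (@Lb.fm (nat_lit 9) t525)))))))))))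
noncomputable def l33118 : Lb := (@Lb.d (nat_lit 642) (nat_lit 0) (nat_lit 272) (@Lb.r r579 (@Lb.g g8 (@Lb.t (@Lb.fm (nat_lit 3) t4041)))))
noncomputable def l33119 : Lb := (@Lb.r r355 (@Lb.d (nat_lit 65) (nat_lit 9) (nat_lit 1) (@Lb.g g8 (@Lb.g g9 (@Lb.g g10 (@Lb.r r2327 (@Lb.r r1634 (@Lb.r r1685 (@Lb.r r1192 (@Lb.d (nat_lit 613) (nat_lit 42) (nat_lit 386) (@Lb.t (@Lb.fp (nat_lit 9) t5867))))))))))))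
noncomputable def l33120 : Lb := (@Lb.r r20 (@Lb.r r82 (@Lb.d (nat_lit 4) (nat_lit 609) (nat_lit 72) (@Lb.g g5 (@Lb.g g11 (@Lb.r r1624 (@Lb.r r2438 (@Lb.r r1611 (@Lb.d (nat_lit 617) (nat_lit 136) (nat_lit 513) (@Lb.fm (nat_lit 3) t5957))))))))))
noncomputable def l33121 : Lb := (@Lb.d (nat_lit 130) (nat_lit 514) (nat_lit 130) (@Lb.g g8 (@Lb.g g9 (@Lb.g g10 (@Lb.g g11 (@Lb.r r2327 (@Lb.r r2705 (@Lb.r r598 (@Lb.r r392 (@Lb.d (nat_lit 386) (nat_lit 4) (nat_lit 616) (@Lb.fm (nat_lit 9) t5958)))))))))))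
noncomputable def l33122 : Lb := (@Lb.r r20 (@Lb.r r82 (@Lb.d (nat_lit 4) (nat_lit 97) (nat_lit 72) (@Lb.g g5 (@Lb.g g11 (@Lb.r r1624 (@Lb.r r2438 (@Lb.r r1611 (@Lb.d (nat_lit 608) (nat_lit 8) (nat_lit 513) (@Lb.fm (nat_lit 3) t981))))))))))
noncomputable def l33123 : Lb := (@Lb.r r323 (@Lb.d (nat_lit 9) (nat_lit 265) (nat_lit 1) (@Lb.g g8 (@Lb.g g9 (@Lb.g g10 (@Lb.r r682 (@Lb.r r663 (@Lb.r r1301 (@Lb.r r24 (@Lb.d (nat_lit 65) (nat_lit 161) (nat_lit 82) (@Lb.t (@Lb.fp (nat_lit 9) t5959))))))))))))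
noncomputable def l33124 : Lb := (@Lb.d (nat_lit 70) (nat_lit 5) (nat_lit 534) (@Lb.r r21 (@Lb.r r2438 (@Lb.r r612 (@Lb.g g11 (@Lb.g g6 (@Lb.g g4 (@Lb.d (nat_lit 64) (nat_lit 0) (nat_lit 518) (@Lb.r r25 (@Lb.t (@Lb.fp (nat_lit 9) t3457)))))))))))
noncomputable def l33125 : Lb := (@Lb.d (nat_lit 153) (nat_lit 518) (nat_lit 273) (@Lb.r r1604 (@Lb.r r2442 (@Lb.r r1367 (@Lb.g g7 (@Lb.g g6 (@Lb.g g5 (@Lb.g g4 (@Lb.d (nat_lit 1) (nat_lit 134) (nat_lit 66) (@Lb.fm (nat_lit 9) t4742))))))))))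
noncomputable def l33126 : Lb := (@Lb.d (nat_lit 153) (nat_lit 514) (nat_lit 4) (@Lb.g g8 (@Lb.g g9 (@Lb.g g10 (@Lb.g g11 (@Lb.r r596 (@Lb.r r2407 (@Lb.r r2469 (@Lb.r r2406 (@Lb.r r1156 (@Lb.d (nat_lit 134) (nat_lit 80) (nat_lit 345) (@Lb.fm (nat_lit 9) t5960))))))))))))
noncomputable def l33127 : Lb := (@Lb.d (nat_lit 130) (nat_lit 521) (nat_lit 129) (@Lb.g g8 (@Lb.g g9 (@Lb.g g10 (@Lb.g g11 (@Lb.r r2327 (@Lb.r r1194 (@Lb.r r2657 (@Lb.r r152 (@Lb.d (nat_lit 424) (nat_lit 90) (nat_lit 613) (@Lb.fm (nat_lit 9) t5961)))))))))))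
noncomputable def l33128 : Lb := (@Lb.d (nat_lit 17) (nat_lit 522) (nat_lit 521) (@Lb.r r24 (@Lb.r r2587 (@Lb.r r1381 (@Lb.g g10 (@Lb.g g4 (@Lb.d (nat_lit 0) (nat_lit 0) (nat_lit 18) (@Lb.r r387 (@Lb.r r145 (@Lb.fm (nat_lit 3) t5962))))))))))
noncomputable def l33129 : Lb := (@Lb.d (nat_lit 144) (nat_lit 265) (nat_lit 130) (@Lb.g g8 (@Lb.g g9 (@Lb.g g10 (@Lb.g g11 (@Lb.r r1706 (@Lb.r r1411 (@Lb.r r2201 (@Lb.r r2180 (@Lb.d (nat_lit 553) (nat_lit 146) (nat_lit 170) (@Lb.fm (nat_lit 9) t2765)))))))))))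
noncomputable def l33130 : Lb := (@Lb.r r322 (@Lb.d (nat_lit 9) (nat_lit 288) (nat_lit 128) (@Lb.g g8 (@Lb.g g9 (@Lb.g g11 (@Lb.r r2713 (@Lb.r r146 (@Lb.r r2580 (@Lb.d (nat_lit 680) (nat_lit 168) (nat_lit 522) (@Lb.t (@Lb.fp (nat_lit 9) t5962)))))))))))
noncomputable def l33131 : Lb := (@Lb.d (nat_lit 145) (nat_lit 521) (nat_lit 130) (@Lb.g g8 (@Lb.g g9 (@Lb.g g10 (@Lb.g g11 (@Lb.r r343 (@Lb.r r2390 (@Lb.r r97 (@Lb.r r1556 (@Lb.d (nat_lit 678) (nat_lit 105) (nat_lit 641) (@Lb.fm (nat_lit 9) t1167)))))))))))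
noncomputable def l33132 : Lb := (@Lb.d (nat_lit 522) (nat_lit 321) (nat_lit 678) (@Lb.r r81 (@Lb.r r102 (@Lb.r r597 (@Lb.r r2387 (@Lb.g g7 (@Lb.g g6 (@Lb.g g5 (@Lb.g g8 (@Lb.d (nat_lit 2) (nat_lit 1) (nat_lit 65) (@Lb.fm (nat_lit 9) t1059)))))))))))
noncomputable def l33133 : Lb := (@Lb.r r82 (@Lb.d (nat_lit 34) (nat_lit 10) (nat_lit 0) (@Lb.g g8 (@Lb.g g9 (@Lb.g g11 (@Lb.r r1635 (@Lb.r r582 (@Lb.r r2712 (@Lb.r r37 (@Lb.d (nat_lit 581) (nat_lit 84) (nat_lit 657) (@Lb.t (@Lb.fp (nat_lit 9) t5))))))))))))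
noncomputable def l33134 : Lb := (@Lb.d (nat_lit 153) (nat_lit 8) (nat_lit 130) (@Lb.g g8 (@Lb.g g9 (@Lb.g g10 (@Lb.g g11 (@Lb.r r683 (@Lb.r r2724 (@Lb.r r134 (@Lb.r r97 (@Lb.d (nat_lit 545) (nat_lit 169) (nat_lit 385) (@Lb.fm (nat_lit 9) t1167)))))))))))
noncomputable def l33135 : Lb := (@Lb.d (nat_lit 402) (nat_lit 512) (nat_lit 641) (@Lb.r r1604 (@Lb.r r146 (@Lb.r r2409 (@Lb.g g11 (@Lb.g g5 (@Lb.g g4 (@Lb.d (nat_lit 6) (nat_lit 2) (nat_lit 384) (@Lb.r r578 (@Lb.t (@Lb.fm (nat_lit 9) t143)))))))))))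
noncomputable def l33136 : Lb := (@Lb.r r82 (@Lb.d (nat_lit 34) (nat_lit 258) (nat_lit 136) (@Lb.g g8 (@Lb.g g9 (@Lb.g g11 (@Lb.r r1362 (@Lb.r r2645 (@Lb.r r356 (@Lb.r r395 (@Lb.d (nat_lit 548) (nat_lit 32) (nat_lit 680) (@Lb.t (@Lb.fm (nat_lit 9) t2545))))))))))))
noncomputable def l33137 : Lb := (@Lb.r r82 (@Lb.d (nat_lit 2) (nat_lit 545) (nat_lit 64) (@Lb.g g8 (@Lb.g g9 (@Lb.g g11 (@Lb.r r2659 (@Lb.r r386 (@Lb.r r2472 (@Lb.r r2393 (@Lb.d (nat_lit 277) (nat_lit 4) (nat_lit 265) (@Lb.t (@Lb.fp (nat_lit 9) t1515))))))))))))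
noncomputable def l33138 : Lb := (@Lb.d (nat_lit 32) (nat_lit 2) (nat_lit 64) (@Lb.g g9 (@Lb.g g10 (@Lb.g g11 (@Lb.r r661 (@Lb.r r356 (@Lb.r r346 (@Lb.d (nat_lit 169) (nat_lit 38) (nat_lit 134) (@Lb.t (@Lb.fm (nat_lit 9) t521))))))))))
noncomputable def l33139 : Lb := (@Lb.d (nat_lit 40) (nat_lit 256) (nat_lit 64) (@Lb.g g8 (@Lb.g g11 (@Lb.r r1627 (@Lb.r r422 (@Lb.r r1445 (@Lb.r r1620 (@Lb.d (nat_lit 406) (nat_lit 104) (nat_lit 514) (@Lb.fp (nat_lit 3) t386)))))))))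
noncomputable def l33140 : Lb := (@Lb.r r82 (@Lb.d (nat_lit 2) (nat_lit 514) (nat_lit 0) (@Lb.g g8 (@Lb.g g9 (@Lb.r r2649 (@Lb.r r595 (@Lb.r r98 (@Lb.r r24 (@Lb.d (nat_lit 129) (nat_lit 144) (nat_lit 352) (@Lb.fm (nat_lit 3) t1606))))))))))
noncomputable def l33141 : Lb := (@Lb.d (nat_lit 32) (nat_lit 256) (nat_lit 73) (@Lb.g g10 (@Lb.g g11 (@Lb.r r340 (@Lb.r r683 (@Lb.r r2634 (@Lb.r r1057 (@Lb.d (nat_lit 608) (nat_lit 74) (nat_lit 257) (@Lb.fm (nat_lit 3) t5963)))))))))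
noncomputable def l33142 : Lb := (@Lb.d (nat_lit 2) (nat_lit 256) (nat_lit 0) (@Lb.g g8 (@Lb.r r341 (@Lb.r r675 (@Lb.r r658 (@Lb.r r81 (@Lb.d (nat_lit 64) (nat_lit 128) (nat_lit 266) (@Lb.t (@Lb.fp (nat_lit 3) t242)))))))))
noncomputable def l33143 : Lb := (@Lb.r r82 (@Lb.d (nat_lit 166) (nat_lit 256) (nat_lit 0) (@Lb.g g8 (@Lb.g g9 (@Lb.r r647 (@Lb.r r1113 (@Lb.r r614 (@Lb.r r424 (@Lb.d (nat_lit 517) (nat_lit 166) (nat_lit 404) (@Lb.fm (nat_lit 3) t3999))))))))))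
noncomputable def l33144 : Lb := (@Lb.d (nat_lit 128) (nat_lit 528) (nat_lit 322) (@Lb.g g10 (@Lb.g g7 (@Lb.r r421 (@Lb.r r98 (@Lb.r r2648 (@Lb.d (nat_lit 264) (nat_lit 8) (nat_lit 82) (@Lb.fp (nat_lit 3) t2732))))))))
noncomputable def l33145 : Lb := (@Lb.r r81 (@Lb.r r323 (@Lb.d (nat_lit 2) (nat_lit 512) (nat_lit 33) (@Lb.g g8 (@Lb.g g6 (@Lb.r r387 (@Lb.r r88 (@Lb.r r37 (@Lb.d (nat_lit 10) (nat_lit 1) (nat_lit 16) (@Lb.fp (nat_lit 3) t5964))))))))))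
noncomputable def l33146 : Lb := (@Lb.d (nat_lit 129) (nat_lit 264) (nat_lit 258) (@Lb.g g8 (@Lb.g g10 (@Lb.g g7 (@Lb.r r1412 (@Lb.d (nat_lit 352) (nat_lit 2) (nat_lit 25) (@Lb.t (@Lb.fp (nat_lit 9) t5965))))))))
noncomputable def l33147 : Lb := (@Lb.d (nat_lit 2) (nat_lit 258) (nat_lit 66) (@Lb.g g8 (@Lb.g g9 (@Lb.g g10 (@Lb.g g7 (@Lb.r r2466 (@Lb.r r1688 (@Lb.r r2469 (@Lb.d (nat_lit 618) (nat_lit 1) (nat_lit 345) (@Lb.fp (nat_lit 9) t5966))))))))))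
noncomputable def l33148 : Lb := (@Lb.d (nat_lit 0) (nat_lit 36) (nat_lit 346) (@Lb.r r1681 (@Lb.r r411 (@Lb.r r344 (@Lb.g g6 (@Lb.g g5 (@Lb.d (nat_lit 4) (nat_lit 0) (nat_lit 34) (@Lb.r r291 (@Lb.fp (nat_lit 3) t1038)))))))))
noncomputable def l33149 : Lb := (@Lb.d (nat_lit 2) (nat_lit 2) (nat_lit 66) (@Lb.g g8 (@Lb.g g9 (@Lb.g g10 (@Lb.g g7 (@Lb.r r2466 (@Lb.r r1688 (@Lb.r r2469 (@Lb.d (nat_lit 612) (nat_lit 129) (nat_lit 345) (@Lb.fp (nat_lit 9) t2275))))))))))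
noncomputable def l33150 : Lb := (@Lb.d (nat_lit 0) (nat_lit 265) (nat_lit 533) (@Lb.r r1604 (@Lb.r r402 (@Lb.g g11 (@Lb.g g9 (@Lb.d (nat_lit 0) (nat_lit 10) (nat_lit 0) (@Lb.fp (nat_lit 3) t3193)))))))
noncomputable def l33151 : Lb := (@Lb.d (nat_lit 2) (nat_lit 258) (nat_lit 130) (@Lb.g g8 (@Lb.g g9 (@Lb.g g10 (@Lb.g g11 (@Lb.r r610 (@Lb.r r404 (@Lb.r r619 (@Lb.r r97 (@Lb.r r516 (@Lb.d (nat_lit 329) (nat_lit 98) (nat_lit 386) (@Lb.fp (nat_lit 9) t3608))))))))))))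
noncomputable def l33152 : Lb := (@Lb.d (nat_lit 614) (nat_lit 146) (nat_lit 422) (@Lb.r r2085 (@Lb.r r1112 (@Lb.r r602 (@Lb.r r1451 (@Lb.g g7 (@Lb.g g6 (@Lb.g g5 (@Lb.d (nat_lit 0) (nat_lit 32) (nat_lit 70) (@Lb.t (@Lb.fp (nat_lit 9) t5967)))))))))))
noncomputable def l33153 : Lb := (@Lb.d (nat_lit 645) (nat_lit 256) (nat_lit 328) (@Lb.g g4 (@Lb.g g11 (@Lb.r r2122 (@Lb.r r2145 (@Lb.d (nat_lit 321) (nat_lit 81) (nat_lit 664) (@Lb.fm (nat_lit 3) t5968)))))))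
noncomputable def l33154 : Lb := (@Lb.d (nat_lit 549) (nat_lit 576) (nat_lit 69) (@Lb.r r2631 (@Lb.r r402 (@Lb.r r2145 (@Lb.g g4 (@Lb.d (nat_lit 321) (nat_lit 0) (nat_lit 0) (@Lb.t (@Lb.fp (nat_lit 3) t5969))))))))
noncomputable def l33155 : Lb := (@Lb.r r21 (@Lb.r r70 (@Lb.r r2311 (@Lb.d (nat_lit 2) (nat_lit 256) (nat_lit 0) (@Lb.g g8 (@Lb.r r101 (@Lb.r r2450 (@Lb.d (nat_lit 260) (nat_lit 64) (nat_lit 325) (@Lb.t (@Lb.fp (nat_lit 3) t5248))))))))))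
noncomputable def l33156 : Lb := (@Lb.d (nat_lit 2) (nat_lit 9) (nat_lit 130) (@Lb.g g8 (@Lb.g g9 (@Lb.g g10 (@Lb.g g11 (@Lb.r r599 (@Lb.r r682 (@Lb.r r2660 (@Lb.r r2581 (@Lb.d (nat_lit 420) (nat_lit 24) (nat_lit 520) (@Lb.fp (nat_lit 9) t5970)))))))))))
noncomputable def l33157 : Lb := (@Lb.d (nat_lit 134) (nat_lit 512) (nat_lit 64) (@Lb.g g8 (@Lb.g g9 (@Lb.g g11 (@Lb.r r520 (@Lb.r r2331 (@Lb.r r2178 (@Lb.r r2657 (@Lb.r r2084 (@Lb.d (nat_lit 18) (nat_lit 21) (nat_lit 26) (@Lb.t (@Lb.fp (nat_lit 9) t5527))))))))))))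
noncomputable def l33158 : Lb := (@Lb.d (nat_lit 101) (nat_lit 582) (nat_lit 265) (@Lb.r r404 (@Lb.r r150 (@Lb.r r361 (@Lb.r r1299 (@Lb.g g7 (@Lb.g g5 (@Lb.g g4 (@Lb.d (nat_lit 17) (nat_lit 1) (nat_lit 128) (@Lb.t (@Lb.fp (nat_lit 9) t5971)))))))))))
noncomputable def l33159 : Lb := (@Lb.d (nat_lit 2) (nat_lit 521) (nat_lit 130) (@Lb.g g8 (@Lb.g g9 (@Lb.g g10 (@Lb.g g11 (@Lb.r r599 (@Lb.r r682 (@Lb.r r2660 (@Lb.r r2581 (@Lb.d (nat_lit 420) (nat_lit 24) (nat_lit 577) (@Lb.fp (nat_lit 9) t5970)))))))))))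
noncomputable def l33160 : Lb := (@Lb.d (nat_lit 129) (nat_lit 16) (nat_lit 128) (@Lb.g g8 (@Lb.g g9 (@Lb.g g10 (@Lb.g g11 (@Lb.r r1371 (@Lb.r r1362 (@Lb.r r612 (@Lb.r r2645 (@Lb.r r1060 (@Lb.d (nat_lit 136) (nat_lit 128) (nat_lit 681) (@Lb.fp (nat_lit 9) t5972))))))))))))
noncomputable def l33161 : Lb := (@Lb.r r20 (@Lb.d (nat_lit 0) (nat_lit 549) (nat_lit 74) (@Lb.g g9 (@Lb.g g10 (@Lb.g g11 (@Lb.r r1699 (@Lb.r r1378 (@Lb.r r2577 (@Lb.d (nat_lit 0) (nat_lit 9) (nat_lit 549) (@Lb.t (@Lb.fp (nat_lit 9) t1370)))))))))))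
noncomputable def l33162 : Lb := (@Lb.r r330 (@Lb.d (nat_lit 0) (nat_lit 2) (nat_lit 128) (@Lb.g g8 (@Lb.g g9 (@Lb.g g11 (@Lb.r r1611 (@Lb.r r596 (@Lb.r r25 (@Lb.d (nat_lit 522) (nat_lit 0) (nat_lit 256) (@Lb.t (@Lb.fp (nat_lit 9) t5973)))))))))))
noncomputable def l33163 : Lb := (@Lb.r r20 (@Lb.d (nat_lit 0) (nat_lit 32) (nat_lit 73) (@Lb.g g9 (@Lb.g g10 (@Lb.g g11 (@Lb.r r1699 (@Lb.r r1378 (@Lb.r r2577 (@Lb.d (nat_lit 0) (nat_lit 9) (nat_lit 549) (@Lb.t (@Lb.fp (nat_lit 9) t1047)))))))))))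
noncomputable def l33164 : Lb := (@Lb.d (nat_lit 134) (nat_lit 0) (nat_lit 88) (@Lb.g g8 (@Lb.g g9 (@Lb.g g6 (@Lb.g g11 (@Lb.r r1641 (@Lb.r r1323 (@Lb.r r2084 (@Lb.d (nat_lit 645) (nat_lit 18) (nat_lit 584) (@Lb.fp (nat_lit 9) t5974))))))))))
noncomputable def l33165 : Lb := (@Lb.d (nat_lit 6) (nat_lit 8) (nat_lit 2) (@Lb.g g4 (@Lb.g g10 (@Lb.r r1427 (@Lb.d (nat_lit 613) (nat_lit 72) (nat_lit 593) (@Lb.fp (nat_lit 3) t1554))))))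
noncomputable def l33166 : Lb := (@Lb.r r579 (@Lb.r r402 (@Lb.r r2145 (@Lb.r r36 (@Lb.d (nat_lit 5) (nat_lit 262) (nat_lit 1) (@Lb.fm (nat_lit 1) t940))))))
noncomputable def l33167 : Lb := (@Lb.d (nat_lit 134) (nat_lit 546) (nat_lit 24) (@Lb.g g8 (@Lb.g g9 (@Lb.g g6 (@Lb.g g11 (@Lb.r r1291 (@Lb.r r609 (@Lb.r r2084 (@Lb.d (nat_lit 640) (nat_lit 138) (nat_lit 584) (@Lb.fp (nat_lit 9) t2239))))))))))
noncomputable def l33168 : Lb := (@Lb.d (nat_lit 4) (nat_lit 257) (nat_lit 128) (@Lb.g g8 (@Lb.g g9 (@Lb.g g10 (@Lb.g g11 (@Lb.r r683 (@Lb.r r2722 (@Lb.r r36 (@Lb.r r149 (@Lb.r r36 (@Lb.d (nat_lit 353) (nat_lit 137) (nat_lit 513) (@Lb.fp (nat_lit 9) t5975))))))))))))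
noncomputable def l33169 : Lb := (@Lb.d (nat_lit 641) (nat_lit 512) (nat_lit 0) (@Lb.g g4 (@Lb.g g9 (@Lb.r r2387 (@Lb.r r2178 (@Lb.r r1633 (@Lb.d (nat_lit 8) (nat_lit 154) (nat_lit 297) (@Lb.fp (nat_lit 3) t2131))))))))
noncomputable def l33170 : Lb := (@Lb.d (nat_lit 6) (nat_lit 0) (nat_lit 128) (@Lb.g g4 (@Lb.g g11 (@Lb.r r2567 (@Lb.r r402 (@Lb.d (nat_lit 128) (nat_lit 134) (nat_lit 577) (@Lb.fp (nat_lit 3) t4585)))))))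
noncomputable def l33171 : Lb := (@Lb.d (nat_lit 4) (nat_lit 512) (nat_lit 64) (@Lb.g g8 (@Lb.g g7 (@Lb.r r402 (@Lb.r r2073 (@Lb.d (nat_lit 644) (nat_lit 82) (nat_lit 522) (@Lb.fm (nat_lit 3) t3227)))))))
noncomputable def l33172 : Lb := (@Lb.d (nat_lit 362) (nat_lit 676) (nat_lit 336) (@Lb.r r2663 (@Lb.r r1450 (@Lb.r r1172 (@Lb.g g7 (@Lb.g g6 (@Lb.g g5 (@Lb.d (nat_lit 64) (nat_lit 129) (nat_lit 64) (@Lb.t (@Lb.fp (nat_lit 9) t5976))))))))))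
noncomputable def l33173 : Lb := (@Lb.d (nat_lit 6) (nat_lit 520) (nat_lit 2) (@Lb.g g4 (@Lb.g g10 (@Lb.r r1427 (@Lb.d (nat_lit 613) (nat_lit 65) (nat_lit 594) (@Lb.fp (nat_lit 3) t1554))))))
noncomputable def l33174 : Lb := (@Lb.r r70 (@Lb.d (nat_lit 36) (nat_lit 0) (nat_lit 644) (@Lb.g g8 (@Lb.g g9 (@Lb.g g11 (@Lb.r r1430 (@Lb.r r1553 (@Lb.r r2660 (@Lb.d (nat_lit 421) (nat_lit 89) (nat_lit 533) (@Lb.t (@Lb.fp (nat_lit 9) t3363)))))))))))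
noncomputable def l33175 : Lb := (@Lb.d (nat_lit 128) (nat_lit 256) (nat_lit 128) (@Lb.g g9 (@Lb.g g11 (@Lb.r r386 (@Lb.r r264 (@Lb.r r583 (@Lb.r r529 (@Lb.d (nat_lit 26) (nat_lit 2) (nat_lit 0) (@Lb.fp (nat_lit 3) t1412)))))))))
noncomputable def l33176 : Lb := (@Lb.d (nat_lit 128) (nat_lit 0) (nat_lit 644) (@Lb.g g9 (@Lb.g g11 (@Lb.r r2178 (@Lb.r r1557 (@Lb.r r1416 (@Lb.d (nat_lit 72) (nat_lit 2) (nat_lit 533) (@Lb.fm (nat_lit 3) t1063))))))))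
noncomputable def l33177 : Lb := (@Lb.d (nat_lit 148) (nat_lit 673) (nat_lit 102) (@Lb.r r24 (@Lb.r r1383 (@Lb.r r2389 (@Lb.g g6 (@Lb.g g5 (@Lb.g g4 (@Lb.d (nat_lit 1) (nat_lit 0) (nat_lit 42) (@Lb.r r387 (@Lb.t (@Lb.fm (nat_lit 9) t3520)))))))))))
noncomputable def l33178 : Lb := (@Lb.d (nat_lit 2) (nat_lit 2) (nat_lit 2) (@Lb.g g8 (@Lb.g g9 (@Lb.g g10 (@Lb.r r1689 (@Lb.r r2579 (@Lb.r r2122 (@Lb.r r2120 (@Lb.d (nat_lit 337) (nat_lit 164) (nat_lit 345) (@Lb.t (@Lb.fm (nat_lit 9) t1053)))))))))))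
noncomputable def l33179 : Lb := (@Lb.d (nat_lit 512) (nat_lit 512) (nat_lit 128) (@Lb.r r1291 (@Lb.g g5 (@Lb.g g8 (@Lb.fp (nat_lit 3) t997)))))
noncomputable def l33180 : Lb := (@Lb.r r267 (@Lb.g g4 (@Lb.g g5 (@Lb.r r1579 (@Lb.r r1320 (@Lb.d (nat_lit 646) (nat_lit 593) (nat_lit 576) (@Lb.fm (nat_lit 3) t5977)))))))
noncomputable def l33181 : Lb := (@Lb.d (nat_lit 4) (nat_lit 550) (nat_lit 548) (@Lb.r r1633 (@Lb.r r2403 (@Lb.g g10 (@Lb.g g5 (@Lb.g g8 (@Lb.d (nat_lit 322) (nat_lit 0) (nat_lit 22) (@Lb.t (@Lb.fm (nat_lit 9) t5978)))))))))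
noncomputable def l33182 : Lb := (@Lb.r r82 (@Lb.d (nat_lit 2) (nat_lit 2) (nat_lit 0) (@Lb.g g8 (@Lb.g g9 (@Lb.r r1561 (@Lb.r r595 (@Lb.r r386 (@Lb.r r24 (@Lb.d (nat_lit 598) (nat_lit 4) (nat_lit 529) (@Lb.fp (nat_lit 3) t3823))))))))))
noncomputable def l33183 : Lb := (@Lb.r r21 (@Lb.d (nat_lit 128) (nat_lit 256) (nat_lit 130) (@Lb.g g8 (@Lb.g g10 (@Lb.g g11 (@Lb.r r1691 (@Lb.r r409 (@Lb.r r90 (@Lb.r r1368 (@Lb.d (nat_lit 581) (nat_lit 88) (nat_lit 530) (@Lb.t (@Lb.fm (nat_lit 9) t1758))))))))))))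
noncomputable def l33184 : Lb := (@Lb.d (nat_lit 2) (nat_lit 256) (nat_lit 0) (@Lb.g g8 (@Lb.g g11 (@Lb.d (nat_lit 0) (nat_lit 0) (nat_lit 64) (@Lb.fm (nat_lit 3) t2)))))
noncomputable def l33185 : Lb := (@Lb.d (nat_lit 2) (nat_lit 0) (nat_lit 0) (@Lb.g g8 (@Lb.g g11 (@Lb.r r1291 (@Lb.d (nat_lit 512) (nat_lit 0) (nat_lit 0) (@Lb.fm (nat_lit 3) t441))))))
noncomputable def l33186 : Lb := (@Lb.d (nat_lit 10) (nat_lit 0) (nat_lit 2) (@Lb.g g8 (@Lb.g g10 (@Lb.g g11 (@Lb.r r293 (@Lb.r r1435 (@Lb.r r386 (@Lb.r r1112 (@Lb.d (nat_lit 41) (nat_lit 4) (nat_lit 552) (@Lb.t (@Lb.fp (nat_lit 9) t2344)))))))))))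
noncomputable def l33187 : Lb := (@Lb.d (nat_lit 129) (nat_lit 282) (nat_lit 161) (@Lb.g g8 (@Lb.g g9 (@Lb.g g6 (@Lb.g g11 (@Lb.r r2667 (@Lb.r r1640 (@Lb.r r601 (@Lb.d (nat_lit 97) (nat_lit 166) (nat_lit 520) (@Lb.fm (nat_lit 9) t5552))))))))))
noncomputable def l33188 : Lb := (@Lb.d (nat_lit 0) (nat_lit 512) (nat_lit 130) (@Lb.g g10 (@Lb.g g11 (@Lb.r r419 (@Lb.r r386 (@Lb.r r1172 (@Lb.d (nat_lit 292) (nat_lit 105) (nat_lit 17) (@Lb.fp (nat_lit 3) t5979))))))))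
noncomputable def l33189 : Lb := (@Lb.r r21 (@Lb.d (nat_lit 128) (nat_lit 512) (nat_lit 130) (@Lb.g g8 (@Lb.g g10 (@Lb.g g11 (@Lb.r r419 (@Lb.r r2726 (@Lb.r r97 (@Lb.r r612 (@Lb.d (nat_lit 4) (nat_lit 101) (nat_lit 660) (@Lb.t (@Lb.fm (nat_lit 9) t2470))))))))))))
noncomputable def l33190 : Lb := (@Lb.d (nat_lit 2) (nat_lit 548) (nat_lit 401) (@Lb.r r2450 (@Lb.r r101 (@Lb.r r2331 (@Lb.g g6 (@Lb.g g4 (@Lb.d (nat_lit 612) (nat_lit 0) (nat_lit 0) (@Lb.r r25 (@Lb.fm (nat_lit 3) t5678)))))))))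
noncomputable def l33191 : Lb := (@Lb.d (nat_lit 262) (nat_lit 37) (nat_lit 610) (@Lb.r r2116 (@Lb.r r149 (@Lb.r r2730 (@Lb.g g7 (@Lb.g g6 (@Lb.g g5 (@Lb.g g4 (@Lb.d (nat_lit 74) (nat_lit 24) (nat_lit 384) (@Lb.fm (nat_lit 9) t5980))))))))))
noncomputable def l33192 : Lb := (@Lb.r r21 (@Lb.d (nat_lit 645) (nat_lit 260) (nat_lit 66) (@Lb.g g4 (@Lb.g g10 (@Lb.g g11 (@Lb.r r345 (@Lb.r r2667 (@Lb.r r2374 (@Lb.d (nat_lit 104) (nat_lit 69) (nat_lit 594) (@Lb.t (@Lb.fm (nat_lit 9) t5981)))))))))))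
noncomputable def l33193 : Lb := (@Lb.r r331 (@Lb.d (nat_lit 674) (nat_lit 8) (nat_lit 6) (@Lb.g g8 (@Lb.g g10 (@Lb.r r1411 (@Lb.d (nat_lit 0) (nat_lit 2) (nat_lit 425) (@Lb.fm (nat_lit 3) t3760)))))))
noncomputable def l33194 : Lb := (@Lb.r r322 (@Lb.d (nat_lit 0) (nat_lit 289) (nat_lit 516) (@Lb.g g8 (@Lb.g g9 (@Lb.g g7 (@Lb.r r418 (@Lb.r r2088 (@Lb.r r2201 (@Lb.d (nat_lit 592) (nat_lit 132) (nat_lit 657) (@Lb.t (@Lb.fp (nat_lit 9) t4938)))))))))))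
noncomputable def l33195 : Lb := (@Lb.d (nat_lit 262) (nat_lit 548) (nat_lit 294) (@Lb.r r1048 (@Lb.r r2370 (@Lb.r r1683 (@Lb.g g6 (@Lb.g g9 (@Lb.g g4 (@Lb.d (nat_lit 18) (nat_lit 10) (nat_lit 0) (@Lb.t (@Lb.fm (nat_lit 9) t4403))))))))))
noncomputable def l33196 : Lb := (@Lb.d (nat_lit 0) (nat_lit 534) (nat_lit 613) (@Lb.r r1635 (@Lb.r r2394 (@Lb.r r661 (@Lb.r r2404 (@Lb.g g7 (@Lb.d (nat_lit 0) (nat_lit 16) (nat_lit 128) (@Lb.t (@Lb.fp (nat_lit 3) t1915)))))))))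
noncomputable def l33197 : Lb := (@Lb.r r82 (@Lb.d (nat_lit 130) (nat_lit 514) (nat_lit 128) (@Lb.g g8 (@Lb.g g9 (@Lb.g g11 (@Lb.r r2593 (@Lb.r r1447 (@Lb.r r386 (@Lb.r r152 (@Lb.d (nat_lit 324) (nat_lit 137) (nat_lit 593) (@Lb.t (@Lb.fp (nat_lit 9) t5602))))))))))))
noncomputable def l33198 : Lb := (@Lb.d (nat_lit 354) (nat_lit 421) (nat_lit 384) (@Lb.r r101 (@Lb.g g7 (@Lb.g g10 (@Lb.fm (nat_lit 3) t5982)))))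
noncomputable def l33199 : Lb := (@Lb.d (nat_lit 33) (nat_lit 516) (nat_lit 10) (@Lb.g g8 (@Lb.g g9 (@Lb.g g10 (@Lb.g g11 (@Lb.r r682 (@Lb.r r387 (@Lb.r r153 (@Lb.r r132 (@Lb.d (nat_lit 41) (nat_lit 25) (nat_lit 84) (@Lb.fm (nat_lit 9) t390)))))))))))
noncomputable def l33200 : Lb := (@Lb.d (nat_lit 33) (nat_lit 2) (nat_lit 9) (@Lb.g g8 (@Lb.g g9 (@Lb.g g10 (@Lb.g g11 (@Lb.r r682 (@Lb.r r387 (@Lb.r r153 (@Lb.r r132 (@Lb.d (nat_lit 41) (nat_lit 25) (nat_lit 84) (@Lb.fm (nat_lit 9) t1987)))))))))))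
noncomputable def l33201 : Lb := (@Lb.d (nat_lit 522) (nat_lit 64) (nat_lit 400) (@Lb.r r101 (@Lb.r r24 (@Lb.r r402 (@Lb.g g11 (@Lb.t (@Lb.fm (nat_lit 3) t1900)))))))
noncomputable def l33202 : Lb := (@Lb.d (nat_lit 33) (nat_lit 4) (nat_lit 73) (@Lb.g g8 (@Lb.g g9 (@Lb.g g6 (@Lb.g g11 (@Lb.r r2657 (@Lb.r r2343 (@Lb.r r1540 (@Lb.d (nat_lit 648) (nat_lit 138) (nat_lit 640) (@Lb.fp (nat_lit 9) t789))))))))))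
noncomputable def l33203 : Lb := (@Lb.d (nat_lit 0) (nat_lit 516) (nat_lit 0) (@Lb.g g9 (@Lb.g g10 (@Lb.g g7 (@Lb.r r424 (@Lb.r r106 (@Lb.r r25 (@Lb.d (nat_lit 105) (nat_lit 9) (nat_lit 72) (@Lb.t (@Lb.fm (nat_lit 9) t5466))))))))))
noncomputable def l33204 : Lb := (@Lb.d (nat_lit 1) (nat_lit 256) (nat_lit 73) (@Lb.g g8 (@Lb.g g9 (@Lb.g g10 (@Lb.g g11 (@Lb.r r2730 (@Lb.r r648 (@Lb.r r539 (@Lb.r r289 (@Lb.r r36 (@Lb.d (nat_lit 640) (nat_lit 36) (nat_lit 321) (@Lb.fp (nat_lit 9) t242))))))))))))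
noncomputable def l33205 : Lb := (@Lb.g g10 (@Lb.g g7 (@Lb.r r152 (@Lb.r r602 (@Lb.r r2651 (@Lb.r r2564 (@Lb.d (nat_lit 272) (nat_lit 328) (nat_lit 16) (@Lb.fp (nat_lit 3) t3589))))))))
noncomputable def l33206 : Lb := (@Lb.d (nat_lit 36) (nat_lit 292) (nat_lit 64) (@Lb.g g8 (@Lb.g g9 (@Lb.g g10 (@Lb.g g11 (@Lb.r r1379 (@Lb.r r1414 (@Lb.r r2073 (@Lb.r r1672 (@Lb.d (nat_lit 426) (nat_lit 20) (nat_lit 146) (@Lb.fp (nat_lit 9) t1846)))))))))))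
noncomputable def l33207 : Lb := (@Lb.r r323 (@Lb.d (nat_lit 0) (nat_lit 514) (nat_lit 1) (@Lb.g g9 (@Lb.g g6 (@Lb.r r2567 (@Lb.r r104 (@Lb.r r25 (@Lb.d (nat_lit 22) (nat_lit 129) (nat_lit 102) (@Lb.fp (nat_lit 3) t3908)))))))))
noncomputable def l33208 : Lb := (@Lb.d (nat_lit 0) (nat_lit 520) (nat_lit 130) (@Lb.g g10 (@Lb.g g11 (@Lb.r r387 (@Lb.r r101 (@Lb.d (nat_lit 410) (nat_lit 90) (nat_lit 536) (@Lb.fp (nat_lit 3) t1725)))))))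
noncomputable def l33209 : Lb := (@Lb.d (nat_lit 6) (nat_lit 342) (nat_lit 281) (@Lb.r r21 (@Lb.r r1366 (@Lb.g g7 (@Lb.g g6 (@Lb.g g5 (@Lb.g g4 (@Lb.d (nat_lit 1) (nat_lit 1) (nat_lit 70) (@Lb.fp (nat_lit 9) t148)))))))))
noncomputable def l33210 : Lb := (@Lb.r r402 (@Lb.r r101 (@Lb.d (nat_lit 520) (nat_lit 130) (nat_lit 512) (@Lb.fp (nat_lit 1) t1618))))
noncomputable def l33211 : Lb := (@Lb.d (nat_lit 660) (nat_lit 153) (nat_lit 512) (@Lb.r r1061 (@Lb.r r2136 (@Lb.r r322 (@Lb.r r1703 (@Lb.g g7 (@Lb.g g6 (@Lb.g g5 (@Lb.d (nat_lit 0) (nat_lit 5) (nat_lit 66) (@Lb.t (@Lb.fm (nat_lit 9) t5983)))))))))))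
noncomputable def l33212 : Lb := (@Lb.d (nat_lit 0) (nat_lit 0) (nat_lit 74) (@Lb.g g10 (@Lb.g g11 (@Lb.r r2707 (@Lb.r r1606 (@Lb.r r2069 (@Lb.r r8 (@Lb.d (nat_lit 37) (nat_lit 24) (nat_lit 409) (@Lb.fm (nat_lit 3) t2305)))))))))
noncomputable def l33213 : Lb := (@Lb.d (nat_lit 130) (nat_lit 70) (nat_lit 65) (@Lb.r r2452 (@Lb.r r2390 (@Lb.r r2707 (@Lb.r r2337 (@Lb.g g7 (@Lb.g g6 (@Lb.g g4 (@Lb.d (nat_lit 5) (nat_lit 16) (nat_lit 65) (@Lb.t (@Lb.fp (nat_lit 9) t3772)))))))))))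
noncomputable def l33214 : Lb := (@Lb.r r2661 (@Lb.r r402 (@Lb.r r1304 (@Lb.r r2663 (@Lb.d (nat_lit 512) (nat_lit 512) (nat_lit 85) (@Lb.fp (nat_lit 1) t2299))))))
noncomputable def l33215 : Lb := (@Lb.r r82 (@Lb.r r263 (@Lb.d (nat_lit 258) (nat_lit 258) (nat_lit 0) (@Lb.g g4 (@Lb.g g9 (@Lb.r r267 (@Lb.r r386 (@Lb.r r1061 (@Lb.d (nat_lit 297) (nat_lit 66) (nat_lit 546) (@Lb.fp (nat_lit 3) t5984))))))))))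
noncomputable def l33216 : Lb := (@Lb.d (nat_lit 32) (nat_lit 512) (nat_lit 2) (@Lb.g g9 (@Lb.g g10 (@Lb.g g11 (@Lb.r r2695 (@Lb.r r1352 (@Lb.r r2390 (@Lb.r r289 (@Lb.d (nat_lit 666) (nat_lit 73) (nat_lit 362) (@Lb.t (@Lb.fp (nat_lit 9) t242)))))))))))
noncomputable def l33217 : Lb := (@Lb.d (nat_lit 0) (nat_lit 0) (nat_lit 2) (@Lb.g g9 (@Lb.g g10 (@Lb.g g11 (@Lb.r r1703 (@Lb.r r2392 (@Lb.r r1190 (@Lb.r r1169 (@Lb.d (nat_lit 5) (nat_lit 72) (nat_lit 34) (@Lb.t (@Lb.fp (nat_lit 9) t51)))))))))))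
noncomputable def l33218 : Lb := (@Lb.d (nat_lit 0) (nat_lit 273) (nat_lit 642) (@Lb.r r2567 (@Lb.r r1300 (@Lb.r r105 (@Lb.g g10 (@Lb.g g4 (@Lb.d (nat_lit 18) (nat_lit 8) (nat_lit 16) (@Lb.r r387 (@Lb.r r145 (@Lb.fp (nat_lit 3) t536))))))))))
noncomputable def l33219 : Lb := (@Lb.d (nat_lit 0) (nat_lit 514) (nat_lit 66) (@Lb.g g8 (@Lb.g g9 (@Lb.g g10 (@Lb.g g7 (@Lb.r r386 (@Lb.r r97 (@Lb.d (nat_lit 0) (nat_lit 128) (nat_lit 10) (@Lb.fm (nat_lit 9) t126)))))))))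
noncomputable def l33220 : Lb := (@Lb.d (nat_lit 8) (nat_lit 10) (nat_lit 128) (@Lb.g g9 (@Lb.g g10 (@Lb.g g11 (@Lb.r r2727 (@Lb.r r1368 (@Lb.r r2198 (@Lb.r r337 (@Lb.d (nat_lit 582) (nat_lit 148) (nat_lit 646) (@Lb.t (@Lb.fp (nat_lit 9) t50)))))))))))
noncomputable def l33221 : Lb := (@Lb.d (nat_lit 34) (nat_lit 514) (nat_lit 0) (@Lb.g g8 (@Lb.g g9 (@Lb.r r515 (@Lb.r r361 (@Lb.r r150 (@Lb.r r612 (@Lb.d (nat_lit 154) (nat_lit 26) (nat_lit 0) (@Lb.fp (nat_lit 3) t242)))))))))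
noncomputable def l33222 : Lb := (@Lb.d (nat_lit 68) (nat_lit 673) (nat_lit 320) (@Lb.r r97 (@Lb.r r598 (@Lb.r r387 (@Lb.g g7 (@Lb.g g6 (@Lb.g g8 (@Lb.d (nat_lit 354) (nat_lit 0) (nat_lit 74) (@Lb.r r25 (@Lb.t (@Lb.fp (nat_lit 9) t1846)))))))))))
noncomputable def l33223 : Lb := (@Lb.r r21 (@Lb.d (nat_lit 33) (nat_lit 552) (nat_lit 97) (@Lb.g g8 (@Lb.g g6 (@Lb.g g11 (@Lb.r r2337 (@Lb.r r407 (@Lb.r r1608 (@Lb.d (nat_lit 154) (nat_lit 129) (nat_lit 280) (@Lb.t (@Lb.fp (nat_lit 9) t1849)))))))))))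
noncomputable def l33224 : Lb := (@Lb.r r82 (@Lb.d (nat_lit 137) (nat_lit 17) (nat_lit 128) (@Lb.g g8 (@Lb.g g9 (@Lb.g g11 (@Lb.r r2579 (@Lb.r r2201 (@Lb.r r342 (@Lb.r r648 (@Lb.d (nat_lit 257) (nat_lit 0) (nat_lit 642) (@Lb.t (@Lb.fm (nat_lit 9) t1846))))))))))))
noncomputable def l33225 : Lb := (@Lb.r r323 (@Lb.d (nat_lit 2) (nat_lit 33) (nat_lit 2) (@Lb.g g8 (@Lb.g g9 (@Lb.g g10 (@Lb.r r2647 (@Lb.r r74 (@Lb.r r1320 (@Lb.r r1433 (@Lb.d (nat_lit 664) (nat_lit 22) (nat_lit 681) (@Lb.t (@Lb.fm (nat_lit 9) t51))))))))))))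
noncomputable def l33226 : Lb := (@Lb.d (nat_lit 2) (nat_lit 513) (nat_lit 130) (@Lb.g g8 (@Lb.g g9 (@Lb.g g10 (@Lb.g g11 (@Lb.r r1451 (@Lb.r r1321 (@Lb.r r104 (@Lb.r r70 (@Lb.r r132 (@Lb.d (nat_lit 2) (nat_lit 74) (nat_lit 681) (@Lb.fp (nat_lit 9) t51))))))))))))
noncomputable def l33227 : Lb := (@Lb.d (nat_lit 292) (nat_lit 322) (nat_lit 2) (@Lb.r r1094 (@Lb.r r2440 (@Lb.r r1367 (@Lb.g g7 (@Lb.g g6 (@Lb.g g5 (@Lb.g g4 (@Lb.d (nat_lit 1) (nat_lit 129) (nat_lit 134) (@Lb.fm (nat_lit 9) t1161))))))))))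
noncomputable def l33228 : Lb := (@Lb.d (nat_lit 5) (nat_lit 146) (nat_lit 389) (@Lb.r r21 (@Lb.r r579 (@Lb.r r1366 (@Lb.g g7 (@Lb.g g6 (@Lb.g g5 (@Lb.g g4 (@Lb.d (nat_lit 1) (nat_lit 1) (nat_lit 134) (@Lb.fm (nat_lit 9) t40))))))))))
noncomputable def l33229 : Lb := (@Lb.d (nat_lit 1) (nat_lit 33) (nat_lit 145) (@Lb.g g8 (@Lb.g g9 (@Lb.g g10 (@Lb.g g11 (@Lb.r r548 (@Lb.r r423 (@Lb.r r1317 (@Lb.r r516 (@Lb.d (nat_lit 534) (nat_lit 8) (nat_lit 102) (@Lb.fm (nat_lit 9) t3240)))))))))))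
noncomputable def l33230 : Lb := (@Lb.d (nat_lit 0) (nat_lit 546) (nat_lit 0) (@Lb.g g9 (@Lb.r r663 (@Lb.r r134 (@Lb.r r2389 (@Lb.r r1096 (@Lb.d (nat_lit 10) (nat_lit 26) (nat_lit 537) (@Lb.t (@Lb.fm (nat_lit 3) t1155)))))))))
noncomputable def l33231 : Lb := (@Lb.r r134 (@Lb.r r1284 (@Lb.r r2651 (@Lb.r r289 (@Lb.d (nat_lit 321) (nat_lit 0) (nat_lit 528) (@Lb.fm (nat_lit 1) t4100))))))
noncomputable def l33232 : Lb := (@Lb.d (nat_lit 1) (nat_lit 2) (nat_lit 130) (@Lb.g g8 (@Lb.g g9 (@Lb.g g10 (@Lb.g g11 (@Lb.r r2691 (@Lb.r r149 (@Lb.r r598 (@Lb.r r2193 (@Lb.r r36 (@Lb.d (nat_lit 129) (nat_lit 0) (nat_lit 362) (@Lb.fm (nat_lit 9) t991))))))))))))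
noncomputable def l33233 : Lb := (@Lb.d (nat_lit 42) (nat_lit 512) (nat_lit 0) (@Lb.g g8 (@Lb.g g7 (@Lb.r r1126 (@Lb.r r2149 (@Lb.r r148 (@Lb.d (nat_lit 38) (nat_lit 10) (nat_lit 17) (@Lb.fm (nat_lit 3) t980))))))))
noncomputable def l33234 : Lb := (@Lb.r r82 (@Lb.d (nat_lit 132) (nat_lit 17) (nat_lit 128) (@Lb.g g8 (@Lb.g g9 (@Lb.g g11 (@Lb.r r1543 (@Lb.r r2630 (@Lb.r r1556 (@Lb.r r553 (@Lb.d (nat_lit 584) (nat_lit 18) (nat_lit 576) (@Lb.t (@Lb.fm (nat_lit 9) t2410))))))))))))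
noncomputable def l33235 : Lb := (@Lb.d (nat_lit 42) (nat_lit 0) (nat_lit 0) (@Lb.g g8 (@Lb.r r1126 (@Lb.r r2149 (@Lb.r r148 (@Lb.d (nat_lit 38) (nat_lit 10) (nat_lit 17) (@Lb.t (@Lb.fm (nat_lit 3) t980))))))))
noncomputable def l33236 : Lb := (@Lb.d (nat_lit 0) (nat_lit 2) (nat_lit 130) (@Lb.g g8 (@Lb.g g9 (@Lb.g g10 (@Lb.g g11 (@Lb.r r427 (@Lb.r r424 (@Lb.r r106 (@Lb.r r25 (@Lb.d (nat_lit 361) (nat_lit 2) (nat_lit 649) (@Lb.fm (nat_lit 9) t1306)))))))))))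
noncomputable def l33237 : Lb := (@Lb.g g7 (@Lb.r r1287 (@Lb.r r1094 (@Lb.r r1045 (@Lb.r r8 (@Lb.d (nat_lit 2) (nat_lit 256) (nat_lit 0) (@Lb.t (@Lb.fp (nat_lit 3) t284))))))))
noncomputable def l33238 : Lb := (@Lb.d (nat_lit 1) (nat_lit 256) (nat_lit 168) (@Lb.r r24 (@Lb.r r346 (@Lb.r r423 (@Lb.r r293 (@Lb.g g7 (@Lb.d (nat_lit 0) (nat_lit 16) (nat_lit 64) (@Lb.t (@Lb.fm (nat_lit 3) t50)))))))))
noncomputable def l33239 : Lb := (@Lb.d (nat_lit 2) (nat_lit 258) (nat_lit 74) (@Lb.g g8 (@Lb.g g9 (@Lb.g g10 (@Lb.g g11 (@Lb.r r1666 (@Lb.r r1431 (@Lb.r r2585 (@Lb.d (nat_lit 329) (nat_lit 42) (nat_lit 144) (@Lb.fm (nat_lit 9) t324))))))))))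
noncomputable def l33240 : Lb := (@Lb.r r355 (@Lb.d (nat_lit 2) (nat_lit 514) (nat_lit 18) (@Lb.g g8 (@Lb.g g9 (@Lb.g g6 (@Lb.r r1643 (@Lb.r r601 (@Lb.d (nat_lit 105) (nat_lit 170) (nat_lit 649) (@Lb.t (@Lb.fm (nat_lit 9) t1399))))))))))
noncomputable def l33241 : Lb := (@Lb.d (nat_lit 2) (nat_lit 258) (nat_lit 74) (@Lb.g g8 (@Lb.g g9 (@Lb.g g10 (@Lb.g g11 (@Lb.r r1666 (@Lb.r r2451 (@Lb.r r1553 (@Lb.d (nat_lit 2) (nat_lit 170) (nat_lit 400) (@Lb.fm (nat_lit 9) t324))))))))))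
noncomputable def l33242 : Lb := (@Lb.d (nat_lit 0) (nat_lit 70) (nat_lit 257) (@Lb.r r68 (@Lb.r r2375 (@Lb.r r602 (@Lb.r r584 (@Lb.g g5 (@Lb.d (nat_lit 0) (nat_lit 129) (nat_lit 0) (@Lb.t (@Lb.fp (nat_lit 3) t1470)))))))))
noncomputable def l33243 : Lb := (@Lb.d (nat_lit 129) (nat_lit 512) (nat_lit 72) (@Lb.g g8 (@Lb.g g11 (@Lb.r r1378 (@Lb.r r2401 (@Lb.r r411 (@Lb.r r264 (@Lb.d (nat_lit 614) (nat_lit 10) (nat_lit 417) (@Lb.fm (nat_lit 3) t1952)))))))))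
noncomputable def l33244 : Lb := (@Lb.d (nat_lit 0) (nat_lit 321) (nat_lit 640) (@Lb.r r289 (@Lb.r r279 (@Lb.r r584 (@Lb.r r2406 (@Lb.g g10 (@Lb.r r387 (@Lb.t (@Lb.fp (nat_lit 3) t1260)))))))))
noncomputable def l33245 : Lb := (@Lb.d (nat_lit 146) (nat_lit 521) (nat_lit 66) (@Lb.g g8 (@Lb.g g9 (@Lb.g g10 (@Lb.g g11 (@Lb.r r404 (@Lb.r r2395 (@Lb.r r2714 (@Lb.r r85 (@Lb.r r164 (@Lb.d (nat_lit 521) (nat_lit 104) (nat_lit 82) (@Lb.fm (nat_lit 9) t581))))))))))))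
noncomputable def l33246 : Lb := (@Lb.d (nat_lit 146) (nat_lit 258) (nat_lit 128) (@Lb.g g8 (@Lb.g g9 (@Lb.g g10 (@Lb.g g11 (@Lb.r r1706 (@Lb.r r1411 (@Lb.r r1188 (@Lb.r r37 (@Lb.d (nat_lit 354) (nat_lit 74) (nat_lit 665) (@Lb.fp (nat_lit 9) t283)))))))))))
noncomputable def l33247 : Lb := (@Lb.d (nat_lit 0) (nat_lit 33) (nat_lit 0) (@Lb.g g9 (@Lb.r r420 (@Lb.r r603 (@Lb.r r390 (@Lb.r r516 (@Lb.d (nat_lit 0) (nat_lit 89) (nat_lit 322) (@Lb.t (@Lb.fp (nat_lit 3) t845)))))))))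
noncomputable def l33248 : Lb := (@Lb.d (nat_lit 8) (nat_lit 545) (nat_lit 0) (@Lb.g g9 (@Lb.r r600 (@Lb.r r347 (@Lb.r r134 (@Lb.r r613 (@Lb.d (nat_lit 666) (nat_lit 21) (nat_lit 33) (@Lb.t (@Lb.fm (nat_lit 3) t40)))))))))
noncomputable def l33249 : Lb := (@Lb.r r70 (@Lb.r r263 (@Lb.d (nat_lit 10) (nat_lit 513) (nat_lit 0) (@Lb.g g8 (@Lb.g g9 (@Lb.r r299 (@Lb.r r106 (@Lb.r r36 (@Lb.r r37 (@Lb.d (nat_lit 10) (nat_lit 1) (nat_lit 0) (@Lb.fp (nat_lit 3) t321)))))))))))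
noncomputable def l33250 : Lb := (@Lb.d (nat_lit 0) (nat_lit 545) (nat_lit 0) (@Lb.g g9 (@Lb.r r420 (@Lb.r r603 (@Lb.r r390 (@Lb.r r516 (@Lb.d (nat_lit 0) (nat_lit 82) (nat_lit 320) (@Lb.t (@Lb.fp (nat_lit 3) t845)))))))))
noncomputable def l33251 : Lb := (@Lb.d (nat_lit 146) (nat_lit 520) (nat_lit 130) (@Lb.g g8 (@Lb.g g10 (@Lb.g g11 (@Lb.r r353 (@Lb.r r1691 (@Lb.r r644 (@Lb.r r2182 (@Lb.d (nat_lit 290) (nat_lit 64) (nat_lit 680) (@Lb.t (@Lb.fp (nat_lit 9) t3785)))))))))))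
noncomputable def l33252 : Lb := (@Lb.d (nat_lit 8) (nat_lit 513) (nat_lit 128) (@Lb.g g9 (@Lb.g g10 (@Lb.g g11 (@Lb.r r2727 (@Lb.r r1368 (@Lb.r r582 (@Lb.r r145 (@Lb.d (nat_lit 513) (nat_lit 0) (nat_lit 34) (@Lb.t (@Lb.fm (nat_lit 9) t386)))))))))))
noncomputable def l33253 : Lb := (@Lb.d (nat_lit 582) (nat_lit 550) (nat_lit 70) (@Lb.r r408 (@Lb.r r1106 (@Lb.r r1623 (@Lb.g g6 (@Lb.g g5 (@Lb.g g4 (@Lb.d (nat_lit 65) (nat_lit 129) (nat_lit 1) (@Lb.r r387 (@Lb.t (@Lb.fp (nat_lit 9) t242)))))))))))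
noncomputable def l33254 : Lb := (@Lb.d (nat_lit 32) (nat_lit 512) (nat_lit 130) (@Lb.g g10 (@Lb.g g11 (@Lb.r r407 (@Lb.r r612 (@Lb.r r682 (@Lb.r r529 (@Lb.d (nat_lit 26) (nat_lit 154) (nat_lit 256) (@Lb.fp (nat_lit 3) t119)))))))))
noncomputable def l33255 : Lb := (@Lb.d (nat_lit 32) (nat_lit 0) (nat_lit 130) (@Lb.g g10 (@Lb.g g11 (@Lb.r r407 (@Lb.r r612 (@Lb.r r682 (@Lb.r r529 (@Lb.d (nat_lit 26) (nat_lit 149) (nat_lit 258) (@Lb.fp (nat_lit 3) t119)))))))))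
noncomputable def l33256 : Lb := (@Lb.r r20 (@Lb.r r82 (@Lb.d (nat_lit 0) (nat_lit 258) (nat_lit 128) (@Lb.g g9 (@Lb.g g11 (@Lb.r r291 (@Lb.r r1618 (@Lb.r r293 (@Lb.d (nat_lit 640) (nat_lit 161) (nat_lit 128) (@Lb.fp (nat_lit 3) t495))))))))))
noncomputable def l33257 : Lb := (@Lb.r r82 (@Lb.d (nat_lit 136) (nat_lit 514) (nat_lit 392) (@Lb.g g9 (@Lb.g g11 (@Lb.r r148 (@Lb.r r598 (@Lb.r r1433 (@Lb.d (nat_lit 517) (nat_lit 152) (nat_lit 90) (@Lb.fm (nat_lit 3) t3303)))))))))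
noncomputable def l33258 : Lb := (@Lb.r r20 (@Lb.d (nat_lit 0) (nat_lit 516) (nat_lit 128) (@Lb.g g9 (@Lb.g g10 (@Lb.g g11 (@Lb.r r419 (@Lb.r r421 (@Lb.r r1126 (@Lb.d (nat_lit 580) (nat_lit 130) (nat_lit 666) (@Lb.t (@Lb.fp (nat_lit 9) t495)))))))))))
noncomputable def l33259 : Lb := (@Lb.r r70 (@Lb.r r263 (@Lb.d (nat_lit 8) (nat_lit 2) (nat_lit 0) (@Lb.g g8 (@Lb.g g9 (@Lb.r r1303 (@Lb.r r1110 (@Lb.r r41 (@Lb.r r1044 (@Lb.d (nat_lit 520) (nat_lit 130) (nat_lit 0) (@Lb.fp (nat_lit 3) t68)))))))))))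
noncomputable def l33260 : Lb := (@Lb.d (nat_lit 41) (nat_lit 616) (nat_lit 518) (@Lb.r r21 (@Lb.r r104 (@Lb.r r323 (@Lb.g g10 (@Lb.g g5 (@Lb.d (nat_lit 0) (nat_lit 1) (nat_lit 2) (@Lb.r r387 (@Lb.fm (nat_lit 3) t3053)))))))))
noncomputable def l33261 : Lb := (@Lb.d (nat_lit 17) (nat_lit 98) (nat_lit 518) (@Lb.r r169 (@Lb.r r100 (@Lb.r r323 (@Lb.g g10 (@Lb.g g5 (@Lb.d (nat_lit 4) (nat_lit 0) (nat_lit 2) (@Lb.r r387 (@Lb.fm (nat_lit 3) t3053)))))))))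
noncomputable def l33262 : Lb := (@Lb.d (nat_lit 0) (nat_lit 146) (nat_lit 86) (@Lb.r r418 (@Lb.r r2457 (@Lb.r r24 (@Lb.g g11 (@Lb.g g6 (@Lb.d (nat_lit 80) (nat_lit 0) (nat_lit 518) (@Lb.fp (nat_lit 3) t61))))))))
noncomputable def l33263 : Lb := (@Lb.d (nat_lit 85) (nat_lit 164) (nat_lit 682) (@Lb.r r330 (@Lb.r r72 (@Lb.r r539 (@Lb.g g6 (@Lb.g g9 (@Lb.d (nat_lit 24) (nat_lit 64) (nat_lit 1) (@Lb.r r36 (@Lb.fp (nat_lit 3) t1606)))))))))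
noncomputable def l33264 : Lb := (@Lb.d (nat_lit 0) (nat_lit 0) (nat_lit 130) (@Lb.g g9 (@Lb.g g10 (@Lb.g g11 (@Lb.r r642 (@Lb.r r387 (@Lb.d (nat_lit 0) (nat_lit 80) (nat_lit 325) (@Lb.t (@Lb.fp (nat_lit 9) t210)))))))))
noncomputable def l33265 : Lb := (@Lb.d (nat_lit 136) (nat_lit 8) (nat_lit 65) (@Lb.g g8 (@Lb.g g10 (@Lb.g g11 (@Lb.r r2129 (@Lb.r r678 (@Lb.r r1411 (@Lb.r r1284 (@Lb.d (nat_lit 329) (nat_lit 129) (nat_lit 153) (@Lb.t (@Lb.fp (nat_lit 9) t1952)))))))))))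
noncomputable def l33266 : Lb := (@Lb.r r21 (@Lb.d (nat_lit 128) (nat_lit 512) (nat_lit 130) (@Lb.g g8 (@Lb.g g10 (@Lb.g g11 (@Lb.r r1684 (@Lb.r r519 (@Lb.r r386 (@Lb.r r25 (@Lb.d (nat_lit 533) (nat_lit 9) (nat_lit 601) (@Lb.t (@Lb.fm (nat_lit 9) t855))))))))))))
noncomputable def l33267 : Lb := (@Lb.d (nat_lit 9) (nat_lit 1) (nat_lit 130) (@Lb.g g8 (@Lb.g g9 (@Lb.g g10 (@Lb.g g11 (@Lb.r r1419 (@Lb.r r386 (@Lb.r r1129 (@Lb.r r1124 (@Lb.d (nat_lit 673) (nat_lit 154) (nat_lit 84) (@Lb.fp (nat_lit 9) t714)))))))))))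
noncomputable def l33268 : Lb := (@Lb.d (nat_lit 0) (nat_lit 520) (nat_lit 73) (@Lb.g g9 (@Lb.g g10 (@Lb.g g11 (@Lb.r r2451 (@Lb.r r1188 (@Lb.r r1686 (@Lb.r r1681 (@Lb.d (nat_lit 36) (nat_lit 24) (nat_lit 513) (@Lb.t (@Lb.fp (nat_lit 9) t5579)))))))))))
noncomputable def l33269 : Lb := (@Lb.r r355 (@Lb.d (nat_lit 2) (nat_lit 257) (nat_lit 18) (@Lb.g g8 (@Lb.g g9 (@Lb.g g6 (@Lb.r r2667 (@Lb.r r1625 (@Lb.d (nat_lit 617) (nat_lit 42) (nat_lit 409) (@Lb.t (@Lb.fm (nat_lit 9) t1399))))))))))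
noncomputable def l33270 : Lb := (@Lb.r r323 (@Lb.d (nat_lit 2) (nat_lit 516) (nat_lit 2) (@Lb.g g8 (@Lb.g g6 (@Lb.r r1643 (@Lb.r r2145 (@Lb.r r24 (@Lb.d (nat_lit 261) (nat_lit 130) (nat_lit 129) (@Lb.fm (nat_lit 3) t5985)))))))))
noncomputable def l33271 : Lb := (@Lb.d (nat_lit 144) (nat_lit 32) (nat_lit 645) (@Lb.g g8 (@Lb.g g10 (@Lb.g g11 (@Lb.r r1109 (@Lb.r r1188 (@Lb.r r614 (@Lb.d (nat_lit 656) (nat_lit 149) (nat_lit 89) (@Lb.t (@Lb.fm (nat_lit 9) t5986))))))))))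
noncomputable def l33272 : Lb := (@Lb.d (nat_lit 2) (nat_lit 512) (nat_lit 64) (@Lb.g g8 (@Lb.g g10 (@Lb.g g7 (@Lb.r r402 (@Lb.r r2145 (@Lb.r r24 (@Lb.d (nat_lit 325) (nat_lit 33) (nat_lit 320) (@Lb.t (@Lb.fm (nat_lit 9) t5077))))))))))
noncomputable def l33273 : Lb := (@Lb.d (nat_lit 2) (nat_lit 256) (nat_lit 64) (@Lb.g g8 (@Lb.g g10 (@Lb.g g11 (@Lb.r r1543 (@Lb.r r402 (@Lb.r r2145 (@Lb.r r24 (@Lb.d (nat_lit 641) (nat_lit 18) (nat_lit 128) (@Lb.t (@Lb.fm (nat_lit 9) t2257)))))))))))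
noncomputable def l33274 : Lb := (@Lb.d (nat_lit 2) (nat_lit 0) (nat_lit 64) (@Lb.g g8 (@Lb.g g10 (@Lb.g g11 (@Lb.r r1543 (@Lb.r r402 (@Lb.r r2145 (@Lb.r r24 (@Lb.d (nat_lit 650) (nat_lit 146) (nat_lit 128) (@Lb.t (@Lb.fm (nat_lit 9) t5987)))))))))))
noncomputable def l33275 : Lb := (@Lb.d (nat_lit 152) (nat_lit 256) (nat_lit 386) (@Lb.g g8 (@Lb.g g10 (@Lb.g g11 (@Lb.r r657 (@Lb.r r1178 (@Lb.r r388 (@Lb.d (nat_lit 132) (nat_lit 169) (nat_lit 354) (@Lb.t (@Lb.fp (nat_lit 9) t3299))))))))))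
noncomputable def l33276 : Lb := (@Lb.d (nat_lit 144) (nat_lit 642) (nat_lit 133) (@Lb.g g8 (@Lb.g g9 (@Lb.g g10 (@Lb.g g11 (@Lb.r r1451 (@Lb.r r1188 (@Lb.r r614 (@Lb.d (nat_lit 89) (nat_lit 25) (nat_lit 90) (@Lb.fp (nat_lit 9) t5988))))))))))
noncomputable def l33277 : Lb := (@Lb.d (nat_lit 130) (nat_lit 514) (nat_lit 66) (@Lb.g g8 (@Lb.g g9 (@Lb.g g10 (@Lb.g g11 (@Lb.r r427 (@Lb.r r426 (@Lb.r r420 (@Lb.r r2453 (@Lb.r r36 (@Lb.d (nat_lit 617) (nat_lit 133) (nat_lit 2) (@Lb.fm (nat_lit 9) t3165))))))))))))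
noncomputable def l33278 : Lb := (@Lb.d (nat_lit 0) (nat_lit 513) (nat_lit 410) (@Lb.r r2438 (@Lb.r r1112 (@Lb.g g7 (@Lb.g g5 (@Lb.d (nat_lit 4) (nat_lit 128) (nat_lit 576) (@Lb.r r98 (@Lb.r r292 (@Lb.fm (nat_lit 3) t3018)))))))))
noncomputable def l33279 : Lb := (@Lb.r r21 (@Lb.d (nat_lit 650) (nat_lit 256) (nat_lit 66) (@Lb.g g8 (@Lb.g g10 (@Lb.g g11 (@Lb.r r2443 (@Lb.r r90 (@Lb.r r37 (@Lb.d (nat_lit 153) (nat_lit 21) (nat_lit 665) (@Lb.t (@Lb.fp (nat_lit 9) t842)))))))))))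
noncomputable def l33280 : Lb := (@Lb.d (nat_lit 0) (nat_lit 256) (nat_lit 130) (@Lb.g g9 (@Lb.g g10 (@Lb.g g11 (@Lb.r r586 (@Lb.r r584 (@Lb.r r299 (@Lb.r r1425 (@Lb.d (nat_lit 293) (nat_lit 138) (nat_lit 2) (@Lb.t (@Lb.fp (nat_lit 9) t410)))))))))))
noncomputable def l33281 : Lb := (@Lb.r r70 (@Lb.d (nat_lit 8) (nat_lit 2) (nat_lit 0) (@Lb.g g8 (@Lb.g g9 (@Lb.r r1122 (@Lb.r r1044 (@Lb.d (nat_lit 257) (nat_lit 2) (nat_lit 0) (@Lb.fm (nat_lit 3) t3197))))))))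
noncomputable def l33282 : Lb := (@Lb.g g8 (@Lb.r r2145 (@Lb.r r402 (@Lb.r r2436 (@Lb.d (nat_lit 0) (nat_lit 0) (nat_lit 85) (@Lb.t (@Lb.fp (nat_lit 3) t590)))))))
noncomputable def l33283 : Lb := (@Lb.d (nat_lit 82) (nat_lit 344) (nat_lit 585) (@Lb.r r2122 (@Lb.r r2152 (@Lb.r r1641 (@Lb.r r1699 (@Lb.g g7 (@Lb.g g6 (@Lb.g g5 (@Lb.d (nat_lit 0) (nat_lit 6) (nat_lit 132) (@Lb.t (@Lb.fm (nat_lit 9) t5989)))))))))))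
noncomputable def l33284 : Lb := (@Lb.d (nat_lit 338) (nat_lit 322) (nat_lit 336) (@Lb.r r2308 (@Lb.r r2321 (@Lb.r r291 (@Lb.r r405 (@Lb.g g7 (@Lb.g g10 (@Lb.g g5 (@Lb.g g4 (@Lb.d (nat_lit 25) (nat_lit 10) (nat_lit 6) (@Lb.fm (nat_lit 9) t494)))))))))))
noncomputable def l33285 : Lb := (@Lb.d (nat_lit 2) (nat_lit 256) (nat_lit 73) (@Lb.g g8 (@Lb.g g9 (@Lb.g g10 (@Lb.g g11 (@Lb.r r586 (@Lb.r r2712 (@Lb.r r1445 (@Lb.r r1627 (@Lb.d (nat_lit 4) (nat_lit 160) (nat_lit 614) (@Lb.fm (nat_lit 9) t5990)))))))))))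
noncomputable def l33286 : Lb := (@Lb.d (nat_lit 513) (nat_lit 256) (nat_lit 18) (@Lb.r r24 (@Lb.r r101 (@Lb.r r2659 (@Lb.r r322 (@Lb.g g10 (@Lb.r r387 (@Lb.t (@Lb.fm (nat_lit 3) t868)))))))))
noncomputable def l33287 : Lb := (@Lb.g g11 (@Lb.r r1094 (@Lb.r r1288 (@Lb.r r2439 (@Lb.r r1425 (@Lb.d (nat_lit 2) (nat_lit 256) (nat_lit 85) (@Lb.t (@Lb.fm (nat_lit 3) t2281))))))))
noncomputable def l33288 : Lb := (@Lb.r r24 (@Lb.r r2085 (@Lb.r r1122 (@Lb.r r1315 (@Lb.g g9 (@Lb.g g4 (@Lb.fp (nat_lit 3) t594)))))))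
noncomputable def l33289 : Lb := (@Lb.d (nat_lit 0) (nat_lit 2) (nat_lit 130) (@Lb.g g8 (@Lb.g g9 (@Lb.g g10 (@Lb.g g11 (@Lb.r r427 (@Lb.r r424 (@Lb.r r106 (@Lb.r r25 (@Lb.d (nat_lit 514) (nat_lit 0) (nat_lit 34) (@Lb.fm (nat_lit 9) t1231)))))))))))
noncomputable def l33290 : Lb := (@Lb.r r323 (@Lb.d (nat_lit 2) (nat_lit 265) (nat_lit 0) (@Lb.g g8 (@Lb.g g9 (@Lb.g g6 (@Lb.r r387 (@Lb.r r97 (@Lb.d (nat_lit 2) (nat_lit 138) (nat_lit 2) (@Lb.t (@Lb.fm (nat_lit 9) t144))))))))))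
noncomputable def l33291 : Lb := (@Lb.r r323 (@Lb.d (nat_lit 2) (nat_lit 265) (nat_lit 10) (@Lb.g g8 (@Lb.g g9 (@Lb.g g10 (@Lb.r r2347 (@Lb.r r1449 (@Lb.r r2466 (@Lb.d (nat_lit 289) (nat_lit 168) (nat_lit 665) (@Lb.t (@Lb.fm (nat_lit 9) t594)))))))))))
noncomputable def l33292 : Lb := (@Lb.g g5 (@Lb.r r2311 (@Lb.r r2118 (@Lb.r r24 (@Lb.r r2085 (@Lb.d (nat_lit 5) (nat_lit 513) (nat_lit 0) (@Lb.t (@Lb.fm (nat_lit 3) t51))))))))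
noncomputable def l33293 : Lb := (@Lb.d (nat_lit 32) (nat_lit 9) (nat_lit 0) (@Lb.g g8 (@Lb.g g9 (@Lb.r r2439 (@Lb.r r390 (@Lb.r r2644 (@Lb.r r25 (@Lb.d (nat_lit 521) (nat_lit 165) (nat_lit 256) (@Lb.fp (nat_lit 3) t386)))))))))
noncomputable def l33294 : Lb := (@Lb.d (nat_lit 162) (nat_lit 266) (nat_lit 0) (@Lb.g g8 (@Lb.g g9 (@Lb.r r391 (@Lb.r r594 (@Lb.r r2725 (@Lb.r r2580 (@Lb.d (nat_lit 37) (nat_lit 162) (nat_lit 674) (@Lb.fp (nat_lit 3) t2)))))))))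
noncomputable def l33295 : Lb := (@Lb.r r82 (@Lb.d (nat_lit 133) (nat_lit 290) (nat_lit 64) (@Lb.g g8 (@Lb.g g9 (@Lb.g g11 (@Lb.r r539 (@Lb.r r617 (@Lb.r r1174 (@Lb.r r2120 (@Lb.d (nat_lit 656) (nat_lit 0) (nat_lit 596) (@Lb.t (@Lb.fm (nat_lit 9) t2343))))))))))))
noncomputable def l33296 : Lb := (@Lb.d (nat_lit 10) (nat_lit 256) (nat_lit 0) (@Lb.g g8 (@Lb.r r421 (@Lb.r r2470 (@Lb.r r2395 (@Lb.r r1112 (@Lb.d (nat_lit 42) (nat_lit 4) (nat_lit 594) (@Lb.t (@Lb.fm (nat_lit 3) t1639)))))))))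
noncomputable def l33297 : Lb := (@Lb.r r82 (@Lb.d (nat_lit 33) (nat_lit 529) (nat_lit 0) (@Lb.g g8 (@Lb.g g9 (@Lb.g g11 (@Lb.r r663 (@Lb.r r582 (@Lb.r r549 (@Lb.r r408 (@Lb.d (nat_lit 169) (nat_lit 26) (nat_lit 153) (@Lb.t (@Lb.fp (nat_lit 9) t573))))))))))))
noncomputable def l33298 : Lb := (@Lb.r r323 (@Lb.d (nat_lit 6) (nat_lit 0) (nat_lit 2) (@Lb.g g8 (@Lb.g g9 (@Lb.g g10 (@Lb.r r1623 (@Lb.r r2154 (@Lb.r r104 (@Lb.r r25 (@Lb.d (nat_lit 514) (nat_lit 0) (nat_lit 137) (@Lb.t (@Lb.fm (nat_lit 9) t61))))))))))))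
noncomputable def l33299 : Lb := (@Lb.d (nat_lit 16) (nat_lit 0) (nat_lit 168) (@Lb.r r68 (@Lb.r r90 (@Lb.r r667 (@Lb.g g9 (@Lb.g g4 (@Lb.d (nat_lit 22) (nat_lit 6) (nat_lit 0) (@Lb.r r291 (@Lb.r r98 (@Lb.fm (nat_lit 3) t61))))))))))
noncomputable def l33300 : Lb := (@Lb.d (nat_lit 2) (nat_lit 34) (nat_lit 130) (@Lb.g g8 (@Lb.g g9 (@Lb.g g10 (@Lb.g g11 (@Lb.r r419 (@Lb.r r2154 (@Lb.r r2073 (@Lb.d (nat_lit 104) (nat_lit 137) (nat_lit 425) (@Lb.fp (nat_lit 9) t1884))))))))))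
noncomputable def l33301 : Lb := (@Lb.r r323 (@Lb.d (nat_lit 0) (nat_lit 680) (nat_lit 1) (@Lb.g g5 (@Lb.g g10 (@Lb.r r1379 (@Lb.r r2194 (@Lb.d (nat_lit 0) (nat_lit 22) (nat_lit 97) (@Lb.fm (nat_lit 3) t144))))))))
noncomputable def l33302 : Lb := (@Lb.r r275 (@Lb.d (nat_lit 132) (nat_lit 10) (nat_lit 1) (@Lb.g g8 (@Lb.g g9 (@Lb.g g10 (@Lb.r r599 (@Lb.r r98 (@Lb.r r2725 (@Lb.r r1432 (@Lb.d (nat_lit 681) (nat_lit 80) (nat_lit 274) (@Lb.t (@Lb.fp (nat_lit 9) t1665))))))))))))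
noncomputable def l33303 : Lb := (@Lb.r r70 (@Lb.r r275 (@Lb.d (nat_lit 2) (nat_lit 137) (nat_lit 0) (@Lb.g g8 (@Lb.g g5 (@Lb.r r419 (@Lb.r r2146 (@Lb.r r72 (@Lb.d (nat_lit 34) (nat_lit 8) (nat_lit 96) (@Lb.fm (nat_lit 3) t5991))))))))))
noncomputable def l33304 : Lb := (@Lb.d (nat_lit 0) (nat_lit 520) (nat_lit 1) (@Lb.g g10 (@Lb.r r357 (@Lb.r r2650 (@Lb.d (nat_lit 165) (nat_lit 149) (nat_lit 618) (@Lb.t (@Lb.fm (nat_lit 3) t5992)))))))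
noncomputable def l33305 : Lb := (@Lb.d (nat_lit 650) (nat_lit 90) (nat_lit 101) (@Lb.r r1429 (@Lb.r r1362 (@Lb.r r675 (@Lb.g g6 (@Lb.g g5 (@Lb.g g4 (@Lb.d (nat_lit 8) (nat_lit 8) (nat_lit 0) (@Lb.t (@Lb.fm (nat_lit 9) t5993))))))))))
noncomputable def l33306 : Lb := (@Lb.d (nat_lit 640) (nat_lit 289) (nat_lit 0) (@Lb.g g4 (@Lb.g g9 (@Lb.r r2579 (@Lb.r r2178 (@Lb.r r409 (@Lb.d (nat_lit 150) (nat_lit 84) (nat_lit 345) (@Lb.fp (nat_lit 3) t1282))))))))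
noncomputable def l33307 : Lb := (@Lb.d (nat_lit 0) (nat_lit 512) (nat_lit 130) (@Lb.g g10 (@Lb.g g11 (@Lb.r r2443 (@Lb.r r597 (@Lb.r r98 (@Lb.r r2436 (@Lb.d (nat_lit 600) (nat_lit 2) (nat_lit 553) (@Lb.fm (nat_lit 3) t5182)))))))))
noncomputable def l33308 : Lb := (@Lb.d (nat_lit 0) (nat_lit 256) (nat_lit 130) (@Lb.g g4 (@Lb.g g10 (@Lb.g g11 (@Lb.r r419 (@Lb.r r386 (@Lb.d (nat_lit 6) (nat_lit 41) (nat_lit 130) (@Lb.t (@Lb.fm (nat_lit 9) t51)))))))))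
noncomputable def l33309 : Lb := (@Lb.d (nat_lit 136) (nat_lit 258) (nat_lit 128) (@Lb.g g9 (@Lb.g g11 (@Lb.r r264 (@Lb.r r1367 (@Lb.r r2178 (@Lb.r r1633 (@Lb.d (nat_lit 538) (nat_lit 22) (nat_lit 281) (@Lb.fp (nat_lit 3) t5994)))))))))
noncomputable def l33310 : Lb := (@Lb.d (nat_lit 512) (nat_lit 130) (nat_lit 0) (@Lb.r r1288 (@Lb.r r82 (@Lb.r r2327 (@Lb.g g9 (@Lb.d (nat_lit 0) (nat_lit 82) (nat_lit 0) (@Lb.r r98 (@Lb.r r36 (@Lb.t (@Lb.fm (nat_lit 3) t2957))))))))))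
noncomputable def l33311 : Lb := (@Lb.d (nat_lit 128) (nat_lit 265) (nat_lit 72) (@Lb.g g8 (@Lb.g g9 (@Lb.g g10 (@Lb.g g11 (@Lb.r r1689 (@Lb.r r1688 (@Lb.r r395 (@Lb.r r2458 (@Lb.d (nat_lit 408) (nat_lit 66) (nat_lit 104) (@Lb.fp (nat_lit 9) t2017)))))))))))
noncomputable def l33312 : Lb := (@Lb.r r21 (@Lb.r r70 (@Lb.r r263 (@Lb.d (nat_lit 6) (nat_lit 256) (nat_lit 0) (@Lb.g g8 (@Lb.r r1561 (@Lb.r r279 (@Lb.r r584 (@Lb.r r2182 (@Lb.d (nat_lit 2) (nat_lit 0) (nat_lit 356) (@Lb.t (@Lb.fp (nat_lit 3) t123))))))))))))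
noncomputable def l33313 : Lb := (@Lb.d (nat_lit 33) (nat_lit 2) (nat_lit 130) (@Lb.g g8 (@Lb.g g9 (@Lb.g g10 (@Lb.g g11 (@Lb.r r1433 (@Lb.r r2407 (@Lb.r r678 (@Lb.r r2180 (@Lb.d (nat_lit 138) (nat_lit 165) (nat_lit 680) (@Lb.fm (nat_lit 9) t5995)))))))))))
noncomputable def l33314 : Lb := (@Lb.d (nat_lit 0) (nat_lit 6) (nat_lit 128) (@Lb.g g9 (@Lb.g g10 (@Lb.g g11 (@Lb.r r2713 (@Lb.r r2714 (@Lb.r r1419 (@Lb.r r1416 (@Lb.d (nat_lit 274) (nat_lit 102) (nat_lit 153) (@Lb.t (@Lb.fm (nat_lit 9) t5996)))))))))))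
noncomputable def l33315 : Lb := (@Lb.r r263 (@Lb.d (nat_lit 9) (nat_lit 262) (nat_lit 0) (@Lb.g g8 (@Lb.g g9 (@Lb.g g10 (@Lb.r r1691 (@Lb.r r386 (@Lb.r r2577 (@Lb.r r1128 (@Lb.d (nat_lit 40) (nat_lit 36) (nat_lit 417) (@Lb.t (@Lb.fp (nat_lit 9) t5997))))))))))))
noncomputable def l33316 : Lb := (@Lb.r r21 (@Lb.r r70 (@Lb.d (nat_lit 656) (nat_lit 544) (nat_lit 128) (@Lb.g g4 (@Lb.g g11 (@Lb.r r345 (@Lb.r r679 (@Lb.r r2182 (@Lb.d (nat_lit 1) (nat_lit 88) (nat_lit 530) (@Lb.fp (nat_lit 3) t2165))))))))))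
noncomputable def l33317 : Lb := (@Lb.d (nat_lit 257) (nat_lit 657) (nat_lit 148) (@Lb.r r260 (@Lb.r r1291 (@Lb.r r296 (@Lb.r r1129 (@Lb.g g7 (@Lb.g g10 (@Lb.g g5 (@Lb.g g4 (@Lb.d (nat_lit 102) (nat_lit 38) (nat_lit 66) (@Lb.fm (nat_lit 9) t2164)))))))))))
noncomputable def l33318 : Lb := (@Lb.d (nat_lit 0) (nat_lit 289) (nat_lit 130) (@Lb.g g9 (@Lb.g g10 (@Lb.g g11 (@Lb.r r679 (@Lb.r r610 (@Lb.r r529 (@Lb.r r24 (@Lb.d (nat_lit 149) (nat_lit 134) (nat_lit 129) (@Lb.t (@Lb.fm (nat_lit 9) t101)))))))))))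
noncomputable def l33319 : Lb := (@Lb.d (nat_lit 256) (nat_lit 256) (nat_lit 101) (@Lb.r r2663 (@Lb.r r1300 (@Lb.r r402 (@Lb.r r2665 (@Lb.g g4 (@Lb.d (nat_lit 1) (nat_lit 0) (nat_lit 0) (@Lb.t (@Lb.fp (nat_lit 3) t149)))))))))
noncomputable def l33320 : Lb := (@Lb.d (nat_lit 0) (nat_lit 8) (nat_lit 130) (@Lb.g g9 (@Lb.g g10 (@Lb.g g11 (@Lb.r r1699 (@Lb.r r610 (@Lb.r r1561 (@Lb.r r24 (@Lb.d (nat_lit 102) (nat_lit 81) (nat_lit 657) (@Lb.t (@Lb.fm (nat_lit 9) t4375)))))))))))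
noncomputable def l33321 : Lb := (@Lb.d (nat_lit 2) (nat_lit 34) (nat_lit 1) (@Lb.g g8 (@Lb.g g9 (@Lb.g g10 (@Lb.r r599 (@Lb.r r74 (@Lb.r r664 (@Lb.r r421 (@Lb.d (nat_lit 106) (nat_lit 129) (nat_lit 137) (@Lb.t (@Lb.fp (nat_lit 9) t119)))))))))))
noncomputable def l33322 : Lb := (@Lb.r r21 (@Lb.d (nat_lit 41) (nat_lit 0) (nat_lit 8) (@Lb.g g8 (@Lb.g g6 (@Lb.r r273 (@Lb.r r423 (@Lb.r r600 (@Lb.d (nat_lit 362) (nat_lit 38) (nat_lit 168) (@Lb.fm (nat_lit 3) t1237)))))))))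
noncomputable def l33323 : Lb := (@Lb.d (nat_lit 2) (nat_lit 2) (nat_lit 73) (@Lb.g g8 (@Lb.g g9 (@Lb.g g10 (@Lb.g g11 (@Lb.r r2595 (@Lb.r r386 (@Lb.r r36 (@Lb.r r149 (@Lb.r r1060 (@Lb.d (nat_lit 129) (nat_lit 10) (nat_lit 341) (@Lb.fp (nat_lit 9) t61))))))))))))
noncomputable def l33324 : Lb := (@Lb.d (nat_lit 2) (nat_lit 258) (nat_lit 73) (@Lb.g g8 (@Lb.g g9 (@Lb.g g10 (@Lb.g g11 (@Lb.r r2595 (@Lb.r r386 (@Lb.r r36 (@Lb.r r149 (@Lb.r r1060 (@Lb.d (nat_lit 129) (nat_lit 10) (nat_lit 272) (@Lb.fp (nat_lit 9) t61))))))))))))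
noncomputable def l33325 : Lb := (@Lb.d (nat_lit 134) (nat_lit 536) (nat_lit 1) (@Lb.g g8 (@Lb.g g9 (@Lb.g g10 (@Lb.g g11 (@Lb.r r683 (@Lb.r r665 (@Lb.r r146 (@Lb.r r1636 (@Lb.d (nat_lit 666) (nat_lit 148) (nat_lit 649) (@Lb.fp (nat_lit 9) t3617)))))))))))
noncomputable def l33326 : Lb := (@Lb.r r273 (@Lb.d (nat_lit 0) (nat_lit 512) (nat_lit 649) (@Lb.g g10 (@Lb.g g11 (@Lb.r r610 (@Lb.r r613 (@Lb.r r24 (@Lb.d (nat_lit 2) (nat_lit 0) (nat_lit 325) (@Lb.fm (nat_lit 3) t998)))))))))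
noncomputable def l33327 : Lb := (@Lb.r r70 (@Lb.d (nat_lit 162) (nat_lit 66) (nat_lit 128) (@Lb.g g8 (@Lb.g g9 (@Lb.g g11 (@Lb.r r2411 (@Lb.r r2198 (@Lb.r r2120 (@Lb.d (nat_lit 86) (nat_lit 128) (nat_lit 40) (@Lb.t (@Lb.fm (nat_lit 9) t5347)))))))))))
noncomputable def l33328 : Lb := (@Lb.r r322 (@Lb.d (nat_lit 0) (nat_lit 593) (nat_lit 648) (@Lb.g g5 (@Lb.g g7 (@Lb.r r1638 (@Lb.r r24 (@Lb.d (nat_lit 522) (nat_lit 5) (nat_lit 133) (@Lb.fp (nat_lit 3) t3439))))))))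
noncomputable def l33329 : Lb := (@Lb.r r70 (@Lb.r r263 (@Lb.d (nat_lit 0) (nat_lit 322) (nat_lit 0) (@Lb.g g8 (@Lb.g g9 (@Lb.r r2347 (@Lb.r r2442 (@Lb.r r1444 (@Lb.d (nat_lit 610) (nat_lit 102) (nat_lit 256) (@Lb.fp (nat_lit 3) t3081))))))))))
noncomputable def l33330 : Lb := (@Lb.d (nat_lit 128) (nat_lit 32) (nat_lit 136) (@Lb.g g11 (@Lb.r r420 (@Lb.r r2469 (@Lb.r r1446 (@Lb.r r1367 (@Lb.d (nat_lit 612) (nat_lit 86) (nat_lit 390) (@Lb.t (@Lb.fp (nat_lit 3) t2418)))))))))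
noncomputable def l33331 : Lb := (@Lb.r r273 (@Lb.d (nat_lit 0) (nat_lit 512) (nat_lit 514) (@Lb.g g10 (@Lb.g g7 (@Lb.r r386 (@Lb.r r1169 (@Lb.d (nat_lit 0) (nat_lit 0) (nat_lit 25) (@Lb.fm (nat_lit 3) t144))))))))
noncomputable def l33332 : Lb := (@Lb.d (nat_lit 90) (nat_lit 516) (nat_lit 66) (@Lb.r r361 (@Lb.r r386 (@Lb.r r343 (@Lb.g g7 (@Lb.g g6 (@Lb.g g5 (@Lb.g g4 (@Lb.d (nat_lit 1) (nat_lit 18) (nat_lit 65) (@Lb.fp (nat_lit 9) t261))))))))))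
noncomputable def l33333 : Lb := (@Lb.r r82 (@Lb.d (nat_lit 2) (nat_lit 2) (nat_lit 128) (@Lb.g g8 (@Lb.g g9 (@Lb.g g11 (@Lb.r r299 (@Lb.r r1416 (@Lb.r r1098 (@Lb.d (nat_lit 8) (nat_lit 65) (nat_lit 169) (@Lb.t (@Lb.fp (nat_lit 9) t31)))))))))))
noncomputable def l33334 : Lb := (@Lb.d (nat_lit 18) (nat_lit 17) (nat_lit 134) (@Lb.r r386 (@Lb.r r531 (@Lb.r r341 (@Lb.g g7 (@Lb.g g6 (@Lb.g g5 (@Lb.g g4 (@Lb.d (nat_lit 1) (nat_lit 17) (nat_lit 65) (@Lb.fp (nat_lit 9) t259))))))))))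
noncomputable def l33335 : Lb := (@Lb.d (nat_lit 22) (nat_lit 513) (nat_lit 1) (@Lb.r r289 (@Lb.r r70 (@Lb.r r420 (@Lb.r r347 (@Lb.g g7 (@Lb.g g6 (@Lb.d (nat_lit 16) (nat_lit 0) (nat_lit 65) (@Lb.fp (nat_lit 3) t68)))))))))
noncomputable def l33336 : Lb := (@Lb.d (nat_lit 2) (nat_lit 1) (nat_lit 1) (@Lb.r r289 (@Lb.r r279 (@Lb.r r584 (@Lb.g g6 (@Lb.d (nat_lit 16) (nat_lit 0) (nat_lit 1) (@Lb.r r387 (@Lb.t (@Lb.fm (nat_lit 3) t68)))))))))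
noncomputable def l33337 : Lb := (@Lb.r r82 (@Lb.r r275 (@Lb.d (nat_lit 5) (nat_lit 552) (nat_lit 0) (@Lb.g g4 (@Lb.g g9 (@Lb.r r411 (@Lb.r r402 (@Lb.r r601 (@Lb.d (nat_lit 169) (nat_lit 38) (nat_lit 138) (@Lb.fm (nat_lit 3) t50))))))))))
noncomputable def l33338 : Lb := (@Lb.d (nat_lit 2) (nat_lit 329) (nat_lit 129) (@Lb.g g8 (@Lb.g g9 (@Lb.g g10 (@Lb.g g11 (@Lb.r r2475 (@Lb.r r2442 (@Lb.r r2436 (@Lb.d (nat_lit 661) (nat_lit 9) (nat_lit 393) (@Lb.fm (nat_lit 9) t981))))))))))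
noncomputable def l33339 : Lb := (@Lb.d (nat_lit 0) (nat_lit 257) (nat_lit 128) (@Lb.g g8 (@Lb.g g9 (@Lb.g g11 (@Lb.r r1379 (@Lb.r r1414 (@Lb.r r2660 (@Lb.r r2581 (@Lb.d (nat_lit 385) (nat_lit 16) (nat_lit 576) (@Lb.t (@Lb.fp (nat_lit 9) t331)))))))))))
noncomputable def l33340 : Lb := (@Lb.r r21 (@Lb.r r263 (@Lb.d (nat_lit 356) (nat_lit 0) (nat_lit 1) (@Lb.g g4 (@Lb.g g10 (@Lb.r r1559 (@Lb.r r418 (@Lb.r r97 (@Lb.d (nat_lit 1) (nat_lit 104) (nat_lit 320) (@Lb.fm (nat_lit 3) t1700))))))))))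
noncomputable def l33341 : Lb := (@Lb.d (nat_lit 2) (nat_lit 585) (nat_lit 129) (@Lb.g g8 (@Lb.g g9 (@Lb.g g10 (@Lb.g g11 (@Lb.r r2475 (@Lb.r r2442 (@Lb.r r2436 (@Lb.d (nat_lit 656) (nat_lit 8) (nat_lit 393) (@Lb.fm (nat_lit 9) t3577))))))))))
noncomputable def l33342 : Lb := (@Lb.d (nat_lit 0) (nat_lit 256) (nat_lit 73) (@Lb.g g10 (@Lb.g g11 (@Lb.r r1671 (@Lb.r r1638 (@Lb.d (nat_lit 150) (nat_lit 160) (nat_lit 664) (@Lb.fp (nat_lit 3) t461)))))))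
noncomputable def l33343 : Lb := (@Lb.d (nat_lit 32) (nat_lit 329) (nat_lit 129) (@Lb.g g9 (@Lb.g g10 (@Lb.g g11 (@Lb.r r299 (@Lb.r r68 (@Lb.r r394 (@Lb.d (nat_lit 260) (nat_lit 9) (nat_lit 681) (@Lb.t (@Lb.fp (nat_lit 9) t3278))))))))))
noncomputable def l33344 : Lb := (@Lb.r r82 (@Lb.d (nat_lit 530) (nat_lit 258) (nat_lit 64) (@Lb.g g8 (@Lb.g g9 (@Lb.g g7 (@Lb.r r386 (@Lb.r r1121 (@Lb.d (nat_lit 2) (nat_lit 74) (nat_lit 322) (@Lb.t (@Lb.fp (nat_lit 9) t5651))))))))))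
noncomputable def l33345 : Lb := (@Lb.r r70 (@Lb.d (nat_lit 130) (nat_lit 330) (nat_lit 64) (@Lb.g g8 (@Lb.g g9 (@Lb.g g11 (@Lb.r r2315 (@Lb.r r2198 (@Lb.r r2120 (@Lb.d (nat_lit 576) (nat_lit 2) (nat_lit 8) (@Lb.t (@Lb.fm (nat_lit 9) t393)))))))))))
noncomputable def l33346 : Lb := (@Lb.d (nat_lit 0) (nat_lit 578) (nat_lit 64) (@Lb.g g9 (@Lb.g g11 (@Lb.r r2587 (@Lb.r r1126 (@Lb.r r24 (@Lb.d (nat_lit 581) (nat_lit 0) (nat_lit 576) (@Lb.fm (nat_lit 3) t284))))))))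
noncomputable def l33347 : Lb := (@Lb.r r70 (@Lb.d (nat_lit 2) (nat_lit 74) (nat_lit 0) (@Lb.g g8 (@Lb.g g9 (@Lb.r r1611 (@Lb.r r2454 (@Lb.r r2632 (@Lb.d (nat_lit 657) (nat_lit 130) (nat_lit 9) (@Lb.fp (nat_lit 3) t98)))))))))
noncomputable def l33348 : Lb := (@Lb.d (nat_lit 292) (nat_lit 8) (nat_lit 657) (@Lb.r r1427 (@Lb.r r1414 (@Lb.r r2644 (@Lb.r r1321 (@Lb.g g11 (@Lb.t (@Lb.fp (nat_lit 3) t5998))))))))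
noncomputable def l33349 : Lb := (@Lb.d (nat_lit 4) (nat_lit 522) (nat_lit 129) (@Lb.g g8 (@Lb.g g9 (@Lb.g g10 (@Lb.g g11 (@Lb.r r2729 (@Lb.r r2475 (@Lb.r r2468 (@Lb.r r2438 (@Lb.d (nat_lit 610) (nat_lit 10) (nat_lit 617) (@Lb.fp (nat_lit 9) t150)))))))))))
noncomputable def l33350 : Lb := (@Lb.d (nat_lit 8) (nat_lit 10) (nat_lit 0) (@Lb.g g9 (@Lb.r r152 (@Lb.r r2730 (@Lb.r r1687 (@Lb.r r2329 (@Lb.d (nat_lit 520) (nat_lit 82) (nat_lit 128) (@Lb.t (@Lb.fm (nat_lit 3) t242)))))))))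
noncomputable def l33351 : Lb := (@Lb.d (nat_lit 0) (nat_lit 578) (nat_lit 0) (@Lb.g g9 (@Lb.r r1126 (@Lb.r r24 (@Lb.d (nat_lit 516) (nat_lit 0) (nat_lit 0) (@Lb.t (@Lb.fm (nat_lit 3) t994)))))))
noncomputable def l33352 : Lb := (@Lb.d (nat_lit 4) (nat_lit 10) (nat_lit 129) (@Lb.g g8 (@Lb.g g9 (@Lb.g g10 (@Lb.g g11 (@Lb.r r2729 (@Lb.r r2475 (@Lb.r r2468 (@Lb.r r2438 (@Lb.d (nat_lit 609) (nat_lit 10) (nat_lit 617) (@Lb.fp (nat_lit 9) t150)))))))))))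
noncomputable def l33353 : Lb := (@Lb.r r70 (@Lb.d (nat_lit 2) (nat_lit 322) (nat_lit 0) (@Lb.g g8 (@Lb.g g9 (@Lb.r r1122 (@Lb.r r1060 (@Lb.d (nat_lit 261) (nat_lit 64) (nat_lit 0) (@Lb.fm (nat_lit 3) t3197))))))))
noncomputable def l33354 : Lb := (@Lb.r r24 (@Lb.r r2069 (@Lb.r r36 (@Lb.d (nat_lit 0) (nat_lit 266) (nat_lit 2) (@Lb.fm (nat_lit 1) t21)))))
noncomputable def l33355 : Lb := (@Lb.d (nat_lit 42) (nat_lit 256) (nat_lit 0) (@Lb.g g4 (@Lb.r r2391 (@Lb.r r618 (@Lb.r r1641 (@Lb.r r2664 (@Lb.d (nat_lit 665) (nat_lit 165) (nat_lit 613) (@Lb.t (@Lb.fm (nat_lit 3) t386)))))))))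
noncomputable def l33356 : Lb := (@Lb.d (nat_lit 168) (nat_lit 512) (nat_lit 72) (@Lb.g g8 (@Lb.g g11 (@Lb.r r1346 (@Lb.r r679 (@Lb.r r2597 (@Lb.r r276 (@Lb.d (nat_lit 70) (nat_lit 89) (nat_lit 145) (@Lb.fm (nat_lit 3) t1952)))))))))
noncomputable def l33357 : Lb := (@Lb.d (nat_lit 1) (nat_lit 292) (nat_lit 128) (@Lb.g g8 (@Lb.g g9 (@Lb.g g10 (@Lb.g g11 (@Lb.r r387 (@Lb.r r145 (@Lb.r r2454 (@Lb.r r36 (@Lb.d (nat_lit 148) (nat_lit 96) (nat_lit 425) (@Lb.fm (nat_lit 9) t5200)))))))))))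
noncomputable def l33358 : Lb := (@Lb.d (nat_lit 5) (nat_lit 516) (nat_lit 102) (@Lb.r r68 (@Lb.r r90 (@Lb.r r596 (@Lb.r r1367 (@Lb.g g7 (@Lb.g g6 (@Lb.g g5 (@Lb.g g4 (@Lb.d (nat_lit 1) (nat_lit 129) (nat_lit 65) (@Lb.fp (nat_lit 9) t1161)))))))))))
noncomputable def l33359 : Lb := (@Lb.d (nat_lit 536) (nat_lit 256) (nat_lit 73) (@Lb.g g8 (@Lb.g g10 (@Lb.g g11 (@Lb.r r1667 (@Lb.r r1634 (@Lb.d (nat_lit 0) (nat_lit 165) (nat_lit 665) (@Lb.t (@Lb.fp (nat_lit 9) t3687)))))))))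
noncomputable def l33360 : Lb := (@Lb.d (nat_lit 8) (nat_lit 0) (nat_lit 130) (@Lb.g g8 (@Lb.g g10 (@Lb.g g11 (@Lb.r r2443 (@Lb.r r2193 (@Lb.r r2458 (@Lb.r r2436 (@Lb.d (nat_lit 90) (nat_lit 2) (nat_lit 649) (@Lb.t (@Lb.fp (nat_lit 9) t221)))))))))))
noncomputable def l33361 : Lb := (@Lb.r r346 (@Lb.d (nat_lit 4) (nat_lit 34) (nat_lit 128) (@Lb.g g8 (@Lb.g g9 (@Lb.g g11 (@Lb.r r2724 (@Lb.r r1190 (@Lb.r r145 (@Lb.d (nat_lit 610) (nat_lit 42) (nat_lit 129) (@Lb.t (@Lb.fp (nat_lit 9) t5999)))))))))))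
noncomputable def l33362 : Lb := (@Lb.d (nat_lit 4) (nat_lit 146) (nat_lit 160) (@Lb.r r101 (@Lb.r r24 (@Lb.r r647 (@Lb.r r1670 (@Lb.g g11 (@Lb.d (nat_lit 0) (nat_lit 0) (nat_lit 68) (@Lb.t (@Lb.fp (nat_lit 3) t6000)))))))))
noncomputable def l33363 : Lb := (@Lb.d (nat_lit 282) (nat_lit 256) (nat_lit 0) (@Lb.g g8 (@Lb.r r101 (@Lb.r r402 (@Lb.d (nat_lit 10) (nat_lit 38) (nat_lit 613) (@Lb.t (@Lb.fp (nat_lit 3) t4032)))))))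
noncomputable def l33364 : Lb := (@Lb.d (nat_lit 261) (nat_lit 1) (nat_lit 37) (@Lb.r r21 (@Lb.r r104 (@Lb.r r386 (@Lb.g g11 (@Lb.g g6 (@Lb.g g5 (@Lb.g g4 (@Lb.d (nat_lit 1) (nat_lit 8) (nat_lit 128) (@Lb.fm (nat_lit 9) t6001))))))))))
noncomputable def l33365 : Lb := (@Lb.d (nat_lit 5) (nat_lit 577) (nat_lit 85) (@Lb.r r154 (@Lb.r r660 (@Lb.r r407 (@Lb.r r537 (@Lb.g g4 (@Lb.d (nat_lit 6) (nat_lit 0) (nat_lit 0) (@Lb.t (@Lb.fp (nat_lit 3) t984)))))))))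
noncomputable def l33366 : Lb := (@Lb.r r275 (@Lb.d (nat_lit 2) (nat_lit 512) (nat_lit 2) (@Lb.g g8 (@Lb.g g9 (@Lb.g g10 (@Lb.r r683 (@Lb.r r386 (@Lb.r r2657 (@Lb.r r24 (@Lb.d (nat_lit 261) (nat_lit 25) (nat_lit 549) (@Lb.t (@Lb.fm (nat_lit 9) t6002))))))))))))
noncomputable def l33367 : Lb := (@Lb.d (nat_lit 354) (nat_lit 137) (nat_lit 85) (@Lb.r r2647 (@Lb.r r362 (@Lb.r r344 (@Lb.g g7 (@Lb.g g9 (@Lb.d (nat_lit 64) (nat_lit 66) (nat_lit 0) (@Lb.fp (nat_lit 3) t4294))))))))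
noncomputable def l33368 : Lb := (@Lb.d (nat_lit 257) (nat_lit 0) (nat_lit 37) (@Lb.r r1637 (@Lb.r r2328 (@Lb.r r386 (@Lb.g g11 (@Lb.g g6 (@Lb.g g5 (@Lb.d (nat_lit 128) (nat_lit 17) (nat_lit 385) (@Lb.t (@Lb.fp (nat_lit 9) t6003))))))))))
noncomputable def l33369 : Lb := (@Lb.d (nat_lit 145) (nat_lit 386) (nat_lit 549) (@Lb.r r386 (@Lb.r r2375 (@Lb.r r1560 (@Lb.g g7 (@Lb.g g6 (@Lb.g g5 (@Lb.d (nat_lit 4) (nat_lit 17) (nat_lit 65) (@Lb.r r36 (@Lb.t (@Lb.fp (nat_lit 9) t3032)))))))))))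
noncomputable def l33370 : Lb := (@Lb.d (nat_lit 1) (nat_lit 64) (nat_lit 650) (@Lb.r r402 (@Lb.g g9 (@Lb.g g4 (@Lb.fm (nat_lit 3) t2930)))))
noncomputable def l33371 : Lb := (@Lb.d (nat_lit 664) (nat_lit 536) (nat_lit 680) (@Lb.r r2391 (@Lb.r r618 (@Lb.r r600 (@Lb.g g11 (@Lb.g g9 (@Lb.d (nat_lit 68) (nat_lit 64) (nat_lit 64) (@Lb.fp (nat_lit 3) t5005))))))))
noncomputable def l33372 : Lb := (@Lb.d (nat_lit 2) (nat_lit 102) (nat_lit 8) (@Lb.g g8 (@Lb.g g5 (@Lb.g g10 (@Lb.r r1383 (@Lb.r r666 (@Lb.d (nat_lit 72) (nat_lit 72) (nat_lit 528) (@Lb.t (@Lb.fm (nat_lit 9) t6004)))))))))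
noncomputable def l33373 : Lb := (@Lb.d (nat_lit 8) (nat_lit 32) (nat_lit 2) (@Lb.g g9 (@Lb.g g10 (@Lb.r r2691 (@Lb.r r1190 (@Lb.r r1620 (@Lb.r r2393 (@Lb.d (nat_lit 104) (nat_lit 152) (nat_lit 100) (@Lb.fm (nat_lit 3) t242)))))))))
noncomputable def l33374 : Lb := (@Lb.d (nat_lit 0) (nat_lit 0) (nat_lit 73) (@Lb.g g4 (@Lb.g g10 (@Lb.g g11 (@Lb.r r2691 (@Lb.r r1158 (@Lb.d (nat_lit 128) (nat_lit 5) (nat_lit 425) (@Lb.t (@Lb.fp (nat_lit 9) t3316)))))))))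
noncomputable def l33375 : Lb := (@Lb.r r21 (@Lb.r r323 (@Lb.d (nat_lit 514) (nat_lit 264) (nat_lit 0) (@Lb.g g8 (@Lb.g g10 (@Lb.r r395 (@Lb.r r101 (@Lb.r r410 (@Lb.d (nat_lit 2) (nat_lit 24) (nat_lit 682) (@Lb.fm (nat_lit 3) t221))))))))))
noncomputable def l33376 : Lb := (@Lb.d (nat_lit 146) (nat_lit 256) (nat_lit 130) (@Lb.g g8 (@Lb.g g10 (@Lb.g g11 (@Lb.r r2691 (@Lb.r r1162 (@Lb.r r388 (@Lb.d (nat_lit 66) (nat_lit 0) (nat_lit 418) (@Lb.t (@Lb.fm (nat_lit 9) t5355))))))))))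
noncomputable def l33377 : Lb := (@Lb.d (nat_lit 104) (nat_lit 678) (nat_lit 358) (@Lb.r r21 (@Lb.r r1362 (@Lb.r r675 (@Lb.g g6 (@Lb.g g5 (@Lb.g g4 (@Lb.d (nat_lit 544) (nat_lit 6) (nat_lit 2) (@Lb.t (@Lb.fm (nat_lit 9) t39))))))))))
noncomputable def l33378 : Lb := (@Lb.g g4 (@Lb.g g7 (@Lb.r r2311 (@Lb.d (nat_lit 256) (nat_lit 0) (nat_lit 64) (@Lb.fm (nat_lit 3) t1165)))))
noncomputable def l33379 : Lb := (@Lb.d (nat_lit 9) (nat_lit 521) (nat_lit 136) (@Lb.g g8 (@Lb.g g9 (@Lb.g g11 (@Lb.r r86 (@Lb.r r424 (@Lb.r r279 (@Lb.r r545 (@Lb.d (nat_lit 610) (nat_lit 18) (nat_lit 602) (@Lb.t (@Lb.fm (nat_lit 9) t698)))))))))))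
noncomputable def l33380 : Lb := (@Lb.r r21 (@Lb.d (nat_lit 1) (nat_lit 0) (nat_lit 130) (@Lb.g g8 (@Lb.g g10 (@Lb.g g11 (@Lb.r r1602 (@Lb.r r2631 (@Lb.r r2452 (@Lb.r r25 (@Lb.d (nat_lit 10) (nat_lit 102) (nat_lit 649) (@Lb.t (@Lb.fp (nat_lit 9) t2700))))))))))))
noncomputable def l33381 : Lb := (@Lb.d (nat_lit 130) (nat_lit 550) (nat_lit 0) (@Lb.g g8 (@Lb.g g9 (@Lb.r r1559 (@Lb.r r2376 (@Lb.r r134 (@Lb.d (nat_lit 17) (nat_lit 73) (nat_lit 602) (@Lb.fp (nat_lit 3) t2113))))))))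
noncomputable def l33382 : Lb := (@Lb.r r323 (@Lb.d (nat_lit 2) (nat_lit 514) (nat_lit 2) (@Lb.g g8 (@Lb.g g9 (@Lb.g g10 (@Lb.r r401 (@Lb.r r299 (@Lb.r r392 (@Lb.r r74 (@Lb.d (nat_lit 528) (nat_lit 0) (nat_lit 168) (@Lb.t (@Lb.fp (nat_lit 9) t221))))))))))))
noncomputable def l33383 : Lb := (@Lb.d (nat_lit 144) (nat_lit 258) (nat_lit 64) (@Lb.g g8 (@Lb.g g9 (@Lb.g g10 (@Lb.g g11 (@Lb.r r2454 (@Lb.r r2725 (@Lb.r r1364 (@Lb.r r2459 (@Lb.d (nat_lit 148) (nat_lit 89) (nat_lit 357) (@Lb.fp (nat_lit 9) t495)))))))))))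
noncomputable def l33384 : Lb := (@Lb.d (nat_lit 2) (nat_lit 512) (nat_lit 0) (@Lb.g g8 (@Lb.r r1162 (@Lb.r r1188 (@Lb.r r405 (@Lb.r r1635 (@Lb.d (nat_lit 0) (nat_lit 0) (nat_lit 85) (@Lb.t (@Lb.fp (nat_lit 3) t1594)))))))))
noncomputable def l33385 : Lb := (@Lb.d (nat_lit 136) (nat_lit 273) (nat_lit 2) (@Lb.g g8 (@Lb.g g9 (@Lb.g g10 (@Lb.g g11 (@Lb.r r1443 (@Lb.r r2722 (@Lb.r r420 (@Lb.r r2725 (@Lb.d (nat_lit 677) (nat_lit 21) (nat_lit 678) (@Lb.fp (nat_lit 9) t2805)))))))))))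
noncomputable def l33386 : Lb := (@Lb.r r2331 (@Lb.r r24 (@Lb.d (nat_lit 256) (nat_lit 320) (nat_lit 64) (@Lb.fm (nat_lit 1) t1165))))
noncomputable def l33387 : Lb := (@Lb.r r82 (@Lb.d (nat_lit 0) (nat_lit 529) (nat_lit 0) (@Lb.g g9 (@Lb.g g11 (@Lb.r r1427 (@Lb.r r386 (@Lb.r r1113 (@Lb.r r24 (@Lb.d (nat_lit 530) (nat_lit 5) (nat_lit 18) (@Lb.fm (nat_lit 3) t742))))))))))
noncomputable def l33388 : Lb := (@Lb.d (nat_lit 132) (nat_lit 528) (nat_lit 2) (@Lb.g g8 (@Lb.g g9 (@Lb.g g10 (@Lb.g g11 (@Lb.r r1443 (@Lb.r r2722 (@Lb.r r297 (@Lb.r r1636 (@Lb.d (nat_lit 88) (nat_lit 154) (nat_lit 64) (@Lb.fp (nat_lit 9) t245)))))))))))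
noncomputable def l33389 : Lb := (@Lb.r r21 (@Lb.d (nat_lit 146) (nat_lit 512) (nat_lit 10) (@Lb.g g8 (@Lb.g g10 (@Lb.g g11 (@Lb.r r2730 (@Lb.r r2467 (@Lb.r r145 (@Lb.r r2084 (@Lb.d (nat_lit 361) (nat_lit 150) (nat_lit 352) (@Lb.t (@Lb.fp (nat_lit 9) t750))))))))))))
noncomputable def l33390 : Lb := (@Lb.d (nat_lit 2) (nat_lit 550) (nat_lit 10) (@Lb.g g8 (@Lb.g g9 (@Lb.g g10 (@Lb.g g11 (@Lb.r r2722 (@Lb.r r1415 (@Lb.r r36 (@Lb.r r149 (@Lb.r r2084 (@Lb.d (nat_lit 105) (nat_lit 152) (nat_lit 593) (@Lb.fm (nat_lit 9) t823))))))))))))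
noncomputable def l33391 : Lb := (@Lb.d (nat_lit 262) (nat_lit 513) (nat_lit 0) (@Lb.r r1096 (@Lb.r r1431 (@Lb.r r2454 (@Lb.r r593 (@Lb.g g7 (@Lb.g g5 (@Lb.d (nat_lit 0) (nat_lit 1) (nat_lit 68) (@Lb.fm (nat_lit 3) t3252)))))))))
noncomputable def l33392 : Lb := (@Lb.d (nat_lit 0) (nat_lit 256) (nat_lit 2) (@Lb.g g9 (@Lb.g g10 (@Lb.g g7 (@Lb.r r386 (@Lb.r r101 (@Lb.r r24 (@Lb.d (nat_lit 354) (nat_lit 5) (nat_lit 586) (@Lb.t (@Lb.fm (nat_lit 9) t166))))))))))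
noncomputable def l33393 : Lb := (@Lb.d (nat_lit 8) (nat_lit 258) (nat_lit 0) (@Lb.g g9 (@Lb.r r2343 (@Lb.r r1096 (@Lb.r r2646 (@Lb.r r409 (@Lb.d (nat_lit 521) (nat_lit 74) (nat_lit 136) (@Lb.t (@Lb.fm (nat_lit 3) t1456)))))))))
noncomputable def l33394 : Lb := (@Lb.d (nat_lit 128) (nat_lit 256) (nat_lit 384) (@Lb.g g11 (@Lb.r r24 (@Lb.d (nat_lit 133) (nat_lit 145) (nat_lit 512) (@Lb.t (@Lb.fm (nat_lit 3) t1855))))))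
noncomputable def l33395 : Lb := (@Lb.d (nat_lit 128) (nat_lit 0) (nat_lit 66) (@Lb.g g10 (@Lb.g g11 (@Lb.r r264 (@Lb.r r519 (@Lb.r r161 (@Lb.r r98 (@Lb.d (nat_lit 129) (nat_lit 8) (nat_lit 129) (@Lb.fp (nat_lit 3) t97)))))))))
noncomputable def l33396 : Lb := (@Lb.d (nat_lit 128) (nat_lit 512) (nat_lit 64) (@Lb.g g10 (@Lb.g g11 (@Lb.r r264 (@Lb.r r519 (@Lb.r r101 (@Lb.r r154 (@Lb.d (nat_lit 385) (nat_lit 0) (nat_lit 160) (@Lb.fm (nat_lit 3) t743)))))))))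
noncomputable def l33397 : Lb := (@Lb.d (nat_lit 0) (nat_lit 544) (nat_lit 640) (@Lb.g g11 (@Lb.r r24 (@Lb.d (nat_lit 0) (nat_lit 17) (nat_lit 256) (@Lb.t (@Lb.fm (nat_lit 3) t2243))))))
noncomputable def l33398 : Lb := (@Lb.r r275 (@Lb.d (nat_lit 130) (nat_lit 512) (nat_lit 2) (@Lb.g g8 (@Lb.g g9 (@Lb.g g10 (@Lb.r r1699 (@Lb.r r1194 (@Lb.r r2472 (@Lb.r r297 (@Lb.d (nat_lit 129) (nat_lit 138) (nat_lit 402) (@Lb.t (@Lb.fm (nat_lit 9) t1758))))))))))))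
noncomputable def l33399 : Lb := (@Lb.d (nat_lit 0) (nat_lit 16) (nat_lit 2) (@Lb.g g9 (@Lb.g g10 (@Lb.g g11 (@Lb.r r659 (@Lb.r r610 (@Lb.r r529 (@Lb.d (nat_lit 5) (nat_lit 33) (nat_lit 137) (@Lb.t (@Lb.fp (nat_lit 9) t6005))))))))))
noncomputable def l33400 : Lb := (@Lb.r r21 (@Lb.d (nat_lit 34) (nat_lit 0) (nat_lit 129) (@Lb.g g8 (@Lb.g g10 (@Lb.g g11 (@Lb.r r651 (@Lb.r r293 (@Lb.r r644 (@Lb.r r614 (@Lb.d (nat_lit 149) (nat_lit 32) (nat_lit 134) (@Lb.t (@Lb.fm (nat_lit 9) t264))))))))))))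
noncomputable def l33401 : Lb := (@Lb.d (nat_lit 1) (nat_lit 549) (nat_lit 6) (@Lb.r r673 (@Lb.r r683 (@Lb.r r612 (@Lb.r r346 (@Lb.g g7 (@Lb.g g6 (@Lb.g g5 (@Lb.d (nat_lit 4) (nat_lit 1) (nat_lit 65) (@Lb.t (@Lb.fp (nat_lit 9) t594)))))))))))
noncomputable def l33402 : Lb := (@Lb.d (nat_lit 9) (nat_lit 520) (nat_lit 72) (@Lb.g g8 (@Lb.g g9 (@Lb.g g10 (@Lb.g g11 (@Lb.r r1706 (@Lb.r r680 (@Lb.r r555 (@Lb.r r1573 (@Lb.r r1044 (@Lb.d (nat_lit 649) (nat_lit 65) (nat_lit 330) (@Lb.fp (nat_lit 9) t125))))))))))))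
noncomputable def l33403 : Lb := (@Lb.d (nat_lit 2) (nat_lit 2) (nat_lit 2) (@Lb.g g8 (@Lb.g g9 (@Lb.g g10 (@Lb.r r683 (@Lb.r r2666 (@Lb.r r25 (@Lb.d (nat_lit 9) (nat_lit 89) (nat_lit 601) (@Lb.t (@Lb.fp (nat_lit 9) t6006))))))))))
noncomputable def l33404 : Lb := (@Lb.d (nat_lit 128) (nat_lit 514) (nat_lit 130) (@Lb.g g8 (@Lb.g g9 (@Lb.g g10 (@Lb.g g11 (@Lb.r r419 (@Lb.r r1702 (@Lb.r r344 (@Lb.r r1429 (@Lb.r r1060 (@Lb.d (nat_lit 617) (nat_lit 166) (nat_lit 401) (@Lb.fp (nat_lit 9) t1039))))))))))))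
noncomputable def l33405 : Lb := (@Lb.d (nat_lit 128) (nat_lit 512) (nat_lit 128) (@Lb.g g8 (@Lb.g g11 (@Lb.r r1323 (@Lb.r r296 (@Lb.d (nat_lit 324) (nat_lit 33) (nat_lit 640) (@Lb.fp (nat_lit 3) t5025)))))))
noncomputable def l33406 : Lb := (@Lb.d (nat_lit 128) (nat_lit 288) (nat_lit 136) (@Lb.g g7 (@Lb.r r1706 (@Lb.r r2729 (@Lb.r r680 (@Lb.r r363 (@Lb.d (nat_lit 649) (nat_lit 21) (nat_lit 586) (@Lb.t (@Lb.fp (nat_lit 3) t386)))))))))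
noncomputable def l33407 : Lb := (@Lb.d (nat_lit 128) (nat_lit 258) (nat_lit 130) (@Lb.g g8 (@Lb.g g9 (@Lb.g g10 (@Lb.g g11 (@Lb.r r1675 (@Lb.r r613 (@Lb.r r666 (@Lb.r r1176 (@Lb.d (nat_lit 682) (nat_lit 65) (nat_lit 362) (@Lb.fp (nat_lit 9) t552)))))))))))
noncomputable def l33408 : Lb := (@Lb.d (nat_lit 134) (nat_lit 0) (nat_lit 130) (@Lb.g g8 (@Lb.g g9 (@Lb.g g10 (@Lb.g g11 (@Lb.r r2666 (@Lb.r r2664 (@Lb.r r299 (@Lb.r r2337 (@Lb.d (nat_lit 26) (nat_lit 9) (nat_lit 410) (@Lb.fp (nat_lit 9) t4442)))))))))))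
noncomputable def l33409 : Lb := (@Lb.r r81 (@Lb.r r323 (@Lb.d (nat_lit 10) (nat_lit 256) (nat_lit 33) (@Lb.g g8 (@Lb.g g6 (@Lb.r r2667 (@Lb.r r149 (@Lb.r r1384 (@Lb.d (nat_lit 134) (nat_lit 42) (nat_lit 420) (@Lb.fp (nat_lit 3) t6007))))))))))
noncomputable def l33410 : Lb := (@Lb.g g4 (@Lb.r r417 (@Lb.r r2387 (@Lb.r r2662 (@Lb.r r2452 (@Lb.r r1561 (@Lb.d (nat_lit 0) (nat_lit 325) (nat_lit 1) (@Lb.t (@Lb.fp (nat_lit 3) t387)))))))))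
noncomputable def l33411 : Lb := (@Lb.r r82 (@Lb.r r275 (@Lb.d (nat_lit 34) (nat_lit 160) (nat_lit 0) (@Lb.g g8 (@Lb.g g9 (@Lb.r r2579 (@Lb.r r150 (@Lb.r r2660 (@Lb.d (nat_lit 665) (nat_lit 146) (nat_lit 296) (@Lb.fm (nat_lit 3) t3778))))))))))
noncomputable def l33412 : Lb := (@Lb.d (nat_lit 134) (nat_lit 10) (nat_lit 129) (@Lb.g g8 (@Lb.g g9 (@Lb.g g10 (@Lb.g g11 (@Lb.r r411 (@Lb.r r164 (@Lb.r r2630 (@Lb.r r2337 (@Lb.d (nat_lit 402) (nat_lit 162) (nat_lit 21) (@Lb.fm (nat_lit 9) t6008)))))))))))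
noncomputable def l33413 : Lb := (@Lb.d (nat_lit 166) (nat_lit 522) (nat_lit 0) (@Lb.g g8 (@Lb.g g9 (@Lb.r r391 (@Lb.r r1414 (@Lb.r r1620 (@Lb.r r25 (@Lb.d (nat_lit 74) (nat_lit 101) (nat_lit 272) (@Lb.fp (nat_lit 3) t271)))))))))
noncomputable def l33414 : Lb := (@Lb.d (nat_lit 8) (nat_lit 265) (nat_lit 129) (@Lb.g g9 (@Lb.g g10 (@Lb.g g11 (@Lb.r r2388 (@Lb.r r1451 (@Lb.r r362 (@Lb.r r281 (@Lb.d (nat_lit 10) (nat_lit 25) (nat_lit 545) (@Lb.t (@Lb.fm (nat_lit 9) t3736)))))))))))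
noncomputable def l33415 : Lb := (@Lb.r r89 (@Lb.r r1126 (@Lb.r r24 (@Lb.d (nat_lit 585) (nat_lit 384) (nat_lit 528) (@Lb.fm (nat_lit 1) t2156)))))
noncomputable def l33416 : Lb := (@Lb.d (nat_lit 0) (nat_lit 536) (nat_lit 521) (@Lb.g g10 (@Lb.g g7 (@Lb.r r1617 (@Lb.r r354 (@Lb.d (nat_lit 546) (nat_lit 98) (nat_lit 146) (@Lb.fp (nat_lit 3) t216)))))))
noncomputable def l33417 : Lb := (@Lb.r r82 (@Lb.r r275 (@Lb.d (nat_lit 41) (nat_lit 25) (nat_lit 0) (@Lb.g g8 (@Lb.g g9 (@Lb.r r427 (@Lb.r r582 (@Lb.r r388 (@Lb.d (nat_lit 610) (nat_lit 9) (nat_lit 168) (@Lb.fm (nat_lit 3) t819))))))))))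
noncomputable def l33418 : Lb := (@Lb.d (nat_lit 536) (nat_lit 152) (nat_lit 32) (@Lb.r r2148 (@Lb.r r386 (@Lb.r r339 (@Lb.g g7 (@Lb.g g6 (@Lb.d (nat_lit 0) (nat_lit 0) (nat_lit 65) (@Lb.fp (nat_lit 3) t5098))))))))
noncomputable def l33419 : Lb := (@Lb.d (nat_lit 10) (nat_lit 597) (nat_lit 40) (@Lb.r r594 (@Lb.r r1425 (@Lb.g g11 (@Lb.g g6 (@Lb.fp (nat_lit 3) t5994))))))
noncomputable def l33420 : Lb := (@Lb.d (nat_lit 4) (nat_lit 256) (nat_lit 130) (@Lb.g g8 (@Lb.g g9 (@Lb.g g10 (@Lb.g g11 (@Lb.r r2411 (@Lb.r r386 (@Lb.r r97 (@Lb.r r24 (@Lb.d (nat_lit 256) (nat_lit 0) (nat_lit 153) (@Lb.fm (nat_lit 9) t61)))))))))))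
noncomputable def l33421 : Lb := (@Lb.d (nat_lit 132) (nat_lit 0) (nat_lit 66) (@Lb.g g8 (@Lb.g g9 (@Lb.g g10 (@Lb.g g11 (@Lb.r r2666 (@Lb.r r612 (@Lb.r r1319 (@Lb.r r405 (@Lb.r r2084 (@Lb.d (nat_lit 610) (nat_lit 138) (nat_lit 169) (@Lb.fp (nat_lit 9) t1039))))))))))))
noncomputable def l33422 : Lb := (@Lb.d (nat_lit 33) (nat_lit 258) (nat_lit 0) (@Lb.g g8 (@Lb.g g9 (@Lb.r r1387 (@Lb.r r361 (@Lb.r r150 (@Lb.r r1124 (@Lb.d (nat_lit 282) (nat_lit 10) (nat_lit 409) (@Lb.fm (nat_lit 3) t51)))))))))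
noncomputable def l33423 : Lb := (@Lb.g g8 (@Lb.g g10 (@Lb.g g11 (@Lb.r r579 (@Lb.r r402 (@Lb.d (nat_lit 0) (nat_lit 576) (nat_lit 16) (@Lb.t (@Lb.fm (nat_lit 9) t334))))))))
noncomputable def l33424 : Lb := (@Lb.r r82 (@Lb.d (nat_lit 2) (nat_lit 545) (nat_lit 64) (@Lb.g g8 (@Lb.g g9 (@Lb.g g11 (@Lb.r r1563 (@Lb.r r1129 (@Lb.r r2646 (@Lb.r r1416 (@Lb.d (nat_lit 546) (nat_lit 5) (nat_lit 68) (@Lb.t (@Lb.fp (nat_lit 9) t2419))))))))))))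
noncomputable def l33425 : Lb := (@Lb.d (nat_lit 40) (nat_lit 257) (nat_lit 72) (@Lb.g g8 (@Lb.g g9 (@Lb.g g10 (@Lb.g g11 (@Lb.r r2327 (@Lb.r r2710 (@Lb.r r1689 (@Lb.r r1684 (@Lb.d (nat_lit 420) (nat_lit 106) (nat_lit 8) (@Lb.fm (nat_lit 9) t355)))))))))))
noncomputable def l33426 : Lb := (@Lb.d (nat_lit 657) (nat_lit 257) (nat_lit 416) (@Lb.r r24 (@Lb.r r2138 (@Lb.g g5 (@Lb.d (nat_lit 4) (nat_lit 1) (nat_lit 0) (@Lb.t (@Lb.fp (nat_lit 3) t1427)))))))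
noncomputable def l33427 : Lb := (@Lb.d (nat_lit 128) (nat_lit 322) (nat_lit 136) (@Lb.g g9 (@Lb.g g11 (@Lb.r r420 (@Lb.r r390 (@Lb.r r1387 (@Lb.d (nat_lit 36) (nat_lit 22) (nat_lit 149) (@Lb.fp (nat_lit 3) t820))))))))
noncomputable def l33428 : Lb := (@Lb.d (nat_lit 2) (nat_lit 329) (nat_lit 129) (@Lb.g g8 (@Lb.g g9 (@Lb.g g10 (@Lb.g g11 (@Lb.r r2475 (@Lb.r r2442 (@Lb.r r2436 (@Lb.d (nat_lit 102) (nat_lit 9) (nat_lit 546) (@Lb.fm (nat_lit 9) t981))))))))))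
noncomputable def l33429 : Lb := (@Lb.d (nat_lit 9) (nat_lit 512) (nat_lit 0) (@Lb.g g8 (@Lb.r r277 (@Lb.r r363 (@Lb.r r356 (@Lb.r r586 (@Lb.d (nat_lit 10) (nat_lit 9) (nat_lit 18) (@Lb.t (@Lb.fp (nat_lit 3) t221)))))))))
noncomputable def l33430 : Lb := (@Lb.d (nat_lit 18) (nat_lit 385) (nat_lit 262) (@Lb.r r2129 (@Lb.r r386 (@Lb.r r355 (@Lb.r r297 (@Lb.g g7 (@Lb.g g6 (@Lb.g g5 (@Lb.g g4 (@Lb.d (nat_lit 1) (nat_lit 17) (nat_lit 1) (@Lb.fp (nat_lit 9) t430)))))))))))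
noncomputable def l33431 : Lb := (@Lb.d (nat_lit 0) (nat_lit 512) (nat_lit 2) (@Lb.g g9 (@Lb.g g10 (@Lb.g g7 (@Lb.r r386 (@Lb.r r101 (@Lb.r r24 (@Lb.d (nat_lit 354) (nat_lit 5) (nat_lit 522) (@Lb.t (@Lb.fm (nat_lit 9) t166))))))))))
noncomputable def l33432 : Lb := (@Lb.r r323 (@Lb.d (nat_lit 0) (nat_lit 10) (nat_lit 0) (@Lb.g g9 (@Lb.g g10 (@Lb.r r2339 (@Lb.r r2130 (@Lb.d (nat_lit 0) (nat_lit 2) (nat_lit 162) (@Lb.fm (nat_lit 3) t2307))))))))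
noncomputable def l33433 : Lb := (@Lb.r r323 (@Lb.d (nat_lit 0) (nat_lit 522) (nat_lit 1) (@Lb.g g9 (@Lb.g g10 (@Lb.r r2339 (@Lb.r r2146 (@Lb.d (nat_lit 0) (nat_lit 132) (nat_lit 162) (@Lb.fm (nat_lit 3) t2307))))))))
noncomputable def l33434 : Lb := (@Lb.d (nat_lit 0) (nat_lit 1) (nat_lit 66) (@Lb.g g9 (@Lb.g g10 (@Lb.g g11 (@Lb.r r659 (@Lb.r r2642 (@Lb.r r1313 (@Lb.d (nat_lit 5) (nat_lit 88) (nat_lit 609) (@Lb.t (@Lb.fm (nat_lit 9) t2563))))))))))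
noncomputable def l33435 : Lb := (@Lb.d (nat_lit 0) (nat_lit 256) (nat_lit 2) (@Lb.g g9 (@Lb.g g10 (@Lb.g g7 (@Lb.r r386 (@Lb.r r101 (@Lb.r r24 (@Lb.d (nat_lit 352) (nat_lit 5) (nat_lit 522) (@Lb.t (@Lb.fm (nat_lit 9) t1150))))))))))
noncomputable def l33436 : Lb := (@Lb.d (nat_lit 73) (nat_lit 17) (nat_lit 2) (@Lb.g g8 (@Lb.g g9 (@Lb.g g10 (@Lb.g g11 (@Lb.r r419 (@Lb.r r1177 (@Lb.r r1622 (@Lb.r r2440 (@Lb.d (nat_lit 288) (nat_lit 149) (nat_lit 518) (@Lb.fm (nat_lit 9) t6009)))))))))))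
noncomputable def l33437 : Lb := (@Lb.d (nat_lit 145) (nat_lit 514) (nat_lit 74) (@Lb.g g8 (@Lb.g g9 (@Lb.g g10 (@Lb.g g11 (@Lb.r r1639 (@Lb.r r612 (@Lb.r r149 (@Lb.r r598 (@Lb.r r1156 (@Lb.d (nat_lit 256) (nat_lit 102) (nat_lit 328) (@Lb.fm (nat_lit 9) t3877))))))))))))
noncomputable def l33438 : Lb := (@Lb.d (nat_lit 129) (nat_lit 2) (nat_lit 73) (@Lb.g g8 (@Lb.g g9 (@Lb.g g10 (@Lb.g g11 (@Lb.r r419 (@Lb.r r100 (@Lb.r r2650 (@Lb.r r2453 (@Lb.r r36 (@Lb.d (nat_lit 90) (nat_lit 137) (nat_lit 153) (@Lb.fp (nat_lit 9) t6010))))))))))))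
noncomputable def l33439 : Lb := (@Lb.d (nat_lit 9) (nat_lit 296) (nat_lit 64) (@Lb.g g8 (@Lb.g g9 (@Lb.g g11 (@Lb.r r2659 (@Lb.r r2152 (@Lb.r r1430 (@Lb.r r1625 (@Lb.d (nat_lit 137) (nat_lit 102) (nat_lit 358) (@Lb.t (@Lb.fp (nat_lit 9) t6011)))))))))))
noncomputable def l33440 : Lb := (@Lb.d (nat_lit 8) (nat_lit 258) (nat_lit 130) (@Lb.g g9 (@Lb.g g10 (@Lb.g g11 (@Lb.r r586 (@Lb.r r584 (@Lb.r r299 (@Lb.r r409 (@Lb.d (nat_lit 4) (nat_lit 72) (nat_lit 18) (@Lb.t (@Lb.fp (nat_lit 9) t1022)))))))))))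
noncomputable def l33441 : Lb := (@Lb.r r20 (@Lb.d (nat_lit 136) (nat_lit 553) (nat_lit 130) (@Lb.g g9 (@Lb.g g10 (@Lb.g g11 (@Lb.r r2436 (@Lb.r r667 (@Lb.r r1361 (@Lb.d (nat_lit 72) (nat_lit 149) (nat_lit 128) (@Lb.t (@Lb.fp (nat_lit 9) t6012)))))))))))
noncomputable def l33442 : Lb := (@Lb.d (nat_lit 0) (nat_lit 520) (nat_lit 2) (@Lb.g g10 (@Lb.r r101 (@Lb.r r24 (@Lb.d (nat_lit 0) (nat_lit 10) (nat_lit 65) (@Lb.t (@Lb.fp (nat_lit 3) t145)))))))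
noncomputable def l33443 : Lb := (@Lb.d (nat_lit 8) (nat_lit 2) (nat_lit 130) (@Lb.g g9 (@Lb.g g10 (@Lb.g g11 (@Lb.r r586 (@Lb.r r584 (@Lb.r r299 (@Lb.r r409 (@Lb.d (nat_lit 9) (nat_lit 73) (nat_lit 18) (@Lb.t (@Lb.fp (nat_lit 9) t1022)))))))))))
noncomputable def l33444 : Lb := (@Lb.d (nat_lit 145) (nat_lit 600) (nat_lit 641) (@Lb.r r277 (@Lb.r r519 (@Lb.r r264 (@Lb.g g7 (@Lb.g g10 (@Lb.d (nat_lit 80) (nat_lit 0) (nat_lit 66) (@Lb.fp (nat_lit 3) t825))))))))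
noncomputable def l33445 : Lb := (@Lb.d (nat_lit 2) (nat_lit 38) (nat_lit 5) (@Lb.g g8 (@Lb.g g9 (@Lb.g g10 (@Lb.g g11 (@Lb.r r425 (@Lb.r r2647 (@Lb.r r346 (@Lb.r r2129 (@Lb.r r2436 (@Lb.d (nat_lit 106) (nat_lit 1) (nat_lit 90) (@Lb.fp (nat_lit 9) t6013))))))))))))
noncomputable def l33446 : Lb := (@Lb.r r323 (@Lb.d (nat_lit 33) (nat_lit 258) (nat_lit 2) (@Lb.g g8 (@Lb.g g9 (@Lb.g g10 (@Lb.r r427 (@Lb.r r106 (@Lb.r r1193 (@Lb.r r1192 (@Lb.d (nat_lit 260) (nat_lit 8) (nat_lit 2) (@Lb.t (@Lb.fm (nat_lit 9) t1012))))))))))))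
noncomputable def l33447 : Lb := (@Lb.d (nat_lit 256) (nat_lit 66) (nat_lit 289) (@Lb.r r1045 (@Lb.r r2148 (@Lb.r r402 (@Lb.r r1291 (@Lb.g g11 (@Lb.g g4 (@Lb.fm (nat_lit 3) t4337))))))))
noncomputable def l33448 : Lb := (@Lb.d (nat_lit 160) (nat_lit 512) (nat_lit 128) (@Lb.g g10 (@Lb.g g11 (@Lb.r r264 (@Lb.r r279 (@Lb.r r593 (@Lb.r r418 (@Lb.d (nat_lit 100) (nat_lit 69) (nat_lit 421) (@Lb.fm (nat_lit 3) t210)))))))))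
noncomputable def l33449 : Lb := (@Lb.d (nat_lit 160) (nat_lit 0) (nat_lit 128) (@Lb.g g10 (@Lb.g g11 (@Lb.r r264 (@Lb.r r279 (@Lb.r r593 (@Lb.r r418 (@Lb.d (nat_lit 102) (nat_lit 69) (nat_lit 421) (@Lb.fm (nat_lit 3) t210)))))))))
noncomputable def l33450 : Lb := (@Lb.r r323 (@Lb.d (nat_lit 4) (nat_lit 512) (nat_lit 0) (@Lb.g g8 (@Lb.g g9 (@Lb.g g10 (@Lb.r r2729 (@Lb.r r2475 (@Lb.r r2442 (@Lb.r r2436 (@Lb.d (nat_lit 98) (nat_lit 0) (nat_lit 618) (@Lb.t (@Lb.fm (nat_lit 9) t2058))))))))))))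
noncomputable def l33451 : Lb := (@Lb.r r20 (@Lb.d (nat_lit 160) (nat_lit 1) (nat_lit 130) (@Lb.g g9 (@Lb.g g6 (@Lb.g g11 (@Lb.r r264 (@Lb.r r2455 (@Lb.r r1553 (@Lb.d (nat_lit 40) (nat_lit 89) (nat_lit 645) (@Lb.t (@Lb.fm (nat_lit 9) t51)))))))))))
noncomputable def l33452 : Lb := (@Lb.d (nat_lit 682) (nat_lit 522) (nat_lit 360) (@Lb.r r102 (@Lb.r r357 (@Lb.r r2715 (@Lb.r r2724 (@Lb.g g6 (@Lb.g g5 (@Lb.d (nat_lit 4) (nat_lit 5) (nat_lit 0) (@Lb.fm (nat_lit 3) t426)))))))))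
noncomputable def l33453 : Lb := (@Lb.d (nat_lit 2) (nat_lit 38) (nat_lit 128) (@Lb.g g8 (@Lb.g g9 (@Lb.g g10 (@Lb.g g11 (@Lb.r r425 (@Lb.r r2647 (@Lb.r r346 (@Lb.r r2129 (@Lb.r r2436 (@Lb.d (nat_lit 106) (nat_lit 1) (nat_lit 154) (@Lb.fp (nat_lit 9) t5331))))))))))))
noncomputable def l33454 : Lb := (@Lb.d (nat_lit 98) (nat_lit 261) (nat_lit 550) (@Lb.r r1354 (@Lb.r r1384 (@Lb.r r281 (@Lb.g g11 (@Lb.g g6 (@Lb.g g4 (@Lb.d (nat_lit 1) (nat_lit 20) (nat_lit 577) (@Lb.r r145 (@Lb.t (@Lb.fp (nat_lit 9) t6014)))))))))))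
noncomputable def l33455 : Lb := (@Lb.d (nat_lit 130) (nat_lit 137) (nat_lit 0) (@Lb.g g8 (@Lb.g g5 (@Lb.r r2343 (@Lb.r r2178 (@Lb.r r660 (@Lb.d (nat_lit 166) (nat_lit 38) (nat_lit 133) (@Lb.fm (nat_lit 3) t296))))))))
noncomputable def l33456 : Lb := (@Lb.d (nat_lit 32) (nat_lit 522) (nat_lit 0) (@Lb.g g8 (@Lb.g g9 (@Lb.r r1094 (@Lb.r r2200 (@Lb.r r405 (@Lb.r r1635 (@Lb.d (nat_lit 2) (nat_lit 0) (nat_lit 406) (@Lb.fm (nat_lit 3) t533)))))))))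
noncomputable def l33457 : Lb := (@Lb.d (nat_lit 400) (nat_lit 0) (nat_lit 401) (@Lb.r r146 (@Lb.r r101 (@Lb.r r280 (@Lb.g g11 (@Lb.d (nat_lit 128) (nat_lit 16) (nat_lit 576) (@Lb.r r578 (@Lb.r r529 (@Lb.t (@Lb.fm (nat_lit 3) t3310))))))))))
noncomputable def l33458 : Lb := (@Lb.d (nat_lit 102) (nat_lit 106) (nat_lit 168) (@Lb.r r2458 (@Lb.r r2133 (@Lb.r r1351 (@Lb.g g7 (@Lb.g g6 (@Lb.g g5 (@Lb.g g4 (@Lb.d (nat_lit 274) (nat_lit 2) (nat_lit 65) (@Lb.fm (nat_lit 9) t5463))))))))))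
noncomputable def l33459 : Lb := (@Lb.d (nat_lit 32) (nat_lit 258) (nat_lit 73) (@Lb.g g9 (@Lb.g g10 (@Lb.g g11 (@Lb.r r2695 (@Lb.r r1320 (@Lb.r r2201 (@Lb.r r2650 (@Lb.d (nat_lit 89) (nat_lit 36) (nat_lit 324) (@Lb.t (@Lb.fm (nat_lit 9) t473)))))))))))
noncomputable def l33460 : Lb := (@Lb.d (nat_lit 102) (nat_lit 362) (nat_lit 168) (@Lb.r r2458 (@Lb.r r2133 (@Lb.r r1351 (@Lb.g g7 (@Lb.g g6 (@Lb.g g5 (@Lb.g g4 (@Lb.d (nat_lit 274) (nat_lit 9) (nat_lit 64) (@Lb.fm (nat_lit 9) t5463))))))))))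
noncomputable def l33461 : Lb := (@Lb.d (nat_lit 536) (nat_lit 137) (nat_lit 100) (@Lb.r r673 (@Lb.r r1383 (@Lb.r r2564 (@Lb.g g10 (@Lb.g g5 (@Lb.d (nat_lit 36) (nat_lit 6) (nat_lit 4) (@Lb.fm (nat_lit 3) t5464))))))))
noncomputable def l33462 : Lb := (@Lb.d (nat_lit 536) (nat_lit 388) (nat_lit 102) (@Lb.r r673 (@Lb.r r1383 (@Lb.r r2564 (@Lb.g g10 (@Lb.g g5 (@Lb.d (nat_lit 36) (nat_lit 6) (nat_lit 4) (@Lb.fm (nat_lit 3) t6015))))))))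
noncomputable def l33463 : Lb := (@Lb.r r70 (@Lb.d (nat_lit 128) (nat_lit 258) (nat_lit 136) (@Lb.g g8 (@Lb.g g9 (@Lb.g g11 (@Lb.r r1625 (@Lb.r r1624 (@Lb.r r390 (@Lb.d (nat_lit 4) (nat_lit 70) (nat_lit 145) (@Lb.t (@Lb.fm (nat_lit 9) t409)))))))))))
noncomputable def l33464 : Lb := (@Lb.d (nat_lit 256) (nat_lit 261) (nat_lit 602) (@Lb.r r1410 (@Lb.r r1671 (@Lb.r r1428 (@Lb.r r553 (@Lb.g g7 (@Lb.g g6 (@Lb.g g5 (@Lb.d (nat_lit 0) (nat_lit 22) (nat_lit 10) (@Lb.t (@Lb.fm (nat_lit 9) t6016)))))))))))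
noncomputable def l33465 : Lb := (@Lb.d (nat_lit 1) (nat_lit 258) (nat_lit 137) (@Lb.g g8 (@Lb.g g9 (@Lb.g g10 (@Lb.g g11 (@Lb.r r1675 (@Lb.r r536 (@Lb.r r2197 (@Lb.r r2646 (@Lb.r r164 (@Lb.d (nat_lit 392) (nat_lit 137) (nat_lit 361) (@Lb.fp (nat_lit 9) t3245))))))))))))
noncomputable def l33466 : Lb := (@Lb.d (nat_lit 9) (nat_lit 258) (nat_lit 2) (@Lb.g g8 (@Lb.g g9 (@Lb.g g10 (@Lb.r r1705 (@Lb.r r2475 (@Lb.r r2468 (@Lb.r r2438 (@Lb.d (nat_lit 609) (nat_lit 10) (nat_lit 162) (@Lb.t (@Lb.fm (nat_lit 9) t590)))))))))))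
noncomputable def l33467 : Lb := (@Lb.d (nat_lit 130) (nat_lit 258) (nat_lit 0) (@Lb.g g8 (@Lb.g g9 (@Lb.r r2345 (@Lb.r r1559 (@Lb.r r2178 (@Lb.r r2344 (@Lb.d (nat_lit 165) (nat_lit 98) (nat_lit 592) (@Lb.fm (nat_lit 3) t246)))))))))
noncomputable def l33468 : Lb := (@Lb.d (nat_lit 2) (nat_lit 258) (nat_lit 2) (@Lb.g g8 (@Lb.g g9 (@Lb.g g10 (@Lb.r r2666 (@Lb.r r579 (@Lb.r r420 (@Lb.r r2469 (@Lb.d (nat_lit 89) (nat_lit 165) (nat_lit 169) (@Lb.t (@Lb.fm (nat_lit 9) t6017)))))))))))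
noncomputable def l33469 : Lb := (@Lb.d (nat_lit 2) (nat_lit 545) (nat_lit 66) (@Lb.g g8 (@Lb.g g9 (@Lb.g g10 (@Lb.g g11 (@Lb.r r2705 (@Lb.r r292 (@Lb.r r539 (@Lb.r r390 (@Lb.r r1540 (@Lb.d (nat_lit 552) (nat_lit 130) (nat_lit 145) (@Lb.fp (nat_lit 9) t6018))))))))))))
noncomputable def l33470 : Lb := (@Lb.d (nat_lit 9) (nat_lit 545) (nat_lit 66) (@Lb.g g8 (@Lb.g g9 (@Lb.g g10 (@Lb.g g11 (@Lb.r r387 (@Lb.r r1177 (@Lb.r r1426 (@Lb.d (nat_lit 97) (nat_lit 149) (nat_lit 425) (@Lb.fm (nat_lit 9) t2341))))))))))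
noncomputable def l33471 : Lb := (@Lb.d (nat_lit 128) (nat_lit 513) (nat_lit 0) (@Lb.g g8 (@Lb.g g9 (@Lb.r r263 (@Lb.r r580 (@Lb.r r2154 (@Lb.r r2137 (@Lb.d (nat_lit 160) (nat_lit 148) (nat_lit 161) (@Lb.fm (nat_lit 3) t3589)))))))))
noncomputable def l33472 : Lb := (@Lb.d (nat_lit 0) (nat_lit 289) (nat_lit 66) (@Lb.g g8 (@Lb.g g9 (@Lb.g g10 (@Lb.g g11 (@Lb.r r2705 (@Lb.r r292 (@Lb.r r539 (@Lb.r r390 (@Lb.r r1540 (@Lb.d (nat_lit 552) (nat_lit 130) (nat_lit 145) (@Lb.fp (nat_lit 9) t6018))))))))))))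
noncomputable def l33473 : Lb := (@Lb.d (nat_lit 2) (nat_lit 546) (nat_lit 130) (@Lb.g g8 (@Lb.g g9 (@Lb.g g10 (@Lb.g g11 (@Lb.r r387 (@Lb.r r2154 (@Lb.r r2073 (@Lb.d (nat_lit 265) (nat_lit 20) (nat_lit 9) (@Lb.fp (nat_lit 9) t475))))))))))
noncomputable def l33474 : Lb := (@Lb.d (nat_lit 4) (nat_lit 256) (nat_lit 2) (@Lb.g g8 (@Lb.g g9 (@Lb.g g10 (@Lb.g g11 (@Lb.r r1675 (@Lb.r r164 (@Lb.r r2469 (@Lb.r r2150 (@Lb.r r1156 (@Lb.d (nat_lit 5) (nat_lit 160) (nat_lit 672) (@Lb.fp (nat_lit 9) t51))))))))))))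
noncomputable def l33475 : Lb := (@Lb.d (nat_lit 2) (nat_lit 258) (nat_lit 137) (@Lb.g g8 (@Lb.g g9 (@Lb.g g10 (@Lb.g g11 (@Lb.r r1706 (@Lb.r r2457 (@Lb.r r1639 (@Lb.r r2436 (@Lb.d (nat_lit 105) (nat_lit 65) (nat_lit 602) (@Lb.fp (nat_lit 9) t994)))))))))))
noncomputable def l33476 : Lb := (@Lb.d (nat_lit 4) (nat_lit 512) (nat_lit 2) (@Lb.g g8 (@Lb.g g9 (@Lb.g g10 (@Lb.g g11 (@Lb.r r1675 (@Lb.r r164 (@Lb.r r2469 (@Lb.r r2150 (@Lb.r r1156 (@Lb.d (nat_lit 5) (nat_lit 160) (nat_lit 618) (@Lb.fp (nat_lit 9) t51))))))))))))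
noncomputable def l33477 : Lb := (@Lb.d (nat_lit 0) (nat_lit 512) (nat_lit 64) (@Lb.g g10 (@Lb.g g7 (@Lb.r r1414 (@Lb.r r149 (@Lb.r r2120 (@Lb.d (nat_lit 256) (nat_lit 0) (nat_lit 512) (@Lb.fp (nat_lit 3) t145))))))))
noncomputable def l33478 : Lb := (@Lb.d (nat_lit 2) (nat_lit 2) (nat_lit 2) (@Lb.g g8 (@Lb.g g9 (@Lb.g g10 (@Lb.g g11 (@Lb.r r1675 (@Lb.r r164 (@Lb.r r2469 (@Lb.r r2150 (@Lb.r r1156 (@Lb.d (nat_lit 5) (nat_lit 160) (nat_lit 618) (@Lb.fp (nat_lit 9) t51))))))))))))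
noncomputable def l33479 : Lb := (@Lb.d (nat_lit 164) (nat_lit 281) (nat_lit 81) (@Lb.r r603 (@Lb.r r532 (@Lb.r r2409 (@Lb.r r1106 (@Lb.g g7 (@Lb.g g6 (@Lb.g g5 (@Lb.d (nat_lit 64) (nat_lit 1) (nat_lit 65) (@Lb.t (@Lb.fp (nat_lit 9) t334)))))))))))
noncomputable def l33480 : Lb := (@Lb.d (nat_lit 160) (nat_lit 264) (nat_lit 128) (@Lb.g g10 (@Lb.g g11 (@Lb.r r89 (@Lb.r r264 (@Lb.r r1367 (@Lb.r r1698 (@Lb.d (nat_lit 545) (nat_lit 148) (nat_lit 522) (@Lb.fm (nat_lit 3) t2)))))))))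
noncomputable def l33481 : Lb := (@Lb.d (nat_lit 5) (nat_lit 320) (nat_lit 64) (@Lb.r r340 (@Lb.r r2730 (@Lb.r r2713 (@Lb.r r411 (@Lb.r r404 (@Lb.g g11 (@Lb.g g6 (@Lb.g g9 (@Lb.g g4 (@Lb.fm (nat_lit 9) t2)))))))))))
noncomputable def l33482 : Lb := (@Lb.d (nat_lit 0) (nat_lit 2) (nat_lit 66) (@Lb.g g8 (@Lb.g g9 (@Lb.g g10 (@Lb.g g7 (@Lb.r r1442 (@Lb.r r145 (@Lb.r r2120 (@Lb.d (nat_lit 608) (nat_lit 169) (nat_lit 33) (@Lb.fm (nat_lit 9) t3206))))))))))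
noncomputable def l33483 : Lb := (@Lb.d (nat_lit 2) (nat_lit 514) (nat_lit 2) (@Lb.g g8 (@Lb.g g9 (@Lb.g g10 (@Lb.g g11 (@Lb.r r1675 (@Lb.r r536 (@Lb.r r2197 (@Lb.r r2646 (@Lb.r r164 (@Lb.d (nat_lit 392) (nat_lit 137) (nat_lit 361) (@Lb.fp (nat_lit 9) t3245))))))))))))
noncomputable def l33484 : Lb := (@Lb.d (nat_lit 2) (nat_lit 258) (nat_lit 2) (@Lb.g g8 (@Lb.g g9 (@Lb.g g10 (@Lb.g g11 (@Lb.r r1675 (@Lb.r r536 (@Lb.r r2197 (@Lb.r r2646 (@Lb.r r164 (@Lb.d (nat_lit 392) (nat_lit 130) (nat_lit 362) (@Lb.fp (nat_lit 9) t6019))))))))))))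
noncomputable def l33485 : Lb := (@Lb.d (nat_lit 1) (nat_lit 512) (nat_lit 128) (@Lb.g g8 (@Lb.g g11 (@Lb.r r2375 (@Lb.r r2178 (@Lb.r r1561 (@Lb.r r2628 (@Lb.d (nat_lit 416) (nat_lit 0) (nat_lit 426) (@Lb.fp (nat_lit 3) t1743)))))))))
noncomputable def l33486 : Lb := (@Lb.r r323 (@Lb.d (nat_lit 33) (nat_lit 516) (nat_lit 0) (@Lb.g g8 (@Lb.g g9 (@Lb.g g10 (@Lb.r r683 (@Lb.r r170 (@Lb.r r153 (@Lb.r r132 (@Lb.d (nat_lit 34) (nat_lit 2) (nat_lit 84) (@Lb.t (@Lb.fm (nat_lit 9) t1499))))))))))))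
noncomputable def l33487 : Lb := (@Lb.r r82 (@Lb.d (nat_lit 9) (nat_lit 257) (nat_lit 128) (@Lb.g g8 (@Lb.g g5 (@Lb.g g11 (@Lb.r r660 (@Lb.r r263 (@Lb.r r146 (@Lb.r r516 (@Lb.d (nat_lit 1) (nat_lit 4) (nat_lit 138) (@Lb.t (@Lb.fm (nat_lit 9) t594))))))))))))
noncomputable def l33488 : Lb := (@Lb.d (nat_lit 2) (nat_lit 258) (nat_lit 4) (@Lb.g g8 (@Lb.g g9 (@Lb.g g10 (@Lb.g g11 (@Lb.r r2666 (@Lb.r r612 (@Lb.r r615 (@Lb.r r2657 (@Lb.r r2084 (@Lb.d (nat_lit 10) (nat_lit 169) (nat_lit 666) (@Lb.fp (nat_lit 9) t71))))))))))))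
noncomputable def l33489 : Lb := (@Lb.d (nat_lit 1) (nat_lit 0) (nat_lit 128) (@Lb.g g8 (@Lb.g g11 (@Lb.r r2375 (@Lb.r r1668 (@Lb.r r1158 (@Lb.r r1169 (@Lb.d (nat_lit 533) (nat_lit 1) (nat_lit 138) (@Lb.fp (nat_lit 3) t3845)))))))))
noncomputable def l33490 : Lb := (@Lb.r r1543 (@Lb.r r2376 (@Lb.r r1158 (@Lb.r r1169 (@Lb.d (nat_lit 1) (nat_lit 512) (nat_lit 0) (@Lb.fm (nat_lit 1) t296))))))
noncomputable def l33491 : Lb := (@Lb.d (nat_lit 0) (nat_lit 2) (nat_lit 66) (@Lb.g g9 (@Lb.g g10 (@Lb.g g7 (@Lb.r r417 (@Lb.r r98 (@Lb.r r24 (@Lb.d (nat_lit 10) (nat_lit 72) (nat_lit 322) (@Lb.t (@Lb.fp (nat_lit 9) t1947))))))))))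
noncomputable def l33492 : Lb := (@Lb.d (nat_lit 656) (nat_lit 266) (nat_lit 389) (@Lb.r r24 (@Lb.r r101 (@Lb.r r386 (@Lb.g g11 (@Lb.g g6 (@Lb.d (nat_lit 0) (nat_lit 0) (nat_lit 1) (@Lb.fm (nat_lit 3) t3338))))))))
noncomputable def l33493 : Lb := (@Lb.d (nat_lit 153) (nat_lit 530) (nat_lit 0) (@Lb.g g8 (@Lb.g g9 (@Lb.g g10 (@Lb.g g11 (@Lb.r r1706 (@Lb.r r644 (@Lb.r r1559 (@Lb.r r2345 (@Lb.r r36 (@Lb.d (nat_lit 417) (nat_lit 161) (nat_lit 66) (@Lb.fm (nat_lit 9) t1107))))))))))))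
noncomputable def l33494 : Lb := (@Lb.d (nat_lit 133) (nat_lit 402) (nat_lit 320) (@Lb.r r1114 (@Lb.r r1307 (@Lb.g g5 (@Lb.d (nat_lit 4) (nat_lit 1) (nat_lit 0) (@Lb.t (@Lb.fm (nat_lit 3) t1440)))))))
noncomputable def l33495 : Lb := (@Lb.g g5 (@Lb.r r24 (@Lb.d (nat_lit 321) (nat_lit 64) (nat_lit 576) (@Lb.t (@Lb.fp (nat_lit 3) t716)))))
noncomputable def l33496 : Lb := (@Lb.d (nat_lit 528) (nat_lit 0) (nat_lit 64) (@Lb.r r24 (@Lb.r r101 (@Lb.r r2659 (@Lb.g g10 (@Lb.g g5 (@Lb.g g4 (@Lb.d (nat_lit 1) (nat_lit 0) (nat_lit 2) (@Lb.r r387 (@Lb.t (@Lb.fp (nat_lit 9) t719)))))))))))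
noncomputable def l33497 : Lb := (@Lb.d (nat_lit 9) (nat_lit 513) (nat_lit 2) (@Lb.g g8 (@Lb.g g9 (@Lb.g g10 (@Lb.g g11 (@Lb.r r676 (@Lb.r r2662 (@Lb.r r2657 (@Lb.r r2659 (@Lb.r r36 (@Lb.d (nat_lit 514) (nat_lit 90) (nat_lit 641) (@Lb.fp (nat_lit 9) t1375))))))))))))
noncomputable def l33498 : Lb := (@Lb.r r323 (@Lb.d (nat_lit 0) (nat_lit 33) (nat_lit 17) (@Lb.g g9 (@Lb.g g6 (@Lb.r r407 (@Lb.r r681 (@Lb.d (nat_lit 389) (nat_lit 154) (nat_lit 165) (@Lb.fm (nat_lit 3) t2146))))))))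
noncomputable def l33499 : Lb := (@Lb.r r323 (@Lb.d (nat_lit 0) (nat_lit 290) (nat_lit 17) (@Lb.g g9 (@Lb.g g6 (@Lb.r r403 (@Lb.r r673 (@Lb.d (nat_lit 352) (nat_lit 154) (nat_lit 42) (@Lb.fm (nat_lit 3) t2146))))))))
noncomputable def l33500 : Lb := (@Lb.r r81 (@Lb.d (nat_lit 137) (nat_lit 256) (nat_lit 9) (@Lb.g g8 (@Lb.g g6 (@Lb.r r423 (@Lb.r r1429 (@Lb.r r2660 (@Lb.d (nat_lit 130) (nat_lit 154) (nat_lit 358) (@Lb.fp (nat_lit 3) t213)))))))))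
noncomputable def l33501 : Lb := (@Lb.d (nat_lit 1) (nat_lit 512) (nat_lit 73) (@Lb.g g8 (@Lb.g g9 (@Lb.g g10 (@Lb.g g11 (@Lb.r r1451 (@Lb.r r2201 (@Lb.r r146 (@Lb.d (nat_lit 288) (nat_lit 105) (nat_lit 673) (@Lb.fm (nat_lit 9) t296))))))))))
noncomputable def l33502 : Lb := (@Lb.d (nat_lit 10) (nat_lit 256) (nat_lit 2) (@Lb.g g8 (@Lb.g g10 (@Lb.r r659 (@Lb.r r578 (@Lb.r r149 (@Lb.r r168 (@Lb.d (nat_lit 132) (nat_lit 8) (nat_lit 145) (@Lb.fm (nat_lit 3) t756)))))))))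
noncomputable def l33503 : Lb := (@Lb.r r82 (@Lb.d (nat_lit 6) (nat_lit 512) (nat_lit 0) (@Lb.g g8 (@Lb.g g9 (@Lb.r r2649 (@Lb.r r595 (@Lb.r r98 (@Lb.r r1288 (@Lb.d (nat_lit 265) (nat_lit 2) (nat_lit 672) (@Lb.fm (nat_lit 3) t3072))))))))))
noncomputable def l33504 : Lb := (@Lb.d (nat_lit 10) (nat_lit 512) (nat_lit 2) (@Lb.g g8 (@Lb.g g10 (@Lb.r r659 (@Lb.r r578 (@Lb.r r149 (@Lb.r r168 (@Lb.d (nat_lit 132) (nat_lit 6) (nat_lit 144) (@Lb.fm (nat_lit 3) t756)))))))))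
noncomputable def l33505 : Lb := (@Lb.d (nat_lit 32) (nat_lit 256) (nat_lit 2) (@Lb.g g10 (@Lb.r r663 (@Lb.r r360 (@Lb.r r681 (@Lb.r r674 (@Lb.d (nat_lit 161) (nat_lit 17) (nat_lit 152) (@Lb.t (@Lb.fp (nat_lit 3) t756)))))))))
noncomputable def l33506 : Lb := (@Lb.d (nat_lit 5) (nat_lit 256) (nat_lit 0) (@Lb.g g4 (@Lb.r r402 (@Lb.d (nat_lit 6) (nat_lit 73) (nat_lit 514) (@Lb.t (@Lb.fp (nat_lit 3) t387))))))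
noncomputable def l33507 : Lb := (@Lb.d (nat_lit 1) (nat_lit 512) (nat_lit 73) (@Lb.g g8 (@Lb.g g9 (@Lb.g g10 (@Lb.g g11 (@Lb.r r276 (@Lb.r r539 (@Lb.r r405 (@Lb.r r342 (@Lb.r r676 (@Lb.d (nat_lit 8) (nat_lit 2) (nat_lit 68) (@Lb.fm (nat_lit 9) t2))))))))))))
noncomputable def l33508 : Lb := (@Lb.d (nat_lit 410) (nat_lit 260) (nat_lit 273) (@Lb.r r24 (@Lb.r r402 (@Lb.r r323 (@Lb.g g7 (@Lb.g g6 (@Lb.g g9 (@Lb.d (nat_lit 8) (nat_lit 2) (nat_lit 64) (@Lb.t (@Lb.fm (nat_lit 9) t4696))))))))))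
noncomputable def l33509 : Lb := (@Lb.d (nat_lit 2) (nat_lit 258) (nat_lit 2) (@Lb.g g8 (@Lb.g g9 (@Lb.g g10 (@Lb.g g11 (@Lb.r r1065 (@Lb.r r360 (@Lb.r r582 (@Lb.r r583 (@Lb.r r2180 (@Lb.d (nat_lit 0) (nat_lit 10) (nat_lit 161) (@Lb.fm (nat_lit 9) t322))))))))))))
noncomputable def l33510 : Lb := (@Lb.r r323 (@Lb.d (nat_lit 129) (nat_lit 258) (nat_lit 2) (@Lb.g g8 (@Lb.g g9 (@Lb.g g10 (@Lb.r r2193 (@Lb.r r402 (@Lb.r r583 (@Lb.r r2312 (@Lb.d (nat_lit 134) (nat_lit 65) (nat_lit 592) (@Lb.t (@Lb.fp (nat_lit 9) t756))))))))))))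
noncomputable def l33511 : Lb := (@Lb.d (nat_lit 0) (nat_lit 613) (nat_lit 129) (@Lb.r r1617 (@Lb.r r354 (@Lb.g g11 (@Lb.g g5 (@Lb.g g4 (@Lb.d (nat_lit 0) (nat_lit 5) (nat_lit 0) (@Lb.t (@Lb.fm (nat_lit 9) t246)))))))))
noncomputable def l33512 : Lb := (@Lb.d (nat_lit 18) (nat_lit 2) (nat_lit 0) (@Lb.g g8 (@Lb.g g9 (@Lb.g g10 (@Lb.r r2666 (@Lb.r r579 (@Lb.r r97 (@Lb.r r1432 (@Lb.d (nat_lit 265) (nat_lit 148) (nat_lit 649) (@Lb.t (@Lb.fp (nat_lit 9) t408)))))))))))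
noncomputable def l33513 : Lb := (@Lb.d (nat_lit 358) (nat_lit 658) (nat_lit 518) (@Lb.r r1604 (@Lb.r r2645 (@Lb.r r2730 (@Lb.g g11 (@Lb.g g6 (@Lb.g g5 (@Lb.g g4 (@Lb.d (nat_lit 1) (nat_lit 0) (nat_lit 129) (@Lb.fp (nat_lit 9) t408))))))))))
noncomputable def l33514 : Lb := (@Lb.d (nat_lit 358) (nat_lit 146) (nat_lit 518) (@Lb.r r1604 (@Lb.r r2645 (@Lb.r r2730 (@Lb.g g11 (@Lb.g g6 (@Lb.g g5 (@Lb.g g4 (@Lb.d (nat_lit 1) (nat_lit 0) (nat_lit 72) (@Lb.fp (nat_lit 9) t408))))))))))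
noncomputable def l33515 : Lb := (@Lb.d (nat_lit 0) (nat_lit 4) (nat_lit 128) (@Lb.g g9 (@Lb.g g10 (@Lb.g g11 (@Lb.r r2729 (@Lb.r r1572 (@Lb.r r1671 (@Lb.r r578 (@Lb.d (nat_lit 512) (nat_lit 10) (nat_lit 168) (@Lb.t (@Lb.fm (nat_lit 9) t400)))))))))))
noncomputable def l33516 : Lb := (@Lb.r r323 (@Lb.d (nat_lit 130) (nat_lit 514) (nat_lit 2) (@Lb.g g8 (@Lb.g g9 (@Lb.g g10 (@Lb.r r263 (@Lb.r r2193 (@Lb.r r406 (@Lb.r r2632 (@Lb.d (nat_lit 662) (nat_lit 65) (nat_lit 25) (@Lb.t (@Lb.fm (nat_lit 9) t145))))))))))))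
noncomputable def l33517 : Lb := (@Lb.d (nat_lit 0) (nat_lit 522) (nat_lit 34) (@Lb.r r402 (@Lb.r r101 (@Lb.r r24 (@Lb.g g11 (@Lb.t (@Lb.fm (nat_lit 3) t263)))))))
noncomputable def l33518 : Lb := (@Lb.d (nat_lit 98) (nat_lit 601) (nat_lit 262) (@Lb.r r597 (@Lb.r r296 (@Lb.r r418 (@Lb.g g11 (@Lb.g g6 (@Lb.g g5 (@Lb.g g4 (@Lb.d (nat_lit 1) (nat_lit 18) (nat_lit 257) (@Lb.fm (nat_lit 9) t3457))))))))))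
noncomputable def l33519 : Lb := (@Lb.d (nat_lit 2) (nat_lit 256) (nat_lit 128) (@Lb.g g8 (@Lb.g g11 (@Lb.r r2577 (@Lb.r r2587 (@Lb.r r358 (@Lb.r r2564 (@Lb.d (nat_lit 5) (nat_lit 66) (nat_lit 128) (@Lb.fp (nat_lit 3) t1639)))))))))
noncomputable def l33520 : Lb := (@Lb.r r21 (@Lb.d (nat_lit 2) (nat_lit 0) (nat_lit 130) (@Lb.g g8 (@Lb.g g10 (@Lb.g g11 (@Lb.r r395 (@Lb.r r392 (@Lb.r r90 (@Lb.r r145 (@Lb.d (nat_lit 2) (nat_lit 68) (nat_lit 257) (@Lb.t (@Lb.fp (nat_lit 9) t51))))))))))))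
noncomputable def l33521 : Lb := (@Lb.r r323 (@Lb.d (nat_lit 129) (nat_lit 0) (nat_lit 2) (@Lb.g g8 (@Lb.g g9 (@Lb.g g10 (@Lb.r r362 (@Lb.r r391 (@Lb.r r1425 (@Lb.r r1540 (@Lb.d (nat_lit 386) (nat_lit 149) (nat_lit 105) (@Lb.t (@Lb.fm (nat_lit 9) t1242))))))))))))
noncomputable def l33522 : Lb := (@Lb.d (nat_lit 0) (nat_lit 512) (nat_lit 66) (@Lb.g g4 (@Lb.g g9 (@Lb.g g10 (@Lb.g g7 (@Lb.r r386 (@Lb.r r101 (@Lb.d (nat_lit 24) (nat_lit 26) (nat_lit 265) (@Lb.fp (nat_lit 9) t6020)))))))))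
noncomputable def l33523 : Lb := (@Lb.d (nat_lit 0) (nat_lit 2) (nat_lit 130) (@Lb.g g9 (@Lb.g g10 (@Lb.g g11 (@Lb.r r427 (@Lb.r r420 (@Lb.r r2438 (@Lb.r r97 (@Lb.d (nat_lit 406) (nat_lit 137) (nat_lit 164) (@Lb.t (@Lb.fm (nat_lit 9) t1057)))))))))))
noncomputable def l33524 : Lb := (@Lb.d (nat_lit 0) (nat_lit 2) (nat_lit 130) (@Lb.g g9 (@Lb.g g10 (@Lb.g g11 (@Lb.r r427 (@Lb.r r386 (@Lb.r r97 (@Lb.d (nat_lit 136) (nat_lit 26) (nat_lit 132) (@Lb.t (@Lb.fm (nat_lit 9) t1113))))))))))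
noncomputable def l33525 : Lb := (@Lb.d (nat_lit 0) (nat_lit 2) (nat_lit 0) (@Lb.g g9 (@Lb.r r1387 (@Lb.r r2200 (@Lb.r r1194 (@Lb.r r97 (@Lb.d (nat_lit 272) (nat_lit 4) (nat_lit 32) (@Lb.t (@Lb.fm (nat_lit 3) t4673)))))))))
noncomputable def l33526 : Lb := (@Lb.d (nat_lit 0) (nat_lit 2) (nat_lit 130) (@Lb.g g9 (@Lb.g g10 (@Lb.g g11 (@Lb.r r427 (@Lb.r r386 (@Lb.r r97 (@Lb.d (nat_lit 404) (nat_lit 20) (nat_lit 100) (@Lb.t (@Lb.fm (nat_lit 9) t1022))))))))))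
noncomputable def l33527 : Lb := (@Lb.d (nat_lit 8) (nat_lit 514) (nat_lit 0) (@Lb.g g9 (@Lb.r r402 (@Lb.r r2631 (@Lb.d (nat_lit 74) (nat_lit 80) (nat_lit 576) (@Lb.t (@Lb.fp (nat_lit 3) t899)))))))
noncomputable def l33528 : Lb := (@Lb.r r338 (@Lb.d (nat_lit 8) (nat_lit 642) (nat_lit 128) (@Lb.g g9 (@Lb.g g11 (@Lb.r r347 (@Lb.r r130 (@Lb.r r24 (@Lb.d (nat_lit 600) (nat_lit 130) (nat_lit 25) (@Lb.fm (nat_lit 3) t6021)))))))))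
noncomputable def l33529 : Lb := (@Lb.d (nat_lit 10) (nat_lit 2) (nat_lit 170) (@Lb.r r1635 (@Lb.r r601 (@Lb.r r2132 (@Lb.r r1162 (@Lb.g g4 (@Lb.d (nat_lit 1) (nat_lit 0) (nat_lit 0) (@Lb.t (@Lb.fm (nat_lit 3) t2842)))))))))
noncomputable def l33530 : Lb := (@Lb.d (nat_lit 136) (nat_lit 257) (nat_lit 4) (@Lb.g g8 (@Lb.g g9 (@Lb.g g10 (@Lb.g g11 (@Lb.r r683 (@Lb.r r618 (@Lb.r r1572 (@Lb.r r37 (@Lb.d (nat_lit 297) (nat_lit 97) (nat_lit 673) (@Lb.fp (nat_lit 9) t1033)))))))))))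
noncomputable def l33531 : Lb := (@Lb.d (nat_lit 10) (nat_lit 36) (nat_lit 134) (@Lb.r r82 (@Lb.r r421 (@Lb.r r24 (@Lb.g g11 (@Lb.g g6 (@Lb.d (nat_lit 0) (nat_lit 0) (nat_lit 1) (@Lb.fp (nat_lit 3) t2194))))))))
noncomputable def l33532 : Lb := (@Lb.r r263 (@Lb.d (nat_lit 2) (nat_lit 514) (nat_lit 2) (@Lb.g g8 (@Lb.g g9 (@Lb.g g10 (@Lb.r r2660 (@Lb.r r519 (@Lb.r r386 (@Lb.r r97 (@Lb.d (nat_lit 656) (nat_lit 168) (nat_lit 260) (@Lb.t (@Lb.fp (nat_lit 9) t31))))))))))))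
noncomputable def l33533 : Lb := (@Lb.d (nat_lit 0) (nat_lit 10) (nat_lit 129) (@Lb.g g9 (@Lb.g g10 (@Lb.g g11 (@Lb.r r1363 (@Lb.r r1362 (@Lb.r r101 (@Lb.r r24 (@Lb.d (nat_lit 593) (nat_lit 0) (nat_lit 532) (@Lb.t (@Lb.fm (nat_lit 9) t3274)))))))))))
noncomputable def l33534 : Lb := (@Lb.d (nat_lit 0) (nat_lit 16) (nat_lit 0) (@Lb.g g9 (@Lb.g g11 (@Lb.r r2595 (@Lb.r r529 (@Lb.d (nat_lit 0) (nat_lit 66) (nat_lit 384) (@Lb.fp (nat_lit 3) t1191)))))))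
noncomputable def l33535 : Lb := (@Lb.d (nat_lit 390) (nat_lit 530) (nat_lit 610) (@Lb.r r2325 (@Lb.r r2370 (@Lb.r r2435 (@Lb.r r342 (@Lb.g g7 (@Lb.g g6 (@Lb.g g5 (@Lb.g g4 (@Lb.d (nat_lit 1) (nat_lit 0) (nat_lit 128) (@Lb.fp (nat_lit 9) t6022)))))))))))
noncomputable def l33536 : Lb := (@Lb.d (nat_lit 146) (nat_lit 265) (nat_lit 66) (@Lb.g g8 (@Lb.g g9 (@Lb.g g10 (@Lb.g g11 (@Lb.r r1194 (@Lb.r r424 (@Lb.r r1303 (@Lb.r r1553 (@Lb.r r2084 (@Lb.d (nat_lit 258) (nat_lit 161) (nat_lit 106) (@Lb.fp (nat_lit 9) t1967))))))))))))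
noncomputable def l33537 : Lb := (@Lb.d (nat_lit 344) (nat_lit 89) (nat_lit 149) (@Lb.r r1105 (@Lb.r r358 (@Lb.r r85 (@Lb.r r2691 (@Lb.g g7 (@Lb.g g6 (@Lb.g g5 (@Lb.g g4 (@Lb.d (nat_lit 1) (nat_lit 1) (nat_lit 65) (@Lb.fm (nat_lit 9) t6023)))))))))))
noncomputable def l33538 : Lb := (@Lb.d (nat_lit 18) (nat_lit 265) (nat_lit 2) (@Lb.g g8 (@Lb.g g9 (@Lb.g g10 (@Lb.r r683 (@Lb.r r1686 (@Lb.r r169 (@Lb.r r148 (@Lb.d (nat_lit 33) (nat_lit 72) (nat_lit 258) (@Lb.t (@Lb.fp (nat_lit 9) t6024)))))))))))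
noncomputable def l33539 : Lb := (@Lb.d (nat_lit 405) (nat_lit 9) (nat_lit 293) (@Lb.r r24 (@Lb.r r386 (@Lb.g g11 (@Lb.g g6 (@Lb.g g5 (@Lb.d (nat_lit 4) (nat_lit 1) (nat_lit 129) (@Lb.t (@Lb.fm (nat_lit 9) t1771)))))))))
noncomputable def l33540 : Lb := (@Lb.r r277 (@Lb.r r326 (@Lb.d (nat_lit 129) (nat_lit 256) (nat_lit 128) (@Lb.g g8 (@Lb.g g11 (@Lb.r r2454 (@Lb.r r537 (@Lb.d (nat_lit 642) (nat_lit 154) (nat_lit 2) (@Lb.fp (nat_lit 3) t4715)))))))))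
noncomputable def l33541 : Lb := (@Lb.d (nat_lit 401) (nat_lit 512) (nat_lit 581) (@Lb.r r1608 (@Lb.r r2403 (@Lb.r r1301 (@Lb.r r1110 (@Lb.g g5 (@Lb.g g4 (@Lb.d (nat_lit 2) (nat_lit 1) (nat_lit 0) (@Lb.fp (nat_lit 3) t2557)))))))))
noncomputable def l33542 : Lb := (@Lb.d (nat_lit 2) (nat_lit 516) (nat_lit 74) (@Lb.g g8 (@Lb.g g9 (@Lb.g g10 (@Lb.g g11 (@Lb.r r2595 (@Lb.r r386 (@Lb.r r612 (@Lb.r r533 (@Lb.r r2084 (@Lb.d (nat_lit 545) (nat_lit 0) (nat_lit 89) (@Lb.fp (nat_lit 9) t686))))))))))))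
noncomputable def l33543 : Lb := (@Lb.r r331 (@Lb.d (nat_lit 34) (nat_lit 521) (nat_lit 1) (@Lb.g g8 (@Lb.g g9 (@Lb.g g10 (@Lb.r r2454 (@Lb.r r1371 (@Lb.r r549 (@Lb.r r2708 (@Lb.d (nat_lit 294) (nat_lit 101) (nat_lit 81) (@Lb.t (@Lb.fm (nat_lit 9) t4715))))))))))))
noncomputable def l33544 : Lb := (@Lb.d (nat_lit 1) (nat_lit 258) (nat_lit 130) (@Lb.g g8 (@Lb.g g9 (@Lb.g g10 (@Lb.g g11 (@Lb.r r2411 (@Lb.r r386 (@Lb.r r97 (@Lb.r r24 (@Lb.d (nat_lit 256) (nat_lit 10) (nat_lit 152) (@Lb.fm (nat_lit 9) t61)))))))))))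
noncomputable def l33545 : Lb := (@Lb.g g4 (@Lb.g g9 (@Lb.g g7 (@Lb.r r2311 (@Lb.r r402 (@Lb.r r2145 (@Lb.r r36 (@Lb.d (nat_lit 262) (nat_lit 64) (nat_lit 576) (@Lb.t (@Lb.fm (nat_lit 9) t2257))))))))))
noncomputable def l33546 : Lb := (@Lb.d (nat_lit 1) (nat_lit 2) (nat_lit 130) (@Lb.g g8 (@Lb.g g9 (@Lb.g g10 (@Lb.g g11 (@Lb.r r2411 (@Lb.r r386 (@Lb.r r104 (@Lb.r r25 (@Lb.d (nat_lit 521) (nat_lit 9) (nat_lit 136) (@Lb.fp (nat_lit 9) t61)))))))))))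
noncomputable def l33547 : Lb := (@Lb.r r21 (@Lb.d (nat_lit 129) (nat_lit 0) (nat_lit 66) (@Lb.g g8 (@Lb.g g10 (@Lb.g g11 (@Lb.r r1411 (@Lb.r r132 (@Lb.r r2438 (@Lb.r r145 (@Lb.d (nat_lit 290) (nat_lit 0) (nat_lit 153) (@Lb.t (@Lb.fp (nat_lit 9) t523))))))))))))
noncomputable def l33548 : Lb := (@Lb.r r275 (@Lb.d (nat_lit 2) (nat_lit 514) (nat_lit 2) (@Lb.g g8 (@Lb.g g9 (@Lb.g g10 (@Lb.r r1700 (@Lb.r r1543 (@Lb.r r386 (@Lb.r r2145 (@Lb.d (nat_lit 0) (nat_lit 137) (nat_lit 100) (@Lb.t (@Lb.fp (nat_lit 9) t2312))))))))))))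
noncomputable def l33549 : Lb := (@Lb.d (nat_lit 0) (nat_lit 512) (nat_lit 5) (@Lb.g g10 (@Lb.g g11 (@Lb.r r2635 (@Lb.r r2666 (@Lb.r r101 (@Lb.r r24 (@Lb.d (nat_lit 324) (nat_lit 146) (nat_lit 256) (@Lb.fp (nat_lit 3) t6025)))))))))
noncomputable def l33550 : Lb := (@Lb.d (nat_lit 0) (nat_lit 264) (nat_lit 2) (@Lb.g g10 (@Lb.r r1427 (@Lb.r r1172 (@Lb.r r89 (@Lb.r r1126 (@Lb.d (nat_lit 277) (nat_lit 136) (nat_lit 18) (@Lb.t (@Lb.fp (nat_lit 3) t1222)))))))))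
noncomputable def l33551 : Lb := (@Lb.d (nat_lit 2) (nat_lit 272) (nat_lit 137) (@Lb.g g8 (@Lb.g g9 (@Lb.g g10 (@Lb.g g11 (@Lb.r r598 (@Lb.r r343 (@Lb.r r85 (@Lb.r r24 (@Lb.d (nat_lit 609) (nat_lit 9) (nat_lit 130) (@Lb.fm (nat_lit 9) t320)))))))))))
noncomputable def l33552 : Lb := (@Lb.r r579 (@Lb.r r616 (@Lb.r r2665 (@Lb.r r2390 (@Lb.r r1188 (@Lb.d (nat_lit 256) (nat_lit 512) (nat_lit 0) (@Lb.fm (nat_lit 1) t322)))))))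
noncomputable def l33553 : Lb := (@Lb.r r70 (@Lb.r r263 (@Lb.d (nat_lit 130) (nat_lit 2) (nat_lit 0) (@Lb.g g8 (@Lb.g g9 (@Lb.r r2457 (@Lb.r r402 (@Lb.r r2627 (@Lb.d (nat_lit 289) (nat_lit 10) (nat_lit 342) (@Lb.fm (nat_lit 3) t4350))))))))))
noncomputable def l33554 : Lb := (@Lb.d (nat_lit 261) (nat_lit 2) (nat_lit 85) (@Lb.r r24 (@Lb.r r2138 (@Lb.r r2395 (@Lb.g g7 (@Lb.g g5 (@Lb.d (nat_lit 4) (nat_lit 1) (nat_lit 128) (@Lb.fp (nat_lit 3) t1221))))))))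
noncomputable def l33555 : Lb := (@Lb.r r2129 (@Lb.d (nat_lit 1) (nat_lit 256) (nat_lit 128) (@Lb.g g8 (@Lb.g g10 (@Lb.g g11 (@Lb.r r1675 (@Lb.r r1672 (@Lb.r r1162 (@Lb.d (nat_lit 530) (nat_lit 10) (nat_lit 68) (@Lb.t (@Lb.fp (nat_lit 9) t5)))))))))))
noncomputable def l33556 : Lb := (@Lb.d (nat_lit 262) (nat_lit 6) (nat_lit 273) (@Lb.r r81 (@Lb.r r102 (@Lb.r r597 (@Lb.r r343 (@Lb.g g7 (@Lb.g g6 (@Lb.g g5 (@Lb.g g4 (@Lb.d (nat_lit 1) (nat_lit 1) (nat_lit 65) (@Lb.fp (nat_lit 9) t473)))))))))))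
noncomputable def l33557 : Lb := (@Lb.r r609 (@Lb.r r548 (@Lb.r r295 (@Lb.r r390 (@Lb.r r516 (@Lb.d (nat_lit 512) (nat_lit 256) (nat_lit 160) (@Lb.fp (nat_lit 1) t40)))))))
noncomputable def l33558 : Lb := (@Lb.d (nat_lit 256) (nat_lit 256) (nat_lit 410) (@Lb.r r402 (@Lb.r r101 (@Lb.g g4 (@Lb.t (@Lb.fm (nat_lit 3) t6026))))))
noncomputable def l33559 : Lb := (@Lb.d (nat_lit 646) (nat_lit 86) (nat_lit 82) (@Lb.r r1301 (@Lb.r r1366 (@Lb.r r683 (@Lb.g g7 (@Lb.g g6 (@Lb.g g5 (@Lb.g g4 (@Lb.d (nat_lit 8) (nat_lit 0) (nat_lit 70) (@Lb.fm (nat_lit 9) t2488))))))))))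
noncomputable def l33560 : Lb := (@Lb.d (nat_lit 2) (nat_lit 264) (nat_lit 33) (@Lb.g g8 (@Lb.g g6 (@Lb.r r2651 (@Lb.r r2644 (@Lb.r r2201 (@Lb.d (nat_lit 261) (nat_lit 101) (nat_lit 642) (@Lb.fm (nat_lit 3) t3333))))))))
noncomputable def l33561 : Lb := (@Lb.r r21 (@Lb.r r70 (@Lb.d (nat_lit 137) (nat_lit 0) (nat_lit 256) (@Lb.g g8 (@Lb.g g7 (@Lb.r r402 (@Lb.r r2581 (@Lb.r r360 (@Lb.d (nat_lit 388) (nat_lit 37) (nat_lit 406) (@Lb.fp (nat_lit 3) t6027))))))))))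
noncomputable def l33562 : Lb := (@Lb.d (nat_lit 4) (nat_lit 256) (nat_lit 73) (@Lb.g g8 (@Lb.g g9 (@Lb.g g10 (@Lb.g g11 (@Lb.r r420 (@Lb.r r603 (@Lb.r r1433 (@Lb.r r1114 (@Lb.r r2068 (@Lb.d (nat_lit 529) (nat_lit 66) (nat_lit 145) (@Lb.fm (nat_lit 9) t787))))))))))))
noncomputable def l33563 : Lb := (@Lb.d (nat_lit 2) (nat_lit 258) (nat_lit 1) (@Lb.g g8 (@Lb.g g9 (@Lb.g g10 (@Lb.r r2339 (@Lb.r r2089 (@Lb.r r648 (@Lb.r r1178 (@Lb.d (nat_lit 293) (nat_lit 170) (nat_lit 592) (@Lb.t (@Lb.fp (nat_lit 9) t6028)))))))))))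
noncomputable def l33564 : Lb := (@Lb.r r21 (@Lb.d (nat_lit 129) (nat_lit 0) (nat_lit 258) (@Lb.g g8 (@Lb.g g10 (@Lb.g g7 (@Lb.r r1176 (@Lb.r r2469 (@Lb.r r98 (@Lb.d (nat_lit 0) (nat_lit 168) (nat_lit 18) (@Lb.t (@Lb.fp (nat_lit 9) t3512)))))))))))
noncomputable def l33565 : Lb := (@Lb.d (nat_lit 4) (nat_lit 0) (nat_lit 73) (@Lb.g g8 (@Lb.g g9 (@Lb.g g10 (@Lb.g g11 (@Lb.r r612 (@Lb.r r359 (@Lb.r r409 (@Lb.r r90 (@Lb.r r1044 (@Lb.d (nat_lit 545) (nat_lit 136) (nat_lit 128) (@Lb.fp (nat_lit 9) t253))))))))))))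
noncomputable def l33566 : Lb := (@Lb.r r82 (@Lb.d (nat_lit 6) (nat_lit 258) (nat_lit 0) (@Lb.g g4 (@Lb.g g9 (@Lb.r r2122 (@Lb.r r609 (@Lb.d (nat_lit 101) (nat_lit 26) (nat_lit 426) (@Lb.fm (nat_lit 3) t1427))))))))
noncomputable def l33567 : Lb := (@Lb.d (nat_lit 2) (nat_lit 514) (nat_lit 73) (@Lb.g g8 (@Lb.g g9 (@Lb.g g10 (@Lb.g g11 (@Lb.r r420 (@Lb.r r603 (@Lb.r r1433 (@Lb.r r1114 (@Lb.r r2068 (@Lb.d (nat_lit 529) (nat_lit 68) (nat_lit 89) (@Lb.fm (nat_lit 9) t787))))))))))))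
noncomputable def l33568 : Lb := (@Lb.d (nat_lit 0) (nat_lit 0) (nat_lit 130) (@Lb.g g10 (@Lb.g g11 (@Lb.r r1447 (@Lb.r r386 (@Lb.r r101 (@Lb.r r8 (@Lb.d (nat_lit 352) (nat_lit 89) (nat_lit 132) (@Lb.fp (nat_lit 3) t4840)))))))))
noncomputable def l33569 : Lb := (@Lb.d (nat_lit 0) (nat_lit 512) (nat_lit 130) (@Lb.g g10 (@Lb.g g11 (@Lb.r r1447 (@Lb.r r386 (@Lb.r r101 (@Lb.r r8 (@Lb.d (nat_lit 354) (nat_lit 21) (nat_lit 134) (@Lb.fp (nat_lit 3) t4840)))))))))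
noncomputable def l33570 : Lb := (@Lb.d (nat_lit 537) (nat_lit 610) (nat_lit 356) (@Lb.r r21 (@Lb.r r1640 (@Lb.r r1643 (@Lb.g g7 (@Lb.g g10 (@Lb.g g4 (@Lb.d (nat_lit 1) (nat_lit 8) (nat_lit 65) (@Lb.r r25 (@Lb.t (@Lb.fm (nat_lit 9) t715)))))))))))
noncomputable def l33571 : Lb := (@Lb.d (nat_lit 658) (nat_lit 261) (nat_lit 390) (@Lb.r r580 (@Lb.r r289 (@Lb.r r362 (@Lb.g g7 (@Lb.g g4 (@Lb.d (nat_lit 18) (nat_lit 0) (nat_lit 68) (@Lb.fp (nat_lit 3) t1830))))))))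
noncomputable def l33572 : Lb := (@Lb.d (nat_lit 32) (nat_lit 2) (nat_lit 73) (@Lb.g g9 (@Lb.g g10 (@Lb.g g11 (@Lb.r r2709 (@Lb.r r1380 (@Lb.r r2715 (@Lb.r r1622 (@Lb.d (nat_lit 422) (nat_lit 106) (nat_lit 513) (@Lb.t (@Lb.fp (nat_lit 9) t1914)))))))))))
noncomputable def l33573 : Lb := (@Lb.d (nat_lit 128) (nat_lit 642) (nat_lit 64) (@Lb.g g9 (@Lb.g g11 (@Lb.r r292 (@Lb.r r539 (@Lb.r r134 (@Lb.d (nat_lit 581) (nat_lit 36) (nat_lit 21) (@Lb.fm (nat_lit 3) t2423))))))))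
noncomputable def l33574 : Lb := (@Lb.d (nat_lit 0) (nat_lit 292) (nat_lit 64) (@Lb.g g9 (@Lb.g g10 (@Lb.g g11 (@Lb.r r387 (@Lb.r r161 (@Lb.r r1442 (@Lb.r r2193 (@Lb.d (nat_lit 0) (nat_lit 8) (nat_lit 346) (@Lb.t (@Lb.fm (nat_lit 9) t406)))))))))))
noncomputable def l33575 : Lb := (@Lb.d (nat_lit 73) (nat_lit 294) (nat_lit 64) (@Lb.g g8 (@Lb.g g9 (@Lb.g g10 (@Lb.g g11 (@Lb.r r2315 (@Lb.r r678 (@Lb.r r2580 (@Lb.r r153 (@Lb.d (nat_lit 21) (nat_lit 25) (nat_lit 105) (@Lb.fm (nat_lit 9) t3412)))))))))))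
noncomputable def l33576 : Lb := (@Lb.d (nat_lit 2) (nat_lit 0) (nat_lit 64) (@Lb.g g8 (@Lb.g g9 (@Lb.g g11 (@Lb.r r356 (@Lb.r r1307 (@Lb.r r2178 (@Lb.r r533 (@Lb.r r1060 (@Lb.d (nat_lit 0) (nat_lit 101) (nat_lit 344) (@Lb.t (@Lb.fp (nat_lit 9) t4806))))))))))))
noncomputable def l33577 : Lb := (@Lb.d (nat_lit 2) (nat_lit 258) (nat_lit 73) (@Lb.g g8 (@Lb.g g9 (@Lb.g g10 (@Lb.g g11 (@Lb.r r1559 (@Lb.r r2394 (@Lb.r r97 (@Lb.r r24 (@Lb.d (nat_lit 660) (nat_lit 160) (nat_lit 326) (@Lb.fm (nat_lit 9) t6029)))))))))))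
noncomputable def l33578 : Lb := (@Lb.r r323 (@Lb.d (nat_lit 40) (nat_lit 2) (nat_lit 2) (@Lb.g g9 (@Lb.g g10 (@Lb.r r584 (@Lb.r r299 (@Lb.r r1425 (@Lb.d (nat_lit 294) (nat_lit 9) (nat_lit 136) (@Lb.fp (nat_lit 3) t410)))))))))
noncomputable def l33579 : Lb := (@Lb.d (nat_lit 2) (nat_lit 277) (nat_lit 0) (@Lb.g g8 (@Lb.g g9 (@Lb.g g10 (@Lb.g g11 (@Lb.r r2595 (@Lb.r r386 (@Lb.r r532 (@Lb.r r361 (@Lb.r r1060 (@Lb.d (nat_lit 416) (nat_lit 10) (nat_lit 388) (@Lb.fm (nat_lit 9) t50))))))))))))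
noncomputable def l33580 : Lb := (@Lb.r r90 (@Lb.d (nat_lit 73) (nat_lit 673) (nat_lit 64) (@Lb.g g8 (@Lb.g g9 (@Lb.g g11 (@Lb.r r663 (@Lb.r r2726 (@Lb.r r1128 (@Lb.d (nat_lit 389) (nat_lit 1) (nat_lit 325) (@Lb.t (@Lb.fp (nat_lit 9) t6030)))))))))))
noncomputable def l33581 : Lb := (@Lb.d (nat_lit 0) (nat_lit 36) (nat_lit 64) (@Lb.g g9 (@Lb.g g10 (@Lb.g g11 (@Lb.r r2154 (@Lb.r r2408 (@Lb.r r1385 (@Lb.r r2451 (@Lb.d (nat_lit 129) (nat_lit 96) (nat_lit 340) (@Lb.t (@Lb.fm (nat_lit 9) t6031)))))))))))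
noncomputable def l33582 : Lb := (@Lb.r r21 (@Lb.r r331 (@Lb.d (nat_lit 677) (nat_lit 0) (nat_lit 2) (@Lb.g g8 (@Lb.g g10 (@Lb.r r362 (@Lb.r r1411 (@Lb.r r25 (@Lb.d (nat_lit 9) (nat_lit 161) (nat_lit 618) (@Lb.fm (nat_lit 3) t394))))))))))
noncomputable def l33583 : Lb := (@Lb.r r323 (@Lb.d (nat_lit 32) (nat_lit 512) (nat_lit 2) (@Lb.g g10 (@Lb.r r584 (@Lb.r r299 (@Lb.r r1425 (@Lb.d (nat_lit 294) (nat_lit 138) (nat_lit 1) (@Lb.t (@Lb.fm (nat_lit 3) t410)))))))))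
noncomputable def l33584 : Lb := (@Lb.d (nat_lit 10) (nat_lit 262) (nat_lit 64) (@Lb.g g8 (@Lb.g g9 (@Lb.g g10 (@Lb.g g11 (@Lb.r r683 (@Lb.r r1689 (@Lb.r r1178 (@Lb.r r1156 (@Lb.d (nat_lit 345) (nat_lit 65) (nat_lit 408) (@Lb.fp (nat_lit 9) t2491)))))))))))
noncomputable def l33585 : Lb := (@Lb.d (nat_lit 0) (nat_lit 2) (nat_lit 130) (@Lb.g g9 (@Lb.g g10 (@Lb.g g11 (@Lb.r r2691 (@Lb.r r644 (@Lb.r r1366 (@Lb.r r421 (@Lb.r r2068 (@Lb.d (nat_lit 676) (nat_lit 161) (nat_lit 74) (@Lb.t (@Lb.fm (nat_lit 9) t1866))))))))))))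
noncomputable def l33586 : Lb := (@Lb.d (nat_lit 2) (nat_lit 258) (nat_lit 130) (@Lb.g g4 (@Lb.g g9 (@Lb.g g10 (@Lb.g g11 (@Lb.r r2691 (@Lb.r r145 (@Lb.r r1626 (@Lb.r r1169 (@Lb.d (nat_lit 678) (nat_lit 161) (nat_lit 74) (@Lb.fp (nat_lit 9) t1866)))))))))))
noncomputable def l33587 : Lb := (@Lb.d (nat_lit 0) (nat_lit 0) (nat_lit 128) (@Lb.g g10 (@Lb.g g11 (@Lb.r r2707 (@Lb.r r1385 (@Lb.r r1174 (@Lb.r r8 (@Lb.d (nat_lit 69) (nat_lit 73) (nat_lit 546) (@Lb.fm (nat_lit 3) t646)))))))))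
noncomputable def l33588 : Lb := (@Lb.d (nat_lit 385) (nat_lit 664) (nat_lit 278) (@Lb.r r2389 (@Lb.r r2475 (@Lb.r r1386 (@Lb.r r100 (@Lb.g g7 (@Lb.g g5 (@Lb.d (nat_lit 68) (nat_lit 5) (nat_lit 128) (@Lb.fm (nat_lit 3) t3447)))))))))
noncomputable def l33589 : Lb := (@Lb.d (nat_lit 34) (nat_lit 256) (nat_lit 0) (@Lb.g g8 (@Lb.g g9 (@Lb.r r1451 (@Lb.r r594 (@Lb.r r341 (@Lb.r r1124 (@Lb.d (nat_lit 330) (nat_lit 73) (nat_lit 514) (@Lb.fm (nat_lit 3) t2013)))))))))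
noncomputable def l33590 : Lb := (@Lb.d (nat_lit 389) (nat_lit 422) (nat_lit 577) (@Lb.r r2600 (@Lb.r r2666 (@Lb.r r1559 (@Lb.g g7 (@Lb.g g5 (@Lb.g g4 (@Lb.d (nat_lit 130) (nat_lit 129) (nat_lit 0) (@Lb.r r74 (@Lb.t (@Lb.fp (nat_lit 9) t217)))))))))))
noncomputable def l33591 : Lb := (@Lb.d (nat_lit 26) (nat_lit 1) (nat_lit 0) (@Lb.g g8 (@Lb.g g9 (@Lb.g g10 (@Lb.r r683 (@Lb.r r2666 (@Lb.r r36 (@Lb.r r37 (@Lb.d (nat_lit 356) (nat_lit 0) (nat_lit 537) (@Lb.t (@Lb.fm (nat_lit 9) t2656)))))))))))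
noncomputable def l33592 : Lb := (@Lb.r r82 (@Lb.d (nat_lit 2) (nat_lit 10) (nat_lit 0) (@Lb.g g8 (@Lb.g g9 (@Lb.r r619 (@Lb.r r1430 (@Lb.r r2657 (@Lb.d (nat_lit 666) (nat_lit 164) (nat_lit 537) (@Lb.fp (nat_lit 3) t6032)))))))))
noncomputable def l33593 : Lb := (@Lb.d (nat_lit 0) (nat_lit 258) (nat_lit 73) (@Lb.g g9 (@Lb.g g10 (@Lb.g g11 (@Lb.r r2691 (@Lb.r r145 (@Lb.r r594 (@Lb.r r1169 (@Lb.d (nat_lit 280) (nat_lit 32) (nat_lit 586) (@Lb.t (@Lb.fp (nat_lit 9) t6033)))))))))))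
noncomputable def l33594 : Lb := (@Lb.r r21 (@Lb.r r70 (@Lb.r r263 (@Lb.g g8 (@Lb.r r267 (@Lb.r r402 (@Lb.r r97 (@Lb.d (nat_lit 521) (nat_lit 130) (nat_lit 512) (@Lb.t (@Lb.fp (nat_lit 3) t6034))))))))))
noncomputable def l33595 : Lb := (@Lb.r r323 (@Lb.d (nat_lit 2) (nat_lit 2) (nat_lit 2) (@Lb.g g8 (@Lb.g g9 (@Lb.g g10 (@Lb.r r2475 (@Lb.r r2154 (@Lb.r r25 (@Lb.d (nat_lit 9) (nat_lit 66) (nat_lit 18) (@Lb.t (@Lb.fm (nat_lit 9) t295)))))))))))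
noncomputable def l33596 : Lb := (@Lb.r r21 (@Lb.r r323 (@Lb.d (nat_lit 6) (nat_lit 8) (nat_lit 0) (@Lb.g g8 (@Lb.g g10 (@Lb.r r395 (@Lb.r r101 (@Lb.r r410 (@Lb.d (nat_lit 2) (nat_lit 24) (nat_lit 85) (@Lb.fm (nat_lit 3) t221))))))))))
noncomputable def l33597 : Lb := (@Lb.d (nat_lit 1) (nat_lit 40) (nat_lit 72) (@Lb.r r37 (@Lb.r r411 (@Lb.r r344 (@Lb.g g7 (@Lb.g g6 (@Lb.d (nat_lit 64) (nat_lit 0) (nat_lit 86) (@Lb.r r145 (@Lb.fm (nat_lit 3) t590)))))))))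
noncomputable def l33598 : Lb := (@Lb.r r323 (@Lb.d (nat_lit 16) (nat_lit 2) (nat_lit 1) (@Lb.g g8 (@Lb.g g9 (@Lb.g g10 (@Lb.r r427 (@Lb.r r2197 (@Lb.r r1124 (@Lb.r r1194 (@Lb.d (nat_lit 33) (nat_lit 133) (nat_lit 32) (@Lb.t (@Lb.fp (nat_lit 9) t5))))))))))))
noncomputable def l33599 : Lb := (@Lb.d (nat_lit 338) (nat_lit 261) (nat_lit 41) (@Lb.r r2182 (@Lb.r r1108 (@Lb.r r281 (@Lb.g g11 (@Lb.g g6 (@Lb.g g4 (@Lb.d (nat_lit 1) (nat_lit 0) (nat_lit 1) (@Lb.r r145 (@Lb.t (@Lb.fp (nat_lit 9) t945)))))))))))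
noncomputable def l33600 : Lb := (@Lb.d (nat_lit 130) (nat_lit 256) (nat_lit 0) (@Lb.g g8 (@Lb.r r263 (@Lb.r r1170 (@Lb.r r2145 (@Lb.r r548 (@Lb.d (nat_lit 138) (nat_lit 82) (nat_lit 128) (@Lb.t (@Lb.fp (nat_lit 3) t334)))))))))
noncomputable def l33601 : Lb := (@Lb.d (nat_lit 10) (nat_lit 258) (nat_lit 0) (@Lb.g g8 (@Lb.g g9 (@Lb.r r24 (@Lb.r r2069 (@Lb.r r36 (@Lb.d (nat_lit 10) (nat_lit 9) (nat_lit 2) (@Lb.fp (nat_lit 3) t21))))))))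
noncomputable def l33602 : Lb := (@Lb.d (nat_lit 2) (nat_lit 258) (nat_lit 66) (@Lb.g g8 (@Lb.g g9 (@Lb.g g10 (@Lb.g g7 (@Lb.r r424 (@Lb.r r106 (@Lb.r r25 (@Lb.d (nat_lit 522) (nat_lit 9) (nat_lit 610) (@Lb.fp (nat_lit 9) t988))))))))))
noncomputable def l33603 : Lb := (@Lb.r r1096 (@Lb.r r1414 (@Lb.r r1619 (@Lb.r r281 (@Lb.d (nat_lit 258) (nat_lit 641) (nat_lit 0) (@Lb.fm (nat_lit 1) t6035))))))
noncomputable def l33604 : Lb := (@Lb.r r2311 (@Lb.r r24 (@Lb.r r101 (@Lb.d (nat_lit 1) (nat_lit 386) (nat_lit 17) (@Lb.fp (nat_lit 1) t969)))))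
noncomputable def l33605 : Lb := (@Lb.d (nat_lit 257) (nat_lit 342) (nat_lit 25) (@Lb.r r1313 (@Lb.r r2643 (@Lb.g g6 (@Lb.g g5 (@Lb.d (nat_lit 16) (nat_lit 16) (nat_lit 1) (@Lb.r r387 (@Lb.fm (nat_lit 3) t6036))))))))
noncomputable def l33606 : Lb := (@Lb.d (nat_lit 5) (nat_lit 513) (nat_lit 5) (@Lb.r r24 (@Lb.r r97 (@Lb.r r386 (@Lb.g g11 (@Lb.g g6 (@Lb.g g5 (@Lb.d (nat_lit 0) (nat_lit 8) (nat_lit 128) (@Lb.t (@Lb.fp (nat_lit 9) t546))))))))))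
noncomputable def l33607 : Lb := (@Lb.d (nat_lit 8) (nat_lit 8) (nat_lit 2) (@Lb.g g8 (@Lb.g g10 (@Lb.r r2085 (@Lb.r r2068 (@Lb.d (nat_lit 6) (nat_lit 130) (nat_lit 0) (@Lb.fp (nat_lit 3) t3909)))))))
noncomputable def l33608 : Lb := (@Lb.d (nat_lit 8) (nat_lit 266) (nat_lit 129) (@Lb.g g9 (@Lb.g g10 (@Lb.g g11 (@Lb.r r1638 (@Lb.r r2452 (@Lb.r r1707 (@Lb.r r1697 (@Lb.d (nat_lit 8) (nat_lit 90) (nat_lit 553) (@Lb.t (@Lb.fm (nat_lit 9) t2710)))))))))))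
noncomputable def l33609 : Lb := (@Lb.r r1045 (@Lb.d (nat_lit 261) (nat_lit 520) (nat_lit 130) (@Lb.g g4 (@Lb.g g10 (@Lb.g g11 (@Lb.r r387 (@Lb.d (nat_lit 2) (nat_lit 66) (nat_lit 137) (@Lb.t (@Lb.fp (nat_lit 9) t51)))))))))
noncomputable def l33610 : Lb := (@Lb.r r148 (@Lb.d (nat_lit 16) (nat_lit 258) (nat_lit 130) (@Lb.g g9 (@Lb.g g10 (@Lb.g g11 (@Lb.r r2713 (@Lb.r r1563 (@Lb.r r1540 (@Lb.d (nat_lit 616) (nat_lit 2) (nat_lit 529) (@Lb.t (@Lb.fp (nat_lit 9) t86)))))))))))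
noncomputable def l33611 : Lb := (@Lb.d (nat_lit 130) (nat_lit 9) (nat_lit 1) (@Lb.g g8 (@Lb.g g9 (@Lb.g g10 (@Lb.r r1699 (@Lb.r r2394 (@Lb.r r1553 (@Lb.r r104 (@Lb.d (nat_lit 40) (nat_lit 42) (nat_lit 130) (@Lb.t (@Lb.fm (nat_lit 9) t1117)))))))))))
noncomputable def l33612 : Lb := (@Lb.d (nat_lit 2) (nat_lit 38) (nat_lit 5) (@Lb.g g8 (@Lb.g g9 (@Lb.g g10 (@Lb.g g11 (@Lb.r r683 (@Lb.r r1642 (@Lb.r r1561 (@Lb.d (nat_lit 578) (nat_lit 106) (nat_lit 401) (@Lb.fm (nat_lit 9) t4579))))))))))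
noncomputable def l33613 : Lb := (@Lb.r r323 (@Lb.d (nat_lit 2) (nat_lit 512) (nat_lit 1) (@Lb.g g8 (@Lb.g g6 (@Lb.r r387 (@Lb.r r2073 (@Lb.d (nat_lit 33) (nat_lit 5) (nat_lit 32) (@Lb.fp (nat_lit 3) t382))))))))
noncomputable def l33614 : Lb := (@Lb.d (nat_lit 2) (nat_lit 0) (nat_lit 64) (@Lb.g g8 (@Lb.g g10 (@Lb.g g7 (@Lb.r r402 (@Lb.r r2073 (@Lb.d (nat_lit 129) (nat_lit 22) (nat_lit 520) (@Lb.t (@Lb.fm (nat_lit 9) t3055)))))))))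
noncomputable def l33615 : Lb := (@Lb.r r323 (@Lb.d (nat_lit 0) (nat_lit 520) (nat_lit 34) (@Lb.g g10 (@Lb.r r2577 (@Lb.r r2459 (@Lb.r r2436 (@Lb.d (nat_lit 34) (nat_lit 0) (nat_lit 17) (@Lb.t (@Lb.fp (nat_lit 3) t221)))))))))
noncomputable def l33616 : Lb := (@Lb.r r70 (@Lb.d (nat_lit 0) (nat_lit 514) (nat_lit 128) (@Lb.g g8 (@Lb.g g9 (@Lb.g g11 (@Lb.r r386 (@Lb.r r619 (@Lb.r r1553 (@Lb.r r2152 (@Lb.d (nat_lit 260) (nat_lit 162) (nat_lit 384) (@Lb.t (@Lb.fp (nat_lit 9) t631))))))))))))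
noncomputable def l33617 : Lb := (@Lb.r r70 (@Lb.d (nat_lit 0) (nat_lit 2) (nat_lit 128) (@Lb.g g8 (@Lb.g g9 (@Lb.g g11 (@Lb.r r386 (@Lb.r r619 (@Lb.r r1553 (@Lb.r r2152 (@Lb.d (nat_lit 262) (nat_lit 162) (nat_lit 384) (@Lb.t (@Lb.fp (nat_lit 9) t631))))))))))))
noncomputable def l33618 : Lb := (@Lb.d (nat_lit 2) (nat_lit 292) (nat_lit 128) (@Lb.g g8 (@Lb.g g9 (@Lb.g g10 (@Lb.g g11 (@Lb.r r682 (@Lb.r r387 (@Lb.r r1177 (@Lb.d (nat_lit 530) (nat_lit 150) (nat_lit 409) (@Lb.fm (nat_lit 9) t4149))))))))))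
noncomputable def l33619 : Lb := (@Lb.r r2118 (@Lb.r r2311 (@Lb.d (nat_lit 10) (nat_lit 513) (nat_lit 0) (@Lb.g g8 (@Lb.g g9 (@Lb.r r40 (@Lb.r r1129 (@Lb.d (nat_lit 294) (nat_lit 4) (nat_lit 2) (@Lb.fm (nat_lit 3) t5209)))))))))
noncomputable def l33620 : Lb := (@Lb.d (nat_lit 8) (nat_lit 265) (nat_lit 1) (@Lb.g g9 (@Lb.g g10 (@Lb.r r1703 (@Lb.r r2392 (@Lb.r r1190 (@Lb.r r1169 (@Lb.d (nat_lit 5) (nat_lit 72) (nat_lit 169) (@Lb.fp (nat_lit 3) t264)))))))))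
noncomputable def l33621 : Lb := (@Lb.d (nat_lit 646) (nat_lit 512) (nat_lit 582) (@Lb.r r1301 (@Lb.r r323 (@Lb.g g7 (@Lb.g g6 (@Lb.g g5 (@Lb.g g4 (@Lb.d (nat_lit 1) (nat_lit 1) (nat_lit 64) (@Lb.fp (nat_lit 9) t363)))))))))
noncomputable def l33622 : Lb := (@Lb.d (nat_lit 2) (nat_lit 545) (nat_lit 73) (@Lb.g g8 (@Lb.g g9 (@Lb.g g10 (@Lb.g g11 (@Lb.r r683 (@Lb.r r362 (@Lb.r r1561 (@Lb.d (nat_lit 585) (nat_lit 137) (nat_lit 37) (@Lb.fm (nat_lit 9) t1047))))))))))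
noncomputable def l33623 : Lb := (@Lb.g g7 (@Lb.d (nat_lit 2) (nat_lit 0) (nat_lit 69) (@Lb.t (@Lb.fm (nat_lit 3) t2))))
noncomputable def l33624 : Lb := (@Lb.d (nat_lit 529) (nat_lit 145) (nat_lit 405) (@Lb.r r2327 (@Lb.r r1641 (@Lb.g g7 (@Lb.g g10 (@Lb.g g5 (@Lb.d (nat_lit 32) (nat_lit 6) (nat_lit 32) (@Lb.r r2564 (@Lb.t (@Lb.fp (nat_lit 9) t1087))))))))))
noncomputable def l33625 : Lb := (@Lb.d (nat_lit 2) (nat_lit 544) (nat_lit 64) (@Lb.g g8 (@Lb.g g11 (@Lb.r r2337 (@Lb.r r531 (@Lb.r r2658 (@Lb.r r24 (@Lb.d (nat_lit 5) (nat_lit 10) (nat_lit 2) (@Lb.fp (nat_lit 3) t5031)))))))))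
noncomputable def l33626 : Lb := (@Lb.d (nat_lit 0) (nat_lit 32) (nat_lit 2) (@Lb.g g8 (@Lb.g g9 (@Lb.g g10 (@Lb.r r283 (@Lb.r r1364 (@Lb.r r2218 (@Lb.r r2209 (@Lb.d (nat_lit 360) (nat_lit 132) (nat_lit 546) (@Lb.t (@Lb.fm (nat_lit 9) t698)))))))))))
noncomputable def l33627 : Lb := (@Lb.d (nat_lit 2) (nat_lit 16) (nat_lit 137) (@Lb.g g8 (@Lb.g g9 (@Lb.g g10 (@Lb.g g11 (@Lb.r r427 (@Lb.r r2440 (@Lb.r r2122 (@Lb.r r2197 (@Lb.d (nat_lit 21) (nat_lit 138) (nat_lit 152) (@Lb.fm (nat_lit 9) t5862)))))))))))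
noncomputable def l33628 : Lb := (@Lb.d (nat_lit 2) (nat_lit 514) (nat_lit 73) (@Lb.g g8 (@Lb.g g9 (@Lb.g g10 (@Lb.g g11 (@Lb.r r391 (@Lb.r r2146 (@Lb.r r2585 (@Lb.r r2564 (@Lb.d (nat_lit 672) (nat_lit 134) (nat_lit 401) (@Lb.fp (nat_lit 9) t715)))))))))))
noncomputable def l33629 : Lb := (@Lb.d (nat_lit 8) (nat_lit 514) (nat_lit 64) (@Lb.g g9 (@Lb.g g11 (@Lb.r r1556 (@Lb.r r663 (@Lb.r r2178 (@Lb.r r409 (@Lb.d (nat_lit 5) (nat_lit 16) (nat_lit 538) (@Lb.fm (nat_lit 3) t2142)))))))))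
noncomputable def l33630 : Lb := (@Lb.d (nat_lit 2) (nat_lit 9) (nat_lit 72) (@Lb.g g8 (@Lb.g g9 (@Lb.g g10 (@Lb.g g11 (@Lb.r r2666 (@Lb.r r579 (@Lb.r r104 (@Lb.r r25 (@Lb.d (nat_lit 170) (nat_lit 9) (nat_lit 324) (@Lb.fp (nat_lit 9) t6037)))))))))))
noncomputable def l33631 : Lb := (@Lb.r r21 (@Lb.d (nat_lit 644) (nat_lit 256) (nat_lit 136) (@Lb.g g4 (@Lb.g g11 (@Lb.r r2454 (@Lb.r r2411 (@Lb.r r97 (@Lb.d (nat_lit 1) (nat_lit 25) (nat_lit 416) (@Lb.fp (nat_lit 3) t6038)))))))))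
noncomputable def l33632 : Lb := (@Lb.r r21 (@Lb.d (nat_lit 33) (nat_lit 0) (nat_lit 72) (@Lb.g g8 (@Lb.g g10 (@Lb.g g11 (@Lb.r r2634 (@Lb.r r579 (@Lb.r r97 (@Lb.r r168 (@Lb.d (nat_lit 146) (nat_lit 149) (nat_lit 337) (@Lb.t (@Lb.fp (nat_lit 9) t6037))))))))))))
noncomputable def l33633 : Lb := (@Lb.r r70 (@Lb.r r263 (@Lb.d (nat_lit 2) (nat_lit 514) (nat_lit 0) (@Lb.g g8 (@Lb.g g9 (@Lb.r r279 (@Lb.r r86 (@Lb.r r40 (@Lb.r r25 (@Lb.d (nat_lit 2) (nat_lit 2) (nat_lit 0) (@Lb.fp (nat_lit 3) t68)))))))))))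
noncomputable def l33634 : Lb := (@Lb.d (nat_lit 0) (nat_lit 154) (nat_lit 42) (@Lb.r r2403 (@Lb.r r594 (@Lb.g g11 (@Lb.t (@Lb.fp (nat_lit 3) t210))))))
noncomputable def l33635 : Lb := (@Lb.d (nat_lit 262) (nat_lit 513) (nat_lit 288) (@Lb.r r2196 (@Lb.r r1431 (@Lb.r r2454 (@Lb.r r601 (@Lb.g g4 (@Lb.t (@Lb.fp (nat_lit 3) t2503))))))))
noncomputable def l33636 : Lb := (@Lb.d (nat_lit 0) (nat_lit 2) (nat_lit 0) (@Lb.g g9 (@Lb.r r322 (@Lb.r r1667 (@Lb.r r578 (@Lb.r r148 (@Lb.r r25 (@Lb.d (nat_lit 34) (nat_lit 5) (nat_lit 16) (@Lb.t (@Lb.fm (nat_lit 3) t40))))))))))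
noncomputable def l33637 : Lb := (@Lb.d (nat_lit 641) (nat_lit 10) (nat_lit 2) (@Lb.r r2442 (@Lb.r r2468 (@Lb.r r2341 (@Lb.r r2579 (@Lb.g g10 (@Lb.g g5 (@Lb.fm (nat_lit 3) t4704))))))))
noncomputable def l33638 : Lb := (@Lb.d (nat_lit 0) (nat_lit 422) (nat_lit 325) (@Lb.r r8 (@Lb.r r1635 (@Lb.r r402 (@Lb.g g9 (@Lb.d (nat_lit 0) (nat_lit 146) (nat_lit 0) (@Lb.t (@Lb.fm (nat_lit 3) t3599))))))))
noncomputable def l33639 : Lb := (@Lb.d (nat_lit 9) (nat_lit 1) (nat_lit 130) (@Lb.g g8 (@Lb.g g9 (@Lb.g g10 (@Lb.g g11 (@Lb.r r425 (@Lb.r r1363 (@Lb.r r658 (@Lb.r r1105 (@Lb.d (nat_lit 641) (nat_lit 105) (nat_lit 66) (@Lb.fp (nat_lit 9) t242)))))))))))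
noncomputable def l33640 : Lb := (@Lb.g g4 (@Lb.r r609 (@Lb.r r402 (@Lb.r r2631 (@Lb.r r1416 (@Lb.d (nat_lit 609) (nat_lit 256) (nat_lit 612) (@Lb.t (@Lb.fm (nat_lit 3) t1575))))))))
noncomputable def l33641 : Lb := (@Lb.r r323 (@Lb.d (nat_lit 0) (nat_lit 257) (nat_lit 2) (@Lb.g g8 (@Lb.g g9 (@Lb.g g10 (@Lb.r r1619 (@Lb.r r106 (@Lb.r r1128 (@Lb.r r1049 (@Lb.d (nat_lit 265) (nat_lit 136) (nat_lit 2) (@Lb.t (@Lb.fm (nat_lit 9) t490))))))))))))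
noncomputable def l33642 : Lb := (@Lb.d (nat_lit 0) (nat_lit 257) (nat_lit 130) (@Lb.g g8 (@Lb.g g9 (@Lb.g g10 (@Lb.g g11 (@Lb.r r1451 (@Lb.r r1448 (@Lb.r r1130 (@Lb.r r1049 (@Lb.d (nat_lit 106) (nat_lit 66) (nat_lit 649) (@Lb.fm (nat_lit 9) t1306)))))))))))
noncomputable def l33643 : Lb := (@Lb.d (nat_lit 0) (nat_lit 34) (nat_lit 0) (@Lb.g g9 (@Lb.r r275 (@Lb.r r2178 (@Lb.r r2593 (@Lb.r r1156 (@Lb.d (nat_lit 529) (nat_lit 89) (nat_lit 0) (@Lb.t (@Lb.fp (nat_lit 3) t2551)))))))))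
noncomputable def l33644 : Lb := (@Lb.d (nat_lit 4) (nat_lit 265) (nat_lit 73) (@Lb.g g8 (@Lb.g g9 (@Lb.g g10 (@Lb.g g11 (@Lb.r r2723 (@Lb.r r2713 (@Lb.r r1178 (@Lb.d (nat_lit 276) (nat_lit 73) (nat_lit 393) (@Lb.fp (nat_lit 9) t3917))))))))))
noncomputable def l33645 : Lb := (@Lb.d (nat_lit 2) (nat_lit 520) (nat_lit 130) (@Lb.g g8 (@Lb.g g9 (@Lb.g g10 (@Lb.g g11 (@Lb.r r1671 (@Lb.r r2376 (@Lb.r r1190 (@Lb.r r337 (@Lb.d (nat_lit 409) (nat_lit 104) (nat_lit 608) (@Lb.fm (nat_lit 9) t1027)))))))))))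
noncomputable def l33646 : Lb := (@Lb.d (nat_lit 514) (nat_lit 512) (nat_lit 384) (@Lb.r r1048 (@Lb.r r97 (@Lb.r r402 (@Lb.g g11 (@Lb.g g8 (@Lb.r r74 (@Lb.r r25 (@Lb.fp (nat_lit 3) t150)))))))))
noncomputable def l33647 : Lb := (@Lb.d (nat_lit 1) (nat_lit 514) (nat_lit 130) (@Lb.g g8 (@Lb.g g9 (@Lb.g g10 (@Lb.g g11 (@Lb.r r610 (@Lb.r r612 (@Lb.r r359 (@Lb.r r277 (@Lb.r r548 (@Lb.d (nat_lit 9) (nat_lit 2) (nat_lit 64) (@Lb.fp (nat_lit 9) t145))))))))))))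
noncomputable def l33648 : Lb := (@Lb.r r82 (@Lb.d (nat_lit 5) (nat_lit 264) (nat_lit 0) (@Lb.g g4 (@Lb.g g9 (@Lb.r r2731 (@Lb.r r1434 (@Lb.r r2641 (@Lb.d (nat_lit 354) (nat_lit 102) (nat_lit 425) (@Lb.fp (nat_lit 3) t50)))))))))
noncomputable def l33649 : Lb := (@Lb.d (nat_lit 2) (nat_lit 512) (nat_lit 64) (@Lb.g g8 (@Lb.g g11 (@Lb.r r1543 (@Lb.r r2122 (@Lb.r r2073 (@Lb.r r24 (@Lb.d (nat_lit 394) (nat_lit 18) (nat_lit 389) (@Lb.fm (nat_lit 3) t710)))))))))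
noncomputable def l33650 : Lb := (@Lb.d (nat_lit 0) (nat_lit 514) (nat_lit 130) (@Lb.g g8 (@Lb.g g9 (@Lb.g g10 (@Lb.g g11 (@Lb.r r427 (@Lb.r r2146 (@Lb.r r292 (@Lb.r r2069 (@Lb.r r1060 (@Lb.d (nat_lit 289) (nat_lit 64) (nat_lit 34) (@Lb.fp (nat_lit 9) t1089))))))))))))
noncomputable def l33651 : Lb := (@Lb.d (nat_lit 2) (nat_lit 278) (nat_lit 64) (@Lb.r r260 (@Lb.r r97 (@Lb.r r267 (@Lb.r r404 (@Lb.g g7 (@Lb.g g10 (@Lb.g g5 (@Lb.g g4 (@Lb.d (nat_lit 18) (nat_lit 8) (nat_lit 65) (@Lb.fp (nat_lit 9) t983)))))))))))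
noncomputable def l33652 : Lb := (@Lb.d (nat_lit 9) (nat_lit 21) (nat_lit 64) (@Lb.r r260 (@Lb.r r97 (@Lb.r r267 (@Lb.r r404 (@Lb.g g7 (@Lb.g g10 (@Lb.g g5 (@Lb.g g4 (@Lb.d (nat_lit 25) (nat_lit 10) (nat_lit 65) (@Lb.fp (nat_lit 9) t983)))))))))))
noncomputable def l33653 : Lb := (@Lb.d (nat_lit 2) (nat_lit 534) (nat_lit 64) (@Lb.r r260 (@Lb.r r97 (@Lb.r r267 (@Lb.r r404 (@Lb.g g7 (@Lb.g g10 (@Lb.g g5 (@Lb.g g4 (@Lb.d (nat_lit 25) (nat_lit 10) (nat_lit 65) (@Lb.fp (nat_lit 9) t983)))))))))))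
noncomputable def l33654 : Lb := (@Lb.r r82 (@Lb.d (nat_lit 134) (nat_lit 17) (nat_lit 128) (@Lb.g g8 (@Lb.g g9 (@Lb.g g11 (@Lb.r r299 (@Lb.r r2154 (@Lb.r r2073 (@Lb.r r292 (@Lb.d (nat_lit 385) (nat_lit 65) (nat_lit 320) (@Lb.t (@Lb.fm (nat_lit 9) t1169))))))))))))
noncomputable def l33655 : Lb := (@Lb.g g5 (@Lb.r r24 (@Lb.r r101 (@Lb.d (nat_lit 0) (nat_lit 593) (nat_lit 426) (@Lb.t (@Lb.fm (nat_lit 3) t153))))))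
noncomputable def l33656 : Lb := (@Lb.d (nat_lit 656) (nat_lit 0) (nat_lit 390) (@Lb.r r24 (@Lb.r r101 (@Lb.r r386 (@Lb.g g11 (@Lb.g g6 (@Lb.g g4 (@Lb.d (nat_lit 0) (nat_lit 0) (nat_lit 1) (@Lb.t (@Lb.fp (nat_lit 9) t868))))))))))
noncomputable def l33657 : Lb := (@Lb.d (nat_lit 134) (nat_lit 33) (nat_lit 66) (@Lb.g g8 (@Lb.g g9 (@Lb.g g10 (@Lb.g g11 (@Lb.r r618 (@Lb.r r612 (@Lb.r r1319 (@Lb.r r277 (@Lb.r r36 (@Lb.d (nat_lit 73) (nat_lit 129) (nat_lit 386) (@Lb.fp (nat_lit 9) t6039))))))))))))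
noncomputable def l33658 : Lb := (@Lb.d (nat_lit 646) (nat_lit 21) (nat_lit 96) (@Lb.r r1301 (@Lb.r r2411 (@Lb.r r1666 (@Lb.g g7 (@Lb.g g6 (@Lb.g g5 (@Lb.g g4 (@Lb.d (nat_lit 8) (nat_lit 0) (nat_lit 133) (@Lb.fm (nat_lit 9) t918))))))))))
noncomputable def l33659 : Lb := (@Lb.r r82 (@Lb.d (nat_lit 4) (nat_lit 517) (nat_lit 128) (@Lb.g g5 (@Lb.g g11 (@Lb.r r2587 (@Lb.r r386 (@Lb.r r24 (@Lb.d (nat_lit 130) (nat_lit 6) (nat_lit 330) (@Lb.fm (nat_lit 3) t742)))))))))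
noncomputable def l33660 : Lb := (@Lb.d (nat_lit 0) (nat_lit 545) (nat_lit 0) (@Lb.g g9 (@Lb.r r1367 (@Lb.r r2178 (@Lb.r r2665 (@Lb.r r8 (@Lb.d (nat_lit 424) (nat_lit 90) (nat_lit 154) (@Lb.t (@Lb.fm (nat_lit 3) t64)))))))))
noncomputable def l33661 : Lb := (@Lb.d (nat_lit 292) (nat_lit 10) (nat_lit 70) (@Lb.r r1094 (@Lb.r r2440 (@Lb.r r1367 (@Lb.g g7 (@Lb.g g6 (@Lb.g g5 (@Lb.g g4 (@Lb.d (nat_lit 2) (nat_lit 129) (nat_lit 134) (@Lb.fm (nat_lit 9) t98))))))))))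
noncomputable def l33662 : Lb := (@Lb.d (nat_lit 26) (nat_lit 513) (nat_lit 0) (@Lb.g g8 (@Lb.g g9 (@Lb.g g10 (@Lb.r r683 (@Lb.r r2666 (@Lb.r r36 (@Lb.r r37 (@Lb.d (nat_lit 361) (nat_lit 1) (nat_lit 537) (@Lb.t (@Lb.fm (nat_lit 9) t2656)))))))))))
noncomputable def l33663 : Lb := (@Lb.d (nat_lit 292) (nat_lit 266) (nat_lit 70) (@Lb.r r1094 (@Lb.r r2440 (@Lb.r r1367 (@Lb.g g7 (@Lb.g g6 (@Lb.g g5 (@Lb.g g4 (@Lb.d (nat_lit 1) (nat_lit 129) (nat_lit 134) (@Lb.fm (nat_lit 9) t98))))))))))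
noncomputable def l33664 : Lb := (@Lb.d (nat_lit 292) (nat_lit 329) (nat_lit 70) (@Lb.r r1094 (@Lb.r r2440 (@Lb.r r1367 (@Lb.g g7 (@Lb.g g6 (@Lb.g g5 (@Lb.g g4 (@Lb.d (nat_lit 1) (nat_lit 129) (nat_lit 134) (@Lb.fm (nat_lit 9) t98))))))))))
noncomputable def l33665 : Lb := (@Lb.d (nat_lit 17) (nat_lit 390) (nat_lit 38) (@Lb.r r21 (@Lb.r r100 (@Lb.r r579 (@Lb.g g7 (@Lb.g g10 (@Lb.g g5 (@Lb.d (nat_lit 0) (nat_lit 1) (nat_lit 134) (@Lb.t (@Lb.fp (nat_lit 9) t320))))))))))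
noncomputable def l33666 : Lb := (@Lb.d (nat_lit 538) (nat_lit 553) (nat_lit 2) (@Lb.g g8 (@Lb.g g9 (@Lb.g g10 (@Lb.r r1667 (@Lb.r r1194 (@Lb.r r2473 (@Lb.d (nat_lit 405) (nat_lit 84) (nat_lit 74) (@Lb.t (@Lb.fp (nat_lit 9) t1278))))))))))
noncomputable def l33667 : Lb := (@Lb.d (nat_lit 530) (nat_lit 389) (nat_lit 642) (@Lb.r r2068 (@Lb.r r2137 (@Lb.r r20 (@Lb.r r1442 (@Lb.g g11 (@Lb.g g6 (@Lb.g g5 (@Lb.g g4 (@Lb.d (nat_lit 25) (nat_lit 22) (nat_lit 394) (@Lb.fp (nat_lit 9) t2693)))))))))))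
noncomputable def l33668 : Lb := (@Lb.d (nat_lit 2) (nat_lit 258) (nat_lit 130) (@Lb.g g8 (@Lb.g g9 (@Lb.g g10 (@Lb.g g11 (@Lb.r r2411 (@Lb.r r386 (@Lb.r r104 (@Lb.r r25 (@Lb.d (nat_lit 512) (nat_lit 10) (nat_lit 70) (@Lb.fp (nat_lit 9) t61)))))))))))
noncomputable def l33669 : Lb := (@Lb.d (nat_lit 2) (nat_lit 2) (nat_lit 72) (@Lb.g g8 (@Lb.g g9 (@Lb.g g11 (@Lb.r r1410 (@Lb.r r579 (@Lb.r r104 (@Lb.r r25 (@Lb.d (nat_lit 34) (nat_lit 10) (nat_lit 0) (@Lb.t (@Lb.fp (nat_lit 9) t40)))))))))))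
noncomputable def l33670 : Lb := (@Lb.r r323 (@Lb.d (nat_lit 0) (nat_lit 545) (nat_lit 2) (@Lb.g g8 (@Lb.g g9 (@Lb.g g10 (@Lb.r r2647 (@Lb.r r74 (@Lb.r r1320 (@Lb.r r1433 (@Lb.d (nat_lit 662) (nat_lit 152) (nat_lit 682) (@Lb.t (@Lb.fm (nat_lit 9) t51))))))))))))
noncomputable def l33671 : Lb := (@Lb.d (nat_lit 128) (nat_lit 2) (nat_lit 384) (@Lb.g g8 (@Lb.g g9 (@Lb.g g11 (@Lb.r r281 (@Lb.r r260 (@Lb.d (nat_lit 73) (nat_lit 0) (nat_lit 512) (@Lb.t (@Lb.fm (nat_lit 9) t2688)))))))))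
noncomputable def l33672 : Lb := (@Lb.r r323 (@Lb.d (nat_lit 128) (nat_lit 2) (nat_lit 2) (@Lb.g g8 (@Lb.g g9 (@Lb.g g10 (@Lb.r r599 (@Lb.r r98 (@Lb.r r97 (@Lb.r r408 (@Lb.d (nat_lit 517) (nat_lit 152) (nat_lit 610) (@Lb.t (@Lb.fp (nat_lit 9) t1663))))))))))))
noncomputable def l33673 : Lb := (@Lb.r r21 (@Lb.d (nat_lit 2) (nat_lit 512) (nat_lit 73) (@Lb.g g8 (@Lb.g g10 (@Lb.g g11 (@Lb.r r2634 (@Lb.r r579 (@Lb.r r97 (@Lb.r r72 (@Lb.d (nat_lit 421) (nat_lit 1) (nat_lit 357) (@Lb.t (@Lb.fp (nat_lit 9) t61))))))))))))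
noncomputable def l33674 : Lb := (@Lb.r r21 (@Lb.d (nat_lit 2) (nat_lit 512) (nat_lit 73) (@Lb.g g8 (@Lb.g g10 (@Lb.g g11 (@Lb.r r602 (@Lb.r r579 (@Lb.r r1112 (@Lb.r r37 (@Lb.d (nat_lit 426) (nat_lit 68) (nat_lit 342) (@Lb.t (@Lb.fp (nat_lit 9) t61))))))))))))
noncomputable def l33675 : Lb := (@Lb.d (nat_lit 680) (nat_lit 594) (nat_lit 576) (@Lb.r r2584 (@Lb.r r2178 (@Lb.r r2587 (@Lb.r r401 (@Lb.g g7 (@Lb.g g4 (@Lb.d (nat_lit 6) (nat_lit 0) (nat_lit 64) (@Lb.fp (nat_lit 3) t296)))))))))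
noncomputable def l33676 : Lb := (@Lb.r r263 (@Lb.d (nat_lit 5) (nat_lit 256) (nat_lit 26) (@Lb.g g8 (@Lb.g g9 (@Lb.g g10 (@Lb.r r2449 (@Lb.r r299 (@Lb.r r2468 (@Lb.d (nat_lit 105) (nat_lit 102) (nat_lit 546) (@Lb.t (@Lb.fm (nat_lit 9) t1643)))))))))))
noncomputable def l33677 : Lb := (@Lb.r r24 (@Lb.r r101 (@Lb.r r402 (@Lb.r r579 (@Lb.d (nat_lit 0) (nat_lit 256) (nat_lit 148) (@Lb.fp (nat_lit 1) t2811))))))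
noncomputable def l33678 : Lb := (@Lb.r r21 (@Lb.d (nat_lit 2) (nat_lit 512) (nat_lit 129) (@Lb.g g8 (@Lb.g g10 (@Lb.g g11 (@Lb.r r2587 (@Lb.r r2470 (@Lb.r r1429 (@Lb.r r2632 (@Lb.d (nat_lit 657) (nat_lit 66) (nat_lit 137) (@Lb.t (@Lb.fp (nat_lit 9) t2700))))))))))))
noncomputable def l33679 : Lb := (@Lb.d (nat_lit 0) (nat_lit 265) (nat_lit 130) (@Lb.g g9 (@Lb.g g10 (@Lb.g g11 (@Lb.r r387 (@Lb.r r104 (@Lb.r r406 (@Lb.r r25 (@Lb.d (nat_lit 105) (nat_lit 9) (nat_lit 18) (@Lb.t (@Lb.fm (nat_lit 9) t573)))))))))))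
noncomputable def l33680 : Lb := (@Lb.d (nat_lit 16) (nat_lit 354) (nat_lit 518) (@Lb.r r169 (@Lb.r r100 (@Lb.r r323 (@Lb.g g10 (@Lb.g g5 (@Lb.d (nat_lit 4) (nat_lit 0) (nat_lit 2) (@Lb.r r387 (@Lb.fm (nat_lit 3) t3053)))))))))
noncomputable def l33681 : Lb := (@Lb.d (nat_lit 6) (nat_lit 290) (nat_lit 145) (@Lb.g g8 (@Lb.g g9 (@Lb.g g10 (@Lb.g g11 (@Lb.r r548 (@Lb.r r423 (@Lb.r r1317 (@Lb.r r516 (@Lb.d (nat_lit 534) (nat_lit 8) (nat_lit 168) (@Lb.fm (nat_lit 9) t3240)))))))))))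
noncomputable def l33682 : Lb := (@Lb.d (nat_lit 0) (nat_lit 292) (nat_lit 130) (@Lb.g g9 (@Lb.g g10 (@Lb.g g11 (@Lb.r r1703 (@Lb.r r1160 (@Lb.r r2666 (@Lb.r r1697 (@Lb.d (nat_lit 68) (nat_lit 4) (nat_lit 298) (@Lb.t (@Lb.fp (nat_lit 9) t3144)))))))))))
noncomputable def l33683 : Lb := (@Lb.d (nat_lit 100) (nat_lit 290) (nat_lit 6) (@Lb.g g8 (@Lb.g g9 (@Lb.g g10 (@Lb.g g11 (@Lb.r r2450 (@Lb.r r2407 (@Lb.r r617 (@Lb.r r2632 (@Lb.d (nat_lit 600) (nat_lit 72) (nat_lit 392) (@Lb.fm (nat_lit 9) t5692)))))))))))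
noncomputable def l33684 : Lb := (@Lb.d (nat_lit 16) (nat_lit 617) (nat_lit 517) (@Lb.r r169 (@Lb.r r100 (@Lb.r r323 (@Lb.g g10 (@Lb.g g5 (@Lb.d (nat_lit 4) (nat_lit 0) (nat_lit 2) (@Lb.r r387 (@Lb.fm (nat_lit 3) t3022)))))))))
noncomputable def l33685 : Lb := (@Lb.d (nat_lit 6) (nat_lit 546) (nat_lit 128) (@Lb.g g8 (@Lb.g g9 (@Lb.g g11 (@Lb.r r548 (@Lb.r r1383 (@Lb.r r2178 (@Lb.r r1317 (@Lb.r r516 (@Lb.d (nat_lit 533) (nat_lit 8) (nat_lit 154) (@Lb.t (@Lb.fm (nat_lit 9) t5445))))))))))))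
noncomputable def l33686 : Lb := (@Lb.d (nat_lit 33) (nat_lit 138) (nat_lit 10) (@Lb.r r168 (@Lb.r r89 (@Lb.r r1627 (@Lb.g g10 (@Lb.g g4 (@Lb.d (nat_lit 5) (nat_lit 0) (nat_lit 2) (@Lb.r r387 (@Lb.fp (nat_lit 3) t2094)))))))))
noncomputable def l33687 : Lb := (@Lb.d (nat_lit 25) (nat_lit 138) (nat_lit 402) (@Lb.r r85 (@Lb.r r343 (@Lb.r r2728 (@Lb.g g6 (@Lb.g g5 (@Lb.g g4 (@Lb.d (nat_lit 2) (nat_lit 2) (nat_lit 16) (@Lb.r r391 (@Lb.t (@Lb.fm (nat_lit 9) t1144)))))))))))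
noncomputable def l33688 : Lb := (@Lb.d (nat_lit 1) (nat_lit 512) (nat_lit 66) (@Lb.g g8 (@Lb.g g9 (@Lb.g g10 (@Lb.g g7 (@Lb.r r425 (@Lb.r r98 (@Lb.r r36 (@Lb.d (nat_lit 145) (nat_lit 85) (nat_lit 322) (@Lb.fp (nat_lit 9) t6040))))))))))
noncomputable def l33689 : Lb := (@Lb.d (nat_lit 530) (nat_lit 592) (nat_lit 577) (@Lb.r r1284 (@Lb.r r2635 (@Lb.r r612 (@Lb.r r2370 (@Lb.g g7 (@Lb.g g6 (@Lb.g g9 (@Lb.g g4 (@Lb.d (nat_lit 97) (nat_lit 33) (nat_lit 133) (@Lb.fp (nat_lit 9) t1636)))))))))))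
noncomputable def l33690 : Lb := (@Lb.d (nat_lit 650) (nat_lit 152) (nat_lit 278) (@Lb.r r2465 (@Lb.r r2662 (@Lb.r r583 (@Lb.g g6 (@Lb.g g5 (@Lb.g g4 (@Lb.d (nat_lit 338) (nat_lit 18) (nat_lit 5) (@Lb.r r391 (@Lb.t (@Lb.fp (nat_lit 9) t2796)))))))))))
noncomputable def l33691 : Lb := (@Lb.d (nat_lit 1) (nat_lit 256) (nat_lit 128) (@Lb.g g8 (@Lb.g g11 (@Lb.r r2375 (@Lb.r r2178 (@Lb.r r1561 (@Lb.r r2628 (@Lb.d (nat_lit 417) (nat_lit 0) (nat_lit 426) (@Lb.fp (nat_lit 3) t1743)))))))))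
noncomputable def l33692 : Lb := (@Lb.d (nat_lit 102) (nat_lit 362) (nat_lit 168) (@Lb.r r2458 (@Lb.r r2133 (@Lb.r r1351 (@Lb.g g7 (@Lb.g g6 (@Lb.g g5 (@Lb.g g4 (@Lb.d (nat_lit 281) (nat_lit 1) (nat_lit 65) (@Lb.fm (nat_lit 9) t5087))))))))))
noncomputable def l33693 : Lb := (@Lb.d (nat_lit 614) (nat_lit 549) (nat_lit 84) (@Lb.r r404 (@Lb.r r363 (@Lb.r r273 (@Lb.g g7 (@Lb.g g10 (@Lb.g g5 (@Lb.g g4 (@Lb.d (nat_lit 18) (nat_lit 1) (nat_lit 66) (@Lb.fm (nat_lit 9) t414))))))))))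
noncomputable def l33694 : Lb := (@Lb.d (nat_lit 520) (nat_lit 512) (nat_lit 170) (@Lb.r r1604 (@Lb.r r2073 (@Lb.r r2458 (@Lb.g g5 (@Lb.t (@Lb.fp (nat_lit 3) t3142)))))))
noncomputable def l33695 : Lb := (@Lb.d (nat_lit 0) (nat_lit 2) (nat_lit 130) (@Lb.g g8 (@Lb.g g9 (@Lb.g g10 (@Lb.g g11 (@Lb.r r1706 (@Lb.r r648 (@Lb.r r1563 (@Lb.r r2337 (@Lb.r r36 (@Lb.d (nat_lit 641) (nat_lit 98) (nat_lit 64) (@Lb.fp (nat_lit 9) t242))))))))))))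
noncomputable def l33696 : Lb := (@Lb.d (nat_lit 386) (nat_lit 64) (nat_lit 512) (@Lb.r r2341 (@Lb.r r1624 (@Lb.r r2470 (@Lb.g g11 (@Lb.g g6 (@Lb.g g5 (@Lb.d (nat_lit 0) (nat_lit 0) (nat_lit 129) (@Lb.t (@Lb.fp (nat_lit 9) t634))))))))))
noncomputable def l33697 : Lb := (@Lb.r r21 (@Lb.r r70 (@Lb.d (nat_lit 513) (nat_lit 256) (nat_lit 0) (@Lb.g g4 (@Lb.g g7 (@Lb.r r74 (@Lb.r r25 (@Lb.d (nat_lit 266) (nat_lit 2) (nat_lit 69) (@Lb.fm (nat_lit 3) t647)))))))))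
noncomputable def l33698 : Lb := (@Lb.d (nat_lit 681) (nat_lit 641) (nat_lit 533) (@Lb.r r2438 (@Lb.r r1624 (@Lb.r r323 (@Lb.g g7 (@Lb.g g6 (@Lb.g g5 (@Lb.d (nat_lit 4) (nat_lit 17) (nat_lit 65) (@Lb.r r36 (@Lb.t (@Lb.fp (nat_lit 9) t6041)))))))))))
noncomputable def l33699 : Lb := (@Lb.d (nat_lit 128) (nat_lit 516) (nat_lit 128) (@Lb.g g8 (@Lb.g g9 (@Lb.g g10 (@Lb.g g11 (@Lb.r r2690 (@Lb.r r2455 (@Lb.r r97 (@Lb.r r2584 (@Lb.d (nat_lit 616) (nat_lit 169) (nat_lit 417) (@Lb.fm (nat_lit 9) t3408)))))))))))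
noncomputable def l33700 : Lb := (@Lb.d (nat_lit 10) (nat_lit 257) (nat_lit 73) (@Lb.g g8 (@Lb.g g9 (@Lb.g g10 (@Lb.g g11 (@Lb.r r1602 (@Lb.r r579 (@Lb.r r1572 (@Lb.r r37 (@Lb.d (nat_lit 582) (nat_lit 96) (nat_lit 10) (@Lb.fp (nat_lit 9) t1644)))))))))))
noncomputable def l33701 : Lb := (@Lb.r r323 (@Lb.d (nat_lit 4) (nat_lit 2) (nat_lit 0) (@Lb.g g9 (@Lb.g g10 (@Lb.r r419 (@Lb.r r98 (@Lb.r r36 (@Lb.d (nat_lit 6) (nat_lit 9) (nat_lit 2) (@Lb.fm (nat_lit 3) t51)))))))))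
noncomputable def l33702 : Lb := (@Lb.r r90 (@Lb.d (nat_lit 5) (nat_lit 0) (nat_lit 128) (@Lb.g g8 (@Lb.g g9 (@Lb.g g11 (@Lb.r r1315 (@Lb.r r2646 (@Lb.r r1425 (@Lb.r r1572 (@Lb.d (nat_lit 0) (nat_lit 84) (nat_lit 402) (@Lb.t (@Lb.fm (nat_lit 9) t1700))))))))))))
noncomputable def l33703 : Lb := (@Lb.d (nat_lit 5) (nat_lit 262) (nat_lit 1) (@Lb.r r24 (@Lb.r r97 (@Lb.r r323 (@Lb.g g10 (@Lb.g g5 (@Lb.d (nat_lit 0) (nat_lit 6) (nat_lit 0) (@Lb.r r387 (@Lb.fp (nat_lit 3) t51)))))))))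
noncomputable def l33704 : Lb := (@Lb.d (nat_lit 273) (nat_lit 330) (nat_lit 16) (@Lb.r r24 (@Lb.r r82 (@Lb.r r275 (@Lb.g g9 (@Lb.d (nat_lit 0) (nat_lit 70) (nat_lit 0) (@Lb.r r291 (@Lb.r r98 (@Lb.t (@Lb.fm (nat_lit 3) t2099))))))))))
noncomputable def l33705 : Lb := (@Lb.d (nat_lit 26) (nat_lit 265) (nat_lit 130) (@Lb.g g8 (@Lb.g g9 (@Lb.g g10 (@Lb.g g11 (@Lb.r r2707 (@Lb.r r340 (@Lb.r r2442 (@Lb.r r553 (@Lb.r r36 (@Lb.d (nat_lit 72) (nat_lit 149) (nat_lit 165) (@Lb.fm (nat_lit 9) t400))))))))))))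
noncomputable def l33706 : Lb := (@Lb.d (nat_lit 2) (nat_lit 32) (nat_lit 64) (@Lb.g g8 (@Lb.g g11 (@Lb.r r345 (@Lb.r r2658 (@Lb.r r1635 (@Lb.d (nat_lit 136) (nat_lit 41) (nat_lit 666) (@Lb.fp (nat_lit 3) t414))))))))
noncomputable def l33707 : Lb := (@Lb.d (nat_lit 34) (nat_lit 548) (nat_lit 105) (@Lb.g g8 (@Lb.g g10 (@Lb.g g11 (@Lb.r r353 (@Lb.r r2707 (@Lb.r r2180 (@Lb.d (nat_lit 96) (nat_lit 170) (nat_lit 516) (@Lb.t (@Lb.fm (nat_lit 9) t2953))))))))))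
noncomputable def l33708 : Lb := (@Lb.d (nat_lit 136) (nat_lit 512) (nat_lit 64) (@Lb.g g9 (@Lb.g g11 (@Lb.r r264 (@Lb.r r407 (@Lb.r r2402 (@Lb.r r2385 (@Lb.d (nat_lit 666) (nat_lit 162) (nat_lit 145) (@Lb.fp (nat_lit 3) t591)))))))))
noncomputable def l33709 : Lb := (@Lb.d (nat_lit 528) (nat_lit 32) (nat_lit 64) (@Lb.g g8 (@Lb.g g11 (@Lb.r r2337 (@Lb.r r531 (@Lb.r r2178 (@Lb.d (nat_lit 530) (nat_lit 34) (nat_lit 6) (@Lb.fp (nat_lit 3) t1540))))))))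
noncomputable def l33710 : Lb := (@Lb.d (nat_lit 2) (nat_lit 4) (nat_lit 0) (@Lb.g g8 (@Lb.g g9 (@Lb.g g10 (@Lb.r r2707 (@Lb.r r533 (@Lb.r r1640 (@Lb.r r2374 (@Lb.d (nat_lit 593) (nat_lit 10) (nat_lit 646) (@Lb.t (@Lb.fm (nat_lit 9) t3181)))))))))))
noncomputable def l33711 : Lb := (@Lb.d (nat_lit 33) (nat_lit 266) (nat_lit 72) (@Lb.g g8 (@Lb.g g9 (@Lb.g g11 (@Lb.r r2134 (@Lb.r r1448 (@Lb.r r279 (@Lb.r r545 (@Lb.d (nat_lit 10) (nat_lit 152) (nat_lit 361) (@Lb.t (@Lb.fm (nat_lit 9) t334)))))))))))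
noncomputable def l33712 : Lb := (@Lb.r r331 (@Lb.d (nat_lit 673) (nat_lit 8) (nat_lit 2) (@Lb.g g8 (@Lb.g g10 (@Lb.r r613 (@Lb.r r291 (@Lb.r r1354 (@Lb.d (nat_lit 161) (nat_lit 34) (nat_lit 342) (@Lb.fp (nat_lit 3) t2557)))))))))
noncomputable def l33713 : Lb := (@Lb.d (nat_lit 128) (nat_lit 521) (nat_lit 130) (@Lb.g g9 (@Lb.g g10 (@Lb.g g11 (@Lb.r r586 (@Lb.r r2212 (@Lb.r r2597 (@Lb.r r611 (@Lb.d (nat_lit 674) (nat_lit 9) (nat_lit 5) (@Lb.t (@Lb.fm (nat_lit 9) t1547)))))))))))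
noncomputable def l33714 : Lb := (@Lb.d (nat_lit 0) (nat_lit 33) (nat_lit 73) (@Lb.g g9 (@Lb.g g10 (@Lb.g g11 (@Lb.r r1699 (@Lb.r r362 (@Lb.r r1561 (@Lb.d (nat_lit 36) (nat_lit 136) (nat_lit 533) (@Lb.t (@Lb.fp (nat_lit 9) t482))))))))))
noncomputable def l33715 : Lb := (@Lb.d (nat_lit 0) (nat_lit 0) (nat_lit 128) (@Lb.g g11 (@Lb.r r134 (@Lb.r r584 (@Lb.r r619 (@Lb.r r609 (@Lb.d (nat_lit 6) (nat_lit 1) (nat_lit 16) (@Lb.t (@Lb.fp (nat_lit 3) t334)))))))))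
noncomputable def l33716 : Lb := (@Lb.d (nat_lit 16) (nat_lit 522) (nat_lit 129) (@Lb.g g9 (@Lb.g g6 (@Lb.g g11 (@Lb.r r2659 (@Lb.r r2661 (@Lb.r r24 (@Lb.d (nat_lit 38) (nat_lit 145) (nat_lit 424) (@Lb.t (@Lb.fm (nat_lit 9) t6042))))))))))
noncomputable def l33717 : Lb := (@Lb.d (nat_lit 6) (nat_lit 0) (nat_lit 0) (@Lb.g g8 (@Lb.r r1291 (@Lb.r r1098 (@Lb.r r1049 (@Lb.d (nat_lit 257) (nat_lit 128) (nat_lit 0) (@Lb.t (@Lb.fp (nat_lit 3) t284))))))))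
noncomputable def l33718 : Lb := (@Lb.d (nat_lit 33) (nat_lit 514) (nat_lit 129) (@Lb.g g8 (@Lb.g g9 (@Lb.g g10 (@Lb.g g11 (@Lb.r r292 (@Lb.r r2587 (@Lb.r r2453 (@Lb.r r2134 (@Lb.r r2212 (@Lb.d (nat_lit 265) (nat_lit 2) (nat_lit 346) (@Lb.fm (nat_lit 9) t168))))))))))))
noncomputable def l33719 : Lb := (@Lb.d (nat_lit 352) (nat_lit 70) (nat_lit 405) (@Lb.r r97 (@Lb.r r386 (@Lb.r r1543 (@Lb.r r340 (@Lb.g g6 (@Lb.g g5 (@Lb.g g4 (@Lb.d (nat_lit 1) (nat_lit 1) (nat_lit 1) (@Lb.t (@Lb.fm (nat_lit 9) t795)))))))))))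
noncomputable def l33720 : Lb := (@Lb.d (nat_lit 2) (nat_lit 544) (nat_lit 74) (@Lb.g g8 (@Lb.g g10 (@Lb.g g11 (@Lb.r r74 (@Lb.r r360 (@Lb.r r281 (@Lb.r r2343 (@Lb.d (nat_lit 586) (nat_lit 42) (nat_lit 656) (@Lb.t (@Lb.fp (nat_lit 9) t354)))))))))))
noncomputable def l33721 : Lb := (@Lb.d (nat_lit 96) (nat_lit 258) (nat_lit 133) (@Lb.g g8 (@Lb.g g9 (@Lb.g g10 (@Lb.g g11 (@Lb.r r1323 (@Lb.r r386 (@Lb.r r1625 (@Lb.r r1604 (@Lb.d (nat_lit 409) (nat_lit 144) (nat_lit 149) (@Lb.fm (nat_lit 9) t394)))))))))))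
noncomputable def l33722 : Lb := (@Lb.d (nat_lit 0) (nat_lit 258) (nat_lit 74) (@Lb.g g9 (@Lb.g g10 (@Lb.g g11 (@Lb.r r1173 (@Lb.r r658 (@Lb.r r387 (@Lb.r r2564 (@Lb.d (nat_lit 328) (nat_lit 166) (nat_lit 328) (@Lb.t (@Lb.fp (nat_lit 9) t1412)))))))))))
noncomputable def l33723 : Lb := (@Lb.r r275 (@Lb.d (nat_lit 8) (nat_lit 2) (nat_lit 2) (@Lb.g g8 (@Lb.g g9 (@Lb.g g10 (@Lb.r r1371 (@Lb.r r106 (@Lb.r r25 (@Lb.r r2628 (@Lb.d (nat_lit 104) (nat_lit 80) (nat_lit 614) (@Lb.t (@Lb.fm (nat_lit 9) t5235))))))))))))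
noncomputable def l33724 : Lb := (@Lb.d (nat_lit 281) (nat_lit 66) (nat_lit 145) (@Lb.r r24 (@Lb.r r2129 (@Lb.r r418 (@Lb.g g11 (@Lb.g g5 (@Lb.d (nat_lit 128) (nat_lit 17) (nat_lit 520) (@Lb.r r610 (@Lb.fp (nat_lit 3) t495)))))))))
noncomputable def l33725 : Lb := (@Lb.d (nat_lit 38) (nat_lit 528) (nat_lit 337) (@Lb.r r24 (@Lb.r r1193 (@Lb.r r418 (@Lb.r r1415 (@Lb.g g7 (@Lb.g g6 (@Lb.g g5 (@Lb.d (nat_lit 0) (nat_lit 25) (nat_lit 10) (@Lb.t (@Lb.fm (nat_lit 9) t1525)))))))))))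
noncomputable def l33726 : Lb := (@Lb.d (nat_lit 322) (nat_lit 576) (nat_lit 389) (@Lb.r r597 (@Lb.r r2666 (@Lb.r r2376 (@Lb.r r1671 (@Lb.g g7 (@Lb.g g6 (@Lb.g g5 (@Lb.d (nat_lit 4) (nat_lit 6) (nat_lit 134) (@Lb.t (@Lb.fp (nat_lit 9) t221)))))))))))
noncomputable def l33727 : Lb := (@Lb.d (nat_lit 96) (nat_lit 356) (nat_lit 70) (@Lb.r r24 (@Lb.r r421 (@Lb.r r322 (@Lb.r r679 (@Lb.g g6 (@Lb.g g5 (@Lb.d (nat_lit 0) (nat_lit 10) (nat_lit 0) (@Lb.r r291 (@Lb.fp (nat_lit 3) t2791))))))))))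
noncomputable def l33728 : Lb := (@Lb.d (nat_lit 1) (nat_lit 325) (nat_lit 273) (@Lb.r r37 (@Lb.r r1410 (@Lb.r r2407 (@Lb.g g7 (@Lb.g g6 (@Lb.g g4 (@Lb.d (nat_lit 292) (nat_lit 0) (nat_lit 64) (@Lb.r r25 (@Lb.t (@Lb.fp (nat_lit 9) t317)))))))))))
noncomputable def l33729 : Lb := (@Lb.r r82 (@Lb.d (nat_lit 8) (nat_lit 545) (nat_lit 64) (@Lb.g g8 (@Lb.g g9 (@Lb.g g11 (@Lb.r r2395 (@Lb.r r1618 (@Lb.r r2337 (@Lb.r r2628 (@Lb.d (nat_lit 676) (nat_lit 42) (nat_lit 74) (@Lb.t (@Lb.fp (nat_lit 9) t6043))))))))))))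
noncomputable def l33730 : Lb := (@Lb.d (nat_lit 4) (nat_lit 0) (nat_lit 73) (@Lb.g g8 (@Lb.g g9 (@Lb.g g10 (@Lb.g g11 (@Lb.r r427 (@Lb.r r1634 (@Lb.r r292 (@Lb.r r2069 (@Lb.r r1060 (@Lb.d (nat_lit 609) (nat_lit 149) (nat_lit 260) (@Lb.fp (nat_lit 9) t4774))))))))))))
noncomputable def l33731 : Lb := (@Lb.d (nat_lit 544) (nat_lit 69) (nat_lit 408) (@Lb.r r1362 (@Lb.r r149 (@Lb.r r2443 (@Lb.r r264 (@Lb.g g7 (@Lb.d (nat_lit 64) (nat_lit 0) (nat_lit 64) (@Lb.t (@Lb.fp (nat_lit 3) t6044)))))))))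
noncomputable def l33732 : Lb := (@Lb.d (nat_lit 408) (nat_lit 546) (nat_lit 6) (@Lb.r r2731 (@Lb.r r665 (@Lb.r r340 (@Lb.g g7 (@Lb.g g6 (@Lb.d (nat_lit 80) (nat_lit 8) (nat_lit 150) (@Lb.fp (nat_lit 3) t4053))))))))
noncomputable def l33733 : Lb := (@Lb.d (nat_lit 100) (nat_lit 168) (nat_lit 641) (@Lb.r r24 (@Lb.r r82 (@Lb.r r421 (@Lb.g g11 (@Lb.g g6 (@Lb.g g5 (@Lb.d (nat_lit 0) (nat_lit 0) (nat_lit 129) (@Lb.t (@Lb.fm (nat_lit 9) t669))))))))))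
noncomputable def l33734 : Lb := (@Lb.d (nat_lit 1) (nat_lit 512) (nat_lit 73) (@Lb.g g8 (@Lb.g g9 (@Lb.g g10 (@Lb.g g11 (@Lb.r r2395 (@Lb.r r2466 (@Lb.r r1049 (@Lb.r r2628 (@Lb.d (nat_lit 85) (nat_lit 153) (nat_lit 68) (@Lb.fm (nat_lit 9) t6045)))))))))))
noncomputable def l33735 : Lb := (@Lb.r r101 (@Lb.r r402 (@Lb.d (nat_lit 514) (nat_lit 0) (nat_lit 613) (@Lb.fp (nat_lit 1) t590))))
noncomputable def l33736 : Lb := (@Lb.d (nat_lit 2) (nat_lit 265) (nat_lit 6) (@Lb.g g8 (@Lb.g g9 (@Lb.g g10 (@Lb.g g11 (@Lb.r r1706 (@Lb.r r424 (@Lb.r r279 (@Lb.r r1573 (@Lb.r r1044 (@Lb.d (nat_lit 129) (nat_lit 73) (nat_lit 329) (@Lb.fm (nat_lit 9) t151))))))))))))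
noncomputable def l33737 : Lb := (@Lb.r r21 (@Lb.d (nat_lit 6) (nat_lit 0) (nat_lit 0) (@Lb.g g8 (@Lb.g g10 (@Lb.r r1707 (@Lb.r r618 (@Lb.r r25 (@Lb.d (nat_lit 9) (nat_lit 25) (nat_lit 297) (@Lb.fp (nat_lit 3) t591)))))))))
noncomputable def l33738 : Lb := (@Lb.d (nat_lit 2) (nat_lit 514) (nat_lit 73) (@Lb.g g8 (@Lb.g g9 (@Lb.g g10 (@Lb.g g11 (@Lb.r r2666 (@Lb.r r579 (@Lb.r r25 (@Lb.d (nat_lit 2) (nat_lit 100) (nat_lit 618) (@Lb.fm (nat_lit 9) t295))))))))))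
noncomputable def l33739 : Lb := (@Lb.d (nat_lit 530) (nat_lit 265) (nat_lit 134) (@Lb.r r2641 (@Lb.r r610 (@Lb.r r2411 (@Lb.r r344 (@Lb.g g7 (@Lb.g g6 (@Lb.g g5 (@Lb.d (nat_lit 8) (nat_lit 32) (nat_lit 134) (@Lb.t (@Lb.fm (nat_lit 9) t6046)))))))))))
noncomputable def l33740 : Lb := (@Lb.d (nat_lit 356) (nat_lit 288) (nat_lit 330) (@Lb.r r105 (@Lb.r r36 (@Lb.r r2374 (@Lb.r r2691 (@Lb.g g7 (@Lb.g g6 (@Lb.d (nat_lit 0) (nat_lit 0) (nat_lit 134) (@Lb.fm (nat_lit 3) t3472)))))))))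
noncomputable def l33741 : Lb := (@Lb.d (nat_lit 10) (nat_lit 0) (nat_lit 0) (@Lb.g g8 (@Lb.r r1114 (@Lb.r r149 (@Lb.r r1124 (@Lb.d (nat_lit 2) (nat_lit 74) (nat_lit 2) (@Lb.t (@Lb.fp (nat_lit 3) t1344))))))))
noncomputable def l33742 : Lb := (@Lb.d (nat_lit 2) (nat_lit 2) (nat_lit 130) (@Lb.g g8 (@Lb.g g9 (@Lb.g g10 (@Lb.g g11 (@Lb.r r292 (@Lb.r r2651 (@Lb.r r1442 (@Lb.r r1385 (@Lb.r r164 (@Lb.d (nat_lit 537) (nat_lit 2) (nat_lit 10) (@Lb.fm (nat_lit 9) t441))))))))))))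
noncomputable def l33743 : Lb := (@Lb.d (nat_lit 130) (nat_lit 256) (nat_lit 0) (@Lb.g g8 (@Lb.r r410 (@Lb.r r583 (@Lb.r r1121 (@Lb.r r420 (@Lb.d (nat_lit 106) (nat_lit 2) (nat_lit 420) (@Lb.t (@Lb.fm (nat_lit 3) t790)))))))))
noncomputable def l33744 : Lb := (@Lb.d (nat_lit 166) (nat_lit 40) (nat_lit 166) (@Lb.r r346 (@Lb.r r2132 (@Lb.r r2391 (@Lb.g g7 (@Lb.g g6 (@Lb.g g5 (@Lb.g g4 (@Lb.d (nat_lit 96) (nat_lit 65) (nat_lit 74) (@Lb.fp (nat_lit 9) t6047))))))))))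
noncomputable def l33745 : Lb := (@Lb.r r82 (@Lb.d (nat_lit 0) (nat_lit 33) (nat_lit 64) (@Lb.g g8 (@Lb.g g9 (@Lb.g g11 (@Lb.r r1639 (@Lb.r r2450 (@Lb.r r1625 (@Lb.d (nat_lit 132) (nat_lit 166) (nat_lit 664) (@Lb.t (@Lb.fm (nat_lit 9) t218)))))))))))
noncomputable def l33746 : Lb := (@Lb.d (nat_lit 38) (nat_lit 512) (nat_lit 129) (@Lb.g g8 (@Lb.g g9 (@Lb.g g10 (@Lb.g g11 (@Lb.r r427 (@Lb.r r418 (@Lb.r r600 (@Lb.r r405 (@Lb.r r2084 (@Lb.d (nat_lit 353) (nat_lit 136) (nat_lit 258) (@Lb.fp (nat_lit 9) t3577))))))))))))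
noncomputable def l33747 : Lb := (@Lb.r r275 (@Lb.d (nat_lit 2) (nat_lit 553) (nat_lit 1) (@Lb.g g8 (@Lb.g g9 (@Lb.g g10 (@Lb.r r2466 (@Lb.r r2635 (@Lb.r r1572 (@Lb.r r1685 (@Lb.d (nat_lit 421) (nat_lit 165) (nat_lit 613) (@Lb.t (@Lb.fm (nat_lit 9) t6048))))))))))))
noncomputable def l33748 : Lb := (@Lb.d (nat_lit 0) (nat_lit 32) (nat_lit 64) (@Lb.g g11 (@Lb.r r2337 (@Lb.r r1559 (@Lb.r r2178 (@Lb.r r8 (@Lb.d (nat_lit 650) (nat_lit 161) (nat_lit 384) (@Lb.t (@Lb.fp (nat_lit 3) t322)))))))))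
noncomputable def l33749 : Lb := (@Lb.r r264 (@Lb.r r279 (@Lb.r r2178 (@Lb.r r2601 (@Lb.r r2084 (@Lb.d (nat_lit 65) (nat_lit 512) (nat_lit 512) (@Lb.fm (nat_lit 1) t322)))))))
noncomputable def l33750 : Lb := (@Lb.d (nat_lit 2) (nat_lit 258) (nat_lit 130) (@Lb.g g8 (@Lb.g g9 (@Lb.g g10 (@Lb.g g11 (@Lb.r r1706 (@Lb.r r680 (@Lb.r r555 (@Lb.r r1553 (@Lb.r r2084 (@Lb.d (nat_lit 9) (nat_lit 2) (nat_lit 69) (@Lb.fm (nat_lit 9) t51))))))))))))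
noncomputable def l33751 : Lb := (@Lb.r r264 (@Lb.r r279 (@Lb.r r2178 (@Lb.r r2601 (@Lb.r r2084 (@Lb.d (nat_lit 64) (nat_lit 266) (nat_lit 514) (@Lb.fm (nat_lit 1) t322)))))))
noncomputable def l33752 : Lb := (@Lb.d (nat_lit 130) (nat_lit 0) (nat_lit 128) (@Lb.g g8 (@Lb.g g9 (@Lb.g g11 (@Lb.r r386 (@Lb.r r1603 (@Lb.r r548 (@Lb.r r2581 (@Lb.r r2084 (@Lb.d (nat_lit 2) (nat_lit 33) (nat_lit 393) (@Lb.t (@Lb.fm (nat_lit 9) t6049))))))))))))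
noncomputable def l33753 : Lb := (@Lb.d (nat_lit 4) (nat_lit 520) (nat_lit 0) (@Lb.g g8 (@Lb.g g9 (@Lb.r r1636 (@Lb.r r1383 (@Lb.r r1626 (@Lb.r r1429 (@Lb.d (nat_lit 610) (nat_lit 89) (nat_lit 386) (@Lb.fm (nat_lit 3) t5855)))))))))
noncomputable def l33754 : Lb := (@Lb.r r21 (@Lb.d (nat_lit 144) (nat_lit 256) (nat_lit 130) (@Lb.g g8 (@Lb.g g10 (@Lb.g g11 (@Lb.r r2435 (@Lb.r r2180 (@Lb.r r1430 (@Lb.r r97 (@Lb.d (nat_lit 68) (nat_lit 33) (nat_lit 128) (@Lb.t (@Lb.fm (nat_lit 9) t3999))))))))))))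
noncomputable def l33755 : Lb := (@Lb.d (nat_lit 170) (nat_lit 0) (nat_lit 128) (@Lb.g g8 (@Lb.g g11 (@Lb.r r2726 (@Lb.r r1411 (@Lb.r r2597 (@Lb.r r276 (@Lb.d (nat_lit 70) (nat_lit 18) (nat_lit 665) (@Lb.fm (nat_lit 3) t1952)))))))))
noncomputable def l33756 : Lb := (@Lb.r r277 (@Lb.d (nat_lit 517) (nat_lit 520) (nat_lit 2) (@Lb.g g8 (@Lb.g g10 (@Lb.g g11 (@Lb.r r1411 (@Lb.r r101 (@Lb.r r1434 (@Lb.d (nat_lit 22) (nat_lit 90) (nat_lit 394) (@Lb.t (@Lb.fm (nat_lit 9) t3335)))))))))))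
noncomputable def l33757 : Lb := (@Lb.d (nat_lit 645) (nat_lit 86) (nat_lit 82) (@Lb.r r1301 (@Lb.r r1366 (@Lb.r r683 (@Lb.g g6 (@Lb.g g5 (@Lb.g g4 (@Lb.d (nat_lit 8) (nat_lit 0) (nat_lit 1) (@Lb.t (@Lb.fm (nat_lit 9) t578))))))))))
noncomputable def l33758 : Lb := (@Lb.d (nat_lit 1) (nat_lit 258) (nat_lit 74) (@Lb.g g8 (@Lb.g g9 (@Lb.g g10 (@Lb.g g11 (@Lb.r r657 (@Lb.r r535 (@Lb.r r392 (@Lb.r r74 (@Lb.d (nat_lit 33) (nat_lit 5) (nat_lit 154) (@Lb.fp (nat_lit 9) t221)))))))))))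
noncomputable def l33759 : Lb := (@Lb.d (nat_lit 2) (nat_lit 514) (nat_lit 73) (@Lb.g g8 (@Lb.g g9 (@Lb.g g10 (@Lb.g g11 (@Lb.r r2691 (@Lb.r r536 (@Lb.r r2197 (@Lb.r r2646 (@Lb.r r164 (@Lb.d (nat_lit 138) (nat_lit 128) (nat_lit 345) (@Lb.fp (nat_lit 9) t6050))))))))))))
noncomputable def l33760 : Lb := (@Lb.r r81 (@Lb.d (nat_lit 9) (nat_lit 32) (nat_lit 74) (@Lb.g g8 (@Lb.g g10 (@Lb.g g11 (@Lb.r r353 (@Lb.r r535 (@Lb.r r420 (@Lb.d (nat_lit 88) (nat_lit 34) (nat_lit 154) (@Lb.t (@Lb.fm (nat_lit 9) t573)))))))))))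
noncomputable def l33761 : Lb := (@Lb.d (nat_lit 406) (nat_lit 1) (nat_lit 289) (@Lb.r r1604 (@Lb.r r1621 (@Lb.r r362 (@Lb.r r1431 (@Lb.g g5 (@Lb.d (nat_lit 0) (nat_lit 6) (nat_lit 0) (@Lb.t (@Lb.fm (nat_lit 3) t3671)))))))))
noncomputable def l33762 : Lb := (@Lb.d (nat_lit 4) (nat_lit 32) (nat_lit 41) (@Lb.g g8 (@Lb.g g9 (@Lb.g g6 (@Lb.r r2455 (@Lb.r r617 (@Lb.d (nat_lit 102) (nat_lit 89) (nat_lit 648) (@Lb.t (@Lb.fm (nat_lit 9) t386)))))))))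
noncomputable def l33763 : Lb := (@Lb.d (nat_lit 2) (nat_lit 272) (nat_lit 137) (@Lb.g g8 (@Lb.g g9 (@Lb.g g10 (@Lb.g g11 (@Lb.r r427 (@Lb.r r420 (@Lb.r r102 (@Lb.r r2149 (@Lb.r r132 (@Lb.d (nat_lit 33) (nat_lit 130) (nat_lit 153) (@Lb.fm (nat_lit 9) t1665))))))))))))
noncomputable def l33764 : Lb := (@Lb.r r82 (@Lb.d (nat_lit 34) (nat_lit 258) (nat_lit 128) (@Lb.g g8 (@Lb.g g9 (@Lb.g g11 (@Lb.r r363 (@Lb.r r582 (@Lb.r r408 (@Lb.r r101 (@Lb.d (nat_lit 38) (nat_lit 162) (nat_lit 128) (@Lb.t (@Lb.fm (nat_lit 9) t789))))))))))))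
noncomputable def l33765 : Lb := (@Lb.r r82 (@Lb.d (nat_lit 34) (nat_lit 258) (nat_lit 128) (@Lb.g g8 (@Lb.g g9 (@Lb.g g11 (@Lb.r r363 (@Lb.r r582 (@Lb.r r408 (@Lb.r r101 (@Lb.d (nat_lit 33) (nat_lit 166) (nat_lit 129) (@Lb.t (@Lb.fm (nat_lit 9) t125))))))))))))
noncomputable def l33766 : Lb := (@Lb.d (nat_lit 166) (nat_lit 400) (nat_lit 522) (@Lb.r r666 (@Lb.r r1700 (@Lb.r r1701 (@Lb.r r683 (@Lb.g g6 (@Lb.g g5 (@Lb.g g4 (@Lb.d (nat_lit 129) (nat_lit 8) (nat_lit 4) (@Lb.t (@Lb.fm (nat_lit 9) t166)))))))))))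
noncomputable def l33767 : Lb := (@Lb.d (nat_lit 2) (nat_lit 518) (nat_lit 129) (@Lb.g g8 (@Lb.g g9 (@Lb.g g10 (@Lb.g g11 (@Lb.r r1691 (@Lb.r r1684 (@Lb.r r1190 (@Lb.r r529 (@Lb.d (nat_lit 361) (nat_lit 80) (nat_lit 386) (@Lb.fp (nat_lit 9) t152)))))))))))
noncomputable def l33768 : Lb := (@Lb.r r323 (@Lb.d (nat_lit 154) (nat_lit 520) (nat_lit 2) (@Lb.g g8 (@Lb.g g9 (@Lb.g g10 (@Lb.r r599 (@Lb.r r297 (@Lb.r r292 (@Lb.d (nat_lit 72) (nat_lit 41) (nat_lit 22) (@Lb.t (@Lb.fm (nat_lit 9) t573)))))))))))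
noncomputable def l33769 : Lb := (@Lb.r r323 (@Lb.d (nat_lit 2) (nat_lit 256) (nat_lit 1) (@Lb.g g8 (@Lb.g g6 (@Lb.r r387 (@Lb.r r2145 (@Lb.d (nat_lit 292) (nat_lit 8) (nat_lit 81) (@Lb.fm (nat_lit 3) t97))))))))
noncomputable def l33770 : Lb := (@Lb.r r20 (@Lb.r r275 (@Lb.d (nat_lit 0) (nat_lit 257) (nat_lit 2) (@Lb.g g5 (@Lb.g g10 (@Lb.r r1686 (@Lb.r r2376 (@Lb.r r1543 (@Lb.d (nat_lit 5) (nat_lit 144) (nat_lit 0) (@Lb.fm (nat_lit 3) t68))))))))))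
noncomputable def l33771 : Lb := (@Lb.r r21 (@Lb.d (nat_lit 128) (nat_lit 0) (nat_lit 130) (@Lb.g g8 (@Lb.g g10 (@Lb.g g11 (@Lb.r r651 (@Lb.r r2378 (@Lb.r r532 (@Lb.r r25 (@Lb.d (nat_lit 10) (nat_lit 72) (nat_lit 149) (@Lb.t (@Lb.fp (nat_lit 9) t2855))))))))))))
noncomputable def l33772 : Lb := (@Lb.d (nat_lit 129) (nat_lit 2) (nat_lit 130) (@Lb.g g8 (@Lb.g g9 (@Lb.g g10 (@Lb.g g11 (@Lb.r r1706 (@Lb.r r1411 (@Lb.r r1177 (@Lb.r r1156 (@Lb.d (nat_lit 290) (nat_lit 80) (nat_lit 666) (@Lb.fm (nat_lit 9) t2856)))))))))))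
noncomputable def l33773 : Lb := (@Lb.d (nat_lit 128) (nat_lit 258) (nat_lit 130) (@Lb.g g8 (@Lb.g g9 (@Lb.g g10 (@Lb.g g11 (@Lb.r r419 (@Lb.r r344 (@Lb.r r1429 (@Lb.r r1110 (@Lb.r r2212 (@Lb.d (nat_lit 33) (nat_lit 105) (nat_lit 673) (@Lb.fm (nat_lit 9) t5))))))))))))
noncomputable def l33774 : Lb := (@Lb.r r323 (@Lb.d (nat_lit 33) (nat_lit 258) (nat_lit 2) (@Lb.g g8 (@Lb.g g9 (@Lb.g g10 (@Lb.r r1689 (@Lb.r r1563 (@Lb.r r1540 (@Lb.d (nat_lit 417) (nat_lit 5) (nat_lit 674) (@Lb.t (@Lb.fp (nat_lit 9) t1599)))))))))))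
noncomputable def l33775 : Lb := (@Lb.d (nat_lit 33) (nat_lit 2) (nat_lit 130) (@Lb.g g8 (@Lb.g g9 (@Lb.g g10 (@Lb.g g11 (@Lb.r r343 (@Lb.r r1366 (@Lb.r r97 (@Lb.r r2072 (@Lb.d (nat_lit 666) (nat_lit 130) (nat_lit 74) (@Lb.fp (nat_lit 9) t4943)))))))))))
noncomputable def l33776 : Lb := (@Lb.d (nat_lit 133) (nat_lit 530) (nat_lit 421) (@Lb.r r81 (@Lb.r r354 (@Lb.r r81 (@Lb.r r647 (@Lb.g g7 (@Lb.g g6 (@Lb.g g5 (@Lb.g g8 (@Lb.d (nat_lit 550) (nat_lit 4) (nat_lit 134) (@Lb.fp (nat_lit 9) t4692)))))))))))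
noncomputable def l33777 : Lb := (@Lb.d (nat_lit 592) (nat_lit 40) (nat_lit 88) (@Lb.r r101 (@Lb.r r386 (@Lb.r r339 (@Lb.g g7 (@Lb.g g6 (@Lb.d (nat_lit 0) (nat_lit 0) (nat_lit 65) (@Lb.fm (nat_lit 3) t218))))))))
noncomputable def l33778 : Lb := (@Lb.d (nat_lit 4) (nat_lit 0) (nat_lit 130) (@Lb.g g8 (@Lb.g g9 (@Lb.g g10 (@Lb.g g11 (@Lb.r r1706 (@Lb.r r648 (@Lb.r r1563 (@Lb.r r2337 (@Lb.r r36 (@Lb.d (nat_lit 642) (nat_lit 105) (nat_lit 66) (@Lb.fp (nat_lit 9) t242))))))))))))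
noncomputable def l33779 : Lb := (@Lb.d (nat_lit 594) (nat_lit 552) (nat_lit 22) (@Lb.r r101 (@Lb.r r386 (@Lb.r r339 (@Lb.g g7 (@Lb.g g6 (@Lb.d (nat_lit 0) (nat_lit 0) (nat_lit 65) (@Lb.fm (nat_lit 3) t218))))))))
noncomputable def l33780 : Lb := (@Lb.d (nat_lit 41) (nat_lit 392) (nat_lit 162) (@Lb.r r21 (@Lb.r r104 (@Lb.r r323 (@Lb.g g10 (@Lb.g g5 (@Lb.d (nat_lit 0) (nat_lit 1) (nat_lit 2) (@Lb.r r387 (@Lb.fm (nat_lit 3) t74)))))))))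
noncomputable def l33781 : Lb := (@Lb.d (nat_lit 4) (nat_lit 512) (nat_lit 73) (@Lb.g g8 (@Lb.g g9 (@Lb.g g10 (@Lb.g g11 (@Lb.r r1706 (@Lb.r r648 (@Lb.r r1563 (@Lb.r r2337 (@Lb.r r36 (@Lb.d (nat_lit 641) (nat_lit 105) (nat_lit 66) (@Lb.fp (nat_lit 9) t242))))))))))))
noncomputable def l33782 : Lb := (@Lb.d (nat_lit 9) (nat_lit 520) (nat_lit 130) (@Lb.g g8 (@Lb.g g10 (@Lb.g g11 (@Lb.r r1451 (@Lb.r r2145 (@Lb.r r1622 (@Lb.r r1156 (@Lb.d (nat_lit 160) (nat_lit 168) (nat_lit 577) (@Lb.t (@Lb.fp (nat_lit 9) t4988)))))))))))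
noncomputable def l33783 : Lb := (@Lb.d (nat_lit 9) (nat_lit 264) (nat_lit 130) (@Lb.g g8 (@Lb.g g10 (@Lb.g g11 (@Lb.r r1451 (@Lb.r r2145 (@Lb.r r1622 (@Lb.r r1156 (@Lb.d (nat_lit 165) (nat_lit 169) (nat_lit 577) (@Lb.t (@Lb.fp (nat_lit 9) t2910)))))))))))
noncomputable def l33784 : Lb := (@Lb.d (nat_lit 586) (nat_lit 1) (nat_lit 661) (@Lb.r r1297 (@Lb.r r291 (@Lb.r r417 (@Lb.r r2214 (@Lb.g g7 (@Lb.g g6 (@Lb.g g5 (@Lb.g g8 (@Lb.d (nat_lit 322) (nat_lit 1) (nat_lit 129) (@Lb.fm (nat_lit 9) t1561)))))))))))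
noncomputable def l33785 : Lb := (@Lb.d (nat_lit 0) (nat_lit 258) (nat_lit 64) (@Lb.g g9 (@Lb.g g11 (@Lb.r r337 (@Lb.r r1642 (@Lb.r r619 (@Lb.r r1096 (@Lb.d (nat_lit 616) (nat_lit 162) (nat_lit 402) (@Lb.fm (nat_lit 3) t414)))))))))
noncomputable def l33786 : Lb := (@Lb.d (nat_lit 128) (nat_lit 0) (nat_lit 128) (@Lb.g g11 (@Lb.r r1114 (@Lb.r r260 (@Lb.r r603 (@Lb.r r1317 (@Lb.d (nat_lit 258) (nat_lit 152) (nat_lit 594) (@Lb.t (@Lb.fp (nat_lit 3) t6051)))))))))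
noncomputable def l33787 : Lb := (@Lb.d (nat_lit 0) (nat_lit 72) (nat_lit 1) (@Lb.r r2196 (@Lb.r r1186 (@Lb.r r2209 (@Lb.r r2451 (@Lb.g g10 (@Lb.t (@Lb.fp (nat_lit 3) t6052))))))))
noncomputable def l33788 : Lb := (@Lb.d (nat_lit 41) (nat_lit 580) (nat_lit 32) (@Lb.r r21 (@Lb.r r104 (@Lb.r r1355 (@Lb.g g10 (@Lb.g g5 (@Lb.d (nat_lit 0) (nat_lit 1) (nat_lit 2) (@Lb.r r387 (@Lb.fm (nat_lit 3) t830)))))))))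
noncomputable def l33789 : Lb := (@Lb.r r1114 (@Lb.r r580 (@Lb.r r295 (@Lb.r r2329 (@Lb.r r1044 (@Lb.d (nat_lit 65) (nat_lit 256) (nat_lit 0) (@Lb.fp (nat_lit 1) t807)))))))
noncomputable def l33790 : Lb := (@Lb.d (nat_lit 0) (nat_lit 650) (nat_lit 34) (@Lb.r r2196 (@Lb.r r146 (@Lb.r r2129 (@Lb.r r2371 (@Lb.g g6 (@Lb.d (nat_lit 0) (nat_lit 0) (nat_lit 1) (@Lb.t (@Lb.fp (nat_lit 3) t5393)))))))))
noncomputable def l33791 : Lb := (@Lb.d (nat_lit 64) (nat_lit 548) (nat_lit 70) (@Lb.r r2182 (@Lb.r r2731 (@Lb.r r661 (@Lb.g g7 (@Lb.g g4 (@Lb.d (nat_lit 66) (nat_lit 16) (nat_lit 128) (@Lb.r r74 (@Lb.r r25 (@Lb.fm (nat_lit 3) t1060))))))))))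
noncomputable def l33792 : Lb := (@Lb.r r21 (@Lb.d (nat_lit 646) (nat_lit 520) (nat_lit 130) (@Lb.g g8 (@Lb.g g10 (@Lb.g g11 (@Lb.r r1419 (@Lb.r r101 (@Lb.r r410 (@Lb.d (nat_lit 9) (nat_lit 154) (nat_lit 148) (@Lb.t (@Lb.fm (nat_lit 9) t4843)))))))))))
noncomputable def l33793 : Lb := (@Lb.d (nat_lit 518) (nat_lit 37) (nat_lit 22) (@Lb.r r1114 (@Lb.r r1096 (@Lb.r r297 (@Lb.r r1363 (@Lb.g g7 (@Lb.g g5 (@Lb.d (nat_lit 0) (nat_lit 1) (nat_lit 64) (@Lb.fm (nat_lit 3) t2851)))))))))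
noncomputable def l33794 : Lb := (@Lb.r r21 (@Lb.r r323 (@Lb.d (nat_lit 2) (nat_lit 0) (nat_lit 0) (@Lb.g g8 (@Lb.g g10 (@Lb.r r2455 (@Lb.r r2196 (@Lb.r r2630 (@Lb.r r97 (@Lb.d (nat_lit 0) (nat_lit 144) (nat_lit 80) (@Lb.fp (nat_lit 3) t6053)))))))))))
noncomputable def l33795 : Lb := (@Lb.d (nat_lit 394) (nat_lit 401) (nat_lit 276) (@Lb.r r2389 (@Lb.r r1443 (@Lb.r r2450 (@Lb.g g7 (@Lb.g g5 (@Lb.g g8 (@Lb.d (nat_lit 9) (nat_lit 4) (nat_lit 64) (@Lb.t (@Lb.fp (nat_lit 9) t106))))))))))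
noncomputable def l33796 : Lb := (@Lb.d (nat_lit 516) (nat_lit 357) (nat_lit 360) (@Lb.r r1121 (@Lb.r r386 (@Lb.r r2391 (@Lb.g g7 (@Lb.g g6 (@Lb.g g4 (@Lb.d (nat_lit 2) (nat_lit 0) (nat_lit 65) (@Lb.t (@Lb.fp (nat_lit 9) t5574))))))))))
noncomputable def l33797 : Lb := (@Lb.d (nat_lit 402) (nat_lit 612) (nat_lit 136) (@Lb.r r1350 (@Lb.r r1684 (@Lb.r r1321 (@Lb.g g7 (@Lb.g g6 (@Lb.g g5 (@Lb.d (nat_lit 64) (nat_lit 1) (nat_lit 520) (@Lb.r r388 (@Lb.t (@Lb.fm (nat_lit 9) t6054)))))))))))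
noncomputable def l33798 : Lb := (@Lb.d (nat_lit 33) (nat_lit 4) (nat_lit 144) (@Lb.g g8 (@Lb.g g9 (@Lb.g g10 (@Lb.g g11 (@Lb.r r387 (@Lb.r r1561 (@Lb.r r1556 (@Lb.d (nat_lit 389) (nat_lit 105) (nat_lit 72) (@Lb.fp (nat_lit 9) t6055))))))))))
noncomputable def l33799 : Lb := (@Lb.d (nat_lit 2) (nat_lit 2) (nat_lit 130) (@Lb.g g8 (@Lb.g g9 (@Lb.g g10 (@Lb.g g11 (@Lb.r r427 (@Lb.r r2120 (@Lb.r r422 (@Lb.r r2385 (@Lb.d (nat_lit 277) (nat_lit 166) (nat_lit 593) (@Lb.fp (nat_lit 9) t3247)))))))))))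
noncomputable def l33800 : Lb := (@Lb.d (nat_lit 2) (nat_lit 512) (nat_lit 129) (@Lb.g g8 (@Lb.g g9 (@Lb.g g10 (@Lb.g g11 (@Lb.r r657 (@Lb.r r1427 (@Lb.r r616 (@Lb.r r326 (@Lb.r r1156 (@Lb.d (nat_lit 322) (nat_lit 137) (nat_lit 662) (@Lb.fm (nat_lit 9) t3883))))))))))))
noncomputable def l33801 : Lb := (@Lb.d (nat_lit 4) (nat_lit 256) (nat_lit 137) (@Lb.g g8 (@Lb.g g9 (@Lb.g g10 (@Lb.g g11 (@Lb.r r683 (@Lb.r r2666 (@Lb.r r25 (@Lb.d (nat_lit 9) (nat_lit 89) (nat_lit 537) (@Lb.fm (nat_lit 9) t591))))))))))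
noncomputable def l33802 : Lb := (@Lb.d (nat_lit 129) (nat_lit 258) (nat_lit 130) (@Lb.g g8 (@Lb.g g9 (@Lb.g g10 (@Lb.g g11 (@Lb.r r2666 (@Lb.r r1641 (@Lb.r r291 (@Lb.r r1604 (@Lb.d (nat_lit 400) (nat_lit 102) (nat_lit 22) (@Lb.fm (nat_lit 9) t3438)))))))))))
noncomputable def l33803 : Lb := (@Lb.d (nat_lit 129) (nat_lit 258) (nat_lit 66) (@Lb.g g8 (@Lb.g g9 (@Lb.g g10 (@Lb.g g11 (@Lb.r r553 (@Lb.r r299 (@Lb.r r1418 (@Lb.r r1416 (@Lb.d (nat_lit 133) (nat_lit 10) (nat_lit 329) (@Lb.fm (nat_lit 9) t989)))))))))))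
noncomputable def l33804 : Lb := (@Lb.d (nat_lit 0) (nat_lit 256) (nat_lit 128) (@Lb.g g10 (@Lb.g g11 (@Lb.r r387 (@Lb.r r402 (@Lb.r r24 (@Lb.d (nat_lit 529) (nat_lit 68) (nat_lit 34) (@Lb.fm (nat_lit 3) t4596))))))))
noncomputable def l33805 : Lb := (@Lb.d (nat_lit 2) (nat_lit 514) (nat_lit 130) (@Lb.g g8 (@Lb.g g9 (@Lb.g g10 (@Lb.g g11 (@Lb.r r553 (@Lb.r r299 (@Lb.r r388 (@Lb.r r70 (@Lb.r r132 (@Lb.d (nat_lit 26) (nat_lit 138) (nat_lit 105) (@Lb.fm (nat_lit 9) t126))))))))))))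
noncomputable def l33806 : Lb := (@Lb.d (nat_lit 533) (nat_lit 665) (nat_lit 164) (@Lb.r r2387 (@Lb.r r677 (@Lb.g g7 (@Lb.g g6 (@Lb.g g5 (@Lb.d (nat_lit 16) (nat_lit 1) (nat_lit 86) (@Lb.r r2564 (@Lb.t (@Lb.fm (nat_lit 9) t4354))))))))))
noncomputable def l33807 : Lb := (@Lb.d (nat_lit 256) (nat_lit 69) (nat_lit 0) (@Lb.r r24 (@Lb.r r1317 (@Lb.r r2651 (@Lb.g g7 (@Lb.g g10 (@Lb.d (nat_lit 0) (nat_lit 0) (nat_lit 9) (@Lb.r r145 (@Lb.fm (nat_lit 3) t3090)))))))))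
noncomputable def l33808 : Lb := (@Lb.d (nat_lit 0) (nat_lit 2) (nat_lit 128) (@Lb.g g9 (@Lb.g g11 (@Lb.r r529 (@Lb.r r2587 (@Lb.r r1414 (@Lb.r r2564 (@Lb.d (nat_lit 261) (nat_lit 146) (nat_lit 256) (@Lb.fm (nat_lit 3) t4354)))))))))
noncomputable def l33809 : Lb := (@Lb.d (nat_lit 105) (nat_lit 338) (nat_lit 356) (@Lb.r r24 (@Lb.r r2374 (@Lb.r r1691 (@Lb.g g7 (@Lb.g g6 (@Lb.g g9 (@Lb.d (nat_lit 0) (nat_lit 10) (nat_lit 133) (@Lb.t (@Lb.fm (nat_lit 9) t409))))))))))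
noncomputable def l33810 : Lb := (@Lb.d (nat_lit 521) (nat_lit 518) (nat_lit 342) (@Lb.r r394 (@Lb.r r132 (@Lb.r r279 (@Lb.g g7 (@Lb.g g6 (@Lb.g g5 (@Lb.d (nat_lit 16) (nat_lit 134) (nat_lit 66) (@Lb.t (@Lb.fm (nat_lit 9) t4742))))))))))
noncomputable def l33811 : Lb := (@Lb.r r323 (@Lb.d (nat_lit 32) (nat_lit 260) (nat_lit 25) (@Lb.g g6 (@Lb.r r2459 (@Lb.r r24 (@Lb.d (nat_lit 266) (nat_lit 5) (nat_lit 86) (@Lb.t (@Lb.fp (nat_lit 3) t3316))))))))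
noncomputable def l33812 : Lb := (@Lb.r r322 (@Lb.d (nat_lit 0) (nat_lit 9) (nat_lit 576) (@Lb.g g9 (@Lb.g g7 (@Lb.r r598 (@Lb.r r417 (@Lb.r r24 (@Lb.d (nat_lit 361) (nat_lit 42) (nat_lit 10) (@Lb.fp (nat_lit 3) t1087)))))))))
noncomputable def l33813 : Lb := (@Lb.d (nat_lit 0) (nat_lit 0) (nat_lit 136) (@Lb.g g11 (@Lb.r r402 (@Lb.r r101 (@Lb.d (nat_lit 362) (nat_lit 102) (nat_lit 656) (@Lb.t (@Lb.fp (nat_lit 3) t1018)))))))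
noncomputable def l33814 : Lb := (@Lb.d (nat_lit 37) (nat_lit 106) (nat_lit 513) (@Lb.r r273 (@Lb.r r682 (@Lb.r r404 (@Lb.r r363 (@Lb.g g7 (@Lb.g g6 (@Lb.d (nat_lit 16) (nat_lit 0) (nat_lit 65) (@Lb.fp (nat_lit 3) t755)))))))))
noncomputable def l33815 : Lb := (@Lb.d (nat_lit 64) (nat_lit 0) (nat_lit 328) (@Lb.g g11 (@Lb.r r402 (@Lb.r r1045 (@Lb.r r8 (@Lb.d (nat_lit 256) (nat_lit 64) (nat_lit 144) (@Lb.t (@Lb.fp (nat_lit 3) t1122))))))))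
noncomputable def l33816 : Lb := (@Lb.d (nat_lit 64) (nat_lit 256) (nat_lit 392) (@Lb.g g11 (@Lb.r r402 (@Lb.r r1045 (@Lb.r r8 (@Lb.d (nat_lit 256) (nat_lit 69) (nat_lit 145) (@Lb.t (@Lb.fp (nat_lit 3) t1122))))))))
noncomputable def l33817 : Lb := (@Lb.d (nat_lit 2) (nat_lit 2) (nat_lit 74) (@Lb.g g8 (@Lb.g g9 (@Lb.g g10 (@Lb.g g11 (@Lb.r r2694 (@Lb.r r324 (@Lb.r r1579 (@Lb.r r1553 (@Lb.r r36 (@Lb.d (nat_lit 521) (nat_lit 104) (nat_lit 130) (@Lb.fp (nat_lit 9) t51))))))))))))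
noncomputable def l33818 : Lb := (@Lb.r r1045 (@Lb.r r1094 (@Lb.d (nat_lit 514) (nat_lit 256) (nat_lit 72) (@Lb.g g4 (@Lb.g g11 (@Lb.d (nat_lit 2) (nat_lit 0) (nat_lit 160) (@Lb.fp (nat_lit 3) t428)))))))
noncomputable def l33819 : Lb := (@Lb.d (nat_lit 64) (nat_lit 256) (nat_lit 328) (@Lb.g g11 (@Lb.r r1094 (@Lb.r r1045 (@Lb.r r8 (@Lb.d (nat_lit 256) (nat_lit 0) (nat_lit 106) (@Lb.t (@Lb.fm (nat_lit 3) t284))))))))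
noncomputable def l33820 : Lb := (@Lb.r r82 (@Lb.d (nat_lit 0) (nat_lit 2) (nat_lit 580) (@Lb.g g8 (@Lb.g g9 (@Lb.g g7 (@Lb.r r425 (@Lb.r r2154 (@Lb.r r2152 (@Lb.d (nat_lit 96) (nat_lit 10) (nat_lit 281) (@Lb.t (@Lb.fp (nat_lit 9) t6056)))))))))))
noncomputable def l33821 : Lb := (@Lb.d (nat_lit 26) (nat_lit 1) (nat_lit 0) (@Lb.g g8 (@Lb.g g9 (@Lb.g g10 (@Lb.r r675 (@Lb.r r1681 (@Lb.r r2404 (@Lb.r r2202 (@Lb.d (nat_lit 169) (nat_lit 9) (nat_lit 596) (@Lb.t (@Lb.fm (nat_lit 9) t3381)))))))))))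
noncomputable def l33822 : Lb := (@Lb.d (nat_lit 0) (nat_lit 545) (nat_lit 132) (@Lb.g g9 (@Lb.g g10 (@Lb.g g11 (@Lb.r r679 (@Lb.r r610 (@Lb.r r529 (@Lb.d (nat_lit 104) (nat_lit 40) (nat_lit 129) (@Lb.t (@Lb.fp (nat_lit 9) t50))))))))))
noncomputable def l33823 : Lb := (@Lb.d (nat_lit 392) (nat_lit 657) (nat_lit 276) (@Lb.r r2389 (@Lb.r r1443 (@Lb.r r2450 (@Lb.g g7 (@Lb.g g5 (@Lb.g g8 (@Lb.d (nat_lit 2) (nat_lit 5) (nat_lit 64) (@Lb.t (@Lb.fp (nat_lit 9) t218))))))))))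
noncomputable def l33824 : Lb := (@Lb.d (nat_lit 661) (nat_lit 612) (nat_lit 292) (@Lb.r r2196 (@Lb.r r1321 (@Lb.r r595 (@Lb.g g6 (@Lb.g g5 (@Lb.d (nat_lit 16) (nat_lit 17) (nat_lit 1) (@Lb.r r387 (@Lb.fm (nat_lit 3) t68)))))))))
noncomputable def l33825 : Lb := (@Lb.d (nat_lit 5) (nat_lit 0) (nat_lit 0) (@Lb.g g4 (@Lb.g g7 (@Lb.d (nat_lit 6) (nat_lit 65) (nat_lit 133) (@Lb.fm (nat_lit 3) t2)))))
noncomputable def l33826 : Lb := (@Lb.d (nat_lit 2) (nat_lit 521) (nat_lit 1) (@Lb.g g8 (@Lb.g g9 (@Lb.g g10 (@Lb.r r1699 (@Lb.r r346 (@Lb.r r2585 (@Lb.d (nat_lit 664) (nat_lit 162) (nat_lit 417) (@Lb.t (@Lb.fp (nat_lit 9) t50))))))))))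
noncomputable def l33827 : Lb := (@Lb.r r81 (@Lb.d (nat_lit 138) (nat_lit 516) (nat_lit 25) (@Lb.g g8 (@Lb.g g6 (@Lb.r r661 (@Lb.r r343 (@Lb.r r680 (@Lb.d (nat_lit 85) (nat_lit 138) (nat_lit 85) (@Lb.fm (nat_lit 3) t152)))))))))
noncomputable def l33828 : Lb := (@Lb.d (nat_lit 1) (nat_lit 0) (nat_lit 66) (@Lb.g g8 (@Lb.g g9 (@Lb.g g10 (@Lb.g g11 (@Lb.r r1681 (@Lb.r r356 (@Lb.r r154 (@Lb.r r132 (@Lb.d (nat_lit 388) (nat_lit 146) (nat_lit 133) (@Lb.fm (nat_lit 9) t907)))))))))))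
noncomputable def l33829 : Lb := (@Lb.d (nat_lit 169) (nat_lit 581) (nat_lit 170) (@Lb.r r680 (@Lb.r r427 (@Lb.r r345 (@Lb.g g10 (@Lb.g g4 (@Lb.d (nat_lit 69) (nat_lit 8) (nat_lit 38) (@Lb.r r145 (@Lb.fm (nat_lit 3) t6057)))))))))
noncomputable def l33830 : Lb := (@Lb.r r101 (@Lb.r r402 (@Lb.r r24 (@Lb.d (nat_lit 577) (nat_lit 98) (nat_lit 37) (@Lb.fm (nat_lit 1) t2840)))))
noncomputable def l33831 : Lb := (@Lb.d (nat_lit 261) (nat_lit 577) (nat_lit 640) (@Lb.r r2341 (@Lb.r r1624 (@Lb.r r2726 (@Lb.g g11 (@Lb.g g6 (@Lb.g g5 (@Lb.t (@Lb.fp (nat_lit 9) t6058)))))))))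
noncomputable def l33832 : Lb := (@Lb.d (nat_lit 26) (nat_lit 608) (nat_lit 578) (@Lb.r r101 (@Lb.r r24 (@Lb.g g10 (@Lb.d (nat_lit 0) (nat_lit 8) (nat_lit 9) (@Lb.t (@Lb.fp (nat_lit 3) t6059)))))))
noncomputable def l33833 : Lb := (@Lb.d (nat_lit 517) (nat_lit 129) (nat_lit 32) (@Lb.r r1637 (@Lb.r r2328 (@Lb.r r386 (@Lb.r r1575 (@Lb.g g7 (@Lb.g g5 (@Lb.r r98 (@Lb.fm (nat_lit 3) t2144)))))))))
noncomputable def l33834 : Lb := (@Lb.d (nat_lit 657) (nat_lit 81) (nat_lit 289) (@Lb.r r82 (@Lb.r r1441 (@Lb.r r279 (@Lb.g g7 (@Lb.g g5 (@Lb.g g4 (@Lb.d (nat_lit 1) (nat_lit 1) (nat_lit 0) (@Lb.r r98 (@Lb.t (@Lb.fm (nat_lit 9) t6060)))))))))))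
noncomputable def l33835 : Lb := (@Lb.r r20 (@Lb.d (nat_lit 32) (nat_lit 293) (nat_lit 64) (@Lb.g g5 (@Lb.g g10 (@Lb.g g11 (@Lb.r r328 (@Lb.r r359 (@Lb.r r338 (@Lb.d (nat_lit 146) (nat_lit 25) (nat_lit 65) (@Lb.t (@Lb.fm (nat_lit 9) t50)))))))))))
noncomputable def l33836 : Lb := (@Lb.d (nat_lit 0) (nat_lit 258) (nat_lit 2) (@Lb.g g8 (@Lb.g g9 (@Lb.g g10 (@Lb.r r515 (@Lb.r r145 (@Lb.r r100 (@Lb.r r2202 (@Lb.r r2180 (@Lb.d (nat_lit 2) (nat_lit 16) (nat_lit 594) (@Lb.t (@Lb.fm (nat_lit 9) t5808))))))))))))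
noncomputable def l33837 : Lb := (@Lb.d (nat_lit 2) (nat_lit 258) (nat_lit 2) (@Lb.g g8 (@Lb.g g9 (@Lb.g g10 (@Lb.g g11 (@Lb.r r683 (@Lb.r r2666 (@Lb.r r2585 (@Lb.r r2564 (@Lb.d (nat_lit 644) (nat_lit 130) (nat_lit 418) (@Lb.fm (nat_lit 9) t820)))))))))))
noncomputable def l33838 : Lb := (@Lb.d (nat_lit 132) (nat_lit 256) (nat_lit 130) (@Lb.g g8 (@Lb.g g9 (@Lb.g g10 (@Lb.g g11 (@Lb.r r2459 (@Lb.r r1177 (@Lb.r r1626 (@Lb.r r1604 (@Lb.d (nat_lit 146) (nat_lit 138) (nat_lit 649) (@Lb.fp (nat_lit 9) t1368)))))))))))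
noncomputable def l33839 : Lb := (@Lb.d (nat_lit 0) (nat_lit 512) (nat_lit 130) (@Lb.g g9 (@Lb.g g10 (@Lb.g g11 (@Lb.r r1447 (@Lb.r r132 (@Lb.r r422 (@Lb.r r409 (@Lb.r r20 (@Lb.d (nat_lit 538) (nat_lit 128) (nat_lit 18) (@Lb.t (@Lb.fp (nat_lit 9) t651))))))))))))
noncomputable def l33840 : Lb := (@Lb.d (nat_lit 2) (nat_lit 2) (nat_lit 137) (@Lb.g g8 (@Lb.g g9 (@Lb.g g10 (@Lb.g g11 (@Lb.r r643 (@Lb.r r596 (@Lb.r r1690 (@Lb.r r85 (@Lb.r r164 (@Lb.d (nat_lit 657) (nat_lit 161) (nat_lit 618) (@Lb.fp (nat_lit 9) t3409))))))))))))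
noncomputable def l33841 : Lb := (@Lb.d (nat_lit 296) (nat_lit 660) (nat_lit 678) (@Lb.r r2073 (@Lb.r r1560 (@Lb.r r331 (@Lb.g g6 (@Lb.g g5 (@Lb.g g4 (@Lb.d (nat_lit 66) (nat_lit 1) (nat_lit 41) (@Lb.r r403 (@Lb.t (@Lb.fm (nat_lit 9) t2996)))))))))))
noncomputable def l33842 : Lb := (@Lb.d (nat_lit 1) (nat_lit 577) (nat_lit 256) (@Lb.r r1121 (@Lb.r r402 (@Lb.r r2311 (@Lb.g g4 (@Lb.d (nat_lit 657) (nat_lit 0) (nat_lit 0) (@Lb.t (@Lb.fm (nat_lit 3) t2474))))))))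
noncomputable def l33843 : Lb := (@Lb.r r82 (@Lb.d (nat_lit 34) (nat_lit 258) (nat_lit 64) (@Lb.g g8 (@Lb.g g9 (@Lb.g g7 (@Lb.r r582 (@Lb.r r408 (@Lb.d (nat_lit 150) (nat_lit 74) (nat_lit 82) (@Lb.t (@Lb.fm (nat_lit 9) t6061))))))))))
noncomputable def l33844 : Lb := (@Lb.r r82 (@Lb.d (nat_lit 166) (nat_lit 512) (nat_lit 136) (@Lb.g g8 (@Lb.g g9 (@Lb.g g11 (@Lb.r r1426 (@Lb.r r677 (@Lb.r r1432 (@Lb.r r1415 (@Lb.d (nat_lit 361) (nat_lit 86) (nat_lit 81) (@Lb.t (@Lb.fp (nat_lit 9) t4064))))))))))))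
noncomputable def l33845 : Lb := (@Lb.d (nat_lit 9) (nat_lit 8) (nat_lit 1) (@Lb.g g8 (@Lb.g g10 (@Lb.r r2331 (@Lb.r r2129 (@Lb.r r1638 (@Lb.r r2436 (@Lb.d (nat_lit 617) (nat_lit 129) (nat_lit 682) (@Lb.fm (nat_lit 3) t386)))))))))
noncomputable def l33846 : Lb := (@Lb.r r21 (@Lb.r r70 (@Lb.d (nat_lit 128) (nat_lit 0) (nat_lit 136) (@Lb.g g8 (@Lb.g g11 (@Lb.r r402 (@Lb.r r1113 (@Lb.r r2068 (@Lb.d (nat_lit 0) (nat_lit 66) (nat_lit 128) (@Lb.fp (nat_lit 3) t894))))))))))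
noncomputable def l33847 : Lb := (@Lb.r r263 (@Lb.d (nat_lit 2) (nat_lit 2) (nat_lit 2) (@Lb.g g8 (@Lb.g g9 (@Lb.g g10 (@Lb.r r422 (@Lb.r r327 (@Lb.r r409 (@Lb.r r388 (@Lb.d (nat_lit 346) (nat_lit 2) (nat_lit 514) (@Lb.t (@Lb.fp (nat_lit 9) t4024))))))))))))
noncomputable def l33848 : Lb := (@Lb.d (nat_lit 32) (nat_lit 258) (nat_lit 2) (@Lb.g g9 (@Lb.g g10 (@Lb.r r515 (@Lb.r r149 (@Lb.r r100 (@Lb.r r602 (@Lb.d (nat_lit 98) (nat_lit 4) (nat_lit 10) (@Lb.fp (nat_lit 3) t521)))))))))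
noncomputable def l33849 : Lb := (@Lb.r r263 (@Lb.d (nat_lit 2) (nat_lit 258) (nat_lit 2) (@Lb.g g8 (@Lb.g g9 (@Lb.g g10 (@Lb.r r1371 (@Lb.r r386 (@Lb.r r97 (@Lb.r r1048 (@Lb.d (nat_lit 10) (nat_lit 42) (nat_lit 386) (@Lb.t (@Lb.fp (nat_lit 9) t2130))))))))))))
noncomputable def l33850 : Lb := (@Lb.d (nat_lit 1) (nat_lit 2) (nat_lit 2) (@Lb.g g8 (@Lb.g g9 (@Lb.g g10 (@Lb.r r515 (@Lb.r r145 (@Lb.r r356 (@Lb.r r154 (@Lb.r r132 (@Lb.d (nat_lit 2) (nat_lit 16) (nat_lit 133) (@Lb.t (@Lb.fm (nat_lit 9) t521))))))))))))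
noncomputable def l33851 : Lb := (@Lb.d (nat_lit 66) (nat_lit 5) (nat_lit 422) (@Lb.r r2370 (@Lb.r r1683 (@Lb.r r2389 (@Lb.g g7 (@Lb.g g6 (@Lb.g g5 (@Lb.g g4 (@Lb.d (nat_lit 293) (nat_lit 6) (nat_lit 134) (@Lb.fm (nat_lit 9) t5501))))))))))
noncomputable def l33852 : Lb := (@Lb.d (nat_lit 2) (nat_lit 0) (nat_lit 130) (@Lb.g g8 (@Lb.g g10 (@Lb.g g11 (@Lb.r r586 (@Lb.r r584 (@Lb.r r619 (@Lb.r r609 (@Lb.d (nat_lit 9) (nat_lit 1) (nat_lit 21) (@Lb.t (@Lb.fp (nat_lit 9) t479)))))))))))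
noncomputable def l33853 : Lb := (@Lb.d (nat_lit 1) (nat_lit 256) (nat_lit 128) (@Lb.g g8 (@Lb.g g11 (@Lb.r r548 (@Lb.r r263 (@Lb.r r2145 (@Lb.r r1170 (@Lb.r r516 (@Lb.d (nat_lit 530) (nat_lit 0) (nat_lit 69) (@Lb.fm (nat_lit 3) t285))))))))))
noncomputable def l33854 : Lb := (@Lb.d (nat_lit 128) (nat_lit 512) (nat_lit 128) (@Lb.g g11 (@Lb.r r264 (@Lb.r r279 (@Lb.r r2145 (@Lb.r r1170 (@Lb.d (nat_lit 576) (nat_lit 0) (nat_lit 138) (@Lb.t (@Lb.fm (nat_lit 3) t285)))))))))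
noncomputable def l33855 : Lb := (@Lb.d (nat_lit 2) (nat_lit 514) (nat_lit 4) (@Lb.g g8 (@Lb.g g9 (@Lb.g g10 (@Lb.g g11 (@Lb.r r427 (@Lb.r r420 (@Lb.r r102 (@Lb.r r97 (@Lb.r r36 (@Lb.d (nat_lit 289) (nat_lit 138) (nat_lit 168) (@Lb.fm (nat_lit 9) t3056))))))))))))
noncomputable def l33856 : Lb := (@Lb.r r275 (@Lb.d (nat_lit 2) (nat_lit 516) (nat_lit 0) (@Lb.g g8 (@Lb.g g9 (@Lb.g g10 (@Lb.r r2449 (@Lb.r r1323 (@Lb.r r1444 (@Lb.r r1126 (@Lb.d (nat_lit 265) (nat_lit 128) (nat_lit 137) (@Lb.t (@Lb.fm (nat_lit 9) t594))))))))))))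
noncomputable def l33857 : Lb := (@Lb.d (nat_lit 2) (nat_lit 16) (nat_lit 68) (@Lb.g g8 (@Lb.g g9 (@Lb.g g10 (@Lb.g g11 (@Lb.r r427 (@Lb.r r388 (@Lb.r r70 (@Lb.r r2149 (@Lb.r r132 (@Lb.d (nat_lit 533) (nat_lit 70) (nat_lit 169) (@Lb.fm (nat_lit 9) t4556))))))))))))
noncomputable def l33858 : Lb := (@Lb.r r275 (@Lb.d (nat_lit 130) (nat_lit 516) (nat_lit 0) (@Lb.g g8 (@Lb.g g9 (@Lb.g g10 (@Lb.r r599 (@Lb.r r98 (@Lb.r r2145 (@Lb.r r1432 (@Lb.d (nat_lit 137) (nat_lit 153) (nat_lit 393) (@Lb.t (@Lb.fp (nat_lit 9) t4556))))))))))))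
noncomputable def l33859 : Lb := (@Lb.d (nat_lit 2) (nat_lit 514) (nat_lit 4) (@Lb.g g8 (@Lb.g g9 (@Lb.g g10 (@Lb.g g11 (@Lb.r r427 (@Lb.r r388 (@Lb.r r70 (@Lb.r r153 (@Lb.r r132 (@Lb.d (nat_lit 10) (nat_lit 73) (nat_lit 153) (@Lb.fp (nat_lit 9) t1022))))))))))))
noncomputable def l33860 : Lb := (@Lb.d (nat_lit 2) (nat_lit 514) (nat_lit 130) (@Lb.g g8 (@Lb.g g9 (@Lb.g g10 (@Lb.g g11 (@Lb.r r2411 (@Lb.r r386 (@Lb.r r100 (@Lb.r r21 (@Lb.r r36 (@Lb.d (nat_lit 617) (nat_lit 33) (nat_lit 289) (@Lb.fm (nat_lit 9) t1231))))))))))))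
noncomputable def l33861 : Lb := (@Lb.d (nat_lit 0) (nat_lit 528) (nat_lit 68) (@Lb.g g8 (@Lb.g g9 (@Lb.g g10 (@Lb.g g11 (@Lb.r r427 (@Lb.r r388 (@Lb.r r70 (@Lb.r r2149 (@Lb.r r132 (@Lb.d (nat_lit 533) (nat_lit 70) (nat_lit 169) (@Lb.fm (nat_lit 9) t4556))))))))))))
noncomputable def l33862 : Lb := (@Lb.r r323 (@Lb.d (nat_lit 137) (nat_lit 1) (nat_lit 18) (@Lb.g g8 (@Lb.g g9 (@Lb.g g10 (@Lb.r r1623 (@Lb.r r2345 (@Lb.r r2340 (@Lb.d (nat_lit 584) (nat_lit 105) (nat_lit 534) (@Lb.t (@Lb.fm (nat_lit 9) t386)))))))))))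
noncomputable def l33863 : Lb := (@Lb.d (nat_lit 2) (nat_lit 516) (nat_lit 128) (@Lb.g g8 (@Lb.g g9 (@Lb.g g10 (@Lb.g g11 (@Lb.r r427 (@Lb.r r145 (@Lb.r r356 (@Lb.r r154 (@Lb.r r132 (@Lb.d (nat_lit 10) (nat_lit 9) (nat_lit 153) (@Lb.fm (nat_lit 9) t699))))))))))))
noncomputable def l33864 : Lb := (@Lb.d (nat_lit 2) (nat_lit 260) (nat_lit 128) (@Lb.g g8 (@Lb.g g9 (@Lb.g g10 (@Lb.g g11 (@Lb.r r427 (@Lb.r r420 (@Lb.r r102 (@Lb.r r2149 (@Lb.r r1156 (@Lb.d (nat_lit 546) (nat_lit 66) (nat_lit 137) (@Lb.fm (nat_lit 9) t1470))))))))))))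
noncomputable def l33865 : Lb := (@Lb.d (nat_lit 0) (nat_lit 260) (nat_lit 128) (@Lb.g g8 (@Lb.g g9 (@Lb.g g10 (@Lb.g g11 (@Lb.r r427 (@Lb.r r145 (@Lb.r r356 (@Lb.r r154 (@Lb.r r132 (@Lb.d (nat_lit 10) (nat_lit 9) (nat_lit 153) (@Lb.fm (nat_lit 9) t699))))))))))))
noncomputable def l33866 : Lb := (@Lb.d (nat_lit 2) (nat_lit 274) (nat_lit 2) (@Lb.g g8 (@Lb.g g9 (@Lb.g g10 (@Lb.r r2387 (@Lb.r r678 (@Lb.r r612 (@Lb.r r533 (@Lb.d (nat_lit 130) (nat_lit 42) (nat_lit 386) (@Lb.t (@Lb.fp (nat_lit 9) t1122)))))))))))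
noncomputable def l33867 : Lb := (@Lb.d (nat_lit 0) (nat_lit 514) (nat_lit 73) (@Lb.g g8 (@Lb.g g9 (@Lb.g g10 (@Lb.g g11 (@Lb.r r2691 (@Lb.r r536 (@Lb.r r2197 (@Lb.r r2646 (@Lb.r r164 (@Lb.d (nat_lit 385) (nat_lit 0) (nat_lit 346) (@Lb.fp (nat_lit 9) t3111))))))))))))
noncomputable def l33868 : Lb := (@Lb.d (nat_lit 2) (nat_lit 520) (nat_lit 2) (@Lb.g g8 (@Lb.g g10 (@Lb.r r1559 (@Lb.r r1321 (@Lb.r r1416 (@Lb.r r1434 (@Lb.d (nat_lit 10) (nat_lit 84) (nat_lit 8) (@Lb.fm (nat_lit 3) t1663)))))))))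
noncomputable def l33869 : Lb := (@Lb.d (nat_lit 2) (nat_lit 530) (nat_lit 2) (@Lb.g g8 (@Lb.g g9 (@Lb.g g10 (@Lb.r r2387 (@Lb.r r678 (@Lb.r r612 (@Lb.r r533 (@Lb.d (nat_lit 129) (nat_lit 42) (nat_lit 386) (@Lb.t (@Lb.fp (nat_lit 9) t1122)))))))))))
noncomputable def l33870 : Lb := (@Lb.d (nat_lit 146) (nat_lit 514) (nat_lit 4) (@Lb.g g8 (@Lb.g g9 (@Lb.g g10 (@Lb.g g11 (@Lb.r r2722 (@Lb.r r2088 (@Lb.r r665 (@Lb.r r2579 (@Lb.d (nat_lit 410) (nat_lit 130) (nat_lit 261) (@Lb.fm (nat_lit 9) t5276)))))))))))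
noncomputable def l33871 : Lb := (@Lb.r r21 (@Lb.d (nat_lit 144) (nat_lit 0) (nat_lit 128) (@Lb.g g8 (@Lb.g g10 (@Lb.g g11 (@Lb.r r387 (@Lb.r r2122 (@Lb.r r601 (@Lb.r r580 (@Lb.d (nat_lit 640) (nat_lit 100) (nat_lit 616) (@Lb.t (@Lb.fm (nat_lit 9) t6062))))))))))))
noncomputable def l33872 : Lb := (@Lb.d (nat_lit 32) (nat_lit 256) (nat_lit 130) (@Lb.g g10 (@Lb.g g11 (@Lb.r r423 (@Lb.r r600 (@Lb.r r1429 (@Lb.r r406 (@Lb.d (nat_lit 656) (nat_lit 25) (nat_lit 420) (@Lb.fm (nat_lit 3) t2600)))))))))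
noncomputable def l33873 : Lb := (@Lb.d (nat_lit 0) (nat_lit 358) (nat_lit 358) (@Lb.r r404 (@Lb.r r2374 (@Lb.r r1691 (@Lb.g g7 (@Lb.g g9 (@Lb.g g4 (@Lb.d (nat_lit 10) (nat_lit 10) (nat_lit 64) (@Lb.r r74 (@Lb.t (@Lb.fp (nat_lit 9) t5864)))))))))))
noncomputable def l33874 : Lb := (@Lb.r r21 (@Lb.r r326 (@Lb.d (nat_lit 162) (nat_lit 32) (nat_lit 128) (@Lb.g g8 (@Lb.g g11 (@Lb.r r2198 (@Lb.r r97 (@Lb.d (nat_lit 609) (nat_lit 129) (nat_lit 665) (@Lb.fm (nat_lit 3) t523)))))))))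
noncomputable def l33875 : Lb := (@Lb.r r532 (@Lb.d (nat_lit 0) (nat_lit 101) (nat_lit 64) (@Lb.g g5 (@Lb.g g10 (@Lb.g g11 (@Lb.r r659 (@Lb.r r2198 (@Lb.r r1096 (@Lb.d (nat_lit 642) (nat_lit 1) (nat_lit 133) (@Lb.t (@Lb.fm (nat_lit 9) t6063)))))))))))
noncomputable def l33876 : Lb := (@Lb.r r331 (@Lb.d (nat_lit 129) (nat_lit 521) (nat_lit 1) (@Lb.g g8 (@Lb.g g9 (@Lb.g g10 (@Lb.r r1449 (@Lb.r r1363 (@Lb.r r646 (@Lb.r r72 (@Lb.d (nat_lit 530) (nat_lit 64) (nat_lit 345) (@Lb.t (@Lb.fp (nat_lit 9) t4025))))))))))))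
noncomputable def l33877 : Lb := (@Lb.d (nat_lit 81) (nat_lit 85) (nat_lit 384) (@Lb.r r1361 (@Lb.r r2438 (@Lb.r r2379 (@Lb.r r344 (@Lb.g g7 (@Lb.g g6 (@Lb.g g5 (@Lb.d (nat_lit 4) (nat_lit 5) (nat_lit 130) (@Lb.t (@Lb.fp (nat_lit 9) t5506)))))))))))
noncomputable def l33878 : Lb := (@Lb.r r82 (@Lb.d (nat_lit 2) (nat_lit 2) (nat_lit 128) (@Lb.g g8 (@Lb.g g9 (@Lb.g g11 (@Lb.r r1307 (@Lb.r r578 (@Lb.r r289 (@Lb.r r24 (@Lb.d (nat_lit 266) (nat_lit 42) (nat_lit 4) (@Lb.t (@Lb.fm (nat_lit 9) t3510))))))))))))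
noncomputable def l33879 : Lb := (@Lb.r r82 (@Lb.d (nat_lit 2) (nat_lit 2) (nat_lit 128) (@Lb.g g8 (@Lb.g g9 (@Lb.g g11 (@Lb.r r299 (@Lb.r r296 (@Lb.r r153 (@Lb.r r146 (@Lb.d (nat_lit 617) (nat_lit 4) (nat_lit 682) (@Lb.t (@Lb.fm (nat_lit 9) t1808))))))))))))
noncomputable def l33880 : Lb := (@Lb.d (nat_lit 2) (nat_lit 134) (nat_lit 0) (@Lb.g g8 (@Lb.g g9 (@Lb.g g10 (@Lb.r r2475 (@Lb.r r386 (@Lb.r r2120 (@Lb.d (nat_lit 553) (nat_lit 25) (nat_lit 648) (@Lb.t (@Lb.fm (nat_lit 9) t4739))))))))))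
noncomputable def l33881 : Lb := (@Lb.r r82 (@Lb.d (nat_lit 34) (nat_lit 2) (nat_lit 128) (@Lb.g g8 (@Lb.g g9 (@Lb.g g11 (@Lb.r r1430 (@Lb.r r579 (@Lb.r r2449 (@Lb.r r84 (@Lb.d (nat_lit 584) (nat_lit 82) (nat_lit 8) (@Lb.t (@Lb.fm (nat_lit 9) t4412))))))))))))
noncomputable def l33882 : Lb := (@Lb.r r82 (@Lb.d (nat_lit 0) (nat_lit 2) (nat_lit 128) (@Lb.g g8 (@Lb.g g9 (@Lb.g g11 (@Lb.r r299 (@Lb.r r1352 (@Lb.r r2470 (@Lb.r r2449 (@Lb.d (nat_lit 613) (nat_lit 10) (nat_lit 153) (@Lb.t (@Lb.fm (nat_lit 9) t6064))))))))))))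
noncomputable def l33883 : Lb := (@Lb.d (nat_lit 1) (nat_lit 548) (nat_lit 129) (@Lb.r r402 (@Lb.g g11 (@Lb.g g6 (@Lb.g g9 (@Lb.g g4 (@Lb.d (nat_lit 2) (nat_lit 0) (nat_lit 0) (@Lb.fm (nat_lit 9) t97))))))))
noncomputable def l33884 : Lb := (@Lb.r r82 (@Lb.d (nat_lit 2) (nat_lit 2) (nat_lit 0) (@Lb.g g8 (@Lb.g g9 (@Lb.r r555 (@Lb.r r1642 (@Lb.r r1561 (@Lb.d (nat_lit 97) (nat_lit 164) (nat_lit 288) (@Lb.fp (nat_lit 3) t5374)))))))))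
noncomputable def l33885 : Lb := (@Lb.r r82 (@Lb.d (nat_lit 132) (nat_lit 512) (nat_lit 128) (@Lb.g g8 (@Lb.g g9 (@Lb.g g11 (@Lb.r r291 (@Lb.r r2438 (@Lb.r r2449 (@Lb.r r1636 (@Lb.d (nat_lit 644) (nat_lit 100) (nat_lit 425) (@Lb.t (@Lb.fp (nat_lit 9) t6065))))))))))))
noncomputable def l33886 : Lb := (@Lb.d (nat_lit 641) (nat_lit 289) (nat_lit 0) (@Lb.g g4 (@Lb.g g9 (@Lb.r r2579 (@Lb.r r2178 (@Lb.r r409 (@Lb.d (nat_lit 152) (nat_lit 85) (nat_lit 402) (@Lb.fp (nat_lit 3) t1624))))))))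
noncomputable def l33887 : Lb := (@Lb.d (nat_lit 5) (nat_lit 261) (nat_lit 168) (@Lb.r r1185 (@Lb.r r594 (@Lb.r r2663 (@Lb.r r2308 (@Lb.g g7 (@Lb.g g5 (@Lb.d (nat_lit 4) (nat_lit 1) (nat_lit 64) (@Lb.fm (nat_lit 3) t1637)))))))))
noncomputable def l33888 : Lb := (@Lb.d (nat_lit 0) (nat_lit 545) (nat_lit 66) (@Lb.g g9 (@Lb.g g10 (@Lb.g g11 (@Lb.r r1699 (@Lb.r r2392 (@Lb.r r1190 (@Lb.r r1169 (@Lb.d (nat_lit 664) (nat_lit 73) (nat_lit 340) (@Lb.t (@Lb.fp (nat_lit 9) t3370)))))))))))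
noncomputable def l33889 : Lb := (@Lb.d (nat_lit 0) (nat_lit 264) (nat_lit 130) (@Lb.g g10 (@Lb.g g11 (@Lb.r r2699 (@Lb.r r1381 (@Lb.r r2714 (@Lb.r r2584 (@Lb.d (nat_lit 354) (nat_lit 106) (nat_lit 416) (@Lb.fm (nat_lit 3) t6066)))))))))
noncomputable def l33890 : Lb := (@Lb.d (nat_lit 1) (nat_lit 512) (nat_lit 130) (@Lb.g g8 (@Lb.g g10 (@Lb.g g11 (@Lb.r r2721 (@Lb.r r419 (@Lb.r r98 (@Lb.d (nat_lit 320) (nat_lit 8) (nat_lit 585) (@Lb.t (@Lb.fp (nat_lit 9) t3267))))))))))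
noncomputable def l33891 : Lb := (@Lb.d (nat_lit 0) (nat_lit 512) (nat_lit 136) (@Lb.g g4 (@Lb.g g11 (@Lb.r r402 (@Lb.r r1379 (@Lb.d (nat_lit 292) (nat_lit 42) (nat_lit 422) (@Lb.fm (nat_lit 3) t3532)))))))
noncomputable def l33892 : Lb := (@Lb.d (nat_lit 0) (nat_lit 32) (nat_lit 136) (@Lb.g g4 (@Lb.g g9 (@Lb.g g11 (@Lb.r r386 (@Lb.r r1347 (@Lb.r r1189 (@Lb.d (nat_lit 538) (nat_lit 138) (nat_lit 405) (@Lb.t (@Lb.fp (nat_lit 9) t6067))))))))))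
noncomputable def l33893 : Lb := (@Lb.d (nat_lit 0) (nat_lit 545) (nat_lit 136) (@Lb.g g4 (@Lb.g g9 (@Lb.g g11 (@Lb.r r386 (@Lb.r r1347 (@Lb.r r1061 (@Lb.d (nat_lit 554) (nat_lit 134) (nat_lit 420) (@Lb.t (@Lb.fp (nat_lit 9) t6067))))))))))
noncomputable def l33894 : Lb := (@Lb.r r322 (@Lb.d (nat_lit 129) (nat_lit 33) (nat_lit 260) (@Lb.g g8 (@Lb.g g9 (@Lb.g g7 (@Lb.r r418 (@Lb.r r1169 (@Lb.r r2072 (@Lb.d (nat_lit 266) (nat_lit 8) (nat_lit 82) (@Lb.t (@Lb.fp (nat_lit 9) t1205)))))))))))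
noncomputable def l33895 : Lb := (@Lb.d (nat_lit 0) (nat_lit 512) (nat_lit 136) (@Lb.g g4 (@Lb.g g11 (@Lb.r r402 (@Lb.r r1379 (@Lb.r r101 (@Lb.d (nat_lit 406) (nat_lit 25) (nat_lit 416) (@Lb.fp (nat_lit 3) t2158))))))))
noncomputable def l33896 : Lb := (@Lb.d (nat_lit 8) (nat_lit 545) (nat_lit 66) (@Lb.g g8 (@Lb.g g9 (@Lb.g g10 (@Lb.g g11 (@Lb.r r419 (@Lb.r r1060 (@Lb.r r1445 (@Lb.r r98 (@Lb.d (nat_lit 100) (nat_lit 136) (nat_lit 356) (@Lb.fm (nat_lit 9) t390)))))))))))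
noncomputable def l33897 : Lb := (@Lb.d (nat_lit 0) (nat_lit 330) (nat_lit 69) (@Lb.r r354 (@Lb.r r1427 (@Lb.g g6 (@Lb.g g9 (@Lb.g g4 (@Lb.d (nat_lit 0) (nat_lit 0) (nat_lit 5) (@Lb.t (@Lb.fm (nat_lit 9) t1928)))))))))
noncomputable def l33898 : Lb := (@Lb.d (nat_lit 128) (nat_lit 0) (nat_lit 136) (@Lb.g g11 (@Lb.r r613 (@Lb.r r410 (@Lb.r r2472 (@Lb.r r1623 (@Lb.d (nat_lit 405) (nat_lit 100) (nat_lit 585) (@Lb.t (@Lb.fp (nat_lit 3) t253)))))))))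
noncomputable def l33899 : Lb := (@Lb.r r82 (@Lb.r r275 (@Lb.d (nat_lit 32) (nat_lit 642) (nat_lit 0) (@Lb.g g8 (@Lb.g g9 (@Lb.r r1619 (@Lb.r r150 (@Lb.r r84 (@Lb.d (nat_lit 528) (nat_lit 132) (nat_lit 2) (@Lb.fm (nat_lit 3) t6068))))))))))
noncomputable def l33900 : Lb := (@Lb.d (nat_lit 0) (nat_lit 514) (nat_lit 130) (@Lb.g g8 (@Lb.g g9 (@Lb.g g10 (@Lb.g g11 (@Lb.r r427 (@Lb.r r424 (@Lb.r r106 (@Lb.r r25 (@Lb.d (nat_lit 354) (nat_lit 0) (nat_lit 649) (@Lb.fm (nat_lit 9) t1306)))))))))))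
noncomputable def l33901 : Lb := (@Lb.d (nat_lit 80) (nat_lit 261) (nat_lit 530) (@Lb.r r2068 (@Lb.r r89 (@Lb.r r20 (@Lb.r r2466 (@Lb.g g11 (@Lb.g g6 (@Lb.g g5 (@Lb.g g4 (@Lb.d (nat_lit 1) (nat_lit 1) (nat_lit 6) (@Lb.fp (nat_lit 9) t232)))))))))))
noncomputable def l33902 : Lb := (@Lb.r r273 (@Lb.r r2595 (@Lb.r r2178 (@Lb.r r529 (@Lb.r r1156 (@Lb.d (nat_lit 529) (nat_lit 522) (nat_lit 0) (@Lb.fp (nat_lit 1) t2551)))))))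
noncomputable def l33903 : Lb := (@Lb.d (nat_lit 642) (nat_lit 0) (nat_lit 0) (@Lb.g g4 (@Lb.r r273 (@Lb.r r2595 (@Lb.r r2178 (@Lb.r r529 (@Lb.d (nat_lit 288) (nat_lit 128) (nat_lit 34) (@Lb.t (@Lb.fm (nat_lit 3) t5796)))))))))
noncomputable def l33904 : Lb := (@Lb.d (nat_lit 0) (nat_lit 258) (nat_lit 130) (@Lb.g g8 (@Lb.g g9 (@Lb.g g10 (@Lb.g g11 (@Lb.r r427 (@Lb.r r424 (@Lb.r r106 (@Lb.r r25 (@Lb.d (nat_lit 361) (nat_lit 9) (nat_lit 648) (@Lb.fm (nat_lit 9) t1306)))))))))))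
noncomputable def l33905 : Lb := (@Lb.d (nat_lit 40) (nat_lit 2) (nat_lit 130) (@Lb.g g9 (@Lb.g g10 (@Lb.g g11 (@Lb.r r2695 (@Lb.r r1352 (@Lb.r r2390 (@Lb.r r421 (@Lb.d (nat_lit 677) (nat_lit 70) (nat_lit 362) (@Lb.t (@Lb.fp (nat_lit 9) t991)))))))))))
noncomputable def l33906 : Lb := (@Lb.r r82 (@Lb.d (nat_lit 132) (nat_lit 273) (nat_lit 128) (@Lb.g g8 (@Lb.g g9 (@Lb.g g11 (@Lb.r r299 (@Lb.r r2630 (@Lb.r r2453 (@Lb.r r1432 (@Lb.d (nat_lit 37) (nat_lit 85) (nat_lit 601) (@Lb.t (@Lb.fp (nat_lit 9) t2564))))))))))))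
noncomputable def l33907 : Lb := (@Lb.r r82 (@Lb.d (nat_lit 4) (nat_lit 1) (nat_lit 0) (@Lb.g g8 (@Lb.g g9 (@Lb.r r2118 (@Lb.r r1044 (@Lb.r r41 (@Lb.d (nat_lit 518) (nat_lit 130) (nat_lit 0) (@Lb.fp (nat_lit 3) t6069)))))))))
noncomputable def l33908 : Lb := (@Lb.d (nat_lit 2) (nat_lit 33) (nat_lit 130) (@Lb.g g8 (@Lb.g g9 (@Lb.g g10 (@Lb.g g11 (@Lb.r r387 (@Lb.r r1188 (@Lb.r r2438 (@Lb.r r2577 (@Lb.d (nat_lit 336) (nat_lit 164) (nat_lit 90) (@Lb.fm (nat_lit 9) t5804)))))))))))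
noncomputable def l33909 : Lb := (@Lb.d (nat_lit 410) (nat_lit 1) (nat_lit 128) (@Lb.g g8 (@Lb.g g9 (@Lb.g g10 (@Lb.g g11 (@Lb.r r427 (@Lb.r r153 (@Lb.r r2642 (@Lb.d (nat_lit 657) (nat_lit 149) (nat_lit 21) (@Lb.fp (nat_lit 9) t6070))))))))))
noncomputable def l33910 : Lb := (@Lb.d (nat_lit 2) (nat_lit 545) (nat_lit 130) (@Lb.g g8 (@Lb.g g9 (@Lb.g g10 (@Lb.g g11 (@Lb.r r1706 (@Lb.r r680 (@Lb.r r555 (@Lb.r r2577 (@Lb.r r2084 (@Lb.d (nat_lit 265) (nat_lit 168) (nat_lit 329) (@Lb.fm (nat_lit 9) t789))))))))))))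
noncomputable def l33911 : Lb := (@Lb.d (nat_lit 298) (nat_lit 337) (nat_lit 418) (@Lb.r r407 (@Lb.r r676 (@Lb.r r598 (@Lb.g g7 (@Lb.g g9 (@Lb.d (nat_lit 68) (nat_lit 130) (nat_lit 68) (@Lb.r r98 (@Lb.fp (nat_lit 3) t3306)))))))))
noncomputable def l33912 : Lb := (@Lb.d (nat_lit 298) (nat_lit 101) (nat_lit 72) (@Lb.r r1114 (@Lb.r r1096 (@Lb.r r297 (@Lb.r r1363 (@Lb.g g7 (@Lb.g g6 (@Lb.g g5 (@Lb.d (nat_lit 0) (nat_lit 6) (nat_lit 65) (@Lb.t (@Lb.fp (nat_lit 9) t1556)))))))))))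
noncomputable def l33913 : Lb := (@Lb.d (nat_lit 298) (nat_lit 106) (nat_lit 73) (@Lb.r r1114 (@Lb.r r1096 (@Lb.r r297 (@Lb.r r1363 (@Lb.g g7 (@Lb.g g6 (@Lb.g g5 (@Lb.d (nat_lit 0) (nat_lit 1) (nat_lit 64) (@Lb.t (@Lb.fp (nat_lit 9) t957)))))))))))
noncomputable def l33914 : Lb := (@Lb.d (nat_lit 38) (nat_lit 169) (nat_lit 602) (@Lb.r r101 (@Lb.r r323 (@Lb.g g7 (@Lb.g g6 (@Lb.g g4 (@Lb.d (nat_lit 6) (nat_lit 4) (nat_lit 65) (@Lb.t (@Lb.fm (nat_lit 9) t1000)))))))))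
noncomputable def l33915 : Lb := (@Lb.d (nat_lit 546) (nat_lit 512) (nat_lit 0) (@Lb.g g8 (@Lb.r r609 (@Lb.r r2659 (@Lb.r r338 (@Lb.r r2705 (@Lb.d (nat_lit 4) (nat_lit 129) (nat_lit 0) (@Lb.t (@Lb.fp (nat_lit 3) t1222)))))))))
noncomputable def l33916 : Lb := (@Lb.r r323 (@Lb.d (nat_lit 8) (nat_lit 514) (nat_lit 32) (@Lb.g g9 (@Lb.g g10 (@Lb.r r584 (@Lb.r r299 (@Lb.r r289 (@Lb.d (nat_lit 10) (nat_lit 66) (nat_lit 153) (@Lb.fm (nat_lit 3) t219)))))))))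
noncomputable def l33917 : Lb := (@Lb.r r82 (@Lb.d (nat_lit 0) (nat_lit 512) (nat_lit 128) (@Lb.g g9 (@Lb.g g11 (@Lb.r r1575 (@Lb.r r386 (@Lb.r r2328 (@Lb.r r1637 (@Lb.d (nat_lit 256) (nat_lit 64) (nat_lit 85) (@Lb.fm (nat_lit 3) t6071))))))))))
noncomputable def l33918 : Lb := (@Lb.r r101 (@Lb.d (nat_lit 36) (nat_lit 513) (nat_lit 2) (@Lb.fm (nat_lit 1) t97)))
noncomputable def l33919 : Lb := (@Lb.d (nat_lit 290) (nat_lit 133) (nat_lit 262) (@Lb.r r101 (@Lb.r r386 (@Lb.r r339 (@Lb.g g7 (@Lb.g g6 (@Lb.d (nat_lit 0) (nat_lit 0) (nat_lit 65) (@Lb.fm (nat_lit 3) t1399))))))))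
noncomputable def l33920 : Lb := (@Lb.d (nat_lit 0) (nat_lit 266) (nat_lit 0) (@Lb.g g9 (@Lb.r r2403 (@Lb.r r2650 (@Lb.r r1624 (@Lb.r r2341 (@Lb.d (nat_lit 586) (nat_lit 33) (nat_lit 128) (@Lb.t (@Lb.fp (nat_lit 3) t51)))))))))
noncomputable def l33921 : Lb := (@Lb.d (nat_lit 2) (nat_lit 609) (nat_lit 8) (@Lb.g g8 (@Lb.g g5 (@Lb.g g10 (@Lb.r r2371 (@Lb.r r2690 (@Lb.r r24 (@Lb.d (nat_lit 5) (nat_lit 9) (nat_lit 532) (@Lb.t (@Lb.fp (nat_lit 9) t40))))))))))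
noncomputable def l33922 : Lb := (@Lb.d (nat_lit 582) (nat_lit 421) (nat_lit 356) (@Lb.r r2645 (@Lb.r r1316 (@Lb.r r603 (@Lb.g g6 (@Lb.g g5 (@Lb.d (nat_lit 4) (nat_lit 17) (nat_lit 33) (@Lb.r r387 (@Lb.fp (nat_lit 3) t1916)))))))))
noncomputable def l33923 : Lb := (@Lb.d (nat_lit 134) (nat_lit 257) (nat_lit 10) (@Lb.r r68 (@Lb.r r666 (@Lb.r r404 (@Lb.r r337 (@Lb.g g7 (@Lb.g g6 (@Lb.g g5 (@Lb.g g4 (@Lb.d (nat_lit 1) (nat_lit 8) (nat_lit 130) (@Lb.fm (nat_lit 9) t98)))))))))))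
noncomputable def l33924 : Lb := (@Lb.d (nat_lit 600) (nat_lit 68) (nat_lit 554) (@Lb.r r2325 (@Lb.r r2438 (@Lb.r r1096 (@Lb.r r1699 (@Lb.g g7 (@Lb.g g6 (@Lb.g g5 (@Lb.d (nat_lit 0) (nat_lit 25) (nat_lit 128) (@Lb.t (@Lb.fm (nat_lit 9) t171)))))))))))
noncomputable def l33925 : Lb := (@Lb.r r21 (@Lb.d (nat_lit 646) (nat_lit 256) (nat_lit 2) (@Lb.g g8 (@Lb.g g10 (@Lb.r r106 (@Lb.r r25 (@Lb.d (nat_lit 320) (nat_lit 73) (nat_lit 0) (@Lb.fm (nat_lit 3) t6072))))))))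
noncomputable def l33926 : Lb := (@Lb.d (nat_lit 406) (nat_lit 321) (nat_lit 165) (@Lb.r r24 (@Lb.r r1410 (@Lb.g g7 (@Lb.g g5 (@Lb.d (nat_lit 4) (nat_lit 154) (nat_lit 68) (@Lb.r r610 (@Lb.fm (nat_lit 3) t311))))))))
noncomputable def l33927 : Lb := (@Lb.r r323 (@Lb.d (nat_lit 133) (nat_lit 514) (nat_lit 18) (@Lb.g g8 (@Lb.g g9 (@Lb.g g10 (@Lb.r r599 (@Lb.r r1433 (@Lb.r r388 (@Lb.d (nat_lit 617) (nat_lit 18) (nat_lit 34) (@Lb.t (@Lb.fp (nat_lit 9) t2231)))))))))))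
noncomputable def l33928 : Lb := (@Lb.r r323 (@Lb.d (nat_lit 32) (nat_lit 258) (nat_lit 26) (@Lb.g g9 (@Lb.g g10 (@Lb.r r603 (@Lb.r r1313 (@Lb.r r1128 (@Lb.d (nat_lit 576) (nat_lit 133) (nat_lit 0) (@Lb.fp (nat_lit 3) t1179)))))))))
noncomputable def l33929 : Lb := (@Lb.r r323 (@Lb.d (nat_lit 36) (nat_lit 258) (nat_lit 26) (@Lb.g g8 (@Lb.g g9 (@Lb.g g10 (@Lb.r r595 (@Lb.r r1177 (@Lb.r r1560 (@Lb.d (nat_lit 674) (nat_lit 41) (nat_lit 641) (@Lb.t (@Lb.fm (nat_lit 9) t6073)))))))))))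
noncomputable def l33930 : Lb := (@Lb.d (nat_lit 409) (nat_lit 164) (nat_lit 578) (@Lb.r r168 (@Lb.r r289 (@Lb.r r426 (@Lb.g g11 (@Lb.g g8 (@Lb.d (nat_lit 17) (nat_lit 32) (nat_lit 512) (@Lb.r r578 (@Lb.fp (nat_lit 3) t6074)))))))))
noncomputable def l33931 : Lb := (@Lb.r r21 (@Lb.r r70 (@Lb.d (nat_lit 129) (nat_lit 256) (nat_lit 136) (@Lb.g g8 (@Lb.g g11 (@Lb.r r402 (@Lb.r r2149 (@Lb.r r24 (@Lb.d (nat_lit 5) (nat_lit 130) (nat_lit 128) (@Lb.fp (nat_lit 3) t894))))))))))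
noncomputable def l33932 : Lb := (@Lb.r r275 (@Lb.d (nat_lit 130) (nat_lit 514) (nat_lit 2) (@Lb.g g8 (@Lb.g g9 (@Lb.g g10 (@Lb.r r1450 (@Lb.r r583 (@Lb.r r1301 (@Lb.r r264 (@Lb.d (nat_lit 97) (nat_lit 96) (nat_lit 354) (@Lb.t (@Lb.fp (nat_lit 9) t6075))))))))))))
noncomputable def l33933 : Lb := (@Lb.d (nat_lit 2) (nat_lit 516) (nat_lit 10) (@Lb.g g8 (@Lb.g g9 (@Lb.g g10 (@Lb.g g7 (@Lb.r r1366 (@Lb.r r1109 (@Lb.r r24 (@Lb.d (nat_lit 353) (nat_lit 137) (nat_lit 537) (@Lb.fp (nat_lit 9) t318))))))))))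
noncomputable def l33934 : Lb := (@Lb.d (nat_lit 132) (nat_lit 0) (nat_lit 2) (@Lb.g g8 (@Lb.g g9 (@Lb.g g10 (@Lb.r r2691 (@Lb.r r1194 (@Lb.r r2337 (@Lb.r r152 (@Lb.d (nat_lit 664) (nat_lit 105) (nat_lit 66) (@Lb.t (@Lb.fm (nat_lit 9) t242)))))))))))
noncomputable def l33935 : Lb := (@Lb.r r21 (@Lb.d (nat_lit 17) (nat_lit 0) (nat_lit 74) (@Lb.g g8 (@Lb.g g10 (@Lb.g g11 (@Lb.r r2707 (@Lb.r r1450 (@Lb.r r297 (@Lb.r r276 (@Lb.d (nat_lit 658) (nat_lit 105) (nat_lit 168) (@Lb.t (@Lb.fp (nat_lit 9) t378))))))))))))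
noncomputable def l33936 : Lb := (@Lb.d (nat_lit 132) (nat_lit 0) (nat_lit 66) (@Lb.g g8 (@Lb.g g9 (@Lb.g g10 (@Lb.g g11 (@Lb.r r2666 (@Lb.r r612 (@Lb.r r1319 (@Lb.r r405 (@Lb.r r2084 (@Lb.d (nat_lit 617) (nat_lit 130) (nat_lit 170) (@Lb.fp (nat_lit 9) t2805))))))))))))
noncomputable def l33937 : Lb := (@Lb.d (nat_lit 133) (nat_lit 1) (nat_lit 257) (@Lb.g g7 (@Lb.d (nat_lit 64) (nat_lit 0) (nat_lit 644) (@Lb.t (@Lb.fm (nat_lit 3) t973)))))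
noncomputable def l33938 : Lb := (@Lb.d (nat_lit 0) (nat_lit 256) (nat_lit 2) (@Lb.g g9 (@Lb.g g10 (@Lb.r r2727 (@Lb.r r1638 (@Lb.r r1557 (@Lb.r r8 (@Lb.d (nat_lit 585) (nat_lit 105) (nat_lit 417) (@Lb.fm (nat_lit 3) t324)))))))))
noncomputable def l33939 : Lb := (@Lb.r r21 (@Lb.d (nat_lit 146) (nat_lit 512) (nat_lit 74) (@Lb.g g8 (@Lb.g g10 (@Lb.g g11 (@Lb.r r651 (@Lb.r r2713 (@Lb.r r1170 (@Lb.r r1636 (@Lb.d (nat_lit 134) (nat_lit 25) (nat_lit 649) (@Lb.t (@Lb.fm (nat_lit 9) t6076))))))))))))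
noncomputable def l33940 : Lb := (@Lb.r r21 (@Lb.d (nat_lit 0) (nat_lit 512) (nat_lit 130) (@Lb.g g8 (@Lb.g g10 (@Lb.g g11 (@Lb.r r642 (@Lb.r r2711 (@Lb.r r2152 (@Lb.r r25 (@Lb.d (nat_lit 149) (nat_lit 1) (nat_lit 393) (@Lb.t (@Lb.fp (nat_lit 9) t314))))))))))))
noncomputable def l33941 : Lb := (@Lb.d (nat_lit 146) (nat_lit 512) (nat_lit 10) (@Lb.g g8 (@Lb.g g9 (@Lb.g g10 (@Lb.g g11 (@Lb.r r2475 (@Lb.r r145 (@Lb.r r356 (@Lb.r r1178 (@Lb.r r132 (@Lb.d (nat_lit 265) (nat_lit 4) (nat_lit 408) (@Lb.fm (nat_lit 9) t1446))))))))))))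
noncomputable def l33942 : Lb := (@Lb.r r21 (@Lb.d (nat_lit 0) (nat_lit 256) (nat_lit 66) (@Lb.g g8 (@Lb.g g10 (@Lb.g g7 (@Lb.r r386 (@Lb.r r2152 (@Lb.r r25 (@Lb.d (nat_lit 613) (nat_lit 1) (nat_lit 617) (@Lb.t (@Lb.fp (nat_lit 9) t1150)))))))))))
noncomputable def l33943 : Lb := (@Lb.d (nat_lit 406) (nat_lit 257) (nat_lit 289) (@Lb.g g7 (@Lb.d (nat_lit 0) (nat_lit 0) (nat_lit 132) (@Lb.t (@Lb.fm (nat_lit 3) t1165)))))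
noncomputable def l33944 : Lb := (@Lb.g g8 (@Lb.r r2150 (@Lb.r r101 (@Lb.r r2196 (@Lb.d (nat_lit 36) (nat_lit 554) (nat_lit 294) (@Lb.t (@Lb.fm (nat_lit 3) t843)))))))
noncomputable def l33945 : Lb := (@Lb.r r21 (@Lb.r r322 (@Lb.d (nat_lit 10) (nat_lit 256) (nat_lit 576) (@Lb.g g8 (@Lb.g g7 (@Lb.r r2641 (@Lb.r r2150 (@Lb.r r2456 (@Lb.d (nat_lit 146) (nat_lit 152) (nat_lit 26) (@Lb.fm (nat_lit 3) t3111))))))))))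
noncomputable def l33946 : Lb := (@Lb.r r21 (@Lb.d (nat_lit 0) (nat_lit 0) (nat_lit 73) (@Lb.g g8 (@Lb.g g10 (@Lb.g g11 (@Lb.r r2667 (@Lb.r r1634 (@Lb.r r97 (@Lb.r r392 (@Lb.d (nat_lit 512) (nat_lit 149) (nat_lit 321) (@Lb.t (@Lb.fp (nat_lit 9) t1371))))))))))))
noncomputable def l33947 : Lb := (@Lb.r r1604 (@Lb.d (nat_lit 16) (nat_lit 152) (nat_lit 160) (@Lb.g g5 (@Lb.g g10 (@Lb.g g11 (@Lb.r r1419 (@Lb.d (nat_lit 146) (nat_lit 0) (nat_lit 297) (@Lb.t (@Lb.fp (nat_lit 9) t2015)))))))))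
noncomputable def l33948 : Lb := (@Lb.d (nat_lit 146) (nat_lit 266) (nat_lit 130) (@Lb.g g8 (@Lb.g g9 (@Lb.g g10 (@Lb.g g11 (@Lb.r r1666 (@Lb.r r2455 (@Lb.r r1633 (@Lb.r r1048 (@Lb.d (nat_lit 552) (nat_lit 25) (nat_lit 281) (@Lb.fm (nat_lit 9) t5766)))))))))))
noncomputable def l33949 : Lb := (@Lb.d (nat_lit 9) (nat_lit 33) (nat_lit 73) (@Lb.g g8 (@Lb.g g9 (@Lb.g g10 (@Lb.g g11 (@Lb.r r2731 (@Lb.r r2709 (@Lb.r r1178 (@Lb.r r24 (@Lb.d (nat_lit 134) (nat_lit 153) (nat_lit 393) (@Lb.fm (nat_lit 9) t5890)))))))))))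
noncomputable def l33950 : Lb := (@Lb.d (nat_lit 136) (nat_lit 289) (nat_lit 0) (@Lb.g g8 (@Lb.g g9 (@Lb.r r1418 (@Lb.r r583 (@Lb.r r408 (@Lb.r r2085 (@Lb.d (nat_lit 328) (nat_lit 84) (nat_lit 277) (@Lb.fm (nat_lit 3) t643)))))))))
noncomputable def l33951 : Lb := (@Lb.g g5 (@Lb.r r2118 (@Lb.r r24 (@Lb.r r149 (@Lb.d (nat_lit 0) (nat_lit 544) (nat_lit 292) (@Lb.t (@Lb.fp (nat_lit 3) t843)))))))
noncomputable def l33952 : Lb := (@Lb.r r82 (@Lb.d (nat_lit 41) (nat_lit 32) (nat_lit 64) (@Lb.g g8 (@Lb.g g9 (@Lb.g g11 (@Lb.r r1571 (@Lb.r r582 (@Lb.r r1445 (@Lb.r r408 (@Lb.d (nat_lit 342) (nat_lit 144) (nat_lit 356) (@Lb.t (@Lb.fp (nat_lit 9) t3666))))))))))))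
noncomputable def l33953 : Lb := (@Lb.d (nat_lit 1) (nat_lit 520) (nat_lit 73) (@Lb.g g8 (@Lb.g g10 (@Lb.g g11 (@Lb.r r2707 (@Lb.r r2345 (@Lb.r r1160 (@Lb.r r1178 (@Lb.d (nat_lit 86) (nat_lit 132) (nat_lit 392) (@Lb.t (@Lb.fm (nat_lit 9) t668)))))))))))
noncomputable def l33954 : Lb := (@Lb.d (nat_lit 2) (nat_lit 265) (nat_lit 72) (@Lb.g g8 (@Lb.g g9 (@Lb.g g10 (@Lb.g g11 (@Lb.r r2691 (@Lb.r r1434 (@Lb.r r297 (@Lb.r r1128 (@Lb.d (nat_lit 681) (nat_lit 168) (nat_lit 89) (@Lb.fp (nat_lit 9) t6077)))))))))))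
noncomputable def l33955 : Lb := (@Lb.d (nat_lit 9) (nat_lit 520) (nat_lit 72) (@Lb.g g8 (@Lb.g g9 (@Lb.g g10 (@Lb.g g11 (@Lb.r r2691 (@Lb.r r297 (@Lb.r r648 (@Lb.r r666 (@Lb.r r1156 (@Lb.d (nat_lit 641) (nat_lit 42) (nat_lit 73) (@Lb.fp (nat_lit 9) t1234))))))))))))
noncomputable def l33956 : Lb := (@Lb.d (nat_lit 292) (nat_lit 1) (nat_lit 34) (@Lb.r r20 (@Lb.r r2137 (@Lb.r r323 (@Lb.g g10 (@Lb.g g4 (@Lb.d (nat_lit 1) (nat_lit 4) (nat_lit 2) (@Lb.r r387 (@Lb.r r145 (@Lb.fp (nat_lit 3) t5))))))))))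
noncomputable def l33957 : Lb := (@Lb.r r82 (@Lb.d (nat_lit 9) (nat_lit 553) (nat_lit 128) (@Lb.g g8 (@Lb.g g9 (@Lb.g g11 (@Lb.r r355 (@Lb.r r1174 (@Lb.r r2133 (@Lb.d (nat_lit 358) (nat_lit 136) (nat_lit 338) (@Lb.t (@Lb.fp (nat_lit 9) t2558)))))))))))
noncomputable def l33958 : Lb := (@Lb.d (nat_lit 0) (nat_lit 512) (nat_lit 128) (@Lb.g g11 (@Lb.r r2660 (@Lb.r r346 (@Lb.r r1447 (@Lb.r r1317 (@Lb.d (nat_lit 10) (nat_lit 98) (nat_lit 358) (@Lb.t (@Lb.fm (nat_lit 3) t6078)))))))))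
noncomputable def l33959 : Lb := (@Lb.d (nat_lit 601) (nat_lit 164) (nat_lit 658) (@Lb.r r2068 (@Lb.r r89 (@Lb.r r20 (@Lb.r r1442 (@Lb.g g11 (@Lb.g g6 (@Lb.g g5 (@Lb.g g4 (@Lb.d (nat_lit 1) (nat_lit 22) (nat_lit 394) (@Lb.fp (nat_lit 9) t5815)))))))))))
noncomputable def l33960 : Lb := (@Lb.d (nat_lit 8) (nat_lit 258) (nat_lit 0) (@Lb.g g9 (@Lb.r r24 (@Lb.r r2661 (@Lb.r r2403 (@Lb.r r2178 (@Lb.d (nat_lit 402) (nat_lit 0) (nat_lit 321) (@Lb.t (@Lb.fm (nat_lit 3) t6079)))))))))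
noncomputable def l33961 : Lb := (@Lb.d (nat_lit 9) (nat_lit 293) (nat_lit 74) (@Lb.g g8 (@Lb.g g9 (@Lb.g g10 (@Lb.g g11 (@Lb.r r1610 (@Lb.r r2324 (@Lb.r r2585 (@Lb.r r603 (@Lb.d (nat_lit 528) (nat_lit 168) (nat_lit 656) (@Lb.fm (nat_lit 9) t1666)))))))))))
noncomputable def l33962 : Lb := (@Lb.r r82 (@Lb.d (nat_lit 9) (nat_lit 0) (nat_lit 128) (@Lb.g g8 (@Lb.g g9 (@Lb.g g11 (@Lb.r r1443 (@Lb.r r2710 (@Lb.r r1365 (@Lb.d (nat_lit 2) (nat_lit 37) (nat_lit 21) (@Lb.t (@Lb.fp (nat_lit 9) t1795)))))))))))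
noncomputable def l33963 : Lb := (@Lb.d (nat_lit 601) (nat_lit 676) (nat_lit 658) (@Lb.r r2068 (@Lb.r r89 (@Lb.r r20 (@Lb.r r1442 (@Lb.g g11 (@Lb.g g6 (@Lb.g g5 (@Lb.g g4 (@Lb.d (nat_lit 1) (nat_lit 24) (nat_lit 392) (@Lb.fp (nat_lit 9) t5815)))))))))))
noncomputable def l33964 : Lb := (@Lb.d (nat_lit 1) (nat_lit 9) (nat_lit 73) (@Lb.g g8 (@Lb.g g9 (@Lb.g g10 (@Lb.g g11 (@Lb.r r1177 (@Lb.r r2328 (@Lb.r r1319 (@Lb.r r2394 (@Lb.d (nat_lit 514) (nat_lit 68) (nat_lit 344) (@Lb.fm (nat_lit 9) t1885)))))))))))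
noncomputable def l33965 : Lb := (@Lb.d (nat_lit 9) (nat_lit 545) (nat_lit 66) (@Lb.g g8 (@Lb.g g9 (@Lb.g g10 (@Lb.g g11 (@Lb.r r419 (@Lb.r r2154 (@Lb.r r2073 (@Lb.d (nat_lit 104) (nat_lit 137) (nat_lit 425) (@Lb.fp (nat_lit 9) t1884))))))))))
noncomputable def l33966 : Lb := (@Lb.d (nat_lit 512) (nat_lit 513) (nat_lit 592) (@Lb.r r1158 (@Lb.r r328 (@Lb.r r2327 (@Lb.g g6 (@Lb.g g5 (@Lb.g g4 (@Lb.d (nat_lit 18) (nat_lit 41) (nat_lit 0) (@Lb.r r387 (@Lb.t (@Lb.fp (nat_lit 9) t409)))))))))))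
noncomputable def l33967 : Lb := (@Lb.r r323 (@Lb.d (nat_lit 9) (nat_lit 1) (nat_lit 0) (@Lb.g g8 (@Lb.g g9 (@Lb.g g10 (@Lb.r r427 (@Lb.r r106 (@Lb.r r25 (@Lb.d (nat_lit 9) (nat_lit 9) (nat_lit 2) (@Lb.t (@Lb.fm (nat_lit 9) t51)))))))))))
noncomputable def l33968 : Lb := (@Lb.d (nat_lit 1) (nat_lit 516) (nat_lit 64) (@Lb.g g8 (@Lb.g g9 (@Lb.g g10 (@Lb.g g11 (@Lb.r r1130 (@Lb.r r612 (@Lb.r r615 (@Lb.r r2649 (@Lb.r r1044 (@Lb.d (nat_lit 361) (nat_lit 2) (nat_lit 601) (@Lb.fm (nat_lit 9) t42))))))))))))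
noncomputable def l33969 : Lb := (@Lb.d (nat_lit 128) (nat_lit 256) (nat_lit 64) (@Lb.g g10 (@Lb.g g11 (@Lb.r r361 (@Lb.r r292 (@Lb.r r539 (@Lb.r r134 (@Lb.d (nat_lit 586) (nat_lit 34) (nat_lit 160) (@Lb.fp (nat_lit 3) t40)))))))))
noncomputable def l33970 : Lb := (@Lb.d (nat_lit 32) (nat_lit 512) (nat_lit 64) (@Lb.g g10 (@Lb.g g11 (@Lb.r r545 (@Lb.r r344 (@Lb.r r679 (@Lb.r r646 (@Lb.d (nat_lit 128) (nat_lit 5) (nat_lit 149) (@Lb.fm (nat_lit 3) t40)))))))))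
noncomputable def l33971 : Lb := (@Lb.d (nat_lit 2) (nat_lit 18) (nat_lit 128) (@Lb.g g8 (@Lb.g g5 (@Lb.g g10 (@Lb.g g11 (@Lb.r r1307 (@Lb.r r614 (@Lb.r r24 (@Lb.d (nat_lit 74) (nat_lit 0) (nat_lit 640) (@Lb.fp (nat_lit 9) t2389))))))))))
noncomputable def l33972 : Lb := (@Lb.d (nat_lit 32) (nat_lit 0) (nat_lit 128) (@Lb.g g10 (@Lb.g g11 (@Lb.r r1384 (@Lb.r r2711 (@Lb.r r1377 (@Lb.r r2706 (@Lb.d (nat_lit 0) (nat_lit 160) (nat_lit 420) (@Lb.fm (nat_lit 3) t40)))))))))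
noncomputable def l33973 : Lb := (@Lb.r r21 (@Lb.d (nat_lit 130) (nat_lit 256) (nat_lit 0) (@Lb.g g4 (@Lb.g g10 (@Lb.r r1291 (@Lb.r r1377 (@Lb.r r2194 (@Lb.r r1284 (@Lb.d (nat_lit 641) (nat_lit 130) (nat_lit 416) (@Lb.fp (nat_lit 3) t87))))))))))
noncomputable def l33974 : Lb := (@Lb.d (nat_lit 26) (nat_lit 8) (nat_lit 64) (@Lb.g g8 (@Lb.g g9 (@Lb.g g10 (@Lb.g g11 (@Lb.r r618 (@Lb.r r36 (@Lb.r r37 (@Lb.d (nat_lit 101) (nat_lit 0) (nat_lit 130) (@Lb.fm (nat_lit 9) t69))))))))))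
noncomputable def l33975 : Lb := (@Lb.d (nat_lit 144) (nat_lit 9) (nat_lit 130) (@Lb.g g8 (@Lb.g g9 (@Lb.g g10 (@Lb.g g11 (@Lb.r r1706 (@Lb.r r1411 (@Lb.r r2201 (@Lb.r r2180 (@Lb.d (nat_lit 548) (nat_lit 152) (nat_lit 169) (@Lb.fm (nat_lit 9) t1846)))))))))))
noncomputable def l33976 : Lb := (@Lb.d (nat_lit 657) (nat_lit 256) (nat_lit 390) (@Lb.r r24 (@Lb.r r101 (@Lb.r r386 (@Lb.g g11 (@Lb.g g6 (@Lb.g g5 (@Lb.g g4 (@Lb.d (nat_lit 1) (nat_lit 0) (nat_lit 129) (@Lb.fp (nat_lit 9) t719))))))))))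
noncomputable def l33977 : Lb := (@Lb.d (nat_lit 657) (nat_lit 0) (nat_lit 262) (@Lb.r r24 (@Lb.r r101 (@Lb.r r386 (@Lb.g g11 (@Lb.g g6 (@Lb.d (nat_lit 0) (nat_lit 0) (nat_lit 70) (@Lb.fm (nat_lit 3) t2558))))))))
noncomputable def l33978 : Lb := (@Lb.d (nat_lit 0) (nat_lit 2) (nat_lit 66) (@Lb.g g9 (@Lb.g g10 (@Lb.g g11 (@Lb.r r2435 (@Lb.r r386 (@Lb.r r148 (@Lb.r r25 (@Lb.d (nat_lit 41) (nat_lit 9) (nat_lit 586) (@Lb.t (@Lb.fp (nat_lit 9) t40)))))))))))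
noncomputable def l33979 : Lb := (@Lb.d (nat_lit 2) (nat_lit 514) (nat_lit 0) (@Lb.g g8 (@Lb.g g9 (@Lb.r r1426 (@Lb.r r2657 (@Lb.r r1319 (@Lb.r r2564 (@Lb.d (nat_lit 424) (nat_lit 0) (nat_lit 417) (@Lb.fm (nat_lit 3) t396)))))))))
noncomputable def l33980 : Lb := (@Lb.d (nat_lit 513) (nat_lit 421) (nat_lit 20) (@Lb.r r2632 (@Lb.r r2665 (@Lb.r r2635 (@Lb.g g7 (@Lb.g g10 (@Lb.g g4 (@Lb.d (nat_lit 1) (nat_lit 0) (nat_lit 81) (@Lb.r r25 (@Lb.t (@Lb.fp (nat_lit 9) t820)))))))))))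
noncomputable def l33981 : Lb := (@Lb.d (nat_lit 0) (nat_lit 256) (nat_lit 2) (@Lb.g g9 (@Lb.g g10 (@Lb.g g7 (@Lb.r r2470 (@Lb.r r1624 (@Lb.r r2341 (@Lb.d (nat_lit 577) (nat_lit 128) (nat_lit 320) (@Lb.t (@Lb.fm (nat_lit 9) t1756))))))))))
noncomputable def l33982 : Lb := (@Lb.d (nat_lit 0) (nat_lit 550) (nat_lit 64) (@Lb.g g9 (@Lb.g g10 (@Lb.g g11 (@Lb.r r2595 (@Lb.r r386 (@Lb.r r2201 (@Lb.r r24 (@Lb.d (nat_lit 674) (nat_lit 5) (nat_lit 678) (@Lb.t (@Lb.fp (nat_lit 9) t3216)))))))))))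
noncomputable def l33983 : Lb := (@Lb.d (nat_lit 2) (nat_lit 258) (nat_lit 98) (@Lb.g g8 (@Lb.g g9 (@Lb.g g6 (@Lb.g g11 (@Lb.r r601 (@Lb.r r2323 (@Lb.r r2577 (@Lb.r r2564 (@Lb.d (nat_lit 168) (nat_lit 65) (nat_lit 416) (@Lb.fm (nat_lit 9) t1486)))))))))))
noncomputable def l33984 : Lb := (@Lb.d (nat_lit 130) (nat_lit 2) (nat_lit 2) (@Lb.g g8 (@Lb.g g9 (@Lb.g g10 (@Lb.r r1699 (@Lb.r r1194 (@Lb.r r1553 (@Lb.r r392 (@Lb.d (nat_lit 150) (nat_lit 96) (nat_lit 586) (@Lb.t (@Lb.fp (nat_lit 9) t51)))))))))))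
noncomputable def l33985 : Lb := (@Lb.r r82 (@Lb.d (nat_lit 0) (nat_lit 34) (nat_lit 64) (@Lb.g g9 (@Lb.g g11 (@Lb.r r1575 (@Lb.r r386 (@Lb.r r1169 (@Lb.r r24 (@Lb.d (nat_lit 598) (nat_lit 153) (nat_lit 280) (@Lb.fp (nat_lit 3) t4222))))))))))
noncomputable def l33986 : Lb := (@Lb.d (nat_lit 532) (nat_lit 513) (nat_lit 33) (@Lb.r r1096 (@Lb.r r1431 (@Lb.r r2454 (@Lb.r r593 (@Lb.g g7 (@Lb.g g5 (@Lb.d (nat_lit 0) (nat_lit 1) (nat_lit 68) (@Lb.fm (nat_lit 3) t6080)))))))))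
noncomputable def l33987 : Lb := (@Lb.d (nat_lit 74) (nat_lit 322) (nat_lit 386) (@Lb.r r1192 (@Lb.r r665 (@Lb.r r595 (@Lb.g g6 (@Lb.g g5 (@Lb.g g4 (@Lb.d (nat_lit 66) (nat_lit 17) (nat_lit 33) (@Lb.r r387 (@Lb.t (@Lb.fp (nat_lit 9) t1916)))))))))))
noncomputable def l33988 : Lb := (@Lb.d (nat_lit 1) (nat_lit 97) (nat_lit 8) (@Lb.g g8 (@Lb.g g5 (@Lb.g g10 (@Lb.r r2371 (@Lb.r r2690 (@Lb.r r24 (@Lb.d (nat_lit 5) (nat_lit 9) (nat_lit 549) (@Lb.t (@Lb.fp (nat_lit 9) t40))))))))))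
noncomputable def l33989 : Lb := (@Lb.r r273 (@Lb.r r322 (@Lb.d (nat_lit 2) (nat_lit 0) (nat_lit 320) (@Lb.g g8 (@Lb.g g7 (@Lb.r r280 (@Lb.r r101 (@Lb.r r146 (@Lb.d (nat_lit 0) (nat_lit 129) (nat_lit 514) (@Lb.fm (nat_lit 3) t243))))))))))
noncomputable def l33990 : Lb := (@Lb.d (nat_lit 145) (nat_lit 2) (nat_lit 128) (@Lb.g g8 (@Lb.g g9 (@Lb.g g10 (@Lb.g g11 (@Lb.r r683 (@Lb.r r2410 (@Lb.r r1561 (@Lb.r r1540 (@Lb.d (nat_lit 393) (nat_lit 153) (nat_lit 133) (@Lb.fm (nat_lit 9) t764)))))))))))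
noncomputable def l33991 : Lb := (@Lb.d (nat_lit 134) (nat_lit 273) (nat_lit 2) (@Lb.g g8 (@Lb.g g9 (@Lb.g g10 (@Lb.g g11 (@Lb.r r419 (@Lb.r r1156 (@Lb.r r2438 (@Lb.r r1433 (@Lb.d (nat_lit 98) (nat_lit 22) (nat_lit 24) (@Lb.fm (nat_lit 9) t3202)))))))))))
noncomputable def l33992 : Lb := (@Lb.d (nat_lit 2) (nat_lit 36) (nat_lit 128) (@Lb.g g8 (@Lb.g g9 (@Lb.g g10 (@Lb.g g11 (@Lb.r r387 (@Lb.r r1177 (@Lb.r r2458 (@Lb.r r24 (@Lb.d (nat_lit 602) (nat_lit 128) (nat_lit 169) (@Lb.fp (nat_lit 9) t5517)))))))))))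
noncomputable def l33993 : Lb := (@Lb.d (nat_lit 646) (nat_lit 662) (nat_lit 297) (@Lb.r r1556 (@Lb.r r297 (@Lb.r r599 (@Lb.g g6 (@Lb.g g5 (@Lb.g g4 (@Lb.d (nat_lit 64) (nat_lit 2) (nat_lit 16) (@Lb.r r387 (@Lb.t (@Lb.fp (nat_lit 9) t6081)))))))))))
noncomputable def l33994 : Lb := (@Lb.r r82 (@Lb.d (nat_lit 2) (nat_lit 545) (nat_lit 64) (@Lb.g g8 (@Lb.g g9 (@Lb.g g11 (@Lb.r r1543 (@Lb.r r2152 (@Lb.r r2438 (@Lb.r r1361 (@Lb.d (nat_lit 1) (nat_lit 6) (nat_lit 345) (@Lb.t (@Lb.fp (nat_lit 9) t1006))))))))))))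
noncomputable def l33995 : Lb := (@Lb.r r70 (@Lb.d (nat_lit 390) (nat_lit 256) (nat_lit 0) (@Lb.g g8 (@Lb.g g9 (@Lb.r r583 (@Lb.r r402 (@Lb.r r25 (@Lb.d (nat_lit 101) (nat_lit 133) (nat_lit 512) (@Lb.fm (nat_lit 3) t3823)))))))))
noncomputable def l33996 : Lb := (@Lb.d (nat_lit 2) (nat_lit 266) (nat_lit 65) (@Lb.g g8 (@Lb.g g9 (@Lb.g g10 (@Lb.g g11 (@Lb.r r164 (@Lb.r r2709 (@Lb.r r407 (@Lb.r r1430 (@Lb.r r1060 (@Lb.d (nat_lit 162) (nat_lit 5) (nat_lit 618) (@Lb.fm (nat_lit 9) t3146))))))))))))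
noncomputable def l33997 : Lb := (@Lb.d (nat_lit 132) (nat_lit 514) (nat_lit 66) (@Lb.g g8 (@Lb.g g9 (@Lb.g g10 (@Lb.g g11 (@Lb.r r1571 (@Lb.r r1418 (@Lb.r r168 (@Lb.r r1065 (@Lb.r r36 (@Lb.d (nat_lit 152) (nat_lit 104) (nat_lit 578) (@Lb.fp (nat_lit 9) t58))))))))))))
noncomputable def l33998 : Lb := (@Lb.d (nat_lit 549) (nat_lit 133) (nat_lit 168) (@Lb.r r405 (@Lb.r r2454 (@Lb.r r1096 (@Lb.r r1319 (@Lb.g g9 (@Lb.t (@Lb.fp (nat_lit 3) t2238))))))))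
noncomputable def l33999 : Lb := (@Lb.d (nat_lit 86) (nat_lit 325) (nat_lit 664) (@Lb.r r2374 (@Lb.r r1684 (@Lb.r r297 (@Lb.r r2691 (@Lb.g g7 (@Lb.g g6 (@Lb.g g5 (@Lb.d (nat_lit 0) (nat_lit 1) (nat_lit 65) (@Lb.t (@Lb.fp (nat_lit 9) t4460)))))))))))
noncomputable def l34000 : Lb := (@Lb.d (nat_lit 149) (nat_lit 256) (nat_lit 64) (@Lb.g g8 (@Lb.g g9 (@Lb.g g10 (@Lb.g g11 (@Lb.r r387 (@Lb.r r1177 (@Lb.r r2450 (@Lb.r r2632 (@Lb.d (nat_lit 354) (nat_lit 85) (nat_lit 649) (@Lb.fp (nat_lit 9) t749)))))))))))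
noncomputable def l34001 : Lb := (@Lb.d (nat_lit 5) (nat_lit 582) (nat_lit 146) (@Lb.r r2120 (@Lb.r r97 (@Lb.r r386 (@Lb.g g11 (@Lb.g g6 (@Lb.g g5 (@Lb.d (nat_lit 0) (nat_lit 1) (nat_lit 129) (@Lb.t (@Lb.fp (nat_lit 9) t1751))))))))))
noncomputable def l34002 : Lb := (@Lb.d (nat_lit 132) (nat_lit 320) (nat_lit 130) (@Lb.g g8 (@Lb.g g9 (@Lb.g g10 (@Lb.g g11 (@Lb.r r2475 (@Lb.r r1130 (@Lb.r r2084 (@Lb.d (nat_lit 290) (nat_lit 66) (nat_lit 409) (@Lb.fp (nat_lit 9) t6082))))))))))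
noncomputable def l34003 : Lb := (@Lb.d (nat_lit 645) (nat_lit 65) (nat_lit 293) (@Lb.r r2120 (@Lb.r r97 (@Lb.r r386 (@Lb.g g11 (@Lb.g g6 (@Lb.g g5 (@Lb.d (nat_lit 0) (nat_lit 1) (nat_lit 129) (@Lb.t (@Lb.fp (nat_lit 9) t5669))))))))))
noncomputable def l34004 : Lb := (@Lb.d (nat_lit 132) (nat_lit 272) (nat_lit 2) (@Lb.g g8 (@Lb.g g9 (@Lb.g g10 (@Lb.g g11 (@Lb.r r1707 (@Lb.r r644 (@Lb.r r1158 (@Lb.r r2337 (@Lb.d (nat_lit 617) (nat_lit 98) (nat_lit 617) (@Lb.fm (nat_lit 9) t4350)))))))))))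
noncomputable def l34005 : Lb := (@Lb.r r70 (@Lb.d (nat_lit 132) (nat_lit 5) (nat_lit 64) (@Lb.g g8 (@Lb.g g5 (@Lb.g g11 (@Lb.r r2714 (@Lb.r r1668 (@Lb.r r519 (@Lb.d (nat_lit 593) (nat_lit 146) (nat_lit 602) (@Lb.t (@Lb.fp (nat_lit 9) t58)))))))))))
noncomputable def l34006 : Lb := (@Lb.d (nat_lit 0) (nat_lit 256) (nat_lit 136) (@Lb.g g11 (@Lb.r r405 (@Lb.r r2454 (@Lb.r r2411 (@Lb.r r1096 (@Lb.d (nat_lit 584) (nat_lit 2) (nat_lit 528) (@Lb.t (@Lb.fp (nat_lit 3) t2238)))))))))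
noncomputable def l34007 : Lb := (@Lb.d (nat_lit 8) (nat_lit 34) (nat_lit 0) (@Lb.g g9 (@Lb.r r283 (@Lb.r r1414 (@Lb.r r276 (@Lb.r r2409 (@Lb.d (nat_lit 422) (nat_lit 154) (nat_lit 266) (@Lb.t (@Lb.fp (nat_lit 3) t334)))))))))
noncomputable def l34008 : Lb := (@Lb.d (nat_lit 0) (nat_lit 257) (nat_lit 73) (@Lb.g g8 (@Lb.g g9 (@Lb.g g10 (@Lb.g g11 (@Lb.r r1643 (@Lb.r r1610 (@Lb.r r660 (@Lb.r r425 (@Lb.r r1060 (@Lb.d (nat_lit 682) (nat_lit 168) (nat_lit 260) (@Lb.fp (nat_lit 9) t1371))))))))))))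
noncomputable def l34009 : Lb := (@Lb.d (nat_lit 132) (nat_lit 528) (nat_lit 137) (@Lb.g g8 (@Lb.g g9 (@Lb.g g10 (@Lb.g g11 (@Lb.r r1707 (@Lb.r r644 (@Lb.r r1158 (@Lb.r r2337 (@Lb.d (nat_lit 617) (nat_lit 98) (nat_lit 617) (@Lb.fm (nat_lit 9) t4350)))))))))))
noncomputable def l34010 : Lb := (@Lb.d (nat_lit 149) (nat_lit 512) (nat_lit 64) (@Lb.g g8 (@Lb.g g9 (@Lb.g g10 (@Lb.g g11 (@Lb.r r427 (@Lb.r r1602 (@Lb.r r409 (@Lb.r r388 (@Lb.d (nat_lit 105) (nat_lit 40) (nat_lit 73) (@Lb.fp (nat_lit 9) t394)))))))))))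
noncomputable def l34011 : Lb := (@Lb.r r21 (@Lb.r r70 (@Lb.d (nat_lit 388) (nat_lit 512) (nat_lit 256) (@Lb.g g4 (@Lb.g g7 (@Lb.r r101 (@Lb.r r2450 (@Lb.d (nat_lit 2) (nat_lit 0) (nat_lit 66) (@Lb.fm (nat_lit 3) t5141)))))))))
noncomputable def l34012 : Lb := (@Lb.r r82 (@Lb.d (nat_lit 4) (nat_lit 514) (nat_lit 0) (@Lb.g g8 (@Lb.g g9 (@Lb.r r342 (@Lb.r r553 (@Lb.r r36 (@Lb.d (nat_lit 66) (nat_lit 144) (nat_lit 128) (@Lb.fp (nat_lit 3) t2691)))))))))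
noncomputable def l34013 : Lb := (@Lb.d (nat_lit 34) (nat_lit 8) (nat_lit 64) (@Lb.g g8 (@Lb.g g9 (@Lb.g g11 (@Lb.r r1671 (@Lb.r r582 (@Lb.r r1432 (@Lb.r r1045 (@Lb.d (nat_lit 514) (nat_lit 24) (nat_lit 648) (@Lb.t (@Lb.fm (nat_lit 9) t553)))))))))))
noncomputable def l34014 : Lb := (@Lb.d (nat_lit 0) (nat_lit 256) (nat_lit 73) (@Lb.g g9 (@Lb.g g10 (@Lb.g g11 (@Lb.r r2726 (@Lb.r r328 (@Lb.r r535 (@Lb.r r289 (@Lb.d (nat_lit 641) (nat_lit 144) (nat_lit 64) (@Lb.t (@Lb.fm (nat_lit 9) t1693)))))))))))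
noncomputable def l34015 : Lb := (@Lb.d (nat_lit 2) (nat_lit 258) (nat_lit 66) (@Lb.g g8 (@Lb.g g9 (@Lb.g g10 (@Lb.g g11 (@Lb.r r1699 (@Lb.r r2666 (@Lb.r r612 (@Lb.r r533 (@Lb.r r2084 (@Lb.d (nat_lit 649) (nat_lit 136) (nat_lit 66) (@Lb.fm (nat_lit 9) t3681))))))))))))
noncomputable def l34016 : Lb := (@Lb.d (nat_lit 133) (nat_lit 0) (nat_lit 130) (@Lb.g g8 (@Lb.g g9 (@Lb.g g10 (@Lb.g g11 (@Lb.r r419 (@Lb.r r2154 (@Lb.r r100 (@Lb.r r405 (@Lb.r r2084 (@Lb.d (nat_lit 617) (nat_lit 21) (nat_lit 550) (@Lb.fp (nat_lit 9) t6083))))))))))))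
noncomputable def l34017 : Lb := (@Lb.r r82 (@Lb.d (nat_lit 32) (nat_lit 289) (nat_lit 64) (@Lb.g g8 (@Lb.g g9 (@Lb.g g11 (@Lb.r r2395 (@Lb.r r582 (@Lb.r r1305 (@Lb.r r408 (@Lb.d (nat_lit 649) (nat_lit 26) (nat_lit 170) (@Lb.t (@Lb.fp (nat_lit 9) t4547))))))))))))
noncomputable def l34018 : Lb := (@Lb.r r82 (@Lb.d (nat_lit 34) (nat_lit 545) (nat_lit 64) (@Lb.g g8 (@Lb.g g9 (@Lb.g g11 (@Lb.r r2395 (@Lb.r r582 (@Lb.r r1305 (@Lb.r r408 (@Lb.d (nat_lit 649) (nat_lit 26) (nat_lit 170) (@Lb.t (@Lb.fp (nat_lit 9) t4547))))))))))))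
noncomputable def l34019 : Lb := (@Lb.d (nat_lit 134) (nat_lit 512) (nat_lit 130) (@Lb.g g8 (@Lb.g g9 (@Lb.g g10 (@Lb.g g11 (@Lb.r r419 (@Lb.r r164 (@Lb.r r2438 (@Lb.r r97 (@Lb.d (nat_lit 361) (nat_lit 40) (nat_lit 601) (@Lb.fp (nat_lit 9) t3270)))))))))))
noncomputable def l34020 : Lb := (@Lb.r r82 (@Lb.d (nat_lit 2) (nat_lit 33) (nat_lit 64) (@Lb.g g8 (@Lb.g g9 (@Lb.g g11 (@Lb.r r1543 (@Lb.r r1622 (@Lb.r r2345 (@Lb.r r24 (@Lb.d (nat_lit 260) (nat_lit 97) (nat_lit 69) (@Lb.t (@Lb.fp (nat_lit 9) t3045))))))))))))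
noncomputable def l34021 : Lb := (@Lb.r r323 (@Lb.d (nat_lit 4) (nat_lit 512) (nat_lit 1) (@Lb.g g8 (@Lb.g g9 (@Lb.g g10 (@Lb.r r343 (@Lb.r r170 (@Lb.r r2585 (@Lb.r r2564 (@Lb.d (nat_lit 10) (nat_lit 165) (nat_lit 596) (@Lb.t (@Lb.fp (nat_lit 9) t5395))))))))))))
noncomputable def l34022 : Lb := (@Lb.r r82 (@Lb.d (nat_lit 2) (nat_lit 272) (nat_lit 0) (@Lb.g g8 (@Lb.g g9 (@Lb.g g11 (@Lb.r r1671 (@Lb.r r2474 (@Lb.r r2393 (@Lb.r r24 (@Lb.d (nat_lit 296) (nat_lit 1) (nat_lit 81) (@Lb.t (@Lb.fp (nat_lit 9) t3045))))))))))))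
noncomputable def l34023 : Lb := (@Lb.d (nat_lit 2) (nat_lit 258) (nat_lit 2) (@Lb.g g8 (@Lb.g g9 (@Lb.g g10 (@Lb.g g11 (@Lb.r r2729 (@Lb.r r2475 (@Lb.r r388 (@Lb.r r70 (@Lb.r r132 (@Lb.d (nat_lit 1) (nat_lit 0) (nat_lit 90) (@Lb.fm (nat_lit 9) t126))))))))))))
noncomputable def l34024 : Lb := (@Lb.r r21 (@Lb.d (nat_lit 16) (nat_lit 256) (nat_lit 74) (@Lb.g g8 (@Lb.g g10 (@Lb.g g11 (@Lb.r r2707 (@Lb.r r2442 (@Lb.r r97 (@Lb.r r1432 (@Lb.d (nat_lit 616) (nat_lit 130) (nat_lit 394) (@Lb.t (@Lb.fm (nat_lit 9) t1246))))))))))))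
noncomputable def l34025 : Lb := (@Lb.r r21 (@Lb.d (nat_lit 16) (nat_lit 512) (nat_lit 74) (@Lb.g g8 (@Lb.g g10 (@Lb.g g11 (@Lb.r r2707 (@Lb.r r2442 (@Lb.r r97 (@Lb.r r1432 (@Lb.d (nat_lit 614) (nat_lit 129) (nat_lit 394) (@Lb.t (@Lb.fm (nat_lit 9) t3482))))))))))))
noncomputable def l34026 : Lb := (@Lb.d (nat_lit 394) (nat_lit 41) (nat_lit 162) (@Lb.r r680 (@Lb.r r2411 (@Lb.r r2345 (@Lb.g g6 (@Lb.g g5 (@Lb.g g4 (@Lb.d (nat_lit 64) (nat_lit 1) (nat_lit 33) (@Lb.r r387 (@Lb.t (@Lb.fp (nat_lit 9) t162)))))))))))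
noncomputable def l34027 : Lb := (@Lb.d (nat_lit 2) (nat_lit 2) (nat_lit 74) (@Lb.g g8 (@Lb.g g9 (@Lb.g g10 (@Lb.g g11 (@Lb.r r643 (@Lb.r r657 (@Lb.r r612 (@Lb.r r666 (@Lb.r r132 (@Lb.d (nat_lit 326) (nat_lit 33) (nat_lit 586) (@Lb.fp (nat_lit 9) t1866))))))))))))
noncomputable def l34028 : Lb := (@Lb.d (nat_lit 2) (nat_lit 258) (nat_lit 128) (@Lb.g g8 (@Lb.g g9 (@Lb.g g10 (@Lb.g g11 (@Lb.r r643 (@Lb.r r657 (@Lb.r r612 (@Lb.r r666 (@Lb.r r132 (@Lb.d (nat_lit 328) (nat_lit 34) (nat_lit 586) (@Lb.fp (nat_lit 9) t1866))))))))))))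
noncomputable def l34029 : Lb := (@Lb.d (nat_lit 5) (nat_lit 514) (nat_lit 73) (@Lb.g g8 (@Lb.g g9 (@Lb.g g10 (@Lb.g g11 (@Lb.r r618 (@Lb.r r579 (@Lb.r r1121 (@Lb.r r24 (@Lb.d (nat_lit 153) (nat_lit 137) (nat_lit 342) (@Lb.fm (nat_lit 9) t61)))))))))))
noncomputable def l34030 : Lb := (@Lb.d (nat_lit 144) (nat_lit 258) (nat_lit 132) (@Lb.g g8 (@Lb.g g9 (@Lb.g g10 (@Lb.g g11 (@Lb.r r395 (@Lb.r r2470 (@Lb.r r36 (@Lb.r r533 (@Lb.r r2084 (@Lb.d (nat_lit 165) (nat_lit 37) (nat_lit 322) (@Lb.fm (nat_lit 9) t1458))))))))))))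
noncomputable def l34031 : Lb := (@Lb.r r323 (@Lb.d (nat_lit 0) (nat_lit 290) (nat_lit 1) (@Lb.g g8 (@Lb.g g9 (@Lb.g g10 (@Lb.r r2468 (@Lb.r r1307 (@Lb.r r2661 (@Lb.d (nat_lit 168) (nat_lit 85) (nat_lit 358) (@Lb.t (@Lb.fp (nat_lit 9) t307)))))))))))
noncomputable def l34032 : Lb := (@Lb.r r82 (@Lb.d (nat_lit 32) (nat_lit 33) (nat_lit 64) (@Lb.g g8 (@Lb.g g9 (@Lb.g g11 (@Lb.r r2665 (@Lb.r r1315 (@Lb.r r150 (@Lb.r r2660 (@Lb.d (nat_lit 666) (nat_lit 20) (nat_lit 81) (@Lb.t (@Lb.fm (nat_lit 9) t658))))))))))))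
noncomputable def l34033 : Lb := (@Lb.d (nat_lit 640) (nat_lit 258) (nat_lit 386) (@Lb.r r24 (@Lb.g g9 (@Lb.d (nat_lit 8) (nat_lit 9) (nat_lit 0) (@Lb.t (@Lb.fm (nat_lit 3) t1410))))))
noncomputable def l34034 : Lb := (@Lb.r r21 (@Lb.d (nat_lit 33) (nat_lit 256) (nat_lit 72) (@Lb.g g8 (@Lb.g g10 (@Lb.g g11 (@Lb.r r323 (@Lb.r r1382 (@Lb.r r97 (@Lb.r r2324 (@Lb.d (nat_lit 577) (nat_lit 80) (nat_lit 320) (@Lb.t (@Lb.fp (nat_lit 9) t2301))))))))))))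
noncomputable def l34035 : Lb := (@Lb.r r21 (@Lb.r r322 (@Lb.d (nat_lit 282) (nat_lit 0) (nat_lit 8) (@Lb.g g8 (@Lb.g g11 (@Lb.r r2405 (@Lb.r r146 (@Lb.d (nat_lit 2) (nat_lit 144) (nat_lit 97) (@Lb.fm (nat_lit 3) t6084)))))))))
noncomputable def l34036 : Lb := (@Lb.r r21 (@Lb.d (nat_lit 658) (nat_lit 512) (nat_lit 0) (@Lb.g g8 (@Lb.g g10 (@Lb.g g11 (@Lb.r r2695 (@Lb.r r74 (@Lb.r r25 (@Lb.d (nat_lit 2) (nat_lit 0) (nat_lit 597) (@Lb.t (@Lb.fp (nat_lit 9) t1071)))))))))))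
noncomputable def l34037 : Lb := (@Lb.d (nat_lit 153) (nat_lit 8) (nat_lit 130) (@Lb.g g8 (@Lb.g g9 (@Lb.g g10 (@Lb.g g11 (@Lb.r r1706 (@Lb.r r1411 (@Lb.r r85 (@Lb.r r2180 (@Lb.d (nat_lit 393) (nat_lit 153) (nat_lit 649) (@Lb.fm (nat_lit 9) t328)))))))))))
noncomputable def l34038 : Lb := (@Lb.d (nat_lit 145) (nat_lit 258) (nat_lit 130) (@Lb.g g8 (@Lb.g g9 (@Lb.g g10 (@Lb.g g11 (@Lb.r r2691 (@Lb.r r1065 (@Lb.r r72 (@Lb.r r1638 (@Lb.r r132 (@Lb.d (nat_lit 133) (nat_lit 72) (nat_lit 533) (@Lb.fm (nat_lit 9) t2528))))))))))))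
noncomputable def l34039 : Lb := (@Lb.d (nat_lit 153) (nat_lit 32) (nat_lit 73) (@Lb.g g8 (@Lb.g g10 (@Lb.g g11 (@Lb.r r353 (@Lb.r r1686 (@Lb.r r1348 (@Lb.r r523 (@Lb.d (nat_lit 580) (nat_lit 129) (nat_lit 674) (@Lb.t (@Lb.fp (nat_lit 9) t2426)))))))))))
noncomputable def l34040 : Lb := (@Lb.r r21 (@Lb.d (nat_lit 146) (nat_lit 512) (nat_lit 74) (@Lb.g g8 (@Lb.g g10 (@Lb.g g11 (@Lb.r r387 (@Lb.r r1636 (@Lb.r r101 (@Lb.r r2450 (@Lb.d (nat_lit 0) (nat_lit 66) (nat_lit 273) (@Lb.t (@Lb.fm (nat_lit 9) t2605))))))))))))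
noncomputable def l34041 : Lb := (@Lb.d (nat_lit 640) (nat_lit 9) (nat_lit 258) (@Lb.r r24 (@Lb.g g10 (@Lb.g g9 (@Lb.d (nat_lit 8) (nat_lit 2) (nat_lit 0) (@Lb.fp (nat_lit 3) t6085))))))
noncomputable def l34042 : Lb := (@Lb.r r260 (@Lb.r r273 (@Lb.d (nat_lit 128) (nat_lit 272) (nat_lit 642) (@Lb.g g10 (@Lb.g g7 (@Lb.r r386 (@Lb.r r101 (@Lb.r r1048 (@Lb.d (nat_lit 354) (nat_lit 128) (nat_lit 601) (@Lb.fm (nat_lit 3) t3054))))))))))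
noncomputable def l34043 : Lb := (@Lb.d (nat_lit 532) (nat_lit 646) (nat_lit 649) (@Lb.r r613 (@Lb.r r86 (@Lb.r r388 (@Lb.g g11 (@Lb.g g6 (@Lb.g g5 (@Lb.d (nat_lit 16) (nat_lit 2) (nat_lit 0) (@Lb.t (@Lb.fp (nat_lit 9) t6086))))))))))
noncomputable def l34044 : Lb := (@Lb.d (nat_lit 66) (nat_lit 266) (nat_lit 661) (@Lb.r r24 (@Lb.r r101 (@Lb.r r2658 (@Lb.r r2467 (@Lb.g g7 (@Lb.g g6 (@Lb.g g5 (@Lb.d (nat_lit 0) (nat_lit 10) (nat_lit 10) (@Lb.t (@Lb.fp (nat_lit 9) t6087)))))))))))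
noncomputable def l34045 : Lb := (@Lb.d (nat_lit 645) (nat_lit 513) (nat_lit 261) (@Lb.r r24 (@Lb.r r97 (@Lb.r r386 (@Lb.g g11 (@Lb.g g6 (@Lb.g g5 (@Lb.d (nat_lit 0) (nat_lit 8) (nat_lit 0) (@Lb.t (@Lb.fp (nat_lit 9) t6088))))))))))
noncomputable def l34046 : Lb := (@Lb.r r323 (@Lb.d (nat_lit 38) (nat_lit 256) (nat_lit 2) (@Lb.g g8 (@Lb.g g9 (@Lb.g g10 (@Lb.r r2729 (@Lb.r r2467 (@Lb.r r2434 (@Lb.r r2180 (@Lb.d (nat_lit 337) (nat_lit 0) (nat_lit 425) (@Lb.t (@Lb.fm (nat_lit 9) t1377))))))))))))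
noncomputable def l34047 : Lb := (@Lb.d (nat_lit 129) (nat_lit 512) (nat_lit 0) (@Lb.r r2627 (@Lb.r r402 (@Lb.r r101 (@Lb.g g8 (@Lb.d (nat_lit 2) (nat_lit 0) (nat_lit 0) (@Lb.r r267 (@Lb.r r74 (@Lb.r r25 (@Lb.t (@Lb.fm (nat_lit 3) t3075)))))))))))
noncomputable def l34048 : Lb := (@Lb.d (nat_lit 5) (nat_lit 641) (nat_lit 2) (@Lb.r r2312 (@Lb.r r2329 (@Lb.r r1639 (@Lb.g g10 (@Lb.g g5 (@Lb.d (nat_lit 0) (nat_lit 1) (nat_lit 10) (@Lb.r r387 (@Lb.r r132 (@Lb.fp (nat_lit 3) t1905))))))))))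
noncomputable def l34049 : Lb := (@Lb.d (nat_lit 136) (nat_lit 266) (nat_lit 64) (@Lb.g g9 (@Lb.g g11 (@Lb.r r2708 (@Lb.r r1366 (@Lb.r r683 (@Lb.r r1705 (@Lb.d (nat_lit 581) (nat_lit 90) (nat_lit 554) (@Lb.fm (nat_lit 3) t40)))))))))
noncomputable def l34050 : Lb := (@Lb.d (nat_lit 2) (nat_lit 2) (nat_lit 66) (@Lb.g g8 (@Lb.g g9 (@Lb.g g10 (@Lb.g g11 (@Lb.r r683 (@Lb.r r2666 (@Lb.r r2585 (@Lb.r r2564 (@Lb.d (nat_lit 649) (nat_lit 9) (nat_lit 422) (@Lb.fm (nat_lit 9) t6089)))))))))))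
noncomputable def l34051 : Lb := (@Lb.d (nat_lit 0) (nat_lit 521) (nat_lit 129) (@Lb.g g8 (@Lb.g g9 (@Lb.g g10 (@Lb.g g11 (@Lb.r r2691 (@Lb.r r2665 (@Lb.r r1686 (@Lb.r r1096 (@Lb.d (nat_lit 677) (nat_lit 161) (nat_lit 89) (@Lb.fp (nat_lit 9) t821)))))))))))
noncomputable def l34052 : Lb := (@Lb.d (nat_lit 2) (nat_lit 514) (nat_lit 130) (@Lb.g g8 (@Lb.g g9 (@Lb.g g10 (@Lb.g g11 (@Lb.r r683 (@Lb.r r2666 (@Lb.r r2585 (@Lb.d (nat_lit 329) (nat_lit 169) (nat_lit 97) (@Lb.fm (nat_lit 9) t2869))))))))))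
noncomputable def l34053 : Lb := (@Lb.d (nat_lit 42) (nat_lit 256) (nat_lit 0) (@Lb.g g4 (@Lb.r r2475 (@Lb.r r426 (@Lb.r r1449 (@Lb.r r2472 (@Lb.d (nat_lit 409) (nat_lit 153) (nat_lit 154) (@Lb.t (@Lb.fp (nat_lit 3) t386)))))))))
noncomputable def l34054 : Lb := (@Lb.d (nat_lit 128) (nat_lit 288) (nat_lit 136) (@Lb.g g11 (@Lb.r r420 (@Lb.r r2469 (@Lb.r r1446 (@Lb.r r347 (@Lb.d (nat_lit 296) (nat_lit 85) (nat_lit 646) (@Lb.t (@Lb.fp (nat_lit 3) t322)))))))))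
noncomputable def l34055 : Lb := (@Lb.d (nat_lit 642) (nat_lit 258) (nat_lit 66) (@Lb.g g8 (@Lb.g g9 (@Lb.g g10 (@Lb.g g11 (@Lb.r r1451 (@Lb.r r106 (@Lb.r r25 (@Lb.d (nat_lit 2) (nat_lit 73) (nat_lit 425) (@Lb.fp (nat_lit 9) t898))))))))))
noncomputable def l34056 : Lb := (@Lb.r r21 (@Lb.d (nat_lit 646) (nat_lit 512) (nat_lit 130) (@Lb.g g8 (@Lb.g g10 (@Lb.g g11 (@Lb.r r419 (@Lb.r r106 (@Lb.r r25 (@Lb.d (nat_lit 354) (nat_lit 73) (nat_lit 66) (@Lb.t (@Lb.fm (nat_lit 9) t6090)))))))))))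
noncomputable def l34057 : Lb := (@Lb.r r21 (@Lb.d (nat_lit 408) (nat_lit 32) (nat_lit 128) (@Lb.g g8 (@Lb.g g11 (@Lb.r r2138 (@Lb.r r2449 (@Lb.r r295 (@Lb.d (nat_lit 73) (nat_lit 66) (nat_lit 513) (@Lb.fm (nat_lit 3) t2605)))))))))
noncomputable def l34058 : Lb := (@Lb.d (nat_lit 10) (nat_lit 512) (nat_lit 132) (@Lb.g g8 (@Lb.g g10 (@Lb.g g11 (@Lb.r r679 (@Lb.r r661 (@Lb.r r146 (@Lb.r r2436 (@Lb.d (nat_lit 610) (nat_lit 2) (nat_lit 681) (@Lb.t (@Lb.fm (nat_lit 9) t386)))))))))))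
noncomputable def l34059 : Lb := (@Lb.d (nat_lit 2) (nat_lit 258) (nat_lit 2) (@Lb.g g8 (@Lb.g g9 (@Lb.g g10 (@Lb.r r427 (@Lb.r r386 (@Lb.r r97 (@Lb.r r24 (@Lb.d (nat_lit 266) (nat_lit 2) (nat_lit 681) (@Lb.t (@Lb.fp (nat_lit 9) t61)))))))))))
noncomputable def l34060 : Lb := (@Lb.d (nat_lit 0) (nat_lit 16) (nat_lit 2) (@Lb.g g8 (@Lb.g g9 (@Lb.g g10 (@Lb.g g11 (@Lb.r r2666 (@Lb.r r2635 (@Lb.r r600 (@Lb.r r293 (@Lb.d (nat_lit 74) (nat_lit 161) (nat_lit 128) (@Lb.fm (nat_lit 9) t1001)))))))))))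
noncomputable def l34061 : Lb := (@Lb.d (nat_lit 2) (nat_lit 258) (nat_lit 2) (@Lb.g g8 (@Lb.g g9 (@Lb.g g10 (@Lb.g g11 (@Lb.r r1346 (@Lb.r r1451 (@Lb.r r2457 (@Lb.r r2436 (@Lb.d (nat_lit 409) (nat_lit 73) (nat_lit 408) (@Lb.fp (nat_lit 9) t3312)))))))))))
noncomputable def l34062 : Lb := (@Lb.d (nat_lit 8) (nat_lit 10) (nat_lit 64) (@Lb.g g9 (@Lb.g g11 (@Lb.r r1691 (@Lb.r r602 (@Lb.r r2648 (@Lb.r r1365 (@Lb.d (nat_lit 342) (nat_lit 88) (nat_lit 676) (@Lb.fm (nat_lit 3) t296)))))))))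
noncomputable def l34063 : Lb := (@Lb.d (nat_lit 2) (nat_lit 297) (nat_lit 133) (@Lb.g g8 (@Lb.g g9 (@Lb.g g10 (@Lb.g g11 (@Lb.r r264 (@Lb.r r2471 (@Lb.r r2146 (@Lb.r r2729 (@Lb.r r516 (@Lb.d (nat_lit 513) (nat_lit 66) (nat_lit 168) (@Lb.fp (nat_lit 9) t1665))))))))))))
noncomputable def l34064 : Lb := (@Lb.r r82 (@Lb.d (nat_lit 73) (nat_lit 290) (nat_lit 64) (@Lb.g g8 (@Lb.g g9 (@Lb.g g11 (@Lb.r r1287 (@Lb.r r164 (@Lb.r r2438 (@Lb.r r2321 (@Lb.d (nat_lit 0) (nat_lit 66) (nat_lit 393) (@Lb.t (@Lb.fp (nat_lit 9) t1816))))))))))))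
noncomputable def l34065 : Lb := (@Lb.d (nat_lit 137) (nat_lit 584) (nat_lit 128) (@Lb.g g8 (@Lb.g g5 (@Lb.g g11 (@Lb.r r423 (@Lb.r r2150 (@Lb.r r2200 (@Lb.d (nat_lit 581) (nat_lit 138) (nat_lit 34) (@Lb.t (@Lb.fm (nat_lit 9) t283))))))))))
noncomputable def l34066 : Lb := (@Lb.d (nat_lit 386) (nat_lit 256) (nat_lit 272) (@Lb.r r154 (@Lb.r r660 (@Lb.r r663 (@Lb.r r353 (@Lb.g g7 (@Lb.g g6 (@Lb.g g4 (@Lb.d (nat_lit 6) (nat_lit 0) (nat_lit 64) (@Lb.t (@Lb.fm (nat_lit 9) t3204)))))))))))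
noncomputable def l34067 : Lb := (@Lb.d (nat_lit 169) (nat_lit 513) (nat_lit 64) (@Lb.g g8 (@Lb.g g9 (@Lb.g g11 (@Lb.r r418 (@Lb.r r2407 (@Lb.r r145 (@Lb.r r2664 (@Lb.d (nat_lit 545) (nat_lit 98) (nat_lit 680) (@Lb.t (@Lb.fm (nat_lit 9) t109)))))))))))
noncomputable def l34068 : Lb := (@Lb.r r323 (@Lb.d (nat_lit 9) (nat_lit 34) (nat_lit 2) (@Lb.g g8 (@Lb.g g9 (@Lb.g g10 (@Lb.r r1367 (@Lb.r r2634 (@Lb.r r2600 (@Lb.r r153 (@Lb.d (nat_lit 21) (nat_lit 150) (nat_lit 297) (@Lb.t (@Lb.fp (nat_lit 9) t591))))))))))))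
noncomputable def l34069 : Lb := (@Lb.r r68 (@Lb.r r81 (@Lb.d (nat_lit 0) (nat_lit 0) (nat_lit 106) (@Lb.g g10 (@Lb.g g11 (@Lb.r r1419 (@Lb.r r1304 (@Lb.r r37 (@Lb.d (nat_lit 0) (nat_lit 72) (nat_lit 129) (@Lb.fm (nat_lit 3) t644))))))))))
noncomputable def l34070 : Lb := (@Lb.d (nat_lit 10) (nat_lit 41) (nat_lit 160) (@Lb.r r134 (@Lb.r r679 (@Lb.r r344 (@Lb.r r533 (@Lb.g g7 (@Lb.g g5 (@Lb.d (nat_lit 64) (nat_lit 2) (nat_lit 128) (@Lb.fp (nat_lit 3) t594)))))))))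
noncomputable def l34071 : Lb := (@Lb.r r21 (@Lb.d (nat_lit 0) (nat_lit 0) (nat_lit 162) (@Lb.g g8 (@Lb.g g10 (@Lb.g g11 (@Lb.r r387 (@Lb.r r1561 (@Lb.r r1540 (@Lb.d (nat_lit 2) (nat_lit 0) (nat_lit 649) (@Lb.t (@Lb.fm (nat_lit 9) t2027)))))))))))
noncomputable def l34072 : Lb := (@Lb.d (nat_lit 0) (nat_lit 520) (nat_lit 258) (@Lb.g g10 (@Lb.g g7 (@Lb.r r1124 (@Lb.r r101 (@Lb.r r1114 (@Lb.d (nat_lit 358) (nat_lit 164) (nat_lit 274) (@Lb.fm (nat_lit 3) t1495))))))))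
noncomputable def l34073 : Lb := (@Lb.d (nat_lit 2) (nat_lit 8) (nat_lit 130) (@Lb.g g8 (@Lb.g g10 (@Lb.g g11 (@Lb.r r353 (@Lb.r r2707 (@Lb.r r662 (@Lb.r r2120 (@Lb.d (nat_lit 100) (nat_lit 160) (nat_lit 262) (@Lb.t (@Lb.fm (nat_lit 9) t282)))))))))))
noncomputable def l34074 : Lb := (@Lb.d (nat_lit 0) (nat_lit 520) (nat_lit 10) (@Lb.g g10 (@Lb.g g11 (@Lb.r r601 (@Lb.r r1307 (@Lb.r r2370 (@Lb.d (nat_lit 522) (nat_lit 2) (nat_lit 678) (@Lb.fm (nat_lit 3) t414))))))))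
noncomputable def l34075 : Lb := (@Lb.d (nat_lit 145) (nat_lit 2) (nat_lit 73) (@Lb.g g8 (@Lb.g g9 (@Lb.g g10 (@Lb.g g11 (@Lb.r r2691 (@Lb.r r1065 (@Lb.r r72 (@Lb.r r1638 (@Lb.r r132 (@Lb.d (nat_lit 128) (nat_lit 74) (nat_lit 533) (@Lb.fm (nat_lit 9) t1871))))))))))))
noncomputable def l34076 : Lb := (@Lb.d (nat_lit 0) (nat_lit 32) (nat_lit 136) (@Lb.g g11 (@Lb.r r1444 (@Lb.r r421 (@Lb.r r2470 (@Lb.r r2395 (@Lb.d (nat_lit 544) (nat_lit 132) (nat_lit 422) (@Lb.t (@Lb.fp (nat_lit 3) t3737)))))))))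
noncomputable def l34077 : Lb := (@Lb.r r2150 (@Lb.r r1065 (@Lb.r r2088 (@Lb.d (nat_lit 649) (nat_lit 16) (nat_lit 256) (@Lb.fp (nat_lit 1) t2830)))))
noncomputable def l34078 : Lb := (@Lb.r r21 (@Lb.d (nat_lit 514) (nat_lit 4) (nat_lit 74) (@Lb.g g8 (@Lb.g g10 (@Lb.g g11 (@Lb.r r665 (@Lb.r r343 (@Lb.r r650 (@Lb.d (nat_lit 129) (nat_lit 10) (nat_lit 677) (@Lb.t (@Lb.fp (nat_lit 9) t221)))))))))))
noncomputable def l34079 : Lb := (@Lb.d (nat_lit 41) (nat_lit 0) (nat_lit 64) (@Lb.g g8 (@Lb.g g11 (@Lb.r r1703 (@Lb.r r614 (@Lb.r r1637 (@Lb.r r1428 (@Lb.d (nat_lit 356) (nat_lit 80) (nat_lit 409) (@Lb.fm (nat_lit 3) t386)))))))))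
noncomputable def l34080 : Lb := (@Lb.d (nat_lit 154) (nat_lit 529) (nat_lit 273) (@Lb.r r1620 (@Lb.r r2442 (@Lb.r r1367 (@Lb.g g7 (@Lb.g g6 (@Lb.g g5 (@Lb.g g4 (@Lb.d (nat_lit 1) (nat_lit 129) (nat_lit 65) (@Lb.fm (nat_lit 9) t2770))))))))))
noncomputable def l34081 : Lb := (@Lb.r r21 (@Lb.r r331 (@Lb.d (nat_lit 169) (nat_lit 4) (nat_lit 2) (@Lb.g g8 (@Lb.g g10 (@Lb.r r409 (@Lb.r r2731 (@Lb.r r1674 (@Lb.d (nat_lit 641) (nat_lit 138) (nat_lit 10) (@Lb.fm (nat_lit 3) t1606))))))))))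
noncomputable def l34082 : Lb := (@Lb.r r68 (@Lb.r r81 (@Lb.d (nat_lit 128) (nat_lit 256) (nat_lit 106) (@Lb.g g10 (@Lb.g g11 (@Lb.r r344 (@Lb.r r519 (@Lb.r r37 (@Lb.d (nat_lit 641) (nat_lit 65) (nat_lit 146) (@Lb.fp (nat_lit 3) t573))))))))))
noncomputable def l34083 : Lb := (@Lb.d (nat_lit 9) (nat_lit 1) (nat_lit 73) (@Lb.g g8 (@Lb.g g9 (@Lb.g g10 (@Lb.g g11 (@Lb.r r2691 (@Lb.r r297 (@Lb.r r648 (@Lb.r r666 (@Lb.r r1156 (@Lb.d (nat_lit 646) (nat_lit 40) (nat_lit 73) (@Lb.fp (nat_lit 9) t668))))))))))))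
noncomputable def l34084 : Lb := (@Lb.d (nat_lit 1) (nat_lit 512) (nat_lit 73) (@Lb.g g8 (@Lb.g g10 (@Lb.g g11 (@Lb.r r2691 (@Lb.r r1642 (@Lb.r r2145 (@Lb.r r24 (@Lb.d (nat_lit 136) (nat_lit 33) (nat_lit 133) (@Lb.t (@Lb.fp (nat_lit 9) t2637)))))))))))
noncomputable def l34085 : Lb := (@Lb.d (nat_lit 9) (nat_lit 513) (nat_lit 73) (@Lb.g g8 (@Lb.g g9 (@Lb.g g10 (@Lb.g g11 (@Lb.r r2691 (@Lb.r r536 (@Lb.r r2197 (@Lb.r r2646 (@Lb.r r164 (@Lb.d (nat_lit 136) (nat_lit 2) (nat_lit 362) (@Lb.fp (nat_lit 9) t991))))))))))))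
noncomputable def l34086 : Lb := (@Lb.r r21 (@Lb.d (nat_lit 129) (nat_lit 512) (nat_lit 130) (@Lb.g g8 (@Lb.g g10 (@Lb.g g11 (@Lb.r r419 (@Lb.r r132 (@Lb.r r2438 (@Lb.r r97 (@Lb.d (nat_lit 354) (nat_lit 24) (nat_lit 354) (@Lb.t (@Lb.fm (nat_lit 9) t3815))))))))))))
noncomputable def l34087 : Lb := (@Lb.d (nat_lit 84) (nat_lit 146) (nat_lit 150) (@Lb.r r1445 (@Lb.r r2712 (@Lb.r r2438 (@Lb.g g7 (@Lb.g g5 (@Lb.g g4 (@Lb.d (nat_lit 8) (nat_lit 4) (nat_lit 324) (@Lb.r r610 (@Lb.t (@Lb.fm (nat_lit 9) t1050)))))))))))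
noncomputable def l34088 : Lb := (@Lb.r r2343 (@Lb.r r2150 (@Lb.r r1065 (@Lb.r r2088 (@Lb.d (nat_lit 130) (nat_lit 401) (nat_lit 256) (@Lb.fp (nat_lit 1) t2831))))))
noncomputable def l34089 : Lb := (@Lb.d (nat_lit 24) (nat_lit 165) (nat_lit 105) (@Lb.r r2455 (@Lb.r r390 (@Lb.r r596 (@Lb.g g7 (@Lb.g g5 (@Lb.d (nat_lit 64) (nat_lit 129) (nat_lit 68) (@Lb.fp (nat_lit 3) t1443))))))))
noncomputable def l34090 : Lb := (@Lb.r r21 (@Lb.r r70 (@Lb.d (nat_lit 610) (nat_lit 0) (nat_lit 0) (@Lb.g g4 (@Lb.r r2454 (@Lb.r r97 (@Lb.d (nat_lit 520) (nat_lit 8) (nat_lit 514) (@Lb.t (@Lb.fm (nat_lit 3) t722)))))))))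
noncomputable def l34091 : Lb := (@Lb.r r21 (@Lb.r r70 (@Lb.d (nat_lit 408) (nat_lit 0) (nat_lit 64) (@Lb.g g4 (@Lb.g g11 (@Lb.r r519 (@Lb.r r402 (@Lb.r r25 (@Lb.d (nat_lit 601) (nat_lit 145) (nat_lit 74) (@Lb.fp (nat_lit 3) t375))))))))))
noncomputable def l34092 : Lb := (@Lb.d (nat_lit 8) (nat_lit 1) (nat_lit 137) (@Lb.g g8 (@Lb.g g9 (@Lb.g g10 (@Lb.g g7 (@Lb.r r386 (@Lb.r r97 (@Lb.r r2584 (@Lb.d (nat_lit 645) (nat_lit 168) (nat_lit 393) (@Lb.fp (nat_lit 9) t996))))))))))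
noncomputable def l34093 : Lb := (@Lb.r r277 (@Lb.r r326 (@Lb.d (nat_lit 409) (nat_lit 0) (nat_lit 128) (@Lb.g g8 (@Lb.g g11 (@Lb.r r101 (@Lb.r r2194 (@Lb.d (nat_lit 609) (nat_lit 128) (nat_lit 512) (@Lb.fm (nat_lit 3) t6091)))))))))
noncomputable def l34094 : Lb := (@Lb.r r21 (@Lb.d (nat_lit 2) (nat_lit 512) (nat_lit 137) (@Lb.g g8 (@Lb.g g10 (@Lb.g g7 (@Lb.r r386 (@Lb.r r1640 (@Lb.r r25 (@Lb.d (nat_lit 610) (nat_lit 80) (nat_lit 661) (@Lb.t (@Lb.fp (nat_lit 9) t1403)))))))))))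
noncomputable def l34095 : Lb := (@Lb.r r21 (@Lb.d (nat_lit 2) (nat_lit 256) (nat_lit 137) (@Lb.g g8 (@Lb.g g10 (@Lb.g g7 (@Lb.r r386 (@Lb.r r1640 (@Lb.r r25 (@Lb.d (nat_lit 608) (nat_lit 80) (nat_lit 661) (@Lb.t (@Lb.fp (nat_lit 9) t6092)))))))))))
noncomputable def l34096 : Lb := (@Lb.d (nat_lit 609) (nat_lit 581) (nat_lit 105) (@Lb.r r97 (@Lb.r r2438 (@Lb.r r1096 (@Lb.r r343 (@Lb.g g7 (@Lb.g g6 (@Lb.g g5 (@Lb.d (nat_lit 0) (nat_lit 1) (nat_lit 65) (@Lb.t (@Lb.fm (nat_lit 9) t4954)))))))))))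
noncomputable def l34097 : Lb := (@Lb.d (nat_lit 609) (nat_lit 64) (nat_lit 104) (@Lb.r r97 (@Lb.r r2438 (@Lb.r r1096 (@Lb.r r343 (@Lb.g g7 (@Lb.g g6 (@Lb.g g5 (@Lb.d (nat_lit 0) (nat_lit 1) (nat_lit 65) (@Lb.t (@Lb.fm (nat_lit 9) t3066)))))))))))
noncomputable def l34098 : Lb := (@Lb.d (nat_lit 522) (nat_lit 258) (nat_lit 128) (@Lb.r r1291 (@Lb.g g8 (@Lb.t (@Lb.fp (nat_lit 3) t997)))))
noncomputable def l34099 : Lb := (@Lb.d (nat_lit 410) (nat_lit 101) (nat_lit 550) (@Lb.r r1044 (@Lb.r r601 (@Lb.r r532 (@Lb.r r2466 (@Lb.g g11 (@Lb.g g6 (@Lb.g g5 (@Lb.g g4 (@Lb.d (nat_lit 1) (nat_lit 1) (nat_lit 129) (@Lb.fp (nat_lit 9) t827)))))))))))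
noncomputable def l34100 : Lb := (@Lb.r r331 (@Lb.d (nat_lit 33) (nat_lit 260) (nat_lit 0) (@Lb.g g8 (@Lb.g g9 (@Lb.g g10 (@Lb.r r2666 (@Lb.r r2635 (@Lb.r r164 (@Lb.r r2469 (@Lb.d (nat_lit 345) (nat_lit 149) (nat_lit 401) (@Lb.t (@Lb.fm (nat_lit 9) t2958))))))))))))
noncomputable def l34101 : Lb := (@Lb.d (nat_lit 144) (nat_lit 521) (nat_lit 73) (@Lb.g g8 (@Lb.g g9 (@Lb.g g10 (@Lb.g g11 (@Lb.r r683 (@Lb.r r2724 (@Lb.r r134 (@Lb.r r97 (@Lb.d (nat_lit 545) (nat_lit 169) (nat_lit 385) (@Lb.fm (nat_lit 9) t1167)))))))))))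
noncomputable def l34102 : Lb := (@Lb.d (nat_lit 405) (nat_lit 602) (nat_lit 410) (@Lb.r r289 (@Lb.r r279 (@Lb.r r612 (@Lb.r r90 (@Lb.g g6 (@Lb.g g5 (@Lb.d (nat_lit 0) (nat_lit 0) (nat_lit 1) (@Lb.r r387 (@Lb.fp (nat_lit 3) t6093))))))))))
noncomputable def l34103 : Lb := (@Lb.d (nat_lit 134) (nat_lit 0) (nat_lit 73) (@Lb.g g8 (@Lb.g g9 (@Lb.g g10 (@Lb.g g11 (@Lb.r r683 (@Lb.r r2724 (@Lb.r r166 (@Lb.r r145 (@Lb.d (nat_lit 521) (nat_lit 2) (nat_lit 426) (@Lb.fp (nat_lit 9) t394)))))))))))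
noncomputable def l34104 : Lb := (@Lb.d (nat_lit 154) (nat_lit 0) (nat_lit 10) (@Lb.g g8 (@Lb.g g10 (@Lb.g g11 (@Lb.r r2443 (@Lb.r r145 (@Lb.r r1434 (@Lb.r r388 (@Lb.d (nat_lit 360) (nat_lit 4) (nat_lit 168) (@Lb.t (@Lb.fp (nat_lit 9) t1446)))))))))))
noncomputable def l34105 : Lb := (@Lb.d (nat_lit 0) (nat_lit 512) (nat_lit 66) (@Lb.g g10 (@Lb.g g11 (@Lb.r r419 (@Lb.r r2438 (@Lb.d (nat_lit 597) (nat_lit 34) (nat_lit 514) (@Lb.fp (nat_lit 3) t6094)))))))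
noncomputable def l34106 : Lb := (@Lb.d (nat_lit 400) (nat_lit 138) (nat_lit 602) (@Lb.r r402 (@Lb.g g11 (@Lb.t (@Lb.fm (nat_lit 3) t4055)))))
noncomputable def l34107 : Lb := (@Lb.d (nat_lit 162) (nat_lit 81) (nat_lit 578) (@Lb.r r1313 (@Lb.r r70 (@Lb.r r2647 (@Lb.g g6 (@Lb.g g5 (@Lb.g g4 (@Lb.d (nat_lit 8) (nat_lit 17) (nat_lit 1) (@Lb.r r387 (@Lb.t (@Lb.fp (nat_lit 9) t6095)))))))))))
noncomputable def l34108 : Lb := (@Lb.r r323 (@Lb.d (nat_lit 10) (nat_lit 8) (nat_lit 22) (@Lb.g g8 (@Lb.g g10 (@Lb.r r1435 (@Lb.r r2581 (@Lb.r r292 (@Lb.d (nat_lit 585) (nat_lit 105) (nat_lit 129) (@Lb.fm (nat_lit 3) t1089)))))))))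
noncomputable def l34109 : Lb := (@Lb.d (nat_lit 0) (nat_lit 261) (nat_lit 130) (@Lb.g g9 (@Lb.g g10 (@Lb.g g11 (@Lb.r r1379 (@Lb.r r1418 (@Lb.r r2728 (@Lb.r r2601 (@Lb.d (nat_lit 74) (nat_lit 16) (nat_lit 64) (@Lb.t (@Lb.fp (nat_lit 9) t813)))))))))))
noncomputable def l34110 : Lb := (@Lb.d (nat_lit 645) (nat_lit 69) (nat_lit 101) (@Lb.r r584 (@Lb.r r390 (@Lb.r r2715 (@Lb.g g9 (@Lb.g g4 (@Lb.d (nat_lit 18) (nat_lit 134) (nat_lit 0) (@Lb.r r98 (@Lb.fm (nat_lit 3) t98)))))))))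
noncomputable def l34111 : Lb := (@Lb.r r82 (@Lb.d (nat_lit 1) (nat_lit 2) (nat_lit 0) (@Lb.g g8 (@Lb.g g9 (@Lb.g g11 (@Lb.r r1307 (@Lb.r r2465 (@Lb.r r98 (@Lb.r r24 (@Lb.d (nat_lit 534) (nat_lit 65) (nat_lit 341) (@Lb.t (@Lb.fm (nat_lit 9) t5043))))))))))))
noncomputable def l34112 : Lb := (@Lb.d (nat_lit 64) (nat_lit 292) (nat_lit 646) (@Lb.r r1284 (@Lb.r r1379 (@Lb.r r1381 (@Lb.r r602 (@Lb.g g4 (@Lb.d (nat_lit 1) (nat_lit 0) (nat_lit 0) (@Lb.t (@Lb.fp (nat_lit 3) t2600)))))))))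
noncomputable def l34113 : Lb := (@Lb.r r86 (@Lb.d (nat_lit 9) (nat_lit 258) (nat_lit 128) (@Lb.g g8 (@Lb.g g9 (@Lb.g g11 (@Lb.r r535 (@Lb.r r2626 (@Lb.r r361 (@Lb.r r2196 (@Lb.d (nat_lit 384) (nat_lit 132) (nat_lit 402) (@Lb.t (@Lb.fm (nat_lit 9) t3804))))))))))))
noncomputable def l34114 : Lb := (@Lb.r r21 (@Lb.r r70 (@Lb.d (nat_lit 129) (nat_lit 512) (nat_lit 128) (@Lb.g g8 (@Lb.g g11 (@Lb.r r2347 (@Lb.r r402 (@Lb.r r97 (@Lb.d (nat_lit 277) (nat_lit 154) (nat_lit 82) (@Lb.fm (nat_lit 3) t34))))))))))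
noncomputable def l34115 : Lb := (@Lb.d (nat_lit 518) (nat_lit 136) (nat_lit 340) (@Lb.r r1045 (@Lb.r r386 (@Lb.r r2391 (@Lb.g g7 (@Lb.g g6 (@Lb.g g5 (@Lb.g g4 (@Lb.d (nat_lit 1) (nat_lit 17) (nat_lit 129) (@Lb.fm (nat_lit 9) t6096))))))))))
noncomputable def l34116 : Lb := (@Lb.d (nat_lit 4) (nat_lit 405) (nat_lit 0) (@Lb.r r24 (@Lb.r r338 (@Lb.r r161 (@Lb.r r1699 (@Lb.g g6 (@Lb.g g5 (@Lb.d (nat_lit 0) (nat_lit 1) (nat_lit 1) (@Lb.r r387 (@Lb.fp (nat_lit 3) t711))))))))))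
noncomputable def l34117 : Lb := (@Lb.d (nat_lit 164) (nat_lit 24) (nat_lit 100) (@Lb.r r596 (@Lb.r r535 (@Lb.r r353 (@Lb.g g7 (@Lb.g g6 (@Lb.g g4 (@Lb.d (nat_lit 5) (nat_lit 16) (nat_lit 133) (@Lb.r r145 (@Lb.t (@Lb.fp (nat_lit 9) t311)))))))))))
noncomputable def l34118 : Lb := (@Lb.r r323 (@Lb.d (nat_lit 2) (nat_lit 2) (nat_lit 1) (@Lb.g g8 (@Lb.g g9 (@Lb.g g10 (@Lb.r r343 (@Lb.r r170 (@Lb.r r2585 (@Lb.r r2564 (@Lb.d (nat_lit 649) (nat_lit 165) (nat_lit 20) (@Lb.t (@Lb.fp (nat_lit 9) t5395))))))))))))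
noncomputable def l34119 : Lb := (@Lb.d (nat_lit 4) (nat_lit 544) (nat_lit 66) (@Lb.g g8 (@Lb.g g9 (@Lb.g g10 (@Lb.g g11 (@Lb.r r618 (@Lb.r r612 (@Lb.r r679 (@Lb.r r1621 (@Lb.r r36 (@Lb.d (nat_lit 9) (nat_lit 73) (nat_lit 356) (@Lb.fm (nat_lit 9) t1606))))))))))))
noncomputable def l34120 : Lb := (@Lb.d (nat_lit 642) (nat_lit 514) (nat_lit 66) (@Lb.g g8 (@Lb.g g9 (@Lb.g g10 (@Lb.g g11 (@Lb.r r1451 (@Lb.r r106 (@Lb.r r25 (@Lb.d (nat_lit 8) (nat_lit 9) (nat_lit 297) (@Lb.fp (nat_lit 9) t2501))))))))))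
noncomputable def l34121 : Lb := (@Lb.d (nat_lit 2) (nat_lit 546) (nat_lit 130) (@Lb.g g8 (@Lb.g g9 (@Lb.g g10 (@Lb.g g11 (@Lb.r r2443 (@Lb.r r104 (@Lb.r r406 (@Lb.r r2661 (@Lb.r r2068 (@Lb.d (nat_lit 533) (nat_lit 73) (nat_lit 356) (@Lb.fm (nat_lit 9) t1606))))))))))))
noncomputable def l34122 : Lb := (@Lb.d (nat_lit 8) (nat_lit 418) (nat_lit 64) (@Lb.g g9 (@Lb.g g11 (@Lb.r r531 (@Lb.d (nat_lit 2) (nat_lit 105) (nat_lit 66) (@Lb.fp (nat_lit 3) t236))))))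
noncomputable def l34123 : Lb := (@Lb.d (nat_lit 1) (nat_lit 421) (nat_lit 294) (@Lb.r r21 (@Lb.r r1366 (@Lb.r r683 (@Lb.g g7 (@Lb.g g6 (@Lb.g g5 (@Lb.g g4 (@Lb.d (nat_lit 1) (nat_lit 8) (nat_lit 0) (@Lb.fm (nat_lit 9) t40))))))))))
noncomputable def l34124 : Lb := (@Lb.g g5 (@Lb.r r1291 (@Lb.r r24 (@Lb.d (nat_lit 586) (nat_lit 290) (nat_lit 384) (@Lb.t (@Lb.fp (nat_lit 3) t1855))))))
noncomputable def l34125 : Lb := (@Lb.r r82 (@Lb.d (nat_lit 0) (nat_lit 258) (nat_lit 128) (@Lb.g g8 (@Lb.g g9 (@Lb.g g11 (@Lb.r r555 (@Lb.r r548 (@Lb.r r165 (@Lb.r r98 (@Lb.d (nat_lit 9) (nat_lit 2) (nat_lit 0) (@Lb.t (@Lb.fm (nat_lit 9) t5))))))))))))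
noncomputable def l34126 : Lb := (@Lb.d (nat_lit 0) (nat_lit 5) (nat_lit 0) (@Lb.g g8 (@Lb.g g5 (@Lb.r r402 (@Lb.d (nat_lit 0) (nat_lit 1) (nat_lit 132) (@Lb.fm (nat_lit 3) t311))))))
noncomputable def l34127 : Lb := (@Lb.d (nat_lit 32) (nat_lit 256) (nat_lit 2) (@Lb.g g6 (@Lb.r r648 (@Lb.r r683 (@Lb.r r1370 (@Lb.r r609 (@Lb.d (nat_lit 545) (nat_lit 10) (nat_lit 102) (@Lb.t (@Lb.fp (nat_lit 3) t479)))))))))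
noncomputable def l34128 : Lb := (@Lb.d (nat_lit 0) (nat_lit 5) (nat_lit 0) (@Lb.g g5 (@Lb.r r402 (@Lb.d (nat_lit 0) (nat_lit 1) (nat_lit 132) (@Lb.t (@Lb.fp (nat_lit 3) t311))))))
noncomputable def l34129 : Lb := (@Lb.d (nat_lit 6) (nat_lit 288) (nat_lit 5) (@Lb.r r1313 (@Lb.r r323 (@Lb.r r598 (@Lb.g g6 (@Lb.g g5 (@Lb.g g4 (@Lb.d (nat_lit 1) (nat_lit 6) (nat_lit 2) (@Lb.r r387 (@Lb.t (@Lb.fm (nat_lit 9) t3916)))))))))))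
noncomputable def l34130 : Lb := (@Lb.d (nat_lit 4) (nat_lit 1) (nat_lit 0) (@Lb.g g5 (@Lb.r r1319 (@Lb.r r1126 (@Lb.r r24 (@Lb.d (nat_lit 68) (nat_lit 65) (nat_lit 512) (@Lb.t (@Lb.fp (nat_lit 3) t1025))))))))
noncomputable def l34131 : Lb := (@Lb.d (nat_lit 0) (nat_lit 514) (nat_lit 0) (@Lb.g g9 (@Lb.g g10 (@Lb.r r97 (@Lb.r r402 (@Lb.d (nat_lit 0) (nat_lit 0) (nat_lit 66) (@Lb.fm (nat_lit 3) t311)))))))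
noncomputable def l34132 : Lb := (@Lb.d (nat_lit 0) (nat_lit 5) (nat_lit 0) (@Lb.g g5 (@Lb.d (nat_lit 5) (nat_lit 89) (nat_lit 522) (@Lb.t (@Lb.fm (nat_lit 3) t6097)))))
noncomputable def l34133 : Lb := (@Lb.r r1045 (@Lb.d (nat_lit 1) (nat_lit 512) (nat_lit 2) (@Lb.g g8 (@Lb.g g10 (@Lb.g g11 (@Lb.r r2379 (@Lb.r r386 (@Lb.r r72 (@Lb.d (nat_lit 290) (nat_lit 0) (nat_lit 70) (@Lb.t (@Lb.fm (nat_lit 9) t873)))))))))))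
noncomputable def l34134 : Lb := (@Lb.d (nat_lit 129) (nat_lit 514) (nat_lit 64) (@Lb.g g8 (@Lb.g g9 (@Lb.g g11 (@Lb.r r681 (@Lb.r r299 (@Lb.r r1606 (@Lb.r r392 (@Lb.d (nat_lit 582) (nat_lit 74) (nat_lit 329) (@Lb.t (@Lb.fm (nat_lit 9) t1423)))))))))))
noncomputable def l34135 : Lb := (@Lb.r r20 (@Lb.d (nat_lit 4) (nat_lit 161) (nat_lit 133) (@Lb.g g9 (@Lb.g g10 (@Lb.g g11 (@Lb.r r2475 (@Lb.r r2402 (@Lb.r r8 (@Lb.d (nat_lit 290) (nat_lit 105) (nat_lit 293) (@Lb.t (@Lb.fp (nat_lit 9) t4391)))))))))))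
noncomputable def l34136 : Lb := (@Lb.d (nat_lit 0) (nat_lit 264) (nat_lit 130) (@Lb.g g10 (@Lb.g g11 (@Lb.r r353 (@Lb.r r663 (@Lb.r r328 (@Lb.r r134 (@Lb.d (nat_lit 601) (nat_lit 134) (nat_lit 530) (@Lb.fm (nat_lit 3) t4165)))))))))
noncomputable def l34137 : Lb := (@Lb.d (nat_lit 136) (nat_lit 258) (nat_lit 0) (@Lb.g g5 (@Lb.g g11 (@Lb.r r168 (@Lb.r r2729 (@Lb.r r355 (@Lb.r r2178 (@Lb.d (nat_lit 641) (nat_lit 34) (nat_lit 36) (@Lb.fm (nat_lit 3) t229)))))))))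
noncomputable def l34138 : Lb := (@Lb.g g11 (@Lb.r r101 (@Lb.d (nat_lit 256) (nat_lit 90) (nat_lit 282) (@Lb.t (@Lb.fm (nat_lit 3) t1174)))))
noncomputable def l34139 : Lb := (@Lb.d (nat_lit 148) (nat_lit 256) (nat_lit 128) (@Lb.g g8 (@Lb.g g9 (@Lb.g g10 (@Lb.g g11 (@Lb.r r1706 (@Lb.r r2475 (@Lb.r r2201 (@Lb.r r408 (@Lb.d (nat_lit 153) (nat_lit 169) (nat_lit 650) (@Lb.fp (nat_lit 9) t5537)))))))))))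
noncomputable def l34140 : Lb := (@Lb.d (nat_lit 384) (nat_lit 256) (nat_lit 325) (@Lb.r r2120 (@Lb.r r106 (@Lb.r r601 (@Lb.r r1559 (@Lb.g g8 (@Lb.r r74 (@Lb.r r25 (@Lb.t (@Lb.fp (nat_lit 3) t3420))))))))))
noncomputable def l34141 : Lb := (@Lb.d (nat_lit 130) (nat_lit 514) (nat_lit 2) (@Lb.g g8 (@Lb.g g9 (@Lb.g g10 (@Lb.r r2691 (@Lb.r r1194 (@Lb.r r2337 (@Lb.r r152 (@Lb.d (nat_lit 665) (nat_lit 98) (nat_lit 64) (@Lb.t (@Lb.fm (nat_lit 9) t242)))))))))))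
noncomputable def l34142 : Lb := (@Lb.r r21 (@Lb.d (nat_lit 10) (nat_lit 0) (nat_lit 2) (@Lb.g g8 (@Lb.g g10 (@Lb.r r667 (@Lb.r r2405 (@Lb.r r1178 (@Lb.r r1156 (@Lb.d (nat_lit 340) (nat_lit 1) (nat_lit 337) (@Lb.fp (nat_lit 3) t284))))))))))
noncomputable def l34143 : Lb := (@Lb.r r21 (@Lb.d (nat_lit 386) (nat_lit 512) (nat_lit 130) (@Lb.g g8 (@Lb.g g10 (@Lb.g g11 (@Lb.r r1451 (@Lb.r r106 (@Lb.r r97 (@Lb.d (nat_lit 21) (nat_lit 2) (nat_lit 394) (@Lb.t (@Lb.fp (nat_lit 9) t827)))))))))))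
noncomputable def l34144 : Lb := (@Lb.d (nat_lit 9) (nat_lit 256) (nat_lit 0) (@Lb.g g8 (@Lb.g g7 (@Lb.d (nat_lit 0) (nat_lit 2) (nat_lit 64) (@Lb.fp (nat_lit 3) t2)))))
noncomputable def l34145 : Lb := (@Lb.d (nat_lit 129) (nat_lit 256) (nat_lit 128) (@Lb.g g8 (@Lb.g g11 (@Lb.r r520 (@Lb.r r2587 (@Lb.r r1540 (@Lb.d (nat_lit 70) (nat_lit 82) (nat_lit 128) (@Lb.fm (nat_lit 3) t828))))))))
noncomputable def l34146 : Lb := (@Lb.d (nat_lit 9) (nat_lit 0) (nat_lit 0) (@Lb.g g8 (@Lb.g g7 (@Lb.d (nat_lit 9) (nat_lit 130) (nat_lit 64) (@Lb.fp (nat_lit 3) t2)))))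
noncomputable def l34147 : Lb := (@Lb.d (nat_lit 1) (nat_lit 514) (nat_lit 66) (@Lb.g g8 (@Lb.g g9 (@Lb.g g10 (@Lb.g g7 (@Lb.r r386 (@Lb.r r1641 (@Lb.r r36 (@Lb.d (nat_lit 617) (nat_lit 82) (nat_lit 661) (@Lb.fm (nat_lit 9) t1403))))))))))
noncomputable def l34148 : Lb := (@Lb.r r21 (@Lb.d (nat_lit 41) (nat_lit 256) (nat_lit 137) (@Lb.g g8 (@Lb.g g10 (@Lb.g g11 (@Lb.r r2721 (@Lb.r r2667 (@Lb.r r138 (@Lb.r r1348 (@Lb.d (nat_lit 42) (nat_lit 128) (nat_lit 106) (@Lb.t (@Lb.fp (nat_lit 9) t125))))))))))))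
noncomputable def l34149 : Lb := (@Lb.r r21 (@Lb.d (nat_lit 33) (nat_lit 512) (nat_lit 1) (@Lb.g g8 (@Lb.g g10 (@Lb.r r651 (@Lb.r r293 (@Lb.r r644 (@Lb.r r614 (@Lb.d (nat_lit 149) (nat_lit 32) (nat_lit 134) (@Lb.fm (nat_lit 3) t264))))))))))
noncomputable def l34150 : Lb := (@Lb.d (nat_lit 1) (nat_lit 258) (nat_lit 73) (@Lb.g g8 (@Lb.g g9 (@Lb.g g10 (@Lb.g g11 (@Lb.r r610 (@Lb.r r1607 (@Lb.r r40 (@Lb.r r105 (@Lb.r r2084 (@Lb.d (nat_lit 421) (nat_lit 154) (nat_lit 593) (@Lb.fm (nat_lit 9) t490))))))))))))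
noncomputable def l34151 : Lb := (@Lb.d (nat_lit 544) (nat_lit 0) (nat_lit 97) (@Lb.r r24 (@Lb.r r101 (@Lb.r r2466 (@Lb.r r1555 (@Lb.g g7 (@Lb.g g6 (@Lb.g g5 (@Lb.d (nat_lit 0) (nat_lit 5) (nat_lit 132) (@Lb.t (@Lb.fp (nat_lit 9) t719)))))))))))
noncomputable def l34152 : Lb := (@Lb.d (nat_lit 146) (nat_lit 514) (nat_lit 66) (@Lb.g g8 (@Lb.g g9 (@Lb.g g10 (@Lb.g g11 (@Lb.r r2323 (@Lb.r r1681 (@Lb.r r356 (@Lb.r r1178 (@Lb.r r2180 (@Lb.d (nat_lit 641) (nat_lit 137) (nat_lit 617) (@Lb.fm (nat_lit 9) t2670))))))))))))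
noncomputable def l34153 : Lb := (@Lb.d (nat_lit 257) (nat_lit 345) (nat_lit 581) (@Lb.r r1444 (@Lb.r r2665 (@Lb.r r2406 (@Lb.g g7 (@Lb.g g6 (@Lb.g g4 (@Lb.d (nat_lit 18) (nat_lit 0) (nat_lit 1) (@Lb.r r25 (@Lb.t (@Lb.fm (nat_lit 9) t5541)))))))))))
noncomputable def l34154 : Lb := (@Lb.d (nat_lit 1) (nat_lit 2) (nat_lit 73) (@Lb.g g8 (@Lb.g g9 (@Lb.g g10 (@Lb.g g11 (@Lb.r r2691 (@Lb.r r297 (@Lb.r r648 (@Lb.r r666 (@Lb.r r1156 (@Lb.d (nat_lit 645) (nat_lit 40) (nat_lit 137) (@Lb.fp (nat_lit 9) t259))))))))))))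
noncomputable def l34155 : Lb := (@Lb.d (nat_lit 148) (nat_lit 512) (nat_lit 64) (@Lb.g g8 (@Lb.g g9 (@Lb.g g10 (@Lb.g g11 (@Lb.r r2327 (@Lb.r r1194 (@Lb.r r2657 (@Lb.r r1048 (@Lb.d (nat_lit 584) (nat_lit 153) (nat_lit 645) (@Lb.fm (nat_lit 9) t6098)))))))))))
noncomputable def l34156 : Lb := (@Lb.d (nat_lit 146) (nat_lit 258) (nat_lit 66) (@Lb.g g8 (@Lb.g g9 (@Lb.g g10 (@Lb.g g11 (@Lb.r r2323 (@Lb.r r1681 (@Lb.r r356 (@Lb.r r1178 (@Lb.r r2180 (@Lb.d (nat_lit 641) (nat_lit 130) (nat_lit 618) (@Lb.fm (nat_lit 9) t6099))))))))))))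
noncomputable def l34157 : Lb := (@Lb.d (nat_lit 4) (nat_lit 614) (nat_lit 594) (@Lb.r r24 (@Lb.r r145 (@Lb.r r2658 (@Lb.g g11 (@Lb.g g5 (@Lb.d (nat_lit 0) (nat_lit 18) (nat_lit 264) (@Lb.r r578 (@Lb.fm (nat_lit 3) t1027)))))))))
noncomputable def l34158 : Lb := (@Lb.d (nat_lit 4) (nat_lit 288) (nat_lit 74) (@Lb.g g8 (@Lb.g g10 (@Lb.g g11 (@Lb.r r1682 (@Lb.r r353 (@Lb.r r2707 (@Lb.d (nat_lit 322) (nat_lit 152) (nat_lit 420) (@Lb.t (@Lb.fp (nat_lit 9) t3352))))))))))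
noncomputable def l34159 : Lb := (@Lb.d (nat_lit 644) (nat_lit 128) (nat_lit 258) (@Lb.r r20 (@Lb.r r289 (@Lb.r r539 (@Lb.r r644 (@Lb.g g10 (@Lb.d (nat_lit 32) (nat_lit 0) (nat_lit 1) (@Lb.t (@Lb.fp (nat_lit 3) t1257)))))))))
noncomputable def l34160 : Lb := (@Lb.r r327 (@Lb.d (nat_lit 36) (nat_lit 514) (nat_lit 2) (@Lb.g g8 (@Lb.g g9 (@Lb.g g10 (@Lb.r r618 (@Lb.r r2635 (@Lb.r r2084 (@Lb.r r2341 (@Lb.d (nat_lit 68) (nat_lit 33) (nat_lit 128) (@Lb.t (@Lb.fm (nat_lit 9) t6100))))))))))))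
noncomputable def l34161 : Lb := (@Lb.r r70 (@Lb.r r263 (@Lb.d (nat_lit 549) (nat_lit 2) (nat_lit 0) (@Lb.g g8 (@Lb.g g9 (@Lb.r r2454 (@Lb.r r2627 (@Lb.r r1049 (@Lb.d (nat_lit 521) (nat_lit 18) (nat_lit 576) (@Lb.fm (nat_lit 3) t898))))))))))
noncomputable def l34162 : Lb := (@Lb.d (nat_lit 9) (nat_lit 256) (nat_lit 73) (@Lb.g g8 (@Lb.g g10 (@Lb.g g11 (@Lb.r r1575 (@Lb.r r597 (@Lb.r r98 (@Lb.r r2436 (@Lb.d (nat_lit 612) (nat_lit 138) (nat_lit 522) (@Lb.t (@Lb.fp (nat_lit 9) t1057)))))))))))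
noncomputable def l34163 : Lb := (@Lb.r r21 (@Lb.r r70 (@Lb.d (nat_lit 66) (nat_lit 256) (nat_lit 64) (@Lb.g g8 (@Lb.g g11 (@Lb.r r583 (@Lb.r r2374 (@Lb.r r2325 (@Lb.r r1544 (@Lb.d (nat_lit 288) (nat_lit 5) (nat_lit 98) (@Lb.fm (nat_lit 3) t742)))))))))))
noncomputable def l34164 : Lb := (@Lb.d (nat_lit 41) (nat_lit 512) (nat_lit 64) (@Lb.g g8 (@Lb.g g11 (@Lb.r r1639 (@Lb.r r614 (@Lb.r r1637 (@Lb.r r1428 (@Lb.d (nat_lit 358) (nat_lit 85) (nat_lit 296) (@Lb.fm (nat_lit 3) t188)))))))))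
noncomputable def l34165 : Lb := (@Lb.d (nat_lit 2) (nat_lit 265) (nat_lit 66) (@Lb.g g8 (@Lb.g g9 (@Lb.g g10 (@Lb.g g7 (@Lb.r r1706 (@Lb.r r2457 (@Lb.r r2436 (@Lb.d (nat_lit 617) (nat_lit 97) (nat_lit 98) (@Lb.fp (nat_lit 9) t3359))))))))))
noncomputable def l34166 : Lb := (@Lb.d (nat_lit 137) (nat_lit 544) (nat_lit 128) (@Lb.g g8 (@Lb.g g11 (@Lb.r r2449 (@Lb.r r2663 (@Lb.r r2404 (@Lb.d (nat_lit 65) (nat_lit 0) (nat_lit 400) (@Lb.fp (nat_lit 3) t6101))))))))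
noncomputable def l34167 : Lb := (@Lb.r r82 (@Lb.d (nat_lit 34) (nat_lit 258) (nat_lit 64) (@Lb.g g8 (@Lb.g g9 (@Lb.g g7 (@Lb.r r2409 (@Lb.r r150 (@Lb.r r72 (@Lb.d (nat_lit 34) (nat_lit 144) (nat_lit 281) (@Lb.t (@Lb.fm (nat_lit 9) t3711)))))))))))
noncomputable def l34168 : Lb := (@Lb.r r273 (@Lb.r r322 (@Lb.d (nat_lit 2) (nat_lit 0) (nat_lit 320) (@Lb.g g8 (@Lb.g g7 (@Lb.r r280 (@Lb.r r101 (@Lb.r r146 (@Lb.d (nat_lit 0) (nat_lit 129) (nat_lit 545) (@Lb.fm (nat_lit 3) t6102))))))))))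
noncomputable def l34169 : Lb := (@Lb.r r21 (@Lb.d (nat_lit 128) (nat_lit 544) (nat_lit 386) (@Lb.g g8 (@Lb.g g10 (@Lb.g g11 (@Lb.r r362 (@Lb.r r2337 (@Lb.r r1108 (@Lb.d (nat_lit 81) (nat_lit 0) (nat_lit 674) (@Lb.t (@Lb.fp (nat_lit 9) t3714)))))))))))
noncomputable def l34170 : Lb := (@Lb.d (nat_lit 144) (nat_lit 513) (nat_lit 518) (@Lb.r r386 (@Lb.r r2375 (@Lb.r r1560 (@Lb.g g7 (@Lb.g g6 (@Lb.g g5 (@Lb.d (nat_lit 4) (nat_lit 80) (nat_lit 65) (@Lb.r r36 (@Lb.t (@Lb.fp (nat_lit 9) t6103)))))))))))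
noncomputable def l34171 : Lb := (@Lb.r r82 (@Lb.r r275 (@Lb.d (nat_lit 34) (nat_lit 520) (nat_lit 0) (@Lb.g g8 (@Lb.g g9 (@Lb.r r427 (@Lb.r r582 (@Lb.r r408 (@Lb.d (nat_lit 154) (nat_lit 154) (nat_lit 9) (@Lb.fp (nat_lit 3) t6104))))))))))
noncomputable def l34172 : Lb := (@Lb.d (nat_lit 132) (nat_lit 512) (nat_lit 130) (@Lb.g g8 (@Lb.g g9 (@Lb.g g10 (@Lb.g g11 (@Lb.r r2666 (@Lb.r r612 (@Lb.r r1319 (@Lb.r r405 (@Lb.r r2084 (@Lb.d (nat_lit 618) (nat_lit 137) (nat_lit 169) (@Lb.fp (nat_lit 9) t6105))))))))))))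
noncomputable def l34173 : Lb := (@Lb.r r21 (@Lb.d (nat_lit 384) (nat_lit 512) (nat_lit 66) (@Lb.g g4 (@Lb.g g10 (@Lb.g g11 (@Lb.r r519 (@Lb.r r386 (@Lb.r r25 (@Lb.d (nat_lit 642) (nat_lit 0) (nat_lit 73) (@Lb.t (@Lb.fp (nat_lit 9) t1335)))))))))))
noncomputable def l34174 : Lb := (@Lb.d (nat_lit 129) (nat_lit 514) (nat_lit 130) (@Lb.g g8 (@Lb.g g9 (@Lb.g g10 (@Lb.g g11 (@Lb.r r2459 (@Lb.r r1177 (@Lb.r r1626 (@Lb.r r1604 (@Lb.d (nat_lit 152) (nat_lit 130) (nat_lit 581) (@Lb.fp (nat_lit 9) t2742)))))))))))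
noncomputable def l34175 : Lb := (@Lb.r r323 (@Lb.d (nat_lit 2) (nat_lit 514) (nat_lit 1) (@Lb.g g8 (@Lb.g g9 (@Lb.g g10 (@Lb.r r587 (@Lb.r r297 (@Lb.r r612 (@Lb.r r330 (@Lb.d (nat_lit 81) (nat_lit 74) (nat_lit 146) (@Lb.t (@Lb.fm (nat_lit 9) t6106))))))))))))
noncomputable def l34176 : Lb := (@Lb.d (nat_lit 6) (nat_lit 256) (nat_lit 0) (@Lb.g g8 (@Lb.g g9 (@Lb.r r1576 (@Lb.r r25 (@Lb.d (nat_lit 578) (nat_lit 146) (nat_lit 640) (@Lb.fp (nat_lit 3) t6107)))))))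
noncomputable def l34177 : Lb := (@Lb.d (nat_lit 133) (nat_lit 10) (nat_lit 385) (@Lb.g g8 (@Lb.g g9 (@Lb.g g10 (@Lb.g g11 (@Lb.r r657 (@Lb.r r146 (@Lb.r r292 (@Lb.d (nat_lit 72) (nat_lit 5) (nat_lit 584) (@Lb.fm (nat_lit 9) t6108))))))))))
noncomputable def l34178 : Lb := (@Lb.d (nat_lit 2) (nat_lit 258) (nat_lit 130) (@Lb.g g8 (@Lb.g g9 (@Lb.g g10 (@Lb.g g11 (@Lb.r r1426 (@Lb.r r1371 (@Lb.r r2457 (@Lb.r r2436 (@Lb.d (nat_lit 666) (nat_lit 8) (nat_lit 393) (@Lb.fm (nat_lit 9) t2103)))))))))))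
noncomputable def l34179 : Lb := (@Lb.d (nat_lit 98) (nat_lit 514) (nat_lit 4) (@Lb.g g8 (@Lb.g g9 (@Lb.g g10 (@Lb.g g11 (@Lb.r r1642 (@Lb.r r2631 (@Lb.r r2152 (@Lb.r r25 (@Lb.d (nat_lit 129) (nat_lit 1) (nat_lit 85) (@Lb.fp (nat_lit 9) t3407)))))))))))
noncomputable def l34180 : Lb := (@Lb.d (nat_lit 130) (nat_lit 258) (nat_lit 2) (@Lb.g g8 (@Lb.g g9 (@Lb.g g10 (@Lb.r r1623 (@Lb.r r426 (@Lb.r r345 (@Lb.r r324 (@Lb.d (nat_lit 649) (nat_lit 9) (nat_lit 594) (@Lb.t (@Lb.fm (nat_lit 9) t6109)))))))))))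
noncomputable def l34181 : Lb := (@Lb.d (nat_lit 2) (nat_lit 2) (nat_lit 130) (@Lb.g g8 (@Lb.g g9 (@Lb.g g10 (@Lb.g g11 (@Lb.r r1426 (@Lb.r r1371 (@Lb.r r2457 (@Lb.r r2436 (@Lb.d (nat_lit 664) (nat_lit 8) (nat_lit 393) (@Lb.fm (nat_lit 9) t2103)))))))))))
noncomputable def l34182 : Lb := (@Lb.d (nat_lit 4) (nat_lit 512) (nat_lit 73) (@Lb.g g8 (@Lb.g g9 (@Lb.g g10 (@Lb.g g11 (@Lb.r r2691 (@Lb.r r1434 (@Lb.r r297 (@Lb.r r1128 (@Lb.d (nat_lit 278) (nat_lit 170) (nat_lit 617) (@Lb.fp (nat_lit 9) t6110)))))))))))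
noncomputable def l34183 : Lb := (@Lb.d (nat_lit 38) (nat_lit 517) (nat_lit 128) (@Lb.g g8 (@Lb.g g9 (@Lb.g g10 (@Lb.g g11 (@Lb.r r1707 (@Lb.r r1386 (@Lb.r r1561 (@Lb.r r1540 (@Lb.d (nat_lit 393) (nat_lit 25) (nat_lit 74) (@Lb.fm (nat_lit 9) t3918)))))))))))
noncomputable def l34184 : Lb := (@Lb.d (nat_lit 0) (nat_lit 256) (nat_lit 136) (@Lb.g g11 (@Lb.r r1114 (@Lb.r r1369 (@Lb.r r1124 (@Lb.d (nat_lit 529) (nat_lit 154) (nat_lit 544) (@Lb.t (@Lb.fp (nat_lit 3) t6111))))))))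
noncomputable def l34185 : Lb := (@Lb.d (nat_lit 106) (nat_lit 294) (nat_lit 528) (@Lb.r r2088 (@Lb.r r1065 (@Lb.r r1114 (@Lb.g g7 (@Lb.t (@Lb.fm (nat_lit 3) t6112)))))))
noncomputable def l34186 : Lb := (@Lb.d (nat_lit 4) (nat_lit 513) (nat_lit 128) (@Lb.g g8 (@Lb.g g9 (@Lb.g g11 (@Lb.r r548 (@Lb.r r1383 (@Lb.r r2178 (@Lb.r r341 (@Lb.r r1060 (@Lb.d (nat_lit 610) (nat_lit 136) (nat_lit 421) (@Lb.t (@Lb.fp (nat_lit 9) t229))))))))))))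
noncomputable def l34187 : Lb := (@Lb.d (nat_lit 170) (nat_lit 6) (nat_lit 336) (@Lb.r r2344 (@Lb.r r1321 (@Lb.r r1370 (@Lb.g g7 (@Lb.g g4 (@Lb.d (nat_lit 66) (nat_lit 0) (nat_lit 576) (@Lb.fm (nat_lit 3) t6113))))))))
noncomputable def l34188 : Lb := (@Lb.d (nat_lit 0) (nat_lit 4) (nat_lit 128) (@Lb.g g9 (@Lb.g g10 (@Lb.g g11 (@Lb.r r1419 (@Lb.r r1412 (@Lb.r r422 (@Lb.r r145 (@Lb.d (nat_lit 74) (nat_lit 162) (nat_lit 530) (@Lb.t (@Lb.fp (nat_lit 9) t745)))))))))))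
noncomputable def l34189 : Lb := (@Lb.d (nat_lit 134) (nat_lit 256) (nat_lit 130) (@Lb.g g8 (@Lb.g g9 (@Lb.g g10 (@Lb.g g11 (@Lb.r r1706 (@Lb.r r1411 (@Lb.r r1177 (@Lb.r r1156 (@Lb.d (nat_lit 297) (nat_lit 89) (nat_lit 665) (@Lb.fm (nat_lit 9) t773)))))))))))
noncomputable def l34190 : Lb := (@Lb.r r21 (@Lb.d (nat_lit 2) (nat_lit 0) (nat_lit 2) (@Lb.g g8 (@Lb.g g10 (@Lb.g g7 (@Lb.r r386 (@Lb.r r1640 (@Lb.r r25 (@Lb.d (nat_lit 612) (nat_lit 81) (nat_lit 661) (@Lb.t (@Lb.fp (nat_lit 9) t1403)))))))))))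
noncomputable def l34191 : Lb := (@Lb.d (nat_lit 256) (nat_lit 512) (nat_lit 0) (@Lb.r r2311 (@Lb.g g4 (@Lb.t (@Lb.fm (nat_lit 3) t3367)))))
noncomputable def l34192 : Lb := (@Lb.d (nat_lit 8) (nat_lit 514) (nat_lit 130) (@Lb.g g9 (@Lb.g g10 (@Lb.g g11 (@Lb.r r419 (@Lb.r r98 (@Lb.r r24 (@Lb.r r101 (@Lb.d (nat_lit 20) (nat_lit 85) (nat_lit 422) (@Lb.t (@Lb.fm (nat_lit 9) t1080)))))))))))
noncomputable def l34193 : Lb := (@Lb.d (nat_lit 0) (nat_lit 514) (nat_lit 130) (@Lb.g g9 (@Lb.g g10 (@Lb.g g11 (@Lb.r r427 (@Lb.r r424 (@Lb.r r106 (@Lb.r r25 (@Lb.d (nat_lit 521) (nat_lit 2) (nat_lit 169) (@Lb.t (@Lb.fp (nat_lit 9) t1231)))))))))))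
noncomputable def l34194 : Lb := (@Lb.r r2311 (@Lb.r r664 (@Lb.r r154 (@Lb.r r2133 (@Lb.r r164 (@Lb.d (nat_lit 1) (nat_lit 512) (nat_lit 16) (@Lb.fp (nat_lit 1) t386)))))))
noncomputable def l34195 : Lb := (@Lb.d (nat_lit 4) (nat_lit 513) (nat_lit 128) (@Lb.g g8 (@Lb.g g9 (@Lb.g g11 (@Lb.r r1666 (@Lb.r r387 (@Lb.r r1561 (@Lb.d (nat_lit 585) (nat_lit 2) (nat_lit 88) (@Lb.t (@Lb.fp (nat_lit 9) t1035))))))))))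
noncomputable def l34196 : Lb := (@Lb.r r82 (@Lb.d (nat_lit 2) (nat_lit 258) (nat_lit 136) (@Lb.g g8 (@Lb.g g9 (@Lb.g g11 (@Lb.r r618 (@Lb.r r596 (@Lb.r r297 (@Lb.r r411 (@Lb.d (nat_lit 96) (nat_lit 149) (nat_lit 324) (@Lb.t (@Lb.fp (nat_lit 9) t6114))))))))))))
noncomputable def l34197 : Lb := (@Lb.d (nat_lit 2) (nat_lit 0) (nat_lit 129) (@Lb.g g8 (@Lb.g g9 (@Lb.g g10 (@Lb.g g11 (@Lb.r r618 (@Lb.r r1643 (@Lb.r r1633 (@Lb.r r24 (@Lb.d (nat_lit 533) (nat_lit 152) (nat_lit 416) (@Lb.fm (nat_lit 9) t4187)))))))))))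
noncomputable def l34198 : Lb := (@Lb.g g9 (@Lb.g g6 (@Lb.r r2579 (@Lb.r r2341 (@Lb.r r1620 (@Lb.r r2442 (@Lb.d (nat_lit 322) (nat_lit 256) (nat_lit 0) (@Lb.fm (nat_lit 3) t2911))))))))
noncomputable def l34199 : Lb := (@Lb.d (nat_lit 33) (nat_lit 258) (nat_lit 73) (@Lb.g g8 (@Lb.g g9 (@Lb.g g10 (@Lb.g g11 (@Lb.r r1707 (@Lb.r r2390 (@Lb.r r1561 (@Lb.r r1540 (@Lb.d (nat_lit 393) (nat_lit 74) (nat_lit 640) (@Lb.fm (nat_lit 9) t128)))))))))))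
noncomputable def l34200 : Lb := (@Lb.d (nat_lit 426) (nat_lit 266) (nat_lit 353) (@Lb.r r148 (@Lb.r r2337 (@Lb.r r2406 (@Lb.g g7 (@Lb.g g6 (@Lb.g g4 (@Lb.d (nat_lit 66) (nat_lit 16) (nat_lit 577) (@Lb.r r25 (@Lb.t (@Lb.fm (nat_lit 9) t2578)))))))))))
noncomputable def l34201 : Lb := (@Lb.d (nat_lit 402) (nat_lit 421) (nat_lit 678) (@Lb.r r1044 (@Lb.r r601 (@Lb.r r532 (@Lb.r r2466 (@Lb.g g11 (@Lb.g g6 (@Lb.g g5 (@Lb.g g4 (@Lb.d (nat_lit 0) (nat_lit 6) (nat_lit 130) (@Lb.fp (nat_lit 9) t1702)))))))))))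
noncomputable def l34202 : Lb := (@Lb.r r331 (@Lb.d (nat_lit 645) (nat_lit 544) (nat_lit 0) (@Lb.g g8 (@Lb.g g9 (@Lb.g g10 (@Lb.r r2474 (@Lb.r r595 (@Lb.r r1313 (@Lb.d (nat_lit 102) (nat_lit 138) (nat_lit 162) (@Lb.t (@Lb.fp (nat_lit 9) t6115)))))))))))
noncomputable def l34203 : Lb := (@Lb.r r331 (@Lb.d (nat_lit 36) (nat_lit 256) (nat_lit 2) (@Lb.g g8 (@Lb.g g9 (@Lb.g g10 (@Lb.r r1675 (@Lb.r r613 (@Lb.r r666 (@Lb.r r84 (@Lb.d (nat_lit 618) (nat_lit 18) (nat_lit 389) (@Lb.t (@Lb.fp (nat_lit 9) t270))))))))))))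
noncomputable def l34204 : Lb := (@Lb.d (nat_lit 136) (nat_lit 390) (nat_lit 337) (@Lb.r r1172 (@Lb.r r665 (@Lb.r r2406 (@Lb.g g7 (@Lb.g g6 (@Lb.g g4 (@Lb.d (nat_lit 96) (nat_lit 16) (nat_lit 640) (@Lb.r r25 (@Lb.t (@Lb.fp (nat_lit 9) t6116)))))))))))
noncomputable def l34205 : Lb := (@Lb.r r21 (@Lb.r r70 (@Lb.g g4 (@Lb.r r299 (@Lb.r r2401 (@Lb.r r86 (@Lb.r r2120 (@Lb.d (nat_lit 66) (nat_lit 512) (nat_lit 512) (@Lb.t (@Lb.fm (nat_lit 3) t929))))))))))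
noncomputable def l34206 : Lb := (@Lb.d (nat_lit 389) (nat_lit 1) (nat_lit 128) (@Lb.r r2584 (@Lb.r r322 (@Lb.r r1691 (@Lb.r r1381 (@Lb.g g6 (@Lb.g g9 (@Lb.g g4 (@Lb.r r387 (@Lb.t (@Lb.fp (nat_lit 9) t3100)))))))))))
noncomputable def l34207 : Lb := (@Lb.d (nat_lit 330) (nat_lit 337) (nat_lit 576) (@Lb.r r2584 (@Lb.g g7 (@Lb.g g9 (@Lb.g g4 (@Lb.d (nat_lit 1) (nat_lit 0) (nat_lit 0) (@Lb.t (@Lb.fp (nat_lit 9) t6117))))))))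
noncomputable def l34208 : Lb := (@Lb.d (nat_lit 0) (nat_lit 296) (nat_lit 297) (@Lb.r r2438 (@Lb.r r2395 (@Lb.r r2388 (@Lb.g g7 (@Lb.g g5 (@Lb.d (nat_lit 8) (nat_lit 145) (nat_lit 128) (@Lb.r r98 (@Lb.fp (nat_lit 3) t278)))))))))
noncomputable def l34209 : Lb := (@Lb.d (nat_lit 517) (nat_lit 161) (nat_lit 72) (@Lb.r r24 (@Lb.r r1383 (@Lb.r r2389 (@Lb.g g6 (@Lb.g g4 (@Lb.d (nat_lit 2) (nat_lit 8) (nat_lit 32) (@Lb.r r387 (@Lb.fp (nat_lit 3) t3595)))))))))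
noncomputable def l34210 : Lb := (@Lb.d (nat_lit 330) (nat_lit 84) (nat_lit 576) (@Lb.r r2584 (@Lb.r r97 (@Lb.g g7 (@Lb.g g10 (@Lb.g g5 (@Lb.g g4 (@Lb.d (nat_lit 1) (nat_lit 1) (nat_lit 0) (@Lb.fm (nat_lit 9) t6118)))))))))
noncomputable def l34211 : Lb := (@Lb.d (nat_lit 84) (nat_lit 512) (nat_lit 4) (@Lb.g g8 (@Lb.g g9 (@Lb.g g10 (@Lb.g g11 (@Lb.r r2089 (@Lb.r r2404 (@Lb.r r2651 (@Lb.r r2194 (@Lb.d (nat_lit 596) (nat_lit 33) (nat_lit 576) (@Lb.fm (nat_lit 9) t270)))))))))))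
noncomputable def l34212 : Lb := (@Lb.d (nat_lit 0) (nat_lit 256) (nat_lit 130) (@Lb.g g10 (@Lb.g g11 (@Lb.r r1447 (@Lb.r r386 (@Lb.r r1045 (@Lb.r r8 (@Lb.d (nat_lit 352) (nat_lit 98) (nat_lit 681) (@Lb.fm (nat_lit 3) t1663)))))))))
noncomputable def l34213 : Lb := (@Lb.d (nat_lit 2) (nat_lit 2) (nat_lit 66) (@Lb.g g8 (@Lb.g g9 (@Lb.g g10 (@Lb.g g11 (@Lb.r r292 (@Lb.r r539 (@Lb.r r145 (@Lb.r r1690 (@Lb.r r1668 (@Lb.d (nat_lit 4) (nat_lit 133) (nat_lit 146) (@Lb.fp (nat_lit 9) t1811))))))))))))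
noncomputable def l34214 : Lb := (@Lb.r r21 (@Lb.d (nat_lit 130) (nat_lit 264) (nat_lit 34) (@Lb.g g8 (@Lb.g g10 (@Lb.r r295 (@Lb.r r357 (@Lb.r r660 (@Lb.d (nat_lit 404) (nat_lit 37) (nat_lit 166) (@Lb.fp (nat_lit 3) t145)))))))))
noncomputable def l34215 : Lb := (@Lb.r r82 (@Lb.d (nat_lit 130) (nat_lit 138) (nat_lit 0) (@Lb.g g8 (@Lb.g g9 (@Lb.r r263 (@Lb.r r146 (@Lb.r r2692 (@Lb.d (nat_lit 674) (nat_lit 4) (nat_lit 404) (@Lb.fp (nat_lit 3) t6119)))))))))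
noncomputable def l34216 : Lb := (@Lb.d (nat_lit 2) (nat_lit 258) (nat_lit 66) (@Lb.g g8 (@Lb.g g9 (@Lb.g g10 (@Lb.g g11 (@Lb.r r292 (@Lb.r r539 (@Lb.r r145 (@Lb.r r1690 (@Lb.r r1668 (@Lb.d (nat_lit 10) (nat_lit 134) (nat_lit 146) (@Lb.fp (nat_lit 9) t1811))))))))))))
noncomputable def l34217 : Lb := (@Lb.d (nat_lit 8) (nat_lit 34) (nat_lit 0) (@Lb.g g9 (@Lb.r r659 (@Lb.r r134 (@Lb.r r596 (@Lb.r r297 (@Lb.d (nat_lit 134) (nat_lit 74) (nat_lit 144) (@Lb.t (@Lb.fm (nat_lit 3) t333)))))))))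
noncomputable def l34218 : Lb := (@Lb.d (nat_lit 128) (nat_lit 513) (nat_lit 64) (@Lb.g g9 (@Lb.g g11 (@Lb.r r264 (@Lb.r r295 (@Lb.r r418 (@Lb.r r401 (@Lb.d (nat_lit 25) (nat_lit 96) (nat_lit 153) (@Lb.fm (nat_lit 3) t479)))))))))
noncomputable def l34219 : Lb := (@Lb.d (nat_lit 40) (nat_lit 0) (nat_lit 64) (@Lb.g g8 (@Lb.g g11 (@Lb.r r2213 (@Lb.r r1190 (@Lb.r r2644 (@Lb.r r2567 (@Lb.d (nat_lit 321) (nat_lit 148) (nat_lit 262) (@Lb.fp (nat_lit 3) t322)))))))))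
noncomputable def l34220 : Lb := (@Lb.r r21 (@Lb.r r70 (@Lb.d (nat_lit 0) (nat_lit 512) (nat_lit 324) (@Lb.g g8 (@Lb.g g7 (@Lb.r r394 (@Lb.r r1177 (@Lb.r r1156 (@Lb.d (nat_lit 66) (nat_lit 0) (nat_lit 592) (@Lb.fm (nat_lit 3) t1108))))))))))
noncomputable def l34221 : Lb := (@Lb.r r82 (@Lb.d (nat_lit 0) (nat_lit 2) (nat_lit 128) (@Lb.g g8 (@Lb.g g9 (@Lb.g g11 (@Lb.r r1607 (@Lb.r r1450 (@Lb.r r2088 (@Lb.r r2201 (@Lb.d (nat_lit 674) (nat_lit 145) (nat_lit 608) (@Lb.t (@Lb.fp (nat_lit 9) t1006))))))))))))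
noncomputable def l34222 : Lb := (@Lb.d (nat_lit 646) (nat_lit 146) (nat_lit 97) (@Lb.r r532 (@Lb.r r2345 (@Lb.r r2647 (@Lb.g g6 (@Lb.g g5 (@Lb.g g4 (@Lb.d (nat_lit 66) (nat_lit 5) (nat_lit 22) (@Lb.r r291 (@Lb.t (@Lb.fp (nat_lit 9) t1108)))))))))))
noncomputable def l34223 : Lb := (@Lb.d (nat_lit 2) (nat_lit 514) (nat_lit 130) (@Lb.g g8 (@Lb.g g9 (@Lb.g g10 (@Lb.g g11 (@Lb.r r2705 (@Lb.r r535 (@Lb.r r2440 (@Lb.r r2122 (@Lb.d (nat_lit 294) (nat_lit 64) (nat_lit 73) (@Lb.fp (nat_lit 9) t4550)))))))))))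
noncomputable def l34224 : Lb := (@Lb.d (nat_lit 390) (nat_lit 662) (nat_lit 354) (@Lb.r r1556 (@Lb.r r2345 (@Lb.r r1623 (@Lb.g g6 (@Lb.g g5 (@Lb.g g4 (@Lb.d (nat_lit 66) (nat_lit 8) (nat_lit 32) (@Lb.r r387 (@Lb.t (@Lb.fp (nat_lit 9) t2556)))))))))))
noncomputable def l34225 : Lb := (@Lb.r r323 (@Lb.d (nat_lit 2) (nat_lit 514) (nat_lit 2) (@Lb.g g8 (@Lb.g g9 (@Lb.g g10 (@Lb.r r1687 (@Lb.r r2154 (@Lb.r r97 (@Lb.r r24 (@Lb.d (nat_lit 276) (nat_lit 6) (nat_lit 1) (@Lb.t (@Lb.fp (nat_lit 9) t61))))))))))))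
noncomputable def l34226 : Lb := (@Lb.d (nat_lit 106) (nat_lit 81) (nat_lit 4) (@Lb.r r345 (@Lb.r r427 (@Lb.r r406 (@Lb.g g7 (@Lb.g g5 (@Lb.d (nat_lit 0) (nat_lit 5) (nat_lit 64) (@Lb.fp (nat_lit 3) t175))))))))
noncomputable def l34227 : Lb := (@Lb.d (nat_lit 16) (nat_lit 264) (nat_lit 105) (@Lb.g g6 (@Lb.g g11 (@Lb.r r2449 (@Lb.r r1639 (@Lb.r r24 (@Lb.d (nat_lit 658) (nat_lit 69) (nat_lit 612) (@Lb.fp (nat_lit 3) t6120))))))))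
noncomputable def l34228 : Lb := (@Lb.d (nat_lit 358) (nat_lit 282) (nat_lit 534) (@Lb.r r24 (@Lb.r r2657 (@Lb.r r134 (@Lb.r r2723 (@Lb.g g7 (@Lb.g g5 (@Lb.d (nat_lit 0) (nat_lit 1) (nat_lit 64) (@Lb.fm (nat_lit 3) t490)))))))))
noncomputable def l34229 : Lb := (@Lb.d (nat_lit 42) (nat_lit 393) (nat_lit 290) (@Lb.r r97 (@Lb.r r342 (@Lb.r r395 (@Lb.r r264 (@Lb.g g7 (@Lb.g g6 (@Lb.g g5 (@Lb.d (nat_lit 80) (nat_lit 1) (nat_lit 65) (@Lb.t (@Lb.fp (nat_lit 9) t490)))))))))))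
noncomputable def l34230 : Lb := (@Lb.r r82 (@Lb.d (nat_lit 130) (nat_lit 650) (nat_lit 0) (@Lb.g g8 (@Lb.g g9 (@Lb.r r263 (@Lb.r r146 (@Lb.r r2692 (@Lb.d (nat_lit 681) (nat_lit 1) (nat_lit 406) (@Lb.fp (nat_lit 3) t6121)))))))))
noncomputable def l34231 : Lb := (@Lb.d (nat_lit 549) (nat_lit 258) (nat_lit 130) (@Lb.g g8 (@Lb.g g9 (@Lb.g g10 (@Lb.g g11 (@Lb.r r2443 (@Lb.r r1177 (@Lb.r r2458 (@Lb.d (nat_lit 152) (nat_lit 149) (nat_lit 84) (@Lb.fm (nat_lit 9) t1244))))))))))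
noncomputable def l34232 : Lb := (@Lb.d (nat_lit 550) (nat_lit 260) (nat_lit 128) (@Lb.g g8 (@Lb.g g9 (@Lb.g g10 (@Lb.g g11 (@Lb.r r2443 (@Lb.r r1177 (@Lb.r r2458 (@Lb.d (nat_lit 153) (nat_lit 149) (nat_lit 84) (@Lb.fm (nat_lit 9) t4178))))))))))
noncomputable def l34233 : Lb := (@Lb.d (nat_lit 128) (nat_lit 514) (nat_lit 130) (@Lb.g g9 (@Lb.g g10 (@Lb.g g11 (@Lb.r r2709 (@Lb.r r292 (@Lb.r r539 (@Lb.r r2438 (@Lb.d (nat_lit 681) (nat_lit 66) (nat_lit 666) (@Lb.t (@Lb.fm (nat_lit 9) t1403)))))))))))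
noncomputable def l34234 : Lb := (@Lb.d (nat_lit 2) (nat_lit 514) (nat_lit 130) (@Lb.g g8 (@Lb.g g9 (@Lb.g g10 (@Lb.g g11 (@Lb.r r610 (@Lb.r r1607 (@Lb.r r2457 (@Lb.r r2436 (@Lb.d (nat_lit 666) (nat_lit 2) (nat_lit 409) (@Lb.fm (nat_lit 9) t2487)))))))))))
noncomputable def l34235 : Lb := (@Lb.d (nat_lit 8) (nat_lit 266) (nat_lit 0) (@Lb.g g9 (@Lb.r r2407 (@Lb.r r602 (@Lb.r r2648 (@Lb.r r1365 (@Lb.d (nat_lit 342) (nat_lit 88) (nat_lit 662) (@Lb.t (@Lb.fm (nat_lit 3) t296)))))))))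
noncomputable def l34236 : Lb := (@Lb.d (nat_lit 2) (nat_lit 258) (nat_lit 130) (@Lb.g g8 (@Lb.g g9 (@Lb.g g10 (@Lb.g g11 (@Lb.r r610 (@Lb.r r1607 (@Lb.r r2457 (@Lb.r r2436 (@Lb.d (nat_lit 664) (nat_lit 2) (nat_lit 409) (@Lb.fm (nat_lit 9) t2487)))))))))))
noncomputable def l34237 : Lb := (@Lb.d (nat_lit 145) (nat_lit 292) (nat_lit 133) (@Lb.g g8 (@Lb.g g9 (@Lb.g g10 (@Lb.g g11 (@Lb.r r2627 (@Lb.r r658 (@Lb.r r2725 (@Lb.r r1048 (@Lb.d (nat_lit 520) (nat_lit 66) (nat_lit 162) (@Lb.fp (nat_lit 9) t4153)))))))))))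
noncomputable def l34238 : Lb := (@Lb.g g8 (@Lb.g g7 (@Lb.r r289 (@Lb.r r279 (@Lb.r r584 (@Lb.r r2150 (@Lb.d (nat_lit 5) (nat_lit 528) (nat_lit 273) (@Lb.fp (nat_lit 3) t5242))))))))
noncomputable def l34239 : Lb := (@Lb.d (nat_lit 0) (nat_lit 288) (nat_lit 64) (@Lb.g g11 (@Lb.r r1556 (@Lb.r r345 (@Lb.r r2727 (@Lb.r r2178 (@Lb.d (nat_lit 153) (nat_lit 17) (nat_lit 138) (@Lb.t (@Lb.fp (nat_lit 3) t1740)))))))))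
noncomputable def l34240 : Lb := (@Lb.d (nat_lit 0) (nat_lit 521) (nat_lit 66) (@Lb.g g9 (@Lb.g g10 (@Lb.g g11 (@Lb.r r84 (@Lb.r r618 (@Lb.r r25 (@Lb.d (nat_lit 522) (nat_lit 25) (nat_lit 532) (@Lb.t (@Lb.fm (nat_lit 9) t6122))))))))))
noncomputable def l34241 : Lb := (@Lb.g g7 (@Lb.r r616 (@Lb.r r2665 (@Lb.r r2390 (@Lb.r r1188 (@Lb.d (nat_lit 0) (nat_lit 512) (nat_lit 512) (@Lb.t (@Lb.fm (nat_lit 3) t322))))))))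
noncomputable def l34242 : Lb := (@Lb.d (nat_lit 0) (nat_lit 256) (nat_lit 2) (@Lb.g g8 (@Lb.g g10 (@Lb.g g11 (@Lb.r r595 (@Lb.r r386 (@Lb.d (nat_lit 0) (nat_lit 100) (nat_lit 154) (@Lb.t (@Lb.fm (nat_lit 9) t305)))))))))
noncomputable def l34243 : Lb := (@Lb.d (nat_lit 32) (nat_lit 520) (nat_lit 2) (@Lb.g g6 (@Lb.g g7 (@Lb.r r680 (@Lb.r r2729 (@Lb.r r1706 (@Lb.d (nat_lit 361) (nat_lit 105) (nat_lit 153) (@Lb.fp (nat_lit 3) t322))))))))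
noncomputable def l34244 : Lb := (@Lb.d (nat_lit 42) (nat_lit 512) (nat_lit 0) (@Lb.g g4 (@Lb.g g7 (@Lb.r r2217 (@Lb.r r1194 (@Lb.r r1704 (@Lb.d (nat_lit 425) (nat_lit 42) (nat_lit 89) (@Lb.fp (nat_lit 3) t322))))))))
noncomputable def l34245 : Lb := (@Lb.d (nat_lit 37) (nat_lit 262) (nat_lit 64) (@Lb.r r2196 (@Lb.r r1431 (@Lb.r r2454 (@Lb.r r601 (@Lb.g g7 (@Lb.d (nat_lit 0) (nat_lit 0) (nat_lit 68) (@Lb.t (@Lb.fp (nat_lit 3) t2732)))))))))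
noncomputable def l34246 : Lb := (@Lb.d (nat_lit 134) (nat_lit 5) (nat_lit 74) (@Lb.g g8 (@Lb.g g9 (@Lb.g g10 (@Lb.g g11 (@Lb.r r683 (@Lb.r r2724 (@Lb.r r1158 (@Lb.r r97 (@Lb.d (nat_lit 32) (nat_lit 105) (nat_lit 673) (@Lb.fm (nat_lit 9) t3408)))))))))))
noncomputable def l34247 : Lb := (@Lb.d (nat_lit 34) (nat_lit 512) (nat_lit 0) (@Lb.g g8 (@Lb.g g9 (@Lb.r r2411 (@Lb.r r598 (@Lb.r r2457 (@Lb.r r408 (@Lb.d (nat_lit 661) (nat_lit 25) (nat_lit 154) (@Lb.fp (nat_lit 3) t553)))))))))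
noncomputable def l34248 : Lb := (@Lb.d (nat_lit 0) (nat_lit 0) (nat_lit 136) (@Lb.g g11 (@Lb.r r405 (@Lb.r r2454 (@Lb.r r2411 (@Lb.r r1124 (@Lb.d (nat_lit 25) (nat_lit 128) (nat_lit 160) (@Lb.t (@Lb.fm (nat_lit 3) t6123)))))))))
noncomputable def l34249 : Lb := (@Lb.d (nat_lit 2) (nat_lit 390) (nat_lit 161) (@Lb.r r24 (@Lb.r r82 (@Lb.r r2465 (@Lb.g g11 (@Lb.g g6 (@Lb.d (nat_lit 0) (nat_lit 32) (nat_lit 641) (@Lb.r r529 (@Lb.fp (nat_lit 3) t296)))))))))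
noncomputable def l34250 : Lb := (@Lb.d (nat_lit 9) (nat_lit 544) (nat_lit 512) (@Lb.g g8 (@Lb.g g7 (@Lb.d (nat_lit 10) (nat_lit 17) (nat_lit 320) (@Lb.fp (nat_lit 3) t591)))))
noncomputable def l34251 : Lb := (@Lb.r r322 (@Lb.d (nat_lit 8) (nat_lit 10) (nat_lit 576) (@Lb.g g9 (@Lb.g g7 (@Lb.r r602 (@Lb.r r2388 (@Lb.r r2713 (@Lb.d (nat_lit 664) (nat_lit 160) (nat_lit 102) (@Lb.fp (nat_lit 3) t1255)))))))))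
noncomputable def l34252 : Lb := (@Lb.d (nat_lit 2) (nat_lit 2) (nat_lit 2) (@Lb.g g8 (@Lb.g g9 (@Lb.g g10 (@Lb.g g11 (@Lb.r r2450 (@Lb.r r2407 (@Lb.r r2585 (@Lb.r r2564 (@Lb.d (nat_lit 128) (nat_lit 2) (nat_lit 384) (@Lb.fm (nat_lit 9) t715)))))))))))
noncomputable def l34253 : Lb := (@Lb.r r21 (@Lb.r r263 (@Lb.d (nat_lit 514) (nat_lit 8) (nat_lit 18) (@Lb.g g4 (@Lb.g g10 (@Lb.r r1427 (@Lb.r r97 (@Lb.d (nat_lit 1) (nat_lit 130) (nat_lit 2) (@Lb.fm (nat_lit 3) t2578)))))))))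
noncomputable def l34254 : Lb := (@Lb.r r21 (@Lb.r r263 (@Lb.d (nat_lit 8) (nat_lit 0) (nat_lit 26) (@Lb.g g8 (@Lb.g g10 (@Lb.r r2449 (@Lb.r r2727 (@Lb.r r2456 (@Lb.d (nat_lit 665) (nat_lit 154) (nat_lit 546) (@Lb.fm (nat_lit 3) t1643))))))))))
noncomputable def l34255 : Lb := (@Lb.d (nat_lit 24) (nat_lit 102) (nat_lit 69) (@Lb.r r1177 (@Lb.r r1304 (@Lb.r r583 (@Lb.g g6 (@Lb.g g5 (@Lb.g g4 (@Lb.d (nat_lit 65) (nat_lit 16) (nat_lit 34) (@Lb.t (@Lb.fp (nat_lit 9) t1038))))))))))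
noncomputable def l34256 : Lb := (@Lb.d (nat_lit 1) (nat_lit 420) (nat_lit 402) (@Lb.r r2407 (@Lb.r r1445 (@Lb.r r1122 (@Lb.g g7 (@Lb.g g5 (@Lb.g g4 (@Lb.d (nat_lit 264) (nat_lit 4) (nat_lit 4) (@Lb.r r74 (@Lb.t (@Lb.fm (nat_lit 9) t5176)))))))))))
noncomputable def l34257 : Lb := (@Lb.r r82 (@Lb.r r275 (@Lb.d (nat_lit 34) (nat_lit 672) (nat_lit 0) (@Lb.g g4 (@Lb.g g9 (@Lb.r r2579 (@Lb.r r154 (@Lb.r r1432 (@Lb.d (nat_lit 356) (nat_lit 41) (nat_lit 662) (@Lb.fm (nat_lit 3) t3778))))))))))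
noncomputable def l34258 : Lb := (@Lb.d (nat_lit 546) (nat_lit 2) (nat_lit 33) (@Lb.r r386 (@Lb.r r1619 (@Lb.g g9 (@Lb.d (nat_lit 0) (nat_lit 162) (nat_lit 0) (@Lb.r r291 (@Lb.r r98 (@Lb.t (@Lb.fp (nat_lit 3) t823)))))))))
noncomputable def l34259 : Lb := (@Lb.d (nat_lit 0) (nat_lit 522) (nat_lit 129) (@Lb.g g9 (@Lb.g g10 (@Lb.g g11 (@Lb.r r1363 (@Lb.r r1362 (@Lb.r r101 (@Lb.r r24 (@Lb.d (nat_lit 593) (nat_lit 0) (nat_lit 601) (@Lb.t (@Lb.fm (nat_lit 9) t6124)))))))))))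
noncomputable def l34260 : Lb := (@Lb.d (nat_lit 105) (nat_lit 298) (nat_lit 340) (@Lb.r r406 (@Lb.r r104 (@Lb.r r2657 (@Lb.r r1691 (@Lb.g g7 (@Lb.g g6 (@Lb.g g5 (@Lb.d (nat_lit 16) (nat_lit 8) (nat_lit 66) (@Lb.t (@Lb.fp (nat_lit 9) t6125)))))))))))
noncomputable def l34261 : Lb := (@Lb.d (nat_lit 16) (nat_lit 514) (nat_lit 0) (@Lb.g g8 (@Lb.g g9 (@Lb.g g10 (@Lb.g g11 (@Lb.r r675 (@Lb.r r1681 (@Lb.r r612 (@Lb.r r1690 (@Lb.r r132 (@Lb.d (nat_lit 585) (nat_lit 161) (nat_lit 618) (@Lb.fp (nat_lit 9) t3679))))))))))))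
noncomputable def l34262 : Lb := (@Lb.d (nat_lit 16) (nat_lit 2) (nat_lit 138) (@Lb.g g8 (@Lb.g g9 (@Lb.g g10 (@Lb.g g11 (@Lb.r r675 (@Lb.r r1681 (@Lb.r r612 (@Lb.r r1690 (@Lb.r r132 (@Lb.d (nat_lit 585) (nat_lit 161) (nat_lit 618) (@Lb.fp (nat_lit 9) t3679))))))))))))
noncomputable def l34263 : Lb := (@Lb.d (nat_lit 132) (nat_lit 0) (nat_lit 130) (@Lb.g g8 (@Lb.g g9 (@Lb.g g10 (@Lb.g g11 (@Lb.r r2459 (@Lb.r r1177 (@Lb.r r1626 (@Lb.r r1604 (@Lb.d (nat_lit 152) (nat_lit 137) (nat_lit 649) (@Lb.fp (nat_lit 9) t1152)))))))))))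
noncomputable def l34264 : Lb := (@Lb.d (nat_lit 2) (nat_lit 514) (nat_lit 2) (@Lb.g g8 (@Lb.g g9 (@Lb.g g10 (@Lb.g g11 (@Lb.r r643 (@Lb.r r596 (@Lb.r r1690 (@Lb.r r85 (@Lb.r r164 (@Lb.d (nat_lit 657) (nat_lit 161) (nat_lit 618) (@Lb.fp (nat_lit 9) t3409))))))))))))
noncomputable def l34265 : Lb := (@Lb.d (nat_lit 406) (nat_lit 646) (nat_lit 401) (@Lb.r r2153 (@Lb.r r2084 (@Lb.r r426 (@Lb.g g11 (@Lb.g g6 (@Lb.g g5 (@Lb.d (nat_lit 4) (nat_lit 24) (nat_lit 394) (@Lb.t (@Lb.fm (nat_lit 9) t3890))))))))))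
noncomputable def l34266 : Lb := (@Lb.r r82 (@Lb.d (nat_lit 38) (nat_lit 256) (nat_lit 128) (@Lb.g g8 (@Lb.g g9 (@Lb.g g11 (@Lb.r r1315 (@Lb.r r390 (@Lb.r r1701 (@Lb.r r600 (@Lb.d (nat_lit 552) (nat_lit 38) (nat_lit 345) (@Lb.t (@Lb.fp (nat_lit 9) t901))))))))))))
noncomputable def l34267 : Lb := (@Lb.d (nat_lit 1) (nat_lit 516) (nat_lit 128) (@Lb.g g8 (@Lb.g g9 (@Lb.g g10 (@Lb.g g11 (@Lb.r r1642 (@Lb.r r612 (@Lb.r r295 (@Lb.r r1313 (@Lb.r r1060 (@Lb.d (nat_lit 2) (nat_lit 162) (nat_lit 345) (@Lb.fm (nat_lit 9) t901))))))))))))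
noncomputable def l34268 : Lb := (@Lb.d (nat_lit 86) (nat_lit 596) (nat_lit 585) (@Lb.r r361 (@Lb.r r292 (@Lb.r r426 (@Lb.g g11 (@Lb.g g6 (@Lb.g g5 (@Lb.d (nat_lit 4) (nat_lit 17) (nat_lit 257) (@Lb.t (@Lb.fm (nat_lit 9) t47))))))))))
noncomputable def l34269 : Lb := (@Lb.r r21 (@Lb.d (nat_lit 645) (nat_lit 264) (nat_lit 130) (@Lb.g g8 (@Lb.g g10 (@Lb.g g11 (@Lb.r r1419 (@Lb.r r101 (@Lb.r r410 (@Lb.d (nat_lit 8) (nat_lit 154) (nat_lit 170) (@Lb.t (@Lb.fm (nat_lit 9) t4285)))))))))))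
noncomputable def l34270 : Lb := (@Lb.d (nat_lit 2) (nat_lit 514) (nat_lit 130) (@Lb.g g8 (@Lb.g g9 (@Lb.g g10 (@Lb.g g11 (@Lb.r r1443 (@Lb.r r40 (@Lb.r r425 (@Lb.r r98 (@Lb.r r2084 (@Lb.d (nat_lit 402) (nat_lit 149) (nat_lit 356) (@Lb.fp (nat_lit 9) t1149))))))))))))
noncomputable def l34271 : Lb := (@Lb.d (nat_lit 416) (nat_lit 584) (nat_lit 418) (@Lb.r r1109 (@Lb.r r2088 (@Lb.r r418 (@Lb.g g11 (@Lb.g g6 (@Lb.g g5 (@Lb.g g4 (@Lb.d (nat_lit 0) (nat_lit 25) (nat_lit 394) (@Lb.fm (nat_lit 9) t4995))))))))))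
noncomputable def l34272 : Lb := (@Lb.r r21 (@Lb.d (nat_lit 2) (nat_lit 264) (nat_lit 130) (@Lb.g g8 (@Lb.g g10 (@Lb.g g11 (@Lb.r r1451 (@Lb.r r2581 (@Lb.r r1384 (@Lb.r r150 (@Lb.d (nat_lit 33) (nat_lit 154) (nat_lit 596) (@Lb.t (@Lb.fm (nat_lit 9) t119))))))))))))
noncomputable def l34273 : Lb := (@Lb.d (nat_lit 160) (nat_lit 512) (nat_lit 130) (@Lb.g g10 (@Lb.g g11 (@Lb.r r97 (@Lb.r r72 (@Lb.r r406 (@Lb.r r2635 (@Lb.d (nat_lit 361) (nat_lit 97) (nat_lit 418) (@Lb.fm (nat_lit 3) t982)))))))))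
noncomputable def l34274 : Lb := (@Lb.d (nat_lit 278) (nat_lit 545) (nat_lit 545) (@Lb.r r1092 (@Lb.r r330 (@Lb.r r2579 (@Lb.g g9 (@Lb.g g4 (@Lb.d (nat_lit 17) (nat_lit 65) (nat_lit 0) (@Lb.r r291 (@Lb.r r98 (@Lb.fm (nat_lit 3) t422))))))))))
noncomputable def l34275 : Lb := (@Lb.d (nat_lit 292) (nat_lit 646) (nat_lit 262) (@Lb.r r101 (@Lb.r r386 (@Lb.r r339 (@Lb.g g7 (@Lb.g g6 (@Lb.d (nat_lit 0) (nat_lit 0) (nat_lit 65) (@Lb.fm (nat_lit 3) t1399))))))))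
noncomputable def l34276 : Lb := (@Lb.d (nat_lit 336) (nat_lit 522) (nat_lit 345) (@Lb.r r24 (@Lb.r r1109 (@Lb.r r386 (@Lb.r r2595 (@Lb.g g7 (@Lb.g g6 (@Lb.g g5 (@Lb.d (nat_lit 0) (nat_lit 18) (nat_lit 129) (@Lb.t (@Lb.fm (nat_lit 9) t495)))))))))))
noncomputable def l34277 : Lb := (@Lb.r r21 (@Lb.d (nat_lit 644) (nat_lit 256) (nat_lit 130) (@Lb.g g4 (@Lb.g g10 (@Lb.g g11 (@Lb.r r419 (@Lb.r r2438 (@Lb.r r97 (@Lb.d (nat_lit 400) (nat_lit 137) (nat_lit 41) (@Lb.t (@Lb.fp (nat_lit 9) t6126)))))))))))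
noncomputable def l34278 : Lb := (@Lb.d (nat_lit 2) (nat_lit 545) (nat_lit 9) (@Lb.g g8 (@Lb.g g9 (@Lb.g g10 (@Lb.g g11 (@Lb.r r619 (@Lb.r r1610 (@Lb.r r2088 (@Lb.r r2201 (@Lb.d (nat_lit 662) (nat_lit 36) (nat_lit 529) (@Lb.fp (nat_lit 9) t6127)))))))))))
noncomputable def l34279 : Lb := (@Lb.r r323 (@Lb.d (nat_lit 2) (nat_lit 41) (nat_lit 1) (@Lb.g g8 (@Lb.g g9 (@Lb.g g10 (@Lb.r r1450 (@Lb.r r2468 (@Lb.r r1307 (@Lb.r r2661 (@Lb.d (nat_lit 152) (nat_lit 90) (nat_lit 325) (@Lb.t (@Lb.fm (nat_lit 9) t217))))))))))))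
noncomputable def l34280 : Lb := (@Lb.d (nat_lit 2) (nat_lit 289) (nat_lit 9) (@Lb.g g8 (@Lb.g g9 (@Lb.g g10 (@Lb.g g11 (@Lb.r r2722 (@Lb.r r1415 (@Lb.r r36 (@Lb.r r149 (@Lb.r r2084 (@Lb.d (nat_lit 104) (nat_lit 152) (nat_lit 593) (@Lb.fm (nat_lit 9) t340))))))))))))
noncomputable def l34281 : Lb := (@Lb.r r21 (@Lb.r r331 (@Lb.d (nat_lit 613) (nat_lit 0) (nat_lit 1) (@Lb.g g4 (@Lb.g g10 (@Lb.r r2379 (@Lb.r r2658 (@Lb.r r97 (@Lb.d (nat_lit 520) (nat_lit 170) (nat_lit 608) (@Lb.fm (nat_lit 3) t6128))))))))))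
noncomputable def l34282 : Lb := (@Lb.d (nat_lit 390) (nat_lit 662) (nat_lit 354) (@Lb.r r1556 (@Lb.r r2345 (@Lb.r r1623 (@Lb.g g6 (@Lb.g g5 (@Lb.g g4 (@Lb.d (nat_lit 65) (nat_lit 1) (nat_lit 33) (@Lb.r r387 (@Lb.t (@Lb.fp (nat_lit 9) t1643)))))))))))
noncomputable def l34283 : Lb := (@Lb.d (nat_lit 0) (nat_lit 292) (nat_lit 64) (@Lb.g g9 (@Lb.g g10 (@Lb.g g11 (@Lb.r r387 (@Lb.r r1177 (@Lb.r r2458 (@Lb.r r24 (@Lb.d (nat_lit 593) (nat_lit 0) (nat_lit 169) (@Lb.t (@Lb.fm (nat_lit 9) t2504)))))))))))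
noncomputable def l34284 : Lb := (@Lb.d (nat_lit 257) (nat_lit 257) (nat_lit 0) (@Lb.r r24 (@Lb.r r2138 (@Lb.g g5 (@Lb.d (nat_lit 4) (nat_lit 130) (nat_lit 0) (@Lb.t (@Lb.fp (nat_lit 3) t1602)))))))
noncomputable def l34285 : Lb := (@Lb.d (nat_lit 388) (nat_lit 406) (nat_lit 354) (@Lb.r r1556 (@Lb.r r2345 (@Lb.r r1623 (@Lb.g g6 (@Lb.g g5 (@Lb.g g4 (@Lb.d (nat_lit 65) (nat_lit 1) (nat_lit 33) (@Lb.r r387 (@Lb.t (@Lb.fp (nat_lit 9) t1643)))))))))))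
noncomputable def l34286 : Lb := (@Lb.d (nat_lit 0) (nat_lit 36) (nat_lit 64) (@Lb.g g9 (@Lb.g g10 (@Lb.g g11 (@Lb.r r1703 (@Lb.r r386 (@Lb.r r1553 (@Lb.r r24 (@Lb.d (nat_lit 597) (nat_lit 129) (nat_lit 100) (@Lb.t (@Lb.fp (nat_lit 9) t5494)))))))))))
noncomputable def l34287 : Lb := (@Lb.d (nat_lit 8) (nat_lit 289) (nat_lit 66) (@Lb.g g9 (@Lb.g g10 (@Lb.g g11 (@Lb.r r1703 (@Lb.r r1634 (@Lb.r r2328 (@Lb.r r1637 (@Lb.d (nat_lit 404) (nat_lit 138) (nat_lit 656) (@Lb.t (@Lb.fp (nat_lit 9) t510)))))))))))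
noncomputable def l34288 : Lb := (@Lb.r r21 (@Lb.r r70 (@Lb.g g8 (@Lb.r r1626 (@Lb.r r1556 (@Lb.r r25 (@Lb.d (nat_lit 586) (nat_lit 98) (nat_lit 640) (@Lb.t (@Lb.fp (nat_lit 3) t6129)))))))))
noncomputable def l34289 : Lb := (@Lb.d (nat_lit 0) (nat_lit 100) (nat_lit 129) (@Lb.r r24 (@Lb.r r1617 (@Lb.r r354 (@Lb.g g11 (@Lb.g g10 (@Lb.fp (nat_lit 3) t3129)))))))
noncomputable def l34290 : Lb := (@Lb.d (nat_lit 406) (nat_lit 322) (nat_lit 657) (@Lb.r r1604 (@Lb.r r1621 (@Lb.r r426 (@Lb.g g11 (@Lb.g g6 (@Lb.g g5 (@Lb.g g4 (@Lb.d (nat_lit 1) (nat_lit 1) (nat_lit 2) (@Lb.fp (nat_lit 9) t313))))))))))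
noncomputable def l34291 : Lb := (@Lb.d (nat_lit 2) (nat_lit 550) (nat_lit 64) (@Lb.g g8 (@Lb.g g9 (@Lb.g g10 (@Lb.g g11 (@Lb.r r1699 (@Lb.r r386 (@Lb.r r612 (@Lb.r r533 (@Lb.r r1060 (@Lb.d (nat_lit 32) (nat_lit 10) (nat_lit 361) (@Lb.fp (nat_lit 9) t1500))))))))))))
noncomputable def l34292 : Lb := (@Lb.d (nat_lit 2) (nat_lit 294) (nat_lit 128) (@Lb.g g8 (@Lb.g g9 (@Lb.g g10 (@Lb.g g11 (@Lb.r r1699 (@Lb.r r386 (@Lb.r r612 (@Lb.r r533 (@Lb.r r1060 (@Lb.d (nat_lit 40) (nat_lit 9) (nat_lit 361) (@Lb.fp (nat_lit 9) t1876))))))))))))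
noncomputable def l34293 : Lb := (@Lb.d (nat_lit 2) (nat_lit 550) (nat_lit 64) (@Lb.g g8 (@Lb.g g9 (@Lb.g g10 (@Lb.g g11 (@Lb.r r1699 (@Lb.r r386 (@Lb.r r612 (@Lb.r r533 (@Lb.r r1060 (@Lb.d (nat_lit 40) (nat_lit 9) (nat_lit 361) (@Lb.fp (nat_lit 9) t1876))))))))))))
noncomputable def l34294 : Lb := (@Lb.d (nat_lit 298) (nat_lit 641) (nat_lit 90) (@Lb.r r1193 (@Lb.r r2390 (@Lb.r r579 (@Lb.g g7 (@Lb.g g6 (@Lb.g g5 (@Lb.g g4 (@Lb.d (nat_lit 0) (nat_lit 25) (nat_lit 74) (@Lb.fp (nat_lit 9) t2710))))))))))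
noncomputable def l34295 : Lb := (@Lb.d (nat_lit 1) (nat_lit 256) (nat_lit 0) (@Lb.g g4 (@Lb.r r101 (@Lb.r r402 (@Lb.d (nat_lit 512) (nat_lit 0) (nat_lit 613) (@Lb.t (@Lb.fm (nat_lit 3) t590)))))))
noncomputable def l34296 : Lb := (@Lb.r r323 (@Lb.d (nat_lit 130) (nat_lit 512) (nat_lit 18) (@Lb.g g8 (@Lb.g g9 (@Lb.g g10 (@Lb.r r583 (@Lb.r r1177 (@Lb.r r408 (@Lb.d (nat_lit 138) (nat_lit 26) (nat_lit 344) (@Lb.t (@Lb.fm (nat_lit 9) t6130)))))))))))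
noncomputable def l34297 : Lb := (@Lb.d (nat_lit 2) (nat_lit 0) (nat_lit 10) (@Lb.g g8 (@Lb.g g9 (@Lb.g g10 (@Lb.r r2579 (@Lb.r r2345 (@Lb.r r676 (@Lb.r r646 (@Lb.d (nat_lit 640) (nat_lit 5) (nat_lit 608) (@Lb.t (@Lb.fp (nat_lit 9) t2911)))))))))))
noncomputable def l34298 : Lb := (@Lb.r r273 (@Lb.r r322 (@Lb.d (nat_lit 130) (nat_lit 256) (nat_lit 0) (@Lb.g g8 (@Lb.g g7 (@Lb.r r361 (@Lb.r r146 (@Lb.r r264 (@Lb.d (nat_lit 642) (nat_lit 0) (nat_lit 549) (@Lb.fm (nat_lit 3) t1244))))))))))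
noncomputable def l34299 : Lb := (@Lb.d (nat_lit 6) (nat_lit 0) (nat_lit 73) (@Lb.g g8 (@Lb.g g9 (@Lb.g g10 (@Lb.g g11 (@Lb.r r427 (@Lb.r r356 (@Lb.r r154 (@Lb.r r2137 (@Lb.r r1044 (@Lb.d (nat_lit 553) (nat_lit 129) (nat_lit 153) (@Lb.fm (nat_lit 9) t1155))))))))))))
noncomputable def l34300 : Lb := (@Lb.r r82 (@Lb.d (nat_lit 38) (nat_lit 256) (nat_lit 128) (@Lb.g g8 (@Lb.g g9 (@Lb.g g11 (@Lb.r r363 (@Lb.r r582 (@Lb.r r677 (@Lb.r r408 (@Lb.d (nat_lit 134) (nat_lit 154) (nat_lit 73) (@Lb.t (@Lb.fm (nat_lit 9) t1))))))))))))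
noncomputable def l34301 : Lb := (@Lb.d (nat_lit 148) (nat_lit 1) (nat_lit 581) (@Lb.r r1608 (@Lb.r r402 (@Lb.r r85 (@Lb.g g8 (@Lb.d (nat_lit 5) (nat_lit 0) (nat_lit 0) (@Lb.t (@Lb.fp (nat_lit 3) t6131))))))))
noncomputable def l34302 : Lb := (@Lb.r r82 (@Lb.d (nat_lit 2) (nat_lit 10) (nat_lit 64) (@Lb.g g8 (@Lb.g g9 (@Lb.g g11 (@Lb.r r619 (@Lb.r r1430 (@Lb.r r2645 (@Lb.d (nat_lit 4) (nat_lit 168) (nat_lit 409) (@Lb.t (@Lb.fm (nat_lit 9) t1399)))))))))))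
noncomputable def l34303 : Lb := (@Lb.d (nat_lit 257) (nat_lit 576) (nat_lit 341) (@Lb.r r1625 (@Lb.r r1432 (@Lb.r r330 (@Lb.g g5 (@Lb.g g4 (@Lb.d (nat_lit 22) (nat_lit 5) (nat_lit 0) (@Lb.fp (nat_lit 3) t1615))))))))
noncomputable def l34304 : Lb := (@Lb.r r82 (@Lb.d (nat_lit 2) (nat_lit 258) (nat_lit 0) (@Lb.g g8 (@Lb.g g9 (@Lb.r r1098 (@Lb.r r2084 (@Lb.r r1061 (@Lb.d (nat_lit 5) (nat_lit 128) (nat_lit 0) (@Lb.fp (nat_lit 3) t3197)))))))))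
noncomputable def l34305 : Lb := (@Lb.d (nat_lit 262) (nat_lit 642) (nat_lit 650) (@Lb.r r20 (@Lb.r r1065 (@Lb.r r1450 (@Lb.g g5 (@Lb.g g4 (@Lb.d (nat_lit 8) (nat_lit 1) (nat_lit 0) (@Lb.fm (nat_lit 3) t527))))))))
noncomputable def l34306 : Lb := (@Lb.r r20 (@Lb.d (nat_lit 36) (nat_lit 322) (nat_lit 73) (@Lb.g g9 (@Lb.g g10 (@Lb.g g11 (@Lb.r r2467 (@Lb.r r88 (@Lb.r r422 (@Lb.d (nat_lit 136) (nat_lit 37) (nat_lit 665) (@Lb.t (@Lb.fm (nat_lit 9) t6132)))))))))))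
noncomputable def l34307 : Lb := (@Lb.d (nat_lit 32) (nat_lit 256) (nat_lit 73) (@Lb.g g9 (@Lb.g g10 (@Lb.g g11 (@Lb.r r1352 (@Lb.r r2455 (@Lb.r r1633 (@Lb.r r2450 (@Lb.d (nat_lit 278) (nat_lit 150) (nat_lit 649) (@Lb.t (@Lb.fp (nat_lit 9) t1507)))))))))))
noncomputable def l34308 : Lb := (@Lb.d (nat_lit 6) (nat_lit 0) (nat_lit 0) (@Lb.g g8 (@Lb.g g9 (@Lb.r r148 (@Lb.r r406 (@Lb.r r25 (@Lb.d (nat_lit 105) (nat_lit 36) (nat_lit 154) (@Lb.fp (nat_lit 3) t6133))))))))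
noncomputable def l34309 : Lb := (@Lb.d (nat_lit 4) (nat_lit 34) (nat_lit 4) (@Lb.g g8 (@Lb.g g9 (@Lb.g g10 (@Lb.g g11 (@Lb.r r683 (@Lb.r r1642 (@Lb.r r1561 (@Lb.d (nat_lit 586) (nat_lit 105) (nat_lit 401) (@Lb.fm (nat_lit 9) t218))))))))))
noncomputable def l34310 : Lb := (@Lb.d (nat_lit 33) (nat_lit 72) (nat_lit 22) (@Lb.r r1177 (@Lb.r r152 (@Lb.r r386 (@Lb.g g11 (@Lb.g g6 (@Lb.g g5 (@Lb.g g4 (@Lb.d (nat_lit 0) (nat_lit 2) (nat_lit 129) (@Lb.fm (nat_lit 9) t51))))))))))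
noncomputable def l34311 : Lb := (@Lb.d (nat_lit 33) (nat_lit 584) (nat_lit 22) (@Lb.r r1177 (@Lb.r r152 (@Lb.r r386 (@Lb.g g11 (@Lb.g g6 (@Lb.g g5 (@Lb.g g4 (@Lb.d (nat_lit 5) (nat_lit 0) (nat_lit 129) (@Lb.fm (nat_lit 9) t51))))))))))
noncomputable def l34312 : Lb := (@Lb.d (nat_lit 0) (nat_lit 64) (nat_lit 0) (@Lb.r r1045 (@Lb.r r36 (@Lb.g g9 (@Lb.g g4 (@Lb.fp (nat_lit 3) t2))))))
noncomputable def l34313 : Lb := (@Lb.r r273 (@Lb.r r322 (@Lb.d (nat_lit 2) (nat_lit 512) (nat_lit 320) (@Lb.g g8 (@Lb.g g7 (@Lb.r r101 (@Lb.r r146 (@Lb.d (nat_lit 256) (nat_lit 0) (nat_lit 100) (@Lb.fp (nat_lit 3) t50)))))))))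
noncomputable def l34314 : Lb := (@Lb.d (nat_lit 2) (nat_lit 545) (nat_lit 130) (@Lb.g g8 (@Lb.g g9 (@Lb.g g10 (@Lb.g g11 (@Lb.r r1699 (@Lb.r r1642 (@Lb.r r1561 (@Lb.d (nat_lit 681) (nat_lit 105) (nat_lit 513) (@Lb.fm (nat_lit 9) t2545))))))))))
noncomputable def l34315 : Lb := (@Lb.d (nat_lit 2) (nat_lit 514) (nat_lit 130) (@Lb.g g8 (@Lb.g g9 (@Lb.g g10 (@Lb.g g11 (@Lb.r r2691 (@Lb.r r297 (@Lb.r r360 (@Lb.r r582 (@Lb.r r2180 (@Lb.d (nat_lit 642) (nat_lit 10) (nat_lit 360) (@Lb.fm (nat_lit 9) t1396))))))))))))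
noncomputable def l34316 : Lb := (@Lb.d (nat_lit 97) (nat_lit 297) (nat_lit 129) (@Lb.r r583 (@Lb.r r360 (@Lb.r r89 (@Lb.g g7 (@Lb.g g10 (@Lb.g g4 (@Lb.d (nat_lit 5) (nat_lit 16) (nat_lit 97) (@Lb.r r145 (@Lb.t (@Lb.fm (nat_lit 9) t505)))))))))))
noncomputable def l34317 : Lb := (@Lb.d (nat_lit 1) (nat_lit 578) (nat_lit 64) (@Lb.g g4 (@Lb.g g9 (@Lb.g g10 (@Lb.g g11 (@Lb.r r610 (@Lb.d (nat_lit 1) (nat_lit 25) (nat_lit 130) (@Lb.fm (nat_lit 9) t71))))))))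
noncomputable def l34318 : Lb := (@Lb.d (nat_lit 1) (nat_lit 545) (nat_lit 66) (@Lb.g g8 (@Lb.g g9 (@Lb.g g10 (@Lb.g g11 (@Lb.r r427 (@Lb.r r424 (@Lb.r r106 (@Lb.r r2153 (@Lb.r r2084 (@Lb.d (nat_lit 536) (nat_lit 129) (nat_lit 168) (@Lb.fp (nat_lit 9) t2312))))))))))))
noncomputable def l34319 : Lb := (@Lb.d (nat_lit 2) (nat_lit 258) (nat_lit 130) (@Lb.g g8 (@Lb.g g9 (@Lb.g g10 (@Lb.g g11 (@Lb.r r2722 (@Lb.r r2467 (@Lb.r r292 (@Lb.r r405 (@Lb.r r2084 (@Lb.d (nat_lit 98) (nat_lit 10) (nat_lit 601) (@Lb.fm (nat_lit 9) t1756))))))))))))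
noncomputable def l34320 : Lb := (@Lb.d (nat_lit 0) (nat_lit 521) (nat_lit 1) (@Lb.g g9 (@Lb.g g10 (@Lb.g g7 (@Lb.r r386 (@Lb.r r97 (@Lb.d (nat_lit 0) (nat_lit 9) (nat_lit 9) (@Lb.t (@Lb.fp (nat_lit 9) t2798)))))))))
noncomputable def l34321 : Lb := (@Lb.r r21 (@Lb.r r323 (@Lb.d (nat_lit 33) (nat_lit 0) (nat_lit 2) (@Lb.g g8 (@Lb.g g10 (@Lb.r r395 (@Lb.r r74 (@Lb.r r1365 (@Lb.r r2696 (@Lb.d (nat_lit 289) (nat_lit 0) (nat_lit 586) (@Lb.fp (nat_lit 3) t6134)))))))))))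
noncomputable def l34322 : Lb := (@Lb.d (nat_lit 4) (nat_lit 262) (nat_lit 424) (@Lb.r r21 (@Lb.r r86 (@Lb.r r2651 (@Lb.g g6 (@Lb.g g5 (@Lb.g g4 (@Lb.d (nat_lit 321) (nat_lit 1) (nat_lit 1) (@Lb.t (@Lb.fm (nat_lit 9) t4425))))))))))
noncomputable def l34323 : Lb := (@Lb.d (nat_lit 640) (nat_lit 2) (nat_lit 257) (@Lb.r r24 (@Lb.g g7 (@Lb.g g9 (@Lb.d (nat_lit 8) (nat_lit 2) (nat_lit 68) (@Lb.fm (nat_lit 3) t26))))))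
noncomputable def l34324 : Lb := (@Lb.d (nat_lit 162) (nat_lit 512) (nat_lit 536) (@Lb.r r24 (@Lb.r r1445 (@Lb.r r658 (@Lb.r r419 (@Lb.g g7 (@Lb.g g6 (@Lb.g g5 (@Lb.d (nat_lit 0) (nat_lit 1) (nat_lit 128) (@Lb.t (@Lb.fm (nat_lit 9) t6135)))))))))))
noncomputable def l34325 : Lb := (@Lb.d (nat_lit 673) (nat_lit 256) (nat_lit 260) (@Lb.r r24 (@Lb.r r85 (@Lb.r r323 (@Lb.g g10 (@Lb.g g9 (@Lb.d (nat_lit 0) (nat_lit 1) (nat_lit 8) (@Lb.r r387 (@Lb.fp (nat_lit 3) t4347)))))))))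
noncomputable def l34326 : Lb := (@Lb.d (nat_lit 42) (nat_lit 646) (nat_lit 33) (@Lb.r r8 (@Lb.r r1174 (@Lb.r r2401 (@Lb.r r1691 (@Lb.g g6 (@Lb.t (@Lb.fm (nat_lit 3) t4899))))))))
noncomputable def l34327 : Lb := (@Lb.d (nat_lit 128) (nat_lit 256) (nat_lit 128) (@Lb.g g8 (@Lb.g g11 (@Lb.r r324 (@Lb.r r2587 (@Lb.r r1540 (@Lb.d (nat_lit 538) (nat_lit 130) (nat_lit 394) (@Lb.fp (nat_lit 3) t4646))))))))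
noncomputable def l34328 : Lb := (@Lb.d (nat_lit 262) (nat_lit 264) (nat_lit 100) (@Lb.r r597 (@Lb.r r1386 (@Lb.r r1096 (@Lb.r r1371 (@Lb.g g7 (@Lb.g g6 (@Lb.g g5 (@Lb.d (nat_lit 4) (nat_lit 1) (nat_lit 64) (@Lb.t (@Lb.fm (nat_lit 9) t4859)))))))))))
noncomputable def l34329 : Lb := (@Lb.d (nat_lit 128) (nat_lit 288) (nat_lit 136) (@Lb.g g11 (@Lb.r r420 (@Lb.r r2469 (@Lb.r r1446 (@Lb.r r347 (@Lb.d (nat_lit 298) (nat_lit 153) (nat_lit 678) (@Lb.t (@Lb.fp (nat_lit 3) t322)))))))))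
noncomputable def l34330 : Lb := (@Lb.d (nat_lit 0) (nat_lit 512) (nat_lit 136) (@Lb.g g11 (@Lb.r r405 (@Lb.r r2454 (@Lb.r r2411 (@Lb.r r1124 (@Lb.d (nat_lit 517) (nat_lit 1) (nat_lit 144) (@Lb.t (@Lb.fm (nat_lit 3) t2014)))))))))
noncomputable def l34331 : Lb := (@Lb.r r82 (@Lb.d (nat_lit 0) (nat_lit 514) (nat_lit 128) (@Lb.g g8 (@Lb.g g9 (@Lb.g g11 (@Lb.r r2659 (@Lb.r r386 (@Lb.r r1109 (@Lb.r r1124 (@Lb.d (nat_lit 610) (nat_lit 136) (nat_lit 512) (@Lb.t (@Lb.fm (nat_lit 9) t2538))))))))))))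
noncomputable def l34332 : Lb := (@Lb.d (nat_lit 86) (nat_lit 581) (nat_lit 582) (@Lb.r r326 (@Lb.r r660 (@Lb.g g6 (@Lb.g g9 (@Lb.d (nat_lit 20) (nat_lit 34) (nat_lit 2) (@Lb.fp (nat_lit 3) t3013)))))))
noncomputable def l34333 : Lb := (@Lb.r r81 (@Lb.d (nat_lit 10) (nat_lit 512) (nat_lit 34) (@Lb.g g8 (@Lb.g g10 (@Lb.r r1381 (@Lb.r r2579 (@Lb.r r392 (@Lb.d (nat_lit 388) (nat_lit 1) (nat_lit 664) (@Lb.fp (nat_lit 3) t6136)))))))))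
noncomputable def l34334 : Lb := (@Lb.d (nat_lit 5) (nat_lit 672) (nat_lit 274) (@Lb.r r1169 (@Lb.r r1383 (@Lb.r r1626 (@Lb.r r2660 (@Lb.g g5 (@Lb.d (nat_lit 8) (nat_lit 2) (nat_lit 0) (@Lb.t (@Lb.fm (nat_lit 3) t338)))))))))
noncomputable def l34335 : Lb := (@Lb.d (nat_lit 133) (nat_lit 664) (nat_lit 296) (@Lb.r r1044 (@Lb.r r1361 (@Lb.r r2339 (@Lb.g g6 (@Lb.g g5 (@Lb.g g4 (@Lb.d (nat_lit 37) (nat_lit 17) (nat_lit 17) (@Lb.t (@Lb.fp (nat_lit 9) t6137))))))))))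
noncomputable def l34336 : Lb := (@Lb.r r82 (@Lb.r r275 (@Lb.d (nat_lit 8) (nat_lit 2) (nat_lit 0) (@Lb.g g5 (@Lb.r r150 (@Lb.r r360 (@Lb.r r391 (@Lb.r r353 (@Lb.d (nat_lit 280) (nat_lit 25) (nat_lit 32) (@Lb.t (@Lb.fp (nat_lit 3) t2603)))))))))))
noncomputable def l34337 : Lb := (@Lb.r r82 (@Lb.d (nat_lit 8) (nat_lit 512) (nat_lit 128) (@Lb.g g9 (@Lb.g g11 (@Lb.r r1364 (@Lb.r r1691 (@Lb.r r1370 (@Lb.r r2705 (@Lb.d (nat_lit 320) (nat_lit 16) (nat_lit 353) (@Lb.fp (nat_lit 3) t217))))))))))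
noncomputable def l34338 : Lb := (@Lb.r r273 (@Lb.r r322 (@Lb.d (nat_lit 0) (nat_lit 512) (nat_lit 320) (@Lb.g g7 (@Lb.r r280 (@Lb.r r101 (@Lb.r r146 (@Lb.d (nat_lit 0) (nat_lit 129) (nat_lit 514) (@Lb.t (@Lb.fp (nat_lit 3) t243))))))))))
noncomputable def l34339 : Lb := (@Lb.d (nat_lit 4) (nat_lit 342) (nat_lit 257) (@Lb.r r1301 (@Lb.r r2411 (@Lb.r r2722 (@Lb.g g7 (@Lb.g g6 (@Lb.g g5 (@Lb.g g4 (@Lb.d (nat_lit 1) (nat_lit 6) (nat_lit 132) (@Lb.fm (nat_lit 9) t2605))))))))))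
noncomputable def l34340 : Lb := (@Lb.r r82 (@Lb.d (nat_lit 8) (nat_lit 273) (nat_lit 0) (@Lb.g g9 (@Lb.g g11 (@Lb.r r1364 (@Lb.r r1434 (@Lb.r r2641 (@Lb.r r411 (@Lb.d (nat_lit 130) (nat_lit 65) (nat_lit 353) (@Lb.fp (nat_lit 3) t217))))))))))
noncomputable def l34341 : Lb := (@Lb.d (nat_lit 0) (nat_lit 548) (nat_lit 10) (@Lb.g g9 (@Lb.g g10 (@Lb.g g11 (@Lb.r r387 (@Lb.r r1177 (@Lb.r r2458 (@Lb.r r24 (@Lb.d (nat_lit 593) (nat_lit 0) (nat_lit 169) (@Lb.t (@Lb.fm (nat_lit 9) t2504)))))))))))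
noncomputable def l34342 : Lb := (@Lb.d (nat_lit 608) (nat_lit 36) (nat_lit 10) (@Lb.g g4 (@Lb.g g9 (@Lb.g g10 (@Lb.g g11 (@Lb.r r387 (@Lb.r r1169 (@Lb.r r2450 (@Lb.d (nat_lit 1) (nat_lit 85) (nat_lit 169) (@Lb.fp (nat_lit 9) t2605))))))))))
noncomputable def l34343 : Lb := (@Lb.r r82 (@Lb.d (nat_lit 8) (nat_lit 290) (nat_lit 64) (@Lb.g g9 (@Lb.g g11 (@Lb.r r1579 (@Lb.r r2068 (@Lb.r r1449 (@Lb.r r98 (@Lb.d (nat_lit 38) (nat_lit 1) (nat_lit 169) (@Lb.fm (nat_lit 3) t1606))))))))))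
noncomputable def l34344 : Lb := (@Lb.d (nat_lit 8) (nat_lit 260) (nat_lit 74) (@Lb.g g9 (@Lb.g g10 (@Lb.g g11 (@Lb.r r1703 (@Lb.r r2658 (@Lb.r r24 (@Lb.r r101 (@Lb.d (nat_lit 341) (nat_lit 26) (nat_lit 132) (@Lb.t (@Lb.fp (nat_lit 9) t3953)))))))))))
noncomputable def l34345 : Lb := (@Lb.r r82 (@Lb.d (nat_lit 0) (nat_lit 545) (nat_lit 64) (@Lb.g g9 (@Lb.g g11 (@Lb.r r1571 (@Lb.r r1430 (@Lb.r r2664 (@Lb.r r2585 (@Lb.d (nat_lit 384) (nat_lit 16) (nat_lit 133) (@Lb.fp (nat_lit 3) t6138))))))))))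
noncomputable def l34346 : Lb := (@Lb.d (nat_lit 0) (nat_lit 256) (nat_lit 2) (@Lb.g g9 (@Lb.g g10 (@Lb.g g7 (@Lb.r r2470 (@Lb.r r1624 (@Lb.r r2341 (@Lb.d (nat_lit 585) (nat_lit 130) (nat_lit 320) (@Lb.t (@Lb.fm (nat_lit 9) t2118))))))))))
noncomputable def l34347 : Lb := (@Lb.r r323 (@Lb.d (nat_lit 550) (nat_lit 544) (nat_lit 2) (@Lb.g g8 (@Lb.g g9 (@Lb.g g10 (@Lb.r r2410 (@Lb.r r403 (@Lb.r r529 (@Lb.d (nat_lit 128) (nat_lit 34) (nat_lit 592) (@Lb.t (@Lb.fm (nat_lit 9) t1244)))))))))))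
noncomputable def l34348 : Lb := (@Lb.r r323 (@Lb.d (nat_lit 32) (nat_lit 520) (nat_lit 2) (@Lb.g g6 (@Lb.r r1365 (@Lb.r r1428 (@Lb.r r2667 (@Lb.r r1350 (@Lb.d (nat_lit 128) (nat_lit 10) (nat_lit 641) (@Lb.t (@Lb.fp (nat_lit 3) t939))))))))))
noncomputable def l34349 : Lb := (@Lb.r r323 (@Lb.d (nat_lit 549) (nat_lit 0) (nat_lit 2) (@Lb.g g8 (@Lb.g g9 (@Lb.g g10 (@Lb.r r618 (@Lb.r r1635 (@Lb.r r1553 (@Lb.d (nat_lit 128) (nat_lit 162) (nat_lit 320) (@Lb.t (@Lb.fp (nat_lit 9) t829)))))))))))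
noncomputable def l34350 : Lb := (@Lb.r r323 (@Lb.d (nat_lit 550) (nat_lit 5) (nat_lit 0) (@Lb.g g8 (@Lb.g g9 (@Lb.g g10 (@Lb.r r618 (@Lb.r r1635 (@Lb.r r1553 (@Lb.d (nat_lit 129) (nat_lit 162) (nat_lit 320) (@Lb.t (@Lb.fp (nat_lit 9) t6139)))))))))))
noncomputable def l34351 : Lb := (@Lb.d (nat_lit 8) (nat_lit 36) (nat_lit 581) (@Lb.g g9 (@Lb.g g10 (@Lb.g g7 (@Lb.r r426 (@Lb.r r1044 (@Lb.r r2153 (@Lb.d (nat_lit 616) (nat_lit 73) (nat_lit 610) (@Lb.t (@Lb.fp (nat_lit 9) t2707))))))))))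
noncomputable def l34352 : Lb := (@Lb.d (nat_lit 8) (nat_lit 4) (nat_lit 1) (@Lb.g g9 (@Lb.g g10 (@Lb.g g7 (@Lb.r r426 (@Lb.r r20 (@Lb.r r105 (@Lb.d (nat_lit 97) (nat_lit 137) (nat_lit 322) (@Lb.t (@Lb.fp (nat_lit 9) t2808))))))))))
noncomputable def l34353 : Lb := (@Lb.d (nat_lit 8) (nat_lit 2) (nat_lit 0) (@Lb.g g9 (@Lb.g g10 (@Lb.g g7 (@Lb.r r426 (@Lb.r r20 (@Lb.r r105 (@Lb.d (nat_lit 102) (nat_lit 138) (nat_lit 322) (@Lb.t (@Lb.fp (nat_lit 9) t1628))))))))))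
noncomputable def l34354 : Lb := (@Lb.r r355 (@Lb.d (nat_lit 2) (nat_lit 1) (nat_lit 18) (@Lb.g g8 (@Lb.g g9 (@Lb.g g6 (@Lb.r r2667 (@Lb.r r1625 (@Lb.r r2564 (@Lb.d (nat_lit 170) (nat_lit 74) (nat_lit 417) (@Lb.t (@Lb.fm (nat_lit 9) t4724)))))))))))
noncomputable def l34355 : Lb := (@Lb.d (nat_lit 680) (nat_lit 33) (nat_lit 153) (@Lb.r r1057 (@Lb.r r1610 (@Lb.r r600 (@Lb.g g11 (@Lb.g g6 (@Lb.d (nat_lit 16) (nat_lit 16) (nat_lit 330) (@Lb.fp (nat_lit 3) t2211))))))))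
noncomputable def l34356 : Lb := (@Lb.r r21 (@Lb.d (nat_lit 2) (nat_lit 256) (nat_lit 73) (@Lb.g g8 (@Lb.g g10 (@Lb.g g11 (@Lb.r r2634 (@Lb.r r579 (@Lb.r r149 (@Lb.r r72 (@Lb.d (nat_lit 384) (nat_lit 0) (nat_lit 358) (@Lb.t (@Lb.fm (nat_lit 9) t61))))))))))))
noncomputable def l34357 : Lb := (@Lb.d (nat_lit 658) (nat_lit 512) (nat_lit 0) (@Lb.r r21 (@Lb.r r70 (@Lb.g g4 (@Lb.d (nat_lit 353) (nat_lit 0) (nat_lit 0) (@Lb.r r74 (@Lb.r r25 (@Lb.t (@Lb.fm (nat_lit 3) t647)))))))))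
noncomputable def l34358 : Lb := (@Lb.d (nat_lit 0) (nat_lit 10) (nat_lit 0) (@Lb.g g8 (@Lb.g g9 (@Lb.r r326 (@Lb.r r664 (@Lb.r r411 (@Lb.r r533 (@Lb.d (nat_lit 4) (nat_lit 162) (nat_lit 330) (@Lb.fp (nat_lit 3) t242)))))))))
noncomputable def l34359 : Lb := (@Lb.d (nat_lit 554) (nat_lit 518) (nat_lit 17) (@Lb.r r101 (@Lb.g g7 (@Lb.g g6 (@Lb.d (nat_lit 0) (nat_lit 4) (nat_lit 70) (@Lb.fp (nat_lit 3) t657))))))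
noncomputable def l34360 : Lb := (@Lb.g g7 (@Lb.r r101 (@Lb.r r402 (@Lb.d (nat_lit 514) (nat_lit 600) (nat_lit 354) (@Lb.t (@Lb.fm (nat_lit 3) t452))))))
noncomputable def l34361 : Lb := (@Lb.d (nat_lit 8) (nat_lit 0) (nat_lit 137) (@Lb.g g9 (@Lb.g g10 (@Lb.g g11 (@Lb.r r600 (@Lb.r r1638 (@Lb.r r2403 (@Lb.r r337 (@Lb.d (nat_lit 129) (nat_lit 150) (nat_lit 326) (@Lb.t (@Lb.fp (nat_lit 9) t4699)))))))))))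
noncomputable def l34362 : Lb := (@Lb.d (nat_lit 0) (nat_lit 0) (nat_lit 73) (@Lb.g g9 (@Lb.g g10 (@Lb.g g11 (@Lb.r r2691 (@Lb.r r2658 (@Lb.d (nat_lit 0) (nat_lit 32) (nat_lit 296) (@Lb.t (@Lb.fp (nat_lit 9) t71)))))))))
noncomputable def l34363 : Lb := (@Lb.d (nat_lit 657) (nat_lit 0) (nat_lit 262) (@Lb.r r24 (@Lb.r r101 (@Lb.r r386 (@Lb.g g11 (@Lb.g g6 (@Lb.g g5 (@Lb.d (nat_lit 0) (nat_lit 0) (nat_lit 70) (@Lb.t (@Lb.fp (nat_lit 9) t2636))))))))))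
noncomputable def l34364 : Lb := (@Lb.d (nat_lit 646) (nat_lit 258) (nat_lit 66) (@Lb.g g8 (@Lb.g g9 (@Lb.g g10 (@Lb.g g11 (@Lb.r r2475 (@Lb.r r1130 (@Lb.r r1049 (@Lb.d (nat_lit 521) (nat_lit 136) (nat_lit 425) (@Lb.fp (nat_lit 9) t898))))))))))
noncomputable def l34365 : Lb := (@Lb.d (nat_lit 4) (nat_lit 514) (nat_lit 130) (@Lb.g g8 (@Lb.g g9 (@Lb.g g10 (@Lb.g g11 (@Lb.r r1451 (@Lb.r r1321 (@Lb.r r104 (@Lb.r r70 (@Lb.r r132 (@Lb.d (nat_lit 9) (nat_lit 73) (nat_lit 681) (@Lb.fp (nat_lit 9) t51))))))))))))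
noncomputable def l34366 : Lb := (@Lb.d (nat_lit 616) (nat_lit 85) (nat_lit 538) (@Lb.r r1384 (@Lb.r r297 (@Lb.r r418 (@Lb.g g11 (@Lb.g g5 (@Lb.g g4 (@Lb.d (nat_lit 16) (nat_lit 18) (nat_lit 264) (@Lb.r r578 (@Lb.t (@Lb.fp (nat_lit 9) t495)))))))))))
noncomputable def l34367 : Lb := (@Lb.d (nat_lit 9) (nat_lit 0) (nat_lit 0) (@Lb.r r82 (@Lb.r r275 (@Lb.g g9 (@Lb.d (nat_lit 0) (nat_lit 2) (nat_lit 0) (@Lb.r r291 (@Lb.r r98 (@Lb.t (@Lb.fp (nat_lit 3) t5)))))))))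
noncomputable def l34368 : Lb := (@Lb.d (nat_lit 393) (nat_lit 360) (nat_lit 329) (@Lb.r r657 (@Lb.r r2198 (@Lb.r r1368 (@Lb.r r2727 (@Lb.g g7 (@Lb.g g6 (@Lb.g g5 (@Lb.d (nat_lit 4) (nat_lit 5) (nat_lit 64) (@Lb.t (@Lb.fm (nat_lit 9) t4408)))))))))))
noncomputable def l34369 : Lb := (@Lb.d (nat_lit 0) (nat_lit 512) (nat_lit 2) (@Lb.g g10 (@Lb.g g7 (@Lb.r r386 (@Lb.r r24 (@Lb.d (nat_lit 1) (nat_lit 64) (nat_lit 9) (@Lb.fp (nat_lit 3) t2)))))))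
noncomputable def l34370 : Lb := (@Lb.d (nat_lit 6) (nat_lit 576) (nat_lit 74) (@Lb.g g4 (@Lb.g g9 (@Lb.g g10 (@Lb.g g11 (@Lb.r r610 (@Lb.r r579 (@Lb.d (nat_lit 1) (nat_lit 33) (nat_lit 74) (@Lb.fp (nat_lit 9) t51)))))))))
noncomputable def l34371 : Lb := (@Lb.d (nat_lit 2) (nat_lit 516) (nat_lit 128) (@Lb.g g8 (@Lb.g g9 (@Lb.g g10 (@Lb.g g11 (@Lb.r r610 (@Lb.r r1607 (@Lb.r r97 (@Lb.r r2436 (@Lb.d (nat_lit 146) (nat_lit 10) (nat_lit 392) (@Lb.fp (nat_lit 9) t1667)))))))))))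
noncomputable def l34372 : Lb := (@Lb.r r82 (@Lb.r r275 (@Lb.d (nat_lit 0) (nat_lit 257) (nat_lit 0) (@Lb.g g8 (@Lb.g g5 (@Lb.r r2315 (@Lb.r r98 (@Lb.r r24 (@Lb.d (nat_lit 264) (nat_lit 2) (nat_lit 64) (@Lb.fm (nat_lit 3) t5756))))))))))
noncomputable def l34373 : Lb := (@Lb.d (nat_lit 34) (nat_lit 512) (nat_lit 0) (@Lb.g g4 (@Lb.g g11 (@Lb.r r426 (@Lb.r r289 (@Lb.r r680 (@Lb.d (nat_lit 169) (nat_lit 128) (nat_lit 138) (@Lb.fm (nat_lit 3) t1115))))))))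
noncomputable def l34374 : Lb := (@Lb.d (nat_lit 32) (nat_lit 256) (nat_lit 2) (@Lb.g g9 (@Lb.g g10 (@Lb.r r515 (@Lb.r r1685 (@Lb.r r100 (@Lb.r r602 (@Lb.d (nat_lit 297) (nat_lit 132) (nat_lit 0) (@Lb.fp (nat_lit 3) t907)))))))))
noncomputable def l34375 : Lb := (@Lb.d (nat_lit 410) (nat_lit 89) (nat_lit 165) (@Lb.r r2406 (@Lb.r r1700 (@Lb.r r1431 (@Lb.g g6 (@Lb.g g9 (@Lb.d (nat_lit 16) (nat_lit 66) (nat_lit 6) (@Lb.r r387 (@Lb.fp (nat_lit 3) t3240)))))))))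
noncomputable def l34376 : Lb := (@Lb.d (nat_lit 0) (nat_lit 256) (nat_lit 66) (@Lb.g g8 (@Lb.g g9 (@Lb.g g10 (@Lb.g g7 (@Lb.r r386 (@Lb.r r101 (@Lb.r r24 (@Lb.d (nat_lit 352) (nat_lit 0) (nat_lit 521) (@Lb.fp (nat_lit 9) t1150))))))))))
noncomputable def l34377 : Lb := (@Lb.d (nat_lit 4) (nat_lit 256) (nat_lit 130) (@Lb.g g8 (@Lb.g g9 (@Lb.g g10 (@Lb.g g11 (@Lb.r r1299 (@Lb.r r2666 (@Lb.r r612 (@Lb.r r533 (@Lb.r r2084 (@Lb.d (nat_lit 408) (nat_lit 90) (nat_lit 425) (@Lb.fp (nat_lit 9) t826))))))))))))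
noncomputable def l34378 : Lb := (@Lb.d (nat_lit 138) (nat_lit 256) (nat_lit 0) (@Lb.g g8 (@Lb.r r1621 (@Lb.r r2391 (@Lb.r r2178 (@Lb.r r1544 (@Lb.d (nat_lit 585) (nat_lit 73) (nat_lit 658) (@Lb.t (@Lb.fp (nat_lit 3) t1282)))))))))
noncomputable def l34379 : Lb := (@Lb.d (nat_lit 26) (nat_lit 256) (nat_lit 161) (@Lb.r r89 (@Lb.r r1112 (@Lb.r r422 (@Lb.g g11 (@Lb.g g5 (@Lb.d (nat_lit 4) (nat_lit 18) (nat_lit 264) (@Lb.r r578 (@Lb.fp (nat_lit 3) t495)))))))))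
noncomputable def l34380 : Lb := (@Lb.r r263 (@Lb.d (nat_lit 0) (nat_lit 514) (nat_lit 2) (@Lb.g g8 (@Lb.g g9 (@Lb.g g10 (@Lb.r r422 (@Lb.r r327 (@Lb.r r409 (@Lb.r r388 (@Lb.d (nat_lit 344) (nat_lit 9) (nat_lit 513) (@Lb.t (@Lb.fp (nat_lit 9) t4575))))))))))))
noncomputable def l34381 : Lb := (@Lb.d (nat_lit 134) (nat_lit 290) (nat_lit 66) (@Lb.g g8 (@Lb.g g9 (@Lb.g g10 (@Lb.g g11 (@Lb.r r2666 (@Lb.r r612 (@Lb.r r1319 (@Lb.r r2069 (@Lb.r r2084 (@Lb.d (nat_lit 264) (nat_lit 102) (nat_lit 360) (@Lb.fp (nat_lit 9) t3335))))))))))))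
noncomputable def l34382 : Lb := (@Lb.d (nat_lit 0) (nat_lit 0) (nat_lit 130) (@Lb.g g9 (@Lb.g g10 (@Lb.g g11 (@Lb.r r586 (@Lb.r r584 (@Lb.r r299 (@Lb.r r409 (@Lb.d (nat_lit 528) (nat_lit 69) (nat_lit 34) (@Lb.t (@Lb.fp (nat_lit 9) t1233)))))))))))
noncomputable def l34383 : Lb := (@Lb.d (nat_lit 674) (nat_lit 513) (nat_lit 389) (@Lb.r r330 (@Lb.r r2376 (@Lb.r r1555 (@Lb.g g6 (@Lb.g g5 (@Lb.d (nat_lit 16) (nat_lit 16) (nat_lit 1) (@Lb.r r387 (@Lb.fm (nat_lit 3) t1400)))))))))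
noncomputable def l34384 : Lb := (@Lb.d (nat_lit 8) (nat_lit 2) (nat_lit 130) (@Lb.g g9 (@Lb.g g10 (@Lb.g g11 (@Lb.r r1447 (@Lb.r r2120 (@Lb.r r1622 (@Lb.r r409 (@Lb.d (nat_lit 282) (nat_lit 132) (nat_lit 169) (@Lb.t (@Lb.fp (nat_lit 9) t450)))))))))))
noncomputable def l34385 : Lb := (@Lb.d (nat_lit 665) (nat_lit 88) (nat_lit 409) (@Lb.r r101 (@Lb.r r323 (@Lb.g g10 (@Lb.d (nat_lit 0) (nat_lit 8) (nat_lit 21) (@Lb.r r387 (@Lb.t (@Lb.fm (nat_lit 3) t3686))))))))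
noncomputable def l34386 : Lb := (@Lb.d (nat_lit 10) (nat_lit 256) (nat_lit 66) (@Lb.g g8 (@Lb.g g9 (@Lb.g g10 (@Lb.g g7 (@Lb.r r386 (@Lb.r r152 (@Lb.r r2133 (@Lb.d (nat_lit 18) (nat_lit 132) (nat_lit 41) (@Lb.fm (nat_lit 9) t2893))))))))))
noncomputable def l34387 : Lb := (@Lb.r r82 (@Lb.r r275 (@Lb.d (nat_lit 2) (nat_lit 2) (nat_lit 0) (@Lb.g g8 (@Lb.g g9 (@Lb.r r1303 (@Lb.r r1110 (@Lb.r r2089 (@Lb.r r36 (@Lb.d (nat_lit 265) (nat_lit 1) (nat_lit 0) (@Lb.fp (nat_lit 3) t68)))))))))))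
noncomputable def l34388 : Lb := (@Lb.d (nat_lit 2) (nat_lit 2) (nat_lit 66) (@Lb.g g8 (@Lb.g g9 (@Lb.g g10 (@Lb.g g11 (@Lb.r r1706 (@Lb.r r676 (@Lb.r r551 (@Lb.r r1557 (@Lb.r r1060 (@Lb.d (nat_lit 649) (nat_lit 65) (nat_lit 361) (@Lb.fp (nat_lit 9) t396))))))))))))
noncomputable def l34389 : Lb := (@Lb.d (nat_lit 2) (nat_lit 261) (nat_lit 64) (@Lb.g g8 (@Lb.g g9 (@Lb.g g10 (@Lb.g g11 (@Lb.r r1642 (@Lb.r r2073 (@Lb.d (nat_lit 265) (nat_lit 25) (nat_lit 418) (@Lb.fp (nat_lit 9) t69)))))))))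
noncomputable def l34390 : Lb := (@Lb.d (nat_lit 160) (nat_lit 520) (nat_lit 66) (@Lb.g g10 (@Lb.g g11 (@Lb.r r2712 (@Lb.r r2645 (@Lb.r r599 (@Lb.r r1370 (@Lb.d (nat_lit 298) (nat_lit 17) (nat_lit 37) (@Lb.fm (nat_lit 3) t716)))))))))
noncomputable def l34391 : Lb := (@Lb.r r21 (@Lb.r r70 (@Lb.d (nat_lit 129) (nat_lit 512) (nat_lit 64) (@Lb.g g8 (@Lb.g g11 (@Lb.r r1303 (@Lb.r r2410 (@Lb.r r1573 (@Lb.r r2344 (@Lb.d (nat_lit 520) (nat_lit 32) (nat_lit 512) (@Lb.fm (nat_lit 3) t68)))))))))))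
noncomputable def l34392 : Lb := (@Lb.d (nat_lit 100) (nat_lit 420) (nat_lit 101) (@Lb.r r408 (@Lb.r r330 (@Lb.r r343 (@Lb.g g5 (@Lb.g g4 (@Lb.d (nat_lit 17) (nat_lit 4) (nat_lit 0) (@Lb.r r291 (@Lb.r r98 (@Lb.fp (nat_lit 3) t50))))))))))
noncomputable def l34393 : Lb := (@Lb.r r21 (@Lb.d (nat_lit 10) (nat_lit 512) (nat_lit 66) (@Lb.g g8 (@Lb.g g10 (@Lb.g g11 (@Lb.r r667 (@Lb.r r2405 (@Lb.r r1178 (@Lb.r r1156 (@Lb.d (nat_lit 345) (nat_lit 65) (nat_lit 342) (@Lb.t (@Lb.fp (nat_lit 9) t1025))))))))))))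
noncomputable def l34394 : Lb := (@Lb.d (nat_lit 1) (nat_lit 2) (nat_lit 133) (@Lb.g g8 (@Lb.g g9 (@Lb.g g10 (@Lb.g g11 (@Lb.r r1371 (@Lb.r r1449 (@Lb.r r1448 (@Lb.r r1130 (@Lb.d (nat_lit 549) (nat_lit 138) (nat_lit 138) (@Lb.fp (nat_lit 9) t6140)))))))))))
noncomputable def l34395 : Lb := (@Lb.d (nat_lit 2) (nat_lit 514) (nat_lit 64) (@Lb.g g8 (@Lb.g g9 (@Lb.g g10 (@Lb.g g11 (@Lb.r r657 (@Lb.r r612 (@Lb.r r666 (@Lb.r r132 (@Lb.d (nat_lit 73) (nat_lit 2) (nat_lit 74) (@Lb.fm (nat_lit 9) t521)))))))))))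
noncomputable def l34396 : Lb := (@Lb.d (nat_lit 0) (nat_lit 522) (nat_lit 72) (@Lb.g g9 (@Lb.g g10 (@Lb.g g11 (@Lb.r r2726 (@Lb.r r328 (@Lb.r r535 (@Lb.r r289 (@Lb.d (nat_lit 641) (nat_lit 144) (nat_lit 64) (@Lb.t (@Lb.fm (nat_lit 9) t3457)))))))))))
noncomputable def l34397 : Lb := (@Lb.d (nat_lit 0) (nat_lit 512) (nat_lit 10) (@Lb.g g10 (@Lb.g g11 (@Lb.r r610 (@Lb.r r323 (@Lb.d (nat_lit 0) (nat_lit 17) (nat_lit 137) (@Lb.fm (nat_lit 3) t1359)))))))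
noncomputable def l34398 : Lb := (@Lb.d (nat_lit 8) (nat_lit 33) (nat_lit 0) (@Lb.g g9 (@Lb.r r2587 (@Lb.r r2178 (@Lb.r r2580 (@Lb.r r1433 (@Lb.d (nat_lit 666) (nat_lit 90) (nat_lit 656) (@Lb.t (@Lb.fp (nat_lit 3) t100)))))))))
noncomputable def l34399 : Lb := (@Lb.d (nat_lit 8) (nat_lit 289) (nat_lit 0) (@Lb.g g9 (@Lb.r r2587 (@Lb.r r2178 (@Lb.r r2580 (@Lb.r r1433 (@Lb.d (nat_lit 666) (nat_lit 85) (nat_lit 658) (@Lb.t (@Lb.fp (nat_lit 3) t100)))))))))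
noncomputable def l34400 : Lb := (@Lb.d (nat_lit 0) (nat_lit 10) (nat_lit 130) (@Lb.g g5 (@Lb.g g10 (@Lb.g g11 (@Lb.r r2626 (@Lb.r r579 (@Lb.d (nat_lit 0) (nat_lit 0) (nat_lit 586) (@Lb.t (@Lb.fm (nat_lit 9) t5)))))))))
noncomputable def l34401 : Lb := (@Lb.d (nat_lit 273) (nat_lit 522) (nat_lit 33) (@Lb.r r24 (@Lb.r r101 (@Lb.g g7 (@Lb.g g6 (@Lb.d (nat_lit 0) (nat_lit 4) (nat_lit 1) (@Lb.fm (nat_lit 3) t2129)))))))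
noncomputable def l34402 : Lb := (@Lb.d (nat_lit 0) (nat_lit 82) (nat_lit 394) (@Lb.r r657 (@Lb.r r602 (@Lb.r r356 (@Lb.g g11 (@Lb.g g5 (@Lb.d (nat_lit 8) (nat_lit 1) (nat_lit 256) (@Lb.r r578 (@Lb.fp (nat_lit 3) t6141)))))))))
noncomputable def l34403 : Lb := (@Lb.d (nat_lit 144) (nat_lit 321) (nat_lit 640) (@Lb.r r101 (@Lb.r r24 (@Lb.r r402 (@Lb.g g9 (@Lb.t (@Lb.fm (nat_lit 3) t5473)))))))
noncomputable def l34404 : Lb := (@Lb.r r82 (@Lb.r r275 (@Lb.d (nat_lit 130) (nat_lit 522) (nat_lit 0) (@Lb.g g8 (@Lb.g g9 (@Lb.r r663 (@Lb.r r146 (@Lb.r r2456 (@Lb.d (nat_lit 410) (nat_lit 82) (nat_lit 513) (@Lb.fp (nat_lit 3) t1754))))))))))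
noncomputable def l34405 : Lb := (@Lb.d (nat_lit 8) (nat_lit 514) (nat_lit 0) (@Lb.g g9 (@Lb.r r402 (@Lb.r r24 (@Lb.r r101 (@Lb.d (nat_lit 144) (nat_lit 152) (nat_lit 2) (@Lb.t (@Lb.fm (nat_lit 3) t240))))))))
noncomputable def l34406 : Lb := (@Lb.d (nat_lit 129) (nat_lit 0) (nat_lit 0) (@Lb.g g8 (@Lb.r r2473 (@Lb.r r599 (@Lb.r r2178 (@Lb.r r1384 (@Lb.d (nat_lit 405) (nat_lit 170) (nat_lit 597) (@Lb.t (@Lb.fp (nat_lit 3) t124)))))))))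
noncomputable def l34407 : Lb := (@Lb.r r81 (@Lb.d (nat_lit 161) (nat_lit 516) (nat_lit 9) (@Lb.g g8 (@Lb.g g6 (@Lb.r r361 (@Lb.r r535 (@Lb.r r296 (@Lb.d (nat_lit 133) (nat_lit 34) (nat_lit 72) (@Lb.fm (nat_lit 3) t355)))))))))
noncomputable def l34408 : Lb := (@Lb.d (nat_lit 0) (nat_lit 545) (nat_lit 130) (@Lb.g g9 (@Lb.g g10 (@Lb.g g11 (@Lb.r r1699 (@Lb.r r1642 (@Lb.r r1561 (@Lb.d (nat_lit 681) (nat_lit 105) (nat_lit 641) (@Lb.t (@Lb.fp (nat_lit 9) t175))))))))))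
noncomputable def l34409 : Lb := (@Lb.d (nat_lit 0) (nat_lit 36) (nat_lit 128) (@Lb.g g9 (@Lb.g g10 (@Lb.g g11 (@Lb.r r1703 (@Lb.r r386 (@Lb.r r2328 (@Lb.r r1637 (@Lb.d (nat_lit 361) (nat_lit 66) (nat_lit 85) (@Lb.t (@Lb.fm (nat_lit 9) t152)))))))))))
noncomputable def l34410 : Lb := (@Lb.d (nat_lit 321) (nat_lit 533) (nat_lit 596) (@Lb.r r24 (@Lb.r r2657 (@Lb.r r2667 (@Lb.g g7 (@Lb.g g10 (@Lb.g g5 (@Lb.d (nat_lit 32) (nat_lit 1) (nat_lit 65) (@Lb.t (@Lb.fp (nat_lit 9) t490))))))))))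
noncomputable def l34411 : Lb := (@Lb.d (nat_lit 25) (nat_lit 98) (nat_lit 596) (@Lb.r r24 (@Lb.r r2661 (@Lb.r r2659 (@Lb.g g7 (@Lb.g g10 (@Lb.g g5 (@Lb.d (nat_lit 32) (nat_lit 0) (nat_lit 65) (@Lb.t (@Lb.fp (nat_lit 9) t490))))))))))
noncomputable def l34412 : Lb := (@Lb.d (nat_lit 16) (nat_lit 512) (nat_lit 2) (@Lb.g g6 (@Lb.r r324 (@Lb.r r411 (@Lb.r r609 (@Lb.r r36 (@Lb.d (nat_lit 8) (nat_lit 64) (nat_lit 17) (@Lb.t (@Lb.fp (nat_lit 3) t334)))))))))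
noncomputable def l34413 : Lb := (@Lb.d (nat_lit 2) (nat_lit 514) (nat_lit 130) (@Lb.g g8 (@Lb.g g9 (@Lb.g g10 (@Lb.g g11 (@Lb.r r2666 (@Lb.r r2664 (@Lb.r r2585 (@Lb.r r2651 (@Lb.d (nat_lit 361) (nat_lit 66) (nat_lit 132) (@Lb.fp (nat_lit 9) t2459)))))))))))
noncomputable def l34414 : Lb := (@Lb.d (nat_lit 10) (nat_lit 2) (nat_lit 138) (@Lb.g g11 (@Lb.g g9 (@Lb.fm (nat_lit 3) t2))))
noncomputable def l34415 : Lb := (@Lb.d (nat_lit 0) (nat_lit 88) (nat_lit 272) (@Lb.r r2641 (@Lb.r r323 (@Lb.r r2626 (@Lb.g g7 (@Lb.d (nat_lit 0) (nat_lit 0) (nat_lit 64) (@Lb.t (@Lb.fm (nat_lit 3) t3485))))))))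
noncomputable def l34416 : Lb := (@Lb.r r82 (@Lb.d (nat_lit 34) (nat_lit 2) (nat_lit 128) (@Lb.g g8 (@Lb.g g9 (@Lb.g g11 (@Lb.r r363 (@Lb.r r582 (@Lb.r r677 (@Lb.r r408 (@Lb.d (nat_lit 424) (nat_lit 26) (nat_lit 33) (@Lb.t (@Lb.fm (nat_lit 9) t1613))))))))))))
noncomputable def l34417 : Lb := (@Lb.d (nat_lit 0) (nat_lit 0) (nat_lit 10) (@Lb.g g9 (@Lb.g g10 (@Lb.r r1619 (@Lb.r r1378 (@Lb.d (nat_lit 0) (nat_lit 169) (nat_lit 657) (@Lb.fp (nat_lit 3) t3468)))))))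
noncomputable def l34418 : Lb := (@Lb.r r82 (@Lb.r r275 (@Lb.d (nat_lit 34) (nat_lit 642) (nat_lit 0) (@Lb.g g8 (@Lb.g g9 (@Lb.r r2727 (@Lb.r r150 (@Lb.r r100 (@Lb.d (nat_lit 26) (nat_lit 65) (nat_lit 2) (@Lb.fm (nat_lit 3) t6142))))))))))
noncomputable def l34419 : Lb := (@Lb.d (nat_lit 9) (nat_lit 1) (nat_lit 130) (@Lb.g g8 (@Lb.g g9 (@Lb.g g10 (@Lb.g g11 (@Lb.r r427 (@Lb.r r324 (@Lb.r r2218 (@Lb.r r1193 (@Lb.r r1188 (@Lb.d (nat_lit 608) (nat_lit 73) (nat_lit 546) (@Lb.fp (nat_lit 9) t386))))))))))))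
noncomputable def l34420 : Lb := (@Lb.r r82 (@Lb.d (nat_lit 1) (nat_lit 10) (nat_lit 128) (@Lb.g g8 (@Lb.g g9 (@Lb.g g11 (@Lb.r r363 (@Lb.r r150 (@Lb.r r85 (@Lb.d (nat_lit 6) (nat_lit 8) (nat_lit 137) (@Lb.t (@Lb.fp (nat_lit 9) t594)))))))))))
noncomputable def l34421 : Lb := (@Lb.d (nat_lit 389) (nat_lit 145) (nat_lit 322) (@Lb.r r1560 (@Lb.r r2145 (@Lb.r r363 (@Lb.g g10 (@Lb.g g4 (@Lb.d (nat_lit 65) (nat_lit 8) (nat_lit 38) (@Lb.fp (nat_lit 3) t524))))))))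
noncomputable def l34422 : Lb := (@Lb.r r275 (@Lb.d (nat_lit 1) (nat_lit 2) (nat_lit 10) (@Lb.g g8 (@Lb.g g5 (@Lb.g g10 (@Lb.r r1563 (@Lb.r r1684 (@Lb.r r1606 (@Lb.d (nat_lit 148) (nat_lit 4) (nat_lit 680) (@Lb.t (@Lb.fm (nat_lit 9) t6143)))))))))))
noncomputable def l34423 : Lb := (@Lb.d (nat_lit 1) (nat_lit 2) (nat_lit 2) (@Lb.g g8 (@Lb.g g9 (@Lb.g g10 (@Lb.g g11 (@Lb.r r1706 (@Lb.r r648 (@Lb.r r1563 (@Lb.r r2337 (@Lb.r r36 (@Lb.d (nat_lit 641) (nat_lit 100) (nat_lit 65) (@Lb.fp (nat_lit 9) t242))))))))))))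
noncomputable def l34424 : Lb := (@Lb.d (nat_lit 644) (nat_lit 18) (nat_lit 609) (@Lb.r r1317 (@Lb.r r283 (@Lb.r r408 (@Lb.r r346 (@Lb.g g7 (@Lb.g g6 (@Lb.g g5 (@Lb.d (nat_lit 4) (nat_lit 1) (nat_lit 65) (@Lb.t (@Lb.fp (nat_lit 9) t51)))))))))))
noncomputable def l34425 : Lb := (@Lb.d (nat_lit 2) (nat_lit 256) (nat_lit 130) (@Lb.g g8 (@Lb.g g10 (@Lb.g g11 (@Lb.r r2691 (@Lb.r r2198 (@Lb.r r1049 (@Lb.d (nat_lit 513) (nat_lit 102) (nat_lit 681) (@Lb.t (@Lb.fm (nat_lit 9) t71))))))))))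
noncomputable def l34426 : Lb := (@Lb.d (nat_lit 2) (nat_lit 321) (nat_lit 130) (@Lb.g g8 (@Lb.g g5 (@Lb.g g10 (@Lb.g g11 (@Lb.r r2691 (@Lb.r r146 (@Lb.d (nat_lit 2) (nat_lit 102) (nat_lit 681) (@Lb.fm (nat_lit 9) t71)))))))))
noncomputable def l34427 : Lb := (@Lb.r r323 (@Lb.d (nat_lit 16) (nat_lit 8) (nat_lit 26) (@Lb.g g10 (@Lb.r r579 (@Lb.r r1045 (@Lb.r r8 (@Lb.d (nat_lit 512) (nat_lit 64) (nat_lit 2) (@Lb.t (@Lb.fp (nat_lit 3) t51)))))))))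
noncomputable def l34428 : Lb := (@Lb.r r323 (@Lb.d (nat_lit 16) (nat_lit 264) (nat_lit 26) (@Lb.g g10 (@Lb.r r579 (@Lb.r r1045 (@Lb.r r8 (@Lb.d (nat_lit 512) (nat_lit 74) (nat_lit 1) (@Lb.t (@Lb.fp (nat_lit 3) t51)))))))))
noncomputable def l34429 : Lb := (@Lb.d (nat_lit 2) (nat_lit 258) (nat_lit 2) (@Lb.g g8 (@Lb.g g9 (@Lb.g g10 (@Lb.g g11 (@Lb.r r676 (@Lb.r r423 (@Lb.r r1169 (@Lb.r r146 (@Lb.r r1540 (@Lb.d (nat_lit 0) (nat_lit 10) (nat_lit 145) (@Lb.fm (nat_lit 9) t40))))))))))))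
noncomputable def l34430 : Lb := (@Lb.r r323 (@Lb.d (nat_lit 130) (nat_lit 2) (nat_lit 0) (@Lb.g g8 (@Lb.g g9 (@Lb.g g10 (@Lb.r r263 (@Lb.r r1169 (@Lb.r r146 (@Lb.r r548 (@Lb.d (nat_lit 128) (nat_lit 26) (nat_lit 145) (@Lb.t (@Lb.fp (nat_lit 9) t40))))))))))))
noncomputable def l34431 : Lb := (@Lb.r r323 (@Lb.d (nat_lit 130) (nat_lit 258) (nat_lit 0) (@Lb.g g8 (@Lb.g g9 (@Lb.g g10 (@Lb.r r263 (@Lb.r r1169 (@Lb.r r146 (@Lb.r r548 (@Lb.d (nat_lit 138) (nat_lit 25) (nat_lit 145) (@Lb.t (@Lb.fp (nat_lit 9) t40))))))))))))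
noncomputable def l34432 : Lb := (@Lb.r r21 (@Lb.r r70 (@Lb.r r263 (@Lb.g g8 (@Lb.r r267 (@Lb.r r402 (@Lb.r r25 (@Lb.d (nat_lit 2) (nat_lit 576) (nat_lit 512) (@Lb.t (@Lb.fm (nat_lit 3) t3778))))))))))
noncomputable def l34433 : Lb := (@Lb.d (nat_lit 1) (nat_lit 326) (nat_lit 582) (@Lb.r r386 (@Lb.r r339 (@Lb.g g7 (@Lb.g g6 (@Lb.g g5 (@Lb.d (nat_lit 4) (nat_lit 1) (nat_lit 65) (@Lb.t (@Lb.fm (nat_lit 9) t3011)))))))))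
noncomputable def l34434 : Lb := (@Lb.r r275 (@Lb.d (nat_lit 1) (nat_lit 512) (nat_lit 2) (@Lb.g g8 (@Lb.g g9 (@Lb.g g10 (@Lb.r r1579 (@Lb.r r386 (@Lb.r r617 (@Lb.r r36 (@Lb.d (nat_lit 101) (nat_lit 65) (nat_lit 154) (@Lb.t (@Lb.fp (nat_lit 9) t6144))))))))))))
noncomputable def l34435 : Lb := (@Lb.d (nat_lit 2) (nat_lit 258) (nat_lit 130) (@Lb.g g8 (@Lb.g g9 (@Lb.g g10 (@Lb.g g11 (@Lb.r r610 (@Lb.r r612 (@Lb.r r359 (@Lb.r r1381 (@Lb.r r516 (@Lb.d (nat_lit 281) (nat_lit 9) (nat_lit 17) (@Lb.fm (nat_lit 9) t3227))))))))))))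
noncomputable def l34436 : Lb := (@Lb.d (nat_lit 0) (nat_lit 522) (nat_lit 129) (@Lb.g g9 (@Lb.g g10 (@Lb.g g11 (@Lb.r r677 (@Lb.r r2658 (@Lb.r r2659 (@Lb.r r24 (@Lb.d (nat_lit 536) (nat_lit 85) (nat_lit 401) (@Lb.t (@Lb.fp (nat_lit 9) t2000)))))))))))
noncomputable def l34437 : Lb := (@Lb.r r1284 (@Lb.d (nat_lit 0) (nat_lit 538) (nat_lit 1) (@Lb.g g9 (@Lb.g g10 (@Lb.g g11 (@Lb.r r677 (@Lb.r r1634 (@Lb.r r1635 (@Lb.d (nat_lit 553) (nat_lit 90) (nat_lit 673) (@Lb.t (@Lb.fm (nat_lit 9) t1846)))))))))))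
noncomputable def l34438 : Lb := (@Lb.d (nat_lit 0) (nat_lit 522) (nat_lit 129) (@Lb.g g9 (@Lb.g g10 (@Lb.g g11 (@Lb.r r614 (@Lb.r r408 (@Lb.r r615 (@Lb.r r1637 (@Lb.d (nat_lit 409) (nat_lit 18) (nat_lit 528) (@Lb.t (@Lb.fp (nat_lit 9) t6145)))))))))))
noncomputable def l34439 : Lb := (@Lb.d (nat_lit 0) (nat_lit 0) (nat_lit 130) (@Lb.g g9 (@Lb.g g10 (@Lb.g g11 (@Lb.r r614 (@Lb.r r408 (@Lb.r r615 (@Lb.r r1637 (@Lb.d (nat_lit 410) (nat_lit 18) (nat_lit 528) (@Lb.t (@Lb.fp (nat_lit 9) t5102)))))))))))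
noncomputable def l34440 : Lb := (@Lb.d (nat_lit 1) (nat_lit 320) (nat_lit 512) (@Lb.r r1621 (@Lb.r r1619 (@Lb.r r358 (@Lb.g g4 (@Lb.d (nat_lit 1) (nat_lit 0) (nat_lit 0) (@Lb.t (@Lb.fp (nat_lit 3) t6146))))))))
noncomputable def l34441 : Lb := (@Lb.d (nat_lit 2) (nat_lit 256) (nat_lit 130) (@Lb.g g8 (@Lb.g g9 (@Lb.g g10 (@Lb.g g11 (@Lb.r r2731 (@Lb.r r1186 (@Lb.r r548 (@Lb.r r1173 (@Lb.r r36 (@Lb.d (nat_lit 289) (nat_lit 89) (nat_lit 281) (@Lb.fp (nat_lit 9) t3769))))))))))))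
noncomputable def l34442 : Lb := (@Lb.d (nat_lit 410) (nat_lit 69) (nat_lit 513) (@Lb.r r2394 (@Lb.r r2372 (@Lb.r r2325 (@Lb.r r1419 (@Lb.g g7 (@Lb.g g4 (@Lb.d (nat_lit 2) (nat_lit 0) (nat_lit 64) (@Lb.fm (nat_lit 3) t6147)))))))))
noncomputable def l34443 : Lb := (@Lb.r r70 (@Lb.d (nat_lit 137) (nat_lit 329) (nat_lit 128) (@Lb.g g8 (@Lb.g g9 (@Lb.g g11 (@Lb.r r2315 (@Lb.r r2198 (@Lb.r r2120 (@Lb.d (nat_lit 578) (nat_lit 4) (nat_lit 9) (@Lb.t (@Lb.fm (nat_lit 9) t868)))))))))))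
noncomputable def l34444 : Lb := (@Lb.d (nat_lit 1) (nat_lit 264) (nat_lit 2) (@Lb.g g8 (@Lb.g g10 (@Lb.g g11 (@Lb.r r2707 (@Lb.r r2345 (@Lb.r r1188 (@Lb.r r1638 (@Lb.d (nat_lit 409) (nat_lit 154) (nat_lit 69) (@Lb.t (@Lb.fm (nat_lit 9) t242)))))))))))
noncomputable def l34445 : Lb := (@Lb.d (nat_lit 1) (nat_lit 520) (nat_lit 2) (@Lb.g g8 (@Lb.g g10 (@Lb.g g11 (@Lb.r r2707 (@Lb.r r2345 (@Lb.r r1188 (@Lb.r r1158 (@Lb.d (nat_lit 289) (nat_lit 10) (nat_lit 648) (@Lb.t (@Lb.fp (nat_lit 9) t242)))))))))))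
noncomputable def l34446 : Lb := (@Lb.d (nat_lit 345) (nat_lit 645) (nat_lit 402) (@Lb.r r2312 (@Lb.r r1106 (@Lb.r r1623 (@Lb.g g6 (@Lb.g g5 (@Lb.g g4 (@Lb.d (nat_lit 65) (nat_lit 136) (nat_lit 0) (@Lb.r r387 (@Lb.t (@Lb.fp (nat_lit 9) t98)))))))))))
noncomputable def l34447 : Lb := (@Lb.d (nat_lit 10) (nat_lit 258) (nat_lit 2) (@Lb.g g8 (@Lb.g g9 (@Lb.g g10 (@Lb.g g11 (@Lb.r r164 (@Lb.r r1126 (@Lb.r r1381 (@Lb.r r1691 (@Lb.r r1668 (@Lb.d (nat_lit 2) (nat_lit 0) (nat_lit 18) (@Lb.fp (nat_lit 9) t2))))))))))))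
noncomputable def l34448 : Lb := (@Lb.r r275 (@Lb.d (nat_lit 9) (nat_lit 289) (nat_lit 2) (@Lb.g g8 (@Lb.g g5 (@Lb.g g10 (@Lb.r r1178 (@Lb.r r1668 (@Lb.r r1543 (@Lb.d (nat_lit 585) (nat_lit 0) (nat_lit 138) (@Lb.t (@Lb.fp (nat_lit 9) t6148)))))))))))
noncomputable def l34449 : Lb := (@Lb.r r70 (@Lb.d (nat_lit 9) (nat_lit 585) (nat_lit 0) (@Lb.g g8 (@Lb.g g9 (@Lb.g g11 (@Lb.r r2411 (@Lb.r r1174 (@Lb.r r72 (@Lb.d (nat_lit 16) (nat_lit 4) (nat_lit 153) (@Lb.t (@Lb.fm (nat_lit 9) t594)))))))))))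
noncomputable def l34450 : Lb := (@Lb.d (nat_lit 1) (nat_lit 520) (nat_lit 137) (@Lb.g g8 (@Lb.g g10 (@Lb.g g11 (@Lb.r r2707 (@Lb.r r2345 (@Lb.r r1188 (@Lb.r r1638 (@Lb.d (nat_lit 409) (nat_lit 154) (nat_lit 69) (@Lb.t (@Lb.fm (nat_lit 9) t242)))))))))))
noncomputable def l34451 : Lb := (@Lb.d (nat_lit 24) (nat_lit 512) (nat_lit 128) (@Lb.g g8 (@Lb.g g10 (@Lb.g g11 (@Lb.r r2691 (@Lb.r r1602 (@Lb.r r2581 (@Lb.r r292 (@Lb.d (nat_lit 74) (nat_lit 66) (nat_lit 393) (@Lb.t (@Lb.fp (nat_lit 9) t412)))))))))))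
noncomputable def l34452 : Lb := (@Lb.d (nat_lit 32) (nat_lit 264) (nat_lit 10) (@Lb.g g6 (@Lb.r r1705 (@Lb.r r2728 (@Lb.r r2731 (@Lb.r r682 (@Lb.d (nat_lit 169) (nat_lit 101) (nat_lit 72) (@Lb.t (@Lb.fm (nat_lit 3) t322)))))))))
noncomputable def l34453 : Lb := (@Lb.r r323 (@Lb.d (nat_lit 1) (nat_lit 4) (nat_lit 42) (@Lb.g g8 (@Lb.g g6 (@Lb.r r387 (@Lb.r r2073 (@Lb.d (nat_lit 390) (nat_lit 146) (nat_lit 336) (@Lb.fp (nat_lit 3) t4188))))))))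
noncomputable def l34454 : Lb := (@Lb.d (nat_lit 520) (nat_lit 6) (nat_lit 342) (@Lb.r r394 (@Lb.r r132 (@Lb.r r279 (@Lb.g g7 (@Lb.g g6 (@Lb.g g5 (@Lb.d (nat_lit 16) (nat_lit 134) (nat_lit 66) (@Lb.t (@Lb.fm (nat_lit 9) t4742))))))))))
noncomputable def l34455 : Lb := (@Lb.d (nat_lit 522) (nat_lit 598) (nat_lit 577) (@Lb.r r1559 (@Lb.r r2393 (@Lb.r r2324 (@Lb.r r2438 (@Lb.g g7 (@Lb.g g5 (@Lb.g g4 (@Lb.d (nat_lit 1) (nat_lit 1) (nat_lit 0) (@Lb.t (@Lb.fp (nat_lit 9) t3771)))))))))))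
noncomputable def l34456 : Lb := (@Lb.d (nat_lit 128) (nat_lit 514) (nat_lit 73) (@Lb.g g8 (@Lb.g g9 (@Lb.g g10 (@Lb.g g11 (@Lb.r r580 (@Lb.r r394 (@Lb.r r347 (@Lb.r r1573 (@Lb.r r1044 (@Lb.d (nat_lit 649) (nat_lit 137) (nat_lit 144) (@Lb.fp (nat_lit 9) t3772))))))))))))
noncomputable def l34457 : Lb := (@Lb.d (nat_lit 0) (nat_lit 0) (nat_lit 136) (@Lb.g g4 (@Lb.g g11 (@Lb.r r402 (@Lb.d (nat_lit 292) (nat_lit 88) (nat_lit 681) (@Lb.fm (nat_lit 3) t6149))))))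
noncomputable def l34458 : Lb := (@Lb.d (nat_lit 1) (nat_lit 256) (nat_lit 9) (@Lb.g g8 (@Lb.g g10 (@Lb.g g7 (@Lb.r r386 (@Lb.r r2073 (@Lb.d (nat_lit 33) (nat_lit 5) (nat_lit 42) (@Lb.t (@Lb.fm (nat_lit 9) t382)))))))))
noncomputable def l34459 : Lb := (@Lb.d (nat_lit 1) (nat_lit 514) (nat_lit 137) (@Lb.g g8 (@Lb.g g9 (@Lb.g g10 (@Lb.g g11 (@Lb.r r2723 (@Lb.r r1634 (@Lb.r r1553 (@Lb.d (nat_lit 2) (nat_lit 105) (nat_lit 417) (@Lb.fm (nat_lit 9) t324))))))))))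
noncomputable def l34460 : Lb := (@Lb.d (nat_lit 128) (nat_lit 258) (nat_lit 130) (@Lb.g g8 (@Lb.g g9 (@Lb.g g10 (@Lb.g g11 (@Lb.r r683 (@Lb.r r2410 (@Lb.r r356 (@Lb.r r533 (@Lb.r r2084 (@Lb.d (nat_lit 649) (nat_lit 164) (nat_lit 672) (@Lb.fm (nat_lit 9) t2521))))))))))))
noncomputable def l34461 : Lb := (@Lb.r r263 (@Lb.d (nat_lit 2) (nat_lit 2) (nat_lit 2) (@Lb.g g8 (@Lb.g g9 (@Lb.g g10 (@Lb.r r1702 (@Lb.r r164 (@Lb.r r2453 (@Lb.r r611 (@Lb.d (nat_lit 649) (nat_lit 65) (nat_lit 384) (@Lb.t (@Lb.fm (nat_lit 9) t2521))))))))))))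
noncomputable def l34462 : Lb := (@Lb.d (nat_lit 2) (nat_lit 514) (nat_lit 130) (@Lb.g g8 (@Lb.g g9 (@Lb.g g10 (@Lb.g g11 (@Lb.r r1299 (@Lb.r r2705 (@Lb.r r2646 (@Lb.r r1416 (@Lb.d (nat_lit 385) (nat_lit 2) (nat_lit 384) (@Lb.fm (nat_lit 9) t441)))))))))))
noncomputable def l34463 : Lb := (@Lb.d (nat_lit 641) (nat_lit 329) (nat_lit 129) (@Lb.g g8 (@Lb.g g9 (@Lb.g g10 (@Lb.g g11 (@Lb.r r427 (@Lb.r r2154 (@Lb.d (nat_lit 548) (nat_lit 136) (nat_lit 409) (@Lb.fp (nat_lit 9) t5288)))))))))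
noncomputable def l34464 : Lb := (@Lb.g g8 (@Lb.g g5 (@Lb.d (nat_lit 10) (nat_lit 384) (nat_lit 0) (@Lb.fp (nat_lit 3) t2))))
noncomputable def l34465 : Lb := (@Lb.d (nat_lit 16) (nat_lit 514) (nat_lit 0) (@Lb.g g8 (@Lb.g g9 (@Lb.g g10 (@Lb.r r1675 (@Lb.r r2401 (@Lb.r r1170 (@Lb.r r584 (@Lb.d (nat_lit 586) (nat_lit 73) (nat_lit 169) (@Lb.t (@Lb.fm (nat_lit 9) t68)))))))))))
noncomputable def l34466 : Lb := (@Lb.d (nat_lit 24) (nat_lit 512) (nat_lit 0) (@Lb.g g8 (@Lb.g g10 (@Lb.r r1381 (@Lb.r r1691 (@Lb.r r1610 (@Lb.r r584 (@Lb.d (nat_lit 97) (nat_lit 10) (nat_lit 1) (@Lb.fp (nat_lit 3) t4963)))))))))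
noncomputable def l34467 : Lb := (@Lb.d (nat_lit 42) (nat_lit 256) (nat_lit 64) (@Lb.g g8 (@Lb.g g11 (@Lb.r r1703 (@Lb.r r614 (@Lb.r r1637 (@Lb.r r1428 (@Lb.d (nat_lit 358) (nat_lit 90) (nat_lit 406) (@Lb.fm (nat_lit 3) t188)))))))))
noncomputable def l34468 : Lb := (@Lb.d (nat_lit 8) (nat_lit 336) (nat_lit 282) (@Lb.r r2213 (@Lb.r r2178 (@Lb.r r1639 (@Lb.r r2456 (@Lb.g g7 (@Lb.d (nat_lit 64) (nat_lit 0) (nat_lit 128) (@Lb.t (@Lb.fm (nat_lit 3) t124)))))))))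
noncomputable def l34469 : Lb := (@Lb.d (nat_lit 144) (nat_lit 258) (nat_lit 64) (@Lb.g g8 (@Lb.g g9 (@Lb.g g10 (@Lb.g g11 (@Lb.r r676 (@Lb.r r2343 (@Lb.r r2401 (@Lb.r r1170 (@Lb.r r36 (@Lb.d (nat_lit 538) (nat_lit 21) (nat_lit 152) (@Lb.fp (nat_lit 9) t144))))))))))))
noncomputable def l34470 : Lb := (@Lb.r r21 (@Lb.d (nat_lit 512) (nat_lit 516) (nat_lit 74) (@Lb.g g8 (@Lb.g g10 (@Lb.g g11 (@Lb.r r665 (@Lb.r r343 (@Lb.r r650 (@Lb.d (nat_lit 129) (nat_lit 10) (nat_lit 677) (@Lb.t (@Lb.fp (nat_lit 9) t221)))))))))))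
noncomputable def l34471 : Lb := (@Lb.r r21 (@Lb.d (nat_lit 144) (nat_lit 260) (nat_lit 26) (@Lb.g g8 (@Lb.g g6 (@Lb.r r391 (@Lb.r r97 (@Lb.r r584 (@Lb.d (nat_lit 97) (nat_lit 24) (nat_lit 661) (@Lb.fp (nat_lit 3) t355)))))))))
noncomputable def l34472 : Lb := (@Lb.r r21 (@Lb.d (nat_lit 18) (nat_lit 272) (nat_lit 256) (@Lb.g g4 (@Lb.g g7 (@Lb.r r2469 (@Lb.r r2150 (@Lb.d (nat_lit 6) (nat_lit 69) (nat_lit 97) (@Lb.fp (nat_lit 3) t1040))))))))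
noncomputable def l34473 : Lb := (@Lb.r r70 (@Lb.d (nat_lit 2) (nat_lit 293) (nat_lit 0) (@Lb.g g8 (@Lb.g g9 (@Lb.r r2643 (@Lb.r r1122 (@Lb.r r132 (@Lb.d (nat_lit 362) (nat_lit 6) (nat_lit 426) (@Lb.fp (nat_lit 3) t1185)))))))))
noncomputable def l34474 : Lb := (@Lb.r r70 (@Lb.d (nat_lit 34) (nat_lit 257) (nat_lit 0) (@Lb.g g8 (@Lb.g g9 (@Lb.r r2649 (@Lb.r r1627 (@Lb.r r2438 (@Lb.r r2648 (@Lb.d (nat_lit 154) (nat_lit 102) (nat_lit 329) (@Lb.fp (nat_lit 3) t4))))))))))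
noncomputable def l34475 : Lb := (@Lb.d (nat_lit 528) (nat_lit 513) (nat_lit 0) (@Lb.g g8 (@Lb.g g9 (@Lb.g g10 (@Lb.r r2731 (@Lb.r r2634 (@Lb.r r1169 (@Lb.d (nat_lit 609) (nat_lit 41) (nat_lit 33) (@Lb.t (@Lb.fp (nat_lit 9) t3081))))))))))
noncomputable def l34476 : Lb := (@Lb.d (nat_lit 614) (nat_lit 409) (nat_lit 298) (@Lb.r r1627 (@Lb.r r2469 (@Lb.r r2214 (@Lb.r r1096 (@Lb.g g7 (@Lb.g g6 (@Lb.g g5 (@Lb.d (nat_lit 0) (nat_lit 1) (nat_lit 129) (@Lb.t (@Lb.fp (nat_lit 9) t698)))))))))))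
noncomputable def l34477 : Lb := (@Lb.r r1045 (@Lb.d (nat_lit 129) (nat_lit 256) (nat_lit 130) (@Lb.g g8 (@Lb.g g10 (@Lb.g g11 (@Lb.r r395 (@Lb.r r2122 (@Lb.d (nat_lit 544) (nat_lit 66) (nat_lit 409) (@Lb.t (@Lb.fm (nat_lit 9) t2493))))))))))
noncomputable def l34478 : Lb := (@Lb.d (nat_lit 0) (nat_lit 585) (nat_lit 0) (@Lb.g g9 (@Lb.r r2148 (@Lb.d (nat_lit 0) (nat_lit 154) (nat_lit 281) (@Lb.t (@Lb.fp (nat_lit 3) t153))))))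
noncomputable def l34479 : Lb := (@Lb.d (nat_lit 578) (nat_lit 256) (nat_lit 73) (@Lb.r r2698 (@Lb.r r2475 (@Lb.r r1365 (@Lb.g g7 (@Lb.g g6 (@Lb.g g4 (@Lb.d (nat_lit 257) (nat_lit 8) (nat_lit 65) (@Lb.r r25 (@Lb.t (@Lb.fm (nat_lit 9) t1900)))))))))))
noncomputable def l34480 : Lb := (@Lb.d (nat_lit 0) (nat_lit 2) (nat_lit 0) (@Lb.g g9 (@Lb.r r2068 (@Lb.r r25 (@Lb.d (nat_lit 514) (nat_lit 0) (nat_lit 0) (@Lb.t (@Lb.fp (nat_lit 3) t2)))))))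
noncomputable def l34481 : Lb := (@Lb.d (nat_lit 0) (nat_lit 585) (nat_lit 0) (@Lb.g g9 (@Lb.r r322 (@Lb.r r659 (@Lb.r r578 (@Lb.r r2564 (@Lb.d (nat_lit 0) (nat_lit 130) (nat_lit 586) (@Lb.t (@Lb.fm (nat_lit 3) t242)))))))))
noncomputable def l34482 : Lb := (@Lb.d (nat_lit 34) (nat_lit 513) (nat_lit 0) (@Lb.g g8 (@Lb.g g9 (@Lb.r r2411 (@Lb.r r598 (@Lb.r r2457 (@Lb.r r1428 (@Lb.d (nat_lit 101) (nat_lit 90) (nat_lit 394) (@Lb.fm (nat_lit 3) t386)))))))))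
noncomputable def l34483 : Lb := (@Lb.r r323 (@Lb.d (nat_lit 0) (nat_lit 9) (nat_lit 20) (@Lb.g g8 (@Lb.g g9 (@Lb.g g6 (@Lb.r r2347 (@Lb.r r2457 (@Lb.r r2436 (@Lb.d (nat_lit 617) (nat_lit 129) (nat_lit 545) (@Lb.t (@Lb.fp (nat_lit 9) t1246)))))))))))
noncomputable def l34484 : Lb := (@Lb.r r275 (@Lb.g g9 (@Lb.g g6 (@Lb.r r2585 (@Lb.r r411 (@Lb.r r24 (@Lb.d (nat_lit 256) (nat_lit 0) (nat_lit 16) (@Lb.fm (nat_lit 3) t1658))))))))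
noncomputable def l34485 : Lb := (@Lb.d (nat_lit 24) (nat_lit 258) (nat_lit 18) (@Lb.g g9 (@Lb.g g10 (@Lb.r r2631 (@Lb.r r20 (@Lb.r r153 (@Lb.d (nat_lit 1) (nat_lit 153) (nat_lit 608) (@Lb.fp (nat_lit 3) t2067))))))))
noncomputable def l34486 : Lb := (@Lb.r r1427 (@Lb.r r101 (@Lb.d (nat_lit 138) (nat_lit 658) (nat_lit 528) (@Lb.fm (nat_lit 1) t6150))))
noncomputable def l34487 : Lb := (@Lb.r r21 (@Lb.r r263 (@Lb.d (nat_lit 16) (nat_lit 516) (nat_lit 32) (@Lb.g g8 (@Lb.g g10 (@Lb.r r1451 (@Lb.r r677 (@Lb.r r360 (@Lb.d (nat_lit 648) (nat_lit 169) (nat_lit 134) (@Lb.fm (nat_lit 3) t3149))))))))))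
noncomputable def l34488 : Lb := (@Lb.d (nat_lit 132) (nat_lit 256) (nat_lit 130) (@Lb.g g8 (@Lb.g g9 (@Lb.g g10 (@Lb.g g11 (@Lb.r r1666 (@Lb.r r1411 (@Lb.r r1129 (@Lb.r r2084 (@Lb.d (nat_lit 41) (nat_lit 66) (nat_lit 361) (@Lb.fp (nat_lit 9) t3814)))))))))))
noncomputable def l34489 : Lb := (@Lb.d (nat_lit 137) (nat_lit 642) (nat_lit 320) (@Lb.r r68 (@Lb.r r289 (@Lb.r r426 (@Lb.r r136 (@Lb.g g11 (@Lb.g g6 (@Lb.g g4 (@Lb.d (nat_lit 0) (nat_lit 32) (nat_lit 390) (@Lb.t (@Lb.fp (nat_lit 9) t4432)))))))))))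
noncomputable def l34490 : Lb := (@Lb.d (nat_lit 0) (nat_lit 0) (nat_lit 2) (@Lb.g g10 (@Lb.r r2579 (@Lb.r r1620 (@Lb.r r2122 (@Lb.r r289 (@Lb.d (nat_lit 362) (nat_lit 137) (nat_lit 592) (@Lb.t (@Lb.fp (nat_lit 3) t4495)))))))))
noncomputable def l34491 : Lb := (@Lb.r r21 (@Lb.r r70 (@Lb.d (nat_lit 658) (nat_lit 512) (nat_lit 0) (@Lb.g g8 (@Lb.r r74 (@Lb.r r25 (@Lb.d (nat_lit 354) (nat_lit 0) (nat_lit 138) (@Lb.t (@Lb.fp (nat_lit 3) t164)))))))))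
noncomputable def l34492 : Lb := (@Lb.r r82 (@Lb.r r275 (@Lb.d (nat_lit 34) (nat_lit 282) (nat_lit 0) (@Lb.g g8 (@Lb.g g9 (@Lb.r r427 (@Lb.r r582 (@Lb.r r408 (@Lb.d (nat_lit 408) (nat_lit 25) (nat_lit 105) (@Lb.fp (nat_lit 3) t5744))))))))))
noncomputable def l34493 : Lb := (@Lb.d (nat_lit 0) (nat_lit 20) (nat_lit 424) (@Lb.r r2705 (@Lb.r r2394 (@Lb.r r1124 (@Lb.g g5 (@Lb.d (nat_lit 4) (nat_lit 1) (nat_lit 0) (@Lb.t (@Lb.fm (nat_lit 3) t6151))))))))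
noncomputable def l34494 : Lb := (@Lb.d (nat_lit 642) (nat_lit 2) (nat_lit 1) (@Lb.g g8 (@Lb.g g9 (@Lb.g g10 (@Lb.r r618 (@Lb.r r2631 (@Lb.r r25 (@Lb.d (nat_lit 16) (nat_lit 161) (nat_lit 522) (@Lb.t (@Lb.fp (nat_lit 9) t5085))))))))))
noncomputable def l34495 : Lb := (@Lb.r r263 (@Lb.d (nat_lit 5) (nat_lit 0) (nat_lit 2) (@Lb.g g8 (@Lb.g g9 (@Lb.g g10 (@Lb.r r683 (@Lb.r r386 (@Lb.r r2645 (@Lb.r r2088 (@Lb.d (nat_lit 360) (nat_lit 128) (nat_lit 21) (@Lb.t (@Lb.fp (nat_lit 9) t5745))))))))))))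
noncomputable def l34496 : Lb := (@Lb.d (nat_lit 518) (nat_lit 645) (nat_lit 417) (@Lb.r r1428 (@Lb.r r150 (@Lb.r r2579 (@Lb.g g9 (@Lb.g g4 (@Lb.d (nat_lit 17) (nat_lit 33) (nat_lit 0) (@Lb.fp (nat_lit 3) t6152))))))))
noncomputable def l34497 : Lb := (@Lb.d (nat_lit 148) (nat_lit 280) (nat_lit 73) (@Lb.g g8 (@Lb.g g9 (@Lb.g g10 (@Lb.g g11 (@Lb.r r1706 (@Lb.r r644 (@Lb.r r1559 (@Lb.r r2345 (@Lb.d (nat_lit 424) (nat_lit 25) (nat_lit 66) (@Lb.fm (nat_lit 9) t1871)))))))))))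
noncomputable def l34498 : Lb := (@Lb.r r82 (@Lb.d (nat_lit 1) (nat_lit 290) (nat_lit 136) (@Lb.g g8 (@Lb.g g9 (@Lb.g g11 (@Lb.r r1128 (@Lb.r r2137 (@Lb.r r98 (@Lb.d (nat_lit 342) (nat_lit 137) (nat_lit 513) (@Lb.t (@Lb.fp (nat_lit 9) t1567)))))))))))
noncomputable def l34499 : Lb := (@Lb.d (nat_lit 8) (nat_lit 258) (nat_lit 130) (@Lb.g g8 (@Lb.g g9 (@Lb.g g10 (@Lb.g g11 (@Lb.r r683 (@Lb.r r680 (@Lb.r r138 (@Lb.r r2145 (@Lb.r r36 (@Lb.d (nat_lit 21) (nat_lit 102) (nat_lit 673) (@Lb.fp (nat_lit 9) t219))))))))))))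
noncomputable def l34500 : Lb := (@Lb.g g4 (@Lb.g g7 (@Lb.r r101 (@Lb.r r402 (@Lb.d (nat_lit 512) (nat_lit 88) (nat_lit 354) (@Lb.fm (nat_lit 3) t452))))))
noncomputable def l34501 : Lb := (@Lb.d (nat_lit 0) (nat_lit 256) (nat_lit 128) (@Lb.g g11 (@Lb.r r602 (@Lb.r r584 (@Lb.r r299 (@Lb.r r289 (@Lb.d (nat_lit 69) (nat_lit 130) (nat_lit 138) (@Lb.t (@Lb.fp (nat_lit 3) t1115)))))))))
noncomputable def l34502 : Lb := (@Lb.r r21 (@Lb.d (nat_lit 146) (nat_lit 256) (nat_lit 128) (@Lb.g g8 (@Lb.g g10 (@Lb.g g11 (@Lb.r r387 (@Lb.r r2710 (@Lb.r r97 (@Lb.r r516 (@Lb.d (nat_lit 2) (nat_lit 129) (nat_lit 640) (@Lb.t (@Lb.fm (nat_lit 9) t4))))))))))))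
noncomputable def l34503 : Lb := (@Lb.d (nat_lit 101) (nat_lit 296) (nat_lit 358) (@Lb.r r82 (@Lb.r r1351 (@Lb.g g7 (@Lb.g g6 (@Lb.g g5 (@Lb.g g8 (@Lb.d (nat_lit 640) (nat_lit 17) (nat_lit 65) (@Lb.fm (nat_lit 9) t6153)))))))))
noncomputable def l34504 : Lb := (@Lb.r r21 (@Lb.d (nat_lit 129) (nat_lit 256) (nat_lit 130) (@Lb.g g8 (@Lb.g g10 (@Lb.g g11 (@Lb.r r1623 (@Lb.r r341 (@Lb.r r170 (@Lb.r r148 (@Lb.d (nat_lit 86) (nat_lit 130) (nat_lit 528) (@Lb.t (@Lb.fm (nat_lit 9) t2638))))))))))))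
noncomputable def l34505 : Lb := (@Lb.d (nat_lit 582) (nat_lit 289) (nat_lit 74) (@Lb.r r68 (@Lb.r r154 (@Lb.r r660 (@Lb.r r2385 (@Lb.g g7 (@Lb.g g6 (@Lb.g g5 (@Lb.g g4 (@Lb.d (nat_lit 2) (nat_lit 0) (nat_lit 129) (@Lb.fm (nat_lit 9) t98)))))))))))
noncomputable def l34506 : Lb := (@Lb.d (nat_lit 130) (nat_lit 258) (nat_lit 66) (@Lb.g g8 (@Lb.g g9 (@Lb.g g10 (@Lb.g g11 (@Lb.r r2323 (@Lb.r r2217 (@Lb.r r98 (@Lb.r r392 (@Lb.d (nat_lit 362) (nat_lit 10) (nat_lit 345) (@Lb.fp (nat_lit 9) t799)))))))))))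
noncomputable def l34507 : Lb := (@Lb.d (nat_lit 2) (nat_lit 2) (nat_lit 73) (@Lb.g g8 (@Lb.g g9 (@Lb.g g10 (@Lb.g g11 (@Lb.r r2691 (@Lb.r r2216 (@Lb.r r1610 (@Lb.r r1313 (@Lb.d (nat_lit 640) (nat_lit 164) (nat_lit 649) (@Lb.fm (nat_lit 9) t1719)))))))))))
noncomputable def l34508 : Lb := (@Lb.d (nat_lit 8) (nat_lit 514) (nat_lit 0) (@Lb.g g9 (@Lb.g g7 (@Lb.r r1096 (@Lb.r r2646 (@Lb.r r409 (@Lb.d (nat_lit 154) (nat_lit 154) (nat_lit 354) (@Lb.fm (nat_lit 3) t6154))))))))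
noncomputable def l34509 : Lb := (@Lb.r r275 (@Lb.d (nat_lit 8) (nat_lit 513) (nat_lit 0) (@Lb.g g9 (@Lb.r r1096 (@Lb.r r2646 (@Lb.r r1603 (@Lb.r r1561 (@Lb.d (nat_lit 581) (nat_lit 33) (nat_lit 320) (@Lb.t (@Lb.fp (nat_lit 3) t6155))))))))))
noncomputable def l34510 : Lb := (@Lb.r r275 (@Lb.d (nat_lit 545) (nat_lit 9) (nat_lit 0) (@Lb.g g8 (@Lb.g g9 (@Lb.r r594 (@Lb.r r1603 (@Lb.r r529 (@Lb.d (nat_lit 9) (nat_lit 161) (nat_lit 576) (@Lb.fp (nat_lit 3) t6155)))))))))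
noncomputable def l34511 : Lb := (@Lb.d (nat_lit 34) (nat_lit 514) (nat_lit 136) (@Lb.g g8 (@Lb.g g9 (@Lb.g g11 (@Lb.r r2450 (@Lb.r r1701 (@Lb.r r408 (@Lb.r r1543 (@Lb.d (nat_lit 673) (nat_lit 138) (nat_lit 645) (@Lb.t (@Lb.fm (nat_lit 9) t2244)))))))))))
noncomputable def l34512 : Lb := (@Lb.d (nat_lit 2) (nat_lit 514) (nat_lit 66) (@Lb.g g8 (@Lb.g g9 (@Lb.g g10 (@Lb.g g7 (@Lb.r r2473 (@Lb.r r2154 (@Lb.r r36 (@Lb.d (nat_lit 41) (nat_lit 2) (nat_lit 354) (@Lb.fp (nat_lit 9) t1224))))))))))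
noncomputable def l34513 : Lb := (@Lb.r r537 (@Lb.r r667 (@Lb.r r678 (@Lb.r r81 (@Lb.d (nat_lit 6) (nat_lit 256) (nat_lit 16) (@Lb.fp (nat_lit 1) t1149))))))
noncomputable def l34514 : Lb := (@Lb.d (nat_lit 0) (nat_lit 512) (nat_lit 2) (@Lb.g g4 (@Lb.g g10 (@Lb.g g7 (@Lb.r r386 (@Lb.d (nat_lit 1) (nat_lit 0) (nat_lit 9) (@Lb.t (@Lb.fp (nat_lit 9) t2))))))))
noncomputable def l34515 : Lb := (@Lb.d (nat_lit 129) (nat_lit 10) (nat_lit 0) (@Lb.g g8 (@Lb.g g9 (@Lb.r r1687 (@Lb.r r594 (@Lb.r r417 (@Lb.r r2120 (@Lb.d (nat_lit 290) (nat_lit 132) (nat_lit 169) (@Lb.fp (nat_lit 3) t210)))))))))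
noncomputable def l34516 : Lb := (@Lb.d (nat_lit 2) (nat_lit 10) (nat_lit 0) (@Lb.g g8 (@Lb.g g9 (@Lb.g g7 (@Lb.r r594 (@Lb.r r2449 (@Lb.d (nat_lit 0) (nat_lit 154) (nat_lit 66) (@Lb.t (@Lb.fp (nat_lit 9) t572)))))))))
noncomputable def l34517 : Lb := (@Lb.r r275 (@Lb.d (nat_lit 2) (nat_lit 9) (nat_lit 2) (@Lb.g g8 (@Lb.g g9 (@Lb.g g10 (@Lb.r r586 (@Lb.r r1603 (@Lb.r r529 (@Lb.d (nat_lit 129) (nat_lit 81) (nat_lit 512) (@Lb.t (@Lb.fp (nat_lit 9) t1446)))))))))))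
noncomputable def l34518 : Lb := (@Lb.r r20 (@Lb.d (nat_lit 4) (nat_lit 1) (nat_lit 130) (@Lb.g g9 (@Lb.g g10 (@Lb.g g11 (@Lb.r r419 (@Lb.r r98 (@Lb.r r1128 (@Lb.d (nat_lit 546) (nat_lit 137) (nat_lit 168) (@Lb.t (@Lb.fp (nat_lit 9) t6156)))))))))))
noncomputable def l34519 : Lb := (@Lb.d (nat_lit 2) (nat_lit 258) (nat_lit 130) (@Lb.g g8 (@Lb.g g9 (@Lb.g g10 (@Lb.g g11 (@Lb.r r427 (@Lb.r r409 (@Lb.r r90 (@Lb.r r145 (@Lb.d (nat_lit 520) (nat_lit 9) (nat_lit 546) (@Lb.fp (nat_lit 9) t221)))))))))))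
noncomputable def l34520 : Lb := (@Lb.d (nat_lit 166) (nat_lit 665) (nat_lit 262) (@Lb.r r1096 (@Lb.r r1113 (@Lb.r r2466 (@Lb.g g11 (@Lb.g g6 (@Lb.g g5 (@Lb.g g4 (@Lb.d (nat_lit 1) (nat_lit 8) (nat_lit 128) (@Lb.fm (nat_lit 9) t228))))))))))
noncomputable def l34521 : Lb := (@Lb.d (nat_lit 8) (nat_lit 290) (nat_lit 0) (@Lb.g g9 (@Lb.r r536 (@Lb.r r2715 (@Lb.r r2178 (@Lb.r r341 (@Lb.d (nat_lit 356) (nat_lit 22) (nat_lit 6) (@Lb.t (@Lb.fm (nat_lit 3) t6157)))))))))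
noncomputable def l34522 : Lb := (@Lb.d (nat_lit 2) (nat_lit 265) (nat_lit 129) (@Lb.g g8 (@Lb.g g9 (@Lb.g g10 (@Lb.g g11 (@Lb.r r427 (@Lb.r r106 (@Lb.r r97 (@Lb.d (nat_lit 516) (nat_lit 6) (nat_lit 152) (@Lb.fm (nat_lit 9) t1993))))))))))
noncomputable def l34523 : Lb := (@Lb.d (nat_lit 8) (nat_lit 265) (nat_lit 2) (@Lb.g g9 (@Lb.g g10 (@Lb.g g7 (@Lb.r r2136 (@Lb.r r2197 (@Lb.d (nat_lit 533) (nat_lit 138) (nat_lit 0) (@Lb.t (@Lb.fm (nat_lit 9) t1118)))))))))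
noncomputable def l34524 : Lb := (@Lb.r r81 (@Lb.r r323 (@Lb.d (nat_lit 32) (nat_lit 4) (nat_lit 41) (@Lb.g g6 (@Lb.r r1381 (@Lb.r r2459 (@Lb.r r24 (@Lb.d (nat_lit 264) (nat_lit 36) (nat_lit 86) (@Lb.t (@Lb.fm (nat_lit 3) t3321))))))))))
noncomputable def l34525 : Lb := (@Lb.d (nat_lit 674) (nat_lit 256) (nat_lit 608) (@Lb.r r24 (@Lb.r r2406 (@Lb.r r2133 (@Lb.r r1363 (@Lb.g g7 (@Lb.g g6 (@Lb.g g5 (@Lb.d (nat_lit 0) (nat_lit 6) (nat_lit 134) (@Lb.t (@Lb.fm (nat_lit 9) t311)))))))))))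
noncomputable def l34526 : Lb := (@Lb.d (nat_lit 130) (nat_lit 512) (nat_lit 0) (@Lb.r r24 (@Lb.r r101 (@Lb.r r2403 (@Lb.r r594 (@Lb.g g11 (@Lb.g g6 (@Lb.fp (nat_lit 3) t3583))))))))
noncomputable def l34527 : Lb := (@Lb.r r21 (@Lb.d (nat_lit 145) (nat_lit 256) (nat_lit 128) (@Lb.g g8 (@Lb.g g10 (@Lb.g g11 (@Lb.r r651 (@Lb.r r2378 (@Lb.r r537 (@Lb.r r516 (@Lb.d (nat_lit 290) (nat_lit 0) (nat_lit 149) (@Lb.t (@Lb.fp (nat_lit 9) t2188))))))))))))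
noncomputable def l34528 : Lb := (@Lb.d (nat_lit 129) (nat_lit 514) (nat_lit 130) (@Lb.g g8 (@Lb.g g9 (@Lb.g g10 (@Lb.g g11 (@Lb.r r666 (@Lb.r r41 (@Lb.r r340 (@Lb.r r539 (@Lb.d (nat_lit 73) (nat_lit 136) (nat_lit 325) (@Lb.fm (nat_lit 9) t1549)))))))))))
noncomputable def l34529 : Lb := (@Lb.d (nat_lit 129) (nat_lit 258) (nat_lit 4) (@Lb.g g8 (@Lb.g g9 (@Lb.g g10 (@Lb.g g11 (@Lb.r r666 (@Lb.r r41 (@Lb.r r340 (@Lb.r r539 (@Lb.d (nat_lit 73) (nat_lit 136) (nat_lit 325) (@Lb.fm (nat_lit 9) t1549)))))))))))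
noncomputable def l34530 : Lb := (@Lb.r r21 (@Lb.d (nat_lit 145) (nat_lit 0) (nat_lit 128) (@Lb.g g8 (@Lb.g g10 (@Lb.g g11 (@Lb.r r387 (@Lb.r r2710 (@Lb.r r616 (@Lb.r r25 (@Lb.d (nat_lit 550) (nat_lit 26) (nat_lit 170) (@Lb.t (@Lb.fm (nat_lit 9) t2015))))))))))))
noncomputable def l34531 : Lb := (@Lb.r r82 (@Lb.d (nat_lit 32) (nat_lit 514) (nat_lit 64) (@Lb.g g8 (@Lb.g g9 (@Lb.g g7 (@Lb.r r2409 (@Lb.r r150 (@Lb.r r100 (@Lb.d (nat_lit 26) (nat_lit 90) (nat_lit 345) (@Lb.t (@Lb.fp (nat_lit 9) t2073)))))))))))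
noncomputable def l34532 : Lb := (@Lb.d (nat_lit 8) (nat_lit 256) (nat_lit 130) (@Lb.g g8 (@Lb.g g10 (@Lb.g g11 (@Lb.r r419 (@Lb.r r2085 (@Lb.r r1428 (@Lb.r r2438 (@Lb.d (nat_lit 609) (nat_lit 68) (nat_lit 280) (@Lb.t (@Lb.fm (nat_lit 9) t188)))))))))))
noncomputable def l34533 : Lb := (@Lb.r r2343 (@Lb.r r584 (@Lb.r r86 (@Lb.r r2201 (@Lb.r r132 (@Lb.d (nat_lit 272) (nat_lit 328) (nat_lit 37) (@Lb.fm (nat_lit 1) t4808)))))))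
noncomputable def l34534 : Lb := (@Lb.r r82 (@Lb.d (nat_lit 4) (nat_lit 512) (nat_lit 0) (@Lb.g g8 (@Lb.g g9 (@Lb.r r555 (@Lb.r r1642 (@Lb.r r1561 (@Lb.d (nat_lit 576) (nat_lit 162) (nat_lit 256) (@Lb.fp (nat_lit 3) t4060)))))))))
noncomputable def l34535 : Lb := (@Lb.d (nat_lit 137) (nat_lit 322) (nat_lit 645) (@Lb.r r68 (@Lb.r r289 (@Lb.r r426 (@Lb.r r164 (@Lb.g g11 (@Lb.g g6 (@Lb.g g4 (@Lb.d (nat_lit 1) (nat_lit 0) (nat_lit 129) (@Lb.t (@Lb.fm (nat_lit 9) t4970)))))))))))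
noncomputable def l34536 : Lb := (@Lb.d (nat_lit 128) (nat_lit 289) (nat_lit 66) (@Lb.g g9 (@Lb.g g10 (@Lb.g g11 (@Lb.r r614 (@Lb.r r2661 (@Lb.r r1304 (@Lb.r r2599 (@Lb.d (nat_lit 664) (nat_lit 145) (nat_lit 293) (@Lb.t (@Lb.fp (nat_lit 9) t2767)))))))))))
noncomputable def l34537 : Lb := (@Lb.d (nat_lit 0) (nat_lit 258) (nat_lit 130) (@Lb.g g9 (@Lb.g g10 (@Lb.g g11 (@Lb.r r1674 (@Lb.r r1419 (@Lb.r r2149 (@Lb.r r24 (@Lb.d (nat_lit 618) (nat_lit 97) (nat_lit 386) (@Lb.t (@Lb.fp (nat_lit 9) t6158)))))))))))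
noncomputable def l34538 : Lb := (@Lb.r r21 (@Lb.d (nat_lit 658) (nat_lit 520) (nat_lit 128) (@Lb.g g4 (@Lb.g g10 (@Lb.g g11 (@Lb.r r1361 (@Lb.r r1639 (@Lb.r r2374 (@Lb.d (nat_lit 68) (nat_lit 136) (nat_lit 676) (@Lb.t (@Lb.fm (nat_lit 9) t2312)))))))))))
noncomputable def l34539 : Lb := (@Lb.d (nat_lit 528) (nat_lit 544) (nat_lit 64) (@Lb.g g8 (@Lb.g g11 (@Lb.r r2337 (@Lb.r r531 (@Lb.r r2178 (@Lb.d (nat_lit 322) (nat_lit 97) (nat_lit 657) (@Lb.fp (nat_lit 3) t1561))))))))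
noncomputable def l34540 : Lb := (@Lb.d (nat_lit 0) (nat_lit 544) (nat_lit 64) (@Lb.g g8 (@Lb.g g11 (@Lb.r r166 (@Lb.r r149 (@Lb.r r360 (@Lb.r r2567 (@Lb.d (nat_lit 642) (nat_lit 24) (nat_lit 386) (@Lb.fp (nat_lit 3) t71)))))))))
noncomputable def l34541 : Lb := (@Lb.d (nat_lit 2) (nat_lit 512) (nat_lit 0) (@Lb.g g8 (@Lb.g g10 (@Lb.r r273 (@Lb.r r2595 (@Lb.r r1434 (@Lb.r r529 (@Lb.r r2436 (@Lb.d (nat_lit 25) (nat_lit 33) (nat_lit 549) (@Lb.fm (nat_lit 3) t5419))))))))))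
noncomputable def l34542 : Lb := (@Lb.d (nat_lit 144) (nat_lit 514) (nat_lit 42) (@Lb.g g8 (@Lb.g g9 (@Lb.g g6 (@Lb.r r1415 (@Lb.r r1313 (@Lb.r r2632 (@Lb.d (nat_lit 353) (nat_lit 98) (nat_lit 641) (@Lb.t (@Lb.fp (nat_lit 9) t1161))))))))))
noncomputable def l34543 : Lb := (@Lb.d (nat_lit 402) (nat_lit 5) (nat_lit 4) (@Lb.r r1633 (@Lb.r r2390 (@Lb.r r2731 (@Lb.g g5 (@Lb.g g4 (@Lb.d (nat_lit 545) (nat_lit 1) (nat_lit 0) (@Lb.r r98 (@Lb.fm (nat_lit 3) t4322)))))))))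
noncomputable def l34544 : Lb := (@Lb.d (nat_lit 1) (nat_lit 584) (nat_lit 580) (@Lb.r r674 (@Lb.r r339 (@Lb.g g7 (@Lb.g g6 (@Lb.g g5 (@Lb.d (nat_lit 4) (nat_lit 1) (nat_lit 134) (@Lb.t (@Lb.fm (nat_lit 9) t901)))))))))
noncomputable def l34545 : Lb := (@Lb.d (nat_lit 2) (nat_lit 516) (nat_lit 128) (@Lb.g g8 (@Lb.g g9 (@Lb.g g10 (@Lb.g g11 (@Lb.r r1287 (@Lb.r r2666 (@Lb.r r97 (@Lb.r r2564 (@Lb.d (nat_lit 385) (nat_lit 10) (nat_lit 385) (@Lb.fm (nat_lit 9) t2642)))))))))))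
noncomputable def l34546 : Lb := (@Lb.d (nat_lit 426) (nat_lit 137) (nat_lit 290) (@Lb.r r2148 (@Lb.r r1410 (@Lb.r r603 (@Lb.g g9 (@Lb.g g4 (@Lb.d (nat_lit 2) (nat_lit 129) (nat_lit 0) (@Lb.r r74 (@Lb.fp (nat_lit 3) t2813)))))))))
noncomputable def l34547 : Lb := (@Lb.d (nat_lit 402) (nat_lit 648) (nat_lit 612) (@Lb.r r146 (@Lb.r r2389 (@Lb.r r683 (@Lb.g g7 (@Lb.g g6 (@Lb.g g5 (@Lb.g g4 (@Lb.d (nat_lit 8) (nat_lit 5) (nat_lit 2) (@Lb.fp (nat_lit 9) t1986))))))))))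
noncomputable def l34548 : Lb := (@Lb.r r275 (@Lb.d (nat_lit 2) (nat_lit 514) (nat_lit 2) (@Lb.g g8 (@Lb.g g5 (@Lb.g g10 (@Lb.r r1690 (@Lb.r r1688 (@Lb.r r1563 (@Lb.d (nat_lit 6) (nat_lit 80) (nat_lit 10) (@Lb.t (@Lb.fm (nat_lit 9) t2905)))))))))))
noncomputable def l34549 : Lb := (@Lb.d (nat_lit 0) (nat_lit 0) (nat_lit 68) (@Lb.g g10 (@Lb.g g11 (@Lb.r r2643 (@Lb.r r578 (@Lb.d (nat_lit 0) (nat_lit 25) (nat_lit 678) (@Lb.fp (nat_lit 3) t356)))))))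
noncomputable def l34550 : Lb := (@Lb.d (nat_lit 5) (nat_lit 672) (nat_lit 549) (@Lb.r r37 (@Lb.r r88 (@Lb.r r323 (@Lb.g g10 (@Lb.d (nat_lit 0) (nat_lit 0) (nat_lit 18) (@Lb.r r387 (@Lb.r r145 (@Lb.t (@Lb.fp (nat_lit 3) t4074))))))))))
noncomputable def l34551 : Lb := (@Lb.r r21 (@Lb.d (nat_lit 170) (nat_lit 256) (nat_lit 64) (@Lb.g g8 (@Lb.g g11 (@Lb.r r166 (@Lb.r r2705 (@Lb.r r283 (@Lb.r r1368 (@Lb.d (nat_lit 386) (nat_lit 150) (nat_lit 388) (@Lb.fm (nat_lit 3) t3937))))))))))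
noncomputable def l34552 : Lb := (@Lb.d (nat_lit 0) (nat_lit 260) (nat_lit 64) (@Lb.g g9 (@Lb.g g10 (@Lb.g g11 (@Lb.r r683 (@Lb.r r2666 (@Lb.r r2585 (@Lb.d (nat_lit 329) (nat_lit 9) (nat_lit 102) (@Lb.t (@Lb.fp (nat_lit 9) t6159))))))))))
noncomputable def l34553 : Lb := (@Lb.r r323 (@Lb.d (nat_lit 130) (nat_lit 9) (nat_lit 2) (@Lb.g g8 (@Lb.g g9 (@Lb.g g10 (@Lb.r r2705 (@Lb.r r663 (@Lb.r r578 (@Lb.r r72 (@Lb.d (nat_lit 641) (nat_lit 69) (nat_lit 356) (@Lb.t (@Lb.fm (nat_lit 9) t539))))))))))))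
noncomputable def l34554 : Lb := (@Lb.d (nat_lit 5) (nat_lit 0) (nat_lit 0) (@Lb.g g4 (@Lb.r r2311 (@Lb.d (nat_lit 257) (nat_lit 1) (nat_lit 0) (@Lb.t (@Lb.fm (nat_lit 3) t469))))))
noncomputable def l34555 : Lb := (@Lb.d (nat_lit 5) (nat_lit 512) (nat_lit 73) (@Lb.g g4 (@Lb.g g10 (@Lb.g g11 (@Lb.r r2691 (@Lb.r r1158 (@Lb.d (nat_lit 129) (nat_lit 1) (nat_lit 424) (@Lb.t (@Lb.fp (nat_lit 9) t282)))))))))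
noncomputable def l34556 : Lb := (@Lb.d (nat_lit 5) (nat_lit 256) (nat_lit 64) (@Lb.g g4 (@Lb.g g11 (@Lb.r r1547 (@Lb.d (nat_lit 642) (nat_lit 1) (nat_lit 384) (@Lb.fm (nat_lit 3) t1165))))))
noncomputable def l34557 : Lb := (@Lb.r r82 (@Lb.d (nat_lit 2) (nat_lit 258) (nat_lit 128) (@Lb.g g8 (@Lb.g g9 (@Lb.g g11 (@Lb.r r1571 (@Lb.r r1192 (@Lb.r r1642 (@Lb.r r1633 (@Lb.d (nat_lit 612) (nat_lit 152) (nat_lit 356) (@Lb.t (@Lb.fp (nat_lit 9) t3049))))))))))))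
noncomputable def l34558 : Lb := (@Lb.r r2118 (@Lb.d (nat_lit 5) (nat_lit 256) (nat_lit 0) (@Lb.g g8 (@Lb.g g9 (@Lb.r r1065 (@Lb.r r2212 (@Lb.d (nat_lit 24) (nat_lit 70) (nat_lit 18) (@Lb.fp (nat_lit 3) t6018))))))))
noncomputable def l34559 : Lb := (@Lb.d (nat_lit 2) (nat_lit 516) (nat_lit 0) (@Lb.g g8 (@Lb.g g9 (@Lb.g g10 (@Lb.r r1626 (@Lb.r r2659 (@Lb.r r97 (@Lb.r r24 (@Lb.d (nat_lit 426) (nat_lit 33) (nat_lit 602) (@Lb.t (@Lb.fp (nat_lit 9) t1424)))))))))))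
noncomputable def l34560 : Lb := (@Lb.d (nat_lit 168) (nat_lit 337) (nat_lit 280) (@Lb.r r2583 (@Lb.r r1384 (@Lb.r r361 (@Lb.r r1622 (@Lb.g g7 (@Lb.d (nat_lit 64) (nat_lit 16) (nat_lit 132) (@Lb.t (@Lb.fp (nat_lit 3) t1079)))))))))
noncomputable def l34561 : Lb := (@Lb.r r2118 (@Lb.d (nat_lit 4) (nat_lit 512) (nat_lit 0) (@Lb.g g8 (@Lb.g g9 (@Lb.r r1065 (@Lb.r r2212 (@Lb.d (nat_lit 24) (nat_lit 70) (nat_lit 18) (@Lb.fp (nat_lit 3) t6018))))))))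
noncomputable def l34562 : Lb := (@Lb.r r82 (@Lb.d (nat_lit 8) (nat_lit 512) (nat_lit 128) (@Lb.g g9 (@Lb.g g11 (@Lb.r r551 (@Lb.r r386 (@Lb.r r280 (@Lb.r r661 (@Lb.d (nat_lit 289) (nat_lit 41) (nat_lit 104) (@Lb.fp (nat_lit 3) t2603))))))))))
noncomputable def l34563 : Lb := (@Lb.d (nat_lit 34) (nat_lit 517) (nat_lit 1) (@Lb.r r24 (@Lb.r r2138 (@Lb.r r149 (@Lb.g g5 (@Lb.t (@Lb.fp (nat_lit 3) t847)))))))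
noncomputable def l34564 : Lb := (@Lb.r r82 (@Lb.r r283 (@Lb.d (nat_lit 514) (nat_lit 1) (nat_lit 0) (@Lb.g g8 (@Lb.g g5 (@Lb.r r267 (@Lb.r r2122 (@Lb.d (nat_lit 18) (nat_lit 136) (nat_lit 16) (@Lb.fp (nat_lit 3) t6160)))))))))
noncomputable def l34565 : Lb := (@Lb.d (nat_lit 154) (nat_lit 1) (nat_lit 384) (@Lb.g g8 (@Lb.g g9 (@Lb.g g10 (@Lb.g g11 (@Lb.r r1602 (@Lb.r r424 (@Lb.r r1065 (@Lb.r r1060 (@Lb.d (nat_lit 516) (nat_lit 152) (nat_lit 154) (@Lb.fp (nat_lit 9) t3910)))))))))))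
noncomputable def l34566 : Lb := (@Lb.r r21 (@Lb.d (nat_lit 138) (nat_lit 256) (nat_lit 66) (@Lb.g g8 (@Lb.g g10 (@Lb.g g11 (@Lb.r r2443 (@Lb.r r2149 (@Lb.r r1434 (@Lb.r r2388 (@Lb.d (nat_lit 409) (nat_lit 20) (nat_lit 404) (@Lb.t (@Lb.fm (nat_lit 9) t6161))))))))))))
noncomputable def l34567 : Lb := (@Lb.d (nat_lit 2) (nat_lit 257) (nat_lit 130) (@Lb.g g8 (@Lb.g g9 (@Lb.g g10 (@Lb.g g11 (@Lb.r r586 (@Lb.r r595 (@Lb.r r292 (@Lb.r r405 (@Lb.r r36 (@Lb.d (nat_lit 422) (nat_lit 136) (nat_lit 137) (@Lb.fm (nat_lit 9) t1954))))))))))))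
noncomputable def l34568 : Lb := (@Lb.d (nat_lit 130) (nat_lit 544) (nat_lit 128) (@Lb.g g8 (@Lb.g g11 (@Lb.r r2344 (@Lb.r r2329 (@Lb.r r551 (@Lb.r r2178 (@Lb.d (nat_lit 130) (nat_lit 16) (nat_lit 5) (@Lb.fp (nat_lit 3) t5851)))))))))
noncomputable def l34569 : Lb := (@Lb.d (nat_lit 10) (nat_lit 8) (nat_lit 73) (@Lb.g g8 (@Lb.g g10 (@Lb.g g11 (@Lb.r r2707 (@Lb.r r2085 (@Lb.r r2388 (@Lb.r r1642 (@Lb.d (nat_lit 164) (nat_lit 137) (nat_lit 146) (@Lb.t (@Lb.fm (nat_lit 9) t4571)))))))))))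
noncomputable def l34570 : Lb := (@Lb.d (nat_lit 425) (nat_lit 18) (nat_lit 264) (@Lb.r r1361 (@Lb.r r2454 (@Lb.r r2411 (@Lb.r r328 (@Lb.g g7 (@Lb.g g6 (@Lb.g g5 (@Lb.d (nat_lit 20) (nat_lit 5) (nat_lit 129) (@Lb.t (@Lb.fp (nat_lit 9) t5506)))))))))))
noncomputable def l34571 : Lb := (@Lb.d (nat_lit 146) (nat_lit 256) (nat_lit 384) (@Lb.g g8 (@Lb.g g10 (@Lb.g g11 (@Lb.r r1602 (@Lb.r r2457 (@Lb.r r388 (@Lb.d (nat_lit 354) (nat_lit 0) (nat_lit 394) (@Lb.t (@Lb.fm (nat_lit 9) t979))))))))))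
noncomputable def l34572 : Lb := (@Lb.d (nat_lit 144) (nat_lit 512) (nat_lit 384) (@Lb.g g8 (@Lb.g g10 (@Lb.g g11 (@Lb.r r1602 (@Lb.r r388 (@Lb.d (nat_lit 106) (nat_lit 2) (nat_lit 394) (@Lb.t (@Lb.fm (nat_lit 9) t6162)))))))))
noncomputable def l34573 : Lb := (@Lb.d (nat_lit 9) (nat_lit 513) (nat_lit 130) (@Lb.g g8 (@Lb.g g9 (@Lb.g g10 (@Lb.g g11 (@Lb.r r84 (@Lb.r r154 (@Lb.r r597 (@Lb.r r343 (@Lb.r r676 (@Lb.d (nat_lit 610) (nat_lit 2) (nat_lit 602) (@Lb.fm (nat_lit 9) t698))))))))))))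
noncomputable def l34574 : Lb := (@Lb.d (nat_lit 41) (nat_lit 512) (nat_lit 0) (@Lb.g g8 (@Lb.r r2395 (@Lb.r r614 (@Lb.r r1637 (@Lb.r r1428 (@Lb.d (nat_lit 358) (nat_lit 90) (nat_lit 266) (@Lb.t (@Lb.fm (nat_lit 3) t188)))))))))
noncomputable def l34575 : Lb := (@Lb.d (nat_lit 402) (nat_lit 389) (nat_lit 73) (@Lb.r r361 (@Lb.r r292 (@Lb.r r426 (@Lb.g g11 (@Lb.g g5 (@Lb.d (nat_lit 4) (nat_lit 17) (nat_lit 264) (@Lb.r r578 (@Lb.fp (nat_lit 3) t390)))))))))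
noncomputable def l34576 : Lb := (@Lb.d (nat_lit 9) (nat_lit 264) (nat_lit 129) (@Lb.g g8 (@Lb.g g9 (@Lb.g g10 (@Lb.g g11 (@Lb.r r84 (@Lb.r r154 (@Lb.r r597 (@Lb.r r343 (@Lb.r r676 (@Lb.d (nat_lit 617) (nat_lit 1) (nat_lit 602) (@Lb.fm (nat_lit 9) t5613))))))))))))
noncomputable def l34577 : Lb := (@Lb.d (nat_lit 9) (nat_lit 1) (nat_lit 130) (@Lb.g g8 (@Lb.g g9 (@Lb.g g10 (@Lb.g g11 (@Lb.r r84 (@Lb.r r154 (@Lb.r r597 (@Lb.r r343 (@Lb.r r676 (@Lb.d (nat_lit 617) (nat_lit 1) (nat_lit 602) (@Lb.fm (nat_lit 9) t698))))))))))))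
noncomputable def l34578 : Lb := (@Lb.d (nat_lit 32) (nat_lit 264) (nat_lit 129) (@Lb.g g10 (@Lb.g g11 (@Lb.r r1687 (@Lb.r r2408 (@Lb.r r1385 (@Lb.r r598 (@Lb.d (nat_lit 150) (nat_lit 38) (nat_lit 384) (@Lb.fp (nat_lit 3) t271)))))))))
noncomputable def l34579 : Lb := (@Lb.r r20 (@Lb.r r82 (@Lb.d (nat_lit 4) (nat_lit 160) (nat_lit 72) (@Lb.g g5 (@Lb.g g11 (@Lb.r r1624 (@Lb.r r2438 (@Lb.r r1611 (@Lb.d (nat_lit 610) (nat_lit 1) (nat_lit 514) (@Lb.fm (nat_lit 3) t1246))))))))))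
noncomputable def l34580 : Lb := (@Lb.d (nat_lit 0) (nat_lit 66) (nat_lit 0) (@Lb.g g5 (@Lb.r r1619 (@Lb.r r408 (@Lb.r r426 (@Lb.r r1156 (@Lb.d (nat_lit 585) (nat_lit 129) (nat_lit 512) (@Lb.t (@Lb.fp (nat_lit 3) t324)))))))))
noncomputable def l34581 : Lb := (@Lb.d (nat_lit 144) (nat_lit 81) (nat_lit 273) (@Lb.r r1105 (@Lb.r r98 (@Lb.r r601 (@Lb.g g8 (@Lb.t (@Lb.fp (nat_lit 3) t6163)))))))
noncomputable def l34582 : Lb := (@Lb.r r70 (@Lb.d (nat_lit 34) (nat_lit 322) (nat_lit 0) (@Lb.g g8 (@Lb.g g9 (@Lb.r r1611 (@Lb.r r2454 (@Lb.r r2632 (@Lb.d (nat_lit 150) (nat_lit 64) (nat_lit 9) (@Lb.fp (nat_lit 3) t429)))))))))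
noncomputable def l34583 : Lb := (@Lb.r r82 (@Lb.r r275 (@Lb.d (nat_lit 8) (nat_lit 258) (nat_lit 0) (@Lb.g g9 (@Lb.r r2648 (@Lb.r r2395 (@Lb.r r657 (@Lb.r r146 (@Lb.d (nat_lit 290) (nat_lit 133) (nat_lit 18) (@Lb.t (@Lb.fp (nat_lit 3) t730)))))))))))
noncomputable def l34584 : Lb := (@Lb.d (nat_lit 32) (nat_lit 66) (nat_lit 8) (@Lb.g g5 (@Lb.g g10 (@Lb.r r2651 (@Lb.r r2644 (@Lb.r r1370 (@Lb.d (nat_lit 37) (nat_lit 101) (nat_lit 534) (@Lb.fm (nat_lit 3) t324))))))))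
noncomputable def l34585 : Lb := (@Lb.d (nat_lit 426) (nat_lit 361) (nat_lit 278) (@Lb.r r1704 (@Lb.r r1451 (@Lb.r r1369 (@Lb.g g10 (@Lb.g g4 (@Lb.d (nat_lit 100) (nat_lit 0) (nat_lit 37) (@Lb.r r145 (@Lb.fm (nat_lit 3) t564)))))))))
noncomputable def l34586 : Lb := (@Lb.d (nat_lit 330) (nat_lit 674) (nat_lit 260) (@Lb.r r1320 (@Lb.r r2583 (@Lb.r r1385 (@Lb.g g10 (@Lb.g g4 (@Lb.d (nat_lit 65) (nat_lit 8) (nat_lit 38) (@Lb.r r145 (@Lb.fm (nat_lit 3) t1126)))))))))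
noncomputable def l34587 : Lb := (@Lb.d (nat_lit 0) (nat_lit 520) (nat_lit 2) (@Lb.g g10 (@Lb.r r2401 (@Lb.r r2642 (@Lb.d (nat_lit 10) (nat_lit 149) (nat_lit 96) (@Lb.t (@Lb.fm (nat_lit 3) t6164)))))))
noncomputable def l34588 : Lb := (@Lb.d (nat_lit 2) (nat_lit 2) (nat_lit 2) (@Lb.g g8 (@Lb.g g9 (@Lb.g g10 (@Lb.g g11 (@Lb.r r2691 (@Lb.r r297 (@Lb.r r360 (@Lb.r r582 (@Lb.r r2180 (@Lb.d (nat_lit 641) (nat_lit 162) (nat_lit 576) (@Lb.fm (nat_lit 9) t242))))))))))))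
noncomputable def l34589 : Lb := (@Lb.d (nat_lit 0) (nat_lit 514) (nat_lit 0) (@Lb.g g9 (@Lb.r r2339 (@Lb.r r2146 (@Lb.r r97 (@Lb.r r2196 (@Lb.d (nat_lit 0) (nat_lit 133) (nat_lit 33) (@Lb.t (@Lb.fm (nat_lit 3) t65)))))))))
noncomputable def l34590 : Lb := (@Lb.r r322 (@Lb.d (nat_lit 2) (nat_lit 258) (nat_lit 576) (@Lb.g g8 (@Lb.g g9 (@Lb.g g7 (@Lb.r r360 (@Lb.r r150 (@Lb.r r25 (@Lb.d (nat_lit 521) (nat_lit 64) (nat_lit 610) (@Lb.t (@Lb.fp (nat_lit 9) t1832)))))))))))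
noncomputable def l34591 : Lb := (@Lb.r r82 (@Lb.d (nat_lit 530) (nat_lit 258) (nat_lit 0) (@Lb.g g8 (@Lb.g g9 (@Lb.g g11 (@Lb.r r1571 (@Lb.r r1418 (@Lb.r r2577 (@Lb.d (nat_lit 330) (nat_lit 73) (nat_lit 580) (@Lb.t (@Lb.fm (nat_lit 9) t1278)))))))))))
noncomputable def l34592 : Lb := (@Lb.r r82 (@Lb.d (nat_lit 530) (nat_lit 545) (nat_lit 128) (@Lb.g g8 (@Lb.g g9 (@Lb.g g11 (@Lb.r r1571 (@Lb.r r1418 (@Lb.r r153 (@Lb.d (nat_lit 386) (nat_lit 33) (nat_lit 264) (@Lb.t (@Lb.fm (nat_lit 9) t1278)))))))))))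
noncomputable def l34593 : Lb := (@Lb.d (nat_lit 0) (nat_lit 258) (nat_lit 66) (@Lb.g g9 (@Lb.g g10 (@Lb.g g7 (@Lb.r r386 (@Lb.r r97 (@Lb.r r2196 (@Lb.d (nat_lit 0) (nat_lit 137) (nat_lit 25) (@Lb.t (@Lb.fp (nat_lit 9) t87))))))))))
noncomputable def l34594 : Lb := (@Lb.d (nat_lit 41) (nat_lit 514) (nat_lit 0) (@Lb.g g8 (@Lb.g g9 (@Lb.g g11 (@Lb.r r406 (@Lb.r r2649 (@Lb.r r600 (@Lb.d (nat_lit 408) (nat_lit 33) (nat_lit 153) (@Lb.t (@Lb.fm (nat_lit 9) t1814))))))))))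
noncomputable def l34595 : Lb := (@Lb.d (nat_lit 2) (nat_lit 101) (nat_lit 424) (@Lb.r r346 (@Lb.r r165 (@Lb.r r1299 (@Lb.g g6 (@Lb.g g5 (@Lb.g g8 (@Lb.d (nat_lit 545) (nat_lit 1) (nat_lit 0) (@Lb.t (@Lb.fp (nat_lit 9) t4077))))))))))
noncomputable def l34596 : Lb := (@Lb.d (nat_lit 2) (nat_lit 42) (nat_lit 73) (@Lb.r r674 (@Lb.r r595 (@Lb.g g7 (@Lb.g g6 (@Lb.g g5 (@Lb.g g8 (@Lb.d (nat_lit 2) (nat_lit 129) (nat_lit 10) (@Lb.fm (nat_lit 9) t126)))))))))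
noncomputable def l34597 : Lb := (@Lb.r r82 (@Lb.d (nat_lit 2) (nat_lit 2) (nat_lit 128) (@Lb.g g8 (@Lb.g g9 (@Lb.g g11 (@Lb.r r1571 (@Lb.r r1192 (@Lb.r r1642 (@Lb.r r1633 (@Lb.d (nat_lit 613) (nat_lit 152) (nat_lit 356) (@Lb.t (@Lb.fp (nat_lit 9) t509))))))))))))
noncomputable def l34598 : Lb := (@Lb.r r82 (@Lb.r r275 (@Lb.d (nat_lit 553) (nat_lit 258) (nat_lit 0) (@Lb.g g8 (@Lb.g g9 (@Lb.r r406 (@Lb.r r1603 (@Lb.r r25 (@Lb.d (nat_lit 325) (nat_lit 160) (nat_lit 0) (@Lb.fm (nat_lit 3) t1879))))))))))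
noncomputable def l34599 : Lb := (@Lb.d (nat_lit 0) (nat_lit 4) (nat_lit 128) (@Lb.g g9 (@Lb.g g10 (@Lb.g g11 (@Lb.r r2691 (@Lb.r r578 (@Lb.r r1320 (@Lb.r r1433 (@Lb.d (nat_lit 678) (nat_lit 84) (nat_lit 408) (@Lb.t (@Lb.fm (nat_lit 9) t1491)))))))))))
noncomputable def l34600 : Lb := (@Lb.d (nat_lit 36) (nat_lit 576) (nat_lit 138) (@Lb.r r154 (@Lb.r r664 (@Lb.r r667 (@Lb.r r353 (@Lb.g g7 (@Lb.g g4 (@Lb.d (nat_lit 2) (nat_lit 0) (nat_lit 64) (@Lb.fm (nat_lit 3) t51)))))))))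
noncomputable def l34601 : Lb := (@Lb.d (nat_lit 38) (nat_lit 64) (nat_lit 138) (@Lb.r r154 (@Lb.r r664 (@Lb.r r667 (@Lb.r r353 (@Lb.g g7 (@Lb.g g4 (@Lb.d (nat_lit 2) (nat_lit 0) (nat_lit 64) (@Lb.fm (nat_lit 3) t51)))))))))
noncomputable def l34602 : Lb := (@Lb.d (nat_lit 2) (nat_lit 514) (nat_lit 2) (@Lb.g g8 (@Lb.g g9 (@Lb.g g10 (@Lb.g g11 (@Lb.r r2595 (@Lb.r r100 (@Lb.r r410 (@Lb.r r1621 (@Lb.r r1188 (@Lb.d (nat_lit 134) (nat_lit 66) (nat_lit 330) (@Lb.fp (nat_lit 9) t284))))))))))))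
noncomputable def l34603 : Lb := (@Lb.d (nat_lit 0) (nat_lit 8) (nat_lit 130) (@Lb.g g10 (@Lb.g g11 (@Lb.r r353 (@Lb.r r663 (@Lb.r r328 (@Lb.r r134 (@Lb.d (nat_lit 36) (nat_lit 81) (nat_lit 290) (@Lb.fm (nat_lit 3) t210)))))))))
noncomputable def l34604 : Lb := (@Lb.d (nat_lit 8) (nat_lit 514) (nat_lit 66) (@Lb.g g8 (@Lb.g g9 (@Lb.g g10 (@Lb.g g7 (@Lb.r r386 (@Lb.r r2145 (@Lb.r r24 (@Lb.d (nat_lit 330) (nat_lit 73) (nat_lit 553) (@Lb.fp (nat_lit 9) t166))))))))))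
noncomputable def l34605 : Lb := (@Lb.d (nat_lit 2) (nat_lit 672) (nat_lit 0) (@Lb.g g8 (@Lb.g g5 (@Lb.r r322 (@Lb.r r1667 (@Lb.r r578 (@Lb.r r24 (@Lb.d (nat_lit 553) (nat_lit 0) (nat_lit 34) (@Lb.fp (nat_lit 3) t40)))))))))
noncomputable def l34606 : Lb := (@Lb.r r21 (@Lb.d (nat_lit 2) (nat_lit 512) (nat_lit 2) (@Lb.g g8 (@Lb.g g10 (@Lb.g g7 (@Lb.r r386 (@Lb.r r97 (@Lb.r r2632 (@Lb.d (nat_lit 356) (nat_lit 88) (nat_lit 164) (@Lb.t (@Lb.fm (nat_lit 9) t3305)))))))))))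
noncomputable def l34607 : Lb := (@Lb.d (nat_lit 0) (nat_lit 0) (nat_lit 66) (@Lb.g g10 (@Lb.g g11 (@Lb.r r419 (@Lb.r r386 (@Lb.d (nat_lit 0) (nat_lit 98) (nat_lit 153) (@Lb.fp (nat_lit 3) t305)))))))
noncomputable def l34608 : Lb := (@Lb.d (nat_lit 0) (nat_lit 0) (nat_lit 72) (@Lb.g g5 (@Lb.g g11 (@Lb.d (nat_lit 608) (nat_lit 0) (nat_lit 530) (@Lb.fp (nat_lit 3) t698)))))
noncomputable def l34609 : Lb := (@Lb.r r339 (@Lb.d (nat_lit 0) (nat_lit 516) (nat_lit 2) (@Lb.g g9 (@Lb.g g10 (@Lb.r r2470 (@Lb.r r2635 (@Lb.r r1112 (@Lb.r r2085 (@Lb.d (nat_lit 69) (nat_lit 97) (nat_lit 384) (@Lb.fm (nat_lit 3) t823))))))))))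
noncomputable def l34610 : Lb := (@Lb.r r323 (@Lb.g g9 (@Lb.g g6 (@Lb.r r1411 (@Lb.r r1090 (@Lb.p (nat_lit 1) (@Lb.fp (nat_lit 3) t2)))))))
noncomputable def l34611 : Lb := (@Lb.d (nat_lit 2) (nat_lit 545) (nat_lit 66) (@Lb.g g8 (@Lb.g g9 (@Lb.g g10 (@Lb.g g11 (@Lb.r r1706 (@Lb.r r1188 (@Lb.r r2597 (@Lb.r r1315 (@Lb.d (nat_lit 521) (nat_lit 81) (nat_lit 650) (@Lb.fp (nat_lit 9) t1225)))))))))))
noncomputable def l34612 : Lb := (@Lb.d (nat_lit 0) (nat_lit 0) (nat_lit 132) (@Lb.g g9 (@Lb.g g10 (@Lb.g g11 (@Lb.r r1363 (@Lb.r r1362 (@Lb.r r101 (@Lb.r r24 (@Lb.d (nat_lit 129) (nat_lit 0) (nat_lit 361) (@Lb.t (@Lb.fm (nat_lit 9) t457)))))))))))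
noncomputable def l34613 : Lb := (@Lb.r r323 (@Lb.d (nat_lit 0) (nat_lit 5) (nat_lit 2) (@Lb.g g9 (@Lb.g g10 (@Lb.r r403 (@Lb.r r1610 (@Lb.r r2644 (@Lb.r r1321 (@Lb.d (nat_lit 258) (nat_lit 80) (nat_lit 576) (@Lb.fp (nat_lit 3) t261))))))))))
noncomputable def l34614 : Lb := (@Lb.d (nat_lit 2) (nat_lit 294) (nat_lit 64) (@Lb.g g8 (@Lb.g g9 (@Lb.g g10 (@Lb.g g11 (@Lb.r r1706 (@Lb.r r1188 (@Lb.r r2597 (@Lb.r r1315 (@Lb.d (nat_lit 521) (nat_lit 81) (nat_lit 650) (@Lb.fp (nat_lit 9) t3612)))))))))))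
noncomputable def l34615 : Lb := (@Lb.d (nat_lit 2) (nat_lit 514) (nat_lit 130) (@Lb.g g8 (@Lb.g g9 (@Lb.g g10 (@Lb.g g11 (@Lb.r r2666 (@Lb.r r579 (@Lb.r r292 (@Lb.r r405 (@Lb.r r2084 (@Lb.d (nat_lit 616) (nat_lit 90) (nat_lit 297) (@Lb.fm (nat_lit 9) t3509))))))))))))
noncomputable def l34616 : Lb := (@Lb.d (nat_lit 529) (nat_lit 37) (nat_lit 340) (@Lb.r r404 (@Lb.r r2390 (@Lb.r r1643 (@Lb.g g7 (@Lb.g g6 (@Lb.g g5 (@Lb.g g4 (@Lb.d (nat_lit 97) (nat_lit 0) (nat_lit 129) (@Lb.fm (nat_lit 9) t2015))))))))))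
noncomputable def l34617 : Lb := (@Lb.d (nat_lit 544) (nat_lit 293) (nat_lit 325) (@Lb.r r404 (@Lb.r r2390 (@Lb.r r2475 (@Lb.g g6 (@Lb.g g5 (@Lb.g g4 (@Lb.d (nat_lit 97) (nat_lit 0) (nat_lit 1) (@Lb.t (@Lb.fp (nat_lit 9) t2015))))))))))
noncomputable def l34618 : Lb := (@Lb.d (nat_lit 9) (nat_lit 1) (nat_lit 130) (@Lb.g g8 (@Lb.g g9 (@Lb.g g10 (@Lb.g g11 (@Lb.r r427 (@Lb.r r424 (@Lb.r r106 (@Lb.r r25 (@Lb.d (nat_lit 360) (nat_lit 2) (nat_lit 649) (@Lb.fm (nat_lit 9) t1306)))))))))))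
noncomputable def l34619 : Lb := (@Lb.d (nat_lit 128) (nat_lit 2) (nat_lit 130) (@Lb.g g8 (@Lb.g g9 (@Lb.g g10 (@Lb.g g11 (@Lb.r r419 (@Lb.r r1702 (@Lb.r r344 (@Lb.r r1429 (@Lb.r r1060 (@Lb.d (nat_lit 610) (nat_lit 40) (nat_lit 402) (@Lb.fp (nat_lit 9) t1975))))))))))))
noncomputable def l34620 : Lb := (@Lb.g g5 (@Lb.g g11 (@Lb.fp (nat_lit 3) t2)))
noncomputable def l34621 : Lb := (@Lb.d (nat_lit 1) (nat_lit 256) (nat_lit 66) (@Lb.g g8 (@Lb.g g10 (@Lb.g g7 (@Lb.r r386 (@Lb.r r2145 (@Lb.r r24 (@Lb.d (nat_lit 330) (nat_lit 73) (nat_lit 553) (@Lb.t (@Lb.fm (nat_lit 9) t166))))))))))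
noncomputable def l34622 : Lb := (@Lb.d (nat_lit 280) (nat_lit 257) (nat_lit 340) (@Lb.r r388 (@Lb.r r2406 (@Lb.r r1643 (@Lb.g g7 (@Lb.g g9 (@Lb.g g4 (@Lb.d (nat_lit 72) (nat_lit 10) (nat_lit 128) (@Lb.r r74 (@Lb.t (@Lb.fp (nat_lit 9) t894)))))))))))
noncomputable def l34623 : Lb := (@Lb.d (nat_lit 642) (nat_lit 4) (nat_lit 128) (@Lb.g g8 (@Lb.g g9 (@Lb.g g10 (@Lb.g g11 (@Lb.r r1451 (@Lb.r r106 (@Lb.r r25 (@Lb.d (nat_lit 9) (nat_lit 9) (nat_lit 425) (@Lb.fp (nat_lit 9) t1169))))))))))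
noncomputable def l34624 : Lb := (@Lb.d (nat_lit 390) (nat_lit 406) (nat_lit 594) (@Lb.r r2325 (@Lb.r r2390 (@Lb.r r2731 (@Lb.g g6 (@Lb.g g5 (@Lb.g g4 (@Lb.d (nat_lit 8) (nat_lit 4) (nat_lit 2) (@Lb.t (@Lb.fm (nat_lit 9) t578))))))))))
noncomputable def l34625 : Lb := (@Lb.d (nat_lit 18) (nat_lit 645) (nat_lit 146) (@Lb.r r1384 (@Lb.r r150 (@Lb.r r2409 (@Lb.g g11 (@Lb.g g5 (@Lb.g g4 (@Lb.d (nat_lit 20) (nat_lit 1) (nat_lit 384) (@Lb.r r578 (@Lb.t (@Lb.fp (nat_lit 9) t3028)))))))))))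
noncomputable def l34626 : Lb := (@Lb.d (nat_lit 100) (nat_lit 522) (nat_lit 90) (@Lb.r r324 (@Lb.r r666 (@Lb.r r2459 (@Lb.g g9 (@Lb.g g4 (@Lb.d (nat_lit 70) (nat_lit 152) (nat_lit 0) (@Lb.r r98 (@Lb.fm (nat_lit 3) t564)))))))))
noncomputable def l34627 : Lb := (@Lb.r r82 (@Lb.d (nat_lit 166) (nat_lit 0) (nat_lit 128) (@Lb.g g8 (@Lb.g g9 (@Lb.g g11 (@Lb.r r2390 (@Lb.r r1411 (@Lb.r r1633 (@Lb.r r2216 (@Lb.d (nat_lit 69) (nat_lit 70) (nat_lit 169) (@Lb.t (@Lb.fm (nat_lit 9) t1846))))))))))))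
noncomputable def l34628 : Lb := (@Lb.r r263 (@Lb.d (nat_lit 2) (nat_lit 258) (nat_lit 2) (@Lb.g g8 (@Lb.g g9 (@Lb.g g10 (@Lb.r r422 (@Lb.r r327 (@Lb.r r409 (@Lb.r r388 (@Lb.d (nat_lit 346) (nat_lit 9) (nat_lit 513) (@Lb.t (@Lb.fp (nat_lit 9) t4024))))))))))))
noncomputable def l34629 : Lb := (@Lb.d (nat_lit 129) (nat_lit 514) (nat_lit 130) (@Lb.g g8 (@Lb.g g9 (@Lb.g g10 (@Lb.g g11 (@Lb.r r419 (@Lb.r r164 (@Lb.r r2438 (@Lb.r r97 (@Lb.d (nat_lit 354) (nat_lit 41) (nat_lit 601) (@Lb.fp (nat_lit 9) t6165)))))))))))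
noncomputable def l34630 : Lb := (@Lb.r r81 (@Lb.r r323 (@Lb.d (nat_lit 2) (nat_lit 264) (nat_lit 32) (@Lb.g g8 (@Lb.g g10 (@Lb.r r1381 (@Lb.r r2587 (@Lb.r r2564 (@Lb.d (nat_lit 393) (nat_lit 144) (nat_lit 514) (@Lb.fm (nat_lit 3) t6166))))))))))
noncomputable def l34631 : Lb := (@Lb.d (nat_lit 66) (nat_lit 261) (nat_lit 346) (@Lb.r r650 (@Lb.r r427 (@Lb.r r341 (@Lb.g g7 (@Lb.g g6 (@Lb.g g4 (@Lb.d (nat_lit 257) (nat_lit 8) (nat_lit 133) (@Lb.r r25 (@Lb.t (@Lb.fm (nat_lit 9) t4666)))))))))))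
noncomputable def l34632 : Lb := (@Lb.d (nat_lit 8) (nat_lit 258) (nat_lit 128) (@Lb.g g9 (@Lb.g g11 (@Lb.r r1447 (@Lb.r r1414 (@Lb.r r24 (@Lb.r r101 (@Lb.d (nat_lit 533) (nat_lit 137) (nat_lit 2) (@Lb.fp (nat_lit 3) t825)))))))))
noncomputable def l34633 : Lb := (@Lb.d (nat_lit 146) (nat_lit 258) (nat_lit 128) (@Lb.g g8 (@Lb.g g9 (@Lb.g g10 (@Lb.g g11 (@Lb.r r683 (@Lb.r r1610 (@Lb.r r145 (@Lb.r r612 (@Lb.d (nat_lit 154) (nat_lit 89) (nat_lit 138) (@Lb.fm (nat_lit 9) t925)))))))))))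
noncomputable def l34634 : Lb := (@Lb.d (nat_lit 0) (nat_lit 256) (nat_lit 128) (@Lb.g g10 (@Lb.g g11 (@Lb.r r387 (@Lb.d (nat_lit 0) (nat_lit 164) (nat_lit 384) (@Lb.fm (nat_lit 3) t1119))))))
noncomputable def l34635 : Lb := (@Lb.d (nat_lit 9) (nat_lit 262) (nat_lit 138) (@Lb.g g8 (@Lb.g g9 (@Lb.g g10 (@Lb.g g11 (@Lb.r r683 (@Lb.r r676 (@Lb.r r2213 (@Lb.r r98 (@Lb.d (nat_lit 521) (nat_lit 168) (nat_lit 642) (@Lb.fp (nat_lit 9) t2083)))))))))))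
noncomputable def l34636 : Lb := (@Lb.d (nat_lit 6) (nat_lit 326) (nat_lit 1) (@Lb.r r289 (@Lb.r r279 (@Lb.r r584 (@Lb.r r326 (@Lb.g g7 (@Lb.g g6 (@Lb.d (nat_lit 0) (nat_lit 0) (nat_lit 65) (@Lb.fm (nat_lit 3) t74)))))))))
noncomputable def l34637 : Lb := (@Lb.r r275 (@Lb.d (nat_lit 2) (nat_lit 514) (nat_lit 2) (@Lb.g g8 (@Lb.g g9 (@Lb.g g10 (@Lb.r r1451 (@Lb.r r1177 (@Lb.r r146 (@Lb.r r2120 (@Lb.d (nat_lit 354) (nat_lit 5) (nat_lit 512) (@Lb.t (@Lb.fm (nat_lit 9) t6167))))))))))))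
noncomputable def l34638 : Lb := (@Lb.r r21 (@Lb.d (nat_lit 146) (nat_lit 512) (nat_lit 133) (@Lb.g g8 (@Lb.g g10 (@Lb.g g11 (@Lb.r r1674 (@Lb.r r1637 (@Lb.r r1703 (@Lb.r r1176 (@Lb.d (nat_lit 422) (nat_lit 10) (nat_lit 166) (@Lb.t (@Lb.fm (nat_lit 9) t125))))))))))))
noncomputable def l34639 : Lb := (@Lb.r r1284 (@Lb.r r1691 (@Lb.r r2178 (@Lb.r r421 (@Lb.d (nat_lit 512) (nat_lit 657) (nat_lit 352) (@Lb.fm (nat_lit 1) t2142))))))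
noncomputable def l34640 : Lb := (@Lb.d (nat_lit 36) (nat_lit 6) (nat_lit 144) (@Lb.g g5 (@Lb.g g10 (@Lb.g g11 (@Lb.r r387 (@Lb.r r24 (@Lb.d (nat_lit 257) (nat_lit 0) (nat_lit 137) (@Lb.t (@Lb.fm (nat_lit 9) t68)))))))))
noncomputable def l34641 : Lb := (@Lb.r r101 (@Lb.r r24 (@Lb.d (nat_lit 586) (nat_lit 394) (nat_lit 530) (@Lb.fp (nat_lit 1) t3927))))
noncomputable def l34642 : Lb := (@Lb.d (nat_lit 129) (nat_lit 2) (nat_lit 4) (@Lb.g g8 (@Lb.g g9 (@Lb.g g10 (@Lb.g g11 (@Lb.r r683 (@Lb.r r1689 (@Lb.r r146 (@Lb.r r516 (@Lb.d (nat_lit 673) (nat_lit 73) (nat_lit 145) (@Lb.fp (nat_lit 9) t2351)))))))))))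
noncomputable def l34643 : Lb := (@Lb.r r101 (@Lb.r r24 (@Lb.d (nat_lit 586) (nat_lit 128) (nat_lit 528) (@Lb.fp (nat_lit 1) t3927))))
noncomputable def l34644 : Lb := (@Lb.d (nat_lit 38) (nat_lit 297) (nat_lit 64) (@Lb.g g8 (@Lb.g g9 (@Lb.g g10 (@Lb.g g11 (@Lb.r r2659 (@Lb.r r1606 (@Lb.r r1177 (@Lb.r r392 (@Lb.d (nat_lit 408) (nat_lit 32) (nat_lit 330) (@Lb.fp (nat_lit 9) t6168)))))))))))
noncomputable def l34645 : Lb := (@Lb.d (nat_lit 546) (nat_lit 676) (nat_lit 585) (@Lb.r r1114 (@Lb.r r1620 (@Lb.r r2345 (@Lb.r r1543 (@Lb.g g7 (@Lb.g g4 (@Lb.d (nat_lit 1) (nat_lit 0) (nat_lit 128) (@Lb.fm (nat_lit 3) t2217)))))))))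
noncomputable def l34646 : Lb := (@Lb.d (nat_lit 33) (nat_lit 516) (nat_lit 130) (@Lb.g g8 (@Lb.g g9 (@Lb.g g6 (@Lb.g g11 (@Lb.r r1643 (@Lb.r r1561 (@Lb.r r1540 (@Lb.d (nat_lit 393) (nat_lit 73) (nat_lit 640) (@Lb.fp (nat_lit 9) t47))))))))))
noncomputable def l34647 : Lb := (@Lb.d (nat_lit 2) (nat_lit 256) (nat_lit 66) (@Lb.g g8 (@Lb.g g9 (@Lb.g g10 (@Lb.g g11 (@Lb.r r1681 (@Lb.r r356 (@Lb.r r154 (@Lb.r r132 (@Lb.d (nat_lit 388) (nat_lit 146) (nat_lit 10) (@Lb.fm (nat_lit 9) t907)))))))))))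
noncomputable def l34648 : Lb := (@Lb.d (nat_lit 262) (nat_lit 321) (nat_lit 640) (@Lb.r r2341 (@Lb.r r1624 (@Lb.r r2726 (@Lb.g g11 (@Lb.g g6 (@Lb.g g5 (@Lb.t (@Lb.fp (nat_lit 9) t6058)))))))))
noncomputable def l34649 : Lb := (@Lb.d (nat_lit 0) (nat_lit 2) (nat_lit 104) (@Lb.g g9 (@Lb.g g6 (@Lb.g g11 (@Lb.r r579 (@Lb.r r1313 (@Lb.d (nat_lit 5) (nat_lit 81) (nat_lit 346) (@Lb.t (@Lb.fp (nat_lit 9) t3011)))))))))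
noncomputable def l34650 : Lb := (@Lb.r r339 (@Lb.d (nat_lit 32) (nat_lit 2) (nat_lit 0) (@Lb.g g9 (@Lb.g g10 (@Lb.r r356 (@Lb.r r539 (@Lb.r r354 (@Lb.d (nat_lit 10) (nat_lit 168) (nat_lit 6) (@Lb.fp (nat_lit 3) t3851)))))))))
noncomputable def l34651 : Lb := (@Lb.d (nat_lit 0) (nat_lit 512) (nat_lit 138) (@Lb.g g10 (@Lb.g g11 (@Lb.r r2626 (@Lb.d (nat_lit 0) (nat_lit 0) (nat_lit 330) (@Lb.fm (nat_lit 3) t2))))))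
noncomputable def l34652 : Lb := (@Lb.d (nat_lit 0) (nat_lit 2) (nat_lit 2) (@Lb.g g9 (@Lb.g g10 (@Lb.r r353 (@Lb.r r146 (@Lb.r r24 (@Lb.d (nat_lit 610) (nat_lit 160) (nat_lit 529) (@Lb.fp (nat_lit 3) t1832))))))))
noncomputable def l34653 : Lb := (@Lb.d (nat_lit 0) (nat_lit 260) (nat_lit 1) (@Lb.g g6 (@Lb.g g11 (@Lb.r r101 (@Lb.d (nat_lit 1) (nat_lit 2) (nat_lit 1) (@Lb.fm (nat_lit 3) t983))))))
noncomputable def l34654 : Lb := (@Lb.d (nat_lit 0) (nat_lit 2) (nat_lit 0) (@Lb.g g9 (@Lb.g g10 (@Lb.r r663 (@Lb.r r1606 (@Lb.r r97 (@Lb.r r36 (@Lb.d (nat_lit 521) (nat_lit 74) (nat_lit 17) (@Lb.fm (nat_lit 3) t413)))))))))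
noncomputable def l34655 : Lb := (@Lb.d (nat_lit 4) (nat_lit 257) (nat_lit 0) (@Lb.g g5 (@Lb.r r1319 (@Lb.r r1126 (@Lb.r r24 (@Lb.d (nat_lit 65) (nat_lit 6) (nat_lit 513) (@Lb.t (@Lb.fp (nat_lit 3) t6169))))))))
noncomputable def l34656 : Lb := (@Lb.d (nat_lit 0) (nat_lit 4) (nat_lit 1) (@Lb.g g6 (@Lb.g g11 (@Lb.r r101 (@Lb.d (nat_lit 6) (nat_lit 0) (nat_lit 1) (@Lb.fm (nat_lit 3) t983))))))
noncomputable def l34657 : Lb := (@Lb.r r21 (@Lb.d (nat_lit 386) (nat_lit 512) (nat_lit 66) (@Lb.g g8 (@Lb.g g10 (@Lb.g g11 (@Lb.r r2443 (@Lb.r r90 (@Lb.r r145 (@Lb.d (nat_lit 33) (nat_lit 86) (nat_lit 165) (@Lb.t (@Lb.fm (nat_lit 9) t6170)))))))))))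
noncomputable def l34658 : Lb := (@Lb.d (nat_lit 33) (nat_lit 2) (nat_lit 73) (@Lb.g g8 (@Lb.g g9 (@Lb.g g10 (@Lb.g g11 (@Lb.r r2690 (@Lb.r r2455 (@Lb.r r1561 (@Lb.r r660 (@Lb.d (nat_lit 661) (nat_lit 166) (nat_lit 133) (@Lb.fm (nat_lit 9) t2351)))))))))))
noncomputable def l34659 : Lb := (@Lb.d (nat_lit 2) (nat_lit 258) (nat_lit 130) (@Lb.g g8 (@Lb.g g9 (@Lb.g g10 (@Lb.g g11 (@Lb.r r1130 (@Lb.r r356 (@Lb.r r411 (@Lb.r r533 (@Lb.r r2084 (@Lb.d (nat_lit 166) (nat_lit 8) (nat_lit 353) (@Lb.fp (nat_lit 9) t145))))))))))))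
noncomputable def l34660 : Lb := (@Lb.r r21 (@Lb.r r323 (@Lb.d (nat_lit 138) (nat_lit 512) (nat_lit 2) (@Lb.g g8 (@Lb.g g10 (@Lb.r r2394 (@Lb.r r1685 (@Lb.r r1559 (@Lb.r r2312 (@Lb.d (nat_lit 394) (nat_lit 70) (nat_lit 640) (@Lb.fm (nat_lit 3) t295)))))))))))
noncomputable def l34661 : Lb := (@Lb.d (nat_lit 96) (nat_lit 8) (nat_lit 580) (@Lb.r r1604 (@Lb.r r1621 (@Lb.r r146 (@Lb.r r1687 (@Lb.g g7 (@Lb.g g5 (@Lb.g g4 (@Lb.d (nat_lit 1) (nat_lit 1) (nat_lit 128) (@Lb.t (@Lb.fp (nat_lit 9) t6171)))))))))))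
noncomputable def l34662 : Lb := (@Lb.d (nat_lit 1) (nat_lit 0) (nat_lit 73) (@Lb.g g8 (@Lb.g g9 (@Lb.g g10 (@Lb.g g11 (@Lb.r r356 (@Lb.r r1355 (@Lb.r r2466 (@Lb.r r2217 (@Lb.r r1044 (@Lb.d (nat_lit 406) (nat_lit 152) (nat_lit 593) (@Lb.fp (nat_lit 9) t2553))))))))))))
noncomputable def l34663 : Lb := (@Lb.d (nat_lit 2) (nat_lit 2) (nat_lit 130) (@Lb.g g8 (@Lb.g g9 (@Lb.g g10 (@Lb.g g11 (@Lb.r r138 (@Lb.r r529 (@Lb.r r664 (@Lb.r r539 (@Lb.r r516 (@Lb.d (nat_lit 73) (nat_lit 2) (nat_lit 74) (@Lb.fm (nat_lit 9) t521))))))))))))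
noncomputable def l34664 : Lb := (@Lb.d (nat_lit 0) (nat_lit 262) (nat_lit 74) (@Lb.g g9 (@Lb.g g10 (@Lb.g g11 (@Lb.r r1697 (@Lb.r r2658 (@Lb.r r579 (@Lb.d (nat_lit 0) (nat_lit 166) (nat_lit 618) (@Lb.t (@Lb.fm (nat_lit 9) t144))))))))))
noncomputable def l34665 : Lb := (@Lb.d (nat_lit 9) (nat_lit 256) (nat_lit 0) (@Lb.g g8 (@Lb.r r341 (@Lb.r r675 (@Lb.r r658 (@Lb.r r81 (@Lb.d (nat_lit 2) (nat_lit 128) (nat_lit 256) (@Lb.t (@Lb.fp (nat_lit 3) t242)))))))))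
noncomputable def l34666 : Lb := (@Lb.d (nat_lit 9) (nat_lit 257) (nat_lit 74) (@Lb.g g8 (@Lb.g g9 (@Lb.g g10 (@Lb.g g11 (@Lb.r r618 (@Lb.r r579 (@Lb.r r25 (@Lb.d (nat_lit 4) (nat_lit 32) (nat_lit 74) (@Lb.fm (nat_lit 9) t51))))))))))
noncomputable def l34667 : Lb := (@Lb.d (nat_lit 0) (nat_lit 34) (nat_lit 0) (@Lb.g g9 (@Lb.r r356 (@Lb.r r667 (@Lb.r r2178 (@Lb.r r1445 (@Lb.d (nat_lit 586) (nat_lit 166) (nat_lit 385) (@Lb.t (@Lb.fm (nat_lit 3) t1540)))))))))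
noncomputable def l34668 : Lb := (@Lb.d (nat_lit 0) (nat_lit 677) (nat_lit 64) (@Lb.r r24 (@Lb.r r2657 (@Lb.g g7 (@Lb.g g10 (@Lb.g g5 (@Lb.g g4 (@Lb.d (nat_lit 8) (nat_lit 0) (nat_lit 164) (@Lb.fm (nat_lit 9) t51)))))))))
noncomputable def l34669 : Lb := (@Lb.d (nat_lit 9) (nat_lit 512) (nat_lit 0) (@Lb.g g8 (@Lb.r r341 (@Lb.r r675 (@Lb.r r658 (@Lb.r r81 (@Lb.d (nat_lit 2) (nat_lit 128) (nat_lit 394) (@Lb.t (@Lb.fp (nat_lit 3) t242)))))))))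
noncomputable def l34670 : Lb := (@Lb.d (nat_lit 9) (nat_lit 513) (nat_lit 73) (@Lb.g g8 (@Lb.g g9 (@Lb.g g10 (@Lb.g g11 (@Lb.r r2666 (@Lb.r r579 (@Lb.r r25 (@Lb.d (nat_lit 9) (nat_lit 97) (nat_lit 586) (@Lb.fm (nat_lit 9) t51))))))))))
noncomputable def l34671 : Lb := (@Lb.d (nat_lit 9) (nat_lit 512) (nat_lit 0) (@Lb.g g8 (@Lb.d (nat_lit 5) (nat_lit 0) (nat_lit 0) (@Lb.t (@Lb.fp (nat_lit 3) t2)))))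
noncomputable def l34672 : Lb := (@Lb.d (nat_lit 130) (nat_lit 288) (nat_lit 0) (@Lb.g g8 (@Lb.g g9 (@Lb.r r1299 (@Lb.r r2178 (@Lb.r r2709 (@Lb.r r104 (@Lb.d (nat_lit 84) (nat_lit 10) (nat_lit 1) (@Lb.fm (nat_lit 3) t124)))))))))
noncomputable def l34673 : Lb := (@Lb.r r2118 (@Lb.d (nat_lit 137) (nat_lit 257) (nat_lit 392) (@Lb.g g8 (@Lb.g g9 (@Lb.g g11 (@Lb.r r105 (@Lb.r r100 (@Lb.d (nat_lit 25) (nat_lit 10) (nat_lit 33) (@Lb.t (@Lb.fp (nat_lit 9) t1221))))))))))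
noncomputable def l34674 : Lb := (@Lb.d (nat_lit 0) (nat_lit 256) (nat_lit 136) (@Lb.g g11 (@Lb.r r402 (@Lb.r r101 (@Lb.d (nat_lit 0) (nat_lit 128) (nat_lit 74) (@Lb.t (@Lb.fp (nat_lit 3) t1653)))))))
noncomputable def l34675 : Lb := (@Lb.d (nat_lit 32) (nat_lit 512) (nat_lit 73) (@Lb.g g10 (@Lb.g g11 (@Lb.r r340 (@Lb.r r683 (@Lb.r r673 (@Lb.r r610 (@Lb.d (nat_lit 8) (nat_lit 20) (nat_lit 136) (@Lb.fm (nat_lit 3) t167)))))))))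
noncomputable def l34676 : Lb := (@Lb.r r323 (@Lb.d (nat_lit 2) (nat_lit 9) (nat_lit 1) (@Lb.g g8 (@Lb.g g9 (@Lb.g g10 (@Lb.r r1194 (@Lb.r r2600 (@Lb.r r2667 (@Lb.r r2585 (@Lb.d (nat_lit 384) (nat_lit 106) (nat_lit 89) (@Lb.t (@Lb.fp (nat_lit 9) t3049))))))))))))
noncomputable def l34677 : Lb := (@Lb.r r323 (@Lb.d (nat_lit 4) (nat_lit 266) (nat_lit 1) (@Lb.g g8 (@Lb.g g9 (@Lb.g g10 (@Lb.r r2715 (@Lb.r r1194 (@Lb.r r1553 (@Lb.r r1416 (@Lb.d (nat_lit 21) (nat_lit 32) (nat_lit 586) (@Lb.t (@Lb.fp (nat_lit 9) t3047))))))))))))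
noncomputable def l34678 : Lb := (@Lb.r r323 (@Lb.d (nat_lit 9) (nat_lit 8) (nat_lit 1) (@Lb.g g8 (@Lb.g g9 (@Lb.g g10 (@Lb.r r1194 (@Lb.r r2600 (@Lb.r r2667 (@Lb.r r2585 (@Lb.d (nat_lit 384) (nat_lit 96) (nat_lit 90) (@Lb.t (@Lb.fp (nat_lit 9) t3049))))))))))))
noncomputable def l34679 : Lb := (@Lb.r r20 (@Lb.d (nat_lit 8) (nat_lit 546) (nat_lit 132) (@Lb.g g9 (@Lb.g g10 (@Lb.g g11 (@Lb.r r2587 (@Lb.r r2644 (@Lb.r r1418 (@Lb.d (nat_lit 282) (nat_lit 1) (nat_lit 408) (@Lb.t (@Lb.fm (nat_lit 9) t6172)))))))))))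
noncomputable def l34680 : Lb := (@Lb.d (nat_lit 32) (nat_lit 258) (nat_lit 130) (@Lb.g g9 (@Lb.g g10 (@Lb.g g11 (@Lb.r r2709 (@Lb.r r659 (@Lb.r r72 (@Lb.r r1158 (@Lb.d (nat_lit 601) (nat_lit 6) (nat_lit 169) (@Lb.t (@Lb.fp (nat_lit 9) t2757)))))))))))
noncomputable def l34681 : Lb := (@Lb.d (nat_lit 130) (nat_lit 514) (nat_lit 66) (@Lb.g g8 (@Lb.g g9 (@Lb.g g10 (@Lb.g g11 (@Lb.r r292 (@Lb.r r2587 (@Lb.r r2453 (@Lb.r r2134 (@Lb.r r1188 (@Lb.d (nat_lit 521) (nat_lit 146) (nat_lit 584) (@Lb.fm (nat_lit 9) t2759))))))))))))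
noncomputable def l34682 : Lb := (@Lb.r r20 (@Lb.d (nat_lit 8) (nat_lit 290) (nat_lit 132) (@Lb.g g9 (@Lb.g g10 (@Lb.g g11 (@Lb.r r2587 (@Lb.r r2644 (@Lb.r r1418 (@Lb.d (nat_lit 272) (nat_lit 2) (nat_lit 408) (@Lb.t (@Lb.fm (nat_lit 9) t6173)))))))))))
noncomputable def l34683 : Lb := (@Lb.d (nat_lit 2) (nat_lit 289) (nat_lit 66) (@Lb.g g8 (@Lb.g g9 (@Lb.g g10 (@Lb.g g11 (@Lb.r r2666 (@Lb.r r2664 (@Lb.r r267 (@Lb.r r2577 (@Lb.d (nat_lit 129) (nat_lit 17) (nat_lit 546) (@Lb.fm (nat_lit 9) t6174)))))))))))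
noncomputable def l34684 : Lb := (@Lb.d (nat_lit 130) (nat_lit 258) (nat_lit 66) (@Lb.g g8 (@Lb.g g9 (@Lb.g g10 (@Lb.g g11 (@Lb.r r292 (@Lb.r r2587 (@Lb.r r2453 (@Lb.r r2134 (@Lb.r r1188 (@Lb.d (nat_lit 521) (nat_lit 146) (nat_lit 648) (@Lb.fm (nat_lit 9) t6175))))))))))))
noncomputable def l34685 : Lb := (@Lb.r r1291 (@Lb.r r24 (@Lb.d (nat_lit 582) (nat_lit 33) (nat_lit 256) (@Lb.fm (nat_lit 1) t5250))))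
noncomputable def l34686 : Lb := (@Lb.d (nat_lit 549) (nat_lit 42) (nat_lit 582) (@Lb.r r1109 (@Lb.r r323 (@Lb.r r1706 (@Lb.g g7 (@Lb.g g6 (@Lb.g g5 (@Lb.g g4 (@Lb.d (nat_lit 8) (nat_lit 24) (nat_lit 64) (@Lb.fm (nat_lit 9) t309))))))))))
noncomputable def l34687 : Lb := (@Lb.d (nat_lit 362) (nat_lit 601) (nat_lit 294) (@Lb.r r2657 (@Lb.r r1430 (@Lb.r r619 (@Lb.g g5 (@Lb.g g4 (@Lb.d (nat_lit 1) (nat_lit 5) (nat_lit 0) (@Lb.r r98 (@Lb.fp (nat_lit 3) t40)))))))))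
noncomputable def l34688 : Lb := (@Lb.d (nat_lit 128) (nat_lit 0) (nat_lit 64) (@Lb.g g9 (@Lb.g g11 (@Lb.r r134 (@Lb.r r264 (@Lb.r r599 (@Lb.r r289 (@Lb.d (nat_lit 346) (nat_lit 74) (nat_lit 514) (@Lb.fm (nat_lit 3) t1449)))))))))
noncomputable def l34689 : Lb := (@Lb.r r323 (@Lb.d (nat_lit 2) (nat_lit 260) (nat_lit 42) (@Lb.g g8 (@Lb.g g9 (@Lb.g g6 (@Lb.r r387 (@Lb.r r1313 (@Lb.d (nat_lit 0) (nat_lit 98) (nat_lit 16) (@Lb.t (@Lb.fm (nat_lit 9) t388))))))))))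
noncomputable def l34690 : Lb := (@Lb.r r21 (@Lb.r r70 (@Lb.d (nat_lit 409) (nat_lit 0) (nat_lit 128) (@Lb.g g8 (@Lb.g g11 (@Lb.r r1419 (@Lb.r r101 (@Lb.r r410 (@Lb.d (nat_lit 9) (nat_lit 154) (nat_lit 512) (@Lb.fm (nat_lit 3) t3315))))))))))
noncomputable def l34691 : Lb := (@Lb.r r322 (@Lb.d (nat_lit 2) (nat_lit 514) (nat_lit 576) (@Lb.g g8 (@Lb.g g9 (@Lb.g g7 (@Lb.r r1158 (@Lb.r r1320 (@Lb.r r1433 (@Lb.d (nat_lit 410) (nat_lit 37) (nat_lit 41) (@Lb.t (@Lb.fp (nat_lit 9) t6176)))))))))))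
noncomputable def l34692 : Lb := (@Lb.d (nat_lit 278) (nat_lit 593) (nat_lit 417) (@Lb.r r1304 (@Lb.r r667 (@Lb.r r2405 (@Lb.g g6 (@Lb.g g4 (@Lb.d (nat_lit 4) (nat_lit 8) (nat_lit 41) (@Lb.r r387 (@Lb.fp (nat_lit 3) t531)))))))))
noncomputable def l34693 : Lb := (@Lb.d (nat_lit 642) (nat_lit 2) (nat_lit 130) (@Lb.g g8 (@Lb.g g9 (@Lb.g g10 (@Lb.g g11 (@Lb.r r1451 (@Lb.r r106 (@Lb.r r25 (@Lb.d (nat_lit 9) (nat_lit 2) (nat_lit 426) (@Lb.fp (nat_lit 9) t394))))))))))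
noncomputable def l34694 : Lb := (@Lb.r r21 (@Lb.r r70 (@Lb.g g4 (@Lb.r r1412 (@Lb.r r2454 (@Lb.r r97 (@Lb.d (nat_lit 0) (nat_lit 0) (nat_lit 512) (@Lb.t (@Lb.fm (nat_lit 3) t722)))))))))
noncomputable def l34695 : Lb := (@Lb.d (nat_lit 2) (nat_lit 2) (nat_lit 128) (@Lb.g g8 (@Lb.g g9 (@Lb.g g10 (@Lb.g g11 (@Lb.r r411 (@Lb.r r297 (@Lb.r r360 (@Lb.r r582 (@Lb.d (nat_lit 153) (nat_lit 86) (nat_lit 70) (@Lb.fp (nat_lit 9) t91)))))))))))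
noncomputable def l34696 : Lb := (@Lb.r r323 (@Lb.d (nat_lit 130) (nat_lit 514) (nat_lit 0) (@Lb.g g8 (@Lb.g g9 (@Lb.g g10 (@Lb.r r2474 (@Lb.r r583 (@Lb.r r296 (@Lb.r r25 (@Lb.d (nat_lit 1) (nat_lit 130) (nat_lit 656) (@Lb.t (@Lb.fp (nat_lit 9) t2617))))))))))))
noncomputable def l34697 : Lb := (@Lb.d (nat_lit 8) (nat_lit 294) (nat_lit 64) (@Lb.g g9 (@Lb.g g10 (@Lb.g g11 (@Lb.r r2599 (@Lb.r r386 (@Lb.r r1112 (@Lb.r r149 (@Lb.d (nat_lit 133) (nat_lit 0) (nat_lit 678) (@Lb.t (@Lb.fp (nat_lit 9) t1738)))))))))))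
noncomputable def l34698 : Lb := (@Lb.d (nat_lit 0) (nat_lit 262) (nat_lit 1) (@Lb.g g9 (@Lb.g g10 (@Lb.g g7 (@Lb.r r418 (@Lb.r r40 (@Lb.r r153 (@Lb.d (nat_lit 85) (nat_lit 132) (nat_lit 321) (@Lb.t (@Lb.fp (nat_lit 9) t2808))))))))))
noncomputable def l34699 : Lb := (@Lb.d (nat_lit 9) (nat_lit 262) (nat_lit 128) (@Lb.g g8 (@Lb.g g9 (@Lb.g g10 (@Lb.g g11 (@Lb.r r363 (@Lb.r r1130 (@Lb.r r2649 (@Lb.r r24 (@Lb.d (nat_lit 21) (nat_lit 42) (nat_lit 658) (@Lb.fm (nat_lit 9) t1001)))))))))))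
noncomputable def l34700 : Lb := (@Lb.d (nat_lit 1) (nat_lit 264) (nat_lit 64) (@Lb.g g8 (@Lb.g g10 (@Lb.g g7 (@Lb.r r1321 (@Lb.r r1704 (@Lb.r r1674 (@Lb.d (nat_lit 128) (nat_lit 10) (nat_lit 68) (@Lb.t (@Lb.fm (nat_lit 9) t1013))))))))))
noncomputable def l34701 : Lb := (@Lb.d (nat_lit 1) (nat_lit 0) (nat_lit 130) (@Lb.g g8 (@Lb.g g10 (@Lb.g g11 (@Lb.r r1451 (@Lb.r r386 (@Lb.r r1049 (@Lb.d (nat_lit 32) (nat_lit 98) (nat_lit 105) (@Lb.t (@Lb.fp (nat_lit 9) t3056))))))))))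
noncomputable def l34702 : Lb := (@Lb.d (nat_lit 2) (nat_lit 6) (nat_lit 33) (@Lb.r r1346 (@Lb.r r2451 (@Lb.r r402 (@Lb.g g5 (@Lb.g g8 (@Lb.d (nat_lit 320) (nat_lit 65) (nat_lit 0) (@Lb.fm (nat_lit 3) t6177))))))))
noncomputable def l34703 : Lb := (@Lb.r r323 (@Lb.d (nat_lit 16) (nat_lit 8) (nat_lit 33) (@Lb.g g6 (@Lb.r r2471 (@Lb.r r20 (@Lb.r r1049 (@Lb.d (nat_lit 81) (nat_lit 69) (nat_lit 608) (@Lb.t (@Lb.fm (nat_lit 3) t3316)))))))))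
noncomputable def l34704 : Lb := (@Lb.d (nat_lit 0) (nat_lit 545) (nat_lit 4) (@Lb.g g9 (@Lb.g g10 (@Lb.g g11 (@Lb.r r582 (@Lb.r r1688 (@Lb.r r1435 (@Lb.r r2449 (@Lb.d (nat_lit 106) (nat_lit 153) (nat_lit 68) (@Lb.t (@Lb.fp (nat_lit 9) t329)))))))))))
noncomputable def l34705 : Lb := (@Lb.d (nat_lit 2) (nat_lit 264) (nat_lit 64) (@Lb.g g8 (@Lb.g g10 (@Lb.g g7 (@Lb.r r1321 (@Lb.r r1704 (@Lb.r r1674 (@Lb.d (nat_lit 130) (nat_lit 10) (nat_lit 68) (@Lb.t (@Lb.fm (nat_lit 9) t1013))))))))))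
noncomputable def l34706 : Lb := (@Lb.d (nat_lit 1) (nat_lit 512) (nat_lit 130) (@Lb.g g8 (@Lb.g g10 (@Lb.g g11 (@Lb.r r419 (@Lb.r r2438 (@Lb.r r1049 (@Lb.d (nat_lit 666) (nat_lit 169) (nat_lit 392) (@Lb.t (@Lb.fp (nat_lit 9) t6178))))))))))
noncomputable def l34707 : Lb := (@Lb.d (nat_lit 256) (nat_lit 677) (nat_lit 550) (@Lb.r r21 (@Lb.r r104 (@Lb.r r386 (@Lb.g g11 (@Lb.g g6 (@Lb.g g5 (@Lb.g g4 (@Lb.d (nat_lit 1) (nat_lit 8) (nat_lit 128) (@Lb.fm (nat_lit 9) t6179))))))))))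
noncomputable def l34708 : Lb := (@Lb.r r346 (@Lb.d (nat_lit 64) (nat_lit 33) (nat_lit 384) (@Lb.g g8 (@Lb.g g9 (@Lb.g g7 (@Lb.r r418 (@Lb.r r1321 (@Lb.r r360 (@Lb.d (nat_lit 22) (nat_lit 42) (nat_lit 357) (@Lb.t (@Lb.fm (nat_lit 9) t1161)))))))))))
noncomputable def l34709 : Lb := (@Lb.r r82 (@Lb.r r275 (@Lb.g g9 (@Lb.r r529 (@Lb.r r1619 (@Lb.r r386 (@Lb.t (@Lb.fp (nat_lit 3) t3477))))))))
noncomputable def l34710 : Lb := (@Lb.r r82 (@Lb.d (nat_lit 0) (nat_lit 545) (nat_lit 136) (@Lb.g g9 (@Lb.g g11 (@Lb.r r386 (@Lb.r r145 (@Lb.d (nat_lit 0) (nat_lit 6) (nat_lit 129) (@Lb.fp (nat_lit 3) t374))))))))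
noncomputable def l34711 : Lb := (@Lb.g g9 (@Lb.r r2311 (@Lb.d (nat_lit 256) (nat_lit 512) (nat_lit 64) (@Lb.t (@Lb.fp (nat_lit 3) t1165)))))
noncomputable def l34712 : Lb := (@Lb.d (nat_lit 149) (nat_lit 0) (nat_lit 128) (@Lb.g g8 (@Lb.g g9 (@Lb.g g10 (@Lb.g g11 (@Lb.r r387 (@Lb.r r402 (@Lb.r r341 (@Lb.r r2600 (@Lb.d (nat_lit 617) (nat_lit 146) (nat_lit 400) (@Lb.fp (nat_lit 9) t6180)))))))))))
noncomputable def l34713 : Lb := (@Lb.d (nat_lit 129) (nat_lit 2) (nat_lit 130) (@Lb.g g8 (@Lb.g g9 (@Lb.g g10 (@Lb.g g11 (@Lb.r r419 (@Lb.r r1610 (@Lb.r r1621 (@Lb.r r1636 (@Lb.d (nat_lit 294) (nat_lit 153) (nat_lit 356) (@Lb.fp (nat_lit 9) t2106)))))))))))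
noncomputable def l34714 : Lb := (@Lb.d (nat_lit 2) (nat_lit 514) (nat_lit 130) (@Lb.g g8 (@Lb.g g9 (@Lb.g g10 (@Lb.g g11 (@Lb.r r2666 (@Lb.r r2664 (@Lb.r r2585 (@Lb.r r2651 (@Lb.d (nat_lit 2) (nat_lit 137) (nat_lit 598) (@Lb.fp (nat_lit 9) t1384)))))))))))
noncomputable def l34715 : Lb := (@Lb.d (nat_lit 408) (nat_lit 65) (nat_lit 609) (@Lb.r r2072 (@Lb.r r1383 (@Lb.r r1690 (@Lb.g g7 (@Lb.g g6 (@Lb.g g9 (@Lb.g g4 (@Lb.d (nat_lit 65) (nat_lit 0) (nat_lit 9) (@Lb.fm (nat_lit 9) t2334))))))))))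
noncomputable def l34716 : Lb := (@Lb.r r263 (@Lb.d (nat_lit 0) (nat_lit 258) (nat_lit 2) (@Lb.g g8 (@Lb.g g9 (@Lb.g g10 (@Lb.r r422 (@Lb.r r327 (@Lb.r r409 (@Lb.r r388 (@Lb.d (nat_lit 612) (nat_lit 6) (nat_lit 545) (@Lb.t (@Lb.fp (nat_lit 9) t1009))))))))))))
noncomputable def l34717 : Lb := (@Lb.r r322 (@Lb.d (nat_lit 4) (nat_lit 1) (nat_lit 576) (@Lb.g g5 (@Lb.g g7 (@Lb.r r1638 (@Lb.r r24 (@Lb.d (nat_lit 578) (nat_lit 1) (nat_lit 0) (@Lb.fp (nat_lit 3) t282))))))))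
noncomputable def l34718 : Lb := (@Lb.d (nat_lit 2) (nat_lit 289) (nat_lit 130) (@Lb.g g8 (@Lb.g g9 (@Lb.g g10 (@Lb.g g11 (@Lb.r r1706 (@Lb.r r1188 (@Lb.r r2597 (@Lb.r r1315 (@Lb.d (nat_lit 521) (nat_lit 81) (nat_lit 650) (@Lb.fp (nat_lit 9) t1225)))))))))))
noncomputable def l34719 : Lb := (@Lb.d (nat_lit 2) (nat_lit 38) (nat_lit 128) (@Lb.g g8 (@Lb.g g9 (@Lb.g g10 (@Lb.g g11 (@Lb.r r1706 (@Lb.r r1188 (@Lb.r r2597 (@Lb.r r1315 (@Lb.d (nat_lit 521) (nat_lit 81) (nat_lit 650) (@Lb.fp (nat_lit 9) t3612)))))))))))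
noncomputable def l34720 : Lb := (@Lb.r r612 (@Lb.r r359 (@Lb.r r2178 (@Lb.r r405 (@Lb.r r2596 (@Lb.d (nat_lit 5) (nat_lit 1) (nat_lit 32) (@Lb.fm (nat_lit 1) t6181)))))))
noncomputable def l34721 : Lb := (@Lb.r r322 (@Lb.d (nat_lit 34) (nat_lit 2) (nat_lit 640) (@Lb.g g8 (@Lb.g g9 (@Lb.g g7 (@Lb.r r1622 (@Lb.r r2337 (@Lb.r r1432 (@Lb.d (nat_lit 24) (nat_lit 137) (nat_lit 554) (@Lb.t (@Lb.fp (nat_lit 9) t242)))))))))))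
noncomputable def l34722 : Lb := (@Lb.d (nat_lit 400) (nat_lit 260) (nat_lit 129) (@Lb.g g8 (@Lb.g g9 (@Lb.g g10 (@Lb.g g11 (@Lb.r r403 (@Lb.r r90 (@Lb.r r97 (@Lb.d (nat_lit 580) (nat_lit 168) (nat_lit 258) (@Lb.fm (nat_lit 9) t6182))))))))))
noncomputable def l34723 : Lb := (@Lb.r r82 (@Lb.d (nat_lit 404) (nat_lit 0) (nat_lit 128) (@Lb.g g8 (@Lb.g g9 (@Lb.g g11 (@Lb.r r291 (@Lb.r r153 (@Lb.r r146 (@Lb.d (nat_lit 616) (nat_lit 169) (nat_lit 257) (@Lb.t (@Lb.fp (nat_lit 9) t6183)))))))))))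
noncomputable def l34724 : Lb := (@Lb.d (nat_lit 2) (nat_lit 2) (nat_lit 130) (@Lb.g g8 (@Lb.g g9 (@Lb.g g10 (@Lb.g g11 (@Lb.r r2729 (@Lb.r r2475 (@Lb.r r2468 (@Lb.r r2438 (@Lb.d (nat_lit 406) (nat_lit 74) (nat_lit 360) (@Lb.fp (nat_lit 9) t3944)))))))))))
noncomputable def l34725 : Lb := (@Lb.d (nat_lit 8) (nat_lit 548) (nat_lit 581) (@Lb.g g9 (@Lb.g g10 (@Lb.g g7 (@Lb.r r426 (@Lb.r r1044 (@Lb.r r2153 (@Lb.d (nat_lit 609) (nat_lit 74) (nat_lit 610) (@Lb.t (@Lb.fp (nat_lit 9) t2707))))))))))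
noncomputable def l34726 : Lb := (@Lb.d (nat_lit 170) (nat_lit 41) (nat_lit 6) (@Lb.r r680 (@Lb.r r427 (@Lb.r r345 (@Lb.g g10 (@Lb.g g4 (@Lb.d (nat_lit 69) (nat_lit 0) (nat_lit 5) (@Lb.r r145 (@Lb.fm (nat_lit 3) t298)))))))))
noncomputable def l34727 : Lb := (@Lb.r r82 (@Lb.r r275 (@Lb.d (nat_lit 8) (nat_lit 10) (nat_lit 0) (@Lb.g g9 (@Lb.r r2584 (@Lb.r r2331 (@Lb.r r402 (@Lb.r r613 (@Lb.d (nat_lit 154) (nat_lit 22) (nat_lit 32) (@Lb.t (@Lb.fm (nat_lit 3) t5945)))))))))))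
noncomputable def l34728 : Lb := (@Lb.d (nat_lit 26) (nat_lit 265) (nat_lit 100) (@Lb.r r150 (@Lb.r r356 (@Lb.r r667 (@Lb.g g6 (@Lb.g g9 (@Lb.g g4 (@Lb.d (nat_lit 1) (nat_lit 129) (nat_lit 2) (@Lb.t (@Lb.fm (nat_lit 9) t2858))))))))))
noncomputable def l34729 : Lb := (@Lb.d (nat_lit 129) (nat_lit 258) (nat_lit 4) (@Lb.g g8 (@Lb.g g9 (@Lb.g g10 (@Lb.g g11 (@Lb.r r683 (@Lb.r r618 (@Lb.r r537 (@Lb.r r516 (@Lb.d (nat_lit 137) (nat_lit 9) (nat_lit 1) (@Lb.fm (nat_lit 9) t796)))))))))))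
noncomputable def l34730 : Lb := (@Lb.r r323 (@Lb.d (nat_lit 38) (nat_lit 256) (nat_lit 2) (@Lb.g g8 (@Lb.g g9 (@Lb.g g10 (@Lb.r r1689 (@Lb.r r1563 (@Lb.r r2180 (@Lb.r r1414 (@Lb.d (nat_lit 385) (nat_lit 0) (nat_lit 338) (@Lb.t (@Lb.fm (nat_lit 9) t6184))))))))))))
noncomputable def l34731 : Lb := (@Lb.d (nat_lit 129) (nat_lit 258) (nat_lit 4) (@Lb.g g8 (@Lb.g g9 (@Lb.g g10 (@Lb.g g11 (@Lb.r r1675 (@Lb.r r164 (@Lb.r r2197 (@Lb.r r2646 (@Lb.r r36 (@Lb.d (nat_lit 426) (nat_lit 136) (nat_lit 256) (@Lb.fm (nat_lit 9) t6185))))))))))))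
noncomputable def l34732 : Lb := (@Lb.d (nat_lit 136) (nat_lit 260) (nat_lit 5) (@Lb.g g9 (@Lb.g g10 (@Lb.g g11 (@Lb.r r618 (@Lb.r r24 (@Lb.r r405 (@Lb.r r611 (@Lb.d (nat_lit 137) (nat_lit 18) (nat_lit 130) (@Lb.t (@Lb.fm (nat_lit 9) t935)))))))))))
noncomputable def l34733 : Lb := (@Lb.d (nat_lit 133) (nat_lit 292) (nat_lit 133) (@Lb.g g8 (@Lb.g g9 (@Lb.g g10 (@Lb.g g11 (@Lb.r r683 (@Lb.r r1386 (@Lb.r r1305 (@Lb.r r516 (@Lb.d (nat_lit 521) (nat_lit 98) (nat_lit 154) (@Lb.fm (nat_lit 9) t2450)))))))))))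
noncomputable def l34734 : Lb := (@Lb.d (nat_lit 32) (nat_lit 512) (nat_lit 4) (@Lb.g g10 (@Lb.g g11 (@Lb.r r2372 (@Lb.r r2347 (@Lb.r r353 (@Lb.r r1618 (@Lb.d (nat_lit 18) (nat_lit 102) (nat_lit 682) (@Lb.fp (nat_lit 3) t64)))))))))
noncomputable def l34735 : Lb := (@Lb.d (nat_lit 37) (nat_lit 512) (nat_lit 130) (@Lb.g g8 (@Lb.g g9 (@Lb.g g10 (@Lb.g g11 (@Lb.r r1366 (@Lb.r r2711 (@Lb.r r1449 (@Lb.r r612 (@Lb.d (nat_lit 522) (nat_lit 68) (nat_lit 20) (@Lb.fp (nat_lit 9) t6186)))))))))))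
noncomputable def l34736 : Lb := (@Lb.d (nat_lit 2) (nat_lit 261) (nat_lit 64) (@Lb.g g8 (@Lb.g g9 (@Lb.g g10 (@Lb.g g7 (@Lb.r r2390 (@Lb.r r85 (@Lb.r r24 (@Lb.d (nat_lit 408) (nat_lit 137) (nat_lit 281) (@Lb.fp (nat_lit 9) t6187))))))))))
noncomputable def l34737 : Lb := (@Lb.d (nat_lit 2) (nat_lit 516) (nat_lit 64) (@Lb.g g8 (@Lb.g g9 (@Lb.g g10 (@Lb.g g7 (@Lb.r r386 (@Lb.r r97 (@Lb.r r24 (@Lb.d (nat_lit 9) (nat_lit 9) (nat_lit 9) (@Lb.fp (nat_lit 9) t318))))))))))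
noncomputable def l34738 : Lb := (@Lb.r r70 (@Lb.r r263 (@Lb.d (nat_lit 544) (nat_lit 258) (nat_lit 0) (@Lb.g g8 (@Lb.g g9 (@Lb.r r2649 (@Lb.r r1555 (@Lb.r r1602 (@Lb.d (nat_lit 289) (nat_lit 0) (nat_lit 340) (@Lb.fp (nat_lit 3) t4350))))))))))
noncomputable def l34739 : Lb := (@Lb.d (nat_lit 2) (nat_lit 258) (nat_lit 66) (@Lb.g g8 (@Lb.g g9 (@Lb.g g10 (@Lb.g g11 (@Lb.r r356 (@Lb.r r667 (@Lb.r r2186 (@Lb.r r277 (@Lb.r r2212 (@Lb.d (nat_lit 656) (nat_lit 2) (nat_lit 330) (@Lb.fp (nat_lit 9) t49))))))))))))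
noncomputable def l34740 : Lb := (@Lb.d (nat_lit 0) (nat_lit 292) (nat_lit 132) (@Lb.g g9 (@Lb.g g10 (@Lb.g g11 (@Lb.r r2691 (@Lb.r r166 (@Lb.r r293 (@Lb.d (nat_lit 74) (nat_lit 100) (nat_lit 421) (@Lb.t (@Lb.fp (nat_lit 9) t69))))))))))
noncomputable def l34741 : Lb := (@Lb.d (nat_lit 8) (nat_lit 512) (nat_lit 72) (@Lb.g g8 (@Lb.g g11 (@Lb.r r2085 (@Lb.r r2068 (@Lb.d (nat_lit 358) (nat_lit 64) (nat_lit 665) (@Lb.fp (nat_lit 3) t698)))))))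
noncomputable def l34742 : Lb := (@Lb.r r323 (@Lb.d (nat_lit 6) (nat_lit 522) (nat_lit 1) (@Lb.g g8 (@Lb.g g9 (@Lb.g g10 (@Lb.r r663 (@Lb.r r150 (@Lb.r r2217 (@Lb.r r24 (@Lb.d (nat_lit 545) (nat_lit 65) (nat_lit 170) (@Lb.t (@Lb.fm (nat_lit 9) t68))))))))))))
noncomputable def l34743 : Lb := (@Lb.g g8 (@Lb.g g7 (@Lb.r r580 (@Lb.r r327 (@Lb.r r2178 (@Lb.r r1169 (@Lb.r r516 (@Lb.d (nat_lit 1) (nat_lit 261) (nat_lit 0) (@Lb.fm (nat_lit 3) t124)))))))))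
noncomputable def l34744 : Lb := (@Lb.d (nat_lit 5) (nat_lit 1) (nat_lit 128) (@Lb.g g4 (@Lb.t (@Lb.fm (nat_lit 3) t2))))
noncomputable def l34745 : Lb := (@Lb.r r21 (@Lb.r r263 (@Lb.d (nat_lit 266) (nat_lit 256) (nat_lit 0) (@Lb.g g8 (@Lb.r r2138 (@Lb.r r2341 (@Lb.r r403 (@Lb.d (nat_lit 1) (nat_lit 0) (nat_lit 85) (@Lb.t (@Lb.fm (nat_lit 3) t4276))))))))))
noncomputable def l34746 : Lb := (@Lb.d (nat_lit 2) (nat_lit 514) (nat_lit 136) (@Lb.g g8 (@Lb.g g9 (@Lb.g g11 (@Lb.r r25 (@Lb.r r24 (@Lb.d (nat_lit 9) (nat_lit 64) (nat_lit 2) (@Lb.t (@Lb.fp (nat_lit 9) t2)))))))))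
noncomputable def l34747 : Lb := (@Lb.d (nat_lit 2) (nat_lit 2) (nat_lit 130) (@Lb.g g8 (@Lb.g g9 (@Lb.g g10 (@Lb.g g11 (@Lb.r r84 (@Lb.r r154 (@Lb.r r597 (@Lb.r r343 (@Lb.r r676 (@Lb.d (nat_lit 289) (nat_lit 2) (nat_lit 90) (@Lb.fm (nat_lit 9) t127))))))))))))
noncomputable def l34748 : Lb := (@Lb.d (nat_lit 2) (nat_lit 10) (nat_lit 136) (@Lb.g g8 (@Lb.g g9 (@Lb.g g11 (@Lb.r r86 (@Lb.r r424 (@Lb.r r279 (@Lb.r r545 (@Lb.d (nat_lit 289) (nat_lit 18) (nat_lit 90) (@Lb.t (@Lb.fm (nat_lit 9) t127)))))))))))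
noncomputable def l34749 : Lb := (@Lb.d (nat_lit 2) (nat_lit 514) (nat_lit 130) (@Lb.g g8 (@Lb.g g9 (@Lb.g g10 (@Lb.g g11 (@Lb.r r84 (@Lb.r r154 (@Lb.r r597 (@Lb.r r343 (@Lb.r r676 (@Lb.d (nat_lit 290) (nat_lit 2) (nat_lit 90) (@Lb.fm (nat_lit 9) t127))))))))))))
noncomputable def l34750 : Lb := (@Lb.d (nat_lit 2) (nat_lit 258) (nat_lit 66) (@Lb.g g8 (@Lb.g g9 (@Lb.g g10 (@Lb.g g7 (@Lb.r r386 (@Lb.r r104 (@Lb.r r25 (@Lb.d (nat_lit 74) (nat_lit 9) (nat_lit 537) (@Lb.fm (nat_lit 9) t166))))))))))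
noncomputable def l34751 : Lb := (@Lb.d (nat_lit 2) (nat_lit 514) (nat_lit 66) (@Lb.g g8 (@Lb.g g9 (@Lb.g g10 (@Lb.g g11 (@Lb.r r2329 (@Lb.r r419 (@Lb.r r386 (@Lb.d (nat_lit 289) (nat_lit 169) (nat_lit 129) (@Lb.fm (nat_lit 9) t791))))))))))
noncomputable def l34752 : Lb := (@Lb.d (nat_lit 128) (nat_lit 512) (nat_lit 256) (@Lb.g g8 (@Lb.g g11 (@Lb.r r260 (@Lb.d (nat_lit 66) (nat_lit 0) (nat_lit 640) (@Lb.fm (nat_lit 3) t6188))))))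
noncomputable def l34753 : Lb := (@Lb.d (nat_lit 0) (nat_lit 544) (nat_lit 136) (@Lb.g g11 (@Lb.r r409 (@Lb.r r2458 (@Lb.r r2407 (@Lb.r r24 (@Lb.d (nat_lit 34) (nat_lit 0) (nat_lit 422) (@Lb.t (@Lb.fp (nat_lit 3) t1261)))))))))
noncomputable def l34754 : Lb := (@Lb.d (nat_lit 0) (nat_lit 288) (nat_lit 136) (@Lb.g g11 (@Lb.r r409 (@Lb.r r2458 (@Lb.r r2407 (@Lb.r r24 (@Lb.d (nat_lit 40) (nat_lit 128) (nat_lit 422) (@Lb.t (@Lb.fp (nat_lit 3) t1639)))))))))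
noncomputable def l34755 : Lb := (@Lb.d (nat_lit 2) (nat_lit 514) (nat_lit 5) (@Lb.g g8 (@Lb.g g9 (@Lb.g g10 (@Lb.g g11 (@Lb.r r611 (@Lb.r r297 (@Lb.r r680 (@Lb.r r650 (@Lb.r r2180 (@Lb.d (nat_lit 160) (nat_lit 10) (nat_lit 360) (@Lb.fp (nat_lit 9) t4115))))))))))))
noncomputable def l34756 : Lb := (@Lb.d (nat_lit 646) (nat_lit 342) (nat_lit 146) (@Lb.r r1301 (@Lb.r r1366 (@Lb.r r683 (@Lb.g g7 (@Lb.g g6 (@Lb.g g5 (@Lb.g g4 (@Lb.d (nat_lit 1) (nat_lit 1) (nat_lit 65) (@Lb.fm (nat_lit 9) t1242))))))))))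
noncomputable def l34757 : Lb := (@Lb.d (nat_lit 41) (nat_lit 0) (nat_lit 128) (@Lb.g g8 (@Lb.g g11 (@Lb.r r677 (@Lb.r r2726 (@Lb.r r1703 (@Lb.r r2392 (@Lb.d (nat_lit 40) (nat_lit 150) (nat_lit 422) (@Lb.fm (nat_lit 3) t1261)))))))))
noncomputable def l34758 : Lb := (@Lb.r r82 (@Lb.d (nat_lit 132) (nat_lit 529) (nat_lit 0) (@Lb.g g8 (@Lb.g g9 (@Lb.g g11 (@Lb.r r299 (@Lb.r r2154 (@Lb.r r2073 (@Lb.r r292 (@Lb.d (nat_lit 384) (nat_lit 65) (nat_lit 320) (@Lb.t (@Lb.fm (nat_lit 9) t5634))))))))))))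
noncomputable def l34759 : Lb := (@Lb.r r323 (@Lb.d (nat_lit 9) (nat_lit 289) (nat_lit 2) (@Lb.g g8 (@Lb.g g9 (@Lb.g g10 (@Lb.r r599 (@Lb.r r74 (@Lb.r r296 (@Lb.r r409 (@Lb.d (nat_lit 149) (nat_lit 164) (nat_lit 9) (@Lb.t (@Lb.fm (nat_lit 9) t51))))))))))))
noncomputable def l34760 : Lb := (@Lb.d (nat_lit 384) (nat_lit 640) (nat_lit 352) (@Lb.r r1544 (@Lb.r r2178 (@Lb.r r1451 (@Lb.r r2457 (@Lb.g g4 (@Lb.d (nat_lit 70) (nat_lit 0) (nat_lit 0) (@Lb.t (@Lb.fm (nat_lit 3) t64)))))))))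
noncomputable def l34761 : Lb := (@Lb.d (nat_lit 1) (nat_lit 514) (nat_lit 0) (@Lb.g g8 (@Lb.g g9 (@Lb.r r2088 (@Lb.r r25 (@Lb.d (nat_lit 258) (nat_lit 66) (nat_lit 0) (@Lb.fp (nat_lit 3) t2)))))))
noncomputable def l34762 : Lb := (@Lb.d (nat_lit 33) (nat_lit 72) (nat_lit 17) (@Lb.r r1177 (@Lb.r r152 (@Lb.r r323 (@Lb.g g10 (@Lb.g g5 (@Lb.g g4 (@Lb.d (nat_lit 0) (nat_lit 2) (nat_lit 2) (@Lb.r r387 (@Lb.t (@Lb.fp (nat_lit 9) t51)))))))))))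
noncomputable def l34763 : Lb := (@Lb.d (nat_lit 33) (nat_lit 584) (nat_lit 17) (@Lb.r r1177 (@Lb.r r152 (@Lb.r r323 (@Lb.g g10 (@Lb.g g5 (@Lb.g g4 (@Lb.d (nat_lit 5) (nat_lit 0) (nat_lit 2) (@Lb.r r387 (@Lb.t (@Lb.fp (nat_lit 9) t51)))))))))))
noncomputable def l34764 : Lb := (@Lb.r r275 (@Lb.d (nat_lit 2) (nat_lit 265) (nat_lit 1) (@Lb.g g8 (@Lb.g g9 (@Lb.g g10 (@Lb.r r1707 (@Lb.r r2210 (@Lb.r r2201 (@Lb.d (nat_lit 32) (nat_lit 136) (nat_lit 100) (@Lb.t (@Lb.fm (nat_lit 9) t482)))))))))))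
noncomputable def l34765 : Lb := (@Lb.d (nat_lit 617) (nat_lit 664) (nat_lit 390) (@Lb.r r1623 (@Lb.r r2472 (@Lb.r r410 (@Lb.r r613 (@Lb.g g7 (@Lb.d (nat_lit 64) (nat_lit 0) (nat_lit 68) (@Lb.t (@Lb.fm (nat_lit 3) t210)))))))))
noncomputable def l34766 : Lb := (@Lb.d (nat_lit 136) (nat_lit 6) (nat_lit 64) (@Lb.g g8 (@Lb.g g9 (@Lb.g g10 (@Lb.g g11 (@Lb.r r425 (@Lb.r r599 (@Lb.r r2394 (@Lb.r r1105 (@Lb.r r388 (@Lb.d (nat_lit 169) (nat_lit 129) (nat_lit 586) (@Lb.fp (nat_lit 9) t2408))))))))))))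
noncomputable def l34767 : Lb := (@Lb.d (nat_lit 129) (nat_lit 260) (nat_lit 64) (@Lb.g g8 (@Lb.g g9 (@Lb.g g10 (@Lb.g g11 (@Lb.r r1706 (@Lb.r r676 (@Lb.r r2599 (@Lb.r r1557 (@Lb.r r1060 (@Lb.d (nat_lit 10) (nat_lit 129) (nat_lit 362) (@Lb.fp (nat_lit 9) t2408))))))))))))
noncomputable def l34768 : Lb := (@Lb.d (nat_lit 129) (nat_lit 1) (nat_lit 130) (@Lb.g g8 (@Lb.g g9 (@Lb.g g10 (@Lb.g g11 (@Lb.r r610 (@Lb.r r552 (@Lb.r r1641 (@Lb.r r619 (@Lb.r r1060 (@Lb.d (nat_lit 353) (nat_lit 21) (nat_lit 408) (@Lb.fm (nat_lit 9) t69))))))))))))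
noncomputable def l34769 : Lb := (@Lb.d (nat_lit 32) (nat_lit 264) (nat_lit 130) (@Lb.g g10 (@Lb.g g11 (@Lb.r r324 (@Lb.r r651 (@Lb.r r357 (@Lb.r r666 (@Lb.d (nat_lit 344) (nat_lit 32) (nat_lit 166) (@Lb.fp (nat_lit 3) t167)))))))))
noncomputable def l34770 : Lb := (@Lb.d (nat_lit 645) (nat_lit 277) (nat_lit 289) (@Lb.r r2601 (@Lb.r r1451 (@Lb.r r2454 (@Lb.g g7 (@Lb.g g5 (@Lb.g g4 (@Lb.d (nat_lit 577) (nat_lit 5) (nat_lit 128) (@Lb.r r74 (@Lb.t (@Lb.fp (nat_lit 9) t6189)))))))))))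
noncomputable def l34771 : Lb := (@Lb.r r323 (@Lb.d (nat_lit 9) (nat_lit 520) (nat_lit 1) (@Lb.g g8 (@Lb.g g9 (@Lb.g g10 (@Lb.r r1194 (@Lb.r r2600 (@Lb.r r2667 (@Lb.r r2585 (@Lb.d (nat_lit 385) (nat_lit 96) (nat_lit 90) (@Lb.t (@Lb.fp (nat_lit 9) t509))))))))))))
noncomputable def l34772 : Lb := (@Lb.d (nat_lit 129) (nat_lit 258) (nat_lit 130) (@Lb.g g8 (@Lb.g g9 (@Lb.g g10 (@Lb.g g11 (@Lb.r r419 (@Lb.r r344 (@Lb.r r1429 (@Lb.r r1110 (@Lb.r r2212 (@Lb.d (nat_lit 38) (nat_lit 96) (nat_lit 674) (@Lb.fm (nat_lit 9) t1358))))))))))))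
noncomputable def l34773 : Lb := (@Lb.d (nat_lit 65) (nat_lit 0) (nat_lit 128) (@Lb.g g8 (@Lb.g g11 (@Lb.r r260 (@Lb.r r2571 (@Lb.r r1540 (@Lb.d (nat_lit 64) (nat_lit 0) (nat_lit 128) (@Lb.fp (nat_lit 3) t997))))))))
noncomputable def l34774 : Lb := (@Lb.d (nat_lit 2) (nat_lit 9) (nat_lit 1) (@Lb.g g8 (@Lb.g g9 (@Lb.g g10 (@Lb.r r1186 (@Lb.r r36 (@Lb.r r149 (@Lb.r r1060 (@Lb.d (nat_lit 288) (nat_lit 10) (nat_lit 33) (@Lb.t (@Lb.fp (nat_lit 9) t722)))))))))))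
noncomputable def l34775 : Lb := (@Lb.d (nat_lit 2) (nat_lit 0) (nat_lit 136) (@Lb.g g8 (@Lb.g g11 (@Lb.r r402 (@Lb.r r101 (@Lb.r r24 (@Lb.d (nat_lit 0) (nat_lit 10) (nat_lit 73) (@Lb.fp (nat_lit 3) t556))))))))
noncomputable def l34776 : Lb := (@Lb.d (nat_lit 0) (nat_lit 0) (nat_lit 130) (@Lb.g g4 (@Lb.g g10 (@Lb.g g11 (@Lb.r r419 (@Lb.r r386 (@Lb.d (nat_lit 293) (nat_lit 34) (nat_lit 169) (@Lb.t (@Lb.fm (nat_lit 9) t4055)))))))))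
noncomputable def l34777 : Lb := (@Lb.d (nat_lit 537) (nat_lit 146) (nat_lit 677) (@Lb.r r2129 (@Lb.r r358 (@Lb.r r81 (@Lb.r r1667 (@Lb.g g7 (@Lb.g g6 (@Lb.g g5 (@Lb.g g8 (@Lb.d (nat_lit 550) (nat_lit 8) (nat_lit 132) (@Lb.fp (nat_lit 9) t4692)))))))))))
noncomputable def l34778 : Lb := (@Lb.d (nat_lit 8) (nat_lit 514) (nat_lit 74) (@Lb.g g9 (@Lb.g g10 (@Lb.g g11 (@Lb.r r387 (@Lb.r r1126 (@Lb.r r24 (@Lb.d (nat_lit 80) (nat_lit 138) (nat_lit 552) (@Lb.t (@Lb.fp (nat_lit 9) t1962))))))))))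
noncomputable def l34779 : Lb := (@Lb.r r323 (@Lb.d (nat_lit 40) (nat_lit 545) (nat_lit 2) (@Lb.g g5 (@Lb.g g10 (@Lb.r r584 (@Lb.r r331 (@Lb.r r614 (@Lb.d (nat_lit 165) (nat_lit 145) (nat_lit 72) (@Lb.fm (nat_lit 3) t126)))))))))
noncomputable def l34780 : Lb := (@Lb.r r323 (@Lb.d (nat_lit 32) (nat_lit 34) (nat_lit 2) (@Lb.g g9 (@Lb.g g10 (@Lb.r r584 (@Lb.r r331 (@Lb.r r342 (@Lb.r r409 (@Lb.d (nat_lit 152) (nat_lit 152) (nat_lit 262) (@Lb.fp (nat_lit 3) t210))))))))))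
noncomputable def l34781 : Lb := (@Lb.d (nat_lit 577) (nat_lit 346) (nat_lit 680) (@Lb.r r2308 (@Lb.r r2154 (@Lb.r r2649 (@Lb.r r683 (@Lb.g g6 (@Lb.g g5 (@Lb.g g4 (@Lb.d (nat_lit 17) (nat_lit 1) (nat_lit 2) (@Lb.t (@Lb.fm (nat_lit 9) t524)))))))))))
noncomputable def l34782 : Lb := (@Lb.r r323 (@Lb.d (nat_lit 40) (nat_lit 289) (nat_lit 2) (@Lb.g g5 (@Lb.g g10 (@Lb.r r584 (@Lb.r r331 (@Lb.r r614 (@Lb.d (nat_lit 165) (nat_lit 150) (nat_lit 73) (@Lb.fm (nat_lit 3) t126)))))))))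
noncomputable def l34783 : Lb := (@Lb.r r323 (@Lb.d (nat_lit 26) (nat_lit 518) (nat_lit 1) (@Lb.g g8 (@Lb.g g9 (@Lb.g g10 (@Lb.r r1668 (@Lb.r r1559 (@Lb.r r1122 (@Lb.r r2337 (@Lb.d (nat_lit 0) (nat_lit 97) (nat_lit 361) (@Lb.t (@Lb.fm (nat_lit 9) t1436))))))))))))
noncomputable def l34784 : Lb := (@Lb.d (nat_lit 326) (nat_lit 408) (nat_lit 393) (@Lb.r r2406 (@Lb.r r1176 (@Lb.r r2707 (@Lb.g g7 (@Lb.g g6 (@Lb.g g9 (@Lb.g g4 (@Lb.d (nat_lit 6) (nat_lit 64) (nat_lit 134) (@Lb.fm (nat_lit 9) t1156))))))))))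
noncomputable def l34785 : Lb := (@Lb.d (nat_lit 408) (nat_lit 1) (nat_lit 128) (@Lb.g g4 (@Lb.g g9 (@Lb.g g10 (@Lb.g g11 (@Lb.r r678 (@Lb.r r391 (@Lb.r r145 (@Lb.d (nat_lit 354) (nat_lit 21) (nat_lit 137) (@Lb.fp (nat_lit 9) t2331))))))))))
noncomputable def l34786 : Lb := (@Lb.d (nat_lit 18) (nat_lit 258) (nat_lit 138) (@Lb.g g8 (@Lb.g g9 (@Lb.g g10 (@Lb.g g11 (@Lb.r r1689 (@Lb.r r1683 (@Lb.r r1602 (@Lb.r r292 (@Lb.d (nat_lit 74) (nat_lit 137) (nat_lit 409) (@Lb.fm (nat_lit 9) t898)))))))))))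
noncomputable def l34787 : Lb := (@Lb.d (nat_lit 26) (nat_lit 518) (nat_lit 129) (@Lb.g g8 (@Lb.g g9 (@Lb.g g10 (@Lb.g g11 (@Lb.r r427 (@Lb.r r2473 (@Lb.r r1188 (@Lb.r r2662 (@Lb.d (nat_lit 129) (nat_lit 154) (nat_lit 345) (@Lb.fm (nat_lit 9) t6190)))))))))))
noncomputable def l34788 : Lb := (@Lb.r r21 (@Lb.d (nat_lit 129) (nat_lit 552) (nat_lit 161) (@Lb.g g8 (@Lb.g g10 (@Lb.g g11 (@Lb.r r2401 (@Lb.r r1555 (@Lb.r r2660 (@Lb.d (nat_lit 422) (nat_lit 84) (nat_lit 601) (@Lb.t (@Lb.fm (nat_lit 9) t4273)))))))))))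
noncomputable def l34789 : Lb := (@Lb.d (nat_lit 132) (nat_lit 576) (nat_lit 65) (@Lb.g g8 (@Lb.g g9 (@Lb.g g10 (@Lb.g g11 (@Lb.r r676 (@Lb.r r1670 (@Lb.r r2439 (@Lb.r r516 (@Lb.d (nat_lit 17) (nat_lit 73) (nat_lit 592) (@Lb.fm (nat_lit 9) t3197)))))))))))
noncomputable def l34790 : Lb := (@Lb.d (nat_lit 149) (nat_lit 392) (nat_lit 384) (@Lb.r r613 (@Lb.r r280 (@Lb.r r402 (@Lb.g g11 (@Lb.g g6 (@Lb.d (nat_lit 0) (nat_lit 16) (nat_lit 385) (@Lb.r r529 (@Lb.fm (nat_lit 3) t6191)))))))))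
noncomputable def l34791 : Lb := (@Lb.d (nat_lit 132) (nat_lit 320) (nat_lit 72) (@Lb.g g8 (@Lb.g g9 (@Lb.g g11 (@Lb.r r1636 (@Lb.r r1354 (@Lb.r r391 (@Lb.d (nat_lit 337) (nat_lit 73) (nat_lit 136) (@Lb.t (@Lb.fm (nat_lit 9) t3197))))))))))
noncomputable def l34792 : Lb := (@Lb.d (nat_lit 146) (nat_lit 521) (nat_lit 72) (@Lb.g g8 (@Lb.g g9 (@Lb.g g10 (@Lb.g g11 (@Lb.r r1443 (@Lb.r r678 (@Lb.r r1313 (@Lb.r r1540 (@Lb.d (nat_lit 389) (nat_lit 169) (nat_lit 96) (@Lb.fp (nat_lit 9) t4231)))))))))))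
noncomputable def l34793 : Lb := (@Lb.r r81 (@Lb.r r263 (@Lb.d (nat_lit 17) (nat_lit 8) (nat_lit 16) (@Lb.g g8 (@Lb.g g10 (@Lb.r r2459 (@Lb.r r2201 (@Lb.r r2216 (@Lb.d (nat_lit 41) (nat_lit 0) (nat_lit 17) (@Lb.fp (nat_lit 3) t3288))))))))))
noncomputable def l34794 : Lb := (@Lb.d (nat_lit 4) (nat_lit 546) (nat_lit 129) (@Lb.g g8 (@Lb.g g9 (@Lb.g g10 (@Lb.g g11 (@Lb.r r586 (@Lb.r r1611 (@Lb.r r36 (@Lb.r r149 (@Lb.r r2084 (@Lb.d (nat_lit 362) (nat_lit 161) (nat_lit 82) (@Lb.fm (nat_lit 9) t4))))))))))))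
noncomputable def l34795 : Lb := (@Lb.r r263 (@Lb.d (nat_lit 5) (nat_lit 320) (nat_lit 9) (@Lb.g g8 (@Lb.g g9 (@Lb.g g10 (@Lb.r r1347 (@Lb.r r1642 (@Lb.r r1060 (@Lb.d (nat_lit 105) (nat_lit 129) (nat_lit 330) (@Lb.t (@Lb.fm (nat_lit 9) t3197)))))))))))
noncomputable def l34796 : Lb := (@Lb.d (nat_lit 290) (nat_lit 512) (nat_lit 656) (@Lb.r r1414 (@Lb.r r2648 (@Lb.r r1317 (@Lb.g g11 (@Lb.t (@Lb.fm (nat_lit 3) t6192)))))))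
noncomputable def l34797 : Lb := (@Lb.d (nat_lit 89) (nat_lit 26) (nat_lit 89) (@Lb.r r360 (@Lb.r r81 (@Lb.r r2647 (@Lb.g g6 (@Lb.g g5 (@Lb.g g4 (@Lb.d (nat_lit 73) (nat_lit 0) (nat_lit 17) (@Lb.r r387 (@Lb.t (@Lb.fp (nat_lit 9) t4102)))))))))))
noncomputable def l34798 : Lb := (@Lb.d (nat_lit 130) (nat_lit 2) (nat_lit 66) (@Lb.g g8 (@Lb.g g9 (@Lb.g g10 (@Lb.g g11 (@Lb.r r419 (@Lb.r r1156 (@Lb.r r2438 (@Lb.r r25 (@Lb.d (nat_lit 617) (nat_lit 73) (nat_lit 649) (@Lb.fm (nat_lit 9) t3353)))))))))))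
noncomputable def l34799 : Lb := (@Lb.r r273 (@Lb.d (nat_lit 32) (nat_lit 8) (nat_lit 578) (@Lb.g g10 (@Lb.g g7 (@Lb.r r1625 (@Lb.r r2388 (@Lb.r r1674 (@Lb.d (nat_lit 144) (nat_lit 64) (nat_lit 102) (@Lb.fm (nat_lit 3) t3172)))))))))
noncomputable def l34800 : Lb := (@Lb.d (nat_lit 0) (nat_lit 522) (nat_lit 0) (@Lb.g g5 (@Lb.r r2210 (@Lb.r r1185 (@Lb.d (nat_lit 10) (nat_lit 72) (nat_lit 2) (@Lb.t (@Lb.fm (nat_lit 3) t402)))))))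
noncomputable def l34801 : Lb := (@Lb.r r97 (@Lb.r r1106 (@Lb.r r145 (@Lb.d (nat_lit 10) (nat_lit 4) (nat_lit 1) (@Lb.fm (nat_lit 1) t1840)))))
noncomputable def l34802 : Lb := (@Lb.r r21 (@Lb.r r70 (@Lb.d (nat_lit 545) (nat_lit 512) (nat_lit 128) (@Lb.g g4 (@Lb.g g11 (@Lb.r r2583 (@Lb.r r594 (@Lb.r r1433 (@Lb.d (nat_lit 512) (nat_lit 129) (nat_lit 2) (@Lb.fm (nat_lit 3) t6193))))))))))
noncomputable def l34803 : Lb := (@Lb.g g7 (@Lb.r r97 (@Lb.r r1106 (@Lb.r r145 (@Lb.d (nat_lit 10) (nat_lit 258) (nat_lit 0) (@Lb.t (@Lb.fp (nat_lit 3) t402)))))))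
noncomputable def l34804 : Lb := (@Lb.d (nat_lit 290) (nat_lit 277) (nat_lit 520) (@Lb.r r89 (@Lb.r r24 (@Lb.r r1098 (@Lb.g g9 (@Lb.t (@Lb.fm (nat_lit 3) t6194)))))))
noncomputable def l34805 : Lb := (@Lb.d (nat_lit 26) (nat_lit 162) (nat_lit 646) (@Lb.r r24 (@Lb.r r101 (@Lb.r r386 (@Lb.g g11 (@Lb.g g6 (@Lb.g g5 (@Lb.d (nat_lit 0) (nat_lit 0) (nat_lit 129) (@Lb.t (@Lb.fp (nat_lit 9) t1117))))))))))
noncomputable def l34806 : Lb := (@Lb.d (nat_lit 402) (nat_lit 165) (nat_lit 678) (@Lb.r r1044 (@Lb.r r601 (@Lb.r r532 (@Lb.r r2466 (@Lb.g g11 (@Lb.g g6 (@Lb.g g5 (@Lb.g g4 (@Lb.d (nat_lit 1) (nat_lit 6) (nat_lit 130) (@Lb.fp (nat_lit 9) t827)))))))))))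
noncomputable def l34807 : Lb := (@Lb.d (nat_lit 1) (nat_lit 34) (nat_lit 1) (@Lb.g g8 (@Lb.g g9 (@Lb.g g10 (@Lb.r r610 (@Lb.r r1607 (@Lb.r r2436 (@Lb.d (nat_lit 646) (nat_lit 9) (nat_lit 425) (@Lb.t (@Lb.fp (nat_lit 9) t993))))))))))
noncomputable def l34808 : Lb := (@Lb.d (nat_lit 1) (nat_lit 2) (nat_lit 10) (@Lb.g g8 (@Lb.g g9 (@Lb.g g10 (@Lb.r r1623 (@Lb.r r2193 (@Lb.r r340 (@Lb.r r602 (@Lb.d (nat_lit 665) (nat_lit 73) (nat_lit 353) (@Lb.t (@Lb.fp (nat_lit 9) t2387)))))))))))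
noncomputable def l34809 : Lb := (@Lb.g g4 (@Lb.g g7 (@Lb.r r545 (@Lb.r r299 (@Lb.r r1364 (@Lb.r r2218 (@Lb.r r2201 (@Lb.d (nat_lit 528) (nat_lit 257) (nat_lit 33) (@Lb.fm (nat_lit 3) t4981)))))))))
noncomputable def l34810 : Lb := (@Lb.d (nat_lit 146) (nat_lit 514) (nat_lit 128) (@Lb.g g8 (@Lb.g g9 (@Lb.g g10 (@Lb.g g11 (@Lb.r r2459 (@Lb.r r1177 (@Lb.r r1626 (@Lb.r r72 (@Lb.d (nat_lit 36) (nat_lit 41) (nat_lit 360) (@Lb.fm (nat_lit 9) t3877)))))))))))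
noncomputable def l34811 : Lb := (@Lb.d (nat_lit 146) (nat_lit 34) (nat_lit 2) (@Lb.g g8 (@Lb.g g9 (@Lb.g g10 (@Lb.r r1623 (@Lb.r r2146 (@Lb.r r388 (@Lb.d (nat_lit 610) (nat_lit 73) (nat_lit 34) (@Lb.t (@Lb.fp (nat_lit 9) t6195))))))))))
noncomputable def l34812 : Lb := (@Lb.g g4 (@Lb.g g7 (@Lb.r r545 (@Lb.r r299 (@Lb.r r1364 (@Lb.r r2218 (@Lb.r r2201 (@Lb.d (nat_lit 528) (nat_lit 520) (nat_lit 32) (@Lb.fm (nat_lit 3) t5176)))))))))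
noncomputable def l34813 : Lb := (@Lb.d (nat_lit 277) (nat_lit 520) (nat_lit 26) (@Lb.r r24 (@Lb.r r1426 (@Lb.g g11 (@Lb.g g9 (@Lb.d (nat_lit 8) (nat_lit 73) (nat_lit 384) (@Lb.r r578 (@Lb.fm (nat_lit 3) t5310))))))))
noncomputable def l34814 : Lb := (@Lb.r r355 (@Lb.d (nat_lit 9) (nat_lit 266) (nat_lit 34) (@Lb.g g8 (@Lb.g g9 (@Lb.g g10 (@Lb.r r2627 (@Lb.r r345 (@Lb.d (nat_lit 168) (nat_lit 98) (nat_lit 658) (@Lb.t (@Lb.fp (nat_lit 9) t749))))))))))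
noncomputable def l34815 : Lb := (@Lb.r r21 (@Lb.r r323 (@Lb.d (nat_lit 130) (nat_lit 8) (nat_lit 2) (@Lb.g g8 (@Lb.g g10 (@Lb.r r2631 (@Lb.r r97 (@Lb.r r1412 (@Lb.d (nat_lit 150) (nat_lit 64) (nat_lit 18) (@Lb.fm (nat_lit 3) t171))))))))))
noncomputable def l34816 : Lb := (@Lb.d (nat_lit 2) (nat_lit 9) (nat_lit 72) (@Lb.g g8 (@Lb.g g9 (@Lb.g g10 (@Lb.g g11 (@Lb.r r1443 (@Lb.r r2212 (@Lb.r r2470 (@Lb.r r1313 (@Lb.d (nat_lit 533) (nat_lit 41) (nat_lit 385) (@Lb.fp (nat_lit 9) t3977)))))))))))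
noncomputable def l34817 : Lb := (@Lb.d (nat_lit 330) (nat_lit 153) (nat_lit 358) (@Lb.r r24 (@Lb.r r146 (@Lb.r r357 (@Lb.r r2691 (@Lb.g g7 (@Lb.g g6 (@Lb.g g5 (@Lb.d (nat_lit 0) (nat_lit 5) (nat_lit 66) (@Lb.t (@Lb.fp (nat_lit 9) t6196)))))))))))
noncomputable def l34818 : Lb := (@Lb.d (nat_lit 2) (nat_lit 265) (nat_lit 72) (@Lb.g g8 (@Lb.g g9 (@Lb.g g10 (@Lb.g g11 (@Lb.r r1443 (@Lb.r r2212 (@Lb.r r2470 (@Lb.r r1313 (@Lb.d (nat_lit 532) (nat_lit 41) (nat_lit 385) (@Lb.fp (nat_lit 9) t6197)))))))))))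
noncomputable def l34819 : Lb := (@Lb.r r331 (@Lb.d (nat_lit 146) (nat_lit 585) (nat_lit 2) (@Lb.g g8 (@Lb.g g9 (@Lb.g g10 (@Lb.r r419 (@Lb.r r1114 (@Lb.r r2644 (@Lb.d (nat_lit 644) (nat_lit 20) (nat_lit 402) (@Lb.t (@Lb.fm (nat_lit 9) t6198)))))))))))
noncomputable def l34820 : Lb := (@Lb.r r68 (@Lb.r r81 (@Lb.g g6 (@Lb.r r1441 (@Lb.r r2647 (@Lb.r r1418 (@Lb.r r292 (@Lb.d (nat_lit 608) (nat_lit 514) (nat_lit 528) (@Lb.t (@Lb.fp (nat_lit 3) t3711))))))))))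
noncomputable def l34821 : Lb := (@Lb.d (nat_lit 2) (nat_lit 9) (nat_lit 72) (@Lb.g g8 (@Lb.g g9 (@Lb.g g10 (@Lb.g g11 (@Lb.r r1559 (@Lb.r r2454 (@Lb.r r420 (@Lb.r r293 (@Lb.d (nat_lit 72) (nat_lit 41) (nat_lit 104) (@Lb.fm (nat_lit 9) t6199)))))))))))
noncomputable def l34822 : Lb := (@Lb.d (nat_lit 514) (nat_lit 277) (nat_lit 4) (@Lb.r r353 (@Lb.r r663 (@Lb.r r678 (@Lb.g g5 (@Lb.g g8 (@Lb.d (nat_lit 516) (nat_lit 10) (nat_lit 0) (@Lb.r r74 (@Lb.fm (nat_lit 3) t6200)))))))))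
noncomputable def l34823 : Lb := (@Lb.r r331 (@Lb.d (nat_lit 37) (nat_lit 2) (nat_lit 2) (@Lb.g g8 (@Lb.g g9 (@Lb.g g10 (@Lb.r r1707 (@Lb.r r1610 (@Lb.r r2469 (@Lb.r r2648 (@Lb.d (nat_lit 148) (nat_lit 101) (nat_lit 137) (@Lb.t (@Lb.fp (nat_lit 9) t175))))))))))))
noncomputable def l34824 : Lb := (@Lb.d (nat_lit 128) (nat_lit 0) (nat_lit 72) (@Lb.g g11 (@Lb.r r392 (@Lb.r r1450 (@Lb.r r2407 (@Lb.r r1057 (@Lb.d (nat_lit 342) (nat_lit 38) (nat_lit 534) (@Lb.t (@Lb.fm (nat_lit 3) t324)))))))))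
noncomputable def l34825 : Lb := (@Lb.d (nat_lit 530) (nat_lit 645) (nat_lit 146) (@Lb.r r1317 (@Lb.r r1094 (@Lb.r r339 (@Lb.g g7 (@Lb.g g6 (@Lb.g g5 (@Lb.g g4 (@Lb.d (nat_lit 1) (nat_lit 0) (nat_lit 65) (@Lb.fm (nat_lit 9) t6201))))))))))
noncomputable def l34826 : Lb := (@Lb.d (nat_lit 89) (nat_lit 612) (nat_lit 402) (@Lb.r r1301 (@Lb.r r1094 (@Lb.r r355 (@Lb.g g7 (@Lb.g g6 (@Lb.g g5 (@Lb.g g4 (@Lb.d (nat_lit 1) (nat_lit 2) (nat_lit 65) (@Lb.fp (nat_lit 9) t6201))))))))))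
noncomputable def l34827 : Lb := (@Lb.d (nat_lit 677) (nat_lit 552) (nat_lit 681) (@Lb.r r2724 (@Lb.r r2725 (@Lb.r r1366 (@Lb.g g7 (@Lb.g g5 (@Lb.g g4 (@Lb.d (nat_lit 16) (nat_lit 1) (nat_lit 68) (@Lb.r r578 (@Lb.t (@Lb.fm (nat_lit 9) t283)))))))))))
noncomputable def l34828 : Lb := (@Lb.g g10 (@Lb.g g7 (@Lb.r r579 (@Lb.r r402 (@Lb.r r24 (@Lb.d (nat_lit 608) (nat_lit 68) (nat_lit 545) (@Lb.fm (nat_lit 3) t1554)))))))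
noncomputable def l34829 : Lb := (@Lb.d (nat_lit 134) (nat_lit 0) (nat_lit 130) (@Lb.g g8 (@Lb.g g9 (@Lb.g g10 (@Lb.g g11 (@Lb.r r419 (@Lb.r r1610 (@Lb.r r1556 (@Lb.r r25 (@Lb.d (nat_lit 677) (nat_lit 26) (nat_lit 73) (@Lb.fp (nat_lit 9) t1713)))))))))))
noncomputable def l34830 : Lb := (@Lb.d (nat_lit 518) (nat_lit 385) (nat_lit 170) (@Lb.r r404 (@Lb.r r2145 (@Lb.r r1410 (@Lb.r r1563 (@Lb.g g9 (@Lb.g g4 (@Lb.r r74 (@Lb.fm (nat_lit 3) t4477)))))))))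
noncomputable def l34831 : Lb := (@Lb.d (nat_lit 0) (nat_lit 512) (nat_lit 74) (@Lb.g g10 (@Lb.g g11 (@Lb.r r658 (@Lb.r r1683 (@Lb.r r1602 (@Lb.d (nat_lit 0) (nat_lit 170) (nat_lit 673) (@Lb.fm (nat_lit 3) t1604))))))))
noncomputable def l34832 : Lb := (@Lb.d (nat_lit 2) (nat_lit 258) (nat_lit 130) (@Lb.g g8 (@Lb.g g9 (@Lb.g g10 (@Lb.g g11 (@Lb.r r427 (@Lb.r r1442 (@Lb.r r1320 (@Lb.r r1433 (@Lb.d (nat_lit 661) (nat_lit 36) (nat_lit 356) (@Lb.fp (nat_lit 9) t6202)))))))))))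
noncomputable def l34833 : Lb := (@Lb.d (nat_lit 160) (nat_lit 520) (nat_lit 74) (@Lb.g g10 (@Lb.g g11 (@Lb.r r260 (@Lb.r r2667 (@Lb.r r1633 (@Lb.r r338 (@Lb.d (nat_lit 72) (nat_lit 85) (nat_lit 262) (@Lb.fm (nat_lit 3) t322)))))))))
noncomputable def l34834 : Lb := (@Lb.d (nat_lit 2) (nat_lit 521) (nat_lit 65) (@Lb.g g8 (@Lb.g g9 (@Lb.g g10 (@Lb.g g7 (@Lb.r r386 (@Lb.r r2153 (@Lb.r r36 (@Lb.d (nat_lit 89) (nat_lit 2) (nat_lit 600) (@Lb.fm (nat_lit 9) t2504))))))))))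
noncomputable def l34835 : Lb := (@Lb.d (nat_lit 1) (nat_lit 289) (nat_lit 73) (@Lb.g g8 (@Lb.g g9 (@Lb.g g10 (@Lb.g g11 (@Lb.r r1634 (@Lb.r r552 (@Lb.r r617 (@Lb.r r2347 (@Lb.r r2084 (@Lb.d (nat_lit 128) (nat_lit 10) (nat_lit 345) (@Lb.fp (nat_lit 9) t98))))))))))))
noncomputable def l34836 : Lb := (@Lb.d (nat_lit 105) (nat_lit 1) (nat_lit 136) (@Lb.g g8 (@Lb.g g9 (@Lb.g g10 (@Lb.g g11 (@Lb.r r2666 (@Lb.r r1635 (@Lb.r r97 (@Lb.r r2072 (@Lb.d (nat_lit 641) (nat_lit 25) (nat_lit 98) (@Lb.fm (nat_lit 9) t50)))))))))))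
noncomputable def l34837 : Lb := (@Lb.d (nat_lit 66) (nat_lit 514) (nat_lit 2) (@Lb.g g8 (@Lb.g g9 (@Lb.g g10 (@Lb.r r343 (@Lb.r r617 (@Lb.r r86 (@Lb.r r148 (@Lb.d (nat_lit 32) (nat_lit 137) (nat_lit 258) (@Lb.t (@Lb.fp (nat_lit 9) t51)))))))))))
noncomputable def l34838 : Lb := (@Lb.d (nat_lit 9) (nat_lit 1) (nat_lit 73) (@Lb.g g8 (@Lb.g g9 (@Lb.g g10 (@Lb.g g11 (@Lb.r r427 (@Lb.r r297 (@Lb.r r104 (@Lb.r r70 (@Lb.r r132 (@Lb.d (nat_lit 4) (nat_lit 148) (nat_lit 136) (@Lb.fp (nat_lit 9) t119))))))))))))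
noncomputable def l34839 : Lb := (@Lb.d (nat_lit 1) (nat_lit 9) (nat_lit 65) (@Lb.g g8 (@Lb.g g9 (@Lb.g g10 (@Lb.g g7 (@Lb.r r386 (@Lb.r r2153 (@Lb.r r36 (@Lb.d (nat_lit 89) (nat_lit 2) (nat_lit 600) (@Lb.fm (nat_lit 9) t2504))))))))))
noncomputable def l34840 : Lb := (@Lb.d (nat_lit 2) (nat_lit 265) (nat_lit 65) (@Lb.g g8 (@Lb.g g9 (@Lb.g g10 (@Lb.g g7 (@Lb.r r386 (@Lb.r r2153 (@Lb.r r36 (@Lb.d (nat_lit 82) (nat_lit 0) (nat_lit 600) (@Lb.fm (nat_lit 9) t2504))))))))))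
noncomputable def l34841 : Lb := (@Lb.d (nat_lit 9) (nat_lit 513) (nat_lit 73) (@Lb.g g8 (@Lb.g g9 (@Lb.g g10 (@Lb.g g11 (@Lb.r r427 (@Lb.r r297 (@Lb.r r104 (@Lb.r r70 (@Lb.r r132 (@Lb.d (nat_lit 4) (nat_lit 148) (nat_lit 8) (@Lb.fp (nat_lit 9) t51))))))))))))
noncomputable def l34842 : Lb := (@Lb.d (nat_lit 0) (nat_lit 0) (nat_lit 17) (@Lb.g g10 (@Lb.r r292 (@Lb.r r539 (@Lb.r r405 (@Lb.r r2596 (@Lb.d (nat_lit 610) (nat_lit 0) (nat_lit 513) (@Lb.t (@Lb.fm (nat_lit 3) t1561)))))))))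
noncomputable def l34843 : Lb := (@Lb.d (nat_lit 1) (nat_lit 514) (nat_lit 0) (@Lb.g g8 (@Lb.g g9 (@Lb.g g7 (@Lb.r r164 (@Lb.r r1173 (@Lb.r r36 (@Lb.d (nat_lit 34) (nat_lit 66) (nat_lit 33) (@Lb.t (@Lb.fp (nat_lit 9) t453))))))))))
noncomputable def l34844 : Lb := (@Lb.r r21 (@Lb.d (nat_lit 146) (nat_lit 256) (nat_lit 128) (@Lb.g g8 (@Lb.g g10 (@Lb.g g11 (@Lb.r r1691 (@Lb.r r2401 (@Lb.r r1170 (@Lb.r r1156 (@Lb.d (nat_lit 4) (nat_lit 133) (nat_lit 34) (@Lb.t (@Lb.fp (nat_lit 9) t264))))))))))))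
noncomputable def l34845 : Lb := (@Lb.d (nat_lit 32) (nat_lit 512) (nat_lit 66) (@Lb.g g10 (@Lb.g g11 (@Lb.r r344 (@Lb.r r2453 (@Lb.r r619 (@Lb.r r2390 (@Lb.d (nat_lit 150) (nat_lit 150) (nat_lit 581) (@Lb.fm (nat_lit 3) t3065)))))))))
noncomputable def l34846 : Lb := (@Lb.d (nat_lit 0) (nat_lit 272) (nat_lit 544) (@Lb.r r2321 (@Lb.r r1379 (@Lb.g g10 (@Lb.g g5 (@Lb.d (nat_lit 0) (nat_lit 17) (nat_lit 21) (@Lb.r r387 (@Lb.r r36 (@Lb.fp (nat_lit 3) t1285)))))))))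
noncomputable def l34847 : Lb := (@Lb.r r20 (@Lb.d (nat_lit 128) (nat_lit 101) (nat_lit 256) (@Lb.g g5 (@Lb.g g10 (@Lb.g g7 (@Lb.r r2454 (@Lb.r r1608 (@Lb.d (nat_lit 514) (nat_lit 1) (nat_lit 132) (@Lb.t (@Lb.fm (nat_lit 9) t3512))))))))))
noncomputable def l34848 : Lb := (@Lb.d (nat_lit 160) (nat_lit 264) (nat_lit 258) (@Lb.g g6 (@Lb.g g7 (@Lb.r r1193 (@Lb.r r2216 (@Lb.r r2474 (@Lb.d (nat_lit 617) (nat_lit 26) (nat_lit 297) (@Lb.fp (nat_lit 3) t386))))))))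
noncomputable def l34849 : Lb := (@Lb.r r20 (@Lb.d (nat_lit 128) (nat_lit 613) (nat_lit 256) (@Lb.g g5 (@Lb.g g10 (@Lb.g g7 (@Lb.r r2454 (@Lb.r r1608 (@Lb.d (nat_lit 512) (nat_lit 1) (nat_lit 132) (@Lb.t (@Lb.fm (nat_lit 9) t5141))))))))))
noncomputable def l34850 : Lb := (@Lb.d (nat_lit 0) (nat_lit 2) (nat_lit 64) (@Lb.g g9 (@Lb.g g10 (@Lb.g g11 (@Lb.r r2339 (@Lb.r r293 (@Lb.r r2136 (@Lb.r r1158 (@Lb.d (nat_lit 0) (nat_lit 0) (nat_lit 402) (@Lb.t (@Lb.fp (nat_lit 9) t88)))))))))))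
noncomputable def l34851 : Lb := (@Lb.r r82 (@Lb.d (nat_lit 0) (nat_lit 2) (nat_lit 128) (@Lb.g g8 (@Lb.g g9 (@Lb.g g11 (@Lb.r r2583 (@Lb.r r2661 (@Lb.r r146 (@Lb.r r1416 (@Lb.d (nat_lit 521) (nat_lit 2) (nat_lit 153) (@Lb.t (@Lb.fm (nat_lit 9) t6203))))))))))))
noncomputable def l34852 : Lb := (@Lb.d (nat_lit 0) (nat_lit 0) (nat_lit 130) (@Lb.g g8 (@Lb.g g9 (@Lb.g g10 (@Lb.g g11 (@Lb.r r586 (@Lb.r r584 (@Lb.r r299 (@Lb.r r409 (@Lb.d (nat_lit 2) (nat_lit 69) (nat_lit 17) (@Lb.fm (nat_lit 9) t1022)))))))))))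
noncomputable def l34853 : Lb := (@Lb.r r322 (@Lb.d (nat_lit 4) (nat_lit 546) (nat_lit 128) (@Lb.g g8 (@Lb.g g9 (@Lb.g g11 (@Lb.r r610 (@Lb.r r548 (@Lb.r r613 (@Lb.d (nat_lit 90) (nat_lit 165) (nat_lit 73) (@Lb.t (@Lb.fp (nat_lit 9) t501)))))))))))
noncomputable def l34854 : Lb := (@Lb.d (nat_lit 36) (nat_lit 512) (nat_lit 0) (@Lb.g g8 (@Lb.g g9 (@Lb.r r515 (@Lb.r r361 (@Lb.r r150 (@Lb.r r612 (@Lb.d (nat_lit 154) (nat_lit 137) (nat_lit 330) (@Lb.fp (nat_lit 3) t242)))))))))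
noncomputable def l34855 : Lb := (@Lb.d (nat_lit 41) (nat_lit 256) (nat_lit 0) (@Lb.g g8 (@Lb.r r2471 (@Lb.r r422 (@Lb.r r1445 (@Lb.r r1620 (@Lb.d (nat_lit 404) (nat_lit 102) (nat_lit 544) (@Lb.t (@Lb.fp (nat_lit 3) t386)))))))))
noncomputable def l34856 : Lb := (@Lb.d (nat_lit 134) (nat_lit 512) (nat_lit 130) (@Lb.g g8 (@Lb.g g9 (@Lb.g g10 (@Lb.g g11 (@Lb.r r419 (@Lb.r r1702 (@Lb.r r344 (@Lb.r r1429 (@Lb.r r1060 (@Lb.d (nat_lit 610) (nat_lit 38) (nat_lit 401) (@Lb.fp (nat_lit 9) t5251))))))))))))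
noncomputable def l34857 : Lb := (@Lb.d (nat_lit 0) (nat_lit 256) (nat_lit 66) (@Lb.g g8 (@Lb.g g10 (@Lb.g g7 (@Lb.r r386 (@Lb.r r2145 (@Lb.r r2120 (@Lb.d (nat_lit 608) (nat_lit 0) (nat_lit 553) (@Lb.t (@Lb.fm (nat_lit 9) t1150))))))))))
noncomputable def l34858 : Lb := (@Lb.d (nat_lit 0) (nat_lit 5) (nat_lit 1) (@Lb.g g8 (@Lb.g g5 (@Lb.g g10 (@Lb.g g7 (@Lb.r r402 (@Lb.d (nat_lit 0) (nat_lit 24) (nat_lit 66) (@Lb.fm (nat_lit 9) t69))))))))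
noncomputable def l34859 : Lb := (@Lb.d (nat_lit 337) (nat_lit 674) (nat_lit 640) (@Lb.r r2184 (@Lb.r r1130 (@Lb.r r2133 (@Lb.g g11 (@Lb.g g4 (@Lb.d (nat_lit 4) (nat_lit 0) (nat_lit 128) (@Lb.fm (nat_lit 3) t648))))))))
noncomputable def l34860 : Lb := (@Lb.r r81 (@Lb.d (nat_lit 10) (nat_lit 288) (nat_lit 162) (@Lb.g g8 (@Lb.g g10 (@Lb.g g11 (@Lb.r r353 (@Lb.r r407 (@Lb.r r516 (@Lb.d (nat_lit 293) (nat_lit 10) (nat_lit 641) (@Lb.t (@Lb.fp (nat_lit 9) t4)))))))))))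
noncomputable def l34861 : Lb := (@Lb.d (nat_lit 36) (nat_lit 516) (nat_lit 128) (@Lb.g g8 (@Lb.g g9 (@Lb.g g10 (@Lb.g g11 (@Lb.r r2705 (@Lb.r r1683 (@Lb.r r644 (@Lb.r r582 (@Lb.r r1156 (@Lb.d (nat_lit 393) (nat_lit 2) (nat_lit 66) (@Lb.fm (nat_lit 9) t86))))))))))))
noncomputable def l34862 : Lb := (@Lb.d (nat_lit 2) (nat_lit 550) (nat_lit 133) (@Lb.g g8 (@Lb.g g9 (@Lb.g g10 (@Lb.g g11 (@Lb.r r2705 (@Lb.r r356 (@Lb.r r667 (@Lb.r r2634 (@Lb.r r516 (@Lb.d (nat_lit 33) (nat_lit 74) (nat_lit 145) (@Lb.fm (nat_lit 9) t560))))))))))))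
noncomputable def l34863 : Lb := (@Lb.d (nat_lit 128) (nat_lit 1) (nat_lit 66) (@Lb.g g9 (@Lb.g g10 (@Lb.g g11 (@Lb.r r1177 (@Lb.r r264 (@Lb.r r663 (@Lb.r r578 (@Lb.d (nat_lit 37) (nat_lit 10) (nat_lit 328) (@Lb.t (@Lb.fm (nat_lit 9) t311)))))))))))
noncomputable def l34864 : Lb := (@Lb.r r82 (@Lb.d (nat_lit 2) (nat_lit 329) (nat_lit 128) (@Lb.g g8 (@Lb.g g5 (@Lb.g g11 (@Lb.r r595 (@Lb.r r98 (@Lb.d (nat_lit 2) (nat_lit 6) (nat_lit 1) (@Lb.t (@Lb.fm (nat_lit 9) t594))))))))))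
noncomputable def l34865 : Lb := (@Lb.d (nat_lit 0) (nat_lit 65) (nat_lit 128) (@Lb.g g8 (@Lb.g g5 (@Lb.g g11 (@Lb.r r1619 (@Lb.r r2146 (@Lb.d (nat_lit 2) (nat_lit 134) (nat_lit 17) (@Lb.t (@Lb.fm (nat_lit 9) t51)))))))))
noncomputable def l34866 : Lb := (@Lb.d (nat_lit 2) (nat_lit 537) (nat_lit 649) (@Lb.r r2706 (@Lb.r r337 (@Lb.g g7 (@Lb.g g6 (@Lb.g g5 (@Lb.g g8 (@Lb.d (nat_lit 2) (nat_lit 6) (nat_lit 132) (@Lb.fp (nat_lit 9) t594)))))))))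
noncomputable def l34867 : Lb := (@Lb.d (nat_lit 0) (nat_lit 34) (nat_lit 2) (@Lb.g g9 (@Lb.g g10 (@Lb.r r595 (@Lb.r r98 (@Lb.r r36 (@Lb.d (nat_lit 0) (nat_lit 137) (nat_lit 356) (@Lb.fp (nat_lit 3) t790))))))))
noncomputable def l34868 : Lb := (@Lb.g g8 (@Lb.r r2339 (@Lb.d (nat_lit 0) (nat_lit 128) (nat_lit 0) (@Lb.t (@Lb.fp (nat_lit 3) t2243)))))
noncomputable def l34869 : Lb := (@Lb.d (nat_lit 0) (nat_lit 2) (nat_lit 2) (@Lb.g g8 (@Lb.g g9 (@Lb.g g10 (@Lb.g g11 (@Lb.r r2691 (@Lb.r r2209 (@Lb.r r2658 (@Lb.d (nat_lit 0) (nat_lit 165) (nat_lit 660) (@Lb.fp (nat_lit 9) t311))))))))))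
noncomputable def l34870 : Lb := (@Lb.d (nat_lit 2) (nat_lit 544) (nat_lit 512) (@Lb.g g8 (@Lb.g g11 (@Lb.r r1049 (@Lb.r r24 (@Lb.d (nat_lit 325) (nat_lit 130) (nat_lit 512) (@Lb.fp (nat_lit 3) t441)))))))
noncomputable def l34871 : Lb := (@Lb.d (nat_lit 0) (nat_lit 548) (nat_lit 128) (@Lb.g g8 (@Lb.g g9 (@Lb.g g10 (@Lb.g g11 (@Lb.r r674 (@Lb.r r2435 (@Lb.r r153 (@Lb.r r24 (@Lb.d (nat_lit 344) (nat_lit 2) (nat_lit 340) (@Lb.fp (nat_lit 9) t1444)))))))))))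
noncomputable def l34872 : Lb := (@Lb.r r81 (@Lb.d (nat_lit 0) (nat_lit 0) (nat_lit 41) (@Lb.g g8 (@Lb.g g6 (@Lb.r r2467 (@Lb.r r2337 (@Lb.d (nat_lit 0) (nat_lit 66) (nat_lit 1) (@Lb.fm (nat_lit 3) t50))))))))
noncomputable def l34873 : Lb := (@Lb.d (nat_lit 2) (nat_lit 2) (nat_lit 2) (@Lb.g g8 (@Lb.g g9 (@Lb.g g10 (@Lb.g g11 (@Lb.r r2705 (@Lb.r r356 (@Lb.r r667 (@Lb.r r586 (@Lb.r r1540 (@Lb.d (nat_lit 289) (nat_lit 10) (nat_lit 97) (@Lb.fm (nat_lit 9) t145))))))))))))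
noncomputable def l34874 : Lb := (@Lb.d (nat_lit 0) (nat_lit 292) (nat_lit 5) (@Lb.g g9 (@Lb.g g10 (@Lb.g g11 (@Lb.r r1447 (@Lb.r r2150 (@Lb.r r1429 (@Lb.r r36 (@Lb.d (nat_lit 357) (nat_lit 150) (nat_lit 81) (@Lb.t (@Lb.fm (nat_lit 9) t842)))))))))))
noncomputable def l34875 : Lb := (@Lb.d (nat_lit 8) (nat_lit 514) (nat_lit 0) (@Lb.g g9 (@Lb.r r1304 (@Lb.r r2311 (@Lb.r r1553 (@Lb.d (nat_lit 1) (nat_lit 98) (nat_lit 404) (@Lb.t (@Lb.fm (nat_lit 3) t6204))))))))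
noncomputable def l34876 : Lb := (@Lb.d (nat_lit 0) (nat_lit 4) (nat_lit 128) (@Lb.g g9 (@Lb.g g10 (@Lb.g g11 (@Lb.r r673 (@Lb.r r419 (@Lb.r r98 (@Lb.d (nat_lit 5) (nat_lit 26) (nat_lit 137) (@Lb.t (@Lb.fp (nat_lit 9) t579))))))))))
noncomputable def l34877 : Lb := (@Lb.g g9 (@Lb.r r402 (@Lb.d (nat_lit 0) (nat_lit 320) (nat_lit 512) (@Lb.t (@Lb.fm (nat_lit 3) t387)))))
noncomputable def l34878 : Lb := (@Lb.r r275 (@Lb.d (nat_lit 130) (nat_lit 288) (nat_lit 2) (@Lb.g g8 (@Lb.g g9 (@Lb.g g10 (@Lb.r r1450 (@Lb.r r583 (@Lb.r r1428 (@Lb.r r1561 (@Lb.d (nat_lit 129) (nat_lit 168) (nat_lit 146) (@Lb.t (@Lb.fm (nat_lit 9) t125))))))))))))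
noncomputable def l34879 : Lb := (@Lb.r r275 (@Lb.d (nat_lit 130) (nat_lit 261) (nat_lit 0) (@Lb.g g8 (@Lb.g g9 (@Lb.g g10 (@Lb.r r1699 (@Lb.r r1194 (@Lb.r r2472 (@Lb.r r297 (@Lb.d (nat_lit 129) (nat_lit 138) (nat_lit 402) (@Lb.t (@Lb.fm (nat_lit 9) t125))))))))))))
noncomputable def l34880 : Lb := (@Lb.d (nat_lit 0) (nat_lit 256) (nat_lit 4) (@Lb.g g9 (@Lb.g g10 (@Lb.g g11 (@Lb.r r2339 (@Lb.r r578 (@Lb.d (nat_lit 0) (nat_lit 66) (nat_lit 136) (@Lb.t (@Lb.fm (nat_lit 9) t1673)))))))))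
noncomputable def l34881 : Lb := (@Lb.r r82 (@Lb.r r275 (@Lb.d (nat_lit 8) (nat_lit 258) (nat_lit 0) (@Lb.g g9 (@Lb.r r536 (@Lb.r r283 (@Lb.r r593 (@Lb.r r98 (@Lb.d (nat_lit 290) (nat_lit 129) (nat_lit 32) (@Lb.t (@Lb.fm (nat_lit 3) t6205)))))))))))
noncomputable def l34882 : Lb := (@Lb.r r275 (@Lb.d (nat_lit 2) (nat_lit 266) (nat_lit 1) (@Lb.g g8 (@Lb.g g9 (@Lb.g g10 (@Lb.r r1706 (@Lb.r r1668 (@Lb.r r1543 (@Lb.r r1681 (@Lb.d (nat_lit 150) (nat_lit 149) (nat_lit 280) (@Lb.t (@Lb.fm (nat_lit 9) t4118))))))))))))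
noncomputable def l34883 : Lb := (@Lb.r r21 (@Lb.r r70 (@Lb.d (nat_lit 657) (nat_lit 0) (nat_lit 128) (@Lb.g g8 (@Lb.g g11 (@Lb.r r1419 (@Lb.r r402 (@Lb.r r97 (@Lb.d (nat_lit 580) (nat_lit 166) (nat_lit 288) (@Lb.fm (nat_lit 3) t977))))))))))
noncomputable def l34884 : Lb := (@Lb.r r21 (@Lb.r r70 (@Lb.d (nat_lit 657) (nat_lit 512) (nat_lit 128) (@Lb.g g8 (@Lb.g g11 (@Lb.r r1419 (@Lb.r r74 (@Lb.r r25 (@Lb.d (nat_lit 354) (nat_lit 66) (nat_lit 41) (@Lb.fm (nat_lit 3) t2521))))))))))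
noncomputable def l34885 : Lb := (@Lb.r r82 (@Lb.d (nat_lit 8) (nat_lit 514) (nat_lit 128) (@Lb.g g9 (@Lb.g g11 (@Lb.r r1319 (@Lb.r r602 (@Lb.r r600 (@Lb.r r341 (@Lb.d (nat_lit 580) (nat_lit 22) (nat_lit 298) (@Lb.fp (nat_lit 3) t2409))))))))))
noncomputable def l34886 : Lb := (@Lb.d (nat_lit 161) (nat_lit 326) (nat_lit 328) (@Lb.r r101 (@Lb.r r24 (@Lb.r r682 (@Lb.r r1447 (@Lb.g g7 (@Lb.g g6 (@Lb.g g5 (@Lb.d (nat_lit 4) (nat_lit 8) (nat_lit 70) (@Lb.t (@Lb.fm (nat_lit 9) t635)))))))))))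
noncomputable def l34887 : Lb := (@Lb.d (nat_lit 2) (nat_lit 514) (nat_lit 10) (@Lb.g g8 (@Lb.g g9 (@Lb.g g10 (@Lb.r r579 (@Lb.r r425 (@Lb.r r2410 (@Lb.r r2120 (@Lb.d (nat_lit 617) (nat_lit 0) (nat_lit 529) (@Lb.t (@Lb.fp (nat_lit 9) t6206)))))))))))
noncomputable def l34888 : Lb := (@Lb.d (nat_lit 613) (nat_lit 345) (nat_lit 346) (@Lb.r r1385 (@Lb.r r1320 (@Lb.r r599 (@Lb.g g6 (@Lb.g g5 (@Lb.d (nat_lit 0) (nat_lit 18) (nat_lit 33) (@Lb.r r387 (@Lb.fp (nat_lit 3) t3211)))))))))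
noncomputable def l34889 : Lb := (@Lb.d (nat_lit 293) (nat_lit 538) (nat_lit 609) (@Lb.r r289 (@Lb.r r422 (@Lb.r r72 (@Lb.r r2387 (@Lb.g g7 (@Lb.g g6 (@Lb.g g5 (@Lb.d (nat_lit 16) (nat_lit 2) (nat_lit 65) (@Lb.t (@Lb.fm (nat_lit 9) t3950)))))))))))
noncomputable def l34890 : Lb := (@Lb.d (nat_lit 9) (nat_lit 257) (nat_lit 128) (@Lb.g g8 (@Lb.g g9 (@Lb.g g10 (@Lb.g g11 (@Lb.r r643 (@Lb.r r297 (@Lb.r r360 (@Lb.r r582 (@Lb.r r132 (@Lb.d (nat_lit 130) (nat_lit 10) (nat_lit 73) (@Lb.fm (nat_lit 9) t242))))))))))))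
noncomputable def l34891 : Lb := (@Lb.d (nat_lit 104) (nat_lit 533) (nat_lit 362) (@Lb.r r2069 (@Lb.r r1124 (@Lb.r r418 (@Lb.r r2411 (@Lb.g g7 (@Lb.g g6 (@Lb.d (nat_lit 0) (nat_lit 0) (nat_lit 66) (@Lb.fp (nat_lit 3) t6207)))))))))
noncomputable def l34892 : Lb := (@Lb.d (nat_lit 2) (nat_lit 0) (nat_lit 64) (@Lb.g g8 (@Lb.g g11 (@Lb.r r2450 (@Lb.r r2659 (@Lb.r r1633 (@Lb.r r24 (@Lb.d (nat_lit 10) (nat_lit 154) (nat_lit 66) (@Lb.fm (nat_lit 3) t918)))))))))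
noncomputable def l34893 : Lb := (@Lb.d (nat_lit 104) (nat_lit 282) (nat_lit 360) (@Lb.r r2069 (@Lb.r r1124 (@Lb.r r418 (@Lb.r r2411 (@Lb.g g7 (@Lb.g g6 (@Lb.d (nat_lit 0) (nat_lit 0) (nat_lit 66) (@Lb.fp (nat_lit 3) t4934)))))))))
noncomputable def l34894 : Lb := (@Lb.d (nat_lit 9) (nat_lit 257) (nat_lit 0) (@Lb.g g8 (@Lb.g g9 (@Lb.g g10 (@Lb.r r515 (@Lb.r r297 (@Lb.r r360 (@Lb.r r582 (@Lb.r r132 (@Lb.d (nat_lit 0) (nat_lit 10) (nat_lit 73) (@Lb.t (@Lb.fp (nat_lit 9) t242))))))))))))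
noncomputable def l34895 : Lb := (@Lb.r r82 (@Lb.r r275 (@Lb.d (nat_lit 129) (nat_lit 6) (nat_lit 0) (@Lb.g g8 (@Lb.g g9 (@Lb.r r599 (@Lb.r r98 (@Lb.r r264 (@Lb.d (nat_lit 417) (nat_lit 128) (nat_lit 97) (@Lb.fm (nat_lit 3) t6208))))))))))
noncomputable def l34896 : Lb := (@Lb.d (nat_lit 4) (nat_lit 512) (nat_lit 4) (@Lb.g g8 (@Lb.g g9 (@Lb.g g10 (@Lb.g g11 (@Lb.r r2691 (@Lb.r r405 (@Lb.r r86 (@Lb.r r1124 (@Lb.d (nat_lit 104) (nat_lit 138) (nat_lit 136) (@Lb.fm (nat_lit 9) t5217)))))))))))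
noncomputable def l34897 : Lb := (@Lb.d (nat_lit 512) (nat_lit 6) (nat_lit 1) (@Lb.r r1096 (@Lb.r r1414 (@Lb.r r1619 (@Lb.g g5 (@Lb.d (nat_lit 0) (nat_lit 17) (nat_lit 0) (@Lb.t (@Lb.fp (nat_lit 3) t6209))))))))
noncomputable def l34898 : Lb := (@Lb.r r82 (@Lb.d (nat_lit 33) (nat_lit 10) (nat_lit 128) (@Lb.g g8 (@Lb.g g9 (@Lb.g g11 (@Lb.r r427 (@Lb.r r582 (@Lb.r r2456 (@Lb.r r1125 (@Lb.d (nat_lit 533) (nat_lit 105) (nat_lit 65) (@Lb.t (@Lb.fm (nat_lit 9) t5332))))))))))))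
noncomputable def l34899 : Lb := (@Lb.d (nat_lit 33) (nat_lit 516) (nat_lit 130) (@Lb.g g8 (@Lb.g g9 (@Lb.g g6 (@Lb.g g11 (@Lb.r r1643 (@Lb.r r612 (@Lb.r r2069 (@Lb.r r1060 (@Lb.d (nat_lit 105) (nat_lit 88) (nat_lit 280) (@Lb.fp (nat_lit 9) t6210)))))))))))
noncomputable def l34900 : Lb := (@Lb.d (nat_lit 0) (nat_lit 256) (nat_lit 130) (@Lb.g g9 (@Lb.g g10 (@Lb.g g11 (@Lb.r r2691 (@Lb.r r357 (@Lb.r r146 (@Lb.r r24 (@Lb.d (nat_lit 640) (nat_lit 101) (nat_lit 665) (@Lb.t (@Lb.fm (nat_lit 9) t6211)))))))))))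
noncomputable def l34901 : Lb := (@Lb.r r82 (@Lb.d (nat_lit 128) (nat_lit 258) (nat_lit 128) (@Lb.g g9 (@Lb.g g11 (@Lb.r r597 (@Lb.r r1444 (@Lb.r r2651 (@Lb.r r98 (@Lb.d (nat_lit 585) (nat_lit 128) (nat_lit 418) (@Lb.fp (nat_lit 3) t5945))))))))))
noncomputable def l34902 : Lb := (@Lb.d (nat_lit 4) (nat_lit 256) (nat_lit 4) (@Lb.g g8 (@Lb.g g9 (@Lb.g g10 (@Lb.g g11 (@Lb.r r2691 (@Lb.r r405 (@Lb.r r86 (@Lb.r r1124 (@Lb.d (nat_lit 105) (nat_lit 138) (nat_lit 136) (@Lb.fm (nat_lit 9) t6212)))))))))))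
noncomputable def l34903 : Lb := (@Lb.d (nat_lit 256) (nat_lit 100) (nat_lit 528) (@Lb.r r21 (@Lb.r r2327 (@Lb.r r2664 (@Lb.g g10 (@Lb.g g5 (@Lb.g g4 (@Lb.d (nat_lit 0) (nat_lit 1) (nat_lit 0) (@Lb.r r267 (@Lb.t (@Lb.fp (nat_lit 9) t6213)))))))))))
noncomputable def l34904 : Lb := (@Lb.d (nat_lit 9) (nat_lit 257) (nat_lit 130) (@Lb.g g8 (@Lb.g g9 (@Lb.g g10 (@Lb.g g11 (@Lb.r r84 (@Lb.r r1194 (@Lb.r r1449 (@Lb.r r2391 (@Lb.r r1700 (@Lb.d (nat_lit 610) (nat_lit 82) (nat_lit 642) (@Lb.fp (nat_lit 9) t5727))))))))))))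
noncomputable def l34905 : Lb := (@Lb.r r70 (@Lb.d (nat_lit 138) (nat_lit 1) (nat_lit 128) (@Lb.g g8 (@Lb.g g9 (@Lb.g g11 (@Lb.r r555 (@Lb.r r1681 (@Lb.r r2454 (@Lb.r r2376 (@Lb.d (nat_lit 529) (nat_lit 0) (nat_lit 424) (@Lb.t (@Lb.fp (nat_lit 9) t3))))))))))))
noncomputable def l34906 : Lb := (@Lb.d (nat_lit 136) (nat_lit 134) (nat_lit 582) (@Lb.r r1178 (@Lb.r r1369 (@Lb.r r2731 (@Lb.g g7 (@Lb.g g6 (@Lb.g g5 (@Lb.g g4 (@Lb.d (nat_lit 8) (nat_lit 5) (nat_lit 134) (@Lb.fp (nat_lit 9) t2503))))))))))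
noncomputable def l34907 : Lb := (@Lb.d (nat_lit 552) (nat_lit 390) (nat_lit 342) (@Lb.r r1178 (@Lb.r r2389 (@Lb.r r1699 (@Lb.g g7 (@Lb.g g6 (@Lb.g g5 (@Lb.g g4 (@Lb.d (nat_lit 8) (nat_lit 5) (nat_lit 134) (@Lb.fp (nat_lit 9) t553))))))))))
noncomputable def l34908 : Lb := (@Lb.d (nat_lit 385) (nat_lit 0) (nat_lit 41) (@Lb.r r24 (@Lb.r r2213 (@Lb.r r2658 (@Lb.g g11 (@Lb.g g5 (@Lb.g g4 (@Lb.d (nat_lit 0) (nat_lit 38) (nat_lit 64) (@Lb.r r594 (@Lb.t (@Lb.fm (nat_lit 9) t254)))))))))))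
noncomputable def l34909 : Lb := (@Lb.d (nat_lit 137) (nat_lit 513) (nat_lit 0) (@Lb.g g8 (@Lb.g g9 (@Lb.r r2339 (@Lb.r r281 (@Lb.r r276 (@Lb.d (nat_lit 580) (nat_lit 18) (nat_lit 0) (@Lb.fm (nat_lit 3) t1165))))))))
noncomputable def l34910 : Lb := (@Lb.d (nat_lit 41) (nat_lit 1) (nat_lit 0) (@Lb.g g8 (@Lb.g g9 (@Lb.g g11 (@Lb.r r406 (@Lb.r r1387 (@Lb.r r2409 (@Lb.r r2404 (@Lb.d (nat_lit 601) (nat_lit 160) (nat_lit 676) (@Lb.t (@Lb.fm (nat_lit 9) t1344)))))))))))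
noncomputable def l34911 : Lb := (@Lb.d (nat_lit 0) (nat_lit 2) (nat_lit 66) (@Lb.g g9 (@Lb.g g10 (@Lb.g g7 (@Lb.r r386 (@Lb.r r97 (@Lb.r r1304 (@Lb.d (nat_lit 10) (nat_lit 89) (nat_lit 521) (@Lb.t (@Lb.fm (nat_lit 9) t4822))))))))))
noncomputable def l34912 : Lb := (@Lb.d (nat_lit 128) (nat_lit 393) (nat_lit 644) (@Lb.g g5 (@Lb.g g11 (@Lb.r r2178 (@Lb.r r1416 (@Lb.d (nat_lit 552) (nat_lit 89) (nat_lit 409) (@Lb.fp (nat_lit 3) t6214)))))))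
noncomputable def l34913 : Lb := (@Lb.d (nat_lit 552) (nat_lit 134) (nat_lit 582) (@Lb.r r1178 (@Lb.r r1365 (@Lb.r r2723 (@Lb.g g7 (@Lb.g g6 (@Lb.g g5 (@Lb.g g4 (@Lb.d (nat_lit 8) (nat_lit 1) (nat_lit 133) (@Lb.fp (nat_lit 9) t553))))))))))
noncomputable def l34914 : Lb := (@Lb.r r82 (@Lb.d (nat_lit 2) (nat_lit 258) (nat_lit 128) (@Lb.g g8 (@Lb.g g9 (@Lb.g g11 (@Lb.r r299 (@Lb.r r1416 (@Lb.r r1098 (@Lb.d (nat_lit 8) (nat_lit 65) (nat_lit 105) (@Lb.t (@Lb.fp (nat_lit 9) t1684)))))))))))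
noncomputable def l34915 : Lb := (@Lb.d (nat_lit 134) (nat_lit 290) (nat_lit 65) (@Lb.g g8 (@Lb.g g9 (@Lb.g g10 (@Lb.g g11 (@Lb.r r1634 (@Lb.r r2659 (@Lb.r r101 (@Lb.r r1156 (@Lb.d (nat_lit 130) (nat_lit 169) (nat_lit 105) (@Lb.fp (nat_lit 9) t4)))))))))))
noncomputable def l34916 : Lb := (@Lb.d (nat_lit 136) (nat_lit 514) (nat_lit 128) (@Lb.g g9 (@Lb.g g11 (@Lb.r r260 (@Lb.r r603 (@Lb.r r1425 (@Lb.d (nat_lit 528) (nat_lit 154) (nat_lit 404) (@Lb.fp (nat_lit 3) t4402))))))))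
noncomputable def l34917 : Lb := (@Lb.r r263 (@Lb.d (nat_lit 128) (nat_lit 258) (nat_lit 2) (@Lb.g g8 (@Lb.g g9 (@Lb.g g10 (@Lb.r r675 (@Lb.r r1194 (@Lb.r r2393 (@Lb.r r2392 (@Lb.d (nat_lit 68) (nat_lit 8) (nat_lit 384) (@Lb.t (@Lb.fp (nat_lit 9) t1325))))))))))))
noncomputable def l34918 : Lb := (@Lb.r r82 (@Lb.d (nat_lit 132) (nat_lit 512) (nat_lit 128) (@Lb.g g8 (@Lb.g g9 (@Lb.g g11 (@Lb.r r2467 (@Lb.r r386 (@Lb.r r36 (@Lb.r r1125 (@Lb.d (nat_lit 74) (nat_lit 10) (nat_lit 530) (@Lb.t (@Lb.fm (nat_lit 9) t2762))))))))))))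
noncomputable def l34919 : Lb := (@Lb.d (nat_lit 16) (nat_lit 2) (nat_lit 138) (@Lb.g g8 (@Lb.g g9 (@Lb.g g10 (@Lb.g g11 (@Lb.r r1626 (@Lb.r r2659 (@Lb.r r97 (@Lb.r r2312 (@Lb.d (nat_lit 33) (nat_lit 132) (nat_lit 129) (@Lb.fm (nat_lit 9) t1931)))))))))))
noncomputable def l34920 : Lb := (@Lb.d (nat_lit 0) (nat_lit 256) (nat_lit 130) (@Lb.g g10 (@Lb.g g11 (@Lb.r r642 (@Lb.r r387 (@Lb.d (nat_lit 10) (nat_lit 4) (nat_lit 90) (@Lb.fp (nat_lit 3) t45)))))))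
noncomputable def l34921 : Lb := (@Lb.d (nat_lit 0) (nat_lit 0) (nat_lit 130) (@Lb.g g10 (@Lb.g g11 (@Lb.r r642 (@Lb.r r387 (@Lb.d (nat_lit 10) (nat_lit 4) (nat_lit 144) (@Lb.fp (nat_lit 3) t45)))))))
noncomputable def l34922 : Lb := (@Lb.d (nat_lit 2) (nat_lit 288) (nat_lit 128) (@Lb.g g8 (@Lb.g g11 (@Lb.r r401 (@Lb.r r299 (@Lb.r r1416 (@Lb.d (nat_lit 169) (nat_lit 66) (nat_lit 424) (@Lb.fp (nat_lit 3) t386))))))))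
noncomputable def l34923 : Lb := (@Lb.d (nat_lit 289) (nat_lit 0) (nat_lit 81) (@Lb.r r1178 (@Lb.r r1684 (@Lb.r r2393 (@Lb.g g7 (@Lb.g g6 (@Lb.g g5 (@Lb.d (nat_lit 64) (nat_lit 8) (nat_lit 386) (@Lb.t (@Lb.fm (nat_lit 9) t98))))))))))
noncomputable def l34924 : Lb := (@Lb.r r21 (@Lb.r r323 (@Lb.d (nat_lit 42) (nat_lit 0) (nat_lit 2) (@Lb.g g8 (@Lb.g g10 (@Lb.r r417 (@Lb.r r2455 (@Lb.r r1162 (@Lb.r r1348 (@Lb.d (nat_lit 545) (nat_lit 0) (nat_lit 586) (@Lb.fm (nat_lit 3) t74)))))))))))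
noncomputable def l34925 : Lb := (@Lb.d (nat_lit 89) (nat_lit 538) (nat_lit 89) (@Lb.r r360 (@Lb.r r81 (@Lb.r r2647 (@Lb.g g6 (@Lb.g g5 (@Lb.g g4 (@Lb.d (nat_lit 70) (nat_lit 2) (nat_lit 17) (@Lb.r r387 (@Lb.t (@Lb.fp (nat_lit 9) t4102)))))))))))
noncomputable def l34926 : Lb := (@Lb.r r82 (@Lb.r r275 (@Lb.d (nat_lit 9) (nat_lit 400) (nat_lit 0) (@Lb.g g8 (@Lb.g g5 (@Lb.r r1619 (@Lb.r r1418 (@Lb.r r1416 (@Lb.d (nat_lit 593) (nat_lit 1) (nat_lit 106) (@Lb.fm (nat_lit 3) t5631))))))))))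
noncomputable def l34927 : Lb := (@Lb.d (nat_lit 394) (nat_lit 260) (nat_lit 38) (@Lb.r r168 (@Lb.r r89 (@Lb.r r386 (@Lb.r r339 (@Lb.g g7 (@Lb.g g6 (@Lb.g g4 (@Lb.d (nat_lit 5) (nat_lit 0) (nat_lit 65) (@Lb.t (@Lb.fp (nat_lit 9) t101)))))))))))
noncomputable def l34928 : Lb := (@Lb.d (nat_lit 33) (nat_lit 514) (nat_lit 130) (@Lb.g g8 (@Lb.g g9 (@Lb.g g10 (@Lb.g g11 (@Lb.r r675 (@Lb.r r164 (@Lb.r r2662 (@Lb.r r2149 (@Lb.r r1156 (@Lb.d (nat_lit 512) (nat_lit 34) (nat_lit 618) (@Lb.fp (nat_lit 9) t2929))))))))))))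
noncomputable def l34929 : Lb := (@Lb.d (nat_lit 129) (nat_lit 0) (nat_lit 0) (@Lb.g g8 (@Lb.r r279 (@Lb.r r402 (@Lb.r r609 (@Lb.r r152 (@Lb.d (nat_lit 26) (nat_lit 145) (nat_lit 592) (@Lb.t (@Lb.fm (nat_lit 3) t71)))))))))
noncomputable def l34930 : Lb := (@Lb.d (nat_lit 129) (nat_lit 514) (nat_lit 2) (@Lb.g g8 (@Lb.g g9 (@Lb.g g10 (@Lb.r r263 (@Lb.r r2713 (@Lb.r r2712 (@Lb.r r2122 (@Lb.d (nat_lit 533) (nat_lit 40) (nat_lit 84) (@Lb.t (@Lb.fp (nat_lit 9) t145)))))))))))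
noncomputable def l34931 : Lb := (@Lb.r r355 (@Lb.d (nat_lit 2) (nat_lit 264) (nat_lit 2) (@Lb.g g8 (@Lb.g g9 (@Lb.g g10 (@Lb.r r1699 (@Lb.r r1642 (@Lb.r r1621 (@Lb.d (nat_lit 256) (nat_lit 101) (nat_lit 537) (@Lb.t (@Lb.fp (nat_lit 9) t2545)))))))))))
noncomputable def l34932 : Lb := (@Lb.r r82 (@Lb.d (nat_lit 2) (nat_lit 129) (nat_lit 128) (@Lb.g g8 (@Lb.g g5 (@Lb.g g11 (@Lb.r r2731 (@Lb.r r2650 (@Lb.d (nat_lit 516) (nat_lit 90) (nat_lit 290) (@Lb.t (@Lb.fm (nat_lit 9) t50))))))))))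
noncomputable def l34933 : Lb := (@Lb.d (nat_lit 160) (nat_lit 8) (nat_lit 128) (@Lb.g g10 (@Lb.g g11 (@Lb.r r260 (@Lb.r r2667 (@Lb.r r1633 (@Lb.r r338 (@Lb.d (nat_lit 65) (nat_lit 149) (nat_lit 262) (@Lb.fm (nat_lit 3) t748)))))))))
noncomputable def l34934 : Lb := (@Lb.r r82 (@Lb.d (nat_lit 2) (nat_lit 529) (nat_lit 0) (@Lb.g g8 (@Lb.g g9 (@Lb.g g11 (@Lb.r r2587 (@Lb.r r1362 (@Lb.r r2593 (@Lb.d (nat_lit 513) (nat_lit 82) (nat_lit 384) (@Lb.t (@Lb.fm (nat_lit 9) t4455)))))))))))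
noncomputable def l34935 : Lb := (@Lb.d (nat_lit 656) (nat_lit 266) (nat_lit 533) (@Lb.r r402 (@Lb.r r101 (@Lb.r r24 (@Lb.g g11 (@Lb.t (@Lb.fm (nat_lit 3) t4664)))))))
noncomputable def l34936 : Lb := (@Lb.d (nat_lit 8) (nat_lit 265) (nat_lit 6) (@Lb.g g9 (@Lb.g g10 (@Lb.g g11 (@Lb.r r419 (@Lb.r r2470 (@Lb.r r1624 (@Lb.r r2341 (@Lb.d (nat_lit 585) (nat_lit 73) (nat_lit 514) (@Lb.t (@Lb.fp (nat_lit 9) t6215)))))))))))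
noncomputable def l34937 : Lb := (@Lb.d (nat_lit 1) (nat_lit 34) (nat_lit 4) (@Lb.g g8 (@Lb.g g9 (@Lb.g g10 (@Lb.g g11 (@Lb.r r2731 (@Lb.r r618 (@Lb.r r537 (@Lb.r r2628 (@Lb.d (nat_lit 425) (nat_lit 69) (nat_lit 410) (@Lb.fm (nat_lit 9) t874)))))))))))
noncomputable def l34938 : Lb := (@Lb.d (nat_lit 2) (nat_lit 516) (nat_lit 128) (@Lb.g g8 (@Lb.g g9 (@Lb.g g10 (@Lb.g g11 (@Lb.r r427 (@Lb.r r297 (@Lb.r r136 (@Lb.r r154 (@Lb.r r132 (@Lb.d (nat_lit 9) (nat_lit 26) (nat_lit 68) (@Lb.fm (nat_lit 9) t686))))))))))))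
noncomputable def l34939 : Lb := (@Lb.r r21 (@Lb.d (nat_lit 10) (nat_lit 544) (nat_lit 162) (@Lb.g g8 (@Lb.g g6 (@Lb.g g11 (@Lb.r r401 (@Lb.r r2343 (@Lb.r r1608 (@Lb.d (nat_lit 389) (nat_lit 136) (nat_lit 297) (@Lb.t (@Lb.fm (nat_lit 9) t188)))))))))))
noncomputable def l34940 : Lb := (@Lb.d (nat_lit 2) (nat_lit 260) (nat_lit 128) (@Lb.g g8 (@Lb.g g9 (@Lb.g g10 (@Lb.g g11 (@Lb.r r427 (@Lb.r r297 (@Lb.r r136 (@Lb.r r154 (@Lb.r r132 (@Lb.d (nat_lit 9) (nat_lit 26) (nat_lit 137) (@Lb.fm (nat_lit 9) t50))))))))))))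
noncomputable def l34941 : Lb := (@Lb.d (nat_lit 2) (nat_lit 260) (nat_lit 5) (@Lb.g g8 (@Lb.g g9 (@Lb.g g10 (@Lb.g g11 (@Lb.r r427 (@Lb.r r297 (@Lb.r r136 (@Lb.r r154 (@Lb.r r132 (@Lb.d (nat_lit 9) (nat_lit 26) (nat_lit 68) (@Lb.fm (nat_lit 9) t686))))))))))))
noncomputable def l34942 : Lb := (@Lb.d (nat_lit 2) (nat_lit 33) (nat_lit 514) (@Lb.g g8 (@Lb.g g9 (@Lb.g g10 (@Lb.g g7 (@Lb.r r418 (@Lb.r r296 (@Lb.r r409 (@Lb.d (nat_lit 154) (nat_lit 165) (nat_lit 521) (@Lb.fm (nat_lit 9) t3362))))))))))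
noncomputable def l34943 : Lb := (@Lb.r r323 (@Lb.d (nat_lit 130) (nat_lit 9) (nat_lit 1) (@Lb.g g8 (@Lb.g g9 (@Lb.g g10 (@Lb.r r2473 (@Lb.r r339 (@Lb.r r646 (@Lb.r r72 (@Lb.d (nat_lit 530) (nat_lit 64) (nat_lit 345) (@Lb.t (@Lb.fp (nat_lit 9) t2301))))))))))))
noncomputable def l34944 : Lb := (@Lb.r r21 (@Lb.r r263 (@Lb.d (nat_lit 2) (nat_lit 256) (nat_lit 2) (@Lb.g g8 (@Lb.g g10 (@Lb.r r2438 (@Lb.r r1351 (@Lb.r r404 (@Lb.r r25 (@Lb.d (nat_lit 10) (nat_lit 17) (nat_lit 545) (@Lb.fp (nat_lit 3) t898)))))))))))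
noncomputable def l34945 : Lb := (@Lb.d (nat_lit 32) (nat_lit 514) (nat_lit 2) (@Lb.g g9 (@Lb.g g10 (@Lb.r r1555 (@Lb.r r293 (@Lb.r r72 (@Lb.r r150 (@Lb.d (nat_lit 518) (nat_lit 10) (nat_lit 384) (@Lb.fm (nat_lit 3) t88)))))))))
noncomputable def l34946 : Lb := (@Lb.d (nat_lit 1) (nat_lit 2) (nat_lit 130) (@Lb.g g8 (@Lb.g g9 (@Lb.g g10 (@Lb.g g11 (@Lb.r r1443 (@Lb.r r297 (@Lb.r r104 (@Lb.r r70 (@Lb.r r132 (@Lb.d (nat_lit 545) (nat_lit 5) (nat_lit 402) (@Lb.fp (nat_lit 9) t88))))))))))))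
noncomputable def l34947 : Lb := (@Lb.d (nat_lit 2) (nat_lit 258) (nat_lit 130) (@Lb.g g8 (@Lb.g g9 (@Lb.g g10 (@Lb.g g11 (@Lb.r r2722 (@Lb.r r2600 (@Lb.r r2713 (@Lb.r r1555 (@Lb.d (nat_lit 661) (nat_lit 72) (nat_lit 617) (@Lb.fm (nat_lit 9) t1371)))))))))))
noncomputable def l34948 : Lb := (@Lb.d (nat_lit 2) (nat_lit 38) (nat_lit 128) (@Lb.g g8 (@Lb.g g9 (@Lb.g g10 (@Lb.g g11 (@Lb.r r387 (@Lb.r r386 (@Lb.r r1561 (@Lb.r r24 (@Lb.d (nat_lit 680) (nat_lit 128) (nat_lit 673) (@Lb.fp (nat_lit 9) t3900)))))))))))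
noncomputable def l34949 : Lb := (@Lb.d (nat_lit 41) (nat_lit 256) (nat_lit 0) (@Lb.g g8 (@Lb.r r2453 (@Lb.r r619 (@Lb.r r1430 (@Lb.r r1384 (@Lb.d (nat_lit 676) (nat_lit 165) (nat_lit 133) (@Lb.t (@Lb.fm (nat_lit 3) t3065)))))))))
noncomputable def l34950 : Lb := (@Lb.d (nat_lit 32) (nat_lit 256) (nat_lit 130) (@Lb.g g9 (@Lb.g g10 (@Lb.g g11 (@Lb.r r2695 (@Lb.r r2341 (@Lb.r r1352 (@Lb.r r2710 (@Lb.d (nat_lit 677) (nat_lit 165) (nat_lit 96) (@Lb.t (@Lb.fm (nat_lit 9) t242)))))))))))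
noncomputable def l34951 : Lb := (@Lb.d (nat_lit 0) (nat_lit 261) (nat_lit 0) (@Lb.g g8 (@Lb.g g5 (@Lb.d (nat_lit 5) (nat_lit 1) (nat_lit 1) (@Lb.fp (nat_lit 3) t285)))))
noncomputable def l34952 : Lb := (@Lb.r r323 (@Lb.d (nat_lit 138) (nat_lit 0) (nat_lit 32) (@Lb.g g8 (@Lb.g g10 (@Lb.r r615 (@Lb.r r533 (@Lb.r r2340 (@Lb.d (nat_lit 586) (nat_lit 105) (nat_lit 657) (@Lb.fp (nat_lit 3) t386)))))))))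
noncomputable def l34953 : Lb := (@Lb.d (nat_lit 0) (nat_lit 5) (nat_lit 0) (@Lb.g g5 (@Lb.d (nat_lit 6) (nat_lit 1) (nat_lit 1) (@Lb.t (@Lb.fm (nat_lit 3) t285)))))
noncomputable def l34954 : Lb := (@Lb.d (nat_lit 16) (nat_lit 2) (nat_lit 128) (@Lb.g g8 (@Lb.g g9 (@Lb.g g10 (@Lb.g g11 (@Lb.r r1675 (@Lb.r r164 (@Lb.r r421 (@Lb.r r102 (@Lb.r r1156 (@Lb.d (nat_lit 266) (nat_lit 130) (nat_lit 426) (@Lb.fp (nat_lit 9) t1549))))))))))))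
noncomputable def l34955 : Lb := (@Lb.d (nat_lit 0) (nat_lit 2) (nat_lit 0) (@Lb.g g9 (@Lb.g g10 (@Lb.r r2695 (@Lb.r r1606 (@Lb.r r2088 (@Lb.r r25 (@Lb.d (nat_lit 522) (nat_lit 26) (nat_lit 297) (@Lb.fm (nat_lit 3) t591)))))))))
noncomputable def l34956 : Lb := (@Lb.d (nat_lit 16) (nat_lit 258) (nat_lit 128) (@Lb.g g8 (@Lb.g g9 (@Lb.g g10 (@Lb.g g11 (@Lb.r r1675 (@Lb.r r164 (@Lb.r r421 (@Lb.r r102 (@Lb.r r1156 (@Lb.d (nat_lit 265) (nat_lit 130) (nat_lit 426) (@Lb.fp (nat_lit 9) t1549))))))))))))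
noncomputable def l34957 : Lb := (@Lb.d (nat_lit 0) (nat_lit 517) (nat_lit 0) (@Lb.g g5 (@Lb.d (nat_lit 0) (nat_lit 129) (nat_lit 1) (@Lb.t (@Lb.fm (nat_lit 3) t126)))))
noncomputable def l34958 : Lb := (@Lb.d (nat_lit 16) (nat_lit 514) (nat_lit 74) (@Lb.g g8 (@Lb.g g9 (@Lb.g g10 (@Lb.g g11 (@Lb.r r1675 (@Lb.r r164 (@Lb.r r421 (@Lb.r r102 (@Lb.r r1156 (@Lb.d (nat_lit 265) (nat_lit 130) (nat_lit 426) (@Lb.fp (nat_lit 9) t1549))))))))))))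
noncomputable def l34959 : Lb := (@Lb.d (nat_lit 650) (nat_lit 81) (nat_lit 0) (@Lb.r r1362 (@Lb.r r531 (@Lb.r r2337 (@Lb.g g7 (@Lb.g g4 (@Lb.d (nat_lit 8) (nat_lit 16) (nat_lit 128) (@Lb.fm (nat_lit 3) t4027))))))))
noncomputable def l34960 : Lb := (@Lb.r r263 (@Lb.d (nat_lit 33) (nat_lit 521) (nat_lit 0) (@Lb.g g8 (@Lb.g g9 (@Lb.g g10 (@Lb.r r1675 (@Lb.r r2217 (@Lb.r r2666 (@Lb.r r2084 (@Lb.d (nat_lit 665) (nat_lit 132) (nat_lit 597) (@Lb.t (@Lb.fm (nat_lit 9) t3876))))))))))))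
noncomputable def l34961 : Lb := (@Lb.r r323 (@Lb.d (nat_lit 137) (nat_lit 513) (nat_lit 2) (@Lb.g g8 (@Lb.g g9 (@Lb.g g10 (@Lb.r r1450 (@Lb.r r583 (@Lb.r r280 (@Lb.r r37 (@Lb.d (nat_lit 581) (nat_lit 161) (nat_lit 336) (@Lb.t (@Lb.fm (nat_lit 9) t3101))))))))))))
noncomputable def l34962 : Lb := (@Lb.r r323 (@Lb.d (nat_lit 136) (nat_lit 34) (nat_lit 0) (@Lb.g g8 (@Lb.g g9 (@Lb.g g10 (@Lb.r r1623 (@Lb.r r2146 (@Lb.r r1432 (@Lb.r r2149 (@Lb.d (nat_lit 533) (nat_lit 104) (nat_lit 130) (@Lb.t (@Lb.fp (nat_lit 9) t221))))))))))))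
noncomputable def l34963 : Lb := (@Lb.d (nat_lit 128) (nat_lit 258) (nat_lit 130) (@Lb.g g8 (@Lb.g g9 (@Lb.g g10 (@Lb.g g11 (@Lb.r r419 (@Lb.r r386 (@Lb.r r2405 (@Lb.r r536 (@Lb.d (nat_lit 678) (nat_lit 162) (nat_lit 361) (@Lb.fm (nat_lit 9) t2420)))))))))))
noncomputable def l34964 : Lb := (@Lb.r r323 (@Lb.d (nat_lit 137) (nat_lit 257) (nat_lit 2) (@Lb.g g8 (@Lb.g g9 (@Lb.g g10 (@Lb.r r1450 (@Lb.r r583 (@Lb.r r280 (@Lb.r r37 (@Lb.d (nat_lit 581) (nat_lit 161) (nat_lit 400) (@Lb.t (@Lb.fm (nat_lit 9) t2387))))))))))))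
noncomputable def l34965 : Lb := (@Lb.d (nat_lit 0) (nat_lit 264) (nat_lit 2) (@Lb.g g4 (@Lb.g g10 (@Lb.g g11 (@Lb.r r2439 (@Lb.d (nat_lit 96) (nat_lit 2) (nat_lit 594) (@Lb.t (@Lb.fp (nat_lit 9) t6216))))))))
noncomputable def l34966 : Lb := (@Lb.g g10 (@Lb.g g7 (@Lb.r r2641 (@Lb.r r354 (@Lb.d (nat_lit 0) (nat_lit 418) (nat_lit 21) (@Lb.fp (nat_lit 3) t761))))))
noncomputable def l34967 : Lb := (@Lb.r r331 (@Lb.d (nat_lit 1) (nat_lit 258) (nat_lit 0) (@Lb.g g8 (@Lb.g g9 (@Lb.g g10 (@Lb.r r2459 (@Lb.r r1177 (@Lb.r r1626 (@Lb.r r2072 (@Lb.d (nat_lit 534) (nat_lit 72) (nat_lit 84) (@Lb.t (@Lb.fp (nat_lit 9) t212))))))))))))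
noncomputable def l34968 : Lb := (@Lb.d (nat_lit 2) (nat_lit 2) (nat_lit 74) (@Lb.g g8 (@Lb.g g9 (@Lb.g g10 (@Lb.g g11 (@Lb.r r264 (@Lb.r r2455 (@Lb.r r2193 (@Lb.r r2642 (@Lb.r r132 (@Lb.d (nat_lit 360) (nat_lit 37) (nat_lit 68) (@Lb.fm (nat_lit 9) t91))))))))))))
noncomputable def l34969 : Lb := (@Lb.d (nat_lit 1) (nat_lit 514) (nat_lit 74) (@Lb.g g8 (@Lb.g g9 (@Lb.g g10 (@Lb.g g11 (@Lb.r r264 (@Lb.r r2455 (@Lb.r r2193 (@Lb.r r2642 (@Lb.r r132 (@Lb.d (nat_lit 360) (nat_lit 32) (nat_lit 70) (@Lb.fm (nat_lit 9) t91))))))))))))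
noncomputable def l34970 : Lb := (@Lb.d (nat_lit 2) (nat_lit 258) (nat_lit 74) (@Lb.g g8 (@Lb.g g9 (@Lb.g g10 (@Lb.g g11 (@Lb.r r264 (@Lb.r r2455 (@Lb.r r2193 (@Lb.r r2642 (@Lb.r r132 (@Lb.d (nat_lit 360) (nat_lit 32) (nat_lit 70) (@Lb.fm (nat_lit 9) t91))))))))))))
noncomputable def l34971 : Lb := (@Lb.d (nat_lit 16) (nat_lit 514) (nat_lit 0) (@Lb.g g8 (@Lb.g g9 (@Lb.g g10 (@Lb.g g11 (@Lb.r r680 (@Lb.r r1451 (@Lb.r r2474 (@Lb.r r2201 (@Lb.r r2180 (@Lb.d (nat_lit 512) (nat_lit 66) (nat_lit 384) (@Lb.fp (nat_lit 9) t148))))))))))))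
noncomputable def l34972 : Lb := (@Lb.d (nat_lit 2) (nat_lit 1) (nat_lit 2) (@Lb.g g8 (@Lb.g g9 (@Lb.g g10 (@Lb.g g11 (@Lb.r r363 (@Lb.r r386 (@Lb.r r1121 (@Lb.r r24 (@Lb.d (nat_lit 266) (nat_lit 137) (nat_lit 102) (@Lb.fm (nat_lit 9) t61)))))))))))
noncomputable def l34973 : Lb := (@Lb.r r322 (@Lb.d (nat_lit 8) (nat_lit 546) (nat_lit 516) (@Lb.g g9 (@Lb.g g7 (@Lb.r r426 (@Lb.r r532 (@Lb.r r361 (@Lb.d (nat_lit 608) (nat_lit 74) (nat_lit 6) (@Lb.fp (nat_lit 3) t792)))))))))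
noncomputable def l34974 : Lb := (@Lb.d (nat_lit 522) (nat_lit 522) (nat_lit 97) (@Lb.r r150 (@Lb.r r360 (@Lb.r r2145 (@Lb.r r2407 (@Lb.g g7 (@Lb.g g6 (@Lb.g g4 (@Lb.d (nat_lit 1) (nat_lit 0) (nat_lit 64) (@Lb.t (@Lb.fm (nat_lit 9) t1573)))))))))))
noncomputable def l34975 : Lb := (@Lb.d (nat_lit 128) (nat_lit 258) (nat_lit 644) (@Lb.g g9 (@Lb.g g11 (@Lb.r r2178 (@Lb.r r424 (@Lb.r r25 (@Lb.d (nat_lit 104) (nat_lit 41) (nat_lit 656) (@Lb.fm (nat_lit 3) t2607))))))))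
noncomputable def l34976 : Lb := (@Lb.d (nat_lit 26) (nat_lit 1) (nat_lit 137) (@Lb.g g8 (@Lb.g g9 (@Lb.g g10 (@Lb.g g11 (@Lb.r r578 (@Lb.r r579 (@Lb.r r2212 (@Lb.r r37 (@Lb.d (nat_lit 582) (nat_lit 136) (nat_lit 617) (@Lb.fp (nat_lit 9) t4622)))))))))))
noncomputable def l34977 : Lb := (@Lb.d (nat_lit 81) (nat_lit 256) (nat_lit 400) (@Lb.r r21 (@Lb.r r2371 (@Lb.r r646 (@Lb.g g7 (@Lb.g g6 (@Lb.g g8 (@Lb.d (nat_lit 576) (nat_lit 0) (nat_lit 65) (@Lb.r r25 (@Lb.t (@Lb.fp (nat_lit 9) t4622)))))))))))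
noncomputable def l34978 : Lb := (@Lb.d (nat_lit 8) (nat_lit 257) (nat_lit 130) (@Lb.g g8 (@Lb.g g9 (@Lb.g g10 (@Lb.g g11 (@Lb.r r427 (@Lb.r r420 (@Lb.r r2197 (@Lb.r r2454 (@Lb.r r36 (@Lb.d (nat_lit 617) (nat_lit 33) (nat_lit 277) (@Lb.fm (nat_lit 9) t790))))))))))))
noncomputable def l34979 : Lb := (@Lb.r r82 (@Lb.d (nat_lit 2) (nat_lit 513) (nat_lit 136) (@Lb.g g8 (@Lb.g g9 (@Lb.g g11 (@Lb.r r1642 (@Lb.r r2644 (@Lb.r r1321 (@Lb.r r411 (@Lb.d (nat_lit 361) (nat_lit 90) (nat_lit 544) (@Lb.t (@Lb.fp (nat_lit 9) t394))))))))))))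
noncomputable def l34980 : Lb := (@Lb.d (nat_lit 2) (nat_lit 262) (nat_lit 72) (@Lb.g g8 (@Lb.g g9 (@Lb.g g10 (@Lb.g g11 (@Lb.r r1691 (@Lb.r r1684 (@Lb.r r1190 (@Lb.r r529 (@Lb.d (nat_lit 360) (nat_lit 80) (nat_lit 386) (@Lb.fp (nat_lit 9) t152)))))))))))
noncomputable def l34981 : Lb := (@Lb.d (nat_lit 641) (nat_lit 544) (nat_lit 66) (@Lb.g g8 (@Lb.g g10 (@Lb.g g11 (@Lb.r r2646 (@Lb.r r1429 (@Lb.r r1643 (@Lb.d (nat_lit 81) (nat_lit 153) (nat_lit 514) (@Lb.t (@Lb.fp (nat_lit 9) t329))))))))))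
noncomputable def l34982 : Lb := (@Lb.d (nat_lit 0) (nat_lit 256) (nat_lit 128) (@Lb.g g11 (@Lb.r r1602 (@Lb.r r579 (@Lb.r r1412 (@Lb.d (nat_lit 352) (nat_lit 0) (nat_lit 512) (@Lb.t (@Lb.fm (nat_lit 3) t6217))))))))
noncomputable def l34983 : Lb := (@Lb.d (nat_lit 96) (nat_lit 258) (nat_lit 5) (@Lb.g g8 (@Lb.g g9 (@Lb.g g10 (@Lb.g g11 (@Lb.r r1691 (@Lb.r r1156 (@Lb.r r678 (@Lb.r r97 (@Lb.d (nat_lit 9) (nat_lit 90) (nat_lit 153) (@Lb.fm (nat_lit 9) t19)))))))))))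
noncomputable def l34984 : Lb := (@Lb.d (nat_lit 2) (nat_lit 258) (nat_lit 66) (@Lb.g g8 (@Lb.g g9 (@Lb.g g10 (@Lb.g g7 (@Lb.r r386 (@Lb.r r104 (@Lb.r r25 (@Lb.d (nat_lit 512) (nat_lit 90) (nat_lit 345) (@Lb.fm (nat_lit 9) t845))))))))))
noncomputable def l34985 : Lb := (@Lb.d (nat_lit 5) (nat_lit 134) (nat_lit 22) (@Lb.r r597 (@Lb.r r2730 (@Lb.r r2468 (@Lb.g g11 (@Lb.g g6 (@Lb.g g5 (@Lb.d (nat_lit 4) (nat_lit 6) (nat_lit 129) (@Lb.t (@Lb.fp (nat_lit 9) t61))))))))))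
noncomputable def l34986 : Lb := (@Lb.d (nat_lit 5) (nat_lit 390) (nat_lit 86) (@Lb.r r597 (@Lb.r r2730 (@Lb.r r2468 (@Lb.g g11 (@Lb.g g6 (@Lb.g g5 (@Lb.d (nat_lit 4) (nat_lit 6) (nat_lit 6) (@Lb.t (@Lb.fp (nat_lit 9) t61))))))))))
noncomputable def l34987 : Lb := (@Lb.d (nat_lit 32) (nat_lit 550) (nat_lit 0) (@Lb.g g8 (@Lb.g g9 (@Lb.r r150 (@Lb.r r340 (@Lb.d (nat_lit 24) (nat_lit 166) (nat_lit 6) (@Lb.fp (nat_lit 3) t240)))))))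
noncomputable def l34988 : Lb := (@Lb.d (nat_lit 10) (nat_lit 0) (nat_lit 0) (@Lb.g g8 (@Lb.r r149 (@Lb.r r402 (@Lb.r r2436 (@Lb.d (nat_lit 610) (nat_lit 164) (nat_lit 256) (@Lb.t (@Lb.fm (nat_lit 3) t652))))))))
noncomputable def l34989 : Lb := (@Lb.d (nat_lit 17) (nat_lit 513) (nat_lit 2) (@Lb.g g8 (@Lb.g g9 (@Lb.g g10 (@Lb.r r2666 (@Lb.r r1641 (@Lb.r r619 (@Lb.r r584 (@Lb.d (nat_lit 361) (nat_lit 65) (nat_lit 402) (@Lb.t (@Lb.fp (nat_lit 9) t320)))))))))))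
noncomputable def l34990 : Lb := (@Lb.r r20 (@Lb.r r82 (@Lb.d (nat_lit 8) (nat_lit 293) (nat_lit 0) (@Lb.g g5 (@Lb.g g11 (@Lb.r r1174 (@Lb.r r2632 (@Lb.r r2315 (@Lb.d (nat_lit 386) (nat_lit 1) (nat_lit 389) (@Lb.fp (nat_lit 3) t68))))))))))
noncomputable def l34991 : Lb := (@Lb.g g8 (@Lb.g g7 (@Lb.r r593 (@Lb.r r1303 (@Lb.r r1414 (@Lb.r r2600 (@Lb.r r153 (@Lb.d (nat_lit 1) (nat_lit 536) (nat_lit 297) (@Lb.fp (nat_lit 3) t591)))))))))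
noncomputable def l34992 : Lb := (@Lb.r r21 (@Lb.d (nat_lit 4) (nat_lit 0) (nat_lit 74) (@Lb.g g8 (@Lb.g g10 (@Lb.g g11 (@Lb.r r618 (@Lb.r r579 (@Lb.r r25 (@Lb.d (nat_lit 9) (nat_lit 33) (nat_lit 74) (@Lb.t (@Lb.fp (nat_lit 9) t51)))))))))))
noncomputable def l34993 : Lb := (@Lb.r r21 (@Lb.d (nat_lit 152) (nat_lit 256) (nat_lit 0) (@Lb.g g8 (@Lb.g g10 (@Lb.r r1178 (@Lb.r r613 (@Lb.r r679 (@Lb.r r344 (@Lb.d (nat_lit 420) (nat_lit 166) (nat_lit 417) (@Lb.fm (nat_lit 3) t1549))))))))))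
noncomputable def l34994 : Lb := (@Lb.d (nat_lit 516) (nat_lit 513) (nat_lit 26) (@Lb.r r154 (@Lb.r r404 (@Lb.r r363 (@Lb.r r353 (@Lb.g g7 (@Lb.g g6 (@Lb.g g4 (@Lb.d (nat_lit 5) (nat_lit 4) (nat_lit 65) (@Lb.t (@Lb.fp (nat_lit 9) t334)))))))))))
noncomputable def l34995 : Lb := (@Lb.r r21 (@Lb.d (nat_lit 4) (nat_lit 512) (nat_lit 10) (@Lb.g g8 (@Lb.g g10 (@Lb.g g11 (@Lb.r r618 (@Lb.r r579 (@Lb.r r25 (@Lb.d (nat_lit 9) (nat_lit 33) (nat_lit 5) (@Lb.t (@Lb.fp (nat_lit 9) t51)))))))))))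
noncomputable def l34996 : Lb := (@Lb.r r21 (@Lb.d (nat_lit 4) (nat_lit 256) (nat_lit 74) (@Lb.g g8 (@Lb.g g10 (@Lb.g g11 (@Lb.r r618 (@Lb.r r579 (@Lb.r r25 (@Lb.d (nat_lit 9) (nat_lit 33) (nat_lit 5) (@Lb.t (@Lb.fp (nat_lit 9) t51)))))))))))
noncomputable def l34997 : Lb := (@Lb.r r70 (@Lb.d (nat_lit 129) (nat_lit 257) (nat_lit 128) (@Lb.g g8 (@Lb.g g9 (@Lb.g g11 (@Lb.r r2585 (@Lb.r r1563 (@Lb.r r2438 (@Lb.r r2648 (@Lb.d (nat_lit 388) (nat_lit 170) (nat_lit 345) (@Lb.t (@Lb.fp (nat_lit 9) t4))))))))))))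
noncomputable def l34998 : Lb := (@Lb.d (nat_lit 290) (nat_lit 256) (nat_lit 34) (@Lb.r r20 (@Lb.r r2137 (@Lb.r r323 (@Lb.g g10 (@Lb.g g4 (@Lb.d (nat_lit 1) (nat_lit 4) (nat_lit 2) (@Lb.r r387 (@Lb.r r145 (@Lb.fp (nat_lit 3) t5))))))))))
noncomputable def l34999 : Lb := (@Lb.d (nat_lit 37) (nat_lit 576) (nat_lit 34) (@Lb.r r1064 (@Lb.r r2217 (@Lb.r r323 (@Lb.g g10 (@Lb.g g4 (@Lb.d (nat_lit 0) (nat_lit 4) (nat_lit 2) (@Lb.r r387 (@Lb.r r145 (@Lb.fp (nat_lit 3) t5))))))))))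
noncomputable def l35000 : Lb := (@Lb.r r21 (@Lb.d (nat_lit 2) (nat_lit 0) (nat_lit 66) (@Lb.g g8 (@Lb.g g10 (@Lb.g g7 (@Lb.r r386 (@Lb.r r149 (@Lb.r r72 (@Lb.d (nat_lit 546) (nat_lit 80) (nat_lit 345) (@Lb.t (@Lb.fp (nat_lit 9) t845)))))))))))
noncomputable def l35001 : Lb := (@Lb.r r21 (@Lb.d (nat_lit 645) (nat_lit 0) (nat_lit 66) (@Lb.g g8 (@Lb.g g10 (@Lb.g g11 (@Lb.r r1451 (@Lb.r r106 (@Lb.r r25 (@Lb.d (nat_lit 0) (nat_lit 73) (nat_lit 425) (@Lb.t (@Lb.fm (nat_lit 9) t842)))))))))))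
noncomputable def l35002 : Lb := (@Lb.d (nat_lit 2) (nat_lit 10) (nat_lit 136) (@Lb.g g8 (@Lb.g g9 (@Lb.g g11 (@Lb.r r86 (@Lb.r r424 (@Lb.r r279 (@Lb.r r545 (@Lb.d (nat_lit 610) (nat_lit 18) (nat_lit 666) (@Lb.t (@Lb.fm (nat_lit 9) t698)))))))))))
noncomputable def l35003 : Lb := (@Lb.r r21 (@Lb.d (nat_lit 645) (nat_lit 520) (nat_lit 66) (@Lb.g g8 (@Lb.g g10 (@Lb.g g11 (@Lb.r r101 (@Lb.r r1690 (@Lb.r r1411 (@Lb.d (nat_lit 329) (nat_lit 162) (nat_lit 298) (@Lb.t (@Lb.fm (nat_lit 9) t2504)))))))))))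
noncomputable def l35004 : Lb := (@Lb.d (nat_lit 34) (nat_lit 513) (nat_lit 0) (@Lb.g g8 (@Lb.g g9 (@Lb.r r2667 (@Lb.r r1186 (@Lb.r r1065 (@Lb.r r1128 (@Lb.d (nat_lit 528) (nat_lit 9) (nat_lit 17) (@Lb.fm (nat_lit 3) t2815)))))))))
noncomputable def l35005 : Lb := (@Lb.d (nat_lit 149) (nat_lit 320) (nat_lit 128) (@Lb.g g8 (@Lb.g g9 (@Lb.g g10 (@Lb.g g11 (@Lb.r r387 (@Lb.r r1130 (@Lb.r r1060 (@Lb.d (nat_lit 81) (nat_lit 130) (nat_lit 9) (@Lb.fp (nat_lit 9) t3200))))))))))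
noncomputable def l35006 : Lb := (@Lb.r r21 (@Lb.d (nat_lit 17) (nat_lit 256) (nat_lit 74) (@Lb.g g8 (@Lb.g g10 (@Lb.g g11 (@Lb.r r2707 (@Lb.r r2442 (@Lb.r r97 (@Lb.r r1432 (@Lb.d (nat_lit 614) (nat_lit 129) (nat_lit 394) (@Lb.t (@Lb.fm (nat_lit 9) t3482))))))))))))
noncomputable def l35007 : Lb := (@Lb.d (nat_lit 401) (nat_lit 150) (nat_lit 2) (@Lb.r r24 (@Lb.r r81 (@Lb.r r1442 (@Lb.g g11 (@Lb.g g6 (@Lb.g g5 (@Lb.d (nat_lit 0) (nat_lit 1) (nat_lit 1) (@Lb.t (@Lb.fm (nat_lit 9) t6218))))))))))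
noncomputable def l35008 : Lb := (@Lb.d (nat_lit 274) (nat_lit 390) (nat_lit 662) (@Lb.r r24 (@Lb.r r1177 (@Lb.r r386 (@Lb.r r1451 (@Lb.g g7 (@Lb.g g6 (@Lb.g g5 (@Lb.d (nat_lit 0) (nat_lit 32) (nat_lit 1) (@Lb.t (@Lb.fp (nat_lit 9) t1884)))))))))))
noncomputable def l35009 : Lb := (@Lb.r r24 (@Lb.r r101 (@Lb.d (nat_lit 273) (nat_lit 600) (nat_lit 282) (@Lb.fp (nat_lit 1) t3106))))
noncomputable def l35010 : Lb := (@Lb.d (nat_lit 144) (nat_lit 8) (nat_lit 130) (@Lb.g g8 (@Lb.g g9 (@Lb.g g10 (@Lb.g g11 (@Lb.r r419 (@Lb.r r1188 (@Lb.r r2469 (@Lb.r r2662 (@Lb.d (nat_lit 405) (nat_lit 153) (nat_lit 680) (@Lb.fm (nat_lit 9) t3876)))))))))))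
noncomputable def l35011 : Lb := (@Lb.r r323 (@Lb.d (nat_lit 138) (nat_lit 520) (nat_lit 34) (@Lb.g g8 (@Lb.g g10 (@Lb.r r615 (@Lb.r r533 (@Lb.r r2340 (@Lb.d (nat_lit 329) (nat_lit 105) (nat_lit 534) (@Lb.fp (nat_lit 3) t221)))))))))
noncomputable def l35012 : Lb := (@Lb.d (nat_lit 146) (nat_lit 521) (nat_lit 66) (@Lb.g g8 (@Lb.g g9 (@Lb.g g10 (@Lb.g g11 (@Lb.r r356 (@Lb.r r1627 (@Lb.r r345 (@Lb.r r166 (@Lb.r r2068 (@Lb.d (nat_lit 354) (nat_lit 138) (nat_lit 424) (@Lb.fp (nat_lit 9) t6219))))))))))))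
noncomputable def l35013 : Lb := (@Lb.d (nat_lit 550) (nat_lit 681) (nat_lit 658) (@Lb.r r72 (@Lb.r r1065 (@Lb.r r418 (@Lb.g g11 (@Lb.g g6 (@Lb.g g5 (@Lb.g g4 (@Lb.d (nat_lit 25) (nat_lit 25) (nat_lit 394) (@Lb.fp (nat_lit 9) t1349))))))))))
noncomputable def l35014 : Lb := (@Lb.r r322 (@Lb.d (nat_lit 0) (nat_lit 16) (nat_lit 128) (@Lb.g g11 (@Lb.r r1377 (@Lb.r r2198 (@Lb.r r2628 (@Lb.d (nat_lit 89) (nat_lit 2) (nat_lit 170) (@Lb.t (@Lb.fp (nat_lit 3) t4471)))))))))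
noncomputable def l35015 : Lb := (@Lb.r r323 (@Lb.d (nat_lit 32) (nat_lit 512) (nat_lit 2) (@Lb.g g10 (@Lb.r r2453 (@Lb.r r1315 (@Lb.r r2648 (@Lb.d (nat_lit 70) (nat_lit 80) (nat_lit 73) (@Lb.t (@Lb.fm (nat_lit 3) t6220)))))))))
noncomputable def l35016 : Lb := (@Lb.r r21 (@Lb.d (nat_lit 130) (nat_lit 512) (nat_lit 258) (@Lb.g g8 (@Lb.g g10 (@Lb.g g7 (@Lb.r r425 (@Lb.r r106 (@Lb.r r1060 (@Lb.d (nat_lit 601) (nat_lit 102) (nat_lit 354) (@Lb.t (@Lb.fm (nat_lit 9) t1470)))))))))))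
noncomputable def l35017 : Lb := (@Lb.d (nat_lit 9) (nat_lit 32) (nat_lit 66) (@Lb.g g8 (@Lb.g g9 (@Lb.g g10 (@Lb.g g11 (@Lb.r r2312 (@Lb.r r2727 (@Lb.r r1378 (@Lb.r r2577 (@Lb.d (nat_lit 354) (nat_lit 9) (nat_lit 672) (@Lb.fp (nat_lit 9) t4925)))))))))))
noncomputable def l35018 : Lb := (@Lb.d (nat_lit 657) (nat_lit 70) (nat_lit 290) (@Lb.r r2641 (@Lb.r r603 (@Lb.r r516 (@Lb.g g7 (@Lb.g g6 (@Lb.d (nat_lit 80) (nat_lit 0) (nat_lit 97) (@Lb.fp (nat_lit 3) t6221))))))))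
noncomputable def l35019 : Lb := (@Lb.d (nat_lit 0) (nat_lit 280) (nat_lit 585) (@Lb.g g10 (@Lb.g g7 (@Lb.d (nat_lit 608) (nat_lit 74) (nat_lit 678) (@Lb.fp (nat_lit 3) t171)))))
noncomputable def l35020 : Lb := (@Lb.d (nat_lit 40) (nat_lit 514) (nat_lit 130) (@Lb.g g9 (@Lb.g g10 (@Lb.g g11 (@Lb.r r1352 (@Lb.r r2567 (@Lb.r r2386 (@Lb.r r1177 (@Lb.d (nat_lit 326) (nat_lit 82) (nat_lit 354) (@Lb.t (@Lb.fm (nat_lit 9) t1639)))))))))))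
noncomputable def l35021 : Lb := (@Lb.r r82 (@Lb.d (nat_lit 402) (nat_lit 258) (nat_lit 128) (@Lb.g g8 (@Lb.g g9 (@Lb.g g11 (@Lb.r r2475 (@Lb.r r386 (@Lb.r r1049 (@Lb.d (nat_lit 521) (nat_lit 21) (nat_lit 321) (@Lb.t (@Lb.fp (nat_lit 9) t6222)))))))))))
noncomputable def l35022 : Lb := (@Lb.r r323 (@Lb.d (nat_lit 0) (nat_lit 264) (nat_lit 34) (@Lb.g g4 (@Lb.g g10 (@Lb.r r2659 (@Lb.d (nat_lit 613) (nat_lit 154) (nat_lit 9) (@Lb.fm (nat_lit 3) t1554)))))))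
noncomputable def l35023 : Lb := (@Lb.r r580 (@Lb.d (nat_lit 16) (nat_lit 537) (nat_lit 21) (@Lb.g g9 (@Lb.g g10 (@Lb.g g11 (@Lb.r r2331 (@Lb.r r153 (@Lb.r r1048 (@Lb.d (nat_lit 165) (nat_lit 102) (nat_lit 42) (@Lb.t (@Lb.fp (nat_lit 9) t5937)))))))))))
noncomputable def l35024 : Lb := (@Lb.d (nat_lit 9) (nat_lit 513) (nat_lit 130) (@Lb.g g8 (@Lb.g g9 (@Lb.g g10 (@Lb.g g11 (@Lb.r r427 (@Lb.r r424 (@Lb.r r106 (@Lb.r r25 (@Lb.d (nat_lit 361) (nat_lit 2) (nat_lit 649) (@Lb.fm (nat_lit 9) t1306)))))))))))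
noncomputable def l35025 : Lb := (@Lb.d (nat_lit 0) (nat_lit 2) (nat_lit 66) (@Lb.g g4 (@Lb.g g9 (@Lb.g g10 (@Lb.g g11 (@Lb.r r1547 (@Lb.r r2438 (@Lb.r r2657 (@Lb.d (nat_lit 676) (nat_lit 90) (nat_lit 345) (@Lb.fp (nat_lit 9) t6223))))))))))
noncomputable def l35026 : Lb := (@Lb.r r21 (@Lb.r r331 (@Lb.d (nat_lit 32) (nat_lit 256) (nat_lit 4) (@Lb.g g8 (@Lb.g g6 (@Lb.r r2651 (@Lb.r r2337 (@Lb.r r84 (@Lb.d (nat_lit 545) (nat_lit 98) (nat_lit 658) (@Lb.fp (nat_lit 3) t4226))))))))))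
noncomputable def l35027 : Lb := (@Lb.r r331 (@Lb.d (nat_lit 32) (nat_lit 34) (nat_lit 2) (@Lb.g g8 (@Lb.g g9 (@Lb.g g10 (@Lb.r r595 (@Lb.r r1313 (@Lb.r r516 (@Lb.d (nat_lit 673) (nat_lit 164) (nat_lit 388) (@Lb.t (@Lb.fm (nat_lit 9) t4961)))))))))))
noncomputable def l35028 : Lb := (@Lb.d (nat_lit 154) (nat_lit 256) (nat_lit 386) (@Lb.g g8 (@Lb.g g10 (@Lb.g g11 (@Lb.r r657 (@Lb.r r1178 (@Lb.r r388 (@Lb.d (nat_lit 137) (nat_lit 170) (nat_lit 354) (@Lb.t (@Lb.fp (nat_lit 9) t3299))))))))))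
noncomputable def l35029 : Lb := (@Lb.d (nat_lit 153) (nat_lit 532) (nat_lit 72) (@Lb.g g8 (@Lb.g g9 (@Lb.g g10 (@Lb.g g11 (@Lb.r r2691 (@Lb.r r1434 (@Lb.r r297 (@Lb.r r1060 (@Lb.d (nat_lit 324) (nat_lit 164) (nat_lit 68) (@Lb.fm (nat_lit 9) t6224)))))))))))
noncomputable def l35030 : Lb := (@Lb.r r580 (@Lb.d (nat_lit 128) (nat_lit 514) (nat_lit 330) (@Lb.g g9 (@Lb.g g10 (@Lb.g g11 (@Lb.r r296 (@Lb.r r153 (@Lb.r r602 (@Lb.d (nat_lit 409) (nat_lit 100) (nat_lit 68) (@Lb.t (@Lb.fp (nat_lit 9) t367)))))))))))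
noncomputable def l35031 : Lb := (@Lb.d (nat_lit 8) (nat_lit 257) (nat_lit 130) (@Lb.g g8 (@Lb.g g9 (@Lb.g g10 (@Lb.g g11 (@Lb.r r610 (@Lb.r r1607 (@Lb.r r2457 (@Lb.r r2436 (@Lb.d (nat_lit 666) (nat_lit 2) (nat_lit 409) (@Lb.fm (nat_lit 9) t2487)))))))))))
noncomputable def l35032 : Lb := (@Lb.r r21 (@Lb.d (nat_lit 145) (nat_lit 512) (nat_lit 128) (@Lb.g g8 (@Lb.g g10 (@Lb.g g11 (@Lb.r r387 (@Lb.r r1444 (@Lb.r r101 (@Lb.r r2450 (@Lb.d (nat_lit 0) (nat_lit 161) (nat_lit 550) (@Lb.t (@Lb.fm (nat_lit 9) t2605))))))))))))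
noncomputable def l35033 : Lb := (@Lb.d (nat_lit 129) (nat_lit 0) (nat_lit 320) (@Lb.r r2132 (@Lb.r r1642 (@Lb.r r2665 (@Lb.r r616 (@Lb.g g7 (@Lb.d (nat_lit 0) (nat_lit 0) (nat_lit 68) (@Lb.t (@Lb.fm (nat_lit 3) t958)))))))))
noncomputable def l35034 : Lb := (@Lb.d (nat_lit 128) (nat_lit 516) (nat_lit 128) (@Lb.g g8 (@Lb.g g9 (@Lb.g g10 (@Lb.g g11 (@Lb.r r1706 (@Lb.r r1451 (@Lb.r r345 (@Lb.r r1176 (@Lb.d (nat_lit 90) (nat_lit 65) (nat_lit 586) (@Lb.fp (nat_lit 9) t6225)))))))))))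
noncomputable def l35035 : Lb := (@Lb.d (nat_lit 129) (nat_lit 256) (nat_lit 352) (@Lb.r r154 (@Lb.r r101 (@Lb.r r1304 (@Lb.g g7 (@Lb.g g6 (@Lb.d (nat_lit 64) (nat_lit 32) (nat_lit 576) (@Lb.fp (nat_lit 3) t1666))))))))
noncomputable def l35036 : Lb := (@Lb.d (nat_lit 1) (nat_lit 0) (nat_lit 128) (@Lb.g g8 (@Lb.g g11 (@Lb.r r138 (@Lb.r r2724 (@Lb.r r2567 (@Lb.r r289 (@Lb.d (nat_lit 165) (nat_lit 170) (nat_lit 678) (@Lb.fp (nat_lit 3) t6226)))))))))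
noncomputable def l35037 : Lb := (@Lb.r r260 (@Lb.r r273 (@Lb.d (nat_lit 0) (nat_lit 260) (nat_lit 534) (@Lb.g g6 (@Lb.g g11 (@Lb.r r2661 (@Lb.r r1048 (@Lb.d (nat_lit 384) (nat_lit 90) (nat_lit 256) (@Lb.fp (nat_lit 3) t3139)))))))))
noncomputable def l35038 : Lb := (@Lb.r r21 (@Lb.d (nat_lit 161) (nat_lit 0) (nat_lit 128) (@Lb.g g8 (@Lb.g g11 (@Lb.r r1430 (@Lb.r r363 (@Lb.r r2408 (@Lb.r r25 (@Lb.d (nat_lit 36) (nat_lit 106) (nat_lit 593) (@Lb.fm (nat_lit 3) t6227))))))))))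
noncomputable def l35039 : Lb := (@Lb.r r322 (@Lb.d (nat_lit 41) (nat_lit 513) (nat_lit 576) (@Lb.g g8 (@Lb.g g9 (@Lb.g g7 (@Lb.r r361 (@Lb.r r150 (@Lb.r r84 (@Lb.d (nat_lit 22) (nat_lit 150) (nat_lit 585) (@Lb.t (@Lb.fp (nat_lit 9) t259)))))))))))
noncomputable def l35040 : Lb := (@Lb.r r346 (@Lb.d (nat_lit 129) (nat_lit 385) (nat_lit 516) (@Lb.g g8 (@Lb.g g5 (@Lb.g g7 (@Lb.r r2456 (@Lb.r r410 (@Lb.d (nat_lit 528) (nat_lit 73) (nat_lit 129) (@Lb.t (@Lb.fm (nat_lit 9) t6228))))))))))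
noncomputable def l35041 : Lb := (@Lb.d (nat_lit 516) (nat_lit 134) (nat_lit 80) (@Lb.r r24 (@Lb.r r2145 (@Lb.r r1643 (@Lb.g g10 (@Lb.g g4 (@Lb.d (nat_lit 1) (nat_lit 0) (nat_lit 2) (@Lb.r r387 (@Lb.fm (nat_lit 3) t4618)))))))))
noncomputable def l35042 : Lb := (@Lb.d (nat_lit 532) (nat_lit 424) (nat_lit 328) (@Lb.r r2138 (@Lb.r r1624 (@Lb.r r2587 (@Lb.g g6 (@Lb.g g9 (@Lb.g g4 (@Lb.d (nat_lit 32) (nat_lit 33) (nat_lit 1) (@Lb.t (@Lb.fm (nat_lit 9) t6229))))))))))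
noncomputable def l35043 : Lb := (@Lb.d (nat_lit 128) (nat_lit 2) (nat_lit 130) (@Lb.g g8 (@Lb.g g9 (@Lb.g g10 (@Lb.g g11 (@Lb.r r1706 (@Lb.r r1451 (@Lb.r r345 (@Lb.r r1176 (@Lb.d (nat_lit 90) (nat_lit 65) (nat_lit 586) (@Lb.fp (nat_lit 9) t6230)))))))))))
noncomputable def l35044 : Lb := (@Lb.d (nat_lit 98) (nat_lit 38) (nat_lit 4) (@Lb.g g8 (@Lb.g g9 (@Lb.g g10 (@Lb.g g11 (@Lb.r r2691 (@Lb.r r161 (@Lb.r r1638 (@Lb.r r2372 (@Lb.d (nat_lit 166) (nat_lit 164) (nat_lit 644) (@Lb.fp (nat_lit 9) t5466)))))))))))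
noncomputable def l35045 : Lb := (@Lb.r r1284 (@Lb.r r273 (@Lb.d (nat_lit 0) (nat_lit 516) (nat_lit 22) (@Lb.g g6 (@Lb.g g11 (@Lb.r r2661 (@Lb.r r295 (@Lb.d (nat_lit 324) (nat_lit 9) (nat_lit 0) (@Lb.fm (nat_lit 3) t6231)))))))))
noncomputable def l35046 : Lb := (@Lb.r r21 (@Lb.d (nat_lit 385) (nat_lit 256) (nat_lit 128) (@Lb.g g8 (@Lb.g g6 (@Lb.g g11 (@Lb.r r299 (@Lb.r r2337 (@Lb.d (nat_lit 581) (nat_lit 2) (nat_lit 512) (@Lb.t (@Lb.fm (nat_lit 9) t5359))))))))))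
noncomputable def l35047 : Lb := (@Lb.r r81 (@Lb.r r323 (@Lb.d (nat_lit 0) (nat_lit 8) (nat_lit 1) (@Lb.g g6 (@Lb.r r387 (@Lb.r r88 (@Lb.r r37 (@Lb.d (nat_lit 17) (nat_lit 152) (nat_lit 266) (@Lb.t (@Lb.fm (nat_lit 3) t6232))))))))))
noncomputable def l35048 : Lb := (@Lb.d (nat_lit 1) (nat_lit 36) (nat_lit 128) (@Lb.g g8 (@Lb.g g9 (@Lb.g g10 (@Lb.g g11 (@Lb.r r104 (@Lb.r r1350 (@Lb.r r2451 (@Lb.r r2597 (@Lb.r r2068 (@Lb.d (nat_lit 40) (nat_lit 132) (nat_lit 384) (@Lb.fp (nat_lit 9) t3999))))))))))))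
noncomputable def l35049 : Lb := (@Lb.d (nat_lit 2) (nat_lit 260) (nat_lit 64) (@Lb.g g8 (@Lb.g g9 (@Lb.g g10 (@Lb.g g7 (@Lb.r r386 (@Lb.r r100 (@Lb.r r21 (@Lb.r r36 (@Lb.d (nat_lit 33) (nat_lit 90) (nat_lit 329) (@Lb.fp (nat_lit 9) t6233)))))))))))
noncomputable def l35050 : Lb := (@Lb.d (nat_lit 2) (nat_lit 4) (nat_lit 128) (@Lb.g g8 (@Lb.g g9 (@Lb.g g10 (@Lb.g g11 (@Lb.r r2729 (@Lb.r r2475 (@Lb.r r2468 (@Lb.r r2438 (@Lb.d (nat_lit 614) (nat_lit 74) (nat_lit 657) (@Lb.fp (nat_lit 9) t3886)))))))))))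
noncomputable def l35051 : Lb := (@Lb.d (nat_lit 10) (nat_lit 616) (nat_lit 644) (@Lb.r r72 (@Lb.r r665 (@Lb.r r1442 (@Lb.g g11 (@Lb.g g6 (@Lb.g g5 (@Lb.g g4 (@Lb.d (nat_lit 36) (nat_lit 33) (nat_lit 389) (@Lb.fm (nat_lit 9) t5213))))))))))
noncomputable def l35052 : Lb := (@Lb.r r70 (@Lb.d (nat_lit 8) (nat_lit 513) (nat_lit 0) (@Lb.g g8 (@Lb.g g9 (@Lb.r r2409 (@Lb.r r1623 (@Lb.r r2452 (@Lb.r r2182 (@Lb.d (nat_lit 160) (nat_lit 145) (nat_lit 282) (@Lb.fp (nat_lit 3) t2389))))))))))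
noncomputable def l35053 : Lb := (@Lb.r r323 (@Lb.d (nat_lit 130) (nat_lit 34) (nat_lit 10) (@Lb.g g8 (@Lb.g g9 (@Lb.g g10 (@Lb.r r275 (@Lb.r r609 (@Lb.r r598 (@Lb.r r2180 (@Lb.d (nat_lit 282) (nat_lit 82) (nat_lit 326) (@Lb.t (@Lb.fp (nat_lit 9) t3976))))))))))))
noncomputable def l35054 : Lb := (@Lb.d (nat_lit 2) (nat_lit 514) (nat_lit 73) (@Lb.g g8 (@Lb.g g9 (@Lb.g g10 (@Lb.g g11 (@Lb.r r619 (@Lb.r r1610 (@Lb.r r660 (@Lb.r r425 (@Lb.r r2084 (@Lb.d (nat_lit 169) (nat_lit 168) (nat_lit 89) (@Lb.fp (nat_lit 9) t5212))))))))))))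
noncomputable def l35055 : Lb := (@Lb.d (nat_lit 2) (nat_lit 548) (nat_lit 17) (@Lb.r r134 (@Lb.r r679 (@Lb.r r344 (@Lb.g g7 (@Lb.g g5 (@Lb.d (nat_lit 64) (nat_lit 129) (nat_lit 128) (@Lb.fp (nat_lit 3) t1161))))))))
noncomputable def l35056 : Lb := (@Lb.d (nat_lit 146) (nat_lit 265) (nat_lit 66) (@Lb.g g8 (@Lb.g g9 (@Lb.g g10 (@Lb.g g11 (@Lb.r r2217 (@Lb.r r1130 (@Lb.r r356 (@Lb.r r1563 (@Lb.r r516 (@Lb.d (nat_lit 520) (nat_lit 9) (nat_lit 584) (@Lb.fp (nat_lit 9) t6234))))))))))))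
noncomputable def l35057 : Lb := (@Lb.r r20 (@Lb.r r82 (@Lb.g g5 (@Lb.r r1681 (@Lb.r r2454 (@Lb.r r1643 (@Lb.r r1608 (@Lb.d (nat_lit 6) (nat_lit 64) (nat_lit 0) (@Lb.t (@Lb.fp (nat_lit 3) t2500))))))))))
noncomputable def l35058 : Lb := (@Lb.d (nat_lit 26) (nat_lit 18) (nat_lit 586) (@Lb.g g8 (@Lb.g g9 (@Lb.g g10 (@Lb.g g7 (@Lb.r r1442 (@Lb.r r341 (@Lb.r r72 (@Lb.d (nat_lit 4) (nat_lit 148) (nat_lit 328) (@Lb.fm (nat_lit 9) t5319))))))))))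
noncomputable def l35059 : Lb := (@Lb.d (nat_lit 26) (nat_lit 274) (nat_lit 522) (@Lb.g g8 (@Lb.g g9 (@Lb.g g10 (@Lb.g g7 (@Lb.r r1442 (@Lb.r r341 (@Lb.r r72 (@Lb.d (nat_lit 4) (nat_lit 148) (nat_lit 328) (@Lb.fm (nat_lit 9) t5319))))))))))
noncomputable def l35060 : Lb := (@Lb.d (nat_lit 2) (nat_lit 258) (nat_lit 2) (@Lb.g g8 (@Lb.g g9 (@Lb.g g10 (@Lb.r r683 (@Lb.r r1689 (@Lb.r r1688 (@Lb.r r1610 (@Lb.d (nat_lit 609) (nat_lit 138) (nat_lit 8) (@Lb.t (@Lb.fm (nat_lit 9) t6235)))))))))))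
noncomputable def l35061 : Lb := (@Lb.d (nat_lit 596) (nat_lit 406) (nat_lit 594) (@Lb.r r1556 (@Lb.r r2345 (@Lb.r r1623 (@Lb.g g6 (@Lb.g g5 (@Lb.g g4 (@Lb.d (nat_lit 65) (nat_lit 8) (nat_lit 32) (@Lb.r r387 (@Lb.t (@Lb.fp (nat_lit 9) t6236)))))))))))
noncomputable def l35062 : Lb := (@Lb.r r322 (@Lb.d (nat_lit 1) (nat_lit 0) (nat_lit 576) (@Lb.g g4 (@Lb.g g9 (@Lb.g g11 (@Lb.r r1426 (@Lb.r r1633 (@Lb.d (nat_lit 8) (nat_lit 137) (nat_lit 386) (@Lb.t (@Lb.fp (nat_lit 9) t1679))))))))))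
noncomputable def l35063 : Lb := (@Lb.d (nat_lit 596) (nat_lit 150) (nat_lit 594) (@Lb.r r1556 (@Lb.r r2345 (@Lb.r r1623 (@Lb.g g6 (@Lb.g g5 (@Lb.g g4 (@Lb.d (nat_lit 65) (nat_lit 1) (nat_lit 33) (@Lb.r r387 (@Lb.t (@Lb.fp (nat_lit 9) t5770)))))))))))
noncomputable def l35064 : Lb := (@Lb.d (nat_lit 2) (nat_lit 260) (nat_lit 0) (@Lb.g g8 (@Lb.g g9 (@Lb.g g10 (@Lb.r r683 (@Lb.r r2666 (@Lb.r r2585 (@Lb.r r24 (@Lb.d (nat_lit 4) (nat_lit 9) (nat_lit 545) (@Lb.t (@Lb.fm (nat_lit 9) t4245)))))))))))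
noncomputable def l35065 : Lb := (@Lb.d (nat_lit 2) (nat_lit 258) (nat_lit 2) (@Lb.g g8 (@Lb.g g9 (@Lb.g g10 (@Lb.r r2729 (@Lb.r r2475 (@Lb.r r2468 (@Lb.r r2438 (@Lb.d (nat_lit 401) (nat_lit 5) (nat_lit 328) (@Lb.t (@Lb.fm (nat_lit 9) t590)))))))))))
noncomputable def l35066 : Lb := (@Lb.d (nat_lit 2) (nat_lit 290) (nat_lit 2) (@Lb.g g8 (@Lb.g g9 (@Lb.g g10 (@Lb.r r275 (@Lb.r r1194 (@Lb.r r2593 (@Lb.r r2436 (@Lb.d (nat_lit 665) (nat_lit 144) (nat_lit 549) (@Lb.t (@Lb.fm (nat_lit 9) t994)))))))))))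
noncomputable def l35067 : Lb := (@Lb.d (nat_lit 662) (nat_lit 644) (nat_lit 549) (@Lb.r r1044 (@Lb.r r617 (@Lb.r r2667 (@Lb.g g7 (@Lb.g g10 (@Lb.g g5 (@Lb.g g4 (@Lb.d (nat_lit 73) (nat_lit 5) (nat_lit 146) (@Lb.fm (nat_lit 9) t6237))))))))))
noncomputable def l35068 : Lb := (@Lb.d (nat_lit 2) (nat_lit 514) (nat_lit 2) (@Lb.g g8 (@Lb.g g9 (@Lb.g g10 (@Lb.r r2729 (@Lb.r r2475 (@Lb.r r2468 (@Lb.r r2438 (@Lb.d (nat_lit 400) (nat_lit 5) (nat_lit 328) (@Lb.t (@Lb.fm (nat_lit 9) t590)))))))))))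
noncomputable def l35069 : Lb := (@Lb.d (nat_lit 2) (nat_lit 262) (nat_lit 64) (@Lb.g g8 (@Lb.g g9 (@Lb.g g10 (@Lb.g g11 (@Lb.r r387 (@Lb.r r2154 (@Lb.r r601 (@Lb.r r24 (@Lb.d (nat_lit 277) (nat_lit 0) (nat_lit 649) (@Lb.fm (nat_lit 9) t6238)))))))))))
noncomputable def l35070 : Lb := (@Lb.d (nat_lit 409) (nat_lit 613) (nat_lit 678) (@Lb.r r1044 (@Lb.r r601 (@Lb.r r532 (@Lb.r r2466 (@Lb.g g11 (@Lb.g g6 (@Lb.g g5 (@Lb.g g4 (@Lb.d (nat_lit 1) (nat_lit 1) (nat_lit 129) (@Lb.fp (nat_lit 9) t827)))))))))))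
noncomputable def l35071 : Lb := (@Lb.d (nat_lit 0) (nat_lit 256) (nat_lit 128) (@Lb.g g7 (@Lb.d (nat_lit 10) (nat_lit 2) (nat_lit 64) (@Lb.t (@Lb.fm (nat_lit 3) t2)))))
noncomputable def l35072 : Lb := (@Lb.d (nat_lit 137) (nat_lit 162) (nat_lit 2) (@Lb.g g8 (@Lb.g g9 (@Lb.g g10 (@Lb.r r599 (@Lb.r r98 (@Lb.r r408 (@Lb.d (nat_lit 161) (nat_lit 16) (nat_lit 153) (@Lb.t (@Lb.fm (nat_lit 9) t221))))))))))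
noncomputable def l35073 : Lb := (@Lb.r r81 (@Lb.d (nat_lit 33) (nat_lit 548) (nat_lit 73) (@Lb.g g8 (@Lb.g g10 (@Lb.g g11 (@Lb.r r353 (@Lb.r r347 (@Lb.r r408 (@Lb.d (nat_lit 134) (nat_lit 26) (nat_lit 152) (@Lb.t (@Lb.fm (nat_lit 9) t573)))))))))))
noncomputable def l35074 : Lb := (@Lb.d (nat_lit 358) (nat_lit 513) (nat_lit 529) (@Lb.r r21 (@Lb.r r100 (@Lb.r r322 (@Lb.r r1307 (@Lb.g g7 (@Lb.g g6 (@Lb.g g5 (@Lb.d (nat_lit 4) (nat_lit 9) (nat_lit 133) (@Lb.t (@Lb.fp (nat_lit 9) t6239)))))))))))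
noncomputable def l35075 : Lb := (@Lb.d (nat_lit 2) (nat_lit 258) (nat_lit 2) (@Lb.g g8 (@Lb.g g9 (@Lb.g g10 (@Lb.g g11 (@Lb.r r1371 (@Lb.r r417 (@Lb.r r98 (@Lb.r r24 (@Lb.d (nat_lit 266) (nat_lit 42) (nat_lit 73) (@Lb.fp (nat_lit 9) t5046)))))))))))
noncomputable def l35076 : Lb := (@Lb.d (nat_lit 2) (nat_lit 516) (nat_lit 0) (@Lb.g g8 (@Lb.g g9 (@Lb.g g10 (@Lb.g g11 (@Lb.r r1371 (@Lb.r r417 (@Lb.r r98 (@Lb.r r24 (@Lb.d (nat_lit 256) (nat_lit 40) (nat_lit 73) (@Lb.fp (nat_lit 9) t3824)))))))))))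
noncomputable def l35077 : Lb := (@Lb.d (nat_lit 642) (nat_lit 2) (nat_lit 258) (@Lb.r r289 (@Lb.r r279 (@Lb.r r584 (@Lb.g g10 (@Lb.g g5 (@Lb.d (nat_lit 32) (nat_lit 0) (nat_lit 17) (@Lb.r r387 (@Lb.fp (nat_lit 3) t6240)))))))))
noncomputable def l35078 : Lb := (@Lb.d (nat_lit 262) (nat_lit 265) (nat_lit 0) (@Lb.r r1416 (@Lb.r r1386 (@Lb.r r1369 (@Lb.r r2343 (@Lb.g g7 (@Lb.g g6 (@Lb.g g5 (@Lb.d (nat_lit 0) (nat_lit 5) (nat_lit 66) (@Lb.t (@Lb.fm (nat_lit 9) t6241)))))))))))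
noncomputable def l35079 : Lb := (@Lb.d (nat_lit 418) (nat_lit 516) (nat_lit 289) (@Lb.r r24 (@Lb.r r386 (@Lb.r r595 (@Lb.r r2325 (@Lb.g g5 (@Lb.g g4 (@Lb.d (nat_lit 6) (nat_lit 2) (nat_lit 0) (@Lb.r r98 (@Lb.fp (nat_lit 3) t6242))))))))))
noncomputable def l35080 : Lb := (@Lb.r r21 (@Lb.r r263 (@Lb.d (nat_lit 25) (nat_lit 256) (nat_lit 0) (@Lb.g g8 (@Lb.g g10 (@Lb.r r2667 (@Lb.r r149 (@Lb.r r598 (@Lb.r r2404 (@Lb.d (nat_lit 356) (nat_lit 169) (nat_lit 662) (@Lb.fp (nat_lit 3) t597)))))))))))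
noncomputable def l35081 : Lb := (@Lb.d (nat_lit 0) (nat_lit 256) (nat_lit 2) (@Lb.g g10 (@Lb.r r1411 (@Lb.r r386 (@Lb.d (nat_lit 608) (nat_lit 0) (nat_lit 420) (@Lb.t (@Lb.fm (nat_lit 3) t698)))))))
noncomputable def l35082 : Lb := (@Lb.d (nat_lit 9) (nat_lit 264) (nat_lit 0) (@Lb.g g8 (@Lb.g g10 (@Lb.r r2331 (@Lb.r r1121 (@Lb.r r2646 (@Lb.r r2436 (@Lb.d (nat_lit 101) (nat_lit 138) (nat_lit 681) (@Lb.fp (nat_lit 3) t386)))))))))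
noncomputable def l35083 : Lb := (@Lb.d (nat_lit 162) (nat_lit 2) (nat_lit 129) (@Lb.g g8 (@Lb.g g9 (@Lb.g g10 (@Lb.g g11 (@Lb.r r579 (@Lb.r r2409 (@Lb.r r1174 (@Lb.r r328 (@Lb.d (nat_lit 42) (nat_lit 130) (nat_lit 641) (@Lb.fp (nat_lit 9) t4620)))))))))))
noncomputable def l35084 : Lb := (@Lb.r r323 (@Lb.d (nat_lit 166) (nat_lit 256) (nat_lit 2) (@Lb.g g8 (@Lb.g g9 (@Lb.g g10 (@Lb.r r2457 (@Lb.r r1319 (@Lb.r r1604 (@Lb.r r1098 (@Lb.d (nat_lit 581) (nat_lit 129) (nat_lit 168) (@Lb.t (@Lb.fm (nat_lit 9) t981))))))))))))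
noncomputable def l35085 : Lb := (@Lb.d (nat_lit 10) (nat_lit 256) (nat_lit 0) (@Lb.g g8 (@Lb.g g10 (@Lb.r r2331 (@Lb.r r1557 (@Lb.r r1316 (@Lb.d (nat_lit 330) (nat_lit 41) (nat_lit 386) (@Lb.fm (nat_lit 3) t324))))))))
noncomputable def l35086 : Lb := (@Lb.d (nat_lit 2) (nat_lit 2) (nat_lit 4) (@Lb.g g8 (@Lb.g g9 (@Lb.g g10 (@Lb.g g11 (@Lb.r r2722 (@Lb.r r2600 (@Lb.r r2713 (@Lb.r r2587 (@Lb.d (nat_lit 325) (nat_lit 72) (nat_lit 137) (@Lb.fm (nat_lit 9) t259)))))))))))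
noncomputable def l35087 : Lb := (@Lb.d (nat_lit 514) (nat_lit 658) (nat_lit 320) (@Lb.r r2631 (@Lb.r r2394 (@Lb.g g6 (@Lb.g g8 (@Lb.d (nat_lit 0) (nat_lit 0) (nat_lit 1) (@Lb.fm (nat_lit 3) t6243)))))))
noncomputable def l35088 : Lb := (@Lb.r r21 (@Lb.d (nat_lit 385) (nat_lit 0) (nat_lit 130) (@Lb.g g8 (@Lb.g g10 (@Lb.g g11 (@Lb.r r1451 (@Lb.r r417 (@Lb.r r98 (@Lb.d (nat_lit 98) (nat_lit 69) (nat_lit 529) (@Lb.t (@Lb.fp (nat_lit 9) t6244)))))))))))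
noncomputable def l35089 : Lb := (@Lb.r r21 (@Lb.d (nat_lit 80) (nat_lit 0) (nat_lit 10) (@Lb.g g8 (@Lb.g g10 (@Lb.g g11 (@Lb.r r1691 (@Lb.r r281 (@Lb.r r2216 (@Lb.r r2202 (@Lb.d (nat_lit 328) (nat_lit 6) (nat_lit 609) (@Lb.t (@Lb.fp (nat_lit 9) t3612))))))))))))
noncomputable def l35090 : Lb := (@Lb.d (nat_lit 138) (nat_lit 512) (nat_lit 34) (@Lb.g g8 (@Lb.g g6 (@Lb.r r661 (@Lb.r r1431 (@Lb.r r2664 (@Lb.d (nat_lit 85) (nat_lit 90) (nat_lit 408) (@Lb.fm (nat_lit 3) t124))))))))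
noncomputable def l35091 : Lb := (@Lb.d (nat_lit 2) (nat_lit 514) (nat_lit 64) (@Lb.g g8 (@Lb.g g9 (@Lb.g g10 (@Lb.g g11 (@Lb.r r2339 (@Lb.r r297 (@Lb.r r1188 (@Lb.r r1158 (@Lb.d (nat_lit 0) (nat_lit 10) (nat_lit 401) (@Lb.fp (nat_lit 9) t88)))))))))))
noncomputable def l35092 : Lb := (@Lb.r r70 (@Lb.d (nat_lit 385) (nat_lit 545) (nat_lit 0) (@Lb.g g8 (@Lb.g g9 (@Lb.r r2579 (@Lb.r r390 (@Lb.r r1317 (@Lb.d (nat_lit 73) (nat_lit 137) (nat_lit 516) (@Lb.fp (nat_lit 3) t329)))))))))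
noncomputable def l35093 : Lb := (@Lb.g g5 (@Lb.d (nat_lit 2) (nat_lit 385) (nat_lit 0) (@Lb.t (@Lb.fm (nat_lit 3) t2))))
noncomputable def l35094 : Lb := (@Lb.d (nat_lit 409) (nat_lit 294) (nat_lit 534) (@Lb.r r342 (@Lb.r r1707 (@Lb.g g6 (@Lb.g g5 (@Lb.g g4 (@Lb.d (nat_lit 544) (nat_lit 129) (nat_lit 0) (@Lb.t (@Lb.fm (nat_lit 9) t40)))))))))
noncomputable def l35095 : Lb := (@Lb.r r70 (@Lb.d (nat_lit 385) (nat_lit 33) (nat_lit 0) (@Lb.g g8 (@Lb.g g9 (@Lb.r r2579 (@Lb.r r390 (@Lb.r r1317 (@Lb.d (nat_lit 72) (nat_lit 137) (nat_lit 516) (@Lb.fp (nat_lit 3) t320)))))))))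
noncomputable def l35096 : Lb := (@Lb.g g5 (@Lb.r r20 (@Lb.r r2073 (@Lb.d (nat_lit 6) (nat_lit 256) (nat_lit 0) (@Lb.t (@Lb.fm (nat_lit 3) t2))))))
noncomputable def l35097 : Lb := (@Lb.r r331 (@Lb.d (nat_lit 160) (nat_lit 258) (nat_lit 2) (@Lb.g g8 (@Lb.g g9 (@Lb.g g10 (@Lb.r r1433 (@Lb.r r2343 (@Lb.r r1604 (@Lb.r r1098 (@Lb.d (nat_lit 342) (nat_lit 129) (nat_lit 137) (@Lb.t (@Lb.fm (nat_lit 9) t2805))))))))))))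
noncomputable def l35098 : Lb := (@Lb.d (nat_lit 33) (nat_lit 258) (nat_lit 73) (@Lb.g g8 (@Lb.g g9 (@Lb.g g10 (@Lb.g g11 (@Lb.r r419 (@Lb.r r1428 (@Lb.r r1369 (@Lb.r r1194 (@Lb.d (nat_lit 325) (nat_lit 42) (nat_lit 160) (@Lb.fm (nat_lit 9) t3480)))))))))))
noncomputable def l35099 : Lb := (@Lb.r r331 (@Lb.d (nat_lit 160) (nat_lit 258) (nat_lit 2) (@Lb.g g8 (@Lb.g g9 (@Lb.g g10 (@Lb.r r1433 (@Lb.r r2343 (@Lb.r r1604 (@Lb.r r1098 (@Lb.d (nat_lit 336) (nat_lit 138) (nat_lit 136) (@Lb.t (@Lb.fm (nat_lit 9) t163))))))))))))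
noncomputable def l35100 : Lb := (@Lb.d (nat_lit 144) (nat_lit 2) (nat_lit 128) (@Lb.g g8 (@Lb.g g9 (@Lb.g g10 (@Lb.g g11 (@Lb.r r2467 (@Lb.r r164 (@Lb.r r1445 (@Lb.r r1126 (@Lb.d (nat_lit 21) (nat_lit 9) (nat_lit 596) (@Lb.fm (nat_lit 9) t5928)))))))))))
noncomputable def l35101 : Lb := (@Lb.d (nat_lit 9) (nat_lit 2) (nat_lit 2) (@Lb.g g8 (@Lb.g g9 (@Lb.g g10 (@Lb.r r1705 (@Lb.r r2475 (@Lb.r r2468 (@Lb.r r2438 (@Lb.d (nat_lit 401) (nat_lit 10) (nat_lit 585) (@Lb.t (@Lb.fm (nat_lit 9) t590)))))))))))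
noncomputable def l35102 : Lb := (@Lb.g g10 (@Lb.g g7 (@Lb.r r402 (@Lb.r r24 (@Lb.r r101 (@Lb.d (nat_lit 98) (nat_lit 386) (nat_lit 320) (@Lb.fm (nat_lit 3) t1628)))))))
noncomputable def l35103 : Lb := (@Lb.d (nat_lit 9) (nat_lit 258) (nat_lit 2) (@Lb.g g8 (@Lb.g g9 (@Lb.g g10 (@Lb.r r1705 (@Lb.r r2475 (@Lb.r r2468 (@Lb.r r2438 (@Lb.d (nat_lit 400) (nat_lit 10) (nat_lit 585) (@Lb.t (@Lb.fm (nat_lit 9) t590)))))))))))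
noncomputable def l35104 : Lb := (@Lb.d (nat_lit 10) (nat_lit 514) (nat_lit 10) (@Lb.g g4 (@Lb.g g9 (@Lb.g g10 (@Lb.g g11 (@Lb.r r402 (@Lb.r r339 (@Lb.d (nat_lit 0) (nat_lit 38) (nat_lit 129) (@Lb.fp (nat_lit 9) t51)))))))))
noncomputable def l35105 : Lb := (@Lb.d (nat_lit 144) (nat_lit 256) (nat_lit 128) (@Lb.g g8 (@Lb.g g9 (@Lb.g g10 (@Lb.g g11 (@Lb.r r1193 (@Lb.r r1130 (@Lb.r r1380 (@Lb.r r2635 (@Lb.d (nat_lit 352) (nat_lit 22) (nat_lit 80) (@Lb.fp (nat_lit 9) t1481)))))))))))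
noncomputable def l35106 : Lb := (@Lb.d (nat_lit 10) (nat_lit 2) (nat_lit 72) (@Lb.g g4 (@Lb.g g9 (@Lb.g g11 (@Lb.r r402 (@Lb.r r579 (@Lb.d (nat_lit 0) (nat_lit 154) (nat_lit 265) (@Lb.t (@Lb.fp (nat_lit 9) t51)))))))))
noncomputable def l35107 : Lb := (@Lb.d (nat_lit 394) (nat_lit 513) (nat_lit 256) (@Lb.r r1121 (@Lb.r r2454 (@Lb.r r323 (@Lb.g g7 (@Lb.g g6 (@Lb.g g8 (@Lb.d (nat_lit 0) (nat_lit 0) (nat_lit 64) (@Lb.t (@Lb.fm (nat_lit 9) t3233))))))))))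
noncomputable def l35108 : Lb := (@Lb.d (nat_lit 9) (nat_lit 289) (nat_lit 2) (@Lb.g g8 (@Lb.g g9 (@Lb.g g10 (@Lb.r r1194 (@Lb.r r2468 (@Lb.r r1627 (@Lb.r r1445 (@Lb.d (nat_lit 144) (nat_lit 38) (nat_lit 90) (@Lb.t (@Lb.fp (nat_lit 9) t49)))))))))))
noncomputable def l35109 : Lb := (@Lb.d (nat_lit 2) (nat_lit 258) (nat_lit 10) (@Lb.g g8 (@Lb.g g9 (@Lb.g g10 (@Lb.g g11 (@Lb.r r353 (@Lb.r r347 (@Lb.r r74 (@Lb.r r529 (@Lb.d (nat_lit 356) (nat_lit 1) (nat_lit 41) (@Lb.fm (nat_lit 9) t263)))))))))))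
noncomputable def l35110 : Lb := (@Lb.d (nat_lit 274) (nat_lit 256) (nat_lit 104) (@Lb.r r24 (@Lb.r r1173 (@Lb.r r674 (@Lb.g g11 (@Lb.g g5 (@Lb.d (nat_lit 0) (nat_lit 34) (nat_lit 324) (@Lb.r r578 (@Lb.fp (nat_lit 3) t719)))))))))
noncomputable def l35111 : Lb := (@Lb.d (nat_lit 593) (nat_lit 614) (nat_lit 677) (@Lb.r r1352 (@Lb.r r2455 (@Lb.r r2394 (@Lb.g g5 (@Lb.g g4 (@Lb.d (nat_lit 32) (nat_lit 129) (nat_lit 0) (@Lb.r r98 (@Lb.fp (nat_lit 3) t3602)))))))))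
noncomputable def l35112 : Lb := (@Lb.d (nat_lit 662) (nat_lit 386) (nat_lit 609) (@Lb.r r584 (@Lb.r r619 (@Lb.r r1641 (@Lb.r r1366 (@Lb.g g6 (@Lb.g g5 (@Lb.g g4 (@Lb.d (nat_lit 32) (nat_lit 2) (nat_lit 1) (@Lb.t (@Lb.fm (nat_lit 9) t49)))))))))))
noncomputable def l35113 : Lb := (@Lb.d (nat_lit 9) (nat_lit 257) (nat_lit 74) (@Lb.g g8 (@Lb.g g9 (@Lb.g g10 (@Lb.g g11 (@Lb.r r1194 (@Lb.r r680 (@Lb.r r427 (@Lb.r r1445 (@Lb.r r1044 (@Lb.d (nat_lit 154) (nat_lit 128) (nat_lit 330) (@Lb.fm (nat_lit 9) t49))))))))))))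
noncomputable def l35114 : Lb := (@Lb.d (nat_lit 294) (nat_lit 354) (nat_lit 389) (@Lb.r r392 (@Lb.r r583 (@Lb.r r1370 (@Lb.g g9 (@Lb.g g4 (@Lb.d (nat_lit 72) (nat_lit 21) (nat_lit 0) (@Lb.r r98 (@Lb.fp (nat_lit 3) t6245)))))))))
noncomputable def l35115 : Lb := (@Lb.r r82 (@Lb.d (nat_lit 34) (nat_lit 514) (nat_lit 136) (@Lb.g g8 (@Lb.g g9 (@Lb.g g11 (@Lb.r r1362 (@Lb.r r2645 (@Lb.r r356 (@Lb.r r395 (@Lb.d (nat_lit 550) (nat_lit 98) (nat_lit 680) (@Lb.t (@Lb.fm (nat_lit 9) t4371))))))))))))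
noncomputable def l35116 : Lb := (@Lb.d (nat_lit 393) (nat_lit 160) (nat_lit 640) (@Lb.r r2341 (@Lb.r r1624 (@Lb.r r1430 (@Lb.r r1555 (@Lb.g g7 (@Lb.g g6 (@Lb.g g5 (@Lb.d (nat_lit 0) (nat_lit 5) (nat_lit 132) (@Lb.t (@Lb.fp (nat_lit 9) t1490)))))))))))
noncomputable def l35117 : Lb := (@Lb.r r21 (@Lb.r r70 (@Lb.g g4 (@Lb.r r1098 (@Lb.r r1049 (@Lb.r r1028 (@Lb.t (@Lb.p (nat_lit 1) (@Lb.fm (nat_lit 3) t1043)))))))))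
noncomputable def l35118 : Lb := (@Lb.r r21 (@Lb.r r70 (@Lb.d (nat_lit 514) (nat_lit 256) (nat_lit 0) (@Lb.g g8 (@Lb.g g11 (@Lb.r r1291 (@Lb.r r74 (@Lb.r r25 (@Lb.d (nat_lit 2) (nat_lit 0) (nat_lit 0) (@Lb.fm (nat_lit 3) t1071))))))))))
noncomputable def l35119 : Lb := (@Lb.d (nat_lit 0) (nat_lit 32) (nat_lit 64) (@Lb.g g11 (@Lb.r r1684 (@Lb.r r345 (@Lb.r r1638 (@Lb.r r615 (@Lb.d (nat_lit 601) (nat_lit 170) (nat_lit 74) (@Lb.t (@Lb.fm (nat_lit 3) t2260)))))))))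
noncomputable def l35120 : Lb := (@Lb.d (nat_lit 8) (nat_lit 514) (nat_lit 0) (@Lb.g g9 (@Lb.r r2394 (@Lb.r r2471 (@Lb.r r2136 (@Lb.r r2197 (@Lb.d (nat_lit 677) (nat_lit 138) (nat_lit 38) (@Lb.t (@Lb.fm (nat_lit 3) t2628)))))))))
noncomputable def l35121 : Lb := (@Lb.r r21 (@Lb.r r331 (@Lb.d (nat_lit 33) (nat_lit 264) (nat_lit 36) (@Lb.g g8 (@Lb.g g6 (@Lb.r r1429 (@Lb.r r2347 (@Lb.r r2468 (@Lb.d (nat_lit 154) (nat_lit 104) (nat_lit 358) (@Lb.fp (nat_lit 3) t4620))))))))))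
noncomputable def l35122 : Lb := (@Lb.r r21 (@Lb.r r70 (@Lb.g g4 (@Lb.r r2340 (@Lb.r r1291 (@Lb.r r101 (@Lb.r r410 (@Lb.d (nat_lit 258) (nat_lit 641) (nat_lit 256) (@Lb.t (@Lb.fm (nat_lit 3) t3113))))))))))
noncomputable def l35123 : Lb := (@Lb.d (nat_lit 150) (nat_lit 416) (nat_lit 656) (@Lb.r r2438 (@Lb.r r1624 (@Lb.r r1301 (@Lb.r r2379 (@Lb.g g7 (@Lb.g g6 (@Lb.g g5 (@Lb.d (nat_lit 0) (nat_lit 17) (nat_lit 65) (@Lb.t (@Lb.fp (nat_lit 9) t6246)))))))))))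
noncomputable def l35124 : Lb := (@Lb.d (nat_lit 40) (nat_lit 513) (nat_lit 64) (@Lb.g g9 (@Lb.g g10 (@Lb.g g11 (@Lb.r r391 (@Lb.r r584 (@Lb.r r1366 (@Lb.r r145 (@Lb.d (nat_lit 325) (nat_lit 89) (nat_lit 17) (@Lb.t (@Lb.fp (nat_lit 9) t322)))))))))))
noncomputable def l35125 : Lb := (@Lb.d (nat_lit 0) (nat_lit 416) (nat_lit 132) (@Lb.g g5 (@Lb.g g10 (@Lb.g g11 (@Lb.r r2626 (@Lb.r r2627 (@Lb.d (nat_lit 0) (nat_lit 0) (nat_lit 362) (@Lb.t (@Lb.fm (nat_lit 9) t406)))))))))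
noncomputable def l35126 : Lb := (@Lb.d (nat_lit 8) (nat_lit 258) (nat_lit 0) (@Lb.g g5 (@Lb.r r1686 (@Lb.r r663 (@Lb.r r1640 (@Lb.r r617 (@Lb.d (nat_lit 88) (nat_lit 37) (nat_lit 665) (@Lb.t (@Lb.fm (nat_lit 3) t6247)))))))))
noncomputable def l35127 : Lb := (@Lb.r r82 (@Lb.d (nat_lit 2) (nat_lit 33) (nat_lit 64) (@Lb.g g8 (@Lb.g g9 (@Lb.g g11 (@Lb.r r2454 (@Lb.r r2627 (@Lb.r r2337 (@Lb.d (nat_lit 64) (nat_lit 81) (nat_lit 106) (@Lb.t (@Lb.fp (nat_lit 9) t6248)))))))))))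
noncomputable def l35128 : Lb := (@Lb.r r21 (@Lb.r r70 (@Lb.g g4 (@Lb.r r2340 (@Lb.r r1291 (@Lb.r r101 (@Lb.r r410 (@Lb.d (nat_lit 256) (nat_lit 256) (nat_lit 256) (@Lb.t (@Lb.fm (nat_lit 3) t6249))))))))))
noncomputable def l35129 : Lb := (@Lb.d (nat_lit 2) (nat_lit 38) (nat_lit 128) (@Lb.g g8 (@Lb.g g9 (@Lb.g g10 (@Lb.g g11 (@Lb.r r1699 (@Lb.r r386 (@Lb.r r612 (@Lb.r r533 (@Lb.r r1060 (@Lb.d (nat_lit 33) (nat_lit 10) (nat_lit 361) (@Lb.fp (nat_lit 9) t1500))))))))))))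
noncomputable def l35130 : Lb := (@Lb.d (nat_lit 149) (nat_lit 514) (nat_lit 64) (@Lb.g g8 (@Lb.g g9 (@Lb.g g10 (@Lb.g g11 (@Lb.r r674 (@Lb.r r2645 (@Lb.r r1380 (@Lb.r r2635 (@Lb.d (nat_lit 80) (nat_lit 22) (nat_lit 80) (@Lb.fp (nat_lit 9) t6250)))))))))))
noncomputable def l35131 : Lb := (@Lb.d (nat_lit 2) (nat_lit 550) (nat_lit 64) (@Lb.g g8 (@Lb.g g9 (@Lb.g g10 (@Lb.g g11 (@Lb.r r1699 (@Lb.r r1192 (@Lb.r r1642 (@Lb.r r1633 (@Lb.d (nat_lit 593) (nat_lit 154) (nat_lit 422) (@Lb.fm (nat_lit 9) t865)))))))))))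
noncomputable def l35132 : Lb := (@Lb.d (nat_lit 144) (nat_lit 257) (nat_lit 384) (@Lb.g g8 (@Lb.g g9 (@Lb.g g10 (@Lb.g g11 (@Lb.r r1602 (@Lb.r r424 (@Lb.r r153 (@Lb.d (nat_lit 38) (nat_lit 132) (nat_lit 585) (@Lb.fm (nat_lit 9) t6251))))))))))
noncomputable def l35133 : Lb := (@Lb.d (nat_lit 42) (nat_lit 264) (nat_lit 132) (@Lb.g g8 (@Lb.g g10 (@Lb.g g11 (@Lb.r r1361 (@Lb.r r2727 (@Lb.r r1638 (@Lb.r r2308 (@Lb.d (nat_lit 601) (nat_lit 137) (nat_lit 673) (@Lb.t (@Lb.fp (nat_lit 9) t6252)))))))))))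
noncomputable def l35134 : Lb := (@Lb.d (nat_lit 106) (nat_lit 104) (nat_lit 405) (@Lb.r r425 (@Lb.r r1194 (@Lb.r r643 (@Lb.g g6 (@Lb.g g5 (@Lb.g g4 (@Lb.d (nat_lit 1) (nat_lit 17) (nat_lit 1) (@Lb.t (@Lb.fm (nat_lit 9) t3368))))))))))
noncomputable def l35135 : Lb := (@Lb.d (nat_lit 609) (nat_lit 608) (nat_lit 614) (@Lb.r r8 (@Lb.r r2411 (@Lb.r r2337 (@Lb.g g7 (@Lb.g g10 (@Lb.d (nat_lit 0) (nat_lit 16) (nat_lit 81) (@Lb.fp (nat_lit 3) t6253))))))))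
noncomputable def l35136 : Lb := (@Lb.d (nat_lit 128) (nat_lit 512) (nat_lit 128) (@Lb.g g11 (@Lb.r r1114 (@Lb.r r260 (@Lb.r r603 (@Lb.r r1317 (@Lb.d (nat_lit 256) (nat_lit 152) (nat_lit 594) (@Lb.t (@Lb.fp (nat_lit 3) t6051)))))))))
noncomputable def l35137 : Lb := (@Lb.d (nat_lit 134) (nat_lit 256) (nat_lit 66) (@Lb.g g8 (@Lb.g g9 (@Lb.g g10 (@Lb.g g11 (@Lb.r r1194 (@Lb.r r520 (@Lb.r r2651 (@Lb.r r2337 (@Lb.r r2084 (@Lb.d (nat_lit 17) (nat_lit 41) (nat_lit 608) (@Lb.fp (nat_lit 9) t4264))))))))))))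
noncomputable def l35138 : Lb := (@Lb.d (nat_lit 82) (nat_lit 345) (nat_lit 90) (@Lb.r r360 (@Lb.r r97 (@Lb.r r599 (@Lb.g g6 (@Lb.g g4 (@Lb.d (nat_lit 82) (nat_lit 4) (nat_lit 17) (@Lb.r r387 (@Lb.r r25 (@Lb.fp (nat_lit 3) t6254))))))))))
noncomputable def l35139 : Lb := (@Lb.d (nat_lit 0) (nat_lit 512) (nat_lit 130) (@Lb.g g9 (@Lb.g g10 (@Lb.g g11 (@Lb.r r166 (@Lb.r r584 (@Lb.r r299 (@Lb.r r289 (@Lb.d (nat_lit 10) (nat_lit 97) (nat_lit 64) (@Lb.t (@Lb.fp (nat_lit 9) t384)))))))))))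
noncomputable def l35140 : Lb := (@Lb.d (nat_lit 128) (nat_lit 512) (nat_lit 128) (@Lb.g g11 (@Lb.r r1114 (@Lb.r r260 (@Lb.r r603 (@Lb.r r1317 (@Lb.d (nat_lit 538) (nat_lit 149) (nat_lit 578) (@Lb.t (@Lb.fp (nat_lit 3) t5948)))))))))
noncomputable def l35141 : Lb := (@Lb.d (nat_lit 2) (nat_lit 292) (nat_lit 128) (@Lb.g g8 (@Lb.g g9 (@Lb.g g10 (@Lb.g g11 (@Lb.r r2730 (@Lb.r r2435 (@Lb.r r2212 (@Lb.r r2085 (@Lb.d (nat_lit 362) (nat_lit 154) (nat_lit 132) (@Lb.fp (nat_lit 9) t4984)))))))))))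
noncomputable def l35142 : Lb := (@Lb.r r326 (@Lb.d (nat_lit 389) (nat_lit 256) (nat_lit 128) (@Lb.g g4 (@Lb.g g9 (@Lb.g g11 (@Lb.r r90 (@Lb.r r657 (@Lb.r r1435 (@Lb.d (nat_lit 650) (nat_lit 153) (nat_lit 330) (@Lb.t (@Lb.fp (nat_lit 9) t2521)))))))))))
noncomputable def l35143 : Lb := (@Lb.r r1346 (@Lb.d (nat_lit 2) (nat_lit 512) (nat_lit 576) (@Lb.g g8 (@Lb.g g9 (@Lb.g g7 (@Lb.d (nat_lit 0) (nat_lit 0) (nat_lit 64) (@Lb.t (@Lb.fp (nat_lit 9) t2))))))))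
noncomputable def l35144 : Lb := (@Lb.r r323 (@Lb.d (nat_lit 2) (nat_lit 0) (nat_lit 2) (@Lb.g g8 (@Lb.g g9 (@Lb.g g10 (@Lb.r r675 (@Lb.r r2214 (@Lb.r r2644 (@Lb.r r1321 (@Lb.d (nat_lit 70) (nat_lit 34) (nat_lit 256) (@Lb.t (@Lb.fp (nat_lit 9) t1371))))))))))))
noncomputable def l35145 : Lb := (@Lb.r r323 (@Lb.d (nat_lit 9) (nat_lit 512) (nat_lit 18) (@Lb.g g8 (@Lb.g g10 (@Lb.r r2659 (@Lb.r r149 (@Lb.r r1636 (@Lb.d (nat_lit 42) (nat_lit 149) (nat_lit 273) (@Lb.fp (nat_lit 3) t3998)))))))))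
noncomputable def l35146 : Lb := (@Lb.d (nat_lit 389) (nat_lit 582) (nat_lit 26) (@Lb.r r2325 (@Lb.r r598 (@Lb.r r683 (@Lb.g g7 (@Lb.g g6 (@Lb.g g5 (@Lb.g g4 (@Lb.d (nat_lit 8) (nat_lit 24) (nat_lit 64) (@Lb.fm (nat_lit 9) t309))))))))))
noncomputable def l35147 : Lb := (@Lb.d (nat_lit 2) (nat_lit 517) (nat_lit 74) (@Lb.g g8 (@Lb.g g9 (@Lb.g g10 (@Lb.g g11 (@Lb.r r611 (@Lb.r r1610 (@Lb.r r2644 (@Lb.r r1321 (@Lb.d (nat_lit 265) (nat_lit 82) (nat_lit 576) (@Lb.fp (nat_lit 9) t261)))))))))))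
noncomputable def l35148 : Lb := (@Lb.d (nat_lit 5) (nat_lit 256) (nat_lit 64) (@Lb.g g4 (@Lb.g g10 (@Lb.g g11 (@Lb.r r1547 (@Lb.r r2454 (@Lb.r r101 (@Lb.d (nat_lit 162) (nat_lit 132) (nat_lit 129) (@Lb.t (@Lb.fm (nat_lit 9) t2269))))))))))
noncomputable def l35149 : Lb := (@Lb.r r331 (@Lb.d (nat_lit 517) (nat_lit 512) (nat_lit 0) (@Lb.g g4 (@Lb.g g9 (@Lb.g g10 (@Lb.r r2726 (@Lb.r r1411 (@Lb.r r1553 (@Lb.d (nat_lit 360) (nat_lit 97) (nat_lit 160) (@Lb.t (@Lb.fm (nat_lit 9) t4540)))))))))))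
noncomputable def l35150 : Lb := (@Lb.r r326 (@Lb.d (nat_lit 422) (nat_lit 256) (nat_lit 128) (@Lb.g g4 (@Lb.g g9 (@Lb.g g11 (@Lb.r r90 (@Lb.r r657 (@Lb.r r1435 (@Lb.d (nat_lit 650) (nat_lit 90) (nat_lit 144) (@Lb.t (@Lb.fp (nat_lit 9) t1071)))))))))))
noncomputable def l35151 : Lb := (@Lb.d (nat_lit 146) (nat_lit 36) (nat_lit 5) (@Lb.g g8 (@Lb.g g9 (@Lb.g g10 (@Lb.g g11 (@Lb.r r1543 (@Lb.r r1177 (@Lb.r r2458 (@Lb.r r1048 (@Lb.d (nat_lit 676) (nat_lit 1) (nat_lit 85) (@Lb.fm (nat_lit 9) t6255)))))))))))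
noncomputable def l35152 : Lb := (@Lb.r r82 (@Lb.d (nat_lit 34) (nat_lit 258) (nat_lit 136) (@Lb.g g8 (@Lb.g g9 (@Lb.g g11 (@Lb.r r1362 (@Lb.r r2645 (@Lb.r r356 (@Lb.r r587 (@Lb.d (nat_lit 337) (nat_lit 85) (nat_lit 165) (@Lb.t (@Lb.fp (nat_lit 9) t4931))))))))))))
noncomputable def l35153 : Lb := (@Lb.r r82 (@Lb.d (nat_lit 2) (nat_lit 2) (nat_lit 128) (@Lb.g g8 (@Lb.g g9 (@Lb.g g11 (@Lb.r r299 (@Lb.r r296 (@Lb.r r89 (@Lb.r r98 (@Lb.d (nat_lit 337) (nat_lit 0) (nat_lit 648) (@Lb.t (@Lb.fp (nat_lit 9) t278))))))))))))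
noncomputable def l35154 : Lb := (@Lb.d (nat_lit 133) (nat_lit 408) (nat_lit 97) (@Lb.r r2068 (@Lb.r r2385 (@Lb.r r1323 (@Lb.r r260 (@Lb.g g7 (@Lb.g g6 (@Lb.g g5 (@Lb.g g4 (@Lb.d (nat_lit 1) (nat_lit 17) (nat_lit 98) (@Lb.fp (nat_lit 9) t6256)))))))))))
noncomputable def l35155 : Lb := (@Lb.d (nat_lit 2) (nat_lit 290) (nat_lit 64) (@Lb.g g8 (@Lb.g g9 (@Lb.g g11 (@Lb.r r2375 (@Lb.r r2178 (@Lb.r r548 (@Lb.r r661 (@Lb.d (nat_lit 390) (nat_lit 129) (nat_lit 533) (@Lb.t (@Lb.fp (nat_lit 9) t4667)))))))))))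
noncomputable def l35156 : Lb := (@Lb.r r81 (@Lb.r r323 (@Lb.d (nat_lit 8) (nat_lit 512) (nat_lit 33) (@Lb.g g8 (@Lb.g g6 (@Lb.r r149 (@Lb.r r1448 (@Lb.r r2567 (@Lb.d (nat_lit 292) (nat_lit 20) (nat_lit 424) (@Lb.fp (nat_lit 3) t2966))))))))))
noncomputable def l35157 : Lb := (@Lb.d (nat_lit 81) (nat_lit 322) (nat_lit 677) (@Lb.r r345 (@Lb.r r386 (@Lb.r r1691 (@Lb.g g7 (@Lb.g g6 (@Lb.g g5 (@Lb.g g8 (@Lb.d (nat_lit 9) (nat_lit 18) (nat_lit 65) (@Lb.fm (nat_lit 9) t148))))))))))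
noncomputable def l35158 : Lb := (@Lb.r r323 (@Lb.d (nat_lit 32) (nat_lit 517) (nat_lit 0) (@Lb.g g9 (@Lb.g g10 (@Lb.r r584 (@Lb.r r299 (@Lb.r r289 (@Lb.d (nat_lit 10) (nat_lit 130) (nat_lit 2) (@Lb.fm (nat_lit 3) t501)))))))))
noncomputable def l35159 : Lb := (@Lb.r r322 (@Lb.d (nat_lit 0) (nat_lit 528) (nat_lit 648) (@Lb.g g8 (@Lb.g g11 (@Lb.r r2438 (@Lb.r r1633 (@Lb.r r1608 (@Lb.d (nat_lit 84) (nat_lit 106) (nat_lit 37) (@Lb.fp (nat_lit 3) t2487)))))))))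
noncomputable def l35160 : Lb := (@Lb.d (nat_lit 6) (nat_lit 358) (nat_lit 645) (@Lb.r r8 (@Lb.r r1633 (@Lb.r r402 (@Lb.g g11 (@Lb.g g6 (@Lb.d (nat_lit 0) (nat_lit 16) (nat_lit 640) (@Lb.fm (nat_lit 3) t2995))))))))
noncomputable def l35161 : Lb := (@Lb.d (nat_lit 601) (nat_lit 277) (nat_lit 133) (@Lb.r r1701 (@Lb.r r386 (@Lb.r r1435 (@Lb.g g7 (@Lb.g g6 (@Lb.g g5 (@Lb.g g8 (@Lb.d (nat_lit 2) (nat_lit 18) (nat_lit 65) (@Lb.fm (nat_lit 9) t148))))))))))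
noncomputable def l35162 : Lb := (@Lb.d (nat_lit 0) (nat_lit 0) (nat_lit 133) (@Lb.g g8 (@Lb.g g10 (@Lb.g g11 (@Lb.r r1347 (@Lb.r r1378 (@Lb.r r101 (@Lb.r r24 (@Lb.d (nat_lit 88) (nat_lit 9) (nat_lit 352) (@Lb.t (@Lb.fm (nat_lit 9) t145)))))))))))
noncomputable def l35163 : Lb := (@Lb.r r323 (@Lb.d (nat_lit 0) (nat_lit 512) (nat_lit 2) (@Lb.g g9 (@Lb.g g10 (@Lb.r r102 (@Lb.r r404 (@Lb.r r299 (@Lb.r r409 (@Lb.d (nat_lit 165) (nat_lit 80) (nat_lit 17) (@Lb.fm (nat_lit 3) t1022))))))))))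
noncomputable def l35164 : Lb := (@Lb.r r323 (@Lb.d (nat_lit 130) (nat_lit 256) (nat_lit 2) (@Lb.g g8 (@Lb.g g9 (@Lb.g g10 (@Lb.r r2641 (@Lb.r r1623 (@Lb.r r2146 (@Lb.r r2312 (@Lb.d (nat_lit 166) (nat_lit 10) (nat_lit 673) (@Lb.t (@Lb.fm (nat_lit 9) t741))))))))))))
noncomputable def l35165 : Lb := (@Lb.d (nat_lit 5) (nat_lit 614) (nat_lit 645) (@Lb.r r8 (@Lb.r r1633 (@Lb.r r402 (@Lb.g g11 (@Lb.g g6 (@Lb.d (nat_lit 0) (nat_lit 16) (nat_lit 640) (@Lb.fm (nat_lit 3) t2995))))))))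
noncomputable def l35166 : Lb := (@Lb.d (nat_lit 0) (nat_lit 256) (nat_lit 2) (@Lb.g g8 (@Lb.g g10 (@Lb.g g7 (@Lb.r r386 (@Lb.r r2449 (@Lb.r r2436 (@Lb.d (nat_lit 617) (nat_lit 36) (nat_lit 354) (@Lb.t (@Lb.fm (nat_lit 9) t2877))))))))))
noncomputable def l35167 : Lb := (@Lb.g g8 (@Lb.g g10 (@Lb.g g7 (@Lb.r r2691 (@Lb.r r1378 (@Lb.r r101 (@Lb.r r24 (@Lb.d (nat_lit 538) (nat_lit 265) (nat_lit 544) (@Lb.t (@Lb.fm (nat_lit 9) t145))))))))))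
noncomputable def l35168 : Lb := (@Lb.d (nat_lit 9) (nat_lit 518) (nat_lit 128) (@Lb.g g8 (@Lb.g g9 (@Lb.g g10 (@Lb.g g11 (@Lb.r r619 (@Lb.r r1610 (@Lb.r r660 (@Lb.r r425 (@Lb.r r2084 (@Lb.d (nat_lit 280) (nat_lit 68) (nat_lit 168) (@Lb.fp (nat_lit 9) t842))))))))))))
noncomputable def l35169 : Lb := (@Lb.r r21 (@Lb.d (nat_lit 2) (nat_lit 0) (nat_lit 130) (@Lb.g g8 (@Lb.g g10 (@Lb.g g11 (@Lb.r r1683 (@Lb.r r2184 (@Lb.r r1610 (@Lb.r r97 (@Lb.d (nat_lit 402) (nat_lit 130) (nat_lit 85) (@Lb.t (@Lb.fp (nat_lit 9) t4512))))))))))))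
noncomputable def l35170 : Lb := (@Lb.d (nat_lit 2) (nat_lit 257) (nat_lit 0) (@Lb.g g8 (@Lb.g g9 (@Lb.g g10 (@Lb.g g7 (@Lb.r r1450 (@Lb.r r1065 (@Lb.r r36 (@Lb.d (nat_lit 521) (nat_lit 153) (nat_lit 66) (@Lb.fm (nat_lit 9) t71))))))))))
noncomputable def l35171 : Lb := (@Lb.d (nat_lit 0) (nat_lit 514) (nat_lit 130) (@Lb.g g8 (@Lb.g g9 (@Lb.g g10 (@Lb.g g11 (@Lb.r r427 (@Lb.r r145 (@Lb.r r356 (@Lb.r r154 (@Lb.r r132 (@Lb.d (nat_lit 4) (nat_lit 1) (nat_lit 16) (@Lb.fm (nat_lit 9) t221))))))))))))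
noncomputable def l35172 : Lb := (@Lb.r r323 (@Lb.d (nat_lit 1) (nat_lit 66) (nat_lit 2) (@Lb.g g4 (@Lb.g g9 (@Lb.g g10 (@Lb.r r354 (@Lb.r r387 (@Lb.d (nat_lit 1) (nat_lit 144) (nat_lit 320) (@Lb.t (@Lb.fp (nat_lit 9) t51))))))))))
noncomputable def l35173 : Lb := (@Lb.d (nat_lit 32) (nat_lit 2) (nat_lit 130) (@Lb.g g9 (@Lb.g g10 (@Lb.g g11 (@Lb.r r419 (@Lb.r r149 (@Lb.r r100 (@Lb.r r410 (@Lb.d (nat_lit 148) (nat_lit 20) (nat_lit 153) (@Lb.t (@Lb.fp (nat_lit 9) t221)))))))))))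
noncomputable def l35174 : Lb := (@Lb.d (nat_lit 261) (nat_lit 645) (nat_lit 1) (@Lb.r r1126 (@Lb.g g8 (@Lb.d (nat_lit 9) (nat_lit 0) (nat_lit 0) (@Lb.t (@Lb.fp (nat_lit 3) t6257))))))
noncomputable def l35175 : Lb := (@Lb.d (nat_lit 521) (nat_lit 642) (nat_lit 609) (@Lb.r r2395 (@Lb.r r678 (@Lb.g g7 (@Lb.g g6 (@Lb.g g8 (@Lb.d (nat_lit 9) (nat_lit 0) (nat_lit 66) (@Lb.t (@Lb.fp (nat_lit 9) t1877)))))))))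
noncomputable def l35176 : Lb := (@Lb.d (nat_lit 0) (nat_lit 513) (nat_lit 64) (@Lb.g g8 (@Lb.g g9 (@Lb.g g10 (@Lb.g g11 (@Lb.r r1642 (@Lb.r r1049 (@Lb.d (nat_lit 521) (nat_lit 89) (nat_lit 130) (@Lb.fp (nat_lit 9) t71)))))))))
noncomputable def l35177 : Lb := (@Lb.d (nat_lit 616) (nat_lit 80) (nat_lit 361) (@Lb.r r1637 (@Lb.r r2324 (@Lb.r r2386 (@Lb.r r683 (@Lb.g g7 (@Lb.g g6 (@Lb.g g5 (@Lb.d (nat_lit 0) (nat_lit 1) (nat_lit 65) (@Lb.t (@Lb.fp (nat_lit 9) t842)))))))))))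
noncomputable def l35178 : Lb := (@Lb.r r21 (@Lb.d (nat_lit 146) (nat_lit 256) (nat_lit 64) (@Lb.g g8 (@Lb.g g10 (@Lb.g g11 (@Lb.r r327 (@Lb.r r646 (@Lb.r r597 (@Lb.r r392 (@Lb.d (nat_lit 18) (nat_lit 10) (nat_lit 9) (@Lb.t (@Lb.fm (nat_lit 9) t151))))))))))))
noncomputable def l35179 : Lb := (@Lb.d (nat_lit 5) (nat_lit 514) (nat_lit 130) (@Lb.g g8 (@Lb.g g9 (@Lb.g g10 (@Lb.g g11 (@Lb.r r1451 (@Lb.r r1130 (@Lb.r r1049 (@Lb.d (nat_lit 521) (nat_lit 68) (nat_lit 129) (@Lb.fp (nat_lit 9) t119))))))))))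
noncomputable def l35180 : Lb := (@Lb.d (nat_lit 9) (nat_lit 84) (nat_lit 8) (@Lb.r r657 (@Lb.r r666 (@Lb.r r420 (@Lb.r r347 (@Lb.g g7 (@Lb.g g6 (@Lb.g g5 (@Lb.d (nat_lit 8) (nat_lit 1) (nat_lit 134) (@Lb.t (@Lb.fm (nat_lit 9) t74)))))))))))
noncomputable def l35181 : Lb := (@Lb.d (nat_lit 32) (nat_lit 260) (nat_lit 65) (@Lb.g g9 (@Lb.g g10 (@Lb.g g11 (@Lb.r r661 (@Lb.r r356 (@Lb.r r346 (@Lb.d (nat_lit 169) (nat_lit 38) (nat_lit 8) (@Lb.t (@Lb.fm (nat_lit 9) t1871))))))))))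
noncomputable def l35182 : Lb := (@Lb.r r82 (@Lb.d (nat_lit 0) (nat_lit 33) (nat_lit 64) (@Lb.g g8 (@Lb.g g9 (@Lb.g g11 (@Lb.r r1543 (@Lb.r r2152 (@Lb.r r2438 (@Lb.r r1361 (@Lb.d (nat_lit 6) (nat_lit 4) (nat_lit 345) (@Lb.t (@Lb.fp (nat_lit 9) t1006))))))))))))
noncomputable def l35183 : Lb := (@Lb.d (nat_lit 2) (nat_lit 516) (nat_lit 65) (@Lb.g g8 (@Lb.g g9 (@Lb.g g10 (@Lb.g g11 (@Lb.r r657 (@Lb.r r612 (@Lb.r r666 (@Lb.r r132 (@Lb.d (nat_lit 73) (nat_lit 2) (nat_lit 5) (@Lb.fm (nat_lit 9) t1871)))))))))))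
noncomputable def l35184 : Lb := (@Lb.d (nat_lit 646) (nat_lit 600) (nat_lit 16) (@Lb.r r1301 (@Lb.r r1366 (@Lb.r r683 (@Lb.g g6 (@Lb.g g5 (@Lb.g g4 (@Lb.d (nat_lit 8) (nat_lit 0) (nat_lit 1) (@Lb.t (@Lb.fm (nat_lit 9) t918))))))))))
noncomputable def l35185 : Lb := (@Lb.d (nat_lit 132) (nat_lit 514) (nat_lit 130) (@Lb.g g8 (@Lb.g g9 (@Lb.g g10 (@Lb.g g11 (@Lb.r r618 (@Lb.r r612 (@Lb.r r1319 (@Lb.r r405 (@Lb.r r36 (@Lb.d (nat_lit 104) (nat_lit 8) (nat_lit 409) (@Lb.fp (nat_lit 9) t5718))))))))))))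
noncomputable def l35186 : Lb := (@Lb.r r82 (@Lb.d (nat_lit 10) (nat_lit 546) (nat_lit 64) (@Lb.g g8 (@Lb.g g9 (@Lb.g g11 (@Lb.r r1543 (@Lb.r r1172 (@Lb.r r2438 (@Lb.r r1313 (@Lb.d (nat_lit 613) (nat_lit 90) (nat_lit 16) (@Lb.t (@Lb.fp (nat_lit 9) t4411))))))))))))
noncomputable def l35187 : Lb := (@Lb.d (nat_lit 128) (nat_lit 16) (nat_lit 258) (@Lb.g g10 (@Lb.g g7 (@Lb.r r1636 (@Lb.r r2154 (@Lb.r r2145 (@Lb.d (nat_lit 533) (nat_lit 8) (nat_lit 149) (@Lb.fm (nat_lit 3) t1040))))))))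
noncomputable def l35188 : Lb := (@Lb.d (nat_lit 128) (nat_lit 544) (nat_lit 72) (@Lb.g g11 (@Lb.r r2410 (@Lb.r r361 (@Lb.r r1384 (@Lb.r r2583 (@Lb.d (nat_lit 645) (nat_lit 164) (nat_lit 261) (@Lb.t (@Lb.fm (nat_lit 3) t386)))))))))
noncomputable def l35189 : Lb := (@Lb.r r82 (@Lb.d (nat_lit 42) (nat_lit 32) (nat_lit 64) (@Lb.g g8 (@Lb.g g9 (@Lb.g g11 (@Lb.r r1571 (@Lb.r r582 (@Lb.r r1445 (@Lb.r r408 (@Lb.d (nat_lit 342) (nat_lit 25) (nat_lit 324) (@Lb.t (@Lb.fp (nat_lit 9) t4493))))))))))))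
noncomputable def l35190 : Lb := (@Lb.d (nat_lit 10) (nat_lit 288) (nat_lit 66) (@Lb.g g8 (@Lb.g g9 (@Lb.g g10 (@Lb.g g11 (@Lb.r r387 (@Lb.r r1173 (@Lb.r r2458 (@Lb.r r24 (@Lb.d (nat_lit 294) (nat_lit 89) (nat_lit 169) (@Lb.fp (nat_lit 9) t2061)))))))))))
noncomputable def l35191 : Lb := (@Lb.g g7 (@Lb.r r1415 (@Lb.r r402 (@Lb.r r101 (@Lb.r r1576 (@Lb.d (nat_lit 261) (nat_lit 592) (nat_lit 138) (@Lb.t (@Lb.fp (nat_lit 3) t6258))))))))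
noncomputable def l35192 : Lb := (@Lb.d (nat_lit 16) (nat_lit 265) (nat_lit 2) (@Lb.g g8 (@Lb.g g9 (@Lb.g g10 (@Lb.r r2727 (@Lb.r r661 (@Lb.r r664 (@Lb.r r2202 (@Lb.d (nat_lit 74) (nat_lit 9) (nat_lit 425) (@Lb.t (@Lb.fp (nat_lit 9) t2437)))))))))))
noncomputable def l35193 : Lb := (@Lb.d (nat_lit 392) (nat_lit 592) (nat_lit 640) (@Lb.r r1685 (@Lb.r r662 (@Lb.r r600 (@Lb.r r347 (@Lb.g g7 (@Lb.g g6 (@Lb.g g5 (@Lb.d (nat_lit 8) (nat_lit 1) (nat_lit 65) (@Lb.t (@Lb.fp (nat_lit 9) t68)))))))))))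
noncomputable def l35194 : Lb := (@Lb.d (nat_lit 0) (nat_lit 34) (nat_lit 4) (@Lb.g g9 (@Lb.g g10 (@Lb.g g11 (@Lb.r r1703 (@Lb.r r1634 (@Lb.r r1553 (@Lb.d (nat_lit 96) (nat_lit 105) (nat_lit 641) (@Lb.t (@Lb.fp (nat_lit 9) t175))))))))))
noncomputable def l35195 : Lb := (@Lb.d (nat_lit 152) (nat_lit 346) (nat_lit 136) (@Lb.r r613 (@Lb.r r551 (@Lb.r r328 (@Lb.r r134 (@Lb.g g7 (@Lb.g g5 (@Lb.g g4 (@Lb.d (nat_lit 1) (nat_lit 2) (nat_lit 68) (@Lb.t (@Lb.fp (nat_lit 9) t31)))))))))))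
noncomputable def l35196 : Lb := (@Lb.d (nat_lit 586) (nat_lit 162) (nat_lit 288) (@Lb.r r101 (@Lb.g g10 (@Lb.t (@Lb.fm (nat_lit 3) t4569)))))
noncomputable def l35197 : Lb := (@Lb.d (nat_lit 358) (nat_lit 298) (nat_lit 168) (@Lb.r r97 (@Lb.r r323 (@Lb.r r598 (@Lb.g g6 (@Lb.g g5 (@Lb.g g4 (@Lb.d (nat_lit 1) (nat_lit 1) (nat_lit 1) (@Lb.r r387 (@Lb.t (@Lb.fm (nat_lit 9) t6259)))))))))))
noncomputable def l35198 : Lb := (@Lb.d (nat_lit 64) (nat_lit 33) (nat_lit 578) (@Lb.g g8 (@Lb.g g9 (@Lb.g g10 (@Lb.g g7 (@Lb.r r386 (@Lb.r r2145 (@Lb.r r2072 (@Lb.d (nat_lit 266) (nat_lit 9) (nat_lit 41) (@Lb.fp (nat_lit 9) t3916))))))))))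
noncomputable def l35199 : Lb := (@Lb.r r263 (@Lb.d (nat_lit 33) (nat_lit 258) (nat_lit 1) (@Lb.g g8 (@Lb.g g9 (@Lb.g g10 (@Lb.r r1689 (@Lb.r r1563 (@Lb.r r1604 (@Lb.r r1098 (@Lb.d (nat_lit 336) (nat_lit 0) (nat_lit 169) (@Lb.t (@Lb.fp (nat_lit 9) t163))))))))))))
noncomputable def l35200 : Lb := (@Lb.d (nat_lit 128) (nat_lit 258) (nat_lit 130) (@Lb.g g8 (@Lb.g g9 (@Lb.g g10 (@Lb.g g11 (@Lb.r r419 (@Lb.r r1702 (@Lb.r r344 (@Lb.r r1429 (@Lb.r r1060 (@Lb.d (nat_lit 617) (nat_lit 168) (nat_lit 402) (@Lb.fp (nat_lit 9) t2805))))))))))))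
noncomputable def l35201 : Lb := (@Lb.d (nat_lit 1) (nat_lit 2) (nat_lit 130) (@Lb.g g8 (@Lb.g g9 (@Lb.g g10 (@Lb.g g11 (@Lb.r r427 (@Lb.r r297 (@Lb.r r104 (@Lb.r r70 (@Lb.r r132 (@Lb.d (nat_lit 9) (nat_lit 73) (nat_lit 329) (@Lb.fp (nat_lit 9) t119))))))))))))
noncomputable def l35202 : Lb := (@Lb.r r263 (@Lb.d (nat_lit 9) (nat_lit 1) (nat_lit 2) (@Lb.g g8 (@Lb.g g9 (@Lb.g g10 (@Lb.r r1689 (@Lb.r r1691 (@Lb.r r2634 (@Lb.r r2632 (@Lb.d (nat_lit 578) (nat_lit 0) (nat_lit 384) (@Lb.t (@Lb.fm (nat_lit 9) t524))))))))))))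
noncomputable def l35203 : Lb := (@Lb.d (nat_lit 2) (nat_lit 517) (nat_lit 74) (@Lb.g g8 (@Lb.g g5 (@Lb.g g10 (@Lb.g g11 (@Lb.r r659 (@Lb.r r578 (@Lb.r r36 (@Lb.d (nat_lit 5) (nat_lit 149) (nat_lit 136) (@Lb.fp (nat_lit 9) t1436))))))))))
noncomputable def l35204 : Lb := (@Lb.d (nat_lit 0) (nat_lit 0) (nat_lit 128) (@Lb.g g11 (@Lb.r r293 (@Lb.r r2587 (@Lb.r r1126 (@Lb.r r2564 (@Lb.d (nat_lit 133) (nat_lit 18) (nat_lit 0) (@Lb.t (@Lb.fp (nat_lit 3) t1087)))))))))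
noncomputable def l35205 : Lb := (@Lb.r r263 (@Lb.d (nat_lit 2) (nat_lit 2) (nat_lit 2) (@Lb.g g8 (@Lb.g g9 (@Lb.g g10 (@Lb.r r1689 (@Lb.r r1555 (@Lb.r r386 (@Lb.r r72 (@Lb.d (nat_lit 33) (nat_lit 0) (nat_lit 153) (@Lb.t (@Lb.fp (nat_lit 9) t546))))))))))))
noncomputable def l35206 : Lb := (@Lb.d (nat_lit 0) (nat_lit 258) (nat_lit 0) (@Lb.g g9 (@Lb.r r2068 (@Lb.r r25 (@Lb.d (nat_lit 521) (nat_lit 2) (nat_lit 0) (@Lb.t (@Lb.fp (nat_lit 3) t2)))))))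
noncomputable def l35207 : Lb := (@Lb.d (nat_lit 0) (nat_lit 0) (nat_lit 128) (@Lb.g g10 (@Lb.g g11 (@Lb.r r353 (@Lb.r r663 (@Lb.r r356 (@Lb.r r154 (@Lb.d (nat_lit 577) (nat_lit 0) (nat_lit 528) (@Lb.fp (nat_lit 3) t1641)))))))))
noncomputable def l35208 : Lb := (@Lb.d (nat_lit 0) (nat_lit 512) (nat_lit 128) (@Lb.g g10 (@Lb.g g11 (@Lb.r r353 (@Lb.r r663 (@Lb.r r356 (@Lb.r r154 (@Lb.d (nat_lit 578) (nat_lit 0) (nat_lit 528) (@Lb.fp (nat_lit 3) t1641)))))))))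
noncomputable def l35209 : Lb := (@Lb.r r323 (@Lb.d (nat_lit 0) (nat_lit 256) (nat_lit 1) (@Lb.g g6 (@Lb.r r2459 (@Lb.r r24 (@Lb.d (nat_lit 266) (nat_lit 68) (nat_lit 64) (@Lb.t (@Lb.fp (nat_lit 3) t2264))))))))
noncomputable def l35210 : Lb := (@Lb.r r331 (@Lb.d (nat_lit 521) (nat_lit 256) (nat_lit 1) (@Lb.g g8 (@Lb.g g6 (@Lb.r r2451 (@Lb.d (nat_lit 9) (nat_lit 132) (nat_lit 64) (@Lb.fp (nat_lit 3) t6260)))))))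
noncomputable def l35211 : Lb := (@Lb.d (nat_lit 0) (nat_lit 512) (nat_lit 128) (@Lb.g g10 (@Lb.g g11 (@Lb.r r387 (@Lb.r r402 (@Lb.r r24 (@Lb.d (nat_lit 292) (nat_lit 74) (nat_lit 34) (@Lb.fm (nat_lit 3) t3532))))))))
noncomputable def l35212 : Lb := (@Lb.d (nat_lit 0) (nat_lit 520) (nat_lit 130) (@Lb.g g10 (@Lb.g g11 (@Lb.r r353 (@Lb.r r663 (@Lb.r r356 (@Lb.r r154 (@Lb.d (nat_lit 585) (nat_lit 9) (nat_lit 529) (@Lb.fp (nat_lit 3) t698)))))))))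
noncomputable def l35213 : Lb := (@Lb.r r21 (@Lb.d (nat_lit 34) (nat_lit 256) (nat_lit 1) (@Lb.g g8 (@Lb.g g10 (@Lb.g g11 (@Lb.r r651 (@Lb.r r293 (@Lb.r r644 (@Lb.r r614 (@Lb.d (nat_lit 153) (nat_lit 33) (nat_lit 8) (@Lb.t (@Lb.fm (nat_lit 9) t594))))))))))))
noncomputable def l35214 : Lb := (@Lb.d (nat_lit 0) (nat_lit 10) (nat_lit 33) (@Lb.g g9 (@Lb.g g6 (@Lb.r r1427 (@Lb.r r1633 (@Lb.r r36 (@Lb.d (nat_lit 5) (nat_lit 153) (nat_lit 280) (@Lb.fm (nat_lit 3) t1762))))))))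
noncomputable def l35215 : Lb := (@Lb.d (nat_lit 2) (nat_lit 10) (nat_lit 1) (@Lb.g g8 (@Lb.g g9 (@Lb.g g10 (@Lb.g g11 (@Lb.r r682 (@Lb.r r680 (@Lb.r r555 (@Lb.r r529 (@Lb.r r36 (@Lb.d (nat_lit 4) (nat_lit 32) (nat_lit 5) (@Lb.fm (nat_lit 9) t264))))))))))))
noncomputable def l35216 : Lb := (@Lb.d (nat_lit 134) (nat_lit 0) (nat_lit 130) (@Lb.g g8 (@Lb.g g9 (@Lb.g g10 (@Lb.g g11 (@Lb.r r419 (@Lb.r r1702 (@Lb.r r344 (@Lb.r r1429 (@Lb.r r1060 (@Lb.d (nat_lit 617) (nat_lit 37) (nat_lit 401) (@Lb.fp (nat_lit 9) t5251))))))))))))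
noncomputable def l35217 : Lb := (@Lb.d (nat_lit 36) (nat_lit 256) (nat_lit 128) (@Lb.g g8 (@Lb.g g9 (@Lb.g g11 (@Lb.r r406 (@Lb.r r1643 (@Lb.r r97 (@Lb.r r1560 (@Lb.d (nat_lit 66) (nat_lit 106) (nat_lit 550) (@Lb.t (@Lb.fm (nat_lit 9) t564)))))))))))
noncomputable def l35218 : Lb := (@Lb.d (nat_lit 8) (nat_lit 514) (nat_lit 130) (@Lb.g g9 (@Lb.g g10 (@Lb.g g11 (@Lb.r r614 (@Lb.r r404 (@Lb.r r619 (@Lb.r r609 (@Lb.d (nat_lit 9) (nat_lit 153) (nat_lit 130) (@Lb.t (@Lb.fm (nat_lit 9) t71)))))))))))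
noncomputable def l35219 : Lb := (@Lb.d (nat_lit 0) (nat_lit 0) (nat_lit 130) (@Lb.g g9 (@Lb.g g10 (@Lb.g g11 (@Lb.r r586 (@Lb.r r584 (@Lb.r r299 (@Lb.r r289 (@Lb.d (nat_lit 9) (nat_lit 137) (nat_lit 2) (@Lb.t (@Lb.fm (nat_lit 9) t51)))))))))))
noncomputable def l35220 : Lb := (@Lb.d (nat_lit 0) (nat_lit 586) (nat_lit 69) (@Lb.r r354 (@Lb.r r1427 (@Lb.g g6 (@Lb.g g9 (@Lb.g g4 (@Lb.d (nat_lit 0) (nat_lit 10) (nat_lit 4) (@Lb.t (@Lb.fm (nat_lit 9) t374)))))))))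
noncomputable def l35221 : Lb := (@Lb.d (nat_lit 0) (nat_lit 513) (nat_lit 0) (@Lb.r r1092 (@Lb.r r1418 (@Lb.r r392 (@Lb.r r1619 (@Lb.g g5 (@Lb.d (nat_lit 0) (nat_lit 17) (nat_lit 0) (@Lb.t (@Lb.fp (nat_lit 3) t1219)))))))))
noncomputable def l35222 : Lb := (@Lb.d (nat_lit 649) (nat_lit 512) (nat_lit 129) (@Lb.g g8 (@Lb.g g10 (@Lb.g g11 (@Lb.r r642 (@Lb.r r1411 (@Lb.d (nat_lit 9) (nat_lit 130) (nat_lit 585) (@Lb.t (@Lb.fp (nat_lit 9) t6261)))))))))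
noncomputable def l35223 : Lb := (@Lb.r r82 (@Lb.r r275 (@Lb.d (nat_lit 41) (nat_lit 129) (nat_lit 0) (@Lb.g g8 (@Lb.g g5 (@Lb.r r2579 (@Lb.r r582 (@Lb.r r2180 (@Lb.d (nat_lit 544) (nat_lit 82) (nat_lit 274) (@Lb.fm (nat_lit 3) t74))))))))))
noncomputable def l35224 : Lb := (@Lb.d (nat_lit 129) (nat_lit 528) (nat_lit 2) (@Lb.g g8 (@Lb.g g9 (@Lb.g g10 (@Lb.g g11 (@Lb.r r683 (@Lb.r r648 (@Lb.r r154 (@Lb.r r2145 (@Lb.r r2084 (@Lb.d (nat_lit 34) (nat_lit 169) (nat_lit 641) (@Lb.fp (nat_lit 9) t546))))))))))))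
noncomputable def l35225 : Lb := (@Lb.d (nat_lit 0) (nat_lit 0) (nat_lit 2) (@Lb.g g10 (@Lb.r r1347 (@Lb.r r578 (@Lb.r r24 (@Lb.r r101 (@Lb.d (nat_lit 0) (nat_lit 2) (nat_lit 418) (@Lb.t (@Lb.fp (nat_lit 3) t87)))))))))
noncomputable def l35226 : Lb := (@Lb.d (nat_lit 0) (nat_lit 0) (nat_lit 129) (@Lb.g g10 (@Lb.g g11 (@Lb.r r650 (@Lb.r r1419 (@Lb.r r24 (@Lb.d (nat_lit 618) (nat_lit 38) (nat_lit 585) (@Lb.fm (nat_lit 3) t3589))))))))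
noncomputable def l35227 : Lb := (@Lb.r r263 (@Lb.d (nat_lit 9) (nat_lit 257) (nat_lit 2) (@Lb.g g8 (@Lb.g g9 (@Lb.g g10 (@Lb.r r1689 (@Lb.r r1555 (@Lb.r r386 (@Lb.r r72 (@Lb.d (nat_lit 33) (nat_lit 0) (nat_lit 153) (@Lb.t (@Lb.fp (nat_lit 9) t546))))))))))))
noncomputable def l35228 : Lb := (@Lb.d (nat_lit 136) (nat_lit 1) (nat_lit 128) (@Lb.g g9 (@Lb.g g11 (@Lb.r r264 (@Lb.r r2583 (@Lb.r r357 (@Lb.r r154 (@Lb.d (nat_lit 514) (nat_lit 0) (nat_lit 361) (@Lb.fm (nat_lit 3) t285)))))))))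
noncomputable def l35229 : Lb := (@Lb.d (nat_lit 1) (nat_lit 32) (nat_lit 130) (@Lb.g g8 (@Lb.g g10 (@Lb.g g11 (@Lb.r r602 (@Lb.r r600 (@Lb.r r293 (@Lb.r r2587 (@Lb.d (nat_lit 169) (nat_lit 41) (nat_lit 161) (@Lb.t (@Lb.fp (nat_lit 9) t1994)))))))))))
noncomputable def l35230 : Lb := (@Lb.d (nat_lit 128) (nat_lit 329) (nat_lit 72) (@Lb.g g8 (@Lb.g g9 (@Lb.g g10 (@Lb.g g11 (@Lb.r r1623 (@Lb.r r682 (@Lb.r r1604 (@Lb.d (nat_lit 132) (nat_lit 136) (nat_lit 274) (@Lb.fp (nat_lit 9) t5288))))))))))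
noncomputable def l35231 : Lb := (@Lb.d (nat_lit 8) (nat_lit 1) (nat_lit 0) (@Lb.g g9 (@Lb.r r2068 (@Lb.r r25 (@Lb.d (nat_lit 522) (nat_lit 129) (nat_lit 0) (@Lb.t (@Lb.fp (nat_lit 3) t2)))))))
noncomputable def l35232 : Lb := (@Lb.r r322 (@Lb.d (nat_lit 9) (nat_lit 0) (nat_lit 576) (@Lb.g g8 (@Lb.g g7 (@Lb.r r661 (@Lb.r r146 (@Lb.r r2436 (@Lb.d (nat_lit 610) (nat_lit 0) (nat_lit 322) (@Lb.fm (nat_lit 3) t311)))))))))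
noncomputable def l35233 : Lb := (@Lb.d (nat_lit 9) (nat_lit 1) (nat_lit 130) (@Lb.g g8 (@Lb.g g9 (@Lb.g g10 (@Lb.g g11 (@Lb.r r84 (@Lb.r r154 (@Lb.r r597 (@Lb.r r343 (@Lb.r r676 (@Lb.d (nat_lit 609) (nat_lit 2) (nat_lit 602) (@Lb.fm (nat_lit 9) t698))))))))))))
noncomputable def l35234 : Lb := (@Lb.r r323 (@Lb.d (nat_lit 65) (nat_lit 2) (nat_lit 0) (@Lb.g g8 (@Lb.g g9 (@Lb.g g10 (@Lb.r r599 (@Lb.r r345 (@Lb.r r166 (@Lb.r r84 (@Lb.d (nat_lit 21) (nat_lit 70) (nat_lit 393) (@Lb.t (@Lb.fm (nat_lit 9) t51))))))))))))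
noncomputable def l35235 : Lb := (@Lb.d (nat_lit 5) (nat_lit 2) (nat_lit 64) (@Lb.g g8 (@Lb.g g9 (@Lb.g g10 (@Lb.g g11 (@Lb.r r1642 (@Lb.r r1049 (@Lb.d (nat_lit 521) (nat_lit 82) (nat_lit 128) (@Lb.fp (nat_lit 9) t71)))))))))
noncomputable def l35236 : Lb := (@Lb.d (nat_lit 8) (nat_lit 258) (nat_lit 0) (@Lb.g g9 (@Lb.r r584 (@Lb.r r363 (@Lb.r r2409 (@Lb.r r86 (@Lb.r r1188 (@Lb.d (nat_lit 0) (nat_lit 0) (nat_lit 4) (@Lb.t (@Lb.fp (nat_lit 3) t2))))))))))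
noncomputable def l35237 : Lb := (@Lb.d (nat_lit 5) (nat_lit 260) (nat_lit 128) (@Lb.g g8 (@Lb.g g9 (@Lb.g g10 (@Lb.g g11 (@Lb.r r2711 (@Lb.r r1384 (@Lb.r r2374 (@Lb.r r673 (@Lb.d (nat_lit 593) (nat_lit 22) (nat_lit 674) (@Lb.fm (nat_lit 9) t355)))))))))))
noncomputable def l35238 : Lb := (@Lb.r r82 (@Lb.d (nat_lit 32) (nat_lit 258) (nat_lit 136) (@Lb.g g8 (@Lb.g g9 (@Lb.g g11 (@Lb.r r2666 (@Lb.r r2725 (@Lb.r r340 (@Lb.r r411 (@Lb.d (nat_lit 514) (nat_lit 74) (nat_lit 618) (@Lb.t (@Lb.fp (nat_lit 9) t394))))))))))))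
noncomputable def l35239 : Lb := (@Lb.r r355 (@Lb.d (nat_lit 4) (nat_lit 258) (nat_lit 18) (@Lb.g g8 (@Lb.g g9 (@Lb.g g6 (@Lb.r r2667 (@Lb.r r1625 (@Lb.d (nat_lit 618) (nat_lit 42) (nat_lit 281) (@Lb.t (@Lb.fm (nat_lit 9) t2001))))))))))
noncomputable def l35240 : Lb := (@Lb.d (nat_lit 9) (nat_lit 8) (nat_lit 130) (@Lb.g g8 (@Lb.g g9 (@Lb.g g10 (@Lb.g g11 (@Lb.r r1707 (@Lb.r r1414 (@Lb.r r1641 (@Lb.r r2584 (@Lb.d (nat_lit 326) (nat_lit 169) (nat_lit 401) (@Lb.fp (nat_lit 9) t1095)))))))))))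
noncomputable def l35241 : Lb := (@Lb.r r323 (@Lb.d (nat_lit 132) (nat_lit 512) (nat_lit 2) (@Lb.g g8 (@Lb.g g9 (@Lb.g g10 (@Lb.r r599 (@Lb.r r98 (@Lb.r r97 (@Lb.r r408 (@Lb.d (nat_lit 149) (nat_lit 152) (nat_lit 74) (@Lb.t (@Lb.fp (nat_lit 9) t119))))))))))))
noncomputable def l35242 : Lb := (@Lb.r r323 (@Lb.d (nat_lit 2) (nat_lit 514) (nat_lit 0) (@Lb.g g8 (@Lb.g g9 (@Lb.g g10 (@Lb.r r1431 (@Lb.r r1188 (@Lb.r r1638 (@Lb.r r97 (@Lb.d (nat_lit 0) (nat_lit 40) (nat_lit 73) (@Lb.t (@Lb.fp (nat_lit 9) t808))))))))))))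
noncomputable def l35243 : Lb := (@Lb.d (nat_lit 272) (nat_lit 258) (nat_lit 0) (@Lb.g g8 (@Lb.g g9 (@Lb.r r322 (@Lb.r r1667 (@Lb.r r578 (@Lb.r r25 (@Lb.d (nat_lit 4) (nat_lit 82) (nat_lit 10) (@Lb.fp (nat_lit 3) t1644)))))))))
noncomputable def l35244 : Lb := (@Lb.r r82 (@Lb.d (nat_lit 0) (nat_lit 514) (nat_lit 128) (@Lb.g g8 (@Lb.g g9 (@Lb.g g11 (@Lb.r r552 (@Lb.r r619 (@Lb.r r2438 (@Lb.r r2201 (@Lb.d (nat_lit 664) (nat_lit 85) (nat_lit 576) (@Lb.t (@Lb.fp (nat_lit 9) t1714))))))))))))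
noncomputable def l35245 : Lb := (@Lb.r r323 (@Lb.d (nat_lit 128) (nat_lit 2) (nat_lit 2) (@Lb.g g8 (@Lb.g g9 (@Lb.g g10 (@Lb.r r263 (@Lb.r r98 (@Lb.r r97 (@Lb.r r536 (@Lb.d (nat_lit 69) (nat_lit 170) (nat_lit 70) (@Lb.t (@Lb.fm (nat_lit 9) t71))))))))))))
noncomputable def l35246 : Lb := (@Lb.d (nat_lit 656) (nat_lit 256) (nat_lit 262) (@Lb.r r24 (@Lb.r r101 (@Lb.r r386 (@Lb.g g7 (@Lb.g g6 (@Lb.d (nat_lit 0) (nat_lit 0) (nat_lit 1) (@Lb.fp (nat_lit 3) t6262))))))))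
noncomputable def l35247 : Lb := (@Lb.r r21 (@Lb.d (nat_lit 146) (nat_lit 512) (nat_lit 128) (@Lb.g g8 (@Lb.g g10 (@Lb.g g11 (@Lb.r r1674 (@Lb.r r1411 (@Lb.r r2212 (@Lb.r r37 (@Lb.d (nat_lit 5) (nat_lit 20) (nat_lit 169) (@Lb.t (@Lb.fm (nat_lit 9) t531))))))))))))
noncomputable def l35248 : Lb := (@Lb.d (nat_lit 138) (nat_lit 642) (nat_lit 256) (@Lb.r r24 (@Lb.r r1319 (@Lb.g g9 (@Lb.d (nat_lit 8) (nat_lit 2) (nat_lit 0) (@Lb.t (@Lb.fm (nat_lit 3) t650)))))))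
noncomputable def l35249 : Lb := (@Lb.d (nat_lit 0) (nat_lit 518) (nat_lit 74) (@Lb.g g9 (@Lb.g g10 (@Lb.g g11 (@Lb.r r1697 (@Lb.r r2658 (@Lb.r r579 (@Lb.d (nat_lit 0) (nat_lit 166) (nat_lit 549) (@Lb.t (@Lb.fm (nat_lit 9) t144))))))))))
noncomputable def l35250 : Lb := (@Lb.r r323 (@Lb.g g6 (@Lb.r r1411 (@Lb.r r2150 (@Lb.r r24 (@Lb.d (nat_lit 584) (nat_lit 578) (nat_lit 512) (@Lb.t (@Lb.fp (nat_lit 3) t282))))))))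
noncomputable def l35251 : Lb := (@Lb.d (nat_lit 674) (nat_lit 400) (nat_lit 42) (@Lb.r r2696 (@Lb.r r2698 (@Lb.r r2731 (@Lb.r r1625 (@Lb.g g7 (@Lb.g g6 (@Lb.g g4 (@Lb.d (nat_lit 9) (nat_lit 4) (nat_lit 66) (@Lb.t (@Lb.fm (nat_lit 9) t2028)))))))))))
noncomputable def l35252 : Lb := (@Lb.d (nat_lit 658) (nat_lit 145) (nat_lit 80) (@Lb.r r2321 (@Lb.r r2371 (@Lb.r r2726 (@Lb.g g6 (@Lb.g g5 (@Lb.g g8 (@Lb.d (nat_lit 266) (nat_lit 0) (nat_lit 0) (@Lb.r r391 (@Lb.t (@Lb.fp (nat_lit 9) t2379)))))))))))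
noncomputable def l35253 : Lb := (@Lb.d (nat_lit 68) (nat_lit 37) (nat_lit 74) (@Lb.g g8 (@Lb.g g9 (@Lb.g g10 (@Lb.g g11 (@Lb.r r2387 (@Lb.r r338 (@Lb.r r1129 (@Lb.r r296 (@Lb.d (nat_lit 69) (nat_lit 34) (nat_lit 585) (@Lb.fp (nat_lit 9) t1144)))))))))))
noncomputable def l35254 : Lb := (@Lb.d (nat_lit 536) (nat_lit 640) (nat_lit 70) (@Lb.r r97 (@Lb.r r386 (@Lb.r r1431 (@Lb.g g7 (@Lb.g g6 (@Lb.g g5 (@Lb.g g4 (@Lb.d (nat_lit 1) (nat_lit 1) (nat_lit 65) (@Lb.fp (nat_lit 9) t773))))))))))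
noncomputable def l35255 : Lb := (@Lb.d (nat_lit 9) (nat_lit 512) (nat_lit 64) (@Lb.g g8 (@Lb.g g11 (@Lb.r r101 (@Lb.r r658 (@Lb.r r2707 (@Lb.d (nat_lit 2) (nat_lit 149) (nat_lit 617) (@Lb.fp (nat_lit 3) t867))))))))
noncomputable def l35256 : Lb := (@Lb.d (nat_lit 536) (nat_lit 133) (nat_lit 68) (@Lb.r r97 (@Lb.r r386 (@Lb.r r1431 (@Lb.g g7 (@Lb.g g6 (@Lb.g g5 (@Lb.g g4 (@Lb.d (nat_lit 6) (nat_lit 2) (nat_lit 65) (@Lb.fp (nat_lit 9) t995))))))))))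
noncomputable def l35257 : Lb := (@Lb.d (nat_lit 130) (nat_lit 2) (nat_lit 10) (@Lb.g g8 (@Lb.g g9 (@Lb.g g10 (@Lb.r r263 (@Lb.r r2193 (@Lb.r r612 (@Lb.r r602 (@Lb.d (nat_lit 665) (nat_lit 166) (nat_lit 264) (@Lb.t (@Lb.fm (nat_lit 9) t1224)))))))))))
noncomputable def l35258 : Lb := (@Lb.d (nat_lit 128) (nat_lit 512) (nat_lit 64) (@Lb.g g11 (@Lb.r r537 (@Lb.r r292 (@Lb.r r539 (@Lb.r r614 (@Lb.d (nat_lit 325) (nat_lit 97) (nat_lit 384) (@Lb.t (@Lb.fm (nat_lit 3) t3111)))))))))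
noncomputable def l35259 : Lb := (@Lb.d (nat_lit 16) (nat_lit 388) (nat_lit 150) (@Lb.r r24 (@Lb.r r101 (@Lb.r r1446 (@Lb.r r2587 (@Lb.g g7 (@Lb.g g6 (@Lb.g g5 (@Lb.d (nat_lit 0) (nat_lit 0) (nat_lit 134) (@Lb.t (@Lb.fp (nat_lit 9) t1117)))))))))))
noncomputable def l35260 : Lb := (@Lb.g g10 (@Lb.g g7 (@Lb.r r609 (@Lb.r r363 (@Lb.r r356 (@Lb.r r154 (@Lb.d (nat_lit 256) (nat_lit 0) (nat_lit 16) (@Lb.fp (nat_lit 3) t743))))))))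
noncomputable def l35261 : Lb := (@Lb.d (nat_lit 261) (nat_lit 257) (nat_lit 153) (@Lb.r r21 (@Lb.r r104 (@Lb.r r579 (@Lb.g g10 (@Lb.g g5 (@Lb.g g4 (@Lb.d (nat_lit 0) (nat_lit 1) (nat_lit 2) (@Lb.r r387 (@Lb.t (@Lb.fm (nat_lit 9) t367)))))))))))
noncomputable def l35262 : Lb := (@Lb.d (nat_lit 5) (nat_lit 394) (nat_lit 150) (@Lb.r r24 (@Lb.r r97 (@Lb.r r1442 (@Lb.r r2579 (@Lb.g g7 (@Lb.g g6 (@Lb.g g5 (@Lb.d (nat_lit 0) (nat_lit 6) (nat_lit 132) (@Lb.t (@Lb.fp (nat_lit 9) t925)))))))))))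
noncomputable def l35263 : Lb := (@Lb.d (nat_lit 2) (nat_lit 32) (nat_lit 640) (@Lb.g g8 (@Lb.g g11 (@Lb.r r1049 (@Lb.r r24 (@Lb.d (nat_lit 325) (nat_lit 130) (nat_lit 512) (@Lb.fp (nat_lit 3) t441)))))))
noncomputable def l35264 : Lb := (@Lb.d (nat_lit 9) (nat_lit 544) (nat_lit 640) (@Lb.g g8 (@Lb.g g11 (@Lb.d (nat_lit 10) (nat_lit 82) (nat_lit 256) (@Lb.fm (nat_lit 3) t2243)))))
noncomputable def l35265 : Lb := (@Lb.d (nat_lit 2) (nat_lit 513) (nat_lit 64) (@Lb.g g8 (@Lb.g g9 (@Lb.g g11 (@Lb.r r1559 (@Lb.r r2154 (@Lb.r r2409 (@Lb.d (nat_lit 665) (nat_lit 16) (nat_lit 680) (@Lb.t (@Lb.fm (nat_lit 9) t6263))))))))))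
noncomputable def l35266 : Lb := (@Lb.d (nat_lit 2) (nat_lit 9) (nat_lit 73) (@Lb.g g8 (@Lb.g g9 (@Lb.g g10 (@Lb.g g11 (@Lb.r r1559 (@Lb.r r1177 (@Lb.r r2194 (@Lb.d (nat_lit 289) (nat_lit 150) (nat_lit 538) (@Lb.fp (nat_lit 9) t4731))))))))))
noncomputable def l35267 : Lb := (@Lb.r r331 (@Lb.d (nat_lit 673) (nat_lit 264) (nat_lit 6) (@Lb.g g8 (@Lb.g g10 (@Lb.r r1411 (@Lb.d (nat_lit 0) (nat_lit 2) (nat_lit 425) (@Lb.fm (nat_lit 3) t3760)))))))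
noncomputable def l35268 : Lb := (@Lb.r r323 (@Lb.d (nat_lit 0) (nat_lit 8) (nat_lit 6) (@Lb.g g10 (@Lb.r r1419 (@Lb.r r24 (@Lb.d (nat_lit 618) (nat_lit 37) (nat_lit 425) (@Lb.t (@Lb.fm (nat_lit 3) t6264))))))))
noncomputable def l35269 : Lb := (@Lb.r r82 (@Lb.d (nat_lit 36) (nat_lit 256) (nat_lit 64) (@Lb.g g8 (@Lb.g g9 (@Lb.g g7 (@Lb.r r2409 (@Lb.r r150 (@Lb.r r100 (@Lb.d (nat_lit 346) (nat_lit 10) (nat_lit 537) (@Lb.t (@Lb.fp (nat_lit 9) t722)))))))))))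
noncomputable def l35270 : Lb := (@Lb.d (nat_lit 5) (nat_lit 421) (nat_lit 602) (@Lb.r r597 (@Lb.r r279 (@Lb.r r612 (@Lb.g g7 (@Lb.g g10 (@Lb.g g5 (@Lb.d (nat_lit 20) (nat_lit 1) (nat_lit 66) (@Lb.t (@Lb.fm (nat_lit 9) t694))))))))))
noncomputable def l35271 : Lb := (@Lb.d (nat_lit 358) (nat_lit 517) (nat_lit 678) (@Lb.r r154 (@Lb.r r660 (@Lb.r r1625 (@Lb.r r2723 (@Lb.g g7 (@Lb.g g6 (@Lb.g g5 (@Lb.d (nat_lit 0) (nat_lit 1) (nat_lit 64) (@Lb.t (@Lb.fp (nat_lit 9) t2619)))))))))))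
noncomputable def l35272 : Lb := (@Lb.r r584 (@Lb.r r86 (@Lb.r r289 (@Lb.r r132 (@Lb.d (nat_lit 388) (nat_lit 529) (nat_lit 512) (@Lb.fp (nat_lit 1) t2026))))))
noncomputable def l35273 : Lb := (@Lb.r r68 (@Lb.r r323 (@Lb.d (nat_lit 16) (nat_lit 258) (nat_lit 41) (@Lb.g g9 (@Lb.g g6 (@Lb.r r1384 (@Lb.r r1559 (@Lb.r r25 (@Lb.d (nat_lit 512) (nat_lit 145) (nat_lit 1) (@Lb.fp (nat_lit 3) t582))))))))))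
noncomputable def l35274 : Lb := (@Lb.d (nat_lit 529) (nat_lit 512) (nat_lit 17) (@Lb.r r20 (@Lb.r r2153 (@Lb.r r323 (@Lb.g g10 (@Lb.g g5 (@Lb.g g4 (@Lb.d (nat_lit 1) (nat_lit 6) (nat_lit 0) (@Lb.r r387 (@Lb.t (@Lb.fp (nat_lit 9) t51)))))))))))
noncomputable def l35275 : Lb := (@Lb.d (nat_lit 2) (nat_lit 514) (nat_lit 66) (@Lb.g g8 (@Lb.g g9 (@Lb.g g10 (@Lb.g g7 (@Lb.r r386 (@Lb.r r104 (@Lb.r r25 (@Lb.d (nat_lit 512) (nat_lit 90) (nat_lit 281) (@Lb.fm (nat_lit 9) t845))))))))))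
noncomputable def l35276 : Lb := (@Lb.d (nat_lit 2) (nat_lit 1) (nat_lit 130) (@Lb.g g8 (@Lb.g g9 (@Lb.g g10 (@Lb.g g11 (@Lb.r r1451 (@Lb.r r1321 (@Lb.r r104 (@Lb.r r70 (@Lb.r r132 (@Lb.d (nat_lit 9) (nat_lit 66) (nat_lit 618) (@Lb.fp (nat_lit 9) t119))))))))))))
noncomputable def l35277 : Lb := (@Lb.r r82 (@Lb.d (nat_lit 9) (nat_lit 290) (nat_lit 128) (@Lb.g g8 (@Lb.g g9 (@Lb.g g11 (@Lb.r r2664 (@Lb.r r614 (@Lb.r r1379 (@Lb.r r81 (@Lb.d (nat_lit 0) (nat_lit 21) (nat_lit 324) (@Lb.t (@Lb.fp (nat_lit 9) t125))))))))))))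
noncomputable def l35278 : Lb := (@Lb.d (nat_lit 2) (nat_lit 514) (nat_lit 66) (@Lb.g g8 (@Lb.g g9 (@Lb.g g10 (@Lb.g g7 (@Lb.r r386 (@Lb.r r104 (@Lb.r r25 (@Lb.d (nat_lit 522) (nat_lit 89) (nat_lit 345) (@Lb.fm (nat_lit 9) t845))))))))))
noncomputable def l35279 : Lb := (@Lb.d (nat_lit 32) (nat_lit 512) (nat_lit 130) (@Lb.g g10 (@Lb.g g11 (@Lb.r r679 (@Lb.r r1352 (@Lb.r r1622 (@Lb.r r1057 (@Lb.d (nat_lit 661) (nat_lit 8) (nat_lit 618) (@Lb.fp (nat_lit 3) t820)))))))))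
noncomputable def l35280 : Lb := (@Lb.d (nat_lit 33) (nat_lit 294) (nat_lit 4) (@Lb.g g8 (@Lb.g g9 (@Lb.g g10 (@Lb.g g11 (@Lb.r r2729 (@Lb.r r299 (@Lb.r r2626 (@Lb.r r72 (@Lb.d (nat_lit 344) (nat_lit 164) (nat_lit 392) (@Lb.fp (nat_lit 9) t2224)))))))))))
noncomputable def l35281 : Lb := (@Lb.d (nat_lit 132) (nat_lit 514) (nat_lit 4) (@Lb.g g8 (@Lb.g g9 (@Lb.g g10 (@Lb.g g11 (@Lb.r r1691 (@Lb.r r1642 (@Lb.r r1561 (@Lb.r r532 (@Lb.d (nat_lit 294) (nat_lit 105) (nat_lit 657) (@Lb.fm (nat_lit 9) t175)))))))))))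
noncomputable def l35282 : Lb := (@Lb.d (nat_lit 33) (nat_lit 66) (nat_lit 130) (@Lb.g g8 (@Lb.g g9 (@Lb.g g10 (@Lb.g g11 (@Lb.r r612 (@Lb.r r2471 (@Lb.r r2438 (@Lb.r r516 (@Lb.d (nat_lit 384) (nat_lit 137) (nat_lit 26) (@Lb.fm (nat_lit 9) t429)))))))))))
noncomputable def l35283 : Lb := (@Lb.d (nat_lit 130) (nat_lit 1) (nat_lit 132) (@Lb.g g8 (@Lb.g g9 (@Lb.g g10 (@Lb.g g11 (@Lb.r r676 (@Lb.r r677 (@Lb.r r2471 (@Lb.r r98 (@Lb.r r516 (@Lb.d (nat_lit 553) (nat_lit 72) (nat_lit 337) (@Lb.fm (nat_lit 9) t765))))))))))))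
noncomputable def l35284 : Lb := (@Lb.r r81 (@Lb.d (nat_lit 138) (nat_lit 512) (nat_lit 41) (@Lb.g g8 (@Lb.g g6 (@Lb.r r661 (@Lb.r r343 (@Lb.r r680 (@Lb.d (nat_lit 85) (nat_lit 22) (nat_lit 85) (@Lb.fm (nat_lit 3) t875)))))))))
noncomputable def l35285 : Lb := (@Lb.d (nat_lit 161) (nat_lit 1) (nat_lit 9) (@Lb.g g8 (@Lb.g g9 (@Lb.g g6 (@Lb.r r1385 (@Lb.r r535 (@Lb.r r296 (@Lb.d (nat_lit 133) (nat_lit 34) (nat_lit 600) (@Lb.t (@Lb.fm (nat_lit 9) t892))))))))))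
noncomputable def l35286 : Lb := (@Lb.r r82 (@Lb.d (nat_lit 130) (nat_lit 258) (nat_lit 0) (@Lb.g g8 (@Lb.g g9 (@Lb.r r1571 (@Lb.r r1193 (@Lb.r r98 (@Lb.r r392 (@Lb.d (nat_lit 360) (nat_lit 144) (nat_lit 70) (@Lb.fp (nat_lit 3) t1549))))))))))
noncomputable def l35287 : Lb := (@Lb.d (nat_lit 2) (nat_lit 265) (nat_lit 129) (@Lb.g g8 (@Lb.g g9 (@Lb.g g10 (@Lb.g g11 (@Lb.r r427 (@Lb.r r388 (@Lb.r r70 (@Lb.r r153 (@Lb.r r132 (@Lb.d (nat_lit 6) (nat_lit 72) (nat_lit 146) (@Lb.fp (nat_lit 9) t6265))))))))))))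
noncomputable def l35288 : Lb := (@Lb.d (nat_lit 33) (nat_lit 258) (nat_lit 146) (@Lb.g g8 (@Lb.g g9 (@Lb.g g10 (@Lb.g g11 (@Lb.r r2467 (@Lb.r r153 (@Lb.r r1560 (@Lb.d (nat_lit 648) (nat_lit 42) (nat_lit 385) (@Lb.fm (nat_lit 9) t6266))))))))))
noncomputable def l35289 : Lb := (@Lb.r r263 (@Lb.d (nat_lit 33) (nat_lit 546) (nat_lit 18) (@Lb.g g8 (@Lb.g g9 (@Lb.g g10 (@Lb.r r595 (@Lb.r r2385 (@Lb.r r516 (@Lb.d (nat_lit 674) (nat_lit 150) (nat_lit 681) (@Lb.t (@Lb.fp (nat_lit 9) t3609)))))))))))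
noncomputable def l35290 : Lb := (@Lb.r r323 (@Lb.d (nat_lit 33) (nat_lit 521) (nat_lit 1) (@Lb.g g8 (@Lb.g g9 (@Lb.g g10 (@Lb.r r1689 (@Lb.r r1563 (@Lb.r r2634 (@Lb.r r1540 (@Lb.d (nat_lit 258) (nat_lit 0) (nat_lit 401) (@Lb.t (@Lb.fp (nat_lit 9) t3552))))))))))))
noncomputable def l35291 : Lb := (@Lb.d (nat_lit 0) (nat_lit 265) (nat_lit 129) (@Lb.g g9 (@Lb.g g10 (@Lb.g g11 (@Lb.r r427 (@Lb.r r424 (@Lb.r r106 (@Lb.r r25 (@Lb.d (nat_lit 26) (nat_lit 4) (nat_lit 17) (@Lb.t (@Lb.fp (nat_lit 9) t901)))))))))))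
noncomputable def l35292 : Lb := (@Lb.d (nat_lit 1) (nat_lit 294) (nat_lit 70) (@Lb.r r322 (@Lb.r r659 (@Lb.g g7 (@Lb.g g6 (@Lb.g g9 (@Lb.g g4 (@Lb.d (nat_lit 0) (nat_lit 10) (nat_lit 133) (@Lb.fp (nat_lit 9) t1176)))))))))
noncomputable def l35293 : Lb := (@Lb.d (nat_lit 2) (nat_lit 289) (nat_lit 130) (@Lb.g g8 (@Lb.g g9 (@Lb.g g10 (@Lb.g g11 (@Lb.r r683 (@Lb.r r1642 (@Lb.r r1561 (@Lb.d (nat_lit 585) (nat_lit 98) (nat_lit 274) (@Lb.fm (nat_lit 9) t919))))))))))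
noncomputable def l35294 : Lb := (@Lb.d (nat_lit 0) (nat_lit 265) (nat_lit 129) (@Lb.g g8 (@Lb.g g9 (@Lb.g g10 (@Lb.g g11 (@Lb.r r2647 (@Lb.r r2726 (@Lb.r r2645 (@Lb.r r1416 (@Lb.d (nat_lit 538) (nat_lit 9) (nat_lit 18) (@Lb.fm (nat_lit 9) t6267)))))))))))
noncomputable def l35295 : Lb := (@Lb.r r82 (@Lb.d (nat_lit 2) (nat_lit 289) (nat_lit 128) (@Lb.g g8 (@Lb.g g9 (@Lb.g g11 (@Lb.r r555 (@Lb.r r1625 (@Lb.r r98 (@Lb.d (nat_lit 609) (nat_lit 10) (nat_lit 296) (@Lb.t (@Lb.fp (nat_lit 9) t2714)))))))))))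
noncomputable def l35296 : Lb := (@Lb.d (nat_lit 128) (nat_lit 514) (nat_lit 130) (@Lb.g g8 (@Lb.g g9 (@Lb.g g10 (@Lb.g g11 (@Lb.r r599 (@Lb.r r2726 (@Lb.r r344 (@Lb.r r1045 (@Lb.r r2084 (@Lb.d (nat_lit 9) (nat_lit 40) (nat_lit 146) (@Lb.fm (nat_lit 9) t1802))))))))))))
noncomputable def l35297 : Lb := (@Lb.d (nat_lit 2) (nat_lit 512) (nat_lit 130) (@Lb.g g8 (@Lb.g g10 (@Lb.g g11 (@Lb.r r2698 (@Lb.r r2692 (@Lb.r r2567 (@Lb.r r2073 (@Lb.d (nat_lit 672) (nat_lit 0) (nat_lit 98) (@Lb.t (@Lb.fm (nat_lit 9) t1097)))))))))))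
noncomputable def l35298 : Lb := (@Lb.d (nat_lit 297) (nat_lit 325) (nat_lit 0) (@Lb.r r1113 (@Lb.r r2136 (@Lb.g g11 (@Lb.g g6 (@Lb.g g5 (@Lb.d (nat_lit 4) (nat_lit 6) (nat_lit 1) (@Lb.t (@Lb.fp (nat_lit 9) t1219)))))))))
noncomputable def l35299 : Lb := (@Lb.d (nat_lit 33) (nat_lit 258) (nat_lit 73) (@Lb.g g8 (@Lb.g g9 (@Lb.g g10 (@Lb.g g11 (@Lb.r r1707 (@Lb.r r1194 (@Lb.r r1561 (@Lb.r r1540 (@Lb.d (nat_lit 393) (nat_lit 37) (nat_lit 128) (@Lb.fp (nat_lit 9) t4480)))))))))))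
noncomputable def l35300 : Lb := (@Lb.d (nat_lit 169) (nat_lit 517) (nat_lit 274) (@Lb.r r24 (@Lb.r r2202 (@Lb.g g7 (@Lb.g g5 (@Lb.d (nat_lit 0) (nat_lit 20) (nat_lit 4) (@Lb.r r610 (@Lb.fm (nat_lit 3) t5772))))))))
noncomputable def l35301 : Lb := (@Lb.g g4 (@Lb.g g9 (@Lb.g g7 (@Lb.r r2311 (@Lb.d (nat_lit 257) (nat_lit 0) (nat_lit 64) (@Lb.t (@Lb.fm (nat_lit 9) t1165)))))))
noncomputable def l35302 : Lb := (@Lb.d (nat_lit 38) (nat_lit 517) (nat_lit 73) (@Lb.g g8 (@Lb.g g9 (@Lb.g g10 (@Lb.g g11 (@Lb.r r1543 (@Lb.r r1418 (@Lb.r r105 (@Lb.r r2340 (@Lb.d (nat_lit 153) (nat_lit 106) (nat_lit 402) (@Lb.fm (nat_lit 9) t2301)))))))))))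
noncomputable def l35303 : Lb := (@Lb.r r21 (@Lb.d (nat_lit 2) (nat_lit 0) (nat_lit 66) (@Lb.g g8 (@Lb.g g10 (@Lb.g g7 (@Lb.r r386 (@Lb.r r145 (@Lb.r r72 (@Lb.d (nat_lit 354) (nat_lit 5) (nat_lit 586) (@Lb.t (@Lb.fp (nat_lit 9) t166)))))))))))
noncomputable def l35304 : Lb := (@Lb.d (nat_lit 129) (nat_lit 2) (nat_lit 130) (@Lb.g g8 (@Lb.g g9 (@Lb.g g10 (@Lb.g g11 (@Lb.r r1706 (@Lb.r r1411 (@Lb.r r1177 (@Lb.r r1156 (@Lb.d (nat_lit 297) (nat_lit 89) (nat_lit 601) (@Lb.fm (nat_lit 9) t2855)))))))))))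
noncomputable def l35305 : Lb := (@Lb.d (nat_lit 33) (nat_lit 4) (nat_lit 73) (@Lb.g g8 (@Lb.g g9 (@Lb.g g10 (@Lb.g g11 (@Lb.r r1667 (@Lb.r r1193 (@Lb.r r1634 (@Lb.r r408 (@Lb.d (nat_lit 150) (nat_lit 73) (nat_lit 358) (@Lb.fm (nat_lit 9) t509)))))))))))
noncomputable def l35306 : Lb := (@Lb.d (nat_lit 38) (nat_lit 5) (nat_lit 73) (@Lb.g g8 (@Lb.g g9 (@Lb.g g10 (@Lb.g g11 (@Lb.r r2723 (@Lb.r r2216 (@Lb.r r2713 (@Lb.r r2202 (@Lb.d (nat_lit 593) (nat_lit 42) (nat_lit 658) (@Lb.fm (nat_lit 9) t1234)))))))))))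
noncomputable def l35307 : Lb := (@Lb.d (nat_lit 33) (nat_lit 514) (nat_lit 73) (@Lb.g g8 (@Lb.g g9 (@Lb.g g10 (@Lb.g g11 (@Lb.r r1707 (@Lb.r r1194 (@Lb.r r1640 (@Lb.r r25 (@Lb.d (nat_lit 648) (nat_lit 153) (nat_lit 518) (@Lb.fm (nat_lit 9) t2685)))))))))))
noncomputable def l35308 : Lb := (@Lb.d (nat_lit 136) (nat_lit 521) (nat_lit 128) (@Lb.g g9 (@Lb.g g11 (@Lb.r r1114 (@Lb.r r260 (@Lb.r r603 (@Lb.r r1425 (@Lb.d (nat_lit 74) (nat_lit 146) (nat_lit 138) (@Lb.fp (nat_lit 3) t322)))))))))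
noncomputable def l35309 : Lb := (@Lb.r r21 (@Lb.d (nat_lit 645) (nat_lit 512) (nat_lit 66) (@Lb.g g8 (@Lb.g g10 (@Lb.g g11 (@Lb.r r1451 (@Lb.r r106 (@Lb.r r25 (@Lb.d (nat_lit 9) (nat_lit 9) (nat_lit 425) (@Lb.t (@Lb.fm (nat_lit 9) t394)))))))))))
noncomputable def l35310 : Lb := (@Lb.d (nat_lit 128) (nat_lit 0) (nat_lit 128) (@Lb.g g11 (@Lb.r r104 (@Lb.r r2665 (@Lb.r r619 (@Lb.r r1350 (@Lb.r r644 (@Lb.d (nat_lit 2) (nat_lit 138) (nat_lit 18) (@Lb.t (@Lb.fm (nat_lit 3) t2))))))))))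
noncomputable def l35311 : Lb := (@Lb.d (nat_lit 584) (nat_lit 609) (nat_lit 5) (@Lb.r r68 (@Lb.r r154 (@Lb.r r660 (@Lb.r r2385 (@Lb.g g7 (@Lb.g g6 (@Lb.g g5 (@Lb.g g4 (@Lb.d (nat_lit 1) (nat_lit 0) (nat_lit 129) (@Lb.fm (nat_lit 9) t98)))))))))))
noncomputable def l35312 : Lb := (@Lb.r r323 (@Lb.d (nat_lit 128) (nat_lit 513) (nat_lit 2) (@Lb.g g8 (@Lb.g g9 (@Lb.g g10 (@Lb.r r362 (@Lb.r r361 (@Lb.r r1431 (@Lb.r r2632 (@Lb.d (nat_lit 362) (nat_lit 133) (nat_lit 640) (@Lb.t (@Lb.fm (nat_lit 9) t71))))))))))))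
noncomputable def l35313 : Lb := (@Lb.r r21 (@Lb.r r323 (@Lb.d (nat_lit 2) (nat_lit 0) (nat_lit 32) (@Lb.g g8 (@Lb.g g10 (@Lb.r r387 (@Lb.r r2580 (@Lb.r r25 (@Lb.d (nat_lit 328) (nat_lit 33) (nat_lit 400) (@Lb.fm (nat_lit 3) t1644))))))))))
noncomputable def l35314 : Lb := (@Lb.d (nat_lit 584) (nat_lit 353) (nat_lit 5) (@Lb.r r68 (@Lb.r r154 (@Lb.r r660 (@Lb.r r2385 (@Lb.g g7 (@Lb.g g6 (@Lb.g g5 (@Lb.g g4 (@Lb.d (nat_lit 1) (nat_lit 5) (nat_lit 130) (@Lb.fm (nat_lit 9) t98)))))))))))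
noncomputable def l35315 : Lb := (@Lb.d (nat_lit 5) (nat_lit 608) (nat_lit 0) (@Lb.r r289 (@Lb.r r279 (@Lb.r r584 (@Lb.r r102 (@Lb.g g6 (@Lb.r r387 (@Lb.t (@Lb.fm (nat_lit 3) t151)))))))))
noncomputable def l35316 : Lb := (@Lb.r r323 (@Lb.g g10 (@Lb.r r90 (@Lb.r r584 (@Lb.r r299 (@Lb.r r289 (@Lb.d (nat_lit 10) (nat_lit 656) (nat_lit 0) (@Lb.t (@Lb.fp (nat_lit 3) t1115)))))))))
noncomputable def l35317 : Lb := (@Lb.r r323 (@Lb.d (nat_lit 8) (nat_lit 514) (nat_lit 1) (@Lb.g g8 (@Lb.g g9 (@Lb.g g6 (@Lb.r r387 (@Lb.r r105 (@Lb.r r36 (@Lb.d (nat_lit 41) (nat_lit 2) (nat_lit 2) (@Lb.t (@Lb.fm (nat_lit 9) t40)))))))))))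
noncomputable def l35318 : Lb := (@Lb.d (nat_lit 8) (nat_lit 260) (nat_lit 128) (@Lb.g g9 (@Lb.g g10 (@Lb.g g11 (@Lb.r r586 (@Lb.r r584 (@Lb.r r299 (@Lb.r r289 (@Lb.d (nat_lit 617) (nat_lit 137) (nat_lit 665) (@Lb.t (@Lb.fm (nat_lit 9) t1343)))))))))))
noncomputable def l35319 : Lb := (@Lb.d (nat_lit 388) (nat_lit 164) (nat_lit 280) (@Lb.r r1556 (@Lb.r r2579 (@Lb.r r2321 (@Lb.g g7 (@Lb.g g10 (@Lb.d (nat_lit 0) (nat_lit 8) (nat_lit 98) (@Lb.fm (nat_lit 3) t3595))))))))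
noncomputable def l35320 : Lb := (@Lb.d (nat_lit 0) (nat_lit 4) (nat_lit 64) (@Lb.g g9 (@Lb.g g10 (@Lb.g g11 (@Lb.r r1555 (@Lb.r r417 (@Lb.r r98 (@Lb.r r24 (@Lb.d (nat_lit 330) (nat_lit 33) (nat_lit 136) (@Lb.t (@Lb.fp (nat_lit 9) t2899)))))))))))
noncomputable def l35321 : Lb := (@Lb.d (nat_lit 1) (nat_lit 0) (nat_lit 73) (@Lb.g g8 (@Lb.g g9 (@Lb.g g10 (@Lb.g g11 (@Lb.r r323 (@Lb.r r322 (@Lb.r r105 (@Lb.r r36 (@Lb.d (nat_lit 42) (nat_lit 2) (nat_lit 9) (@Lb.fm (nat_lit 9) t167)))))))))))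
noncomputable def l35322 : Lb := (@Lb.r r323 (@Lb.d (nat_lit 40) (nat_lit 260) (nat_lit 0) (@Lb.g g9 (@Lb.g g10 (@Lb.r r584 (@Lb.r r299 (@Lb.r r289 (@Lb.d (nat_lit 10) (nat_lit 137) (nat_lit 136) (@Lb.fm (nat_lit 3) t5520)))))))))
noncomputable def l35323 : Lb := (@Lb.r r323 (@Lb.d (nat_lit 1) (nat_lit 0) (nat_lit 1) (@Lb.g g8 (@Lb.g g9 (@Lb.g g6 (@Lb.r r387 (@Lb.r r2145 (@Lb.r r24 (@Lb.d (nat_lit 10) (nat_lit 73) (nat_lit 34) (@Lb.t (@Lb.fp (nat_lit 9) t40)))))))))))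
noncomputable def l35324 : Lb := (@Lb.d (nat_lit 8) (nat_lit 4) (nat_lit 64) (@Lb.g g9 (@Lb.g g10 (@Lb.g g7 (@Lb.r r386 (@Lb.r r24 (@Lb.r r101 (@Lb.d (nat_lit 322) (nat_lit 6) (nat_lit 584) (@Lb.t (@Lb.fm (nat_lit 9) t3629))))))))))
noncomputable def l35325 : Lb := (@Lb.d (nat_lit 1) (nat_lit 0) (nat_lit 130) (@Lb.g g8 (@Lb.g g9 (@Lb.g g10 (@Lb.g g11 (@Lb.r r2730 (@Lb.r r648 (@Lb.r r539 (@Lb.r r289 (@Lb.r r36 (@Lb.d (nat_lit 644) (nat_lit 42) (nat_lit 258) (@Lb.fp (nat_lit 9) t1425))))))))))))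
noncomputable def l35326 : Lb := (@Lb.r r323 (@Lb.g g10 (@Lb.r r90 (@Lb.r r584 (@Lb.r r299 (@Lb.r r289 (@Lb.d (nat_lit 10) (nat_lit 154) (nat_lit 2) (@Lb.t (@Lb.fp (nat_lit 3) t1115)))))))))
noncomputable def l35327 : Lb := (@Lb.r r323 (@Lb.d (nat_lit 130) (nat_lit 265) (nat_lit 2) (@Lb.g g8 (@Lb.g g9 (@Lb.g g10 (@Lb.r r2705 (@Lb.r r663 (@Lb.r r578 (@Lb.r r72 (@Lb.d (nat_lit 640) (nat_lit 69) (nat_lit 356) (@Lb.t (@Lb.fm (nat_lit 9) t248))))))))))))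
noncomputable def l35328 : Lb := (@Lb.d (nat_lit 384) (nat_lit 512) (nat_lit 0) (@Lb.r r21 (@Lb.g g4 (@Lb.d (nat_lit 577) (nat_lit 0) (nat_lit 0) (@Lb.r r25 (@Lb.t (@Lb.fm (nat_lit 3) t3325)))))))
noncomputable def l35329 : Lb := (@Lb.d (nat_lit 128) (nat_lit 288) (nat_lit 128) (@Lb.g g11 (@Lb.r r1305 (@Lb.r r1432 (@Lb.r r2458 (@Lb.r r2407 (@Lb.d (nat_lit 601) (nat_lit 138) (nat_lit 294) (@Lb.t (@Lb.fp (nat_lit 3) t6268)))))))))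
noncomputable def l35330 : Lb := (@Lb.r r263 (@Lb.d (nat_lit 0) (nat_lit 258) (nat_lit 2) (@Lb.g g8 (@Lb.g g9 (@Lb.g g10 (@Lb.r r422 (@Lb.r r327 (@Lb.r r409 (@Lb.r r388 (@Lb.d (nat_lit 337) (nat_lit 10) (nat_lit 513) (@Lb.t (@Lb.fp (nat_lit 9) t4575))))))))))))
noncomputable def l35331 : Lb := (@Lb.r r21 (@Lb.g g4 (@Lb.r r2329 (@Lb.r r2308 (@Lb.d (nat_lit 0) (nat_lit 256) (nat_lit 320) (@Lb.t (@Lb.fm (nat_lit 3) t6107)))))))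
noncomputable def l35332 : Lb := (@Lb.d (nat_lit 160) (nat_lit 264) (nat_lit 130) (@Lb.g g10 (@Lb.g g11 (@Lb.r r2712 (@Lb.r r2645 (@Lb.r r599 (@Lb.r r1370 (@Lb.d (nat_lit 296) (nat_lit 17) (nat_lit 165) (@Lb.fm (nat_lit 3) t716)))))))))
noncomputable def l35333 : Lb := (@Lb.r r323 (@Lb.d (nat_lit 2) (nat_lit 290) (nat_lit 2) (@Lb.g g8 (@Lb.g g9 (@Lb.g g10 (@Lb.r r599 (@Lb.r r420 (@Lb.r r102 (@Lb.d (nat_lit 537) (nat_lit 2) (nat_lit 34) (@Lb.t (@Lb.fp (nat_lit 9) t1231)))))))))))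
noncomputable def l35334 : Lb := (@Lb.r r273 (@Lb.r r322 (@Lb.d (nat_lit 517) (nat_lit 512) (nat_lit 320) (@Lb.g g4 (@Lb.g g7 (@Lb.r r1381 (@Lb.r r146 (@Lb.d (nat_lit 1) (nat_lit 0) (nat_lit 388) (@Lb.fm (nat_lit 3) t3049)))))))))
noncomputable def l35335 : Lb := (@Lb.d (nat_lit 133) (nat_lit 384) (nat_lit 256) (@Lb.r r2385 (@Lb.r r1447 (@Lb.r r2470 (@Lb.r r421 (@Lb.g g4 (@Lb.d (nat_lit 1) (nat_lit 0) (nat_lit 0) (@Lb.t (@Lb.fm (nat_lit 3) t6269)))))))))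
noncomputable def l35336 : Lb := (@Lb.d (nat_lit 10) (nat_lit 384) (nat_lit 0) (@Lb.g g5 (@Lb.d (nat_lit 4) (nat_lit 1) (nat_lit 0) (@Lb.t (@Lb.fm (nat_lit 3) t2)))))
noncomputable def l35337 : Lb := (@Lb.d (nat_lit 9) (nat_lit 8) (nat_lit 128) (@Lb.g g8 (@Lb.g g10 (@Lb.g g11 (@Lb.r r81 (@Lb.r r1446 (@Lb.r r1611 (@Lb.r r1608 (@Lb.d (nat_lit 97) (nat_lit 80) (nat_lit 162) (@Lb.t (@Lb.fp (nat_lit 9) t282)))))))))))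
noncomputable def l35338 : Lb := (@Lb.d (nat_lit 101) (nat_lit 134) (nat_lit 609) (@Lb.r r24 (@Lb.r r2145 (@Lb.r r1642 (@Lb.r r1451 (@Lb.g g7 (@Lb.g g6 (@Lb.g g4 (@Lb.d (nat_lit 1) (nat_lit 0) (nat_lit 8) (@Lb.t (@Lb.fp (nat_lit 9) t4618)))))))))))
noncomputable def l35339 : Lb := (@Lb.d (nat_lit 321) (nat_lit 512) (nat_lit 610) (@Lb.r r24 (@Lb.r r386 (@Lb.r r1563 (@Lb.r r421 (@Lb.g g6 (@Lb.g g5 (@Lb.d (nat_lit 0) (nat_lit 1) (nat_lit 1) (@Lb.r r291 (@Lb.fm (nat_lit 3) t475))))))))))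
noncomputable def l35340 : Lb := (@Lb.d (nat_lit 32) (nat_lit 0) (nat_lit 662) (@Lb.r r24 (@Lb.r r1173 (@Lb.r r386 (@Lb.r r1443 (@Lb.g g7 (@Lb.g g6 (@Lb.g g5 (@Lb.d (nat_lit 0) (nat_lit 34) (nat_lit 1) (@Lb.t (@Lb.fp (nat_lit 9) t719)))))))))))
noncomputable def l35341 : Lb := (@Lb.d (nat_lit 32) (nat_lit 258) (nat_lit 0) (@Lb.g g8 (@Lb.g g9 (@Lb.r r1387 (@Lb.r r1622 (@Lb.r r1433 (@Lb.r r1428 (@Lb.d (nat_lit 358) (nat_lit 90) (nat_lit 394) (@Lb.fm (nat_lit 3) t386)))))))))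
noncomputable def l35342 : Lb := (@Lb.r r322 (@Lb.d (nat_lit 0) (nat_lit 514) (nat_lit 576) (@Lb.g g8 (@Lb.g g9 (@Lb.g g7 (@Lb.r r2409 (@Lb.r r146 (@Lb.r r2436 (@Lb.d (nat_lit 610) (nat_lit 0) (nat_lit 322) (@Lb.t (@Lb.fp (nat_lit 9) t311)))))))))))
noncomputable def l35343 : Lb := (@Lb.d (nat_lit 9) (nat_lit 145) (nat_lit 0) (@Lb.g g8 (@Lb.g g9 (@Lb.r r322 (@Lb.r r1667 (@Lb.r r578 (@Lb.r r168 (@Lb.d (nat_lit 517) (nat_lit 0) (nat_lit 32) (@Lb.fm (nat_lit 3) t40)))))))))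
noncomputable def l35344 : Lb := (@Lb.d (nat_lit 0) (nat_lit 257) (nat_lit 66) (@Lb.g g8 (@Lb.g g9 (@Lb.g g10 (@Lb.g g7 (@Lb.r r386 (@Lb.r r36 (@Lb.r r1061 (@Lb.d (nat_lit 517) (nat_lit 6) (nat_lit 10) (@Lb.fm (nat_lit 9) t45))))))))))
noncomputable def l35345 : Lb := (@Lb.d (nat_lit 169) (nat_lit 585) (nat_lit 278) (@Lb.r r20 (@Lb.r r2149 (@Lb.r r386 (@Lb.g g11 (@Lb.g g6 (@Lb.g g5 (@Lb.g g4 (@Lb.d (nat_lit 8) (nat_lit 2) (nat_lit 129) (@Lb.fm (nat_lit 9) t898))))))))))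
noncomputable def l35346 : Lb := (@Lb.d (nat_lit 17) (nat_lit 265) (nat_lit 130) (@Lb.g g8 (@Lb.g g9 (@Lb.g g10 (@Lb.g g11 (@Lb.r r1703 (@Lb.r r2597 (@Lb.r r660 (@Lb.r r2118 (@Lb.r r132 (@Lb.d (nat_lit 521) (nat_lit 32) (nat_lit 609) (@Lb.fp (nat_lit 9) t866))))))))))))
noncomputable def l35347 : Lb := (@Lb.r r322 (@Lb.d (nat_lit 2) (nat_lit 544) (nat_lit 128) (@Lb.g g8 (@Lb.g g11 (@Lb.r r357 (@Lb.r r146 (@Lb.d (nat_lit 26) (nat_lit 2) (nat_lit 145) (@Lb.fm (nat_lit 3) t221))))))))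
noncomputable def l35348 : Lb := (@Lb.d (nat_lit 33) (nat_lit 2) (nat_lit 129) (@Lb.g g8 (@Lb.g g9 (@Lb.g g6 (@Lb.g g11 (@Lb.r r612 (@Lb.r r263 (@Lb.r r97 (@Lb.r r516 (@Lb.d (nat_lit 1) (nat_lit 41) (nat_lit 128) (@Lb.fp (nat_lit 9) t622)))))))))))
noncomputable def l35349 : Lb := (@Lb.d (nat_lit 160) (nat_lit 512) (nat_lit 2) (@Lb.g g10 (@Lb.g g11 (@Lb.r r264 (@Lb.r r2647 (@Lb.r r1433 (@Lb.r r410 (@Lb.d (nat_lit 405) (nat_lit 153) (nat_lit 537) (@Lb.fp (nat_lit 3) t2344)))))))))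
noncomputable def l35350 : Lb := (@Lb.r r82 (@Lb.d (nat_lit 8) (nat_lit 522) (nat_lit 64) (@Lb.g g9 (@Lb.g g7 (@Lb.r r1626 (@Lb.r r1624 (@Lb.r r2341 (@Lb.d (nat_lit 586) (nat_lit 137) (nat_lit 258) (@Lb.fp (nat_lit 3) t2073)))))))))
noncomputable def l35351 : Lb := (@Lb.d (nat_lit 8) (nat_lit 9) (nat_lit 65) (@Lb.g g9 (@Lb.g g10 (@Lb.g g7 (@Lb.r r2470 (@Lb.r r1624 (@Lb.r r2341 (@Lb.d (nat_lit 585) (nat_lit 137) (nat_lit 258) (@Lb.t (@Lb.fm (nat_lit 9) t2655))))))))))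
noncomputable def l35352 : Lb := (@Lb.r r21 (@Lb.d (nat_lit 129) (nat_lit 0) (nat_lit 66) (@Lb.g g8 (@Lb.g g10 (@Lb.g g11 (@Lb.r r1691 (@Lb.r r1689 (@Lb.r r1370 (@Lb.r r1348 (@Lb.d (nat_lit 393) (nat_lit 25) (nat_lit 586) (@Lb.t (@Lb.fp (nat_lit 9) t74))))))))))))
noncomputable def l35353 : Lb := (@Lb.r r21 (@Lb.d (nat_lit 33) (nat_lit 256) (nat_lit 129) (@Lb.g g8 (@Lb.g g10 (@Lb.g g11 (@Lb.r r1691 (@Lb.r r1381 (@Lb.r r2202 (@Lb.r r2372 (@Lb.d (nat_lit 548) (nat_lit 37) (nat_lit 330) (@Lb.t (@Lb.fp (nat_lit 9) t1751))))))))))))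
noncomputable def l35354 : Lb := (@Lb.d (nat_lit 2) (nat_lit 416) (nat_lit 0) (@Lb.g g8 (@Lb.g g5 (@Lb.r r322 (@Lb.r r1667 (@Lb.r r578 (@Lb.r r24 (@Lb.d (nat_lit 10) (nat_lit 0) (nat_lit 68) (@Lb.fp (nat_lit 3) t40)))))))))
noncomputable def l35355 : Lb := (@Lb.d (nat_lit 32) (nat_lit 513) (nat_lit 0) (@Lb.g g8 (@Lb.g g9 (@Lb.r r2411 (@Lb.r r598 (@Lb.r r2457 (@Lb.r r1428 (@Lb.d (nat_lit 101) (nat_lit 90) (nat_lit 354) (@Lb.fm (nat_lit 3) t188)))))))))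
noncomputable def l35356 : Lb := (@Lb.r r323 (@Lb.d (nat_lit 2) (nat_lit 9) (nat_lit 0) (@Lb.g g8 (@Lb.g g9 (@Lb.g g6 (@Lb.r r387 (@Lb.r r2153 (@Lb.r r36 (@Lb.d (nat_lit 297) (nat_lit 2) (nat_lit 34) (@Lb.t (@Lb.fm (nat_lit 9) t68)))))))))))
noncomputable def l35357 : Lb := (@Lb.d (nat_lit 0) (nat_lit 2) (nat_lit 73) (@Lb.g g9 (@Lb.g g10 (@Lb.g g11 (@Lb.r r2691 (@Lb.r r145 (@Lb.r r594 (@Lb.r r1169 (@Lb.d (nat_lit 273) (nat_lit 33) (nat_lit 586) (@Lb.t (@Lb.fp (nat_lit 9) t4718)))))))))))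
noncomputable def l35358 : Lb := (@Lb.d (nat_lit 0) (nat_lit 65) (nat_lit 170) (@Lb.r r673 (@Lb.r r2454 (@Lb.r r1096 (@Lb.r r1319 (@Lb.g g9 (@Lb.t (@Lb.fm (nat_lit 3) t807))))))))
noncomputable def l35359 : Lb := (@Lb.g g7 (@Lb.r r584 (@Lb.r r86 (@Lb.r r289 (@Lb.r r132 (@Lb.d (nat_lit 577) (nat_lit 330) (nat_lit 578) (@Lb.t (@Lb.fm (nat_lit 3) t668))))))))
noncomputable def l35360 : Lb := (@Lb.d (nat_lit 2) (nat_lit 4) (nat_lit 0) (@Lb.g g8 (@Lb.g g9 (@Lb.g g10 (@Lb.r r1699 (@Lb.r r2705 (@Lb.r r356 (@Lb.r r154 (@Lb.d (nat_lit 681) (nat_lit 73) (nat_lit 340) (@Lb.t (@Lb.fm (nat_lit 9) t602)))))))))))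
noncomputable def l35361 : Lb := (@Lb.d (nat_lit 129) (nat_lit 0) (nat_lit 0) (@Lb.g g8 (@Lb.g g9 (@Lb.r r394 (@Lb.r r599 (@Lb.r r289 (@Lb.r r152 (@Lb.d (nat_lit 26) (nat_lit 69) (nat_lit 129) (@Lb.fm (nat_lit 3) t119)))))))))
noncomputable def l35362 : Lb := (@Lb.d (nat_lit 384) (nat_lit 406) (nat_lit 609) (@Lb.r r2635 (@Lb.r r406 (@Lb.r r72 (@Lb.r r97 (@Lb.g g7 (@Lb.g g6 (@Lb.d (nat_lit 80) (nat_lit 0) (nat_lit 65) (@Lb.fm (nat_lit 3) t4020)))))))))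
noncomputable def l35363 : Lb := (@Lb.d (nat_lit 2) (nat_lit 2) (nat_lit 2) (@Lb.g g8 (@Lb.g g9 (@Lb.g g10 (@Lb.g g11 (@Lb.r r2411 (@Lb.r r106 (@Lb.r r25 (@Lb.d (nat_lit 9) (nat_lit 21) (nat_lit 662) (@Lb.fp (nat_lit 9) t51))))))))))
noncomputable def l35364 : Lb := (@Lb.d (nat_lit 2) (nat_lit 258) (nat_lit 130) (@Lb.g g8 (@Lb.g g9 (@Lb.g g10 (@Lb.g g11 (@Lb.r r2411 (@Lb.r r106 (@Lb.r r25 (@Lb.d (nat_lit 9) (nat_lit 21) (nat_lit 662) (@Lb.fp (nat_lit 9) t51))))))))))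
noncomputable def l35365 : Lb := (@Lb.r r82 (@Lb.d (nat_lit 133) (nat_lit 290) (nat_lit 64) (@Lb.g g8 (@Lb.g g9 (@Lb.g g11 (@Lb.r r1450 (@Lb.r r2593 (@Lb.r r2692 (@Lb.r r1447 (@Lb.d (nat_lit 520) (nat_lit 74) (nat_lit 128) (@Lb.t (@Lb.fm (nat_lit 9) t1755))))))))))))
noncomputable def l35366 : Lb := (@Lb.d (nat_lit 549) (nat_lit 514) (nat_lit 612) (@Lb.r r1418 (@Lb.r r1444 (@Lb.r r2587 (@Lb.g g7 (@Lb.g g6 (@Lb.g g5 (@Lb.d (nat_lit 4) (nat_lit 17) (nat_lit 72) (@Lb.r r36 (@Lb.t (@Lb.fp (nat_lit 9) t3032)))))))))))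
noncomputable def l35367 : Lb := (@Lb.d (nat_lit 400) (nat_lit 512) (nat_lit 394) (@Lb.r r24 (@Lb.r r101 (@Lb.r r2403 (@Lb.g g11 (@Lb.g g10 (@Lb.fm (nat_lit 3) t4466)))))))
noncomputable def l35368 : Lb := (@Lb.d (nat_lit 144) (nat_lit 66) (nat_lit 128) (@Lb.g g8 (@Lb.g g9 (@Lb.g g10 (@Lb.g g11 (@Lb.r r387 (@Lb.r r1130 (@Lb.r r1060 (@Lb.d (nat_lit 88) (nat_lit 129) (nat_lit 9) (@Lb.fp (nat_lit 9) t3197))))))))))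
noncomputable def l35369 : Lb := (@Lb.d (nat_lit 144) (nat_lit 578) (nat_lit 128) (@Lb.g g8 (@Lb.g g9 (@Lb.g g10 (@Lb.g g11 (@Lb.r r387 (@Lb.r r1130 (@Lb.r r1060 (@Lb.d (nat_lit 81) (nat_lit 130) (nat_lit 9) (@Lb.fp (nat_lit 9) t3200))))))))))
noncomputable def l35370 : Lb := (@Lb.r r21 (@Lb.d (nat_lit 2) (nat_lit 512) (nat_lit 73) (@Lb.g g8 (@Lb.g g10 (@Lb.g g11 (@Lb.r r1543 (@Lb.r r1350 (@Lb.r r97 (@Lb.r r72 (@Lb.d (nat_lit 342) (nat_lit 8) (nat_lit 613) (@Lb.t (@Lb.fp (nat_lit 9) t61))))))))))))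
noncomputable def l35371 : Lb := (@Lb.r r82 (@Lb.d (nat_lit 128) (nat_lit 258) (nat_lit 128) (@Lb.g g8 (@Lb.g g9 (@Lb.g g11 (@Lb.r r1697 (@Lb.r r1447 (@Lb.r r98 (@Lb.r r584 (@Lb.d (nat_lit 104) (nat_lit 2) (nat_lit 138) (@Lb.t (@Lb.fm (nat_lit 9) t5634))))))))))))
noncomputable def l35372 : Lb := (@Lb.r r82 (@Lb.d (nat_lit 130) (nat_lit 258) (nat_lit 128) (@Lb.g g8 (@Lb.g g9 (@Lb.g g11 (@Lb.r r1697 (@Lb.r r1447 (@Lb.r r98 (@Lb.r r584 (@Lb.d (nat_lit 104) (nat_lit 4) (nat_lit 136) (@Lb.t (@Lb.fm (nat_lit 9) t3734))))))))))))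
noncomputable def l35373 : Lb := (@Lb.d (nat_lit 550) (nat_lit 554) (nat_lit 582) (@Lb.r r1109 (@Lb.r r323 (@Lb.r r1706 (@Lb.g g7 (@Lb.g g6 (@Lb.g g5 (@Lb.g g4 (@Lb.d (nat_lit 8) (nat_lit 24) (nat_lit 64) (@Lb.fm (nat_lit 9) t309))))))))))
noncomputable def l35374 : Lb := (@Lb.d (nat_lit 130) (nat_lit 33) (nat_lit 2) (@Lb.g g8 (@Lb.g g5 (@Lb.g g10 (@Lb.r r1434 (@Lb.r r583 (@Lb.r r392 (@Lb.d (nat_lit 337) (nat_lit 128) (nat_lit 650) (@Lb.t (@Lb.fm (nat_lit 9) t2542))))))))))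
noncomputable def l35375 : Lb := (@Lb.r r275 (@Lb.d (nat_lit 0) (nat_lit 512) (nat_lit 2) (@Lb.g g9 (@Lb.g g10 (@Lb.r r2563 (@Lb.r r1618 (@Lb.r r1625 (@Lb.r r24 (@Lb.d (nat_lit 577) (nat_lit 0) (nat_lit 293) (@Lb.fm (nat_lit 3) t377))))))))))
noncomputable def l35376 : Lb := (@Lb.r r70 (@Lb.d (nat_lit 128) (nat_lit 2) (nat_lit 128) (@Lb.g g8 (@Lb.g g9 (@Lb.g g11 (@Lb.r r619 (@Lb.r r1410 (@Lb.r r89 (@Lb.r r104 (@Lb.d (nat_lit 8) (nat_lit 154) (nat_lit 338) (@Lb.t (@Lb.fp (nat_lit 9) t6270))))))))))))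
noncomputable def l35377 : Lb := (@Lb.r r323 (@Lb.d (nat_lit 161) (nat_lit 546) (nat_lit 2) (@Lb.g g8 (@Lb.g g9 (@Lb.g g10 (@Lb.r r1351 (@Lb.r r2712 (@Lb.r r586 (@Lb.d (nat_lit 145) (nat_lit 137) (nat_lit 552) (@Lb.t (@Lb.fp (nat_lit 9) t2304)))))))))))
noncomputable def l35378 : Lb := (@Lb.r r323 (@Lb.d (nat_lit 138) (nat_lit 0) (nat_lit 0) (@Lb.g g8 (@Lb.g g10 (@Lb.r r90 (@Lb.r r661 (@Lb.r r1687 (@Lb.r r2376 (@Lb.d (nat_lit 417) (nat_lit 69) (nat_lit 676) (@Lb.fm (nat_lit 3) t387))))))))))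
noncomputable def l35379 : Lb := (@Lb.r r70 (@Lb.d (nat_lit 128) (nat_lit 258) (nat_lit 128) (@Lb.g g8 (@Lb.g g9 (@Lb.g g11 (@Lb.r r619 (@Lb.r r1410 (@Lb.r r89 (@Lb.r r104 (@Lb.d (nat_lit 6) (nat_lit 153) (nat_lit 338) (@Lb.t (@Lb.fp (nat_lit 9) t6270))))))))))))
noncomputable def l35380 : Lb := (@Lb.d (nat_lit 10) (nat_lit 256) (nat_lit 128) (@Lb.g g8 (@Lb.g g10 (@Lb.g g11 (@Lb.r r357 (@Lb.r r1626 (@Lb.r r603 (@Lb.r r1112 (@Lb.d (nat_lit 681) (nat_lit 70) (nat_lit 594) (@Lb.t (@Lb.fp (nat_lit 9) t1261)))))))))))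
noncomputable def l35381 : Lb := (@Lb.r r323 (@Lb.d (nat_lit 161) (nat_lit 290) (nat_lit 2) (@Lb.g g8 (@Lb.g g9 (@Lb.g g10 (@Lb.r r1351 (@Lb.r r2712 (@Lb.r r586 (@Lb.d (nat_lit 145) (nat_lit 130) (nat_lit 553) (@Lb.t (@Lb.fp (nat_lit 9) t6271)))))))))))
noncomputable def l35382 : Lb := (@Lb.d (nat_lit 661) (nat_lit 258) (nat_lit 70) (@Lb.r r2644 (@Lb.r r330 (@Lb.r r407 (@Lb.g g9 (@Lb.g g4 (@Lb.d (nat_lit 22) (nat_lit 130) (nat_lit 0) (@Lb.fp (nat_lit 3) t6272))))))))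
noncomputable def l35383 : Lb := (@Lb.r r81 (@Lb.d (nat_lit 662) (nat_lit 256) (nat_lit 170) (@Lb.g g8 (@Lb.g g10 (@Lb.g g11 (@Lb.r r679 (@Lb.r r2081 (@Lb.d (nat_lit 614) (nat_lit 166) (nat_lit 100) (@Lb.t (@Lb.fm (nat_lit 9) t6273))))))))))
noncomputable def l35384 : Lb := (@Lb.d (nat_lit 8) (nat_lit 266) (nat_lit 65) (@Lb.g g9 (@Lb.g g10 (@Lb.g g11 (@Lb.r r344 (@Lb.r r1415 (@Lb.r r2438 (@Lb.r r2705 (@Lb.d (nat_lit 161) (nat_lit 160) (nat_lit 577) (@Lb.t (@Lb.fm (nat_lit 9) t3144)))))))))))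
noncomputable def l35385 : Lb := (@Lb.d (nat_lit 8) (nat_lit 522) (nat_lit 65) (@Lb.g g9 (@Lb.g g10 (@Lb.g g11 (@Lb.r r344 (@Lb.r r1415 (@Lb.r r2438 (@Lb.r r2705 (@Lb.d (nat_lit 161) (nat_lit 170) (nat_lit 576) (@Lb.t (@Lb.fm (nat_lit 9) t3144)))))))))))
noncomputable def l35386 : Lb := (@Lb.r r322 (@Lb.d (nat_lit 0) (nat_lit 545) (nat_lit 516) (@Lb.g g8 (@Lb.g g9 (@Lb.g g7 (@Lb.r r1362 (@Lb.r r81 (@Lb.r r24 (@Lb.d (nat_lit 8) (nat_lit 153) (nat_lit 417) (@Lb.t (@Lb.fm (nat_lit 9) t6274)))))))))))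
noncomputable def l35387 : Lb := (@Lb.d (nat_lit 8) (nat_lit 554) (nat_lit 133) (@Lb.g g9 (@Lb.g g10 (@Lb.g g11 (@Lb.r r2435 (@Lb.r r642 (@Lb.r r2584 (@Lb.r r1429 (@Lb.d (nat_lit 164) (nat_lit 90) (nat_lit 385) (@Lb.t (@Lb.fm (nat_lit 9) t4384)))))))))))
noncomputable def l35388 : Lb := (@Lb.r r82 (@Lb.r r263 (@Lb.d (nat_lit 0) (nat_lit 98) (nat_lit 0) (@Lb.g g8 (@Lb.g g9 (@Lb.r r1559 (@Lb.r r150 (@Lb.r r72 (@Lb.d (nat_lit 594) (nat_lit 130) (nat_lit 8) (@Lb.fp (nat_lit 3) t3906))))))))))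
noncomputable def l35389 : Lb := (@Lb.d (nat_lit 170) (nat_lit 72) (nat_lit 642) (@Lb.r r85 (@Lb.r r40 (@Lb.r r418 (@Lb.g g11 (@Lb.g g6 (@Lb.g g5 (@Lb.d (nat_lit 0) (nat_lit 9) (nat_lit 2) (@Lb.t (@Lb.fm (nat_lit 9) t3815))))))))))
noncomputable def l35390 : Lb := (@Lb.d (nat_lit 145) (nat_lit 577) (nat_lit 640) (@Lb.r r101 (@Lb.r r24 (@Lb.r r402 (@Lb.g g11 (@Lb.g g6 (@Lb.fm (nat_lit 3) t4022)))))))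
noncomputable def l35391 : Lb := (@Lb.r r338 (@Lb.d (nat_lit 4) (nat_lit 8) (nat_lit 648) (@Lb.g g8 (@Lb.g g9 (@Lb.g g11 (@Lb.r r2438 (@Lb.r r2712 (@Lb.r r1445 (@Lb.d (nat_lit 168) (nat_lit 36) (nat_lit 106) (@Lb.t (@Lb.fp (nat_lit 9) t3687)))))))))))
noncomputable def l35392 : Lb := (@Lb.d (nat_lit 0) (nat_lit 514) (nat_lit 130) (@Lb.g g8 (@Lb.g g9 (@Lb.g g10 (@Lb.g g11 (@Lb.r r2705 (@Lb.r r2198 (@Lb.r r584 (@Lb.r r2651 (@Lb.d (nat_lit 97) (nat_lit 34) (nat_lit 681) (@Lb.fm (nat_lit 9) t6275)))))))))))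
noncomputable def l35393 : Lb := (@Lb.r r82 (@Lb.r r263 (@Lb.d (nat_lit 0) (nat_lit 354) (nat_lit 0) (@Lb.g g8 (@Lb.g g9 (@Lb.r r1559 (@Lb.r r150 (@Lb.r r72 (@Lb.d (nat_lit 601) (nat_lit 129) (nat_lit 8) (@Lb.fp (nat_lit 3) t6276))))))))))
noncomputable def l35394 : Lb := (@Lb.d (nat_lit 2) (nat_lit 2) (nat_lit 130) (@Lb.g g8 (@Lb.g g9 (@Lb.g g10 (@Lb.g g11 (@Lb.r r2411 (@Lb.r r386 (@Lb.r r100 (@Lb.r r21 (@Lb.r r36 (@Lb.d (nat_lit 97) (nat_lit 74) (nat_lit 662) (@Lb.fm (nat_lit 9) t1080))))))))))))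
noncomputable def l35395 : Lb := (@Lb.d (nat_lit 2) (nat_lit 32) (nat_lit 64) (@Lb.g g8 (@Lb.g g11 (@Lb.r r1321 (@Lb.r r1428 (@Lb.r r1446 (@Lb.r r603 (@Lb.d (nat_lit 421) (nat_lit 90) (nat_lit 16) (@Lb.fp (nat_lit 3) t4322)))))))))
noncomputable def l35396 : Lb := (@Lb.d (nat_lit 662) (nat_lit 345) (nat_lit 545) (@Lb.r r2644 (@Lb.r r82 (@Lb.r r599 (@Lb.g g6 (@Lb.g g5 (@Lb.g g4 (@Lb.d (nat_lit 65) (nat_lit 1) (nat_lit 1) (@Lb.r r291 (@Lb.t (@Lb.fm (nat_lit 9) t1038)))))))))))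
noncomputable def l35397 : Lb := (@Lb.d (nat_lit 298) (nat_lit 1) (nat_lit 384) (@Lb.r r2069 (@Lb.r r1128 (@Lb.r r386 (@Lb.g g11 (@Lb.g g5 (@Lb.d (nat_lit 0) (nat_lit 1) (nat_lit 0) (@Lb.r r98 (@Lb.fp (nat_lit 3) t2123)))))))))
noncomputable def l35398 : Lb := (@Lb.d (nat_lit 101) (nat_lit 545) (nat_lit 4) (@Lb.g g8 (@Lb.g g9 (@Lb.g g10 (@Lb.g g11 (@Lb.r r1666 (@Lb.r r1435 (@Lb.r r105 (@Lb.r r292 (@Lb.d (nat_lit 648) (nat_lit 85) (nat_lit 517) (@Lb.fp (nat_lit 9) t3734)))))))))))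
noncomputable def l35399 : Lb := (@Lb.r r82 (@Lb.d (nat_lit 32) (nat_lit 33) (nat_lit 64) (@Lb.g g8 (@Lb.g g9 (@Lb.g g11 (@Lb.r r1571 (@Lb.r r582 (@Lb.r r1445 (@Lb.r r408 (@Lb.d (nat_lit 340) (nat_lit 144) (nat_lit 356) (@Lb.t (@Lb.fp (nat_lit 9) t2203))))))))))))
noncomputable def l35400 : Lb := (@Lb.r r323 (@Lb.d (nat_lit 576) (nat_lit 322) (nat_lit 10) (@Lb.g g4 (@Lb.g g9 (@Lb.g g10 (@Lb.r r595 (@Lb.r r338 (@Lb.d (nat_lit 293) (nat_lit 64) (nat_lit 153) (@Lb.t (@Lb.fm (nat_lit 9) t4450))))))))))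
noncomputable def l35401 : Lb := (@Lb.r r68 (@Lb.r r81 (@Lb.g g6 (@Lb.r r1441 (@Lb.r r2647 (@Lb.r r1418 (@Lb.r r292 (@Lb.d (nat_lit 613) (nat_lit 256) (nat_lit 528) (@Lb.t (@Lb.fp (nat_lit 3) t5207))))))))))
noncomputable def l35402 : Lb := (@Lb.d (nat_lit 136) (nat_lit 1) (nat_lit 25) (@Lb.g g8 (@Lb.g g9 (@Lb.g g6 (@Lb.r r1385 (@Lb.r r2583 (@Lb.r r1320 (@Lb.d (nat_lit 645) (nat_lit 162) (nat_lit 262) (@Lb.t (@Lb.fm (nat_lit 9) t791))))))))))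
noncomputable def l35403 : Lb := (@Lb.d (nat_lit 666) (nat_lit 516) (nat_lit 65) (@Lb.r r97 (@Lb.r r331 (@Lb.r r646 (@Lb.g g7 (@Lb.g g6 (@Lb.g g8 (@Lb.d (nat_lit 576) (nat_lit 0) (nat_lit 65) (@Lb.r r25 (@Lb.t (@Lb.fm (nat_lit 9) t6277)))))))))))
noncomputable def l35404 : Lb := (@Lb.d (nat_lit 666) (nat_lit 2) (nat_lit 64) (@Lb.r r97 (@Lb.r r331 (@Lb.r r646 (@Lb.g g7 (@Lb.g g6 (@Lb.g g8 (@Lb.d (nat_lit 576) (nat_lit 0) (nat_lit 65) (@Lb.r r25 (@Lb.t (@Lb.fm (nat_lit 9) t6249)))))))))))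
noncomputable def l35405 : Lb := (@Lb.r r82 (@Lb.d (nat_lit 137) (nat_lit 1) (nat_lit 0) (@Lb.g g8 (@Lb.g g9 (@Lb.r r1571 (@Lb.r r1193 (@Lb.r r98 (@Lb.r r392 (@Lb.d (nat_lit 360) (nat_lit 4) (nat_lit 585) (@Lb.fp (nat_lit 3) t892))))))))))
noncomputable def l35406 : Lb := (@Lb.d (nat_lit 33) (nat_lit 6) (nat_lit 64) (@Lb.g g8 (@Lb.g g9 (@Lb.g g10 (@Lb.g g11 (@Lb.r r610 (@Lb.r r599 (@Lb.r r297 (@Lb.r r1060 (@Lb.d (nat_lit 642) (nat_lit 104) (nat_lit 66) (@Lb.fp (nat_lit 9) t6278)))))))))))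
noncomputable def l35407 : Lb := (@Lb.r r70 (@Lb.d (nat_lit 385) (nat_lit 514) (nat_lit 128) (@Lb.g g8 (@Lb.g g9 (@Lb.g g11 (@Lb.r r1419 (@Lb.r r402 (@Lb.r r97 (@Lb.d (nat_lit 586) (nat_lit 73) (nat_lit 544) (@Lb.t (@Lb.fm (nat_lit 9) t6279)))))))))))
noncomputable def l35408 : Lb := (@Lb.d (nat_lit 129) (nat_lit 518) (nat_lit 74) (@Lb.g g8 (@Lb.g g9 (@Lb.g g10 (@Lb.g g11 (@Lb.r r2571 (@Lb.r r405 (@Lb.r r406 (@Lb.r r2084 (@Lb.d (nat_lit 290) (nat_lit 160) (nat_lit 345) (@Lb.fp (nat_lit 9) t3715)))))))))))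
noncomputable def l35409 : Lb := (@Lb.d (nat_lit 33) (nat_lit 258) (nat_lit 0) (@Lb.g g8 (@Lb.g g9 (@Lb.r r363 (@Lb.r r2646 (@Lb.r r409 (@Lb.r r388 (@Lb.d (nat_lit 105) (nat_lit 130) (nat_lit 154) (@Lb.fm (nat_lit 3) t2503)))))))))
noncomputable def l35410 : Lb := (@Lb.d (nat_lit 1) (nat_lit 66) (nat_lit 136) (@Lb.g g4 (@Lb.g g9 (@Lb.g g11 (@Lb.r r402 (@Lb.r r579 (@Lb.d (nat_lit 293) (nat_lit 10) (nat_lit 33) (@Lb.t (@Lb.fp (nat_lit 9) t3056)))))))))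
noncomputable def l35411 : Lb := (@Lb.r r323 (@Lb.d (nat_lit 2) (nat_lit 265) (nat_lit 1) (@Lb.g g8 (@Lb.g g9 (@Lb.g g10 (@Lb.r r1691 (@Lb.r r2217 (@Lb.r r424 (@Lb.r r394 (@Lb.d (nat_lit 336) (nat_lit 74) (nat_lit 345) (@Lb.t (@Lb.fm (nat_lit 9) t4885))))))))))))
noncomputable def l35412 : Lb := (@Lb.d (nat_lit 1) (nat_lit 578) (nat_lit 136) (@Lb.g g4 (@Lb.g g9 (@Lb.g g11 (@Lb.r r402 (@Lb.r r579 (@Lb.d (nat_lit 293) (nat_lit 0) (nat_lit 34) (@Lb.t (@Lb.fp (nat_lit 9) t3056)))))))))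
noncomputable def l35413 : Lb := (@Lb.d (nat_lit 33) (nat_lit 38) (nat_lit 66) (@Lb.g g8 (@Lb.g g9 (@Lb.g g10 (@Lb.g g11 (@Lb.r r1691 (@Lb.r r1192 (@Lb.r r618 (@Lb.r r1633 (@Lb.d (nat_lit 592) (nat_lit 145) (nat_lit 646) (@Lb.fm (nat_lit 9) t6280)))))))))))
noncomputable def l35414 : Lb := (@Lb.d (nat_lit 33) (nat_lit 260) (nat_lit 130) (@Lb.g g8 (@Lb.g g9 (@Lb.g g10 (@Lb.g g11 (@Lb.r r1571 (@Lb.r r2657 (@Lb.r r2458 (@Lb.r r388 (@Lb.d (nat_lit 666) (nat_lit 129) (nat_lit 666) (@Lb.fm (nat_lit 9) t6281)))))))))))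
noncomputable def l35415 : Lb := (@Lb.d (nat_lit 166) (nat_lit 2) (nat_lit 596) (@Lb.r r2453 (@Lb.r r1366 (@Lb.r r1160 (@Lb.r r2723 (@Lb.g g7 (@Lb.g g6 (@Lb.g g5 (@Lb.d (nat_lit 4) (nat_lit 25) (nat_lit 129) (@Lb.t (@Lb.fp (nat_lit 9) t5116)))))))))))
noncomputable def l35416 : Lb := (@Lb.r r277 (@Lb.r r326 (@Lb.d (nat_lit 162) (nat_lit 0) (nat_lit 520) (@Lb.g g8 (@Lb.g g11 (@Lb.r r402 (@Lb.r r2661 (@Lb.d (nat_lit 578) (nat_lit 129) (nat_lit 0) (@Lb.fm (nat_lit 3) t1774)))))))))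
noncomputable def l35417 : Lb := (@Lb.d (nat_lit 292) (nat_lit 406) (nat_lit 297) (@Lb.r r2341 (@Lb.r r1627 (@Lb.g g6 (@Lb.g g5 (@Lb.d (nat_lit 16) (nat_lit 17) (nat_lit 1) (@Lb.r r387 (@Lb.fm (nat_lit 3) t6282))))))))
noncomputable def l35418 : Lb := (@Lb.r r331 (@Lb.d (nat_lit 160) (nat_lit 258) (nat_lit 2) (@Lb.g g8 (@Lb.g g9 (@Lb.g g10 (@Lb.r r1433 (@Lb.r r2343 (@Lb.r r1604 (@Lb.r r1098 (@Lb.d (nat_lit 337) (nat_lit 138) (nat_lit 70) (@Lb.t (@Lb.fm (nat_lit 9) t2106))))))))))))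
noncomputable def l35419 : Lb := (@Lb.r r82 (@Lb.d (nat_lit 2) (nat_lit 272) (nat_lit 0) (@Lb.g g8 (@Lb.g g9 (@Lb.g g11 (@Lb.r r2315 (@Lb.r r2394 (@Lb.r r1573 (@Lb.r r24 (@Lb.d (nat_lit 74) (nat_lit 1) (nat_lit 517) (@Lb.t (@Lb.fm (nat_lit 9) t3045))))))))))))
noncomputable def l35420 : Lb := (@Lb.d (nat_lit 646) (nat_lit 153) (nat_lit 96) (@Lb.r r1301 (@Lb.r r2667 (@Lb.g g10 (@Lb.g g5 (@Lb.g g4 (@Lb.d (nat_lit 8) (nat_lit 0) (nat_lit 33) (@Lb.r r387 (@Lb.t (@Lb.fp (nat_lit 9) t1409))))))))))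
noncomputable def l35421 : Lb := (@Lb.d (nat_lit 8) (nat_lit 10) (nat_lit 65) (@Lb.g g9 (@Lb.g g10 (@Lb.g g7 (@Lb.r r2474 (@Lb.r r1556 (@Lb.r r2409 (@Lb.d (nat_lit 424) (nat_lit 137) (nat_lit 294) (@Lb.t (@Lb.fp (nat_lit 9) t4))))))))))
noncomputable def l35422 : Lb := (@Lb.d (nat_lit 646) (nat_lit 598) (nat_lit 82) (@Lb.r r1301 (@Lb.r r1366 (@Lb.r r683 (@Lb.g g7 (@Lb.g g6 (@Lb.g g5 (@Lb.g g4 (@Lb.d (nat_lit 1) (nat_lit 1) (nat_lit 70) (@Lb.fm (nat_lit 9) t2488))))))))))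
noncomputable def l35423 : Lb := (@Lb.r r21 (@Lb.r r323 (@Lb.d (nat_lit 33) (nat_lit 256) (nat_lit 2) (@Lb.g g8 (@Lb.g g10 (@Lb.r r651 (@Lb.r r2209 (@Lb.r r2658 (@Lb.r r1156 (@Lb.d (nat_lit 593) (nat_lit 24) (nat_lit 646) (@Lb.fm (nat_lit 3) t125)))))))))))
noncomputable def l35424 : Lb := (@Lb.r r21 (@Lb.d (nat_lit 128) (nat_lit 0) (nat_lit 130) (@Lb.g g8 (@Lb.g g10 (@Lb.g g11 (@Lb.r r2634 (@Lb.r r2632 (@Lb.r r619 (@Lb.r r97 (@Lb.d (nat_lit 73) (nat_lit 20) (nat_lit 425) (@Lb.t (@Lb.fp (nat_lit 9) t2753))))))))))))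
noncomputable def l35425 : Lb := (@Lb.d (nat_lit 128) (nat_lit 258) (nat_lit 130) (@Lb.g g8 (@Lb.g g9 (@Lb.g g10 (@Lb.g g11 (@Lb.r r2666 (@Lb.r r2664 (@Lb.r r299 (@Lb.r r2337 (@Lb.d (nat_lit 521) (nat_lit 2) (nat_lit 426) (@Lb.fp (nat_lit 9) t631)))))))))))
noncomputable def l35426 : Lb := (@Lb.r r323 (@Lb.d (nat_lit 32) (nat_lit 9) (nat_lit 1) (@Lb.g g8 (@Lb.g g9 (@Lb.g g10 (@Lb.r r683 (@Lb.r r1186 (@Lb.r r2389 (@Lb.r r2660 (@Lb.d (nat_lit 138) (nat_lit 154) (nat_lit 409) (@Lb.t (@Lb.fm (nat_lit 9) t6283))))))))))))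
noncomputable def l35427 : Lb := (@Lb.r r275 (@Lb.d (nat_lit 8) (nat_lit 258) (nat_lit 2) (@Lb.g g8 (@Lb.g g9 (@Lb.g g10 (@Lb.r r2666 (@Lb.r r2664 (@Lb.r r2585 (@Lb.r r2579 (@Lb.d (nat_lit 265) (nat_lit 73) (nat_lit 130) (@Lb.t (@Lb.fm (nat_lit 9) t244))))))))))))
noncomputable def l35428 : Lb := (@Lb.d (nat_lit 0) (nat_lit 288) (nat_lit 320) (@Lb.g g10 (@Lb.g g7 (@Lb.r r402 (@Lb.r r1633 (@Lb.r r8 (@Lb.d (nat_lit 10) (nat_lit 153) (nat_lit 330) (@Lb.fm (nat_lit 3) t6284))))))))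
noncomputable def l35429 : Lb := (@Lb.d (nat_lit 0) (nat_lit 256) (nat_lit 128) (@Lb.g g4 (@Lb.g g5 (@Lb.g g10 (@Lb.g g11 (@Lb.r r2626 (@Lb.d (nat_lit 1) (nat_lit 0) (nat_lit 256) (@Lb.fp (nat_lit 9) t2))))))))
noncomputable def l35430 : Lb := (@Lb.d (nat_lit 9) (nat_lit 294) (nat_lit 64) (@Lb.g g8 (@Lb.g g9 (@Lb.g g10 (@Lb.g g11 (@Lb.r r1313 (@Lb.r r2715 (@Lb.r r1610 (@Lb.r r2564 (@Lb.d (nat_lit 417) (nat_lit 137) (nat_lit 401) (@Lb.fp (nat_lit 9) t1347)))))))))))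
noncomputable def l35431 : Lb := (@Lb.d (nat_lit 18) (nat_lit 420) (nat_lit 288) (@Lb.r r1635 (@Lb.r r402 (@Lb.r r597 (@Lb.g g7 (@Lb.g g5 (@Lb.g g4 (@Lb.d (nat_lit 1) (nat_lit 2) (nat_lit 68) (@Lb.t (@Lb.fp (nat_lit 9) t6285))))))))))
noncomputable def l35432 : Lb := (@Lb.d (nat_lit 2) (nat_lit 257) (nat_lit 64) (@Lb.g g8 (@Lb.g g9 (@Lb.g g10 (@Lb.g g11 (@Lb.r r2467 (@Lb.r r425 (@Lb.r r1188 (@Lb.r r1158 (@Lb.d (nat_lit 673) (nat_lit 10) (nat_lit 133) (@Lb.fp (nat_lit 9) t3998)))))))))))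
noncomputable def l35433 : Lb := (@Lb.d (nat_lit 390) (nat_lit 662) (nat_lit 546) (@Lb.r r2325 (@Lb.r r2390 (@Lb.r r683 (@Lb.g g7 (@Lb.g g6 (@Lb.g g5 (@Lb.g g4 (@Lb.d (nat_lit 1) (nat_lit 18) (nat_lit 8) (@Lb.fm (nat_lit 9) t309))))))))))
noncomputable def l35434 : Lb := (@Lb.d (nat_lit 1) (nat_lit 293) (nat_lit 65) (@Lb.r r21 (@Lb.r r342 (@Lb.g g7 (@Lb.g g6 (@Lb.g g5 (@Lb.g g4 (@Lb.d (nat_lit 1) (nat_lit 8) (nat_lit 130) (@Lb.fp (nat_lit 9) t40)))))))))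
noncomputable def l35435 : Lb := (@Lb.d (nat_lit 9) (nat_lit 6) (nat_lit 0) (@Lb.g g8 (@Lb.g g9 (@Lb.g g10 (@Lb.r r683 (@Lb.r r1610 (@Lb.r r145 (@Lb.r r2564 (@Lb.d (nat_lit 417) (nat_lit 2) (nat_lit 418) (@Lb.t (@Lb.fp (nat_lit 9) t6099)))))))))))
noncomputable def l35436 : Lb := (@Lb.d (nat_lit 0) (nat_lit 512) (nat_lit 2) (@Lb.g g4 (@Lb.g g5 (@Lb.g g10 (@Lb.r r2435 (@Lb.r r386 (@Lb.d (nat_lit 1) (nat_lit 0) (nat_lit 356) (@Lb.t (@Lb.fp (nat_lit 9) t2)))))))))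
noncomputable def l35437 : Lb := (@Lb.d (nat_lit 512) (nat_lit 0) (nat_lit 68) (@Lb.r r24 (@Lb.r r2341 (@Lb.r r354 (@Lb.r r1683 (@Lb.g g7 (@Lb.g g6 (@Lb.g g5 (@Lb.d (nat_lit 0) (nat_lit 5) (nat_lit 129) (@Lb.t (@Lb.fm (nat_lit 9) t868)))))))))))
noncomputable def l35438 : Lb := (@Lb.g g9 (@Lb.g g6 (@Lb.g g11 (@Lb.r r1346 (@Lb.r r387 (@Lb.d (nat_lit 0) (nat_lit 512) (nat_lit 594) (@Lb.t (@Lb.fp (nat_lit 9) t2))))))))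
noncomputable def l35439 : Lb := (@Lb.d (nat_lit 0) (nat_lit 256) (nat_lit 4) (@Lb.g g9 (@Lb.g g10 (@Lb.g g11 (@Lb.r r1363 (@Lb.r r1362 (@Lb.r r101 (@Lb.r r24 (@Lb.d (nat_lit 129) (nat_lit 0) (nat_lit 418) (@Lb.t (@Lb.fm (nat_lit 9) t592)))))))))))
noncomputable def l35440 : Lb := (@Lb.r r323 (@Lb.d (nat_lit 0) (nat_lit 512) (nat_lit 41) (@Lb.g g9 (@Lb.g g6 (@Lb.r r387 (@Lb.d (nat_lit 0) (nat_lit 0) (nat_lit 85) (@Lb.fp (nat_lit 3) t2)))))))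
noncomputable def l35441 : Lb := (@Lb.d (nat_lit 10) (nat_lit 512) (nat_lit 130) (@Lb.g g8 (@Lb.g g10 (@Lb.g g11 (@Lb.r r1602 (@Lb.r r2659 (@Lb.r r149 (@Lb.r r1636 (@Lb.d (nat_lit 41) (nat_lit 154) (nat_lit 289) (@Lb.t (@Lb.fp (nat_lit 9) t3998)))))))))))
noncomputable def l35442 : Lb := (@Lb.d (nat_lit 32) (nat_lit 2) (nat_lit 73) (@Lb.g g9 (@Lb.g g10 (@Lb.g g11 (@Lb.r r2695 (@Lb.r r1352 (@Lb.r r2182 (@Lb.r r97 (@Lb.d (nat_lit 545) (nat_lit 138) (nat_lit 408) (@Lb.t (@Lb.fm (nat_lit 9) t242)))))))))))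
noncomputable def l35443 : Lb := (@Lb.d (nat_lit 258) (nat_lit 512) (nat_lit 129) (@Lb.r r1044 (@Lb.r r2153 (@Lb.r r104 (@Lb.g g6 (@Lb.d (nat_lit 0) (nat_lit 4) (nat_lit 1) (@Lb.t (@Lb.fm (nat_lit 3) t1219))))))))
noncomputable def l35444 : Lb := (@Lb.d (nat_lit 258) (nat_lit 0) (nat_lit 1) (@Lb.r r1044 (@Lb.r r2153 (@Lb.r r104 (@Lb.g g7 (@Lb.g g6 (@Lb.d (nat_lit 0) (nat_lit 4) (nat_lit 1) (@Lb.fm (nat_lit 3) t1219))))))))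
noncomputable def l35445 : Lb := (@Lb.r r2118 (@Lb.d (nat_lit 10) (nat_lit 256) (nat_lit 0) (@Lb.g g8 (@Lb.r r1045 (@Lb.r r1060 (@Lb.d (nat_lit 266) (nat_lit 130) (nat_lit 0) (@Lb.t (@Lb.fp (nat_lit 3) t1221))))))))
noncomputable def l35446 : Lb := (@Lb.d (nat_lit 9) (nat_lit 512) (nat_lit 130) (@Lb.g g8 (@Lb.g g10 (@Lb.g g11 (@Lb.r r2138 (@Lb.r r1685 (@Lb.r r2455 (@Lb.r r1608 (@Lb.d (nat_lit 104) (nat_lit 2) (nat_lit 546) (@Lb.t (@Lb.fp (nat_lit 9) t282)))))))))))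
noncomputable def l35447 : Lb := (@Lb.d (nat_lit 8) (nat_lit 514) (nat_lit 130) (@Lb.g g9 (@Lb.g g10 (@Lb.g g11 (@Lb.r r419 (@Lb.r r98 (@Lb.r r24 (@Lb.r r101 (@Lb.d (nat_lit 289) (nat_lit 129) (nat_lit 152) (@Lb.t (@Lb.fm (nat_lit 9) t1233)))))))))))
noncomputable def l35448 : Lb := (@Lb.d (nat_lit 274) (nat_lit 514) (nat_lit 0) (@Lb.g g4 (@Lb.g g9 (@Lb.r r2339 (@Lb.r r2469 (@Lb.r r2150 (@Lb.d (nat_lit 1) (nat_lit 86) (nat_lit 133) (@Lb.fm (nat_lit 3) t219))))))))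
noncomputable def l35449 : Lb := (@Lb.d (nat_lit 0) (nat_lit 658) (nat_lit 389) (@Lb.r r579 (@Lb.r r1362 (@Lb.g g7 (@Lb.g g6 (@Lb.g g5 (@Lb.g g8 (@Lb.d (nat_lit 5) (nat_lit 1) (nat_lit 65) (@Lb.fp (nat_lit 9) t285)))))))))
noncomputable def l35450 : Lb := (@Lb.d (nat_lit 0) (nat_lit 402) (nat_lit 389) (@Lb.r r579 (@Lb.r r1362 (@Lb.g g7 (@Lb.g g6 (@Lb.g g5 (@Lb.g g8 (@Lb.d (nat_lit 5) (nat_lit 1) (nat_lit 134) (@Lb.fp (nat_lit 9) t285)))))))))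
noncomputable def l35451 : Lb := (@Lb.r r82 (@Lb.d (nat_lit 2) (nat_lit 289) (nat_lit 64) (@Lb.g g8 (@Lb.g g9 (@Lb.g g11 (@Lb.r r1543 (@Lb.r r2152 (@Lb.r r2438 (@Lb.r r1361 (@Lb.d (nat_lit 613) (nat_lit 4) (nat_lit 36) (@Lb.t (@Lb.fp (nat_lit 9) t4411))))))))))))
noncomputable def l35452 : Lb := (@Lb.d (nat_lit 0) (nat_lit 554) (nat_lit 73) (@Lb.r r674 (@Lb.r r595 (@Lb.g g7 (@Lb.g g6 (@Lb.g g5 (@Lb.g g8 (@Lb.d (nat_lit 2) (nat_lit 129) (nat_lit 10) (@Lb.fm (nat_lit 9) t126)))))))))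
noncomputable def l35453 : Lb := (@Lb.d (nat_lit 0) (nat_lit 258) (nat_lit 66) (@Lb.g g9 (@Lb.g g10 (@Lb.g g11 (@Lb.r r1443 (@Lb.r r386 (@Lb.r r97 (@Lb.r r36 (@Lb.d (nat_lit 5) (nat_lit 24) (nat_lit 324) (@Lb.t (@Lb.fm (nat_lit 9) t309)))))))))))
noncomputable def l35454 : Lb := (@Lb.d (nat_lit 0) (nat_lit 298) (nat_lit 73) (@Lb.r r674 (@Lb.r r595 (@Lb.g g7 (@Lb.g g6 (@Lb.g g5 (@Lb.g g8 (@Lb.d (nat_lit 2) (nat_lit 129) (nat_lit 74) (@Lb.fm (nat_lit 9) t126)))))))))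
noncomputable def l35455 : Lb := (@Lb.d (nat_lit 32) (nat_lit 520) (nat_lit 64) (@Lb.g g10 (@Lb.g g11 (@Lb.r r360 (@Lb.r r1641 (@Lb.r r2411 (@Lb.r r598 (@Lb.d (nat_lit 676) (nat_lit 40) (nat_lit 0) (@Lb.fm (nat_lit 3) t100)))))))))
noncomputable def l35456 : Lb := (@Lb.d (nat_lit 0) (nat_lit 38) (nat_lit 65) (@Lb.r r338 (@Lb.g g7 (@Lb.g g6 (@Lb.g g5 (@Lb.g g8 (@Lb.d (nat_lit 2) (nat_lit 129) (nat_lit 128) (@Lb.fm (nat_lit 9) t126))))))))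
noncomputable def l35457 : Lb := (@Lb.r r323 (@Lb.d (nat_lit 133) (nat_lit 0) (nat_lit 2) (@Lb.g g8 (@Lb.g g9 (@Lb.g g10 (@Lb.r r599 (@Lb.r r98 (@Lb.r r97 (@Lb.r r408 (@Lb.d (nat_lit 149) (nat_lit 152) (nat_lit 138) (@Lb.t (@Lb.fp (nat_lit 9) t51))))))))))))
noncomputable def l35458 : Lb := (@Lb.d (nat_lit 10) (nat_lit 256) (nat_lit 10) (@Lb.g g8 (@Lb.g g10 (@Lb.r r2325 (@Lb.r r555 (@Lb.r r676 (@Lb.r r1158 (@Lb.d (nat_lit 2) (nat_lit 85) (nat_lit 424) (@Lb.fm (nat_lit 3) t124)))))))))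
noncomputable def l35459 : Lb := (@Lb.d (nat_lit 146) (nat_lit 261) (nat_lit 321) (@Lb.r r289 (@Lb.r r358 (@Lb.r r132 (@Lb.g g7 (@Lb.g g6 (@Lb.d (nat_lit 16) (nat_lit 16) (nat_lit 577) (@Lb.fp (nat_lit 3) t1329))))))))
noncomputable def l35460 : Lb := (@Lb.d (nat_lit 32) (nat_lit 2) (nat_lit 130) (@Lb.g g9 (@Lb.g g10 (@Lb.g g11 (@Lb.r r1447 (@Lb.r r293 (@Lb.r r72 (@Lb.r r150 (@Lb.d (nat_lit 533) (nat_lit 0) (nat_lit 273) (@Lb.t (@Lb.fp (nat_lit 9) t296)))))))))))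
noncomputable def l35461 : Lb := (@Lb.d (nat_lit 32) (nat_lit 258) (nat_lit 2) (@Lb.g g9 (@Lb.g g10 (@Lb.r r1555 (@Lb.r r293 (@Lb.r r72 (@Lb.r r150 (@Lb.d (nat_lit 518) (nat_lit 0) (nat_lit 385) (@Lb.fm (nat_lit 3) t88)))))))))
noncomputable def l35462 : Lb := (@Lb.d (nat_lit 2) (nat_lit 514) (nat_lit 10) (@Lb.g g8 (@Lb.g g9 (@Lb.g g10 (@Lb.r r1555 (@Lb.r r297 (@Lb.r r1188 (@Lb.r r1158 (@Lb.d (nat_lit 2) (nat_lit 5) (nat_lit 417) (@Lb.t (@Lb.fp (nat_lit 9) t88)))))))))))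
noncomputable def l35463 : Lb := (@Lb.d (nat_lit 2) (nat_lit 2) (nat_lit 2) (@Lb.g g8 (@Lb.g g9 (@Lb.g g10 (@Lb.r r515 (@Lb.r r145 (@Lb.r r356 (@Lb.r r154 (@Lb.r r132 (@Lb.d (nat_lit 9) (nat_lit 18) (nat_lit 133) (@Lb.t (@Lb.fm (nat_lit 9) t521))))))))))))
noncomputable def l35464 : Lb := (@Lb.d (nat_lit 32) (nat_lit 545) (nat_lit 2) (@Lb.g g9 (@Lb.g g10 (@Lb.r r2579 (@Lb.r r2341 (@Lb.r r72 (@Lb.r r150 (@Lb.d (nat_lit 518) (nat_lit 0) (nat_lit 32) (@Lb.fm (nat_lit 3) t100)))))))))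
noncomputable def l35465 : Lb := (@Lb.d (nat_lit 10) (nat_lit 512) (nat_lit 10) (@Lb.g g8 (@Lb.g g10 (@Lb.r r2325 (@Lb.r r555 (@Lb.r r676 (@Lb.r r1158 (@Lb.d (nat_lit 610) (nat_lit 85) (nat_lit 136) (@Lb.fm (nat_lit 3) t3263)))))))))
noncomputable def l35466 : Lb := (@Lb.d (nat_lit 2) (nat_lit 288) (nat_lit 64) (@Lb.g g8 (@Lb.g g11 (@Lb.r r2337 (@Lb.r r531 (@Lb.r r2658 (@Lb.d (nat_lit 324) (nat_lit 162) (nat_lit 384) (@Lb.fm (nat_lit 3) t6286))))))))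
noncomputable def l35467 : Lb := (@Lb.r r21 (@Lb.d (nat_lit 132) (nat_lit 256) (nat_lit 130) (@Lb.g g8 (@Lb.g g10 (@Lb.g g11 (@Lb.r r1433 (@Lb.r r683 (@Lb.r r2698 (@Lb.r r2724 (@Lb.d (nat_lit 533) (nat_lit 85) (nat_lit 134) (@Lb.t (@Lb.fm (nat_lit 9) t1606))))))))))))
noncomputable def l35468 : Lb := (@Lb.r r21 (@Lb.r r331 (@Lb.d (nat_lit 417) (nat_lit 260) (nat_lit 2) (@Lb.g g8 (@Lb.g g10 (@Lb.r r409 (@Lb.r r2731 (@Lb.r r1674 (@Lb.d (nat_lit 646) (nat_lit 136) (nat_lit 421) (@Lb.fm (nat_lit 3) t1606))))))))))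
noncomputable def l35469 : Lb := (@Lb.r r323 (@Lb.d (nat_lit 393) (nat_lit 256) (nat_lit 8) (@Lb.g g4 (@Lb.g g10 (@Lb.r r609 (@Lb.r r1379 (@Lb.r r1626 (@Lb.d (nat_lit 614) (nat_lit 70) (nat_lit 421) (@Lb.fm (nat_lit 3) t6287)))))))))
noncomputable def l35470 : Lb := (@Lb.d (nat_lit 130) (nat_lit 258) (nat_lit 66) (@Lb.g g8 (@Lb.g g9 (@Lb.g g10 (@Lb.g g11 (@Lb.r r648 (@Lb.r r283 (@Lb.r r2705 (@Lb.r r2202 (@Lb.r r2180 (@Lb.d (nat_lit 644) (nat_lit 132) (nat_lit 162) (@Lb.fp (nat_lit 9) t3772))))))))))))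
noncomputable def l35471 : Lb := (@Lb.d (nat_lit 154) (nat_lit 281) (nat_lit 73) (@Lb.g g8 (@Lb.g g9 (@Lb.g g10 (@Lb.g g11 (@Lb.r r2327 (@Lb.r r676 (@Lb.r r2214 (@Lb.r r345 (@Lb.d (nat_lit 586) (nat_lit 20) (nat_lit 65) (@Lb.fm (nat_lit 9) t6288)))))))))))
noncomputable def l35472 : Lb := (@Lb.d (nat_lit 2) (nat_lit 528) (nat_lit 128) (@Lb.g g8 (@Lb.g g9 (@Lb.g g10 (@Lb.g g11 (@Lb.r r2339 (@Lb.r r1321 (@Lb.r r1188 (@Lb.r r1158 (@Lb.d (nat_lit 0) (nat_lit 5) (nat_lit 672) (@Lb.fp (nat_lit 9) t635)))))))))))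
noncomputable def l35473 : Lb := (@Lb.d (nat_lit 2) (nat_lit 4) (nat_lit 74) (@Lb.g g8 (@Lb.g g9 (@Lb.g g10 (@Lb.g g11 (@Lb.r r2691 (@Lb.r r297 (@Lb.r r1188 (@Lb.r r1158 (@Lb.d (nat_lit 641) (nat_lit 10) (nat_lit 133) (@Lb.fm (nat_lit 9) t981)))))))))))
noncomputable def l35474 : Lb := (@Lb.g g4 (@Lb.g g10 (@Lb.g g7 (@Lb.r r609 (@Lb.r r402 (@Lb.r r2631 (@Lb.r r1416 (@Lb.d (nat_lit 66) (nat_lit 256) (nat_lit 597) (@Lb.t (@Lb.fm (nat_lit 9) t1069))))))))))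
noncomputable def l35475 : Lb := (@Lb.d (nat_lit 8) (nat_lit 2) (nat_lit 130) (@Lb.g g9 (@Lb.g g10 (@Lb.g g11 (@Lb.r r419 (@Lb.r r386 (@Lb.r r24 (@Lb.r r101 (@Lb.d (nat_lit 538) (nat_lit 150) (nat_lit 662) (@Lb.t (@Lb.fp (nat_lit 9) t1080)))))))))))
noncomputable def l35476 : Lb := (@Lb.d (nat_lit 2) (nat_lit 272) (nat_lit 128) (@Lb.g g8 (@Lb.g g9 (@Lb.g g10 (@Lb.g g11 (@Lb.r r2339 (@Lb.r r1321 (@Lb.r r1188 (@Lb.r r1158 (@Lb.d (nat_lit 0) (nat_lit 10) (nat_lit 673) (@Lb.fp (nat_lit 9) t635)))))))))))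
noncomputable def l35477 : Lb := (@Lb.r r275 (@Lb.d (nat_lit 130) (nat_lit 2) (nat_lit 2) (@Lb.g g8 (@Lb.g g9 (@Lb.g g10 (@Lb.r r599 (@Lb.r r98 (@Lb.r r2456 (@Lb.d (nat_lit 408) (nat_lit 82) (nat_lit 513) (@Lb.t (@Lb.fm (nat_lit 9) t6289)))))))))))
noncomputable def l35478 : Lb := (@Lb.r r21 (@Lb.r r70 (@Lb.d (nat_lit 409) (nat_lit 512) (nat_lit 128) (@Lb.g g8 (@Lb.g g11 (@Lb.r r2459 (@Lb.r r1410 (@Lb.r r37 (@Lb.d (nat_lit 1) (nat_lit 152) (nat_lit 265) (@Lb.fm (nat_lit 3) t6290))))))))))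
noncomputable def l35479 : Lb := (@Lb.d (nat_lit 130) (nat_lit 256) (nat_lit 129) (@Lb.g g8 (@Lb.g g9 (@Lb.g g10 (@Lb.g g11 (@Lb.r r106 (@Lb.r r360 (@Lb.r r361 (@Lb.r r2455 (@Lb.r r1060 (@Lb.d (nat_lit 106) (nat_lit 24) (nat_lit 85) (@Lb.fp (nat_lit 9) t3931))))))))))))
noncomputable def l35480 : Lb := (@Lb.d (nat_lit 136) (nat_lit 514) (nat_lit 128) (@Lb.g g9 (@Lb.g g11 (@Lb.r r260 (@Lb.r r1627 (@Lb.r r401 (@Lb.r r2114 (@Lb.d (nat_lit 74) (nat_lit 153) (nat_lit 404) (@Lb.fp (nat_lit 3) t6291)))))))))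
noncomputable def l35481 : Lb := (@Lb.d (nat_lit 680) (nat_lit 273) (nat_lit 66) (@Lb.r r2152 (@Lb.r r2329 (@Lb.r r355 (@Lb.g g10 (@Lb.g g5 (@Lb.g g4 (@Lb.d (nat_lit 100) (nat_lit 18) (nat_lit 21) (@Lb.t (@Lb.fp (nat_lit 9) t730))))))))))
noncomputable def l35482 : Lb := (@Lb.d (nat_lit 1) (nat_lit 582) (nat_lit 96) (@Lb.r r289 (@Lb.r r2707 (@Lb.r r586 (@Lb.g g7 (@Lb.g g4 (@Lb.d (nat_lit 80) (nat_lit 0) (nat_lit 0) (@Lb.r r586 (@Lb.r r537 (@Lb.fm (nat_lit 3) t771))))))))))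
noncomputable def l35483 : Lb := (@Lb.r r322 (@Lb.d (nat_lit 128) (nat_lit 322) (nat_lit 136) (@Lb.g g9 (@Lb.g g11 (@Lb.r r1434 (@Lb.r r1448 (@Lb.r r2647 (@Lb.d (nat_lit 657) (nat_lit 38) (nat_lit 258) (@Lb.fp (nat_lit 3) t578)))))))))
noncomputable def l35484 : Lb := (@Lb.d (nat_lit 146) (nat_lit 66) (nat_lit 130) (@Lb.g g8 (@Lb.g g5 (@Lb.g g10 (@Lb.g g11 (@Lb.r r603 (@Lb.r r2626 (@Lb.r r2200 (@Lb.d (nat_lit 585) (nat_lit 136) (nat_lit 409) (@Lb.fm (nat_lit 9) t2437))))))))))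
noncomputable def l35485 : Lb := (@Lb.d (nat_lit 128) (nat_lit 282) (nat_lit 1) (@Lb.g g9 (@Lb.g g10 (@Lb.g g11 (@Lb.r r614 (@Lb.r r1621 (@Lb.r r420 (@Lb.r r603 (@Lb.d (nat_lit 609) (nat_lit 102) (nat_lit 18) (@Lb.t (@Lb.fp (nat_lit 9) t730)))))))))))
noncomputable def l35486 : Lb := (@Lb.d (nat_lit 2) (nat_lit 538) (nat_lit 1) (@Lb.g g8 (@Lb.g g9 (@Lb.g g10 (@Lb.g g11 (@Lb.r r427 (@Lb.r r420 (@Lb.r r102 (@Lb.r r1109 (@Lb.r r164 (@Lb.d (nat_lit 545) (nat_lit 70) (nat_lit 89) (@Lb.fp (nat_lit 9) t6292))))))))))))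
noncomputable def l35487 : Lb := (@Lb.r r70 (@Lb.r r263 (@Lb.d (nat_lit 2) (nat_lit 514) (nat_lit 0) (@Lb.g g8 (@Lb.g g9 (@Lb.r r279 (@Lb.r r1410 (@Lb.r r40 (@Lb.r r25 (@Lb.d (nat_lit 552) (nat_lit 165) (nat_lit 37) (@Lb.fm (nat_lit 3) t6293)))))))))))
noncomputable def l35488 : Lb := (@Lb.d (nat_lit 513) (nat_lit 384) (nat_lit 32) (@Lb.r r20 (@Lb.r r2145 (@Lb.r r2378 (@Lb.r r2707 (@Lb.g g7 (@Lb.g g6 (@Lb.d (nat_lit 0) (nat_lit 0) (nat_lit 64) (@Lb.fm (nat_lit 3) t2185)))))))))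
noncomputable def l35489 : Lb := (@Lb.d (nat_lit 518) (nat_lit 390) (nat_lit 161) (@Lb.r r1432 (@Lb.r r289 (@Lb.r r362 (@Lb.g g11 (@Lb.g g5 (@Lb.g g4 (@Lb.d (nat_lit 18) (nat_lit 0) (nat_lit 384) (@Lb.r r578 (@Lb.t (@Lb.fm (nat_lit 9) t6294)))))))))))
noncomputable def l35490 : Lb := (@Lb.d (nat_lit 642) (nat_lit 264) (nat_lit 0) (@Lb.g g8 (@Lb.g g9 (@Lb.r r2194 (@Lb.r r2129 (@Lb.d (nat_lit 9) (nat_lit 128) (nat_lit 402) (@Lb.fp (nat_lit 3) t6295)))))))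
noncomputable def l35491 : Lb := (@Lb.d (nat_lit 281) (nat_lit 272) (nat_lit 280) (@Lb.r r20 (@Lb.r r2145 (@Lb.r r2394 (@Lb.r r2691 (@Lb.g g7 (@Lb.g g6 (@Lb.d (nat_lit 0) (nat_lit 0) (nat_lit 65) (@Lb.fm (nat_lit 3) t2383)))))))))
noncomputable def l35492 : Lb := (@Lb.d (nat_lit 144) (nat_lit 0) (nat_lit 66) (@Lb.g g8 (@Lb.g g9 (@Lb.g g10 (@Lb.g g11 (@Lb.r r276 (@Lb.r r1563 (@Lb.r r2453 (@Lb.r r2390 (@Lb.r r676 (@Lb.d (nat_lit 265) (nat_lit 66) (nat_lit 665) (@Lb.fm (nat_lit 9) t1101))))))))))))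
noncomputable def l35493 : Lb := (@Lb.d (nat_lit 0) (nat_lit 578) (nat_lit 0) (@Lb.g g9 (@Lb.r r1126 (@Lb.r r2436 (@Lb.d (nat_lit 264) (nat_lit 101) (nat_lit 597) (@Lb.t (@Lb.fp (nat_lit 3) t6296)))))))
noncomputable def l35494 : Lb := (@Lb.r r322 (@Lb.d (nat_lit 2) (nat_lit 272) (nat_lit 648) (@Lb.g g8 (@Lb.g g9 (@Lb.g g7 (@Lb.r r361 (@Lb.r r1124 (@Lb.r r2122 (@Lb.d (nat_lit 514) (nat_lit 10) (nat_lit 82) (@Lb.t (@Lb.fm (nat_lit 9) t1700)))))))))))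
noncomputable def l35495 : Lb := (@Lb.d (nat_lit 130) (nat_lit 2) (nat_lit 66) (@Lb.g g8 (@Lb.g g9 (@Lb.g g10 (@Lb.g g11 (@Lb.r r427 (@Lb.r r386 (@Lb.r r100 (@Lb.r r1045 (@Lb.r r2084 (@Lb.d (nat_lit 264) (nat_lit 85) (nat_lit 520) (@Lb.fm (nat_lit 9) t6297))))))))))))
noncomputable def l35496 : Lb := (@Lb.r r70 (@Lb.r r263 (@Lb.d (nat_lit 401) (nat_lit 0) (nat_lit 0) (@Lb.g g4 (@Lb.g g9 (@Lb.r r267 (@Lb.r r1410 (@Lb.d (nat_lit 1) (nat_lit 0) (nat_lit 546) (@Lb.fm (nat_lit 3) t6298)))))))))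
noncomputable def l35497 : Lb := (@Lb.d (nat_lit 0) (nat_lit 256) (nat_lit 73) (@Lb.g g9 (@Lb.g g10 (@Lb.g g11 (@Lb.r r2341 (@Lb.r r539 (@Lb.r r1624 (@Lb.r r2438 (@Lb.d (nat_lit 170) (nat_lit 4) (nat_lit 70) (@Lb.t (@Lb.fm (nat_lit 9) t6299)))))))))))
noncomputable def l35498 : Lb := (@Lb.d (nat_lit 8) (nat_lit 266) (nat_lit 65) (@Lb.g g9 (@Lb.g g10 (@Lb.g g11 (@Lb.r r344 (@Lb.r r1415 (@Lb.r r2438 (@Lb.r r2705 (@Lb.d (nat_lit 162) (nat_lit 170) (nat_lit 576) (@Lb.t (@Lb.fm (nat_lit 9) t3146)))))))))))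
noncomputable def l35499 : Lb := (@Lb.d (nat_lit 0) (nat_lit 512) (nat_lit 73) (@Lb.g g9 (@Lb.g g10 (@Lb.g g11 (@Lb.r r2341 (@Lb.r r539 (@Lb.r r1624 (@Lb.r r2438 (@Lb.d (nat_lit 170) (nat_lit 2) (nat_lit 69) (@Lb.t (@Lb.fm (nat_lit 9) t6299)))))))))))
noncomputable def l35500 : Lb := (@Lb.d (nat_lit 146) (nat_lit 256) (nat_lit 66) (@Lb.g g8 (@Lb.g g9 (@Lb.g g10 (@Lb.g g11 (@Lb.r r276 (@Lb.r r1563 (@Lb.r r2453 (@Lb.r r2390 (@Lb.r r676 (@Lb.d (nat_lit 265) (nat_lit 66) (nat_lit 665) (@Lb.fm (nat_lit 9) t1101))))))))))))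
noncomputable def l35501 : Lb := (@Lb.d (nat_lit 129) (nat_lit 256) (nat_lit 0) (@Lb.g g8 (@Lb.g g9 (@Lb.r r2473 (@Lb.r r599 (@Lb.r r2178 (@Lb.r r1384 (@Lb.d (nat_lit 405) (nat_lit 165) (nat_lit 596) (@Lb.fm (nat_lit 3) t124)))))))))
noncomputable def l35502 : Lb := (@Lb.d (nat_lit 8) (nat_lit 2) (nat_lit 66) (@Lb.g g8 (@Lb.g g9 (@Lb.g g10 (@Lb.g g11 (@Lb.r r1559 (@Lb.r r425 (@Lb.r r98 (@Lb.r r1416 (@Lb.d (nat_lit 401) (nat_lit 137) (nat_lit 424) (@Lb.fm (nat_lit 9) t386)))))))))))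
noncomputable def l35503 : Lb := (@Lb.r r331 (@Lb.d (nat_lit 168) (nat_lit 1) (nat_lit 2) (@Lb.g g8 (@Lb.g g9 (@Lb.g g10 (@Lb.r r1433 (@Lb.r r2343 (@Lb.r r1604 (@Lb.r r1098 (@Lb.d (nat_lit 128) (nat_lit 138) (nat_lit 598) (@Lb.t (@Lb.fm (nat_lit 9) t1039))))))))))))
noncomputable def l35504 : Lb := (@Lb.d (nat_lit 41) (nat_lit 258) (nat_lit 64) (@Lb.g g8 (@Lb.g g9 (@Lb.g g11 (@Lb.r r1687 (@Lb.r r598 (@Lb.r r2457 (@Lb.r r408 (@Lb.d (nat_lit 666) (nat_lit 16) (nat_lit 169) (@Lb.t (@Lb.fm (nat_lit 9) t386)))))))))))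
noncomputable def l35505 : Lb := (@Lb.d (nat_lit 8) (nat_lit 258) (nat_lit 74) (@Lb.g g8 (@Lb.g g9 (@Lb.g g10 (@Lb.g g11 (@Lb.r r2705 (@Lb.r r1371 (@Lb.r r2694 (@Lb.r r1416 (@Lb.d (nat_lit 130) (nat_lit 10) (nat_lit 392) (@Lb.fp (nat_lit 9) t221)))))))))))
noncomputable def l35506 : Lb := (@Lb.d (nat_lit 168) (nat_lit 518) (nat_lit 10) (@Lb.g g8 (@Lb.g g9 (@Lb.g g6 (@Lb.r r361 (@Lb.r r535 (@Lb.r r296 (@Lb.d (nat_lit 133) (nat_lit 41) (nat_lit 74) (@Lb.t (@Lb.fm (nat_lit 9) t355))))))))))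
noncomputable def l35507 : Lb := (@Lb.r r70 (@Lb.d (nat_lit 0) (nat_lit 293) (nat_lit 0) (@Lb.g g8 (@Lb.g g5 (@Lb.r r598 (@Lb.r r331 (@Lb.r r344 (@Lb.d (nat_lit 72) (nat_lit 34) (nat_lit 74) (@Lb.fm (nat_lit 3) t68)))))))))
noncomputable def l35508 : Lb := (@Lb.r r20 (@Lb.r r82 (@Lb.g g9 (@Lb.r r1561 (@Lb.r r1624 (@Lb.r r1627 (@Lb.r r2438 (@Lb.d (nat_lit 0) (nat_lit 522) (nat_lit 102) (@Lb.t (@Lb.fm (nat_lit 3) t5650))))))))))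
noncomputable def l35509 : Lb := (@Lb.d (nat_lit 8) (nat_lit 514) (nat_lit 74) (@Lb.g g8 (@Lb.g g9 (@Lb.g g10 (@Lb.g g11 (@Lb.r r2705 (@Lb.r r1371 (@Lb.r r2694 (@Lb.r r1416 (@Lb.d (nat_lit 130) (nat_lit 5) (nat_lit 394) (@Lb.fp (nat_lit 9) t221)))))))))))
noncomputable def l35510 : Lb := (@Lb.d (nat_lit 2) (nat_lit 512) (nat_lit 66) (@Lb.g g8 (@Lb.g g10 (@Lb.g g7 (@Lb.r r1321 (@Lb.r r1124 (@Lb.r r2122 (@Lb.d (nat_lit 594) (nat_lit 5) (nat_lit 617) (@Lb.t (@Lb.fm (nat_lit 9) t2157))))))))))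
noncomputable def l35511 : Lb := (@Lb.r r85 (@Lb.d (nat_lit 129) (nat_lit 256) (nat_lit 0) (@Lb.g g4 (@Lb.g g10 (@Lb.r r2731 (@Lb.r r2634 (@Lb.r r1169 (@Lb.d (nat_lit 328) (nat_lit 34) (nat_lit 0) (@Lb.fm (nat_lit 3) t4027)))))))))
noncomputable def l35512 : Lb := (@Lb.d (nat_lit 90) (nat_lit 24) (nat_lit 358) (@Lb.r r609 (@Lb.r r2659 (@Lb.r r1418 (@Lb.r r164 (@Lb.g g7 (@Lb.g g6 (@Lb.d (nat_lit 16) (nat_lit 0) (nat_lit 66) (@Lb.fp (nat_lit 3) t1117)))))))))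
noncomputable def l35513 : Lb := (@Lb.d (nat_lit 0) (nat_lit 33) (nat_lit 130) (@Lb.g g8 (@Lb.g g9 (@Lb.g g10 (@Lb.g g11 (@Lb.r r387 (@Lb.r r1188 (@Lb.r r2438 (@Lb.r r1633 (@Lb.d (nat_lit 337) (nat_lit 25) (nat_lit 409) (@Lb.fp (nat_lit 9) t707)))))))))))
noncomputable def l35514 : Lb := (@Lb.d (nat_lit 2) (nat_lit 9) (nat_lit 1) (@Lb.g g8 (@Lb.g g9 (@Lb.g g10 (@Lb.g g11 (@Lb.r r676 (@Lb.r r423 (@Lb.r r1169 (@Lb.r r146 (@Lb.r r1540 (@Lb.d (nat_lit 0) (nat_lit 5) (nat_lit 144) (@Lb.fm (nat_lit 9) t4599))))))))))))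
noncomputable def l35515 : Lb := (@Lb.d (nat_lit 2) (nat_lit 289) (nat_lit 130) (@Lb.g g8 (@Lb.g g9 (@Lb.g g10 (@Lb.g g11 (@Lb.r r2705 (@Lb.r r292 (@Lb.r r539 (@Lb.r r390 (@Lb.r r1540 (@Lb.d (nat_lit 552) (nat_lit 130) (nat_lit 145) (@Lb.fp (nat_lit 9) t6018))))))))))))
noncomputable def l35516 : Lb := (@Lb.d (nat_lit 357) (nat_lit 90) (nat_lit 136) (@Lb.r r2663 (@Lb.r r2597 (@Lb.r r1368 (@Lb.r r1094 (@Lb.g g6 (@Lb.g g5 (@Lb.g g4 (@Lb.d (nat_lit 1) (nat_lit 1) (nat_lit 1) (@Lb.t (@Lb.fm (nat_lit 9) t2511)))))))))))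
noncomputable def l35517 : Lb := (@Lb.d (nat_lit 0) (nat_lit 545) (nat_lit 4) (@Lb.g g8 (@Lb.g g9 (@Lb.g g10 (@Lb.g g11 (@Lb.r r1699 (@Lb.r r610 (@Lb.r r1561 (@Lb.r r24 (@Lb.d (nat_lit 424) (nat_lit 2) (nat_lit 145) (@Lb.fp (nat_lit 9) t1033)))))))))))
noncomputable def l35518 : Lb := (@Lb.r r82 (@Lb.r r275 (@Lb.d (nat_lit 41) (nat_lit 2) (nat_lit 0) (@Lb.g g8 (@Lb.g g9 (@Lb.r r2443 (@Lb.r r1158 (@Lb.r r1128 (@Lb.r r2201 (@Lb.d (nat_lit 538) (nat_lit 1) (nat_lit 0) (@Lb.fm (nat_lit 3) t1386)))))))))))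
noncomputable def l35519 : Lb := (@Lb.r r1045 (@Lb.d (nat_lit 552) (nat_lit 4) (nat_lit 33) (@Lb.g g4 (@Lb.g g10 (@Lb.g g11 (@Lb.r r387 (@Lb.d (nat_lit 8) (nat_lit 138) (nat_lit 1) (@Lb.t (@Lb.fp (nat_lit 9) t3154)))))))))
noncomputable def l35520 : Lb := (@Lb.d (nat_lit 392) (nat_lit 90) (nat_lit 642) (@Lb.r r1685 (@Lb.r r662 (@Lb.r r600 (@Lb.r r347 (@Lb.g g7 (@Lb.g g6 (@Lb.g g5 (@Lb.d (nat_lit 8) (nat_lit 1) (nat_lit 65) (@Lb.t (@Lb.fp (nat_lit 9) t3694)))))))))))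
noncomputable def l35521 : Lb := (@Lb.g g11 (@Lb.r r417 (@Lb.r r2466 (@Lb.r r2387 (@Lb.r r657 (@Lb.t (@Lb.p (nat_lit 1) (@Lb.fp (nat_lit 3) t246))))))))
noncomputable def l35522 : Lb := (@Lb.d (nat_lit 592) (nat_lit 5) (nat_lit 538) (@Lb.r r598 (@Lb.r r2391 (@Lb.r r1681 (@Lb.g g7 (@Lb.g g6 (@Lb.g g4 (@Lb.d (nat_lit 1) (nat_lit 4) (nat_lit 65) (@Lb.t (@Lb.fp (nat_lit 9) t3787))))))))))
noncomputable def l35523 : Lb := (@Lb.d (nat_lit 354) (nat_lit 170) (nat_lit 538) (@Lb.r r354 (@Lb.r r2133 (@Lb.r r343 (@Lb.g g7 (@Lb.g g6 (@Lb.g g5 (@Lb.g g4 (@Lb.d (nat_lit 1) (nat_lit 6) (nat_lit 134) (@Lb.fp (nat_lit 9) t3110))))))))))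
noncomputable def l35524 : Lb := (@Lb.d (nat_lit 10) (nat_lit 0) (nat_lit 130) (@Lb.g g8 (@Lb.g g10 (@Lb.g g11 (@Lb.r r1602 (@Lb.r r2453 (@Lb.r r619 (@Lb.r r2596 (@Lb.d (nat_lit 168) (nat_lit 82) (nat_lit 278) (@Lb.t (@Lb.fp (nat_lit 9) t421)))))))))))
noncomputable def l35525 : Lb := (@Lb.d (nat_lit 104) (nat_lit 424) (nat_lit 326) (@Lb.r r1385 (@Lb.r r2118 (@Lb.r r279 (@Lb.g g7 (@Lb.g g5 (@Lb.g g4 (@Lb.d (nat_lit 1) (nat_lit 18) (nat_lit 64) (@Lb.r r98 (@Lb.t (@Lb.fm (nat_lit 9) t2256)))))))))))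
noncomputable def l35526 : Lb := (@Lb.d (nat_lit 0) (nat_lit 10) (nat_lit 1) (@Lb.g g9 (@Lb.g g10 (@Lb.r r165 (@Lb.r r1190 (@Lb.r r1169 (@Lb.d (nat_lit 544) (nat_lit 132) (nat_lit 32) (@Lb.fm (nat_lit 3) t712))))))))
noncomputable def l35527 : Lb := (@Lb.g g9 (@Lb.g g6 (@Lb.d (nat_lit 273) (nat_lit 266) (nat_lit 32) (@Lb.fp (nat_lit 3) t1507))))
noncomputable def l35528 : Lb := (@Lb.r r275 (@Lb.d (nat_lit 2) (nat_lit 514) (nat_lit 2) (@Lb.g g8 (@Lb.g g9 (@Lb.g g10 (@Lb.r r2154 (@Lb.r r2376 (@Lb.r r1543 (@Lb.d (nat_lit 2) (nat_lit 144) (nat_lit 522) (@Lb.t (@Lb.fm (nat_lit 9) t6300)))))))))))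
noncomputable def l35529 : Lb := (@Lb.d (nat_lit 0) (nat_lit 514) (nat_lit 130) (@Lb.g g9 (@Lb.g g10 (@Lb.g g11 (@Lb.r r427 (@Lb.r r386 (@Lb.r r97 (@Lb.r r24 (@Lb.d (nat_lit 74) (nat_lit 9) (nat_lit 68) (@Lb.t (@Lb.fp (nat_lit 9) t61)))))))))))
noncomputable def l35530 : Lb := (@Lb.d (nat_lit 0) (nat_lit 544) (nat_lit 386) (@Lb.g g10 (@Lb.g g11 (@Lb.r r1105 (@Lb.r r98 (@Lb.d (nat_lit 546) (nat_lit 73) (nat_lit 1) (@Lb.fm (nat_lit 3) t1484)))))))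
noncomputable def l35531 : Lb := (@Lb.d (nat_lit 2) (nat_lit 2) (nat_lit 130) (@Lb.g g8 (@Lb.g g9 (@Lb.g g10 (@Lb.g g11 (@Lb.r r427 (@Lb.r r145 (@Lb.r r356 (@Lb.r r154 (@Lb.r r132 (@Lb.d (nat_lit 4) (nat_lit 130) (nat_lit 2) (@Lb.fm (nat_lit 9) t1350))))))))))))
noncomputable def l35532 : Lb := (@Lb.d (nat_lit 0) (nat_lit 258) (nat_lit 130) (@Lb.g g9 (@Lb.g g10 (@Lb.g g11 (@Lb.r r427 (@Lb.r r386 (@Lb.r r97 (@Lb.r r24 (@Lb.d (nat_lit 74) (nat_lit 9) (nat_lit 132) (@Lb.t (@Lb.fp (nat_lit 9) t263)))))))))))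
noncomputable def l35533 : Lb := (@Lb.d (nat_lit 618) (nat_lit 26) (nat_lit 105) (@Lb.r r360 (@Lb.r r81 (@Lb.r r2647 (@Lb.g g6 (@Lb.g g5 (@Lb.g g4 (@Lb.d (nat_lit 70) (nat_lit 2) (nat_lit 17) (@Lb.r r387 (@Lb.t (@Lb.fp (nat_lit 9) t4800)))))))))))
noncomputable def l35534 : Lb := (@Lb.d (nat_lit 2) (nat_lit 4) (nat_lit 128) (@Lb.g g8 (@Lb.g g9 (@Lb.g g10 (@Lb.g g11 (@Lb.r r427 (@Lb.r r145 (@Lb.r r356 (@Lb.r r154 (@Lb.r r132 (@Lb.d (nat_lit 9) (nat_lit 9) (nat_lit 153) (@Lb.fm (nat_lit 9) t573))))))))))))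
noncomputable def l35535 : Lb := (@Lb.d (nat_lit 0) (nat_lit 514) (nat_lit 130) (@Lb.g g9 (@Lb.g g10 (@Lb.g g11 (@Lb.r r1443 (@Lb.r r536 (@Lb.r r357 (@Lb.r r154 (@Lb.r r132 (@Lb.d (nat_lit 81) (nat_lit 134) (nat_lit 136) (@Lb.t (@Lb.fp (nat_lit 9) t626))))))))))))
noncomputable def l35536 : Lb := (@Lb.r r20 (@Lb.d (nat_lit 136) (nat_lit 514) (nat_lit 162) (@Lb.g g9 (@Lb.g g6 (@Lb.g g11 (@Lb.r r264 (@Lb.r r2455 (@Lb.r r1697 (@Lb.d (nat_lit 298) (nat_lit 98) (nat_lit 674) (@Lb.t (@Lb.fp (nat_lit 9) t296)))))))))))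
noncomputable def l35537 : Lb := (@Lb.d (nat_lit 292) (nat_lit 388) (nat_lit 594) (@Lb.r r2133 (@Lb.g g6 (@Lb.g g5 (@Lb.g g4 (@Lb.d (nat_lit 321) (nat_lit 4) (nat_lit 17) (@Lb.r r1427 (@Lb.t (@Lb.fp (nat_lit 9) t1994)))))))))
noncomputable def l35538 : Lb := (@Lb.d (nat_lit 0) (nat_lit 265) (nat_lit 6) (@Lb.g g8 (@Lb.g g9 (@Lb.g g10 (@Lb.g g11 (@Lb.r r2722 (@Lb.r r2713 (@Lb.r r2587 (@Lb.r r24 (@Lb.d (nat_lit 265) (nat_lit 2) (nat_lit 362) (@Lb.fm (nat_lit 9) t6301)))))))))))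
noncomputable def l35539 : Lb := (@Lb.d (nat_lit 2) (nat_lit 514) (nat_lit 4) (@Lb.g g8 (@Lb.g g9 (@Lb.g g10 (@Lb.g g11 (@Lb.r r427 (@Lb.r r356 (@Lb.r r154 (@Lb.r r21 (@Lb.r r36 (@Lb.d (nat_lit 258) (nat_lit 5) (nat_lit 32) (@Lb.fm (nat_lit 9) t61))))))))))))
noncomputable def l35540 : Lb := (@Lb.r r323 (@Lb.d (nat_lit 2) (nat_lit 514) (nat_lit 2) (@Lb.g g8 (@Lb.g g9 (@Lb.g g10 (@Lb.r r401 (@Lb.r r299 (@Lb.r r392 (@Lb.r r74 (@Lb.d (nat_lit 258) (nat_lit 10) (nat_lit 33) (@Lb.t (@Lb.fp (nat_lit 9) t61))))))))))))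
noncomputable def l35541 : Lb := (@Lb.r r70 (@Lb.d (nat_lit 9) (nat_lit 2) (nat_lit 0) (@Lb.g g8 (@Lb.g g9 (@Lb.r r2146 (@Lb.r r537 (@Lb.r r1560 (@Lb.d (nat_lit 132) (nat_lit 162) (nat_lit 640) (@Lb.fp (nat_lit 3) t225)))))))))
noncomputable def l35542 : Lb := (@Lb.r r82 (@Lb.d (nat_lit 530) (nat_lit 2) (nat_lit 0) (@Lb.g g8 (@Lb.g g9 (@Lb.r r1571 (@Lb.r r1418 (@Lb.r r2577 (@Lb.d (nat_lit 330) (nat_lit 73) (nat_lit 580) (@Lb.fm (nat_lit 3) t1278)))))))))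
noncomputable def l35543 : Lb := (@Lb.d (nat_lit 10) (nat_lit 0) (nat_lit 73) (@Lb.g g8 (@Lb.g g10 (@Lb.g g11 (@Lb.r r2691 (@Lb.r r1109 (@Lb.r r2658 (@Lb.r r2436 (@Lb.d (nat_lit 612) (nat_lit 166) (nat_lit 660) (@Lb.t (@Lb.fp (nat_lit 9) t1831)))))))))))
noncomputable def l35544 : Lb := (@Lb.d (nat_lit 298) (nat_lit 0) (nat_lit 612) (@Lb.r r150 (@Lb.r r72 (@Lb.r r293 (@Lb.r r2395 (@Lb.g g7 (@Lb.g g6 (@Lb.g g5 (@Lb.d (nat_lit 16) (nat_lit 1) (nat_lit 65) (@Lb.t (@Lb.fm (nat_lit 9) t1441)))))))))))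
noncomputable def l35545 : Lb := (@Lb.d (nat_lit 298) (nat_lit 256) (nat_lit 546) (@Lb.r r150 (@Lb.r r72 (@Lb.r r293 (@Lb.r r2395 (@Lb.g g7 (@Lb.g g6 (@Lb.g g5 (@Lb.d (nat_lit 16) (nat_lit 1) (nat_lit 65) (@Lb.t (@Lb.fm (nat_lit 9) t1441)))))))))))
noncomputable def l35546 : Lb := (@Lb.r r323 (@Lb.d (nat_lit 0) (nat_lit 41) (nat_lit 34) (@Lb.g g9 (@Lb.g g10 (@Lb.r r595 (@Lb.r r409 (@Lb.r r24 (@Lb.d (nat_lit 674) (nat_lit 0) (nat_lit 388) (@Lb.fm (nat_lit 3) t200)))))))))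
noncomputable def l35547 : Lb := (@Lb.d (nat_lit 0) (nat_lit 512) (nat_lit 128) (@Lb.g g9 (@Lb.g g11 (@Lb.r r134 (@Lb.r r584 (@Lb.r r299 (@Lb.r r289 (@Lb.d (nat_lit 8) (nat_lit 65) (nat_lit 0) (@Lb.fp (nat_lit 3) t51)))))))))
noncomputable def l35548 : Lb := (@Lb.d (nat_lit 4) (nat_lit 0) (nat_lit 130) (@Lb.g g8 (@Lb.g g9 (@Lb.g g10 (@Lb.g g11 (@Lb.r r358 (@Lb.r r404 (@Lb.r r1433 (@Lb.r r2343 (@Lb.r r1540 (@Lb.d (nat_lit 258) (nat_lit 97) (nat_lit 586) (@Lb.fp (nat_lit 9) t5215))))))))))))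
noncomputable def l35549 : Lb := (@Lb.r r82 (@Lb.r r275 (@Lb.d (nat_lit 2) (nat_lit 258) (nat_lit 0) (@Lb.g g8 (@Lb.g g9 (@Lb.r r1433 (@Lb.r r2403 (@Lb.r r578 (@Lb.d (nat_lit 129) (nat_lit 0) (nat_lit 293) (@Lb.fm (nat_lit 3) t1038))))))))))
noncomputable def l35550 : Lb := (@Lb.d (nat_lit 128) (nat_lit 16) (nat_lit 384) (@Lb.g g10 (@Lb.g g11 (@Lb.r r1304 (@Lb.r r101 (@Lb.r r2194 (@Lb.d (nat_lit 530) (nat_lit 0) (nat_lit 128) (@Lb.fp (nat_lit 3) t2199))))))))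
noncomputable def l35551 : Lb := (@Lb.d (nat_lit 34) (nat_lit 514) (nat_lit 130) (@Lb.g g8 (@Lb.g g9 (@Lb.g g10 (@Lb.g g11 (@Lb.r r599 (@Lb.r r682 (@Lb.r r2649 (@Lb.r r2628 (@Lb.d (nat_lit 665) (nat_lit 130) (nat_lit 613) (@Lb.fp (nat_lit 9) t3738)))))))))))
noncomputable def l35552 : Lb := (@Lb.d (nat_lit 297) (nat_lit 265) (nat_lit 16) (@Lb.r r1284 (@Lb.r r2587 (@Lb.r r1361 (@Lb.g g7 (@Lb.g g6 (@Lb.g g4 (@Lb.d (nat_lit 1) (nat_lit 8) (nat_lit 97) (@Lb.t (@Lb.fm (nat_lit 9) t1868))))))))))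
noncomputable def l35553 : Lb := (@Lb.r r417 (@Lb.r r2466 (@Lb.r r2387 (@Lb.r r657 (@Lb.d (nat_lit 1) (nat_lit 512) (nat_lit 0) (@Lb.fp (nat_lit 1) t246))))))
noncomputable def l35554 : Lb := (@Lb.d (nat_lit 66) (nat_lit 577) (nat_lit 645) (@Lb.r r24 (@Lb.r r2201 (@Lb.r r386 (@Lb.r r2475 (@Lb.g g7 (@Lb.g g6 (@Lb.g g5 (@Lb.d (nat_lit 0) (nat_lit 8) (nat_lit 64) (@Lb.t (@Lb.fp (nat_lit 9) t6302)))))))))))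
noncomputable def l35555 : Lb := (@Lb.d (nat_lit 38) (nat_lit 266) (nat_lit 129) (@Lb.g g8 (@Lb.g g9 (@Lb.g g10 (@Lb.g g11 (@Lb.r r1707 (@Lb.r r1410 (@Lb.r r2657 (@Lb.r r1560 (@Lb.d (nat_lit 73) (nat_lit 137) (nat_lit 533) (@Lb.fp (nat_lit 9) t4170)))))))))))
noncomputable def l35556 : Lb := (@Lb.d (nat_lit 2) (nat_lit 2) (nat_lit 2) (@Lb.g g8 (@Lb.g g9 (@Lb.g g10 (@Lb.g g11 (@Lb.r r355 (@Lb.r r386 (@Lb.r r1129 (@Lb.r r36 (@Lb.d (nat_lit 266) (nat_lit 2) (nat_lit 84) (@Lb.fp (nat_lit 9) t61)))))))))))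
noncomputable def l35557 : Lb := (@Lb.r r323 (@Lb.d (nat_lit 2) (nat_lit 34) (nat_lit 2) (@Lb.g g8 (@Lb.g g9 (@Lb.g g10 (@Lb.r r599 (@Lb.r r392 (@Lb.r r74 (@Lb.d (nat_lit 17) (nat_lit 4) (nat_lit 18) (@Lb.t (@Lb.fm (nat_lit 9) t221)))))))))))
noncomputable def l35558 : Lb := (@Lb.d (nat_lit 2) (nat_lit 258) (nat_lit 130) (@Lb.g g8 (@Lb.g g9 (@Lb.g g10 (@Lb.g g11 (@Lb.r r427 (@Lb.r r420 (@Lb.r r102 (@Lb.r r21 (@Lb.r r36 (@Lb.d (nat_lit 521) (nat_lit 4) (nat_lit 33) (@Lb.fp (nat_lit 9) t221))))))))))))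
noncomputable def l35559 : Lb := (@Lb.d (nat_lit 21) (nat_lit 512) (nat_lit 64) (@Lb.g g8 (@Lb.g g9 (@Lb.g g10 (@Lb.g g7 (@Lb.r r1410 (@Lb.r r2152 (@Lb.r r25 (@Lb.d (nat_lit 522) (nat_lit 73) (nat_lit 297) (@Lb.fm (nat_lit 9) t42))))))))))
noncomputable def l35560 : Lb := (@Lb.d (nat_lit 2) (nat_lit 514) (nat_lit 130) (@Lb.g g8 (@Lb.g g9 (@Lb.g g10 (@Lb.g g11 (@Lb.r r148 (@Lb.r r102 (@Lb.r r357 (@Lb.r r667 (@Lb.r r644 (@Lb.d (nat_lit 8) (nat_lit 2) (nat_lit 74) (@Lb.fp (nat_lit 9) t2))))))))))))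
noncomputable def l35561 : Lb := (@Lb.r r82 (@Lb.d (nat_lit 32) (nat_lit 2) (nat_lit 128) (@Lb.g g8 (@Lb.g g9 (@Lb.g g11 (@Lb.r r363 (@Lb.r r582 (@Lb.r r388 (@Lb.d (nat_lit 100) (nat_lit 9) (nat_lit 153) (@Lb.t (@Lb.fm (nat_lit 9) t1499)))))))))))
noncomputable def l35562 : Lb := (@Lb.g g8 (@Lb.r r2323 (@Lb.r r2130 (@Lb.r r2085 (@Lb.r r24 (@Lb.t (@Lb.p (nat_lit 1) (@Lb.fp (nat_lit 3) t284))))))))
noncomputable def l35563 : Lb := (@Lb.d (nat_lit 0) (nat_lit 294) (nat_lit 262) (@Lb.g g9 (@Lb.g g6 (@Lb.g g11 (@Lb.r r2145 (@Lb.d (nat_lit 0) (nat_lit 73) (nat_lit 32) (@Lb.t (@Lb.fm (nat_lit 9) t661))))))))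
noncomputable def l35564 : Lb := (@Lb.d (nat_lit 128) (nat_lit 512) (nat_lit 74) (@Lb.r r323 (@Lb.r r658 (@Lb.r r101 (@Lb.g g7 (@Lb.g g4 (@Lb.d (nat_lit 1) (nat_lit 0) (nat_lit 128) (@Lb.fm (nat_lit 3) t720))))))))
noncomputable def l35565 : Lb := (@Lb.d (nat_lit 518) (nat_lit 678) (nat_lit 84) (@Lb.r r24 (@Lb.r r2657 (@Lb.r r2667 (@Lb.g g7 (@Lb.g g10 (@Lb.g g5 (@Lb.g g4 (@Lb.d (nat_lit 8) (nat_lit 0) (nat_lit 81) (@Lb.fp (nat_lit 9) t820))))))))))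
noncomputable def l35566 : Lb := (@Lb.d (nat_lit 32) (nat_lit 353) (nat_lit 4) (@Lb.g g5 (@Lb.g g10 (@Lb.g g11 (@Lb.r r667 (@Lb.r r72 (@Lb.r r102 (@Lb.d (nat_lit 73) (nat_lit 160) (nat_lit 258) (@Lb.t (@Lb.fp (nat_lit 9) t1027))))))))))
noncomputable def l35567 : Lb := (@Lb.d (nat_lit 6) (nat_lit 0) (nat_lit 2) (@Lb.g g8 (@Lb.g g9 (@Lb.g g10 (@Lb.g g11 (@Lb.r r2411 (@Lb.r r386 (@Lb.r r104 (@Lb.r r25 (@Lb.d (nat_lit 512) (nat_lit 10) (nat_lit 70) (@Lb.fp (nat_lit 9) t61)))))))))))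
noncomputable def l35568 : Lb := (@Lb.d (nat_lit 128) (nat_lit 512) (nat_lit 145) (@Lb.g g10 (@Lb.g g11 (@Lb.r r2709 (@Lb.r r292 (@Lb.r r411 (@Lb.d (nat_lit 137) (nat_lit 16) (nat_lit 152) (@Lb.fm (nat_lit 3) t1767))))))))
noncomputable def l35569 : Lb := (@Lb.r r346 (@Lb.d (nat_lit 136) (nat_lit 513) (nat_lit 516) (@Lb.g g8 (@Lb.g g9 (@Lb.g g7 (@Lb.r r425 (@Lb.r r2154 (@Lb.r r612 (@Lb.d (nat_lit 665) (nat_lit 26) (nat_lit 677) (@Lb.t (@Lb.fm (nat_lit 9) t3040)))))))))))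
noncomputable def l35570 : Lb := (@Lb.d (nat_lit 0) (nat_lit 513) (nat_lit 2) (@Lb.g g9 (@Lb.g g10 (@Lb.r r1698 (@Lb.r r1443 (@Lb.r r1433 (@Lb.r r24 (@Lb.d (nat_lit 593) (nat_lit 0) (nat_lit 425) (@Lb.fm (nat_lit 3) t1741)))))))))
noncomputable def l35571 : Lb := (@Lb.d (nat_lit 384) (nat_lit 610) (nat_lit 320) (@Lb.r r24 (@Lb.r r101 (@Lb.r r1362 (@Lb.r r2691 (@Lb.g g7 (@Lb.g g6 (@Lb.g g5 (@Lb.d (nat_lit 0) (nat_lit 0) (nat_lit 134) (@Lb.t (@Lb.fm (nat_lit 9) t6303)))))))))))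
noncomputable def l35572 : Lb := (@Lb.d (nat_lit 530) (nat_lit 610) (nat_lit 600) (@Lb.r r1170 (@Lb.r r85 (@Lb.r r1559 (@Lb.g g7 (@Lb.g g5 (@Lb.g g4 (@Lb.d (nat_lit 1) (nat_lit 2) (nat_lit 128) (@Lb.t (@Lb.fp (nat_lit 9) t6304))))))))))
noncomputable def l35573 : Lb := (@Lb.d (nat_lit 2) (nat_lit 289) (nat_lit 514) (@Lb.g g8 (@Lb.g g9 (@Lb.g g10 (@Lb.g g7 (@Lb.r r1441 (@Lb.r r98 (@Lb.r r24 (@Lb.d (nat_lit 10) (nat_lit 130) (nat_lit 682) (@Lb.fm (nat_lit 9) t1921))))))))))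
noncomputable def l35574 : Lb := (@Lb.d (nat_lit 2) (nat_lit 258) (nat_lit 130) (@Lb.g g8 (@Lb.g g9 (@Lb.g g10 (@Lb.g g11 (@Lb.r r2722 (@Lb.r r2467 (@Lb.r r292 (@Lb.r r405 (@Lb.r r2084 (@Lb.d (nat_lit 97) (nat_lit 10) (nat_lit 665) (@Lb.fm (nat_lit 9) t1756))))))))))))
noncomputable def l35575 : Lb := (@Lb.d (nat_lit 128) (nat_lit 256) (nat_lit 258) (@Lb.g g10 (@Lb.g g7 (@Lb.r r386 (@Lb.r r2069 (@Lb.r r8 (@Lb.d (nat_lit 290) (nat_lit 5) (nat_lit 42) (@Lb.fp (nat_lit 3) t3770))))))))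
noncomputable def l35576 : Lb := (@Lb.d (nat_lit 2) (nat_lit 520) (nat_lit 130) (@Lb.g g8 (@Lb.g g10 (@Lb.g g11 (@Lb.r r387 (@Lb.r r2564 (@Lb.d (nat_lit 649) (nat_lit 1) (nat_lit 585) (@Lb.t (@Lb.fm (nat_lit 9) t5330)))))))))
noncomputable def l35577 : Lb := (@Lb.r r21 (@Lb.r r70 (@Lb.d (nat_lit 130) (nat_lit 0) (nat_lit 64) (@Lb.g g8 (@Lb.g g11 (@Lb.r r516 (@Lb.r r519 (@Lb.r r74 (@Lb.r r25 (@Lb.d (nat_lit 68) (nat_lit 64) (nat_lit 69) (@Lb.fp (nat_lit 3) t755)))))))))))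
noncomputable def l35578 : Lb := (@Lb.d (nat_lit 0) (nat_lit 0) (nat_lit 66) (@Lb.g g8 (@Lb.g g10 (@Lb.g g7 (@Lb.r r386 (@Lb.r r101 (@Lb.d (nat_lit 261) (nat_lit 8) (nat_lit 40) (@Lb.t (@Lb.fp (nat_lit 9) t1591)))))))))
noncomputable def l35579 : Lb := (@Lb.r r21 (@Lb.r r70 (@Lb.r r263 (@Lb.g g8 (@Lb.r r267 (@Lb.r r101 (@Lb.r r410 (@Lb.d (nat_lit 98) (nat_lit 0) (nat_lit 16) (@Lb.t (@Lb.fp (nat_lit 3) t573))))))))))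
noncomputable def l35580 : Lb := (@Lb.r r70 (@Lb.r r263 (@Lb.d (nat_lit 5) (nat_lit 320) (nat_lit 0) (@Lb.g g8 (@Lb.g g9 (@Lb.r r2347 (@Lb.r r2154 (@Lb.r r2084 (@Lb.d (nat_lit 10) (nat_lit 72) (nat_lit 2) (@Lb.fm (nat_lit 3) t3619))))))))))
noncomputable def l35581 : Lb := (@Lb.r r81 (@Lb.d (nat_lit 128) (nat_lit 0) (nat_lit 105) (@Lb.g g10 (@Lb.g g11 (@Lb.r r344 (@Lb.r r679 (@Lb.r r37 (@Lb.d (nat_lit 2) (nat_lit 40) (nat_lit 25) (@Lb.fp (nat_lit 3) t1126)))))))))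
noncomputable def l35582 : Lb := (@Lb.d (nat_lit 2) (nat_lit 514) (nat_lit 130) (@Lb.g g8 (@Lb.g g9 (@Lb.g g10 (@Lb.g g11 (@Lb.r r610 (@Lb.r r612 (@Lb.r r359 (@Lb.r r277 (@Lb.r r548 (@Lb.d (nat_lit 0) (nat_lit 73) (nat_lit 130) (@Lb.fp (nat_lit 9) t1863))))))))))))
noncomputable def l35583 : Lb := (@Lb.r r323 (@Lb.d (nat_lit 2) (nat_lit 2) (nat_lit 1) (@Lb.g g8 (@Lb.g g9 (@Lb.g g6 (@Lb.r r1427 (@Lb.r r97 (@Lb.r r24 (@Lb.d (nat_lit 10) (nat_lit 129) (nat_lit 65) (@Lb.t (@Lb.fp (nat_lit 9) t6305)))))))))))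
noncomputable def l35584 : Lb := (@Lb.r r273 (@Lb.d (nat_lit 2) (nat_lit 8) (nat_lit 521) (@Lb.g g8 (@Lb.g g10 (@Lb.g g7 (@Lb.r r2641 (@Lb.r r98 (@Lb.r r24 (@Lb.d (nat_lit 10) (nat_lit 132) (nat_lit 321) (@Lb.t (@Lb.fm (nat_lit 9) t2071)))))))))))
noncomputable def l35585 : Lb := (@Lb.d (nat_lit 534) (nat_lit 1) (nat_lit 257) (@Lb.r r20 (@Lb.r r81 (@Lb.r r426 (@Lb.g g11 (@Lb.g g6 (@Lb.g g5 (@Lb.g g4 (@Lb.d (nat_lit 8) (nat_lit 0) (nat_lit 69) (@Lb.fp (nat_lit 9) t6306))))))))))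
noncomputable def l35586 : Lb := (@Lb.r r323 (@Lb.d (nat_lit 0) (nat_lit 514) (nat_lit 4) (@Lb.g g9 (@Lb.g g6 (@Lb.r r387 (@Lb.r r97 (@Lb.d (nat_lit 5) (nat_lit 10) (nat_lit 9) (@Lb.fm (nat_lit 3) t285))))))))
noncomputable def l35587 : Lb := (@Lb.d (nat_lit 0) (nat_lit 337) (nat_lit 33) (@Lb.r r323 (@Lb.r r2626 (@Lb.g g7 (@Lb.g g5 (@Lb.fm (nat_lit 3) t87))))))
noncomputable def l35588 : Lb := (@Lb.d (nat_lit 168) (nat_lit 513) (nat_lit 1) (@Lb.g g8 (@Lb.g g9 (@Lb.g g10 (@Lb.r r409 (@Lb.r r359 (@Lb.r r2726 (@Lb.r r2216 (@Lb.d (nat_lit 424) (nat_lit 168) (nat_lit 328) (@Lb.t (@Lb.fm (nat_lit 9) t329)))))))))))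
noncomputable def l35589 : Lb := (@Lb.r r21 (@Lb.d (nat_lit 2) (nat_lit 256) (nat_lit 130) (@Lb.g g8 (@Lb.g g10 (@Lb.g g11 (@Lb.r r2379 (@Lb.r r386 (@Lb.r r105 (@Lb.r r72 (@Lb.d (nat_lit 266) (nat_lit 9) (nat_lit 152) (@Lb.t (@Lb.fp (nat_lit 9) t61))))))))))))
noncomputable def l35590 : Lb := (@Lb.g g7 (@Lb.r r402 (@Lb.r r24 (@Lb.r r101 (@Lb.d (nat_lit 100) (nat_lit 128) (nat_lit 320) (@Lb.t (@Lb.fp (nat_lit 3) t1628)))))))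
noncomputable def l35591 : Lb := (@Lb.r r21 (@Lb.d (nat_lit 2) (nat_lit 0) (nat_lit 130) (@Lb.g g8 (@Lb.g g10 (@Lb.g g11 (@Lb.r r2379 (@Lb.r r386 (@Lb.r r105 (@Lb.r r72 (@Lb.d (nat_lit 256) (nat_lit 10) (nat_lit 152) (@Lb.t (@Lb.fp (nat_lit 9) t61))))))))))))
noncomputable def l35592 : Lb := (@Lb.d (nat_lit 97) (nat_lit 2) (nat_lit 73) (@Lb.g g8 (@Lb.g g9 (@Lb.g g10 (@Lb.g g11 (@Lb.r r2691 (@Lb.r r1193 (@Lb.r r1642 (@Lb.r r2084 (@Lb.d (nat_lit 394) (nat_lit 66) (nat_lit 70) (@Lb.fp (nat_lit 9) t2175)))))))))))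
noncomputable def l35593 : Lb := (@Lb.d (nat_lit 160) (nat_lit 520) (nat_lit 128) (@Lb.g g10 (@Lb.g g11 (@Lb.r r260 (@Lb.r r2667 (@Lb.r r2661 (@Lb.r r2394 (@Lb.d (nat_lit 34) (nat_lit 149) (nat_lit 38) (@Lb.fm (nat_lit 3) t1261)))))))))
noncomputable def l35594 : Lb := (@Lb.d (nat_lit 9) (nat_lit 0) (nat_lit 0) (@Lb.g g8 (@Lb.g g9 (@Lb.r r1351 (@Lb.r r1642 (@Lb.r r1625 (@Lb.r r2564 (@Lb.d (nat_lit 425) (nat_lit 134) (nat_lit 417) (@Lb.fm (nat_lit 3) t6307)))))))))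
noncomputable def l35595 : Lb := (@Lb.d (nat_lit 0) (nat_lit 512) (nat_lit 130) (@Lb.g g10 (@Lb.g g11 (@Lb.r r2658 (@Lb.r r579 (@Lb.d (nat_lit 0) (nat_lit 97) (nat_lit 650) (@Lb.fp (nat_lit 3) t369)))))))
noncomputable def l35596 : Lb := (@Lb.d (nat_lit 42) (nat_lit 326) (nat_lit 1) (@Lb.r r101 (@Lb.r r24 (@Lb.r r402 (@Lb.r r323 (@Lb.g g7 (@Lb.g g6 (@Lb.g g5 (@Lb.d (nat_lit 4) (nat_lit 1) (nat_lit 10) (@Lb.t (@Lb.fm (nat_lit 9) t6308)))))))))))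
noncomputable def l35597 : Lb := (@Lb.d (nat_lit 646) (nat_lit 401) (nat_lit 640) (@Lb.r r20 (@Lb.r r25 (@Lb.r r148 (@Lb.r r1366 (@Lb.g g7 (@Lb.g g6 (@Lb.g g5 (@Lb.g g4 (@Lb.d (nat_lit 0) (nat_lit 1) (nat_lit 134) (@Lb.fp (nat_lit 9) t2474)))))))))))
noncomputable def l35598 : Lb := (@Lb.d (nat_lit 97) (nat_lit 9) (nat_lit 72) (@Lb.g g8 (@Lb.g g9 (@Lb.g g10 (@Lb.g g11 (@Lb.r r2691 (@Lb.r r1193 (@Lb.r r1642 (@Lb.r r2084 (@Lb.d (nat_lit 392) (nat_lit 66) (nat_lit 70) (@Lb.fp (nat_lit 9) t6309)))))))))))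
noncomputable def l35599 : Lb := (@Lb.d (nat_lit 170) (nat_lit 517) (nat_lit 406) (@Lb.r r2438 (@Lb.r r2391 (@Lb.r r1705 (@Lb.g g7 (@Lb.g g6 (@Lb.g g5 (@Lb.g g8 (@Lb.d (nat_lit 320) (nat_lit 1) (nat_lit 129) (@Lb.fm (nat_lit 9) t2953))))))))))
noncomputable def l35600 : Lb := (@Lb.d (nat_lit 9) (nat_lit 294) (nat_lit 128) (@Lb.g g8 (@Lb.g g9 (@Lb.g g10 (@Lb.g g11 (@Lb.r r1194 (@Lb.r r424 (@Lb.r r599 (@Lb.r r1065 (@Lb.r r2084 (@Lb.d (nat_lit 258) (nat_lit 88) (nat_lit 90) (@Lb.fp (nat_lit 9) t2165))))))))))))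
noncomputable def l35601 : Lb := (@Lb.d (nat_lit 514) (nat_lit 517) (nat_lit 16) (@Lb.r r326 (@Lb.r r660 (@Lb.r r1065 (@Lb.r r1443 (@Lb.g g5 (@Lb.g g4 (@Lb.d (nat_lit 6) (nat_lit 2) (nat_lit 0) (@Lb.fp (nat_lit 3) t991)))))))))
noncomputable def l35602 : Lb := (@Lb.d (nat_lit 0) (nat_lit 514) (nat_lit 66) (@Lb.g g9 (@Lb.g g10 (@Lb.g g7 (@Lb.r r386 (@Lb.r r97 (@Lb.r r24 (@Lb.d (nat_lit 330) (nat_lit 9) (nat_lit 585) (@Lb.t (@Lb.fm (nat_lit 9) t166))))))))))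
noncomputable def l35603 : Lb := (@Lb.d (nat_lit 5) (nat_lit 358) (nat_lit 6) (@Lb.r r21 (@Lb.r r2390 (@Lb.r r2731 (@Lb.g g6 (@Lb.g g5 (@Lb.g g4 (@Lb.d (nat_lit 544) (nat_lit 1) (nat_lit 0) (@Lb.t (@Lb.fm (nat_lit 9) t40))))))))))
noncomputable def l35604 : Lb := (@Lb.d (nat_lit 130) (nat_lit 258) (nat_lit 130) (@Lb.g g8 (@Lb.g g9 (@Lb.g g10 (@Lb.g g11 (@Lb.r r297 (@Lb.r r659 (@Lb.r r330 (@Lb.r r1608 (@Lb.d (nat_lit 289) (nat_lit 130) (nat_lit 533) (@Lb.fm (nat_lit 9) t1622)))))))))))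
noncomputable def l35605 : Lb := (@Lb.d (nat_lit 418) (nat_lit 512) (nat_lit 86) (@Lb.r r24 (@Lb.r r2458 (@Lb.r r2133 (@Lb.r r323 (@Lb.g g7 (@Lb.g g6 (@Lb.g g5 (@Lb.d (nat_lit 0) (nat_lit 24) (nat_lit 5) (@Lb.t (@Lb.fp (nat_lit 9) t311)))))))))))
noncomputable def l35606 : Lb := (@Lb.d (nat_lit 145) (nat_lit 0) (nat_lit 534) (@Lb.r r24 (@Lb.r r2458 (@Lb.r r597 (@Lb.r r339 (@Lb.g g7 (@Lb.g g6 (@Lb.d (nat_lit 0) (nat_lit 0) (nat_lit 65) (@Lb.fm (nat_lit 3) t386)))))))))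
noncomputable def l35607 : Lb := (@Lb.d (nat_lit 170) (nat_lit 70) (nat_lit 32) (@Lb.r r24 (@Lb.r r2394 (@Lb.r r665 (@Lb.g g11 (@Lb.g g5 (@Lb.d (nat_lit 0) (nat_lit 1) (nat_lit 256) (@Lb.r r578 (@Lb.fm (nat_lit 3) t5583)))))))))
noncomputable def l35608 : Lb := (@Lb.d (nat_lit 33) (nat_lit 258) (nat_lit 73) (@Lb.g g8 (@Lb.g g9 (@Lb.g g10 (@Lb.g g11 (@Lb.r r297 (@Lb.r r659 (@Lb.r r330 (@Lb.r r612 (@Lb.d (nat_lit 82) (nat_lit 136) (nat_lit 325) (@Lb.fp (nat_lit 9) t1549)))))))))))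
noncomputable def l35609 : Lb := (@Lb.d (nat_lit 384) (nat_lit 256) (nat_lit 17) (@Lb.r r24 (@Lb.r r2394 (@Lb.r r677 (@Lb.g g11 (@Lb.g g9 (@Lb.d (nat_lit 0) (nat_lit 1) (nat_lit 256) (@Lb.r r578 (@Lb.fm (nat_lit 3) t4862)))))))))
noncomputable def l35610 : Lb := (@Lb.d (nat_lit 290) (nat_lit 0) (nat_lit 138) (@Lb.r r24 (@Lb.r r1702 (@Lb.r r2725 (@Lb.r r2323 (@Lb.g g10 (@Lb.r r387 (@Lb.t (@Lb.fm (nat_lit 3) t1255)))))))))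
noncomputable def l35611 : Lb := (@Lb.r r1045 (@Lb.d (nat_lit 513) (nat_lit 256) (nat_lit 9) (@Lb.g g4 (@Lb.g g10 (@Lb.g g11 (@Lb.r r2691 (@Lb.r r1158 (@Lb.d (nat_lit 130) (nat_lit 0) (nat_lit 424) (@Lb.t (@Lb.fp (nat_lit 9) t282))))))))))
noncomputable def l35612 : Lb := (@Lb.d (nat_lit 4) (nat_lit 5) (nat_lit 64) (@Lb.g g8 (@Lb.g g9 (@Lb.g g10 (@Lb.g g7 (@Lb.r r386 (@Lb.r r97 (@Lb.d (nat_lit 9) (nat_lit 130) (nat_lit 10) (@Lb.fm (nat_lit 9) t2129)))))))))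
noncomputable def l35613 : Lb := (@Lb.r r21 (@Lb.d (nat_lit 17) (nat_lit 512) (nat_lit 128) (@Lb.g g8 (@Lb.g g10 (@Lb.g g11 (@Lb.r r395 (@Lb.r r297 (@Lb.r r392 (@Lb.r r602 (@Lb.d (nat_lit 106) (nat_lit 21) (nat_lit 74) (@Lb.t (@Lb.fm (nat_lit 9) t5))))))))))))
noncomputable def l35614 : Lb := (@Lb.d (nat_lit 26) (nat_lit 18) (nat_lit 138) (@Lb.g g8 (@Lb.g g9 (@Lb.g g10 (@Lb.g g11 (@Lb.r r427 (@Lb.r r1602 (@Lb.r r676 (@Lb.r r405 (@Lb.r r36 (@Lb.d (nat_lit 98) (nat_lit 74) (nat_lit 532) (@Lb.fp (nat_lit 9) t6310))))))))))))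
noncomputable def l35615 : Lb := (@Lb.r r82 (@Lb.d (nat_lit 34) (nat_lit 326) (nat_lit 128) (@Lb.g g8 (@Lb.g g9 (@Lb.g g11 (@Lb.r r2347 (@Lb.r r582 (@Lb.r r420 (@Lb.d (nat_lit 345) (nat_lit 37) (nat_lit 130) (@Lb.t (@Lb.fm (nat_lit 9) t6311)))))))))))
noncomputable def l35616 : Lb := (@Lb.d (nat_lit 416) (nat_lit 281) (nat_lit 68) (@Lb.r r401 (@Lb.r r2450 (@Lb.r r1639 (@Lb.g g7 (@Lb.g g5 (@Lb.g g8 (@Lb.d (nat_lit 0) (nat_lit 22) (nat_lit 128) (@Lb.t (@Lb.fm (nat_lit 9) t2949))))))))))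
noncomputable def l35617 : Lb := (@Lb.r r82 (@Lb.r r275 (@Lb.d (nat_lit 9) (nat_lit 9) (nat_lit 0) (@Lb.g g8 (@Lb.g g5 (@Lb.r r2406 (@Lb.r r1668 (@Lb.r r1543 (@Lb.d (nat_lit 322) (nat_lit 1) (nat_lit 394) (@Lb.fm (nat_lit 3) t6312))))))))))
noncomputable def l35618 : Lb := (@Lb.r r82 (@Lb.d (nat_lit 34) (nat_lit 522) (nat_lit 128) (@Lb.g g8 (@Lb.g g9 (@Lb.g g11 (@Lb.r r427 (@Lb.r r582 (@Lb.r r2456 (@Lb.r r1173 (@Lb.d (nat_lit 282) (nat_lit 82) (nat_lit 137) (@Lb.t (@Lb.fp (nat_lit 9) t6292))))))))))))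
noncomputable def l35619 : Lb := (@Lb.r r263 (@Lb.d (nat_lit 0) (nat_lit 322) (nat_lit 2) (@Lb.g g8 (@Lb.g g9 (@Lb.g g10 (@Lb.r r1642 (@Lb.r r2627 (@Lb.r r2340 (@Lb.d (nat_lit 66) (nat_lit 130) (nat_lit 512) (@Lb.t (@Lb.fp (nat_lit 9) t6313)))))))))))
noncomputable def l35620 : Lb := (@Lb.d (nat_lit 41) (nat_lit 277) (nat_lit 666) (@Lb.r r360 (@Lb.r r1321 (@Lb.r r418 (@Lb.g g11 (@Lb.g g5 (@Lb.g g4 (@Lb.d (nat_lit 128) (nat_lit 18) (nat_lit 576) (@Lb.r r614 (@Lb.t (@Lb.fp (nat_lit 9) t1526)))))))))))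
noncomputable def l35621 : Lb := (@Lb.d (nat_lit 9) (nat_lit 4) (nat_lit 74) (@Lb.g g8 (@Lb.g g9 (@Lb.g g10 (@Lb.g g11 (@Lb.r r2731 (@Lb.r r2218 (@Lb.r r552 (@Lb.r r1177 (@Lb.d (nat_lit 330) (nat_lit 32) (nat_lit 521) (@Lb.fm (nat_lit 9) t3199)))))))))))
noncomputable def l35622 : Lb := (@Lb.d (nat_lit 8) (nat_lit 6) (nat_lit 97) (@Lb.r r1049 (@Lb.r r1432 (@Lb.r r1354 (@Lb.g g7 (@Lb.g g5 (@Lb.g g4 (@Lb.d (nat_lit 64) (nat_lit 5) (nat_lit 576) (@Lb.t (@Lb.fm (nat_lit 9) t386))))))))))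
noncomputable def l35623 : Lb := (@Lb.r r273 (@Lb.d (nat_lit 129) (nat_lit 16) (nat_lit 514) (@Lb.g g8 (@Lb.g g10 (@Lb.g g7 (@Lb.r r386 (@Lb.r r105 (@Lb.r r1636 (@Lb.d (nat_lit 153) (nat_lit 154) (nat_lit 677) (@Lb.t (@Lb.fp (nat_lit 9) t1244)))))))))))
noncomputable def l35624 : Lb := (@Lb.r r263 (@Lb.d (nat_lit 0) (nat_lit 578) (nat_lit 2) (@Lb.g g8 (@Lb.g g9 (@Lb.g g10 (@Lb.r r1642 (@Lb.r r2627 (@Lb.r r2340 (@Lb.d (nat_lit 73) (nat_lit 129) (nat_lit 512) (@Lb.t (@Lb.fp (nat_lit 9) t6314)))))))))))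
noncomputable def l35625 : Lb := (@Lb.r r70 (@Lb.d (nat_lit 161) (nat_lit 516) (nat_lit 64) (@Lb.g g8 (@Lb.g g5 (@Lb.g g11 (@Lb.r r1563 (@Lb.r r2438 (@Lb.r r2648 (@Lb.d (nat_lit 648) (nat_lit 164) (nat_lit 152) (@Lb.t (@Lb.fm (nat_lit 9) t50)))))))))))
noncomputable def l35626 : Lb := (@Lb.d (nat_lit 2) (nat_lit 257) (nat_lit 0) (@Lb.g g8 (@Lb.g g9 (@Lb.g g10 (@Lb.r r168 (@Lb.r r41 (@Lb.r r2084 (@Lb.d (nat_lit 537) (nat_lit 69) (nat_lit 17) (@Lb.t (@Lb.fm (nat_lit 9) t743))))))))))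
noncomputable def l35627 : Lb := (@Lb.d (nat_lit 2) (nat_lit 2) (nat_lit 130) (@Lb.g g8 (@Lb.g g9 (@Lb.g g10 (@Lb.g g11 (@Lb.r r427 (@Lb.r r145 (@Lb.r r356 (@Lb.r r154 (@Lb.r r132 (@Lb.d (nat_lit 5) (nat_lit 8) (nat_lit 18) (@Lb.fm (nat_lit 9) t221))))))))))))
noncomputable def l35628 : Lb := (@Lb.g g5 (@Lb.r r1126 (@Lb.r r101 (@Lb.d (nat_lit 261) (nat_lit 385) (nat_lit 0) (@Lb.t (@Lb.fp (nat_lit 3) t2098))))))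
noncomputable def l35629 : Lb := (@Lb.d (nat_lit 5) (nat_lit 514) (nat_lit 576) (@Lb.r r1284 (@Lb.r r579 (@Lb.r r402 (@Lb.g g5 (@Lb.d (nat_lit 0) (nat_lit 134) (nat_lit 0) (@Lb.t (@Lb.fm (nat_lit 3) t2652))))))))
noncomputable def l35630 : Lb := (@Lb.d (nat_lit 2) (nat_lit 6) (nat_lit 72) (@Lb.g g8 (@Lb.g g9 (@Lb.g g10 (@Lb.g g11 (@Lb.r r1691 (@Lb.r r1684 (@Lb.r r1190 (@Lb.r r529 (@Lb.d (nat_lit 361) (nat_lit 80) (nat_lit 386) (@Lb.fp (nat_lit 9) t152)))))))))))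
noncomputable def l35631 : Lb := (@Lb.d (nat_lit 2) (nat_lit 514) (nat_lit 73) (@Lb.g g8 (@Lb.g g9 (@Lb.g g10 (@Lb.g g11 (@Lb.r r516 (@Lb.r r1623 (@Lb.r r2390 (@Lb.r r97 (@Lb.r r20 (@Lb.d (nat_lit 680) (nat_lit 9) (nat_lit 537) (@Lb.fp (nat_lit 9) t263))))))))))))
noncomputable def l35632 : Lb := (@Lb.r r70 (@Lb.d (nat_lit 132) (nat_lit 261) (nat_lit 64) (@Lb.g g8 (@Lb.g g5 (@Lb.g g11 (@Lb.r r1643 (@Lb.r r1626 (@Lb.r r580 (@Lb.d (nat_lit 545) (nat_lit 6) (nat_lit 681) (@Lb.t (@Lb.fm (nat_lit 9) t50)))))))))))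
noncomputable def l35633 : Lb := (@Lb.r r1284 (@Lb.r r579 (@Lb.r r402 (@Lb.r r2145 (@Lb.g g9 (@Lb.t (@Lb.p (nat_lit 1) (@Lb.fm (nat_lit 3) t2652))))))))
noncomputable def l35634 : Lb := (@Lb.d (nat_lit 0) (nat_lit 514) (nat_lit 130) (@Lb.g g8 (@Lb.g g9 (@Lb.g g10 (@Lb.g g11 (@Lb.r r169 (@Lb.r r424 (@Lb.r r263 (@Lb.r r98 (@Lb.r r516 (@Lb.d (nat_lit 1) (nat_lit 88) (nat_lit 361) (@Lb.fp (nat_lit 9) t153))))))))))))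
noncomputable def l35635 : Lb := (@Lb.d (nat_lit 16) (nat_lit 18) (nat_lit 2) (@Lb.g g8 (@Lb.g g5 (@Lb.g g10 (@Lb.r r2587 (@Lb.r r1624 (@Lb.r r1126 (@Lb.d (nat_lit 296) (nat_lit 84) (nat_lit 644) (@Lb.t (@Lb.fp (nat_lit 9) t6315))))))))))
noncomputable def l35636 : Lb := (@Lb.d (nat_lit 70) (nat_lit 577) (nat_lit 576) (@Lb.r r264 (@Lb.r r2145 (@Lb.r r402 (@Lb.g g11 (@Lb.g g4 (@Lb.d (nat_lit 65) (nat_lit 0) (nat_lit 512) (@Lb.fm (nat_lit 3) t580))))))))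
noncomputable def l35637 : Lb := (@Lb.d (nat_lit 0) (nat_lit 577) (nat_lit 256) (@Lb.r r20 (@Lb.r r2145 (@Lb.r r402 (@Lb.g g11 (@Lb.g g6 (@Lb.fp (nat_lit 3) t393)))))))
noncomputable def l35638 : Lb := (@Lb.r r323 (@Lb.d (nat_lit 130) (nat_lit 73) (nat_lit 2) (@Lb.g g8 (@Lb.g g9 (@Lb.g g10 (@Lb.r r2658 (@Lb.r r583 (@Lb.r r2312 (@Lb.d (nat_lit 393) (nat_lit 8) (nat_lit 658) (@Lb.t (@Lb.fm (nat_lit 9) t2060)))))))))))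
noncomputable def l35639 : Lb := (@Lb.r r82 (@Lb.d (nat_lit 0) (nat_lit 258) (nat_lit 584) (@Lb.g g9 (@Lb.g g7 (@Lb.r r578 (@Lb.r r1121 (@Lb.d (nat_lit 5) (nat_lit 22) (nat_lit 534) (@Lb.fm (nat_lit 3) t6316))))))))
noncomputable def l35640 : Lb := (@Lb.d (nat_lit 0) (nat_lit 344) (nat_lit 585) (@Lb.g g5 (@Lb.g g10 (@Lb.g g7 (@Lb.r r402 (@Lb.r r24 (@Lb.d (nat_lit 610) (nat_lit 145) (nat_lit 538) (@Lb.t (@Lb.fm (nat_lit 9) t3342)))))))))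
noncomputable def l35641 : Lb := (@Lb.d (nat_lit 21) (nat_lit 522) (nat_lit 2) (@Lb.g g8 (@Lb.g g9 (@Lb.g g10 (@Lb.g g11 (@Lb.r r2451 (@Lb.r r277 (@Lb.r r1384 (@Lb.r r390 (@Lb.d (nat_lit 97) (nat_lit 150) (nat_lit 389) (@Lb.fp (nat_lit 9) t393)))))))))))
noncomputable def l35642 : Lb := (@Lb.d (nat_lit 8) (nat_lit 2) (nat_lit 0) (@Lb.g g9 (@Lb.r r1126 (@Lb.r r24 (@Lb.d (nat_lit 354) (nat_lit 2) (nat_lit 592) (@Lb.t (@Lb.fm (nat_lit 3) t49)))))))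
noncomputable def l35643 : Lb := (@Lb.d (nat_lit 0) (nat_lit 16) (nat_lit 584) (@Lb.g g7 (@Lb.r r594 (@Lb.d (nat_lit 0) (nat_lit 64) (nat_lit 66) (@Lb.t (@Lb.fm (nat_lit 3) t1563))))))
noncomputable def l35644 : Lb := (@Lb.d (nat_lit 1) (nat_lit 585) (nat_lit 1) (@Lb.g g8 (@Lb.g g9 (@Lb.g g10 (@Lb.g g11 (@Lb.r r2475 (@Lb.r r2442 (@Lb.r r2436 (@Lb.d (nat_lit 102) (nat_lit 9) (nat_lit 681) (@Lb.fm (nat_lit 9) t2306))))))))))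
noncomputable def l35645 : Lb := (@Lb.d (nat_lit 0) (nat_lit 256) (nat_lit 138) (@Lb.g g11 (@Lb.g g5 (@Lb.fp (nat_lit 3) t2))))
noncomputable def l35646 : Lb := (@Lb.d (nat_lit 2) (nat_lit 258) (nat_lit 137) (@Lb.g g8 (@Lb.g g9 (@Lb.g g10 (@Lb.g g11 (@Lb.r r2666 (@Lb.r r579 (@Lb.r r25 (@Lb.r r24 (@Lb.d (nat_lit 330) (nat_lit 161) (nat_lit 330) (@Lb.fp (nat_lit 9) t1449)))))))))))
noncomputable def l35647 : Lb := (@Lb.d (nat_lit 32) (nat_lit 258) (nat_lit 66) (@Lb.g g9 (@Lb.g g10 (@Lb.g g11 (@Lb.r r1299 (@Lb.r r2709 (@Lb.r r100 (@Lb.r r410 (@Lb.d (nat_lit 81) (nat_lit 26) (nat_lit 261) (@Lb.t (@Lb.fp (nat_lit 9) t284)))))))))))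
noncomputable def l35648 : Lb := (@Lb.r r402 (@Lb.r r24 (@Lb.r r101 (@Lb.d (nat_lit 514) (nat_lit 664) (nat_lit 594) (@Lb.fm (nat_lit 1) t2096)))))
noncomputable def l35649 : Lb := (@Lb.d (nat_lit 33) (nat_lit 6) (nat_lit 128) (@Lb.g g8 (@Lb.g g9 (@Lb.g g10 (@Lb.g g11 (@Lb.r r610 (@Lb.r r599 (@Lb.r r297 (@Lb.r r1060 (@Lb.d (nat_lit 642) (nat_lit 102) (nat_lit 65) (@Lb.fp (nat_lit 9) t6278)))))))))))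
noncomputable def l35650 : Lb := (@Lb.r r1045 (@Lb.d (nat_lit 129) (nat_lit 0) (nat_lit 130) (@Lb.g g8 (@Lb.g g10 (@Lb.g g11 (@Lb.r r395 (@Lb.r r2122 (@Lb.d (nat_lit 549) (nat_lit 64) (nat_lit 409) (@Lb.t (@Lb.fm (nat_lit 9) t2494))))))))))
noncomputable def l35651 : Lb := (@Lb.d (nat_lit 33) (nat_lit 2) (nat_lit 0) (@Lb.g g8 (@Lb.g g9 (@Lb.r r363 (@Lb.r r2646 (@Lb.r r409 (@Lb.r r388 (@Lb.d (nat_lit 98) (nat_lit 128) (nat_lit 154) (@Lb.fm (nat_lit 3) t2503)))))))))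
noncomputable def l35652 : Lb := (@Lb.d (nat_lit 34) (nat_lit 266) (nat_lit 0) (@Lb.g g8 (@Lb.g g9 (@Lb.r r2379 (@Lb.r r582 (@Lb.r r408 (@Lb.r r2069 (@Lb.d (nat_lit 4) (nat_lit 89) (nat_lit 554) (@Lb.fp (nat_lit 3) t188)))))))))
noncomputable def l35653 : Lb := (@Lb.r r323 (@Lb.d (nat_lit 136) (nat_lit 289) (nat_lit 0) (@Lb.g g8 (@Lb.g g9 (@Lb.g g10 (@Lb.r r599 (@Lb.r r98 (@Lb.r r408 (@Lb.r r101 (@Lb.d (nat_lit 21) (nat_lit 40) (nat_lit 146) (@Lb.t (@Lb.fp (nat_lit 9) t221))))))))))))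
noncomputable def l35654 : Lb := (@Lb.d (nat_lit 266) (nat_lit 514) (nat_lit 96) (@Lb.r r2196 (@Lb.r r1431 (@Lb.r r2454 (@Lb.r r601 (@Lb.g g7 (@Lb.d (nat_lit 0) (nat_lit 0) (nat_lit 68) (@Lb.t (@Lb.fp (nat_lit 3) t2503)))))))))
noncomputable def l35655 : Lb := (@Lb.r r82 (@Lb.d (nat_lit 129) (nat_lit 1) (nat_lit 128) (@Lb.g g8 (@Lb.g g9 (@Lb.g g11 (@Lb.r r1315 (@Lb.r r2148 (@Lb.r r602 (@Lb.r r293 (@Lb.d (nat_lit 592) (nat_lit 33) (nat_lit 416) (@Lb.t (@Lb.fp (nat_lit 9) t6317))))))))))))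
noncomputable def l35656 : Lb := (@Lb.d (nat_lit 33) (nat_lit 10) (nat_lit 0) (@Lb.g g8 (@Lb.g g9 (@Lb.r r2379 (@Lb.r r582 (@Lb.r r408 (@Lb.r r2069 (@Lb.d (nat_lit 4) (nat_lit 89) (nat_lit 682) (@Lb.fp (nat_lit 3) t386)))))))))
noncomputable def l35657 : Lb := (@Lb.d (nat_lit 34) (nat_lit 266) (nat_lit 64) (@Lb.g g8 (@Lb.g g9 (@Lb.g g7 (@Lb.r r582 (@Lb.r r408 (@Lb.r r2069 (@Lb.d (nat_lit 4) (nat_lit 89) (nat_lit 354) (@Lb.t (@Lb.fm (nat_lit 9) t572))))))))))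
noncomputable def l35658 : Lb := (@Lb.d (nat_lit 345) (nat_lit 645) (nat_lit 338) (@Lb.r r2312 (@Lb.r r1106 (@Lb.r r1623 (@Lb.g g6 (@Lb.g g5 (@Lb.g g4 (@Lb.d (nat_lit 65) (nat_lit 129) (nat_lit 1) (@Lb.r r387 (@Lb.t (@Lb.fp (nat_lit 9) t98)))))))))))
noncomputable def l35659 : Lb := (@Lb.d (nat_lit 5) (nat_lit 345) (nat_lit 649) (@Lb.r r24 (@Lb.r r2145 (@Lb.r r323 (@Lb.g g10 (@Lb.g g4 (@Lb.d (nat_lit 2) (nat_lit 8) (nat_lit 21) (@Lb.r r387 (@Lb.fp (nat_lit 3) t3686)))))))))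
noncomputable def l35660 : Lb := (@Lb.d (nat_lit 345) (nat_lit 582) (nat_lit 338) (@Lb.r r2312 (@Lb.r r1106 (@Lb.r r1623 (@Lb.g g6 (@Lb.g g5 (@Lb.g g4 (@Lb.d (nat_lit 65) (nat_lit 129) (nat_lit 1) (@Lb.r r387 (@Lb.t (@Lb.fp (nat_lit 9) t98)))))))))))
noncomputable def l35661 : Lb := (@Lb.d (nat_lit 522) (nat_lit 128) (nat_lit 384) (@Lb.r r20 (@Lb.r r2145 (@Lb.r r402 (@Lb.r r1291 (@Lb.g g8 (@Lb.t (@Lb.fp (nat_lit 3) t3278))))))))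
noncomputable def l35662 : Lb := (@Lb.d (nat_lit 345) (nat_lit 326) (nat_lit 338) (@Lb.r r2312 (@Lb.r r1106 (@Lb.r r1623 (@Lb.g g6 (@Lb.g g5 (@Lb.g g4 (@Lb.d (nat_lit 66) (nat_lit 129) (nat_lit 1) (@Lb.r r387 (@Lb.t (@Lb.fp (nat_lit 9) t98)))))))))))
noncomputable def l35663 : Lb := (@Lb.d (nat_lit 2) (nat_lit 512) (nat_lit 0) (@Lb.g g8 (@Lb.r r337 (@Lb.r r2723 (@Lb.r r1682 (@Lb.r r2129 (@Lb.d (nat_lit 320) (nat_lit 128) (nat_lit 256) (@Lb.t (@Lb.fp (nat_lit 3) t242)))))))))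
noncomputable def l35664 : Lb := (@Lb.d (nat_lit 1) (nat_lit 386) (nat_lit 66) (@Lb.g g8 (@Lb.g g9 (@Lb.g g10 (@Lb.g g11 (@Lb.r r648 (@Lb.r r539 (@Lb.r r98 (@Lb.r r516 (@Lb.d (nat_lit 553) (nat_lit 0) (nat_lit 153) (@Lb.fp (nat_lit 9) t1194)))))))))))
noncomputable def l35665 : Lb := (@Lb.d (nat_lit 38) (nat_lit 517) (nat_lit 74) (@Lb.g g8 (@Lb.g g9 (@Lb.g g10 (@Lb.g g11 (@Lb.r r1194 (@Lb.r r644 (@Lb.r r535 (@Lb.r r2325 (@Lb.r r2068 (@Lb.d (nat_lit 585) (nat_lit 138) (nat_lit 418) (@Lb.fp (nat_lit 9) t3066))))))))))))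
noncomputable def l35666 : Lb := (@Lb.d (nat_lit 101) (nat_lit 512) (nat_lit 73) (@Lb.g g8 (@Lb.g g9 (@Lb.g g10 (@Lb.g g11 (@Lb.r r2691 (@Lb.r r616 (@Lb.r r1193 (@Lb.r r1642 (@Lb.r r2084 (@Lb.d (nat_lit 680) (nat_lit 6) (nat_lit 101) (@Lb.fm (nat_lit 9) t3013))))))))))))
noncomputable def l35667 : Lb := (@Lb.d (nat_lit 261) (nat_lit 358) (nat_lit 294) (@Lb.r r2069 (@Lb.r r342 (@Lb.r r1707 (@Lb.g g6 (@Lb.g g5 (@Lb.g g4 (@Lb.d (nat_lit 8) (nat_lit 8) (nat_lit 0) (@Lb.t (@Lb.fm (nat_lit 9) t154))))))))))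
noncomputable def l35668 : Lb := (@Lb.d (nat_lit 2) (nat_lit 32) (nat_lit 130) (@Lb.g g8 (@Lb.g g9 (@Lb.g g10 (@Lb.g g11 (@Lb.r r289 (@Lb.r r403 (@Lb.r r386 (@Lb.r r1169 (@Lb.d (nat_lit 0) (nat_lit 73) (nat_lit 520) (@Lb.fp (nat_lit 9) t661)))))))))))
noncomputable def l35669 : Lb := (@Lb.r r81 (@Lb.d (nat_lit 138) (nat_lit 512) (nat_lit 41) (@Lb.g g8 (@Lb.g g6 (@Lb.r r661 (@Lb.r r343 (@Lb.r r680 (@Lb.d (nat_lit 90) (nat_lit 20) (nat_lit 9) (@Lb.fm (nat_lit 3) t2545)))))))))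
noncomputable def l35670 : Lb := (@Lb.r r82 (@Lb.d (nat_lit 72) (nat_lit 289) (nat_lit 64) (@Lb.g g8 (@Lb.g g9 (@Lb.g g11 (@Lb.r r2315 (@Lb.r r2708 (@Lb.r r2438 (@Lb.r r2385 (@Lb.d (nat_lit 0) (nat_lit 161) (nat_lit 528) (@Lb.t (@Lb.fp (nat_lit 9) t6318))))))))))))
noncomputable def l35671 : Lb := (@Lb.d (nat_lit 0) (nat_lit 104) (nat_lit 70) (@Lb.r r134 (@Lb.r r2388 (@Lb.g g7 (@Lb.g g5 (@Lb.g g4 (@Lb.d (nat_lit 9) (nat_lit 145) (nat_lit 64) (@Lb.r r614 (@Lb.t (@Lb.fm (nat_lit 9) t5259))))))))))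
noncomputable def l35672 : Lb := (@Lb.d (nat_lit 672) (nat_lit 614) (nat_lit 516) (@Lb.r r24 (@Lb.r r2457 (@Lb.r r427 (@Lb.g g6 (@Lb.g g5 (@Lb.g g4 (@Lb.d (nat_lit 8) (nat_lit 5) (nat_lit 42) (@Lb.r r403 (@Lb.t (@Lb.fm (nat_lit 9) t2801)))))))))))
noncomputable def l35673 : Lb := (@Lb.d (nat_lit 644) (nat_lit 2) (nat_lit 66) (@Lb.g g8 (@Lb.g g9 (@Lb.g g10 (@Lb.g g11 (@Lb.r r2475 (@Lb.r r1130 (@Lb.r r1049 (@Lb.d (nat_lit 521) (nat_lit 136) (nat_lit 425) (@Lb.fp (nat_lit 9) t898))))))))))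
noncomputable def l35674 : Lb := (@Lb.r r664 (@Lb.r r667 (@Lb.r r1690 (@Lb.r r1365 (@Lb.r r1700 (@Lb.d (nat_lit 10) (nat_lit 258) (nat_lit 0) (@Lb.fm (nat_lit 1) t1079)))))))
noncomputable def l35675 : Lb := (@Lb.r r70 (@Lb.r r263 (@Lb.d (nat_lit 520) (nat_lit 513) (nat_lit 0) (@Lb.g g4 (@Lb.g g9 (@Lb.r r267 (@Lb.r r74 (@Lb.r r37 (@Lb.d (nat_lit 261) (nat_lit 129) (nat_lit 0) (@Lb.fm (nat_lit 3) t68))))))))))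
noncomputable def l35676 : Lb := (@Lb.r r70 (@Lb.d (nat_lit 9) (nat_lit 266) (nat_lit 128) (@Lb.g g8 (@Lb.g g9 (@Lb.g g11 (@Lb.r r1611 (@Lb.r r2454 (@Lb.r r2632 (@Lb.d (nat_lit 657) (nat_lit 64) (nat_lit 137) (@Lb.t (@Lb.fp (nat_lit 9) t218)))))))))))
noncomputable def l35677 : Lb := (@Lb.d (nat_lit 32) (nat_lit 0) (nat_lit 66) (@Lb.g g10 (@Lb.g g11 (@Lb.r r340 (@Lb.r r427 (@Lb.r r2410 (@Lb.r r2073 (@Lb.d (nat_lit 330) (nat_lit 169) (nat_lit 677) (@Lb.fm (nat_lit 3) t430)))))))))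
noncomputable def l35678 : Lb := (@Lb.d (nat_lit 2) (nat_lit 514) (nat_lit 130) (@Lb.g g8 (@Lb.g g9 (@Lb.g g10 (@Lb.g g11 (@Lb.r r427 (@Lb.r r297 (@Lb.r r104 (@Lb.r r70 (@Lb.r r132 (@Lb.d (nat_lit 2) (nat_lit 74) (nat_lit 258) (@Lb.fp (nat_lit 9) t51))))))))))))
noncomputable def l35679 : Lb := (@Lb.r r355 (@Lb.d (nat_lit 2) (nat_lit 258) (nat_lit 2) (@Lb.g g8 (@Lb.g g9 (@Lb.g g10 (@Lb.r r410 (@Lb.r r1611 (@Lb.r r1301 (@Lb.r r24 (@Lb.d (nat_lit 90) (nat_lit 2) (nat_lit 106) (@Lb.t (@Lb.fp (nat_lit 9) t1120))))))))))))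
noncomputable def l35680 : Lb := (@Lb.d (nat_lit 292) (nat_lit 137) (nat_lit 33) (@Lb.r r72 (@Lb.r r1110 (@Lb.r r1367 (@Lb.g g6 (@Lb.g g5 (@Lb.g g4 (@Lb.d (nat_lit 25) (nat_lit 128) (nat_lit 1) (@Lb.r r387 (@Lb.t (@Lb.fm (nat_lit 9) t68)))))))))))
noncomputable def l35681 : Lb := (@Lb.d (nat_lit 9) (nat_lit 2) (nat_lit 66) (@Lb.g g8 (@Lb.g g9 (@Lb.g g10 (@Lb.g g11 (@Lb.r r2731 (@Lb.r r1642 (@Lb.r r1561 (@Lb.r r2584 (@Lb.d (nat_lit 388) (nat_lit 40) (nat_lit 161) (@Lb.fp (nat_lit 9) t324)))))))))))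
noncomputable def l35682 : Lb := (@Lb.r r323 (@Lb.d (nat_lit 16) (nat_lit 512) (nat_lit 2) (@Lb.g g8 (@Lb.g g10 (@Lb.r r1367 (@Lb.r r2218 (@Lb.r r2201 (@Lb.r r132 (@Lb.d (nat_lit 297) (nat_lit 134) (nat_lit 2) (@Lb.fp (nat_lit 3) t68))))))))))
noncomputable def l35683 : Lb := (@Lb.r r323 (@Lb.d (nat_lit 16) (nat_lit 522) (nat_lit 10) (@Lb.g g8 (@Lb.g g9 (@Lb.g g10 (@Lb.r r2699 (@Lb.r r2452 (@Lb.r r425 (@Lb.r r418 (@Lb.d (nat_lit 546) (nat_lit 38) (nat_lit 152) (@Lb.t (@Lb.fp (nat_lit 9) t68))))))))))))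
noncomputable def l35684 : Lb := (@Lb.d (nat_lit 2) (nat_lit 258) (nat_lit 130) (@Lb.g g8 (@Lb.g g9 (@Lb.g g10 (@Lb.g g11 (@Lb.r r427 (@Lb.r r1428 (@Lb.r r1110 (@Lb.r r1125 (@Lb.d (nat_lit 545) (nat_lit 9) (nat_lit 153) (@Lb.fm (nat_lit 9) t3484)))))))))))
noncomputable def l35685 : Lb := (@Lb.r r323 (@Lb.d (nat_lit 2) (nat_lit 8) (nat_lit 6) (@Lb.g g8 (@Lb.g g10 (@Lb.r r387 (@Lb.r r2564 (@Lb.d (nat_lit 649) (nat_lit 1) (nat_lit 585) (@Lb.fm (nat_lit 3) t5330))))))))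
noncomputable def l35686 : Lb := (@Lb.r r323 (@Lb.d (nat_lit 17) (nat_lit 9) (nat_lit 2) (@Lb.g g8 (@Lb.g g9 (@Lb.g g10 (@Lb.r r1681 (@Lb.r r1559 (@Lb.r r2626 (@Lb.r r2312 (@Lb.d (nat_lit 337) (nat_lit 0) (nat_lit 100) (@Lb.t (@Lb.fm (nat_lit 9) t1328))))))))))))
noncomputable def l35687 : Lb := (@Lb.r r21 (@Lb.d (nat_lit 2) (nat_lit 8) (nat_lit 130) (@Lb.g g8 (@Lb.g g10 (@Lb.g g11 (@Lb.r r664 (@Lb.r r395 (@Lb.r r101 (@Lb.r r410 (@Lb.d (nat_lit 409) (nat_lit 21) (nat_lit 168) (@Lb.t (@Lb.fp (nat_lit 9) t319))))))))))))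
noncomputable def l35688 : Lb := (@Lb.r r68 (@Lb.d (nat_lit 0) (nat_lit 260) (nat_lit 105) (@Lb.g g9 (@Lb.g g6 (@Lb.g g11 (@Lb.r r101 (@Lb.r r1560 (@Lb.r r1611 (@Lb.d (nat_lit 610) (nat_lit 0) (nat_lit 392) (@Lb.t (@Lb.fm (nat_lit 9) t1246)))))))))))
noncomputable def l35689 : Lb := (@Lb.r r81 (@Lb.d (nat_lit 138) (nat_lit 512) (nat_lit 41) (@Lb.g g8 (@Lb.g g6 (@Lb.r r661 (@Lb.r r663 (@Lb.r r360 (@Lb.d (nat_lit 532) (nat_lit 42) (nat_lit 548) (@Lb.fp (nat_lit 3) t580)))))))))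
noncomputable def l35690 : Lb := (@Lb.r r2130 (@Lb.r r275 (@Lb.d (nat_lit 2) (nat_lit 145) (nat_lit 0) (@Lb.g g8 (@Lb.g g5 (@Lb.r r1307 (@Lb.r r24 (@Lb.d (nat_lit 585) (nat_lit 129) (nat_lit 384) (@Lb.fm (nat_lit 3) t5669)))))))))
noncomputable def l35691 : Lb := (@Lb.r r82 (@Lb.d (nat_lit 134) (nat_lit 266) (nat_lit 64) (@Lb.g g8 (@Lb.g g5 (@Lb.g g11 (@Lb.r r2406 (@Lb.r r1691 (@Lb.r r644 (@Lb.d (nat_lit 150) (nat_lit 84) (nat_lit 22) (@Lb.t (@Lb.fm (nat_lit 9) t6319)))))))))))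
noncomputable def l35692 : Lb := (@Lb.r r323 (@Lb.d (nat_lit 130) (nat_lit 66) (nat_lit 2) (@Lb.g g8 (@Lb.g g9 (@Lb.g g10 (@Lb.r r1623 (@Lb.r r2146 (@Lb.r r2312 (@Lb.d (nat_lit 678) (nat_lit 137) (nat_lit 609) (@Lb.t (@Lb.fm (nat_lit 9) t2488)))))))))))
noncomputable def l35693 : Lb := (@Lb.d (nat_lit 320) (nat_lit 21) (nat_lit 598) (@Lb.r r24 (@Lb.r r2145 (@Lb.r r386 (@Lb.r r1543 (@Lb.g g7 (@Lb.g g6 (@Lb.g g4 (@Lb.d (nat_lit 2) (nat_lit 0) (nat_lit 129) (@Lb.t (@Lb.fp (nat_lit 9) t4534)))))))))))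
noncomputable def l35694 : Lb := (@Lb.d (nat_lit 2) (nat_lit 2) (nat_lit 130) (@Lb.g g8 (@Lb.g g9 (@Lb.g g10 (@Lb.g g11 (@Lb.r r2411 (@Lb.r r386 (@Lb.r r100 (@Lb.r r21 (@Lb.r r36 (@Lb.d (nat_lit 97) (nat_lit 64) (nat_lit 596) (@Lb.fm (nat_lit 9) t1306))))))))))))
noncomputable def l35695 : Lb := (@Lb.d (nat_lit 130) (nat_lit 260) (nat_lit 128) (@Lb.g g8 (@Lb.g g9 (@Lb.g g10 (@Lb.g g11 (@Lb.r r1706 (@Lb.r r1411 (@Lb.r r1177 (@Lb.r r1156 (@Lb.d (nat_lit 297) (nat_lit 89) (nat_lit 596) (@Lb.fm (nat_lit 9) t1833)))))))))))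
noncomputable def l35696 : Lb := (@Lb.d (nat_lit 2) (nat_lit 2) (nat_lit 130) (@Lb.g g8 (@Lb.g g9 (@Lb.g g10 (@Lb.g g11 (@Lb.r r2691 (@Lb.r r536 (@Lb.r r2197 (@Lb.r r2646 (@Lb.r r164 (@Lb.d (nat_lit 137) (nat_lit 9) (nat_lit 361) (@Lb.fp (nat_lit 9) t1636))))))))))))
noncomputable def l35697 : Lb := (@Lb.d (nat_lit 41) (nat_lit 513) (nat_lit 64) (@Lb.g g8 (@Lb.g g9 (@Lb.g g11 (@Lb.r r2387 (@Lb.r r582 (@Lb.r r1188 (@Lb.r r1557 (@Lb.d (nat_lit 648) (nat_lit 85) (nat_lit 586) (@Lb.t (@Lb.fm (nat_lit 9) t881)))))))))))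
noncomputable def l35698 : Lb := (@Lb.d (nat_lit 36) (nat_lit 357) (nat_lit 517) (@Lb.r r21 (@Lb.r r104 (@Lb.r r323 (@Lb.g g10 (@Lb.g g5 (@Lb.d (nat_lit 0) (nat_lit 1) (nat_lit 2) (@Lb.r r387 (@Lb.fm (nat_lit 3) t3022)))))))))
noncomputable def l35699 : Lb := (@Lb.d (nat_lit 658) (nat_lit 258) (nat_lit 33) (@Lb.r r1092 (@Lb.r r330 (@Lb.r r2579 (@Lb.g g9 (@Lb.g g4 (@Lb.d (nat_lit 17) (nat_lit 37) (nat_lit 0) (@Lb.r r291 (@Lb.r r98 (@Lb.fm (nat_lit 3) t294))))))))))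
noncomputable def l35700 : Lb := (@Lb.d (nat_lit 344) (nat_lit 514) (nat_lit 384) (@Lb.r r97 (@Lb.r r2371 (@Lb.r r646 (@Lb.g g7 (@Lb.g g6 (@Lb.g g8 (@Lb.d (nat_lit 576) (nat_lit 0) (nat_lit 65) (@Lb.r r25 (@Lb.t (@Lb.fm (nat_lit 9) t509)))))))))))
noncomputable def l35701 : Lb := (@Lb.d (nat_lit 596) (nat_lit 425) (nat_lit 326) (@Lb.r r24 (@Lb.r r146 (@Lb.r r341 (@Lb.g g11 (@Lb.g g9 (@Lb.d (nat_lit 0) (nat_lit 1) (nat_lit 256) (@Lb.r r578 (@Lb.fm (nat_lit 3) t6320)))))))))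
noncomputable def l35702 : Lb := (@Lb.d (nat_lit 2) (nat_lit 545) (nat_lit 66) (@Lb.g g8 (@Lb.g g9 (@Lb.g g10 (@Lb.g g11 (@Lb.r r427 (@Lb.r r2440 (@Lb.r r2122 (@Lb.r r2577 (@Lb.d (nat_lit 420) (nat_lit 64) (nat_lit 274) (@Lb.fm (nat_lit 9) t6321)))))))))))
noncomputable def l35703 : Lb := (@Lb.d (nat_lit 2) (nat_lit 132) (nat_lit 97) (@Lb.r r386 (@Lb.r r2387 (@Lb.r r677 (@Lb.g g7 (@Lb.g g6 (@Lb.g g5 (@Lb.g g8 (@Lb.d (nat_lit 322) (nat_lit 8) (nat_lit 64) (@Lb.fm (nat_lit 9) t2175))))))))))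
noncomputable def l35704 : Lb := (@Lb.r r21 (@Lb.r r70 (@Lb.r r2311 (@Lb.g g8 (@Lb.r r2196 (@Lb.r r2454 (@Lb.r r25 (@Lb.d (nat_lit 10) (nat_lit 130) (nat_lit 544) (@Lb.t (@Lb.fm (nat_lit 3) t6322))))))))))
noncomputable def l35705 : Lb := (@Lb.d (nat_lit 642) (nat_lit 422) (nat_lit 265) (@Lb.r r24 (@Lb.r r289 (@Lb.r r418 (@Lb.g g11 (@Lb.g g5 (@Lb.d (nat_lit 0) (nat_lit 18) (nat_lit 264) (@Lb.r r578 (@Lb.fm (nat_lit 3) t6323)))))))))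
noncomputable def l35706 : Lb := (@Lb.d (nat_lit 282) (nat_lit 514) (nat_lit 80) (@Lb.r r1370 (@Lb.r r2731 (@Lb.r r661 (@Lb.g g7 (@Lb.g g8 (@Lb.d (nat_lit 584) (nat_lit 16) (nat_lit 64) (@Lb.r r74 (@Lb.r r25 (@Lb.fm (nat_lit 3) t870))))))))))
noncomputable def l35707 : Lb := (@Lb.d (nat_lit 136) (nat_lit 257) (nat_lit 644) (@Lb.g g9 (@Lb.g g11 (@Lb.r r2178 (@Lb.r r408 (@Lb.r r37 (@Lb.d (nat_lit 282) (nat_lit 101) (nat_lit 90) (@Lb.fp (nat_lit 3) t3266))))))))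
noncomputable def l35708 : Lb := (@Lb.r r21 (@Lb.d (nat_lit 33) (nat_lit 256) (nat_lit 65) (@Lb.g g8 (@Lb.g g10 (@Lb.g g7 (@Lb.r r2434 (@Lb.r r97 (@Lb.r r1096 (@Lb.d (nat_lit 98) (nat_lit 10) (nat_lit 296) (@Lb.t (@Lb.fm (nat_lit 9) t5515)))))))))))
noncomputable def l35709 : Lb := (@Lb.d (nat_lit 2) (nat_lit 514) (nat_lit 130) (@Lb.g g8 (@Lb.g g9 (@Lb.g g10 (@Lb.g g11 (@Lb.r r84 (@Lb.r r154 (@Lb.r r597 (@Lb.r r343 (@Lb.r r676 (@Lb.d (nat_lit 617) (nat_lit 1) (nat_lit 602) (@Lb.fm (nat_lit 9) t698))))))))))))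
noncomputable def l35710 : Lb := (@Lb.r r21 (@Lb.d (nat_lit 656) (nat_lit 512) (nat_lit 128) (@Lb.g g4 (@Lb.g g10 (@Lb.g g11 (@Lb.r r662 (@Lb.r r391 (@Lb.r r97 (@Lb.d (nat_lit 354) (nat_lit 154) (nat_lit 154) (@Lb.t (@Lb.fp (nat_lit 9) t2331)))))))))))
noncomputable def l35711 : Lb := (@Lb.r r21 (@Lb.d (nat_lit 145) (nat_lit 0) (nat_lit 128) (@Lb.g g8 (@Lb.g g10 (@Lb.g g11 (@Lb.r r1691 (@Lb.r r409 (@Lb.r r90 (@Lb.r r1176 (@Lb.d (nat_lit 533) (nat_lit 64) (nat_lit 2) (@Lb.t (@Lb.fm (nat_lit 9) t125))))))))))))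
noncomputable def l35712 : Lb := (@Lb.d (nat_lit 8) (nat_lit 298) (nat_lit 0) (@Lb.g g9 (@Lb.r r664 (@Lb.r r667 (@Lb.r r1690 (@Lb.r r1365 (@Lb.d (nat_lit 596) (nat_lit 86) (nat_lit 406) (@Lb.t (@Lb.fm (nat_lit 3) t322)))))))))
noncomputable def l35713 : Lb := (@Lb.d (nat_lit 292) (nat_lit 266) (nat_lit 18) (@Lb.r r597 (@Lb.r r279 (@Lb.r r584 (@Lb.g g6 (@Lb.g g5 (@Lb.d (nat_lit 16) (nat_lit 0) (nat_lit 1) (@Lb.r r387 (@Lb.fp (nat_lit 3) t694)))))))))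
noncomputable def l35714 : Lb := (@Lb.d (nat_lit 2) (nat_lit 514) (nat_lit 128) (@Lb.g g8 (@Lb.g g9 (@Lb.g g10 (@Lb.g g11 (@Lb.r r681 (@Lb.r r427 (@Lb.r r404 (@Lb.r r422 (@Lb.d (nat_lit 106) (nat_lit 97) (nat_lit 146) (@Lb.fp (nat_lit 9) t988)))))))))))
noncomputable def l35715 : Lb := (@Lb.d (nat_lit 133) (nat_lit 258) (nat_lit 73) (@Lb.g g8 (@Lb.g g9 (@Lb.g g10 (@Lb.g g11 (@Lb.r r1675 (@Lb.r r346 (@Lb.r r2341 (@Lb.r r2584 (@Lb.d (nat_lit 296) (nat_lit 73) (nat_lit 549) (@Lb.fm (nat_lit 9) t809)))))))))))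
noncomputable def l35716 : Lb := (@Lb.d (nat_lit 98) (nat_lit 388) (nat_lit 662) (@Lb.r r1297 (@Lb.r r611 (@Lb.r r545 (@Lb.r r2214 (@Lb.g g7 (@Lb.g g6 (@Lb.g g5 (@Lb.g g8 (@Lb.d (nat_lit 330) (nat_lit 0) (nat_lit 65) (@Lb.fp (nat_lit 9) t800)))))))))))
noncomputable def l35717 : Lb := (@Lb.g g7 (@Lb.r r597 (@Lb.r r1386 (@Lb.r r407 (@Lb.r r1096 (@Lb.d (nat_lit 352) (nat_lit 512) (nat_lit 354) (@Lb.t (@Lb.fp (nat_lit 3) t2238))))))))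
noncomputable def l35718 : Lb := (@Lb.d (nat_lit 32) (nat_lit 512) (nat_lit 4) (@Lb.g g10 (@Lb.g g11 (@Lb.r r2451 (@Lb.r r1557 (@Lb.r r100 (@Lb.r r2442 (@Lb.d (nat_lit 402) (nat_lit 16) (nat_lit 0) (@Lb.fp (nat_lit 3) t660)))))))))
noncomputable def l35719 : Lb := (@Lb.r r21 (@Lb.d (nat_lit 2) (nat_lit 288) (nat_lit 162) (@Lb.g g8 (@Lb.g g6 (@Lb.g g11 (@Lb.r r149 (@Lb.r r360 (@Lb.r r1559 (@Lb.d (nat_lit 662) (nat_lit 98) (nat_lit 20) (@Lb.t (@Lb.fp (nat_lit 9) t296)))))))))))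
noncomputable def l35720 : Lb := (@Lb.r r260 (@Lb.r r322 (@Lb.d (nat_lit 68) (nat_lit 514) (nat_lit 320) (@Lb.g g9 (@Lb.g g7 (@Lb.r r148 (@Lb.r r614 (@Lb.r r2385 (@Lb.d (nat_lit 0) (nat_lit 33) (nat_lit 133) (@Lb.fp (nat_lit 3) t858))))))))))
noncomputable def l35721 : Lb := (@Lb.d (nat_lit 21) (nat_lit 546) (nat_lit 100) (@Lb.r r105 (@Lb.r r1110 (@Lb.r r279 (@Lb.g g5 (@Lb.g g4 (@Lb.d (nat_lit 322) (nat_lit 2) (nat_lit 0) (@Lb.r r263 (@Lb.fp (nat_lit 3) t6324)))))))))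
noncomputable def l35722 : Lb := (@Lb.d (nat_lit 136) (nat_lit 4) (nat_lit 64) (@Lb.g g8 (@Lb.g g9 (@Lb.g g10 (@Lb.g g11 (@Lb.r r2069 (@Lb.r r2696 (@Lb.r r539 (@Lb.r r386 (@Lb.d (nat_lit 389) (nat_lit 168) (nat_lit 617) (@Lb.fm (nat_lit 9) t6325)))))))))))
noncomputable def l35723 : Lb := (@Lb.d (nat_lit 74) (nat_lit 512) (nat_lit 0) (@Lb.g g8 (@Lb.g g10 (@Lb.g g11 (@Lb.r r2709 (@Lb.r r1686 (@Lb.r r663 (@Lb.r r1108 (@Lb.d (nat_lit 534) (nat_lit 150) (nat_lit 594) (@Lb.t (@Lb.fm (nat_lit 9) t5108)))))))))))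
noncomputable def l35724 : Lb := (@Lb.r r260 (@Lb.r r322 (@Lb.d (nat_lit 68) (nat_lit 2) (nat_lit 320) (@Lb.g g9 (@Lb.g g7 (@Lb.r r148 (@Lb.r r614 (@Lb.r r2385 (@Lb.d (nat_lit 0) (nat_lit 33) (nat_lit 69) (@Lb.fp (nat_lit 3) t2174))))))))))
noncomputable def l35725 : Lb := (@Lb.d (nat_lit 128) (nat_lit 258) (nat_lit 130) (@Lb.g g8 (@Lb.g g9 (@Lb.g g10 (@Lb.g g11 (@Lb.r r1675 (@Lb.r r2405 (@Lb.r r1178 (@Lb.r r1156 (@Lb.d (nat_lit 345) (nat_lit 25) (nat_lit 406) (@Lb.fm (nat_lit 9) t74)))))))))))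
noncomputable def l35726 : Lb := (@Lb.d (nat_lit 128) (nat_lit 2) (nat_lit 4) (@Lb.g g8 (@Lb.g g9 (@Lb.g g10 (@Lb.g g11 (@Lb.r r1675 (@Lb.r r2405 (@Lb.r r1178 (@Lb.r r1156 (@Lb.d (nat_lit 345) (nat_lit 25) (nat_lit 406) (@Lb.fm (nat_lit 9) t74)))))))))))
noncomputable def l35727 : Lb := (@Lb.r r70 (@Lb.d (nat_lit 128) (nat_lit 258) (nat_lit 128) (@Lb.g g8 (@Lb.g g9 (@Lb.g g11 (@Lb.r r1305 (@Lb.r r2407 (@Lb.r r2726 (@Lb.r r152 (@Lb.d (nat_lit 534) (nat_lit 138) (nat_lit 70) (@Lb.t (@Lb.fm (nat_lit 9) t2420))))))))))))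
noncomputable def l35728 : Lb := (@Lb.d (nat_lit 128) (nat_lit 520) (nat_lit 64) (@Lb.g g8 (@Lb.g g10 (@Lb.g g11 (@Lb.r r2712 (@Lb.r r2405 (@Lb.r r539 (@Lb.r r2370 (@Lb.d (nat_lit 389) (nat_lit 32) (nat_lit 358) (@Lb.t (@Lb.fp (nat_lit 9) t5108)))))))))))
noncomputable def l35729 : Lb := (@Lb.d (nat_lit 1) (nat_lit 256) (nat_lit 128) (@Lb.g g8 (@Lb.g g10 (@Lb.g g11 (@Lb.r r665 (@Lb.r r2714 (@Lb.r r1691 (@Lb.r r2200 (@Lb.d (nat_lit 409) (nat_lit 138) (nat_lit 578) (@Lb.t (@Lb.fp (nat_lit 9) t1261)))))))))))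
noncomputable def l35730 : Lb := (@Lb.r r323 (@Lb.d (nat_lit 40) (nat_lit 6) (nat_lit 2) (@Lb.g g8 (@Lb.g g9 (@Lb.g g10 (@Lb.r r2315 (@Lb.r r2217 (@Lb.r r2658 (@Lb.r r388 (@Lb.d (nat_lit 405) (nat_lit 26) (nat_lit 325) (@Lb.t (@Lb.fp (nat_lit 9) t1443))))))))))))
noncomputable def l35731 : Lb := (@Lb.d (nat_lit 2) (nat_lit 258) (nat_lit 66) (@Lb.g g8 (@Lb.g g9 (@Lb.g g10 (@Lb.g g7 (@Lb.r r386 (@Lb.r r97 (@Lb.r r24 (@Lb.d (nat_lit 9) (nat_lit 9) (nat_lit 137) (@Lb.fp (nat_lit 9) t319))))))))))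
noncomputable def l35732 : Lb := (@Lb.d (nat_lit 0) (nat_lit 384) (nat_lit 529) (@Lb.r r289 (@Lb.r r535 (@Lb.r r356 (@Lb.r r154 (@Lb.g g7 (@Lb.g g5 (@Lb.d (nat_lit 4) (nat_lit 6) (nat_lit 0) (@Lb.fp (nat_lit 3) t420)))))))))
noncomputable def l35733 : Lb := (@Lb.d (nat_lit 1) (nat_lit 34) (nat_lit 66) (@Lb.g g8 (@Lb.g g9 (@Lb.g g10 (@Lb.g g11 (@Lb.r r2730 (@Lb.r r2435 (@Lb.r r2212 (@Lb.r r2085 (@Lb.d (nat_lit 361) (nat_lit 68) (nat_lit 326) (@Lb.fp (nat_lit 9) t2306)))))))))))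
noncomputable def l35734 : Lb := (@Lb.d (nat_lit 0) (nat_lit 546) (nat_lit 66) (@Lb.g g9 (@Lb.g g10 (@Lb.g g11 (@Lb.r r387 (@Lb.r r145 (@Lb.r r1426 (@Lb.d (nat_lit 0) (nat_lit 149) (nat_lit 601) (@Lb.t (@Lb.fp (nat_lit 9) t241))))))))))
noncomputable def l35735 : Lb := (@Lb.d (nat_lit 0) (nat_lit 34) (nat_lit 66) (@Lb.g g4 (@Lb.g g9 (@Lb.g g10 (@Lb.g g11 (@Lb.r r387 (@Lb.r r145 (@Lb.r r1426 (@Lb.d (nat_lit 1) (nat_lit 149) (nat_lit 601) (@Lb.fp (nat_lit 9) t241))))))))))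
noncomputable def l35736 : Lb := (@Lb.d (nat_lit 0) (nat_lit 290) (nat_lit 66) (@Lb.g g4 (@Lb.g g9 (@Lb.g g10 (@Lb.g g11 (@Lb.r r387 (@Lb.r r145 (@Lb.r r1426 (@Lb.d (nat_lit 0) (nat_lit 149) (nat_lit 601) (@Lb.fp (nat_lit 9) t241))))))))))
noncomputable def l35737 : Lb := (@Lb.d (nat_lit 2) (nat_lit 0) (nat_lit 2) (@Lb.g g8 (@Lb.g g10 (@Lb.g g7 (@Lb.r r386 (@Lb.r r101 (@Lb.r r24 (@Lb.d (nat_lit 354) (nat_lit 0) (nat_lit 585) (@Lb.t (@Lb.fm (nat_lit 9) t166))))))))))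
noncomputable def l35738 : Lb := (@Lb.d (nat_lit 2) (nat_lit 290) (nat_lit 130) (@Lb.g g8 (@Lb.g g9 (@Lb.g g10 (@Lb.g g11 (@Lb.r r674 (@Lb.r r2435 (@Lb.r r153 (@Lb.r r24 (@Lb.d (nat_lit 344) (nat_lit 2) (nat_lit 340) (@Lb.fp (nat_lit 9) t2106)))))))))))
noncomputable def l35739 : Lb := (@Lb.r r424 (@Lb.r r1434 (@Lb.r r2661 (@Lb.r r1383 (@Lb.r r2692 (@Lb.d (nat_lit 320) (nat_lit 608) (nat_lit 5) (@Lb.fm (nat_lit 1) t2327)))))))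
noncomputable def l35740 : Lb := (@Lb.r r424 (@Lb.r r1434 (@Lb.r r2661 (@Lb.r r1383 (@Lb.r r2692 (@Lb.d (nat_lit 320) (nat_lit 96) (nat_lit 128) (@Lb.fm (nat_lit 1) t2327)))))))
noncomputable def l35741 : Lb := (@Lb.d (nat_lit 130) (nat_lit 513) (nat_lit 0) (@Lb.g g8 (@Lb.g g9 (@Lb.r r263 (@Lb.r r580 (@Lb.r r2154 (@Lb.r r2137 (@Lb.d (nat_lit 165) (nat_lit 149) (nat_lit 161) (@Lb.fm (nat_lit 3) t3589)))))))))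
noncomputable def l35742 : Lb := (@Lb.d (nat_lit 2) (nat_lit 521) (nat_lit 136) (@Lb.g g8 (@Lb.g g9 (@Lb.g g10 (@Lb.g g11 (@Lb.r r610 (@Lb.r r579 (@Lb.r r1129 (@Lb.r r36 (@Lb.d (nat_lit 148) (nat_lit 1) (nat_lit 324) (@Lb.fp (nat_lit 9) t6326)))))))))))
noncomputable def l35743 : Lb := (@Lb.d (nat_lit 162) (nat_lit 256) (nat_lit 0) (@Lb.g g8 (@Lb.r r2646 (@Lb.r r1449 (@Lb.r r599 (@Lb.r r404 (@Lb.d (nat_lit 422) (nat_lit 74) (nat_lit 5) (@Lb.t (@Lb.fp (nat_lit 3) t2327)))))))))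
noncomputable def l35744 : Lb := (@Lb.d (nat_lit 130) (nat_lit 512) (nat_lit 0) (@Lb.g g4 (@Lb.r r555 (@Lb.r r402 (@Lb.r r609 (@Lb.r r148 (@Lb.d (nat_lit 21) (nat_lit 73) (nat_lit 18) (@Lb.t (@Lb.fp (nat_lit 3) t334)))))))))
noncomputable def l35745 : Lb := (@Lb.d (nat_lit 1) (nat_lit 292) (nat_lit 64) (@Lb.g g8 (@Lb.g g9 (@Lb.g g10 (@Lb.g g11 (@Lb.r r260 (@Lb.r r683 (@Lb.r r162 (@Lb.r r2193 (@Lb.r r516 (@Lb.d (nat_lit 529) (nat_lit 73) (nat_lit 69) (@Lb.fp (nat_lit 9) t6327))))))))))))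
noncomputable def l35746 : Lb := (@Lb.d (nat_lit 162) (nat_lit 512) (nat_lit 0) (@Lb.g g8 (@Lb.r r391 (@Lb.r r1446 (@Lb.r r1057 (@Lb.r r1620 (@Lb.d (nat_lit 406) (nat_lit 164) (nat_lit 553) (@Lb.t (@Lb.fp (nat_lit 3) t6022)))))))))
noncomputable def l35747 : Lb := (@Lb.r r283 (@Lb.d (nat_lit 145) (nat_lit 266) (nat_lit 1) (@Lb.g g8 (@Lb.g g9 (@Lb.g g10 (@Lb.r r2583 (@Lb.r r2193 (@Lb.r r1364 (@Lb.r r1626 (@Lb.d (nat_lit 260) (nat_lit 165) (nat_lit 580) (@Lb.t (@Lb.fp (nat_lit 9) t1185))))))))))))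
noncomputable def l35748 : Lb := (@Lb.r r323 (@Lb.d (nat_lit 129) (nat_lit 521) (nat_lit 2) (@Lb.g g8 (@Lb.g g9 (@Lb.g g10 (@Lb.r r2705 (@Lb.r r663 (@Lb.r r578 (@Lb.r r72 (@Lb.d (nat_lit 641) (nat_lit 64) (nat_lit 358) (@Lb.t (@Lb.fm (nat_lit 9) t539))))))))))))
noncomputable def l35749 : Lb := (@Lb.d (nat_lit 0) (nat_lit 548) (nat_lit 650) (@Lb.r r1425 (@Lb.r r402 (@Lb.r r1379 (@Lb.g g9 (@Lb.t (@Lb.fm (nat_lit 3) t1487)))))))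
noncomputable def l35750 : Lb := (@Lb.d (nat_lit 0) (nat_lit 288) (nat_lit 136) (@Lb.g g4 (@Lb.g g11 (@Lb.r r2449 (@Lb.r r1426 (@Lb.r r355 (@Lb.d (nat_lit 1) (nat_lit 64) (nat_lit 388) (@Lb.fm (nat_lit 3) t1487))))))))
noncomputable def l35751 : Lb := (@Lb.d (nat_lit 1) (nat_lit 2) (nat_lit 74) (@Lb.g g8 (@Lb.g g9 (@Lb.g g10 (@Lb.g g11 (@Lb.r r673 (@Lb.r r295 (@Lb.r r664 (@Lb.r r154 (@Lb.d (nat_lit 16) (nat_lit 129) (nat_lit 101) (@Lb.fm (nat_lit 9) t232)))))))))))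
noncomputable def l35752 : Lb := (@Lb.d (nat_lit 0) (nat_lit 34) (nat_lit 130) (@Lb.g g9 (@Lb.g g10 (@Lb.g g11 (@Lb.r r2726 (@Lb.r r2435 (@Lb.r r1112 (@Lb.r r2085 (@Lb.d (nat_lit 361) (nat_lit 66) (nat_lit 394) (@Lb.t (@Lb.fp (nat_lit 9) t981)))))))))))
noncomputable def l35753 : Lb := (@Lb.d (nat_lit 2) (nat_lit 258) (nat_lit 130) (@Lb.g g8 (@Lb.g g9 (@Lb.g g10 (@Lb.g g11 (@Lb.r r610 (@Lb.r r612 (@Lb.r r359 (@Lb.r r1381 (@Lb.r r516 (@Lb.d (nat_lit 281) (nat_lit 2) (nat_lit 146) (@Lb.fm (nat_lit 9) t3055))))))))))))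
noncomputable def l35754 : Lb := (@Lb.d (nat_lit 128) (nat_lit 0) (nat_lit 130) (@Lb.g g10 (@Lb.g g11 (@Lb.r r85 (@Lb.r r2662 (@Lb.r r1412 (@Lb.r r2635 (@Lb.d (nat_lit 401) (nat_lit 34) (nat_lit 530) (@Lb.fp (nat_lit 3) t2637)))))))))
noncomputable def l35755 : Lb := (@Lb.d (nat_lit 0) (nat_lit 258) (nat_lit 130) (@Lb.g g8 (@Lb.g g9 (@Lb.g g10 (@Lb.g g11 (@Lb.r r610 (@Lb.r r612 (@Lb.r r359 (@Lb.r r1381 (@Lb.r r516 (@Lb.d (nat_lit 281) (nat_lit 9) (nat_lit 145) (@Lb.fm (nat_lit 9) t3227))))))))))))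
noncomputable def l35756 : Lb := (@Lb.d (nat_lit 0) (nat_lit 265) (nat_lit 129) (@Lb.g g8 (@Lb.g g9 (@Lb.g g10 (@Lb.g g11 (@Lb.r r610 (@Lb.r r612 (@Lb.r r359 (@Lb.r r1381 (@Lb.r r516 (@Lb.d (nat_lit 281) (nat_lit 2) (nat_lit 146) (@Lb.fm (nat_lit 9) t6328))))))))))))
noncomputable def l35757 : Lb := (@Lb.d (nat_lit 0) (nat_lit 514) (nat_lit 130) (@Lb.g g8 (@Lb.g g9 (@Lb.g g10 (@Lb.g g11 (@Lb.r r610 (@Lb.r r612 (@Lb.r r359 (@Lb.r r1381 (@Lb.r r516 (@Lb.d (nat_lit 282) (nat_lit 2) (nat_lit 146) (@Lb.fm (nat_lit 9) t3055))))))))))))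
noncomputable def l35758 : Lb := (@Lb.d (nat_lit 128) (nat_lit 512) (nat_lit 130) (@Lb.g g10 (@Lb.g g11 (@Lb.r r85 (@Lb.r r2662 (@Lb.r r1412 (@Lb.r r2635 (@Lb.d (nat_lit 402) (nat_lit 34) (nat_lit 530) (@Lb.fp (nat_lit 3) t2637)))))))))
noncomputable def l35759 : Lb := (@Lb.d (nat_lit 0) (nat_lit 521) (nat_lit 129) (@Lb.g g8 (@Lb.g g9 (@Lb.g g10 (@Lb.g g11 (@Lb.r r516 (@Lb.r r263 (@Lb.r r618 (@Lb.r r1625 (@Lb.r r516 (@Lb.d (nat_lit 292) (nat_lit 132) (nat_lit 145) (@Lb.fp (nat_lit 9) t267))))))))))))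
noncomputable def l35760 : Lb := (@Lb.d (nat_lit 1) (nat_lit 546) (nat_lit 66) (@Lb.g g8 (@Lb.g g9 (@Lb.g g10 (@Lb.g g11 (@Lb.r r665 (@Lb.r r2707 (@Lb.r r578 (@Lb.d (nat_lit 640) (nat_lit 133) (nat_lit 344) (@Lb.fm (nat_lit 9) t2854))))))))))
noncomputable def l35761 : Lb := (@Lb.d (nat_lit 8) (nat_lit 2) (nat_lit 130) (@Lb.g g9 (@Lb.g g10 (@Lb.g g11 (@Lb.r r614 (@Lb.r r408 (@Lb.r r615 (@Lb.r r1637 (@Lb.d (nat_lit 409) (nat_lit 18) (nat_lit 602) (@Lb.t (@Lb.fp (nat_lit 9) t3055)))))))))))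
noncomputable def l35762 : Lb := (@Lb.d (nat_lit 1) (nat_lit 296) (nat_lit 130) (@Lb.g g8 (@Lb.g g10 (@Lb.g g11 (@Lb.r r1313 (@Lb.r r2587 (@Lb.r r648 (@Lb.r r138 (@Lb.d (nat_lit 2) (nat_lit 66) (nat_lit 70) (@Lb.t (@Lb.fm (nat_lit 9) t382)))))))))))
noncomputable def l35763 : Lb := (@Lb.d (nat_lit 2) (nat_lit 265) (nat_lit 129) (@Lb.g g8 (@Lb.g g9 (@Lb.g g10 (@Lb.g g11 (@Lb.r r610 (@Lb.r r612 (@Lb.r r359 (@Lb.r r1381 (@Lb.r r516 (@Lb.d (nat_lit 281) (nat_lit 2) (nat_lit 18) (@Lb.fm (nat_lit 9) t6328))))))))))))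
noncomputable def l35764 : Lb := (@Lb.d (nat_lit 2) (nat_lit 514) (nat_lit 130) (@Lb.g g8 (@Lb.g g9 (@Lb.g g10 (@Lb.g g11 (@Lb.r r610 (@Lb.r r612 (@Lb.r r359 (@Lb.r r1381 (@Lb.r r516 (@Lb.d (nat_lit 282) (nat_lit 2) (nat_lit 18) (@Lb.fm (nat_lit 9) t3055))))))))))))
noncomputable def l35765 : Lb := (@Lb.d (nat_lit 405) (nat_lit 580) (nat_lit 102) (@Lb.r r2406 (@Lb.r r1704 (@Lb.r r2325 (@Lb.r r1371 (@Lb.g g7 (@Lb.g g6 (@Lb.g g4 (@Lb.d (nat_lit 2) (nat_lit 4) (nat_lit 8) (@Lb.t (@Lb.fm (nat_lit 9) t710)))))))))))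
noncomputable def l35766 : Lb := (@Lb.d (nat_lit 2) (nat_lit 321) (nat_lit 0) (@Lb.g g8 (@Lb.g g5 (@Lb.r r402 (@Lb.d (nat_lit 2) (nat_lit 128) (nat_lit 325) (@Lb.fm (nat_lit 3) t479))))))
noncomputable def l35767 : Lb := (@Lb.r r323 (@Lb.d (nat_lit 130) (nat_lit 521) (nat_lit 2) (@Lb.g g8 (@Lb.g g9 (@Lb.g g10 (@Lb.r r1699 (@Lb.r r1194 (@Lb.r r2201 (@Lb.r r408 (@Lb.d (nat_lit 81) (nat_lit 90) (nat_lit 330) (@Lb.t (@Lb.fp (nat_lit 9) t68))))))))))))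
noncomputable def l35768 : Lb := (@Lb.d (nat_lit 0) (nat_lit 650) (nat_lit 258) (@Lb.r r289 (@Lb.r r535 (@Lb.r r356 (@Lb.r r154 (@Lb.g g8 (@Lb.t (@Lb.fm (nat_lit 3) t427))))))))
noncomputable def l35769 : Lb := (@Lb.r r70 (@Lb.r r263 (@Lb.d (nat_lit 6) (nat_lit 517) (nat_lit 0) (@Lb.g g8 (@Lb.g g5 (@Lb.r r2403 (@Lb.r r1110 (@Lb.r r136 (@Lb.d (nat_lit 32) (nat_lit 1) (nat_lit 34) (@Lb.fm (nat_lit 3) t58))))))))))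
noncomputable def l35770 : Lb := (@Lb.d (nat_lit 1) (nat_lit 522) (nat_lit 128) (@Lb.g g4 (@Lb.g g9 (@Lb.g g11 (@Lb.r r2450 (@Lb.r r2387 (@Lb.r r1689 (@Lb.d (nat_lit 580) (nat_lit 98) (nat_lit 552) (@Lb.t (@Lb.fm (nat_lit 9) t714))))))))))
noncomputable def l35771 : Lb := (@Lb.r r1045 (@Lb.d (nat_lit 129) (nat_lit 544) (nat_lit 130) (@Lb.g g8 (@Lb.g g10 (@Lb.g g11 (@Lb.r r2650 (@Lb.r r2628 (@Lb.d (nat_lit 152) (nat_lit 132) (nat_lit 550) (@Lb.t (@Lb.fm (nat_lit 9) t6329))))))))))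
noncomputable def l35772 : Lb := (@Lb.r r70 (@Lb.r r263 (@Lb.d (nat_lit 0) (nat_lit 322) (nat_lit 0) (@Lb.g g8 (@Lb.g g9 (@Lb.r r2347 (@Lb.r r2442 (@Lb.r r1444 (@Lb.d (nat_lit 1) (nat_lit 102) (nat_lit 544) (@Lb.fp (nat_lit 3) t6330))))))))))
noncomputable def l35773 : Lb := (@Lb.d (nat_lit 32) (nat_lit 324) (nat_lit 32) (@Lb.r r533 (@Lb.r r1619 (@Lb.r r1414 (@Lb.r r1096 (@Lb.g g11 (@Lb.t (@Lb.fm (nat_lit 3) t2238))))))))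
noncomputable def l35774 : Lb := (@Lb.d (nat_lit 132) (nat_lit 514) (nat_lit 130) (@Lb.g g8 (@Lb.g g9 (@Lb.g g10 (@Lb.g g11 (@Lb.r r1707 (@Lb.r r1610 (@Lb.r r552 (@Lb.r r2089 (@Lb.r r1060 (@Lb.d (nat_lit 104) (nat_lit 168) (nat_lit 273) (@Lb.fm (nat_lit 9) t98))))))))))))
noncomputable def l35775 : Lb := (@Lb.d (nat_lit 576) (nat_lit 128) (nat_lit 100) (@Lb.r r2632 (@Lb.r r2454 (@Lb.r r1547 (@Lb.g g7 (@Lb.g g5 (@Lb.g g4 (@Lb.d (nat_lit 66) (nat_lit 0) (nat_lit 128) (@Lb.r r74 (@Lb.t (@Lb.fm (nat_lit 9) t6331)))))))))))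
noncomputable def l35776 : Lb := (@Lb.r r21 (@Lb.d (nat_lit 144) (nat_lit 0) (nat_lit 128) (@Lb.g g8 (@Lb.g g10 (@Lb.g g11 (@Lb.r r1355 (@Lb.r r402 (@Lb.r r97 (@Lb.r r532 (@Lb.d (nat_lit 409) (nat_lit 97) (nat_lit 160) (@Lb.t (@Lb.fm (nat_lit 9) t6332))))))))))))
noncomputable def l35777 : Lb := (@Lb.d (nat_lit 32) (nat_lit 278) (nat_lit 666) (@Lb.r r24 (@Lb.r r665 (@Lb.r r2410 (@Lb.g g11 (@Lb.g g6 (@Lb.g g5 (@Lb.g g4 (@Lb.d (nat_lit 0) (nat_lit 42) (nat_lit 389) (@Lb.fp (nat_lit 9) t1792))))))))))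
noncomputable def l35778 : Lb := (@Lb.d (nat_lit 128) (nat_lit 520) (nat_lit 2) (@Lb.g g8 (@Lb.g g10 (@Lb.r r263 (@Lb.r r2712 (@Lb.r r101 (@Lb.r r154 (@Lb.d (nat_lit 5) (nat_lit 88) (nat_lit 289) (@Lb.fp (nat_lit 3) t127)))))))))
noncomputable def l35779 : Lb := (@Lb.r r21 (@Lb.d (nat_lit 408) (nat_lit 512) (nat_lit 0) (@Lb.g g8 (@Lb.g g10 (@Lb.r r1319 (@Lb.r r101 (@Lb.r r2450 (@Lb.d (nat_lit 4) (nat_lit 25) (nat_lit 610) (@Lb.fm (nat_lit 3) t6333)))))))))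
noncomputable def l35780 : Lb := (@Lb.d (nat_lit 0) (nat_lit 34) (nat_lit 2) (@Lb.g g8 (@Lb.g g9 (@Lb.g g10 (@Lb.r r2647 (@Lb.r r386 (@Lb.r r1096 (@Lb.d (nat_lit 354) (nat_lit 2) (nat_lit 297) (@Lb.t (@Lb.fp (nat_lit 9) t288))))))))))
noncomputable def l35781 : Lb := (@Lb.d (nat_lit 0) (nat_lit 522) (nat_lit 0) (@Lb.g g8 (@Lb.g g5 (@Lb.r r2210 (@Lb.r r1185 (@Lb.d (nat_lit 0) (nat_lit 68) (nat_lit 1) (@Lb.fp (nat_lit 3) t970)))))))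
noncomputable def l35782 : Lb := (@Lb.d (nat_lit 0) (nat_lit 258) (nat_lit 0) (@Lb.g g8 (@Lb.g g9 (@Lb.r r25 (@Lb.d (nat_lit 4) (nat_lit 9) (nat_lit 2) (@Lb.fm (nat_lit 3) t21))))))
noncomputable def l35783 : Lb := (@Lb.d (nat_lit 0) (nat_lit 2) (nat_lit 0) (@Lb.g g8 (@Lb.g g9 (@Lb.r r1122 (@Lb.r r97 (@Lb.d (nat_lit 0) (nat_lit 68) (nat_lit 34) (@Lb.fp (nat_lit 3) t1076)))))))
noncomputable def l35784 : Lb := (@Lb.r r289 (@Lb.r r420 (@Lb.r r603 (@Lb.r r390 (@Lb.r r516 (@Lb.d (nat_lit 0) (nat_lit 256) (nat_lit 149) (@Lb.fm (nat_lit 1) t40)))))))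
noncomputable def l35785 : Lb := (@Lb.d (nat_lit 0) (nat_lit 513) (nat_lit 130) (@Lb.g g8 (@Lb.g g9 (@Lb.g g10 (@Lb.g g11 (@Lb.r r618 (@Lb.r r105 (@Lb.r r612 (@Lb.r r1287 (@Lb.r r2564 (@Lb.d (nat_lit 5) (nat_lit 24) (nat_lit 642) (@Lb.fm (nat_lit 9) t71))))))))))))
noncomputable def l35786 : Lb := (@Lb.r r21 (@Lb.d (nat_lit 6) (nat_lit 0) (nat_lit 2) (@Lb.g g8 (@Lb.g g10 (@Lb.r r2666 (@Lb.r r579 (@Lb.r r25 (@Lb.d (nat_lit 9) (nat_lit 160) (nat_lit 586) (@Lb.fp (nat_lit 3) t51)))))))))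
noncomputable def l35787 : Lb := (@Lb.d (nat_lit 144) (nat_lit 514) (nat_lit 128) (@Lb.g g8 (@Lb.g g9 (@Lb.g g10 (@Lb.g g11 (@Lb.r r2722 (@Lb.r r2439 (@Lb.r r145 (@Lb.r r2632 (@Lb.d (nat_lit 617) (nat_lit 130) (nat_lit 426) (@Lb.fp (nat_lit 9) t472)))))))))))
noncomputable def l35788 : Lb := (@Lb.d (nat_lit 528) (nat_lit 2) (nat_lit 64) (@Lb.g g8 (@Lb.g g9 (@Lb.g g11 (@Lb.r r665 (@Lb.r r275 (@Lb.r r2178 (@Lb.r r1553 (@Lb.d (nat_lit 609) (nat_lit 129) (nat_lit 266) (@Lb.t (@Lb.fp (nat_lit 9) t2551)))))))))))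
noncomputable def l35789 : Lb := (@Lb.r r21 (@Lb.d (nat_lit 128) (nat_lit 0) (nat_lit 130) (@Lb.g g8 (@Lb.g g10 (@Lb.g g11 (@Lb.r r419 (@Lb.r r2122 (@Lb.r r341 (@Lb.r r2148 (@Lb.d (nat_lit 324) (nat_lit 73) (nat_lit 530) (@Lb.t (@Lb.fm (nat_lit 9) t1039))))))))))))
noncomputable def l35790 : Lb := (@Lb.r r70 (@Lb.r r2311 (@Lb.d (nat_lit 5) (nat_lit 256) (nat_lit 0) (@Lb.g g8 (@Lb.g g9 (@Lb.r r1188 (@Lb.r r101 (@Lb.r r2450 (@Lb.d (nat_lit 96) (nat_lit 26) (nat_lit 544) (@Lb.fm (nat_lit 3) t6334))))))))))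
noncomputable def l35791 : Lb := (@Lb.d (nat_lit 0) (nat_lit 4) (nat_lit 64) (@Lb.g g9 (@Lb.g g10 (@Lb.g g7 (@Lb.r r386 (@Lb.r r97 (@Lb.d (nat_lit 325) (nat_lit 10) (nat_lit 521) (@Lb.t (@Lb.fp (nat_lit 9) t6335)))))))))
noncomputable def l35792 : Lb := (@Lb.d (nat_lit 4) (nat_lit 0) (nat_lit 128) (@Lb.g g8 (@Lb.g g9 (@Lb.g g10 (@Lb.g g11 (@Lb.r r548 (@Lb.r r295 (@Lb.r r2650 (@Lb.r r405 (@Lb.r r2084 (@Lb.d (nat_lit 96) (nat_lit 137) (nat_lit 649) (@Lb.fp (nat_lit 9) t2982))))))))))))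
noncomputable def l35793 : Lb := (@Lb.r r2311 (@Lb.r r402 (@Lb.r r101 (@Lb.d (nat_lit 389) (nat_lit 145) (nat_lit 0) (@Lb.fp (nat_lit 1) t6336)))))
noncomputable def l35794 : Lb := (@Lb.d (nat_lit 130) (nat_lit 512) (nat_lit 145) (@Lb.r r1434 (@Lb.r r101 (@Lb.r r2311 (@Lb.g g11 (@Lb.t (@Lb.fp (nat_lit 3) t6337)))))))
noncomputable def l35795 : Lb := (@Lb.d (nat_lit 0) (nat_lit 5) (nat_lit 64) (@Lb.g g9 (@Lb.g g10 (@Lb.g g7 (@Lb.r r2470 (@Lb.r r2404 (@Lb.r r2325 (@Lb.d (nat_lit 582) (nat_lit 144) (nat_lit 84) (@Lb.t (@Lb.fm (nat_lit 9) t6338))))))))))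
noncomputable def l35796 : Lb := (@Lb.d (nat_lit 0) (nat_lit 0) (nat_lit 2) (@Lb.g g10 (@Lb.r r533 (@Lb.r r2711 (@Lb.r r578 (@Lb.r r1096 (@Lb.d (nat_lit 17) (nat_lit 0) (nat_lit 417) (@Lb.t (@Lb.fp (nat_lit 3) t1024)))))))))
noncomputable def l35797 : Lb := (@Lb.d (nat_lit 0) (nat_lit 8) (nat_lit 128) (@Lb.g g8 (@Lb.g g10 (@Lb.g g11 (@Lb.r r81 (@Lb.r r1446 (@Lb.r r1611 (@Lb.r r1608 (@Lb.d (nat_lit 97) (nat_lit 80) (nat_lit 674) (@Lb.t (@Lb.fp (nat_lit 9) t282)))))))))))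
noncomputable def l35798 : Lb := (@Lb.d (nat_lit 2) (nat_lit 609) (nat_lit 130) (@Lb.g g8 (@Lb.g g5 (@Lb.g g10 (@Lb.g g11 (@Lb.r r2587 (@Lb.r r386 (@Lb.r r24 (@Lb.d (nat_lit 136) (nat_lit 0) (nat_lit 346) (@Lb.fp (nat_lit 9) t68))))))))))
noncomputable def l35799 : Lb := (@Lb.d (nat_lit 2) (nat_lit 256) (nat_lit 64) (@Lb.g g8 (@Lb.g g7 (@Lb.r r2122 (@Lb.r r2073 (@Lb.d (nat_lit 129) (nat_lit 0) (nat_lit 581) (@Lb.fp (nat_lit 3) t1898)))))))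
noncomputable def l35800 : Lb := (@Lb.r r21 (@Lb.d (nat_lit 0) (nat_lit 520) (nat_lit 130) (@Lb.g g8 (@Lb.g g10 (@Lb.g g11 (@Lb.r r2443 (@Lb.r r2345 (@Lb.r r2468 (@Lb.r r390 (@Lb.d (nat_lit 105) (nat_lit 130) (nat_lit 74) (@Lb.t (@Lb.fm (nat_lit 9) t119))))))))))))
noncomputable def l35801 : Lb := (@Lb.d (nat_lit 2) (nat_lit 256) (nat_lit 5) (@Lb.g g8 (@Lb.g g9 (@Lb.g g10 (@Lb.g g11 (@Lb.r r683 (@Lb.r r2722 (@Lb.r r36 (@Lb.r r149 (@Lb.r r36 (@Lb.d (nat_lit 353) (nat_lit 137) (nat_lit 513) (@Lb.fp (nat_lit 9) t5975))))))))))))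
noncomputable def l35802 : Lb := (@Lb.d (nat_lit 2) (nat_lit 548) (nat_lit 128) (@Lb.g g8 (@Lb.g g9 (@Lb.g g10 (@Lb.g g11 (@Lb.r r682 (@Lb.r r387 (@Lb.r r1177 (@Lb.d (nat_lit 537) (nat_lit 149) (nat_lit 409) (@Lb.fm (nat_lit 9) t1370))))))))))
noncomputable def l35803 : Lb := (@Lb.d (nat_lit 2) (nat_lit 512) (nat_lit 66) (@Lb.g g8 (@Lb.g g9 (@Lb.g g10 (@Lb.g g7 (@Lb.r r386 (@Lb.r r2073 (@Lb.d (nat_lit 265) (nat_lit 9) (nat_lit 25) (@Lb.fp (nat_lit 9) t21)))))))))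
noncomputable def l35804 : Lb := (@Lb.r r86 (@Lb.d (nat_lit 134) (nat_lit 546) (nat_lit 64) (@Lb.g g8 (@Lb.g g9 (@Lb.g g11 (@Lb.r r2731 (@Lb.r r2626 (@Lb.r r1188 (@Lb.r r37 (@Lb.d (nat_lit 9) (nat_lit 73) (nat_lit 68) (@Lb.t (@Lb.fm (nat_lit 9) t4119))))))))))))
noncomputable def l35805 : Lb := (@Lb.r r322 (@Lb.d (nat_lit 9) (nat_lit 513) (nat_lit 576) (@Lb.g g8 (@Lb.g g9 (@Lb.g g7 (@Lb.r r2409 (@Lb.r r146 (@Lb.r r2436 (@Lb.d (nat_lit 613) (nat_lit 1) (nat_lit 322) (@Lb.t (@Lb.fp (nat_lit 9) t1831)))))))))))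
noncomputable def l35806 : Lb := (@Lb.d (nat_lit 9) (nat_lit 0) (nat_lit 69) (@Lb.g g8 (@Lb.g g6 (@Lb.g g11 (@Lb.r r1429 (@Lb.r r2723 (@Lb.r r2436 (@Lb.d (nat_lit 610) (nat_lit 90) (nat_lit 661) (@Lb.t (@Lb.fm (nat_lit 9) t2938))))))))))
noncomputable def l35807 : Lb := (@Lb.d (nat_lit 129) (nat_lit 258) (nat_lit 130) (@Lb.g g8 (@Lb.g g9 (@Lb.g g10 (@Lb.g g11 (@Lb.r r419 (@Lb.r r386 (@Lb.r r40 (@Lb.r r1129 (@Lb.r r2084 (@Lb.d (nat_lit 9) (nat_lit 74) (nat_lit 680) (@Lb.fm (nat_lit 9) t2420))))))))))))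
noncomputable def l35808 : Lb := (@Lb.d (nat_lit 9) (nat_lit 257) (nat_lit 4) (@Lb.g g8 (@Lb.g g9 (@Lb.g g10 (@Lb.g g11 (@Lb.r r1367 (@Lb.r r1366 (@Lb.r r97 (@Lb.r r24 (@Lb.d (nat_lit 153) (nat_lit 9) (nat_lit 418) (@Lb.fp (nat_lit 9) t592)))))))))))
noncomputable def l35809 : Lb := (@Lb.r r21 (@Lb.d (nat_lit 161) (nat_lit 512) (nat_lit 128) (@Lb.g g8 (@Lb.g g11 (@Lb.r r1430 (@Lb.r r363 (@Lb.r r2408 (@Lb.r r25 (@Lb.d (nat_lit 36) (nat_lit 106) (nat_lit 662) (@Lb.fm (nat_lit 3) t2015))))))))))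
noncomputable def l35810 : Lb := (@Lb.r r82 (@Lb.d (nat_lit 34) (nat_lit 514) (nat_lit 136) (@Lb.g g8 (@Lb.g g9 (@Lb.g g11 (@Lb.r r1362 (@Lb.r r2645 (@Lb.r r356 (@Lb.r r395 (@Lb.d (nat_lit 550) (nat_lit 32) (nat_lit 680) (@Lb.t (@Lb.fm (nat_lit 9) t2545))))))))))))
noncomputable def l35811 : Lb := (@Lb.d (nat_lit 9) (nat_lit 576) (nat_lit 512) (@Lb.r r1608 (@Lb.r r619 (@Lb.r r2390 (@Lb.g g7 (@Lb.g g5 (@Lb.d (nat_lit 0) (nat_lit 81) (nat_lit 128) (@Lb.r r36 (@Lb.fm (nat_lit 3) t4226)))))))))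
noncomputable def l35812 : Lb := (@Lb.d (nat_lit 134) (nat_lit 129) (nat_lit 258) (@Lb.r r283 (@Lb.r r1617 (@Lb.r r1126 (@Lb.g g7 (@Lb.g g4 (@Lb.d (nat_lit 612) (nat_lit 16) (nat_lit 64) (@Lb.r r25 (@Lb.fm (nat_lit 3) t6339)))))))))
noncomputable def l35813 : Lb := (@Lb.r r331 (@Lb.d (nat_lit 37) (nat_lit 0) (nat_lit 4) (@Lb.g g8 (@Lb.g g9 (@Lb.g g6 (@Lb.r r2635 (@Lb.r r2337 (@Lb.r r1636 (@Lb.d (nat_lit 166) (nat_lit 148) (nat_lit 682) (@Lb.t (@Lb.fp (nat_lit 9) t5179)))))))))))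
noncomputable def l35814 : Lb := (@Lb.r r532 (@Lb.r r82 (@Lb.d (nat_lit 128) (nat_lit 354) (nat_lit 320) (@Lb.g g9 (@Lb.g g11 (@Lb.r r1112 (@Lb.r r2438 (@Lb.d (nat_lit 5) (nat_lit 26) (nat_lit 544) (@Lb.fm (nat_lit 3) t3511)))))))))
noncomputable def l35815 : Lb := (@Lb.d (nat_lit 1) (nat_lit 514) (nat_lit 130) (@Lb.g g8 (@Lb.g g9 (@Lb.g g10 (@Lb.g g11 (@Lb.r r1426 (@Lb.r r1371 (@Lb.r r2457 (@Lb.r r2436 (@Lb.d (nat_lit 664) (nat_lit 6) (nat_lit 392) (@Lb.fm (nat_lit 9) t2103)))))))))))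
noncomputable def l35816 : Lb := (@Lb.d (nat_lit 6) (nat_lit 288) (nat_lit 2) (@Lb.g g8 (@Lb.g g9 (@Lb.g g10 (@Lb.r r2472 (@Lb.r r1623 (@Lb.r r1386 (@Lb.r r2137 (@Lb.d (nat_lit 362) (nat_lit 37) (nat_lit 105) (@Lb.t (@Lb.fm (nat_lit 9) t6340)))))))))))
noncomputable def l35817 : Lb := (@Lb.d (nat_lit 129) (nat_lit 290) (nat_lit 0) (@Lb.g g8 (@Lb.g g9 (@Lb.r r1418 (@Lb.r r583 (@Lb.r r408 (@Lb.r r2085 (@Lb.d (nat_lit 330) (nat_lit 84) (nat_lit 277) (@Lb.fm (nat_lit 3) t643)))))))))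
noncomputable def l35818 : Lb := (@Lb.r r323 (@Lb.d (nat_lit 32) (nat_lit 288) (nat_lit 2) (@Lb.g g9 (@Lb.g g10 (@Lb.r r603 (@Lb.r r1313 (@Lb.r r1096 (@Lb.d (nat_lit 618) (nat_lit 161) (nat_lit 17) (@Lb.fp (nat_lit 3) t1155)))))))))
noncomputable def l35819 : Lb := (@Lb.r r331 (@Lb.d (nat_lit 36) (nat_lit 544) (nat_lit 2) (@Lb.g g8 (@Lb.g g9 (@Lb.g g10 (@Lb.r r595 (@Lb.r r1313 (@Lb.r r2708 (@Lb.d (nat_lit 405) (nat_lit 20) (nat_lit 680) (@Lb.t (@Lb.fm (nat_lit 9) t4616)))))))))))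
noncomputable def l35820 : Lb := (@Lb.d (nat_lit 6) (nat_lit 0) (nat_lit 72) (@Lb.g g8 (@Lb.g g9 (@Lb.g g11 (@Lb.r r1410 (@Lb.r r579 (@Lb.r r104 (@Lb.r r25 (@Lb.d (nat_lit 34) (nat_lit 10) (nat_lit 0) (@Lb.t (@Lb.fp (nat_lit 9) t40)))))))))))
noncomputable def l35821 : Lb := (@Lb.d (nat_lit 326) (nat_lit 101) (nat_lit 69) (@Lb.r r2452 (@Lb.r r681 (@Lb.r r2371 (@Lb.g g10 (@Lb.g g5 (@Lb.g g4 (@Lb.d (nat_lit 18) (nat_lit 1) (nat_lit 34) (@Lb.r r391 (@Lb.t (@Lb.fp (nat_lit 9) t1954)))))))))))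
noncomputable def l35822 : Lb := (@Lb.r r609 (@Lb.r r548 (@Lb.r r295 (@Lb.r r390 (@Lb.r r516 (@Lb.d (nat_lit 512) (nat_lit 10) (nat_lit 100) (@Lb.fp (nat_lit 1) t40)))))))
noncomputable def l35823 : Lb := (@Lb.d (nat_lit 102) (nat_lit 66) (nat_lit 650) (@Lb.r r24 (@Lb.r r2145 (@Lb.r r579 (@Lb.r r2390 (@Lb.g g7 (@Lb.g g6 (@Lb.g g4 (@Lb.d (nat_lit 2) (nat_lit 0) (nat_lit 134) (@Lb.t (@Lb.fm (nat_lit 9) t4884)))))))))))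
noncomputable def l35824 : Lb := (@Lb.r r82 (@Lb.d (nat_lit 2) (nat_lit 33) (nat_lit 64) (@Lb.g g8 (@Lb.g g9 (@Lb.g g11 (@Lb.r r1543 (@Lb.r r1622 (@Lb.r r2345 (@Lb.r r24 (@Lb.d (nat_lit 262) (nat_lit 97) (nat_lit 133) (@Lb.t (@Lb.fp (nat_lit 9) t3339))))))))))))
noncomputable def l35825 : Lb := (@Lb.d (nat_lit 0) (nat_lit 4) (nat_lit 128) (@Lb.g g8 (@Lb.g g9 (@Lb.g g10 (@Lb.g g11 (@Lb.r r1419 (@Lb.r r340 (@Lb.r r170 (@Lb.r r2217 (@Lb.r r2212 (@Lb.d (nat_lit 521) (nat_lit 72) (nat_lit 153) (@Lb.fp (nat_lit 9) t6341))))))))))))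
noncomputable def l35826 : Lb := (@Lb.d (nat_lit 2) (nat_lit 322) (nat_lit 130) (@Lb.g g8 (@Lb.g g9 (@Lb.g g10 (@Lb.g g11 (@Lb.r r2475 (@Lb.r r2442 (@Lb.r r2436 (@Lb.d (nat_lit 656) (nat_lit 8) (nat_lit 393) (@Lb.fm (nat_lit 9) t6342))))))))))
noncomputable def l35827 : Lb := (@Lb.d (nat_lit 2) (nat_lit 260) (nat_lit 128) (@Lb.g g8 (@Lb.g g9 (@Lb.g g10 (@Lb.g g11 (@Lb.r r427 (@Lb.r r324 (@Lb.r r2218 (@Lb.r r1193 (@Lb.r r1188 (@Lb.d (nat_lit 609) (nat_lit 73) (nat_lit 681) (@Lb.fp (nat_lit 9) t803))))))))))))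
noncomputable def l35828 : Lb := (@Lb.d (nat_lit 2) (nat_lit 516) (nat_lit 128) (@Lb.g g8 (@Lb.g g9 (@Lb.g g10 (@Lb.g g11 (@Lb.r r427 (@Lb.r r388 (@Lb.r r70 (@Lb.r r153 (@Lb.r r132 (@Lb.d (nat_lit 10) (nat_lit 8) (nat_lit 153) (@Lb.fp (nat_lit 9) t390))))))))))))
noncomputable def l35829 : Lb := (@Lb.d (nat_lit 0) (nat_lit 5) (nat_lit 1) (@Lb.g g9 (@Lb.t (@Lb.fp (nat_lit 3) t291))))
noncomputable def l35830 : Lb := (@Lb.d (nat_lit 0) (nat_lit 0) (nat_lit 74) (@Lb.g g10 (@Lb.g g11 (@Lb.r r2341 (@Lb.r r539 (@Lb.r r2136 (@Lb.r r1158 (@Lb.d (nat_lit 608) (nat_lit 0) (nat_lit 25) (@Lb.fm (nat_lit 3) t2283)))))))))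
noncomputable def l35831 : Lb := (@Lb.r r81 (@Lb.g g10 (@Lb.g g7 (@Lb.r r1411 (@Lb.r r1637 (@Lb.r r2456 (@Lb.r r2378 (@Lb.d (nat_lit 98) (nat_lit 0) (nat_lit 154) (@Lb.fp (nat_lit 3) t635)))))))))
noncomputable def l35832 : Lb := (@Lb.d (nat_lit 2) (nat_lit 2) (nat_lit 73) (@Lb.g g8 (@Lb.g g9 (@Lb.g g10 (@Lb.g g11 (@Lb.r r427 (@Lb.r r1160 (@Lb.r r1610 (@Lb.r r1125 (@Lb.d (nat_lit 73) (nat_lit 97) (nat_lit 168) (@Lb.fp (nat_lit 9) t6343)))))))))))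
noncomputable def l35833 : Lb := (@Lb.g g7 (@Lb.r r2311 (@Lb.r r402 (@Lb.r r1172 (@Lb.r r2073 (@Lb.d (nat_lit 273) (nat_lit 129) (nat_lit 544) (@Lb.t (@Lb.fp (nat_lit 3) t1635))))))))
noncomputable def l35834 : Lb := (@Lb.d (nat_lit 138) (nat_lit 256) (nat_lit 64) (@Lb.g g8 (@Lb.g g11 (@Lb.r r2642 (@Lb.r r2453 (@Lb.r r619 (@Lb.r r1572 (@Lb.d (nat_lit 664) (nat_lit 6) (nat_lit 66) (@Lb.fp (nat_lit 3) t6344)))))))))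
noncomputable def l35835 : Lb := (@Lb.d (nat_lit 0) (nat_lit 128) (nat_lit 586) (@Lb.r r2341 (@Lb.r r1624 (@Lb.r r2438 (@Lb.g g11 (@Lb.t (@Lb.fm (nat_lit 3) t2409)))))))
noncomputable def l35836 : Lb := (@Lb.d (nat_lit 389) (nat_lit 138) (nat_lit 257) (@Lb.r r2201 (@Lb.r r678 (@Lb.r r411 (@Lb.r r1304 (@Lb.g g7 (@Lb.g g6 (@Lb.g g5 (@Lb.d (nat_lit 4) (nat_lit 5) (nat_lit 129) (@Lb.t (@Lb.fp (nat_lit 9) t6345)))))))))))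
noncomputable def l35837 : Lb := (@Lb.r r323 (@Lb.d (nat_lit 0) (nat_lit 66) (nat_lit 2) (@Lb.g g8 (@Lb.g g9 (@Lb.g g10 (@Lb.r r427 (@Lb.r r2146 (@Lb.r r1416 (@Lb.d (nat_lit 272) (nat_lit 73) (nat_lit 2) (@Lb.t (@Lb.fp (nat_lit 9) t6346)))))))))))
noncomputable def l35838 : Lb := (@Lb.d (nat_lit 389) (nat_lit 266) (nat_lit 289) (@Lb.r r609 (@Lb.r r2726 (@Lb.r r363 (@Lb.r r328 (@Lb.g g7 (@Lb.g g6 (@Lb.d (nat_lit 16) (nat_lit 0) (nat_lit 128) (@Lb.fp (nat_lit 3) t3005)))))))))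
noncomputable def l35839 : Lb := (@Lb.r r402 (@Lb.r r101 (@Lb.r r2196 (@Lb.d (nat_lit 290) (nat_lit 512) (nat_lit 514) (@Lb.fp (nat_lit 1) t6347)))))
noncomputable def l35840 : Lb := (@Lb.r r81 (@Lb.d (nat_lit 32) (nat_lit 528) (nat_lit 576) (@Lb.g g10 (@Lb.g g11 (@Lb.r r1685 (@Lb.r r2408 (@Lb.r r1366 (@Lb.d (nat_lit 82) (nat_lit 38) (nat_lit 342) (@Lb.fp (nat_lit 3) t4069)))))))))
noncomputable def l35841 : Lb := (@Lb.d (nat_lit 0) (nat_lit 0) (nat_lit 73) (@Lb.g g10 (@Lb.g g11 (@Lb.r r2341 (@Lb.r r539 (@Lb.r r1624 (@Lb.r r2438 (@Lb.d (nat_lit 160) (nat_lit 0) (nat_lit 69) (@Lb.fm (nat_lit 3) t6348)))))))))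
noncomputable def l35842 : Lb := (@Lb.r r21 (@Lb.r r323 (@Lb.d (nat_lit 2) (nat_lit 512) (nat_lit 32) (@Lb.g g8 (@Lb.g g10 (@Lb.r r1668 (@Lb.r r2439 (@Lb.r r25 (@Lb.d (nat_lit 576) (nat_lit 0) (nat_lit 400) (@Lb.fm (nat_lit 3) t4181))))))))))
noncomputable def l35843 : Lb := (@Lb.d (nat_lit 8) (nat_lit 514) (nat_lit 130) (@Lb.g g9 (@Lb.g g10 (@Lb.g g11 (@Lb.r r419 (@Lb.r r386 (@Lb.r r1172 (@Lb.d (nat_lit 538) (nat_lit 164) (nat_lit 74) (@Lb.t (@Lb.fp (nat_lit 9) t4450))))))))))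
noncomputable def l35844 : Lb := (@Lb.r r21 (@Lb.d (nat_lit 146) (nat_lit 256) (nat_lit 128) (@Lb.g g8 (@Lb.g g10 (@Lb.g g11 (@Lb.r r387 (@Lb.r r132 (@Lb.r r2454 (@Lb.r r97 (@Lb.d (nat_lit 330) (nat_lit 169) (nat_lit 386) (@Lb.t (@Lb.fm (nat_lit 9) t1156))))))))))))
noncomputable def l35845 : Lb := (@Lb.r r21 (@Lb.r r70 (@Lb.d (nat_lit 2) (nat_lit 512) (nat_lit 0) (@Lb.g g8 (@Lb.g g11 (@Lb.r r586 (@Lb.r r537 (@Lb.r r516 (@Lb.d (nat_lit 0) (nat_lit 0) (nat_lit 128) (@Lb.fm (nat_lit 3) t329))))))))))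
noncomputable def l35846 : Lb := (@Lb.g g10 (@Lb.r r1427 (@Lb.r r101 (@Lb.r r24 (@Lb.d (nat_lit 529) (nat_lit 512) (nat_lit 0) (@Lb.t (@Lb.fp (nat_lit 3) t277)))))))
noncomputable def l35847 : Lb := (@Lb.d (nat_lit 353) (nat_lit 133) (nat_lit 598) (@Lb.r r1416 (@Lb.r r2178 (@Lb.r r1559 (@Lb.r r2457 (@Lb.g g4 (@Lb.d (nat_lit 70) (nat_lit 0) (nat_lit 0) (@Lb.t (@Lb.fp (nat_lit 3) t307)))))))))
noncomputable def l35848 : Lb := (@Lb.d (nat_lit 8) (nat_lit 258) (nat_lit 130) (@Lb.g g8 (@Lb.g g9 (@Lb.g g10 (@Lb.g g11 (@Lb.r r170 (@Lb.r r392 (@Lb.r r295 (@Lb.r r289 (@Lb.r r36 (@Lb.d (nat_lit 2) (nat_lit 36) (nat_lit 65) (@Lb.fm (nat_lit 9) t242))))))))))))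
noncomputable def l35849 : Lb := (@Lb.r r293 (@Lb.r r1363 (@Lb.r r2178 (@Lb.r r529 (@Lb.r r2564 (@Lb.d (nat_lit 512) (nat_lit 256) (nat_lit 16) (@Lb.fp (nat_lit 1) t307)))))))
noncomputable def l35850 : Lb := (@Lb.d (nat_lit 129) (nat_lit 277) (nat_lit 0) (@Lb.g g8 (@Lb.g g9 (@Lb.g g10 (@Lb.g g11 (@Lb.r r1579 (@Lb.r r386 (@Lb.r r1561 (@Lb.r r1156 (@Lb.d (nat_lit 345) (nat_lit 101) (nat_lit 153) (@Lb.fp (nat_lit 9) t6349)))))))))))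
noncomputable def l35851 : Lb := (@Lb.d (nat_lit 32) (nat_lit 516) (nat_lit 8) (@Lb.g g9 (@Lb.g g10 (@Lb.r r331 (@Lb.r r324 (@Lb.r r138 (@Lb.r r97 (@Lb.d (nat_lit 16) (nat_lit 22) (nat_lit 10) (@Lb.fm (nat_lit 3) t546)))))))))
noncomputable def l35852 : Lb := (@Lb.d (nat_lit 129) (nat_lit 533) (nat_lit 0) (@Lb.g g8 (@Lb.g g9 (@Lb.g g10 (@Lb.g g11 (@Lb.r r1579 (@Lb.r r386 (@Lb.r r1561 (@Lb.r r1156 (@Lb.d (nat_lit 345) (nat_lit 101) (nat_lit 84) (@Lb.fp (nat_lit 9) t6350)))))))))))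
noncomputable def l35853 : Lb := (@Lb.d (nat_lit 32) (nat_lit 133) (nat_lit 656) (@Lb.r r1416 (@Lb.r r1559 (@Lb.r r345 (@Lb.g g6 (@Lb.g g4 (@Lb.d (nat_lit 64) (nat_lit 0) (nat_lit 34) (@Lb.fm (nat_lit 3) t6351))))))))
noncomputable def l35854 : Lb := (@Lb.d (nat_lit 40) (nat_lit 4) (nat_lit 130) (@Lb.g g9 (@Lb.g g6 (@Lb.g g11 (@Lb.r r404 (@Lb.r r299 (@Lb.r r289 (@Lb.d (nat_lit 8) (nat_lit 8) (nat_lit 138) (@Lb.t (@Lb.fm (nat_lit 9) t597))))))))))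
noncomputable def l35855 : Lb := (@Lb.d (nat_lit 276) (nat_lit 81) (nat_lit 614) (@Lb.r r2213 (@Lb.r r614 (@Lb.r r2472 (@Lb.r r347 (@Lb.g g7 (@Lb.g g6 (@Lb.g g5 (@Lb.d (nat_lit 4) (nat_lit 0) (nat_lit 65) (@Lb.t (@Lb.fp (nat_lit 9) t6352)))))))))))
noncomputable def l35856 : Lb := (@Lb.d (nat_lit 0) (nat_lit 516) (nat_lit 1) (@Lb.g g6 (@Lb.r r101 (@Lb.d (nat_lit 646) (nat_lit 80) (nat_lit 513) (@Lb.t (@Lb.fp (nat_lit 3) t983))))))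
noncomputable def l35857 : Lb := (@Lb.d (nat_lit 0) (nat_lit 516) (nat_lit 1) (@Lb.g g9 (@Lb.g g6 (@Lb.r r2657 (@Lb.d (nat_lit 5) (nat_lit 90) (nat_lit 128) (@Lb.fm (nat_lit 3) t607))))))
noncomputable def l35858 : Lb := (@Lb.d (nat_lit 0) (nat_lit 260) (nat_lit 1) (@Lb.g g6 (@Lb.r r101 (@Lb.d (nat_lit 648) (nat_lit 81) (nat_lit 513) (@Lb.t (@Lb.fp (nat_lit 3) t983))))))
noncomputable def l35859 : Lb := (@Lb.d (nat_lit 614) (nat_lit 594) (nat_lit 518) (@Lb.r r1604 (@Lb.r r1621 (@Lb.r r682 (@Lb.g g11 (@Lb.g g6 (@Lb.g g5 (@Lb.g g4 (@Lb.d (nat_lit 1) (nat_lit 1) (nat_lit 72) (@Lb.fp (nat_lit 9) t573))))))))))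
noncomputable def l35860 : Lb := (@Lb.d (nat_lit 10) (nat_lit 520) (nat_lit 74) (@Lb.g g8 (@Lb.g g10 (@Lb.g g11 (@Lb.r r1361 (@Lb.r r2471 (@Lb.r r1604 (@Lb.r r2186 (@Lb.d (nat_lit 520) (nat_lit 128) (nat_lit 4) (@Lb.t (@Lb.fp (nat_lit 9) t127)))))))))))
noncomputable def l35861 : Lb := (@Lb.d (nat_lit 8) (nat_lit 260) (nat_lit 128) (@Lb.g g9 (@Lb.g g10 (@Lb.g g11 (@Lb.r r1130 (@Lb.r r24 (@Lb.r r1685 (@Lb.r r1427 (@Lb.d (nat_lit 548) (nat_lit 154) (nat_lit 601) (@Lb.t (@Lb.fp (nat_lit 9) t4338)))))))))))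
noncomputable def l35862 : Lb := (@Lb.d (nat_lit 1) (nat_lit 258) (nat_lit 2) (@Lb.g g8 (@Lb.g g9 (@Lb.g g10 (@Lb.r r2411 (@Lb.r r386 (@Lb.r r97 (@Lb.r r24 (@Lb.d (nat_lit 264) (nat_lit 72) (nat_lit 100) (@Lb.t (@Lb.fp (nat_lit 9) t741)))))))))))
noncomputable def l35863 : Lb := (@Lb.d (nat_lit 405) (nat_lit 25) (nat_lit 129) (@Lb.r r405 (@Lb.r r2454 (@Lb.r r1124 (@Lb.g g11 (@Lb.g g5 (@Lb.d (nat_lit 68) (nat_lit 6) (nat_lit 512) (@Lb.fm (nat_lit 3) t322))))))))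
noncomputable def l35864 : Lb := (@Lb.d (nat_lit 0) (nat_lit 36) (nat_lit 10) (@Lb.g g9 (@Lb.g g10 (@Lb.g g11 (@Lb.r r2663 (@Lb.r r578 (@Lb.r r1112 (@Lb.r r2085 (@Lb.d (nat_lit 408) (nat_lit 66) (nat_lit 85) (@Lb.t (@Lb.fp (nat_lit 9) t750)))))))))))
noncomputable def l35865 : Lb := (@Lb.d (nat_lit 1) (nat_lit 36) (nat_lit 10) (@Lb.g g8 (@Lb.g g9 (@Lb.g g10 (@Lb.g g11 (@Lb.r r2667 (@Lb.r r578 (@Lb.r r2212 (@Lb.r r2085 (@Lb.d (nat_lit 408) (nat_lit 73) (nat_lit 84) (@Lb.fp (nat_lit 9) t750)))))))))))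
noncomputable def l35866 : Lb := (@Lb.d (nat_lit 292) (nat_lit 554) (nat_lit 518) (@Lb.r r677 (@Lb.r r2371 (@Lb.g g10 (@Lb.g g5 (@Lb.g g8 (@Lb.d (nat_lit 9) (nat_lit 9) (nat_lit 2) (@Lb.r r291 (@Lb.t (@Lb.fm (nat_lit 9) t6353))))))))))
noncomputable def l35867 : Lb := (@Lb.r r82 (@Lb.d (nat_lit 2) (nat_lit 33) (nat_lit 64) (@Lb.g g8 (@Lb.g g9 (@Lb.g g11 (@Lb.r r275 (@Lb.r r354 (@Lb.r r273 (@Lb.d (nat_lit 2) (nat_lit 162) (nat_lit 0) (@Lb.t (@Lb.fm (nat_lit 9) t144)))))))))))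
noncomputable def l35868 : Lb := (@Lb.r r82 (@Lb.r r275 (@Lb.d (nat_lit 2) (nat_lit 257) (nat_lit 0) (@Lb.g g8 (@Lb.g g5 (@Lb.r r291 (@Lb.r r98 (@Lb.d (nat_lit 2) (nat_lit 128) (nat_lit 64) (@Lb.fp (nat_lit 3) t1440)))))))))
noncomputable def l35869 : Lb := (@Lb.d (nat_lit 134) (nat_lit 290) (nat_lit 66) (@Lb.g g8 (@Lb.g g9 (@Lb.g g10 (@Lb.g g11 (@Lb.r r2666 (@Lb.r r612 (@Lb.r r1319 (@Lb.r r2069 (@Lb.r r2084 (@Lb.d (nat_lit 264) (nat_lit 97) (nat_lit 426) (@Lb.fp (nat_lit 9) t6354))))))))))))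
noncomputable def l35870 : Lb := (@Lb.d (nat_lit 272) (nat_lit 22) (nat_lit 338) (@Lb.r r289 (@Lb.r r70 (@Lb.r r599 (@Lb.g g6 (@Lb.g g5 (@Lb.g g4 (@Lb.d (nat_lit 1) (nat_lit 17) (nat_lit 1) (@Lb.r r387 (@Lb.t (@Lb.fp (nat_lit 9) t1809)))))))))))
noncomputable def l35871 : Lb := (@Lb.d (nat_lit 388) (nat_lit 522) (nat_lit 384) (@Lb.r r597 (@Lb.r r2311 (@Lb.r r1604 (@Lb.r r2410 (@Lb.g g11 (@Lb.g g10 (@Lb.fm (nat_lit 3) t6355))))))))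
noncomputable def l35872 : Lb := (@Lb.d (nat_lit 1) (nat_lit 512) (nat_lit 0) (@Lb.g g8 (@Lb.g g5 (@Lb.r r402 (@Lb.d (nat_lit 2) (nat_lit 128) (nat_lit 325) (@Lb.fm (nat_lit 3) t479))))))
noncomputable def l35873 : Lb := (@Lb.d (nat_lit 25) (nat_lit 521) (nat_lit 576) (@Lb.r r597 (@Lb.r r2567 (@Lb.r r1348 (@Lb.r r2698 (@Lb.g g7 (@Lb.g g6 (@Lb.d (nat_lit 0) (nat_lit 0) (nat_lit 129) (@Lb.fm (nat_lit 3) t3718)))))))))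
noncomputable def l35874 : Lb := (@Lb.d (nat_lit 336) (nat_lit 522) (nat_lit 384) (@Lb.r r597 (@Lb.r r2567 (@Lb.r r1348 (@Lb.r r2698 (@Lb.g g7 (@Lb.g g6 (@Lb.d (nat_lit 0) (nat_lit 0) (nat_lit 65) (@Lb.fm (nat_lit 3) t3158)))))))))
noncomputable def l35875 : Lb := (@Lb.d (nat_lit 8) (nat_lit 32) (nat_lit 128) (@Lb.g g8 (@Lb.g g11 (@Lb.r r2069 (@Lb.r r1320 (@Lb.r r2567 (@Lb.r r2178 (@Lb.d (nat_lit 153) (nat_lit 89) (nat_lit 352) (@Lb.fp (nat_lit 3) t6356)))))))))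
noncomputable def l35876 : Lb := (@Lb.d (nat_lit 0) (nat_lit 265) (nat_lit 8) (@Lb.g g8 (@Lb.g g9 (@Lb.g g11 (@Lb.r r106 (@Lb.r r616 (@Lb.r r2587 (@Lb.r r1313 (@Lb.d (nat_lit 5) (nat_lit 137) (nat_lit 642) (@Lb.t (@Lb.fp (nat_lit 9) t71)))))))))))
noncomputable def l35877 : Lb := (@Lb.d (nat_lit 0) (nat_lit 513) (nat_lit 64) (@Lb.g g8 (@Lb.g g9 (@Lb.g g10 (@Lb.g g7 (@Lb.r r418 (@Lb.r r1169 (@Lb.r r2120 (@Lb.d (nat_lit 608) (nat_lit 169) (nat_lit 273) (@Lb.fm (nat_lit 9) t3206))))))))))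
noncomputable def l35878 : Lb := (@Lb.r r21 (@Lb.d (nat_lit 16) (nat_lit 512) (nat_lit 0) (@Lb.g g8 (@Lb.g g10 (@Lb.g g11 (@Lb.r r1684 (@Lb.r r1687 (@Lb.r r1602 (@Lb.r r25 (@Lb.d (nat_lit 10) (nat_lit 153) (nat_lit 409) (@Lb.t (@Lb.fp (nat_lit 9) t898))))))))))))
noncomputable def l35879 : Lb := (@Lb.d (nat_lit 146) (nat_lit 514) (nat_lit 128) (@Lb.g g8 (@Lb.g g9 (@Lb.g g10 (@Lb.g g11 (@Lb.r r683 (@Lb.r r2410 (@Lb.r r548 (@Lb.r r37 (@Lb.d (nat_lit 361) (nat_lit 33) (nat_lit 21) (@Lb.fp (nat_lit 9) t283)))))))))))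
noncomputable def l35880 : Lb := (@Lb.d (nat_lit 0) (nat_lit 1) (nat_lit 128) (@Lb.g g8 (@Lb.g g9 (@Lb.g g11 (@Lb.r r532 (@Lb.r r1321 (@Lb.r r279 (@Lb.r r2178 (@Lb.r r548 (@Lb.d (nat_lit 281) (nat_lit 9) (nat_lit 608) (@Lb.t (@Lb.fm (nat_lit 9) t6356))))))))))))
noncomputable def l35881 : Lb := (@Lb.d (nat_lit 145) (nat_lit 258) (nat_lit 128) (@Lb.g g8 (@Lb.g g9 (@Lb.g g10 (@Lb.g g11 (@Lb.r r343 (@Lb.r r1382 (@Lb.r r145 (@Lb.r r580 (@Lb.d (nat_lit 666) (nat_lit 137) (nat_lit 137) (@Lb.fp (nat_lit 9) t472)))))))))))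
noncomputable def l35882 : Lb := (@Lb.d (nat_lit 128) (nat_lit 32) (nat_lit 162) (@Lb.g g6 (@Lb.g g11 (@Lb.r r296 (@Lb.r r2329 (@Lb.r r551 (@Lb.d (nat_lit 137) (nat_lit 18) (nat_lit 162) (@Lb.fp (nat_lit 3) t246))))))))
noncomputable def l35883 : Lb := (@Lb.d (nat_lit 422) (nat_lit 601) (nat_lit 582) (@Lb.r r2644 (@Lb.r r535 (@Lb.r r345 (@Lb.g g10 (@Lb.g g4 (@Lb.d (nat_lit 69) (nat_lit 0) (nat_lit 18) (@Lb.r r387 (@Lb.r r145 (@Lb.fm (nat_lit 3) t580))))))))))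
noncomputable def l35884 : Lb := (@Lb.d (nat_lit 257) (nat_lit 517) (nat_lit 38) (@Lb.r r1094 (@Lb.r r2196 (@Lb.r r361 (@Lb.g g11 (@Lb.g g5 (@Lb.g g4 (@Lb.d (nat_lit 1) (nat_lit 32) (nat_lit 324) (@Lb.r r578 (@Lb.t (@Lb.fp (nat_lit 9) t580)))))))))))
noncomputable def l35885 : Lb := (@Lb.r r21 (@Lb.d (nat_lit 656) (nat_lit 0) (nat_lit 128) (@Lb.g g8 (@Lb.g g10 (@Lb.g g11 (@Lb.r r387 (@Lb.r r74 (@Lb.r r25 (@Lb.d (nat_lit 336) (nat_lit 5) (nat_lit 10) (@Lb.t (@Lb.fm (nat_lit 9) t2959)))))))))))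
noncomputable def l35886 : Lb := (@Lb.d (nat_lit 145) (nat_lit 258) (nat_lit 128) (@Lb.g g8 (@Lb.g g9 (@Lb.g g10 (@Lb.g g11 (@Lb.r r548 (@Lb.r r1319 (@Lb.r r1162 (@Lb.r r405 (@Lb.r r2084 (@Lb.d (nat_lit 681) (nat_lit 69) (nat_lit 618) (@Lb.fm (nat_lit 9) t1686))))))))))))
noncomputable def l35887 : Lb := (@Lb.d (nat_lit 2) (nat_lit 520) (nat_lit 274) (@Lb.r r97 (@Lb.r r402 (@Lb.r r2311 (@Lb.g g8 (@Lb.d (nat_lit 614) (nat_lit 0) (nat_lit 0) (@Lb.r r74 (@Lb.r r25 (@Lb.t (@Lb.fp (nat_lit 3) t6357))))))))))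
noncomputable def l35888 : Lb := (@Lb.r r323 (@Lb.d (nat_lit 33) (nat_lit 260) (nat_lit 0) (@Lb.g g8 (@Lb.g g9 (@Lb.g g10 (@Lb.r r2315 (@Lb.r r2650 (@Lb.r r105 (@Lb.r r2340 (@Lb.d (nat_lit 425) (nat_lit 88) (nat_lit 610) (@Lb.t (@Lb.fp (nat_lit 9) t394))))))))))))
noncomputable def l35889 : Lb := (@Lb.r r82 (@Lb.d (nat_lit 133) (nat_lit 290) (nat_lit 64) (@Lb.g g8 (@Lb.g g9 (@Lb.g g11 (@Lb.r r2473 (@Lb.r r1634 (@Lb.r r619 (@Lb.r r1156 (@Lb.d (nat_lit 362) (nat_lit 69) (nat_lit 100) (@Lb.t (@Lb.fm (nat_lit 9) t3875))))))))))))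
noncomputable def l35890 : Lb := (@Lb.d (nat_lit 145) (nat_lit 514) (nat_lit 74) (@Lb.g g8 (@Lb.g g9 (@Lb.g g10 (@Lb.g g11 (@Lb.r r548 (@Lb.r r1319 (@Lb.r r1162 (@Lb.r r405 (@Lb.r r2084 (@Lb.d (nat_lit 681) (nat_lit 69) (nat_lit 618) (@Lb.fm (nat_lit 9) t1686))))))))))))
noncomputable def l35891 : Lb := (@Lb.d (nat_lit 9) (nat_lit 258) (nat_lit 130) (@Lb.g g8 (@Lb.g g9 (@Lb.g g10 (@Lb.g g11 (@Lb.r r2658 (@Lb.r r1607 (@Lb.r r292 (@Lb.r r1045 (@Lb.r r1060 (@Lb.d (nat_lit 521) (nat_lit 168) (nat_lit 642) (@Lb.fm (nat_lit 9) t2815))))))))))))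
noncomputable def l35892 : Lb := (@Lb.r r580 (@Lb.d (nat_lit 0) (nat_lit 544) (nat_lit 162) (@Lb.g g10 (@Lb.g g11 (@Lb.r r2401 (@Lb.r r659 (@Lb.r r1048 (@Lb.d (nat_lit 290) (nat_lit 160) (nat_lit 41) (@Lb.fp (nat_lit 3) t2426)))))))))
noncomputable def l35893 : Lb := (@Lb.d (nat_lit 10) (nat_lit 357) (nat_lit 645) (@Lb.r r611 (@Lb.r r362 (@Lb.r r344 (@Lb.r r549 (@Lb.g g7 (@Lb.d (nat_lit 64) (nat_lit 0) (nat_lit 64) (@Lb.t (@Lb.fp (nat_lit 3) t1436)))))))))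
noncomputable def l35894 : Lb := (@Lb.d (nat_lit 9) (nat_lit 2) (nat_lit 66) (@Lb.g g8 (@Lb.g g9 (@Lb.g g10 (@Lb.g g7 (@Lb.r r386 (@Lb.r r616 (@Lb.r r2153 (@Lb.r r2084 (@Lb.d (nat_lit 548) (nat_lit 96) (nat_lit 137) (@Lb.fp (nat_lit 9) t4189)))))))))))
noncomputable def l35895 : Lb := (@Lb.d (nat_lit 257) (nat_lit 613) (nat_lit 324) (@Lb.r r21 (@Lb.r r1640 (@Lb.r r1643 (@Lb.g g7 (@Lb.g g10 (@Lb.g g5 (@Lb.g g4 (@Lb.d (nat_lit 25) (nat_lit 0) (nat_lit 66) (@Lb.fm (nat_lit 9) t468))))))))))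
noncomputable def l35896 : Lb := (@Lb.d (nat_lit 9) (nat_lit 258) (nat_lit 73) (@Lb.g g8 (@Lb.g g9 (@Lb.g g10 (@Lb.g g11 (@Lb.r r404 (@Lb.r r1563 (@Lb.r r2453 (@Lb.r r2390 (@Lb.r r1700 (@Lb.d (nat_lit 102) (nat_lit 1) (nat_lit 537) (@Lb.fm (nat_lit 9) t1165))))))))))))
noncomputable def l35897 : Lb := (@Lb.d (nat_lit 514) (nat_lit 100) (nat_lit 417) (@Lb.r r1317 (@Lb.r r603 (@Lb.r r516 (@Lb.r r2150 (@Lb.g g7 (@Lb.d (nat_lit 64) (nat_lit 0) (nat_lit 64) (@Lb.t (@Lb.fm (nat_lit 3) t1040)))))))))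
noncomputable def l35898 : Lb := (@Lb.d (nat_lit 8) (nat_lit 512) (nat_lit 1) (@Lb.g g9 (@Lb.g g10 (@Lb.r r2587 (@Lb.r r2146 (@Lb.r r2580 (@Lb.r r1385 (@Lb.d (nat_lit 585) (nat_lit 86) (nat_lit 70) (@Lb.fm (nat_lit 3) t6358)))))))))
noncomputable def l35899 : Lb := (@Lb.d (nat_lit 0) (nat_lit 530) (nat_lit 74) (@Lb.g g9 (@Lb.g g10 (@Lb.g g11 (@Lb.r r2691 (@Lb.r r2626 (@Lb.r r2344 (@Lb.r r2457 (@Lb.d (nat_lit 421) (nat_lit 148) (nat_lit 68) (@Lb.t (@Lb.fm (nat_lit 9) t3371)))))))))))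
noncomputable def l35900 : Lb := (@Lb.d (nat_lit 6) (nat_lit 72) (nat_lit 362) (@Lb.r r2597 (@Lb.r r1364 (@Lb.r r2475 (@Lb.r r410 (@Lb.g g7 (@Lb.g g5 (@Lb.d (nat_lit 0) (nat_lit 10) (nat_lit 64) (@Lb.fm (nat_lit 3) t6359)))))))))
noncomputable def l35901 : Lb := (@Lb.r r82 (@Lb.d (nat_lit 8) (nat_lit 422) (nat_lit 0) (@Lb.g g9 (@Lb.r r98 (@Lb.d (nat_lit 610) (nat_lit 89) (nat_lit 666) (@Lb.t (@Lb.fp (nat_lit 3) t3964)))))))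
noncomputable def l35902 : Lb := (@Lb.d (nat_lit 6) (nat_lit 512) (nat_lit 136) (@Lb.g g4 (@Lb.g g11 (@Lb.r r101 (@Lb.d (nat_lit 549) (nat_lit 10) (nat_lit 152) (@Lb.fm (nat_lit 3) t126))))))
noncomputable def l35903 : Lb := (@Lb.d (nat_lit 32) (nat_lit 256) (nat_lit 2) (@Lb.g g9 (@Lb.g g10 (@Lb.g g11 (@Lb.r r2695 (@Lb.r r2341 (@Lb.r r1352 (@Lb.r r2710 (@Lb.d (nat_lit 677) (nat_lit 160) (nat_lit 98) (@Lb.t (@Lb.fm (nat_lit 9) t242)))))))))))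
noncomputable def l35904 : Lb := (@Lb.r r21 (@Lb.d (nat_lit 0) (nat_lit 0) (nat_lit 4) (@Lb.g g8 (@Lb.g g10 (@Lb.g g11 (@Lb.r r2391 (@Lb.r r2390 (@Lb.r r2152 (@Lb.r r25 (@Lb.d (nat_lit 390) (nat_lit 1) (nat_lit 345) (@Lb.t (@Lb.fp (nat_lit 9) t457))))))))))))
noncomputable def l35905 : Lb := (@Lb.d (nat_lit 134) (nat_lit 512) (nat_lit 130) (@Lb.g g8 (@Lb.g g9 (@Lb.g g10 (@Lb.g g11 (@Lb.r r1675 (@Lb.r r613 (@Lb.r r666 (@Lb.r r1176 (@Lb.d (nat_lit 682) (nat_lit 65) (nat_lit 362) (@Lb.fp (nat_lit 9) t552)))))))))))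
noncomputable def l35906 : Lb := (@Lb.d (nat_lit 134) (nat_lit 0) (nat_lit 130) (@Lb.g g8 (@Lb.g g9 (@Lb.g g10 (@Lb.g g11 (@Lb.r r1675 (@Lb.r r164 (@Lb.r r2197 (@Lb.r r2646 (@Lb.r r164 (@Lb.d (nat_lit 394) (nat_lit 128) (nat_lit 362) (@Lb.fm (nat_lit 9) t2991))))))))))))
noncomputable def l35907 : Lb := (@Lb.r r21 (@Lb.d (nat_lit 16) (nat_lit 256) (nat_lit 74) (@Lb.g g8 (@Lb.g g10 (@Lb.g g11 (@Lb.r r2707 (@Lb.r r2442 (@Lb.r r97 (@Lb.r r1432 (@Lb.d (nat_lit 612) (nat_lit 129) (nat_lit 394) (@Lb.t (@Lb.fm (nat_lit 9) t3577))))))))))))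
noncomputable def l35908 : Lb := (@Lb.d (nat_lit 357) (nat_lit 325) (nat_lit 1) (@Lb.r r2663 (@Lb.r r264 (@Lb.r r2137 (@Lb.r r1190 (@Lb.g g7 (@Lb.g g5 (@Lb.d (nat_lit 64) (nat_lit 1) (nat_lit 128) (@Lb.fp (nat_lit 3) t40)))))))))
noncomputable def l35909 : Lb := (@Lb.d (nat_lit 146) (nat_lit 528) (nat_lit 128) (@Lb.g g8 (@Lb.g g9 (@Lb.g g10 (@Lb.g g11 (@Lb.r r665 (@Lb.r r2323 (@Lb.r r1602 (@Lb.r r145 (@Lb.r r2180 (@Lb.d (nat_lit 289) (nat_lit 154) (nat_lit 409) (@Lb.fp (nat_lit 9) t3040))))))))))))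
noncomputable def l35910 : Lb := (@Lb.d (nat_lit 357) (nat_lit 69) (nat_lit 65) (@Lb.r r2663 (@Lb.r r264 (@Lb.r r2137 (@Lb.r r1190 (@Lb.g g7 (@Lb.g g5 (@Lb.d (nat_lit 64) (nat_lit 1) (nat_lit 128) (@Lb.fp (nat_lit 3) t40)))))))))
noncomputable def l35911 : Lb := (@Lb.r r70 (@Lb.d (nat_lit 514) (nat_lit 10) (nat_lit 128) (@Lb.g g8 (@Lb.g g9 (@Lb.g g11 (@Lb.r r406 (@Lb.r r1635 (@Lb.r r1553 (@Lb.d (nat_lit 520) (nat_lit 168) (nat_lit 642) (@Lb.t (@Lb.fm (nat_lit 9) t898)))))))))))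
noncomputable def l35912 : Lb := (@Lb.d (nat_lit 130) (nat_lit 288) (nat_lit 17) (@Lb.g g8 (@Lb.g g9 (@Lb.g g10 (@Lb.r r583 (@Lb.r r1304 (@Lb.r r2133 (@Lb.d (nat_lit 36) (nat_lit 153) (nat_lit 138) (@Lb.t (@Lb.fm (nat_lit 9) t2910))))))))))
noncomputable def l35913 : Lb := (@Lb.d (nat_lit 33) (nat_lit 514) (nat_lit 129) (@Lb.g g8 (@Lb.g g9 (@Lb.g g10 (@Lb.g g11 (@Lb.r r2666 (@Lb.r r359 (@Lb.r r277 (@Lb.r r520 (@Lb.d (nat_lit 389) (nat_lit 72) (nat_lit 258) (@Lb.fm (nat_lit 9) t842)))))))))))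
noncomputable def l35914 : Lb := (@Lb.d (nat_lit 2) (nat_lit 66) (nat_lit 73) (@Lb.g g8 (@Lb.g g9 (@Lb.g g10 (@Lb.g g11 (@Lb.r r2475 (@Lb.r r2440 (@Lb.r r2122 (@Lb.d (nat_lit 536) (nat_lit 0) (nat_lit 136) (@Lb.fm (nat_lit 9) t1242))))))))))
noncomputable def l35915 : Lb := (@Lb.d (nat_lit 34) (nat_lit 522) (nat_lit 0) (@Lb.g g8 (@Lb.g g9 (@Lb.r r2379 (@Lb.r r582 (@Lb.r r388 (@Lb.d (nat_lit 104) (nat_lit 2) (nat_lit 137) (@Lb.fm (nat_lit 3) t3992))))))))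
noncomputable def l35916 : Lb := (@Lb.d (nat_lit 554) (nat_lit 552) (nat_lit 88) (@Lb.r r2217 (@Lb.r r2666 (@Lb.r r1623 (@Lb.g g6 (@Lb.g g5 (@Lb.g g4 (@Lb.d (nat_lit 1) (nat_lit 33) (nat_lit 2) (@Lb.t (@Lb.fp (nat_lit 9) t1252))))))))))
noncomputable def l35917 : Lb := (@Lb.d (nat_lit 0) (nat_lit 514) (nat_lit 0) (@Lb.g g8 (@Lb.g g9 (@Lb.r r1122 (@Lb.r r25 (@Lb.r r24 (@Lb.d (nat_lit 352) (nat_lit 0) (nat_lit 528) (@Lb.fp (nat_lit 3) t49))))))))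
noncomputable def l35918 : Lb := (@Lb.r r323 (@Lb.d (nat_lit 130) (nat_lit 2) (nat_lit 2) (@Lb.g g8 (@Lb.g g9 (@Lb.g g10 (@Lb.r r599 (@Lb.r r98 (@Lb.r r2456 (@Lb.r r1125 (@Lb.d (nat_lit 532) (nat_lit 105) (nat_lit 129) (@Lb.t (@Lb.fp (nat_lit 9) t6360))))))))))))
noncomputable def l35919 : Lb := (@Lb.r r82 (@Lb.d (nat_lit 4) (nat_lit 264) (nat_lit 0) (@Lb.g g8 (@Lb.g g9 (@Lb.r r1707 (@Lb.r r1430 (@Lb.r r601 (@Lb.d (nat_lit 106) (nat_lit 166) (nat_lit 537) (@Lb.fm (nat_lit 3) t98)))))))))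
noncomputable def l35920 : Lb := (@Lb.d (nat_lit 0) (nat_lit 520) (nat_lit 2) (@Lb.g g10 (@Lb.r r2311 (@Lb.r r357 (@Lb.r r2708 (@Lb.r r2198 (@Lb.d (nat_lit 550) (nat_lit 86) (nat_lit 321) (@Lb.t (@Lb.fp (nat_lit 3) t2044)))))))))
noncomputable def l35921 : Lb := (@Lb.d (nat_lit 0) (nat_lit 514) (nat_lit 66) (@Lb.g g8 (@Lb.g g9 (@Lb.g g10 (@Lb.g g7 (@Lb.r r536 (@Lb.r r405 (@Lb.r r86 (@Lb.r r164 (@Lb.d (nat_lit 520) (nat_lit 2) (nat_lit 554) (@Lb.fp (nat_lit 9) t991)))))))))))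
noncomputable def l35922 : Lb := (@Lb.d (nat_lit 0) (nat_lit 258) (nat_lit 66) (@Lb.g g8 (@Lb.g g9 (@Lb.g g10 (@Lb.g g7 (@Lb.r r297 (@Lb.r r104 (@Lb.r r70 (@Lb.r r132 (@Lb.d (nat_lit 129) (nat_lit 90) (nat_lit 265) (@Lb.fm (nat_lit 9) t1190)))))))))))
noncomputable def l35923 : Lb := (@Lb.d (nat_lit 2) (nat_lit 258) (nat_lit 130) (@Lb.g g8 (@Lb.g g9 (@Lb.g g10 (@Lb.g g11 (@Lb.r r610 (@Lb.r r1607 (@Lb.r r2457 (@Lb.r r2436 (@Lb.d (nat_lit 168) (nat_lit 4) (nat_lit 392) (@Lb.fm (nat_lit 9) t2103)))))))))))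
noncomputable def l35924 : Lb := (@Lb.d (nat_lit 2) (nat_lit 2) (nat_lit 2) (@Lb.g g8 (@Lb.g g9 (@Lb.g g10 (@Lb.r r515 (@Lb.r r424 (@Lb.r r106 (@Lb.r r25 (@Lb.d (nat_lit 522) (nat_lit 4) (nat_lit 680) (@Lb.t (@Lb.fm (nat_lit 9) t988)))))))))))
noncomputable def l35925 : Lb := (@Lb.d (nat_lit 274) (nat_lit 9) (nat_lit 342) (@Lb.r r388 (@Lb.r r2406 (@Lb.r r1643 (@Lb.g g7 (@Lb.g g9 (@Lb.g g4 (@Lb.d (nat_lit 72) (nat_lit 10) (nat_lit 128) (@Lb.r r74 (@Lb.t (@Lb.fp (nat_lit 9) t3193)))))))))))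
noncomputable def l35926 : Lb := (@Lb.d (nat_lit 661) (nat_lit 337) (nat_lit 646) (@Lb.r r2644 (@Lb.r r330 (@Lb.r r407 (@Lb.r r617 (@Lb.g g5 (@Lb.g g4 (@Lb.d (nat_lit 17) (nat_lit 1) (nat_lit 0) (@Lb.fp (nat_lit 3) t979)))))))))
noncomputable def l35927 : Lb := (@Lb.r r331 (@Lb.d (nat_lit 38) (nat_lit 256) (nat_lit 2) (@Lb.g g8 (@Lb.g g9 (@Lb.g g10 (@Lb.r r2459 (@Lb.r r1177 (@Lb.r r1626 (@Lb.r r532 (@Lb.d (nat_lit 421) (nat_lit 169) (nat_lit 129) (@Lb.t (@Lb.fm (nat_lit 9) t1368))))))))))))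
noncomputable def l35928 : Lb := (@Lb.r r323 (@Lb.d (nat_lit 32) (nat_lit 256) (nat_lit 2) (@Lb.g g9 (@Lb.g g10 (@Lb.r r584 (@Lb.r r299 (@Lb.r r1425 (@Lb.d (nat_lit 292) (nat_lit 138) (nat_lit 1) (@Lb.fp (nat_lit 3) t410)))))))))
noncomputable def l35929 : Lb := (@Lb.r r331 (@Lb.d (nat_lit 37) (nat_lit 0) (nat_lit 2) (@Lb.g g8 (@Lb.g g9 (@Lb.g g10 (@Lb.r r2459 (@Lb.r r1177 (@Lb.r r1626 (@Lb.r r532 (@Lb.d (nat_lit 420) (nat_lit 169) (nat_lit 129) (@Lb.t (@Lb.fm (nat_lit 9) t1152))))))))))))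
noncomputable def l35930 : Lb := (@Lb.d (nat_lit 2) (nat_lit 2) (nat_lit 72) (@Lb.g g8 (@Lb.g g9 (@Lb.g g11 (@Lb.r r1410 (@Lb.r r579 (@Lb.r r25 (@Lb.d (nat_lit 4) (nat_lit 82) (nat_lit 297) (@Lb.t (@Lb.fm (nat_lit 9) t210))))))))))
noncomputable def l35931 : Lb := (@Lb.d (nat_lit 401) (nat_lit 678) (nat_lit 6) (@Lb.r r1362 (@Lb.r r1703 (@Lb.g g7 (@Lb.g g6 (@Lb.g g5 (@Lb.d (nat_lit 4) (nat_lit 8) (nat_lit 69) (@Lb.t (@Lb.fm (nat_lit 9) t6361)))))))))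
noncomputable def l35932 : Lb := (@Lb.r r2118 (@Lb.d (nat_lit 74) (nat_lit 257) (nat_lit 644) (@Lb.g g8 (@Lb.g g9 (@Lb.g g7 (@Lb.r r425 (@Lb.r r420 (@Lb.d (nat_lit 104) (nat_lit 38) (nat_lit 608) (@Lb.t (@Lb.fm (nat_lit 9) t1221))))))))))
noncomputable def l35933 : Lb := (@Lb.d (nat_lit 144) (nat_lit 8) (nat_lit 129) (@Lb.g g6 (@Lb.g g11 (@Lb.r r264 (@Lb.r r599 (@Lb.r r289 (@Lb.d (nat_lit 258) (nat_lit 42) (nat_lit 36) (@Lb.fm (nat_lit 3) t2154))))))))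
noncomputable def l35934 : Lb := (@Lb.d (nat_lit 529) (nat_lit 522) (nat_lit 16) (@Lb.r r1158 (@Lb.r r2136 (@Lb.r r2341 (@Lb.r r2707 (@Lb.g g7 (@Lb.g g6 (@Lb.g g8 (@Lb.t (@Lb.fm (nat_lit 9) t1462))))))))))
noncomputable def l35935 : Lb := (@Lb.d (nat_lit 0) (nat_lit 10) (nat_lit 80) (@Lb.r r1158 (@Lb.r r2136 (@Lb.r r2341 (@Lb.g g7 (@Lb.g g6 (@Lb.d (nat_lit 0) (nat_lit 16) (nat_lit 640) (@Lb.fp (nat_lit 3) t2796))))))))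
noncomputable def l35936 : Lb := (@Lb.r r21 (@Lb.r r263 (@Lb.d (nat_lit 32) (nat_lit 8) (nat_lit 2) (@Lb.g g8 (@Lb.g g10 (@Lb.r r1427 (@Lb.r r2137 (@Lb.r r20 (@Lb.d (nat_lit 0) (nat_lit 130) (nat_lit 2) (@Lb.fm (nat_lit 3) t894))))))))))
noncomputable def l35937 : Lb := (@Lb.r r21 (@Lb.r r263 (@Lb.d (nat_lit 34) (nat_lit 264) (nat_lit 2) (@Lb.g g8 (@Lb.g g10 (@Lb.r r1427 (@Lb.r r97 (@Lb.r r1044 (@Lb.d (nat_lit 258) (nat_lit 0) (nat_lit 2) (@Lb.fp (nat_lit 3) t30))))))))))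
noncomputable def l35938 : Lb := (@Lb.d (nat_lit 394) (nat_lit 277) (nat_lit 342) (@Lb.r r1130 (@Lb.r r101 (@Lb.r r2375 (@Lb.g g7 (@Lb.g g6 (@Lb.g g4 (@Lb.d (nat_lit 1) (nat_lit 4) (nat_lit 65) (@Lb.t (@Lb.fm (nat_lit 9) t6362))))))))))
noncomputable def l35939 : Lb := (@Lb.d (nat_lit 1) (nat_lit 2) (nat_lit 2) (@Lb.g g8 (@Lb.g g9 (@Lb.g g10 (@Lb.r r2666 (@Lb.r r579 (@Lb.r r25 (@Lb.d (nat_lit 8) (nat_lit 102) (nat_lit 584) (@Lb.t (@Lb.fp (nat_lit 9) t51))))))))))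
noncomputable def l35940 : Lb := (@Lb.d (nat_lit 0) (nat_lit 584) (nat_lit 1) (@Lb.g g5 (@Lb.g g10 (@Lb.r r2711 (@Lb.r r1384 (@Lb.r r2198 (@Lb.d (nat_lit 549) (nat_lit 74) (nat_lit 32) (@Lb.fm (nat_lit 3) t892))))))))
noncomputable def l35941 : Lb := (@Lb.d (nat_lit 0) (nat_lit 258) (nat_lit 137) (@Lb.g g8 (@Lb.g g9 (@Lb.g g10 (@Lb.g g11 (@Lb.r r2691 (@Lb.r r2209 (@Lb.r r2658 (@Lb.d (nat_lit 0) (nat_lit 165) (nat_lit 660) (@Lb.fp (nat_lit 9) t311))))))))))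
noncomputable def l35942 : Lb := (@Lb.d (nat_lit 2) (nat_lit 2) (nat_lit 137) (@Lb.g g8 (@Lb.g g9 (@Lb.g g10 (@Lb.g g11 (@Lb.r r610 (@Lb.r r579 (@Lb.r r1129 (@Lb.r r36 (@Lb.d (nat_lit 153) (nat_lit 2) (nat_lit 324) (@Lb.fp (nat_lit 9) t61)))))))))))
noncomputable def l35943 : Lb := (@Lb.d (nat_lit 0) (nat_lit 520) (nat_lit 73) (@Lb.g g10 (@Lb.g g11 (@Lb.r r353 (@Lb.r r663 (@Lb.r r356 (@Lb.r r586 (@Lb.d (nat_lit 104) (nat_lit 65) (nat_lit 16) (@Lb.fm (nat_lit 3) t479)))))))))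
noncomputable def l35944 : Lb := (@Lb.d (nat_lit 66) (nat_lit 165) (nat_lit 518) (@Lb.r r68 (@Lb.r r74 (@Lb.r r104 (@Lb.r r297 (@Lb.g g11 (@Lb.g g6 (@Lb.g g5 (@Lb.g g4 (@Lb.d (nat_lit 6) (nat_lit 2) (nat_lit 129) (@Lb.fm (nat_lit 9) t1033)))))))))))
noncomputable def l35945 : Lb := (@Lb.r r81 (@Lb.d (nat_lit 128) (nat_lit 0) (nat_lit 169) (@Lb.g g10 (@Lb.g g11 (@Lb.r r344 (@Lb.r r359 (@Lb.r r37 (@Lb.d (nat_lit 2) (nat_lit 20) (nat_lit 132) (@Lb.fm (nat_lit 3) t601)))))))))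
noncomputable def l35946 : Lb := (@Lb.d (nat_lit 144) (nat_lit 650) (nat_lit 656) (@Lb.r r154 (@Lb.r r660 (@Lb.r r407 (@Lb.r r537 (@Lb.g g10 (@Lb.t (@Lb.fm (nat_lit 3) t857))))))))
noncomputable def l35947 : Lb := (@Lb.d (nat_lit 154) (nat_lit 137) (nat_lit 656) (@Lb.r r154 (@Lb.r r660 (@Lb.r r407 (@Lb.r r537 (@Lb.g g10 (@Lb.t (@Lb.fm (nat_lit 3) t857))))))))
noncomputable def l35948 : Lb := (@Lb.d (nat_lit 144) (nat_lit 394) (nat_lit 656) (@Lb.r r154 (@Lb.r r660 (@Lb.r r407 (@Lb.r r537 (@Lb.g g10 (@Lb.g g4 (@Lb.fm (nat_lit 3) t6363))))))))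
noncomputable def l35949 : Lb := (@Lb.d (nat_lit 130) (nat_lit 1) (nat_lit 0) (@Lb.g g8 (@Lb.g g9 (@Lb.g g10 (@Lb.r r579 (@Lb.r r418 (@Lb.r r41 (@Lb.r r104 (@Lb.d (nat_lit 21) (nat_lit 10) (nat_lit 129) (@Lb.t (@Lb.fm (nat_lit 9) t145)))))))))))
noncomputable def l35950 : Lb := (@Lb.d (nat_lit 26) (nat_lit 264) (nat_lit 66) (@Lb.g g8 (@Lb.g g9 (@Lb.g g10 (@Lb.g g7 (@Lb.r r418 (@Lb.r r145 (@Lb.r r72 (@Lb.d (nat_lit 36) (nat_lit 37) (nat_lit 0) (@Lb.fm (nat_lit 9) t42))))))))))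
noncomputable def l35951 : Lb := (@Lb.r r21 (@Lb.r r263 (@Lb.d (nat_lit 2) (nat_lit 512) (nat_lit 2) (@Lb.g g8 (@Lb.g g10 (@Lb.r r422 (@Lb.r r343 (@Lb.r r420 (@Lb.r r37 (@Lb.d (nat_lit 101) (nat_lit 133) (nat_lit 257) (@Lb.fm (nat_lit 3) t842)))))))))))
noncomputable def l35952 : Lb := (@Lb.r r323 (@Lb.d (nat_lit 6) (nat_lit 0) (nat_lit 1) (@Lb.g g8 (@Lb.g g9 (@Lb.g g6 (@Lb.r r1315 (@Lb.r r2153 (@Lb.r r36 (@Lb.d (nat_lit 553) (nat_lit 2) (nat_lit 98) (@Lb.t (@Lb.fm (nat_lit 9) t314)))))))))))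
noncomputable def l35953 : Lb := (@Lb.d (nat_lit 145) (nat_lit 258) (nat_lit 128) (@Lb.g g8 (@Lb.g g9 (@Lb.g g10 (@Lb.g g11 (@Lb.r r683 (@Lb.r r1433 (@Lb.r r1114 (@Lb.r r344 (@Lb.d (nat_lit 170) (nat_lit 101) (nat_lit 264) (@Lb.fp (nat_lit 9) t125)))))))))))
noncomputable def l35954 : Lb := (@Lb.d (nat_lit 4) (nat_lit 512) (nat_lit 130) (@Lb.g g8 (@Lb.g g9 (@Lb.g g10 (@Lb.g g11 (@Lb.r r427 (@Lb.r r386 (@Lb.r r25 (@Lb.d (nat_lit 289) (nat_lit 41) (nat_lit 104) (@Lb.fm (nat_lit 9) t3056))))))))))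
noncomputable def l35955 : Lb := (@Lb.r r263 (@Lb.d (nat_lit 2) (nat_lit 2) (nat_lit 2) (@Lb.g g8 (@Lb.g g9 (@Lb.g g10 (@Lb.r r1371 (@Lb.r r386 (@Lb.r r97 (@Lb.r r1048 (@Lb.d (nat_lit 281) (nat_lit 137) (nat_lit 100) (@Lb.t (@Lb.fp (nat_lit 9) t1045))))))))))))
noncomputable def l35956 : Lb := (@Lb.d (nat_lit 358) (nat_lit 642) (nat_lit 358) (@Lb.r r2436 (@Lb.r r1382 (@Lb.r r1365 (@Lb.r r1579 (@Lb.g g6 (@Lb.g g5 (@Lb.g g4 (@Lb.d (nat_lit 33) (nat_lit 0) (nat_lit 5) (@Lb.t (@Lb.fm (nat_lit 9) t698)))))))))))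
noncomputable def l35957 : Lb := (@Lb.d (nat_lit 6) (nat_lit 548) (nat_lit 128) (@Lb.g g8 (@Lb.g g9 (@Lb.g g10 (@Lb.g g11 (@Lb.r r1706 (@Lb.r r1419 (@Lb.r r168 (@Lb.r r41 (@Lb.r r2084 (@Lb.d (nat_lit 514) (nat_lit 37) (nat_lit 321) (@Lb.fm (nat_lit 9) t394))))))))))))
noncomputable def l35958 : Lb := (@Lb.d (nat_lit 0) (nat_lit 512) (nat_lit 130) (@Lb.g g9 (@Lb.g g10 (@Lb.g g11 (@Lb.r r419 (@Lb.r r386 (@Lb.d (nat_lit 292) (nat_lit 34) (nat_lit 169) (@Lb.t (@Lb.fp (nat_lit 9) t4055)))))))))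
noncomputable def l35959 : Lb := (@Lb.d (nat_lit 6) (nat_lit 292) (nat_lit 128) (@Lb.g g8 (@Lb.g g9 (@Lb.g g10 (@Lb.g g11 (@Lb.r r1706 (@Lb.r r1419 (@Lb.r r168 (@Lb.r r41 (@Lb.r r2084 (@Lb.d (nat_lit 514) (nat_lit 42) (nat_lit 322) (@Lb.fm (nat_lit 9) t394))))))))))))
noncomputable def l35960 : Lb := (@Lb.r r263 (@Lb.d (nat_lit 258) (nat_lit 514) (nat_lit 2) (@Lb.g g8 (@Lb.g g9 (@Lb.g g10 (@Lb.r r602 (@Lb.r r1635 (@Lb.r r25 (@Lb.d (nat_lit 265) (nat_lit 80) (nat_lit 320) (@Lb.t (@Lb.fp (nat_lit 9) t1868)))))))))))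
noncomputable def l35961 : Lb := (@Lb.d (nat_lit 4) (nat_lit 256) (nat_lit 130) (@Lb.g g8 (@Lb.g g9 (@Lb.g g10 (@Lb.g g11 (@Lb.r r427 (@Lb.r r386 (@Lb.r r25 (@Lb.d (nat_lit 289) (nat_lit 34) (nat_lit 105) (@Lb.fm (nat_lit 9) t3056))))))))))
noncomputable def l35962 : Lb := (@Lb.d (nat_lit 0) (nat_lit 512) (nat_lit 64) (@Lb.g g9 (@Lb.g g10 (@Lb.g g7 (@Lb.r r402 (@Lb.r r101 (@Lb.r r24 (@Lb.d (nat_lit 128) (nat_lit 80) (nat_lit 256) (@Lb.t (@Lb.fm (nat_lit 9) t2244))))))))))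
noncomputable def l35963 : Lb := (@Lb.d (nat_lit 321) (nat_lit 401) (nat_lit 10) (@Lb.r r657 (@Lb.r r602 (@Lb.r r356 (@Lb.g g11 (@Lb.g g5 (@Lb.d (nat_lit 8) (nat_lit 1) (nat_lit 384) (@Lb.r r578 (@Lb.fp (nat_lit 3) t1499)))))))))
noncomputable def l35964 : Lb := (@Lb.r r277 (@Lb.d (nat_lit 144) (nat_lit 256) (nat_lit 64) (@Lb.g g8 (@Lb.g g10 (@Lb.g g11 (@Lb.r r1162 (@Lb.r r420 (@Lb.r r2315 (@Lb.d (nat_lit 394) (nat_lit 165) (nat_lit 538) (@Lb.t (@Lb.fp (nat_lit 9) t1107)))))))))))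
noncomputable def l35965 : Lb := (@Lb.d (nat_lit 130) (nat_lit 258) (nat_lit 2) (@Lb.g g8 (@Lb.g g9 (@Lb.g g10 (@Lb.r r519 (@Lb.r r1177 (@Lb.r r2456 (@Lb.r r2122 (@Lb.d (nat_lit 161) (nat_lit 21) (nat_lit 360) (@Lb.t (@Lb.fm (nat_lit 9) t145)))))))))))
noncomputable def l35966 : Lb := (@Lb.d (nat_lit 130) (nat_lit 514) (nat_lit 2) (@Lb.g g8 (@Lb.g g9 (@Lb.g g10 (@Lb.r r519 (@Lb.r r1177 (@Lb.r r2456 (@Lb.r r2122 (@Lb.d (nat_lit 160) (nat_lit 21) (nat_lit 360) (@Lb.t (@Lb.fm (nat_lit 9) t145)))))))))))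
noncomputable def l35967 : Lb := (@Lb.r r341 (@Lb.r r675 (@Lb.r r658 (@Lb.r r81 (@Lb.d (nat_lit 64) (nat_lit 640) (nat_lit 256) (@Lb.fp (nat_lit 1) t242))))))
noncomputable def l35968 : Lb := (@Lb.d (nat_lit 36) (nat_lit 261) (nat_lit 128) (@Lb.g g8 (@Lb.g g9 (@Lb.g g10 (@Lb.g g11 (@Lb.r r1707 (@Lb.r r1414 (@Lb.r r660 (@Lb.r r1193 (@Lb.d (nat_lit 282) (nat_lit 81) (nat_lit 649) (@Lb.fm (nat_lit 9) t4917)))))))))))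
noncomputable def l35969 : Lb := (@Lb.d (nat_lit 358) (nat_lit 582) (nat_lit 165) (@Lb.r r2645 (@Lb.r r682 (@Lb.g g11 (@Lb.g g6 (@Lb.g g5 (@Lb.g g4 (@Lb.d (nat_lit 1) (nat_lit 18) (nat_lit 6) (@Lb.fp (nat_lit 9) t309)))))))))
noncomputable def l35970 : Lb := (@Lb.d (nat_lit 36) (nat_lit 548) (nat_lit 64) (@Lb.g g8 (@Lb.g g9 (@Lb.g g10 (@Lb.g g11 (@Lb.r r1451 (@Lb.r r2116 (@Lb.r r1130 (@Lb.r r2649 (@Lb.d (nat_lit 677) (nat_lit 154) (nat_lit 600) (@Lb.fp (nat_lit 9) t1169)))))))))))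
noncomputable def l35971 : Lb := (@Lb.r r263 (@Lb.d (nat_lit 33) (nat_lit 34) (nat_lit 1) (@Lb.g g8 (@Lb.g g9 (@Lb.g g10 (@Lb.r r1675 (@Lb.r r1194 (@Lb.r r1384 (@Lb.r r1369 (@Lb.d (nat_lit 584) (nat_lit 149) (nat_lit 336) (@Lb.t (@Lb.fp (nat_lit 9) t5492))))))))))))
noncomputable def l35972 : Lb := (@Lb.d (nat_lit 0) (nat_lit 0) (nat_lit 136) (@Lb.g g11 (@Lb.r r101 (@Lb.r r402 (@Lb.r r24 (@Lb.d (nat_lit 577) (nat_lit 73) (nat_lit 106) (@Lb.t (@Lb.fm (nat_lit 3) t2840))))))))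
noncomputable def l35973 : Lb := (@Lb.d (nat_lit 96) (nat_lit 646) (nat_lit 593) (@Lb.r r2661 (@Lb.r r1304 (@Lb.r r2599 (@Lb.g g6 (@Lb.g g5 (@Lb.d (nat_lit 20) (nat_lit 1) (nat_lit 2) (@Lb.fp (nat_lit 3) t4607))))))))
noncomputable def l35974 : Lb := (@Lb.r r263 (@Lb.d (nat_lit 33) (nat_lit 546) (nat_lit 1) (@Lb.g g8 (@Lb.g g9 (@Lb.g g10 (@Lb.r r1675 (@Lb.r r1194 (@Lb.r r1384 (@Lb.r r1369 (@Lb.d (nat_lit 584) (nat_lit 154) (nat_lit 337) (@Lb.t (@Lb.fp (nat_lit 9) t3284))))))))))))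
noncomputable def l35975 : Lb := (@Lb.d (nat_lit 64) (nat_lit 288) (nat_lit 256) (@Lb.g g8 (@Lb.g g7 (@Lb.r r532 (@Lb.d (nat_lit 130) (nat_lit 64) (nat_lit 640) (@Lb.fp (nat_lit 3) t1101))))))
noncomputable def l35976 : Lb := (@Lb.d (nat_lit 33) (nat_lit 256) (nat_lit 128) (@Lb.g g8 (@Lb.g g11 (@Lb.r r345 (@Lb.r r1638 (@Lb.r r615 (@Lb.r r408 (@Lb.d (nat_lit 297) (nat_lit 150) (nat_lit 681) (@Lb.fm (nat_lit 3) t2014)))))))))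
noncomputable def l35977 : Lb := (@Lb.d (nat_lit 2) (nat_lit 74) (nat_lit 10) (@Lb.r r24 (@Lb.r r82 (@Lb.r r161 (@Lb.r r675 (@Lb.g g6 (@Lb.g g5 (@Lb.d (nat_lit 0) (nat_lit 1) (nat_lit 1) (@Lb.r r291 (@Lb.fp (nat_lit 3) t546))))))))))
noncomputable def l35978 : Lb := (@Lb.r r21 (@Lb.d (nat_lit 10) (nat_lit 0) (nat_lit 130) (@Lb.g g8 (@Lb.g g10 (@Lb.g g11 (@Lb.r r1419 (@Lb.r r145 (@Lb.r r1434 (@Lb.r r1432 (@Lb.d (nat_lit 165) (nat_lit 18) (nat_lit 345) (@Lb.t (@Lb.fm (nat_lit 9) t519))))))))))))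
noncomputable def l35979 : Lb := (@Lb.d (nat_lit 68) (nat_lit 37) (nat_lit 74) (@Lb.g g8 (@Lb.g g9 (@Lb.g g10 (@Lb.g g11 (@Lb.r r2387 (@Lb.r r338 (@Lb.r r1129 (@Lb.r r296 (@Lb.d (nat_lit 69) (nat_lit 97) (nat_lit 585) (@Lb.fp (nat_lit 9) t6364)))))))))))
noncomputable def l35980 : Lb := (@Lb.d (nat_lit 9) (nat_lit 256) (nat_lit 0) (@Lb.g g8 (@Lb.r r417 (@Lb.r r2466 (@Lb.r r2387 (@Lb.r r657 (@Lb.d (nat_lit 546) (nat_lit 0) (nat_lit 34) (@Lb.t (@Lb.fp (nat_lit 3) t246)))))))))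
noncomputable def l35981 : Lb := (@Lb.d (nat_lit 9) (nat_lit 544) (nat_lit 73) (@Lb.g g8 (@Lb.g g9 (@Lb.g g10 (@Lb.g g11 (@Lb.r r2647 (@Lb.r r682 (@Lb.r r1636 (@Lb.r r613 (@Lb.d (nat_lit 393) (nat_lit 89) (nat_lit 274) (@Lb.fm (nat_lit 9) t4966)))))))))))
noncomputable def l35982 : Lb := (@Lb.d (nat_lit 548) (nat_lit 645) (nat_lit 1) (@Lb.r r170 (@Lb.r r148 (@Lb.r r2331 (@Lb.g g6 (@Lb.g g9 (@Lb.d (nat_lit 16) (nat_lit 2) (nat_lit 1) (@Lb.r r291 (@Lb.r r36 (@Lb.fm (nat_lit 3) t1699))))))))))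
noncomputable def l35983 : Lb := (@Lb.d (nat_lit 0) (nat_lit 256) (nat_lit 130) (@Lb.g g10 (@Lb.g g11 (@Lb.r r586 (@Lb.r r584 (@Lb.r r619 (@Lb.r r609 (@Lb.d (nat_lit 9) (nat_lit 1) (nat_lit 21) (@Lb.fp (nat_lit 3) t479)))))))))
noncomputable def l35984 : Lb := (@Lb.d (nat_lit 8) (nat_lit 2) (nat_lit 130) (@Lb.g g9 (@Lb.g g10 (@Lb.g g11 (@Lb.r r614 (@Lb.r r404 (@Lb.r r619 (@Lb.r r609 (@Lb.d (nat_lit 9) (nat_lit 146) (nat_lit 0) (@Lb.t (@Lb.fm (nat_lit 9) t71)))))))))))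
noncomputable def l35985 : Lb := (@Lb.d (nat_lit 342) (nat_lit 578) (nat_lit 354) (@Lb.r r24 (@Lb.r r2321 (@Lb.r r346 (@Lb.r r1703 (@Lb.g g7 (@Lb.g g6 (@Lb.g g5 (@Lb.d (nat_lit 0) (nat_lit 6) (nat_lit 65) (@Lb.t (@Lb.fp (nat_lit 9) t714)))))))))))
noncomputable def l35986 : Lb := (@Lb.d (nat_lit 10) (nat_lit 513) (nat_lit 130) (@Lb.g g8 (@Lb.g g9 (@Lb.g g10 (@Lb.g g11 (@Lb.r r610 (@Lb.r r404 (@Lb.r r619 (@Lb.r r97 (@Lb.r r516 (@Lb.d (nat_lit 9) (nat_lit 137) (nat_lit 70) (@Lb.fp (nat_lit 9) t71))))))))))))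
noncomputable def l35987 : Lb := (@Lb.d (nat_lit 9) (nat_lit 257) (nat_lit 2) (@Lb.g g8 (@Lb.g g9 (@Lb.g g10 (@Lb.g g11 (@Lb.r r427 (@Lb.r r106 (@Lb.r r25 (@Lb.d (nat_lit 4) (nat_lit 8) (nat_lit 2) (@Lb.fp (nat_lit 9) t51))))))))))
noncomputable def l35988 : Lb := (@Lb.d (nat_lit 0) (nat_lit 512) (nat_lit 130) (@Lb.g g10 (@Lb.g g11 (@Lb.r r614 (@Lb.r r404 (@Lb.r r619 (@Lb.r r537 (@Lb.d (nat_lit 282) (nat_lit 132) (nat_lit 614) (@Lb.fp (nat_lit 3) t494)))))))))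
noncomputable def l35989 : Lb := (@Lb.d (nat_lit 134) (nat_lit 2) (nat_lit 4) (@Lb.g g8 (@Lb.g g9 (@Lb.g g10 (@Lb.g g11 (@Lb.r r1707 (@Lb.r r1610 (@Lb.r r552 (@Lb.r r2089 (@Lb.r r1060 (@Lb.d (nat_lit 104) (nat_lit 168) (nat_lit 401) (@Lb.fm (nat_lit 9) t50))))))))))))
noncomputable def l35990 : Lb := (@Lb.d (nat_lit 33) (nat_lit 6) (nat_lit 137) (@Lb.g g8 (@Lb.g g9 (@Lb.g g10 (@Lb.g g11 (@Lb.r r618 (@Lb.r r1129 (@Lb.r r2340 (@Lb.r r1611 (@Lb.d (nat_lit 149) (nat_lit 64) (nat_lit 162) (@Lb.fp (nat_lit 9) t1265)))))))))))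
noncomputable def l35991 : Lb := (@Lb.d (nat_lit 134) (nat_lit 2) (nat_lit 130) (@Lb.g g8 (@Lb.g g9 (@Lb.g g10 (@Lb.g g11 (@Lb.r r1443 (@Lb.r r1156 (@Lb.r r2438 (@Lb.r r1121 (@Lb.d (nat_lit 361) (nat_lit 85) (nat_lit 166) (@Lb.fp (nat_lit 9) t1377)))))))))))
noncomputable def l35992 : Lb := (@Lb.r r20 (@Lb.r r323 (@Lb.d (nat_lit 32) (nat_lit 33) (nat_lit 8) (@Lb.g g9 (@Lb.g g10 (@Lb.r r2651 (@Lb.r r1317 (@Lb.d (nat_lit 425) (nat_lit 162) (nat_lit 402) (@Lb.fm (nat_lit 3) t221)))))))))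
noncomputable def l35993 : Lb := (@Lb.d (nat_lit 1) (nat_lit 81) (nat_lit 0) (@Lb.g g8 (@Lb.g g5 (@Lb.r r1575 (@Lb.r r2408 (@Lb.r r2150 (@Lb.d (nat_lit 0) (nat_lit 34) (nat_lit 673) (@Lb.fp (nat_lit 3) t1040))))))))
noncomputable def l35994 : Lb := (@Lb.d (nat_lit 36) (nat_lit 8) (nat_lit 64) (@Lb.g g8 (@Lb.g g9 (@Lb.g g7 (@Lb.r r582 (@Lb.r r408 (@Lb.r r2069 (@Lb.d (nat_lit 4) (nat_lit 89) (nat_lit 354) (@Lb.t (@Lb.fm (nat_lit 9) t572))))))))))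
noncomputable def l35995 : Lb := (@Lb.r r101 (@Lb.r r402 (@Lb.d (nat_lit 256) (nat_lit 164) (nat_lit 613) (@Lb.fp (nat_lit 1) t652))))
noncomputable def l35996 : Lb := (@Lb.d (nat_lit 80) (nat_lit 5) (nat_lit 530) (@Lb.r r2068 (@Lb.r r89 (@Lb.r r20 (@Lb.r r2466 (@Lb.g g11 (@Lb.g g6 (@Lb.g g5 (@Lb.g g4 (@Lb.d (nat_lit 1) (nat_lit 6) (nat_lit 4) (@Lb.fp (nat_lit 9) t232)))))))))))
noncomputable def l35997 : Lb := (@Lb.d (nat_lit 640) (nat_lit 261) (nat_lit 24) (@Lb.r r1158 (@Lb.r r2132 (@Lb.r r2345 (@Lb.g g11 (@Lb.g g5 (@Lb.g g4 (@Lb.d (nat_lit 6) (nat_lit 2) (nat_lit 128) (@Lb.r r98 (@Lb.t (@Lb.fm (nat_lit 9) t4018)))))))))))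
noncomputable def l35998 : Lb := (@Lb.d (nat_lit 80) (nat_lit 261) (nat_lit 530) (@Lb.r r2068 (@Lb.r r89 (@Lb.r r20 (@Lb.r r2466 (@Lb.g g11 (@Lb.g g6 (@Lb.g g5 (@Lb.g g4 (@Lb.d (nat_lit 1) (nat_lit 6) (nat_lit 130) (@Lb.fp (nat_lit 9) t232)))))))))))
noncomputable def l35999 : Lb := (@Lb.d (nat_lit 8) (nat_lit 2) (nat_lit 66) (@Lb.g g9 (@Lb.g g10 (@Lb.g g7 (@Lb.r r2470 (@Lb.r r2136 (@Lb.r r2197 (@Lb.d (nat_lit 420) (nat_lit 128) (nat_lit 290) (@Lb.t (@Lb.fp (nat_lit 9) t6365))))))))))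
noncomputable def l36000 : Lb := (@Lb.d (nat_lit 149) (nat_lit 518) (nat_lit 132) (@Lb.r r21 (@Lb.r r662 (@Lb.r r616 (@Lb.r r387 (@Lb.g g7 (@Lb.g g6 (@Lb.g g5 (@Lb.d (nat_lit 0) (nat_lit 1) (nat_lit 134) (@Lb.t (@Lb.fp (nat_lit 9) t1120)))))))))))
noncomputable def l36001 : Lb := (@Lb.d (nat_lit 17) (nat_lit 362) (nat_lit 100) (@Lb.r r597 (@Lb.r r2567 (@Lb.r r1348 (@Lb.r r2474 (@Lb.g g7 (@Lb.g g6 (@Lb.d (nat_lit 0) (nat_lit 0) (nat_lit 129) (@Lb.fm (nat_lit 3) t5372)))))))))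
noncomputable def l36002 : Lb := (@Lb.d (nat_lit 529) (nat_lit 170) (nat_lit 537) (@Lb.r r2116 (@Lb.r r146 (@Lb.r r345 (@Lb.g g7 (@Lb.g g4 (@Lb.d (nat_lit 5) (nat_lit 0) (nat_lit 648) (@Lb.r r578 (@Lb.fp (nat_lit 3) t6366)))))))))
noncomputable def l36003 : Lb := (@Lb.r r82 (@Lb.d (nat_lit 34) (nat_lit 2) (nat_lit 580) (@Lb.g g8 (@Lb.g g9 (@Lb.g g7 (@Lb.r r418 (@Lb.r r297 (@Lb.r r100 (@Lb.d (nat_lit 297) (nat_lit 73) (nat_lit 9) (@Lb.t (@Lb.fp (nat_lit 9) t6367)))))))))))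
noncomputable def l36004 : Lb := (@Lb.d (nat_lit 24) (nat_lit 617) (nat_lit 594) (@Lb.r r2393 (@Lb.r r2712 (@Lb.r r330 (@Lb.g g7 (@Lb.g g5 (@Lb.g g4 (@Lb.d (nat_lit 17) (nat_lit 4) (nat_lit 648) (@Lb.r r578 (@Lb.t (@Lb.fm (nat_lit 9) t6366)))))))))))
noncomputable def l36005 : Lb := (@Lb.d (nat_lit 0) (nat_lit 8) (nat_lit 137) (@Lb.g g10 (@Lb.g g11 (@Lb.r r101 (@Lb.r r24 (@Lb.d (nat_lit 0) (nat_lit 0) (nat_lit 2) (@Lb.fm (nat_lit 3) t145)))))))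
noncomputable def l36006 : Lb := (@Lb.d (nat_lit 18) (nat_lit 162) (nat_lit 385) (@Lb.r r386 (@Lb.r r531 (@Lb.r r341 (@Lb.g g7 (@Lb.g g6 (@Lb.g g5 (@Lb.g g4 (@Lb.d (nat_lit 1) (nat_lit 17) (nat_lit 129) (@Lb.fp (nat_lit 9) t898))))))))))
noncomputable def l36007 : Lb := (@Lb.d (nat_lit 0) (nat_lit 512) (nat_lit 2) (@Lb.g g9 (@Lb.g g10 (@Lb.r r2193 (@Lb.r r146 (@Lb.d (nat_lit 0) (nat_lit 72) (nat_lit 33) (@Lb.fp (nat_lit 3) t1404)))))))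
noncomputable def l36008 : Lb := (@Lb.r r323 (@Lb.d (nat_lit 0) (nat_lit 400) (nat_lit 2) (@Lb.g g9 (@Lb.g g10 (@Lb.r r1443 (@Lb.r r1410 (@Lb.d (nat_lit 0) (nat_lit 161) (nat_lit 256) (@Lb.fp (nat_lit 3) t4496))))))))
noncomputable def l36009 : Lb := (@Lb.d (nat_lit 0) (nat_lit 520) (nat_lit 137) (@Lb.g g10 (@Lb.g g11 (@Lb.r r1427 (@Lb.d (nat_lit 5) (nat_lit 24) (nat_lit 297) (@Lb.fm (nat_lit 3) t334))))))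
noncomputable def l36010 : Lb := (@Lb.d (nat_lit 5) (nat_lit 641) (nat_lit 256) (@Lb.r r402 (@Lb.g g11 (@Lb.g g6 (@Lb.fm (nat_lit 3) t334)))))
noncomputable def l36011 : Lb := (@Lb.d (nat_lit 0) (nat_lit 24) (nat_lit 136) (@Lb.g g9 (@Lb.g g10 (@Lb.g g11 (@Lb.r r1610 (@Lb.r r1608 (@Lb.r r299 (@Lb.r r2337 (@Lb.d (nat_lit 520) (nat_lit 66) (nat_lit 512) (@Lb.t (@Lb.fm (nat_lit 9) t4546)))))))))))
noncomputable def l36012 : Lb := (@Lb.d (nat_lit 0) (nat_lit 514) (nat_lit 5) (@Lb.g g9 (@Lb.g g10 (@Lb.g g11 (@Lb.r r2467 (@Lb.r r2469 (@Lb.r r2150 (@Lb.r r24 (@Lb.d (nat_lit 98) (nat_lit 0) (nat_lit 420) (@Lb.t (@Lb.fm (nat_lit 9) t288)))))))))))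
noncomputable def l36013 : Lb := (@Lb.d (nat_lit 0) (nat_lit 261) (nat_lit 5) (@Lb.g g9 (@Lb.g g10 (@Lb.g g11 (@Lb.r r419 (@Lb.r r2470 (@Lb.r r1624 (@Lb.r r2341 (@Lb.d (nat_lit 585) (nat_lit 66) (nat_lit 512) (@Lb.t (@Lb.fp (nat_lit 9) t4546)))))))))))
noncomputable def l36014 : Lb := (@Lb.d (nat_lit 0) (nat_lit 264) (nat_lit 5) (@Lb.g g10 (@Lb.g g11 (@Lb.r r403 (@Lb.r r601 (@Lb.r r2406 (@Lb.d (nat_lit 341) (nat_lit 105) (nat_lit 38) (@Lb.fm (nat_lit 3) t5992))))))))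
noncomputable def l36015 : Lb := (@Lb.r r82 (@Lb.d (nat_lit 134) (nat_lit 17) (nat_lit 128) (@Lb.g g8 (@Lb.g g9 (@Lb.g g11 (@Lb.r r2723 (@Lb.r r1606 (@Lb.r r2389 (@Lb.r r2456 (@Lb.d (nat_lit 342) (nat_lit 42) (nat_lit 90) (@Lb.t (@Lb.fm (nat_lit 9) t6368))))))))))))
noncomputable def l36016 : Lb := (@Lb.r r580 (@Lb.d (nat_lit 0) (nat_lit 292) (nat_lit 320) (@Lb.g g9 (@Lb.g g10 (@Lb.g g7 (@Lb.r r1169 (@Lb.r r2450 (@Lb.r r1048 (@Lb.d (nat_lit 10) (nat_lit 41) (nat_lit 5) (@Lb.t (@Lb.fp (nat_lit 9) t6255)))))))))))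
noncomputable def l36017 : Lb := (@Lb.d (nat_lit 102) (nat_lit 5) (nat_lit 74) (@Lb.g g8 (@Lb.g g9 (@Lb.g g10 (@Lb.g g11 (@Lb.r r611 (@Lb.r r1602 (@Lb.r r425 (@Lb.r r2084 (@Lb.d (nat_lit 40) (nat_lit 68) (nat_lit 596) (@Lb.fp (nat_lit 9) t4084)))))))))))
noncomputable def l36018 : Lb := (@Lb.d (nat_lit 32) (nat_lit 512) (nat_lit 10) (@Lb.g g9 (@Lb.g g10 (@Lb.g g11 (@Lb.r r328 (@Lb.r r535 (@Lb.r r1425 (@Lb.r r402 (@Lb.d (nat_lit 401) (nat_lit 26) (nat_lit 132) (@Lb.t (@Lb.fp (nat_lit 9) t188)))))))))))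
noncomputable def l36019 : Lb := (@Lb.d (nat_lit 0) (nat_lit 5) (nat_lit 74) (@Lb.g g9 (@Lb.g g10 (@Lb.g g11 (@Lb.r r419 (@Lb.r r2466 (@Lb.r r1425 (@Lb.d (nat_lit 0) (nat_lit 129) (nat_lit 34) (@Lb.t (@Lb.fp (nat_lit 9) t1465))))))))))
noncomputable def l36020 : Lb := (@Lb.d (nat_lit 102) (nat_lit 256) (nat_lit 73) (@Lb.g g8 (@Lb.g g9 (@Lb.g g10 (@Lb.g g11 (@Lb.r r2691 (@Lb.r r1193 (@Lb.r r1642 (@Lb.r r2084 (@Lb.d (nat_lit 394) (nat_lit 68) (nat_lit 68) (@Lb.fp (nat_lit 9) t2528)))))))))))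
noncomputable def l36021 : Lb := (@Lb.d (nat_lit 32) (nat_lit 0) (nat_lit 90) (@Lb.g g10 (@Lb.g g11 (@Lb.r r2439 (@Lb.d (nat_lit 149) (nat_lit 8) (nat_lit 296) (@Lb.fm (nat_lit 3) t6369))))))
noncomputable def l36022 : Lb := (@Lb.r r260 (@Lb.r r322 (@Lb.d (nat_lit 128) (nat_lit 514) (nat_lit 512) (@Lb.g g9 (@Lb.g g11 (@Lb.r r2662 (@Lb.r r2581 (@Lb.r r1316 (@Lb.d (nat_lit 644) (nat_lit 129) (nat_lit 276) (@Lb.fm (nat_lit 3) t150))))))))))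
noncomputable def l36023 : Lb := (@Lb.d (nat_lit 34) (nat_lit 512) (nat_lit 0) (@Lb.g g8 (@Lb.g g11 (@Lb.r r406 (@Lb.r r2649 (@Lb.r r600 (@Lb.d (nat_lit 401) (nat_lit 34) (nat_lit 153) (@Lb.fm (nat_lit 3) t5713))))))))
noncomputable def l36024 : Lb := (@Lb.d (nat_lit 72) (nat_lit 585) (nat_lit 128) (@Lb.r r1192 (@Lb.r r2713 (@Lb.r r343 (@Lb.g g6 (@Lb.g g5 (@Lb.g g4 (@Lb.d (nat_lit 134) (nat_lit 10) (nat_lit 32) (@Lb.r r387 (@Lb.t (@Lb.fm (nat_lit 9) t2312)))))))))))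
noncomputable def l36025 : Lb := (@Lb.r r260 (@Lb.r r322 (@Lb.d (nat_lit 128) (nat_lit 258) (nat_lit 512) (@Lb.g g9 (@Lb.g g11 (@Lb.r r2662 (@Lb.r r2581 (@Lb.r r1316 (@Lb.d (nat_lit 645) (nat_lit 129) (nat_lit 276) (@Lb.fm (nat_lit 3) t150))))))))))
noncomputable def l36026 : Lb := (@Lb.d (nat_lit 2) (nat_lit 258) (nat_lit 128) (@Lb.g g8 (@Lb.g g9 (@Lb.g g10 (@Lb.g g11 (@Lb.r r1194 (@Lb.r r1177 (@Lb.r r408 (@Lb.r r1287 (@Lb.r r2564 (@Lb.d (nat_lit 1) (nat_lit 36) (nat_lit 602) (@Lb.fp (nat_lit 9) t479))))))))))))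
noncomputable def l36027 : Lb := (@Lb.d (nat_lit 8) (nat_lit 521) (nat_lit 0) (@Lb.g g9 (@Lb.r r2196 (@Lb.r r2454 (@Lb.r r601 (@Lb.d (nat_lit 618) (nat_lit 38) (nat_lit 330) (@Lb.t (@Lb.fm (nat_lit 3) t2428))))))))
noncomputable def l36028 : Lb := (@Lb.d (nat_lit 0) (nat_lit 544) (nat_lit 128) (@Lb.g g11 (@Lb.r r1361 (@Lb.r r1699 (@Lb.r r2178 (@Lb.r r1156 (@Lb.d (nat_lit 0) (nat_lit 24) (nat_lit 425) (@Lb.t (@Lb.fp (nat_lit 3) t2551)))))))))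
noncomputable def l36029 : Lb := (@Lb.r r70 (@Lb.d (nat_lit 41) (nat_lit 513) (nat_lit 128) (@Lb.g g8 (@Lb.g g9 (@Lb.g g11 (@Lb.r r363 (@Lb.r r2630 (@Lb.r r1321 (@Lb.r r2468 (@Lb.d (nat_lit 641) (nat_lit 100) (nat_lit 424) (@Lb.t (@Lb.fp (nat_lit 9) t3800))))))))))))
noncomputable def l36030 : Lb := (@Lb.r r21 (@Lb.d (nat_lit 6) (nat_lit 512) (nat_lit 130) (@Lb.g g8 (@Lb.g g10 (@Lb.g g11 (@Lb.r r2666 (@Lb.r r579 (@Lb.r r25 (@Lb.d (nat_lit 9) (nat_lit 160) (nat_lit 586) (@Lb.t (@Lb.fp (nat_lit 9) t51)))))))))))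
noncomputable def l36031 : Lb := (@Lb.d (nat_lit 144) (nat_lit 0) (nat_lit 130) (@Lb.g g8 (@Lb.g g10 (@Lb.g g11 (@Lb.r r2327 (@Lb.r r676 (@Lb.r r1189 (@Lb.r r1126 (@Lb.d (nat_lit 294) (nat_lit 4) (nat_lit 664) (@Lb.t (@Lb.fp (nat_lit 9) t6370)))))))))))
noncomputable def l36032 : Lb := (@Lb.d (nat_lit 22) (nat_lit 610) (nat_lit 598) (@Lb.r r1158 (@Lb.r r324 (@Lb.r r1691 (@Lb.g g7 (@Lb.g g6 (@Lb.g g9 (@Lb.g g4 (@Lb.d (nat_lit 66) (nat_lit 10) (nat_lit 64) (@Lb.fm (nat_lit 9) t6161))))))))))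
noncomputable def l36033 : Lb := (@Lb.d (nat_lit 146) (nat_lit 2) (nat_lit 128) (@Lb.g g8 (@Lb.g g9 (@Lb.g g10 (@Lb.g g11 (@Lb.r r2722 (@Lb.r r2439 (@Lb.r r145 (@Lb.r r2632 (@Lb.d (nat_lit 617) (nat_lit 130) (nat_lit 426) (@Lb.fp (nat_lit 9) t472)))))))))))
noncomputable def l36034 : Lb := (@Lb.d (nat_lit 144) (nat_lit 288) (nat_lit 162) (@Lb.g g8 (@Lb.g g10 (@Lb.g g11 (@Lb.r r2401 (@Lb.r r659 (@Lb.r r2180 (@Lb.d (nat_lit 98) (nat_lit 32) (nat_lit 677) (@Lb.t (@Lb.fm (nat_lit 9) t6200))))))))))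
noncomputable def l36035 : Lb := (@Lb.d (nat_lit 2) (nat_lit 2) (nat_lit 130) (@Lb.g g8 (@Lb.g g9 (@Lb.g g10 (@Lb.g g11 (@Lb.r r2666 (@Lb.r r579 (@Lb.r r97 (@Lb.r r24 (@Lb.d (nat_lit 152) (nat_lit 2) (nat_lit 388) (@Lb.fm (nat_lit 9) t263)))))))))))
noncomputable def l36036 : Lb := (@Lb.d (nat_lit 422) (nat_lit 324) (nat_lit 537) (@Lb.r r1626 (@Lb.r r1608 (@Lb.r r1355 (@Lb.g g6 (@Lb.g g9 (@Lb.d (nat_lit 16) (nat_lit 134) (nat_lit 2) (@Lb.fm (nat_lit 3) t4042))))))))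
noncomputable def l36037 : Lb := (@Lb.d (nat_lit 128) (nat_lit 0) (nat_lit 64) (@Lb.g g11 (@Lb.r r134 (@Lb.r r264 (@Lb.r r599 (@Lb.r r289 (@Lb.d (nat_lit 26) (nat_lit 74) (nat_lit 66) (@Lb.t (@Lb.fp (nat_lit 3) t369)))))))))
noncomputable def l36038 : Lb := (@Lb.d (nat_lit 354) (nat_lit 262) (nat_lit 166) (@Lb.r r1636 (@Lb.r r2069 (@Lb.r r422 (@Lb.g g7 (@Lb.g g5 (@Lb.g g4 (@Lb.d (nat_lit 72) (nat_lit 0) (nat_lit 644) (@Lb.r r98 (@Lb.t (@Lb.fm (nat_lit 9) t3472)))))))))))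
noncomputable def l36039 : Lb := (@Lb.d (nat_lit 2) (nat_lit 256) (nat_lit 74) (@Lb.g g8 (@Lb.g g10 (@Lb.g g11 (@Lb.r r1618 (@Lb.r r1433 (@Lb.r r1639 (@Lb.r r24 (@Lb.d (nat_lit 410) (nat_lit 82) (nat_lit 298) (@Lb.t (@Lb.fm (nat_lit 9) t521)))))))))))
noncomputable def l36040 : Lb := (@Lb.d (nat_lit 0) (nat_lit 512) (nat_lit 74) (@Lb.g g10 (@Lb.g g11 (@Lb.r r2694 (@Lb.r r328 (@Lb.r r535 (@Lb.r r289 (@Lb.d (nat_lit 262) (nat_lit 2) (nat_lit 0) (@Lb.fm (nat_lit 3) t51)))))))))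
noncomputable def l36041 : Lb := (@Lb.d (nat_lit 32) (nat_lit 264) (nat_lit 74) (@Lb.g g10 (@Lb.g g11 (@Lb.r r661 (@Lb.r r2664 (@Lb.r r2411 (@Lb.r r2714 (@Lb.d (nat_lit 102) (nat_lit 98) (nat_lit 405) (@Lb.fm (nat_lit 3) t40)))))))))
noncomputable def l36042 : Lb := (@Lb.d (nat_lit 409) (nat_lit 613) (nat_lit 534) (@Lb.r r342 (@Lb.r r1707 (@Lb.g g6 (@Lb.g g5 (@Lb.g g4 (@Lb.d (nat_lit 544) (nat_lit 136) (nat_lit 2) (@Lb.t (@Lb.fm (nat_lit 9) t40)))))))))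
noncomputable def l36043 : Lb := (@Lb.d (nat_lit 9) (nat_lit 37) (nat_lit 64) (@Lb.g g8 (@Lb.g g9 (@Lb.g g10 (@Lb.g g11 (@Lb.r r1190 (@Lb.r r164 (@Lb.r r2709 (@Lb.r r2451 (@Lb.d (nat_lit 545) (nat_lit 154) (nat_lit 128) (@Lb.fm (nat_lit 9) t1050)))))))))))
noncomputable def l36044 : Lb := (@Lb.r r323 (@Lb.d (nat_lit 2) (nat_lit 258) (nat_lit 1) (@Lb.g g8 (@Lb.g g9 (@Lb.g g6 (@Lb.r r515 (@Lb.r r104 (@Lb.r r25 (@Lb.d (nat_lit 522) (nat_lit 89) (nat_lit 272) (@Lb.t (@Lb.fp (nat_lit 9) t845)))))))))))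
noncomputable def l36045 : Lb := (@Lb.d (nat_lit 0) (nat_lit 337) (nat_lit 282) (@Lb.r r2213 (@Lb.r r2178 (@Lb.r r1639 (@Lb.r r2456 (@Lb.g g7 (@Lb.d (nat_lit 64) (nat_lit 0) (nat_lit 128) (@Lb.t (@Lb.fm (nat_lit 3) t124)))))))))
noncomputable def l36046 : Lb := (@Lb.r r82 (@Lb.d (nat_lit 9) (nat_lit 0) (nat_lit 0) (@Lb.g g8 (@Lb.g g9 (@Lb.r r2664 (@Lb.r r614 (@Lb.r r1379 (@Lb.r r1369 (@Lb.d (nat_lit 38) (nat_lit 133) (nat_lit 152) (@Lb.fp (nat_lit 3) t125))))))))))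
noncomputable def l36047 : Lb := (@Lb.r r326 (@Lb.d (nat_lit 273) (nat_lit 544) (nat_lit 128) (@Lb.g g8 (@Lb.g g11 (@Lb.r r289 (@Lb.r r2579 (@Lb.r r1098 (@Lb.d (nat_lit 610) (nat_lit 164) (nat_lit 146) (@Lb.fm (nat_lit 3) t6200)))))))))
noncomputable def l36048 : Lb := (@Lb.d (nat_lit 137) (nat_lit 257) (nat_lit 2) (@Lb.g g8 (@Lb.g g9 (@Lb.g g10 (@Lb.r r2691 (@Lb.r r2217 (@Lb.r r2666 (@Lb.r r104 (@Lb.d (nat_lit 676) (nat_lit 10) (nat_lit 260) (@Lb.t (@Lb.fp (nat_lit 9) t242)))))))))))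
noncomputable def l36049 : Lb := (@Lb.d (nat_lit 586) (nat_lit 162) (nat_lit 416) (@Lb.r r101 (@Lb.g g7 (@Lb.t (@Lb.fp (nat_lit 3) t4062)))))
noncomputable def l36050 : Lb := (@Lb.d (nat_lit 586) (nat_lit 674) (nat_lit 288) (@Lb.r r101 (@Lb.g g7 (@Lb.t (@Lb.fp (nat_lit 3) t4062)))))
noncomputable def l36051 : Lb := (@Lb.r r81 (@Lb.d (nat_lit 161) (nat_lit 260) (nat_lit 40) (@Lb.g g8 (@Lb.g g6 (@Lb.r r361 (@Lb.r r535 (@Lb.r r296 (@Lb.d (nat_lit 133) (nat_lit 34) (nat_lit 129) (@Lb.fm (nat_lit 3) t98)))))))))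
noncomputable def l36052 : Lb := (@Lb.d (nat_lit 421) (nat_lit 17) (nat_lit 26) (@Lb.r r134 (@Lb.r r539 (@Lb.r r532 (@Lb.r r281 (@Lb.g g7 (@Lb.g g5 (@Lb.d (nat_lit 64) (nat_lit 1) (nat_lit 128) (@Lb.fm (nat_lit 3) t744)))))))))
noncomputable def l36053 : Lb := (@Lb.d (nat_lit 64) (nat_lit 289) (nat_lit 258) (@Lb.g g9 (@Lb.g g10 (@Lb.g g7 (@Lb.r r1450 (@Lb.r r2201 (@Lb.d (nat_lit 37) (nat_lit 40) (nat_lit 530) (@Lb.t (@Lb.fm (nat_lit 9) t58)))))))))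
noncomputable def l36054 : Lb := (@Lb.d (nat_lit 128) (nat_lit 2) (nat_lit 64) (@Lb.g g9 (@Lb.g g11 (@Lb.r r264 (@Lb.r r2583 (@Lb.r r146 (@Lb.r r97 (@Lb.d (nat_lit 666) (nat_lit 24) (nat_lit 258) (@Lb.fm (nat_lit 3) t71)))))))))
noncomputable def l36055 : Lb := (@Lb.d (nat_lit 0) (nat_lit 265) (nat_lit 72) (@Lb.g g8 (@Lb.g g9 (@Lb.g g11 (@Lb.r r106 (@Lb.r r612 (@Lb.r r2583 (@Lb.r r1313 (@Lb.d (nat_lit 10) (nat_lit 130) (nat_lit 640) (@Lb.t (@Lb.fm (nat_lit 9) t71)))))))))))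
noncomputable def l36056 : Lb := (@Lb.r r21 (@Lb.d (nat_lit 144) (nat_lit 256) (nat_lit 128) (@Lb.g g8 (@Lb.g g10 (@Lb.g g11 (@Lb.r r2706 (@Lb.r r1415 (@Lb.r r97 (@Lb.r r584 (@Lb.d (nat_lit 360) (nat_lit 66) (nat_lit 154) (@Lb.t (@Lb.fp (nat_lit 9) t1666))))))))))))
noncomputable def l36057 : Lb := (@Lb.d (nat_lit 418) (nat_lit 0) (nat_lit 517) (@Lb.r r24 (@Lb.r r1639 (@Lb.r r1637 (@Lb.g g7 (@Lb.g g10 (@Lb.d (nat_lit 0) (nat_lit 0) (nat_lit 150) (@Lb.r r145 (@Lb.fm (nat_lit 3) t719)))))))))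
noncomputable def l36058 : Lb := (@Lb.d (nat_lit 0) (nat_lit 521) (nat_lit 72) (@Lb.g g8 (@Lb.g g9 (@Lb.g g11 (@Lb.r r106 (@Lb.r r612 (@Lb.r r2583 (@Lb.r r1313 (@Lb.d (nat_lit 9) (nat_lit 130) (nat_lit 640) (@Lb.t (@Lb.fm (nat_lit 9) t71)))))))))))
noncomputable def l36059 : Lb := (@Lb.d (nat_lit 128) (nat_lit 258) (nat_lit 64) (@Lb.g g9 (@Lb.g g11 (@Lb.r r533 (@Lb.r r292 (@Lb.r r539 (@Lb.r r134 (@Lb.d (nat_lit 597) (nat_lit 33) (nat_lit 37) (@Lb.fm (nat_lit 3) t564)))))))))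
noncomputable def l36060 : Lb := (@Lb.d (nat_lit 422) (nat_lit 401) (nat_lit 337) (@Lb.r r1556 (@Lb.r r1431 (@Lb.r r2665 (@Lb.g g7 (@Lb.g g10 (@Lb.g g5 (@Lb.g g4 (@Lb.d (nat_lit 104) (nat_lit 0) (nat_lit 65) (@Lb.fp (nat_lit 9) t1526))))))))))
noncomputable def l36061 : Lb := (@Lb.d (nat_lit 1) (nat_lit 512) (nat_lit 102) (@Lb.r r2579 (@Lb.r r2465 (@Lb.r r2154 (@Lb.r r84 (@Lb.g g9 (@Lb.d (nat_lit 4) (nat_lit 1) (nat_lit 0) (@Lb.t (@Lb.fp (nat_lit 3) t5)))))))))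
noncomputable def l36062 : Lb := (@Lb.r r21 (@Lb.d (nat_lit 146) (nat_lit 544) (nat_lit 320) (@Lb.g g8 (@Lb.g g10 (@Lb.g g11 (@Lb.r r2729 (@Lb.r r2726 (@Lb.r r152 (@Lb.d (nat_lit 340) (nat_lit 74) (nat_lit 386) (@Lb.t (@Lb.fp (nat_lit 9) t501)))))))))))
noncomputable def l36063 : Lb := (@Lb.d (nat_lit 2) (nat_lit 256) (nat_lit 0) (@Lb.g g8 (@Lb.r r425 (@Lb.r r1442 (@Lb.r r1371 (@Lb.r r2705 (@Lb.d (nat_lit 2) (nat_lit 10) (nat_lit 2) (@Lb.t (@Lb.fp (nat_lit 3) t6371)))))))))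
noncomputable def l36064 : Lb := (@Lb.r r82 (@Lb.d (nat_lit 32) (nat_lit 10) (nat_lit 128) (@Lb.g g8 (@Lb.g g9 (@Lb.g g11 (@Lb.r r402 (@Lb.r r359 (@Lb.r r660 (@Lb.r r169 (@Lb.d (nat_lit 538) (nat_lit 18) (nat_lit 152) (@Lb.t (@Lb.fm (nat_lit 9) t2042))))))))))))
noncomputable def l36065 : Lb := (@Lb.d (nat_lit 8) (nat_lit 513) (nat_lit 10) (@Lb.g g9 (@Lb.g g10 (@Lb.g g11 (@Lb.r r166 (@Lb.r r596 (@Lb.r r1607 (@Lb.r r2577 (@Lb.d (nat_lit 401) (nat_lit 162) (nat_lit 292) (@Lb.t (@Lb.fm (nat_lit 9) t572)))))))))))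
noncomputable def l36066 : Lb := (@Lb.r r331 (@Lb.d (nat_lit 32) (nat_lit 2) (nat_lit 2) (@Lb.g g8 (@Lb.g g9 (@Lb.g g10 (@Lb.r r683 (@Lb.r r86 (@Lb.r r1109 (@Lb.r r2196 (@Lb.d (nat_lit 82) (nat_lit 137) (nat_lit 514) (@Lb.t (@Lb.fp (nat_lit 9) t1606))))))))))))
noncomputable def l36067 : Lb := (@Lb.d (nat_lit 16) (nat_lit 2) (nat_lit 0) (@Lb.g g8 (@Lb.g g9 (@Lb.g g10 (@Lb.g g7 (@Lb.r r1193 (@Lb.r r1188 (@Lb.r r390 (@Lb.d (nat_lit 98) (nat_lit 154) (nat_lit 9) (@Lb.fm (nat_lit 9) t2020))))))))))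
noncomputable def l36068 : Lb := (@Lb.r r82 (@Lb.d (nat_lit 1) (nat_lit 258) (nat_lit 128) (@Lb.g g8 (@Lb.g g9 (@Lb.g g11 (@Lb.r r657 (@Lb.r r1687 (@Lb.r r146 (@Lb.r r2436 (@Lb.d (nat_lit 152) (nat_lit 4) (nat_lit 394) (@Lb.t (@Lb.fm (nat_lit 9) t4168))))))))))))
noncomputable def l36069 : Lb := (@Lb.d (nat_lit 32) (nat_lit 129) (nat_lit 74) (@Lb.g g9 (@Lb.g g10 (@Lb.g g11 (@Lb.r r344 (@Lb.r r679 (@Lb.r r2658 (@Lb.d (nat_lit 292) (nat_lit 85) (nat_lit 288) (@Lb.t (@Lb.fm (nat_lit 9) t578))))))))))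
noncomputable def l36070 : Lb := (@Lb.r r82 (@Lb.d (nat_lit 2) (nat_lit 514) (nat_lit 128) (@Lb.g g8 (@Lb.g g9 (@Lb.g g11 (@Lb.r r657 (@Lb.r r1687 (@Lb.r r146 (@Lb.r r2436 (@Lb.d (nat_lit 145) (nat_lit 5) (nat_lit 394) (@Lb.t (@Lb.fm (nat_lit 9) t460))))))))))))
noncomputable def l36071 : Lb := (@Lb.d (nat_lit 21) (nat_lit 520) (nat_lit 34) (@Lb.r r90 (@Lb.r r596 (@Lb.r r599 (@Lb.g g6 (@Lb.g g5 (@Lb.d (nat_lit 0) (nat_lit 17) (nat_lit 1) (@Lb.r r387 (@Lb.fp (nat_lit 3) t546)))))))))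
noncomputable def l36072 : Lb := (@Lb.g g11 (@Lb.r r154 (@Lb.r r660 (@Lb.r r535 (@Lb.r r289 (@Lb.d (nat_lit 0) (nat_lit 536) (nat_lit 66) (@Lb.t (@Lb.fm (nat_lit 3) t51))))))))
noncomputable def l36073 : Lb := (@Lb.d (nat_lit 128) (nat_lit 256) (nat_lit 64) (@Lb.g g11 (@Lb.r r1572 (@Lb.r r2325 (@Lb.r r555 (@Lb.r r2178 (@Lb.d (nat_lit 68) (nat_lit 17) (nat_lit 517) (@Lb.t (@Lb.fp (nat_lit 3) t6372)))))))))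
noncomputable def l36074 : Lb := (@Lb.r r331 (@Lb.d (nat_lit 2) (nat_lit 258) (nat_lit 2) (@Lb.g g8 (@Lb.g g9 (@Lb.g g10 (@Lb.r r2210 (@Lb.r r2600 (@Lb.r r665 (@Lb.r r2579 (@Lb.d (nat_lit 82) (nat_lit 138) (nat_lit 281) (@Lb.t (@Lb.fp (nat_lit 9) t5276))))))))))))
noncomputable def l36075 : Lb := (@Lb.d (nat_lit 2) (nat_lit 2) (nat_lit 74) (@Lb.g g8 (@Lb.g g9 (@Lb.g g10 (@Lb.g g11 (@Lb.r r1194 (@Lb.r r680 (@Lb.r r555 (@Lb.r r1573 (@Lb.r r1044 (@Lb.d (nat_lit 394) (nat_lit 138) (nat_lit 329) (@Lb.fp (nat_lit 9) t1406))))))))))))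
noncomputable def l36076 : Lb := (@Lb.d (nat_lit 97) (nat_lit 516) (nat_lit 74) (@Lb.g g8 (@Lb.g g9 (@Lb.g g10 (@Lb.g g11 (@Lb.r r2691 (@Lb.r r2134 (@Lb.r r1313 (@Lb.r r2644 (@Lb.d (nat_lit 598) (nat_lit 85) (nat_lit 342) (@Lb.fp (nat_lit 9) t3702)))))))))))
noncomputable def l36077 : Lb := (@Lb.r r322 (@Lb.d (nat_lit 0) (nat_lit 544) (nat_lit 128) (@Lb.g g11 (@Lb.r r24 (@Lb.r r357 (@Lb.r r1626 (@Lb.d (nat_lit 24) (nat_lit 2) (nat_lit 400) (@Lb.t (@Lb.fp (nat_lit 3) t3207)))))))))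
noncomputable def l36078 : Lb := (@Lb.d (nat_lit 2) (nat_lit 258) (nat_lit 74) (@Lb.g g8 (@Lb.g g9 (@Lb.g g10 (@Lb.g g11 (@Lb.r r2210 (@Lb.r r292 (@Lb.r r405 (@Lb.r r619 (@Lb.r r2084 (@Lb.d (nat_lit 618) (nat_lit 9) (nat_lit 20) (@Lb.fp (nat_lit 9) t6373))))))))))))
noncomputable def l36079 : Lb := (@Lb.d (nat_lit 2) (nat_lit 2) (nat_lit 74) (@Lb.g g8 (@Lb.g g9 (@Lb.g g10 (@Lb.g g11 (@Lb.r r2210 (@Lb.r r292 (@Lb.r r405 (@Lb.r r619 (@Lb.r r2084 (@Lb.d (nat_lit 608) (nat_lit 10) (nat_lit 20) (@Lb.fp (nat_lit 9) t590))))))))))))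
noncomputable def l36080 : Lb := (@Lb.d (nat_lit 9) (nat_lit 292) (nat_lit 362) (@Lb.r r578 (@Lb.r r1431 (@Lb.r r661 (@Lb.g g7 (@Lb.g g6 (@Lb.g g8 (@Lb.d (nat_lit 354) (nat_lit 4) (nat_lit 10) (@Lb.r r601 (@Lb.t (@Lb.fm (nat_lit 9) t329)))))))))))
noncomputable def l36081 : Lb := (@Lb.d (nat_lit 128) (nat_lit 528) (nat_lit 384) (@Lb.g g10 (@Lb.g g11 (@Lb.r r1304 (@Lb.r r101 (@Lb.r r154 (@Lb.d (nat_lit 66) (nat_lit 0) (nat_lit 656) (@Lb.fp (nat_lit 3) t6374))))))))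
noncomputable def l36082 : Lb := (@Lb.r r70 (@Lb.r r263 (@Lb.d (nat_lit 2) (nat_lit 258) (nat_lit 0) (@Lb.g g8 (@Lb.g g9 (@Lb.r r279 (@Lb.r r86 (@Lb.r r40 (@Lb.r r25 (@Lb.d (nat_lit 538) (nat_lit 8) (nat_lit 16) (@Lb.fp (nat_lit 3) t589)))))))))))
noncomputable def l36083 : Lb := (@Lb.d (nat_lit 5) (nat_lit 341) (nat_lit 514) (@Lb.r r289 (@Lb.r r279 (@Lb.r r584 (@Lb.g g6 (@Lb.d (nat_lit 16) (nat_lit 0) (nat_lit 1) (@Lb.r r387 (@Lb.t (@Lb.fm (nat_lit 3) t6375)))))))))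
noncomputable def l36084 : Lb := (@Lb.d (nat_lit 32) (nat_lit 512) (nat_lit 130) (@Lb.g g9 (@Lb.g g10 (@Lb.g g11 (@Lb.r r2323 (@Lb.r r1685 (@Lb.r r100 (@Lb.r r602 (@Lb.d (nat_lit 356) (nat_lit 129) (nat_lit 137) (@Lb.t (@Lb.fm (nat_lit 9) t3567)))))))))))
noncomputable def l36085 : Lb := (@Lb.r r346 (@Lb.d (nat_lit 70) (nat_lit 264) (nat_lit 320) (@Lb.g g8 (@Lb.g g9 (@Lb.g g7 (@Lb.r r2450 (@Lb.r r1121 (@Lb.r r1700 (@Lb.d (nat_lit 426) (nat_lit 40) (nat_lit 137) (@Lb.t (@Lb.fp (nat_lit 9) t6376)))))))))))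
noncomputable def l36086 : Lb := (@Lb.d (nat_lit 5) (nat_lit 0) (nat_lit 130) (@Lb.g g8 (@Lb.g g9 (@Lb.g g10 (@Lb.g g11 (@Lb.r r340 (@Lb.r r1611 (@Lb.r r1366 (@Lb.r r421 (@Lb.r r1556 (@Lb.d (nat_lit 600) (nat_lit 20) (nat_lit 282) (@Lb.fp (nat_lit 9) t6377))))))))))))
noncomputable def l36087 : Lb := (@Lb.d (nat_lit 32) (nat_lit 0) (nat_lit 130) (@Lb.g g9 (@Lb.g g10 (@Lb.g g11 (@Lb.r r2323 (@Lb.r r1685 (@Lb.r r100 (@Lb.r r602 (@Lb.d (nat_lit 357) (nat_lit 129) (nat_lit 2) (@Lb.t (@Lb.fm (nat_lit 9) t3567)))))))))))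
noncomputable def l36088 : Lb := (@Lb.d (nat_lit 538) (nat_lit 258) (nat_lit 8) (@Lb.g g8 (@Lb.g g9 (@Lb.g g10 (@Lb.r r1559 (@Lb.r r617 (@Lb.r r658 (@Lb.d (nat_lit 145) (nat_lit 162) (nat_lit 82) (@Lb.t (@Lb.fp (nat_lit 9) t6378))))))))))
noncomputable def l36089 : Lb := (@Lb.d (nat_lit 614) (nat_lit 32) (nat_lit 153) (@Lb.r r97 (@Lb.r r323 (@Lb.r r598 (@Lb.g g6 (@Lb.g g5 (@Lb.g g4 (@Lb.d (nat_lit 1) (nat_lit 1) (nat_lit 1) (@Lb.r r387 (@Lb.t (@Lb.fm (nat_lit 9) t6379)))))))))))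
noncomputable def l36090 : Lb := (@Lb.d (nat_lit 538) (nat_lit 22) (nat_lit 82) (@Lb.r r386 (@Lb.r r339 (@Lb.g g7 (@Lb.g g6 (@Lb.g g5 (@Lb.g g8 (@Lb.d (nat_lit 2) (nat_lit 129) (nat_lit 65) (@Lb.fp (nat_lit 9) t978)))))))))
noncomputable def l36091 : Lb := (@Lb.d (nat_lit 32) (nat_lit 0) (nat_lit 66) (@Lb.g g10 (@Lb.g g11 (@Lb.r r423 (@Lb.r r2197 (@Lb.r r100 (@Lb.r r602 (@Lb.d (nat_lit 617) (nat_lit 149) (nat_lit 640) (@Lb.fm (nat_lit 3) t6380)))))))))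
noncomputable def l36092 : Lb := (@Lb.r r21 (@Lb.d (nat_lit 33) (nat_lit 288) (nat_lit 73) (@Lb.g g8 (@Lb.g g10 (@Lb.g g11 (@Lb.r r1162 (@Lb.r r2149 (@Lb.r r1412 (@Lb.r r411 (@Lb.d (nat_lit 152) (nat_lit 86) (nat_lit 517) (@Lb.t (@Lb.fm (nat_lit 9) t74))))))))))))
noncomputable def l36093 : Lb := (@Lb.d (nat_lit 1) (nat_lit 512) (nat_lit 101) (@Lb.r r1635 (@Lb.r r601 (@Lb.r r2132 (@Lb.r r1162 (@Lb.g g5 (@Lb.g g4 (@Lb.d (nat_lit 8) (nat_lit 2) (nat_lit 0) (@Lb.fm (nat_lit 3) t6381)))))))))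
noncomputable def l36094 : Lb := (@Lb.d (nat_lit 130) (nat_lit 8) (nat_lit 258) (@Lb.g g8 (@Lb.g g10 (@Lb.g g7 (@Lb.r r1412 (@Lb.d (nat_lit 352) (nat_lit 2) (nat_lit 25) (@Lb.t (@Lb.fp (nat_lit 9) t5965))))))))
noncomputable def l36095 : Lb := (@Lb.g g6 (@Lb.g g7 (@Lb.r r594 (@Lb.d (nat_lit 0) (nat_lit 536) (nat_lit 132) (@Lb.fm (nat_lit 3) t134)))))
noncomputable def l36096 : Lb := (@Lb.d (nat_lit 0) (nat_lit 256) (nat_lit 66) (@Lb.g g8 (@Lb.g g10 (@Lb.g g7 (@Lb.r r136 (@Lb.r r426 (@Lb.r r289 (@Lb.r r132 (@Lb.d (nat_lit 70) (nat_lit 160) (nat_lit 320) (@Lb.t (@Lb.fm (nat_lit 9) t668)))))))))))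
noncomputable def l36097 : Lb := (@Lb.d (nat_lit 0) (nat_lit 0) (nat_lit 2) (@Lb.g g5 (@Lb.g g10 (@Lb.g g7 (@Lb.r r386 (@Lb.d (nat_lit 0) (nat_lit 0) (nat_lit 9) (@Lb.t (@Lb.fp (nat_lit 9) t2))))))))
noncomputable def l36098 : Lb := (@Lb.d (nat_lit 0) (nat_lit 2) (nat_lit 66) (@Lb.g g8 (@Lb.g g9 (@Lb.g g10 (@Lb.g g7 (@Lb.r r2466 (@Lb.r r1688 (@Lb.r r2469 (@Lb.d (nat_lit 618) (nat_lit 130) (nat_lit 345) (@Lb.fp (nat_lit 9) t6382))))))))))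
noncomputable def l36099 : Lb := (@Lb.d (nat_lit 289) (nat_lit 256) (nat_lit 0) (@Lb.g g4 (@Lb.r r593 (@Lb.r r1363 (@Lb.r r2178 (@Lb.r r529 (@Lb.d (nat_lit 288) (nat_lit 66) (nat_lit 2) (@Lb.t (@Lb.fp (nat_lit 3) t2551)))))))))
noncomputable def l36100 : Lb := (@Lb.r r82 (@Lb.d (nat_lit 4) (nat_lit 513) (nat_lit 0) (@Lb.g g8 (@Lb.g g9 (@Lb.r r1177 (@Lb.r r2454 (@Lb.r r1608 (@Lb.d (nat_lit 656) (nat_lit 0) (nat_lit 394) (@Lb.fm (nat_lit 3) t2605)))))))))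
noncomputable def l36101 : Lb := (@Lb.d (nat_lit 154) (nat_lit 1) (nat_lit 384) (@Lb.g g8 (@Lb.g g9 (@Lb.g g10 (@Lb.g g11 (@Lb.r r1602 (@Lb.r r409 (@Lb.r r404 (@Lb.d (nat_lit 101) (nat_lit 26) (nat_lit 394) (@Lb.fp (nat_lit 9) t650))))))))))
noncomputable def l36102 : Lb := (@Lb.d (nat_lit 32) (nat_lit 513) (nat_lit 64) (@Lb.g g9 (@Lb.g g10 (@Lb.g g11 (@Lb.r r328 (@Lb.r r423 (@Lb.r r2710 (@Lb.r r401 (@Lb.d (nat_lit 26) (nat_lit 42) (nat_lit 137) (@Lb.t (@Lb.fm (nat_lit 9) t479)))))))))))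
noncomputable def l36103 : Lb := (@Lb.d (nat_lit 64) (nat_lit 38) (nat_lit 576) (@Lb.g g8 (@Lb.g g9 (@Lb.g g10 (@Lb.g g7 (@Lb.r r386 (@Lb.r r105 (@Lb.r r2408 (@Lb.d (nat_lit 166) (nat_lit 106) (nat_lit 641) (@Lb.fp (nat_lit 9) t6383))))))))))
noncomputable def l36104 : Lb := (@Lb.d (nat_lit 4) (nat_lit 257) (nat_lit 0) (@Lb.g g5 (@Lb.r r1126 (@Lb.r r24 (@Lb.d (nat_lit 580) (nat_lit 65) (nat_lit 512) (@Lb.t (@Lb.fp (nat_lit 3) t282)))))))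
noncomputable def l36105 : Lb := (@Lb.d (nat_lit 65) (nat_lit 37) (nat_lit 102) (@Lb.r r408 (@Lb.r r82 (@Lb.r r599 (@Lb.g g6 (@Lb.g g5 (@Lb.g g4 (@Lb.d (nat_lit 66) (nat_lit 17) (nat_lit 0) (@Lb.r r387 (@Lb.t (@Lb.fp (nat_lit 9) t242)))))))))))
noncomputable def l36106 : Lb := (@Lb.d (nat_lit 134) (nat_lit 662) (nat_lit 256) (@Lb.r r1560 (@Lb.r r97 (@Lb.r r1643 (@Lb.g g7 (@Lb.g g10 (@Lb.g g5 (@Lb.g g4 (@Lb.d (nat_lit 18) (nat_lit 8) (nat_lit 65) (@Lb.fp (nat_lit 9) t715))))))))))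
noncomputable def l36107 : Lb := (@Lb.d (nat_lit 32) (nat_lit 257) (nat_lit 64) (@Lb.g g9 (@Lb.g g10 (@Lb.g g11 (@Lb.r r328 (@Lb.r r423 (@Lb.r r2710 (@Lb.r r401 (@Lb.d (nat_lit 24) (nat_lit 42) (nat_lit 137) (@Lb.t (@Lb.fm (nat_lit 9) t479)))))))))))
noncomputable def l36108 : Lb := (@Lb.d (nat_lit 128) (nat_lit 257) (nat_lit 384) (@Lb.g g9 (@Lb.g g10 (@Lb.g g11 (@Lb.r r1606 (@Lb.r r153 (@Lb.d (nat_lit 257) (nat_lit 149) (nat_lit 649) (@Lb.t (@Lb.fm (nat_lit 9) t6384)))))))))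
noncomputable def l36109 : Lb := (@Lb.r r21 (@Lb.r r70 (@Lb.d (nat_lit 0) (nat_lit 512) (nat_lit 128) (@Lb.g g8 (@Lb.g g11 (@Lb.r r2311 (@Lb.r r1348 (@Lb.r r74 (@Lb.r r25 (@Lb.d (nat_lit 17) (nat_lit 0) (nat_lit 138) (@Lb.fm (nat_lit 3) t6385)))))))))))
noncomputable def l36110 : Lb := (@Lb.d (nat_lit 4) (nat_lit 261) (nat_lit 0) (@Lb.g g8 (@Lb.g g9 (@Lb.g g10 (@Lb.r r683 (@Lb.r r2666 (@Lb.r r1045 (@Lb.r r24 (@Lb.d (nat_lit 102) (nat_lit 130) (nat_lit 9) (@Lb.t (@Lb.fm (nat_lit 9) t979)))))))))))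
noncomputable def l36111 : Lb := (@Lb.r r70 (@Lb.d (nat_lit 5) (nat_lit 0) (nat_lit 128) (@Lb.g g8 (@Lb.g g9 (@Lb.g g11 (@Lb.r r2327 (@Lb.r r2725 (@Lb.r r1450 (@Lb.r r1380 (@Lb.d (nat_lit 360) (nat_lit 170) (nat_lit 138) (@Lb.t (@Lb.fm (nat_lit 9) t6385))))))))))))
noncomputable def l36112 : Lb := (@Lb.r r355 (@Lb.d (nat_lit 4) (nat_lit 258) (nat_lit 0) (@Lb.g g8 (@Lb.g g9 (@Lb.g g10 (@Lb.r r683 (@Lb.r r1642 (@Lb.r r2649 (@Lb.d (nat_lit 361) (nat_lit 37) (nat_lit 9) (@Lb.t (@Lb.fp (nat_lit 9) t2714)))))))))))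
noncomputable def l36113 : Lb := (@Lb.r r82 (@Lb.d (nat_lit 32) (nat_lit 545) (nat_lit 64) (@Lb.g g8 (@Lb.g g9 (@Lb.g g11 (@Lb.r r1571 (@Lb.r r582 (@Lb.r r1445 (@Lb.r r408 (@Lb.d (nat_lit 346) (nat_lit 26) (nat_lit 324) (@Lb.t (@Lb.fp (nat_lit 9) t1244))))))))))))
noncomputable def l36114 : Lb := (@Lb.d (nat_lit 0) (nat_lit 34) (nat_lit 0) (@Lb.g g8 (@Lb.g g9 (@Lb.r r356 (@Lb.r r667 (@Lb.r r2178 (@Lb.r r1445 (@Lb.d (nat_lit 426) (nat_lit 161) (nat_lit 90) (@Lb.fp (nat_lit 3) t1561)))))))))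
noncomputable def l36115 : Lb := (@Lb.d (nat_lit 37) (nat_lit 0) (nat_lit 130) (@Lb.g g8 (@Lb.g g9 (@Lb.g g10 (@Lb.g g11 (@Lb.r r1366 (@Lb.r r2711 (@Lb.r r1553 (@Lb.r r612 (@Lb.d (nat_lit 518) (nat_lit 25) (nat_lit 401) (@Lb.fm (nat_lit 9) t3614)))))))))))
noncomputable def l36116 : Lb := (@Lb.r r273 (@Lb.r r322 (@Lb.d (nat_lit 2) (nat_lit 256) (nat_lit 320) (@Lb.g g8 (@Lb.g g7 (@Lb.r r280 (@Lb.r r101 (@Lb.r r146 (@Lb.d (nat_lit 0) (nat_lit 10) (nat_lit 513) (@Lb.fm (nat_lit 3) t3049))))))))))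
noncomputable def l36117 : Lb := (@Lb.d (nat_lit 0) (nat_lit 517) (nat_lit 0) (@Lb.g g8 (@Lb.g g5 (@Lb.g g7 (@Lb.r r402 (@Lb.d (nat_lit 0) (nat_lit 6) (nat_lit 133) (@Lb.t (@Lb.fp (nat_lit 9) t311))))))))
noncomputable def l36118 : Lb := (@Lb.d (nat_lit 0) (nat_lit 258) (nat_lit 64) (@Lb.g g9 (@Lb.g g11 (@Lb.r r529 (@Lb.r r663 (@Lb.r r328 (@Lb.r r134 (@Lb.d (nat_lit 538) (nat_lit 2) (nat_lit 16) (@Lb.fp (nat_lit 3) t61)))))))))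
noncomputable def l36119 : Lb := (@Lb.d (nat_lit 134) (nat_lit 662) (nat_lit 256) (@Lb.r r1560 (@Lb.r r97 (@Lb.r r1643 (@Lb.g g7 (@Lb.g g10 (@Lb.g g5 (@Lb.g g4 (@Lb.d (nat_lit 25) (nat_lit 0) (nat_lit 66) (@Lb.fp (nat_lit 9) t715))))))))))
noncomputable def l36120 : Lb := (@Lb.d (nat_lit 4) (nat_lit 513) (nat_lit 0) (@Lb.g g5 (@Lb.r r1126 (@Lb.r r24 (@Lb.d (nat_lit 582) (nat_lit 65) (nat_lit 512) (@Lb.t (@Lb.fp (nat_lit 3) t282)))))))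
noncomputable def l36121 : Lb := (@Lb.d (nat_lit 21) (nat_lit 0) (nat_lit 128) (@Lb.g g8 (@Lb.g g9 (@Lb.g g10 (@Lb.g g11 (@Lb.r r2729 (@Lb.r r2475 (@Lb.r r2468 (@Lb.r r2182 (@Lb.d (nat_lit 546) (nat_lit 42) (nat_lit 165) (@Lb.fp (nat_lit 9) t744)))))))))))
noncomputable def l36122 : Lb := (@Lb.d (nat_lit 0) (nat_lit 517) (nat_lit 0) (@Lb.g g5 (@Lb.g g7 (@Lb.r r402 (@Lb.d (nat_lit 0) (nat_lit 1) (nat_lit 132) (@Lb.fp (nat_lit 3) t311))))))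
noncomputable def l36123 : Lb := (@Lb.d (nat_lit 0) (nat_lit 258) (nat_lit 0) (@Lb.g g9 (@Lb.r r1106 (@Lb.r r1044 (@Lb.r r25 (@Lb.d (nat_lit 66) (nat_lit 33) (nat_lit 512) (@Lb.t (@Lb.fp (nat_lit 3) t6386))))))))
noncomputable def l36124 : Lb := (@Lb.g g7 (@Lb.r r402 (@Lb.d (nat_lit 608) (nat_lit 581) (nat_lit 352) (@Lb.t (@Lb.fp (nat_lit 3) t1994)))))
noncomputable def l36125 : Lb := (@Lb.d (nat_lit 18) (nat_lit 266) (nat_lit 2) (@Lb.g g8 (@Lb.g g9 (@Lb.g g10 (@Lb.r r1707 (@Lb.r r2713 (@Lb.r r2650 (@Lb.r r1604 (@Lb.d (nat_lit 409) (nat_lit 129) (nat_lit 665) (@Lb.t (@Lb.fp (nat_lit 9) t6387)))))))))))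
noncomputable def l36126 : Lb := (@Lb.d (nat_lit 34) (nat_lit 264) (nat_lit 33) (@Lb.r r70 (@Lb.r r392 (@Lb.r r599 (@Lb.g g6 (@Lb.g g5 (@Lb.g g4 (@Lb.d (nat_lit 1) (nat_lit 17) (nat_lit 1) (@Lb.r r387 (@Lb.t (@Lb.fp (nat_lit 9) t242)))))))))))
noncomputable def l36127 : Lb := (@Lb.r r82 (@Lb.d (nat_lit 0) (nat_lit 514) (nat_lit 0) (@Lb.g g9 (@Lb.g g7 (@Lb.r r386 (@Lb.r r1121 (@Lb.d (nat_lit 608) (nat_lit 137) (nat_lit 322) (@Lb.fp (nat_lit 3) t1664))))))))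
noncomputable def l36128 : Lb := (@Lb.d (nat_lit 153) (nat_lit 512) (nat_lit 272) (@Lb.r r1636 (@Lb.r r613 (@Lb.r r1370 (@Lb.g g7 (@Lb.g g4 (@Lb.d (nat_lit 66) (nat_lit 0) (nat_lit 576) (@Lb.fp (nat_lit 3) t3145))))))))
noncomputable def l36129 : Lb := (@Lb.d (nat_lit 272) (nat_lit 516) (nat_lit 1) (@Lb.g g8 (@Lb.g g9 (@Lb.g g10 (@Lb.r r2731 (@Lb.r r1642 (@Lb.r r37 (@Lb.d (nat_lit 405) (nat_lit 102) (nat_lit 9) (@Lb.t (@Lb.fm (nat_lit 9) t1877))))))))))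
noncomputable def l36130 : Lb := (@Lb.d (nat_lit 4) (nat_lit 512) (nat_lit 2) (@Lb.g g8 (@Lb.g g9 (@Lb.g g10 (@Lb.r r683 (@Lb.r r2666 (@Lb.r r25 (@Lb.r r24 (@Lb.d (nat_lit 10) (nat_lit 25) (nat_lit 537) (@Lb.t (@Lb.fm (nat_lit 9) t591)))))))))))
noncomputable def l36131 : Lb := (@Lb.r r21 (@Lb.r r70 (@Lb.d (nat_lit 130) (nat_lit 512) (nat_lit 64) (@Lb.g g8 (@Lb.g g11 (@Lb.r r1419 (@Lb.r r2434 (@Lb.r r145 (@Lb.d (nat_lit 81) (nat_lit 0) (nat_lit 546) (@Lb.fp (nat_lit 3) t644))))))))))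
noncomputable def l36132 : Lb := (@Lb.r r263 (@Lb.d (nat_lit 128) (nat_lit 2) (nat_lit 2) (@Lb.g g8 (@Lb.g g9 (@Lb.g g10 (@Lb.r r675 (@Lb.r r1194 (@Lb.r r2393 (@Lb.r r2392 (@Lb.d (nat_lit 73) (nat_lit 9) (nat_lit 384) (@Lb.t (@Lb.fp (nat_lit 9) t1047))))))))))))
noncomputable def l36133 : Lb := (@Lb.d (nat_lit 272) (nat_lit 258) (nat_lit 0) (@Lb.g g8 (@Lb.g g5 (@Lb.r r322 (@Lb.r r1667 (@Lb.r r578 (@Lb.r r2329 (@Lb.d (nat_lit 9) (nat_lit 146) (nat_lit 650) (@Lb.fm (nat_lit 3) t2590)))))))))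
noncomputable def l36134 : Lb := (@Lb.d (nat_lit 518) (nat_lit 646) (nat_lit 104) (@Lb.r r2069 (@Lb.r r2134 (@Lb.r r1444 (@Lb.g g11 (@Lb.g g6 (@Lb.g g5 (@Lb.d (nat_lit 64) (nat_lit 32) (nat_lit 6) (@Lb.t (@Lb.fm (nat_lit 9) t6388))))))))))
noncomputable def l36135 : Lb := (@Lb.r r263 (@Lb.d (nat_lit 0) (nat_lit 258) (nat_lit 2) (@Lb.g g8 (@Lb.g g9 (@Lb.g g10 (@Lb.r r1626 (@Lb.r r1635 (@Lb.r r97 (@Lb.r r1048 (@Lb.d (nat_lit 165) (nat_lit 106) (nat_lit 665) (@Lb.t (@Lb.fp (nat_lit 9) t3270))))))))))))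
noncomputable def l36136 : Lb := (@Lb.d (nat_lit 130) (nat_lit 514) (nat_lit 66) (@Lb.g g8 (@Lb.g g9 (@Lb.g g10 (@Lb.g g11 (@Lb.r r2455 (@Lb.r r1177 (@Lb.r r1626 (@Lb.r r1604 (@Lb.d (nat_lit 290) (nat_lit 33) (nat_lit 384) (@Lb.fp (nat_lit 9) t1368)))))))))))
noncomputable def l36137 : Lb := (@Lb.d (nat_lit 129) (nat_lit 514) (nat_lit 66) (@Lb.g g8 (@Lb.g g9 (@Lb.g g10 (@Lb.g g11 (@Lb.r r427 (@Lb.r r164 (@Lb.r r2438 (@Lb.r r97 (@Lb.d (nat_lit 545) (nat_lit 24) (nat_lit 345) (@Lb.fp (nat_lit 9) t4341)))))))))))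
noncomputable def l36138 : Lb := (@Lb.d (nat_lit 101) (nat_lit 37) (nat_lit 74) (@Lb.r r404 (@Lb.r r150 (@Lb.r r361 (@Lb.g g7 (@Lb.g g5 (@Lb.g g4 (@Lb.d (nat_lit 17) (nat_lit 1) (nat_lit 0) (@Lb.t (@Lb.fp (nat_lit 9) t6389))))))))))
noncomputable def l36139 : Lb := (@Lb.d (nat_lit 2) (nat_lit 546) (nat_lit 73) (@Lb.g g8 (@Lb.g g9 (@Lb.g g10 (@Lb.g g11 (@Lb.r r2731 (@Lb.r r2709 (@Lb.r r1178 (@Lb.r r24 (@Lb.d (nat_lit 134) (nat_lit 153) (nat_lit 393) (@Lb.fm (nat_lit 9) t5890)))))))))))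
noncomputable def l36140 : Lb := (@Lb.d (nat_lit 128) (nat_lit 520) (nat_lit 258) (@Lb.g g10 (@Lb.g g7 (@Lb.r r601 (@Lb.r r1624 (@Lb.r r2150 (@Lb.d (nat_lit 536) (nat_lit 9) (nat_lit 132) (@Lb.fm (nat_lit 3) t386))))))))
noncomputable def l36141 : Lb := (@Lb.r r82 (@Lb.d (nat_lit 134) (nat_lit 512) (nat_lit 128) (@Lb.g g8 (@Lb.g g9 (@Lb.g g11 (@Lb.r r2593 (@Lb.r r2343 (@Lb.r r146 (@Lb.r r2584 (@Lb.d (nat_lit 617) (nat_lit 162) (nat_lit 418) (@Lb.t (@Lb.fp (nat_lit 9) t1144))))))))))))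
noncomputable def l36142 : Lb := (@Lb.g g8 (@Lb.d (nat_lit 2) (nat_lit 641) (nat_lit 0) (@Lb.t (@Lb.fp (nat_lit 3) t2))))
noncomputable def l36143 : Lb := (@Lb.d (nat_lit 389) (nat_lit 513) (nat_lit 288) (@Lb.r r24 (@Lb.r r2138 (@Lb.r r149 (@Lb.g g5 (@Lb.g g4 (@Lb.fp (nat_lit 3) t2858)))))))
noncomputable def l36144 : Lb := (@Lb.d (nat_lit 73) (nat_lit 18) (nat_lit 576) (@Lb.r r549 (@Lb.r r102 (@Lb.g g11 (@Lb.g g5 (@Lb.g g8 (@Lb.d (nat_lit 0) (nat_lit 2) (nat_lit 256) (@Lb.r r610 (@Lb.t (@Lb.fm (nat_lit 9) t3447))))))))))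
noncomputable def l36145 : Lb := (@Lb.r r70 (@Lb.d (nat_lit 129) (nat_lit 2) (nat_lit 256) (@Lb.g g8 (@Lb.g g9 (@Lb.g g7 (@Lb.r r1129 (@Lb.r r2450 (@Lb.r r388 (@Lb.d (nat_lit 656) (nat_lit 0) (nat_lit 9) (@Lb.t (@Lb.fp (nat_lit 9) t5772)))))))))))
noncomputable def l36146 : Lb := (@Lb.r r21 (@Lb.d (nat_lit 18) (nat_lit 512) (nat_lit 0) (@Lb.g g8 (@Lb.g g10 (@Lb.g g7 (@Lb.r r1688 (@Lb.r r101 (@Lb.r r2450 (@Lb.d (nat_lit 0) (nat_lit 146) (nat_lit 2) (@Lb.t (@Lb.fm (nat_lit 9) t3018)))))))))))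
noncomputable def l36147 : Lb := (@Lb.d (nat_lit 96) (nat_lit 258) (nat_lit 73) (@Lb.g g8 (@Lb.g g9 (@Lb.g g10 (@Lb.g g11 (@Lb.r r2691 (@Lb.r r1193 (@Lb.r r1642 (@Lb.r r1108 (@Lb.d (nat_lit 150) (nat_lit 102) (nat_lit 601) (@Lb.fp (nat_lit 9) t2528)))))))))))
noncomputable def l36148 : Lb := (@Lb.r r21 (@Lb.r r263 (@Lb.d (nat_lit 97) (nat_lit 0) (nat_lit 1) (@Lb.g g4 (@Lb.g g10 (@Lb.r r1559 (@Lb.r r418 (@Lb.r r97 (@Lb.d (nat_lit 2) (nat_lit 168) (nat_lit 352) (@Lb.fm (nat_lit 3) t400))))))))))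
noncomputable def l36149 : Lb := (@Lb.d (nat_lit 1) (nat_lit 522) (nat_lit 1) (@Lb.g g8 (@Lb.g g9 (@Lb.g g10 (@Lb.r r1707 (@Lb.r r2713 (@Lb.r r2650 (@Lb.r r2628 (@Lb.d (nat_lit 153) (nat_lit 65) (nat_lit 425) (@Lb.t (@Lb.fp (nat_lit 9) t6390)))))))))))
noncomputable def l36150 : Lb := (@Lb.d (nat_lit 26) (nat_lit 530) (nat_lit 586) (@Lb.g g8 (@Lb.g g9 (@Lb.g g10 (@Lb.g g7 (@Lb.r r425 (@Lb.r r1188 (@Lb.r r2182 (@Lb.d (nat_lit 290) (nat_lit 74) (nat_lit 81) (@Lb.fm (nat_lit 9) t2147))))))))))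
noncomputable def l36151 : Lb := (@Lb.g g7 (@Lb.r r402 (@Lb.r r24 (@Lb.r r101 (@Lb.d (nat_lit 261) (nat_lit 384) (nat_lit 608) (@Lb.t (@Lb.fp (nat_lit 3) t983)))))))
noncomputable def l36152 : Lb := (@Lb.d (nat_lit 33) (nat_lit 512) (nat_lit 6) (@Lb.r r154 (@Lb.r r664 (@Lb.r r667 (@Lb.r r353 (@Lb.g g7 (@Lb.g g6 (@Lb.g g4 (@Lb.d (nat_lit 2) (nat_lit 4) (nat_lit 65) (@Lb.t (@Lb.fp (nat_lit 9) t51)))))))))))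
noncomputable def l36153 : Lb := (@Lb.r r82 (@Lb.d (nat_lit 0) (nat_lit 258) (nat_lit 0) (@Lb.g g9 (@Lb.g g7 (@Lb.r r386 (@Lb.r r1128 (@Lb.r r1049 (@Lb.d (nat_lit 533) (nat_lit 72) (nat_lit 592) (@Lb.fp (nat_lit 3) t6391)))))))))
noncomputable def l36154 : Lb := (@Lb.d (nat_lit 0) (nat_lit 256) (nat_lit 72) (@Lb.g g10 (@Lb.g g11 (@Lb.r r1347 (@Lb.r r2706 (@Lb.r r24 (@Lb.r r101 (@Lb.d (nat_lit 256) (nat_lit 130) (nat_lit 352) (@Lb.fp (nat_lit 3) t983)))))))))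
noncomputable def l36155 : Lb := (@Lb.d (nat_lit 2) (nat_lit 16) (nat_lit 0) (@Lb.g g8 (@Lb.g g9 (@Lb.g g11 (@Lb.r r2443 (@Lb.r r529 (@Lb.d (nat_lit 274) (nat_lit 32) (nat_lit 89) (@Lb.t (@Lb.fm (nat_lit 9) t6392)))))))))
noncomputable def l36156 : Lb := (@Lb.d (nat_lit 644) (nat_lit 593) (nat_lit 522) (@Lb.r r263 (@Lb.r r2584 (@Lb.g g9 (@Lb.g g4 (@Lb.r r267 (@Lb.fm (nat_lit 3) t6117)))))))
noncomputable def l36157 : Lb := (@Lb.d (nat_lit 133) (nat_lit 0) (nat_lit 130) (@Lb.g g8 (@Lb.g g9 (@Lb.g g10 (@Lb.g g11 (@Lb.r r1675 (@Lb.r r613 (@Lb.r r666 (@Lb.r r1156 (@Lb.d (nat_lit 338) (nat_lit 138) (nat_lit 682) (@Lb.fm (nat_lit 9) t270)))))))))))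
noncomputable def l36158 : Lb := (@Lb.r r21 (@Lb.d (nat_lit 2) (nat_lit 512) (nat_lit 128) (@Lb.g g8 (@Lb.g g11 (@Lb.r r1675 (@Lb.r r2178 (@Lb.r r1640 (@Lb.r r25 (@Lb.d (nat_lit 612) (nat_lit 128) (nat_lit 297) (@Lb.fp (nat_lit 3) t2131))))))))))
noncomputable def l36159 : Lb := (@Lb.d (nat_lit 2) (nat_lit 528) (nat_lit 2) (@Lb.g g8 (@Lb.g g9 (@Lb.g g10 (@Lb.g g11 (@Lb.r r1577 (@Lb.r r2596 (@Lb.r r2695 (@Lb.r r146 (@Lb.d (nat_lit 265) (nat_lit 90) (nat_lit 681) (@Lb.fm (nat_lit 9) t601)))))))))))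
noncomputable def l36160 : Lb := (@Lb.d (nat_lit 0) (nat_lit 24) (nat_lit 578) (@Lb.r r2308 (@Lb.r r2325 (@Lb.r r2178 (@Lb.r r555 (@Lb.g g11 (@Lb.g g4 (@Lb.r r25 (@Lb.fp (nat_lit 3) t2131)))))))))
noncomputable def l36161 : Lb := (@Lb.d (nat_lit 134) (nat_lit 0) (nat_lit 64) (@Lb.g g8 (@Lb.g g9 (@Lb.g g11 (@Lb.r r1707 (@Lb.r r2178 (@Lb.r r617 (@Lb.r r2084 (@Lb.d (nat_lit 361) (nat_lit 65) (nat_lit 297) (@Lb.t (@Lb.fp (nat_lit 9) t6393)))))))))))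
noncomputable def l36162 : Lb := (@Lb.r r263 (@Lb.d (nat_lit 644) (nat_lit 512) (nat_lit 0) (@Lb.g g8 (@Lb.g g9 (@Lb.r r1367 (@Lb.r r2178 (@Lb.r r2657 (@Lb.d (nat_lit 1) (nat_lit 88) (nat_lit 9) (@Lb.fm (nat_lit 3) t5247)))))))))
noncomputable def l36163 : Lb := (@Lb.d (nat_lit 528) (nat_lit 520) (nat_lit 2) (@Lb.g g8 (@Lb.g g10 (@Lb.r r1683 (@Lb.r r1377 (@Lb.r r1170 (@Lb.d (nat_lit 2) (nat_lit 137) (nat_lit 546) (@Lb.fp (nat_lit 3) t1278))))))))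
noncomputable def l36164 : Lb := (@Lb.d (nat_lit 32) (nat_lit 512) (nat_lit 2) (@Lb.g g10 (@Lb.r r2695 (@Lb.r r1352 (@Lb.r r2374 (@Lb.r r2145 (@Lb.d (nat_lit 593) (nat_lit 0) (nat_lit 24) (@Lb.t (@Lb.fm (nat_lit 3) t242)))))))))
noncomputable def l36165 : Lb := (@Lb.d (nat_lit 144) (nat_lit 265) (nat_lit 41) (@Lb.g g8 (@Lb.g g9 (@Lb.g g6 (@Lb.r r1415 (@Lb.r r1313 (@Lb.r r2632 (@Lb.d (nat_lit 353) (nat_lit 105) (nat_lit 640) (@Lb.t (@Lb.fp (nat_lit 9) t98))))))))))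
noncomputable def l36166 : Lb := (@Lb.d (nat_lit 528) (nat_lit 553) (nat_lit 2) (@Lb.g g8 (@Lb.g g9 (@Lb.g g10 (@Lb.r r1667 (@Lb.r r2218 (@Lb.r r425 (@Lb.d (nat_lit 149) (nat_lit 20) (nat_lit 362) (@Lb.t (@Lb.fp (nat_lit 9) t1278))))))))))
noncomputable def l36167 : Lb := (@Lb.g g5 (@Lb.g g7 (@Lb.r r609 (@Lb.r r547 (@Lb.r r2178 (@Lb.r r1553 (@Lb.r r8 (@Lb.d (nat_lit 529) (nat_lit 385) (nat_lit 85) (@Lb.fm (nat_lit 3) t64)))))))))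
noncomputable def l36168 : Lb := (@Lb.d (nat_lit 148) (nat_lit 0) (nat_lit 64) (@Lb.g g8 (@Lb.g g9 (@Lb.g g10 (@Lb.g g11 (@Lb.r r427 (@Lb.r r1177 (@Lb.r r1176 (@Lb.r r602 (@Lb.d (nat_lit 105) (nat_lit 80) (nat_lit 601) (@Lb.fm (nat_lit 9) t1446)))))))))))
noncomputable def l36169 : Lb := (@Lb.r r331 (@Lb.d (nat_lit 129) (nat_lit 260) (nat_lit 0) (@Lb.g g8 (@Lb.g g9 (@Lb.g g10 (@Lb.r r1449 (@Lb.r r2707 (@Lb.r r1610 (@Lb.r r72 (@Lb.d (nat_lit 641) (nat_lit 64) (nat_lit 617) (@Lb.t (@Lb.fp (nat_lit 9) t4084))))))))))))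
noncomputable def l36170 : Lb := (@Lb.r r331 (@Lb.d (nat_lit 165) (nat_lit 2) (nat_lit 2) (@Lb.g g8 (@Lb.g g9 (@Lb.g g10 (@Lb.r r2457 (@Lb.r r2343 (@Lb.r r1604 (@Lb.r r1098 (@Lb.d (nat_lit 592) (nat_lit 128) (nat_lit 425) (@Lb.t (@Lb.fm (nat_lit 9) t3335))))))))))))
noncomputable def l36171 : Lb := (@Lb.d (nat_lit 657) (nat_lit 512) (nat_lit 69) (@Lb.r r21 (@Lb.r r70 (@Lb.g g4 (@Lb.d (nat_lit 353) (nat_lit 0) (nat_lit 0) (@Lb.r r74 (@Lb.r r25 (@Lb.t (@Lb.fm (nat_lit 3) t647)))))))))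
noncomputable def l36172 : Lb := (@Lb.d (nat_lit 1) (nat_lit 514) (nat_lit 66) (@Lb.g g8 (@Lb.g g9 (@Lb.g g10 (@Lb.g g7 (@Lb.r r386 (@Lb.r r97 (@Lb.r r2584 (@Lb.d (nat_lit 650) (nat_lit 169) (nat_lit 393) (@Lb.fp (nat_lit 9) t3305))))))))))
noncomputable def l36173 : Lb := (@Lb.d (nat_lit 8) (nat_lit 521) (nat_lit 0) (@Lb.g g9 (@Lb.r r2311 (@Lb.r r2196 (@Lb.r r2454 (@Lb.r r601 (@Lb.d (nat_lit 618) (nat_lit 38) (nat_lit 16) (@Lb.t (@Lb.fm (nat_lit 3) t386)))))))))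
noncomputable def l36174 : Lb := (@Lb.d (nat_lit 145) (nat_lit 258) (nat_lit 657) (@Lb.r r1608 (@Lb.r r1643 (@Lb.r r2649 (@Lb.r r1446 (@Lb.g g7 (@Lb.g g9 (@Lb.g g4 (@Lb.t (@Lb.fp (nat_lit 9) t2950))))))))))
noncomputable def l36175 : Lb := (@Lb.d (nat_lit 32) (nat_lit 256) (nat_lit 10) (@Lb.g g6 (@Lb.r r683 (@Lb.r r676 (@Lb.r r1686 (@Lb.r r1057 (@Lb.d (nat_lit 656) (nat_lit 73) (nat_lit 169) (@Lb.t (@Lb.fp (nat_lit 3) t324)))))))))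
noncomputable def l36176 : Lb := (@Lb.d (nat_lit 578) (nat_lit 512) (nat_lit 4) (@Lb.r r2698 (@Lb.r r2475 (@Lb.r r1365 (@Lb.g g7 (@Lb.g g6 (@Lb.g g4 (@Lb.d (nat_lit 257) (nat_lit 8) (nat_lit 65) (@Lb.r r25 (@Lb.t (@Lb.fm (nat_lit 9) t1900)))))))))))
noncomputable def l36177 : Lb := (@Lb.d (nat_lit 33) (nat_lit 513) (nat_lit 73) (@Lb.g g8 (@Lb.g g9 (@Lb.g g10 (@Lb.g g11 (@Lb.r r421 (@Lb.r r1371 (@Lb.r r2714 (@Lb.r r2129 (@Lb.r r2180 (@Lb.d (nat_lit 388) (nat_lit 165) (nat_lit 344) (@Lb.fp (nat_lit 9) t329))))))))))))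
noncomputable def l36178 : Lb := (@Lb.d (nat_lit 8) (nat_lit 514) (nat_lit 130) (@Lb.g g9 (@Lb.g g10 (@Lb.g g11 (@Lb.r r1447 (@Lb.r r2648 (@Lb.r r2438 (@Lb.r r81 (@Lb.d (nat_lit 609) (nat_lit 6) (nat_lit 281) (@Lb.t (@Lb.fm (nat_lit 9) t188)))))))))))
noncomputable def l36179 : Lb := (@Lb.d (nat_lit 8) (nat_lit 258) (nat_lit 130) (@Lb.g g9 (@Lb.g g10 (@Lb.g g11 (@Lb.r r1447 (@Lb.r r2648 (@Lb.r r2438 (@Lb.r r81 (@Lb.d (nat_lit 610) (nat_lit 6) (nat_lit 281) (@Lb.t (@Lb.fm (nat_lit 9) t188)))))))))))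
noncomputable def l36180 : Lb := (@Lb.d (nat_lit 8) (nat_lit 514) (nat_lit 74) (@Lb.g g8 (@Lb.g g9 (@Lb.g g10 (@Lb.g g11 (@Lb.r r170 (@Lb.r r680 (@Lb.r r555 (@Lb.r r2597 (@Lb.r r2068 (@Lb.d (nat_lit 138) (nat_lit 128) (nat_lit 517) (@Lb.fp (nat_lit 9) t284))))))))))))
noncomputable def l36181 : Lb := (@Lb.d (nat_lit 0) (nat_lit 640) (nat_lit 657) (@Lb.r r402 (@Lb.g g11 (@Lb.g g4 (@Lb.d (nat_lit 293) (nat_lit 0) (nat_lit 0) (@Lb.fm (nat_lit 3) t3532))))))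
noncomputable def l36182 : Lb := (@Lb.d (nat_lit 165) (nat_lit 673) (nat_lit 356) (@Lb.r r2438 (@Lb.r r2132 (@Lb.r r2387 (@Lb.g g7 (@Lb.g g6 (@Lb.g g5 (@Lb.g g4 (@Lb.d (nat_lit 1) (nat_lit 25) (nat_lit 128) (@Lb.fm (nat_lit 9) t5079))))))))))
noncomputable def l36183 : Lb := (@Lb.d (nat_lit 129) (nat_lit 2) (nat_lit 130) (@Lb.g g8 (@Lb.g g9 (@Lb.g g10 (@Lb.g g11 (@Lb.r r2658 (@Lb.r r1701 (@Lb.r r1432 (@Lb.r r583 (@Lb.d (nat_lit 9) (nat_lit 34) (nat_lit 516) (@Lb.fm (nat_lit 9) t2420)))))))))))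
noncomputable def l36184 : Lb := (@Lb.d (nat_lit 41) (nat_lit 0) (nat_lit 64) (@Lb.g g8 (@Lb.g g11 (@Lb.r r1703 (@Lb.r r1173 (@Lb.r r150 (@Lb.r r356 (@Lb.d (nat_lit 90) (nat_lit 88) (nat_lit 582) (@Lb.fm (nat_lit 3) t1818)))))))))
noncomputable def l36185 : Lb := (@Lb.d (nat_lit 32) (nat_lit 258) (nat_lit 73) (@Lb.g g8 (@Lb.g g9 (@Lb.g g10 (@Lb.g g11 (@Lb.r r2658 (@Lb.r r579 (@Lb.r r1381 (@Lb.r r1560 (@Lb.d (nat_lit 534) (nat_lit 34) (nat_lit 516) (@Lb.fm (nat_lit 9) t2420)))))))))))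
noncomputable def l36186 : Lb := (@Lb.d (nat_lit 1) (nat_lit 264) (nat_lit 72) (@Lb.g g8 (@Lb.g g10 (@Lb.g g11 (@Lb.r r2312 (@Lb.r r407 (@Lb.r r609 (@Lb.r r1362 (@Lb.d (nat_lit 10) (nat_lit 20) (nat_lit 22) (@Lb.t (@Lb.fm (nat_lit 9) t1818)))))))))))
noncomputable def l36187 : Lb := (@Lb.d (nat_lit 128) (nat_lit 258) (nat_lit 74) (@Lb.g g9 (@Lb.g g10 (@Lb.g g11 (@Lb.r r162 (@Lb.r r1433 (@Lb.r r280 (@Lb.r r615 (@Lb.d (nat_lit 138) (nat_lit 152) (nat_lit 100) (@Lb.t (@Lb.fp (nat_lit 9) t284)))))))))))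
noncomputable def l36188 : Lb := (@Lb.d (nat_lit 520) (nat_lit 545) (nat_lit 0) (@Lb.r r1284 (@Lb.r r2138 (@Lb.r r2587 (@Lb.r r273 (@Lb.g g7 (@Lb.g g5 (@Lb.d (nat_lit 0) (nat_lit 1) (nat_lit 64) (@Lb.fp (nat_lit 3) t2964)))))))))
noncomputable def l36189 : Lb := (@Lb.r r1284 (@Lb.d (nat_lit 16) (nat_lit 265) (nat_lit 144) (@Lb.g g9 (@Lb.g g6 (@Lb.g g11 (@Lb.r r2657 (@Lb.r r2339 (@Lb.d (nat_lit 106) (nat_lit 34) (nat_lit 106) (@Lb.t (@Lb.fm (nat_lit 9) t2964))))))))))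
noncomputable def l36190 : Lb := (@Lb.d (nat_lit 577) (nat_lit 581) (nat_lit 576) (@Lb.r r345 (@Lb.r r1319 (@Lb.r r2644 (@Lb.g g7 (@Lb.g g6 (@Lb.g g5 (@Lb.d (nat_lit 0) (nat_lit 16) (nat_lit 98) (@Lb.t (@Lb.fp (nat_lit 9) t1095))))))))))
noncomputable def l36191 : Lb := (@Lb.r r82 (@Lb.d (nat_lit 2) (nat_lit 256) (nat_lit 64) (@Lb.g g8 (@Lb.g g9 (@Lb.g g7 (@Lb.r r2122 (@Lb.r r2337 (@Lb.d (nat_lit 388) (nat_lit 32) (nat_lit 261) (@Lb.t (@Lb.fm (nat_lit 9) t1928))))))))))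
noncomputable def l36192 : Lb := (@Lb.d (nat_lit 345) (nat_lit 596) (nat_lit 618) (@Lb.r r1380 (@Lb.r r2331 (@Lb.g g6 (@Lb.g g9 (@Lb.g g4 (@Lb.d (nat_lit 65) (nat_lit 9) (nat_lit 32) (@Lb.r r411 (@Lb.t (@Lb.fm (nat_lit 9) t768))))))))))
noncomputable def l36193 : Lb := (@Lb.d (nat_lit 37) (nat_lit 512) (nat_lit 130) (@Lb.g g8 (@Lb.g g9 (@Lb.g g10 (@Lb.g g11 (@Lb.r r1366 (@Lb.r r2711 (@Lb.r r1553 (@Lb.r r612 (@Lb.d (nat_lit 520) (nat_lit 26) (nat_lit 401) (@Lb.fm (nat_lit 9) t1038)))))))))))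
noncomputable def l36194 : Lb := (@Lb.d (nat_lit 1) (nat_lit 322) (nat_lit 130) (@Lb.g g4 (@Lb.g g9 (@Lb.g g10 (@Lb.g g11 (@Lb.r r419 (@Lb.r r386 (@Lb.d (nat_lit 292) (nat_lit 34) (nat_lit 105) (@Lb.fp (nat_lit 9) t3056)))))))))
noncomputable def l36195 : Lb := (@Lb.d (nat_lit 602) (nat_lit 617) (nat_lit 594) (@Lb.r r24 (@Lb.r r2325 (@Lb.r r614 (@Lb.r r2731 (@Lb.g g7 (@Lb.g g6 (@Lb.g g5 (@Lb.d (nat_lit 0) (nat_lit 20) (nat_lit 74) (@Lb.t (@Lb.fp (nat_lit 9) t6394)))))))))))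
noncomputable def l36196 : Lb := (@Lb.d (nat_lit 6) (nat_lit 512) (nat_lit 2) (@Lb.g g4 (@Lb.g g9 (@Lb.g g10 (@Lb.g g11 (@Lb.r r2407 (@Lb.r r386 (@Lb.r r1125 (@Lb.d (nat_lit 1) (nat_lit 0) (nat_lit 84) (@Lb.fm (nat_lit 9) t455))))))))))
noncomputable def l36197 : Lb := (@Lb.r r82 (@Lb.d (nat_lit 1) (nat_lit 33) (nat_lit 64) (@Lb.g g4 (@Lb.g g9 (@Lb.g g11 (@Lb.r r1315 (@Lb.r r578 (@Lb.r r1125 (@Lb.d (nat_lit 576) (nat_lit 170) (nat_lit 136) (@Lb.t (@Lb.fm (nat_lit 9) t768)))))))))))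
noncomputable def l36198 : Lb := (@Lb.r r1045 (@Lb.d (nat_lit 2) (nat_lit 0) (nat_lit 2) (@Lb.g g8 (@Lb.g g10 (@Lb.g g11 (@Lb.r r2379 (@Lb.r r386 (@Lb.r r72 (@Lb.d (nat_lit 290) (nat_lit 5) (nat_lit 68) (@Lb.t (@Lb.fm (nat_lit 9) t4205)))))))))))
noncomputable def l36199 : Lb := (@Lb.d (nat_lit 0) (nat_lit 512) (nat_lit 128) (@Lb.g g10 (@Lb.g g11 (@Lb.r r387 (@Lb.r r405 (@Lb.r r2454 (@Lb.r r1124 (@Lb.d (nat_lit 262) (nat_lit 81) (nat_lit 272) (@Lb.fp (nat_lit 3) t2575)))))))))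
noncomputable def l36200 : Lb := (@Lb.g g10 (@Lb.g g7 (@Lb.r r597 (@Lb.r r1386 (@Lb.r r407 (@Lb.r r1096 (@Lb.d (nat_lit 577) (nat_lit 512) (nat_lit 336) (@Lb.fm (nat_lit 3) t2238))))))))
noncomputable def l36201 : Lb := (@Lb.r r323 (@Lb.d (nat_lit 4) (nat_lit 0) (nat_lit 0) (@Lb.g g8 (@Lb.g g9 (@Lb.g g10 (@Lb.r r2729 (@Lb.r r2339 (@Lb.r r2634 (@Lb.r r2628 (@Lb.d (nat_lit 146) (nat_lit 0) (nat_lit 665) (@Lb.t (@Lb.fp (nat_lit 9) t3947))))))))))))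
noncomputable def l36202 : Lb := (@Lb.d (nat_lit 38) (nat_lit 292) (nat_lit 580) (@Lb.g g8 (@Lb.g g9 (@Lb.g g10 (@Lb.g g7 (@Lb.r r1442 (@Lb.r r1169 (@Lb.r r72 (@Lb.d (nat_lit 34) (nat_lit 137) (nat_lit 353) (@Lb.fm (nat_lit 9) t4967))))))))))
noncomputable def l36203 : Lb := (@Lb.g g9 (@Lb.r r134 (@Lb.r r580 (@Lb.r r295 (@Lb.r r2329 (@Lb.r r1044 (@Lb.t (@Lb.p (nat_lit 1) (@Lb.fm (nat_lit 3) t1155)))))))))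
noncomputable def l36204 : Lb := (@Lb.d (nat_lit 22) (nat_lit 513) (nat_lit 129) (@Lb.r r24 (@Lb.r r1109 (@Lb.r r418 (@Lb.g g11 (@Lb.g g5 (@Lb.g g4 (@Lb.d (nat_lit 1) (nat_lit 18) (nat_lit 264) (@Lb.r r578 (@Lb.t (@Lb.fm (nat_lit 9) t3438)))))))))))
noncomputable def l36205 : Lb := (@Lb.d (nat_lit 322) (nat_lit 577) (nat_lit 661) (@Lb.r r2321 (@Lb.r r295 (@Lb.r r421 (@Lb.r r2214 (@Lb.g g7 (@Lb.g g6 (@Lb.g g5 (@Lb.g g8 (@Lb.d (nat_lit 320) (nat_lit 1) (nat_lit 65) (@Lb.fm (nat_lit 9) t3300)))))))))))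
noncomputable def l36206 : Lb := (@Lb.d (nat_lit 101) (nat_lit 513) (nat_lit 261) (@Lb.r r24 (@Lb.r r2469 (@Lb.r r1122 (@Lb.g g7 (@Lb.g g5 (@Lb.g g4 (@Lb.d (nat_lit 0) (nat_lit 5) (nat_lit 68) (@Lb.r r578 (@Lb.t (@Lb.fp (nat_lit 9) t745)))))))))))
noncomputable def l36207 : Lb := (@Lb.r r82 (@Lb.d (nat_lit 2) (nat_lit 10) (nat_lit 128) (@Lb.g g8 (@Lb.g g9 (@Lb.g g11 (@Lb.r r402 (@Lb.r r1607 (@Lb.r r1685 (@Lb.r r2436 (@Lb.d (nat_lit 160) (nat_lit 134) (nat_lit 392) (@Lb.t (@Lb.fm (nat_lit 9) t2019))))))))))))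
noncomputable def l36208 : Lb := (@Lb.d (nat_lit 33) (nat_lit 1) (nat_lit 64) (@Lb.g g8 (@Lb.g g9 (@Lb.g g11 (@Lb.r r1385 (@Lb.r r1686 (@Lb.r r663 (@Lb.r r1316 (@Lb.d (nat_lit 596) (nat_lit 166) (nat_lit 293) (@Lb.t (@Lb.fp (nat_lit 9) t3888)))))))))))
noncomputable def l36209 : Lb := (@Lb.d (nat_lit 1) (nat_lit 9) (nat_lit 72) (@Lb.g g8 (@Lb.g g9 (@Lb.g g10 (@Lb.g g11 (@Lb.r r2666 (@Lb.r r579 (@Lb.r r97 (@Lb.r r24 (@Lb.d (nat_lit 153) (nat_lit 2) (nat_lit 324) (@Lb.fm (nat_lit 9) t4669)))))))))))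
noncomputable def l36210 : Lb := (@Lb.r r82 (@Lb.d (nat_lit 0) (nat_lit 545) (nat_lit 64) (@Lb.g g9 (@Lb.g g11 (@Lb.r r1571 (@Lb.r r408 (@Lb.r r90 (@Lb.r r145 (@Lb.d (nat_lit 401) (nat_lit 32) (nat_lit 137) (@Lb.fm (nat_lit 3) t6395))))))))))
noncomputable def l36211 : Lb := (@Lb.r r323 (@Lb.d (nat_lit 0) (nat_lit 0) (nat_lit 2) (@Lb.g g10 (@Lb.r r2449 (@Lb.r r299 (@Lb.r r392 (@Lb.r r74 (@Lb.d (nat_lit 545) (nat_lit 10) (nat_lit 152) (@Lb.t (@Lb.fm (nat_lit 3) t221))))))))))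
noncomputable def l36212 : Lb := (@Lb.d (nat_lit 1) (nat_lit 256) (nat_lit 66) (@Lb.g g8 (@Lb.g g10 (@Lb.g g11 (@Lb.r r1543 (@Lb.r r386 (@Lb.r r2145 (@Lb.r r24 (@Lb.d (nat_lit 640) (nat_lit 42) (nat_lit 425) (@Lb.t (@Lb.fm (nat_lit 9) t6396)))))))))))
noncomputable def l36213 : Lb := (@Lb.r r21 (@Lb.d (nat_lit 129) (nat_lit 0) (nat_lit 9) (@Lb.g g8 (@Lb.g g10 (@Lb.g g11 (@Lb.r r1674 (@Lb.r r1125 (@Lb.r r1688 (@Lb.r r2443 (@Lb.d (nat_lit 408) (nat_lit 149) (nat_lit 390) (@Lb.t (@Lb.fp (nat_lit 9) t728))))))))))))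
noncomputable def l36214 : Lb := (@Lb.r r21 (@Lb.d (nat_lit 129) (nat_lit 0) (nat_lit 66) (@Lb.g g8 (@Lb.g g10 (@Lb.g g11 (@Lb.r r2730 (@Lb.r r2467 (@Lb.r r145 (@Lb.r r2180 (@Lb.d (nat_lit 325) (nat_lit 42) (nat_lit 346) (@Lb.t (@Lb.fp (nat_lit 9) t2306))))))))))))
noncomputable def l36215 : Lb := (@Lb.g g4 (@Lb.g g10 (@Lb.g g7 (@Lb.r r2643 (@Lb.r r401 (@Lb.r r2450 (@Lb.d (nat_lit 1) (nat_lit 536) (nat_lit 297) (@Lb.t (@Lb.fm (nat_lit 9) t2169)))))))))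
noncomputable def l36216 : Lb := (@Lb.r r21 (@Lb.d (nat_lit 129) (nat_lit 256) (nat_lit 9) (@Lb.g g8 (@Lb.g g10 (@Lb.g g11 (@Lb.r r2730 (@Lb.r r2467 (@Lb.r r145 (@Lb.r r2180 (@Lb.d (nat_lit 325) (nat_lit 42) (nat_lit 346) (@Lb.t (@Lb.fp (nat_lit 9) t2306))))))))))))
noncomputable def l36217 : Lb := (@Lb.r r21 (@Lb.r r70 (@Lb.d (nat_lit 129) (nat_lit 256) (nat_lit 72) (@Lb.g g8 (@Lb.g g11 (@Lb.r r1414 (@Lb.r r1611 (@Lb.r r145 (@Lb.d (nat_lit 289) (nat_lit 90) (nat_lit 297) (@Lb.fm (nat_lit 3) t3890))))))))))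
noncomputable def l36218 : Lb := (@Lb.d (nat_lit 0) (nat_lit 2) (nat_lit 73) (@Lb.g g8 (@Lb.g g9 (@Lb.g g10 (@Lb.g g11 (@Lb.r r1699 (@Lb.r r1160 (@Lb.r r1610 (@Lb.r r145 (@Lb.d (nat_lit 617) (nat_lit 130) (nat_lit 138) (@Lb.fp (nat_lit 9) t790)))))))))))
noncomputable def l36219 : Lb := (@Lb.d (nat_lit 0) (nat_lit 256) (nat_lit 73) (@Lb.g g10 (@Lb.g g11 (@Lb.r r2658 (@Lb.d (nat_lit 0) (nat_lit 89) (nat_lit 330) (@Lb.fm (nat_lit 3) t334))))))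
noncomputable def l36220 : Lb := (@Lb.r r323 (@Lb.d (nat_lit 32) (nat_lit 0) (nat_lit 18) (@Lb.g g5 (@Lb.g g10 (@Lb.r r387 (@Lb.d (nat_lit 260) (nat_lit 1) (nat_lit 144) (@Lb.fp (nat_lit 3) t4167)))))))
noncomputable def l36221 : Lb := (@Lb.d (nat_lit 130) (nat_lit 265) (nat_lit 0) (@Lb.g g8 (@Lb.g g9 (@Lb.r r2375 (@Lb.r r146 (@Lb.r r617 (@Lb.r r1572 (@Lb.d (nat_lit 420) (nat_lit 145) (nat_lit 673) (@Lb.fm (nat_lit 3) t441)))))))))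
noncomputable def l36222 : Lb := (@Lb.d (nat_lit 546) (nat_lit 8) (nat_lit 70) (@Lb.r r1094 (@Lb.r r2440 (@Lb.r r1367 (@Lb.g g6 (@Lb.g g5 (@Lb.g g4 (@Lb.d (nat_lit 2) (nat_lit 33) (nat_lit 1) (@Lb.t (@Lb.fm (nat_lit 9) t590))))))))))
noncomputable def l36223 : Lb := (@Lb.d (nat_lit 98) (nat_lit 356) (nat_lit 72) (@Lb.r r676 (@Lb.r r289 (@Lb.r r422 (@Lb.g g7 (@Lb.g g4 (@Lb.d (nat_lit 16) (nat_lit 0) (nat_lit 68) (@Lb.fm (nat_lit 3) t510))))))))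
noncomputable def l36224 : Lb := (@Lb.d (nat_lit 2) (nat_lit 521) (nat_lit 128) (@Lb.g g8 (@Lb.g g9 (@Lb.g g11 (@Lb.r r146 (@Lb.r r2657 (@Lb.r r1319 (@Lb.r r2564 (@Lb.d (nat_lit 170) (nat_lit 128) (nat_lit 417) (@Lb.t (@Lb.fm (nat_lit 9) t441)))))))))))
noncomputable def l36225 : Lb := (@Lb.d (nat_lit 130) (nat_lit 9) (nat_lit 0) (@Lb.g g8 (@Lb.g g9 (@Lb.r r2375 (@Lb.r r146 (@Lb.r r617 (@Lb.r r1572 (@Lb.d (nat_lit 425) (nat_lit 146) (nat_lit 673) (@Lb.fm (nat_lit 3) t441)))))))))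
noncomputable def l36226 : Lb := (@Lb.d (nat_lit 4) (nat_lit 513) (nat_lit 73) (@Lb.g g5 (@Lb.g g10 (@Lb.g g11 (@Lb.r r1610 (@Lb.d (nat_lit 660) (nat_lit 1) (nat_lit 330) (@Lb.t (@Lb.fp (nat_lit 9) t49))))))))
noncomputable def l36227 : Lb := (@Lb.r r82 (@Lb.d (nat_lit 34) (nat_lit 514) (nat_lit 0) (@Lb.g g8 (@Lb.g g9 (@Lb.g g11 (@Lb.r r1571 (@Lb.r r582 (@Lb.r r1177 (@Lb.r r408 (@Lb.d (nat_lit 344) (nat_lit 26) (nat_lit 650) (@Lb.t (@Lb.fm (nat_lit 9) t4396))))))))))))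
noncomputable def l36228 : Lb := (@Lb.d (nat_lit 10) (nat_lit 32) (nat_lit 130) (@Lb.g g8 (@Lb.g g9 (@Lb.g g10 (@Lb.g g11 (@Lb.r r1699 (@Lb.r r2402 (@Lb.r r36 (@Lb.r r2581 (@Lb.r r2084 (@Lb.d (nat_lit 33) (nat_lit 162) (nat_lit 677) (@Lb.fm (nat_lit 9) t6397))))))))))))
noncomputable def l36229 : Lb := (@Lb.r r81 (@Lb.d (nat_lit 33) (nat_lit 8) (nat_lit 129) (@Lb.g g8 (@Lb.g g6 (@Lb.g g11 (@Lb.r r2635 (@Lb.r r2665 (@Lb.r r2660 (@Lb.d (nat_lit 277) (nat_lit 153) (nat_lit 8) (@Lb.t (@Lb.fp (nat_lit 9) t6398)))))))))))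
noncomputable def l36230 : Lb := (@Lb.d (nat_lit 128) (nat_lit 66) (nat_lit 130) (@Lb.g g9 (@Lb.g g10 (@Lb.g g11 (@Lb.r r2662 (@Lb.r r1412 (@Lb.r r2635 (@Lb.d (nat_lit 354) (nat_lit 2) (nat_lit 386) (@Lb.t (@Lb.fp (nat_lit 9) t578))))))))))
noncomputable def l36231 : Lb := (@Lb.r r322 (@Lb.d (nat_lit 2) (nat_lit 256) (nat_lit 576) (@Lb.g g8 (@Lb.g g7 (@Lb.r r345 (@Lb.r r1638 (@Lb.r r24 (@Lb.d (nat_lit 585) (nat_lit 128) (nat_lit 16) (@Lb.fm (nat_lit 3) t2156)))))))))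
noncomputable def l36232 : Lb := (@Lb.r r263 (@Lb.d (nat_lit 2) (nat_lit 664) (nat_lit 9) (@Lb.g g8 (@Lb.g g5 (@Lb.g g10 (@Lb.r r579 (@Lb.r r2450 (@Lb.r r2632 (@Lb.d (nat_lit 354) (nat_lit 145) (nat_lit 682) (@Lb.t (@Lb.fm (nat_lit 9) t3077)))))))))))
noncomputable def l36233 : Lb := (@Lb.d (nat_lit 26) (nat_lit 274) (nat_lit 586) (@Lb.g g8 (@Lb.g g9 (@Lb.g g10 (@Lb.g g7 (@Lb.r r1442 (@Lb.r r289 (@Lb.r r72 (@Lb.d (nat_lit 34) (nat_lit 137) (nat_lit 65) (@Lb.fp (nat_lit 9) t639))))))))))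
noncomputable def l36234 : Lb := (@Lb.d (nat_lit 32) (nat_lit 512) (nat_lit 73) (@Lb.g g10 (@Lb.g g11 (@Lb.r r2341 (@Lb.r r1555 (@Lb.r r2628 (@Lb.r r1674 (@Lb.d (nat_lit 130) (nat_lit 150) (nat_lit 22) (@Lb.fp (nat_lit 3) t6399)))))))))
noncomputable def l36235 : Lb := (@Lb.r r1284 (@Lb.r r322 (@Lb.d (nat_lit 0) (nat_lit 258) (nat_lit 128) (@Lb.g g9 (@Lb.g g11 (@Lb.r r549 (@Lb.r r295 (@Lb.r r2438 (@Lb.d (nat_lit 548) (nat_lit 162) (nat_lit 282) (@Lb.fm (nat_lit 3) t2605))))))))))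
noncomputable def l36236 : Lb := (@Lb.r r263 (@Lb.d (nat_lit 2) (nat_lit 73) (nat_lit 1) (@Lb.g g8 (@Lb.g g9 (@Lb.g g10 (@Lb.r r1642 (@Lb.r r2627 (@Lb.r r2340 (@Lb.d (nat_lit 66) (nat_lit 130) (nat_lit 512) (@Lb.t (@Lb.fp (nat_lit 9) t4534)))))))))))
noncomputable def l36237 : Lb := (@Lb.r r1284 (@Lb.d (nat_lit 0) (nat_lit 282) (nat_lit 70) (@Lb.g g9 (@Lb.g g10 (@Lb.g g11 (@Lb.r r677 (@Lb.r r2411 (@Lb.r r1418 (@Lb.d (nat_lit 278) (nat_lit 150) (nat_lit 661) (@Lb.t (@Lb.fm (nat_lit 9) t6400)))))))))))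
noncomputable def l36238 : Lb := (@Lb.r r263 (@Lb.d (nat_lit 2) (nat_lit 329) (nat_lit 1) (@Lb.g g8 (@Lb.g g9 (@Lb.g g10 (@Lb.r r1642 (@Lb.r r2627 (@Lb.r r2340 (@Lb.d (nat_lit 73) (nat_lit 129) (nat_lit 512) (@Lb.t (@Lb.fp (nat_lit 9) t3516)))))))))))
noncomputable def l36239 : Lb := (@Lb.r r21 (@Lb.d (nat_lit 2) (nat_lit 0) (nat_lit 9) (@Lb.g g8 (@Lb.g g10 (@Lb.g g7 (@Lb.r r386 (@Lb.r r97 (@Lb.r r72 (@Lb.d (nat_lit 34) (nat_lit 10) (nat_lit 136) (@Lb.t (@Lb.fm (nat_lit 9) t40)))))))))))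
noncomputable def l36240 : Lb := (@Lb.d (nat_lit 612) (nat_lit 289) (nat_lit 514) (@Lb.r r24 (@Lb.r r1178 (@Lb.r r2409 (@Lb.g g11 (@Lb.g g5 (@Lb.d (nat_lit 64) (nat_lit 0) (nat_lit 644) (@Lb.r r578 (@Lb.fm (nat_lit 3) t3363)))))))))
noncomputable def l36241 : Lb := (@Lb.d (nat_lit 0) (nat_lit 512) (nat_lit 137) (@Lb.g g10 (@Lb.g g11 (@Lb.r r1671 (@Lb.r r1638 (@Lb.r r101 (@Lb.r r24 (@Lb.d (nat_lit 388) (nat_lit 64) (nat_lit 128) (@Lb.fp (nat_lit 3) t2113)))))))))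
noncomputable def l36242 : Lb := (@Lb.d (nat_lit 337) (nat_lit 613) (nat_lit 337) (@Lb.r r1617 (@Lb.r r2406 (@Lb.r r2451 (@Lb.g g7 (@Lb.g g5 (@Lb.g g8 (@Lb.d (nat_lit 9) (nat_lit 4) (nat_lit 64) (@Lb.r r98 (@Lb.t (@Lb.fm (nat_lit 9) t6401)))))))))))
noncomputable def l36243 : Lb := (@Lb.d (nat_lit 0) (nat_lit 514) (nat_lit 0) (@Lb.g g9 (@Lb.r r1122 (@Lb.r r97 (@Lb.d (nat_lit 0) (nat_lit 73) (nat_lit 32) (@Lb.t (@Lb.fm (nat_lit 3) t1076)))))))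
noncomputable def l36244 : Lb := (@Lb.d (nat_lit 0) (nat_lit 512) (nat_lit 137) (@Lb.g g10 (@Lb.g g11 (@Lb.r r1671 (@Lb.r r1638 (@Lb.r r101 (@Lb.r r24 (@Lb.d (nat_lit 393) (nat_lit 72) (nat_lit 130) (@Lb.fp (nat_lit 3) t2113)))))))))
noncomputable def l36245 : Lb := (@Lb.d (nat_lit 2) (nat_lit 73) (nat_lit 129) (@Lb.g g8 (@Lb.g g9 (@Lb.g g10 (@Lb.g g11 (@Lb.r r618 (@Lb.r r1379 (@Lb.r r2626 (@Lb.r r2564 (@Lb.d (nat_lit 129) (nat_lit 8) (nat_lit 386) (@Lb.fp (nat_lit 9) t1192)))))))))))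
noncomputable def l36246 : Lb := (@Lb.d (nat_lit 2) (nat_lit 585) (nat_lit 129) (@Lb.g g8 (@Lb.g g9 (@Lb.g g10 (@Lb.g g11 (@Lb.r r618 (@Lb.r r1379 (@Lb.r r2626 (@Lb.r r2564 (@Lb.d (nat_lit 134) (nat_lit 9) (nat_lit 386) (@Lb.fp (nat_lit 9) t1159)))))))))))
noncomputable def l36247 : Lb := (@Lb.d (nat_lit 513) (nat_lit 0) (nat_lit 586) (@Lb.r r24 (@Lb.r r101 (@Lb.r r2706 (@Lb.r r2435 (@Lb.g g7 (@Lb.g g6 (@Lb.g g4 (@Lb.d (nat_lit 0) (nat_lit 0) (nat_lit 68) (@Lb.t (@Lb.fm (nat_lit 9) t721)))))))))))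
noncomputable def l36248 : Lb := (@Lb.d (nat_lit 2) (nat_lit 73) (nat_lit 129) (@Lb.g g8 (@Lb.g g9 (@Lb.g g10 (@Lb.g g11 (@Lb.r r618 (@Lb.r r1379 (@Lb.r r2626 (@Lb.r r2564 (@Lb.d (nat_lit 134) (nat_lit 9) (nat_lit 329) (@Lb.fp (nat_lit 9) t6402)))))))))))
noncomputable def l36249 : Lb := (@Lb.d (nat_lit 0) (nat_lit 514) (nat_lit 128) (@Lb.g g9 (@Lb.g g11 (@Lb.r r1301 (@Lb.r r2467 (@Lb.r r1414 (@Lb.r r36 (@Lb.d (nat_lit 73) (nat_lit 8) (nat_lit 280) (@Lb.fp (nat_lit 3) t6403)))))))))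
noncomputable def l36250 : Lb := (@Lb.d (nat_lit 577) (nat_lit 401) (nat_lit 1) (@Lb.r r1572 (@Lb.r r2341 (@Lb.r r323 (@Lb.g g6 (@Lb.g g4 (@Lb.d (nat_lit 4) (nat_lit 8) (nat_lit 41) (@Lb.r r387 (@Lb.fp (nat_lit 3) t3820)))))))))
noncomputable def l36251 : Lb := (@Lb.d (nat_lit 80) (nat_lit 514) (nat_lit 10) (@Lb.g g8 (@Lb.g g9 (@Lb.g g10 (@Lb.g g11 (@Lb.r r1626 (@Lb.r r1640 (@Lb.r r1435 (@Lb.r r97 (@Lb.d (nat_lit 681) (nat_lit 36) (nat_lit 70) (@Lb.fp (nat_lit 9) t6404)))))))))))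
noncomputable def l36252 : Lb := (@Lb.d (nat_lit 2) (nat_lit 258) (nat_lit 130) (@Lb.g g8 (@Lb.g g9 (@Lb.g g10 (@Lb.g g11 (@Lb.r r2647 (@Lb.r r1369 (@Lb.r r2214 (@Lb.r r1128 (@Lb.d (nat_lit 32) (nat_lit 154) (nat_lit 84) (@Lb.fm (nat_lit 9) t6405)))))))))))
noncomputable def l36253 : Lb := (@Lb.d (nat_lit 80) (nat_lit 258) (nat_lit 10) (@Lb.g g8 (@Lb.g g9 (@Lb.g g10 (@Lb.g g11 (@Lb.r r1626 (@Lb.r r1640 (@Lb.r r1435 (@Lb.r r97 (@Lb.d (nat_lit 674) (nat_lit 37) (nat_lit 70) (@Lb.fp (nat_lit 9) t6406)))))))))))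
noncomputable def l36254 : Lb := (@Lb.d (nat_lit 4) (nat_lit 608) (nat_lit 66) (@Lb.g g5 (@Lb.g g10 (@Lb.g g11 (@Lb.r r1563 (@Lb.r r386 (@Lb.d (nat_lit 645) (nat_lit 34) (nat_lit 329) (@Lb.t (@Lb.fp (nat_lit 9) t6407)))))))))
noncomputable def l36255 : Lb := (@Lb.d (nat_lit 554) (nat_lit 520) (nat_lit 18) (@Lb.r r20 (@Lb.r r1362 (@Lb.r r663 (@Lb.r r281 (@Lb.g g11 (@Lb.d (nat_lit 0) (nat_lit 16) (nat_lit 64) (@Lb.t (@Lb.fm (nat_lit 3) t813)))))))))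
noncomputable def l36256 : Lb := (@Lb.d (nat_lit 8) (nat_lit 2) (nat_lit 128) (@Lb.g g9 (@Lb.g g11 (@Lb.r r1540 (@Lb.r r423 (@Lb.r r401 (@Lb.r r2450 (@Lb.d (nat_lit 10) (nat_lit 20) (nat_lit 353) (@Lb.fp (nat_lit 3) t5436)))))))))
noncomputable def l36257 : Lb := (@Lb.d (nat_lit 9) (nat_lit 642) (nat_lit 34) (@Lb.r r609 (@Lb.r r619 (@Lb.r r584 (@Lb.g g7 (@Lb.g g10 (@Lb.d (nat_lit 32) (nat_lit 0) (nat_lit 65) (@Lb.fm (nat_lit 3) t42))))))))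
noncomputable def l36258 : Lb := (@Lb.d (nat_lit 8) (nat_lit 2) (nat_lit 128) (@Lb.g g9 (@Lb.g g11 (@Lb.r r1540 (@Lb.r r423 (@Lb.r r401 (@Lb.r r2450 (@Lb.d (nat_lit 10) (nat_lit 86) (nat_lit 353) (@Lb.fp (nat_lit 3) t5436)))))))))
noncomputable def l36259 : Lb := (@Lb.d (nat_lit 128) (nat_lit 581) (nat_lit 406) (@Lb.r r20 (@Lb.r r2145 (@Lb.r r386 (@Lb.g g11 (@Lb.g g6 (@Lb.d (nat_lit 64) (nat_lit 0) (nat_lit 513) (@Lb.fp (nat_lit 3) t6408))))))))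
noncomputable def l36260 : Lb := (@Lb.d (nat_lit 153) (nat_lit 258) (nat_lit 162) (@Lb.g g8 (@Lb.g g9 (@Lb.g g10 (@Lb.g g11 (@Lb.r r2089 (@Lb.r r360 (@Lb.r r391 (@Lb.r r516 (@Lb.d (nat_lit 34) (nat_lit 41) (nat_lit 320) (@Lb.fp (nat_lit 9) t1400)))))))))))
noncomputable def l36261 : Lb := (@Lb.d (nat_lit 1) (nat_lit 514) (nat_lit 130) (@Lb.g g8 (@Lb.g g9 (@Lb.g g10 (@Lb.g g11 (@Lb.r r2666 (@Lb.r r579 (@Lb.r r97 (@Lb.r r24 (@Lb.d (nat_lit 361) (nat_lit 2) (nat_lit 681) (@Lb.fm (nat_lit 9) t61)))))))))))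
noncomputable def l36262 : Lb := (@Lb.d (nat_lit 130) (nat_lit 258) (nat_lit 130) (@Lb.g g8 (@Lb.g g9 (@Lb.g g10 (@Lb.g g11 (@Lb.r r1666 (@Lb.r r1411 (@Lb.r r1129 (@Lb.r r2084 (@Lb.d (nat_lit 34) (nat_lit 64) (nat_lit 361) (@Lb.fp (nat_lit 9) t6409)))))))))))
noncomputable def l36263 : Lb := (@Lb.d (nat_lit 33) (nat_lit 512) (nat_lit 129) (@Lb.r r154 (@Lb.r r404 (@Lb.r r363 (@Lb.r r353 (@Lb.g g7 (@Lb.g g6 (@Lb.g g4 (@Lb.d (nat_lit 5) (nat_lit 0) (nat_lit 64) (@Lb.t (@Lb.fp (nat_lit 9) t51)))))))))))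
noncomputable def l36264 : Lb := (@Lb.d (nat_lit 130) (nat_lit 514) (nat_lit 130) (@Lb.g g8 (@Lb.g g9 (@Lb.g g10 (@Lb.g g11 (@Lb.r r1666 (@Lb.r r1411 (@Lb.r r1129 (@Lb.r r2084 (@Lb.d (nat_lit 41) (nat_lit 66) (nat_lit 361) (@Lb.fp (nat_lit 9) t3814)))))))))))
noncomputable def l36265 : Lb := (@Lb.d (nat_lit 2) (nat_lit 256) (nat_lit 128) (@Lb.g g8 (@Lb.g g11 (@Lb.r r346 (@Lb.r r1447 (@Lb.r r1425 (@Lb.d (nat_lit 149) (nat_lit 129) (nat_lit 613) (@Lb.fm (nat_lit 3) t4797))))))))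
noncomputable def l36266 : Lb := (@Lb.d (nat_lit 548) (nat_lit 582) (nat_lit 80) (@Lb.r r2580 (@Lb.r r2329 (@Lb.r r2378 (@Lb.g g7 (@Lb.d (nat_lit 64) (nat_lit 0) (nat_lit 576) (@Lb.t (@Lb.fm (nat_lit 3) t5638))))))))
noncomputable def l36267 : Lb := (@Lb.d (nat_lit 164) (nat_lit 276) (nat_lit 594) (@Lb.r r1317 (@Lb.r r24 (@Lb.r r2375 (@Lb.g g10 (@Lb.g g5 (@Lb.d (nat_lit 4) (nat_lit 1) (nat_lit 22) (@Lb.r r132 (@Lb.fp (nat_lit 3) t5875)))))))))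
noncomputable def l36268 : Lb := (@Lb.d (nat_lit 160) (nat_lit 516) (nat_lit 128) (@Lb.g g9 (@Lb.g g10 (@Lb.g g11 (@Lb.r r264 (@Lb.r r327 (@Lb.r r618 (@Lb.r r97 (@Lb.d (nat_lit 21) (nat_lit 70) (nat_lit 529) (@Lb.t (@Lb.fm (nat_lit 9) t6410)))))))))))
noncomputable def l36269 : Lb := (@Lb.r r82 (@Lb.d (nat_lit 34) (nat_lit 514) (nat_lit 8) (@Lb.g g8 (@Lb.g g9 (@Lb.g g11 (@Lb.r r402 (@Lb.r r359 (@Lb.r r536 (@Lb.d (nat_lit 106) (nat_lit 101) (nat_lit 128) (@Lb.t (@Lb.fm (nat_lit 9) t1615)))))))))))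
noncomputable def l36270 : Lb := (@Lb.d (nat_lit 389) (nat_lit 408) (nat_lit 70) (@Lb.r r1158 (@Lb.r r2132 (@Lb.r r1619 (@Lb.g g7 (@Lb.g g5 (@Lb.d (nat_lit 8) (nat_lit 101) (nat_lit 64) (@Lb.r r610 (@Lb.fm (nat_lit 3) t6411)))))))))
noncomputable def l36271 : Lb := (@Lb.d (nat_lit 0) (nat_lit 512) (nat_lit 128) (@Lb.g g9 (@Lb.g g11 (@Lb.r r24 (@Lb.r r101 (@Lb.r r658 (@Lb.r r387 (@Lb.d (nat_lit 10) (nat_lit 2) (nat_lit 69) (@Lb.fp (nat_lit 3) t1412)))))))))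
noncomputable def l36272 : Lb := (@Lb.r r275 (@Lb.d (nat_lit 2) (nat_lit 256) (nat_lit 17) (@Lb.g g8 (@Lb.g g9 (@Lb.g g6 (@Lb.r r2657 (@Lb.r r291 (@Lb.r r24 (@Lb.d (nat_lit 10) (nat_lit 80) (nat_lit 296) (@Lb.t (@Lb.fp (nat_lit 9) t6412)))))))))))
noncomputable def l36273 : Lb := (@Lb.d (nat_lit 2) (nat_lit 38) (nat_lit 64) (@Lb.g g8 (@Lb.g g9 (@Lb.g g10 (@Lb.g g11 (@Lb.r r2595 (@Lb.r r386 (@Lb.r r612 (@Lb.r r533 (@Lb.r r1060 (@Lb.d (nat_lit 648) (nat_lit 9) (nat_lit 601) (@Lb.fp (nat_lit 9) t6413))))))))))))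
noncomputable def l36274 : Lb := (@Lb.d (nat_lit 2) (nat_lit 294) (nat_lit 1) (@Lb.g g8 (@Lb.g g9 (@Lb.g g10 (@Lb.r r2571 (@Lb.r r360 (@Lb.r r2374 (@Lb.d (nat_lit 608) (nat_lit 148) (nat_lit 662) (@Lb.t (@Lb.fm (nat_lit 9) t5377))))))))))
noncomputable def l36275 : Lb := (@Lb.r r70 (@Lb.d (nat_lit 5) (nat_lit 513) (nat_lit 0) (@Lb.g g8 (@Lb.g g5 (@Lb.r r1122 (@Lb.r r1576 (@Lb.d (nat_lit 584) (nat_lit 98) (nat_lit 384) (@Lb.fm (nat_lit 3) t5355))))))))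
noncomputable def l36276 : Lb := (@Lb.d (nat_lit 8) (nat_lit 514) (nat_lit 128) (@Lb.g g9 (@Lb.g g11 (@Lb.r r1540 (@Lb.r r2663 (@Lb.r r354 (@Lb.r r1185 (@Lb.d (nat_lit 10) (nat_lit 136) (nat_lit 84) (@Lb.fm (nat_lit 3) t2700)))))))))
noncomputable def l36277 : Lb := (@Lb.d (nat_lit 8) (nat_lit 514) (nat_lit 128) (@Lb.g g9 (@Lb.g g11 (@Lb.r r1540 (@Lb.r r2663 (@Lb.r r354 (@Lb.r r1185 (@Lb.d (nat_lit 10) (nat_lit 10) (nat_lit 84) (@Lb.fm (nat_lit 3) t2700)))))))))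
noncomputable def l36278 : Lb := (@Lb.r r70 (@Lb.d (nat_lit 293) (nat_lit 513) (nat_lit 128) (@Lb.g g8 (@Lb.g g5 (@Lb.g g11 (@Lb.r r2643 (@Lb.r r1122 (@Lb.d (nat_lit 0) (nat_lit 70) (nat_lit 161) (@Lb.t (@Lb.fm (nat_lit 9) t6414))))))))))
noncomputable def l36279 : Lb := (@Lb.d (nat_lit 4) (nat_lit 513) (nat_lit 130) (@Lb.g g5 (@Lb.g g10 (@Lb.g g11 (@Lb.r r1691 (@Lb.r r146 (@Lb.d (nat_lit 65) (nat_lit 6) (nat_lit 513) (@Lb.t (@Lb.fp (nat_lit 9) t1954)))))))))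
noncomputable def l36280 : Lb := (@Lb.r r273 (@Lb.d (nat_lit 128) (nat_lit 512) (nat_lit 17) (@Lb.g g10 (@Lb.g g11 (@Lb.r r2709 (@Lb.r r1316 (@Lb.r r2587 (@Lb.d (nat_lit 74) (nat_lit 162) (nat_lit 262) (@Lb.fp (nat_lit 3) t2184)))))))))
noncomputable def l36281 : Lb := (@Lb.r r89 (@Lb.r r166 (@Lb.r r340 (@Lb.r r683 (@Lb.r r657 (@Lb.r r36 (@Lb.d (nat_lit 0) (nat_lit 10) (nat_lit 68) (@Lb.fp (nat_lit 1) t21))))))))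
noncomputable def l36282 : Lb := (@Lb.d (nat_lit 97) (nat_lit 546) (nat_lit 72) (@Lb.g g8 (@Lb.g g9 (@Lb.g g6 (@Lb.g g11 (@Lb.r r1569 (@Lb.r r1447 (@Lb.r r1604 (@Lb.d (nat_lit 666) (nat_lit 0) (nat_lit 648) (@Lb.fp (nat_lit 9) t6415))))))))))
noncomputable def l36283 : Lb := (@Lb.d (nat_lit 86) (nat_lit 402) (nat_lit 613) (@Lb.r r1604 (@Lb.r r2133 (@Lb.r r426 (@Lb.g g11 (@Lb.g g6 (@Lb.g g5 (@Lb.g g4 (@Lb.d (nat_lit 73) (nat_lit 0) (nat_lit 513) (@Lb.fp (nat_lit 9) t5837))))))))))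
noncomputable def l36284 : Lb := (@Lb.r r273 (@Lb.d (nat_lit 128) (nat_lit 0) (nat_lit 145) (@Lb.g g10 (@Lb.g g11 (@Lb.r r2709 (@Lb.r r1316 (@Lb.r r2587 (@Lb.d (nat_lit 74) (nat_lit 162) (nat_lit 262) (@Lb.fp (nat_lit 3) t2184)))))))))
noncomputable def l36285 : Lb := (@Lb.d (nat_lit 0) (nat_lit 0) (nat_lit 2) (@Lb.g g9 (@Lb.g g10 (@Lb.g g7 (@Lb.r r2470 (@Lb.r r1624 (@Lb.r r2341 (@Lb.d (nat_lit 586) (nat_lit 130) (nat_lit 320) (@Lb.t (@Lb.fm (nat_lit 9) t2118))))))))))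
noncomputable def l36286 : Lb := (@Lb.d (nat_lit 645) (nat_lit 550) (nat_lit 646) (@Lb.r r536 (@Lb.r r353 (@Lb.r r1643 (@Lb.g g10 (@Lb.g g5 (@Lb.g g4 (@Lb.d (nat_lit 1) (nat_lit 1) (nat_lit 2) (@Lb.r r411 (@Lb.t (@Lb.fp (nat_lit 9) t1009)))))))))))
noncomputable def l36287 : Lb := (@Lb.d (nat_lit 134) (nat_lit 0) (nat_lit 130) (@Lb.g g8 (@Lb.g g9 (@Lb.g g10 (@Lb.g g11 (@Lb.r r1706 (@Lb.r r1411 (@Lb.r r552 (@Lb.r r1641 (@Lb.r r36 (@Lb.d (nat_lit 608) (nat_lit 74) (nat_lit 649) (@Lb.fm (nat_lit 9) t4576))))))))))))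
noncomputable def l36288 : Lb := (@Lb.d (nat_lit 2) (nat_lit 514) (nat_lit 73) (@Lb.g g8 (@Lb.g g9 (@Lb.g g10 (@Lb.g g11 (@Lb.r r2666 (@Lb.r r579 (@Lb.r r2337 (@Lb.r r24 (@Lb.d (nat_lit 586) (nat_lit 104) (nat_lit 585) (@Lb.fm (nat_lit 9) t3803)))))))))))
noncomputable def l36289 : Lb := (@Lb.d (nat_lit 33) (nat_lit 2) (nat_lit 129) (@Lb.g g8 (@Lb.g g9 (@Lb.g g10 (@Lb.g g11 (@Lb.r r2666 (@Lb.r r579 (@Lb.r r105 (@Lb.r r1704 (@Lb.d (nat_lit 41) (nat_lit 9) (nat_lit 384) (@Lb.fm (nat_lit 9) t6416)))))))))))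
noncomputable def l36290 : Lb := (@Lb.d (nat_lit 1) (nat_lit 32) (nat_lit 128) (@Lb.g g8 (@Lb.g g11 (@Lb.r r2712 (@Lb.r r293 (@Lb.r r2587 (@Lb.r r2178 (@Lb.d (nat_lit 105) (nat_lit 34) (nat_lit 402) (@Lb.fm (nat_lit 3) t1740)))))))))
noncomputable def l36291 : Lb := (@Lb.d (nat_lit 288) (nat_lit 256) (nat_lit 64) (@Lb.r r1416 (@Lb.r r2329 (@Lb.r r2178 (@Lb.g g7 (@Lb.g g5 (@Lb.d (nat_lit 64) (nat_lit 0) (nat_lit 328) (@Lb.fm (nat_lit 3) t1173))))))))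
noncomputable def l36292 : Lb := (@Lb.d (nat_lit 134) (nat_lit 2) (nat_lit 130) (@Lb.g g8 (@Lb.g g9 (@Lb.g g10 (@Lb.g g11 (@Lb.r r552 (@Lb.r r1547 (@Lb.r r2406 (@Lb.r r353 (@Lb.r r1060 (@Lb.d (nat_lit 73) (nat_lit 105) (nat_lit 662) (@Lb.fm (nat_lit 9) t6417))))))))))))
noncomputable def l36293 : Lb := (@Lb.d (nat_lit 133) (nat_lit 546) (nat_lit 66) (@Lb.g g8 (@Lb.g g9 (@Lb.g g10 (@Lb.g g11 (@Lb.r r2666 (@Lb.r r1641 (@Lb.r r1572 (@Lb.r r2471 (@Lb.d (nat_lit 136) (nat_lit 170) (nat_lit 82) (@Lb.fm (nat_lit 9) t6418)))))))))))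
noncomputable def l36294 : Lb := (@Lb.d (nat_lit 128) (nat_lit 545) (nat_lit 66) (@Lb.g g8 (@Lb.g g9 (@Lb.g g10 (@Lb.g g11 (@Lb.r r419 (@Lb.r r2726 (@Lb.r r344 (@Lb.r r1429 (@Lb.r r2084 (@Lb.d (nat_lit 105) (nat_lit 38) (nat_lit 616) (@Lb.fp (nat_lit 9) t6419))))))))))))
noncomputable def l36295 : Lb := (@Lb.d (nat_lit 152) (nat_lit 521) (nat_lit 73) (@Lb.g g8 (@Lb.g g9 (@Lb.g g10 (@Lb.g g11 (@Lb.r r673 (@Lb.r r2471 (@Lb.r r1126 (@Lb.r r1540 (@Lb.d (nat_lit 90) (nat_lit 88) (nat_lit 533) (@Lb.fm (nat_lit 9) t328)))))))))))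
noncomputable def l36296 : Lb := (@Lb.r r21 (@Lb.r r70 (@Lb.d (nat_lit 265) (nat_lit 512) (nat_lit 0) (@Lb.g g4 (@Lb.r r74 (@Lb.r r25 (@Lb.d (nat_lit 517) (nat_lit 129) (nat_lit 69) (@Lb.t (@Lb.fm (nat_lit 3) t647)))))))))
noncomputable def l36297 : Lb := (@Lb.d (nat_lit 2) (nat_lit 34) (nat_lit 66) (@Lb.g g8 (@Lb.g g9 (@Lb.g g10 (@Lb.g g11 (@Lb.r r2475 (@Lb.r r2440 (@Lb.r r2122 (@Lb.r r2581 (@Lb.d (nat_lit 409) (nat_lit 1) (nat_lit 648) (@Lb.fm (nat_lit 9) t5350)))))))))))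
noncomputable def l36298 : Lb := (@Lb.r r664 (@Lb.r r154 (@Lb.r r2133 (@Lb.r r164 (@Lb.d (nat_lit 1) (nat_lit 256) (nat_lit 384) (@Lb.fp (nat_lit 1) t2428))))))
noncomputable def l36299 : Lb := (@Lb.r r275 (@Lb.d (nat_lit 2) (nat_lit 256) (nat_lit 2) (@Lb.g g8 (@Lb.g g9 (@Lb.g g10 (@Lb.r r1689 (@Lb.r r2579 (@Lb.r r2440 (@Lb.r r2122 (@Lb.d (nat_lit 289) (nat_lit 10) (nat_lit 664) (@Lb.t (@Lb.fm (nat_lit 9) t6420))))))))))))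
noncomputable def l36300 : Lb := (@Lb.d (nat_lit 641) (nat_lit 288) (nat_lit 0) (@Lb.g g4 (@Lb.g g9 (@Lb.r r1299 (@Lb.r r2178 (@Lb.r r1569 (@Lb.d (nat_lit 288) (nat_lit 82) (nat_lit 290) (@Lb.fp (nat_lit 3) t5796))))))))
noncomputable def l36301 : Lb := (@Lb.d (nat_lit 130) (nat_lit 8) (nat_lit 2) (@Lb.g g8 (@Lb.g g10 (@Lb.r r295 (@Lb.r r1617 (@Lb.r r678 (@Lb.r r1604 (@Lb.d (nat_lit 16) (nat_lit 98) (nat_lit 533) (@Lb.fp (nat_lit 3) t6421)))))))))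
noncomputable def l36302 : Lb := (@Lb.d (nat_lit 1) (nat_lit 0) (nat_lit 2) (@Lb.g g8 (@Lb.g g9 (@Lb.g g10 (@Lb.g g7 (@Lb.r r386 (@Lb.r r2145 (@Lb.r r2584 (@Lb.d (nat_lit 645) (nat_lit 40) (nat_lit 425) (@Lb.fp (nat_lit 9) t996))))))))))
noncomputable def l36303 : Lb := (@Lb.r r331 (@Lb.d (nat_lit 1) (nat_lit 514) (nat_lit 2) (@Lb.g g8 (@Lb.g g9 (@Lb.g g10 (@Lb.r r2210 (@Lb.r r2600 (@Lb.r r665 (@Lb.r r2579 (@Lb.d (nat_lit 82) (nat_lit 138) (nat_lit 281) (@Lb.t (@Lb.fp (nat_lit 9) t5276))))))))))))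
noncomputable def l36304 : Lb := (@Lb.d (nat_lit 521) (nat_lit 100) (nat_lit 129) (@Lb.r r2454 (@Lb.g g11 (@Lb.g g6 (@Lb.g g9 (@Lb.d (nat_lit 72) (nat_lit 2) (nat_lit 512) (@Lb.t (@Lb.fm (nat_lit 9) t3561))))))))
noncomputable def l36305 : Lb := (@Lb.d (nat_lit 144) (nat_lit 521) (nat_lit 130) (@Lb.g g8 (@Lb.g g9 (@Lb.g g10 (@Lb.g g11 (@Lb.r r2722 (@Lb.r r2439 (@Lb.r r145 (@Lb.r r2632 (@Lb.d (nat_lit 616) (nat_lit 137) (nat_lit 425) (@Lb.fp (nat_lit 9) t3576)))))))))))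
noncomputable def l36306 : Lb := (@Lb.r r82 (@Lb.d (nat_lit 1) (nat_lit 2) (nat_lit 64) (@Lb.g g8 (@Lb.g g9 (@Lb.g g11 (@Lb.r r1305 (@Lb.r r1315 (@Lb.r r146 (@Lb.r r2436 (@Lb.d (nat_lit 592) (nat_lit 22) (nat_lit 64) (@Lb.t (@Lb.fp (nat_lit 9) t6422))))))))))))
noncomputable def l36307 : Lb := (@Lb.d (nat_lit 32) (nat_lit 0) (nat_lit 130) (@Lb.g g10 (@Lb.g g11 (@Lb.r r423 (@Lb.r r600 (@Lb.r r1429 (@Lb.r r406 (@Lb.d (nat_lit 657) (nat_lit 25) (nat_lit 420) (@Lb.fm (nat_lit 3) t2600)))))))))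
noncomputable def l36308 : Lb := (@Lb.d (nat_lit 96) (nat_lit 521) (nat_lit 72) (@Lb.g g8 (@Lb.g g9 (@Lb.g g10 (@Lb.g g11 (@Lb.r r2347 (@Lb.r r646 (@Lb.r r1381 (@Lb.r r1108 (@Lb.d (nat_lit 576) (nat_lit 166) (nat_lit 105) (@Lb.fp (nat_lit 9) t4025)))))))))))
noncomputable def l36309 : Lb := (@Lb.d (nat_lit 144) (nat_lit 2) (nat_lit 128) (@Lb.g g8 (@Lb.g g9 (@Lb.g g10 (@Lb.g g11 (@Lb.r r1666 (@Lb.r r1431 (@Lb.r r97 (@Lb.r r536 (@Lb.d (nat_lit 104) (nat_lit 41) (nat_lit 129) (@Lb.fm (nat_lit 9) t3913)))))))))))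
noncomputable def l36310 : Lb := (@Lb.d (nat_lit 329) (nat_lit 548) (nat_lit 401) (@Lb.r r2454 (@Lb.r r101 (@Lb.r r1291 (@Lb.g g11 (@Lb.t (@Lb.fp (nat_lit 3) t6423)))))))
noncomputable def l36311 : Lb := (@Lb.d (nat_lit 148) (nat_lit 665) (nat_lit 294) (@Lb.r r2390 (@Lb.g g11 (@Lb.g g10 (@Lb.g g9 (@Lb.d (nat_lit 64) (nat_lit 0) (nat_lit 513) (@Lb.t (@Lb.fm (nat_lit 9) t2062))))))))
noncomputable def l36312 : Lb := (@Lb.d (nat_lit 4) (nat_lit 0) (nat_lit 74) (@Lb.g g8 (@Lb.g g9 (@Lb.g g10 (@Lb.g g11 (@Lb.r r1666 (@Lb.r r1431 (@Lb.r r2585 (@Lb.d (nat_lit 329) (nat_lit 42) (nat_lit 144) (@Lb.fm (nat_lit 9) t324))))))))))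
noncomputable def l36313 : Lb := (@Lb.d (nat_lit 1) (nat_lit 514) (nat_lit 74) (@Lb.g g8 (@Lb.g g9 (@Lb.g g10 (@Lb.g g11 (@Lb.r r1559 (@Lb.r r2193 (@Lb.r r356 (@Lb.r r154 (@Lb.r r1156 (@Lb.d (nat_lit 40) (nat_lit 68) (nat_lit 74) (@Lb.fp (nat_lit 9) t756))))))))))))
noncomputable def l36314 : Lb := (@Lb.d (nat_lit 0) (nat_lit 288) (nat_lit 136) (@Lb.g g11 (@Lb.r r2449 (@Lb.r r1426 (@Lb.r r355 (@Lb.d (nat_lit 10) (nat_lit 138) (nat_lit 262) (@Lb.t (@Lb.fm (nat_lit 3) t402))))))))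
noncomputable def l36315 : Lb := (@Lb.g g7 (@Lb.r r616 (@Lb.r r2665 (@Lb.r r2390 (@Lb.r r1188 (@Lb.d (nat_lit 0) (nat_lit 322) (nat_lit 576) (@Lb.t (@Lb.fm (nat_lit 3) t322))))))))
noncomputable def l36316 : Lb := (@Lb.d (nat_lit 0) (nat_lit 2) (nat_lit 130) (@Lb.g g9 (@Lb.g g10 (@Lb.g g11 (@Lb.r r2691 (@Lb.r r1189 (@Lb.r r1638 (@Lb.r r24 (@Lb.d (nat_lit 146) (nat_lit 0) (nat_lit 356) (@Lb.t (@Lb.fp (nat_lit 9) t6424)))))))))))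
noncomputable def l36317 : Lb := (@Lb.d (nat_lit 1) (nat_lit 258) (nat_lit 130) (@Lb.g g8 (@Lb.g g9 (@Lb.g g10 (@Lb.g g11 (@Lb.r r2691 (@Lb.r r1193 (@Lb.r r1642 (@Lb.r r36 (@Lb.d (nat_lit 148) (nat_lit 1) (nat_lit 356) (@Lb.fp (nat_lit 9) t6424)))))))))))
noncomputable def l36318 : Lb := (@Lb.d (nat_lit 522) (nat_lit 421) (nat_lit 129) (@Lb.r r2649 (@Lb.r r2406 (@Lb.g g11 (@Lb.g g5 (@Lb.d (nat_lit 64) (nat_lit 5) (nat_lit 512) (@Lb.fp (nat_lit 3) t2112)))))))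
noncomputable def l36319 : Lb := (@Lb.d (nat_lit 9) (nat_lit 38) (nat_lit 128) (@Lb.g g8 (@Lb.g g9 (@Lb.g g10 (@Lb.g g11 (@Lb.r r674 (@Lb.r r2435 (@Lb.r r420 (@Lb.r r2197 (@Lb.r r1060 (@Lb.d (nat_lit 594) (nat_lit 162) (nat_lit 345) (@Lb.fm (nat_lit 9) t3984))))))))))))
noncomputable def l36320 : Lb := (@Lb.r r263 (@Lb.d (nat_lit 5) (nat_lit 258) (nat_lit 2) (@Lb.g g8 (@Lb.g g9 (@Lb.g g10 (@Lb.r r2643 (@Lb.r r106 (@Lb.r r289 (@Lb.r r600 (@Lb.d (nat_lit 354) (nat_lit 34) (nat_lit 329) (@Lb.t (@Lb.fp (nat_lit 9) t245))))))))))))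
noncomputable def l36321 : Lb := (@Lb.d (nat_lit 134) (nat_lit 0) (nat_lit 130) (@Lb.g g8 (@Lb.g g9 (@Lb.g g10 (@Lb.g g11 (@Lb.r r2410 (@Lb.r r2459 (@Lb.r r2725 (@Lb.r r2584 (@Lb.d (nat_lit 677) (nat_lit 38) (nat_lit 145) (@Lb.fp (nat_lit 9) t952)))))))))))
noncomputable def l36322 : Lb := (@Lb.d (nat_lit 134) (nat_lit 256) (nat_lit 130) (@Lb.g g8 (@Lb.g g9 (@Lb.g g10 (@Lb.g g11 (@Lb.r r419 (@Lb.r r1702 (@Lb.r r2337 (@Lb.r r1636 (@Lb.d (nat_lit 658) (nat_lit 24) (nat_lit 666) (@Lb.fp (nat_lit 9) t631)))))))))))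
noncomputable def l36323 : Lb := (@Lb.d (nat_lit 130) (nat_lit 264) (nat_lit 130) (@Lb.g g8 (@Lb.g g10 (@Lb.g g11 (@Lb.r r1411 (@Lb.r r1604 (@Lb.d (nat_lit 400) (nat_lit 2) (nat_lit 290) (@Lb.t (@Lb.fm (nat_lit 9) t3760)))))))))
noncomputable def l36324 : Lb := (@Lb.d (nat_lit 32) (nat_lit 2) (nat_lit 130) (@Lb.g g9 (@Lb.g g10 (@Lb.g g11 (@Lb.r r1447 (@Lb.r r293 (@Lb.r r72 (@Lb.r r150 (@Lb.d (nat_lit 260) (nat_lit 0) (nat_lit 257) (@Lb.t (@Lb.fp (nat_lit 9) t296)))))))))))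
noncomputable def l36325 : Lb := (@Lb.d (nat_lit 130) (nat_lit 18) (nat_lit 130) (@Lb.g g8 (@Lb.g g9 (@Lb.g g10 (@Lb.g g11 (@Lb.r r618 (@Lb.r r2635 (@Lb.r r297 (@Lb.r r2084 (@Lb.d (nat_lit 337) (nat_lit 164) (nat_lit 345) (@Lb.fp (nat_lit 9) t245)))))))))))
noncomputable def l36326 : Lb := (@Lb.d (nat_lit 134) (nat_lit 512) (nat_lit 130) (@Lb.g g8 (@Lb.g g9 (@Lb.g g10 (@Lb.g g11 (@Lb.r r2410 (@Lb.r r2459 (@Lb.r r2725 (@Lb.r r2584 (@Lb.d (nat_lit 678) (nat_lit 38) (nat_lit 145) (@Lb.fp (nat_lit 9) t956)))))))))))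
noncomputable def l36327 : Lb := (@Lb.d (nat_lit 5) (nat_lit 512) (nat_lit 128) (@Lb.g g4 (@Lb.g g11 (@Lb.r r2567 (@Lb.d (nat_lit 128) (nat_lit 1) (nat_lit 320) (@Lb.fm (nat_lit 3) t1168))))))
noncomputable def l36328 : Lb := (@Lb.r r82 (@Lb.r r275 (@Lb.d (nat_lit 2) (nat_lit 257) (nat_lit 0) (@Lb.g g8 (@Lb.g g5 (@Lb.r r2315 (@Lb.r r98 (@Lb.r r24 (@Lb.d (nat_lit 106) (nat_lit 2) (nat_lit 592) (@Lb.fm (nat_lit 3) t1727))))))))))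
noncomputable def l36329 : Lb := (@Lb.d (nat_lit 5) (nat_lit 512) (nat_lit 0) (@Lb.g g4 (@Lb.r r2311 (@Lb.d (nat_lit 261) (nat_lit 65) (nat_lit 64) (@Lb.t (@Lb.fm (nat_lit 3) t1165))))))
noncomputable def l36330 : Lb := (@Lb.d (nat_lit 4) (nat_lit 512) (nat_lit 130) (@Lb.g g8 (@Lb.g g9 (@Lb.g g10 (@Lb.g g11 (@Lb.r r1299 (@Lb.r r2705 (@Lb.r r2646 (@Lb.r r1416 (@Lb.d (nat_lit 384) (nat_lit 2) (nat_lit 384) (@Lb.fm (nat_lit 9) t441)))))))))))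
noncomputable def l36331 : Lb := (@Lb.d (nat_lit 273) (nat_lit 406) (nat_lit 2) (@Lb.r r2408 (@Lb.r r89 (@Lb.r r386 (@Lb.g g11 (@Lb.g g6 (@Lb.g g4 (@Lb.d (nat_lit 5) (nat_lit 0) (nat_lit 385) (@Lb.r r529 (@Lb.t (@Lb.fm (nat_lit 9) t1446)))))))))))
noncomputable def l36332 : Lb := (@Lb.d (nat_lit 4) (nat_lit 512) (nat_lit 130) (@Lb.g g8 (@Lb.g g9 (@Lb.g g10 (@Lb.g g11 (@Lb.r r1299 (@Lb.r r2705 (@Lb.r r2646 (@Lb.r r1416 (@Lb.d (nat_lit 392) (nat_lit 1) (nat_lit 384) (@Lb.fm (nat_lit 9) t441)))))))))))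
noncomputable def l36333 : Lb := (@Lb.g g11 (@Lb.d (nat_lit 10) (nat_lit 514) (nat_lit 0) (@Lb.t (@Lb.fp (nat_lit 3) t2))))
noncomputable def l36334 : Lb := (@Lb.r r2331 (@Lb.r r24 (@Lb.d (nat_lit 256) (nat_lit 64) (nat_lit 133) (@Lb.fm (nat_lit 1) t973))))
noncomputable def l36335 : Lb := (@Lb.d (nat_lit 0) (nat_lit 257) (nat_lit 136) (@Lb.g g9 (@Lb.g g10 (@Lb.g g11 (@Lb.r r2391 (@Lb.r r2665 (@Lb.r r1106 (@Lb.d (nat_lit 401) (nat_lit 10) (nat_lit 69) (@Lb.t (@Lb.fp (nat_lit 9) t2146))))))))))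
noncomputable def l36336 : Lb := (@Lb.d (nat_lit 9) (nat_lit 1) (nat_lit 2) (@Lb.g g8 (@Lb.g g9 (@Lb.g g10 (@Lb.g g11 (@Lb.r r2691 (@Lb.r r297 (@Lb.r r360 (@Lb.r r582 (@Lb.r r2180 (@Lb.d (nat_lit 641) (nat_lit 10) (nat_lit 329) (@Lb.fm (nat_lit 9) t242))))))))))))
noncomputable def l36337 : Lb := (@Lb.d (nat_lit 0) (nat_lit 518) (nat_lit 137) (@Lb.g g9 (@Lb.g g10 (@Lb.g g11 (@Lb.r r2391 (@Lb.r r342 (@Lb.r r105 (@Lb.d (nat_lit 42) (nat_lit 16) (nat_lit 329) (@Lb.t (@Lb.fp (nat_lit 9) t5822))))))))))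
noncomputable def l36338 : Lb := (@Lb.r r20 (@Lb.d (nat_lit 4) (nat_lit 66) (nat_lit 2) (@Lb.g g9 (@Lb.g g10 (@Lb.g g11 (@Lb.r r1642 (@Lb.r r2635 (@Lb.r r8 (@Lb.d (nat_lit 258) (nat_lit 97) (nat_lit 586) (@Lb.t (@Lb.fm (nat_lit 9) t6425)))))))))))
noncomputable def l36339 : Lb := (@Lb.d (nat_lit 1) (nat_lit 256) (nat_lit 2) (@Lb.g g8 (@Lb.g g10 (@Lb.r r362 (@Lb.r r360 (@Lb.r r407 (@Lb.r r537 (@Lb.d (nat_lit 66) (nat_lit 128) (nat_lit 384) (@Lb.fp (nat_lit 3) t1628)))))))))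
noncomputable def l36340 : Lb := (@Lb.d (nat_lit 9) (nat_lit 257) (nat_lit 130) (@Lb.g g8 (@Lb.g g9 (@Lb.g g10 (@Lb.g g11 (@Lb.r r2666 (@Lb.r r579 (@Lb.r r2337 (@Lb.r r24 (@Lb.d (nat_lit 586) (nat_lit 97) (nat_lit 586) (@Lb.fm (nat_lit 9) t504)))))))))))
noncomputable def l36341 : Lb := (@Lb.r r331 (@Lb.d (nat_lit 514) (nat_lit 513) (nat_lit 0) (@Lb.g g8 (@Lb.g g9 (@Lb.g g10 (@Lb.r r2731 (@Lb.r r162 (@Lb.r r1169 (@Lb.d (nat_lit 358) (nat_lit 133) (nat_lit 513) (@Lb.t (@Lb.fm (nat_lit 9) t3204)))))))))))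
noncomputable def l36342 : Lb := (@Lb.d (nat_lit 32) (nat_lit 258) (nat_lit 64) (@Lb.g g8 (@Lb.g g9 (@Lb.g g11 (@Lb.r r2201 (@Lb.r r1434 (@Lb.r r1371 (@Lb.r r1348 (@Lb.d (nat_lit 405) (nat_lit 66) (nat_lit 298) (@Lb.t (@Lb.fp (nat_lit 9) t6426)))))))))))
noncomputable def l36343 : Lb := (@Lb.d (nat_lit 129) (nat_lit 322) (nat_lit 138) (@Lb.g g8 (@Lb.g g9 (@Lb.g g10 (@Lb.g g11 (@Lb.r r1387 (@Lb.r r2146 (@Lb.r r2696 (@Lb.d (nat_lit 642) (nat_lit 33) (nat_lit 522) (@Lb.fm (nat_lit 9) t3858))))))))))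
noncomputable def l36344 : Lb := (@Lb.d (nat_lit 4) (nat_lit 320) (nat_lit 164) (@Lb.r r1604 (@Lb.r r1639 (@Lb.r r1362 (@Lb.r r2729 (@Lb.g g6 (@Lb.g g5 (@Lb.g g4 (@Lb.d (nat_lit 6) (nat_lit 4) (nat_lit 2) (@Lb.t (@Lb.fp (nat_lit 9) t4385)))))))))))
noncomputable def l36345 : Lb := (@Lb.d (nat_lit 69) (nat_lit 594) (nat_lit 596) (@Lb.r r24 (@Lb.r r1313 (@Lb.r r2474 (@Lb.r r2691 (@Lb.g g7 (@Lb.g g6 (@Lb.g g5 (@Lb.d (nat_lit 0) (nat_lit 8) (nat_lit 133) (@Lb.t (@Lb.fp (nat_lit 9) t1884)))))))))))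
noncomputable def l36346 : Lb := (@Lb.d (nat_lit 4) (nat_lit 576) (nat_lit 164) (@Lb.r r1604 (@Lb.r r1639 (@Lb.r r1362 (@Lb.r r2729 (@Lb.g g6 (@Lb.g g5 (@Lb.g g4 (@Lb.d (nat_lit 6) (nat_lit 2) (nat_lit 1) (@Lb.t (@Lb.fp (nat_lit 9) t4385)))))))))))
noncomputable def l36347 : Lb := (@Lb.d (nat_lit 70) (nat_lit 64) (nat_lit 340) (@Lb.r r580 (@Lb.r r615 (@Lb.r r2386 (@Lb.r r2729 (@Lb.g g6 (@Lb.g g5 (@Lb.g g4 (@Lb.d (nat_lit 18) (nat_lit 8) (nat_lit 1) (@Lb.t (@Lb.fp (nat_lit 9) t42)))))))))))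
noncomputable def l36348 : Lb := (@Lb.d (nat_lit 96) (nat_lit 514) (nat_lit 74) (@Lb.g g8 (@Lb.g g9 (@Lb.g g10 (@Lb.g g11 (@Lb.r r169 (@Lb.r r616 (@Lb.r r651 (@Lb.r r1690 (@Lb.r r516 (@Lb.d (nat_lit 617) (nat_lit 21) (nat_lit 614) (@Lb.fp (nat_lit 9) t2552))))))))))))
noncomputable def l36349 : Lb := (@Lb.d (nat_lit 0) (nat_lit 258) (nat_lit 74) (@Lb.g g9 (@Lb.g g10 (@Lb.g g11 (@Lb.r r2193 (@Lb.r r658 (@Lb.r r2439 (@Lb.r r2564 (@Lb.d (nat_lit 86) (nat_lit 70) (nat_lit 596) (@Lb.t (@Lb.fp (nat_lit 9) t312)))))))))))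
noncomputable def l36350 : Lb := (@Lb.d (nat_lit 132) (nat_lit 4) (nat_lit 74) (@Lb.g g8 (@Lb.g g9 (@Lb.g g10 (@Lb.g g11 (@Lb.r r1707 (@Lb.r r676 (@Lb.r r1158 (@Lb.r r1121 (@Lb.d (nat_lit 33) (nat_lit 41) (nat_lit 641) (@Lb.fm (nat_lit 9) t1144)))))))))))
noncomputable def l36351 : Lb := (@Lb.r r82 (@Lb.d (nat_lit 134) (nat_lit 256) (nat_lit 256) (@Lb.g g8 (@Lb.g g9 (@Lb.g g7 (@Lb.r r386 (@Lb.r r2344 (@Lb.r r1049 (@Lb.d (nat_lit 266) (nat_lit 40) (nat_lit 642) (@Lb.t (@Lb.fp (nat_lit 9) t6427)))))))))))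
noncomputable def l36352 : Lb := (@Lb.d (nat_lit 18) (nat_lit 258) (nat_lit 2) (@Lb.g g8 (@Lb.g g9 (@Lb.g g10 (@Lb.r r675 (@Lb.r r405 (@Lb.r r2404 (@Lb.r r74 (@Lb.d (nat_lit 673) (nat_lit 101) (nat_lit 70) (@Lb.t (@Lb.fp (nat_lit 9) t6428)))))))))))
noncomputable def l36353 : Lb := (@Lb.d (nat_lit 146) (nat_lit 2) (nat_lit 10) (@Lb.g g8 (@Lb.g g9 (@Lb.g g10 (@Lb.g g11 (@Lb.r r1194 (@Lb.r r420 (@Lb.r r1307 (@Lb.r r1557 (@Lb.r r1060 (@Lb.d (nat_lit 386) (nat_lit 1) (nat_lit 618) (@Lb.fm (nat_lit 9) t1347))))))))))))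
noncomputable def l36354 : Lb := (@Lb.r r21 (@Lb.r r70 (@Lb.d (nat_lit 64) (nat_lit 512) (nat_lit 392) (@Lb.g g8 (@Lb.g g7 (@Lb.r r2442 (@Lb.r r2393 (@Lb.r r2372 (@Lb.d (nat_lit 65) (nat_lit 0) (nat_lit 298) (@Lb.fm (nat_lit 3) t3045))))))))))
noncomputable def l36355 : Lb := (@Lb.d (nat_lit 278) (nat_lit 34) (nat_lit 529) (@Lb.r r165 (@Lb.r r390 (@Lb.r r363 (@Lb.g g5 (@Lb.g g4 (@Lb.d (nat_lit 578) (nat_lit 16) (nat_lit 0) (@Lb.r r74 (@Lb.fm (nat_lit 3) t2075)))))))))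
noncomputable def l36356 : Lb := (@Lb.r r322 (@Lb.d (nat_lit 0) (nat_lit 133) (nat_lit 576) (@Lb.g g5 (@Lb.g g7 (@Lb.r r1426 (@Lb.d (nat_lit 0) (nat_lit 1) (nat_lit 132) (@Lb.fp (nat_lit 3) t311)))))))
noncomputable def l36357 : Lb := (@Lb.d (nat_lit 256) (nat_lit 680) (nat_lit 674) (@Lb.r r390 (@Lb.r r1624 (@Lb.r r1611 (@Lb.g g5 (@Lb.g g4 (@Lb.d (nat_lit 5) (nat_lit 38) (nat_lit 0) (@Lb.r r74 (@Lb.fp (nat_lit 3) t3421)))))))))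
noncomputable def l36358 : Lb := (@Lb.d (nat_lit 9) (nat_lit 513) (nat_lit 74) (@Lb.g g8 (@Lb.g g9 (@Lb.g g10 (@Lb.g g11 (@Lb.r r1297 (@Lb.r r2339 (@Lb.r r644 (@Lb.r r2630 (@Lb.r r2180 (@Lb.d (nat_lit 132) (nat_lit 96) (nat_lit 674) (@Lb.fp (nat_lit 9) t1644))))))))))))
noncomputable def l36359 : Lb := (@Lb.d (nat_lit 0) (nat_lit 5) (nat_lit 74) (@Lb.g g9 (@Lb.g g10 (@Lb.g g11 (@Lb.r r2659 (@Lb.r r166 (@Lb.r r2644 (@Lb.r r1321 (@Lb.d (nat_lit 137) (nat_lit 32) (nat_lit 320) (@Lb.t (@Lb.fp (nat_lit 9) t848)))))))))))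
noncomputable def l36360 : Lb := (@Lb.d (nat_lit 33) (nat_lit 514) (nat_lit 129) (@Lb.g g8 (@Lb.g g9 (@Lb.g g6 (@Lb.g g11 (@Lb.r r1643 (@Lb.r r1561 (@Lb.r r1540 (@Lb.d (nat_lit 393) (nat_lit 66) (nat_lit 641) (@Lb.fp (nat_lit 9) t128))))))))))
noncomputable def l36361 : Lb := (@Lb.d (nat_lit 0) (nat_lit 256) (nat_lit 137) (@Lb.g g9 (@Lb.g g10 (@Lb.g g11 (@Lb.r r166 (@Lb.r r1624 (@Lb.r r1291 (@Lb.r r289 (@Lb.d (nat_lit 10) (nat_lit 130) (nat_lit 576) (@Lb.t (@Lb.fp (nat_lit 9) t1412)))))))))))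
noncomputable def l36362 : Lb := (@Lb.d (nat_lit 0) (nat_lit 512) (nat_lit 73) (@Lb.g g9 (@Lb.g g10 (@Lb.g g11 (@Lb.r r166 (@Lb.r r584 (@Lb.r r299 (@Lb.r r289 (@Lb.d (nat_lit 326) (nat_lit 96) (nat_lit 576) (@Lb.t (@Lb.fp (nat_lit 9) t668)))))))))))
noncomputable def l36363 : Lb := (@Lb.r r275 (@Lb.d (nat_lit 130) (nat_lit 521) (nat_lit 1) (@Lb.g g8 (@Lb.g g9 (@Lb.g g10 (@Lb.r r599 (@Lb.r r98 (@Lb.r r2725 (@Lb.r r1432 (@Lb.d (nat_lit 681) (nat_lit 80) (nat_lit 409) (@Lb.t (@Lb.fp (nat_lit 9) t1665))))))))))))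
noncomputable def l36364 : Lb := (@Lb.d (nat_lit 2) (nat_lit 9) (nat_lit 129) (@Lb.g g8 (@Lb.g g9 (@Lb.g g10 (@Lb.g g11 (@Lb.r r2722 (@Lb.r r548 (@Lb.r r661 (@Lb.r r535 (@Lb.r r2084 (@Lb.d (nat_lit 2) (nat_lit 10) (nat_lit 329) (@Lb.fp (nat_lit 9) t739))))))))))))
noncomputable def l36365 : Lb := (@Lb.d (nat_lit 2) (nat_lit 9) (nat_lit 65) (@Lb.g g8 (@Lb.g g9 (@Lb.g g10 (@Lb.g g7 (@Lb.r r2466 (@Lb.r r292 (@Lb.r r405 (@Lb.r r2084 (@Lb.d (nat_lit 160) (nat_lit 10) (nat_lit 537) (@Lb.fp (nat_lit 9) t722)))))))))))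
noncomputable def l36366 : Lb := (@Lb.d (nat_lit 129) (nat_lit 514) (nat_lit 66) (@Lb.g g8 (@Lb.g g9 (@Lb.g g10 (@Lb.g g11 (@Lb.r r2662 (@Lb.r r1060 (@Lb.r r405 (@Lb.r r2339 (@Lb.d (nat_lit 617) (nat_lit 97) (nat_lit 5) (@Lb.fp (nat_lit 9) t1039)))))))))))
noncomputable def l36367 : Lb := (@Lb.d (nat_lit 5) (nat_lit 512) (nat_lit 0) (@Lb.g g4 (@Lb.r r101 (@Lb.d (nat_lit 1) (nat_lit 144) (nat_lit 264) (@Lb.t (@Lb.fp (nat_lit 3) t1174))))))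
noncomputable def l36368 : Lb := (@Lb.r r21 (@Lb.d (nat_lit 128) (nat_lit 256) (nat_lit 265) (@Lb.g g8 (@Lb.g g10 (@Lb.g g7 (@Lb.r r404 (@Lb.r r2438 (@Lb.r r25 (@Lb.d (nat_lit 137) (nat_lit 10) (nat_lit 297) (@Lb.t (@Lb.fm (nat_lit 9) t1975)))))))))))
noncomputable def l36369 : Lb := (@Lb.d (nat_lit 0) (nat_lit 16) (nat_lit 585) (@Lb.g g10 (@Lb.g g7 (@Lb.r r1620 (@Lb.r r2122 (@Lb.r r289 (@Lb.d (nat_lit 362) (nat_lit 74) (nat_lit 656) (@Lb.fm (nat_lit 3) t4495))))))))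
noncomputable def l36370 : Lb := (@Lb.d (nat_lit 0) (nat_lit 345) (nat_lit 260) (@Lb.r r1284 (@Lb.r r323 (@Lb.r r658 (@Lb.g g7 (@Lb.g g5 (@Lb.d (nat_lit 0) (nat_lit 134) (nat_lit 64) (@Lb.fp (nat_lit 3) t1754))))))))
noncomputable def l36371 : Lb := (@Lb.r r279 (@Lb.d (nat_lit 0) (nat_lit 0) (nat_lit 2) (@Lb.g g8 (@Lb.g g9 (@Lb.g g10 (@Lb.r r1706 (@Lb.r r1668 (@Lb.r r519 (@Lb.r r153 (@Lb.d (nat_lit 328) (nat_lit 5) (nat_lit 544) (@Lb.t (@Lb.fm (nat_lit 9) t754))))))))))))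
noncomputable def l36372 : Lb := (@Lb.r r21 (@Lb.d (nat_lit 65) (nat_lit 0) (nat_lit 137) (@Lb.g g8 (@Lb.g g10 (@Lb.g g11 (@Lb.r r2731 (@Lb.r r386 (@Lb.r r2657 (@Lb.r r2216 (@Lb.d (nat_lit 166) (nat_lit 84) (nat_lit 341) (@Lb.t (@Lb.fm (nat_lit 9) t3199))))))))))))
noncomputable def l36373 : Lb := (@Lb.r r21 (@Lb.d (nat_lit 98) (nat_lit 256) (nat_lit 513) (@Lb.g g8 (@Lb.g g10 (@Lb.g g11 (@Lb.r r2374 (@Lb.r r1625 (@Lb.r r1604 (@Lb.d (nat_lit 674) (nat_lit 5) (nat_lit 153) (@Lb.t (@Lb.fm (nat_lit 9) t6429)))))))))))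
noncomputable def l36374 : Lb := (@Lb.r r2069 (@Lb.r r2118 (@Lb.r r2311 (@Lb.d (nat_lit 2) (nat_lit 256) (nat_lit 0) (@Lb.g g4 (@Lb.d (nat_lit 2) (nat_lit 88) (nat_lit 521) (@Lb.t (@Lb.fm (nat_lit 3) t6430))))))))
noncomputable def l36375 : Lb := (@Lb.d (nat_lit 146) (nat_lit 256) (nat_lit 73) (@Lb.g g8 (@Lb.g g9 (@Lb.g g10 (@Lb.g g11 (@Lb.r r2713 (@Lb.r r1560 (@Lb.r r2315 (@Lb.r r134 (@Lb.d (nat_lit 417) (nat_lit 162) (nat_lit 337) (@Lb.fp (nat_lit 9) t6431)))))))))))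
noncomputable def l36376 : Lb := (@Lb.r r359 (@Lb.d (nat_lit 0) (nat_lit 514) (nat_lit 2) (@Lb.g g8 (@Lb.g g9 (@Lb.g g10 (@Lb.r r1699 (@Lb.r r168 (@Lb.r r2666 (@Lb.r r537 (@Lb.d (nat_lit 426) (nat_lit 98) (nat_lit 137) (@Lb.t (@Lb.fm (nat_lit 9) t2440))))))))))))
noncomputable def l36377 : Lb := (@Lb.d (nat_lit 657) (nat_lit 345) (nat_lit 650) (@Lb.r r1434 (@Lb.r r101 (@Lb.r r2311 (@Lb.g g4 (@Lb.d (nat_lit 549) (nat_lit 0) (nat_lit 0) (@Lb.t (@Lb.fm (nat_lit 3) t3773))))))))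
noncomputable def l36378 : Lb := (@Lb.r r82 (@Lb.d (nat_lit 2) (nat_lit 289) (nat_lit 64) (@Lb.g g8 (@Lb.g g9 (@Lb.g g11 (@Lb.r r1543 (@Lb.r r1622 (@Lb.r r2345 (@Lb.r r24 (@Lb.d (nat_lit 262) (nat_lit 97) (nat_lit 64) (@Lb.t (@Lb.fp (nat_lit 9) t771))))))))))))
noncomputable def l36379 : Lb := (@Lb.d (nat_lit 394) (nat_lit 426) (nat_lit 278) (@Lb.r r1705 (@Lb.r r683 (@Lb.r r2666 (@Lb.r r1380 (@Lb.g g7 (@Lb.g g5 (@Lb.d (nat_lit 72) (nat_lit 6) (nat_lit 128) (@Lb.fm (nat_lit 3) t979)))))))))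
noncomputable def l36380 : Lb := (@Lb.r r338 (@Lb.d (nat_lit 36) (nat_lit 2) (nat_lit 136) (@Lb.g g8 (@Lb.g g9 (@Lb.g g11 (@Lb.r r1174 (@Lb.r r1621 (@Lb.r r1300 (@Lb.d (nat_lit 146) (nat_lit 153) (nat_lit 97) (@Lb.t (@Lb.fp (nat_lit 9) t693)))))))))))
noncomputable def l36381 : Lb := (@Lb.r r21 (@Lb.d (nat_lit 6) (nat_lit 0) (nat_lit 74) (@Lb.g g8 (@Lb.g g10 (@Lb.g g11 (@Lb.r r387 (@Lb.r r2154 (@Lb.r r25 (@Lb.d (nat_lit 0) (nat_lit 84) (nat_lit 281) (@Lb.t (@Lb.fm (nat_lit 9) t334)))))))))))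
noncomputable def l36382 : Lb := (@Lb.d (nat_lit 0) (nat_lit 260) (nat_lit 128) (@Lb.g g8 (@Lb.g g9 (@Lb.g g10 (@Lb.g g11 (@Lb.r r425 (@Lb.r r599 (@Lb.r r1366 (@Lb.r r1124 (@Lb.d (nat_lit 578) (nat_lit 10) (nat_lit 545) (@Lb.fp (nat_lit 9) t6432)))))))))))
noncomputable def l36383 : Lb := (@Lb.d (nat_lit 282) (nat_lit 342) (nat_lit 265) (@Lb.r r292 (@Lb.r r2341 (@Lb.r r2651 (@Lb.g g6 (@Lb.g g4 (@Lb.d (nat_lit 17) (nat_lit 4) (nat_lit 1) (@Lb.r r391 (@Lb.fm (nat_lit 3) t3549)))))))))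
noncomputable def l36384 : Lb := (@Lb.d (nat_lit 4) (nat_lit 2) (nat_lit 130) (@Lb.g g9 (@Lb.g g10 (@Lb.g g11 (@Lb.r r423 (@Lb.r r600 (@Lb.r r662 (@Lb.r r2393 (@Lb.d (nat_lit 580) (nat_lit 165) (nat_lit 385) (@Lb.t (@Lb.fm (nat_lit 9) t3230)))))))))))
noncomputable def l36385 : Lb := (@Lb.r r323 (@Lb.d (nat_lit 4) (nat_lit 258) (nat_lit 10) (@Lb.g g9 (@Lb.g g10 (@Lb.r r2647 (@Lb.r r1370 (@Lb.r r8 (@Lb.d (nat_lit 149) (nat_lit 68) (nat_lit 598) (@Lb.fm (nat_lit 3) t2050)))))))))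
noncomputable def l36386 : Lb := (@Lb.d (nat_lit 324) (nat_lit 1) (nat_lit 405) (@Lb.r r1378 (@Lb.r r1641 (@Lb.r r1319 (@Lb.g g6 (@Lb.g g5 (@Lb.g g4 (@Lb.d (nat_lit 321) (nat_lit 16) (nat_lit 5) (@Lb.t (@Lb.fm (nat_lit 9) t6433))))))))))
noncomputable def l36387 : Lb := (@Lb.d (nat_lit 324) (nat_lit 513) (nat_lit 405) (@Lb.r r1378 (@Lb.r r1641 (@Lb.r r1319 (@Lb.g g6 (@Lb.g g5 (@Lb.g g4 (@Lb.d (nat_lit 322) (nat_lit 16) (nat_lit 5) (@Lb.t (@Lb.fm (nat_lit 9) t6434))))))))))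
noncomputable def l36388 : Lb := (@Lb.d (nat_lit 161) (nat_lit 512) (nat_lit 69) (@Lb.g g8 (@Lb.g g10 (@Lb.g g11 (@Lb.r r647 (@Lb.r r2378 (@Lb.r r1305 (@Lb.r r2328 (@Lb.d (nat_lit 648) (nat_lit 81) (nat_lit 657) (@Lb.t (@Lb.fm (nat_lit 9) t6435)))))))))))
noncomputable def l36389 : Lb := (@Lb.d (nat_lit 42) (nat_lit 256) (nat_lit 133) (@Lb.g g8 (@Lb.g g10 (@Lb.g g11 (@Lb.r r1361 (@Lb.r r2727 (@Lb.r r1638 (@Lb.r r2308 (@Lb.d (nat_lit 90) (nat_lit 137) (nat_lit 673) (@Lb.t (@Lb.fp (nat_lit 9) t6435)))))))))))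
noncomputable def l36390 : Lb := (@Lb.d (nat_lit 128) (nat_lit 260) (nat_lit 146) (@Lb.g g6 (@Lb.g g11 (@Lb.r r264 (@Lb.r r263 (@Lb.r r2145 (@Lb.d (nat_lit 260) (nat_lit 17) (nat_lit 513) (@Lb.fp (nat_lit 3) t4588))))))))
noncomputable def l36391 : Lb := (@Lb.d (nat_lit 0) (nat_lit 512) (nat_lit 128) (@Lb.g g8 (@Lb.g g10 (@Lb.g g11 (@Lb.r r1579 (@Lb.r r2453 (@Lb.r r2390 (@Lb.r r1636 (@Lb.d (nat_lit 132) (nat_lit 18) (nat_lit 666) (@Lb.t (@Lb.fp (nat_lit 9) t6436)))))))))))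
noncomputable def l36392 : Lb := (@Lb.d (nat_lit 134) (nat_lit 38) (nat_lit 64) (@Lb.g g8 (@Lb.g g9 (@Lb.g g10 (@Lb.g g11 (@Lb.r r1707 (@Lb.r r2601 (@Lb.r r104 (@Lb.r r582 (@Lb.r r2180 (@Lb.d (nat_lit 585) (nat_lit 168) (nat_lit 665) (@Lb.fm (nat_lit 9) t6437))))))))))))
noncomputable def l36393 : Lb := (@Lb.d (nat_lit 160) (nat_lit 32) (nat_lit 130) (@Lb.g g6 (@Lb.g g11 (@Lb.r r296 (@Lb.r r361 (@Lb.r r2711 (@Lb.d (nat_lit 132) (nat_lit 104) (nat_lit 388) (@Lb.fm (nat_lit 3) t6438))))))))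
noncomputable def l36394 : Lb := (@Lb.r r21 (@Lb.d (nat_lit 0) (nat_lit 0) (nat_lit 128) (@Lb.g g8 (@Lb.g g10 (@Lb.g g11 (@Lb.r r387 (@Lb.r r1636 (@Lb.r r2149 (@Lb.r r402 (@Lb.d (nat_lit 0) (nat_lit 68) (nat_lit 290) (@Lb.t (@Lb.fm (nat_lit 9) t6084))))))))))))
noncomputable def l36395 : Lb := (@Lb.d (nat_lit 417) (nat_lit 641) (nat_lit 576) (@Lb.r r1352 (@Lb.r r1178 (@Lb.r r1641 (@Lb.r r2347 (@Lb.g g6 (@Lb.g g5 (@Lb.g g4 (@Lb.d (nat_lit 64) (nat_lit 1) (nat_lit 5) (@Lb.t (@Lb.fm (nat_lit 9) t6439)))))))))))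
noncomputable def l36396 : Lb := (@Lb.d (nat_lit 32) (nat_lit 256) (nat_lit 144) (@Lb.g g10 (@Lb.g g11 (@Lb.r r387 (@Lb.d (nat_lit 17) (nat_lit 0) (nat_lit 41) (@Lb.fm (nat_lit 3) t2653))))))
noncomputable def l36397 : Lb := (@Lb.d (nat_lit 9) (nat_lit 6) (nat_lit 64) (@Lb.g g8 (@Lb.g g9 (@Lb.g g10 (@Lb.g g7 (@Lb.r r386 (@Lb.r r100 (@Lb.r r21 (@Lb.r r36 (@Lb.d (nat_lit 33) (nat_lit 90) (nat_lit 265) (@Lb.fp (nat_lit 9) t6233)))))))))))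
noncomputable def l36398 : Lb := (@Lb.d (nat_lit 5) (nat_lit 546) (nat_lit 66) (@Lb.g g8 (@Lb.g g9 (@Lb.g g10 (@Lb.g g11 (@Lb.r r1699 (@Lb.r r1450 (@Lb.r r1444 (@Lb.r r149 (@Lb.d (nat_lit 596) (nat_lit 82) (nat_lit 152) (@Lb.fp (nat_lit 9) t6440)))))))))))
noncomputable def l36399 : Lb := (@Lb.d (nat_lit 4) (nat_lit 262) (nat_lit 128) (@Lb.g g5 (@Lb.g g10 (@Lb.g g11 (@Lb.r r2714 (@Lb.r r1419 (@Lb.d (nat_lit 529) (nat_lit 1) (nat_lit 153) (@Lb.t (@Lb.fm (nat_lit 9) t6441)))))))))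
noncomputable def l36400 : Lb := (@Lb.d (nat_lit 326) (nat_lit 65) (nat_lit 85) (@Lb.r r1445 (@Lb.r r1642 (@Lb.r r328 (@Lb.g g7 (@Lb.g g6 (@Lb.g g5 (@Lb.d (nat_lit 20) (nat_lit 37) (nat_lit 390) (@Lb.t (@Lb.fp (nat_lit 9) t6442))))))))))
noncomputable def l36401 : Lb := (@Lb.d (nat_lit 129) (nat_lit 2) (nat_lit 130) (@Lb.g g8 (@Lb.g g9 (@Lb.g g10 (@Lb.g g11 (@Lb.r r1371 (@Lb.r r89 (@Lb.r r422 (@Lb.r r616 (@Lb.d (nat_lit 84) (nat_lit 26) (nat_lit 68) (@Lb.fp (nat_lit 9) t1152)))))))))))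
noncomputable def l36402 : Lb := (@Lb.d (nat_lit 4) (nat_lit 6) (nat_lit 10) (@Lb.g g5 (@Lb.g g10 (@Lb.r r1351 (@Lb.r r1610 (@Lb.d (nat_lit 660) (nat_lit 81) (nat_lit 426) (@Lb.fp (nat_lit 3) t5160)))))))
noncomputable def l36403 : Lb := (@Lb.d (nat_lit 554) (nat_lit 281) (nat_lit 581) (@Lb.r r424 (@Lb.r r2391 (@Lb.r r2730 (@Lb.r r2449 (@Lb.g g7 (@Lb.g g4 (@Lb.d (nat_lit 73) (nat_lit 0) (nat_lit 128) (@Lb.fm (nat_lit 3) t6443)))))))))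
noncomputable def l36404 : Lb := (@Lb.d (nat_lit 2) (nat_lit 294) (nat_lit 128) (@Lb.g g8 (@Lb.g g9 (@Lb.g g10 (@Lb.g g11 (@Lb.r r1706 (@Lb.r r676 (@Lb.r r551 (@Lb.r r533 (@Lb.r r1060 (@Lb.d (nat_lit 386) (nat_lit 9) (nat_lit 585) (@Lb.fp (nat_lit 9) t546))))))))))))
noncomputable def l36405 : Lb := (@Lb.d (nat_lit 660) (nat_lit 257) (nat_lit 677) (@Lb.r r1608 (@Lb.r r2198 (@Lb.r r337 (@Lb.g g7 (@Lb.g g5 (@Lb.g g4 (@Lb.d (nat_lit 8) (nat_lit 17) (nat_lit 64) (@Lb.r r610 (@Lb.t (@Lb.fp (nat_lit 9) t4222)))))))))))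
noncomputable def l36406 : Lb := (@Lb.d (nat_lit 0) (nat_lit 281) (nat_lit 136) (@Lb.g g8 (@Lb.g g9 (@Lb.g g10 (@Lb.g g11 (@Lb.r r618 (@Lb.r r2635 (@Lb.r r100 (@Lb.r r1301 (@Lb.r r36 (@Lb.d (nat_lit 320) (nat_lit 146) (nat_lit 640) (@Lb.fm (nat_lit 9) t795))))))))))))
noncomputable def l36407 : Lb := (@Lb.d (nat_lit 0) (nat_lit 537) (nat_lit 136) (@Lb.g g8 (@Lb.g g9 (@Lb.g g10 (@Lb.g g11 (@Lb.r r618 (@Lb.r r2635 (@Lb.r r100 (@Lb.r r1301 (@Lb.r r36 (@Lb.d (nat_lit 320) (nat_lit 153) (nat_lit 642) (@Lb.fm (nat_lit 9) t1256))))))))))))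
noncomputable def l36408 : Lb := (@Lb.d (nat_lit 74) (nat_lit 672) (nat_lit 10) (@Lb.r r549 (@Lb.r r1319 (@Lb.r r2648 (@Lb.r r166 (@Lb.g g6 (@Lb.g g5 (@Lb.d (nat_lit 0) (nat_lit 16) (nat_lit 1) (@Lb.fp (nat_lit 3) t71)))))))))
noncomputable def l36409 : Lb := (@Lb.r r323 (@Lb.d (nat_lit 16) (nat_lit 522) (nat_lit 2) (@Lb.g g8 (@Lb.g g9 (@Lb.g g10 (@Lb.r r2713 (@Lb.r r1682 (@Lb.r r407 (@Lb.r r584 (@Lb.d (nat_lit 354) (nat_lit 0) (nat_lit 674) (@Lb.t (@Lb.fm (nat_lit 9) t976))))))))))))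
noncomputable def l36410 : Lb := (@Lb.d (nat_lit 2) (nat_lit 538) (nat_lit 136) (@Lb.g g8 (@Lb.g g9 (@Lb.g g10 (@Lb.g g11 (@Lb.r r427 (@Lb.r r1169 (@Lb.r r356 (@Lb.r r154 (@Lb.r r132 (@Lb.d (nat_lit 265) (nat_lit 73) (nat_lit 73) (@Lb.fm (nat_lit 9) t6311))))))))))))
noncomputable def l36411 : Lb := (@Lb.d (nat_lit 2) (nat_lit 96) (nat_lit 517) (@Lb.r r579 (@Lb.r r402 (@Lb.g g7 (@Lb.g g5 (@Lb.g g8 (@Lb.d (nat_lit 9) (nat_lit 128) (nat_lit 132) (@Lb.t (@Lb.fm (nat_lit 9) t6444)))))))))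
noncomputable def l36412 : Lb := (@Lb.d (nat_lit 89) (nat_lit 600) (nat_lit 645) (@Lb.r r1450 (@Lb.r r1433 (@Lb.r r1304 (@Lb.g g7 (@Lb.g g6 (@Lb.d (nat_lit 80) (nat_lit 32) (nat_lit 576) (@Lb.fm (nat_lit 3) t828))))))))
noncomputable def l36413 : Lb := (@Lb.r r263 (@Lb.d (nat_lit 2) (nat_lit 258) (nat_lit 2) (@Lb.g g8 (@Lb.g g9 (@Lb.g g10 (@Lb.r r2411 (@Lb.r r386 (@Lb.r r97 (@Lb.r r1048 (@Lb.d (nat_lit 10) (nat_lit 66) (nat_lit 84) (@Lb.t (@Lb.fp (nat_lit 9) t601))))))))))))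
noncomputable def l36414 : Lb := (@Lb.r r81 (@Lb.d (nat_lit 145) (nat_lit 256) (nat_lit 106) (@Lb.g g8 (@Lb.g g10 (@Lb.g g11 (@Lb.r r1419 (@Lb.r r280 (@Lb.r r37 (@Lb.d (nat_lit 2) (nat_lit 170) (nat_lit 161) (@Lb.t (@Lb.fm (nat_lit 9) t1964)))))))))))
noncomputable def l36415 : Lb := (@Lb.d (nat_lit 145) (nat_lit 514) (nat_lit 74) (@Lb.g g8 (@Lb.g g9 (@Lb.g g10 (@Lb.g g11 (@Lb.r r427 (@Lb.r r2146 (@Lb.r r292 (@Lb.r r21 (@Lb.r r36 (@Lb.d (nat_lit 289) (nat_lit 164) (nat_lit 144) (@Lb.fp (nat_lit 9) t1444))))))))))))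
noncomputable def l36416 : Lb := (@Lb.d (nat_lit 2) (nat_lit 256) (nat_lit 66) (@Lb.g g8 (@Lb.g g10 (@Lb.g g7 (@Lb.r r386 (@Lb.r r2120 (@Lb.d (nat_lit 610) (nat_lit 0) (nat_lit 521) (@Lb.t (@Lb.fp (nat_lit 9) t6445)))))))))
noncomputable def l36417 : Lb := (@Lb.d (nat_lit 614) (nat_lit 520) (nat_lit 666) (@Lb.r r21 (@Lb.r r100 (@Lb.r r579 (@Lb.r r1370 (@Lb.g g7 (@Lb.g g6 (@Lb.g g5 (@Lb.d (nat_lit 0) (nat_lit 1) (nat_lit 134) (@Lb.t (@Lb.fm (nat_lit 9) t415)))))))))))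
noncomputable def l36418 : Lb := (@Lb.r r21 (@Lb.d (nat_lit 136) (nat_lit 264) (nat_lit 130) (@Lb.g g8 (@Lb.g g10 (@Lb.g g11 (@Lb.r r1415 (@Lb.r r1573 (@Lb.r r600 (@Lb.r r2182 (@Lb.d (nat_lit 297) (nat_lit 16) (nat_lit 614) (@Lb.t (@Lb.fp (nat_lit 9) t6446))))))))))))
noncomputable def l36419 : Lb := (@Lb.d (nat_lit 145) (nat_lit 2) (nat_lit 128) (@Lb.g g8 (@Lb.g g9 (@Lb.g g10 (@Lb.g g11 (@Lb.r r1675 (@Lb.r r2452 (@Lb.r r2182 (@Lb.r r1313 (@Lb.d (nat_lit 297) (nat_lit 138) (nat_lit 130) (@Lb.fm (nat_lit 9) t6447)))))))))))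
noncomputable def l36420 : Lb := (@Lb.r r70 (@Lb.d (nat_lit 128) (nat_lit 258) (nat_lit 128) (@Lb.g g8 (@Lb.g g9 (@Lb.g g11 (@Lb.r r1611 (@Lb.r r1410 (@Lb.r r97 (@Lb.r r1188 (@Lb.d (nat_lit 341) (nat_lit 2) (nat_lit 576) (@Lb.t (@Lb.fp (nat_lit 9) t6448))))))))))))
noncomputable def l36421 : Lb := (@Lb.r r70 (@Lb.d (nat_lit 66) (nat_lit 258) (nat_lit 64) (@Lb.g g8 (@Lb.g g9 (@Lb.g g11 (@Lb.r r1611 (@Lb.r r1410 (@Lb.r r97 (@Lb.r r2404 (@Lb.d (nat_lit 37) (nat_lit 80) (nat_lit 618) (@Lb.t (@Lb.fp (nat_lit 9) t6448))))))))))))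
noncomputable def l36422 : Lb := (@Lb.d (nat_lit 134) (nat_lit 553) (nat_lit 65) (@Lb.g g8 (@Lb.g g9 (@Lb.g g10 (@Lb.g g11 (@Lb.r r1706 (@Lb.r r1419 (@Lb.r r657 (@Lb.r r1156 (@Lb.d (nat_lit 657) (nat_lit 37) (nat_lit 360) (@Lb.fm (nat_lit 9) t4107)))))))))))
noncomputable def l36423 : Lb := (@Lb.d (nat_lit 2) (nat_lit 37) (nat_lit 128) (@Lb.g g8 (@Lb.g g9 (@Lb.g g10 (@Lb.g g11 (@Lb.r r1707 (@Lb.r r1386 (@Lb.r r2585 (@Lb.d (nat_lit 329) (nat_lit 9) (nat_lit 549) (@Lb.fm (nat_lit 9) t1370))))))))))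
noncomputable def l36424 : Lb := (@Lb.d (nat_lit 2) (nat_lit 289) (nat_lit 130) (@Lb.g g8 (@Lb.g g9 (@Lb.g g10 (@Lb.g g11 (@Lb.r r683 (@Lb.r r362 (@Lb.r r1561 (@Lb.d (nat_lit 585) (nat_lit 137) (nat_lit 37) (@Lb.fm (nat_lit 9) t1047))))))))))
noncomputable def l36425 : Lb := (@Lb.d (nat_lit 0) (nat_lit 298) (nat_lit 649) (@Lb.r r673 (@Lb.r r1699 (@Lb.r r1642 (@Lb.r r2388 (@Lb.g g7 (@Lb.g g5 (@Lb.d (nat_lit 4) (nat_lit 1) (nat_lit 64) (@Lb.fm (nat_lit 3) t2296)))))))))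
noncomputable def l36426 : Lb := (@Lb.d (nat_lit 10) (nat_lit 288) (nat_lit 128) (@Lb.g g8 (@Lb.g g11 (@Lb.r r1109 (@Lb.r r2472 (@Lb.r r2567 (@Lb.r r2658 (@Lb.d (nat_lit 38) (nat_lit 1) (nat_lit 329) (@Lb.fm (nat_lit 3) t1978)))))))))
noncomputable def l36427 : Lb := (@Lb.r r323 (@Lb.g g10 (@Lb.r r1415 (@Lb.r r2114 (@Lb.d (nat_lit 256) (nat_lit 512) (nat_lit 0) (@Lb.t (@Lb.fp (nat_lit 3) t469)))))))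
noncomputable def l36428 : Lb := (@Lb.g g5 (@Lb.g g10 (@Lb.r r101 (@Lb.d (nat_lit 256) (nat_lit 0) (nat_lit 32) (@Lb.fm (nat_lit 3) t743)))))
noncomputable def l36429 : Lb := (@Lb.d (nat_lit 2) (nat_lit 550) (nat_lit 64) (@Lb.g g8 (@Lb.g g9 (@Lb.g g10 (@Lb.g g11 (@Lb.r r2386 (@Lb.r r597 (@Lb.r r1640 (@Lb.r r587 (@Lb.d (nat_lit 337) (nat_lit 162) (nat_lit 292) (@Lb.fp (nat_lit 9) t2095)))))))))))
noncomputable def l36430 : Lb := (@Lb.g g10 (@Lb.g g7 (@Lb.r r101 (@Lb.d (nat_lit 256) (nat_lit 0) (nat_lit 32) (@Lb.fm (nat_lit 3) t743)))))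
noncomputable def l36431 : Lb := (@Lb.d (nat_lit 2) (nat_lit 522) (nat_lit 1) (@Lb.g g8 (@Lb.g g9 (@Lb.g g10 (@Lb.r r675 (@Lb.r r1065 (@Lb.r r1384 (@Lb.r r2630 (@Lb.d (nat_lit 657) (nat_lit 10) (nat_lit 522) (@Lb.t (@Lb.fp (nat_lit 9) t98)))))))))))
noncomputable def l36432 : Lb := (@Lb.d (nat_lit 657) (nat_lit 273) (nat_lit 129) (@Lb.r r2628 (@Lb.r r1370 (@Lb.r r417 (@Lb.g g11 (@Lb.g g5 (@Lb.g g4 (@Lb.d (nat_lit 22) (nat_lit 1) (nat_lit 128) (@Lb.r r98 (@Lb.t (@Lb.fp (nat_lit 9) t61)))))))))))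
noncomputable def l36433 : Lb := (@Lb.d (nat_lit 2) (nat_lit 256) (nat_lit 0) (@Lb.g g8 (@Lb.r r1045 (@Lb.r r36 (@Lb.d (nat_lit 520) (nat_lit 2) (nat_lit 0) (@Lb.t (@Lb.fp (nat_lit 3) t2)))))))
noncomputable def l36434 : Lb := (@Lb.r r21 (@Lb.d (nat_lit 144) (nat_lit 0) (nat_lit 64) (@Lb.g g8 (@Lb.g g10 (@Lb.g g11 (@Lb.r r1451 (@Lb.r r594 (@Lb.r r1433 (@Lb.r r1448 (@Lb.d (nat_lit 89) (nat_lit 34) (nat_lit 617) (@Lb.t (@Lb.fp (nat_lit 9) t898))))))))))))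
noncomputable def l36435 : Lb := (@Lb.r r21 (@Lb.r r263 (@Lb.d (nat_lit 321) (nat_lit 256) (nat_lit 2) (@Lb.g g4 (@Lb.g g10 (@Lb.r r1559 (@Lb.r r386 (@Lb.r r97 (@Lb.d (nat_lit 2) (nat_lit 90) (nat_lit 325) (@Lb.fm (nat_lit 3) t3278))))))))))
noncomputable def l36436 : Lb := (@Lb.d (nat_lit 538) (nat_lit 521) (nat_lit 130) (@Lb.g g8 (@Lb.g g9 (@Lb.g g10 (@Lb.g g11 (@Lb.r r1689 (@Lb.r r1683 (@Lb.r r1602 (@Lb.d (nat_lit 129) (nat_lit 10) (nat_lit 601) (@Lb.fm (nat_lit 9) t4))))))))))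
noncomputable def l36437 : Lb := (@Lb.d (nat_lit 26) (nat_lit 18) (nat_lit 586) (@Lb.g g8 (@Lb.g g9 (@Lb.g g10 (@Lb.g g7 (@Lb.r r1442 (@Lb.r r2344 (@Lb.r r409 (@Lb.d (nat_lit 533) (nat_lit 82) (nat_lit 360) (@Lb.fm (nat_lit 9) t2017))))))))))
noncomputable def l36438 : Lb := (@Lb.r r90 (@Lb.d (nat_lit 37) (nat_lit 256) (nat_lit 72) (@Lb.g g8 (@Lb.g g9 (@Lb.g g11 (@Lb.r r86 (@Lb.r r2473 (@Lb.r r2451 (@Lb.r r2564 (@Lb.d (nat_lit 33) (nat_lit 154) (nat_lit 586) (@Lb.t (@Lb.fp (nat_lit 9) t5392))))))))))))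
noncomputable def l36439 : Lb := (@Lb.d (nat_lit 16) (nat_lit 0) (nat_lit 66) (@Lb.g g8 (@Lb.g g9 (@Lb.g g10 (@Lb.g g11 (@Lb.r r401 (@Lb.r r2667 (@Lb.r r2664 (@Lb.r r86 (@Lb.r r1177 (@Lb.d (nat_lit 1) (nat_lit 65) (nat_lit 297) (@Lb.fp (nat_lit 9) t1369))))))))))))
noncomputable def l36440 : Lb := (@Lb.r r21 (@Lb.d (nat_lit 410) (nat_lit 256) (nat_lit 128) (@Lb.g g8 (@Lb.g g10 (@Lb.g g11 (@Lb.r r387 (@Lb.r r101 (@Lb.r r2450 (@Lb.d (nat_lit 1) (nat_lit 85) (nat_lit 578) (@Lb.t (@Lb.fm (nat_lit 9) t4276)))))))))))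
noncomputable def l36441 : Lb := (@Lb.r r82 (@Lb.d (nat_lit 0) (nat_lit 258) (nat_lit 128) (@Lb.g g8 (@Lb.g g9 (@Lb.g g11 (@Lb.r r299 (@Lb.r r1352 (@Lb.r r2470 (@Lb.r r2449 (@Lb.d (nat_lit 608) (nat_lit 9) (nat_lit 153) (@Lb.t (@Lb.fm (nat_lit 9) t4021))))))))))))
noncomputable def l36442 : Lb := (@Lb.d (nat_lit 128) (nat_lit 256) (nat_lit 258) (@Lb.g g6 (@Lb.g g7 (@Lb.r r610 (@Lb.r r2145 (@Lb.r r36 (@Lb.d (nat_lit 64) (nat_lit 17) (nat_lit 128) (@Lb.fp (nat_lit 3) t1351))))))))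
noncomputable def l36443 : Lb := (@Lb.r r323 (@Lb.d (nat_lit 2) (nat_lit 2) (nat_lit 2) (@Lb.g g8 (@Lb.g g9 (@Lb.g g10 (@Lb.r r1682 (@Lb.r r1703 (@Lb.r r1320 (@Lb.r r25 (@Lb.d (nat_lit 257) (nat_lit 33) (nat_lit 384) (@Lb.t (@Lb.fp (nat_lit 9) t2162))))))))))))
noncomputable def l36444 : Lb := (@Lb.r r21 (@Lb.d (nat_lit 16) (nat_lit 512) (nat_lit 74) (@Lb.g g8 (@Lb.g g10 (@Lb.g g11 (@Lb.r r648 (@Lb.r r2634 (@Lb.r r1611 (@Lb.r r25 (@Lb.d (nat_lit 418) (nat_lit 0) (nat_lit 618) (@Lb.t (@Lb.fm (nat_lit 9) t3045))))))))))))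
noncomputable def l36445 : Lb := (@Lb.r r21 (@Lb.r r323 (@Lb.d (nat_lit 130) (nat_lit 264) (nat_lit 2) (@Lb.g g8 (@Lb.g g10 (@Lb.r r615 (@Lb.r r533 (@Lb.r r292 (@Lb.d (nat_lit 609) (nat_lit 32) (nat_lit 38) (@Lb.fp (nat_lit 3) t221))))))))))
noncomputable def l36446 : Lb := (@Lb.d (nat_lit 2) (nat_lit 257) (nat_lit 64) (@Lb.g g8 (@Lb.g g9 (@Lb.g g10 (@Lb.g g11 (@Lb.r r357 (@Lb.r r602 (@Lb.r r2387 (@Lb.r r2705 (@Lb.r r2564 (@Lb.d (nat_lit 386) (nat_lit 129) (nat_lit 385) (@Lb.fm (nat_lit 9) t441))))))))))))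
noncomputable def l36447 : Lb := (@Lb.d (nat_lit 8) (nat_lit 514) (nat_lit 0) (@Lb.g g9 (@Lb.r r1304 (@Lb.r r533 (@Lb.d (nat_lit 165) (nat_lit 34) (nat_lit 676) (@Lb.t (@Lb.fm (nat_lit 3) t3976)))))))
noncomputable def l36448 : Lb := (@Lb.d (nat_lit 2) (nat_lit 256) (nat_lit 66) (@Lb.g g8 (@Lb.g g9 (@Lb.g g10 (@Lb.g g11 (@Lb.r r2666 (@Lb.r r2657 (@Lb.r r1315 (@Lb.d (nat_lit 521) (nat_lit 168) (nat_lit 642) (@Lb.fm (nat_lit 9) t6449))))))))))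
noncomputable def l36449 : Lb := (@Lb.d (nat_lit 256) (nat_lit 133) (nat_lit 257) (@Lb.r r402 (@Lb.r r2311 (@Lb.g g4 (@Lb.d (nat_lit 1) (nat_lit 0) (nat_lit 0) (@Lb.t (@Lb.fp (nat_lit 3) t2357)))))))
noncomputable def l36450 : Lb := (@Lb.d (nat_lit 4) (nat_lit 1) (nat_lit 66) (@Lb.g g5 (@Lb.g g10 (@Lb.g g7 (@Lb.r r2458 (@Lb.r r24 (@Lb.d (nat_lit 145) (nat_lit 6) (nat_lit 298) (@Lb.t (@Lb.fm (nat_lit 9) t3316)))))))))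
noncomputable def l36451 : Lb := (@Lb.d (nat_lit 2) (nat_lit 294) (nat_lit 128) (@Lb.g g8 (@Lb.g g9 (@Lb.g g10 (@Lb.g g11 (@Lb.r r2729 (@Lb.r r427 (@Lb.r r2468 (@Lb.r r2438 (@Lb.d (nat_lit 353) (nat_lit 10) (nat_lit 162) (@Lb.fp (nat_lit 9) t1244)))))))))))
noncomputable def l36452 : Lb := (@Lb.d (nat_lit 640) (nat_lit 514) (nat_lit 130) (@Lb.g g4 (@Lb.g g9 (@Lb.g g10 (@Lb.g g11 (@Lb.r r646 (@Lb.r r391 (@Lb.r r97 (@Lb.d (nat_lit 146) (nat_lit 138) (nat_lit 617) (@Lb.fm (nat_lit 9) t4))))))))))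
noncomputable def l36453 : Lb := (@Lb.d (nat_lit 146) (nat_lit 514) (nat_lit 5) (@Lb.g g8 (@Lb.g g9 (@Lb.g g10 (@Lb.g g11 (@Lb.r r1675 (@Lb.r r617 (@Lb.r r662 (@Lb.r r1560 (@Lb.d (nat_lit 278) (nat_lit 34) (nat_lit 580) (@Lb.fp (nat_lit 9) t125)))))))))))
noncomputable def l36454 : Lb := (@Lb.d (nat_lit 41) (nat_lit 256) (nat_lit 64) (@Lb.g g8 (@Lb.g g7 (@Lb.r r1126 (@Lb.r r2149 (@Lb.r r148 (@Lb.d (nat_lit 38) (nat_lit 10) (nat_lit 86) (@Lb.fm (nat_lit 3) t1514))))))))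
noncomputable def l36455 : Lb := (@Lb.d (nat_lit 129) (nat_lit 258) (nat_lit 130) (@Lb.g g8 (@Lb.g g9 (@Lb.g g10 (@Lb.g g11 (@Lb.r r599 (@Lb.r r1706 (@Lb.r r1625 (@Lb.r r1604 (@Lb.d (nat_lit 400) (nat_lit 73) (nat_lit 290) (@Lb.fp (nat_lit 9) t842)))))))))))
noncomputable def l36456 : Lb := (@Lb.d (nat_lit 10) (nat_lit 512) (nat_lit 136) (@Lb.g g8 (@Lb.g g10 (@Lb.g g11 (@Lb.r r1347 (@Lb.r r2453 (@Lb.r r2706 (@Lb.r r2436 (@Lb.d (nat_lit 610) (nat_lit 10) (nat_lit 641) (@Lb.t (@Lb.fp (nat_lit 9) t311)))))))))))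
noncomputable def l36457 : Lb := (@Lb.r r70 (@Lb.d (nat_lit 290) (nat_lit 288) (nat_lit 0) (@Lb.g g8 (@Lb.g g11 (@Lb.r r2469 (@Lb.r r603 (@Lb.r r2182 (@Lb.d (nat_lit 1) (nat_lit 160) (nat_lit 297) (@Lb.fp (nat_lit 3) t4963)))))))))
noncomputable def l36458 : Lb := (@Lb.r r323 (@Lb.d (nat_lit 66) (nat_lit 514) (nat_lit 0) (@Lb.g g8 (@Lb.g g9 (@Lb.g g10 (@Lb.r r599 (@Lb.r r345 (@Lb.r r166 (@Lb.r r84 (@Lb.d (nat_lit 21) (nat_lit 70) (nat_lit 393) (@Lb.t (@Lb.fm (nat_lit 9) t51))))))))))))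
noncomputable def l36459 : Lb := (@Lb.d (nat_lit 326) (nat_lit 102) (nat_lit 129) (@Lb.r r20 (@Lb.r r1617 (@Lb.r r2730 (@Lb.g g11 (@Lb.g g6 (@Lb.g g4 (@Lb.d (nat_lit 2) (nat_lit 0) (nat_lit 138) (@Lb.t (@Lb.fp (nat_lit 9) t6450))))))))))
noncomputable def l36460 : Lb := (@Lb.r r1045 (@Lb.d (nat_lit 2) (nat_lit 512) (nat_lit 2) (@Lb.g g8 (@Lb.g g10 (@Lb.r r2379 (@Lb.r r386 (@Lb.r r72 (@Lb.d (nat_lit 288) (nat_lit 0) (nat_lit 70) (@Lb.fm (nat_lit 3) t873)))))))))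
noncomputable def l36461 : Lb := (@Lb.d (nat_lit 274) (nat_lit 512) (nat_lit 657) (@Lb.r r1604 (@Lb.r r2645 (@Lb.r r2698 (@Lb.g g11 (@Lb.g g6 (@Lb.g g4 (@Lb.d (nat_lit 1) (nat_lit 0) (nat_lit 74) (@Lb.t (@Lb.fp (nat_lit 9) t873))))))))))
noncomputable def l36462 : Lb := (@Lb.r r326 (@Lb.d (nat_lit 2) (nat_lit 522) (nat_lit 576) (@Lb.g g8 (@Lb.g g9 (@Lb.g g7 (@Lb.r r594 (@Lb.r r1697 (@Lb.r r2632 (@Lb.d (nat_lit 354) (nat_lit 85) (nat_lit 278) (@Lb.t (@Lb.fp (nat_lit 9) t6451)))))))))))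
noncomputable def l36463 : Lb := (@Lb.d (nat_lit 2) (nat_lit 548) (nat_lit 128) (@Lb.g g8 (@Lb.g g9 (@Lb.g g10 (@Lb.g g11 (@Lb.r r1194 (@Lb.r r2457 (@Lb.r r2328 (@Lb.r r1447 (@Lb.d (nat_lit 153) (nat_lit 98) (nat_lit 612) (@Lb.fp (nat_lit 9) t6452)))))))))))
noncomputable def l36464 : Lb := (@Lb.d (nat_lit 8) (nat_lit 514) (nat_lit 0) (@Lb.g g9 (@Lb.r r24 (@Lb.r r2069 (@Lb.d (nat_lit 2) (nat_lit 129) (nat_lit 0) (@Lb.t (@Lb.fm (nat_lit 3) t2)))))))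
noncomputable def l36465 : Lb := (@Lb.r r21 (@Lb.d (nat_lit 2) (nat_lit 256) (nat_lit 66) (@Lb.g g8 (@Lb.g g10 (@Lb.g g7 (@Lb.r r386 (@Lb.r r97 (@Lb.r r72 (@Lb.d (nat_lit 352) (nat_lit 10) (nat_lit 584) (@Lb.t (@Lb.fm (nat_lit 9) t1150)))))))))))
noncomputable def l36466 : Lb := (@Lb.r r82 (@Lb.d (nat_lit 2) (nat_lit 546) (nat_lit 0) (@Lb.g g8 (@Lb.g g9 (@Lb.r r2631 (@Lb.r r386 (@Lb.r r344 (@Lb.r r549 (@Lb.d (nat_lit 290) (nat_lit 66) (nat_lit 260) (@Lb.fm (nat_lit 3) t149))))))))))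
noncomputable def l36467 : Lb := (@Lb.d (nat_lit 2) (nat_lit 513) (nat_lit 0) (@Lb.g g8 (@Lb.g g9 (@Lb.r r1450 (@Lb.r r1065 (@Lb.r r36 (@Lb.d (nat_lit 521) (nat_lit 65) (nat_lit 325) (@Lb.fm (nat_lit 3) t479))))))))
noncomputable def l36468 : Lb := (@Lb.g g5 (@Lb.r r402 (@Lb.r r2436 (@Lb.d (nat_lit 2) (nat_lit 640) (nat_lit 613) (@Lb.t (@Lb.fp (nat_lit 3) t6453))))))
noncomputable def l36469 : Lb := (@Lb.r r323 (@Lb.d (nat_lit 32) (nat_lit 516) (nat_lit 21) (@Lb.g g6 (@Lb.r r1639 (@Lb.r r2145 (@Lb.r r36 (@Lb.d (nat_lit 261) (nat_lit 32) (nat_lit 65) (@Lb.t (@Lb.fm (nat_lit 3) t1772)))))))))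
noncomputable def l36470 : Lb := (@Lb.r r21 (@Lb.d (nat_lit 657) (nat_lit 512) (nat_lit 256) (@Lb.g g4 (@Lb.g g10 (@Lb.g g7 (@Lb.r r2454 (@Lb.r r97 (@Lb.d (nat_lit 609) (nat_lit 130) (nat_lit 80) (@Lb.t (@Lb.fm (nat_lit 9) t5878))))))))))
noncomputable def l36471 : Lb := (@Lb.d (nat_lit 0) (nat_lit 256) (nat_lit 64) (@Lb.g g10 (@Lb.g g7 (@Lb.r r402 (@Lb.r r2145 (@Lb.r r36 (@Lb.d (nat_lit 320) (nat_lit 32) (nat_lit 320) (@Lb.fp (nat_lit 3) t5077))))))))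
noncomputable def l36472 : Lb := (@Lb.d (nat_lit 128) (nat_lit 512) (nat_lit 258) (@Lb.g g6 (@Lb.g g7 (@Lb.r r610 (@Lb.r r2145 (@Lb.r r36 (@Lb.d (nat_lit 65) (nat_lit 17) (nat_lit 0) (@Lb.fp (nat_lit 3) t2257))))))))
noncomputable def l36473 : Lb := (@Lb.r r402 (@Lb.d (nat_lit 292) (nat_lit 37) (nat_lit 37) (@Lb.fm (nat_lit 1) t3532)))
noncomputable def l36474 : Lb := (@Lb.d (nat_lit 146) (nat_lit 258) (nat_lit 10) (@Lb.g g8 (@Lb.g g9 (@Lb.g g10 (@Lb.g g11 (@Lb.r r427 (@Lb.r r1606 (@Lb.r r409 (@Lb.r r388 (@Lb.d (nat_lit 646) (nat_lit 68) (nat_lit 664) (@Lb.fp (nat_lit 9) t898)))))))))))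
noncomputable def l36475 : Lb := (@Lb.r r355 (@Lb.d (nat_lit 0) (nat_lit 257) (nat_lit 18) (@Lb.g g9 (@Lb.g g6 (@Lb.r r1635 (@Lb.r r593 (@Lb.r r8 (@Lb.d (nat_lit 1) (nat_lit 170) (nat_lit 649) (@Lb.fp (nat_lit 3) t1399)))))))))
noncomputable def l36476 : Lb := (@Lb.d (nat_lit 401) (nat_lit 128) (nat_lit 657) (@Lb.r r402 (@Lb.g g11 (@Lb.t (@Lb.fm (nat_lit 3) t3532)))))
noncomputable def l36477 : Lb := (@Lb.r r21 (@Lb.d (nat_lit 16) (nat_lit 0) (nat_lit 74) (@Lb.g g8 (@Lb.g g10 (@Lb.g g11 (@Lb.r r603 (@Lb.r r1602 (@Lb.r r97 (@Lb.r r1416 (@Lb.d (nat_lit 265) (nat_lit 37) (nat_lit 600) (@Lb.t (@Lb.fp (nat_lit 9) t261))))))))))))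
noncomputable def l36478 : Lb := (@Lb.r r21 (@Lb.r r70 (@Lb.d (nat_lit 265) (nat_lit 512) (nat_lit 128) (@Lb.g g4 (@Lb.g g11 (@Lb.r r583 (@Lb.r r74 (@Lb.r r25 (@Lb.d (nat_lit 517) (nat_lit 129) (nat_lit 129) (@Lb.fm (nat_lit 3) t1799))))))))))
noncomputable def l36479 : Lb := (@Lb.d (nat_lit 145) (nat_lit 512) (nat_lit 384) (@Lb.g g8 (@Lb.g g10 (@Lb.g g11 (@Lb.r r1602 (@Lb.r r533 (@Lb.r r2340 (@Lb.d (nat_lit 72) (nat_lit 137) (nat_lit 346) (@Lb.t (@Lb.fm (nat_lit 9) t2004))))))))))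
noncomputable def l36480 : Lb := (@Lb.d (nat_lit 0) (nat_lit 129) (nat_lit 384) (@Lb.r r2132 (@Lb.r r1642 (@Lb.r r2665 (@Lb.r r616 (@Lb.g g11 (@Lb.t (@Lb.fp (nat_lit 3) t3574))))))))
noncomputable def l36481 : Lb := (@Lb.d (nat_lit 42) (nat_lit 512) (nat_lit 0) (@Lb.g g4 (@Lb.g g7 (@Lb.r r426 (@Lb.r r1449 (@Lb.r r2472 (@Lb.d (nat_lit 618) (nat_lit 153) (nat_lit 682) (@Lb.fp (nat_lit 3) t2428))))))))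
noncomputable def l36482 : Lb := (@Lb.d (nat_lit 42) (nat_lit 0) (nat_lit 72) (@Lb.g g8 (@Lb.g g11 (@Lb.r r614 (@Lb.r r1637 (@Lb.r r1428 (@Lb.d (nat_lit 356) (nat_lit 137) (nat_lit 329) (@Lb.fp (nat_lit 3) t572))))))))
noncomputable def l36483 : Lb := (@Lb.d (nat_lit 128) (nat_lit 256) (nat_lit 128) (@Lb.g g8 (@Lb.g g11 (@Lb.r r1543 (@Lb.r r2630 (@Lb.r r2581 (@Lb.r r264 (@Lb.d (nat_lit 4) (nat_lit 1) (nat_lit 640) (@Lb.fm (nat_lit 3) t6454)))))))))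
noncomputable def l36484 : Lb := (@Lb.g g11 (@Lb.r r1291 (@Lb.d (nat_lit 514) (nat_lit 129) (nat_lit 0) (@Lb.t (@Lb.fp (nat_lit 3) t441)))))
noncomputable def l36485 : Lb := (@Lb.r r2118 (@Lb.r r2069 (@Lb.r r36 (@Lb.d (nat_lit 513) (nat_lit 128) (nat_lit 0) (@Lb.fp (nat_lit 1) t1651)))))
noncomputable def l36486 : Lb := (@Lb.d (nat_lit 2) (nat_lit 256) (nat_lit 66) (@Lb.g g8 (@Lb.g g9 (@Lb.g g10 (@Lb.g g11 (@Lb.r r2658 (@Lb.r r1607 (@Lb.r r292 (@Lb.r r1045 (@Lb.r r1060 (@Lb.d (nat_lit 521) (nat_lit 168) (nat_lit 642) (@Lb.fm (nat_lit 9) t2815))))))))))))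
noncomputable def l36487 : Lb := (@Lb.d (nat_lit 0) (nat_lit 10) (nat_lit 130) (@Lb.g g9 (@Lb.g g10 (@Lb.g g11 (@Lb.r r1666 (@Lb.r r2459 (@Lb.r r1633 (@Lb.r r36 (@Lb.d (nat_lit 550) (nat_lit 152) (nat_lit 265) (@Lb.t (@Lb.fm (nat_lit 9) t1923)))))))))))
noncomputable def l36488 : Lb := (@Lb.r r21 (@Lb.d (nat_lit 644) (nat_lit 0) (nat_lit 130) (@Lb.g g4 (@Lb.g g10 (@Lb.g g11 (@Lb.r r519 (@Lb.r r386 (@Lb.r r97 (@Lb.d (nat_lit 386) (nat_lit 138) (nat_lit 73) (@Lb.t (@Lb.fm (nat_lit 9) t217)))))))))))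
noncomputable def l36489 : Lb := (@Lb.d (nat_lit 528) (nat_lit 10) (nat_lit 421) (@Lb.r r24 (@Lb.r r539 (@Lb.r r1365 (@Lb.r r2722 (@Lb.g g7 (@Lb.g g6 (@Lb.g g5 (@Lb.d (nat_lit 0) (nat_lit 37) (nat_lit 2) (@Lb.t (@Lb.fm (nat_lit 9) t4039)))))))))))
noncomputable def l36490 : Lb := (@Lb.d (nat_lit 36) (nat_lit 64) (nat_lit 80) (@Lb.r r2196 (@Lb.r r1431 (@Lb.r r2454 (@Lb.r r601 (@Lb.g g7 (@Lb.d (nat_lit 0) (nat_lit 0) (nat_lit 68) (@Lb.t (@Lb.fp (nat_lit 3) t2607)))))))))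
noncomputable def l36491 : Lb := (@Lb.d (nat_lit 2) (nat_lit 1) (nat_lit 0) (@Lb.g g8 (@Lb.g g9 (@Lb.r r427 (@Lb.r r1450 (@Lb.r r2473 (@Lb.r r1444 (@Lb.d (nat_lit 98) (nat_lit 38) (nat_lit 394) (@Lb.fm (nat_lit 3) t6455)))))))))
noncomputable def l36492 : Lb := (@Lb.d (nat_lit 0) (nat_lit 9) (nat_lit 0) (@Lb.g g8 (@Lb.g g9 (@Lb.r r2571 (@Lb.r r146 (@Lb.r r97 (@Lb.r r2584 (@Lb.d (nat_lit 586) (nat_lit 41) (nat_lit 385) (@Lb.fm (nat_lit 3) t1855)))))))))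
noncomputable def l36493 : Lb := (@Lb.d (nat_lit 4) (nat_lit 514) (nat_lit 0) (@Lb.g g8 (@Lb.g g9 (@Lb.r r427 (@Lb.r r1450 (@Lb.r r2473 (@Lb.r r1444 (@Lb.d (nat_lit 98) (nat_lit 38) (nat_lit 394) (@Lb.fm (nat_lit 3) t6455)))))))))
noncomputable def l36494 : Lb := (@Lb.d (nat_lit 0) (nat_lit 32) (nat_lit 128) (@Lb.g g11 (@Lb.r r341 (@Lb.r r675 (@Lb.r r2178 (@Lb.r r8 (@Lb.d (nat_lit 322) (nat_lit 88) (nat_lit 425) (@Lb.t (@Lb.fm (nat_lit 3) t1639)))))))))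
noncomputable def l36495 : Lb := (@Lb.d (nat_lit 529) (nat_lit 5) (nat_lit 2) (@Lb.r r2116 (@Lb.r r1057 (@Lb.r r1130 (@Lb.r r2635 (@Lb.g g4 (@Lb.d (nat_lit 18) (nat_lit 0) (nat_lit 0) (@Lb.t (@Lb.fm (nat_lit 3) t820)))))))))
noncomputable def l36496 : Lb := (@Lb.r r326 (@Lb.d (nat_lit 2) (nat_lit 258) (nat_lit 576) (@Lb.g g8 (@Lb.g g9 (@Lb.g g7 (@Lb.r r1065 (@Lb.r r1700 (@Lb.r r134 (@Lb.d (nat_lit 0) (nat_lit 154) (nat_lit 393) (@Lb.t (@Lb.fp (nat_lit 9) t2175)))))))))))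
noncomputable def l36497 : Lb := (@Lb.d (nat_lit 32) (nat_lit 288) (nat_lit 644) (@Lb.g g10 (@Lb.g g7 (@Lb.r r616 (@Lb.r r2406 (@Lb.r r1057 (@Lb.d (nat_lit 90) (nat_lit 36) (nat_lit 598) (@Lb.fp (nat_lit 3) t2563))))))))
noncomputable def l36498 : Lb := (@Lb.r r339 (@Lb.d (nat_lit 16) (nat_lit 0) (nat_lit 34) (@Lb.g g9 (@Lb.g g6 (@Lb.r r2667 (@Lb.r r1112 (@Lb.r r2085 (@Lb.d (nat_lit 2) (nat_lit 1) (nat_lit 1) (@Lb.fm (nat_lit 3) t6456)))))))))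
noncomputable def l36499 : Lb := (@Lb.d (nat_lit 145) (nat_lit 258) (nat_lit 358) (@Lb.r r2406 (@Lb.r r1707 (@Lb.g g7 (@Lb.g g6 (@Lb.g g9 (@Lb.d (nat_lit 0) (nat_lit 10) (nat_lit 66) (@Lb.t (@Lb.fp (nat_lit 9) t6457)))))))))
noncomputable def l36500 : Lb := (@Lb.d (nat_lit 2) (nat_lit 2) (nat_lit 130) (@Lb.g g8 (@Lb.g g9 (@Lb.g g10 (@Lb.g g11 (@Lb.r r2705 (@Lb.r r612 (@Lb.r r666 (@Lb.r r1156 (@Lb.d (nat_lit 644) (nat_lit 97) (nat_lit 522) (@Lb.fm (nat_lit 9) t521)))))))))))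
noncomputable def l36501 : Lb := (@Lb.d (nat_lit 326) (nat_lit 6) (nat_lit 422) (@Lb.r r2581 (@Lb.r r1366 (@Lb.r r1367 (@Lb.g g7 (@Lb.g g6 (@Lb.g g5 (@Lb.g g4 (@Lb.d (nat_lit 1) (nat_lit 38) (nat_lit 134) (@Lb.fp (nat_lit 9) t1242))))))))))
noncomputable def l36502 : Lb := (@Lb.d (nat_lit 128) (nat_lit 294) (nat_lit 128) (@Lb.g g9 (@Lb.g g10 (@Lb.g g11 (@Lb.r r2709 (@Lb.r r662 (@Lb.r r328 (@Lb.r r647 (@Lb.d (nat_lit 409) (nat_lit 132) (nat_lit 9) (@Lb.t (@Lb.fp (nat_lit 9) t1298)))))))))))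
noncomputable def l36503 : Lb := (@Lb.r r82 (@Lb.d (nat_lit 0) (nat_lit 2) (nat_lit 0) (@Lb.g g8 (@Lb.g g9 (@Lb.r r1098 (@Lb.r r2084 (@Lb.r r1061 (@Lb.d (nat_lit 5) (nat_lit 128) (nat_lit 0) (@Lb.fp (nat_lit 3) t3197)))))))))
noncomputable def l36504 : Lb := (@Lb.d (nat_lit 582) (nat_lit 336) (nat_lit 320) (@Lb.r r37 (@Lb.r r88 (@Lb.r r1622 (@Lb.r r1443 (@Lb.g g7 (@Lb.g g6 (@Lb.g g5 (@Lb.d (nat_lit 0) (nat_lit 1) (nat_lit 10) (@Lb.t (@Lb.fp (nat_lit 9) t1265)))))))))))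
noncomputable def l36505 : Lb := (@Lb.r r355 (@Lb.d (nat_lit 2) (nat_lit 264) (nat_lit 17) (@Lb.g g8 (@Lb.g g9 (@Lb.g g6 (@Lb.r r2667 (@Lb.r r1697 (@Lb.r r24 (@Lb.d (nat_lit 101) (nat_lit 148) (nat_lit 38) (@Lb.t (@Lb.fm (nat_lit 9) t998)))))))))))
noncomputable def l36506 : Lb := (@Lb.r r323 (@Lb.d (nat_lit 2) (nat_lit 258) (nat_lit 2) (@Lb.g g8 (@Lb.g g9 (@Lb.g g10 (@Lb.r r2347 (@Lb.r r98 (@Lb.r r2457 (@Lb.r r2436 (@Lb.d (nat_lit 645) (nat_lit 68) (nat_lit 424) (@Lb.t (@Lb.fm (nat_lit 9) t2103))))))))))))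
noncomputable def l36507 : Lb := (@Lb.d (nat_lit 32) (nat_lit 0) (nat_lit 133) (@Lb.g g8 (@Lb.g g10 (@Lb.g g11 (@Lb.r r647 (@Lb.r r2378 (@Lb.r r1557 (@Lb.r r1288 (@Lb.d (nat_lit 513) (nat_lit 0) (nat_lit 145) (@Lb.t (@Lb.fm (nat_lit 9) t6454)))))))))))
noncomputable def l36508 : Lb := (@Lb.d (nat_lit 0) (nat_lit 0) (nat_lit 128) (@Lb.g g8 (@Lb.g g11 (@Lb.r r1346 (@Lb.r r387 (@Lb.d (nat_lit 0) (nat_lit 0) (nat_lit 594) (@Lb.fm (nat_lit 3) t2)))))))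
noncomputable def l36509 : Lb := (@Lb.d (nat_lit 10) (nat_lit 256) (nat_lit 0) (@Lb.g g8 (@Lb.r r1446 (@Lb.r r1429 (@Lb.r r1643 (@Lb.r r1608 (@Lb.d (nat_lit 105) (nat_lit 0) (nat_lit 546) (@Lb.t (@Lb.fm (nat_lit 3) t282)))))))))
noncomputable def l36510 : Lb := (@Lb.d (nat_lit 146) (nat_lit 512) (nat_lit 384) (@Lb.g g8 (@Lb.g g10 (@Lb.g g11 (@Lb.r r1602 (@Lb.r r388 (@Lb.d (nat_lit 96) (nat_lit 0) (nat_lit 394) (@Lb.t (@Lb.fm (nat_lit 9) t3723)))))))))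
noncomputable def l36511 : Lb := (@Lb.d (nat_lit 257) (nat_lit 676) (nat_lit 657) (@Lb.r r402 (@Lb.r r101 (@Lb.g g11 (@Lb.t (@Lb.fp (nat_lit 3) t2158))))))
noncomputable def l36512 : Lb := (@Lb.d (nat_lit 410) (nat_lit 22) (nat_lit 649) (@Lb.r r2403 (@Lb.g g10 (@Lb.g g8 (@Lb.d (nat_lit 9) (nat_lit 8) (nat_lit 2) (@Lb.fm (nat_lit 3) t6353))))))
noncomputable def l36513 : Lb := (@Lb.d (nat_lit 410) (nat_lit 520) (nat_lit 90) (@Lb.g g8 (@Lb.g g10 (@Lb.g g11 (@Lb.r r2451 (@Lb.d (nat_lit 9) (nat_lit 86) (nat_lit 536) (@Lb.t (@Lb.fm (nat_lit 9) t4291))))))))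
noncomputable def l36514 : Lb := (@Lb.d (nat_lit 410) (nat_lit 536) (nat_lit 650) (@Lb.r r2403 (@Lb.g g10 (@Lb.g g8 (@Lb.d (nat_lit 9) (nat_lit 8) (nat_lit 2) (@Lb.fm (nat_lit 3) t6458))))))
noncomputable def l36515 : Lb := (@Lb.d (nat_lit 298) (nat_lit 608) (nat_lit 362) (@Lb.r r101 (@Lb.r r24 (@Lb.r r386 (@Lb.r r339 (@Lb.g g7 (@Lb.g g6 (@Lb.g g5 (@Lb.d (nat_lit 4) (nat_lit 1) (nat_lit 65) (@Lb.t (@Lb.fm (nat_lit 9) t3572)))))))))))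
noncomputable def l36516 : Lb := (@Lb.r r402 (@Lb.r r101 (@Lb.d (nat_lit 410) (nat_lit 538) (nat_lit 32) (@Lb.fp (nat_lit 1) t2158))))
noncomputable def l36517 : Lb := (@Lb.r r323 (@Lb.d (nat_lit 0) (nat_lit 546) (nat_lit 2) (@Lb.g g8 (@Lb.g g9 (@Lb.g g10 (@Lb.r r599 (@Lb.r r420 (@Lb.r r102 (@Lb.d (nat_lit 42) (nat_lit 4) (nat_lit 17) (@Lb.t (@Lb.fp (nat_lit 9) t1149)))))))))))
noncomputable def l36518 : Lb := (@Lb.d (nat_lit 162) (nat_lit 512) (nat_lit 0) (@Lb.g g8 (@Lb.r r391 (@Lb.r r1414 (@Lb.r r2644 (@Lb.r r2073 (@Lb.d (nat_lit 408) (nat_lit 129) (nat_lit 258) (@Lb.t (@Lb.fm (nat_lit 3) t5327)))))))))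
noncomputable def l36519 : Lb := (@Lb.d (nat_lit 146) (nat_lit 288) (nat_lit 64) (@Lb.g g8 (@Lb.g g10 (@Lb.g g11 (@Lb.r r1313 (@Lb.r r1555 (@Lb.r r1130 (@Lb.r r72 (@Lb.d (nat_lit 33) (nat_lit 34) (nat_lit 534) (@Lb.t (@Lb.fp (nat_lit 9) t1356)))))))))))
noncomputable def l36520 : Lb := (@Lb.r r21 (@Lb.d (nat_lit 146) (nat_lit 256) (nat_lit 256) (@Lb.g g8 (@Lb.g g10 (@Lb.g g7 (@Lb.r r1434 (@Lb.r r2196 (@Lb.r r25 (@Lb.d (nat_lit 258) (nat_lit 10) (nat_lit 274) (@Lb.t (@Lb.fm (nat_lit 9) t491)))))))))))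
noncomputable def l36521 : Lb := (@Lb.d (nat_lit 154) (nat_lit 128) (nat_lit 534) (@Lb.r r37 (@Lb.r r2068 (@Lb.r r386 (@Lb.r r343 (@Lb.g g6 (@Lb.g g5 (@Lb.g g4 (@Lb.d (nat_lit 6) (nat_lit 2) (nat_lit 1) (@Lb.t (@Lb.fp (nat_lit 9) t68)))))))))))
noncomputable def l36522 : Lb := (@Lb.r r21 (@Lb.d (nat_lit 146) (nat_lit 512) (nat_lit 256) (@Lb.g g8 (@Lb.g g10 (@Lb.g g7 (@Lb.r r1434 (@Lb.r r2196 (@Lb.r r25 (@Lb.d (nat_lit 536) (nat_lit 4) (nat_lit 258) (@Lb.t (@Lb.fm (nat_lit 9) t522)))))))))))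
noncomputable def l36523 : Lb := (@Lb.r r2343 (@Lb.r r584 (@Lb.r r86 (@Lb.r r2201 (@Lb.r r132 (@Lb.d (nat_lit 280) (nat_lit 330) (nat_lit 37) (@Lb.fm (nat_lit 1) t6459)))))))
noncomputable def l36524 : Lb := (@Lb.d (nat_lit 662) (nat_lit 321) (nat_lit 534) (@Lb.r r20 (@Lb.r r386 (@Lb.r r1367 (@Lb.g g7 (@Lb.g g6 (@Lb.g g5 (@Lb.g g4 (@Lb.d (nat_lit 9) (nat_lit 128) (nat_lit 1) (@Lb.fm (nat_lit 9) t74))))))))))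
noncomputable def l36525 : Lb := (@Lb.d (nat_lit 98) (nat_lit 265) (nat_lit 72) (@Lb.g g8 (@Lb.g g9 (@Lb.g g10 (@Lb.g g11 (@Lb.r r2705 (@Lb.r r535 (@Lb.r r2440 (@Lb.r r410 (@Lb.d (nat_lit 148) (nat_lit 160) (nat_lit 646) (@Lb.fm (nat_lit 9) t606)))))))))))
noncomputable def l36526 : Lb := (@Lb.d (nat_lit 0) (nat_lit 513) (nat_lit 66) (@Lb.g g8 (@Lb.g g9 (@Lb.g g10 (@Lb.g g11 (@Lb.r r2457 (@Lb.r r2407 (@Lb.r r1610 (@Lb.r r1608 (@Lb.d (nat_lit 66) (nat_lit 5) (nat_lit 161) (@Lb.fm (nat_lit 9) t939)))))))))))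
noncomputable def l36527 : Lb := (@Lb.d (nat_lit 8) (nat_lit 256) (nat_lit 130) (@Lb.g g8 (@Lb.g g10 (@Lb.g g11 (@Lb.r r2658 (@Lb.r r1639 (@Lb.r r1557 (@Lb.r r1316 (@Lb.d (nat_lit 68) (nat_lit 33) (nat_lit 384) (@Lb.t (@Lb.fp (nat_lit 9) t2815)))))))))))
noncomputable def l36528 : Lb := (@Lb.d (nat_lit 2) (nat_lit 258) (nat_lit 66) (@Lb.g g8 (@Lb.g g9 (@Lb.g g10 (@Lb.g g11 (@Lb.r r1602 (@Lb.r r2647 (@Lb.r r2457 (@Lb.r r2436 (@Lb.d (nat_lit 617) (nat_lit 129) (nat_lit 649) (@Lb.fm (nat_lit 9) t2211)))))))))))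
noncomputable def l36529 : Lb := (@Lb.r r20 (@Lb.d (nat_lit 0) (nat_lit 2) (nat_lit 66) (@Lb.g g9 (@Lb.g g10 (@Lb.g g11 (@Lb.r r1602 (@Lb.r r2643 (@Lb.r r2449 (@Lb.d (nat_lit 610) (nat_lit 152) (nat_lit 649) (@Lb.t (@Lb.fp (nat_lit 9) t2215)))))))))))
noncomputable def l36530 : Lb := (@Lb.d (nat_lit 73) (nat_lit 289) (nat_lit 66) (@Lb.g g8 (@Lb.g g9 (@Lb.g g10 (@Lb.g g11 (@Lb.r r1426 (@Lb.r r1371 (@Lb.r r2457 (@Lb.r r1288 (@Lb.d (nat_lit 145) (nat_lit 4) (nat_lit 400) (@Lb.fp (nat_lit 9) t4214)))))))))))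
noncomputable def l36531 : Lb := (@Lb.r r21 (@Lb.d (nat_lit 8) (nat_lit 0) (nat_lit 66) (@Lb.g g8 (@Lb.g g10 (@Lb.g g11 (@Lb.r r1114 (@Lb.r r2709 (@Lb.r r2583 (@Lb.r r1316 (@Lb.d (nat_lit 681) (nat_lit 38) (nat_lit 161) (@Lb.t (@Lb.fp (nat_lit 9) t6460))))))))))))
noncomputable def l36532 : Lb := (@Lb.r r1291 (@Lb.d (nat_lit 386) (nat_lit 0) (nat_lit 0) (@Lb.g g8 (@Lb.g g5 (@Lb.d (nat_lit 9) (nat_lit 128) (nat_lit 384) (@Lb.fp (nat_lit 3) t6461))))))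
noncomputable def l36533 : Lb := (@Lb.d (nat_lit 98) (nat_lit 9) (nat_lit 72) (@Lb.g g8 (@Lb.g g9 (@Lb.g g10 (@Lb.g g11 (@Lb.r r2705 (@Lb.r r535 (@Lb.r r2440 (@Lb.r r410 (@Lb.d (nat_lit 153) (nat_lit 161) (nat_lit 646) (@Lb.fm (nat_lit 9) t995)))))))))))
noncomputable def l36534 : Lb := (@Lb.r r20 (@Lb.d (nat_lit 0) (nat_lit 258) (nat_lit 66) (@Lb.g g9 (@Lb.g g10 (@Lb.g g11 (@Lb.r r1602 (@Lb.r r2643 (@Lb.r r2449 (@Lb.d (nat_lit 610) (nat_lit 150) (nat_lit 648) (@Lb.t (@Lb.fp (nat_lit 9) t2215)))))))))))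
noncomputable def l36535 : Lb := (@Lb.d (nat_lit 145) (nat_lit 512) (nat_lit 384) (@Lb.g g8 (@Lb.g g10 (@Lb.g g11 (@Lb.r r1602 (@Lb.r r388 (@Lb.d (nat_lit 98) (nat_lit 0) (nat_lit 330) (@Lb.t (@Lb.fm (nat_lit 9) t6188)))))))))
noncomputable def l36536 : Lb := (@Lb.d (nat_lit 0) (nat_lit 256) (nat_lit 128) (@Lb.g g10 (@Lb.g g11 (@Lb.r r1611 (@Lb.r r402 (@Lb.r r2145 (@Lb.r r36 (@Lb.d (nat_lit 65) (nat_lit 64) (nat_lit 512) (@Lb.fp (nat_lit 3) t1351)))))))))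
noncomputable def l36537 : Lb := (@Lb.d (nat_lit 42) (nat_lit 0) (nat_lit 0) (@Lb.g g4 (@Lb.g g7 (@Lb.r r426 (@Lb.r r1449 (@Lb.r r2472 (@Lb.d (nat_lit 617) (nat_lit 153) (nat_lit 682) (@Lb.fp (nat_lit 3) t2428))))))))
noncomputable def l36538 : Lb := (@Lb.r r331 (@Lb.d (nat_lit 138) (nat_lit 512) (nat_lit 40) (@Lb.g g8 (@Lb.g g10 (@Lb.r r1319 (@Lb.r r405 (@Lb.r r2660 (@Lb.d (nat_lit 666) (nat_lit 24) (nat_lit 257) (@Lb.fm (nat_lit 3) t3574)))))))))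
noncomputable def l36539 : Lb := (@Lb.d (nat_lit 128) (nat_lit 512) (nat_lit 128) (@Lb.g g8 (@Lb.g g11 (@Lb.r r1543 (@Lb.r r2630 (@Lb.r r2581 (@Lb.r r264 (@Lb.d (nat_lit 2) (nat_lit 0) (nat_lit 640) (@Lb.fm (nat_lit 3) t6454)))))))))
noncomputable def l36540 : Lb := (@Lb.d (nat_lit 145) (nat_lit 0) (nat_lit 384) (@Lb.g g8 (@Lb.g g10 (@Lb.g g11 (@Lb.r r1602 (@Lb.r r533 (@Lb.r r2340 (@Lb.d (nat_lit 74) (nat_lit 137) (nat_lit 346) (@Lb.t (@Lb.fm (nat_lit 9) t2004))))))))))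
noncomputable def l36541 : Lb := (@Lb.d (nat_lit 32) (nat_lit 258) (nat_lit 2) (@Lb.g g9 (@Lb.g g10 (@Lb.r r1547 (@Lb.r r149 (@Lb.r r100 (@Lb.r r602 (@Lb.d (nat_lit 105) (nat_lit 1) (nat_lit 297) (@Lb.fp (nat_lit 3) t6462)))))))))
noncomputable def l36542 : Lb := (@Lb.r r82 (@Lb.d (nat_lit 0) (nat_lit 290) (nat_lit 64) (@Lb.g g9 (@Lb.g g11 (@Lb.r r2467 (@Lb.r r386 (@Lb.d (nat_lit 10) (nat_lit 84) (nat_lit 354) (@Lb.fp (nat_lit 3) t4549))))))))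
noncomputable def l36543 : Lb := (@Lb.d (nat_lit 0) (nat_lit 258) (nat_lit 10) (@Lb.g g4 (@Lb.g g9 (@Lb.g g10 (@Lb.r r2339 (@Lb.r r145 (@Lb.r r594 (@Lb.d (nat_lit 0) (nat_lit 100) (nat_lit 20) (@Lb.t (@Lb.fp (nat_lit 9) t5530))))))))))
noncomputable def l36544 : Lb := (@Lb.r r275 (@Lb.d (nat_lit 1) (nat_lit 258) (nat_lit 2) (@Lb.g g8 (@Lb.g g9 (@Lb.g g10 (@Lb.r r2647 (@Lb.r r2198 (@Lb.r r1193 (@Lb.r r24 (@Lb.d (nat_lit 289) (nat_lit 32) (nat_lit 293) (@Lb.t (@Lb.fm (nat_lit 9) t898))))))))))))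
noncomputable def l36545 : Lb := (@Lb.r r21 (@Lb.d (nat_lit 129) (nat_lit 512) (nat_lit 66) (@Lb.g g8 (@Lb.g g10 (@Lb.g g11 (@Lb.r r1411 (@Lb.r r132 (@Lb.r r2438 (@Lb.r r145 (@Lb.d (nat_lit 81) (nat_lit 5) (nat_lit 613) (@Lb.t (@Lb.fp (nat_lit 9) t523))))))))))))
noncomputable def l36546 : Lb := (@Lb.d (nat_lit 18) (nat_lit 258) (nat_lit 0) (@Lb.g g8 (@Lb.g g9 (@Lb.g g10 (@Lb.r r683 (@Lb.r r1686 (@Lb.r r169 (@Lb.r r148 (@Lb.d (nat_lit 40) (nat_lit 74) (nat_lit 258) (@Lb.t (@Lb.fp (nat_lit 9) t531)))))))))))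
noncomputable def l36547 : Lb := (@Lb.d (nat_lit 16) (nat_lit 4) (nat_lit 129) (@Lb.g g8 (@Lb.g g9 (@Lb.g g10 (@Lb.g g11 (@Lb.r r1683 (@Lb.r r2581 (@Lb.r r616 (@Lb.r r1350 (@Lb.d (nat_lit 337) (nat_lit 9) (nat_lit 421) (@Lb.fp (nat_lit 9) t6463)))))))))))
noncomputable def l36548 : Lb := (@Lb.d (nat_lit 136) (nat_lit 258) (nat_lit 128) (@Lb.g g9 (@Lb.g g11 (@Lb.r r260 (@Lb.r r603 (@Lb.r r1425 (@Lb.d (nat_lit 538) (nat_lit 1) (nat_lit 154) (@Lb.fp (nat_lit 3) t6464))))))))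
noncomputable def l36549 : Lb := (@Lb.d (nat_lit 0) (nat_lit 512) (nat_lit 129) (@Lb.r r2371 (@Lb.g g6 (@Lb.g g9 (@Lb.d (nat_lit 0) (nat_lit 68) (nat_lit 1) (@Lb.r r291 (@Lb.fp (nat_lit 3) t660)))))))
noncomputable def l36550 : Lb := (@Lb.r r323 (@Lb.d (nat_lit 0) (nat_lit 2) (nat_lit 4) (@Lb.g g5 (@Lb.g g6 (@Lb.r r2323 (@Lb.r r1640 (@Lb.r r1561 (@Lb.d (nat_lit 645) (nat_lit 40) (nat_lit 416) (@Lb.fp (nat_lit 3) t6465)))))))))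
noncomputable def l36551 : Lb := (@Lb.d (nat_lit 0) (nat_lit 512) (nat_lit 133) (@Lb.g g10 (@Lb.g g11 (@Lb.r r1347 (@Lb.r r1378 (@Lb.r r101 (@Lb.r r24 (@Lb.d (nat_lit 576) (nat_lit 5) (nat_lit 321) (@Lb.fm (nat_lit 3) t145)))))))))
noncomputable def l36552 : Lb := (@Lb.d (nat_lit 0) (nat_lit 4) (nat_lit 0) (@Lb.g g9 (@Lb.g g10 (@Lb.g g7 (@Lb.r r161 (@Lb.r r418 (@Lb.r r2193 (@Lb.d (nat_lit 5) (nat_lit 138) (nat_lit 597) (@Lb.t (@Lb.fp (nat_lit 9) t6466))))))))))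
noncomputable def l36553 : Lb := (@Lb.d (nat_lit 0) (nat_lit 261) (nat_lit 0) (@Lb.g g5 (@Lb.d (nat_lit 0) (nat_lit 10) (nat_lit 128) (@Lb.t (@Lb.fm (nat_lit 3) t87)))))
noncomputable def l36554 : Lb := (@Lb.d (nat_lit 534) (nat_lit 358) (nat_lit 516) (@Lb.r r1173 (@Lb.r r2198 (@Lb.r r2391 (@Lb.g g5 (@Lb.d (nat_lit 0) (nat_lit 5) (nat_lit 0) (@Lb.t (@Lb.fp (nat_lit 3) t6467))))))))
noncomputable def l36555 : Lb := (@Lb.d (nat_lit 100) (nat_lit 166) (nat_lit 130) (@Lb.g g8 (@Lb.g g5 (@Lb.g g10 (@Lb.g g11 (@Lb.r r2691 (@Lb.r r1170 (@Lb.r r2328 (@Lb.d (nat_lit 394) (nat_lit 21) (nat_lit 145) (@Lb.fp (nat_lit 9) t3454))))))))))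
noncomputable def l36556 : Lb := (@Lb.g g10 (@Lb.g g7 (@Lb.r r2691 (@Lb.r r1378 (@Lb.r r101 (@Lb.r r24 (@Lb.d (nat_lit 258) (nat_lit 5) (nat_lit 513) (@Lb.fm (nat_lit 3) t145))))))))
noncomputable def l36557 : Lb := (@Lb.g g10 (@Lb.g g7 (@Lb.r r2641 (@Lb.r r354 (@Lb.d (nat_lit 5) (nat_lit 160) (nat_lit 21) (@Lb.fp (nat_lit 3) t3979))))))
noncomputable def l36558 : Lb := (@Lb.g g10 (@Lb.g g7 (@Lb.r r402 (@Lb.r r101 (@Lb.r r24 (@Lb.d (nat_lit 258) (nat_lit 5) (nat_lit 513) (@Lb.fm (nat_lit 3) t145)))))))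
noncomputable def l36559 : Lb := (@Lb.r r260 (@Lb.r r283 (@Lb.r r2178 (@Lb.r r537 (@Lb.r r20 (@Lb.d (nat_lit 329) (nat_lit 394) (nat_lit 514) (@Lb.fm (nat_lit 1) t690)))))))
noncomputable def l36560 : Lb := (@Lb.r r323 (@Lb.d (nat_lit 40) (nat_lit 361) (nat_lit 1) (@Lb.g g9 (@Lb.g g10 (@Lb.r r599 (@Lb.r r2648 (@Lb.r r1414 (@Lb.d (nat_lit 674) (nat_lit 34) (nat_lit 658) (@Lb.fp (nat_lit 3) t2310)))))))))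
noncomputable def l36561 : Lb := (@Lb.d (nat_lit 0) (nat_lit 265) (nat_lit 72) (@Lb.g g8 (@Lb.g g9 (@Lb.g g10 (@Lb.g g11 (@Lb.r r610 (@Lb.r r579 (@Lb.r r2585 (@Lb.r r2564 (@Lb.d (nat_lit 325) (nat_lit 33) (nat_lit 266) (@Lb.fm (nat_lit 9) t6277)))))))))))
noncomputable def l36562 : Lb := (@Lb.r r260 (@Lb.r r283 (@Lb.r r2178 (@Lb.r r537 (@Lb.r r20 (@Lb.d (nat_lit 330) (nat_lit 640) (nat_lit 512) (@Lb.fm (nat_lit 1) t1639)))))))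
noncomputable def l36563 : Lb := (@Lb.d (nat_lit 0) (nat_lit 32) (nat_lit 64) (@Lb.g g11 (@Lb.r r2337 (@Lb.r r1559 (@Lb.r r2178 (@Lb.r r8 (@Lb.d (nat_lit 650) (nat_lit 98) (nat_lit 384) (@Lb.t (@Lb.fp (nat_lit 3) t322)))))))))
noncomputable def l36564 : Lb := (@Lb.r r260 (@Lb.r r283 (@Lb.r r2178 (@Lb.r r537 (@Lb.r r20 (@Lb.d (nat_lit 329) (nat_lit 128) (nat_lit 512) (@Lb.fm (nat_lit 1) t1639)))))))
noncomputable def l36565 : Lb := (@Lb.d (nat_lit 138) (nat_lit 257) (nat_lit 2) (@Lb.g g8 (@Lb.g g9 (@Lb.g g10 (@Lb.r r1699 (@Lb.r r1194 (@Lb.r r1553 (@Lb.r r392 (@Lb.d (nat_lit 152) (nat_lit 102) (nat_lit 584) (@Lb.t (@Lb.fp (nat_lit 9) t51)))))))))))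
noncomputable def l36566 : Lb := (@Lb.d (nat_lit 0) (nat_lit 289) (nat_lit 0) (@Lb.g g9 (@Lb.r r2579 (@Lb.r r2178 (@Lb.r r1321 (@Lb.r r8 (@Lb.d (nat_lit 133) (nat_lit 98) (nat_lit 320) (@Lb.t (@Lb.fp (nat_lit 3) t1639)))))))))
noncomputable def l36567 : Lb := (@Lb.d (nat_lit 2) (nat_lit 2) (nat_lit 130) (@Lb.g g8 (@Lb.g g9 (@Lb.g g10 (@Lb.g g11 (@Lb.r r610 (@Lb.r r1607 (@Lb.r r2457 (@Lb.r r2436 (@Lb.d (nat_lit 666) (nat_lit 9) (nat_lit 408) (@Lb.fm (nat_lit 9) t2487)))))))))))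
noncomputable def l36568 : Lb := (@Lb.d (nat_lit 2) (nat_lit 258) (nat_lit 130) (@Lb.g g8 (@Lb.g g9 (@Lb.g g10 (@Lb.g g11 (@Lb.r r610 (@Lb.r r1607 (@Lb.r r2457 (@Lb.r r2436 (@Lb.d (nat_lit 164) (nat_lit 6) (nat_lit 392) (@Lb.fm (nat_lit 9) t2103)))))))))))
noncomputable def l36569 : Lb := (@Lb.d (nat_lit 10) (nat_lit 320) (nat_lit 512) (@Lb.r r1608 (@Lb.r r619 (@Lb.r r2390 (@Lb.g g7 (@Lb.g g5 (@Lb.d (nat_lit 0) (nat_lit 81) (nat_lit 128) (@Lb.r r36 (@Lb.fm (nat_lit 3) t4226)))))))))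
noncomputable def l36570 : Lb := (@Lb.d (nat_lit 2) (nat_lit 2) (nat_lit 4) (@Lb.g g8 (@Lb.g g9 (@Lb.g g10 (@Lb.g g11 (@Lb.r r2411 (@Lb.r r386 (@Lb.r r97 (@Lb.r r24 (@Lb.d (nat_lit 533) (nat_lit 6) (nat_lit 136) (@Lb.fm (nat_lit 9) t61)))))))))))
noncomputable def l36571 : Lb := (@Lb.d (nat_lit 0) (nat_lit 2) (nat_lit 130) (@Lb.g g8 (@Lb.g g9 (@Lb.g g10 (@Lb.g g11 (@Lb.r r427 (@Lb.r r424 (@Lb.r r106 (@Lb.r r25 (@Lb.d (nat_lit 581) (nat_lit 6) (nat_lit 680) (@Lb.fm (nat_lit 9) t2258)))))))))))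
noncomputable def l36572 : Lb := (@Lb.d (nat_lit 70) (nat_lit 550) (nat_lit 289) (@Lb.r r355 (@Lb.r r2642 (@Lb.r r1173 (@Lb.g g7 (@Lb.g g5 (@Lb.g g4 (@Lb.d (nat_lit 8) (nat_lit 18) (nat_lit 64) (@Lb.t (@Lb.fp (nat_lit 9) t2877))))))))))
noncomputable def l36573 : Lb := (@Lb.d (nat_lit 2) (nat_lit 512) (nat_lit 74) (@Lb.g g8 (@Lb.g g10 (@Lb.g g11 (@Lb.r r2327 (@Lb.r r644 (@Lb.r r2646 (@Lb.r r1057 (@Lb.d (nat_lit 656) (nat_lit 22) (nat_lit 18) (@Lb.t (@Lb.fp (nat_lit 9) t2115)))))))))))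
noncomputable def l36574 : Lb := (@Lb.d (nat_lit 640) (nat_lit 2) (nat_lit 130) (@Lb.g g4 (@Lb.g g9 (@Lb.g g10 (@Lb.g g11 (@Lb.r r677 (@Lb.r r423 (@Lb.r r2438 (@Lb.d (nat_lit 682) (nat_lit 74) (nat_lit 361) (@Lb.fm (nat_lit 9) t2605))))))))))
noncomputable def l36575 : Lb := (@Lb.d (nat_lit 9) (nat_lit 545) (nat_lit 66) (@Lb.g g8 (@Lb.g g9 (@Lb.g g10 (@Lb.g g11 (@Lb.r r1451 (@Lb.r r2154 (@Lb.r r601 (@Lb.d (nat_lit 104) (nat_lit 137) (nat_lit 609) (@Lb.fp (nat_lit 9) t1038))))))))))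
noncomputable def l36576 : Lb := (@Lb.r r21 (@Lb.d (nat_lit 129) (nat_lit 512) (nat_lit 130) (@Lb.g g8 (@Lb.g g10 (@Lb.g g11 (@Lb.r r1674 (@Lb.r r1411 (@Lb.r r2657 (@Lb.r r548 (@Lb.d (nat_lit 593) (nat_lit 6) (nat_lit 549) (@Lb.t (@Lb.fm (nat_lit 9) t6468))))))))))))
noncomputable def l36577 : Lb := (@Lb.d (nat_lit 145) (nat_lit 357) (nat_lit 360) (@Lb.r r1044 (@Lb.r r1641 (@Lb.r r1410 (@Lb.g g11 (@Lb.g g6 (@Lb.g g5 (@Lb.g g4 (@Lb.d (nat_lit 153) (nat_lit 1) (nat_lit 326) (@Lb.fm (nat_lit 9) t4503))))))))))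
noncomputable def l36578 : Lb := (@Lb.g g4 (@Lb.g g7 (@Lb.r r2311 (@Lb.d (nat_lit 257) (nat_lit 0) (nat_lit 0) (@Lb.fm (nat_lit 3) t469)))))
noncomputable def l36579 : Lb := (@Lb.d (nat_lit 33) (nat_lit 256) (nat_lit 128) (@Lb.g g8 (@Lb.g g11 (@Lb.r r345 (@Lb.r r1638 (@Lb.r r615 (@Lb.r r408 (@Lb.d (nat_lit 292) (nat_lit 154) (nat_lit 682) (@Lb.fm (nat_lit 3) t6123)))))))))
noncomputable def l36580 : Lb := (@Lb.d (nat_lit 0) (nat_lit 0) (nat_lit 136) (@Lb.g g11 (@Lb.r r405 (@Lb.r r2454 (@Lb.r r2411 (@Lb.r r1124 (@Lb.d (nat_lit 26) (nat_lit 9) (nat_lit 128) (@Lb.t (@Lb.fm (nat_lit 3) t2570)))))))))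
noncomputable def l36581 : Lb := (@Lb.d (nat_lit 144) (nat_lit 521) (nat_lit 130) (@Lb.g g8 (@Lb.g g9 (@Lb.g g10 (@Lb.g g11 (@Lb.r r1194 (@Lb.r r1444 (@Lb.r r2597 (@Lb.r r291 (@Lb.d (nat_lit 521) (nat_lit 69) (nat_lit 88) (@Lb.fp (nat_lit 9) t1736)))))))))))
noncomputable def l36582 : Lb := (@Lb.d (nat_lit 153) (nat_lit 513) (nat_lit 128) (@Lb.g g8 (@Lb.g g9 (@Lb.g g10 (@Lb.g g11 (@Lb.r r1706 (@Lb.r r1411 (@Lb.r r1188 (@Lb.r r37 (@Lb.d (nat_lit 361) (nat_lit 66) (nat_lit 666) (@Lb.fp (nat_lit 9) t2998)))))))))))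
noncomputable def l36583 : Lb := (@Lb.d (nat_lit 152) (nat_lit 513) (nat_lit 128) (@Lb.g g8 (@Lb.g g9 (@Lb.g g10 (@Lb.g g11 (@Lb.r r683 (@Lb.r r2410 (@Lb.r r548 (@Lb.r r37 (@Lb.d (nat_lit 356) (nat_lit 32) (nat_lit 21) (@Lb.fp (nat_lit 9) t283)))))))))))
noncomputable def l36584 : Lb := (@Lb.d (nat_lit 18) (nat_lit 514) (nat_lit 138) (@Lb.g g8 (@Lb.g g9 (@Lb.g g10 (@Lb.g g11 (@Lb.r r1689 (@Lb.r r1683 (@Lb.r r1602 (@Lb.r r292 (@Lb.d (nat_lit 69) (nat_lit 136) (nat_lit 409) (@Lb.fm (nat_lit 9) t898)))))))))))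
noncomputable def l36585 : Lb := (@Lb.d (nat_lit 0) (nat_lit 0) (nat_lit 137) (@Lb.g g10 (@Lb.g g7 (@Lb.r r386 (@Lb.d (nat_lit 5) (nat_lit 1) (nat_lit 9) (@Lb.fm (nat_lit 3) t2))))))
noncomputable def l36586 : Lb := (@Lb.r r21 (@Lb.d (nat_lit 514) (nat_lit 260) (nat_lit 73) (@Lb.g g8 (@Lb.g g10 (@Lb.g g11 (@Lb.r r2713 (@Lb.r r1367 (@Lb.r r2698 (@Lb.d (nat_lit 385) (nat_lit 10) (nat_lit 41) (@Lb.t (@Lb.fp (nat_lit 9) t61)))))))))))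
noncomputable def l36587 : Lb := (@Lb.d (nat_lit 8) (nat_lit 514) (nat_lit 2) (@Lb.g g8 (@Lb.g g9 (@Lb.g g10 (@Lb.g g11 (@Lb.r r2691 (@Lb.r r2345 (@Lb.r r360 (@Lb.r r582 (@Lb.r r2180 (@Lb.d (nat_lit 642) (nat_lit 10) (nat_lit 89) (@Lb.fm (nat_lit 9) t242))))))))))))
noncomputable def l36588 : Lb := (@Lb.d (nat_lit 33) (nat_lit 256) (nat_lit 72) (@Lb.r r154 (@Lb.r r404 (@Lb.r r363 (@Lb.r r353 (@Lb.g g7 (@Lb.g g4 (@Lb.d (nat_lit 4) (nat_lit 0) (nat_lit 64) (@Lb.fm (nat_lit 3) t51)))))))))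
noncomputable def l36589 : Lb := (@Lb.d (nat_lit 393) (nat_lit 536) (nat_lit 577) (@Lb.r r1608 (@Lb.r r161 (@Lb.r r1626 (@Lb.g g7 (@Lb.g g5 (@Lb.g g4 (@Lb.d (nat_lit 8) (nat_lit 17) (nat_lit 68) (@Lb.r r98 (@Lb.t (@Lb.fp (nat_lit 9) t3986)))))))))))
noncomputable def l36590 : Lb := (@Lb.r r21 (@Lb.r r70 (@Lb.d (nat_lit 512) (nat_lit 0) (nat_lit 136) (@Lb.g g4 (@Lb.g g11 (@Lb.r r362 (@Lb.r r2451 (@Lb.r r25 (@Lb.d (nat_lit 666) (nat_lit 64) (nat_lit 384) (@Lb.fp (nat_lit 3) t1830))))))))))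
noncomputable def l36591 : Lb := (@Lb.d (nat_lit 137) (nat_lit 656) (nat_lit 513) (@Lb.r r548 (@Lb.r r81 (@Lb.r r599 (@Lb.g g6 (@Lb.g g4 (@Lb.d (nat_lit 64) (nat_lit 8) (nat_lit 1) (@Lb.r r387 (@Lb.r r25 (@Lb.fp (nat_lit 3) t367))))))))))
noncomputable def l36592 : Lb := (@Lb.r r326 (@Lb.d (nat_lit 281) (nat_lit 32) (nat_lit 132) (@Lb.g g8 (@Lb.g g11 (@Lb.r r2626 (@Lb.d (nat_lit 10) (nat_lit 89) (nat_lit 618) (@Lb.fm (nat_lit 3) t6469)))))))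
noncomputable def l36593 : Lb := (@Lb.g g7 (@Lb.r r402 (@Lb.r r101 (@Lb.r r24 (@Lb.d (nat_lit 266) (nat_lit 258) (nat_lit 512) (@Lb.t (@Lb.fp (nat_lit 3) t145)))))))
noncomputable def l36594 : Lb := (@Lb.d (nat_lit 2) (nat_lit 69) (nat_lit 17) (@Lb.r r101 (@Lb.r r322 (@Lb.r r2435 (@Lb.r r386 (@Lb.g g8 (@Lb.d (nat_lit 9) (nat_lit 0) (nat_lit 0) (@Lb.t (@Lb.fp (nat_lit 3) t6470)))))))))
noncomputable def l36595 : Lb := (@Lb.r r273 (@Lb.r r322 (@Lb.d (nat_lit 129) (nat_lit 16) (nat_lit 520) (@Lb.g g8 (@Lb.g g7 (@Lb.r r361 (@Lb.r r146 (@Lb.r r264 (@Lb.d (nat_lit 168) (nat_lit 68) (nat_lit 517) (@Lb.fm (nat_lit 3) t3303))))))))))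
noncomputable def l36596 : Lb := (@Lb.d (nat_lit 2) (nat_lit 69) (nat_lit 89) (@Lb.r r101 (@Lb.r r323 (@Lb.g g7 (@Lb.g g6 (@Lb.g g8 (@Lb.d (nat_lit 9) (nat_lit 0) (nat_lit 64) (@Lb.t (@Lb.fp (nat_lit 9) t4148)))))))))
noncomputable def l36597 : Lb := (@Lb.r r21 (@Lb.d (nat_lit 2) (nat_lit 0) (nat_lit 130) (@Lb.g g8 (@Lb.g g10 (@Lb.g g11 (@Lb.r r1451 (@Lb.r r1448 (@Lb.r r106 (@Lb.r r97 (@Lb.d (nat_lit 609) (nat_lit 66) (nat_lit 16) (@Lb.t (@Lb.fm (nat_lit 9) t171))))))))))))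
noncomputable def l36598 : Lb := (@Lb.d (nat_lit 384) (nat_lit 274) (nat_lit 586) (@Lb.r r1307 (@Lb.r r1428 (@Lb.r r1174 (@Lb.g g7 (@Lb.g g6 (@Lb.g g9 (@Lb.d (nat_lit 4) (nat_lit 25) (nat_lit 128) (@Lb.r r36 (@Lb.t (@Lb.fp (nat_lit 9) t320)))))))))))
noncomputable def l36599 : Lb := (@Lb.d (nat_lit 2) (nat_lit 2) (nat_lit 66) (@Lb.g g8 (@Lb.g g9 (@Lb.g g10 (@Lb.g g7 (@Lb.r r386 (@Lb.r r1129 (@Lb.r r36 (@Lb.d (nat_lit 546) (nat_lit 85) (nat_lit 282) (@Lb.fm (nat_lit 9) t845))))))))))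
noncomputable def l36600 : Lb := (@Lb.d (nat_lit 2) (nat_lit 258) (nat_lit 66) (@Lb.g g8 (@Lb.g g9 (@Lb.g g10 (@Lb.g g7 (@Lb.r r386 (@Lb.r r1129 (@Lb.r r36 (@Lb.d (nat_lit 553) (nat_lit 84) (nat_lit 282) (@Lb.fm (nat_lit 9) t845))))))))))
noncomputable def l36601 : Lb := (@Lb.d (nat_lit 0) (nat_lit 530) (nat_lit 64) (@Lb.r r24 (@Lb.r r2593 (@Lb.r r1315 (@Lb.g g7 (@Lb.g g5 (@Lb.d (nat_lit 0) (nat_lit 32) (nat_lit 128) (@Lb.fm (nat_lit 3) t5297))))))))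
noncomputable def l36602 : Lb := (@Lb.r r21 (@Lb.d (nat_lit 2) (nat_lit 0) (nat_lit 130) (@Lb.g g8 (@Lb.g g10 (@Lb.g g11 (@Lb.r r1451 (@Lb.r r1448 (@Lb.r r106 (@Lb.r r97 (@Lb.d (nat_lit 617) (nat_lit 65) (nat_lit 16) (@Lb.t (@Lb.fm (nat_lit 9) t171))))))))))))
noncomputable def l36603 : Lb := (@Lb.d (nat_lit 402) (nat_lit 134) (nat_lit 17) (@Lb.r r580 (@Lb.r r1106 (@Lb.r r1623 (@Lb.g g6 (@Lb.g g5 (@Lb.g g4 (@Lb.d (nat_lit 97) (nat_lit 17) (nat_lit 1) (@Lb.t (@Lb.fm (nat_lit 9) t100))))))))))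
noncomputable def l36604 : Lb := (@Lb.g g11 (@Lb.r r2434 (@Lb.r r2371 (@Lb.d (nat_lit 0) (nat_lit 0) (nat_lit 545) (@Lb.t (@Lb.fm (nat_lit 3) t2))))))
noncomputable def l36605 : Lb := (@Lb.d (nat_lit 1) (nat_lit 600) (nat_lit 341) (@Lb.r r1362 (@Lb.g g7 (@Lb.g g6 (@Lb.g g5 (@Lb.d (nat_lit 4) (nat_lit 1) (nat_lit 1) (@Lb.t (@Lb.fp (nat_lit 9) t607))))))))
noncomputable def l36606 : Lb := (@Lb.g g10 (@Lb.g g7 (@Lb.r r2691 (@Lb.r r1378 (@Lb.r r101 (@Lb.d (nat_lit 513) (nat_lit 322) (nat_lit 576) (@Lb.fp (nat_lit 3) t983)))))))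
noncomputable def l36607 : Lb := (@Lb.d (nat_lit 34) (nat_lit 2) (nat_lit 73) (@Lb.g g8 (@Lb.g g9 (@Lb.g g10 (@Lb.g g11 (@Lb.r r1623 (@Lb.r r2154 (@Lb.r r2649 (@Lb.r r2628 (@Lb.d (nat_lit 665) (nat_lit 85) (nat_lit 280) (@Lb.fm (nat_lit 9) t125)))))))))))
noncomputable def l36608 : Lb := (@Lb.r r2579 (@Lb.r r2341 (@Lb.r r2136 (@Lb.r r1158 (@Lb.d (nat_lit 2) (nat_lit 5) (nat_lit 1) (@Lb.fp (nat_lit 1) t296))))))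
noncomputable def l36609 : Lb := (@Lb.d (nat_lit 2) (nat_lit 553) (nat_lit 648) (@Lb.r r657 (@Lb.r r2182 (@Lb.r r1687 (@Lb.g g5 (@Lb.g g4 (@Lb.d (nat_lit 280) (nat_lit 17) (nat_lit 0) (@Lb.r r267 (@Lb.r r74 (@Lb.fm (nat_lit 3) t1751))))))))))
noncomputable def l36610 : Lb := (@Lb.d (nat_lit 128) (nat_lit 545) (nat_lit 66) (@Lb.g g8 (@Lb.g g9 (@Lb.g g10 (@Lb.g g11 (@Lb.r r419 (@Lb.r r2726 (@Lb.r r1364 (@Lb.r r409 (@Lb.d (nat_lit 153) (nat_lit 66) (nat_lit 616) (@Lb.fm (nat_lit 9) t2135)))))))))))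
noncomputable def l36611 : Lb := (@Lb.r r82 (@Lb.r r263 (@Lb.d (nat_lit 34) (nat_lit 258) (nat_lit 0) (@Lb.g g8 (@Lb.g g9 (@Lb.r r1430 (@Lb.r r2627 (@Lb.r r264 (@Lb.d (nat_lit 128) (nat_lit 146) (nat_lit 0) (@Lb.fp (nat_lit 3) t6471))))))))))
noncomputable def l36612 : Lb := (@Lb.d (nat_lit 33) (nat_lit 4) (nat_lit 128) (@Lb.g g8 (@Lb.g g9 (@Lb.g g10 (@Lb.g g11 (@Lb.r r1707 (@Lb.r r657 (@Lb.r r356 (@Lb.r r1690 (@Lb.r r1156 (@Lb.d (nat_lit 73) (nat_lit 104) (nat_lit 257) (@Lb.fp (nat_lit 9) t6472))))))))))))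
noncomputable def l36613 : Lb := (@Lb.d (nat_lit 1) (nat_lit 512) (nat_lit 136) (@Lb.g g8 (@Lb.g g9 (@Lb.g g11 (@Lb.r r1162 (@Lb.r r1188 (@Lb.r r405 (@Lb.r r1635 (@Lb.d (nat_lit 2) (nat_lit 73) (nat_lit 618) (@Lb.t (@Lb.fm (nat_lit 9) t4704)))))))))))
noncomputable def l36614 : Lb := (@Lb.r r1114 (@Lb.r r580 (@Lb.r r295 (@Lb.r r2329 (@Lb.r r1044 (@Lb.d (nat_lit 608) (nat_lit 256) (nat_lit 18) (@Lb.fp (nat_lit 1) t807)))))))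
noncomputable def l36615 : Lb := (@Lb.r r82 (@Lb.r r263 (@Lb.d (nat_lit 2) (nat_lit 129) (nat_lit 0) (@Lb.g g8 (@Lb.g g5 (@Lb.r r2651 (@Lb.r r386 (@Lb.r r1048 (@Lb.d (nat_lit 0) (nat_lit 65) (nat_lit 66) (@Lb.fm (nat_lit 3) t6473))))))))))
noncomputable def l36616 : Lb := (@Lb.d (nat_lit 257) (nat_lit 598) (nat_lit 321) (@Lb.r r2321 (@Lb.r r1635 (@Lb.r r406 (@Lb.g g7 (@Lb.g g5 (@Lb.g g4 (@Lb.d (nat_lit 262) (nat_lit 6) (nat_lit 64) (@Lb.r r74 (@Lb.t (@Lb.fp (nat_lit 9) t2837)))))))))))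
noncomputable def l36617 : Lb := (@Lb.d (nat_lit 64) (nat_lit 2) (nat_lit 2) (@Lb.g g8 (@Lb.g g9 (@Lb.g g10 (@Lb.g g11 (@Lb.r r1450 (@Lb.r r2647 (@Lb.r r2337 (@Lb.r r84 (@Lb.d (nat_lit 280) (nat_lit 102) (nat_lit 578) (@Lb.fm (nat_lit 9) t2837)))))))))))
noncomputable def l36618 : Lb := (@Lb.d (nat_lit 1) (nat_lit 0) (nat_lit 136) (@Lb.g g8 (@Lb.g g9 (@Lb.g g11 (@Lb.r r1162 (@Lb.r r1188 (@Lb.r r405 (@Lb.r r1635 (@Lb.d (nat_lit 2) (nat_lit 73) (nat_lit 549) (@Lb.t (@Lb.fm (nat_lit 9) t4704)))))))))))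
noncomputable def l36619 : Lb := (@Lb.d (nat_lit 1) (nat_lit 0) (nat_lit 609) (@Lb.r r1158 (@Lb.r r2136 (@Lb.r r293 (@Lb.r r1299 (@Lb.g g7 (@Lb.g g6 (@Lb.g g5 (@Lb.d (nat_lit 0) (nat_lit 1) (nat_lit 128) (@Lb.t (@Lb.fm (nat_lit 9) t1956)))))))))))
noncomputable def l36620 : Lb := (@Lb.d (nat_lit 10) (nat_lit 32) (nat_lit 130) (@Lb.g g8 (@Lb.g g10 (@Lb.g g11 (@Lb.r r1618 (@Lb.r r149 (@Lb.r r2340 (@Lb.r r587 (@Lb.d (nat_lit 98) (nat_lit 90) (nat_lit 392) (@Lb.t (@Lb.fp (nat_lit 9) t100)))))))))))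
noncomputable def l36621 : Lb := (@Lb.r r82 (@Lb.r r275 (@Lb.d (nat_lit 0) (nat_lit 353) (nat_lit 0) (@Lb.g g5 (@Lb.r r291 (@Lb.r r98 (@Lb.d (nat_lit 5) (nat_lit 146) (nat_lit 64) (@Lb.t (@Lb.fm (nat_lit 3) t1352)))))))))
noncomputable def l36622 : Lb := (@Lb.d (nat_lit 2) (nat_lit 512) (nat_lit 128) (@Lb.g g8 (@Lb.g g11 (@Lb.r r1162 (@Lb.r r1188 (@Lb.r r2597 (@Lb.r r1315 (@Lb.d (nat_lit 0) (nat_lit 18) (nat_lit 650) (@Lb.fm (nat_lit 3) t2604)))))))))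
noncomputable def l36623 : Lb := (@Lb.r r82 (@Lb.d (nat_lit 9) (nat_lit 32) (nat_lit 128) (@Lb.g g8 (@Lb.g g9 (@Lb.g g11 (@Lb.r r555 (@Lb.r r612 (@Lb.r r1194 (@Lb.r r81 (@Lb.d (nat_lit 0) (nat_lit 41) (nat_lit 657) (@Lb.t (@Lb.fm (nat_lit 9) t1038))))))))))))
noncomputable def l36624 : Lb := (@Lb.r r40 (@Lb.r r425 (@Lb.r r2474 (@Lb.r r2391 (@Lb.r r2212 (@Lb.d (nat_lit 256) (nat_lit 512) (nat_lit 576) (@Lb.fm (nat_lit 1) t1261)))))))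
noncomputable def l36625 : Lb := (@Lb.d (nat_lit 1) (nat_lit 265) (nat_lit 72) (@Lb.g g4 (@Lb.g g9 (@Lb.g g10 (@Lb.g g11 (@Lb.r r657 (@Lb.r r2706 (@Lb.d (nat_lit 1) (nat_lit 38) (nat_lit 326) (@Lb.fp (nat_lit 9) t267)))))))))
noncomputable def l36626 : Lb := (@Lb.d (nat_lit 0) (nat_lit 544) (nat_lit 512) (@Lb.r r20 (@Lb.r r1049 (@Lb.r r280 (@Lb.g g11 (@Lb.g g5 (@Lb.g g4 (@Lb.d (nat_lit 70) (nat_lit 1) (nat_lit 512) (@Lb.t (@Lb.fp (nat_lit 9) t441))))))))))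
noncomputable def l36627 : Lb := (@Lb.d (nat_lit 16) (nat_lit 0) (nat_lit 2) (@Lb.g g10 (@Lb.g g7 (@Lb.r r424 (@Lb.r r617 (@Lb.r r338 (@Lb.d (nat_lit 610) (nat_lit 17) (nat_lit 548) (@Lb.fp (nat_lit 3) t166))))))))
noncomputable def l36628 : Lb := (@Lb.d (nat_lit 9) (nat_lit 256) (nat_lit 2) (@Lb.g g8 (@Lb.g g10 (@Lb.g g7 (@Lb.r r386 (@Lb.r r101 (@Lb.r r24 (@Lb.d (nat_lit 617) (nat_lit 9) (nat_lit 552) (@Lb.t (@Lb.fm (nat_lit 9) t166))))))))))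
noncomputable def l36629 : Lb := (@Lb.r r323 (@Lb.d (nat_lit 9) (nat_lit 545) (nat_lit 2) (@Lb.g g8 (@Lb.g g9 (@Lb.g g10 (@Lb.r r599 (@Lb.r r74 (@Lb.r r296 (@Lb.r r409 (@Lb.d (nat_lit 149) (nat_lit 162) (nat_lit 8) (@Lb.t (@Lb.fm (nat_lit 9) t51))))))))))))
noncomputable def l36630 : Lb := (@Lb.d (nat_lit 16) (nat_lit 512) (nat_lit 2) (@Lb.g g10 (@Lb.g g7 (@Lb.r r424 (@Lb.r r617 (@Lb.r r338 (@Lb.d (nat_lit 610) (nat_lit 22) (nat_lit 549) (@Lb.fp (nat_lit 3) t166))))))))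
noncomputable def l36631 : Lb := (@Lb.r r2343 (@Lb.r r1096 (@Lb.r r2646 (@Lb.r r289 (@Lb.d (nat_lit 1) (nat_lit 642) (nat_lit 154) (@Lb.fp (nat_lit 1) t1195))))))
noncomputable def l36632 : Lb := (@Lb.r r323 (@Lb.d (nat_lit 2) (nat_lit 265) (nat_lit 1) (@Lb.g g8 (@Lb.g g9 (@Lb.g g10 (@Lb.r r401 (@Lb.r r299 (@Lb.r r420 (@Lb.r r102 (@Lb.d (nat_lit 20) (nat_lit 5) (nat_lit 0) (@Lb.t (@Lb.fm (nat_lit 9) t1506))))))))))))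
noncomputable def l36633 : Lb := (@Lb.d (nat_lit 153) (nat_lit 1) (nat_lit 64) (@Lb.g g8 (@Lb.g g9 (@Lb.g g10 (@Lb.g g11 (@Lb.r r683 (@Lb.r r618 (@Lb.r r552 (@Lb.r r41 (@Lb.r r36 (@Lb.d (nat_lit 16) (nat_lit 41) (nat_lit 129) (@Lb.fm (nat_lit 9) t522))))))))))))
noncomputable def l36634 : Lb := (@Lb.d (nat_lit 10) (nat_lit 512) (nat_lit 0) (@Lb.g g8 (@Lb.r r515 (@Lb.r r594 (@Lb.r r149 (@Lb.r r36 (@Lb.d (nat_lit 105) (nat_lit 2) (nat_lit 2) (@Lb.t (@Lb.fm (nat_lit 3) t145)))))))))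
noncomputable def l36635 : Lb := (@Lb.d (nat_lit 10) (nat_lit 2) (nat_lit 73) (@Lb.g g8 (@Lb.g g9 (@Lb.g g10 (@Lb.g g11 (@Lb.r r650 (@Lb.r r648 (@Lb.r r555 (@Lb.r r529 (@Lb.r r36 (@Lb.d (nat_lit 4) (nat_lit 8) (nat_lit 2) (@Lb.fm (nat_lit 9) t51))))))))))))
noncomputable def l36636 : Lb := (@Lb.g g5 (@Lb.g g10 (@Lb.g g7 (@Lb.r r579 (@Lb.r r402 (@Lb.d (nat_lit 0) (nat_lit 64) (nat_lit 16) (@Lb.t (@Lb.fm (nat_lit 9) t334))))))))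
noncomputable def l36637 : Lb := (@Lb.d (nat_lit 2) (nat_lit 0) (nat_lit 64) (@Lb.g g8 (@Lb.g g10 (@Lb.g g7 (@Lb.r r402 (@Lb.r r2145 (@Lb.r r24 (@Lb.d (nat_lit 325) (nat_lit 33) (nat_lit 256) (@Lb.t (@Lb.fm (nat_lit 9) t5077))))))))))
noncomputable def l36638 : Lb := (@Lb.d (nat_lit 6) (nat_lit 18) (nat_lit 10) (@Lb.r r21 (@Lb.r r579 (@Lb.r r342 (@Lb.g g7 (@Lb.g g6 (@Lb.g g4 (@Lb.d (nat_lit 8) (nat_lit 0) (nat_lit 133) (@Lb.r r25 (@Lb.t (@Lb.fm (nat_lit 9) t319)))))))))))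
noncomputable def l36639 : Lb := (@Lb.d (nat_lit 584) (nat_lit 609) (nat_lit 74) (@Lb.r r68 (@Lb.r r154 (@Lb.r r660 (@Lb.r r2385 (@Lb.g g7 (@Lb.g g6 (@Lb.g g5 (@Lb.g g4 (@Lb.d (nat_lit 2) (nat_lit 5) (nat_lit 130) (@Lb.fm (nat_lit 9) t98)))))))))))
noncomputable def l36640 : Lb := (@Lb.d (nat_lit 2) (nat_lit 2) (nat_lit 128) (@Lb.g g8 (@Lb.g g9 (@Lb.g g10 (@Lb.g g11 (@Lb.r r1194 (@Lb.r r1177 (@Lb.r r408 (@Lb.r r1287 (@Lb.r r2564 (@Lb.d (nat_lit 6) (nat_lit 37) (nat_lit 602) (@Lb.fp (nat_lit 9) t479))))))))))))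
noncomputable def l36641 : Lb := (@Lb.d (nat_lit 0) (nat_lit 0) (nat_lit 128) (@Lb.g g8 (@Lb.g g10 (@Lb.g g11 (@Lb.r r337 (@Lb.r r679 (@Lb.r r340 (@Lb.r r170 (@Lb.r r153 (@Lb.d (nat_lit 6) (nat_lit 88) (nat_lit 290) (@Lb.t (@Lb.fm (nat_lit 9) t654))))))))))))
noncomputable def l36642 : Lb := (@Lb.d (nat_lit 2) (nat_lit 258) (nat_lit 162) (@Lb.g g8 (@Lb.g g9 (@Lb.g g6 (@Lb.g g11 (@Lb.r r529 (@Lb.r r275 (@Lb.r r1553 (@Lb.r r2120 (@Lb.d (nat_lit 530) (nat_lit 134) (nat_lit 544) (@Lb.fp (nat_lit 9) t2982)))))))))))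
noncomputable def l36643 : Lb := (@Lb.d (nat_lit 20) (nat_lit 601) (nat_lit 277) (@Lb.r r2651 (@Lb.r r2580 (@Lb.r r2405 (@Lb.r r1110 (@Lb.g g7 (@Lb.g g6 (@Lb.g g5 (@Lb.d (nat_lit 64) (nat_lit 25) (nat_lit 8) (@Lb.t (@Lb.fp (nat_lit 9) t334)))))))))))
noncomputable def l36644 : Lb := (@Lb.r r21 (@Lb.r r323 (@Lb.d (nat_lit 138) (nat_lit 256) (nat_lit 0) (@Lb.g g8 (@Lb.g g10 (@Lb.r r1178 (@Lb.r r2661 (@Lb.r r2727 (@Lb.r r1348 (@Lb.d (nat_lit 340) (nat_lit 24) (nat_lit 517) (@Lb.fp (nat_lit 3) t51)))))))))))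
noncomputable def l36645 : Lb := (@Lb.r r275 (@Lb.d (nat_lit 6) (nat_lit 518) (nat_lit 0) (@Lb.g g4 (@Lb.g g9 (@Lb.g g10 (@Lb.r r2662 (@Lb.r r1371 (@Lb.r r2321 (@Lb.d (nat_lit 390) (nat_lit 32) (nat_lit 512) (@Lb.t (@Lb.fp (nat_lit 9) t1440)))))))))))
noncomputable def l36646 : Lb := (@Lb.d (nat_lit 4) (nat_lit 545) (nat_lit 4) (@Lb.g g8 (@Lb.g g9 (@Lb.g g10 (@Lb.g g11 (@Lb.r r1430 (@Lb.r r596 (@Lb.r r279 (@Lb.r r1173 (@Lb.d (nat_lit 164) (nat_lit 69) (nat_lit 88) (@Lb.fm (nat_lit 9) t1244)))))))))))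
noncomputable def l36647 : Lb := (@Lb.r r323 (@Lb.d (nat_lit 0) (nat_lit 2) (nat_lit 2) (@Lb.g g9 (@Lb.g g10 (@Lb.r r2193 (@Lb.r r402 (@Lb.r r1611 (@Lb.r r2564 (@Lb.d (nat_lit 292) (nat_lit 70) (nat_lit 37) (@Lb.fm (nat_lit 3) t312))))))))))
noncomputable def l36648 : Lb := (@Lb.d (nat_lit 9) (nat_lit 37) (nat_lit 10) (@Lb.g g8 (@Lb.g g9 (@Lb.g g10 (@Lb.g g11 (@Lb.r r2729 (@Lb.r r1130 (@Lb.r r1380 (@Lb.r r395 (@Lb.d (nat_lit 80) (nat_lit 162) (nat_lit 389) (@Lb.fm (nat_lit 9) t3984)))))))))))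
noncomputable def l36649 : Lb := (@Lb.d (nat_lit 0) (nat_lit 550) (nat_lit 0) (@Lb.g g9 (@Lb.r r2651 (@Lb.r r1126 (@Lb.r r2564 (@Lb.d (nat_lit 353) (nat_lit 4) (nat_lit 0) (@Lb.t (@Lb.fm (nat_lit 3) t1087))))))))
noncomputable def l36650 : Lb := (@Lb.d (nat_lit 18) (nat_lit 290) (nat_lit 0) (@Lb.g g8 (@Lb.g g9 (@Lb.g g10 (@Lb.r r275 (@Lb.r r1194 (@Lb.r r2593 (@Lb.r r1428 (@Lb.d (nat_lit 358) (nat_lit 105) (nat_lit 618) (@Lb.t (@Lb.fm (nat_lit 9) t3200)))))))))))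
noncomputable def l36651 : Lb := (@Lb.r r82 (@Lb.d (nat_lit 1) (nat_lit 514) (nat_lit 128) (@Lb.g g8 (@Lb.g g9 (@Lb.g g11 (@Lb.r r657 (@Lb.r r1687 (@Lb.r r146 (@Lb.r r2436 (@Lb.d (nat_lit 154) (nat_lit 4) (nat_lit 394) (@Lb.t (@Lb.fm (nat_lit 9) t4168))))))))))))
noncomputable def l36652 : Lb := (@Lb.d (nat_lit 137) (nat_lit 256) (nat_lit 34) (@Lb.g g8 (@Lb.g g6 (@Lb.r r661 (@Lb.r r1431 (@Lb.r r2664 (@Lb.d (nat_lit 85) (nat_lit 85) (nat_lit 410) (@Lb.fm (nat_lit 3) t124))))))))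
noncomputable def l36653 : Lb := (@Lb.d (nat_lit 610) (nat_lit 132) (nat_lit 356) (@Lb.r r1608 (@Lb.r r146 (@Lb.r r2389 (@Lb.g g7 (@Lb.g g6 (@Lb.g g5 (@Lb.g g4 (@Lb.d (nat_lit 1) (nat_lit 1) (nat_lit 1) (@Lb.fp (nat_lit 9) t6474))))))))))
noncomputable def l36654 : Lb := (@Lb.d (nat_lit 1) (nat_lit 134) (nat_lit 0) (@Lb.g g8 (@Lb.g g9 (@Lb.g g10 (@Lb.r r2475 (@Lb.r r386 (@Lb.r r2120 (@Lb.d (nat_lit 546) (nat_lit 26) (nat_lit 648) (@Lb.t (@Lb.fm (nat_lit 9) t4739))))))))))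
noncomputable def l36655 : Lb := (@Lb.d (nat_lit 4) (nat_lit 137) (nat_lit 402) (@Lb.r r24 (@Lb.r r82 (@Lb.r r1441 (@Lb.g g11 (@Lb.g g5 (@Lb.d (nat_lit 0) (nat_lit 1) (nat_lit 392) (@Lb.r r98 (@Lb.fp (nat_lit 3) t2078)))))))))
noncomputable def l36656 : Lb := (@Lb.d (nat_lit 134) (nat_lit 169) (nat_lit 100) (@Lb.r r1368 (@Lb.r r277 (@Lb.r r2370 (@Lb.g g7 (@Lb.g g5 (@Lb.g g4 (@Lb.d (nat_lit 68) (nat_lit 2) (nat_lit 576) (@Lb.r r74 (@Lb.t (@Lb.fm (nat_lit 9) t5938)))))))))))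
noncomputable def l36657 : Lb := (@Lb.d (nat_lit 2) (nat_lit 292) (nat_lit 534) (@Lb.r r85 (@Lb.r r2600 (@Lb.r r1414 (@Lb.r r2347 (@Lb.r r401 (@Lb.g g11 (@Lb.g g4 (@Lb.fp (nat_lit 3) t127)))))))))
noncomputable def l36658 : Lb := (@Lb.d (nat_lit 1) (nat_lit 521) (nat_lit 73) (@Lb.g g8 (@Lb.g g9 (@Lb.g g10 (@Lb.g g11 (@Lb.r r1194 (@Lb.r r680 (@Lb.r r555 (@Lb.r r1573 (@Lb.r r1044 (@Lb.d (nat_lit 394) (nat_lit 128) (nat_lit 261) (@Lb.fp (nat_lit 9) t125))))))))))))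
noncomputable def l36659 : Lb := (@Lb.r r338 (@Lb.d (nat_lit 128) (nat_lit 617) (nat_lit 128) (@Lb.g g5 (@Lb.g g11 (@Lb.r r324 (@Lb.r r1387 (@Lb.r r1122 (@Lb.d (nat_lit 146) (nat_lit 146) (nat_lit 645) (@Lb.fp (nat_lit 3) t6475)))))))))
noncomputable def l36660 : Lb := (@Lb.r r355 (@Lb.d (nat_lit 1) (nat_lit 520) (nat_lit 2) (@Lb.g g8 (@Lb.g g9 (@Lb.g g10 (@Lb.r r683 (@Lb.r r616 (@Lb.r r86 (@Lb.r r2133 (@Lb.d (nat_lit 33) (nat_lit 129) (nat_lit 136) (@Lb.t (@Lb.fm (nat_lit 9) t6475))))))))))))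
noncomputable def l36661 : Lb := (@Lb.d (nat_lit 96) (nat_lit 545) (nat_lit 6) (@Lb.g g8 (@Lb.g g9 (@Lb.g g10 (@Lb.g g11 (@Lb.r r2450 (@Lb.r r2407 (@Lb.r r617 (@Lb.r r2632 (@Lb.d (nat_lit 602) (nat_lit 72) (nat_lit 392) (@Lb.fm (nat_lit 9) t5693)))))))))))
noncomputable def l36662 : Lb := (@Lb.d (nat_lit 8) (nat_lit 258) (nat_lit 130) (@Lb.g g9 (@Lb.g g10 (@Lb.g g11 (@Lb.r r2726 (@Lb.r r2471 (@Lb.r r1624 (@Lb.r r405 (@Lb.d (nat_lit 357) (nat_lit 16) (nat_lit 154) (@Lb.t (@Lb.fm (nat_lit 9) t6476)))))))))))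
noncomputable def l36663 : Lb := (@Lb.d (nat_lit 98) (nat_lit 33) (nat_lit 6) (@Lb.g g8 (@Lb.g g9 (@Lb.g g10 (@Lb.g g11 (@Lb.r r2450 (@Lb.r r2407 (@Lb.r r617 (@Lb.r r2632 (@Lb.d (nat_lit 602) (nat_lit 72) (nat_lit 392) (@Lb.fm (nat_lit 9) t5693)))))))))))
noncomputable def l36664 : Lb := (@Lb.d (nat_lit 96) (nat_lit 289) (nat_lit 6) (@Lb.g g8 (@Lb.g g9 (@Lb.g g10 (@Lb.g g11 (@Lb.r r2450 (@Lb.r r2407 (@Lb.r r617 (@Lb.r r2632 (@Lb.d (nat_lit 602) (nat_lit 72) (nat_lit 257) (@Lb.fm (nat_lit 9) t4960)))))))))))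
noncomputable def l36665 : Lb := (@Lb.d (nat_lit 2) (nat_lit 9) (nat_lit 1) (@Lb.g g8 (@Lb.g g9 (@Lb.g g10 (@Lb.g g11 (@Lb.r r2595 (@Lb.r r386 (@Lb.r r612 (@Lb.r r533 (@Lb.r r2084 (@Lb.d (nat_lit 129) (nat_lit 10) (nat_lit 266) (@Lb.fp (nat_lit 9) t6477))))))))))))
noncomputable def l36666 : Lb := (@Lb.r r21 (@Lb.r r263 (@Lb.d (nat_lit 34) (nat_lit 520) (nat_lit 36) (@Lb.g g8 (@Lb.g g6 (@Lb.r r2727 (@Lb.r r2473 (@Lb.r r2452 (@Lb.d (nat_lit 320) (nat_lit 24) (nat_lit 529) (@Lb.fp (nat_lit 3) t6478))))))))))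
noncomputable def l36667 : Lb := (@Lb.r r82 (@Lb.r r275 (@Lb.d (nat_lit 0) (nat_lit 257) (nat_lit 0) (@Lb.g g5 (@Lb.r r354 (@Lb.r r1411 (@Lb.d (nat_lit 5) (nat_lit 96) (nat_lit 18) (@Lb.t (@Lb.fm (nat_lit 3) t6479)))))))))
noncomputable def l36668 : Lb := (@Lb.d (nat_lit 37) (nat_lit 613) (nat_lit 581) (@Lb.r r615 (@Lb.r r593 (@Lb.r r342 (@Lb.g g7 (@Lb.g g6 (@Lb.g g4 (@Lb.d (nat_lit 1) (nat_lit 16) (nat_lit 128) (@Lb.t (@Lb.fm (nat_lit 9) t6480))))))))))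
noncomputable def l36669 : Lb := (@Lb.d (nat_lit 513) (nat_lit 610) (nat_lit 320) (@Lb.r r24 (@Lb.r r101 (@Lb.r r2706 (@Lb.r r2435 (@Lb.g g7 (@Lb.g g6 (@Lb.g g5 (@Lb.d (nat_lit 0) (nat_lit 0) (nat_lit 68) (@Lb.t (@Lb.fm (nat_lit 9) t6481)))))))))))
noncomputable def l36670 : Lb := (@Lb.d (nat_lit 1) (nat_lit 65) (nat_lit 581) (@Lb.r r386 (@Lb.r r339 (@Lb.g g7 (@Lb.g g6 (@Lb.g g5 (@Lb.d (nat_lit 4) (nat_lit 1) (nat_lit 8) (@Lb.t (@Lb.fm (nat_lit 9) t2197)))))))))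
noncomputable def l36671 : Lb := (@Lb.d (nat_lit 0) (nat_lit 8) (nat_lit 73) (@Lb.g g9 (@Lb.g g10 (@Lb.g g11 (@Lb.r r643 (@Lb.r r644 (@Lb.r r342 (@Lb.r r421 (@Lb.r r20 (@Lb.d (nat_lit 274) (nat_lit 32) (nat_lit 586) (@Lb.t (@Lb.fm (nat_lit 9) t283))))))))))))
noncomputable def l36672 : Lb := (@Lb.r r82 (@Lb.d (nat_lit 273) (nat_lit 289) (nat_lit 64) (@Lb.g g4 (@Lb.g g9 (@Lb.g g11 (@Lb.r r1571 (@Lb.r r2438 (@Lb.r r145 (@Lb.d (nat_lit 609) (nat_lit 96) (nat_lit 321) (@Lb.t (@Lb.fp (nat_lit 9) t3053)))))))))))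
noncomputable def l36673 : Lb := (@Lb.r r21 (@Lb.d (nat_lit 161) (nat_lit 0) (nat_lit 1) (@Lb.g g8 (@Lb.g g10 (@Lb.r r1383 (@Lb.r r357 (@Lb.r r154 (@Lb.r r340 (@Lb.d (nat_lit 37) (nat_lit 22) (nat_lit 538) (@Lb.fm (nat_lit 3) t3878))))))))))
noncomputable def l36674 : Lb := (@Lb.r r82 (@Lb.d (nat_lit 34) (nat_lit 258) (nat_lit 128) (@Lb.g g8 (@Lb.g g9 (@Lb.g g11 (@Lb.r r1430 (@Lb.r r359 (@Lb.r r660 (@Lb.r r2073 (@Lb.d (nat_lit 610) (nat_lit 5) (nat_lit 400) (@Lb.t (@Lb.fp (nat_lit 9) t4147))))))))))))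
noncomputable def l36675 : Lb := (@Lb.d (nat_lit 2) (nat_lit 514) (nat_lit 73) (@Lb.g g8 (@Lb.g g9 (@Lb.g g10 (@Lb.g g11 (@Lb.r r619 (@Lb.r r1610 (@Lb.r r660 (@Lb.r r425 (@Lb.r r2084 (@Lb.d (nat_lit 165) (nat_lit 170) (nat_lit 89) (@Lb.fp (nat_lit 9) t5230))))))))))))
noncomputable def l36676 : Lb := (@Lb.r r68 (@Lb.r r81 (@Lb.d (nat_lit 16) (nat_lit 552) (nat_lit 168) (@Lb.g g6 (@Lb.g g11 (@Lb.r r2453 (@Lb.r r1315 (@Lb.r r584 (@Lb.d (nat_lit 517) (nat_lit 0) (nat_lit 385) (@Lb.fm (nat_lit 3) t2174))))))))))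
noncomputable def l36677 : Lb := (@Lb.d (nat_lit 149) (nat_lit 420) (nat_lit 650) (@Lb.r r2085 (@Lb.r r1112 (@Lb.r r2627 (@Lb.r r326 (@Lb.g g7 (@Lb.g g6 (@Lb.g g5 (@Lb.d (nat_lit 0) (nat_lit 24) (nat_lit 65) (@Lb.t (@Lb.fm (nat_lit 9) t2407)))))))))))
noncomputable def l36678 : Lb := (@Lb.r r20 (@Lb.r r82 (@Lb.d (nat_lit 0) (nat_lit 678) (nat_lit 128) (@Lb.g g9 (@Lb.g g11 (@Lb.r r1560 (@Lb.r r1419 (@Lb.r r386 (@Lb.d (nat_lit 98) (nat_lit 138) (nat_lit 264) (@Lb.fm (nat_lit 3) t6482))))))))))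
noncomputable def l36679 : Lb := (@Lb.d (nat_lit 129) (nat_lit 2) (nat_lit 4) (@Lb.g g8 (@Lb.g g9 (@Lb.g g10 (@Lb.g g11 (@Lb.r r1675 (@Lb.r r164 (@Lb.r r2197 (@Lb.r r2646 (@Lb.r r36 (@Lb.d (nat_lit 426) (nat_lit 136) (nat_lit 325) (@Lb.fm (nat_lit 9) t6185))))))))))))
noncomputable def l36680 : Lb := (@Lb.r r359 (@Lb.d (nat_lit 4) (nat_lit 9) (nat_lit 2) (@Lb.g g8 (@Lb.g g9 (@Lb.g g10 (@Lb.r r683 (@Lb.r r610 (@Lb.r r1429 (@Lb.r r2440 (@Lb.d (nat_lit 356) (nat_lit 37) (nat_lit 137) (@Lb.t (@Lb.fm (nat_lit 9) t6483))))))))))))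
noncomputable def l36681 : Lb := (@Lb.r r273 (@Lb.r r322 (@Lb.d (nat_lit 129) (nat_lit 528) (nat_lit 520) (@Lb.g g8 (@Lb.g g7 (@Lb.r r361 (@Lb.r r146 (@Lb.r r264 (@Lb.d (nat_lit 161) (nat_lit 132) (nat_lit 517) (@Lb.fm (nat_lit 3) t4334))))))))))
noncomputable def l36682 : Lb := (@Lb.d (nat_lit 129) (nat_lit 258) (nat_lit 4) (@Lb.g g8 (@Lb.g g9 (@Lb.g g10 (@Lb.g g11 (@Lb.r r1675 (@Lb.r r164 (@Lb.r r2197 (@Lb.r r2646 (@Lb.r r36 (@Lb.d (nat_lit 425) (nat_lit 136) (nat_lit 325) (@Lb.fm (nat_lit 9) t6484))))))))))))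
noncomputable def l36683 : Lb := (@Lb.d (nat_lit 293) (nat_lit 261) (nat_lit 102) (@Lb.r r1172 (@Lb.r r89 (@Lb.r r1126 (@Lb.r r1319 (@Lb.g g4 (@Lb.d (nat_lit 5) (nat_lit 0) (nat_lit 0) (@Lb.t (@Lb.fm (nat_lit 3) t64)))))))))
noncomputable def l36684 : Lb := (@Lb.d (nat_lit 16) (nat_lit 514) (nat_lit 0) (@Lb.g g8 (@Lb.g g9 (@Lb.g g10 (@Lb.r r2729 (@Lb.r r1642 (@Lb.r r1611 (@Lb.r r1604 (@Lb.d (nat_lit 281) (nat_lit 128) (nat_lit 393) (@Lb.t (@Lb.fm (nat_lit 9) t1399)))))))))))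
noncomputable def l36685 : Lb := (@Lb.r r21 (@Lb.d (nat_lit 17) (nat_lit 512) (nat_lit 74) (@Lb.g g8 (@Lb.g g10 (@Lb.g g11 (@Lb.r r2707 (@Lb.r r2442 (@Lb.r r97 (@Lb.r r1432 (@Lb.d (nat_lit 617) (nat_lit 130) (nat_lit 394) (@Lb.t (@Lb.fm (nat_lit 9) t981))))))))))))
noncomputable def l36686 : Lb := (@Lb.r r20 (@Lb.d (nat_lit 8) (nat_lit 165) (nat_lit 10) (@Lb.g g5 (@Lb.g g10 (@Lb.g g11 (@Lb.r r1623 (@Lb.r r1606 (@Lb.r r8 (@Lb.d (nat_lit 136) (nat_lit 96) (nat_lit 618) (@Lb.t (@Lb.fp (nat_lit 9) t355)))))))))))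
noncomputable def l36687 : Lb := (@Lb.d (nat_lit 2) (nat_lit 256) (nat_lit 74) (@Lb.g g8 (@Lb.g g10 (@Lb.g g11 (@Lb.r r387 (@Lb.d (nat_lit 2) (nat_lit 72) (nat_lit 8) (@Lb.t (@Lb.fm (nat_lit 9) t21))))))))
noncomputable def l36688 : Lb := (@Lb.d (nat_lit 2) (nat_lit 357) (nat_lit 129) (@Lb.r r402 (@Lb.g g11 (@Lb.g g6 (@Lb.g g8 (@Lb.t (@Lb.fm (nat_lit 9) t21)))))))
noncomputable def l36689 : Lb := (@Lb.d (nat_lit 658) (nat_lit 298) (nat_lit 648) (@Lb.r r355 (@Lb.r r1301 (@Lb.r r86 (@Lb.g g7 (@Lb.g g5 (@Lb.g g4 (@Lb.d (nat_lit 1) (nat_lit 18) (nat_lit 64) (@Lb.t (@Lb.fp (nat_lit 9) t4150))))))))))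
noncomputable def l36690 : Lb := (@Lb.d (nat_lit 2) (nat_lit 512) (nat_lit 0) (@Lb.g g8 (@Lb.r r1351 (@Lb.r r1381 (@Lb.r r2714 (@Lb.r r2564 (@Lb.d (nat_lit 388) (nat_lit 0) (nat_lit 385) (@Lb.t (@Lb.fp (nat_lit 3) t1069)))))))))
noncomputable def l36691 : Lb := (@Lb.r r322 (@Lb.d (nat_lit 2) (nat_lit 512) (nat_lit 136) (@Lb.g g8 (@Lb.g g11 (@Lb.r r2454 (@Lb.r r2152 (@Lb.r r2073 (@Lb.d (nat_lit 345) (nat_lit 132) (nat_lit 658) (@Lb.fm (nat_lit 3) t145)))))))))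
noncomputable def l36692 : Lb := (@Lb.r r21 (@Lb.d (nat_lit 0) (nat_lit 264) (nat_lit 130) (@Lb.g g8 (@Lb.g g10 (@Lb.g g11 (@Lb.r r2443 (@Lb.r r2345 (@Lb.r r2440 (@Lb.r r410 (@Lb.d (nat_lit 280) (nat_lit 26) (nat_lit 650) (@Lb.t (@Lb.fp (nat_lit 9) t1449))))))))))))
noncomputable def l36693 : Lb := (@Lb.d (nat_lit 2) (nat_lit 258) (nat_lit 130) (@Lb.g g8 (@Lb.g g9 (@Lb.g g10 (@Lb.g g11 (@Lb.r r586 (@Lb.r r1619 (@Lb.r r292 (@Lb.r r405 (@Lb.r r2084 (@Lb.d (nat_lit 169) (nat_lit 137) (nat_lit 665) (@Lb.fm (nat_lit 9) t1954))))))))))))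
noncomputable def l36694 : Lb := (@Lb.d (nat_lit 2) (nat_lit 266) (nat_lit 72) (@Lb.g g8 (@Lb.g g9 (@Lb.g g11 (@Lb.r r1174 (@Lb.r r1385 (@Lb.r r2579 (@Lb.d (nat_lit 102) (nat_lit 34) (nat_lit 418) (@Lb.t (@Lb.fp (nat_lit 9) t6485))))))))))
noncomputable def l36695 : Lb := (@Lb.r r322 (@Lb.d (nat_lit 10) (nat_lit 257) (nat_lit 136) (@Lb.g g8 (@Lb.g g9 (@Lb.g g11 (@Lb.r r2438 (@Lb.r r145 (@Lb.r r2120 (@Lb.d (nat_lit 357) (nat_lit 70) (nat_lit 672) (@Lb.t (@Lb.fm (nat_lit 9) t145)))))))))))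
noncomputable def l36696 : Lb := (@Lb.d (nat_lit 10) (nat_lit 513) (nat_lit 130) (@Lb.g g8 (@Lb.g g9 (@Lb.g g10 (@Lb.g g11 (@Lb.r r2443 (@Lb.r r168 (@Lb.r r1689 (@Lb.r r1178 (@Lb.r r1156 (@Lb.d (nat_lit 328) (nat_lit 38) (nat_lit 278) (@Lb.fp (nat_lit 9) t1449))))))))))))
noncomputable def l36697 : Lb := (@Lb.d (nat_lit 641) (nat_lit 256) (nat_lit 1) (@Lb.g g4 (@Lb.g g9 (@Lb.g g10 (@Lb.r r358 (@Lb.r r1427 (@Lb.r r1633 (@Lb.d (nat_lit 66) (nat_lit 90) (nat_lit 130) (@Lb.t (@Lb.fm (nat_lit 9) t6486))))))))))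
noncomputable def l36698 : Lb := (@Lb.d (nat_lit 130) (nat_lit 34) (nat_lit 2) (@Lb.g g8 (@Lb.g g9 (@Lb.g g10 (@Lb.r r2475 (@Lb.r r2714 (@Lb.r r341 (@Lb.r r2084 (@Lb.d (nat_lit 340) (nat_lit 128) (nat_lit 86) (@Lb.t (@Lb.fp (nat_lit 9) t6487)))))))))))
noncomputable def l36699 : Lb := (@Lb.d (nat_lit 2) (nat_lit 0) (nat_lit 66) (@Lb.g g8 (@Lb.g g9 (@Lb.g g10 (@Lb.g g11 (@Lb.r r292 (@Lb.r r539 (@Lb.r r1445 (@Lb.r r98 (@Lb.d (nat_lit 610) (nat_lit 74) (nat_lit 416) (@Lb.fp (nat_lit 9) t1561)))))))))))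
noncomputable def l36700 : Lb := (@Lb.r r21 (@Lb.r r70 (@Lb.g g4 (@Lb.g g7 (@Lb.r r402 (@Lb.r r97 (@Lb.r r1048 (@Lb.d (nat_lit 256) (nat_lit 0) (nat_lit 512) (@Lb.fp (nat_lit 3) t765)))))))))
noncomputable def l36701 : Lb := (@Lb.d (nat_lit 514) (nat_lit 0) (nat_lit 128) (@Lb.r r1291 (@Lb.g g6 (@Lb.g g8 (@Lb.fp (nat_lit 3) t997)))))
noncomputable def l36702 : Lb := (@Lb.r r21 (@Lb.r r70 (@Lb.d (nat_lit 656) (nat_lit 256) (nat_lit 128) (@Lb.g g4 (@Lb.g g11 (@Lb.r r1419 (@Lb.r r402 (@Lb.r r97 (@Lb.d (nat_lit 329) (nat_lit 160) (nat_lit 256) (@Lb.fp (nat_lit 3) t512))))))))))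
noncomputable def l36703 : Lb := (@Lb.r r21 (@Lb.r r70 (@Lb.g g4 (@Lb.r r1412 (@Lb.r r1291 (@Lb.r r402 (@Lb.r r97 (@Lb.d (nat_lit 10) (nat_lit 258) (nat_lit 512) (@Lb.t (@Lb.fm (nat_lit 3) t512))))))))))
noncomputable def l36704 : Lb := (@Lb.d (nat_lit 1) (nat_lit 514) (nat_lit 2) (@Lb.g g8 (@Lb.g g9 (@Lb.g g10 (@Lb.r r2705 (@Lb.r r535 (@Lb.r r2440 (@Lb.r r2122 (@Lb.d (nat_lit 294) (nat_lit 8) (nat_lit 136) (@Lb.t (@Lb.fm (nat_lit 9) t221)))))))))))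
noncomputable def l36705 : Lb := (@Lb.d (nat_lit 2) (nat_lit 646) (nat_lit 160) (@Lb.g g8 (@Lb.g g5 (@Lb.g g10 (@Lb.g g11 (@Lb.r r2459 (@Lb.r r24 (@Lb.d (nat_lit 105) (nat_lit 0) (nat_lit 665) (@Lb.fp (nat_lit 9) t2500)))))))))
noncomputable def l36706 : Lb := (@Lb.d (nat_lit 22) (nat_lit 262) (nat_lit 130) (@Lb.r r24 (@Lb.r r1109 (@Lb.r r418 (@Lb.g g11 (@Lb.g g5 (@Lb.g g4 (@Lb.d (nat_lit 1) (nat_lit 18) (nat_lit 264) (@Lb.r r578 (@Lb.t (@Lb.fm (nat_lit 9) t3032)))))))))))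
noncomputable def l36707 : Lb := (@Lb.d (nat_lit 1) (nat_lit 516) (nat_lit 128) (@Lb.g g8 (@Lb.g g9 (@Lb.g g10 (@Lb.g g11 (@Lb.r r427 (@Lb.r r324 (@Lb.r r2218 (@Lb.r r1193 (@Lb.r r1188 (@Lb.d (nat_lit 609) (nat_lit 73) (nat_lit 681) (@Lb.fp (nat_lit 9) t803))))))))))))
noncomputable def l36708 : Lb := (@Lb.d (nat_lit 37) (nat_lit 362) (nat_lit 582) (@Lb.r r615 (@Lb.r r593 (@Lb.r r342 (@Lb.g g7 (@Lb.g g4 (@Lb.d (nat_lit 1) (nat_lit 16) (nat_lit 128) (@Lb.fp (nat_lit 3) t390))))))))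
noncomputable def l36709 : Lb := (@Lb.d (nat_lit 2) (nat_lit 646) (nat_lit 160) (@Lb.g g8 (@Lb.g g5 (@Lb.g g10 (@Lb.g g11 (@Lb.r r2459 (@Lb.r r24 (@Lb.d (nat_lit 105) (nat_lit 129) (nat_lit 665) (@Lb.fp (nat_lit 9) t5669)))))))))
noncomputable def l36710 : Lb := (@Lb.r r338 (@Lb.d (nat_lit 0) (nat_lit 576) (nat_lit 640) (@Lb.g g5 (@Lb.g g7 (@Lb.r r1410 (@Lb.d (nat_lit 0) (nat_lit 0) (nat_lit 532) (@Lb.fp (nat_lit 3) t69)))))))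
noncomputable def l36711 : Lb := (@Lb.d (nat_lit 32) (nat_lit 512) (nat_lit 10) (@Lb.g g10 (@Lb.r r1387 (@Lb.r r1384 (@Lb.r r361 (@Lb.r r1622 (@Lb.d (nat_lit 6) (nat_lit 102) (nat_lit 544) (@Lb.t (@Lb.fp (nat_lit 3) t386)))))))))
noncomputable def l36712 : Lb := (@Lb.d (nat_lit 1) (nat_lit 404) (nat_lit 390) (@Lb.r r579 (@Lb.r r1362 (@Lb.g g7 (@Lb.g g6 (@Lb.g g5 (@Lb.d (nat_lit 4) (nat_lit 1) (nat_lit 65) (@Lb.t (@Lb.fm (nat_lit 9) t901)))))))))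
noncomputable def l36713 : Lb := (@Lb.r r82 (@Lb.d (nat_lit 4) (nat_lit 520) (nat_lit 0) (@Lb.g g8 (@Lb.g g9 (@Lb.r r1707 (@Lb.r r1430 (@Lb.r r601 (@Lb.d (nat_lit 105) (nat_lit 166) (nat_lit 537) (@Lb.fm (nat_lit 3) t98)))))))))
noncomputable def l36714 : Lb := (@Lb.d (nat_lit 16) (nat_lit 522) (nat_lit 73) (@Lb.g g8 (@Lb.g g9 (@Lb.g g10 (@Lb.g g11 (@Lb.r r1675 (@Lb.r r2201 (@Lb.r r1170 (@Lb.r r584 (@Lb.d (nat_lit 74) (nat_lit 73) (nat_lit 674) (@Lb.fm (nat_lit 9) t976)))))))))))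
noncomputable def l36715 : Lb := (@Lb.d (nat_lit 0) (nat_lit 256) (nat_lit 73) (@Lb.g g10 (@Lb.g g11 (@Lb.r r2341 (@Lb.r r539 (@Lb.r r1624 (@Lb.r r2438 (@Lb.d (nat_lit 162) (nat_lit 0) (nat_lit 69) (@Lb.fm (nat_lit 3) t6348)))))))))
noncomputable def l36716 : Lb := (@Lb.d (nat_lit 4) (nat_lit 1) (nat_lit 170) (@Lb.r r2193 (@Lb.r r674 (@Lb.r r659 (@Lb.r r273 (@Lb.g g8 (@Lb.d (nat_lit 322) (nat_lit 0) (nat_lit 0) (@Lb.t (@Lb.fp (nat_lit 3) t242)))))))))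
noncomputable def l36717 : Lb := (@Lb.d (nat_lit 617) (nat_lit 518) (nat_lit 592) (@Lb.r r2661 (@Lb.r r1304 (@Lb.r r2403 (@Lb.r r2694 (@Lb.g g7 (@Lb.g g6 (@Lb.g g5 (@Lb.d (nat_lit 4) (nat_lit 1) (nat_lit 133) (@Lb.t (@Lb.fm (nat_lit 9) t1256)))))))))))
noncomputable def l36718 : Lb := (@Lb.r r21 (@Lb.d (nat_lit 0) (nat_lit 512) (nat_lit 73) (@Lb.g g8 (@Lb.g g10 (@Lb.g g11 (@Lb.r r2634 (@Lb.r r2389 (@Lb.r r1387 (@Lb.r r100 (@Lb.d (nat_lit 265) (nat_lit 81) (nat_lit 512) (@Lb.t (@Lb.fm (nat_lit 9) t4690))))))))))))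
noncomputable def l36719 : Lb := (@Lb.r r323 (@Lb.g g10 (@Lb.r r2435 (@Lb.r r2114 (@Lb.d (nat_lit 1) (nat_lit 512) (nat_lit 0) (@Lb.t (@Lb.fp (nat_lit 3) t2)))))))
noncomputable def l36720 : Lb := (@Lb.r r21 (@Lb.d (nat_lit 2) (nat_lit 512) (nat_lit 73) (@Lb.g g8 (@Lb.g g10 (@Lb.g g11 (@Lb.r r1691 (@Lb.r r1381 (@Lb.r r2202 (@Lb.r r2180 (@Lb.d (nat_lit 600) (nat_lit 72) (nat_lit 608) (@Lb.t (@Lb.fp (nat_lit 9) t1406))))))))))))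
noncomputable def l36721 : Lb := (@Lb.d (nat_lit 2) (nat_lit 260) (nat_lit 74) (@Lb.g g8 (@Lb.g g9 (@Lb.g g10 (@Lb.g g11 (@Lb.r r2666 (@Lb.r r579 (@Lb.r r104 (@Lb.r r25 (@Lb.d (nat_lit 618) (nat_lit 84) (nat_lit 70) (@Lb.fp (nat_lit 9) t1313)))))))))))
noncomputable def l36722 : Lb := (@Lb.d (nat_lit 2) (nat_lit 512) (nat_lit 74) (@Lb.g g8 (@Lb.g g10 (@Lb.g g11 (@Lb.r r2345 (@Lb.r r535 (@Lb.r r1188 (@Lb.r r1158 (@Lb.d (nat_lit 610) (nat_lit 5) (nat_lit 26) (@Lb.t (@Lb.fp (nat_lit 9) t2284)))))))))))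
noncomputable def l36723 : Lb := (@Lb.d (nat_lit 144) (nat_lit 26) (nat_lit 73) (@Lb.g g8 (@Lb.g g9 (@Lb.g g10 (@Lb.g g11 (@Lb.r r1443 (@Lb.r r1188 (@Lb.r r422 (@Lb.r r2341 (@Lb.d (nat_lit 105) (nat_lit 169) (nat_lit 385) (@Lb.fp (nat_lit 9) t5152)))))))))))
noncomputable def l36724 : Lb := (@Lb.r r323 (@Lb.g g8 (@Lb.g g10 (@Lb.r r2435 (@Lb.r r2114 (@Lb.fm (nat_lit 3) t2))))))
noncomputable def l36725 : Lb := (@Lb.d (nat_lit 8) (nat_lit 2) (nat_lit 0) (@Lb.g g9 (@Lb.r r2343 (@Lb.r r1096 (@Lb.r r2646 (@Lb.r r409 (@Lb.d (nat_lit 154) (nat_lit 154) (nat_lit 682) (@Lb.t (@Lb.fm (nat_lit 3) t2503)))))))))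
noncomputable def l36726 : Lb := (@Lb.d (nat_lit 38) (nat_lit 10) (nat_lit 0) (@Lb.g g8 (@Lb.g g9 (@Lb.r r2439 (@Lb.r r390 (@Lb.r r2644 (@Lb.r r25 (@Lb.d (nat_lit 106) (nat_lit 165) (nat_lit 154) (@Lb.fp (nat_lit 3) t386)))))))))
noncomputable def l36727 : Lb := (@Lb.d (nat_lit 2) (nat_lit 514) (nat_lit 130) (@Lb.g g8 (@Lb.g g9 (@Lb.g g10 (@Lb.g g11 (@Lb.r r1419 (@Lb.r r106 (@Lb.r r25 (@Lb.d (nat_lit 593) (nat_lit 36) (nat_lit 681) (@Lb.fp (nat_lit 9) t4420))))))))))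
noncomputable def l36728 : Lb := (@Lb.g g9 (@Lb.r r2577 (@Lb.d (nat_lit 0) (nat_lit 512) (nat_lit 256) (@Lb.t (@Lb.fp (nat_lit 3) t121)))))
noncomputable def l36729 : Lb := (@Lb.d (nat_lit 0) (nat_lit 522) (nat_lit 136) (@Lb.g g9 (@Lb.g g10 (@Lb.g g11 (@Lb.r r1681 (@Lb.r r2706 (@Lb.d (nat_lit 0) (nat_lit 38) (nat_lit 408) (@Lb.t (@Lb.fp (nat_lit 9) t225)))))))))
noncomputable def l36730 : Lb := (@Lb.d (nat_lit 273) (nat_lit 266) (nat_lit 0) (@Lb.g g4 (@Lb.g g9 (@Lb.r r2403 (@Lb.r r594 (@Lb.r r2449 (@Lb.d (nat_lit 6) (nat_lit 88) (nat_lit 394) (@Lb.fp (nat_lit 3) t2503))))))))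
noncomputable def l36731 : Lb := (@Lb.d (nat_lit 128) (nat_lit 272) (nat_lit 384) (@Lb.g g11 (@Lb.r r2145 (@Lb.r r1170 (@Lb.r r1416 (@Lb.d (nat_lit 272) (nat_lit 0) (nat_lit 128) (@Lb.t (@Lb.fm (nat_lit 3) t1069))))))))
noncomputable def l36732 : Lb := (@Lb.d (nat_lit 2) (nat_lit 256) (nat_lit 130) (@Lb.g g8 (@Lb.g g10 (@Lb.g g11 (@Lb.r r586 (@Lb.r r2659 (@Lb.r r1304 (@Lb.r r2661 (@Lb.d (nat_lit 553) (nat_lit 1) (nat_lit 37) (@Lb.t (@Lb.fp (nat_lit 9) t4335)))))))))))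
noncomputable def l36733 : Lb := (@Lb.d (nat_lit 662) (nat_lit 282) (nat_lit 537) (@Lb.r r1685 (@Lb.r r662 (@Lb.r r600 (@Lb.r r347 (@Lb.g g7 (@Lb.g g6 (@Lb.g g5 (@Lb.d (nat_lit 4) (nat_lit 0) (nat_lit 65) (@Lb.t (@Lb.fp (nat_lit 9) t68)))))))))))
noncomputable def l36734 : Lb := (@Lb.g g5 (@Lb.g g10 (@Lb.r r579 (@Lb.r r402 (@Lb.r r101 (@Lb.r r24 (@Lb.fp (nat_lit 3) t145)))))))
noncomputable def l36735 : Lb := (@Lb.d (nat_lit 98) (nat_lit 33) (nat_lit 6) (@Lb.g g8 (@Lb.g g9 (@Lb.g g10 (@Lb.g g11 (@Lb.r r2723 (@Lb.r r2658 (@Lb.r r36 (@Lb.r r533 (@Lb.r r1060 (@Lb.d (nat_lit 160) (nat_lit 34) (nat_lit 536) (@Lb.fm (nat_lit 9) t6308))))))))))))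
noncomputable def l36736 : Lb := (@Lb.d (nat_lit 0) (nat_lit 602) (nat_lit 26) (@Lb.r r346 (@Lb.r r328 (@Lb.r r535 (@Lb.r r289 (@Lb.g g7 (@Lb.t (@Lb.fp (nat_lit 3) t261))))))))
noncomputable def l36737 : Lb := (@Lb.r r338 (@Lb.d (nat_lit 8) (nat_lit 130) (nat_lit 128) (@Lb.g g9 (@Lb.g g11 (@Lb.r r347 (@Lb.r r130 (@Lb.r r24 (@Lb.d (nat_lit 594) (nat_lit 2) (nat_lit 25) (@Lb.fm (nat_lit 3) t3202)))))))))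
noncomputable def l36738 : Lb := (@Lb.d (nat_lit 136) (nat_lit 2) (nat_lit 130) (@Lb.g g9 (@Lb.g g10 (@Lb.g g11 (@Lb.r r618 (@Lb.r r24 (@Lb.r r405 (@Lb.r r611 (@Lb.d (nat_lit 138) (nat_lit 25) (nat_lit 146) (@Lb.t (@Lb.fm (nat_lit 9) t564)))))))))))
noncomputable def l36739 : Lb := (@Lb.r r323 (@Lb.d (nat_lit 130) (nat_lit 258) (nat_lit 2) (@Lb.g g8 (@Lb.g g9 (@Lb.g g10 (@Lb.r r599 (@Lb.r r98 (@Lb.r r2725 (@Lb.r r408 (@Lb.d (nat_lit 392) (nat_lit 26) (nat_lit 1) (@Lb.t (@Lb.fp (nat_lit 9) t2517))))))))))))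
noncomputable def l36740 : Lb := (@Lb.d (nat_lit 2) (nat_lit 258) (nat_lit 73) (@Lb.g g8 (@Lb.g g9 (@Lb.g g10 (@Lb.g g11 (@Lb.r r427 (@Lb.r r424 (@Lb.r r106 (@Lb.r r2153 (@Lb.r r36 (@Lb.d (nat_lit 41) (nat_lit 65) (nat_lit 1) (@Lb.fp (nat_lit 9) t2517))))))))))))
noncomputable def l36741 : Lb := (@Lb.r r263 (@Lb.d (nat_lit 2) (nat_lit 321) (nat_lit 2) (@Lb.g g8 (@Lb.g g5 (@Lb.g g10 (@Lb.r r603 (@Lb.r r578 (@Lb.r r2456 (@Lb.d (nat_lit 0) (nat_lit 153) (nat_lit 132) (@Lb.t (@Lb.fp (nat_lit 9) t2403)))))))))))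
noncomputable def l36742 : Lb := (@Lb.d (nat_lit 2) (nat_lit 514) (nat_lit 73) (@Lb.g g8 (@Lb.g g9 (@Lb.g g10 (@Lb.g g11 (@Lb.r r427 (@Lb.r r424 (@Lb.r r106 (@Lb.r r2153 (@Lb.r r36 (@Lb.d (nat_lit 36) (nat_lit 64) (nat_lit 1) (@Lb.fp (nat_lit 9) t2517))))))))))))
noncomputable def l36743 : Lb := (@Lb.r r1106 (@Lb.d (nat_lit 8) (nat_lit 2) (nat_lit 64) (@Lb.g g8 (@Lb.g g9 (@Lb.g g7 (@Lb.r r297 (@Lb.r r36 (@Lb.d (nat_lit 132) (nat_lit 1) (nat_lit 340) (@Lb.t (@Lb.fm (nat_lit 9) t1043))))))))))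
noncomputable def l36744 : Lb := (@Lb.r r20 (@Lb.r r1106 (@Lb.d (nat_lit 0) (nat_lit 258) (nat_lit 64) (@Lb.g g9 (@Lb.g g7 (@Lb.r r293 (@Lb.r r24 (@Lb.d (nat_lit 137) (nat_lit 2) (nat_lit 340) (@Lb.fp (nat_lit 3) t1043)))))))))
noncomputable def l36745 : Lb := (@Lb.d (nat_lit 666) (nat_lit 598) (nat_lit 33) (@Lb.r r1124 (@Lb.r r2661 (@Lb.r r666 (@Lb.g g11 (@Lb.g g6 (@Lb.g g4 (@Lb.d (nat_lit 2) (nat_lit 16) (nat_lit 134) (@Lb.r r529 (@Lb.t (@Lb.fm (nat_lit 9) t5197)))))))))))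
noncomputable def l36746 : Lb := (@Lb.d (nat_lit 8) (nat_lit 514) (nat_lit 130) (@Lb.g g9 (@Lb.g g10 (@Lb.g g11 (@Lb.r r166 (@Lb.r r584 (@Lb.r r299 (@Lb.r r409 (@Lb.d (nat_lit 150) (nat_lit 36) (nat_lit 425) (@Lb.t (@Lb.fm (nat_lit 9) t4374)))))))))))
noncomputable def l36747 : Lb := (@Lb.d (nat_lit 32) (nat_lit 521) (nat_lit 129) (@Lb.g g8 (@Lb.g g9 (@Lb.g g10 (@Lb.g g11 (@Lb.r r419 (@Lb.r r2725 (@Lb.r r1122 (@Lb.r r1540 (@Lb.d (nat_lit 528) (nat_lit 138) (nat_lit 344) (@Lb.fm (nat_lit 9) t1328)))))))))))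
noncomputable def l36748 : Lb := (@Lb.r r82 (@Lb.d (nat_lit 9) (nat_lit 266) (nat_lit 64) (@Lb.g g8 (@Lb.g g9 (@Lb.g g7 (@Lb.r r2122 (@Lb.r r2408 (@Lb.r r361 (@Lb.d (nat_lit 680) (nat_lit 153) (nat_lit 90) (@Lb.t (@Lb.fp (nat_lit 9) t6488)))))))))))
noncomputable def l36749 : Lb := (@Lb.d (nat_lit 1) (nat_lit 0) (nat_lit 64) (@Lb.g g8 (@Lb.g g7 (@Lb.r r2122 (@Lb.r r2073 (@Lb.d (nat_lit 130) (nat_lit 0) (nat_lit 660) (@Lb.fp (nat_lit 3) t2817)))))))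
noncomputable def l36750 : Lb := (@Lb.d (nat_lit 1) (nat_lit 256) (nat_lit 64) (@Lb.g g8 (@Lb.g g11 (@Lb.r r2379 (@Lb.r r2122 (@Lb.r r2073 (@Lb.d (nat_lit 674) (nat_lit 0) (nat_lit 576) (@Lb.fm (nat_lit 3) t6489))))))))
noncomputable def l36751 : Lb := (@Lb.d (nat_lit 8) (nat_lit 514) (nat_lit 73) (@Lb.g g9 (@Lb.g g10 (@Lb.g g11 (@Lb.r r166 (@Lb.r r584 (@Lb.r r299 (@Lb.r r409 (@Lb.d (nat_lit 150) (nat_lit 34) (nat_lit 360) (@Lb.t (@Lb.fm (nat_lit 9) t4374)))))))))))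
noncomputable def l36752 : Lb := (@Lb.d (nat_lit 40) (nat_lit 4) (nat_lit 74) (@Lb.g g9 (@Lb.g g10 (@Lb.g g11 (@Lb.r r2695 (@Lb.r r1352 (@Lb.r r2390 (@Lb.r r409 (@Lb.d (nat_lit 138) (nat_lit 130) (nat_lit 384) (@Lb.t (@Lb.fm (nat_lit 9) t1955)))))))))))
noncomputable def l36753 : Lb := (@Lb.d (nat_lit 594) (nat_lit 517) (nat_lit 153) (@Lb.r r2068 (@Lb.r r89 (@Lb.r r20 (@Lb.r r1442 (@Lb.g g11 (@Lb.g g6 (@Lb.g g5 (@Lb.g g4 (@Lb.d (nat_lit 1) (nat_lit 6) (nat_lit 129) (@Lb.fp (nat_lit 9) t1231)))))))))))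
noncomputable def l36754 : Lb := (@Lb.d (nat_lit 2) (nat_lit 258) (nat_lit 73) (@Lb.g g8 (@Lb.g g9 (@Lb.g g10 (@Lb.g g11 (@Lb.r r2691 (@Lb.r r297 (@Lb.r r360 (@Lb.r r582 (@Lb.r r2180 (@Lb.d (nat_lit 162) (nat_lit 0) (nat_lit 361) (@Lb.fm (nat_lit 9) t1013))))))))))))
noncomputable def l36755 : Lb := (@Lb.d (nat_lit 34) (nat_lit 550) (nat_lit 96) (@Lb.r r134 (@Lb.r r344 (@Lb.r r519 (@Lb.g g5 (@Lb.g g4 (@Lb.d (nat_lit 66) (nat_lit 25) (nat_lit 0) (@Lb.fp (nat_lit 3) t546))))))))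
noncomputable def l36756 : Lb := (@Lb.r r21 (@Lb.r r70 (@Lb.d (nat_lit 658) (nat_lit 0) (nat_lit 136) (@Lb.g g8 (@Lb.g g11 (@Lb.r r74 (@Lb.r r25 (@Lb.d (nat_lit 289) (nat_lit 0) (nat_lit 2) (@Lb.fm (nat_lit 3) t1728)))))))))
noncomputable def l36757 : Lb := (@Lb.d (nat_lit 138) (nat_lit 256) (nat_lit 0) (@Lb.g g8 (@Lb.r r1621 (@Lb.r r2391 (@Lb.r r2178 (@Lb.r r1572 (@Lb.d (nat_lit 169) (nat_lit 146) (nat_lit 548) (@Lb.t (@Lb.fm (nat_lit 3) t100)))))))))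
noncomputable def l36758 : Lb := (@Lb.d (nat_lit 294) (nat_lit 598) (nat_lit 417) (@Lb.r r2133 (@Lb.r r426 (@Lb.g g11 (@Lb.g g6 (@Lb.g g5 (@Lb.g g4 (@Lb.d (nat_lit 1) (nat_lit 17) (nat_lit 129) (@Lb.fp (nat_lit 9) t309)))))))))
noncomputable def l36759 : Lb := (@Lb.d (nat_lit 129) (nat_lit 2) (nat_lit 66) (@Lb.g g8 (@Lb.g g9 (@Lb.g g10 (@Lb.g g11 (@Lb.r r162 (@Lb.r r553 (@Lb.r r619 (@Lb.r r1553 (@Lb.r r2084 (@Lb.d (nat_lit 89) (nat_lit 66) (nat_lit 600) (@Lb.fm (nat_lit 9) t4257))))))))))))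
noncomputable def l36760 : Lb := (@Lb.d (nat_lit 0) (nat_lit 8) (nat_lit 2) (@Lb.g g10 (@Lb.r r1427 (@Lb.r r24 (@Lb.d (nat_lit 613) (nat_lit 21) (nat_lit 8) (@Lb.t (@Lb.fm (nat_lit 3) t1554)))))))
noncomputable def l36761 : Lb := (@Lb.d (nat_lit 2) (nat_lit 2) (nat_lit 66) (@Lb.g g8 (@Lb.g g9 (@Lb.g g10 (@Lb.g g11 (@Lb.r r2347 (@Lb.r r1606 (@Lb.r r2457 (@Lb.r r2436 (@Lb.d (nat_lit 70) (nat_lit 72) (nat_lit 530) (@Lb.fp (nat_lit 9) t2103)))))))))))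
noncomputable def l36762 : Lb := (@Lb.g g10 (@Lb.d (nat_lit 0) (nat_lit 0) (nat_lit 74) (@Lb.t (@Lb.fp (nat_lit 3) t2))))
noncomputable def l36763 : Lb := (@Lb.d (nat_lit 36) (nat_lit 4) (nat_lit 64) (@Lb.g g8 (@Lb.g g9 (@Lb.g g10 (@Lb.g g11 (@Lb.r r2347 (@Lb.r r1606 (@Lb.r r2457 (@Lb.r r1348 (@Lb.d (nat_lit 72) (nat_lit 129) (nat_lit 297) (@Lb.fp (nat_lit 9) t6490)))))))))))
noncomputable def l36764 : Lb := (@Lb.d (nat_lit 2) (nat_lit 0) (nat_lit 0) (@Lb.g g8 (@Lb.r r1162 (@Lb.r r1188 (@Lb.r r2341 (@Lb.r r2579 (@Lb.d (nat_lit 0) (nat_lit 162) (nat_lit 330) (@Lb.t (@Lb.fm (nat_lit 3) t2604)))))))))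
noncomputable def l36765 : Lb := (@Lb.d (nat_lit 2) (nat_lit 258) (nat_lit 130) (@Lb.g g8 (@Lb.g g9 (@Lb.g g10 (@Lb.g g11 (@Lb.r r427 (@Lb.r r1606 (@Lb.r r2457 (@Lb.r r2436 (@Lb.d (nat_lit 96) (nat_lit 9) (nat_lit 546) (@Lb.fp (nat_lit 9) t2103)))))))))))
noncomputable def l36766 : Lb := (@Lb.d (nat_lit 1) (nat_lit 0) (nat_lit 130) (@Lb.g g8 (@Lb.g g9 (@Lb.g g10 (@Lb.g g11 (@Lb.r r586 (@Lb.r r347 (@Lb.r r340 (@Lb.r r553 (@Lb.r r36 (@Lb.d (nat_lit 360) (nat_lit 73) (nat_lit 545) (@Lb.fm (nat_lit 9) t6491))))))))))))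
noncomputable def l36767 : Lb := (@Lb.d (nat_lit 10) (nat_lit 388) (nat_lit 85) (@Lb.r r613 (@Lb.r r1383 (@Lb.r r2564 (@Lb.g g10 (@Lb.g g5 (@Lb.d (nat_lit 36) (nat_lit 6) (nat_lit 4) (@Lb.fm (nat_lit 3) t1087))))))))
noncomputable def l36768 : Lb := (@Lb.d (nat_lit 0) (nat_lit 34) (nat_lit 0) (@Lb.g g9 (@Lb.r r1619 (@Lb.r r1414 (@Lb.r r1096 (@Lb.d (nat_lit 34) (nat_lit 2) (nat_lit 18) (@Lb.t (@Lb.fm (nat_lit 3) t468))))))))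
noncomputable def l36769 : Lb := (@Lb.d (nat_lit 393) (nat_lit 356) (nat_lit 8) (@Lb.r r548 (@Lb.r r1703 (@Lb.r r1618 (@Lb.g g5 (@Lb.g g4 (@Lb.d (nat_lit 17) (nat_lit 65) (nat_lit 0) (@Lb.r r295 (@Lb.r r98 (@Lb.fp (nat_lit 3) t150))))))))))
noncomputable def l36770 : Lb := (@Lb.r r70 (@Lb.d (nat_lit 166) (nat_lit 256) (nat_lit 256) (@Lb.g g8 (@Lb.g g9 (@Lb.g g7 (@Lb.r r2630 (@Lb.r r97 (@Lb.r r648 (@Lb.d (nat_lit 82) (nat_lit 128) (nat_lit 390) (@Lb.t (@Lb.fp (nat_lit 9) t50)))))))))))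
noncomputable def l36771 : Lb := (@Lb.d (nat_lit 170) (nat_lit 74) (nat_lit 16) (@Lb.r r580 (@Lb.r r297 (@Lb.r r1623 (@Lb.g g6 (@Lb.g g5 (@Lb.g g4 (@Lb.d (nat_lit 37) (nat_lit 4) (nat_lit 37) (@Lb.r r291 (@Lb.t (@Lb.fp (nat_lit 9) t4387)))))))))))
noncomputable def l36772 : Lb := (@Lb.d (nat_lit 6) (nat_lit 256) (nat_lit 130) (@Lb.g g8 (@Lb.g g9 (@Lb.g g10 (@Lb.g g11 (@Lb.r r2411 (@Lb.r r2442 (@Lb.r r40 (@Lb.r r105 (@Lb.r r2084 (@Lb.d (nat_lit 290) (nat_lit 168) (nat_lit 657) (@Lb.fm (nat_lit 9) t490))))))))))))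
noncomputable def l36773 : Lb := (@Lb.d (nat_lit 0) (nat_lit 258) (nat_lit 73) (@Lb.g g9 (@Lb.g g10 (@Lb.g g11 (@Lb.r r2705 (@Lb.r r1691 (@Lb.r r1610 (@Lb.r r2564 (@Lb.d (nat_lit 16) (nat_lit 10) (nat_lit 21) (@Lb.t (@Lb.fp (nat_lit 9) t312)))))))))))
noncomputable def l36774 : Lb := (@Lb.r r331 (@Lb.d (nat_lit 2) (nat_lit 520) (nat_lit 34) (@Lb.g g8 (@Lb.g g10 (@Lb.r r2708 (@Lb.r r391 (@Lb.d (nat_lit 330) (nat_lit 161) (nat_lit 400) (@Lb.fm (nat_lit 3) t4289))))))))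
noncomputable def l36775 : Lb := (@Lb.r r70 (@Lb.d (nat_lit 134) (nat_lit 64) (nat_lit 136) (@Lb.g g8 (@Lb.g g9 (@Lb.g g11 (@Lb.r r1124 (@Lb.r r74 (@Lb.d (nat_lit 546) (nat_lit 137) (nat_lit 17) (@Lb.t (@Lb.fm (nat_lit 9) t3197))))))))))
noncomputable def l36776 : Lb := (@Lb.d (nat_lit 1) (nat_lit 2) (nat_lit 130) (@Lb.g g8 (@Lb.g g9 (@Lb.g g10 (@Lb.g g11 (@Lb.r r2411 (@Lb.r r2442 (@Lb.r r40 (@Lb.r r105 (@Lb.r r2084 (@Lb.d (nat_lit 289) (nat_lit 168) (nat_lit 657) (@Lb.fm (nat_lit 9) t490))))))))))))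
noncomputable def l36777 : Lb := (@Lb.r r21 (@Lb.d (nat_lit 16) (nat_lit 512) (nat_lit 74) (@Lb.g g8 (@Lb.g g10 (@Lb.g g11 (@Lb.r r2730 (@Lb.r r2727 (@Lb.r r145 (@Lb.r r1304 (@Lb.d (nat_lit 674) (nat_lit 21) (nat_lit 416) (@Lb.t (@Lb.fp (nat_lit 9) t750))))))))))))
noncomputable def l36778 : Lb := (@Lb.d (nat_lit 1) (nat_lit 512) (nat_lit 5) (@Lb.g g8 (@Lb.g g10 (@Lb.g g11 (@Lb.r r2375 (@Lb.r r2406 (@Lb.r r2145 (@Lb.r r24 (@Lb.d (nat_lit 385) (nat_lit 33) (nat_lit 64) (@Lb.t (@Lb.fm (nat_lit 9) t5985)))))))))))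
noncomputable def l36779 : Lb := (@Lb.r r260 (@Lb.r r322 (@Lb.d (nat_lit 68) (nat_lit 258) (nat_lit 320) (@Lb.g g9 (@Lb.g g7 (@Lb.r r148 (@Lb.r r614 (@Lb.r r2385 (@Lb.d (nat_lit 1) (nat_lit 33) (nat_lit 133) (@Lb.fp (nat_lit 3) t1225))))))))))
noncomputable def l36780 : Lb := (@Lb.d (nat_lit 18) (nat_lit 2) (nat_lit 138) (@Lb.g g8 (@Lb.g g9 (@Lb.g g10 (@Lb.g g11 (@Lb.r r1689 (@Lb.r r1683 (@Lb.r r1602 (@Lb.r r292 (@Lb.d (nat_lit 72) (nat_lit 137) (nat_lit 409) (@Lb.fm (nat_lit 9) t842)))))))))))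
noncomputable def l36781 : Lb := (@Lb.d (nat_lit 144) (nat_lit 0) (nat_lit 128) (@Lb.g g8 (@Lb.g g10 (@Lb.g g11 (@Lb.r r1675 (@Lb.r r330 (@Lb.r r537 (@Lb.r r1540 (@Lb.d (nat_lit 545) (nat_lit 0) (nat_lit 661) (@Lb.t (@Lb.fp (nat_lit 9) t2188)))))))))))
noncomputable def l36782 : Lb := (@Lb.d (nat_lit 9) (nat_lit 257) (nat_lit 130) (@Lb.g g8 (@Lb.g g9 (@Lb.g g10 (@Lb.g g11 (@Lb.r r84 (@Lb.r r154 (@Lb.r r597 (@Lb.r r343 (@Lb.r r676 (@Lb.d (nat_lit 616) (nat_lit 1) (nat_lit 602) (@Lb.fm (nat_lit 9) t698))))))))))))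
noncomputable def l36783 : Lb := (@Lb.d (nat_lit 538) (nat_lit 513) (nat_lit 273) (@Lb.r r2321 (@Lb.r r2178 (@Lb.r r2339 (@Lb.r r281 (@Lb.g g7 (@Lb.g g5 (@Lb.g g8 (@Lb.d (nat_lit 322) (nat_lit 1) (nat_lit 128) (@Lb.t (@Lb.fp (nat_lit 9) t6492)))))))))))
noncomputable def l36784 : Lb := (@Lb.d (nat_lit 88) (nat_lit 513) (nat_lit 81) (@Lb.r r2321 (@Lb.r r2178 (@Lb.r r2339 (@Lb.r r281 (@Lb.g g7 (@Lb.g g5 (@Lb.g g8 (@Lb.d (nat_lit 322) (nat_lit 1) (nat_lit 128) (@Lb.t (@Lb.fp (nat_lit 9) t6493)))))))))))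
noncomputable def l36785 : Lb := (@Lb.d (nat_lit 145) (nat_lit 258) (nat_lit 128) (@Lb.g g8 (@Lb.g g9 (@Lb.g g10 (@Lb.g g11 (@Lb.r r1675 (@Lb.r r613 (@Lb.r r666 (@Lb.r r1560 (@Lb.d (nat_lit 581) (nat_lit 100) (nat_lit 656) (@Lb.fp (nat_lit 9) t125)))))))))))
noncomputable def l36786 : Lb := (@Lb.d (nat_lit 18) (nat_lit 258) (nat_lit 138) (@Lb.g g8 (@Lb.g g9 (@Lb.g g10 (@Lb.g g11 (@Lb.r r1689 (@Lb.r r1683 (@Lb.r r1602 (@Lb.r r292 (@Lb.d (nat_lit 70) (nat_lit 136) (nat_lit 409) (@Lb.fm (nat_lit 9) t842)))))))))))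
noncomputable def l36787 : Lb := (@Lb.d (nat_lit 536) (nat_lit 358) (nat_lit 530) (@Lb.r r1362 (@Lb.r r423 (@Lb.r r600 (@Lb.g g6 (@Lb.g g5 (@Lb.d (nat_lit 16) (nat_lit 129) (nat_lit 1) (@Lb.r r387 (@Lb.fp (nat_lit 3) t98)))))))))
noncomputable def l36788 : Lb := (@Lb.d (nat_lit 128) (nat_lit 322) (nat_lit 64) (@Lb.g g9 (@Lb.g g11 (@Lb.r r344 (@Lb.r r598 (@Lb.r r611 (@Lb.d (nat_lit 0) (nat_lit 148) (nat_lit 649) (@Lb.fm (nat_lit 3) t1222))))))))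
noncomputable def l36789 : Lb := (@Lb.d (nat_lit 642) (nat_lit 641) (nat_lit 385) (@Lb.r r20 (@Lb.r r289 (@Lb.r r539 (@Lb.r r644 (@Lb.g g6 (@Lb.d (nat_lit 16) (nat_lit 0) (nat_lit 2) (@Lb.t (@Lb.fm (nat_lit 3) t4607)))))))))
noncomputable def l36790 : Lb := (@Lb.d (nat_lit 10) (nat_lit 256) (nat_lit 0) (@Lb.g g4 (@Lb.r r609 (@Lb.r r359 (@Lb.r r644 (@Lb.r r134 (@Lb.d (nat_lit 512) (nat_lit 0) (nat_lit 37) (@Lb.t (@Lb.fm (nat_lit 3) t40)))))))))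
noncomputable def l36791 : Lb := (@Lb.d (nat_lit 128) (nat_lit 258) (nat_lit 73) (@Lb.g g8 (@Lb.g g9 (@Lb.g g10 (@Lb.g g11 (@Lb.r r683 (@Lb.r r2410 (@Lb.r r2329 (@Lb.r r516 (@Lb.d (nat_lit 265) (nat_lit 164) (nat_lit 424) (@Lb.fm (nat_lit 9) t605)))))))))))
noncomputable def l36792 : Lb := (@Lb.r r322 (@Lb.d (nat_lit 9) (nat_lit 1) (nat_lit 576) (@Lb.g g8 (@Lb.g g9 (@Lb.g g7 (@Lb.r r1158 (@Lb.r r1320 (@Lb.r r1433 (@Lb.d (nat_lit 410) (nat_lit 37) (nat_lit 41) (@Lb.t (@Lb.fp (nat_lit 9) t6176)))))))))))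
noncomputable def l36793 : Lb := (@Lb.d (nat_lit 9) (nat_lit 513) (nat_lit 73) (@Lb.g g8 (@Lb.g g9 (@Lb.g g10 (@Lb.g g11 (@Lb.r r642 (@Lb.r r1687 (@Lb.r r97 (@Lb.r r24 (@Lb.d (nat_lit 298) (nat_lit 9) (nat_lit 89) (@Lb.fp (nat_lit 9) t314)))))))))))
noncomputable def l36794 : Lb := (@Lb.d (nat_lit 0) (nat_lit 264) (nat_lit 2) (@Lb.g g10 (@Lb.r r2459 (@Lb.r r1172 (@Lb.r r89 (@Lb.r r1126 (@Lb.d (nat_lit 148) (nat_lit 25) (nat_lit 530) (@Lb.t (@Lb.fp (nat_lit 3) t820)))))))))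
noncomputable def l36795 : Lb := (@Lb.d (nat_lit 2) (nat_lit 258) (nat_lit 130) (@Lb.g g8 (@Lb.g g9 (@Lb.g g10 (@Lb.g g11 (@Lb.r r340 (@Lb.r r2202 (@Lb.r r1621 (@Lb.r r1367 (@Lb.r r2724 (@Lb.d (nat_lit 352) (nat_lit 2) (nat_lit 602) (@Lb.fm (nat_lit 9) t994))))))))))))
noncomputable def l36796 : Lb := (@Lb.d (nat_lit 16) (nat_lit 2) (nat_lit 162) (@Lb.g g9 (@Lb.g g10 (@Lb.g g11 (@Lb.r r644 (@Lb.r r1431 (@Lb.r r2657 (@Lb.d (nat_lit 10) (nat_lit 101) (nat_lit 422) (@Lb.t (@Lb.fp (nat_lit 9) t44))))))))))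
noncomputable def l36797 : Lb := (@Lb.r r323 (@Lb.d (nat_lit 16) (nat_lit 512) (nat_lit 21) (@Lb.g g9 (@Lb.g g6 (@Lb.r r1611 (@Lb.d (nat_lit 586) (nat_lit 2) (nat_lit 513) (@Lb.fm (nat_lit 3) t282)))))))
noncomputable def l36798 : Lb := (@Lb.r r323 (@Lb.d (nat_lit 24) (nat_lit 2) (nat_lit 21) (@Lb.g g9 (@Lb.g g6 (@Lb.r r1611 (@Lb.d (nat_lit 585) (nat_lit 2) (nat_lit 513) (@Lb.fm (nat_lit 3) t282)))))))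
noncomputable def l36799 : Lb := (@Lb.d (nat_lit 9) (nat_lit 514) (nat_lit 66) (@Lb.g g8 (@Lb.g g9 (@Lb.g g10 (@Lb.g g11 (@Lb.r r148 (@Lb.r r1126 (@Lb.r r1381 (@Lb.r r1691 (@Lb.r r1668 (@Lb.d (nat_lit 9) (nat_lit 2) (nat_lit 330) (@Lb.fp (nat_lit 9) t2))))))))))))
noncomputable def l36800 : Lb := (@Lb.d (nat_lit 0) (nat_lit 384) (nat_lit 32) (@Lb.r r402 (@Lb.r r579 (@Lb.g g11 (@Lb.g g6 (@Lb.g g9 (@Lb.t (@Lb.fp (nat_lit 9) t594))))))))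
noncomputable def l36801 : Lb := (@Lb.d (nat_lit 2) (nat_lit 528) (nat_lit 137) (@Lb.g g8 (@Lb.g g9 (@Lb.g g10 (@Lb.g g11 (@Lb.r r643 (@Lb.r r2345 (@Lb.r r2404 (@Lb.r r1610 (@Lb.d (nat_lit 128) (nat_lit 10) (nat_lit 133) (@Lb.fp (nat_lit 9) t1246)))))))))))
noncomputable def l36802 : Lb := (@Lb.d (nat_lit 128) (nat_lit 264) (nat_lit 128) (@Lb.g g9 (@Lb.g g11 (@Lb.r r264 (@Lb.r r407 (@Lb.r r82 (@Lb.r r161 (@Lb.d (nat_lit 258) (nat_lit 81) (nat_lit 665) (@Lb.fm (nat_lit 3) t3766)))))))))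
noncomputable def l36803 : Lb := (@Lb.r r70 (@Lb.d (nat_lit 32) (nat_lit 330) (nat_lit 128) (@Lb.g g8 (@Lb.g g9 (@Lb.g g11 (@Lb.r r1687 (@Lb.r r1366 (@Lb.r r676 (@Lb.d (nat_lit 389) (nat_lit 149) (nat_lit 321) (@Lb.t (@Lb.fp (nat_lit 9) t6494)))))))))))
noncomputable def l36804 : Lb := (@Lb.r r263 (@Lb.d (nat_lit 8) (nat_lit 512) (nat_lit 2) (@Lb.g g8 (@Lb.g g10 (@Lb.r r2713 (@Lb.r r1371 (@Lb.r r1670 (@Lb.r r2372 (@Lb.d (nat_lit 400) (nat_lit 0) (nat_lit 24) (@Lb.fp (nat_lit 3) t2865))))))))))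
noncomputable def l36805 : Lb := (@Lb.d (nat_lit 2) (nat_lit 528) (nat_lit 137) (@Lb.g g8 (@Lb.g g9 (@Lb.g g10 (@Lb.g g11 (@Lb.r r2391 (@Lb.r r358 (@Lb.r r421 (@Lb.r r1096 (@Lb.d (nat_lit 673) (nat_lit 73) (nat_lit 673) (@Lb.fp (nat_lit 9) t2351)))))))))))
noncomputable def l36806 : Lb := (@Lb.r r70 (@Lb.r r263 (@Lb.g g8 (@Lb.r r1317 (@Lb.r r1563 (@Lb.r r1668 (@Lb.r r2182 (@Lb.d (nat_lit 2) (nat_lit 256) (nat_lit 0) (@Lb.t (@Lb.fm (nat_lit 3) t320))))))))))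
noncomputable def l36807 : Lb := (@Lb.d (nat_lit 0) (nat_lit 2) (nat_lit 130) (@Lb.g g9 (@Lb.g g10 (@Lb.g g11 (@Lb.r r1443 (@Lb.r r1122 (@Lb.r r2072 (@Lb.r r1125 (@Lb.d (nat_lit 276) (nat_lit 26) (nat_lit 388) (@Lb.t (@Lb.fm (nat_lit 9) t1080)))))))))))
noncomputable def l36808 : Lb := (@Lb.r r70 (@Lb.r r263 (@Lb.d (nat_lit 548) (nat_lit 290) (nat_lit 0) (@Lb.g g8 (@Lb.g g9 (@Lb.r r1687 (@Lb.r r2182 (@Lb.r r337 (@Lb.d (nat_lit 1) (nat_lit 22) (nat_lit 324) (@Lb.fm (nat_lit 3) t123))))))))))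
noncomputable def l36809 : Lb := (@Lb.d (nat_lit 358) (nat_lit 518) (nat_lit 129) (@Lb.r r1432 (@Lb.r r2645 (@Lb.r r1706 (@Lb.g g11 (@Lb.g g6 (@Lb.g g5 (@Lb.g g4 (@Lb.d (nat_lit 18) (nat_lit 1) (nat_lit 129) (@Lb.fm (nat_lit 9) t61))))))))))
noncomputable def l36810 : Lb := (@Lb.d (nat_lit 32) (nat_lit 512) (nat_lit 162) (@Lb.g g10 (@Lb.g g11 (@Lb.r r328 (@Lb.r r407 (@Lb.r r609 (@Lb.d (nat_lit 0) (nat_lit 2) (nat_lit 84) (@Lb.fm (nat_lit 3) t479))))))))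
noncomputable def l36811 : Lb := (@Lb.d (nat_lit 32) (nat_lit 0) (nat_lit 162) (@Lb.g g10 (@Lb.g g11 (@Lb.r r328 (@Lb.r r407 (@Lb.r r609 (@Lb.d (nat_lit 10) (nat_lit 1) (nat_lit 84) (@Lb.fm (nat_lit 3) t479))))))))
noncomputable def l36812 : Lb := (@Lb.r r1045 (@Lb.r r1094 (@Lb.d (nat_lit 514) (nat_lit 512) (nat_lit 0) (@Lb.g g4 (@Lb.r r579 (@Lb.d (nat_lit 1) (nat_lit 0) (nat_lit 32) (@Lb.t (@Lb.fp (nat_lit 3) t367))))))))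
noncomputable def l36813 : Lb := (@Lb.d (nat_lit 128) (nat_lit 512) (nat_lit 66) (@Lb.g g10 (@Lb.g g11 (@Lb.r r264 (@Lb.r r279 (@Lb.r r161 (@Lb.r r98 (@Lb.d (nat_lit 98) (nat_lit 8) (nat_lit 168) (@Lb.fm (nat_lit 3) t97)))))))))
noncomputable def l36814 : Lb := (@Lb.d (nat_lit 128) (nat_lit 0) (nat_lit 130) (@Lb.g g10 (@Lb.g g11 (@Lb.r r264 (@Lb.r r279 (@Lb.r r161 (@Lb.r r98 (@Lb.d (nat_lit 96) (nat_lit 8) (nat_lit 168) (@Lb.fm (nat_lit 3) t97)))))))))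
noncomputable def l36815 : Lb := (@Lb.d (nat_lit 0) (nat_lit 258) (nat_lit 130) (@Lb.g g8 (@Lb.g g9 (@Lb.g g10 (@Lb.g g11 (@Lb.r r2146 (@Lb.r r2401 (@Lb.r r292 (@Lb.r r539 (@Lb.r r516 (@Lb.d (nat_lit 40) (nat_lit 2) (nat_lit 161) (@Lb.fp (nat_lit 9) t3071))))))))))))
noncomputable def l36816 : Lb := (@Lb.r r323 (@Lb.d (nat_lit 2) (nat_lit 516) (nat_lit 42) (@Lb.g g8 (@Lb.g g6 (@Lb.r r387 (@Lb.r r2073 (@Lb.d (nat_lit 390) (nat_lit 146) (nat_lit 336) (@Lb.fp (nat_lit 3) t4188))))))))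
noncomputable def l36817 : Lb := (@Lb.d (nat_lit 101) (nat_lit 102) (nat_lit 389) (@Lb.r r404 (@Lb.r r150 (@Lb.r r361 (@Lb.r r2455 (@Lb.g g7 (@Lb.g g5 (@Lb.g g4 (@Lb.d (nat_lit 17) (nat_lit 1) (nat_lit 64) (@Lb.t (@Lb.fp (nat_lit 9) t3772)))))))))))
noncomputable def l36818 : Lb := (@Lb.d (nat_lit 34) (nat_lit 512) (nat_lit 128) (@Lb.g g8 (@Lb.g g11 (@Lb.r r353 (@Lb.r r2707 (@Lb.r r150 (@Lb.r r2660 (@Lb.d (nat_lit 132) (nat_lit 153) (nat_lit 18) (@Lb.fp (nat_lit 3) t6495)))))))))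
noncomputable def l36819 : Lb := (@Lb.d (nat_lit 257) (nat_lit 1) (nat_lit 0) (@Lb.r r24 (@Lb.r r2138 (@Lb.g g7 (@Lb.g g5 (@Lb.d (nat_lit 4) (nat_lit 1) (nat_lit 0) (@Lb.fp (nat_lit 3) t1221)))))))
noncomputable def l36820 : Lb := (@Lb.d (nat_lit 0) (nat_lit 256) (nat_lit 1) (@Lb.r r24 (@Lb.r r101 (@Lb.g g6 (@Lb.g g4 (@Lb.d (nat_lit 0) (nat_lit 4) (nat_lit 1) (@Lb.fm (nat_lit 3) t1219)))))))
noncomputable def l36821 : Lb := (@Lb.d (nat_lit 0) (nat_lit 0) (nat_lit 1) (@Lb.r r24 (@Lb.r r101 (@Lb.g g6 (@Lb.g g4 (@Lb.d (nat_lit 1) (nat_lit 4) (nat_lit 1) (@Lb.fm (nat_lit 3) t1219)))))))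
noncomputable def l36822 : Lb := (@Lb.d (nat_lit 0) (nat_lit 256) (nat_lit 1) (@Lb.r r24 (@Lb.r r101 (@Lb.g g7 (@Lb.g g6 (@Lb.g g4 (@Lb.d (nat_lit 0) (nat_lit 4) (nat_lit 1) (@Lb.t (@Lb.fp (nat_lit 9) t1219)))))))))
noncomputable def l36823 : Lb := (@Lb.r r1126 (@Lb.r r24 (@Lb.d (nat_lit 516) (nat_lit 256) (nat_lit 0) (@Lb.fm (nat_lit 1) t994))))
noncomputable def l36824 : Lb := (@Lb.r r273 (@Lb.d (nat_lit 16) (nat_lit 272) (nat_lit 522) (@Lb.g g8 (@Lb.g g10 (@Lb.g g7 (@Lb.r r425 (@Lb.r r1188 (@Lb.r r2182 (@Lb.d (nat_lit 290) (nat_lit 74) (nat_lit 81) (@Lb.t (@Lb.fp (nat_lit 9) t2147)))))))))))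
noncomputable def l36825 : Lb := (@Lb.d (nat_lit 530) (nat_lit 344) (nat_lit 661) (@Lb.r r386 (@Lb.r r2579 (@Lb.r r2389 (@Lb.g g7 (@Lb.g g6 (@Lb.g g5 (@Lb.g g4 (@Lb.d (nat_lit 1) (nat_lit 1) (nat_lit 134) (@Lb.fp (nat_lit 9) t1260))))))))))
noncomputable def l36826 : Lb := (@Lb.d (nat_lit 0) (nat_lit 329) (nat_lit 0) (@Lb.g g9 (@Lb.r r322 (@Lb.r r659 (@Lb.r r578 (@Lb.r r2564 (@Lb.d (nat_lit 0) (nat_lit 130) (nat_lit 640) (@Lb.t (@Lb.fm (nat_lit 3) t242)))))))))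
noncomputable def l36827 : Lb := (@Lb.d (nat_lit 4) (nat_lit 256) (nat_lit 130) (@Lb.g g8 (@Lb.g g9 (@Lb.g g10 (@Lb.g g11 (@Lb.r r2691 (@Lb.r r297 (@Lb.r r360 (@Lb.r r582 (@Lb.r r2180 (@Lb.d (nat_lit 641) (nat_lit 0) (nat_lit 330) (@Lb.fm (nat_lit 9) t242))))))))))))
noncomputable def l36828 : Lb := (@Lb.d (nat_lit 6) (nat_lit 256) (nat_lit 64) (@Lb.g g8 (@Lb.g g11 (@Lb.r r2567 (@Lb.r r1098 (@Lb.r r1049 (@Lb.d (nat_lit 580) (nat_lit 129) (nat_lit 576) (@Lb.fp (nat_lit 3) t284))))))))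
noncomputable def l36829 : Lb := (@Lb.d (nat_lit 2) (nat_lit 544) (nat_lit 64) (@Lb.g g8 (@Lb.g g11 (@Lb.r r618 (@Lb.r r401 (@Lb.r r615 (@Lb.d (nat_lit 26) (nat_lit 149) (nat_lit 393) (@Lb.fp (nat_lit 3) t242))))))))
noncomputable def l36830 : Lb := (@Lb.d (nat_lit 6) (nat_lit 256) (nat_lit 0) (@Lb.g g8 (@Lb.r r1098 (@Lb.r r1049 (@Lb.d (nat_lit 518) (nat_lit 129) (nat_lit 0) (@Lb.t (@Lb.fp (nat_lit 3) t994)))))))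
noncomputable def l36831 : Lb := (@Lb.d (nat_lit 0) (nat_lit 352) (nat_lit 256) (@Lb.r r1284 (@Lb.r r322 (@Lb.r r659 (@Lb.r r578 (@Lb.g g5 (@Lb.d (nat_lit 0) (nat_lit 129) (nat_lit 0) (@Lb.t (@Lb.fp (nat_lit 3) t2060)))))))))
noncomputable def l36832 : Lb := (@Lb.d (nat_lit 2) (nat_lit 16) (nat_lit 585) (@Lb.g g8 (@Lb.g g10 (@Lb.g g7 (@Lb.r r386 (@Lb.r r2073 (@Lb.d (nat_lit 294) (nat_lit 134) (nat_lit 42) (@Lb.t (@Lb.fm (nat_lit 9) t4188)))))))))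
noncomputable def l36833 : Lb := (@Lb.d (nat_lit 2) (nat_lit 0) (nat_lit 9) (@Lb.g g8 (@Lb.g g10 (@Lb.g g7 (@Lb.r r386 (@Lb.r r2073 (@Lb.d (nat_lit 33) (nat_lit 5) (nat_lit 42) (@Lb.t (@Lb.fm (nat_lit 9) t382)))))))))
noncomputable def l36834 : Lb := (@Lb.d (nat_lit 2) (nat_lit 258) (nat_lit 137) (@Lb.g g8 (@Lb.g g9 (@Lb.g g10 (@Lb.g g11 (@Lb.r r2723 (@Lb.r r1634 (@Lb.r r1553 (@Lb.d (nat_lit 2) (nat_lit 105) (nat_lit 417) (@Lb.fm (nat_lit 9) t324))))))))))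
noncomputable def l36835 : Lb := (@Lb.r r1126 (@Lb.r r24 (@Lb.d (nat_lit 18) (nat_lit 320) (nat_lit 32) (@Lb.fm (nat_lit 1) t3071))))
noncomputable def l36836 : Lb := (@Lb.r r1126 (@Lb.r r24 (@Lb.d (nat_lit 25) (nat_lit 578) (nat_lit 32) (@Lb.fm (nat_lit 1) t3071))))
noncomputable def l36837 : Lb := (@Lb.d (nat_lit 0) (nat_lit 165) (nat_lit 72) (@Lb.r r1094 (@Lb.r r392 (@Lb.r r1623 (@Lb.g g5 (@Lb.g g4 (@Lb.d (nat_lit 1) (nat_lit 144) (nat_lit 0) (@Lb.r r299 (@Lb.r r98 (@Lb.fm (nat_lit 3) t5170))))))))))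
noncomputable def l36838 : Lb := (@Lb.r r70 (@Lb.d (nat_lit 388) (nat_lit 1) (nat_lit 0) (@Lb.g g8 (@Lb.g g5 (@Lb.r r1122 (@Lb.d (nat_lit 9) (nat_lit 145) (nat_lit 512) (@Lb.fp (nat_lit 3) t2426)))))))
noncomputable def l36839 : Lb := (@Lb.d (nat_lit 0) (nat_lit 258) (nat_lit 130) (@Lb.g g8 (@Lb.g g9 (@Lb.g g10 (@Lb.g g11 (@Lb.r r1699 (@Lb.r r1160 (@Lb.r r1610 (@Lb.r r145 (@Lb.d (nat_lit 401) (nat_lit 128) (nat_lit 597) (@Lb.fp (nat_lit 9) t790)))))))))))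
noncomputable def l36840 : Lb := (@Lb.d (nat_lit 640) (nat_lit 128) (nat_lit 405) (@Lb.r r1045 (@Lb.r r2148 (@Lb.r r386 (@Lb.g g11 (@Lb.g g6 (@Lb.d (nat_lit 64) (nat_lit 0) (nat_lit 513) (@Lb.fm (nat_lit 3) t6496))))))))
noncomputable def l36841 : Lb := (@Lb.d (nat_lit 33) (nat_lit 2) (nat_lit 130) (@Lb.g g8 (@Lb.g g9 (@Lb.g g10 (@Lb.g g11 (@Lb.r r675 (@Lb.r r164 (@Lb.r r2662 (@Lb.r r2149 (@Lb.r r1156 (@Lb.d (nat_lit 522) (nat_lit 33) (nat_lit 618) (@Lb.fp (nat_lit 9) t2929))))))))))))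
noncomputable def l36842 : Lb := (@Lb.d (nat_lit 401) (nat_lit 297) (nat_lit 282) (@Lb.r r610 (@Lb.r r617 (@Lb.r r424 (@Lb.g g11 (@Lb.g g6 (@Lb.d (nat_lit 32) (nat_lit 0) (nat_lit 1) (@Lb.fp (nat_lit 3) t6497))))))))
noncomputable def l36843 : Lb := (@Lb.d (nat_lit 8) (nat_lit 2) (nat_lit 130) (@Lb.g g8 (@Lb.g g9 (@Lb.g g10 (@Lb.g g11 (@Lb.r r532 (@Lb.r r295 (@Lb.r r357 (@Lb.r r666 (@Lb.r r644 (@Lb.d (nat_lit 2) (nat_lit 2) (nat_lit 68) (@Lb.fp (nat_lit 9) t2))))))))))))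
noncomputable def l36844 : Lb := (@Lb.d (nat_lit 1) (nat_lit 256) (nat_lit 130) (@Lb.g g8 (@Lb.g g9 (@Lb.g g10 (@Lb.g g11 (@Lb.r r2601 (@Lb.r r299 (@Lb.r r388 (@Lb.r r70 (@Lb.r r132 (@Lb.d (nat_lit 320) (nat_lit 169) (nat_lit 89) (@Lb.fm (nat_lit 9) t2601))))))))))))
noncomputable def l36845 : Lb := (@Lb.r r2069 (@Lb.r r2118 (@Lb.d (nat_lit 514) (nat_lit 256) (nat_lit 0) (@Lb.g g4 (@Lb.d (nat_lit 9) (nat_lit 2) (nat_lit 0) (@Lb.t (@Lb.fm (nat_lit 3) t6069)))))))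
noncomputable def l36846 : Lb := (@Lb.d (nat_lit 4) (nat_lit 266) (nat_lit 130) (@Lb.g g8 (@Lb.g g9 (@Lb.g g10 (@Lb.g g11 (@Lb.r r1666 (@Lb.r r1431 (@Lb.r r2657 (@Lb.r r24 (@Lb.d (nat_lit 545) (nat_lit 90) (nat_lit 25) (@Lb.fm (nat_lit 9) t1923)))))))))))
noncomputable def l36847 : Lb := (@Lb.r r70 (@Lb.g g8 (@Lb.g g5 (@Lb.r r1317 (@Lb.r r1563 (@Lb.r r644 (@Lb.r r2182 (@Lb.d (nat_lit 2) (nat_lit 0) (nat_lit 352) (@Lb.fm (nat_lit 3) t4963)))))))))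
noncomputable def l36848 : Lb := (@Lb.d (nat_lit 8) (nat_lit 32) (nat_lit 322) (@Lb.g g8 (@Lb.g g10 (@Lb.g g7 (@Lb.r r386 (@Lb.r r2341 (@Lb.r r2324 (@Lb.d (nat_lit 17) (nat_lit 98) (nat_lit 342) (@Lb.t (@Lb.fp (nat_lit 9) t6498))))))))))
noncomputable def l36849 : Lb := (@Lb.r r21 (@Lb.d (nat_lit 41) (nat_lit 512) (nat_lit 129) (@Lb.g g8 (@Lb.g g10 (@Lb.g g11 (@Lb.r r341 (@Lb.r r615 (@Lb.r r330 (@Lb.r r1636 (@Lb.d (nat_lit 580) (nat_lit 137) (nat_lit 612) (@Lb.t (@Lb.fp (nat_lit 9) t4740))))))))))))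
noncomputable def l36850 : Lb := (@Lb.d (nat_lit 4) (nat_lit 522) (nat_lit 130) (@Lb.g g8 (@Lb.g g9 (@Lb.g g10 (@Lb.g g11 (@Lb.r r1666 (@Lb.r r1431 (@Lb.r r2657 (@Lb.r r24 (@Lb.d (nat_lit 552) (nat_lit 89) (nat_lit 25) (@Lb.fm (nat_lit 9) t1923)))))))))))
noncomputable def l36851 : Lb := (@Lb.r r21 (@Lb.r r70 (@Lb.d (nat_lit 513) (nat_lit 0) (nat_lit 0) (@Lb.g g4 (@Lb.r r74 (@Lb.r r25 (@Lb.d (nat_lit 256) (nat_lit 10) (nat_lit 2) (@Lb.t (@Lb.fm (nat_lit 3) t6499)))))))))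
noncomputable def l36852 : Lb := (@Lb.d (nat_lit 5) (nat_lit 322) (nat_lit 384) (@Lb.r r68 (@Lb.r r602 (@Lb.r r584 (@Lb.g g5 (@Lb.d (nat_lit 0) (nat_lit 129) (nat_lit 0) (@Lb.t (@Lb.fp (nat_lit 3) t4321))))))))
noncomputable def l36853 : Lb := (@Lb.d (nat_lit 4) (nat_lit 266) (nat_lit 130) (@Lb.g g8 (@Lb.g g9 (@Lb.g g10 (@Lb.g g11 (@Lb.r r1666 (@Lb.r r1431 (@Lb.r r2657 (@Lb.r r24 (@Lb.d (nat_lit 553) (nat_lit 89) (nat_lit 25) (@Lb.fm (nat_lit 9) t1923)))))))))))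
noncomputable def l36854 : Lb := (@Lb.r r322 (@Lb.d (nat_lit 34) (nat_lit 289) (nat_lit 516) (@Lb.g g8 (@Lb.g g9 (@Lb.g g7 (@Lb.r r418 (@Lb.r r297 (@Lb.r r1384 (@Lb.d (nat_lit 405) (nat_lit 41) (nat_lit 293) (@Lb.t (@Lb.fm (nat_lit 9) t6367)))))))))))
noncomputable def l36855 : Lb := (@Lb.d (nat_lit 8) (nat_lit 9) (nat_lit 129) (@Lb.g g9 (@Lb.g g10 (@Lb.g g11 (@Lb.r r2726 (@Lb.r r2471 (@Lb.r r1624 (@Lb.r r405 (@Lb.d (nat_lit 357) (nat_lit 16) (nat_lit 90) (@Lb.t (@Lb.fm (nat_lit 9) t6500)))))))))))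
noncomputable def l36856 : Lb := (@Lb.d (nat_lit 546) (nat_lit 9) (nat_lit 2) (@Lb.r r1092 (@Lb.r r146 (@Lb.r r1427 (@Lb.g g9 (@Lb.d (nat_lit 4) (nat_lit 74) (nat_lit 0) (@Lb.r r291 (@Lb.r r98 (@Lb.r r36 (@Lb.t (@Lb.fm (nat_lit 3) t6501)))))))))))
noncomputable def l36857 : Lb := (@Lb.d (nat_lit 8) (nat_lit 521) (nat_lit 129) (@Lb.g g9 (@Lb.g g10 (@Lb.g g11 (@Lb.r r2726 (@Lb.r r2471 (@Lb.r r1624 (@Lb.r r405 (@Lb.d (nat_lit 358) (nat_lit 16) (nat_lit 90) (@Lb.t (@Lb.fm (nat_lit 9) t6500)))))))))))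
noncomputable def l36858 : Lb := (@Lb.d (nat_lit 40) (nat_lit 2) (nat_lit 146) (@Lb.g g9 (@Lb.g g10 (@Lb.g g11 (@Lb.r r2471 (@Lb.r r1624 (@Lb.r r405 (@Lb.d (nat_lit 357) (nat_lit 130) (nat_lit 530) (@Lb.t (@Lb.fp (nat_lit 9) t1020))))))))))
noncomputable def l36859 : Lb := (@Lb.d (nat_lit 0) (nat_lit 266) (nat_lit 0) (@Lb.g g9 (@Lb.g g7 (@Lb.r r594 (@Lb.r r1425 (@Lb.d (nat_lit 0) (nat_lit 80) (nat_lit 10) (@Lb.fp (nat_lit 3) t4120)))))))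
noncomputable def l36860 : Lb := (@Lb.r r82 (@Lb.d (nat_lit 130) (nat_lit 514) (nat_lit 256) (@Lb.g g8 (@Lb.g g9 (@Lb.g g7 (@Lb.r r386 (@Lb.r r1321 (@Lb.r r264 (@Lb.d (nat_lit 680) (nat_lit 68) (nat_lit 416) (@Lb.t (@Lb.fm (nat_lit 9) t5274)))))))))))
noncomputable def l36861 : Lb := (@Lb.d (nat_lit 146) (nat_lit 288) (nat_lit 10) (@Lb.g g8 (@Lb.g g10 (@Lb.g g11 (@Lb.r r602 (@Lb.r r2648 (@Lb.r r2341 (@Lb.r r539 (@Lb.d (nat_lit 324) (nat_lit 40) (nat_lit 38) (@Lb.t (@Lb.fp (nat_lit 9) t6502)))))))))))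
noncomputable def l36862 : Lb := (@Lb.r r82 (@Lb.r r263 (@Lb.d (nat_lit 257) (nat_lit 514) (nat_lit 0) (@Lb.g g4 (@Lb.g g9 (@Lb.r r267 (@Lb.r r386 (@Lb.r r1061 (@Lb.d (nat_lit 297) (nat_lit 66) (nat_lit 546) (@Lb.fp (nat_lit 3) t5984))))))))))
noncomputable def l36863 : Lb := (@Lb.d (nat_lit 66) (nat_lit 262) (nat_lit 646) (@Lb.r r82 (@Lb.r r519 (@Lb.r r1364 (@Lb.g g7 (@Lb.g g6 (@Lb.g g5 (@Lb.g g4 (@Lb.d (nat_lit 66) (nat_lit 129) (nat_lit 129) (@Lb.fm (nat_lit 9) t1594))))))))))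
noncomputable def l36864 : Lb := (@Lb.d (nat_lit 34) (nat_lit 2) (nat_lit 0) (@Lb.g g8 (@Lb.g g9 (@Lb.r r515 (@Lb.r r2198 (@Lb.r r97 (@Lb.r r1556 (@Lb.d (nat_lit 37) (nat_lit 105) (nat_lit 518) (@Lb.fp (nat_lit 3) t1827)))))))))
noncomputable def l36865 : Lb := (@Lb.d (nat_lit 154) (nat_lit 264) (nat_lit 73) (@Lb.g g8 (@Lb.g g10 (@Lb.g g11 (@Lb.r r1307 (@Lb.r r1105 (@Lb.r r1638 (@Lb.r r388 (@Lb.d (nat_lit 361) (nat_lit 65) (nat_lit 25) (@Lb.t (@Lb.fm (nat_lit 9) t4862)))))))))))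
noncomputable def l36866 : Lb := (@Lb.d (nat_lit 256) (nat_lit 650) (nat_lit 2) (@Lb.r r21 (@Lb.r r1124 (@Lb.r r323 (@Lb.g g10 (@Lb.g g5 (@Lb.d (nat_lit 16) (nat_lit 1) (nat_lit 18) (@Lb.r r387 (@Lb.r r132 (@Lb.fp (nat_lit 3) t350))))))))))
noncomputable def l36867 : Lb := (@Lb.d (nat_lit 8) (nat_lit 294) (nat_lit 66) (@Lb.g g9 (@Lb.g g10 (@Lb.g g11 (@Lb.r r1304 (@Lb.r r2599 (@Lb.r r2661 (@Lb.r r90 (@Lb.d (nat_lit 264) (nat_lit 10) (nat_lit 258) (@Lb.t (@Lb.fp (nat_lit 9) t4134)))))))))))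
noncomputable def l36868 : Lb := (@Lb.d (nat_lit 405) (nat_lit 514) (nat_lit 422) (@Lb.r r24 (@Lb.r r386 (@Lb.g g11 (@Lb.g g6 (@Lb.g g5 (@Lb.d (nat_lit 4) (nat_lit 1) (nat_lit 1) (@Lb.t (@Lb.fm (nat_lit 9) t1221)))))))))
noncomputable def l36869 : Lb := (@Lb.r r323 (@Lb.d (nat_lit 66) (nat_lit 256) (nat_lit 2) (@Lb.g g8 (@Lb.g g9 (@Lb.g g10 (@Lb.r r2694 (@Lb.r r2455 (@Lb.r r1701 (@Lb.r r84 (@Lb.d (nat_lit 518) (nat_lit 4) (nat_lit 102) (@Lb.t (@Lb.fm (nat_lit 9) t3039))))))))))))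
noncomputable def l36870 : Lb := (@Lb.d (nat_lit 0) (nat_lit 165) (nat_lit 0) (@Lb.g g5 (@Lb.d (nat_lit 5) (nat_lit 88) (nat_lit 128) (@Lb.t (@Lb.fm (nat_lit 3) t3749)))))
noncomputable def l36871 : Lb := (@Lb.d (nat_lit 128) (nat_lit 38) (nat_lit 64) (@Lb.g g9 (@Lb.g g10 (@Lb.g g11 (@Lb.r r2709 (@Lb.r r662 (@Lb.r r328 (@Lb.r r647 (@Lb.d (nat_lit 408) (nat_lit 6) (nat_lit 9) (@Lb.t (@Lb.fp (nat_lit 9) t3326)))))))))))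
noncomputable def l36872 : Lb := (@Lb.r r277 (@Lb.d (nat_lit 344) (nat_lit 0) (nat_lit 68) (@Lb.g g8 (@Lb.g g10 (@Lb.g g11 (@Lb.r r419 (@Lb.r r101 (@Lb.r r2194 (@Lb.d (nat_lit 277) (nat_lit 33) (nat_lit 266) (@Lb.t (@Lb.fm (nat_lit 9) t1846)))))))))))
noncomputable def l36873 : Lb := (@Lb.d (nat_lit 32) (nat_lit 8) (nat_lit 2) (@Lb.g g6 (@Lb.r r680 (@Lb.r r2729 (@Lb.r r1706 (@Lb.d (nat_lit 361) (nat_lit 105) (nat_lit 153) (@Lb.t (@Lb.fp (nat_lit 3) t322))))))))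
noncomputable def l36874 : Lb := (@Lb.d (nat_lit 529) (nat_lit 257) (nat_lit 33) (@Lb.r r24 (@Lb.r r2138 (@Lb.g g7 (@Lb.g g5 (@Lb.d (nat_lit 4) (nat_lit 1) (nat_lit 68) (@Lb.fp (nat_lit 3) t1427)))))))
noncomputable def l36875 : Lb := (@Lb.d (nat_lit 544) (nat_lit 586) (nat_lit 409) (@Lb.r r277 (@Lb.r r619 (@Lb.r r612 (@Lb.r r346 (@Lb.g g7 (@Lb.g g6 (@Lb.d (nat_lit 0) (nat_lit 0) (nat_lit 65) (@Lb.fp (nat_lit 3) t445)))))))))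
noncomputable def l36876 : Lb := (@Lb.d (nat_lit 128) (nat_lit 258) (nat_lit 73) (@Lb.g g9 (@Lb.g g10 (@Lb.g g11 (@Lb.r r1352 (@Lb.r r2726 (@Lb.r r677 (@Lb.r r551 (@Lb.d (nat_lit 138) (nat_lit 33) (nat_lit 262) (@Lb.t (@Lb.fm (nat_lit 9) t210)))))))))))
noncomputable def l36877 : Lb := (@Lb.r r1291 (@Lb.r r24 (@Lb.r r101 (@Lb.d (nat_lit 0) (nat_lit 26) (nat_lit 298) (@Lb.fp (nat_lit 1) t3940)))))
noncomputable def l36878 : Lb := (@Lb.d (nat_lit 0) (nat_lit 0) (nat_lit 1) (@Lb.r r24 (@Lb.r r101 (@Lb.g g7 (@Lb.g g6 (@Lb.d (nat_lit 0) (nat_lit 4) (nat_lit 70) (@Lb.fm (nat_lit 3) t70)))))))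
noncomputable def l36879 : Lb := (@Lb.d (nat_lit 104) (nat_lit 38) (nat_lit 64) (@Lb.g g8 (@Lb.g g9 (@Lb.g g10 (@Lb.g g11 (@Lb.r r419 (@Lb.r r2146 (@Lb.r r2468 (@Lb.r r293 (@Lb.d (nat_lit 421) (nat_lit 168) (nat_lit 326) (@Lb.fm (nat_lit 9) t1039)))))))))))
noncomputable def l36880 : Lb := (@Lb.d (nat_lit 41) (nat_lit 512) (nat_lit 136) (@Lb.g g8 (@Lb.g g11 (@Lb.r r1173 (@Lb.r r150 (@Lb.r r356 (@Lb.r r1291 (@Lb.d (nat_lit 0) (nat_lit 170) (nat_lit 342) (@Lb.fp (nat_lit 3) t322)))))))))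
noncomputable def l36881 : Lb := (@Lb.d (nat_lit 0) (nat_lit 545) (nat_lit 130) (@Lb.g g9 (@Lb.g g10 (@Lb.g g11 (@Lb.r r2722 (@Lb.r r1415 (@Lb.r r2201 (@Lb.d (nat_lit 345) (nat_lit 21) (nat_lit 649) (@Lb.t (@Lb.fp (nat_lit 9) t809))))))))))
noncomputable def l36882 : Lb := (@Lb.r r70 (@Lb.d (nat_lit 137) (nat_lit 517) (nat_lit 64) (@Lb.g g8 (@Lb.g g9 (@Lb.g g11 (@Lb.r r1194 (@Lb.r r2568 (@Lb.r r1387 (@Lb.r r353 (@Lb.d (nat_lit 520) (nat_lit 170) (nat_lit 8) (@Lb.t (@Lb.fp (nat_lit 9) t981))))))))))))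
noncomputable def l36883 : Lb := (@Lb.d (nat_lit 144) (nat_lit 520) (nat_lit 130) (@Lb.g g8 (@Lb.g g10 (@Lb.g g11 (@Lb.r r353 (@Lb.r r1691 (@Lb.r r644 (@Lb.r r2182 (@Lb.d (nat_lit 297) (nat_lit 66) (nat_lit 680) (@Lb.t (@Lb.fp (nat_lit 9) t1101)))))))))))
noncomputable def l36884 : Lb := (@Lb.d (nat_lit 0) (nat_lit 329) (nat_lit 0) (@Lb.g g8 (@Lb.g g9 (@Lb.r r322 (@Lb.r r659 (@Lb.r r578 (@Lb.r r2564 (@Lb.d (nat_lit 0) (nat_lit 130) (nat_lit 640) (@Lb.fp (nat_lit 3) t242)))))))))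
noncomputable def l36885 : Lb := (@Lb.d (nat_lit 144) (nat_lit 521) (nat_lit 66) (@Lb.g g8 (@Lb.g g9 (@Lb.g g10 (@Lb.g g11 (@Lb.r r387 (@Lb.r r1177 (@Lb.r r2450 (@Lb.r r2632 (@Lb.d (nat_lit 514) (nat_lit 85) (nat_lit 169) (@Lb.fp (nat_lit 9) t986)))))))))))
noncomputable def l36886 : Lb := (@Lb.r r326 (@Lb.d (nat_lit 9) (nat_lit 33) (nat_lit 128) (@Lb.g g8 (@Lb.g g9 (@Lb.g g11 (@Lb.r r1049 (@Lb.r r1112 (@Lb.r r134 (@Lb.d (nat_lit 5) (nat_lit 70) (nat_lit 16) (@Lb.t (@Lb.fm (nat_lit 9) t1137)))))))))))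
noncomputable def l36887 : Lb := (@Lb.d (nat_lit 128) (nat_lit 513) (nat_lit 64) (@Lb.g g9 (@Lb.g g11 (@Lb.r r661 (@Lb.r r292 (@Lb.r r539 (@Lb.r r134 (@Lb.d (nat_lit 581) (nat_lit 33) (nat_lit 38) (@Lb.fm (nat_lit 3) t40)))))))))
noncomputable def l36888 : Lb := (@Lb.d (nat_lit 146) (nat_lit 264) (nat_lit 66) (@Lb.g g8 (@Lb.g g10 (@Lb.g g11 (@Lb.r r353 (@Lb.r r1691 (@Lb.r r644 (@Lb.r r2182 (@Lb.d (nat_lit 297) (nat_lit 66) (nat_lit 680) (@Lb.t (@Lb.fp (nat_lit 9) t1101)))))))))))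
noncomputable def l36889 : Lb := (@Lb.d (nat_lit 8) (nat_lit 289) (nat_lit 0) (@Lb.g g9 (@Lb.r r600 (@Lb.r r347 (@Lb.r r134 (@Lb.r r613 (@Lb.d (nat_lit 666) (nat_lit 26) (nat_lit 34) (@Lb.t (@Lb.fm (nat_lit 3) t40)))))))))
noncomputable def l36890 : Lb := (@Lb.d (nat_lit 130) (nat_lit 33) (nat_lit 0) (@Lb.g g8 (@Lb.g g9 (@Lb.r r1559 (@Lb.r r2376 (@Lb.r r134 (@Lb.d (nat_lit 0) (nat_lit 73) (nat_lit 601) (@Lb.fp (nat_lit 3) t954))))))))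
noncomputable def l36891 : Lb := (@Lb.d (nat_lit 2) (nat_lit 256) (nat_lit 0) (@Lb.g g8 (@Lb.r r273 (@Lb.r r2595 (@Lb.r r2178 (@Lb.r r529 (@Lb.d (nat_lit 322) (nat_lit 0) (nat_lit 581) (@Lb.t (@Lb.fp (nat_lit 3) t271)))))))))
noncomputable def l36892 : Lb := (@Lb.d (nat_lit 0) (nat_lit 262) (nat_lit 74) (@Lb.g g9 (@Lb.g g10 (@Lb.g g11 (@Lb.r r2713 (@Lb.r r1691 (@Lb.r r1178 (@Lb.r r2564 (@Lb.d (nat_lit 345) (nat_lit 168) (nat_lit 336) (@Lb.t (@Lb.fm (nat_lit 9) t3113)))))))))))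
noncomputable def l36893 : Lb := (@Lb.r r331 (@Lb.d (nat_lit 32) (nat_lit 545) (nat_lit 2) (@Lb.g g8 (@Lb.g g9 (@Lb.g g10 (@Lb.r r2579 (@Lb.r r2626 (@Lb.r r2468 (@Lb.d (nat_lit 166) (nat_lit 24) (nat_lit 550) (@Lb.t (@Lb.fp (nat_lit 9) t800)))))))))))
noncomputable def l36894 : Lb := (@Lb.d (nat_lit 421) (nat_lit 533) (nat_lit 22) (@Lb.r r2116 (@Lb.r r666 (@Lb.r r404 (@Lb.r r2385 (@Lb.g g7 (@Lb.g g6 (@Lb.g g5 (@Lb.g g4 (@Lb.d (nat_lit 1) (nat_lit 0) (nat_lit 134) (@Lb.fm (nat_lit 9) t1916)))))))))))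
noncomputable def l36895 : Lb := (@Lb.d (nat_lit 2) (nat_lit 36) (nat_lit 0) (@Lb.g g8 (@Lb.g g9 (@Lb.g g10 (@Lb.r r275 (@Lb.r r1194 (@Lb.r r2593 (@Lb.r r2436 (@Lb.d (nat_lit 105) (nat_lit 144) (nat_lit 154) (@Lb.t (@Lb.fm (nat_lit 9) t5755)))))))))))
noncomputable def l36896 : Lb := (@Lb.r r331 (@Lb.d (nat_lit 137) (nat_lit 518) (nat_lit 0) (@Lb.g g8 (@Lb.g g9 (@Lb.g g10 (@Lb.r r2193 (@Lb.r r1682 (@Lb.r r407 (@Lb.r r2596 (@Lb.d (nat_lit 296) (nat_lit 146) (nat_lit 18) (@Lb.t (@Lb.fp (nat_lit 9) t5942))))))))))))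
noncomputable def l36897 : Lb := (@Lb.d (nat_lit 273) (nat_lit 516) (nat_lit 72) (@Lb.g g4 (@Lb.g g9 (@Lb.g g10 (@Lb.g g11 (@Lb.r r1683 (@Lb.r r2405 (@Lb.r r2390 (@Lb.d (nat_lit 618) (nat_lit 148) (nat_lit 678) (@Lb.fm (nat_lit 9) t68))))))))))
noncomputable def l36898 : Lb := (@Lb.d (nat_lit 2) (nat_lit 36) (nat_lit 64) (@Lb.g g8 (@Lb.g g9 (@Lb.g g10 (@Lb.g g11 (@Lb.r r1451 (@Lb.r r578 (@Lb.r r1313 (@Lb.d (nat_lit 409) (nat_lit 149) (nat_lit 68) (@Lb.fm (nat_lit 9) t1444))))))))))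
noncomputable def l36899 : Lb := (@Lb.r r82 (@Lb.d (nat_lit 4) (nat_lit 0) (nat_lit 128) (@Lb.g g8 (@Lb.g g9 (@Lb.g g11 (@Lb.r r1571 (@Lb.r r1450 (@Lb.r r2088 (@Lb.r r1561 (@Lb.d (nat_lit 25) (nat_lit 33) (nat_lit 293) (@Lb.t (@Lb.fp (nat_lit 9) t6503))))))))))))
noncomputable def l36900 : Lb := (@Lb.d (nat_lit 129) (nat_lit 266) (nat_lit 0) (@Lb.g g8 (@Lb.g g9 (@Lb.r r1687 (@Lb.r r594 (@Lb.r r417 (@Lb.r r2120 (@Lb.d (nat_lit 297) (nat_lit 134) (nat_lit 169) (@Lb.fp (nat_lit 3) t210)))))))))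
noncomputable def l36901 : Lb := (@Lb.d (nat_lit 130) (nat_lit 516) (nat_lit 74) (@Lb.g g8 (@Lb.g g9 (@Lb.g g10 (@Lb.g g11 (@Lb.r r683 (@Lb.r r2724 (@Lb.r r1158 (@Lb.r r97 (@Lb.d (nat_lit 33) (nat_lit 105) (nat_lit 673) (@Lb.fm (nat_lit 9) t1144)))))))))))
noncomputable def l36902 : Lb := (@Lb.d (nat_lit 85) (nat_lit 614) (nat_lit 416) (@Lb.r r277 (@Lb.r r2134 (@Lb.r r1448 (@Lb.g g11 (@Lb.g g6 (@Lb.g g5 (@Lb.d (nat_lit 0) (nat_lit 37) (nat_lit 265) (@Lb.t (@Lb.fp (nat_lit 9) t6504))))))))))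
noncomputable def l36903 : Lb := (@Lb.d (nat_lit 405) (nat_lit 646) (nat_lit 132) (@Lb.r r2069 (@Lb.r r2134 (@Lb.r r1448 (@Lb.g g11 (@Lb.g g6 (@Lb.g g5 (@Lb.g g4 (@Lb.d (nat_lit 0) (nat_lit 32) (nat_lit 390) (@Lb.fp (nat_lit 9) t2229))))))))))
noncomputable def l36904 : Lb := (@Lb.d (nat_lit 0) (nat_lit 32) (nat_lit 136) (@Lb.g g11 (@Lb.r r362 (@Lb.r r1385 (@Lb.r r2408 (@Lb.r r1431 (@Lb.d (nat_lit 358) (nat_lit 90) (nat_lit 537) (@Lb.t (@Lb.fp (nat_lit 3) t1558)))))))))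
noncomputable def l36905 : Lb := (@Lb.d (nat_lit 128) (nat_lit 258) (nat_lit 74) (@Lb.g g9 (@Lb.g g10 (@Lb.g g11 (@Lb.r r1194 (@Lb.r r2453 (@Lb.r r280 (@Lb.r r423 (@Lb.d (nat_lit 298) (nat_lit 164) (nat_lit 261) (@Lb.t (@Lb.fm (nat_lit 9) t284)))))))))))
noncomputable def l36906 : Lb := (@Lb.d (nat_lit 154) (nat_lit 516) (nat_lit 130) (@Lb.r r619 (@Lb.r r660 (@Lb.r r89 (@Lb.r r166 (@Lb.g g7 (@Lb.g g4 (@Lb.d (nat_lit 5) (nat_lit 16) (nat_lit 0) (@Lb.fm (nat_lit 3) t167)))))))))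
noncomputable def l36907 : Lb := (@Lb.g g4 (@Lb.r r273 (@Lb.r r551 (@Lb.r r340 (@Lb.r r170 (@Lb.r r153 (@Lb.d (nat_lit 538) (nat_lit 522) (nat_lit 84) (@Lb.t (@Lb.fm (nat_lit 3) t516)))))))))
noncomputable def l36908 : Lb := (@Lb.d (nat_lit 0) (nat_lit 265) (nat_lit 74) (@Lb.r r402 (@Lb.g g11 (@Lb.g g9 (@Lb.g g4 (@Lb.d (nat_lit 1) (nat_lit 10) (nat_lit 0) (@Lb.t (@Lb.fm (nat_lit 9) t1176))))))))
noncomputable def l36909 : Lb := (@Lb.d (nat_lit 0) (nat_lit 96) (nat_lit 128) (@Lb.r r1617 (@Lb.r r354 (@Lb.g g11 (@Lb.g g5 (@Lb.g g4 (@Lb.d (nat_lit 1) (nat_lit 5) (nat_lit 128) (@Lb.t (@Lb.fm (nat_lit 9) t296)))))))))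
noncomputable def l36910 : Lb := (@Lb.d (nat_lit 64) (nat_lit 549) (nat_lit 266) (@Lb.g g9 (@Lb.g g10 (@Lb.g g7 (@Lb.r r2440 (@Lb.r r90 (@Lb.r r2469 (@Lb.d (nat_lit 406) (nat_lit 72) (nat_lit 90) (@Lb.t (@Lb.fp (nat_lit 9) t491))))))))))
noncomputable def l36911 : Lb := (@Lb.d (nat_lit 2) (nat_lit 2) (nat_lit 66) (@Lb.g g8 (@Lb.g g9 (@Lb.g g10 (@Lb.g g7 (@Lb.r r297 (@Lb.r r104 (@Lb.r r70 (@Lb.r r132 (@Lb.d (nat_lit 257) (nat_lit 10) (nat_lit 521) (@Lb.fm (nat_lit 9) t242)))))))))))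
noncomputable def l36912 : Lb := (@Lb.d (nat_lit 130) (nat_lit 6) (nat_lit 401) (@Lb.r r597 (@Lb.r r678 (@Lb.r r600 (@Lb.r r1703 (@Lb.g g11 (@Lb.g g6 (@Lb.g g5 (@Lb.t (@Lb.fp (nat_lit 9) t6505))))))))))
noncomputable def l36913 : Lb := (@Lb.r r323 (@Lb.d (nat_lit 2) (nat_lit 2) (nat_lit 2) (@Lb.g g8 (@Lb.g g9 (@Lb.g g10 (@Lb.r r1363 (@Lb.r r2217 (@Lb.r r2212 (@Lb.r r2662 (@Lb.d (nat_lit 660) (nat_lit 100) (nat_lit 85) (@Lb.t (@Lb.fp (nat_lit 9) t2114))))))))))))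
noncomputable def l36914 : Lb := (@Lb.d (nat_lit 2) (nat_lit 10) (nat_lit 128) (@Lb.g g8 (@Lb.g g9 (@Lb.g g11 (@Lb.r r2450 (@Lb.r r2659 (@Lb.r r2665 (@Lb.r r36 (@Lb.d (nat_lit 73) (nat_lit 2) (nat_lit 256) (@Lb.t (@Lb.fp (nat_lit 9) t564)))))))))))
noncomputable def l36915 : Lb := (@Lb.d (nat_lit 8) (nat_lit 266) (nat_lit 66) (@Lb.g g9 (@Lb.g g10 (@Lb.g g11 (@Lb.r r1304 (@Lb.r r359 (@Lb.r r678 (@Lb.r r1109 (@Lb.d (nat_lit 586) (nat_lit 69) (nat_lit 514) (@Lb.t (@Lb.fm (nat_lit 9) t1031)))))))))))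
noncomputable def l36916 : Lb := (@Lb.d (nat_lit 41) (nat_lit 256) (nat_lit 0) (@Lb.g g8 (@Lb.r r2213 (@Lb.r r1190 (@Lb.r r2388 (@Lb.r r1291 (@Lb.d (nat_lit 2) (nat_lit 22) (nat_lit 646) (@Lb.t (@Lb.fp (nat_lit 3) t322)))))))))
noncomputable def l36917 : Lb := (@Lb.r r289 (@Lb.r r535 (@Lb.r r356 (@Lb.r r154 (@Lb.d (nat_lit 5) (nat_lit 512) (nat_lit 0) (@Lb.fm (nat_lit 1) t285))))))
noncomputable def l36918 : Lb := (@Lb.d (nat_lit 674) (nat_lit 256) (nat_lit 257) (@Lb.r r587 (@Lb.r r2442 (@Lb.r r2468 (@Lb.r r2389 (@Lb.g g7 (@Lb.d (nat_lit 0) (nat_lit 16) (nat_lit 128) (@Lb.t (@Lb.fm (nat_lit 3) t4337)))))))))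
noncomputable def l36919 : Lb := (@Lb.d (nat_lit 1) (nat_lit 0) (nat_lit 73) (@Lb.g g8 (@Lb.g g10 (@Lb.g g11 (@Lb.r r2345 (@Lb.r r535 (@Lb.r r2468 (@Lb.r r2438 (@Lb.d (nat_lit 162) (nat_lit 5) (nat_lit 70) (@Lb.t (@Lb.fp (nat_lit 9) t6348)))))))))))
noncomputable def l36920 : Lb := (@Lb.d (nat_lit 4) (nat_lit 2) (nat_lit 168) (@Lb.r r609 (@Lb.r r619 (@Lb.r r584 (@Lb.g g6 (@Lb.d (nat_lit 16) (nat_lit 0) (nat_lit 1) (@Lb.r r387 (@Lb.t (@Lb.fp (nat_lit 3) t68)))))))))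
noncomputable def l36921 : Lb := (@Lb.d (nat_lit 33) (nat_lit 512) (nat_lit 0) (@Lb.g g8 (@Lb.r r609 (@Lb.r r1379 (@Lb.r r582 (@Lb.r r2180 (@Lb.d (nat_lit 290) (nat_lit 162) (nat_lit 601) (@Lb.t (@Lb.fm (nat_lit 3) t351)))))))))
noncomputable def l36922 : Lb := (@Lb.d (nat_lit 36) (nat_lit 266) (nat_lit 136) (@Lb.r r609 (@Lb.r r2726 (@Lb.r r363 (@Lb.r r328 (@Lb.g g7 (@Lb.g g6 (@Lb.d (nat_lit 16) (nat_lit 0) (nat_lit 128) (@Lb.fp (nat_lit 3) t731)))))))))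
noncomputable def l36923 : Lb := (@Lb.d (nat_lit 1) (nat_lit 256) (nat_lit 73) (@Lb.g g8 (@Lb.g g10 (@Lb.g g11 (@Lb.r r2691 (@Lb.r r1642 (@Lb.r r2152 (@Lb.r r2073 (@Lb.d (nat_lit 593) (nat_lit 22) (nat_lit 146) (@Lb.t (@Lb.fm (nat_lit 9) t5889)))))))))))
noncomputable def l36924 : Lb := (@Lb.d (nat_lit 144) (nat_lit 600) (nat_lit 650) (@Lb.r r1604 (@Lb.r r402 (@Lb.r r89 (@Lb.g g9 (@Lb.g g4 (@Lb.fm (nat_lit 3) t6506)))))))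
noncomputable def l36925 : Lb := (@Lb.d (nat_lit 64) (nat_lit 512) (nat_lit 21) (@Lb.r r1045 (@Lb.r r646 (@Lb.r r2439 (@Lb.r r644 (@Lb.g g7 (@Lb.g g6 (@Lb.d (nat_lit 16) (nat_lit 0) (nat_lit 128) (@Lb.fp (nat_lit 3) t2550)))))))))
noncomputable def l36926 : Lb := (@Lb.r r20 (@Lb.d (nat_lit 32) (nat_lit 545) (nat_lit 130) (@Lb.g g5 (@Lb.g g10 (@Lb.g g11 (@Lb.r r100 (@Lb.r r1610 (@Lb.r r1635 (@Lb.d (nat_lit 392) (nat_lit 16) (nat_lit 672) (@Lb.t (@Lb.fm (nat_lit 9) t645)))))))))))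
noncomputable def l36927 : Lb := (@Lb.r r1045 (@Lb.d (nat_lit 2) (nat_lit 256) (nat_lit 2) (@Lb.g g8 (@Lb.g g10 (@Lb.r r395 (@Lb.r r386 (@Lb.r r72 (@Lb.d (nat_lit 290) (nat_lit 0) (nat_lit 664) (@Lb.fm (nat_lit 3) t873)))))))))
noncomputable def l36928 : Lb := (@Lb.d (nat_lit 149) (nat_lit 1) (nat_lit 600) (@Lb.r r596 (@Lb.r r1121 (@Lb.r r583 (@Lb.r r410 (@Lb.g g4 (@Lb.d (nat_lit 65) (nat_lit 0) (nat_lit 0) (@Lb.t (@Lb.fp (nat_lit 3) t2649)))))))))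
noncomputable def l36929 : Lb := (@Lb.d (nat_lit 2) (nat_lit 521) (nat_lit 72) (@Lb.g g8 (@Lb.g g9 (@Lb.g g10 (@Lb.g g11 (@Lb.r r2729 (@Lb.r r615 (@Lb.r r388 (@Lb.r r406 (@Lb.d (nat_lit 297) (nat_lit 86) (nat_lit 345) (@Lb.fm (nat_lit 9) t4885)))))))))))
noncomputable def l36930 : Lb := (@Lb.d (nat_lit 132) (nat_lit 514) (nat_lit 73) (@Lb.g g8 (@Lb.g g9 (@Lb.g g10 (@Lb.g g11 (@Lb.r r1443 (@Lb.r r100 (@Lb.r r2650 (@Lb.r r2453 (@Lb.r r1060 (@Lb.d (nat_lit 346) (nat_lit 137) (nat_lit 393) (@Lb.fp (nat_lit 9) t6010))))))))))))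
noncomputable def l36931 : Lb := (@Lb.d (nat_lit 0) (nat_lit 520) (nat_lit 130) (@Lb.g g10 (@Lb.g g11 (@Lb.r r387 (@Lb.r r24 (@Lb.r r101 (@Lb.d (nat_lit 26) (nat_lit 138) (nat_lit 102) (@Lb.fm (nat_lit 3) t232))))))))
noncomputable def l36932 : Lb := (@Lb.d (nat_lit 132) (nat_lit 514) (nat_lit 130) (@Lb.g g8 (@Lb.g g9 (@Lb.g g10 (@Lb.g g11 (@Lb.r r618 (@Lb.r r612 (@Lb.r r1319 (@Lb.r r405 (@Lb.r r36 (@Lb.d (nat_lit 96) (nat_lit 9) (nat_lit 409) (@Lb.fp (nat_lit 9) t3725))))))))))))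
noncomputable def l36933 : Lb := (@Lb.d (nat_lit 0) (nat_lit 264) (nat_lit 130) (@Lb.g g10 (@Lb.g g11 (@Lb.r r387 (@Lb.r r24 (@Lb.r r101 (@Lb.d (nat_lit 26) (nat_lit 138) (nat_lit 168) (@Lb.fm (nat_lit 3) t232))))))))
noncomputable def l36934 : Lb := (@Lb.d (nat_lit 0) (nat_lit 258) (nat_lit 130) (@Lb.g g9 (@Lb.g g10 (@Lb.g g11 (@Lb.r r586 (@Lb.r r584 (@Lb.r r1323 (@Lb.r r1433 (@Lb.d (nat_lit 514) (nat_lit 138) (nat_lit 258) (@Lb.t (@Lb.fp (nat_lit 9) t1022)))))))))))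
noncomputable def l36935 : Lb := (@Lb.d (nat_lit 0) (nat_lit 512) (nat_lit 130) (@Lb.g g10 (@Lb.g g11 (@Lb.r r586 (@Lb.r r584 (@Lb.r r619 (@Lb.r r537 (@Lb.d (nat_lit 585) (nat_lit 169) (nat_lit 598) (@Lb.fm (nat_lit 3) t822)))))))))
noncomputable def l36936 : Lb := (@Lb.r r277 (@Lb.d (nat_lit 517) (nat_lit 8) (nat_lit 2) (@Lb.g g8 (@Lb.g g10 (@Lb.g g11 (@Lb.r r1411 (@Lb.r r101 (@Lb.r r1434 (@Lb.d (nat_lit 26) (nat_lit 149) (nat_lit 393) (@Lb.t (@Lb.fm (nat_lit 9) t3725)))))))))))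
noncomputable def l36937 : Lb := (@Lb.d (nat_lit 358) (nat_lit 64) (nat_lit 5) (@Lb.r r24 (@Lb.r r358 (@Lb.r r1381 (@Lb.g g7 (@Lb.g g6 (@Lb.d (nat_lit 0) (nat_lit 4) (nat_lit 134) (@Lb.fm (nat_lit 3) t6507))))))))
noncomputable def l36938 : Lb := (@Lb.d (nat_lit 0) (nat_lit 0) (nat_lit 130) (@Lb.g g10 (@Lb.g g11 (@Lb.r r2691 (@Lb.r r2658 (@Lb.d (nat_lit 0) (nat_lit 37) (nat_lit 297) (@Lb.fp (nat_lit 3) t71)))))))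
noncomputable def l36939 : Lb := (@Lb.d (nat_lit 538) (nat_lit 256) (nat_lit 130) (@Lb.g g8 (@Lb.g g10 (@Lb.g g11 (@Lb.r r1667 (@Lb.r r1634 (@Lb.d (nat_lit 0) (nat_lit 165) (nat_lit 665) (@Lb.t (@Lb.fp (nat_lit 9) t3687)))))))))
noncomputable def l36940 : Lb := (@Lb.d (nat_lit 16) (nat_lit 10) (nat_lit 66) (@Lb.g g8 (@Lb.g g9 (@Lb.g g10 (@Lb.g g11 (@Lb.r r2201 (@Lb.r r644 (@Lb.r r295 (@Lb.r r1170 (@Lb.r r516 (@Lb.d (nat_lit 5) (nat_lit 72) (nat_lit 162) (@Lb.fm (nat_lit 9) t979))))))))))))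
noncomputable def l36941 : Lb := (@Lb.d (nat_lit 417) (nat_lit 5) (nat_lit 405) (@Lb.r r1094 (@Lb.r r2196 (@Lb.r r1321 (@Lb.g g11 (@Lb.g g6 (@Lb.g g4 (@Lb.d (nat_lit 1) (nat_lit 0) (nat_lit 129) (@Lb.t (@Lb.fp (nat_lit 9) t4892))))))))))
noncomputable def l36942 : Lb := (@Lb.d (nat_lit 536) (nat_lit 529) (nat_lit 86) (@Lb.r r386 (@Lb.r r339 (@Lb.g g7 (@Lb.g g6 (@Lb.g g5 (@Lb.d (nat_lit 0) (nat_lit 0) (nat_lit 65) (@Lb.t (@Lb.fm (nat_lit 9) t6508)))))))))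
noncomputable def l36943 : Lb := (@Lb.d (nat_lit 64) (nat_lit 512) (nat_lit 64) (@Lb.g g11 (@Lb.r r644 (@Lb.r r1350 (@Lb.r r2715 (@Lb.r r2341 (@Lb.d (nat_lit 256) (nat_lit 5) (nat_lit 34) (@Lb.t (@Lb.fp (nat_lit 3) t1082)))))))))
noncomputable def l36944 : Lb := (@Lb.d (nat_lit 2) (nat_lit 2) (nat_lit 73) (@Lb.g g8 (@Lb.g g9 (@Lb.g g10 (@Lb.g g11 (@Lb.r r2691 (@Lb.r r297 (@Lb.r r360 (@Lb.r r582 (@Lb.r r2180 (@Lb.d (nat_lit 641) (nat_lit 10) (nat_lit 424) (@Lb.fm (nat_lit 9) t1396))))))))))))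
noncomputable def l36945 : Lb := (@Lb.d (nat_lit 0) (nat_lit 520) (nat_lit 66) (@Lb.g g10 (@Lb.g g11 (@Lb.r r2385 (@Lb.r r2467 (@Lb.r r1378 (@Lb.d (nat_lit 0) (nat_lit 105) (nat_lit 389) (@Lb.fm (nat_lit 3) t322))))))))
noncomputable def l36946 : Lb := (@Lb.r r82 (@Lb.d (nat_lit 2) (nat_lit 546) (nat_lit 64) (@Lb.g g8 (@Lb.g g9 (@Lb.g g11 (@Lb.r r2713 (@Lb.r r658 (@Lb.r r2435 (@Lb.d (nat_lit 617) (nat_lit 4) (nat_lit 149) (@Lb.t (@Lb.fp (nat_lit 9) t823)))))))))))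
noncomputable def l36947 : Lb := (@Lb.d (nat_lit 0) (nat_lit 544) (nat_lit 72) (@Lb.g g8 (@Lb.g g11 (@Lb.r r2402 (@Lb.r r353 (@Lb.r r1427 (@Lb.d (nat_lit 0) (nat_lit 80) (nat_lit 410) (@Lb.fp (nat_lit 3) t322))))))))
noncomputable def l36948 : Lb := (@Lb.d (nat_lit 0) (nat_lit 514) (nat_lit 0) (@Lb.g g9 (@Lb.r r2339 (@Lb.r r2146 (@Lb.r r97 (@Lb.d (nat_lit 292) (nat_lit 74) (nat_lit 18) (@Lb.t (@Lb.fm (nat_lit 3) t410))))))))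
noncomputable def l36949 : Lb := (@Lb.r r405 (@Lb.r r82 (@Lb.r r1169 (@Lb.d (nat_lit 256) (nat_lit 512) (nat_lit 512) (@Lb.fp (nat_lit 1) t3853)))))
noncomputable def l36950 : Lb := (@Lb.d (nat_lit 72) (nat_lit 33) (nat_lit 0) (@Lb.r r1284 (@Lb.r r2138 (@Lb.r r2587 (@Lb.r r293 (@Lb.g g7 (@Lb.d (nat_lit 0) (nat_lit 0) (nat_lit 64) (@Lb.t (@Lb.fm (nat_lit 3) t199)))))))))
noncomputable def l36951 : Lb := (@Lb.d (nat_lit 650) (nat_lit 658) (nat_lit 576) (@Lb.r r346 (@Lb.r r539 (@Lb.r r532 (@Lb.r r277 (@Lb.g g7 (@Lb.d (nat_lit 64) (nat_lit 0) (nat_lit 128) (@Lb.t (@Lb.fp (nat_lit 3) t162)))))))))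
noncomputable def l36952 : Lb := (@Lb.d (nat_lit 0) (nat_lit 264) (nat_lit 2) (@Lb.g g10 (@Lb.r r101 (@Lb.r r24 (@Lb.d (nat_lit 548) (nat_lit 64) (nat_lit 34) (@Lb.t (@Lb.fp (nat_lit 3) t2074)))))))
noncomputable def l36953 : Lb := (@Lb.d (nat_lit 34) (nat_lit 544) (nat_lit 0) (@Lb.g g4 (@Lb.g g11 (@Lb.r r2122 (@Lb.r r2644 (@Lb.r r281 (@Lb.r r1447 (@Lb.d (nat_lit 352) (nat_lit 73) (nat_lit 648) (@Lb.fp (nat_lit 3) t654)))))))))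
noncomputable def l36954 : Lb := (@Lb.d (nat_lit 25) (nat_lit 354) (nat_lit 596) (@Lb.r r24 (@Lb.r r2661 (@Lb.r r2659 (@Lb.g g7 (@Lb.g g10 (@Lb.g g5 (@Lb.d (nat_lit 32) (nat_lit 5) (nat_lit 130) (@Lb.t (@Lb.fp (nat_lit 9) t6509))))))))))
noncomputable def l36955 : Lb := (@Lb.d (nat_lit 16) (nat_lit 265) (nat_lit 2) (@Lb.g g8 (@Lb.g g9 (@Lb.g g10 (@Lb.g g11 (@Lb.r r1667 (@Lb.r r1321 (@Lb.r r360 (@Lb.r r1606 (@Lb.r r132 (@Lb.d (nat_lit 386) (nat_lit 138) (nat_lit 601) (@Lb.fm (nat_lit 9) t1161))))))))))))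
noncomputable def l36956 : Lb := (@Lb.d (nat_lit 134) (nat_lit 0) (nat_lit 257) (@Lb.r r101 (@Lb.g g11 (@Lb.g g6 (@Lb.d (nat_lit 64) (nat_lit 4) (nat_lit 513) (@Lb.fm (nat_lit 3) t4258))))))
noncomputable def l36957 : Lb := (@Lb.d (nat_lit 2) (nat_lit 2) (nat_lit 136) (@Lb.g g8 (@Lb.g g9 (@Lb.g g11 (@Lb.r r1194 (@Lb.r r1700 (@Lb.r r1447 (@Lb.r r1425 (@Lb.d (nat_lit 9) (nat_lit 88) (nat_lit 384) (@Lb.t (@Lb.fp (nat_lit 9) t479)))))))))))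
noncomputable def l36958 : Lb := (@Lb.d (nat_lit 536) (nat_lit 521) (nat_lit 256) (@Lb.r r168 (@Lb.r r89 (@Lb.r r402 (@Lb.g g11 (@Lb.g g6 (@Lb.g g4 (@Lb.d (nat_lit 5) (nat_lit 0) (nat_lit 128) (@Lb.t (@Lb.fm (nat_lit 9) t6510))))))))))
noncomputable def l36959 : Lb := (@Lb.d (nat_lit 257) (nat_lit 256) (nat_lit 102) (@Lb.r r101 (@Lb.r r24 (@Lb.r r323 (@Lb.g g7 (@Lb.g g6 (@Lb.d (nat_lit 0) (nat_lit 4) (nat_lit 65) (@Lb.fm (nat_lit 3) t2219))))))))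
noncomputable def l36960 : Lb := (@Lb.d (nat_lit 2) (nat_lit 34) (nat_lit 0) (@Lb.g g8 (@Lb.g g9 (@Lb.r r2571 (@Lb.r r2178 (@Lb.r r1188 (@Lb.r r2389 (@Lb.d (nat_lit 102) (nat_lit 97) (nat_lit 132) (@Lb.fm (nat_lit 3) t6511)))))))))
noncomputable def l36961 : Lb := (@Lb.d (nat_lit 392) (nat_lit 584) (nat_lit 290) (@Lb.r r1178 (@Lb.r r1160 (@Lb.r r2345 (@Lb.r r2707 (@Lb.g g7 (@Lb.g g6 (@Lb.g g4 (@Lb.d (nat_lit 1) (nat_lit 0) (nat_lit 133) (@Lb.t (@Lb.fp (nat_lit 9) t6512)))))))))))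
noncomputable def l36962 : Lb := (@Lb.d (nat_lit 97) (nat_lit 593) (nat_lit 644) (@Lb.r r583 (@Lb.r r2452 (@Lb.r r1129 (@Lb.g g7 (@Lb.g g10 (@Lb.g g4 (@Lb.d (nat_lit 1) (nat_lit 24) (nat_lit 82) (@Lb.r r145 (@Lb.t (@Lb.fm (nat_lit 9) t145)))))))))))
noncomputable def l36963 : Lb := (@Lb.r r70 (@Lb.d (nat_lit 132) (nat_lit 576) (nat_lit 136) (@Lb.g g8 (@Lb.g g9 (@Lb.g g11 (@Lb.r r1124 (@Lb.r r74 (@Lb.d (nat_lit 546) (nat_lit 137) (nat_lit 17) (@Lb.t (@Lb.fm (nat_lit 9) t3197))))))))))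
noncomputable def l36964 : Lb := (@Lb.r r70 (@Lb.d (nat_lit 34) (nat_lit 258) (nat_lit 0) (@Lb.g g8 (@Lb.g g9 (@Lb.r r2665 (@Lb.r r2454 (@Lb.r r1371 (@Lb.r r1364 (@Lb.d (nat_lit 401) (nat_lit 22) (nat_lit 133) (@Lb.fm (nat_lit 3) t1399))))))))))
noncomputable def l36965 : Lb := (@Lb.d (nat_lit 0) (nat_lit 2) (nat_lit 73) (@Lb.g g8 (@Lb.g g9 (@Lb.g g10 (@Lb.g g11 (@Lb.r r619 (@Lb.r r1610 (@Lb.r r660 (@Lb.r r425 (@Lb.r r2084 (@Lb.d (nat_lit 277) (nat_lit 104) (nat_lit 617) (@Lb.fp (nat_lit 9) t3578))))))))))))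
noncomputable def l36966 : Lb := (@Lb.d (nat_lit 160) (nat_lit 256) (nat_lit 72) (@Lb.g g8 (@Lb.g g9 (@Lb.g g11 (@Lb.r r1346 (@Lb.r r663 (@Lb.r r1305 (@Lb.r r2328 (@Lb.d (nat_lit 137) (nat_lit 25) (nat_lit 657) (@Lb.t (@Lb.fm (nat_lit 9) t1952)))))))))))
noncomputable def l36967 : Lb := (@Lb.d (nat_lit 18) (nat_lit 106) (nat_lit 25) (@Lb.r r1638 (@Lb.r r2661 (@Lb.r r2667 (@Lb.r r516 (@Lb.g g7 (@Lb.g g6 (@Lb.d (nat_lit 80) (nat_lit 4) (nat_lit 64) (@Lb.fm (nat_lit 3) t1952)))))))))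
noncomputable def l36968 : Lb := (@Lb.r r2311 (@Lb.r r2118 (@Lb.r r24 (@Lb.r r149 (@Lb.d (nat_lit 0) (nat_lit 101) (nat_lit 277) (@Lb.fm (nat_lit 1) t500))))))
noncomputable def l36969 : Lb := (@Lb.r r2311 (@Lb.r r24 (@Lb.d (nat_lit 64) (nat_lit 160) (nat_lit 256) (@Lb.fm (nat_lit 1) t6513))))
noncomputable def l36970 : Lb := (@Lb.d (nat_lit 9) (nat_lit 514) (nat_lit 130) (@Lb.g g8 (@Lb.g g9 (@Lb.g g10 (@Lb.g g11 (@Lb.r r2475 (@Lb.r r1386 (@Lb.r r1305 (@Lb.r r2308 (@Lb.d (nat_lit 73) (nat_lit 137) (nat_lit 673) (@Lb.fp (nat_lit 9) t6514)))))))))))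
noncomputable def l36971 : Lb := (@Lb.d (nat_lit 136) (nat_lit 386) (nat_lit 256) (@Lb.r r24 (@Lb.r r2138 (@Lb.r r2331 (@Lb.g g9 (@Lb.d (nat_lit 8) (nat_lit 2) (nat_lit 0) (@Lb.t (@Lb.fm (nat_lit 3) t1))))))))
noncomputable def l36972 : Lb := (@Lb.d (nat_lit 154) (nat_lit 258) (nat_lit 74) (@Lb.g g8 (@Lb.g g9 (@Lb.g g10 (@Lb.g g11 (@Lb.r r2459 (@Lb.r r1122 (@Lb.r r297 (@Lb.r r1320 (@Lb.d (nat_lit 422) (nat_lit 100) (nat_lit 400) (@Lb.fp (nat_lit 9) t1444)))))))))))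
noncomputable def l36973 : Lb := (@Lb.d (nat_lit 0) (nat_lit 276) (nat_lit 584) (@Lb.g g10 (@Lb.g g7 (@Lb.d (nat_lit 0) (nat_lit 73) (nat_lit 150) (@Lb.fp (nat_lit 3) t2166)))))
noncomputable def l36974 : Lb := (@Lb.d (nat_lit 2) (nat_lit 2) (nat_lit 130) (@Lb.g g8 (@Lb.g g9 (@Lb.g g10 (@Lb.g g11 (@Lb.r r427 (@Lb.r r324 (@Lb.r r2218 (@Lb.r r1193 (@Lb.r r1188 (@Lb.d (nat_lit 609) (nat_lit 66) (nat_lit 544) (@Lb.fp (nat_lit 9) t386))))))))))))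
noncomputable def l36975 : Lb := (@Lb.d (nat_lit 0) (nat_lit 401) (nat_lit 33) (@Lb.r r386 (@Lb.r r339 (@Lb.g g7 (@Lb.g g6 (@Lb.g g5 (@Lb.d (nat_lit 0) (nat_lit 0) (nat_lit 129) (@Lb.t (@Lb.fm (nat_lit 9) t69)))))))))
noncomputable def l36976 : Lb := (@Lb.d (nat_lit 262) (nat_lit 614) (nat_lit 260) (@Lb.r r21 (@Lb.r r1640 (@Lb.r r1643 (@Lb.g g7 (@Lb.g g10 (@Lb.g g5 (@Lb.g g4 (@Lb.d (nat_lit 17) (nat_lit 1) (nat_lit 66) (@Lb.fm (nat_lit 9) t468))))))))))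
noncomputable def l36977 : Lb := (@Lb.d (nat_lit 128) (nat_lit 0) (nat_lit 128) (@Lb.g g8 (@Lb.g g11 (@Lb.r r2340 (@Lb.r r2331 (@Lb.d (nat_lit 518) (nat_lit 64) (nat_lit 384) (@Lb.fm (nat_lit 3) t828)))))))
noncomputable def l36978 : Lb := (@Lb.g g8 (@Lb.g g7 (@Lb.r r1291 (@Lb.d (nat_lit 522) (nat_lit 514) (nat_lit 0) (@Lb.fp (nat_lit 3) t441)))))
noncomputable def l36979 : Lb := (@Lb.r r82 (@Lb.d (nat_lit 4) (nat_lit 0) (nat_lit 0) (@Lb.g g8 (@Lb.g g9 (@Lb.r r1114 (@Lb.r r2085 (@Lb.r r36 (@Lb.d (nat_lit 520) (nat_lit 2) (nat_lit 0) (@Lb.fp (nat_lit 3) t1043)))))))))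
noncomputable def l36980 : Lb := (@Lb.r r21 (@Lb.d (nat_lit 6) (nat_lit 4) (nat_lit 130) (@Lb.g g8 (@Lb.g g10 (@Lb.g g11 (@Lb.r r2713 (@Lb.r r1367 (@Lb.r r2698 (@Lb.d (nat_lit 385) (nat_lit 10) (nat_lit 352) (@Lb.t (@Lb.fp (nat_lit 9) t221)))))))))))
noncomputable def l36981 : Lb := (@Lb.d (nat_lit 2) (nat_lit 0) (nat_lit 2) (@Lb.g g8 (@Lb.g g10 (@Lb.g g7 (@Lb.r r386 (@Lb.r r1640 (@Lb.r r2073 (@Lb.d (nat_lit 8) (nat_lit 100) (nat_lit 132) (@Lb.t (@Lb.fp (nat_lit 9) t3264))))))))))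
noncomputable def l36982 : Lb := (@Lb.d (nat_lit 64) (nat_lit 546) (nat_lit 520) (@Lb.g g9 (@Lb.g g7 (@Lb.r r134 (@Lb.r r1112 (@Lb.r r2085 (@Lb.d (nat_lit 96) (nat_lit 164) (nat_lit 608) (@Lb.fm (nat_lit 3) t3204))))))))
noncomputable def l36983 : Lb := (@Lb.d (nat_lit 0) (nat_lit 545) (nat_lit 66) (@Lb.g g9 (@Lb.g g10 (@Lb.g g11 (@Lb.r r582 (@Lb.r r388 (@Lb.r r267 (@Lb.r r2577 (@Lb.d (nat_lit 129) (nat_lit 150) (nat_lit 32) (@Lb.t (@Lb.fm (nat_lit 9) t4683)))))))))))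
noncomputable def l36984 : Lb := (@Lb.d (nat_lit 657) (nat_lit 522) (nat_lit 324) (@Lb.r r24 (@Lb.r r101 (@Lb.g g8 (@Lb.t (@Lb.fp (nat_lit 3) t1926))))))
noncomputable def l36985 : Lb := (@Lb.d (nat_lit 37) (nat_lit 0) (nat_lit 73) (@Lb.g g8 (@Lb.g g9 (@Lb.g g10 (@Lb.g g11 (@Lb.r r342 (@Lb.r r663 (@Lb.r r2657 (@Lb.r r1560 (@Lb.d (nat_lit 168) (nat_lit 137) (nat_lit 293) (@Lb.fm (nat_lit 9) t2210)))))))))))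
noncomputable def l36986 : Lb := (@Lb.d (nat_lit 682) (nat_lit 324) (nat_lit 288) (@Lb.r r1604 (@Lb.r r297 (@Lb.r r599 (@Lb.g g6 (@Lb.g g5 (@Lb.g g4 (@Lb.d (nat_lit 1) (nat_lit 8) (nat_lit 4) (@Lb.r r387 (@Lb.t (@Lb.fp (nat_lit 9) t4121)))))))))))
noncomputable def l36987 : Lb := (@Lb.d (nat_lit 4) (nat_lit 0) (nat_lit 66) (@Lb.g g8 (@Lb.g g9 (@Lb.g g10 (@Lb.g g7 (@Lb.r r386 (@Lb.r r97 (@Lb.r r2584 (@Lb.d (nat_lit 320) (nat_lit 10) (nat_lit 9) (@Lb.fp (nat_lit 9) t3305))))))))))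
noncomputable def l36988 : Lb := (@Lb.r r82 (@Lb.d (nat_lit 34) (nat_lit 674) (nat_lit 0) (@Lb.g g8 (@Lb.g g9 (@Lb.r r663 (@Lb.r r150 (@Lb.r r100 (@Lb.d (nat_lit 576) (nat_lit 90) (nat_lit 297) (@Lb.fm (nat_lit 3) t4412)))))))))
noncomputable def l36989 : Lb := (@Lb.d (nat_lit 8) (nat_lit 2) (nat_lit 2) (@Lb.g g9 (@Lb.g g10 (@Lb.g g7 (@Lb.r r98 (@Lb.d (nat_lit 2) (nat_lit 9) (nat_lit 0) (@Lb.t (@Lb.fp (nat_lit 9) t354))))))))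
noncomputable def l36990 : Lb := (@Lb.d (nat_lit 0) (nat_lit 512) (nat_lit 2) (@Lb.g g10 (@Lb.g g7 (@Lb.r r386 (@Lb.d (nat_lit 10) (nat_lit 102) (nat_lit 512) (@Lb.fm (nat_lit 3) t1522))))))
noncomputable def l36991 : Lb := (@Lb.d (nat_lit 10) (nat_lit 105) (nat_lit 550) (@Lb.r r1697 (@Lb.r r2371 (@Lb.g g10 (@Lb.g g5 (@Lb.r r291 (@Lb.fm (nat_lit 3) t333)))))))
noncomputable def l36992 : Lb := (@Lb.d (nat_lit 0) (nat_lit 256) (nat_lit 2) (@Lb.g g10 (@Lb.g g7 (@Lb.r r386 (@Lb.d (nat_lit 10) (nat_lit 2) (nat_lit 9) (@Lb.fm (nat_lit 3) t2))))))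
noncomputable def l36993 : Lb := (@Lb.d (nat_lit 41) (nat_lit 0) (nat_lit 0) (@Lb.g g8 (@Lb.r r1173 (@Lb.r r150 (@Lb.r r340 (@Lb.r r1307 (@Lb.d (nat_lit 320) (nat_lit 42) (nat_lit 534) (@Lb.t (@Lb.fm (nat_lit 3) t430)))))))))
noncomputable def l36994 : Lb := (@Lb.d (nat_lit 553) (nat_lit 260) (nat_lit 144) (@Lb.r r1158 (@Lb.r r2132 (@Lb.r r425 (@Lb.g g11 (@Lb.g g6 (@Lb.d (nat_lit 0) (nat_lit 32) (nat_lit 262) (@Lb.r r529 (@Lb.fp (nat_lit 3) t6515)))))))))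
noncomputable def l36995 : Lb := (@Lb.d (nat_lit 9) (nat_lit 257) (nat_lit 66) (@Lb.g g8 (@Lb.g g9 (@Lb.g g10 (@Lb.g g7 (@Lb.r r1442 (@Lb.r r145 (@Lb.r r2120 (@Lb.d (nat_lit 610) (nat_lit 164) (nat_lit 32) (@Lb.fm (nat_lit 9) t5077))))))))))
noncomputable def l36996 : Lb := (@Lb.d (nat_lit 32) (nat_lit 0) (nat_lit 2) (@Lb.g g10 (@Lb.r r72 (@Lb.r r1350 (@Lb.r r2451 (@Lb.r r609 (@Lb.d (nat_lit 274) (nat_lit 10) (nat_lit 18) (@Lb.t (@Lb.fp (nat_lit 3) t334)))))))))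
noncomputable def l36997 : Lb := (@Lb.d (nat_lit 9) (nat_lit 513) (nat_lit 130) (@Lb.g g8 (@Lb.g g9 (@Lb.g g10 (@Lb.g g11 (@Lb.r r2705 (@Lb.r r2707 (@Lb.r r132 (@Lb.r r2118 (@Lb.r r1156 (@Lb.d (nat_lit 329) (nat_lit 33) (nat_lit 98) (@Lb.fm (nat_lit 9) t1035))))))))))))
noncomputable def l36998 : Lb := (@Lb.d (nat_lit 8) (nat_lit 2) (nat_lit 128) (@Lb.g g9 (@Lb.g g10 (@Lb.g g11 (@Lb.r r387 (@Lb.r r1414 (@Lb.r r20 (@Lb.r r105 (@Lb.d (nat_lit 2) (nat_lit 9) (nat_lit 18) (@Lb.t (@Lb.fm (nat_lit 9) t1344)))))))))))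
noncomputable def l36999 : Lb := (@Lb.d (nat_lit 1) (nat_lit 512) (nat_lit 32) (@Lb.r r323 (@Lb.g g10 (@Lb.g g5 (@Lb.d (nat_lit 4) (nat_lit 1) (nat_lit 16) (@Lb.r r387 (@Lb.fp (nat_lit 3) t2)))))))
noncomputable def l37000 : Lb := (@Lb.r r263 (@Lb.d (nat_lit 9) (nat_lit 257) (nat_lit 2) (@Lb.g g8 (@Lb.g g9 (@Lb.g g10 (@Lb.r r2454 (@Lb.r r1367 (@Lb.r r409 (@Lb.r r404 (@Lb.d (nat_lit 101) (nat_lit 146) (nat_lit 545) (@Lb.t (@Lb.fp (nat_lit 9) t719))))))))))))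
noncomputable def l37001 : Lb := (@Lb.d (nat_lit 9) (nat_lit 513) (nat_lit 130) (@Lb.g g8 (@Lb.g g9 (@Lb.g g10 (@Lb.g g11 (@Lb.r r427 (@Lb.r r388 (@Lb.r r2134 (@Lb.r r145 (@Lb.r r1060 (@Lb.d (nat_lit 2) (nat_lit 169) (nat_lit 417) (@Lb.fp (nat_lit 9) t791))))))))))))
noncomputable def l37002 : Lb := (@Lb.d (nat_lit 0) (nat_lit 257) (nat_lit 128) (@Lb.g g9 (@Lb.g g10 (@Lb.g g11 (@Lb.r r387 (@Lb.r r1414 (@Lb.r r40 (@Lb.r r153 (@Lb.d (nat_lit 38) (nat_lit 4) (nat_lit 17) (@Lb.t (@Lb.fm (nat_lit 9) t1344)))))))))))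
noncomputable def l37003 : Lb := (@Lb.d (nat_lit 8) (nat_lit 514) (nat_lit 128) (@Lb.g g9 (@Lb.g g10 (@Lb.g g11 (@Lb.r r387 (@Lb.r r1414 (@Lb.r r20 (@Lb.r r105 (@Lb.d (nat_lit 0) (nat_lit 9) (nat_lit 18) (@Lb.t (@Lb.fm (nat_lit 9) t1344)))))))))))
noncomputable def l37004 : Lb := (@Lb.d (nat_lit 32) (nat_lit 512) (nat_lit 324) (@Lb.g g10 (@Lb.g g7 (@Lb.r r1620 (@Lb.r r409 (@Lb.r r2458 (@Lb.d (nat_lit 24) (nat_lit 154) (nat_lit 354) (@Lb.fm (nat_lit 3) t2634))))))))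
noncomputable def l37005 : Lb := (@Lb.d (nat_lit 662) (nat_lit 80) (nat_lit 513) (@Lb.r r2644 (@Lb.r r2442 (@Lb.r r1367 (@Lb.g g7 (@Lb.g g6 (@Lb.g g5 (@Lb.g g4 (@Lb.d (nat_lit 32) (nat_lit 129) (nat_lit 64) (@Lb.fm (nat_lit 9) t2770))))))))))
noncomputable def l37006 : Lb := (@Lb.r r70 (@Lb.d (nat_lit 162) (nat_lit 2) (nat_lit 72) (@Lb.g g8 (@Lb.g g9 (@Lb.g g11 (@Lb.r r2134 (@Lb.r r345 (@Lb.r r359 (@Lb.r r644 (@Lb.d (nat_lit 160) (nat_lit 0) (nat_lit 165) (@Lb.t (@Lb.fm (nat_lit 9) t74))))))))))))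
noncomputable def l37007 : Lb := (@Lb.d (nat_lit 4) (nat_lit 266) (nat_lit 73) (@Lb.g g8 (@Lb.g g9 (@Lb.g g10 (@Lb.g g11 (@Lb.r r1666 (@Lb.r r1431 (@Lb.r r2585 (@Lb.d (nat_lit 329) (nat_lit 42) (nat_lit 144) (@Lb.fm (nat_lit 9) t1397))))))))))
noncomputable def l37008 : Lb := (@Lb.d (nat_lit 4) (nat_lit 264) (nat_lit 73) (@Lb.g g8 (@Lb.g g9 (@Lb.g g10 (@Lb.g g11 (@Lb.r r1666 (@Lb.r r2455 (@Lb.r r1561 (@Lb.d (nat_lit 585) (nat_lit 170) (nat_lit 400) (@Lb.fm (nat_lit 9) t1397))))))))))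
noncomputable def l37009 : Lb := (@Lb.d (nat_lit 144) (nat_lit 2) (nat_lit 64) (@Lb.g g8 (@Lb.g g9 (@Lb.g g10 (@Lb.g g11 (@Lb.r r387 (@Lb.r r1177 (@Lb.r r2450 (@Lb.r r2632 (@Lb.d (nat_lit 73) (nat_lit 4) (nat_lit 425) (@Lb.fp (nat_lit 9) t4221)))))))))))
noncomputable def l37010 : Lb := (@Lb.d (nat_lit 256) (nat_lit 602) (nat_lit 72) (@Lb.r r21 (@Lb.r r2664 (@Lb.r r386 (@Lb.g g11 (@Lb.g g6 (@Lb.g g5 (@Lb.g g4 (@Lb.d (nat_lit 1) (nat_lit 1) (nat_lit 1) (@Lb.fm (nat_lit 9) t3197))))))))))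
noncomputable def l37011 : Lb := (@Lb.d (nat_lit 256) (nat_lit 677) (nat_lit 678) (@Lb.r r21 (@Lb.r r104 (@Lb.r r386 (@Lb.g g11 (@Lb.g g6 (@Lb.g g5 (@Lb.g g4 (@Lb.d (nat_lit 1) (nat_lit 1) (nat_lit 129) (@Lb.fm (nat_lit 9) t4966))))))))))
noncomputable def l37012 : Lb := (@Lb.d (nat_lit 0) (nat_lit 0) (nat_lit 130) (@Lb.g g8 (@Lb.g g10 (@Lb.g g11 (@Lb.r r599 (@Lb.r r1702 (@Lb.r r1621 (@Lb.r r1444 (@Lb.d (nat_lit 41) (nat_lit 65) (nat_lit 18) (@Lb.t (@Lb.fm (nat_lit 9) t3327)))))))))))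
noncomputable def l37013 : Lb := (@Lb.r r82 (@Lb.d (nat_lit 2) (nat_lit 256) (nat_lit 0) (@Lb.g g8 (@Lb.g g9 (@Lb.g g11 (@Lb.r r2603 (@Lb.r r618 (@Lb.r r537 (@Lb.d (nat_lit 66) (nat_lit 98) (nat_lit 640) (@Lb.t (@Lb.fp (nat_lit 9) t4579)))))))))))
noncomputable def l37014 : Lb := (@Lb.d (nat_lit 2) (nat_lit 522) (nat_lit 1) (@Lb.g g8 (@Lb.g g9 (@Lb.g g10 (@Lb.g g11 (@Lb.r r2731 (@Lb.r r665 (@Lb.r r146 (@Lb.d (nat_lit 102) (nat_lit 69) (nat_lit 648) (@Lb.fp (nat_lit 9) t4579))))))))))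
noncomputable def l37015 : Lb := (@Lb.d (nat_lit 2) (nat_lit 0) (nat_lit 66) (@Lb.g g8 (@Lb.g g10 (@Lb.g g7 (@Lb.r r386 (@Lb.r r2073 (@Lb.d (nat_lit 33) (nat_lit 5) (nat_lit 170) (@Lb.t (@Lb.fm (nat_lit 9) t382)))))))))
noncomputable def l37016 : Lb := (@Lb.r r263 (@Lb.d (nat_lit 0) (nat_lit 130) (nat_lit 2) (@Lb.g g8 (@Lb.g g9 (@Lb.g g10 (@Lb.r r1700 (@Lb.r r519 (@Lb.r r98 (@Lb.d (nat_lit 0) (nat_lit 9) (nat_lit 18) (@Lb.t (@Lb.fp (nat_lit 9) t5988)))))))))))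
noncomputable def l37017 : Lb := (@Lb.r r82 (@Lb.r r2311 (@Lb.d (nat_lit 258) (nat_lit 266) (nat_lit 0) (@Lb.g g4 (@Lb.g g9 (@Lb.r r90 (@Lb.r r145 (@Lb.d (nat_lit 513) (nat_lit 10) (nat_lit 34) (@Lb.fp (nat_lit 3) t6319)))))))))
noncomputable def l37018 : Lb := (@Lb.d (nat_lit 1) (nat_lit 514) (nat_lit 66) (@Lb.g g8 (@Lb.g g9 (@Lb.g g10 (@Lb.g g11 (@Lb.r r2691 (@Lb.r r1193 (@Lb.r r1642 (@Lb.r r36 (@Lb.d (nat_lit 596) (nat_lit 1) (nat_lit 648) (@Lb.fp (nat_lit 9) t6424)))))))))))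
noncomputable def l37019 : Lb := (@Lb.r r323 (@Lb.d (nat_lit 2) (nat_lit 274) (nat_lit 2) (@Lb.g g8 (@Lb.g g9 (@Lb.g g10 (@Lb.r r427 (@Lb.r r2146 (@Lb.r r1432 (@Lb.d (nat_lit 280) (nat_lit 6) (nat_lit 2) (@Lb.t (@Lb.fp (nat_lit 9) t968)))))))))))
noncomputable def l37020 : Lb := (@Lb.d (nat_lit 401) (nat_lit 26) (nat_lit 576) (@Lb.r r1608 (@Lb.r r82 (@Lb.r r2453 (@Lb.g g7 (@Lb.g g5 (@Lb.g g4 (@Lb.d (nat_lit 2) (nat_lit 1) (nat_lit 4) (@Lb.r r578 (@Lb.t (@Lb.fm (nat_lit 9) t1033)))))))))))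
noncomputable def l37021 : Lb := (@Lb.d (nat_lit 132) (nat_lit 146) (nat_lit 513) (@Lb.r r548 (@Lb.r r81 (@Lb.r r599 (@Lb.g g6 (@Lb.g g4 (@Lb.d (nat_lit 64) (nat_lit 8) (nat_lit 1) (@Lb.r r387 (@Lb.r r25 (@Lb.fp (nat_lit 3) t367))))))))))
noncomputable def l37022 : Lb := (@Lb.d (nat_lit 154) (nat_lit 512) (nat_lit 386) (@Lb.g g8 (@Lb.g g10 (@Lb.g g11 (@Lb.r r1109 (@Lb.r r1634 (@Lb.r r388 (@Lb.d (nat_lit 98) (nat_lit 89) (nat_lit 330) (@Lb.t (@Lb.fm (nat_lit 9) t399))))))))))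
noncomputable def l37023 : Lb := (@Lb.r r331 (@Lb.d (nat_lit 8) (nat_lit 258) (nat_lit 2) (@Lb.g g8 (@Lb.g g9 (@Lb.g g10 (@Lb.r r2454 (@Lb.r r1371 (@Lb.r r549 (@Lb.r r1540 (@Lb.d (nat_lit 296) (nat_lit 162) (nat_lit 98) (@Lb.t (@Lb.fm (nat_lit 9) t6516))))))))))))
noncomputable def l37024 : Lb := (@Lb.r r580 (@Lb.d (nat_lit 64) (nat_lit 520) (nat_lit 260) (@Lb.g g10 (@Lb.g g11 (@Lb.r r1113 (@Lb.r r2136 (@Lb.r r2470 (@Lb.d (nat_lit 618) (nat_lit 37) (nat_lit 21) (@Lb.fm (nat_lit 3) t399)))))))))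
noncomputable def l37025 : Lb := (@Lb.d (nat_lit 356) (nat_lit 298) (nat_lit 353) (@Lb.r r1370 (@Lb.r r1447 (@Lb.r r2341 (@Lb.g g6 (@Lb.g g8 (@Lb.d (nat_lit 9) (nat_lit 4) (nat_lit 2) (@Lb.fm (nat_lit 3) t6470))))))))
noncomputable def l37026 : Lb := (@Lb.d (nat_lit 2) (nat_lit 552) (nat_lit 513) (@Lb.g g8 (@Lb.g g9 (@Lb.g g10 (@Lb.g g7 (@Lb.r r418 (@Lb.r r296 (@Lb.r r409 (@Lb.d (nat_lit 145) (nat_lit 150) (nat_lit 393) (@Lb.fm (nat_lit 9) t6517))))))))))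
noncomputable def l37027 : Lb := (@Lb.d (nat_lit 2) (nat_lit 8) (nat_lit 137) (@Lb.g g8 (@Lb.g g9 (@Lb.g g10 (@Lb.g g11 (@Lb.r r675 (@Lb.r r1681 (@Lb.r r2404 (@Lb.r r1178 (@Lb.d (nat_lit 681) (nat_lit 137) (nat_lit 84) (@Lb.fp (nat_lit 9) t2721)))))))))))
noncomputable def l37028 : Lb := (@Lb.d (nat_lit 2) (nat_lit 325) (nat_lit 152) (@Lb.r r101 (@Lb.r r322 (@Lb.r r2435 (@Lb.r r386 (@Lb.g g8 (@Lb.d (nat_lit 9) (nat_lit 0) (nat_lit 0) (@Lb.t (@Lb.fp (nat_lit 3) t6470)))))))))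
noncomputable def l37029 : Lb := (@Lb.d (nat_lit 0) (nat_lit 2) (nat_lit 73) (@Lb.g g8 (@Lb.g g9 (@Lb.g g10 (@Lb.g g11 (@Lb.r r2691 (@Lb.r r297 (@Lb.r r648 (@Lb.r r666 (@Lb.r r1156 (@Lb.d (nat_lit 646) (nat_lit 40) (nat_lit 137) (@Lb.fp (nat_lit 9) t668))))))))))))
noncomputable def l37030 : Lb := (@Lb.d (nat_lit 2) (nat_lit 322) (nat_lit 73) (@Lb.g g8 (@Lb.g g9 (@Lb.g g10 (@Lb.g g11 (@Lb.r r2475 (@Lb.r r420 (@Lb.r r102 (@Lb.r r132 (@Lb.d (nat_lit 296) (nat_lit 1) (nat_lit 2) (@Lb.fp (nat_lit 9) t4453)))))))))))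
noncomputable def l37031 : Lb := (@Lb.r r275 (@Lb.d (nat_lit 0) (nat_lit 258) (nat_lit 2) (@Lb.g g8 (@Lb.g g9 (@Lb.g g10 (@Lb.r r675 (@Lb.r r161 (@Lb.r r98 (@Lb.d (nat_lit 5) (nat_lit 6) (nat_lit 5) (@Lb.t (@Lb.fm (nat_lit 9) t175)))))))))))
noncomputable def l37032 : Lb := (@Lb.r r275 (@Lb.d (nat_lit 0) (nat_lit 4) (nat_lit 0) (@Lb.g g8 (@Lb.g g9 (@Lb.g g10 (@Lb.r r675 (@Lb.r r578 (@Lb.r r417 (@Lb.d (nat_lit 5) (nat_lit 0) (nat_lit 137) (@Lb.t (@Lb.fm (nat_lit 9) t175)))))))))))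
noncomputable def l37033 : Lb := (@Lb.r r1045 (@Lb.d (nat_lit 16) (nat_lit 256) (nat_lit 0) (@Lb.g g8 (@Lb.g g10 (@Lb.g g11 (@Lb.r r2634 (@Lb.r r1608 (@Lb.d (nat_lit 609) (nat_lit 0) (nat_lit 154) (@Lb.t (@Lb.fp (nat_lit 9) t6518))))))))))
noncomputable def l37034 : Lb := (@Lb.r r275 (@Lb.d (nat_lit 0) (nat_lit 516) (nat_lit 0) (@Lb.g g8 (@Lb.g g9 (@Lb.g g10 (@Lb.r r675 (@Lb.r r578 (@Lb.r r417 (@Lb.d (nat_lit 2) (nat_lit 128) (nat_lit 137) (@Lb.t (@Lb.fm (nat_lit 9) t218)))))))))))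
noncomputable def l37035 : Lb := (@Lb.d (nat_lit 128) (nat_lit 256) (nat_lit 128) (@Lb.g g7 (@Lb.r r134 (@Lb.r r516 (@Lb.r r423 (@Lb.r r289 (@Lb.d (nat_lit 341) (nat_lit 68) (nat_lit 577) (@Lb.t (@Lb.fm (nat_lit 3) t2645)))))))))
noncomputable def l37036 : Lb := (@Lb.r r275 (@Lb.d (nat_lit 8) (nat_lit 522) (nat_lit 0) (@Lb.g g5 (@Lb.r r418 (@Lb.r r1363 (@Lb.r r552 (@Lb.r r665 (@Lb.d (nat_lit 421) (nat_lit 85) (nat_lit 73) (@Lb.t (@Lb.fm (nat_lit 3) t3851))))))))))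
noncomputable def l37037 : Lb := (@Lb.d (nat_lit 0) (nat_lit 134) (nat_lit 422) (@Lb.r r134 (@Lb.r r2376 (@Lb.r r1559 (@Lb.g g5 (@Lb.g g4 (@Lb.d (nat_lit 65) (nat_lit 18) (nat_lit 0) (@Lb.fp (nat_lit 3) t896))))))))
noncomputable def l37038 : Lb := (@Lb.d (nat_lit 0) (nat_lit 4) (nat_lit 6) (@Lb.g g6 (@Lb.d (nat_lit 0) (nat_lit 101) (nat_lit 513) (@Lb.t (@Lb.fm (nat_lit 3) t1604)))))
noncomputable def l37039 : Lb := (@Lb.d (nat_lit 538) (nat_lit 553) (nat_lit 534) (@Lb.r r1427 (@Lb.g g9 (@Lb.d (nat_lit 8) (nat_lit 9) (nat_lit 0) (@Lb.t (@Lb.fp (nat_lit 3) t6519))))))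
noncomputable def l37040 : Lb := (@Lb.r r21 (@Lb.r r263 (@Lb.d (nat_lit 17) (nat_lit 260) (nat_lit 18) (@Lb.g g8 (@Lb.g g6 (@Lb.r r1427 (@Lb.r r97 (@Lb.r r1576 (@Lb.d (nat_lit 582) (nat_lit 96) (nat_lit 257) (@Lb.fp (nat_lit 3) t720))))))))))
noncomputable def l37041 : Lb := (@Lb.d (nat_lit 34) (nat_lit 390) (nat_lit 421) (@Lb.r r134 (@Lb.r r2376 (@Lb.r r1559 (@Lb.g g5 (@Lb.g g4 (@Lb.d (nat_lit 65) (nat_lit 25) (nat_lit 0) (@Lb.fp (nat_lit 3) t4877))))))))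
noncomputable def l37042 : Lb := (@Lb.d (nat_lit 0) (nat_lit 2) (nat_lit 130) (@Lb.g g9 (@Lb.g g10 (@Lb.g g11 (@Lb.r r2691 (@Lb.r r1442 (@Lb.r r1433 (@Lb.d (nat_lit 293) (nat_lit 74) (nat_lit 106) (@Lb.t (@Lb.fm (nat_lit 9) t2086))))))))))
noncomputable def l37043 : Lb := (@Lb.r r21 (@Lb.d (nat_lit 130) (nat_lit 256) (nat_lit 128) (@Lb.g g8 (@Lb.g g11 (@Lb.r r2628 (@Lb.r r1354 (@Lb.r r391 (@Lb.r r25 (@Lb.d (nat_lit 81) (nat_lit 5) (nat_lit 537) (@Lb.fm (nat_lit 3) t2959))))))))))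
noncomputable def l37044 : Lb := (@Lb.r r82 (@Lb.d (nat_lit 642) (nat_lit 258) (nat_lit 64) (@Lb.g g8 (@Lb.g g9 (@Lb.g g11 (@Lb.r r1323 (@Lb.r r153 (@Lb.r r146 (@Lb.d (nat_lit 265) (nat_lit 2) (nat_lit 410) (@Lb.t (@Lb.fp (nat_lit 9) t6520)))))))))))
noncomputable def l37045 : Lb := (@Lb.d (nat_lit 0) (nat_lit 0) (nat_lit 130) (@Lb.g g9 (@Lb.g g10 (@Lb.g g11 (@Lb.r r1619 (@Lb.r r2722 (@Lb.r r2641 (@Lb.d (nat_lit 0) (nat_lit 168) (nat_lit 617) (@Lb.t (@Lb.fm (nat_lit 9) t2833))))))))))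
noncomputable def l37046 : Lb := (@Lb.d (nat_lit 645) (nat_lit 522) (nat_lit 129) (@Lb.g g4 (@Lb.g g9 (@Lb.g g10 (@Lb.g g11 (@Lb.r r2726 (@Lb.r r1411 (@Lb.r r1553 (@Lb.d (nat_lit 580) (nat_lit 96) (nat_lit 328) (@Lb.fp (nat_lit 9) t6521))))))))))
noncomputable def l37047 : Lb := (@Lb.d (nat_lit 550) (nat_lit 298) (nat_lit 582) (@Lb.r r1109 (@Lb.r r323 (@Lb.r r1706 (@Lb.g g7 (@Lb.g g6 (@Lb.g g5 (@Lb.g g4 (@Lb.d (nat_lit 8) (nat_lit 17) (nat_lit 65) (@Lb.fm (nat_lit 9) t309))))))))))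
noncomputable def l37048 : Lb := (@Lb.r r81 (@Lb.d (nat_lit 10) (nat_lit 288) (nat_lit 74) (@Lb.g g8 (@Lb.g g10 (@Lb.g g11 (@Lb.r r353 (@Lb.r r535 (@Lb.r r420 (@Lb.d (nat_lit 88) (nat_lit 74) (nat_lit 660) (@Lb.t (@Lb.fm (nat_lit 9) t4482)))))))))))
noncomputable def l37049 : Lb := (@Lb.r r81 (@Lb.d (nat_lit 0) (nat_lit 512) (nat_lit 74) (@Lb.g g8 (@Lb.g g10 (@Lb.g g11 (@Lb.r r1419 (@Lb.r r1304 (@Lb.r r37 (@Lb.d (nat_lit 2) (nat_lit 70) (nat_lit 0) (@Lb.t (@Lb.fm (nat_lit 9) t1784)))))))))))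
noncomputable def l37050 : Lb := (@Lb.d (nat_lit 2) (nat_lit 514) (nat_lit 128) (@Lb.g g8 (@Lb.g g9 (@Lb.g g11 (@Lb.r r1707 (@Lb.r r2178 (@Lb.r r2657 (@Lb.r r24 (@Lb.d (nat_lit 538) (nat_lit 89) (nat_lit 42) (@Lb.t (@Lb.fm (nat_lit 9) t2031)))))))))))
noncomputable def l37051 : Lb := (@Lb.d (nat_lit 665) (nat_lit 8) (nat_lit 426) (@Lb.r r1416 (@Lb.r r1433 (@Lb.r r2178 (@Lb.r r423 (@Lb.g g7 (@Lb.g g5 (@Lb.d (nat_lit 0) (nat_lit 1) (nat_lit 128) (@Lb.fm (nat_lit 3) t5247)))))))))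
noncomputable def l37052 : Lb := (@Lb.r r323 (@Lb.d (nat_lit 0) (nat_lit 258) (nat_lit 41) (@Lb.g g9 (@Lb.g g6 (@Lb.r r387 (@Lb.r r97 (@Lb.d (nat_lit 0) (nat_lit 85) (nat_lit 594) (@Lb.fm (nat_lit 3) t665))))))))
noncomputable def l37053 : Lb := (@Lb.r r273 (@Lb.d (nat_lit 0) (nat_lit 544) (nat_lit 644) (@Lb.g g10 (@Lb.g g7 (@Lb.r r2641 (@Lb.r r98 (@Lb.d (nat_lit 5) (nat_lit 128) (nat_lit 149) (@Lb.fp (nat_lit 3) t1834))))))))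
noncomputable def l37054 : Lb := (@Lb.d (nat_lit 1) (nat_lit 0) (nat_lit 64) (@Lb.g g8 (@Lb.g g7 (@Lb.r r2442 (@Lb.r r2468 (@Lb.r r2341 (@Lb.d (nat_lit 0) (nat_lit 42) (nat_lit 86) (@Lb.fp (nat_lit 3) t6522))))))))
noncomputable def l37055 : Lb := (@Lb.d (nat_lit 129) (nat_lit 516) (nat_lit 128) (@Lb.g g8 (@Lb.g g9 (@Lb.g g10 (@Lb.g g11 (@Lb.r r1706 (@Lb.r r1411 (@Lb.r r1177 (@Lb.r r1156 (@Lb.d (nat_lit 290) (nat_lit 80) (nat_lit 666) (@Lb.fm (nat_lit 9) t6523)))))))))))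
noncomputable def l37056 : Lb := (@Lb.r r82 (@Lb.d (nat_lit 128) (nat_lit 2) (nat_lit 128) (@Lb.g g8 (@Lb.g g9 (@Lb.g g11 (@Lb.r r673 (@Lb.r r2406 (@Lb.r r1411 (@Lb.r r516 (@Lb.d (nat_lit 137) (nat_lit 89) (nat_lit 21) (@Lb.t (@Lb.fp (nat_lit 9) t2978))))))))))))
noncomputable def l37057 : Lb := (@Lb.r r260 (@Lb.r r322 (@Lb.d (nat_lit 68) (nat_lit 258) (nat_lit 320) (@Lb.g g9 (@Lb.g g7 (@Lb.r r152 (@Lb.r r618 (@Lb.r r1369 (@Lb.d (nat_lit 384) (nat_lit 33) (nat_lit 581) (@Lb.fm (nat_lit 3) t3284))))))))))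
noncomputable def l37058 : Lb := (@Lb.d (nat_lit 1) (nat_lit 677) (nat_lit 294) (@Lb.r r21 (@Lb.r r1366 (@Lb.r r683 (@Lb.g g7 (@Lb.g g6 (@Lb.g g5 (@Lb.g g4 (@Lb.d (nat_lit 8) (nat_lit 10) (nat_lit 0) (@Lb.fm (nat_lit 9) t40))))))))))
noncomputable def l37059 : Lb := (@Lb.r r338 (@Lb.d (nat_lit 8) (nat_lit 610) (nat_lit 136) (@Lb.g g9 (@Lb.g g11 (@Lb.r r1410 (@Lb.r r24 (@Lb.d (nat_lit 617) (nat_lit 130) (nat_lit 672) (@Lb.fm (nat_lit 3) t5517))))))))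
noncomputable def l37060 : Lb := (@Lb.d (nat_lit 536) (nat_lit 512) (nat_lit 417) (@Lb.r r1096 (@Lb.r r363 (@Lb.r r2646 (@Lb.g g5 (@Lb.d (nat_lit 0) (nat_lit 25) (nat_lit 0) (@Lb.t (@Lb.fp (nat_lit 3) t6080))))))))
noncomputable def l37061 : Lb := (@Lb.d (nat_lit 32) (nat_lit 257) (nat_lit 0) (@Lb.g g9 (@Lb.g g10 (@Lb.g g7 (@Lb.r r417 (@Lb.r r600 (@Lb.r r678 (@Lb.d (nat_lit 16) (nat_lit 34) (nat_lit 138) (@Lb.t (@Lb.fm (nat_lit 9) t424))))))))))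
noncomputable def l37062 : Lb := (@Lb.d (nat_lit 32) (nat_lit 294) (nat_lit 581) (@Lb.g g9 (@Lb.g g10 (@Lb.g g7 (@Lb.r r417 (@Lb.r r2648 (@Lb.r r1702 (@Lb.d (nat_lit 537) (nat_lit 98) (nat_lit 154) (@Lb.t (@Lb.fm (nat_lit 9) t6524))))))))))
noncomputable def l37063 : Lb := (@Lb.d (nat_lit 32) (nat_lit 513) (nat_lit 0) (@Lb.g g9 (@Lb.g g10 (@Lb.g g7 (@Lb.r r417 (@Lb.r r600 (@Lb.r r678 (@Lb.d (nat_lit 18) (nat_lit 34) (nat_lit 138) (@Lb.t (@Lb.fm (nat_lit 9) t424))))))))))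
noncomputable def l37064 : Lb := (@Lb.r r323 (@Lb.d (nat_lit 0) (nat_lit 258) (nat_lit 2) (@Lb.g g8 (@Lb.g g9 (@Lb.g g10 (@Lb.r r2210 (@Lb.r r2600 (@Lb.r r2713 (@Lb.r r1555 (@Lb.d (nat_lit 89) (nat_lit 10) (nat_lit 297) (@Lb.t (@Lb.fp (nat_lit 9) t331))))))))))))
noncomputable def l37065 : Lb := (@Lb.d (nat_lit 5) (nat_lit 292) (nat_lit 64) (@Lb.g g8 (@Lb.g g9 (@Lb.g g10 (@Lb.g g11 (@Lb.r r1627 (@Lb.r r610 (@Lb.r r1065 (@Lb.r r1416 (@Lb.d (nat_lit 646) (nat_lit 20) (nat_lit 86) (@Lb.fm (nat_lit 9) t6525)))))))))))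
noncomputable def l37066 : Lb := (@Lb.d (nat_lit 0) (nat_lit 294) (nat_lit 581) (@Lb.g g8 (@Lb.g g9 (@Lb.g g10 (@Lb.g g7 (@Lb.r r418 (@Lb.r r2088 (@Lb.r r2201 (@Lb.d (nat_lit 592) (nat_lit 132) (nat_lit 593) (@Lb.fm (nat_lit 9) t2707))))))))))
noncomputable def l37067 : Lb := (@Lb.r r21 (@Lb.r r70 (@Lb.d (nat_lit 293) (nat_lit 512) (nat_lit 128) (@Lb.g g4 (@Lb.g g11 (@Lb.r r583 (@Lb.r r101 (@Lb.r r410 (@Lb.d (nat_lit 613) (nat_lit 166) (nat_lit 68) (@Lb.fm (nat_lit 3) t243))))))))))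
noncomputable def l37068 : Lb := (@Lb.d (nat_lit 322) (nat_lit 644) (nat_lit 666) (@Lb.r r37 (@Lb.r r519 (@Lb.r r344 (@Lb.g g7 (@Lb.g g6 (@Lb.d (nat_lit 80) (nat_lit 8) (nat_lit 133) (@Lb.r r145 (@Lb.r r132 (@Lb.fp (nat_lit 3) t2209))))))))))
noncomputable def l37069 : Lb := (@Lb.d (nat_lit 2) (nat_lit 16) (nat_lit 2) (@Lb.g g8 (@Lb.g g9 (@Lb.g g10 (@Lb.g g11 (@Lb.r r2391 (@Lb.r r358 (@Lb.r r664 (@Lb.r r421 (@Lb.d (nat_lit 98) (nat_lit 161) (nat_lit 137) (@Lb.fp (nat_lit 9) t6526)))))))))))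
noncomputable def l37070 : Lb := (@Lb.d (nat_lit 598) (nat_lit 69) (nat_lit 581) (@Lb.r r1412 (@Lb.r r2325 (@Lb.r r2635 (@Lb.g g10 (@Lb.g g4 (@Lb.d (nat_lit 2) (nat_lit 4) (nat_lit 18) (@Lb.fm (nat_lit 3) t6527))))))))
noncomputable def l37071 : Lb := (@Lb.d (nat_lit 385) (nat_lit 0) (nat_lit 410) (@Lb.r r2631 (@Lb.g g11 (@Lb.g g8 (@Lb.fp (nat_lit 3) t4041)))))
noncomputable def l37072 : Lb := (@Lb.d (nat_lit 0) (nat_lit 0) (nat_lit 2) (@Lb.g g10 (@Lb.r r1411 (@Lb.r r386 (@Lb.d (nat_lit 608) (nat_lit 0) (nat_lit 297) (@Lb.t (@Lb.fm (nat_lit 3) t698)))))))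
noncomputable def l37073 : Lb := (@Lb.r r1172 (@Lb.r r89 (@Lb.r r1126 (@Lb.r r2307 (@Lb.d (nat_lit 1) (nat_lit 514) (nat_lit 32) (@Lb.fp (nat_lit 1) t6528))))))
noncomputable def l37074 : Lb := (@Lb.d (nat_lit 362) (nat_lit 73) (nat_lit 81) (@Lb.r r1188 (@Lb.r r1685 (@Lb.r r1430 (@Lb.g g11 (@Lb.g g5 (@Lb.g g4 (@Lb.d (nat_lit 148) (nat_lit 18) (nat_lit 576) (@Lb.r r586 (@Lb.t (@Lb.fp (nat_lit 9) t6529)))))))))))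
noncomputable def l37075 : Lb := (@Lb.d (nat_lit 134) (nat_lit 4) (nat_lit 74) (@Lb.g g8 (@Lb.g g9 (@Lb.g g10 (@Lb.g g11 (@Lb.r r618 (@Lb.r r360 (@Lb.r r2583 (@Lb.r r2325 (@Lb.r r20 (@Lb.d (nat_lit 584) (nat_lit 161) (nat_lit 130) (@Lb.fp (nat_lit 9) t6530))))))))))))
noncomputable def l37076 : Lb := (@Lb.d (nat_lit 2) (nat_lit 514) (nat_lit 66) (@Lb.g g8 (@Lb.g g9 (@Lb.g g10 (@Lb.g g7 (@Lb.r r2466 (@Lb.r r292 (@Lb.r r405 (@Lb.r r2084 (@Lb.d (nat_lit 614) (nat_lit 154) (nat_lit 281) (@Lb.fp (nat_lit 9) t5383)))))))))))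
noncomputable def l37077 : Lb := (@Lb.d (nat_lit 134) (nat_lit 512) (nat_lit 73) (@Lb.g g8 (@Lb.g g9 (@Lb.g g10 (@Lb.g g11 (@Lb.r r419 (@Lb.r r1604 (@Lb.r r1098 (@Lb.r r1317 (@Lb.d (nat_lit 105) (nat_lit 69) (nat_lit 154) (@Lb.fm (nat_lit 9) t6531)))))))))))
noncomputable def l37078 : Lb := (@Lb.d (nat_lit 2) (nat_lit 521) (nat_lit 65) (@Lb.g g8 (@Lb.g g9 (@Lb.g g10 (@Lb.g g7 (@Lb.r r2466 (@Lb.r r2344 (@Lb.r r2457 (@Lb.d (nat_lit 400) (nat_lit 102) (nat_lit 281) (@Lb.fm (nat_lit 9) t3711))))))))))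
noncomputable def l37079 : Lb := (@Lb.d (nat_lit 10) (nat_lit 512) (nat_lit 2) (@Lb.g g8 (@Lb.g g10 (@Lb.r r1411 (@Lb.r r165 (@Lb.r r2214 (@Lb.r r1112 (@Lb.d (nat_lit 360) (nat_lit 4) (nat_lit 594) (@Lb.fp (nat_lit 3) t1639)))))))))
noncomputable def l37080 : Lb := (@Lb.r r21 (@Lb.r r323 (@Lb.d (nat_lit 417) (nat_lit 4) (nat_lit 2) (@Lb.g g8 (@Lb.g g10 (@Lb.r r1433 (@Lb.r r1707 (@Lb.r r1674 (@Lb.d (nat_lit 165) (nat_lit 136) (nat_lit 404) (@Lb.fm (nat_lit 3) t3278))))))))))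
noncomputable def l37081 : Lb := (@Lb.d (nat_lit 130) (nat_lit 4) (nat_lit 128) (@Lb.g g8 (@Lb.g g9 (@Lb.g g10 (@Lb.g g11 (@Lb.r r1706 (@Lb.r r1411 (@Lb.r r1177 (@Lb.r r1156 (@Lb.d (nat_lit 290) (nat_lit 90) (nat_lit 596) (@Lb.fm (nat_lit 9) t2554)))))))))))
noncomputable def l37082 : Lb := (@Lb.d (nat_lit 154) (nat_lit 262) (nat_lit 128) (@Lb.g g8 (@Lb.g g9 (@Lb.g g10 (@Lb.g g11 (@Lb.r r2435 (@Lb.r r2212 (@Lb.r r1446 (@Lb.r r145 (@Lb.d (nat_lit 68) (nat_lit 132) (nat_lit 152) (@Lb.fm (nat_lit 9) t5516)))))))))))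
noncomputable def l37083 : Lb := (@Lb.r r82 (@Lb.d (nat_lit 9) (nat_lit 32) (nat_lit 128) (@Lb.g g8 (@Lb.g g9 (@Lb.g g11 (@Lb.r r2454 (@Lb.r r2627 (@Lb.r r2457 (@Lb.r r2120 (@Lb.d (nat_lit 170) (nat_lit 98) (nat_lit 89) (@Lb.t (@Lb.fp (nat_lit 9) t6532))))))))))))
noncomputable def l37084 : Lb := (@Lb.d (nat_lit 130) (nat_lit 260) (nat_lit 74) (@Lb.g g8 (@Lb.g g9 (@Lb.g g10 (@Lb.g g11 (@Lb.r r1706 (@Lb.r r1411 (@Lb.r r1177 (@Lb.r r1156 (@Lb.d (nat_lit 290) (nat_lit 90) (nat_lit 596) (@Lb.fm (nat_lit 9) t2554)))))))))))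
noncomputable def l37085 : Lb := (@Lb.d (nat_lit 128) (nat_lit 258) (nat_lit 2) (@Lb.g g9 (@Lb.g g10 (@Lb.g g11 (@Lb.r r264 (@Lb.r r1447 (@Lb.r r386 (@Lb.r r97 (@Lb.d (nat_lit 258) (nat_lit 138) (nat_lit 521) (@Lb.t (@Lb.fp (nat_lit 9) t2600)))))))))))
noncomputable def l37086 : Lb := (@Lb.d (nat_lit 0) (nat_lit 514) (nat_lit 130) (@Lb.g g9 (@Lb.g g10 (@Lb.g g11 (@Lb.r r614 (@Lb.r r2084 (@Lb.r r1429 (@Lb.r r1315 (@Lb.d (nat_lit 617) (nat_lit 80) (nat_lit 661) (@Lb.t (@Lb.fm (nat_lit 9) t6380)))))))))))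
noncomputable def l37087 : Lb := (@Lb.d (nat_lit 138) (nat_lit 514) (nat_lit 130) (@Lb.g g8 (@Lb.g g9 (@Lb.g g10 (@Lb.g g11 (@Lb.r r2475 (@Lb.r r98 (@Lb.r r1444 (@Lb.r r101 (@Lb.d (nat_lit 21) (nat_lit 40) (nat_lit 146) (@Lb.fm (nat_lit 9) t6533)))))))))))
noncomputable def l37088 : Lb := (@Lb.d (nat_lit 9) (nat_lit 514) (nat_lit 2) (@Lb.g g8 (@Lb.g g9 (@Lb.g g10 (@Lb.g g11 (@Lb.r r40 (@Lb.r r297 (@Lb.r r1431 (@Lb.r r386 (@Lb.r r2212 (@Lb.d (nat_lit 265) (nat_lit 128) (nat_lit 537) (@Lb.fm (nat_lit 9) t2344))))))))))))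
noncomputable def l37089 : Lb := (@Lb.d (nat_lit 10) (nat_lit 514) (nat_lit 0) (@Lb.g g4 (@Lb.g g9 (@Lb.r r2311 (@Lb.d (nat_lit 256) (nat_lit 0) (nat_lit 64) (@Lb.fp (nat_lit 3) t1165))))))
noncomputable def l37090 : Lb := (@Lb.r r81 (@Lb.r r323 (@Lb.d (nat_lit 161) (nat_lit 260) (nat_lit 32) (@Lb.g g8 (@Lb.g g6 (@Lb.r r361 (@Lb.r r535 (@Lb.r r264 (@Lb.d (nat_lit 256) (nat_lit 64) (nat_lit 641) (@Lb.fm (nat_lit 3) t1234))))))))))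
noncomputable def l37091 : Lb := (@Lb.d (nat_lit 9) (nat_lit 20) (nat_lit 138) (@Lb.g g8 (@Lb.g g9 (@Lb.g g10 (@Lb.g g11 (@Lb.r r2722 (@Lb.r r1447 (@Lb.r r1556 (@Lb.r r2409 (@Lb.d (nat_lit 545) (nat_lit 84) (nat_lit 68) (@Lb.fp (nat_lit 9) t340)))))))))))
noncomputable def l37092 : Lb := (@Lb.d (nat_lit 8) (nat_lit 546) (nat_lit 130) (@Lb.g g9 (@Lb.g g10 (@Lb.g g11 (@Lb.r r423 (@Lb.r r2146 (@Lb.r r1048 (@Lb.r r2149 (@Lb.d (nat_lit 532) (nat_lit 104) (nat_lit 418) (@Lb.t (@Lb.fm (nat_lit 9) t1702)))))))))))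
noncomputable def l37093 : Lb := (@Lb.d (nat_lit 389) (nat_lit 150) (nat_lit 169) (@Lb.r r2341 (@Lb.r r1624 (@Lb.r r2406 (@Lb.g g11 (@Lb.g g5 (@Lb.d (nat_lit 4) (nat_lit 5) (nat_lit 128) (@Lb.r r98 (@Lb.fp (nat_lit 3) t1783)))))))))
noncomputable def l37094 : Lb := (@Lb.d (nat_lit 389) (nat_lit 326) (nat_lit 513) (@Lb.r r2341 (@Lb.r r1624 (@Lb.r r2406 (@Lb.g g11 (@Lb.g g5 (@Lb.d (nat_lit 4) (nat_lit 5) (nat_lit 128) (@Lb.r r98 (@Lb.fp (nat_lit 3) t6534)))))))))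
noncomputable def l37095 : Lb := (@Lb.d (nat_lit 8) (nat_lit 34) (nat_lit 66) (@Lb.g g9 (@Lb.g g10 (@Lb.g g11 (@Lb.r r423 (@Lb.r r2146 (@Lb.r r1048 (@Lb.r r2149 (@Lb.d (nat_lit 532) (nat_lit 104) (nat_lit 418) (@Lb.t (@Lb.fm (nat_lit 9) t1702)))))))))))
noncomputable def l37096 : Lb := (@Lb.d (nat_lit 0) (nat_lit 288) (nat_lit 130) (@Lb.g g9 (@Lb.g g10 (@Lb.g g11 (@Lb.r r289 (@Lb.r r403 (@Lb.r r386 (@Lb.r r1169 (@Lb.d (nat_lit 5) (nat_lit 74) (nat_lit 520) (@Lb.t (@Lb.fm (nat_lit 9) t5700)))))))))))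
noncomputable def l37097 : Lb := (@Lb.d (nat_lit 0) (nat_lit 256) (nat_lit 130) (@Lb.g g9 (@Lb.g g10 (@Lb.g g11 (@Lb.r r2658 (@Lb.r r579 (@Lb.d (nat_lit 0) (nat_lit 97) (nat_lit 586) (@Lb.t (@Lb.fp (nat_lit 9) t51)))))))))
noncomputable def l37098 : Lb := (@Lb.r r82 (@Lb.d (nat_lit 40) (nat_lit 1) (nat_lit 0) (@Lb.g g8 (@Lb.g g9 (@Lb.g g11 (@Lb.r r363 (@Lb.r r582 (@Lb.r r388 (@Lb.d (nat_lit 98) (nat_lit 8) (nat_lit 153) (@Lb.t (@Lb.fm (nat_lit 9) t390)))))))))))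
noncomputable def l37099 : Lb := (@Lb.r r323 (@Lb.d (nat_lit 137) (nat_lit 513) (nat_lit 2) (@Lb.g g8 (@Lb.g g9 (@Lb.g g10 (@Lb.r r2473 (@Lb.r r1683 (@Lb.r r1610 (@Lb.r r72 (@Lb.d (nat_lit 337) (nat_lit 64) (nat_lit 89) (@Lb.t (@Lb.fp (nat_lit 9) t5230))))))))))))
noncomputable def l37100 : Lb := (@Lb.r r82 (@Lb.d (nat_lit 40) (nat_lit 513) (nat_lit 0) (@Lb.g g8 (@Lb.g g9 (@Lb.g g11 (@Lb.r r363 (@Lb.r r582 (@Lb.r r388 (@Lb.d (nat_lit 100) (nat_lit 9) (nat_lit 153) (@Lb.t (@Lb.fm (nat_lit 9) t1499)))))))))))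
noncomputable def l37101 : Lb := (@Lb.r r82 (@Lb.d (nat_lit 170) (nat_lit 257) (nat_lit 128) (@Lb.g g8 (@Lb.g g9 (@Lb.g g11 (@Lb.r r663 (@Lb.r r2726 (@Lb.r r1364 (@Lb.d (nat_lit 342) (nat_lit 42) (nat_lit 146) (@Lb.t (@Lb.fm (nat_lit 9) t6535)))))))))))
noncomputable def l37102 : Lb := (@Lb.d (nat_lit 136) (nat_lit 0) (nat_lit 64) (@Lb.g g8 (@Lb.g g11 (@Lb.r r1569 (@Lb.r r299 (@Lb.r r2376 (@Lb.r r134 (@Lb.d (nat_lit 0) (nat_lit 133) (nat_lit 584) (@Lb.fp (nat_lit 3) t6536)))))))))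
noncomputable def l37103 : Lb := (@Lb.r r289 (@Lb.r r2579 (@Lb.r r72 (@Lb.r r582 (@Lb.r r2180 (@Lb.d (nat_lit 0) (nat_lit 512) (nat_lit 82) (@Lb.fm (nat_lit 1) t351)))))))
noncomputable def l37104 : Lb := (@Lb.r r82 (@Lb.r r263 (@Lb.d (nat_lit 649) (nat_lit 521) (nat_lit 0) (@Lb.g g8 (@Lb.g g9 (@Lb.r r2711 (@Lb.r r150 (@Lb.r r85 (@Lb.d (nat_lit 277) (nat_lit 6) (nat_lit 614) (@Lb.fm (nat_lit 3) t1991))))))))))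
noncomputable def l37105 : Lb := (@Lb.r r82 (@Lb.r r275 (@Lb.d (nat_lit 9) (nat_lit 256) (nat_lit 0) (@Lb.g g8 (@Lb.g g5 (@Lb.r r2315 (@Lb.r r98 (@Lb.r r24 (@Lb.d (nat_lit 266) (nat_lit 2) (nat_lit 64) (@Lb.fm (nat_lit 3) t771))))))))))
noncomputable def l37106 : Lb := (@Lb.d (nat_lit 614) (nat_lit 554) (nat_lit 680) (@Lb.r r1434 (@Lb.r r2133 (@Lb.r r1351 (@Lb.g g7 (@Lb.g g6 (@Lb.g g5 (@Lb.g g4 (@Lb.d (nat_lit 65) (nat_lit 1) (nat_lit 65) (@Lb.fm (nat_lit 9) t2284))))))))))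
noncomputable def l37107 : Lb := (@Lb.d (nat_lit 408) (nat_lit 425) (nat_lit 585) (@Lb.r r2475 (@Lb.r r1446 (@Lb.r r2469 (@Lb.r r596 (@Lb.g g7 (@Lb.d (nat_lit 64) (nat_lit 16) (nat_lit 68) (@Lb.t (@Lb.fm (nat_lit 3) t3438)))))))))
noncomputable def l37108 : Lb := (@Lb.d (nat_lit 42) (nat_lit 0) (nat_lit 64) (@Lb.g g8 (@Lb.g g11 (@Lb.r r2213 (@Lb.r r1190 (@Lb.r r2648 (@Lb.r r2571 (@Lb.d (nat_lit 641) (nat_lit 148) (nat_lit 326) (@Lb.fm (nat_lit 3) t322)))))))))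
noncomputable def l37109 : Lb := (@Lb.r r21 (@Lb.d (nat_lit 33) (nat_lit 256) (nat_lit 130) (@Lb.g g8 (@Lb.g g10 (@Lb.g g11 (@Lb.r r1623 (@Lb.r r1365 (@Lb.r r2218 (@Lb.r r1172 (@Lb.d (nat_lit 86) (nat_lit 69) (nat_lit 545) (@Lb.t (@Lb.fm (nat_lit 9) t5117))))))))))))
noncomputable def l37110 : Lb := (@Lb.d (nat_lit 529) (nat_lit 534) (nat_lit 353) (@Lb.r r153 (@Lb.r r1688 (@Lb.r r2379 (@Lb.g g7 (@Lb.g g6 (@Lb.g g5 (@Lb.g g4 (@Lb.d (nat_lit 6) (nat_lit 16) (nat_lit 98) (@Lb.fm (nat_lit 9) t1095))))))))))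
noncomputable def l37111 : Lb := (@Lb.r r323 (@Lb.d (nat_lit 577) (nat_lit 512) (nat_lit 18) (@Lb.g g4 (@Lb.g g10 (@Lb.r r2659 (@Lb.r r1633 (@Lb.d (nat_lit 8) (nat_lit 134) (nat_lit 100) (@Lb.fp (nat_lit 3) t2700))))))))
noncomputable def l37112 : Lb := (@Lb.d (nat_lit 34) (nat_lit 38) (nat_lit 32) (@Lb.r r134 (@Lb.r r344 (@Lb.r r519 (@Lb.g g5 (@Lb.g g4 (@Lb.d (nat_lit 66) (nat_lit 25) (nat_lit 0) (@Lb.fp (nat_lit 3) t546))))))))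
noncomputable def l37113 : Lb := (@Lb.r r322 (@Lb.d (nat_lit 0) (nat_lit 522) (nat_lit 576) (@Lb.g g9 (@Lb.g g7 (@Lb.r r594 (@Lb.r r1701 (@Lb.r r24 (@Lb.d (nat_lit 129) (nat_lit 5) (nat_lit 358) (@Lb.fp (nat_lit 3) t1087)))))))))
noncomputable def l37114 : Lb := (@Lb.d (nat_lit 614) (nat_lit 682) (nat_lit 408) (@Lb.r r97 (@Lb.r r2371 (@Lb.r r598 (@Lb.g g6 (@Lb.g g5 (@Lb.g g4 (@Lb.d (nat_lit 338) (nat_lit 1) (nat_lit 1) (@Lb.r r391 (@Lb.t (@Lb.fm (nat_lit 9) t6537)))))))))))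
noncomputable def l37115 : Lb := (@Lb.r r21 (@Lb.r r70 (@Lb.d (nat_lit 389) (nat_lit 0) (nat_lit 128) (@Lb.g g8 (@Lb.g g11 (@Lb.r r1419 (@Lb.r r402 (@Lb.r r97 (@Lb.d (nat_lit 586) (nat_lit 73) (nat_lit 544) (@Lb.fm (nat_lit 3) t6279))))))))))
noncomputable def l37116 : Lb := (@Lb.d (nat_lit 64) (nat_lit 545) (nat_lit 4) (@Lb.g g8 (@Lb.g g9 (@Lb.g g10 (@Lb.g g11 (@Lb.r r2391 (@Lb.r r342 (@Lb.r r1109 (@Lb.r r20 (@Lb.d (nat_lit 416) (nat_lit 137) (nat_lit 585) (@Lb.fp (nat_lit 9) t6538)))))))))))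
noncomputable def l37117 : Lb := (@Lb.d (nat_lit 389) (nat_lit 645) (nat_lit 290) (@Lb.r r1317 (@Lb.r r603 (@Lb.r r516 (@Lb.g g7 (@Lb.g g6 (@Lb.d (nat_lit 80) (nat_lit 0) (nat_lit 97) (@Lb.fm (nat_lit 3) t4836))))))))
noncomputable def l37118 : Lb := (@Lb.d (nat_lit 64) (nat_lit 545) (nat_lit 578) (@Lb.g g8 (@Lb.g g9 (@Lb.g g10 (@Lb.g g7 (@Lb.r r386 (@Lb.r r1109 (@Lb.r r20 (@Lb.d (nat_lit 81) (nat_lit 137) (nat_lit 537) (@Lb.fp (nat_lit 9) t5525))))))))))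
noncomputable def l37119 : Lb := (@Lb.g g9 (@Lb.g g7 (@Lb.d (nat_lit 0) (nat_lit 512) (nat_lit 69) (@Lb.fp (nat_lit 3) t2))))
noncomputable def l37120 : Lb := (@Lb.r r82 (@Lb.d (nat_lit 0) (nat_lit 258) (nat_lit 0) (@Lb.g g9 (@Lb.g g7 (@Lb.r r386 (@Lb.r r289 (@Lb.d (nat_lit 0) (nat_lit 85) (nat_lit 584) (@Lb.fp (nat_lit 3) t6539))))))))
noncomputable def l37121 : Lb := (@Lb.d (nat_lit 2) (nat_lit 514) (nat_lit 130) (@Lb.g g8 (@Lb.g g9 (@Lb.g g10 (@Lb.g g11 (@Lb.r r84 (@Lb.r r154 (@Lb.r r597 (@Lb.r r343 (@Lb.r r676 (@Lb.d (nat_lit 330) (nat_lit 66) (nat_lit 586) (@Lb.fm (nat_lit 9) t716))))))))))))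
noncomputable def l37122 : Lb := (@Lb.d (nat_lit 386) (nat_lit 256) (nat_lit 416) (@Lb.r r154 (@Lb.r r660 (@Lb.r r407 (@Lb.r r609 (@Lb.g g11 (@Lb.t (@Lb.fp (nat_lit 3) t2639))))))))
noncomputable def l37123 : Lb := (@Lb.d (nat_lit 130) (nat_lit 258) (nat_lit 9) (@Lb.g g8 (@Lb.g g9 (@Lb.g g10 (@Lb.g g11 (@Lb.r r1706 (@Lb.r r1411 (@Lb.r r1177 (@Lb.r r1156 (@Lb.d (nat_lit 297) (nat_lit 89) (nat_lit 596) (@Lb.fm (nat_lit 9) t1692)))))))))))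
noncomputable def l37124 : Lb := (@Lb.d (nat_lit 384) (nat_lit 256) (nat_lit 362) (@Lb.r r24 (@Lb.r r101 (@Lb.g g11 (@Lb.t (@Lb.fp (nat_lit 3) t3940))))))
noncomputable def l37125 : Lb := (@Lb.r r326 (@Lb.d (nat_lit 129) (nat_lit 266) (nat_lit 320) (@Lb.g g8 (@Lb.g g9 (@Lb.g g7 (@Lb.r r594 (@Lb.r r1697 (@Lb.r r612 (@Lb.d (nat_lit 280) (nat_lit 33) (nat_lit 33) (@Lb.t (@Lb.fm (nat_lit 9) t1596)))))))))))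
noncomputable def l37126 : Lb := (@Lb.d (nat_lit 9) (nat_lit 512) (nat_lit 0) (@Lb.g g8 (@Lb.r r609 (@Lb.r r363 (@Lb.r r356 (@Lb.r r154 (@Lb.d (nat_lit 256) (nat_lit 10) (nat_lit 162) (@Lb.t (@Lb.fp (nat_lit 3) t743)))))))))
noncomputable def l37127 : Lb := (@Lb.d (nat_lit 294) (nat_lit 264) (nat_lit 273) (@Lb.r r597 (@Lb.r r682 (@Lb.r r420 (@Lb.r r347 (@Lb.g g7 (@Lb.g g6 (@Lb.d (nat_lit 16) (nat_lit 0) (nat_lit 65) (@Lb.fp (nat_lit 3) t3564)))))))))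
noncomputable def l37128 : Lb := (@Lb.d (nat_lit 386) (nat_lit 512) (nat_lit 362) (@Lb.r r24 (@Lb.r r101 (@Lb.g g11 (@Lb.t (@Lb.fp (nat_lit 3) t3940))))))
noncomputable def l37129 : Lb := (@Lb.d (nat_lit 0) (nat_lit 264) (nat_lit 9) (@Lb.g g9 (@Lb.g g10 (@Lb.g g7 (@Lb.r r2472 (@Lb.r r2154 (@Lb.r r601 (@Lb.d (nat_lit 154) (nat_lit 85) (nat_lit 100) (@Lb.t (@Lb.fm (nat_lit 9) t3360))))))))))
noncomputable def l37130 : Lb := (@Lb.r r323 (@Lb.d (nat_lit 2) (nat_lit 9) (nat_lit 2) (@Lb.g g8 (@Lb.g g9 (@Lb.g g10 (@Lb.r r683 (@Lb.r r170 (@Lb.r r1177 (@Lb.r r1156 (@Lb.d (nat_lit 298) (nat_lit 65) (nat_lit 2) (@Lb.t (@Lb.fm (nat_lit 9) t497))))))))))))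
noncomputable def l37131 : Lb := (@Lb.d (nat_lit 2) (nat_lit 265) (nat_lit 129) (@Lb.g g8 (@Lb.g g9 (@Lb.g g10 (@Lb.g g11 (@Lb.r r1287 (@Lb.r r1689 (@Lb.r r146 (@Lb.r r2564 (@Lb.d (nat_lit 421) (nat_lit 10) (nat_lit 417) (@Lb.fm (nat_lit 9) t1171)))))))))))
noncomputable def l37132 : Lb := (@Lb.d (nat_lit 390) (nat_lit 346) (nat_lit 608) (@Lb.r r2584 (@Lb.r r2178 (@Lb.r r2587 (@Lb.g g7 (@Lb.g g9 (@Lb.g g4 (@Lb.d (nat_lit 0) (nat_lit 70) (nat_lit 64) (@Lb.t (@Lb.fp (nat_lit 9) t6540))))))))))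
noncomputable def l37133 : Lb := (@Lb.d (nat_lit 2) (nat_lit 9) (nat_lit 129) (@Lb.g g8 (@Lb.g g9 (@Lb.g g10 (@Lb.g g11 (@Lb.r r1287 (@Lb.r r1689 (@Lb.r r146 (@Lb.r r2564 (@Lb.d (nat_lit 420) (nat_lit 5) (nat_lit 416) (@Lb.fm (nat_lit 9) t4218)))))))))))
noncomputable def l37134 : Lb := (@Lb.d (nat_lit 8) (nat_lit 258) (nat_lit 2) (@Lb.g g9 (@Lb.g g10 (@Lb.g g7 (@Lb.r r386 (@Lb.r r24 (@Lb.d (nat_lit 608) (nat_lit 2) (nat_lit 601) (@Lb.t (@Lb.fp (nat_lit 9) t698)))))))))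
noncomputable def l37135 : Lb := (@Lb.d (nat_lit 0) (nat_lit 25) (nat_lit 73) (@Lb.g g9 (@Lb.g g10 (@Lb.g g11 (@Lb.r r2691 (@Lb.r r2626 (@Lb.r r2344 (@Lb.r r2457 (@Lb.d (nat_lit 421) (nat_lit 148) (nat_lit 68) (@Lb.t (@Lb.fm (nat_lit 9) t3469)))))))))))
noncomputable def l37136 : Lb := (@Lb.d (nat_lit 0) (nat_lit 281) (nat_lit 73) (@Lb.g g9 (@Lb.g g10 (@Lb.g g11 (@Lb.r r1544 (@Lb.r r539 (@Lb.r r422 (@Lb.r r1317 (@Lb.d (nat_lit 164) (nat_lit 80) (nat_lit 418) (@Lb.t (@Lb.fm (nat_lit 9) t6541)))))))))))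
noncomputable def l37137 : Lb := (@Lb.d (nat_lit 0) (nat_lit 537) (nat_lit 73) (@Lb.g g9 (@Lb.g g10 (@Lb.g g11 (@Lb.r r2691 (@Lb.r r2626 (@Lb.r r2344 (@Lb.r r2457 (@Lb.d (nat_lit 421) (nat_lit 90) (nat_lit 100) (@Lb.t (@Lb.fm (nat_lit 9) t17)))))))))))
noncomputable def l37138 : Lb := (@Lb.r r21 (@Lb.d (nat_lit 138) (nat_lit 288) (nat_lit 322) (@Lb.g g8 (@Lb.g g10 (@Lb.g g11 (@Lb.r r1109 (@Lb.r r2474 (@Lb.r r680 (@Lb.d (nat_lit 38) (nat_lit 22) (nat_lit 385) (@Lb.t (@Lb.fm (nat_lit 9) t5338)))))))))))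
noncomputable def l37139 : Lb := (@Lb.r r323 (@Lb.d (nat_lit 130) (nat_lit 273) (nat_lit 18) (@Lb.g g8 (@Lb.g g5 (@Lb.g g10 (@Lb.r r2343 (@Lb.r r1556 (@Lb.d (nat_lit 150) (nat_lit 96) (nat_lit 642) (@Lb.t (@Lb.fp (nat_lit 9) t468))))))))))
noncomputable def l37140 : Lb := (@Lb.d (nat_lit 2) (nat_lit 329) (nat_lit 9) (@Lb.g g8 (@Lb.g g9 (@Lb.g g10 (@Lb.g g11 (@Lb.r r1371 (@Lb.r r1130 (@Lb.r r2120 (@Lb.d (nat_lit 136) (nat_lit 65) (nat_lit 408) (@Lb.fm (nat_lit 9) t6542))))))))))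
noncomputable def l37141 : Lb := (@Lb.r r402 (@Lb.r r1172 (@Lb.d (nat_lit 292) (nat_lit 608) (nat_lit 20) (@Lb.fm (nat_lit 1) t5721))))
noncomputable def l37142 : Lb := (@Lb.d (nat_lit 0) (nat_lit 514) (nat_lit 600) (@Lb.r r1604 (@Lb.r r402 (@Lb.g g9 (@Lb.d (nat_lit 0) (nat_lit 10) (nat_lit 0) (@Lb.t (@Lb.fm (nat_lit 3) t894)))))))
noncomputable def l37143 : Lb := (@Lb.r r275 (@Lb.d (nat_lit 2) (nat_lit 514) (nat_lit 2) (@Lb.g g8 (@Lb.g g9 (@Lb.g g10 (@Lb.r r2667 (@Lb.r r578 (@Lb.r r417 (@Lb.r r24 (@Lb.d (nat_lit 618) (nat_lit 42) (nat_lit 528) (@Lb.t (@Lb.fp (nat_lit 9) t4609))))))))))))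
noncomputable def l37144 : Lb := (@Lb.d (nat_lit 609) (nat_lit 324) (nat_lit 585) (@Lb.r r1414 (@Lb.r r1624 (@Lb.r r2587 (@Lb.g g6 (@Lb.g g9 (@Lb.g g4 (@Lb.d (nat_lit 33) (nat_lit 33) (nat_lit 1) (@Lb.t (@Lb.fp (nat_lit 9) t1636))))))))))
noncomputable def l37145 : Lb := (@Lb.d (nat_lit 678) (nat_lit 257) (nat_lit 676) (@Lb.r r358 (@Lb.r r2385 (@Lb.r r1575 (@Lb.r r2324 (@Lb.g g6 (@Lb.g g5 (@Lb.g g4 (@Lb.d (nat_lit 2) (nat_lit 1) (nat_lit 5) (@Lb.t (@Lb.fm (nat_lit 9) t668)))))))))))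
noncomputable def l37146 : Lb := (@Lb.d (nat_lit 2) (nat_lit 260) (nat_lit 64) (@Lb.g g8 (@Lb.g g9 (@Lb.g g10 (@Lb.g g7 (@Lb.r r2466 (@Lb.r r1688 (@Lb.r r2469 (@Lb.d (nat_lit 613) (nat_lit 0) (nat_lit 345) (@Lb.fp (nat_lit 9) t6543))))))))))
noncomputable def l37147 : Lb := (@Lb.d (nat_lit 322) (nat_lit 0) (nat_lit 522) (@Lb.r r323 (@Lb.r r2706 (@Lb.r r85 (@Lb.g g7 (@Lb.g g5 (@Lb.g g4 (@Lb.d (nat_lit 517) (nat_lit 2) (nat_lit 128) (@Lb.r r74 (@Lb.t (@Lb.fm (nat_lit 9) t2207)))))))))))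
noncomputable def l37148 : Lb := (@Lb.d (nat_lit 0) (nat_lit 2) (nat_lit 534) (@Lb.r r1604 (@Lb.r r402 (@Lb.g g9 (@Lb.d (nat_lit 0) (nat_lit 10) (nat_lit 0) (@Lb.t (@Lb.fm (nat_lit 3) t894)))))))
noncomputable def l37149 : Lb := (@Lb.d (nat_lit 134) (nat_lit 512) (nat_lit 4) (@Lb.g g8 (@Lb.g g9 (@Lb.g g10 (@Lb.g g11 (@Lb.r r419 (@Lb.r r164 (@Lb.r r1446 (@Lb.r r1317 (@Lb.d (nat_lit 586) (nat_lit 69) (nat_lit 168) (@Lb.fp (nat_lit 9) t6544)))))))))))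
noncomputable def l37150 : Lb := (@Lb.d (nat_lit 0) (nat_lit 0) (nat_lit 136) (@Lb.g g11 (@Lb.r r101 (@Lb.r r402 (@Lb.r r24 (@Lb.d (nat_lit 101) (nat_lit 64) (nat_lit 144) (@Lb.t (@Lb.fm (nat_lit 3) t988))))))))
noncomputable def l37151 : Lb := (@Lb.d (nat_lit 37) (nat_lit 6) (nat_lit 1) (@Lb.r r101 (@Lb.r r24 (@Lb.r r323 (@Lb.g g7 (@Lb.g g6 (@Lb.d (nat_lit 0) (nat_lit 4) (nat_lit 65) (@Lb.fm (nat_lit 3) t985))))))))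
noncomputable def l37152 : Lb := (@Lb.d (nat_lit 0) (nat_lit 256) (nat_lit 136) (@Lb.g g11 (@Lb.r r101 (@Lb.r r402 (@Lb.r r24 (@Lb.d (nat_lit 101) (nat_lit 74) (nat_lit 146) (@Lb.t (@Lb.fm (nat_lit 3) t988))))))))
noncomputable def l37153 : Lb := (@Lb.d (nat_lit 514) (nat_lit 65) (nat_lit 609) (@Lb.r r1637 (@Lb.r r2328 (@Lb.r r2658 (@Lb.r r2723 (@Lb.g g7 (@Lb.g g6 (@Lb.g g5 (@Lb.d (nat_lit 0) (nat_lit 22) (nat_lit 128) (@Lb.t (@Lb.fm (nat_lit 9) t6545)))))))))))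
noncomputable def l37154 : Lb := (@Lb.d (nat_lit 36) (nat_lit 262) (nat_lit 1) (@Lb.r r101 (@Lb.r r24 (@Lb.r r323 (@Lb.g g7 (@Lb.g g6 (@Lb.d (nat_lit 0) (nat_lit 4) (nat_lit 65) (@Lb.fm (nat_lit 3) t985))))))))
noncomputable def l37155 : Lb := (@Lb.d (nat_lit 36) (nat_lit 513) (nat_lit 0) (@Lb.r r101 (@Lb.r r323 (@Lb.g g7 (@Lb.g g6 (@Lb.g g8 (@Lb.d (nat_lit 9) (nat_lit 4) (nat_lit 65) (@Lb.t (@Lb.fp (nat_lit 9) t985)))))))))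
noncomputable def l37156 : Lb := (@Lb.d (nat_lit 0) (nat_lit 257) (nat_lit 0) (@Lb.r r101 (@Lb.r r24 (@Lb.r r323 (@Lb.g g7 (@Lb.g g6 (@Lb.d (nat_lit 0) (nat_lit 0) (nat_lit 64) (@Lb.fm (nat_lit 3) t42))))))))
noncomputable def l37157 : Lb := (@Lb.d (nat_lit 257) (nat_lit 0) (nat_lit 96) (@Lb.r r2196 (@Lb.r r1431 (@Lb.r r2454 (@Lb.r r601 (@Lb.g g7 (@Lb.d (nat_lit 0) (nat_lit 0) (nat_lit 68) (@Lb.t (@Lb.fp (nat_lit 3) t2503)))))))))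
noncomputable def l37158 : Lb := (@Lb.d (nat_lit 10) (nat_lit 386) (nat_lit 256) (@Lb.r r20 (@Lb.r r2145 (@Lb.r r402 (@Lb.g g11 (@Lb.t (@Lb.fp (nat_lit 3) t150)))))))
noncomputable def l37159 : Lb := (@Lb.d (nat_lit 10) (nat_lit 64) (nat_lit 256) (@Lb.r r20 (@Lb.r r2145 (@Lb.r r402 (@Lb.g g11 (@Lb.g g6 (@Lb.fp (nat_lit 3) t393)))))))
noncomputable def l37160 : Lb := (@Lb.r r70 (@Lb.d (nat_lit 136) (nat_lit 514) (nat_lit 128) (@Lb.g g8 (@Lb.g g9 (@Lb.g g11 (@Lb.r r2347 (@Lb.r r1122 (@Lb.r r1300 (@Lb.d (nat_lit 137) (nat_lit 65) (nat_lit 128) (@Lb.t (@Lb.fm (nat_lit 9) t4966)))))))))))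
noncomputable def l37161 : Lb := (@Lb.d (nat_lit 345) (nat_lit 326) (nat_lit 402) (@Lb.r r2312 (@Lb.r r1106 (@Lb.r r1623 (@Lb.g g6 (@Lb.g g5 (@Lb.g g4 (@Lb.d (nat_lit 65) (nat_lit 129) (nat_lit 1) (@Lb.r r387 (@Lb.t (@Lb.fp (nat_lit 9) t98)))))))))))
noncomputable def l37162 : Lb := (@Lb.r r263 (@Lb.d (nat_lit 10) (nat_lit 512) (nat_lit 2) (@Lb.g g8 (@Lb.g g10 (@Lb.r r1691 (@Lb.r r85 (@Lb.r r98 (@Lb.r r2180 (@Lb.d (nat_lit 548) (nat_lit 6) (nat_lit 5) (@Lb.fp (nat_lit 3) t175))))))))))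
noncomputable def l37163 : Lb := (@Lb.d (nat_lit 0) (nat_lit 96) (nat_lit 256) (@Lb.r r1284 (@Lb.r r322 (@Lb.r r659 (@Lb.r r578 (@Lb.g g5 (@Lb.g g4 (@Lb.d (nat_lit 0) (nat_lit 129) (nat_lit 0) (@Lb.fp (nat_lit 3) t2060)))))))))
noncomputable def l37164 : Lb := (@Lb.d (nat_lit 65) (nat_lit 576) (nat_lit 576) (@Lb.r r264 (@Lb.r r2145 (@Lb.r r402 (@Lb.g g11 (@Lb.g g4 (@Lb.d (nat_lit 66) (nat_lit 0) (nat_lit 512) (@Lb.fm (nat_lit 3) t580))))))))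
noncomputable def l37165 : Lb := (@Lb.d (nat_lit 10) (nat_lit 544) (nat_lit 384) (@Lb.r r20 (@Lb.r r2145 (@Lb.r r2642 (@Lb.r r2435 (@Lb.g g7 (@Lb.g g6 (@Lb.d (nat_lit 0) (nat_lit 0) (nat_lit 74) (@Lb.fp (nat_lit 3) t393)))))))))
noncomputable def l37166 : Lb := (@Lb.d (nat_lit 10) (nat_lit 612) (nat_lit 22) (@Lb.r r20 (@Lb.r r2145 (@Lb.r r386 (@Lb.g g11 (@Lb.g g6 (@Lb.d (nat_lit 0) (nat_lit 0) (nat_lit 1) (@Lb.fp (nat_lit 3) t868))))))))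
noncomputable def l37167 : Lb := (@Lb.d (nat_lit 9) (nat_lit 2) (nat_lit 130) (@Lb.g g8 (@Lb.g g9 (@Lb.g g10 (@Lb.g g11 (@Lb.r r2443 (@Lb.r r420 (@Lb.r r1173 (@Lb.r r1110 (@Lb.r r2212 (@Lb.d (nat_lit 9) (nat_lit 161) (nat_lit 610) (@Lb.fp (nat_lit 9) t368))))))))))))
noncomputable def l37168 : Lb := (@Lb.d (nat_lit 10) (nat_lit 0) (nat_lit 0) (@Lb.g g8 (@Lb.g g10 (@Lb.r r2325 (@Lb.r r555 (@Lb.r r676 (@Lb.r r1158 (@Lb.d (nat_lit 5) (nat_lit 88) (nat_lit 256) (@Lb.fm (nat_lit 3) t1951)))))))))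
noncomputable def l37169 : Lb := (@Lb.d (nat_lit 2) (nat_lit 514) (nat_lit 130) (@Lb.g g8 (@Lb.g g9 (@Lb.g g10 (@Lb.g g11 (@Lb.r r610 (@Lb.r r1607 (@Lb.r r2457 (@Lb.r r2436 (@Lb.d (nat_lit 324) (nat_lit 6) (nat_lit 545) (@Lb.fm (nat_lit 9) t2103)))))))))))
noncomputable def l37170 : Lb := (@Lb.r r275 (@Lb.d (nat_lit 9) (nat_lit 4) (nat_lit 0) (@Lb.g g8 (@Lb.g g9 (@Lb.g g10 (@Lb.r r683 (@Lb.r r1610 (@Lb.r r1620 (@Lb.r r153 (@Lb.d (nat_lit 0) (nat_lit 105) (nat_lit 657) (@Lb.t (@Lb.fp (nat_lit 9) t3433))))))))))))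
noncomputable def l37171 : Lb := (@Lb.d (nat_lit 2) (nat_lit 258) (nat_lit 130) (@Lb.g g8 (@Lb.g g9 (@Lb.g g10 (@Lb.g g11 (@Lb.r r610 (@Lb.r r1607 (@Lb.r r2457 (@Lb.r r2436 (@Lb.d (nat_lit 329) (nat_lit 4) (nat_lit 545) (@Lb.fm (nat_lit 9) t2103)))))))))))
noncomputable def l37172 : Lb := (@Lb.d (nat_lit 9) (nat_lit 37) (nat_lit 128) (@Lb.g g8 (@Lb.g g9 (@Lb.g g10 (@Lb.g g11 (@Lb.r r683 (@Lb.r r1610 (@Lb.r r548 (@Lb.r r2085 (@Lb.d (nat_lit 272) (nat_lit 37) (nat_lit 641) (@Lb.fp (nat_lit 9) t3693)))))))))))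
noncomputable def l37173 : Lb := (@Lb.d (nat_lit 4) (nat_lit 514) (nat_lit 66) (@Lb.g g9 (@Lb.g g10 (@Lb.g g7 (@Lb.r r596 (@Lb.r r666 (@Lb.r r337 (@Lb.d (nat_lit 70) (nat_lit 146) (nat_lit 325) (@Lb.t (@Lb.fm (nat_lit 9) t668))))))))))
noncomputable def l37174 : Lb := (@Lb.d (nat_lit 2) (nat_lit 514) (nat_lit 130) (@Lb.g g8 (@Lb.g g9 (@Lb.g g10 (@Lb.g g11 (@Lb.r r610 (@Lb.r r1607 (@Lb.r r2457 (@Lb.r r2436 (@Lb.d (nat_lit 328) (nat_lit 4) (nat_lit 545) (@Lb.fm (nat_lit 9) t2103)))))))))))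
noncomputable def l37175 : Lb := (@Lb.d (nat_lit 0) (nat_lit 514) (nat_lit 128) (@Lb.g g8 (@Lb.g g9 (@Lb.g g11 (@Lb.r r273 (@Lb.r r2467 (@Lb.r r1414 (@Lb.r r1124 (@Lb.d (nat_lit 65) (nat_lit 65) (nat_lit 512) (@Lb.t (@Lb.fp (nat_lit 9) t2102)))))))))))
noncomputable def l37176 : Lb := (@Lb.d (nat_lit 0) (nat_lit 641) (nat_lit 320) (@Lb.r r2085 (@Lb.r r280 (@Lb.r r1354 (@Lb.r r1543 (@Lb.g g7 (@Lb.g g4 (@Lb.d (nat_lit 64) (nat_lit 0) (nat_lit 64) (@Lb.fp (nat_lit 3) t2493)))))))))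
noncomputable def l37177 : Lb := (@Lb.d (nat_lit 598) (nat_lit 32) (nat_lit 66) (@Lb.r r280 (@Lb.r r2663 (@Lb.g g6 (@Lb.g g9 (@Lb.g g4 (@Lb.d (nat_lit 88) (nat_lit 2) (nat_lit 33) (@Lb.r r387 (@Lb.t (@Lb.fm (nat_lit 9) t6546))))))))))
noncomputable def l37178 : Lb := (@Lb.r r82 (@Lb.d (nat_lit 2) (nat_lit 514) (nat_lit 128) (@Lb.g g8 (@Lb.g g9 (@Lb.g g11 (@Lb.r r2659 (@Lb.r r386 (@Lb.r r1109 (@Lb.r r1124 (@Lb.d (nat_lit 616) (nat_lit 138) (nat_lit 512) (@Lb.t (@Lb.fm (nat_lit 9) t3515))))))))))))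
noncomputable def l37179 : Lb := (@Lb.d (nat_lit 2) (nat_lit 256) (nat_lit 0) (@Lb.g g8 (@Lb.r r2331 (@Lb.r r2138 (@Lb.r r2085 (@Lb.d (nat_lit 260) (nat_lit 0) (nat_lit 0) (@Lb.t (@Lb.fm (nat_lit 3) t51))))))))
noncomputable def l37180 : Lb := (@Lb.r r81 (@Lb.r r323 (@Lb.d (nat_lit 2) (nat_lit 264) (nat_lit 1) (@Lb.g g8 (@Lb.g g6 (@Lb.r r2331 (@Lb.r r37 (@Lb.d (nat_lit 4) (nat_lit 128) (nat_lit 17) (@Lb.fm (nat_lit 3) t2083)))))))))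
noncomputable def l37181 : Lb := (@Lb.d (nat_lit 97) (nat_lit 154) (nat_lit 146) (@Lb.r r2410 (@Lb.r r617 (@Lb.r r1387 (@Lb.r r340 (@Lb.g g7 (@Lb.g g6 (@Lb.g g5 (@Lb.d (nat_lit 20) (nat_lit 0) (nat_lit 65) (@Lb.t (@Lb.fm (nat_lit 9) t87)))))))))))
noncomputable def l37182 : Lb := (@Lb.d (nat_lit 0) (nat_lit 512) (nat_lit 72) (@Lb.r r579 (@Lb.g g11 (@Lb.g g6 (@Lb.fm (nat_lit 3) t2)))))
noncomputable def l37183 : Lb := (@Lb.d (nat_lit 0) (nat_lit 517) (nat_lit 0) (@Lb.g g5 (@Lb.r r402 (@Lb.r r2436 (@Lb.d (nat_lit 0) (nat_lit 1) (nat_lit 420) (@Lb.t (@Lb.fp (nat_lit 3) t311)))))))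
noncomputable def l37184 : Lb := (@Lb.r r81 (@Lb.r r323 (@Lb.d (nat_lit 10) (nat_lit 256) (nat_lit 33) (@Lb.g g8 (@Lb.g g6 (@Lb.r r2667 (@Lb.r r149 (@Lb.r r1384 (@Lb.d (nat_lit 550) (nat_lit 42) (nat_lit 36) (@Lb.fp (nat_lit 3) t4885))))))))))
noncomputable def l37185 : Lb := (@Lb.d (nat_lit 9) (nat_lit 520) (nat_lit 72) (@Lb.g g8 (@Lb.g g9 (@Lb.g g10 (@Lb.g g11 (@Lb.r r1699 (@Lb.r r664 (@Lb.r r346 (@Lb.r r2585 (@Lb.d (nat_lit 409) (nat_lit 162) (nat_lit 72) (@Lb.fp (nat_lit 9) t509)))))))))))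
noncomputable def l37186 : Lb := (@Lb.d (nat_lit 418) (nat_lit 512) (nat_lit 86) (@Lb.r r24 (@Lb.r r2458 (@Lb.r r2133 (@Lb.r r323 (@Lb.g g7 (@Lb.g g6 (@Lb.g g5 (@Lb.d (nat_lit 0) (nat_lit 17) (nat_lit 129) (@Lb.t (@Lb.fp (nat_lit 9) t311)))))))))))
noncomputable def l37187 : Lb := (@Lb.d (nat_lit 10) (nat_lit 258) (nat_lit 106) (@Lb.r r2132 (@Lb.r r106 (@Lb.r r2665 (@Lb.r r619 (@Lb.r r584 (@Lb.g g11 (@Lb.g g9 (@Lb.fp (nat_lit 3) t2)))))))))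
noncomputable def l37188 : Lb := (@Lb.r r323 (@Lb.d (nat_lit 33) (nat_lit 521) (nat_lit 1) (@Lb.g g8 (@Lb.g g9 (@Lb.g g10 (@Lb.r r683 (@Lb.r r1186 (@Lb.r r2389 (@Lb.r r2660 (@Lb.d (nat_lit 138) (nat_lit 154) (nat_lit 409) (@Lb.t (@Lb.fm (nat_lit 9) t6283))))))))))))
noncomputable def l37189 : Lb := (@Lb.d (nat_lit 133) (nat_lit 512) (nat_lit 130) (@Lb.g g8 (@Lb.g g9 (@Lb.g g10 (@Lb.g g11 (@Lb.r r2698 (@Lb.r r2443 (@Lb.r r97 (@Lb.r r1444 (@Lb.d (nat_lit 609) (nat_lit 150) (nat_lit 386) (@Lb.fp (nat_lit 9) t6547)))))))))))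
noncomputable def l37190 : Lb := (@Lb.r r82 (@Lb.r r263 (@Lb.d (nat_lit 4) (nat_lit 130) (nat_lit 0) (@Lb.g g8 (@Lb.g g5 (@Lb.r r2651 (@Lb.r r386 (@Lb.r r1048 (@Lb.d (nat_lit 10) (nat_lit 64) (nat_lit 66) (@Lb.fm (nat_lit 3) t6548))))))))))
noncomputable def l37191 : Lb := (@Lb.d (nat_lit 134) (nat_lit 2) (nat_lit 130) (@Lb.g g8 (@Lb.g g9 (@Lb.g g10 (@Lb.g g11 (@Lb.r r2730 (@Lb.r r2475 (@Lb.r r2088 (@Lb.r r105 (@Lb.d (nat_lit 358) (nat_lit 133) (nat_lit 161) (@Lb.fm (nat_lit 9) t6549)))))))))))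
noncomputable def l37192 : Lb := (@Lb.d (nat_lit 5) (nat_lit 512) (nat_lit 130) (@Lb.g g8 (@Lb.g g10 (@Lb.g g11 (@Lb.r r293 (@Lb.r r279 (@Lb.r r1642 (@Lb.r r548 (@Lb.d (nat_lit 649) (nat_lit 18) (nat_lit 404) (@Lb.t (@Lb.fp (nat_lit 9) t421)))))))))))
noncomputable def l37193 : Lb := (@Lb.r r263 (@Lb.d (nat_lit 162) (nat_lit 34) (nat_lit 1) (@Lb.g g8 (@Lb.g g9 (@Lb.g g10 (@Lb.r r427 (@Lb.r r358 (@Lb.r r2200 (@Lb.r r2709 (@Lb.d (nat_lit 101) (nat_lit 17) (nat_lit 545) (@Lb.t (@Lb.fp (nat_lit 9) t1033))))))))))))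
noncomputable def l37194 : Lb := (@Lb.r r263 (@Lb.d (nat_lit 164) (nat_lit 544) (nat_lit 1) (@Lb.g g8 (@Lb.g g9 (@Lb.g g10 (@Lb.r r427 (@Lb.r r358 (@Lb.r r2200 (@Lb.r r2709 (@Lb.d (nat_lit 101) (nat_lit 17) (nat_lit 545) (@Lb.t (@Lb.fp (nat_lit 9) t1033))))))))))))
noncomputable def l37195 : Lb := (@Lb.d (nat_lit 1) (nat_lit 422) (nat_lit 512) (@Lb.r r1362 (@Lb.g g7 (@Lb.g g6 (@Lb.g g5 (@Lb.d (nat_lit 4) (nat_lit 1) (nat_lit 65) (@Lb.t (@Lb.fp (nat_lit 9) t285))))))))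
noncomputable def l37196 : Lb := (@Lb.d (nat_lit 0) (nat_lit 264) (nat_lit 64) (@Lb.g g10 (@Lb.g g11 (@Lb.r r1684 (@Lb.r r345 (@Lb.r r2599 (@Lb.r r2370 (@Lb.d (nat_lit 640) (nat_lit 16) (nat_lit 102) (@Lb.fp (nat_lit 3) t1222)))))))))
noncomputable def l37197 : Lb := (@Lb.r r331 (@Lb.d (nat_lit 680) (nat_lit 512) (nat_lit 0) (@Lb.g g8 (@Lb.g g6 (@Lb.r r1411 (@Lb.d (nat_lit 9) (nat_lit 130) (nat_lit 394) (@Lb.fp (nat_lit 3) t6261)))))))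
noncomputable def l37198 : Lb := (@Lb.d (nat_lit 33) (nat_lit 514) (nat_lit 73) (@Lb.g g8 (@Lb.g g9 (@Lb.g g10 (@Lb.g g11 (@Lb.r r1194 (@Lb.r r549 (@Lb.r r615 (@Lb.r r2577 (@Lb.r r2180 (@Lb.d (nat_lit 385) (nat_lit 0) (nat_lit 150) (@Lb.fm (nat_lit 9) t74))))))))))))
noncomputable def l37199 : Lb := (@Lb.d (nat_lit 10) (nat_lit 514) (nat_lit 73) (@Lb.g g8 (@Lb.g g9 (@Lb.g g10 (@Lb.g g11 (@Lb.r r1643 (@Lb.r r1642 (@Lb.r r2145 (@Lb.r r2648 (@Lb.d (nat_lit 600) (nat_lit 33) (nat_lit 402) (@Lb.fm (nat_lit 9) t6550)))))))))))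
noncomputable def l37200 : Lb := (@Lb.d (nat_lit 8) (nat_lit 2) (nat_lit 40) (@Lb.g g9 (@Lb.g g6 (@Lb.g g11 (@Lb.r r579 (@Lb.d (nat_lit 2) (nat_lit 0) (nat_lit 154) (@Lb.t (@Lb.fm (nat_lit 9) t2))))))))
noncomputable def l37201 : Lb := (@Lb.d (nat_lit 409) (nat_lit 326) (nat_lit 17) (@Lb.r r580 (@Lb.r r1106 (@Lb.r r1623 (@Lb.g g6 (@Lb.g g5 (@Lb.g g4 (@Lb.d (nat_lit 97) (nat_lit 17) (nat_lit 1) (@Lb.t (@Lb.fm (nat_lit 9) t100))))))))))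
noncomputable def l37202 : Lb := (@Lb.d (nat_lit 74) (nat_lit 16) (nat_lit 64) (@Lb.r r292 (@Lb.r r347 (@Lb.g g10 (@Lb.g g9 (@Lb.g g4 (@Lb.d (nat_lit 68) (nat_lit 2) (nat_lit 5) (@Lb.r r423 (@Lb.t (@Lb.fp (nat_lit 9) t522))))))))))
noncomputable def l37203 : Lb := (@Lb.d (nat_lit 33) (nat_lit 514) (nat_lit 129) (@Lb.g g8 (@Lb.g g9 (@Lb.g g10 (@Lb.g g11 (@Lb.r r582 (@Lb.r r529 (@Lb.r r603 (@Lb.r r600 (@Lb.d (nat_lit 134) (nat_lit 37) (nat_lit 136) (@Lb.fp (nat_lit 9) t522)))))))))))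
noncomputable def l37204 : Lb := (@Lb.d (nat_lit 9) (nat_lit 6) (nat_lit 128) (@Lb.g g8 (@Lb.g g9 (@Lb.g g10 (@Lb.g g11 (@Lb.r r427 (@Lb.r r386 (@Lb.r r25 (@Lb.d (nat_lit 9) (nat_lit 137) (nat_lit 258) (@Lb.fm (nat_lit 9) t1027))))))))))
noncomputable def l37205 : Lb := (@Lb.d (nat_lit 648) (nat_lit 90) (nat_lit 342) (@Lb.r r1624 (@Lb.r r1307 (@Lb.r r2657 (@Lb.g g7 (@Lb.g g10 (@Lb.g g5 (@Lb.g g4 (@Lb.d (nat_lit 146) (nat_lit 24) (nat_lit 6) (@Lb.fm (nat_lit 9) t5379))))))))))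
noncomputable def l37206 : Lb := (@Lb.d (nat_lit 73) (nat_lit 293) (nat_lit 74) (@Lb.g g8 (@Lb.g g9 (@Lb.g g10 (@Lb.g g11 (@Lb.r r529 (@Lb.r r535 (@Lb.r r2154 (@Lb.r r2120 (@Lb.d (nat_lit 288) (nat_lit 164) (nat_lit 166) (@Lb.fp (nat_lit 9) t5626)))))))))))
noncomputable def l37207 : Lb := (@Lb.d (nat_lit 72) (nat_lit 528) (nat_lit 64) (@Lb.r r292 (@Lb.r r347 (@Lb.g g10 (@Lb.g g9 (@Lb.g g4 (@Lb.d (nat_lit 68) (nat_lit 2) (nat_lit 5) (@Lb.r r423 (@Lb.t (@Lb.fp (nat_lit 9) t522))))))))))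
noncomputable def l37208 : Lb := (@Lb.d (nat_lit 0) (nat_lit 40) (nat_lit 133) (@Lb.g g9 (@Lb.g g10 (@Lb.g g11 (@Lb.r r2731 (@Lb.r r346 (@Lb.r r1561 (@Lb.r r24 (@Lb.d (nat_lit 416) (nat_lit 149) (nat_lit 417) (@Lb.t (@Lb.fm (nat_lit 9) t6551)))))))))))
noncomputable def l37209 : Lb := (@Lb.d (nat_lit 33) (nat_lit 552) (nat_lit 133) (@Lb.g g8 (@Lb.g g9 (@Lb.g g10 (@Lb.g g11 (@Lb.r r2723 (@Lb.r r338 (@Lb.r r36 (@Lb.r r533 (@Lb.r r1060 (@Lb.d (nat_lit 257) (nat_lit 34) (nat_lit 337) (@Lb.fm (nat_lit 9) t2847))))))))))))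
noncomputable def l37210 : Lb := (@Lb.r r322 (@Lb.d (nat_lit 2) (nat_lit 16) (nat_lit 648) (@Lb.g g8 (@Lb.g g11 (@Lb.r r2454 (@Lb.r r1633 (@Lb.r r24 (@Lb.d (nat_lit 288) (nat_lit 4) (nat_lit 37) (@Lb.fp (nat_lit 3) t2487)))))))))
noncomputable def l37211 : Lb := (@Lb.d (nat_lit 8) (nat_lit 420) (nat_lit 128) (@Lb.g g9 (@Lb.g g11 (@Lb.r r1378 (@Lb.r r403 (@Lb.d (nat_lit 2) (nat_lit 9) (nat_lit 594) (@Lb.fm (nat_lit 3) t406)))))))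
noncomputable def l37212 : Lb := (@Lb.d (nat_lit 34) (nat_lit 296) (nat_lit 133) (@Lb.g g8 (@Lb.g g9 (@Lb.g g10 (@Lb.g g11 (@Lb.r r2723 (@Lb.r r338 (@Lb.r r36 (@Lb.r r533 (@Lb.r r1060 (@Lb.d (nat_lit 257) (nat_lit 34) (nat_lit 337) (@Lb.fm (nat_lit 9) t2847))))))))))))
noncomputable def l37213 : Lb := (@Lb.r r665 (@Lb.r r602 (@Lb.r r2456 (@Lb.r r1639 (@Lb.r r2585 (@Lb.d (nat_lit 292) (nat_lit 328) (nat_lit 17) (@Lb.fp (nat_lit 1) t1096)))))))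
noncomputable def l37214 : Lb := (@Lb.d (nat_lit 8) (nat_lit 16) (nat_lit 128) (@Lb.g g9 (@Lb.g g11 (@Lb.r r1428 (@Lb.r r2667 (@Lb.r r2722 (@Lb.r r2705 (@Lb.d (nat_lit 37) (nat_lit 98) (nat_lit 266) (@Lb.fm (nat_lit 3) t6552)))))))))
noncomputable def l37215 : Lb := (@Lb.r r283 (@Lb.d (nat_lit 8) (nat_lit 281) (nat_lit 8) (@Lb.g g8 (@Lb.g g9 (@Lb.g g6 (@Lb.r r619 (@Lb.r r1636 (@Lb.d (nat_lit 666) (nat_lit 153) (nat_lit 648) (@Lb.t (@Lb.fm (nat_lit 9) t3617))))))))))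
noncomputable def l37216 : Lb := (@Lb.r r275 (@Lb.d (nat_lit 2) (nat_lit 266) (nat_lit 1) (@Lb.g g8 (@Lb.g g9 (@Lb.g g10 (@Lb.r r2666 (@Lb.r r2635 (@Lb.r r2145 (@Lb.d (nat_lit 644) (nat_lit 38) (nat_lit 41) (@Lb.t (@Lb.fm (nat_lit 9) t4038)))))))))))
noncomputable def l37217 : Lb := (@Lb.d (nat_lit 128) (nat_lit 272) (nat_lit 137) (@Lb.g g9 (@Lb.g g10 (@Lb.g g11 (@Lb.r r614 (@Lb.r r388 (@Lb.r r587 (@Lb.r r2085 (@Lb.d (nat_lit 97) (nat_lit 130) (nat_lit 18) (@Lb.t (@Lb.fm (nat_lit 9) t4134)))))))))))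
noncomputable def l37218 : Lb := (@Lb.r r275 (@Lb.d (nat_lit 641) (nat_lit 25) (nat_lit 1) (@Lb.g g4 (@Lb.g g9 (@Lb.g g10 (@Lb.r r643 (@Lb.r r1158 (@Lb.d (nat_lit 592) (nat_lit 33) (nat_lit 257) (@Lb.t (@Lb.fp (nat_lit 9) t6553))))))))))
noncomputable def l37219 : Lb := (@Lb.r r82 (@Lb.r r275 (@Lb.d (nat_lit 34) (nat_lit 130) (nat_lit 0) (@Lb.g g8 (@Lb.g g5 (@Lb.r r2579 (@Lb.r r582 (@Lb.r r408 (@Lb.d (nat_lit 154) (nat_lit 106) (nat_lit 138) (@Lb.fp (nat_lit 3) t5380))))))))))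
noncomputable def l37220 : Lb := (@Lb.d (nat_lit 421) (nat_lit 22) (nat_lit 584) (@Lb.r r1684 (@Lb.r r345 (@Lb.g g7 (@Lb.g g4 (@Lb.d (nat_lit 68) (nat_lit 0) (nat_lit 576) (@Lb.fm (nat_lit 3) t3143)))))))
noncomputable def l37221 : Lb := (@Lb.d (nat_lit 646) (nat_lit 153) (nat_lit 96) (@Lb.r r1301 (@Lb.r r619 (@Lb.g g10 (@Lb.g g5 (@Lb.g g4 (@Lb.d (nat_lit 258) (nat_lit 0) (nat_lit 33) (@Lb.r r423 (@Lb.t (@Lb.fp (nat_lit 9) t6554))))))))))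
noncomputable def l37222 : Lb := (@Lb.d (nat_lit 598) (nat_lit 640) (nat_lit 276) (@Lb.r r2372 (@Lb.r r2389 (@Lb.r r1130 (@Lb.g g11 (@Lb.g g5 (@Lb.g g4 (@Lb.d (nat_lit 81) (nat_lit 1) (nat_lit 132) (@Lb.r r586 (@Lb.t (@Lb.fm (nat_lit 9) t694)))))))))))
noncomputable def l37223 : Lb := (@Lb.d (nat_lit 128) (nat_lit 258) (nat_lit 73) (@Lb.g g8 (@Lb.g g9 (@Lb.g g10 (@Lb.g g11 (@Lb.r r419 (@Lb.r r1702 (@Lb.r r344 (@Lb.r r1429 (@Lb.r r1060 (@Lb.d (nat_lit 617) (nat_lit 166) (nat_lit 344) (@Lb.fp (nat_lit 9) t2106))))))))))))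
noncomputable def l37224 : Lb := (@Lb.r r273 (@Lb.r r551 (@Lb.r r340 (@Lb.r r170 (@Lb.r r153 (@Lb.d (nat_lit 538) (nat_lit 512) (nat_lit 16) (@Lb.fp (nat_lit 1) t1607)))))))
noncomputable def l37225 : Lb := (@Lb.d (nat_lit 2) (nat_lit 129) (nat_lit 400) (@Lb.r r24 (@Lb.r r82 (@Lb.r r1441 (@Lb.g g11 (@Lb.g g5 (@Lb.d (nat_lit 0) (nat_lit 1) (nat_lit 392) (@Lb.r r98 (@Lb.fp (nat_lit 3) t1812)))))))))
noncomputable def l37226 : Lb := (@Lb.d (nat_lit 2) (nat_lit 258) (nat_lit 40) (@Lb.g g8 (@Lb.g g9 (@Lb.g g6 (@Lb.g g11 (@Lb.r r579 (@Lb.r r25 (@Lb.d (nat_lit 9) (nat_lit 0) (nat_lit 154) (@Lb.fp (nat_lit 9) t2)))))))))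
noncomputable def l37227 : Lb := (@Lb.d (nat_lit 266) (nat_lit 345) (nat_lit 581) (@Lb.r r2661 (@Lb.r r1304 (@Lb.r r2659 (@Lb.r r342 (@Lb.g g7 (@Lb.g g6 (@Lb.d (nat_lit 0) (nat_lit 0) (nat_lit 66) (@Lb.fp (nat_lit 3) t6555)))))))))
noncomputable def l37228 : Lb := (@Lb.r r323 (@Lb.d (nat_lit 130) (nat_lit 264) (nat_lit 2) (@Lb.g g8 (@Lb.g g10 (@Lb.r r1351 (@Lb.r r97 (@Lb.r r146 (@Lb.r r2632 (@Lb.d (nat_lit 352) (nat_lit 130) (nat_lit 297) (@Lb.fp (nat_lit 3) t2919))))))))))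
noncomputable def l37229 : Lb := (@Lb.d (nat_lit 2) (nat_lit 514) (nat_lit 4) (@Lb.g g8 (@Lb.g g9 (@Lb.g g10 (@Lb.g g11 (@Lb.r r2691 (@Lb.r r1385 (@Lb.r r2198 (@Lb.r r1096 (@Lb.d (nat_lit 41) (nat_lit 82) (nat_lit 665) (@Lb.fp (nat_lit 9) t476)))))))))))
noncomputable def l37230 : Lb := (@Lb.r r323 (@Lb.d (nat_lit 129) (nat_lit 8) (nat_lit 2) (@Lb.g g8 (@Lb.g g10 (@Lb.r r279 (@Lb.r r97 (@Lb.r r146 (@Lb.r r600 (@Lb.d (nat_lit 104) (nat_lit 36) (nat_lit 132) (@Lb.fp (nat_lit 3) t45))))))))))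
noncomputable def l37231 : Lb := (@Lb.r r323 (@Lb.d (nat_lit 0) (nat_lit 512) (nat_lit 2) (@Lb.g g9 (@Lb.g g10 (@Lb.r r102 (@Lb.r r404 (@Lb.r r619 (@Lb.r r609 (@Lb.d (nat_lit 1) (nat_lit 17) (nat_lit 0) (@Lb.fm (nat_lit 3) t71))))))))))
noncomputable def l37232 : Lb := (@Lb.d (nat_lit 134) (nat_lit 537) (nat_lit 594) (@Lb.r r2584 (@Lb.r r1414 (@Lb.r r2587 (@Lb.r r353 (@Lb.g g7 (@Lb.g g5 (@Lb.g g4 (@Lb.d (nat_lit 1) (nat_lit 0) (nat_lit 64) (@Lb.t (@Lb.fp (nat_lit 9) t1757)))))))))))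
noncomputable def l37233 : Lb := (@Lb.d (nat_lit 128) (nat_lit 256) (nat_lit 17) (@Lb.g g8 (@Lb.g g10 (@Lb.r r661 (@Lb.r r1431 (@Lb.r r1572 (@Lb.d (nat_lit 394) (nat_lit 146) (nat_lit 358) (@Lb.fm (nat_lit 3) t100))))))))
noncomputable def l37234 : Lb := (@Lb.r r275 (@Lb.d (nat_lit 2) (nat_lit 522) (nat_lit 1) (@Lb.g g8 (@Lb.g g9 (@Lb.g g10 (@Lb.r r643 (@Lb.r r2209 (@Lb.r r1638 (@Lb.r r2436 (@Lb.d (nat_lit 360) (nat_lit 16) (nat_lit 538) (@Lb.t (@Lb.fm (nat_lit 9) t4678))))))))))))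
noncomputable def l37235 : Lb := (@Lb.d (nat_lit 134) (nat_lit 256) (nat_lit 4) (@Lb.g g8 (@Lb.g g9 (@Lb.g g10 (@Lb.g g11 (@Lb.r r82 (@Lb.r r1365 (@Lb.r r2411 (@Lb.r r2084 (@Lb.d (nat_lit 25) (nat_lit 66) (nat_lit 656) (@Lb.fp (nat_lit 9) t4257)))))))))))
noncomputable def l37236 : Lb := (@Lb.d (nat_lit 129) (nat_lit 280) (nat_lit 594) (@Lb.r r2584 (@Lb.r r2178 (@Lb.r r2587 (@Lb.r r401 (@Lb.g g7 (@Lb.g g4 (@Lb.d (nat_lit 0) (nat_lit 0) (nat_lit 64) (@Lb.fp (nat_lit 3) t669)))))))))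
noncomputable def l37237 : Lb := (@Lb.d (nat_lit 10) (nat_lit 0) (nat_lit 17) (@Lb.g g8 (@Lb.g g10 (@Lb.r r1381 (@Lb.r r1691 (@Lb.r r2584 (@Lb.d (nat_lit 586) (nat_lit 9) (nat_lit 513) (@Lb.fp (nat_lit 3) t4132))))))))
noncomputable def l37238 : Lb := (@Lb.d (nat_lit 665) (nat_lit 133) (nat_lit 257) (@Lb.r r105 (@Lb.r r36 (@Lb.r r426 (@Lb.r r579 (@Lb.g g5 (@Lb.d (nat_lit 4) (nat_lit 1) (nat_lit 0) (@Lb.t (@Lb.fp (nat_lit 3) t6556)))))))))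
noncomputable def l37239 : Lb := (@Lb.d (nat_lit 136) (nat_lit 274) (nat_lit 2) (@Lb.g g8 (@Lb.g g9 (@Lb.g g10 (@Lb.g g11 (@Lb.r r1706 (@Lb.r r644 (@Lb.r r535 (@Lb.r r297 (@Lb.r r1060 (@Lb.d (nat_lit 673) (nat_lit 97) (nat_lit 354) (@Lb.fm (nat_lit 9) t6148))))))))))))
noncomputable def l37240 : Lb := (@Lb.d (nat_lit 2) (nat_lit 512) (nat_lit 66) (@Lb.g g8 (@Lb.g g10 (@Lb.g g7 (@Lb.r r386 (@Lb.r r2152 (@Lb.r r2073 (@Lb.d (nat_lit 328) (nat_lit 137) (nat_lit 537) (@Lb.t (@Lb.fp (nat_lit 9) t1150))))))))))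
noncomputable def l37241 : Lb := (@Lb.d (nat_lit 9) (nat_lit 258) (nat_lit 0) (@Lb.g g8 (@Lb.g g9 (@Lb.g g11 (@Lb.r r1561 (@Lb.r r2584 (@Lb.d (nat_lit 388) (nat_lit 34) (nat_lit 384) (@Lb.t (@Lb.fp (nat_lit 9) t121)))))))))
noncomputable def l37242 : Lb := (@Lb.d (nat_lit 2) (nat_lit 288) (nat_lit 130) (@Lb.g g8 (@Lb.g g10 (@Lb.g g11 (@Lb.r r602 (@Lb.r r401 (@Lb.r r2659 (@Lb.r r24 (@Lb.d (nat_lit 514) (nat_lit 101) (nat_lit 553) (@Lb.t (@Lb.fm (nat_lit 9) t1628)))))))))))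
noncomputable def l37243 : Lb := (@Lb.r r322 (@Lb.d (nat_lit 10) (nat_lit 256) (nat_lit 576) (@Lb.g g8 (@Lb.g g7 (@Lb.r r661 (@Lb.r r146 (@Lb.r r2436 (@Lb.d (nat_lit 612) (nat_lit 1) (nat_lit 322) (@Lb.fm (nat_lit 3) t1831)))))))))
noncomputable def l37244 : Lb := (@Lb.d (nat_lit 10) (nat_lit 514) (nat_lit 66) (@Lb.g g8 (@Lb.g g9 (@Lb.g g10 (@Lb.g g7 (@Lb.r r386 (@Lb.r r24 (@Lb.r r2069 (@Lb.r r36 (@Lb.d (nat_lit 10) (nat_lit 4) (nat_lit 138) (@Lb.fm (nat_lit 9) t45)))))))))))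
noncomputable def l37245 : Lb := (@Lb.d (nat_lit 10) (nat_lit 258) (nat_lit 130) (@Lb.g g8 (@Lb.g g9 (@Lb.g g10 (@Lb.g g11 (@Lb.r r100 (@Lb.r r2202 (@Lb.r r1621 (@Lb.r r2391 (@Lb.r r1700 (@Lb.d (nat_lit 289) (nat_lit 4) (nat_lit 32) (@Lb.fm (nat_lit 9) t947))))))))))))
noncomputable def l37246 : Lb := (@Lb.d (nat_lit 2) (nat_lit 514) (nat_lit 73) (@Lb.g g8 (@Lb.g g9 (@Lb.g g10 (@Lb.g g11 (@Lb.r r2729 (@Lb.r r2475 (@Lb.r r2468 (@Lb.r r2438 (@Lb.d (nat_lit 616) (nat_lit 9) (nat_lit 617) (@Lb.fp (nat_lit 9) t6373)))))))))))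
noncomputable def l37247 : Lb := (@Lb.r r70 (@Lb.d (nat_lit 132) (nat_lit 5) (nat_lit 64) (@Lb.g g8 (@Lb.g g5 (@Lb.g g11 (@Lb.r r1643 (@Lb.r r1626 (@Lb.r r580 (@Lb.d (nat_lit 546) (nat_lit 6) (nat_lit 681) (@Lb.t (@Lb.fm (nat_lit 9) t50)))))))))))
noncomputable def l37248 : Lb := (@Lb.d (nat_lit 578) (nat_lit 0) (nat_lit 640) (@Lb.r r2312 (@Lb.r r2329 (@Lb.r r579 (@Lb.r r1350 (@Lb.g g6 (@Lb.g g4 (@Lb.d (nat_lit 1) (nat_lit 0) (nat_lit 1) (@Lb.r r25 (@Lb.fm (nat_lit 3) t145))))))))))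
noncomputable def l37249 : Lb := (@Lb.d (nat_lit 389) (nat_lit 658) (nat_lit 389) (@Lb.r r24 (@Lb.r r2337 (@Lb.r r579 (@Lb.r r1366 (@Lb.g g6 (@Lb.g g5 (@Lb.g g4 (@Lb.d (nat_lit 1) (nat_lit 1) (nat_lit 1) (@Lb.t (@Lb.fm (nat_lit 9) t985)))))))))))
noncomputable def l37250 : Lb := (@Lb.d (nat_lit 149) (nat_lit 522) (nat_lit 2) (@Lb.g g8 (@Lb.g g9 (@Lb.g g10 (@Lb.r r2695 (@Lb.r r402 (@Lb.r r2469 (@Lb.r r404 (@Lb.d (nat_lit 614) (nat_lit 26) (nat_lit 100) (@Lb.t (@Lb.fp (nat_lit 9) t400)))))))))))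
noncomputable def l37251 : Lb := (@Lb.r r21 (@Lb.d (nat_lit 129) (nat_lit 512) (nat_lit 130) (@Lb.g g8 (@Lb.g g10 (@Lb.g g11 (@Lb.r r583 (@Lb.r r1674 (@Lb.r r2389 (@Lb.r r1672 (@Lb.d (nat_lit 392) (nat_lit 2) (nat_lit 90) (@Lb.t (@Lb.fp (nat_lit 9) t1643))))))))))))
noncomputable def l37252 : Lb := (@Lb.r r21 (@Lb.d (nat_lit 2) (nat_lit 0) (nat_lit 0) (@Lb.g g8 (@Lb.g g6 (@Lb.r r1429 (@Lb.r r2632 (@Lb.d (nat_lit 169) (nat_lit 2) (nat_lit 408) (@Lb.fm (nat_lit 3) t6557))))))))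
noncomputable def l37253 : Lb := (@Lb.d (nat_lit 0) (nat_lit 514) (nat_lit 0) (@Lb.g g9 (@Lb.r r322 (@Lb.r r1667 (@Lb.r r578 (@Lb.r r148 (@Lb.r r25 (@Lb.d (nat_lit 34) (nat_lit 10) (nat_lit 17) (@Lb.t (@Lb.fm (nat_lit 3) t40))))))))))
noncomputable def l37254 : Lb := (@Lb.d (nat_lit 128) (nat_lit 265) (nat_lit 129) (@Lb.g g9 (@Lb.g g10 (@Lb.g g11 (@Lb.r r2709 (@Lb.r r292 (@Lb.r r2651 (@Lb.r r2438 (@Lb.d (nat_lit 160) (nat_lit 74) (nat_lit 290) (@Lb.t (@Lb.fm (nat_lit 9) t1919)))))))))))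
noncomputable def l37255 : Lb := (@Lb.d (nat_lit 0) (nat_lit 514) (nat_lit 66) (@Lb.g g8 (@Lb.g g9 (@Lb.g g10 (@Lb.g g7 (@Lb.r r2466 (@Lb.r r292 (@Lb.r r405 (@Lb.r r2084 (@Lb.d (nat_lit 612) (nat_lit 88) (nat_lit 345) (@Lb.fp (nat_lit 9) t1756)))))))))))
noncomputable def l37256 : Lb := (@Lb.d (nat_lit 149) (nat_lit 266) (nat_lit 66) (@Lb.g g8 (@Lb.g g9 (@Lb.g g10 (@Lb.g g11 (@Lb.r r427 (@Lb.r r1177 (@Lb.r r1434 (@Lb.r r2456 (@Lb.d (nat_lit 9) (nat_lit 104) (nat_lit 73) (@Lb.fp (nat_lit 9) t6558)))))))))))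
noncomputable def l37257 : Lb := (@Lb.d (nat_lit 0) (nat_lit 10) (nat_lit 130) (@Lb.g g9 (@Lb.g g10 (@Lb.g g11 (@Lb.r r536 (@Lb.r r2715 (@Lb.r r2389 (@Lb.r r2730 (@Lb.r r164 (@Lb.d (nat_lit 356) (nat_lit 130) (nat_lit 546) (@Lb.t (@Lb.fp (nat_lit 9) t6559))))))))))))
noncomputable def l37258 : Lb := (@Lb.d (nat_lit 0) (nat_lit 2) (nat_lit 66) (@Lb.g g8 (@Lb.g g9 (@Lb.g g10 (@Lb.g g7 (@Lb.r r2466 (@Lb.r r292 (@Lb.r r405 (@Lb.r r2084 (@Lb.d (nat_lit 610) (nat_lit 90) (nat_lit 345) (@Lb.fp (nat_lit 9) t2118)))))))))))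
noncomputable def l37259 : Lb := (@Lb.d (nat_lit 41) (nat_lit 260) (nat_lit 26) (@Lb.r r84 (@Lb.r r1177 (@Lb.r r154 (@Lb.r r644 (@Lb.g g7 (@Lb.d (nat_lit 64) (nat_lit 0) (nat_lit 576) (@Lb.t (@Lb.fp (nat_lit 3) t2700)))))))))
noncomputable def l37260 : Lb := (@Lb.d (nat_lit 617) (nat_lit 8) (nat_lit 580) (@Lb.r r1354 (@Lb.r r1380 (@Lb.r r539 (@Lb.g g6 (@Lb.g g9 (@Lb.g g4 (@Lb.d (nat_lit 1) (nat_lit 129) (nat_lit 5) (@Lb.r r387 (@Lb.t (@Lb.fp (nat_lit 9) t648)))))))))))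
noncomputable def l37261 : Lb := (@Lb.r r323 (@Lb.d (nat_lit 2) (nat_lit 2) (nat_lit 2) (@Lb.g g8 (@Lb.g g9 (@Lb.g g10 (@Lb.r r401 (@Lb.r r299 (@Lb.r r392 (@Lb.r r74 (@Lb.d (nat_lit 528) (nat_lit 10) (nat_lit 160) (@Lb.t (@Lb.fp (nat_lit 9) t756))))))))))))
noncomputable def l37262 : Lb := (@Lb.d (nat_lit 130) (nat_lit 264) (nat_lit 2) (@Lb.g g8 (@Lb.g g10 (@Lb.g g11 (@Lb.r r1415 (@Lb.r r1604 (@Lb.d (nat_lit 512) (nat_lit 2) (nat_lit 425) (@Lb.t (@Lb.fm (nat_lit 9) t3760)))))))))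
noncomputable def l37263 : Lb := (@Lb.d (nat_lit 0) (nat_lit 0) (nat_lit 130) (@Lb.g g10 (@Lb.g g11 (@Lb.r r665 (@Lb.r r2587 (@Lb.r r386 (@Lb.d (nat_lit 389) (nat_lit 81) (nat_lit 537) (@Lb.fm (nat_lit 3) t417))))))))
noncomputable def l37264 : Lb := (@Lb.d (nat_lit 664) (nat_lit 26) (nat_lit 84) (@Lb.r r600 (@Lb.r r603 (@Lb.r r273 (@Lb.g g7 (@Lb.g g10 (@Lb.g g4 (@Lb.d (nat_lit 22) (nat_lit 0) (nat_lit 66) (@Lb.r r25 (@Lb.t (@Lb.fm (nat_lit 9) t414)))))))))))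
noncomputable def l37265 : Lb := (@Lb.r r323 (@Lb.d (nat_lit 0) (nat_lit 553) (nat_lit 1) (@Lb.g g9 (@Lb.g g10 (@Lb.r r599 (@Lb.r r420 (@Lb.r r102 (@Lb.d (nat_lit 42) (nat_lit 4) (nat_lit 17) (@Lb.fp (nat_lit 3) t901)))))))))
noncomputable def l37266 : Lb := (@Lb.d (nat_lit 641) (nat_lit 512) (nat_lit 0) (@Lb.g g4 (@Lb.r r273 (@Lb.r r2595 (@Lb.r r2178 (@Lb.r r529 (@Lb.d (nat_lit 8) (nat_lit 130) (nat_lit 0) (@Lb.t (@Lb.fm (nat_lit 3) t1222)))))))))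
noncomputable def l37267 : Lb := (@Lb.d (nat_lit 642) (nat_lit 0) (nat_lit 0) (@Lb.g g4 (@Lb.r r273 (@Lb.r r2595 (@Lb.r r2178 (@Lb.r r529 (@Lb.d (nat_lit 1) (nat_lit 128) (nat_lit 0) (@Lb.t (@Lb.fm (nat_lit 3) t1222)))))))))
noncomputable def l37268 : Lb := (@Lb.r r323 (@Lb.d (nat_lit 36) (nat_lit 256) (nat_lit 2) (@Lb.g g8 (@Lb.g g9 (@Lb.g g10 (@Lb.r r2635 (@Lb.r r2146 (@Lb.r r2721 (@Lb.r r2180 (@Lb.d (nat_lit 297) (nat_lit 37) (nat_lit 390) (@Lb.t (@Lb.fm (nat_lit 9) t6560))))))))))))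
noncomputable def l37269 : Lb := (@Lb.d (nat_lit 152) (nat_lit 0) (nat_lit 64) (@Lb.g g8 (@Lb.g g10 (@Lb.g g11 (@Lb.r r2443 (@Lb.r r1098 (@Lb.r r533 (@Lb.r r2340 (@Lb.d (nat_lit 676) (nat_lit 102) (nat_lit 341) (@Lb.t (@Lb.fm (nat_lit 9) t495)))))))))))
noncomputable def l37270 : Lb := (@Lb.d (nat_lit 150) (nat_lit 642) (nat_lit 534) (@Lb.r r2632 (@Lb.r r2454 (@Lb.r r1641 (@Lb.r r2347 (@Lb.g g6 (@Lb.g g5 (@Lb.g g4 (@Lb.d (nat_lit 96) (nat_lit 0) (nat_lit 5) (@Lb.t (@Lb.fm (nat_lit 9) t127)))))))))))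
noncomputable def l37271 : Lb := (@Lb.d (nat_lit 10) (nat_lit 256) (nat_lit 0) (@Lb.g g8 (@Lb.g g10 (@Lb.g g7 (@Lb.r r402 (@Lb.r r149 (@Lb.r r168 (@Lb.d (nat_lit 290) (nat_lit 5) (nat_lit 512) (@Lb.t (@Lb.fp (nat_lit 9) t145))))))))))
noncomputable def l37272 : Lb := (@Lb.d (nat_lit 2) (nat_lit 514) (nat_lit 2) (@Lb.g g8 (@Lb.g g9 (@Lb.g g10 (@Lb.g g11 (@Lb.r r1687 (@Lb.r r386 (@Lb.r r97 (@Lb.r r24 (@Lb.d (nat_lit 73) (nat_lit 4) (nat_lit 664) (@Lb.fp (nat_lit 9) t61)))))))))))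
noncomputable def l37273 : Lb := (@Lb.d (nat_lit 10) (nat_lit 0) (nat_lit 0) (@Lb.g g8 (@Lb.g g10 (@Lb.g g7 (@Lb.r r402 (@Lb.r r149 (@Lb.r r168 (@Lb.d (nat_lit 292) (nat_lit 6) (nat_lit 512) (@Lb.t (@Lb.fp (nat_lit 9) t145))))))))))
noncomputable def l37274 : Lb := (@Lb.d (nat_lit 0) (nat_lit 522) (nat_lit 129) (@Lb.g g9 (@Lb.g g10 (@Lb.g g11 (@Lb.r r1681 (@Lb.r r2706 (@Lb.d (nat_lit 0) (nat_lit 38) (nat_lit 408) (@Lb.t (@Lb.fp (nat_lit 9) t225)))))))))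
noncomputable def l37275 : Lb := (@Lb.d (nat_lit 2) (nat_lit 256) (nat_lit 66) (@Lb.g g8 (@Lb.g g9 (@Lb.g g10 (@Lb.g g11 (@Lb.r r548 (@Lb.r r295 (@Lb.r r357 (@Lb.r r666 (@Lb.r r644 (@Lb.d (nat_lit 296) (nat_lit 1) (nat_lit 34) (@Lb.fp (nat_lit 9) t127))))))))))))
noncomputable def l37276 : Lb := (@Lb.d (nat_lit 0) (nat_lit 18) (nat_lit 0) (@Lb.g g9 (@Lb.r r363 (@Lb.r r328 (@Lb.r r134 (@Lb.d (nat_lit 529) (nat_lit 2) (nat_lit 80) (@Lb.t (@Lb.fp (nat_lit 3) t263))))))))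
noncomputable def l37277 : Lb := (@Lb.r r323 (@Lb.d (nat_lit 550) (nat_lit 256) (nat_lit 2) (@Lb.g g8 (@Lb.g g9 (@Lb.g g10 (@Lb.r r411 (@Lb.r r153 (@Lb.r r602 (@Lb.d (nat_lit 153) (nat_lit 38) (nat_lit 613) (@Lb.t (@Lb.fm (nat_lit 9) t1499)))))))))))
noncomputable def l37278 : Lb := (@Lb.d (nat_lit 150) (nat_lit 0) (nat_lit 0) (@Lb.g g8 (@Lb.g g9 (@Lb.r r582 (@Lb.r r2395 (@Lb.r r1561 (@Lb.r r148 (@Lb.d (nat_lit 97) (nat_lit 105) (nat_lit 514) (@Lb.fm (nat_lit 3) t2639)))))))))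
noncomputable def l37279 : Lb := (@Lb.d (nat_lit 0) (nat_lit 102) (nat_lit 337) (@Lb.r r1092 (@Lb.r r2386 (@Lb.g g7 (@Lb.g g6 (@Lb.g g5 (@Lb.d (nat_lit 0) (nat_lit 129) (nat_lit 577) (@Lb.r r388 (@Lb.t (@Lb.fp (nat_lit 9) t6561))))))))))
noncomputable def l37280 : Lb := (@Lb.d (nat_lit 146) (nat_lit 5) (nat_lit 20) (@Lb.r r2374 (@Lb.r r1684 (@Lb.r r1369 (@Lb.r r675 (@Lb.g g6 (@Lb.g g5 (@Lb.g g4 (@Lb.d (nat_lit 1) (nat_lit 9) (nat_lit 0) (@Lb.t (@Lb.fm (nat_lit 9) t4114)))))))))))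
noncomputable def l37281 : Lb := (@Lb.d (nat_lit 678) (nat_lit 401) (nat_lit 8) (@Lb.r r1365 (@Lb.r r2390 (@Lb.r r2667 (@Lb.g g7 (@Lb.g g6 (@Lb.g g5 (@Lb.g g4 (@Lb.d (nat_lit 9) (nat_lit 40) (nat_lit 134) (@Lb.fm (nat_lit 9) t6109))))))))))
noncomputable def l37282 : Lb := (@Lb.d (nat_lit 336) (nat_lit 274) (nat_lit 616) (@Lb.r r2068 (@Lb.r r2442 (@Lb.r r2455 (@Lb.g g7 (@Lb.g g6 (@Lb.g g5 (@Lb.g g4 (@Lb.d (nat_lit 96) (nat_lit 129) (nat_lit 8) (@Lb.fm (nat_lit 9) t6562))))))))))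
noncomputable def l37283 : Lb := (@Lb.d (nat_lit 266) (nat_lit 420) (nat_lit 550) (@Lb.r r21 (@Lb.r r104 (@Lb.r r386 (@Lb.g g11 (@Lb.g g6 (@Lb.g g5 (@Lb.g g4 (@Lb.d (nat_lit 6) (nat_lit 2) (nat_lit 129) (@Lb.fm (nat_lit 9) t6082))))))))))
noncomputable def l37284 : Lb := (@Lb.d (nat_lit 518) (nat_lit 549) (nat_lit 262) (@Lb.r r68 (@Lb.r r154 (@Lb.r r136 (@Lb.r r297 (@Lb.g g11 (@Lb.g g6 (@Lb.g g5 (@Lb.g g4 (@Lb.d (nat_lit 1) (nat_lit 1) (nat_lit 129) (@Lb.fp (nat_lit 9) t2557)))))))))))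
noncomputable def l37285 : Lb := (@Lb.r r21 (@Lb.d (nat_lit 646) (nat_lit 512) (nat_lit 130) (@Lb.g g8 (@Lb.g g10 (@Lb.g g11 (@Lb.r r2459 (@Lb.r r106 (@Lb.r r25 (@Lb.d (nat_lit 106) (nat_lit 160) (nat_lit 665) (@Lb.t (@Lb.fm (nat_lit 9) t394)))))))))))
noncomputable def l37286 : Lb := (@Lb.r r326 (@Lb.r r664 (@Lb.r r411 (@Lb.r r533 (@Lb.r r36 (@Lb.d (nat_lit 0) (nat_lit 133) (nat_lit 392) (@Lb.fm (nat_lit 1) t242)))))))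
noncomputable def l37287 : Lb := (@Lb.r r323 (@Lb.d (nat_lit 24) (nat_lit 265) (nat_lit 33) (@Lb.g g9 (@Lb.g g6 (@Lb.r r1540 (@Lb.r r1639 (@Lb.r r1617 (@Lb.d (nat_lit 1) (nat_lit 4) (nat_lit 152) (@Lb.fm (nat_lit 3) t6563)))))))))
noncomputable def l37288 : Lb := (@Lb.d (nat_lit 517) (nat_lit 293) (nat_lit 262) (@Lb.r r68 (@Lb.r r154 (@Lb.r r136 (@Lb.r r297 (@Lb.g g11 (@Lb.g g6 (@Lb.g g5 (@Lb.g g4 (@Lb.d (nat_lit 0) (nat_lit 1) (nat_lit 129) (@Lb.fp (nat_lit 9) t2899)))))))))))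
noncomputable def l37289 : Lb := (@Lb.d (nat_lit 2) (nat_lit 0) (nat_lit 5) (@Lb.g g8 (@Lb.g g6 (@Lb.r r2449 (@Lb.r r36 (@Lb.d (nat_lit 5) (nat_lit 129) (nat_lit 421) (@Lb.fp (nat_lit 3) t2877)))))))
noncomputable def l37290 : Lb := (@Lb.d (nat_lit 2) (nat_lit 258) (nat_lit 4) (@Lb.g g8 (@Lb.g g9 (@Lb.g g10 (@Lb.g g11 (@Lb.r r427 (@Lb.r r420 (@Lb.r r102 (@Lb.r r97 (@Lb.r r36 (@Lb.d (nat_lit 289) (nat_lit 138) (nat_lit 33) (@Lb.fm (nat_lit 9) t3056))))))))))))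
noncomputable def l37291 : Lb := (@Lb.d (nat_lit 0) (nat_lit 512) (nat_lit 5) (@Lb.g g6 (@Lb.r r1624 (@Lb.r r2341 (@Lb.d (nat_lit 0) (nat_lit 154) (nat_lit 672) (@Lb.t (@Lb.fm (nat_lit 3) t996)))))))
noncomputable def l37292 : Lb := (@Lb.d (nat_lit 66) (nat_lit 290) (nat_lit 138) (@Lb.r r2721 (@Lb.r r1642 (@Lb.r r1352 (@Lb.r r2695 (@Lb.g g7 (@Lb.g g6 (@Lb.g g5 (@Lb.d (nat_lit 20) (nat_lit 1) (nat_lit 134) (@Lb.t (@Lb.fm (nat_lit 9) t1039)))))))))))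
noncomputable def l37293 : Lb := (@Lb.r r323 (@Lb.d (nat_lit 0) (nat_lit 2) (nat_lit 1) (@Lb.g g8 (@Lb.g g9 (@Lb.g g6 (@Lb.r r1635 (@Lb.r r97 (@Lb.r r24 (@Lb.d (nat_lit 0) (nat_lit 22) (nat_lit 324) (@Lb.t (@Lb.fm (nat_lit 9) t6564)))))))))))
noncomputable def l37294 : Lb := (@Lb.d (nat_lit 1) (nat_lit 256) (nat_lit 128) (@Lb.g g8 (@Lb.g g11 (@Lb.r r353 (@Lb.r r667 (@Lb.r r664 (@Lb.r r154 (@Lb.d (nat_lit 18) (nat_lit 0) (nat_lit 138) (@Lb.fm (nat_lit 3) t285)))))))))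
noncomputable def l37295 : Lb := (@Lb.d (nat_lit 32) (nat_lit 520) (nat_lit 2) (@Lb.g g6 (@Lb.r r1192 (@Lb.r r169 (@Lb.r r2218 (@Lb.d (nat_lit 41) (nat_lit 137) (nat_lit 33) (@Lb.t (@Lb.fp (nat_lit 3) t322))))))))
noncomputable def l37296 : Lb := (@Lb.d (nat_lit 1) (nat_lit 2) (nat_lit 130) (@Lb.g g8 (@Lb.g g9 (@Lb.g g10 (@Lb.g g11 (@Lb.r r427 (@Lb.r r386 (@Lb.r r97 (@Lb.r r24 (@Lb.d (nat_lit 617) (nat_lit 2) (nat_lit 84) (@Lb.fm (nat_lit 9) t61)))))))))))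
noncomputable def l37297 : Lb := (@Lb.d (nat_lit 32) (nat_lit 264) (nat_lit 2) (@Lb.g g10 (@Lb.r r1431 (@Lb.r r104 (@Lb.r r2153 (@Lb.r r2134 (@Lb.d (nat_lit 533) (nat_lit 134) (nat_lit 34) (@Lb.t (@Lb.fp (nat_lit 3) t322)))))))))
noncomputable def l37298 : Lb := (@Lb.d (nat_lit 2) (nat_lit 514) (nat_lit 73) (@Lb.g g8 (@Lb.g g9 (@Lb.g g10 (@Lb.g g11 (@Lb.r r2691 (@Lb.r r2209 (@Lb.r r2658 (@Lb.d (nat_lit 400) (nat_lit 160) (nat_lit 8) (@Lb.fp (nat_lit 9) t311))))))))))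
noncomputable def l37299 : Lb := (@Lb.d (nat_lit 602) (nat_lit 70) (nat_lit 680) (@Lb.r r154 (@Lb.r r2405 (@Lb.r r2707 (@Lb.g g7 (@Lb.g g6 (@Lb.g g4 (@Lb.d (nat_lit 616) (nat_lit 4) (nat_lit 65) (@Lb.t (@Lb.fm (nat_lit 9) t2231))))))))))
noncomputable def l37300 : Lb := (@Lb.d (nat_lit 2) (nat_lit 9) (nat_lit 1) (@Lb.g g8 (@Lb.g g9 (@Lb.g g10 (@Lb.r r1689 (@Lb.r r2706 (@Lb.d (nat_lit 289) (nat_lit 38) (nat_lit 408) (@Lb.t (@Lb.fp (nat_lit 9) t225)))))))))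
noncomputable def l37301 : Lb := (@Lb.d (nat_lit 97) (nat_lit 294) (nat_lit 64) (@Lb.g g8 (@Lb.g g9 (@Lb.g g10 (@Lb.g g11 (@Lb.r r1443 (@Lb.r r1642 (@Lb.r r1425 (@Lb.r r584 (@Lb.d (nat_lit 42) (nat_lit 20) (nat_lit 548) (@Lb.fm (nat_lit 9) t898)))))))))))
noncomputable def l37302 : Lb := (@Lb.d (nat_lit 0) (nat_lit 514) (nat_lit 73) (@Lb.g g9 (@Lb.g g10 (@Lb.g g11 (@Lb.r r2691 (@Lb.r r2209 (@Lb.r r2658 (@Lb.r r2436 (@Lb.d (nat_lit 2) (nat_lit 160) (nat_lit 8) (@Lb.t (@Lb.fm (nat_lit 9) t311)))))))))))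
noncomputable def l37303 : Lb := (@Lb.d (nat_lit 8) (nat_lit 550) (nat_lit 294) (@Lb.r r21 (@Lb.r r1366 (@Lb.r r683 (@Lb.g g6 (@Lb.g g5 (@Lb.g g4 (@Lb.d (nat_lit 1) (nat_lit 1) (nat_lit 1) (@Lb.t (@Lb.fm (nat_lit 9) t40))))))))))
noncomputable def l37304 : Lb := (@Lb.d (nat_lit 97) (nat_lit 38) (nat_lit 64) (@Lb.g g8 (@Lb.g g9 (@Lb.g g10 (@Lb.g g11 (@Lb.r r1443 (@Lb.r r1642 (@Lb.r r1425 (@Lb.r r584 (@Lb.d (nat_lit 42) (nat_lit 25) (nat_lit 549) (@Lb.fm (nat_lit 9) t898)))))))))))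
noncomputable def l37305 : Lb := (@Lb.r r90 (@Lb.d (nat_lit 104) (nat_lit 545) (nat_lit 64) (@Lb.g g8 (@Lb.g g9 (@Lb.g g11 (@Lb.r r1189 (@Lb.r r1446 (@Lb.r r1383 (@Lb.r r1560 (@Lb.d (nat_lit 357) (nat_lit 9) (nat_lit 33) (@Lb.t (@Lb.fp (nat_lit 9) t1953))))))))))))
noncomputable def l37306 : Lb := (@Lb.d (nat_lit 2) (nat_lit 102) (nat_lit 64) (@Lb.g g8 (@Lb.g g5 (@Lb.g g10 (@Lb.g g11 (@Lb.r r658 (@Lb.r r1415 (@Lb.d (nat_lit 416) (nat_lit 1) (nat_lit 136) (@Lb.fp (nat_lit 9) t1541)))))))))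
noncomputable def l37307 : Lb := (@Lb.r r323 (@Lb.d (nat_lit 130) (nat_lit 9) (nat_lit 1) (@Lb.g g8 (@Lb.g g9 (@Lb.g g10 (@Lb.r r599 (@Lb.r r98 (@Lb.r r361 (@Lb.r r2312 (@Lb.d (nat_lit 402) (nat_lit 4) (nat_lit 576) (@Lb.t (@Lb.fp (nat_lit 9) t5332))))))))))))
noncomputable def l37308 : Lb := (@Lb.d (nat_lit 144) (nat_lit 614) (nat_lit 133) (@Lb.g g8 (@Lb.g g5 (@Lb.g g10 (@Lb.g g11 (@Lb.r r658 (@Lb.r r1415 (@Lb.r r1060 (@Lb.d (nat_lit 416) (nat_lit 84) (nat_lit 680) (@Lb.fp (nat_lit 9) t1541))))))))))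
noncomputable def l37309 : Lb := (@Lb.d (nat_lit 2) (nat_lit 33) (nat_lit 66) (@Lb.g g8 (@Lb.g g9 (@Lb.g g10 (@Lb.g g11 (@Lb.r r1543 (@Lb.r r1382 (@Lb.r r1108 (@Lb.r r2089 (@Lb.d (nat_lit 97) (nat_lit 32) (nat_lit 598) (@Lb.fp (nat_lit 9) t6565)))))))))))
noncomputable def l37310 : Lb := (@Lb.d (nat_lit 282) (nat_lit 265) (nat_lit 26) (@Lb.r r24 (@Lb.r r1426 (@Lb.g g11 (@Lb.g g9 (@Lb.d (nat_lit 8) (nat_lit 73) (nat_lit 384) (@Lb.r r578 (@Lb.fm (nat_lit 3) t5310))))))))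
noncomputable def l37311 : Lb := (@Lb.d (nat_lit 9) (nat_lit 264) (nat_lit 73) (@Lb.g g8 (@Lb.g g9 (@Lb.g g10 (@Lb.g g11 (@Lb.r r2467 (@Lb.r r2217 (@Lb.r r680 (@Lb.r r2666 (@Lb.d (nat_lit 165) (nat_lit 0) (nat_lit 22) (@Lb.fp (nat_lit 9) t6566)))))))))))
noncomputable def l37312 : Lb := (@Lb.d (nat_lit 100) (nat_lit 90) (nat_lit 134) (@Lb.r r24 (@Lb.r r82 (@Lb.r r421 (@Lb.g g11 (@Lb.g g6 (@Lb.d (nat_lit 0) (nat_lit 0) (nat_lit 72) (@Lb.fp (nat_lit 3) t785))))))))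
noncomputable def l37313 : Lb := (@Lb.d (nat_lit 608) (nat_lit 676) (nat_lit 292) (@Lb.r r101 (@Lb.r r323 (@Lb.g g7 (@Lb.g g6 (@Lb.d (nat_lit 0) (nat_lit 4) (nat_lit 65) (@Lb.fp (nat_lit 3) t58)))))))
noncomputable def l37314 : Lb := (@Lb.r r21 (@Lb.d (nat_lit 9) (nat_lit 0) (nat_lit 0) (@Lb.g g8 (@Lb.r r593 (@Lb.r r1371 (@Lb.r r2406 (@Lb.r r1284 (@Lb.d (nat_lit 674) (nat_lit 5) (nat_lit 384) (@Lb.t (@Lb.fp (nat_lit 3) t1087))))))))))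
noncomputable def l37315 : Lb := (@Lb.d (nat_lit 613) (nat_lit 672) (nat_lit 294) (@Lb.r r101 (@Lb.r r323 (@Lb.g g7 (@Lb.g g6 (@Lb.d (nat_lit 0) (nat_lit 4) (nat_lit 65) (@Lb.fp (nat_lit 3) t2546)))))))
noncomputable def l37316 : Lb := (@Lb.d (nat_lit 2) (nat_lit 2) (nat_lit 130) (@Lb.g g8 (@Lb.g g9 (@Lb.g g10 (@Lb.g g11 (@Lb.r r427 (@Lb.r r2146 (@Lb.r r292 (@Lb.r r2069 (@Lb.r r1060 (@Lb.d (nat_lit 294) (nat_lit 138) (nat_lit 33) (@Lb.fp (nat_lit 9) t1351))))))))))))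
noncomputable def l37317 : Lb := (@Lb.d (nat_lit 134) (nat_lit 5) (nat_lit 128) (@Lb.g g8 (@Lb.g g9 (@Lb.g g10 (@Lb.g g11 (@Lb.r r1415 (@Lb.r r164 (@Lb.r r2438 (@Lb.r r2721 (@Lb.d (nat_lit 361) (nat_lit 149) (nat_lit 150) (@Lb.fp (nat_lit 9) t1816)))))))))))
noncomputable def l37318 : Lb := (@Lb.r r323 (@Lb.d (nat_lit 38) (nat_lit 261) (nat_lit 0) (@Lb.g g8 (@Lb.g g9 (@Lb.g g10 (@Lb.r r2635 (@Lb.r r2146 (@Lb.r r2721 (@Lb.r r2180 (@Lb.d (nat_lit 297) (nat_lit 37) (nat_lit 390) (@Lb.t (@Lb.fm (nat_lit 9) t6567))))))))))))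
noncomputable def l37319 : Lb := (@Lb.d (nat_lit 2) (nat_lit 289) (nat_lit 73) (@Lb.g g8 (@Lb.g g9 (@Lb.g g10 (@Lb.g g11 (@Lb.r r683 (@Lb.r r2154 (@Lb.r r1561 (@Lb.d (nat_lit 585) (nat_lit 25) (nat_lit 73) (@Lb.fm (nat_lit 9) t6568))))))))))
noncomputable def l37320 : Lb := (@Lb.d (nat_lit 529) (nat_lit 421) (nat_lit 536) (@Lb.r r2116 (@Lb.r r146 (@Lb.r r345 (@Lb.g g7 (@Lb.g g4 (@Lb.d (nat_lit 5) (nat_lit 0) (nat_lit 648) (@Lb.r r578 (@Lb.fp (nat_lit 3) t5044)))))))))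
noncomputable def l37321 : Lb := (@Lb.r r275 (@Lb.d (nat_lit 0) (nat_lit 521) (nat_lit 1) (@Lb.g g8 (@Lb.g g9 (@Lb.g g10 (@Lb.r r595 (@Lb.r r2154 (@Lb.r r1636 (@Lb.r r1557 (@Lb.d (nat_lit 69) (nat_lit 81) (nat_lit 256) (@Lb.t (@Lb.fp (nat_lit 9) t827))))))))))))
noncomputable def l37322 : Lb := (@Lb.d (nat_lit 512) (nat_lit 256) (nat_lit 74) (@Lb.r r1291 (@Lb.g g8 (@Lb.t (@Lb.fp (nat_lit 3) t997)))))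
noncomputable def l37323 : Lb := (@Lb.d (nat_lit 538) (nat_lit 274) (nat_lit 0) (@Lb.g g8 (@Lb.g g9 (@Lb.g g10 (@Lb.g g11 (@Lb.r r2699 (@Lb.r r2634 (@Lb.r r2341 (@Lb.d (nat_lit 425) (nat_lit 34) (nat_lit 105) (@Lb.fp (nat_lit 9) t3104))))))))))
noncomputable def l37324 : Lb := (@Lb.r r70 (@Lb.r r263 (@Lb.d (nat_lit 10) (nat_lit 256) (nat_lit 0) (@Lb.g g8 (@Lb.r r1627 (@Lb.r r1410 (@Lb.r r21 (@Lb.r r2084 (@Lb.d (nat_lit 522) (nat_lit 132) (nat_lit 0) (@Lb.t (@Lb.fp (nat_lit 3) t58)))))))))))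
noncomputable def l37325 : Lb := (@Lb.d (nat_lit 538) (nat_lit 530) (nat_lit 138) (@Lb.g g8 (@Lb.g g9 (@Lb.g g10 (@Lb.g g11 (@Lb.r r2699 (@Lb.r r2634 (@Lb.r r2341 (@Lb.d (nat_lit 425) (nat_lit 34) (nat_lit 105) (@Lb.fp (nat_lit 9) t3104))))))))))
noncomputable def l37326 : Lb := (@Lb.d (nat_lit 538) (nat_lit 530) (nat_lit 0) (@Lb.g g8 (@Lb.g g9 (@Lb.g g10 (@Lb.g g11 (@Lb.r r2699 (@Lb.r r2634 (@Lb.r r2341 (@Lb.d (nat_lit 420) (nat_lit 33) (nat_lit 105) (@Lb.fp (nat_lit 9) t6569))))))))))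
noncomputable def l37327 : Lb := (@Lb.d (nat_lit 536) (nat_lit 262) (nat_lit 66) (@Lb.r r2641 (@Lb.r r279 (@Lb.r r584 (@Lb.g g6 (@Lb.g g5 (@Lb.d (nat_lit 20) (nat_lit 1) (nat_lit 1) (@Lb.r r387 (@Lb.fp (nat_lit 3) t1023)))))))))
noncomputable def l37328 : Lb := (@Lb.d (nat_lit 2) (nat_lit 514) (nat_lit 66) (@Lb.g g8 (@Lb.g g9 (@Lb.g g10 (@Lb.g g7 (@Lb.r r386 (@Lb.r r100 (@Lb.r r21 (@Lb.r r36 (@Lb.d (nat_lit 256) (nat_lit 90) (nat_lit 281) (@Lb.fp (nat_lit 9) t1174)))))))))))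
noncomputable def l37329 : Lb := (@Lb.d (nat_lit 10) (nat_lit 0) (nat_lit 66) (@Lb.g g8 (@Lb.g g10 (@Lb.g g7 (@Lb.r r386 (@Lb.r r149 (@Lb.r r2148 (@Lb.d (nat_lit 538) (nat_lit 154) (nat_lit 265) (@Lb.t (@Lb.fm (nat_lit 9) t1174))))))))))
noncomputable def l37330 : Lb := (@Lb.d (nat_lit 601) (nat_lit 645) (nat_lit 73) (@Lb.r r264 (@Lb.r r2631 (@Lb.g g6 (@Lb.g g4 (@Lb.d (nat_lit 65) (nat_lit 4) (nat_lit 17) (@Lb.r r387 (@Lb.r r2073 (@Lb.fm (nat_lit 3) t2490)))))))))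
noncomputable def l37331 : Lb := (@Lb.d (nat_lit 9) (nat_lit 0) (nat_lit 137) (@Lb.g g8 (@Lb.g g10 (@Lb.g g11 (@Lb.r r2691 (@Lb.r r1681 (@Lb.r r1178 (@Lb.r r2436 (@Lb.d (nat_lit 548) (nat_lit 161) (nat_lit 85) (@Lb.t (@Lb.fm (nat_lit 9) t521)))))))))))
noncomputable def l37332 : Lb := (@Lb.r r70 (@Lb.d (nat_lit 136) (nat_lit 73) (nat_lit 128) (@Lb.g g8 (@Lb.g g9 (@Lb.g g11 (@Lb.r r2347 (@Lb.r r1410 (@Lb.r r2468 (@Lb.d (nat_lit 137) (nat_lit 25) (nat_lit 612) (@Lb.t (@Lb.fp (nat_lit 9) t6570)))))))))))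
noncomputable def l37333 : Lb := (@Lb.d (nat_lit 601) (nat_lit 516) (nat_lit 73) (@Lb.r r264 (@Lb.r r2631 (@Lb.g g6 (@Lb.g g4 (@Lb.d (nat_lit 65) (nat_lit 4) (nat_lit 17) (@Lb.r r387 (@Lb.r r2073 (@Lb.fm (nat_lit 3) t2490)))))))))
noncomputable def l37334 : Lb := (@Lb.r r68 (@Lb.r r323 (@Lb.d (nat_lit 0) (nat_lit 10) (nat_lit 32) (@Lb.g g9 (@Lb.g g6 (@Lb.r r2339 (@Lb.r r2084 (@Lb.d (nat_lit 0) (nat_lit 132) (nat_lit 1) (@Lb.fp (nat_lit 3) t233)))))))))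
noncomputable def l37335 : Lb := (@Lb.d (nat_lit 402) (nat_lit 66) (nat_lit 548) (@Lb.r r1297 (@Lb.r r1315 (@Lb.r r405 (@Lb.g g7 (@Lb.g g10 (@Lb.g g5 (@Lb.g g4 (@Lb.d (nat_lit 8) (nat_lit 5) (nat_lit 20) (@Lb.fm (nat_lit 9) t3368))))))))))
noncomputable def l37336 : Lb := (@Lb.d (nat_lit 86) (nat_lit 585) (nat_lit 20) (@Lb.r r1170 (@Lb.r r2663 (@Lb.r r1432 (@Lb.g g7 (@Lb.g g5 (@Lb.d (nat_lit 64) (nat_lit 17) (nat_lit 128) (@Lb.fp (nat_lit 3) t2686))))))))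
noncomputable def l37337 : Lb := (@Lb.d (nat_lit 0) (nat_lit 2) (nat_lit 66) (@Lb.g g8 (@Lb.g g9 (@Lb.g g10 (@Lb.g g7 (@Lb.r r386 (@Lb.r r25 (@Lb.r r24 (@Lb.d (nat_lit 609) (nat_lit 5) (nat_lit 602) (@Lb.fm (nat_lit 9) t4165))))))))))
noncomputable def l37338 : Lb := (@Lb.d (nat_lit 4) (nat_lit 520) (nat_lit 73) (@Lb.g g8 (@Lb.g g10 (@Lb.g g11 (@Lb.r r1381 (@Lb.r r1691 (@Lb.r r1178 (@Lb.d (nat_lit 554) (nat_lit 86) (nat_lit 644) (@Lb.t (@Lb.fp (nat_lit 9) t3111))))))))))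
noncomputable def l37339 : Lb := (@Lb.d (nat_lit 8) (nat_lit 10) (nat_lit 65) (@Lb.g g9 (@Lb.g g10 (@Lb.g g11 (@Lb.r r344 (@Lb.r r1415 (@Lb.r r2438 (@Lb.r r2705 (@Lb.d (nat_lit 162) (nat_lit 160) (nat_lit 577) (@Lb.t (@Lb.fm (nat_lit 9) t3146)))))))))))
noncomputable def l37340 : Lb := (@Lb.r r82 (@Lb.d (nat_lit 4) (nat_lit 296) (nat_lit 72) (@Lb.g g8 (@Lb.g g9 (@Lb.g g11 (@Lb.r r1346 (@Lb.r r2711 (@Lb.r r1305 (@Lb.d (nat_lit 297) (nat_lit 89) (nat_lit 294) (@Lb.t (@Lb.fp (nat_lit 9) t580)))))))))))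
noncomputable def l37341 : Lb := (@Lb.d (nat_lit 2) (nat_lit 2) (nat_lit 66) (@Lb.g g8 (@Lb.g g9 (@Lb.g g10 (@Lb.g g11 (@Lb.r r340 (@Lb.r r2202 (@Lb.r r1621 (@Lb.r r1367 (@Lb.r r2724 (@Lb.d (nat_lit 144) (nat_lit 2) (nat_lit 362) (@Lb.fm (nat_lit 9) t49))))))))))))
noncomputable def l37342 : Lb := (@Lb.d (nat_lit 70) (nat_lit 102) (nat_lit 353) (@Lb.r r2663 (@Lb.r r597 (@Lb.r r36 (@Lb.r r2378 (@Lb.g g7 (@Lb.g g6 (@Lb.g g5 (@Lb.d (nat_lit 68) (nat_lit 1) (nat_lit 65) (@Lb.t (@Lb.fm (nat_lit 9) t1622)))))))))))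
noncomputable def l37343 : Lb := (@Lb.r r21 (@Lb.d (nat_lit 386) (nat_lit 520) (nat_lit 66) (@Lb.g g8 (@Lb.g g10 (@Lb.g g11 (@Lb.r r1419 (@Lb.r r101 (@Lb.r r410 (@Lb.d (nat_lit 9) (nat_lit 154) (nat_lit 650) (@Lb.t (@Lb.fm (nat_lit 9) t2889)))))))))))
noncomputable def l37344 : Lb := (@Lb.r r21 (@Lb.r r70 (@Lb.d (nat_lit 129) (nat_lit 256) (nat_lit 256) (@Lb.g g8 (@Lb.g g7 (@Lb.r r1606 (@Lb.r r1557 (@Lb.r r2312 (@Lb.d (nat_lit 641) (nat_lit 0) (nat_lit 325) (@Lb.fm (nat_lit 3) t3339))))))))))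
noncomputable def l37345 : Lb := (@Lb.d (nat_lit 0) (nat_lit 514) (nat_lit 2) (@Lb.g g9 (@Lb.g g10 (@Lb.r r2723 (@Lb.r r1634 (@Lb.r r1553 (@Lb.r r8 (@Lb.d (nat_lit 1) (nat_lit 105) (nat_lit 417) (@Lb.fm (nat_lit 3) t324)))))))))
noncomputable def l37346 : Lb := (@Lb.d (nat_lit 154) (nat_lit 8) (nat_lit 73) (@Lb.g g8 (@Lb.g g10 (@Lb.g g11 (@Lb.r r1307 (@Lb.r r1105 (@Lb.r r1638 (@Lb.r r388 (@Lb.d (nat_lit 354) (nat_lit 66) (nat_lit 25) (@Lb.t (@Lb.fm (nat_lit 9) t5583)))))))))))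
noncomputable def l37347 : Lb := (@Lb.r r388 (@Lb.d (nat_lit 64) (nat_lit 8) (nat_lit 393) (@Lb.g g10 (@Lb.g g7 (@Lb.r r597 (@Lb.r r2468 (@Lb.r r678 (@Lb.d (nat_lit 170) (nat_lit 149) (nat_lit 616) (@Lb.fm (nat_lit 3) t1952)))))))))
noncomputable def l37348 : Lb := (@Lb.d (nat_lit 138) (nat_lit 256) (nat_lit 64) (@Lb.g g8 (@Lb.g g11 (@Lb.r r1307 (@Lb.r r2662 (@Lb.r r613 (@Lb.r r2452 (@Lb.d (nat_lit 614) (nat_lit 149) (nat_lit 521) (@Lb.fp (nat_lit 3) t1659)))))))))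
noncomputable def l37349 : Lb := (@Lb.r r263 (@Lb.d (nat_lit 10) (nat_lit 0) (nat_lit 0) (@Lb.g g4 (@Lb.r r2347 (@Lb.r r1130 (@Lb.r r2153 (@Lb.r r104 (@Lb.d (nat_lit 25) (nat_lit 81) (nat_lit 298) (@Lb.t (@Lb.fm (nat_lit 3) t1952))))))))))
noncomputable def l37350 : Lb := (@Lb.r r82 (@Lb.d (nat_lit 2) (nat_lit 545) (nat_lit 64) (@Lb.g g8 (@Lb.g g9 (@Lb.g g11 (@Lb.r r1543 (@Lb.r r1622 (@Lb.r r2345 (@Lb.r r24 (@Lb.d (nat_lit 260) (nat_lit 97) (nat_lit 133) (@Lb.t (@Lb.fp (nat_lit 9) t1727))))))))))))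
noncomputable def l37351 : Lb := (@Lb.d (nat_lit 73) (nat_lit 25) (nat_lit 128) (@Lb.g g8 (@Lb.g g9 (@Lb.g g11 (@Lb.r r1547 (@Lb.r r1124 (@Lb.r r410 (@Lb.r r2645 (@Lb.d (nat_lit 148) (nat_lit 166) (nat_lit 133) (@Lb.t (@Lb.fm (nat_lit 9) t3542)))))))))))
noncomputable def l37352 : Lb := (@Lb.r r82 (@Lb.d (nat_lit 2) (nat_lit 33) (nat_lit 64) (@Lb.g g8 (@Lb.g g9 (@Lb.g g11 (@Lb.r r1543 (@Lb.r r2152 (@Lb.r r2438 (@Lb.r r1361 (@Lb.d (nat_lit 5) (nat_lit 2) (nat_lit 344) (@Lb.t (@Lb.fp (nat_lit 9) t2301))))))))))))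
noncomputable def l37353 : Lb := (@Lb.r r21 (@Lb.d (nat_lit 2) (nat_lit 512) (nat_lit 73) (@Lb.g g8 (@Lb.g g10 (@Lb.g g11 (@Lb.r r2691 (@Lb.r r2442 (@Lb.r r97 (@Lb.r r1288 (@Lb.d (nat_lit 576) (nat_lit 162) (nat_lit 385) (@Lb.t (@Lb.fm (nat_lit 9) t6571))))))))))))
noncomputable def l37354 : Lb := (@Lb.d (nat_lit 146) (nat_lit 25) (nat_lit 73) (@Lb.g g8 (@Lb.g g5 (@Lb.g g10 (@Lb.g g11 (@Lb.r r1602 (@Lb.r r404 (@Lb.r r2635 (@Lb.r r2564 (@Lb.d (nat_lit 288) (nat_lit 160) (nat_lit 386) (@Lb.fp (nat_lit 9) t4077)))))))))))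
noncomputable def l37355 : Lb := (@Lb.d (nat_lit 2) (nat_lit 514) (nat_lit 0) (@Lb.g g8 (@Lb.g g9 (@Lb.r r1579 (@Lb.r r162 (@Lb.r r145 (@Lb.r r1608 (@Lb.d (nat_lit 98) (nat_lit 10) (nat_lit 665) (@Lb.fp (nat_lit 3) t1082)))))))))
noncomputable def l37356 : Lb := (@Lb.d (nat_lit 341) (nat_lit 32) (nat_lit 342) (@Lb.r r597 (@Lb.r r70 (@Lb.r r599 (@Lb.g g6 (@Lb.g g5 (@Lb.g g4 (@Lb.d (nat_lit 1) (nat_lit 17) (nat_lit 1) (@Lb.r r387 (@Lb.t (@Lb.fm (nat_lit 9) t473)))))))))))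
noncomputable def l37357 : Lb := (@Lb.d (nat_lit 9) (nat_lit 1) (nat_lit 0) (@Lb.g g8 (@Lb.g g9 (@Lb.r r1579 (@Lb.r r162 (@Lb.r r145 (@Lb.r r1608 (@Lb.d (nat_lit 98) (nat_lit 10) (nat_lit 665) (@Lb.fp (nat_lit 3) t1082)))))))))
noncomputable def l37358 : Lb := (@Lb.d (nat_lit 2) (nat_lit 38) (nat_lit 10) (@Lb.g g8 (@Lb.g g9 (@Lb.g g10 (@Lb.g g11 (@Lb.r r1699 (@Lb.r r676 (@Lb.r r358 (@Lb.r r2577 (@Lb.d (nat_lit 104) (nat_lit 73) (nat_lit 144) (@Lb.fm (nat_lit 9) t6572)))))))))))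
noncomputable def l37359 : Lb := (@Lb.d (nat_lit 148) (nat_lit 512) (nat_lit 128) (@Lb.g g8 (@Lb.g g9 (@Lb.g g10 (@Lb.g g11 (@Lb.r r1706 (@Lb.r r1411 (@Lb.r r2201 (@Lb.r r388 (@Lb.d (nat_lit 426) (nat_lit 73) (nat_lit 21) (@Lb.fm (nat_lit 9) t3392)))))))))))
noncomputable def l37360 : Lb := (@Lb.r r21 (@Lb.d (nat_lit 42) (nat_lit 0) (nat_lit 73) (@Lb.g g8 (@Lb.g g10 (@Lb.g g11 (@Lb.r r2721 (@Lb.r r2667 (@Lb.r r138 (@Lb.r r1348 (@Lb.d (nat_lit 42) (nat_lit 128) (nat_lit 160) (@Lb.t (@Lb.fp (nat_lit 9) t125))))))))))))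
noncomputable def l37361 : Lb := (@Lb.d (nat_lit 130) (nat_lit 514) (nat_lit 66) (@Lb.g g8 (@Lb.g g9 (@Lb.g g10 (@Lb.g g11 (@Lb.r r425 (@Lb.r r343 (@Lb.r r1690 (@Lb.r r81 (@Lb.r r1540 (@Lb.d (nat_lit 168) (nat_lit 137) (nat_lit 646) (@Lb.fp (nat_lit 9) t329))))))))))))
noncomputable def l37362 : Lb := (@Lb.d (nat_lit 2) (nat_lit 266) (nat_lit 73) (@Lb.g g8 (@Lb.g g9 (@Lb.g g10 (@Lb.g g11 (@Lb.r r170 (@Lb.r r680 (@Lb.r r555 (@Lb.r r2597 (@Lb.r r2068 (@Lb.d (nat_lit 138) (nat_lit 128) (nat_lit 517) (@Lb.fp (nat_lit 9) t125))))))))))))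
noncomputable def l37363 : Lb := (@Lb.d (nat_lit 8) (nat_lit 98) (nat_lit 5) (@Lb.r r21 (@Lb.r r2390 (@Lb.r r2731 (@Lb.g g6 (@Lb.g g5 (@Lb.g g4 (@Lb.d (nat_lit 544) (nat_lit 1) (nat_lit 0) (@Lb.t (@Lb.fm (nat_lit 9) t6573))))))))))
noncomputable def l37364 : Lb := (@Lb.r r326 (@Lb.d (nat_lit 168) (nat_lit 32) (nat_lit 640) (@Lb.g g8 (@Lb.g g11 (@Lb.r r2214 (@Lb.r r2469 (@Lb.r r596 (@Lb.d (nat_lit 18) (nat_lit 37) (nat_lit 325) (@Lb.fm (nat_lit 3) t1444)))))))))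
noncomputable def l37365 : Lb := (@Lb.r r580 (@Lb.r r593 (@Lb.d (nat_lit 0) (nat_lit 264) (nat_lit 2) (@Lb.g g6 (@Lb.g g11 (@Lb.r r2657 (@Lb.r r2731 (@Lb.r r2632 (@Lb.d (nat_lit 37) (nat_lit 138) (nat_lit 85) (@Lb.fm (nat_lit 3) t3967))))))))))
noncomputable def l37366 : Lb := (@Lb.d (nat_lit 8) (nat_lit 512) (nat_lit 2) (@Lb.g g8 (@Lb.g g10 (@Lb.g g7 (@Lb.r r386 (@Lb.r r149 (@Lb.r r168 (@Lb.d (nat_lit 22) (nat_lit 86) (nat_lit 329) (@Lb.t (@Lb.fp (nat_lit 9) t845))))))))))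
noncomputable def l37367 : Lb := (@Lb.r r21 (@Lb.d (nat_lit 386) (nat_lit 256) (nat_lit 66) (@Lb.g g8 (@Lb.g g10 (@Lb.g g11 (@Lb.r r2666 (@Lb.r r2657 (@Lb.r r2339 (@Lb.d (nat_lit 521) (nat_lit 97) (nat_lit 5) (@Lb.t (@Lb.fp (nat_lit 9) t1606)))))))))))
noncomputable def l37368 : Lb := (@Lb.r r21 (@Lb.d (nat_lit 386) (nat_lit 512) (nat_lit 66) (@Lb.g g8 (@Lb.g g10 (@Lb.g g11 (@Lb.r r2666 (@Lb.r r2657 (@Lb.r r2339 (@Lb.d (nat_lit 521) (nat_lit 97) (nat_lit 128) (@Lb.t (@Lb.fp (nat_lit 9) t1606)))))))))))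
noncomputable def l37369 : Lb := (@Lb.r r82 (@Lb.d (nat_lit 134) (nat_lit 529) (nat_lit 0) (@Lb.g g8 (@Lb.g g9 (@Lb.g g11 (@Lb.r r657 (@Lb.r r667 (@Lb.r r2630 (@Lb.r r1432 (@Lb.d (nat_lit 293) (nat_lit 88) (nat_lit 361) (@Lb.t (@Lb.fm (nat_lit 9) t2343))))))))))))
noncomputable def l37370 : Lb := (@Lb.r r1371 (@Lb.r r81 (@Lb.r r162 (@Lb.r r145 (@Lb.r r1416 (@Lb.d (nat_lit 272) (nat_lit 8) (nat_lit 18) (@Lb.fp (nat_lit 1) t1277)))))))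
noncomputable def l37371 : Lb := (@Lb.d (nat_lit 1) (nat_lit 516) (nat_lit 0) (@Lb.g g8 (@Lb.g g9 (@Lb.g g10 (@Lb.r r1689 (@Lb.r r1688 (@Lb.r r1691 (@Lb.r r1610 (@Lb.d (nat_lit 610) (nat_lit 90) (nat_lit 409) (@Lb.t (@Lb.fm (nat_lit 9) t5570)))))))))))
noncomputable def l37372 : Lb := (@Lb.d (nat_lit 642) (nat_lit 4) (nat_lit 64) (@Lb.g g8 (@Lb.g g9 (@Lb.g g10 (@Lb.g g11 (@Lb.r r1451 (@Lb.r r106 (@Lb.r r97 (@Lb.d (nat_lit 258) (nat_lit 10) (nat_lit 409) (@Lb.fm (nat_lit 9) t6574))))))))))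
noncomputable def l37373 : Lb := (@Lb.d (nat_lit 136) (nat_lit 514) (nat_lit 128) (@Lb.g g9 (@Lb.g g11 (@Lb.r r1114 (@Lb.r r260 (@Lb.r r603 (@Lb.r r1425 (@Lb.d (nat_lit 72) (nat_lit 153) (nat_lit 521) (@Lb.fp (nat_lit 3) t1558)))))))))
noncomputable def l37374 : Lb := (@Lb.d (nat_lit 0) (nat_lit 4) (nat_lit 138) (@Lb.g g9 (@Lb.g g10 (@Lb.g g7 (@Lb.r r386 (@Lb.r r97 (@Lb.d (nat_lit 0) (nat_lit 2) (nat_lit 10) (@Lb.t (@Lb.fp (nat_lit 9) t1219)))))))))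
noncomputable def l37375 : Lb := (@Lb.r r70 (@Lb.d (nat_lit 2) (nat_lit 512) (nat_lit 0) (@Lb.g g8 (@Lb.r r1691 (@Lb.r r2642 (@Lb.r r1057 (@Lb.r r2200 (@Lb.d (nat_lit 538) (nat_lit 138) (nat_lit 100) (@Lb.t (@Lb.fm (nat_lit 3) t6575))))))))))
noncomputable def l37376 : Lb := (@Lb.r r275 (@Lb.d (nat_lit 2) (nat_lit 514) (nat_lit 2) (@Lb.g g8 (@Lb.g g9 (@Lb.g g10 (@Lb.r r1419 (@Lb.r r2154 (@Lb.r r680 (@Lb.r r601 (@Lb.d (nat_lit 516) (nat_lit 32) (nat_lit 358) (@Lb.t (@Lb.fp (nat_lit 9) t6576))))))))))))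
noncomputable def l37377 : Lb := (@Lb.d (nat_lit 132) (nat_lit 512) (nat_lit 130) (@Lb.g g8 (@Lb.g g9 (@Lb.g g10 (@Lb.g g11 (@Lb.r r2327 (@Lb.r r2705 (@Lb.r r598 (@Lb.r r392 (@Lb.d (nat_lit 386) (nat_lit 2) (nat_lit 618) (@Lb.fm (nat_lit 9) t1347)))))))))))
noncomputable def l37378 : Lb := (@Lb.d (nat_lit 132) (nat_lit 512) (nat_lit 130) (@Lb.g g8 (@Lb.g g9 (@Lb.g g10 (@Lb.g g11 (@Lb.r r2327 (@Lb.r r2217 (@Lb.r r98 (@Lb.r r392 (@Lb.d (nat_lit 153) (nat_lit 10) (nat_lit 585) (@Lb.fp (nat_lit 9) t799)))))))))))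
noncomputable def l37379 : Lb := (@Lb.d (nat_lit 162) (nat_lit 546) (nat_lit 0) (@Lb.g g8 (@Lb.g g5 (@Lb.r r391 (@Lb.r r406 (@Lb.r r1620 (@Lb.d (nat_lit 406) (nat_lit 96) (nat_lit 521) (@Lb.fm (nat_lit 3) t154))))))))
noncomputable def l37380 : Lb := (@Lb.d (nat_lit 146) (nat_lit 512) (nat_lit 130) (@Lb.g g8 (@Lb.g g9 (@Lb.g g10 (@Lb.g g11 (@Lb.r r1569 (@Lb.r r295 (@Lb.r r584 (@Lb.r r1094 (@Lb.r r1156 (@Lb.d (nat_lit 258) (nat_lit 128) (nat_lit 649) (@Lb.fp (nat_lit 9) t3098))))))))))))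
noncomputable def l37381 : Lb := (@Lb.d (nat_lit 169) (nat_lit 281) (nat_lit 425) (@Lb.r r1057 (@Lb.r r1626 (@Lb.r r616 (@Lb.g g11 (@Lb.g g6 (@Lb.d (nat_lit 16) (nat_lit 16) (nat_lit 392) (@Lb.fp (nat_lit 3) t2131))))))))
noncomputable def l37382 : Lb := (@Lb.d (nat_lit 342) (nat_lit 144) (nat_lit 352) (@Lb.r r1560 (@Lb.r r2371 (@Lb.r r1690 (@Lb.g g6 (@Lb.g g9 (@Lb.g g4 (@Lb.d (nat_lit 2) (nat_lit 129) (nat_lit 1) (@Lb.r r391 (@Lb.t (@Lb.fm (nat_lit 9) t1008)))))))))))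
noncomputable def l37383 : Lb := (@Lb.d (nat_lit 1) (nat_lit 256) (nat_lit 73) (@Lb.g g8 (@Lb.g g9 (@Lb.g g10 (@Lb.g g11 (@Lb.r r2691 (@Lb.r r1192 (@Lb.r r1610 (@Lb.r r289 (@Lb.d (nat_lit 640) (nat_lit 41) (nat_lit 394) (@Lb.fm (nat_lit 9) t1719)))))))))))
noncomputable def l37384 : Lb := (@Lb.d (nat_lit 289) (nat_lit 650) (nat_lit 360) (@Lb.r r536 (@Lb.r r1129 (@Lb.r r2311 (@Lb.g g7 (@Lb.g g10 (@Lb.g g5 (@Lb.g g4 (@Lb.d (nat_lit 134) (nat_lit 34) (nat_lit 34) (@Lb.fm (nat_lit 9) t512))))))))))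
noncomputable def l37385 : Lb := (@Lb.d (nat_lit 9) (nat_lit 520) (nat_lit 0) (@Lb.g g8 (@Lb.g g10 (@Lb.r r2331 (@Lb.r r1121 (@Lb.r r2646 (@Lb.r r2436 (@Lb.d (nat_lit 101) (nat_lit 128) (nat_lit 554) (@Lb.fp (nat_lit 3) t188)))))))))
noncomputable def l37386 : Lb := (@Lb.d (nat_lit 1) (nat_lit 0) (nat_lit 64) (@Lb.g g8 (@Lb.g g10 (@Lb.g g7 (@Lb.r r402 (@Lb.r r2145 (@Lb.r r24 (@Lb.d (nat_lit 330) (nat_lit 97) (nat_lit 256) (@Lb.t (@Lb.fm (nat_lit 9) t5077))))))))))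
noncomputable def l37387 : Lb := (@Lb.r r2145 (@Lb.r r1174 (@Lb.r r1671 (@Lb.r r2376 (@Lb.g g7 (@Lb.g g8 (@Lb.r r578 (@Lb.r r529 (@Lb.p (nat_lit 1) (@Lb.fp (nat_lit 3) t74))))))))))
noncomputable def l37388 : Lb := (@Lb.d (nat_lit 134) (nat_lit 518) (nat_lit 33) (@Lb.r r580 (@Lb.r r615 (@Lb.r r529 (@Lb.r r146 (@Lb.g g7 (@Lb.g g5 (@Lb.g g4 (@Lb.d (nat_lit 18) (nat_lit 1) (nat_lit 132) (@Lb.t (@Lb.fp (nat_lit 9) t546)))))))))))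
noncomputable def l37389 : Lb := (@Lb.g g7 (@Lb.r r101 (@Lb.r r24 (@Lb.d (nat_lit 576) (nat_lit 0) (nat_lit 661) (@Lb.t (@Lb.fm (nat_lit 3) t166))))))
noncomputable def l37390 : Lb := (@Lb.d (nat_lit 144) (nat_lit 265) (nat_lit 132) (@Lb.g g8 (@Lb.g g9 (@Lb.g g10 (@Lb.g g11 (@Lb.r r1706 (@Lb.r r1415 (@Lb.r r2201 (@Lb.r r1048 (@Lb.d (nat_lit 386) (nat_lit 38) (nat_lit 340) (@Lb.fp (nat_lit 9) t5524)))))))))))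
noncomputable def l37391 : Lb := (@Lb.d (nat_lit 10) (nat_lit 256) (nat_lit 66) (@Lb.g g8 (@Lb.g g10 (@Lb.g g11 (@Lb.r r1602 (@Lb.r r1637 (@Lb.r r2407 (@Lb.r r2584 (@Lb.d (nat_lit 358) (nat_lit 8) (nat_lit 529) (@Lb.t (@Lb.fm (nat_lit 9) t4132)))))))))))
noncomputable def l37392 : Lb := (@Lb.r r21 (@Lb.d (nat_lit 646) (nat_lit 0) (nat_lit 66) (@Lb.g g8 (@Lb.g g10 (@Lb.g g11 (@Lb.r r1451 (@Lb.r r106 (@Lb.r r97 (@Lb.d (nat_lit 20) (nat_lit 130) (nat_lit 341) (@Lb.t (@Lb.fp (nat_lit 9) t6577)))))))))))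
noncomputable def l37393 : Lb := (@Lb.d (nat_lit 10) (nat_lit 0) (nat_lit 66) (@Lb.g g8 (@Lb.g g10 (@Lb.g g11 (@Lb.r r1602 (@Lb.r r1637 (@Lb.r r2407 (@Lb.r r2584 (@Lb.d (nat_lit 358) (nat_lit 1) (nat_lit 530) (@Lb.t (@Lb.fm (nat_lit 9) t2238)))))))))))
noncomputable def l37394 : Lb := (@Lb.d (nat_lit 2) (nat_lit 514) (nat_lit 130) (@Lb.g g8 (@Lb.g g9 (@Lb.g g10 (@Lb.g g11 (@Lb.r r610 (@Lb.r r1607 (@Lb.r r2457 (@Lb.r r2436 (@Lb.d (nat_lit 656) (nat_lit 73) (nat_lit 425) (@Lb.fm (nat_lit 9) t2103)))))))))))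
noncomputable def l37395 : Lb := (@Lb.d (nat_lit 160) (nat_lit 2) (nat_lit 136) (@Lb.g g8 (@Lb.g g9 (@Lb.g g11 (@Lb.r r150 (@Lb.r r2408 (@Lb.r r2311 (@Lb.r r97 (@Lb.d (nat_lit 585) (nat_lit 88) (nat_lit 96) (@Lb.t (@Lb.fp (nat_lit 9) t3740)))))))))))
noncomputable def l37396 : Lb := (@Lb.d (nat_lit 2) (nat_lit 513) (nat_lit 66) (@Lb.g g8 (@Lb.g g9 (@Lb.g g10 (@Lb.g g11 (@Lb.r r1602 (@Lb.r r1623 (@Lb.r r289 (@Lb.r r24 (@Lb.d (nat_lit 38) (nat_lit 42) (nat_lit 337) (@Lb.fm (nat_lit 9) t6578)))))))))))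
noncomputable def l37397 : Lb := (@Lb.r r82 (@Lb.d (nat_lit 132) (nat_lit 272) (nat_lit 128) (@Lb.g g8 (@Lb.g g9 (@Lb.g g11 (@Lb.r r2667 (@Lb.r r386 (@Lb.r r2088 (@Lb.r r105 (@Lb.d (nat_lit 294) (nat_lit 138) (nat_lit 17) (@Lb.t (@Lb.fm (nat_lit 9) t1000))))))))))))
noncomputable def l37398 : Lb := (@Lb.d (nat_lit 144) (nat_lit 2) (nat_lit 132) (@Lb.g g8 (@Lb.g g9 (@Lb.g g10 (@Lb.g g11 (@Lb.r r2731 (@Lb.r r2216 (@Lb.r r394 (@Lb.r r97 (@Lb.d (nat_lit 409) (nat_lit 168) (nat_lit 322) (@Lb.fp (nat_lit 9) t3919)))))))))))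
noncomputable def l37399 : Lb := (@Lb.d (nat_lit 132) (nat_lit 16) (nat_lit 2) (@Lb.g g8 (@Lb.g g9 (@Lb.g g10 (@Lb.g g11 (@Lb.r r610 (@Lb.r r1607 (@Lb.r r2344 (@Lb.r r2601 (@Lb.d (nat_lit 641) (nat_lit 164) (nat_lit 152) (@Lb.fm (nat_lit 9) t4679)))))))))))
noncomputable def l37400 : Lb := (@Lb.r r82 (@Lb.d (nat_lit 41) (nat_lit 513) (nat_lit 0) (@Lb.g g8 (@Lb.g g9 (@Lb.g g11 (@Lb.r r363 (@Lb.r r582 (@Lb.r r388 (@Lb.d (nat_lit 98) (nat_lit 8) (nat_lit 153) (@Lb.t (@Lb.fm (nat_lit 9) t390)))))))))))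
noncomputable def l37401 : Lb := (@Lb.d (nat_lit 9) (nat_lit 516) (nat_lit 128) (@Lb.g g8 (@Lb.g g9 (@Lb.g g10 (@Lb.g g11 (@Lb.r r676 (@Lb.r r2311 (@Lb.r r161 (@Lb.r r98 (@Lb.r r1540 (@Lb.d (nat_lit 2) (nat_lit 169) (nat_lit 641) (@Lb.fm (nat_lit 9) t6579))))))))))))
noncomputable def l37402 : Lb := (@Lb.r r322 (@Lb.d (nat_lit 2) (nat_lit 10) (nat_lit 576) (@Lb.g g8 (@Lb.g g9 (@Lb.g g7 (@Lb.r r594 (@Lb.r r1701 (@Lb.r r24 (@Lb.d (nat_lit 410) (nat_lit 9) (nat_lit 341) (@Lb.t (@Lb.fp (nat_lit 9) t1636)))))))))))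
noncomputable def l37403 : Lb := (@Lb.d (nat_lit 2) (nat_lit 548) (nat_lit 66) (@Lb.g g8 (@Lb.g g9 (@Lb.g g10 (@Lb.g g11 (@Lb.r r611 (@Lb.r r2666 (@Lb.r r612 (@Lb.r r533 (@Lb.d (nat_lit 2) (nat_lit 40) (nat_lit 386) (@Lb.fm (nat_lit 9) t4903)))))))))))
noncomputable def l37404 : Lb := (@Lb.d (nat_lit 64) (nat_lit 160) (nat_lit 640) (@Lb.r r24 (@Lb.r r101 (@Lb.r r402 (@Lb.g g11 (@Lb.g g6 (@Lb.d (nat_lit 0) (nat_lit 0) (nat_lit 128) (@Lb.fm (nat_lit 3) t2332))))))))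
noncomputable def l37405 : Lb := (@Lb.d (nat_lit 162) (nat_lit 582) (nat_lit 328) (@Lb.r r101 (@Lb.r r24 (@Lb.r r682 (@Lb.r r1447 (@Lb.g g7 (@Lb.g g6 (@Lb.g g5 (@Lb.d (nat_lit 4) (nat_lit 1) (nat_lit 68) (@Lb.t (@Lb.fm (nat_lit 9) t635)))))))))))
noncomputable def l37406 : Lb := (@Lb.d (nat_lit 2) (nat_lit 512) (nat_lit 64) (@Lb.g g8 (@Lb.g g11 (@Lb.r r1575 (@Lb.r r101 (@Lb.d (nat_lit 36) (nat_lit 168) (nat_lit 597) (@Lb.fm (nat_lit 3) t5603)))))))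
noncomputable def l37407 : Lb := (@Lb.d (nat_lit 645) (nat_lit 512) (nat_lit 66) (@Lb.r r2584 (@Lb.g g7 (@Lb.g g9 (@Lb.g g4 (@Lb.d (nat_lit 8) (nat_lit 9) (nat_lit 0) (@Lb.t (@Lb.fp (nat_lit 9) t236))))))))
noncomputable def l37408 : Lb := (@Lb.d (nat_lit 5) (nat_lit 266) (nat_lit 137) (@Lb.g g4 (@Lb.g g9 (@Lb.g g10 (@Lb.g g11 (@Lb.r r2694 (@Lb.r r2451 (@Lb.r r1553 (@Lb.d (nat_lit 324) (nat_lit 42) (nat_lit 642) (@Lb.fp (nat_lit 9) t50))))))))))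
noncomputable def l37409 : Lb := (@Lb.d (nat_lit 402) (nat_lit 421) (nat_lit 22) (@Lb.r r2068 (@Lb.r r601 (@Lb.r r532 (@Lb.r r418 (@Lb.g g11 (@Lb.g g6 (@Lb.g g5 (@Lb.g g4 (@Lb.d (nat_lit 1) (nat_lit 0) (nat_lit 130) (@Lb.fp (nat_lit 9) t5573)))))))))))
noncomputable def l37410 : Lb := (@Lb.d (nat_lit 657) (nat_lit 421) (nat_lit 85) (@Lb.r r2632 (@Lb.r r97 (@Lb.g g7 (@Lb.g g10 (@Lb.g g4 (@Lb.d (nat_lit 1) (nat_lit 0) (nat_lit 0) (@Lb.r r25 (@Lb.t (@Lb.fm (nat_lit 9) t5982))))))))))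
noncomputable def l37411 : Lb := (@Lb.d (nat_lit 129) (nat_lit 514) (nat_lit 130) (@Lb.g g8 (@Lb.g g9 (@Lb.g g10 (@Lb.g g11 (@Lb.r r2411 (@Lb.r r386 (@Lb.r r97 (@Lb.r r552 (@Lb.d (nat_lit 660) (nat_lit 5) (nat_lit 520) (@Lb.fm (nat_lit 9) t1067)))))))))))
noncomputable def l37412 : Lb := (@Lb.d (nat_lit 2) (nat_lit 0) (nat_lit 0) (@Lb.g g8 (@Lb.g g7 (@Lb.d (nat_lit 0) (nat_lit 0) (nat_lit 64) (@Lb.fp (nat_lit 3) t2)))))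
noncomputable def l37413 : Lb := (@Lb.d (nat_lit 645) (nat_lit 1) (nat_lit 0) (@Lb.r r2580 (@Lb.r r89 (@Lb.r r386 (@Lb.g g11 (@Lb.g g6 (@Lb.g g4 (@Lb.d (nat_lit 5) (nat_lit 0) (nat_lit 129) (@Lb.t (@Lb.fp (nat_lit 9) t442))))))))))
noncomputable def l37414 : Lb := (@Lb.d (nat_lit 5) (nat_lit 256) (nat_lit 0) (@Lb.g g4 (@Lb.r r1319 (@Lb.d (nat_lit 262) (nat_lit 65) (nat_lit 0) (@Lb.t (@Lb.fm (nat_lit 3) t1855))))))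
noncomputable def l37415 : Lb := (@Lb.d (nat_lit 612) (nat_lit 65) (nat_lit 324) (@Lb.r r2436 (@Lb.r r363 (@Lb.r r273 (@Lb.g g7 (@Lb.g g10 (@Lb.g g5 (@Lb.g g4 (@Lb.d (nat_lit 148) (nat_lit 18) (nat_lit 4) (@Lb.fm (nat_lit 9) t421))))))))))
noncomputable def l37416 : Lb := (@Lb.r r70 (@Lb.d (nat_lit 161) (nat_lit 258) (nat_lit 136) (@Lb.g g8 (@Lb.g g9 (@Lb.g g11 (@Lb.r r2666 (@Lb.r r677 (@Lb.r r340 (@Lb.d (nat_lit 358) (nat_lit 145) (nat_lit 102) (@Lb.t (@Lb.fp (nat_lit 9) t869)))))))))))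
noncomputable def l37417 : Lb := (@Lb.d (nat_lit 609) (nat_lit 390) (nat_lit 80) (@Lb.r r392 (@Lb.r r1106 (@Lb.r r423 (@Lb.g g6 (@Lb.g g5 (@Lb.g g4 (@Lb.d (nat_lit 8) (nat_lit 128) (nat_lit 1) (@Lb.r r391 (@Lb.t (@Lb.fm (nat_lit 9) t6580)))))))))))
noncomputable def l37418 : Lb := (@Lb.d (nat_lit 0) (nat_lit 0) (nat_lit 264) (@Lb.r r2579 (@Lb.r r2341 (@Lb.r r2136 (@Lb.g g6 (@Lb.g g5 (@Lb.d (nat_lit 16) (nat_lit 0) (nat_lit 18) (@Lb.fp (nat_lit 3) t1038))))))))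
noncomputable def l37419 : Lb := (@Lb.r r70 (@Lb.d (nat_lit 128) (nat_lit 258) (nat_lit 136) (@Lb.g g8 (@Lb.g g9 (@Lb.g g11 (@Lb.r r2410 (@Lb.r r165 (@Lb.r r84 (@Lb.d (nat_lit 33) (nat_lit 0) (nat_lit 162) (@Lb.t (@Lb.fp (nat_lit 9) t869)))))))))))
noncomputable def l37420 : Lb := (@Lb.d (nat_lit 358) (nat_lit 353) (nat_lit 360) (@Lb.r r2328 (@Lb.r r2645 (@Lb.r r2583 (@Lb.g g6 (@Lb.g g4 (@Lb.d (nat_lit 98) (nat_lit 4) (nat_lit 2) (@Lb.fm (nat_lit 3) t2214))))))))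
noncomputable def l37421 : Lb := (@Lb.d (nat_lit 678) (nat_lit 26) (nat_lit 1) (@Lb.r r422 (@Lb.r r88 (@Lb.r r1363 (@Lb.g g7 (@Lb.g g6 (@Lb.g g5 (@Lb.d (nat_lit 24) (nat_lit 128) (nat_lit 134) (@Lb.t (@Lb.fp (nat_lit 9) t1412))))))))))
noncomputable def l37422 : Lb := (@Lb.d (nat_lit 2) (nat_lit 514) (nat_lit 73) (@Lb.g g8 (@Lb.g g9 (@Lb.g g10 (@Lb.g g11 (@Lb.r r642 (@Lb.r r1687 (@Lb.r r104 (@Lb.r r25 (@Lb.d (nat_lit 672) (nat_lit 90) (nat_lit 617) (@Lb.fm (nat_lit 9) t6581)))))))))))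
noncomputable def l37423 : Lb := (@Lb.d (nat_lit 145) (nat_lit 261) (nat_lit 538) (@Lb.r r2068 (@Lb.r r345 (@Lb.r r276 (@Lb.r r418 (@Lb.g g11 (@Lb.g g6 (@Lb.g g5 (@Lb.g g4 (@Lb.d (nat_lit 1) (nat_lit 20) (nat_lit 393) (@Lb.fp (nat_lit 9) t1444)))))))))))
noncomputable def l37424 : Lb := (@Lb.d (nat_lit 33) (nat_lit 260) (nat_lit 130) (@Lb.g g8 (@Lb.g g9 (@Lb.g g10 (@Lb.g g11 (@Lb.r r84 (@Lb.r r1178 (@Lb.r r1621 (@Lb.r r1367 (@Lb.r r2724 (@Lb.d (nat_lit 105) (nat_lit 129) (nat_lit 138) (@Lb.fm (nat_lit 9) t5307))))))))))))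
noncomputable def l37425 : Lb := (@Lb.r r70 (@Lb.r r2311 (@Lb.g g8 (@Lb.r r2180 (@Lb.r r390 (@Lb.d (nat_lit 0) (nat_lit 0) (nat_lit 16) (@Lb.t (@Lb.fm (nat_lit 3) t5638))))))))
noncomputable def l37426 : Lb := (@Lb.d (nat_lit 2) (nat_lit 80) (nat_lit 533) (@Lb.r r2371 (@Lb.r r594 (@Lb.r r165 (@Lb.g g6 (@Lb.g g5 (@Lb.g g8 (@Lb.d (nat_lit 337) (nat_lit 1) (nat_lit 1) (@Lb.r r391 (@Lb.t (@Lb.fp (nat_lit 9) t4216)))))))))))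
noncomputable def l37427 : Lb := (@Lb.r r263 (@Lb.d (nat_lit 642) (nat_lit 514) (nat_lit 2) (@Lb.g g8 (@Lb.g g9 (@Lb.g g10 (@Lb.r r2647 (@Lb.r r106 (@Lb.r r25 (@Lb.d (nat_lit 282) (nat_lit 4) (nat_lit 614) (@Lb.t (@Lb.fp (nat_lit 9) t4497)))))))))))
noncomputable def l37428 : Lb := (@Lb.r r70 (@Lb.d (nat_lit 385) (nat_lit 288) (nat_lit 136) (@Lb.g g8 (@Lb.g g11 (@Lb.r r2469 (@Lb.r r1446 (@Lb.r r2379 (@Lb.d (nat_lit 290) (nat_lit 136) (nat_lit 421) (@Lb.fm (nat_lit 3) t6582)))))))))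
noncomputable def l37429 : Lb := (@Lb.d (nat_lit 129) (nat_lit 262) (nat_lit 74) (@Lb.g g8 (@Lb.g g9 (@Lb.g g10 (@Lb.g g11 (@Lb.r r2571 (@Lb.r r405 (@Lb.r r406 (@Lb.r r2084 (@Lb.d (nat_lit 292) (nat_lit 161) (nat_lit 345) (@Lb.fp (nat_lit 9) t6583)))))))))))
noncomputable def l37430 : Lb := (@Lb.r r70 (@Lb.r r2311 (@Lb.g g8 (@Lb.g g5 (@Lb.r r2180 (@Lb.r r390 (@Lb.d (nat_lit 0) (nat_lit 512) (nat_lit 16) (@Lb.fm (nat_lit 3) t5638))))))))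
noncomputable def l37431 : Lb := (@Lb.d (nat_lit 1) (nat_lit 5) (nat_lit 358) (@Lb.r r2370 (@Lb.r r1683 (@Lb.r r1381 (@Lb.g g7 (@Lb.g g6 (@Lb.g g4 (@Lb.d (nat_lit 292) (nat_lit 0) (nat_lit 64) (@Lb.r r25 (@Lb.t (@Lb.fp (nat_lit 9) t6584)))))))))))
noncomputable def l37432 : Lb := (@Lb.r r20 (@Lb.r r82 (@Lb.r r275 (@Lb.d (nat_lit 0) (nat_lit 266) (nat_lit 0) (@Lb.g g9 (@Lb.r r402 (@Lb.r r2631 (@Lb.d (nat_lit 72) (nat_lit 146) (nat_lit 576) (@Lb.t (@Lb.fp (nat_lit 3) t1117))))))))))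
noncomputable def l37433 : Lb := (@Lb.d (nat_lit 9) (nat_lit 257) (nat_lit 130) (@Lb.g g8 (@Lb.g g9 (@Lb.g g10 (@Lb.g g11 (@Lb.r r1571 (@Lb.r r1633 (@Lb.r r2458 (@Lb.r r2436 (@Lb.d (nat_lit 536) (nat_lit 1) (nat_lit 106) (@Lb.fm (nat_lit 9) t3143)))))))))))
noncomputable def l37434 : Lb := (@Lb.d (nat_lit 264) (nat_lit 614) (nat_lit 662) (@Lb.r r2474 (@Lb.r r2180 (@Lb.r r281 (@Lb.g g7 (@Lb.g g6 (@Lb.d (nat_lit 80) (nat_lit 32) (nat_lit 576) (@Lb.fp (nat_lit 3) t6585))))))))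
noncomputable def l37435 : Lb := (@Lb.r r70 (@Lb.r r263 (@Lb.d (nat_lit 544) (nat_lit 1) (nat_lit 0) (@Lb.g g8 (@Lb.g g9 (@Lb.r r2454 (@Lb.r r2627 (@Lb.r r1049 (@Lb.d (nat_lit 522) (nat_lit 18) (nat_lit 576) (@Lb.fm (nat_lit 3) t842))))))))))
noncomputable def l37436 : Lb := (@Lb.d (nat_lit 9) (nat_lit 292) (nat_lit 128) (@Lb.g g8 (@Lb.g g9 (@Lb.g g10 (@Lb.g g11 (@Lb.r r1702 (@Lb.r r2600 (@Lb.r r2667 (@Lb.r r1369 (@Lb.d (nat_lit 677) (nat_lit 100) (nat_lit 536) (@Lb.fm (nat_lit 9) t125)))))))))))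
noncomputable def l37437 : Lb := (@Lb.d (nat_lit 84) (nat_lit 17) (nat_lit 150) (@Lb.r r1445 (@Lb.r r2712 (@Lb.r r2438 (@Lb.g g7 (@Lb.g g5 (@Lb.g g4 (@Lb.d (nat_lit 8) (nat_lit 4) (nat_lit 324) (@Lb.r r610 (@Lb.t (@Lb.fm (nat_lit 9) t1050)))))))))))
noncomputable def l37438 : Lb := (@Lb.d (nat_lit 9) (nat_lit 1) (nat_lit 128) (@Lb.g g8 (@Lb.g g9 (@Lb.g g10 (@Lb.g g11 (@Lb.r r2473 (@Lb.r r1623 (@Lb.r r2394 (@Lb.r r2436 (@Lb.d (nat_lit 73) (nat_lit 10) (nat_lit 617) (@Lb.fp (nat_lit 9) t2058)))))))))))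
noncomputable def l37439 : Lb := (@Lb.d (nat_lit 2) (nat_lit 258) (nat_lit 66) (@Lb.g g8 (@Lb.g g9 (@Lb.g g10 (@Lb.g g7 (@Lb.r r2442 (@Lb.r r97 (@Lb.r r2436 (@Lb.d (nat_lit 96) (nat_lit 138) (nat_lit 353) (@Lb.fm (nat_lit 9) t1394))))))))))
noncomputable def l37440 : Lb := (@Lb.d (nat_lit 2) (nat_lit 2) (nat_lit 66) (@Lb.g g8 (@Lb.g g9 (@Lb.g g10 (@Lb.g g7 (@Lb.r r2442 (@Lb.r r97 (@Lb.r r2436 (@Lb.d (nat_lit 96) (nat_lit 128) (nat_lit 354) (@Lb.fm (nat_lit 9) t1394))))))))))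
noncomputable def l37441 : Lb := (@Lb.d (nat_lit 9) (nat_lit 261) (nat_lit 138) (@Lb.g g8 (@Lb.g g9 (@Lb.g g10 (@Lb.g g11 (@Lb.r r1707 (@Lb.r r1700 (@Lb.r r1382 (@Lb.r r613 (@Lb.d (nat_lit 338) (nat_lit 154) (nat_lit 640) (@Lb.fp (nat_lit 9) t144)))))))))))
noncomputable def l37442 : Lb := (@Lb.d (nat_lit 97) (nat_lit 258) (nat_lit 132) (@Lb.g g8 (@Lb.g g9 (@Lb.g g10 (@Lb.g g11 (@Lb.r r2691 (@Lb.r r1385 (@Lb.r r2198 (@Lb.r r340 (@Lb.d (nat_lit 17) (nat_lit 133) (nat_lit 321) (@Lb.fm (nat_lit 9) t6586)))))))))))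
noncomputable def l37443 : Lb := (@Lb.d (nat_lit 0) (nat_lit 256) (nat_lit 66) (@Lb.g g10 (@Lb.g g11 (@Lb.r r419 (@Lb.r r2438 (@Lb.d (nat_lit 598) (nat_lit 34) (nat_lit 514) (@Lb.fp (nat_lit 3) t6094)))))))
noncomputable def l37444 : Lb := (@Lb.d (nat_lit 144) (nat_lit 262) (nat_lit 417) (@Lb.r r82 (@Lb.r r1371 (@Lb.g g7 (@Lb.g g6 (@Lb.g g5 (@Lb.g g8 (@Lb.d (nat_lit 9) (nat_lit 128) (nat_lit 1) (@Lb.fm (nat_lit 9) t6587)))))))))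
noncomputable def l37445 : Lb := (@Lb.d (nat_lit 2) (nat_lit 514) (nat_lit 130) (@Lb.g g8 (@Lb.g g9 (@Lb.g g10 (@Lb.g g11 (@Lb.r r2722 (@Lb.r r1432 (@Lb.r r2725 (@Lb.r r2599 (@Lb.d (nat_lit 6) (nat_lit 152) (nat_lit 649) (@Lb.fp (nat_lit 9) t668)))))))))))
noncomputable def l37446 : Lb := (@Lb.r r21 (@Lb.d (nat_lit 2) (nat_lit 256) (nat_lit 73) (@Lb.g g8 (@Lb.g g10 (@Lb.g g11 (@Lb.r r1691 (@Lb.r r417 (@Lb.r r98 (@Lb.r r2180 (@Lb.d (nat_lit 617) (nat_lit 133) (nat_lit 530) (@Lb.t (@Lb.fm (nat_lit 9) t2116))))))))))))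
noncomputable def l37447 : Lb := (@Lb.d (nat_lit 144) (nat_lit 6) (nat_lit 417) (@Lb.r r82 (@Lb.r r1371 (@Lb.g g7 (@Lb.g g6 (@Lb.g g5 (@Lb.g g8 (@Lb.d (nat_lit 2) (nat_lit 129) (nat_lit 1) (@Lb.fm (nat_lit 9) t6588)))))))))
noncomputable def l37448 : Lb := (@Lb.d (nat_lit 128) (nat_lit 0) (nat_lit 328) (@Lb.g g11 (@Lb.r r402 (@Lb.d (nat_lit 357) (nat_lit 10) (nat_lit 674) (@Lb.t (@Lb.fm (nat_lit 3) t6589))))))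
noncomputable def l37449 : Lb := (@Lb.d (nat_lit 42) (nat_lit 256) (nat_lit 0) (@Lb.g g4 (@Lb.r r2217 (@Lb.r r1194 (@Lb.r r1704 (@Lb.d (nat_lit 424) (nat_lit 42) (nat_lit 89) (@Lb.t (@Lb.fp (nat_lit 3) t322))))))))
noncomputable def l37450 : Lb := (@Lb.d (nat_lit 132) (nat_lit 514) (nat_lit 66) (@Lb.g g8 (@Lb.g g9 (@Lb.g g10 (@Lb.g g11 (@Lb.r r618 (@Lb.r r612 (@Lb.r r1319 (@Lb.r r405 (@Lb.r r36 (@Lb.d (nat_lit 97) (nat_lit 138) (nat_lit 409) (@Lb.fp (nat_lit 9) t163))))))))))))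
noncomputable def l37451 : Lb := (@Lb.d (nat_lit 33) (nat_lit 256) (nat_lit 0) (@Lb.g g8 (@Lb.r r2395 (@Lb.r r614 (@Lb.r r1637 (@Lb.r r1428 (@Lb.d (nat_lit 612) (nat_lit 90) (nat_lit 394) (@Lb.t (@Lb.fm (nat_lit 3) t386)))))))))
noncomputable def l37452 : Lb := (@Lb.r r21 (@Lb.r r70 (@Lb.d (nat_lit 138) (nat_lit 512) (nat_lit 256) (@Lb.g g8 (@Lb.g g7 (@Lb.r r1617 (@Lb.r r2150 (@Lb.r r408 (@Lb.d (nat_lit 168) (nat_lit 21) (nat_lit 426) (@Lb.fm (nat_lit 3) t522))))))))))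
noncomputable def l37453 : Lb := (@Lb.d (nat_lit 598) (nat_lit 418) (nat_lit 26) (@Lb.r r276 (@Lb.r r2649 (@Lb.r r347 (@Lb.g g10 (@Lb.g g4 (@Lb.d (nat_lit 65) (nat_lit 4) (nat_lit 6) (@Lb.r r25 (@Lb.fp (nat_lit 3) t1356)))))))))
noncomputable def l37454 : Lb := (@Lb.d (nat_lit 608) (nat_lit 357) (nat_lit 32) (@Lb.r r408 (@Lb.r r2442 (@Lb.r r1367 (@Lb.g g6 (@Lb.g g5 (@Lb.g g4 (@Lb.d (nat_lit 18) (nat_lit 129) (nat_lit 1) (@Lb.r r387 (@Lb.t (@Lb.fp (nat_lit 9) t1674)))))))))))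
noncomputable def l37455 : Lb := (@Lb.r r21 (@Lb.r r70 (@Lb.d (nat_lit 137) (nat_lit 0) (nat_lit 256) (@Lb.g g8 (@Lb.g g7 (@Lb.r r402 (@Lb.r r2581 (@Lb.r r360 (@Lb.d (nat_lit 678) (nat_lit 37) (nat_lit 389) (@Lb.fp (nat_lit 3) t6027))))))))))
noncomputable def l37456 : Lb := (@Lb.d (nat_lit 0) (nat_lit 256) (nat_lit 578) (@Lb.r r2311 (@Lb.r r1560 (@Lb.r r101 (@Lb.g g10 (@Lb.g g5 (@Lb.d (nat_lit 0) (nat_lit 8) (nat_lit 34) (@Lb.r r132 (@Lb.fp (nat_lit 3) t1817)))))))))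
noncomputable def l37457 : Lb := (@Lb.d (nat_lit 40) (nat_lit 258) (nat_lit 130) (@Lb.g g9 (@Lb.g g10 (@Lb.g g11 (@Lb.r r1451 (@Lb.r r72 (@Lb.r r598 (@Lb.r r421 (@Lb.d (nat_lit 21) (nat_lit 65) (nat_lit 136) (@Lb.t (@Lb.fm (nat_lit 9) t6590)))))))))))
noncomputable def l37458 : Lb := (@Lb.d (nat_lit 2) (nat_lit 258) (nat_lit 2) (@Lb.g g8 (@Lb.g g9 (@Lb.g g10 (@Lb.g g11 (@Lb.r r1706 (@Lb.r r1451 (@Lb.r r2457 (@Lb.r r2436 (@Lb.d (nat_lit 618) (nat_lit 129) (nat_lit 410) (@Lb.fm (nat_lit 9) t6591)))))))))))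
noncomputable def l37459 : Lb := (@Lb.d (nat_lit 32) (nat_lit 520) (nat_lit 64) (@Lb.g g10 (@Lb.g g11 (@Lb.r r360 (@Lb.r r1641 (@Lb.r r2411 (@Lb.r r598 (@Lb.d (nat_lit 278) (nat_lit 40) (nat_lit 666) (@Lb.fm (nat_lit 3) t3263)))))))))
noncomputable def l37460 : Lb := (@Lb.d (nat_lit 1) (nat_lit 528) (nat_lit 544) (@Lb.r r2321 (@Lb.r r1379 (@Lb.g g10 (@Lb.g g5 (@Lb.d (nat_lit 0) (nat_lit 22) (nat_lit 22) (@Lb.r r387 (@Lb.r r36 (@Lb.fp (nat_lit 3) t304)))))))))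
noncomputable def l37461 : Lb := (@Lb.d (nat_lit 0) (nat_lit 292) (nat_lit 64) (@Lb.g g9 (@Lb.g g10 (@Lb.g g11 (@Lb.r r675 (@Lb.r r614 (@Lb.r r609 (@Lb.r r8 (@Lb.d (nat_lit 554) (nat_lit 20) (nat_lit 680) (@Lb.t (@Lb.fp (nat_lit 9) t1876)))))))))))
noncomputable def l37462 : Lb := (@Lb.d (nat_lit 130) (nat_lit 514) (nat_lit 66) (@Lb.g g8 (@Lb.g g9 (@Lb.g g10 (@Lb.g g11 (@Lb.r r427 (@Lb.r r426 (@Lb.r r420 (@Lb.r r21 (@Lb.r r36 (@Lb.d (nat_lit 10) (nat_lit 41) (nat_lit 137) (@Lb.fm (nat_lit 9) t1108))))))))))))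
noncomputable def l37463 : Lb := (@Lb.d (nat_lit 657) (nat_lit 424) (nat_lit 73) (@Lb.r r8 (@Lb.r r101 (@Lb.r r386 (@Lb.r r2395 (@Lb.g g7 (@Lb.g g6 (@Lb.d (nat_lit 0) (nat_lit 0) (nat_lit 65) (@Lb.fp (nat_lit 3) t5068)))))))))
noncomputable def l37464 : Lb := (@Lb.d (nat_lit 144) (nat_lit 2) (nat_lit 64) (@Lb.g g8 (@Lb.g g9 (@Lb.g g10 (@Lb.g g11 (@Lb.r r427 (@Lb.r r418 (@Lb.r r292 (@Lb.r r2453 (@Lb.r r36 (@Lb.d (nat_lit 354) (nat_lit 8) (nat_lit 34) (@Lb.fm (nat_lit 9) t3045))))))))))))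
noncomputable def l37465 : Lb := (@Lb.d (nat_lit 10) (nat_lit 0) (nat_lit 2) (@Lb.g g8 (@Lb.g g10 (@Lb.g g11 (@Lb.r r293 (@Lb.r r1435 (@Lb.r r386 (@Lb.r r1112 (@Lb.d (nat_lit 42) (nat_lit 2) (nat_lit 554) (@Lb.t (@Lb.fp (nat_lit 9) t6592)))))))))))
noncomputable def l37466 : Lb := (@Lb.d (nat_lit 1) (nat_lit 258) (nat_lit 2) (@Lb.g g8 (@Lb.g g9 (@Lb.g g10 (@Lb.r r683 (@Lb.r r1689 (@Lb.r r1688 (@Lb.r r1610 (@Lb.d (nat_lit 609) (nat_lit 98) (nat_lit 386) (@Lb.t (@Lb.fm (nat_lit 9) t6593)))))))))))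
noncomputable def l37467 : Lb := (@Lb.r r82 (@Lb.d (nat_lit 0) (nat_lit 290) (nat_lit 64) (@Lb.g g4 (@Lb.g g9 (@Lb.g g11 (@Lb.r r2467 (@Lb.r r386 (@Lb.d (nat_lit 8) (nat_lit 84) (nat_lit 290) (@Lb.t (@Lb.fm (nat_lit 9) t6594))))))))))
noncomputable def l37468 : Lb := (@Lb.d (nat_lit 134) (nat_lit 256) (nat_lit 130) (@Lb.g g8 (@Lb.g g9 (@Lb.g g10 (@Lb.g g11 (@Lb.r r1706 (@Lb.r r1411 (@Lb.r r1177 (@Lb.r r1176 (@Lb.d (nat_lit 538) (nat_lit 85) (nat_lit 601) (@Lb.fp (nat_lit 9) t4000)))))))))))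
noncomputable def l37469 : Lb := (@Lb.d (nat_lit 129) (nat_lit 34) (nat_lit 0) (@Lb.g g8 (@Lb.g g9 (@Lb.g g10 (@Lb.r r2474 (@Lb.r r583 (@Lb.r r408 (@Lb.r r2085 (@Lb.d (nat_lit 581) (nat_lit 22) (nat_lit 346) (@Lb.t (@Lb.fm (nat_lit 9) t178)))))))))))
noncomputable def l37470 : Lb := (@Lb.d (nat_lit 274) (nat_lit 80) (nat_lit 405) (@Lb.r r2129 (@Lb.r r2406 (@Lb.r r81 (@Lb.r r2691 (@Lb.g g7 (@Lb.g g6 (@Lb.g g5 (@Lb.g g8 (@Lb.d (nat_lit 2) (nat_lit 1) (nat_lit 134) (@Lb.fp (nat_lit 9) t6595)))))))))))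
noncomputable def l37471 : Lb := (@Lb.d (nat_lit 149) (nat_lit 618) (nat_lit 25) (@Lb.r r24 (@Lb.r r1697 (@Lb.r r2667 (@Lb.g g10 (@Lb.g g5 (@Lb.g g4 (@Lb.d (nat_lit 8) (nat_lit 6) (nat_lit 34) (@Lb.r r403 (@Lb.t (@Lb.fp (nat_lit 9) t1453)))))))))))
noncomputable def l37472 : Lb := (@Lb.d (nat_lit 1) (nat_lit 598) (nat_lit 336) (@Lb.r r260 (@Lb.r r2145 (@Lb.r r267 (@Lb.r r404 (@Lb.g g7 (@Lb.g g10 (@Lb.g g5 (@Lb.g g4 (@Lb.d (nat_lit 6) (nat_lit 1) (nat_lit 98) (@Lb.fp (nat_lit 9) t983)))))))))))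
noncomputable def l37473 : Lb := (@Lb.r r21 (@Lb.d (nat_lit 169) (nat_lit 512) (nat_lit 128) (@Lb.g g8 (@Lb.g g11 (@Lb.r r405 (@Lb.r r619 (@Lb.r r1350 (@Lb.r r676 (@Lb.d (nat_lit 170) (nat_lit 146) (nat_lit 9) (@Lb.fp (nat_lit 3) t2165))))))))))
noncomputable def l37474 : Lb := (@Lb.d (nat_lit 16) (nat_lit 0) (nat_lit 70) (@Lb.r r24 (@Lb.r r101 (@Lb.r r386 (@Lb.g g11 (@Lb.g g6 (@Lb.g g5 (@Lb.d (nat_lit 0) (nat_lit 0) (nat_lit 6) (@Lb.t (@Lb.fp (nat_lit 9) t51))))))))))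
noncomputable def l37475 : Lb := (@Lb.d (nat_lit 2) (nat_lit 256) (nat_lit 0) (@Lb.g g8 (@Lb.r r89 (@Lb.r r166 (@Lb.r r344 (@Lb.r r679 (@Lb.r r657 (@Lb.d (nat_lit 528) (nat_lit 1) (nat_lit 145) (@Lb.t (@Lb.fm (nat_lit 3) t1607))))))))))
noncomputable def l37476 : Lb := (@Lb.d (nat_lit 10) (nat_lit 256) (nat_lit 0) (@Lb.g g8 (@Lb.r r289 (@Lb.r r279 (@Lb.r r612 (@Lb.r r154 (@Lb.d (nat_lit 5) (nat_lit 0) (nat_lit 4) (@Lb.t (@Lb.fp (nat_lit 3) t285)))))))))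
noncomputable def l37477 : Lb := (@Lb.r r89 (@Lb.r r166 (@Lb.r r344 (@Lb.r r679 (@Lb.r r657 (@Lb.d (nat_lit 528) (nat_lit 513) (nat_lit 145) (@Lb.fm (nat_lit 1) t1607)))))))
noncomputable def l37478 : Lb := (@Lb.d (nat_lit 1) (nat_lit 292) (nat_lit 10) (@Lb.g g8 (@Lb.g g9 (@Lb.g g10 (@Lb.g g11 (@Lb.r r2667 (@Lb.r r578 (@Lb.r r2212 (@Lb.r r2085 (@Lb.d (nat_lit 408) (nat_lit 68) (nat_lit 86) (@Lb.fp (nat_lit 9) t750)))))))))))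
noncomputable def l37479 : Lb := (@Lb.d (nat_lit 1) (nat_lit 258) (nat_lit 74) (@Lb.g g8 (@Lb.g g9 (@Lb.g g10 (@Lb.g g11 (@Lb.r r292 (@Lb.r r651 (@Lb.r r162 (@Lb.r r145 (@Lb.r r516 (@Lb.d (nat_lit 8) (nat_lit 70) (nat_lit 70) (@Lb.fp (nat_lit 9) t51))))))))))))
noncomputable def l37480 : Lb := (@Lb.r r323 (@Lb.d (nat_lit 2) (nat_lit 256) (nat_lit 18) (@Lb.g g8 (@Lb.g g10 (@Lb.r r2659 (@Lb.r r1557 (@Lb.r r36 (@Lb.d (nat_lit 616) (nat_lit 2) (nat_lit 581) (@Lb.fp (nat_lit 3) t5698)))))))))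
noncomputable def l37481 : Lb := (@Lb.d (nat_lit 1) (nat_lit 260) (nat_lit 0) (@Lb.g g8 (@Lb.g g9 (@Lb.g g10 (@Lb.r r683 (@Lb.r r676 (@Lb.r r166 (@Lb.r r2197 (@Lb.d (nat_lit 33) (nat_lit 137) (nat_lit 84) (@Lb.t (@Lb.fm (nat_lit 9) t5)))))))))))
noncomputable def l37482 : Lb := (@Lb.d (nat_lit 0) (nat_lit 292) (nat_lit 128) (@Lb.g g9 (@Lb.g g10 (@Lb.g g11 (@Lb.r r2726 (@Lb.r r2435 (@Lb.r r1112 (@Lb.r r2085 (@Lb.d (nat_lit 362) (nat_lit 66) (nat_lit 394) (@Lb.t (@Lb.fp (nat_lit 9) t580)))))))))))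
noncomputable def l37483 : Lb := (@Lb.r r322 (@Lb.d (nat_lit 132) (nat_lit 260) (nat_lit 128) (@Lb.g g9 (@Lb.g g11 (@Lb.r r614 (@Lb.r r408 (@Lb.r r615 (@Lb.d (nat_lit 145) (nat_lit 20) (nat_lit 137) (@Lb.fm (nat_lit 3) t983)))))))))
noncomputable def l37484 : Lb := (@Lb.r r82 (@Lb.d (nat_lit 34) (nat_lit 514) (nat_lit 64) (@Lb.g g8 (@Lb.g g9 (@Lb.g g7 (@Lb.r r594 (@Lb.r r341 (@Lb.r r100 (@Lb.d (nat_lit 137) (nat_lit 10) (nat_lit 9) (@Lb.t (@Lb.fp (nat_lit 9) t984)))))))))))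
noncomputable def l37485 : Lb := (@Lb.d (nat_lit 144) (nat_lit 534) (nat_lit 408) (@Lb.r r275 (@Lb.r r1689 (@Lb.r r1112 (@Lb.g g7 (@Lb.g g6 (@Lb.g g5 (@Lb.d (nat_lit 68) (nat_lit 0) (nat_lit 98) (@Lb.t (@Lb.fm (nat_lit 9) t2841))))))))))
noncomputable def l37486 : Lb := (@Lb.d (nat_lit 330) (nat_lit 678) (nat_lit 96) (@Lb.r r2407 (@Lb.r r337 (@Lb.r r102 (@Lb.g g7 (@Lb.g g5 (@Lb.g g8 (@Lb.d (nat_lit 601) (nat_lit 0) (nat_lit 64) (@Lb.r r586 (@Lb.t (@Lb.fm (nat_lit 9) t2379)))))))))))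
noncomputable def l37487 : Lb := (@Lb.d (nat_lit 257) (nat_lit 10) (nat_lit 34) (@Lb.r r597 (@Lb.r r1386 (@Lb.r r1096 (@Lb.r r1371 (@Lb.g g7 (@Lb.g g6 (@Lb.g g5 (@Lb.d (nat_lit 0) (nat_lit 0) (nat_lit 64) (@Lb.t (@Lb.fm (nat_lit 9) t4859)))))))))))
noncomputable def l37488 : Lb := (@Lb.r r81 (@Lb.d (nat_lit 16) (nat_lit 0) (nat_lit 106) (@Lb.g g10 (@Lb.g g11 (@Lb.r r1700 (@Lb.r r1447 (@Lb.r r37 (@Lb.d (nat_lit 0) (nat_lit 166) (nat_lit 424) (@Lb.fp (nat_lit 3) t6596)))))))))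
noncomputable def l37489 : Lb := (@Lb.d (nat_lit 576) (nat_lit 18) (nat_lit 645) (@Lb.r r597 (@Lb.r r2730 (@Lb.r r2440 (@Lb.g g11 (@Lb.g g5 (@Lb.d (nat_lit 132) (nat_lit 1) (nat_lit 576) (@Lb.r r578 (@Lb.fp (nat_lit 3) t2400)))))))))
noncomputable def l37490 : Lb := (@Lb.r r20 (@Lb.r r275 (@Lb.d (nat_lit 4) (nat_lit 162) (nat_lit 2) (@Lb.g g9 (@Lb.g g10 (@Lb.r r1619 (@Lb.r r386 (@Lb.r r8 (@Lb.d (nat_lit 10) (nat_lit 1) (nat_lit 666) (@Lb.fp (nat_lit 3) t2791))))))))))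
noncomputable def l37491 : Lb := (@Lb.r r275 (@Lb.d (nat_lit 2) (nat_lit 514) (nat_lit 2) (@Lb.g g8 (@Lb.g g9 (@Lb.g g10 (@Lb.r r2347 (@Lb.r r2154 (@Lb.r r2073 (@Lb.d (nat_lit 265) (nat_lit 9) (nat_lit 162) (@Lb.t (@Lb.fm (nat_lit 9) t244)))))))))))
noncomputable def l37492 : Lb := (@Lb.r r85 (@Lb.r r327 (@Lb.d (nat_lit 10) (nat_lit 256) (nat_lit 40) (@Lb.g g8 (@Lb.g g10 (@Lb.r r1619 (@Lb.r r2581 (@Lb.r r552 (@Lb.d (nat_lit 324) (nat_lit 25) (nat_lit 321) (@Lb.fm (nat_lit 3) t1300))))))))))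
noncomputable def l37493 : Lb := (@Lb.d (nat_lit 260) (nat_lit 2) (nat_lit 1) (@Lb.r r1416 (@Lb.r r1386 (@Lb.r r1369 (@Lb.r r2343 (@Lb.g g7 (@Lb.g g6 (@Lb.g g5 (@Lb.d (nat_lit 0) (nat_lit 0) (nat_lit 65) (@Lb.t (@Lb.fm (nat_lit 9) t1101)))))))))))
noncomputable def l37494 : Lb := (@Lb.d (nat_lit 8) (nat_lit 400) (nat_lit 389) (@Lb.r r21 (@Lb.r r579 (@Lb.r r1366 (@Lb.g g6 (@Lb.g g5 (@Lb.g g4 (@Lb.d (nat_lit 1) (nat_lit 1) (nat_lit 1) (@Lb.t (@Lb.fm (nat_lit 9) t40))))))))))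
noncomputable def l37495 : Lb := (@Lb.r r82 (@Lb.d (nat_lit 34) (nat_lit 514) (nat_lit 580) (@Lb.g g8 (@Lb.g g9 (@Lb.g g7 (@Lb.r r1385 (@Lb.r r150 (@Lb.r r100 (@Lb.d (nat_lit 89) (nat_lit 10) (nat_lit 297) (@Lb.t (@Lb.fp (nat_lit 9) t1159)))))))))))
noncomputable def l37496 : Lb := (@Lb.d (nat_lit 0) (nat_lit 516) (nat_lit 25) (@Lb.g g6 (@Lb.r r1427 (@Lb.r r2661 (@Lb.r r24 (@Lb.d (nat_lit 128) (nat_lit 0) (nat_lit 597) (@Lb.t (@Lb.fm (nat_lit 3) t1741))))))))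
noncomputable def l37497 : Lb := (@Lb.d (nat_lit 554) (nat_lit 137) (nat_lit 342) (@Lb.r r21 (@Lb.r r2370 (@Lb.r r1687 (@Lb.r r642 (@Lb.g g7 (@Lb.g g6 (@Lb.g g5 (@Lb.g g4 (@Lb.d (nat_lit 1) (nat_lit 1) (nat_lit 65) (@Lb.fp (nat_lit 9) t6597)))))))))))
noncomputable def l37498 : Lb := (@Lb.d (nat_lit 0) (nat_lit 260) (nat_lit 25) (@Lb.g g6 (@Lb.r r1427 (@Lb.r r2661 (@Lb.r r24 (@Lb.d (nat_lit 128) (nat_lit 5) (nat_lit 598) (@Lb.t (@Lb.fm (nat_lit 3) t2259))))))))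
noncomputable def l37499 : Lb := (@Lb.d (nat_lit 0) (nat_lit 613) (nat_lit 520) (@Lb.r r101 (@Lb.r r24 (@Lb.r r323 (@Lb.g g7 (@Lb.g g6 (@Lb.d (nat_lit 0) (nat_lit 0) (nat_lit 64) (@Lb.fm (nat_lit 3) t1061))))))))
noncomputable def l37500 : Lb := (@Lb.d (nat_lit 0) (nat_lit 292) (nat_lit 4) (@Lb.g g9 (@Lb.g g10 (@Lb.g g11 (@Lb.r r642 (@Lb.r r1441 (@Lb.r r663 (@Lb.r r24 (@Lb.d (nat_lit 130) (nat_lit 72) (nat_lit 609) (@Lb.t (@Lb.fm (nat_lit 9) t6598)))))))))))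
noncomputable def l37501 : Lb := (@Lb.r r322 (@Lb.d (nat_lit 6) (nat_lit 256) (nat_lit 512) (@Lb.g g4 (@Lb.g g7 (@Lb.r r2650 (@Lb.d (nat_lit 582) (nat_lit 33) (nat_lit 650) (@Lb.fm (nat_lit 3) t3589)))))))
noncomputable def l37502 : Lb := (@Lb.d (nat_lit 0) (nat_lit 256) (nat_lit 129) (@Lb.g g10 (@Lb.g g11 (@Lb.r r2690 (@Lb.r r387 (@Lb.d (nat_lit 0) (nat_lit 5) (nat_lit 400) (@Lb.fp (nat_lit 3) t45)))))))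
noncomputable def l37503 : Lb := (@Lb.d (nat_lit 4) (nat_lit 256) (nat_lit 66) (@Lb.g g8 (@Lb.g g9 (@Lb.g g10 (@Lb.g g11 (@Lb.r r2327 (@Lb.r r2666 (@Lb.r r2585 (@Lb.d (nat_lit 329) (nat_lit 160) (nat_lit 18) (@Lb.fp (nat_lit 9) t3706))))))))))
noncomputable def l37504 : Lb := (@Lb.d (nat_lit 2) (nat_lit 514) (nat_lit 2) (@Lb.g g8 (@Lb.g g9 (@Lb.g g10 (@Lb.r r1371 (@Lb.r r386 (@Lb.r r97 (@Lb.r r24 (@Lb.d (nat_lit 154) (nat_lit 170) (nat_lit 617) (@Lb.t (@Lb.fp (nat_lit 9) t432)))))))))))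
noncomputable def l37505 : Lb := (@Lb.r r21 (@Lb.r r70 (@Lb.d (nat_lit 657) (nat_lit 544) (nat_lit 64) (@Lb.g g4 (@Lb.g g11 (@Lb.r r345 (@Lb.r r1315 (@Lb.r r2182 (@Lb.d (nat_lit 4) (nat_lit 170) (nat_lit 417) (@Lb.fm (nat_lit 3) t597))))))))))
noncomputable def l37506 : Lb := (@Lb.d (nat_lit 8) (nat_lit 256) (nat_lit 64) (@Lb.g g8 (@Lb.g g10 (@Lb.g g11 (@Lb.r r1347 (@Lb.r r1378 (@Lb.r r149 (@Lb.r r168 (@Lb.d (nat_lit 610) (nat_lit 152) (nat_lit 584) (@Lb.t (@Lb.fp (nat_lit 9) t6599)))))))))))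
noncomputable def l37507 : Lb := (@Lb.d (nat_lit 2) (nat_lit 256) (nat_lit 130) (@Lb.g g8 (@Lb.g g9 (@Lb.g g10 (@Lb.g g11 (@Lb.r r2435 (@Lb.r r1686 (@Lb.r r1633 (@Lb.r r24 (@Lb.d (nat_lit 649) (nat_lit 153) (nat_lit 386) (@Lb.fm (nat_lit 9) t1741)))))))))))
noncomputable def l37508 : Lb := (@Lb.d (nat_lit 538) (nat_lit 600) (nat_lit 26) (@Lb.r r1129 (@Lb.r r1636 (@Lb.r r583 (@Lb.g g6 (@Lb.g g5 (@Lb.g g4 (@Lb.d (nat_lit 64) (nat_lit 18) (nat_lit 16) (@Lb.r r387 (@Lb.t (@Lb.fp (nat_lit 9) t1136)))))))))))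
noncomputable def l37509 : Lb := (@Lb.d (nat_lit 2) (nat_lit 258) (nat_lit 130) (@Lb.g g8 (@Lb.g g9 (@Lb.g g10 (@Lb.g g11 (@Lb.r r1443 (@Lb.r r297 (@Lb.r r2120 (@Lb.r r1126 (@Lb.d (nat_lit 282) (nat_lit 0) (nat_lit 329) (@Lb.fp (nat_lit 9) t4498)))))))))))
noncomputable def l37510 : Lb := (@Lb.d (nat_lit 18) (nat_lit 81) (nat_lit 608) (@Lb.r r1177 (@Lb.r r664 (@Lb.r r331 (@Lb.g g6 (@Lb.g g5 (@Lb.g g4 (@Lb.d (nat_lit 66) (nat_lit 4) (nat_lit 42) (@Lb.r r403 (@Lb.t (@Lb.fm (nat_lit 9) t1549)))))))))))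
noncomputable def l37511 : Lb := (@Lb.d (nat_lit 8) (nat_lit 9) (nat_lit 8) (@Lb.g g9 (@Lb.g g10 (@Lb.g g11 (@Lb.r r1555 (@Lb.r r1430 (@Lb.r r1624 (@Lb.r r2341 (@Lb.d (nat_lit 582) (nat_lit 153) (nat_lit 322) (@Lb.t (@Lb.fm (nat_lit 9) t1006)))))))))))
noncomputable def l37512 : Lb := (@Lb.r r82 (@Lb.d (nat_lit 0) (nat_lit 32) (nat_lit 64) (@Lb.g g9 (@Lb.g g11 (@Lb.r r1579 (@Lb.r r1434 (@Lb.r r1428 (@Lb.r r2729 (@Lb.d (nat_lit 408) (nat_lit 130) (nat_lit 154) (@Lb.fp (nat_lit 3) t6138))))))))))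
noncomputable def l37513 : Lb := (@Lb.d (nat_lit 0) (nat_lit 512) (nat_lit 66) (@Lb.g g10 (@Lb.g g11 (@Lb.r r2474 (@Lb.r r2692 (@Lb.r r2567 (@Lb.r r409 (@Lb.d (nat_lit 34) (nat_lit 149) (nat_lit 152) (@Lb.fm (nat_lit 3) t6600)))))))))
noncomputable def l37514 : Lb := (@Lb.d (nat_lit 592) (nat_lit 2) (nat_lit 68) (@Lb.r r2379 (@Lb.r r658 (@Lb.g g7 (@Lb.g g6 (@Lb.g g9 (@Lb.g g4 (@Lb.d (nat_lit 1) (nat_lit 153) (nat_lit 128) (@Lb.fp (nat_lit 9) t2957)))))))))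
noncomputable def l37515 : Lb := (@Lb.d (nat_lit 34) (nat_lit 512) (nat_lit 74) (@Lb.r r24 (@Lb.r r101 (@Lb.g g11 (@Lb.g g4 (@Lb.fp (nat_lit 3) t87))))))
noncomputable def l37516 : Lb := (@Lb.g g5 (@Lb.r r24 (@Lb.r r101 (@Lb.d (nat_lit 0) (nat_lit 514) (nat_lit 72) (@Lb.t (@Lb.fm (nat_lit 3) t87))))))
noncomputable def l37517 : Lb := (@Lb.d (nat_lit 0) (nat_lit 256) (nat_lit 72) (@Lb.g g11 (@Lb.r r24 (@Lb.d (nat_lit 400) (nat_lit 88) (nat_lit 530) (@Lb.t (@Lb.fm (nat_lit 3) t3766))))))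
noncomputable def l37518 : Lb := (@Lb.d (nat_lit 4) (nat_lit 36) (nat_lit 128) (@Lb.g g8 (@Lb.g g9 (@Lb.g g10 (@Lb.g g11 (@Lb.r r1706 (@Lb.r r387 (@Lb.r r2201 (@Lb.d (nat_lit 274) (nat_lit 22) (nat_lit 393) (@Lb.fm (nat_lit 9) t4149))))))))))
noncomputable def l37519 : Lb := (@Lb.d (nat_lit 4) (nat_lit 292) (nat_lit 5) (@Lb.g g8 (@Lb.g g9 (@Lb.g g10 (@Lb.g g11 (@Lb.r r683 (@Lb.r r1642 (@Lb.r r1561 (@Lb.d (nat_lit 576) (nat_lit 106) (nat_lit 401) (@Lb.fm (nat_lit 9) t4579))))))))))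
noncomputable def l37520 : Lb := (@Lb.r r21 (@Lb.d (nat_lit 2) (nat_lit 32) (nat_lit 162) (@Lb.g g8 (@Lb.g g6 (@Lb.g g11 (@Lb.r r149 (@Lb.r r360 (@Lb.r r1559 (@Lb.d (nat_lit 660) (nat_lit 98) (nat_lit 20) (@Lb.t (@Lb.fp (nat_lit 9) t296)))))))))))
noncomputable def l37521 : Lb := (@Lb.r r82 (@Lb.r r275 (@Lb.d (nat_lit 2) (nat_lit 642) (nat_lit 0) (@Lb.g g8 (@Lb.g g5 (@Lb.r r2651 (@Lb.r r386 (@Lb.r r24 (@Lb.d (nat_lit 261) (nat_lit 2) (nat_lit 2) (@Lb.fm (nat_lit 3) t538))))))))))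
noncomputable def l37522 : Lb := (@Lb.r r21 (@Lb.r r70 (@Lb.r r263 (@Lb.d (nat_lit 522) (nat_lit 256) (nat_lit 0) (@Lb.g g4 (@Lb.r r2631 (@Lb.r r402 (@Lb.r r25 (@Lb.d (nat_lit 517) (nat_lit 130) (nat_lit 2) (@Lb.t (@Lb.fm (nat_lit 3) t538)))))))))))
noncomputable def l37523 : Lb := (@Lb.d (nat_lit 0) (nat_lit 8) (nat_lit 130) (@Lb.g g10 (@Lb.g g11 (@Lb.r r387 (@Lb.r r24 (@Lb.r r101 (@Lb.d (nat_lit 514) (nat_lit 0) (nat_lit 84) (@Lb.fm (nat_lit 3) t232))))))))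
noncomputable def l37524 : Lb := (@Lb.r r275 (@Lb.d (nat_lit 9) (nat_lit 514) (nat_lit 2) (@Lb.g g8 (@Lb.g g9 (@Lb.g g10 (@Lb.r r1579 (@Lb.r r386 (@Lb.r r2657 (@Lb.r r24 (@Lb.d (nat_lit 266) (nat_lit 89) (nat_lit 425) (@Lb.t (@Lb.fm (nat_lit 9) t1388))))))))))))
noncomputable def l37525 : Lb := (@Lb.r r322 (@Lb.d (nat_lit 40) (nat_lit 545) (nat_lit 580) (@Lb.g g8 (@Lb.g g9 (@Lb.g g7 (@Lb.r r2466 (@Lb.r r2345 (@Lb.r r1384 (@Lb.d (nat_lit 149) (nat_lit 170) (nat_lit 261) (@Lb.t (@Lb.fm (nat_lit 9) t1159)))))))))))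
noncomputable def l37526 : Lb := (@Lb.r r82 (@Lb.r r275 (@Lb.d (nat_lit 9) (nat_lit 129) (nat_lit 0) (@Lb.g g8 (@Lb.g g5 (@Lb.r r2651 (@Lb.r r386 (@Lb.r r24 (@Lb.d (nat_lit 266) (nat_lit 0) (nat_lit 137) (@Lb.fm (nat_lit 3) t6601))))))))))
noncomputable def l37527 : Lb := (@Lb.d (nat_lit 134) (nat_lit 256) (nat_lit 130) (@Lb.g g8 (@Lb.g g9 (@Lb.g g10 (@Lb.g g11 (@Lb.r r1706 (@Lb.r r1411 (@Lb.r r548 (@Lb.r r2581 (@Lb.r r36 (@Lb.d (nat_lit 649) (nat_lit 81) (nat_lit 328) (@Lb.fm (nat_lit 9) t6602))))))))))))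
noncomputable def l37528 : Lb := (@Lb.r r82 (@Lb.r r275 (@Lb.d (nat_lit 2) (nat_lit 257) (nat_lit 0) (@Lb.g g8 (@Lb.g g5 (@Lb.r r2315 (@Lb.r r98 (@Lb.r r24 (@Lb.d (nat_lit 266) (nat_lit 2) (nat_lit 0) (@Lb.fm (nat_lit 3) t2500))))))))))
noncomputable def l37529 : Lb := (@Lb.d (nat_lit 2) (nat_lit 258) (nat_lit 73) (@Lb.g g8 (@Lb.g g9 (@Lb.g g10 (@Lb.g g11 (@Lb.r r2691 (@Lb.r r2474 (@Lb.r r1313 (@Lb.r r24 (@Lb.d (nat_lit 138) (nat_lit 80) (nat_lit 616) (@Lb.fp (nat_lit 9) t5457)))))))))))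
noncomputable def l37530 : Lb := (@Lb.d (nat_lit 160) (nat_lit 260) (nat_lit 130) (@Lb.g g9 (@Lb.g g6 (@Lb.g g11 (@Lb.r r264 (@Lb.r r391 (@Lb.r r97 (@Lb.d (nat_lit 98) (nat_lit 22) (nat_lit 132) (@Lb.t (@Lb.fp (nat_lit 9) t546))))))))))
noncomputable def l37531 : Lb := (@Lb.d (nat_lit 32) (nat_lit 517) (nat_lit 136) (@Lb.r r101 (@Lb.r r24 (@Lb.r r323 (@Lb.g g7 (@Lb.g g6 (@Lb.d (nat_lit 0) (nat_lit 4) (nat_lit 65) (@Lb.fm (nat_lit 3) t985))))))))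
noncomputable def l37532 : Lb := (@Lb.d (nat_lit 32) (nat_lit 256) (nat_lit 105) (@Lb.g g10 (@Lb.g g11 (@Lb.r r328 (@Lb.r r407 (@Lb.r r609 (@Lb.d (nat_lit 10) (nat_lit 1) (nat_lit 84) (@Lb.fm (nat_lit 3) t479))))))))
noncomputable def l37533 : Lb := (@Lb.d (nat_lit 10) (nat_lit 0) (nat_lit 128) (@Lb.g g8 (@Lb.g g11 (@Lb.r r2577 (@Lb.r r2587 (@Lb.r r358 (@Lb.r r2564 (@Lb.d (nat_lit 516) (nat_lit 66) (nat_lit 128) (@Lb.fp (nat_lit 3) t1639)))))))))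
noncomputable def l37534 : Lb := (@Lb.d (nat_lit 96) (nat_lit 256) (nat_lit 64) (@Lb.g g8 (@Lb.g g11 (@Lb.r r662 (@Lb.r r1699 (@Lb.r r293 (@Lb.r r2580 (@Lb.d (nat_lit 340) (nat_lit 162) (nat_lit 10) (@Lb.fp (nat_lit 3) t2708)))))))))
noncomputable def l37535 : Lb := (@Lb.d (nat_lit 544) (nat_lit 581) (nat_lit 33) (@Lb.r r2138 (@Lb.r r149 (@Lb.r r2148 (@Lb.r r2403 (@Lb.g g6 (@Lb.d (nat_lit 0) (nat_lit 4) (nat_lit 1) (@Lb.t (@Lb.fm (nat_lit 3) t2708)))))))))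
noncomputable def l37536 : Lb := (@Lb.d (nat_lit 0) (nat_lit 614) (nat_lit 673) (@Lb.r r1603 (@Lb.r r1442 (@Lb.r r1177 (@Lb.r r2132 (@Lb.g g7 (@Lb.g g6 (@Lb.d (nat_lit 80) (nat_lit 0) (nat_lit 65) (@Lb.fm (nat_lit 3) t143)))))))))
noncomputable def l37537 : Lb := (@Lb.r r20 (@Lb.r r275 (@Lb.d (nat_lit 16) (nat_lit 256) (nat_lit 2) (@Lb.g g9 (@Lb.g g10 (@Lb.r r676 (@Lb.r r343 (@Lb.r r674 (@Lb.d (nat_lit 0) (nat_lit 16) (nat_lit 149) (@Lb.fp (nat_lit 3) t390))))))))))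
noncomputable def l37538 : Lb := (@Lb.d (nat_lit 554) (nat_lit 68) (nat_lit 33) (@Lb.r r2138 (@Lb.r r149 (@Lb.r r2148 (@Lb.r r2403 (@Lb.g g6 (@Lb.d (nat_lit 0) (nat_lit 4) (nat_lit 1) (@Lb.t (@Lb.fm (nat_lit 3) t2708)))))))))
noncomputable def l37539 : Lb := (@Lb.d (nat_lit 2) (nat_lit 0) (nat_lit 0) (@Lb.g g8 (@Lb.r r2315 (@Lb.r r2122 (@Lb.r r2073 (@Lb.r r24 (@Lb.d (nat_lit 6) (nat_lit 65) (nat_lit 0) (@Lb.t (@Lb.fm (nat_lit 3) t710)))))))))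
noncomputable def l37540 : Lb := (@Lb.r r82 (@Lb.r r275 (@Lb.d (nat_lit 10) (nat_lit 0) (nat_lit 0) (@Lb.g g8 (@Lb.g g9 (@Lb.r r2315 (@Lb.r r2122 (@Lb.r r1064 (@Lb.r r2089 (@Lb.d (nat_lit 6) (nat_lit 0) (nat_lit 0) (@Lb.fm (nat_lit 3) t325)))))))))))
noncomputable def l37541 : Lb := (@Lb.r r20 (@Lb.d (nat_lit 0) (nat_lit 256) (nat_lit 66) (@Lb.g g9 (@Lb.g g10 (@Lb.g g7 (@Lb.r r386 (@Lb.r r97 (@Lb.d (nat_lit 0) (nat_lit 26) (nat_lit 265) (@Lb.t (@Lb.fp (nat_lit 9) t6020))))))))))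
noncomputable def l37542 : Lb := (@Lb.r r331 (@Lb.d (nat_lit 160) (nat_lit 258) (nat_lit 2) (@Lb.g g8 (@Lb.g g9 (@Lb.g g10 (@Lb.r r345 (@Lb.r r359 (@Lb.r r536 (@Lb.d (nat_lit 65) (nat_lit 42) (nat_lit 64) (@Lb.t (@Lb.fp (nat_lit 9) t381)))))))))))
noncomputable def l37543 : Lb := (@Lb.r r331 (@Lb.d (nat_lit 160) (nat_lit 2) (nat_lit 2) (@Lb.g g8 (@Lb.g g9 (@Lb.g g10 (@Lb.r r345 (@Lb.r r359 (@Lb.r r536 (@Lb.d (nat_lit 74) (nat_lit 170) (nat_lit 64) (@Lb.t (@Lb.fp (nat_lit 9) t1)))))))))))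
noncomputable def l37544 : Lb := (@Lb.d (nat_lit 80) (nat_lit 0) (nat_lit 138) (@Lb.r r2438 (@Lb.r r1624 (@Lb.r r539 (@Lb.r r2341 (@Lb.g g7 (@Lb.g g6 (@Lb.d (nat_lit 0) (nat_lit 0) (nat_lit 134) (@Lb.fm (nat_lit 3) t4337)))))))))
noncomputable def l37545 : Lb := (@Lb.d (nat_lit 0) (nat_lit 514) (nat_lit 73) (@Lb.g g9 (@Lb.g g10 (@Lb.g g11 (@Lb.r r2666 (@Lb.r r579 (@Lb.r r97 (@Lb.r r24 (@Lb.d (nat_lit 425) (nat_lit 9) (nat_lit 356) (@Lb.t (@Lb.fp (nat_lit 9) t61)))))))))))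
noncomputable def l37546 : Lb := (@Lb.d (nat_lit 0) (nat_lit 289) (nat_lit 130) (@Lb.g g9 (@Lb.g g10 (@Lb.g g11 (@Lb.r r387 (@Lb.r r1188 (@Lb.r r2438 (@Lb.r r1633 (@Lb.d (nat_lit 337) (nat_lit 25) (nat_lit 340) (@Lb.t (@Lb.fm (nat_lit 9) t2550)))))))))))
noncomputable def l37547 : Lb := (@Lb.d (nat_lit 133) (nat_lit 17) (nat_lit 658) (@Lb.r r539 (@Lb.r r2341 (@Lb.r r1620 (@Lb.g g7 (@Lb.g g10 (@Lb.d (nat_lit 64) (nat_lit 20) (nat_lit 146) (@Lb.fp (nat_lit 3) t6200))))))))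
noncomputable def l37548 : Lb := (@Lb.d (nat_lit 24) (nat_lit 514) (nat_lit 69) (@Lb.r r611 (@Lb.r r617 (@Lb.r r100 (@Lb.g g10 (@Lb.g g5 (@Lb.d (nat_lit 20) (nat_lit 8) (nat_lit 1) (@Lb.r r291 (@Lb.fp (nat_lit 3) t983)))))))))
noncomputable def l37549 : Lb := (@Lb.r r1105 (@Lb.d (nat_lit 544) (nat_lit 512) (nat_lit 2) (@Lb.g g4 (@Lb.g g10 (@Lb.r r643 (@Lb.r r2626 (@Lb.d (nat_lit 1) (nat_lit 0) (nat_lit 537) (@Lb.fm (nat_lit 3) t979))))))))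
noncomputable def l37550 : Lb := (@Lb.d (nat_lit 0) (nat_lit 258) (nat_lit 130) (@Lb.g g9 (@Lb.g g10 (@Lb.g g11 (@Lb.r r2411 (@Lb.r r386 (@Lb.r r97 (@Lb.r r24 (@Lb.d (nat_lit 536) (nat_lit 9) (nat_lit 68) (@Lb.t (@Lb.fp (nat_lit 9) t61)))))))))))
noncomputable def l37551 : Lb := (@Lb.r r331 (@Lb.d (nat_lit 129) (nat_lit 258) (nat_lit 0) (@Lb.g g8 (@Lb.g g9 (@Lb.g g10 (@Lb.r r1698 (@Lb.r r1415 (@Lb.r r1561 (@Lb.r r1540 (@Lb.d (nat_lit 553) (nat_lit 2) (nat_lit 274) (@Lb.t (@Lb.fp (nat_lit 9) t531))))))))))))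
noncomputable def l37552 : Lb := (@Lb.d (nat_lit 0) (nat_lit 0) (nat_lit 128) (@Lb.g g9 (@Lb.g g10 (@Lb.g g11 (@Lb.r r387 (@Lb.r r402 (@Lb.r r101 (@Lb.d (nat_lit 4) (nat_lit 2) (nat_lit 0) (@Lb.t (@Lb.fm (nat_lit 9) t1163))))))))))
noncomputable def l37553 : Lb := (@Lb.d (nat_lit 130) (nat_lit 36) (nat_lit 1) (@Lb.g g8 (@Lb.g g9 (@Lb.g g10 (@Lb.r r2474 (@Lb.r r583 (@Lb.r r408 (@Lb.r r2085 (@Lb.d (nat_lit 582) (nat_lit 22) (nat_lit 346) (@Lb.t (@Lb.fm (nat_lit 9) t1278)))))))))))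
noncomputable def l37554 : Lb := (@Lb.d (nat_lit 409) (nat_lit 338) (nat_lit 609) (@Lb.r r1096 (@Lb.r r619 (@Lb.r r2390 (@Lb.r r657 (@Lb.g g7 (@Lb.g g5 (@Lb.d (nat_lit 0) (nat_lit 1) (nat_lit 128) (@Lb.fm (nat_lit 3) t6080)))))))))
noncomputable def l37555 : Lb := (@Lb.d (nat_lit 394) (nat_lit 546) (nat_lit 22) (@Lb.r r680 (@Lb.r r2411 (@Lb.r r345 (@Lb.g g6 (@Lb.g g4 (@Lb.d (nat_lit 70) (nat_lit 0) (nat_lit 33) (@Lb.r r387 (@Lb.fp (nat_lit 3) t1916)))))))))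
noncomputable def l37556 : Lb := (@Lb.d (nat_lit 8) (nat_lit 2) (nat_lit 64) (@Lb.g g9 (@Lb.g g11 (@Lb.r r1563 (@Lb.r r2438 (@Lb.r r24 (@Lb.r r101 (@Lb.d (nat_lit 80) (nat_lit 74) (nat_lit 4) (@Lb.fm (nat_lit 3) t3251)))))))))
noncomputable def l37557 : Lb := (@Lb.d (nat_lit 0) (nat_lit 522) (nat_lit 72) (@Lb.g g9 (@Lb.g g10 (@Lb.g g11 (@Lb.r r1703 (@Lb.r r2148 (@Lb.r r1434 (@Lb.r r409 (@Lb.d (nat_lit 360) (nat_lit 21) (nat_lit 324) (@Lb.t (@Lb.fm (nat_lit 9) t1244)))))))))))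
noncomputable def l37558 : Lb := (@Lb.g g5 (@Lb.g g11 (@Lb.r r154 (@Lb.r r660 (@Lb.r r535 (@Lb.r r289 (@Lb.d (nat_lit 0) (nat_lit 280) (nat_lit 66) (@Lb.fm (nat_lit 3) t51))))))))
noncomputable def l37559 : Lb := (@Lb.d (nat_lit 2) (nat_lit 2) (nat_lit 130) (@Lb.g g8 (@Lb.g g9 (@Lb.g g10 (@Lb.g g11 (@Lb.r r427 (@Lb.r r417 (@Lb.r r98 (@Lb.r r24 (@Lb.d (nat_lit 617) (nat_lit 137) (nat_lit 356) (@Lb.fp (nat_lit 9) t5819)))))))))))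
noncomputable def l37560 : Lb := (@Lb.d (nat_lit 34) (nat_lit 10) (nat_lit 64) (@Lb.g g8 (@Lb.g g9 (@Lb.g g11 (@Lb.r r1427 (@Lb.r r582 (@Lb.r r1688 (@Lb.r r2597 (@Lb.d (nat_lit 129) (nat_lit 65) (nat_lit 329) (@Lb.t (@Lb.fm (nat_lit 9) t1406)))))))))))
noncomputable def l37561 : Lb := (@Lb.d (nat_lit 97) (nat_lit 2) (nat_lit 73) (@Lb.g g8 (@Lb.g g9 (@Lb.g g10 (@Lb.g g11 (@Lb.r r2691 (@Lb.r r2345 (@Lb.r r648 (@Lb.r r1690 (@Lb.r r1156 (@Lb.d (nat_lit 133) (nat_lit 40) (nat_lit 681) (@Lb.fp (nat_lit 9) t2528))))))))))))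
noncomputable def l37562 : Lb := (@Lb.d (nat_lit 329) (nat_lit 161) (nat_lit 261) (@Lb.r r1045 (@Lb.r r402 (@Lb.g g11 (@Lb.g g4 (@Lb.d (nat_lit 8) (nat_lit 0) (nat_lit 128) (@Lb.fm (nat_lit 3) t51)))))))
noncomputable def l37563 : Lb := (@Lb.d (nat_lit 65) (nat_lit 618) (nat_lit 137) (@Lb.r r97 (@Lb.r r386 (@Lb.r r343 (@Lb.g g7 (@Lb.g g6 (@Lb.g g5 (@Lb.g g4 (@Lb.d (nat_lit 1) (nat_lit 1) (nat_lit 65) (@Lb.fp (nat_lit 9) t841))))))))))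
noncomputable def l37564 : Lb := (@Lb.d (nat_lit 0) (nat_lit 516) (nat_lit 1) (@Lb.g g9 (@Lb.g g10 (@Lb.r r2599 (@Lb.r r533 (@Lb.r r1428 (@Lb.r r1446 (@Lb.d (nat_lit 610) (nat_lit 36) (nat_lit 394) (@Lb.fm (nat_lit 3) t149)))))))))
noncomputable def l37565 : Lb := (@Lb.d (nat_lit 144) (nat_lit 0) (nat_lit 130) (@Lb.g g6 (@Lb.g g11 (@Lb.r r264 (@Lb.r r279 (@Lb.r r609 (@Lb.d (nat_lit 16) (nat_lit 8) (nat_lit 16) (@Lb.fp (nat_lit 3) t334))))))))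
noncomputable def l37566 : Lb := (@Lb.d (nat_lit 42) (nat_lit 649) (nat_lit 390) (@Lb.r r97 (@Lb.r r342 (@Lb.r r395 (@Lb.r r264 (@Lb.g g7 (@Lb.g g6 (@Lb.g g5 (@Lb.d (nat_lit 80) (nat_lit 1) (nat_lit 65) (@Lb.t (@Lb.fp (nat_lit 9) t490)))))))))))
noncomputable def l37567 : Lb := (@Lb.d (nat_lit 70) (nat_lit 616) (nat_lit 68) (@Lb.r r97 (@Lb.r r386 (@Lb.r r343 (@Lb.g g7 (@Lb.g g6 (@Lb.g g5 (@Lb.g g4 (@Lb.d (nat_lit 1) (nat_lit 1) (nat_lit 65) (@Lb.fp (nat_lit 9) t841))))))))))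
noncomputable def l37568 : Lb := (@Lb.d (nat_lit 96) (nat_lit 292) (nat_lit 550) (@Lb.g g6 (@Lb.g g11 (@Lb.r r1045 (@Lb.r r8 (@Lb.d (nat_lit 354) (nat_lit 128) (nat_lit 528) (@Lb.fm (nat_lit 3) t1663)))))))
noncomputable def l37569 : Lb := (@Lb.d (nat_lit 144) (nat_lit 326) (nat_lit 73) (@Lb.r r345 (@Lb.r r427 (@Lb.r r406 (@Lb.g g7 (@Lb.g g5 (@Lb.d (nat_lit 0) (nat_lit 10) (nat_lit 128) (@Lb.fp (nat_lit 3) t2545))))))))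
noncomputable def l37570 : Lb := (@Lb.d (nat_lit 278) (nat_lit 417) (nat_lit 550) (@Lb.r r20 (@Lb.r r1129 (@Lb.r r386 (@Lb.g g11 (@Lb.g g6 (@Lb.g g5 (@Lb.g g4 (@Lb.d (nat_lit 1) (nat_lit 1) (nat_lit 129) (@Lb.fm (nat_lit 9) t394))))))))))
noncomputable def l37571 : Lb := (@Lb.r r326 (@Lb.r r664 (@Lb.r r411 (@Lb.r r533 (@Lb.r r36 (@Lb.d (nat_lit 0) (nat_lit 645) (nat_lit 257) (@Lb.fm (nat_lit 1) t242)))))))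
noncomputable def l37572 : Lb := (@Lb.r r21 (@Lb.d (nat_lit 2) (nat_lit 0) (nat_lit 137) (@Lb.g g8 (@Lb.g g10 (@Lb.g g11 (@Lb.r r1674 (@Lb.r r273 (@Lb.r r427 (@Lb.r r420 (@Lb.d (nat_lit 292) (nat_lit 164) (nat_lit 586) (@Lb.t (@Lb.fp (nat_lit 9) t445))))))))))))
noncomputable def l37573 : Lb := (@Lb.r r82 (@Lb.r r263 (@Lb.d (nat_lit 2) (nat_lit 2) (nat_lit 0) (@Lb.g g8 (@Lb.g g9 (@Lb.r r1561 (@Lb.r r1555 (@Lb.r r410 (@Lb.r r388 (@Lb.d (nat_lit 66) (nat_lit 128) (nat_lit 545) (@Lb.fm (nat_lit 3) t5213)))))))))))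
noncomputable def l37574 : Lb := (@Lb.d (nat_lit 322) (nat_lit 294) (nat_lit 129) (@Lb.r r289 (@Lb.r r535 (@Lb.r r328 (@Lb.r r2726 (@Lb.g g7 (@Lb.g g6 (@Lb.g g5 (@Lb.d (nat_lit 4) (nat_lit 6) (nat_lit 132) (@Lb.t (@Lb.fp (nat_lit 9) t3377)))))))))))
noncomputable def l37575 : Lb := (@Lb.d (nat_lit 133) (nat_lit 0) (nat_lit 130) (@Lb.g g8 (@Lb.g g9 (@Lb.g g10 (@Lb.g g11 (@Lb.r r683 (@Lb.r r386 (@Lb.r r2657 (@Lb.r r516 (@Lb.d (nat_lit 585) (nat_lit 170) (nat_lit 165) (@Lb.fm (nat_lit 9) t6603)))))))))))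
noncomputable def l37576 : Lb := (@Lb.d (nat_lit 105) (nat_lit 600) (nat_lit 262) (@Lb.r r597 (@Lb.r r296 (@Lb.r r418 (@Lb.g g11 (@Lb.g g5 (@Lb.d (nat_lit 0) (nat_lit 18) (nat_lit 328) (@Lb.r r578 (@Lb.fp (nat_lit 3) t6604)))))))))
noncomputable def l37577 : Lb := (@Lb.d (nat_lit 129) (nat_lit 2) (nat_lit 66) (@Lb.g g8 (@Lb.g g9 (@Lb.g g10 (@Lb.g g11 (@Lb.r r548 (@Lb.r r1575 (@Lb.r r2705 (@Lb.r r154 (@Lb.r r132 (@Lb.d (nat_lit 649) (nat_lit 64) (nat_lit 1) (@Lb.fp (nat_lit 9) t6605))))))))))))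
noncomputable def l37578 : Lb := (@Lb.d (nat_lit 0) (nat_lit 256) (nat_lit 128) (@Lb.g g11 (@Lb.r r353 (@Lb.r r663 (@Lb.r r356 (@Lb.r r154 (@Lb.d (nat_lit 584) (nat_lit 2) (nat_lit 528) (@Lb.t (@Lb.fm (nat_lit 3) t6606)))))))))
noncomputable def l37579 : Lb := (@Lb.d (nat_lit 33) (nat_lit 257) (nat_lit 1) (@Lb.g g8 (@Lb.g g9 (@Lb.g g10 (@Lb.g g11 (@Lb.r r1700 (@Lb.r r423 (@Lb.r r401 (@Lb.r r402 (@Lb.d (nat_lit 0) (nat_lit 106) (nat_lit 585) (@Lb.fm (nat_lit 9) t5649)))))))))))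
noncomputable def l37580 : Lb := (@Lb.d (nat_lit 2) (nat_lit 0) (nat_lit 40) (@Lb.g g8 (@Lb.g g6 (@Lb.g g11 (@Lb.r r579 (@Lb.d (nat_lit 0) (nat_lit 0) (nat_lit 154) (@Lb.t (@Lb.fm (nat_lit 9) t2))))))))
noncomputable def l37581 : Lb := (@Lb.r r322 (@Lb.d (nat_lit 2) (nat_lit 645) (nat_lit 576) (@Lb.g g8 (@Lb.g g5 (@Lb.g g7 (@Lb.r r1426 (@Lb.r r24 (@Lb.d (nat_lit 10) (nat_lit 128) (nat_lit 4) (@Lb.t (@Lb.fm (nat_lit 9) t3110))))))))))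
noncomputable def l37582 : Lb := (@Lb.r r322 (@Lb.d (nat_lit 0) (nat_lit 133) (nat_lit 576) (@Lb.g g5 (@Lb.g g7 (@Lb.r r1426 (@Lb.r r24 (@Lb.d (nat_lit 10) (nat_lit 128) (nat_lit 4) (@Lb.fm (nat_lit 3) t3110))))))))
noncomputable def l37583 : Lb := (@Lb.d (nat_lit 658) (nat_lit 0) (nat_lit 534) (@Lb.r r386 (@Lb.r r1351 (@Lb.g g7 (@Lb.g g6 (@Lb.g g4 (@Lb.d (nat_lit 514) (nat_lit 0) (nat_lit 1) (@Lb.r r2073 (@Lb.t (@Lb.fm (nat_lit 9) t74))))))))))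
noncomputable def l37584 : Lb := (@Lb.d (nat_lit 4) (nat_lit 4) (nat_lit 0) (@Lb.g g8 (@Lb.g g9 (@Lb.g g10 (@Lb.r r675 (@Lb.r r2709 (@Lb.r r2404 (@Lb.r r1610 (@Lb.d (nat_lit 97) (nat_lit 10) (nat_lit 40) (@Lb.t (@Lb.fp (nat_lit 9) t3144)))))))))))
noncomputable def l37585 : Lb := (@Lb.d (nat_lit 154) (nat_lit 384) (nat_lit 534) (@Lb.r r37 (@Lb.r r2068 (@Lb.r r386 (@Lb.r r343 (@Lb.g g6 (@Lb.g g5 (@Lb.g g4 (@Lb.d (nat_lit 1) (nat_lit 1) (nat_lit 1) (@Lb.t (@Lb.fp (nat_lit 9) t68)))))))))))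
noncomputable def l37586 : Lb := (@Lb.d (nat_lit 162) (nat_lit 2) (nat_lit 0) (@Lb.g g8 (@Lb.g g9 (@Lb.r r391 (@Lb.r r1414 (@Lb.r r1620 (@Lb.r r25 (@Lb.d (nat_lit 522) (nat_lit 1) (nat_lit 153) (@Lb.fp (nat_lit 3) t430)))))))))
noncomputable def l37587 : Lb := (@Lb.r r2343 (@Lb.r r584 (@Lb.r r86 (@Lb.r r2201 (@Lb.r r132 (@Lb.d (nat_lit 282) (nat_lit 330) (nat_lit 101) (@Lb.fm (nat_lit 1) t450)))))))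
noncomputable def l37588 : Lb := (@Lb.d (nat_lit 650) (nat_lit 518) (nat_lit 70) (@Lb.r r2587 (@Lb.r r1365 (@Lb.r r2600 (@Lb.r r2722 (@Lb.g g7 (@Lb.g g6 (@Lb.g g5 (@Lb.d (nat_lit 0) (nat_lit 1) (nat_lit 8) (@Lb.t (@Lb.fm (nat_lit 9) t2136)))))))))))
noncomputable def l37589 : Lb := (@Lb.d (nat_lit 2) (nat_lit 512) (nat_lit 0) (@Lb.g g8 (@Lb.r r358 (@Lb.r r1381 (@Lb.r r2451 (@Lb.r r2564 (@Lb.d (nat_lit 130) (nat_lit 128) (nat_lit 576) (@Lb.t (@Lb.fm (nat_lit 3) t992)))))))))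
noncomputable def l37590 : Lb := (@Lb.r r21 (@Lb.d (nat_lit 645) (nat_lit 8) (nat_lit 66) (@Lb.g g8 (@Lb.g g10 (@Lb.g g11 (@Lb.r r1419 (@Lb.r r101 (@Lb.r r410 (@Lb.d (nat_lit 8) (nat_lit 149) (nat_lit 169) (@Lb.t (@Lb.fm (nat_lit 9) t2443)))))))))))
noncomputable def l37591 : Lb := (@Lb.d (nat_lit 646) (nat_lit 288) (nat_lit 0) (@Lb.g g4 (@Lb.g g9 (@Lb.r r275 (@Lb.r r2178 (@Lb.r r2593 (@Lb.d (nat_lit 1) (nat_lit 25) (nat_lit 2) (@Lb.fp (nat_lit 3) t1222))))))))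
noncomputable def l37592 : Lb := (@Lb.d (nat_lit 129) (nat_lit 16) (nat_lit 2) (@Lb.g g8 (@Lb.g g9 (@Lb.g g10 (@Lb.g g11 (@Lb.r r2647 (@Lb.r r1642 (@Lb.r r1561 (@Lb.r r1156 (@Lb.d (nat_lit 345) (nat_lit 33) (nat_lit 357) (@Lb.fm (nat_lit 9) t43)))))))))))
noncomputable def l37593 : Lb := (@Lb.d (nat_lit 9) (nat_lit 320) (nat_lit 640) (@Lb.r r68 (@Lb.r r289 (@Lb.r r106 (@Lb.r r584 (@Lb.g g11 (@Lb.t (@Lb.fp (nat_lit 3) t501))))))))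
noncomputable def l37594 : Lb := (@Lb.d (nat_lit 408) (nat_lit 585) (nat_lit 521) (@Lb.r r1113 (@Lb.r r1368 (@Lb.r r391 (@Lb.r r394 (@Lb.g g7 (@Lb.g g5 (@Lb.g g4 (@Lb.d (nat_lit 16) (nat_lit 5) (nat_lit 64) (@Lb.t (@Lb.fp (nat_lit 9) t6607)))))))))))
noncomputable def l37595 : Lb := (@Lb.d (nat_lit 129) (nat_lit 514) (nat_lit 66) (@Lb.g g8 (@Lb.g g9 (@Lb.g g10 (@Lb.g g11 (@Lb.r r1194 (@Lb.r r360 (@Lb.r r345 (@Lb.r r359 (@Lb.r r2564 (@Lb.d (nat_lit 537) (nat_lit 40) (nat_lit 616) (@Lb.fp (nat_lit 9) t5492))))))))))))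
noncomputable def l37596 : Lb := (@Lb.d (nat_lit 10) (nat_lit 337) (nat_lit 650) (@Lb.r r657 (@Lb.r r346 (@Lb.r r100 (@Lb.g g5 (@Lb.d (nat_lit 8) (nat_lit 1) (nat_lit 0) (@Lb.t (@Lb.fm (nat_lit 3) t3013))))))))
noncomputable def l37597 : Lb := (@Lb.r r21 (@Lb.r r70 (@Lb.d (nat_lit 2) (nat_lit 256) (nat_lit 0) (@Lb.g g8 (@Lb.r r1577 (@Lb.r r1707 (@Lb.r r610 (@Lb.r r1176 (@Lb.d (nat_lit 25) (nat_lit 74) (nat_lit 100) (@Lb.t (@Lb.fm (nat_lit 3) t2331)))))))))))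
noncomputable def l37598 : Lb := (@Lb.d (nat_lit 145) (nat_lit 676) (nat_lit 664) (@Lb.r r82 (@Lb.r r347 (@Lb.r r264 (@Lb.r r169 (@Lb.g g7 (@Lb.g g6 (@Lb.g g5 (@Lb.d (nat_lit 64) (nat_lit 8) (nat_lit 64) (@Lb.t (@Lb.fp (nat_lit 9) t847)))))))))))
noncomputable def l37599 : Lb := (@Lb.r r322 (@Lb.d (nat_lit 66) (nat_lit 42) (nat_lit 320) (@Lb.g g8 (@Lb.g g9 (@Lb.g g11 (@Lb.r r1426 (@Lb.r r664 (@Lb.r r2661 (@Lb.d (nat_lit 266) (nat_lit 34) (nat_lit 256) (@Lb.t (@Lb.fp (nat_lit 9) t342)))))))))))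
noncomputable def l37600 : Lb := (@Lb.d (nat_lit 128) (nat_lit 9) (nat_lit 0) (@Lb.g g8 (@Lb.g g9 (@Lb.r r263 (@Lb.r r146 (@Lb.r r97 (@Lb.r r520 (@Lb.d (nat_lit 66) (nat_lit 0) (nat_lit 68) (@Lb.fp (nat_lit 3) t45)))))))))
noncomputable def l37601 : Lb := (@Lb.r r148 (@Lb.r r323 (@Lb.d (nat_lit 16) (nat_lit 546) (nat_lit 0) (@Lb.g g9 (@Lb.g g10 (@Lb.r r2643 (@Lb.r r1313 (@Lb.r r1540 (@Lb.d (nat_lit 578) (nat_lit 169) (nat_lit 550) (@Lb.fm (nat_lit 3) t1857))))))))))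
noncomputable def l37602 : Lb := (@Lb.d (nat_lit 2) (nat_lit 9) (nat_lit 136) (@Lb.g g8 (@Lb.g g9 (@Lb.g g11 (@Lb.r r1106 (@Lb.r r2457 (@Lb.r r1319 (@Lb.d (nat_lit 360) (nat_lit 2) (nat_lit 681) (@Lb.t (@Lb.fm (nat_lit 9) t2238))))))))))
noncomputable def l37603 : Lb := (@Lb.d (nat_lit 0) (nat_lit 2) (nat_lit 2) (@Lb.g g9 (@Lb.g g10 (@Lb.r r1685 (@Lb.r r659 (@Lb.r r578 (@Lb.r r36 (@Lb.d (nat_lit 321) (nat_lit 74) (nat_lit 649) (@Lb.fp (nat_lit 3) t668)))))))))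
noncomputable def l37604 : Lb := (@Lb.d (nat_lit 10) (nat_lit 288) (nat_lit 0) (@Lb.g g8 (@Lb.g g9 (@Lb.r r292 (@Lb.r r539 (@Lb.r r2178 (@Lb.r r2341 (@Lb.d (nat_lit 650) (nat_lit 105) (nat_lit 322) (@Lb.fp (nat_lit 3) t322)))))))))
noncomputable def l37605 : Lb := (@Lb.g g8 (@Lb.g g5 (@Lb.r r2331 (@Lb.r r24 (@Lb.d (nat_lit 266) (nat_lit 512) (nat_lit 64) (@Lb.fm (nat_lit 3) t1165))))))
noncomputable def l37606 : Lb := (@Lb.r r597 (@Lb.d (nat_lit 596) (nat_lit 512) (nat_lit 10) (@Lb.g g4 (@Lb.g g10 (@Lb.g g11 (@Lb.r r677 (@Lb.r r614 (@Lb.r r2411 (@Lb.d (nat_lit 517) (nat_lit 38) (nat_lit 409) (@Lb.t (@Lb.fm (nat_lit 9) t6608)))))))))))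
noncomputable def l37607 : Lb := (@Lb.d (nat_lit 0) (nat_lit 265) (nat_lit 65) (@Lb.g g8 (@Lb.g g9 (@Lb.g g10 (@Lb.g g7 (@Lb.r r2466 (@Lb.r r2457 (@Lb.r r24 (@Lb.d (nat_lit 352) (nat_lit 0) (nat_lit 66) (@Lb.fm (nat_lit 9) t6609))))))))))
noncomputable def l37608 : Lb := (@Lb.g g8 (@Lb.d (nat_lit 10) (nat_lit 521) (nat_lit 66) (@Lb.t (@Lb.fp (nat_lit 3) t21))))
noncomputable def l37609 : Lb := (@Lb.d (nat_lit 0) (nat_lit 265) (nat_lit 65) (@Lb.g g8 (@Lb.g g9 (@Lb.g g10 (@Lb.g g7 (@Lb.r r386 (@Lb.r r97 (@Lb.r r24 (@Lb.d (nat_lit 330) (nat_lit 9) (nat_lit 521) (@Lb.fp (nat_lit 9) t80))))))))))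
noncomputable def l37610 : Lb := (@Lb.d (nat_lit 0) (nat_lit 32) (nat_lit 130) (@Lb.g g8 (@Lb.g g9 (@Lb.g g10 (@Lb.g g11 (@Lb.r r675 (@Lb.r r1378 (@Lb.r r537 (@Lb.r r24 (@Lb.d (nat_lit 296) (nat_lit 2) (nat_lit 165) (@Lb.fp (nat_lit 9) t6610)))))))))))
noncomputable def l37611 : Lb := (@Lb.d (nat_lit 2) (nat_lit 289) (nat_lit 130) (@Lb.g g8 (@Lb.g g9 (@Lb.g g10 (@Lb.g g11 (@Lb.r r2722 (@Lb.r r427 (@Lb.r r2088 (@Lb.r r2201 (@Lb.d (nat_lit 328) (nat_lit 144) (nat_lit 648) (@Lb.fp (nat_lit 9) t6611)))))))))))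
noncomputable def l37612 : Lb := (@Lb.r r283 (@Lb.d (nat_lit 146) (nat_lit 266) (nat_lit 1) (@Lb.g g8 (@Lb.g g9 (@Lb.g g10 (@Lb.r r98 (@Lb.r r1385 (@Lb.r r1559 (@Lb.r r420 (@Lb.d (nat_lit 96) (nat_lit 36) (nat_lit 10) (@Lb.t (@Lb.fm (nat_lit 9) t3891))))))))))))
noncomputable def l37613 : Lb := (@Lb.d (nat_lit 405) (nat_lit 266) (nat_lit 613) (@Lb.r r2453 (@Lb.r r1366 (@Lb.r r1160 (@Lb.r r2343 (@Lb.g g6 (@Lb.g g5 (@Lb.d (nat_lit 4) (nat_lit 18) (nat_lit 2) (@Lb.fp (nat_lit 3) t3129)))))))))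
noncomputable def l37614 : Lb := (@Lb.d (nat_lit 9) (nat_lit 544) (nat_lit 145) (@Lb.g g8 (@Lb.g g9 (@Lb.g g10 (@Lb.g g11 (@Lb.r r1700 (@Lb.r r1575 (@Lb.r r2661 (@Lb.d (nat_lit 166) (nat_lit 148) (nat_lit 342) (@Lb.fp (nat_lit 9) t3240))))))))))
noncomputable def l37615 : Lb := (@Lb.d (nat_lit 89) (nat_lit 418) (nat_lit 326) (@Lb.r r24 (@Lb.r r1178 (@Lb.r r1365 (@Lb.r r1699 (@Lb.g g7 (@Lb.g g6 (@Lb.g g5 (@Lb.d (nat_lit 0) (nat_lit 25) (nat_lit 65) (@Lb.t (@Lb.fm (nat_lit 9) t6612)))))))))))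
noncomputable def l37616 : Lb := (@Lb.d (nat_lit 1) (nat_lit 512) (nat_lit 130) (@Lb.g g8 (@Lb.g g9 (@Lb.g g10 (@Lb.g g11 (@Lb.r r675 (@Lb.r r164 (@Lb.r r2118 (@Lb.r r545 (@Lb.r r1156 (@Lb.d (nat_lit 9) (nat_lit 166) (nat_lit 425) (@Lb.fp (nat_lit 9) t944))))))))))))
noncomputable def l37617 : Lb := (@Lb.d (nat_lit 64) (nat_lit 64) (nat_lit 645) (@Lb.r r597 (@Lb.r r1642 (@Lb.r r1352 (@Lb.r r2695 (@Lb.g g7 (@Lb.g g6 (@Lb.g g5 (@Lb.d (nat_lit 16) (nat_lit 0) (nat_lit 134) (@Lb.t (@Lb.fp (nat_lit 9) t221)))))))))))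
noncomputable def l37618 : Lb := (@Lb.r r323 (@Lb.d (nat_lit 130) (nat_lit 2) (nat_lit 17) (@Lb.g g8 (@Lb.g g9 (@Lb.g g6 (@Lb.r r1385 (@Lb.r r2583 (@Lb.r r2468 (@Lb.d (nat_lit 616) (nat_lit 102) (nat_lit 581) (@Lb.t (@Lb.fp (nat_lit 9) t791)))))))))))
noncomputable def l37619 : Lb := (@Lb.r r323 (@Lb.d (nat_lit 137) (nat_lit 257) (nat_lit 34) (@Lb.g g8 (@Lb.g g9 (@Lb.g g10 (@Lb.r r2647 (@Lb.r r145 (@Lb.r r360 (@Lb.d (nat_lit 164) (nat_lit 37) (nat_lit 166) (@Lb.t (@Lb.fm (nat_lit 9) t791)))))))))))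
noncomputable def l37620 : Lb := (@Lb.d (nat_lit 4) (nat_lit 137) (nat_lit 16) (@Lb.r r260 (@Lb.r r2459 (@Lb.r r613 (@Lb.r r88 (@Lb.g g7 (@Lb.g g10 (@Lb.g g5 (@Lb.g g4 (@Lb.d (nat_lit 2) (nat_lit 0) (nat_lit 150) (@Lb.fm (nat_lit 9) t6613)))))))))))
noncomputable def l37621 : Lb := (@Lb.d (nat_lit 609) (nat_lit 41) (nat_lit 680) (@Lb.r r1434 (@Lb.r r2133 (@Lb.r r1351 (@Lb.g g7 (@Lb.g g6 (@Lb.g g5 (@Lb.g g4 (@Lb.d (nat_lit 65) (nat_lit 1) (nat_lit 65) (@Lb.fm (nat_lit 9) t2284))))))))))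
noncomputable def l37622 : Lb := (@Lb.d (nat_lit 40) (nat_lit 601) (nat_lit 322) (@Lb.r r1049 (@Lb.r r2584 (@Lb.r r2379 (@Lb.g g7 (@Lb.g g6 (@Lb.g g5 (@Lb.g g4 (@Lb.d (nat_lit 6) (nat_lit 25) (nat_lit 97) (@Lb.fm (nat_lit 9) t4917))))))))))
noncomputable def l37623 : Lb := (@Lb.d (nat_lit 33) (nat_lit 258) (nat_lit 130) (@Lb.g g8 (@Lb.g g9 (@Lb.g g10 (@Lb.g g11 (@Lb.r r419 (@Lb.r r1702 (@Lb.r r344 (@Lb.r r2453 (@Lb.r r36 (@Lb.d (nat_lit 354) (nat_lit 169) (nat_lit 130) (@Lb.fp (nat_lit 9) t3464))))))))))))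
noncomputable def l37624 : Lb := (@Lb.r r21 (@Lb.d (nat_lit 32) (nat_lit 0) (nat_lit 130) (@Lb.g g8 (@Lb.g g10 (@Lb.g g11 (@Lb.r r2331 (@Lb.r r1366 (@Lb.r r97 (@Lb.r r2388 (@Lb.d (nat_lit 593) (nat_lit 64) (nat_lit 361) (@Lb.t (@Lb.fp (nat_lit 9) t539))))))))))))
noncomputable def l37625 : Lb := (@Lb.d (nat_lit 1) (nat_lit 512) (nat_lit 130) (@Lb.g g8 (@Lb.g g9 (@Lb.g g10 (@Lb.g g11 (@Lb.r r2435 (@Lb.r r1686 (@Lb.r r1633 (@Lb.r r24 (@Lb.d (nat_lit 649) (nat_lit 153) (nat_lit 386) (@Lb.fm (nat_lit 9) t1741)))))))))))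
noncomputable def l37626 : Lb := (@Lb.d (nat_lit 1) (nat_lit 0) (nat_lit 128) (@Lb.g g8 (@Lb.g g9 (@Lb.g g11 (@Lb.r r664 (@Lb.r r2341 (@Lb.r r539 (@Lb.r r2178 (@Lb.r r516 (@Lb.d (nat_lit 545) (nat_lit 137) (nat_lit 17) (@Lb.t (@Lb.fm (nat_lit 9) t2895))))))))))))
noncomputable def l37627 : Lb := (@Lb.d (nat_lit 6) (nat_lit 546) (nat_lit 73) (@Lb.g g8 (@Lb.g g9 (@Lb.g g10 (@Lb.g g11 (@Lb.r r683 (@Lb.r r362 (@Lb.r r1561 (@Lb.d (nat_lit 585) (nat_lit 137) (nat_lit 37) (@Lb.fm (nat_lit 9) t1047))))))))))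
noncomputable def l37628 : Lb := (@Lb.d (nat_lit 296) (nat_lit 148) (nat_lit 609) (@Lb.r r2073 (@Lb.r r1560 (@Lb.r r331 (@Lb.g g6 (@Lb.g g5 (@Lb.g g4 (@Lb.d (nat_lit 66) (nat_lit 1) (nat_lit 41) (@Lb.r r403 (@Lb.t (@Lb.fm (nat_lit 9) t2996)))))))))))
noncomputable def l37629 : Lb := (@Lb.d (nat_lit 9) (nat_lit 297) (nat_lit 66) (@Lb.r r82 (@Lb.r r421 (@Lb.g g11 (@Lb.g g6 (@Lb.g g8 (@Lb.d (nat_lit 10) (nat_lit 0) (nat_lit 129) (@Lb.t (@Lb.fm (nat_lit 9) t31)))))))))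
noncomputable def l37630 : Lb := (@Lb.d (nat_lit 132) (nat_lit 17) (nat_lit 133) (@Lb.r r344 (@Lb.r r391 (@Lb.r r362 (@Lb.g g9 (@Lb.g g4 (@Lb.d (nat_lit 10) (nat_lit 154) (nat_lit 0) (@Lb.r r74 (@Lb.fm (nat_lit 3) t225)))))))))
noncomputable def l37631 : Lb := (@Lb.d (nat_lit 512) (nat_lit 602) (nat_lit 72) (@Lb.r r1044 (@Lb.r r2073 (@Lb.r r404 (@Lb.r r386 (@Lb.g g11 (@Lb.g g6 (@Lb.g g5 (@Lb.g g4 (@Lb.d (nat_lit 1) (nat_lit 1) (nat_lit 1) (@Lb.fp (nat_lit 9) t3197)))))))))))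
noncomputable def l37632 : Lb := (@Lb.d (nat_lit 21) (nat_lit 17) (nat_lit 69) (@Lb.r r682 (@Lb.r r405 (@Lb.g g11 (@Lb.g g6 (@Lb.g g8 (@Lb.d (nat_lit 10) (nat_lit 4) (nat_lit 74) (@Lb.t (@Lb.fm (nat_lit 9) t31)))))))))
noncomputable def l37633 : Lb := (@Lb.d (nat_lit 2) (nat_lit 518) (nat_lit 69) (@Lb.r r289 (@Lb.r r279 (@Lb.r r612 (@Lb.g g7 (@Lb.g g10 (@Lb.g g5 (@Lb.d (nat_lit 20) (nat_lit 8) (nat_lit 65) (@Lb.t (@Lb.fp (nat_lit 9) t983))))))))))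
noncomputable def l37634 : Lb := (@Lb.d (nat_lit 513) (nat_lit 346) (nat_lit 72) (@Lb.r r1044 (@Lb.r r2073 (@Lb.r r404 (@Lb.r r386 (@Lb.g g11 (@Lb.g g6 (@Lb.g g5 (@Lb.g g4 (@Lb.d (nat_lit 1) (nat_lit 1) (nat_lit 1) (@Lb.fp (nat_lit 9) t3197)))))))))))
noncomputable def l37635 : Lb := (@Lb.d (nat_lit 2) (nat_lit 0) (nat_lit 1) (@Lb.g g8 (@Lb.g g9 (@Lb.g g10 (@Lb.g g11 (@Lb.r r2690 (@Lb.r r387 (@Lb.d (nat_lit 0) (nat_lit 0) (nat_lit 402) (@Lb.fm (nat_lit 9) t2)))))))))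
noncomputable def l37636 : Lb := (@Lb.d (nat_lit 645) (nat_lit 0) (nat_lit 130) (@Lb.g g4 (@Lb.g g9 (@Lb.g g10 (@Lb.g g11 (@Lb.r r657 (@Lb.r r1435 (@Lb.r r90 (@Lb.r r145 (@Lb.d (nat_lit 289) (nat_lit 2) (nat_lit 90) (@Lb.fm (nat_lit 9) t1347)))))))))))
noncomputable def l37637 : Lb := (@Lb.d (nat_lit 1) (nat_lit 514) (nat_lit 130) (@Lb.g g8 (@Lb.g g9 (@Lb.g g10 (@Lb.g g11 (@Lb.r r1443 (@Lb.r r297 (@Lb.r r104 (@Lb.r r70 (@Lb.r r132 (@Lb.d (nat_lit 545) (nat_lit 0) (nat_lit 361) (@Lb.fp (nat_lit 9) t88))))))))))))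
noncomputable def l37638 : Lb := (@Lb.d (nat_lit 1) (nat_lit 258) (nat_lit 2) (@Lb.g g8 (@Lb.g g9 (@Lb.g g10 (@Lb.g g11 (@Lb.r r427 (@Lb.r r145 (@Lb.r r356 (@Lb.r r154 (@Lb.r r132 (@Lb.d (nat_lit 8) (nat_lit 2) (nat_lit 154) (@Lb.fm (nat_lit 9) t221))))))))))))
noncomputable def l37639 : Lb := (@Lb.r r275 (@Lb.d (nat_lit 2) (nat_lit 0) (nat_lit 2) (@Lb.g g8 (@Lb.g g9 (@Lb.g g10 (@Lb.r r2666 (@Lb.r r2664 (@Lb.r r2585 (@Lb.r r2579 (@Lb.d (nat_lit 258) (nat_lit 64) (nat_lit 128) (@Lb.t (@Lb.fm (nat_lit 9) t6614))))))))))))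
noncomputable def l37640 : Lb := (@Lb.r r82 (@Lb.d (nat_lit 0) (nat_lit 289) (nat_lit 8) (@Lb.g g9 (@Lb.g g7 (@Lb.r r2642 (@Lb.r r1361 (@Lb.d (nat_lit 529) (nat_lit 162) (nat_lit 256) (@Lb.fp (nat_lit 3) t6615))))))))
noncomputable def l37641 : Lb := (@Lb.d (nat_lit 0) (nat_lit 260) (nat_lit 128) (@Lb.g g9 (@Lb.g g10 (@Lb.g g11 (@Lb.r r2435 (@Lb.r r1442 (@Lb.r r145 (@Lb.r r8 (@Lb.d (nat_lit 610) (nat_lit 6) (nat_lit 257) (@Lb.t (@Lb.fm (nat_lit 9) t5038)))))))))))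
noncomputable def l37642 : Lb := (@Lb.d (nat_lit 128) (nat_lit 256) (nat_lit 64) (@Lb.g g11 (@Lb.r r1622 (@Lb.r r20 (@Lb.r r409 (@Lb.r r2663 (@Lb.d (nat_lit 666) (nat_lit 21) (nat_lit 681) (@Lb.t (@Lb.fm (nat_lit 3) t242)))))))))
noncomputable def l37643 : Lb := (@Lb.d (nat_lit 0) (nat_lit 514) (nat_lit 130) (@Lb.g g9 (@Lb.g g10 (@Lb.g g11 (@Lb.r r1671 (@Lb.r r1634 (@Lb.r r97 (@Lb.d (nat_lit 608) (nat_lit 40) (nat_lit 130) (@Lb.t (@Lb.fm (nat_lit 9) t3756))))))))))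
noncomputable def l37644 : Lb := (@Lb.g g8 (@Lb.r r337 (@Lb.r r2723 (@Lb.r r1682 (@Lb.r r2129 (@Lb.r r2564 (@Lb.d (nat_lit 0) (nat_lit 384) (nat_lit 256) (@Lb.t (@Lb.fp (nat_lit 3) t242)))))))))
noncomputable def l37645 : Lb := (@Lb.d (nat_lit 0) (nat_lit 258) (nat_lit 130) (@Lb.g g9 (@Lb.g g10 (@Lb.g g11 (@Lb.r r1671 (@Lb.r r1634 (@Lb.r r97 (@Lb.d (nat_lit 609) (nat_lit 40) (nat_lit 130) (@Lb.t (@Lb.fm (nat_lit 9) t3756))))))))))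
noncomputable def l37646 : Lb := (@Lb.r r2145 (@Lb.r r402 (@Lb.r r579 (@Lb.r r2564 (@Lb.d (nat_lit 0) (nat_lit 256) (nat_lit 138) (@Lb.fm (nat_lit 1) t242))))))
noncomputable def l37647 : Lb := (@Lb.g g7 (@Lb.r r2145 (@Lb.r r402 (@Lb.r r579 (@Lb.r r2564 (@Lb.t (@Lb.fp (nat_lit 3) t242)))))))
noncomputable def l37648 : Lb := (@Lb.g g8 (@Lb.r r337 (@Lb.r r2723 (@Lb.r r1682 (@Lb.r r2129 (@Lb.r r2564 (@Lb.d (nat_lit 0) (nat_lit 640) (nat_lit 394) (@Lb.t (@Lb.fp (nat_lit 3) t242)))))))))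
noncomputable def l37649 : Lb := (@Lb.r r355 (@Lb.d (nat_lit 4) (nat_lit 256) (nat_lit 22) (@Lb.g g8 (@Lb.g g9 (@Lb.g g10 (@Lb.r r1579 (@Lb.r r609 (@Lb.r r24 (@Lb.d (nat_lit 105) (nat_lit 25) (nat_lit 296) (@Lb.t (@Lb.fp (nat_lit 9) t694)))))))))))
noncomputable def l37650 : Lb := (@Lb.d (nat_lit 0) (nat_lit 512) (nat_lit 130) (@Lb.g g8 (@Lb.g g10 (@Lb.g g11 (@Lb.r r1381 (@Lb.r r2587 (@Lb.r r386 (@Lb.r r152 (@Lb.d (nat_lit 282) (nat_lit 2) (nat_lit 138) (@Lb.t (@Lb.fm (nat_lit 9) t222)))))))))))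
noncomputable def l37651 : Lb := (@Lb.d (nat_lit 0) (nat_lit 1) (nat_lit 73) (@Lb.g g8 (@Lb.g g9 (@Lb.g g10 (@Lb.g g11 (@Lb.r r618 (@Lb.r r105 (@Lb.r r612 (@Lb.r r1287 (@Lb.r r2564 (@Lb.d (nat_lit 4) (nat_lit 17) (nat_lit 640) (@Lb.fm (nat_lit 9) t71))))))))))))
noncomputable def l37652 : Lb := (@Lb.d (nat_lit 10) (nat_lit 512) (nat_lit 64) (@Lb.g g8 (@Lb.g g11 (@Lb.r r677 (@Lb.r r2726 (@Lb.r r1703 (@Lb.r r1112 (@Lb.d (nat_lit 681) (nat_lit 4) (nat_lit 402) (@Lb.fm (nat_lit 3) t1639)))))))))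
noncomputable def l37653 : Lb := (@Lb.d (nat_lit 0) (nat_lit 292) (nat_lit 277) (@Lb.r r1681 (@Lb.r r411 (@Lb.r r344 (@Lb.g g6 (@Lb.g g5 (@Lb.d (nat_lit 4) (nat_lit 0) (nat_lit 34) (@Lb.r r291 (@Lb.fp (nat_lit 3) t1038)))))))))
noncomputable def l37654 : Lb := (@Lb.d (nat_lit 2) (nat_lit 2) (nat_lit 130) (@Lb.g g8 (@Lb.g g9 (@Lb.g g10 (@Lb.g g11 (@Lb.r r2722 (@Lb.r r1432 (@Lb.r r2725 (@Lb.r r2599 (@Lb.d (nat_lit 5) (nat_lit 152) (nat_lit 649) (@Lb.fp (nat_lit 9) t259)))))))))))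
noncomputable def l37655 : Lb := (@Lb.d (nat_lit 170) (nat_lit 512) (nat_lit 64) (@Lb.g g8 (@Lb.g g11 (@Lb.r r165 (@Lb.r r2214 (@Lb.r r2644 (@Lb.r r519 (@Lb.d (nat_lit 138) (nat_lit 86) (nat_lit 38) (@Lb.fp (nat_lit 3) t2241)))))))))
noncomputable def l37656 : Lb := (@Lb.r r21 (@Lb.d (nat_lit 644) (nat_lit 0) (nat_lit 130) (@Lb.g g4 (@Lb.g g10 (@Lb.g g11 (@Lb.r r677 (@Lb.r r2339 (@Lb.r r578 (@Lb.d (nat_lit 1) (nat_lit 32) (nat_lit 658) (@Lb.t (@Lb.fm (nat_lit 9) t1754)))))))))))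
noncomputable def l37657 : Lb := (@Lb.d (nat_lit 32) (nat_lit 512) (nat_lit 73) (@Lb.g g10 (@Lb.g g11 (@Lb.r r2451 (@Lb.r r1557 (@Lb.r r72 (@Lb.r r2470 (@Lb.d (nat_lit 613) (nat_lit 169) (nat_lit 666) (@Lb.fm (nat_lit 3) t660)))))))))
noncomputable def l37658 : Lb := (@Lb.r r21 (@Lb.r r323 (@Lb.d (nat_lit 33) (nat_lit 0) (nat_lit 2) (@Lb.g g8 (@Lb.g g10 (@Lb.r r2634 (@Lb.r r1619 (@Lb.r r2337 (@Lb.d (nat_lit 74) (nat_lit 74) (nat_lit 514) (@Lb.fm (nat_lit 3) t6616))))))))))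
noncomputable def l37659 : Lb := (@Lb.d (nat_lit 2) (nat_lit 134) (nat_lit 641) (@Lb.r r24 (@Lb.r r82 (@Lb.r r417 (@Lb.g g11 (@Lb.g g6 (@Lb.g g5 (@Lb.d (nat_lit 0) (nat_lit 1) (nat_lit 129) (@Lb.t (@Lb.fm (nat_lit 9) t296))))))))))
noncomputable def l37660 : Lb := (@Lb.d (nat_lit 8) (nat_lit 546) (nat_lit 0) (@Lb.g g9 (@Lb.r r536 (@Lb.r r2715 (@Lb.r r2178 (@Lb.r r2469 (@Lb.d (nat_lit 74) (nat_lit 102) (nat_lit 554) (@Lb.t (@Lb.fp (nat_lit 3) t6157)))))))))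
noncomputable def l37661 : Lb := (@Lb.d (nat_lit 8) (nat_lit 34) (nat_lit 0) (@Lb.g g9 (@Lb.r r536 (@Lb.r r2715 (@Lb.r r2178 (@Lb.r r2469 (@Lb.d (nat_lit 74) (nat_lit 97) (nat_lit 553) (@Lb.t (@Lb.fp (nat_lit 3) t6157)))))))))
noncomputable def l37662 : Lb := (@Lb.g g8 (@Lb.g g11 (@Lb.r r1291 (@Lb.d (nat_lit 402) (nat_lit 512) (nat_lit 426) (@Lb.fm (nat_lit 3) t441)))))
noncomputable def l37663 : Lb := (@Lb.d (nat_lit 1) (nat_lit 256) (nat_lit 136) (@Lb.g g8 (@Lb.g g10 (@Lb.g g11 (@Lb.r r1347 (@Lb.r r2706 (@Lb.r r105 (@Lb.r r36 (@Lb.d (nat_lit 265) (nat_lit 2) (nat_lit 389) (@Lb.t (@Lb.fm (nat_lit 9) t312)))))))))))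
noncomputable def l37664 : Lb := (@Lb.d (nat_lit 256) (nat_lit 256) (nat_lit 25) (@Lb.r r134 (@Lb.r r324 (@Lb.r r411 (@Lb.r r609 (@Lb.g g8 (@Lb.t (@Lb.fp (nat_lit 3) t334))))))))
noncomputable def l37665 : Lb := (@Lb.d (nat_lit 2) (nat_lit 2) (nat_lit 9) (@Lb.g g8 (@Lb.g g9 (@Lb.g g6 (@Lb.r r515 (@Lb.r r97 (@Lb.r r24 (@Lb.d (nat_lit 5) (nat_lit 137) (nat_lit 74) (@Lb.t (@Lb.fm (nat_lit 9) t154))))))))))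
noncomputable def l37666 : Lb := (@Lb.r r21 (@Lb.d (nat_lit 2) (nat_lit 256) (nat_lit 9) (@Lb.g g8 (@Lb.g g6 (@Lb.r r515 (@Lb.r r145 (@Lb.r r72 (@Lb.d (nat_lit 34) (nat_lit 5) (nat_lit 72) (@Lb.fp (nat_lit 3) t40)))))))))
noncomputable def l37667 : Lb := (@Lb.d (nat_lit 2) (nat_lit 258) (nat_lit 130) (@Lb.g g8 (@Lb.g g9 (@Lb.g g10 (@Lb.g g11 (@Lb.r r1706 (@Lb.r r676 (@Lb.r r551 (@Lb.r r1557 (@Lb.r r1060 (@Lb.d (nat_lit 644) (nat_lit 1) (nat_lit 266) (@Lb.fp (nat_lit 9) t1025))))))))))))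
noncomputable def l37668 : Lb := (@Lb.d (nat_lit 0) (nat_lit 0) (nat_lit 10) (@Lb.g g10 (@Lb.g g11 (@Lb.r r658 (@Lb.r r1683 (@Lb.r r101 (@Lb.r r24 (@Lb.d (nat_lit 642) (nat_lit 0) (nat_lit 64) (@Lb.fm (nat_lit 3) t145)))))))))
noncomputable def l37669 : Lb := (@Lb.d (nat_lit 32) (nat_lit 0) (nat_lit 2) (@Lb.g g9 (@Lb.g g10 (@Lb.g g7 (@Lb.r r72 (@Lb.r r598 (@Lb.r r289 (@Lb.d (nat_lit 153) (nat_lit 73) (nat_lit 322) (@Lb.t (@Lb.fp (nat_lit 9) t1190))))))))))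
noncomputable def l37670 : Lb := (@Lb.d (nat_lit 34) (nat_lit 2) (nat_lit 128) (@Lb.g g8 (@Lb.g g9 (@Lb.g g11 (@Lb.r r1387 (@Lb.r r361 (@Lb.r r150 (@Lb.r r612 (@Lb.d (nat_lit 152) (nat_lit 153) (nat_lit 586) (@Lb.t (@Lb.fm (nat_lit 9) t2367)))))))))))
noncomputable def l37671 : Lb := (@Lb.d (nat_lit 2) (nat_lit 258) (nat_lit 73) (@Lb.g g8 (@Lb.g g9 (@Lb.g g10 (@Lb.g g11 (@Lb.r r427 (@Lb.r r356 (@Lb.r r154 (@Lb.r r1109 (@Lb.r r2212 (@Lb.d (nat_lit 554) (nat_lit 9) (nat_lit 73) (@Lb.fm (nat_lit 9) t6617))))))))))))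
noncomputable def l37672 : Lb := (@Lb.r r21 (@Lb.d (nat_lit 33) (nat_lit 520) (nat_lit 2) (@Lb.g g8 (@Lb.g g10 (@Lb.r r97 (@Lb.r r36 (@Lb.d (nat_lit 6) (nat_lit 1) (nat_lit 2) (@Lb.fp (nat_lit 3) t30))))))))
noncomputable def l37673 : Lb := (@Lb.d (nat_lit 149) (nat_lit 266) (nat_lit 66) (@Lb.g g8 (@Lb.g g9 (@Lb.g g10 (@Lb.g g11 (@Lb.r r1643 (@Lb.r r1194 (@Lb.r r345 (@Lb.r r360 (@Lb.d (nat_lit 533) (nat_lit 97) (nat_lit 676) (@Lb.fm (nat_lit 9) t6366)))))))))))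
noncomputable def l37674 : Lb := (@Lb.d (nat_lit 0) (nat_lit 514) (nat_lit 66) (@Lb.g g8 (@Lb.g g9 (@Lb.g g10 (@Lb.g g7 (@Lb.r r417 (@Lb.r r98 (@Lb.r r24 (@Lb.d (nat_lit 8) (nat_lit 72) (nat_lit 322) (@Lb.fm (nat_lit 9) t6040))))))))))
noncomputable def l37675 : Lb := (@Lb.d (nat_lit 10) (nat_lit 288) (nat_lit 130) (@Lb.g g8 (@Lb.g g10 (@Lb.g g11 (@Lb.r r2337 (@Lb.r r2707 (@Lb.r r1642 (@Lb.r r1636 (@Lb.d (nat_lit 65) (nat_lit 137) (nat_lit 130) (@Lb.t (@Lb.fm (nat_lit 9) t3039)))))))))))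
noncomputable def l37676 : Lb := (@Lb.d (nat_lit 2) (nat_lit 9) (nat_lit 161) (@Lb.g g8 (@Lb.g g9 (@Lb.g g6 (@Lb.g g11 (@Lb.r r2347 (@Lb.r r2337 (@Lb.r r24 (@Lb.d (nat_lit 265) (nat_lit 97) (nat_lit 150) (@Lb.fm (nat_lit 9) t1108))))))))))
noncomputable def l37677 : Lb := (@Lb.d (nat_lit 2) (nat_lit 26) (nat_lit 1) (@Lb.g g8 (@Lb.g g9 (@Lb.g g10 (@Lb.r r515 (@Lb.r r420 (@Lb.r r102 (@Lb.r r132 (@Lb.d (nat_lit 69) (nat_lit 0) (nat_lit 133) (@Lb.t (@Lb.fp (nat_lit 9) t1871)))))))))))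
noncomputable def l37678 : Lb := (@Lb.d (nat_lit 2) (nat_lit 353) (nat_lit 9) (@Lb.g g8 (@Lb.g g5 (@Lb.g g10 (@Lb.r r1603 (@Lb.r r386 (@Lb.r r24 (@Lb.d (nat_lit 5) (nat_lit 9) (nat_lit 658) (@Lb.t (@Lb.fm (nat_lit 9) t40))))))))))
noncomputable def l37679 : Lb := (@Lb.d (nat_lit 134) (nat_lit 546) (nat_lit 66) (@Lb.g g8 (@Lb.g g9 (@Lb.g g10 (@Lb.g g11 (@Lb.r r586 (@Lb.r r584 (@Lb.r r299 (@Lb.r r1169 (@Lb.d (nat_lit 665) (nat_lit 66) (nat_lit 104) (@Lb.fm (nat_lit 9) t1613)))))))))))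
noncomputable def l37680 : Lb := (@Lb.d (nat_lit 2) (nat_lit 97) (nat_lit 0) (@Lb.g g8 (@Lb.g g5 (@Lb.r r322 (@Lb.r r1667 (@Lb.r r578 (@Lb.r r24 (@Lb.d (nat_lit 5) (nat_lit 9) (nat_lit 84) (@Lb.fp (nat_lit 3) t40)))))))))
noncomputable def l37681 : Lb := (@Lb.d (nat_lit 0) (nat_lit 661) (nat_lit 88) (@Lb.r r1699 (@Lb.r r594 (@Lb.g g7 (@Lb.g g9 (@Lb.g g4 (@Lb.d (nat_lit 0) (nat_lit 66) (nat_lit 4) (@Lb.r r98 (@Lb.t (@Lb.fp (nat_lit 9) t204))))))))))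
noncomputable def l37682 : Lb := (@Lb.r r275 (@Lb.d (nat_lit 1) (nat_lit 0) (nat_lit 2) (@Lb.g g8 (@Lb.g g9 (@Lb.g g10 (@Lb.r r2666 (@Lb.r r1603 (@Lb.r r1313 (@Lb.d (nat_lit 394) (nat_lit 66) (nat_lit 384) (@Lb.t (@Lb.fm (nat_lit 9) t785)))))))))))
noncomputable def l37683 : Lb := (@Lb.r r275 (@Lb.d (nat_lit 1) (nat_lit 0) (nat_lit 2) (@Lb.g g8 (@Lb.g g9 (@Lb.g g10 (@Lb.r r2585 (@Lb.r r1619 (@Lb.r r386 (@Lb.d (nat_lit 544) (nat_lit 0) (nat_lit 681) (@Lb.t (@Lb.fm (nat_lit 9) t546)))))))))))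
noncomputable def l37684 : Lb := (@Lb.r r275 (@Lb.d (nat_lit 0) (nat_lit 608) (nat_lit 2) (@Lb.g g9 (@Lb.g g10 (@Lb.r r1619 (@Lb.r r386 (@Lb.d (nat_lit 0) (nat_lit 2) (nat_lit 666) (@Lb.fm (nat_lit 3) t546))))))))
noncomputable def l37685 : Lb := (@Lb.r r275 (@Lb.d (nat_lit 0) (nat_lit 352) (nat_lit 2) (@Lb.g g4 (@Lb.g g9 (@Lb.g g10 (@Lb.r r1619 (@Lb.r r386 (@Lb.d (nat_lit 1) (nat_lit 2) (nat_lit 666) (@Lb.t (@Lb.fp (nat_lit 9) t546))))))))))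
noncomputable def l37686 : Lb := (@Lb.d (nat_lit 5) (nat_lit 256) (nat_lit 8) (@Lb.g g4 (@Lb.g g11 (@Lb.r r2434 (@Lb.r r2371 (@Lb.d (nat_lit 6) (nat_lit 9) (nat_lit 662) (@Lb.fm (nat_lit 3) t21)))))))
noncomputable def l37687 : Lb := (@Lb.r r275 (@Lb.d (nat_lit 1) (nat_lit 512) (nat_lit 2) (@Lb.g g8 (@Lb.g g9 (@Lb.g g10 (@Lb.r r2666 (@Lb.r r1603 (@Lb.r r1433 (@Lb.d (nat_lit 664) (nat_lit 90) (nat_lit 666) (@Lb.t (@Lb.fp (nat_lit 9) t6618)))))))))))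
noncomputable def l37688 : Lb := (@Lb.d (nat_lit 274) (nat_lit 0) (nat_lit 342) (@Lb.r r386 (@Lb.r r1619 (@Lb.r r1301 (@Lb.g g6 (@Lb.g g5 (@Lb.g g4 (@Lb.d (nat_lit 1) (nat_lit 0) (nat_lit 1) (@Lb.r r291 (@Lb.t (@Lb.fp (nat_lit 9) t6096)))))))))))
noncomputable def l37689 : Lb := (@Lb.r r86 (@Lb.r r279 (@Lb.d (nat_lit 2) (nat_lit 36) (nat_lit 0) (@Lb.g g8 (@Lb.g g9 (@Lb.r r663 (@Lb.r r2146 (@Lb.r r1412 (@Lb.d (nat_lit 64) (nat_lit 2) (nat_lit 256) (@Lb.fp (nat_lit 3) t6619))))))))))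
noncomputable def l37690 : Lb := (@Lb.r r2311 (@Lb.r r2454 (@Lb.r r101 (@Lb.d (nat_lit 645) (nat_lit 401) (nat_lit 64) (@Lb.fp (nat_lit 1) t6620)))))
noncomputable def l37691 : Lb := (@Lb.d (nat_lit 548) (nat_lit 425) (nat_lit 673) (@Lb.r r1699 (@Lb.r r1617 (@Lb.g g7 (@Lb.g g10 (@Lb.d (nat_lit 32) (nat_lit 24) (nat_lit 98) (@Lb.r r145 (@Lb.r r2564 (@Lb.fm (nat_lit 3) t6621)))))))))
noncomputable def l37692 : Lb := (@Lb.r r323 (@Lb.d (nat_lit 1) (nat_lit 258) (nat_lit 2) (@Lb.g g8 (@Lb.g g9 (@Lb.g g10 (@Lb.r r401 (@Lb.r r299 (@Lb.r r392 (@Lb.r r74 (@Lb.d (nat_lit 33) (nat_lit 129) (nat_lit 72) (@Lb.t (@Lb.fp (nat_lit 9) t5829))))))))))))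
noncomputable def l37693 : Lb := (@Lb.r r82 (@Lb.d (nat_lit 0) (nat_lit 514) (nat_lit 128) (@Lb.g g9 (@Lb.g g11 (@Lb.r r1699 (@Lb.r r610 (@Lb.r r2145 (@Lb.r r24 (@Lb.d (nat_lit 8) (nat_lit 82) (nat_lit 297) (@Lb.fp (nat_lit 3) t4375))))))))))
noncomputable def l37694 : Lb := (@Lb.r r264 (@Lb.r r146 (@Lb.r r361 (@Lb.g g11 (@Lb.g g4 (@Lb.d (nat_lit 9) (nat_lit 272) (nat_lit 128) (@Lb.r r578 (@Lb.r r529 (@Lb.fm (nat_lit 3) t3670)))))))))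
noncomputable def l37695 : Lb := (@Lb.d (nat_lit 9) (nat_lit 513) (nat_lit 130) (@Lb.g g8 (@Lb.g g9 (@Lb.g g10 (@Lb.g g11 (@Lb.r r427 (@Lb.r r409 (@Lb.r r1106 (@Lb.r r145 (@Lb.d (nat_lit 400) (nat_lit 73) (nat_lit 393) (@Lb.fp (nat_lit 9) t386)))))))))))
noncomputable def l37696 : Lb := (@Lb.d (nat_lit 32) (nat_lit 1) (nat_lit 130) (@Lb.g g9 (@Lb.g g10 (@Lb.g g11 (@Lb.r r1411 (@Lb.r r40 (@Lb.r r1177 (@Lb.r r1426 (@Lb.d (nat_lit 145) (nat_lit 85) (nat_lit 18) (@Lb.t (@Lb.fm (nat_lit 9) t386)))))))))))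
noncomputable def l37697 : Lb := (@Lb.r r21 (@Lb.r r263 (@Lb.d (nat_lit 265) (nat_lit 256) (nat_lit 2) (@Lb.g g4 (@Lb.g g10 (@Lb.r r267 (@Lb.r r2137 (@Lb.r r98 (@Lb.d (nat_lit 280) (nat_lit 73) (nat_lit 16) (@Lb.fp (nat_lit 3) t3234))))))))))
noncomputable def l37698 : Lb := (@Lb.d (nat_lit 336) (nat_lit 522) (nat_lit 645) (@Lb.r r24 (@Lb.r r2587 (@Lb.r r1365 (@Lb.r r2466 (@Lb.g g7 (@Lb.g g6 (@Lb.g g5 (@Lb.d (nat_lit 0) (nat_lit 1) (nat_lit 10) (@Lb.t (@Lb.fm (nat_lit 9) t1525)))))))))))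
noncomputable def l37699 : Lb := (@Lb.r r323 (@Lb.d (nat_lit 33) (nat_lit 514) (nat_lit 5) (@Lb.g g8 (@Lb.g g9 (@Lb.g g6 (@Lb.r r1643 (@Lb.r r1561 (@Lb.r r1540 (@Lb.d (nat_lit 393) (nat_lit 66) (nat_lit 584) (@Lb.t (@Lb.fm (nat_lit 9) t5505)))))))))))
noncomputable def l37700 : Lb := (@Lb.d (nat_lit 401) (nat_lit 258) (nat_lit 356) (@Lb.r r168 (@Lb.r r1434 (@Lb.r r2133 (@Lb.r r2631 (@Lb.g g6 (@Lb.g g5 (@Lb.g g4 (@Lb.d (nat_lit 65) (nat_lit 8) (nat_lit 0) (@Lb.t (@Lb.fm (nat_lit 9) t6622)))))))))))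
noncomputable def l37701 : Lb := (@Lb.d (nat_lit 129) (nat_lit 514) (nat_lit 130) (@Lb.g g8 (@Lb.g g9 (@Lb.g g10 (@Lb.g g11 (@Lb.r r1666 (@Lb.r r1411 (@Lb.r r1129 (@Lb.r r2084 (@Lb.d (nat_lit 41) (nat_lit 66) (nat_lit 418) (@Lb.fp (nat_lit 9) t6623)))))))))))
noncomputable def l37702 : Lb := (@Lb.d (nat_lit 34) (nat_lit 164) (nat_lit 549) (@Lb.r r37 (@Lb.r r88 (@Lb.r r323 (@Lb.g g10 (@Lb.d (nat_lit 32) (nat_lit 4) (nat_lit 17) (@Lb.r r387 (@Lb.r r145 (@Lb.t (@Lb.fp (nat_lit 3) t5459))))))))))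
noncomputable def l37703 : Lb := (@Lb.d (nat_lit 0) (nat_lit 5) (nat_lit 64) (@Lb.g g9 (@Lb.g g10 (@Lb.g g7 (@Lb.r r1362 (@Lb.r r1113 (@Lb.r r24 (@Lb.d (nat_lit 642) (nat_lit 0) (nat_lit 297) (@Lb.t (@Lb.fm (nat_lit 9) t1073))))))))))
noncomputable def l37704 : Lb := (@Lb.r r275 (@Lb.d (nat_lit 0) (nat_lit 256) (nat_lit 2) (@Lb.g g8 (@Lb.g g9 (@Lb.g g10 (@Lb.r r2666 (@Lb.r r2635 (@Lb.r r600 (@Lb.r r293 (@Lb.d (nat_lit 69) (nat_lit 130) (nat_lit 512) (@Lb.t (@Lb.fp (nat_lit 9) t827))))))))))))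
noncomputable def l37705 : Lb := (@Lb.r r82 (@Lb.d (nat_lit 0) (nat_lit 281) (nat_lit 0) (@Lb.g g9 (@Lb.g g11 (@Lb.r r663 (@Lb.r r404 (@Lb.r r86 (@Lb.r r149 (@Lb.d (nat_lit 38) (nat_lit 10) (nat_lit 1) (@Lb.fp (nat_lit 3) t601))))))))))
noncomputable def l37706 : Lb := (@Lb.d (nat_lit 0) (nat_lit 32) (nat_lit 136) (@Lb.g g7 (@Lb.r r677 (@Lb.r r2726 (@Lb.r r1703 (@Lb.r r24 (@Lb.d (nat_lit 672) (nat_lit 0) (nat_lit 345) (@Lb.t (@Lb.fm (nat_lit 3) t1261)))))))))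
noncomputable def l37707 : Lb := (@Lb.r r82 (@Lb.r r275 (@Lb.d (nat_lit 0) (nat_lit 421) (nat_lit 0) (@Lb.g g5 (@Lb.r r1379 (@Lb.r r146 (@Lb.d (nat_lit 0) (nat_lit 8) (nat_lit 614) (@Lb.t (@Lb.fp (nat_lit 3) t2872)))))))))
noncomputable def l37708 : Lb := (@Lb.d (nat_lit 0) (nat_lit 289) (nat_lit 130) (@Lb.g g9 (@Lb.g g10 (@Lb.g g11 (@Lb.r r595 (@Lb.r r1702 (@Lb.r r1636 (@Lb.r r1557 (@Lb.d (nat_lit 385) (nat_lit 2) (nat_lit 256) (@Lb.t (@Lb.fm (nat_lit 9) t827)))))))))))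
noncomputable def l37709 : Lb := (@Lb.d (nat_lit 1) (nat_lit 2) (nat_lit 2) (@Lb.g g8 (@Lb.g g9 (@Lb.g g10 (@Lb.g g11 (@Lb.r r610 (@Lb.r r1607 (@Lb.r r2457 (@Lb.r r2436 (@Lb.d (nat_lit 666) (nat_lit 9) (nat_lit 425) (@Lb.fm (nat_lit 9) t993)))))))))))
noncomputable def l37710 : Lb := (@Lb.r r323 (@Lb.d (nat_lit 673) (nat_lit 258) (nat_lit 2) (@Lb.g g8 (@Lb.g g9 (@Lb.g g10 (@Lb.r r1386 (@Lb.r r387 (@Lb.r r25 (@Lb.d (nat_lit 8) (nat_lit 166) (nat_lit 616) (@Lb.t (@Lb.fm (nat_lit 9) t2752)))))))))))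
noncomputable def l37711 : Lb := (@Lb.r r402 (@Lb.d (nat_lit 0) (nat_lit 536) (nat_lit 9) (@Lb.fm (nat_lit 1) t44)))
noncomputable def l37712 : Lb := (@Lb.d (nat_lit 0) (nat_lit 402) (nat_lit 292) (@Lb.r r579 (@Lb.r r1362 (@Lb.g g7 (@Lb.g g6 (@Lb.g g5 (@Lb.d (nat_lit 0) (nat_lit 0) (nat_lit 134) (@Lb.t (@Lb.fm (nat_lit 9) t87)))))))))
noncomputable def l37713 : Lb := (@Lb.r r323 (@Lb.d (nat_lit 2) (nat_lit 258) (nat_lit 2) (@Lb.g g8 (@Lb.g g9 (@Lb.g g10 (@Lb.r r362 (@Lb.r r387 (@Lb.r r25 (@Lb.d (nat_lit 4) (nat_lit 32) (nat_lit 74) (@Lb.t (@Lb.fm (nat_lit 9) t51)))))))))))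
noncomputable def l37714 : Lb := (@Lb.d (nat_lit 2) (nat_lit 2) (nat_lit 66) (@Lb.g g8 (@Lb.g g9 (@Lb.g g10 (@Lb.g g11 (@Lb.r r148 (@Lb.r r102 (@Lb.r r357 (@Lb.r r667 (@Lb.r r644 (@Lb.d (nat_lit 9) (nat_lit 2) (nat_lit 10) (@Lb.fp (nat_lit 9) t2))))))))))))
noncomputable def l37715 : Lb := (@Lb.d (nat_lit 32) (nat_lit 0) (nat_lit 1) (@Lb.g g10 (@Lb.r r2579 (@Lb.r r88 (@Lb.r r582 (@Lb.r r289 (@Lb.d (nat_lit 404) (nat_lit 34) (nat_lit 74) (@Lb.t (@Lb.fm (nat_lit 3) t2367)))))))))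
noncomputable def l37716 : Lb := (@Lb.d (nat_lit 26) (nat_lit 274) (nat_lit 586) (@Lb.g g8 (@Lb.g g9 (@Lb.g g10 (@Lb.g g7 (@Lb.r r1442 (@Lb.r r2449 (@Lb.r r72 (@Lb.d (nat_lit 34) (nat_lit 25) (nat_lit 281) (@Lb.fm (nat_lit 9) t2713))))))))))
noncomputable def l37717 : Lb := (@Lb.r r21 (@Lb.d (nat_lit 2) (nat_lit 512) (nat_lit 9) (@Lb.g g8 (@Lb.g g10 (@Lb.g g7 (@Lb.r r386 (@Lb.r r97 (@Lb.r r72 (@Lb.d (nat_lit 34) (nat_lit 10) (nat_lit 8) (@Lb.t (@Lb.fm (nat_lit 9) t40)))))))))))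
noncomputable def l37718 : Lb := (@Lb.r r21 (@Lb.d (nat_lit 106) (nat_lit 528) (nat_lit 641) (@Lb.g g8 (@Lb.g g10 (@Lb.g g7 (@Lb.r r2581 (@Lb.r r1444 (@Lb.r r582 (@Lb.d (nat_lit 401) (nat_lit 150) (nat_lit 600) (@Lb.t (@Lb.fp (nat_lit 9) t2664)))))))))))
noncomputable def l37719 : Lb := (@Lb.r r82 (@Lb.d (nat_lit 0) (nat_lit 2) (nat_lit 64) (@Lb.g g9 (@Lb.g g7 (@Lb.r r386 (@Lb.r r1121 (@Lb.r r24 (@Lb.d (nat_lit 401) (nat_lit 21) (nat_lit 322) (@Lb.fm (nat_lit 3) t6624)))))))))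
noncomputable def l37720 : Lb := (@Lb.d (nat_lit 2) (nat_lit 258) (nat_lit 145) (@Lb.g g8 (@Lb.g g9 (@Lb.g g6 (@Lb.g g11 (@Lb.r r612 (@Lb.r r2311 (@Lb.r r97 (@Lb.r r1540 (@Lb.d (nat_lit 641) (nat_lit 105) (nat_lit 64) (@Lb.fp (nat_lit 9) t6625)))))))))))
noncomputable def l37721 : Lb := (@Lb.d (nat_lit 132) (nat_lit 512) (nat_lit 130) (@Lb.g g8 (@Lb.g g9 (@Lb.g g10 (@Lb.g g11 (@Lb.r r1698 (@Lb.r r1415 (@Lb.r r548 (@Lb.r r1173 (@Lb.r r36 (@Lb.d (nat_lit 297) (nat_lit 89) (nat_lit 409) (@Lb.fm (nat_lit 9) t5337))))))))))))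
noncomputable def l37722 : Lb := (@Lb.r r82 (@Lb.d (nat_lit 4) (nat_lit 584) (nat_lit 0) (@Lb.g g8 (@Lb.g g9 (@Lb.g g7 (@Lb.r r2454 (@Lb.r r1608 (@Lb.d (nat_lit 354) (nat_lit 4) (nat_lit 152) (@Lb.t (@Lb.fp (nat_lit 9) t6626))))))))))
noncomputable def l37723 : Lb := (@Lb.d (nat_lit 8) (nat_lit 514) (nat_lit 130) (@Lb.g g9 (@Lb.g g10 (@Lb.g g11 (@Lb.r r1130 (@Lb.r r24 (@Lb.r r1685 (@Lb.r r1427 (@Lb.d (nat_lit 545) (nat_lit 80) (nat_lit 666) (@Lb.t (@Lb.fp (nat_lit 9) t2259)))))))))))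
noncomputable def l37724 : Lb := (@Lb.r r21 (@Lb.r r70 (@Lb.d (nat_lit 656) (nat_lit 512) (nat_lit 64) (@Lb.g g4 (@Lb.g g11 (@Lb.r r519 (@Lb.r r402 (@Lb.r r97 (@Lb.d (nat_lit 65) (nat_lit 64) (nat_lit 576) (@Lb.fm (nat_lit 3) t1778))))))))))
noncomputable def l37725 : Lb := (@Lb.d (nat_lit 144) (nat_lit 322) (nat_lit 64) (@Lb.g g8 (@Lb.g g9 (@Lb.g g10 (@Lb.g g11 (@Lb.r r2475 (@Lb.r r1130 (@Lb.r r72 (@Lb.d (nat_lit 601) (nat_lit 129) (nat_lit 134) (@Lb.fm (nat_lit 9) t6627))))))))))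
noncomputable def l37726 : Lb := (@Lb.d (nat_lit 130) (nat_lit 273) (nat_lit 642) (@Lb.r r101 (@Lb.r r2659 (@Lb.g g7 (@Lb.g g10 (@Lb.g g4 (@Lb.d (nat_lit 0) (nat_lit 8) (nat_lit 130) (@Lb.t (@Lb.fm (nat_lit 9) t749)))))))))
noncomputable def l37727 : Lb := (@Lb.d (nat_lit 645) (nat_lit 280) (nat_lit 661) (@Lb.r r21 (@Lb.r r100 (@Lb.r r386 (@Lb.r r2387 (@Lb.g g7 (@Lb.g g6 (@Lb.g g5 (@Lb.d (nat_lit 0) (nat_lit 1) (nat_lit 65) (@Lb.t (@Lb.fm (nat_lit 9) t6628)))))))))))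
noncomputable def l37728 : Lb := (@Lb.d (nat_lit 129) (nat_lit 576) (nat_lit 512) (@Lb.r r2193 (@Lb.r r1690 (@Lb.r r2727 (@Lb.r r661 (@Lb.g g4 (@Lb.d (nat_lit 1) (nat_lit 0) (nat_lit 0) (@Lb.t (@Lb.fm (nat_lit 3) t1242)))))))))
noncomputable def l37729 : Lb := (@Lb.d (nat_lit 8) (nat_lit 514) (nat_lit 130) (@Lb.g g9 (@Lb.g g10 (@Lb.g g11 (@Lb.r r586 (@Lb.r r584 (@Lb.r r619 (@Lb.r r609 (@Lb.d (nat_lit 9) (nat_lit 132) (nat_lit 161) (@Lb.t (@Lb.fp (nat_lit 9) t387)))))))))))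
noncomputable def l37730 : Lb := (@Lb.d (nat_lit 129) (nat_lit 258) (nat_lit 130) (@Lb.g g8 (@Lb.g g9 (@Lb.g g10 (@Lb.g g11 (@Lb.r r1579 (@Lb.r r386 (@Lb.r r97 (@Lb.r r1176 (@Lb.d (nat_lit 152) (nat_lit 69) (nat_lit 88) (@Lb.fp (nat_lit 9) t217)))))))))))
noncomputable def l37731 : Lb := (@Lb.d (nat_lit 258) (nat_lit 385) (nat_lit 256) (@Lb.r r101 (@Lb.r r2642 (@Lb.r r2691 (@Lb.g g11 (@Lb.g g6 (@Lb.g g4 (@Lb.t (@Lb.fm (nat_lit 9) t2341)))))))))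
noncomputable def l37732 : Lb := (@Lb.d (nat_lit 1) (nat_lit 258) (nat_lit 2) (@Lb.g g8 (@Lb.g g9 (@Lb.g g10 (@Lb.r r1689 (@Lb.r r1688 (@Lb.r r1691 (@Lb.r r1610 (@Lb.d (nat_lit 609) (nat_lit 90) (nat_lit 409) (@Lb.t (@Lb.fm (nat_lit 9) t2118)))))))))))
noncomputable def l37733 : Lb := (@Lb.r r150 (@Lb.r r356 (@Lb.r r539 (@Lb.r r2069 (@Lb.r r36 (@Lb.d (nat_lit 64) (nat_lit 0) (nat_lit 133) (@Lb.fp (nat_lit 1) t6380)))))))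
noncomputable def l37734 : Lb := (@Lb.d (nat_lit 16) (nat_lit 2) (nat_lit 0) (@Lb.g g8 (@Lb.g g9 (@Lb.g g10 (@Lb.g g11 (@Lb.r r683 (@Lb.r r676 (@Lb.r r1190 (@Lb.r r145 (@Lb.d (nat_lit 265) (nat_lit 130) (nat_lit 426) (@Lb.fp (nat_lit 9) t152)))))))))))
noncomputable def l37735 : Lb := (@Lb.d (nat_lit 0) (nat_lit 513) (nat_lit 128) (@Lb.g g8 (@Lb.g g9 (@Lb.g g10 (@Lb.g g11 (@Lb.r r88 (@Lb.r r2646 (@Lb.r r1449 (@Lb.r r343 (@Lb.r r676 (@Lb.d (nat_lit 97) (nat_lit 0) (nat_lit 162) (@Lb.fp (nat_lit 9) t282))))))))))))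
noncomputable def l37736 : Lb := (@Lb.d (nat_lit 550) (nat_lit 41) (nat_lit 592) (@Lb.r r1109 (@Lb.r r2390 (@Lb.r r2647 (@Lb.g g7 (@Lb.g g6 (@Lb.g g5 (@Lb.g g4 (@Lb.d (nat_lit 8) (nat_lit 17) (nat_lit 8) (@Lb.fm (nat_lit 9) t4470))))))))))
noncomputable def l37737 : Lb := (@Lb.d (nat_lit 2) (nat_lit 521) (nat_lit 74) (@Lb.g g8 (@Lb.g g9 (@Lb.g g10 (@Lb.g g11 (@Lb.r r1559 (@Lb.r r1370 (@Lb.r r2457 (@Lb.r r2436 (@Lb.d (nat_lit 609) (nat_lit 2) (nat_lit 544) (@Lb.fm (nat_lit 9) t4468)))))))))))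
noncomputable def l37738 : Lb := (@Lb.d (nat_lit 550) (nat_lit 41) (nat_lit 592) (@Lb.r r1109 (@Lb.r r2390 (@Lb.r r2647 (@Lb.g g7 (@Lb.g g6 (@Lb.g g5 (@Lb.g g4 (@Lb.d (nat_lit 1) (nat_lit 25) (nat_lit 10) (@Lb.fm (nat_lit 9) t4472))))))))))
noncomputable def l37739 : Lb := (@Lb.d (nat_lit 0) (nat_lit 612) (nat_lit 534) (@Lb.r r1346 (@Lb.r r2707 (@Lb.g g6 (@Lb.g g5 (@Lb.fp (nat_lit 3) t599))))))
noncomputable def l37740 : Lb := (@Lb.d (nat_lit 0) (nat_lit 1) (nat_lit 130) (@Lb.g g9 (@Lb.g g10 (@Lb.g g11 (@Lb.r r1697 (@Lb.r r419 (@Lb.r r98 (@Lb.d (nat_lit 0) (nat_lit 154) (nat_lit 514) (@Lb.t (@Lb.fp (nat_lit 9) t1190))))))))))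
noncomputable def l37741 : Lb := (@Lb.d (nat_lit 129) (nat_lit 34) (nat_lit 0) (@Lb.g g8 (@Lb.g g9 (@Lb.r r2695 (@Lb.r r2178 (@Lb.r r408 (@Lb.r r2085 (@Lb.d (nat_lit 26) (nat_lit 160) (nat_lit 650) (@Lb.fm (nat_lit 3) t64)))))))))
noncomputable def l37742 : Lb := (@Lb.r r323 (@Lb.d (nat_lit 32) (nat_lit 322) (nat_lit 2) (@Lb.g g9 (@Lb.g g10 (@Lb.r r600 (@Lb.r r347 (@Lb.r r2658 (@Lb.d (nat_lit 290) (nat_lit 84) (nat_lit 288) (@Lb.fp (nat_lit 3) t578)))))))))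
noncomputable def l37743 : Lb := (@Lb.r r21 (@Lb.r r323 (@Lb.d (nat_lit 10) (nat_lit 256) (nat_lit 2) (@Lb.g g8 (@Lb.g g10 (@Lb.r r1178 (@Lb.r r1381 (@Lb.r r2395 (@Lb.r r2372 (@Lb.d (nat_lit 384) (nat_lit 129) (nat_lit 261) (@Lb.fm (nat_lit 3) t284)))))))))))
noncomputable def l37744 : Lb := (@Lb.r r21 (@Lb.d (nat_lit 385) (nat_lit 256) (nat_lit 66) (@Lb.g g4 (@Lb.g g10 (@Lb.g g11 (@Lb.r r519 (@Lb.r r386 (@Lb.r r25 (@Lb.d (nat_lit 642) (nat_lit 0) (nat_lit 90) (@Lb.t (@Lb.fp (nat_lit 9) t68)))))))))))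
noncomputable def l37745 : Lb := (@Lb.d (nat_lit 0) (nat_lit 42) (nat_lit 0) (@Lb.g g9 (@Lb.r r1435 (@Lb.r r2458 (@Lb.r r597 (@Lb.d (nat_lit 277) (nat_lit 38) (nat_lit 169) (@Lb.t (@Lb.fm (nat_lit 3) t322))))))))
noncomputable def l37746 : Lb := (@Lb.d (nat_lit 5) (nat_lit 1) (nat_lit 128) (@Lb.g g5 (@Lb.t (@Lb.fm (nat_lit 3) t2))))
noncomputable def l37747 : Lb := (@Lb.d (nat_lit 0) (nat_lit 256) (nat_lit 2) (@Lb.g g10 (@Lb.g g7 (@Lb.r r386 (@Lb.d (nat_lit 273) (nat_lit 10) (nat_lit 41) (@Lb.fm (nat_lit 3) t1507))))))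
noncomputable def l37748 : Lb := (@Lb.d (nat_lit 520) (nat_lit 517) (nat_lit 581) (@Lb.r r150 (@Lb.r r72 (@Lb.r r293 (@Lb.r r2395 (@Lb.g g7 (@Lb.g g6 (@Lb.g g5 (@Lb.d (nat_lit 16) (nat_lit 1) (nat_lit 65) (@Lb.t (@Lb.fm (nat_lit 9) t3543)))))))))))
noncomputable def l37749 : Lb := (@Lb.d (nat_lit 2) (nat_lit 258) (nat_lit 0) (@Lb.g g8 (@Lb.g g9 (@Lb.r r1579 (@Lb.r r2178 (@Lb.r r2585 (@Lb.r r2564 (@Lb.d (nat_lit 649) (nat_lit 134) (nat_lit 385) (@Lb.fm (nat_lit 3) t820)))))))))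
noncomputable def l37750 : Lb := (@Lb.d (nat_lit 0) (nat_lit 0) (nat_lit 2) (@Lb.g g10 (@Lb.g g7 (@Lb.r r386 (@Lb.d (nat_lit 273) (nat_lit 0) (nat_lit 42) (@Lb.fm (nat_lit 3) t962))))))
noncomputable def l37751 : Lb := (@Lb.d (nat_lit 2) (nat_lit 256) (nat_lit 130) (@Lb.g g8 (@Lb.g g10 (@Lb.g g11 (@Lb.r r642 (@Lb.r r387 (@Lb.d (nat_lit 0) (nat_lit 5) (nat_lit 144) (@Lb.t (@Lb.fp (nat_lit 9) t45)))))))))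
noncomputable def l37752 : Lb := (@Lb.d (nat_lit 0) (nat_lit 521) (nat_lit 96) (@Lb.r r2194 (@Lb.r r101 (@Lb.r r1304 (@Lb.g g7 (@Lb.g g5 (@Lb.d (nat_lit 64) (nat_lit 0) (nat_lit 328) (@Lb.fp (nat_lit 3) t355))))))))
noncomputable def l37753 : Lb := (@Lb.r r21 (@Lb.r r70 (@Lb.r r263 (@Lb.d (nat_lit 10) (nat_lit 256) (nat_lit 0) (@Lb.g g8 (@Lb.r r597 (@Lb.r r1435 (@Lb.r r2378 (@Lb.r r392 (@Lb.d (nat_lit 672) (nat_lit 0) (nat_lit 138) (@Lb.t (@Lb.fm (nat_lit 3) t68))))))))))))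
noncomputable def l37754 : Lb := (@Lb.d (nat_lit 601) (nat_lit 424) (nat_lit 662) (@Lb.r r421 (@Lb.r r1190 (@Lb.r r84 (@Lb.r r1559 (@Lb.g g6 (@Lb.g g5 (@Lb.g g4 (@Lb.d (nat_lit 2) (nat_lit 17) (nat_lit 1) (@Lb.t (@Lb.fm (nat_lit 9) t645)))))))))))
noncomputable def l37755 : Lb := (@Lb.r r322 (@Lb.d (nat_lit 2) (nat_lit 514) (nat_lit 576) (@Lb.g g8 (@Lb.g g9 (@Lb.g g7 (@Lb.r r353 (@Lb.r r146 (@Lb.d (nat_lit 0) (nat_lit 0) (nat_lit 322) (@Lb.t (@Lb.fp (nat_lit 9) t311))))))))))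
noncomputable def l37756 : Lb := (@Lb.r r21 (@Lb.r r322 (@Lb.d (nat_lit 2) (nat_lit 32) (nat_lit 320) (@Lb.g g8 (@Lb.g g7 (@Lb.r r1368 (@Lb.r r166 (@Lb.r r145 (@Lb.d (nat_lit 0) (nat_lit 85) (nat_lit 600) (@Lb.fp (nat_lit 3) t3180))))))))))
noncomputable def l37757 : Lb := (@Lb.d (nat_lit 292) (nat_lit 293) (nat_lit 42) (@Lb.r r404 (@Lb.r r105 (@Lb.r r386 (@Lb.g g11 (@Lb.g g6 (@Lb.g g4 (@Lb.d (nat_lit 65) (nat_lit 0) (nat_lit 641) (@Lb.r r537 (@Lb.t (@Lb.fm (nat_lit 9) t6629)))))))))))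
noncomputable def l37758 : Lb := (@Lb.r r21 (@Lb.d (nat_lit 129) (nat_lit 0) (nat_lit 130) (@Lb.g g8 (@Lb.g g10 (@Lb.g g11 (@Lb.r r419 (@Lb.r r132 (@Lb.r r2438 (@Lb.r r97 (@Lb.d (nat_lit 361) (nat_lit 26) (nat_lit 354) (@Lb.t (@Lb.fm (nat_lit 9) t523))))))))))))
noncomputable def l37759 : Lb := (@Lb.g g4 (@Lb.r r101 (@Lb.r r24 (@Lb.d (nat_lit 354) (nat_lit 517) (nat_lit 648) (@Lb.t (@Lb.fm (nat_lit 3) t166))))))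
noncomputable def l37760 : Lb := (@Lb.r r21 (@Lb.d (nat_lit 160) (nat_lit 0) (nat_lit 129) (@Lb.g g8 (@Lb.g g10 (@Lb.g g11 (@Lb.r r403 (@Lb.r r132 (@Lb.r r2470 (@Lb.r r97 (@Lb.d (nat_lit 342) (nat_lit 64) (nat_lit 341) (@Lb.t (@Lb.fm (nat_lit 9) t6630))))))))))))
noncomputable def l37761 : Lb := (@Lb.d (nat_lit 1) (nat_lit 34) (nat_lit 130) (@Lb.g g8 (@Lb.g g9 (@Lb.g g10 (@Lb.g g11 (@Lb.r r682 (@Lb.r r387 (@Lb.r r1177 (@Lb.d (nat_lit 538) (nat_lit 149) (nat_lit 409) (@Lb.fm (nat_lit 9) t1047))))))))))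
noncomputable def l37762 : Lb := (@Lb.r r323 (@Lb.d (nat_lit 1) (nat_lit 298) (nat_lit 2) (@Lb.g g8 (@Lb.g g9 (@Lb.g g10 (@Lb.r r1450 (@Lb.r r1444 (@Lb.r r2331 (@Lb.r r1637 (@Lb.d (nat_lit 409) (nat_lit 154) (nat_lit 613) (@Lb.t (@Lb.fm (nat_lit 9) t525))))))))))))
noncomputable def l37763 : Lb := (@Lb.d (nat_lit 8) (nat_lit 265) (nat_lit 72) (@Lb.g g8 (@Lb.g g9 (@Lb.g g10 (@Lb.g g11 (@Lb.r r2691 (@Lb.r r2345 (@Lb.r r648 (@Lb.r r666 (@Lb.r r1156 (@Lb.d (nat_lit 646) (nat_lit 40) (nat_lit 601) (@Lb.fp (nat_lit 9) t1234))))))))))))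
noncomputable def l37764 : Lb := (@Lb.r r273 (@Lb.r r2595 (@Lb.r r2178 (@Lb.r r529 (@Lb.r r2584 (@Lb.d (nat_lit 325) (nat_lit 104) (nat_lit 2) (@Lb.fm (nat_lit 1) t1222)))))))
noncomputable def l37765 : Lb := (@Lb.d (nat_lit 153) (nat_lit 9) (nat_lit 129) (@Lb.g g8 (@Lb.g g9 (@Lb.g g10 (@Lb.g g11 (@Lb.r r675 (@Lb.r r169 (@Lb.r r2472 (@Lb.r r1130 (@Lb.d (nat_lit 164) (nat_lit 5) (nat_lit 72) (@Lb.fm (nat_lit 9) t4640)))))))))))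
noncomputable def l37766 : Lb := (@Lb.d (nat_lit 0) (nat_lit 514) (nat_lit 130) (@Lb.g g9 (@Lb.g g10 (@Lb.g g11 (@Lb.r r1699 (@Lb.r r344 (@Lb.r r166 (@Lb.r r145 (@Lb.d (nat_lit 617) (nat_lit 9) (nat_lit 425) (@Lb.t (@Lb.fp (nat_lit 9) t790)))))))))))
noncomputable def l37767 : Lb := (@Lb.d (nat_lit 0) (nat_lit 288) (nat_lit 128) (@Lb.r r402 (@Lb.g g11 (@Lb.g g4 (@Lb.d (nat_lit 6) (nat_lit 0) (nat_lit 0) (@Lb.fm (nat_lit 3) t369))))))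
noncomputable def l37768 : Lb := (@Lb.d (nat_lit 1) (nat_lit 292) (nat_lit 64) (@Lb.g g8 (@Lb.g g9 (@Lb.g g10 (@Lb.g g11 (@Lb.r r419 (@Lb.r r164 (@Lb.r r422 (@Lb.r r401 (@Lb.d (nat_lit 41) (nat_lit 25) (nat_lit 84) (@Lb.fm (nat_lit 9) t390)))))))))))
noncomputable def l37769 : Lb := (@Lb.d (nat_lit 129) (nat_lit 9) (nat_lit 129) (@Lb.g g8 (@Lb.g g9 (@Lb.g g10 (@Lb.g g11 (@Lb.r r419 (@Lb.r r1177 (@Lb.r r1176 (@Lb.r r2458 (@Lb.d (nat_lit 408) (nat_lit 85) (nat_lit 580) (@Lb.fp (nat_lit 9) t2017)))))))))))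
noncomputable def l37770 : Lb := (@Lb.d (nat_lit 4) (nat_lit 2) (nat_lit 2) (@Lb.g g9 (@Lb.g g10 (@Lb.r r2731 (@Lb.r r1642 (@Lb.r r36 (@Lb.d (nat_lit 354) (nat_lit 2) (nat_lit 9) (@Lb.fp (nat_lit 3) t1165))))))))
noncomputable def l37771 : Lb := (@Lb.r r323 (@Lb.d (nat_lit 0) (nat_lit 2) (nat_lit 2) (@Lb.g g9 (@Lb.g g10 (@Lb.r r401 (@Lb.r r299 (@Lb.r r392 (@Lb.r r74 (@Lb.d (nat_lit 33) (nat_lit 10) (nat_lit 0) (@Lb.fp (nat_lit 3) t61))))))))))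
noncomputable def l37772 : Lb := (@Lb.d (nat_lit 2) (nat_lit 260) (nat_lit 129) (@Lb.g g8 (@Lb.g g9 (@Lb.g g10 (@Lb.g g11 (@Lb.r r659 (@Lb.r r533 (@Lb.r r616 (@Lb.r r326 (@Lb.d (nat_lit 82) (nat_lit 10) (nat_lit 133) (@Lb.fp (nat_lit 9) t355)))))))))))
noncomputable def l37773 : Lb := (@Lb.d (nat_lit 4) (nat_lit 514) (nat_lit 2) (@Lb.g g9 (@Lb.g g10 (@Lb.r r2731 (@Lb.r r1642 (@Lb.r r36 (@Lb.d (nat_lit 356) (nat_lit 0) (nat_lit 9) (@Lb.fp (nat_lit 3) t1165))))))))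
noncomputable def l37774 : Lb := (@Lb.d (nat_lit 546) (nat_lit 288) (nat_lit 72) (@Lb.g g8 (@Lb.g g11 (@Lb.r r2402 (@Lb.r r353 (@Lb.r r1427 (@Lb.d (nat_lit 2) (nat_lit 16) (nat_lit 410) (@Lb.fp (nat_lit 3) t1222))))))))
noncomputable def l37775 : Lb := (@Lb.d (nat_lit 33) (nat_lit 512) (nat_lit 0) (@Lb.g g8 (@Lb.r r2411 (@Lb.r r598 (@Lb.r r2457 (@Lb.r r408 (@Lb.d (nat_lit 666) (nat_lit 26) (nat_lit 137) (@Lb.t (@Lb.fm (nat_lit 3) t386)))))))))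
noncomputable def l37776 : Lb := (@Lb.r r21 (@Lb.d (nat_lit 42) (nat_lit 520) (nat_lit 130) (@Lb.g g8 (@Lb.g g10 (@Lb.g g11 (@Lb.r r1451 (@Lb.r r1557 (@Lb.r r360 (@Lb.r r2150 (@Lb.d (nat_lit 533) (nat_lit 144) (nat_lit 661) (@Lb.t (@Lb.fp (nat_lit 9) t394))))))))))))
noncomputable def l37777 : Lb := (@Lb.d (nat_lit 0) (nat_lit 514) (nat_lit 130) (@Lb.g g9 (@Lb.g g10 (@Lb.g g11 (@Lb.r r2467 (@Lb.r r2180 (@Lb.r r2438 (@Lb.r r97 (@Lb.d (nat_lit 617) (nat_lit 130) (nat_lit 138) (@Lb.t (@Lb.fm (nat_lit 9) t790)))))))))))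
noncomputable def l37778 : Lb := (@Lb.d (nat_lit 2) (nat_lit 33) (nat_lit 66) (@Lb.g g8 (@Lb.g g9 (@Lb.g g10 (@Lb.g g11 (@Lb.r r1579 (@Lb.r r386 (@Lb.r r1188 (@Lb.r r1061 (@Lb.d (nat_lit 408) (nat_lit 137) (nat_lit 662) (@Lb.fm (nat_lit 9) t865)))))))))))
noncomputable def l37779 : Lb := (@Lb.r r21 (@Lb.r r263 (@Lb.d (nat_lit 288) (nat_lit 264) (nat_lit 1) (@Lb.g g4 (@Lb.g g10 (@Lb.r r267 (@Lb.r r2137 (@Lb.r r98 (@Lb.d (nat_lit 522) (nat_lit 73) (nat_lit 2) (@Lb.fp (nat_lit 3) t814))))))))))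
noncomputable def l37780 : Lb := (@Lb.d (nat_lit 2) (nat_lit 514) (nat_lit 130) (@Lb.g g8 (@Lb.g g9 (@Lb.g g10 (@Lb.g g11 (@Lb.r r427 (@Lb.r r386 (@Lb.r r97 (@Lb.r r24 (@Lb.d (nat_lit 265) (nat_lit 9) (nat_lit 585) (@Lb.fm (nat_lit 9) t756)))))))))))
noncomputable def l37781 : Lb := (@Lb.d (nat_lit 256) (nat_lit 514) (nat_lit 72) (@Lb.r r1608 (@Lb.r r2454 (@Lb.g g11 (@Lb.g g6 (@Lb.g g9 (@Lb.d (nat_lit 64) (nat_lit 154) (nat_lit 512) (@Lb.r r36 (@Lb.t (@Lb.fp (nat_lit 9) t4))))))))))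
noncomputable def l37782 : Lb := (@Lb.r r82 (@Lb.d (nat_lit 41) (nat_lit 288) (nat_lit 64) (@Lb.g g8 (@Lb.g g9 (@Lb.g g11 (@Lb.r r1571 (@Lb.r r582 (@Lb.r r1445 (@Lb.r r408 (@Lb.d (nat_lit 341) (nat_lit 144) (nat_lit 356) (@Lb.t (@Lb.fp (nat_lit 9) t541))))))))))))
noncomputable def l37783 : Lb := (@Lb.r r323 (@Lb.d (nat_lit 9) (nat_lit 264) (nat_lit 17) (@Lb.g g8 (@Lb.g g9 (@Lb.g g6 (@Lb.r r2667 (@Lb.r r97 (@Lb.r r24 (@Lb.d (nat_lit 264) (nat_lit 9) (nat_lit 128) (@Lb.t (@Lb.fm (nat_lit 9) t3819)))))))))))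
noncomputable def l37784 : Lb := (@Lb.d (nat_lit 9) (nat_lit 8) (nat_lit 72) (@Lb.g g8 (@Lb.g g9 (@Lb.g g10 (@Lb.g g11 (@Lb.r r1559 (@Lb.r r1434 (@Lb.r r292 (@Lb.r r405 (@Lb.r r2084 (@Lb.d (nat_lit 608) (nat_lit 104) (nat_lit 345) (@Lb.fp (nat_lit 9) t1006))))))))))))
noncomputable def l37785 : Lb := (@Lb.r r82 (@Lb.d (nat_lit 41) (nat_lit 32) (nat_lit 64) (@Lb.g g8 (@Lb.g g9 (@Lb.g g11 (@Lb.r r1571 (@Lb.r r582 (@Lb.r r1445 (@Lb.r r408 (@Lb.d (nat_lit 346) (nat_lit 145) (nat_lit 356) (@Lb.t (@Lb.fp (nat_lit 9) t243))))))))))))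
noncomputable def l37786 : Lb := (@Lb.d (nat_lit 386) (nat_lit 512) (nat_lit 288) (@Lb.r r24 (@Lb.r r101 (@Lb.g g10 (@Lb.g g4 (@Lb.fp (nat_lit 3) t4569))))))
noncomputable def l37787 : Lb := (@Lb.d (nat_lit 153) (nat_lit 264) (nat_lit 130) (@Lb.g g8 (@Lb.g g9 (@Lb.g g10 (@Lb.g g11 (@Lb.r r1415 (@Lb.r r164 (@Lb.r r2470 (@Lb.r r1361 (@Lb.d (nat_lit 21) (nat_lit 40) (nat_lit 361) (@Lb.fm (nat_lit 9) t1816)))))))))))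
noncomputable def l37788 : Lb := (@Lb.d (nat_lit 513) (nat_lit 0) (nat_lit 408) (@Lb.r r97 (@Lb.r r86 (@Lb.r r2647 (@Lb.g g6 (@Lb.g g5 (@Lb.g g4 (@Lb.d (nat_lit 321) (nat_lit 8) (nat_lit 0) (@Lb.r r267 (@Lb.t (@Lb.fp (nat_lit 9) t4687)))))))))))
noncomputable def l37789 : Lb := (@Lb.r r515 (@Lb.r r130 (@Lb.r r33 (@Lb.r r36 (@Lb.d (nat_lit 0) (nat_lit 650) (nat_lit 137) (@Lb.fm (nat_lit 1) t21))))))
noncomputable def l37790 : Lb := (@Lb.d (nat_lit 328) (nat_lit 578) (nat_lit 282) (@Lb.r r24 (@Lb.r r2321 (@Lb.r r359 (@Lb.g g10 (@Lb.g g5 (@Lb.d (nat_lit 0) (nat_lit 16) (nat_lit 34) (@Lb.r r387 (@Lb.fm (nat_lit 3) t1444)))))))))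
noncomputable def l37791 : Lb := (@Lb.r r21 (@Lb.d (nat_lit 129) (nat_lit 0) (nat_lit 130) (@Lb.g g8 (@Lb.g g10 (@Lb.g g11 (@Lb.r r1435 (@Lb.r r1434 (@Lb.r r297 (@Lb.r r276 (@Lb.d (nat_lit 98) (nat_lit 18) (nat_lit 161) (@Lb.t (@Lb.fm (nat_lit 9) t3389))))))))))))
noncomputable def l37792 : Lb := (@Lb.d (nat_lit 660) (nat_lit 88) (nat_lit 32) (@Lb.r r21 (@Lb.r r331 (@Lb.r r2630 (@Lb.g g7 (@Lb.g g4 (@Lb.d (nat_lit 329) (nat_lit 0) (nat_lit 64) (@Lb.r r25 (@Lb.fm (nat_lit 3) t3570)))))))))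
noncomputable def l37793 : Lb := (@Lb.d (nat_lit 544) (nat_lit 265) (nat_lit 33) (@Lb.r r24 (@Lb.r r1178 (@Lb.r r1691 (@Lb.g g7 (@Lb.g g6 (@Lb.g g9 (@Lb.d (nat_lit 8) (nat_lit 2) (nat_lit 65) (@Lb.t (@Lb.fp (nat_lit 9) t2058))))))))))
noncomputable def l37794 : Lb := (@Lb.r r323 (@Lb.d (nat_lit 0) (nat_lit 8) (nat_lit 34) (@Lb.g g8 (@Lb.g g10 (@Lb.r r387 (@Lb.d (nat_lit 10) (nat_lit 1) (nat_lit 16) (@Lb.fm (nat_lit 3) t1673)))))))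
noncomputable def l37795 : Lb := (@Lb.r r82 (@Lb.d (nat_lit 2) (nat_lit 514) (nat_lit 128) (@Lb.g g8 (@Lb.g g9 (@Lb.g g11 (@Lb.r r1571 (@Lb.r r1192 (@Lb.r r1642 (@Lb.r r1561 (@Lb.d (nat_lit 617) (nat_lit 132) (nat_lit 170) (@Lb.t (@Lb.fm (nat_lit 9) t1453))))))))))))
noncomputable def l37796 : Lb := (@Lb.d (nat_lit 32) (nat_lit 544) (nat_lit 386) (@Lb.g g10 (@Lb.g g11 (@Lb.r r68 (@Lb.r r602 (@Lb.r r1425 (@Lb.d (nat_lit 98) (nat_lit 136) (nat_lit 672) (@Lb.fm (nat_lit 3) t1903))))))))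
noncomputable def l37797 : Lb := (@Lb.d (nat_lit 129) (nat_lit 258) (nat_lit 130) (@Lb.g g8 (@Lb.g g9 (@Lb.g g10 (@Lb.g g11 (@Lb.r r419 (@Lb.r r2466 (@Lb.r r344 (@Lb.r r1429 (@Lb.r r1060 (@Lb.d (nat_lit 609) (nat_lit 42) (nat_lit 401) (@Lb.fp (nat_lit 9) t6266))))))))))))
noncomputable def l37798 : Lb := (@Lb.d (nat_lit 2) (nat_lit 5) (nat_lit 128) (@Lb.g g8 (@Lb.g g9 (@Lb.g g10 (@Lb.g g11 (@Lb.r r663 (@Lb.r r386 (@Lb.r r661 (@Lb.r r24 (@Lb.d (nat_lit 98) (nat_lit 21) (nat_lit 134) (@Lb.fm (nat_lit 9) t1120)))))))))))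
noncomputable def l37799 : Lb := (@Lb.d (nat_lit 32) (nat_lit 545) (nat_lit 386) (@Lb.g g9 (@Lb.g g10 (@Lb.g g11 (@Lb.r r68 (@Lb.r r2122 (@Lb.r r1557 (@Lb.d (nat_lit 677) (nat_lit 18) (nat_lit 34) (@Lb.t (@Lb.fm (nat_lit 9) t6631))))))))))
noncomputable def l37800 : Lb := (@Lb.r r21 (@Lb.d (nat_lit 129) (nat_lit 32) (nat_lit 386) (@Lb.g g8 (@Lb.g g10 (@Lb.g g11 (@Lb.r r357 (@Lb.r r154 (@Lb.r r148 (@Lb.d (nat_lit 85) (nat_lit 134) (nat_lit 641) (@Lb.t (@Lb.fm (nat_lit 9) t6632)))))))))))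
noncomputable def l37801 : Lb := (@Lb.d (nat_lit 129) (nat_lit 258) (nat_lit 130) (@Lb.g g8 (@Lb.g g9 (@Lb.g g10 (@Lb.g g11 (@Lb.r r1675 (@Lb.r r164 (@Lb.r r2197 (@Lb.r r2646 (@Lb.r r36 (@Lb.d (nat_lit 426) (nat_lit 136) (nat_lit 325) (@Lb.fm (nat_lit 9) t6185))))))))))))
noncomputable def l37802 : Lb := (@Lb.d (nat_lit 405) (nat_lit 645) (nat_lit 612) (@Lb.r r2453 (@Lb.r r2475 (@Lb.r r1352 (@Lb.g g7 (@Lb.g g5 (@Lb.d (nat_lit 4) (nat_lit 18) (nat_lit 128) (@Lb.fp (nat_lit 3) t1979))))))))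
noncomputable def l37803 : Lb := (@Lb.d (nat_lit 0) (nat_lit 512) (nat_lit 130) (@Lb.g g10 (@Lb.g g11 (@Lb.r r1553 (@Lb.r r595 (@Lb.r r386 (@Lb.r r1096 (@Lb.d (nat_lit 0) (nat_lit 70) (nat_lit 537) (@Lb.fp (nat_lit 3) t6633)))))))))
noncomputable def l37804 : Lb := (@Lb.d (nat_lit 1) (nat_lit 585) (nat_lit 129) (@Lb.g g4 (@Lb.g g9 (@Lb.g g10 (@Lb.g g11 (@Lb.r r419 (@Lb.r r386 (@Lb.d (nat_lit 293) (nat_lit 41) (nat_lit 104) (@Lb.fp (nat_lit 9) t6634)))))))))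
noncomputable def l37805 : Lb := (@Lb.r r322 (@Lb.d (nat_lit 2) (nat_lit 289) (nat_lit 516) (@Lb.g g8 (@Lb.g g9 (@Lb.g g7 (@Lb.r r1450 (@Lb.r r296 (@Lb.r r361 (@Lb.d (nat_lit 406) (nat_lit 42) (nat_lit 281) (@Lb.t (@Lb.fm (nat_lit 9) t6635)))))))))))
noncomputable def l37806 : Lb := (@Lb.r r322 (@Lb.d (nat_lit 2) (nat_lit 545) (nat_lit 516) (@Lb.g g8 (@Lb.g g9 (@Lb.g g7 (@Lb.r r1450 (@Lb.r r296 (@Lb.r r361 (@Lb.d (nat_lit 406) (nat_lit 37) (nat_lit 280) (@Lb.t (@Lb.fm (nat_lit 9) t6635)))))))))))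
noncomputable def l37807 : Lb := (@Lb.d (nat_lit 1) (nat_lit 73) (nat_lit 136) (@Lb.g g4 (@Lb.g g9 (@Lb.g g11 (@Lb.r r402 (@Lb.r r579 (@Lb.d (nat_lit 293) (nat_lit 34) (nat_lit 162) (@Lb.t (@Lb.fp (nat_lit 9) t2154)))))))))
noncomputable def l37808 : Lb := (@Lb.d (nat_lit 0) (nat_lit 356) (nat_lit 534) (@Lb.r r24 (@Lb.r r1617 (@Lb.r r354 (@Lb.r r1427 (@Lb.g g10 (@Lb.t (@Lb.fm (nat_lit 3) t3129))))))))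
noncomputable def l37809 : Lb := (@Lb.d (nat_lit 9) (nat_lit 544) (nat_lit 72) (@Lb.g g8 (@Lb.g g11 (@Lb.r r2449 (@Lb.r r1426 (@Lb.r r355 (@Lb.d (nat_lit 545) (nat_lit 74) (nat_lit 293) (@Lb.fp (nat_lit 3) t246))))))))
noncomputable def l37810 : Lb := (@Lb.d (nat_lit 128) (nat_lit 512) (nat_lit 72) (@Lb.g g11 (@Lb.r r24 (@Lb.r r2453 (@Lb.r r1430 (@Lb.r r363 (@Lb.d (nat_lit 166) (nat_lit 74) (nat_lit 278) (@Lb.t (@Lb.fp (nat_lit 3) t246)))))))))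
noncomputable def l37811 : Lb := (@Lb.d (nat_lit 1) (nat_lit 322) (nat_lit 73) (@Lb.g g4 (@Lb.g g9 (@Lb.g g10 (@Lb.g g11 (@Lb.r r2658 (@Lb.r r579 (@Lb.d (nat_lit 1) (nat_lit 102) (nat_lit 584) (@Lb.fp (nat_lit 9) t51)))))))))
noncomputable def l37812 : Lb := (@Lb.r r21 (@Lb.d (nat_lit 1) (nat_lit 512) (nat_lit 66) (@Lb.g g8 (@Lb.g g10 (@Lb.g g11 (@Lb.r r610 (@Lb.r r1639 (@Lb.r r1557 (@Lb.r r2312 (@Lb.d (nat_lit 385) (nat_lit 133) (nat_lit 646) (@Lb.t (@Lb.fm (nat_lit 9) t3471))))))))))))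
noncomputable def l37813 : Lb := (@Lb.d (nat_lit 105) (nat_lit 90) (nat_lit 581) (@Lb.r r420 (@Lb.r r406 (@Lb.g g7 (@Lb.g g5 (@Lb.g g4 (@Lb.d (nat_lit 144) (nat_lit 18) (nat_lit 256) (@Lb.r r578 (@Lb.t (@Lb.fm (nat_lit 9) t1087))))))))))
noncomputable def l37814 : Lb := (@Lb.r r82 (@Lb.r r283 (@Lb.d (nat_lit 648) (nat_lit 514) (nat_lit 0) (@Lb.g g8 (@Lb.g g9 (@Lb.r r281 (@Lb.r r1315 (@Lb.r r98 (@Lb.d (nat_lit 640) (nat_lit 162) (nat_lit 576) (@Lb.fm (nat_lit 3) t5634))))))))))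
noncomputable def l37815 : Lb := (@Lb.d (nat_lit 128) (nat_lit 512) (nat_lit 384) (@Lb.g g11 (@Lb.r r24 (@Lb.d (nat_lit 134) (nat_lit 16) (nat_lit 576) (@Lb.t (@Lb.fm (nat_lit 3) t5250))))))
noncomputable def l37816 : Lb := (@Lb.d (nat_lit 72) (nat_lit 289) (nat_lit 66) (@Lb.g g8 (@Lb.g g9 (@Lb.g g10 (@Lb.g g11 (@Lb.r r578 (@Lb.r r1623 (@Lb.r r2193 (@Lb.r r360 (@Lb.d (nat_lit 648) (nat_lit 161) (nat_lit 154) (@Lb.fp (nat_lit 9) t2865)))))))))))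
noncomputable def l37817 : Lb := (@Lb.d (nat_lit 128) (nat_lit 512) (nat_lit 384) (@Lb.g g11 (@Lb.r r2138 (@Lb.r r149 (@Lb.d (nat_lit 100) (nat_lit 32) (nat_lit 36) (@Lb.t (@Lb.fp (nat_lit 3) t4072)))))))
noncomputable def l37818 : Lb := (@Lb.d (nat_lit 514) (nat_lit 256) (nat_lit 128) (@Lb.r r1291 (@Lb.g g11 (@Lb.g g8 (@Lb.fm (nat_lit 3) t997)))))
noncomputable def l37819 : Lb := (@Lb.d (nat_lit 150) (nat_lit 161) (nat_lit 102) (@Lb.r r24 (@Lb.r r1383 (@Lb.r r2389 (@Lb.g g6 (@Lb.g g5 (@Lb.g g4 (@Lb.d (nat_lit 1) (nat_lit 0) (nat_lit 42) (@Lb.r r387 (@Lb.t (@Lb.fm (nat_lit 9) t3520)))))))))))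
noncomputable def l37820 : Lb := (@Lb.d (nat_lit 0) (nat_lit 256) (nat_lit 66) (@Lb.g g10 (@Lb.g g11 (@Lb.r r419 (@Lb.r r386 (@Lb.d (nat_lit 0) (nat_lit 105) (nat_lit 152) (@Lb.fp (nat_lit 3) t305)))))))
noncomputable def l37821 : Lb := (@Lb.d (nat_lit 516) (nat_lit 132) (nat_lit 152) (@Lb.r r24 (@Lb.r r97 (@Lb.r r386 (@Lb.r r1431 (@Lb.g g6 (@Lb.g g5 (@Lb.g g4 (@Lb.d (nat_lit 2) (nat_lit 1) (nat_lit 1) (@Lb.t (@Lb.fm (nat_lit 9) t1933)))))))))))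
noncomputable def l37822 : Lb := (@Lb.g g7 (@Lb.r r597 (@Lb.r r1386 (@Lb.r r407 (@Lb.r r1096 (@Lb.d (nat_lit 354) (nat_lit 0) (nat_lit 320) (@Lb.t (@Lb.fp (nat_lit 3) t2238))))))))
noncomputable def l37823 : Lb := (@Lb.d (nat_lit 2) (nat_lit 385) (nat_lit 0) (@Lb.fp (nat_lit 1) t2))
noncomputable def l37824 : Lb := (@Lb.d (nat_lit 1) (nat_lit 646) (nat_lit 289) (@Lb.r r21 (@Lb.r r86 (@Lb.r r2651 (@Lb.g g6 (@Lb.g g5 (@Lb.g g4 (@Lb.d (nat_lit 321) (nat_lit 1) (nat_lit 1) (@Lb.t (@Lb.fm (nat_lit 9) t4425))))))))))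
noncomputable def l37825 : Lb := (@Lb.r r82 (@Lb.d (nat_lit 133) (nat_lit 290) (nat_lit 64) (@Lb.g g8 (@Lb.g g9 (@Lb.g g11 (@Lb.r r1643 (@Lb.r r386 (@Lb.r r281 (@Lb.r r1176 (@Lb.d (nat_lit 361) (nat_lit 169) (nat_lit 580) (@Lb.t (@Lb.fp (nat_lit 9) t6636))))))))))))
noncomputable def l37826 : Lb := (@Lb.d (nat_lit 128) (nat_lit 258) (nat_lit 130) (@Lb.g g8 (@Lb.g g9 (@Lb.g g10 (@Lb.g g11 (@Lb.r r1675 (@Lb.r r164 (@Lb.r r2197 (@Lb.r r2646 (@Lb.r r164 (@Lb.d (nat_lit 393) (nat_lit 128) (nat_lit 293) (@Lb.fm (nat_lit 9) t1622))))))))))))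
noncomputable def l37827 : Lb := (@Lb.d (nat_lit 41) (nat_lit 521) (nat_lit 64) (@Lb.g g8 (@Lb.g g9 (@Lb.g g11 (@Lb.r r2474 (@Lb.r r1371 (@Lb.r r1368 (@Lb.r r2469 (@Lb.d (nat_lit 656) (nat_lit 70) (nat_lit 330) (@Lb.t (@Lb.fp (nat_lit 9) t49)))))))))))
noncomputable def l37828 : Lb := (@Lb.d (nat_lit 9) (nat_lit 1) (nat_lit 130) (@Lb.g g8 (@Lb.g g9 (@Lb.g g10 (@Lb.g g11 (@Lb.r r2660 (@Lb.r r2407 (@Lb.r r2438 (@Lb.r r97 (@Lb.d (nat_lit 402) (nat_lit 138) (nat_lit 6) (@Lb.fp (nat_lit 9) t6637)))))))))))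
noncomputable def l37829 : Lb := (@Lb.d (nat_lit 9) (nat_lit 546) (nat_lit 128) (@Lb.g g8 (@Lb.g g9 (@Lb.g g11 (@Lb.r r100 (@Lb.r r330 (@Lb.r r1415 (@Lb.r r293 (@Lb.d (nat_lit 361) (nat_lit 97) (nat_lit 514) (@Lb.t (@Lb.fp (nat_lit 9) t3197)))))))))))
noncomputable def l37830 : Lb := (@Lb.d (nat_lit 266) (nat_lit 514) (nat_lit 600) (@Lb.r r1414 (@Lb.r r584 (@Lb.r r619 (@Lb.r r609 (@Lb.g g11 (@Lb.g g4 (@Lb.fp (nat_lit 3) t334))))))))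
noncomputable def l37831 : Lb := (@Lb.r r322 (@Lb.d (nat_lit 2) (nat_lit 389) (nat_lit 576) (@Lb.g g8 (@Lb.g g5 (@Lb.g g7 (@Lb.r r1426 (@Lb.d (nat_lit 0) (nat_lit 1) (nat_lit 4) (@Lb.t (@Lb.fp (nat_lit 9) t311)))))))))
noncomputable def l37832 : Lb := (@Lb.r r21 (@Lb.d (nat_lit 33) (nat_lit 0) (nat_lit 72) (@Lb.g g8 (@Lb.g g10 (@Lb.g g11 (@Lb.r r2634 (@Lb.r r579 (@Lb.r r105 (@Lb.r r84 (@Lb.d (nat_lit 17) (nat_lit 40) (nat_lit 358) (@Lb.t (@Lb.fm (nat_lit 9) t6638))))))))))))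
noncomputable def l37833 : Lb := (@Lb.d (nat_lit 0) (nat_lit 294) (nat_lit 133) (@Lb.g g8 (@Lb.g g9 (@Lb.g g10 (@Lb.g g11 (@Lb.r r579 (@Lb.r r1642 (@Lb.r r1193 (@Lb.d (nat_lit 533) (nat_lit 66) (nat_lit 165) (@Lb.fp (nat_lit 9) t96))))))))))
noncomputable def l37834 : Lb := (@Lb.r r21 (@Lb.r r323 (@Lb.d (nat_lit 161) (nat_lit 520) (nat_lit 34) (@Lb.g g8 (@Lb.g g10 (@Lb.r r599 (@Lb.r r97 (@Lb.r r360 (@Lb.d (nat_lit 161) (nat_lit 166) (nat_lit 165) (@Lb.fp (nat_lit 3) t6639))))))))))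
noncomputable def l37835 : Lb := (@Lb.r r21 (@Lb.r r323 (@Lb.d (nat_lit 162) (nat_lit 264) (nat_lit 34) (@Lb.g g8 (@Lb.g g10 (@Lb.r r599 (@Lb.r r97 (@Lb.r r360 (@Lb.d (nat_lit 161) (nat_lit 166) (nat_lit 165) (@Lb.fp (nat_lit 3) t6639))))))))))
noncomputable def l37836 : Lb := (@Lb.d (nat_lit 321) (nat_lit 392) (nat_lit 388) (@Lb.r r597 (@Lb.r r2666 (@Lb.r r2376 (@Lb.r r2691 (@Lb.g g7 (@Lb.g g6 (@Lb.g g5 (@Lb.d (nat_lit 0) (nat_lit 5) (nat_lit 66) (@Lb.t (@Lb.fp (nat_lit 9) t1876)))))))))))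
noncomputable def l37837 : Lb := (@Lb.r r21 (@Lb.r r323 (@Lb.d (nat_lit 0) (nat_lit 0) (nat_lit 21) (@Lb.g g8 (@Lb.g g10 (@Lb.r r387 (@Lb.r r1561 (@Lb.r r1540 (@Lb.d (nat_lit 5) (nat_lit 1) (nat_lit 585) (@Lb.fm (nat_lit 3) t1644))))))))))
noncomputable def l37838 : Lb := (@Lb.r r323 (@Lb.d (nat_lit 130) (nat_lit 546) (nat_lit 18) (@Lb.g g8 (@Lb.g g9 (@Lb.g g10 (@Lb.r r583 (@Lb.r r404 (@Lb.r r105 (@Lb.d (nat_lit 420) (nat_lit 36) (nat_lit 336) (@Lb.t (@Lb.fm (nat_lit 9) t5059)))))))))))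
noncomputable def l37839 : Lb := (@Lb.r r323 (@Lb.d (nat_lit 2) (nat_lit 32) (nat_lit 18) (@Lb.g g8 (@Lb.g g9 (@Lb.g g10 (@Lb.r r1444 (@Lb.r r2331 (@Lb.r r1637 (@Lb.d (nat_lit 25) (nat_lit 149) (nat_lit 358) (@Lb.t (@Lb.fp (nat_lit 9) t2838)))))))))))
noncomputable def l37840 : Lb := (@Lb.d (nat_lit 0) (nat_lit 17) (nat_lit 338) (@Lb.r r1114 (@Lb.r r2408 (@Lb.r r1575 (@Lb.g g9 (@Lb.g g4 (@Lb.d (nat_lit 2) (nat_lit 162) (nat_lit 0) (@Lb.fp (nat_lit 3) t6640))))))))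
noncomputable def l37841 : Lb := (@Lb.d (nat_lit 538) (nat_lit 344) (nat_lit 321) (@Lb.r r1178 (@Lb.r r2472 (@Lb.r r1575 (@Lb.g g6 (@Lb.g g9 (@Lb.g g4 (@Lb.d (nat_lit 2) (nat_lit 162) (nat_lit 2) (@Lb.t (@Lb.fp (nat_lit 9) t6640))))))))))
noncomputable def l37842 : Lb := (@Lb.d (nat_lit 0) (nat_lit 280) (nat_lit 337) (@Lb.r r1114 (@Lb.r r2408 (@Lb.r r1575 (@Lb.g g9 (@Lb.g g4 (@Lb.d (nat_lit 2) (nat_lit 162) (nat_lit 0) (@Lb.fp (nat_lit 3) t6641))))))))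
noncomputable def l37843 : Lb := (@Lb.r r323 (@Lb.d (nat_lit 2) (nat_lit 10) (nat_lit 0) (@Lb.g g8 (@Lb.g g9 (@Lb.g g10 (@Lb.r r1431 (@Lb.r r2196 (@Lb.r r2646 (@Lb.r r533 (@Lb.d (nat_lit 85) (nat_lit 164) (nat_lit 416) (@Lb.t (@Lb.fm (nat_lit 9) t5424))))))))))))
noncomputable def l37844 : Lb := (@Lb.d (nat_lit 2) (nat_lit 512) (nat_lit 130) (@Lb.g g8 (@Lb.g g9 (@Lb.g g10 (@Lb.g g11 (@Lb.r r1602 (@Lb.r r548 (@Lb.r r615 (@Lb.r r533 (@Lb.r r1060 (@Lb.d (nat_lit 1) (nat_lit 66) (nat_lit 346) (@Lb.fm (nat_lit 9) t2838))))))))))))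
noncomputable def l37845 : Lb := (@Lb.d (nat_lit 34) (nat_lit 10) (nat_lit 128) (@Lb.g g8 (@Lb.g g9 (@Lb.g g11 (@Lb.r r1426 (@Lb.r r2407 (@Lb.r r1684 (@Lb.r r2153 (@Lb.d (nat_lit 42) (nat_lit 90) (nat_lit 161) (@Lb.t (@Lb.fm (nat_lit 9) t3071)))))))))))
noncomputable def l37846 : Lb := (@Lb.d (nat_lit 2) (nat_lit 9) (nat_lit 130) (@Lb.g g8 (@Lb.g g9 (@Lb.g g10 (@Lb.g g11 (@Lb.r r548 (@Lb.r r295 (@Lb.r r346 (@Lb.r r405 (@Lb.r r2084 (@Lb.d (nat_lit 682) (nat_lit 40) (nat_lit 73) (@Lb.fp (nat_lit 9) t800))))))))))))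
noncomputable def l37847 : Lb := (@Lb.d (nat_lit 4) (nat_lit 82) (nat_lit 165) (@Lb.r r1621 (@Lb.r r1706 (@Lb.r r2440 (@Lb.g g11 (@Lb.g g6 (@Lb.g g5 (@Lb.d (nat_lit 132) (nat_lit 25) (nat_lit 517) (@Lb.t (@Lb.fm (nat_lit 9) t6642))))))))))
noncomputable def l37848 : Lb := (@Lb.r r21 (@Lb.r r70 (@Lb.d (nat_lit 128) (nat_lit 512) (nat_lit 136) (@Lb.g g8 (@Lb.g g11 (@Lb.r r1382 (@Lb.r r97 (@Lb.r r1044 (@Lb.d (nat_lit 258) (nat_lit 0) (nat_lit 0) (@Lb.fp (nat_lit 3) t984))))))))))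
noncomputable def l37849 : Lb := (@Lb.d (nat_lit 8) (nat_lit 258) (nat_lit 130) (@Lb.g g8 (@Lb.g g9 (@Lb.g g10 (@Lb.g g11 (@Lb.r r1571 (@Lb.r r386 (@Lb.r r105 (@Lb.r r2408 (@Lb.d (nat_lit 550) (nat_lit 106) (nat_lit 129) (@Lb.fp (nat_lit 9) t5192)))))))))))
noncomputable def l37850 : Lb := (@Lb.d (nat_lit 8) (nat_lit 514) (nat_lit 66) (@Lb.g g8 (@Lb.g g9 (@Lb.g g10 (@Lb.g g11 (@Lb.r r660 (@Lb.r r2311 (@Lb.r r161 (@Lb.r r98 (@Lb.r r1540 (@Lb.d (nat_lit 2) (nat_lit 161) (nat_lit 666) (@Lb.fm (nat_lit 9) t391))))))))))))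
noncomputable def l37851 : Lb := (@Lb.d (nat_lit 0) (nat_lit 288) (nat_lit 64) (@Lb.g g11 (@Lb.r r618 (@Lb.r r401 (@Lb.r r615 (@Lb.d (nat_lit 26) (nat_lit 149) (nat_lit 393) (@Lb.t (@Lb.fm (nat_lit 3) t242))))))))
noncomputable def l37852 : Lb := (@Lb.d (nat_lit 4) (nat_lit 1) (nat_lit 0) (@Lb.g g5 (@Lb.r r24 (@Lb.d (nat_lit 321) (nat_lit 1) (nat_lit 576) (@Lb.t (@Lb.fp (nat_lit 3) t716))))))
noncomputable def l37853 : Lb := (@Lb.d (nat_lit 8) (nat_lit 2) (nat_lit 130) (@Lb.g g9 (@Lb.g g10 (@Lb.g g11 (@Lb.r r2388 (@Lb.r r1451 (@Lb.r r362 (@Lb.r r281 (@Lb.d (nat_lit 10) (nat_lit 25) (nat_lit 545) (@Lb.t (@Lb.fm (nat_lit 9) t430)))))))))))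
noncomputable def l37854 : Lb := (@Lb.d (nat_lit 513) (nat_lit 0) (nat_lit 0) (@Lb.r r24 (@Lb.r r1317 (@Lb.r r610 (@Lb.g g11 (@Lb.g g5 (@Lb.d (nat_lit 0) (nat_lit 0) (nat_lit 384) (@Lb.r r578 (@Lb.fp (nat_lit 3) t719)))))))))
noncomputable def l37855 : Lb := (@Lb.d (nat_lit 385) (nat_lit 514) (nat_lit 256) (@Lb.r r24 (@Lb.r r2138 (@Lb.g g9 (@Lb.d (nat_lit 8) (nat_lit 2) (nat_lit 0) (@Lb.t (@Lb.fm (nat_lit 3) t225)))))))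
noncomputable def l37856 : Lb := (@Lb.d (nat_lit 8) (nat_lit 514) (nat_lit 2) (@Lb.g g9 (@Lb.g g10 (@Lb.g g11 (@Lb.r r2658 (@Lb.d (nat_lit 2) (nat_lit 164) (nat_lit 682) (@Lb.t (@Lb.fm (nat_lit 9) t479))))))))
noncomputable def l37857 : Lb := (@Lb.d (nat_lit 1) (nat_lit 0) (nat_lit 0) (@Lb.g g4 (@Lb.r r2311 (@Lb.d (nat_lit 257) (nat_lit 0) (nat_lit 0) (@Lb.t (@Lb.fm (nat_lit 3) t469))))))
noncomputable def l37858 : Lb := (@Lb.d (nat_lit 42) (nat_lit 512) (nat_lit 128) (@Lb.g g8 (@Lb.g g11 (@Lb.r r405 (@Lb.r r2454 (@Lb.r r2411 (@Lb.r r2404 (@Lb.d (nat_lit 657) (nat_lit 170) (nat_lit 422) (@Lb.fp (nat_lit 3) t2570)))))))))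
noncomputable def l37859 : Lb := (@Lb.d (nat_lit 42) (nat_lit 256) (nat_lit 128) (@Lb.g g8 (@Lb.g g11 (@Lb.r r405 (@Lb.r r2454 (@Lb.r r2411 (@Lb.r r2404 (@Lb.d (nat_lit 666) (nat_lit 106) (nat_lit 422) (@Lb.fp (nat_lit 3) t2014)))))))))
noncomputable def l37860 : Lb := (@Lb.d (nat_lit 2) (nat_lit 256) (nat_lit 66) (@Lb.g g8 (@Lb.g g9 (@Lb.g g10 (@Lb.g g7 (@Lb.r r386 (@Lb.r r105 (@Lb.r r36 (@Lb.d (nat_lit 42) (nat_lit 82) (nat_lit 329) (@Lb.fm (nat_lit 9) t1926))))))))))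
noncomputable def l37861 : Lb := (@Lb.d (nat_lit 130) (nat_lit 514) (nat_lit 130) (@Lb.g g8 (@Lb.g g9 (@Lb.g g10 (@Lb.g g11 (@Lb.r r1706 (@Lb.r r1411 (@Lb.r r1177 (@Lb.r r1176 (@Lb.d (nat_lit 532) (nat_lit 84) (nat_lit 665) (@Lb.fp (nat_lit 9) t1325)))))))))))
noncomputable def l37862 : Lb := (@Lb.d (nat_lit 129) (nat_lit 0) (nat_lit 256) (@Lb.g g8 (@Lb.g g7 (@Lb.r r264 (@Lb.d (nat_lit 130) (nat_lit 0) (nat_lit 640) (@Lb.fm (nat_lit 3) t1101))))))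
noncomputable def l37863 : Lb := (@Lb.d (nat_lit 2) (nat_lit 546) (nat_lit 66) (@Lb.g g8 (@Lb.g g9 (@Lb.g g10 (@Lb.g g11 (@Lb.r r104 (@Lb.r r1366 (@Lb.r r2435 (@Lb.r r2597 (@Lb.r r2068 (@Lb.d (nat_lit 393) (nat_lit 130) (nat_lit 538) (@Lb.fp (nat_lit 9) t2504))))))))))))
noncomputable def l37864 : Lb := (@Lb.d (nat_lit 2) (nat_lit 4) (nat_lit 138) (@Lb.g g8 (@Lb.g g9 (@Lb.g g10 (@Lb.g g11 (@Lb.r r683 (@Lb.r r1689 (@Lb.r r1688 (@Lb.r r1610 (@Lb.d (nat_lit 609) (nat_lit 98) (nat_lit 393) (@Lb.fp (nat_lit 9) t2132)))))))))))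
noncomputable def l37865 : Lb := (@Lb.d (nat_lit 4) (nat_lit 258) (nat_lit 130) (@Lb.g g9 (@Lb.g g10 (@Lb.g g11 (@Lb.r r423 (@Lb.r r600 (@Lb.r r662 (@Lb.r r2393 (@Lb.d (nat_lit 580) (nat_lit 165) (nat_lit 321) (@Lb.t (@Lb.fm (nat_lit 9) t2675)))))))))))
noncomputable def l37866 : Lb := (@Lb.d (nat_lit 146) (nat_lit 514) (nat_lit 128) (@Lb.g g8 (@Lb.g g9 (@Lb.g g10 (@Lb.g g11 (@Lb.r r2459 (@Lb.r r1177 (@Lb.r r1626 (@Lb.r r72 (@Lb.d (nat_lit 34) (nat_lit 33) (nat_lit 361) (@Lb.fm (nat_lit 9) t3080)))))))))))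
noncomputable def l37867 : Lb := (@Lb.g g9 (@Lb.g g7 (@Lb.d (nat_lit 1) (nat_lit 512) (nat_lit 0) (@Lb.fp (nat_lit 3) t2))))
noncomputable def l37868 : Lb := (@Lb.d (nat_lit 2) (nat_lit 516) (nat_lit 138) (@Lb.g g8 (@Lb.g g9 (@Lb.g g10 (@Lb.g g11 (@Lb.r r1684 (@Lb.r r1687 (@Lb.r r1634 (@Lb.r r37 (@Lb.d (nat_lit 618) (nat_lit 130) (nat_lit 409) (@Lb.fp (nat_lit 9) t4)))))))))))
noncomputable def l37869 : Lb := (@Lb.d (nat_lit 0) (nat_lit 418) (nat_lit 512) (@Lb.r r2116 (@Lb.r r1057 (@Lb.r r1130 (@Lb.r r100 (@Lb.g g7 (@Lb.d (nat_lit 0) (nat_lit 0) (nat_lit 64) (@Lb.t (@Lb.fp (nat_lit 3) t324)))))))))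
noncomputable def l37870 : Lb := (@Lb.d (nat_lit 661) (nat_lit 8) (nat_lit 661) (@Lb.r r2644 (@Lb.r r1057 (@Lb.r r330 (@Lb.g g7 (@Lb.g g4 (@Lb.d (nat_lit 17) (nat_lit 0) (nat_lit 64) (@Lb.fp (nat_lit 3) t324))))))))
noncomputable def l37871 : Lb := (@Lb.d (nat_lit 0) (nat_lit 8) (nat_lit 2) (@Lb.g g10 (@Lb.r r609 (@Lb.r r363 (@Lb.r r356 (@Lb.r r154 (@Lb.d (nat_lit 586) (nat_lit 138) (nat_lit 529) (@Lb.t (@Lb.fp (nat_lit 3) t698)))))))))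
noncomputable def l37872 : Lb := (@Lb.d (nat_lit 646) (nat_lit 2) (nat_lit 66) (@Lb.g g4 (@Lb.g g9 (@Lb.g g10 (@Lb.g g11 (@Lb.r r1443 (@Lb.r r98 (@Lb.d (nat_lit 8) (nat_lit 8) (nat_lit 425) (@Lb.fm (nat_lit 9) t6643)))))))))
noncomputable def l37873 : Lb := (@Lb.d (nat_lit 4) (nat_lit 514) (nat_lit 66) (@Lb.g g9 (@Lb.g g10 (@Lb.g g11 (@Lb.r r1451 (@Lb.r r98 (@Lb.r r36 (@Lb.d (nat_lit 408) (nat_lit 150) (nat_lit 425) (@Lb.t (@Lb.fm (nat_lit 9) t3983))))))))))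
noncomputable def l37874 : Lb := (@Lb.d (nat_lit 646) (nat_lit 514) (nat_lit 66) (@Lb.g g4 (@Lb.g g9 (@Lb.g g10 (@Lb.g g11 (@Lb.r r1443 (@Lb.r r98 (@Lb.d (nat_lit 9) (nat_lit 8) (nat_lit 425) (@Lb.fm (nat_lit 9) t6644)))))))))
noncomputable def l37875 : Lb := (@Lb.d (nat_lit 32) (nat_lit 32) (nat_lit 578) (@Lb.g g10 (@Lb.g g7 (@Lb.r r72 (@Lb.r r2134 (@Lb.r r1057 (@Lb.d (nat_lit 538) (nat_lit 9) (nat_lit 66) (@Lb.fp (nat_lit 3) t324))))))))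
noncomputable def l37876 : Lb := (@Lb.d (nat_lit 646) (nat_lit 656) (nat_lit 130) (@Lb.g g4 (@Lb.g g9 (@Lb.g g10 (@Lb.g g11 (@Lb.r r2467 (@Lb.r r98 (@Lb.d (nat_lit 1) (nat_lit 9) (nat_lit 665) (@Lb.fm (nat_lit 9) t1948)))))))))
noncomputable def l37877 : Lb := (@Lb.d (nat_lit 2) (nat_lit 36) (nat_lit 534) (@Lb.r r85 (@Lb.r r2600 (@Lb.r r1414 (@Lb.r r2347 (@Lb.r r401 (@Lb.g g7 (@Lb.g g4 (@Lb.fm (nat_lit 3) t127)))))))))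
noncomputable def l37878 : Lb := (@Lb.d (nat_lit 8) (nat_lit 9) (nat_lit 73) (@Lb.g g8 (@Lb.g g9 (@Lb.g g10 (@Lb.g g11 (@Lb.r r170 (@Lb.r r680 (@Lb.r r555 (@Lb.r r2597 (@Lb.r r2068 (@Lb.d (nat_lit 138) (nat_lit 128) (nat_lit 517) (@Lb.fp (nat_lit 9) t125))))))))))))
noncomputable def l37879 : Lb := (@Lb.d (nat_lit 532) (nat_lit 646) (nat_lit 42) (@Lb.r r277 (@Lb.r r1622 (@Lb.r r675 (@Lb.g g7 (@Lb.g g6 (@Lb.g g5 (@Lb.g g8 (@Lb.d (nat_lit 10) (nat_lit 18) (nat_lit 65) (@Lb.fp (nat_lit 9) t31))))))))))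
noncomputable def l37880 : Lb := (@Lb.d (nat_lit 529) (nat_lit 18) (nat_lit 86) (@Lb.r r386 (@Lb.r r339 (@Lb.g g7 (@Lb.g g6 (@Lb.g g5 (@Lb.d (nat_lit 4) (nat_lit 6) (nat_lit 66) (@Lb.t (@Lb.fm (nat_lit 9) t6645)))))))))
noncomputable def l37881 : Lb := (@Lb.d (nat_lit 18) (nat_lit 18) (nat_lit 2) (@Lb.g g8 (@Lb.g g5 (@Lb.g g10 (@Lb.r r2587 (@Lb.r r1624 (@Lb.r r1414 (@Lb.d (nat_lit 402) (nat_lit 136) (nat_lit 390) (@Lb.t (@Lb.fm (nat_lit 9) t6646))))))))))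
noncomputable def l37882 : Lb := (@Lb.d (nat_lit 2) (nat_lit 514) (nat_lit 2) (@Lb.g g8 (@Lb.g g9 (@Lb.g g10 (@Lb.g g7 (@Lb.r r386 (@Lb.r r97 (@Lb.d (nat_lit 0) (nat_lit 9) (nat_lit 9) (@Lb.fm (nat_lit 9) t87)))))))))
noncomputable def l37883 : Lb := (@Lb.d (nat_lit 18) (nat_lit 512) (nat_lit 0) (@Lb.g g8 (@Lb.g g9 (@Lb.g g10 (@Lb.r r297 (@Lb.r r1683 (@Lb.r r1602 (@Lb.r r2084 (@Lb.d (nat_lit 277) (nat_lit 84) (nat_lit 553) (@Lb.t (@Lb.fm (nat_lit 9) t6647)))))))))))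
noncomputable def l37884 : Lb := (@Lb.d (nat_lit 2) (nat_lit 2) (nat_lit 0) (@Lb.g g8 (@Lb.g g9 (@Lb.g g7 (@Lb.r r25 (@Lb.d (nat_lit 9) (nat_lit 10) (nat_lit 68) (@Lb.t (@Lb.fp (nat_lit 9) t21))))))))
noncomputable def l37885 : Lb := (@Lb.d (nat_lit 10) (nat_lit 0) (nat_lit 0) (@Lb.g g8 (@Lb.r r289 (@Lb.r r279 (@Lb.r r584 (@Lb.r r134 (@Lb.d (nat_lit 0) (nat_lit 10) (nat_lit 21) (@Lb.t (@Lb.fm (nat_lit 3) t40)))))))))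
noncomputable def l37886 : Lb := (@Lb.d (nat_lit 10) (nat_lit 0) (nat_lit 64) (@Lb.g g8 (@Lb.g g11 (@Lb.r r545 (@Lb.r r555 (@Lb.r r584 (@Lb.r r134 (@Lb.d (nat_lit 0) (nat_lit 5) (nat_lit 20) (@Lb.fm (nat_lit 3) t40)))))))))
noncomputable def l37887 : Lb := (@Lb.d (nat_lit 41) (nat_lit 256) (nat_lit 72) (@Lb.g g8 (@Lb.g g11 (@Lb.r r614 (@Lb.r r1637 (@Lb.r r1428 (@Lb.d (nat_lit 358) (nat_lit 137) (nat_lit 386) (@Lb.fp (nat_lit 3) t572))))))))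
noncomputable def l37888 : Lb := (@Lb.d (nat_lit 96) (nat_lit 2) (nat_lit 73) (@Lb.g g8 (@Lb.g g9 (@Lb.g g10 (@Lb.g g11 (@Lb.r r1287 (@Lb.r r1193 (@Lb.r r1642 (@Lb.r r1572 (@Lb.d (nat_lit 150) (nat_lit 144) (nat_lit 673) (@Lb.fm (nat_lit 9) t3787)))))))))))
noncomputable def l37889 : Lb := (@Lb.d (nat_lit 128) (nat_lit 256) (nat_lit 64) (@Lb.g g11 (@Lb.r r264 (@Lb.r r519 (@Lb.r r101 (@Lb.r r154 (@Lb.d (nat_lit 386) (nat_lit 0) (nat_lit 160) (@Lb.t (@Lb.fp (nat_lit 3) t743)))))))))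
noncomputable def l37890 : Lb := (@Lb.d (nat_lit 0) (nat_lit 512) (nat_lit 4) (@Lb.g g4 (@Lb.g g10 (@Lb.g g11 (@Lb.r r2567 (@Lb.r r650 (@Lb.d (nat_lit 657) (nat_lit 5) (nat_lit 518) (@Lb.t (@Lb.fp (nat_lit 9) t1941)))))))))
noncomputable def l37891 : Lb := (@Lb.r r20 (@Lb.r r82 (@Lb.d (nat_lit 4) (nat_lit 576) (nat_lit 64) (@Lb.g g5 (@Lb.g g11 (@Lb.r r1368 (@Lb.r r2567 (@Lb.r r386 (@Lb.d (nat_lit 321) (nat_lit 8) (nat_lit 353) (@Lb.fm (nat_lit 3) t739))))))))))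
noncomputable def l37892 : Lb := (@Lb.d (nat_lit 33) (nat_lit 516) (nat_lit 74) (@Lb.g g8 (@Lb.g g9 (@Lb.g g10 (@Lb.g g11 (@Lb.r r1707 (@Lb.r r2217 (@Lb.r r2466 (@Lb.r r1540 (@Lb.d (nat_lit 673) (nat_lit 132) (nat_lit 393) (@Lb.fm (nat_lit 9) t2927)))))))))))
noncomputable def l37893 : Lb := (@Lb.d (nat_lit 130) (nat_lit 2) (nat_lit 130) (@Lb.g g8 (@Lb.g g9 (@Lb.g g10 (@Lb.g g11 (@Lb.r r2690 (@Lb.r r2455 (@Lb.r r97 (@Lb.r r2584 (@Lb.d (nat_lit 616) (nat_lit 169) (nat_lit 289) (@Lb.fm (nat_lit 9) t6648)))))))))))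
noncomputable def l37894 : Lb := (@Lb.d (nat_lit 2) (nat_lit 9) (nat_lit 72) (@Lb.g g8 (@Lb.g g9 (@Lb.g g10 (@Lb.g g11 (@Lb.r r2691 (@Lb.r r2665 (@Lb.r r1686 (@Lb.r r1096 (@Lb.d (nat_lit 674) (nat_lit 160) (nat_lit 89) (@Lb.fp (nat_lit 9) t5255)))))))))))
noncomputable def l37895 : Lb := (@Lb.d (nat_lit 0) (nat_lit 512) (nat_lit 130) (@Lb.g g10 (@Lb.g g11 (@Lb.r r419 (@Lb.r r1444 (@Lb.r r421 (@Lb.r r2470 (@Lb.d (nat_lit 618) (nat_lit 166) (nat_lit 297) (@Lb.fm (nat_lit 3) t5253)))))))))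
noncomputable def l37896 : Lb := (@Lb.d (nat_lit 282) (nat_lit 512) (nat_lit 0) (@Lb.g g8 (@Lb.r r101 (@Lb.r r402 (@Lb.d (nat_lit 9) (nat_lit 164) (nat_lit 613) (@Lb.t (@Lb.fp (nat_lit 3) t6453)))))))
noncomputable def l37897 : Lb := (@Lb.d (nat_lit 146) (nat_lit 2) (nat_lit 128) (@Lb.g g8 (@Lb.g g9 (@Lb.g g10 (@Lb.g g11 (@Lb.r r2467 (@Lb.r r164 (@Lb.r r1445 (@Lb.r r1126 (@Lb.d (nat_lit 26) (nat_lit 10) (nat_lit 596) (@Lb.fm (nat_lit 9) t6649)))))))))))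
noncomputable def l37898 : Lb := (@Lb.r r21 (@Lb.r r322 (@Lb.d (nat_lit 2) (nat_lit 256) (nat_lit 8) (@Lb.g g8 (@Lb.g g11 (@Lb.r r2454 (@Lb.r r97 (@Lb.r r1540 (@Lb.d (nat_lit 2) (nat_lit 1) (nat_lit 640) (@Lb.fm (nat_lit 3) t6650))))))))))
noncomputable def l37899 : Lb := (@Lb.d (nat_lit 66) (nat_lit 522) (nat_lit 420) (@Lb.r r2370 (@Lb.r r1683 (@Lb.r r2389 (@Lb.g g7 (@Lb.g g6 (@Lb.g g5 (@Lb.g g4 (@Lb.d (nat_lit 293) (nat_lit 6) (nat_lit 134) (@Lb.fm (nat_lit 9) t4619))))))))))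
noncomputable def l37900 : Lb := (@Lb.d (nat_lit 2) (nat_lit 2) (nat_lit 2) (@Lb.g g8 (@Lb.g g9 (@Lb.g g10 (@Lb.r r427 (@Lb.r r386 (@Lb.r r25 (@Lb.r r24 (@Lb.d (nat_lit 609) (nat_lit 21) (nat_lit 662) (@Lb.t (@Lb.fm (nat_lit 9) t171)))))))))))
noncomputable def l37901 : Lb := (@Lb.d (nat_lit 0) (nat_lit 514) (nat_lit 0) (@Lb.g g9 (@Lb.r r2643 (@Lb.r r1414 (@Lb.r r97 (@Lb.r r24 (@Lb.d (nat_lit 24) (nat_lit 146) (nat_lit 353) (@Lb.t (@Lb.fp (nat_lit 3) t6651)))))))))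
noncomputable def l37902 : Lb := (@Lb.r r323 (@Lb.d (nat_lit 130) (nat_lit 534) (nat_lit 0) (@Lb.g g8 (@Lb.g g5 (@Lb.g g10 (@Lb.r r2631 (@Lb.r r1426 (@Lb.r r72 (@Lb.d (nat_lit 168) (nat_lit 154) (nat_lit 642) (@Lb.t (@Lb.fm (nat_lit 9) t6652)))))))))))
noncomputable def l37903 : Lb := (@Lb.r r82 (@Lb.d (nat_lit 0) (nat_lit 2) (nat_lit 0) (@Lb.g g9 (@Lb.g g7 (@Lb.r r594 (@Lb.r r289 (@Lb.d (nat_lit 0) (nat_lit 16) (nat_lit 5) (@Lb.fm (nat_lit 3) t2798))))))))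
noncomputable def l37904 : Lb := (@Lb.d (nat_lit 2) (nat_lit 514) (nat_lit 2) (@Lb.g g8 (@Lb.g g9 (@Lb.g g10 (@Lb.r r427 (@Lb.r r386 (@Lb.r r25 (@Lb.r r24 (@Lb.d (nat_lit 609) (nat_lit 26) (nat_lit 660) (@Lb.t (@Lb.fm (nat_lit 9) t171)))))))))))
noncomputable def l37905 : Lb := (@Lb.d (nat_lit 149) (nat_lit 82) (nat_lit 641) (@Lb.r r21 (@Lb.r r86 (@Lb.r r424 (@Lb.g g11 (@Lb.g g6 (@Lb.g g5 (@Lb.d (nat_lit 0) (nat_lit 8) (nat_lit 128) (@Lb.t (@Lb.fp (nat_lit 9) t626))))))))))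
noncomputable def l37906 : Lb := (@Lb.d (nat_lit 0) (nat_lit 2) (nat_lit 0) (@Lb.g g9 (@Lb.g g10 (@Lb.r r97 (@Lb.d (nat_lit 294) (nat_lit 0) (nat_lit 32) (@Lb.fp (nat_lit 3) t743))))))
noncomputable def l37907 : Lb := (@Lb.d (nat_lit 8) (nat_lit 290) (nat_lit 8) (@Lb.g g9 (@Lb.g g10 (@Lb.r r536 (@Lb.r r539 (@Lb.r r1381 (@Lb.r r1106 (@Lb.d (nat_lit 80) (nat_lit 132) (nat_lit 645) (@Lb.fp (nat_lit 3) t322)))))))))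
noncomputable def l37908 : Lb := (@Lb.d (nat_lit 0) (nat_lit 258) (nat_lit 0) (@Lb.g g9 (@Lb.g g10 (@Lb.r r97 (@Lb.d (nat_lit 294) (nat_lit 10) (nat_lit 34) (@Lb.fp (nat_lit 3) t743))))))
noncomputable def l37909 : Lb := (@Lb.d (nat_lit 97) (nat_lit 580) (nat_lit 664) (@Lb.r r24 (@Lb.r r293 (@Lb.r r2130 (@Lb.r r339 (@Lb.g g7 (@Lb.g g6 (@Lb.g g5 (@Lb.d (nat_lit 0) (nat_lit 24) (nat_lit 128) (@Lb.t (@Lb.fp (nat_lit 9) t694)))))))))))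
noncomputable def l37910 : Lb := (@Lb.d (nat_lit 133) (nat_lit 85) (nat_lit 64) (@Lb.r r536 (@Lb.r r411 (@Lb.r r661 (@Lb.g g6 (@Lb.g g5 (@Lb.g g4 (@Lb.d (nat_lit 90) (nat_lit 0) (nat_lit 1) (@Lb.r r391 (@Lb.t (@Lb.fm (nat_lit 9) t68)))))))))))
noncomputable def l37911 : Lb := (@Lb.d (nat_lit 0) (nat_lit 512) (nat_lit 128) (@Lb.g g10 (@Lb.g g11 (@Lb.r r387 (@Lb.r r402 (@Lb.r r24 (@Lb.r r101 (@Lb.d (nat_lit 580) (nat_lit 137) (nat_lit 530) (@Lb.fp (nat_lit 3) t2096)))))))))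
noncomputable def l37912 : Lb := (@Lb.d (nat_lit 665) (nat_lit 682) (nat_lit 4) (@Lb.r r21 (@Lb.r r1444 (@Lb.r r411 (@Lb.g g6 (@Lb.g g4 (@Lb.d (nat_lit 1) (nat_lit 8) (nat_lit 41) (@Lb.r r391 (@Lb.r r25 (@Lb.fm (nat_lit 3) t531))))))))))
noncomputable def l37913 : Lb := (@Lb.d (nat_lit 2) (nat_lit 512) (nat_lit 74) (@Lb.g g8 (@Lb.g g10 (@Lb.g g11 (@Lb.r r1618 (@Lb.r r579 (@Lb.r r1561 (@Lb.r r24 (@Lb.d (nat_lit 517) (nat_lit 146) (nat_lit 138) (@Lb.t (@Lb.fm (nat_lit 9) t504)))))))))))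
noncomputable def l37914 : Lb := (@Lb.d (nat_lit 8) (nat_lit 0) (nat_lit 73) (@Lb.g g8 (@Lb.g g10 (@Lb.g g11 (@Lb.r r1427 (@Lb.r r1682 (@Lb.r r2341 (@Lb.r r2324 (@Lb.d (nat_lit 33) (nat_lit 98) (nat_lit 528) (@Lb.t (@Lb.fm (nat_lit 9) t504)))))))))))
noncomputable def l37915 : Lb := (@Lb.r r20 (@Lb.r r82 (@Lb.d (nat_lit 0) (nat_lit 673) (nat_lit 72) (@Lb.g g5 (@Lb.g g11 (@Lb.r r1624 (@Lb.r r2438 (@Lb.r r1611 (@Lb.d (nat_lit 618) (nat_lit 5) (nat_lit 512) (@Lb.fm (nat_lit 3) t3577))))))))))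
noncomputable def l37916 : Lb := (@Lb.r r21 (@Lb.d (nat_lit 658) (nat_lit 8) (nat_lit 0) (@Lb.g g4 (@Lb.g g10 (@Lb.r r597 (@Lb.r r1427 (@Lb.r r2374 (@Lb.d (nat_lit 106) (nat_lit 0) (nat_lit 678) (@Lb.fp (nat_lit 3) t5661)))))))))
noncomputable def l37917 : Lb := (@Lb.r r70 (@Lb.g g4 (@Lb.g g9 (@Lb.r r2436 (@Lb.r r1291 (@Lb.r r1410 (@Lb.d (nat_lit 0) (nat_lit 0) (nat_lit 512) (@Lb.fm (nat_lit 3) t6653))))))))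
noncomputable def l37918 : Lb := (@Lb.d (nat_lit 357) (nat_lit 81) (nat_lit 582) (@Lb.r r2069 (@Lb.r r2438 (@Lb.r r339 (@Lb.g g7 (@Lb.g g6 (@Lb.g g4 (@Lb.d (nat_lit 2) (nat_lit 0) (nat_lit 65) (@Lb.t (@Lb.fm (nat_lit 9) t2935))))))))))
noncomputable def l37919 : Lb := (@Lb.r r2118 (@Lb.r r2069 (@Lb.r r8 (@Lb.d (nat_lit 258) (nat_lit 512) (nat_lit 0) (@Lb.fm (nat_lit 1) t2817)))))
noncomputable def l37920 : Lb := (@Lb.d (nat_lit 1) (nat_lit 258) (nat_lit 66) (@Lb.g g8 (@Lb.g g9 (@Lb.g g10 (@Lb.g g7 (@Lb.r r386 (@Lb.r r97 (@Lb.r r2584 (@Lb.d (nat_lit 650) (nat_lit 169) (nat_lit 265) (@Lb.fp (nat_lit 9) t3305))))))))))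
noncomputable def l37921 : Lb := (@Lb.d (nat_lit 146) (nat_lit 537) (nat_lit 101) (@Lb.r r609 (@Lb.r r619 (@Lb.r r584 (@Lb.r r342 (@Lb.g g7 (@Lb.g g6 (@Lb.d (nat_lit 0) (nat_lit 0) (nat_lit 66) (@Lb.fp (nat_lit 3) t260)))))))))
noncomputable def l37922 : Lb := (@Lb.r r277 (@Lb.r r326 (@Lb.d (nat_lit 394) (nat_lit 512) (nat_lit 0) (@Lb.g g8 (@Lb.g g11 (@Lb.r r1563 (@Lb.r r101 (@Lb.r r2194 (@Lb.d (nat_lit 2) (nat_lit 0) (nat_lit 137) (@Lb.fp (nat_lit 3) t6654))))))))))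
noncomputable def l37923 : Lb := (@Lb.d (nat_lit 4) (nat_lit 0) (nat_lit 2) (@Lb.g g8 (@Lb.g g9 (@Lb.g g10 (@Lb.g g11 (@Lb.r r427 (@Lb.r r145 (@Lb.r r356 (@Lb.r r154 (@Lb.r r132 (@Lb.d (nat_lit 9) (nat_lit 2) (nat_lit 16) (@Lb.fm (nat_lit 9) t221))))))))))))
noncomputable def l37924 : Lb := (@Lb.r r81 (@Lb.d (nat_lit 10) (nat_lit 256) (nat_lit 41) (@Lb.g g8 (@Lb.g g6 (@Lb.r r2451 (@Lb.r r149 (@Lb.r r1704 (@Lb.d (nat_lit 292) (nat_lit 150) (nat_lit 25) (@Lb.fm (nat_lit 3) t801)))))))))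
noncomputable def l37925 : Lb := (@Lb.d (nat_lit 2) (nat_lit 514) (nat_lit 130) (@Lb.g g8 (@Lb.g g9 (@Lb.g g10 (@Lb.g g11 (@Lb.r r2705 (@Lb.r r535 (@Lb.r r2440 (@Lb.r r2122 (@Lb.d (nat_lit 289) (nat_lit 86) (nat_lit 645) (@Lb.fp (nat_lit 9) t4056)))))))))))
noncomputable def l37926 : Lb := (@Lb.d (nat_lit 642) (nat_lit 258) (nat_lit 66) (@Lb.g g8 (@Lb.g g9 (@Lb.g g10 (@Lb.g g11 (@Lb.r r2471 (@Lb.r r106 (@Lb.r r25 (@Lb.d (nat_lit 154) (nat_lit 9) (nat_lit 665) (@Lb.fp (nat_lit 9) t394))))))))))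
noncomputable def l37927 : Lb := (@Lb.d (nat_lit 64) (nat_lit 168) (nat_lit 42) (@Lb.r r2178 (@Lb.r r551 (@Lb.r r280 (@Lb.g g7 (@Lb.g g5 (@Lb.d (nat_lit 64) (nat_lit 65) (nat_lit 64) (@Lb.fp (nat_lit 3) t124))))))))
noncomputable def l37928 : Lb := (@Lb.d (nat_lit 154) (nat_lit 8) (nat_lit 2) (@Lb.g g8 (@Lb.g g9 (@Lb.g g10 (@Lb.r r1667 (@Lb.r r2217 (@Lb.r r2666 (@Lb.r r1128 (@Lb.d (nat_lit 164) (nat_lit 138) (nat_lit 601) (@Lb.t (@Lb.fp (nat_lit 9) t1161)))))))))))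
noncomputable def l37929 : Lb := (@Lb.d (nat_lit 0) (nat_lit 521) (nat_lit 2) (@Lb.g g9 (@Lb.g g10 (@Lb.r r1671 (@Lb.r r2376 (@Lb.r r1158 (@Lb.r r97 (@Lb.d (nat_lit 289) (nat_lit 74) (nat_lit 152) (@Lb.fm (nat_lit 3) t892)))))))))
noncomputable def l37930 : Lb := (@Lb.d (nat_lit 137) (nat_lit 0) (nat_lit 0) (@Lb.g g8 (@Lb.g g9 (@Lb.r r263 (@Lb.r r418 (@Lb.r r401 (@Lb.r r520 (@Lb.d (nat_lit 66) (nat_lit 85) (nat_lit 89) (@Lb.fm (nat_lit 3) t334)))))))))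
noncomputable def l37931 : Lb := (@Lb.r r82 (@Lb.d (nat_lit 8) (nat_lit 514) (nat_lit 0) (@Lb.g g9 (@Lb.r r1575 (@Lb.r r386 (@Lb.r r2328 (@Lb.r r1637 (@Lb.d (nat_lit 265) (nat_lit 73) (nat_lit 18) (@Lb.t (@Lb.fp (nat_lit 3) t152))))))))))
noncomputable def l37932 : Lb := (@Lb.d (nat_lit 144) (nat_lit 265) (nat_lit 65) (@Lb.g g9 (@Lb.g g6 (@Lb.g g11 (@Lb.r r264 (@Lb.r r1639 (@Lb.r r1553 (@Lb.d (nat_lit 26) (nat_lit 41) (nat_lit 128) (@Lb.t (@Lb.fp (nat_lit 9) t925))))))))))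
noncomputable def l37933 : Lb := (@Lb.d (nat_lit 0) (nat_lit 265) (nat_lit 2) (@Lb.g g9 (@Lb.g g10 (@Lb.r r1671 (@Lb.r r297 (@Lb.r r2376 (@Lb.r r1638 (@Lb.d (nat_lit 409) (nat_lit 90) (nat_lit 613) (@Lb.fp (nat_lit 3) t1027)))))))))
noncomputable def l37934 : Lb := (@Lb.r r609 (@Lb.r r2659 (@Lb.r r338 (@Lb.r r2705 (@Lb.d (nat_lit 320) (nat_lit 256) (nat_lit 576) (@Lb.fp (nat_lit 1) t322))))))
noncomputable def l37935 : Lb := (@Lb.r r21 (@Lb.d (nat_lit 65) (nat_lit 0) (nat_lit 137) (@Lb.g g8 (@Lb.g g10 (@Lb.g g11 (@Lb.r r1671 (@Lb.r r386 (@Lb.r r97 (@Lb.r r1572 (@Lb.d (nat_lit 152) (nat_lit 170) (nat_lit 580) (@Lb.t (@Lb.fp (nat_lit 9) t6655))))))))))))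
noncomputable def l37936 : Lb := (@Lb.d (nat_lit 5) (nat_lit 257) (nat_lit 138) (@Lb.g g11 (@Lb.t (@Lb.fp (nat_lit 3) t2))))
noncomputable def l37937 : Lb := (@Lb.d (nat_lit 578) (nat_lit 162) (nat_lit 330) (@Lb.r r2329 (@Lb.r r2452 (@Lb.r r1702 (@Lb.r r1443 (@Lb.g g7 (@Lb.g g6 (@Lb.g g5 (@Lb.d (nat_lit 0) (nat_lit 16) (nat_lit 134) (@Lb.t (@Lb.fm (nat_lit 9) t6656)))))))))))
noncomputable def l37938 : Lb := (@Lb.d (nat_lit 0) (nat_lit 273) (nat_lit 137) (@Lb.g g9 (@Lb.g g10 (@Lb.g g11 (@Lb.r r643 (@Lb.r r578 (@Lb.r r600 (@Lb.r r293 (@Lb.d (nat_lit 96) (nat_lit 32) (nat_lit 88) (@Lb.t (@Lb.fp (nat_lit 9) t6657)))))))))))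
noncomputable def l37939 : Lb := (@Lb.d (nat_lit 338) (nat_lit 385) (nat_lit 65) (@Lb.r r613 (@Lb.r r280 (@Lb.r r2390 (@Lb.r r679 (@Lb.g g7 (@Lb.g g6 (@Lb.g g5 (@Lb.d (nat_lit 0) (nat_lit 18) (nat_lit 8) (@Lb.t (@Lb.fm (nat_lit 9) t6658)))))))))))
noncomputable def l37940 : Lb := (@Lb.d (nat_lit 36) (nat_lit 330) (nat_lit 353) (@Lb.r r2394 (@Lb.r r2376 (@Lb.r r1687 (@Lb.g g6 (@Lb.g g9 (@Lb.d (nat_lit 20) (nat_lit 32) (nat_lit 1) (@Lb.r r387 (@Lb.fp (nat_lit 3) t5473)))))))))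
noncomputable def l37941 : Lb := (@Lb.d (nat_lit 662) (nat_lit 344) (nat_lit 81) (@Lb.r r85 (@Lb.r r40 (@Lb.r r322 (@Lb.r r1707 (@Lb.g g7 (@Lb.g g6 (@Lb.g g5 (@Lb.d (nat_lit 0) (nat_lit 9) (nat_lit 133) (@Lb.t (@Lb.fp (nat_lit 9) t6659)))))))))))
noncomputable def l37942 : Lb := (@Lb.d (nat_lit 32) (nat_lit 512) (nat_lit 130) (@Lb.g g10 (@Lb.g g11 (@Lb.r r423 (@Lb.r r600 (@Lb.r r1429 (@Lb.r r406 (@Lb.d (nat_lit 96) (nat_lit 25) (nat_lit 537) (@Lb.fm (nat_lit 3) t2600)))))))))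
noncomputable def l37943 : Lb := (@Lb.r r24 (@Lb.r r101 (@Lb.d (nat_lit 1) (nat_lit 410) (nat_lit 266) (@Lb.fp (nat_lit 1) t1174))))
noncomputable def l37944 : Lb := (@Lb.d (nat_lit 0) (nat_lit 520) (nat_lit 130) (@Lb.g g10 (@Lb.g g11 (@Lb.r r1419 (@Lb.d (nat_lit 401) (nat_lit 2) (nat_lit 425) (@Lb.fm (nat_lit 3) t899))))))
noncomputable def l37945 : Lb := (@Lb.r r279 (@Lb.d (nat_lit 0) (nat_lit 5) (nat_lit 0) (@Lb.g g8 (@Lb.g g9 (@Lb.g g10 (@Lb.r r675 (@Lb.r r2184 (@Lb.r r1610 (@Lb.r r2473 (@Lb.d (nat_lit 408) (nat_lit 128) (nat_lit 596) (@Lb.t (@Lb.fp (nat_lit 9) t3100))))))))))))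
noncomputable def l37946 : Lb := (@Lb.d (nat_lit 0) (nat_lit 0) (nat_lit 66) (@Lb.g g9 (@Lb.g g10 (@Lb.g g7 (@Lb.r r386 (@Lb.r r24 (@Lb.r r101 (@Lb.d (nat_lit 0) (nat_lit 1) (nat_lit 25) (@Lb.t (@Lb.fm (nat_lit 9) t97))))))))))
noncomputable def l37947 : Lb := (@Lb.d (nat_lit 577) (nat_lit 145) (nat_lit 70) (@Lb.r r1572 (@Lb.r r2341 (@Lb.r r323 (@Lb.g g6 (@Lb.g g4 (@Lb.d (nat_lit 4) (nat_lit 8) (nat_lit 41) (@Lb.r r387 (@Lb.fp (nat_lit 3) t3820)))))))))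
noncomputable def l37948 : Lb := (@Lb.r r275 (@Lb.d (nat_lit 0) (nat_lit 261) (nat_lit 0) (@Lb.g g9 (@Lb.g g10 (@Lb.r r679 (@Lb.r r578 (@Lb.r r421 (@Lb.r r24 (@Lb.d (nat_lit 149) (nat_lit 153) (nat_lit 137) (@Lb.fp (nat_lit 3) t101))))))))))
noncomputable def l37949 : Lb := (@Lb.d (nat_lit 129) (nat_lit 516) (nat_lit 522) (@Lb.g g8 (@Lb.g g9 (@Lb.g g10 (@Lb.g g7 (@Lb.r r386 (@Lb.r r97 (@Lb.r r2456 (@Lb.d (nat_lit 410) (nat_lit 149) (nat_lit 68) (@Lb.fp (nat_lit 9) t6660))))))))))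
noncomputable def l37950 : Lb := (@Lb.d (nat_lit 34) (nat_lit 258) (nat_lit 0) (@Lb.g g8 (@Lb.g g9 (@Lb.r r406 (@Lb.r r1387 (@Lb.r r97 (@Lb.r r1304 (@Lb.d (nat_lit 138) (nat_lit 89) (nat_lit 416) (@Lb.fp (nat_lit 3) t313)))))))))
noncomputable def l37951 : Lb := (@Lb.d (nat_lit 149) (nat_lit 650) (nat_lit 86) (@Lb.r r421 (@Lb.r r422 (@Lb.r r1620 (@Lb.r r1559 (@Lb.g g6 (@Lb.g g5 (@Lb.g g4 (@Lb.d (nat_lit 2) (nat_lit 17) (nat_lit 2) (@Lb.t (@Lb.fm (nat_lit 9) t1105)))))))))))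
noncomputable def l37952 : Lb := (@Lb.r r21 (@Lb.d (nat_lit 162) (nat_lit 512) (nat_lit 128) (@Lb.g g8 (@Lb.g g11 (@Lb.r r545 (@Lb.r r291 (@Lb.r r1094 (@Lb.r r164 (@Lb.d (nat_lit 42) (nat_lit 38) (nat_lit 388) (@Lb.fp (nat_lit 3) t1856))))))))))
noncomputable def l37953 : Lb := (@Lb.d (nat_lit 0) (nat_lit 522) (nat_lit 152) (@Lb.r r2324 (@Lb.r r2411 (@Lb.r r345 (@Lb.r r280 (@Lb.g g6 (@Lb.d (nat_lit 0) (nat_lit 0) (nat_lit 34) (@Lb.t (@Lb.fp (nat_lit 3) t5734)))))))))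
noncomputable def l37954 : Lb := (@Lb.d (nat_lit 2) (nat_lit 546) (nat_lit 130) (@Lb.g g8 (@Lb.g g9 (@Lb.g g10 (@Lb.g g11 (@Lb.r r387 (@Lb.r r2154 (@Lb.r r2073 (@Lb.d (nat_lit 265) (nat_lit 25) (nat_lit 138) (@Lb.fp (nat_lit 9) t719))))))))))
noncomputable def l37955 : Lb := (@Lb.r r323 (@Lb.d (nat_lit 2) (nat_lit 265) (nat_lit 2) (@Lb.g g8 (@Lb.g g9 (@Lb.g g10 (@Lb.r r1706 (@Lb.r r1700 (@Lb.r r1575 (@Lb.r r1553 (@Lb.d (nat_lit 546) (nat_lit 97) (nat_lit 601) (@Lb.t (@Lb.fm (nat_lit 9) t957))))))))))))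
noncomputable def l37956 : Lb := (@Lb.d (nat_lit 417) (nat_lit 258) (nat_lit 290) (@Lb.r r24 (@Lb.r r1178 (@Lb.r r1435 (@Lb.g g6 (@Lb.g g9 (@Lb.d (nat_lit 8) (nat_lit 2) (nat_lit 2) (@Lb.r r387 (@Lb.fp (nat_lit 3) t121)))))))))
noncomputable def l37957 : Lb := (@Lb.d (nat_lit 137) (nat_lit 134) (nat_lit 582) (@Lb.r r1178 (@Lb.r r1369 (@Lb.r r2731 (@Lb.g g7 (@Lb.g g6 (@Lb.g g5 (@Lb.g g4 (@Lb.d (nat_lit 8) (nat_lit 0) (nat_lit 133) (@Lb.fp (nat_lit 9) t2503))))))))))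
noncomputable def l37958 : Lb := (@Lb.r r21 (@Lb.d (nat_lit 658) (nat_lit 8) (nat_lit 128) (@Lb.g g4 (@Lb.g g10 (@Lb.g g11 (@Lb.r r345 (@Lb.r r2667 (@Lb.r r2374 (@Lb.d (nat_lit 97) (nat_lit 72) (nat_lit 661) (@Lb.t (@Lb.fm (nat_lit 9) t125)))))))))))
noncomputable def l37959 : Lb := (@Lb.r r338 (@Lb.d (nat_lit 2) (nat_lit 522) (nat_lit 648) (@Lb.g g8 (@Lb.g g9 (@Lb.g g11 (@Lb.r r2438 (@Lb.r r2712 (@Lb.r r1445 (@Lb.d (nat_lit 168) (nat_lit 34) (nat_lit 105) (@Lb.t (@Lb.fp (nat_lit 9) t3687)))))))))))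
noncomputable def l37960 : Lb := (@Lb.d (nat_lit 408) (nat_lit 294) (nat_lit 532) (@Lb.r r21 (@Lb.r r1640 (@Lb.r r1547 (@Lb.g g6 (@Lb.g g4 (@Lb.d (nat_lit 1) (nat_lit 0) (nat_lit 41) (@Lb.r r25 (@Lb.fm (nat_lit 3) t6661)))))))))
noncomputable def l37961 : Lb := (@Lb.d (nat_lit 538) (nat_lit 512) (nat_lit 17) (@Lb.r r579 (@Lb.r r402 (@Lb.g g7 (@Lb.g g5 (@Lb.g g8 (@Lb.d (nat_lit 2) (nat_lit 129) (nat_lit 68) (@Lb.t (@Lb.fm (nat_lit 9) t3104)))))))))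
noncomputable def l37962 : Lb := (@Lb.d (nat_lit 0) (nat_lit 32) (nat_lit 64) (@Lb.g g11 (@Lb.r r2337 (@Lb.r r1363 (@Lb.r r2658 (@Lb.r r36 (@Lb.d (nat_lit 0) (nat_lit 66) (nat_lit 84) (@Lb.t (@Lb.fm (nat_lit 3) t1242)))))))))
noncomputable def l37963 : Lb := (@Lb.d (nat_lit 129) (nat_lit 516) (nat_lit 128) (@Lb.g g8 (@Lb.g g9 (@Lb.g g10 (@Lb.g g11 (@Lb.r r419 (@Lb.r r344 (@Lb.r r1429 (@Lb.r r1110 (@Lb.r r2212 (@Lb.d (nat_lit 33) (nat_lit 105) (nat_lit 673) (@Lb.fm (nat_lit 9) t1976))))))))))))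
noncomputable def l37964 : Lb := (@Lb.d (nat_lit 346) (nat_lit 290) (nat_lit 534) (@Lb.r r89 (@Lb.r r408 (@Lb.r r330 (@Lb.g g11 (@Lb.g g5 (@Lb.g g4 (@Lb.d (nat_lit 17) (nat_lit 5) (nat_lit 384) (@Lb.r r578 (@Lb.t (@Lb.fp (nat_lit 9) t22)))))))))))
noncomputable def l37965 : Lb := (@Lb.r r82 (@Lb.r r275 (@Lb.g g9 (@Lb.r r1315 (@Lb.r r1122 (@Lb.r r1041 (@Lb.d (nat_lit 0) (nat_lit 517) (nat_lit 1) (@Lb.t (@Lb.fp (nat_lit 3) t4071)))))))))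
noncomputable def l37966 : Lb := (@Lb.d (nat_lit 130) (nat_lit 290) (nat_lit 0) (@Lb.g g8 (@Lb.g g9 (@Lb.g g10 (@Lb.r r535 (@Lb.r r1352 (@Lb.r r1126 (@Lb.r r2149 (@Lb.d (nat_lit 656) (nat_lit 24) (nat_lit 130) (@Lb.t (@Lb.fp (nat_lit 9) t2503)))))))))))
noncomputable def l37967 : Lb := (@Lb.r r21 (@Lb.d (nat_lit 146) (nat_lit 256) (nat_lit 128) (@Lb.g g8 (@Lb.g g10 (@Lb.g g11 (@Lb.r r387 (@Lb.r r2628 (@Lb.r r74 (@Lb.r r25 (@Lb.d (nat_lit 658) (nat_lit 10) (nat_lit 321) (@Lb.t (@Lb.fm (nat_lit 9) t6662))))))))))))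
noncomputable def l37968 : Lb := (@Lb.d (nat_lit 0) (nat_lit 258) (nat_lit 130) (@Lb.g g9 (@Lb.g g10 (@Lb.g g11 (@Lb.r r1443 (@Lb.r r536 (@Lb.r r357 (@Lb.r r154 (@Lb.r r132 (@Lb.d (nat_lit 581) (nat_lit 130) (nat_lit 18) (@Lb.t (@Lb.fp (nat_lit 9) t651))))))))))))
noncomputable def l37969 : Lb := (@Lb.d (nat_lit 0) (nat_lit 2) (nat_lit 130) (@Lb.g g9 (@Lb.g g10 (@Lb.g g11 (@Lb.r r1443 (@Lb.r r536 (@Lb.r r357 (@Lb.r r154 (@Lb.r r132 (@Lb.d (nat_lit 582) (nat_lit 130) (nat_lit 18) (@Lb.t (@Lb.fp (nat_lit 9) t651))))))))))))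
noncomputable def l37970 : Lb := (@Lb.r r273 (@Lb.d (nat_lit 10) (nat_lit 0) (nat_lit 642) (@Lb.g g8 (@Lb.g g10 (@Lb.g g7 (@Lb.r r386 (@Lb.r r149 (@Lb.r r1192 (@Lb.d (nat_lit 86) (nat_lit 134) (nat_lit 586) (@Lb.t (@Lb.fp (nat_lit 9) t6663)))))))))))
noncomputable def l37971 : Lb := (@Lb.d (nat_lit 0) (nat_lit 273) (nat_lit 2) (@Lb.g g9 (@Lb.g g10 (@Lb.g g11 (@Lb.r r2387 (@Lb.r r386 (@Lb.r r2137 (@Lb.r r24 (@Lb.d (nat_lit 16) (nat_lit 0) (nat_lit 361) (@Lb.t (@Lb.fm (nat_lit 9) t1937)))))))))))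
noncomputable def l37972 : Lb := (@Lb.r r323 (@Lb.g g6 (@Lb.r r1411 (@Lb.r r97 (@Lb.r r406 (@Lb.r r1096 (@Lb.d (nat_lit 266) (nat_lit 2) (nat_lit 320) (@Lb.t (@Lb.fp (nat_lit 3) t807)))))))))
noncomputable def l37973 : Lb := (@Lb.d (nat_lit 2) (nat_lit 33) (nat_lit 66) (@Lb.g g8 (@Lb.g g9 (@Lb.g g10 (@Lb.g g11 (@Lb.r r1699 (@Lb.r r1192 (@Lb.r r1642 (@Lb.r r1561 (@Lb.d (nat_lit 420) (nat_lit 41) (nat_lit 344) (@Lb.fp (nat_lit 9) t243)))))))))))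
noncomputable def l37974 : Lb := (@Lb.d (nat_lit 136) (nat_lit 9) (nat_lit 64) (@Lb.g g9 (@Lb.g g11 (@Lb.r r1114 (@Lb.r r260 (@Lb.r r603 (@Lb.r r1425 (@Lb.d (nat_lit 72) (nat_lit 153) (nat_lit 137) (@Lb.fp (nat_lit 3) t322)))))))))
noncomputable def l37975 : Lb := (@Lb.r r323 (@Lb.g g6 (@Lb.r r1626 (@Lb.r r584 (@Lb.r r299 (@Lb.r r289 (@Lb.d (nat_lit 0) (nat_lit 386) (nat_lit 256) (@Lb.t (@Lb.fm (nat_lit 3) t259)))))))))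
noncomputable def l37976 : Lb := (@Lb.r r70 (@Lb.d (nat_lit 137) (nat_lit 257) (nat_lit 72) (@Lb.g g8 (@Lb.g g9 (@Lb.g g11 (@Lb.r r2148 (@Lb.r r74 (@Lb.r r37 (@Lb.d (nat_lit 528) (nat_lit 132) (nat_lit 33) (@Lb.t (@Lb.fp (nat_lit 9) t164)))))))))))
noncomputable def l37977 : Lb := (@Lb.d (nat_lit 0) (nat_lit 2) (nat_lit 0) (@Lb.g g9 (@Lb.g g6 (@Lb.r r2657 (@Lb.d (nat_lit 5) (nat_lit 90) (nat_lit 128) (@Lb.fm (nat_lit 3) t3749))))))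
noncomputable def l37978 : Lb := (@Lb.d (nat_lit 0) (nat_lit 516) (nat_lit 1) (@Lb.g g6 (@Lb.r r1427 (@Lb.r r101 (@Lb.d (nat_lit 392) (nat_lit 145) (nat_lit 577) (@Lb.t (@Lb.fp (nat_lit 3) t983)))))))
noncomputable def l37979 : Lb := (@Lb.d (nat_lit 130) (nat_lit 2) (nat_lit 2) (@Lb.g g8 (@Lb.g g9 (@Lb.g g10 (@Lb.r r2595 (@Lb.r r2705 (@Lb.r r598 (@Lb.r r392 (@Lb.d (nat_lit 88) (nat_lit 130) (nat_lit 330) (@Lb.t (@Lb.fm (nat_lit 9) t284)))))))))))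
noncomputable def l37980 : Lb := (@Lb.d (nat_lit 2) (nat_lit 2) (nat_lit 0) (@Lb.g g8 (@Lb.g g9 (@Lb.g g10 (@Lb.g g11 (@Lb.r r2595 (@Lb.r r164 (@Lb.r r614 (@Lb.r r597 (@Lb.r r2212 (@Lb.d (nat_lit 129) (nat_lit 0) (nat_lit 330) (@Lb.fm (nat_lit 9) t284))))))))))))
noncomputable def l37981 : Lb := (@Lb.d (nat_lit 0) (nat_lit 512) (nat_lit 136) (@Lb.g g7 (@Lb.r r1670 (@Lb.r r647 (@Lb.r r24 (@Lb.r r101 (@Lb.d (nat_lit 10) (nat_lit 97) (nat_lit 80) (@Lb.t (@Lb.fm (nat_lit 3) t1345)))))))))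
noncomputable def l37982 : Lb := (@Lb.r r323 (@Lb.d (nat_lit 8) (nat_lit 514) (nat_lit 18) (@Lb.g g8 (@Lb.g g9 (@Lb.g g10 (@Lb.r r1689 (@Lb.r r2459 (@Lb.r r2436 (@Lb.d (nat_lit 146) (nat_lit 0) (nat_lit 616) (@Lb.t (@Lb.fm (nat_lit 9) t1773)))))))))))
noncomputable def l37983 : Lb := (@Lb.d (nat_lit 41) (nat_lit 266) (nat_lit 0) (@Lb.g g8 (@Lb.g g9 (@Lb.r r582 (@Lb.r r1432 (@Lb.r r2453 (@Lb.d (nat_lit 514) (nat_lit 128) (nat_lit 682) (@Lb.fp (nat_lit 3) t6373))))))))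
noncomputable def l37984 : Lb := (@Lb.d (nat_lit 9) (nat_lit 518) (nat_lit 128) (@Lb.g g8 (@Lb.g g9 (@Lb.g g10 (@Lb.g g11 (@Lb.r r2218 (@Lb.r r388 (@Lb.r r2347 (@Lb.r r1321 (@Lb.r r36 (@Lb.d (nat_lit 160) (nat_lit 66) (nat_lit 354) (@Lb.fp (nat_lit 9) t6664))))))))))))
noncomputable def l37985 : Lb := (@Lb.d (nat_lit 128) (nat_lit 544) (nat_lit 136) (@Lb.g g7 (@Lb.r r1706 (@Lb.r r2729 (@Lb.r r680 (@Lb.r r363 (@Lb.d (nat_lit 89) (nat_lit 21) (nat_lit 160) (@Lb.t (@Lb.fp (nat_lit 3) t386)))))))))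
noncomputable def l37986 : Lb := (@Lb.d (nat_lit 2) (nat_lit 262) (nat_lit 69) (@Lb.r r289 (@Lb.r r279 (@Lb.r r612 (@Lb.g g7 (@Lb.g g10 (@Lb.g g5 (@Lb.d (nat_lit 20) (nat_lit 1) (nat_lit 66) (@Lb.t (@Lb.fp (nat_lit 9) t983))))))))))
noncomputable def l37987 : Lb := (@Lb.d (nat_lit 522) (nat_lit 164) (nat_lit 550) (@Lb.r r20 (@Lb.r r25 (@Lb.r r148 (@Lb.r r386 (@Lb.g g11 (@Lb.g g6 (@Lb.g g5 (@Lb.g g4 (@Lb.d (nat_lit 0) (nat_lit 1) (nat_lit 129) (@Lb.fp (nat_lit 9) t2493)))))))))))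
noncomputable def l37988 : Lb := (@Lb.d (nat_lit 9) (nat_lit 0) (nat_lit 0) (@Lb.g g8 (@Lb.r r1045 (@Lb.r r36 (@Lb.t (@Lb.fp (nat_lit 3) t2))))))
noncomputable def l37989 : Lb := (@Lb.d (nat_lit 4) (nat_lit 1) (nat_lit 74) (@Lb.g g9 (@Lb.g g10 (@Lb.g g11 (@Lb.r r610 (@Lb.r r579 (@Lb.d (nat_lit 8) (nat_lit 32) (nat_lit 74) (@Lb.t (@Lb.fp (nat_lit 9) t51)))))))))
noncomputable def l37990 : Lb := (@Lb.r r280 (@Lb.r r551 (@Lb.r r402 (@Lb.r r553 (@Lb.r r20 (@Lb.d (nat_lit 128) (nat_lit 656) (nat_lit 0) (@Lb.fp (nat_lit 1) t240)))))))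
noncomputable def l37991 : Lb := (@Lb.d (nat_lit 10) (nat_lit 512) (nat_lit 0) (@Lb.g g4 (@Lb.d (nat_lit 6) (nat_lit 0) (nat_lit 0) (@Lb.t (@Lb.fm (nat_lit 3) t2)))))
noncomputable def l37992 : Lb := (@Lb.r r341 (@Lb.r r675 (@Lb.r r658 (@Lb.r r81 (@Lb.d (nat_lit 64) (nat_lit 128) (nat_lit 394) (@Lb.fp (nat_lit 1) t242))))))
noncomputable def l37993 : Lb := (@Lb.d (nat_lit 41) (nat_lit 520) (nat_lit 132) (@Lb.g g8 (@Lb.g g10 (@Lb.g g11 (@Lb.r r1361 (@Lb.r r2727 (@Lb.r r1638 (@Lb.r r2308 (@Lb.d (nat_lit 601) (nat_lit 137) (nat_lit 673) (@Lb.t (@Lb.fp (nat_lit 9) t6252)))))))))))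
noncomputable def l37994 : Lb := (@Lb.d (nat_lit 96) (nat_lit 2) (nat_lit 4) (@Lb.g g8 (@Lb.g g9 (@Lb.g g10 (@Lb.g g11 (@Lb.r r2691 (@Lb.r r2665 (@Lb.r r1686 (@Lb.r r328 (@Lb.d (nat_lit 676) (nat_lit 17) (nat_lit 577) (@Lb.fp (nat_lit 9) t4814)))))))))))
noncomputable def l37995 : Lb := (@Lb.d (nat_lit 161) (nat_lit 2) (nat_lit 2) (@Lb.g g8 (@Lb.g g9 (@Lb.g g10 (@Lb.g g11 (@Lb.r r1667 (@Lb.r r617 (@Lb.r r662 (@Lb.r r1352 (@Lb.d (nat_lit 165) (nat_lit 81) (nat_lit 337) (@Lb.fp (nat_lit 9) t270)))))))))))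
noncomputable def l37996 : Lb := (@Lb.d (nat_lit 161) (nat_lit 514) (nat_lit 68) (@Lb.g g8 (@Lb.g g9 (@Lb.g g10 (@Lb.g g11 (@Lb.r r1667 (@Lb.r r617 (@Lb.r r662 (@Lb.r r1352 (@Lb.d (nat_lit 165) (nat_lit 81) (nat_lit 337) (@Lb.fp (nat_lit 9) t270)))))))))))
noncomputable def l37997 : Lb := (@Lb.r r279 (@Lb.d (nat_lit 2) (nat_lit 517) (nat_lit 0) (@Lb.g g8 (@Lb.g g9 (@Lb.g g10 (@Lb.r r619 (@Lb.r r2634 (@Lb.r r1428 (@Lb.r r681 (@Lb.d (nat_lit 656) (nat_lit 16) (nat_lit 661) (@Lb.t (@Lb.fm (nat_lit 9) t113))))))))))))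
noncomputable def l37998 : Lb := (@Lb.r r279 (@Lb.d (nat_lit 2) (nat_lit 261) (nat_lit 0) (@Lb.g g8 (@Lb.g g9 (@Lb.g g10 (@Lb.r r675 (@Lb.r r2184 (@Lb.r r1610 (@Lb.r r2473 (@Lb.d (nat_lit 408) (nat_lit 128) (nat_lit 596) (@Lb.t (@Lb.fp (nat_lit 9) t3100))))))))))))
noncomputable def l37999 : Lb := (@Lb.d (nat_lit 9) (nat_lit 389) (nat_lit 64) (@Lb.g g8 (@Lb.g g5 (@Lb.g g10 (@Lb.g g7 (@Lb.r r2458 (@Lb.r r2436 (@Lb.d (nat_lit 97) (nat_lit 1) (nat_lit 354) (@Lb.fm (nat_lit 9) t5853)))))))))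
noncomputable def l38000 : Lb := (@Lb.d (nat_lit 128) (nat_lit 552) (nat_lit 128) (@Lb.g g8 (@Lb.g g10 (@Lb.g g11 (@Lb.r r2584 (@Lb.r r2341 (@Lb.r r603 (@Lb.r r2370 (@Lb.d (nat_lit 616) (nat_lit 133) (nat_lit 21) (@Lb.t (@Lb.fp (nat_lit 9) t6665)))))))))))
noncomputable def l38001 : Lb := (@Lb.d (nat_lit 10) (nat_lit 24) (nat_lit 425) (@Lb.r r2705 (@Lb.r r2394 (@Lb.r r1124 (@Lb.g g11 (@Lb.g g5 (@Lb.d (nat_lit 4) (nat_lit 1) (nat_lit 0) (@Lb.fp (nat_lit 3) t6666))))))))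
noncomputable def l38002 : Lb := (@Lb.d (nat_lit 168) (nat_lit 597) (nat_lit 512) (@Lb.r r164 (@Lb.r r289 (@Lb.r r422 (@Lb.g g11 (@Lb.g g4 (@Lb.d (nat_lit 16) (nat_lit 0) (nat_lit 132) (@Lb.r r578 (@Lb.fp (nat_lit 3) t4933)))))))))
noncomputable def l38003 : Lb := (@Lb.d (nat_lit 664) (nat_lit 64) (nat_lit 160) (@Lb.r r277 (@Lb.r r1355 (@Lb.r r1348 (@Lb.r r618 (@Lb.g g6 (@Lb.g g8 (@Lb.r r387 (@Lb.fp (nat_lit 3) t6667)))))))))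
noncomputable def l38004 : Lb := (@Lb.d (nat_lit 1) (nat_lit 256) (nat_lit 2) (@Lb.g g8 (@Lb.g g10 (@Lb.r r2579 (@Lb.r r2472 (@Lb.r r2122 (@Lb.r r289 (@Lb.d (nat_lit 362) (nat_lit 130) (nat_lit 593) (@Lb.fp (nat_lit 3) t4495)))))))))
noncomputable def l38005 : Lb := (@Lb.d (nat_lit 132) (nat_lit 338) (nat_lit 640) (@Lb.r r68 (@Lb.r r289 (@Lb.r r426 (@Lb.r r136 (@Lb.g g11 (@Lb.g g6 (@Lb.g g4 (@Lb.d (nat_lit 0) (nat_lit 0) (nat_lit 129) (@Lb.t (@Lb.fp (nat_lit 9) t1436)))))))))))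
noncomputable def l38006 : Lb := (@Lb.r r70 (@Lb.d (nat_lit 40) (nat_lit 288) (nat_lit 0) (@Lb.g g8 (@Lb.g g5 (@Lb.r r1690 (@Lb.r r1703 (@Lb.r r2392 (@Lb.d (nat_lit 421) (nat_lit 150) (nat_lit 166) (@Lb.fm (nat_lit 3) t283)))))))))
noncomputable def l38007 : Lb := (@Lb.d (nat_lit 10) (nat_lit 278) (nat_lit 424) (@Lb.r r2705 (@Lb.r r2394 (@Lb.r r1124 (@Lb.g g11 (@Lb.g g5 (@Lb.d (nat_lit 4) (nat_lit 1) (nat_lit 0) (@Lb.fp (nat_lit 3) t6668))))))))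
noncomputable def l38008 : Lb := (@Lb.d (nat_lit 128) (nat_lit 272) (nat_lit 384) (@Lb.g g10 (@Lb.g g11 (@Lb.r r1304 (@Lb.r r101 (@Lb.r r2194 (@Lb.d (nat_lit 537) (nat_lit 2) (nat_lit 128) (@Lb.fp (nat_lit 3) t2885))))))))
noncomputable def l38009 : Lb := (@Lb.d (nat_lit 536) (nat_lit 150) (nat_lit 100) (@Lb.r r2148 (@Lb.r r386 (@Lb.r r339 (@Lb.g g7 (@Lb.g g6 (@Lb.g g5 (@Lb.d (nat_lit 0) (nat_lit 0) (nat_lit 65) (@Lb.t (@Lb.fm (nat_lit 9) t5845))))))))))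
noncomputable def l38010 : Lb := (@Lb.d (nat_lit 26) (nat_lit 274) (nat_lit 0) (@Lb.g g8 (@Lb.g g9 (@Lb.g g10 (@Lb.g g11 (@Lb.r r1675 (@Lb.r r1610 (@Lb.r r293 (@Lb.r r2072 (@Lb.d (nat_lit 84) (nat_lit 89) (nat_lit 105) (@Lb.fm (nat_lit 9) t4965)))))))))))
noncomputable def l38011 : Lb := (@Lb.d (nat_lit 2) (nat_lit 585) (nat_lit 129) (@Lb.g g8 (@Lb.g g9 (@Lb.g g10 (@Lb.g g11 (@Lb.r r2475 (@Lb.r r2442 (@Lb.r r2436 (@Lb.d (nat_lit 97) (nat_lit 8) (nat_lit 546) (@Lb.fm (nat_lit 9) t3577))))))))))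
noncomputable def l38012 : Lb := (@Lb.d (nat_lit 2) (nat_lit 9) (nat_lit 129) (@Lb.g g8 (@Lb.g g9 (@Lb.g g10 (@Lb.g g11 (@Lb.r r169 (@Lb.r r2154 (@Lb.r r612 (@Lb.r r1287 (@Lb.r r2564 (@Lb.d (nat_lit 2) (nat_lit 80) (nat_lit 162) (@Lb.fm (nat_lit 9) t868))))))))))))
noncomputable def l38013 : Lb := (@Lb.d (nat_lit 298) (nat_lit 597) (nat_lit 80) (@Lb.r r386 (@Lb.r r339 (@Lb.r r1557 (@Lb.g g7 (@Lb.g g6 (@Lb.g g5 (@Lb.g g4 (@Lb.d (nat_lit 1) (nat_lit 1) (nat_lit 129) (@Lb.fm (nat_lit 9) t1490))))))))))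
noncomputable def l38014 : Lb := (@Lb.d (nat_lit 2) (nat_lit 514) (nat_lit 2) (@Lb.g g8 (@Lb.g g9 (@Lb.g g10 (@Lb.r r2212 (@Lb.r r1158 (@Lb.r r97 (@Lb.d (nat_lit 17) (nat_lit 73) (nat_lit 16) (@Lb.t (@Lb.fm (nat_lit 9) t2551))))))))))
noncomputable def l38015 : Lb := (@Lb.d (nat_lit 69) (nat_lit 296) (nat_lit 96) (@Lb.r r276 (@Lb.r r146 (@Lb.r r2129 (@Lb.r r267 (@Lb.g g6 (@Lb.g g5 (@Lb.g g4 (@Lb.d (nat_lit 65) (nat_lit 6) (nat_lit 2) (@Lb.t (@Lb.fm (nat_lit 9) t108)))))))))))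
noncomputable def l38016 : Lb := (@Lb.d (nat_lit 9) (nat_lit 518) (nat_lit 128) (@Lb.g g8 (@Lb.g g9 (@Lb.g g10 (@Lb.g g11 (@Lb.r r610 (@Lb.r r404 (@Lb.r r619 (@Lb.r r537 (@Lb.r r516 (@Lb.d (nat_lit 0) (nat_lit 9) (nat_lit 130) (@Lb.fm (nat_lit 9) t984))))))))))))
noncomputable def l38017 : Lb := (@Lb.d (nat_lit 32) (nat_lit 512) (nat_lit 74) (@Lb.g g10 (@Lb.g g11 (@Lb.r r1384 (@Lb.r r2471 (@Lb.r r2449 (@Lb.r r2386 (@Lb.d (nat_lit 278) (nat_lit 146) (nat_lit 662) (@Lb.fp (nat_lit 3) t40)))))))))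
noncomputable def l38018 : Lb := (@Lb.d (nat_lit 128) (nat_lit 256) (nat_lit 64) (@Lb.g g10 (@Lb.g g11 (@Lb.r r586 (@Lb.r r24 (@Lb.r r405 (@Lb.r r611 (@Lb.d (nat_lit 0) (nat_lit 154) (nat_lit 394) (@Lb.fm (nat_lit 3) t242)))))))))
noncomputable def l38019 : Lb := (@Lb.d (nat_lit 162) (nat_lit 258) (nat_lit 0) (@Lb.g g8 (@Lb.g g9 (@Lb.r r598 (@Lb.r r425 (@Lb.r r599 (@Lb.r r424 (@Lb.d (nat_lit 150) (nat_lit 98) (nat_lit 73) (@Lb.fp (nat_lit 3) t21)))))))))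
noncomputable def l38020 : Lb := (@Lb.d (nat_lit 2) (nat_lit 2) (nat_lit 66) (@Lb.g g8 (@Lb.g g9 (@Lb.g g10 (@Lb.g g11 (@Lb.r r683 (@Lb.r r2666 (@Lb.r r25 (@Lb.d (nat_lit 9) (nat_lit 169) (nat_lit 409) (@Lb.fm (nat_lit 9) t591))))))))))
noncomputable def l38021 : Lb := (@Lb.d (nat_lit 2) (nat_lit 2) (nat_lit 66) (@Lb.g g8 (@Lb.g g9 (@Lb.g g10 (@Lb.g g7 (@Lb.r r386 (@Lb.r r97 (@Lb.r r2584 (@Lb.d (nat_lit 650) (nat_lit 169) (nat_lit 265) (@Lb.fp (nat_lit 9) t3305))))))))))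
noncomputable def l38022 : Lb := (@Lb.d (nat_lit 2) (nat_lit 514) (nat_lit 66) (@Lb.g g8 (@Lb.g g9 (@Lb.g g10 (@Lb.g g7 (@Lb.r r386 (@Lb.r r2664 (@Lb.r r25 (@Lb.d (nat_lit 522) (nat_lit 169) (nat_lit 5) (@Lb.fm (nat_lit 9) t1403))))))))))
noncomputable def l38023 : Lb := (@Lb.d (nat_lit 145) (nat_lit 514) (nat_lit 384) (@Lb.g g8 (@Lb.g g9 (@Lb.g g10 (@Lb.g g11 (@Lb.r r1602 (@Lb.r r409 (@Lb.r r388 (@Lb.d (nat_lit 105) (nat_lit 0) (nat_lit 330) (@Lb.fp (nat_lit 9) t1044))))))))))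
noncomputable def l38024 : Lb := (@Lb.d (nat_lit 642) (nat_lit 258) (nat_lit 2) (@Lb.g g8 (@Lb.g g9 (@Lb.g g10 (@Lb.r r2651 (@Lb.r r106 (@Lb.r r25 (@Lb.d (nat_lit 650) (nat_lit 9) (nat_lit 146) (@Lb.t (@Lb.fp (nat_lit 9) t5085))))))))))
noncomputable def l38025 : Lb := (@Lb.r r21 (@Lb.d (nat_lit 0) (nat_lit 0) (nat_lit 66) (@Lb.g g8 (@Lb.g g10 (@Lb.g g7 (@Lb.r r386 (@Lb.r r1553 (@Lb.r r72 (@Lb.d (nat_lit 352) (nat_lit 5) (nat_lit 277) (@Lb.t (@Lb.fp (nat_lit 9) t4189)))))))))))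
noncomputable def l38026 : Lb := (@Lb.r r322 (@Lb.d (nat_lit 0) (nat_lit 514) (nat_lit 576) (@Lb.g g8 (@Lb.g g9 (@Lb.g g7 (@Lb.r r417 (@Lb.r r98 (@Lb.r r1096 (@Lb.d (nat_lit 10) (nat_lit 154) (nat_lit 20) (@Lb.t (@Lb.fp (nat_lit 9) t5087)))))))))))
noncomputable def l38027 : Lb := (@Lb.d (nat_lit 2) (nat_lit 88) (nat_lit 650) (@Lb.r r402 (@Lb.r r101 (@Lb.g g8 (@Lb.d (nat_lit 10) (nat_lit 0) (nat_lit 0) (@Lb.t (@Lb.fp (nat_lit 3) t2611)))))))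
noncomputable def l38028 : Lb := (@Lb.d (nat_lit 2) (nat_lit 9) (nat_lit 129) (@Lb.g g8 (@Lb.g g9 (@Lb.g g10 (@Lb.g g11 (@Lb.r r427 (@Lb.r r424 (@Lb.r r106 (@Lb.r r97 (@Lb.d (nat_lit 296) (nat_lit 9) (nat_lit 104) (@Lb.fp (nat_lit 9) t6669)))))))))))
noncomputable def l38029 : Lb := (@Lb.r r323 (@Lb.d (nat_lit 130) (nat_lit 578) (nat_lit 2) (@Lb.g g8 (@Lb.g g9 (@Lb.g g10 (@Lb.r r1623 (@Lb.r r2146 (@Lb.r r388 (@Lb.d (nat_lit 418) (nat_lit 73) (nat_lit 665) (@Lb.t (@Lb.fp (nat_lit 9) t6670)))))))))))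
noncomputable def l38030 : Lb := (@Lb.r r82 (@Lb.r r279 (@Lb.d (nat_lit 2) (nat_lit 1) (nat_lit 0) (@Lb.g g8 (@Lb.g g5 (@Lb.r r2339 (@Lb.r r98 (@Lb.r r1048 (@Lb.d (nat_lit 522) (nat_lit 66) (nat_lit 0) (@Lb.fm (nat_lit 3) t5841))))))))))
noncomputable def l38031 : Lb := (@Lb.d (nat_lit 277) (nat_lit 681) (nat_lit 328) (@Lb.r r1178 (@Lb.r r1691 (@Lb.r r1381 (@Lb.g g7 (@Lb.g g6 (@Lb.g g4 (@Lb.d (nat_lit 8) (nat_lit 4) (nat_lit 134) (@Lb.t (@Lb.fm (nat_lit 9) t4027))))))))))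
noncomputable def l38032 : Lb := (@Lb.r r275 (@Lb.d (nat_lit 2) (nat_lit 516) (nat_lit 0) (@Lb.g g8 (@Lb.g g9 (@Lb.g g10 (@Lb.r r1707 (@Lb.r r1610 (@Lb.r r2469 (@Lb.d (nat_lit 100) (nat_lit 0) (nat_lit 665) (@Lb.t (@Lb.fm (nat_lit 9) t175)))))))))))
noncomputable def l38033 : Lb := (@Lb.d (nat_lit 66) (nat_lit 69) (nat_lit 610) (@Lb.r r1284 (@Lb.r r273 (@Lb.r r1379 (@Lb.r r341 (@Lb.g g7 (@Lb.g g6 (@Lb.g g5 (@Lb.g g4 (@Lb.d (nat_lit 1) (nat_lit 17) (nat_lit 105) (@Lb.fp (nat_lit 9) t1537)))))))))))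
noncomputable def l38034 : Lb := (@Lb.d (nat_lit 2) (nat_lit 289) (nat_lit 132) (@Lb.g g8 (@Lb.g g9 (@Lb.g g10 (@Lb.g g11 (@Lb.r r1691 (@Lb.r r1642 (@Lb.r r1561 (@Lb.d (nat_lit 293) (nat_lit 2) (nat_lit 25) (@Lb.fm (nat_lit 9) t175))))))))))
noncomputable def l38035 : Lb := (@Lb.d (nat_lit 2) (nat_lit 661) (nat_lit 641) (@Lb.r r1346 (@Lb.r r2323 (@Lb.r r549 (@Lb.g g7 (@Lb.g g8 (@Lb.d (nat_lit 584) (nat_lit 0) (nat_lit 64) (@Lb.r r586 (@Lb.r r25 (@Lb.fm (nat_lit 3) t344))))))))))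
noncomputable def l38036 : Lb := (@Lb.r r82 (@Lb.d (nat_lit 37) (nat_lit 512) (nat_lit 128) (@Lb.g g8 (@Lb.g g9 (@Lb.g g11 (@Lb.r r363 (@Lb.r r610 (@Lb.r r1129 (@Lb.r r2152 (@Lb.d (nat_lit 385) (nat_lit 21) (nat_lit 406) (@Lb.t (@Lb.fm (nat_lit 9) t2774))))))))))))
noncomputable def l38037 : Lb := (@Lb.d (nat_lit 0) (nat_lit 516) (nat_lit 5) (@Lb.g g9 (@Lb.g g10 (@Lb.g g11 (@Lb.r r2705 (@Lb.r r1691 (@Lb.r r1688 (@Lb.r r1610 (@Lb.d (nat_lit 609) (nat_lit 80) (nat_lit 138) (@Lb.t (@Lb.fm (nat_lit 9) t50)))))))))))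
noncomputable def l38038 : Lb := (@Lb.r r515 (@Lb.r r130 (@Lb.r r33 (@Lb.r r36 (@Lb.d (nat_lit 5) (nat_lit 134) (nat_lit 70) (@Lb.fm (nat_lit 1) t45))))))
noncomputable def l38039 : Lb := (@Lb.d (nat_lit 0) (nat_lit 260) (nat_lit 5) (@Lb.g g9 (@Lb.g g10 (@Lb.g g11 (@Lb.r r2705 (@Lb.r r1691 (@Lb.r r1688 (@Lb.r r1610 (@Lb.d (nat_lit 610) (nat_lit 80) (nat_lit 138) (@Lb.t (@Lb.fm (nat_lit 9) t50)))))))))))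
noncomputable def l38040 : Lb := (@Lb.r r323 (@Lb.d (nat_lit 0) (nat_lit 0) (nat_lit 18) (@Lb.g g6 (@Lb.r r579 (@Lb.r r33 (@Lb.r r36 (@Lb.d (nat_lit 1) (nat_lit 128) (nat_lit 84) (@Lb.t (@Lb.fm (nat_lit 3) t2)))))))))
noncomputable def l38041 : Lb := (@Lb.d (nat_lit 2) (nat_lit 4) (nat_lit 5) (@Lb.g g8 (@Lb.g g9 (@Lb.g g10 (@Lb.g g11 (@Lb.r r2705 (@Lb.r r1687 (@Lb.r r2404 (@Lb.r r1610 (@Lb.d (nat_lit 610) (nat_lit 85) (nat_lit 8) (@Lb.fm (nat_lit 9) t98)))))))))))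
noncomputable def l38042 : Lb := (@Lb.d (nat_lit 612) (nat_lit 166) (nat_lit 340) (@Lb.r r2452 (@Lb.r r97 (@Lb.r r1355 (@Lb.g g10 (@Lb.g g4 (@Lb.d (nat_lit 66) (nat_lit 8) (nat_lit 5) (@Lb.r r387 (@Lb.r r25 (@Lb.fm (nat_lit 3) t1))))))))))
noncomputable def l38043 : Lb := (@Lb.d (nat_lit 664) (nat_lit 90) (nat_lit 272) (@Lb.r r601 (@Lb.r r408 (@Lb.r r330 (@Lb.g g5 (@Lb.g g4 (@Lb.d (nat_lit 16) (nat_lit 5) (nat_lit 0) (@Lb.fp (nat_lit 3) t2302))))))))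
noncomputable def l38044 : Lb := (@Lb.d (nat_lit 0) (nat_lit 2) (nat_lit 168) (@Lb.r r20 (@Lb.r r609 (@Lb.r r359 (@Lb.r r644 (@Lb.g g6 (@Lb.d (nat_lit 16) (nat_lit 0) (nat_lit 17) (@Lb.t (@Lb.fp (nat_lit 3) t1043)))))))))
noncomputable def l38045 : Lb := (@Lb.r r323 (@Lb.d (nat_lit 8) (nat_lit 338) (nat_lit 2) (@Lb.g g9 (@Lb.g g10 (@Lb.r r2467 (@Lb.r r2146 (@Lb.d (nat_lit 658) (nat_lit 73) (nat_lit 416) (@Lb.fm (nat_lit 3) t6671))))))))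
noncomputable def l38046 : Lb := (@Lb.d (nat_lit 354) (nat_lit 90) (nat_lit 32) (@Lb.r r1354 (@Lb.r r1384 (@Lb.r r2711 (@Lb.g g7 (@Lb.g g6 (@Lb.g g9 (@Lb.d (nat_lit 0) (nat_lit 70) (nat_lit 68) (@Lb.t (@Lb.fm (nat_lit 9) t4158))))))))))
noncomputable def l38047 : Lb := (@Lb.d (nat_lit 0) (nat_lit 346) (nat_lit 581) (@Lb.r r402 (@Lb.g g9 (@Lb.g g4 (@Lb.d (nat_lit 1) (nat_lit 137) (nat_lit 0) (@Lb.fm (nat_lit 3) t237))))))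
noncomputable def l38048 : Lb := (@Lb.d (nat_lit 1) (nat_lit 602) (nat_lit 581) (@Lb.r r402 (@Lb.g g9 (@Lb.g g4 (@Lb.d (nat_lit 2) (nat_lit 137) (nat_lit 0) (@Lb.fm (nat_lit 3) t237))))))
noncomputable def l38049 : Lb := (@Lb.d (nat_lit 354) (nat_lit 602) (nat_lit 32) (@Lb.r r1354 (@Lb.r r1384 (@Lb.r r2711 (@Lb.g g7 (@Lb.g g6 (@Lb.g g9 (@Lb.d (nat_lit 0) (nat_lit 70) (nat_lit 132) (@Lb.t (@Lb.fm (nat_lit 9) t3916))))))))))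
noncomputable def l38050 : Lb := (@Lb.r r82 (@Lb.d (nat_lit 0) (nat_lit 546) (nat_lit 64) (@Lb.g g9 (@Lb.g g11 (@Lb.r r1575 (@Lb.r r386 (@Lb.r r2136 (@Lb.r r1061 (@Lb.d (nat_lit 409) (nat_lit 102) (nat_lit 256) (@Lb.fm (nat_lit 3) t1027))))))))))
noncomputable def l38051 : Lb := (@Lb.d (nat_lit 4) (nat_lit 5) (nat_lit 74) (@Lb.g g8 (@Lb.g g9 (@Lb.g g10 (@Lb.g g11 (@Lb.r r1699 (@Lb.r r164 (@Lb.r r2709 (@Lb.r r2198 (@Lb.r r2084 (@Lb.d (nat_lit 289) (nat_lit 162) (nat_lit 418) (@Lb.fp (nat_lit 9) t1161))))))))))))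
noncomputable def l38052 : Lb := (@Lb.d (nat_lit 4) (nat_lit 520) (nat_lit 130) (@Lb.g g8 (@Lb.g g9 (@Lb.g g10 (@Lb.g g11 (@Lb.r r164 (@Lb.r r2470 (@Lb.r r2651 (@Lb.r r2453 (@Lb.r r1572 (@Lb.d (nat_lit 610) (nat_lit 130) (nat_lit 514) (@Lb.fp (nat_lit 9) t429))))))))))))
noncomputable def l38053 : Lb := (@Lb.g g8 (@Lb.r r1178 (@Lb.r r1381 (@Lb.r r2579 (@Lb.r r1156 (@Lb.d (nat_lit 98) (nat_lit 5) (nat_lit 298) (@Lb.t (@Lb.fm (nat_lit 3) t6672))))))))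
noncomputable def l38054 : Lb := (@Lb.d (nat_lit 0) (nat_lit 264) (nat_lit 2) (@Lb.g g8 (@Lb.g g10 (@Lb.r r1427 (@Lb.r r101 (@Lb.d (nat_lit 266) (nat_lit 66) (nat_lit 2) (@Lb.fp (nat_lit 3) t240)))))))
noncomputable def l38055 : Lb := (@Lb.r r275 (@Lb.d (nat_lit 4) (nat_lit 264) (nat_lit 41) (@Lb.g g8 (@Lb.g g9 (@Lb.g g10 (@Lb.r r2436 (@Lb.r r2347 (@Lb.r r1433 (@Lb.d (nat_lit 265) (nat_lit 2) (nat_lit 258) (@Lb.t (@Lb.fm (nat_lit 9) t3026)))))))))))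
noncomputable def l38056 : Lb := (@Lb.d (nat_lit 528) (nat_lit 592) (nat_lit 577) (@Lb.r r1284 (@Lb.r r2635 (@Lb.r r612 (@Lb.r r2370 (@Lb.g g7 (@Lb.g g6 (@Lb.g g9 (@Lb.g g4 (@Lb.d (nat_lit 96) (nat_lit 33) (nat_lit 133) (@Lb.fp (nat_lit 9) t1636)))))))))))
noncomputable def l38057 : Lb := (@Lb.d (nat_lit 134) (nat_lit 256) (nat_lit 73) (@Lb.g g8 (@Lb.g g9 (@Lb.g g10 (@Lb.g g11 (@Lb.r r1706 (@Lb.r r1451 (@Lb.r r145 (@Lb.r r1156 (@Lb.d (nat_lit 644) (nat_lit 101) (nat_lit 22) (@Lb.fm (nat_lit 9) t720)))))))))))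
noncomputable def l38058 : Lb := (@Lb.d (nat_lit 0) (nat_lit 8) (nat_lit 2) (@Lb.g g8 (@Lb.g g10 (@Lb.r r1427 (@Lb.r r101 (@Lb.d (nat_lit 256) (nat_lit 64) (nat_lit 2) (@Lb.fp (nat_lit 3) t240)))))))
noncomputable def l38059 : Lb := (@Lb.d (nat_lit 528) (nat_lit 336) (nat_lit 577) (@Lb.r r1284 (@Lb.r r2635 (@Lb.r r612 (@Lb.r r2370 (@Lb.g g7 (@Lb.g g6 (@Lb.g g9 (@Lb.g g4 (@Lb.d (nat_lit 97) (nat_lit 33) (nat_lit 133) (@Lb.fp (nat_lit 9) t1636)))))))))))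
noncomputable def l38060 : Lb := (@Lb.d (nat_lit 144) (nat_lit 358) (nat_lit 581) (@Lb.r r580 (@Lb.r r2386 (@Lb.g g7 (@Lb.g g6 (@Lb.g g5 (@Lb.g g4 (@Lb.d (nat_lit 96) (nat_lit 0) (nat_lit 577) (@Lb.fp (nat_lit 9) t426)))))))))
noncomputable def l38061 : Lb := (@Lb.r r82 (@Lb.d (nat_lit 129) (nat_lit 514) (nat_lit 128) (@Lb.g g8 (@Lb.g g9 (@Lb.g g11 (@Lb.r r291 (@Lb.r r2438 (@Lb.r r1049 (@Lb.r r1624 (@Lb.d (nat_lit 665) (nat_lit 33) (nat_lit 580) (@Lb.t (@Lb.fm (nat_lit 9) t6276))))))))))))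
noncomputable def l38062 : Lb := (@Lb.d (nat_lit 2) (nat_lit 258) (nat_lit 73) (@Lb.g g8 (@Lb.g g9 (@Lb.g g10 (@Lb.g g11 (@Lb.r r427 (@Lb.r r297 (@Lb.r r2408 (@Lb.r r1174 (@Lb.d (nat_lit 532) (nat_lit 69) (nat_lit 0) (@Lb.fm (nat_lit 9) t6673)))))))))))
noncomputable def l38063 : Lb := (@Lb.d (nat_lit 0) (nat_lit 258) (nat_lit 66) (@Lb.g g4 (@Lb.g g9 (@Lb.g g10 (@Lb.g g11 (@Lb.r r2691 (@Lb.r r145 (@Lb.r r594 (@Lb.r r1169 (@Lb.d (nat_lit 0) (nat_lit 38) (nat_lit 602) (@Lb.fp (nat_lit 9) t4120)))))))))))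
noncomputable def l38064 : Lb := (@Lb.r r82 (@Lb.d (nat_lit 129) (nat_lit 258) (nat_lit 128) (@Lb.g g8 (@Lb.g g9 (@Lb.g g11 (@Lb.r r291 (@Lb.r r2438 (@Lb.r r1049 (@Lb.r r1624 (@Lb.d (nat_lit 658) (nat_lit 34) (nat_lit 580) (@Lb.t (@Lb.fm (nat_lit 9) t3906))))))))))))
noncomputable def l38065 : Lb := (@Lb.r r82 (@Lb.d (nat_lit 34) (nat_lit 289) (nat_lit 64) (@Lb.g g8 (@Lb.g g9 (@Lb.g g11 (@Lb.r r363 (@Lb.r r582 (@Lb.r r2456 (@Lb.r r1125 (@Lb.d (nat_lit 544) (nat_lit 40) (nat_lit 20) (@Lb.t (@Lb.fm (nat_lit 9) t6197))))))))))))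
noncomputable def l38066 : Lb := (@Lb.d (nat_lit 132) (nat_lit 2) (nat_lit 130) (@Lb.g g8 (@Lb.g g9 (@Lb.g g10 (@Lb.g g11 (@Lb.r r1443 (@Lb.r r1188 (@Lb.r r2438 (@Lb.r r1121 (@Lb.d (nat_lit 152) (nat_lit 9) (nat_lit 68) (@Lb.fp (nat_lit 9) t1377)))))))))))
noncomputable def l38067 : Lb := (@Lb.d (nat_lit 1) (nat_lit 593) (nat_lit 0) (@Lb.g g8 (@Lb.g g5 (@Lb.r r1575 (@Lb.r r2408 (@Lb.r r2150 (@Lb.d (nat_lit 0) (nat_lit 36) (nat_lit 674) (@Lb.fp (nat_lit 3) t1040))))))))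
noncomputable def l38068 : Lb := (@Lb.d (nat_lit 410) (nat_lit 132) (nat_lit 418) (@Lb.r r2403 (@Lb.g g6 (@Lb.g g8 (@Lb.d (nat_lit 9) (nat_lit 4) (nat_lit 1) (@Lb.fp (nat_lit 3) t6674))))))
noncomputable def l38069 : Lb := (@Lb.r r323 (@Lb.d (nat_lit 8) (nat_lit 516) (nat_lit 22) (@Lb.g g8 (@Lb.g g10 (@Lb.r r2405 (@Lb.r r667 (@Lb.r r1304 (@Lb.d (nat_lit 553) (nat_lit 162) (nat_lit 530) (@Lb.fp (nat_lit 3) t521)))))))))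
noncomputable def l38070 : Lb := (@Lb.d (nat_lit 410) (nat_lit 386) (nat_lit 417) (@Lb.r r2403 (@Lb.g g6 (@Lb.g g8 (@Lb.d (nat_lit 9) (nat_lit 4) (nat_lit 1) (@Lb.fp (nat_lit 3) t6675))))))
noncomputable def l38071 : Lb := (@Lb.d (nat_lit 8) (nat_lit 256) (nat_lit 66) (@Lb.g g9 (@Lb.g g10 (@Lb.g g11 (@Lb.r r1540 (@Lb.r r551 (@Lb.r r1370 (@Lb.r r2597 (@Lb.d (nat_lit 650) (nat_lit 88) (nat_lit 17) (@Lb.t (@Lb.fm (nat_lit 9) t1222)))))))))))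
noncomputable def l38072 : Lb := (@Lb.d (nat_lit 0) (nat_lit 32) (nat_lit 64) (@Lb.g g11 (@Lb.r r1689 (@Lb.r r1620 (@Lb.r r2442 (@Lb.r r587 (@Lb.d (nat_lit 337) (nat_lit 0) (nat_lit 514) (@Lb.t (@Lb.fp (nat_lit 3) t2283)))))))))
noncomputable def l38073 : Lb := (@Lb.d (nat_lit 130) (nat_lit 258) (nat_lit 66) (@Lb.g g8 (@Lb.g g9 (@Lb.g g10 (@Lb.g g11 (@Lb.r r2323 (@Lb.r r2705 (@Lb.r r598 (@Lb.r r392 (@Lb.d (nat_lit 594) (nat_lit 4) (nat_lit 328) (@Lb.fm (nat_lit 9) t6602)))))))))))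
noncomputable def l38074 : Lb := (@Lb.d (nat_lit 5) (nat_lit 577) (nat_lit 417) (@Lb.r r2641 (@Lb.r r2395 (@Lb.r r2328 (@Lb.r r2122 (@Lb.g g7 (@Lb.g g4 (@Lb.d (nat_lit 1) (nat_lit 0) (nat_lit 64) (@Lb.fp (nat_lit 3) t2241)))))))))
noncomputable def l38075 : Lb := (@Lb.d (nat_lit 640) (nat_lit 618) (nat_lit 101) (@Lb.r r2343 (@Lb.r r680 (@Lb.r r154 (@Lb.r r2133 (@Lb.g g8 (@Lb.d (nat_lit 17) (nat_lit 0) (nat_lit 0) (@Lb.t (@Lb.fp (nat_lit 3) t4988)))))))))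
noncomputable def l38076 : Lb := (@Lb.d (nat_lit 10) (nat_lit 322) (nat_lit 417) (@Lb.r r2641 (@Lb.r r2395 (@Lb.r r2328 (@Lb.r r2122 (@Lb.g g7 (@Lb.g g4 (@Lb.d (nat_lit 1) (nat_lit 0) (nat_lit 64) (@Lb.fp (nat_lit 3) t2241)))))))))
noncomputable def l38077 : Lb := (@Lb.d (nat_lit 2) (nat_lit 402) (nat_lit 2) (@Lb.g g8 (@Lb.g g9 (@Lb.g g10 (@Lb.r r2391 (@Lb.r r2730 (@Lb.r r1124 (@Lb.d (nat_lit 329) (nat_lit 132) (nat_lit 10) (@Lb.t (@Lb.fp (nat_lit 9) t1346))))))))))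
noncomputable def l38078 : Lb := (@Lb.r r82 (@Lb.d (nat_lit 130) (nat_lit 258) (nat_lit 64) (@Lb.g g8 (@Lb.g g9 (@Lb.g g11 (@Lb.r r2475 (@Lb.r r386 (@Lb.r r36 (@Lb.r r1125 (@Lb.d (nat_lit 617) (nat_lit 69) (nat_lit 528) (@Lb.t (@Lb.fm (nat_lit 9) t1774))))))))))))
noncomputable def l38079 : Lb := (@Lb.d (nat_lit 2) (nat_lit 514) (nat_lit 10) (@Lb.g g8 (@Lb.g g9 (@Lb.g g10 (@Lb.r r1572 (@Lb.r r1319 (@Lb.r r1425 (@Lb.r r2138 (@Lb.d (nat_lit 88) (nat_lit 4) (nat_lit 600) (@Lb.t (@Lb.fm (nat_lit 9) t3426)))))))))))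
noncomputable def l38080 : Lb := (@Lb.d (nat_lit 549) (nat_lit 394) (nat_lit 84) (@Lb.r r597 (@Lb.r r279 (@Lb.r r584 (@Lb.g g6 (@Lb.g g5 (@Lb.d (nat_lit 4) (nat_lit 1) (nat_lit 33) (@Lb.r r387 (@Lb.fp (nat_lit 3) t283)))))))))
noncomputable def l38081 : Lb := (@Lb.d (nat_lit 2) (nat_lit 512) (nat_lit 1) (@Lb.g g8 (@Lb.g g9 (@Lb.g g10 (@Lb.g g7 (@Lb.r r1450 (@Lb.r r409 (@Lb.r r24 (@Lb.d (nat_lit 100) (nat_lit 64) (nat_lit 354) (@Lb.fm (nat_lit 9) t918))))))))))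
noncomputable def l38082 : Lb := (@Lb.d (nat_lit 4) (nat_lit 512) (nat_lit 72) (@Lb.g g8 (@Lb.g g9 (@Lb.g g11 (@Lb.r r134 (@Lb.r r328 (@Lb.r r1575 (@Lb.r r1553 (@Lb.d (nat_lit 10) (nat_lit 32) (nat_lit 128) (@Lb.t (@Lb.fp (nat_lit 9) t51)))))))))))
noncomputable def l38083 : Lb := (@Lb.d (nat_lit 2) (nat_lit 256) (nat_lit 1) (@Lb.g g8 (@Lb.g g9 (@Lb.g g10 (@Lb.g g7 (@Lb.r r1450 (@Lb.r r409 (@Lb.r r24 (@Lb.d (nat_lit 105) (nat_lit 65) (nat_lit 354) (@Lb.fm (nat_lit 9) t918))))))))))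
noncomputable def l38084 : Lb := (@Lb.d (nat_lit 24) (nat_lit 34) (nat_lit 9) (@Lb.g g9 (@Lb.g g6 (@Lb.r r411 (@Lb.r r404 (@Lb.r r681 (@Lb.d (nat_lit 85) (nat_lit 152) (nat_lit 389) (@Lb.fm (nat_lit 3) t51))))))))
noncomputable def l38085 : Lb := (@Lb.d (nat_lit 2) (nat_lit 544) (nat_lit 128) (@Lb.g g8 (@Lb.g g11 (@Lb.r r2712 (@Lb.r r293 (@Lb.r r2587 (@Lb.r r2178 (@Lb.d (nat_lit 105) (nat_lit 41) (nat_lit 278) (@Lb.fm (nat_lit 3) t2689)))))))))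
noncomputable def l38086 : Lb := (@Lb.r r21 (@Lb.r r263 (@Lb.d (nat_lit 33) (nat_lit 520) (nat_lit 2) (@Lb.g g8 (@Lb.g g10 (@Lb.r r1427 (@Lb.r r2137 (@Lb.r r20 (@Lb.d (nat_lit 0) (nat_lit 130) (nat_lit 2) (@Lb.fm (nat_lit 3) t894))))))))))
noncomputable def l38087 : Lb := (@Lb.d (nat_lit 4) (nat_lit 0) (nat_lit 162) (@Lb.g g8 (@Lb.g g9 (@Lb.g g6 (@Lb.g g11 (@Lb.r r2667 (@Lb.r r2657 (@Lb.r r24 (@Lb.d (nat_lit 265) (nat_lit 89) (nat_lit 40) (@Lb.fp (nat_lit 9) t2031))))))))))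
noncomputable def l38088 : Lb := (@Lb.d (nat_lit 4) (nat_lit 392) (nat_lit 32) (@Lb.r r81 (@Lb.r r2434 (@Lb.r r2631 (@Lb.g g8 (@Lb.d (nat_lit 646) (nat_lit 0) (nat_lit 0) (@Lb.r r267 (@Lb.r r74 (@Lb.r r25 (@Lb.t (@Lb.fp (nat_lit 3) t6676)))))))))))
noncomputable def l38089 : Lb := (@Lb.r r21 (@Lb.r r70 (@Lb.d (nat_lit 410) (nat_lit 0) (nat_lit 136) (@Lb.g g8 (@Lb.g g11 (@Lb.r r101 (@Lb.r r2450 (@Lb.d (nat_lit 2) (nat_lit 154) (nat_lit 672) (@Lb.fm (nat_lit 3) t2605)))))))))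
noncomputable def l38090 : Lb := (@Lb.d (nat_lit 0) (nat_lit 2) (nat_lit 9) (@Lb.g g9 (@Lb.g g10 (@Lb.g g7 (@Lb.r r386 (@Lb.r r97 (@Lb.r r24 (@Lb.d (nat_lit 328) (nat_lit 104) (nat_lit 393) (@Lb.t (@Lb.fm (nat_lit 9) t4028))))))))))
noncomputable def l38091 : Lb := (@Lb.r r21 (@Lb.r r70 (@Lb.d (nat_lit 410) (nat_lit 512) (nat_lit 136) (@Lb.g g8 (@Lb.g g11 (@Lb.r r101 (@Lb.r r2450 (@Lb.d (nat_lit 2) (nat_lit 154) (nat_lit 544) (@Lb.fm (nat_lit 3) t2605)))))))))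
noncomputable def l38092 : Lb := (@Lb.d (nat_lit 40) (nat_lit 2) (nat_lit 137) (@Lb.g g9 (@Lb.g g10 (@Lb.g g11 (@Lb.r r2695 (@Lb.r r1352 (@Lb.r r2390 (@Lb.r r409 (@Lb.d (nat_lit 136) (nat_lit 130) (nat_lit 330) (@Lb.t (@Lb.fm (nat_lit 9) t1087)))))))))))
noncomputable def l38093 : Lb := (@Lb.r r323 (@Lb.d (nat_lit 133) (nat_lit 258) (nat_lit 0) (@Lb.g g8 (@Lb.g g9 (@Lb.g g10 (@Lb.r r106 (@Lb.r r361 (@Lb.r r1367 (@Lb.r r2696 (@Lb.d (nat_lit 337) (nat_lit 69) (nat_lit 660) (@Lb.t (@Lb.fm (nat_lit 9) t51))))))))))))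
noncomputable def l38094 : Lb := (@Lb.d (nat_lit 2) (nat_lit 514) (nat_lit 2) (@Lb.g g8 (@Lb.g g9 (@Lb.g g10 (@Lb.r r2729 (@Lb.r r2475 (@Lb.r r2468 (@Lb.r r2438 (@Lb.d (nat_lit 609) (nat_lit 10) (nat_lit 610) (@Lb.t (@Lb.fm (nat_lit 9) t590)))))))))))
noncomputable def l38095 : Lb := (@Lb.d (nat_lit 133) (nat_lit 4) (nat_lit 545) (@Lb.r r2635 (@Lb.r r2628 (@Lb.r r1370 (@Lb.g g7 (@Lb.g g6 (@Lb.g g5 (@Lb.d (nat_lit 64) (nat_lit 129) (nat_lit 65) (@Lb.t (@Lb.fm (nat_lit 9) t1161))))))))))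
noncomputable def l38096 : Lb := (@Lb.d (nat_lit 346) (nat_lit 546) (nat_lit 662) (@Lb.r r89 (@Lb.r r408 (@Lb.r r330 (@Lb.g g11 (@Lb.g g5 (@Lb.g g4 (@Lb.d (nat_lit 17) (nat_lit 5) (nat_lit 384) (@Lb.r r578 (@Lb.t (@Lb.fp (nat_lit 9) t22)))))))))))
noncomputable def l38097 : Lb := (@Lb.d (nat_lit 9) (nat_lit 266) (nat_lit 72) (@Lb.g g8 (@Lb.g g9 (@Lb.g g11 (@Lb.r r134 (@Lb.r r328 (@Lb.r r1303 (@Lb.r r2593 (@Lb.d (nat_lit 10) (nat_lit 129) (nat_lit 276) (@Lb.t (@Lb.fp (nat_lit 9) t334)))))))))))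
noncomputable def l38098 : Lb := (@Lb.d (nat_lit 10) (nat_lit 514) (nat_lit 10) (@Lb.g g4 (@Lb.g g9 (@Lb.g g10 (@Lb.g g11 (@Lb.r r610 (@Lb.r r579 (@Lb.d (nat_lit 0) (nat_lit 33) (nat_lit 5) (@Lb.fp (nat_lit 9) t51)))))))))
noncomputable def l38099 : Lb := (@Lb.d (nat_lit 10) (nat_lit 258) (nat_lit 74) (@Lb.g g4 (@Lb.g g9 (@Lb.g g10 (@Lb.g g11 (@Lb.r r610 (@Lb.r r579 (@Lb.d (nat_lit 0) (nat_lit 33) (nat_lit 5) (@Lb.fp (nat_lit 9) t51)))))))))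
noncomputable def l38100 : Lb := (@Lb.d (nat_lit 144) (nat_lit 512) (nat_lit 384) (@Lb.g g8 (@Lb.g g10 (@Lb.g g11 (@Lb.r r1602 (@Lb.r r388 (@Lb.d (nat_lit 96) (nat_lit 0) (nat_lit 330) (@Lb.t (@Lb.fm (nat_lit 9) t997)))))))))
noncomputable def l38101 : Lb := (@Lb.d (nat_lit 170) (nat_lit 512) (nat_lit 136) (@Lb.g g8 (@Lb.g g11 (@Lb.r r165 (@Lb.r r2214 (@Lb.r r344 (@Lb.r r2311 (@Lb.d (nat_lit 585) (nat_lit 86) (nat_lit 358) (@Lb.fp (nat_lit 3) t4077)))))))))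
noncomputable def l38102 : Lb := (@Lb.d (nat_lit 154) (nat_lit 0) (nat_lit 4) (@Lb.g g8 (@Lb.g g10 (@Lb.g g11 (@Lb.r r2138 (@Lb.r r1685 (@Lb.r r2455 (@Lb.r r2632 (@Lb.d (nat_lit 104) (nat_lit 66) (nat_lit 258) (@Lb.t (@Lb.fp (nat_lit 9) t2426)))))))))))
noncomputable def l38103 : Lb := (@Lb.r r1114 (@Lb.d (nat_lit 130) (nat_lit 514) (nat_lit 128) (@Lb.g g8 (@Lb.g g9 (@Lb.g g11 (@Lb.r r291 (@Lb.r r2661 (@Lb.r r1620 (@Lb.d (nat_lit 533) (nat_lit 34) (nat_lit 649) (@Lb.t (@Lb.fp (nat_lit 9) t6677)))))))))))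
noncomputable def l38104 : Lb := (@Lb.d (nat_lit 0) (nat_lit 0) (nat_lit 2) (@Lb.g g9 (@Lb.g g10 (@Lb.g g11 (@Lb.r r386 (@Lb.r r101 (@Lb.r r24 (@Lb.d (nat_lit 352) (nat_lit 0) (nat_lit 521) (@Lb.t (@Lb.fp (nat_lit 9) t1150))))))))))
noncomputable def l38105 : Lb := (@Lb.d (nat_lit 152) (nat_lit 256) (nat_lit 64) (@Lb.g g8 (@Lb.g g10 (@Lb.g g11 (@Lb.r r2443 (@Lb.r r1098 (@Lb.r r533 (@Lb.r r2340 (@Lb.d (nat_lit 676) (nat_lit 97) (nat_lit 340) (@Lb.t (@Lb.fm (nat_lit 9) t1444)))))))))))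
noncomputable def l38106 : Lb := (@Lb.d (nat_lit 6) (nat_lit 161) (nat_lit 293) (@Lb.r r21 (@Lb.r r1366 (@Lb.r r683 (@Lb.g g6 (@Lb.g g5 (@Lb.g g4 (@Lb.d (nat_lit 8) (nat_lit 10) (nat_lit 0) (@Lb.t (@Lb.fm (nat_lit 9) t6678))))))))))
noncomputable def l38107 : Lb := (@Lb.d (nat_lit 0) (nat_lit 512) (nat_lit 2) (@Lb.g g8 (@Lb.g g10 (@Lb.g g7 (@Lb.r r386 (@Lb.r r101 (@Lb.r r24 (@Lb.d (nat_lit 354) (nat_lit 0) (nat_lit 585) (@Lb.t (@Lb.fm (nat_lit 9) t166))))))))))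
noncomputable def l38108 : Lb := (@Lb.d (nat_lit 130) (nat_lit 514) (nat_lit 130) (@Lb.g g8 (@Lb.g g9 (@Lb.g g10 (@Lb.g g11 (@Lb.r r419 (@Lb.r r1177 (@Lb.r r1626 (@Lb.r r1624 (@Lb.d (nat_lit 610) (nat_lit 98) (nat_lit 580) (@Lb.fm (nat_lit 9) t238)))))))))))
noncomputable def l38109 : Lb := (@Lb.d (nat_lit 324) (nat_lit 676) (nat_lit 100) (@Lb.r r408 (@Lb.r r423 (@Lb.r r353 (@Lb.g g7 (@Lb.g g6 (@Lb.g g4 (@Lb.d (nat_lit 18) (nat_lit 16) (nat_lit 149) (@Lb.r r145 (@Lb.t (@Lb.fp (nat_lit 9) t3944)))))))))))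
noncomputable def l38110 : Lb := (@Lb.r r21 (@Lb.d (nat_lit 10) (nat_lit 0) (nat_lit 73) (@Lb.g g8 (@Lb.g g10 (@Lb.g g11 (@Lb.r r1365 (@Lb.r r2727 (@Lb.r r1348 (@Lb.r r2458 (@Lb.d (nat_lit 405) (nat_lit 18) (nat_lit 656) (@Lb.t (@Lb.fm (nat_lit 9) t4666))))))))))))
noncomputable def l38111 : Lb := (@Lb.d (nat_lit 322) (nat_lit 642) (nat_lit 97) (@Lb.r r37 (@Lb.r r519 (@Lb.r r344 (@Lb.g g7 (@Lb.g g6 (@Lb.d (nat_lit 64) (nat_lit 0) (nat_lit 149) (@Lb.r r145 (@Lb.r r132 (@Lb.fp (nat_lit 3) t4666))))))))))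
noncomputable def l38112 : Lb := (@Lb.r r322 (@Lb.d (nat_lit 2) (nat_lit 33) (nat_lit 516) (@Lb.g g8 (@Lb.g g9 (@Lb.g g7 (@Lb.r r418 (@Lb.r r296 (@Lb.r r409 (@Lb.d (nat_lit 145) (nat_lit 166) (nat_lit 521) (@Lb.t (@Lb.fp (nat_lit 9) t1234)))))))))))
noncomputable def l38113 : Lb := (@Lb.d (nat_lit 2) (nat_lit 260) (nat_lit 74) (@Lb.g g8 (@Lb.g g9 (@Lb.g g10 (@Lb.g g11 (@Lb.r r2691 (@Lb.r r297 (@Lb.r r1188 (@Lb.r r1158 (@Lb.d (nat_lit 640) (nat_lit 10) (nat_lit 133) (@Lb.fm (nat_lit 9) t1246)))))))))))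
noncomputable def l38114 : Lb := (@Lb.r r273 (@Lb.d (nat_lit 0) (nat_lit 32) (nat_lit 258) (@Lb.g g10 (@Lb.g g7 (@Lb.r r1617 (@Lb.r r98 (@Lb.d (nat_lit 0) (nat_lit 73) (nat_lit 164) (@Lb.fp (nat_lit 3) t1655))))))))
noncomputable def l38115 : Lb := (@Lb.d (nat_lit 144) (nat_lit 9) (nat_lit 41) (@Lb.g g8 (@Lb.g g9 (@Lb.g g6 (@Lb.r r1415 (@Lb.r r1313 (@Lb.r r2632 (@Lb.d (nat_lit 353) (nat_lit 98) (nat_lit 641) (@Lb.t (@Lb.fp (nat_lit 9) t98))))))))))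
noncomputable def l38116 : Lb := (@Lb.r r21 (@Lb.d (nat_lit 6) (nat_lit 516) (nat_lit 74) (@Lb.g g8 (@Lb.g g10 (@Lb.g g11 (@Lb.r r665 (@Lb.r r343 (@Lb.r r650 (@Lb.d (nat_lit 129) (nat_lit 10) (nat_lit 80) (@Lb.t (@Lb.fp (nat_lit 9) t221)))))))))))
noncomputable def l38117 : Lb := (@Lb.d (nat_lit 129) (nat_lit 18) (nat_lit 256) (@Lb.r r21 (@Lb.r r2084 (@Lb.r r2146 (@Lb.g g5 (@Lb.d (nat_lit 0) (nat_lit 1) (nat_lit 0) (@Lb.t (@Lb.fm (nat_lit 3) t225))))))))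
noncomputable def l38118 : Lb := (@Lb.d (nat_lit 152) (nat_lit 0) (nat_lit 384) (@Lb.g g8 (@Lb.g g10 (@Lb.g g11 (@Lb.r r1602 (@Lb.r r2325 (@Lb.r r548 (@Lb.d (nat_lit 138) (nat_lit 98) (nat_lit 408) (@Lb.t (@Lb.fm (nat_lit 9) t412))))))))))
noncomputable def l38119 : Lb := (@Lb.r r331 (@Lb.d (nat_lit 8) (nat_lit 2) (nat_lit 2) (@Lb.g g8 (@Lb.g g9 (@Lb.g g10 (@Lb.r r1642 (@Lb.r r1611 (@Lb.r r549 (@Lb.r r1540 (@Lb.d (nat_lit 550) (nat_lit 97) (nat_lit 98) (@Lb.t (@Lb.fm (nat_lit 9) t6516))))))))))))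
noncomputable def l38120 : Lb := (@Lb.r r323 (@Lb.d (nat_lit 8) (nat_lit 2) (nat_lit 2) (@Lb.g g9 (@Lb.g g10 (@Lb.r r2406 (@Lb.r r1419 (@Lb.r r24 (@Lb.r r1317 (@Lb.d (nat_lit 581) (nat_lit 90) (nat_lit 578) (@Lb.fm (nat_lit 3) t1089))))))))))
noncomputable def l38121 : Lb := (@Lb.d (nat_lit 650) (nat_lit 678) (nat_lit 1) (@Lb.r r2601 (@Lb.r r2178 (@Lb.r r299 (@Lb.g g5 (@Lb.g g4 (@Lb.d (nat_lit 1) (nat_lit 16) (nat_lit 0) (@Lb.fm (nat_lit 3) t3368))))))))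
noncomputable def l38122 : Lb := (@Lb.d (nat_lit 1) (nat_lit 258) (nat_lit 130) (@Lb.g g8 (@Lb.g g9 (@Lb.g g10 (@Lb.g g11 (@Lb.r r2666 (@Lb.r r579 (@Lb.r r97 (@Lb.r r24 (@Lb.d (nat_lit 152) (nat_lit 2) (nat_lit 393) (@Lb.fm (nat_lit 9) t61)))))))))))
noncomputable def l38123 : Lb := (@Lb.d (nat_lit 0) (nat_lit 258) (nat_lit 130) (@Lb.g g9 (@Lb.g g10 (@Lb.g g11 (@Lb.r r2691 (@Lb.r r297 (@Lb.r r2404 (@Lb.r r1610 (@Lb.d (nat_lit 160) (nat_lit 10) (nat_lit 356) (@Lb.t (@Lb.fm (nat_lit 9) t2157)))))))))))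
noncomputable def l38124 : Lb := (@Lb.r r21 (@Lb.d (nat_lit 152) (nat_lit 256) (nat_lit 128) (@Lb.g g8 (@Lb.g g10 (@Lb.g g11 (@Lb.r r1178 (@Lb.r r1637 (@Lb.r r1319 (@Lb.r r1176 (@Lb.d (nat_lit 682) (nat_lit 74) (nat_lit 346) (@Lb.t (@Lb.fp (nat_lit 9) t428))))))))))))
noncomputable def l38125 : Lb := (@Lb.d (nat_lit 1) (nat_lit 260) (nat_lit 64) (@Lb.g g8 (@Lb.g g9 (@Lb.g g10 (@Lb.g g11 (@Lb.r r1667 (@Lb.r r578 (@Lb.r r1449 (@Lb.r r36 (@Lb.d (nat_lit 21) (nat_lit 1) (nat_lit 168) (@Lb.fp (nat_lit 9) t2557)))))))))))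
noncomputable def l38126 : Lb := (@Lb.d (nat_lit 0) (nat_lit 521) (nat_lit 66) (@Lb.g g9 (@Lb.g g10 (@Lb.g g11 (@Lb.r r1555 (@Lb.r r2469 (@Lb.r r2150 (@Lb.r r24 (@Lb.d (nat_lit 352) (nat_lit 0) (nat_lit 421) (@Lb.t (@Lb.fp (nat_lit 9) t6679)))))))))))
noncomputable def l38127 : Lb := (@Lb.d (nat_lit 9) (nat_lit 2) (nat_lit 66) (@Lb.g g8 (@Lb.g g9 (@Lb.g g10 (@Lb.g g7 (@Lb.r r386 (@Lb.r r104 (@Lb.r r1129 (@Lb.r r1060 (@Lb.d (nat_lit 548) (nat_lit 128) (nat_lit 137) (@Lb.fp (nat_lit 9) t3034)))))))))))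
noncomputable def l38128 : Lb := (@Lb.r r82 (@Lb.d (nat_lit 9) (nat_lit 528) (nat_lit 0) (@Lb.g g8 (@Lb.g g9 (@Lb.g g11 (@Lb.r r2587 (@Lb.r r1362 (@Lb.r r2593 (@Lb.d (nat_lit 514) (nat_lit 82) (nat_lit 384) (@Lb.t (@Lb.fm (nat_lit 9) t4455)))))))))))
noncomputable def l38129 : Lb := (@Lb.r r21 (@Lb.r r70 (@Lb.d (nat_lit 65) (nat_lit 512) (nat_lit 0) (@Lb.g g8 (@Lb.g g11 (@Lb.r r519 (@Lb.r r326 (@Lb.r r277 (@Lb.r r520 (@Lb.d (nat_lit 66) (nat_lit 0) (nat_lit 128) (@Lb.fm (nat_lit 3) t321)))))))))))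
noncomputable def l38130 : Lb := (@Lb.d (nat_lit 0) (nat_lit 0) (nat_lit 66) (@Lb.g g4 (@Lb.g g10 (@Lb.g g7 (@Lb.r r386 (@Lb.d (nat_lit 320) (nat_lit 5) (nat_lit 522) (@Lb.t (@Lb.fp (nat_lit 9) t1021))))))))
noncomputable def l38131 : Lb := (@Lb.d (nat_lit 144) (nat_lit 260) (nat_lit 64) (@Lb.g g8 (@Lb.g g9 (@Lb.g g10 (@Lb.g g11 (@Lb.r r2435 (@Lb.r r2212 (@Lb.r r1446 (@Lb.r r145 (@Lb.d (nat_lit 68) (nat_lit 132) (nat_lit 152) (@Lb.fm (nat_lit 9) t5516)))))))))))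
noncomputable def l38132 : Lb := (@Lb.d (nat_lit 320) (nat_lit 33) (nat_lit 64) (@Lb.r r289 (@Lb.r r535 (@Lb.r r328 (@Lb.r r2726 (@Lb.g g7 (@Lb.g g6 (@Lb.g g5 (@Lb.d (nat_lit 0) (nat_lit 0) (nat_lit 134) (@Lb.t (@Lb.fp (nat_lit 9) t1490)))))))))))
noncomputable def l38133 : Lb := (@Lb.r r21 (@Lb.d (nat_lit 144) (nat_lit 256) (nat_lit 132) (@Lb.g g8 (@Lb.g g10 (@Lb.g g11 (@Lb.r r1707 (@Lb.r r1192 (@Lb.r r394 (@Lb.r r25 (@Lb.d (nat_lit 81) (nat_lit 81) (nat_lit 533) (@Lb.t (@Lb.fp (nat_lit 9) t4150))))))))))))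
noncomputable def l38134 : Lb := (@Lb.d (nat_lit 0) (nat_lit 258) (nat_lit 128) (@Lb.g g9 (@Lb.g g11 (@Lb.r r2595 (@Lb.r r2178 (@Lb.r r2657 (@Lb.r r8 (@Lb.d (nat_lit 10) (nat_lit 25) (nat_lit 42) (@Lb.fm (nat_lit 3) t6284)))))))))
noncomputable def l38135 : Lb := (@Lb.d (nat_lit 10) (nat_lit 2) (nat_lit 128) (@Lb.g g11 (@Lb.t (@Lb.fp (nat_lit 3) t2))))
noncomputable def l38136 : Lb := (@Lb.d (nat_lit 106) (nat_lit 353) (nat_lit 416) (@Lb.r r2644 (@Lb.r r81 (@Lb.r r162 (@Lb.r r145 (@Lb.r r2599 (@Lb.g g8 (@Lb.t (@Lb.fp (nat_lit 3) t6680)))))))))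
noncomputable def l38137 : Lb := (@Lb.d (nat_lit 106) (nat_lit 102) (nat_lit 417) (@Lb.r r2644 (@Lb.r r81 (@Lb.r r162 (@Lb.r r145 (@Lb.r r2599 (@Lb.g g8 (@Lb.t (@Lb.fp (nat_lit 3) t716)))))))))
noncomputable def l38138 : Lb := (@Lb.d (nat_lit 0) (nat_lit 512) (nat_lit 128) (@Lb.g g11 (@Lb.r r273 (@Lb.r r551 (@Lb.r r340 (@Lb.r r170 (@Lb.r r153 (@Lb.d (nat_lit 322) (nat_lit 1) (nat_lit 544) (@Lb.t (@Lb.fp (nat_lit 3) t716))))))))))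
noncomputable def l38139 : Lb := (@Lb.d (nat_lit 104) (nat_lit 549) (nat_lit 64) (@Lb.g g8 (@Lb.g g9 (@Lb.g g10 (@Lb.g g11 (@Lb.r r2459 (@Lb.r r1670 (@Lb.r r297 (@Lb.r r84 (@Lb.d (nat_lit 166) (nat_lit 5) (nat_lit 362) (@Lb.fp (nat_lit 9) t6681)))))))))))
noncomputable def l38140 : Lb := (@Lb.d (nat_lit 2) (nat_lit 64) (nat_lit 128) (@Lb.r r24 (@Lb.g g11 (@Lb.t (@Lb.fm (nat_lit 3) t2)))))
noncomputable def l38141 : Lb := (@Lb.d (nat_lit 130) (nat_lit 258) (nat_lit 130) (@Lb.g g8 (@Lb.g g9 (@Lb.g g10 (@Lb.g g11 (@Lb.r r2308 (@Lb.r r1451 (@Lb.r r386 (@Lb.r r97 (@Lb.d (nat_lit 521) (nat_lit 136) (nat_lit 649) (@Lb.fp (nat_lit 9) t408)))))))))))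
noncomputable def l38142 : Lb := (@Lb.r r323 (@Lb.d (nat_lit 138) (nat_lit 512) (nat_lit 18) (@Lb.g g8 (@Lb.g g10 (@Lb.r r661 (@Lb.r r1431 (@Lb.r r2632 (@Lb.d (nat_lit 81) (nat_lit 69) (nat_lit 273) (@Lb.fp (nat_lit 3) t2689)))))))))
noncomputable def l38143 : Lb := (@Lb.r r20 (@Lb.d (nat_lit 36) (nat_lit 65) (nat_lit 2) (@Lb.g g5 (@Lb.g g10 (@Lb.r r539 (@Lb.r r72 (@Lb.r r150 (@Lb.d (nat_lit 86) (nat_lit 8) (nat_lit 296) (@Lb.fm (nat_lit 3) t701)))))))))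
noncomputable def l38144 : Lb := (@Lb.d (nat_lit 2) (nat_lit 294) (nat_lit 64) (@Lb.g g8 (@Lb.g g9 (@Lb.g g10 (@Lb.g g11 (@Lb.r r2722 (@Lb.r r1352 (@Lb.r r1447 (@Lb.r r2449 (@Lb.d (nat_lit 324) (nat_lit 150) (nat_lit 409) (@Lb.fp (nat_lit 9) t6682)))))))))))
noncomputable def l38145 : Lb := (@Lb.d (nat_lit 2) (nat_lit 257) (nat_lit 0) (@Lb.g g8 (@Lb.g g9 (@Lb.r r2723 (@Lb.r r134 (@Lb.r r2660 (@Lb.r r2581 (@Lb.d (nat_lit 138) (nat_lit 145) (nat_lit 320) (@Lb.fm (nat_lit 3) t2048)))))))))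
noncomputable def l38146 : Lb := (@Lb.d (nat_lit 130) (nat_lit 258) (nat_lit 0) (@Lb.g g8 (@Lb.g g9 (@Lb.r r646 (@Lb.r r2467 (@Lb.r r2345 (@Lb.r r104 (@Lb.d (nat_lit 89) (nat_lit 24) (nat_lit 537) (@Lb.fp (nat_lit 3) t1954)))))))))
noncomputable def l38147 : Lb := (@Lb.d (nat_lit 0) (nat_lit 169) (nat_lit 550) (@Lb.r r1172 (@Lb.g g9 (@Lb.d (nat_lit 0) (nat_lit 10) (nat_lit 0) (@Lb.t (@Lb.fp (nat_lit 3) t4745))))))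
noncomputable def l38148 : Lb := (@Lb.r r323 (@Lb.d (nat_lit 130) (nat_lit 514) (nat_lit 2) (@Lb.g g8 (@Lb.g g9 (@Lb.g g10 (@Lb.r r2473 (@Lb.r r339 (@Lb.r r646 (@Lb.r r72 (@Lb.d (nat_lit 144) (nat_lit 64) (nat_lit 665) (@Lb.t (@Lb.fp (nat_lit 9) t3031))))))))))))
noncomputable def l38149 : Lb := (@Lb.r r134 (@Lb.r r324 (@Lb.r r539 (@Lb.r r289 (@Lb.r r36 (@Lb.d (nat_lit 320) (nat_lit 74) (nat_lit 514) (@Lb.fm (nat_lit 1) t1449)))))))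
noncomputable def l38150 : Lb := (@Lb.r r323 (@Lb.d (nat_lit 2) (nat_lit 2) (nat_lit 2) (@Lb.g g8 (@Lb.g g9 (@Lb.g g10 (@Lb.r r2731 (@Lb.r r161 (@Lb.r r610 (@Lb.r r24 (@Lb.d (nat_lit 264) (nat_lit 146) (nat_lit 262) (@Lb.t (@Lb.fp (nat_lit 9) t6683))))))))))))
noncomputable def l38151 : Lb := (@Lb.d (nat_lit 130) (nat_lit 2) (nat_lit 0) (@Lb.g g8 (@Lb.g g9 (@Lb.r r2695 (@Lb.r r2178 (@Lb.r r2472 (@Lb.r r25 (@Lb.d (nat_lit 104) (nat_lit 36) (nat_lit 290) (@Lb.fp (nat_lit 3) t5173)))))))))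
noncomputable def l38152 : Lb := (@Lb.d (nat_lit 32) (nat_lit 256) (nat_lit 73) (@Lb.g g9 (@Lb.g g10 (@Lb.g g11 (@Lb.r r2713 (@Lb.r r1380 (@Lb.r r2715 (@Lb.r r2202 (@Lb.d (nat_lit 170) (nat_lit 150) (nat_lit 100) (@Lb.t (@Lb.fm (nat_lit 9) t3111)))))))))))
noncomputable def l38153 : Lb := (@Lb.d (nat_lit 352) (nat_lit 137) (nat_lit 645) (@Lb.r r2469 (@Lb.r r1368 (@Lb.r r2471 (@Lb.r r2474 (@Lb.g g7 (@Lb.g g5 (@Lb.g g4 (@Lb.d (nat_lit 17) (nat_lit 5) (nat_lit 128) (@Lb.t (@Lb.fm (nat_lit 9) t1369)))))))))))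
noncomputable def l38154 : Lb := (@Lb.r r82 (@Lb.d (nat_lit 161) (nat_lit 2) (nat_lit 128) (@Lb.g g8 (@Lb.g g9 (@Lb.g g11 (@Lb.r r2390 (@Lb.r r1411 (@Lb.r r1633 (@Lb.r r2216 (@Lb.d (nat_lit 69) (nat_lit 72) (nat_lit 170) (@Lb.t (@Lb.fm (nat_lit 9) t6091))))))))))))
noncomputable def l38155 : Lb := (@Lb.r r323 (@Lb.d (nat_lit 640) (nat_lit 512) (nat_lit 10) (@Lb.g g4 (@Lb.g g6 (@Lb.r r667 (@Lb.r r337 (@Lb.r r1634 (@Lb.d (nat_lit 1) (nat_lit 165) (nat_lit 132) (@Lb.fp (nat_lit 3) t2131)))))))))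
noncomputable def l38156 : Lb := (@Lb.d (nat_lit 0) (nat_lit 32) (nat_lit 128) (@Lb.g g11 (@Lb.r r2337 (@Lb.r r531 (@Lb.r r2178 (@Lb.r r8 (@Lb.d (nat_lit 294) (nat_lit 98) (nat_lit 162) (@Lb.t (@Lb.fp (nat_lit 3) t6684)))))))))
noncomputable def l38157 : Lb := (@Lb.r r82 (@Lb.d (nat_lit 2) (nat_lit 545) (nat_lit 128) (@Lb.g g8 (@Lb.g g9 (@Lb.g g11 (@Lb.r r555 (@Lb.r r612 (@Lb.r r90 (@Lb.r r37 (@Lb.d (nat_lit 33) (nat_lit 6) (nat_lit 2) (@Lb.t (@Lb.fm (nat_lit 9) t5))))))))))))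
noncomputable def l38158 : Lb := (@Lb.d (nat_lit 84) (nat_lit 36) (nat_lit 640) (@Lb.r r1624 (@Lb.r r146 (@Lb.r r345 (@Lb.g g11 (@Lb.g g4 (@Lb.d (nat_lit 5) (nat_lit 0) (nat_lit 324) (@Lb.r r578 (@Lb.r r529 (@Lb.fp (nat_lit 3) t3915))))))))))
noncomputable def l38159 : Lb := (@Lb.d (nat_lit 554) (nat_lit 2) (nat_lit 96) (@Lb.r r1416 (@Lb.r r81 (@Lb.r r162 (@Lb.r r145 (@Lb.g g7 (@Lb.d (nat_lit 64) (nat_lit 32) (nat_lit 576) (@Lb.t (@Lb.fm (nat_lit 3) t828)))))))))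
noncomputable def l38160 : Lb := (@Lb.d (nat_lit 129) (nat_lit 2) (nat_lit 130) (@Lb.g g8 (@Lb.g g9 (@Lb.g g10 (@Lb.g g11 (@Lb.r r1706 (@Lb.r r1411 (@Lb.r r2212 (@Lb.r r37 (@Lb.d (nat_lit 610) (nat_lit 128) (nat_lit 170) (@Lb.fp (nat_lit 9) t2805)))))))))))
noncomputable def l38161 : Lb := (@Lb.r r263 (@Lb.d (nat_lit 33) (nat_lit 516) (nat_lit 2) (@Lb.g g8 (@Lb.g g9 (@Lb.g g10 (@Lb.r r619 (@Lb.r r2626 (@Lb.r r425 (@Lb.r r2084 (@Lb.d (nat_lit 521) (nat_lit 132) (nat_lit 426) (@Lb.t (@Lb.fm (nat_lit 9) t4682))))))))))))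
noncomputable def l38162 : Lb := (@Lb.d (nat_lit 129) (nat_lit 258) (nat_lit 130) (@Lb.g g8 (@Lb.g g9 (@Lb.g g10 (@Lb.g g11 (@Lb.r r419 (@Lb.r r1156 (@Lb.r r2438 (@Lb.r r97 (@Lb.d (nat_lit 354) (nat_lit 21) (nat_lit 164) (@Lb.fp (nat_lit 9) t4220)))))))))))
noncomputable def l38163 : Lb := (@Lb.d (nat_lit 0) (nat_lit 257) (nat_lit 73) (@Lb.g g8 (@Lb.g g9 (@Lb.g g10 (@Lb.g g11 (@Lb.r r2691 (@Lb.r r2217 (@Lb.r r2658 (@Lb.r r2436 (@Lb.d (nat_lit 353) (nat_lit 160) (nat_lit 662) (@Lb.fp (nat_lit 9) t311)))))))))))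
noncomputable def l38164 : Lb := (@Lb.r r323 (@Lb.d (nat_lit 0) (nat_lit 258) (nat_lit 1) (@Lb.g g8 (@Lb.g g9 (@Lb.g g6 (@Lb.r r2667 (@Lb.r r97 (@Lb.r r24 (@Lb.d (nat_lit 264) (nat_lit 9) (nat_lit 128) (@Lb.t (@Lb.fm (nat_lit 9) t335)))))))))))
noncomputable def l38165 : Lb := (@Lb.r r21 (@Lb.r r70 (@Lb.d (nat_lit 2) (nat_lit 256) (nat_lit 0) (@Lb.g g8 (@Lb.r r1563 (@Lb.r r409 (@Lb.r r90 (@Lb.r r1176 (@Lb.d (nat_lit 38) (nat_lit 133) (nat_lit 17) (@Lb.t (@Lb.fp (nat_lit 3) t125)))))))))))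
noncomputable def l38166 : Lb := (@Lb.r r70 (@Lb.d (nat_lit 2) (nat_lit 513) (nat_lit 0) (@Lb.g g8 (@Lb.g g9 (@Lb.r r1579 (@Lb.r r362 (@Lb.r r1641 (@Lb.r r612 (@Lb.d (nat_lit 665) (nat_lit 104) (nat_lit 613) (@Lb.fm (nat_lit 3) t50))))))))))
noncomputable def l38167 : Lb := (@Lb.d (nat_lit 2) (nat_lit 34) (nat_lit 66) (@Lb.g g8 (@Lb.g g9 (@Lb.g g10 (@Lb.g g11 (@Lb.r r665 (@Lb.r r531 (@Lb.r r386 (@Lb.d (nat_lit 33) (nat_lit 81) (nat_lit 578) (@Lb.fp (nat_lit 9) t4904))))))))))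
noncomputable def l38168 : Lb := (@Lb.d (nat_lit 0) (nat_lit 0) (nat_lit 132) (@Lb.g g10 (@Lb.g g11 (@Lb.r r2691 (@Lb.r r2721 (@Lb.r r1698 (@Lb.r r1124 (@Lb.d (nat_lit 0) (nat_lit 146) (nat_lit 152) (@Lb.fp (nat_lit 3) t6685)))))))))
noncomputable def l38169 : Lb := (@Lb.d (nat_lit 160) (nat_lit 8) (nat_lit 66) (@Lb.g g10 (@Lb.g g11 (@Lb.r r260 (@Lb.r r363 (@Lb.r r2401 (@Lb.r r2642 (@Lb.d (nat_lit 522) (nat_lit 37) (nat_lit 514) (@Lb.fp (nat_lit 3) t5238)))))))))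
noncomputable def l38170 : Lb := (@Lb.d (nat_lit 0) (nat_lit 266) (nat_lit 2) (@Lb.g g7 (@Lb.g g10 (@Lb.fp (nat_lit 3) t354))))
noncomputable def l38171 : Lb := (@Lb.g g7 (@Lb.r r402 (@Lb.d (nat_lit 0) (nat_lit 320) (nat_lit 650) (@Lb.t (@Lb.fp (nat_lit 3) t1604)))))
noncomputable def l38172 : Lb := (@Lb.r r68 (@Lb.r r81 (@Lb.d (nat_lit 64) (nat_lit 8) (nat_lit 74) (@Lb.g g10 (@Lb.g g11 (@Lb.r r360 (@Lb.r r681 (@Lb.r r363 (@Lb.d (nat_lit 165) (nat_lit 80) (nat_lit 645) (@Lb.fm (nat_lit 3) t3777))))))))))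
noncomputable def l38173 : Lb := (@Lb.r r82 (@Lb.d (nat_lit 402) (nat_lit 258) (nat_lit 128) (@Lb.g g8 (@Lb.g g9 (@Lb.g g11 (@Lb.r r1323 (@Lb.r r1130 (@Lb.r r1049 (@Lb.d (nat_lit 521) (nat_lit 66) (nat_lit 426) (@Lb.t (@Lb.fm (nat_lit 9) t6686)))))))))))
noncomputable def l38174 : Lb := (@Lb.d (nat_lit 160) (nat_lit 0) (nat_lit 130) (@Lb.g g10 (@Lb.g g11 (@Lb.r r260 (@Lb.r r2651 (@Lb.r r2449 (@Lb.r r1426 (@Lb.d (nat_lit 72) (nat_lit 153) (nat_lit 521) (@Lb.fm (nat_lit 3) t3884)))))))))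
noncomputable def l38175 : Lb := (@Lb.d (nat_lit 160) (nat_lit 0) (nat_lit 129) (@Lb.g g10 (@Lb.g g11 (@Lb.r r2728 (@Lb.r r1449 (@Lb.r r1367 (@Lb.r r602 (@Lb.d (nat_lit 677) (nat_lit 97) (nat_lit 409) (@Lb.fm (nat_lit 3) t1894)))))))))
noncomputable def l38176 : Lb := (@Lb.r r82 (@Lb.d (nat_lit 401) (nat_lit 514) (nat_lit 64) (@Lb.g g8 (@Lb.g g9 (@Lb.g g11 (@Lb.r r2475 (@Lb.r r1130 (@Lb.r r1049 (@Lb.d (nat_lit 520) (nat_lit 154) (nat_lit 644) (@Lb.t (@Lb.fm (nat_lit 9) t6687)))))))))))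
noncomputable def l38177 : Lb := (@Lb.d (nat_lit 81) (nat_lit 512) (nat_lit 550) (@Lb.r r1048 (@Lb.r r410 (@Lb.r r597 (@Lb.g g11 (@Lb.g g6 (@Lb.g g5 (@Lb.d (nat_lit 0) (nat_lit 2) (nat_lit 390) (@Lb.r r516 (@Lb.t (@Lb.fm (nat_lit 9) t211)))))))))))
noncomputable def l38178 : Lb := (@Lb.d (nat_lit 0) (nat_lit 258) (nat_lit 73) (@Lb.g g9 (@Lb.g g10 (@Lb.g g11 (@Lb.r r2691 (@Lb.r r1189 (@Lb.r r1638 (@Lb.r r24 (@Lb.d (nat_lit 384) (nat_lit 0) (nat_lit 406) (@Lb.t (@Lb.fp (nat_lit 9) t4386)))))))))))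
noncomputable def l38179 : Lb := (@Lb.d (nat_lit 130) (nat_lit 514) (nat_lit 130) (@Lb.g g8 (@Lb.g g9 (@Lb.g g10 (@Lb.g g11 (@Lb.r r2308 (@Lb.r r1451 (@Lb.r r386 (@Lb.r r97 (@Lb.d (nat_lit 512) (nat_lit 137) (nat_lit 649) (@Lb.fp (nat_lit 9) t1640)))))))))))
noncomputable def l38180 : Lb := (@Lb.d (nat_lit 9) (nat_lit 289) (nat_lit 65) (@Lb.g g8 (@Lb.g g9 (@Lb.g g10 (@Lb.g g11 (@Lb.r r676 (@Lb.r r646 (@Lb.r r1415 (@Lb.r r2145 (@Lb.r r2564 (@Lb.d (nat_lit 273) (nat_lit 137) (nat_lit 608) (@Lb.fp (nat_lit 9) t3197))))))))))))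
noncomputable def l38181 : Lb := (@Lb.d (nat_lit 9) (nat_lit 1) (nat_lit 130) (@Lb.g g8 (@Lb.g g9 (@Lb.g g10 (@Lb.g g11 (@Lb.r r610 (@Lb.r r404 (@Lb.r r619 (@Lb.r r97 (@Lb.r r516 (@Lb.d (nat_lit 617) (nat_lit 137) (nat_lit 657) (@Lb.fp (nat_lit 9) t1994))))))))))))
noncomputable def l38182 : Lb := (@Lb.d (nat_lit 0) (nat_lit 1) (nat_lit 130) (@Lb.g g9 (@Lb.g g10 (@Lb.g g11 (@Lb.r r586 (@Lb.r r584 (@Lb.r r667 (@Lb.r r337 (@Lb.d (nat_lit 9) (nat_lit 42) (nat_lit 80) (@Lb.t (@Lb.fm (nat_lit 9) t333)))))))))))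
noncomputable def l38183 : Lb := (@Lb.d (nat_lit 658) (nat_lit 657) (nat_lit 80) (@Lb.r r2321 (@Lb.r r2371 (@Lb.r r2726 (@Lb.g g6 (@Lb.g g5 (@Lb.g g8 (@Lb.d (nat_lit 256) (nat_lit 1) (nat_lit 0) (@Lb.r r391 (@Lb.t (@Lb.fp (nat_lit 9) t6637)))))))))))
noncomputable def l38184 : Lb := (@Lb.d (nat_lit 533) (nat_lit 649) (nat_lit 0) (@Lb.r r2644 (@Lb.r r2375 (@Lb.r r658 (@Lb.r r353 (@Lb.g g7 (@Lb.d (nat_lit 0) (nat_lit 0) (nat_lit 64) (@Lb.t (@Lb.fm (nat_lit 3) t472)))))))))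
noncomputable def l38185 : Lb := (@Lb.d (nat_lit 9) (nat_lit 289) (nat_lit 72) (@Lb.g g8 (@Lb.g g9 (@Lb.g g11 (@Lb.r r612 (@Lb.r r330 (@Lb.r r1415 (@Lb.r r2145 (@Lb.d (nat_lit 593) (nat_lit 137) (nat_lit 408) (@Lb.t (@Lb.fp (nat_lit 9) t3197)))))))))))
noncomputable def l38186 : Lb := (@Lb.d (nat_lit 533) (nat_lit 137) (nat_lit 2) (@Lb.r r2644 (@Lb.r r2375 (@Lb.r r658 (@Lb.r r337 (@Lb.g g7 (@Lb.g g5 (@Lb.d (nat_lit 0) (nat_lit 2) (nat_lit 64) (@Lb.fp (nat_lit 3) t1148)))))))))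
noncomputable def l38187 : Lb := (@Lb.d (nat_lit 10) (nat_lit 2) (nat_lit 130) (@Lb.g g8 (@Lb.g g9 (@Lb.g g10 (@Lb.g g11 (@Lb.r r548 (@Lb.r r295 (@Lb.r r1626 (@Lb.r r405 (@Lb.r r2596 (@Lb.d (nat_lit 610) (nat_lit 73) (nat_lit 513) (@Lb.fp (nat_lit 9) t1561))))))))))))
noncomputable def l38188 : Lb := (@Lb.d (nat_lit 1) (nat_lit 145) (nat_lit 261) (@Lb.r r21 (@Lb.r r579 (@Lb.r r1366 (@Lb.g g7 (@Lb.g g6 (@Lb.g g5 (@Lb.g g4 (@Lb.d (nat_lit 1) (nat_lit 8) (nat_lit 133) (@Lb.fm (nat_lit 9) t40))))))))))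
noncomputable def l38189 : Lb := (@Lb.r r275 (@Lb.d (nat_lit 9) (nat_lit 2) (nat_lit 9) (@Lb.g g8 (@Lb.g g9 (@Lb.g g10 (@Lb.r r1347 (@Lb.r r2666 (@Lb.r r36 (@Lb.r r2085 (@Lb.d (nat_lit 361) (nat_lit 129) (nat_lit 618) (@Lb.t (@Lb.fp (nat_lit 9) t3197))))))))))))
noncomputable def l38190 : Lb := (@Lb.d (nat_lit 33) (nat_lit 265) (nat_lit 72) (@Lb.g g8 (@Lb.g g9 (@Lb.g g10 (@Lb.g g11 (@Lb.r r2327 (@Lb.r r1194 (@Lb.r r2657 (@Lb.r r536 (@Lb.d (nat_lit 424) (nat_lit 73) (nat_lit 90) (@Lb.fm (nat_lit 9) t4119)))))))))))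
noncomputable def l38191 : Lb := (@Lb.d (nat_lit 0) (nat_lit 294) (nat_lit 133) (@Lb.g g9 (@Lb.g g10 (@Lb.g g11 (@Lb.r r1706 (@Lb.r r1188 (@Lb.r r1317 (@Lb.r r531 (@Lb.d (nat_lit 325) (nat_lit 162) (nat_lit 266) (@Lb.t (@Lb.fp (nat_lit 9) t2527)))))))))))
noncomputable def l38192 : Lb := (@Lb.d (nat_lit 9) (nat_lit 514) (nat_lit 9) (@Lb.g g8 (@Lb.g g5 (@Lb.g g10 (@Lb.g g11 (@Lb.r r2691 (@Lb.r r1178 (@Lb.r r24 (@Lb.d (nat_lit 138) (nat_lit 0) (nat_lit 424) (@Lb.fp (nat_lit 9) t282))))))))))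
noncomputable def l38193 : Lb := (@Lb.d (nat_lit 2) (nat_lit 2) (nat_lit 73) (@Lb.g g8 (@Lb.g g9 (@Lb.g g10 (@Lb.g g11 (@Lb.r r1706 (@Lb.r r680 (@Lb.r r555 (@Lb.r r2089 (@Lb.r r2084 (@Lb.d (nat_lit 325) (nat_lit 1) (nat_lit 256) (@Lb.fp (nat_lit 9) t504))))))))))))
noncomputable def l38194 : Lb := (@Lb.d (nat_lit 146) (nat_lit 513) (nat_lit 133) (@Lb.g g8 (@Lb.g g9 (@Lb.g g10 (@Lb.g g11 (@Lb.r r2723 (@Lb.r r341 (@Lb.r r2730 (@Lb.r r1060 (@Lb.d (nat_lit 328) (nat_lit 132) (nat_lit 138) (@Lb.fp (nat_lit 9) t6688)))))))))))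
noncomputable def l38195 : Lb := (@Lb.d (nat_lit 6) (nat_lit 165) (nat_lit 582) (@Lb.r r97 (@Lb.r r1706 (@Lb.r r1627 (@Lb.r r2628 (@Lb.g g7 (@Lb.g g6 (@Lb.g g5 (@Lb.d (nat_lit 0) (nat_lit 1) (nat_lit 134) (@Lb.t (@Lb.fm (nat_lit 9) t3428)))))))))))
noncomputable def l38196 : Lb := (@Lb.d (nat_lit 153) (nat_lit 2) (nat_lit 130) (@Lb.g g8 (@Lb.g g9 (@Lb.g g10 (@Lb.g g11 (@Lb.r r419 (@Lb.r r1188 (@Lb.r r422 (@Lb.r r1317 (@Lb.d (nat_lit 98) (nat_lit 106) (nat_lit 88) (@Lb.fp (nat_lit 9) t6516)))))))))))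
noncomputable def l38197 : Lb := (@Lb.d (nat_lit 16) (nat_lit 1) (nat_lit 64) (@Lb.g g8 (@Lb.g g9 (@Lb.g g10 (@Lb.g g11 (@Lb.r r2457 (@Lb.r r2407 (@Lb.r r1610 (@Lb.r r2728 (@Lb.d (nat_lit 341) (nat_lit 90) (nat_lit 681) (@Lb.fm (nat_lit 9) t6689)))))))))))
noncomputable def l38198 : Lb := (@Lb.d (nat_lit 394) (nat_lit 33) (nat_lit 0) (@Lb.r r548 (@Lb.r r533 (@Lb.r r1299 (@Lb.g g5 (@Lb.g g4 (@Lb.d (nat_lit 65) (nat_lit 1) (nat_lit 0) (@Lb.fm (nat_lit 3) t76))))))))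
noncomputable def l38199 : Lb := (@Lb.d (nat_lit 0) (nat_lit 264) (nat_lit 130) (@Lb.g g10 (@Lb.g g11 (@Lb.r r387 (@Lb.d (nat_lit 610) (nat_lit 2) (nat_lit 594) (@Lb.fm (nat_lit 3) t3603))))))
noncomputable def l38200 : Lb := (@Lb.r r21 (@Lb.r r331 (@Lb.d (nat_lit 640) (nat_lit 256) (nat_lit 2) (@Lb.g g4 (@Lb.g g10 (@Lb.r r299 (@Lb.r r2465 (@Lb.r r2146 (@Lb.d (nat_lit 293) (nat_lit 10) (nat_lit 1) (@Lb.fm (nat_lit 3) t3787))))))))))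
noncomputable def l38201 : Lb := (@Lb.r r21 (@Lb.d (nat_lit 82) (nat_lit 512) (nat_lit 72) (@Lb.g g8 (@Lb.g g10 (@Lb.g g11 (@Lb.r r1347 (@Lb.r r1688 (@Lb.r r1637 (@Lb.r r1682 (@Lb.d (nat_lit 1) (nat_lit 41) (nat_lit 593) (@Lb.t (@Lb.fp (nat_lit 9) t4720))))))))))))
noncomputable def l38202 : Lb := (@Lb.d (nat_lit 577) (nat_lit 256) (nat_lit 0) (@Lb.g g8 (@Lb.g g11 (@Lb.r r1431 (@Lb.r r81 (@Lb.r r162 (@Lb.r r145 (@Lb.d (nat_lit 665) (nat_lit 38) (nat_lit 420) (@Lb.fp (nat_lit 3) t6690)))))))))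
noncomputable def l38203 : Lb := (@Lb.d (nat_lit 65) (nat_lit 292) (nat_lit 64) (@Lb.g g8 (@Lb.g g9 (@Lb.g g10 (@Lb.g g11 (@Lb.r r1287 (@Lb.r r1193 (@Lb.r r1700 (@Lb.r r1638 (@Lb.d (nat_lit 130) (nat_lit 90) (nat_lit 70) (@Lb.fm (nat_lit 9) t6691)))))))))))
noncomputable def l38204 : Lb := (@Lb.r r1291 (@Lb.d (nat_lit 385) (nat_lit 256) (nat_lit 0) (@Lb.g g8 (@Lb.g g5 (@Lb.d (nat_lit 9) (nat_lit 128) (nat_lit 384) (@Lb.fp (nat_lit 3) t6461))))))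
noncomputable def l38205 : Lb := (@Lb.d (nat_lit 4) (nat_lit 0) (nat_lit 73) (@Lb.g g8 (@Lb.g g10 (@Lb.g g11 (@Lb.r r1185 (@Lb.r r2658 (@Lb.r r579 (@Lb.d (nat_lit 322) (nat_lit 20) (nat_lit 362) (@Lb.t (@Lb.fm (nat_lit 9) t6692))))))))))
noncomputable def l38206 : Lb := (@Lb.r r82 (@Lb.d (nat_lit 73) (nat_lit 34) (nat_lit 64) (@Lb.g g8 (@Lb.g g9 (@Lb.g g11 (@Lb.r r1287 (@Lb.r r1177 (@Lb.r r1690 (@Lb.r r1668 (@Lb.d (nat_lit 65) (nat_lit 0) (nat_lit 162) (@Lb.t (@Lb.fp (nat_lit 9) t6400))))))))))))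
noncomputable def l38207 : Lb := (@Lb.r r82 (@Lb.d (nat_lit 137) (nat_lit 530) (nat_lit 128) (@Lb.g g8 (@Lb.g g9 (@Lb.g g11 (@Lb.r r2571 (@Lb.r r1177 (@Lb.r r1690 (@Lb.r r1668 (@Lb.d (nat_lit 65) (nat_lit 0) (nat_lit 162) (@Lb.t (@Lb.fm (nat_lit 9) t6400))))))))))))
noncomputable def l38208 : Lb := (@Lb.d (nat_lit 80) (nat_lit 262) (nat_lit 682) (@Lb.r r82 (@Lb.r r2727 (@Lb.g g7 (@Lb.g g6 (@Lb.g g5 (@Lb.g g8 (@Lb.d (nat_lit 2) (nat_lit 129) (nat_lit 129) (@Lb.fp (nat_lit 9) t6588)))))))))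
noncomputable def l38209 : Lb := (@Lb.d (nat_lit 0) (nat_lit 256) (nat_lit 2) (@Lb.g g8 (@Lb.g g10 (@Lb.g g11 (@Lb.r r386 (@Lb.d (nat_lit 0) (nat_lit 5) (nat_lit 10) (@Lb.t (@Lb.fp (nat_lit 9) t45))))))))
noncomputable def l38210 : Lb := (@Lb.d (nat_lit 10) (nat_lit 512) (nat_lit 2) (@Lb.g g8 (@Lb.g g10 (@Lb.g g11 (@Lb.r r2138 (@Lb.r r1429 (@Lb.r r1643 (@Lb.r r1608 (@Lb.d (nat_lit 97) (nat_lit 0) (nat_lit 546) (@Lb.t (@Lb.fm (nat_lit 9) t282)))))))))))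
noncomputable def l38211 : Lb := (@Lb.r r82 (@Lb.d (nat_lit 130) (nat_lit 16) (nat_lit 128) (@Lb.g g8 (@Lb.g g9 (@Lb.g g11 (@Lb.r r299 (@Lb.r r2154 (@Lb.r r2073 (@Lb.r r1540 (@Lb.d (nat_lit 65) (nat_lit 162) (nat_lit 640) (@Lb.t (@Lb.fm (nat_lit 9) t5243))))))))))))
noncomputable def l38212 : Lb := (@Lb.r r21 (@Lb.r r70 (@Lb.d (nat_lit 264) (nat_lit 256) (nat_lit 128) (@Lb.g g8 (@Lb.g g11 (@Lb.r r101 (@Lb.r r2450 (@Lb.d (nat_lit 2) (nat_lit 0) (nat_lit 26) (@Lb.fm (nat_lit 3) t6693)))))))))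
noncomputable def l38213 : Lb := (@Lb.d (nat_lit 130) (nat_lit 0) (nat_lit 64) (@Lb.g g8 (@Lb.g g11 (@Lb.r r337 (@Lb.r r1579 (@Lb.r r2438 (@Lb.r r552 (@Lb.r r2201 (@Lb.d (nat_lit 102) (nat_lit 24) (nat_lit 297) (@Lb.fp (nat_lit 3) t6694))))))))))
noncomputable def l38214 : Lb := (@Lb.d (nat_lit 9) (nat_lit 520) (nat_lit 72) (@Lb.g g8 (@Lb.g g9 (@Lb.g g10 (@Lb.g g11 (@Lb.r r331 (@Lb.r r2657 (@Lb.r r344 (@Lb.r r598 (@Lb.d (nat_lit 601) (nat_lit 98) (nat_lit 329) (@Lb.fp (nat_lit 9) t2301)))))))))))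
noncomputable def l38215 : Lb := (@Lb.d (nat_lit 9) (nat_lit 257) (nat_lit 73) (@Lb.g g8 (@Lb.g g9 (@Lb.g g10 (@Lb.g g11 (@Lb.r r2691 (@Lb.r r297 (@Lb.r r648 (@Lb.r r666 (@Lb.r r1156 (@Lb.d (nat_lit 640) (nat_lit 42) (nat_lit 137) (@Lb.fp (nat_lit 9) t259))))))))))))
noncomputable def l38216 : Lb := (@Lb.d (nat_lit 357) (nat_lit 386) (nat_lit 404) (@Lb.r r1428 (@Lb.r r150 (@Lb.r r2579 (@Lb.g g5 (@Lb.g g4 (@Lb.d (nat_lit 16) (nat_lit 65) (nat_lit 0) (@Lb.r r291 (@Lb.r r98 (@Lb.fm (nat_lit 3) t858))))))))))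
noncomputable def l38217 : Lb := (@Lb.d (nat_lit 2) (nat_lit 538) (nat_lit 1) (@Lb.g g8 (@Lb.g g9 (@Lb.g g10 (@Lb.g g11 (@Lb.r r2391 (@Lb.r r358 (@Lb.r r664 (@Lb.r r421 (@Lb.d (nat_lit 104) (nat_lit 97) (nat_lit 2) (@Lb.fp (nat_lit 9) t1880)))))))))))
noncomputable def l38218 : Lb := (@Lb.r r275 (@Lb.d (nat_lit 2) (nat_lit 297) (nat_lit 1) (@Lb.g g8 (@Lb.g g9 (@Lb.g g10 (@Lb.r r2466 (@Lb.r r2635 (@Lb.r r1572 (@Lb.r r1685 (@Lb.d (nat_lit 420) (nat_lit 165) (nat_lit 554) (@Lb.t (@Lb.fm (nat_lit 9) t1880))))))))))))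
noncomputable def l38219 : Lb := (@Lb.d (nat_lit 129) (nat_lit 513) (nat_lit 73) (@Lb.g g8 (@Lb.g g9 (@Lb.g g10 (@Lb.g g11 (@Lb.r r2571 (@Lb.r r405 (@Lb.r r406 (@Lb.r r2084 (@Lb.d (nat_lit 292) (nat_lit 161) (nat_lit 345) (@Lb.fp (nat_lit 9) t4216)))))))))))
noncomputable def l38220 : Lb := (@Lb.d (nat_lit 0) (nat_lit 512) (nat_lit 138) (@Lb.g g4 (@Lb.g g10 (@Lb.g g11 (@Lb.r r2707 (@Lb.r r2626 (@Lb.d (nat_lit 0) (nat_lit 152) (nat_lit 297) (@Lb.t (@Lb.fm (nat_lit 9) t51)))))))))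
noncomputable def l38221 : Lb := (@Lb.d (nat_lit 0) (nat_lit 0) (nat_lit 128) (@Lb.g g11 (@Lb.r r2145 (@Lb.r r658 (@Lb.r r387 (@Lb.r r2564 (@Lb.d (nat_lit 2) (nat_lit 164) (nat_lit 328) (@Lb.t (@Lb.fp (nat_lit 3) t242)))))))))
noncomputable def l38222 : Lb := (@Lb.d (nat_lit 520) (nat_lit 418) (nat_lit 330) (@Lb.r r2085 (@Lb.r r1126 (@Lb.r r1575 (@Lb.g g7 (@Lb.g g4 (@Lb.d (nat_lit 1) (nat_lit 0) (nat_lit 128) (@Lb.fm (nat_lit 3) t1751))))))))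
noncomputable def l38223 : Lb := (@Lb.d (nat_lit 281) (nat_lit 165) (nat_lit 421) (@Lb.r r72 (@Lb.r r2386 (@Lb.r r1189 (@Lb.g g7 (@Lb.g g6 (@Lb.g g5 (@Lb.d (nat_lit 0) (nat_lit 24) (nat_lit 577) (@Lb.r r388 (@Lb.t (@Lb.fp (nat_lit 9) t976)))))))))))
noncomputable def l38224 : Lb := (@Lb.r r260 (@Lb.r r322 (@Lb.d (nat_lit 4) (nat_lit 34) (nat_lit 260) (@Lb.g g9 (@Lb.g g7 (@Lb.r r1444 (@Lb.r r2390 (@Lb.r r1697 (@Lb.d (nat_lit 136) (nat_lit 101) (nat_lit 38) (@Lb.fm (nat_lit 3) t976))))))))))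
noncomputable def l38225 : Lb := (@Lb.r r355 (@Lb.d (nat_lit 0) (nat_lit 265) (nat_lit 21) (@Lb.g g9 (@Lb.g g10 (@Lb.r r547 (@Lb.r r1633 (@Lb.r r36 (@Lb.d (nat_lit 330) (nat_lit 148) (nat_lit 40) (@Lb.fm (nat_lit 3) t4245)))))))))
noncomputable def l38226 : Lb := (@Lb.d (nat_lit 154) (nat_lit 258) (nat_lit 130) (@Lb.g g8 (@Lb.g g9 (@Lb.g g10 (@Lb.g g11 (@Lb.r r642 (@Lb.r r2455 (@Lb.r r2145 (@Lb.r r536 (@Lb.d (nat_lit 616) (nat_lit 105) (nat_lit 6) (@Lb.fm (nat_lit 9) t2498)))))))))))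
noncomputable def l38227 : Lb := (@Lb.d (nat_lit 402) (nat_lit 646) (nat_lit 273) (@Lb.r r1604 (@Lb.r r615 (@Lb.r r593 (@Lb.r r2386 (@Lb.g g7 (@Lb.g g6 (@Lb.g g4 (@Lb.d (nat_lit 6) (nat_lit 16) (nat_lit 128) (@Lb.t (@Lb.fm (nat_lit 9) t2996)))))))))))
noncomputable def l38228 : Lb := (@Lb.d (nat_lit 0) (nat_lit 512) (nat_lit 2) (@Lb.g g10 (@Lb.r r1411 (@Lb.r r386 (@Lb.r r24 (@Lb.r r101 (@Lb.d (nat_lit 0) (nat_lit 133) (nat_lit 645) (@Lb.t (@Lb.fm (nat_lit 3) t126)))))))))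
noncomputable def l38229 : Lb := (@Lb.d (nat_lit 645) (nat_lit 0) (nat_lit 22) (@Lb.r r24 (@Lb.r r323 (@Lb.r r1602 (@Lb.g g7 (@Lb.g g9 (@Lb.d (nat_lit 0) (nat_lit 0) (nat_lit 64) (@Lb.fm (nat_lit 3) t420))))))))
noncomputable def l38230 : Lb := (@Lb.d (nat_lit 32) (nat_lit 256) (nat_lit 2) (@Lb.g g6 (@Lb.r r24 (@Lb.r r2341 (@Lb.r r659 (@Lb.r r2706 (@Lb.d (nat_lit 280) (nat_lit 18) (nat_lit 324) (@Lb.t (@Lb.fm (nat_lit 3) t87)))))))))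
noncomputable def l38231 : Lb := (@Lb.r r323 (@Lb.d (nat_lit 164) (nat_lit 514) (nat_lit 2) (@Lb.g g8 (@Lb.g g9 (@Lb.g g10 (@Lb.r r409 (@Lb.r r1319 (@Lb.r r1604 (@Lb.r r1098 (@Lb.d (nat_lit 68) (nat_lit 129) (nat_lit 408) (@Lb.t (@Lb.fm (nat_lit 9) t1246))))))))))))
noncomputable def l38232 : Lb := (@Lb.r r359 (@Lb.d (nat_lit 36) (nat_lit 260) (nat_lit 0) (@Lb.g g8 (@Lb.g g9 (@Lb.g g10 (@Lb.r r338 (@Lb.r r1411 (@Lb.r r661 (@Lb.r r2728 (@Lb.d (nat_lit 516) (nat_lit 86) (nat_lit 146) (@Lb.t (@Lb.fp (nat_lit 9) t283))))))))))))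
noncomputable def l38233 : Lb := (@Lb.d (nat_lit 2) (nat_lit 512) (nat_lit 0) (@Lb.g g8 (@Lb.r r1351 (@Lb.r r81 (@Lb.r r162 (@Lb.r r145 (@Lb.r r2564 (@Lb.d (nat_lit 146) (nat_lit 8) (nat_lit 400) (@Lb.t (@Lb.fm (nat_lit 3) t1277))))))))))
noncomputable def l38234 : Lb := (@Lb.d (nat_lit 513) (nat_lit 674) (nat_lit 358) (@Lb.r r161 (@Lb.r r98 (@Lb.r r363 (@Lb.r r264 (@Lb.g g7 (@Lb.g g5 (@Lb.d (nat_lit 64) (nat_lit 4) (nat_lit 64) (@Lb.fm (nat_lit 3) t3355)))))))))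
noncomputable def l38235 : Lb := (@Lb.g g8 (@Lb.r r89 (@Lb.r r166 (@Lb.r r344 (@Lb.r r679 (@Lb.r r657 (@Lb.d (nat_lit 528) (nat_lit 1) (nat_lit 145) (@Lb.t (@Lb.fm (nat_lit 3) t1607)))))))))
noncomputable def l38236 : Lb := (@Lb.d (nat_lit 513) (nat_lit 145) (nat_lit 388) (@Lb.r r1284 (@Lb.r r1291 (@Lb.r r296 (@Lb.r r2153 (@Lb.g g7 (@Lb.g g10 (@Lb.g g5 (@Lb.g g4 (@Lb.d (nat_lit 96) (nat_lit 6) (nat_lit 130) (@Lb.fm (nat_lit 9) t145)))))))))))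
noncomputable def l38237 : Lb := (@Lb.d (nat_lit 33) (nat_lit 262) (nat_lit 130) (@Lb.g g8 (@Lb.g g9 (@Lb.g g10 (@Lb.g g11 (@Lb.r r578 (@Lb.r r516 (@Lb.r r2647 (@Lb.r r1321 (@Lb.r r2084 (@Lb.d (nat_lit 168) (nat_lit 8) (nat_lit 97) (@Lb.fp (nat_lit 9) t3371))))))))))))
noncomputable def l38238 : Lb := (@Lb.r r70 (@Lb.r r263 (@Lb.d (nat_lit 4) (nat_lit 261) (nat_lit 0) (@Lb.g g8 (@Lb.g g5 (@Lb.r r2403 (@Lb.r r2202 (@Lb.r r1156 (@Lb.d (nat_lit 0) (nat_lit 1) (nat_lit 18) (@Lb.fm (nat_lit 3) t58))))))))))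
noncomputable def l38239 : Lb := (@Lb.d (nat_lit 133) (nat_lit 576) (nat_lit 73) (@Lb.g g8 (@Lb.g g9 (@Lb.g g10 (@Lb.g g11 (@Lb.r r1623 (@Lb.r r682 (@Lb.r r1636 (@Lb.d (nat_lit 136) (nat_lit 90) (nat_lit 274) (@Lb.fp (nat_lit 9) t2493))))))))))
noncomputable def l38240 : Lb := (@Lb.r r70 (@Lb.r r263 (@Lb.d (nat_lit 10) (nat_lit 0) (nat_lit 0) (@Lb.g g4 (@Lb.r r2327 (@Lb.r r105 (@Lb.r r1110 (@Lb.r r136 (@Lb.d (nat_lit 289) (nat_lit 0) (nat_lit 1) (@Lb.t (@Lb.fm (nat_lit 3) t1699)))))))))))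
noncomputable def l38241 : Lb := (@Lb.d (nat_lit 132) (nat_lit 10) (nat_lit 64) (@Lb.g g9 (@Lb.g g11 (@Lb.r r2660 (@Lb.r r2714 (@Lb.r r1435 (@Lb.r r1621 (@Lb.d (nat_lit 22) (nat_lit 26) (nat_lit 288) (@Lb.fp (nat_lit 3) t5146)))))))))
noncomputable def l38242 : Lb := (@Lb.r r21 (@Lb.d (nat_lit 130) (nat_lit 264) (nat_lit 41) (@Lb.g g8 (@Lb.g g6 (@Lb.r r661 (@Lb.r r535 (@Lb.r r296 (@Lb.d (nat_lit 133) (nat_lit 145) (nat_lit 321) (@Lb.fp (nat_lit 3) t242)))))))))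
noncomputable def l38243 : Lb := (@Lb.r r134 (@Lb.r r324 (@Lb.r r539 (@Lb.r r289 (@Lb.r r36 (@Lb.d (nat_lit 0) (nat_lit 581) (nat_lit 1) (@Lb.fm (nat_lit 1) t51)))))))
noncomputable def l38244 : Lb := (@Lb.d (nat_lit 0) (nat_lit 258) (nat_lit 2) (@Lb.g g8 (@Lb.g g9 (@Lb.g g10 (@Lb.g g7 (@Lb.r r1442 (@Lb.r r145 (@Lb.r r2120 (@Lb.d (nat_lit 610) (nat_lit 169) (nat_lit 97) (@Lb.fm (nat_lit 9) t5077))))))))))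
noncomputable def l38245 : Lb := (@Lb.d (nat_lit 4) (nat_lit 257) (nat_lit 72) (@Lb.g g8 (@Lb.g g9 (@Lb.g g11 (@Lb.r r1410 (@Lb.r r579 (@Lb.r r1561 (@Lb.d (nat_lit 585) (nat_lit 2) (nat_lit 425) (@Lb.t (@Lb.fm (nat_lit 9) t1035))))))))))
noncomputable def l38246 : Lb := (@Lb.d (nat_lit 32) (nat_lit 256) (nat_lit 66) (@Lb.g g9 (@Lb.g g10 (@Lb.g g11 (@Lb.r r1315 (@Lb.r r2341 (@Lb.r r1352 (@Lb.r r2710 (@Lb.d (nat_lit 390) (nat_lit 160) (nat_lit 81) (@Lb.t (@Lb.fp (nat_lit 9) t3282)))))))))))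
noncomputable def l38247 : Lb := (@Lb.d (nat_lit 646) (nat_lit 288) (nat_lit 2) (@Lb.g g4 (@Lb.g g9 (@Lb.g g10 (@Lb.r r2470 (@Lb.r r595 (@Lb.r r2465 (@Lb.d (nat_lit 144) (nat_lit 33) (nat_lit 90) (@Lb.t (@Lb.fm (nat_lit 9) t4020))))))))))
noncomputable def l38248 : Lb := (@Lb.d (nat_lit 2) (nat_lit 514) (nat_lit 73) (@Lb.g g8 (@Lb.g g9 (@Lb.g g10 (@Lb.g g11 (@Lb.r r2691 (@Lb.r r2216 (@Lb.r r1610 (@Lb.r r1313 (@Lb.d (nat_lit 640) (nat_lit 169) (nat_lit 650) (@Lb.fm (nat_lit 9) t1719)))))))))))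
noncomputable def l38249 : Lb := (@Lb.d (nat_lit 34) (nat_lit 258) (nat_lit 0) (@Lb.g g8 (@Lb.g g9 (@Lb.r r617 (@Lb.r r427 (@Lb.r r582 (@Lb.r r1416 (@Lb.d (nat_lit 337) (nat_lit 10) (nat_lit 585) (@Lb.fm (nat_lit 3) t228)))))))))
noncomputable def l38250 : Lb := (@Lb.d (nat_lit 4) (nat_lit 522) (nat_lit 129) (@Lb.g g8 (@Lb.g g9 (@Lb.g g10 (@Lb.g g11 (@Lb.r r427 (@Lb.r r424 (@Lb.r r106 (@Lb.r r2409 (@Lb.d (nat_lit 165) (nat_lit 8) (nat_lit 353) (@Lb.fp (nat_lit 9) t278)))))))))))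
noncomputable def l38251 : Lb := (@Lb.d (nat_lit 0) (nat_lit 514) (nat_lit 130) (@Lb.g g8 (@Lb.g g9 (@Lb.g g10 (@Lb.g g11 (@Lb.r r427 (@Lb.r r2146 (@Lb.r r292 (@Lb.r r2069 (@Lb.r r1060 (@Lb.d (nat_lit 294) (nat_lit 72) (nat_lit 33) (@Lb.fp (nat_lit 9) t1089))))))))))))
noncomputable def l38252 : Lb := (@Lb.d (nat_lit 146) (nat_lit 618) (nat_lit 598) (@Lb.r r1426 (@Lb.r r2133 (@Lb.r r323 (@Lb.g g7 (@Lb.g g6 (@Lb.g g5 (@Lb.g g4 (@Lb.d (nat_lit 1) (nat_lit 17) (nat_lit 129) (@Lb.fm (nat_lit 9) t3110))))))))))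
noncomputable def l38253 : Lb := (@Lb.r r273 (@Lb.d (nat_lit 0) (nat_lit 288) (nat_lit 258) (@Lb.g g6 (@Lb.g g7 (@Lb.r r665 (@Lb.r r2202 (@Lb.r r24 (@Lb.d (nat_lit 82) (nat_lit 0) (nat_lit 662) (@Lb.fm (nat_lit 3) t3810)))))))))
noncomputable def l38254 : Lb := (@Lb.d (nat_lit 2) (nat_lit 514) (nat_lit 130) (@Lb.g g8 (@Lb.g g9 (@Lb.g g10 (@Lb.g g11 (@Lb.r r2729 (@Lb.r r2475 (@Lb.r r2468 (@Lb.r r2438 (@Lb.d (nat_lit 401) (nat_lit 10) (nat_lit 260) (@Lb.fp (nat_lit 9) t590)))))))))))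
noncomputable def l38255 : Lb := (@Lb.d (nat_lit 530) (nat_lit 337) (nat_lit 662) (@Lb.r r386 (@Lb.r r2579 (@Lb.r r2389 (@Lb.g g7 (@Lb.g g6 (@Lb.g g5 (@Lb.g g4 (@Lb.d (nat_lit 1) (nat_lit 1) (nat_lit 70) (@Lb.fp (nat_lit 9) t1115))))))))))
noncomputable def l38256 : Lb := (@Lb.r r21 (@Lb.d (nat_lit 144) (nat_lit 516) (nat_lit 26) (@Lb.g g8 (@Lb.g g6 (@Lb.r r391 (@Lb.r r1313 (@Lb.r r584 (@Lb.d (nat_lit 97) (nat_lit 24) (nat_lit 592) (@Lb.fp (nat_lit 3) t2095)))))))))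
noncomputable def l38257 : Lb := (@Lb.d (nat_lit 2) (nat_lit 288) (nat_lit 64) (@Lb.g g8 (@Lb.g g11 (@Lb.r r2337 (@Lb.r r1363 (@Lb.r r2178 (@Lb.d (nat_lit 530) (nat_lit 26) (nat_lit 154) (@Lb.fm (nat_lit 3) t64))))))))
noncomputable def l38258 : Lb := (@Lb.d (nat_lit 2) (nat_lit 514) (nat_lit 64) (@Lb.g g8 (@Lb.g g9 (@Lb.g g11 (@Lb.r r1543 (@Lb.r r297 (@Lb.r r2468 (@Lb.r r2150 (@Lb.d (nat_lit 5) (nat_lit 88) (nat_lit 390) (@Lb.t (@Lb.fm (nat_lit 9) t1040)))))))))))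
noncomputable def l38259 : Lb := (@Lb.d (nat_lit 661) (nat_lit 650) (nat_lit 353) (@Lb.r r289 (@Lb.r r1094 (@Lb.r r2468 (@Lb.g g11 (@Lb.g g6 (@Lb.d (nat_lit 0) (nat_lit 32) (nat_lit 390) (@Lb.fm (nat_lit 3) t6695))))))))
noncomputable def l38260 : Lb := (@Lb.d (nat_lit 0) (nat_lit 288) (nat_lit 64) (@Lb.g g11 (@Lb.r r1556 (@Lb.r r345 (@Lb.r r295 (@Lb.r r2178 (@Lb.d (nat_lit 341) (nat_lit 41) (nat_lit 146) (@Lb.t (@Lb.fm (nat_lit 3) t2117)))))))))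
noncomputable def l38261 : Lb := (@Lb.d (nat_lit 164) (nat_lit 358) (nat_lit 266) (@Lb.r r2394 (@Lb.r r2132 (@Lb.r r1367 (@Lb.g g7 (@Lb.g g6 (@Lb.g g5 (@Lb.g g4 (@Lb.d (nat_lit 1) (nat_lit 129) (nat_lit 134) (@Lb.fp (nat_lit 9) t2597))))))))))
noncomputable def l38262 : Lb := (@Lb.d (nat_lit 34) (nat_lit 256) (nat_lit 0) (@Lb.g g8 (@Lb.r r289 (@Lb.r r2579 (@Lb.r r150 (@Lb.r r2660 (@Lb.d (nat_lit 266) (nat_lit 73) (nat_lit 18) (@Lb.t (@Lb.fm (nat_lit 3) t6495)))))))))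
noncomputable def l38263 : Lb := (@Lb.d (nat_lit 0) (nat_lit 514) (nat_lit 66) (@Lb.g g9 (@Lb.g g10 (@Lb.g g11 (@Lb.r r1096 (@Lb.r r2214 (@Lb.r r2469 (@Lb.r r1627 (@Lb.d (nat_lit 409) (nat_lit 102) (nat_lit 602) (@Lb.t (@Lb.fm (nat_lit 9) t2149)))))))))))
noncomputable def l38264 : Lb := (@Lb.r r323 (@Lb.d (nat_lit 2) (nat_lit 544) (nat_lit 2) (@Lb.g g8 (@Lb.g g9 (@Lb.g g10 (@Lb.r r1299 (@Lb.r r74 (@Lb.r r2664 (@Lb.r r2585 (@Lb.d (nat_lit 165) (nat_lit 42) (nat_lit 545) (@Lb.t (@Lb.fp (nat_lit 9) t1994))))))))))))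
noncomputable def l38265 : Lb := (@Lb.d (nat_lit 34) (nat_lit 512) (nat_lit 0) (@Lb.g g8 (@Lb.r r289 (@Lb.r r2579 (@Lb.r r150 (@Lb.r r2660 (@Lb.d (nat_lit 265) (nat_lit 73) (nat_lit 18) (@Lb.t (@Lb.fm (nat_lit 3) t6696)))))))))
noncomputable def l38266 : Lb := (@Lb.d (nat_lit 0) (nat_lit 258) (nat_lit 130) (@Lb.g g8 (@Lb.g g9 (@Lb.g g10 (@Lb.g g11 (@Lb.r r2691 (@Lb.r r1350 (@Lb.r r1320 (@Lb.r r25 (@Lb.d (nat_lit 522) (nat_lit 20) (nat_lit 361) (@Lb.fp (nat_lit 9) t1630)))))))))))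
noncomputable def l38267 : Lb := (@Lb.r r263 (@Lb.d (nat_lit 0) (nat_lit 514) (nat_lit 2) (@Lb.g g8 (@Lb.g g9 (@Lb.g g10 (@Lb.r r1667 (@Lb.r r168 (@Lb.r r2666 (@Lb.r r25 (@Lb.d (nat_lit 522) (nat_lit 37) (nat_lit 420) (@Lb.t (@Lb.fm (nat_lit 9) t773))))))))))))
noncomputable def l38268 : Lb := (@Lb.d (nat_lit 105) (nat_lit 640) (nat_lit 6) (@Lb.r r2632 (@Lb.r r2454 (@Lb.r r1611 (@Lb.g g5 (@Lb.g g4 (@Lb.d (nat_lit 17) (nat_lit 129) (nat_lit 0) (@Lb.r r74 (@Lb.fp (nat_lit 3) t2060)))))))))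
noncomputable def l38269 : Lb := (@Lb.d (nat_lit 146) (nat_lit 0) (nat_lit 10) (@Lb.g g8 (@Lb.g g10 (@Lb.g g11 (@Lb.r r1675 (@Lb.r r2713 (@Lb.r r1170 (@Lb.r r2632 (@Lb.d (nat_lit 421) (nat_lit 8) (nat_lit 169) (@Lb.t (@Lb.fp (nat_lit 9) t6697)))))))))))
noncomputable def l38270 : Lb := (@Lb.d (nat_lit 646) (nat_lit 20) (nat_lit 17) (@Lb.r r289 (@Lb.r r595 (@Lb.r r326 (@Lb.g g6 (@Lb.g g5 (@Lb.g g4 (@Lb.d (nat_lit 1) (nat_lit 17) (nat_lit 1) (@Lb.t (@Lb.fp (nat_lit 9) t4967))))))))))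
noncomputable def l38271 : Lb := (@Lb.d (nat_lit 0) (nat_lit 2) (nat_lit 130) (@Lb.g g9 (@Lb.g g10 (@Lb.g g11 (@Lb.r r2691 (@Lb.r r1350 (@Lb.r r1320 (@Lb.r r25 (@Lb.d (nat_lit 328) (nat_lit 136) (nat_lit 106) (@Lb.t (@Lb.fm (nat_lit 9) t1630)))))))))))
noncomputable def l38272 : Lb := (@Lb.r r323 (@Lb.d (nat_lit 0) (nat_lit 2) (nat_lit 1) (@Lb.g g9 (@Lb.g g6 (@Lb.r r387 (@Lb.r r104 (@Lb.r r25 (@Lb.d (nat_lit 24) (nat_lit 149) (nat_lit 265) (@Lb.fm (nat_lit 3) t2781)))))))))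
noncomputable def l38273 : Lb := (@Lb.r r82 (@Lb.d (nat_lit 2) (nat_lit 266) (nat_lit 0) (@Lb.g g8 (@Lb.g g9 (@Lb.r r619 (@Lb.r r1430 (@Lb.r r2657 (@Lb.d (nat_lit 661) (nat_lit 166) (nat_lit 537) (@Lb.fp (nat_lit 3) t2985)))))))))
noncomputable def l38274 : Lb := (@Lb.r r1092 (@Lb.d (nat_lit 8) (nat_lit 514) (nat_lit 2) (@Lb.g g9 (@Lb.g g10 (@Lb.r r679 (@Lb.r r2662 (@Lb.d (nat_lit 153) (nat_lit 26) (nat_lit 537) (@Lb.fp (nat_lit 3) t979))))))))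
noncomputable def l38275 : Lb := (@Lb.d (nat_lit 2) (nat_lit 256) (nat_lit 0) (@Lb.g g8 (@Lb.r r1162 (@Lb.r r1188 (@Lb.r r405 (@Lb.r r1635 (@Lb.d (nat_lit 0) (nat_lit 0) (nat_lit 154) (@Lb.t (@Lb.fp (nat_lit 3) t1594)))))))))
noncomputable def l38276 : Lb := (@Lb.r r82 (@Lb.d (nat_lit 2) (nat_lit 522) (nat_lit 0) (@Lb.g g8 (@Lb.g g9 (@Lb.r r619 (@Lb.r r1430 (@Lb.r r2657 (@Lb.d (nat_lit 656) (nat_lit 102) (nat_lit 537) (@Lb.fp (nat_lit 3) t650)))))))))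
noncomputable def l38277 : Lb := (@Lb.d (nat_lit 154) (nat_lit 518) (nat_lit 65) (@Lb.g g8 (@Lb.g g9 (@Lb.g g10 (@Lb.g g11 (@Lb.r r2729 (@Lb.r r2475 (@Lb.r r362 (@Lb.r r1060 (@Lb.d (nat_lit 553) (nat_lit 130) (nat_lit 389) (@Lb.fm (nat_lit 9) t2847)))))))))))
noncomputable def l38278 : Lb := (@Lb.r r82 (@Lb.d (nat_lit 129) (nat_lit 2) (nat_lit 128) (@Lb.g g8 (@Lb.g g9 (@Lb.g g11 (@Lb.r r673 (@Lb.r r423 (@Lb.r r2150 (@Lb.r r1156 (@Lb.d (nat_lit 292) (nat_lit 88) (nat_lit 665) (@Lb.t (@Lb.fp (nat_lit 9) t995))))))))))))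
noncomputable def l38279 : Lb := (@Lb.d (nat_lit 2) (nat_lit 260) (nat_lit 128) (@Lb.g g8 (@Lb.g g9 (@Lb.g g10 (@Lb.g g11 (@Lb.r r2729 (@Lb.r r2475 (@Lb.r r2468 (@Lb.r r2438 (@Lb.d (nat_lit 609) (nat_lit 10) (nat_lit 657) (@Lb.fp (nat_lit 9) t50)))))))))))
noncomputable def l38280 : Lb := (@Lb.r r323 (@Lb.d (nat_lit 8) (nat_lit 4) (nat_lit 22) (@Lb.g g8 (@Lb.g g10 (@Lb.r r387 (@Lb.r r2341 (@Lb.r r2324 (@Lb.d (nat_lit 386) (nat_lit 98) (nat_lit 137) (@Lb.fp (nat_lit 3) t504)))))))))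
noncomputable def l38281 : Lb := (@Lb.d (nat_lit 406) (nat_lit 537) (nat_lit 82) (@Lb.r r405 (@Lb.r r2454 (@Lb.r r1124 (@Lb.g g7 (@Lb.g g5 (@Lb.d (nat_lit 132) (nat_lit 6) (nat_lit 256) (@Lb.fp (nat_lit 3) t322))))))))
noncomputable def l38282 : Lb := (@Lb.r r331 (@Lb.d (nat_lit 166) (nat_lit 512) (nat_lit 2) (@Lb.g g8 (@Lb.g g9 (@Lb.g g10 (@Lb.r r1433 (@Lb.r r2343 (@Lb.r r1604 (@Lb.r r1098 (@Lb.d (nat_lit 336) (nat_lit 138) (nat_lit 136) (@Lb.t (@Lb.fm (nat_lit 9) t163))))))))))))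
noncomputable def l38283 : Lb := (@Lb.r r323 (@Lb.d (nat_lit 128) (nat_lit 258) (nat_lit 2) (@Lb.g g8 (@Lb.g g9 (@Lb.g g10 (@Lb.r r599 (@Lb.r r2465 (@Lb.r r2146 (@Lb.r r72 (@Lb.d (nat_lit 277) (nat_lit 170) (nat_lit 512) (@Lb.t (@Lb.fp (nat_lit 9) t410))))))))))))
noncomputable def l38284 : Lb := (@Lb.r r70 (@Lb.d (nat_lit 390) (nat_lit 266) (nat_lit 64) (@Lb.g g8 (@Lb.g g9 (@Lb.g g11 (@Lb.r r1430 (@Lb.r r347 (@Lb.r r1681 (@Lb.d (nat_lit 661) (nat_lit 105) (nat_lit 42) (@Lb.t (@Lb.fp (nat_lit 9) t1265)))))))))))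
noncomputable def l38285 : Lb := (@Lb.d (nat_lit 146) (nat_lit 258) (nat_lit 325) (@Lb.g g8 (@Lb.g g9 (@Lb.g g10 (@Lb.g g7 (@Lb.r r1418 (@Lb.r r97 (@Lb.r r2180 (@Lb.d (nat_lit 16) (nat_lit 138) (nat_lit 320) (@Lb.fm (nat_lit 9) t6698))))))))))
noncomputable def l38286 : Lb := (@Lb.d (nat_lit 528) (nat_lit 512) (nat_lit 0) (@Lb.g g8 (@Lb.g g10 (@Lb.r r2715 (@Lb.r r2634 (@Lb.r r2145 (@Lb.d (nat_lit 609) (nat_lit 100) (nat_lit 16) (@Lb.fm (nat_lit 3) t3081))))))))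
noncomputable def l38287 : Lb := (@Lb.d (nat_lit 152) (nat_lit 256) (nat_lit 64) (@Lb.g g8 (@Lb.g g10 (@Lb.g g11 (@Lb.r r387 (@Lb.r r101 (@Lb.r r2450 (@Lb.r r580 (@Lb.d (nat_lit 146) (nat_lit 85) (nat_lit 409) (@Lb.t (@Lb.fm (nat_lit 9) t749)))))))))))
noncomputable def l38288 : Lb := (@Lb.r r21 (@Lb.d (nat_lit 146) (nat_lit 0) (nat_lit 64) (@Lb.g g8 (@Lb.g g10 (@Lb.g g11 (@Lb.r r295 (@Lb.r r660 (@Lb.r r1174 (@Lb.r r97 (@Lb.d (nat_lit 26) (nat_lit 153) (nat_lit 164) (@Lb.t (@Lb.fm (nat_lit 9) t6699))))))))))))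
noncomputable def l38289 : Lb := (@Lb.r r70 (@Lb.d (nat_lit 400) (nat_lit 256) (nat_lit 256) (@Lb.g g4 (@Lb.g g7 (@Lb.r r390 (@Lb.r r2073 (@Lb.d (nat_lit 514) (nat_lit 0) (nat_lit 354) (@Lb.fp (nat_lit 3) t6700))))))))
noncomputable def l38290 : Lb := (@Lb.d (nat_lit 5) (nat_lit 0) (nat_lit 9) (@Lb.g g4 (@Lb.g g10 (@Lb.g g11 (@Lb.r r2691 (@Lb.r r1158 (@Lb.d (nat_lit 129) (nat_lit 64) (nat_lit 424) (@Lb.t (@Lb.fp (nat_lit 9) t282)))))))))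
noncomputable def l38291 : Lb := (@Lb.d (nat_lit 146) (nat_lit 514) (nat_lit 256) (@Lb.g g8 (@Lb.g g9 (@Lb.g g10 (@Lb.g g7 (@Lb.r r1418 (@Lb.r r97 (@Lb.r r2180 (@Lb.d (nat_lit 16) (nat_lit 138) (nat_lit 320) (@Lb.fm (nat_lit 9) t6698))))))))))
noncomputable def l38292 : Lb := (@Lb.d (nat_lit 166) (nat_lit 257) (nat_lit 420) (@Lb.r r20 (@Lb.r r2153 (@Lb.r r386 (@Lb.g g11 (@Lb.g g6 (@Lb.g g5 (@Lb.g g4 (@Lb.d (nat_lit 8) (nat_lit 0) (nat_lit 72) (@Lb.fm (nat_lit 9) t6701))))))))))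
noncomputable def l38293 : Lb := (@Lb.r r323 (@Lb.d (nat_lit 2) (nat_lit 514) (nat_lit 1) (@Lb.g g8 (@Lb.g g9 (@Lb.g g6 (@Lb.r r515 (@Lb.r r104 (@Lb.r r25 (@Lb.d (nat_lit 522) (nat_lit 84) (nat_lit 274) (@Lb.t (@Lb.fp (nat_lit 9) t845)))))))))))
noncomputable def l38294 : Lb := (@Lb.d (nat_lit 128) (nat_lit 128) (nat_lit 256) (@Lb.r r2341 (@Lb.r r1624 (@Lb.r r134 (@Lb.r r1427 (@Lb.g g11 (@Lb.g g5 (@Lb.fm (nat_lit 3) t2926))))))))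
noncomputable def l38295 : Lb := (@Lb.r r21 (@Lb.d (nat_lit 2) (nat_lit 512) (nat_lit 66) (@Lb.g g8 (@Lb.g g10 (@Lb.g g11 (@Lb.r r1319 (@Lb.r r1381 (@Lb.r r2202 (@Lb.r r2180 (@Lb.d (nat_lit 81) (nat_lit 2) (nat_lit 609) (@Lb.t (@Lb.fm (nat_lit 9) t284))))))))))))
noncomputable def l38296 : Lb := (@Lb.d (nat_lit 129) (nat_lit 640) (nat_lit 256) (@Lb.r r2341 (@Lb.r r1624 (@Lb.r r134 (@Lb.r r1427 (@Lb.g g5 (@Lb.t (@Lb.fp (nat_lit 3) t845))))))))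
noncomputable def l38297 : Lb := (@Lb.d (nat_lit 4) (nat_lit 544) (nat_lit 0) (@Lb.g g8 (@Lb.g g9 (@Lb.r r343 (@Lb.r r2178 (@Lb.r r617 (@Lb.d (nat_lit 102) (nat_lit 26) (nat_lit 537) (@Lb.fm (nat_lit 3) t188))))))))
noncomputable def l38298 : Lb := (@Lb.r r82 (@Lb.r r275 (@Lb.d (nat_lit 32) (nat_lit 642) (nat_lit 0) (@Lb.g g8 (@Lb.g g9 (@Lb.r r2579 (@Lb.r r150 (@Lb.r r72 (@Lb.d (nat_lit 41) (nat_lit 133) (nat_lit 0) (@Lb.fp (nat_lit 3) t512))))))))))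
noncomputable def l38299 : Lb := (@Lb.r r21 (@Lb.d (nat_lit 0) (nat_lit 8) (nat_lit 130) (@Lb.g g8 (@Lb.g g10 (@Lb.g g11 (@Lb.r r667 (@Lb.r r660 (@Lb.r r89 (@Lb.r r422 (@Lb.d (nat_lit 98) (nat_lit 34) (nat_lit 2) (@Lb.t (@Lb.fm (nat_lit 9) t51))))))))))))
noncomputable def l38300 : Lb := (@Lb.r r21 (@Lb.d (nat_lit 0) (nat_lit 8) (nat_lit 130) (@Lb.g g8 (@Lb.g g10 (@Lb.g g11 (@Lb.r r667 (@Lb.r r660 (@Lb.r r89 (@Lb.r r422 (@Lb.d (nat_lit 106) (nat_lit 33) (nat_lit 2) (@Lb.t (@Lb.fm (nat_lit 9) t51))))))))))))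
noncomputable def l38301 : Lb := (@Lb.g g9 (@Lb.g g6 (@Lb.g g7 (@Lb.r r2706 (@Lb.r r1427 (@Lb.r r1633 (@Lb.r r36 (@Lb.d (nat_lit 5) (nat_lit 153) (nat_lit 66) (@Lb.t (@Lb.fm (nat_lit 9) t918))))))))))
noncomputable def l38302 : Lb := (@Lb.d (nat_lit 646) (nat_lit 21) (nat_lit 32) (@Lb.r r1301 (@Lb.r r2411 (@Lb.r r1666 (@Lb.g g7 (@Lb.g g6 (@Lb.g g5 (@Lb.g g4 (@Lb.d (nat_lit 1) (nat_lit 1) (nat_lit 133) (@Lb.fm (nat_lit 9) t918))))))))))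
noncomputable def l38303 : Lb := (@Lb.r r82 (@Lb.d (nat_lit 34) (nat_lit 258) (nat_lit 128) (@Lb.g g8 (@Lb.g g9 (@Lb.g g11 (@Lb.r r1430 (@Lb.r r579 (@Lb.r r2449 (@Lb.r r72 (@Lb.d (nat_lit 41) (nat_lit 105) (nat_lit 420) (@Lb.t (@Lb.fp (nat_lit 9) t3054))))))))))))
noncomputable def l38304 : Lb := (@Lb.d (nat_lit 32) (nat_lit 256) (nat_lit 1) (@Lb.g g10 (@Lb.r r292 (@Lb.r r405 (@Lb.r r342 (@Lb.r r651 (@Lb.r r644 (@Lb.d (nat_lit 0) (nat_lit 33) (nat_lit 5) (@Lb.t (@Lb.fm (nat_lit 3) t2))))))))))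
noncomputable def l38305 : Lb := (@Lb.d (nat_lit 325) (nat_lit 362) (nat_lit 2) (@Lb.r r2597 (@Lb.r r2178 (@Lb.r r551 (@Lb.r r2308 (@Lb.g g7 (@Lb.g g5 (@Lb.d (nat_lit 4) (nat_lit 0) (nat_lit 128) (@Lb.fp (nat_lit 3) t188)))))))))
noncomputable def l38306 : Lb := (@Lb.r r82 (@Lb.d (nat_lit 129) (nat_lit 514) (nat_lit 128) (@Lb.g g8 (@Lb.g g9 (@Lb.g g11 (@Lb.r r291 (@Lb.r r1124 (@Lb.r r1626 (@Lb.r r2449 (@Lb.d (nat_lit 10) (nat_lit 84) (nat_lit 100) (@Lb.t (@Lb.fm (nat_lit 9) t3545))))))))))))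
noncomputable def l38307 : Lb := (@Lb.d (nat_lit 2) (nat_lit 4) (nat_lit 128) (@Lb.g g8 (@Lb.g g9 (@Lb.g g10 (@Lb.g g11 (@Lb.r r2729 (@Lb.r r2475 (@Lb.r r2468 (@Lb.r r2438 (@Lb.d (nat_lit 610) (nat_lit 10) (nat_lit 657) (@Lb.fp (nat_lit 9) t50)))))))))))
noncomputable def l38308 : Lb := (@Lb.d (nat_lit 2) (nat_lit 266) (nat_lit 0) (@Lb.g g8 (@Lb.g g9 (@Lb.d (nat_lit 0) (nat_lit 10) (nat_lit 1) (@Lb.fm (nat_lit 3) t97)))))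
noncomputable def l38309 : Lb := (@Lb.r r70 (@Lb.d (nat_lit 161) (nat_lit 258) (nat_lit 72) (@Lb.g g8 (@Lb.g g9 (@Lb.g g11 (@Lb.r r2134 (@Lb.r r345 (@Lb.r r359 (@Lb.r r644 (@Lb.d (nat_lit 160) (nat_lit 0) (nat_lit 165) (@Lb.t (@Lb.fm (nat_lit 9) t74))))))))))))
noncomputable def l38310 : Lb := (@Lb.g g4 (@Lb.g g7 (@Lb.r r2311 (@Lb.d (nat_lit 657) (nat_lit 0) (nat_lit 421) (@Lb.fm (nat_lit 3) t1165)))))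
noncomputable def l38311 : Lb := (@Lb.r r21 (@Lb.r r331 (@Lb.d (nat_lit 416) (nat_lit 260) (nat_lit 2) (@Lb.g g8 (@Lb.g g10 (@Lb.r r409 (@Lb.r r2731 (@Lb.r r1674 (@Lb.d (nat_lit 640) (nat_lit 138) (nat_lit 421) (@Lb.fm (nat_lit 3) t2443))))))))))
noncomputable def l38312 : Lb := (@Lb.d (nat_lit 6) (nat_lit 520) (nat_lit 73) (@Lb.g g8 (@Lb.g g9 (@Lb.g g10 (@Lb.g g11 (@Lb.r r170 (@Lb.r r680 (@Lb.r r363 (@Lb.r r2405 (@Lb.r r2068 (@Lb.d (nat_lit 90) (nat_lit 128) (nat_lit 406) (@Lb.fm (nat_lit 9) t125))))))))))))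
noncomputable def l38313 : Lb := (@Lb.d (nat_lit 146) (nat_lit 2) (nat_lit 64) (@Lb.g g8 (@Lb.g g9 (@Lb.g g10 (@Lb.g g11 (@Lb.r r356 (@Lb.r r1627 (@Lb.r r345 (@Lb.r r166 (@Lb.r r2068 (@Lb.d (nat_lit 356) (nat_lit 136) (nat_lit 424) (@Lb.fp (nat_lit 9) t68))))))))))))
noncomputable def l38314 : Lb := (@Lb.r r82 (@Lb.d (nat_lit 36) (nat_lit 256) (nat_lit 136) (@Lb.g g8 (@Lb.g g9 (@Lb.g g11 (@Lb.r r1362 (@Lb.r r2645 (@Lb.r r356 (@Lb.r r395 (@Lb.d (nat_lit 545) (nat_lit 102) (nat_lit 681) (@Lb.t (@Lb.fm (nat_lit 9) t1888))))))))))))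
noncomputable def l38315 : Lb := (@Lb.r r82 (@Lb.d (nat_lit 4) (nat_lit 290) (nat_lit 64) (@Lb.g g8 (@Lb.g g9 (@Lb.g g11 (@Lb.r r1543 (@Lb.r r2152 (@Lb.r r2438 (@Lb.r r1361 (@Lb.d (nat_lit 0) (nat_lit 8) (nat_lit 346) (@Lb.t (@Lb.fp (nat_lit 9) t2301))))))))))))
noncomputable def l38316 : Lb := (@Lb.d (nat_lit 4) (nat_lit 512) (nat_lit 2) (@Lb.g g8 (@Lb.g g9 (@Lb.g g10 (@Lb.r r683 (@Lb.r r2666 (@Lb.r r25 (@Lb.d (nat_lit 10) (nat_lit 89) (nat_lit 537) (@Lb.t (@Lb.fp (nat_lit 9) t591))))))))))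
noncomputable def l38317 : Lb := (@Lb.r r20 (@Lb.d (nat_lit 0) (nat_lit 2) (nat_lit 73) (@Lb.g g9 (@Lb.g g10 (@Lb.g g11 (@Lb.r r2691 (@Lb.r r2213 (@Lb.r r2658 (@Lb.d (nat_lit 593) (nat_lit 160) (nat_lit 646) (@Lb.t (@Lb.fm (nat_lit 9) t4701)))))))))))
noncomputable def l38318 : Lb := (@Lb.r r82 (@Lb.d (nat_lit 2) (nat_lit 258) (nat_lit 128) (@Lb.g g8 (@Lb.g g9 (@Lb.g g11 (@Lb.r r299 (@Lb.r r296 (@Lb.r r153 (@Lb.r r146 (@Lb.d (nat_lit 610) (nat_lit 5) (nat_lit 544) (@Lb.t (@Lb.fm (nat_lit 9) t5741))))))))))))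
noncomputable def l38319 : Lb := (@Lb.r r263 (@Lb.d (nat_lit 2) (nat_lit 258) (nat_lit 2) (@Lb.g g8 (@Lb.g g9 (@Lb.g g10 (@Lb.r r2454 (@Lb.r r1367 (@Lb.r r409 (@Lb.r r388 (@Lb.d (nat_lit 104) (nat_lit 132) (nat_lit 545) (@Lb.t (@Lb.fp (nat_lit 9) t1792))))))))))))
noncomputable def l38320 : Lb := (@Lb.d (nat_lit 154) (nat_lit 520) (nat_lit 128) (@Lb.g g8 (@Lb.g g10 (@Lb.g g11 (@Lb.r r403 (@Lb.r r1317 (@Lb.r r340 (@Lb.r r330 (@Lb.d (nat_lit 546) (nat_lit 164) (nat_lit 385) (@Lb.t (@Lb.fp (nat_lit 9) t3671)))))))))))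
noncomputable def l38321 : Lb := (@Lb.d (nat_lit 80) (nat_lit 258) (nat_lit 10) (@Lb.g g8 (@Lb.g g9 (@Lb.g g10 (@Lb.g g11 (@Lb.r r427 (@Lb.r r2146 (@Lb.r r2409 (@Lb.r r2408 (@Lb.d (nat_lit 665) (nat_lit 104) (nat_lit 677) (@Lb.fp (nat_lit 9) t1444)))))))))))
noncomputable def l38322 : Lb := (@Lb.d (nat_lit 154) (nat_lit 549) (nat_lit 277) (@Lb.r r617 (@Lb.r r2178 (@Lb.r r427 (@Lb.g g5 (@Lb.g g4 (@Lb.d (nat_lit 288) (nat_lit 17) (nat_lit 0) (@Lb.fm (nat_lit 3) t5796))))))))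
noncomputable def l38323 : Lb := (@Lb.r r1355 (@Lb.d (nat_lit 2) (nat_lit 258) (nat_lit 2) (@Lb.g g8 (@Lb.g g9 (@Lb.g g10 (@Lb.r r2216 (@Lb.r r2154 (@Lb.r r25 (@Lb.d (nat_lit 522) (nat_lit 73) (nat_lit 22) (@Lb.t (@Lb.fp (nat_lit 9) t2722)))))))))))
noncomputable def l38324 : Lb := (@Lb.r r516 (@Lb.d (nat_lit 40) (nat_lit 32) (nat_lit 385) (@Lb.g g9 (@Lb.g g10 (@Lb.g g11 (@Lb.r r1560 (@Lb.r r1365 (@Lb.r r1122 (@Lb.d (nat_lit 80) (nat_lit 73) (nat_lit 645) (@Lb.t (@Lb.fp (nat_lit 9) t6702)))))))))))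
noncomputable def l38325 : Lb := (@Lb.g g7 (@Lb.r r402 (@Lb.r r2145 (@Lb.r r36 (@Lb.d (nat_lit 0) (nat_lit 386) (nat_lit 512) (@Lb.t (@Lb.fm (nat_lit 3) t940)))))))
noncomputable def l38326 : Lb := (@Lb.r r21 (@Lb.d (nat_lit 10) (nat_lit 256) (nat_lit 74) (@Lb.g g8 (@Lb.g g10 (@Lb.g g11 (@Lb.r r2645 (@Lb.r r1435 (@Lb.r r1354 (@Lb.r r2372 (@Lb.d (nat_lit 129) (nat_lit 73) (nat_lit 293) (@Lb.t (@Lb.fm (nat_lit 9) t4250))))))))))))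
noncomputable def l38327 : Lb := (@Lb.d (nat_lit 0) (nat_lit 2) (nat_lit 130) (@Lb.g g9 (@Lb.g g10 (@Lb.g g11 (@Lb.r r355 (@Lb.r r386 (@Lb.r r97 (@Lb.r r36 (@Lb.d (nat_lit 0) (nat_lit 74) (nat_lit 152) (@Lb.t (@Lb.fm (nat_lit 9) t309)))))))))))
noncomputable def l38328 : Lb := (@Lb.d (nat_lit 0) (nat_lit 256) (nat_lit 73) (@Lb.g g8 (@Lb.g g10 (@Lb.g g11 (@Lb.r r1381 (@Lb.r r1691 (@Lb.r r1178 (@Lb.r r2584 (@Lb.d (nat_lit 281) (nat_lit 2) (nat_lit 288) (@Lb.t (@Lb.fm (nat_lit 9) t521)))))))))))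
noncomputable def l38329 : Lb := (@Lb.d (nat_lit 2) (nat_lit 2) (nat_lit 73) (@Lb.g g8 (@Lb.g g9 (@Lb.g g10 (@Lb.g g11 (@Lb.r r2666 (@Lb.r r1635 (@Lb.r r100 (@Lb.r r21 (@Lb.r r36 (@Lb.d (nat_lit 357) (nat_lit 97) (nat_lit 358) (@Lb.fm (nat_lit 9) t2487))))))))))))
noncomputable def l38330 : Lb := (@Lb.d (nat_lit 24) (nat_lit 18) (nat_lit 586) (@Lb.g g8 (@Lb.g g9 (@Lb.g g10 (@Lb.g g7 (@Lb.r r1442 (@Lb.r r341 (@Lb.r r72 (@Lb.d (nat_lit 5) (nat_lit 153) (nat_lit 329) (@Lb.fm (nat_lit 9) t3516))))))))))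
noncomputable def l38331 : Lb := (@Lb.d (nat_lit 2) (nat_lit 514) (nat_lit 130) (@Lb.g g8 (@Lb.g g9 (@Lb.g g10 (@Lb.g g11 (@Lb.r r427 (@Lb.r r424 (@Lb.r r106 (@Lb.r r25 (@Lb.d (nat_lit 584) (nat_lit 4) (nat_lit 680) (@Lb.fm (nat_lit 9) t2258)))))))))))
noncomputable def l38332 : Lb := (@Lb.d (nat_lit 2) (nat_lit 514) (nat_lit 130) (@Lb.g g8 (@Lb.g g9 (@Lb.g g10 (@Lb.g g11 (@Lb.r r2666 (@Lb.r r579 (@Lb.r r97 (@Lb.r r24 (@Lb.d (nat_lit 152) (nat_lit 2) (nat_lit 265) (@Lb.fm (nat_lit 9) t263)))))))))))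
noncomputable def l38333 : Lb := (@Lb.g g10 (@Lb.g g7 (@Lb.r r402 (@Lb.r r2145 (@Lb.r r36 (@Lb.d (nat_lit 0) (nat_lit 386) (nat_lit 512) (@Lb.fp (nat_lit 3) t940)))))))
noncomputable def l38334 : Lb := (@Lb.d (nat_lit 1) (nat_lit 514) (nat_lit 73) (@Lb.g g8 (@Lb.g g9 (@Lb.g g10 (@Lb.g g11 (@Lb.r r2705 (@Lb.r r535 (@Lb.r r2440 (@Lb.r r2122 (@Lb.d (nat_lit 289) (nat_lit 10) (nat_lit 136) (@Lb.fp (nat_lit 9) t221)))))))))))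
noncomputable def l38335 : Lb := (@Lb.d (nat_lit 2) (nat_lit 36) (nat_lit 128) (@Lb.g g8 (@Lb.g g9 (@Lb.g g10 (@Lb.g g11 (@Lb.r r674 (@Lb.r r2435 (@Lb.r r420 (@Lb.r r2197 (@Lb.r r1060 (@Lb.d (nat_lit 593) (nat_lit 162) (nat_lit 345) (@Lb.fm (nat_lit 9) t3984))))))))))))
noncomputable def l38336 : Lb := (@Lb.r r275 (@Lb.d (nat_lit 130) (nat_lit 2) (nat_lit 2) (@Lb.g g8 (@Lb.g g9 (@Lb.g g10 (@Lb.r r599 (@Lb.r r98 (@Lb.r r2456 (@Lb.d (nat_lit 405) (nat_lit 81) (nat_lit 648) (@Lb.t (@Lb.fm (nat_lit 9) t573)))))))))))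
noncomputable def l38337 : Lb := (@Lb.r r21 (@Lb.r r70 (@Lb.d (nat_lit 2) (nat_lit 0) (nat_lit 0) (@Lb.g g8 (@Lb.r r1563 (@Lb.r r1410 (@Lb.r r1313 (@Lb.r r2084 (@Lb.d (nat_lit 105) (nat_lit 161) (nat_lit 546) (@Lb.t (@Lb.fm (nat_lit 3) t2095)))))))))))
noncomputable def l38338 : Lb := (@Lb.r r70 (@Lb.g g8 (@Lb.g g5 (@Lb.r r1563 (@Lb.r r1410 (@Lb.r r2145 (@Lb.r r612 (@Lb.d (nat_lit 265) (nat_lit 66) (nat_lit 16) (@Lb.fm (nat_lit 3) t152)))))))))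
noncomputable def l38339 : Lb := (@Lb.r r21 (@Lb.d (nat_lit 144) (nat_lit 516) (nat_lit 26) (@Lb.g g8 (@Lb.g g6 (@Lb.r r391 (@Lb.r r1313 (@Lb.r r584 (@Lb.d (nat_lit 97) (nat_lit 138) (nat_lit 16) (@Lb.fp (nat_lit 3) t2095)))))))))
noncomputable def l38340 : Lb := (@Lb.d (nat_lit 290) (nat_lit 66) (nat_lit 106) (@Lb.r r8 (@Lb.r r2321 (@Lb.r r2178 (@Lb.r r547 (@Lb.r r609 (@Lb.g g11 (@Lb.g g9 (@Lb.fm (nat_lit 3) t3183)))))))))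
noncomputable def l38341 : Lb := (@Lb.d (nat_lit 0) (nat_lit 34) (nat_lit 0) (@Lb.g g9 (@Lb.r r275 (@Lb.r r2178 (@Lb.r r553 (@Lb.r r8 (@Lb.d (nat_lit 388) (nat_lit 153) (nat_lit 514) (@Lb.t (@Lb.fm (nat_lit 3) t690)))))))))
noncomputable def l38342 : Lb := (@Lb.d (nat_lit 640) (nat_lit 517) (nat_lit 360) (@Lb.r r2374 (@Lb.r r1684 (@Lb.r r297 (@Lb.g g11 (@Lb.g g5 (@Lb.g g4 (@Lb.d (nat_lit 1) (nat_lit 1) (nat_lit 384) (@Lb.r r578 (@Lb.t (@Lb.fp (nat_lit 9) t1445)))))))))))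
noncomputable def l38343 : Lb := (@Lb.d (nat_lit 0) (nat_lit 546) (nat_lit 0) (@Lb.g g9 (@Lb.r r275 (@Lb.r r2178 (@Lb.r r553 (@Lb.r r8 (@Lb.d (nat_lit 388) (nat_lit 146) (nat_lit 512) (@Lb.t (@Lb.fm (nat_lit 3) t1639)))))))))
noncomputable def l38344 : Lb := (@Lb.d (nat_lit 664) (nat_lit 260) (nat_lit 65) (@Lb.r r97 (@Lb.r r331 (@Lb.r r646 (@Lb.g g7 (@Lb.g g6 (@Lb.g g8 (@Lb.d (nat_lit 576) (nat_lit 0) (nat_lit 65) (@Lb.r r25 (@Lb.t (@Lb.fm (nat_lit 9) t6277)))))))))))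
noncomputable def l38345 : Lb := (@Lb.d (nat_lit 1) (nat_lit 322) (nat_lit 2) (@Lb.g g4 (@Lb.g g9 (@Lb.g g10 (@Lb.r r1638 (@Lb.r r2631 (@Lb.d (nat_lit 144) (nat_lit 97) (nat_lit 106) (@Lb.t (@Lb.fm (nat_lit 9) t915)))))))))
noncomputable def l38346 : Lb := (@Lb.r r21 (@Lb.r r70 (@Lb.d (nat_lit 10) (nat_lit 256) (nat_lit 0) (@Lb.g g8 (@Lb.r r1705 (@Lb.r r2470 (@Lb.r r1355 (@Lb.r r1348 (@Lb.d (nat_lit 409) (nat_lit 2) (nat_lit 641) (@Lb.t (@Lb.fp (nat_lit 3) t5)))))))))))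
noncomputable def l38347 : Lb := (@Lb.r r323 (@Lb.d (nat_lit 1) (nat_lit 256) (nat_lit 21) (@Lb.g g8 (@Lb.g g10 (@Lb.r r1689 (@Lb.r r2459 (@Lb.r r24 (@Lb.d (nat_lit 105) (nat_lit 82) (nat_lit 153) (@Lb.fp (nat_lit 3) t4181)))))))))
noncomputable def l38348 : Lb := (@Lb.r r323 (@Lb.d (nat_lit 2) (nat_lit 0) (nat_lit 21) (@Lb.g g8 (@Lb.g g10 (@Lb.r r1689 (@Lb.r r2459 (@Lb.r r24 (@Lb.d (nat_lit 105) (nat_lit 82) (nat_lit 153) (@Lb.fp (nat_lit 3) t4181)))))))))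
noncomputable def l38349 : Lb := (@Lb.r r21 (@Lb.d (nat_lit 9) (nat_lit 256) (nat_lit 64) (@Lb.g g8 (@Lb.g g11 (@Lb.r r1434 (@Lb.r r2661 (@Lb.r r2727 (@Lb.r r1364 (@Lb.d (nat_lit 649) (nat_lit 98) (nat_lit 640) (@Lb.fp (nat_lit 3) t881))))))))))
noncomputable def l38350 : Lb := (@Lb.d (nat_lit 0) (nat_lit 544) (nat_lit 640) (@Lb.g g11 (@Lb.d (nat_lit 0) (nat_lit 16) (nat_lit 266) (@Lb.t (@Lb.fp (nat_lit 3) t3468)))))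
noncomputable def l38351 : Lb := (@Lb.g g10 (@Lb.g g7 (@Lb.r r642 (@Lb.d (nat_lit 0) (nat_lit 100) (nat_lit 584) (@Lb.fm (nat_lit 3) t1522)))))
noncomputable def l38352 : Lb := (@Lb.r r82 (@Lb.d (nat_lit 134) (nat_lit 256) (nat_lit 128) (@Lb.g g8 (@Lb.g g9 (@Lb.g g11 (@Lb.r r657 (@Lb.r r1686 (@Lb.r r1411 (@Lb.r r264 (@Lb.d (nat_lit 129) (nat_lit 5) (nat_lit 597) (@Lb.t (@Lb.fm (nat_lit 9) t1964))))))))))))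
noncomputable def l38353 : Lb := (@Lb.d (nat_lit 9) (nat_lit 100) (nat_lit 586) (@Lb.r r673 (@Lb.r r427 (@Lb.r r328 (@Lb.g g10 (@Lb.g g5 (@Lb.d (nat_lit 36) (nat_lit 1) (nat_lit 5) (@Lb.r r387 (@Lb.fp (nat_lit 3) t6703)))))))))
noncomputable def l38354 : Lb := (@Lb.d (nat_lit 162) (nat_lit 0) (nat_lit 418) (@Lb.r r1092 (@Lb.r r2145 (@Lb.r r1410 (@Lb.r r1611 (@Lb.g g4 (@Lb.d (nat_lit 1) (nat_lit 0) (nat_lit 0) (@Lb.r r74 (@Lb.t (@Lb.fp (nat_lit 3) t6704))))))))))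
noncomputable def l38355 : Lb := (@Lb.d (nat_lit 132) (nat_lit 10) (nat_lit 129) (@Lb.g g8 (@Lb.g g9 (@Lb.g g10 (@Lb.g g11 (@Lb.r r2327 (@Lb.r r2217 (@Lb.r r98 (@Lb.r r420 (@Lb.d (nat_lit 421) (nat_lit 104) (nat_lit 328) (@Lb.fm (nat_lit 9) t3786)))))))))))
noncomputable def l38356 : Lb := (@Lb.r r21 (@Lb.d (nat_lit 130) (nat_lit 512) (nat_lit 66) (@Lb.g g8 (@Lb.g g10 (@Lb.g g11 (@Lb.r r644 (@Lb.r r519 (@Lb.r r386 (@Lb.r r25 (@Lb.d (nat_lit 161) (nat_lit 100) (nat_lit 578) (@Lb.t (@Lb.fm (nat_lit 9) t6705))))))))))))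
noncomputable def l38357 : Lb := (@Lb.d (nat_lit 2) (nat_lit 546) (nat_lit 6) (@Lb.g g8 (@Lb.g g9 (@Lb.g g10 (@Lb.g g11 (@Lb.r r2395 (@Lb.r r1449 (@Lb.r r2472 (@Lb.r r2442 (@Lb.d (nat_lit 145) (nat_lit 0) (nat_lit 68) (@Lb.fm (nat_lit 9) t6706)))))))))))
noncomputable def l38358 : Lb := (@Lb.d (nat_lit 132) (nat_lit 522) (nat_lit 129) (@Lb.g g8 (@Lb.g g9 (@Lb.g g10 (@Lb.g g11 (@Lb.r r2327 (@Lb.r r2217 (@Lb.r r98 (@Lb.r r420 (@Lb.d (nat_lit 422) (nat_lit 104) (nat_lit 328) (@Lb.fm (nat_lit 9) t6707)))))))))))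
noncomputable def l38359 : Lb := (@Lb.d (nat_lit 146) (nat_lit 585) (nat_lit 129) (@Lb.g g8 (@Lb.g g5 (@Lb.g g10 (@Lb.g g11 (@Lb.r r660 (@Lb.r r263 (@Lb.r r2626 (@Lb.r r132 (@Lb.d (nat_lit 261) (nat_lit 73) (nat_lit 665) (@Lb.fm (nat_lit 9) t6708)))))))))))
noncomputable def l38360 : Lb := (@Lb.d (nat_lit 73) (nat_lit 24) (nat_lit 1) (@Lb.g g8 (@Lb.g g9 (@Lb.g g10 (@Lb.g g11 (@Lb.r r2323 (@Lb.r r2217 (@Lb.r r98 (@Lb.r r600 (@Lb.d (nat_lit 38) (nat_lit 152) (nat_lit 148) (@Lb.fp (nat_lit 9) t6707)))))))))))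
noncomputable def l38361 : Lb := (@Lb.d (nat_lit 2) (nat_lit 262) (nat_lit 1) (@Lb.g g8 (@Lb.g g9 (@Lb.g g10 (@Lb.r r1691 (@Lb.r r1684 (@Lb.r r1190 (@Lb.r r529 (@Lb.d (nat_lit 361) (nat_lit 80) (nat_lit 386) (@Lb.t (@Lb.fm (nat_lit 9) t152)))))))))))
noncomputable def l38362 : Lb := (@Lb.d (nat_lit 1) (nat_lit 578) (nat_lit 72) (@Lb.g g8 (@Lb.g g9 (@Lb.g g11 (@Lb.r r402 (@Lb.r r579 (@Lb.r r2152 (@Lb.d (nat_lit 537) (nat_lit 133) (nat_lit 0) (@Lb.t (@Lb.fp (nat_lit 9) t6709))))))))))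
noncomputable def l38363 : Lb := (@Lb.d (nat_lit 2) (nat_lit 266) (nat_lit 72) (@Lb.g g8 (@Lb.g g9 (@Lb.g g11 (@Lb.r r134 (@Lb.r r328 (@Lb.r r279 (@Lb.r r545 (@Lb.d (nat_lit 10) (nat_lit 65) (nat_lit 20) (@Lb.t (@Lb.fp (nat_lit 9) t334)))))))))))
noncomputable def l38364 : Lb := (@Lb.d (nat_lit 1) (nat_lit 2) (nat_lit 130) (@Lb.g g8 (@Lb.g g9 (@Lb.g g10 (@Lb.g g11 (@Lb.r r2411 (@Lb.r r386 (@Lb.r r104 (@Lb.r r25 (@Lb.d (nat_lit 522) (nat_lit 9) (nat_lit 70) (@Lb.fp (nat_lit 9) t61)))))))))))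
noncomputable def l38365 : Lb := (@Lb.d (nat_lit 1) (nat_lit 514) (nat_lit 73) (@Lb.g g8 (@Lb.g g9 (@Lb.g g10 (@Lb.g g11 (@Lb.r r2666 (@Lb.r r579 (@Lb.r r97 (@Lb.r r24 (@Lb.d (nat_lit 146) (nat_lit 10) (nat_lit 326) (@Lb.fm (nat_lit 9) t61)))))))))))
noncomputable def l38366 : Lb := (@Lb.d (nat_lit 1) (nat_lit 514) (nat_lit 72) (@Lb.g g8 (@Lb.g g9 (@Lb.g g11 (@Lb.r r1410 (@Lb.r r579 (@Lb.r r104 (@Lb.r r25 (@Lb.d (nat_lit 41) (nat_lit 9) (nat_lit 0) (@Lb.t (@Lb.fp (nat_lit 9) t40)))))))))))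
noncomputable def l38367 : Lb := (@Lb.d (nat_lit 1) (nat_lit 548) (nat_lit 66) (@Lb.g g8 (@Lb.g g9 (@Lb.g g10 (@Lb.g g11 (@Lb.r r642 (@Lb.r r2435 (@Lb.r r297 (@Lb.r r36 (@Lb.d (nat_lit 261) (nat_lit 1) (nat_lit 329) (@Lb.fp (nat_lit 9) t2557)))))))))))
noncomputable def l38368 : Lb := (@Lb.r r322 (@Lb.d (nat_lit 64) (nat_lit 258) (nat_lit 392) (@Lb.g g9 (@Lb.g g11 (@Lb.r r1430 (@Lb.r r97 (@Lb.r r2564 (@Lb.d (nat_lit 385) (nat_lit 136) (nat_lit 321) (@Lb.fm (nat_lit 3) t826)))))))))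
noncomputable def l38369 : Lb := (@Lb.d (nat_lit 168) (nat_lit 69) (nat_lit 324) (@Lb.r r1604 (@Lb.r r535 (@Lb.r r353 (@Lb.g g7 (@Lb.g g6 (@Lb.g g4 (@Lb.d (nat_lit 5) (nat_lit 20) (nat_lit 97) (@Lb.t (@Lb.fp (nat_lit 9) t2992))))))))))
noncomputable def l38370 : Lb := (@Lb.r r263 (@Lb.d (nat_lit 0) (nat_lit 9) (nat_lit 1) (@Lb.g g8 (@Lb.g g9 (@Lb.g g10 (@Lb.r r2666 (@Lb.r r2627 (@Lb.r r361 (@Lb.r r2340 (@Lb.d (nat_lit 361) (nat_lit 133) (nat_lit 512) (@Lb.t (@Lb.fm (nat_lit 9) t1774))))))))))))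
noncomputable def l38371 : Lb := (@Lb.r r323 (@Lb.d (nat_lit 32) (nat_lit 256) (nat_lit 2) (@Lb.g g6 (@Lb.r r1416 (@Lb.r r295 (@Lb.r r417 (@Lb.r r2466 (@Lb.d (nat_lit 1) (nat_lit 153) (nat_lit 394) (@Lb.t (@Lb.fp (nat_lit 3) t386))))))))))
noncomputable def l38372 : Lb := (@Lb.d (nat_lit 1) (nat_lit 152) (nat_lit 148) (@Lb.r r2371 (@Lb.r r658 (@Lb.r r101 (@Lb.g g7 (@Lb.g g4 (@Lb.d (nat_lit 613) (nat_lit 0) (nat_lit 128) (@Lb.r r74 (@Lb.r r25 (@Lb.fm (nat_lit 3) t6710))))))))))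
noncomputable def l38373 : Lb := (@Lb.d (nat_lit 664) (nat_lit 512) (nat_lit 336) (@Lb.r r402 (@Lb.g g7 (@Lb.d (nat_lit 64) (nat_lit 0) (nat_lit 580) (@Lb.t (@Lb.fp (nat_lit 3) t781))))))
noncomputable def l38374 : Lb := (@Lb.r r21 (@Lb.d (nat_lit 42) (nat_lit 256) (nat_lit 0) (@Lb.g g4 (@Lb.r r1367 (@Lb.r r665 (@Lb.r r154 (@Lb.r r2200 (@Lb.d (nat_lit 549) (nat_lit 80) (nat_lit 96) (@Lb.t (@Lb.fm (nat_lit 3) t51))))))))))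
noncomputable def l38375 : Lb := (@Lb.d (nat_lit 33) (nat_lit 0) (nat_lit 0) (@Lb.g g8 (@Lb.r r2395 (@Lb.r r614 (@Lb.r r1637 (@Lb.r r1428 (@Lb.d (nat_lit 612) (nat_lit 90) (nat_lit 290) (@Lb.t (@Lb.fm (nat_lit 3) t386)))))))))
noncomputable def l38376 : Lb := (@Lb.d (nat_lit 160) (nat_lit 0) (nat_lit 129) (@Lb.g g10 (@Lb.g g11 (@Lb.r r2728 (@Lb.r r1449 (@Lb.r r1367 (@Lb.r r602 (@Lb.d (nat_lit 681) (nat_lit 98) (nat_lit 409) (@Lb.fm (nat_lit 3) t4570)))))))))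
noncomputable def l38377 : Lb := (@Lb.r r21 (@Lb.d (nat_lit 146) (nat_lit 256) (nat_lit 64) (@Lb.g g8 (@Lb.g g10 (@Lb.g g11 (@Lb.r r2730 (@Lb.r r2467 (@Lb.r r145 (@Lb.r r2084 (@Lb.d (nat_lit 361) (nat_lit 150) (nat_lit 352) (@Lb.t (@Lb.fp (nat_lit 9) t750))))))))))))
noncomputable def l38378 : Lb := (@Lb.d (nat_lit 8) (nat_lit 2) (nat_lit 73) (@Lb.g g9 (@Lb.g g10 (@Lb.g g11 (@Lb.r r614 (@Lb.r r1611 (@Lb.r r2196 (@Lb.r r1193 (@Lb.d (nat_lit 409) (nat_lit 88) (nat_lit 608) (@Lb.t (@Lb.fm (nat_lit 9) t490)))))))))))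
noncomputable def l38379 : Lb := (@Lb.d (nat_lit 6) (nat_lit 0) (nat_lit 73) (@Lb.g g8 (@Lb.g g9 (@Lb.g g10 (@Lb.g g11 (@Lb.r r610 (@Lb.r r1607 (@Lb.r r40 (@Lb.r r105 (@Lb.r r2084 (@Lb.d (nat_lit 421) (nat_lit 154) (nat_lit 593) (@Lb.fm (nat_lit 9) t490))))))))))))
noncomputable def l38380 : Lb := (@Lb.d (nat_lit 534) (nat_lit 390) (nat_lit 642) (@Lb.r r2068 (@Lb.r r2137 (@Lb.r r20 (@Lb.r r1442 (@Lb.g g11 (@Lb.g g6 (@Lb.g g5 (@Lb.g g4 (@Lb.d (nat_lit 25) (nat_lit 22) (nat_lit 394) (@Lb.fp (nat_lit 9) t2693)))))))))))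
noncomputable def l38381 : Lb := (@Lb.d (nat_lit 5) (nat_lit 658) (nat_lit 586) (@Lb.r r657 (@Lb.r r2394 (@Lb.r r2148 (@Lb.g g11 (@Lb.g g5 (@Lb.d (nat_lit 8) (nat_lit 1) (nat_lit 384) (@Lb.r r578 (@Lb.fp (nat_lit 3) t986)))))))))
noncomputable def l38382 : Lb := (@Lb.d (nat_lit 1) (nat_lit 514) (nat_lit 130) (@Lb.g g8 (@Lb.g g9 (@Lb.g g10 (@Lb.g g11 (@Lb.r r2411 (@Lb.r r2442 (@Lb.r r40 (@Lb.r r105 (@Lb.r r2084 (@Lb.d (nat_lit 290) (nat_lit 26) (nat_lit 337) (@Lb.fm (nat_lit 9) t490))))))))))))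
noncomputable def l38383 : Lb := (@Lb.r r21 (@Lb.d (nat_lit 162) (nat_lit 0) (nat_lit 64) (@Lb.g g8 (@Lb.g g11 (@Lb.r r1094 (@Lb.r r1704 (@Lb.r r2585 (@Lb.r r2459 (@Lb.d (nat_lit 408) (nat_lit 16) (nat_lit 144) (@Lb.fp (nat_lit 3) t428))))))))))
noncomputable def l38384 : Lb := (@Lb.d (nat_lit 2) (nat_lit 521) (nat_lit 129) (@Lb.g g8 (@Lb.g g9 (@Lb.g g10 (@Lb.g g11 (@Lb.r r1699 (@Lb.r r1064 (@Lb.r r1689 (@Lb.r r146 (@Lb.d (nat_lit 153) (nat_lit 9) (nat_lit 326) (@Lb.fm (nat_lit 9) t4622)))))))))))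
noncomputable def l38385 : Lb := (@Lb.d (nat_lit 32) (nat_lit 512) (nat_lit 129) (@Lb.g g10 (@Lb.g g11 (@Lb.r r677 (@Lb.r r1703 (@Lb.r r2392 (@Lb.r r614 (@Lb.d (nat_lit 148) (nat_lit 169) (nat_lit 138) (@Lb.fp (nat_lit 3) t2449)))))))))
noncomputable def l38386 : Lb := (@Lb.d (nat_lit 32) (nat_lit 256) (nat_lit 129) (@Lb.g g10 (@Lb.g g11 (@Lb.r r677 (@Lb.r r1703 (@Lb.r r2392 (@Lb.r r614 (@Lb.d (nat_lit 153) (nat_lit 170) (nat_lit 138) (@Lb.fp (nat_lit 3) t6711)))))))))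
noncomputable def l38387 : Lb := (@Lb.d (nat_lit 32) (nat_lit 256) (nat_lit 129) (@Lb.g g10 (@Lb.g g11 (@Lb.r r677 (@Lb.r r1703 (@Lb.r r2392 (@Lb.r r614 (@Lb.d (nat_lit 149) (nat_lit 169) (nat_lit 138) (@Lb.fp (nat_lit 3) t2449)))))))))
noncomputable def l38388 : Lb := (@Lb.r r273 (@Lb.d (nat_lit 0) (nat_lit 256) (nat_lit 578) (@Lb.g g10 (@Lb.g g7 (@Lb.r r386 (@Lb.r r1125 (@Lb.r r24 (@Lb.d (nat_lit 354) (nat_lit 5) (nat_lit 586) (@Lb.fm (nat_lit 3) t2273)))))))))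
noncomputable def l38389 : Lb := (@Lb.d (nat_lit 2) (nat_lit 514) (nat_lit 130) (@Lb.g g8 (@Lb.g g9 (@Lb.g g10 (@Lb.g g11 (@Lb.r r2666 (@Lb.r r2664 (@Lb.r r2585 (@Lb.r r2651 (@Lb.d (nat_lit 354) (nat_lit 64) (nat_lit 68) (@Lb.fp (nat_lit 9) t4085)))))))))))
noncomputable def l38390 : Lb := (@Lb.r r273 (@Lb.d (nat_lit 10) (nat_lit 0) (nat_lit 578) (@Lb.g g8 (@Lb.g g10 (@Lb.g g7 (@Lb.r r386 (@Lb.r r149 (@Lb.r r1192 (@Lb.d (nat_lit 325) (nat_lit 136) (nat_lit 601) (@Lb.t (@Lb.fp (nat_lit 9) t6712)))))))))))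
noncomputable def l38391 : Lb := (@Lb.d (nat_lit 2) (nat_lit 514) (nat_lit 130) (@Lb.g g8 (@Lb.g g9 (@Lb.g g10 (@Lb.g g11 (@Lb.r r2666 (@Lb.r r579 (@Lb.r r292 (@Lb.r r405 (@Lb.r r2084 (@Lb.d (nat_lit 610) (nat_lit 149) (nat_lit 422) (@Lb.fm (nat_lit 9) t1199))))))))))))
noncomputable def l38392 : Lb := (@Lb.r r21 (@Lb.d (nat_lit 130) (nat_lit 0) (nat_lit 130) (@Lb.g g8 (@Lb.g g10 (@Lb.g g11 (@Lb.r r419 (@Lb.r r1172 (@Lb.r r2438 (@Lb.r r25 (@Lb.d (nat_lit 274) (nat_lit 146) (nat_lit 137) (@Lb.t (@Lb.fp (nat_lit 9) t4661))))))))))))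
noncomputable def l38393 : Lb := (@Lb.d (nat_lit 384) (nat_lit 10) (nat_lit 258) (@Lb.r r2120 (@Lb.r r106 (@Lb.r r601 (@Lb.r r1559 (@Lb.g g8 (@Lb.r r74 (@Lb.r r25 (@Lb.t (@Lb.fp (nat_lit 3) t6713))))))))))
noncomputable def l38394 : Lb := (@Lb.d (nat_lit 10) (nat_lit 256) (nat_lit 66) (@Lb.g g8 (@Lb.g g10 (@Lb.g g11 (@Lb.r r679 (@Lb.r r2129 (@Lb.r r1638 (@Lb.r r2456 (@Lb.d (nat_lit 552) (nat_lit 144) (nat_lit 425) (@Lb.t (@Lb.fm (nat_lit 9) t6714)))))))))))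
noncomputable def l38395 : Lb := (@Lb.d (nat_lit 18) (nat_lit 520) (nat_lit 10) (@Lb.g g8 (@Lb.g g10 (@Lb.r r609 (@Lb.r r1379 (@Lb.r r2722 (@Lb.r r1096 (@Lb.d (nat_lit 553) (nat_lit 101) (nat_lit 533) (@Lb.fp (nat_lit 3) t6715)))))))))
noncomputable def l38396 : Lb := (@Lb.d (nat_lit 658) (nat_lit 613) (nat_lit 646) (@Lb.r r2068 (@Lb.r r2649 (@Lb.r r532 (@Lb.r r418 (@Lb.g g11 (@Lb.g g6 (@Lb.g g5 (@Lb.g g4 (@Lb.d (nat_lit 25) (nat_lit 10) (nat_lit 129) (@Lb.fp (nat_lit 9) t6716)))))))))))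
noncomputable def l38397 : Lb := (@Lb.r r322 (@Lb.d (nat_lit 2) (nat_lit 546) (nat_lit 516) (@Lb.g g8 (@Lb.g g9 (@Lb.g g7 (@Lb.r r2438 (@Lb.r r1129 (@Lb.r r2120 (@Lb.d (nat_lit 297) (nat_lit 2) (nat_lit 98) (@Lb.t (@Lb.fm (nat_lit 9) t5799)))))))))))
noncomputable def l38398 : Lb := (@Lb.r r20 (@Lb.d (nat_lit 32) (nat_lit 405) (nat_lit 0) (@Lb.g g5 (@Lb.g g10 (@Lb.r r1387 (@Lb.r r1380 (@Lb.r r2394 (@Lb.d (nat_lit 98) (nat_lit 37) (nat_lit 678) (@Lb.fp (nat_lit 3) t278)))))))))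
noncomputable def l38399 : Lb := (@Lb.d (nat_lit 0) (nat_lit 66) (nat_lit 73) (@Lb.g g9 (@Lb.g g10 (@Lb.g g11 (@Lb.r r2658 (@Lb.r r579 (@Lb.r r2564 (@Lb.d (nat_lit 1) (nat_lit 97) (nat_lit 10) (@Lb.t (@Lb.fp (nat_lit 9) t2367))))))))))
noncomputable def l38400 : Lb := (@Lb.d (nat_lit 9) (nat_lit 513) (nat_lit 2) (@Lb.g g8 (@Lb.g g9 (@Lb.g g10 (@Lb.r r2729 (@Lb.r r2475 (@Lb.r r2468 (@Lb.r r2438 (@Lb.d (nat_lit 609) (nat_lit 10) (nat_lit 674) (@Lb.t (@Lb.fm (nat_lit 9) t590)))))))))))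
noncomputable def l38401 : Lb := (@Lb.d (nat_lit 9) (nat_lit 513) (nat_lit 130) (@Lb.g g8 (@Lb.g g9 (@Lb.g g10 (@Lb.g g11 (@Lb.r r2411 (@Lb.r r386 (@Lb.r r104 (@Lb.r r25 (@Lb.d (nat_lit 280) (nat_lit 9) (nat_lit 153) (@Lb.fp (nat_lit 9) t61)))))))))))
noncomputable def l38402 : Lb := (@Lb.d (nat_lit 642) (nat_lit 388) (nat_lit 257) (@Lb.r r273 (@Lb.r r1635 (@Lb.r r549 (@Lb.r r2214 (@Lb.g g7 (@Lb.g g6 (@Lb.g g5 (@Lb.g g8 (@Lb.d (nat_lit 320) (nat_lit 8) (nat_lit 64) (@Lb.fp (nat_lit 9) t5311)))))))))))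
noncomputable def l38403 : Lb := (@Lb.d (nat_lit 130) (nat_lit 514) (nat_lit 128) (@Lb.g g8 (@Lb.g g9 (@Lb.g g11 (@Lb.r r2660 (@Lb.r r1354 (@Lb.r r391 (@Lb.r r97 (@Lb.d (nat_lit 106) (nat_lit 8) (nat_lit 537) (@Lb.t (@Lb.fp (nat_lit 9) t2502)))))))))))
noncomputable def l38404 : Lb := (@Lb.r r263 (@Lb.d (nat_lit 0) (nat_lit 4) (nat_lit 0) (@Lb.g g8 (@Lb.g g9 (@Lb.g g10 (@Lb.r r1706 (@Lb.r r1451 (@Lb.r r97 (@Lb.r r388 (@Lb.d (nat_lit 0) (nat_lit 150) (nat_lit 392) (@Lb.t (@Lb.fm (nat_lit 9) t6717))))))))))))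
noncomputable def l38405 : Lb := (@Lb.r r275 (@Lb.d (nat_lit 130) (nat_lit 546) (nat_lit 2) (@Lb.g g8 (@Lb.g g9 (@Lb.g g10 (@Lb.r r427 (@Lb.r r678 (@Lb.r r340 (@Lb.r r1193 (@Lb.d (nat_lit 260) (nat_lit 96) (nat_lit 352) (@Lb.t (@Lb.fm (nat_lit 9) t6718))))))))))))
noncomputable def l38406 : Lb := (@Lb.d (nat_lit 2) (nat_lit 146) (nat_lit 389) (@Lb.r r579 (@Lb.r r1362 (@Lb.g g7 (@Lb.g g6 (@Lb.g g5 (@Lb.g g8 (@Lb.d (nat_lit 9) (nat_lit 128) (nat_lit 70) (@Lb.fp (nat_lit 9) t360)))))))))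
noncomputable def l38407 : Lb := (@Lb.d (nat_lit 74) (nat_lit 326) (nat_lit 276) (@Lb.r r277 (@Lb.r r616 (@Lb.r r1579 (@Lb.g g6 (@Lb.g g5 (@Lb.g g4 (@Lb.d (nat_lit 2) (nat_lit 6) (nat_lit 42) (@Lb.r r403 (@Lb.t (@Lb.fp (nat_lit 9) t6719)))))))))))
noncomputable def l38408 : Lb := (@Lb.d (nat_lit 2) (nat_lit 512) (nat_lit 2) (@Lb.g g8 (@Lb.g g10 (@Lb.r r2134 (@Lb.r r2449 (@Lb.r r2596 (@Lb.r r2663 (@Lb.d (nat_lit 320) (nat_lit 10) (nat_lit 84) (@Lb.fp (nat_lit 3) t6720)))))))))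
noncomputable def l38409 : Lb := (@Lb.r r20 (@Lb.r r82 (@Lb.d (nat_lit 0) (nat_lit 161) (nat_lit 64) (@Lb.g g5 (@Lb.g g11 (@Lb.r r2707 (@Lb.r r146 (@Lb.r r2436 (@Lb.d (nat_lit 0) (nat_lit 4) (nat_lit 138) (@Lb.fp (nat_lit 3) t6721))))))))))
noncomputable def l38410 : Lb := (@Lb.d (nat_lit 2) (nat_lit 522) (nat_lit 64) (@Lb.g g8 (@Lb.g g9 (@Lb.g g11 (@Lb.r r1623 (@Lb.r r1174 (@Lb.r r2649 (@Lb.d (nat_lit 361) (nat_lit 104) (nat_lit 257) (@Lb.t (@Lb.fm (nat_lit 9) t791))))))))))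
noncomputable def l38411 : Lb := (@Lb.d (nat_lit 2) (nat_lit 258) (nat_lit 66) (@Lb.g g8 (@Lb.g g9 (@Lb.g g10 (@Lb.g g11 (@Lb.r r599 (@Lb.r r386 (@Lb.r r97 (@Lb.r r24 (@Lb.d (nat_lit 258) (nat_lit 73) (nat_lit 649) (@Lb.fp (nat_lit 9) t741)))))))))))
noncomputable def l38412 : Lb := (@Lb.d (nat_lit 32) (nat_lit 2) (nat_lit 73) (@Lb.g g9 (@Lb.g g10 (@Lb.g g11 (@Lb.r r2709 (@Lb.r r1380 (@Lb.r r2715 (@Lb.r r2634 (@Lb.d (nat_lit 358) (nat_lit 8) (nat_lit 257) (@Lb.t (@Lb.fp (nat_lit 9) t564)))))))))))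
noncomputable def l38413 : Lb := (@Lb.d (nat_lit 8) (nat_lit 521) (nat_lit 72) (@Lb.g g9 (@Lb.g g10 (@Lb.g g11 (@Lb.r r1703 (@Lb.r r2714 (@Lb.r r2136 (@Lb.r r2197 (@Lb.d (nat_lit 549) (nat_lit 138) (nat_lit 136) (@Lb.t (@Lb.fp (nat_lit 9) t927)))))))))))
noncomputable def l38414 : Lb := (@Lb.d (nat_lit 2) (nat_lit 2) (nat_lit 73) (@Lb.g g8 (@Lb.g g9 (@Lb.g g10 (@Lb.g g11 (@Lb.r r1559 (@Lb.r r2394 (@Lb.r r97 (@Lb.r r24 (@Lb.d (nat_lit 661) (nat_lit 160) (nat_lit 326) (@Lb.fm (nat_lit 9) t6722)))))))))))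

end Pool.Agent.MP_61a8e3_al.G4.K
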