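import Pool.Agent.MP_61a8e3_al.G4.KR
import Pool.Agent.MP_61a8e3_al.G4.KT0
import Pool.Agent.MP_61a8e3_al.G4.KT1

/-! Part K: labels, part 7. -/

set_option autoImplicit false
set_option maxRecDepth 100000
set_option linter.all false

namespace Pool.Agent.MP_61a8e3_al.G4.K

noncomputable def l38415 : Lb := (@Lb.d (nat_lit 128) (nat_lit 522) (nat_lit 0) (@Lb.g g8 (@Lb.g g9 (@Lb.r r646 (@Lb.r r679 (@Lb.r r545 (@Lb.r r104 (@Lb.d (nat_lit 38) (nat_lit 66) (nat_lit 20) (@Lb.fm (nat_lit 3) t334)))))))))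
noncomputable def l38416 : Lb := (@Lb.r r323 (@Lb.d (nat_lit 34) (nat_lit 518) (nat_lit 0) (@Lb.g g8 (@Lb.g g9 (@Lb.g g10 (@Lb.r r401 (@Lb.r r2727 (@Lb.r r2694 (@Lb.r r2180 (@Lb.d (nat_lit 130) (nat_lit 10) (nat_lit 72) (@Lb.t (@Lb.fm (nat_lit 9) t1857))))))))))))
noncomputable def l38417 : Lb := (@Lb.d (nat_lit 144) (nat_lit 258) (nat_lit 66) (@Lb.g g8 (@Lb.g g9 (@Lb.g g10 (@Lb.g g11 (@Lb.r r1443 (@Lb.r r1125 (@Lb.r r1622 (@Lb.r r2632 (@Lb.d (nat_lit 6) (nat_lit 148) (nat_lit 169) (@Lb.fp (nat_lit 9) t5310)))))))))))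
noncomputable def l38418 : Lb := (@Lb.d (nat_lit 128) (nat_lit 10) (nat_lit 0) (@Lb.g g8 (@Lb.g g9 (@Lb.r r646 (@Lb.r r679 (@Lb.r r545 (@Lb.r r104 (@Lb.d (nat_lit 33) (nat_lit 65) (nat_lit 20) (@Lb.fm (nat_lit 3) t334)))))))))
noncomputable def l38419 : Lb := (@Lb.d (nat_lit 32) (nat_lit 512) (nat_lit 2) (@Lb.g g10 (@Lb.r r2579 (@Lb.r r1352 (@Lb.r r2390 (@Lb.r r289 (@Lb.d (nat_lit 144) (nat_lit 10) (nat_lit 362) (@Lb.t (@Lb.fm (nat_lit 3) t2367)))))))))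
noncomputable def l38420 : Lb := (@Lb.d (nat_lit 129) (nat_lit 514) (nat_lit 130) (@Lb.g g8 (@Lb.g g9 (@Lb.g g10 (@Lb.g g11 (@Lb.r r2666 (@Lb.r r612 (@Lb.r r1319 (@Lb.r r405 (@Lb.r r2084 (@Lb.d (nat_lit 616) (nat_lit 130) (nat_lit 170) (@Lb.fp (nat_lit 9) t3335))))))))))))
noncomputable def l38421 : Lb := (@Lb.r r21 (@Lb.d (nat_lit 384) (nat_lit 512) (nat_lit 130) (@Lb.g g4 (@Lb.g g10 (@Lb.g g11 (@Lb.r r646 (@Lb.r r391 (@Lb.r r97 (@Lb.d (nat_lit 357) (nat_lit 8) (nat_lit 130) (@Lb.t (@Lb.fp (nat_lit 9) t2764)))))))))))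
noncomputable def l38422 : Lb := (@Lb.d (nat_lit 129) (nat_lit 514) (nat_lit 130) (@Lb.g g8 (@Lb.g g9 (@Lb.g g10 (@Lb.g g11 (@Lb.r r419 (@Lb.r r1060 (@Lb.r r2469 (@Lb.r r98 (@Lb.d (nat_lit 610) (nat_lit 69) (nat_lit 136) (@Lb.fm (nat_lit 9) t5371)))))))))))
noncomputable def l38423 : Lb := (@Lb.r r273 (@Lb.r r322 (@Lb.d (nat_lit 640) (nat_lit 16) (nat_lit 584) (@Lb.g g4 (@Lb.g g7 (@Lb.r r1381 (@Lb.r r146 (@Lb.d (nat_lit 352) (nat_lit 1) (nat_lit 594) (@Lb.fm (nat_lit 3) t243)))))))))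
noncomputable def l38424 : Lb := (@Lb.r r277 (@Lb.r r326 (@Lb.d (nat_lit 261) (nat_lit 16) (nat_lit 136) (@Lb.g g8 (@Lb.g g11 (@Lb.r r402 (@Lb.r r1121 (@Lb.d (nat_lit 330) (nat_lit 74) (nat_lit 534) (@Lb.fm (nat_lit 3) t3876)))))))))
noncomputable def l38425 : Lb := (@Lb.d (nat_lit 146) (nat_lit 256) (nat_lit 4) (@Lb.g g8 (@Lb.g g10 (@Lb.g g11 (@Lb.r r164 (@Lb.r r582 (@Lb.r r1603 (@Lb.r r1057 (@Lb.r r2180 (@Lb.d (nat_lit 102) (nat_lit 169) (nat_lit 329) (@Lb.t (@Lb.fm (nat_lit 9) t4579))))))))))))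
noncomputable def l38426 : Lb := (@Lb.d (nat_lit 322) (nat_lit 84) (nat_lit 97) (@Lb.r r2581 (@Lb.r r2635 (@Lb.r r358 (@Lb.g g6 (@Lb.g g5 (@Lb.g g8 (@Lb.d (nat_lit 322) (nat_lit 10) (nat_lit 0) (@Lb.r r291 (@Lb.t (@Lb.fp (nat_lit 9) t3876)))))))))))
noncomputable def l38427 : Lb := (@Lb.r r82 (@Lb.d (nat_lit 34) (nat_lit 2) (nat_lit 0) (@Lb.g g8 (@Lb.g g9 (@Lb.g g11 (@Lb.r r1571 (@Lb.r r582 (@Lb.r r2212 (@Lb.r r2661 (@Lb.d (nat_lit 153) (nat_lit 34) (nat_lit 320) (@Lb.t (@Lb.fm (nat_lit 9) t5661))))))))))))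
noncomputable def l38428 : Lb := (@Lb.r r21 (@Lb.d (nat_lit 646) (nat_lit 0) (nat_lit 2) (@Lb.g g8 (@Lb.g g10 (@Lb.g g11 (@Lb.r r419 (@Lb.r r106 (@Lb.r r25 (@Lb.d (nat_lit 361) (nat_lit 9) (nat_lit 9) (@Lb.t (@Lb.fm (nat_lit 9) t1713)))))))))))
noncomputable def l38429 : Lb := (@Lb.r r323 (@Lb.d (nat_lit 130) (nat_lit 265) (nat_lit 2) (@Lb.g g8 (@Lb.g g9 (@Lb.g g10 (@Lb.r r1699 (@Lb.r r1194 (@Lb.r r2201 (@Lb.r r408 (@Lb.d (nat_lit 88) (nat_lit 21) (nat_lit 329) (@Lb.t (@Lb.fp (nat_lit 9) t789))))))))))))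
noncomputable def l38430 : Lb := (@Lb.r r323 (@Lb.d (nat_lit 65) (nat_lit 513) (nat_lit 0) (@Lb.g g8 (@Lb.g g9 (@Lb.g g10 (@Lb.r r2647 (@Lb.r r1369 (@Lb.r r166 (@Lb.r r84 (@Lb.d (nat_lit 21) (nat_lit 70) (nat_lit 681) (@Lb.t (@Lb.fm (nat_lit 9) t51))))))))))))
noncomputable def l38431 : Lb := (@Lb.d (nat_lit 2) (nat_lit 402) (nat_lit 389) (@Lb.r r579 (@Lb.r r1362 (@Lb.g g7 (@Lb.g g6 (@Lb.g g5 (@Lb.g g8 (@Lb.d (nat_lit 2) (nat_lit 129) (nat_lit 134) (@Lb.fp (nat_lit 9) t126)))))))))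
noncomputable def l38432 : Lb := (@Lb.d (nat_lit 0) (nat_lit 10) (nat_lit 0) (@Lb.g g9 (@Lb.r r2403 (@Lb.r r594 (@Lb.r r2449 (@Lb.r r2436 (@Lb.d (nat_lit 0) (nat_lit 154) (nat_lit 530) (@Lb.t (@Lb.fp (nat_lit 3) t386)))))))))
noncomputable def l38433 : Lb := (@Lb.r r21 (@Lb.d (nat_lit 1) (nat_lit 264) (nat_lit 66) (@Lb.g g8 (@Lb.g g10 (@Lb.g g11 (@Lb.r r2385 (@Lb.r r1447 (@Lb.r r358 (@Lb.r r536 (@Lb.d (nat_lit 164) (nat_lit 33) (nat_lit 673) (@Lb.t (@Lb.fp (nat_lit 9) t430))))))))))))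
noncomputable def l38434 : Lb := (@Lb.d (nat_lit 41) (nat_lit 4) (nat_lit 165) (@Lb.r r21 (@Lb.r r104 (@Lb.r r323 (@Lb.r r642 (@Lb.g g7 (@Lb.g g6 (@Lb.g g5 (@Lb.d (nat_lit 0) (nat_lit 1) (nat_lit 65) (@Lb.t (@Lb.fp (nat_lit 9) t68)))))))))))
noncomputable def l38435 : Lb := (@Lb.d (nat_lit 4) (nat_lit 256) (nat_lit 2) (@Lb.g g8 (@Lb.g g9 (@Lb.g g10 (@Lb.r r1706 (@Lb.r r1451 (@Lb.r r2337 (@Lb.r r24 (@Lb.d (nat_lit 266) (nat_lit 97) (nat_lit 576) (@Lb.t (@Lb.fp (nat_lit 9) t6723)))))))))))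
noncomputable def l38436 : Lb := (@Lb.d (nat_lit 0) (nat_lit 512) (nat_lit 128) (@Lb.g g11 (@Lb.r r1114 (@Lb.r r1540 (@Lb.r r1447 (@Lb.r r1425 (@Lb.d (nat_lit 10) (nat_lit 129) (nat_lit 325) (@Lb.t (@Lb.fp (nat_lit 3) t4614)))))))))
noncomputable def l38437 : Lb := (@Lb.d (nat_lit 96) (nat_lit 596) (nat_lit 144) (@Lb.r r101 (@Lb.r r1362 (@Lb.g g7 (@Lb.g g6 (@Lb.d (nat_lit 0) (nat_lit 0) (nat_lit 134) (@Lb.fp (nat_lit 3) t2475)))))))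
noncomputable def l38438 : Lb := (@Lb.d (nat_lit 0) (nat_lit 512) (nat_lit 128) (@Lb.g g11 (@Lb.r r1114 (@Lb.r r1540 (@Lb.r r1447 (@Lb.r r1425 (@Lb.d (nat_lit 10) (nat_lit 66) (nat_lit 325) (@Lb.t (@Lb.fp (nat_lit 3) t4614)))))))))
noncomputable def l38439 : Lb := (@Lb.g g8 (@Lb.r r101 (@Lb.r r24 (@Lb.d (nat_lit 17) (nat_lit 256) (nat_lit 0) (@Lb.t (@Lb.fp (nat_lit 3) t40))))))
noncomputable def l38440 : Lb := (@Lb.d (nat_lit 0) (nat_lit 256) (nat_lit 68) (@Lb.g g8 (@Lb.g g7 (@Lb.r r101 (@Lb.r r24 (@Lb.d (nat_lit 17) (nat_lit 0) (nat_lit 70) (@Lb.fp (nat_lit 3) t40)))))))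
noncomputable def l38441 : Lb := (@Lb.d (nat_lit 2) (nat_lit 520) (nat_lit 68) (@Lb.r r101 (@Lb.g g7 (@Lb.g g8 (@Lb.d (nat_lit 9) (nat_lit 0) (nat_lit 68) (@Lb.fm (nat_lit 3) t40))))))
noncomputable def l38442 : Lb := (@Lb.d (nat_lit 70) (nat_lit 516) (nat_lit 97) (@Lb.r r264 (@Lb.r r97 (@Lb.r r615 (@Lb.g g6 (@Lb.g g4 (@Lb.d (nat_lit 65) (nat_lit 4) (nat_lit 1) (@Lb.r r387 (@Lb.r r25 (@Lb.fp (nat_lit 3) t594))))))))))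
noncomputable def l38443 : Lb := (@Lb.d (nat_lit 129) (nat_lit 512) (nat_lit 0) (@Lb.g g8 (@Lb.r r2391 (@Lb.r r681 (@Lb.r r618 (@Lb.r r1636 (@Lb.d (nat_lit 149) (nat_lit 153) (nat_lit 665) (@Lb.t (@Lb.fm (nat_lit 3) t441)))))))))
noncomputable def l38444 : Lb := (@Lb.d (nat_lit 33) (nat_lit 514) (nat_lit 73) (@Lb.g g8 (@Lb.g g9 (@Lb.g g10 (@Lb.g g11 (@Lb.r r2731 (@Lb.r r680 (@Lb.r r2218 (@Lb.r r145 (@Lb.r r1060 (@Lb.d (nat_lit 521) (nat_lit 130) (nat_lit 666) (@Lb.fm (nat_lit 9) t394))))))))))))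
noncomputable def l38445 : Lb := (@Lb.d (nat_lit 2) (nat_lit 521) (nat_lit 65) (@Lb.g g8 (@Lb.g g9 (@Lb.g g10 (@Lb.g g11 (@Lb.r r610 (@Lb.r r1607 (@Lb.r r2457 (@Lb.r r2436 (@Lb.d (nat_lit 329) (nat_lit 9) (nat_lit 546) (@Lb.fm (nat_lit 9) t460)))))))))))
noncomputable def l38446 : Lb := (@Lb.d (nat_lit 8) (nat_lit 258) (nat_lit 0) (@Lb.g g9 (@Lb.r r1307 (@Lb.r r1414 (@Lb.r r20 (@Lb.r r105 (@Lb.d (nat_lit 608) (nat_lit 137) (nat_lit 258) (@Lb.t (@Lb.fp (nat_lit 3) t3756)))))))))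
noncomputable def l38447 : Lb := (@Lb.d (nat_lit 10) (nat_lit 256) (nat_lit 0) (@Lb.g g8 (@Lb.r r2325 (@Lb.r r555 (@Lb.r r676 (@Lb.r r1158 (@Lb.d (nat_lit 610) (nat_lit 90) (nat_lit 137) (@Lb.t (@Lb.fp (nat_lit 3) t3263)))))))))
noncomputable def l38448 : Lb := (@Lb.d (nat_lit 1) (nat_lit 544) (nat_lit 128) (@Lb.g g8 (@Lb.g g11 (@Lb.r r1361 (@Lb.r r619 (@Lb.r r1610 (@Lb.r r2628 (@Lb.d (nat_lit 648) (nat_lit 132) (nat_lit 424) (@Lb.fp (nat_lit 3) t441)))))))))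
noncomputable def l38449 : Lb := (@Lb.d (nat_lit 129) (nat_lit 256) (nat_lit 0) (@Lb.g g8 (@Lb.r r2391 (@Lb.r r681 (@Lb.r r618 (@Lb.r r1636 (@Lb.d (nat_lit 154) (nat_lit 154) (nat_lit 665) (@Lb.t (@Lb.fm (nat_lit 3) t441)))))))))
noncomputable def l38450 : Lb := (@Lb.r r20 (@Lb.r r82 (@Lb.r r275 (@Lb.d (nat_lit 0) (nat_lit 578) (nat_lit 0) (@Lb.g g9 (@Lb.r r354 (@Lb.r r2435 (@Lb.r r1288 (@Lb.d (nat_lit 10) (nat_lit 25) (nat_lit 258) (@Lb.t (@Lb.fm (nat_lit 3) t512)))))))))))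
noncomputable def l38451 : Lb := (@Lb.r r82 (@Lb.r r275 (@Lb.d (nat_lit 8) (nat_lit 258) (nat_lit 0) (@Lb.g g9 (@Lb.r r2648 (@Lb.r r2395 (@Lb.r r657 (@Lb.r r146 (@Lb.d (nat_lit 0) (nat_lit 133) (nat_lit 32) (@Lb.t (@Lb.fp (nat_lit 3) t730)))))))))))
noncomputable def l38452 : Lb := (@Lb.d (nat_lit 2) (nat_lit 514) (nat_lit 130) (@Lb.g g8 (@Lb.g g9 (@Lb.g g10 (@Lb.g g11 (@Lb.r r610 (@Lb.r r612 (@Lb.r r359 (@Lb.r r277 (@Lb.r r548 (@Lb.d (nat_lit 4) (nat_lit 8) (nat_lit 130) (@Lb.fp (nat_lit 9) t145))))))))))))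
noncomputable def l38453 : Lb := (@Lb.d (nat_lit 257) (nat_lit 86) (nat_lit 321) (@Lb.r r2323 (@Lb.r r2657 (@Lb.r r1366 (@Lb.g g7 (@Lb.g g6 (@Lb.g g5 (@Lb.g g4 (@Lb.d (nat_lit 1) (nat_lit 0) (nat_lit 129) (@Lb.fm (nat_lit 9) t6676))))))))))
noncomputable def l38454 : Lb := (@Lb.d (nat_lit 104) (nat_lit 520) (nat_lit 340) (@Lb.r r2378 (@Lb.r r2404 (@Lb.r r1563 (@Lb.g g6 (@Lb.g g9 (@Lb.g g4 (@Lb.d (nat_lit 1) (nat_lit 1) (nat_lit 5) (@Lb.r r291 (@Lb.t (@Lb.fp (nat_lit 9) t6724)))))))))))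
noncomputable def l38455 : Lb := (@Lb.d (nat_lit 128) (nat_lit 0) (nat_lit 64) (@Lb.g g10 (@Lb.g g11 (@Lb.r r264 (@Lb.r r279 (@Lb.r r586 (@Lb.r r537 (@Lb.d (nat_lit 2) (nat_lit 144) (nat_lit 0) (@Lb.fp (nat_lit 3) t4031)))))))))
noncomputable def l38456 : Lb := (@Lb.d (nat_lit 150) (nat_lit 594) (nat_lit 273) (@Lb.r r2579 (@Lb.r r2401 (@Lb.r r1174 (@Lb.g g7 (@Lb.g g5 (@Lb.g g4 (@Lb.d (nat_lit 1) (nat_lit 0) (nat_lit 132) (@Lb.t (@Lb.fm (nat_lit 9) t6725))))))))))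
noncomputable def l38457 : Lb := (@Lb.d (nat_lit 512) (nat_lit 5) (nat_lit 385) (@Lb.r r24 (@Lb.r r101 (@Lb.r r402 (@Lb.g g11 (@Lb.g g4 (@Lb.fm (nat_lit 3) t6726)))))))
noncomputable def l38458 : Lb := (@Lb.d (nat_lit 0) (nat_lit 288) (nat_lit 640) (@Lb.g g11 (@Lb.r r24 (@Lb.r r1045 (@Lb.r r36 (@Lb.d (nat_lit 65) (nat_lit 0) (nat_lit 512) (@Lb.t (@Lb.fm (nat_lit 3) t441))))))))
noncomputable def l38459 : Lb := (@Lb.r r24 (@Lb.r r1045 (@Lb.r r36 (@Lb.d (nat_lit 5) (nat_lit 64) (nat_lit 128) (@Lb.fm (nat_lit 1) t2)))))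
noncomputable def l38460 : Lb := (@Lb.d (nat_lit 0) (nat_lit 266) (nat_lit 0) (@Lb.g g5 (@Lb.r r2391 (@Lb.r r618 (@Lb.r r1641 (@Lb.d (nat_lit 410) (nat_lit 101) (nat_lit 68) (@Lb.t (@Lb.fp (nat_lit 3) t386))))))))
noncomputable def l38461 : Lb := (@Lb.r r323 (@Lb.d (nat_lit 134) (nat_lit 0) (nat_lit 2) (@Lb.g g8 (@Lb.g g9 (@Lb.g g10 (@Lb.r r599 (@Lb.r r98 (@Lb.r r97 (@Lb.r r408 (@Lb.d (nat_lit 149) (nat_lit 150) (nat_lit 137) (@Lb.t (@Lb.fp (nat_lit 9) t51))))))))))))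
noncomputable def l38462 : Lb := (@Lb.d (nat_lit 2) (nat_lit 514) (nat_lit 66) (@Lb.g g8 (@Lb.g g9 (@Lb.g g10 (@Lb.g g11 (@Lb.r r356 (@Lb.r r667 (@Lb.r r2186 (@Lb.r r277 (@Lb.r r2212 (@Lb.d (nat_lit 666) (nat_lit 1) (nat_lit 330) (@Lb.fp (nat_lit 9) t49))))))))))))
noncomputable def l38463 : Lb := (@Lb.r r275 (@Lb.d (nat_lit 2) (nat_lit 10) (nat_lit 1) (@Lb.g g8 (@Lb.g g9 (@Lb.g g10 (@Lb.r r2666 (@Lb.r r2635 (@Lb.r r2145 (@Lb.d (nat_lit 642) (nat_lit 32) (nat_lit 40) (@Lb.t (@Lb.fm (nat_lit 9) t162)))))))))))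
noncomputable def l38464 : Lb := (@Lb.d (nat_lit 6) (nat_lit 280) (nat_lit 136) (@Lb.g g8 (@Lb.g g9 (@Lb.g g10 (@Lb.g g11 (@Lb.r r2666 (@Lb.r r1603 (@Lb.r r2152 (@Lb.r r2073 (@Lb.d (nat_lit 665) (nat_lit 137) (nat_lit 70) (@Lb.fp (nat_lit 9) t50)))))))))))
noncomputable def l38465 : Lb := (@Lb.r r21 (@Lb.r r70 (@Lb.d (nat_lit 2) (nat_lit 512) (nat_lit 64) (@Lb.g g8 (@Lb.g g7 (@Lb.r r2646 (@Lb.r r297 (@Lb.r r264 (@Lb.d (nat_lit 38) (nat_lit 32) (nat_lit 356) (@Lb.fp (nat_lit 3) t3209))))))))))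
noncomputable def l38466 : Lb := (@Lb.d (nat_lit 0) (nat_lit 522) (nat_lit 0) (@Lb.g g5 (@Lb.r r618 (@Lb.r r1641 (@Lb.d (nat_lit 409) (nat_lit 20) (nat_lit 153) (@Lb.t (@Lb.fp (nat_lit 3) t572)))))))
noncomputable def l38467 : Lb := (@Lb.r r82 (@Lb.d (nat_lit 4) (nat_lit 512) (nat_lit 64) (@Lb.g g8 (@Lb.g g9 (@Lb.g g7 (@Lb.r r2646 (@Lb.r r289 (@Lb.r r24 (@Lb.d (nat_lit 34) (nat_lit 34) (nat_lit 356) (@Lb.t (@Lb.fp (nat_lit 9) t2504)))))))))))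
noncomputable def l38468 : Lb := (@Lb.d (nat_lit 2) (nat_lit 2) (nat_lit 73) (@Lb.g g8 (@Lb.g g9 (@Lb.g g10 (@Lb.g g11 (@Lb.r r427 (@Lb.r r409 (@Lb.r r90 (@Lb.r r145 (@Lb.d (nat_lit 521) (nat_lit 4) (nat_lit 680) (@Lb.fp (nat_lit 9) t221)))))))))))
noncomputable def l38469 : Lb := (@Lb.d (nat_lit 132) (nat_lit 512) (nat_lit 2) (@Lb.g g8 (@Lb.g g9 (@Lb.g g10 (@Lb.r r1699 (@Lb.r r2394 (@Lb.r r1553 (@Lb.r r104 (@Lb.d (nat_lit 33) (nat_lit 33) (nat_lit 128) (@Lb.t (@Lb.fm (nat_lit 9) t51)))))))))))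
noncomputable def l38470 : Lb := (@Lb.r r21 (@Lb.r r70 (@Lb.d (nat_lit 2) (nat_lit 256) (nat_lit 64) (@Lb.g g8 (@Lb.g g7 (@Lb.r r2646 (@Lb.r r297 (@Lb.r r264 (@Lb.d (nat_lit 36) (nat_lit 32) (nat_lit 356) (@Lb.fp (nat_lit 3) t2504))))))))))
noncomputable def l38471 : Lb := (@Lb.d (nat_lit 0) (nat_lit 260) (nat_lit 128) (@Lb.g g8 (@Lb.g g9 (@Lb.g g10 (@Lb.g g11 (@Lb.r r2691 (@Lb.r r1350 (@Lb.r r97 (@Lb.r r1432 (@Lb.d (nat_lit 278) (nat_lit 146) (nat_lit 680) (@Lb.fm (nat_lit 9) t6727)))))))))))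
noncomputable def l38472 : Lb := (@Lb.d (nat_lit 5) (nat_lit 262) (nat_lit 0) (@Lb.r r20 (@Lb.r r89 (@Lb.r r579 (@Lb.g g6 (@Lb.g g4 (@Lb.d (nat_lit 5) (nat_lit 0) (nat_lit 18) (@Lb.r r387 (@Lb.fp (nat_lit 3) t6728)))))))))
noncomputable def l38473 : Lb := (@Lb.r r70 (@Lb.d (nat_lit 5) (nat_lit 256) (nat_lit 128) (@Lb.g g8 (@Lb.g g9 (@Lb.g g11 (@Lb.r r394 (@Lb.r r297 (@Lb.r r599 (@Lb.r r404 (@Lb.d (nat_lit 421) (nat_lit 85) (nat_lit 393) (@Lb.t (@Lb.fp (nat_lit 9) t5177))))))))))))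
noncomputable def l38474 : Lb := (@Lb.r r70 (@Lb.d (nat_lit 5) (nat_lit 512) (nat_lit 128) (@Lb.g g8 (@Lb.g g9 (@Lb.g g11 (@Lb.r r394 (@Lb.r r297 (@Lb.r r599 (@Lb.r r404 (@Lb.d (nat_lit 416) (nat_lit 84) (nat_lit 393) (@Lb.t (@Lb.fp (nat_lit 9) t5177))))))))))))
noncomputable def l38475 : Lb := (@Lb.d (nat_lit 0) (nat_lit 36) (nat_lit 410) (@Lb.r r537 (@Lb.r r660 (@Lb.r r2411 (@Lb.g g10 (@Lb.g g5 (@Lb.d (nat_lit 0) (nat_lit 8) (nat_lit 6) (@Lb.r r339 (@Lb.fp (nat_lit 3) t4841)))))))))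
noncomputable def l38476 : Lb := (@Lb.d (nat_lit 106) (nat_lit 37) (nat_lit 130) (@Lb.g g8 (@Lb.g g9 (@Lb.g g10 (@Lb.g g11 (@Lb.r r2391 (@Lb.r r2390 (@Lb.r r2712 (@Lb.r r2645 (@Lb.d (nat_lit 516) (nat_lit 169) (nat_lit 389) (@Lb.fm (nat_lit 9) t6729)))))))))))
noncomputable def l38477 : Lb := (@Lb.d (nat_lit 2) (nat_lit 650) (nat_lit 277) (@Lb.r r2196 (@Lb.r r386 (@Lb.r r595 (@Lb.r r2321 (@Lb.g g7 (@Lb.g g6 (@Lb.d (nat_lit 0) (nat_lit 0) (nat_lit 65) (@Lb.fm (nat_lit 3) t1401)))))))))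
noncomputable def l38478 : Lb := (@Lb.d (nat_lit 548) (nat_lit 261) (nat_lit 260) (@Lb.r r2196 (@Lb.r r386 (@Lb.r r595 (@Lb.r r2321 (@Lb.g g7 (@Lb.g g6 (@Lb.d (nat_lit 0) (nat_lit 0) (nat_lit 65) (@Lb.fm (nat_lit 3) t2065)))))))))
noncomputable def l38479 : Lb := (@Lb.r r2315 (@Lb.r r152 (@Lb.r r602 (@Lb.r r2453 (@Lb.r r1060 (@Lb.d (nat_lit 661) (nat_lit 89) (nat_lit 290) (@Lb.fm (nat_lit 1) t6730)))))))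
noncomputable def l38480 : Lb := (@Lb.r r267 (@Lb.d (nat_lit 1) (nat_lit 289) (nat_lit 0) (@Lb.g g8 (@Lb.g g9 (@Lb.r r2579 (@Lb.r r1602 (@Lb.r r2084 (@Lb.d (nat_lit 70) (nat_lit 128) (nat_lit 512) (@Lb.fp (nat_lit 3) t1185)))))))))
noncomputable def l38481 : Lb := (@Lb.r r323 (@Lb.d (nat_lit 0) (nat_lit 73) (nat_lit 1) (@Lb.g g9 (@Lb.g g10 (@Lb.r r2339 (@Lb.r r2146 (@Lb.r r2564 (@Lb.d (nat_lit 0) (nat_lit 132) (nat_lit 401) (@Lb.fm (nat_lit 3) t6731)))))))))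
noncomputable def l38482 : Lb := (@Lb.d (nat_lit 130) (nat_lit 258) (nat_lit 2) (@Lb.g g8 (@Lb.g g9 (@Lb.g g10 (@Lb.r r2595 (@Lb.r r2217 (@Lb.r r98 (@Lb.r r392 (@Lb.d (nat_lit 80) (nat_lit 8) (nat_lit 328) (@Lb.t (@Lb.fp (nat_lit 9) t662)))))))))))
noncomputable def l38483 : Lb := (@Lb.d (nat_lit 162) (nat_lit 514) (nat_lit 0) (@Lb.g g8 (@Lb.g g9 (@Lb.r r2595 (@Lb.r r1110 (@Lb.r r2217 (@Lb.r r424 (@Lb.d (nat_lit 84) (nat_lit 38) (nat_lit 330) (@Lb.fp (nat_lit 3) t284)))))))))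
noncomputable def l38484 : Lb := (@Lb.d (nat_lit 646) (nat_lit 577) (nat_lit 517) (@Lb.r r2116 (@Lb.r r666 (@Lb.r r404 (@Lb.r r1361 (@Lb.g g7 (@Lb.g g6 (@Lb.g g5 (@Lb.g g4 (@Lb.d (nat_lit 1) (nat_lit 1) (nat_lit 65) (@Lb.fm (nat_lit 9) t1397)))))))))))
noncomputable def l38485 : Lb := (@Lb.d (nat_lit 130) (nat_lit 2) (nat_lit 8) (@Lb.g g8 (@Lb.g g9 (@Lb.g g10 (@Lb.r r2595 (@Lb.r r2721 (@Lb.r r614 (@Lb.r r392 (@Lb.d (nat_lit 86) (nat_lit 0) (nat_lit 330) (@Lb.t (@Lb.fp (nat_lit 9) t284)))))))))))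
noncomputable def l38486 : Lb := (@Lb.d (nat_lit 146) (nat_lit 128) (nat_lit 612) (@Lb.r r532 (@Lb.r r1129 (@Lb.r r2659 (@Lb.g g7 (@Lb.g g10 (@Lb.g g5 (@Lb.g g4 (@Lb.d (nat_lit 72) (nat_lit 0) (nat_lit 162) (@Lb.fm (nat_lit 9) t6732))))))))))
noncomputable def l38487 : Lb := (@Lb.d (nat_lit 645) (nat_lit 512) (nat_lit 2) (@Lb.r r2149 (@Lb.r r2371 (@Lb.g g10 (@Lb.g g5 (@Lb.g g8 (@Lb.d (nat_lit 324) (nat_lit 8) (nat_lit 33) (@Lb.r r291 (@Lb.t (@Lb.fm (nat_lit 9) t6731))))))))))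
noncomputable def l38488 : Lb := (@Lb.d (nat_lit 8) (nat_lit 550) (nat_lit 64) (@Lb.g g8 (@Lb.g g9 (@Lb.g g10 (@Lb.g g11 (@Lb.r r1371 (@Lb.r r1442 (@Lb.r r25 (@Lb.r r2628 (@Lb.d (nat_lit 85) (nat_lit 89) (nat_lit 612) (@Lb.fm (nat_lit 9) t5235)))))))))))
noncomputable def l38489 : Lb := (@Lb.d (nat_lit 132) (nat_lit 513) (nat_lit 256) (@Lb.g g5 (@Lb.g g10 (@Lb.g g7 (@Lb.r r2454 (@Lb.d (nat_lit 261) (nat_lit 152) (nat_lit 66) (@Lb.t (@Lb.fp (nat_lit 9) t6733))))))))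
noncomputable def l38490 : Lb := (@Lb.d (nat_lit 2) (nat_lit 2) (nat_lit 130) (@Lb.g g8 (@Lb.g g9 (@Lb.g g10 (@Lb.g g11 (@Lb.r r1706 (@Lb.r r680 (@Lb.r r555 (@Lb.r r617 (@Lb.r r2084 (@Lb.d (nat_lit 612) (nat_lit 1) (nat_lit 596) (@Lb.fp (nat_lit 9) t61))))))))))))
noncomputable def l38491 : Lb := (@Lb.d (nat_lit 4) (nat_lit 256) (nat_lit 130) (@Lb.g g8 (@Lb.g g9 (@Lb.g g10 (@Lb.g g11 (@Lb.r r1706 (@Lb.r r680 (@Lb.r r555 (@Lb.r r617 (@Lb.r r2084 (@Lb.d (nat_lit 612) (nat_lit 1) (nat_lit 665) (@Lb.fp (nat_lit 9) t61))))))))))))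
noncomputable def l38492 : Lb := (@Lb.r r82 (@Lb.d (nat_lit 129) (nat_lit 2) (nat_lit 128) (@Lb.g g8 (@Lb.g g9 (@Lb.g g11 (@Lb.r r1307 (@Lb.r r418 (@Lb.r r613 (@Lb.r r616 (@Lb.d (nat_lit 41) (nat_lit 36) (nat_lit 68) (@Lb.t (@Lb.fp (nat_lit 9) t6734))))))))))))
noncomputable def l38493 : Lb := (@Lb.d (nat_lit 4) (nat_lit 292) (nat_lit 64) (@Lb.g g8 (@Lb.g g9 (@Lb.g g10 (@Lb.g g11 (@Lb.r r1699 (@Lb.r r1450 (@Lb.r r2088 (@Lb.r r1561 (@Lb.d (nat_lit 426) (nat_lit 134) (nat_lit 292) (@Lb.fm (nat_lit 9) t931)))))))))))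
noncomputable def l38494 : Lb := (@Lb.r r355 (@Lb.d (nat_lit 2) (nat_lit 513) (nat_lit 18) (@Lb.g g8 (@Lb.g g9 (@Lb.g g6 (@Lb.r r2667 (@Lb.r r1625 (@Lb.r r2564 (@Lb.d (nat_lit 164) (nat_lit 73) (nat_lit 417) (@Lb.t (@Lb.fm (nat_lit 9) t4508)))))))))))
noncomputable def l38495 : Lb := (@Lb.r r330 (@Lb.r r356 (@Lb.r r411 (@Lb.r r2069 (@Lb.r r36 (@Lb.d (nat_lit 0) (nat_lit 128) (nat_lit 256) (@Lb.fp (nat_lit 1) t992)))))))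
noncomputable def l38496 : Lb := (@Lb.d (nat_lit 2) (nat_lit 33) (nat_lit 66) (@Lb.g g8 (@Lb.g g9 (@Lb.g g10 (@Lb.g g11 (@Lb.r r2595 (@Lb.r r386 (@Lb.r r36 (@Lb.r r149 (@Lb.r r2084 (@Lb.d (nat_lit 648) (nat_lit 9) (nat_lit 677) (@Lb.fp (nat_lit 9) t6735))))))))))))
noncomputable def l38497 : Lb := (@Lb.d (nat_lit 134) (nat_lit 266) (nat_lit 256) (@Lb.g g8 (@Lb.g g9 (@Lb.g g7 (@Lb.r r1618 (@Lb.r r1425 (@Lb.r r584 (@Lb.d (nat_lit 98) (nat_lit 90) (nat_lit 9) (@Lb.t (@Lb.fm (nat_lit 9) t6736))))))))))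
noncomputable def l38498 : Lb := (@Lb.d (nat_lit 0) (nat_lit 266) (nat_lit 2) (@Lb.g g9 (@Lb.g g10 (@Lb.r r97 (@Lb.r r2130 (@Lb.r r145 (@Lb.d (nat_lit 0) (nat_lit 10) (nat_lit 137) (@Lb.fp (nat_lit 3) t4520))))))))
noncomputable def l38499 : Lb := (@Lb.r r322 (@Lb.d (nat_lit 128) (nat_lit 386) (nat_lit 136) (@Lb.g g9 (@Lb.g g11 (@Lb.r r2458 (@Lb.r r2452 (@Lb.r r1643 (@Lb.d (nat_lit 346) (nat_lit 146) (nat_lit 514) (@Lb.fm (nat_lit 3) t3182)))))))))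
noncomputable def l38500 : Lb := (@Lb.r r82 (@Lb.r r283 (@Lb.d (nat_lit 8) (nat_lit 282) (nat_lit 0) (@Lb.g g8 (@Lb.g g9 (@Lb.r r407 (@Lb.r r346 (@Lb.r r324 (@Lb.d (nat_lit 130) (nat_lit 2) (nat_lit 128) (@Lb.fm (nat_lit 3) t3217))))))))))
noncomputable def l38501 : Lb := (@Lb.d (nat_lit 529) (nat_lit 292) (nat_lit 598) (@Lb.r r2567 (@Lb.r r1448 (@Lb.r r89 (@Lb.g g10 (@Lb.g g4 (@Lb.d (nat_lit 4) (nat_lit 0) (nat_lit 18) (@Lb.r r387 (@Lb.r r145 (@Lb.fp (nat_lit 3) t2282))))))))))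
noncomputable def l38502 : Lb := (@Lb.d (nat_lit 2) (nat_lit 514) (nat_lit 130) (@Lb.g g8 (@Lb.g g9 (@Lb.g g10 (@Lb.g g11 (@Lb.r r1443 (@Lb.r r297 (@Lb.r r2120 (@Lb.r r1126 (@Lb.d (nat_lit 277) (nat_lit 2) (nat_lit 346) (@Lb.fp (nat_lit 9) t4498)))))))))))
noncomputable def l38503 : Lb := (@Lb.d (nat_lit 2) (nat_lit 258) (nat_lit 128) (@Lb.g g8 (@Lb.g g9 (@Lb.g g10 (@Lb.g g11 (@Lb.r r411 (@Lb.r r297 (@Lb.r r360 (@Lb.r r582 (@Lb.d (nat_lit 148) (nat_lit 85) (nat_lit 70) (@Lb.fp (nat_lit 9) t91)))))))))))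
noncomputable def l38504 : Lb := (@Lb.d (nat_lit 0) (nat_lit 2) (nat_lit 4) (@Lb.g g8 (@Lb.g g9 (@Lb.g g10 (@Lb.g g11 (@Lb.r r1367 (@Lb.r r1429 (@Lb.r r1110 (@Lb.r r24 (@Lb.d (nat_lit 34) (nat_lit 154) (nat_lit 84) (@Lb.fm (nat_lit 9) t6737)))))))))))
noncomputable def l38505 : Lb := (@Lb.r r21 (@Lb.d (nat_lit 657) (nat_lit 520) (nat_lit 64) (@Lb.g g4 (@Lb.g g10 (@Lb.g g11 (@Lb.r r345 (@Lb.r r2667 (@Lb.r r2374 (@Lb.d (nat_lit 97) (nat_lit 138) (nat_lit 661) (@Lb.t (@Lb.fm (nat_lit 9) t68)))))))))))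
noncomputable def l38506 : Lb := (@Lb.r r82 (@Lb.d (nat_lit 4) (nat_lit 5) (nat_lit 128) (@Lb.g g5 (@Lb.g g11 (@Lb.r r2587 (@Lb.r r386 (@Lb.r r24 (@Lb.d (nat_lit 130) (nat_lit 1) (nat_lit 329) (@Lb.fm (nat_lit 3) t538)))))))))
noncomputable def l38507 : Lb := (@Lb.r r82 (@Lb.d (nat_lit 8) (nat_lit 2) (nat_lit 128) (@Lb.g g9 (@Lb.g g11 (@Lb.r r152 (@Lb.r r586 (@Lb.r r611 (@Lb.r r613 (@Lb.d (nat_lit 166) (nat_lit 144) (nat_lit 0) (@Lb.fp (nat_lit 3) t3962))))))))))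
noncomputable def l38508 : Lb := (@Lb.r r21 (@Lb.r r70 (@Lb.d (nat_lit 408) (nat_lit 0) (nat_lit 64) (@Lb.g g4 (@Lb.g g11 (@Lb.r r519 (@Lb.r r402 (@Lb.r r25 (@Lb.d (nat_lit 594) (nat_lit 153) (nat_lit 73) (@Lb.fp (nat_lit 3) t375))))))))))
noncomputable def l38509 : Lb := (@Lb.d (nat_lit 2) (nat_lit 658) (nat_lit 389) (@Lb.r r579 (@Lb.r r1362 (@Lb.g g7 (@Lb.g g6 (@Lb.g g5 (@Lb.g g8 (@Lb.d (nat_lit 9) (nat_lit 128) (nat_lit 134) (@Lb.fp (nat_lit 9) t360)))))))))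
noncomputable def l38510 : Lb := (@Lb.d (nat_lit 165) (nat_lit 261) (nat_lit 394) (@Lb.r r273 (@Lb.r r402 (@Lb.r r679 (@Lb.g g7 (@Lb.g g6 (@Lb.g g8 (@Lb.d (nat_lit 353) (nat_lit 0) (nat_lit 5) (@Lb.r r409 (@Lb.t (@Lb.fm (nat_lit 9) t4995)))))))))))
noncomputable def l38511 : Lb := (@Lb.d (nat_lit 298) (nat_lit 586) (nat_lit 1) (@Lb.r r164 (@Lb.r r150 (@Lb.r r1619 (@Lb.g g5 (@Lb.g g4 (@Lb.d (nat_lit 16) (nat_lit 65) (nat_lit 0) (@Lb.r r291 (@Lb.r r98 (@Lb.fm (nat_lit 3) t750))))))))))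
noncomputable def l38512 : Lb := (@Lb.d (nat_lit 262) (nat_lit 1) (nat_lit 0) (@Lb.r r2311 (@Lb.g g4 (@Lb.t (@Lb.fm (nat_lit 3) t3367)))))
noncomputable def l38513 : Lb := (@Lb.d (nat_lit 5) (nat_lit 0) (nat_lit 130) (@Lb.g g8 (@Lb.g g9 (@Lb.g g10 (@Lb.g g11 (@Lb.r r427 (@Lb.r r2146 (@Lb.r r1433 (@Lb.r r1432 (@Lb.d (nat_lit 40) (nat_lit 137) (nat_lit 33) (@Lb.fm (nat_lit 9) t968)))))))))))
noncomputable def l38514 : Lb := (@Lb.d (nat_lit 4) (nat_lit 293) (nat_lit 128) (@Lb.g g8 (@Lb.g g9 (@Lb.g g10 (@Lb.g g11 (@Lb.r r387 (@Lb.r r2154 (@Lb.r r2073 (@Lb.r r1608 (@Lb.d (nat_lit 144) (nat_lit 21) (nat_lit 420) (@Lb.fm (nat_lit 9) t6738)))))))))))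
noncomputable def l38515 : Lb := (@Lb.r r21 (@Lb.r r70 (@Lb.g g8 (@Lb.r r1060 (@Lb.r r101 (@Lb.r r2450 (@Lb.d (nat_lit 0) (nat_lit 512) (nat_lit 384) (@Lb.t (@Lb.fp (nat_lit 3) t2605)))))))))
noncomputable def l38516 : Lb := (@Lb.d (nat_lit 2) (nat_lit 530) (nat_lit 74) (@Lb.g g8 (@Lb.g g9 (@Lb.g g10 (@Lb.g g11 (@Lb.r r2567 (@Lb.r r424 (@Lb.r r1177 (@Lb.r r2194 (@Lb.d (nat_lit 33) (nat_lit 40) (nat_lit 641) (@Lb.fm (nat_lit 9) t6739)))))))))))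
noncomputable def l38517 : Lb := (@Lb.d (nat_lit 2) (nat_lit 2) (nat_lit 66) (@Lb.g g8 (@Lb.g g9 (@Lb.g g10 (@Lb.g g11 (@Lb.r r1543 (@Lb.r r424 (@Lb.r r106 (@Lb.r r25 (@Lb.d (nat_lit 521) (nat_lit 9) (nat_lit 136) (@Lb.fp (nat_lit 9) t1456)))))))))))
noncomputable def l38518 : Lb := (@Lb.r r21 (@Lb.r r70 (@Lb.g g8 (@Lb.r r1060 (@Lb.r r101 (@Lb.r r2450 (@Lb.d (nat_lit 0) (nat_lit 256) (nat_lit 256) (@Lb.t (@Lb.fp (nat_lit 3) t2605)))))))))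
noncomputable def l38519 : Lb := (@Lb.d (nat_lit 1) (nat_lit 528) (nat_lit 168) (@Lb.r r2341 (@Lb.r r1624 (@Lb.r r2438 (@Lb.g g11 (@Lb.g g5 (@Lb.d (nat_lit 0) (nat_lit 0) (nat_lit 128) (@Lb.fm (nat_lit 3) t2351))))))))
noncomputable def l38520 : Lb := (@Lb.d (nat_lit 0) (nat_lit 640) (nat_lit 640) (@Lb.r r2341 (@Lb.r r1624 (@Lb.r r2438 (@Lb.g g11 (@Lb.t (@Lb.fm (nat_lit 3) t2409)))))))
noncomputable def l38521 : Lb := (@Lb.d (nat_lit 674) (nat_lit 258) (nat_lit 548) (@Lb.r r2438 (@Lb.r r1624 (@Lb.r r323 (@Lb.g g7 (@Lb.g g6 (@Lb.g g9 (@Lb.d (nat_lit 8) (nat_lit 145) (nat_lit 65) (@Lb.r r36 (@Lb.t (@Lb.fm (nat_lit 9) t4267)))))))))))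
noncomputable def l38522 : Lb := (@Lb.d (nat_lit 406) (nat_lit 26) (nat_lit 548) (@Lb.r r2453 (@Lb.r r2667 (@Lb.g g10 (@Lb.g g5 (@Lb.g g4 (@Lb.d (nat_lit 8) (nat_lit 6) (nat_lit 34) (@Lb.r r403 (@Lb.t (@Lb.fp (nat_lit 9) t2700))))))))))
noncomputable def l38523 : Lb := (@Lb.d (nat_lit 584) (nat_lit 678) (nat_lit 417) (@Lb.r r2663 (@Lb.r r613 (@Lb.r r20 (@Lb.r r338 (@Lb.g g7 (@Lb.g g6 (@Lb.g g5 (@Lb.d (nat_lit 64) (nat_lit 2) (nat_lit 65) (@Lb.t (@Lb.fp (nat_lit 9) t3462)))))))))))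
noncomputable def l38524 : Lb := (@Lb.d (nat_lit 170) (nat_lit 256) (nat_lit 8) (@Lb.g g8 (@Lb.g g11 (@Lb.r r1346 (@Lb.r r679 (@Lb.r r2597 (@Lb.r r276 (@Lb.d (nat_lit 70) (nat_lit 89) (nat_lit 145) (@Lb.fm (nat_lit 3) t1952)))))))))
noncomputable def l38525 : Lb := (@Lb.d (nat_lit 128) (nat_lit 256) (nat_lit 257) (@Lb.g g7 (@Lb.d (nat_lit 64) (nat_lit 0) (nat_lit 644) (@Lb.t (@Lb.fm (nat_lit 3) t973)))))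
noncomputable def l38526 : Lb := (@Lb.d (nat_lit 360) (nat_lit 169) (nat_lit 33) (@Lb.r r408 (@Lb.r r2378 (@Lb.r r1431 (@Lb.g g7 (@Lb.g g5 (@Lb.g g4 (@Lb.d (nat_lit 6) (nat_lit 134) (nat_lit 64) (@Lb.r r74 (@Lb.t (@Lb.fm (nat_lit 9) t4742)))))))))))
noncomputable def l38527 : Lb := (@Lb.d (nat_lit 0) (nat_lit 256) (nat_lit 2) (@Lb.g g8 (@Lb.g g10 (@Lb.g g7 (@Lb.r r386 (@Lb.d (nat_lit 0) (nat_lit 0) (nat_lit 9) (@Lb.t (@Lb.fm (nat_lit 9) t2))))))))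
noncomputable def l38528 : Lb := (@Lb.d (nat_lit 401) (nat_lit 512) (nat_lit 289) (@Lb.g g7 (@Lb.d (nat_lit 0) (nat_lit 0) (nat_lit 132) (@Lb.t (@Lb.fm (nat_lit 3) t1165)))))
noncomputable def l38529 : Lb := (@Lb.d (nat_lit 16) (nat_lit 0) (nat_lit 24) (@Lb.g g6 (@Lb.g g11 (@Lb.r r1611 (@Lb.d (nat_lit 658) (nat_lit 0) (nat_lit 394) (@Lb.fm (nat_lit 3) t282))))))
noncomputable def l38530 : Lb := (@Lb.r r82 (@Lb.d (nat_lit 8) (nat_lit 297) (nat_lit 64) (@Lb.g g9 (@Lb.g g11 (@Lb.r r1426 (@Lb.r r343 (@Lb.r r1300 (@Lb.r r2665 (@Lb.d (nat_lit 618) (nat_lit 41) (nat_lit 554) (@Lb.fm (nat_lit 3) t685))))))))))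
noncomputable def l38531 : Lb := (@Lb.r r355 (@Lb.d (nat_lit 130) (nat_lit 265) (nat_lit 21) (@Lb.g g8 (@Lb.g g9 (@Lb.g g10 (@Lb.r r547 (@Lb.r r617 (@Lb.r r1060 (@Lb.d (nat_lit 152) (nat_lit 130) (nat_lit 520) (@Lb.t (@Lb.fm (nat_lit 9) t3146)))))))))))
noncomputable def l38532 : Lb := (@Lb.d (nat_lit 10) (nat_lit 512) (nat_lit 0) (@Lb.g g8 (@Lb.r r358 (@Lb.r r1381 (@Lb.r r2451 (@Lb.r r2564 (@Lb.d (nat_lit 642) (nat_lit 24) (nat_lit 329) (@Lb.t (@Lb.fm (nat_lit 3) t1558)))))))))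
noncomputable def l38533 : Lb := (@Lb.d (nat_lit 8) (nat_lit 0) (nat_lit 128) (@Lb.g g8 (@Lb.g g11 (@Lb.r r1382 (@Lb.r r2405 (@Lb.r r1427 (@Lb.r r2564 (@Lb.d (nat_lit 642) (nat_lit 65) (nat_lit 546) (@Lb.fp (nat_lit 3) t6740)))))))))
noncomputable def l38534 : Lb := (@Lb.d (nat_lit 0) (nat_lit 258) (nat_lit 73) (@Lb.g g8 (@Lb.g g9 (@Lb.g g10 (@Lb.g g11 (@Lb.r r2666 (@Lb.r r1611 (@Lb.r r104 (@Lb.r r25 (@Lb.d (nat_lit 646) (nat_lit 144) (nat_lit 576) (@Lb.fp (nat_lit 9) t490)))))))))))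
noncomputable def l38535 : Lb := (@Lb.d (nat_lit 5) (nat_lit 40) (nat_lit 658) (@Lb.r r2450 (@Lb.r r593 (@Lb.r r347 (@Lb.r r2308 (@Lb.g g7 (@Lb.g g5 (@Lb.d (nat_lit 4) (nat_lit 1) (nat_lit 64) (@Lb.fp (nat_lit 3) t2074)))))))))
noncomputable def l38536 : Lb := (@Lb.d (nat_lit 0) (nat_lit 265) (nat_lit 130) (@Lb.g g9 (@Lb.g g10 (@Lb.g g11 (@Lb.r r1671 (@Lb.r r2376 (@Lb.r r2662 (@Lb.r r97 (@Lb.d (nat_lit 293) (nat_lit 36) (nat_lit 278) (@Lb.t (@Lb.fp (nat_lit 9) t1915)))))))))))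
noncomputable def l38537 : Lb := (@Lb.d (nat_lit 401) (nat_lit 257) (nat_lit 81) (@Lb.r r580 (@Lb.r r615 (@Lb.r r402 (@Lb.g g5 (@Lb.g g4 (@Lb.d (nat_lit 18) (nat_lit 38) (nat_lit 0) (@Lb.fm (nat_lit 3) t1602))))))))
noncomputable def l38538 : Lb := (@Lb.d (nat_lit 261) (nat_lit 392) (nat_lit 2) (@Lb.r r21 (@Lb.r r1124 (@Lb.r r323 (@Lb.g g10 (@Lb.g g5 (@Lb.d (nat_lit 16) (nat_lit 1) (nat_lit 18) (@Lb.r r387 (@Lb.r r132 (@Lb.fp (nat_lit 3) t350))))))))))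
noncomputable def l38539 : Lb := (@Lb.r r323 (@Lb.d (nat_lit 33) (nat_lit 514) (nat_lit 2) (@Lb.g g8 (@Lb.g g9 (@Lb.g g10 (@Lb.r r2666 (@Lb.r r1619 (@Lb.r r2337 (@Lb.r r1556 (@Lb.d (nat_lit 384) (nat_lit 144) (nat_lit 320) (@Lb.t (@Lb.fm (nat_lit 9) t6741))))))))))))
noncomputable def l38540 : Lb := (@Lb.d (nat_lit 2) (nat_lit 258) (nat_lit 73) (@Lb.g g8 (@Lb.g g9 (@Lb.g g10 (@Lb.g g11 (@Lb.r r427 (@Lb.r r420 (@Lb.r r102 (@Lb.r r97 (@Lb.r r36 (@Lb.d (nat_lit 4) (nat_lit 136) (nat_lit 73) (@Lb.fm (nat_lit 9) t119))))))))))))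
noncomputable def l38541 : Lb := (@Lb.d (nat_lit 128) (nat_lit 512) (nat_lit 128) (@Lb.g g11 (@Lb.r r586 (@Lb.r r24 (@Lb.r r405 (@Lb.r r611 (@Lb.d (nat_lit 608) (nat_lit 9) (nat_lit 546) (@Lb.t (@Lb.fp (nat_lit 3) t1013)))))))))
noncomputable def l38542 : Lb := (@Lb.d (nat_lit 513) (nat_lit 89) (nat_lit 338) (@Lb.r r1109 (@Lb.r r1444 (@Lb.r r2178 (@Lb.r r1435 (@Lb.g g7 (@Lb.g g4 (@Lb.d (nat_lit 1) (nat_lit 0) (nat_lit 128) (@Lb.fp (nat_lit 3) t6742)))))))))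
noncomputable def l38543 : Lb := (@Lb.r r323 (@Lb.d (nat_lit 2) (nat_lit 514) (nat_lit 0) (@Lb.g g8 (@Lb.g g9 (@Lb.g g10 (@Lb.r r1706 (@Lb.r r2692 (@Lb.r r2567 (@Lb.r r1553 (@Lb.d (nat_lit 0) (nat_lit 16) (nat_lit 10) (@Lb.t (@Lb.fm (nat_lit 9) t3150))))))))))))
noncomputable def l38544 : Lb := (@Lb.d (nat_lit 8) (nat_lit 2) (nat_lit 73) (@Lb.g g9 (@Lb.g g10 (@Lb.g g11 (@Lb.r r614 (@Lb.r r404 (@Lb.r r619 (@Lb.r r609 (@Lb.d (nat_lit 4) (nat_lit 152) (nat_lit 2) (@Lb.t (@Lb.fm (nat_lit 9) t71)))))))))))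
noncomputable def l38545 : Lb := (@Lb.d (nat_lit 676) (nat_lit 665) (nat_lit 536) (@Lb.r r20 (@Lb.r r2329 (@Lb.r r2659 (@Lb.r r2370 (@Lb.g g7 (@Lb.g g6 (@Lb.d (nat_lit 0) (nat_lit 0) (nat_lit 65) (@Lb.fp (nat_lit 3) t6743)))))))))
noncomputable def l38546 : Lb := (@Lb.d (nat_lit 0) (nat_lit 0) (nat_lit 528) (@Lb.r r2182 (@Lb.r r324 (@Lb.r r1563 (@Lb.r r1317 (@Lb.g g9 (@Lb.g g4 (@Lb.r r74 (@Lb.fm (nat_lit 3) t5669)))))))))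
noncomputable def l38547 : Lb := (@Lb.r r21 (@Lb.r r70 (@Lb.d (nat_lit 128) (nat_lit 0) (nat_lit 128) (@Lb.g g8 (@Lb.g g11 (@Lb.r r1563 (@Lb.r r281 (@Lb.r r2196 (@Lb.r r2182 (@Lb.d (nat_lit 2) (nat_lit 9) (nat_lit 18) (@Lb.fm (nat_lit 3) t728)))))))))))
noncomputable def l38548 : Lb := (@Lb.d (nat_lit 41) (nat_lit 512) (nat_lit 128) (@Lb.g g8 (@Lb.g g9 (@Lb.g g11 (@Lb.r r86 (@Lb.r r673 (@Lb.r r2599 (@Lb.r r1304 (@Lb.d (nat_lit 546) (nat_lit 84) (nat_lit 145) (@Lb.t (@Lb.fp (nat_lit 9) t2014)))))))))))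
noncomputable def l38549 : Lb := (@Lb.r r21 (@Lb.d (nat_lit 33) (nat_lit 0) (nat_lit 128) (@Lb.g g8 (@Lb.g g11 (@Lb.r r102 (@Lb.r r273 (@Lb.r r2663 (@Lb.r r1432 (@Lb.d (nat_lit 548) (nat_lit 85) (nat_lit 137) (@Lb.fm (nat_lit 3) t2014))))))))))
noncomputable def l38550 : Lb := (@Lb.d (nat_lit 2) (nat_lit 265) (nat_lit 129) (@Lb.g g8 (@Lb.g g9 (@Lb.g g10 (@Lb.g g11 (@Lb.r r682 (@Lb.r r648 (@Lb.r r2587 (@Lb.r r1313 (@Lb.r r36 (@Lb.d (nat_lit 402) (nat_lit 169) (nat_lit 594) (@Lb.fp (nat_lit 9) t6744))))))))))))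
noncomputable def l38551 : Lb := (@Lb.d (nat_lit 146) (nat_lit 2) (nat_lit 4) (@Lb.g g8 (@Lb.g g9 (@Lb.g g10 (@Lb.g g11 (@Lb.r r610 (@Lb.r r361 (@Lb.r r2579 (@Lb.r r1540 (@Lb.d (nat_lit 264) (nat_lit 98) (nat_lit 578) (@Lb.fp (nat_lit 9) t6745)))))))))))
noncomputable def l38552 : Lb := (@Lb.r r82 (@Lb.d (nat_lit 41) (nat_lit 513) (nat_lit 128) (@Lb.g g8 (@Lb.g g9 (@Lb.g g11 (@Lb.r r363 (@Lb.r r582 (@Lb.r r388 (@Lb.d (nat_lit 98) (nat_lit 1) (nat_lit 154) (@Lb.t (@Lb.fm (nat_lit 9) t390)))))))))))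
noncomputable def l38553 : Lb := (@Lb.d (nat_lit 9) (nat_lit 260) (nat_lit 128) (@Lb.g g8 (@Lb.g g9 (@Lb.g g10 (@Lb.g g11 (@Lb.r r1571 (@Lb.r r386 (@Lb.r r612 (@Lb.r r533 (@Lb.r r1060 (@Lb.d (nat_lit 129) (nat_lit 10) (nat_lit 601) (@Lb.fp (nat_lit 9) t6746))))))))))))
noncomputable def l38554 : Lb := (@Lb.d (nat_lit 9) (nat_lit 514) (nat_lit 130) (@Lb.g g8 (@Lb.g g9 (@Lb.g g10 (@Lb.g g11 (@Lb.r r1705 (@Lb.r r2475 (@Lb.r r2468 (@Lb.r r2438 (@Lb.d (nat_lit 610) (nat_lit 10) (nat_lit 105) (@Lb.fp (nat_lit 9) t590)))))))))))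
noncomputable def l38555 : Lb := (@Lb.d (nat_lit 545) (nat_lit 256) (nat_lit 166) (@Lb.r r24 (@Lb.r r101 (@Lb.r r1683 (@Lb.r r642 (@Lb.g g7 (@Lb.g g6 (@Lb.d (nat_lit 0) (nat_lit 0) (nat_lit 6) (@Lb.fm (nat_lit 3) t868)))))))))
noncomputable def l38556 : Lb := (@Lb.d (nat_lit 645) (nat_lit 326) (nat_lit 82) (@Lb.r r1301 (@Lb.r r1366 (@Lb.r r683 (@Lb.r r1672 (@Lb.g g7 (@Lb.g g6 (@Lb.g g5 (@Lb.d (nat_lit 4) (nat_lit 2) (nat_lit 129) (@Lb.t (@Lb.fp (nat_lit 9) t6747)))))))))))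
noncomputable def l38557 : Lb := (@Lb.r r82 (@Lb.r r275 (@Lb.d (nat_lit 1) (nat_lit 64) (nat_lit 0) (@Lb.g g4 (@Lb.g g9 (@Lb.r r2343 (@Lb.r r98 (@Lb.d (nat_lit 257) (nat_lit 2) (nat_lit 0) (@Lb.fp (nat_lit 3) t419)))))))))
noncomputable def l38558 : Lb := (@Lb.d (nat_lit 33) (nat_lit 512) (nat_lit 128) (@Lb.g g8 (@Lb.g g11 (@Lb.r r345 (@Lb.r r1638 (@Lb.r r615 (@Lb.r r408 (@Lb.d (nat_lit 292) (nat_lit 149) (nat_lit 681) (@Lb.fm (nat_lit 3) t2014)))))))))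
noncomputable def l38559 : Lb := (@Lb.d (nat_lit 0) (nat_lit 256) (nat_lit 136) (@Lb.g g11 (@Lb.r r405 (@Lb.r r2454 (@Lb.r r2411 (@Lb.r r1124 (@Lb.d (nat_lit 514) (nat_lit 0) (nat_lit 144) (@Lb.t (@Lb.fm (nat_lit 3) t2014)))))))))
noncomputable def l38560 : Lb := (@Lb.d (nat_lit 0) (nat_lit 260) (nat_lit 128) (@Lb.g g8 (@Lb.g g9 (@Lb.g g10 (@Lb.g g11 (@Lb.r r2411 (@Lb.r r386 (@Lb.r r676 (@Lb.r r597 (@Lb.r r2084 (@Lb.d (nat_lit 521) (nat_lit 66) (nat_lit 154) (@Lb.fm (nat_lit 9) t394))))))))))))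
noncomputable def l38561 : Lb := (@Lb.r r82 (@Lb.d (nat_lit 0) (nat_lit 514) (nat_lit 128) (@Lb.g g8 (@Lb.g g9 (@Lb.g g11 (@Lb.r r2459 (@Lb.r r425 (@Lb.r r1448 (@Lb.r r1418 (@Lb.d (nat_lit 106) (nat_lit 66) (nat_lit 544) (@Lb.t (@Lb.fp (nat_lit 9) t394))))))))))))
noncomputable def l38562 : Lb := (@Lb.d (nat_lit 153) (nat_lit 257) (nat_lit 10) (@Lb.g g8 (@Lb.g g9 (@Lb.g g10 (@Lb.g g11 (@Lb.r r1691 (@Lb.r r406 (@Lb.r r2577 (@Lb.r r276 (@Lb.d (nat_lit 674) (nat_lit 72) (nat_lit 404) (@Lb.fp (nat_lit 9) t2095)))))))))))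
noncomputable def l38563 : Lb := (@Lb.d (nat_lit 0) (nat_lit 516) (nat_lit 128) (@Lb.g g8 (@Lb.g g9 (@Lb.g g10 (@Lb.g g11 (@Lb.r r2411 (@Lb.r r386 (@Lb.r r676 (@Lb.r r597 (@Lb.r r2084 (@Lb.d (nat_lit 521) (nat_lit 73) (nat_lit 153) (@Lb.fm (nat_lit 9) t394))))))))))))
noncomputable def l38564 : Lb := (@Lb.r r82 (@Lb.d (nat_lit 2) (nat_lit 514) (nat_lit 0) (@Lb.g g8 (@Lb.g g9 (@Lb.r r1642 (@Lb.r r1561 (@Lb.d (nat_lit 585) (nat_lit 0) (nat_lit 640) (@Lb.fm (nat_lit 3) t225))))))))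
noncomputable def l38565 : Lb := (@Lb.d (nat_lit 2) (nat_lit 290) (nat_lit 130) (@Lb.g g8 (@Lb.g g9 (@Lb.g g10 (@Lb.g g11 (@Lb.r r297 (@Lb.r r403 (@Lb.r r386 (@Lb.r r1169 (@Lb.d (nat_lit 33) (nat_lit 73) (nat_lit 520) (@Lb.fp (nat_lit 9) t661)))))))))))
noncomputable def l38566 : Lb := (@Lb.g g8 (@Lb.g g7 (@Lb.r r609 (@Lb.r r2659 (@Lb.r r338 (@Lb.r r2705 (@Lb.fp (nat_lit 3) t322)))))))
noncomputable def l38567 : Lb := (@Lb.d (nat_lit 0) (nat_lit 256) (nat_lit 34) (@Lb.g g6 (@Lb.r r273 (@Lb.r r2595 (@Lb.r r529 (@Lb.r r8 (@Lb.d (nat_lit 0) (nat_lit 10) (nat_lit 33) (@Lb.t (@Lb.fm (nat_lit 3) t322)))))))))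
noncomputable def l38568 : Lb := (@Lb.d (nat_lit 0) (nat_lit 294) (nat_lit 64) (@Lb.g g9 (@Lb.g g10 (@Lb.g g11 (@Lb.r r683 (@Lb.r r610 (@Lb.r r548 (@Lb.r r613 (@Lb.d (nat_lit 521) (nat_lit 89) (nat_lit 297) (@Lb.t (@Lb.fm (nat_lit 9) t4984)))))))))))
noncomputable def l38569 : Lb := (@Lb.d (nat_lit 144) (nat_lit 258) (nat_lit 64) (@Lb.g g8 (@Lb.g g9 (@Lb.g g10 (@Lb.g g11 (@Lb.r r2454 (@Lb.r r2725 (@Lb.r r1364 (@Lb.r r2459 (@Lb.d (nat_lit 149) (nat_lit 84) (nat_lit 356) (@Lb.fp (nat_lit 9) t1444)))))))))))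
noncomputable def l38570 : Lb := (@Lb.d (nat_lit 10) (nat_lit 257) (nat_lit 130) (@Lb.g g8 (@Lb.g g9 (@Lb.g g10 (@Lb.g g11 (@Lb.r r1699 (@Lb.r r1160 (@Lb.r r1610 (@Lb.r r145 (@Lb.d (nat_lit 408) (nat_lit 137) (nat_lit 596) (@Lb.fp (nat_lit 9) t790)))))))))))
noncomputable def l38571 : Lb := (@Lb.d (nat_lit 0) (nat_lit 0) (nat_lit 34) (@Lb.g g6 (@Lb.r r273 (@Lb.r r2595 (@Lb.r r529 (@Lb.r r8 (@Lb.d (nat_lit 290) (nat_lit 0) (nat_lit 17) (@Lb.t (@Lb.fm (nat_lit 3) t3183)))))))))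
noncomputable def l38572 : Lb := (@Lb.d (nat_lit 0) (nat_lit 552) (nat_lit 64) (@Lb.g g10 (@Lb.g g11 (@Lb.r r2129 (@Lb.r r2466 (@Lb.r r1603 (@Lb.r r8 (@Lb.d (nat_lit 10) (nat_lit 82) (nat_lit 585) (@Lb.fp (nat_lit 3) t1079)))))))))
noncomputable def l38573 : Lb := (@Lb.d (nat_lit 0) (nat_lit 544) (nat_lit 162) (@Lb.g g6 (@Lb.g g11 (@Lb.r r401 (@Lb.r r2659 (@Lb.r r8 (@Lb.d (nat_lit 1) (nat_lit 24) (nat_lit 424) (@Lb.fp (nat_lit 3) t322))))))))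
noncomputable def l38574 : Lb := (@Lb.r r323 (@Lb.d (nat_lit 8) (nat_lit 2) (nat_lit 2) (@Lb.g g9 (@Lb.g g10 (@Lb.r r166 (@Lb.r r344 (@Lb.r r551 (@Lb.r r529 (@Lb.d (nat_lit 10) (nat_lit 34) (nat_lit 128) (@Lb.fp (nat_lit 3) t51))))))))))
noncomputable def l38575 : Lb := (@Lb.d (nat_lit 0) (nat_lit 289) (nat_lit 8) (@Lb.g g9 (@Lb.g g10 (@Lb.r r2579 (@Lb.r r337 (@Lb.r r2210 (@Lb.r r8 (@Lb.d (nat_lit 10) (nat_lit 134) (nat_lit 105) (@Lb.fp (nat_lit 3) t1079)))))))))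
noncomputable def l38576 : Lb := (@Lb.r r275 (@Lb.d (nat_lit 24) (nat_lit 1) (nat_lit 0) (@Lb.g g8 (@Lb.g g9 (@Lb.g g10 (@Lb.r r2198 (@Lb.r r2388 (@Lb.r r603 (@Lb.r r2449 (@Lb.d (nat_lit 10) (nat_lit 20) (nat_lit 356) (@Lb.t (@Lb.fm (nat_lit 9) t3545))))))))))))
noncomputable def l38577 : Lb := (@Lb.d (nat_lit 149) (nat_lit 264) (nat_lit 128) (@Lb.r r402 (@Lb.r r101 (@Lb.g g11 (@Lb.t (@Lb.fp (nat_lit 3) t1113))))))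
noncomputable def l38578 : Lb := (@Lb.r r24 (@Lb.r r101 (@Lb.d (nat_lit 1) (nat_lit 144) (nat_lit 264) (@Lb.fp (nat_lit 1) t1174))))
noncomputable def l38579 : Lb := (@Lb.d (nat_lit 646) (nat_lit 256) (nat_lit 0) (@Lb.g g4 (@Lb.r r273 (@Lb.r r2595 (@Lb.r r2178 (@Lb.r r529 (@Lb.d (nat_lit 1) (nat_lit 128) (nat_lit 576) (@Lb.t (@Lb.fm (nat_lit 3) t1222)))))))))
noncomputable def l38580 : Lb := (@Lb.d (nat_lit 656) (nat_lit 166) (nat_lit 72) (@Lb.r r8 (@Lb.r r101 (@Lb.r r386 (@Lb.r r2395 (@Lb.g g7 (@Lb.g g6 (@Lb.d (nat_lit 0) (nat_lit 0) (nat_lit 65) (@Lb.fp (nat_lit 3) t109)))))))))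
noncomputable def l38581 : Lb := (@Lb.d (nat_lit 418) (nat_lit 577) (nat_lit 408) (@Lb.r r1412 (@Lb.r r427 (@Lb.r r353 (@Lb.r r1618 (@Lb.g g7 (@Lb.d (nat_lit 0) (nat_lit 16) (nat_lit 132) (@Lb.t (@Lb.fp (nat_lit 3) t3673)))))))))
noncomputable def l38582 : Lb := (@Lb.r r82 (@Lb.d (nat_lit 161) (nat_lit 258) (nat_lit 0) (@Lb.g g8 (@Lb.g g9 (@Lb.r r647 (@Lb.r r1113 (@Lb.r r614 (@Lb.r r424 (@Lb.d (nat_lit 518) (nat_lit 166) (nat_lit 404) (@Lb.fm (nat_lit 3) t4))))))))))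
noncomputable def l38583 : Lb := (@Lb.r r82 (@Lb.d (nat_lit 134) (nat_lit 256) (nat_lit 64) (@Lb.g g8 (@Lb.g g9 (@Lb.g g11 (@Lb.r r299 (@Lb.r r2137 (@Lb.r r98 (@Lb.r r292 (@Lb.d (nat_lit 421) (nat_lit 33) (nat_lit 340) (@Lb.t (@Lb.fm (nat_lit 9) t1169))))))))))))
noncomputable def l38584 : Lb := (@Lb.g g8 (@Lb.g g10 (@Lb.g g7 (@Lb.r r402 (@Lb.r r101 (@Lb.r r24 (@Lb.d (nat_lit 536) (nat_lit 9) (nat_lit 544) (@Lb.t (@Lb.fm (nat_lit 9) t145)))))))))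
noncomputable def l38585 : Lb := (@Lb.g g9 (@Lb.r r2315 (@Lb.r r2196 (@Lb.r r2646 (@Lb.r r409 (@Lb.d (nat_lit 665) (nat_lit 88) (nat_lit 2) (@Lb.t (@Lb.fp (nat_lit 3) t1456))))))))
noncomputable def l38586 : Lb := (@Lb.d (nat_lit 288) (nat_lit 8) (nat_lit 597) (@Lb.r r150 (@Lb.r r72 (@Lb.r r293 (@Lb.r r2395 (@Lb.g g7 (@Lb.g g6 (@Lb.g g5 (@Lb.d (nat_lit 16) (nat_lit 1) (nat_lit 65) (@Lb.t (@Lb.fm (nat_lit 9) t4356)))))))))))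
noncomputable def l38587 : Lb := (@Lb.r r322 (@Lb.d (nat_lit 37) (nat_lit 256) (nat_lit 576) (@Lb.g g8 (@Lb.g g9 (@Lb.g g7 (@Lb.r r1622 (@Lb.r r2337 (@Lb.r r1432 (@Lb.d (nat_lit 24) (nat_lit 130) (nat_lit 552) (@Lb.t (@Lb.fp (nat_lit 9) t242)))))))))))
noncomputable def l38588 : Lb := (@Lb.d (nat_lit 8) (nat_lit 258) (nat_lit 73) (@Lb.g g8 (@Lb.g g9 (@Lb.g g10 (@Lb.g g11 (@Lb.r r419 (@Lb.r r1188 (@Lb.r r1446 (@Lb.r r1425 (@Lb.d (nat_lit 298) (nat_lit 89) (nat_lit 356) (@Lb.fm (nat_lit 9) t3205)))))))))))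
noncomputable def l38589 : Lb := (@Lb.d (nat_lit 1) (nat_lit 36) (nat_lit 10) (@Lb.g g8 (@Lb.g g9 (@Lb.g g10 (@Lb.g g11 (@Lb.r r419 (@Lb.r r578 (@Lb.r r420 (@Lb.r r293 (@Lb.d (nat_lit 533) (nat_lit 144) (nat_lit 598) (@Lb.fm (nat_lit 9) t1343)))))))))))
noncomputable def l38590 : Lb := (@Lb.d (nat_lit 402) (nat_lit 577) (nat_lit 160) (@Lb.r r97 (@Lb.r r2454 (@Lb.g g11 (@Lb.g g6 (@Lb.g g8 (@Lb.d (nat_lit 354) (nat_lit 0) (nat_lit 512) (@Lb.r r25 (@Lb.t (@Lb.fp (nat_lit 9) t6748))))))))))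
noncomputable def l38591 : Lb := (@Lb.d (nat_lit 134) (nat_lit 512) (nat_lit 130) (@Lb.g g8 (@Lb.g g9 (@Lb.g g10 (@Lb.g g11 (@Lb.r r2666 (@Lb.r r612 (@Lb.r r1319 (@Lb.r r405 (@Lb.r r2084 (@Lb.d (nat_lit 616) (nat_lit 137) (nat_lit 169) (@Lb.fp (nat_lit 9) t163))))))))))))
noncomputable def l38592 : Lb := (@Lb.r r21 (@Lb.d (nat_lit 18) (nat_lit 512) (nat_lit 0) (@Lb.g g8 (@Lb.g g10 (@Lb.r r2471 (@Lb.r r1098 (@Lb.r r145 (@Lb.r r2408 (@Lb.d (nat_lit 166) (nat_lit 169) (nat_lit 577) (@Lb.fp (nat_lit 3) t6749))))))))))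
noncomputable def l38593 : Lb := (@Lb.r r21 (@Lb.r r323 (@Lb.d (nat_lit 2) (nat_lit 0) (nat_lit 2) (@Lb.g g8 (@Lb.g g10 (@Lb.r r586 (@Lb.r r579 (@Lb.r r1321 (@Lb.r r1288 (@Lb.d (nat_lit 146) (nat_lit 10) (nat_lit 162) (@Lb.fp (nat_lit 3) t6750)))))))))))
noncomputable def l38594 : Lb := (@Lb.d (nat_lit 4) (nat_lit 102) (nat_lit 33) (@Lb.r r20 (@Lb.r r1617 (@Lb.g g6 (@Lb.g g4 (@Lb.d (nat_lit 2) (nat_lit 0) (nat_lit 5) (@Lb.fm (nat_lit 3) t2930)))))))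
noncomputable def l38595 : Lb := (@Lb.r r21 (@Lb.r r331 (@Lb.d (nat_lit 1) (nat_lit 0) (nat_lit 2) (@Lb.g g8 (@Lb.g g10 (@Lb.r r390 (@Lb.r r2375 (@Lb.r r297 (@Lb.r r264 (@Lb.d (nat_lit 656) (nat_lit 0) (nat_lit 672) (@Lb.fp (nat_lit 3) t2304)))))))))))
noncomputable def l38596 : Lb := (@Lb.d (nat_lit 8) (nat_lit 514) (nat_lit 73) (@Lb.g g8 (@Lb.g g9 (@Lb.g g10 (@Lb.g g11 (@Lb.r r2667 (@Lb.r r1610 (@Lb.r r660 (@Lb.r r425 (@Lb.r r36 (@Lb.d (nat_lit 536) (nat_lit 168) (nat_lit 329) (@Lb.fp (nat_lit 9) t1371))))))))))))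
noncomputable def l38597 : Lb := (@Lb.d (nat_lit 5) (nat_lit 289) (nat_lit 69) (@Lb.r r289 (@Lb.r r279 (@Lb.r r584 (@Lb.r r102 (@Lb.g g6 (@Lb.r r387 (@Lb.t (@Lb.fm (nat_lit 3) t151)))))))))
noncomputable def l38598 : Lb := (@Lb.r r21 (@Lb.r r323 (@Lb.d (nat_lit 34) (nat_lit 0) (nat_lit 2) (@Lb.g g8 (@Lb.g g10 (@Lb.r r651 (@Lb.r r293 (@Lb.r r664 (@Lb.r r586 (@Lb.d (nat_lit 101) (nat_lit 22) (nat_lit 8) (@Lb.fp (nat_lit 3) t74)))))))))))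
noncomputable def l38599 : Lb := (@Lb.d (nat_lit 0) (nat_lit 256) (nat_lit 72) (@Lb.g g4 (@Lb.g g5 (@Lb.g g11 (@Lb.d (nat_lit 1) (nat_lit 0) (nat_lit 2) (@Lb.t (@Lb.fm (nat_lit 9) t2)))))))
noncomputable def l38600 : Lb := (@Lb.d (nat_lit 26) (nat_lit 264) (nat_lit 0) (@Lb.g g8 (@Lb.g g9 (@Lb.g g10 (@Lb.g g11 (@Lb.r r1707 (@Lb.r r618 (@Lb.r r36 (@Lb.r r37 (@Lb.d (nat_lit 101) (nat_lit 0) (nat_lit 297) (@Lb.fp (nat_lit 9) t1369)))))))))))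
noncomputable def l38601 : Lb := (@Lb.d (nat_lit 2) (nat_lit 2) (nat_lit 0) (@Lb.g g8 (@Lb.g g9 (@Lb.g g10 (@Lb.g g11 (@Lb.r r1707 (@Lb.r r618 (@Lb.r r25 (@Lb.d (nat_lit 2) (nat_lit 26) (nat_lit 354) (@Lb.fm (nat_lit 9) t5509))))))))))
noncomputable def l38602 : Lb := (@Lb.d (nat_lit 2) (nat_lit 514) (nat_lit 138) (@Lb.g g8 (@Lb.g g9 (@Lb.g g10 (@Lb.g g11 (@Lb.r r1707 (@Lb.r r618 (@Lb.r r25 (@Lb.d (nat_lit 2) (nat_lit 26) (nat_lit 297) (@Lb.fm (nat_lit 9) t591))))))))))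
noncomputable def l38603 : Lb := (@Lb.d (nat_lit 2) (nat_lit 258) (nat_lit 0) (@Lb.g g8 (@Lb.g g9 (@Lb.g g10 (@Lb.g g11 (@Lb.r r1707 (@Lb.r r618 (@Lb.r r25 (@Lb.d (nat_lit 2) (nat_lit 26) (nat_lit 297) (@Lb.fm (nat_lit 9) t591))))))))))
noncomputable def l38604 : Lb := (@Lb.d (nat_lit 1) (nat_lit 2) (nat_lit 73) (@Lb.g g8 (@Lb.g g9 (@Lb.g g10 (@Lb.g g11 (@Lb.r r427 (@Lb.r r356 (@Lb.r r154 (@Lb.r r1109 (@Lb.r r2212 (@Lb.d (nat_lit 548) (nat_lit 8) (nat_lit 137) (@Lb.fm (nat_lit 9) t3038))))))))))))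
noncomputable def l38605 : Lb := (@Lb.d (nat_lit 8) (nat_lit 0) (nat_lit 2) (@Lb.g g9 (@Lb.g g10 (@Lb.g g11 (@Lb.r r586 (@Lb.r r2647 (@Lb.r r2580 (@Lb.r r1385 (@Lb.d (nat_lit 289) (nat_lit 41) (nat_lit 22) (@Lb.t (@Lb.fm (nat_lit 9) t2701)))))))))))
noncomputable def l38606 : Lb := (@Lb.d (nat_lit 4) (nat_lit 1) (nat_lit 0) (@Lb.g g5 (@Lb.r r1319 (@Lb.r r24 (@Lb.d (nat_lit 577) (nat_lit 1) (nat_lit 512) (@Lb.t (@Lb.fp (nat_lit 3) t1168)))))))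
noncomputable def l38607 : Lb := (@Lb.d (nat_lit 24) (nat_lit 597) (nat_lit 274) (@Lb.r r1384 (@Lb.r r150 (@Lb.r r2409 (@Lb.g g11 (@Lb.g g5 (@Lb.g g4 (@Lb.d (nat_lit 22) (nat_lit 1) (nat_lit 384) (@Lb.r r578 (@Lb.t (@Lb.fp (nat_lit 9) t3866)))))))))))
noncomputable def l38608 : Lb := (@Lb.d (nat_lit 4) (nat_lit 513) (nat_lit 64) (@Lb.g g5 (@Lb.g g11 (@Lb.r r2587 (@Lb.r r24 (@Lb.d (nat_lit 130) (nat_lit 1) (nat_lit 320) (@Lb.fp (nat_lit 3) t1168)))))))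
noncomputable def l38609 : Lb := (@Lb.r r82 (@Lb.d (nat_lit 128) (nat_lit 514) (nat_lit 136) (@Lb.g g9 (@Lb.g g11 (@Lb.r r410 (@Lb.r r408 (@Lb.r r615 (@Lb.d (nat_lit 153) (nat_lit 24) (nat_lit 18) (@Lb.fp (nat_lit 3) t6751)))))))))
noncomputable def l38610 : Lb := (@Lb.r r21 (@Lb.r r263 (@Lb.d (nat_lit 513) (nat_lit 512) (nat_lit 2) (@Lb.g g4 (@Lb.g g10 (@Lb.r r267 (@Lb.r r150 (@Lb.r r97 (@Lb.d (nat_lit 266) (nat_lit 130) (nat_lit 0) (@Lb.fp (nat_lit 3) t1702))))))))))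
noncomputable def l38611 : Lb := (@Lb.r r322 (@Lb.d (nat_lit 128) (nat_lit 16) (nat_lit 640) (@Lb.g g7 (@Lb.r r421 (@Lb.r r98 (@Lb.r r8 (@Lb.d (nat_lit 512) (nat_lit 0) (nat_lit 96) (@Lb.t (@Lb.fm (nat_lit 3) t386)))))))))
noncomputable def l38612 : Lb := (@Lb.r r20 (@Lb.d (nat_lit 0) (nat_lit 101) (nat_lit 128) (@Lb.g g5 (@Lb.g g10 (@Lb.g g11 (@Lb.r r658 (@Lb.r r1419 (@Lb.r r1288 (@Lb.d (nat_lit 552) (nat_lit 0) (nat_lit 2) (@Lb.t (@Lb.fp (nat_lit 9) t512)))))))))))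
noncomputable def l38613 : Lb := (@Lb.d (nat_lit 257) (nat_lit 356) (nat_lit 70) (@Lb.r r355 (@Lb.r r1385 (@Lb.r r1060 (@Lb.g g7 (@Lb.g g6 (@Lb.g g5 (@Lb.d (nat_lit 68) (nat_lit 2) (nat_lit 96) (@Lb.t (@Lb.fm (nat_lit 9) t6752))))))))))
noncomputable def l38614 : Lb := (@Lb.r r68 (@Lb.d (nat_lit 0) (nat_lit 544) (nat_lit 128) (@Lb.g g10 (@Lb.g g11 (@Lb.r r353 (@Lb.r r2451 (@Lb.r r2084 (@Lb.d (nat_lit 2) (nat_lit 152) (nat_lit 665) (@Lb.fp (nat_lit 3) t765)))))))))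
noncomputable def l38615 : Lb := (@Lb.r r82 (@Lb.d (nat_lit 642) (nat_lit 2) (nat_lit 128) (@Lb.g g8 (@Lb.g g9 (@Lb.g g11 (@Lb.r r1323 (@Lb.r r153 (@Lb.r r146 (@Lb.d (nat_lit 265) (nat_lit 2) (nat_lit 410) (@Lb.t (@Lb.fp (nat_lit 9) t6520)))))))))))
noncomputable def l38616 : Lb := (@Lb.r r82 (@Lb.d (nat_lit 641) (nat_lit 2) (nat_lit 64) (@Lb.g g8 (@Lb.g g9 (@Lb.g g11 (@Lb.r r1323 (@Lb.r r153 (@Lb.r r146 (@Lb.d (nat_lit 264) (nat_lit 2) (nat_lit 410) (@Lb.t (@Lb.fp (nat_lit 9) t6753)))))))))))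
noncomputable def l38617 : Lb := (@Lb.d (nat_lit 0) (nat_lit 548) (nat_lit 129) (@Lb.r r402 (@Lb.g g9 (@Lb.g g4 (@Lb.fm (nat_lit 3) t1928)))))
noncomputable def l38618 : Lb := (@Lb.r r82 (@Lb.d (nat_lit 129) (nat_lit 2) (nat_lit 128) (@Lb.g g8 (@Lb.g g9 (@Lb.g g11 (@Lb.r r291 (@Lb.r r2438 (@Lb.r r2449 (@Lb.r r1636 (@Lb.d (nat_lit 642) (nat_lit 102) (nat_lit 356) (@Lb.t (@Lb.fp (nat_lit 9) t4715))))))))))))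
noncomputable def l38619 : Lb := (@Lb.d (nat_lit 2) (nat_lit 294) (nat_lit 64) (@Lb.g g8 (@Lb.g g9 (@Lb.g g10 (@Lb.g g11 (@Lb.r r427 (@Lb.r r420 (@Lb.r r102 (@Lb.r r132 (@Lb.d (nat_lit 40) (nat_lit 8) (nat_lit 17) (@Lb.fp (nat_lit 9) t3095)))))))))))
noncomputable def l38620 : Lb := (@Lb.d (nat_lit 0) (nat_lit 0) (nat_lit 74) (@Lb.g g4 (@Lb.g g10 (@Lb.g g11 (@Lb.r r387 (@Lb.d (nat_lit 5) (nat_lit 8) (nat_lit 8) (@Lb.t (@Lb.fp (nat_lit 9) t21))))))))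
noncomputable def l38621 : Lb := (@Lb.r r82 (@Lb.d (nat_lit 129) (nat_lit 514) (nat_lit 128) (@Lb.g g8 (@Lb.g g9 (@Lb.g g11 (@Lb.r r291 (@Lb.r r2438 (@Lb.r r2449 (@Lb.r r1636 (@Lb.d (nat_lit 644) (nat_lit 100) (nat_lit 356) (@Lb.t (@Lb.fp (nat_lit 9) t6754))))))))))))
noncomputable def l38622 : Lb := (@Lb.d (nat_lit 0) (nat_lit 38) (nat_lit 64) (@Lb.g g9 (@Lb.g g10 (@Lb.g g11 (@Lb.r r1699 (@Lb.r r1096 (@Lb.r r2438 (@Lb.r r1561 (@Lb.d (nat_lit 425) (nat_lit 137) (nat_lit 277) (@Lb.t (@Lb.fp (nat_lit 9) t3370)))))))))))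
noncomputable def l38623 : Lb := (@Lb.r r82 (@Lb.d (nat_lit 129) (nat_lit 514) (nat_lit 128) (@Lb.g g8 (@Lb.g g9 (@Lb.g g11 (@Lb.r r291 (@Lb.r r2438 (@Lb.r r2449 (@Lb.r r1636 (@Lb.d (nat_lit 642) (nat_lit 104) (nat_lit 357) (@Lb.t (@Lb.fp (nat_lit 9) t4771))))))))))))
noncomputable def l38624 : Lb := (@Lb.d (nat_lit 9) (nat_lit 549) (nat_lit 64) (@Lb.g g8 (@Lb.g g9 (@Lb.g g10 (@Lb.g g11 (@Lb.r r1543 (@Lb.r r1450 (@Lb.r r2088 (@Lb.r r2201 (@Lb.d (nat_lit 74) (nat_lit 106) (nat_lit 677) (@Lb.fm (nat_lit 9) t5878)))))))))))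
noncomputable def l38625 : Lb := (@Lb.d (nat_lit 0) (nat_lit 294) (nat_lit 64) (@Lb.g g9 (@Lb.g g10 (@Lb.g g11 (@Lb.r r1699 (@Lb.r r1096 (@Lb.r r2438 (@Lb.r r1561 (@Lb.d (nat_lit 420) (nat_lit 136) (nat_lit 277) (@Lb.t (@Lb.fp (nat_lit 9) t3370)))))))))))
noncomputable def l38626 : Lb := (@Lb.r r82 (@Lb.d (nat_lit 4) (nat_lit 0) (nat_lit 128) (@Lb.g g8 (@Lb.g g9 (@Lb.g g11 (@Lb.r r299 (@Lb.r r418 (@Lb.r r409 (@Lb.d (nat_lit 2) (nat_lit 24) (nat_lit 137) (@Lb.t (@Lb.fp (nat_lit 9) t50)))))))))))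
noncomputable def l38627 : Lb := (@Lb.d (nat_lit 0) (nat_lit 514) (nat_lit 130) (@Lb.g g8 (@Lb.g g9 (@Lb.g g10 (@Lb.g g11 (@Lb.r r1699 (@Lb.r r1160 (@Lb.r r1610 (@Lb.r r145 (@Lb.d (nat_lit 408) (nat_lit 130) (nat_lit 597) (@Lb.fp (nat_lit 9) t790)))))))))))
noncomputable def l38628 : Lb := (@Lb.d (nat_lit 104) (nat_lit 529) (nat_lit 73) (@Lb.r r613 (@Lb.r r276 (@Lb.r r338 (@Lb.r r683 (@Lb.g g7 (@Lb.g g6 (@Lb.g g5 (@Lb.d (nat_lit 0) (nat_lit 18) (nat_lit 72) (@Lb.t (@Lb.fp (nat_lit 9) t5003)))))))))))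
noncomputable def l38629 : Lb := (@Lb.d (nat_lit 0) (nat_lit 38) (nat_lit 64) (@Lb.g g8 (@Lb.g g9 (@Lb.g g10 (@Lb.g g11 (@Lb.r r1699 (@Lb.r r1192 (@Lb.r r1642 (@Lb.r r1633 (@Lb.d (nat_lit 600) (nat_lit 153) (nat_lit 324) (@Lb.fm (nat_lit 9) t3303)))))))))))
noncomputable def l38630 : Lb := (@Lb.d (nat_lit 9) (nat_lit 577) (nat_lit 0) (@Lb.r r289 (@Lb.r r535 (@Lb.r r328 (@Lb.r r326 (@Lb.g g7 (@Lb.g g6 (@Lb.g g5 (@Lb.d (nat_lit 0) (nat_lit 0) (nat_lit 134) (@Lb.t (@Lb.fm (nat_lit 9) t68)))))))))))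
noncomputable def l38631 : Lb := (@Lb.d (nat_lit 4) (nat_lit 321) (nat_lit 0) (@Lb.r r289 (@Lb.r r279 (@Lb.r r584 (@Lb.r r326 (@Lb.g g7 (@Lb.g g6 (@Lb.g g5 (@Lb.d (nat_lit 0) (nat_lit 0) (nat_lit 65) (@Lb.t (@Lb.fp (nat_lit 9) t68)))))))))))
noncomputable def l38632 : Lb := (@Lb.d (nat_lit 136) (nat_lit 1) (nat_lit 144) (@Lb.g g9 (@Lb.g g10 (@Lb.g g11 (@Lb.r r2068 (@Lb.r r1385 (@Lb.r r403 (@Lb.d (nat_lit 514) (nat_lit 152) (nat_lit 137) (@Lb.t (@Lb.fp (nat_lit 9) t322))))))))))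
noncomputable def l38633 : Lb := (@Lb.d (nat_lit 1) (nat_lit 649) (nat_lit 0) (@Lb.r r37 (@Lb.r r1304 (@Lb.r r2375 (@Lb.g g7 (@Lb.g g6 (@Lb.g g4 (@Lb.d (nat_lit 1) (nat_lit 0) (nat_lit 64) (@Lb.r r145 (@Lb.t (@Lb.fp (nat_lit 9) t2419)))))))))))
noncomputable def l38634 : Lb := (@Lb.r r21 (@Lb.d (nat_lit 146) (nat_lit 0) (nat_lit 64) (@Lb.g g8 (@Lb.g g10 (@Lb.g g11 (@Lb.r r2571 (@Lb.r r402 (@Lb.r r97 (@Lb.r r2084 (@Lb.d (nat_lit 641) (nat_lit 146) (nat_lit 522) (@Lb.t (@Lb.fp (nat_lit 9) t686))))))))))))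
noncomputable def l38635 : Lb := (@Lb.d (nat_lit 261) (nat_lit 678) (nat_lit 65) (@Lb.r r2069 (@Lb.r r2390 (@Lb.g g7 (@Lb.g g6 (@Lb.g g5 (@Lb.g g4 (@Lb.d (nat_lit 8) (nat_lit 1) (nat_lit 128) (@Lb.fp (nat_lit 9) t154)))))))))
noncomputable def l38636 : Lb := (@Lb.d (nat_lit 1) (nat_lit 2) (nat_lit 130) (@Lb.g g8 (@Lb.g g9 (@Lb.g g10 (@Lb.g g11 (@Lb.r r427 (@Lb.r r145 (@Lb.r r356 (@Lb.r r154 (@Lb.r r132 (@Lb.d (nat_lit 10) (nat_lit 2) (nat_lit 137) (@Lb.fm (nat_lit 9) t61))))))))))))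
noncomputable def l38637 : Lb := (@Lb.d (nat_lit 2) (nat_lit 514) (nat_lit 72) (@Lb.r r402 (@Lb.g g11 (@Lb.g g9 (@Lb.d (nat_lit 8) (nat_lit 9) (nat_lit 0) (@Lb.fp (nat_lit 3) t3411))))))
noncomputable def l38638 : Lb := (@Lb.d (nat_lit 2) (nat_lit 514) (nat_lit 72) (@Lb.r r402 (@Lb.g g9 (@Lb.d (nat_lit 8) (nat_lit 9) (nat_lit 0) (@Lb.t (@Lb.fm (nat_lit 3) t3411))))))
noncomputable def l38639 : Lb := (@Lb.r r82 (@Lb.d (nat_lit 1) (nat_lit 258) (nat_lit 128) (@Lb.g g8 (@Lb.g g9 (@Lb.g g11 (@Lb.r r1571 (@Lb.r r1192 (@Lb.r r1642 (@Lb.r r1633 (@Lb.d (nat_lit 613) (nat_lit 152) (nat_lit 356) (@Lb.t (@Lb.fp (nat_lit 9) t509))))))))))))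
noncomputable def l38640 : Lb := (@Lb.d (nat_lit 1) (nat_lit 548) (nat_lit 64) (@Lb.g g8 (@Lb.g g9 (@Lb.g g10 (@Lb.g g11 (@Lb.r r419 (@Lb.r r164 (@Lb.r r422 (@Lb.r r401 (@Lb.d (nat_lit 41) (nat_lit 20) (nat_lit 86) (@Lb.fm (nat_lit 9) t390)))))))))))
noncomputable def l38641 : Lb := (@Lb.d (nat_lit 5) (nat_lit 292) (nat_lit 64) (@Lb.g g8 (@Lb.g g9 (@Lb.g g10 (@Lb.g g11 (@Lb.r r427 (@Lb.r r610 (@Lb.r r292 (@Lb.r r2069 (@Lb.r r36 (@Lb.d (nat_lit 353) (nat_lit 21) (nat_lit 612) (@Lb.fp (nat_lit 9) t2896))))))))))))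
noncomputable def l38642 : Lb := (@Lb.d (nat_lit 0) (nat_lit 256) (nat_lit 66) (@Lb.g g6 (@Lb.g g11 (@Lb.r r33 (@Lb.r r36 (@Lb.d (nat_lit 0) (nat_lit 138) (nat_lit 65) (@Lb.fm (nat_lit 3) t21)))))))
noncomputable def l38643 : Lb := (@Lb.r r515 (@Lb.r r130 (@Lb.r r33 (@Lb.r r36 (@Lb.d (nat_lit 5) (nat_lit 641) (nat_lit 0) (@Lb.fm (nat_lit 1) t2))))))
noncomputable def l38644 : Lb := (@Lb.r r515 (@Lb.r r130 (@Lb.r r33 (@Lb.r r36 (@Lb.d (nat_lit 0) (nat_lit 128) (nat_lit 0) (@Lb.fm (nat_lit 1) t2))))))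
noncomputable def l38645 : Lb := (@Lb.r r21 (@Lb.d (nat_lit 130) (nat_lit 512) (nat_lit 130) (@Lb.g g8 (@Lb.g g10 (@Lb.g g11 (@Lb.r r419 (@Lb.r r132 (@Lb.r r2438 (@Lb.r r97 (@Lb.d (nat_lit 361) (nat_lit 26) (nat_lit 354) (@Lb.t (@Lb.fm (nat_lit 9) t523))))))))))))
noncomputable def l38646 : Lb := (@Lb.d (nat_lit 530) (nat_lit 389) (nat_lit 162) (@Lb.r r2182 (@Lb.r r2132 (@Lb.r r425 (@Lb.g g11 (@Lb.g g6 (@Lb.g g5 (@Lb.g g4 (@Lb.d (nat_lit 36) (nat_lit 33) (nat_lit 389) (@Lb.fm (nat_lit 9) t2383))))))))))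
noncomputable def l38647 : Lb := (@Lb.r r82 (@Lb.d (nat_lit 132) (nat_lit 0) (nat_lit 128) (@Lb.g g8 (@Lb.g g9 (@Lb.g g11 (@Lb.r r291 (@Lb.r r2438 (@Lb.r r2449 (@Lb.r r1636 (@Lb.d (nat_lit 642) (nat_lit 102) (nat_lit 425) (@Lb.t (@Lb.fp (nat_lit 9) t6755))))))))))))
noncomputable def l38648 : Lb := (@Lb.r r322 (@Lb.d (nat_lit 10) (nat_lit 528) (nat_lit 648) (@Lb.g g8 (@Lb.g g11 (@Lb.r r2438 (@Lb.r r149 (@Lb.r r1636 (@Lb.d (nat_lit 256) (nat_lit 88) (nat_lit 386) (@Lb.fp (nat_lit 3) t461)))))))))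
noncomputable def l38649 : Lb := (@Lb.d (nat_lit 530) (nat_lit 645) (nat_lit 162) (@Lb.r r2182 (@Lb.r r2132 (@Lb.r r425 (@Lb.g g11 (@Lb.g g6 (@Lb.g g5 (@Lb.g g4 (@Lb.d (nat_lit 36) (nat_lit 40) (nat_lit 388) (@Lb.fm (nat_lit 9) t2185))))))))))
noncomputable def l38650 : Lb := (@Lb.d (nat_lit 2) (nat_lit 258) (nat_lit 73) (@Lb.g g8 (@Lb.g g9 (@Lb.g g10 (@Lb.g g11 (@Lb.r r1559 (@Lb.r r1366 (@Lb.r r97 (@Lb.r r24 (@Lb.d (nat_lit 361) (nat_lit 9) (nat_lit 614) (@Lb.fm (nat_lit 9) t61)))))))))))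
noncomputable def l38651 : Lb := (@Lb.d (nat_lit 0) (nat_lit 342) (nat_lit 513) (@Lb.r r68 (@Lb.r r330 (@Lb.r r360 (@Lb.r r297 (@Lb.g g7 (@Lb.g g6 (@Lb.g g5 (@Lb.g g4 (@Lb.d (nat_lit 1) (nat_lit 1) (nat_lit 128) (@Lb.fp (nat_lit 9) t1989)))))))))))
noncomputable def l38652 : Lb := (@Lb.r r323 (@Lb.d (nat_lit 130) (nat_lit 514) (nat_lit 2) (@Lb.g g8 (@Lb.g g9 (@Lb.g g10 (@Lb.r r2473 (@Lb.r r1683 (@Lb.r r1610 (@Lb.r r72 (@Lb.d (nat_lit 336) (nat_lit 64) (nat_lit 89) (@Lb.t (@Lb.fp (nat_lit 9) t5212))))))))))))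
noncomputable def l38653 : Lb := (@Lb.d (nat_lit 32) (nat_lit 0) (nat_lit 1) (@Lb.g g9 (@Lb.g g10 (@Lb.r r515 (@Lb.r r1173 (@Lb.r r612 (@Lb.r r90 (@Lb.d (nat_lit 425) (nat_lit 22) (nat_lit 130) (@Lb.fp (nat_lit 3) t1988)))))))))
noncomputable def l38654 : Lb := (@Lb.d (nat_lit 133) (nat_lit 512) (nat_lit 130) (@Lb.g g8 (@Lb.g g9 (@Lb.g g10 (@Lb.g g11 (@Lb.r r683 (@Lb.r r2410 (@Lb.r r356 (@Lb.r r533 (@Lb.r r2084 (@Lb.d (nat_lit 649) (nat_lit 169) (nat_lit 673) (@Lb.fm (nat_lit 9) t6602))))))))))))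
noncomputable def l38655 : Lb := (@Lb.d (nat_lit 648) (nat_lit 84) (nat_lit 18) (@Lb.r r1301 (@Lb.r r1366 (@Lb.r r683 (@Lb.g g6 (@Lb.g g5 (@Lb.g g4 (@Lb.d (nat_lit 9) (nat_lit 5) (nat_lit 2) (@Lb.t (@Lb.fm (nat_lit 9) t5963))))))))))
noncomputable def l38656 : Lb := (@Lb.d (nat_lit 132) (nat_lit 0) (nat_lit 66) (@Lb.g g8 (@Lb.g g9 (@Lb.g g10 (@Lb.g g11 (@Lb.r r2666 (@Lb.r r612 (@Lb.r r1319 (@Lb.r r405 (@Lb.r r2084 (@Lb.d (nat_lit 610) (nat_lit 9) (nat_lit 169) (@Lb.fp (nat_lit 9) t5251))))))))))))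
noncomputable def l38657 : Lb := (@Lb.d (nat_lit 144) (nat_lit 514) (nat_lit 66) (@Lb.g g8 (@Lb.g g9 (@Lb.g g10 (@Lb.g g11 (@Lb.r r2435 (@Lb.r r2212 (@Lb.r r1446 (@Lb.r r145 (@Lb.d (nat_lit 68) (nat_lit 132) (nat_lit 152) (@Lb.fm (nat_lit 9) t3999)))))))))))
noncomputable def l38658 : Lb := (@Lb.d (nat_lit 5) (nat_lit 290) (nat_lit 129) (@Lb.r r1284 (@Lb.r r2587 (@Lb.r r676 (@Lb.r r89 (@Lb.g g6 (@Lb.d (nat_lit 16) (nat_lit 8) (nat_lit 1) (@Lb.r r387 (@Lb.t (@Lb.fp (nat_lit 3) t1751))))))))))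
noncomputable def l38659 : Lb := (@Lb.d (nat_lit 132) (nat_lit 256) (nat_lit 130) (@Lb.g g8 (@Lb.g g9 (@Lb.g g10 (@Lb.g g11 (@Lb.r r419 (@Lb.r r2154 (@Lb.r r2337 (@Lb.r r600 (@Lb.d (nat_lit 100) (nat_lit 165) (nat_lit 138) (@Lb.fp (nat_lit 9) t2296)))))))))))
noncomputable def l38660 : Lb := (@Lb.r r331 (@Lb.d (nat_lit 37) (nat_lit 266) (nat_lit 1) (@Lb.g g8 (@Lb.g g9 (@Lb.g g10 (@Lb.r r683 (@Lb.r r1186 (@Lb.r r341 (@Lb.r r1636 (@Lb.d (nat_lit 645) (nat_lit 154) (nat_lit 649) (@Lb.t (@Lb.fm (nat_lit 9) t5524))))))))))))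
noncomputable def l38661 : Lb := (@Lb.r r20 (@Lb.d (nat_lit 0) (nat_lit 609) (nat_lit 10) (@Lb.g g5 (@Lb.g g10 (@Lb.r r359 (@Lb.r r664 (@Lb.r r154 (@Lb.d (nat_lit 281) (nat_lit 88) (nat_lit 272) (@Lb.fp (nat_lit 3) t2258)))))))))
noncomputable def l38662 : Lb := (@Lb.r r326 (@Lb.d (nat_lit 34) (nat_lit 258) (nat_lit 576) (@Lb.g g8 (@Lb.g g9 (@Lb.g g7 (@Lb.r r1129 (@Lb.r r2454 (@Lb.r r596 (@Lb.d (nat_lit 145) (nat_lit 133) (nat_lit 5) (@Lb.t (@Lb.fp (nat_lit 9) t1871)))))))))))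
noncomputable def l38663 : Lb := (@Lb.d (nat_lit 96) (nat_lit 612) (nat_lit 145) (@Lb.r r1176 (@Lb.r r2394 (@Lb.r r2727 (@Lb.r r2709 (@Lb.g g5 (@Lb.g g4 (@Lb.d (nat_lit 65) (nat_lit 1) (nat_lit 0) (@Lb.fm (nat_lit 3) t894)))))))))
noncomputable def l38664 : Lb := (@Lb.r r283 (@Lb.d (nat_lit 130) (nat_lit 9) (nat_lit 1) (@Lb.g g8 (@Lb.g g9 (@Lb.g g10 (@Lb.r r1287 (@Lb.r r98 (@Lb.r r644 (@Lb.d (nat_lit 290) (nat_lit 9) (nat_lit 517) (@Lb.t (@Lb.fm (nat_lit 9) t4582)))))))))))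
noncomputable def l38665 : Lb := (@Lb.r r70 (@Lb.d (nat_lit 136) (nat_lit 257) (nat_lit 128) (@Lb.g g8 (@Lb.g g9 (@Lb.g g11 (@Lb.r r1561 (@Lb.r r2327 (@Lb.r r1674 (@Lb.r r2568 (@Lb.d (nat_lit 680) (nat_lit 68) (nat_lit 32) (@Lb.t (@Lb.fm (nat_lit 9) t3112))))))))))))
noncomputable def l38666 : Lb := (@Lb.d (nat_lit 9) (nat_lit 256) (nat_lit 0) (@Lb.g g8 (@Lb.r r2389 (@Lb.r r683 (@Lb.r r2178 (@Lb.r r1608 (@Lb.d (nat_lit 98) (nat_lit 136) (nat_lit 648) (@Lb.t (@Lb.fm (nat_lit 3) t2806)))))))))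
noncomputable def l38667 : Lb := (@Lb.r r82 (@Lb.d (nat_lit 1) (nat_lit 33) (nat_lit 64) (@Lb.g g8 (@Lb.g g9 (@Lb.g g11 (@Lb.r r2577 (@Lb.r r1559 (@Lb.r r386 (@Lb.r r2120 (@Lb.d (nat_lit 294) (nat_lit 37) (nat_lit 273) (@Lb.t (@Lb.fp (nat_lit 9) t4739))))))))))))
noncomputable def l38668 : Lb := (@Lb.d (nat_lit 2) (nat_lit 9) (nat_lit 1) (@Lb.g g8 (@Lb.g g9 (@Lb.g g10 (@Lb.g g11 (@Lb.r r1371 (@Lb.r r386 (@Lb.r r97 (@Lb.r r24 (@Lb.d (nat_lit 266) (nat_lit 6) (nat_lit 136) (@Lb.fm (nat_lit 9) t3510)))))))))))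
noncomputable def l38669 : Lb := (@Lb.d (nat_lit 129) (nat_lit 258) (nat_lit 258) (@Lb.g g8 (@Lb.g g9 (@Lb.g g10 (@Lb.g g7 (@Lb.r r426 (@Lb.r r1177 (@Lb.r r1172 (@Lb.d (nat_lit 292) (nat_lit 168) (nat_lit 546) (@Lb.fp (nat_lit 9) t58))))))))))
noncomputable def l38670 : Lb := (@Lb.d (nat_lit 0) (nat_lit 266) (nat_lit 129) (@Lb.g g9 (@Lb.g g10 (@Lb.g g11 (@Lb.r r2691 (@Lb.r r536 (@Lb.r r1637 (@Lb.r r1690 (@Lb.r r2180 (@Lb.d (nat_lit 682) (nat_lit 162) (nat_lit 602) (@Lb.t (@Lb.fm (nat_lit 9) t283))))))))))))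
noncomputable def l38671 : Lb := (@Lb.d (nat_lit 18) (nat_lit 530) (nat_lit 388) (@Lb.r r2393 (@Lb.r r2471 (@Lb.r r1382 (@Lb.r r152 (@Lb.g g7 (@Lb.g g5 (@Lb.d (nat_lit 68) (nat_lit 0) (nat_lit 128) (@Lb.fp (nat_lit 3) t3144)))))))))
noncomputable def l38672 : Lb := (@Lb.d (nat_lit 0) (nat_lit 522) (nat_lit 129) (@Lb.g g9 (@Lb.g g10 (@Lb.g g11 (@Lb.r r2691 (@Lb.r r536 (@Lb.r r1637 (@Lb.r r1690 (@Lb.r r2180 (@Lb.d (nat_lit 677) (nat_lit 161) (nat_lit 602) (@Lb.t (@Lb.fm (nat_lit 9) t283))))))))))))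
noncomputable def l38673 : Lb := (@Lb.d (nat_lit 389) (nat_lit 1) (nat_lit 288) (@Lb.r r24 (@Lb.r r101 (@Lb.g g4 (@Lb.t (@Lb.fm (nat_lit 3) t1174))))))
noncomputable def l38674 : Lb := (@Lb.d (nat_lit 18) (nat_lit 530) (nat_lit 516) (@Lb.r r2393 (@Lb.r r2471 (@Lb.r r1382 (@Lb.r r152 (@Lb.g g7 (@Lb.g g5 (@Lb.d (nat_lit 68) (nat_lit 5) (nat_lit 128) (@Lb.fp (nat_lit 3) t3144)))))))))
noncomputable def l38675 : Lb := (@Lb.d (nat_lit 8) (nat_lit 514) (nat_lit 0) (@Lb.g g9 (@Lb.r r20 (@Lb.r r105 (@Lb.d (nat_lit 2) (nat_lit 149) (nat_lit 265) (@Lb.t (@Lb.fm (nat_lit 3) t1174)))))))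
noncomputable def l38676 : Lb := (@Lb.d (nat_lit 388) (nat_lit 257) (nat_lit 288) (@Lb.r r24 (@Lb.r r101 (@Lb.g g4 (@Lb.t (@Lb.fm (nat_lit 3) t1174))))))
noncomputable def l38677 : Lb := (@Lb.d (nat_lit 401) (nat_lit 421) (nat_lit 105) (@Lb.r r8 (@Lb.r r657 (@Lb.r r595 (@Lb.g g6 (@Lb.g g5 (@Lb.d (nat_lit 0) (nat_lit 17) (nat_lit 33) (@Lb.r r387 (@Lb.fm (nat_lit 3) t1889)))))))))
noncomputable def l38678 : Lb := (@Lb.d (nat_lit 0) (nat_lit 10) (nat_lit 72) (@Lb.g g9 (@Lb.g g10 (@Lb.g g11 (@Lb.r r2691 (@Lb.r r536 (@Lb.r r1637 (@Lb.r r1690 (@Lb.r r2180 (@Lb.d (nat_lit 677) (nat_lit 161) (nat_lit 602) (@Lb.t (@Lb.fm (nat_lit 9) t283))))))))))))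
noncomputable def l38679 : Lb := (@Lb.d (nat_lit 100) (nat_lit 618) (nat_lit 168) (@Lb.r r2458 (@Lb.r r2133 (@Lb.r r1351 (@Lb.g g7 (@Lb.g g6 (@Lb.g g5 (@Lb.g g4 (@Lb.d (nat_lit 281) (nat_lit 6) (nat_lit 66) (@Lb.fm (nat_lit 9) t5087))))))))))
noncomputable def l38680 : Lb := (@Lb.d (nat_lit 32) (nat_lit 4) (nat_lit 42) (@Lb.g g10 (@Lb.r r2648 (@Lb.r r2315 (@Lb.r r289 (@Lb.d (nat_lit 2) (nat_lit 66) (nat_lit 578) (@Lb.t (@Lb.fp (nat_lit 3) t1190))))))))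
noncomputable def l38681 : Lb := (@Lb.d (nat_lit 2) (nat_lit 294) (nat_lit 74) (@Lb.g g8 (@Lb.g g9 (@Lb.g g10 (@Lb.g g11 (@Lb.r r1706 (@Lb.r r1688 (@Lb.r r1563 (@Lb.r r1561 (@Lb.d (nat_lit 9) (nat_lit 82) (nat_lit 586) (@Lb.fm (nat_lit 9) t125)))))))))))
noncomputable def l38682 : Lb := (@Lb.g g6 (@Lb.g g11 (@Lb.r r2626 (@Lb.d (nat_lit 0) (nat_lit 256) (nat_lit 256) (@Lb.fp (nat_lit 3) t2)))))
noncomputable def l38683 : Lb := (@Lb.d (nat_lit 0) (nat_lit 522) (nat_lit 169) (@Lb.r r1346 (@Lb.r r387 (@Lb.g g11 (@Lb.g g6 (@Lb.fp (nat_lit 3) t371))))))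
noncomputable def l38684 : Lb := (@Lb.d (nat_lit 294) (nat_lit 613) (nat_lit 613) (@Lb.r r2133 (@Lb.r r323 (@Lb.r r682 (@Lb.g g7 (@Lb.g g6 (@Lb.g g5 (@Lb.g g4 (@Lb.d (nat_lit 1) (nat_lit 24) (nat_lit 64) (@Lb.fm (nat_lit 9) t6756))))))))))
noncomputable def l38685 : Lb := (@Lb.g g11 (@Lb.r r2434 (@Lb.r r2371 (@Lb.d (nat_lit 0) (nat_lit 162) (nat_lit 161) (@Lb.t (@Lb.fm (nat_lit 3) t373))))))
noncomputable def l38686 : Lb := (@Lb.d (nat_lit 0) (nat_lit 33) (nat_lit 66) (@Lb.g g9 (@Lb.g g10 (@Lb.g g11 (@Lb.r r1699 (@Lb.r r1642 (@Lb.r r1640 (@Lb.r r1561 (@Lb.d (nat_lit 581) (nat_lit 18) (nat_lit 645) (@Lb.t (@Lb.fm (nat_lit 9) t1511)))))))))))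
noncomputable def l38687 : Lb := (@Lb.d (nat_lit 577) (nat_lit 530) (nat_lit 134) (@Lb.r r2465 (@Lb.r r595 (@Lb.r r2470 (@Lb.g g6 (@Lb.g g5 (@Lb.g g8 (@Lb.d (nat_lit 322) (nat_lit 17) (nat_lit 1) (@Lb.t (@Lb.fp (nat_lit 9) t1719))))))))))
noncomputable def l38688 : Lb := (@Lb.d (nat_lit 65) (nat_lit 101) (nat_lit 136) (@Lb.r r97 (@Lb.r r386 (@Lb.r r343 (@Lb.g g7 (@Lb.g g6 (@Lb.g g5 (@Lb.g g4 (@Lb.d (nat_lit 1) (nat_lit 1) (nat_lit 65) (@Lb.fp (nat_lit 9) t128))))))))))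
noncomputable def l38689 : Lb := (@Lb.d (nat_lit 2) (nat_lit 258) (nat_lit 73) (@Lb.g g8 (@Lb.g g9 (@Lb.g g10 (@Lb.g g11 (@Lb.r r2705 (@Lb.r r535 (@Lb.r r2440 (@Lb.r r2122 (@Lb.d (nat_lit 289) (nat_lit 10) (nat_lit 129) (@Lb.fp (nat_lit 9) t756)))))))))))
noncomputable def l38690 : Lb := (@Lb.g g7 (@Lb.r r1414 (@Lb.r r149 (@Lb.r r2120 (@Lb.d (nat_lit 256) (nat_lit 512) (nat_lit 576) (@Lb.t (@Lb.fm (nat_lit 3) t145)))))))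
noncomputable def l38691 : Lb := (@Lb.d (nat_lit 2) (nat_lit 258) (nat_lit 73) (@Lb.g g8 (@Lb.g g9 (@Lb.g g10 (@Lb.g g11 (@Lb.r r660 (@Lb.r r614 (@Lb.r r1637 (@Lb.r r1383 (@Lb.r r2692 (@Lb.d (nat_lit 10) (nat_lit 129) (nat_lit 74) (@Lb.fm (nat_lit 9) t2))))))))))))
noncomputable def l38692 : Lb := (@Lb.g g7 (@Lb.r r1414 (@Lb.r r149 (@Lb.r r2120 (@Lb.d (nat_lit 256) (nat_lit 261) (nat_lit 577) (@Lb.t (@Lb.fm (nat_lit 3) t145)))))))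
noncomputable def l38693 : Lb := (@Lb.d (nat_lit 2) (nat_lit 290) (nat_lit 2) (@Lb.g g8 (@Lb.g g9 (@Lb.g g10 (@Lb.r r275 (@Lb.r r1194 (@Lb.r r2593 (@Lb.r r2436 (@Lb.d (nat_lit 106) (nat_lit 144) (nat_lit 90) (@Lb.t (@Lb.fm (nat_lit 9) t994)))))))))))
noncomputable def l38694 : Lb := (@Lb.d (nat_lit 294) (nat_lit 618) (nat_lit 614) (@Lb.r r2133 (@Lb.r r323 (@Lb.r r682 (@Lb.g g7 (@Lb.g g6 (@Lb.g g5 (@Lb.g g4 (@Lb.d (nat_lit 2) (nat_lit 17) (nat_lit 65) (@Lb.fm (nat_lit 9) t1769))))))))))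
noncomputable def l38695 : Lb := (@Lb.d (nat_lit 8) (nat_lit 260) (nat_lit 74) (@Lb.g g9 (@Lb.g g10 (@Lb.g g11 (@Lb.r r611 (@Lb.r r1610 (@Lb.r r2644 (@Lb.r r1321 (@Lb.d (nat_lit 258) (nat_lit 90) (nat_lit 578) (@Lb.t (@Lb.fm (nat_lit 9) t261)))))))))))
noncomputable def l38696 : Lb := (@Lb.d (nat_lit 0) (nat_lit 512) (nat_lit 104) (@Lb.g g6 (@Lb.g g11 (@Lb.r r579 (@Lb.d (nat_lit 0) (nat_lit 0) (nat_lit 16) (@Lb.fm (nat_lit 3) t2))))))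
noncomputable def l38697 : Lb := (@Lb.d (nat_lit 8) (nat_lit 514) (nat_lit 73) (@Lb.g g9 (@Lb.g g10 (@Lb.g g11 (@Lb.r r2726 (@Lb.r r328 (@Lb.r r535 (@Lb.r r289 (@Lb.d (nat_lit 645) (nat_lit 26) (nat_lit 66) (@Lb.t (@Lb.fm (nat_lit 9) t259)))))))))))
noncomputable def l38698 : Lb := (@Lb.r r82 (@Lb.d (nat_lit 8) (nat_lit 166) (nat_lit 0) (@Lb.g g9 (@Lb.r r595 (@Lb.r r98 (@Lb.d (nat_lit 2) (nat_lit 97) (nat_lit 160) (@Lb.t (@Lb.fm (nat_lit 3) t5))))))))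
noncomputable def l38699 : Lb := (@Lb.d (nat_lit 0) (nat_lit 514) (nat_lit 130) (@Lb.g g9 (@Lb.g g10 (@Lb.g g11 (@Lb.r r2722 (@Lb.r r1432 (@Lb.r r2725 (@Lb.r r2599 (@Lb.d (nat_lit 5) (nat_lit 152) (nat_lit 649) (@Lb.t (@Lb.fm (nat_lit 9) t259)))))))))))
noncomputable def l38700 : Lb := (@Lb.d (nat_lit 0) (nat_lit 24) (nat_lit 1) (@Lb.g g9 (@Lb.g g10 (@Lb.g g11 (@Lb.r r419 (@Lb.r r1702 (@Lb.r r600 (@Lb.r r293 (@Lb.d (nat_lit 521) (nat_lit 98) (nat_lit 320) (@Lb.t (@Lb.fp (nat_lit 9) t827)))))))))))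
noncomputable def l38701 : Lb := (@Lb.d (nat_lit 0) (nat_lit 10) (nat_lit 0) (@Lb.g g9 (@Lb.g g7 (@Lb.r r402 (@Lb.d (nat_lit 0) (nat_lit 80) (nat_lit 648) (@Lb.fm (nat_lit 3) t4748))))))
noncomputable def l38702 : Lb := (@Lb.d (nat_lit 0) (nat_lit 514) (nat_lit 2) (@Lb.g g9 (@Lb.g g10 (@Lb.g g7 (@Lb.r r161 (@Lb.r r418 (@Lb.r r2193 (@Lb.d (nat_lit 0) (nat_lit 137) (nat_lit 597) (@Lb.t (@Lb.fp (nat_lit 9) t5860))))))))))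
noncomputable def l38703 : Lb := (@Lb.d (nat_lit 0) (nat_lit 266) (nat_lit 0) (@Lb.g g9 (@Lb.g g7 (@Lb.r r402 (@Lb.d (nat_lit 0) (nat_lit 80) (nat_lit 582) (@Lb.fm (nat_lit 3) t4748))))))
noncomputable def l38704 : Lb := (@Lb.r r323 (@Lb.d (nat_lit 0) (nat_lit 0) (nat_lit 1) (@Lb.g g8 (@Lb.g g6 (@Lb.r r579 (@Lb.r r149 (@Lb.r r2120 (@Lb.d (nat_lit 512) (nat_lit 0) (nat_lit 38) (@Lb.fp (nat_lit 3) t40)))))))))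
noncomputable def l38705 : Lb := (@Lb.d (nat_lit 0) (nat_lit 256) (nat_lit 130) (@Lb.g g8 (@Lb.g g10 (@Lb.g g11 (@Lb.r r1435 (@Lb.r r1432 (@Lb.r r1098 (@Lb.r r1633 (@Lb.d (nat_lit 545) (nat_lit 133) (nat_lit 2) (@Lb.t (@Lb.fm (nat_lit 9) t4971)))))))))))
noncomputable def l38706 : Lb := (@Lb.d (nat_lit 0) (nat_lit 513) (nat_lit 66) (@Lb.g g8 (@Lb.g g9 (@Lb.g g10 (@Lb.g g7 (@Lb.r r386 (@Lb.r r105 (@Lb.r r2120 (@Lb.d (nat_lit 261) (nat_lit 65) (nat_lit 41) (@Lb.fp (nat_lit 9) t40))))))))))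
noncomputable def l38707 : Lb := (@Lb.d (nat_lit 289) (nat_lit 2) (nat_lit 0) (@Lb.g g4 (@Lb.g g9 (@Lb.g g11 (@Lb.r r593 (@Lb.r r339 (@Lb.r r2178 (@Lb.r r1553 (@Lb.d (nat_lit 288) (nat_lit 0) (nat_lit 514) (@Lb.t (@Lb.fm (nat_lit 9) t2551)))))))))))
noncomputable def l38708 : Lb := (@Lb.d (nat_lit 34) (nat_lit 522) (nat_lit 0) (@Lb.g g8 (@Lb.g g9 (@Lb.g g11 (@Lb.r r2134 (@Lb.r r1448 (@Lb.r r279 (@Lb.r r545 (@Lb.d (nat_lit 2) (nat_lit 169) (nat_lit 602) (@Lb.t (@Lb.fm (nat_lit 9) t479)))))))))))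
noncomputable def l38709 : Lb := (@Lb.d (nat_lit 280) (nat_lit 129) (nat_lit 102) (@Lb.r r1158 (@Lb.r r2372 (@Lb.r r667 (@Lb.g g7 (@Lb.g g6 (@Lb.g g9 (@Lb.g g4 (@Lb.d (nat_lit 1) (nat_lit 146) (nat_lit 129) (@Lb.fm (nat_lit 9) t216))))))))))
noncomputable def l38710 : Lb := (@Lb.r r21 (@Lb.r r323 (@Lb.d (nat_lit 2) (nat_lit 512) (nat_lit 1) (@Lb.g g8 (@Lb.g g6 (@Lb.r r579 (@Lb.r r149 (@Lb.r r1060 (@Lb.d (nat_lit 36) (nat_lit 6) (nat_lit 22) (@Lb.fm (nat_lit 3) t40))))))))))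
noncomputable def l38711 : Lb := (@Lb.r r1617 (@Lb.r r354 (@Lb.r r1427 (@Lb.r r1096 (@Lb.d (nat_lit 0) (nat_lit 408) (nat_lit 41) (@Lb.fm (nat_lit 1) t932))))))
noncomputable def l38712 : Lb := (@Lb.d (nat_lit 101) (nat_lit 168) (nat_lit 278) (@Lb.r r597 (@Lb.r r1386 (@Lb.r r1096 (@Lb.r r1371 (@Lb.g g7 (@Lb.g g6 (@Lb.g g5 (@Lb.d (nat_lit 4) (nat_lit 1) (nat_lit 64) (@Lb.t (@Lb.fm (nat_lit 9) t247)))))))))))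
noncomputable def l38713 : Lb := (@Lb.d (nat_lit 128) (nat_lit 256) (nat_lit 128) (@Lb.g g7 (@Lb.r r24 (@Lb.r r2645 (@Lb.r r2410 (@Lb.r r2455 (@Lb.d (nat_lit 409) (nat_lit 133) (nat_lit 69) (@Lb.t (@Lb.fp (nat_lit 3) t246)))))))))
noncomputable def l38714 : Lb := (@Lb.g g4 (@Lb.r r289 (@Lb.r r535 (@Lb.r r356 (@Lb.r r154 (@Lb.d (nat_lit 5) (nat_lit 512) (nat_lit 0) (@Lb.t (@Lb.fp (nat_lit 3) t285))))))))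
noncomputable def l38715 : Lb := (@Lb.d (nat_lit 134) (nat_lit 320) (nat_lit 130) (@Lb.g g8 (@Lb.g g9 (@Lb.g g10 (@Lb.g g11 (@Lb.r r2475 (@Lb.r r1130 (@Lb.r r2084 (@Lb.d (nat_lit 296) (nat_lit 2) (nat_lit 409) (@Lb.fp (nat_lit 9) t2493))))))))))
noncomputable def l38716 : Lb := (@Lb.g g4 (@Lb.r r2599 (@Lb.r r81 (@Lb.r r162 (@Lb.r r145 (@Lb.r r1444 (@Lb.d (nat_lit 149) (nat_lit 409) (nat_lit 594) (@Lb.t (@Lb.fm (nat_lit 3) t4461)))))))))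
noncomputable def l38717 : Lb := (@Lb.d (nat_lit 2) (nat_lit 38) (nat_lit 0) (@Lb.g g8 (@Lb.g g9 (@Lb.r r2571 (@Lb.r r2724 (@Lb.r r134 (@Lb.d (nat_lit 577) (nat_lit 153) (nat_lit 10) (@Lb.fm (nat_lit 3) t6757))))))))
noncomputable def l38718 : Lb := (@Lb.r r2343 (@Lb.r r584 (@Lb.r r86 (@Lb.r r2201 (@Lb.r r132 (@Lb.d (nat_lit 278) (nat_lit 648) (nat_lit 37) (@Lb.fm (nat_lit 1) t6459)))))))
noncomputable def l38719 : Lb := (@Lb.d (nat_lit 4) (nat_lit 32) (nat_lit 130) (@Lb.g g8 (@Lb.g g9 (@Lb.g g10 (@Lb.g g11 (@Lb.r r1642 (@Lb.r r612 (@Lb.r r679 (@Lb.r r597 (@Lb.r r1060 (@Lb.d (nat_lit 408) (nat_lit 9) (nat_lit 612) (@Lb.fm (nat_lit 9) t1152))))))))))))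
noncomputable def l38720 : Lb := (@Lb.d (nat_lit 0) (nat_lit 4) (nat_lit 664) (@Lb.r r20 (@Lb.r r82 (@Lb.r r595 (@Lb.g g6 (@Lb.g g5 (@Lb.d (nat_lit 0) (nat_lit 17) (nat_lit 1) (@Lb.fp (nat_lit 3) t6020))))))))
noncomputable def l38721 : Lb := (@Lb.r r20 (@Lb.d (nat_lit 32) (nat_lit 292) (nat_lit 64) (@Lb.g g9 (@Lb.g g10 (@Lb.g g11 (@Lb.r r419 (@Lb.r r88 (@Lb.r r422 (@Lb.d (nat_lit 89) (nat_lit 37) (nat_lit 153) (@Lb.t (@Lb.fm (nat_lit 9) t390)))))))))))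
noncomputable def l38722 : Lb := (@Lb.r r21 (@Lb.r r70 (@Lb.d (nat_lit 409) (nat_lit 0) (nat_lit 0) (@Lb.g g4 (@Lb.r r299 (@Lb.r r402 (@Lb.r r97 (@Lb.d (nat_lit 1) (nat_lit 2) (nat_lit 544) (@Lb.t (@Lb.fm (nat_lit 3) t6758))))))))))
noncomputable def l38723 : Lb := (@Lb.d (nat_lit 4) (nat_lit 257) (nat_lit 73) (@Lb.g g8 (@Lb.g g9 (@Lb.g g10 (@Lb.g g11 (@Lb.r r423 (@Lb.r r1188 (@Lb.r r1638 (@Lb.r r1617 (@Lb.d (nat_lit 297) (nat_lit 101) (nat_lit 665) (@Lb.fp (nat_lit 9) t1242)))))))))))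
noncomputable def l38724 : Lb := (@Lb.r r20 (@Lb.d (nat_lit 32) (nat_lit 320) (nat_lit 73) (@Lb.g g9 (@Lb.g g10 (@Lb.g g11 (@Lb.r r2467 (@Lb.r r88 (@Lb.r r422 (@Lb.d (nat_lit 345) (nat_lit 37) (nat_lit 2) (@Lb.t (@Lb.fm (nat_lit 9) t1242)))))))))))
noncomputable def l38725 : Lb := (@Lb.r r21 (@Lb.d (nat_lit 8) (nat_lit 8) (nat_lit 73) (@Lb.g g8 (@Lb.g g10 (@Lb.g g11 (@Lb.r r427 (@Lb.r r533 (@Lb.r r360 (@Lb.r r150 (@Lb.d (nat_lit 32) (nat_lit 90) (nat_lit 265) (@Lb.t (@Lb.fm (nat_lit 9) t51))))))))))))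
noncomputable def l38726 : Lb := (@Lb.d (nat_lit 10) (nat_lit 0) (nat_lit 0) (@Lb.g g8 (@Lb.r r277 (@Lb.r r2603 (@Lb.r r2178 (@Lb.r r2596 (@Lb.d (nat_lit 394) (nat_lit 82) (nat_lit 384) (@Lb.t (@Lb.fp (nat_lit 3) t414)))))))))
noncomputable def l38727 : Lb := (@Lb.d (nat_lit 129) (nat_lit 258) (nat_lit 130) (@Lb.g g8 (@Lb.g g9 (@Lb.g g10 (@Lb.g g11 (@Lb.r r1706 (@Lb.r r1411 (@Lb.r r2212 (@Lb.r r37 (@Lb.d (nat_lit 610) (nat_lit 138) (nat_lit 169) (@Lb.fp (nat_lit 9) t1039)))))))))))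
noncomputable def l38728 : Lb := (@Lb.d (nat_lit 168) (nat_lit 585) (nat_lit 406) (@Lb.r r1192 (@Lb.r r89 (@Lb.r r386 (@Lb.g g11 (@Lb.g g6 (@Lb.g g4 (@Lb.d (nat_lit 5) (nat_lit 0) (nat_lit 321) (@Lb.r r529 (@Lb.t (@Lb.fm (nat_lit 9) t405)))))))))))
noncomputable def l38729 : Lb := (@Lb.d (nat_lit 680) (nat_lit 265) (nat_lit 262) (@Lb.r r168 (@Lb.r r89 (@Lb.r r386 (@Lb.g g11 (@Lb.g g6 (@Lb.g g4 (@Lb.d (nat_lit 5) (nat_lit 0) (nat_lit 129) (@Lb.t (@Lb.fm (nat_lit 9) t2170))))))))))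
noncomputable def l38730 : Lb := (@Lb.d (nat_lit 4) (nat_lit 513) (nat_lit 130) (@Lb.g g5 (@Lb.g g10 (@Lb.g g11 (@Lb.r r1691 (@Lb.r r1178 (@Lb.r r24 (@Lb.d (nat_lit 273) (nat_lit 6) (nat_lit 18) (@Lb.t (@Lb.fm (nat_lit 9) t1046))))))))))
noncomputable def l38731 : Lb := (@Lb.d (nat_lit 34) (nat_lit 18) (nat_lit 0) (@Lb.g g8 (@Lb.g g9 (@Lb.r r1379 (@Lb.r r582 (@Lb.r r2180 (@Lb.d (nat_lit 608) (nat_lit 2) (nat_lit 274) (@Lb.fm (nat_lit 3) t2902))))))))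
noncomputable def l38732 : Lb := (@Lb.d (nat_lit 33) (nat_lit 0) (nat_lit 16) (@Lb.r r2118 (@Lb.g g8 (@Lb.t (@Lb.fp (nat_lit 3) t2314)))))
noncomputable def l38733 : Lb := (@Lb.d (nat_lit 258) (nat_lit 69) (nat_lit 422) (@Lb.r r2068 (@Lb.r r1049 (@Lb.r r148 (@Lb.r r2434 (@Lb.g g11 (@Lb.g g6 (@Lb.g g5 (@Lb.g g4 (@Lb.d (nat_lit 32) (nat_lit 1) (nat_lit 128) (@Lb.fp (nat_lit 9) t1155)))))))))))
noncomputable def l38734 : Lb := (@Lb.d (nat_lit 258) (nat_lit 325) (nat_lit 294) (@Lb.r r2068 (@Lb.r r1049 (@Lb.r r148 (@Lb.r r2434 (@Lb.g g11 (@Lb.g g6 (@Lb.g g5 (@Lb.g g4 (@Lb.d (nat_lit 32) (nat_lit 1) (nat_lit 5) (@Lb.fp (nat_lit 9) t1155)))))))))))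
noncomputable def l38735 : Lb := (@Lb.d (nat_lit 0) (nat_lit 261) (nat_lit 74) (@Lb.g g5 (@Lb.g g10 (@Lb.g g11 (@Lb.r r1691 (@Lb.r r1610 (@Lb.r r24 (@Lb.d (nat_lit 149) (nat_lit 161) (nat_lit 664) (@Lb.t (@Lb.fp (nat_lit 9) t1778))))))))))
noncomputable def l38736 : Lb := (@Lb.d (nat_lit 32) (nat_lit 260) (nat_lit 128) (@Lb.g g9 (@Lb.g g10 (@Lb.g g11 (@Lb.r r2709 (@Lb.r r1380 (@Lb.r r2715 (@Lb.r r2634 (@Lb.d (nat_lit 354) (nat_lit 10) (nat_lit 257) (@Lb.t (@Lb.fp (nat_lit 9) t1298)))))))))))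
noncomputable def l38737 : Lb := (@Lb.d (nat_lit 4) (nat_lit 514) (nat_lit 130) (@Lb.g g9 (@Lb.g g10 (@Lb.g g11 (@Lb.r r1451 (@Lb.r r1130 (@Lb.r r8 (@Lb.d (nat_lit 293) (nat_lit 73) (nat_lit 169) (@Lb.t (@Lb.fp (nat_lit 9) t3230))))))))))
noncomputable def l38738 : Lb := (@Lb.d (nat_lit 609) (nat_lit 337) (nat_lit 597) (@Lb.r r674 (@Lb.r r1425 (@Lb.g g11 (@Lb.g g6 (@Lb.g g4 (@Lb.d (nat_lit 1) (nat_lit 4) (nat_lit 129) (@Lb.t (@Lb.fp (nat_lit 9) t1242)))))))))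
noncomputable def l38739 : Lb := (@Lb.d (nat_lit 34) (nat_lit 514) (nat_lit 64) (@Lb.g g8 (@Lb.g g9 (@Lb.g g11 (@Lb.r r529 (@Lb.r r2707 (@Lb.r r582 (@Lb.r r2180 (@Lb.d (nat_lit 612) (nat_lit 1) (nat_lit 274) (@Lb.t (@Lb.fp (nat_lit 9) t2902)))))))))))
noncomputable def l38740 : Lb := (@Lb.r r323 (@Lb.d (nat_lit 2) (nat_lit 290) (nat_lit 2) (@Lb.g g8 (@Lb.g g9 (@Lb.g g10 (@Lb.r r599 (@Lb.r r420 (@Lb.r r102 (@Lb.d (nat_lit 36) (nat_lit 137) (nat_lit 18) (@Lb.t (@Lb.fp (nat_lit 9) t5263)))))))))))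
noncomputable def l38741 : Lb := (@Lb.d (nat_lit 21) (nat_lit 266) (nat_lit 1) (@Lb.r r165 (@Lb.r r166 (@Lb.r r344 (@Lb.r r295 (@Lb.g g6 (@Lb.g g5 (@Lb.d (nat_lit 4) (nat_lit 17) (nat_lit 1) (@Lb.r r387 (@Lb.fp (nat_lit 3) t2))))))))))
noncomputable def l38742 : Lb := (@Lb.d (nat_lit 146) (nat_lit 258) (nat_lit 128) (@Lb.g g8 (@Lb.g g9 (@Lb.g g10 (@Lb.g g11 (@Lb.r r1675 (@Lb.r r164 (@Lb.r r1445 (@Lb.r r1126 (@Lb.r r132 (@Lb.d (nat_lit 9) (nat_lit 161) (nat_lit 362) (@Lb.fp (nat_lit 9) t1751))))))))))))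
noncomputable def l38743 : Lb := (@Lb.d (nat_lit 134) (nat_lit 320) (nat_lit 130) (@Lb.g g8 (@Lb.g g9 (@Lb.g g10 (@Lb.g g11 (@Lb.r r2475 (@Lb.r r1130 (@Lb.r r2084 (@Lb.d (nat_lit 296) (nat_lit 65) (nat_lit 409) (@Lb.fp (nat_lit 9) t2493))))))))))
noncomputable def l38744 : Lb := (@Lb.d (nat_lit 168) (nat_lit 329) (nat_lit 278) (@Lb.r r2120 (@Lb.r r2153 (@Lb.r r386 (@Lb.g g11 (@Lb.g g6 (@Lb.g g5 (@Lb.d (nat_lit 0) (nat_lit 1) (nat_lit 129) (@Lb.t (@Lb.fp (nat_lit 9) t2389))))))))))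
noncomputable def l38745 : Lb := (@Lb.d (nat_lit 0) (nat_lit 38) (nat_lit 0) (@Lb.g g9 (@Lb.r r2651 (@Lb.r r1414 (@Lb.r r2564 (@Lb.d (nat_lit 280) (nat_lit 153) (nat_lit 256) (@Lb.t (@Lb.fp (nat_lit 3) t4354))))))))
noncomputable def l38746 : Lb := (@Lb.d (nat_lit 134) (nat_lit 576) (nat_lit 66) (@Lb.g g8 (@Lb.g g9 (@Lb.g g10 (@Lb.g g11 (@Lb.r r2475 (@Lb.r r1130 (@Lb.r r2084 (@Lb.d (nat_lit 296) (nat_lit 2) (nat_lit 409) (@Lb.fp (nat_lit 9) t2493))))))))))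
noncomputable def l38747 : Lb := (@Lb.r r70 (@Lb.d (nat_lit 41) (nat_lit 265) (nat_lit 128) (@Lb.g g8 (@Lb.g g9 (@Lb.g g11 (@Lb.r r2450 (@Lb.r r2407 (@Lb.r r1381 (@Lb.r r2692 (@Lb.d (nat_lit 681) (nat_lit 1) (nat_lit 421) (@Lb.t (@Lb.fm (nat_lit 9) t156))))))))))))
noncomputable def l38748 : Lb := (@Lb.r r70 (@Lb.d (nat_lit 42) (nat_lit 521) (nat_lit 128) (@Lb.g g8 (@Lb.g g9 (@Lb.g g11 (@Lb.r r2450 (@Lb.r r2407 (@Lb.r r1381 (@Lb.r r2692 (@Lb.d (nat_lit 681) (nat_lit 1) (nat_lit 298) (@Lb.t (@Lb.fm (nat_lit 9) t429))))))))))))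
noncomputable def l38749 : Lb := (@Lb.d (nat_lit 536) (nat_lit 514) (nat_lit 257) (@Lb.r r68 (@Lb.r r85 (@Lb.r r394 (@Lb.g g11 (@Lb.g g6 (@Lb.g g4 (@Lb.d (nat_lit 1) (nat_lit 0) (nat_lit 69) (@Lb.r r25 (@Lb.t (@Lb.fp (nat_lit 9) t1263)))))))))))
noncomputable def l38750 : Lb := (@Lb.d (nat_lit 650) (nat_lit 6) (nat_lit 278) (@Lb.r r24 (@Lb.r r2145 (@Lb.r r386 (@Lb.g g11 (@Lb.g g6 (@Lb.g g4 (@Lb.d (nat_lit 1) (nat_lit 0) (nat_lit 129) (@Lb.t (@Lb.fp (nat_lit 9) t4618))))))))))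
noncomputable def l38751 : Lb := (@Lb.d (nat_lit 26) (nat_lit 8) (nat_lit 2) (@Lb.g g8 (@Lb.g g9 (@Lb.g g10 (@Lb.g g11 (@Lb.r r683 (@Lb.r r2666 (@Lb.r r36 (@Lb.r r37 (@Lb.d (nat_lit 357) (nat_lit 0) (nat_lit 537) (@Lb.fp (nat_lit 9) t1369)))))))))))
noncomputable def l38752 : Lb := (@Lb.d (nat_lit 2) (nat_lit 256) (nat_lit 66) (@Lb.g g8 (@Lb.g g10 (@Lb.g g7 (@Lb.r r386 (@Lb.r r2145 (@Lb.r r24 (@Lb.d (nat_lit 325) (nat_lit 9) (nat_lit 553) (@Lb.t (@Lb.fm (nat_lit 9) t3927))))))))))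
noncomputable def l38753 : Lb := (@Lb.d (nat_lit 2) (nat_lit 512) (nat_lit 66) (@Lb.g g8 (@Lb.g g10 (@Lb.g g7 (@Lb.r r386 (@Lb.r r2145 (@Lb.r r24 (@Lb.d (nat_lit 328) (nat_lit 73) (nat_lit 553) (@Lb.t (@Lb.fm (nat_lit 9) t1150))))))))))
noncomputable def l38754 : Lb := (@Lb.d (nat_lit 2) (nat_lit 2) (nat_lit 2) (@Lb.g g8 (@Lb.g g9 (@Lb.g g10 (@Lb.g g11 (@Lb.r r683 (@Lb.r r2666 (@Lb.r r25 (@Lb.d (nat_lit 2) (nat_lit 90) (nat_lit 537) (@Lb.fm (nat_lit 9) t591))))))))))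
noncomputable def l38755 : Lb := (@Lb.d (nat_lit 2) (nat_lit 609) (nat_lit 129) (@Lb.g g8 (@Lb.g g5 (@Lb.g g10 (@Lb.g g11 (@Lb.r r586 (@Lb.r r1611 (@Lb.r r24 (@Lb.d (nat_lit 660) (nat_lit 24) (nat_lit 329) (@Lb.fm (nat_lit 9) t42))))))))))
noncomputable def l38756 : Lb := (@Lb.d (nat_lit 34) (nat_lit 2) (nat_lit 0) (@Lb.g g8 (@Lb.g g9 (@Lb.r r515 (@Lb.r r361 (@Lb.r r150 (@Lb.r r612 (@Lb.d (nat_lit 154) (nat_lit 137) (nat_lit 330) (@Lb.fp (nat_lit 3) t242)))))))))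
noncomputable def l38757 : Lb := (@Lb.d (nat_lit 10) (nat_lit 256) (nat_lit 0) (@Lb.g g8 (@Lb.g g11 (@Lb.r r1291 (@Lb.d (nat_lit 522) (nat_lit 1) (nat_lit 0) (@Lb.fm (nat_lit 3) t441))))))
noncomputable def l38758 : Lb := (@Lb.r r1126 (@Lb.r r24 (@Lb.d (nat_lit 584) (nat_lit 68) (nat_lit 513) (@Lb.fm (nat_lit 1) t3316))))
noncomputable def l38759 : Lb := (@Lb.d (nat_lit 2) (nat_lit 5) (nat_lit 136) (@Lb.g g8 (@Lb.g g5 (@Lb.g g11 (@Lb.r r24 (@Lb.d (nat_lit 10) (nat_lit 0) (nat_lit 0) (@Lb.t (@Lb.fm (nat_lit 9) t40))))))))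
noncomputable def l38760 : Lb := (@Lb.r r70 (@Lb.d (nat_lit 132) (nat_lit 5) (nat_lit 64) (@Lb.g g8 (@Lb.g g5 (@Lb.g g11 (@Lb.r r1643 (@Lb.r r1626 (@Lb.r r580 (@Lb.d (nat_lit 548) (nat_lit 2) (nat_lit 680) (@Lb.t (@Lb.fm (nat_lit 9) t175)))))))))))
noncomputable def l38761 : Lb := (@Lb.r r1126 (@Lb.r r24 (@Lb.d (nat_lit 576) (nat_lit 69) (nat_lit 513) (@Lb.fm (nat_lit 1) t3316))))
noncomputable def l38762 : Lb := (@Lb.d (nat_lit 2) (nat_lit 261) (nat_lit 136) (@Lb.g g8 (@Lb.g g5 (@Lb.g g11 (@Lb.r r24 (@Lb.d (nat_lit 9) (nat_lit 0) (nat_lit 0) (@Lb.t (@Lb.fm (nat_lit 9) t319))))))))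
noncomputable def l38763 : Lb := (@Lb.r r323 (@Lb.d (nat_lit 2) (nat_lit 514) (nat_lit 2) (@Lb.g g8 (@Lb.g g9 (@Lb.g g10 (@Lb.r r553 (@Lb.r r299 (@Lb.r r420 (@Lb.r r390 (@Lb.d (nat_lit 145) (nat_lit 10) (nat_lit 20) (@Lb.t (@Lb.fm (nat_lit 9) t590))))))))))))
noncomputable def l38764 : Lb := (@Lb.r r70 (@Lb.r r263 (@Lb.d (nat_lit 5) (nat_lit 517) (nat_lit 0) (@Lb.g g8 (@Lb.g g5 (@Lb.r r402 (@Lb.r r2375 (@Lb.r r2568 (@Lb.d (nat_lit 646) (nat_lit 2) (nat_lit 128) (@Lb.fp (nat_lit 3) t175))))))))))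
noncomputable def l38765 : Lb := (@Lb.d (nat_lit 129) (nat_lit 514) (nat_lit 66) (@Lb.g g8 (@Lb.g g9 (@Lb.g g10 (@Lb.g g11 (@Lb.r r1675 (@Lb.r r344 (@Lb.r r2389 (@Lb.r r1194 (@Lb.r r1188 (@Lb.d (nat_lit 133) (nat_lit 96) (nat_lit 362) (@Lb.fm (nat_lit 9) t264))))))))))))
noncomputable def l38766 : Lb := (@Lb.d (nat_lit 9) (nat_lit 384) (nat_lit 138) (@Lb.g g11 (@Lb.t (@Lb.fp (nat_lit 3) t2))))
noncomputable def l38767 : Lb := (@Lb.d (nat_lit 42) (nat_lit 0) (nat_lit 0) (@Lb.g g4 (@Lb.r r2391 (@Lb.r r618 (@Lb.r r1641 (@Lb.r r2664 (@Lb.d (nat_lit 666) (nat_lit 165) (nat_lit 613) (@Lb.t (@Lb.fm (nat_lit 3) t386)))))))))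
noncomputable def l38768 : Lb := (@Lb.d (nat_lit 425) (nat_lit 264) (nat_lit 418) (@Lb.r r1109 (@Lb.r r2088 (@Lb.r r418 (@Lb.g g11 (@Lb.g g6 (@Lb.g g5 (@Lb.g g4 (@Lb.d (nat_lit 0) (nat_lit 25) (nat_lit 394) (@Lb.fm (nat_lit 9) t4995))))))))))
noncomputable def l38769 : Lb := (@Lb.d (nat_lit 8) (nat_lit 258) (nat_lit 130) (@Lb.g g8 (@Lb.g g9 (@Lb.g g10 (@Lb.g g11 (@Lb.r r2459 (@Lb.r r2456 (@Lb.r r2154 (@Lb.r r2145 (@Lb.d (nat_lit 610) (nat_lit 104) (nat_lit 386) (@Lb.fp (nat_lit 9) t171)))))))))))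
noncomputable def l38770 : Lb := (@Lb.d (nat_lit 8) (nat_lit 2) (nat_lit 66) (@Lb.g g8 (@Lb.g g9 (@Lb.g g10 (@Lb.g g7 (@Lb.r r386 (@Lb.r r105 (@Lb.r r36 (@Lb.d (nat_lit 36) (nat_lit 81) (nat_lit 265) (@Lb.fm (nat_lit 9) t845))))))))))
noncomputable def l38771 : Lb := (@Lb.g g4 (@Lb.g g9 (@Lb.r r2311 (@Lb.d (nat_lit 256) (nat_lit 256) (nat_lit 64) (@Lb.fp (nat_lit 3) t1165)))))
noncomputable def l38772 : Lb := (@Lb.d (nat_lit 0) (nat_lit 514) (nat_lit 2) (@Lb.g g8 (@Lb.g g9 (@Lb.g g10 (@Lb.g g7 (@Lb.r r386 (@Lb.r r25 (@Lb.r r24 (@Lb.d (nat_lit 610) (nat_lit 0) (nat_lit 537) (@Lb.fm (nat_lit 9) t698))))))))))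
noncomputable def l38773 : Lb := (@Lb.d (nat_lit 0) (nat_lit 514) (nat_lit 2) (@Lb.g g8 (@Lb.g g9 (@Lb.g g10 (@Lb.g g7 (@Lb.r r106 (@Lb.r r100 (@Lb.r r21 (@Lb.r r36 (@Lb.d (nat_lit 9) (nat_lit 130) (nat_lit 0) (@Lb.fm (nat_lit 9) t240)))))))))))
noncomputable def l38774 : Lb := (@Lb.r r323 (@Lb.d (nat_lit 130) (nat_lit 322) (nat_lit 2) (@Lb.g g8 (@Lb.g g9 (@Lb.g g10 (@Lb.r r1623 (@Lb.r r2146 (@Lb.r r388 (@Lb.d (nat_lit 97) (nat_lit 73) (nat_lit 153) (@Lb.t (@Lb.fp (nat_lit 9) t410)))))))))))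
noncomputable def l38775 : Lb := (@Lb.d (nat_lit 529) (nat_lit 273) (nat_lit 545) (@Lb.r r2321 (@Lb.r r1379 (@Lb.r r2630 (@Lb.g g5 (@Lb.g g8 (@Lb.d (nat_lit 613) (nat_lit 5) (nat_lit 0) (@Lb.r r74 (@Lb.fp (nat_lit 3) t6759)))))))))
noncomputable def l38776 : Lb := (@Lb.r r82 (@Lb.d (nat_lit 401) (nat_lit 514) (nat_lit 128) (@Lb.g g8 (@Lb.g g9 (@Lb.g g11 (@Lb.r r1323 (@Lb.r r153 (@Lb.r r146 (@Lb.d (nat_lit 32) (nat_lit 105) (nat_lit 641) (@Lb.t (@Lb.fp (nat_lit 9) t5617)))))))))))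
noncomputable def l38777 : Lb := (@Lb.d (nat_lit 2) (nat_lit 256) (nat_lit 74) (@Lb.g g8 (@Lb.g g10 (@Lb.g g11 (@Lb.r r2707 (@Lb.r r2345 (@Lb.r r1160 (@Lb.r r1178 (@Lb.d (nat_lit 581) (nat_lit 132) (nat_lit 529) (@Lb.t (@Lb.fm (nat_lit 9) t6760)))))))))))
noncomputable def l38778 : Lb := (@Lb.d (nat_lit 401) (nat_lit 344) (nat_lit 256) (@Lb.r r2150 (@Lb.r r101 (@Lb.r r2196 (@Lb.g g9 (@Lb.t (@Lb.fm (nat_lit 3) t657)))))))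
noncomputable def l38779 : Lb := (@Lb.d (nat_lit 389) (nat_lit 338) (nat_lit 256) (@Lb.r r1065 (@Lb.r r2088 (@Lb.r r2150 (@Lb.g g5 (@Lb.t (@Lb.fm (nat_lit 3) t6761)))))))
noncomputable def l38780 : Lb := (@Lb.d (nat_lit 2) (nat_lit 512) (nat_lit 74) (@Lb.g g8 (@Lb.g g10 (@Lb.g g11 (@Lb.r r2707 (@Lb.r r2345 (@Lb.r r1160 (@Lb.r r1178 (@Lb.d (nat_lit 580) (nat_lit 132) (nat_lit 529) (@Lb.t (@Lb.fm (nat_lit 9) t6762)))))))))))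
noncomputable def l38781 : Lb := (@Lb.r r347 (@Lb.d (nat_lit 41) (nat_lit 518) (nat_lit 33) (@Lb.g g8 (@Lb.g g9 (@Lb.g g6 (@Lb.r r2315 (@Lb.r r105 (@Lb.r r328 (@Lb.d (nat_lit 601) (nat_lit 146) (nat_lit 138) (@Lb.t (@Lb.fp (nat_lit 9) t98)))))))))))
noncomputable def l38782 : Lb := (@Lb.r r21 (@Lb.d (nat_lit 144) (nat_lit 0) (nat_lit 130) (@Lb.g g8 (@Lb.g g10 (@Lb.g g11 (@Lb.r r1443 (@Lb.r r2180 (@Lb.r r390 (@Lb.r r97 (@Lb.d (nat_lit 616) (nat_lit 26) (nat_lit 420) (@Lb.t (@Lb.fm (nat_lit 9) t6763))))))))))))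
noncomputable def l38783 : Lb := (@Lb.r r322 (@Lb.d (nat_lit 2) (nat_lit 528) (nat_lit 648) (@Lb.g g8 (@Lb.g g9 (@Lb.g g7 (@Lb.r r682 (@Lb.r r2133 (@Lb.r r24 (@Lb.d (nat_lit 98) (nat_lit 73) (nat_lit 610) (@Lb.t (@Lb.fp (nat_lit 9) t378)))))))))))
noncomputable def l38784 : Lb := (@Lb.r r323 (@Lb.d (nat_lit 2) (nat_lit 260) (nat_lit 42) (@Lb.g g8 (@Lb.g g9 (@Lb.g g6 (@Lb.r r387 (@Lb.r r1313 (@Lb.d (nat_lit 0) (nat_lit 161) (nat_lit 16) (@Lb.t (@Lb.fm (nat_lit 9) t599))))))))))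
noncomputable def l38785 : Lb := (@Lb.r r323 (@Lb.d (nat_lit 0) (nat_lit 4) (nat_lit 42) (@Lb.g g6 (@Lb.r r387 (@Lb.d (nat_lit 2) (nat_lit 82) (nat_lit 592) (@Lb.t (@Lb.fm (nat_lit 3) t356)))))))
noncomputable def l38786 : Lb := (@Lb.r r322 (@Lb.d (nat_lit 2) (nat_lit 16) (nat_lit 648) (@Lb.g g8 (@Lb.g g9 (@Lb.g g7 (@Lb.r r682 (@Lb.r r2133 (@Lb.r r24 (@Lb.d (nat_lit 258) (nat_lit 66) (nat_lit 80) (@Lb.t (@Lb.fp (nat_lit 9) t6764)))))))))))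
noncomputable def l38787 : Lb := (@Lb.d (nat_lit 1) (nat_lit 514) (nat_lit 0) (@Lb.g g8 (@Lb.g g9 (@Lb.r r322 (@Lb.r r1667 (@Lb.r r578 (@Lb.r r104 (@Lb.r r25 (@Lb.d (nat_lit 41) (nat_lit 9) (nat_lit 17) (@Lb.fm (nat_lit 3) t40))))))))))
noncomputable def l38788 : Lb := (@Lb.r r21 (@Lb.d (nat_lit 9) (nat_lit 512) (nat_lit 2) (@Lb.g g8 (@Lb.g g10 (@Lb.g g11 (@Lb.r r411 (@Lb.r r145 (@Lb.r r1434 (@Lb.r r1432 (@Lb.d (nat_lit 153) (nat_lit 85) (nat_lit 393) (@Lb.t (@Lb.fm (nat_lit 9) t1299))))))))))))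
noncomputable def l38789 : Lb := (@Lb.r r21 (@Lb.d (nat_lit 1) (nat_lit 512) (nat_lit 130) (@Lb.g g8 (@Lb.g g10 (@Lb.g g11 (@Lb.r r610 (@Lb.r r583 (@Lb.r r97 (@Lb.r r388 (@Lb.d (nat_lit 402) (nat_lit 66) (nat_lit 682) (@Lb.t (@Lb.fm (nat_lit 9) t5670))))))))))))
noncomputable def l38790 : Lb := (@Lb.r r21 (@Lb.d (nat_lit 2) (nat_lit 0) (nat_lit 130) (@Lb.g g8 (@Lb.g g10 (@Lb.g g11 (@Lb.r r1451 (@Lb.r r1448 (@Lb.r r106 (@Lb.r r97 (@Lb.d (nat_lit 610) (nat_lit 66) (nat_lit 154) (@Lb.t (@Lb.fm (nat_lit 9) t171))))))))))))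
noncomputable def l38791 : Lb := (@Lb.r r21 (@Lb.r r263 (@Lb.d (nat_lit 646) (nat_lit 256) (nat_lit 2) (@Lb.g g8 (@Lb.g g10 (@Lb.r r1639 (@Lb.r r106 (@Lb.r r97 (@Lb.d (nat_lit 20) (nat_lit 2) (nat_lit 613) (@Lb.fm (nat_lit 3) t4995))))))))))
noncomputable def l38792 : Lb := (@Lb.r r21 (@Lb.d (nat_lit 1) (nat_lit 512) (nat_lit 130) (@Lb.g g8 (@Lb.g g10 (@Lb.g g11 (@Lb.r r610 (@Lb.r r583 (@Lb.r r97 (@Lb.r r388 (@Lb.d (nat_lit 410) (nat_lit 65) (nat_lit 682) (@Lb.t (@Lb.fm (nat_lit 9) t5670))))))))))))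
noncomputable def l38793 : Lb := (@Lb.d (nat_lit 8) (nat_lit 258) (nat_lit 130) (@Lb.g g9 (@Lb.g g10 (@Lb.g g11 (@Lb.r r642 (@Lb.r r660 (@Lb.r r1687 (@Lb.r r2401 (@Lb.d (nat_lit 21) (nat_lit 132) (nat_lit 37) (@Lb.t (@Lb.fp (nat_lit 9) t6765)))))))))))
noncomputable def l38794 : Lb := (@Lb.d (nat_lit 36) (nat_lit 514) (nat_lit 130) (@Lb.g g8 (@Lb.g g9 (@Lb.g g10 (@Lb.g g11 (@Lb.r r1443 (@Lb.r r2726 (@Lb.r r344 (@Lb.r r2453 (@Lb.r r1060 (@Lb.d (nat_lit 616) (nat_lit 168) (nat_lit 418) (@Lb.fp (nat_lit 9) t3456))))))))))))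
noncomputable def l38795 : Lb := (@Lb.d (nat_lit 2) (nat_lit 258) (nat_lit 130) (@Lb.g g8 (@Lb.g g9 (@Lb.g g10 (@Lb.g g11 (@Lb.r r1707 (@Lb.r r680 (@Lb.r r2186 (@Lb.r r97 (@Lb.r r2084 (@Lb.d (nat_lit 16) (nat_lit 37) (nat_lit 321) (@Lb.fp (nat_lit 9) t6766))))))))))))
noncomputable def l38796 : Lb := (@Lb.r r327 (@Lb.d (nat_lit 2) (nat_lit 514) (nat_lit 1) (@Lb.g g8 (@Lb.g g9 (@Lb.g g6 (@Lb.r r1431 (@Lb.r r97 (@Lb.r r2200 (@Lb.d (nat_lit 554) (nat_lit 133) (nat_lit 17) (@Lb.t (@Lb.fp (nat_lit 9) t1690)))))))))))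
noncomputable def l38797 : Lb := (@Lb.d (nat_lit 0) (nat_lit 265) (nat_lit 130) (@Lb.g g8 (@Lb.g g9 (@Lb.g g10 (@Lb.g g11 (@Lb.r r2723 (@Lb.r r2089 (@Lb.r r356 (@Lb.r r154 (@Lb.d (nat_lit 26) (nat_lit 160) (nat_lit 644) (@Lb.fm (nat_lit 9) t1549)))))))))))
noncomputable def l38798 : Lb := (@Lb.d (nat_lit 134) (nat_lit 256) (nat_lit 130) (@Lb.g g8 (@Lb.g g9 (@Lb.g g10 (@Lb.g g11 (@Lb.r r2666 (@Lb.r r612 (@Lb.r r1319 (@Lb.r r405 (@Lb.r r2084 (@Lb.d (nat_lit 616) (nat_lit 130) (nat_lit 170) (@Lb.fp (nat_lit 9) t3335))))))))))))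
noncomputable def l38799 : Lb := (@Lb.r r21 (@Lb.d (nat_lit 130) (nat_lit 256) (nat_lit 130) (@Lb.g g8 (@Lb.g g10 (@Lb.g g11 (@Lb.r r1553 (@Lb.r r2647 (@Lb.r r386 (@Lb.r r2148 (@Lb.d (nat_lit 256) (nat_lit 74) (nat_lit 552) (@Lb.t (@Lb.fm (nat_lit 9) t6767))))))))))))
noncomputable def l38800 : Lb := (@Lb.r r21 (@Lb.r r323 (@Lb.d (nat_lit 417) (nat_lit 516) (nat_lit 2) (@Lb.g g8 (@Lb.g g10 (@Lb.r r1433 (@Lb.r r1707 (@Lb.r r1674 (@Lb.d (nat_lit 640) (nat_lit 138) (nat_lit 421) (@Lb.fm (nat_lit 3) t6768))))))))))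
noncomputable def l38801 : Lb := (@Lb.d (nat_lit 130) (nat_lit 512) (nat_lit 128) (@Lb.g g8 (@Lb.g g11 (@Lb.r r324 (@Lb.r r2587 (@Lb.r r1540 (@Lb.d (nat_lit 538) (nat_lit 64) (nat_lit 394) (@Lb.fp (nat_lit 3) t4646))))))))
noncomputable def l38802 : Lb := (@Lb.d (nat_lit 8) (nat_lit 257) (nat_lit 0) (@Lb.g g8 (@Lb.g g9 (@Lb.g g11 (@Lb.r r618 (@Lb.r r1641 (@Lb.r r1608 (@Lb.d (nat_lit 409) (nat_lit 129) (nat_lit 682) (@Lb.t (@Lb.fm (nat_lit 9) t6769))))))))))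
noncomputable def l38803 : Lb := (@Lb.d (nat_lit 8) (nat_lit 521) (nat_lit 128) (@Lb.g g9 (@Lb.g g11 (@Lb.r r1114 (@Lb.r r1540 (@Lb.r r1447 (@Lb.r r1317 (@Lb.d (nat_lit 598) (nat_lit 162) (nat_lit 386) (@Lb.fp (nat_lit 3) t2895)))))))))
noncomputable def l38804 : Lb := (@Lb.r r21 (@Lb.d (nat_lit 34) (nat_lit 256) (nat_lit 129) (@Lb.g g8 (@Lb.g g10 (@Lb.g g11 (@Lb.r r395 (@Lb.r r2714 (@Lb.r r533 (@Lb.r r1128 (@Lb.d (nat_lit 84) (nat_lit 32) (nat_lit 390) (@Lb.t (@Lb.fm (nat_lit 9) t2454))))))))))))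
noncomputable def l38805 : Lb := (@Lb.d (nat_lit 0) (nat_lit 0) (nat_lit 129) (@Lb.g g10 (@Lb.g g11 (@Lb.r r1634 (@Lb.r r2659 (@Lb.r r1633 (@Lb.r r8 (@Lb.d (nat_lit 2) (nat_lit 153) (nat_lit 386) (@Lb.fp (nat_lit 3) t752)))))))))
noncomputable def l38806 : Lb := (@Lb.d (nat_lit 64) (nat_lit 544) (nat_lit 648) (@Lb.g g11 (@Lb.r r1096 (@Lb.r r2646 (@Lb.r r409 (@Lb.d (nat_lit 282) (nat_lit 9) (nat_lit 106) (@Lb.t (@Lb.fm (nat_lit 3) t450))))))))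
noncomputable def l38807 : Lb := (@Lb.d (nat_lit 128) (nat_lit 521) (nat_lit 129) (@Lb.g g8 (@Lb.g g9 (@Lb.g g10 (@Lb.g g11 (@Lb.r r419 (@Lb.r r1702 (@Lb.r r1556 (@Lb.r r25 (@Lb.d (nat_lit 406) (nat_lit 82) (nat_lit 345) (@Lb.fm (nat_lit 9) t6770)))))))))))
noncomputable def l38808 : Lb := (@Lb.d (nat_lit 2) (nat_lit 9) (nat_lit 129) (@Lb.g g8 (@Lb.g g9 (@Lb.g g10 (@Lb.g g11 (@Lb.r r427 (@Lb.r r424 (@Lb.r r106 (@Lb.r r97 (@Lb.d (nat_lit 533) (nat_lit 6) (nat_lit 33) (@Lb.fp (nat_lit 9) t1147)))))))))))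
noncomputable def l38809 : Lb := (@Lb.d (nat_lit 2) (nat_lit 512) (nat_lit 128) (@Lb.r r24 (@Lb.r r101 (@Lb.r r1426 (@Lb.g g7 (@Lb.g g5 (@Lb.g g4 (@Lb.d (nat_lit 6) (nat_lit 1) (nat_lit 68) (@Lb.r r578 (@Lb.t (@Lb.fm (nat_lit 9) t809)))))))))))
noncomputable def l38810 : Lb := (@Lb.d (nat_lit 9) (nat_lit 8) (nat_lit 65) (@Lb.g g8 (@Lb.g g9 (@Lb.g g10 (@Lb.g g7 (@Lb.r r386 (@Lb.r r2153 (@Lb.r r1316 (@Lb.d (nat_lit 536) (nat_lit 2) (nat_lit 352) (@Lb.fm (nat_lit 9) t6771))))))))))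
noncomputable def l38811 : Lb := (@Lb.d (nat_lit 1) (nat_lit 0) (nat_lit 66) (@Lb.g g8 (@Lb.g g10 (@Lb.g g7 (@Lb.r r2474 (@Lb.r r2468 (@Lb.r r2341 (@Lb.d (nat_lit 576) (nat_lit 106) (nat_lit 86) (@Lb.t (@Lb.fp (nat_lit 9) t5435))))))))))
noncomputable def l38812 : Lb := (@Lb.r r70 (@Lb.d (nat_lit 136) (nat_lit 257) (nat_lit 136) (@Lb.g g8 (@Lb.g g9 (@Lb.g g11 (@Lb.r r2438 (@Lb.r r145 (@Lb.r r100 (@Lb.d (nat_lit 597) (nat_lit 0) (nat_lit 640) (@Lb.t (@Lb.fp (nat_lit 9) t4)))))))))))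
noncomputable def l38813 : Lb := (@Lb.r r322 (@Lb.d (nat_lit 32) (nat_lit 2) (nat_lit 576) (@Lb.g g8 (@Lb.g g9 (@Lb.g g7 (@Lb.r r361 (@Lb.r r150 (@Lb.r r84 (@Lb.d (nat_lit 20) (nat_lit 150) (nat_lit 521) (@Lb.t (@Lb.fp (nat_lit 9) t668)))))))))))
noncomputable def l38814 : Lb := (@Lb.r r82 (@Lb.d (nat_lit 134) (nat_lit 512) (nat_lit 128) (@Lb.g g8 (@Lb.g g9 (@Lb.g g11 (@Lb.r r291 (@Lb.r r1604 (@Lb.r r1626 (@Lb.r r2449 (@Lb.d (nat_lit 10) (nat_lit 65) (nat_lit 401) (@Lb.t (@Lb.fm (nat_lit 9) t1846))))))))))))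
noncomputable def l38815 : Lb := (@Lb.r r323 (@Lb.d (nat_lit 132) (nat_lit 554) (nat_lit 2) (@Lb.g g8 (@Lb.g g9 (@Lb.g g10 (@Lb.r r2643 (@Lb.r r1702 (@Lb.r r600 (@Lb.r r149 (@Lb.d (nat_lit 676) (nat_lit 34) (nat_lit 96) (@Lb.t (@Lb.fp (nat_lit 9) t1244))))))))))))
noncomputable def l38816 : Lb := (@Lb.g g6 (@Lb.r r2403 (@Lb.r r594 (@Lb.d (nat_lit 0) (nat_lit 64) (nat_lit 101) (@Lb.t (@Lb.fm (nat_lit 3) t1603))))))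
noncomputable def l38817 : Lb := (@Lb.d (nat_lit 2) (nat_lit 5) (nat_lit 74) (@Lb.g g8 (@Lb.g g9 (@Lb.g g10 (@Lb.g g11 (@Lb.r r342 (@Lb.r r2712 (@Lb.r r2587 (@Lb.r r1321 (@Lb.d (nat_lit 265) (nat_lit 33) (nat_lit 586) (@Lb.fm (nat_lit 9) t125)))))))))))
noncomputable def l38818 : Lb := (@Lb.d (nat_lit 101) (nat_lit 681) (nat_lit 102) (@Lb.r r408 (@Lb.r r330 (@Lb.r r407 (@Lb.g g7 (@Lb.g g5 (@Lb.g g4 (@Lb.d (nat_lit 17) (nat_lit 1) (nat_lit 64) (@Lb.r r98 (@Lb.t (@Lb.fm (nat_lit 9) t242)))))))))))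
noncomputable def l38819 : Lb := (@Lb.r r338 (@Lb.d (nat_lit 2) (nat_lit 10) (nat_lit 648) (@Lb.g g8 (@Lb.g g9 (@Lb.g g11 (@Lb.r r2438 (@Lb.r r1432 (@Lb.r r2725 (@Lb.d (nat_lit 294) (nat_lit 145) (nat_lit 533) (@Lb.t (@Lb.fp (nat_lit 9) t436)))))))))))
noncomputable def l38820 : Lb := (@Lb.d (nat_lit 4) (nat_lit 257) (nat_lit 73) (@Lb.g g8 (@Lb.g g9 (@Lb.g g10 (@Lb.g g11 (@Lb.r r2691 (@Lb.r r164 (@Lb.r r2454 (@Lb.r r2385 (@Lb.r r1060 (@Lb.d (nat_lit 641) (nat_lit 150) (nat_lit 102) (@Lb.fp (nat_lit 9) t242))))))))))))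
noncomputable def l38821 : Lb := (@Lb.d (nat_lit 4) (nat_lit 513) (nat_lit 130) (@Lb.g g8 (@Lb.g g9 (@Lb.g g10 (@Lb.g g11 (@Lb.r r2691 (@Lb.r r164 (@Lb.r r2454 (@Lb.r r2385 (@Lb.r r1060 (@Lb.d (nat_lit 642) (nat_lit 150) (nat_lit 102) (@Lb.fp (nat_lit 9) t242))))))))))))
noncomputable def l38822 : Lb := (@Lb.d (nat_lit 65) (nat_lit 166) (nat_lit 102) (@Lb.r r408 (@Lb.r r330 (@Lb.r r343 (@Lb.g g5 (@Lb.g g4 (@Lb.d (nat_lit 17) (nat_lit 37) (nat_lit 0) (@Lb.r r291 (@Lb.r r98 (@Lb.fp (nat_lit 3) t98))))))))))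
noncomputable def l38823 : Lb := (@Lb.r r82 (@Lb.r r275 (@Lb.d (nat_lit 4) (nat_lit 258) (nat_lit 0) (@Lb.g g5 (@Lb.r r2196 (@Lb.r r1638 (@Lb.r r2403 (@Lb.r r609 (@Lb.d (nat_lit 2) (nat_lit 101) (nat_lit 133) (@Lb.t (@Lb.fp (nat_lit 3) t3778)))))))))))
noncomputable def l38824 : Lb := (@Lb.d (nat_lit 0) (nat_lit 514) (nat_lit 130) (@Lb.g g9 (@Lb.g g10 (@Lb.g g11 (@Lb.r r2407 (@Lb.r r386 (@Lb.r r148 (@Lb.r r25 (@Lb.d (nat_lit 522) (nat_lit 4) (nat_lit 69) (@Lb.t (@Lb.fp (nat_lit 9) t61)))))))))))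
noncomputable def l38825 : Lb := (@Lb.d (nat_lit 4) (nat_lit 256) (nat_lit 130) (@Lb.g g8 (@Lb.g g9 (@Lb.g g10 (@Lb.g g11 (@Lb.r r2411 (@Lb.r r386 (@Lb.r r104 (@Lb.r r25 (@Lb.d (nat_lit 522) (nat_lit 9) (nat_lit 70) (@Lb.fp (nat_lit 9) t61)))))))))))
noncomputable def l38826 : Lb := (@Lb.d (nat_lit 274) (nat_lit 514) (nat_lit 0) (@Lb.g g4 (@Lb.g g9 (@Lb.r r2339 (@Lb.r r2469 (@Lb.r r2150 (@Lb.d (nat_lit 2) (nat_lit 144) (nat_lit 149) (@Lb.fm (nat_lit 3) t1195))))))))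
noncomputable def l38827 : Lb := (@Lb.d (nat_lit 388) (nat_lit 581) (nat_lit 324) (@Lb.r r2325 (@Lb.r r323 (@Lb.g g7 (@Lb.g g6 (@Lb.g g5 (@Lb.g g4 (@Lb.d (nat_lit 2) (nat_lit 0) (nat_lit 81) (@Lb.fp (nat_lit 9) t842)))))))))
noncomputable def l38828 : Lb := (@Lb.d (nat_lit 2) (nat_lit 514) (nat_lit 130) (@Lb.g g8 (@Lb.g g9 (@Lb.g g10 (@Lb.g g11 (@Lb.r r427 (@Lb.r r420 (@Lb.r r102 (@Lb.r r97 (@Lb.r r36 (@Lb.d (nat_lit 8) (nat_lit 137) (nat_lit 137) (@Lb.fm (nat_lit 9) t51))))))))))))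
noncomputable def l38829 : Lb := (@Lb.d (nat_lit 10) (nat_lit 516) (nat_lit 128) (@Lb.g g8 (@Lb.g g9 (@Lb.g g10 (@Lb.g g11 (@Lb.r r663 (@Lb.r r342 (@Lb.r r553 (@Lb.r r2580 (@Lb.d (nat_lit 385) (nat_lit 168) (nat_lit 585) (@Lb.fp (nat_lit 9) t6772)))))))))))
noncomputable def l38830 : Lb := (@Lb.d (nat_lit 64) (nat_lit 37) (nat_lit 102) (@Lb.r r410 (@Lb.r r148 (@Lb.r r1365 (@Lb.r r2343 (@Lb.g g7 (@Lb.g g6 (@Lb.g g5 (@Lb.d (nat_lit 16) (nat_lit 0) (nat_lit 129) (@Lb.t (@Lb.fm (nat_lit 9) t591)))))))))))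
noncomputable def l38831 : Lb := (@Lb.r r1379 (@Lb.r r2209 (@Lb.r r1186 (@Lb.r r1124 (@Lb.d (nat_lit 548) (nat_lit 650) (nat_lit 18) (@Lb.fp (nat_lit 1) t6773))))))
noncomputable def l38832 : Lb := (@Lb.r r263 (@Lb.d (nat_lit 17) (nat_lit 514) (nat_lit 0) (@Lb.g g8 (@Lb.g g9 (@Lb.g g10 (@Lb.r r2666 (@Lb.r r2627 (@Lb.r r1577 (@Lb.r r2724 (@Lb.d (nat_lit 153) (nat_lit 81) (nat_lit 553) (@Lb.t (@Lb.fm (nat_lit 9) t4350))))))))))))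
noncomputable def l38833 : Lb := (@Lb.d (nat_lit 0) (nat_lit 258) (nat_lit 128) (@Lb.g g9 (@Lb.g g11 (@Lb.r r289 (@Lb.r r2587 (@Lb.r r1126 (@Lb.r r2564 (@Lb.d (nat_lit 80) (nat_lit 146) (nat_lit 16) (@Lb.fm (nat_lit 3) t6774)))))))))
noncomputable def l38834 : Lb := (@Lb.d (nat_lit 0) (nat_lit 290) (nat_lit 9) (@Lb.g g9 (@Lb.g g10 (@Lb.r r1347 (@Lb.r r1686 (@Lb.r r1096 (@Lb.d (nat_lit 617) (nat_lit 161) (nat_lit 594) (@Lb.fm (nat_lit 3) t414))))))))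
noncomputable def l38835 : Lb := (@Lb.d (nat_lit 1) (nat_lit 2) (nat_lit 137) (@Lb.g g8 (@Lb.g g9 (@Lb.g g10 (@Lb.g g11 (@Lb.r r1675 (@Lb.r r145 (@Lb.r r594 (@Lb.r r1169 (@Lb.r r36 (@Lb.d (nat_lit 297) (nat_lit 160) (nat_lit 649) (@Lb.fm (nat_lit 9) t6775))))))))))))
noncomputable def l38836 : Lb := (@Lb.d (nat_lit 69) (nat_lit 613) (nat_lit 354) (@Lb.r r2456 (@Lb.r r2709 (@Lb.r r2647 (@Lb.g g6 (@Lb.g g5 (@Lb.g g4 (@Lb.d (nat_lit 97) (nat_lit 0) (nat_lit 1) (@Lb.t (@Lb.fp (nat_lit 9) t6776))))))))))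
noncomputable def l38837 : Lb := (@Lb.d (nat_lit 0) (nat_lit 2) (nat_lit 73) (@Lb.g g9 (@Lb.g g10 (@Lb.g g11 (@Lb.r r1096 (@Lb.r r2214 (@Lb.r r2469 (@Lb.r r1627 (@Lb.d (nat_lit 4) (nat_lit 153) (nat_lit 416) (@Lb.t (@Lb.fm (nat_lit 9) t2149)))))))))))
noncomputable def l38838 : Lb := (@Lb.d (nat_lit 0) (nat_lit 258) (nat_lit 130) (@Lb.g g9 (@Lb.g g10 (@Lb.g g11 (@Lb.r r1443 (@Lb.r r1686 (@Lb.r r1313 (@Lb.r r1128 (@Lb.d (nat_lit 581) (nat_lit 101) (nat_lit 385) (@Lb.t (@Lb.fp (nat_lit 9) t1179)))))))))))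
noncomputable def l38839 : Lb := (@Lb.d (nat_lit 129) (nat_lit 517) (nat_lit 294) (@Lb.r r2370 (@Lb.r r1683 (@Lb.r r2405 (@Lb.g g7 (@Lb.g g6 (@Lb.g g4 (@Lb.d (nat_lit 260) (nat_lit 4) (nat_lit 64) (@Lb.r r153 (@Lb.t (@Lb.fp (nat_lit 9) t6777)))))))))))
noncomputable def l38840 : Lb := (@Lb.r r322 (@Lb.d (nat_lit 5) (nat_lit 256) (nat_lit 576) (@Lb.g g8 (@Lb.g g9 (@Lb.g g7 (@Lb.r r1685 (@Lb.r r1366 (@Lb.r r1124 (@Lb.d (nat_lit 265) (nat_lit 128) (nat_lit 98) (@Lb.t (@Lb.fp (nat_lit 9) t6778)))))))))))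
noncomputable def l38841 : Lb := (@Lb.d (nat_lit 73) (nat_lit 21) (nat_lit 0) (@Lb.g g8 (@Lb.g g9 (@Lb.g g10 (@Lb.g g11 (@Lb.r r2595 (@Lb.r r386 (@Lb.r r1685 (@Lb.r r2708 (@Lb.d (nat_lit 513) (nat_lit 21) (nat_lit 104) (@Lb.fp (nat_lit 9) t5344)))))))))))
noncomputable def l38842 : Lb := (@Lb.d (nat_lit 0) (nat_lit 256) (nat_lit 73) (@Lb.g g9 (@Lb.g g10 (@Lb.g g11 (@Lb.r r2691 (@Lb.r r2132 (@Lb.r r1610 (@Lb.r r289 (@Lb.d (nat_lit 640) (nat_lit 165) (nat_lit 329) (@Lb.t (@Lb.fm (nat_lit 9) t6779)))))))))))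
noncomputable def l38843 : Lb := (@Lb.r r82 (@Lb.d (nat_lit 164) (nat_lit 256) (nat_lit 128) (@Lb.g g8 (@Lb.g g9 (@Lb.g g11 (@Lb.r r2390 (@Lb.r r1411 (@Lb.r r1633 (@Lb.r r2216 (@Lb.d (nat_lit 74) (nat_lit 68) (nat_lit 169) (@Lb.t (@Lb.fm (nat_lit 9) t328))))))))))))
noncomputable def l38844 : Lb := (@Lb.r r82 (@Lb.d (nat_lit 0) (nat_lit 2) (nat_lit 128) (@Lb.g g8 (@Lb.g g9 (@Lb.g g11 (@Lb.r r552 (@Lb.r r619 (@Lb.r r2438 (@Lb.r r2201 (@Lb.d (nat_lit 666) (nat_lit 85) (nat_lit 576) (@Lb.t (@Lb.fp (nat_lit 9) t2561))))))))))))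
noncomputable def l38845 : Lb := (@Lb.d (nat_lit 0) (nat_lit 0) (nat_lit 73) (@Lb.g g9 (@Lb.g g10 (@Lb.g g11 (@Lb.r r2691 (@Lb.r r2657 (@Lb.r r1686 (@Lb.r r1096 (@Lb.d (nat_lit 81) (nat_lit 170) (nat_lit 352) (@Lb.t (@Lb.fm (nat_lit 9) t2133)))))))))))
noncomputable def l38846 : Lb := (@Lb.d (nat_lit 2) (nat_lit 9) (nat_lit 72) (@Lb.g g8 (@Lb.g g9 (@Lb.g g10 (@Lb.g g11 (@Lb.r r610 (@Lb.r r1607 (@Lb.r r40 (@Lb.r r105 (@Lb.r r2084 (@Lb.d (nat_lit 426) (nat_lit 152) (nat_lit 593) (@Lb.fm (nat_lit 9) t6780))))))))))))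
noncomputable def l38847 : Lb := (@Lb.d (nat_lit 401) (nat_lit 81) (nat_lit 673) (@Lb.r r24 (@Lb.r r1105 (@Lb.r r1442 (@Lb.g g11 (@Lb.g g6 (@Lb.g g5 (@Lb.d (nat_lit 0) (nat_lit 24) (nat_lit 392) (@Lb.t (@Lb.fm (nat_lit 9) t200))))))))))
noncomputable def l38848 : Lb := (@Lb.d (nat_lit 100) (nat_lit 618) (nat_lit 674) (@Lb.r r1697 (@Lb.r r1706 (@Lb.r r2452 (@Lb.r r2375 (@Lb.g g7 (@Lb.g g6 (@Lb.g g5 (@Lb.d (nat_lit 4) (nat_lit 18) (nat_lit 129) (@Lb.t (@Lb.fp (nat_lit 9) t6781)))))))))))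
noncomputable def l38849 : Lb := (@Lb.r r21 (@Lb.r r331 (@Lb.d (nat_lit 678) (nat_lit 512) (nat_lit 1) (@Lb.g g4 (@Lb.g g10 (@Lb.r r1347 (@Lb.r r2182 (@Lb.r r25 (@Lb.d (nat_lit 88) (nat_lit 0) (nat_lit 33) (@Lb.fm (nat_lit 3) t2691))))))))))
noncomputable def l38850 : Lb := (@Lb.r r70 (@Lb.d (nat_lit 162) (nat_lit 9) (nat_lit 64) (@Lb.g g8 (@Lb.g g9 (@Lb.g g11 (@Lb.r r618 (@Lb.r r1371 (@Lb.r r549 (@Lb.r r660 (@Lb.d (nat_lit 25) (nat_lit 97) (nat_lit 132) (@Lb.t (@Lb.fp (nat_lit 9) t320))))))))))))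
noncomputable def l38851 : Lb := (@Lb.d (nat_lit 0) (nat_lit 33) (nat_lit 9) (@Lb.g g8 (@Lb.g g9 (@Lb.g g10 (@Lb.g g11 (@Lb.r r619 (@Lb.r r1610 (@Lb.r r2088 (@Lb.r r2201 (@Lb.d (nat_lit 660) (nat_lit 36) (nat_lit 529) (@Lb.fp (nat_lit 9) t43)))))))))))
noncomputable def l38852 : Lb := (@Lb.d (nat_lit 2) (nat_lit 265) (nat_lit 73) (@Lb.g g8 (@Lb.g g9 (@Lb.g g10 (@Lb.g g11 (@Lb.r r1194 (@Lb.r r680 (@Lb.r r555 (@Lb.r r1573 (@Lb.r r1044 (@Lb.d (nat_lit 394) (nat_lit 128) (nat_lit 261) (@Lb.fp (nat_lit 9) t125))))))))))))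
noncomputable def l38853 : Lb := (@Lb.r r82 (@Lb.d (nat_lit 9) (nat_lit 256) (nat_lit 0) (@Lb.g g8 (@Lb.g g9 (@Lb.r r2122 (@Lb.r r1557 (@Lb.d (nat_lit 2) (nat_lit 98) (nat_lit 128) (@Lb.fm (nat_lit 3) t225))))))))
noncomputable def l38854 : Lb := (@Lb.d (nat_lit 256) (nat_lit 602) (nat_lit 69) (@Lb.r r21 (@Lb.r r2664 (@Lb.g g7 (@Lb.g g10 (@Lb.g g5 (@Lb.g g4 (@Lb.d (nat_lit 1) (nat_lit 1) (nat_lit 0) (@Lb.fp (nat_lit 9) t6213)))))))))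
noncomputable def l38855 : Lb := (@Lb.d (nat_lit 73) (nat_lit 33) (nat_lit 258) (@Lb.g g8 (@Lb.g g9 (@Lb.g g10 (@Lb.g g7 (@Lb.r r1442 (@Lb.r r2193 (@Lb.r r2120 (@Lb.d (nat_lit 610) (nat_lit 41) (nat_lit 321) (@Lb.fm (nat_lit 9) t6782))))))))))
noncomputable def l38856 : Lb := (@Lb.r r20 (@Lb.d (nat_lit 4) (nat_lit 678) (nat_lit 0) (@Lb.g g9 (@Lb.g g10 (@Lb.r r595 (@Lb.r r98 (@Lb.r r8 (@Lb.d (nat_lit 9) (nat_lit 8) (nat_lit 290) (@Lb.fm (nat_lit 3) t6783)))))))))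
noncomputable def l38857 : Lb := (@Lb.d (nat_lit 25) (nat_lit 164) (nat_lit 518) (@Lb.r r20 (@Lb.r r25 (@Lb.r r148 (@Lb.r r386 (@Lb.g g11 (@Lb.g g6 (@Lb.g g5 (@Lb.g g4 (@Lb.d (nat_lit 0) (nat_lit 8) (nat_lit 128) (@Lb.fp (nat_lit 9) t4543)))))))))))
noncomputable def l38858 : Lb := (@Lb.r r81 (@Lb.d (nat_lit 2) (nat_lit 512) (nat_lit 36) (@Lb.g g8 (@Lb.g g6 (@Lb.r r2467 (@Lb.r r2337 (@Lb.d (nat_lit 0) (nat_lit 73) (nat_lit 0) (@Lb.fm (nat_lit 3) t50))))))))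
noncomputable def l38859 : Lb := (@Lb.d (nat_lit 144) (nat_lit 530) (nat_lit 128) (@Lb.g g8 (@Lb.g g9 (@Lb.g g10 (@Lb.g g11 (@Lb.r r2467 (@Lb.r r644 (@Lb.r r2182 (@Lb.r r2337 (@Lb.d (nat_lit 274) (nat_lit 164) (nat_lit 353) (@Lb.fp (nat_lit 9) t6784)))))))))))
noncomputable def l38860 : Lb := (@Lb.d (nat_lit 2) (nat_lit 2) (nat_lit 130) (@Lb.g g8 (@Lb.g g9 (@Lb.g g10 (@Lb.g g11 (@Lb.r r427 (@Lb.r r420 (@Lb.r r102 (@Lb.r r21 (@Lb.r r36 (@Lb.d (nat_lit 386) (nat_lit 85) (nat_lit 680) (@Lb.fp (nat_lit 9) t5711))))))))))))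
noncomputable def l38861 : Lb := (@Lb.r r323 (@Lb.d (nat_lit 128) (nat_lit 518) (nat_lit 0) (@Lb.g g8 (@Lb.g g9 (@Lb.g g10 (@Lb.r r362 (@Lb.r r361 (@Lb.r r1431 (@Lb.r r2632 (@Lb.d (nat_lit 361) (nat_lit 70) (nat_lit 640) (@Lb.t (@Lb.fm (nat_lit 9) t795))))))))))))
noncomputable def l38862 : Lb := (@Lb.r r82 (@Lb.d (nat_lit 132) (nat_lit 17) (nat_lit 128) (@Lb.g g8 (@Lb.g g9 (@Lb.g g11 (@Lb.r r299 (@Lb.r r2630 (@Lb.r r2453 (@Lb.r r1432 (@Lb.d (nat_lit 37) (nat_lit 90) (nat_lit 602) (@Lb.t (@Lb.fp (nat_lit 9) t6785))))))))))))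
noncomputable def l38863 : Lb := (@Lb.d (nat_lit 6) (nat_lit 256) (nat_lit 2) (@Lb.g g8 (@Lb.g g9 (@Lb.g g10 (@Lb.g g7 (@Lb.r r386 (@Lb.r r1641 (@Lb.r r2596 (@Lb.d (nat_lit 297) (nat_lit 82) (nat_lit 425) (@Lb.fm (nat_lit 9) t6786))))))))))
noncomputable def l38864 : Lb := (@Lb.d (nat_lit 5) (nat_lit 33) (nat_lit 512) (@Lb.r r1284 (@Lb.r r579 (@Lb.r r402 (@Lb.g g5 (@Lb.d (nat_lit 0) (nat_lit 129) (nat_lit 0) (@Lb.t (@Lb.fm (nat_lit 3) t1502))))))))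
noncomputable def l38865 : Lb := (@Lb.d (nat_lit 17) (nat_lit 385) (nat_lit 96) (@Lb.r r2580 (@Lb.r r2329 (@Lb.r r2394 (@Lb.g g7 (@Lb.g g6 (@Lb.d (nat_lit 64) (nat_lit 0) (nat_lit 577) (@Lb.fm (nat_lit 3) t4037))))))))
noncomputable def l38866 : Lb := (@Lb.d (nat_lit 0) (nat_lit 258) (nat_lit 73) (@Lb.g g8 (@Lb.g g9 (@Lb.g g10 (@Lb.g g11 (@Lb.r r2691 (@Lb.r r536 (@Lb.r r2197 (@Lb.r r2646 (@Lb.r r164 (@Lb.d (nat_lit 672) (nat_lit 5) (nat_lit 330) (@Lb.fp (nat_lit 9) t1087))))))))))))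
noncomputable def l38867 : Lb := (@Lb.d (nat_lit 4) (nat_lit 512) (nat_lit 64) (@Lb.g g8 (@Lb.g g9 (@Lb.g g11 (@Lb.r r665 (@Lb.r r275 (@Lb.r r2178 (@Lb.r r1553 (@Lb.d (nat_lit 609) (nat_lit 129) (nat_lit 297) (@Lb.t (@Lb.fp (nat_lit 9) t188)))))))))))
noncomputable def l38868 : Lb := (@Lb.d (nat_lit 4) (nat_lit 256) (nat_lit 10) (@Lb.g g8 (@Lb.g g9 (@Lb.g g10 (@Lb.g g11 (@Lb.r r1698 (@Lb.r r1415 (@Lb.r r36 (@Lb.r r149 (@Lb.r r1060 (@Lb.d (nat_lit 617) (nat_lit 152) (nat_lit 609) (@Lb.fm (nat_lit 9) t1089))))))))))))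
noncomputable def l38869 : Lb := (@Lb.d (nat_lit 2) (nat_lit 256) (nat_lit 72) (@Lb.g g8 (@Lb.g g11 (@Lb.r r2436 (@Lb.d (nat_lit 402) (nat_lit 0) (nat_lit 68) (@Lb.fm (nat_lit 3) t4041))))))
noncomputable def l38870 : Lb := (@Lb.d (nat_lit 34) (nat_lit 256) (nat_lit 0) (@Lb.g g4 (@Lb.r r291 (@Lb.r r426 (@Lb.r r1449 (@Lb.r r2472 (@Lb.d (nat_lit 89) (nat_lit 153) (nat_lit 586) (@Lb.t (@Lb.fp (nat_lit 3) t3313)))))))))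
noncomputable def l38871 : Lb := (@Lb.d (nat_lit 134) (nat_lit 394) (nat_lit 274) (@Lb.r r2130 (@Lb.r r603 (@Lb.g g7 (@Lb.g g9 (@Lb.g g4 (@Lb.d (nat_lit 538) (nat_lit 2) (nat_lit 64) (@Lb.r r74 (@Lb.t (@Lb.fp (nat_lit 9) t6787))))))))))
noncomputable def l38872 : Lb := (@Lb.d (nat_lit 2) (nat_lit 358) (nat_lit 352) (@Lb.r r2145 (@Lb.r r2451 (@Lb.r r402 (@Lb.g g7 (@Lb.g g8 (@Lb.d (nat_lit 0) (nat_lit 0) (nat_lit 68) (@Lb.fp (nat_lit 3) t1399))))))))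
noncomputable def l38873 : Lb := (@Lb.r r82 (@Lb.d (nat_lit 136) (nat_lit 2) (nat_lit 392) (@Lb.g g9 (@Lb.g g11 (@Lb.r r148 (@Lb.r r598 (@Lb.r r1433 (@Lb.d (nat_lit 520) (nat_lit 153) (nat_lit 90) (@Lb.fm (nat_lit 3) t3278)))))))))
noncomputable def l38874 : Lb := (@Lb.d (nat_lit 8) (nat_lit 258) (nat_lit 0) (@Lb.g g9 (@Lb.g g6 (@Lb.r r1319 (@Lb.r r24 (@Lb.d (nat_lit 512) (nat_lit 2) (nat_lit 0) (@Lb.fm (nat_lit 3) t441)))))))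
noncomputable def l38875 : Lb := (@Lb.r r263 (@Lb.d (nat_lit 544) (nat_lit 514) (nat_lit 1) (@Lb.g g4 (@Lb.g g9 (@Lb.g g10 (@Lb.r r267 (@Lb.r r134 (@Lb.r r97 (@Lb.d (nat_lit 290) (nat_lit 138) (nat_lit 1) (@Lb.t (@Lb.fp (nat_lit 9) t217)))))))))))
noncomputable def l38876 : Lb := (@Lb.r r322 (@Lb.d (nat_lit 2) (nat_lit 2) (nat_lit 576) (@Lb.g g8 (@Lb.g g9 (@Lb.g g7 (@Lb.r r424 (@Lb.r r106 (@Lb.r r97 (@Lb.d (nat_lit 330) (nat_lit 104) (nat_lit 322) (@Lb.t (@Lb.fp (nat_lit 9) t259)))))))))))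
noncomputable def l38877 : Lb := (@Lb.r r1291 (@Lb.r r24 (@Lb.d (nat_lit 584) (nat_lit 97) (nat_lit 384) (@Lb.fm (nat_lit 1) t1855))))
noncomputable def l38878 : Lb := (@Lb.d (nat_lit 4) (nat_lit 0) (nat_lit 2) (@Lb.g g8 (@Lb.g g9 (@Lb.g g10 (@Lb.g g11 (@Lb.r r683 (@Lb.r r673 (@Lb.r r2214 (@Lb.r r2193 (@Lb.d (nat_lit 580) (nat_lit 130) (nat_lit 394) (@Lb.fm (nat_lit 9) t651)))))))))))
noncomputable def l38879 : Lb := (@Lb.d (nat_lit 2) (nat_lit 258) (nat_lit 0) (@Lb.g g8 (@Lb.g g9 (@Lb.g g6 (@Lb.g g11 (@Lb.r r2664 (@Lb.r r25 (@Lb.d (nat_lit 512) (nat_lit 165) (nat_lit 138) (@Lb.fp (nat_lit 9) t2877)))))))))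
noncomputable def l38880 : Lb := (@Lb.d (nat_lit 96) (nat_lit 421) (nat_lit 41) (@Lb.r r2402 (@Lb.r r2133 (@Lb.r r2391 (@Lb.g g7 (@Lb.g g6 (@Lb.g g5 (@Lb.g g4 (@Lb.d (nat_lit 614) (nat_lit 1) (nat_lit 65) (@Lb.fp (nat_lit 9) t3700))))))))))
noncomputable def l38881 : Lb := (@Lb.r r323 (@Lb.d (nat_lit 138) (nat_lit 512) (nat_lit 18) (@Lb.g g8 (@Lb.g g9 (@Lb.g g10 (@Lb.r r599 (@Lb.r r345 (@Lb.r r1560 (@Lb.d (nat_lit 72) (nat_lit 100) (nat_lit 533) (@Lb.t (@Lb.fm (nat_lit 9) t386)))))))))))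
noncomputable def l38882 : Lb := (@Lb.d (nat_lit 4) (nat_lit 0) (nat_lit 2) (@Lb.g g8 (@Lb.g g9 (@Lb.g g10 (@Lb.g g11 (@Lb.r r683 (@Lb.r r673 (@Lb.r r2214 (@Lb.r r2193 (@Lb.d (nat_lit 584) (nat_lit 128) (nat_lit 394) (@Lb.fm (nat_lit 9) t651)))))))))))
noncomputable def l38883 : Lb := (@Lb.d (nat_lit 0) (nat_lit 514) (nat_lit 4) (@Lb.g g8 (@Lb.g g9 (@Lb.g g10 (@Lb.g g11 (@Lb.r r2691 (@Lb.r r297 (@Lb.r r328 (@Lb.r r614 (@Lb.r r2180 (@Lb.d (nat_lit 5) (nat_lit 89) (nat_lit 137) (@Lb.fm (nat_lit 9) t1115))))))))))))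
noncomputable def l38884 : Lb := (@Lb.d (nat_lit 4) (nat_lit 256) (nat_lit 2) (@Lb.g g8 (@Lb.g g9 (@Lb.g g10 (@Lb.g g11 (@Lb.r r683 (@Lb.r r673 (@Lb.r r2214 (@Lb.r r2193 (@Lb.d (nat_lit 582) (nat_lit 130) (nat_lit 394) (@Lb.fm (nat_lit 9) t651)))))))))))
noncomputable def l38885 : Lb := (@Lb.d (nat_lit 0) (nat_lit 264) (nat_lit 2) (@Lb.g g10 (@Lb.r r1427 (@Lb.r r101 (@Lb.r r1114 (@Lb.d (nat_lit 298) (nat_lit 70) (nat_lit 18) (@Lb.t (@Lb.fm (nat_lit 3) t414))))))))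
noncomputable def l38886 : Lb := (@Lb.r r68 (@Lb.d (nat_lit 8) (nat_lit 1) (nat_lit 74) (@Lb.g g9 (@Lb.g g10 (@Lb.g g11 (@Lb.r r2692 (@Lb.r r679 (@Lb.r r549 (@Lb.d (nat_lit 137) (nat_lit 21) (nat_lit 576) (@Lb.t (@Lb.fm (nat_lit 9) t765)))))))))))
noncomputable def l38887 : Lb := (@Lb.d (nat_lit 401) (nat_lit 678) (nat_lit 165) (@Lb.r r1682 (@Lb.r r579 (@Lb.g g7 (@Lb.g g6 (@Lb.g g5 (@Lb.d (nat_lit 4) (nat_lit 6) (nat_lit 132) (@Lb.t (@Lb.fp (nat_lit 9) t6788)))))))))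
noncomputable def l38888 : Lb := (@Lb.d (nat_lit 272) (nat_lit 513) (nat_lit 72) (@Lb.g g8 (@Lb.g g9 (@Lb.g g11 (@Lb.r r1410 (@Lb.r r579 (@Lb.r r2329 (@Lb.d (nat_lit 393) (nat_lit 98) (nat_lit 361) (@Lb.t (@Lb.fm (nat_lit 9) t4514))))))))))
noncomputable def l38889 : Lb := (@Lb.r r323 (@Lb.d (nat_lit 40) (nat_lit 2) (nat_lit 2) (@Lb.g g9 (@Lb.g g10 (@Lb.r r584 (@Lb.r r299 (@Lb.r r289 (@Lb.d (nat_lit 10) (nat_lit 132) (nat_lit 138) (@Lb.fm (nat_lit 3) t51)))))))))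
noncomputable def l38890 : Lb := (@Lb.d (nat_lit 337) (nat_lit 256) (nat_lit 518) (@Lb.r r24 (@Lb.r r615 (@Lb.r r533 (@Lb.g g7 (@Lb.g g6 (@Lb.d (nat_lit 0) (nat_lit 20) (nat_lit 165) (@Lb.r r145 (@Lb.fm (nat_lit 3) t150)))))))))
noncomputable def l38891 : Lb := (@Lb.r r21 (@Lb.d (nat_lit 130) (nat_lit 0) (nat_lit 130) (@Lb.g g8 (@Lb.g g10 (@Lb.g g11 (@Lb.r r1634 (@Lb.r r1639 (@Lb.r r97 (@Lb.r r264 (@Lb.d (nat_lit 294) (nat_lit 101) (nat_lit 533) (@Lb.t (@Lb.fp (nat_lit 9) t6789))))))))))))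
noncomputable def l38892 : Lb := (@Lb.d (nat_lit 298) (nat_lit 326) (nat_lit 0) (@Lb.r r168 (@Lb.r r90 (@Lb.r r1427 (@Lb.g g9 (@Lb.g g4 (@Lb.d (nat_lit 17) (nat_lit 130) (nat_lit 0) (@Lb.r r291 (@Lb.r r98 (@Lb.fm (nat_lit 3) t6790))))))))))
noncomputable def l38893 : Lb := (@Lb.d (nat_lit 594) (nat_lit 554) (nat_lit 0) (@Lb.r r1561 (@Lb.r r599 (@Lb.r r390 (@Lb.r r1096 (@Lb.g g7 (@Lb.g g6 (@Lb.g g5 (@Lb.d (nat_lit 68) (nat_lit 0) (nat_lit 69) (@Lb.t (@Lb.fm (nat_lit 9) t3248)))))))))))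
noncomputable def l38894 : Lb := (@Lb.d (nat_lit 36) (nat_lit 516) (nat_lit 128) (@Lb.g g8 (@Lb.g g9 (@Lb.g g10 (@Lb.g g11 (@Lb.r r1443 (@Lb.r r392 (@Lb.r r2138 (@Lb.r r1705 (@Lb.r r1060 (@Lb.d (nat_lit 273) (nat_lit 104) (nat_lit 618) (@Lb.fp (nat_lit 9) t535))))))))))))
noncomputable def l38895 : Lb := (@Lb.d (nat_lit 9) (nat_lit 258) (nat_lit 40) (@Lb.g g8 (@Lb.g g9 (@Lb.g g6 (@Lb.g g11 (@Lb.r r579 (@Lb.d (nat_lit 0) (nat_lit 0) (nat_lit 154) (@Lb.fp (nat_lit 9) t2))))))))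
noncomputable def l38896 : Lb := (@Lb.d (nat_lit 0) (nat_lit 0) (nat_lit 9) (@Lb.g g4 (@Lb.g g10 (@Lb.g g11 (@Lb.r r2691 (@Lb.r r1158 (@Lb.d (nat_lit 130) (nat_lit 0) (nat_lit 424) (@Lb.t (@Lb.fp (nat_lit 9) t282)))))))))
noncomputable def l38897 : Lb := (@Lb.d (nat_lit 130) (nat_lit 2) (nat_lit 130) (@Lb.g g8 (@Lb.g g9 (@Lb.g g10 (@Lb.g g11 (@Lb.r r2403 (@Lb.r r386 (@Lb.r r1625 (@Lb.r r2580 (@Lb.d (nat_lit 385) (nat_lit 98) (nat_lit 260) (@Lb.fm (nat_lit 9) t2420)))))))))))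
noncomputable def l38898 : Lb := (@Lb.d (nat_lit 32) (nat_lit 514) (nat_lit 73) (@Lb.g g8 (@Lb.g g9 (@Lb.g g10 (@Lb.g g11 (@Lb.r r1194 (@Lb.r r549 (@Lb.r r615 (@Lb.r r2577 (@Lb.r r2180 (@Lb.d (nat_lit 394) (nat_lit 2) (nat_lit 150) (@Lb.fm (nat_lit 9) t68))))))))))))
noncomputable def l38899 : Lb := (@Lb.r r21 (@Lb.d (nat_lit 41) (nat_lit 512) (nat_lit 73) (@Lb.g g8 (@Lb.g g10 (@Lb.g g11 (@Lb.r r2721 (@Lb.r r2667 (@Lb.r r138 (@Lb.r r1348 (@Lb.d (nat_lit 42) (nat_lit 128) (nat_lit 106) (@Lb.t (@Lb.fp (nat_lit 9) t125))))))))))))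
noncomputable def l38900 : Lb := (@Lb.d (nat_lit 0) (nat_lit 0) (nat_lit 66) (@Lb.g g4 (@Lb.g g10 (@Lb.g g11 (@Lb.r r1547 (@Lb.r r2438 (@Lb.d (nat_lit 674) (nat_lit 0) (nat_lit 409) (@Lb.t (@Lb.fp (nat_lit 9) t1165)))))))))
noncomputable def l38901 : Lb := (@Lb.d (nat_lit 130) (nat_lit 1) (nat_lit 66) (@Lb.g g8 (@Lb.g g9 (@Lb.g g10 (@Lb.g g11 (@Lb.r r618 (@Lb.r r612 (@Lb.r r1703 (@Lb.r r597 (@Lb.r r36 (@Lb.d (nat_lit 152) (nat_lit 137) (nat_lit 514) (@Lb.fm (nat_lit 9) t952))))))))))))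
noncomputable def l38902 : Lb := (@Lb.d (nat_lit 2) (nat_lit 516) (nat_lit 0) (@Lb.g g8 (@Lb.g g9 (@Lb.g g10 (@Lb.r r683 (@Lb.r r2666 (@Lb.r r1060 (@Lb.r r37 (@Lb.d (nat_lit 617) (nat_lit 65) (nat_lit 9) (@Lb.t (@Lb.fm (nat_lit 9) t1877)))))))))))
noncomputable def l38903 : Lb := (@Lb.d (nat_lit 6) (nat_lit 32) (nat_lit 136) (@Lb.g g4 (@Lb.g g11 (@Lb.r r409 (@Lb.r r2458 (@Lb.r r2407 (@Lb.d (nat_lit 362) (nat_lit 138) (nat_lit 36) (@Lb.fm (nat_lit 3) t2238))))))))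
noncomputable def l38904 : Lb := (@Lb.d (nat_lit 681) (nat_lit 677) (nat_lit 260) (@Lb.r r1705 (@Lb.r r683 (@Lb.r r2666 (@Lb.r r1380 (@Lb.g g7 (@Lb.g g5 (@Lb.d (nat_lit 68) (nat_lit 5) (nat_lit 128) (@Lb.fm (nat_lit 3) t1877)))))))))
noncomputable def l38905 : Lb := (@Lb.d (nat_lit 612) (nat_lit 593) (nat_lit 614) (@Lb.r r289 (@Lb.r r2374 (@Lb.r r1188 (@Lb.r r2691 (@Lb.g g7 (@Lb.g g6 (@Lb.g g5 (@Lb.d (nat_lit 0) (nat_lit 0) (nat_lit 134) (@Lb.t (@Lb.fp (nat_lit 9) t6791)))))))))))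
noncomputable def l38906 : Lb := (@Lb.d (nat_lit 130) (nat_lit 258) (nat_lit 66) (@Lb.g g8 (@Lb.g g9 (@Lb.g g10 (@Lb.g g11 (@Lb.r r2666 (@Lb.r r612 (@Lb.r r1703 (@Lb.r r597 (@Lb.r r2084 (@Lb.d (nat_lit 665) (nat_lit 137) (nat_lit 34) (@Lb.fm (nat_lit 9) t956))))))))))))
noncomputable def l38907 : Lb := (@Lb.r r263 (@Lb.d (nat_lit 0) (nat_lit 4) (nat_lit 0) (@Lb.g g8 (@Lb.g g9 (@Lb.g g10 (@Lb.r r675 (@Lb.r r2184 (@Lb.r r1610 (@Lb.r r37 (@Lb.d (nat_lit 617) (nat_lit 90) (nat_lit 660) (@Lb.t (@Lb.fp (nat_lit 9) t1846))))))))))))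
noncomputable def l38908 : Lb := (@Lb.d (nat_lit 2) (nat_lit 512) (nat_lit 0) (@Lb.g g8 (@Lb.r r273 (@Lb.r r2595 (@Lb.r r2178 (@Lb.r r529 (@Lb.d (nat_lit 322) (nat_lit 10) (nat_lit 580) (@Lb.t (@Lb.fp (nat_lit 3) t271)))))))))
noncomputable def l38909 : Lb := (@Lb.d (nat_lit 36) (nat_lit 37) (nat_lit 518) (@Lb.r r101 (@Lb.r r386 (@Lb.g g11 (@Lb.g g6 (@Lb.g g5 (@Lb.g g8 (@Lb.d (nat_lit 5) (nat_lit 1) (nat_lit 129) (@Lb.fp (nat_lit 9) t842)))))))))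
noncomputable def l38910 : Lb := (@Lb.d (nat_lit 1) (nat_lit 514) (nat_lit 137) (@Lb.g g8 (@Lb.g g9 (@Lb.g g10 (@Lb.g g11 (@Lb.r r610 (@Lb.r r579 (@Lb.r r1129 (@Lb.r r36 (@Lb.d (nat_lit 148) (nat_lit 1) (nat_lit 324) (@Lb.fp (nat_lit 9) t61)))))))))))
noncomputable def l38911 : Lb := (@Lb.d (nat_lit 130) (nat_lit 0) (nat_lit 0) (@Lb.g g8 (@Lb.r r551 (@Lb.r r402 (@Lb.r r609 (@Lb.r r104 (@Lb.d (nat_lit 36) (nat_lit 64) (nat_lit 85) (@Lb.t (@Lb.fp (nat_lit 3) t479)))))))))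
noncomputable def l38912 : Lb := (@Lb.d (nat_lit 548) (nat_lit 357) (nat_lit 550) (@Lb.r r1125 (@Lb.r r386 (@Lb.g g11 (@Lb.g g6 (@Lb.g g5 (@Lb.g g8 (@Lb.d (nat_lit 9) (nat_lit 0) (nat_lit 129) (@Lb.fp (nat_lit 9) t394)))))))))
noncomputable def l38913 : Lb := (@Lb.d (nat_lit 617) (nat_lit 152) (nat_lit 321) (@Lb.r r1623 (@Lb.r r2472 (@Lb.r r410 (@Lb.r r613 (@Lb.g g7 (@Lb.d (nat_lit 64) (nat_lit 0) (nat_lit 68) (@Lb.t (@Lb.fm (nat_lit 3) t210)))))))))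
noncomputable def l38914 : Lb := (@Lb.d (nat_lit 5) (nat_lit 512) (nat_lit 66) (@Lb.g g4 (@Lb.g g10 (@Lb.g g7 (@Lb.r r386 (@Lb.d (nat_lit 6) (nat_lit 65) (nat_lit 9) (@Lb.t (@Lb.fp (nat_lit 9) t2))))))))
noncomputable def l38915 : Lb := (@Lb.d (nat_lit 0) (nat_lit 676) (nat_lit 518) (@Lb.r r68 (@Lb.r r602 (@Lb.r r584 (@Lb.r r297 (@Lb.g g11 (@Lb.g g6 (@Lb.g g5 (@Lb.g g4 (@Lb.d (nat_lit 0) (nat_lit 1) (nat_lit 128) (@Lb.fm (nat_lit 9) t1919)))))))))))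
noncomputable def l38916 : Lb := (@Lb.d (nat_lit 2) (nat_lit 258) (nat_lit 130) (@Lb.g g8 (@Lb.g g9 (@Lb.g g10 (@Lb.g g11 (@Lb.r r169 (@Lb.r r296 (@Lb.r r391 (@Lb.r r386 (@Lb.r r132 (@Lb.d (nat_lit 2) (nat_lit 10) (nat_lit 82) (@Lb.fm (nat_lit 9) t590))))))))))))
noncomputable def l38917 : Lb := (@Lb.d (nat_lit 2) (nat_lit 521) (nat_lit 6) (@Lb.g g8 (@Lb.g g9 (@Lb.g g10 (@Lb.g g11 (@Lb.r r2722 (@Lb.r r548 (@Lb.r r661 (@Lb.r r535 (@Lb.r r2084 (@Lb.d (nat_lit 2) (nat_lit 10) (nat_lit 329) (@Lb.fp (nat_lit 9) t739))))))))))))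
noncomputable def l38918 : Lb := (@Lb.d (nat_lit 137) (nat_lit 288) (nat_lit 2) (@Lb.g g8 (@Lb.g g5 (@Lb.g g10 (@Lb.r r1434 (@Lb.r r583 (@Lb.r r392 (@Lb.d (nat_lit 342) (nat_lit 129) (nat_lit 586) (@Lb.t (@Lb.fm (nat_lit 9) t445))))))))))
noncomputable def l38919 : Lb := (@Lb.d (nat_lit 292) (nat_lit 262) (nat_lit 153) (@Lb.r r260 (@Lb.r r1317 (@Lb.r r347 (@Lb.r r276 (@Lb.g g7 (@Lb.g g6 (@Lb.g g5 (@Lb.g g4 (@Lb.d (nat_lit 2) (nat_lit 18) (nat_lit 98) (@Lb.fm (nat_lit 9) t1038)))))))))))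
noncomputable def l38920 : Lb := (@Lb.d (nat_lit 9) (nat_lit 1) (nat_lit 66) (@Lb.g g8 (@Lb.g g9 (@Lb.g g10 (@Lb.g g7 (@Lb.r r386 (@Lb.r r97 (@Lb.d (nat_lit 2) (nat_lit 138) (nat_lit 9) (@Lb.fm (nat_lit 9) t126)))))))))
noncomputable def l38921 : Lb := (@Lb.r r322 (@Lb.d (nat_lit 34) (nat_lit 520) (nat_lit 324) (@Lb.g g8 (@Lb.g g9 (@Lb.g g11 (@Lb.r r582 (@Lb.r r2712 (@Lb.r r277 (@Lb.d (nat_lit 644) (nat_lit 74) (nat_lit 82) (@Lb.t (@Lb.fp (nat_lit 9) t2604)))))))))))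
noncomputable def l38922 : Lb := (@Lb.d (nat_lit 597) (nat_lit 272) (nat_lit 294) (@Lb.r r2657 (@Lb.r r1430 (@Lb.r r555 (@Lb.g g7 (@Lb.g g5 (@Lb.g g4 (@Lb.d (nat_lit 1) (nat_lit 18) (nat_lit 64) (@Lb.r r98 (@Lb.t (@Lb.fm (nat_lit 9) t40)))))))))))
noncomputable def l38923 : Lb := (@Lb.d (nat_lit 32) (nat_lit 0) (nat_lit 64) (@Lb.g g10 (@Lb.g g11 (@Lb.r r2711 (@Lb.r r1384 (@Lb.r r361 (@Lb.r r1622 (@Lb.d (nat_lit 0) (nat_lit 101) (nat_lit 544) (@Lb.fp (nat_lit 3) t553)))))))))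
noncomputable def l38924 : Lb := (@Lb.d (nat_lit 616) (nat_lit 169) (nat_lit 86) (@Lb.r r2644 (@Lb.r r1418 (@Lb.r r1367 (@Lb.g g7 (@Lb.g g6 (@Lb.g g5 (@Lb.g g4 (@Lb.d (nat_lit 66) (nat_lit 129) (nat_lit 129) (@Lb.fm (nat_lit 9) t6792))))))))))
noncomputable def l38925 : Lb := (@Lb.d (nat_lit 128) (nat_lit 0) (nat_lit 1) (@Lb.g g8 (@Lb.g g10 (@Lb.r r330 (@Lb.r r423 (@Lb.r r289 (@Lb.r r104 (@Lb.d (nat_lit 358) (nat_lit 65) (nat_lit 576) (@Lb.fm (nat_lit 3) t2645)))))))))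
noncomputable def l38926 : Lb := (@Lb.d (nat_lit 0) (nat_lit 16) (nat_lit 585) (@Lb.g g8 (@Lb.g g9 (@Lb.g g10 (@Lb.g g7 (@Lb.r r418 (@Lb.r r664 (@Lb.r r421 (@Lb.d (nat_lit 101) (nat_lit 128) (nat_lit 585) (@Lb.fp (nat_lit 9) t6793))))))))))
noncomputable def l38927 : Lb := (@Lb.d (nat_lit 2) (nat_lit 538) (nat_lit 585) (@Lb.g g8 (@Lb.g g9 (@Lb.g g10 (@Lb.g g11 (@Lb.r r132 (@Lb.r r582 (@Lb.r r1177 (@Lb.r r132 (@Lb.d (nat_lit 645) (nat_lit 82) (nat_lit 133) (@Lb.fp (nat_lit 9) t6794)))))))))))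
noncomputable def l38928 : Lb := (@Lb.d (nat_lit 2) (nat_lit 256) (nat_lit 9) (@Lb.g g8 (@Lb.g g10 (@Lb.r r2465 (@Lb.r r595 (@Lb.r r386 (@Lb.r r2120 (@Lb.d (nat_lit 529) (nat_lit 162) (nat_lit 641) (@Lb.fm (nat_lit 3) t2597)))))))))
noncomputable def l38929 : Lb := (@Lb.d (nat_lit 100) (nat_lit 385) (nat_lit 553) (@Lb.r r597 (@Lb.r r2370 (@Lb.r r1367 (@Lb.g g7 (@Lb.g g6 (@Lb.g g5 (@Lb.g g4 (@Lb.d (nat_lit 614) (nat_lit 38) (nat_lit 134) (@Lb.fp (nat_lit 9) t5354))))))))))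
noncomputable def l38930 : Lb := (@Lb.d (nat_lit 132) (nat_lit 272) (nat_lit 73) (@Lb.g g8 (@Lb.g g9 (@Lb.g g10 (@Lb.g g11 (@Lb.r r2603 (@Lb.r r386 (@Lb.r r40 (@Lb.r r1129 (@Lb.d (nat_lit 641) (nat_lit 73) (nat_lit 292) (@Lb.fp (nat_lit 9) t6795)))))))))))
noncomputable def l38931 : Lb := (@Lb.d (nat_lit 2) (nat_lit 0) (nat_lit 0) (@Lb.g g8 (@Lb.g g9 (@Lb.g g6 (@Lb.r r1608 (@Lb.d (nat_lit 401) (nat_lit 0) (nat_lit 666) (@Lb.t (@Lb.fm (nat_lit 9) t2149))))))))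
noncomputable def l38932 : Lb := (@Lb.g g8 (@Lb.g g6 (@Lb.r r277 (@Lb.r r363 (@Lb.r r356 (@Lb.r r154 (@Lb.d (nat_lit 96) (nat_lit 581) (nat_lit 352) (@Lb.fm (nat_lit 3) t1080))))))))
noncomputable def l38933 : Lb := (@Lb.d (nat_lit 320) (nat_lit 657) (nat_lit 533) (@Lb.r r2371 (@Lb.r r658 (@Lb.r r85 (@Lb.g g7 (@Lb.g g6 (@Lb.g g5 (@Lb.g g4 (@Lb.d (nat_lit 614) (nat_lit 4) (nat_lit 129) (@Lb.fm (nat_lit 9) t6796))))))))))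
noncomputable def l38934 : Lb := (@Lb.d (nat_lit 132) (nat_lit 521) (nat_lit 129) (@Lb.g g8 (@Lb.g g9 (@Lb.g g10 (@Lb.g g11 (@Lb.r r618 (@Lb.r r612 (@Lb.r r1319 (@Lb.r r405 (@Lb.d (nat_lit 101) (nat_lit 148) (nat_lit 409) (@Lb.fp (nat_lit 9) t5663)))))))))))
noncomputable def l38935 : Lb := (@Lb.r r529 (@Lb.r r659 (@Lb.r r674 (@Lb.r r1105 (@Lb.r r36 (@Lb.d (nat_lit 4) (nat_lit 1) (nat_lit 16) (@Lb.fp (nat_lit 1) t4453)))))))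
noncomputable def l38936 : Lb := (@Lb.d (nat_lit 160) (nat_lit 0) (nat_lit 129) (@Lb.g g10 (@Lb.g g11 (@Lb.r r2728 (@Lb.r r1449 (@Lb.r r1367 (@Lb.r r602 (@Lb.d (nat_lit 681) (nat_lit 98) (nat_lit 392) (@Lb.fm (nat_lit 3) t4570)))))))))
noncomputable def l38937 : Lb := (@Lb.d (nat_lit 0) (nat_lit 2) (nat_lit 2) (@Lb.g g9 (@Lb.g g10 (@Lb.r r679 (@Lb.r r1685 (@Lb.r r1124 (@Lb.r r2122 (@Lb.d (nat_lit 161) (nat_lit 100) (nat_lit 404) (@Lb.fp (nat_lit 3) t6797)))))))))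
noncomputable def l38938 : Lb := (@Lb.d (nat_lit 32) (nat_lit 256) (nat_lit 73) (@Lb.g g10 (@Lb.g g11 (@Lb.r r289 (@Lb.r r1380 (@Lb.r r2715 (@Lb.r r2634 (@Lb.d (nat_lit 338) (nat_lit 10) (nat_lit 328) (@Lb.fm (nat_lit 3) t167)))))))))
noncomputable def l38939 : Lb := (@Lb.r r323 (@Lb.d (nat_lit 144) (nat_lit 585) (nat_lit 2) (@Lb.g g8 (@Lb.g g9 (@Lb.g g10 (@Lb.r r1623 (@Lb.r r2394 (@Lb.r r2132 (@Lb.d (nat_lit 521) (nat_lit 165) (nat_lit 534) (@Lb.t (@Lb.fp (nat_lit 9) t580)))))))))))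
noncomputable def l38940 : Lb := (@Lb.d (nat_lit 10) (nat_lit 257) (nat_lit 130) (@Lb.g g8 (@Lb.g g9 (@Lb.g g10 (@Lb.g g11 (@Lb.r r392 (@Lb.r r2663 (@Lb.r r358 (@Lb.r r145 (@Lb.r r2068 (@Lb.d (nat_lit 610) (nat_lit 160) (nat_lit 132) (@Lb.fp (nat_lit 9) t590))))))))))))
noncomputable def l38941 : Lb := (@Lb.g g8 (@Lb.d (nat_lit 0) (nat_lit 522) (nat_lit 2) (@Lb.t (@Lb.fp (nat_lit 3) t21))))
noncomputable def l38942 : Lb := (@Lb.d (nat_lit 10) (nat_lit 257) (nat_lit 130) (@Lb.g g8 (@Lb.g g9 (@Lb.g g10 (@Lb.g g11 (@Lb.r r392 (@Lb.r r2663 (@Lb.r r358 (@Lb.r r145 (@Lb.r r2068 (@Lb.d (nat_lit 614) (nat_lit 161) (nat_lit 132) (@Lb.fp (nat_lit 9) t1614))))))))))))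
noncomputable def l38943 : Lb := (@Lb.d (nat_lit 128) (nat_lit 514) (nat_lit 0) (@Lb.g g8 (@Lb.g g9 (@Lb.r r1303 (@Lb.r r162 (@Lb.r r145 (@Lb.r r2664 (@Lb.d (nat_lit 358) (nat_lit 26) (nat_lit 426) (@Lb.fm (nat_lit 3) t334)))))))))
noncomputable def l38944 : Lb := (@Lb.d (nat_lit 128) (nat_lit 257) (nat_lit 64) (@Lb.g g9 (@Lb.g g11 (@Lb.r r281 (@Lb.r r344 (@Lb.r r679 (@Lb.r r134 (@Lb.d (nat_lit 0) (nat_lit 21) (nat_lit 80) (@Lb.fp (nat_lit 3) t40)))))))))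
noncomputable def l38945 : Lb := (@Lb.d (nat_lit 41) (nat_lit 257) (nat_lit 129) (@Lb.g g8 (@Lb.g g9 (@Lb.g g10 (@Lb.g g11 (@Lb.r r392 (@Lb.r r2647 (@Lb.r r326 (@Lb.r r145 (@Lb.r r2068 (@Lb.d (nat_lit 597) (nat_lit 145) (nat_lit 69) (@Lb.fp (nat_lit 9) t150))))))))))))
noncomputable def l38946 : Lb := (@Lb.d (nat_lit 0) (nat_lit 522) (nat_lit 128) (@Lb.g g8 (@Lb.g g9 (@Lb.g g11 (@Lb.r r1315 (@Lb.r r1414 (@Lb.r r2648 (@Lb.r r1317 (@Lb.d (nat_lit 68) (nat_lit 97) (nat_lit 384) (@Lb.t (@Lb.fp (nat_lit 9) t825)))))))))))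
noncomputable def l38947 : Lb := (@Lb.d (nat_lit 612) (nat_lit 385) (nat_lit 592) (@Lb.r r2394 (@Lb.r r2392 (@Lb.r r2085 (@Lb.r r2707 (@Lb.g g7 (@Lb.g g6 (@Lb.g g4 (@Lb.d (nat_lit 0) (nat_lit 4) (nat_lit 65) (@Lb.t (@Lb.fm (nat_lit 9) t6341)))))))))))
noncomputable def l38948 : Lb := (@Lb.d (nat_lit 68) (nat_lit 402) (nat_lit 586) (@Lb.r r1048 (@Lb.r r2145 (@Lb.r r2390 (@Lb.r r2691 (@Lb.g g7 (@Lb.g g6 (@Lb.g g4 (@Lb.d (nat_lit 97) (nat_lit 0) (nat_lit 65) (@Lb.t (@Lb.fm (nat_lit 9) t981)))))))))))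
noncomputable def l38949 : Lb := (@Lb.d (nat_lit 0) (nat_lit 528) (nat_lit 648) (@Lb.g g8 (@Lb.g g11 (@Lb.r r2130 (@Lb.r r2085 (@Lb.r r24 (@Lb.d (nat_lit 96) (nat_lit 0) (nat_lit 530) (@Lb.fm (nat_lit 3) t284))))))))
noncomputable def l38950 : Lb := (@Lb.d (nat_lit 68) (nat_lit 274) (nat_lit 74) (@Lb.r r24 (@Lb.r r2145 (@Lb.r r2390 (@Lb.r r2691 (@Lb.g g7 (@Lb.g g6 (@Lb.g g4 (@Lb.d (nat_lit 1) (nat_lit 0) (nat_lit 65) (@Lb.t (@Lb.fm (nat_lit 9) t803)))))))))))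
noncomputable def l38951 : Lb := (@Lb.d (nat_lit 2) (nat_lit 578) (nat_lit 130) (@Lb.g g8 (@Lb.g g9 (@Lb.g g10 (@Lb.g g11 (@Lb.r r2475 (@Lb.r r420 (@Lb.r r102 (@Lb.r r132 (@Lb.d (nat_lit 290) (nat_lit 65) (nat_lit 137) (@Lb.fp (nat_lit 9) t1242)))))))))))
noncomputable def l38952 : Lb := (@Lb.r r323 (@Lb.d (nat_lit 2) (nat_lit 514) (nat_lit 8) (@Lb.g g8 (@Lb.g g9 (@Lb.g g10 (@Lb.r r553 (@Lb.r r299 (@Lb.r r420 (@Lb.r r102 (@Lb.d (nat_lit 538) (nat_lit 10) (nat_lit 89) (@Lb.t (@Lb.fp (nat_lit 9) t126))))))))))))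
noncomputable def l38953 : Lb := (@Lb.d (nat_lit 0) (nat_lit 288) (nat_lit 9) (@Lb.g g8 (@Lb.g g10 (@Lb.g g7 (@Lb.r r2457 (@Lb.r r2394 (@Lb.r r152 (@Lb.d (nat_lit 169) (nat_lit 2) (nat_lit 298) (@Lb.t (@Lb.fm (nat_lit 9) t222))))))))))
noncomputable def l38954 : Lb := (@Lb.d (nat_lit 320) (nat_lit 544) (nat_lit 384) (@Lb.r r289 (@Lb.r r535 (@Lb.r r356 (@Lb.r r2698 (@Lb.g g7 (@Lb.g g6 (@Lb.d (nat_lit 0) (nat_lit 0) (nat_lit 134) (@Lb.fp (nat_lit 3) t482)))))))))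
noncomputable def l38955 : Lb := (@Lb.d (nat_lit 6) (nat_lit 256) (nat_lit 130) (@Lb.g g4 (@Lb.g g10 (@Lb.g g11 (@Lb.r r2567 (@Lb.r r386 (@Lb.d (nat_lit 128) (nat_lit 69) (nat_lit 330) (@Lb.t (@Lb.fp (nat_lit 9) t1941)))))))))
noncomputable def l38956 : Lb := (@Lb.d (nat_lit 640) (nat_lit 528) (nat_lit 322) (@Lb.r r289 (@Lb.r r279 (@Lb.r r584 (@Lb.g g10 (@Lb.d (nat_lit 32) (nat_lit 4) (nat_lit 18) (@Lb.r r387 (@Lb.t (@Lb.fp (nat_lit 3) t1252)))))))))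
noncomputable def l38957 : Lb := (@Lb.d (nat_lit 641) (nat_lit 521) (nat_lit 40) (@Lb.g g4 (@Lb.g g9 (@Lb.g g6 (@Lb.r r1435 (@Lb.r r1637 (@Lb.d (nat_lit 406) (nat_lit 20) (nat_lit 410) (@Lb.t (@Lb.fp (nat_lit 9) t199)))))))))
noncomputable def l38958 : Lb := (@Lb.d (nat_lit 2) (nat_lit 289) (nat_lit 130) (@Lb.g g8 (@Lb.g g9 (@Lb.g g10 (@Lb.g g11 (@Lb.r r387 (@Lb.r r1188 (@Lb.r r2438 (@Lb.r r1633 (@Lb.d (nat_lit 338) (nat_lit 25) (nat_lit 340) (@Lb.fp (nat_lit 9) t1430)))))))))))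
noncomputable def l38959 : Lb := (@Lb.d (nat_lit 130) (nat_lit 0) (nat_lit 0) (@Lb.g g8 (@Lb.r r263 (@Lb.r r2664 (@Lb.r r89 (@Lb.r r166 (@Lb.d (nat_lit 0) (nat_lit 90) (nat_lit 290) (@Lb.t (@Lb.fp (nat_lit 3) t2888)))))))))
noncomputable def l38960 : Lb := (@Lb.d (nat_lit 2) (nat_lit 256) (nat_lit 0) (@Lb.g g8 (@Lb.g g9 (@Lb.r r2649 (@Lb.d (nat_lit 361) (nat_lit 2) (nat_lit 298) (@Lb.fm (nat_lit 3) t1464))))))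
noncomputable def l38961 : Lb := (@Lb.r r21 (@Lb.d (nat_lit 1) (nat_lit 512) (nat_lit 2) (@Lb.g g8 (@Lb.g g10 (@Lb.g g11 (@Lb.r r2379 (@Lb.r r386 (@Lb.r r149 (@Lb.r r72 (@Lb.d (nat_lit 546) (nat_lit 5) (nat_lit 68) (@Lb.t (@Lb.fm (nat_lit 9) t61))))))))))))
noncomputable def l38962 : Lb := (@Lb.d (nat_lit 10) (nat_lit 520) (nat_lit 130) (@Lb.g g8 (@Lb.g g10 (@Lb.g g11 (@Lb.r r353 (@Lb.r r407 (@Lb.r r612 (@Lb.r r154 (@Lb.d (nat_lit 264) (nat_lit 2) (nat_lit 37) (@Lb.t (@Lb.fm (nat_lit 9) t947)))))))))))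
noncomputable def l38963 : Lb := (@Lb.d (nat_lit 8) (nat_lit 2) (nat_lit 130) (@Lb.g g9 (@Lb.g g10 (@Lb.g g11 (@Lb.r r614 (@Lb.r r404 (@Lb.r r619 (@Lb.r r537 (@Lb.d (nat_lit 616) (nat_lit 98) (nat_lit 38) (@Lb.t (@Lb.fp (nat_lit 9) t6798)))))))))))
noncomputable def l38964 : Lb := (@Lb.d (nat_lit 8) (nat_lit 514) (nat_lit 130) (@Lb.g g9 (@Lb.g g10 (@Lb.g g11 (@Lb.r r614 (@Lb.r r404 (@Lb.r r619 (@Lb.r r537 (@Lb.d (nat_lit 68) (nat_lit 104) (nat_lit 22) (@Lb.t (@Lb.fp (nat_lit 9) t822)))))))))))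
noncomputable def l38965 : Lb := (@Lb.r r263 (@Lb.d (nat_lit 26) (nat_lit 512) (nat_lit 0) (@Lb.g g8 (@Lb.g g10 (@Lb.r r597 (@Lb.r r1555 (@Lb.r r1602 (@Lb.r r2180 (@Lb.d (nat_lit 546) (nat_lit 10) (nat_lit 657) (@Lb.fp (nat_lit 3) t50))))))))))
noncomputable def l38966 : Lb := (@Lb.d (nat_lit 10) (nat_lit 678) (nat_lit 0) (@Lb.g g8 (@Lb.g g9 (@Lb.r r1414 (@Lb.r r2120 (@Lb.d (nat_lit 582) (nat_lit 74) (nat_lit 2) (@Lb.fm (nat_lit 3) t145)))))))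
noncomputable def l38967 : Lb := (@Lb.d (nat_lit 129) (nat_lit 258) (nat_lit 132) (@Lb.g g8 (@Lb.g g9 (@Lb.g g10 (@Lb.g g11 (@Lb.r r1675 (@Lb.r r2405 (@Lb.r r1178 (@Lb.r r1156 (@Lb.d (nat_lit 344) (nat_lit 25) (nat_lit 406) (@Lb.fm (nat_lit 9) t68)))))))))))
noncomputable def l38968 : Lb := (@Lb.r r263 (@Lb.d (nat_lit 16) (nat_lit 514) (nat_lit 0) (@Lb.g g8 (@Lb.g g9 (@Lb.g g10 (@Lb.r r1675 (@Lb.r r1602 (@Lb.r r2472 (@Lb.r r25 (@Lb.d (nat_lit 522) (nat_lit 66) (nat_lit 665) (@Lb.t (@Lb.fm (nat_lit 9) t128))))))))))))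
noncomputable def l38969 : Lb := (@Lb.d (nat_lit 102) (nat_lit 1) (nat_lit 517) (@Lb.r r1060 (@Lb.r r97 (@Lb.r r618 (@Lb.g g11 (@Lb.g g6 (@Lb.g g4 (@Lb.d (nat_lit 128) (nat_lit 32) (nat_lit 390) (@Lb.r r25 (@Lb.t (@Lb.fp (nat_lit 9) t6799)))))))))))
noncomputable def l38970 : Lb := (@Lb.r r82 (@Lb.d (nat_lit 133) (nat_lit 256) (nat_lit 128) (@Lb.g g8 (@Lb.g g9 (@Lb.g g11 (@Lb.r r1643 (@Lb.r r662 (@Lb.r r425 (@Lb.r r1636 (@Lb.d (nat_lit 522) (nat_lit 165) (nat_lit 682) (@Lb.t (@Lb.fp (nat_lit 9) t6800))))))))))))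
noncomputable def l38971 : Lb := (@Lb.d (nat_lit 0) (nat_lit 0) (nat_lit 133) (@Lb.g g10 (@Lb.g g11 (@Lb.r r1443 (@Lb.r r2402 (@Lb.d (nat_lit 0) (nat_lit 105) (nat_lit 261) (@Lb.fm (nat_lit 3) t371)))))))
noncomputable def l38972 : Lb := (@Lb.d (nat_lit 409) (nat_lit 261) (nat_lit 273) (@Lb.r r1636 (@Lb.r r613 (@Lb.r r1370 (@Lb.g g7 (@Lb.g g4 (@Lb.d (nat_lit 69) (nat_lit 0) (nat_lit 576) (@Lb.fp (nat_lit 3) t386))))))))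
noncomputable def l38973 : Lb := (@Lb.d (nat_lit 0) (nat_lit 8) (nat_lit 66) (@Lb.g g10 (@Lb.g g11 (@Lb.r r387 (@Lb.d (nat_lit 608) (nat_lit 2) (nat_lit 665) (@Lb.fm (nat_lit 3) t171))))))
noncomputable def l38974 : Lb := (@Lb.d (nat_lit 0) (nat_lit 520) (nat_lit 130) (@Lb.g g10 (@Lb.g g11 (@Lb.r r387 (@Lb.d (nat_lit 0) (nat_lit 161) (nat_lit 258) (@Lb.fm (nat_lit 3) t369))))))
noncomputable def l38975 : Lb := (@Lb.r r21 (@Lb.r r70 (@Lb.d (nat_lit 389) (nat_lit 288) (nat_lit 64) (@Lb.g g8 (@Lb.g g11 (@Lb.r r2341 (@Lb.r r2391 (@Lb.r r2662 (@Lb.d (nat_lit 42) (nat_lit 128) (nat_lit 102) (@Lb.fp (nat_lit 3) t601))))))))))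
noncomputable def l38976 : Lb := (@Lb.r r82 (@Lb.d (nat_lit 2) (nat_lit 258) (nat_lit 0) (@Lb.g g8 (@Lb.g g9 (@Lb.r r2649 (@Lb.r r595 (@Lb.r r98 (@Lb.r r24 (@Lb.d (nat_lit 134) (nat_lit 16) (nat_lit 352) (@Lb.fm (nat_lit 3) t2638))))))))))
noncomputable def l38977 : Lb := (@Lb.d (nat_lit 388) (nat_lit 70) (nat_lit 513) (@Lb.r r2341 (@Lb.r r1624 (@Lb.r r2470 (@Lb.g g11 (@Lb.g g6 (@Lb.g g5 (@Lb.d (nat_lit 4) (nat_lit 6) (nat_lit 130) (@Lb.t (@Lb.fp (nat_lit 9) t6534))))))))))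
noncomputable def l38978 : Lb := (@Lb.r r90 (@Lb.r r283 (@Lb.d (nat_lit 36) (nat_lit 672) (nat_lit 0) (@Lb.g g8 (@Lb.g g9 (@Lb.r r1555 (@Lb.r r70 (@Lb.r r1668 (@Lb.d (nat_lit 418) (nat_lit 4) (nat_lit 676) (@Lb.fp (nat_lit 3) t6801))))))))))
noncomputable def l38979 : Lb := (@Lb.r r644 (@Lb.r r423 (@Lb.r r1446 (@Lb.r r353 (@Lb.r r1044 (@Lb.d (nat_lit 1) (nat_lit 386) (nat_lit 17) (@Lb.fp (nat_lit 1) t6802)))))))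
noncomputable def l38980 : Lb := (@Lb.d (nat_lit 4) (nat_lit 1) (nat_lit 0) (@Lb.g g5 (@Lb.r r24 (@Lb.d (nat_lit 320) (nat_lit 6) (nat_lit 577) (@Lb.t (@Lb.fp (nat_lit 3) t1021))))))
noncomputable def l38981 : Lb := (@Lb.d (nat_lit 146) (nat_lit 4) (nat_lit 6) (@Lb.g g8 (@Lb.g g9 (@Lb.g g10 (@Lb.g g11 (@Lb.r r683 (@Lb.r r1689 (@Lb.r r342 (@Lb.r r1540 (@Lb.d (nat_lit 661) (nat_lit 133) (nat_lit 658) (@Lb.fm (nat_lit 9) t856)))))))))))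
noncomputable def l38982 : Lb := (@Lb.d (nat_lit 406) (nat_lit 594) (nat_lit 417) (@Lb.r r1096 (@Lb.r r1686 (@Lb.r r2435 (@Lb.g g6 (@Lb.g g5 (@Lb.d (nat_lit 0) (nat_lit 17) (nat_lit 6) (@Lb.fm (nat_lit 3) t6803))))))))
noncomputable def l38983 : Lb := (@Lb.d (nat_lit 97) (nat_lit 390) (nat_lit 593) (@Lb.r r2661 (@Lb.r r1304 (@Lb.r r2599 (@Lb.g g6 (@Lb.g g5 (@Lb.d (nat_lit 20) (nat_lit 1) (nat_lit 2) (@Lb.fp (nat_lit 3) t4607))))))))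
noncomputable def l38984 : Lb := (@Lb.d (nat_lit 106) (nat_lit 41) (nat_lit 166) (@Lb.r r408 (@Lb.r r330 (@Lb.r r407 (@Lb.g g7 (@Lb.g g5 (@Lb.g g4 (@Lb.d (nat_lit 17) (nat_lit 1) (nat_lit 64) (@Lb.r r98 (@Lb.t (@Lb.fm (nat_lit 9) t242)))))))))))
noncomputable def l38985 : Lb := (@Lb.r r21 (@Lb.d (nat_lit 129) (nat_lit 512) (nat_lit 130) (@Lb.g g8 (@Lb.g g10 (@Lb.g g11 (@Lb.r r1623 (@Lb.r r341 (@Lb.r r170 (@Lb.r r148 (@Lb.d (nat_lit 81) (nat_lit 66) (nat_lit 528) (@Lb.t (@Lb.fm (nat_lit 9) t1606))))))))))))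
noncomputable def l38986 : Lb := (@Lb.d (nat_lit 0) (nat_lit 10) (nat_lit 129) (@Lb.g g9 (@Lb.g g10 (@Lb.g g11 (@Lb.r r1307 (@Lb.r r2709 (@Lb.r r2646 (@Lb.r r1416 (@Lb.d (nat_lit 521) (nat_lit 6) (nat_lit 0) (@Lb.t (@Lb.fp (nat_lit 9) t6804)))))))))))
noncomputable def l38987 : Lb := (@Lb.d (nat_lit 666) (nat_lit 512) (nat_lit 336) (@Lb.r r402 (@Lb.g g7 (@Lb.d (nat_lit 64) (nat_lit 0) (nat_lit 644) (@Lb.t (@Lb.fp (nat_lit 3) t781))))))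
noncomputable def l38988 : Lb := (@Lb.r r21 (@Lb.d (nat_lit 128) (nat_lit 0) (nat_lit 130) (@Lb.g g8 (@Lb.g g10 (@Lb.g g11 (@Lb.r r1691 (@Lb.r r409 (@Lb.r r90 (@Lb.r r1368 (@Lb.d (nat_lit 586) (nat_lit 89) (nat_lit 530) (@Lb.t (@Lb.fm (nat_lit 9) t552))))))))))))
noncomputable def l38989 : Lb := (@Lb.r r277 (@Lb.r r326 (@Lb.d (nat_lit 513) (nat_lit 32) (nat_lit 384) (@Lb.g g4 (@Lb.g g7 (@Lb.r r2454 (@Lb.r r537 (@Lb.d (nat_lit 16) (nat_lit 64) (nat_lit 165) (@Lb.fp (nat_lit 3) t6805)))))))))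
noncomputable def l38990 : Lb := (@Lb.d (nat_lit 261) (nat_lit 344) (nat_lit 72) (@Lb.r r21 (@Lb.r r2664 (@Lb.r r386 (@Lb.g g11 (@Lb.g g6 (@Lb.g g5 (@Lb.g g4 (@Lb.d (nat_lit 1) (nat_lit 1) (nat_lit 1) (@Lb.fm (nat_lit 9) t3197))))))))))
noncomputable def l38991 : Lb := (@Lb.d (nat_lit 2) (nat_lit 2) (nat_lit 130) (@Lb.g g8 (@Lb.g g9 (@Lb.g g10 (@Lb.g g11 (@Lb.r r391 (@Lb.r r2666 (@Lb.r r2585 (@Lb.r r2564 (@Lb.d (nat_lit 136) (nat_lit 6) (nat_lit 385) (@Lb.fp (nat_lit 9) t715)))))))))))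
noncomputable def l38992 : Lb := (@Lb.r r326 (@Lb.d (nat_lit 422) (nat_lit 0) (nat_lit 0) (@Lb.g g4 (@Lb.g g9 (@Lb.g g11 (@Lb.r r90 (@Lb.r r2725 (@Lb.r r419 (@Lb.d (nat_lit 1) (nat_lit 162) (nat_lit 640) (@Lb.t (@Lb.fm (nat_lit 9) t2072)))))))))))
noncomputable def l38993 : Lb := (@Lb.r r323 (@Lb.d (nat_lit 130) (nat_lit 514) (nat_lit 2) (@Lb.g g8 (@Lb.g g9 (@Lb.g g10 (@Lb.r r263 (@Lb.r r98 (@Lb.r r97 (@Lb.r r536 (@Lb.d (nat_lit 682) (nat_lit 42) (nat_lit 529) (@Lb.t (@Lb.fm (nat_lit 9) t1994))))))))))))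
noncomputable def l38994 : Lb := (@Lb.d (nat_lit 152) (nat_lit 514) (nat_lit 294) (@Lb.r r20 (@Lb.r r2661 (@Lb.r r386 (@Lb.g g11 (@Lb.g g6 (@Lb.g g5 (@Lb.g g4 (@Lb.d (nat_lit 8) (nat_lit 0) (nat_lit 1) (@Lb.fm (nat_lit 9) t3197))))))))))
noncomputable def l38995 : Lb := (@Lb.d (nat_lit 392) (nat_lit 577) (nat_lit 288) (@Lb.r r101 (@Lb.r r24 (@Lb.r r402 (@Lb.r r323 (@Lb.g g7 (@Lb.g g6 (@Lb.d (nat_lit 0) (nat_lit 0) (nat_lit 64) (@Lb.fp (nat_lit 3) t3548)))))))))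
noncomputable def l38996 : Lb := (@Lb.d (nat_lit 73) (nat_lit 96) (nat_lit 578) (@Lb.r r289 (@Lb.r r279 (@Lb.r r584 (@Lb.g g10 (@Lb.d (nat_lit 32) (nat_lit 4) (nat_lit 10) (@Lb.r r387 (@Lb.t (@Lb.fp (nat_lit 3) t4933)))))))))
noncomputable def l38997 : Lb := (@Lb.r r82 (@Lb.d (nat_lit 0) (nat_lit 546) (nat_lit 64) (@Lb.g g9 (@Lb.g g11 (@Lb.r r537 (@Lb.r r531 (@Lb.r r98 (@Lb.d (nat_lit 129) (nat_lit 17) (nat_lit 69) (@Lb.fp (nat_lit 3) t5)))))))))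
noncomputable def l38998 : Lb := (@Lb.d (nat_lit 256) (nat_lit 0) (nat_lit 664) (@Lb.r r1414 (@Lb.r r584 (@Lb.r r619 (@Lb.r r609 (@Lb.g g11 (@Lb.g g4 (@Lb.fp (nat_lit 3) t334))))))))
noncomputable def l38999 : Lb := (@Lb.d (nat_lit 130) (nat_lit 514) (nat_lit 10) (@Lb.g g8 (@Lb.g g9 (@Lb.g g10 (@Lb.r r1425 (@Lb.r r2403 (@Lb.r r598 (@Lb.r r1160 (@Lb.d (nat_lit 338) (nat_lit 98) (nat_lit 610) (@Lb.t (@Lb.fp (nat_lit 9) t5180)))))))))))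
noncomputable def l39000 : Lb := (@Lb.d (nat_lit 266) (nat_lit 258) (nat_lit 289) (@Lb.r r1414 (@Lb.r r584 (@Lb.r r363 (@Lb.r r353 (@Lb.g g7 (@Lb.g g4 (@Lb.d (nat_lit 5) (nat_lit 0) (nat_lit 128) (@Lb.fp (nat_lit 3) t334)))))))))
noncomputable def l39001 : Lb := (@Lb.d (nat_lit 2) (nat_lit 258) (nat_lit 74) (@Lb.g g8 (@Lb.g g9 (@Lb.g g10 (@Lb.g g11 (@Lb.r r1297 (@Lb.r r2339 (@Lb.r r644 (@Lb.r r2630 (@Lb.r r2180 (@Lb.d (nat_lit 132) (nat_lit 96) (nat_lit 674) (@Lb.fp (nat_lit 9) t1644))))))))))))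
noncomputable def l39002 : Lb := (@Lb.r r322 (@Lb.d (nat_lit 0) (nat_lit 512) (nat_lit 640) (@Lb.g g9 (@Lb.g g7 (@Lb.r r1426 (@Lb.r r101 (@Lb.r r24 (@Lb.d (nat_lit 256) (nat_lit 0) (nat_lit 576) (@Lb.fm (nat_lit 3) t145)))))))))
noncomputable def l39003 : Lb := (@Lb.r r21 (@Lb.d (nat_lit 18) (nat_lit 0) (nat_lit 128) (@Lb.g g8 (@Lb.g g10 (@Lb.g g11 (@Lb.r r1381 (@Lb.r r2715 (@Lb.r r2634 (@Lb.d (nat_lit 612) (nat_lit 74) (nat_lit 169) (@Lb.t (@Lb.fm (nat_lit 9) t5207)))))))))))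
noncomputable def l39004 : Lb := (@Lb.d (nat_lit 104) (nat_lit 37) (nat_lit 10) (@Lb.g g8 (@Lb.g g9 (@Lb.g g10 (@Lb.g g11 (@Lb.r r1435 (@Lb.r r353 (@Lb.r r1178 (@Lb.r r1348 (@Lb.d (nat_lit 417) (nat_lit 25) (nat_lit 516) (@Lb.fp (nat_lit 9) t238)))))))))))
noncomputable def l39005 : Lb := (@Lb.r r21 (@Lb.d (nat_lit 1) (nat_lit 0) (nat_lit 130) (@Lb.g g8 (@Lb.g g10 (@Lb.g g11 (@Lb.r r347 (@Lb.r r386 (@Lb.r r1112 (@Lb.r r37 (@Lb.d (nat_lit 536) (nat_lit 68) (nat_lit 102) (@Lb.t (@Lb.fp (nat_lit 9) t61))))))))))))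
noncomputable def l39006 : Lb := (@Lb.d (nat_lit 2) (nat_lit 514) (nat_lit 128) (@Lb.g g8 (@Lb.g g9 (@Lb.g g10 (@Lb.g g11 (@Lb.r r134 (@Lb.r r600 (@Lb.r r293 (@Lb.r r539 (@Lb.r r516 (@Lb.d (nat_lit 8) (nat_lit 97) (nat_lit 20) (@Lb.fp (nat_lit 9) t334))))))))))))
noncomputable def l39007 : Lb := (@Lb.r r21 (@Lb.d (nat_lit 1) (nat_lit 256) (nat_lit 73) (@Lb.g g8 (@Lb.g g10 (@Lb.g g11 (@Lb.r r602 (@Lb.r r579 (@Lb.r r1112 (@Lb.r r37 (@Lb.d (nat_lit 425) (nat_lit 68) (nat_lit 342) (@Lb.t (@Lb.fp (nat_lit 9) t61))))))))))))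
noncomputable def l39008 : Lb := (@Lb.d (nat_lit 0) (nat_lit 4) (nat_lit 150) (@Lb.r r166 (@Lb.r r421 (@Lb.r r2651 (@Lb.r r2644 (@Lb.g g9 (@Lb.d (nat_lit 4) (nat_lit 1) (nat_lit 0) (@Lb.t (@Lb.fm (nat_lit 3) t69)))))))))
noncomputable def l39009 : Lb := (@Lb.d (nat_lit 104) (nat_lit 549) (nat_lit 10) (@Lb.g g8 (@Lb.g g9 (@Lb.g g10 (@Lb.g g11 (@Lb.r r1435 (@Lb.r r353 (@Lb.r r1178 (@Lb.r r1348 (@Lb.d (nat_lit 424) (nat_lit 153) (nat_lit 644) (@Lb.fp (nat_lit 9) t1)))))))))))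
noncomputable def l39010 : Lb := (@Lb.d (nat_lit 1) (nat_lit 258) (nat_lit 73) (@Lb.g g8 (@Lb.g g9 (@Lb.g g10 (@Lb.g g11 (@Lb.r r1435 (@Lb.r r1125 (@Lb.r r406 (@Lb.r r1416 (@Lb.d (nat_lit 6) (nat_lit 148) (nat_lit 416) (@Lb.fm (nat_lit 9) t3856)))))))))))
noncomputable def l39011 : Lb := (@Lb.d (nat_lit 144) (nat_lit 520) (nat_lit 129) (@Lb.g g6 (@Lb.g g11 (@Lb.r r264 (@Lb.r r279 (@Lb.r r609 (@Lb.d (nat_lit 26) (nat_lit 21) (nat_lit 154) (@Lb.fp (nat_lit 3) t590))))))))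
noncomputable def l39012 : Lb := (@Lb.d (nat_lit 70) (nat_lit 102) (nat_lit 70) (@Lb.r r97 (@Lb.r r386 (@Lb.r r343 (@Lb.g g7 (@Lb.g g6 (@Lb.g g5 (@Lb.g g4 (@Lb.d (nat_lit 1) (nat_lit 1) (nat_lit 65) (@Lb.fp (nat_lit 9) t128))))))))))
noncomputable def l39013 : Lb := (@Lb.d (nat_lit 130) (nat_lit 258) (nat_lit 130) (@Lb.g g8 (@Lb.g g9 (@Lb.g g10 (@Lb.g g11 (@Lb.r r2666 (@Lb.r r612 (@Lb.r r1319 (@Lb.r r405 (@Lb.r r2084 (@Lb.d (nat_lit 617) (nat_lit 130) (nat_lit 101) (@Lb.fp (nat_lit 9) t3307))))))))))))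
noncomputable def l39014 : Lb := (@Lb.d (nat_lit 130) (nat_lit 2) (nat_lit 130) (@Lb.g g8 (@Lb.g g9 (@Lb.g g10 (@Lb.g g11 (@Lb.r r2666 (@Lb.r r612 (@Lb.r r1319 (@Lb.r r405 (@Lb.r r2084 (@Lb.d (nat_lit 408) (nat_lit 130) (nat_lit 581) (@Lb.fp (nat_lit 9) t2805))))))))))))
noncomputable def l39015 : Lb := (@Lb.d (nat_lit 136) (nat_lit 8) (nat_lit 128) (@Lb.g g9 (@Lb.g g11 (@Lb.r r2202 (@Lb.r r260 (@Lb.r r1691 (@Lb.r r337 (@Lb.d (nat_lit 65) (nat_lit 86) (nat_lit 676) (@Lb.fm (nat_lit 3) t748)))))))))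
noncomputable def l39016 : Lb := (@Lb.g g9 (@Lb.r r2311 (@Lb.d (nat_lit 257) (nat_lit 512) (nat_lit 0) (@Lb.t (@Lb.fp (nat_lit 3) t469)))))
noncomputable def l39017 : Lb := (@Lb.g g10 (@Lb.r r289 (@Lb.r r2651 (@Lb.r r1414 (@Lb.r r2564 (@Lb.d (nat_lit 386) (nat_lit 512) (nat_lit 400) (@Lb.t (@Lb.fm (nat_lit 3) t277))))))))
noncomputable def l39018 : Lb := (@Lb.g g4 (@Lb.g g10 (@Lb.r r289 (@Lb.r r2651 (@Lb.r r1414 (@Lb.r r2564 (@Lb.d (nat_lit 512) (nat_lit 256) (nat_lit 16) (@Lb.fm (nat_lit 3) t277))))))))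
noncomputable def l39019 : Lb := (@Lb.d (nat_lit 9) (nat_lit 262) (nat_lit 128) (@Lb.g g8 (@Lb.g g9 (@Lb.g g10 (@Lb.g g11 (@Lb.r r427 (@Lb.r r386 (@Lb.r r25 (@Lb.d (nat_lit 9) (nat_lit 137) (nat_lit 393) (@Lb.fm (nat_lit 9) t152))))))))))
noncomputable def l39020 : Lb := (@Lb.d (nat_lit 128) (nat_lit 0) (nat_lit 128) (@Lb.g g10 (@Lb.g g11 (@Lb.r r361 (@Lb.r r292 (@Lb.r r539 (@Lb.r r134 (@Lb.d (nat_lit 105) (nat_lit 34) (nat_lit 146) (@Lb.fp (nat_lit 3) t40)))))))))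
noncomputable def l39021 : Lb := (@Lb.r r68 (@Lb.r r81 (@Lb.d (nat_lit 0) (nat_lit 512) (nat_lit 170) (@Lb.g g10 (@Lb.g g11 (@Lb.r r1419 (@Lb.r r1304 (@Lb.r r37 (@Lb.d (nat_lit 0) (nat_lit 72) (nat_lit 129) (@Lb.fm (nat_lit 3) t644))))))))))
noncomputable def l39022 : Lb := (@Lb.r r21 (@Lb.d (nat_lit 24) (nat_lit 512) (nat_lit 2) (@Lb.g g8 (@Lb.g g6 (@Lb.r r1429 (@Lb.r r2347 (@Lb.r r2340 (@Lb.d (nat_lit 169) (nat_lit 98) (nat_lit 401) (@Lb.fp (nat_lit 3) t2479)))))))))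
noncomputable def l39023 : Lb := (@Lb.d (nat_lit 0) (nat_lit 256) (nat_lit 66) (@Lb.g g10 (@Lb.g g7 (@Lb.r r386 (@Lb.r r101 (@Lb.r r1304 (@Lb.d (nat_lit 34) (nat_lit 0) (nat_lit 529) (@Lb.fm (nat_lit 3) t4822))))))))
noncomputable def l39024 : Lb := (@Lb.r r21 (@Lb.d (nat_lit 2) (nat_lit 0) (nat_lit 0) (@Lb.g g8 (@Lb.g g11 (@Lb.r r2580 (@Lb.r r25 (@Lb.d (nat_lit 328) (nat_lit 162) (nat_lit 384) (@Lb.fm (nat_lit 3) t1135))))))))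
noncomputable def l39025 : Lb := (@Lb.d (nat_lit 389) (nat_lit 528) (nat_lit 640) (@Lb.r r1307 (@Lb.r r1428 (@Lb.r r1174 (@Lb.g g7 (@Lb.g g6 (@Lb.g g9 (@Lb.d (nat_lit 0) (nat_lit 26) (nat_lit 128) (@Lb.r r36 (@Lb.t (@Lb.fp (nat_lit 9) t329)))))))))))
noncomputable def l39026 : Lb := (@Lb.d (nat_lit 0) (nat_lit 265) (nat_lit 325) (@Lb.r r24 (@Lb.r r401 (@Lb.r r2386 (@Lb.r r2467 (@Lb.g g6 (@Lb.g g5 (@Lb.d (nat_lit 0) (nat_lit 24) (nat_lit 1) (@Lb.fp (nat_lit 3) t3336)))))))))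
noncomputable def l39027 : Lb := (@Lb.r r68 (@Lb.r r85 (@Lb.r r323 (@Lb.g g10 (@Lb.g g8 (@Lb.d (nat_lit 0) (nat_lit 256) (nat_lit 2) (@Lb.r r387 (@Lb.r r25 (@Lb.fm (nat_lit 3) t168)))))))))
noncomputable def l39028 : Lb := (@Lb.d (nat_lit 2) (nat_lit 514) (nat_lit 130) (@Lb.g g8 (@Lb.g g9 (@Lb.g g10 (@Lb.g g11 (@Lb.r r427 (@Lb.r r106 (@Lb.r r25 (@Lb.d (nat_lit 392) (nat_lit 90) (nat_lit 324) (@Lb.fp (nat_lit 9) t672))))))))))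
noncomputable def l39029 : Lb := (@Lb.d (nat_lit 130) (nat_lit 34) (nat_lit 0) (@Lb.g g8 (@Lb.g g9 (@Lb.r r1418 (@Lb.r r583 (@Lb.r r408 (@Lb.r r2085 (@Lb.d (nat_lit 330) (nat_lit 84) (nat_lit 277) (@Lb.fm (nat_lit 3) t643)))))))))
noncomputable def l39030 : Lb := (@Lb.d (nat_lit 257) (nat_lit 514) (nat_lit 34) (@Lb.r r2661 (@Lb.r r1304 (@Lb.r r2659 (@Lb.g g10 (@Lb.g g5 (@Lb.d (nat_lit 32) (nat_lit 0) (nat_lit 17) (@Lb.r r387 (@Lb.fm (nat_lit 3) t6806)))))))))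
noncomputable def l39031 : Lb := (@Lb.d (nat_lit 0) (nat_lit 664) (nat_lit 393) (@Lb.r r657 (@Lb.r r602 (@Lb.r r356 (@Lb.g g11 (@Lb.g g5 (@Lb.d (nat_lit 4) (nat_lit 0) (nat_lit 384) (@Lb.r r578 (@Lb.fp (nat_lit 3) t2333)))))))))
noncomputable def l39032 : Lb := (@Lb.d (nat_lit 640) (nat_lit 660) (nat_lit 257) (@Lb.r r24 (@Lb.r r386 (@Lb.r r339 (@Lb.g g7 (@Lb.g g6 (@Lb.g g5 (@Lb.d (nat_lit 0) (nat_lit 129) (nat_lit 65) (@Lb.t (@Lb.fp (nat_lit 9) t3648))))))))))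
noncomputable def l39033 : Lb := (@Lb.r r21 (@Lb.r r70 (@Lb.d (nat_lit 130) (nat_lit 512) (nat_lit 256) (@Lb.g g8 (@Lb.g g7 (@Lb.r r2646 (@Lb.r r1320 (@Lb.r r25 (@Lb.d (nat_lit 512) (nat_lit 98) (nat_lit 5) (@Lb.fm (nat_lit 3) t3045))))))))))
noncomputable def l39034 : Lb := (@Lb.d (nat_lit 0) (nat_lit 401) (nat_lit 394) (@Lb.r r657 (@Lb.r r602 (@Lb.r r356 (@Lb.g g11 (@Lb.g g5 (@Lb.d (nat_lit 8) (nat_lit 1) (nat_lit 384) (@Lb.r r578 (@Lb.fp (nat_lit 3) t2136)))))))))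
noncomputable def l39035 : Lb := (@Lb.d (nat_lit 0) (nat_lit 512) (nat_lit 130) (@Lb.g g9 (@Lb.g g10 (@Lb.g g11 (@Lb.r r419 (@Lb.r r401 (@Lb.r r90 (@Lb.r r145 (@Lb.d (nat_lit 616) (nat_lit 9) (nat_lit 546) (@Lb.t (@Lb.fm (nat_lit 9) t221)))))))))))
noncomputable def l39036 : Lb := (@Lb.d (nat_lit 0) (nat_lit 256) (nat_lit 130) (@Lb.g g9 (@Lb.g g10 (@Lb.g g11 (@Lb.r r419 (@Lb.r r401 (@Lb.r r90 (@Lb.r r145 (@Lb.d (nat_lit 617) (nat_lit 9) (nat_lit 546) (@Lb.t (@Lb.fm (nat_lit 9) t221)))))))))))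
noncomputable def l39037 : Lb := (@Lb.d (nat_lit 0) (nat_lit 258) (nat_lit 130) (@Lb.g g9 (@Lb.g g10 (@Lb.g g11 (@Lb.r r2467 (@Lb.r r401 (@Lb.r r1114 (@Lb.r r2193 (@Lb.d (nat_lit 361) (nat_lit 9) (nat_lit 393) (@Lb.t (@Lb.fm (nat_lit 9) t221)))))))))))
noncomputable def l39038 : Lb := (@Lb.r r275 (@Lb.d (nat_lit 0) (nat_lit 266) (nat_lit 0) (@Lb.g g9 (@Lb.r r602 (@Lb.r r1603 (@Lb.r r533 (@Lb.d (nat_lit 132) (nat_lit 34) (nat_lit 576) (@Lb.t (@Lb.fm (nat_lit 3) t927)))))))))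
noncomputable def l39039 : Lb := (@Lb.d (nat_lit 37) (nat_lit 512) (nat_lit 129) (@Lb.g g8 (@Lb.g g9 (@Lb.g g10 (@Lb.g g11 (@Lb.r r427 (@Lb.r r420 (@Lb.r r1126 (@Lb.r r97 (@Lb.r r36 (@Lb.d (nat_lit 264) (nat_lit 130) (nat_lit 666) (@Lb.fm (nat_lit 9) t1792))))))))))))
noncomputable def l39040 : Lb := (@Lb.d (nat_lit 680) (nat_lit 145) (nat_lit 321) (@Lb.r r1560 (@Lb.r r1307 (@Lb.g g6 (@Lb.g g9 (@Lb.g g4 (@Lb.d (nat_lit 70) (nat_lit 16) (nat_lit 41) (@Lb.t (@Lb.fp (nat_lit 9) t1537)))))))))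
noncomputable def l39041 : Lb := (@Lb.r r68 (@Lb.r r323 (@Lb.d (nat_lit 0) (nat_lit 2) (nat_lit 2) (@Lb.g g9 (@Lb.g g10 (@Lb.r r1685 (@Lb.r r1559 (@Lb.r r2312 (@Lb.d (nat_lit 32) (nat_lit 0) (nat_lit 104) (@Lb.fm (nat_lit 3) t86))))))))))
noncomputable def l39042 : Lb := (@Lb.d (nat_lit 0) (nat_lit 256) (nat_lit 129) (@Lb.g g10 (@Lb.g g11 (@Lb.r r1431 (@Lb.r r418 (@Lb.r r2196 (@Lb.r r1049 (@Lb.d (nat_lit 148) (nat_lit 42) (nat_lit 661) (@Lb.fp (nat_lit 3) t6807)))))))))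
noncomputable def l39043 : Lb := (@Lb.d (nat_lit 64) (nat_lit 290) (nat_lit 578) (@Lb.g g9 (@Lb.g g10 (@Lb.g g7 (@Lb.r r386 (@Lb.r r2328 (@Lb.r r1637 (@Lb.d (nat_lit 514) (nat_lit 0) (nat_lit 26) (@Lb.t (@Lb.fm (nat_lit 9) t1244))))))))))
noncomputable def l39044 : Lb := (@Lb.d (nat_lit 10) (nat_lit 73) (nat_lit 2) (@Lb.r r101 (@Lb.r r402 (@Lb.r r323 (@Lb.g g7 (@Lb.g g6 (@Lb.d (nat_lit 0) (nat_lit 0) (nat_lit 64) (@Lb.fm (nat_lit 3) t1531))))))))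
noncomputable def l39045 : Lb := (@Lb.d (nat_lit 2) (nat_lit 256) (nat_lit 0) (@Lb.g g8 (@Lb.g g9 (@Lb.r r1162 (@Lb.r r1188 (@Lb.r r2341 (@Lb.r r2579 (@Lb.d (nat_lit 2) (nat_lit 162) (nat_lit 330) (@Lb.fp (nat_lit 3) t1593)))))))))
noncomputable def l39046 : Lb := (@Lb.d (nat_lit 138) (nat_lit 512) (nat_lit 0) (@Lb.g g8 (@Lb.r r1621 (@Lb.r r2391 (@Lb.r r2178 (@Lb.r r1572 (@Lb.d (nat_lit 169) (nat_lit 146) (nat_lit 674) (@Lb.t (@Lb.fm (nat_lit 3) t124)))))))))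
noncomputable def l39047 : Lb := (@Lb.d (nat_lit 136) (nat_lit 514) (nat_lit 66) (@Lb.g g9 (@Lb.g g10 (@Lb.g g11 (@Lb.r r166 (@Lb.r r264 (@Lb.r r599 (@Lb.r r409 (@Lb.d (nat_lit 137) (nat_lit 18) (nat_lit 74) (@Lb.t (@Lb.fp (nat_lit 9) t1087)))))))))))
noncomputable def l39048 : Lb := (@Lb.d (nat_lit 8) (nat_lit 282) (nat_lit 73) (@Lb.g g9 (@Lb.g g10 (@Lb.g g11 (@Lb.r r610 (@Lb.r r2635 (@Lb.r r1048 (@Lb.r r2149 (@Lb.d (nat_lit 153) (nat_lit 105) (nat_lit 98) (@Lb.t (@Lb.fp (nat_lit 9) t827)))))))))))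
noncomputable def l39049 : Lb := (@Lb.d (nat_lit 2) (nat_lit 514) (nat_lit 137) (@Lb.g g8 (@Lb.g g9 (@Lb.g g10 (@Lb.g g11 (@Lb.r r2691 (@Lb.r r2209 (@Lb.r r2658 (@Lb.d (nat_lit 0) (nat_lit 165) (nat_lit 660) (@Lb.fp (nat_lit 9) t311))))))))))
noncomputable def l39050 : Lb := (@Lb.d (nat_lit 424) (nat_lit 33) (nat_lit 90) (@Lb.r r553 (@Lb.r r134 (@Lb.r r295 (@Lb.r r536 (@Lb.g g5 (@Lb.d (nat_lit 4) (nat_lit 17) (nat_lit 0) (@Lb.t (@Lb.fp (nat_lit 3) t744)))))))))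
noncomputable def l39051 : Lb := (@Lb.d (nat_lit 2) (nat_lit 514) (nat_lit 73) (@Lb.g g8 (@Lb.g g9 (@Lb.g g10 (@Lb.g g11 (@Lb.r r2691 (@Lb.r r2209 (@Lb.r r2658 (@Lb.d (nat_lit 0) (nat_lit 160) (nat_lit 598) (@Lb.fp (nat_lit 9) t311))))))))))
noncomputable def l39052 : Lb := (@Lb.d (nat_lit 17) (nat_lit 672) (nat_lit 518) (@Lb.r r24 (@Lb.r r101 (@Lb.r r386 (@Lb.g g11 (@Lb.g g6 (@Lb.g g5 (@Lb.d (nat_lit 0) (nat_lit 5) (nat_lit 130) (@Lb.t (@Lb.fp (nat_lit 9) t1117))))))))))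
noncomputable def l39053 : Lb := (@Lb.d (nat_lit 0) (nat_lit 2) (nat_lit 73) (@Lb.g g8 (@Lb.g g9 (@Lb.g g10 (@Lb.g g11 (@Lb.r r2146 (@Lb.r r2401 (@Lb.r r292 (@Lb.r r539 (@Lb.r r516 (@Lb.d (nat_lit 38) (nat_lit 1) (nat_lit 161) (@Lb.fp (nat_lit 9) t3071))))))))))))
noncomputable def l39054 : Lb := (@Lb.r r82 (@Lb.d (nat_lit 8) (nat_lit 513) (nat_lit 0) (@Lb.g g9 (@Lb.r r276 (@Lb.r r1291 (@Lb.r r2122 (@Lb.r r529 (@Lb.d (nat_lit 577) (nat_lit 34) (nat_lit 384) (@Lb.t (@Lb.fp (nat_lit 3) t6613))))))))))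
noncomputable def l39055 : Lb := (@Lb.d (nat_lit 16) (nat_lit 160) (nat_lit 518) (@Lb.r r24 (@Lb.r r101 (@Lb.r r386 (@Lb.g g11 (@Lb.g g6 (@Lb.g g5 (@Lb.d (nat_lit 0) (nat_lit 5) (nat_lit 130) (@Lb.t (@Lb.fp (nat_lit 9) t1117))))))))))
noncomputable def l39056 : Lb := (@Lb.d (nat_lit 137) (nat_lit 513) (nat_lit 10) (@Lb.g g8 (@Lb.g g9 (@Lb.g g10 (@Lb.r r1425 (@Lb.r r2403 (@Lb.r r598 (@Lb.r r1188 (@Lb.d (nat_lit 42) (nat_lit 134) (nat_lit 354) (@Lb.t (@Lb.fm (nat_lit 9) t1644)))))))))))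
noncomputable def l39057 : Lb := (@Lb.d (nat_lit 2) (nat_lit 548) (nat_lit 128) (@Lb.g g8 (@Lb.g g9 (@Lb.g g10 (@Lb.g g11 (@Lb.r r1451 (@Lb.r r2154 (@Lb.r r1313 (@Lb.d (nat_lit 586) (nat_lit 161) (nat_lit 341) (@Lb.fm (nat_lit 9) t200))))))))))
noncomputable def l39058 : Lb := (@Lb.d (nat_lit 4) (nat_lit 292) (nat_lit 128) (@Lb.g g8 (@Lb.g g9 (@Lb.g g10 (@Lb.g g11 (@Lb.r r2729 (@Lb.r r2347 (@Lb.r r2404 (@Lb.r r1610 (@Lb.d (nat_lit 337) (nat_lit 10) (nat_lit 342) (@Lb.fm (nat_lit 9) t750)))))))))))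
noncomputable def l39059 : Lb := (@Lb.r r273 (@Lb.r r551 (@Lb.r r340 (@Lb.r r170 (@Lb.r r153 (@Lb.d (nat_lit 528) (nat_lit 257) (nat_lit 16) (@Lb.fp (nat_lit 1) t1607)))))))
noncomputable def l39060 : Lb := (@Lb.d (nat_lit 0) (nat_lit 514) (nat_lit 130) (@Lb.g g9 (@Lb.g g10 (@Lb.g g11 (@Lb.r r2691 (@Lb.r r145 (@Lb.r r594 (@Lb.r r1169 (@Lb.d (nat_lit 0) (nat_lit 33) (nat_lit 601) (@Lb.t (@Lb.fp (nat_lit 9) t247)))))))))))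
noncomputable def l39061 : Lb := (@Lb.d (nat_lit 5) (nat_lit 256) (nat_lit 0) (@Lb.g g4 (@Lb.d (nat_lit 1) (nat_lit 128) (nat_lit 0) (@Lb.t (@Lb.fm (nat_lit 3) t2)))))
noncomputable def l39062 : Lb := (@Lb.d (nat_lit 38) (nat_lit 260) (nat_lit 74) (@Lb.g g8 (@Lb.g g9 (@Lb.g g10 (@Lb.g g11 (@Lb.r r683 (@Lb.r r676 (@Lb.r r2182 (@Lb.r r1121 (@Lb.d (nat_lit 545) (nat_lit 169) (nat_lit 161) (@Lb.fm (nat_lit 9) t546)))))))))))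
noncomputable def l39063 : Lb := (@Lb.d (nat_lit 10) (nat_lit 257) (nat_lit 130) (@Lb.g g8 (@Lb.g g9 (@Lb.g g10 (@Lb.g g11 (@Lb.r r548 (@Lb.r r295 (@Lb.r r1626 (@Lb.r r405 (@Lb.r r2084 (@Lb.d (nat_lit 674) (nat_lit 73) (nat_lit 329) (@Lb.fp (nat_lit 9) t1561))))))))))))
noncomputable def l39064 : Lb := (@Lb.d (nat_lit 2) (nat_lit 514) (nat_lit 130) (@Lb.g g8 (@Lb.g g9 (@Lb.g g10 (@Lb.g g11 (@Lb.r r610 (@Lb.r r404 (@Lb.r r619 (@Lb.r r97 (@Lb.r r516 (@Lb.d (nat_lit 617) (nat_lit 137) (nat_lit 657) (@Lb.fp (nat_lit 9) t1994))))))))))))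
noncomputable def l39065 : Lb := (@Lb.r r20 (@Lb.d (nat_lit 136) (nat_lit 393) (nat_lit 0) (@Lb.g g5 (@Lb.g g11 (@Lb.r r392 (@Lb.r r2407 (@Lb.r r2178 (@Lb.d (nat_lit 584) (nat_lit 64) (nat_lit 538) (@Lb.fp (nat_lit 3) t296)))))))))
noncomputable def l39066 : Lb := (@Lb.r r21 (@Lb.d (nat_lit 42) (nat_lit 0) (nat_lit 6) (@Lb.g g8 (@Lb.g g10 (@Lb.g g11 (@Lb.r r657 (@Lb.r r667 (@Lb.r r664 (@Lb.r r410 (@Lb.d (nat_lit 154) (nat_lit 25) (nat_lit 2) (@Lb.t (@Lb.fp (nat_lit 9) t5))))))))))))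
noncomputable def l39067 : Lb := (@Lb.r r21 (@Lb.d (nat_lit 2) (nat_lit 544) (nat_lit 0) (@Lb.g g8 (@Lb.g g11 (@Lb.r r154 (@Lb.r r101 (@Lb.r r424 (@Lb.r r615 (@Lb.d (nat_lit 144) (nat_lit 41) (nat_lit 10) (@Lb.fm (nat_lit 3) t51))))))))))
noncomputable def l39068 : Lb := (@Lb.d (nat_lit 0) (nat_lit 2) (nat_lit 132) (@Lb.g g8 (@Lb.g g9 (@Lb.g g10 (@Lb.g g7 (@Lb.r r386 (@Lb.r r104 (@Lb.r r25 (@Lb.d (nat_lit 22) (nat_lit 8) (nat_lit 82) (@Lb.fm (nat_lit 9) t40))))))))))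
noncomputable def l39069 : Lb := (@Lb.r r20 (@Lb.d (nat_lit 136) (nat_lit 649) (nat_lit 0) (@Lb.g g5 (@Lb.g g11 (@Lb.r r392 (@Lb.r r2407 (@Lb.r r2178 (@Lb.d (nat_lit 586) (nat_lit 64) (nat_lit 538) (@Lb.fp (nat_lit 3) t296)))))))))
noncomputable def l39070 : Lb := (@Lb.d (nat_lit 16) (nat_lit 10) (nat_lit 129) (@Lb.g g8 (@Lb.g g9 (@Lb.g g10 (@Lb.g g11 (@Lb.r r1443 (@Lb.r r1450 (@Lb.r r2212 (@Lb.r r2197 (@Lb.d (nat_lit 165) (nat_lit 38) (nat_lit 646) (@Lb.fm (nat_lit 9) t6808)))))))))))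
noncomputable def l39071 : Lb := (@Lb.r r82 (@Lb.d (nat_lit 8) (nat_lit 258) (nat_lit 0) (@Lb.g g9 (@Lb.g g11 (@Lb.r r1575 (@Lb.r r386 (@Lb.r r2328 (@Lb.r r1637 (@Lb.d (nat_lit 266) (nat_lit 73) (nat_lit 18) (@Lb.fm (nat_lit 3) t152))))))))))
noncomputable def l39072 : Lb := (@Lb.r r82 (@Lb.g g9 (@Lb.g g11 (@Lb.r r1575 (@Lb.r r386 (@Lb.r r2328 (@Lb.r r1637 (@Lb.d (nat_lit 266) (nat_lit 66) (nat_lit 16) (@Lb.fm (nat_lit 3) t152)))))))))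
noncomputable def l39073 : Lb := (@Lb.d (nat_lit 25) (nat_lit 610) (nat_lit 596) (@Lb.r r24 (@Lb.r r2661 (@Lb.r r2659 (@Lb.g g7 (@Lb.g g10 (@Lb.g g5 (@Lb.d (nat_lit 32) (nat_lit 5) (nat_lit 66) (@Lb.t (@Lb.fp (nat_lit 9) t490))))))))))
noncomputable def l39074 : Lb := (@Lb.d (nat_lit 128) (nat_lit 256) (nat_lit 128) (@Lb.g g7 (@Lb.r r516 (@Lb.r r551 (@Lb.r r402 (@Lb.r r609 (@Lb.d (nat_lit 24) (nat_lit 69) (nat_lit 17) (@Lb.t (@Lb.fp (nat_lit 3) t334)))))))))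
noncomputable def l39075 : Lb := (@Lb.d (nat_lit 1) (nat_lit 66) (nat_lit 130) (@Lb.g g4 (@Lb.g g9 (@Lb.g g10 (@Lb.g g11 (@Lb.r r2471 (@Lb.r r98 (@Lb.d (nat_lit 96) (nat_lit 9) (nat_lit 665) (@Lb.fm (nat_lit 9) t1082)))))))))
noncomputable def l39076 : Lb := (@Lb.d (nat_lit 129) (nat_lit 257) (nat_lit 130) (@Lb.g g8 (@Lb.g g9 (@Lb.g g10 (@Lb.g g11 (@Lb.r r610 (@Lb.r r1603 (@Lb.r r424 (@Lb.r r1321 (@Lb.r r2084 (@Lb.d (nat_lit 393) (nat_lit 85) (nat_lit 72) (@Lb.fm (nat_lit 9) t6508))))))))))))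
noncomputable def l39077 : Lb := (@Lb.d (nat_lit 8) (nat_lit 545) (nat_lit 9) (@Lb.g g8 (@Lb.g g9 (@Lb.g g10 (@Lb.g g11 (@Lb.r r2730 (@Lb.r r2435 (@Lb.r r2212 (@Lb.r r2085 (@Lb.d (nat_lit 361) (nat_lit 68) (nat_lit 326) (@Lb.fp (nat_lit 9) t2306)))))))))))
noncomputable def l39078 : Lb := (@Lb.d (nat_lit 134) (nat_lit 512) (nat_lit 66) (@Lb.g g8 (@Lb.g g9 (@Lb.g g10 (@Lb.g g11 (@Lb.r r1415 (@Lb.r r164 (@Lb.r r2438 (@Lb.r r2721 (@Lb.d (nat_lit 361) (nat_lit 149) (nat_lit 150) (@Lb.fp (nat_lit 9) t4153)))))))))))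
noncomputable def l39079 : Lb := (@Lb.r r421 (@Lb.r r2651 (@Lb.r r2178 (@Lb.r r2564 (@Lb.d (nat_lit 665) (nat_lit 154) (nat_lit 394) (@Lb.fm (nat_lit 1) t5866))))))
noncomputable def l39080 : Lb := (@Lb.d (nat_lit 8) (nat_lit 289) (nat_lit 66) (@Lb.g g8 (@Lb.g g9 (@Lb.g g10 (@Lb.g g11 (@Lb.r r387 (@Lb.r r164 (@Lb.r r2438 (@Lb.r r1553 (@Lb.d (nat_lit 337) (nat_lit 100) (nat_lit 400) (@Lb.fm (nat_lit 9) t1377)))))))))))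
noncomputable def l39081 : Lb := (@Lb.d (nat_lit 9) (nat_lit 544) (nat_lit 9) (@Lb.g g8 (@Lb.g g9 (@Lb.g g10 (@Lb.g g11 (@Lb.r r1699 (@Lb.r r676 (@Lb.r r358 (@Lb.r r2577 (@Lb.d (nat_lit 104) (nat_lit 73) (nat_lit 144) (@Lb.fm (nat_lit 9) t5609)))))))))))
noncomputable def l39082 : Lb := (@Lb.r r323 (@Lb.d (nat_lit 32) (nat_lit 529) (nat_lit 9) (@Lb.g g5 (@Lb.g g10 (@Lb.r r2411 (@Lb.r r2388 (@Lb.r r1626 (@Lb.d (nat_lit 420) (nat_lit 85) (nat_lit 602) (@Lb.fp (nat_lit 3) t3756)))))))))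
noncomputable def l39083 : Lb := (@Lb.d (nat_lit 128) (nat_lit 512) (nat_lit 648) (@Lb.g g11 (@Lb.r r2122 (@Lb.r r100 (@Lb.r r21 (@Lb.r r2084 (@Lb.d (nat_lit 0) (nat_lit 74) (nat_lit 529) (@Lb.t (@Lb.fp (nat_lit 3) t6809)))))))))
noncomputable def l39084 : Lb := (@Lb.r r21 (@Lb.d (nat_lit 128) (nat_lit 256) (nat_lit 73) (@Lb.g g8 (@Lb.g g10 (@Lb.g g11 (@Lb.r r1623 (@Lb.r r341 (@Lb.r r170 (@Lb.r r148 (@Lb.d (nat_lit 81) (nat_lit 66) (nat_lit 528) (@Lb.t (@Lb.fm (nat_lit 9) t1606))))))))))))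
noncomputable def l39085 : Lb := (@Lb.d (nat_lit 36) (nat_lit 357) (nat_lit 657) (@Lb.r r2458 (@Lb.r r597 (@Lb.r r2468 (@Lb.g g11 (@Lb.g g6 (@Lb.d (nat_lit 16) (nat_lit 0) (nat_lit 648) (@Lb.fm (nat_lit 3) t3438))))))))
noncomputable def l39086 : Lb := (@Lb.d (nat_lit 38) (nat_lit 5) (nat_lit 130) (@Lb.g g8 (@Lb.g g9 (@Lb.g g10 (@Lb.g g11 (@Lb.r r1634 (@Lb.r r1643 (@Lb.r r2721 (@Lb.r r2200 (@Lb.d (nat_lit 165) (nat_lit 32) (nat_lit 150) (@Lb.fm (nat_lit 9) t6810)))))))))))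
noncomputable def l39087 : Lb := (@Lb.d (nat_lit 145) (nat_lit 514) (nat_lit 74) (@Lb.g g8 (@Lb.g g9 (@Lb.g g10 (@Lb.g g11 (@Lb.r r599 (@Lb.r r677 (@Lb.r r340 (@Lb.r r2650 (@Lb.d (nat_lit 361) (nat_lit 66) (nat_lit 98) (@Lb.fp (nat_lit 9) t495)))))))))))
noncomputable def l39088 : Lb := (@Lb.d (nat_lit 10) (nat_lit 344) (nat_lit 352) (@Lb.r r1114 (@Lb.r r2408 (@Lb.r r2329 (@Lb.r r1559 (@Lb.g g7 (@Lb.g g4 (@Lb.d (nat_lit 4) (nat_lit 0) (nat_lit 128) (@Lb.fm (nat_lit 3) t501)))))))))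
noncomputable def l39089 : Lb := (@Lb.d (nat_lit 9) (nat_lit 513) (nat_lit 130) (@Lb.g g8 (@Lb.g g9 (@Lb.g g10 (@Lb.g g11 (@Lb.r r427 (@Lb.r r324 (@Lb.r r2218 (@Lb.r r1193 (@Lb.r r1188 (@Lb.d (nat_lit 609) (nat_lit 73) (nat_lit 546) (@Lb.fp (nat_lit 9) t386))))))))))))
noncomputable def l39090 : Lb := (@Lb.d (nat_lit 400) (nat_lit 520) (nat_lit 421) (@Lb.r r24 (@Lb.r r386 (@Lb.g g11 (@Lb.g g6 (@Lb.g g5 (@Lb.d (nat_lit 4) (nat_lit 1) (nat_lit 129) (@Lb.t (@Lb.fm (nat_lit 9) t1771)))))))))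
noncomputable def l39091 : Lb := (@Lb.d (nat_lit 1) (nat_lit 265) (nat_lit 72) (@Lb.g g8 (@Lb.g g9 (@Lb.g g10 (@Lb.g g11 (@Lb.r r2666 (@Lb.r r579 (@Lb.r r97 (@Lb.r r24 (@Lb.d (nat_lit 153) (nat_lit 9) (nat_lit 326) (@Lb.fm (nat_lit 9) t4622)))))))))))
noncomputable def l39092 : Lb := (@Lb.d (nat_lit 400) (nat_lit 8) (nat_lit 293) (@Lb.r r24 (@Lb.r r386 (@Lb.g g11 (@Lb.g g6 (@Lb.g g5 (@Lb.d (nat_lit 4) (nat_lit 1) (nat_lit 6) (@Lb.t (@Lb.fm (nat_lit 9) t6811)))))))))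
noncomputable def l39093 : Lb := (@Lb.r r323 (@Lb.d (nat_lit 0) (nat_lit 264) (nat_lit 6) (@Lb.g g10 (@Lb.r r387 (@Lb.r r24 (@Lb.r r101 (@Lb.d (nat_lit 16) (nat_lit 150) (nat_lit 390) (@Lb.t (@Lb.fp (nat_lit 3) t446)))))))))
noncomputable def l39094 : Lb := (@Lb.d (nat_lit 136) (nat_lit 257) (nat_lit 130) (@Lb.g g8 (@Lb.g g9 (@Lb.g g10 (@Lb.g g11 (@Lb.r r2666 (@Lb.r r612 (@Lb.r r1319 (@Lb.r r405 (@Lb.r r2084 (@Lb.d (nat_lit 617) (nat_lit 137) (nat_lit 100) (@Lb.fp (nat_lit 9) t2106))))))))))))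
noncomputable def l39095 : Lb := (@Lb.d (nat_lit 522) (nat_lit 610) (nat_lit 128) (@Lb.r r2341 (@Lb.r r1624 (@Lb.r r2150 (@Lb.g g6 (@Lb.t (@Lb.fm (nat_lit 3) t6812)))))))
noncomputable def l39096 : Lb := (@Lb.d (nat_lit 9) (nat_lit 544) (nat_lit 66) (@Lb.g g8 (@Lb.g g9 (@Lb.g g10 (@Lb.g g11 (@Lb.r r1699 (@Lb.r r1192 (@Lb.r r1642 (@Lb.r r1561 (@Lb.d (nat_lit 426) (nat_lit 105) (nat_lit 344) (@Lb.fp (nat_lit 9) t4946)))))))))))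
noncomputable def l39097 : Lb := (@Lb.d (nat_lit 146) (nat_lit 9) (nat_lit 66) (@Lb.g g8 (@Lb.g g9 (@Lb.g g10 (@Lb.g g11 (@Lb.r r1698 (@Lb.r r1415 (@Lb.r r36 (@Lb.r r2197 (@Lb.r r2084 (@Lb.d (nat_lit 105) (nat_lit 152) (nat_lit 321) (@Lb.fm (nat_lit 9) t3546))))))))))))
noncomputable def l39098 : Lb := (@Lb.r r331 (@Lb.d (nat_lit 674) (nat_lit 9) (nat_lit 1) (@Lb.g g4 (@Lb.g g9 (@Lb.g g10 (@Lb.r r2395 (@Lb.r r2214 (@Lb.r r1553 (@Lb.d (nat_lit 664) (nat_lit 21) (nat_lit 517) (@Lb.t (@Lb.fm (nat_lit 9) t1967)))))))))))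
noncomputable def l39099 : Lb := (@Lb.d (nat_lit 9) (nat_lit 289) (nat_lit 9) (@Lb.g g8 (@Lb.g g9 (@Lb.g g10 (@Lb.g g11 (@Lb.r r1698 (@Lb.r r1415 (@Lb.r r36 (@Lb.r r149 (@Lb.r r1060 (@Lb.d (nat_lit 617) (nat_lit 152) (nat_lit 609) (@Lb.fm (nat_lit 9) t1879))))))))))))
noncomputable def l39100 : Lb := (@Lb.r r82 (@Lb.d (nat_lit 41) (nat_lit 288) (nat_lit 0) (@Lb.g g8 (@Lb.g g9 (@Lb.g g11 (@Lb.r r1571 (@Lb.r r582 (@Lb.r r1445 (@Lb.r r408 (@Lb.d (nat_lit 344) (nat_lit 26) (nat_lit 358) (@Lb.t (@Lb.fp (nat_lit 9) t509))))))))))))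
noncomputable def l39101 : Lb := (@Lb.r r277 (@Lb.d (nat_lit 80) (nat_lit 256) (nat_lit 4) (@Lb.g g8 (@Lb.g g10 (@Lb.g g11 (@Lb.r r1162 (@Lb.r r1412 (@Lb.r r299 (@Lb.d (nat_lit 130) (nat_lit 20) (nat_lit 362) (@Lb.t (@Lb.fp (nat_lit 9) t1895)))))))))))
noncomputable def l39102 : Lb := (@Lb.d (nat_lit 130) (nat_lit 514) (nat_lit 130) (@Lb.g g8 (@Lb.g g9 (@Lb.g g10 (@Lb.g g11 (@Lb.r r643 (@Lb.r r1194 (@Lb.r r2337 (@Lb.r r152 (@Lb.d (nat_lit 664) (nat_lit 105) (nat_lit 9) (@Lb.fp (nat_lit 9) t6813)))))))))))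
noncomputable def l39103 : Lb := (@Lb.d (nat_lit 9) (nat_lit 293) (nat_lit 544) (@Lb.r r1114 (@Lb.r r584 (@Lb.r r299 (@Lb.r r289 (@Lb.g g11 (@Lb.g g4 (@Lb.fp (nat_lit 3) t6814))))))))
noncomputable def l39104 : Lb := (@Lb.d (nat_lit 0) (nat_lit 258) (nat_lit 130) (@Lb.g g9 (@Lb.g g10 (@Lb.g g11 (@Lb.r r642 (@Lb.r r1544 (@Lb.r r1419 (@Lb.r r2337 (@Lb.d (nat_lit 641) (nat_lit 86) (nat_lit 424) (@Lb.t (@Lb.fp (nat_lit 9) t6815)))))))))))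
noncomputable def l39105 : Lb := (@Lb.g g7 (@Lb.r r101 (@Lb.r r24 (@Lb.d (nat_lit 577) (nat_lit 10) (nat_lit 660) (@Lb.t (@Lb.fm (nat_lit 3) t1150))))))
noncomputable def l39106 : Lb := (@Lb.g g7 (@Lb.r r277 (@Lb.r r363 (@Lb.r r356 (@Lb.r r154 (@Lb.d (nat_lit 96) (nat_lit 69) (nat_lit 288) (@Lb.t (@Lb.fp (nat_lit 3) t1306))))))))
noncomputable def l39107 : Lb := (@Lb.g g7 (@Lb.r r277 (@Lb.r r363 (@Lb.r r356 (@Lb.r r154 (@Lb.d (nat_lit 328) (nat_lit 322) (nat_lit 336) (@Lb.t (@Lb.fp (nat_lit 3) t446))))))))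
noncomputable def l39108 : Lb := (@Lb.d (nat_lit 10) (nat_lit 288) (nat_lit 546) (@Lb.r r1114 (@Lb.r r584 (@Lb.r r299 (@Lb.r r289 (@Lb.g g11 (@Lb.g g4 (@Lb.fp (nat_lit 3) t1698))))))))
noncomputable def l39109 : Lb := (@Lb.d (nat_lit 8) (nat_lit 514) (nat_lit 73) (@Lb.g g8 (@Lb.g g9 (@Lb.g g10 (@Lb.g g11 (@Lb.r r642 (@Lb.r r2455 (@Lb.r r2145 (@Lb.r r2584 (@Lb.d (nat_lit 408) (nat_lit 41) (nat_lit 129) (@Lb.fm (nat_lit 9) t6816)))))))))))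
noncomputable def l39110 : Lb := (@Lb.d (nat_lit 1) (nat_lit 0) (nat_lit 2) (@Lb.g g8 (@Lb.g g10 (@Lb.g g11 (@Lb.r r537 (@Lb.r r2651 (@Lb.r r386 (@Lb.r r2200 (@Lb.d (nat_lit 537) (nat_lit 72) (nat_lit 522) (@Lb.t (@Lb.fp (nat_lit 9) t2344)))))))))))
noncomputable def l39111 : Lb := (@Lb.d (nat_lit 9) (nat_lit 282) (nat_lit 1) (@Lb.g g8 (@Lb.g g9 (@Lb.g g10 (@Lb.g g11 (@Lb.r r343 (@Lb.r r2406 (@Lb.r r1688 (@Lb.r r2469 (@Lb.d (nat_lit 616) (nat_lit 168) (nat_lit 664) (@Lb.fp (nat_lit 9) t340)))))))))))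
noncomputable def l39112 : Lb := (@Lb.d (nat_lit 0) (nat_lit 265) (nat_lit 130) (@Lb.g g9 (@Lb.g g10 (@Lb.g g11 (@Lb.r r2730 (@Lb.r r1419 (@Lb.r r1553 (@Lb.r r1416 (@Lb.d (nat_lit 145) (nat_lit 97) (nat_lit 106) (@Lb.t (@Lb.fm (nat_lit 9) t876)))))))))))
noncomputable def l39113 : Lb := (@Lb.r r263 (@Lb.d (nat_lit 642) (nat_lit 258) (nat_lit 2) (@Lb.g g8 (@Lb.g g9 (@Lb.g g10 (@Lb.r r2647 (@Lb.r r106 (@Lb.r r25 (@Lb.d (nat_lit 9) (nat_lit 9) (nat_lit 582) (@Lb.t (@Lb.fp (nat_lit 9) t375)))))))))))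
noncomputable def l39114 : Lb := (@Lb.r r81 (@Lb.r r323 (@Lb.d (nat_lit 10) (nat_lit 512) (nat_lit 33) (@Lb.g g8 (@Lb.g g6 (@Lb.r r149 (@Lb.r r1384 (@Lb.r r2439 (@Lb.d (nat_lit 1) (nat_lit 34) (nat_lit 544) (@Lb.fm (nat_lit 3) t981))))))))))
noncomputable def l39115 : Lb := (@Lb.d (nat_lit 2) (nat_lit 514) (nat_lit 0) (@Lb.g g8 (@Lb.g g9 (@Lb.g g10 (@Lb.r r1555 (@Lb.r r297 (@Lb.r r1188 (@Lb.r r1158 (@Lb.d (nat_lit 2) (nat_lit 10) (nat_lit 330) (@Lb.t (@Lb.fp (nat_lit 9) t88)))))))))))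
noncomputable def l39116 : Lb := (@Lb.d (nat_lit 0) (nat_lit 261) (nat_lit 0) (@Lb.g g5 (@Lb.d (nat_lit 0) (nat_lit 88) (nat_lit 522) (@Lb.t (@Lb.fm (nat_lit 3) t665)))))
noncomputable def l39117 : Lb := (@Lb.r r323 (@Lb.d (nat_lit 129) (nat_lit 4) (nat_lit 0) (@Lb.g g8 (@Lb.g g9 (@Lb.g g10 (@Lb.r r599 (@Lb.r r98 (@Lb.r r2456 (@Lb.r r1125 (@Lb.d (nat_lit 265) (nat_lit 162) (nat_lit 162) (@Lb.t (@Lb.fp (nat_lit 9) t573))))))))))))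
noncomputable def l39118 : Lb := (@Lb.d (nat_lit 162) (nat_lit 514) (nat_lit 128) (@Lb.g g8 (@Lb.g g9 (@Lb.g g11 (@Lb.r r2455 (@Lb.r r1110 (@Lb.r r2217 (@Lb.r r424 (@Lb.d (nat_lit 150) (nat_lit 33) (nat_lit 586) (@Lb.t (@Lb.fm (nat_lit 9) t2072)))))))))))
noncomputable def l39119 : Lb := (@Lb.d (nat_lit 0) (nat_lit 0) (nat_lit 130) (@Lb.g g10 (@Lb.g g11 (@Lb.r r586 (@Lb.r r584 (@Lb.r r619 (@Lb.r r609 (@Lb.d (nat_lit 2) (nat_lit 2) (nat_lit 21) (@Lb.fp (nat_lit 3) t479)))))))))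
noncomputable def l39120 : Lb := (@Lb.r r323 (@Lb.d (nat_lit 8) (nat_lit 258) (nat_lit 2) (@Lb.g g9 (@Lb.g g10 (@Lb.r r102 (@Lb.r r404 (@Lb.r r619 (@Lb.r r609 (@Lb.d (nat_lit 10) (nat_lit 145) (nat_lit 0) (@Lb.fm (nat_lit 3) t71))))))))))
noncomputable def l39121 : Lb := (@Lb.d (nat_lit 344) (nat_lit 162) (nat_lit 538) (@Lb.r r24 (@Lb.r r602 (@Lb.r r2395 (@Lb.r r661 (@Lb.g g7 (@Lb.g g6 (@Lb.d (nat_lit 0) (nat_lit 4) (nat_lit 128) (@Lb.fp (nat_lit 3) t6817)))))))))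
noncomputable def l39122 : Lb := (@Lb.d (nat_lit 153) (nat_lit 513) (nat_lit 130) (@Lb.g g8 (@Lb.g g9 (@Lb.g g10 (@Lb.g g11 (@Lb.r r1415 (@Lb.r r584 (@Lb.r r2150 (@Lb.r r97 (@Lb.r r36 (@Lb.d (nat_lit 258) (nat_lit 105) (nat_lit 385) (@Lb.fp (nat_lit 9) t2836))))))))))))
noncomputable def l39123 : Lb := (@Lb.r r323 (@Lb.d (nat_lit 138) (nat_lit 257) (nat_lit 2) (@Lb.g g8 (@Lb.g g9 (@Lb.g g10 (@Lb.r r263 (@Lb.r r98 (@Lb.r r97 (@Lb.r r536 (@Lb.d (nat_lit 69) (nat_lit 170) (nat_lit 70) (@Lb.t (@Lb.fm (nat_lit 9) t71))))))))))))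
noncomputable def l39124 : Lb := (@Lb.d (nat_lit 73) (nat_lit 289) (nat_lit 73) (@Lb.g g8 (@Lb.g g9 (@Lb.g g10 (@Lb.g g11 (@Lb.r r1667 (@Lb.r r2216 (@Lb.r r1610 (@Lb.r r2145 (@Lb.d (nat_lit 384) (nat_lit 17) (nat_lit 641) (@Lb.fm (nat_lit 9) t6818)))))))))))
noncomputable def l39125 : Lb := (@Lb.r r70 (@Lb.d (nat_lit 161) (nat_lit 514) (nat_lit 136) (@Lb.g g8 (@Lb.g g9 (@Lb.g g11 (@Lb.r r2134 (@Lb.r r345 (@Lb.r r359 (@Lb.r r644 (@Lb.d (nat_lit 169) (nat_lit 2) (nat_lit 165) (@Lb.t (@Lb.fm (nat_lit 9) t68))))))))))))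
noncomputable def l39126 : Lb := (@Lb.d (nat_lit 153) (nat_lit 418) (nat_lit 354) (@Lb.r r24 (@Lb.r r2325 (@Lb.r r338 (@Lb.r r1699 (@Lb.g g7 (@Lb.g g6 (@Lb.g g5 (@Lb.d (nat_lit 0) (nat_lit 4) (nat_lit 65) (@Lb.t (@Lb.fp (nat_lit 9) t714)))))))))))
noncomputable def l39127 : Lb := (@Lb.d (nat_lit 130) (nat_lit 2) (nat_lit 130) (@Lb.g g8 (@Lb.g g9 (@Lb.g g10 (@Lb.g g11 (@Lb.r r2327 (@Lb.r r2217 (@Lb.r r98 (@Lb.r r392 (@Lb.d (nat_lit 146) (nat_lit 6) (nat_lit 584) (@Lb.fp (nat_lit 9) t211)))))))))))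
noncomputable def l39128 : Lb := (@Lb.d (nat_lit 2) (nat_lit 516) (nat_lit 128) (@Lb.g g8 (@Lb.g g9 (@Lb.g g10 (@Lb.g g11 (@Lb.r r427 (@Lb.r r420 (@Lb.r r102 (@Lb.r r2149 (@Lb.r r1156 (@Lb.d (nat_lit 546) (nat_lit 66) (nat_lit 73) (@Lb.fm (nat_lit 9) t6819))))))))))))
noncomputable def l39129 : Lb := (@Lb.d (nat_lit 2) (nat_lit 4) (nat_lit 128) (@Lb.g g8 (@Lb.g g9 (@Lb.g g10 (@Lb.g g11 (@Lb.r r427 (@Lb.r r145 (@Lb.r r356 (@Lb.r r154 (@Lb.r r132 (@Lb.d (nat_lit 10) (nat_lit 9) (nat_lit 89) (@Lb.fm (nat_lit 9) t4998))))))))))))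
noncomputable def l39130 : Lb := (@Lb.d (nat_lit 2) (nat_lit 402) (nat_lit 389) (@Lb.r r579 (@Lb.r r1362 (@Lb.g g7 (@Lb.g g6 (@Lb.g g5 (@Lb.g g8 (@Lb.d (nat_lit 9) (nat_lit 128) (nat_lit 1) (@Lb.fp (nat_lit 9) t360)))))))))
noncomputable def l39131 : Lb := (@Lb.r r68 (@Lb.d (nat_lit 0) (nat_lit 258) (nat_lit 34) (@Lb.g g9 (@Lb.g g10 (@Lb.r r2705 (@Lb.r r2579 (@Lb.r r2312 (@Lb.d (nat_lit 290) (nat_lit 164) (nat_lit 98) (@Lb.fm (nat_lit 3) t6820)))))))))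
noncomputable def l39132 : Lb := (@Lb.d (nat_lit 144) (nat_lit 521) (nat_lit 386) (@Lb.g g8 (@Lb.g g9 (@Lb.g g10 (@Lb.g g11 (@Lb.r r610 (@Lb.r r97 (@Lb.r r388 (@Lb.d (nat_lit 98) (nat_lit 36) (nat_lit 577) (@Lb.fm (nat_lit 9) t3104))))))))))
noncomputable def l39133 : Lb := (@Lb.r r68 (@Lb.d (nat_lit 0) (nat_lit 514) (nat_lit 34) (@Lb.g g9 (@Lb.g g10 (@Lb.r r2705 (@Lb.r r2579 (@Lb.r r2312 (@Lb.d (nat_lit 290) (nat_lit 162) (nat_lit 97) (@Lb.fm (nat_lit 3) t3519)))))))))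
noncomputable def l39134 : Lb := (@Lb.r r81 (@Lb.d (nat_lit 128) (nat_lit 512) (nat_lit 105) (@Lb.g g10 (@Lb.g g11 (@Lb.r r344 (@Lb.r r679 (@Lb.r r37 (@Lb.d (nat_lit 0) (nat_lit 106) (nat_lit 25) (@Lb.fp (nat_lit 3) t2574)))))))))
noncomputable def l39135 : Lb := (@Lb.d (nat_lit 518) (nat_lit 416) (nat_lit 661) (@Lb.r r1604 (@Lb.r r405 (@Lb.r r618 (@Lb.g g11 (@Lb.g g5 (@Lb.g g4 (@Lb.d (nat_lit 6) (nat_lit 32) (nat_lit 324) (@Lb.r r578 (@Lb.t (@Lb.fm (nat_lit 9) t136)))))))))))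
noncomputable def l39136 : Lb := (@Lb.d (nat_lit 1) (nat_lit 258) (nat_lit 130) (@Lb.g g8 (@Lb.g g9 (@Lb.g g10 (@Lb.g g11 (@Lb.r r2705 (@Lb.r r535 (@Lb.r r2122 (@Lb.r r2120 (@Lb.d (nat_lit 88) (nat_lit 2) (nat_lit 168) (@Lb.fp (nat_lit 9) t6821)))))))))))
noncomputable def l39137 : Lb := (@Lb.d (nat_lit 1) (nat_lit 328) (nat_lit 152) (@Lb.r r673 (@Lb.r r2454 (@Lb.r r2411 (@Lb.g g8 (@Lb.d (nat_lit 546) (nat_lit 0) (nat_lit 0) (@Lb.t (@Lb.fp (nat_lit 3) t6822))))))))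
noncomputable def l39138 : Lb := (@Lb.d (nat_lit 33) (nat_lit 682) (nat_lit 646) (@Lb.r r168 (@Lb.r r89 (@Lb.r r386 (@Lb.g g11 (@Lb.g g6 (@Lb.g g4 (@Lb.d (nat_lit 5) (nat_lit 0) (nat_lit 129) (@Lb.t (@Lb.fm (nat_lit 9) t2094))))))))))
noncomputable def l39139 : Lb := (@Lb.d (nat_lit 405) (nat_lit 6) (nat_lit 404) (@Lb.r r24 (@Lb.r r101 (@Lb.r r386 (@Lb.g g11 (@Lb.g g6 (@Lb.g g4 (@Lb.d (nat_lit 6) (nat_lit 0) (nat_lit 129) (@Lb.t (@Lb.fp (nat_lit 9) t835))))))))))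
noncomputable def l39140 : Lb := (@Lb.r r355 (@Lb.d (nat_lit 0) (nat_lit 265) (nat_lit 0) (@Lb.g g9 (@Lb.g g6 (@Lb.r r1639 (@Lb.r r2641 (@Lb.r r24 (@Lb.d (nat_lit 644) (nat_lit 4) (nat_lit 424) (@Lb.fp (nat_lit 3) t4351)))))))))
noncomputable def l39141 : Lb := (@Lb.d (nat_lit 405) (nat_lit 518) (nat_lit 404) (@Lb.r r24 (@Lb.r r101 (@Lb.r r386 (@Lb.g g11 (@Lb.g g6 (@Lb.g g4 (@Lb.d (nat_lit 6) (nat_lit 0) (nat_lit 1) (@Lb.t (@Lb.fp (nat_lit 9) t6497))))))))))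
noncomputable def l39142 : Lb := (@Lb.g g5 (@Lb.g g7 (@Lb.r r24 (@Lb.r r421 (@Lb.r r2651 (@Lb.r r2178 (@Lb.r r2564 (@Lb.d (nat_lit 357) (nat_lit 518) (nat_lit 645) (@Lb.fm (nat_lit 3) t6823)))))))))
noncomputable def l39143 : Lb := (@Lb.r r21 (@Lb.d (nat_lit 129) (nat_lit 0) (nat_lit 66) (@Lb.g g8 (@Lb.g g10 (@Lb.g g11 (@Lb.r r1691 (@Lb.r r409 (@Lb.r r90 (@Lb.r r1348 (@Lb.d (nat_lit 521) (nat_lit 105) (nat_lit 274) (@Lb.t (@Lb.fp (nat_lit 9) t270))))))))))))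
noncomputable def l39144 : Lb := (@Lb.r r21 (@Lb.d (nat_lit 33) (nat_lit 256) (nat_lit 66) (@Lb.g g8 (@Lb.g g10 (@Lb.g g11 (@Lb.r r2715 (@Lb.r r357 (@Lb.r r154 (@Lb.r r2372 (@Lb.d (nat_lit 297) (nat_lit 165) (nat_lit 26) (@Lb.t (@Lb.fp (nat_lit 9) t3878))))))))))))
noncomputable def l39145 : Lb := (@Lb.d (nat_lit 0) (nat_lit 69) (nat_lit 18) (@Lb.r r101 (@Lb.g g7 (@Lb.g g8 (@Lb.d (nat_lit 9) (nat_lit 0) (nat_lit 68) (@Lb.fm (nat_lit 3) t5022))))))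
noncomputable def l39146 : Lb := (@Lb.d (nat_lit 144) (nat_lit 265) (nat_lit 9) (@Lb.g g8 (@Lb.g g9 (@Lb.g g10 (@Lb.g g11 (@Lb.r r1706 (@Lb.r r1411 (@Lb.r r2201 (@Lb.r r2180 (@Lb.d (nat_lit 553) (nat_lit 146) (nat_lit 101) (@Lb.fm (nat_lit 9) t3732)))))))))))
noncomputable def l39147 : Lb := (@Lb.r r323 (@Lb.d (nat_lit 9) (nat_lit 8) (nat_lit 37) (@Lb.g g8 (@Lb.g g9 (@Lb.g g6 (@Lb.r r2667 (@Lb.r r2585 (@Lb.r r2564 (@Lb.d (nat_lit 649) (nat_lit 66) (nat_lit 385) (@Lb.t (@Lb.fm (nat_lit 9) t211)))))))))))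
noncomputable def l39148 : Lb := (@Lb.g g7 (@Lb.r r101 (@Lb.r r24 (@Lb.d (nat_lit 354) (nat_lit 256) (nat_lit 581) (@Lb.t (@Lb.fm (nat_lit 3) t166))))))
noncomputable def l39149 : Lb := (@Lb.r r515 (@Lb.r r340 (@Lb.r r362 (@Lb.r r597 (@Lb.r r20 (@Lb.d (nat_lit 258) (nat_lit 0) (nat_lit 101) (@Lb.fm (nat_lit 1) t991)))))))
noncomputable def l39150 : Lb := (@Lb.d (nat_lit 326) (nat_lit 326) (nat_lit 105) (@Lb.r r2068 (@Lb.r r297 (@Lb.r r599 (@Lb.g g6 (@Lb.g g5 (@Lb.g g4 (@Lb.d (nat_lit 64) (nat_lit 9) (nat_lit 32) (@Lb.r r387 (@Lb.t (@Lb.fp (nat_lit 9) t6824)))))))))))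
noncomputable def l39151 : Lb := (@Lb.d (nat_lit 389) (nat_lit 680) (nat_lit 25) (@Lb.r r148 (@Lb.r r2730 (@Lb.r r1451 (@Lb.g g6 (@Lb.g g5 (@Lb.g g4 (@Lb.d (nat_lit 32) (nat_lit 97) (nat_lit 0) (@Lb.t (@Lb.fm (nat_lit 9) t6825))))))))))
noncomputable def l39152 : Lb := (@Lb.d (nat_lit 645) (nat_lit 0) (nat_lit 66) (@Lb.g g4 (@Lb.g g9 (@Lb.g g10 (@Lb.g g11 (@Lb.r r2214 (@Lb.r r545 (@Lb.r r611 (@Lb.r r2577 (@Lb.d (nat_lit 145) (nat_lit 138) (nat_lit 361) (@Lb.fp (nat_lit 9) t3460)))))))))))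
noncomputable def l39153 : Lb := (@Lb.r r322 (@Lb.d (nat_lit 544) (nat_lit 0) (nat_lit 576) (@Lb.g g4 (@Lb.g g9 (@Lb.g g11 (@Lb.r r1426 (@Lb.r r1633 (@Lb.d (nat_lit 8) (nat_lit 66) (nat_lit 384) (@Lb.t (@Lb.fp (nat_lit 9) t3136))))))))))
noncomputable def l39154 : Lb := (@Lb.r r82 (@Lb.d (nat_lit 2) (nat_lit 298) (nat_lit 64) (@Lb.g g8 (@Lb.g g9 (@Lb.g g11 (@Lb.r r355 (@Lb.r r1174 (@Lb.r r2133 (@Lb.d (nat_lit 150) (nat_lit 136) (nat_lit 41) (@Lb.t (@Lb.fp (nat_lit 9) t6826)))))))))))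
noncomputable def l39155 : Lb := (@Lb.r r82 (@Lb.r r275 (@Lb.d (nat_lit 130) (nat_lit 6) (nat_lit 0) (@Lb.g g8 (@Lb.g g9 (@Lb.r r599 (@Lb.r r98 (@Lb.r r292 (@Lb.d (nat_lit 394) (nat_lit 34) (nat_lit 642) (@Lb.fp (nat_lit 3) t2012))))))))))
noncomputable def l39156 : Lb := (@Lb.d (nat_lit 657) (nat_lit 677) (nat_lit 21) (@Lb.r r2632 (@Lb.r r97 (@Lb.g g7 (@Lb.g g10 (@Lb.g g4 (@Lb.d (nat_lit 1) (nat_lit 0) (nat_lit 0) (@Lb.r r25 (@Lb.t (@Lb.fm (nat_lit 9) t5982))))))))))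
noncomputable def l39157 : Lb := (@Lb.d (nat_lit 400) (nat_lit 613) (nat_lit 401) (@Lb.r r101 (@Lb.r r1624 (@Lb.g g7 (@Lb.d (nat_lit 0) (nat_lit 0) (nat_lit 68) (@Lb.t (@Lb.fm (nat_lit 3) t6827)))))))
noncomputable def l39158 : Lb := (@Lb.d (nat_lit 34) (nat_lit 528) (nat_lit 0) (@Lb.g g8 (@Lb.g g9 (@Lb.r r515 (@Lb.r r582 (@Lb.r r132 (@Lb.d (nat_lit 40) (nat_lit 20) (nat_lit 10) (@Lb.fp (nat_lit 3) t1412))))))))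
noncomputable def l39159 : Lb := (@Lb.r r82 (@Lb.d (nat_lit 0) (nat_lit 33) (nat_lit 64) (@Lb.g g8 (@Lb.g g9 (@Lb.g g11 (@Lb.r r1633 (@Lb.r r2599 (@Lb.r r146 (@Lb.r r2120 (@Lb.d (nat_lit 18) (nat_lit 137) (nat_lit 329) (@Lb.t (@Lb.fm (nat_lit 9) t5665))))))))))))
noncomputable def l39160 : Lb := (@Lb.d (nat_lit 2) (nat_lit 514) (nat_lit 2) (@Lb.g g8 (@Lb.g g9 (@Lb.g g10 (@Lb.r r2666 (@Lb.r r579 (@Lb.r r97 (@Lb.r r24 (@Lb.d (nat_lit 146) (nat_lit 73) (nat_lit 340) (@Lb.t (@Lb.fp (nat_lit 9) t741)))))))))))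
noncomputable def l39161 : Lb := (@Lb.d (nat_lit 1) (nat_lit 2) (nat_lit 130) (@Lb.g g8 (@Lb.g g9 (@Lb.g g10 (@Lb.g g11 (@Lb.r r427 (@Lb.r r297 (@Lb.r r104 (@Lb.r r70 (@Lb.r r132 (@Lb.d (nat_lit 2) (nat_lit 21) (nat_lit 134) (@Lb.fp (nat_lit 9) t51))))))))))))
noncomputable def l39162 : Lb := (@Lb.d (nat_lit 2) (nat_lit 258) (nat_lit 130) (@Lb.g g8 (@Lb.g g9 (@Lb.g g10 (@Lb.g g11 (@Lb.r r427 (@Lb.r r297 (@Lb.r r104 (@Lb.r r70 (@Lb.r r132 (@Lb.d (nat_lit 0) (nat_lit 21) (nat_lit 134) (@Lb.fp (nat_lit 9) t51))))))))))))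
noncomputable def l39163 : Lb := (@Lb.r r70 (@Lb.d (nat_lit 2) (nat_lit 258) (nat_lit 128) (@Lb.g g8 (@Lb.g g9 (@Lb.g g11 (@Lb.r r2379 (@Lb.r r610 (@Lb.r r97 (@Lb.r r2072 (@Lb.d (nat_lit 21) (nat_lit 70) (nat_lit 17) (@Lb.t (@Lb.fm (nat_lit 9) t2464))))))))))))
noncomputable def l39164 : Lb := (@Lb.d (nat_lit 16) (nat_lit 258) (nat_lit 128) (@Lb.g g8 (@Lb.g g9 (@Lb.g g10 (@Lb.g g11 (@Lb.r r388 (@Lb.r r1355 (@Lb.r r666 (@Lb.r r97 (@Lb.r r2068 (@Lb.d (nat_lit 586) (nat_lit 132) (nat_lit 161) (@Lb.fp (nat_lit 9) t50))))))))))))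
noncomputable def l39165 : Lb := (@Lb.d (nat_lit 4) (nat_lit 548) (nat_lit 133) (@Lb.g g8 (@Lb.g g9 (@Lb.g g10 (@Lb.g g11 (@Lb.r r1706 (@Lb.r r676 (@Lb.r r551 (@Lb.r r533 (@Lb.r r1060 (@Lb.d (nat_lit 393) (nat_lit 1) (nat_lit 640) (@Lb.fp (nat_lit 9) t264))))))))))))
noncomputable def l39166 : Lb := (@Lb.d (nat_lit 6) (nat_lit 512) (nat_lit 130) (@Lb.g g8 (@Lb.g g9 (@Lb.g g10 (@Lb.g g11 (@Lb.r r2411 (@Lb.r r386 (@Lb.r r104 (@Lb.r r25 (@Lb.d (nat_lit 522) (nat_lit 9) (nat_lit 70) (@Lb.fp (nat_lit 9) t61)))))))))))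
noncomputable def l39167 : Lb := (@Lb.d (nat_lit 5) (nat_lit 518) (nat_lit 129) (@Lb.g g4 (@Lb.t (@Lb.fm (nat_lit 3) t45))))
noncomputable def l39168 : Lb := (@Lb.d (nat_lit 273) (nat_lit 522) (nat_lit 0) (@Lb.g g4 (@Lb.g g9 (@Lb.r r1383 (@Lb.r r1626 (@Lb.r r1429 (@Lb.d (nat_lit 356) (nat_lit 88) (nat_lit 137) (@Lb.fp (nat_lit 3) t2211))))))))
noncomputable def l39169 : Lb := (@Lb.d (nat_lit 538) (nat_lit 17) (nat_lit 150) (@Lb.r r386 (@Lb.r r339 (@Lb.g g7 (@Lb.g g6 (@Lb.g g5 (@Lb.g g8 (@Lb.d (nat_lit 2) (nat_lit 129) (nat_lit 65) (@Lb.fp (nat_lit 9) t3104)))))))))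
noncomputable def l39170 : Lb := (@Lb.d (nat_lit 538) (nat_lit 273) (nat_lit 81) (@Lb.r r386 (@Lb.r r339 (@Lb.g g7 (@Lb.g g6 (@Lb.g g5 (@Lb.g g8 (@Lb.d (nat_lit 2) (nat_lit 129) (nat_lit 65) (@Lb.fp (nat_lit 9) t3104)))))))))
noncomputable def l39171 : Lb := (@Lb.r r616 (@Lb.r r2665 (@Lb.r r2390 (@Lb.r r1188 (@Lb.d (nat_lit 2) (nat_lit 66) (nat_lit 512) (@Lb.fp (nat_lit 1) t322))))))
noncomputable def l39172 : Lb := (@Lb.d (nat_lit 2) (nat_lit 2) (nat_lit 73) (@Lb.g g8 (@Lb.g g9 (@Lb.g g10 (@Lb.g g11 (@Lb.r r1689 (@Lb.r r2579 (@Lb.r r386 (@Lb.d (nat_lit 289) (nat_lit 162) (nat_lit 361) (@Lb.fp (nat_lit 9) t791))))))))))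
noncomputable def l39173 : Lb := (@Lb.d (nat_lit 0) (nat_lit 258) (nat_lit 128) (@Lb.g g9 (@Lb.g g11 (@Lb.r r273 (@Lb.r r2467 (@Lb.r r1414 (@Lb.r r1124 (@Lb.d (nat_lit 65) (nat_lit 65) (nat_lit 512) (@Lb.fp (nat_lit 3) t2102)))))))))
noncomputable def l39174 : Lb := (@Lb.d (nat_lit 649) (nat_lit 400) (nat_lit 320) (@Lb.r r289 (@Lb.r r279 (@Lb.r r584 (@Lb.r r166 (@Lb.g g7 (@Lb.g g6 (@Lb.g g5 (@Lb.d (nat_lit 0) (nat_lit 0) (nat_lit 65) (@Lb.t (@Lb.fm (nat_lit 9) t581)))))))))))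
noncomputable def l39175 : Lb := (@Lb.r r70 (@Lb.d (nat_lit 74) (nat_lit 274) (nat_lit 128) (@Lb.g g8 (@Lb.g g9 (@Lb.g g11 (@Lb.r r299 (@Lb.r r1634 (@Lb.r r529 (@Lb.r r1556 (@Lb.d (nat_lit 520) (nat_lit 129) (nat_lit 64) (@Lb.t (@Lb.fm (nat_lit 9) t6828))))))))))))
noncomputable def l39176 : Lb := (@Lb.d (nat_lit 0) (nat_lit 514) (nat_lit 128) (@Lb.g g9 (@Lb.g g11 (@Lb.r r273 (@Lb.r r2467 (@Lb.r r1414 (@Lb.r r1124 (@Lb.d (nat_lit 346) (nat_lit 74) (nat_lit 544) (@Lb.fp (nat_lit 3) t2553)))))))))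
noncomputable def l39177 : Lb := (@Lb.d (nat_lit 8) (nat_lit 514) (nat_lit 128) (@Lb.g g9 (@Lb.g g11 (@Lb.r r1540 (@Lb.r r423 (@Lb.r r401 (@Lb.r r2450 (@Lb.d (nat_lit 8) (nat_lit 86) (nat_lit 353) (@Lb.fp (nat_lit 3) t6829)))))))))
noncomputable def l39178 : Lb := (@Lb.d (nat_lit 261) (nat_lit 134) (nat_lit 32) (@Lb.r r2661 (@Lb.r r1304 (@Lb.r r2659 (@Lb.g g7 (@Lb.g g10 (@Lb.g g5 (@Lb.d (nat_lit 36) (nat_lit 1) (nat_lit 65) (@Lb.t (@Lb.fp (nat_lit 9) t6830))))))))))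
noncomputable def l39179 : Lb := (@Lb.r r21 (@Lb.d (nat_lit 10) (nat_lit 0) (nat_lit 2) (@Lb.g g8 (@Lb.g g10 (@Lb.r r411 (@Lb.r r386 (@Lb.r r37 (@Lb.d (nat_lit 2) (nat_lit 24) (nat_lit 9) (@Lb.fm (nat_lit 3) t51)))))))))
noncomputable def l39180 : Lb := (@Lb.r r20 (@Lb.r r82 (@Lb.d (nat_lit 0) (nat_lit 289) (nat_lit 128) (@Lb.g g9 (@Lb.g g11 (@Lb.r r291 (@Lb.r r2650 (@Lb.r r2345 (@Lb.d (nat_lit 580) (nat_lit 16) (nat_lit 384) (@Lb.fp (nat_lit 3) t1771))))))))))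
noncomputable def l39181 : Lb := (@Lb.d (nat_lit 0) (nat_lit 514) (nat_lit 128) (@Lb.g g9 (@Lb.g g11 (@Lb.r r273 (@Lb.r r2467 (@Lb.r r1414 (@Lb.r r1124 (@Lb.d (nat_lit 345) (nat_lit 74) (nat_lit 608) (@Lb.fp (nat_lit 3) t6831)))))))))
noncomputable def l39182 : Lb := (@Lb.d (nat_lit 553) (nat_lit 324) (nat_lit 80) (@Lb.r r2580 (@Lb.r r2329 (@Lb.r r2378 (@Lb.g g7 (@Lb.d (nat_lit 64) (nat_lit 0) (nat_lit 576) (@Lb.t (@Lb.fm (nat_lit 3) t5638))))))))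
noncomputable def l39183 : Lb := (@Lb.r r323 (@Lb.d (nat_lit 9) (nat_lit 34) (nat_lit 2) (@Lb.g g8 (@Lb.g g9 (@Lb.g g10 (@Lb.r r535 (@Lb.r r106 (@Lb.r r361 (@Lb.d (nat_lit 165) (nat_lit 25) (nat_lit 70) (@Lb.t (@Lb.fm (nat_lit 9) t242)))))))))))
noncomputable def l39184 : Lb := (@Lb.d (nat_lit 9) (nat_lit 258) (nat_lit 73) (@Lb.g g8 (@Lb.g g9 (@Lb.g g10 (@Lb.g g11 (@Lb.r r665 (@Lb.r r659 (@Lb.r r578 (@Lb.d (nat_lit 129) (nat_lit 5) (nat_lit 72) (@Lb.fm (nat_lit 9) t242))))))))))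
noncomputable def l39185 : Lb := (@Lb.d (nat_lit 32) (nat_lit 520) (nat_lit 72) (@Lb.g g10 (@Lb.g g11 (@Lb.r r1643 (@Lb.r r1640 (@Lb.r r617 (@Lb.r r1366 (@Lb.d (nat_lit 534) (nat_lit 86) (nat_lit 278) (@Lb.fp (nat_lit 3) t322)))))))))
noncomputable def l39186 : Lb := (@Lb.d (nat_lit 2) (nat_lit 514) (nat_lit 74) (@Lb.g g8 (@Lb.g g9 (@Lb.g g10 (@Lb.g g11 (@Lb.r r1559 (@Lb.r r1177 (@Lb.r r2194 (@Lb.d (nat_lit 289) (nat_lit 150) (nat_lit 538) (@Lb.fp (nat_lit 9) t791))))))))))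
noncomputable def l39187 : Lb := (@Lb.r r273 (@Lb.d (nat_lit 64) (nat_lit 32) (nat_lit 584) (@Lb.g g7 (@Lb.r r2662 (@Lb.r r613 (@Lb.r r24 (@Lb.d (nat_lit 514) (nat_lit 133) (nat_lit 133) (@Lb.t (@Lb.fm (nat_lit 3) t6832)))))))))
noncomputable def l39188 : Lb := (@Lb.d (nat_lit 22) (nat_lit 649) (nat_lit 33) (@Lb.r r2150 (@Lb.r r101 (@Lb.r r1383 (@Lb.g g6 (@Lb.g g4 (@Lb.d (nat_lit 1) (nat_lit 4) (nat_lit 0) (@Lb.r r387 (@Lb.fp (nat_lit 3) t2491)))))))))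
noncomputable def l39189 : Lb := (@Lb.r r21 (@Lb.r r263 (@Lb.d (nat_lit 41) (nat_lit 512) (nat_lit 41) (@Lb.g g8 (@Lb.g g10 (@Lb.r r2449 (@Lb.r r679 (@Lb.r r1432 (@Lb.d (nat_lit 153) (nat_lit 90) (nat_lit 393) (@Lb.fm (nat_lit 3) t6833))))))))))
noncomputable def l39190 : Lb := (@Lb.d (nat_lit 144) (nat_lit 546) (nat_lit 4) (@Lb.g g8 (@Lb.g g9 (@Lb.g g10 (@Lb.g g11 (@Lb.r r1194 (@Lb.r r2308 (@Lb.r r2443 (@Lb.r r153 (@Lb.d (nat_lit 677) (nat_lit 21) (nat_lit 356) (@Lb.fm (nat_lit 9) t4288)))))))))))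
noncomputable def l39191 : Lb := (@Lb.r r21 (@Lb.r r70 (@Lb.d (nat_lit 293) (nat_lit 512) (nat_lit 324) (@Lb.g g4 (@Lb.g g7 (@Lb.r r101 (@Lb.r r2450 (@Lb.d (nat_lit 8) (nat_lit 32) (nat_lit 422) (@Lb.fm (nat_lit 3) t1732)))))))))
noncomputable def l39192 : Lb := (@Lb.r r21 (@Lb.r r70 (@Lb.d (nat_lit 33) (nat_lit 512) (nat_lit 0) (@Lb.g g4 (@Lb.g g7 (@Lb.r r74 (@Lb.r r25 (@Lb.d (nat_lit 17) (nat_lit 10) (nat_lit 85) (@Lb.fm (nat_lit 3) t6834)))))))))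
noncomputable def l39193 : Lb := (@Lb.d (nat_lit 128) (nat_lit 544) (nat_lit 64) (@Lb.g g11 (@Lb.r r296 (@Lb.r r2473 (@Lb.r r599 (@Lb.r r2178 (@Lb.d (nat_lit 677) (nat_lit 170) (nat_lit 390) (@Lb.t (@Lb.fp (nat_lit 3) t124)))))))))
noncomputable def l39194 : Lb := (@Lb.d (nat_lit 324) (nat_lit 82) (nat_lit 610) (@Lb.r r2585 (@Lb.r r2178 (@Lb.r r283 (@Lb.g g9 (@Lb.g g4 (@Lb.d (nat_lit 288) (nat_lit 17) (nat_lit 0) (@Lb.fm (nat_lit 3) t5796))))))))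
noncomputable def l39195 : Lb := (@Lb.d (nat_lit 130) (nat_lit 2) (nat_lit 66) (@Lb.g g8 (@Lb.g g9 (@Lb.g g10 (@Lb.g g11 (@Lb.r r427 (@Lb.r r164 (@Lb.r r2438 (@Lb.r r97 (@Lb.d (nat_lit 545) (nat_lit 24) (nat_lit 409) (@Lb.fp (nat_lit 9) t3270)))))))))))
noncomputable def l39196 : Lb := (@Lb.r r21 (@Lb.d (nat_lit 144) (nat_lit 256) (nat_lit 64) (@Lb.g g8 (@Lb.g g10 (@Lb.g g11 (@Lb.r r387 (@Lb.r r132 (@Lb.r r1414 (@Lb.r r145 (@Lb.d (nat_lit 593) (nat_lit 0) (nat_lit 153) (@Lb.t (@Lb.fp (nat_lit 9) t4))))))))))))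
noncomputable def l39197 : Lb := (@Lb.d (nat_lit 2) (nat_lit 258) (nat_lit 72) (@Lb.g g8 (@Lb.g g9 (@Lb.g g11 (@Lb.r r1410 (@Lb.r r579 (@Lb.r r104 (@Lb.r r25 (@Lb.d (nat_lit 41) (nat_lit 9) (nat_lit 0) (@Lb.t (@Lb.fp (nat_lit 9) t40)))))))))))
noncomputable def l39198 : Lb := (@Lb.d (nat_lit 2) (nat_lit 2) (nat_lit 0) (@Lb.g g8 (@Lb.g g9 (@Lb.r r322 (@Lb.r r1667 (@Lb.r r578 (@Lb.r r25 (@Lb.d (nat_lit 9) (nat_lit 146) (nat_lit 394) (@Lb.fp (nat_lit 3) t210)))))))))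
noncomputable def l39199 : Lb := (@Lb.d (nat_lit 4) (nat_lit 261) (nat_lit 0) (@Lb.g g8 (@Lb.g g9 (@Lb.g g10 (@Lb.r r2599 (@Lb.r r2632 (@Lb.r r2438 (@Lb.r r2721 (@Lb.d (nat_lit 362) (nat_lit 89) (nat_lit 166) (@Lb.t (@Lb.fm (nat_lit 9) t2380)))))))))))
noncomputable def l39200 : Lb := (@Lb.d (nat_lit 0) (nat_lit 2) (nat_lit 130) (@Lb.g g8 (@Lb.g g9 (@Lb.g g10 (@Lb.g g11 (@Lb.r r427 (@Lb.r r1096 (@Lb.r r2438 (@Lb.r r97 (@Lb.d (nat_lit 409) (nat_lit 137) (nat_lit 150) (@Lb.fm (nat_lit 9) t5184)))))))))))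
noncomputable def l39201 : Lb := (@Lb.d (nat_lit 0) (nat_lit 512) (nat_lit 72) (@Lb.g g9 (@Lb.g g10 (@Lb.g g11 (@Lb.r r2470 (@Lb.r r328 (@Lb.r r535 (@Lb.r r289 (@Lb.d (nat_lit 10) (nat_lit 66) (nat_lit 128) (@Lb.t (@Lb.fm (nat_lit 9) t1115)))))))))))
noncomputable def l39202 : Lb := (@Lb.d (nat_lit 36) (nat_lit 0) (nat_lit 73) (@Lb.g g8 (@Lb.g g9 (@Lb.g g10 (@Lb.g g11 (@Lb.r r643 (@Lb.r r1194 (@Lb.r r2337 (@Lb.r r2200 (@Lb.d (nat_lit 664) (nat_lit 41) (nat_lit 594) (@Lb.fp (nat_lit 9) t6835)))))))))))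
noncomputable def l39203 : Lb := (@Lb.r r82 (@Lb.r r283 (@Lb.d (nat_lit 649) (nat_lit 514) (nat_lit 0) (@Lb.g g8 (@Lb.g g9 (@Lb.r r362 (@Lb.r r353 (@Lb.r r1435 (@Lb.d (nat_lit 81) (nat_lit 88) (nat_lit 586) (@Lb.fp (nat_lit 3) t6836))))))))))
noncomputable def l39204 : Lb := (@Lb.d (nat_lit 0) (nat_lit 256) (nat_lit 72) (@Lb.g g9 (@Lb.g g10 (@Lb.g g11 (@Lb.r r1555 (@Lb.r r2154 (@Lb.r r1624 (@Lb.r r2341 (@Lb.d (nat_lit 136) (nat_lit 66) (nat_lit 640) (@Lb.t (@Lb.fp (nat_lit 9) t6837)))))))))))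
noncomputable def l39205 : Lb := (@Lb.d (nat_lit 41) (nat_lit 68) (nat_lit 154) (@Lb.r r21 (@Lb.r r104 (@Lb.r r2567 (@Lb.g g10 (@Lb.g g5 (@Lb.d (nat_lit 0) (nat_lit 1) (nat_lit 2) (@Lb.r r387 (@Lb.fp (nat_lit 3) t830)))))))))
noncomputable def l39206 : Lb := (@Lb.g g9 (@Lb.g g7 (@Lb.r r2403 (@Lb.r r134 (@Lb.r r1624 (@Lb.r r2341 (@Lb.d (nat_lit 64) (nat_lit 64) (nat_lit 512) (@Lb.fm (nat_lit 3) t1954))))))))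
noncomputable def l39207 : Lb := (@Lb.r r68 (@Lb.d (nat_lit 0) (nat_lit 516) (nat_lit 106) (@Lb.g g9 (@Lb.g g6 (@Lb.g g11 (@Lb.r r2659 (@Lb.r r97 (@Lb.r r2340 (@Lb.d (nat_lit 0) (nat_lit 41) (nat_lit 128) (@Lb.t (@Lb.fp (nat_lit 9) t6838)))))))))))
noncomputable def l39208 : Lb := (@Lb.r r275 (@Lb.d (nat_lit 2) (nat_lit 34) (nat_lit 0) (@Lb.g g8 (@Lb.g g9 (@Lb.r r1675 (@Lb.r r2178 (@Lb.r r1636 (@Lb.r r1557 (@Lb.d (nat_lit 662) (nat_lit 164) (nat_lit 673) (@Lb.fm (nat_lit 3) t2582))))))))))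
noncomputable def l39209 : Lb := (@Lb.d (nat_lit 130) (nat_lit 258) (nat_lit 130) (@Lb.g g8 (@Lb.g g9 (@Lb.g g10 (@Lb.g g11 (@Lb.r r2721 (@Lb.r r1447 (@Lb.r r386 (@Lb.r r1560 (@Lb.d (nat_lit 677) (nat_lit 97) (nat_lit 362) (@Lb.fm (nat_lit 9) t1606)))))))))))
noncomputable def l39210 : Lb := (@Lb.r r331 (@Lb.d (nat_lit 33) (nat_lit 129) (nat_lit 1) (@Lb.g g8 (@Lb.g g9 (@Lb.g g10 (@Lb.r r1675 (@Lb.r r1602 (@Lb.r r1348 (@Lb.d (nat_lit 641) (nat_lit 129) (nat_lit 360) (@Lb.t (@Lb.fp (nat_lit 9) t1849)))))))))))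
noncomputable def l39211 : Lb := (@Lb.r r331 (@Lb.d (nat_lit 33) (nat_lit 512) (nat_lit 1) (@Lb.g g8 (@Lb.g g10 (@Lb.r r1675 (@Lb.r r1602 (@Lb.r r1057 (@Lb.r r1348 (@Lb.d (nat_lit 641) (nat_lit 0) (nat_lit 360) (@Lb.fm (nat_lit 3) t1849))))))))))
noncomputable def l39212 : Lb := (@Lb.d (nat_lit 409) (nat_lit 149) (nat_lit 293) (@Lb.r r1636 (@Lb.r r613 (@Lb.r r1370 (@Lb.g g11 (@Lb.g g4 (@Lb.d (nat_lit 70) (nat_lit 0) (nat_lit 580) (@Lb.fm (nat_lit 3) t188))))))))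
noncomputable def l39213 : Lb := (@Lb.d (nat_lit 154) (nat_lit 297) (nat_lit 132) (@Lb.r r82 (@Lb.r r421 (@Lb.g g11 (@Lb.g g6 (@Lb.g g8 (@Lb.d (nat_lit 0) (nat_lit 0) (nat_lit 72) (@Lb.t (@Lb.fm (nat_lit 9) t1045)))))))))
noncomputable def l39214 : Lb := (@Lb.d (nat_lit 66) (nat_lit 578) (nat_lit 353) (@Lb.r r516 (@Lb.r r609 (@Lb.r r402 (@Lb.r r263 (@Lb.g g8 (@Lb.d (nat_lit 65) (nat_lit 0) (nat_lit 0) (@Lb.t (@Lb.fp (nat_lit 3) t126)))))))))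
noncomputable def l39215 : Lb := (@Lb.d (nat_lit 25) (nat_lit 260) (nat_lit 2) (@Lb.r r104 (@Lb.r r609 (@Lb.r r402 (@Lb.r r551 (@Lb.g g4 (@Lb.d (nat_lit 65) (nat_lit 0) (nat_lit 0) (@Lb.t (@Lb.fm (nat_lit 3) t39)))))))))
noncomputable def l39216 : Lb := (@Lb.d (nat_lit 408) (nat_lit 553) (nat_lit 132) (@Lb.r r1604 (@Lb.r r82 (@Lb.r r409 (@Lb.g g11 (@Lb.g g6 (@Lb.g g4 (@Lb.d (nat_lit 5) (nat_lit 0) (nat_lit 129) (@Lb.t (@Lb.fm (nat_lit 9) t2312))))))))))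
noncomputable def l39217 : Lb := (@Lb.d (nat_lit 41) (nat_lit 256) (nat_lit 128) (@Lb.g g8 (@Lb.g g11 (@Lb.r r2709 (@Lb.r r663 (@Lb.r r582 (@Lb.r r2712 (@Lb.d (nat_lit 130) (nat_lit 24) (nat_lit 281) (@Lb.fm (nat_lit 3) t4822)))))))))
noncomputable def l39218 : Lb := (@Lb.d (nat_lit 664) (nat_lit 153) (nat_lit 150) (@Lb.r r2667 (@Lb.r r516 (@Lb.r r105 (@Lb.r r150 (@Lb.g g7 (@Lb.g g5 (@Lb.d (nat_lit 64) (nat_lit 2) (nat_lit 0) (@Lb.fp (nat_lit 3) t1096)))))))))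
noncomputable def l39219 : Lb := (@Lb.g g9 (@Lb.g g10 (@Lb.r r149 (@Lb.d (nat_lit 34) (nat_lit 522) (nat_lit 1) (@Lb.fm (nat_lit 3) t39)))))
noncomputable def l39220 : Lb := (@Lb.d (nat_lit 0) (nat_lit 514) (nat_lit 0) (@Lb.g g9 (@Lb.g g10 (@Lb.g g7 (@Lb.r r145 (@Lb.d (nat_lit 0) (nat_lit 8) (nat_lit 1) (@Lb.t (@Lb.fp (nat_lit 9) t97))))))))
noncomputable def l39221 : Lb := (@Lb.d (nat_lit 37) (nat_lit 257) (nat_lit 2) (@Lb.r r24 (@Lb.r r85 (@Lb.r r418 (@Lb.r r323 (@Lb.g g7 (@Lb.g g6 (@Lb.g g5 (@Lb.d (nat_lit 0) (nat_lit 2) (nat_lit 64) (@Lb.t (@Lb.fp (nat_lit 9) t50)))))))))))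
noncomputable def l39222 : Lb := (@Lb.r r338 (@Lb.d (nat_lit 0) (nat_lit 290) (nat_lit 64) (@Lb.g g9 (@Lb.g g7 (@Lb.r r418 (@Lb.r r149 (@Lb.r r8 (@Lb.d (nat_lit 264) (nat_lit 26) (nat_lit 642) (@Lb.fp (nat_lit 3) t283)))))))))
noncomputable def l39223 : Lb := (@Lb.d (nat_lit 257) (nat_lit 164) (nat_lit 657) (@Lb.r r402 (@Lb.r r101 (@Lb.g g8 (@Lb.d (nat_lit 2) (nat_lit 0) (nat_lit 0) (@Lb.t (@Lb.fp (nat_lit 3) t2898)))))))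
noncomputable def l39224 : Lb := (@Lb.d (nat_lit 0) (nat_lit 514) (nat_lit 66) (@Lb.g g9 (@Lb.g g6 (@Lb.g g11 (@Lb.r r1125 (@Lb.r r8 (@Lb.d (nat_lit 545) (nat_lit 138) (nat_lit 80) (@Lb.t (@Lb.fp (nat_lit 9) t39)))))))))
noncomputable def l39225 : Lb := (@Lb.r r338 (@Lb.d (nat_lit 0) (nat_lit 290) (nat_lit 136) (@Lb.g g9 (@Lb.g g7 (@Lb.r r20 (@Lb.r r153 (@Lb.d (nat_lit 2) (nat_lit 69) (nat_lit 146) (@Lb.fp (nat_lit 3) t2898))))))))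
noncomputable def l39226 : Lb := (@Lb.d (nat_lit 1) (nat_lit 256) (nat_lit 0) (@Lb.g g8 (@Lb.g g5 (@Lb.g g10 (@Lb.g g7 (@Lb.r r402 (@Lb.d (nat_lit 2) (nat_lit 24) (nat_lit 66) (@Lb.fm (nat_lit 9) t71))))))))
noncomputable def l39227 : Lb := (@Lb.r r515 (@Lb.r r130 (@Lb.r r33 (@Lb.r r36 (@Lb.d (nat_lit 4) (nat_lit 129) (nat_lit 0) (@Lb.fm (nat_lit 1) t2))))))
noncomputable def l39228 : Lb := (@Lb.d (nat_lit 10) (nat_lit 584) (nat_lit 74) (@Lb.r r20 (@Lb.r r402 (@Lb.g g11 (@Lb.g g9 (@Lb.g g4 (@Lb.d (nat_lit 1) (nat_lit 10) (nat_lit 0) (@Lb.t (@Lb.fm (nat_lit 9) t1176)))))))))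
noncomputable def l39229 : Lb := (@Lb.d (nat_lit 10) (nat_lit 328) (nat_lit 74) (@Lb.r r20 (@Lb.r r402 (@Lb.g g11 (@Lb.g g9 (@Lb.g g4 (@Lb.d (nat_lit 2) (nat_lit 10) (nat_lit 0) (@Lb.t (@Lb.fm (nat_lit 9) t1176)))))))))
noncomputable def l39230 : Lb := (@Lb.r r273 (@Lb.r r2595 (@Lb.r r2178 (@Lb.r r529 (@Lb.r r2584 (@Lb.d (nat_lit 5) (nat_lit 385) (nat_lit 512) (@Lb.fm (nat_lit 1) t1222)))))))
noncomputable def l39231 : Lb := (@Lb.d (nat_lit 132) (nat_lit 538) (nat_lit 1) (@Lb.g g8 (@Lb.g g9 (@Lb.g g10 (@Lb.g g11 (@Lb.r r1387 (@Lb.r r1418 (@Lb.r r40 (@Lb.r r1129 (@Lb.r r2084 (@Lb.d (nat_lit 548) (nat_lit 88) (nat_lit 577) (@Lb.fm (nat_lit 9) t6839))))))))))))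
noncomputable def l39232 : Lb := (@Lb.r r273 (@Lb.r r2595 (@Lb.r r2178 (@Lb.r r529 (@Lb.r r2584 (@Lb.d (nat_lit 0) (nat_lit 640) (nat_lit 512) (@Lb.fm (nat_lit 1) t1222)))))))
noncomputable def l39233 : Lb := (@Lb.d (nat_lit 128) (nat_lit 2) (nat_lit 130) (@Lb.g g8 (@Lb.g g9 (@Lb.g g10 (@Lb.g g11 (@Lb.r r419 (@Lb.r r1702 (@Lb.r r344 (@Lb.r r1429 (@Lb.r r1060 (@Lb.d (nat_lit 616) (nat_lit 166) (nat_lit 401) (@Lb.fp (nat_lit 9) t163))))))))))))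
noncomputable def l39234 : Lb := (@Lb.d (nat_lit 2) (nat_lit 258) (nat_lit 66) (@Lb.g g8 (@Lb.g g9 (@Lb.g g10 (@Lb.g g7 (@Lb.r r386 (@Lb.r r2657 (@Lb.r r1304 (@Lb.d (nat_lit 10) (nat_lit 169) (nat_lit 101) (@Lb.fp (nat_lit 9) t6840))))))))))
noncomputable def l39235 : Lb := (@Lb.d (nat_lit 128) (nat_lit 514) (nat_lit 130) (@Lb.g g8 (@Lb.g g9 (@Lb.g g10 (@Lb.g g11 (@Lb.r r419 (@Lb.r r1702 (@Lb.r r344 (@Lb.r r1429 (@Lb.r r1060 (@Lb.d (nat_lit 616) (nat_lit 168) (nat_lit 402) (@Lb.fp (nat_lit 9) t3335))))))))))))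
noncomputable def l39236 : Lb := (@Lb.d (nat_lit 40) (nat_lit 513) (nat_lit 0) (@Lb.g g8 (@Lb.g g9 (@Lb.r r1387 (@Lb.r r361 (@Lb.r r150 (@Lb.r r1124 (@Lb.d (nat_lit 282) (nat_lit 10) (nat_lit 409) (@Lb.fm (nat_lit 3) t51)))))))))
noncomputable def l39237 : Lb := (@Lb.d (nat_lit 2) (nat_lit 2) (nat_lit 66) (@Lb.g g8 (@Lb.g g9 (@Lb.g g10 (@Lb.g g7 (@Lb.r r386 (@Lb.r r2657 (@Lb.r r1304 (@Lb.d (nat_lit 0) (nat_lit 170) (nat_lit 101) (@Lb.fp (nat_lit 9) t3394))))))))))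
noncomputable def l39238 : Lb := (@Lb.d (nat_lit 2) (nat_lit 256) (nat_lit 128) (@Lb.g g8 (@Lb.g g11 (@Lb.r r408 (@Lb.r r295 (@Lb.r r516 (@Lb.d (nat_lit 357) (nat_lit 101) (nat_lit 682) (@Lb.fp (nat_lit 3) t5956))))))))
noncomputable def l39239 : Lb := (@Lb.d (nat_lit 34) (nat_lit 2) (nat_lit 130) (@Lb.g g8 (@Lb.g g9 (@Lb.g g10 (@Lb.g g11 (@Lb.r r2699 (@Lb.r r164 (@Lb.r r1173 (@Lb.r r1622 (@Lb.r r2212 (@Lb.d (nat_lit 136) (nat_lit 129) (nat_lit 106) (@Lb.fm (nat_lit 9) t6841))))))))))))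
noncomputable def l39240 : Lb := (@Lb.d (nat_lit 585) (nat_lit 80) (nat_lit 162) (@Lb.r r2710 (@Lb.r r1352 (@Lb.r r2341 (@Lb.r r2323 (@Lb.g g7 (@Lb.g g6 (@Lb.g g5 (@Lb.d (nat_lit 16) (nat_lit 0) (nat_lit 129) (@Lb.t (@Lb.fm (nat_lit 9) t6472)))))))))))
noncomputable def l39241 : Lb := (@Lb.d (nat_lit 2) (nat_lit 258) (nat_lit 2) (@Lb.g g8 (@Lb.g g9 (@Lb.g g10 (@Lb.g g11 (@Lb.r r427 (@Lb.r r1122 (@Lb.r r25 (@Lb.d (nat_lit 36) (nat_lit 132) (nat_lit 33) (@Lb.fp (nat_lit 9) t6842))))))))))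
noncomputable def l39242 : Lb := (@Lb.r r82 (@Lb.r r263 (@Lb.d (nat_lit 2) (nat_lit 128) (nat_lit 0) (@Lb.g g4 (@Lb.g g9 (@Lb.r r2471 (@Lb.r r98 (@Lb.r r1096 (@Lb.d (nat_lit 546) (nat_lit 64) (nat_lit 33) (@Lb.fm (nat_lit 3) t6843))))))))))
noncomputable def l39243 : Lb := (@Lb.d (nat_lit 2) (nat_lit 512) (nat_lit 0) (@Lb.g g8 (@Lb.g g11 (@Lb.r r2596 (@Lb.r r2663 (@Lb.d (nat_lit 10) (nat_lit 130) (nat_lit 682) (@Lb.fp (nat_lit 3) t6844)))))))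
noncomputable def l39244 : Lb := (@Lb.d (nat_lit 80) (nat_lit 9) (nat_lit 72) (@Lb.g g8 (@Lb.g g9 (@Lb.g g10 (@Lb.g g11 (@Lb.r r579 (@Lb.r r1682 (@Lb.r r677 (@Lb.r r360 (@Lb.d (nat_lit 168) (nat_lit 68) (nat_lit 17) (@Lb.fp (nat_lit 9) t1846)))))))))))
noncomputable def l39245 : Lb := (@Lb.d (nat_lit 8) (nat_lit 9) (nat_lit 72) (@Lb.g g9 (@Lb.g g10 (@Lb.g g11 (@Lb.r r579 (@Lb.r r1682 (@Lb.d (nat_lit 609) (nat_lit 89) (nat_lit 90) (@Lb.t (@Lb.fm (nat_lit 9) t6845)))))))))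
noncomputable def l39246 : Lb := (@Lb.d (nat_lit 9) (nat_lit 513) (nat_lit 2) (@Lb.g g8 (@Lb.g g9 (@Lb.g g10 (@Lb.g g7 (@Lb.r r386 (@Lb.r r1641 (@Lb.r r1608 (@Lb.d (nat_lit 406) (nat_lit 134) (nat_lit 661) (@Lb.fp (nat_lit 9) t1403))))))))))
noncomputable def l39247 : Lb := (@Lb.d (nat_lit 0) (nat_lit 0) (nat_lit 128) (@Lb.g g5 (@Lb.g g11 (@Lb.r r2339 (@Lb.r r24 (@Lb.d (nat_lit 0) (nat_lit 64) (nat_lit 0) (@Lb.fm (nat_lit 3) t2243)))))))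
noncomputable def l39248 : Lb := (@Lb.d (nat_lit 128) (nat_lit 9) (nat_lit 386) (@Lb.g g9 (@Lb.g g10 (@Lb.g g11 (@Lb.r r357 (@Lb.r r2646 (@Lb.r r1169 (@Lb.d (nat_lit 277) (nat_lit 106) (nat_lit 678) (@Lb.t (@Lb.fp (nat_lit 9) t2568))))))))))
noncomputable def l39249 : Lb := (@Lb.r r21 (@Lb.d (nat_lit 10) (nat_lit 256) (nat_lit 2) (@Lb.g g8 (@Lb.g g10 (@Lb.g g7 (@Lb.r r386 (@Lb.r r2453 (@Lb.r r680 (@Lb.d (nat_lit 645) (nat_lit 22) (nat_lit 160) (@Lb.t (@Lb.fp (nat_lit 9) t6786)))))))))))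
noncomputable def l39250 : Lb := (@Lb.g g5 (@Lb.r r1291 (@Lb.r r24 (@Lb.d (nat_lit 584) (nat_lit 34) (nat_lit 384) (@Lb.t (@Lb.fp (nat_lit 3) t1855))))))
noncomputable def l39251 : Lb := (@Lb.d (nat_lit 8) (nat_lit 265) (nat_lit 72) (@Lb.g g9 (@Lb.g g10 (@Lb.g g11 (@Lb.r r579 (@Lb.r r1682 (@Lb.d (nat_lit 610) (nat_lit 82) (nat_lit 88) (@Lb.t (@Lb.fm (nat_lit 9) t6826)))))))))
noncomputable def l39252 : Lb := (@Lb.d (nat_lit 2) (nat_lit 258) (nat_lit 66) (@Lb.g g8 (@Lb.g g9 (@Lb.g g10 (@Lb.g g11 (@Lb.r r1602 (@Lb.r r2647 (@Lb.r r2457 (@Lb.r r2436 (@Lb.d (nat_lit 617) (nat_lit 10) (nat_lit 513) (@Lb.fm (nat_lit 9) t2700)))))))))))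
noncomputable def l39253 : Lb := (@Lb.d (nat_lit 2) (nat_lit 2) (nat_lit 130) (@Lb.g g8 (@Lb.g g9 (@Lb.g g10 (@Lb.g g11 (@Lb.r r427 (@Lb.r r536 (@Lb.r r405 (@Lb.r r86 (@Lb.r r164 (@Lb.d (nat_lit 98) (nat_lit 98) (nat_lit 89) (@Lb.fm (nat_lit 9) t3912))))))))))))
noncomputable def l39254 : Lb := (@Lb.d (nat_lit 533) (nat_lit 2) (nat_lit 265) (@Lb.r r391 (@Lb.r r1382 (@Lb.r r660 (@Lb.g g7 (@Lb.g g5 (@Lb.d (nat_lit 64) (nat_lit 84) (nat_lit 64) (@Lb.r r610 (@Lb.fm (nat_lit 3) t943)))))))))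
noncomputable def l39255 : Lb := (@Lb.d (nat_lit 8) (nat_lit 0) (nat_lit 73) (@Lb.g g8 (@Lb.g g10 (@Lb.g g11 (@Lb.r r419 (@Lb.r r2085 (@Lb.r r1432 (@Lb.r r2442 (@Lb.d (nat_lit 400) (nat_lit 68) (nat_lit 280) (@Lb.t (@Lb.fp (nat_lit 9) t188)))))))))))
noncomputable def l39256 : Lb := (@Lb.d (nat_lit 0) (nat_lit 9) (nat_lit 129) (@Lb.g g8 (@Lb.g g9 (@Lb.g g10 (@Lb.g g11 (@Lb.r r2691 (@Lb.r r297 (@Lb.r r648 (@Lb.r r666 (@Lb.r r1156 (@Lb.d (nat_lit 648) (nat_lit 41) (nat_lit 73) (@Lb.fp (nat_lit 9) t1234))))))))))))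
noncomputable def l39257 : Lb := (@Lb.d (nat_lit 2) (nat_lit 521) (nat_lit 130) (@Lb.g g8 (@Lb.g g9 (@Lb.g g10 (@Lb.g g11 (@Lb.r r1666 (@Lb.r r1431 (@Lb.r r2657 (@Lb.r r24 (@Lb.d (nat_lit 553) (nat_lit 89) (nat_lit 25) (@Lb.fm (nat_lit 9) t1923)))))))))))
noncomputable def l39258 : Lb := (@Lb.r r82 (@Lb.d (nat_lit 8) (nat_lit 256) (nat_lit 128) (@Lb.g g9 (@Lb.g g11 (@Lb.r r551 (@Lb.r r386 (@Lb.r r280 (@Lb.r r661 (@Lb.d (nat_lit 292) (nat_lit 42) (nat_lit 38) (@Lb.fp (nat_lit 3) t6846))))))))))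
noncomputable def l39259 : Lb := (@Lb.r r70 (@Lb.d (nat_lit 0) (nat_lit 514) (nat_lit 64) (@Lb.g g8 (@Lb.g g9 (@Lb.g g11 (@Lb.r r665 (@Lb.r r667 (@Lb.r r644 (@Lb.r r2182 (@Lb.d (nat_lit 517) (nat_lit 1) (nat_lit 640) (@Lb.t (@Lb.fm (nat_lit 9) t329))))))))))))
noncomputable def l39260 : Lb := (@Lb.d (nat_lit 4) (nat_lit 544) (nat_lit 66) (@Lb.g g8 (@Lb.g g10 (@Lb.g g11 (@Lb.r r1185 (@Lb.r r610 (@Lb.r r1603 (@Lb.d (nat_lit 322) (nat_lit 18) (nat_lit 521) (@Lb.t (@Lb.fm (nat_lit 9) t3721))))))))))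
noncomputable def l39261 : Lb := (@Lb.d (nat_lit 144) (nat_lit 514) (nat_lit 130) (@Lb.g g8 (@Lb.g g9 (@Lb.g g10 (@Lb.g g11 (@Lb.r r2691 (@Lb.r r2409 (@Lb.r r1174 (@Lb.r r596 (@Lb.d (nat_lit 598) (nat_lit 22) (nat_lit 5) (@Lb.fm (nat_lit 9) t2528)))))))))))
noncomputable def l39262 : Lb := (@Lb.d (nat_lit 2) (nat_lit 514) (nat_lit 128) (@Lb.g g8 (@Lb.g g9 (@Lb.g g10 (@Lb.g g11 (@Lb.r r2730 (@Lb.r r420 (@Lb.r r283 (@Lb.r r1577 (@Lb.r r2068 (@Lb.d (nat_lit 673) (nat_lit 162) (nat_lit 90) (@Lb.fp (nat_lit 9) t4954))))))))))))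
noncomputable def l39263 : Lb := (@Lb.r r21 (@Lb.d (nat_lit 146) (nat_lit 256) (nat_lit 133) (@Lb.g g8 (@Lb.g g10 (@Lb.g g11 (@Lb.r r1691 (@Lb.r r1689 (@Lb.r r1370 (@Lb.r r1156 (@Lb.d (nat_lit 297) (nat_lit 37) (nat_lit 406) (@Lb.t (@Lb.fp (nat_lit 9) t264))))))))))))
noncomputable def l39264 : Lb := (@Lb.d (nat_lit 32) (nat_lit 258) (nat_lit 0) (@Lb.g g8 (@Lb.g g9 (@Lb.r r1387 (@Lb.r r361 (@Lb.r r150 (@Lb.r r1124 (@Lb.d (nat_lit 280) (nat_lit 73) (nat_lit 409) (@Lb.fm (nat_lit 3) t51)))))))))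
noncomputable def l39265 : Lb := (@Lb.r r21 (@Lb.d (nat_lit 81) (nat_lit 256) (nat_lit 0) (@Lb.g g8 (@Lb.g g10 (@Lb.g g11 (@Lb.r r2571 (@Lb.r r402 (@Lb.r r97 (@Lb.r r2328 (@Lb.d (nat_lit 392) (nat_lit 17) (nat_lit 384) (@Lb.t (@Lb.fm (nat_lit 9) t50))))))))))))
noncomputable def l39266 : Lb := (@Lb.d (nat_lit 33) (nat_lit 512) (nat_lit 0) (@Lb.g g8 (@Lb.r r2395 (@Lb.r r614 (@Lb.r r1637 (@Lb.r r1428 (@Lb.d (nat_lit 617) (nat_lit 88) (nat_lit 290) (@Lb.t (@Lb.fm (nat_lit 3) t632)))))))))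
noncomputable def l39267 : Lb := (@Lb.d (nat_lit 4) (nat_lit 0) (nat_lit 0) (@Lb.g g8 (@Lb.g g9 (@Lb.r r2664 (@Lb.r r2411 (@Lb.r r1113 (@Lb.r r1122 (@Lb.d (nat_lit 354) (nat_lit 36) (nat_lit 400) (@Lb.fp (nat_lit 3) t1719)))))))))
noncomputable def l39268 : Lb := (@Lb.r r21 (@Lb.d (nat_lit 2) (nat_lit 264) (nat_lit 130) (@Lb.g g8 (@Lb.g g10 (@Lb.g g11 (@Lb.r r1707 (@Lb.r r2341 (@Lb.r r1640 (@Lb.r r422 (@Lb.d (nat_lit 100) (nat_lit 72) (nat_lit 280) (@Lb.t (@Lb.fm (nat_lit 9) t51))))))))))))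
noncomputable def l39269 : Lb := (@Lb.r r21 (@Lb.d (nat_lit 2) (nat_lit 256) (nat_lit 73) (@Lb.g g8 (@Lb.g g10 (@Lb.g g11 (@Lb.r r1691 (@Lb.r r1381 (@Lb.r r2202 (@Lb.r r2180 (@Lb.d (nat_lit 601) (nat_lit 65) (nat_lit 545) (@Lb.t (@Lb.fp (nat_lit 9) t1025))))))))))))
noncomputable def l39270 : Lb := (@Lb.d (nat_lit 150) (nat_lit 673) (nat_lit 102) (@Lb.r r24 (@Lb.r r1383 (@Lb.r r2389 (@Lb.g g6 (@Lb.g g4 (@Lb.d (nat_lit 2) (nat_lit 0) (nat_lit 42) (@Lb.r r387 (@Lb.fp (nat_lit 3) t6847)))))))))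
noncomputable def l39271 : Lb := (@Lb.r r21 (@Lb.d (nat_lit 386) (nat_lit 520) (nat_lit 66) (@Lb.g g8 (@Lb.g g10 (@Lb.g g11 (@Lb.r r1419 (@Lb.r r101 (@Lb.r r410 (@Lb.d (nat_lit 664) (nat_lit 149) (nat_lit 169) (@Lb.t (@Lb.fm (nat_lit 9) t1152)))))))))))
noncomputable def l39272 : Lb := (@Lb.d (nat_lit 320) (nat_lit 677) (nat_lit 97) (@Lb.r r1096 (@Lb.r r146 (@Lb.r r357 (@Lb.r r2691 (@Lb.g g7 (@Lb.g g6 (@Lb.g g5 (@Lb.d (nat_lit 0) (nat_lit 0) (nat_lit 8) (@Lb.t (@Lb.fp (nat_lit 9) t5782)))))))))))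
noncomputable def l39273 : Lb := (@Lb.d (nat_lit 2) (nat_lit 514) (nat_lit 130) (@Lb.g g8 (@Lb.g g9 (@Lb.g g10 (@Lb.g g11 (@Lb.r r643 (@Lb.r r596 (@Lb.r r1690 (@Lb.r r85 (@Lb.r r164 (@Lb.d (nat_lit 658) (nat_lit 161) (nat_lit 618) (@Lb.fp (nat_lit 9) t3409))))))))))))
noncomputable def l39274 : Lb := (@Lb.d (nat_lit 16) (nat_lit 514) (nat_lit 128) (@Lb.g g8 (@Lb.g g9 (@Lb.g g10 (@Lb.g g11 (@Lb.r r675 (@Lb.r r1681 (@Lb.r r612 (@Lb.r r1690 (@Lb.r r132 (@Lb.d (nat_lit 586) (nat_lit 161) (nat_lit 618) (@Lb.fp (nat_lit 9) t3679))))))))))))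
noncomputable def l39275 : Lb := (@Lb.r r323 (@Lb.d (nat_lit 25) (nat_lit 265) (nat_lit 2) (@Lb.g g8 (@Lb.g g9 (@Lb.g g10 (@Lb.r r1626 (@Lb.r r2659 (@Lb.r r297 (@Lb.r r1672 (@Lb.d (nat_lit 549) (nat_lit 105) (nat_lit 24) (@Lb.t (@Lb.fp (nat_lit 9) t2592))))))))))))
noncomputable def l39276 : Lb := (@Lb.d (nat_lit 520) (nat_lit 0) (nat_lit 580) (@Lb.r r150 (@Lb.r r72 (@Lb.r r293 (@Lb.r r2395 (@Lb.g g7 (@Lb.g g6 (@Lb.g g5 (@Lb.d (nat_lit 16) (nat_lit 1) (nat_lit 65) (@Lb.t (@Lb.fm (nat_lit 9) t4070)))))))))))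
noncomputable def l39277 : Lb := (@Lb.r r323 (@Lb.d (nat_lit 16) (nat_lit 553) (nat_lit 5) (@Lb.g g9 (@Lb.g g10 (@Lb.r r2468 (@Lb.r r1627 (@Lb.r r2449 (@Lb.d (nat_lit 96) (nat_lit 105) (nat_lit 420) (@Lb.fp (nat_lit 3) t6848)))))))))
noncomputable def l39278 : Lb := (@Lb.d (nat_lit 129) (nat_lit 2) (nat_lit 66) (@Lb.g g8 (@Lb.g g9 (@Lb.g g10 (@Lb.g g11 (@Lb.r r2459 (@Lb.r r1177 (@Lb.r r1626 (@Lb.r r1604 (@Lb.d (nat_lit 152) (nat_lit 137) (nat_lit 649) (@Lb.fp (nat_lit 9) t1152)))))))))))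
noncomputable def l39279 : Lb := (@Lb.d (nat_lit 520) (nat_lit 256) (nat_lit 514) (@Lb.r r150 (@Lb.r r72 (@Lb.r r293 (@Lb.r r2395 (@Lb.g g7 (@Lb.g g6 (@Lb.g g5 (@Lb.d (nat_lit 16) (nat_lit 1) (nat_lit 65) (@Lb.t (@Lb.fm (nat_lit 9) t4070)))))))))))
noncomputable def l39280 : Lb := (@Lb.d (nat_lit 152) (nat_lit 421) (nat_lit 645) (@Lb.r r580 (@Lb.r r2386 (@Lb.r r2201 (@Lb.g g7 (@Lb.g g6 (@Lb.g g4 (@Lb.d (nat_lit 100) (nat_lit 0) (nat_lit 577) (@Lb.t (@Lb.fp (nat_lit 9) t1561))))))))))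
noncomputable def l39281 : Lb := (@Lb.d (nat_lit 612) (nat_lit 549) (nat_lit 84) (@Lb.r r404 (@Lb.r r363 (@Lb.r r273 (@Lb.g g7 (@Lb.g g10 (@Lb.g g5 (@Lb.g g4 (@Lb.d (nat_lit 25) (nat_lit 0) (nat_lit 66) (@Lb.fm (nat_lit 9) t414))))))))))
noncomputable def l39282 : Lb := (@Lb.d (nat_lit 1) (nat_lit 288) (nat_lit 64) (@Lb.g g8 (@Lb.g g11 (@Lb.r r1321 (@Lb.r r1428 (@Lb.r r1446 (@Lb.r r603 (@Lb.d (nat_lit 104) (nat_lit 168) (nat_lit 528) (@Lb.fp (nat_lit 3) t5612)))))))))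
noncomputable def l39283 : Lb := (@Lb.r r2341 (@Lb.r r1624 (@Lb.d (nat_lit 577) (nat_lit 612) (nat_lit 104) (@Lb.fp (nat_lit 1) t4189))))
noncomputable def l39284 : Lb := (@Lb.g g4 (@Lb.g g7 (@Lb.r r2311 (@Lb.r r2341 (@Lb.r r1624 (@Lb.r r2150 (@Lb.d (nat_lit 273) (nat_lit 88) (nat_lit 352) (@Lb.fm (nat_lit 3) t1195))))))))
noncomputable def l39285 : Lb := (@Lb.r r20 (@Lb.r r82 (@Lb.d (nat_lit 4) (nat_lit 330) (nat_lit 0) (@Lb.g g9 (@Lb.r r2454 (@Lb.r r1636 (@Lb.r r1319 (@Lb.d (nat_lit 321) (nat_lit 161) (nat_lit 586) (@Lb.t (@Lb.fm (nat_lit 3) t2136))))))))))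
noncomputable def l39286 : Lb := (@Lb.d (nat_lit 20) (nat_lit 257) (nat_lit 0) (@Lb.g g8 (@Lb.g g9 (@Lb.g g10 (@Lb.r r2467 (@Lb.r r401 (@Lb.r r2660 (@Lb.r r2202 (@Lb.d (nat_lit 617) (nat_lit 9) (nat_lit 130) (@Lb.t (@Lb.fp (nat_lit 9) t6849)))))))))))
noncomputable def l39287 : Lb := (@Lb.d (nat_lit 146) (nat_lit 0) (nat_lit 130) (@Lb.g g8 (@Lb.g g9 (@Lb.g g10 (@Lb.g g11 (@Lb.r r2730 (@Lb.r r1411 (@Lb.r r1177 (@Lb.r r2180 (@Lb.d (nat_lit 41) (nat_lit 153) (nat_lit 345) (@Lb.fm (nat_lit 9) t764)))))))))))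
noncomputable def l39288 : Lb := (@Lb.d (nat_lit 153) (nat_lit 2) (nat_lit 162) (@Lb.g g8 (@Lb.g g9 (@Lb.g g10 (@Lb.g g11 (@Lb.r r657 (@Lb.r r1427 (@Lb.r r529 (@Lb.r r388 (@Lb.d (nat_lit 418) (nat_lit 74) (nat_lit 72) (@Lb.fp (nat_lit 9) t4293)))))))))))
noncomputable def l39289 : Lb := (@Lb.r r101 (@Lb.d (nat_lit 389) (nat_lit 337) (nat_lit 528) (@Lb.fm (nat_lit 1) t2148)))
noncomputable def l39290 : Lb := (@Lb.r r21 (@Lb.d (nat_lit 41) (nat_lit 544) (nat_lit 146) (@Lb.g g8 (@Lb.g g10 (@Lb.g g11 (@Lb.r r101 (@Lb.r r404 (@Lb.r r395 (@Lb.d (nat_lit 274) (nat_lit 146) (nat_lit 578) (@Lb.t (@Lb.fp (nat_lit 9) t6632)))))))))))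
noncomputable def l39291 : Lb := (@Lb.d (nat_lit 160) (nat_lit 256) (nat_lit 146) (@Lb.g g10 (@Lb.g g11 (@Lb.r r260 (@Lb.r r603 (@Lb.r r1317 (@Lb.d (nat_lit 586) (nat_lit 74) (nat_lit 529) (@Lb.fm (nat_lit 3) t4832))))))))
noncomputable def l39292 : Lb := (@Lb.d (nat_lit 641) (nat_lit 2) (nat_lit 66) (@Lb.g g8 (@Lb.g g9 (@Lb.g g10 (@Lb.g g11 (@Lb.r r1451 (@Lb.r r106 (@Lb.r r25 (@Lb.d (nat_lit 8) (nat_lit 128) (nat_lit 409) (@Lb.fp (nat_lit 9) t6850))))))))))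
noncomputable def l39293 : Lb := (@Lb.d (nat_lit 160) (nat_lit 512) (nat_lit 146) (@Lb.g g10 (@Lb.g g11 (@Lb.r r260 (@Lb.r r603 (@Lb.r r1317 (@Lb.d (nat_lit 585) (nat_lit 74) (nat_lit 529) (@Lb.fm (nat_lit 3) t4832))))))))
noncomputable def l39294 : Lb := (@Lb.d (nat_lit 160) (nat_lit 256) (nat_lit 146) (@Lb.g g10 (@Lb.g g11 (@Lb.r r260 (@Lb.r r603 (@Lb.r r1317 (@Lb.d (nat_lit 85) (nat_lit 68) (nat_lit 513) (@Lb.fm (nat_lit 3) t6851))))))))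
noncomputable def l39295 : Lb := (@Lb.r r322 (@Lb.d (nat_lit 36) (nat_lit 546) (nat_lit 516) (@Lb.g g8 (@Lb.g g9 (@Lb.g g7 (@Lb.r r418 (@Lb.r r297 (@Lb.r r1384 (@Lb.d (nat_lit 402) (nat_lit 169) (nat_lit 293) (@Lb.t (@Lb.fm (nat_lit 9) t512)))))))))))
noncomputable def l39296 : Lb := (@Lb.d (nat_lit 130) (nat_lit 514) (nat_lit 130) (@Lb.g g8 (@Lb.g g9 (@Lb.g g10 (@Lb.g g11 (@Lb.r r648 (@Lb.r r539 (@Lb.r r1429 (@Lb.r r1110 (@Lb.r r2212 (@Lb.d (nat_lit 610) (nat_lit 64) (nat_lit 521) (@Lb.fp (nat_lit 9) t6852))))))))))))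
noncomputable def l39297 : Lb := (@Lb.d (nat_lit 16) (nat_lit 144) (nat_lit 337) (@Lb.r r1284 (@Lb.r r1611 (@Lb.r r612 (@Lb.r r2370 (@Lb.g g7 (@Lb.g g6 (@Lb.g g9 (@Lb.g g4 (@Lb.d (nat_lit 1) (nat_lit 38) (nat_lit 134) (@Lb.fp (nat_lit 9) t2208)))))))))))
noncomputable def l39298 : Lb := (@Lb.g g9 (@Lb.r r1158 (@Lb.r r2136 (@Lb.r r2341 (@Lb.r r2579 (@Lb.d (nat_lit 0) (nat_lit 0) (nat_lit 69) (@Lb.t (@Lb.fp (nat_lit 3) t2604))))))))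
noncomputable def l39299 : Lb := (@Lb.d (nat_lit 8) (nat_lit 2) (nat_lit 0) (@Lb.g g9 (@Lb.r r1300 (@Lb.r r2603 (@Lb.r r674 (@Lb.r r657 (@Lb.d (nat_lit 292) (nat_lit 101) (nat_lit 149) (@Lb.t (@Lb.fp (nat_lit 3) t5721)))))))))
noncomputable def l39300 : Lb := (@Lb.d (nat_lit 261) (nat_lit 37) (nat_lit 292) (@Lb.r r1096 (@Lb.r r1689 (@Lb.r r595 (@Lb.g g6 (@Lb.g g5 (@Lb.d (nat_lit 16) (nat_lit 24) (nat_lit 32) (@Lb.fm (nat_lit 3) t6853))))))))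
noncomputable def l39301 : Lb := (@Lb.d (nat_lit 384) (nat_lit 0) (nat_lit 672) (@Lb.r r1096 (@Lb.r r363 (@Lb.r r2646 (@Lb.r r409 (@Lb.g g11 (@Lb.g g6 (@Lb.fm (nat_lit 3) t6854))))))))
noncomputable def l39302 : Lb := (@Lb.d (nat_lit 657) (nat_lit 257) (nat_lit 534) (@Lb.r r1096 (@Lb.r r386 (@Lb.r r2647 (@Lb.g g6 (@Lb.g g5 (@Lb.g g4 (@Lb.d (nat_lit 0) (nat_lit 17) (nat_lit 1) (@Lb.t (@Lb.fm (nat_lit 9) t1048))))))))))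
noncomputable def l39303 : Lb := (@Lb.d (nat_lit 656) (nat_lit 513) (nat_lit 534) (@Lb.r r1096 (@Lb.r r386 (@Lb.r r2647 (@Lb.g g6 (@Lb.g g5 (@Lb.g g4 (@Lb.d (nat_lit 0) (nat_lit 17) (nat_lit 1) (@Lb.t (@Lb.fm (nat_lit 9) t1048))))))))))
noncomputable def l39304 : Lb := (@Lb.d (nat_lit 130) (nat_lit 514) (nat_lit 66) (@Lb.g g8 (@Lb.g g9 (@Lb.g g10 (@Lb.g g11 (@Lb.r r1411 (@Lb.r r164 (@Lb.r r2438 (@Lb.r r97 (@Lb.d (nat_lit 81) (nat_lit 100) (nat_lit 592) (@Lb.fp (nat_lit 9) t344)))))))))))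
noncomputable def l39305 : Lb := (@Lb.r r82 (@Lb.d (nat_lit 2) (nat_lit 546) (nat_lit 64) (@Lb.g g8 (@Lb.g g9 (@Lb.g g11 (@Lb.r r291 (@Lb.r r1668 (@Lb.r r1158 (@Lb.r r1425 (@Lb.d (nat_lit 612) (nat_lit 17) (nat_lit 166) (@Lb.t (@Lb.fp (nat_lit 9) t1050))))))))))))
noncomputable def l39306 : Lb := (@Lb.r r70 (@Lb.d (nat_lit 41) (nat_lit 522) (nat_lit 128) (@Lb.g g8 (@Lb.g g9 (@Lb.g g11 (@Lb.r r2194 (@Lb.r r341 (@Lb.r r2475 (@Lb.r r2468 (@Lb.d (nat_lit 153) (nat_lit 165) (nat_lit 154) (@Lb.t (@Lb.fp (nat_lit 9) t6855))))))))))))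
noncomputable def l39307 : Lb := (@Lb.r r82 (@Lb.r r275 (@Lb.d (nat_lit 2) (nat_lit 512) (nat_lit 0) (@Lb.g g8 (@Lb.g g9 (@Lb.r r299 (@Lb.r r106 (@Lb.r r2069 (@Lb.d (nat_lit 265) (nat_lit 9) (nat_lit 2) (@Lb.fm (nat_lit 3) t1862))))))))))
noncomputable def l39308 : Lb := (@Lb.d (nat_lit 264) (nat_lit 321) (nat_lit 96) (@Lb.r r2073 (@Lb.r r2456 (@Lb.r r1354 (@Lb.g g7 (@Lb.g g5 (@Lb.g g4 (@Lb.d (nat_lit 64) (nat_lit 4) (nat_lit 576) (@Lb.t (@Lb.fm (nat_lit 9) t1561))))))))))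
noncomputable def l39309 : Lb := (@Lb.d (nat_lit 34) (nat_lit 520) (nat_lit 102) (@Lb.r r70 (@Lb.r r392 (@Lb.r r599 (@Lb.g g6 (@Lb.g g5 (@Lb.g g4 (@Lb.d (nat_lit 2) (nat_lit 17) (nat_lit 1) (@Lb.r r387 (@Lb.t (@Lb.fp (nat_lit 9) t242)))))))))))
noncomputable def l39310 : Lb := (@Lb.d (nat_lit 0) (nat_lit 264) (nat_lit 130) (@Lb.g g9 (@Lb.g g10 (@Lb.g g11 (@Lb.r r1671 (@Lb.r r2376 (@Lb.r r1190 (@Lb.r r337 (@Lb.d (nat_lit 409) (nat_lit 104) (nat_lit 608) (@Lb.t (@Lb.fp (nat_lit 9) t1027)))))))))))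
noncomputable def l39311 : Lb := (@Lb.r r82 (@Lb.r r263 (@Lb.d (nat_lit 642) (nat_lit 2) (nat_lit 0) (@Lb.g g8 (@Lb.g g9 (@Lb.r r2583 (@Lb.r r153 (@Lb.r r146 (@Lb.d (nat_lit 258) (nat_lit 5) (nat_lit 613) (@Lb.fm (nat_lit 3) t2629))))))))))
noncomputable def l39312 : Lb := (@Lb.r r70 (@Lb.d (nat_lit 385) (nat_lit 32) (nat_lit 136) (@Lb.g g8 (@Lb.g g11 (@Lb.r r2469 (@Lb.r r1446 (@Lb.r r2379 (@Lb.d (nat_lit 290) (nat_lit 129) (nat_lit 422) (@Lb.fm (nat_lit 3) t6856)))))))))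
noncomputable def l39313 : Lb := (@Lb.d (nat_lit 2) (nat_lit 512) (nat_lit 10) (@Lb.g g8 (@Lb.g g10 (@Lb.r r2449 (@Lb.r r36 (@Lb.d (nat_lit 8) (nat_lit 153) (nat_lit 18) (@Lb.fm (nat_lit 3) t3264)))))))
noncomputable def l39314 : Lb := (@Lb.r r275 (@Lb.d (nat_lit 130) (nat_lit 265) (nat_lit 1) (@Lb.g g8 (@Lb.g g9 (@Lb.g g10 (@Lb.r r599 (@Lb.r r98 (@Lb.r r2725 (@Lb.r r1432 (@Lb.d (nat_lit 681) (nat_lit 80) (nat_lit 274) (@Lb.t (@Lb.fp (nat_lit 9) t1665))))))))))))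
noncomputable def l39315 : Lb := (@Lb.r r323 (@Lb.d (nat_lit 40) (nat_lit 514) (nat_lit 26) (@Lb.g g9 (@Lb.g g10 (@Lb.r r1627 (@Lb.r r1624 (@Lb.r r2341 (@Lb.d (nat_lit 65) (nat_lit 10) (nat_lit 513) (@Lb.fp (nat_lit 3) t1954)))))))))
noncomputable def l39316 : Lb := (@Lb.d (nat_lit 0) (nat_lit 514) (nat_lit 66) (@Lb.g g8 (@Lb.g g9 (@Lb.g g10 (@Lb.g g7 (@Lb.r r386 (@Lb.r r97 (@Lb.d (nat_lit 0) (nat_lit 138) (nat_lit 73) (@Lb.fm (nat_lit 9) t126)))))))))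
noncomputable def l39317 : Lb := (@Lb.d (nat_lit 154) (nat_lit 257) (nat_lit 64) (@Lb.g g8 (@Lb.g g9 (@Lb.g g10 (@Lb.g g11 (@Lb.r r427 (@Lb.r r1602 (@Lb.r r409 (@Lb.r r404 (@Lb.d (nat_lit 101) (nat_lit 6) (nat_lit 73) (@Lb.fp (nat_lit 9) t719)))))))))))
noncomputable def l39318 : Lb := (@Lb.d (nat_lit 42) (nat_lit 582) (nat_lit 1) (@Lb.r r101 (@Lb.r r24 (@Lb.r r402 (@Lb.r r323 (@Lb.g g7 (@Lb.g g6 (@Lb.g g5 (@Lb.d (nat_lit 4) (nat_lit 6) (nat_lit 65) (@Lb.t (@Lb.fm (nat_lit 9) t4964)))))))))))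
noncomputable def l39319 : Lb := (@Lb.r r323 (@Lb.d (nat_lit 0) (nat_lit 546) (nat_lit 18) (@Lb.g g9 (@Lb.g g10 (@Lb.r r595 (@Lb.r r1321 (@Lb.r r8 (@Lb.d (nat_lit 133) (nat_lit 105) (nat_lit 277) (@Lb.fp (nat_lit 3) t646)))))))))
noncomputable def l39320 : Lb := (@Lb.d (nat_lit 145) (nat_lit 514) (nat_lit 128) (@Lb.g g8 (@Lb.g g9 (@Lb.g g10 (@Lb.g g11 (@Lb.r r1666 (@Lb.r r1431 (@Lb.r r97 (@Lb.r r536 (@Lb.d (nat_lit 104) (nat_lit 41) (nat_lit 129) (@Lb.fm (nat_lit 9) t3913)))))))))))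
noncomputable def l39321 : Lb := (@Lb.d (nat_lit 16) (nat_lit 9) (nat_lit 130) (@Lb.g g8 (@Lb.g g9 (@Lb.g g10 (@Lb.g g11 (@Lb.r r1667 (@Lb.r r1434 (@Lb.r r1321 (@Lb.r r2152 (@Lb.d (nat_lit 282) (nat_lit 40) (nat_lit 73) (@Lb.fp (nat_lit 9) t2317)))))))))))
noncomputable def l39322 : Lb := (@Lb.r r21 (@Lb.r r326 (@Lb.d (nat_lit 420) (nat_lit 0) (nat_lit 8) (@Lb.g g8 (@Lb.g g11 (@Lb.r r2198 (@Lb.r r97 (@Lb.d (nat_lit 66) (nat_lit 138) (nat_lit 544) (@Lb.fm (nat_lit 3) t6857)))))))))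
noncomputable def l39323 : Lb := (@Lb.d (nat_lit 10) (nat_lit 512) (nat_lit 130) (@Lb.g g8 (@Lb.g g10 (@Lb.g g11 (@Lb.r r1685 (@Lb.r r2455 (@Lb.r r1608 (@Lb.r r1126 (@Lb.d (nat_lit 282) (nat_lit 80) (nat_lit 258) (@Lb.t (@Lb.fp (nat_lit 9) t1624)))))))))))
noncomputable def l39324 : Lb := (@Lb.d (nat_lit 42) (nat_lit 0) (nat_lit 0) (@Lb.g g8 (@Lb.r r2395 (@Lb.r r614 (@Lb.r r1637 (@Lb.r r1428 (@Lb.d (nat_lit 358) (nat_lit 85) (nat_lit 393) (@Lb.t (@Lb.fm (nat_lit 3) t386)))))))))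
noncomputable def l39325 : Lb := (@Lb.r r323 (@Lb.d (nat_lit 2) (nat_lit 2) (nat_lit 2) (@Lb.g g8 (@Lb.g g9 (@Lb.g g10 (@Lb.r r401 (@Lb.r r299 (@Lb.r r420 (@Lb.r r102 (@Lb.d (nat_lit 16) (nat_lit 4) (nat_lit 17) (@Lb.t (@Lb.fm (nat_lit 9) t4872))))))))))))
noncomputable def l39326 : Lb := (@Lb.d (nat_lit 170) (nat_lit 581) (nat_lit 101) (@Lb.r r680 (@Lb.r r427 (@Lb.r r345 (@Lb.g g10 (@Lb.g g4 (@Lb.d (nat_lit 69) (nat_lit 8) (nat_lit 38) (@Lb.r r145 (@Lb.fm (nat_lit 3) t6057)))))))))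
noncomputable def l39327 : Lb := (@Lb.r r289 (@Lb.r r420 (@Lb.r r603 (@Lb.r r390 (@Lb.r r516 (@Lb.d (nat_lit 0) (nat_lit 80) (nat_lit 321) (@Lb.fm (nat_lit 1) t845)))))))
noncomputable def l39328 : Lb := (@Lb.r r331 (@Lb.d (nat_lit 6) (nat_lit 320) (nat_lit 2) (@Lb.g g8 (@Lb.g g9 (@Lb.g g10 (@Lb.r r347 (@Lb.r r2146 (@Lb.r r392 (@Lb.d (nat_lit 402) (nat_lit 73) (nat_lit 160) (@Lb.t (@Lb.fp (nat_lit 9) t6858)))))))))))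
noncomputable def l39329 : Lb := (@Lb.d (nat_lit 0) (nat_lit 578) (nat_lit 257) (@Lb.r r146 (@Lb.r r101 (@Lb.r r280 (@Lb.g g11 (@Lb.d (nat_lit 0) (nat_lit 0) (nat_lit 640) (@Lb.r r578 (@Lb.r r529 (@Lb.t (@Lb.fm (nat_lit 3) t813))))))))))
noncomputable def l39330 : Lb := (@Lb.r r21 (@Lb.d (nat_lit 129) (nat_lit 0) (nat_lit 130) (@Lb.g g8 (@Lb.g g10 (@Lb.g g11 (@Lb.r r419 (@Lb.r r1172 (@Lb.r r2438 (@Lb.r r97 (@Lb.d (nat_lit 360) (nat_lit 40) (nat_lit 73) (@Lb.t (@Lb.fm (nat_lit 9) t5804))))))))))))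
noncomputable def l39331 : Lb := (@Lb.r r21 (@Lb.r r70 (@Lb.d (nat_lit 389) (nat_lit 512) (nat_lit 128) (@Lb.g g8 (@Lb.g g11 (@Lb.r r1419 (@Lb.r r402 (@Lb.r r97 (@Lb.d (nat_lit 580) (nat_lit 9) (nat_lit 530) (@Lb.fm (nat_lit 3) t3404))))))))))
noncomputable def l39332 : Lb := (@Lb.r r82 (@Lb.d (nat_lit 34) (nat_lit 258) (nat_lit 128) (@Lb.g g8 (@Lb.g g9 (@Lb.g g11 (@Lb.r r363 (@Lb.r r582 (@Lb.r r297 (@Lb.r r420 (@Lb.d (nat_lit 409) (nat_lit 38) (nat_lit 580) (@Lb.t (@Lb.fp (nat_lit 9) t278))))))))))))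
noncomputable def l39333 : Lb := (@Lb.r r82 (@Lb.d (nat_lit 16) (nat_lit 257) (nat_lit 128) (@Lb.g g8 (@Lb.g g9 (@Lb.g g11 (@Lb.r r618 (@Lb.r r345 (@Lb.r r2471 (@Lb.r r1620 (@Lb.d (nat_lit 680) (nat_lit 100) (nat_lit 384) (@Lb.t (@Lb.fm (nat_lit 9) t3210))))))))))))
noncomputable def l39334 : Lb := (@Lb.d (nat_lit 132) (nat_lit 8) (nat_lit 128) (@Lb.g g8 (@Lb.g g9 (@Lb.g g11 (@Lb.r r1124 (@Lb.r r346 (@Lb.r r1411 (@Lb.r r1557 (@Lb.d (nat_lit 5) (nat_lit 98) (nat_lit 601) (@Lb.t (@Lb.fm (nat_lit 9) t4320)))))))))))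
noncomputable def l39335 : Lb := (@Lb.d (nat_lit 132) (nat_lit 0) (nat_lit 130) (@Lb.g g8 (@Lb.g g9 (@Lb.g g10 (@Lb.g g11 (@Lb.r r427 (@Lb.r r2154 (@Lb.r r1553 (@Lb.r r292 (@Lb.d (nat_lit 361) (nat_lit 34) (nat_lit 585) (@Lb.fp (nat_lit 9) t6859)))))))))))
noncomputable def l39336 : Lb := (@Lb.r r323 (@Lb.d (nat_lit 0) (nat_lit 256) (nat_lit 1) (@Lb.g g9 (@Lb.g g6 (@Lb.r r387 (@Lb.r r24 (@Lb.r r101 (@Lb.d (nat_lit 0) (nat_lit 81) (nat_lit 266) (@Lb.fp (nat_lit 3) t153)))))))))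
noncomputable def l39337 : Lb := (@Lb.d (nat_lit 1) (nat_lit 514) (nat_lit 130) (@Lb.g g8 (@Lb.g g9 (@Lb.g g10 (@Lb.g g11 (@Lb.r r648 (@Lb.r r1563 (@Lb.r r2453 (@Lb.r r2134 (@Lb.r r1188 (@Lb.d (nat_lit 552) (nat_lit 90) (nat_lit 102) (@Lb.fp (nat_lit 9) t3567))))))))))))
noncomputable def l39338 : Lb := (@Lb.d (nat_lit 4) (nat_lit 650) (nat_lit 0) (@Lb.g g9 (@Lb.r r363 (@Lb.r r1124 (@Lb.r r2122 (@Lb.d (nat_lit 2) (nat_lit 82) (nat_lit 280) (@Lb.t (@Lb.fp (nat_lit 3) t1546))))))))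
noncomputable def l39339 : Lb := (@Lb.d (nat_lit 146) (nat_lit 258) (nat_lit 4) (@Lb.g g8 (@Lb.g g9 (@Lb.g g10 (@Lb.g g11 (@Lb.r r648 (@Lb.r r1563 (@Lb.r r2453 (@Lb.r r2134 (@Lb.r r164 (@Lb.d (nat_lit 552) (nat_lit 154) (nat_lit 70) (@Lb.fp (nat_lit 9) t6860))))))))))))
noncomputable def l39340 : Lb := (@Lb.r r82 (@Lb.r r275 (@Lb.d (nat_lit 6) (nat_lit 9) (nat_lit 0) (@Lb.g g4 (@Lb.g g9 (@Lb.r r359 (@Lb.r r598 (@Lb.r r405 (@Lb.d (nat_lit 5) (nat_lit 26) (nat_lit 16) (@Lb.fp (nat_lit 3) t150))))))))))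
noncomputable def l39341 : Lb := (@Lb.d (nat_lit 0) (nat_lit 256) (nat_lit 66) (@Lb.g g9 (@Lb.g g10 (@Lb.g g7 (@Lb.r r2470 (@Lb.r r1624 (@Lb.r r2341 (@Lb.d (nat_lit 576) (nat_lit 128) (nat_lit 320) (@Lb.t (@Lb.fm (nat_lit 9) t1756))))))))))
noncomputable def l39342 : Lb := (@Lb.r r275 (@Lb.d (nat_lit 2) (nat_lit 522) (nat_lit 1) (@Lb.g g8 (@Lb.g g9 (@Lb.g g10 (@Lb.r r2666 (@Lb.r r2635 (@Lb.r r2145 (@Lb.d (nat_lit 644) (nat_lit 33) (nat_lit 40) (@Lb.t (@Lb.fm (nat_lit 9) t162)))))))))))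
noncomputable def l39343 : Lb := (@Lb.d (nat_lit 645) (nat_lit 418) (nat_lit 260) (@Lb.r r2331 (@Lb.r r1621 (@Lb.r r2726 (@Lb.r r1352 (@Lb.g g7 (@Lb.g g6 (@Lb.g g5 (@Lb.d (nat_lit 16) (nat_lit 1) (nat_lit 65) (@Lb.t (@Lb.fp (nat_lit 9) t49)))))))))))
noncomputable def l39344 : Lb := (@Lb.d (nat_lit 0) (nat_lit 256) (nat_lit 66) (@Lb.g g9 (@Lb.g g10 (@Lb.g g7 (@Lb.r r2470 (@Lb.r r2449 (@Lb.r r24 (@Lb.d (nat_lit 514) (nat_lit 144) (nat_lit 64) (@Lb.t (@Lb.fp (nat_lit 9) t2259))))))))))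
noncomputable def l39345 : Lb := (@Lb.d (nat_lit 4) (nat_lit 512) (nat_lit 128) (@Lb.g g8 (@Lb.g g9 (@Lb.g g11 (@Lb.r r1707 (@Lb.r r2178 (@Lb.r r2664 (@Lb.r r25 (@Lb.d (nat_lit 521) (nat_lit 89) (nat_lit 297) (@Lb.t (@Lb.fp (nat_lit 9) t2031)))))))))))
noncomputable def l39346 : Lb := (@Lb.g g9 (@Lb.g g6 (@Lb.r r101 (@Lb.r r24 (@Lb.d (nat_lit 354) (nat_lit 256) (nat_lit 576) (@Lb.fp (nat_lit 3) t166))))))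
noncomputable def l39347 : Lb := (@Lb.d (nat_lit 0) (nat_lit 256) (nat_lit 66) (@Lb.g g9 (@Lb.g g10 (@Lb.g g7 (@Lb.r r2470 (@Lb.r r2449 (@Lb.r r24 (@Lb.d (nat_lit 516) (nat_lit 152) (nat_lit 66) (@Lb.t (@Lb.fp (nat_lit 9) t1741))))))))))
noncomputable def l39348 : Lb := (@Lb.g g8 (@Lb.g g9 (@Lb.g g7 (@Lb.r r612 (@Lb.r r359 (@Lb.r r2178 (@Lb.r r405 (@Lb.r r2596 (@Lb.d (nat_lit 610) (nat_lit 256) (nat_lit 512) (@Lb.t (@Lb.fm (nat_lit 9) t1561)))))))))))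
noncomputable def l39349 : Lb := (@Lb.r r82 (@Lb.d (nat_lit 134) (nat_lit 42) (nat_lit 0) (@Lb.g g8 (@Lb.g g5 (@Lb.r r2662 (@Lb.r r583 (@Lb.r r392 (@Lb.d (nat_lit 537) (nat_lit 145) (nat_lit 586) (@Lb.fp (nat_lit 3) t1549)))))))))
noncomputable def l39350 : Lb := (@Lb.r r21 (@Lb.d (nat_lit 2) (nat_lit 0) (nat_lit 64) (@Lb.g g8 (@Lb.g g11 (@Lb.r r2311 (@Lb.r r2178 (@Lb.r r2596 (@Lb.r r37 (@Lb.d (nat_lit 5) (nat_lit 166) (nat_lit 385) (@Lb.fm (nat_lit 3) t820))))))))))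
noncomputable def l39351 : Lb := (@Lb.d (nat_lit 128) (nat_lit 512) (nat_lit 64) (@Lb.g g9 (@Lb.g g11 (@Lb.r r264 (@Lb.r r519 (@Lb.r r402 (@Lb.r r609 (@Lb.d (nat_lit 130) (nat_lit 17) (nat_lit 128) (@Lb.fm (nat_lit 3) t71)))))))))
noncomputable def l39352 : Lb := (@Lb.r r82 (@Lb.g g9 (@Lb.r r1575 (@Lb.r r386 (@Lb.r r2328 (@Lb.r r1637 (@Lb.d (nat_lit 265) (nat_lit 66) (nat_lit 85) (@Lb.t (@Lb.fp (nat_lit 3) t1027)))))))))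
noncomputable def l39353 : Lb := (@Lb.r r81 (@Lb.d (nat_lit 152) (nat_lit 512) (nat_lit 26) (@Lb.g g8 (@Lb.g g6 (@Lb.r r2709 (@Lb.r r2391 (@Lb.r r1704 (@Lb.d (nat_lit 597) (nat_lit 150) (nat_lit 553) (@Lb.fm (nat_lit 3) t1161)))))))))
noncomputable def l39354 : Lb := (@Lb.d (nat_lit 6) (nat_lit 5) (nat_lit 0) (@Lb.g g8 (@Lb.g g9 (@Lb.g g10 (@Lb.r r1689 (@Lb.r r659 (@Lb.r r578 (@Lb.r r24 (@Lb.d (nat_lit 326) (nat_lit 72) (nat_lit 649) (@Lb.t (@Lb.fm (nat_lit 9) t842)))))))))))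
noncomputable def l39355 : Lb := (@Lb.r r277 (@Lb.r r326 (@Lb.d (nat_lit 513) (nat_lit 16) (nat_lit 584) (@Lb.g g4 (@Lb.g g7 (@Lb.r r594 (@Lb.r r2337 (@Lb.d (nat_lit 1) (nat_lit 66) (nat_lit 96) (@Lb.fp (nat_lit 3) t1439)))))))))
noncomputable def l39356 : Lb := (@Lb.d (nat_lit 402) (nat_lit 133) (nat_lit 288) (@Lb.r r2068 (@Lb.r r1577 (@Lb.r r2731 (@Lb.r r516 (@Lb.g g7 (@Lb.g g6 (@Lb.g g5 (@Lb.g g4 (@Lb.d (nat_lit 101) (nat_lit 8) (nat_lit 80) (@Lb.fp (nat_lit 9) t6861)))))))))))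
noncomputable def l39357 : Lb := (@Lb.r r81 (@Lb.r r331 (@Lb.d (nat_lit 137) (nat_lit 0) (nat_lit 33) (@Lb.g g8 (@Lb.g g6 (@Lb.r r1685 (@Lb.r r1559 (@Lb.r r1444 (@Lb.d (nat_lit 601) (nat_lit 166) (nat_lit 393) (@Lb.fm (nat_lit 3) t6862))))))))))
noncomputable def l39358 : Lb := (@Lb.d (nat_lit 2) (nat_lit 2) (nat_lit 130) (@Lb.g g8 (@Lb.g g9 (@Lb.g g10 (@Lb.g g11 (@Lb.r r2666 (@Lb.r r579 (@Lb.r r2337 (@Lb.r r24 (@Lb.d (nat_lit 586) (nat_lit 104) (nat_lit 642) (@Lb.fm (nat_lit 9) t3803)))))))))))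
noncomputable def l39359 : Lb := (@Lb.d (nat_lit 2) (nat_lit 258) (nat_lit 66) (@Lb.g g8 (@Lb.g g9 (@Lb.g g10 (@Lb.g g11 (@Lb.r r586 (@Lb.r r1619 (@Lb.r r2337 (@Lb.r r24 (@Lb.d (nat_lit 586) (nat_lit 85) (nat_lit 646) (@Lb.fm (nat_lit 9) t3471)))))))))))
noncomputable def l39360 : Lb := (@Lb.d (nat_lit 1) (nat_lit 258) (nat_lit 66) (@Lb.g g8 (@Lb.g g9 (@Lb.g g10 (@Lb.g g11 (@Lb.r r1602 (@Lb.r r2647 (@Lb.r r2457 (@Lb.r r2436 (@Lb.d (nat_lit 404) (nat_lit 2) (nat_lit 409) (@Lb.fm (nat_lit 9) t3312)))))))))))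
noncomputable def l39361 : Lb := (@Lb.d (nat_lit 128) (nat_lit 520) (nat_lit 66) (@Lb.g g10 (@Lb.g g11 (@Lb.r r264 (@Lb.r r519 (@Lb.r r101 (@Lb.r r154 (@Lb.d (nat_lit 385) (nat_lit 0) (nat_lit 36) (@Lb.fm (nat_lit 3) t947)))))))))
noncomputable def l39362 : Lb := (@Lb.d (nat_lit 1) (nat_lit 514) (nat_lit 66) (@Lb.g g8 (@Lb.g g9 (@Lb.g g10 (@Lb.g g11 (@Lb.r r1602 (@Lb.r r2647 (@Lb.r r2457 (@Lb.r r2436 (@Lb.d (nat_lit 404) (nat_lit 9) (nat_lit 408) (@Lb.fm (nat_lit 9) t3312)))))))))))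
noncomputable def l39363 : Lb := (@Lb.d (nat_lit 9) (nat_lit 96) (nat_lit 0) (@Lb.g g8 (@Lb.g g5 (@Lb.r r322 (@Lb.r r1667 (@Lb.r r578 (@Lb.r r24 (@Lb.d (nat_lit 5) (nat_lit 2) (nat_lit 68) (@Lb.fp (nat_lit 3) t40)))))))))
noncomputable def l39364 : Lb := (@Lb.d (nat_lit 128) (nat_lit 8) (nat_lit 66) (@Lb.g g10 (@Lb.g g11 (@Lb.r r264 (@Lb.r r519 (@Lb.r r101 (@Lb.r r154 (@Lb.d (nat_lit 385) (nat_lit 0) (nat_lit 162) (@Lb.fm (nat_lit 3) t947)))))))))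
noncomputable def l39365 : Lb := (@Lb.d (nat_lit 6) (nat_lit 582) (nat_lit 65) (@Lb.r r289 (@Lb.r r279 (@Lb.r r584 (@Lb.r r326 (@Lb.g g7 (@Lb.g g6 (@Lb.g g5 (@Lb.d (nat_lit 4) (nat_lit 1) (nat_lit 129) (@Lb.t (@Lb.fp (nat_lit 9) t1085)))))))))))
noncomputable def l39366 : Lb := (@Lb.d (nat_lit 0) (nat_lit 256) (nat_lit 130) (@Lb.g g10 (@Lb.g g11 (@Lb.r r1553 (@Lb.r r595 (@Lb.r r386 (@Lb.d (nat_lit 280) (nat_lit 74) (nat_lit 552) (@Lb.fm (nat_lit 3) t6863))))))))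
noncomputable def l39367 : Lb := (@Lb.d (nat_lit 0) (nat_lit 0) (nat_lit 10) (@Lb.g g10 (@Lb.r r2643 (@Lb.r r401 (@Lb.r r2450 (@Lb.d (nat_lit 1) (nat_lit 154) (nat_lit 297) (@Lb.t (@Lb.fp (nat_lit 3) t2169))))))))
noncomputable def l39368 : Lb := (@Lb.d (nat_lit 0) (nat_lit 514) (nat_lit 130) (@Lb.g g9 (@Lb.g g10 (@Lb.g g11 (@Lb.r r427 (@Lb.r r424 (@Lb.r r106 (@Lb.r r25 (@Lb.d (nat_lit 521) (nat_lit 9) (nat_lit 33) (@Lb.t (@Lb.fp (nat_lit 9) t1231)))))))))))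
noncomputable def l39369 : Lb := (@Lb.d (nat_lit 0) (nat_lit 512) (nat_lit 128) (@Lb.g g8 (@Lb.g g11 (@Lb.r r293 (@Lb.r r2587 (@Lb.r r2178 (@Lb.r r2584 (@Lb.d (nat_lit 585) (nat_lit 2) (nat_lit 394) (@Lb.fm (nat_lit 3) t3068)))))))))
noncomputable def l39370 : Lb := (@Lb.r r134 (@Lb.r r324 (@Lb.r r539 (@Lb.r r289 (@Lb.r r36 (@Lb.d (nat_lit 328) (nat_lit 578) (nat_lit 512) (@Lb.fm (nat_lit 1) t1449)))))))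
noncomputable def l39371 : Lb := (@Lb.r r323 (@Lb.d (nat_lit 2) (nat_lit 2) (nat_lit 1) (@Lb.g g8 (@Lb.g g9 (@Lb.g g6 (@Lb.r r387 (@Lb.r r97 (@Lb.r r24 (@Lb.d (nat_lit 10) (nat_lit 9) (nat_lit 16) (@Lb.t (@Lb.fp (nat_lit 9) t40)))))))))))
noncomputable def l39372 : Lb := (@Lb.d (nat_lit 132) (nat_lit 256) (nat_lit 130) (@Lb.g g8 (@Lb.g g9 (@Lb.g g10 (@Lb.g g11 (@Lb.r r2666 (@Lb.r r2664 (@Lb.r r299 (@Lb.r r2337 (@Lb.d (nat_lit 521) (nat_lit 2) (nat_lit 426) (@Lb.fp (nat_lit 9) t631)))))))))))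
noncomputable def l39373 : Lb := (@Lb.d (nat_lit 8) (nat_lit 2) (nat_lit 1) (@Lb.g g9 (@Lb.g g10 (@Lb.r r2395 (@Lb.r r682 (@Lb.r r1304 (@Lb.r r2661 (@Lb.d (nat_lit 401) (nat_lit 137) (nat_lit 362) (@Lb.fp (nat_lit 3) t4711)))))))))
noncomputable def l39374 : Lb := (@Lb.d (nat_lit 1) (nat_lit 345) (nat_lit 644) (@Lb.r r323 (@Lb.r r658 (@Lb.g g7 (@Lb.g g5 (@Lb.d (nat_lit 4) (nat_lit 6) (nat_lit 128) (@Lb.fp (nat_lit 3) t6864)))))))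
noncomputable def l39375 : Lb := (@Lb.d (nat_lit 32) (nat_lit 0) (nat_lit 1) (@Lb.g g10 (@Lb.r r2579 (@Lb.r r2404 (@Lb.r r1386 (@Lb.r r289 (@Lb.d (nat_lit 614) (nat_lit 70) (nat_lit 594) (@Lb.t (@Lb.fp (nat_lit 3) t2645)))))))))
noncomputable def l39376 : Lb := (@Lb.r r21 (@Lb.r r70 (@Lb.d (nat_lit 658) (nat_lit 0) (nat_lit 0) (@Lb.g g8 (@Lb.r r74 (@Lb.r r25 (@Lb.d (nat_lit 353) (nat_lit 0) (nat_lit 138) (@Lb.t (@Lb.fp (nat_lit 3) t1728)))))))))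
noncomputable def l39377 : Lb := (@Lb.d (nat_lit 5) (nat_lit 421) (nat_lit 517) (@Lb.r r101 (@Lb.r r24 (@Lb.g g10 (@Lb.t (@Lb.fp (nat_lit 3) t1333))))))
noncomputable def l39378 : Lb := (@Lb.d (nat_lit 2) (nat_lit 550) (nat_lit 66) (@Lb.g g8 (@Lb.g g9 (@Lb.g g10 (@Lb.g g11 (@Lb.r r682 (@Lb.r r1700 (@Lb.r r1575 (@Lb.r r2577 (@Lb.d (nat_lit 325) (nat_lit 96) (nat_lit 74) (@Lb.fp (nat_lit 9) t1278)))))))))))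
noncomputable def l39379 : Lb := (@Lb.r r596 (@Lb.r r682 (@Lb.r r421 (@Lb.r r20 (@Lb.d (nat_lit 608) (nat_lit 676) (nat_lit 528) (@Lb.fp (nat_lit 1) t6865))))))
noncomputable def l39380 : Lb := (@Lb.d (nat_lit 146) (nat_lit 258) (nat_lit 4) (@Lb.g g8 (@Lb.g g9 (@Lb.g g10 (@Lb.g g11 (@Lb.r r2731 (@Lb.r r665 (@Lb.r r1170 (@Lb.r r1540 (@Lb.d (nat_lit 161) (nat_lit 137) (nat_lit 641) (@Lb.fp (nat_lit 9) t6866)))))))))))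
noncomputable def l39381 : Lb := (@Lb.d (nat_lit 533) (nat_lit 584) (nat_lit 164) (@Lb.r r81 (@Lb.r r102 (@Lb.r r2407 (@Lb.r r337 (@Lb.g g7 (@Lb.g g6 (@Lb.g g5 (@Lb.g g8 (@Lb.d (nat_lit 330) (nat_lit 0) (nat_lit 65) (@Lb.fm (nat_lit 9) t1774)))))))))))
noncomputable def l39382 : Lb := (@Lb.d (nat_lit 0) (nat_lit 258) (nat_lit 130) (@Lb.g g9 (@Lb.g g10 (@Lb.g g11 (@Lb.r r1602 (@Lb.r r405 (@Lb.r r2659 (@Lb.r r2577 (@Lb.d (nat_lit 1) (nat_lit 73) (nat_lit 386) (@Lb.t (@Lb.fp (nat_lit 9) t322)))))))))))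
noncomputable def l39383 : Lb := (@Lb.d (nat_lit 0) (nat_lit 258) (nat_lit 38) (@Lb.r r101 (@Lb.r r24 (@Lb.r r386 (@Lb.g g11 (@Lb.g g6 (@Lb.d (nat_lit 0) (nat_lit 0) (nat_lit 129) (@Lb.fm (nat_lit 3) t68))))))))
noncomputable def l39384 : Lb := (@Lb.r r322 (@Lb.d (nat_lit 0) (nat_lit 265) (nat_lit 8) (@Lb.g g9 (@Lb.g g11 (@Lb.r r1106 (@Lb.r r1441 (@Lb.d (nat_lit 280) (nat_lit 102) (nat_lit 362) (@Lb.fp (nat_lit 3) t402))))))))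
noncomputable def l39385 : Lb := (@Lb.d (nat_lit 2) (nat_lit 289) (nat_lit 132) (@Lb.g g8 (@Lb.g g9 (@Lb.g g10 (@Lb.g g11 (@Lb.r r1706 (@Lb.r r676 (@Lb.r r551 (@Lb.r r1577 (@Lb.r r20 (@Lb.d (nat_lit 321) (nat_lit 33) (nat_lit 586) (@Lb.fm (nat_lit 9) t3967))))))))))))
noncomputable def l39386 : Lb := (@Lb.r r81 (@Lb.r r323 (@Lb.d (nat_lit 136) (nat_lit 512) (nat_lit 33) (@Lb.g g8 (@Lb.g g6 (@Lb.r r661 (@Lb.r r343 (@Lb.r r648 (@Lb.d (nat_lit 82) (nat_lit 1) (nat_lit 137) (@Lb.fm (nat_lit 3) t128))))))))))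
noncomputable def l39387 : Lb := (@Lb.r r82 (@Lb.d (nat_lit 276) (nat_lit 0) (nat_lit 0) (@Lb.g g8 (@Lb.g g9 (@Lb.r r2731 (@Lb.r r1642 (@Lb.r r1633 (@Lb.d (nat_lit 614) (nat_lit 1) (nat_lit 9) (@Lb.fm (nat_lit 3) t1129)))))))))
noncomputable def l39388 : Lb := (@Lb.d (nat_lit 2) (nat_lit 258) (nat_lit 0) (@Lb.g g8 (@Lb.g g9 (@Lb.g g10 (@Lb.r r2154 (@Lb.r r25 (@Lb.d (nat_lit 9) (nat_lit 73) (nat_lit 2) (@Lb.t (@Lb.fm (nat_lit 9) t334)))))))))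
noncomputable def l39389 : Lb := (@Lb.d (nat_lit 4) (nat_lit 513) (nat_lit 0) (@Lb.r r2145 (@Lb.r r402 (@Lb.r r579 (@Lb.g g8 (@Lb.d (nat_lit 322) (nat_lit 0) (nat_lit 0) (@Lb.t (@Lb.fm (nat_lit 3) t242))))))))
noncomputable def l39390 : Lb := (@Lb.d (nat_lit 130) (nat_lit 516) (nat_lit 128) (@Lb.g g8 (@Lb.g g9 (@Lb.g g10 (@Lb.g g11 (@Lb.r r152 (@Lb.r r682 (@Lb.r r1411 (@Lb.r r153 (@Lb.r r132 (@Lb.d (nat_lit 325) (nat_lit 136) (nat_lit 681) (@Lb.fp (nat_lit 9) t6867))))))))))))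
noncomputable def l39391 : Lb := (@Lb.r r21 (@Lb.d (nat_lit 2) (nat_lit 256) (nat_lit 138) (@Lb.g g8 (@Lb.g g10 (@Lb.g g11 (@Lb.r r2327 (@Lb.r r132 (@Lb.r r406 (@Lb.r r97 (@Lb.d (nat_lit 352) (nat_lit 98) (nat_lit 73) (@Lb.t (@Lb.fm (nat_lit 9) t6868))))))))))))
noncomputable def l39392 : Lb := (@Lb.d (nat_lit 645) (nat_lit 17) (nat_lit 593) (@Lb.r r21 (@Lb.r r100 (@Lb.r r386 (@Lb.r r2387 (@Lb.g g7 (@Lb.g g6 (@Lb.g g5 (@Lb.d (nat_lit 0) (nat_lit 6) (nat_lit 66) (@Lb.t (@Lb.fm (nat_lit 9) t4902)))))))))))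
noncomputable def l39393 : Lb := (@Lb.d (nat_lit 5) (nat_lit 512) (nat_lit 0) (@Lb.g g8 (@Lb.r r515 (@Lb.r r661 (@Lb.r r346 (@Lb.r r600 (@Lb.d (nat_lit 361) (nat_lit 38) (nat_lit 170) (@Lb.t (@Lb.fp (nat_lit 3) t991)))))))))
noncomputable def l39394 : Lb := (@Lb.d (nat_lit 645) (nat_lit 534) (nat_lit 594) (@Lb.r r21 (@Lb.r r100 (@Lb.r r386 (@Lb.r r2387 (@Lb.g g7 (@Lb.g g6 (@Lb.g g5 (@Lb.d (nat_lit 0) (nat_lit 6) (nat_lit 66) (@Lb.t (@Lb.fm (nat_lit 9) t6869)))))))))))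
noncomputable def l39395 : Lb := (@Lb.d (nat_lit 0) (nat_lit 4) (nat_lit 10) (@Lb.g g9 (@Lb.g g10 (@Lb.g g7 (@Lb.r r424 (@Lb.r r106 (@Lb.r r25 (@Lb.d (nat_lit 106) (nat_lit 161) (nat_lit 258) (@Lb.t (@Lb.fm (nat_lit 9) t5062))))))))))
noncomputable def l39396 : Lb := (@Lb.d (nat_lit 2) (nat_lit 258) (nat_lit 73) (@Lb.g g8 (@Lb.g g9 (@Lb.g g10 (@Lb.g g11 (@Lb.r r427 (@Lb.r r424 (@Lb.r r1098 (@Lb.r r145 (@Lb.d (nat_lit 545) (nat_lit 10) (nat_lit 145) (@Lb.fm (nat_lit 9) t88)))))))))))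
noncomputable def l39397 : Lb := (@Lb.d (nat_lit 645) (nat_lit 512) (nat_lit 130) (@Lb.g g4 (@Lb.g g9 (@Lb.g g10 (@Lb.g g11 (@Lb.r r657 (@Lb.r r1435 (@Lb.r r90 (@Lb.r r145 (@Lb.d (nat_lit 289) (nat_lit 4) (nat_lit 88) (@Lb.fm (nat_lit 9) t5958)))))))))))
noncomputable def l39398 : Lb := (@Lb.r r323 (@Lb.d (nat_lit 677) (nat_lit 522) (nat_lit 9) (@Lb.g g4 (@Lb.g g9 (@Lb.g g10 (@Lb.r r421 (@Lb.r r2643 (@Lb.r r362 (@Lb.d (nat_lit 104) (nat_lit 36) (nat_lit 346) (@Lb.t (@Lb.fp (nat_lit 9) t6542)))))))))))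
noncomputable def l39399 : Lb := (@Lb.d (nat_lit 10) (nat_lit 512) (nat_lit 66) (@Lb.g g8 (@Lb.g g10 (@Lb.g g11 (@Lb.r r1575 (@Lb.r r597 (@Lb.r r98 (@Lb.r r2436 (@Lb.d (nat_lit 610) (nat_lit 74) (nat_lit 664) (@Lb.t (@Lb.fp (nat_lit 9) t386)))))))))))
noncomputable def l39400 : Lb := (@Lb.d (nat_lit 0) (nat_lit 512) (nat_lit 2) (@Lb.g g10 (@Lb.g g7 (@Lb.r r24 (@Lb.r r421 (@Lb.r r98 (@Lb.d (nat_lit 0) (nat_lit 150) (nat_lit 72) (@Lb.fp (nat_lit 3) t452))))))))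
noncomputable def l39401 : Lb := (@Lb.d (nat_lit 0) (nat_lit 512) (nat_lit 2) (@Lb.g g10 (@Lb.g g7 (@Lb.r r386 (@Lb.r r101 (@Lb.r r24 (@Lb.d (nat_lit 352) (nat_lit 5) (nat_lit 586) (@Lb.fm (nat_lit 3) t1150))))))))
noncomputable def l39402 : Lb := (@Lb.d (nat_lit 0) (nat_lit 0) (nat_lit 2) (@Lb.g g10 (@Lb.g g7 (@Lb.r r386 (@Lb.r r101 (@Lb.r r24 (@Lb.d (nat_lit 354) (nat_lit 5) (nat_lit 586) (@Lb.fm (nat_lit 3) t166))))))))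
noncomputable def l39403 : Lb := (@Lb.d (nat_lit 2) (nat_lit 258) (nat_lit 0) (@Lb.g g8 (@Lb.g g9 (@Lb.g g10 (@Lb.g g11 (@Lb.r r297 (@Lb.r r360 (@Lb.r r582 (@Lb.r r132 (@Lb.d (nat_lit 0) (nat_lit 10) (nat_lit 9) (@Lb.fp (nat_lit 9) t242)))))))))))
noncomputable def l39404 : Lb := (@Lb.r r82 (@Lb.d (nat_lit 133) (nat_lit 512) (nat_lit 384) (@Lb.g g8 (@Lb.g g9 (@Lb.g g11 (@Lb.r r610 (@Lb.r r529 (@Lb.r r292 (@Lb.d (nat_lit 72) (nat_lit 34) (nat_lit 576) (@Lb.t (@Lb.fm (nat_lit 9) t6108)))))))))))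
noncomputable def l39405 : Lb := (@Lb.g g8 (@Lb.g g5 (@Lb.g g7 (@Lb.r r402 (@Lb.d (nat_lit 0) (nat_lit 280) (nat_lit 66) (@Lb.t (@Lb.fp (nat_lit 9) t71)))))))
noncomputable def l39406 : Lb := (@Lb.d (nat_lit 0) (nat_lit 517) (nat_lit 128) (@Lb.g g9 (@Lb.g g11 (@Lb.r r410 (@Lb.r r1367 (@Lb.r r2724 (@Lb.r r2597 (@Lb.d (nat_lit 9) (nat_lit 137) (nat_lit 662) (@Lb.fm (nat_lit 3) t760)))))))))
noncomputable def l39407 : Lb := (@Lb.d (nat_lit 0) (nat_lit 0) (nat_lit 73) (@Lb.g g8 (@Lb.g g5 (@Lb.g g10 (@Lb.g g11 (@Lb.r r659 (@Lb.r r578 (@Lb.d (nat_lit 0) (nat_lit 20) (nat_lit 136) (@Lb.fp (nat_lit 9) t119)))))))))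
noncomputable def l39408 : Lb := (@Lb.d (nat_lit 0) (nat_lit 256) (nat_lit 9) (@Lb.g g8 (@Lb.g g5 (@Lb.g g10 (@Lb.r r2371 (@Lb.r r578 (@Lb.d (nat_lit 0) (nat_lit 145) (nat_lit 138) (@Lb.t (@Lb.fp (nat_lit 9) t210)))))))))
noncomputable def l39409 : Lb := (@Lb.d (nat_lit 0) (nat_lit 0) (nat_lit 130) (@Lb.g g10 (@Lb.g g11 (@Lb.r r2443 (@Lb.r r2458 (@Lb.r r24 (@Lb.r r101 (@Lb.d (nat_lit 522) (nat_lit 90) (nat_lit 553) (@Lb.fp (nat_lit 3) t3731)))))))))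
noncomputable def l39410 : Lb := (@Lb.r r21 (@Lb.r r263 (@Lb.d (nat_lit 548) (nat_lit 0) (nat_lit 1) (@Lb.g g4 (@Lb.g g10 (@Lb.r r267 (@Lb.r r134 (@Lb.r r97 (@Lb.d (nat_lit 290) (nat_lit 138) (nat_lit 1) (@Lb.fp (nat_lit 3) t217))))))))))
noncomputable def l39411 : Lb := (@Lb.d (nat_lit 130) (nat_lit 418) (nat_lit 282) (@Lb.r r24 (@Lb.r r2325 (@Lb.r r355 (@Lb.g g10 (@Lb.g g5 (@Lb.d (nat_lit 0) (nat_lit 17) (nat_lit 34) (@Lb.r r387 (@Lb.fm (nat_lit 3) t1444)))))))))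
noncomputable def l39412 : Lb := (@Lb.g g8 (@Lb.r r1114 (@Lb.r r2341 (@Lb.r r1427 (@Lb.r r1096 (@Lb.d (nat_lit 101) (nat_lit 513) (nat_lit 578) (@Lb.t (@Lb.fp (nat_lit 3) t6870))))))))
noncomputable def l39413 : Lb := (@Lb.r r2343 (@Lb.r r584 (@Lb.r r86 (@Lb.r r2201 (@Lb.r r132 (@Lb.d (nat_lit 273) (nat_lit 138) (nat_lit 37) (@Lb.fm (nat_lit 1) t6459)))))))
noncomputable def l39414 : Lb := (@Lb.r r323 (@Lb.d (nat_lit 2) (nat_lit 32) (nat_lit 1) (@Lb.g g8 (@Lb.g g9 (@Lb.g g10 (@Lb.r r1299 (@Lb.r r1354 (@Lb.r r2664 (@Lb.r r2585 (@Lb.d (nat_lit 328) (nat_lit 138) (nat_lit 662) (@Lb.t (@Lb.fp (nat_lit 9) t6871))))))))))))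
noncomputable def l39415 : Lb := (@Lb.d (nat_lit 406) (nat_lit 6) (nat_lit 276) (@Lb.r r24 (@Lb.r r101 (@Lb.r r386 (@Lb.g g11 (@Lb.g g6 (@Lb.g g4 (@Lb.d (nat_lit 6) (nat_lit 0) (nat_lit 1) (@Lb.t (@Lb.fp (nat_lit 9) t6497))))))))))
noncomputable def l39416 : Lb := (@Lb.d (nat_lit 42) (nat_lit 256) (nat_lit 128) (@Lb.g g8 (@Lb.g g11 (@Lb.r r677 (@Lb.r r2726 (@Lb.r r1703 (@Lb.r r2392 (@Lb.d (nat_lit 41) (nat_lit 84) (nat_lit 422) (@Lb.fm (nat_lit 3) t1639)))))))))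
noncomputable def l39417 : Lb := (@Lb.r r267 (@Lb.d (nat_lit 513) (nat_lit 256) (nat_lit 0) (@Lb.g g8 (@Lb.r r421 (@Lb.r r2470 (@Lb.r r2395 (@Lb.r r145 (@Lb.d (nat_lit 514) (nat_lit 65) (nat_lit 576) (@Lb.t (@Lb.fp (nat_lit 3) t2949))))))))))
noncomputable def l39418 : Lb := (@Lb.d (nat_lit 2) (nat_lit 544) (nat_lit 136) (@Lb.g g8 (@Lb.g g11 (@Lb.r r2449 (@Lb.r r1426 (@Lb.r r355 (@Lb.d (nat_lit 10) (nat_lit 138) (nat_lit 262) (@Lb.fp (nat_lit 3) t402))))))))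
noncomputable def l39419 : Lb := (@Lb.r r82 (@Lb.d (nat_lit 134) (nat_lit 273) (nat_lit 0) (@Lb.g g8 (@Lb.g g9 (@Lb.g g11 (@Lb.r r657 (@Lb.r r667 (@Lb.r r2630 (@Lb.r r1432 (@Lb.d (nat_lit 293) (nat_lit 81) (nat_lit 362) (@Lb.t (@Lb.fm (nat_lit 9) t1964))))))))))))
noncomputable def l39420 : Lb := (@Lb.d (nat_lit 130) (nat_lit 544) (nat_lit 128) (@Lb.g g8 (@Lb.g g11 (@Lb.r r2344 (@Lb.r r2329 (@Lb.r r551 (@Lb.r r2178 (@Lb.d (nat_lit 137) (nat_lit 25) (nat_lit 130) (@Lb.fp (nat_lit 3) t3942)))))))))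
noncomputable def l39421 : Lb := (@Lb.d (nat_lit 0) (nat_lit 598) (nat_lit 597) (@Lb.r r1362 (@Lb.r r419 (@Lb.g g6 (@Lb.g g5 (@Lb.d (nat_lit 0) (nat_lit 0) (nat_lit 6) (@Lb.fm (nat_lit 3) t406)))))))
noncomputable def l39422 : Lb := (@Lb.d (nat_lit 144) (nat_lit 512) (nat_lit 416) (@Lb.r r1291 (@Lb.g g8 (@Lb.t (@Lb.fp (nat_lit 3) t6872)))))
noncomputable def l39423 : Lb := (@Lb.r r21 (@Lb.d (nat_lit 154) (nat_lit 544) (nat_lit 64) (@Lb.g g8 (@Lb.g g10 (@Lb.g g11 (@Lb.r r1178 (@Lb.r r1125 (@Lb.r r1432 (@Lb.r r1415 (@Lb.d (nat_lit 353) (nat_lit 33) (nat_lit 384) (@Lb.t (@Lb.fp (nat_lit 9) t6873))))))))))))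
noncomputable def l39424 : Lb := (@Lb.r r20 (@Lb.d (nat_lit 4) (nat_lit 257) (nat_lit 2) (@Lb.g g9 (@Lb.g g10 (@Lb.r r2658 (@Lb.r r579 (@Lb.r r8 (@Lb.d (nat_lit 10) (nat_lit 148) (nat_lit 321) (@Lb.fm (nat_lit 3) t51)))))))))
noncomputable def l39425 : Lb := (@Lb.d (nat_lit 2) (nat_lit 38) (nat_lit 128) (@Lb.g g8 (@Lb.g g9 (@Lb.g g10 (@Lb.g g11 (@Lb.r r2705 (@Lb.r r292 (@Lb.r r539 (@Lb.r r390 (@Lb.r r1540 (@Lb.d (nat_lit 552) (nat_lit 130) (nat_lit 145) (@Lb.fp (nat_lit 9) t6874))))))))))))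
noncomputable def l39426 : Lb := (@Lb.r r323 (@Lb.d (nat_lit 130) (nat_lit 258) (nat_lit 2) (@Lb.g g8 (@Lb.g g9 (@Lb.g g10 (@Lb.r r263 (@Lb.r r98 (@Lb.r r97 (@Lb.r r536 (@Lb.d (nat_lit 682) (nat_lit 32) (nat_lit 530) (@Lb.t (@Lb.fm (nat_lit 9) t1994))))))))))))
noncomputable def l39427 : Lb := (@Lb.r r20 (@Lb.d (nat_lit 4) (nat_lit 513) (nat_lit 2) (@Lb.g g9 (@Lb.g g10 (@Lb.r r2658 (@Lb.r r579 (@Lb.r r8 (@Lb.d (nat_lit 10) (nat_lit 148) (nat_lit 264) (@Lb.fm (nat_lit 3) t51)))))))))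
noncomputable def l39428 : Lb := (@Lb.d (nat_lit 656) (nat_lit 256) (nat_lit 64) (@Lb.r r24 (@Lb.r r2661 (@Lb.g g7 (@Lb.g g10 (@Lb.g g5 (@Lb.d (nat_lit 0) (nat_lit 0) (nat_lit 164) (@Lb.t (@Lb.fm (nat_lit 9) t51)))))))))
noncomputable def l39429 : Lb := (@Lb.d (nat_lit 145) (nat_lit 553) (nat_lit 72) (@Lb.r r97 (@Lb.r r331 (@Lb.r r264 (@Lb.g g7 (@Lb.g g10 (@Lb.g g5 (@Lb.d (nat_lit 80) (nat_lit 1) (nat_lit 66) (@Lb.t (@Lb.fm (nat_lit 9) t983))))))))))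
noncomputable def l39430 : Lb := (@Lb.d (nat_lit 145) (nat_lit 41) (nat_lit 72) (@Lb.r r97 (@Lb.r r331 (@Lb.r r264 (@Lb.g g7 (@Lb.g g10 (@Lb.g g5 (@Lb.d (nat_lit 80) (nat_lit 8) (nat_lit 65) (@Lb.t (@Lb.fm (nat_lit 9) t983))))))))))
noncomputable def l39431 : Lb := (@Lb.d (nat_lit 2) (nat_lit 357) (nat_lit 662) (@Lb.r r24 (@Lb.r r146 (@Lb.r r1377 (@Lb.g g11 (@Lb.g g5 (@Lb.d (nat_lit 0) (nat_lit 1) (nat_lit 388) (@Lb.r r98 (@Lb.fm (nat_lit 3) t3686)))))))))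
noncomputable def l39432 : Lb := (@Lb.d (nat_lit 0) (nat_lit 288) (nat_lit 2) (@Lb.g g9 (@Lb.g g10 (@Lb.r r2691 (@Lb.r r2214 (@Lb.r r596 (@Lb.r r297 (@Lb.d (nat_lit 581) (nat_lit 34) (nat_lit 320) (@Lb.fp (nat_lit 3) t242)))))))))
noncomputable def l39433 : Lb := (@Lb.d (nat_lit 5) (nat_lit 512) (nat_lit 66) (@Lb.g g4 (@Lb.g g10 (@Lb.g g7 (@Lb.r r386 (@Lb.d (nat_lit 1) (nat_lit 6) (nat_lit 10) (@Lb.t (@Lb.fp (nat_lit 9) t45))))))))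
noncomputable def l39434 : Lb := (@Lb.d (nat_lit 0) (nat_lit 0) (nat_lit 2) (@Lb.g g9 (@Lb.g g10 (@Lb.g g11 (@Lb.r r2658 (@Lb.r r579 (@Lb.d (nat_lit 0) (nat_lit 97) (nat_lit 586) (@Lb.t (@Lb.fp (nat_lit 9) t51)))))))))
noncomputable def l39435 : Lb := (@Lb.d (nat_lit 5) (nat_lit 256) (nat_lit 128) (@Lb.g g4 (@Lb.g g11 (@Lb.d (nat_lit 6) (nat_lit 65) (nat_lit 0) (@Lb.fp (nat_lit 3) t2)))))
noncomputable def l39436 : Lb := (@Lb.d (nat_lit 0) (nat_lit 2) (nat_lit 130) (@Lb.g g8 (@Lb.g g9 (@Lb.g g10 (@Lb.g g11 (@Lb.r r1443 (@Lb.r r1122 (@Lb.r r616 (@Lb.r r2153 (@Lb.r r1060 (@Lb.d (nat_lit 545) (nat_lit 0) (nat_lit 425) (@Lb.fp (nat_lit 9) t6875))))))))))))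
noncomputable def l39437 : Lb := (@Lb.d (nat_lit 642) (nat_lit 662) (nat_lit 582) (@Lb.r r24 (@Lb.r r97 (@Lb.r r386 (@Lb.g g11 (@Lb.g g6 (@Lb.g g5 (@Lb.d (nat_lit 0) (nat_lit 1) (nat_lit 6) (@Lb.t (@Lb.fp (nat_lit 9) t2013))))))))))
noncomputable def l39438 : Lb := (@Lb.d (nat_lit 162) (nat_lit 0) (nat_lit 0) (@Lb.g g8 (@Lb.r r1685 (@Lb.r r662 (@Lb.r r2711 (@Lb.r r1380 (@Lb.d (nat_lit 346) (nat_lit 41) (nat_lit 388) (@Lb.t (@Lb.fp (nat_lit 3) t322)))))))))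
noncomputable def l39439 : Lb := (@Lb.d (nat_lit 2) (nat_lit 289) (nat_lit 66) (@Lb.g g8 (@Lb.g g9 (@Lb.g g10 (@Lb.g g11 (@Lb.r r595 (@Lb.r r1702 (@Lb.r r1636 (@Lb.r r1557 (@Lb.d (nat_lit 385) (nat_lit 9) (nat_lit 258) (@Lb.fp (nat_lit 9) t827)))))))))))
noncomputable def l39440 : Lb := (@Lb.d (nat_lit 0) (nat_lit 0) (nat_lit 68) (@Lb.g g7 (@Lb.d (nat_lit 0) (nat_lit 0) (nat_lit 170) (@Lb.t (@Lb.fm (nat_lit 3) t2)))))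
noncomputable def l39441 : Lb := (@Lb.r r82 (@Lb.r r275 (@Lb.g g5 (@Lb.r r2339 (@Lb.r r2146 (@Lb.r r2065 (@Lb.t (@Lb.p (nat_lit 1) (@Lb.fm (nat_lit 3) t144)))))))))
noncomputable def l39442 : Lb := (@Lb.d (nat_lit 2) (nat_lit 0) (nat_lit 136) (@Lb.g g8 (@Lb.g g9 (@Lb.g g11 (@Lb.r r1162 (@Lb.r r1188 (@Lb.r r1301 (@Lb.r r547 (@Lb.d (nat_lit 2) (nat_lit 0) (nat_lit 522) (@Lb.t (@Lb.fm (nat_lit 9) t1593)))))))))))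
noncomputable def l39443 : Lb := (@Lb.r r323 (@Lb.d (nat_lit 0) (nat_lit 514) (nat_lit 32) (@Lb.g g9 (@Lb.g g6 (@Lb.r r387 (@Lb.r r97 (@Lb.d (nat_lit 5) (nat_lit 10) (nat_lit 16) (@Lb.fm (nat_lit 3) t285))))))))
noncomputable def l39444 : Lb := (@Lb.d (nat_lit 0) (nat_lit 4) (nat_lit 129) (@Lb.g g9 (@Lb.g g6 (@Lb.g g11 (@Lb.r r2657 (@Lb.d (nat_lit 5) (nat_lit 90) (nat_lit 0) (@Lb.t (@Lb.fm (nat_lit 9) t607))))))))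
noncomputable def l39445 : Lb := (@Lb.d (nat_lit 1) (nat_lit 545) (nat_lit 66) (@Lb.g g8 (@Lb.g g9 (@Lb.g g10 (@Lb.g g11 (@Lb.r r595 (@Lb.r r1702 (@Lb.r r1636 (@Lb.r r1557 (@Lb.d (nat_lit 385) (nat_lit 9) (nat_lit 258) (@Lb.fp (nat_lit 9) t827)))))))))))
noncomputable def l39446 : Lb := (@Lb.r r339 (@Lb.d (nat_lit 8) (nat_lit 514) (nat_lit 1) (@Lb.g g9 (@Lb.g g10 (@Lb.r r603 (@Lb.r r2146 (@Lb.r r1048 (@Lb.r r2149 (@Lb.d (nat_lit 533) (nat_lit 137) (nat_lit 34) (@Lb.fp (nat_lit 3) t827))))))))))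
noncomputable def l39447 : Lb := (@Lb.r r82 (@Lb.d (nat_lit 8) (nat_lit 32) (nat_lit 64) (@Lb.g g9 (@Lb.g g11 (@Lb.r r1688 (@Lb.r r1435 (@Lb.r r1366 (@Lb.r r2709 (@Lb.d (nat_lit 161) (nat_lit 98) (nat_lit 296) (@Lb.fp (nat_lit 3) t1126))))))))))
noncomputable def l39448 : Lb := (@Lb.d (nat_lit 0) (nat_lit 282) (nat_lit 73) (@Lb.g g9 (@Lb.g g10 (@Lb.g g11 (@Lb.r r529 (@Lb.r r2643 (@Lb.r r1362 (@Lb.r r1105 (@Lb.d (nat_lit 0) (nat_lit 145) (nat_lit 264) (@Lb.t (@Lb.fp (nat_lit 9) t661)))))))))))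
noncomputable def l39449 : Lb := (@Lb.d (nat_lit 8) (nat_lit 34) (nat_lit 0) (@Lb.g g5 (@Lb.r r676 (@Lb.r r423 (@Lb.r r134 (@Lb.r r345 (@Lb.d (nat_lit 596) (nat_lit 41) (nat_lit 106) (@Lb.t (@Lb.fp (nat_lit 3) t319)))))))))
noncomputable def l39450 : Lb := (@Lb.r r82 (@Lb.d (nat_lit 2) (nat_lit 266) (nat_lit 0) (@Lb.g g8 (@Lb.g g9 (@Lb.r r1430 (@Lb.r r2645 (@Lb.d (nat_lit 4) (nat_lit 168) (nat_lit 680) (@Lb.fp (nat_lit 3) t4466))))))))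
noncomputable def l39451 : Lb := (@Lb.r r82 (@Lb.r r275 (@Lb.d (nat_lit 2) (nat_lit 514) (nat_lit 0) (@Lb.g g8 (@Lb.g g9 (@Lb.r r362 (@Lb.r r353 (@Lb.r r411 (@Lb.d (nat_lit 64) (nat_lit 128) (nat_lit 266) (@Lb.fp (nat_lit 3) t3686))))))))))
noncomputable def l39452 : Lb := (@Lb.r r82 (@Lb.d (nat_lit 2) (nat_lit 522) (nat_lit 0) (@Lb.g g8 (@Lb.g g9 (@Lb.r r1430 (@Lb.r r2645 (@Lb.d (nat_lit 4) (nat_lit 168) (nat_lit 614) (@Lb.fp (nat_lit 3) t2040))))))))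
noncomputable def l39453 : Lb := (@Lb.r r82 (@Lb.d (nat_lit 2) (nat_lit 553) (nat_lit 64) (@Lb.g g8 (@Lb.g g9 (@Lb.g g11 (@Lb.r r1430 (@Lb.r r1367 (@Lb.r r2337 (@Lb.d (nat_lit 342) (nat_lit 20) (nat_lit 585) (@Lb.t (@Lb.fm (nat_lit 9) t546)))))))))))
noncomputable def l39454 : Lb := (@Lb.d (nat_lit 8) (nat_lit 264) (nat_lit 64) (@Lb.g g9 (@Lb.g g11 (@Lb.r r2202 (@Lb.r r2456 (@Lb.r r2567 (@Lb.r r337 (@Lb.d (nat_lit 641) (nat_lit 22) (nat_lit 100) (@Lb.fp (nat_lit 3) t322)))))))))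
noncomputable def l39455 : Lb := (@Lb.d (nat_lit 2) (nat_lit 578) (nat_lit 130) (@Lb.g g8 (@Lb.g g9 (@Lb.g g10 (@Lb.g g11 (@Lb.r r2475 (@Lb.r r420 (@Lb.r r102 (@Lb.r r132 (@Lb.d (nat_lit 290) (nat_lit 2) (nat_lit 137) (@Lb.fp (nat_lit 9) t1242)))))))))))
noncomputable def l39456 : Lb := (@Lb.r r1379 (@Lb.r r89 (@Lb.r r1126 (@Lb.r r24 (@Lb.d (nat_lit 65) (nat_lit 0) (nat_lit 528) (@Lb.fm (nat_lit 1) t5929))))))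
noncomputable def l39457 : Lb := (@Lb.r r322 (@Lb.d (nat_lit 41) (nat_lit 1) (nat_lit 576) (@Lb.g g8 (@Lb.g g9 (@Lb.g g7 (@Lb.r r361 (@Lb.r r150 (@Lb.r r84 (@Lb.d (nat_lit 22) (nat_lit 150) (nat_lit 521) (@Lb.t (@Lb.fp (nat_lit 9) t259)))))))))))
noncomputable def l39458 : Lb := (@Lb.d (nat_lit 648) (nat_lit 545) (nat_lit 149) (@Lb.r r2601 (@Lb.r r2731 (@Lb.r r662 (@Lb.g g5 (@Lb.g g4 (@Lb.d (nat_lit 612) (nat_lit 10) (nat_lit 0) (@Lb.r r74 (@Lb.fp (nat_lit 3) t3321)))))))))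
noncomputable def l39459 : Lb := (@Lb.d (nat_lit 320) (nat_lit 290) (nat_lit 389) (@Lb.r r2116 (@Lb.r r666 (@Lb.r r404 (@Lb.r r2691 (@Lb.g g7 (@Lb.g g6 (@Lb.g g5 (@Lb.g g4 (@Lb.d (nat_lit 6) (nat_lit 137) (nat_lit 133) (@Lb.fp (nat_lit 9) t6876)))))))))))
noncomputable def l39460 : Lb := (@Lb.d (nat_lit 130) (nat_lit 258) (nat_lit 66) (@Lb.g g8 (@Lb.g g9 (@Lb.g g10 (@Lb.g g11 (@Lb.r r586 (@Lb.r r600 (@Lb.r r2341 (@Lb.r r1563 (@Lb.r r516 (@Lb.d (nat_lit 521) (nat_lit 9) (nat_lit 674) (@Lb.fm (nat_lit 9) t2930))))))))))))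
noncomputable def l39461 : Lb := (@Lb.g g8 (@Lb.g g9 (@Lb.d (nat_lit 0) (nat_lit 522) (nat_lit 2) (@Lb.fm (nat_lit 3) t21))))
noncomputable def l39462 : Lb := (@Lb.d (nat_lit 16) (nat_lit 266) (nat_lit 1) (@Lb.g g8 (@Lb.g g9 (@Lb.g g10 (@Lb.r r25 (@Lb.r r2152 (@Lb.r r166 (@Lb.d (nat_lit 537) (nat_lit 6) (nat_lit 34) (@Lb.t (@Lb.fm (nat_lit 9) t3197))))))))))
noncomputable def l39463 : Lb := (@Lb.d (nat_lit 340) (nat_lit 169) (nat_lit 400) (@Lb.r r1364 (@Lb.r r2729 (@Lb.g g7 (@Lb.g g5 (@Lb.g g4 (@Lb.d (nat_lit 68) (nat_lit 2) (nat_lit 580) (@Lb.r r1098 (@Lb.t (@Lb.fm (nat_lit 9) t4167))))))))))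
noncomputable def l39464 : Lb := (@Lb.d (nat_lit 70) (nat_lit 65) (nat_lit 512) (@Lb.r r264 (@Lb.r r2145 (@Lb.r r402 (@Lb.g g11 (@Lb.g g4 (@Lb.d (nat_lit 65) (nat_lit 0) (nat_lit 512) (@Lb.fm (nat_lit 3) t580))))))))
noncomputable def l39465 : Lb := (@Lb.r r323 (@Lb.d (nat_lit 128) (nat_lit 66) (nat_lit 2) (@Lb.g g8 (@Lb.g g9 (@Lb.g g10 (@Lb.r r1623 (@Lb.r r2434 (@Lb.r r72 (@Lb.d (nat_lit 41) (nat_lit 145) (nat_lit 297) (@Lb.t (@Lb.fp (nat_lit 9) t2142)))))))))))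
noncomputable def l39466 : Lb := (@Lb.d (nat_lit 0) (nat_lit 514) (nat_lit 0) (@Lb.g g8 (@Lb.g g9 (@Lb.g g7 (@Lb.r r1122 (@Lb.r r25 (@Lb.r r24 (@Lb.d (nat_lit 513) (nat_lit 0) (nat_lit 69) (@Lb.t (@Lb.fm (nat_lit 9) t49))))))))))
noncomputable def l39467 : Lb := (@Lb.d (nat_lit 0) (nat_lit 66) (nat_lit 73) (@Lb.g g8 (@Lb.g g9 (@Lb.g g10 (@Lb.g g11 (@Lb.r r2475 (@Lb.r r2440 (@Lb.r r2458 (@Lb.d (nat_lit 400) (nat_lit 101) (nat_lit 297) (@Lb.fp (nat_lit 9) t2142))))))))))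
noncomputable def l39468 : Lb := (@Lb.r r70 (@Lb.d (nat_lit 2) (nat_lit 514) (nat_lit 128) (@Lb.g g8 (@Lb.g g9 (@Lb.g g11 (@Lb.r r1611 (@Lb.r r1410 (@Lb.r r97 (@Lb.r r2200 (@Lb.d (nat_lit 538) (nat_lit 144) (nat_lit 320) (@Lb.t (@Lb.fm (nat_lit 9) t5878))))))))))))
noncomputable def l39469 : Lb := (@Lb.d (nat_lit 0) (nat_lit 258) (nat_lit 0) (@Lb.g g8 (@Lb.g g9 (@Lb.r r1122 (@Lb.r r25 (@Lb.r r24 (@Lb.d (nat_lit 520) (nat_lit 2) (nat_lit 0) (@Lb.fp (nat_lit 3) t994))))))))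
noncomputable def l39470 : Lb := (@Lb.d (nat_lit 0) (nat_lit 5) (nat_lit 128) (@Lb.g g9 (@Lb.g g10 (@Lb.g g11 (@Lb.r r2403 (@Lb.r r386 (@Lb.r r2725 (@Lb.d (nat_lit 154) (nat_lit 154) (nat_lit 420) (@Lb.t (@Lb.fm (nat_lit 9) t2070))))))))))
noncomputable def l39471 : Lb := (@Lb.r r82 (@Lb.d (nat_lit 2) (nat_lit 34) (nat_lit 64) (@Lb.g g8 (@Lb.g g9 (@Lb.g g11 (@Lb.r r2731 (@Lb.r r1610 (@Lb.r r2596 (@Lb.r r1061 (@Lb.d (nat_lit 289) (nat_lit 170) (nat_lit 656) (@Lb.t (@Lb.fm (nat_lit 9) t1038))))))))))))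
noncomputable def l39472 : Lb := (@Lb.d (nat_lit 4) (nat_lit 266) (nat_lit 72) (@Lb.g g8 (@Lb.g g9 (@Lb.g g10 (@Lb.g g11 (@Lb.r r2666 (@Lb.r r579 (@Lb.r r104 (@Lb.r r25 (@Lb.d (nat_lit 402) (nat_lit 10) (nat_lit 358) (@Lb.fp (nat_lit 9) t4946)))))))))))
noncomputable def l39473 : Lb := (@Lb.r r21 (@Lb.r r331 (@Lb.d (nat_lit 613) (nat_lit 256) (nat_lit 10) (@Lb.g g4 (@Lb.g g10 (@Lb.r r595 (@Lb.r r1370 (@Lb.r r97 (@Lb.d (nat_lit 402) (nat_lit 162) (nat_lit 41) (@Lb.fp (nat_lit 3) t6877))))))))))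
noncomputable def l39474 : Lb := (@Lb.d (nat_lit 0) (nat_lit 512) (nat_lit 73) (@Lb.g g10 (@Lb.g g11 (@Lb.r r602 (@Lb.r r579 (@Lb.r r149 (@Lb.r r1636 (@Lb.d (nat_lit 256) (nat_lit 104) (nat_lit 288) (@Lb.fp (nat_lit 3) t5656)))))))))
noncomputable def l39475 : Lb := (@Lb.r r323 (@Lb.d (nat_lit 0) (nat_lit 0) (nat_lit 2) (@Lb.g g9 (@Lb.g g10 (@Lb.r r2406 (@Lb.r r1419 (@Lb.r r24 (@Lb.r r1317 (@Lb.d (nat_lit 581) (nat_lit 9) (nat_lit 2) (@Lb.fm (nat_lit 3) t1089))))))))))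
noncomputable def l39476 : Lb := (@Lb.r r267 (@Lb.d (nat_lit 2) (nat_lit 512) (nat_lit 0) (@Lb.g g8 (@Lb.r r358 (@Lb.r r1381 (@Lb.r r403 (@Lb.r r1540 (@Lb.d (nat_lit 640) (nat_lit 128) (nat_lit 64) (@Lb.t (@Lb.fm (nat_lit 3) t927))))))))))
noncomputable def l39477 : Lb := (@Lb.r r21 (@Lb.d (nat_lit 132) (nat_lit 0) (nat_lit 130) (@Lb.g g8 (@Lb.g g10 (@Lb.g g11 (@Lb.r r1433 (@Lb.r r683 (@Lb.r r2698 (@Lb.r r2724 (@Lb.d (nat_lit 533) (nat_lit 85) (nat_lit 8) (@Lb.t (@Lb.fm (nat_lit 9) t1606))))))))))))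
noncomputable def l39478 : Lb := (@Lb.r r21 (@Lb.r r331 (@Lb.d (nat_lit 417) (nat_lit 4) (nat_lit 2) (@Lb.g g8 (@Lb.g g10 (@Lb.r r409 (@Lb.r r2731 (@Lb.r r1674 (@Lb.d (nat_lit 646) (nat_lit 136) (nat_lit 298) (@Lb.fm (nat_lit 3) t1606))))))))))
noncomputable def l39479 : Lb := (@Lb.r r21 (@Lb.r r331 (@Lb.d (nat_lit 676) (nat_lit 516) (nat_lit 2) (@Lb.g g8 (@Lb.g g10 (@Lb.r r409 (@Lb.r r2731 (@Lb.r r1674 (@Lb.d (nat_lit 640) (nat_lit 138) (nat_lit 661) (@Lb.fm (nat_lit 3) t2443))))))))))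
noncomputable def l39480 : Lb := (@Lb.d (nat_lit 2) (nat_lit 2) (nat_lit 130) (@Lb.g g8 (@Lb.g g9 (@Lb.g g10 (@Lb.g g11 (@Lb.r r610 (@Lb.r r1607 (@Lb.r r1060 (@Lb.r r1125 (@Lb.d (nat_lit 153) (nat_lit 5) (nat_lit 401) (@Lb.fp (nat_lit 9) t825)))))))))))
noncomputable def l39481 : Lb := (@Lb.d (nat_lit 128) (nat_lit 0) (nat_lit 64) (@Lb.g g11 (@Lb.r r1572 (@Lb.r r2325 (@Lb.r r555 (@Lb.r r2178 (@Lb.d (nat_lit 73) (nat_lit 18) (nat_lit 517) (@Lb.t (@Lb.fp (nat_lit 3) t6372)))))))))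
noncomputable def l39482 : Lb := (@Lb.d (nat_lit 65) (nat_lit 592) (nat_lit 165) (@Lb.r r1105 (@Lb.r r358 (@Lb.r r85 (@Lb.r r2691 (@Lb.g g7 (@Lb.g g6 (@Lb.g g5 (@Lb.g g4 (@Lb.d (nat_lit 1) (nat_lit 1) (nat_lit 134) (@Lb.fm (nat_lit 9) t6878)))))))))))
noncomputable def l39483 : Lb := (@Lb.d (nat_lit 0) (nat_lit 258) (nat_lit 132) (@Lb.g g9 (@Lb.g g10 (@Lb.g g7 (@Lb.r r417 (@Lb.r r98 (@Lb.r r2436 (@Lb.d (nat_lit 5) (nat_lit 22) (nat_lit 360) (@Lb.t (@Lb.fm (nat_lit 9) t1831))))))))))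
noncomputable def l39484 : Lb := (@Lb.d (nat_lit 530) (nat_lit 5) (nat_lit 356) (@Lb.r r1094 (@Lb.r r2440 (@Lb.r r2579 (@Lb.r r2389 (@Lb.g g6 (@Lb.g g5 (@Lb.g g4 (@Lb.d (nat_lit 1) (nat_lit 1) (nat_lit 1) (@Lb.t (@Lb.fp (nat_lit 9) t1246)))))))))))
noncomputable def l39485 : Lb := (@Lb.d (nat_lit 0) (nat_lit 650) (nat_lit 36) (@Lb.r r2658 (@Lb.r r2393 (@Lb.r r24 (@Lb.g g11 (@Lb.g g10 (@Lb.d (nat_lit 16) (nat_lit 0) (nat_lit 1) (@Lb.fp (nat_lit 3) t263))))))))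
noncomputable def l39486 : Lb := (@Lb.r r21 (@Lb.d (nat_lit 2) (nat_lit 256) (nat_lit 66) (@Lb.g g8 (@Lb.g g10 (@Lb.g g7 (@Lb.r r2450 (@Lb.r r97 (@Lb.r r1048 (@Lb.d (nat_lit 522) (nat_lit 161) (nat_lit 512) (@Lb.t (@Lb.fm (nat_lit 9) t4156)))))))))))
noncomputable def l39487 : Lb := (@Lb.r r70 (@Lb.r r263 (@Lb.d (nat_lit 4) (nat_lit 517) (nat_lit 0) (@Lb.g g8 (@Lb.g g5 (@Lb.r r1447 (@Lb.r r2634 (@Lb.r r1636 (@Lb.d (nat_lit 0) (nat_lit 24) (nat_lit 394) (@Lb.fp (nat_lit 3) t399))))))))))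
noncomputable def l39488 : Lb := (@Lb.d (nat_lit 0) (nat_lit 521) (nat_lit 0) (@Lb.g g8 (@Lb.g g9 (@Lb.g g10 (@Lb.r r1186 (@Lb.r r25 (@Lb.d (nat_lit 37) (nat_lit 133) (nat_lit 33) (@Lb.t (@Lb.fp (nat_lit 9) t362)))))))))
noncomputable def l39489 : Lb := (@Lb.d (nat_lit 2) (nat_lit 258) (nat_lit 9) (@Lb.g g8 (@Lb.g g9 (@Lb.g g10 (@Lb.g g7 (@Lb.r r1442 (@Lb.r r145 (@Lb.r r2120 (@Lb.d (nat_lit 290) (nat_lit 169) (nat_lit 289) (@Lb.fm (nat_lit 9) t940))))))))))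
noncomputable def l39490 : Lb := (@Lb.d (nat_lit 2) (nat_lit 550) (nat_lit 64) (@Lb.g g8 (@Lb.g g9 (@Lb.g g10 (@Lb.g g11 (@Lb.r r2666 (@Lb.r r1603 (@Lb.r r2152 (@Lb.r r2073 (@Lb.d (nat_lit 105) (nat_lit 20) (nat_lit 598) (@Lb.fp (nat_lit 9) t6879)))))))))))
noncomputable def l39491 : Lb := (@Lb.r r82 (@Lb.d (nat_lit 2) (nat_lit 2) (nat_lit 128) (@Lb.g g8 (@Lb.g g9 (@Lb.g g11 (@Lb.r r1307 (@Lb.r r578 (@Lb.r r289 (@Lb.r r24 (@Lb.d (nat_lit 265) (nat_lit 32) (nat_lit 5) (@Lb.t (@Lb.fm (nat_lit 9) t3048))))))))))))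
noncomputable def l39492 : Lb := (@Lb.d (nat_lit 390) (nat_lit 641) (nat_lit 256) (@Lb.r r2341 (@Lb.r r1624 (@Lb.r r2470 (@Lb.r r339 (@Lb.g g7 (@Lb.g g6 (@Lb.g g5 (@Lb.d (nat_lit 0) (nat_lit 0) (nat_lit 8) (@Lb.t (@Lb.fm (nat_lit 9) t1330)))))))))))
noncomputable def l39493 : Lb := (@Lb.d (nat_lit 262) (nat_lit 32) (nat_lit 384) (@Lb.r r2085 (@Lb.r r2136 (@Lb.r r1190 (@Lb.r r679 (@Lb.g g6 (@Lb.g g5 (@Lb.g g8 (@Lb.r r423 (@Lb.t (@Lb.fm (nat_lit 9) t1384)))))))))))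
noncomputable def l39494 : Lb := (@Lb.d (nat_lit 336) (nat_lit 261) (nat_lit 10) (@Lb.r r361 (@Lb.r r292 (@Lb.r r1623 (@Lb.g g6 (@Lb.g g5 (@Lb.d (nat_lit 20) (nat_lit 5) (nat_lit 38) (@Lb.r r291 (@Lb.fm (nat_lit 3) t4721)))))))))
noncomputable def l39495 : Lb := (@Lb.d (nat_lit 292) (nat_lit 646) (nat_lit 17) (@Lb.r r101 (@Lb.r r2403 (@Lb.g g6 (@Lb.d (nat_lit 0) (nat_lit 4) (nat_lit 1) (@Lb.t (@Lb.fp (nat_lit 3) t233)))))))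
noncomputable def l39496 : Lb := (@Lb.d (nat_lit 0) (nat_lit 512) (nat_lit 128) (@Lb.g g11 (@Lb.r r582 (@Lb.r r404 (@Lb.r r619 (@Lb.r r537 (@Lb.d (nat_lit 1) (nat_lit 132) (nat_lit 326) (@Lb.t (@Lb.fm (nat_lit 3) t668)))))))))
noncomputable def l39497 : Lb := (@Lb.d (nat_lit 409) (nat_lit 133) (nat_lit 352) (@Lb.r r2378 (@Lb.r r2408 (@Lb.r r1705 (@Lb.r r1427 (@Lb.g g7 (@Lb.g g6 (@Lb.d (nat_lit 16) (nat_lit 0) (nat_lit 68) (@Lb.fm (nat_lit 3) t6880)))))))))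
noncomputable def l39498 : Lb := (@Lb.r r82 (@Lb.d (nat_lit 2) (nat_lit 33) (nat_lit 64) (@Lb.g g8 (@Lb.g g9 (@Lb.g g11 (@Lb.r r2659 (@Lb.r r1430 (@Lb.r r2645 (@Lb.d (nat_lit 33) (nat_lit 149) (nat_lit 616) (@Lb.t (@Lb.fm (nat_lit 9) t1685)))))))))))
noncomputable def l39499 : Lb := (@Lb.d (nat_lit 104) (nat_lit 37) (nat_lit 130) (@Lb.g g8 (@Lb.g g9 (@Lb.g g10 (@Lb.g g11 (@Lb.r r2691 (@Lb.r r1192 (@Lb.r r2634 (@Lb.r r2389 (@Lb.d (nat_lit 166) (nat_lit 149) (nat_lit 80) (@Lb.fp (nat_lit 9) t1871)))))))))))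
noncomputable def l39500 : Lb := (@Lb.r r331 (@Lb.d (nat_lit 37) (nat_lit 32) (nat_lit 2) (@Lb.g g8 (@Lb.g g9 (@Lb.g g10 (@Lb.r r595 (@Lb.r r1313 (@Lb.r r2708 (@Lb.d (nat_lit 406) (nat_lit 20) (nat_lit 680) (@Lb.t (@Lb.fm (nat_lit 9) t3609)))))))))))
noncomputable def l39501 : Lb := (@Lb.r r323 (@Lb.d (nat_lit 32) (nat_lit 32) (nat_lit 2) (@Lb.g g9 (@Lb.g g10 (@Lb.r r603 (@Lb.r r1313 (@Lb.r r1124 (@Lb.d (nat_lit 129) (nat_lit 128) (nat_lit 2) (@Lb.fm (nat_lit 3) t1121)))))))))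
noncomputable def l39502 : Lb := (@Lb.d (nat_lit 169) (nat_lit 5) (nat_lit 128) (@Lb.g g8 (@Lb.g g9 (@Lb.g g10 (@Lb.g g11 (@Lb.r r2667 (@Lb.r r1610 (@Lb.r r341 (@Lb.r r2408 (@Lb.d (nat_lit 265) (nat_lit 9) (nat_lit 393) (@Lb.fp (nat_lit 9) t6881)))))))))))
noncomputable def l39503 : Lb := (@Lb.d (nat_lit 2) (nat_lit 34) (nat_lit 0) (@Lb.g g8 (@Lb.g g9 (@Lb.r r2340 (@Lb.r r2395 (@Lb.r r2178 (@Lb.r r1637 (@Lb.d (nat_lit 680) (nat_lit 149) (nat_lit 546) (@Lb.fm (nat_lit 3) t64)))))))))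
noncomputable def l39504 : Lb := (@Lb.d (nat_lit 2) (nat_lit 2) (nat_lit 73) (@Lb.g g8 (@Lb.g g9 (@Lb.g g10 (@Lb.g g11 (@Lb.r r2666 (@Lb.r r579 (@Lb.r r97 (@Lb.r r24 (@Lb.d (nat_lit 421) (nat_lit 8) (nat_lit 356) (@Lb.fm (nat_lit 9) t61)))))))))))
noncomputable def l39505 : Lb := (@Lb.r r2118 (@Lb.d (nat_lit 2) (nat_lit 514) (nat_lit 0) (@Lb.g g8 (@Lb.g g9 (@Lb.r r617 (@Lb.r r612 (@Lb.d (nat_lit 152) (nat_lit 26) (nat_lit 426) (@Lb.fp (nat_lit 3) t1427))))))))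
noncomputable def l39506 : Lb := (@Lb.d (nat_lit 4) (nat_lit 512) (nat_lit 0) (@Lb.g g8 (@Lb.g g9 (@Lb.r r322 (@Lb.r r1667 (@Lb.r r578 (@Lb.r r25 (@Lb.d (nat_lit 0) (nat_lit 144) (nat_lit 266) (@Lb.fp (nat_lit 3) t210)))))))))
noncomputable def l39507 : Lb := (@Lb.d (nat_lit 130) (nat_lit 256) (nat_lit 0) (@Lb.g g4 (@Lb.r r2731 (@Lb.r r2178 (@Lb.r r1625 (@Lb.r r88 (@Lb.d (nat_lit 293) (nat_lit 4) (nat_lit 1) (@Lb.t (@Lb.fp (nat_lit 3) t229)))))))))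
noncomputable def l39508 : Lb := (@Lb.r r331 (@Lb.d (nat_lit 36) (nat_lit 512) (nat_lit 2) (@Lb.g g8 (@Lb.g g9 (@Lb.g g10 (@Lb.r r601 (@Lb.r r667 (@Lb.r r596 (@Lb.d (nat_lit 133) (nat_lit 162) (nat_lit 137) (@Lb.t (@Lb.fp (nat_lit 9) t1250)))))))))))
noncomputable def l39509 : Lb := (@Lb.r r331 (@Lb.d (nat_lit 37) (nat_lit 256) (nat_lit 2) (@Lb.g g8 (@Lb.g g9 (@Lb.g g10 (@Lb.r r1689 (@Lb.r r1563 (@Lb.r r1684 (@Lb.d (nat_lit 405) (nat_lit 38) (nat_lit 662) (@Lb.t (@Lb.fp (nat_lit 9) t1250)))))))))))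
noncomputable def l39510 : Lb := (@Lb.d (nat_lit 132) (nat_lit 256) (nat_lit 130) (@Lb.g g8 (@Lb.g g9 (@Lb.g g10 (@Lb.g g11 (@Lb.r r419 (@Lb.r r1177 (@Lb.r r1626 (@Lb.r r1624 (@Lb.d (nat_lit 617) (nat_lit 34) (nat_lit 649) (@Lb.fm (nat_lit 9) t1250)))))))))))
noncomputable def l39511 : Lb := (@Lb.d (nat_lit 5) (nat_lit 0) (nat_lit 0) (@Lb.g g4 (@Lb.d (nat_lit 10) (nat_lit 0) (nat_lit 0) (@Lb.t (@Lb.fm (nat_lit 3) t2)))))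
noncomputable def l39512 : Lb := (@Lb.r r20 (@Lb.d (nat_lit 0) (nat_lit 550) (nat_lit 128) (@Lb.g g9 (@Lb.g g10 (@Lb.g g11 (@Lb.r r1698 (@Lb.r r387 (@Lb.r r2193 (@Lb.d (nat_lit 1) (nat_lit 21) (nat_lit 393) (@Lb.t (@Lb.fp (nat_lit 9) t1370)))))))))))
noncomputable def l39513 : Lb := (@Lb.d (nat_lit 4) (nat_lit 256) (nat_lit 130) (@Lb.g g8 (@Lb.g g9 (@Lb.g g10 (@Lb.g g11 (@Lb.r r2691 (@Lb.r r297 (@Lb.r r360 (@Lb.r r582 (@Lb.r r2180 (@Lb.d (nat_lit 641) (nat_lit 66) (nat_lit 330) (@Lb.fm (nat_lit 9) t758))))))))))))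
noncomputable def l39514 : Lb := (@Lb.r r20 (@Lb.d (nat_lit 0) (nat_lit 674) (nat_lit 130) (@Lb.g g9 (@Lb.g g10 (@Lb.g g11 (@Lb.r r1451 (@Lb.r r98 (@Lb.r r1416 (@Lb.d (nat_lit 609) (nat_lit 9) (nat_lit 596) (@Lb.t (@Lb.fp (nat_lit 9) t6882)))))))))))
noncomputable def l39515 : Lb := (@Lb.d (nat_lit 0) (nat_lit 0) (nat_lit 73) (@Lb.g g9 (@Lb.g g10 (@Lb.g g11 (@Lb.r r419 (@Lb.r r2150 (@Lb.r r24 (@Lb.r r1317 (@Lb.d (nat_lit 617) (nat_lit 74) (nat_lit 33) (@Lb.t (@Lb.fm (nat_lit 9) t1089)))))))))))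
noncomputable def l39516 : Lb := (@Lb.r r323 (@Lb.d (nat_lit 38) (nat_lit 576) (nat_lit 2) (@Lb.g g8 (@Lb.g g9 (@Lb.g g10 (@Lb.r r2475 (@Lb.r r2154 (@Lb.r r72 (@Lb.d (nat_lit 536) (nat_lit 65) (nat_lit 17) (@Lb.t (@Lb.fp (nat_lit 9) t63)))))))))))
noncomputable def l39517 : Lb := (@Lb.d (nat_lit 134) (nat_lit 256) (nat_lit 130) (@Lb.g g8 (@Lb.g g9 (@Lb.g g10 (@Lb.g g11 (@Lb.r r1689 (@Lb.r r1688 (@Lb.r r395 (@Lb.r r2122 (@Lb.d (nat_lit 289) (nat_lit 17) (nat_lit 537) (@Lb.fm (nat_lit 9) t1446)))))))))))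
noncomputable def l39518 : Lb := (@Lb.d (nat_lit 388) (nat_lit 6) (nat_lit 278) (@Lb.r r24 (@Lb.r r101 (@Lb.r r386 (@Lb.g g11 (@Lb.g g6 (@Lb.g g4 (@Lb.d (nat_lit 0) (nat_lit 0) (nat_lit 1) (@Lb.t (@Lb.fp (nat_lit 9) t6883))))))))))
noncomputable def l39519 : Lb := (@Lb.d (nat_lit 64) (nat_lit 165) (nat_lit 1) (@Lb.r r1096 (@Lb.r r2134 (@Lb.r r1441 (@Lb.g g11 (@Lb.g g5 (@Lb.d (nat_lit 0) (nat_lit 0) (nat_lit 384) (@Lb.r r578 (@Lb.fp (nat_lit 3) t6884)))))))))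
noncomputable def l39520 : Lb := (@Lb.r r82 (@Lb.d (nat_lit 2) (nat_lit 258) (nat_lit 0) (@Lb.g g8 (@Lb.g g9 (@Lb.g g11 (@Lb.r r2395 (@Lb.r r1377 (@Lb.r r146 (@Lb.r r2120 (@Lb.d (nat_lit 548) (nat_lit 0) (nat_lit 580) (@Lb.t (@Lb.fp (nat_lit 9) t6885))))))))))))
noncomputable def l39521 : Lb := (@Lb.d (nat_lit 130) (nat_lit 4) (nat_lit 128) (@Lb.g g8 (@Lb.g g9 (@Lb.g g10 (@Lb.g g11 (@Lb.r r2443 (@Lb.r r1177 (@Lb.r r1434 (@Lb.d (nat_lit 409) (nat_lit 21) (nat_lit 340) (@Lb.fm (nat_lit 9) t6886))))))))))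
noncomputable def l39522 : Lb := (@Lb.d (nat_lit 162) (nat_lit 341) (nat_lit 656) (@Lb.r r1096 (@Lb.r r1686 (@Lb.r r2657 (@Lb.r r2691 (@Lb.g g7 (@Lb.g g6 (@Lb.g g5 (@Lb.d (nat_lit 0) (nat_lit 0) (nat_lit 134) (@Lb.t (@Lb.fp (nat_lit 9) t6887)))))))))))
noncomputable def l39523 : Lb := (@Lb.d (nat_lit 2) (nat_lit 550) (nat_lit 69) (@Lb.g g8 (@Lb.g g9 (@Lb.g g10 (@Lb.g g11 (@Lb.r r275 (@Lb.r r660 (@Lb.r r342 (@Lb.r r2661 (@Lb.d (nat_lit 128) (nat_lit 82) (nat_lit 358) (@Lb.fm (nat_lit 9) t602)))))))))))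
noncomputable def l39524 : Lb := (@Lb.d (nat_lit 2) (nat_lit 265) (nat_lit 0) (@Lb.g g8 (@Lb.g g9 (@Lb.r r2411 (@Lb.r r598 (@Lb.r r2457 (@Lb.d (nat_lit 409) (nat_lit 154) (nat_lit 425) (@Lb.fm (nat_lit 3) t386))))))))
noncomputable def l39525 : Lb := (@Lb.d (nat_lit 129) (nat_lit 2) (nat_lit 73) (@Lb.g g8 (@Lb.g g9 (@Lb.g g10 (@Lb.g g11 (@Lb.r r683 (@Lb.r r2724 (@Lb.r r1158 (@Lb.r r97 (@Lb.d (nat_lit 33) (nat_lit 98) (nat_lit 674) (@Lb.fm (nat_lit 9) t4350)))))))))))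
noncomputable def l39526 : Lb := (@Lb.d (nat_lit 9) (nat_lit 1) (nat_lit 0) (@Lb.g g8 (@Lb.g g9 (@Lb.r r322 (@Lb.r r1667 (@Lb.r r578 (@Lb.r r25 (@Lb.d (nat_lit 9) (nat_lit 80) (nat_lit 266) (@Lb.fp (nat_lit 3) t210)))))))))
noncomputable def l39527 : Lb := (@Lb.d (nat_lit 9) (nat_lit 513) (nat_lit 73) (@Lb.g g8 (@Lb.g g9 (@Lb.g g10 (@Lb.g g11 (@Lb.r r2666 (@Lb.r r579 (@Lb.r r97 (@Lb.r r24 (@Lb.d (nat_lit 425) (nat_lit 4) (nat_lit 358) (@Lb.fm (nat_lit 9) t61)))))))))))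
noncomputable def l39528 : Lb := (@Lb.g g8 (@Lb.r r2403 (@Lb.r r101 (@Lb.r r24 (@Lb.d (nat_lit 320) (nat_lit 256) (nat_lit 528) (@Lb.t (@Lb.fp (nat_lit 3) t1172)))))))
noncomputable def l39529 : Lb := (@Lb.r r323 (@Lb.d (nat_lit 130) (nat_lit 2) (nat_lit 18) (@Lb.g g8 (@Lb.g g9 (@Lb.g g10 (@Lb.r r1623 (@Lb.r r2345 (@Lb.r r2340 (@Lb.d (nat_lit 584) (nat_lit 105) (nat_lit 657) (@Lb.t (@Lb.fm (nat_lit 9) t386)))))))))))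
noncomputable def l39530 : Lb := (@Lb.g g8 (@Lb.r r2403 (@Lb.r r101 (@Lb.r r24 (@Lb.d (nat_lit 322) (nat_lit 512) (nat_lit 528) (@Lb.t (@Lb.fp (nat_lit 3) t314)))))))
noncomputable def l39531 : Lb := (@Lb.d (nat_lit 32) (nat_lit 256) (nat_lit 66) (@Lb.g g10 (@Lb.g g11 (@Lb.r r545 (@Lb.r r299 (@Lb.r r100 (@Lb.r r410 (@Lb.d (nat_lit 138) (nat_lit 21) (nat_lit 136) (@Lb.fm (nat_lit 3) t167)))))))))
noncomputable def l39532 : Lb := (@Lb.r r277 (@Lb.d (nat_lit 517) (nat_lit 520) (nat_lit 130) (@Lb.g g8 (@Lb.g g10 (@Lb.g g11 (@Lb.r r1411 (@Lb.r r101 (@Lb.r r1434 (@Lb.d (nat_lit 20) (nat_lit 90) (nat_lit 394) (@Lb.t (@Lb.fm (nat_lit 9) t2805)))))))))))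
noncomputable def l39533 : Lb := (@Lb.d (nat_lit 1) (nat_lit 544) (nat_lit 128) (@Lb.g g8 (@Lb.g g11 (@Lb.r r2712 (@Lb.r r293 (@Lb.r r2587 (@Lb.r r2178 (@Lb.d (nat_lit 105) (nat_lit 34) (nat_lit 276) (@Lb.fm (nat_lit 3) t2689)))))))))
noncomputable def l39534 : Lb := (@Lb.d (nat_lit 394) (nat_lit 677) (nat_lit 277) (@Lb.r r1705 (@Lb.r r683 (@Lb.r r2666 (@Lb.r r1380 (@Lb.g g7 (@Lb.g g5 (@Lb.d (nat_lit 72) (nat_lit 6) (nat_lit 128) (@Lb.fm (nat_lit 3) t2656)))))))))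
noncomputable def l39535 : Lb := (@Lb.d (nat_lit 389) (nat_lit 418) (nat_lit 276) (@Lb.r r1705 (@Lb.r r683 (@Lb.r r2666 (@Lb.r r1380 (@Lb.g g7 (@Lb.g g5 (@Lb.d (nat_lit 68) (nat_lit 5) (nat_lit 128) (@Lb.fm (nat_lit 3) t2656)))))))))
noncomputable def l39536 : Lb := (@Lb.d (nat_lit 0) (nat_lit 384) (nat_lit 345) (@Lb.r r2579 (@Lb.r r2465 (@Lb.r r2154 (@Lb.r r1364 (@Lb.g g7 (@Lb.g g5 (@Lb.d (nat_lit 8) (nat_lit 34) (nat_lit 0) (@Lb.r r98 (@Lb.fm (nat_lit 3) t6888))))))))))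
noncomputable def l39537 : Lb := (@Lb.d (nat_lit 640) (nat_lit 289) (nat_lit 2) (@Lb.g g4 (@Lb.g g9 (@Lb.g g10 (@Lb.r r595 (@Lb.r r386 (@Lb.r r2145 (@Lb.d (nat_lit 8) (nat_lit 154) (nat_lit 425) (@Lb.t (@Lb.fm (nat_lit 9) t2843))))))))))
noncomputable def l39538 : Lb := (@Lb.r r273 (@Lb.r r322 (@Lb.d (nat_lit 2) (nat_lit 0) (nat_lit 320) (@Lb.g g8 (@Lb.g g7 (@Lb.r r280 (@Lb.r r101 (@Lb.r r146 (@Lb.d (nat_lit 10) (nat_lit 128) (nat_lit 578) (@Lb.fm (nat_lit 3) t6889))))))))))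
noncomputable def l39539 : Lb := (@Lb.r r81 (@Lb.r r323 (@Lb.d (nat_lit 10) (nat_lit 512) (nat_lit 33) (@Lb.g g8 (@Lb.g g6 (@Lb.r r2731 (@Lb.r r149 (@Lb.r r104 (@Lb.d (nat_lit 262) (nat_lit 74) (nat_lit 6) (@Lb.fp (nat_lit 3) t6890))))))))))
noncomputable def l39540 : Lb := (@Lb.d (nat_lit 262) (nat_lit 401) (nat_lit 640) (@Lb.r r293 (@Lb.r r600 (@Lb.r r1702 (@Lb.r r339 (@Lb.g g7 (@Lb.g g6 (@Lb.g g5 (@Lb.d (nat_lit 0) (nat_lit 36) (nat_lit 2) (@Lb.t (@Lb.fm (nat_lit 9) t6890)))))))))))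
noncomputable def l39541 : Lb := (@Lb.r r263 (@Lb.d (nat_lit 642) (nat_lit 258) (nat_lit 2) (@Lb.g g8 (@Lb.g g9 (@Lb.g g10 (@Lb.r r2647 (@Lb.r r106 (@Lb.r r25 (@Lb.d (nat_lit 282) (nat_lit 9) (nat_lit 612) (@Lb.t (@Lb.fp (nat_lit 9) t4497)))))))))))
noncomputable def l39542 : Lb := (@Lb.r r82 (@Lb.d (nat_lit 34) (nat_lit 258) (nat_lit 64) (@Lb.g g8 (@Lb.g g9 (@Lb.g g7 (@Lb.r r2409 (@Lb.r r150 (@Lb.r r100 (@Lb.d (nat_lit 586) (nat_lit 90) (nat_lit 105) (@Lb.t (@Lb.fp (nat_lit 9) t6891)))))))))))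
noncomputable def l39543 : Lb := (@Lb.g g5 (@Lb.r r134 (@Lb.r r328 (@Lb.r r535 (@Lb.r r289 (@Lb.d (nat_lit 0) (nat_lit 512) (nat_lit 69) (@Lb.t (@Lb.fm (nat_lit 3) t51))))))))
noncomputable def l39544 : Lb := (@Lb.d (nat_lit 344) (nat_lit 320) (nat_lit 354) (@Lb.r r24 (@Lb.r r2321 (@Lb.r r346 (@Lb.r r1703 (@Lb.g g7 (@Lb.g g6 (@Lb.g g5 (@Lb.d (nat_lit 0) (nat_lit 6) (nat_lit 65) (@Lb.t (@Lb.fp (nat_lit 9) t714)))))))))))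
noncomputable def l39545 : Lb := (@Lb.d (nat_lit 0) (nat_lit 0) (nat_lit 130) (@Lb.g g10 (@Lb.g g11 (@Lb.r r614 (@Lb.r r404 (@Lb.r r619 (@Lb.r r609 (@Lb.d (nat_lit 2) (nat_lit 18) (nat_lit 64) (@Lb.fm (nat_lit 3) t71)))))))))
noncomputable def l39546 : Lb := (@Lb.d (nat_lit 260) (nat_lit 385) (nat_lit 0) (@Lb.r r2337 (@Lb.r r1619 (@Lb.r r326 (@Lb.g g6 (@Lb.g g4 (@Lb.d (nat_lit 1) (nat_lit 0) (nat_lit 1) (@Lb.fm (nat_lit 3) t1205))))))))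
noncomputable def l39547 : Lb := (@Lb.d (nat_lit 0) (nat_lit 166) (nat_lit 294) (@Lb.r r1362 (@Lb.r r675 (@Lb.g g6 (@Lb.g g5 (@Lb.d (nat_lit 0) (nat_lit 8) (nat_lit 0) (@Lb.r r36 (@Lb.fp (nat_lit 3) t40))))))))
noncomputable def l39548 : Lb := (@Lb.d (nat_lit 518) (nat_lit 534) (nat_lit 580) (@Lb.r r1635 (@Lb.r r1362 (@Lb.r r661 (@Lb.g g7 (@Lb.g g4 (@Lb.d (nat_lit 8) (nat_lit 16) (nat_lit 128) (@Lb.fp (nat_lit 3) t6892))))))))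
noncomputable def l39549 : Lb := (@Lb.d (nat_lit 0) (nat_lit 0) (nat_lit 130) (@Lb.g g9 (@Lb.g g10 (@Lb.g g11 (@Lb.r r1447 (@Lb.r r132 (@Lb.r r422 (@Lb.r r409 (@Lb.r r20 (@Lb.d (nat_lit 533) (nat_lit 1) (nat_lit 32) (@Lb.t (@Lb.fp (nat_lit 9) t222))))))))))))
noncomputable def l39550 : Lb := (@Lb.d (nat_lit 8) (nat_lit 34) (nat_lit 0) (@Lb.g g9 (@Lb.r r1158 (@Lb.r r536 (@Lb.r r411 (@Lb.r r2661 (@Lb.d (nat_lit 282) (nat_lit 2) (nat_lit 104) (@Lb.t (@Lb.fm (nat_lit 3) t6893)))))))))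
noncomputable def l39551 : Lb := (@Lb.d (nat_lit 130) (nat_lit 258) (nat_lit 388) (@Lb.g g8 (@Lb.g g9 (@Lb.g g11 (@Lb.r r1385 (@Lb.r r2198 (@Lb.r r1636 (@Lb.d (nat_lit 25) (nat_lit 149) (nat_lit 146) (@Lb.t (@Lb.fm (nat_lit 9) t5981))))))))))
noncomputable def l39552 : Lb := (@Lb.d (nat_lit 0) (nat_lit 256) (nat_lit 130) (@Lb.g g9 (@Lb.g g10 (@Lb.g g11 (@Lb.r r419 (@Lb.r r1096 (@Lb.r r2438 (@Lb.r r289 (@Lb.d (nat_lit 409) (nat_lit 166) (nat_lit 154) (@Lb.t (@Lb.fp (nat_lit 9) t5184)))))))))))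
noncomputable def l39553 : Lb := (@Lb.d (nat_lit 32) (nat_lit 258) (nat_lit 0) (@Lb.g g8 (@Lb.g g9 (@Lb.r r1387 (@Lb.r r582 (@Lb.r r97 (@Lb.r r1412 (@Lb.d (nat_lit 354) (nat_lit 2) (nat_lit 426) (@Lb.fp (nat_lit 3) t51)))))))))
noncomputable def l39554 : Lb := (@Lb.d (nat_lit 0) (nat_lit 521) (nat_lit 0) (@Lb.g g8 (@Lb.g g9 (@Lb.r r1379 (@Lb.r r1618 (@Lb.r r1425 (@Lb.d (nat_lit 0) (nat_lit 90) (nat_lit 137) (@Lb.fm (nat_lit 3) t386))))))))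
noncomputable def l39555 : Lb := (@Lb.r r21 (@Lb.d (nat_lit 385) (nat_lit 512) (nat_lit 66) (@Lb.g g4 (@Lb.g g10 (@Lb.g g11 (@Lb.r r519 (@Lb.r r386 (@Lb.r r25 (@Lb.d (nat_lit 649) (nat_lit 2) (nat_lit 90) (@Lb.t (@Lb.fp (nat_lit 9) t68)))))))))))
noncomputable def l39556 : Lb := (@Lb.d (nat_lit 0) (nat_lit 10) (nat_lit 0) (@Lb.g g8 (@Lb.g g9 (@Lb.r r2403 (@Lb.r r594 (@Lb.r r2449 (@Lb.d (nat_lit 0) (nat_lit 154) (nat_lit 354) (@Lb.fm (nat_lit 3) t188))))))))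
noncomputable def l39557 : Lb := (@Lb.d (nat_lit 8) (nat_lit 265) (nat_lit 0) (@Lb.g g9 (@Lb.r r2315 (@Lb.r r2196 (@Lb.r r2646 (@Lb.r r409 (@Lb.d (nat_lit 10) (nat_lit 26) (nat_lit 530) (@Lb.t (@Lb.fp (nat_lit 3) t386)))))))))
noncomputable def l39558 : Lb := (@Lb.d (nat_lit 0) (nat_lit 514) (nat_lit 66) (@Lb.g g9 (@Lb.g g10 (@Lb.g g11 (@Lb.r r1443 (@Lb.r r536 (@Lb.r r357 (@Lb.r r154 (@Lb.r r132 (@Lb.d (nat_lit 581) (nat_lit 130) (nat_lit 18) (@Lb.t (@Lb.fp (nat_lit 9) t651))))))))))))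
noncomputable def l39559 : Lb := (@Lb.d (nat_lit 0) (nat_lit 32) (nat_lit 64) (@Lb.g g11 (@Lb.r r345 (@Lb.r r1638 (@Lb.r r615 (@Lb.r r24 (@Lb.d (nat_lit 681) (nat_lit 128) (nat_lit 138) (@Lb.t (@Lb.fp (nat_lit 3) t1639)))))))))
noncomputable def l39560 : Lb := (@Lb.d (nat_lit 0) (nat_lit 325) (nat_lit 69) (@Lb.r r289 (@Lb.r r535 (@Lb.r r356 (@Lb.g g10 (@Lb.g g5 (@Lb.d (nat_lit 20) (nat_lit 1) (nat_lit 18) (@Lb.r r387 (@Lb.fp (nat_lit 3) t1149)))))))))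
noncomputable def l39561 : Lb := (@Lb.d (nat_lit 5) (nat_lit 577) (nat_lit 410) (@Lb.r r2663 (@Lb.r r1304 (@Lb.g g7 (@Lb.g g8 (@Lb.fp (nat_lit 3) t6894))))))
noncomputable def l39562 : Lb := (@Lb.d (nat_lit 641) (nat_lit 514) (nat_lit 2) (@Lb.g g4 (@Lb.g g9 (@Lb.g g10 (@Lb.r r643 (@Lb.r r2214 (@Lb.r r1445 (@Lb.d (nat_lit 358) (nat_lit 22) (nat_lit 90) (@Lb.t (@Lb.fm (nat_lit 9) t5304))))))))))
noncomputable def l39563 : Lb := (@Lb.d (nat_lit 646) (nat_lit 0) (nat_lit 2) (@Lb.g g4 (@Lb.g g9 (@Lb.g g10 (@Lb.r r643 (@Lb.r r2214 (@Lb.r r1445 (@Lb.d (nat_lit 360) (nat_lit 20) (nat_lit 90) (@Lb.t (@Lb.fm (nat_lit 9) t5304))))))))))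
noncomputable def l39564 : Lb := (@Lb.d (nat_lit 602) (nat_lit 353) (nat_lit 358) (@Lb.r r596 (@Lb.r r1106 (@Lb.r r1623 (@Lb.g g6 (@Lb.g g5 (@Lb.g g4 (@Lb.d (nat_lit 65) (nat_lit 129) (nat_lit 1) (@Lb.r r387 (@Lb.t (@Lb.fm (nat_lit 9) t2597)))))))))))
noncomputable def l39565 : Lb := (@Lb.d (nat_lit 641) (nat_lit 0) (nat_lit 0) (@Lb.g g4 (@Lb.r r273 (@Lb.r r2595 (@Lb.r r2178 (@Lb.r r529 (@Lb.d (nat_lit 641) (nat_lit 16) (nat_lit 512) (@Lb.t (@Lb.fm (nat_lit 3) t1222)))))))))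
noncomputable def l39566 : Lb := (@Lb.d (nat_lit 549) (nat_lit 328) (nat_lit 86) (@Lb.r r597 (@Lb.r r2410 (@Lb.r r2120 (@Lb.r r2395 (@Lb.g g7 (@Lb.g g6 (@Lb.g g5 (@Lb.d (nat_lit 4) (nat_lit 1) (nat_lit 65) (@Lb.t (@Lb.fm (nat_lit 9) t1649)))))))))))
noncomputable def l39567 : Lb := (@Lb.d (nat_lit 0) (nat_lit 581) (nat_lit 69) (@Lb.r r289 (@Lb.r r535 (@Lb.r r356 (@Lb.g g10 (@Lb.g g5 (@Lb.d (nat_lit 20) (nat_lit 8) (nat_lit 17) (@Lb.r r387 (@Lb.fp (nat_lit 3) t1149)))))))))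
noncomputable def l39568 : Lb := (@Lb.d (nat_lit 646) (nat_lit 528) (nat_lit 130) (@Lb.g g4 (@Lb.g g9 (@Lb.g g10 (@Lb.g g11 (@Lb.r r1667 (@Lb.r r149 (@Lb.r r1618 (@Lb.r r145 (@Lb.d (nat_lit 609) (nat_lit 97) (nat_lit 330) (@Lb.fp (nat_lit 9) t6895)))))))))))
noncomputable def l39569 : Lb := (@Lb.d (nat_lit 657) (nat_lit 666) (nat_lit 289) (@Lb.r r1065 (@Lb.r r2088 (@Lb.r r2150 (@Lb.g g7 (@Lb.d (nat_lit 64) (nat_lit 32) (nat_lit 580) (@Lb.t (@Lb.fm (nat_lit 3) t710))))))))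
noncomputable def l39570 : Lb := (@Lb.d (nat_lit 641) (nat_lit 258) (nat_lit 2) (@Lb.g g4 (@Lb.g g9 (@Lb.g g10 (@Lb.r r643 (@Lb.r r2214 (@Lb.r r1445 (@Lb.d (nat_lit 360) (nat_lit 20) (nat_lit 90) (@Lb.t (@Lb.fm (nat_lit 9) t5304))))))))))
noncomputable def l39571 : Lb := (@Lb.d (nat_lit 549) (nat_lit 584) (nat_lit 17) (@Lb.r r597 (@Lb.r r2410 (@Lb.r r2120 (@Lb.r r2395 (@Lb.g g7 (@Lb.g g6 (@Lb.g g5 (@Lb.d (nat_lit 4) (nat_lit 1) (nat_lit 65) (@Lb.t (@Lb.fm (nat_lit 9) t1649)))))))))))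
noncomputable def l39572 : Lb := (@Lb.d (nat_lit 0) (nat_lit 320) (nat_lit 129) (@Lb.r r24 (@Lb.r r402 (@Lb.r r97 (@Lb.g g6 (@Lb.g g5 (@Lb.d (nat_lit 0) (nat_lit 1) (nat_lit 0) (@Lb.fp (nat_lit 3) t374))))))))
noncomputable def l39573 : Lb := (@Lb.d (nat_lit 41) (nat_lit 85) (nat_lit 516) (@Lb.r r1705 (@Lb.r r683 (@Lb.r r2666 (@Lb.r r1380 (@Lb.g g7 (@Lb.g g5 (@Lb.d (nat_lit 68) (nat_lit 5) (nat_lit 128) (@Lb.fm (nat_lit 3) t3144)))))))))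
noncomputable def l39574 : Lb := (@Lb.d (nat_lit 0) (nat_lit 289) (nat_lit 0) (@Lb.g g9 (@Lb.r r292 (@Lb.r r1371 (@Lb.r r2178 (@Lb.r r2661 (@Lb.d (nat_lit 168) (nat_lit 85) (nat_lit 324) (@Lb.t (@Lb.fp (nat_lit 3) t64)))))))))
noncomputable def l39575 : Lb := (@Lb.r r277 (@Lb.d (nat_lit 517) (nat_lit 0) (nat_lit 130) (@Lb.g g8 (@Lb.g g10 (@Lb.g g11 (@Lb.r r594 (@Lb.r r409 (@Lb.r r1319 (@Lb.d (nat_lit 678) (nat_lit 161) (nat_lit 586) (@Lb.t (@Lb.fm (nat_lit 9) t163)))))))))))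
noncomputable def l39576 : Lb := (@Lb.d (nat_lit 9) (nat_lit 544) (nat_lit 136) (@Lb.g g8 (@Lb.g g11 (@Lb.r r2449 (@Lb.r r1426 (@Lb.r r355 (@Lb.d (nat_lit 545) (nat_lit 74) (nat_lit 421) (@Lb.fp (nat_lit 3) t246))))))))
noncomputable def l39577 : Lb := (@Lb.d (nat_lit 9) (nat_lit 160) (nat_lit 69) (@Lb.r r1563 (@Lb.r r1688 (@Lb.r r1690 (@Lb.g g6 (@Lb.g g9 (@Lb.g g4 (@Lb.d (nat_lit 6) (nat_lit 2) (nat_lit 1) (@Lb.r r291 (@Lb.t (@Lb.fp (nat_lit 9) t381)))))))))))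
noncomputable def l39578 : Lb := (@Lb.d (nat_lit 0) (nat_lit 264) (nat_lit 130) (@Lb.g g10 (@Lb.g g11 (@Lb.r r353 (@Lb.r r663 (@Lb.r r356 (@Lb.r r154 (@Lb.d (nat_lit 577) (nat_lit 0) (nat_lit 530) (@Lb.fp (nat_lit 3) t4165)))))))))
noncomputable def l39579 : Lb := (@Lb.r r90 (@Lb.r r283 (@Lb.d (nat_lit 33) (nat_lit 162) (nat_lit 0) (@Lb.g g8 (@Lb.g g9 (@Lb.r r1555 (@Lb.r r70 (@Lb.r r1668 (@Lb.d (nat_lit 417) (nat_lit 2) (nat_lit 678) (@Lb.fp (nat_lit 3) t123))))))))))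
noncomputable def l39580 : Lb := (@Lb.r r90 (@Lb.r r283 (@Lb.d (nat_lit 34) (nat_lit 674) (nat_lit 0) (@Lb.g g8 (@Lb.g g9 (@Lb.r r1555 (@Lb.r r70 (@Lb.r r1668 (@Lb.d (nat_lit 417) (nat_lit 2) (nat_lit 678) (@Lb.fp (nat_lit 3) t123))))))))))
noncomputable def l39581 : Lb := (@Lb.d (nat_lit 0) (nat_lit 264) (nat_lit 130) (@Lb.g g10 (@Lb.g g11 (@Lb.r r353 (@Lb.r r663 (@Lb.r r356 (@Lb.r r154 (@Lb.d (nat_lit 585) (nat_lit 2) (nat_lit 530) (@Lb.fp (nat_lit 3) t4165)))))))))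
noncomputable def l39582 : Lb := (@Lb.d (nat_lit 2) (nat_lit 9) (nat_lit 0) (@Lb.g g8 (@Lb.g g9 (@Lb.r r2571 (@Lb.r r146 (@Lb.r r97 (@Lb.r r2584 (@Lb.d (nat_lit 586) (nat_lit 34) (nat_lit 386) (@Lb.fm (nat_lit 3) t5568)))))))))
noncomputable def l39583 : Lb := (@Lb.d (nat_lit 128) (nat_lit 521) (nat_lit 0) (@Lb.g g8 (@Lb.g g9 (@Lb.r r263 (@Lb.r r146 (@Lb.r r97 (@Lb.r r520 (@Lb.d (nat_lit 66) (nat_lit 10) (nat_lit 1) (@Lb.fp (nat_lit 3) t2)))))))))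
noncomputable def l39584 : Lb := (@Lb.r r2331 (@Lb.r r24 (@Lb.d (nat_lit 264) (nat_lit 322) (nat_lit 64) (@Lb.fm (nat_lit 1) t1165))))
noncomputable def l39585 : Lb := (@Lb.d (nat_lit 40) (nat_lit 256) (nat_lit 64) (@Lb.g g8 (@Lb.g g11 (@Lb.r r2213 (@Lb.r r1190 (@Lb.r r2648 (@Lb.r r2571 (@Lb.d (nat_lit 642) (nat_lit 148) (nat_lit 326) (@Lb.fm (nat_lit 3) t322)))))))))
noncomputable def l39586 : Lb := (@Lb.d (nat_lit 128) (nat_lit 512) (nat_lit 324) (@Lb.g g7 (@Lb.r r1624 (@Lb.d (nat_lit 266) (nat_lit 66) (nat_lit 149) (@Lb.t (@Lb.fp (nat_lit 3) t6896))))))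
noncomputable def l39587 : Lb := (@Lb.r r82 (@Lb.r r275 (@Lb.d (nat_lit 10) (nat_lit 512) (nat_lit 0) (@Lb.g g8 (@Lb.g g9 (@Lb.r r1428 (@Lb.r r1691 (@Lb.r r386 (@Lb.r r2129 (@Lb.d (nat_lit 0) (nat_lit 137) (nat_lit 514) (@Lb.fm (nat_lit 3) t128)))))))))))
noncomputable def l39588 : Lb := (@Lb.d (nat_lit 0) (nat_lit 289) (nat_lit 132) (@Lb.g g8 (@Lb.g g9 (@Lb.g g10 (@Lb.g g11 (@Lb.r r1706 (@Lb.r r676 (@Lb.r r551 (@Lb.r r533 (@Lb.r r1060 (@Lb.d (nat_lit 393) (nat_lit 1) (nat_lit 586) (@Lb.fp (nat_lit 9) t74))))))))))))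
noncomputable def l39589 : Lb := (@Lb.d (nat_lit 8) (nat_lit 521) (nat_lit 65) (@Lb.g g9 (@Lb.g g10 (@Lb.g g11 (@Lb.r r2388 (@Lb.r r1451 (@Lb.r r362 (@Lb.r r281 (@Lb.d (nat_lit 10) (nat_lit 25) (nat_lit 545) (@Lb.t (@Lb.fm (nat_lit 9) t3736)))))))))))
noncomputable def l39590 : Lb := (@Lb.r r21 (@Lb.d (nat_lit 33) (nat_lit 512) (nat_lit 72) (@Lb.g g8 (@Lb.g g10 (@Lb.g g11 (@Lb.r r1691 (@Lb.r r1381 (@Lb.r r2202 (@Lb.r r2372 (@Lb.d (nat_lit 553) (nat_lit 101) (nat_lit 266) (@Lb.t (@Lb.fp (nat_lit 9) t3878))))))))))))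
noncomputable def l39591 : Lb := (@Lb.d (nat_lit 0) (nat_lit 512) (nat_lit 2) (@Lb.g g9 (@Lb.g g10 (@Lb.g g7 (@Lb.r r2470 (@Lb.r r1624 (@Lb.r r2341 (@Lb.d (nat_lit 584) (nat_lit 130) (nat_lit 320) (@Lb.t (@Lb.fm (nat_lit 9) t2118))))))))))
noncomputable def l39592 : Lb := (@Lb.d (nat_lit 10) (nat_lit 0) (nat_lit 0) (@Lb.g g8 (@Lb.r r2138 (@Lb.r r149 (@Lb.r r2148 (@Lb.r r1283 (@Lb.d (nat_lit 538) (nat_lit 128) (nat_lit 32) (@Lb.t (@Lb.fp (nat_lit 3) t4735)))))))))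
noncomputable def l39593 : Lb := (@Lb.r r2311 (@Lb.r r24 (@Lb.r r101 (@Lb.d (nat_lit 2) (nat_lit 581) (nat_lit 1) (@Lb.fp (nat_lit 1) t391)))))
noncomputable def l39594 : Lb := (@Lb.d (nat_lit 38) (nat_lit 517) (nat_lit 128) (@Lb.g g8 (@Lb.g g9 (@Lb.g g10 (@Lb.g g11 (@Lb.r r2658 (@Lb.r r1643 (@Lb.r r2721 (@Lb.r r2180 (@Lb.d (nat_lit 344) (nat_lit 26) (nat_lit 390) (@Lb.fp (nat_lit 9) t6567)))))))))))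
noncomputable def l39595 : Lb := (@Lb.r r81 (@Lb.r r323 (@Lb.d (nat_lit 0) (nat_lit 0) (nat_lit 33) (@Lb.g g6 (@Lb.r r2439 (@Lb.r r88 (@Lb.r r37 (@Lb.d (nat_lit 10) (nat_lit 66) (nat_lit 32) (@Lb.t (@Lb.fm (nat_lit 3) t4439))))))))))
noncomputable def l39596 : Lb := (@Lb.r r21 (@Lb.d (nat_lit 33) (nat_lit 512) (nat_lit 130) (@Lb.g g8 (@Lb.g g10 (@Lb.g g11 (@Lb.r r1623 (@Lb.r r1365 (@Lb.r r2218 (@Lb.r r1172 (@Lb.d (nat_lit 81) (nat_lit 68) (nat_lit 545) (@Lb.t (@Lb.fm (nat_lit 9) t4519))))))))))))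
noncomputable def l39597 : Lb := (@Lb.d (nat_lit 410) (nat_lit 681) (nat_lit 585) (@Lb.r r2475 (@Lb.r r1446 (@Lb.r r2469 (@Lb.r r596 (@Lb.g g7 (@Lb.d (nat_lit 64) (nat_lit 16) (nat_lit 68) (@Lb.t (@Lb.fm (nat_lit 3) t3438)))))))))
noncomputable def l39598 : Lb := (@Lb.d (nat_lit 33) (nat_lit 258) (nat_lit 130) (@Lb.g g8 (@Lb.g g9 (@Lb.g g10 (@Lb.g g11 (@Lb.r r2713 (@Lb.r r2712 (@Lb.r r395 (@Lb.r r74 (@Lb.d (nat_lit 33) (nat_lit 169) (nat_lit 584) (@Lb.fm (nat_lit 9) t6897)))))))))))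
noncomputable def l39599 : Lb := (@Lb.d (nat_lit 593) (nat_lit 0) (nat_lit 616) (@Lb.r r2375 (@Lb.g g7 (@Lb.g g6 (@Lb.g g4 (@Lb.d (nat_lit 0) (nat_lit 0) (nat_lit 64) (@Lb.t (@Lb.fp (nat_lit 9) t6898))))))))
noncomputable def l39600 : Lb := (@Lb.r r323 (@Lb.d (nat_lit 0) (nat_lit 512) (nat_lit 2) (@Lb.g g10 (@Lb.r r2449 (@Lb.r r299 (@Lb.r r392 (@Lb.r r74 (@Lb.d (nat_lit 82) (nat_lit 10) (nat_lit 614) (@Lb.t (@Lb.fm (nat_lit 3) t221))))))))))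
noncomputable def l39601 : Lb := (@Lb.d (nat_lit 128) (nat_lit 0) (nat_lit 0) (@Lb.r r579 (@Lb.r r402 (@Lb.r r101 (@Lb.g g4 (@Lb.d (nat_lit 1) (nat_lit 0) (nat_lit 0) (@Lb.t (@Lb.fp (nat_lit 3) t720))))))))
noncomputable def l39602 : Lb := (@Lb.d (nat_lit 37) (nat_lit 581) (nat_lit 84) (@Lb.r r101 (@Lb.r r24 (@Lb.r r323 (@Lb.g g7 (@Lb.g g6 (@Lb.d (nat_lit 0) (nat_lit 4) (nat_lit 65) (@Lb.fm (nat_lit 3) t985))))))))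
noncomputable def l39603 : Lb := (@Lb.r r323 (@Lb.d (nat_lit 2) (nat_lit 516) (nat_lit 0) (@Lb.g g8 (@Lb.g g9 (@Lb.g g10 (@Lb.r r401 (@Lb.r r299 (@Lb.r r392 (@Lb.r r74 (@Lb.d (nat_lit 33) (nat_lit 10) (nat_lit 152) (@Lb.t (@Lb.fp (nat_lit 9) t573))))))))))))
noncomputable def l39604 : Lb := (@Lb.r r82 (@Lb.d (nat_lit 0) (nat_lit 17) (nat_lit 0) (@Lb.g g4 (@Lb.g g9 (@Lb.g g11 (@Lb.r r2579 (@Lb.r r2386 (@Lb.r r1569 (@Lb.d (nat_lit 0) (nat_lit 146) (nat_lit 640) (@Lb.t (@Lb.fp (nat_lit 9) t5)))))))))))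
noncomputable def l39605 : Lb := (@Lb.d (nat_lit 1) (nat_lit 514) (nat_lit 4) (@Lb.g g8 (@Lb.g g9 (@Lb.g g10 (@Lb.g g11 (@Lb.r r582 (@Lb.r r388 (@Lb.r r1323 (@Lb.r r1313 (@Lb.d (nat_lit 9) (nat_lit 68) (nat_lit 385) (@Lb.fm (nat_lit 9) t119)))))))))))
noncomputable def l39606 : Lb := (@Lb.d (nat_lit 69) (nat_lit 353) (nat_lit 288) (@Lb.r r101 (@Lb.r r2403 (@Lb.g g4 (@Lb.t (@Lb.fp (nat_lit 3) t4062))))))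
noncomputable def l39607 : Lb := (@Lb.r r323 (@Lb.d (nat_lit 2) (nat_lit 9) (nat_lit 2) (@Lb.g g8 (@Lb.g g9 (@Lb.g g10 (@Lb.r r2722 (@Lb.r r387 (@Lb.r r2664 (@Lb.r r2585 (@Lb.d (nat_lit 645) (nat_lit 24) (nat_lit 292) (@Lb.t (@Lb.fm (nat_lit 9) t6899))))))))))))
noncomputable def l39608 : Lb := (@Lb.r r323 (@Lb.d (nat_lit 66) (nat_lit 9) (nat_lit 2) (@Lb.g g8 (@Lb.g g9 (@Lb.g g10 (@Lb.r r2473 (@Lb.r r1623 (@Lb.r r2390 (@Lb.r r1704 (@Lb.d (nat_lit 38) (nat_lit 150) (nat_lit 648) (@Lb.t (@Lb.fp (nat_lit 9) t1246))))))))))))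
noncomputable def l39609 : Lb := (@Lb.d (nat_lit 2) (nat_lit 289) (nat_lit 130) (@Lb.g g8 (@Lb.g g9 (@Lb.g g10 (@Lb.g g11 (@Lb.r r2595 (@Lb.r r386 (@Lb.r r36 (@Lb.r r149 (@Lb.r r2084 (@Lb.d (nat_lit 641) (nat_lit 10) (nat_lit 646) (@Lb.fp (nat_lit 9) t6900))))))))))))
noncomputable def l39610 : Lb := (@Lb.r r81 (@Lb.r r323 (@Lb.d (nat_lit 10) (nat_lit 256) (nat_lit 25) (@Lb.g g8 (@Lb.g g6 (@Lb.r r387 (@Lb.r r149 (@Lb.r r104 (@Lb.d (nat_lit 353) (nat_lit 9) (nat_lit 613) (@Lb.fm (nat_lit 3) t3303))))))))))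
noncomputable def l39611 : Lb := (@Lb.r r323 (@Lb.d (nat_lit 66) (nat_lit 9) (nat_lit 2) (@Lb.g g8 (@Lb.g g9 (@Lb.g g10 (@Lb.r r2473 (@Lb.r r1623 (@Lb.r r2390 (@Lb.r r1704 (@Lb.d (nat_lit 34) (nat_lit 149) (nat_lit 648) (@Lb.t (@Lb.fp (nat_lit 9) t3577))))))))))))
noncomputable def l39612 : Lb := (@Lb.d (nat_lit 390) (nat_lit 64) (nat_lit 390) (@Lb.r r2325 (@Lb.r r323 (@Lb.g g6 (@Lb.g g5 (@Lb.g g4 (@Lb.d (nat_lit 1) (nat_lit 0) (nat_lit 42) (@Lb.r r387 (@Lb.t (@Lb.fp (nat_lit 9) t2685))))))))))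
noncomputable def l39613 : Lb := (@Lb.d (nat_lit 149) (nat_lit 512) (nat_lit 64) (@Lb.g g8 (@Lb.g g9 (@Lb.g g10 (@Lb.g g11 (@Lb.r r1315 (@Lb.r r164 (@Lb.r r1381 (@Lb.r r1170 (@Lb.d (nat_lit 593) (nat_lit 22) (nat_lit 677) (@Lb.fp (nat_lit 9) t1039)))))))))))
noncomputable def l39614 : Lb := (@Lb.d (nat_lit 149) (nat_lit 0) (nat_lit 64) (@Lb.g g8 (@Lb.g g9 (@Lb.g g10 (@Lb.g g11 (@Lb.r r1315 (@Lb.r r164 (@Lb.r r1381 (@Lb.r r1170 (@Lb.d (nat_lit 600) (nat_lit 21) (nat_lit 677) (@Lb.fp (nat_lit 9) t1039)))))))))))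
noncomputable def l39615 : Lb := (@Lb.d (nat_lit 144) (nat_lit 0) (nat_lit 384) (@Lb.g g8 (@Lb.g g10 (@Lb.g g11 (@Lb.r r1602 (@Lb.r r388 (@Lb.d (nat_lit 105) (nat_lit 2) (nat_lit 394) (@Lb.t (@Lb.fm (nat_lit 9) t5458)))))))))
noncomputable def l39616 : Lb := (@Lb.d (nat_lit 4) (nat_lit 512) (nat_lit 2) (@Lb.g g8 (@Lb.g g9 (@Lb.g g10 (@Lb.r r683 (@Lb.r r2666 (@Lb.r r2585 (@Lb.d (nat_lit 329) (nat_lit 164) (nat_lit 32) (@Lb.t (@Lb.fp (nat_lit 9) t3706))))))))))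
noncomputable def l39617 : Lb := (@Lb.g g8 (@Lb.r r2331 (@Lb.r r2138 (@Lb.r r149 (@Lb.d (nat_lit 256) (nat_lit 320) (nat_lit 144) (@Lb.t (@Lb.fp (nat_lit 3) t500)))))))
noncomputable def l39618 : Lb := (@Lb.r r82 (@Lb.d (nat_lit 0) (nat_lit 33) (nat_lit 64) (@Lb.g g8 (@Lb.g g9 (@Lb.g g11 (@Lb.r r2475 (@Lb.r r386 (@Lb.r r1060 (@Lb.r r1173 (@Lb.d (nat_lit 69) (nat_lit 69) (nat_lit 512) (@Lb.t (@Lb.fp (nat_lit 9) t644))))))))))))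
noncomputable def l39619 : Lb := (@Lb.r r82 (@Lb.r r275 (@Lb.d (nat_lit 0) (nat_lit 130) (nat_lit 0) (@Lb.g g8 (@Lb.g g9 (@Lb.r r2315 (@Lb.r r2468 (@Lb.r r2438 (@Lb.d (nat_lit 2) (nat_lit 25) (nat_lit 544) (@Lb.fp (nat_lit 3) t1792))))))))))
noncomputable def l39620 : Lb := (@Lb.d (nat_lit 0) (nat_lit 265) (nat_lit 129) (@Lb.g g8 (@Lb.g g9 (@Lb.g g10 (@Lb.g g11 (@Lb.r r1699 (@Lb.r r1064 (@Lb.r r1689 (@Lb.r r146 (@Lb.d (nat_lit 153) (nat_lit 9) (nat_lit 340) (@Lb.fm (nat_lit 9) t1606)))))))))))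
noncomputable def l39621 : Lb := (@Lb.d (nat_lit 0) (nat_lit 0) (nat_lit 66) (@Lb.g g10 (@Lb.g g11 (@Lb.r r675 (@Lb.r r2658 (@Lb.d (nat_lit 0) (nat_lit 169) (nat_lit 409) (@Lb.fp (nat_lit 3) t591)))))))
noncomputable def l39622 : Lb := (@Lb.d (nat_lit 16) (nat_lit 2) (nat_lit 0) (@Lb.g g8 (@Lb.g g9 (@Lb.g g10 (@Lb.r r683 (@Lb.r r2666 (@Lb.r r36 (@Lb.r r37 (@Lb.d (nat_lit 362) (nat_lit 1) (nat_lit 537) (@Lb.t (@Lb.fm (nat_lit 9) t979)))))))))))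
noncomputable def l39623 : Lb := (@Lb.d (nat_lit 0) (nat_lit 258) (nat_lit 128) (@Lb.g g9 (@Lb.g g10 (@Lb.g g11 (@Lb.r r1699 (@Lb.r r1685 (@Lb.r r1174 (@Lb.r r8 (@Lb.d (nat_lit 278) (nat_lit 73) (nat_lit 681) (@Lb.t (@Lb.fp (nat_lit 9) t646)))))))))))
noncomputable def l39624 : Lb := (@Lb.d (nat_lit 536) (nat_lit 329) (nat_lit 0) (@Lb.r r101 (@Lb.r r2196 (@Lb.g g8 (@Lb.t (@Lb.fm (nat_lit 3) t87))))))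
noncomputable def l39625 : Lb := (@Lb.r r101 (@Lb.d (nat_lit 18) (nat_lit 10) (nat_lit 0) (@Lb.fm (nat_lit 1) t285)))
noncomputable def l39626 : Lb := (@Lb.r r20 (@Lb.r r323 (@Lb.d (nat_lit 0) (nat_lit 34) (nat_lit 18) (@Lb.g g9 (@Lb.g g10 (@Lb.r r1619 (@Lb.r r2337 (@Lb.d (nat_lit 610) (nat_lit 105) (nat_lit 640) (@Lb.fm (nat_lit 3) t386)))))))))
noncomputable def l39627 : Lb := (@Lb.d (nat_lit 512) (nat_lit 64) (nat_lit 294) (@Lb.r r386 (@Lb.r r1371 (@Lb.g g6 (@Lb.g g5 (@Lb.g g8 (@Lb.d (nat_lit 9) (nat_lit 128) (nat_lit 1) (@Lb.t (@Lb.fp (nat_lit 9) t148)))))))))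
noncomputable def l39628 : Lb := (@Lb.d (nat_lit 358) (nat_lit 16) (nat_lit 329) (@Lb.r r2404 (@Lb.r r2730 (@Lb.r r1687 (@Lb.g g7 (@Lb.g g5 (@Lb.g g4 (@Lb.d (nat_lit 132) (nat_lit 134) (nat_lit 0) (@Lb.r r74 (@Lb.t (@Lb.fp (nat_lit 9) t40)))))))))))
noncomputable def l39629 : Lb := (@Lb.d (nat_lit 2) (nat_lit 38) (nat_lit 64) (@Lb.g g8 (@Lb.g g9 (@Lb.g g10 (@Lb.g g11 (@Lb.r r1543 (@Lb.r r1450 (@Lb.r r2088 (@Lb.r r2201 (@Lb.d (nat_lit 282) (nat_lit 106) (nat_lit 149) (@Lb.fm (nat_lit 9) t2301)))))))))))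
noncomputable def l39630 : Lb := (@Lb.d (nat_lit 144) (nat_lit 2) (nat_lit 128) (@Lb.g g8 (@Lb.g g9 (@Lb.g g10 (@Lb.g g11 (@Lb.r r1706 (@Lb.r r1411 (@Lb.r r2201 (@Lb.r r2180 (@Lb.d (nat_lit 548) (nat_lit 89) (nat_lit 100) (@Lb.fm (nat_lit 9) t2228)))))))))))
noncomputable def l39631 : Lb := (@Lb.d (nat_lit 133) (nat_lit 5) (nat_lit 128) (@Lb.g g8 (@Lb.g g9 (@Lb.g g10 (@Lb.g g11 (@Lb.r r683 (@Lb.r r2410 (@Lb.r r537 (@Lb.r r516 (@Lb.d (nat_lit 138) (nat_lit 89) (nat_lit 21) (@Lb.fm (nat_lit 9) t2804)))))))))))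
noncomputable def l39632 : Lb := (@Lb.d (nat_lit 0) (nat_lit 512) (nat_lit 128) (@Lb.g g11 (@Lb.r r101 (@Lb.r r1560 (@Lb.r r1419 (@Lb.d (nat_lit 674) (nat_lit 164) (nat_lit 101) (@Lb.t (@Lb.fp (nat_lit 3) t6901))))))))
noncomputable def l39633 : Lb := (@Lb.d (nat_lit 1) (nat_lit 352) (nat_lit 106) (@Lb.r r1114 (@Lb.r r2469 (@Lb.r r1299 (@Lb.g g5 (@Lb.g g8 (@Lb.d (nat_lit 545) (nat_lit 1) (nat_lit 0) (@Lb.fm (nat_lit 3) t4852))))))))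
noncomputable def l39634 : Lb := (@Lb.r r323 (@Lb.d (nat_lit 166) (nat_lit 256) (nat_lit 1) (@Lb.g g8 (@Lb.g g9 (@Lb.g g10 (@Lb.r r2473 (@Lb.r r2387 (@Lb.r r2694 (@Lb.r r2120 (@Lb.d (nat_lit 528) (nat_lit 64) (nat_lit 73) (@Lb.t (@Lb.fp (nat_lit 9) t6902))))))))))))
noncomputable def l39635 : Lb := (@Lb.d (nat_lit 38) (nat_lit 261) (nat_lit 66) (@Lb.g g8 (@Lb.g g9 (@Lb.g g10 (@Lb.g g7 (@Lb.r r418 (@Lb.r r292 (@Lb.r r1429 (@Lb.r r1060 (@Lb.d (nat_lit 353) (nat_lit 154) (nat_lit 329) (@Lb.fp (nat_lit 9) t6771)))))))))))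
noncomputable def l39636 : Lb := (@Lb.d (nat_lit 38) (nat_lit 5) (nat_lit 66) (@Lb.g g8 (@Lb.g g9 (@Lb.g g10 (@Lb.g g7 (@Lb.r r1410 (@Lb.r r97 (@Lb.r r2072 (@Lb.d (nat_lit 586) (nat_lit 137) (nat_lit 41) (@Lb.fp (nat_lit 9) t6903))))))))))
noncomputable def l39637 : Lb := (@Lb.d (nat_lit 338) (nat_lit 616) (nat_lit 136) (@Lb.r r1125 (@Lb.r r386 (@Lb.r r2387 (@Lb.g g7 (@Lb.g g6 (@Lb.g g5 (@Lb.g g8 (@Lb.d (nat_lit 2) (nat_lit 1) (nat_lit 65) (@Lb.fm (nat_lit 9) t941))))))))))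
noncomputable def l39638 : Lb := (@Lb.r r82 (@Lb.r r275 (@Lb.d (nat_lit 2) (nat_lit 82) (nat_lit 0) (@Lb.g g8 (@Lb.g g9 (@Lb.r r2347 (@Lb.r r2442 (@Lb.r r2436 (@Lb.d (nat_lit 341) (nat_lit 0) (nat_lit 665) (@Lb.fp (nat_lit 3) t6904))))))))))
noncomputable def l39639 : Lb := (@Lb.d (nat_lit 32) (nat_lit 10) (nat_lit 129) (@Lb.g g9 (@Lb.g g10 (@Lb.g g11 (@Lb.r r2695 (@Lb.r r1352 (@Lb.r r2390 (@Lb.r r289 (@Lb.d (nat_lit 656) (nat_lit 74) (nat_lit 362) (@Lb.t (@Lb.fp (nat_lit 9) t2545)))))))))))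
noncomputable def l39640 : Lb := (@Lb.r r82 (@Lb.r r275 (@Lb.d (nat_lit 32) (nat_lit 82) (nat_lit 0) (@Lb.g g8 (@Lb.g g9 (@Lb.r r427 (@Lb.r r582 (@Lb.r r392 (@Lb.d (nat_lit 384) (nat_lit 9) (nat_lit 136) (@Lb.fp (nat_lit 3) t601))))))))))
noncomputable def l39641 : Lb := (@Lb.d (nat_lit 4) (nat_lit 258) (nat_lit 0) (@Lb.g g8 (@Lb.g g9 (@Lb.r r168 (@Lb.r r41 (@Lb.r r1060 (@Lb.d (nat_lit 281) (nat_lit 138) (nat_lit 34) (@Lb.fm (nat_lit 3) t126))))))))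
noncomputable def l39642 : Lb := (@Lb.d (nat_lit 5) (nat_lit 522) (nat_lit 129) (@Lb.g g8 (@Lb.g g9 (@Lb.g g10 (@Lb.g g11 (@Lb.r r2691 (@Lb.r r297 (@Lb.r r360 (@Lb.r r582 (@Lb.r r2180 (@Lb.d (nat_lit 641) (nat_lit 10) (nat_lit 329) (@Lb.fm (nat_lit 9) t98))))))))))))
noncomputable def l39643 : Lb := (@Lb.d (nat_lit 4) (nat_lit 522) (nat_lit 129) (@Lb.g g8 (@Lb.g g9 (@Lb.g g10 (@Lb.g g11 (@Lb.r r2691 (@Lb.r r297 (@Lb.r r360 (@Lb.r r582 (@Lb.r r2180 (@Lb.d (nat_lit 641) (nat_lit 0) (nat_lit 330) (@Lb.fm (nat_lit 9) t98))))))))))))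
noncomputable def l39644 : Lb := (@Lb.r r82 (@Lb.r r275 (@Lb.d (nat_lit 2) (nat_lit 338) (nat_lit 0) (@Lb.g g8 (@Lb.g g9 (@Lb.r r2347 (@Lb.r r2442 (@Lb.r r2436 (@Lb.d (nat_lit 337) (nat_lit 9) (nat_lit 664) (@Lb.fp (nat_lit 3) t1265))))))))))
noncomputable def l39645 : Lb := (@Lb.r r323 (@Lb.d (nat_lit 130) (nat_lit 522) (nat_lit 1) (@Lb.g g8 (@Lb.g g9 (@Lb.g g10 (@Lb.r r1169 (@Lb.r r402 (@Lb.r r583 (@Lb.r r2312 (@Lb.d (nat_lit 646) (nat_lit 2) (nat_lit 642) (@Lb.t (@Lb.fp (nat_lit 9) t2420))))))))))))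
noncomputable def l39646 : Lb := (@Lb.d (nat_lit 138) (nat_lit 296) (nat_lit 66) (@Lb.r r553 (@Lb.r r618 (@Lb.r r535 (@Lb.g g7 (@Lb.g g5 (@Lb.g g4 (@Lb.d (nat_lit 1) (nat_lit 34) (nat_lit 0) (@Lb.r r98 (@Lb.t (@Lb.fp (nat_lit 9) t151)))))))))))
noncomputable def l39647 : Lb := (@Lb.r r82 (@Lb.r r275 (@Lb.d (nat_lit 2) (nat_lit 594) (nat_lit 0) (@Lb.g g8 (@Lb.g g9 (@Lb.r r2347 (@Lb.r r2442 (@Lb.r r2436 (@Lb.d (nat_lit 336) (nat_lit 9) (nat_lit 664) (@Lb.fp (nat_lit 3) t3893))))))))))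
noncomputable def l39648 : Lb := (@Lb.r r616 (@Lb.r r2665 (@Lb.r r2390 (@Lb.r r1188 (@Lb.d (nat_lit 4) (nat_lit 513) (nat_lit 512) (@Lb.fp (nat_lit 1) t748))))))
noncomputable def l39649 : Lb := (@Lb.d (nat_lit 2) (nat_lit 290) (nat_lit 66) (@Lb.g g8 (@Lb.g g9 (@Lb.g g10 (@Lb.g g11 (@Lb.r r2658 (@Lb.r r1060 (@Lb.r r2661 (@Lb.r r1315 (@Lb.d (nat_lit 402) (nat_lit 162) (nat_lit 400) (@Lb.fm (nat_lit 9) t1606)))))))))))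
noncomputable def l39650 : Lb := (@Lb.d (nat_lit 2) (nat_lit 258) (nat_lit 73) (@Lb.g g8 (@Lb.g g9 (@Lb.g g10 (@Lb.g g11 (@Lb.r r1626 (@Lb.r r2659 (@Lb.r r97 (@Lb.r r24 (@Lb.d (nat_lit 421) (nat_lit 42) (nat_lit 601) (@Lb.fm (nat_lit 9) t1227)))))))))))
noncomputable def l39651 : Lb := (@Lb.r r21 (@Lb.r r70 (@Lb.d (nat_lit 410) (nat_lit 0) (nat_lit 72) (@Lb.g g8 (@Lb.g g11 (@Lb.r r101 (@Lb.r r2450 (@Lb.d (nat_lit 2) (nat_lit 154) (nat_lit 544) (@Lb.fm (nat_lit 3) t2605)))))))))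
noncomputable def l39652 : Lb := (@Lb.r r21 (@Lb.r r331 (@Lb.d (nat_lit 418) (nat_lit 0) (nat_lit 1) (@Lb.g g4 (@Lb.g g10 (@Lb.r r1347 (@Lb.r r2182 (@Lb.r r25 (@Lb.d (nat_lit 337) (nat_lit 0) (nat_lit 33) (@Lb.fm (nat_lit 3) t5130))))))))))
noncomputable def l39653 : Lb := (@Lb.r r82 (@Lb.r r275 (@Lb.d (nat_lit 2) (nat_lit 609) (nat_lit 0) (@Lb.g g8 (@Lb.g g5 (@Lb.r r291 (@Lb.r r98 (@Lb.r r24 (@Lb.d (nat_lit 9) (nat_lit 145) (nat_lit 64) (@Lb.fm (nat_lit 3) t728))))))))))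
noncomputable def l39654 : Lb := (@Lb.d (nat_lit 128) (nat_lit 256) (nat_lit 136) (@Lb.g g7 (@Lb.r r1045 (@Lb.r r676 (@Lb.r r646 (@Lb.r r2695 (@Lb.d (nat_lit 657) (nat_lit 1) (nat_lit 329) (@Lb.t (@Lb.fm (nat_lit 3) t430)))))))))
noncomputable def l39655 : Lb := (@Lb.r r1045 (@Lb.r r584 (@Lb.r r358 (@Lb.r r1435 (@Lb.r r132 (@Lb.d (nat_lit 320) (nat_lit 520) (nat_lit 338) (@Lb.fm (nat_lit 1) t430)))))))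
noncomputable def l39656 : Lb := (@Lb.d (nat_lit 0) (nat_lit 260) (nat_lit 137) (@Lb.g g9 (@Lb.g g10 (@Lb.g g11 (@Lb.r r2387 (@Lb.r r338 (@Lb.r r97 (@Lb.d (nat_lit 5) (nat_lit 16) (nat_lit 329) (@Lb.t (@Lb.fp (nat_lit 9) t5822))))))))))
noncomputable def l39657 : Lb := (@Lb.r r1045 (@Lb.r r584 (@Lb.r r358 (@Lb.r r1435 (@Lb.r r132 (@Lb.d (nat_lit 320) (nat_lit 257) (nat_lit 336) (@Lb.fm (nat_lit 1) t430)))))))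
noncomputable def l39658 : Lb := (@Lb.d (nat_lit 0) (nat_lit 514) (nat_lit 4) (@Lb.g g9 (@Lb.g g10 (@Lb.g g11 (@Lb.r r1623 (@Lb.r r2725 (@Lb.r r1364 (@Lb.r r2218 (@Lb.d (nat_lit 277) (nat_lit 70) (nat_lit 17) (@Lb.t (@Lb.fp (nat_lit 9) t61)))))))))))
noncomputable def l39659 : Lb := (@Lb.r r1045 (@Lb.r r584 (@Lb.r r358 (@Lb.r r1435 (@Lb.r r132 (@Lb.d (nat_lit 320) (nat_lit 320) (nat_lit 336) (@Lb.fm (nat_lit 1) t430)))))))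
noncomputable def l39660 : Lb := (@Lb.d (nat_lit 136) (nat_lit 529) (nat_lit 2) (@Lb.g g8 (@Lb.g g9 (@Lb.g g10 (@Lb.g g11 (@Lb.r r1707 (@Lb.r r358 (@Lb.r r277 (@Lb.r r516 (@Lb.d (nat_lit 293) (nat_lit 9) (nat_lit 673) (@Lb.fm (nat_lit 9) t605)))))))))))
noncomputable def l39661 : Lb := (@Lb.d (nat_lit 36) (nat_lit 2) (nat_lit 136) (@Lb.g g8 (@Lb.g g9 (@Lb.g g10 (@Lb.g g11 (@Lb.r r1691 (@Lb.r r326 (@Lb.r r2585 (@Lb.r r1556 (@Lb.d (nat_lit 26) (nat_lit 96) (nat_lit 401) (@Lb.fm (nat_lit 9) t175)))))))))))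
noncomputable def l39662 : Lb := (@Lb.d (nat_lit 1) (nat_lit 36) (nat_lit 64) (@Lb.g g8 (@Lb.g g9 (@Lb.g g10 (@Lb.g g11 (@Lb.r r2154 (@Lb.r r2408 (@Lb.r r2329 (@Lb.r r1315 (@Lb.d (nat_lit 129) (nat_lit 154) (nat_lit 578) (@Lb.fm (nat_lit 9) t948)))))))))))
noncomputable def l39663 : Lb := (@Lb.d (nat_lit 645) (nat_lit 518) (nat_lit 282) (@Lb.r r1301 (@Lb.r r2646 (@Lb.r r1707 (@Lb.g g7 (@Lb.g g6 (@Lb.g g5 (@Lb.g g4 (@Lb.d (nat_lit 8) (nat_lit 25) (nat_lit 64) (@Lb.fm (nat_lit 9) t309))))))))))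
noncomputable def l39664 : Lb := (@Lb.d (nat_lit 426) (nat_lit 105) (nat_lit 294) (@Lb.r r1700 (@Lb.r r613 (@Lb.r r551 (@Lb.g g6 (@Lb.g g4 (@Lb.d (nat_lit 70) (nat_lit 0) (nat_lit 34) (@Lb.fm (nat_lit 3) t1038))))))))
noncomputable def l39665 : Lb := (@Lb.d (nat_lit 0) (nat_lit 2) (nat_lit 64) (@Lb.g g8 (@Lb.g g9 (@Lb.g g11 (@Lb.r r360 (@Lb.r r1303 (@Lb.r r2178 (@Lb.r r537 (@Lb.r r516 (@Lb.d (nat_lit 102) (nat_lit 4) (nat_lit 528) (@Lb.t (@Lb.fm (nat_lit 9) t5173))))))))))))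
noncomputable def l39666 : Lb := (@Lb.r r21 (@Lb.r r323 (@Lb.d (nat_lit 130) (nat_lit 0) (nat_lit 2) (@Lb.g g8 (@Lb.g g10 (@Lb.r r362 (@Lb.r r361 (@Lb.r r535 (@Lb.r r264 (@Lb.d (nat_lit 138) (nat_lit 146) (nat_lit 128) (@Lb.fp (nat_lit 3) t119)))))))))))
noncomputable def l39667 : Lb := (@Lb.r r323 (@Lb.d (nat_lit 130) (nat_lit 514) (nat_lit 2) (@Lb.g g8 (@Lb.g g9 (@Lb.g g10 (@Lb.r r1639 (@Lb.r r2193 (@Lb.r r2642 (@Lb.r r72 (@Lb.d (nat_lit 346) (nat_lit 37) (nat_lit 70) (@Lb.t (@Lb.fm (nat_lit 9) t91))))))))))))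
noncomputable def l39668 : Lb := (@Lb.d (nat_lit 0) (nat_lit 66) (nat_lit 0) (@Lb.g g9 (@Lb.r r402 (@Lb.r r2436 (@Lb.d (nat_lit 10) (nat_lit 38) (nat_lit 613) (@Lb.t (@Lb.fm (nat_lit 3) t6453)))))))
noncomputable def l39669 : Lb := (@Lb.d (nat_lit 288) (nat_lit 521) (nat_lit 164) (@Lb.r r90 (@Lb.r r596 (@Lb.r r279 (@Lb.r r553 (@Lb.g g6 (@Lb.g g5 (@Lb.g g4 (@Lb.d (nat_lit 1) (nat_lit 1) (nat_lit 5) (@Lb.t (@Lb.fm (nat_lit 9) t979)))))))))))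
noncomputable def l39670 : Lb := (@Lb.d (nat_lit 1) (nat_lit 578) (nat_lit 128) (@Lb.g g4 (@Lb.g g9 (@Lb.g g11 (@Lb.r r1379 (@Lb.r r2626 (@Lb.d (nat_lit 1) (nat_lit 137) (nat_lit 84) (@Lb.t (@Lb.fp (nat_lit 9) t51)))))))))
noncomputable def l39671 : Lb := (@Lb.r r1319 (@Lb.r r1126 (@Lb.r r24 (@Lb.d (nat_lit 536) (nat_lit 322) (nat_lit 32) (@Lb.fm (nat_lit 1) t396)))))
noncomputable def l39672 : Lb := (@Lb.r r82 (@Lb.r r275 (@Lb.d (nat_lit 34) (nat_lit 264) (nat_lit 0) (@Lb.g g4 (@Lb.g g9 (@Lb.r r423 (@Lb.r r586 (@Lb.r r612 (@Lb.d (nat_lit 102) (nat_lit 36) (nat_lit 137) (@Lb.fp (nat_lit 3) t31))))))))))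
noncomputable def l39673 : Lb := (@Lb.r r82 (@Lb.r r275 (@Lb.d (nat_lit 34) (nat_lit 520) (nat_lit 0) (@Lb.g g4 (@Lb.g g9 (@Lb.r r423 (@Lb.r r586 (@Lb.r r612 (@Lb.d (nat_lit 102) (nat_lit 36) (nat_lit 68) (@Lb.fp (nat_lit 3) t31))))))))))
noncomputable def l39674 : Lb := (@Lb.r r277 (@Lb.d (nat_lit 386) (nat_lit 264) (nat_lit 130) (@Lb.g g8 (@Lb.g g10 (@Lb.g g11 (@Lb.r r387 (@Lb.r r101 (@Lb.r r1434 (@Lb.d (nat_lit 532) (nat_lit 154) (nat_lit 138) (@Lb.t (@Lb.fm (nat_lit 9) t2805)))))))))))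
noncomputable def l39675 : Lb := (@Lb.d (nat_lit 9) (nat_lit 549) (nat_lit 64) (@Lb.g g8 (@Lb.g g9 (@Lb.g g10 (@Lb.g g11 (@Lb.r r2312 (@Lb.r r2727 (@Lb.r r1378 (@Lb.r r2577 (@Lb.d (nat_lit 354) (nat_lit 9) (nat_lit 672) (@Lb.fp (nat_lit 9) t5773)))))))))))
noncomputable def l39676 : Lb := (@Lb.d (nat_lit 405) (nat_lit 65) (nat_lit 678) (@Lb.r r2469 (@Lb.r r1688 (@Lb.r r2466 (@Lb.g g11 (@Lb.g g6 (@Lb.g g5 (@Lb.g g4 (@Lb.d (nat_lit 0) (nat_lit 1) (nat_lit 129) (@Lb.fp (nat_lit 9) t1702))))))))))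
noncomputable def l39677 : Lb := (@Lb.d (nat_lit 8) (nat_lit 9) (nat_lit 130) (@Lb.g g9 (@Lb.g g10 (@Lb.g g11 (@Lb.r r1447 (@Lb.r r2648 (@Lb.r r2453 (@Lb.r r1430 (@Lb.d (nat_lit 357) (nat_lit 21) (nat_lit 8) (@Lb.t (@Lb.fm (nat_lit 9) t745)))))))))))
noncomputable def l39678 : Lb := (@Lb.d (nat_lit 164) (nat_lit 8) (nat_lit 98) (@Lb.r r580 (@Lb.r r359 (@Lb.r r658 (@Lb.r r337 (@Lb.g g7 (@Lb.g g5 (@Lb.g g4 (@Lb.d (nat_lit 18) (nat_lit 2) (nat_lit 64) (@Lb.t (@Lb.fm (nat_lit 9) t594)))))))))))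
noncomputable def l39679 : Lb := (@Lb.r r355 (@Lb.d (nat_lit 4) (nat_lit 522) (nat_lit 21) (@Lb.g g8 (@Lb.g g9 (@Lb.g g10 (@Lb.r r1579 (@Lb.r r609 (@Lb.r r24 (@Lb.d (nat_lit 105) (nat_lit 25) (nat_lit 296) (@Lb.t (@Lb.fp (nat_lit 9) t979)))))))))))
noncomputable def l39680 : Lb := (@Lb.r r323 (@Lb.d (nat_lit 8) (nat_lit 0) (nat_lit 21) (@Lb.g g8 (@Lb.g g10 (@Lb.r r387 (@Lb.r r2341 (@Lb.r r2324 (@Lb.d (nat_lit 577) (nat_lit 98) (nat_lit 585) (@Lb.fp (nat_lit 3) t1644)))))))))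
noncomputable def l39681 : Lb := (@Lb.d (nat_lit 4) (nat_lit 256) (nat_lit 64) (@Lb.g g8 (@Lb.g g9 (@Lb.g g11 (@Lb.r r2327 (@Lb.r r2178 (@Lb.r r2585 (@Lb.d (nat_lit 329) (nat_lit 36) (nat_lit 1) (@Lb.t (@Lb.fp (nat_lit 9) t3706))))))))))
noncomputable def l39682 : Lb := (@Lb.d (nat_lit 72) (nat_lit 662) (nat_lit 608) (@Lb.r r8 (@Lb.r r1321 (@Lb.r r595 (@Lb.g g6 (@Lb.g g5 (@Lb.d (nat_lit 0) (nat_lit 17) (nat_lit 33) (@Lb.r r387 (@Lb.fp (nat_lit 3) t162)))))))))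
noncomputable def l39683 : Lb := (@Lb.d (nat_lit 0) (nat_lit 514) (nat_lit 73) (@Lb.g g9 (@Lb.g g10 (@Lb.g g11 (@Lb.r r2662 (@Lb.r r579 (@Lb.r r148 (@Lb.r r25 (@Lb.d (nat_lit 409) (nat_lit 4) (nat_lit 357) (@Lb.t (@Lb.fp (nat_lit 9) t61)))))))))))
noncomputable def l39684 : Lb := (@Lb.d (nat_lit 8) (nat_lit 258) (nat_lit 64) (@Lb.g g9 (@Lb.g g11 (@Lb.r r1540 (@Lb.r r2407 (@Lb.r r2726 (@Lb.r r85 (@Lb.d (nat_lit 22) (nat_lit 5) (nat_lit 86) (@Lb.fp (nat_lit 3) t309)))))))))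
noncomputable def l39685 : Lb := (@Lb.d (nat_lit 2) (nat_lit 4) (nat_lit 74) (@Lb.g g8 (@Lb.g g9 (@Lb.g g10 (@Lb.g g11 (@Lb.r r427 (@Lb.r r2440 (@Lb.r r2122 (@Lb.r r1125 (@Lb.d (nat_lit 289) (nat_lit 6) (nat_lit 153) (@Lb.fp (nat_lit 9) t573)))))))))))
noncomputable def l39686 : Lb := (@Lb.r r21 (@Lb.r r70 (@Lb.d (nat_lit 128) (nat_lit 512) (nat_lit 64) (@Lb.g g8 (@Lb.g g11 (@Lb.r r263 (@Lb.r r330 (@Lb.r r281 (@Lb.r r260 (@Lb.d (nat_lit 130) (nat_lit 0) (nat_lit 69) (@Lb.fm (nat_lit 3) t68)))))))))))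
noncomputable def l39687 : Lb := (@Lb.r r82 (@Lb.d (nat_lit 4) (nat_lit 258) (nat_lit 128) (@Lb.g g8 (@Lb.g g9 (@Lb.g g11 (@Lb.r r2667 (@Lb.r r386 (@Lb.r r2212 (@Lb.r r2085 (@Lb.d (nat_lit 618) (nat_lit 73) (nat_lit 593) (@Lb.t (@Lb.fp (nat_lit 9) t98))))))))))))
noncomputable def l39688 : Lb := (@Lb.r r82 (@Lb.d (nat_lit 4) (nat_lit 258) (nat_lit 128) (@Lb.g g8 (@Lb.g g9 (@Lb.g g11 (@Lb.r r2667 (@Lb.r r386 (@Lb.r r2212 (@Lb.r r2085 (@Lb.d (nat_lit 617) (nat_lit 66) (nat_lit 594) (@Lb.t (@Lb.fp (nat_lit 9) t98))))))))))))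
noncomputable def l39689 : Lb := (@Lb.r r82 (@Lb.d (nat_lit 4) (nat_lit 514) (nat_lit 128) (@Lb.g g8 (@Lb.g g9 (@Lb.g g11 (@Lb.r r2667 (@Lb.r r386 (@Lb.r r2212 (@Lb.r r2085 (@Lb.d (nat_lit 617) (nat_lit 73) (nat_lit 593) (@Lb.t (@Lb.fp (nat_lit 9) t98))))))))))))
noncomputable def l39690 : Lb := (@Lb.d (nat_lit 4) (nat_lit 4) (nat_lit 0) (@Lb.g g8 (@Lb.g g9 (@Lb.g g10 (@Lb.r r1707 (@Lb.r r618 (@Lb.r r1049 (@Lb.d (nat_lit 522) (nat_lit 153) (nat_lit 537) (@Lb.t (@Lb.fp (nat_lit 9) t1369))))))))))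
noncomputable def l39691 : Lb := (@Lb.d (nat_lit 4) (nat_lit 514) (nat_lit 2) (@Lb.g g8 (@Lb.g g9 (@Lb.g g10 (@Lb.r r1707 (@Lb.r r618 (@Lb.r r1049 (@Lb.d (nat_lit 521) (nat_lit 153) (nat_lit 537) (@Lb.t (@Lb.fp (nat_lit 9) t591))))))))))
noncomputable def l39692 : Lb := (@Lb.d (nat_lit 106) (nat_lit 297) (nat_lit 102) (@Lb.r r408 (@Lb.r r330 (@Lb.r r407 (@Lb.g g7 (@Lb.g g5 (@Lb.g g4 (@Lb.d (nat_lit 17) (nat_lit 1) (nat_lit 64) (@Lb.r r98 (@Lb.t (@Lb.fm (nat_lit 9) t242)))))))))))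
noncomputable def l39693 : Lb := (@Lb.d (nat_lit 4) (nat_lit 4) (nat_lit 0) (@Lb.g g8 (@Lb.g g9 (@Lb.g g10 (@Lb.r r1707 (@Lb.r r618 (@Lb.r r1049 (@Lb.d (nat_lit 514) (nat_lit 154) (nat_lit 537) (@Lb.t (@Lb.fp (nat_lit 9) t2985))))))))))
noncomputable def l39694 : Lb := (@Lb.r r82 (@Lb.d (nat_lit 4) (nat_lit 33) (nat_lit 64) (@Lb.g g8 (@Lb.g g9 (@Lb.g g11 (@Lb.r r2667 (@Lb.r r386 (@Lb.r r2404 (@Lb.r r2469 (@Lb.d (nat_lit 521) (nat_lit 97) (nat_lit 353) (@Lb.t (@Lb.fp (nat_lit 9) t98))))))))))))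
noncomputable def l39695 : Lb := (@Lb.d (nat_lit 138) (nat_lit 256) (nat_lit 0) (@Lb.g g8 (@Lb.r r1621 (@Lb.r r2391 (@Lb.r r2178 (@Lb.r r1544 (@Lb.d (nat_lit 585) (nat_lit 10) (nat_lit 658) (@Lb.t (@Lb.fp (nat_lit 3) t772)))))))))
noncomputable def l39696 : Lb := (@Lb.d (nat_lit 138) (nat_lit 0) (nat_lit 0) (@Lb.g g8 (@Lb.r r1621 (@Lb.r r2391 (@Lb.r r2178 (@Lb.r r1544 (@Lb.d (nat_lit 585) (nat_lit 0) (nat_lit 642) (@Lb.t (@Lb.fp (nat_lit 3) t772)))))))))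
noncomputable def l39697 : Lb := (@Lb.d (nat_lit 2) (nat_lit 512) (nat_lit 0) (@Lb.g g8 (@Lb.r r593 (@Lb.r r343 (@Lb.r r680 (@Lb.r r170 (@Lb.r r153 (@Lb.d (nat_lit 0) (nat_lit 0) (nat_lit 9) (@Lb.t (@Lb.fp (nat_lit 3) t2))))))))))
noncomputable def l39698 : Lb := (@Lb.r r323 (@Lb.d (nat_lit 0) (nat_lit 2) (nat_lit 1) (@Lb.g g8 (@Lb.g g9 (@Lb.g g6 (@Lb.r r2667 (@Lb.r r97 (@Lb.r r24 (@Lb.d (nat_lit 264) (nat_lit 9) (nat_lit 5) (@Lb.t (@Lb.fm (nat_lit 9) t277)))))))))))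
noncomputable def l39699 : Lb := (@Lb.d (nat_lit 2) (nat_lit 513) (nat_lit 130) (@Lb.g g4 (@Lb.g g9 (@Lb.g g10 (@Lb.g g11 (@Lb.r r1447 (@Lb.r r401 (@Lb.r r90 (@Lb.r r145 (@Lb.d (nat_lit 677) (nat_lit 137) (nat_lit 169) (@Lb.fm (nat_lit 9) t646)))))))))))
noncomputable def l39700 : Lb := (@Lb.d (nat_lit 4) (nat_lit 264) (nat_lit 0) (@Lb.g g8 (@Lb.g g9 (@Lb.r r1636 (@Lb.r r1383 (@Lb.r r1626 (@Lb.r r1429 (@Lb.d (nat_lit 612) (nat_lit 90) (nat_lit 386) (@Lb.fm (nat_lit 3) t3300)))))))))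
noncomputable def l39701 : Lb := (@Lb.d (nat_lit 2) (nat_lit 257) (nat_lit 130) (@Lb.g g4 (@Lb.g g9 (@Lb.g g10 (@Lb.g g11 (@Lb.r r1447 (@Lb.r r401 (@Lb.r r90 (@Lb.r r145 (@Lb.d (nat_lit 677) (nat_lit 130) (nat_lit 170) (@Lb.fm (nat_lit 9) t651)))))))))))
noncomputable def l39702 : Lb := (@Lb.d (nat_lit 642) (nat_lit 2) (nat_lit 66) (@Lb.g g8 (@Lb.g g9 (@Lb.g g10 (@Lb.g g11 (@Lb.r r1451 (@Lb.r r106 (@Lb.r r25 (@Lb.d (nat_lit 2) (nat_lit 73) (nat_lit 297) (@Lb.fp (nat_lit 9) t1354))))))))))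
noncomputable def l39703 : Lb := (@Lb.d (nat_lit 130) (nat_lit 2) (nat_lit 66) (@Lb.g g8 (@Lb.g g9 (@Lb.g g10 (@Lb.g g11 (@Lb.r r2455 (@Lb.r r1177 (@Lb.r r1626 (@Lb.r r1604 (@Lb.d (nat_lit 289) (nat_lit 33) (nat_lit 384) (@Lb.fp (nat_lit 9) t1152)))))))))))
noncomputable def l39704 : Lb := (@Lb.d (nat_lit 97) (nat_lit 514) (nat_lit 73) (@Lb.g g8 (@Lb.g g9 (@Lb.g g10 (@Lb.g g11 (@Lb.r r2722 (@Lb.r r2149 (@Lb.r r356 (@Lb.r r1323 (@Lb.d (nat_lit 9) (nat_lit 6) (nat_lit 337) (@Lb.fp (nat_lit 9) t6905)))))))))))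
noncomputable def l39705 : Lb := (@Lb.r r21 (@Lb.d (nat_lit 657) (nat_lit 256) (nat_lit 133) (@Lb.g g4 (@Lb.g g10 (@Lb.g g11 (@Lb.r r323 (@Lb.r r362 (@Lb.r r97 (@Lb.d (nat_lit 129) (nat_lit 146) (nat_lit 640) (@Lb.t (@Lb.fm (nat_lit 9) t2301)))))))))))
noncomputable def l39706 : Lb := (@Lb.r r81 (@Lb.d (nat_lit 9) (nat_lit 256) (nat_lit 105) (@Lb.g g8 (@Lb.g g6 (@Lb.g g11 (@Lb.r r149 (@Lb.r r1704 (@Lb.r r1611 (@Lb.d (nat_lit 608) (nat_lit 37) (nat_lit 385) (@Lb.t (@Lb.fp (nat_lit 9) t981)))))))))))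
noncomputable def l39707 : Lb := (@Lb.r r21 (@Lb.d (nat_lit 2) (nat_lit 0) (nat_lit 73) (@Lb.g g8 (@Lb.g g10 (@Lb.g g11 (@Lb.r r1683 (@Lb.r r2184 (@Lb.r r1610 (@Lb.r r97 (@Lb.d (nat_lit 408) (nat_lit 129) (nat_lit 85) (@Lb.t (@Lb.fp (nat_lit 9) t3180))))))))))))
noncomputable def l39708 : Lb := (@Lb.d (nat_lit 1) (nat_lit 258) (nat_lit 130) (@Lb.g g4 (@Lb.g g9 (@Lb.g g10 (@Lb.g g11 (@Lb.r r1443 (@Lb.r r386 (@Lb.r r1125 (@Lb.d (nat_lit 673) (nat_lit 148) (nat_lit 68) (@Lb.fm (nat_lit 9) t1022))))))))))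
noncomputable def l39709 : Lb := (@Lb.d (nat_lit 149) (nat_lit 602) (nat_lit 534) (@Lb.r r1446 (@Lb.g g11 (@Lb.g g6 (@Lb.g g5 (@Lb.d (nat_lit 4) (nat_lit 1) (nat_lit 1) (@Lb.t (@Lb.fp (nat_lit 9) t743))))))))
noncomputable def l39710 : Lb := (@Lb.d (nat_lit 581) (nat_lit 161) (nat_lit 341) (@Lb.r r340 (@Lb.r r1689 (@Lb.r r1418 (@Lb.g g7 (@Lb.g g6 (@Lb.g g5 (@Lb.g g4 (@Lb.d (nat_lit 98) (nat_lit 0) (nat_lit 577) (@Lb.fm (nat_lit 9) t1916))))))))))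
noncomputable def l39711 : Lb := (@Lb.d (nat_lit 262) (nat_lit 261) (nat_lit 610) (@Lb.r r280 (@Lb.r r1622 (@Lb.r r679 (@Lb.r r1681 (@Lb.g g7 (@Lb.g g6 (@Lb.g g4 (@Lb.d (nat_lit 149) (nat_lit 4) (nat_lit 8) (@Lb.t (@Lb.fp (nat_lit 9) t2115)))))))))))
noncomputable def l39712 : Lb := (@Lb.d (nat_lit 273) (nat_lit 678) (nat_lit 84) (@Lb.r r24 (@Lb.r r322 (@Lb.r r1691 (@Lb.g g7 (@Lb.g g6 (@Lb.g g9 (@Lb.d (nat_lit 0) (nat_lit 10) (nat_lit 133) (@Lb.t (@Lb.fm (nat_lit 9) t6906))))))))))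
noncomputable def l39713 : Lb := (@Lb.d (nat_lit 518) (nat_lit 152) (nat_lit 130) (@Lb.r r358 (@Lb.r r617 (@Lb.r r292 (@Lb.g g7 (@Lb.g g6 (@Lb.g g5 (@Lb.d (nat_lit 20) (nat_lit 24) (nat_lit 576) (@Lb.r r388 (@Lb.t (@Lb.fm (nat_lit 9) t148)))))))))))
noncomputable def l39714 : Lb := (@Lb.d (nat_lit 145) (nat_lit 2) (nat_lit 529) (@Lb.r r1608 (@Lb.r r1643 (@Lb.r r2649 (@Lb.r r1446 (@Lb.g g4 (@Lb.t (@Lb.fp (nat_lit 3) t698))))))))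
noncomputable def l39715 : Lb := (@Lb.r r70 (@Lb.r r263 (@Lb.d (nat_lit 544) (nat_lit 9) (nat_lit 0) (@Lb.g g8 (@Lb.g g9 (@Lb.r r1106 (@Lb.r r2469 (@Lb.r r403 (@Lb.d (nat_lit 593) (nat_lit 0) (nat_lit 298) (@Lb.fp (nat_lit 3) t148))))))))))
noncomputable def l39716 : Lb := (@Lb.d (nat_lit 98) (nat_lit 326) (nat_lit 534) (@Lb.r r24 (@Lb.r r2201 (@Lb.r r2666 (@Lb.g g11 (@Lb.g g6 (@Lb.g g5 (@Lb.g g4 (@Lb.d (nat_lit 1) (nat_lit 8) (nat_lit 128) (@Lb.fp (nat_lit 9) t2936))))))))))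
noncomputable def l39717 : Lb := (@Lb.d (nat_lit 1) (nat_lit 514) (nat_lit 2) (@Lb.g g8 (@Lb.g g9 (@Lb.g g10 (@Lb.r r2411 (@Lb.r r386 (@Lb.r r97 (@Lb.r r24 (@Lb.d (nat_lit 266) (nat_lit 9) (nat_lit 100) (@Lb.t (@Lb.fp (nat_lit 9) t221)))))))))))
noncomputable def l39718 : Lb := (@Lb.r r2118 (@Lb.r r24 (@Lb.d (nat_lit 586) (nat_lit 34) (nat_lit 256) (@Lb.fm (nat_lit 1) t3590))))
noncomputable def l39719 : Lb := (@Lb.r r86 (@Lb.d (nat_lit 134) (nat_lit 34) (nat_lit 64) (@Lb.g g8 (@Lb.g g9 (@Lb.g g11 (@Lb.r r2731 (@Lb.r r2626 (@Lb.r r1188 (@Lb.r r37 (@Lb.d (nat_lit 8) (nat_lit 73) (nat_lit 68) (@Lb.t (@Lb.fm (nat_lit 9) t4709))))))))))))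
noncomputable def l39720 : Lb := (@Lb.d (nat_lit 512) (nat_lit 406) (nat_lit 520) (@Lb.r r21 (@Lb.r r2344 (@Lb.r r2410 (@Lb.g g11 (@Lb.g g5 (@Lb.g g4 (@Lb.d (nat_lit 73) (nat_lit 0) (nat_lit 512) (@Lb.r r74 (@Lb.t (@Lb.fp (nat_lit 9) t6907)))))))))))
noncomputable def l39721 : Lb := (@Lb.r r322 (@Lb.d (nat_lit 34) (nat_lit 514) (nat_lit 576) (@Lb.g g8 (@Lb.g g9 (@Lb.g g7 (@Lb.r r361 (@Lb.r r150 (@Lb.r r1364 (@Lb.d (nat_lit 342) (nat_lit 38) (nat_lit 529) (@Lb.t (@Lb.fp (nat_lit 9) t259)))))))))))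
noncomputable def l39722 : Lb := (@Lb.d (nat_lit 32) (nat_lit 520) (nat_lit 128) (@Lb.g g10 (@Lb.g g11 (@Lb.r r407 (@Lb.r r616 (@Lb.r r2665 (@Lb.r r2390 (@Lb.d (nat_lit 598) (nat_lit 21) (nat_lit 294) (@Lb.fm (nat_lit 3) t322)))))))))
noncomputable def l39723 : Lb := (@Lb.r r326 (@Lb.d (nat_lit 33) (nat_lit 514) (nat_lit 576) (@Lb.g g8 (@Lb.g g9 (@Lb.g g7 (@Lb.r r1129 (@Lb.r r2454 (@Lb.r r596 (@Lb.d (nat_lit 150) (nat_lit 134) (nat_lit 133) (@Lb.t (@Lb.fp (nat_lit 9) t2528)))))))))))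
noncomputable def l39724 : Lb := (@Lb.d (nat_lit 10) (nat_lit 544) (nat_lit 66) (@Lb.g g8 (@Lb.g g10 (@Lb.g g11 (@Lb.r r1618 (@Lb.r r149 (@Lb.r r2340 (@Lb.r r587 (@Lb.d (nat_lit 102) (nat_lit 86) (nat_lit 408) (@Lb.t (@Lb.fp (nat_lit 9) t1951)))))))))))
noncomputable def l39725 : Lb := (@Lb.r r323 (@Lb.d (nat_lit 0) (nat_lit 258) (nat_lit 1) (@Lb.g g8 (@Lb.g g9 (@Lb.g g6 (@Lb.r r2667 (@Lb.r r97 (@Lb.r r24 (@Lb.d (nat_lit 266) (nat_lit 9) (nat_lit 5) (@Lb.t (@Lb.fm (nat_lit 9) t592)))))))))))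
noncomputable def l39726 : Lb := (@Lb.d (nat_lit 2) (nat_lit 258) (nat_lit 66) (@Lb.g g8 (@Lb.g g9 (@Lb.g g10 (@Lb.g g11 (@Lb.r r1443 (@Lb.r r297 (@Lb.r r104 (@Lb.r r70 (@Lb.r r132 (@Lb.d (nat_lit 545) (nat_lit 5) (nat_lit 362) (@Lb.fp (nat_lit 9) t88))))))))))))
noncomputable def l39727 : Lb := (@Lb.d (nat_lit 132) (nat_lit 528) (nat_lit 130) (@Lb.g g8 (@Lb.g g9 (@Lb.g g10 (@Lb.g g11 (@Lb.r r618 (@Lb.r r616 (@Lb.r r1323 (@Lb.r r1697 (@Lb.d (nat_lit 105) (nat_lit 21) (nat_lit 96) (@Lb.fp (nat_lit 9) t245)))))))))))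
noncomputable def l39728 : Lb := (@Lb.d (nat_lit 420) (nat_lit 346) (nat_lit 522) (@Lb.r r2389 (@Lb.r r2178 (@Lb.r r2339 (@Lb.g g5 (@Lb.g g8 (@Lb.d (nat_lit 322) (nat_lit 16) (nat_lit 0) (@Lb.fm (nat_lit 3) t229))))))))
noncomputable def l39729 : Lb := (@Lb.d (nat_lit 8) (nat_lit 514) (nat_lit 73) (@Lb.g g8 (@Lb.g g9 (@Lb.g g10 (@Lb.g g11 (@Lb.r r683 (@Lb.r r676 (@Lb.r r134 (@Lb.r r2145 (@Lb.d (nat_lit 33) (nat_lit 169) (nat_lit 673) (@Lb.fm (nat_lit 9) t296)))))))))))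
noncomputable def l39730 : Lb := (@Lb.d (nat_lit 153) (nat_lit 2) (nat_lit 130) (@Lb.g g8 (@Lb.g g9 (@Lb.g g10 (@Lb.g g11 (@Lb.r r642 (@Lb.r r2455 (@Lb.r r2145 (@Lb.r r536 (@Lb.d (nat_lit 616) (nat_lit 105) (nat_lit 129) (@Lb.fm (nat_lit 9) t3913)))))))))))
noncomputable def l39731 : Lb := (@Lb.d (nat_lit 2) (nat_lit 0) (nat_lit 1) (@Lb.g g8 (@Lb.g g10 (@Lb.g g11 (@Lb.r r2690 (@Lb.r r387 (@Lb.d (nat_lit 0) (nat_lit 0) (nat_lit 402) (@Lb.t (@Lb.fp (nat_lit 9) t2)))))))))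
noncomputable def l39732 : Lb := (@Lb.g g8 (@Lb.r r2073 (@Lb.d (nat_lit 265) (nat_lit 384) (nat_lit 0) (@Lb.t (@Lb.fp (nat_lit 3) t2)))))
noncomputable def l39733 : Lb := (@Lb.r r323 (@Lb.d (nat_lit 2) (nat_lit 546) (nat_lit 2) (@Lb.g g8 (@Lb.g g9 (@Lb.g g10 (@Lb.r r599 (@Lb.r r74 (@Lb.r r296 (@Lb.r r409 (@Lb.d (nat_lit 149) (nat_lit 86) (nat_lit 258) (@Lb.t (@Lb.fm (nat_lit 9) t51))))))))))))
noncomputable def l39734 : Lb := (@Lb.d (nat_lit 34) (nat_lit 265) (nat_lit 0) (@Lb.g g8 (@Lb.g g9 (@Lb.r r2379 (@Lb.r r582 (@Lb.r r2452 (@Lb.r r25 (@Lb.d (nat_lit 522) (nat_lit 153) (nat_lit 665) (@Lb.fm (nat_lit 3) t386)))))))))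
noncomputable def l39735 : Lb := (@Lb.r r21 (@Lb.d (nat_lit 0) (nat_lit 8) (nat_lit 130) (@Lb.g g8 (@Lb.g g10 (@Lb.g g11 (@Lb.r r2443 (@Lb.r r2345 (@Lb.r r2468 (@Lb.r r390 (@Lb.d (nat_lit 98) (nat_lit 128) (nat_lit 138) (@Lb.t (@Lb.fm (nat_lit 9) t51))))))))))))
noncomputable def l39736 : Lb := (@Lb.r r82 (@Lb.r r275 (@Lb.d (nat_lit 0) (nat_lit 342) (nat_lit 0) (@Lb.g g8 (@Lb.g g9 (@Lb.r r2475 (@Lb.r r1606 (@Lb.r r2436 (@Lb.d (nat_lit 64) (nat_lit 9) (nat_lit 546) (@Lb.fm (nat_lit 3) t1246))))))))))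
noncomputable def l39737 : Lb := (@Lb.d (nat_lit 297) (nat_lit 514) (nat_lit 34) (@Lb.r r20 (@Lb.r r2137 (@Lb.r r323 (@Lb.g g10 (@Lb.g g4 (@Lb.d (nat_lit 1) (nat_lit 4) (nat_lit 2) (@Lb.r r387 (@Lb.r r145 (@Lb.fp (nat_lit 3) t5))))))))))
noncomputable def l39738 : Lb := (@Lb.d (nat_lit 34) (nat_lit 0) (nat_lit 136) (@Lb.g g8 (@Lb.g g11 (@Lb.r r1173 (@Lb.r r150 (@Lb.r r356 (@Lb.r r1291 (@Lb.d (nat_lit 2) (nat_lit 41) (nat_lit 324) (@Lb.fp (nat_lit 3) t322)))))))))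
noncomputable def l39739 : Lb := (@Lb.r r323 (@Lb.d (nat_lit 38) (nat_lit 320) (nat_lit 2) (@Lb.g g8 (@Lb.g g9 (@Lb.g g10 (@Lb.r r2475 (@Lb.r r2154 (@Lb.r r72 (@Lb.d (nat_lit 536) (nat_lit 70) (nat_lit 18) (@Lb.t (@Lb.fp (nat_lit 9) t213)))))))))))
noncomputable def l39740 : Lb := (@Lb.d (nat_lit 0) (nat_lit 544) (nat_lit 9) (@Lb.g g10 (@Lb.g g7 (@Lb.r r2457 (@Lb.r r2394 (@Lb.r r152 (@Lb.d (nat_lit 162) (nat_lit 0) (nat_lit 298) (@Lb.fm (nat_lit 3) t222))))))))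
noncomputable def l39741 : Lb := (@Lb.d (nat_lit 32) (nat_lit 512) (nat_lit 128) (@Lb.g g8 (@Lb.g g11 (@Lb.r r405 (@Lb.r r2454 (@Lb.r r2411 (@Lb.r r2404 (@Lb.d (nat_lit 386) (nat_lit 160) (nat_lit 420) (@Lb.fp (nat_lit 3) t2014)))))))))
noncomputable def l39742 : Lb := (@Lb.d (nat_lit 642) (nat_lit 258) (nat_lit 66) (@Lb.g g8 (@Lb.g g9 (@Lb.g g10 (@Lb.g g11 (@Lb.r r1451 (@Lb.r r106 (@Lb.r r97 (@Lb.d (nat_lit 265) (nat_lit 84) (nat_lit 644) (@Lb.fm (nat_lit 9) t5815))))))))))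
noncomputable def l39743 : Lb := (@Lb.d (nat_lit 554) (nat_lit 329) (nat_lit 1) (@Lb.r r1432 (@Lb.r r1106 (@Lb.r r343 (@Lb.g g6 (@Lb.g g5 (@Lb.g g4 (@Lb.d (nat_lit 1) (nat_lit 0) (nat_lit 1) (@Lb.r r387 (@Lb.t (@Lb.fm (nat_lit 9) t6908)))))))))))
noncomputable def l39744 : Lb := (@Lb.d (nat_lit 130) (nat_lit 530) (nat_lit 73) (@Lb.g g8 (@Lb.g g9 (@Lb.g g10 (@Lb.g g11 (@Lb.r r1667 (@Lb.r r2216 (@Lb.r r1610 (@Lb.r r2385 (@Lb.d (nat_lit 384) (nat_lit 24) (nat_lit 160) (@Lb.fp (nat_lit 9) t5490)))))))))))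
noncomputable def l39745 : Lb := (@Lb.r r323 (@Lb.d (nat_lit 6) (nat_lit 576) (nat_lit 2) (@Lb.g g4 (@Lb.g g9 (@Lb.g g10 (@Lb.r r1447 (@Lb.r r2146 (@Lb.d (nat_lit 96) (nat_lit 73) (nat_lit 514) (@Lb.t (@Lb.fp (nat_lit 9) t2013))))))))))
noncomputable def l39746 : Lb := (@Lb.r r323 (@Lb.d (nat_lit 16) (nat_lit 512) (nat_lit 2) (@Lb.g g10 (@Lb.r r2664 (@Lb.r r2729 (@Lb.r r427 (@Lb.r r1442 (@Lb.d (nat_lit 10) (nat_lit 170) (nat_lit 16) (@Lb.t (@Lb.fm (nat_lit 3) t6909))))))))))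
noncomputable def l39747 : Lb := (@Lb.d (nat_lit 5) (nat_lit 512) (nat_lit 130) (@Lb.g g8 (@Lb.g g9 (@Lb.g g10 (@Lb.g g11 (@Lb.r r427 (@Lb.r r2146 (@Lb.r r292 (@Lb.r r2069 (@Lb.r r1060 (@Lb.d (nat_lit 289) (nat_lit 74) (nat_lit 33) (@Lb.fp (nat_lit 9) t1089))))))))))))
noncomputable def l39748 : Lb := (@Lb.d (nat_lit 274) (nat_lit 150) (nat_lit 2) (@Lb.r r2408 (@Lb.r r89 (@Lb.r r386 (@Lb.g g11 (@Lb.g g6 (@Lb.g g4 (@Lb.d (nat_lit 5) (nat_lit 0) (nat_lit 385) (@Lb.r r529 (@Lb.t (@Lb.fm (nat_lit 9) t1446)))))))))))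
noncomputable def l39749 : Lb := (@Lb.r r21 (@Lb.d (nat_lit 0) (nat_lit 288) (nat_lit 73) (@Lb.g g8 (@Lb.g g10 (@Lb.g g11 (@Lb.r r1690 (@Lb.r r101 (@Lb.r r404 (@Lb.r r2347 (@Lb.d (nat_lit 69) (nat_lit 150) (nat_lit 408) (@Lb.t (@Lb.fm (nat_lit 9) t242))))))))))))
noncomputable def l39750 : Lb := (@Lb.r r323 (@Lb.d (nat_lit 128) (nat_lit 34) (nat_lit 18) (@Lb.g g8 (@Lb.g g9 (@Lb.g g10 (@Lb.r r583 (@Lb.r r404 (@Lb.r r105 (@Lb.d (nat_lit 550) (nat_lit 36) (nat_lit 144) (@Lb.t (@Lb.fm (nat_lit 9) t386)))))))))))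
noncomputable def l39751 : Lb := (@Lb.r r331 (@Lb.d (nat_lit 160) (nat_lit 2) (nat_lit 2) (@Lb.g g8 (@Lb.g g9 (@Lb.g g10 (@Lb.r r345 (@Lb.r r359 (@Lb.r r536 (@Lb.d (nat_lit 65) (nat_lit 42) (nat_lit 128) (@Lb.t (@Lb.fp (nat_lit 9) t238)))))))))))
noncomputable def l39752 : Lb := (@Lb.r r331 (@Lb.d (nat_lit 160) (nat_lit 514) (nat_lit 2) (@Lb.g g8 (@Lb.g g9 (@Lb.g g10 (@Lb.r r345 (@Lb.r r359 (@Lb.r r536 (@Lb.d (nat_lit 74) (nat_lit 170) (nat_lit 128) (@Lb.t (@Lb.fp (nat_lit 9) t1250)))))))))))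
noncomputable def l39753 : Lb := (@Lb.r r82 (@Lb.d (nat_lit 274) (nat_lit 514) (nat_lit 0) (@Lb.g g8 (@Lb.g g9 (@Lb.r r2731 (@Lb.r r1642 (@Lb.r r1633 (@Lb.d (nat_lit 609) (nat_lit 0) (nat_lit 9) (@Lb.fm (nat_lit 3) t1877)))))))))
noncomputable def l39754 : Lb := (@Lb.r r323 (@Lb.d (nat_lit 0) (nat_lit 290) (nat_lit 18) (@Lb.g g9 (@Lb.g g10 (@Lb.r r595 (@Lb.r r1321 (@Lb.r r8 (@Lb.d (nat_lit 138) (nat_lit 96) (nat_lit 401) (@Lb.fp (nat_lit 3) t651)))))))))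
noncomputable def l39755 : Lb := (@Lb.d (nat_lit 64) (nat_lit 256) (nat_lit 72) (@Lb.g g11 (@Lb.r r2660 (@Lb.r r1429 (@Lb.r r1362 (@Lb.r r675 (@Lb.d (nat_lit 5) (nat_lit 25) (nat_lit 8) (@Lb.t (@Lb.fm (nat_lit 3) t40)))))))))
noncomputable def l39756 : Lb := (@Lb.r r21 (@Lb.d (nat_lit 2) (nat_lit 512) (nat_lit 66) (@Lb.g g8 (@Lb.g g10 (@Lb.g g7 (@Lb.r r386 (@Lb.r r97 (@Lb.r r72 (@Lb.d (nat_lit 354) (nat_lit 10) (nat_lit 584) (@Lb.t (@Lb.fm (nat_lit 9) t166)))))))))))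
noncomputable def l39757 : Lb := (@Lb.r r21 (@Lb.d (nat_lit 146) (nat_lit 256) (nat_lit 64) (@Lb.g g8 (@Lb.g g10 (@Lb.g g11 (@Lb.r r603 (@Lb.r r2401 (@Lb.r r1170 (@Lb.r r2084 (@Lb.d (nat_lit 274) (nat_lit 73) (nat_lit 33) (@Lb.t (@Lb.fp (nat_lit 9) t264))))))))))))
noncomputable def l39758 : Lb := (@Lb.d (nat_lit 4) (nat_lit 512) (nat_lit 2) (@Lb.g g8 (@Lb.g g9 (@Lb.g g10 (@Lb.g g7 (@Lb.r r386 (@Lb.r r2664 (@Lb.r r2729 (@Lb.d (nat_lit 356) (nat_lit 81) (nat_lit 37) (@Lb.fp (nat_lit 9) t3305))))))))))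
noncomputable def l39759 : Lb := (@Lb.r r21 (@Lb.d (nat_lit 2) (nat_lit 256) (nat_lit 130) (@Lb.g g8 (@Lb.g g10 (@Lb.g g11 (@Lb.r r602 (@Lb.r r1619 (@Lb.r r149 (@Lb.r r2340 (@Lb.d (nat_lit 133) (nat_lit 38) (nat_lit 641) (@Lb.t (@Lb.fp (nat_lit 9) t1954))))))))))))
noncomputable def l39760 : Lb := (@Lb.d (nat_lit 4) (nat_lit 264) (nat_lit 73) (@Lb.g g8 (@Lb.g g10 (@Lb.g g11 (@Lb.r r2707 (@Lb.r r1381 (@Lb.r r1178 (@Lb.d (nat_lit 676) (nat_lit 73) (nat_lit 324) (@Lb.t (@Lb.fp (nat_lit 9) t1866))))))))))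
noncomputable def l39761 : Lb := (@Lb.d (nat_lit 0) (nat_lit 1) (nat_lit 130) (@Lb.g g8 (@Lb.g g9 (@Lb.g g10 (@Lb.g g11 (@Lb.r r618 (@Lb.r r105 (@Lb.r r612 (@Lb.r r1287 (@Lb.r r2564 (@Lb.d (nat_lit 10) (nat_lit 18) (nat_lit 640) (@Lb.fm (nat_lit 9) t71))))))))))))
noncomputable def l39762 : Lb := (@Lb.d (nat_lit 18) (nat_lit 10) (nat_lit 416) (@Lb.r r21 (@Lb.r r331 (@Lb.r r2630 (@Lb.g g7 (@Lb.g g4 (@Lb.d (nat_lit 352) (nat_lit 0) (nat_lit 64) (@Lb.r r25 (@Lb.fm (nat_lit 3) t6910)))))))))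
noncomputable def l39763 : Lb := (@Lb.d (nat_lit 2) (nat_lit 0) (nat_lit 0) (@Lb.g g8 (@Lb.r r322 (@Lb.r r1667 (@Lb.r r578 (@Lb.r r1561 (@Lb.r r24 (@Lb.d (nat_lit 390) (nat_lit 146) (nat_lit 256) (@Lb.t (@Lb.fp (nat_lit 3) t2027))))))))))
noncomputable def l39764 : Lb := (@Lb.d (nat_lit 8) (nat_lit 32) (nat_lit 64) (@Lb.g g8 (@Lb.g g11 (@Lb.r r165 (@Lb.r r2662 (@Lb.r r1383 (@Lb.r r2324 (@Lb.d (nat_lit 532) (nat_lit 101) (nat_lit 426) (@Lb.fp (nat_lit 3) t6911)))))))))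
noncomputable def l39765 : Lb := (@Lb.g g8 (@Lb.r r674 (@Lb.r r665 (@Lb.r r340 (@Lb.r r1675 (@Lb.r r586 (@Lb.d (nat_lit 9) (nat_lit 514) (nat_lit 256) (@Lb.t (@Lb.fp (nat_lit 3) t2027)))))))))
noncomputable def l39766 : Lb := (@Lb.r r21 (@Lb.d (nat_lit 2) (nat_lit 0) (nat_lit 130) (@Lb.g g8 (@Lb.g g10 (@Lb.g g11 (@Lb.r r602 (@Lb.r r1619 (@Lb.r r149 (@Lb.r r2340 (@Lb.d (nat_lit 130) (nat_lit 37) (nat_lit 641) (@Lb.t (@Lb.fp (nat_lit 9) t1954))))))))))))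
noncomputable def l39767 : Lb := (@Lb.r r277 (@Lb.d (nat_lit 517) (nat_lit 512) (nat_lit 130) (@Lb.g g8 (@Lb.g g10 (@Lb.g g11 (@Lb.r r594 (@Lb.r r409 (@Lb.r r1319 (@Lb.d (nat_lit 678) (nat_lit 166) (nat_lit 584) (@Lb.t (@Lb.fm (nat_lit 9) t3335)))))))))))
noncomputable def l39768 : Lb := (@Lb.g g8 (@Lb.g g11 (@Lb.r r1291 (@Lb.d (nat_lit 521) (nat_lit 258) (nat_lit 0) (@Lb.fm (nat_lit 3) t441)))))
noncomputable def l39769 : Lb := (@Lb.r r21 (@Lb.d (nat_lit 386) (nat_lit 0) (nat_lit 0) (@Lb.g g8 (@Lb.r r1319 (@Lb.r r405 (@Lb.r r1106 (@Lb.r r1169 (@Lb.d (nat_lit 98) (nat_lit 0) (nat_lit 610) (@Lb.t (@Lb.fp (nat_lit 3) t3300))))))))))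
noncomputable def l39770 : Lb := (@Lb.d (nat_lit 586) (nat_lit 533) (nat_lit 609) (@Lb.r r2473 (@Lb.r r2391 (@Lb.r r2730 (@Lb.r r1444 (@Lb.g g7 (@Lb.g g5 (@Lb.d (nat_lit 72) (nat_lit 0) (nat_lit 128) (@Lb.fm (nat_lit 3) t6912)))))))))
noncomputable def l39771 : Lb := (@Lb.d (nat_lit 1) (nat_lit 258) (nat_lit 64) (@Lb.g g8 (@Lb.g g9 (@Lb.g g10 (@Lb.g g11 (@Lb.r r657 (@Lb.r r612 (@Lb.r r666 (@Lb.r r132 (@Lb.d (nat_lit 73) (nat_lit 2) (nat_lit 5) (@Lb.fm (nat_lit 9) t521)))))))))))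
noncomputable def l39772 : Lb := (@Lb.r r82 (@Lb.d (nat_lit 132) (nat_lit 0) (nat_lit 384) (@Lb.g g8 (@Lb.g g9 (@Lb.g g11 (@Lb.r r610 (@Lb.r r529 (@Lb.r r292 (@Lb.d (nat_lit 72) (nat_lit 34) (nat_lit 576) (@Lb.t (@Lb.fm (nat_lit 9) t6108)))))))))))
noncomputable def l39773 : Lb := (@Lb.d (nat_lit 130) (nat_lit 514) (nat_lit 130) (@Lb.g g8 (@Lb.g g9 (@Lb.g g10 (@Lb.g g11 (@Lb.r r292 (@Lb.r r651 (@Lb.r r1634 (@Lb.r r2069 (@Lb.r r1060 (@Lb.d (nat_lit 614) (nat_lit 138) (nat_lit 40) (@Lb.fm (nat_lit 9) t6913))))))))))))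
noncomputable def l39774 : Lb := (@Lb.d (nat_lit 2) (nat_lit 4) (nat_lit 74) (@Lb.g g8 (@Lb.g g9 (@Lb.g g10 (@Lb.g g11 (@Lb.r r1575 (@Lb.r r2216 (@Lb.r r361 (@Lb.r r1362 (@Lb.d (nat_lit 69) (nat_lit 146) (nat_lit 149) (@Lb.fm (nat_lit 9) t4411)))))))))))
noncomputable def l39775 : Lb := (@Lb.r r322 (@Lb.d (nat_lit 34) (nat_lit 2) (nat_lit 576) (@Lb.g g8 (@Lb.g g9 (@Lb.g g7 (@Lb.r r361 (@Lb.r r150 (@Lb.r r84 (@Lb.d (nat_lit 17) (nat_lit 149) (nat_lit 521) (@Lb.t (@Lb.fp (nat_lit 9) t259)))))))))))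
noncomputable def l39776 : Lb := (@Lb.r r323 (@Lb.d (nat_lit 32) (nat_lit 514) (nat_lit 2) (@Lb.g g8 (@Lb.g g9 (@Lb.g g10 (@Lb.r r2411 (@Lb.r r1174 (@Lb.r r361 (@Lb.r r340 (@Lb.d (nat_lit 86) (nat_lit 104) (nat_lit 418) (@Lb.t (@Lb.fm (nat_lit 9) t3094))))))))))))
noncomputable def l39777 : Lb := (@Lb.r r21 (@Lb.d (nat_lit 152) (nat_lit 0) (nat_lit 128) (@Lb.g g8 (@Lb.g g10 (@Lb.g g11 (@Lb.r r1178 (@Lb.r r1637 (@Lb.r r1319 (@Lb.r r1176 (@Lb.d (nat_lit 682) (nat_lit 74) (nat_lit 400) (@Lb.t (@Lb.fp (nat_lit 9) t428))))))))))))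
noncomputable def l39778 : Lb := (@Lb.d (nat_lit 261) (nat_lit 256) (nat_lit 1) (@Lb.r r21 (@Lb.r r70 (@Lb.g g7 (@Lb.g g4 (@Lb.d (nat_lit 585) (nat_lit 0) (nat_lit 68) (@Lb.r r74 (@Lb.r r25 (@Lb.fm (nat_lit 3) t2691)))))))))
noncomputable def l39779 : Lb := (@Lb.r r331 (@Lb.d (nat_lit 1) (nat_lit 290) (nat_lit 0) (@Lb.g g8 (@Lb.g g9 (@Lb.g g10 (@Lb.r r1450 (@Lb.r r1444 (@Lb.r r1307 (@Lb.r r613 (@Lb.d (nat_lit 153) (nat_lit 26) (nat_lit 613) (@Lb.t (@Lb.fm (nat_lit 9) t1423))))))))))))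
noncomputable def l39780 : Lb := (@Lb.d (nat_lit 1) (nat_lit 258) (nat_lit 130) (@Lb.g g8 (@Lb.g g9 (@Lb.g g10 (@Lb.g g11 (@Lb.r r2691 (@Lb.r r297 (@Lb.r r360 (@Lb.r r582 (@Lb.r r2180 (@Lb.d (nat_lit 642) (nat_lit 10) (nat_lit 265) (@Lb.fm (nat_lit 9) t242))))))))))))
noncomputable def l39781 : Lb := (@Lb.d (nat_lit 4) (nat_lit 32) (nat_lit 64) (@Lb.g g8 (@Lb.g g11 (@Lb.r r2337 (@Lb.r r531 (@Lb.r r2658 (@Lb.d (nat_lit 325) (nat_lit 162) (nat_lit 0) (@Lb.fm (nat_lit 3) t6286))))))))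
noncomputable def l39782 : Lb := (@Lb.d (nat_lit 529) (nat_lit 165) (nat_lit 420) (@Lb.r r2403 (@Lb.r r1622 (@Lb.r r2473 (@Lb.r r164 (@Lb.g g7 (@Lb.g g6 (@Lb.g g5 (@Lb.d (nat_lit 68) (nat_lit 6) (nat_lit 129) (@Lb.t (@Lb.fm (nat_lit 9) t3052)))))))))))
noncomputable def l39783 : Lb := (@Lb.r r21 (@Lb.d (nat_lit 18) (nat_lit 512) (nat_lit 128) (@Lb.g g4 (@Lb.g g10 (@Lb.g g11 (@Lb.r r1687 (@Lb.r r2401 (@Lb.r r1170 (@Lb.d (nat_lit 264) (nat_lit 66) (nat_lit 2) (@Lb.t (@Lb.fm (nat_lit 9) t1556)))))))))))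
noncomputable def l39784 : Lb := (@Lb.g g8 (@Lb.r r1446 (@Lb.r r1429 (@Lb.r r1643 (@Lb.r r1608 (@Lb.d (nat_lit 98) (nat_lit 257) (nat_lit 290) (@Lb.t (@Lb.fm (nat_lit 3) t282))))))))
noncomputable def l39785 : Lb := (@Lb.d (nat_lit 128) (nat_lit 513) (nat_lit 0) (@Lb.g g8 (@Lb.g g9 (@Lb.r r662 (@Lb.r r361 (@Lb.r r1431 (@Lb.r r2664 (@Lb.d (nat_lit 356) (nat_lit 17) (nat_lit 640) (@Lb.fp (nat_lit 3) t71)))))))))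
noncomputable def l39786 : Lb := (@Lb.d (nat_lit 130) (nat_lit 261) (nat_lit 64) (@Lb.g g8 (@Lb.g g5 (@Lb.g g10 (@Lb.g g11 (@Lb.r r2587 (@Lb.r r386 (@Lb.r r2072 (@Lb.d (nat_lit 649) (nat_lit 133) (nat_lit 74) (@Lb.fp (nat_lit 9) t1000))))))))))
noncomputable def l39787 : Lb := (@Lb.r r263 (@Lb.d (nat_lit 0) (nat_lit 514) (nat_lit 2) (@Lb.g g8 (@Lb.g g9 (@Lb.g g10 (@Lb.r r2666 (@Lb.r r2627 (@Lb.r r97 (@Lb.r r1048 (@Lb.d (nat_lit 664) (nat_lit 66) (nat_lit 388) (@Lb.t (@Lb.fp (nat_lit 9) t5804))))))))))))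
noncomputable def l39788 : Lb := (@Lb.d (nat_lit 410) (nat_lit 512) (nat_lit 136) (@Lb.g g8 (@Lb.g g11 (@Lb.r r401 (@Lb.r r2450 (@Lb.r r2403 (@Lb.d (nat_lit 545) (nat_lit 138) (nat_lit 101) (@Lb.fp (nat_lit 3) t4372))))))))
noncomputable def l39789 : Lb := (@Lb.d (nat_lit 528) (nat_lit 320) (nat_lit 152) (@Lb.r r273 (@Lb.r r2178 (@Lb.r r2595 (@Lb.r r529 (@Lb.g g8 (@Lb.d (nat_lit 322) (nat_lit 0) (nat_lit 0) (@Lb.t (@Lb.fp (nat_lit 3) t1561)))))))))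
noncomputable def l39790 : Lb := (@Lb.d (nat_lit 97) (nat_lit 2) (nat_lit 4) (@Lb.g g8 (@Lb.g g9 (@Lb.g g10 (@Lb.g g11 (@Lb.r r2455 (@Lb.r r1125 (@Lb.r r1426 (@Lb.r r1604 (@Lb.d (nat_lit 384) (nat_lit 160) (nat_lit 65) (@Lb.fp (nat_lit 9) t6914)))))))))))
noncomputable def l39791 : Lb := (@Lb.d (nat_lit 2) (nat_lit 2) (nat_lit 73) (@Lb.g g8 (@Lb.g g9 (@Lb.g g10 (@Lb.g g11 (@Lb.r r1435 (@Lb.r r1125 (@Lb.r r406 (@Lb.r r1416 (@Lb.d (nat_lit 6) (nat_lit 148) (nat_lit 416) (@Lb.fm (nat_lit 9) t3856)))))))))))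
noncomputable def l39792 : Lb := (@Lb.g g5 (@Lb.r r1126 (@Lb.r r24 (@Lb.d (nat_lit 586) (nat_lit 512) (nat_lit 512) (@Lb.t (@Lb.fp (nat_lit 3) t282))))))
noncomputable def l39793 : Lb := (@Lb.d (nat_lit 40) (nat_lit 384) (nat_lit 128) (@Lb.g g5 (@Lb.g g10 (@Lb.g g11 (@Lb.r r391 (@Lb.r r600 (@Lb.r r342 (@Lb.d (nat_lit 86) (nat_lit 162) (nat_lit 517) (@Lb.t (@Lb.fm (nat_lit 9) t430))))))))))
noncomputable def l39794 : Lb := (@Lb.d (nat_lit 8) (nat_lit 545) (nat_lit 66) (@Lb.g g9 (@Lb.g g10 (@Lb.g g11 (@Lb.r r419 (@Lb.r r386 (@Lb.r r1048 (@Lb.r r2149 (@Lb.d (nat_lit 21) (nat_lit 85) (nat_lit 646) (@Lb.t (@Lb.fp (nat_lit 9) t4412)))))))))))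
noncomputable def l39795 : Lb := (@Lb.d (nat_lit 32) (nat_lit 258) (nat_lit 146) (@Lb.g g9 (@Lb.g g10 (@Lb.g g11 (@Lb.r r2467 (@Lb.r r1365 (@Lb.r r1124 (@Lb.d (nat_lit 258) (nat_lit 88) (nat_lit 296) (@Lb.t (@Lb.fm (nat_lit 9) t6915))))))))))
noncomputable def l39796 : Lb := (@Lb.r r322 (@Lb.d (nat_lit 129) (nat_lit 289) (nat_lit 4) (@Lb.g g8 (@Lb.g g9 (@Lb.g g7 (@Lb.r r1450 (@Lb.r r164 (@Lb.r r1061 (@Lb.d (nat_lit 265) (nat_lit 73) (nat_lit 82) (@Lb.t (@Lb.fp (nat_lit 9) t6916)))))))))))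
noncomputable def l39797 : Lb := (@Lb.g g4 (@Lb.r r273 (@Lb.r r1703 (@Lb.r r1606 (@Lb.r r2408 (@Lb.r r153 (@Lb.d (nat_lit 0) (nat_lit 537) (nat_lit 356) (@Lb.t (@Lb.fm (nat_lit 3) t2243)))))))))
noncomputable def l39798 : Lb := (@Lb.d (nat_lit 2) (nat_lit 256) (nat_lit 64) (@Lb.g g8 (@Lb.g g9 (@Lb.g g11 (@Lb.r r1162 (@Lb.r r1188 (@Lb.r r661 (@Lb.r r2451 (@Lb.d (nat_lit 2) (nat_lit 25) (nat_lit 641) (@Lb.t (@Lb.fp (nat_lit 9) t4704)))))))))))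
noncomputable def l39799 : Lb := (@Lb.d (nat_lit 102) (nat_lit 40) (nat_lit 33) (@Lb.r r408 (@Lb.r r2378 (@Lb.r r1431 (@Lb.g g7 (@Lb.g g5 (@Lb.g g4 (@Lb.d (nat_lit 17) (nat_lit 160) (nat_lit 0) (@Lb.r r602 (@Lb.t (@Lb.fm (nat_lit 9) t2770)))))))))))
noncomputable def l39800 : Lb := (@Lb.d (nat_lit 2) (nat_lit 256) (nat_lit 73) (@Lb.g g8 (@Lb.g g9 (@Lb.g g10 (@Lb.g g11 (@Lb.r r2691 (@Lb.r r1642 (@Lb.r r2145 (@Lb.r r24 (@Lb.d (nat_lit 136) (nat_lit 33) (nat_lit 133) (@Lb.fm (nat_lit 9) t2637)))))))))))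
noncomputable def l39801 : Lb := (@Lb.d (nat_lit 388) (nat_lit 406) (nat_lit 297) (@Lb.r r1556 (@Lb.r r2345 (@Lb.r r1623 (@Lb.g g6 (@Lb.g g5 (@Lb.g g4 (@Lb.d (nat_lit 70) (nat_lit 2) (nat_lit 33) (@Lb.r r387 (@Lb.t (@Lb.fp (nat_lit 9) t1643)))))))))))
noncomputable def l39802 : Lb := (@Lb.d (nat_lit 390) (nat_lit 582) (nat_lit 26) (@Lb.r r2325 (@Lb.r r598 (@Lb.r r683 (@Lb.g g7 (@Lb.g g6 (@Lb.g g5 (@Lb.g g4 (@Lb.d (nat_lit 9) (nat_lit 24) (nat_lit 133) (@Lb.fm (nat_lit 9) t1769))))))))))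
noncomputable def l39803 : Lb := (@Lb.r r82 (@Lb.d (nat_lit 8) (nat_lit 514) (nat_lit 128) (@Lb.g g9 (@Lb.g g11 (@Lb.r r291 (@Lb.r r602 (@Lb.r r600 (@Lb.r r293 (@Lb.d (nat_lit 68) (nat_lit 132) (nat_lit 1) (@Lb.fm (nat_lit 3) t501))))))))))
noncomputable def l39804 : Lb := (@Lb.d (nat_lit 10) (nat_lit 346) (nat_lit 597) (@Lb.r r2657 (@Lb.g g7 (@Lb.g g10 (@Lb.g g5 (@Lb.d (nat_lit 0) (nat_lit 1) (nat_lit 0) (@Lb.t (@Lb.fp (nat_lit 9) t6917))))))))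
noncomputable def l39805 : Lb := (@Lb.d (nat_lit 0) (nat_lit 552) (nat_lit 64) (@Lb.g g9 (@Lb.g g10 (@Lb.g g11 (@Lb.r r2731 (@Lb.r r2661 (@Lb.r r2196 (@Lb.r r2214 (@Lb.d (nat_lit 293) (nat_lit 34) (nat_lit 390) (@Lb.t (@Lb.fp (nat_lit 9) t3919)))))))))))
noncomputable def l39806 : Lb := (@Lb.d (nat_lit 678) (nat_lit 401) (nat_lit 8) (@Lb.r r1365 (@Lb.r r2390 (@Lb.r r2667 (@Lb.g g7 (@Lb.g g6 (@Lb.g g5 (@Lb.g g4 (@Lb.d (nat_lit 1) (nat_lit 41) (nat_lit 134) (@Lb.fm (nat_lit 9) t2211))))))))))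
noncomputable def l39807 : Lb := (@Lb.d (nat_lit 9) (nat_lit 294) (nat_lit 64) (@Lb.g g8 (@Lb.g g9 (@Lb.g g10 (@Lb.g g11 (@Lb.r r1194 (@Lb.r r424 (@Lb.r r279 (@Lb.r r1065 (@Lb.r r2084 (@Lb.d (nat_lit 265) (nat_lit 98) (nat_lit 10) (@Lb.fm (nat_lit 9) t125))))))))))))
noncomputable def l39808 : Lb := (@Lb.d (nat_lit 426) (nat_lit 617) (nat_lit 521) (@Lb.r r1705 (@Lb.r r427 (@Lb.g g10 (@Lb.g g5 (@Lb.g g4 (@Lb.d (nat_lit 1) (nat_lit 20) (nat_lit 34) (@Lb.r r403 (@Lb.t (@Lb.fp (nat_lit 9) t2211))))))))))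
noncomputable def l39809 : Lb := (@Lb.d (nat_lit 0) (nat_lit 41) (nat_lit 64) (@Lb.g g9 (@Lb.g g10 (@Lb.g g11 (@Lb.r r1431 (@Lb.r r2666 (@Lb.r r276 (@Lb.r r617 (@Lb.d (nat_lit 386) (nat_lit 130) (nat_lit 658) (@Lb.t (@Lb.fp (nat_lit 9) t3919)))))))))))
noncomputable def l39810 : Lb := (@Lb.d (nat_lit 0) (nat_lit 552) (nat_lit 133) (@Lb.g g9 (@Lb.g g10 (@Lb.g g11 (@Lb.r r2731 (@Lb.r r346 (@Lb.r r1561 (@Lb.r r24 (@Lb.d (nat_lit 421) (nat_lit 150) (nat_lit 417) (@Lb.t (@Lb.fm (nat_lit 9) t6551)))))))))))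
noncomputable def l39811 : Lb := (@Lb.d (nat_lit 6) (nat_lit 8) (nat_lit 128) (@Lb.g g4 (@Lb.g g9 (@Lb.g g11 (@Lb.r r2450 (@Lb.r r2387 (@Lb.r r1689 (@Lb.d (nat_lit 581) (nat_lit 98) (nat_lit 552) (@Lb.t (@Lb.fm (nat_lit 9) t714))))))))))
noncomputable def l39812 : Lb := (@Lb.r r70 (@Lb.r r263 (@Lb.d (nat_lit 548) (nat_lit 68) (nat_lit 0) (@Lb.g g4 (@Lb.g g9 (@Lb.r r1315 (@Lb.r r1122 (@Lb.d (nat_lit 1) (nat_lit 66) (nat_lit 32) (@Lb.fp (nat_lit 3) t1386)))))))))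
noncomputable def l39813 : Lb := (@Lb.d (nat_lit 4) (nat_lit 576) (nat_lit 128) (@Lb.g g9 (@Lb.g g11 (@Lb.r r658 (@Lb.r r387 (@Lb.r r2564 (@Lb.d (nat_lit 322) (nat_lit 16) (nat_lit 133) (@Lb.fp (nat_lit 3) t2367))))))))
noncomputable def l39814 : Lb := (@Lb.r r70 (@Lb.d (nat_lit 388) (nat_lit 257) (nat_lit 64) (@Lb.g g8 (@Lb.g g5 (@Lb.g g11 (@Lb.r r539 (@Lb.r r1122 (@Lb.d (nat_lit 132) (nat_lit 34) (nat_lit 640) (@Lb.t (@Lb.fm (nat_lit 9) t1916))))))))))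
noncomputable def l39815 : Lb := (@Lb.d (nat_lit 385) (nat_lit 576) (nat_lit 640) (@Lb.r r2341 (@Lb.r r1624 (@Lb.r r2470 (@Lb.g g11 (@Lb.g g6 (@Lb.g g5 (@Lb.d (nat_lit 0) (nat_lit 0) (nat_lit 129) (@Lb.t (@Lb.fp (nat_lit 9) t634))))))))))
noncomputable def l39816 : Lb := (@Lb.d (nat_lit 353) (nat_lit 160) (nat_lit 324) (@Lb.r r154 (@Lb.r r660 (@Lb.r r663 (@Lb.r r361 (@Lb.g g7 (@Lb.g g5 (@Lb.d (nat_lit 0) (nat_lit 1) (nat_lit 64) (@Lb.fp (nat_lit 3) t1613)))))))))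
noncomputable def l39817 : Lb := (@Lb.d (nat_lit 0) (nat_lit 294) (nat_lit 66) (@Lb.g g9 (@Lb.g g10 (@Lb.g g11 (@Lb.r r2731 (@Lb.r r1160 (@Lb.r r2458 (@Lb.r r2577 (@Lb.d (nat_lit 598) (nat_lit 21) (nat_lit 150) (@Lb.t (@Lb.fp (nat_lit 9) t1690)))))))))))
noncomputable def l39818 : Lb := (@Lb.d (nat_lit 128) (nat_lit 2) (nat_lit 130) (@Lb.g g8 (@Lb.g g9 (@Lb.g g10 (@Lb.g g11 (@Lb.r r1666 (@Lb.r r1411 (@Lb.r r2345 (@Lb.r r420 (@Lb.d (nat_lit 345) (nat_lit 38) (nat_lit 73) (@Lb.fp (nat_lit 9) t3814)))))))))))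
noncomputable def l39819 : Lb := (@Lb.r r21 (@Lb.d (nat_lit 2) (nat_lit 0) (nat_lit 64) (@Lb.g g8 (@Lb.g g11 (@Lb.r r327 (@Lb.r r2178 (@Lb.r r2644 (@Lb.r r25 (@Lb.d (nat_lit 360) (nat_lit 146) (nat_lit 138) (@Lb.fp (nat_lit 3) t2607))))))))))
noncomputable def l39820 : Lb := (@Lb.d (nat_lit 2) (nat_lit 544) (nat_lit 130) (@Lb.g g8 (@Lb.g g10 (@Lb.g g11 (@Lb.r r602 (@Lb.r r600 (@Lb.r r293 (@Lb.r r2587 (@Lb.d (nat_lit 322) (nat_lit 42) (nat_lit 278) (@Lb.t (@Lb.fp (nat_lit 9) t71)))))))))))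
noncomputable def l39821 : Lb := (@Lb.r r338 (@Lb.d (nat_lit 2) (nat_lit 522) (nat_lit 576) (@Lb.g g8 (@Lb.g g9 (@Lb.g g11 (@Lb.r r2438 (@Lb.r r1432 (@Lb.r r2725 (@Lb.d (nat_lit 296) (nat_lit 1) (nat_lit 405) (@Lb.t (@Lb.fp (nat_lit 9) t1156)))))))))))
noncomputable def l39822 : Lb := (@Lb.d (nat_lit 2) (nat_lit 258) (nat_lit 66) (@Lb.g g8 (@Lb.g g9 (@Lb.g g10 (@Lb.g g11 (@Lb.r r2327 (@Lb.r r2666 (@Lb.r r2585 (@Lb.d (nat_lit 322) (nat_lit 161) (nat_lit 18) (@Lb.fp (nat_lit 9) t6918))))))))))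
noncomputable def l39823 : Lb := (@Lb.d (nat_lit 0) (nat_lit 544) (nat_lit 64) (@Lb.g g11 (@Lb.r r2337 (@Lb.r r1363 (@Lb.r r2178 (@Lb.r r36 (@Lb.d (nat_lit 0) (nat_lit 170) (nat_lit 426) (@Lb.t (@Lb.fp (nat_lit 3) t2231)))))))))
noncomputable def l39824 : Lb := (@Lb.d (nat_lit 326) (nat_lit 641) (nat_lit 578) (@Lb.r r1284 (@Lb.r r1301 (@Lb.r r2667 (@Lb.g g10 (@Lb.g g5 (@Lb.g g4 (@Lb.d (nat_lit 1) (nat_lit 6) (nat_lit 26) (@Lb.r r387 (@Lb.t (@Lb.fp (nat_lit 9) t6919)))))))))))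
noncomputable def l39825 : Lb := (@Lb.d (nat_lit 128) (nat_lit 256) (nat_lit 128) (@Lb.g g11 (@Lb.r r324 (@Lb.r r651 (@Lb.r r101 (@Lb.r r154 (@Lb.d (nat_lit 10) (nat_lit 26) (nat_lit 137) (@Lb.t (@Lb.fm (nat_lit 3) t39)))))))))
noncomputable def l39826 : Lb := (@Lb.d (nat_lit 10) (nat_lit 8) (nat_lit 161) (@Lb.g g8 (@Lb.g g6 (@Lb.g g11 (@Lb.r r293 (@Lb.r r2587 (@Lb.r r2584 (@Lb.d (nat_lit 585) (nat_lit 2) (nat_lit 162) (@Lb.t (@Lb.fm (nat_lit 9) t1537))))))))))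
noncomputable def l39827 : Lb := (@Lb.d (nat_lit 33) (nat_lit 516) (nat_lit 74) (@Lb.g g8 (@Lb.g g9 (@Lb.g g10 (@Lb.g g11 (@Lb.r r2731 (@Lb.r r2724 (@Lb.r r2182 (@Lb.r r97 (@Lb.d (nat_lit 545) (nat_lit 34) (nat_lit 146) (@Lb.fm (nat_lit 9) t594)))))))))))
noncomputable def l39828 : Lb := (@Lb.d (nat_lit 145) (nat_lit 9) (nat_lit 130) (@Lb.g g8 (@Lb.g g9 (@Lb.g g10 (@Lb.g g11 (@Lb.r r1666 (@Lb.r r1431 (@Lb.r r97 (@Lb.r r536 (@Lb.d (nat_lit 104) (nat_lit 41) (nat_lit 129) (@Lb.fm (nat_lit 9) t3734)))))))))))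
noncomputable def l39829 : Lb := (@Lb.d (nat_lit 144) (nat_lit 258) (nat_lit 128) (@Lb.g g8 (@Lb.g g9 (@Lb.g g10 (@Lb.g g11 (@Lb.r r1666 (@Lb.r r1431 (@Lb.r r97 (@Lb.r r536 (@Lb.d (nat_lit 104) (nat_lit 36) (nat_lit 128) (@Lb.fm (nat_lit 9) t3913)))))))))))
noncomputable def l39830 : Lb := (@Lb.d (nat_lit 130) (nat_lit 516) (nat_lit 0) (@Lb.g g8 (@Lb.g g9 (@Lb.g g10 (@Lb.r r643 (@Lb.r r1194 (@Lb.r r425 (@Lb.r r424 (@Lb.d (nat_lit 149) (nat_lit 148) (nat_lit 330) (@Lb.t (@Lb.fm (nat_lit 9) t3543)))))))))))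
noncomputable def l39831 : Lb := (@Lb.d (nat_lit 145) (nat_lit 2) (nat_lit 128) (@Lb.g g8 (@Lb.g g9 (@Lb.g g10 (@Lb.g g11 (@Lb.r r1666 (@Lb.r r1431 (@Lb.r r97 (@Lb.r r536 (@Lb.d (nat_lit 104) (nat_lit 36) (nat_lit 128) (@Lb.fm (nat_lit 9) t3913)))))))))))
noncomputable def l39832 : Lb := (@Lb.d (nat_lit 64) (nat_lit 522) (nat_lit 420) (@Lb.r r2370 (@Lb.r r1683 (@Lb.r r2389 (@Lb.g g7 (@Lb.g g6 (@Lb.g g5 (@Lb.g g4 (@Lb.d (nat_lit 293) (nat_lit 1) (nat_lit 133) (@Lb.fm (nat_lit 9) t4619))))))))))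
noncomputable def l39833 : Lb := (@Lb.d (nat_lit 390) (nat_lit 152) (nat_lit 592) (@Lb.r r2325 (@Lb.r r2390 (@Lb.r r2731 (@Lb.g g6 (@Lb.g g5 (@Lb.g g4 (@Lb.d (nat_lit 8) (nat_lit 4) (nat_lit 2) (@Lb.t (@Lb.fm (nat_lit 9) t3136))))))))))
noncomputable def l39834 : Lb := (@Lb.d (nat_lit 0) (nat_lit 258) (nat_lit 130) (@Lb.g g8 (@Lb.g g9 (@Lb.g g10 (@Lb.g g11 (@Lb.r r427 (@Lb.r r424 (@Lb.r r106 (@Lb.r r25 (@Lb.d (nat_lit 580) (nat_lit 6) (nat_lit 680) (@Lb.fm (nat_lit 9) t2258)))))))))))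
noncomputable def l39835 : Lb := (@Lb.r r21 (@Lb.r r70 (@Lb.r r263 (@Lb.g g8 (@Lb.r r267 (@Lb.r r74 (@Lb.r r25 (@Lb.d (nat_lit 272) (nat_lit 512) (nat_lit 16) (@Lb.t (@Lb.fp (nat_lit 3) t6920))))))))))
noncomputable def l39836 : Lb := (@Lb.d (nat_lit 2) (nat_lit 514) (nat_lit 2) (@Lb.g g8 (@Lb.g g9 (@Lb.g g10 (@Lb.g g11 (@Lb.r r2450 (@Lb.r r2407 (@Lb.r r2585 (@Lb.r r2564 (@Lb.d (nat_lit 129) (nat_lit 2) (nat_lit 384) (@Lb.fm (nat_lit 9) t715)))))))))))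
noncomputable def l39837 : Lb := (@Lb.r r21 (@Lb.r r263 (@Lb.d (nat_lit 514) (nat_lit 8) (nat_lit 18) (@Lb.g g4 (@Lb.g g10 (@Lb.r r1427 (@Lb.r r97 (@Lb.d (nat_lit 1) (nat_lit 64) (nat_lit 2) (@Lb.fm (nat_lit 3) t2578)))))))))
noncomputable def l39838 : Lb := (@Lb.r r323 (@Lb.d (nat_lit 130) (nat_lit 514) (nat_lit 2) (@Lb.g g8 (@Lb.g g9 (@Lb.g g10 (@Lb.r r1450 (@Lb.r r583 (@Lb.r r280 (@Lb.r r37 (@Lb.d (nat_lit 586) (nat_lit 162) (nat_lit 400) (@Lb.t (@Lb.fm (nat_lit 9) t2387))))))))))))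
noncomputable def l39839 : Lb := (@Lb.g g4 (@Lb.r r273 (@Lb.r r1703 (@Lb.r r1606 (@Lb.r r2408 (@Lb.r r153 (@Lb.d (nat_lit 10) (nat_lit 24) (nat_lit 356) (@Lb.t (@Lb.fm (nat_lit 3) t2243)))))))))
noncomputable def l39840 : Lb := (@Lb.d (nat_lit 257) (nat_lit 5) (nat_lit 38) (@Lb.r r20 (@Lb.r r281 (@Lb.r r404 (@Lb.r r386 (@Lb.g g11 (@Lb.g g6 (@Lb.g g5 (@Lb.g g4 (@Lb.d (nat_lit 1) (nat_lit 17) (nat_lit 641) (@Lb.fp (nat_lit 9) t2160)))))))))))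
noncomputable def l39841 : Lb := (@Lb.d (nat_lit 160) (nat_lit 389) (nat_lit 394) (@Lb.r r273 (@Lb.r r402 (@Lb.r r679 (@Lb.g g7 (@Lb.g g6 (@Lb.g g8 (@Lb.d (nat_lit 354) (nat_lit 0) (nat_lit 5) (@Lb.r r409 (@Lb.t (@Lb.fm (nat_lit 9) t1343)))))))))))
noncomputable def l39842 : Lb := (@Lb.d (nat_lit 134) (nat_lit 0) (nat_lit 130) (@Lb.g g8 (@Lb.g g9 (@Lb.g g10 (@Lb.g g11 (@Lb.r r2710 (@Lb.r r360 (@Lb.r r1319 (@Lb.r r405 (@Lb.r r2084 (@Lb.d (nat_lit 26) (nat_lit 130) (nat_lit 674) (@Lb.fp (nat_lit 9) t2805))))))))))))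
noncomputable def l39843 : Lb := (@Lb.d (nat_lit 257) (nat_lit 522) (nat_lit 36) (@Lb.r r20 (@Lb.r r281 (@Lb.r r404 (@Lb.r r386 (@Lb.g g11 (@Lb.g g6 (@Lb.g g5 (@Lb.g g4 (@Lb.d (nat_lit 1) (nat_lit 17) (nat_lit 641) (@Lb.fp (nat_lit 9) t5274)))))))))))
noncomputable def l39844 : Lb := (@Lb.r r323 (@Lb.d (nat_lit 8) (nat_lit 514) (nat_lit 2) (@Lb.g g9 (@Lb.g g10 (@Lb.r r102 (@Lb.r r404 (@Lb.r r619 (@Lb.r r609 (@Lb.d (nat_lit 10) (nat_lit 26) (nat_lit 2) (@Lb.fm (nat_lit 3) t71))))))))))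
noncomputable def l39845 : Lb := (@Lb.d (nat_lit 2) (nat_lit 512) (nat_lit 0) (@Lb.g g8 (@Lb.g g9 (@Lb.r r1162 (@Lb.r r1188 (@Lb.r r405 (@Lb.r r1635 (@Lb.d (nat_lit 0) (nat_lit 10) (nat_lit 153) (@Lb.fm (nat_lit 3) t1594)))))))))
noncomputable def l39846 : Lb := (@Lb.d (nat_lit 1) (nat_lit 36) (nat_lit 128) (@Lb.g g4 (@Lb.g g9 (@Lb.g g10 (@Lb.g g11 (@Lb.r r387 (@Lb.r r422 (@Lb.r r1173 (@Lb.d (nat_lit 290) (nat_lit 161) (nat_lit 258) (@Lb.fp (nat_lit 9) t5532))))))))))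
noncomputable def l39847 : Lb := (@Lb.d (nat_lit 1) (nat_lit 38) (nat_lit 128) (@Lb.g g4 (@Lb.g g9 (@Lb.g g10 (@Lb.g g11 (@Lb.r r387 (@Lb.r r597 (@Lb.r r418 (@Lb.r r1169 (@Lb.d (nat_lit 40) (nat_lit 165) (nat_lit 274) (@Lb.fp (nat_lit 9) t5532)))))))))))
noncomputable def l39848 : Lb := (@Lb.d (nat_lit 130) (nat_lit 4) (nat_lit 64) (@Lb.g g8 (@Lb.g g9 (@Lb.g g10 (@Lb.g g11 (@Lb.r r648 (@Lb.r r2698 (@Lb.r r357 (@Lb.r r667 (@Lb.r r516 (@Lb.d (nat_lit 298) (nat_lit 10) (nat_lit 145) (@Lb.fp (nat_lit 9) t6921))))))))))))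
noncomputable def l39849 : Lb := (@Lb.d (nat_lit 138) (nat_lit 0) (nat_lit 0) (@Lb.g g8 (@Lb.r r1621 (@Lb.r r2391 (@Lb.r r2178 (@Lb.r r1544 (@Lb.d (nat_lit 585) (nat_lit 73) (nat_lit 532) (@Lb.t (@Lb.fp (nat_lit 3) t1624)))))))))
noncomputable def l39850 : Lb := (@Lb.d (nat_lit 32) (nat_lit 33) (nat_lit 0) (@Lb.g g8 (@Lb.g g9 (@Lb.r r150 (@Lb.r r340 (@Lb.d (nat_lit 86) (nat_lit 154) (nat_lit 68) (@Lb.fp (nat_lit 3) t1115)))))))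
noncomputable def l39851 : Lb := (@Lb.d (nat_lit 642) (nat_lit 512) (nat_lit 0) (@Lb.g g8 (@Lb.r r2145 (@Lb.r r402 (@Lb.r r2631 (@Lb.d (nat_lit 282) (nat_lit 2) (nat_lit 138) (@Lb.t (@Lb.fm (nat_lit 3) t6922))))))))
noncomputable def l39852 : Lb := (@Lb.d (nat_lit 25) (nat_lit 25) (nat_lit 130) (@Lb.g g8 (@Lb.g g9 (@Lb.g g10 (@Lb.g g11 (@Lb.r r1675 (@Lb.r r2580 (@Lb.r r1177 (@Lb.r r1170 (@Lb.d (nat_lit 545) (nat_lit 9) (nat_lit 289) (@Lb.fp (nat_lit 9) t3412)))))))))))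
noncomputable def l39853 : Lb := (@Lb.d (nat_lit 536) (nat_lit 529) (nat_lit 86) (@Lb.r r386 (@Lb.r r339 (@Lb.g g7 (@Lb.g g6 (@Lb.g g5 (@Lb.g g8 (@Lb.d (nat_lit 0) (nat_lit 0) (nat_lit 65) (@Lb.fp (nat_lit 9) t5845)))))))))
noncomputable def l39854 : Lb := (@Lb.d (nat_lit 536) (nat_lit 0) (nat_lit 130) (@Lb.g g8 (@Lb.g g10 (@Lb.g g11 (@Lb.r r1667 (@Lb.r r1634 (@Lb.d (nat_lit 0) (nat_lit 165) (nat_lit 665) (@Lb.t (@Lb.fp (nat_lit 9) t3687)))))))))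
noncomputable def l39855 : Lb := (@Lb.r r346 (@Lb.d (nat_lit 5) (nat_lit 520) (nat_lit 260) (@Lb.g g8 (@Lb.g g9 (@Lb.g g7 (@Lb.r r2450 (@Lb.r r1121 (@Lb.r r1412 (@Lb.d (nat_lit 354) (nat_lit 68) (nat_lit 577) (@Lb.t (@Lb.fp (nat_lit 9) t941)))))))))))
noncomputable def l39856 : Lb := (@Lb.d (nat_lit 538) (nat_lit 273) (nat_lit 81) (@Lb.r r579 (@Lb.r r402 (@Lb.g g7 (@Lb.g g5 (@Lb.g g8 (@Lb.d (nat_lit 2) (nat_lit 134) (nat_lit 68) (@Lb.t (@Lb.fm (nat_lit 9) t4902)))))))))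
noncomputable def l39857 : Lb := (@Lb.d (nat_lit 536) (nat_lit 17) (nat_lit 17) (@Lb.r r386 (@Lb.r r339 (@Lb.g g7 (@Lb.g g6 (@Lb.g g5 (@Lb.g g8 (@Lb.d (nat_lit 0) (nat_lit 0) (nat_lit 65) (@Lb.fp (nat_lit 9) t5845)))))))))
noncomputable def l39858 : Lb := (@Lb.d (nat_lit 646) (nat_lit 518) (nat_lit 282) (@Lb.r r1301 (@Lb.r r2646 (@Lb.r r1707 (@Lb.g g7 (@Lb.g g6 (@Lb.g g5 (@Lb.g g4 (@Lb.d (nat_lit 1) (nat_lit 26) (nat_lit 133) (@Lb.fm (nat_lit 9) t309))))))))))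
noncomputable def l39859 : Lb := (@Lb.d (nat_lit 0) (nat_lit 258) (nat_lit 130) (@Lb.g g9 (@Lb.g g10 (@Lb.g g11 (@Lb.r r2411 (@Lb.r r386 (@Lb.r r97 (@Lb.d (nat_lit 292) (nat_lit 74) (nat_lit 136) (@Lb.t (@Lb.fm (nat_lit 9) t1231))))))))))
noncomputable def l39860 : Lb := (@Lb.d (nat_lit 2) (nat_lit 256) (nat_lit 64) (@Lb.g g8 (@Lb.g g11 (@Lb.r r353 (@Lb.r r663 (@Lb.r r356 (@Lb.r r154 (@Lb.d (nat_lit 258) (nat_lit 0) (nat_lit 104) (@Lb.fp (nat_lit 3) t743)))))))))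
noncomputable def l39861 : Lb := (@Lb.r r21 (@Lb.d (nat_lit 4) (nat_lit 0) (nat_lit 74) (@Lb.g g8 (@Lb.g g10 (@Lb.g g11 (@Lb.r r597 (@Lb.r r411 (@Lb.r r330 (@Lb.r r1348 (@Lb.d (nat_lit 646) (nat_lit 74) (nat_lit 618) (@Lb.t (@Lb.fm (nat_lit 9) t6923))))))))))))
noncomputable def l39862 : Lb := (@Lb.d (nat_lit 4) (nat_lit 512) (nat_lit 2) (@Lb.g g8 (@Lb.g g9 (@Lb.g g10 (@Lb.r r661 (@Lb.r r1563 (@Lb.r r386 (@Lb.d (nat_lit 608) (nat_lit 162) (nat_lit 617) (@Lb.t (@Lb.fm (nat_lit 9) t6924))))))))))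
noncomputable def l39863 : Lb := (@Lb.d (nat_lit 0) (nat_lit 544) (nat_lit 73) (@Lb.g g8 (@Lb.g g10 (@Lb.g g11 (@Lb.r r2138 (@Lb.r r149 (@Lb.r r328 (@Lb.r r2599 (@Lb.d (nat_lit 650) (nat_lit 168) (nat_lit 258) (@Lb.t (@Lb.fm (nat_lit 9) t71)))))))))))
noncomputable def l39864 : Lb := (@Lb.r r21 (@Lb.d (nat_lit 4) (nat_lit 256) (nat_lit 74) (@Lb.g g8 (@Lb.g g10 (@Lb.g g11 (@Lb.r r597 (@Lb.r r411 (@Lb.r r330 (@Lb.r r1348 (@Lb.d (nat_lit 641) (nat_lit 73) (nat_lit 618) (@Lb.t (@Lb.fm (nat_lit 9) t4250))))))))))))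
noncomputable def l39865 : Lb := (@Lb.r r331 (@Lb.d (nat_lit 37) (nat_lit 261) (nat_lit 0) (@Lb.g g8 (@Lb.g g9 (@Lb.g g10 (@Lb.r r1706 (@Lb.r r1411 (@Lb.r r537 (@Lb.r r516 (@Lb.d (nat_lit 137) (nat_lit 1) (nat_lit 384) (@Lb.t (@Lb.fp (nat_lit 9) t606))))))))))))
noncomputable def l39866 : Lb := (@Lb.g g7 (@Lb.r r609 (@Lb.r r363 (@Lb.r r356 (@Lb.r r154 (@Lb.d (nat_lit 577) (nat_lit 256) (nat_lit 528) (@Lb.t (@Lb.fm (nat_lit 3) t1641))))))))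
noncomputable def l39867 : Lb := (@Lb.g g7 (@Lb.r r609 (@Lb.r r363 (@Lb.r r356 (@Lb.r r154 (@Lb.d (nat_lit 584) (nat_lit 514) (nat_lit 528) (@Lb.t (@Lb.fm (nat_lit 3) t6606))))))))
noncomputable def l39868 : Lb := (@Lb.g g10 (@Lb.g g7 (@Lb.r r609 (@Lb.r r363 (@Lb.r r356 (@Lb.r r154 (@Lb.d (nat_lit 577) (nat_lit 522) (nat_lit 530) (@Lb.fp (nat_lit 3) t1641))))))))
noncomputable def l39869 : Lb := (@Lb.d (nat_lit 2) (nat_lit 514) (nat_lit 74) (@Lb.g g8 (@Lb.g g9 (@Lb.g g10 (@Lb.g g11 (@Lb.r r2217 (@Lb.r r552 (@Lb.r r1611 (@Lb.r r2434 (@Lb.r r132 (@Lb.d (nat_lit 0) (nat_lit 10) (nat_lit 674) (@Lb.fp (nat_lit 9) t590))))))))))))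
noncomputable def l39870 : Lb := (@Lb.d (nat_lit 1) (nat_lit 258) (nat_lit 10) (@Lb.g g8 (@Lb.g g9 (@Lb.g g10 (@Lb.g g11 (@Lb.r r657 (@Lb.r r535 (@Lb.r r392 (@Lb.r r74 (@Lb.d (nat_lit 38) (nat_lit 6) (nat_lit 154) (@Lb.fp (nat_lit 9) t221)))))))))))
noncomputable def l39871 : Lb := (@Lb.r r331 (@Lb.d (nat_lit 32) (nat_lit 514) (nat_lit 2) (@Lb.g g8 (@Lb.g g9 (@Lb.g g10 (@Lb.r r427 (@Lb.r r677 (@Lb.r r340 (@Lb.r r1098 (@Lb.d (nat_lit 545) (nat_lit 17) (nat_lit 404) (@Lb.t (@Lb.fp (nat_lit 9) t395))))))))))))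
noncomputable def l39872 : Lb := (@Lb.d (nat_lit 0) (nat_lit 322) (nat_lit 10) (@Lb.g g4 (@Lb.g g9 (@Lb.g g10 (@Lb.g g11 (@Lb.r r610 (@Lb.r r579 (@Lb.d (nat_lit 0) (nat_lit 33) (nat_lit 5) (@Lb.fp (nat_lit 9) t51)))))))))
noncomputable def l39873 : Lb := (@Lb.r r82 (@Lb.d (nat_lit 134) (nat_lit 512) (nat_lit 128) (@Lb.g g8 (@Lb.g g9 (@Lb.g g11 (@Lb.r r299 (@Lb.r r2137 (@Lb.r r98 (@Lb.r r292 (@Lb.d (nat_lit 421) (nat_lit 33) (nat_lit 409) (@Lb.t (@Lb.fm (nat_lit 9) t6925))))))))))))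
noncomputable def l39874 : Lb := (@Lb.r r82 (@Lb.d (nat_lit 0) (nat_lit 289) (nat_lit 64) (@Lb.g g4 (@Lb.g g9 (@Lb.g g11 (@Lb.r r1571 (@Lb.r r90 (@Lb.r r37 (@Lb.d (nat_lit 641) (nat_lit 96) (nat_lit 384) (@Lb.t (@Lb.fp (nat_lit 9) t1686)))))))))))
noncomputable def l39875 : Lb := (@Lb.r r21 (@Lb.r r70 (@Lb.d (nat_lit 656) (nat_lit 544) (nat_lit 128) (@Lb.g g4 (@Lb.g g11 (@Lb.r r345 (@Lb.r r1315 (@Lb.r r2182 (@Lb.d (nat_lit 6) (nat_lit 160) (nat_lit 418) (@Lb.fm (nat_lit 3) t68))))))))))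
noncomputable def l39876 : Lb := (@Lb.r r82 (@Lb.d (nat_lit 134) (nat_lit 256) (nat_lit 128) (@Lb.g g8 (@Lb.g g9 (@Lb.g g11 (@Lb.r r299 (@Lb.r r2137 (@Lb.r r98 (@Lb.r r292 (@Lb.d (nat_lit 426) (nat_lit 34) (nat_lit 409) (@Lb.t (@Lb.fm (nat_lit 9) t6926))))))))))))
noncomputable def l39877 : Lb := (@Lb.d (nat_lit 1) (nat_lit 2) (nat_lit 73) (@Lb.g g8 (@Lb.g g9 (@Lb.g g10 (@Lb.g g11 (@Lb.r r2691 (@Lb.r r1193 (@Lb.r r1642 (@Lb.r r36 (@Lb.d (nat_lit 389) (nat_lit 1) (nat_lit 342) (@Lb.fp (nat_lit 9) t4386)))))))))))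
noncomputable def l39878 : Lb := (@Lb.d (nat_lit 10) (nat_lit 256) (nat_lit 64) (@Lb.g g8 (@Lb.g g11 (@Lb.r r677 (@Lb.r r2726 (@Lb.r r1703 (@Lb.r r1112 (@Lb.d (nat_lit 680) (nat_lit 4) (nat_lit 338) (@Lb.fm (nat_lit 3) t1639)))))))))
noncomputable def l39879 : Lb := (@Lb.d (nat_lit 128) (nat_lit 288) (nat_lit 64) (@Lb.g g11 (@Lb.r r356 (@Lb.r r2405 (@Lb.r r2650 (@Lb.r r1627 (@Lb.d (nat_lit 165) (nat_lit 101) (nat_lit 666) (@Lb.t (@Lb.fp (nat_lit 3) t1079)))))))))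
noncomputable def l39880 : Lb := (@Lb.r r82 (@Lb.d (nat_lit 134) (nat_lit 0) (nat_lit 128) (@Lb.g g8 (@Lb.g g9 (@Lb.g g11 (@Lb.r r299 (@Lb.r r2137 (@Lb.r r98 (@Lb.r r292 (@Lb.d (nat_lit 421) (nat_lit 33) (nat_lit 340) (@Lb.t (@Lb.fm (nat_lit 9) t1169))))))))))))
noncomputable def l39881 : Lb := (@Lb.d (nat_lit 2) (nat_lit 512) (nat_lit 64) (@Lb.g g8 (@Lb.g g9 (@Lb.g g11 (@Lb.r r292 (@Lb.r r1365 (@Lb.r r1707 (@Lb.r r2178 (@Lb.r r1572 (@Lb.d (nat_lit 544) (nat_lit 10) (nat_lit 16) (@Lb.t (@Lb.fm (nat_lit 9) t124))))))))))))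
noncomputable def l39882 : Lb := (@Lb.d (nat_lit 340) (nat_lit 81) (nat_lit 100) (@Lb.r r2580 (@Lb.r r2153 (@Lb.r r2659 (@Lb.g g7 (@Lb.g g10 (@Lb.g g5 (@Lb.g g4 (@Lb.d (nat_lit 96) (nat_lit 6) (nat_lit 130) (@Lb.fm (nat_lit 9) t6509))))))))))
noncomputable def l39883 : Lb := (@Lb.g g7 (@Lb.r r609 (@Lb.r r363 (@Lb.r r356 (@Lb.r r154 (@Lb.d (nat_lit 577) (nat_lit 0) (nat_lit 592) (@Lb.t (@Lb.fm (nat_lit 3) t1641))))))))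
noncomputable def l39884 : Lb := (@Lb.d (nat_lit 38) (nat_lit 2) (nat_lit 9) (@Lb.g g8 (@Lb.g g9 (@Lb.g g10 (@Lb.g g11 (@Lb.r r2722 (@Lb.r r1415 (@Lb.r r552 (@Lb.r r1065 (@Lb.r r36 (@Lb.d (nat_lit 325) (nat_lit 42) (nat_lit 130) (@Lb.fm (nat_lit 9) t50))))))))))))
noncomputable def l39885 : Lb := (@Lb.g g9 (@Lb.g g7 (@Lb.r r609 (@Lb.r r363 (@Lb.r r356 (@Lb.r r154 (@Lb.d (nat_lit 577) (nat_lit 256) (nat_lit 528) (@Lb.fp (nat_lit 3) t1641))))))))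
noncomputable def l39886 : Lb := (@Lb.d (nat_lit 0) (nat_lit 514) (nat_lit 2) (@Lb.g g9 (@Lb.g g10 (@Lb.g g7 (@Lb.r r386 (@Lb.r r97 (@Lb.r r2120 (@Lb.d (nat_lit 330) (nat_lit 137) (nat_lit 601) (@Lb.t (@Lb.fm (nat_lit 9) t166))))))))))
noncomputable def l39887 : Lb := (@Lb.d (nat_lit 8) (nat_lit 288) (nat_lit 64) (@Lb.g g8 (@Lb.g g11 (@Lb.r r165 (@Lb.r r2662 (@Lb.r r1383 (@Lb.r r2324 (@Lb.d (nat_lit 528) (nat_lit 98) (nat_lit 425) (@Lb.fp (nat_lit 3) t1644)))))))))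
noncomputable def l39888 : Lb := (@Lb.r r323 (@Lb.d (nat_lit 0) (nat_lit 258) (nat_lit 2) (@Lb.g g8 (@Lb.g g9 (@Lb.g g10 (@Lb.r r401 (@Lb.r r299 (@Lb.r r420 (@Lb.r r102 (@Lb.d (nat_lit 21) (nat_lit 68) (nat_lit 17) (@Lb.t (@Lb.fm (nat_lit 9) t1022))))))))))))
noncomputable def l39889 : Lb := (@Lb.r r21 (@Lb.r r323 (@Lb.d (nat_lit 136) (nat_lit 256) (nat_lit 2) (@Lb.g g8 (@Lb.g g10 (@Lb.r r2394 (@Lb.r r1685 (@Lb.r r1559 (@Lb.r r2312 (@Lb.d (nat_lit 394) (nat_lit 70) (nat_lit 657) (@Lb.fm (nat_lit 3) t51)))))))))))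
noncomputable def l39890 : Lb := (@Lb.g g4 (@Lb.g g9 (@Lb.r r1158 (@Lb.r r2136 (@Lb.r r405 (@Lb.r r1635 (@Lb.d (nat_lit 2) (nat_lit 10) (nat_lit 18) (@Lb.fm (nat_lit 3) t1592))))))))
noncomputable def l39891 : Lb := (@Lb.d (nat_lit 1) (nat_lit 522) (nat_lit 136) (@Lb.g g8 (@Lb.g g9 (@Lb.g g11 (@Lb.r r1162 (@Lb.r r1188 (@Lb.r r405 (@Lb.r r1635 (@Lb.d (nat_lit 2) (nat_lit 0) (nat_lit 405) (@Lb.t (@Lb.fm (nat_lit 9) t642)))))))))))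
noncomputable def l39892 : Lb := (@Lb.d (nat_lit 33) (nat_lit 516) (nat_lit 128) (@Lb.g g8 (@Lb.g g9 (@Lb.g g10 (@Lb.g g11 (@Lb.r r1707 (@Lb.r r657 (@Lb.r r356 (@Lb.r r1690 (@Lb.r r1156 (@Lb.d (nat_lit 73) (nat_lit 34) (nat_lit 289) (@Lb.fp (nat_lit 9) t4626))))))))))))
noncomputable def l39893 : Lb := (@Lb.d (nat_lit 0) (nat_lit 0) (nat_lit 137) (@Lb.g g8 (@Lb.g g10 (@Lb.g g7 (@Lb.r r386 (@Lb.d (nat_lit 10) (nat_lit 2) (nat_lit 9) (@Lb.t (@Lb.fm (nat_lit 9) t2))))))))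
noncomputable def l39894 : Lb := (@Lb.d (nat_lit 0) (nat_lit 2) (nat_lit 130) (@Lb.g g8 (@Lb.g g9 (@Lb.g g10 (@Lb.g g11 (@Lb.r r610 (@Lb.r r2667 (@Lb.r r97 (@Lb.r r2564 (@Lb.d (nat_lit 553) (nat_lit 137) (nat_lit 22) (@Lb.fp (nat_lit 9) t461)))))))))))
noncomputable def l39895 : Lb := (@Lb.d (nat_lit 36) (nat_lit 33) (nat_lit 0) (@Lb.g g5 (@Lb.g g10 (@Lb.r r515 (@Lb.r r328 (@Lb.r r326 (@Lb.d (nat_lit 146) (nat_lit 32) (nat_lit 8) (@Lb.fp (nat_lit 3) t242))))))))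
noncomputable def l39896 : Lb := (@Lb.d (nat_lit 0) (nat_lit 2) (nat_lit 130) (@Lb.g g9 (@Lb.g g10 (@Lb.g g11 (@Lb.r r1443 (@Lb.r r536 (@Lb.r r357 (@Lb.r r154 (@Lb.r r132 (@Lb.d (nat_lit 86) (nat_lit 137) (nat_lit 137) (@Lb.t (@Lb.fp (nat_lit 9) t222))))))))))))
noncomputable def l39897 : Lb := (@Lb.d (nat_lit 10) (nat_lit 129) (nat_lit 6) (@Lb.r r323 (@Lb.g g6 (@Lb.d (nat_lit 0) (nat_lit 4) (nat_lit 9) (@Lb.r r387 (@Lb.t (@Lb.fm (nat_lit 3) t45)))))))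
noncomputable def l39898 : Lb := (@Lb.d (nat_lit 2) (nat_lit 514) (nat_lit 2) (@Lb.g g8 (@Lb.g g9 (@Lb.g g10 (@Lb.r r515 (@Lb.r r297 (@Lb.r r104 (@Lb.r r70 (@Lb.r r132 (@Lb.d (nat_lit 66) (nat_lit 10) (nat_lit 73) (@Lb.t (@Lb.fp (nat_lit 9) t242))))))))))))
noncomputable def l39899 : Lb := (@Lb.d (nat_lit 616) (nat_lit 294) (nat_lit 20) (@Lb.r r2661 (@Lb.r r2659 (@Lb.g g7 (@Lb.g g10 (@Lb.g g5 (@Lb.d (nat_lit 0) (nat_lit 1) (nat_lit 81) (@Lb.r r36 (@Lb.t (@Lb.fm (nat_lit 9) t820))))))))))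
noncomputable def l39900 : Lb := (@Lb.d (nat_lit 9) (nat_lit 513) (nat_lit 130) (@Lb.g g8 (@Lb.g g9 (@Lb.g g10 (@Lb.g g11 (@Lb.r r1379 (@Lb.r r386 (@Lb.r r40 (@Lb.r r105 (@Lb.r r1060 (@Lb.d (nat_lit 34) (nat_lit 10) (nat_lit 101) (@Lb.fm (nat_lit 9) t61))))))))))))
noncomputable def l39901 : Lb := (@Lb.r r82 (@Lb.d (nat_lit 8) (nat_lit 33) (nat_lit 128) (@Lb.g g9 (@Lb.g g11 (@Lb.r r555 (@Lb.r r2458 (@Lb.r r2452 (@Lb.r r1705 (@Lb.d (nat_lit 128) (nat_lit 0) (nat_lit 281) (@Lb.fp (nat_lit 3) t4337))))))))))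
noncomputable def l39902 : Lb := (@Lb.r r82 (@Lb.r r275 (@Lb.d (nat_lit 128) (nat_lit 262) (nat_lit 0) (@Lb.g g8 (@Lb.g g9 (@Lb.r r263 (@Lb.r r98 (@Lb.r r1572 (@Lb.d (nat_lit 393) (nat_lit 146) (nat_lit 658) (@Lb.fm (nat_lit 3) t6927))))))))))
noncomputable def l39903 : Lb := (@Lb.d (nat_lit 32) (nat_lit 2) (nat_lit 73) (@Lb.g g9 (@Lb.g g10 (@Lb.g g11 (@Lb.r r2695 (@Lb.r r1320 (@Lb.r r2201 (@Lb.r r2650 (@Lb.d (nat_lit 360) (nat_lit 36) (nat_lit 340) (@Lb.t (@Lb.fm (nat_lit 9) t6928)))))))))))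
noncomputable def l39904 : Lb := (@Lb.d (nat_lit 0) (nat_lit 516) (nat_lit 138) (@Lb.g g9 (@Lb.g g10 (@Lb.g g11 (@Lb.r r679 (@Lb.r r1685 (@Lb.r r2404 (@Lb.r r1610 (@Lb.d (nat_lit 609) (nat_lit 105) (nat_lit 257) (@Lb.t (@Lb.fp (nat_lit 9) t3081)))))))))))
noncomputable def l39905 : Lb := (@Lb.d (nat_lit 545) (nat_lit 518) (nat_lit 128) (@Lb.g g8 (@Lb.g g9 (@Lb.g g10 (@Lb.g g11 (@Lb.r r2443 (@Lb.r r1177 (@Lb.r r2458 (@Lb.d (nat_lit 153) (nat_lit 149) (nat_lit 84) (@Lb.fm (nat_lit 9) t4178))))))))))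
noncomputable def l39906 : Lb := (@Lb.g g4 (@Lb.r r1158 (@Lb.r r2136 (@Lb.r r405 (@Lb.r r1635 (@Lb.d (nat_lit 0) (nat_lit 256) (nat_lit 16) (@Lb.t (@Lb.fp (nat_lit 3) t1594))))))))
noncomputable def l39907 : Lb := (@Lb.d (nat_lit 273) (nat_lit 289) (nat_lit 0) (@Lb.g g4 (@Lb.g g9 (@Lb.r r339 (@Lb.r r2658 (@Lb.r r609 (@Lb.d (nat_lit 1) (nat_lit 42) (nat_lit 650) (@Lb.fm (nat_lit 3) t1818))))))))
noncomputable def l39908 : Lb := (@Lb.r r82 (@Lb.d (nat_lit 0) (nat_lit 264) (nat_lit 128) (@Lb.g g9 (@Lb.g g11 (@Lb.r r2339 (@Lb.r r386 (@Lb.d (nat_lit 0) (nat_lit 73) (nat_lit 128) (@Lb.fp (nat_lit 3) t6929))))))))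
noncomputable def l39909 : Lb := (@Lb.d (nat_lit 0) (nat_lit 297) (nat_lit 134) (@Lb.g g9 (@Lb.g g10 (@Lb.g g11 (@Lb.r r2711 (@Lb.r r1685 (@Lb.r r1384 (@Lb.r r2198 (@Lb.d (nat_lit 34) (nat_lit 9) (nat_lit 2) (@Lb.t (@Lb.fp (nat_lit 9) t6930)))))))))))
noncomputable def l39910 : Lb := (@Lb.d (nat_lit 0) (nat_lit 297) (nat_lit 65) (@Lb.g g9 (@Lb.g g10 (@Lb.g g11 (@Lb.r r2339 (@Lb.r r1634 (@Lb.r r2145 (@Lb.d (nat_lit 0) (nat_lit 66) (nat_lit 328) (@Lb.t (@Lb.fp (nat_lit 9) t6931))))))))))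
noncomputable def l39911 : Lb := (@Lb.d (nat_lit 2) (nat_lit 2) (nat_lit 0) (@Lb.g g8 (@Lb.g g9 (@Lb.r r406 (@Lb.r r2659 (@Lb.r r25 (@Lb.d (nat_lit 260) (nat_lit 146) (nat_lit 64) (@Lb.fm (nat_lit 3) t4420))))))))
noncomputable def l39912 : Lb := (@Lb.d (nat_lit 8) (nat_lit 514) (nat_lit 66) (@Lb.g g8 (@Lb.g g9 (@Lb.g g10 (@Lb.g g7 (@Lb.r r386 (@Lb.r r2073 (@Lb.r r2196 (@Lb.d (nat_lit 533) (nat_lit 133) (nat_lit 10) (@Lb.fp (nat_lit 9) t3792))))))))))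
noncomputable def l39913 : Lb := (@Lb.d (nat_lit 32) (nat_lit 2) (nat_lit 130) (@Lb.g g9 (@Lb.g g10 (@Lb.g g11 (@Lb.r r1447 (@Lb.r r293 (@Lb.r r72 (@Lb.r r150 (@Lb.d (nat_lit 533) (nat_lit 10) (nat_lit 360) (@Lb.t (@Lb.fp (nat_lit 9) t88)))))))))))
noncomputable def l39914 : Lb := (@Lb.d (nat_lit 132) (nat_lit 0) (nat_lit 130) (@Lb.g g8 (@Lb.g g9 (@Lb.g g10 (@Lb.g g11 (@Lb.r r1666 (@Lb.r r1411 (@Lb.r r1129 (@Lb.r r2084 (@Lb.d (nat_lit 42) (nat_lit 66) (nat_lit 361) (@Lb.fp (nat_lit 9) t6932)))))))))))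
noncomputable def l39915 : Lb := (@Lb.d (nat_lit 32) (nat_lit 256) (nat_lit 2) (@Lb.g g6 (@Lb.r r24 (@Lb.r r2341 (@Lb.r r659 (@Lb.r r2706 (@Lb.d (nat_lit 0) (nat_lit 84) (nat_lit 426) (@Lb.t (@Lb.fm (nat_lit 3) t87)))))))))
noncomputable def l39916 : Lb := (@Lb.r r386 (@Lb.r r1347 (@Lb.r r578 (@Lb.r r24 (@Lb.r r101 (@Lb.d (nat_lit 0) (nat_lit 514) (nat_lit 70) (@Lb.fm (nat_lit 1) t87)))))))
noncomputable def l39917 : Lb := (@Lb.r r81 (@Lb.d (nat_lit 10) (nat_lit 512) (nat_lit 73) (@Lb.g g8 (@Lb.g g6 (@Lb.g g11 (@Lb.r r2657 (@Lb.r r2731 (@Lb.r r2696 (@Lb.d (nat_lit 361) (nat_lit 128) (nat_lit 421) (@Lb.t (@Lb.fm (nat_lit 9) t125)))))))))))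
noncomputable def l39918 : Lb := (@Lb.d (nat_lit 2) (nat_lit 512) (nat_lit 73) (@Lb.g g8 (@Lb.g g9 (@Lb.g g10 (@Lb.g g11 (@Lb.r r1675 (@Lb.r r1317 (@Lb.r r1688 (@Lb.r r1610 (@Lb.d (nat_lit 408) (nat_lit 41) (nat_lit 392) (@Lb.fm (nat_lit 9) t790)))))))))))
noncomputable def l39919 : Lb := (@Lb.r r81 (@Lb.d (nat_lit 9) (nat_lit 256) (nat_lit 73) (@Lb.g g8 (@Lb.g g6 (@Lb.g g11 (@Lb.r r2657 (@Lb.r r2731 (@Lb.r r2696 (@Lb.d (nat_lit 361) (nat_lit 128) (nat_lit 352) (@Lb.t (@Lb.fm (nat_lit 9) t125)))))))))))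
noncomputable def l39920 : Lb := (@Lb.d (nat_lit 2) (nat_lit 258) (nat_lit 130) (@Lb.g g8 (@Lb.g g9 (@Lb.g g10 (@Lb.g g11 (@Lb.r r2595 (@Lb.r r386 (@Lb.r r612 (@Lb.r r533 (@Lb.r r2084 (@Lb.d (nat_lit 64) (nat_lit 10) (nat_lit 537) (@Lb.fp (nat_lit 9) t5192))))))))))))
noncomputable def l39921 : Lb := (@Lb.d (nat_lit 2) (nat_lit 516) (nat_lit 128) (@Lb.g g8 (@Lb.g g9 (@Lb.g g10 (@Lb.g g11 (@Lb.r r427 (@Lb.r r106 (@Lb.r r25 (@Lb.d (nat_lit 289) (nat_lit 10) (nat_lit 168) (@Lb.fp (nat_lit 9) t1613))))))))))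
noncomputable def l39922 : Lb := (@Lb.d (nat_lit 2) (nat_lit 2) (nat_lit 66) (@Lb.g g8 (@Lb.g g9 (@Lb.g g10 (@Lb.g g11 (@Lb.r r427 (@Lb.r r106 (@Lb.r r97 (@Lb.d (nat_lit 265) (nat_lit 4) (nat_lit 168) (@Lb.fm (nat_lit 9) t1022))))))))))
noncomputable def l39923 : Lb := (@Lb.d (nat_lit 2) (nat_lit 258) (nat_lit 130) (@Lb.g g8 (@Lb.g g9 (@Lb.g g10 (@Lb.g g11 (@Lb.r r427 (@Lb.r r106 (@Lb.r r97 (@Lb.d (nat_lit 265) (nat_lit 4) (nat_lit 33) (@Lb.fm (nat_lit 9) t1022))))))))))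
noncomputable def l39924 : Lb := (@Lb.d (nat_lit 18) (nat_lit 256) (nat_lit 66) (@Lb.g g8 (@Lb.g g9 (@Lb.g g10 (@Lb.g g11 (@Lb.r r401 (@Lb.r r2667 (@Lb.r r2664 (@Lb.r r86 (@Lb.r r1177 (@Lb.d (nat_lit 1) (nat_lit 65) (nat_lit 297) (@Lb.fp (nat_lit 9) t1369))))))))))))
noncomputable def l39925 : Lb := (@Lb.d (nat_lit 529) (nat_lit 0) (nat_lit 73) (@Lb.g g4 (@Lb.g g9 (@Lb.g g10 (@Lb.g g11 (@Lb.r r1667 (@Lb.r r586 (@Lb.d (nat_lit 385) (nat_lit 0) (nat_lit 408) (@Lb.fp (nat_lit 9) t2491)))))))))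
noncomputable def l39926 : Lb := (@Lb.d (nat_lit 9) (nat_lit 294) (nat_lit 64) (@Lb.g g8 (@Lb.g g9 (@Lb.g g10 (@Lb.g g11 (@Lb.r r2731 (@Lb.r r1610 (@Lb.r r1441 (@Lb.r r2564 (@Lb.d (nat_lit 417) (nat_lit 132) (nat_lit 153) (@Lb.fp (nat_lit 9) t6933)))))))))))
noncomputable def l39927 : Lb := (@Lb.d (nat_lit 8) (nat_lit 2) (nat_lit 130) (@Lb.g g9 (@Lb.g g10 (@Lb.g g11 (@Lb.r r166 (@Lb.r r584 (@Lb.r r619 (@Lb.r r609 (@Lb.d (nat_lit 10) (nat_lit 84) (nat_lit 84) (@Lb.t (@Lb.fm (nat_lit 9) t988)))))))))))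
noncomputable def l39928 : Lb := (@Lb.d (nat_lit 129) (nat_lit 516) (nat_lit 128) (@Lb.g g8 (@Lb.g g9 (@Lb.g g10 (@Lb.g g11 (@Lb.r r1706 (@Lb.r r1411 (@Lb.r r2657 (@Lb.r r1156 (@Lb.d (nat_lit 553) (nat_lit 89) (nat_lit 137) (@Lb.fp (nat_lit 9) t6934)))))))))))
noncomputable def l39929 : Lb := (@Lb.d (nat_lit 642) (nat_lit 514) (nat_lit 66) (@Lb.g g8 (@Lb.g g9 (@Lb.g g10 (@Lb.g g11 (@Lb.r r1451 (@Lb.r r106 (@Lb.r r97 (@Lb.d (nat_lit 265) (nat_lit 9) (nat_lit 409) (@Lb.fm (nat_lit 9) t6935))))))))))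
noncomputable def l39930 : Lb := (@Lb.d (nat_lit 130) (nat_lit 514) (nat_lit 130) (@Lb.g g8 (@Lb.g g9 (@Lb.g g10 (@Lb.g g11 (@Lb.r r419 (@Lb.r r1156 (@Lb.r r2438 (@Lb.r r25 (@Lb.d (nat_lit 617) (nat_lit 73) (nat_lit 649) (@Lb.fm (nat_lit 9) t3353)))))))))))
noncomputable def l39931 : Lb := (@Lb.d (nat_lit 32) (nat_lit 0) (nat_lit 130) (@Lb.g g9 (@Lb.g g10 (@Lb.g g11 (@Lb.r r1707 (@Lb.r r2713 (@Lb.r r100 (@Lb.r r410 (@Lb.d (nat_lit 649) (nat_lit 89) (nat_lit 153) (@Lb.t (@Lb.fm (nat_lit 9) t284)))))))))))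
noncomputable def l39932 : Lb := (@Lb.d (nat_lit 2) (nat_lit 289) (nat_lit 66) (@Lb.g g8 (@Lb.g g9 (@Lb.g g10 (@Lb.g g11 (@Lb.r r673 (@Lb.r r1447 (@Lb.r r386 (@Lb.r r24 (@Lb.d (nat_lit 406) (nat_lit 81) (nat_lit 321) (@Lb.fm (nat_lit 9) t811)))))))))))
noncomputable def l39933 : Lb := (@Lb.d (nat_lit 4) (nat_lit 256) (nat_lit 73) (@Lb.g g8 (@Lb.g g9 (@Lb.g g10 (@Lb.g g11 (@Lb.r r427 (@Lb.r r1634 (@Lb.r r292 (@Lb.r r2069 (@Lb.r r1060 (@Lb.d (nat_lit 614) (nat_lit 152) (nat_lit 261) (@Lb.fp (nat_lit 9) t4045))))))))))))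
noncomputable def l39934 : Lb := (@Lb.d (nat_lit 409) (nat_lit 265) (nat_lit 129) (@Lb.g g8 (@Lb.g g9 (@Lb.g g10 (@Lb.g g11 (@Lb.r r1451 (@Lb.r r1177 (@Lb.r r2194 (@Lb.d (nat_lit 288) (nat_lit 74) (nat_lit 257) (@Lb.fm (nat_lit 9) t6936))))))))))
noncomputable def l39935 : Lb := (@Lb.d (nat_lit 409) (nat_lit 521) (nat_lit 129) (@Lb.g g8 (@Lb.g g9 (@Lb.g g10 (@Lb.g g11 (@Lb.r r1451 (@Lb.r r1177 (@Lb.r r2194 (@Lb.d (nat_lit 288) (nat_lit 74) (nat_lit 392) (@Lb.fm (nat_lit 9) t6937))))))))))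
noncomputable def l39936 : Lb := (@Lb.d (nat_lit 358) (nat_lit 90) (nat_lit 341) (@Lb.r r2085 (@Lb.r r1112 (@Lb.r r2386 (@Lb.r r1319 (@Lb.g g7 (@Lb.g g6 (@Lb.g g5 (@Lb.d (nat_lit 0) (nat_lit 24) (nat_lit 72) (@Lb.t (@Lb.fp (nat_lit 9) t3199)))))))))))
noncomputable def l39937 : Lb := (@Lb.r r21 (@Lb.r r323 (@Lb.d (nat_lit 34) (nat_lit 256) (nat_lit 1) (@Lb.g g8 (@Lb.g g10 (@Lb.r r1291 (@Lb.r r132 (@Lb.r r2182 (@Lb.r r25 (@Lb.d (nat_lit 273) (nat_lit 0) (nat_lit 0) (@Lb.fp (nat_lit 3) t321)))))))))))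
noncomputable def l39938 : Lb := (@Lb.d (nat_lit 130) (nat_lit 258) (nat_lit 66) (@Lb.g g8 (@Lb.g g9 (@Lb.g g10 (@Lb.g g11 (@Lb.r r2323 (@Lb.r r2705 (@Lb.r r598 (@Lb.r r392 (@Lb.d (nat_lit 592) (nat_lit 2) (nat_lit 330) (@Lb.fm (nat_lit 9) t1347)))))))))))
noncomputable def l39939 : Lb := (@Lb.d (nat_lit 150) (nat_lit 324) (nat_lit 273) (@Lb.r r1414 (@Lb.r r2395 (@Lb.g g7 (@Lb.g g6 (@Lb.g g5 (@Lb.d (nat_lit 4) (nat_lit 1) (nat_lit 128) (@Lb.t (@Lb.fm (nat_lit 9) t4685)))))))))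
noncomputable def l39940 : Lb := (@Lb.d (nat_lit 410) (nat_lit 394) (nat_lit 274) (@Lb.r r24 (@Lb.r r402 (@Lb.r r579 (@Lb.g g11 (@Lb.g g6 (@Lb.fm (nat_lit 3) t6938)))))))
noncomputable def l39941 : Lb := (@Lb.r r2129 (@Lb.r r323 (@Lb.d (nat_lit 129) (nat_lit 0) (nat_lit 18) (@Lb.g g8 (@Lb.g g6 (@Lb.r r391 (@Lb.r r580 (@Lb.d (nat_lit 146) (nat_lit 0) (nat_lit 84) (@Lb.fp (nat_lit 3) t892)))))))))
noncomputable def l39942 : Lb := (@Lb.r r82 (@Lb.r r275 (@Lb.d (nat_lit 0) (nat_lit 257) (nat_lit 0) (@Lb.g g5 (@Lb.r r291 (@Lb.r r98 (@Lb.d (nat_lit 5) (nat_lit 0) (nat_lit 64) (@Lb.t (@Lb.fm (nat_lit 3) t6939)))))))))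
noncomputable def l39943 : Lb := (@Lb.d (nat_lit 0) (nat_lit 132) (nat_lit 66) (@Lb.r r37 (@Lb.r r1304 (@Lb.r r2375 (@Lb.g g6 (@Lb.d (nat_lit 0) (nat_lit 0) (nat_lit 33) (@Lb.r r145 (@Lb.r r132 (@Lb.t (@Lb.fm (nat_lit 3) t1246))))))))))
noncomputable def l39944 : Lb := (@Lb.d (nat_lit 2) (nat_lit 5) (nat_lit 74) (@Lb.g g8 (@Lb.g g5 (@Lb.g g10 (@Lb.g g11 (@Lb.r r1691 (@Lb.r r578 (@Lb.r r24 (@Lb.d (nat_lit 84) (nat_lit 2) (nat_lit 408) (@Lb.fm (nat_lit 9) t1919))))))))))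
noncomputable def l39945 : Lb := (@Lb.d (nat_lit 8) (nat_lit 514) (nat_lit 0) (@Lb.g g5 (@Lb.r r168 (@Lb.r r2714 (@Lb.r r1703 (@Lb.r r1573 (@Lb.d (nat_lit 130) (nat_lit 1) (nat_lit 640) (@Lb.t (@Lb.fm (nat_lit 3) t3150)))))))))
noncomputable def l39946 : Lb := (@Lb.d (nat_lit 2) (nat_lit 264) (nat_lit 128) (@Lb.g g8 (@Lb.g g10 (@Lb.g g11 (@Lb.r r357 (@Lb.r r2459 (@Lb.r r2378 (@Lb.d (nat_lit 673) (nat_lit 10) (nat_lit 677) (@Lb.t (@Lb.fp (nat_lit 9) t145))))))))))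
noncomputable def l39947 : Lb := (@Lb.d (nat_lit 8) (nat_lit 258) (nat_lit 0) (@Lb.g g5 (@Lb.r r168 (@Lb.r r2714 (@Lb.r r1703 (@Lb.r r1573 (@Lb.d (nat_lit 132) (nat_lit 2) (nat_lit 640) (@Lb.t (@Lb.fm (nat_lit 3) t2367)))))))))
noncomputable def l39948 : Lb := (@Lb.r r21 (@Lb.d (nat_lit 17) (nat_lit 0) (nat_lit 128) (@Lb.g g4 (@Lb.g g10 (@Lb.g g11 (@Lb.r r1687 (@Lb.r r1602 (@Lb.r r97 (@Lb.d (nat_lit 609) (nat_lit 132) (nat_lit 152) (@Lb.t (@Lb.fp (nat_lit 9) t898)))))))))))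
noncomputable def l39949 : Lb := (@Lb.r r70 (@Lb.d (nat_lit 36) (nat_lit 576) (nat_lit 0) (@Lb.g g8 (@Lb.g g9 (@Lb.r r1611 (@Lb.r r2454 (@Lb.r r2632 (@Lb.d (nat_lit 148) (nat_lit 64) (nat_lit 9) (@Lb.fp (nat_lit 3) t6940)))))))))
noncomputable def l39950 : Lb := (@Lb.d (nat_lit 130) (nat_lit 2) (nat_lit 0) (@Lb.g g8 (@Lb.g g9 (@Lb.r r263 (@Lb.r r146 (@Lb.r r97 (@Lb.r r520 (@Lb.d (nat_lit 66) (nat_lit 161) (nat_lit 534) (@Lb.fp (nat_lit 3) t44)))))))))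
noncomputable def l39951 : Lb := (@Lb.d (nat_lit 132) (nat_lit 576) (nat_lit 64) (@Lb.g g9 (@Lb.g g11 (@Lb.r r2148 (@Lb.r r1450 (@Lb.r r2663 (@Lb.d (nat_lit 25) (nat_lit 37) (nat_lit 553) (@Lb.fm (nat_lit 3) t2367))))))))
noncomputable def l39952 : Lb := (@Lb.d (nat_lit 2) (nat_lit 5) (nat_lit 0) (@Lb.g g8 (@Lb.g g5 (@Lb.g g10 (@Lb.r r1691 (@Lb.r r1610 (@Lb.d (nat_lit 102) (nat_lit 153) (nat_lit 537) (@Lb.t (@Lb.fm (nat_lit 9) t98)))))))))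
noncomputable def l39953 : Lb := (@Lb.r r82 (@Lb.d (nat_lit 2) (nat_lit 514) (nat_lit 128) (@Lb.g g8 (@Lb.g g9 (@Lb.g g11 (@Lb.r r299 (@Lb.r r89 (@Lb.r r98 (@Lb.d (nat_lit 277) (nat_lit 8) (nat_lit 170) (@Lb.t (@Lb.fm (nat_lit 9) t1613)))))))))))
noncomputable def l39954 : Lb := (@Lb.d (nat_lit 1) (nat_lit 2) (nat_lit 66) (@Lb.g g8 (@Lb.g g9 (@Lb.g g10 (@Lb.g g11 (@Lb.r r2327 (@Lb.r r1689 (@Lb.r r2200 (@Lb.r r2122 (@Lb.d (nat_lit 665) (nat_lit 34) (nat_lit 420) (@Lb.fm (nat_lit 9) t6941)))))))))))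
noncomputable def l39955 : Lb := (@Lb.d (nat_lit 0) (nat_lit 422) (nat_lit 20) (@Lb.r r8 (@Lb.r r2657 (@Lb.r r611 (@Lb.g g7 (@Lb.g g10 (@Lb.g g5 (@Lb.d (nat_lit 0) (nat_lit 6) (nat_lit 82) (@Lb.t (@Lb.fp (nat_lit 9) t324))))))))))
noncomputable def l39956 : Lb := (@Lb.d (nat_lit 9) (nat_lit 544) (nat_lit 66) (@Lb.g g8 (@Lb.g g9 (@Lb.g g10 (@Lb.g g11 (@Lb.r r2312 (@Lb.r r2727 (@Lb.r r1378 (@Lb.r r1381 (@Lb.d (nat_lit 132) (nat_lit 4) (nat_lit 166) (@Lb.fm (nat_lit 9) t1050)))))))))))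
noncomputable def l39957 : Lb := (@Lb.r r323 (@Lb.d (nat_lit 0) (nat_lit 516) (nat_lit 22) (@Lb.g g10 (@Lb.r r2705 (@Lb.r r403 (@Lb.r r2596 (@Lb.d (nat_lit 10) (nat_lit 169) (nat_lit 258) (@Lb.t (@Lb.fp (nat_lit 3) t303)))))))))
noncomputable def l39958 : Lb := (@Lb.r r68 (@Lb.r r81 (@Lb.d (nat_lit 0) (nat_lit 544) (nat_lit 170) (@Lb.g g10 (@Lb.g g11 (@Lb.r r2453 (@Lb.r r1315 (@Lb.r r584 (@Lb.d (nat_lit 288) (nat_lit 2) (nat_lit 265) (@Lb.fp (nat_lit 3) t1940))))))))))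
noncomputable def l39959 : Lb := (@Lb.r r21 (@Lb.r r331 (@Lb.d (nat_lit 33) (nat_lit 512) (nat_lit 21) (@Lb.g g8 (@Lb.g g10 (@Lb.r r343 (@Lb.r r1445 (@Lb.r r2664 (@Lb.d (nat_lit 660) (nat_lit 8) (nat_lit 8) (@Lb.fm (nat_lit 3) t6942))))))))))
noncomputable def l39960 : Lb := (@Lb.r r82 (@Lb.r r275 (@Lb.d (nat_lit 2) (nat_lit 1) (nat_lit 0) (@Lb.g g8 (@Lb.g g5 (@Lb.r r291 (@Lb.r r386 (@Lb.r r24 (@Lb.d (nat_lit 0) (nat_lit 34) (nat_lit 5) (@Lb.fp (nat_lit 3) t510))))))))))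
noncomputable def l39961 : Lb := (@Lb.d (nat_lit 166) (nat_lit 386) (nat_lit 532) (@Lb.r r72 (@Lb.r r386 (@Lb.r r599 (@Lb.g g6 (@Lb.g g5 (@Lb.g g4 (@Lb.d (nat_lit 65) (nat_lit 17) (nat_lit 1) (@Lb.t (@Lb.fm (nat_lit 9) t4297))))))))))
noncomputable def l39962 : Lb := (@Lb.d (nat_lit 1) (nat_lit 256) (nat_lit 73) (@Lb.g g8 (@Lb.g g9 (@Lb.g g10 (@Lb.g g11 (@Lb.r r419 (@Lb.r r1188 (@Lb.r r1446 (@Lb.r r1425 (@Lb.d (nat_lit 297) (nat_lit 89) (nat_lit 356) (@Lb.fm (nat_lit 9) t1242)))))))))))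
noncomputable def l39963 : Lb := (@Lb.d (nat_lit 129) (nat_lit 2) (nat_lit 130) (@Lb.g g8 (@Lb.g g9 (@Lb.g g10 (@Lb.g g11 (@Lb.r r419 (@Lb.r r164 (@Lb.r r2438 (@Lb.r r97 (@Lb.d (nat_lit 361) (nat_lit 40) (nat_lit 601) (@Lb.fp (nat_lit 9) t3270)))))))))))
noncomputable def l39964 : Lb := (@Lb.d (nat_lit 336) (nat_lit 592) (nat_lit 166) (@Lb.r r1096 (@Lb.r r1686 (@Lb.r r2665 (@Lb.r r2691 (@Lb.g g7 (@Lb.g g6 (@Lb.g g5 (@Lb.d (nat_lit 0) (nat_lit 1) (nat_lit 65) (@Lb.t (@Lb.fp (nat_lit 9) t3293)))))))))))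
noncomputable def l39965 : Lb := (@Lb.d (nat_lit 18) (nat_lit 534) (nat_lit 66) (@Lb.r r386 (@Lb.r r531 (@Lb.r r341 (@Lb.g g7 (@Lb.g g6 (@Lb.g g5 (@Lb.g g4 (@Lb.d (nat_lit 6) (nat_lit 25) (nat_lit 128) (@Lb.fp (nat_lit 9) t151))))))))))
noncomputable def l39966 : Lb := (@Lb.r r323 (@Lb.d (nat_lit 2) (nat_lit 514) (nat_lit 2) (@Lb.g g8 (@Lb.g g9 (@Lb.g g10 (@Lb.r r1363 (@Lb.r r2217 (@Lb.r r424 (@Lb.r r394 (@Lb.d (nat_lit 593) (nat_lit 0) (nat_lit 20) (@Lb.t (@Lb.fp (nat_lit 9) t1146))))))))))))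
noncomputable def l39967 : Lb := (@Lb.r r82 (@Lb.d (nat_lit 134) (nat_lit 273) (nat_lit 128) (@Lb.g g8 (@Lb.g g9 (@Lb.g g11 (@Lb.r r2721 (@Lb.r r1112 (@Lb.r r358 (@Lb.r r2443 (@Lb.d (nat_lit 545) (nat_lit 152) (nat_lit 661) (@Lb.t (@Lb.fm (nat_lit 9) t2663))))))))))))
noncomputable def l39968 : Lb := (@Lb.d (nat_lit 548) (nat_lit 386) (nat_lit 106) (@Lb.r r2372 (@Lb.r r1435 (@Lb.r r2649 (@Lb.r r358 (@Lb.g g7 (@Lb.g g6 (@Lb.g g4 (@Lb.d (nat_lit 10) (nat_lit 0) (nat_lit 65) (@Lb.t (@Lb.fp (nat_lit 9) t594)))))))))))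
noncomputable def l39969 : Lb := (@Lb.r r166 (@Lb.r r149 (@Lb.r r356 (@Lb.r r2571 (@Lb.r r2564 (@Lb.d (nat_lit 0) (nat_lit 273) (nat_lit 0) (@Lb.fp (nat_lit 1) t71)))))))
noncomputable def l39970 : Lb := (@Lb.d (nat_lit 2) (nat_lit 9) (nat_lit 1) (@Lb.g g8 (@Lb.g g9 (@Lb.g g10 (@Lb.r r683 (@Lb.r r2666 (@Lb.r r2585 (@Lb.r r2564 (@Lb.d (nat_lit 644) (nat_lit 8) (nat_lit 417) (@Lb.t (@Lb.fp (nat_lit 9) t4508)))))))))))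
noncomputable def l39971 : Lb := (@Lb.d (nat_lit 2) (nat_lit 33) (nat_lit 66) (@Lb.g g8 (@Lb.g g9 (@Lb.g g10 (@Lb.g g11 (@Lb.r r1706 (@Lb.r r676 (@Lb.r r551 (@Lb.r r533 (@Lb.r r1060 (@Lb.d (nat_lit 386) (nat_lit 9) (nat_lit 585) (@Lb.fp (nat_lit 9) t597))))))))))))
noncomputable def l39972 : Lb := (@Lb.d (nat_lit 133) (nat_lit 256) (nat_lit 73) (@Lb.g g8 (@Lb.g g9 (@Lb.g g10 (@Lb.g g11 (@Lb.r r419 (@Lb.r r2694 (@Lb.r r97 (@Lb.r r516 (@Lb.d (nat_lit 38) (nat_lit 8) (nat_lit 89) (@Lb.fp (nat_lit 9) t3270)))))))))))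
noncomputable def l39973 : Lb := (@Lb.d (nat_lit 0) (nat_lit 512) (nat_lit 130) (@Lb.g g9 (@Lb.g g10 (@Lb.g g11 (@Lb.r r614 (@Lb.r r2659 (@Lb.r r101 (@Lb.r r2564 (@Lb.d (nat_lit 517) (nat_lit 25) (nat_lit 2) (@Lb.t (@Lb.fm (nat_lit 9) t461)))))))))))
noncomputable def l39974 : Lb := (@Lb.r r323 (@Lb.d (nat_lit 138) (nat_lit 256) (nat_lit 18) (@Lb.g g8 (@Lb.g g10 (@Lb.r r615 (@Lb.r r533 (@Lb.r r1060 (@Lb.d (nat_lit 264) (nat_lit 137) (nat_lit 401) (@Lb.fp (nat_lit 3) t2838)))))))))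
noncomputable def l39975 : Lb := (@Lb.r r20 (@Lb.r r105 (@Lb.r r36 (@Lb.d (nat_lit 0) (nat_lit 657) (nat_lit 426) (@Lb.fm (nat_lit 1) t2781)))))
noncomputable def l39976 : Lb := (@Lb.d (nat_lit 401) (nat_lit 553) (nat_lit 282) (@Lb.r r610 (@Lb.r r617 (@Lb.r r424 (@Lb.g g11 (@Lb.g g6 (@Lb.d (nat_lit 32) (nat_lit 0) (nat_lit 129) (@Lb.fp (nat_lit 3) t835))))))))
noncomputable def l39977 : Lb := (@Lb.d (nat_lit 401) (nat_lit 256) (nat_lit 406) (@Lb.r r20 (@Lb.r r105 (@Lb.r r36 (@Lb.r r386 (@Lb.g g11 (@Lb.g g6 (@Lb.g g5 (@Lb.g g4 (@Lb.d (nat_lit 0) (nat_lit 0) (nat_lit 1) (@Lb.fm (nat_lit 9) t6943)))))))))))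
noncomputable def l39978 : Lb := (@Lb.d (nat_lit 401) (nat_lit 553) (nat_lit 410) (@Lb.r r610 (@Lb.r r617 (@Lb.r r424 (@Lb.g g11 (@Lb.g g6 (@Lb.d (nat_lit 32) (nat_lit 0) (nat_lit 1) (@Lb.fp (nat_lit 3) t6497))))))))
noncomputable def l39979 : Lb := (@Lb.r r267 (@Lb.d (nat_lit 646) (nat_lit 512) (nat_lit 0) (@Lb.g g8 (@Lb.r r263 (@Lb.d (nat_lit 330) (nat_lit 0) (nat_lit 128) (@Lb.t (@Lb.fp (nat_lit 3) t828)))))))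
noncomputable def l39980 : Lb := (@Lb.r r21 (@Lb.r r326 (@Lb.d (nat_lit 528) (nat_lit 544) (nat_lit 644) (@Lb.g g4 (@Lb.g g7 (@Lb.r r2198 (@Lb.r r97 (@Lb.d (nat_lit 545) (nat_lit 130) (nat_lit 84) (@Lb.fm (nat_lit 3) t2745)))))))))
noncomputable def l39981 : Lb := (@Lb.d (nat_lit 2) (nat_lit 2) (nat_lit 73) (@Lb.g g8 (@Lb.g g9 (@Lb.g g10 (@Lb.g g11 (@Lb.r r1699 (@Lb.r r2216 (@Lb.r r2666 (@Lb.r r1553 (@Lb.d (nat_lit 277) (nat_lit 41) (nat_lit 584) (@Lb.fp (nat_lit 9) t6156)))))))))))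
noncomputable def l39982 : Lb := (@Lb.d (nat_lit 2) (nat_lit 258) (nat_lit 130) (@Lb.g g8 (@Lb.g g9 (@Lb.g g10 (@Lb.g g11 (@Lb.r r1699 (@Lb.r r164 (@Lb.r r614 (@Lb.r r533 (@Lb.r r2084 (@Lb.d (nat_lit 666) (nat_lit 133) (nat_lit 360) (@Lb.fm (nat_lit 9) t228))))))))))))
noncomputable def l39983 : Lb := (@Lb.r r1617 (@Lb.r r354 (@Lb.r r1427 (@Lb.r r1124 (@Lb.d (nat_lit 0) (nat_lit 344) (nat_lit 41) (@Lb.fp (nat_lit 1) t772))))))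
noncomputable def l39984 : Lb := (@Lb.d (nat_lit 2) (nat_lit 512) (nat_lit 64) (@Lb.g g8 (@Lb.g g11 (@Lb.r r1162 (@Lb.r r1188 (@Lb.r r661 (@Lb.r r2451 (@Lb.d (nat_lit 2) (nat_lit 101) (nat_lit 394) (@Lb.fp (nat_lit 3) t1592)))))))))
noncomputable def l39985 : Lb := (@Lb.d (nat_lit 0) (nat_lit 512) (nat_lit 64) (@Lb.g g10 (@Lb.g g7 (@Lb.r r289 (@Lb.r r535 (@Lb.r r328 (@Lb.r r134 (@Lb.fp (nat_lit 3) t40))))))))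
noncomputable def l39986 : Lb := (@Lb.d (nat_lit 361) (nat_lit 664) (nat_lit 640) (@Lb.r r337 (@Lb.r r2438 (@Lb.r r663 (@Lb.r r344 (@Lb.g g7 (@Lb.g g6 (@Lb.g g5 (@Lb.d (nat_lit 8) (nat_lit 1) (nat_lit 129) (@Lb.t (@Lb.fm (nat_lit 9) t6944)))))))))))
noncomputable def l39987 : Lb := (@Lb.d (nat_lit 128) (nat_lit 512) (nat_lit 128) (@Lb.g g11 (@Lb.r r597 (@Lb.r r292 (@Lb.r r1371 (@Lb.r r2178 (@Lb.d (nat_lit 137) (nat_lit 16) (nat_lit 138) (@Lb.t (@Lb.fm (nat_lit 3) t1767)))))))))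
noncomputable def l39988 : Lb := (@Lb.r r260 (@Lb.d (nat_lit 64) (nat_lit 514) (nat_lit 578) (@Lb.g g9 (@Lb.g g10 (@Lb.g g7 (@Lb.r r386 (@Lb.r r97 (@Lb.r r1048 (@Lb.d (nat_lit 74) (nat_lit 73) (nat_lit 585) (@Lb.t (@Lb.fm (nat_lit 9) t865)))))))))))
noncomputable def l39989 : Lb := (@Lb.d (nat_lit 640) (nat_lit 514) (nat_lit 130) (@Lb.g g4 (@Lb.g g9 (@Lb.g g10 (@Lb.g g11 (@Lb.r r677 (@Lb.r r423 (@Lb.r r2438 (@Lb.d (nat_lit 65) (nat_lit 72) (nat_lit 658) (@Lb.fm (nat_lit 9) t4013))))))))))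
noncomputable def l39990 : Lb := (@Lb.d (nat_lit 33) (nat_lit 512) (nat_lit 0) (@Lb.g g8 (@Lb.r r289 (@Lb.r r2579 (@Lb.r r582 (@Lb.r r2180 (@Lb.d (nat_lit 546) (nat_lit 5) (nat_lit 16) (@Lb.t (@Lb.fp (nat_lit 3) t4389)))))))))
noncomputable def l39991 : Lb := (@Lb.d (nat_lit 1) (nat_lit 578) (nat_lit 73) (@Lb.g g4 (@Lb.g g9 (@Lb.g g10 (@Lb.g g11 (@Lb.r r2658 (@Lb.r r579 (@Lb.d (nat_lit 640) (nat_lit 97) (nat_lit 10) (@Lb.fp (nat_lit 9) t1872)))))))))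
noncomputable def l39992 : Lb := (@Lb.d (nat_lit 2) (nat_lit 2) (nat_lit 73) (@Lb.g g8 (@Lb.g g9 (@Lb.g g10 (@Lb.g g11 (@Lb.r r2691 (@Lb.r r2216 (@Lb.r r1610 (@Lb.r r1313 (@Lb.d (nat_lit 401) (nat_lit 169) (nat_lit 600) (@Lb.fm (nat_lit 9) t1719)))))))))))
noncomputable def l39993 : Lb := (@Lb.d (nat_lit 2) (nat_lit 356) (nat_lit 513) (@Lb.r r273 (@Lb.r r1635 (@Lb.r r549 (@Lb.r r2214 (@Lb.g g7 (@Lb.g g6 (@Lb.g g5 (@Lb.g g8 (@Lb.d (nat_lit 320) (nat_lit 1) (nat_lit 65) (@Lb.fp (nat_lit 9) t6945)))))))))))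
noncomputable def l39994 : Lb := (@Lb.d (nat_lit 33) (nat_lit 0) (nat_lit 128) (@Lb.g g8 (@Lb.g g11 (@Lb.r r345 (@Lb.r r1638 (@Lb.r r615 (@Lb.r r408 (@Lb.d (nat_lit 298) (nat_lit 150) (nat_lit 681) (@Lb.fm (nat_lit 3) t2014)))))))))
noncomputable def l39995 : Lb := (@Lb.d (nat_lit 161) (nat_lit 513) (nat_lit 1) (@Lb.g g8 (@Lb.g g9 (@Lb.g g10 (@Lb.r r1433 (@Lb.r r359 (@Lb.r r2726 (@Lb.r r2216 (@Lb.d (nat_lit 424) (nat_lit 161) (nat_lit 585) (@Lb.t (@Lb.fm (nat_lit 9) t4997)))))))))))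
noncomputable def l39996 : Lb := (@Lb.d (nat_lit 0) (nat_lit 320) (nat_lit 528) (@Lb.r r24 (@Lb.r r1617 (@Lb.r r642 (@Lb.g g11 (@Lb.g g6 (@Lb.fp (nat_lit 3) t3905)))))))
noncomputable def l39997 : Lb := (@Lb.g g4 (@Lb.r r405 (@Lb.r r2454 (@Lb.r r2411 (@Lb.r r1124 (@Lb.d (nat_lit 514) (nat_lit 0) (nat_lit 528) (@Lb.t (@Lb.fp (nat_lit 3) t2014))))))))
noncomputable def l39998 : Lb := (@Lb.r r405 (@Lb.r r2454 (@Lb.r r2411 (@Lb.r r1124 (@Lb.d (nat_lit 514) (nat_lit 0) (nat_lit 528) (@Lb.fm (nat_lit 1) t2014))))))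
noncomputable def l39999 : Lb := (@Lb.d (nat_lit 2) (nat_lit 265) (nat_lit 72) (@Lb.g g8 (@Lb.g g9 (@Lb.g g10 (@Lb.g g11 (@Lb.r r1559 (@Lb.r r2454 (@Lb.r r420 (@Lb.r r293 (@Lb.d (nat_lit 74) (nat_lit 41) (nat_lit 104) (@Lb.fm (nat_lit 9) t5071)))))))))))
noncomputable def l40000 : Lb := (@Lb.d (nat_lit 0) (nat_lit 545) (nat_lit 128) (@Lb.r r24 (@Lb.r r1617 (@Lb.r r418 (@Lb.g g11 (@Lb.g g6 (@Lb.d (nat_lit 0) (nat_lit 0) (nat_lit 130) (@Lb.fp (nat_lit 3) t1038))))))))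
noncomputable def l40001 : Lb := (@Lb.d (nat_lit 576) (nat_lit 608) (nat_lit 281) (@Lb.r r2324 (@Lb.r r2411 (@Lb.r r345 (@Lb.g g6 (@Lb.g g4 (@Lb.d (nat_lit 70) (nat_lit 0) (nat_lit 34) (@Lb.fm (nat_lit 3) t3380))))))))
noncomputable def l40002 : Lb := (@Lb.r r21 (@Lb.r r326 (@Lb.d (nat_lit 388) (nat_lit 0) (nat_lit 128) (@Lb.g g4 (@Lb.g g11 (@Lb.r r549 (@Lb.r r295 (@Lb.r r586 (@Lb.d (nat_lit 138) (nat_lit 170) (nat_lit 578) (@Lb.fm (nat_lit 3) t3562))))))))))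
noncomputable def l40003 : Lb := (@Lb.d (nat_lit 97) (nat_lit 514) (nat_lit 73) (@Lb.g g8 (@Lb.g g9 (@Lb.g g10 (@Lb.g g11 (@Lb.r r1287 (@Lb.r r2666 (@Lb.r r105 (@Lb.r r2084 (@Lb.d (nat_lit 69) (nat_lit 80) (nat_lit 388) (@Lb.fm (nat_lit 9) t6946)))))))))))
noncomputable def l40004 : Lb := (@Lb.d (nat_lit 161) (nat_lit 1) (nat_lit 1) (@Lb.g g8 (@Lb.g g9 (@Lb.g g10 (@Lb.r r1433 (@Lb.r r359 (@Lb.r r2726 (@Lb.r r2216 (@Lb.d (nat_lit 426) (nat_lit 161) (nat_lit 585) (@Lb.t (@Lb.fm (nat_lit 9) t4506)))))))))))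
noncomputable def l40005 : Lb := (@Lb.d (nat_lit 97) (nat_lit 258) (nat_lit 4) (@Lb.g g8 (@Lb.g g9 (@Lb.g g10 (@Lb.g g11 (@Lb.r r1287 (@Lb.r r2666 (@Lb.r r105 (@Lb.r r2084 (@Lb.d (nat_lit 69) (nat_lit 80) (nat_lit 322) (@Lb.fm (nat_lit 9) t6745)))))))))))
noncomputable def l40006 : Lb := (@Lb.d (nat_lit 0) (nat_lit 545) (nat_lit 73) (@Lb.g g9 (@Lb.g g10 (@Lb.g g11 (@Lb.r r1699 (@Lb.r r676 (@Lb.r r1158 (@Lb.r r2577 (@Lb.d (nat_lit 265) (nat_lit 148) (nat_lit 404) (@Lb.t (@Lb.fm (nat_lit 9) t6947)))))))))))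
noncomputable def l40007 : Lb := (@Lb.d (nat_lit 529) (nat_lit 641) (nat_lit 0) (@Lb.r r2308 (@Lb.r r331 (@Lb.r r324 (@Lb.g g7 (@Lb.g g6 (@Lb.g g9 (@Lb.g g4 (@Lb.d (nat_lit 0) (nat_lit 129) (nat_lit 166) (@Lb.fm (nat_lit 9) t2428))))))))))
noncomputable def l40008 : Lb := (@Lb.d (nat_lit 528) (nat_lit 162) (nat_lit 520) (@Lb.r r2120 (@Lb.r r146 (@Lb.r r1377 (@Lb.g g11 (@Lb.g g5 (@Lb.d (nat_lit 0) (nat_lit 1) (nat_lit 128) (@Lb.r r98 (@Lb.fm (nat_lit 3) t6948)))))))))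
noncomputable def l40009 : Lb := (@Lb.r r82 (@Lb.d (nat_lit 1) (nat_lit 2) (nat_lit 0) (@Lb.g g8 (@Lb.g g9 (@Lb.r r1451 (@Lb.r r1441 (@Lb.r r98 (@Lb.d (nat_lit 353) (nat_lit 100) (nat_lit 544) (@Lb.fp (nat_lit 3) t6949)))))))))
noncomputable def l40010 : Lb := (@Lb.d (nat_lit 8) (nat_lit 289) (nat_lit 145) (@Lb.g g9 (@Lb.g g10 (@Lb.g g11 (@Lb.r r344 (@Lb.r r359 (@Lb.r r1445 (@Lb.d (nat_lit 584) (nat_lit 33) (nat_lit 408) (@Lb.t (@Lb.fm (nat_lit 9) t338))))))))))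
noncomputable def l40011 : Lb := (@Lb.d (nat_lit 1) (nat_lit 289) (nat_lit 145) (@Lb.g g8 (@Lb.g g9 (@Lb.g g10 (@Lb.g g11 (@Lb.r r548 (@Lb.r r423 (@Lb.r r1317 (@Lb.r r516 (@Lb.d (nat_lit 536) (nat_lit 9) (nat_lit 168) (@Lb.fm (nat_lit 9) t338)))))))))))
noncomputable def l40012 : Lb := (@Lb.d (nat_lit 1) (nat_lit 545) (nat_lit 145) (@Lb.g g8 (@Lb.g g9 (@Lb.g g10 (@Lb.g g11 (@Lb.r r548 (@Lb.r r423 (@Lb.r r1317 (@Lb.r r516 (@Lb.d (nat_lit 536) (nat_lit 9) (nat_lit 102) (@Lb.fm (nat_lit 9) t338)))))))))))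
noncomputable def l40013 : Lb := (@Lb.r r82 (@Lb.d (nat_lit 2) (nat_lit 2) (nat_lit 580) (@Lb.g g8 (@Lb.g g9 (@Lb.g g7 (@Lb.r r1441 (@Lb.r r98 (@Lb.r r24 (@Lb.d (nat_lit 0) (nat_lit 66) (nat_lit 608) (@Lb.t (@Lb.fp (nat_lit 9) t5440)))))))))))
noncomputable def l40014 : Lb := (@Lb.d (nat_lit 2) (nat_lit 9) (nat_lit 1) (@Lb.g g8 (@Lb.g g9 (@Lb.g g10 (@Lb.g g11 (@Lb.r r427 (@Lb.r r106 (@Lb.r r25 (@Lb.d (nat_lit 9) (nat_lit 9) (nat_lit 2) (@Lb.fp (nat_lit 9) t594))))))))))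
noncomputable def l40015 : Lb := (@Lb.d (nat_lit 1) (nat_lit 33) (nat_lit 128) (@Lb.g g8 (@Lb.g g9 (@Lb.g g11 (@Lb.r r548 (@Lb.r r1383 (@Lb.r r2178 (@Lb.r r1317 (@Lb.r r516 (@Lb.d (nat_lit 538) (nat_lit 9) (nat_lit 85) (@Lb.t (@Lb.fm (nat_lit 9) t5935))))))))))))
noncomputable def l40016 : Lb := (@Lb.d (nat_lit 0) (nat_lit 258) (nat_lit 130) (@Lb.g g9 (@Lb.g g10 (@Lb.g g11 (@Lb.r r2691 (@Lb.r r297 (@Lb.r r2376 (@Lb.r r1638 (@Lb.d (nat_lit 409) (nat_lit 150) (nat_lit 582) (@Lb.t (@Lb.fp (nat_lit 9) t6950)))))))))))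
noncomputable def l40017 : Lb := (@Lb.d (nat_lit 146) (nat_lit 0) (nat_lit 130) (@Lb.g g8 (@Lb.g g10 (@Lb.g g11 (@Lb.r r2691 (@Lb.r r1642 (@Lb.r r2145 (@Lb.r r1048 (@Lb.d (nat_lit 136) (nat_lit 97) (nat_lit 389) (@Lb.t (@Lb.fp (nat_lit 9) t6951)))))))))))
noncomputable def l40018 : Lb := (@Lb.d (nat_lit 401) (nat_lit 512) (nat_lit 128) (@Lb.g g4 (@Lb.g g11 (@Lb.r r2635 (@Lb.d (nat_lit 576) (nat_lit 0) (nat_lit 257) (@Lb.fm (nat_lit 3) t1877))))))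
noncomputable def l40019 : Lb := (@Lb.r r82 (@Lb.d (nat_lit 9) (nat_lit 288) (nat_lit 64) (@Lb.g g8 (@Lb.g g9 (@Lb.g g11 (@Lb.r r2659 (@Lb.r r386 (@Lb.r r2472 (@Lb.r r2393 (@Lb.d (nat_lit 593) (nat_lit 6) (nat_lit 73) (@Lb.t (@Lb.fp (nat_lit 9) t1234))))))))))))
noncomputable def l40020 : Lb := (@Lb.r r267 (@Lb.d (nat_lit 42) (nat_lit 512) (nat_lit 0) (@Lb.g g8 (@Lb.r r2453 (@Lb.r r1430 (@Lb.r r363 (@Lb.r r1108 (@Lb.d (nat_lit 17) (nat_lit 85) (nat_lit 18) (@Lb.t (@Lb.fm (nat_lit 3) t3736))))))))))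
noncomputable def l40021 : Lb := (@Lb.r r323 (@Lb.d (nat_lit 9) (nat_lit 2) (nat_lit 2) (@Lb.g g8 (@Lb.g g9 (@Lb.g g10 (@Lb.r r2449 (@Lb.r r299 (@Lb.r r392 (@Lb.r r74 (@Lb.d (nat_lit 545) (nat_lit 10) (nat_lit 152) (@Lb.t (@Lb.fp (nat_lit 9) t221))))))))))))
noncomputable def l40022 : Lb := (@Lb.d (nat_lit 9) (nat_lit 513) (nat_lit 73) (@Lb.g g8 (@Lb.g g9 (@Lb.g g10 (@Lb.g g11 (@Lb.r r1699 (@Lb.r r1160 (@Lb.r r1610 (@Lb.r r37 (@Lb.d (nat_lit 617) (nat_lit 90) (nat_lit 356) (@Lb.fm (nat_lit 9) t3101)))))))))))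
noncomputable def l40023 : Lb := (@Lb.d (nat_lit 104) (nat_lit 38) (nat_lit 294) (@Lb.r r1370 (@Lb.r r679 (@Lb.g g6 (@Lb.g g5 (@Lb.d (nat_lit 4) (nat_lit 1) (nat_lit 1) (@Lb.r r2180 (@Lb.fp (nat_lit 3) t40))))))))
noncomputable def l40024 : Lb := (@Lb.r r21 (@Lb.r r70 (@Lb.d (nat_lit 656) (nat_lit 256) (nat_lit 256) (@Lb.g g4 (@Lb.g g7 (@Lb.r r2454 (@Lb.r r97 (@Lb.d (nat_lit 614) (nat_lit 128) (nat_lit 26) (@Lb.fm (nat_lit 3) t4411)))))))))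
noncomputable def l40025 : Lb := (@Lb.r r346 (@Lb.d (nat_lit 69) (nat_lit 290) (nat_lit 128) (@Lb.g g8 (@Lb.g g9 (@Lb.g g11 (@Lb.r r665 (@Lb.r r411 (@Lb.r r260 (@Lb.d (nat_lit 73) (nat_lit 73) (nat_lit 82) (@Lb.t (@Lb.fm (nat_lit 9) t62)))))))))))
noncomputable def l40026 : Lb := (@Lb.d (nat_lit 144) (nat_lit 265) (nat_lit 66) (@Lb.g g8 (@Lb.g g9 (@Lb.g g10 (@Lb.g g11 (@Lb.r r1194 (@Lb.r r424 (@Lb.r r1303 (@Lb.r r1553 (@Lb.r r2084 (@Lb.d (nat_lit 538) (nat_lit 160) (nat_lit 88) (@Lb.fp (nat_lit 9) t6521))))))))))))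
noncomputable def l40027 : Lb := (@Lb.d (nat_lit 618) (nat_lit 680) (nat_lit 133) (@Lb.r r2473 (@Lb.r r1194 (@Lb.r r1667 (@Lb.g g6 (@Lb.g g5 (@Lb.g g4 (@Lb.d (nat_lit 293) (nat_lit 22) (nat_lit 1) (@Lb.t (@Lb.fm (nat_lit 9) t6952))))))))))
noncomputable def l40028 : Lb := (@Lb.r r82 (@Lb.d (nat_lit 161) (nat_lit 258) (nat_lit 0) (@Lb.g g8 (@Lb.g g9 (@Lb.r r647 (@Lb.r r1113 (@Lb.r r614 (@Lb.r r424 (@Lb.d (nat_lit 518) (nat_lit 37) (nat_lit 404) (@Lb.fm (nat_lit 3) t3711))))))))))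
noncomputable def l40029 : Lb := (@Lb.d (nat_lit 97) (nat_lit 145) (nat_lit 598) (@Lb.r r24 (@Lb.r r2458 (@Lb.r r81 (@Lb.r r323 (@Lb.g g7 (@Lb.g g6 (@Lb.g g5 (@Lb.d (nat_lit 0) (nat_lit 17) (nat_lit 65) (@Lb.t (@Lb.fp (nat_lit 9) t1146)))))))))))
noncomputable def l40030 : Lb := (@Lb.d (nat_lit 384) (nat_lit 261) (nat_lit 422) (@Lb.r r20 (@Lb.r r25 (@Lb.r r148 (@Lb.r r386 (@Lb.g g11 (@Lb.g g6 (@Lb.g g5 (@Lb.g g4 (@Lb.d (nat_lit 1) (nat_lit 1) (nat_lit 129) (@Lb.fp (nat_lit 9) t1771)))))))))))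
noncomputable def l40031 : Lb := (@Lb.r r21 (@Lb.d (nat_lit 2) (nat_lit 256) (nat_lit 73) (@Lb.g g8 (@Lb.g g10 (@Lb.g g11 (@Lb.r r1683 (@Lb.r r1192 (@Lb.r r1610 (@Lb.r r25 (@Lb.d (nat_lit 658) (nat_lit 64) (nat_lit 356) (@Lb.t (@Lb.fm (nat_lit 9) t3101))))))))))))
noncomputable def l40032 : Lb := (@Lb.r r21 (@Lb.d (nat_lit 2) (nat_lit 512) (nat_lit 73) (@Lb.g g8 (@Lb.g g10 (@Lb.g g11 (@Lb.r r1683 (@Lb.r r1192 (@Lb.r r1610 (@Lb.r r25 (@Lb.d (nat_lit 665) (nat_lit 66) (nat_lit 356) (@Lb.t (@Lb.fm (nat_lit 9) t3101))))))))))))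
noncomputable def l40033 : Lb := (@Lb.g g8 (@Lb.g g9 (@Lb.g g7 (@Lb.r r89 (@Lb.r r1126 (@Lb.r r24 (@Lb.d (nat_lit 16) (nat_lit 256) (nat_lit 69) (@Lb.t (@Lb.fm (nat_lit 9) t6953)))))))))
noncomputable def l40034 : Lb := (@Lb.d (nat_lit 144) (nat_lit 516) (nat_lit 64) (@Lb.g g8 (@Lb.g g9 (@Lb.g g10 (@Lb.g g11 (@Lb.r r2435 (@Lb.r r168 (@Lb.r r2474 (@Lb.r r1065 (@Lb.r r1060 (@Lb.d (nat_lit 521) (nat_lit 20) (nat_lit 649) (@Lb.fm (nat_lit 9) t5781))))))))))))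
noncomputable def l40035 : Lb := (@Lb.g g4 (@Lb.g g9 (@Lb.r r85 (@Lb.r r1130 (@Lb.r r36 (@Lb.d (nat_lit 581) (nat_lit 257) (nat_lit 528) (@Lb.fp (nat_lit 3) t3993)))))))
noncomputable def l40036 : Lb := (@Lb.r r70 (@Lb.d (nat_lit 1) (nat_lit 256) (nat_lit 128) (@Lb.g g8 (@Lb.g g9 (@Lb.g g11 (@Lb.r r1643 (@Lb.r r2470 (@Lb.r r2664 (@Lb.d (nat_lit 665) (nat_lit 88) (nat_lit 137) (@Lb.t (@Lb.fp (nat_lit 9) t6954)))))))))))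
noncomputable def l40037 : Lb := (@Lb.d (nat_lit 338) (nat_lit 136) (nat_lit 336) (@Lb.r r2312 (@Lb.r r1106 (@Lb.r r1623 (@Lb.g g6 (@Lb.g g5 (@Lb.g g4 (@Lb.d (nat_lit 65) (nat_lit 129) (nat_lit 1) (@Lb.r r387 (@Lb.t (@Lb.fp (nat_lit 9) t1161)))))))))))
noncomputable def l40038 : Lb := (@Lb.d (nat_lit 34) (nat_lit 256) (nat_lit 0) (@Lb.g g8 (@Lb.g g9 (@Lb.r r2379 (@Lb.r r582 (@Lb.r r388 (@Lb.d (nat_lit 105) (nat_lit 2) (nat_lit 137) (@Lb.fm (nat_lit 3) t3128))))))))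
noncomputable def l40039 : Lb := (@Lb.r r82 (@Lb.d (nat_lit 641) (nat_lit 5) (nat_lit 64) (@Lb.g g4 (@Lb.g g9 (@Lb.g g11 (@Lb.r r2471 (@Lb.r r386 (@Lb.d (nat_lit 296) (nat_lit 85) (nat_lit 153) (@Lb.t (@Lb.fm (nat_lit 9) t2410))))))))))
noncomputable def l40040 : Lb := (@Lb.d (nat_lit 132) (nat_lit 521) (nat_lit 64) (@Lb.g g9 (@Lb.g g11 (@Lb.r r2708 (@Lb.r r1366 (@Lb.r r683 (@Lb.r r1705 (@Lb.d (nat_lit 581) (nat_lit 85) (nat_lit 553) (@Lb.fm (nat_lit 3) t40)))))))))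
noncomputable def l40041 : Lb := (@Lb.d (nat_lit 2) (nat_lit 258) (nat_lit 10) (@Lb.g g8 (@Lb.g g9 (@Lb.g g10 (@Lb.r r1572 (@Lb.r r1319 (@Lb.r r1425 (@Lb.r r2138 (@Lb.d (nat_lit 89) (nat_lit 4) (nat_lit 600) (@Lb.t (@Lb.fm (nat_lit 9) t5592)))))))))))
noncomputable def l40042 : Lb := (@Lb.r r82 (@Lb.d (nat_lit 641) (nat_lit 261) (nat_lit 64) (@Lb.g g4 (@Lb.g g9 (@Lb.g g11 (@Lb.r r2471 (@Lb.r r386 (@Lb.d (nat_lit 294) (nat_lit 84) (nat_lit 153) (@Lb.t (@Lb.fm (nat_lit 9) t2407))))))))))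
noncomputable def l40043 : Lb := (@Lb.d (nat_lit 154) (nat_lit 280) (nat_lit 74) (@Lb.g g8 (@Lb.g g9 (@Lb.g g10 (@Lb.g g11 (@Lb.r r1705 (@Lb.r r1443 (@Lb.r r354 (@Lb.r r72 (@Lb.d (nat_lit 384) (nat_lit 106) (nat_lit 129) (@Lb.fp (nat_lit 9) t6955)))))))))))
noncomputable def l40044 : Lb := (@Lb.d (nat_lit 598) (nat_lit 294) (nat_lit 386) (@Lb.r r2325 (@Lb.r r1158 (@Lb.r r2376 (@Lb.r r1699 (@Lb.g g7 (@Lb.g g6 (@Lb.g g5 (@Lb.d (nat_lit 0) (nat_lit 25) (nat_lit 128) (@Lb.t (@Lb.fm (nat_lit 9) t5613)))))))))))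
noncomputable def l40045 : Lb := (@Lb.d (nat_lit 36) (nat_lit 512) (nat_lit 0) (@Lb.g g8 (@Lb.g g9 (@Lb.r r2727 (@Lb.r r2118 (@Lb.r r2721 (@Lb.r r2180 (@Lb.d (nat_lit 338) (nat_lit 90) (nat_lit 552) (@Lb.fm (nat_lit 3) t4088)))))))))
noncomputable def l40046 : Lb := (@Lb.d (nat_lit 144) (nat_lit 513) (nat_lit 64) (@Lb.g g8 (@Lb.g g9 (@Lb.g g10 (@Lb.g g11 (@Lb.r r1451 (@Lb.r r1418 (@Lb.r r1121 (@Lb.r r1048 (@Lb.d (nat_lit 361) (nat_lit 106) (nat_lit 529) (@Lb.fm (nat_lit 9) t1246)))))))))))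
noncomputable def l40047 : Lb := (@Lb.r r82 (@Lb.d (nat_lit 130) (nat_lit 2) (nat_lit 256) (@Lb.g g8 (@Lb.g g9 (@Lb.g g7 (@Lb.r r386 (@Lb.r r105 (@Lb.r r264 (@Lb.d (nat_lit 328) (nat_lit 66) (nat_lit 80) (@Lb.t (@Lb.fm (nat_lit 9) t6956)))))))))))
noncomputable def l40048 : Lb := (@Lb.d (nat_lit 146) (nat_lit 258) (nat_lit 10) (@Lb.g g8 (@Lb.g g9 (@Lb.g g10 (@Lb.g g11 (@Lb.r r1382 (@Lb.r r2088 (@Lb.r r425 (@Lb.r r1299 (@Lb.d (nat_lit 342) (nat_lit 34) (nat_lit 581) (@Lb.fp (nat_lit 9) t6957)))))))))))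
noncomputable def l40049 : Lb := (@Lb.r r82 (@Lb.g g4 (@Lb.g g5 (@Lb.r r362 (@Lb.r r281 (@Lb.d (nat_lit 65) (nat_lit 512) (nat_lit 64) (@Lb.fm (nat_lit 3) t5547)))))))
noncomputable def l40050 : Lb := (@Lb.r r21 (@Lb.d (nat_lit 146) (nat_lit 0) (nat_lit 64) (@Lb.g g8 (@Lb.g g10 (@Lb.g g11 (@Lb.r r395 (@Lb.r r1602 (@Lb.r r404 (@Lb.r r25 (@Lb.d (nat_lit 10) (nat_lit 6) (nat_lit 73) (@Lb.t (@Lb.fm (nat_lit 9) t394))))))))))))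
noncomputable def l40051 : Lb := (@Lb.d (nat_lit 1) (nat_lit 38) (nat_lit 64) (@Lb.g g8 (@Lb.g g9 (@Lb.g g10 (@Lb.g g11 (@Lb.r r2666 (@Lb.r r1603 (@Lb.r r2152 (@Lb.r r2073 (@Lb.d (nat_lit 105) (nat_lit 20) (nat_lit 598) (@Lb.fp (nat_lit 9) t6879)))))))))))
noncomputable def l40052 : Lb := (@Lb.r r597 (@Lb.d (nat_lit 657) (nat_lit 0) (nat_lit 10) (@Lb.g g4 (@Lb.g g10 (@Lb.g g11 (@Lb.r r679 (@Lb.r r402 (@Lb.r r529 (@Lb.d (nat_lit 80) (nat_lit 74) (nat_lit 581) (@Lb.t (@Lb.fp (nat_lit 9) t3195)))))))))))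
noncomputable def l40053 : Lb := (@Lb.d (nat_lit 389) (nat_lit 129) (nat_lit 256) (@Lb.r r2341 (@Lb.r r1624 (@Lb.r r2470 (@Lb.r r339 (@Lb.g g7 (@Lb.g g6 (@Lb.g g5 (@Lb.d (nat_lit 0) (nat_lit 0) (nat_lit 8) (@Lb.t (@Lb.fm (nat_lit 9) t1330)))))))))))
noncomputable def l40054 : Lb := (@Lb.d (nat_lit 5) (nat_lit 328) (nat_lit 2) (@Lb.r r289 (@Lb.r r279 (@Lb.r r584 (@Lb.r r326 (@Lb.g g7 (@Lb.g g6 (@Lb.g g5 (@Lb.d (nat_lit 4) (nat_lit 1) (nat_lit 65) (@Lb.t (@Lb.fp (nat_lit 9) t74)))))))))))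
noncomputable def l40055 : Lb := (@Lb.d (nat_lit 400) (nat_lit 421) (nat_lit 6) (@Lb.r r1604 (@Lb.r r402 (@Lb.g g5 (@Lb.d (nat_lit 0) (nat_lit 5) (nat_lit 0) (@Lb.t (@Lb.fp (nat_lit 3) t6958)))))))
noncomputable def l40056 : Lb := (@Lb.d (nat_lit 362) (nat_lit 600) (nat_lit 294) (@Lb.r r410 (@Lb.r r392 (@Lb.r r599 (@Lb.g g6 (@Lb.g g5 (@Lb.d (nat_lit 0) (nat_lit 17) (nat_lit 1) (@Lb.r r387 (@Lb.fp (nat_lit 3) t2522)))))))))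
noncomputable def l40057 : Lb := (@Lb.d (nat_lit 146) (nat_lit 260) (nat_lit 129) (@Lb.g g8 (@Lb.g g9 (@Lb.g g10 (@Lb.g g11 (@Lb.r r1706 (@Lb.r r1411 (@Lb.r r1188 (@Lb.r r37 (@Lb.d (nat_lit 361) (nat_lit 73) (nat_lit 665) (@Lb.fp (nat_lit 9) t415)))))))))))
noncomputable def l40058 : Lb := (@Lb.r r263 (@Lb.d (nat_lit 0) (nat_lit 514) (nat_lit 2) (@Lb.g g8 (@Lb.g g9 (@Lb.g g10 (@Lb.r r2729 (@Lb.r r2475 (@Lb.r r392 (@Lb.r r2122 (@Lb.d (nat_lit 82) (nat_lit 0) (nat_lit 104) (@Lb.t (@Lb.fm (nat_lit 9) t6959))))))))))))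
noncomputable def l40059 : Lb := (@Lb.d (nat_lit 153) (nat_lit 18) (nat_lit 74) (@Lb.g g8 (@Lb.g g9 (@Lb.g g10 (@Lb.g g11 (@Lb.r r2579 (@Lb.r r1442 (@Lb.r r2153 (@Lb.r r612 (@Lb.d (nat_lit 324) (nat_lit 25) (nat_lit 617) (@Lb.fm (nat_lit 9) t4543)))))))))))
noncomputable def l40060 : Lb := (@Lb.d (nat_lit 544) (nat_lit 517) (nat_lit 85) (@Lb.r r1094 (@Lb.r r2440 (@Lb.r r535 (@Lb.r r2385 (@Lb.g g6 (@Lb.g g5 (@Lb.g g4 (@Lb.d (nat_lit 6) (nat_lit 1) (nat_lit 1) (@Lb.t (@Lb.fp (nat_lit 9) t2716)))))))))))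
noncomputable def l40061 : Lb := (@Lb.r r82 (@Lb.d (nat_lit 128) (nat_lit 586) (nat_lit 136) (@Lb.g g5 (@Lb.g g11 (@Lb.r r420 (@Lb.r r390 (@Lb.r r587 (@Lb.d (nat_lit 96) (nat_lit 145) (nat_lit 586) (@Lb.fp (nat_lit 3) t1266)))))))))
noncomputable def l40062 : Lb := (@Lb.d (nat_lit 424) (nat_lit 2) (nat_lit 404) (@Lb.r r169 (@Lb.r r100 (@Lb.r r386 (@Lb.g g11 (@Lb.g g6 (@Lb.g g5 (@Lb.d (nat_lit 4) (nat_lit 0) (nat_lit 129) (@Lb.t (@Lb.fm (nat_lit 9) t1534))))))))))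
noncomputable def l40063 : Lb := (@Lb.d (nat_lit 102) (nat_lit 418) (nat_lit 360) (@Lb.r r1364 (@Lb.r r1577 (@Lb.r r2371 (@Lb.g g10 (@Lb.g g5 (@Lb.g g4 (@Lb.d (nat_lit 17) (nat_lit 1) (nat_lit 34) (@Lb.r r391 (@Lb.t (@Lb.fp (nat_lit 9) t5251)))))))))))
noncomputable def l40064 : Lb := (@Lb.d (nat_lit 129) (nat_lit 514) (nat_lit 130) (@Lb.g g8 (@Lb.g g9 (@Lb.g g10 (@Lb.g g11 (@Lb.r r2217 (@Lb.r r520 (@Lb.r r1627 (@Lb.r r386 (@Lb.r r132 (@Lb.d (nat_lit 522) (nat_lit 4) (nat_lit 72) (@Lb.fp (nat_lit 9) t6584))))))))))))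
noncomputable def l40065 : Lb := (@Lb.d (nat_lit 2) (nat_lit 514) (nat_lit 130) (@Lb.g g8 (@Lb.g g9 (@Lb.g g10 (@Lb.g g11 (@Lb.r r2729 (@Lb.r r2475 (@Lb.r r2468 (@Lb.r r2438 (@Lb.d (nat_lit 614) (nat_lit 74) (nat_lit 617) (@Lb.fp (nat_lit 9) t1557)))))))))))
noncomputable def l40066 : Lb := (@Lb.d (nat_lit 642) (nat_lit 258) (nat_lit 130) (@Lb.g g8 (@Lb.g g9 (@Lb.g g10 (@Lb.g g11 (@Lb.r r1451 (@Lb.r r106 (@Lb.r r97 (@Lb.d (nat_lit 265) (nat_lit 9) (nat_lit 409) (@Lb.fm (nat_lit 9) t6935))))))))))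
noncomputable def l40067 : Lb := (@Lb.d (nat_lit 641) (nat_lit 258) (nat_lit 66) (@Lb.g g8 (@Lb.g g9 (@Lb.g g10 (@Lb.g g11 (@Lb.r r1451 (@Lb.r r106 (@Lb.r r97 (@Lb.d (nat_lit 264) (nat_lit 9) (nat_lit 409) (@Lb.fm (nat_lit 9) t6960))))))))))
noncomputable def l40068 : Lb := (@Lb.d (nat_lit 38) (nat_lit 5) (nat_lit 128) (@Lb.g g8 (@Lb.g g9 (@Lb.g g10 (@Lb.g g11 (@Lb.r r1362 (@Lb.r r2715 (@Lb.r r1561 (@Lb.r r612 (@Lb.d (nat_lit 165) (nat_lit 150) (nat_lit 170) (@Lb.fm (nat_lit 9) t1038)))))))))))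
noncomputable def l40069 : Lb := (@Lb.d (nat_lit 389) (nat_lit 146) (nat_lit 320) (@Lb.r r24 (@Lb.r r2337 (@Lb.r r579 (@Lb.r r1366 (@Lb.g g6 (@Lb.g g5 (@Lb.g g4 (@Lb.d (nat_lit 1) (nat_lit 1) (nat_lit 1) (@Lb.t (@Lb.fm (nat_lit 9) t985)))))))))))
noncomputable def l40070 : Lb := (@Lb.r r273 (@Lb.d (nat_lit 2) (nat_lit 40) (nat_lit 576) (@Lb.g g8 (@Lb.g g10 (@Lb.g g7 (@Lb.r r1121 (@Lb.r r1618 (@Lb.r r2120 (@Lb.d (nat_lit 290) (nat_lit 164) (nat_lit 530) (@Lb.t (@Lb.fp (nat_lit 9) t2491)))))))))))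
noncomputable def l40071 : Lb := (@Lb.d (nat_lit 129) (nat_lit 256) (nat_lit 416) (@Lb.r r1092 (@Lb.r r1105 (@Lb.r r1410 (@Lb.g g11 (@Lb.d (nat_lit 64) (nat_lit 0) (nat_lit 648) (@Lb.t (@Lb.fm (nat_lit 3) t6833))))))))
noncomputable def l40072 : Lb := (@Lb.r r273 (@Lb.d (nat_lit 0) (nat_lit 40) (nat_lit 578) (@Lb.g g10 (@Lb.g g7 (@Lb.r r101 (@Lb.r r2650 (@Lb.d (nat_lit 581) (nat_lit 38) (nat_lit 320) (@Lb.fm (nat_lit 3) t6961))))))))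
noncomputable def l40073 : Lb := (@Lb.d (nat_lit 0) (nat_lit 0) (nat_lit 64) (@Lb.g g7 (@Lb.r r402 (@Lb.d (nat_lit 0) (nat_lit 17) (nat_lit 10) (@Lb.t (@Lb.fp (nat_lit 3) t44))))))
noncomputable def l40074 : Lb := (@Lb.d (nat_lit 2) (nat_lit 256) (nat_lit 136) (@Lb.g g8 (@Lb.g g11 (@Lb.r r101 (@Lb.r r402 (@Lb.d (nat_lit 144) (nat_lit 26) (nat_lit 16) (@Lb.fm (nat_lit 3) t590)))))))
noncomputable def l40075 : Lb := (@Lb.r r82 (@Lb.d (nat_lit 2) (nat_lit 289) (nat_lit 0) (@Lb.g g8 (@Lb.g g9 (@Lb.r r1427 (@Lb.r r2450 (@Lb.r r1625 (@Lb.d (nat_lit 677) (nat_lit 166) (nat_lit 666) (@Lb.fp (nat_lit 3) t1399)))))))))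
noncomputable def l40076 : Lb := (@Lb.g g6 (@Lb.r r2403 (@Lb.r r594 (@Lb.d (nat_lit 0) (nat_lit 529) (nat_lit 288) (@Lb.t (@Lb.fm (nat_lit 3) t368))))))
noncomputable def l40077 : Lb := (@Lb.d (nat_lit 146) (nat_lit 2) (nat_lit 128) (@Lb.g g8 (@Lb.g g9 (@Lb.g g10 (@Lb.g g11 (@Lb.r r404 (@Lb.r r2395 (@Lb.r r2714 (@Lb.r r85 (@Lb.r r164 (@Lb.d (nat_lit 521) (nat_lit 104) (nat_lit 82) (@Lb.fm (nat_lit 9) t443))))))))))))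
noncomputable def l40078 : Lb := (@Lb.d (nat_lit 144) (nat_lit 2) (nat_lit 64) (@Lb.g g8 (@Lb.g g9 (@Lb.g g10 (@Lb.g g11 (@Lb.r r2454 (@Lb.r r2725 (@Lb.r r1364 (@Lb.r r2459 (@Lb.d (nat_lit 153) (nat_lit 90) (nat_lit 357) (@Lb.fp (nat_lit 9) t495)))))))))))
noncomputable def l40079 : Lb := (@Lb.d (nat_lit 1) (nat_lit 80) (nat_lit 389) (@Lb.r r579 (@Lb.r r1362 (@Lb.g g6 (@Lb.g g5 (@Lb.d (nat_lit 0) (nat_lit 1) (nat_lit 1) (@Lb.r r36 (@Lb.fp (nat_lit 3) t40))))))))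
noncomputable def l40080 : Lb := (@Lb.d (nat_lit 4) (nat_lit 256) (nat_lit 130) (@Lb.g g8 (@Lb.g g9 (@Lb.g g10 (@Lb.g g11 (@Lb.r r427 (@Lb.r r324 (@Lb.r r2218 (@Lb.r r1193 (@Lb.r r1188 (@Lb.d (nat_lit 609) (nat_lit 136) (nat_lit 681) (@Lb.fp (nat_lit 9) t386))))))))))))
noncomputable def l40081 : Lb := (@Lb.d (nat_lit 357) (nat_lit 388) (nat_lit 613) (@Lb.r r1105 (@Lb.r r1442 (@Lb.r r165 (@Lb.r r323 (@Lb.g g7 (@Lb.g g6 (@Lb.g g5 (@Lb.g g8 (@Lb.d (nat_lit 9) (nat_lit 24) (nat_lit 64) (@Lb.fm (nat_lit 9) t148)))))))))))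
noncomputable def l40082 : Lb := (@Lb.d (nat_lit 41) (nat_lit 264) (nat_lit 81) (@Lb.r r101 (@Lb.r r2458 (@Lb.g g7 (@Lb.g g5 (@Lb.g g8 (@Lb.d (nat_lit 0) (nat_lit 17) (nat_lit 68) (@Lb.r r98 (@Lb.t (@Lb.fm (nat_lit 9) t2198))))))))))
noncomputable def l40083 : Lb := (@Lb.d (nat_lit 33) (nat_lit 2) (nat_lit 129) (@Lb.g g8 (@Lb.g g9 (@Lb.g g6 (@Lb.g g11 (@Lb.r r529 (@Lb.r r407 (@Lb.r r612 (@Lb.d (nat_lit 406) (nat_lit 25) (nat_lit 168) (@Lb.fm (nat_lit 9) t1237))))))))))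
noncomputable def l40084 : Lb := (@Lb.d (nat_lit 0) (nat_lit 24) (nat_lit 1) (@Lb.g g9 (@Lb.g g10 (@Lb.g g11 (@Lb.r r643 (@Lb.r r1362 (@Lb.r r293 (@Lb.r r24 (@Lb.d (nat_lit 81) (nat_lit 5) (nat_lit 362) (@Lb.t (@Lb.fp (nat_lit 9) t4997)))))))))))
noncomputable def l40085 : Lb := (@Lb.d (nat_lit 518) (nat_lit 326) (nat_lit 129) (@Lb.r r1061 (@Lb.r r2132 (@Lb.r r2474 (@Lb.g g11 (@Lb.g g5 (@Lb.g g4 (@Lb.d (nat_lit 1) (nat_lit 18) (nat_lit 264) (@Lb.r r578 (@Lb.t (@Lb.fm (nat_lit 9) t5060)))))))))))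
noncomputable def l40086 : Lb := (@Lb.d (nat_lit 2) (nat_lit 260) (nat_lit 128) (@Lb.g g8 (@Lb.g g9 (@Lb.g g10 (@Lb.g g11 (@Lb.r r1130 (@Lb.r r356 (@Lb.r r411 (@Lb.r r533 (@Lb.r r2084 (@Lb.d (nat_lit 290) (nat_lit 10) (nat_lit 161) (@Lb.fp (nat_lit 9) t4))))))))))))
noncomputable def l40087 : Lb := (@Lb.r r82 (@Lb.d (nat_lit 128) (nat_lit 258) (nat_lit 128) (@Lb.g g8 (@Lb.g g9 (@Lb.g g11 (@Lb.r r673 (@Lb.r r2406 (@Lb.r r1411 (@Lb.r r516 (@Lb.d (nat_lit 130) (nat_lit 80) (nat_lit 22) (@Lb.t (@Lb.fp (nat_lit 9) t6962))))))))))))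
noncomputable def l40088 : Lb := (@Lb.d (nat_lit 640) (nat_lit 514) (nat_lit 130) (@Lb.g g4 (@Lb.g g9 (@Lb.g g10 (@Lb.g g11 (@Lb.r r2214 (@Lb.r r549 (@Lb.r r1635 (@Lb.r r529 (@Lb.d (nat_lit 1) (nat_lit 152) (nat_lit 258) (@Lb.fp (nat_lit 9) t6963)))))))))))
noncomputable def l40089 : Lb := (@Lb.r r82 (@Lb.d (nat_lit 9) (nat_lit 513) (nat_lit 128) (@Lb.g g8 (@Lb.g g5 (@Lb.g g11 (@Lb.r r1691 (@Lb.r r146 (@Lb.r r1608 (@Lb.d (nat_lit 97) (nat_lit 2) (nat_lit 665) (@Lb.t (@Lb.fm (nat_lit 9) t2179)))))))))))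
noncomputable def l40090 : Lb := (@Lb.d (nat_lit 33) (nat_lit 2) (nat_lit 129) (@Lb.g g8 (@Lb.g g9 (@Lb.g g6 (@Lb.g g11 (@Lb.r r1643 (@Lb.r r1640 (@Lb.r r25 (@Lb.d (nat_lit 514) (nat_lit 149) (nat_lit 650) (@Lb.fm (nat_lit 9) t6964))))))))))
noncomputable def l40091 : Lb := (@Lb.r r21 (@Lb.d (nat_lit 33) (nat_lit 512) (nat_lit 129) (@Lb.g g8 (@Lb.g g6 (@Lb.g g11 (@Lb.r r1611 (@Lb.r r2453 (@Lb.r r1608 (@Lb.d (nat_lit 360) (nat_lit 2) (nat_lit 648) (@Lb.t (@Lb.fp (nat_lit 9) t1326)))))))))))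
noncomputable def l40092 : Lb := (@Lb.d (nat_lit 294) (nat_lit 146) (nat_lit 389) (@Lb.r r2129 (@Lb.r r354 (@Lb.r r81 (@Lb.r r1671 (@Lb.g g7 (@Lb.g g6 (@Lb.g g5 (@Lb.g g8 (@Lb.d (nat_lit 10) (nat_lit 0) (nat_lit 134) (@Lb.fp (nat_lit 9) t4190)))))))))))
noncomputable def l40093 : Lb := (@Lb.r r323 (@Lb.d (nat_lit 1) (nat_lit 521) (nat_lit 2) (@Lb.g g8 (@Lb.g g9 (@Lb.g g10 (@Lb.r r1706 (@Lb.r r2713 (@Lb.r r2587 (@Lb.r r24 (@Lb.d (nat_lit 266) (nat_lit 26) (nat_lit 425) (@Lb.t (@Lb.fp (nat_lit 9) t6965))))))))))))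
noncomputable def l40094 : Lb := (@Lb.d (nat_lit 9) (nat_lit 520) (nat_lit 130) (@Lb.g g8 (@Lb.g g9 (@Lb.g g10 (@Lb.g g11 (@Lb.r r1707 (@Lb.r r162 (@Lb.r r145 (@Lb.r r1608 (@Lb.d (nat_lit 97) (nat_lit 4) (nat_lit 664) (@Lb.fm (nat_lit 9) t2179)))))))))))
noncomputable def l40095 : Lb := (@Lb.d (nat_lit 640) (nat_lit 2) (nat_lit 130) (@Lb.g g4 (@Lb.g g9 (@Lb.g g10 (@Lb.g g11 (@Lb.r r2214 (@Lb.r r549 (@Lb.r r1635 (@Lb.r r529 (@Lb.d (nat_lit 1) (nat_lit 152) (nat_lit 386) (@Lb.fp (nat_lit 9) t6963)))))))))))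
noncomputable def l40096 : Lb := (@Lb.d (nat_lit 682) (nat_lit 345) (nat_lit 102) (@Lb.r r422 (@Lb.r r88 (@Lb.r r1425 (@Lb.r r1707 (@Lb.g g7 (@Lb.g g6 (@Lb.g g5 (@Lb.d (nat_lit 16) (nat_lit 0) (nat_lit 136) (@Lb.t (@Lb.fm (nat_lit 9) t119)))))))))))
noncomputable def l40097 : Lb := (@Lb.d (nat_lit 0) (nat_lit 66) (nat_lit 0) (@Lb.g g9 (@Lb.r r322 (@Lb.r r659 (@Lb.r r578 (@Lb.r r2564 (@Lb.d (nat_lit 0) (nat_lit 144) (nat_lit 512) (@Lb.t (@Lb.fm (nat_lit 3) t2030)))))))))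
noncomputable def l40098 : Lb := (@Lb.d (nat_lit 0) (nat_lit 265) (nat_lit 72) (@Lb.g g9 (@Lb.g g10 (@Lb.g g11 (@Lb.r r2662 (@Lb.r r579 (@Lb.r r148 (@Lb.r r25 (@Lb.d (nat_lit 402) (nat_lit 10) (nat_lit 358) (@Lb.t (@Lb.fp (nat_lit 9) t4946)))))))))))
noncomputable def l40099 : Lb := (@Lb.d (nat_lit 0) (nat_lit 521) (nat_lit 72) (@Lb.g g9 (@Lb.g g10 (@Lb.g g11 (@Lb.r r2662 (@Lb.r r579 (@Lb.r r148 (@Lb.r r25 (@Lb.d (nat_lit 402) (nat_lit 5) (nat_lit 357) (@Lb.t (@Lb.fp (nat_lit 9) t4946)))))))))))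
noncomputable def l40100 : Lb := (@Lb.r r323 (@Lb.d (nat_lit 8) (nat_lit 42) (nat_lit 1) (@Lb.g g9 (@Lb.g g10 (@Lb.r r1446 (@Lb.r r1624 (@Lb.r r1691 (@Lb.r r2385 (@Lb.d (nat_lit 513) (nat_lit 150) (nat_lit 678) (@Lb.fp (nat_lit 3) t68))))))))))
noncomputable def l40101 : Lb := (@Lb.d (nat_lit 536) (nat_lit 0) (nat_lit 74) (@Lb.g g8 (@Lb.g g10 (@Lb.g g11 (@Lb.r r1683 (@Lb.r r1602 (@Lb.d (nat_lit 0) (nat_lit 24) (nat_lit 665) (@Lb.t (@Lb.fp (nat_lit 9) t5098)))))))))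
noncomputable def l40102 : Lb := (@Lb.d (nat_lit 582) (nat_lit 358) (nat_lit 102) (@Lb.r r408 (@Lb.r r330 (@Lb.r r663 (@Lb.g g5 (@Lb.g g4 (@Lb.d (nat_lit 18) (nat_lit 81) (nat_lit 0) (@Lb.r r98 (@Lb.fm (nat_lit 3) t150)))))))))
noncomputable def l40103 : Lb := (@Lb.r r323 (@Lb.d (nat_lit 128) (nat_lit 322) (nat_lit 2) (@Lb.g g8 (@Lb.g g9 (@Lb.g g10 (@Lb.r r1623 (@Lb.r r2434 (@Lb.r r72 (@Lb.d (nat_lit 41) (nat_lit 89) (nat_lit 296) (@Lb.t (@Lb.fp (nat_lit 9) t2142)))))))))))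
noncomputable def l40104 : Lb := (@Lb.d (nat_lit 4) (nat_lit 33) (nat_lit 2) (@Lb.g g8 (@Lb.g g9 (@Lb.g g10 (@Lb.r r170 (@Lb.r r1444 (@Lb.r r2715 (@Lb.r r357 (@Lb.d (nat_lit 85) (nat_lit 104) (nat_lit 134) (@Lb.t (@Lb.fp (nat_lit 9) t284)))))))))))
noncomputable def l40105 : Lb := (@Lb.d (nat_lit 1) (nat_lit 0) (nat_lit 272) (@Lb.r r2182 (@Lb.r r324 (@Lb.r r1563 (@Lb.r r1317 (@Lb.g g4 (@Lb.d (nat_lit 5) (nat_lit 0) (nat_lit 0) (@Lb.r r74 (@Lb.t (@Lb.fp (nat_lit 3) t6966))))))))))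
noncomputable def l40106 : Lb := (@Lb.d (nat_lit 0) (nat_lit 258) (nat_lit 66) (@Lb.g g8 (@Lb.g g9 (@Lb.g g10 (@Lb.g g11 (@Lb.r r169 (@Lb.r r424 (@Lb.r r263 (@Lb.r r98 (@Lb.r r516 (@Lb.d (nat_lit 2) (nat_lit 88) (nat_lit 425) (@Lb.fp (nat_lit 9) t153))))))))))))
noncomputable def l40107 : Lb := (@Lb.d (nat_lit 2) (nat_lit 592) (nat_lit 534) (@Lb.r r2182 (@Lb.r r603 (@Lb.r r2469 (@Lb.g g7 (@Lb.g g4 (@Lb.d (nat_lit 529) (nat_lit 16) (nat_lit 0) (@Lb.r r74 (@Lb.fp (nat_lit 3) t6966)))))))))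
noncomputable def l40108 : Lb := (@Lb.r r20 (@Lb.d (nat_lit 8) (nat_lit 38) (nat_lit 64) (@Lb.g g5 (@Lb.g g10 (@Lb.g g11 (@Lb.r r1174 (@Lb.r r2660 (@Lb.r r2343 (@Lb.d (nat_lit 576) (nat_lit 33) (nat_lit 389) (@Lb.t (@Lb.fm (nat_lit 9) t1352)))))))))))
noncomputable def l40109 : Lb := (@Lb.d (nat_lit 8) (nat_lit 256) (nat_lit 64) (@Lb.g g8 (@Lb.g g11 (@Lb.r r353 (@Lb.r r407 (@Lb.r r584 (@Lb.r r134 (@Lb.d (nat_lit 522) (nat_lit 2) (nat_lit 38) (@Lb.fp (nat_lit 3) t40)))))))))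
noncomputable def l40110 : Lb := (@Lb.d (nat_lit 5) (nat_lit 512) (nat_lit 0) (@Lb.g g8 (@Lb.r r337 (@Lb.r r2723 (@Lb.r r1682 (@Lb.r r2129 (@Lb.d (nat_lit 322) (nat_lit 128) (nat_lit 64) (@Lb.t (@Lb.fp (nat_lit 3) t242)))))))))
noncomputable def l40111 : Lb := (@Lb.r r20 (@Lb.r r275 (@Lb.d (nat_lit 8) (nat_lit 265) (nat_lit 1) (@Lb.g g5 (@Lb.g g10 (@Lb.r r1686 (@Lb.r r2404 (@Lb.r r1563 (@Lb.d (nat_lit 1) (nat_lit 82) (nat_lit 69) (@Lb.fp (nat_lit 3) t3284))))))))))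
noncomputable def l40112 : Lb := (@Lb.r r21 (@Lb.d (nat_lit 2) (nat_lit 0) (nat_lit 130) (@Lb.g g8 (@Lb.g g10 (@Lb.g g11 (@Lb.r r2691 (@Lb.r r2184 (@Lb.r r2666 (@Lb.r r97 (@Lb.d (nat_lit 326) (nat_lit 89) (nat_lit 644) (@Lb.t (@Lb.fp (nat_lit 9) t668))))))))))))
noncomputable def l40113 : Lb := (@Lb.d (nat_lit 257) (nat_lit 512) (nat_lit 160) (@Lb.r r1094 (@Lb.r r2196 (@Lb.r r361 (@Lb.g g11 (@Lb.g g5 (@Lb.g g4 (@Lb.d (nat_lit 0) (nat_lit 32) (nat_lit 324) (@Lb.r r578 (@Lb.t (@Lb.fp (nat_lit 9) t1246)))))))))))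
noncomputable def l40114 : Lb := (@Lb.r r82 (@Lb.d (nat_lit 528) (nat_lit 2) (nat_lit 64) (@Lb.g g8 (@Lb.g g9 (@Lb.g g7 (@Lb.r r386 (@Lb.r r1121 (@Lb.d (nat_lit 2) (nat_lit 74) (nat_lit 322) (@Lb.t (@Lb.fp (nat_lit 9) t5651))))))))))
noncomputable def l40115 : Lb := (@Lb.d (nat_lit 584) (nat_lit 324) (nat_lit 329) (@Lb.r r1192 (@Lb.r r665 (@Lb.r r1367 (@Lb.g g6 (@Lb.g g5 (@Lb.g g4 (@Lb.d (nat_lit 134) (nat_lit 9) (nat_lit 32) (@Lb.r r387 (@Lb.t (@Lb.fm (nat_lit 9) t4270)))))))))))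
noncomputable def l40116 : Lb := (@Lb.g g6 (@Lb.r r2579 (@Lb.r r2341 (@Lb.r r1620 (@Lb.r r2442 (@Lb.d (nat_lit 328) (nat_lit 516) (nat_lit 1) (@Lb.t (@Lb.fp (nat_lit 3) t4982))))))))
noncomputable def l40117 : Lb := (@Lb.d (nat_lit 32) (nat_lit 0) (nat_lit 137) (@Lb.g g10 (@Lb.g g11 (@Lb.r r2695 (@Lb.r r1352 (@Lb.r r2374 (@Lb.r r2145 (@Lb.d (nat_lit 593) (nat_lit 0) (nat_lit 24) (@Lb.fp (nat_lit 3) t242)))))))))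
noncomputable def l40118 : Lb := (@Lb.r r20 (@Lb.r r275 (@Lb.d (nat_lit 8) (nat_lit 521) (nat_lit 1) (@Lb.g g5 (@Lb.g g10 (@Lb.r r1686 (@Lb.r r2404 (@Lb.r r1563 (@Lb.d (nat_lit 4) (nat_lit 80) (nat_lit 69) (@Lb.fp (nat_lit 3) t5654))))))))))
noncomputable def l40119 : Lb := (@Lb.d (nat_lit 8) (nat_lit 521) (nat_lit 130) (@Lb.g g9 (@Lb.g g10 (@Lb.g g11 (@Lb.r r387 (@Lb.r r402 (@Lb.r r24 (@Lb.r r101 (@Lb.d (nat_lit 21) (nat_lit 137) (nat_lit 2) (@Lb.t (@Lb.fp (nat_lit 9) t501)))))))))))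
noncomputable def l40120 : Lb := (@Lb.d (nat_lit 2) (nat_lit 264) (nat_lit 1) (@Lb.g g8 (@Lb.g g10 (@Lb.g g11 (@Lb.r r2129 (@Lb.r r1642 (@Lb.r r1608 (@Lb.d (nat_lit 152) (nat_lit 129) (nat_lit 682) (@Lb.t (@Lb.fp (nat_lit 9) t2428))))))))))
noncomputable def l40121 : Lb := (@Lb.r r537 (@Lb.r r667 (@Lb.r r1698 (@Lb.r r2129 (@Lb.r r36 (@Lb.d (nat_lit 512) (nat_lit 320) (nat_lit 16) (@Lb.fp (nat_lit 1) t968)))))))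
noncomputable def l40122 : Lb := (@Lb.d (nat_lit 144) (nat_lit 262) (nat_lit 358) (@Lb.r r82 (@Lb.r r1371 (@Lb.g g7 (@Lb.g g6 (@Lb.g g5 (@Lb.g g8 (@Lb.d (nat_lit 9) (nat_lit 128) (nat_lit 65) (@Lb.fm (nat_lit 9) t6587)))))))))
noncomputable def l40123 : Lb := (@Lb.d (nat_lit 388) (nat_lit 145) (nat_lit 168) (@Lb.r r2341 (@Lb.r r1624 (@Lb.r r2470 (@Lb.g g11 (@Lb.g g6 (@Lb.g g5 (@Lb.d (nat_lit 0) (nat_lit 5) (nat_lit 130) (@Lb.t (@Lb.fp (nat_lit 9) t47))))))))))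
noncomputable def l40124 : Lb := (@Lb.d (nat_lit 0) (nat_lit 585) (nat_lit 73) (@Lb.g g8 (@Lb.g g9 (@Lb.g g10 (@Lb.g g11 (@Lb.r r419 (@Lb.r r1130 (@Lb.r r2120 (@Lb.d (nat_lit 168) (nat_lit 65) (nat_lit 418) (@Lb.fm (nat_lit 9) t3189))))))))))
noncomputable def l40125 : Lb := (@Lb.r r323 (@Lb.d (nat_lit 9) (nat_lit 1) (nat_lit 0) (@Lb.g g8 (@Lb.g g9 (@Lb.g g10 (@Lb.r r2451 (@Lb.r r2201 (@Lb.r r2646 (@Lb.r r1416 (@Lb.d (nat_lit 665) (nat_lit 2) (nat_lit 256) (@Lb.t (@Lb.fp (nat_lit 9) t221))))))))))))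
noncomputable def l40126 : Lb := (@Lb.d (nat_lit 0) (nat_lit 256) (nat_lit 66) (@Lb.g g9 (@Lb.g g10 (@Lb.g g7 (@Lb.r r386 (@Lb.r r101 (@Lb.r r24 (@Lb.d (nat_lit 34) (nat_lit 80) (nat_lit 265) (@Lb.t (@Lb.fm (nat_lit 9) t845))))))))))
noncomputable def l40127 : Lb := (@Lb.r r323 (@Lb.d (nat_lit 2) (nat_lit 546) (nat_lit 0) (@Lb.g g8 (@Lb.g g9 (@Lb.g g10 (@Lb.r r2154 (@Lb.r r2340 (@Lb.r r1627 (@Lb.r r2341 (@Lb.d (nat_lit 421) (nat_lit 97) (nat_lit 362) (@Lb.t (@Lb.fm (nat_lit 9) t221))))))))))))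
noncomputable def l40128 : Lb := (@Lb.d (nat_lit 134) (nat_lit 258) (nat_lit 0) (@Lb.g g8 (@Lb.g g9 (@Lb.r r1315 (@Lb.r r297 (@Lb.r r1316 (@Lb.d (nat_lit 321) (nat_lit 34) (nat_lit 256) (@Lb.fp (nat_lit 3) t1165))))))))
noncomputable def l40129 : Lb := (@Lb.d (nat_lit 64) (nat_lit 260) (nat_lit 0) (@Lb.g g8 (@Lb.g g9 (@Lb.g g10 (@Lb.g g11 (@Lb.r r675 (@Lb.r r2406 (@Lb.r r533 (@Lb.r r264 (@Lb.d (nat_lit 297) (nat_lit 89) (nat_lit 665) (@Lb.fp (nat_lit 9) t606)))))))))))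
noncomputable def l40130 : Lb := (@Lb.d (nat_lit 9) (nat_lit 2) (nat_lit 130) (@Lb.g g8 (@Lb.g g9 (@Lb.g g10 (@Lb.g g11 (@Lb.r r1451 (@Lb.r r409 (@Lb.r r2138 (@Lb.r r1169 (@Lb.d (nat_lit 521) (nat_lit 9) (nat_lit 18) (@Lb.fp (nat_lit 9) t221)))))))))))
noncomputable def l40131 : Lb := (@Lb.d (nat_lit 9) (nat_lit 258) (nat_lit 130) (@Lb.g g8 (@Lb.g g9 (@Lb.g g10 (@Lb.g g11 (@Lb.r r1451 (@Lb.r r409 (@Lb.r r2138 (@Lb.r r1169 (@Lb.d (nat_lit 520) (nat_lit 9) (nat_lit 18) (@Lb.fp (nat_lit 9) t221)))))))))))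
noncomputable def l40132 : Lb := (@Lb.d (nat_lit 129) (nat_lit 514) (nat_lit 64) (@Lb.g g8 (@Lb.g g9 (@Lb.g g10 (@Lb.g g11 (@Lb.r r618 (@Lb.r r2667 (@Lb.r r2073 (@Lb.r r2072 (@Lb.d (nat_lit 666) (nat_lit 164) (nat_lit 154) (@Lb.fp (nat_lit 9) t2150)))))))))))
noncomputable def l40133 : Lb := (@Lb.d (nat_lit 517) (nat_lit 582) (nat_lit 129) (@Lb.r r1061 (@Lb.r r2132 (@Lb.r r2474 (@Lb.g g11 (@Lb.g g5 (@Lb.g g4 (@Lb.d (nat_lit 1) (nat_lit 18) (nat_lit 264) (@Lb.r r578 (@Lb.t (@Lb.fm (nat_lit 9) t5060)))))))))))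
noncomputable def l40134 : Lb := (@Lb.d (nat_lit 584) (nat_lit 85) (nat_lit 160) (@Lb.r r2710 (@Lb.r r1352 (@Lb.r r2341 (@Lb.r r2323 (@Lb.g g7 (@Lb.g g6 (@Lb.g g5 (@Lb.d (nat_lit 16) (nat_lit 0) (nat_lit 129) (@Lb.t (@Lb.fm (nat_lit 9) t5118)))))))))))
noncomputable def l40135 : Lb := (@Lb.r r21 (@Lb.d (nat_lit 385) (nat_lit 0) (nat_lit 128) (@Lb.g g8 (@Lb.g g11 (@Lb.r r299 (@Lb.r r2337 (@Lb.d (nat_lit 586) (nat_lit 0) (nat_lit 512) (@Lb.fp (nat_lit 3) t5400))))))))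
noncomputable def l40136 : Lb := (@Lb.r r21 (@Lb.r r263 (@Lb.d (nat_lit 266) (nat_lit 256) (nat_lit 0) (@Lb.g g8 (@Lb.g g10 (@Lb.r r2138 (@Lb.r r2341 (@Lb.r r403 (@Lb.d (nat_lit 1) (nat_lit 0) (nat_lit 85) (@Lb.fp (nat_lit 3) t4276))))))))))
noncomputable def l40137 : Lb := (@Lb.d (nat_lit 134) (nat_lit 0) (nat_lit 128) (@Lb.g g8 (@Lb.g g9 (@Lb.g g11 (@Lb.r r2339 (@Lb.r r1060 (@Lb.r r1317 (@Lb.d (nat_lit 330) (nat_lit 34) (nat_lit 640) (@Lb.t (@Lb.fp (nat_lit 9) t6967))))))))))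
noncomputable def l40138 : Lb := (@Lb.d (nat_lit 585) (nat_lit 550) (nat_lit 257) (@Lb.r r553 (@Lb.r r1603 (@Lb.r r1366 (@Lb.g g6 (@Lb.g g5 (@Lb.g g4 (@Lb.d (nat_lit 1) (nat_lit 10) (nat_lit 0) (@Lb.r r291 (@Lb.t (@Lb.fp (nat_lit 9) t6968)))))))))))
noncomputable def l40139 : Lb := (@Lb.d (nat_lit 1) (nat_lit 33) (nat_lit 128) (@Lb.g g8 (@Lb.g g9 (@Lb.g g11 (@Lb.r r548 (@Lb.r r1383 (@Lb.r r2178 (@Lb.r r1317 (@Lb.r r516 (@Lb.d (nat_lit 533) (nat_lit 8) (nat_lit 154) (@Lb.t (@Lb.fm (nat_lit 9) t5445))))))))))))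
noncomputable def l40140 : Lb := (@Lb.r r82 (@Lb.d (nat_lit 0) (nat_lit 2) (nat_lit 580) (@Lb.g g9 (@Lb.g g7 (@Lb.r r1441 (@Lb.r r98 (@Lb.r r24 (@Lb.d (nat_lit 8) (nat_lit 70) (nat_lit 609) (@Lb.fp (nat_lit 3) t6274)))))))))
noncomputable def l40141 : Lb := (@Lb.d (nat_lit 273) (nat_lit 266) (nat_lit 0) (@Lb.g g4 (@Lb.g g9 (@Lb.g g7 (@Lb.r r594 (@Lb.r r2449 (@Lb.d (nat_lit 6) (nat_lit 88) (nat_lit 66) (@Lb.t (@Lb.fm (nat_lit 9) t6154)))))))))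
noncomputable def l40142 : Lb := (@Lb.d (nat_lit 8) (nat_lit 514) (nat_lit 130) (@Lb.g g9 (@Lb.g g10 (@Lb.g g11 (@Lb.r r1447 (@Lb.r r2120 (@Lb.r r1622 (@Lb.r r409 (@Lb.d (nat_lit 282) (nat_lit 132) (nat_lit 34) (@Lb.t (@Lb.fp (nat_lit 9) t450)))))))))))
noncomputable def l40143 : Lb := (@Lb.r r134 (@Lb.r r1284 (@Lb.r r2651 (@Lb.r r289 (@Lb.d (nat_lit 320) (nat_lit 256) (nat_lit 528) (@Lb.fm (nat_lit 1) t6969))))))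
noncomputable def l40144 : Lb := (@Lb.d (nat_lit 260) (nat_lit 345) (nat_lit 265) (@Lb.r r2323 (@Lb.r r2657 (@Lb.r r1366 (@Lb.g g7 (@Lb.g g6 (@Lb.g g5 (@Lb.g g4 (@Lb.d (nat_lit 1) (nat_lit 18) (nat_lit 129) (@Lb.fm (nat_lit 9) t3597))))))))))
noncomputable def l40145 : Lb := (@Lb.r r360 (@Lb.r r2345 (@Lb.r r1367 (@Lb.r r2178 (@Lb.r r2596 (@Lb.d (nat_lit 0) (nat_lit 256) (nat_lit 128) (@Lb.fm (nat_lit 1) t88)))))))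
noncomputable def l40146 : Lb := (@Lb.d (nat_lit 2) (nat_lit 288) (nat_lit 640) (@Lb.g g8 (@Lb.g g6 (@Lb.g g11 (@Lb.r r2564 (@Lb.d (nat_lit 649) (nat_lit 70) (nat_lit 577) (@Lb.t (@Lb.fp (nat_lit 9) t6675))))))))
noncomputable def l40147 : Lb := (@Lb.d (nat_lit 41) (nat_lit 516) (nat_lit 41) (@Lb.g g8 (@Lb.g g10 (@Lb.r r1637 (@Lb.r r2407 (@Lb.r r1668 (@Lb.d (nat_lit 536) (nat_lit 2) (nat_lit 4) (@Lb.fp (nat_lit 3) t320))))))))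
noncomputable def l40148 : Lb := (@Lb.d (nat_lit 580) (nat_lit 88) (nat_lit 676) (@Lb.r r20 (@Lb.r r1110 (@Lb.r r2465 (@Lb.g g11 (@Lb.g g6 (@Lb.d (nat_lit 0) (nat_lit 0) (nat_lit 129) (@Lb.fm (nat_lit 3) t714))))))))
noncomputable def l40149 : Lb := (@Lb.d (nat_lit 5) (nat_lit 1) (nat_lit 170) (@Lb.r r68 (@Lb.r r74 (@Lb.r r584 (@Lb.r r1291 (@Lb.g g5 (@Lb.t (@Lb.fp (nat_lit 3) t322))))))))
noncomputable def l40150 : Lb := (@Lb.d (nat_lit 406) (nat_lit 320) (nat_lit 278) (@Lb.r r2120 (@Lb.r r2145 (@Lb.r r386 (@Lb.g g11 (@Lb.g g6 (@Lb.g g4 (@Lb.d (nat_lit 0) (nat_lit 0) (nat_lit 129) (@Lb.t (@Lb.fp (nat_lit 9) t5288))))))))))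
noncomputable def l40151 : Lb := (@Lb.d (nat_lit 534) (nat_lit 600) (nat_lit 424) (@Lb.r r2120 (@Lb.r r2145 (@Lb.r r402 (@Lb.g g11 (@Lb.g g6 (@Lb.d (nat_lit 0) (nat_lit 0) (nat_lit 128) (@Lb.fm (nat_lit 3) t597))))))))
noncomputable def l40152 : Lb := (@Lb.d (nat_lit 132) (nat_lit 576) (nat_lit 130) (@Lb.g g8 (@Lb.g g9 (@Lb.g g10 (@Lb.g g11 (@Lb.r r2475 (@Lb.r r1130 (@Lb.r r2084 (@Lb.d (nat_lit 297) (nat_lit 65) (nat_lit 409) (@Lb.fp (nat_lit 9) t4966))))))))))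
noncomputable def l40153 : Lb := (@Lb.d (nat_lit 130) (nat_lit 322) (nat_lit 66) (@Lb.g g8 (@Lb.g g9 (@Lb.g g10 (@Lb.g g11 (@Lb.r r2475 (@Lb.r r1130 (@Lb.r r2084 (@Lb.d (nat_lit 297) (nat_lit 65) (nat_lit 409) (@Lb.fp (nat_lit 9) t4966))))))))))
noncomputable def l40154 : Lb := (@Lb.d (nat_lit 406) (nat_lit 88) (nat_lit 640) (@Lb.r r2120 (@Lb.r r2145 (@Lb.r r402 (@Lb.g g11 (@Lb.g g6 (@Lb.g g4 (@Lb.d (nat_lit 0) (nat_lit 0) (nat_lit 128) (@Lb.t (@Lb.fp (nat_lit 9) t4543))))))))))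
noncomputable def l40155 : Lb := (@Lb.d (nat_lit 133) (nat_lit 2) (nat_lit 0) (@Lb.g g8 (@Lb.g g9 (@Lb.r r279 (@Lb.r r1186 (@Lb.r r1169 (@Lb.r r2664 (@Lb.d (nat_lit 353) (nat_lit 4) (nat_lit 33) (@Lb.fm (nat_lit 3) t334)))))))))
noncomputable def l40156 : Lb := (@Lb.d (nat_lit 9) (nat_lit 1) (nat_lit 130) (@Lb.g g8 (@Lb.g g9 (@Lb.g g10 (@Lb.g g11 (@Lb.r r1689 (@Lb.r r1691 (@Lb.r r1610 (@Lb.d (nat_lit 97) (nat_lit 10) (nat_lit 601) (@Lb.fm (nat_lit 9) t1756))))))))))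
noncomputable def l40157 : Lb := (@Lb.d (nat_lit 528) (nat_lit 20) (nat_lit 90) (@Lb.r r658 (@Lb.r r2715 (@Lb.r r2708 (@Lb.g g7 (@Lb.g g6 (@Lb.g g9 (@Lb.d (nat_lit 16) (nat_lit 129) (nat_lit 65) (@Lb.t (@Lb.fm (nat_lit 9) t652))))))))))
noncomputable def l40158 : Lb := (@Lb.r r70 (@Lb.d (nat_lit 2) (nat_lit 645) (nat_lit 0) (@Lb.g g8 (@Lb.g g5 (@Lb.r r1691 (@Lb.r r1610 (@Lb.r r612 (@Lb.d (nat_lit 0) (nat_lit 153) (nat_lit 537) (@Lb.fm (nat_lit 3) t98)))))))))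
noncomputable def l40159 : Lb := (@Lb.d (nat_lit 8) (nat_lit 514) (nat_lit 66) (@Lb.g g9 (@Lb.g g10 (@Lb.g g11 (@Lb.r r1451 (@Lb.r r98 (@Lb.d (nat_lit 401) (nat_lit 4) (nat_lit 424) (@Lb.t (@Lb.fm (nat_lit 9) t899)))))))))
noncomputable def l40160 : Lb := (@Lb.d (nat_lit 0) (nat_lit 266) (nat_lit 64) (@Lb.g g9 (@Lb.g g11 (@Lb.r r406 (@Lb.r r343 (@Lb.r r661 (@Lb.d (nat_lit 149) (nat_lit 162) (nat_lit 8) (@Lb.fp (nat_lit 3) t1231))))))))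
noncomputable def l40161 : Lb := (@Lb.d (nat_lit 0) (nat_lit 546) (nat_lit 0) (@Lb.g g9 (@Lb.r r360 (@Lb.r r663 (@Lb.r r134 (@Lb.r r421 (@Lb.d (nat_lit 72) (nat_lit 33) (nat_lit 128) (@Lb.t (@Lb.fp (nat_lit 3) t40)))))))))
noncomputable def l40162 : Lb := (@Lb.d (nat_lit 129) (nat_lit 512) (nat_lit 0) (@Lb.g g8 (@Lb.r r519 (@Lb.r r402 (@Lb.r r609 (@Lb.r r264 (@Lb.d (nat_lit 130) (nat_lit 17) (nat_lit 128) (@Lb.t (@Lb.fp (nat_lit 3) t71)))))))))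
noncomputable def l40163 : Lb := (@Lb.r r82 (@Lb.d (nat_lit 9) (nat_lit 32) (nat_lit 64) (@Lb.g g8 (@Lb.g g9 (@Lb.g g11 (@Lb.r r1561 (@Lb.r r531 (@Lb.r r98 (@Lb.r r24 (@Lb.d (nat_lit 641) (nat_lit 1) (nat_lit 69) (@Lb.t (@Lb.fm (nat_lit 9) t2638))))))))))))
noncomputable def l40164 : Lb := (@Lb.d (nat_lit 148) (nat_lit 0) (nat_lit 133) (@Lb.g g8 (@Lb.g g9 (@Lb.g g10 (@Lb.g g11 (@Lb.r r1675 (@Lb.r r617 (@Lb.r r662 (@Lb.r r1560 (@Lb.d (nat_lit 277) (nat_lit 34) (nat_lit 580) (@Lb.fp (nat_lit 9) t728)))))))))))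
noncomputable def l40165 : Lb := (@Lb.r r323 (@Lb.d (nat_lit 130) (nat_lit 521) (nat_lit 1) (@Lb.g g8 (@Lb.g g9 (@Lb.g g10 (@Lb.r r599 (@Lb.r r98 (@Lb.r r361 (@Lb.r r2312 (@Lb.d (nat_lit 402) (nat_lit 4) (nat_lit 640) (@Lb.t (@Lb.fp (nat_lit 9) t2420))))))))))))
noncomputable def l40166 : Lb := (@Lb.d (nat_lit 0) (nat_lit 10) (nat_lit 72) (@Lb.g g8 (@Lb.g g9 (@Lb.g g10 (@Lb.g g11 (@Lb.r r1703 (@Lb.r r356 (@Lb.r r154 (@Lb.r r2201 (@Lb.d (nat_lit 361) (nat_lit 133) (nat_lit 544) (@Lb.fp (nat_lit 9) t3278)))))))))))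
noncomputable def l40167 : Lb := (@Lb.d (nat_lit 0) (nat_lit 2) (nat_lit 137) (@Lb.g g8 (@Lb.g g9 (@Lb.g g10 (@Lb.g g7 (@Lb.r r386 (@Lb.r r25 (@Lb.r r24 (@Lb.d (nat_lit 610) (nat_lit 0) (nat_lit 537) (@Lb.fm (nat_lit 9) t698))))))))))
noncomputable def l40168 : Lb := (@Lb.d (nat_lit 2) (nat_lit 576) (nat_lit 512) (@Lb.r r145 (@Lb.r r658 (@Lb.r r675 (@Lb.r r665 (@Lb.g g4 (@Lb.d (nat_lit 6) (nat_lit 0) (nat_lit 0) (@Lb.t (@Lb.fm (nat_lit 3) t1499)))))))))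
noncomputable def l40169 : Lb := (@Lb.d (nat_lit 1) (nat_lit 65) (nat_lit 256) (@Lb.r r1284 (@Lb.r r322 (@Lb.r r659 (@Lb.r r578 (@Lb.g g5 (@Lb.d (nat_lit 0) (nat_lit 134) (nat_lit 0) (@Lb.t (@Lb.fp (nat_lit 3) t1754)))))))))
noncomputable def l40170 : Lb := (@Lb.d (nat_lit 2) (nat_lit 258) (nat_lit 2) (@Lb.g g8 (@Lb.g g9 (@Lb.g g10 (@Lb.r r427 (@Lb.r r106 (@Lb.r r25 (@Lb.d (nat_lit 9) (nat_lit 85) (nat_lit 520) (@Lb.t (@Lb.fm (nat_lit 9) t51))))))))))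
noncomputable def l40171 : Lb := (@Lb.d (nat_lit 2) (nat_lit 265) (nat_lit 73) (@Lb.g g8 (@Lb.g g9 (@Lb.g g10 (@Lb.g g11 (@Lb.r r2210 (@Lb.r r292 (@Lb.r r405 (@Lb.r r619 (@Lb.r r2084 (@Lb.d (nat_lit 608) (nat_lit 10) (nat_lit 20) (@Lb.fp (nat_lit 9) t981))))))))))))
noncomputable def l40172 : Lb := (@Lb.d (nat_lit 6) (nat_lit 422) (nat_lit 593) (@Lb.r r21 (@Lb.r r1366 (@Lb.g g7 (@Lb.g g6 (@Lb.g g5 (@Lb.g g4 (@Lb.d (nat_lit 1) (nat_lit 1) (nat_lit 65) (@Lb.fp (nat_lit 9) t40)))))))))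
noncomputable def l40173 : Lb := (@Lb.r r331 (@Lb.d (nat_lit 38) (nat_lit 161) (nat_lit 2) (@Lb.g g8 (@Lb.g g5 (@Lb.g g10 (@Lb.r r343 (@Lb.r r1684 (@Lb.r r1158 (@Lb.d (nat_lit 346) (nat_lit 168) (nat_lit 665) (@Lb.t (@Lb.fm (nat_lit 9) t50)))))))))))
noncomputable def l40174 : Lb := (@Lb.d (nat_lit 2) (nat_lit 9) (nat_lit 72) (@Lb.g g8 (@Lb.g g9 (@Lb.g g10 (@Lb.g g11 (@Lb.r r1699 (@Lb.r r1193 (@Lb.r r2472 (@Lb.r r2442 (@Lb.d (nat_lit 80) (nat_lit 10) (nat_lit 516) (@Lb.fp (nat_lit 9) t1244)))))))))))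
noncomputable def l40175 : Lb := (@Lb.d (nat_lit 550) (nat_lit 146) (nat_lit 602) (@Lb.r r1109 (@Lb.r r2390 (@Lb.r r2347 (@Lb.g g7 (@Lb.g g6 (@Lb.g g5 (@Lb.g g4 (@Lb.d (nat_lit 0) (nat_lit 18) (nat_lit 72) (@Lb.fp (nat_lit 9) t2710))))))))))
noncomputable def l40176 : Lb := (@Lb.d (nat_lit 2) (nat_lit 677) (nat_lit 64) (@Lb.g g8 (@Lb.g g5 (@Lb.g g10 (@Lb.g g11 (@Lb.r r658 (@Lb.r r1415 (@Lb.d (nat_lit 417) (nat_lit 1) (nat_lit 170) (@Lb.fp (nat_lit 9) t98)))))))))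
noncomputable def l40177 : Lb := (@Lb.d (nat_lit 0) (nat_lit 10) (nat_lit 0) (@Lb.g g9 (@Lb.r r2403 (@Lb.r r594 (@Lb.r r2449 (@Lb.d (nat_lit 0) (nat_lit 2) (nat_lit 170) (@Lb.t (@Lb.fp (nat_lit 3) t6970))))))))
noncomputable def l40178 : Lb := (@Lb.g g9 (@Lb.r r402 (@Lb.d (nat_lit 0) (nat_lit 576) (nat_lit 650) (@Lb.t (@Lb.fm (nat_lit 3) t1604)))))
noncomputable def l40179 : Lb := (@Lb.d (nat_lit 18) (nat_lit 5) (nat_lit 665) (@Lb.r r386 (@Lb.r r1363 (@Lb.r r2581 (@Lb.g g6 (@Lb.g g5 (@Lb.g g4 (@Lb.d (nat_lit 1) (nat_lit 1) (nat_lit 1) (@Lb.r r291 (@Lb.t (@Lb.fm (nat_lit 9) t731)))))))))))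
noncomputable def l40180 : Lb := (@Lb.r r323 (@Lb.d (nat_lit 0) (nat_lit 514) (nat_lit 4) (@Lb.g g5 (@Lb.g g6 (@Lb.r r387 (@Lb.r r153 (@Lb.r r24 (@Lb.d (nat_lit 338) (nat_lit 0) (nat_lit 520) (@Lb.fp (nat_lit 3) t1150)))))))))
noncomputable def l40181 : Lb := (@Lb.d (nat_lit 16) (nat_lit 2) (nat_lit 0) (@Lb.g g8 (@Lb.g g9 (@Lb.g g10 (@Lb.r r2729 (@Lb.r r2475 (@Lb.r r2468 (@Lb.r r2470 (@Lb.d (nat_lit 617) (nat_lit 100) (nat_lit 674) (@Lb.t (@Lb.fm (nat_lit 9) t1602)))))))))))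
noncomputable def l40182 : Lb := (@Lb.d (nat_lit 128) (nat_lit 512) (nat_lit 1) (@Lb.g g8 (@Lb.g g10 (@Lb.r r551 (@Lb.r r2149 (@Lb.r r1178 (@Lb.r r392 (@Lb.d (nat_lit 340) (nat_lit 149) (nat_lit 609) (@Lb.fm (nat_lit 3) t1519)))))))))
noncomputable def l40183 : Lb := (@Lb.r r21 (@Lb.d (nat_lit 2) (nat_lit 0) (nat_lit 73) (@Lb.g g8 (@Lb.g g10 (@Lb.g g11 (@Lb.r r1683 (@Lb.r r2184 (@Lb.r r1610 (@Lb.r r25 (@Lb.d (nat_lit 358) (nat_lit 148) (nat_lit 598) (@Lb.t (@Lb.fm (nat_lit 9) t2190))))))))))))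
noncomputable def l40184 : Lb := (@Lb.r r70 (@Lb.d (nat_lit 34) (nat_lit 513) (nat_lit 0) (@Lb.g g8 (@Lb.g g9 (@Lb.r r2666 (@Lb.r r425 (@Lb.r r1367 (@Lb.r r2708 (@Lb.d (nat_lit 422) (nat_lit 106) (nat_lit 600) (@Lb.fp (nat_lit 3) t4997))))))))))
noncomputable def l40185 : Lb := (@Lb.r r21 (@Lb.d (nat_lit 2) (nat_lit 0) (nat_lit 73) (@Lb.g g8 (@Lb.g g10 (@Lb.g g11 (@Lb.r r1683 (@Lb.r r2184 (@Lb.r r1610 (@Lb.r r25 (@Lb.d (nat_lit 353) (nat_lit 152) (nat_lit 596) (@Lb.t (@Lb.fm (nat_lit 9) t2190))))))))))))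
noncomputable def l40186 : Lb := (@Lb.d (nat_lit 1) (nat_lit 96) (nat_lit 640) (@Lb.r r2337 (@Lb.r r579 (@Lb.r r1414 (@Lb.r r84 (@Lb.g g5 (@Lb.g g4 (@Lb.d (nat_lit 1) (nat_lit 1) (nat_lit 0) (@Lb.r r74 (@Lb.fp (nat_lit 3) t720))))))))))
noncomputable def l40187 : Lb := (@Lb.d (nat_lit 100) (nat_lit 70) (nat_lit 645) (@Lb.r r615 (@Lb.r r1617 (@Lb.r r2390 (@Lb.g g7 (@Lb.g g6 (@Lb.g g4 (@Lb.d (nat_lit 613) (nat_lit 16) (nat_lit 64) (@Lb.r r25 (@Lb.t (@Lb.fm (nat_lit 9) t4257)))))))))))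
noncomputable def l40188 : Lb := (@Lb.r r323 (@Lb.d (nat_lit 33) (nat_lit 265) (nat_lit 1) (@Lb.g g8 (@Lb.g g9 (@Lb.g g10 (@Lb.r r2666 (@Lb.r r2391 (@Lb.r r1577 (@Lb.r r1556 (@Lb.d (nat_lit 384) (nat_lit 130) (nat_lit 325) (@Lb.t (@Lb.fp (nat_lit 9) t6971))))))))))))
noncomputable def l40189 : Lb := (@Lb.d (nat_lit 10) (nat_lit 97) (nat_lit 1) (@Lb.r r24 (@Lb.r r2325 (@Lb.r r323 (@Lb.g g6 (@Lb.g g4 (@Lb.d (nat_lit 1) (nat_lit 8) (nat_lit 41) (@Lb.r r387 (@Lb.fp (nat_lit 3) t3820)))))))))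
noncomputable def l40190 : Lb := (@Lb.d (nat_lit 0) (nat_lit 336) (nat_lit 664) (@Lb.r r289 (@Lb.r r1158 (@Lb.r r2404 (@Lb.g g11 (@Lb.g g5 (@Lb.d (nat_lit 0) (nat_lit 0) (nat_lit 384) (@Lb.r r578 (@Lb.fp (nat_lit 3) t5782)))))))))
noncomputable def l40191 : Lb := (@Lb.r r70 (@Lb.d (nat_lit 137) (nat_lit 73) (nat_lit 128) (@Lb.g g8 (@Lb.g g9 (@Lb.g g11 (@Lb.r r2315 (@Lb.r r2198 (@Lb.r r2120 (@Lb.d (nat_lit 576) (nat_lit 4) (nat_lit 9) (@Lb.t (@Lb.fm (nat_lit 9) t868)))))))))))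
noncomputable def l40192 : Lb := (@Lb.d (nat_lit 320) (nat_lit 346) (nat_lit 582) (@Lb.r r289 (@Lb.r r2374 (@Lb.r r1188 (@Lb.r r2691 (@Lb.g g7 (@Lb.g g6 (@Lb.g g5 (@Lb.d (nat_lit 0) (nat_lit 0) (nat_lit 134) (@Lb.t (@Lb.fp (nat_lit 9) t5781)))))))))))
noncomputable def l40193 : Lb := (@Lb.r r21 (@Lb.d (nat_lit 2) (nat_lit 0) (nat_lit 64) (@Lb.g g8 (@Lb.g g11 (@Lb.r r2311 (@Lb.r r2178 (@Lb.r r2580 (@Lb.r r25 (@Lb.d (nat_lit 328) (nat_lit 150) (nat_lit 129) (@Lb.fp (nat_lit 3) t820))))))))))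
noncomputable def l40194 : Lb := (@Lb.r r323 (@Lb.d (nat_lit 2) (nat_lit 260) (nat_lit 22) (@Lb.g g8 (@Lb.g g10 (@Lb.r r387 (@Lb.r r1561 (@Lb.r r24 (@Lb.d (nat_lit 5) (nat_lit 146) (nat_lit 137) (@Lb.fp (nat_lit 3) t504)))))))))
noncomputable def l40195 : Lb := (@Lb.r r338 (@Lb.d (nat_lit 34) (nat_lit 1) (nat_lit 136) (@Lb.g g8 (@Lb.g g9 (@Lb.g g11 (@Lb.r r1174 (@Lb.r r1621 (@Lb.r r1300 (@Lb.d (nat_lit 144) (nat_lit 153) (nat_lit 97) (@Lb.t (@Lb.fp (nat_lit 9) t693)))))))))))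
noncomputable def l40196 : Lb := (@Lb.d (nat_lit 0) (nat_lit 514) (nat_lit 0) (@Lb.g g9 (@Lb.r r2660 (@Lb.r r2378 (@Lb.r r2439 (@Lb.r r97 (@Lb.d (nat_lit 0) (nat_lit 73) (nat_lit 594) (@Lb.t (@Lb.fm (nat_lit 3) t2551)))))))))
noncomputable def l40197 : Lb := (@Lb.d (nat_lit 2) (nat_lit 288) (nat_lit 4) (@Lb.g g8 (@Lb.g g10 (@Lb.g g11 (@Lb.r r602 (@Lb.r r600 (@Lb.r r293 (@Lb.r r2587 (@Lb.d (nat_lit 330) (nat_lit 41) (nat_lit 278) (@Lb.t (@Lb.fp (nat_lit 9) t71)))))))))))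
noncomputable def l40198 : Lb := (@Lb.d (nat_lit 6) (nat_lit 264) (nat_lit 0) (@Lb.g g4 (@Lb.g g10 (@Lb.r r2341 (@Lb.r r603 (@Lb.r r1382 (@Lb.d (nat_lit 344) (nat_lit 101) (nat_lit 5) (@Lb.fp (nat_lit 3) t126))))))))
noncomputable def l40199 : Lb := (@Lb.d (nat_lit 6) (nat_lit 0) (nat_lit 0) (@Lb.g g4 (@Lb.r r386 (@Lb.r r1347 (@Lb.r r578 (@Lb.r r101 (@Lb.d (nat_lit 1) (nat_lit 138) (nat_lit 100) (@Lb.t (@Lb.fm (nat_lit 3) t126)))))))))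
noncomputable def l40200 : Lb := (@Lb.d (nat_lit 0) (nat_lit 402) (nat_lit 5) (@Lb.r r1284 (@Lb.r r579 (@Lb.r r1362 (@Lb.g g7 (@Lb.g g6 (@Lb.g g5 (@Lb.d (nat_lit 0) (nat_lit 129) (nat_lit 65) (@Lb.t (@Lb.fm (nat_lit 9) t6972))))))))))
noncomputable def l40201 : Lb := (@Lb.d (nat_lit 4) (nat_lit 5) (nat_lit 0) (@Lb.g g8 (@Lb.g g9 (@Lb.g g10 (@Lb.r r683 (@Lb.r r2666 (@Lb.r r25 (@Lb.d (nat_lit 0) (nat_lit 90) (nat_lit 537) (@Lb.t (@Lb.fp (nat_lit 9) t2985))))))))))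
noncomputable def l40202 : Lb := (@Lb.r r323 (@Lb.d (nat_lit 130) (nat_lit 256) (nat_lit 2) (@Lb.g g8 (@Lb.g g9 (@Lb.g g10 (@Lb.r r1169 (@Lb.r r402 (@Lb.r r583 (@Lb.r r2312 (@Lb.d (nat_lit 646) (nat_lit 2) (nat_lit 642) (@Lb.t (@Lb.fp (nat_lit 9) t1350))))))))))))
noncomputable def l40203 : Lb := (@Lb.d (nat_lit 32) (nat_lit 0) (nat_lit 130) (@Lb.g g9 (@Lb.g g10 (@Lb.g g11 (@Lb.r r2695 (@Lb.r r1352 (@Lb.r r2390 (@Lb.r r289 (@Lb.d (nat_lit 656) (nat_lit 74) (nat_lit 298) (@Lb.t (@Lb.fp (nat_lit 9) t1425)))))))))))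
noncomputable def l40204 : Lb := (@Lb.r r323 (@Lb.d (nat_lit 0) (nat_lit 256) (nat_lit 1) (@Lb.g g9 (@Lb.g g6 (@Lb.r r387 (@Lb.r r2145 (@Lb.r r36 (@Lb.d (nat_lit 5) (nat_lit 9) (nat_lit 34) (@Lb.fm (nat_lit 3) t154)))))))))
noncomputable def l40205 : Lb := (@Lb.r r322 (@Lb.d (nat_lit 34) (nat_lit 0) (nat_lit 8) (@Lb.g g4 (@Lb.g g11 (@Lb.r r426 (@Lb.r r289 (@Lb.r r168 (@Lb.d (nat_lit 105) (nat_lit 128) (nat_lit 2) (@Lb.fm (nat_lit 3) t1115)))))))))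
noncomputable def l40206 : Lb := (@Lb.d (nat_lit 0) (nat_lit 84) (nat_lit 420) (@Lb.r r1377 (@Lb.r r134 (@Lb.r r1384 (@Lb.g g11 (@Lb.g g5 (@Lb.g g4 (@Lb.d (nat_lit 136) (nat_lit 16) (nat_lit 640) (@Lb.r r602 (@Lb.t (@Lb.fp (nat_lit 9) t6973)))))))))))
noncomputable def l40207 : Lb := (@Lb.d (nat_lit 4) (nat_lit 594) (nat_lit 2) (@Lb.g g8 (@Lb.g g5 (@Lb.g g10 (@Lb.r r2435 (@Lb.r r386 (@Lb.r r1684 (@Lb.d (nat_lit 418) (nat_lit 1) (nat_lit 616) (@Lb.t (@Lb.fm (nat_lit 9) t6974))))))))))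
noncomputable def l40208 : Lb := (@Lb.d (nat_lit 144) (nat_lit 4) (nat_lit 65) (@Lb.g g8 (@Lb.g g9 (@Lb.g g10 (@Lb.g g11 (@Lb.r r1443 (@Lb.r r164 (@Lb.r r2470 (@Lb.r r25 (@Lb.d (nat_lit 69) (nat_lit 134) (nat_lit 393) (@Lb.fm (nat_lit 9) t5467)))))))))))
noncomputable def l40209 : Lb := (@Lb.r r273 (@Lb.d (nat_lit 10) (nat_lit 0) (nat_lit 578) (@Lb.g g8 (@Lb.g g10 (@Lb.g g7 (@Lb.r r386 (@Lb.r r149 (@Lb.r r1128 (@Lb.d (nat_lit 97) (nat_lit 137) (nat_lit 553) (@Lb.t (@Lb.fp (nat_lit 9) t3303)))))))))))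
noncomputable def l40210 : Lb := (@Lb.d (nat_lit 2) (nat_lit 9) (nat_lit 0) (@Lb.g g8 (@Lb.g g9 (@Lb.g g10 (@Lb.r r1691 (@Lb.r r326 (@Lb.r r2585 (@Lb.d (nat_lit 20) (nat_lit 154) (nat_lit 517) (@Lb.t (@Lb.fp (nat_lit 9) t50))))))))))
noncomputable def l40211 : Lb := (@Lb.r r322 (@Lb.d (nat_lit 2) (nat_lit 514) (nat_lit 640) (@Lb.g g8 (@Lb.g g9 (@Lb.g g7 (@Lb.r r1430 (@Lb.r r97 (@Lb.r r24 (@Lb.d (nat_lit 280) (nat_lit 9) (nat_lit 576) (@Lb.t (@Lb.fm (nat_lit 9) t145)))))))))))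
noncomputable def l40212 : Lb := (@Lb.d (nat_lit 2) (nat_lit 265) (nat_lit 136) (@Lb.g g8 (@Lb.g g9 (@Lb.g g10 (@Lb.g g11 (@Lb.r r2722 (@Lb.r r1431 (@Lb.r r2585 (@Lb.d (nat_lit 8) (nat_lit 169) (nat_lit 514) (@Lb.fm (nat_lit 9) t50))))))))))
noncomputable def l40213 : Lb := (@Lb.r r322 (@Lb.d (nat_lit 32) (nat_lit 258) (nat_lit 576) (@Lb.g g8 (@Lb.g g9 (@Lb.g g7 (@Lb.r r361 (@Lb.r r150 (@Lb.r r84 (@Lb.d (nat_lit 22) (nat_lit 84) (nat_lit 521) (@Lb.t (@Lb.fp (nat_lit 9) t1115)))))))))))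
noncomputable def l40214 : Lb := (@Lb.d (nat_lit 6) (nat_lit 530) (nat_lit 10) (@Lb.r r21 (@Lb.r r579 (@Lb.r r342 (@Lb.g g7 (@Lb.g g6 (@Lb.g g4 (@Lb.d (nat_lit 8) (nat_lit 0) (nat_lit 5) (@Lb.r r25 (@Lb.t (@Lb.fm (nat_lit 9) t319)))))))))))
noncomputable def l40215 : Lb := (@Lb.d (nat_lit 70) (nat_lit 298) (nat_lit 384) (@Lb.r r549 (@Lb.r r679 (@Lb.r r1348 (@Lb.g g7 (@Lb.g g6 (@Lb.g g5 (@Lb.d (nat_lit 4) (nat_lit 2) (nat_lit 133) (@Lb.r r132 (@Lb.t (@Lb.fp (nat_lit 9) t2491)))))))))))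
noncomputable def l40216 : Lb := (@Lb.r r323 (@Lb.d (nat_lit 10) (nat_lit 512) (nat_lit 1) (@Lb.g g8 (@Lb.g g9 (@Lb.g g6 (@Lb.r r2343 (@Lb.r r105 (@Lb.r r24 (@Lb.d (nat_lit 280) (nat_lit 4) (nat_lit 66) (@Lb.t (@Lb.fp (nat_lit 9) t314)))))))))))
noncomputable def l40217 : Lb := (@Lb.d (nat_lit 0) (nat_lit 256) (nat_lit 128) (@Lb.g g8 (@Lb.g g10 (@Lb.g g11 (@Lb.r r353 (@Lb.r r663 (@Lb.r r356 (@Lb.r r154 (@Lb.d (nat_lit 577) (nat_lit 0) (nat_lit 528) (@Lb.t (@Lb.fp (nat_lit 9) t1641)))))))))))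
noncomputable def l40218 : Lb := (@Lb.r r323 (@Lb.d (nat_lit 4) (nat_lit 0) (nat_lit 18) (@Lb.g g8 (@Lb.g g9 (@Lb.g g6 (@Lb.r r2667 (@Lb.r r2585 (@Lb.d (nat_lit 330) (nat_lit 102) (nat_lit 144) (@Lb.t (@Lb.fm (nat_lit 9) t324))))))))))
noncomputable def l40219 : Lb := (@Lb.d (nat_lit 0) (nat_lit 512) (nat_lit 22) (@Lb.g g9 (@Lb.g g10 (@Lb.r r551 (@Lb.r r1633 (@Lb.r r36 (@Lb.d (nat_lit 325) (nat_lit 152) (nat_lit 41) (@Lb.fm (nat_lit 3) t3669))))))))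
noncomputable def l40220 : Lb := (@Lb.r r275 (@Lb.d (nat_lit 6) (nat_lit 518) (nat_lit 1) (@Lb.g g4 (@Lb.g g9 (@Lb.g g6 (@Lb.r r1411 (@Lb.r r677 (@Lb.d (nat_lit 536) (nat_lit 21) (nat_lit 265) (@Lb.t (@Lb.fp (nat_lit 9) t1664))))))))))
noncomputable def l40221 : Lb := (@Lb.d (nat_lit 0) (nat_lit 520) (nat_lit 4) (@Lb.g g8 (@Lb.g g10 (@Lb.g g11 (@Lb.r r1451 (@Lb.r r2145 (@Lb.r r1622 (@Lb.r r1156 (@Lb.d (nat_lit 550) (nat_lit 106) (nat_lit 129) (@Lb.t (@Lb.fp (nat_lit 9) t2910)))))))))))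
noncomputable def l40222 : Lb := (@Lb.d (nat_lit 134) (nat_lit 261) (nat_lit 128) (@Lb.g g8 (@Lb.g g9 (@Lb.g g10 (@Lb.g g11 (@Lb.r r1706 (@Lb.r r1451 (@Lb.r r1425 (@Lb.r r1156 (@Lb.d (nat_lit 4) (nat_lit 21) (nat_lit 426) (@Lb.fm (nat_lit 9) t1895)))))))))))
noncomputable def l40223 : Lb := (@Lb.r r359 (@Lb.d (nat_lit 5) (nat_lit 0) (nat_lit 18) (@Lb.g g8 (@Lb.g g9 (@Lb.g g10 (@Lb.r r676 (@Lb.r r1543 (@Lb.r r2193 (@Lb.d (nat_lit 273) (nat_lit 74) (nat_lit 2) (@Lb.t (@Lb.fp (nat_lit 9) t1408)))))))))))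
noncomputable def l40224 : Lb := (@Lb.r r275 (@Lb.d (nat_lit 641) (nat_lit 517) (nat_lit 18) (@Lb.g g4 (@Lb.g g9 (@Lb.g g6 (@Lb.r r1411 (@Lb.r r2149 (@Lb.d (nat_lit 330) (nat_lit 10) (nat_lit 0) (@Lb.t (@Lb.fp (nat_lit 9) t5651))))))))))
noncomputable def l40225 : Lb := (@Lb.r r275 (@Lb.d (nat_lit 6) (nat_lit 1) (nat_lit 0) (@Lb.g g4 (@Lb.g g9 (@Lb.g g6 (@Lb.r r1411 (@Lb.r r677 (@Lb.d (nat_lit 536) (nat_lit 21) (nat_lit 265) (@Lb.t (@Lb.fp (nat_lit 9) t4128))))))))))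
noncomputable def l40226 : Lb := (@Lb.d (nat_lit 0) (nat_lit 256) (nat_lit 132) (@Lb.g g10 (@Lb.g g7 (@Lb.r r421 (@Lb.r r98 (@Lb.r r24 (@Lb.d (nat_lit 152) (nat_lit 160) (nat_lit 72) (@Lb.fp (nat_lit 3) t4374))))))))
noncomputable def l40227 : Lb := (@Lb.r r355 (@Lb.d (nat_lit 6) (nat_lit 521) (nat_lit 2) (@Lb.g g8 (@Lb.g g9 (@Lb.g g10 (@Lb.r r683 (@Lb.r r1642 (@Lb.r r2649 (@Lb.d (nat_lit 361) (nat_lit 42) (nat_lit 10) (@Lb.t (@Lb.fp (nat_lit 9) t919)))))))))))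
noncomputable def l40228 : Lb := (@Lb.d (nat_lit 388) (nat_lit 522) (nat_lit 384) (@Lb.r r597 (@Lb.r r2311 (@Lb.r r1604 (@Lb.r r2410 (@Lb.g g11 (@Lb.t (@Lb.fp (nat_lit 3) t6975))))))))
noncomputable def l40229 : Lb := (@Lb.d (nat_lit 17) (nat_lit 613) (nat_lit 102) (@Lb.r r597 (@Lb.r r2567 (@Lb.r r1348 (@Lb.r r2474 (@Lb.g g7 (@Lb.g g6 (@Lb.d (nat_lit 0) (nat_lit 0) (nat_lit 129) (@Lb.fm (nat_lit 3) t6976)))))))))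
noncomputable def l40230 : Lb := (@Lb.d (nat_lit 530) (nat_lit 164) (nat_lit 402) (@Lb.r r2658 (@Lb.r r1641 (@Lb.r r343 (@Lb.g g7 (@Lb.g g6 (@Lb.g g5 (@Lb.g g4 (@Lb.d (nat_lit 1) (nat_lit 6) (nat_lit 66) (@Lb.fm (nat_lit 9) t6977))))))))))
noncomputable def l40231 : Lb := (@Lb.r r82 (@Lb.d (nat_lit 401) (nat_lit 2) (nat_lit 128) (@Lb.g g8 (@Lb.g g9 (@Lb.g g11 (@Lb.r r1323 (@Lb.r r1130 (@Lb.r r1049 (@Lb.d (nat_lit 520) (nat_lit 66) (nat_lit 426) (@Lb.t (@Lb.fm (nat_lit 9) t6978)))))))))))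
noncomputable def l40232 : Lb := (@Lb.d (nat_lit 386) (nat_lit 358) (nat_lit 5) (@Lb.r r134 (@Lb.r r1364 (@Lb.r r2571 (@Lb.g g5 (@Lb.g g4 (@Lb.d (nat_lit 0) (nat_lit 25) (nat_lit 0) (@Lb.fm (nat_lit 3) t6979))))))))
noncomputable def l40233 : Lb := (@Lb.d (nat_lit 410) (nat_lit 576) (nat_lit 417) (@Lb.r r24 (@Lb.r r2403 (@Lb.g g6 (@Lb.d (nat_lit 0) (nat_lit 4) (nat_lit 1) (@Lb.t (@Lb.fp (nat_lit 3) t6980)))))))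
noncomputable def l40234 : Lb := (@Lb.g g9 (@Lb.g g6 (@Lb.r r402 (@Lb.d (nat_lit 0) (nat_lit 645) (nat_lit 257) (@Lb.fm (nat_lit 3) t334)))))
noncomputable def l40235 : Lb := (@Lb.d (nat_lit 146) (nat_lit 512) (nat_lit 1) (@Lb.r r584 (@Lb.r r2374 (@Lb.r r1691 (@Lb.r r1381 (@Lb.g g6 (@Lb.g g4 (@Lb.d (nat_lit 36) (nat_lit 0) (nat_lit 0) (@Lb.fp (nat_lit 3) t2493)))))))))
noncomputable def l40236 : Lb := (@Lb.d (nat_lit 658) (nat_lit 256) (nat_lit 673) (@Lb.r r1355 (@Lb.r r1606 (@Lb.r r2452 (@Lb.r r1641 (@Lb.g g5 (@Lb.g g4 (@Lb.d (nat_lit 1) (nat_lit 1) (nat_lit 0) (@Lb.fp (nat_lit 3) t6981)))))))))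
noncomputable def l40237 : Lb := (@Lb.d (nat_lit 144) (nat_lit 585) (nat_lit 66) (@Lb.g g8 (@Lb.g g9 (@Lb.g g10 (@Lb.g g11 (@Lb.r r2475 (@Lb.r r1130 (@Lb.r r72 (@Lb.d (nat_lit 601) (nat_lit 129) (nat_lit 134) (@Lb.fm (nat_lit 9) t6982))))))))))
noncomputable def l40238 : Lb := (@Lb.d (nat_lit 144) (nat_lit 266) (nat_lit 41) (@Lb.g g8 (@Lb.g g9 (@Lb.g g6 (@Lb.r r1415 (@Lb.r r289 (@Lb.r r2632 (@Lb.d (nat_lit 353) (nat_lit 162) (nat_lit 385) (@Lb.t (@Lb.fp (nat_lit 9) t98))))))))))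
noncomputable def l40239 : Lb := (@Lb.d (nat_lit 16) (nat_lit 265) (nat_lit 74) (@Lb.g g8 (@Lb.g g9 (@Lb.g g10 (@Lb.g g11 (@Lb.r r2577 (@Lb.r r2647 (@Lb.r r1418 (@Lb.r r2084 (@Lb.d (nat_lit 9) (nat_lit 10) (nat_lit 256) (@Lb.fp (nat_lit 9) t6983)))))))))))
noncomputable def l40240 : Lb := (@Lb.d (nat_lit 66) (nat_lit 522) (nat_lit 361) (@Lb.r r24 (@Lb.r r2661 (@Lb.r r2403 (@Lb.g g10 (@Lb.d (nat_lit 0) (nat_lit 8) (nat_lit 33) (@Lb.t (@Lb.fp (nat_lit 3) t4345))))))))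
noncomputable def l40241 : Lb := (@Lb.d (nat_lit 5) (nat_lit 406) (nat_lit 10) (@Lb.r r1045 (@Lb.r r1640 (@Lb.r r386 (@Lb.g g11 (@Lb.g g6 (@Lb.g g5 (@Lb.g g4 (@Lb.d (nat_lit 6) (nat_lit 1) (nat_lit 129) (@Lb.fm (nat_lit 9) t2494))))))))))
noncomputable def l40242 : Lb := (@Lb.d (nat_lit 256) (nat_lit 597) (nat_lit 10) (@Lb.r r21 (@Lb.r r2664 (@Lb.r r386 (@Lb.g g11 (@Lb.g g6 (@Lb.g g5 (@Lb.g g4 (@Lb.d (nat_lit 1) (nat_lit 1) (nat_lit 129) (@Lb.fm (nat_lit 9) t2493))))))))))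
noncomputable def l40243 : Lb := (@Lb.d (nat_lit 2) (nat_lit 9) (nat_lit 72) (@Lb.g g8 (@Lb.g g9 (@Lb.g g10 (@Lb.g g11 (@Lb.r r391 (@Lb.r r2146 (@Lb.r r2585 (@Lb.r r2564 (@Lb.d (nat_lit 672) (nat_lit 134) (nat_lit 401) (@Lb.fp (nat_lit 9) t6984)))))))))))
noncomputable def l40244 : Lb := (@Lb.d (nat_lit 261) (nat_lit 38) (nat_lit 662) (@Lb.r r21 (@Lb.r r1128 (@Lb.r r386 (@Lb.g g11 (@Lb.g g6 (@Lb.g g5 (@Lb.d (nat_lit 128) (nat_lit 1) (nat_lit 385) (@Lb.r r516 (@Lb.t (@Lb.fm (nat_lit 9) t6985)))))))))))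
noncomputable def l40245 : Lb := (@Lb.d (nat_lit 146) (nat_lit 530) (nat_lit 74) (@Lb.g g8 (@Lb.g g5 (@Lb.g g10 (@Lb.g g11 (@Lb.r r1602 (@Lb.r r404 (@Lb.r r2635 (@Lb.r r2564 (@Lb.d (nat_lit 288) (nat_lit 160) (nat_lit 386) (@Lb.fp (nat_lit 9) t6986)))))))))))
noncomputable def l40246 : Lb := (@Lb.r r70 (@Lb.d (nat_lit 166) (nat_lit 5) (nat_lit 64) (@Lb.g g8 (@Lb.g g5 (@Lb.g g11 (@Lb.r r1563 (@Lb.r r2438 (@Lb.r r2648 (@Lb.d (nat_lit 649) (nat_lit 169) (nat_lit 84) (@Lb.t (@Lb.fm (nat_lit 9) t686)))))))))))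
noncomputable def l40247 : Lb := (@Lb.d (nat_lit 578) (nat_lit 261) (nat_lit 656) (@Lb.r r2698 (@Lb.r r2475 (@Lb.r r1365 (@Lb.g g7 (@Lb.g g6 (@Lb.g g4 (@Lb.d (nat_lit 9) (nat_lit 8) (nat_lit 65) (@Lb.r r25 (@Lb.t (@Lb.fm (nat_lit 9) t6133)))))))))))
noncomputable def l40248 : Lb := (@Lb.r r70 (@Lb.d (nat_lit 4) (nat_lit 517) (nat_lit 0) (@Lb.g g8 (@Lb.g g5 (@Lb.r r1691 (@Lb.r r1610 (@Lb.r r612 (@Lb.d (nat_lit 2) (nat_lit 153) (nat_lit 537) (@Lb.fm (nat_lit 3) t98)))))))))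
noncomputable def l40249 : Lb := (@Lb.d (nat_lit 2) (nat_lit 514) (nat_lit 73) (@Lb.g g8 (@Lb.g g9 (@Lb.g g10 (@Lb.g g11 (@Lb.r r2729 (@Lb.r r2475 (@Lb.r r2440 (@Lb.r r2458 (@Lb.d (nat_lit 400) (nat_lit 22) (nat_lit 617) (@Lb.fm (nat_lit 9) t988)))))))))))
noncomputable def l40250 : Lb := (@Lb.r r275 (@Lb.d (nat_lit 648) (nat_lit 516) (nat_lit 18) (@Lb.g g4 (@Lb.g g9 (@Lb.g g6 (@Lb.r r1411 (@Lb.r r2149 (@Lb.d (nat_lit 330) (nat_lit 0) (nat_lit 1) (@Lb.t (@Lb.fp (nat_lit 9) t1241))))))))))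
noncomputable def l40251 : Lb := (@Lb.d (nat_lit 8) (nat_lit 2) (nat_lit 5) (@Lb.g g9 (@Lb.g g6 (@Lb.g g11 (@Lb.r r2659 (@Lb.d (nat_lit 610) (nat_lit 146) (nat_lit 17) (@Lb.t (@Lb.fm (nat_lit 9) t4088))))))))
noncomputable def l40252 : Lb := (@Lb.r r275 (@Lb.d (nat_lit 130) (nat_lit 516) (nat_lit 0) (@Lb.g g8 (@Lb.g g9 (@Lb.g g10 (@Lb.r r599 (@Lb.r r98 (@Lb.r r2145 (@Lb.r r1432 (@Lb.d (nat_lit 137) (nat_lit 153) (nat_lit 386) (@Lb.t (@Lb.fp (nat_lit 9) t6987))))))))))))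
noncomputable def l40253 : Lb := (@Lb.r r275 (@Lb.d (nat_lit 2) (nat_lit 512) (nat_lit 2) (@Lb.g g8 (@Lb.g g9 (@Lb.g g10 (@Lb.r r427 (@Lb.r r386 (@Lb.r r2073 (@Lb.d (nat_lit 105) (nat_lit 2) (nat_lit 297) (@Lb.t (@Lb.fp (nat_lit 9) t6988)))))))))))
noncomputable def l40254 : Lb := (@Lb.d (nat_lit 0) (nat_lit 2) (nat_lit 130) (@Lb.g g9 (@Lb.g g10 (@Lb.g g11 (@Lb.r r642 (@Lb.r r1419 (@Lb.r r97 (@Lb.r r24 (@Lb.d (nat_lit 289) (nat_lit 65) (nat_lit 9) (@Lb.t (@Lb.fp (nat_lit 9) t4464)))))))))))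
noncomputable def l40255 : Lb := (@Lb.d (nat_lit 8) (nat_lit 514) (nat_lit 4) (@Lb.g g9 (@Lb.g g10 (@Lb.g g11 (@Lb.r r2726 (@Lb.r r1368 (@Lb.r r2567 (@Lb.r r289 (@Lb.d (nat_lit 294) (nat_lit 42) (nat_lit 353) (@Lb.t (@Lb.fm (nat_lit 9) t2154)))))))))))
noncomputable def l40256 : Lb := (@Lb.r r275 (@Lb.d (nat_lit 1) (nat_lit 517) (nat_lit 1) (@Lb.g g4 (@Lb.g g9 (@Lb.g g6 (@Lb.r r1411 (@Lb.r r677 (@Lb.d (nat_lit 536) (nat_lit 26) (nat_lit 266) (@Lb.t (@Lb.fp (nat_lit 9) t4297))))))))))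
noncomputable def l40257 : Lb := (@Lb.d (nat_lit 2) (nat_lit 553) (nat_lit 128) (@Lb.g g8 (@Lb.g g9 (@Lb.g g11 (@Lb.r r1643 (@Lb.r r138 (@Lb.r r2600 (@Lb.r r2665 (@Lb.d (nat_lit 400) (nat_lit 9) (nat_lit 153) (@Lb.t (@Lb.fm (nat_lit 9) t2347)))))))))))
noncomputable def l40258 : Lb := (@Lb.r r275 (@Lb.d (nat_lit 0) (nat_lit 260) (nat_lit 1) (@Lb.g g9 (@Lb.g g6 (@Lb.r r2596 (@Lb.r r391 (@Lb.r r1633 (@Lb.d (nat_lit 0) (nat_lit 25) (nat_lit 256) (@Lb.fm (nat_lit 3) t3981)))))))))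
noncomputable def l40259 : Lb := (@Lb.d (nat_lit 160) (nat_lit 520) (nat_lit 128) (@Lb.g g10 (@Lb.g g11 (@Lb.r r260 (@Lb.r r2667 (@Lb.r r1633 (@Lb.r r338 (@Lb.d (nat_lit 74) (nat_lit 85) (nat_lit 262) (@Lb.fm (nat_lit 3) t322)))))))))
noncomputable def l40260 : Lb := (@Lb.d (nat_lit 2) (nat_lit 514) (nat_lit 4) (@Lb.g g8 (@Lb.g g9 (@Lb.g g10 (@Lb.g g11 (@Lb.r r427 (@Lb.r r420 (@Lb.r r102 (@Lb.r r97 (@Lb.r r36 (@Lb.d (nat_lit 289) (nat_lit 138) (nat_lit 161) (@Lb.fm (nat_lit 9) t4433))))))))))))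
noncomputable def l40261 : Lb := (@Lb.d (nat_lit 10) (nat_lit 64) (nat_lit 256) (@Lb.r r20 (@Lb.r r2145 (@Lb.r r2642 (@Lb.r r2691 (@Lb.g g11 (@Lb.g g6 (@Lb.fp (nat_lit 3) t2341))))))))
noncomputable def l40262 : Lb := (@Lb.d (nat_lit 9) (nat_lit 513) (nat_lit 130) (@Lb.g g8 (@Lb.g g9 (@Lb.g g10 (@Lb.g g11 (@Lb.r r1571 (@Lb.r r1633 (@Lb.r r2458 (@Lb.r r2436 (@Lb.d (nat_lit 530) (nat_lit 2) (nat_lit 106) (@Lb.fm (nat_lit 9) t3143)))))))))))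
noncomputable def l40263 : Lb := (@Lb.d (nat_lit 2) (nat_lit 256) (nat_lit 66) (@Lb.g g8 (@Lb.g g9 (@Lb.g g10 (@Lb.g g7 (@Lb.r r386 (@Lb.r r100 (@Lb.r r21 (@Lb.r r2084 (@Lb.d (nat_lit 0) (nat_lit 90) (nat_lit 281) (@Lb.fp (nat_lit 9) t1174)))))))))))
noncomputable def l40264 : Lb := (@Lb.d (nat_lit 0) (nat_lit 512) (nat_lit 128) (@Lb.g g10 (@Lb.g g11 (@Lb.r r2707 (@Lb.r r2626 (@Lb.d (nat_lit 0) (nat_lit 152) (nat_lit 297) (@Lb.fp (nat_lit 3) t51)))))))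
noncomputable def l40265 : Lb := (@Lb.d (nat_lit 1) (nat_lit 576) (nat_lit 581) (@Lb.r r145 (@Lb.r r658 (@Lb.r r675 (@Lb.r r665 (@Lb.g g4 (@Lb.d (nat_lit 6) (nat_lit 0) (nat_lit 0) (@Lb.t (@Lb.fm (nat_lit 3) t1499)))))))))
noncomputable def l40266 : Lb := (@Lb.d (nat_lit 37) (nat_lit 10) (nat_lit 0) (@Lb.g g8 (@Lb.g g9 (@Lb.r r2379 (@Lb.r r582 (@Lb.r r2452 (@Lb.r r25 (@Lb.d (nat_lit 521) (nat_lit 153) (nat_lit 682) (@Lb.fm (nat_lit 3) t386)))))))))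
noncomputable def l40267 : Lb := (@Lb.r r338 (@Lb.d (nat_lit 6) (nat_lit 544) (nat_lit 8) (@Lb.g g8 (@Lb.g g9 (@Lb.g g11 (@Lb.r r2438 (@Lb.r r36 (@Lb.d (nat_lit 586) (nat_lit 9) (nat_lit 640) (@Lb.t (@Lb.fp (nat_lit 9) t5200))))))))))
noncomputable def l40268 : Lb := (@Lb.d (nat_lit 5) (nat_lit 257) (nat_lit 0) (@Lb.g g4 (@Lb.g g5 (@Lb.r r2311 (@Lb.r r2118 (@Lb.r r24 (@Lb.r r2085 (@Lb.fm (nat_lit 3) t51))))))))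
noncomputable def l40269 : Lb := (@Lb.d (nat_lit 149) (nat_lit 2) (nat_lit 72) (@Lb.g g8 (@Lb.g g9 (@Lb.g g11 (@Lb.r r1114 (@Lb.r r2453 (@Lb.r r2599 (@Lb.r r2308 (@Lb.d (nat_lit 617) (nat_lit 1) (nat_lit 677) (@Lb.t (@Lb.fp (nat_lit 9) t5469)))))))))))
noncomputable def l40270 : Lb := (@Lb.d (nat_lit 2) (nat_lit 0) (nat_lit 66) (@Lb.g g8 (@Lb.g g9 (@Lb.g g10 (@Lb.g g7 (@Lb.r r386 (@Lb.r r20 (@Lb.r r105 (@Lb.r r36 (@Lb.d (nat_lit 8) (nat_lit 89) (nat_lit 265) (@Lb.fm (nat_lit 9) t1926)))))))))))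
noncomputable def l40271 : Lb := (@Lb.r r82 (@Lb.g g8 (@Lb.g g5 (@Lb.r r531 (@Lb.r r1362 (@Lb.r r401 (@Lb.d (nat_lit 0) (nat_lit 646) (nat_lit 16) (@Lb.fm (nat_lit 3) t50))))))))
noncomputable def l40272 : Lb := (@Lb.d (nat_lit 0) (nat_lit 258) (nat_lit 9) (@Lb.g g8 (@Lb.g g9 (@Lb.g g10 (@Lb.g g11 (@Lb.r r2691 (@Lb.r r2209 (@Lb.r r2658 (@Lb.d (nat_lit 0) (nat_lit 160) (nat_lit 662) (@Lb.fp (nat_lit 9) t311))))))))))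
noncomputable def l40273 : Lb := (@Lb.d (nat_lit 65) (nat_lit 256) (nat_lit 21) (@Lb.r r1045 (@Lb.r r646 (@Lb.r r2439 (@Lb.r r644 (@Lb.g g7 (@Lb.g g6 (@Lb.d (nat_lit 16) (nat_lit 0) (nat_lit 128) (@Lb.fp (nat_lit 3) t2550)))))))))
noncomputable def l40274 : Lb := (@Lb.d (nat_lit 4) (nat_lit 512) (nat_lit 64) (@Lb.g g8 (@Lb.g g9 (@Lb.g g11 (@Lb.r r2327 (@Lb.r r2178 (@Lb.r r2585 (@Lb.r r24 (@Lb.d (nat_lit 10) (nat_lit 164) (nat_lit 385) (@Lb.t (@Lb.fm (nat_lit 9) t820)))))))))))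
noncomputable def l40275 : Lb := (@Lb.d (nat_lit 1) (nat_lit 614) (nat_lit 294) (@Lb.r r404 (@Lb.r r2374 (@Lb.r r1691 (@Lb.g g9 (@Lb.g g4 (@Lb.d (nat_lit 10) (nat_lit 10) (nat_lit 0) (@Lb.r r74 (@Lb.fm (nat_lit 3) t6989)))))))))
noncomputable def l40276 : Lb := (@Lb.d (nat_lit 1) (nat_lit 102) (nat_lit 294) (@Lb.r r404 (@Lb.r r2374 (@Lb.r r1691 (@Lb.g g9 (@Lb.g g4 (@Lb.d (nat_lit 1) (nat_lit 74) (nat_lit 0) (@Lb.r r74 (@Lb.fm (nat_lit 3) t3452)))))))))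
noncomputable def l40277 : Lb := (@Lb.d (nat_lit 16) (nat_lit 40) (nat_lit 9) (@Lb.g g9 (@Lb.g g6 (@Lb.r r2579 (@Lb.r r289 (@Lb.r r1608 (@Lb.d (nat_lit 658) (nat_lit 97) (nat_lit 550) (@Lb.fm (nat_lit 3) t6990))))))))
noncomputable def l40278 : Lb := (@Lb.d (nat_lit 402) (nat_lit 649) (nat_lit 518) (@Lb.r r2209 (@Lb.r r1350 (@Lb.r r2475 (@Lb.g g6 (@Lb.g g5 (@Lb.g g4 (@Lb.d (nat_lit 288) (nat_lit 16) (nat_lit 0) (@Lb.t (@Lb.fm (nat_lit 9) t2551))))))))))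
noncomputable def l40279 : Lb := (@Lb.r r322 (@Lb.d (nat_lit 32) (nat_lit 258) (nat_lit 136) (@Lb.g g8 (@Lb.g g9 (@Lb.g g11 (@Lb.r r2666 (@Lb.r r2725 (@Lb.r r1364 (@Lb.d (nat_lit 346) (nat_lit 25) (nat_lit 340) (@Lb.t (@Lb.fp (nat_lit 9) t240)))))))))))
noncomputable def l40280 : Lb := (@Lb.d (nat_lit 0) (nat_lit 516) (nat_lit 65) (@Lb.g g8 (@Lb.g g6 (@Lb.g g11 (@Lb.r r2659 (@Lb.r r101 (@Lb.d (nat_lit 70) (nat_lit 32) (nat_lit 321) (@Lb.t (@Lb.fp (nat_lit 9) t983)))))))))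
noncomputable def l40281 : Lb := (@Lb.d (nat_lit 149) (nat_lit 256) (nat_lit 64) (@Lb.g g8 (@Lb.g g9 (@Lb.g g10 (@Lb.g g11 (@Lb.r r2729 (@Lb.r r2339 (@Lb.r r138 (@Lb.r r2468 (@Lb.d (nat_lit 618) (nat_lit 145) (nat_lit 281) (@Lb.fp (nat_lit 9) t546)))))))))))
noncomputable def l40282 : Lb := (@Lb.r r322 (@Lb.d (nat_lit 32) (nat_lit 514) (nat_lit 136) (@Lb.g g8 (@Lb.g g9 (@Lb.g g11 (@Lb.r r2666 (@Lb.r r2725 (@Lb.r r1364 (@Lb.d (nat_lit 346) (nat_lit 20) (nat_lit 342) (@Lb.t (@Lb.fp (nat_lit 9) t240)))))))))))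
noncomputable def l40283 : Lb := (@Lb.d (nat_lit 0) (nat_lit 514) (nat_lit 73) (@Lb.g g8 (@Lb.g g9 (@Lb.g g10 (@Lb.g g11 (@Lb.r r2691 (@Lb.r r297 (@Lb.r r360 (@Lb.r r582 (@Lb.r r2180 (@Lb.d (nat_lit 321) (nat_lit 90) (nat_lit 73) (@Lb.fm (nat_lit 9) t1190))))))))))))
noncomputable def l40284 : Lb := (@Lb.d (nat_lit 0) (nat_lit 258) (nat_lit 130) (@Lb.g g8 (@Lb.g g9 (@Lb.g g10 (@Lb.g g11 (@Lb.r r2722 (@Lb.r r404 (@Lb.r r681 (@Lb.r r555 (@Lb.r r1060 (@Lb.d (nat_lit 2) (nat_lit 90) (nat_lit 649) (@Lb.fm (nat_lit 9) t1190))))))))))))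
noncomputable def l40285 : Lb := (@Lb.r r322 (@Lb.d (nat_lit 32) (nat_lit 514) (nat_lit 576) (@Lb.g g8 (@Lb.g g9 (@Lb.g g7 (@Lb.r r361 (@Lb.r r150 (@Lb.r r1384 (@Lb.d (nat_lit 673) (nat_lit 74) (nat_lit 529) (@Lb.t (@Lb.fm (nat_lit 9) t1412)))))))))))
noncomputable def l40286 : Lb := (@Lb.r r580 (@Lb.r r593 (@Lb.d (nat_lit 0) (nat_lit 0) (nat_lit 25) (@Lb.g g6 (@Lb.g g11 (@Lb.r r1633 (@Lb.r r1707 (@Lb.r r2632 (@Lb.d (nat_lit 298) (nat_lit 8) (nat_lit 69) (@Lb.fm (nat_lit 3) t125))))))))))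
noncomputable def l40287 : Lb := (@Lb.d (nat_lit 70) (nat_lit 38) (nat_lit 33) (@Lb.r r408 (@Lb.r r330 (@Lb.r r343 (@Lb.g g5 (@Lb.g g4 (@Lb.d (nat_lit 17) (nat_lit 37) (nat_lit 0) (@Lb.r r291 (@Lb.r r98 (@Lb.fp (nat_lit 3) t98))))))))))
noncomputable def l40288 : Lb := (@Lb.d (nat_lit 70) (nat_lit 294) (nat_lit 102) (@Lb.r r408 (@Lb.r r330 (@Lb.r r343 (@Lb.g g5 (@Lb.g g4 (@Lb.d (nat_lit 18) (nat_lit 37) (nat_lit 0) (@Lb.r r291 (@Lb.r r98 (@Lb.fp (nat_lit 3) t98))))))))))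
noncomputable def l40289 : Lb := (@Lb.r r21 (@Lb.d (nat_lit 656) (nat_lit 256) (nat_lit 128) (@Lb.g g8 (@Lb.g g10 (@Lb.g g11 (@Lb.r r387 (@Lb.r r74 (@Lb.r r97 (@Lb.d (nat_lit 592) (nat_lit 0) (nat_lit 41) (@Lb.t (@Lb.fp (nat_lit 9) t6991)))))))))))
noncomputable def l40290 : Lb := (@Lb.r r323 (@Lb.d (nat_lit 0) (nat_lit 546) (nat_lit 17) (@Lb.g g9 (@Lb.g g6 (@Lb.r r403 (@Lb.r r1561 (@Lb.r r24 (@Lb.d (nat_lit 66) (nat_lit 81) (nat_lit 672) (@Lb.fm (nat_lit 3) t1959)))))))))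
noncomputable def l40291 : Lb := (@Lb.d (nat_lit 0) (nat_lit 550) (nat_lit 64) (@Lb.g g8 (@Lb.g g9 (@Lb.g g10 (@Lb.g g11 (@Lb.r r1699 (@Lb.r r610 (@Lb.r r36 (@Lb.r r2581 (@Lb.r r2084 (@Lb.d (nat_lit 33) (nat_lit 162) (nat_lit 657) (@Lb.fm (nat_lit 9) t3984))))))))))))
noncomputable def l40292 : Lb := (@Lb.d (nat_lit 153) (nat_lit 257) (nat_lit 64) (@Lb.g g8 (@Lb.g g9 (@Lb.g g10 (@Lb.g g11 (@Lb.r r427 (@Lb.r r1602 (@Lb.r r409 (@Lb.r r404 (@Lb.d (nat_lit 101) (nat_lit 8) (nat_lit 74) (@Lb.fp (nat_lit 9) t719)))))))))))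
noncomputable def l40293 : Lb := (@Lb.d (nat_lit 9) (nat_lit 1) (nat_lit 130) (@Lb.g g8 (@Lb.g g9 (@Lb.g g10 (@Lb.g g11 (@Lb.r r1699 (@Lb.r r2216 (@Lb.r r1610 (@Lb.r r145 (@Lb.d (nat_lit 402) (nat_lit 104) (nat_lit 105) (@Lb.fp (nat_lit 9) t4512)))))))))))
noncomputable def l40294 : Lb := (@Lb.d (nat_lit 262) (nat_lit 594) (nat_lit 320) (@Lb.r r2145 (@Lb.r r150 (@Lb.r r324 (@Lb.r r651 (@Lb.g g7 (@Lb.g g6 (@Lb.g g4 (@Lb.d (nat_lit 1) (nat_lit 0) (nat_lit 133) (@Lb.t (@Lb.fm (nat_lit 9) t901)))))))))))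
noncomputable def l40295 : Lb := (@Lb.d (nat_lit 401) (nat_lit 133) (nat_lit 401) (@Lb.r r2153 (@Lb.r r2084 (@Lb.r r426 (@Lb.g g11 (@Lb.g g6 (@Lb.g g5 (@Lb.d (nat_lit 4) (nat_lit 24) (nat_lit 394) (@Lb.t (@Lb.fm (nat_lit 9) t3890))))))))))
noncomputable def l40296 : Lb := (@Lb.r r81 (@Lb.r r323 (@Lb.d (nat_lit 9) (nat_lit 260) (nat_lit 42) (@Lb.g g8 (@Lb.g g10 (@Lb.r r1619 (@Lb.r r101 (@Lb.r r152 (@Lb.d (nat_lit 666) (nat_lit 85) (nat_lit 592) (@Lb.fp (nat_lit 3) t3890))))))))))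
noncomputable def l40297 : Lb := (@Lb.d (nat_lit 262) (nat_lit 338) (nat_lit 320) (@Lb.r r2145 (@Lb.r r150 (@Lb.r r324 (@Lb.r r651 (@Lb.g g7 (@Lb.g g6 (@Lb.g g4 (@Lb.d (nat_lit 2) (nat_lit 0) (nat_lit 133) (@Lb.t (@Lb.fm (nat_lit 9) t901)))))))))))
noncomputable def l40298 : Lb := (@Lb.d (nat_lit 0) (nat_lit 514) (nat_lit 73) (@Lb.g g9 (@Lb.g g10 (@Lb.g g11 (@Lb.r r1699 (@Lb.r r533 (@Lb.r r1188 (@Lb.r r1158 (@Lb.d (nat_lit 533) (nat_lit 160) (nat_lit 161) (@Lb.t (@Lb.fm (nat_lit 9) t1961)))))))))))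
noncomputable def l40299 : Lb := (@Lb.d (nat_lit 662) (nat_lit 649) (nat_lit 32) (@Lb.r r584 (@Lb.r r619 (@Lb.r r1625 (@Lb.r r1382 (@Lb.g g6 (@Lb.g g4 (@Lb.d (nat_lit 36) (nat_lit 0) (nat_lit 1) (@Lb.fm (nat_lit 3) t1567)))))))))
noncomputable def l40300 : Lb := (@Lb.d (nat_lit 0) (nat_lit 513) (nat_lit 74) (@Lb.g g9 (@Lb.g g10 (@Lb.g g11 (@Lb.r r2595 (@Lb.r r2434 (@Lb.r r2585 (@Lb.r r24 (@Lb.d (nat_lit 416) (nat_lit 0) (nat_lit 162) (@Lb.t (@Lb.fp (nat_lit 9) t6992)))))))))))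
noncomputable def l40301 : Lb := (@Lb.d (nat_lit 0) (nat_lit 513) (nat_lit 73) (@Lb.g g9 (@Lb.g g10 (@Lb.g g11 (@Lb.r r1707 (@Lb.r r1700 (@Lb.r r1158 (@Lb.r r529 (@Lb.d (nat_lit 533) (nat_lit 146) (nat_lit 166) (@Lb.t (@Lb.fm (nat_lit 9) t1961)))))))))))
noncomputable def l40302 : Lb := (@Lb.d (nat_lit 8) (nat_lit 258) (nat_lit 73) (@Lb.g g9 (@Lb.g g10 (@Lb.g g11 (@Lb.r r2392 (@Lb.r r1703 (@Lb.r r1681 (@Lb.r r1426 (@Lb.d (nat_lit 10) (nat_lit 169) (nat_lit 422) (@Lb.t (@Lb.fp (nat_lit 9) t1403)))))))))))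
noncomputable def l40303 : Lb := (@Lb.d (nat_lit 134) (nat_lit 657) (nat_lit 258) (@Lb.r r1560 (@Lb.r r97 (@Lb.r r1643 (@Lb.g g7 (@Lb.g g10 (@Lb.g g5 (@Lb.g g4 (@Lb.d (nat_lit 18) (nat_lit 1) (nat_lit 66) (@Lb.fp (nat_lit 9) t3914))))))))))
noncomputable def l40304 : Lb := (@Lb.d (nat_lit 2) (nat_lit 289) (nat_lit 2) (@Lb.g g8 (@Lb.g g9 (@Lb.g g10 (@Lb.r r1675 (@Lb.r r1642 (@Lb.r r2145 (@Lb.r r2564 (@Lb.d (nat_lit 137) (nat_lit 136) (nat_lit 360) (@Lb.t (@Lb.fm (nat_lit 9) t2950)))))))))))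
noncomputable def l40305 : Lb := (@Lb.d (nat_lit 2) (nat_lit 257) (nat_lit 64) (@Lb.g g8 (@Lb.g g9 (@Lb.g g11 (@Lb.r r673 (@Lb.r r674 (@Lb.r r2471 (@Lb.r r1620 (@Lb.r r153 (@Lb.d (nat_lit 4) (nat_lit 164) (nat_lit 642) (@Lb.t (@Lb.fm (nat_lit 9) t660))))))))))))
noncomputable def l40306 : Lb := (@Lb.r r21 (@Lb.d (nat_lit 10) (nat_lit 8) (nat_lit 0) (@Lb.g g8 (@Lb.g g10 (@Lb.r r283 (@Lb.r r1121 (@Lb.r r1622 (@Lb.r r1432 (@Lb.d (nat_lit 145) (nat_lit 154) (nat_lit 394) (@Lb.fm (nat_lit 3) t2503))))))))))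
noncomputable def l40307 : Lb := (@Lb.d (nat_lit 32) (nat_lit 294) (nat_lit 0) (@Lb.g g8 (@Lb.g g9 (@Lb.r r2579 (@Lb.r r1094 (@Lb.r r1668 (@Lb.d (nat_lit 544) (nat_lit 4) (nat_lit 292) (@Lb.fp (nat_lit 3) t6993))))))))
noncomputable def l40308 : Lb := (@Lb.d (nat_lit 0) (nat_lit 2) (nat_lit 130) (@Lb.g g9 (@Lb.g g10 (@Lb.g g11 (@Lb.r r1443 (@Lb.r r386 (@Lb.r r148 (@Lb.r r25 (@Lb.d (nat_lit 330) (nat_lit 36) (nat_lit 362) (@Lb.t (@Lb.fp (nat_lit 9) t2734)))))))))))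
noncomputable def l40309 : Lb := (@Lb.d (nat_lit 130) (nat_lit 546) (nat_lit 0) (@Lb.g g8 (@Lb.g g9 (@Lb.g g10 (@Lb.r r535 (@Lb.r r2436 (@Lb.r r150 (@Lb.r r2137 (@Lb.d (nat_lit 362) (nat_lit 102) (nat_lit 130) (@Lb.t (@Lb.fm (nat_lit 9) t2503)))))))))))
noncomputable def l40310 : Lb := (@Lb.r r82 (@Lb.d (nat_lit 33) (nat_lit 73) (nat_lit 0) (@Lb.g g8 (@Lb.g g5 (@Lb.r r2715 (@Lb.r r390 (@Lb.r r584 (@Lb.d (nat_lit 328) (nat_lit 138) (nat_lit 85) (@Lb.fm (nat_lit 3) t6994)))))))))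
noncomputable def l40311 : Lb := (@Lb.r r82 (@Lb.d (nat_lit 8) (nat_lit 266) (nat_lit 0) (@Lb.g g9 (@Lb.r r346 (@Lb.r r340 (@Lb.r r363 (@Lb.r r1441 (@Lb.d (nat_lit 280) (nat_lit 96) (nat_lit 394) (@Lb.t (@Lb.fm (nat_lit 3) t6995))))))))))
noncomputable def l40312 : Lb := (@Lb.r r82 (@Lb.d (nat_lit 33) (nat_lit 73) (nat_lit 0) (@Lb.g g8 (@Lb.g g5 (@Lb.r r2715 (@Lb.r r390 (@Lb.r r584 (@Lb.d (nat_lit 330) (nat_lit 138) (nat_lit 154) (@Lb.fm (nat_lit 3) t6995)))))))))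
noncomputable def l40313 : Lb := (@Lb.d (nat_lit 2) (nat_lit 261) (nat_lit 74) (@Lb.g g8 (@Lb.g g9 (@Lb.g g10 (@Lb.g g11 (@Lb.r r2691 (@Lb.r r2466 (@Lb.r r1317 (@Lb.r r24 (@Lb.d (nat_lit 576) (nat_lit 0) (nat_lit 424) (@Lb.fp (nat_lit 9) t378)))))))))))
noncomputable def l40314 : Lb := (@Lb.d (nat_lit 9) (nat_lit 1) (nat_lit 73) (@Lb.g g8 (@Lb.g g9 (@Lb.g g10 (@Lb.g g11 (@Lb.r r1699 (@Lb.r r596 (@Lb.r r682 (@Lb.r r2217 (@Lb.r r2212 (@Lb.d (nat_lit 581) (nat_lit 96) (nat_lit 586) (@Lb.fm (nat_lit 9) t504))))))))))))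
noncomputable def l40315 : Lb := (@Lb.r r70 (@Lb.d (nat_lit 9) (nat_lit 73) (nat_lit 128) (@Lb.g g8 (@Lb.g g9 (@Lb.g g11 (@Lb.r r2411 (@Lb.r r1174 (@Lb.r r72 (@Lb.d (nat_lit 16) (nat_lit 4) (nat_lit 153) (@Lb.t (@Lb.fm (nat_lit 9) t594)))))))))))
noncomputable def l40316 : Lb := (@Lb.r r263 (@Lb.d (nat_lit 642) (nat_lit 521) (nat_lit 1) (@Lb.g g8 (@Lb.g g9 (@Lb.g g10 (@Lb.r r2647 (@Lb.r r106 (@Lb.r r25 (@Lb.d (nat_lit 282) (nat_lit 9) (nat_lit 612) (@Lb.t (@Lb.fp (nat_lit 9) t2629)))))))))))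
noncomputable def l40317 : Lb := (@Lb.d (nat_lit 640) (nat_lit 288) (nat_lit 64) (@Lb.g g4 (@Lb.g g11 (@Lb.r r2393 (@Lb.r r679 (@Lb.r r2178 (@Lb.d (nat_lit 662) (nat_lit 85) (nat_lit 680) (@Lb.fp (nat_lit 3) t6996))))))))
noncomputable def l40318 : Lb := (@Lb.r r263 (@Lb.d (nat_lit 2) (nat_lit 9) (nat_lit 1) (@Lb.g g8 (@Lb.g g9 (@Lb.g g10 (@Lb.r r1689 (@Lb.r r343 (@Lb.r r2698 (@Lb.r r72 (@Lb.d (nat_lit 153) (nat_lit 2) (nat_lit 290) (@Lb.t (@Lb.fm (nat_lit 9) t3915))))))))))))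
noncomputable def l40319 : Lb := (@Lb.r r82 (@Lb.r r275 (@Lb.d (nat_lit 8) (nat_lit 385) (nat_lit 0) (@Lb.g g5 (@Lb.r r1636 (@Lb.r r1543 (@Lb.r r578 (@Lb.d (nat_lit 290) (nat_lit 137) (nat_lit 262) (@Lb.t (@Lb.fp (nat_lit 3) t6997))))))))))
noncomputable def l40320 : Lb := (@Lb.r r82 (@Lb.r r275 (@Lb.d (nat_lit 9) (nat_lit 512) (nat_lit 0) (@Lb.g g8 (@Lb.g g5 (@Lb.r r2315 (@Lb.r r98 (@Lb.r r24 (@Lb.d (nat_lit 266) (nat_lit 2) (nat_lit 0) (@Lb.fm (nat_lit 3) t2500))))))))))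
noncomputable def l40321 : Lb := (@Lb.r r21 (@Lb.r r86 (@Lb.r r279 (@Lb.g g5 (@Lb.g g4 (@Lb.d (nat_lit 1) (nat_lit 512) (nat_lit 0) (@Lb.r r291 (@Lb.r r98 (@Lb.fm (nat_lit 3) t68)))))))))
noncomputable def l40322 : Lb := (@Lb.d (nat_lit 257) (nat_lit 5) (nat_lit 342) (@Lb.r r81 (@Lb.r r102 (@Lb.r r597 (@Lb.r r343 (@Lb.g g7 (@Lb.g g6 (@Lb.g g5 (@Lb.g g4 (@Lb.d (nat_lit 1) (nat_lit 1) (nat_lit 65) (@Lb.fp (nat_lit 9) t473)))))))))))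
noncomputable def l40323 : Lb := (@Lb.d (nat_lit 9) (nat_lit 1) (nat_lit 66) (@Lb.g g8 (@Lb.g g9 (@Lb.g g10 (@Lb.g g7 (@Lb.r r386 (@Lb.r r97 (@Lb.r r24 (@Lb.d (nat_lit 328) (nat_lit 9) (nat_lit 585) (@Lb.fp (nat_lit 9) t1150))))))))))
noncomputable def l40324 : Lb := (@Lb.d (nat_lit 8) (nat_lit 514) (nat_lit 73) (@Lb.g g8 (@Lb.g g9 (@Lb.g g10 (@Lb.g g11 (@Lb.r r419 (@Lb.r r1188 (@Lb.r r1446 (@Lb.r r1425 (@Lb.d (nat_lit 297) (nat_lit 89) (nat_lit 356) (@Lb.fm (nat_lit 9) t1242)))))))))))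
noncomputable def l40325 : Lb := (@Lb.r r82 (@Lb.r r275 (@Lb.d (nat_lit 9) (nat_lit 256) (nat_lit 0) (@Lb.g g8 (@Lb.g g5 (@Lb.r r2315 (@Lb.r r98 (@Lb.r r24 (@Lb.d (nat_lit 264) (nat_lit 2) (nat_lit 0) (@Lb.fm (nat_lit 3) t2389))))))))))
noncomputable def l40326 : Lb := (@Lb.d (nat_lit 518) (nat_lit 646) (nat_lit 273) (@Lb.r r2129 (@Lb.r r102 (@Lb.r r597 (@Lb.r r2391 (@Lb.g g7 (@Lb.g g6 (@Lb.g g5 (@Lb.g g4 (@Lb.d (nat_lit 274) (nat_lit 8) (nat_lit 65) (@Lb.fp (nat_lit 9) t6998)))))))))))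
noncomputable def l40327 : Lb := (@Lb.d (nat_lit 385) (nat_lit 516) (nat_lit 288) (@Lb.r r2149 (@Lb.r r1048 (@Lb.r r2663 (@Lb.g g10 (@Lb.g g5 (@Lb.d (nat_lit 36) (nat_lit 1) (nat_lit 17) (@Lb.r r403 (@Lb.fm (nat_lit 3) t6999)))))))))
noncomputable def l40328 : Lb := (@Lb.r r81 (@Lb.r r323 (@Lb.d (nat_lit 41) (nat_lit 256) (nat_lit 0) (@Lb.g g8 (@Lb.g g6 (@Lb.r r387 (@Lb.r r37 (@Lb.d (nat_lit 2) (nat_lit 81) (nat_lit 298) (@Lb.fm (nat_lit 3) t7000)))))))))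
noncomputable def l40329 : Lb := (@Lb.d (nat_lit 145) (nat_lit 361) (nat_lit 522) (@Lb.r r289 (@Lb.r r595 (@Lb.r r326 (@Lb.g g6 (@Lb.g g5 (@Lb.g g4 (@Lb.d (nat_lit 1) (nat_lit 22) (nat_lit 1) (@Lb.r r387 (@Lb.t (@Lb.fp (nat_lit 9) t7001)))))))))))
noncomputable def l40330 : Lb := (@Lb.d (nat_lit 2) (nat_lit 2) (nat_lit 73) (@Lb.g g8 (@Lb.g g9 (@Lb.g g10 (@Lb.g g11 (@Lb.r r427 (@Lb.r r1634 (@Lb.r r292 (@Lb.r r2069 (@Lb.r r1060 (@Lb.d (nat_lit 609) (nat_lit 154) (nat_lit 261) (@Lb.fp (nat_lit 9) t4045))))))))))))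
noncomputable def l40331 : Lb := (@Lb.d (nat_lit 154) (nat_lit 80) (nat_lit 70) (@Lb.r r596 (@Lb.r r1607 (@Lb.r r346 (@Lb.g g9 (@Lb.g g4 (@Lb.d (nat_lit 81) (nat_lit 130) (nat_lit 0) (@Lb.r r291 (@Lb.r r98 (@Lb.fm (nat_lit 3) t7002))))))))))
noncomputable def l40332 : Lb := (@Lb.d (nat_lit 42) (nat_lit 324) (nat_lit 277) (@Lb.r r1432 (@Lb.r r2337 (@Lb.r r2410 (@Lb.g g11 (@Lb.g g5 (@Lb.g g4 (@Lb.d (nat_lit 17) (nat_lit 1) (nat_lit 384) (@Lb.r r578 (@Lb.t (@Lb.fm (nat_lit 9) t3699)))))))))))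
noncomputable def l40333 : Lb := (@Lb.d (nat_lit 5) (nat_lit 600) (nat_lit 601) (@Lb.r r1543 (@Lb.r r424 (@Lb.r r90 (@Lb.g g9 (@Lb.g g4 (@Lb.d (nat_lit 17) (nat_lit 130) (nat_lit 0) (@Lb.r r291 (@Lb.r r98 (@Lb.fp (nat_lit 3) t1613))))))))))
noncomputable def l40334 : Lb := (@Lb.d (nat_lit 134) (nat_lit 256) (nat_lit 130) (@Lb.g g8 (@Lb.g g9 (@Lb.g g10 (@Lb.g g11 (@Lb.r r2666 (@Lb.r r2664 (@Lb.r r299 (@Lb.r r25 (@Lb.d (nat_lit 9) (nat_lit 97) (nat_lit 549) (@Lb.fm (nat_lit 9) t3699)))))))))))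
noncomputable def l40335 : Lb := (@Lb.d (nat_lit 4) (nat_lit 36) (nat_lit 128) (@Lb.g g8 (@Lb.g g9 (@Lb.g g10 (@Lb.g g11 (@Lb.r r2666 (@Lb.r r584 (@Lb.r r267 (@Lb.r r1061 (@Lb.d (nat_lit 648) (nat_lit 130) (nat_lit 330) (@Lb.fp (nat_lit 9) t7003)))))))))))
noncomputable def l40336 : Lb := (@Lb.d (nat_lit 0) (nat_lit 512) (nat_lit 66) (@Lb.g g10 (@Lb.g g7 (@Lb.r r386 (@Lb.r r1172 (@Lb.r r2073 (@Lb.d (nat_lit 0) (nat_lit 133) (nat_lit 24) (@Lb.fm (nat_lit 3) t40))))))))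
noncomputable def l40337 : Lb := (@Lb.d (nat_lit 8) (nat_lit 258) (nat_lit 0) (@Lb.g g9 (@Lb.g g10 (@Lb.g g7 (@Lb.r r1414 (@Lb.d (nat_lit 105) (nat_lit 2) (nat_lit 354) (@Lb.t (@Lb.fm (nat_lit 9) t282))))))))
noncomputable def l40338 : Lb := (@Lb.d (nat_lit 2) (nat_lit 2) (nat_lit 66) (@Lb.g g8 (@Lb.g g9 (@Lb.g g10 (@Lb.g g11 (@Lb.r r593 (@Lb.r r426 (@Lb.r r424 (@Lb.r r279 (@Lb.r r1561 (@Lb.d (nat_lit 262) (nat_lit 130) (nat_lit 10) (@Lb.fp (nat_lit 9) t2))))))))))))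
noncomputable def l40339 : Lb := (@Lb.d (nat_lit 128) (nat_lit 0) (nat_lit 64) (@Lb.g g10 (@Lb.g g11 (@Lb.r r361 (@Lb.r r292 (@Lb.r r539 (@Lb.r r134 (@Lb.d (nat_lit 586) (nat_lit 34) (nat_lit 37) (@Lb.fp (nat_lit 3) t40)))))))))
noncomputable def l40340 : Lb := (@Lb.d (nat_lit 2) (nat_lit 2) (nat_lit 130) (@Lb.g g8 (@Lb.g g9 (@Lb.g g10 (@Lb.g g11 (@Lb.r r84 (@Lb.r r154 (@Lb.r r597 (@Lb.r r343 (@Lb.r r676 (@Lb.d (nat_lit 325) (nat_lit 65) (nat_lit 586) (@Lb.fm (nat_lit 9) t716))))))))))))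
noncomputable def l40341 : Lb := (@Lb.d (nat_lit 4) (nat_lit 261) (nat_lit 128) (@Lb.g g8 (@Lb.g g9 (@Lb.g g10 (@Lb.g g11 (@Lb.r r1635 (@Lb.r r1634 (@Lb.r r2153 (@Lb.r r1416 (@Lb.d (nat_lit 133) (nat_lit 85) (nat_lit 646) (@Lb.fm (nat_lit 9) t830)))))))))))
noncomputable def l40342 : Lb := (@Lb.d (nat_lit 582) (nat_lit 38) (nat_lit 65) (@Lb.r r408 (@Lb.r r1106 (@Lb.r r1623 (@Lb.g g6 (@Lb.g g5 (@Lb.g g4 (@Lb.d (nat_lit 65) (nat_lit 136) (nat_lit 0) (@Lb.r r387 (@Lb.t (@Lb.fp (nat_lit 9) t242)))))))))))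
noncomputable def l40343 : Lb := (@Lb.d (nat_lit 1) (nat_lit 512) (nat_lit 528) (@Lb.r r2182 (@Lb.r r324 (@Lb.r r1563 (@Lb.r r1317 (@Lb.g g9 (@Lb.g g4 (@Lb.r r74 (@Lb.fm (nat_lit 3) t5669)))))))))
noncomputable def l40344 : Lb := (@Lb.r r70 (@Lb.d (nat_lit 136) (nat_lit 257) (nat_lit 384) (@Lb.g g8 (@Lb.g g9 (@Lb.g g11 (@Lb.r r1602 (@Lb.r r537 (@Lb.r r1368 (@Lb.d (nat_lit 73) (nat_lit 86) (nat_lit 152) (@Lb.t (@Lb.fp (nat_lit 9) t6981)))))))))))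
noncomputable def l40345 : Lb := (@Lb.g g6 (@Lb.r r2579 (@Lb.r r2341 (@Lb.r r1620 (@Lb.r r2442 (@Lb.d (nat_lit 322) (nat_lit 5) (nat_lit 1) (@Lb.t (@Lb.fp (nat_lit 3) t2911))))))))
noncomputable def l40346 : Lb := (@Lb.d (nat_lit 2) (nat_lit 681) (nat_lit 424) (@Lb.r r2705 (@Lb.r r2182 (@Lb.r r1687 (@Lb.g g5 (@Lb.g g4 (@Lb.d (nat_lit 536) (nat_lit 17) (nat_lit 0) (@Lb.r r74 (@Lb.fm (nat_lit 3) t5237)))))))))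
noncomputable def l40347 : Lb := (@Lb.d (nat_lit 16) (nat_lit 521) (nat_lit 73) (@Lb.g g8 (@Lb.g g9 (@Lb.g g10 (@Lb.g g11 (@Lb.r r1667 (@Lb.r r1321 (@Lb.r r360 (@Lb.r r1606 (@Lb.r r132 (@Lb.d (nat_lit 392) (nat_lit 137) (nat_lit 601) (@Lb.fm (nat_lit 9) t6440))))))))))))
noncomputable def l40348 : Lb := (@Lb.d (nat_lit 96) (nat_lit 4) (nat_lit 74) (@Lb.g g8 (@Lb.g g9 (@Lb.g g10 (@Lb.g g11 (@Lb.r r2691 (@Lb.r r2134 (@Lb.r r1313 (@Lb.r r2644 (@Lb.d (nat_lit 598) (nat_lit 85) (nat_lit 342) (@Lb.fp (nat_lit 9) t3702)))))))))))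
noncomputable def l40349 : Lb := (@Lb.r r82 (@Lb.r r283 (@Lb.d (nat_lit 513) (nat_lit 256) (nat_lit 0) (@Lb.g g8 (@Lb.g g9 (@Lb.r r1323 (@Lb.r r106 (@Lb.r r25 (@Lb.d (nat_lit 2) (nat_lit 0) (nat_lit 0) (@Lb.fm (nat_lit 3) t442))))))))))
noncomputable def l40350 : Lb := (@Lb.d (nat_lit 262) (nat_lit 402) (nat_lit 292) (@Lb.r r613 (@Lb.r r276 (@Lb.r r2646 (@Lb.r r683 (@Lb.g g7 (@Lb.g g6 (@Lb.g g5 (@Lb.d (nat_lit 0) (nat_lit 25) (nat_lit 64) (@Lb.t (@Lb.fp (nat_lit 9) t7004)))))))))))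
noncomputable def l40351 : Lb := (@Lb.r r82 (@Lb.d (nat_lit 2) (nat_lit 258) (nat_lit 128) (@Lb.g g8 (@Lb.g g9 (@Lb.g g11 (@Lb.r r1307 (@Lb.r r578 (@Lb.r r289 (@Lb.r r24 (@Lb.d (nat_lit 265) (nat_lit 42) (nat_lit 4) (@Lb.t (@Lb.fm (nat_lit 9) t5389))))))))))))
noncomputable def l40352 : Lb := (@Lb.d (nat_lit 0) (nat_lit 265) (nat_lit 129) (@Lb.g g8 (@Lb.g g9 (@Lb.g g10 (@Lb.g g11 (@Lb.r r1443 (@Lb.r r1122 (@Lb.r r616 (@Lb.r r2153 (@Lb.r r1060 (@Lb.d (nat_lit 545) (nat_lit 0) (nat_lit 425) (@Lb.fp (nat_lit 9) t7005))))))))))))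
noncomputable def l40353 : Lb := (@Lb.g g8 (@Lb.d (nat_lit 9) (nat_lit 265) (nat_lit 2) (@Lb.t (@Lb.fp (nat_lit 3) t21))))
noncomputable def l40354 : Lb := (@Lb.d (nat_lit 0) (nat_lit 514) (nat_lit 130) (@Lb.g g9 (@Lb.g g10 (@Lb.g g11 (@Lb.r r1675 (@Lb.r r648 (@Lb.r r1194 (@Lb.r r425 (@Lb.r r2084 (@Lb.d (nat_lit 266) (nat_lit 97) (nat_lit 618) (@Lb.t (@Lb.fm (nat_lit 9) t1649))))))))))))
noncomputable def l40355 : Lb := (@Lb.d (nat_lit 1) (nat_lit 386) (nat_lit 0) (@Lb.g g4 (@Lb.g g9 (@Lb.r r402 (@Lb.d (nat_lit 1) (nat_lit 36) (nat_lit 85) (@Lb.fm (nat_lit 3) t334))))))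
noncomputable def l40356 : Lb := (@Lb.d (nat_lit 128) (nat_lit 512) (nat_lit 136) (@Lb.g g7 (@Lb.r r24 (@Lb.r r1701 (@Lb.r r678 (@Lb.r r2727 (@Lb.d (nat_lit 341) (nat_lit 42) (nat_lit 585) (@Lb.t (@Lb.fm (nat_lit 3) t246)))))))))
noncomputable def l40357 : Lb := (@Lb.g g6 (@Lb.g g7 (@Lb.r r594 (@Lb.r r2449 (@Lb.r r24 (@Lb.d (nat_lit 10) (nat_lit 410) (nat_lit 66) (@Lb.fp (nat_lit 3) t918)))))))
noncomputable def l40358 : Lb := (@Lb.g g4 (@Lb.g g6 (@Lb.g g7 (@Lb.r r594 (@Lb.r r2449 (@Lb.r r24 (@Lb.d (nat_lit 0) (nat_lit 152) (nat_lit 66) (@Lb.t (@Lb.fm (nat_lit 9) t918)))))))))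
noncomputable def l40359 : Lb := (@Lb.d (nat_lit 2) (nat_lit 545) (nat_lit 66) (@Lb.g g8 (@Lb.g g9 (@Lb.g g10 (@Lb.g g11 (@Lb.r r683 (@Lb.r r1700 (@Lb.r r1190 (@Lb.r r1061 (@Lb.d (nat_lit 9) (nat_lit 137) (nat_lit 169) (@Lb.fm (nat_lit 9) t1640)))))))))))
noncomputable def l40360 : Lb := (@Lb.d (nat_lit 129) (nat_lit 33) (nat_lit 0) (@Lb.g g8 (@Lb.g g9 (@Lb.r r519 (@Lb.r r2178 (@Lb.r r1304 (@Lb.r r1061 (@Lb.d (nat_lit 617) (nat_lit 33) (nat_lit 418) (@Lb.fm (nat_lit 3) t3183)))))))))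
noncomputable def l40361 : Lb := (@Lb.g g6 (@Lb.g g7 (@Lb.r r594 (@Lb.r r2449 (@Lb.r r24 (@Lb.d (nat_lit 0) (nat_lit 152) (nat_lit 66) (@Lb.fp (nat_lit 3) t918)))))))
noncomputable def l40362 : Lb := (@Lb.d (nat_lit 132) (nat_lit 18) (nat_lit 136) (@Lb.r r539 (@Lb.r r421 (@Lb.r r358 (@Lb.r r644 (@Lb.g g7 (@Lb.g g6 (@Lb.g g5 (@Lb.d (nat_lit 68) (nat_lit 0) (nat_lit 133) (@Lb.t (@Lb.fp (nat_lit 9) t2)))))))))))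
noncomputable def l40363 : Lb := (@Lb.d (nat_lit 1) (nat_lit 10) (nat_lit 72) (@Lb.g g8 (@Lb.g g9 (@Lb.g g11 (@Lb.r r150 (@Lb.r r360 (@Lb.r r407 (@Lb.r r609 (@Lb.d (nat_lit 9) (nat_lit 25) (nat_lit 130) (@Lb.t (@Lb.fp (nat_lit 9) t2)))))))))))
noncomputable def l40364 : Lb := (@Lb.d (nat_lit 161) (nat_lit 258) (nat_lit 0) (@Lb.g g8 (@Lb.g g9 (@Lb.r r662 (@Lb.r r361 (@Lb.r r535 (@Lb.r r296 (@Lb.d (nat_lit 134) (nat_lit 34) (nat_lit 130) (@Lb.fm (nat_lit 3) t2)))))))))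
noncomputable def l40365 : Lb := (@Lb.r r322 (@Lb.d (nat_lit 2) (nat_lit 256) (nat_lit 8) (@Lb.g g8 (@Lb.g g11 (@Lb.r r357 (@Lb.r r146 (@Lb.d (nat_lit 144) (nat_lit 16) (nat_lit 17) (@Lb.fm (nat_lit 3) t590))))))))
noncomputable def l40366 : Lb := (@Lb.d (nat_lit 2) (nat_lit 521) (nat_lit 73) (@Lb.g g8 (@Lb.g g9 (@Lb.g g10 (@Lb.g g11 (@Lb.r r1666 (@Lb.r r1431 (@Lb.r r2585 (@Lb.d (nat_lit 329) (nat_lit 42) (nat_lit 144) (@Lb.fm (nat_lit 9) t1397))))))))))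
noncomputable def l40367 : Lb := (@Lb.d (nat_lit 2) (nat_lit 522) (nat_lit 73) (@Lb.g g8 (@Lb.g g9 (@Lb.g g10 (@Lb.g g11 (@Lb.r r1666 (@Lb.r r2455 (@Lb.r r1561 (@Lb.d (nat_lit 585) (nat_lit 170) (nat_lit 400) (@Lb.fm (nat_lit 9) t1397))))))))))
noncomputable def l40368 : Lb := (@Lb.r r1371 (@Lb.r r1304 (@Lb.r r101 (@Lb.r r154 (@Lb.d (nat_lit 517) (nat_lit 0) (nat_lit 0) (@Lb.fm (nat_lit 1) t1069))))))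
noncomputable def l40369 : Lb := (@Lb.r r20 (@Lb.d (nat_lit 0) (nat_lit 102) (nat_lit 64) (@Lb.g g9 (@Lb.g g10 (@Lb.g g11 (@Lb.r r2467 (@Lb.r r1126 (@Lb.r r2180 (@Lb.d (nat_lit 642) (nat_lit 2) (nat_lit 640) (@Lb.t (@Lb.fm (nat_lit 9) t3433)))))))))))
noncomputable def l40370 : Lb := (@Lb.r r323 (@Lb.d (nat_lit 2) (nat_lit 514) (nat_lit 2) (@Lb.g g8 (@Lb.g g9 (@Lb.g g10 (@Lb.r r2731 (@Lb.r r161 (@Lb.r r610 (@Lb.r r24 (@Lb.d (nat_lit 264) (nat_lit 89) (nat_lit 640) (@Lb.t (@Lb.fp (nat_lit 9) t7006))))))))))))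
noncomputable def l40371 : Lb := (@Lb.r r277 (@Lb.r r326 (@Lb.d (nat_lit 261) (nat_lit 0) (nat_lit 320) (@Lb.g g8 (@Lb.g g11 (@Lb.r r2434 (@Lb.r r2457 (@Lb.d (nat_lit 0) (nat_lit 154) (nat_lit 330) (@Lb.fp (nat_lit 3) t7007)))))))))
noncomputable def l40372 : Lb := (@Lb.r r323 (@Lb.d (nat_lit 2) (nat_lit 258) (nat_lit 2) (@Lb.g g8 (@Lb.g g9 (@Lb.g g10 (@Lb.r r2731 (@Lb.r r161 (@Lb.r r610 (@Lb.r r24 (@Lb.d (nat_lit 264) (nat_lit 89) (nat_lit 517) (@Lb.t (@Lb.fp (nat_lit 9) t7006))))))))))))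
noncomputable def l40373 : Lb := (@Lb.d (nat_lit 2) (nat_lit 294) (nat_lit 0) (@Lb.g g8 (@Lb.g g9 (@Lb.r r2571 (@Lb.r r2724 (@Lb.r r134 (@Lb.d (nat_lit 577) (nat_lit 148) (nat_lit 9) (@Lb.fm (nat_lit 3) t6757))))))))
noncomputable def l40374 : Lb := (@Lb.r r275 (@Lb.d (nat_lit 2) (nat_lit 258) (nat_lit 2) (@Lb.g g8 (@Lb.g g9 (@Lb.g g10 (@Lb.r r1707 (@Lb.r r386 (@Lb.r r609 (@Lb.r r24 (@Lb.d (nat_lit 266) (nat_lit 18) (nat_lit 262) (@Lb.t (@Lb.fm (nat_lit 9) t5659))))))))))))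
noncomputable def l40375 : Lb := (@Lb.r r532 (@Lb.d (nat_lit 0) (nat_lit 102) (nat_lit 64) (@Lb.g g9 (@Lb.g g10 (@Lb.g g11 (@Lb.r r2658 (@Lb.r r1611 (@Lb.r r2564 (@Lb.d (nat_lit 546) (nat_lit 2) (nat_lit 100) (@Lb.t (@Lb.fp (nat_lit 9) t7008)))))))))))
noncomputable def l40376 : Lb := (@Lb.g g4 (@Lb.g g9 (@Lb.r r2599 (@Lb.r r1364 (@Lb.r r2218 (@Lb.r r2201 (@Lb.d (nat_lit 26) (nat_lit 394) (nat_lit 18) (@Lb.fp (nat_lit 3) t353))))))))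
noncomputable def l40377 : Lb := (@Lb.d (nat_lit 405) (nat_lit 281) (nat_lit 581) (@Lb.r r405 (@Lb.r r2454 (@Lb.r r1124 (@Lb.g g7 (@Lb.g g5 (@Lb.d (nat_lit 4) (nat_lit 6) (nat_lit 64) (@Lb.fp (nat_lit 3) t322))))))))
noncomputable def l40378 : Lb := (@Lb.d (nat_lit 37) (nat_lit 166) (nat_lit 529) (@Lb.r r154 (@Lb.r r660 (@Lb.r r663 (@Lb.r r353 (@Lb.g g7 (@Lb.g g6 (@Lb.g g4 (@Lb.d (nat_lit 0) (nat_lit 4) (nat_lit 8) (@Lb.t (@Lb.fm (nat_lit 9) t584)))))))))))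
noncomputable def l40379 : Lb := (@Lb.d (nat_lit 357) (nat_lit 337) (nat_lit 98) (@Lb.r r1681 (@Lb.r r1618 (@Lb.r r363 (@Lb.r r264 (@Lb.g g7 (@Lb.g g5 (@Lb.d (nat_lit 68) (nat_lit 0) (nat_lit 128) (@Lb.fp (nat_lit 3) t2888)))))))))
noncomputable def l40380 : Lb := (@Lb.d (nat_lit 2) (nat_lit 88) (nat_lit 341) (@Lb.r r1362 (@Lb.g g7 (@Lb.g g6 (@Lb.g g5 (@Lb.g g8 (@Lb.d (nat_lit 0) (nat_lit 0) (nat_lit 65) (@Lb.fm (nat_lit 9) t1400))))))))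
noncomputable def l40381 : Lb := (@Lb.r r21 (@Lb.d (nat_lit 536) (nat_lit 256) (nat_lit 64) (@Lb.g g8 (@Lb.g g10 (@Lb.g g11 (@Lb.r r1435 (@Lb.r r1410 (@Lb.r r37 (@Lb.d (nat_lit 2) (nat_lit 138) (nat_lit 546) (@Lb.t (@Lb.fm (nat_lit 9) t1648)))))))))))
noncomputable def l40382 : Lb := (@Lb.r r21 (@Lb.d (nat_lit 536) (nat_lit 512) (nat_lit 128) (@Lb.g g8 (@Lb.g g10 (@Lb.g g11 (@Lb.r r1435 (@Lb.r r1410 (@Lb.r r37 (@Lb.d (nat_lit 2) (nat_lit 128) (nat_lit 544) (@Lb.t (@Lb.fm (nat_lit 9) t1648)))))))))))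
noncomputable def l40383 : Lb := (@Lb.r r21 (@Lb.d (nat_lit 10) (nat_lit 512) (nat_lit 130) (@Lb.g g8 (@Lb.g g10 (@Lb.g g11 (@Lb.r r411 (@Lb.r r90 (@Lb.r r145 (@Lb.d (nat_lit 265) (nat_lit 2) (nat_lit 170) (@Lb.t (@Lb.fm (nat_lit 9) t1022)))))))))))
noncomputable def l40384 : Lb := (@Lb.r r21 (@Lb.r r263 (@Lb.d (nat_lit 73) (nat_lit 512) (nat_lit 2) (@Lb.g g4 (@Lb.g g10 (@Lb.r r1559 (@Lb.r r386 (@Lb.r r97 (@Lb.d (nat_lit 2) (nat_lit 144) (nat_lit 358) (@Lb.fm (nat_lit 3) t3278))))))))))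
noncomputable def l40385 : Lb := (@Lb.d (nat_lit 0) (nat_lit 2) (nat_lit 2) (@Lb.g g9 (@Lb.g g10 (@Lb.g g7 (@Lb.r r1092 (@Lb.r r106 (@Lb.r r97 (@Lb.d (nat_lit 361) (nat_lit 132) (nat_lit 593) (@Lb.t (@Lb.fm (nat_lit 9) t7009))))))))))
noncomputable def l40386 : Lb := (@Lb.d (nat_lit 529) (nat_lit 256) (nat_lit 130) (@Lb.g g4 (@Lb.g g9 (@Lb.g g10 (@Lb.g g11 (@Lb.r r1667 (@Lb.r r1634 (@Lb.r r101 (@Lb.d (nat_lit 646) (nat_lit 33) (nat_lit 128) (@Lb.fm (nat_lit 9) t3213))))))))))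
noncomputable def l40387 : Lb := (@Lb.d (nat_lit 385) (nat_lit 593) (nat_lit 33) (@Lb.r r132 (@Lb.r r422 (@Lb.r r1425 (@Lb.g g11 (@Lb.g g6 (@Lb.g g4 (@Lb.d (nat_lit 4) (nat_lit 0) (nat_lit 128) (@Lb.t (@Lb.fp (nat_lit 9) t1456))))))))))
noncomputable def l40388 : Lb := (@Lb.g g9 (@Lb.g g10 (@Lb.g g7 (@Lb.r r1414 (@Lb.d (nat_lit 106) (nat_lit 2) (nat_lit 354) (@Lb.t (@Lb.fm (nat_lit 9) t282)))))))
noncomputable def l40389 : Lb := (@Lb.d (nat_lit 34) (nat_lit 512) (nat_lit 0) (@Lb.g g4 (@Lb.r r2391 (@Lb.r r2713 (@Lb.r r154 (@Lb.r r2200 (@Lb.d (nat_lit 549) (nat_lit 133) (nat_lit 70) (@Lb.t (@Lb.fm (nat_lit 3) t51)))))))))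
noncomputable def l40390 : Lb := (@Lb.d (nat_lit 0) (nat_lit 258) (nat_lit 66) (@Lb.g g9 (@Lb.g g10 (@Lb.g g7 (@Lb.r r386 (@Lb.r r97 (@Lb.r r24 (@Lb.d (nat_lit 328) (nat_lit 104) (nat_lit 265) (@Lb.t (@Lb.fm (nat_lit 9) t4028))))))))))
noncomputable def l40391 : Lb := (@Lb.d (nat_lit 2) (nat_lit 528) (nat_lit 2) (@Lb.g g8 (@Lb.g g9 (@Lb.g g10 (@Lb.g g11 (@Lb.r r1699 (@Lb.r r1448 (@Lb.r r1130 (@Lb.r r1049 (@Lb.d (nat_lit 297) (nat_lit 73) (nat_lit 144) (@Lb.fp (nat_lit 9) t7010)))))))))))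
noncomputable def l40392 : Lb := (@Lb.r r70 (@Lb.d (nat_lit 385) (nat_lit 514) (nat_lit 128) (@Lb.g g8 (@Lb.g g9 (@Lb.g g11 (@Lb.r r2475 (@Lb.r r1410 (@Lb.r r25 (@Lb.d (nat_lit 361) (nat_lit 66) (nat_lit 512) (@Lb.t (@Lb.fp (nat_lit 9) t7011)))))))))))
noncomputable def l40393 : Lb := (@Lb.g g4 (@Lb.r r289 (@Lb.r r2579 (@Lb.r r72 (@Lb.r r582 (@Lb.r r2180 (@Lb.t (@Lb.fp (nat_lit 3) t351))))))))
noncomputable def l40394 : Lb := (@Lb.d (nat_lit 96) (nat_lit 390) (nat_lit 533) (@Lb.r r289 (@Lb.r r1642 (@Lb.r r1352 (@Lb.g g7 (@Lb.g g6 (@Lb.d (nat_lit 16) (nat_lit 16) (nat_lit 641) (@Lb.fm (nat_lit 3) t7012))))))))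
noncomputable def l40395 : Lb := (@Lb.r r21 (@Lb.r r70 (@Lb.d (nat_lit 409) (nat_lit 256) (nat_lit 128) (@Lb.g g8 (@Lb.g g11 (@Lb.r r2395 (@Lb.r r1410 (@Lb.r r1445 (@Lb.d (nat_lit 4) (nat_lit 153) (nat_lit 512) (@Lb.fm (nat_lit 3) t7013))))))))))
noncomputable def l40396 : Lb := (@Lb.r r326 (@Lb.d (nat_lit 72) (nat_lit 545) (nat_lit 644) (@Lb.g g8 (@Lb.g g9 (@Lb.g g7 (@Lb.r r418 (@Lb.r r1065 (@Lb.r r596 (@Lb.d (nat_lit 361) (nat_lit 90) (nat_lit 420) (@Lb.t (@Lb.fp (nat_lit 9) t6309)))))))))))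
noncomputable def l40397 : Lb := (@Lb.r r331 (@Lb.d (nat_lit 32) (nat_lit 4) (nat_lit 2) (@Lb.g g8 (@Lb.g g9 (@Lb.g g10 (@Lb.r r2466 (@Lb.r r1383 (@Lb.r r2329 (@Lb.r r1108 (@Lb.d (nat_lit 289) (nat_lit 162) (nat_lit 385) (@Lb.t (@Lb.fp (nat_lit 9) t2318))))))))))))
noncomputable def l40398 : Lb := (@Lb.d (nat_lit 1) (nat_lit 2) (nat_lit 66) (@Lb.g g8 (@Lb.g g9 (@Lb.g g10 (@Lb.g g11 (@Lb.r r610 (@Lb.r r1607 (@Lb.r r292 (@Lb.r r1045 (@Lb.r r2084 (@Lb.d (nat_lit 9) (nat_lit 168) (nat_lit 642) (@Lb.fm (nat_lit 9) t2815))))))))))))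
noncomputable def l40399 : Lb := (@Lb.d (nat_lit 146) (nat_lit 514) (nat_lit 4) (@Lb.g g8 (@Lb.g g9 (@Lb.g g10 (@Lb.g g11 (@Lb.r r610 (@Lb.r r1607 (@Lb.r r292 (@Lb.r r21 (@Lb.r r36 (@Lb.d (nat_lit 265) (nat_lit 168) (nat_lit 82) (@Lb.fm (nat_lit 9) t5508))))))))))))
noncomputable def l40400 : Lb := (@Lb.d (nat_lit 146) (nat_lit 2) (nat_lit 133) (@Lb.g g8 (@Lb.g g9 (@Lb.g g10 (@Lb.g g11 (@Lb.r r427 (@Lb.r r1177 (@Lb.r r1176 (@Lb.r r602 (@Lb.d (nat_lit 105) (nat_lit 80) (nat_lit 601) (@Lb.fm (nat_lit 9) t1446)))))))))))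
noncomputable def l40401 : Lb := (@Lb.g g4 (@Lb.g g7 (@Lb.r r609 (@Lb.r r402 (@Lb.r r2631 (@Lb.r r1416 (@Lb.d (nat_lit 73) (nat_lit 258) (nat_lit 597) (@Lb.fm (nat_lit 3) t514))))))))
noncomputable def l40402 : Lb := (@Lb.d (nat_lit 0) (nat_lit 517) (nat_lit 128) (@Lb.g g9 (@Lb.g g10 (@Lb.g g11 (@Lb.r r1675 (@Lb.r r648 (@Lb.r r170 (@Lb.r r2473 (@Lb.r r2084 (@Lb.d (nat_lit 522) (nat_lit 97) (nat_lit 330) (@Lb.t (@Lb.fm (nat_lit 9) t1889))))))))))))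
noncomputable def l40403 : Lb := (@Lb.d (nat_lit 550) (nat_lit 262) (nat_lit 86) (@Lb.r r68 (@Lb.r r138 (@Lb.r r644 (@Lb.r r2391 (@Lb.g g7 (@Lb.g g6 (@Lb.g g5 (@Lb.g g4 (@Lb.d (nat_lit 1) (nat_lit 65) (nat_lit 8) (@Lb.fm (nat_lit 9) t242)))))))))))
noncomputable def l40404 : Lb := (@Lb.d (nat_lit 4) (nat_lit 0) (nat_lit 2) (@Lb.g g8 (@Lb.g g9 (@Lb.g g10 (@Lb.r r683 (@Lb.r r2666 (@Lb.r r25 (@Lb.d (nat_lit 9) (nat_lit 89) (nat_lit 537) (@Lb.t (@Lb.fp (nat_lit 9) t591))))))))))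
noncomputable def l40405 : Lb := (@Lb.r r82 (@Lb.d (nat_lit 0) (nat_lit 258) (nat_lit 128) (@Lb.g g8 (@Lb.g g9 (@Lb.g g11 (@Lb.r r2601 (@Lb.r r1572 (@Lb.r r1671 (@Lb.r r578 (@Lb.d (nat_lit 88) (nat_lit 2) (nat_lit 545) (@Lb.t (@Lb.fm (nat_lit 9) t3234))))))))))))
noncomputable def l40406 : Lb := (@Lb.r r82 (@Lb.d (nat_lit 4) (nat_lit 256) (nat_lit 0) (@Lb.g g8 (@Lb.g g9 (@Lb.g g11 (@Lb.r r1690 (@Lb.r r1561 (@Lb.r r1608 (@Lb.d (nat_lit 610) (nat_lit 41) (nat_lit 386) (@Lb.t (@Lb.fm (nat_lit 9) t2605)))))))))))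
noncomputable def l40407 : Lb := (@Lb.r r322 (@Lb.d (nat_lit 0) (nat_lit 10) (nat_lit 576) (@Lb.g g8 (@Lb.g g9 (@Lb.g g7 (@Lb.r r594 (@Lb.r r421 (@Lb.r r24 (@Lb.d (nat_lit 257) (nat_lit 5) (nat_lit 10) (@Lb.t (@Lb.fp (nat_lit 9) t1087)))))))))))
noncomputable def l40408 : Lb := (@Lb.d (nat_lit 1) (nat_lit 6) (nat_lit 273) (@Lb.r r1434 (@Lb.r r1172 (@Lb.r r279 (@Lb.g g7 (@Lb.g g6 (@Lb.g g5 (@Lb.d (nat_lit 0) (nat_lit 134) (nat_lit 65) (@Lb.t (@Lb.fm (nat_lit 9) t4742))))))))))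
noncomputable def l40409 : Lb := (@Lb.d (nat_lit 260) (nat_lit 85) (nat_lit 400) (@Lb.r r97 (@Lb.r r1362 (@Lb.r r1415 (@Lb.g g6 (@Lb.g g8 (@Lb.d (nat_lit 410) (nat_lit 0) (nat_lit 2) (@Lb.r r391 (@Lb.r r25 (@Lb.fm (nat_lit 3) t4856))))))))))
noncomputable def l40410 : Lb := (@Lb.r r323 (@Lb.d (nat_lit 128) (nat_lit 2) (nat_lit 2) (@Lb.g g8 (@Lb.g g9 (@Lb.g g10 (@Lb.r r2473 (@Lb.r r1683 (@Lb.r r1610 (@Lb.r r72 (@Lb.d (nat_lit 337) (nat_lit 64) (nat_lit 89) (@Lb.t (@Lb.fp (nat_lit 9) t5230))))))))))))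
noncomputable def l40411 : Lb := (@Lb.r r322 (@Lb.d (nat_lit 32) (nat_lit 257) (nat_lit 576) (@Lb.g g8 (@Lb.g g9 (@Lb.g g7 (@Lb.r r598 (@Lb.r r405 (@Lb.r r20 (@Lb.d (nat_lit 400) (nat_lit 42) (nat_lit 10) (@Lb.t (@Lb.fp (nat_lit 9) t1087)))))))))))
noncomputable def l40412 : Lb := (@Lb.d (nat_lit 21) (nat_lit 602) (nat_lit 545) (@Lb.r r2129 (@Lb.r r418 (@Lb.r r409 (@Lb.r r323 (@Lb.g g7 (@Lb.g g6 (@Lb.g g5 (@Lb.g g8 (@Lb.d (nat_lit 2) (nat_lit 25) (nat_lit 64) (@Lb.fp (nat_lit 9) t148)))))))))))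
noncomputable def l40413 : Lb := (@Lb.g g9 (@Lb.r r579 (@Lb.r r2438 (@Lb.r r2136 (@Lb.r r1061 (@Lb.d (nat_lit 2) (nat_lit 512) (nat_lit 0) (@Lb.t (@Lb.fp (nat_lit 3) t7014))))))))
noncomputable def l40414 : Lb := (@Lb.d (nat_lit 150) (nat_lit 665) (nat_lit 325) (@Lb.r r405 (@Lb.r r386 (@Lb.r r343 (@Lb.g g6 (@Lb.g g5 (@Lb.g g4 (@Lb.d (nat_lit 1) (nat_lit 0) (nat_lit 1) (@Lb.r r291 (@Lb.t (@Lb.fm (nat_lit 9) t898)))))))))))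
noncomputable def l40415 : Lb := (@Lb.r r421 (@Lb.r r1446 (@Lb.r r1169 (@Lb.d (nat_lit 512) (nat_lit 256) (nat_lit 256) (@Lb.fp (nat_lit 1) t5992)))))
noncomputable def l40416 : Lb := (@Lb.d (nat_lit 0) (nat_lit 8) (nat_lit 9) (@Lb.g g10 (@Lb.d (nat_lit 5) (nat_lit 145) (nat_lit 394) (@Lb.t (@Lb.fp (nat_lit 3) t334)))))
noncomputable def l40417 : Lb := (@Lb.r r323 (@Lb.d (nat_lit 32) (nat_lit 256) (nat_lit 26) (@Lb.g g9 (@Lb.g g10 (@Lb.r r1627 (@Lb.r r2341 (@Lb.r r24 (@Lb.d (nat_lit 10) (nat_lit 64) (nat_lit 2) (@Lb.fp (nat_lit 3) t7015)))))))))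
noncomputable def l40418 : Lb := (@Lb.r r275 (@Lb.d (nat_lit 641) (nat_lit 522) (nat_lit 1) (@Lb.g g4 (@Lb.g g9 (@Lb.g g10 (@Lb.r r643 (@Lb.r r1158 (@Lb.r r2145 (@Lb.d (nat_lit 532) (nat_lit 84) (nat_lit 354) (@Lb.t (@Lb.fm (nat_lit 9) t3360)))))))))))
noncomputable def l40419 : Lb := (@Lb.d (nat_lit 70) (nat_lit 258) (nat_lit 42) (@Lb.r r263 (@Lb.r r580 (@Lb.r r410 (@Lb.g g7 (@Lb.g g5 (@Lb.d (nat_lit 72) (nat_lit 0) (nat_lit 68) (@Lb.r r98 (@Lb.fp (nat_lit 3) t1412)))))))))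
noncomputable def l40420 : Lb := (@Lb.r r322 (@Lb.d (nat_lit 32) (nat_lit 514) (nat_lit 576) (@Lb.g g8 (@Lb.g g9 (@Lb.g g7 (@Lb.r r361 (@Lb.r r150 (@Lb.r r84 (@Lb.d (nat_lit 17) (nat_lit 86) (nat_lit 521) (@Lb.t (@Lb.fp (nat_lit 9) t1115)))))))))))
noncomputable def l40421 : Lb := (@Lb.d (nat_lit 2) (nat_lit 2) (nat_lit 0) (@Lb.g g8 (@Lb.g g9 (@Lb.g g6 (@Lb.g g11 (@Lb.r r97 (@Lb.r r2584 (@Lb.d (nat_lit 645) (nat_lit 168) (nat_lit 384) (@Lb.fm (nat_lit 9) t996)))))))))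
noncomputable def l40422 : Lb := (@Lb.d (nat_lit 6) (nat_lit 0) (nat_lit 0) (@Lb.g g4 (@Lb.g g11 (@Lb.r r101 (@Lb.d (nat_lit 0) (nat_lit 138) (nat_lit 169) (@Lb.fm (nat_lit 3) t126))))))
noncomputable def l40423 : Lb := (@Lb.d (nat_lit 4) (nat_lit 512) (nat_lit 137) (@Lb.g g8 (@Lb.g g9 (@Lb.g g10 (@Lb.g g11 (@Lb.r r683 (@Lb.r r2666 (@Lb.r r2585 (@Lb.d (nat_lit 330) (nat_lit 169) (nat_lit 161) (@Lb.fm (nat_lit 9) t324))))))))))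
noncomputable def l40424 : Lb := (@Lb.d (nat_lit 132) (nat_lit 512) (nat_lit 130) (@Lb.g g8 (@Lb.g g9 (@Lb.g g10 (@Lb.g g11 (@Lb.r r2666 (@Lb.r r612 (@Lb.r r1319 (@Lb.r r405 (@Lb.r r2084 (@Lb.d (nat_lit 617) (nat_lit 130) (nat_lit 170) (@Lb.fp (nat_lit 9) t2805))))))))))))
noncomputable def l40425 : Lb := (@Lb.d (nat_lit 2) (nat_lit 36) (nat_lit 128) (@Lb.g g8 (@Lb.g g9 (@Lb.g g10 (@Lb.g g11 (@Lb.r r387 (@Lb.r r145 (@Lb.r r2454 (@Lb.r r36 (@Lb.d (nat_lit 148) (nat_lit 96) (nat_lit 425) (@Lb.fm (nat_lit 9) t5200)))))))))))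
noncomputable def l40426 : Lb := (@Lb.d (nat_lit 4) (nat_lit 521) (nat_lit 130) (@Lb.g g8 (@Lb.g g9 (@Lb.g g10 (@Lb.g g11 (@Lb.r r643 (@Lb.r r1321 (@Lb.r r360 (@Lb.r r582 (@Lb.r r132 (@Lb.d (nat_lit 130) (nat_lit 10) (nat_lit 361) (@Lb.fm (nat_lit 9) t98))))))))))))
noncomputable def l40427 : Lb := (@Lb.d (nat_lit 4) (nat_lit 34) (nat_lit 0) (@Lb.g g8 (@Lb.g g9 (@Lb.r r292 (@Lb.r r2715 (@Lb.r r2178 (@Lb.r r2469 (@Lb.d (nat_lit 74) (nat_lit 102) (nat_lit 648) (@Lb.fp (nat_lit 3) t64)))))))))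
noncomputable def l40428 : Lb := (@Lb.d (nat_lit 385) (nat_lit 514) (nat_lit 321) (@Lb.r r1544 (@Lb.r r2178 (@Lb.r r1451 (@Lb.r r2457 (@Lb.g g4 (@Lb.d (nat_lit 69) (nat_lit 0) (nat_lit 0) (@Lb.t (@Lb.fm (nat_lit 3) t64)))))))))
noncomputable def l40429 : Lb := (@Lb.r r101 (@Lb.d (nat_lit 26) (nat_lit 138) (nat_lit 0) (@Lb.fm (nat_lit 1) t126)))
noncomputable def l40430 : Lb := (@Lb.d (nat_lit 2) (nat_lit 520) (nat_lit 2) (@Lb.g g8 (@Lb.g g9 (@Lb.g g10 (@Lb.r r675 (@Lb.r r1681 (@Lb.r r2404 (@Lb.r r1178 (@Lb.d (nat_lit 681) (nat_lit 137) (nat_lit 84) (@Lb.t (@Lb.fm (nat_lit 9) t2721)))))))))))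
noncomputable def l40431 : Lb := (@Lb.d (nat_lit 4) (nat_lit 265) (nat_lit 73) (@Lb.g g8 (@Lb.g g9 (@Lb.g g10 (@Lb.g g11 (@Lb.r r643 (@Lb.r r1321 (@Lb.r r360 (@Lb.r r582 (@Lb.r r132 (@Lb.d (nat_lit 129) (nat_lit 10) (nat_lit 361) (@Lb.fm (nat_lit 9) t98))))))))))))
noncomputable def l40432 : Lb := (@Lb.d (nat_lit 2) (nat_lit 514) (nat_lit 130) (@Lb.g g8 (@Lb.g g9 (@Lb.g g10 (@Lb.g g11 (@Lb.r r2722 (@Lb.r r387 (@Lb.r r612 (@Lb.r r533 (@Lb.r r2084 (@Lb.d (nat_lit 641) (nat_lit 98) (nat_lit 594) (@Lb.fm (nat_lit 9) t2587))))))))))))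
noncomputable def l40433 : Lb := (@Lb.d (nat_lit 2) (nat_lit 16) (nat_lit 2) (@Lb.g g8 (@Lb.g g9 (@Lb.g g10 (@Lb.g g11 (@Lb.r r2391 (@Lb.r r358 (@Lb.r r664 (@Lb.r r421 (@Lb.d (nat_lit 106) (nat_lit 97) (nat_lit 137) (@Lb.fp (nat_lit 9) t823)))))))))))
noncomputable def l40434 : Lb := (@Lb.d (nat_lit 645) (nat_lit 277) (nat_lit 96) (@Lb.r r1301 (@Lb.r r2411 (@Lb.r r1666 (@Lb.g g7 (@Lb.g g6 (@Lb.g g5 (@Lb.g g4 (@Lb.d (nat_lit 8) (nat_lit 0) (nat_lit 133) (@Lb.fm (nat_lit 9) t918))))))))))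
noncomputable def l40435 : Lb := (@Lb.d (nat_lit 1) (nat_lit 256) (nat_lit 129) (@Lb.g g4 (@Lb.g g9 (@Lb.g g10 (@Lb.g g11 (@Lb.r r1634 (@Lb.r r2659 (@Lb.r r1633 (@Lb.d (nat_lit 8) (nat_lit 152) (nat_lit 386) (@Lb.fm (nat_lit 9) t1679))))))))))
noncomputable def l40436 : Lb := (@Lb.r r82 (@Lb.d (nat_lit 134) (nat_lit 512) (nat_lit 128) (@Lb.g g8 (@Lb.g g9 (@Lb.g g11 (@Lb.r r291 (@Lb.r r1124 (@Lb.r r1626 (@Lb.r r2449 (@Lb.d (nat_lit 10) (nat_lit 89) (nat_lit 170) (@Lb.t (@Lb.fm (nat_lit 9) t6091))))))))))))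
noncomputable def l40437 : Lb := (@Lb.d (nat_lit 32) (nat_lit 2) (nat_lit 66) (@Lb.g g9 (@Lb.g g10 (@Lb.g g11 (@Lb.r r149 (@Lb.r r100 (@Lb.r r602 (@Lb.d (nat_lit 105) (nat_lit 6) (nat_lit 128) (@Lb.t (@Lb.fm (nat_lit 9) t521))))))))))
noncomputable def l40438 : Lb := (@Lb.d (nat_lit 0) (nat_lit 2) (nat_lit 74) (@Lb.g g8 (@Lb.g g9 (@Lb.g g10 (@Lb.g g11 (@Lb.r r1671 (@Lb.r r340 (@Lb.r r170 (@Lb.r r2201 (@Lb.r r2180 (@Lb.d (nat_lit 104) (nat_lit 74) (nat_lit 546) (@Lb.fp (nat_lit 9) t5173))))))))))))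
noncomputable def l40439 : Lb := (@Lb.r r82 (@Lb.d (nat_lit 0) (nat_lit 545) (nat_lit 64) (@Lb.g g8 (@Lb.g g9 (@Lb.g g11 (@Lb.r r1543 (@Lb.r r2152 (@Lb.r r2438 (@Lb.r r1361 (@Lb.d (nat_lit 0) (nat_lit 6) (nat_lit 345) (@Lb.t (@Lb.fp (nat_lit 9) t2301))))))))))))
noncomputable def l40440 : Lb := (@Lb.d (nat_lit 0) (nat_lit 138) (nat_lit 324) (@Lb.r r402 (@Lb.g g5 (@Lb.t (@Lb.fp (nat_lit 3) t2080)))))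
noncomputable def l40441 : Lb := (@Lb.d (nat_lit 2) (nat_lit 265) (nat_lit 65) (@Lb.g g8 (@Lb.g g9 (@Lb.g g10 (@Lb.g g7 (@Lb.r r2466 (@Lb.r r36 (@Lb.r r149 (@Lb.r r1060 (@Lb.d (nat_lit 161) (nat_lit 10) (nat_lit 289) (@Lb.fp (nat_lit 9) t984)))))))))))
noncomputable def l40442 : Lb := (@Lb.d (nat_lit 264) (nat_lit 512) (nat_lit 0) (@Lb.r r24 (@Lb.r r2138 (@Lb.g g5 (@Lb.d (nat_lit 0) (nat_lit 129) (nat_lit 0) (@Lb.t (@Lb.fp (nat_lit 3) t2818)))))))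
noncomputable def l40443 : Lb := (@Lb.r r82 (@Lb.d (nat_lit 8) (nat_lit 512) (nat_lit 128) (@Lb.g g9 (@Lb.g g11 (@Lb.r r551 (@Lb.r r386 (@Lb.r r280 (@Lb.r r661 (@Lb.d (nat_lit 289) (nat_lit 34) (nat_lit 36) (@Lb.fp (nat_lit 3) t4647))))))))))
noncomputable def l40444 : Lb := (@Lb.d (nat_lit 10) (nat_lit 296) (nat_lit 146) (@Lb.g g8 (@Lb.g g10 (@Lb.g g11 (@Lb.r r353 (@Lb.r r535 (@Lb.r r2436 (@Lb.d (nat_lit 84) (nat_lit 138) (nat_lit 648) (@Lb.t (@Lb.fm (nat_lit 9) t221))))))))))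
noncomputable def l40445 : Lb := (@Lb.r r323 (@Lb.d (nat_lit 2) (nat_lit 258) (nat_lit 2) (@Lb.g g8 (@Lb.g g9 (@Lb.g g10 (@Lb.r r401 (@Lb.r r299 (@Lb.r r420 (@Lb.r r102 (@Lb.d (nat_lit 17) (nat_lit 70) (nat_lit 88) (@Lb.t (@Lb.fm (nat_lit 9) t3912))))))))))))
noncomputable def l40446 : Lb := (@Lb.d (nat_lit 2) (nat_lit 514) (nat_lit 2) (@Lb.g g8 (@Lb.g g9 (@Lb.g g10 (@Lb.r r683 (@Lb.r r2666 (@Lb.r r25 (@Lb.d (nat_lit 9) (nat_lit 84) (nat_lit 536) (@Lb.t (@Lb.fp (nat_lit 9) t944))))))))))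
noncomputable def l40447 : Lb := (@Lb.r r20 (@Lb.d (nat_lit 128) (nat_lit 266) (nat_lit 256) (@Lb.g g9 (@Lb.g g7 (@Lb.r r2660 (@Lb.r r1114 (@Lb.r r1173 (@Lb.d (nat_lit 548) (nat_lit 64) (nat_lit 100) (@Lb.fp (nat_lit 3) t2838)))))))))
noncomputable def l40448 : Lb := (@Lb.d (nat_lit 10) (nat_lit 0) (nat_lit 66) (@Lb.g g8 (@Lb.g g9 (@Lb.g g10 (@Lb.g g7 (@Lb.r r386 (@Lb.r r105 (@Lb.r r24 (@Lb.d (nat_lit 345) (nat_lit 4) (nat_lit 585) (@Lb.fp (nat_lit 9) t1150))))))))))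
noncomputable def l40449 : Lb := (@Lb.d (nat_lit 128) (nat_lit 512) (nat_lit 72) (@Lb.g g11 (@Lb.r r1378 (@Lb.r r101 (@Lb.r r280 (@Lb.r r2567 (@Lb.d (nat_lit 644) (nat_lit 17) (nat_lit 256) (@Lb.t (@Lb.fm (nat_lit 3) t51)))))))))
noncomputable def l40450 : Lb := (@Lb.d (nat_lit 16) (nat_lit 521) (nat_lit 2) (@Lb.g g8 (@Lb.g g9 (@Lb.g g10 (@Lb.r r2727 (@Lb.r r661 (@Lb.r r664 (@Lb.r r2202 (@Lb.d (nat_lit 73) (nat_lit 9) (nat_lit 425) (@Lb.t (@Lb.fp (nat_lit 9) t2437)))))))))))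
noncomputable def l40451 : Lb := (@Lb.d (nat_lit 2) (nat_lit 514) (nat_lit 130) (@Lb.g g8 (@Lb.g g9 (@Lb.g g10 (@Lb.g g11 (@Lb.r r427 (@Lb.r r386 (@Lb.r r97 (@Lb.r r24 (@Lb.d (nat_lit 256) (nat_lit 73) (nat_lit 649) (@Lb.fm (nat_lit 9) t741)))))))))))
noncomputable def l40452 : Lb := (@Lb.d (nat_lit 32) (nat_lit 512) (nat_lit 10) (@Lb.g g10 (@Lb.r r2651 (@Lb.r r2648 (@Lb.r r2453 (@Lb.r r1430 (@Lb.d (nat_lit 358) (nat_lit 90) (nat_lit 137) (@Lb.t (@Lb.fm (nat_lit 3) t386)))))))))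
noncomputable def l40453 : Lb := (@Lb.r r424 (@Lb.r r2473 (@Lb.r r1450 (@Lb.r r343 (@Lb.r r676 (@Lb.d (nat_lit 1) (nat_lit 512) (nat_lit 0) (@Lb.fm (nat_lit 1) t322)))))))
noncomputable def l40454 : Lb := (@Lb.d (nat_lit 642) (nat_lit 288) (nat_lit 136) (@Lb.g g8 (@Lb.g g11 (@Lb.r r417 (@Lb.r r2466 (@Lb.r r2387 (@Lb.d (nat_lit 0) (nat_lit 20) (nat_lit 678) (@Lb.fm (nat_lit 3) t2949))))))))
noncomputable def l40455 : Lb := (@Lb.r r323 (@Lb.d (nat_lit 4) (nat_lit 257) (nat_lit 1) (@Lb.g g5 (@Lb.g g10 (@Lb.r r2407 (@Lb.r r1178 (@Lb.r r24 (@Lb.d (nat_lit 592) (nat_lit 1) (nat_lit 529) (@Lb.fp (nat_lit 3) t1025)))))))))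
noncomputable def l40456 : Lb := (@Lb.d (nat_lit 8) (nat_lit 265) (nat_lit 72) (@Lb.g g9 (@Lb.g g10 (@Lb.g g11 (@Lb.r r2371 (@Lb.r r346 (@Lb.r r2644 (@Lb.r r2457 (@Lb.d (nat_lit 536) (nat_lit 144) (nat_lit 362) (@Lb.t (@Lb.fm (nat_lit 9) t7016)))))))))))
noncomputable def l40457 : Lb := (@Lb.d (nat_lit 36) (nat_lit 0) (nat_lit 130) (@Lb.g g8 (@Lb.g g9 (@Lb.g g10 (@Lb.g g11 (@Lb.r r1579 (@Lb.r r1410 (@Lb.r r2657 (@Lb.r r2200 (@Lb.d (nat_lit 537) (nat_lit 21) (nat_lit 649) (@Lb.fp (nat_lit 9) t2210)))))))))))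
noncomputable def l40458 : Lb := (@Lb.d (nat_lit 8) (nat_lit 256) (nat_lit 66) (@Lb.g g9 (@Lb.g g10 (@Lb.g g7 (@Lb.r r386 (@Lb.r r148 (@Lb.r r169 (@Lb.d (nat_lit 34) (nat_lit 70) (nat_lit 25) (@Lb.t (@Lb.fp (nat_lit 9) t886))))))))))
noncomputable def l40459 : Lb := (@Lb.r r82 (@Lb.d (nat_lit 64) (nat_lit 16) (nat_lit 644) (@Lb.g g9 (@Lb.g g7 (@Lb.r r386 (@Lb.r r1129 (@Lb.d (nat_lit 266) (nat_lit 138) (nat_lit 66) (@Lb.fp (nat_lit 3) t2760))))))))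
noncomputable def l40460 : Lb := (@Lb.d (nat_lit 133) (nat_lit 672) (nat_lit 384) (@Lb.r r2631 (@Lb.r r402 (@Lb.g g5 (@Lb.d (nat_lit 4) (nat_lit 1) (nat_lit 0) (@Lb.t (@Lb.fm (nat_lit 3) t2760)))))))
noncomputable def l40461 : Lb := (@Lb.r r20 (@Lb.r r82 (@Lb.d (nat_lit 4) (nat_lit 609) (nat_lit 136) (@Lb.g g9 (@Lb.g g11 (@Lb.r r2454 (@Lb.r r579 (@Lb.r r8 (@Lb.d (nat_lit 69) (nat_lit 160) (nat_lit 384) (@Lb.fp (nat_lit 3) t443))))))))))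
noncomputable def l40462 : Lb := (@Lb.d (nat_lit 8) (nat_lit 289) (nat_lit 130) (@Lb.g g9 (@Lb.g g10 (@Lb.g g11 (@Lb.r r1703 (@Lb.r r1634 (@Lb.r r2328 (@Lb.r r1637 (@Lb.d (nat_lit 410) (nat_lit 136) (nat_lit 656) (@Lb.t (@Lb.fp (nat_lit 9) t629)))))))))))
noncomputable def l40463 : Lb := (@Lb.d (nat_lit 98) (nat_lit 598) (nat_lit 72) (@Lb.r r676 (@Lb.r r273 (@Lb.r r406 (@Lb.g g7 (@Lb.g g5 (@Lb.g g4 (@Lb.d (nat_lit 16) (nat_lit 2) (nat_lit 68) (@Lb.t (@Lb.fm (nat_lit 9) t4964))))))))))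
noncomputable def l40464 : Lb := (@Lb.d (nat_lit 0) (nat_lit 552) (nat_lit 65) (@Lb.g g9 (@Lb.g g10 (@Lb.g g11 (@Lb.r r1699 (@Lb.r r610 (@Lb.r r601 (@Lb.r r24 (@Lb.d (nat_lit 352) (nat_lit 88) (nat_lit 168) (@Lb.t (@Lb.fm (nat_lit 9) t3548)))))))))))
noncomputable def l40465 : Lb := (@Lb.d (nat_lit 134) (nat_lit 657) (nat_lit 322) (@Lb.r r1560 (@Lb.r r97 (@Lb.r r1643 (@Lb.g g7 (@Lb.g g10 (@Lb.g g5 (@Lb.g g4 (@Lb.d (nat_lit 18) (nat_lit 8) (nat_lit 65) (@Lb.fp (nat_lit 9) t2642))))))))))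
noncomputable def l40466 : Lb := (@Lb.d (nat_lit 609) (nat_lit 645) (nat_lit 410) (@Lb.r r1384 (@Lb.r r297 (@Lb.r r418 (@Lb.g g11 (@Lb.g g5 (@Lb.g g4 (@Lb.d (nat_lit 16) (nat_lit 18) (nat_lit 264) (@Lb.r r578 (@Lb.t (@Lb.fp (nat_lit 9) t4537)))))))))))
noncomputable def l40467 : Lb := (@Lb.r r322 (@Lb.d (nat_lit 645) (nat_lit 0) (nat_lit 0) (@Lb.g g4 (@Lb.g g9 (@Lb.g g7 (@Lb.r r2405 (@Lb.r r146 (@Lb.d (nat_lit 1) (nat_lit 0) (nat_lit 322) (@Lb.t (@Lb.fm (nat_lit 9) t3512))))))))))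
noncomputable def l40468 : Lb := (@Lb.r r323 (@Lb.d (nat_lit 130) (nat_lit 2) (nat_lit 2) (@Lb.g g8 (@Lb.g g9 (@Lb.g g10 (@Lb.r r599 (@Lb.r r98 (@Lb.r r97 (@Lb.r r408 (@Lb.d (nat_lit 152) (nat_lit 164) (nat_lit 324) (@Lb.t (@Lb.fp (nat_lit 9) t119))))))))))))
noncomputable def l40469 : Lb := (@Lb.r r322 (@Lb.d (nat_lit 0) (nat_lit 16) (nat_lit 648) (@Lb.g g9 (@Lb.g g7 (@Lb.r r594 (@Lb.r r1169 (@Lb.d (nat_lit 0) (nat_lit 64) (nat_lit 66) (@Lb.fp (nat_lit 3) t7017))))))))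
noncomputable def l40470 : Lb := (@Lb.r r82 (@Lb.d (nat_lit 128) (nat_lit 258) (nat_lit 128) (@Lb.g g9 (@Lb.g g11 (@Lb.r r661 (@Lb.r r1380 (@Lb.r r2715 (@Lb.r r146 (@Lb.d (nat_lit 358) (nat_lit 1) (nat_lit 274) (@Lb.fm (nat_lit 3) t730))))))))))
noncomputable def l40471 : Lb := (@Lb.d (nat_lit 128) (nat_lit 322) (nat_lit 130) (@Lb.g g9 (@Lb.g g10 (@Lb.g g11 (@Lb.r r2662 (@Lb.r r1412 (@Lb.r r2635 (@Lb.d (nat_lit 361) (nat_lit 8) (nat_lit 257) (@Lb.t (@Lb.fp (nat_lit 9) t578))))))))))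
noncomputable def l40472 : Lb := (@Lb.d (nat_lit 136) (nat_lit 514) (nat_lit 130) (@Lb.g g9 (@Lb.g g10 (@Lb.g g11 (@Lb.r r618 (@Lb.r r24 (@Lb.r r405 (@Lb.r r611 (@Lb.d (nat_lit 673) (nat_lit 16) (nat_lit 162) (@Lb.t (@Lb.fm (nat_lit 9) t564)))))))))))
noncomputable def l40473 : Lb := (@Lb.r r82 (@Lb.d (nat_lit 34) (nat_lit 10) (nat_lit 128) (@Lb.g g8 (@Lb.g g9 (@Lb.g g11 (@Lb.r r427 (@Lb.r r582 (@Lb.r r2456 (@Lb.r r1173 (@Lb.d (nat_lit 282) (nat_lit 82) (nat_lit 68) (@Lb.t (@Lb.fp (nat_lit 9) t6292))))))))))))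
noncomputable def l40474 : Lb := (@Lb.d (nat_lit 134) (nat_lit 0) (nat_lit 130) (@Lb.g g8 (@Lb.g g9 (@Lb.g g10 (@Lb.g g11 (@Lb.r r1706 (@Lb.r r1451 (@Lb.r r1064 (@Lb.r r2153 (@Lb.d (nat_lit 609) (nat_lit 133) (nat_lit 145) (@Lb.fm (nat_lit 9) t7018)))))))))))
noncomputable def l40475 : Lb := (@Lb.d (nat_lit 134) (nat_lit 290) (nat_lit 66) (@Lb.g g8 (@Lb.g g9 (@Lb.g g10 (@Lb.g g11 (@Lb.r r2666 (@Lb.r r1641 (@Lb.r r1572 (@Lb.r r2471 (@Lb.d (nat_lit 136) (nat_lit 170) (nat_lit 82) (@Lb.fm (nat_lit 9) t6418)))))))))))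
noncomputable def l40476 : Lb := (@Lb.d (nat_lit 641) (nat_lit 258) (nat_lit 581) (@Lb.r r1543 (@Lb.r r2372 (@Lb.r r1626 (@Lb.g g9 (@Lb.g g4 (@Lb.d (nat_lit 1) (nat_lit 5) (nat_lit 0) (@Lb.r r291 (@Lb.r r98 (@Lb.fm (nat_lit 3) t793))))))))))
noncomputable def l40477 : Lb := (@Lb.d (nat_lit 680) (nat_lit 144) (nat_lit 133) (@Lb.r r392 (@Lb.r r1178 (@Lb.r r1683 (@Lb.g g6 (@Lb.g g9 (@Lb.g g4 (@Lb.d (nat_lit 65) (nat_lit 134) (nat_lit 0) (@Lb.t (@Lb.fp (nat_lit 9) t5783))))))))))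
noncomputable def l40478 : Lb := (@Lb.d (nat_lit 680) (nat_lit 400) (nat_lit 133) (@Lb.r r392 (@Lb.r r1178 (@Lb.r r1683 (@Lb.g g6 (@Lb.g g9 (@Lb.g g4 (@Lb.d (nat_lit 65) (nat_lit 129) (nat_lit 2) (@Lb.t (@Lb.fp (nat_lit 9) t5783))))))))))
noncomputable def l40479 : Lb := (@Lb.d (nat_lit 145) (nat_lit 520) (nat_lit 517) (@Lb.r r386 (@Lb.r r2375 (@Lb.r r1560 (@Lb.g g7 (@Lb.g g6 (@Lb.g g5 (@Lb.d (nat_lit 4) (nat_lit 17) (nat_lit 65) (@Lb.r r36 (@Lb.t (@Lb.fp (nat_lit 9) t7019)))))))))))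
noncomputable def l40480 : Lb := (@Lb.d (nat_lit 282) (nat_lit 6) (nat_lit 1) (@Lb.g g8 (@Lb.g g9 (@Lb.g g10 (@Lb.r r2731 (@Lb.r r1642 (@Lb.r r2069 (@Lb.d (nat_lit 665) (nat_lit 153) (nat_lit 537) (@Lb.t (@Lb.fp (nat_lit 9) t1877))))))))))
noncomputable def l40481 : Lb := (@Lb.r r21 (@Lb.d (nat_lit 258) (nat_lit 512) (nat_lit 2) (@Lb.g g8 (@Lb.g g10 (@Lb.r r2699 (@Lb.r r1610 (@Lb.r r37 (@Lb.d (nat_lit 616) (nat_lit 128) (nat_lit 9) (@Lb.fm (nat_lit 3) t1165)))))))))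
noncomputable def l40482 : Lb := (@Lb.d (nat_lit 282) (nat_lit 264) (nat_lit 2) (@Lb.g g8 (@Lb.g g9 (@Lb.g g10 (@Lb.r r2731 (@Lb.r r1642 (@Lb.r r25 (@Lb.d (nat_lit 4) (nat_lit 89) (nat_lit 9) (@Lb.t (@Lb.fp (nat_lit 9) t1877))))))))))
noncomputable def l40483 : Lb := (@Lb.d (nat_lit 384) (nat_lit 256) (nat_lit 400) (@Lb.r r1096 (@Lb.r r2145 (@Lb.r r1410 (@Lb.r r1607 (@Lb.g g7 (@Lb.g g8 (@Lb.r r74 (@Lb.fp (nat_lit 3) t6819)))))))))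
noncomputable def l40484 : Lb := (@Lb.d (nat_lit 4) (nat_lit 514) (nat_lit 64) (@Lb.g g8 (@Lb.g g9 (@Lb.g g11 (@Lb.r r2391 (@Lb.r r2178 (@Lb.r r601 (@Lb.d (nat_lit 105) (nat_lit 104) (nat_lit 538) (@Lb.t (@Lb.fp (nat_lit 9) t7020))))))))))
noncomputable def l40485 : Lb := (@Lb.d (nat_lit 33) (nat_lit 258) (nat_lit 4) (@Lb.g g8 (@Lb.g g9 (@Lb.g g10 (@Lb.g g11 (@Lb.r r419 (@Lb.r r1702 (@Lb.r r344 (@Lb.r r2453 (@Lb.r r36 (@Lb.d (nat_lit 361) (nat_lit 168) (nat_lit 130) (@Lb.fp (nat_lit 9) t3480))))))))))))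
noncomputable def l40486 : Lb := (@Lb.d (nat_lit 128) (nat_lit 514) (nat_lit 130) (@Lb.g g8 (@Lb.g g9 (@Lb.g g10 (@Lb.g g11 (@Lb.r r1675 (@Lb.r r164 (@Lb.r r2197 (@Lb.r r2646 (@Lb.r r164 (@Lb.d (nat_lit 394) (nat_lit 128) (nat_lit 362) (@Lb.fm (nat_lit 9) t2991))))))))))))
noncomputable def l40487 : Lb := (@Lb.d (nat_lit 144) (nat_lit 256) (nat_lit 2) (@Lb.g g8 (@Lb.g g9 (@Lb.g g10 (@Lb.r r2711 (@Lb.r r1305 (@Lb.r r2392 (@Lb.d (nat_lit 154) (nat_lit 150) (nat_lit 682) (@Lb.t (@Lb.fm (nat_lit 9) t400))))))))))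
noncomputable def l40488 : Lb := (@Lb.d (nat_lit 1) (nat_lit 258) (nat_lit 130) (@Lb.g g8 (@Lb.g g9 (@Lb.g g10 (@Lb.g g11 (@Lb.r r683 (@Lb.r r537 (@Lb.r r132 (@Lb.r r102 (@Lb.r r132 (@Lb.d (nat_lit 5) (nat_lit 136) (nat_lit 258) (@Lb.fm (nat_lit 9) t51))))))))))))
noncomputable def l40489 : Lb := (@Lb.d (nat_lit 2) (nat_lit 514) (nat_lit 130) (@Lb.g g8 (@Lb.g g9 (@Lb.g g10 (@Lb.g g11 (@Lb.r r683 (@Lb.r r537 (@Lb.r r132 (@Lb.r r102 (@Lb.r r132 (@Lb.d (nat_lit 5) (nat_lit 129) (nat_lit 256) (@Lb.fm (nat_lit 9) t51))))))))))))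
noncomputable def l40490 : Lb := (@Lb.d (nat_lit 128) (nat_lit 288) (nat_lit 64) (@Lb.g g11 (@Lb.r r2345 (@Lb.r r2472 (@Lb.r r1623 (@Lb.r r2178 (@Lb.d (nat_lit 533) (nat_lit 105) (nat_lit 646) (@Lb.t (@Lb.fp (nat_lit 3) t1561)))))))))
noncomputable def l40491 : Lb := (@Lb.r r21 (@Lb.r r70 (@Lb.d (nat_lit 2) (nat_lit 0) (nat_lit 128) (@Lb.g g8 (@Lb.g g11 (@Lb.r r523 (@Lb.r r1684 (@Lb.r r89 (@Lb.r r2146 (@Lb.d (nat_lit 610) (nat_lit 36) (nat_lit 256) (@Lb.fp (nat_lit 3) t7021)))))))))))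
noncomputable def l40492 : Lb := (@Lb.r r82 (@Lb.d (nat_lit 2) (nat_lit 514) (nat_lit 128) (@Lb.g g8 (@Lb.g g9 (@Lb.g g11 (@Lb.r r555 (@Lb.r r1700 (@Lb.r r1190 (@Lb.r r1169 (@Lb.d (nat_lit 294) (nat_lit 65) (nat_lit 153) (@Lb.t (@Lb.fm (nat_lit 9) t1665))))))))))))
noncomputable def l40493 : Lb := (@Lb.d (nat_lit 1) (nat_lit 2) (nat_lit 64) (@Lb.g g8 (@Lb.g g9 (@Lb.g g10 (@Lb.g g11 (@Lb.r r328 (@Lb.r r614 (@Lb.r r597 (@Lb.r r279 (@Lb.r r548 (@Lb.d (nat_lit 1) (nat_lit 0) (nat_lit 130) (@Lb.fm (nat_lit 9) t2))))))))))))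
noncomputable def l40494 : Lb := (@Lb.r r70 (@Lb.d (nat_lit 136) (nat_lit 1) (nat_lit 64) (@Lb.g g8 (@Lb.g g9 (@Lb.g g11 (@Lb.r r331 (@Lb.r r2198 (@Lb.r r1445 (@Lb.r r2664 (@Lb.d (nat_lit 406) (nat_lit 4) (nat_lit 17) (@Lb.t (@Lb.fp (nat_lit 9) t842))))))))))))
noncomputable def l40495 : Lb := (@Lb.d (nat_lit 2) (nat_lit 2) (nat_lit 130) (@Lb.g g8 (@Lb.g g9 (@Lb.g g10 (@Lb.g g11 (@Lb.r r683 (@Lb.r r537 (@Lb.r r132 (@Lb.r r102 (@Lb.r r132 (@Lb.d (nat_lit 5) (nat_lit 136) (nat_lit 258) (@Lb.fm (nat_lit 9) t51))))))))))))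
noncomputable def l40496 : Lb := (@Lb.d (nat_lit 8) (nat_lit 546) (nat_lit 64) (@Lb.g g9 (@Lb.g g6 (@Lb.g g11 (@Lb.r r2663 (@Lb.r r1048 (@Lb.r r21 (@Lb.d (nat_lit 148) (nat_lit 2) (nat_lit 682) (@Lb.t (@Lb.fp (nat_lit 9) t5392))))))))))
noncomputable def l40497 : Lb := (@Lb.d (nat_lit 2) (nat_lit 258) (nat_lit 130) (@Lb.g g8 (@Lb.g g9 (@Lb.g g10 (@Lb.g g11 (@Lb.r r2722 (@Lb.r r2467 (@Lb.r r292 (@Lb.r r405 (@Lb.r r2084 (@Lb.d (nat_lit 97) (nat_lit 73) (nat_lit 665) (@Lb.fm (nat_lit 9) t5383))))))))))))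
noncomputable def l40498 : Lb := (@Lb.d (nat_lit 10) (nat_lit 512) (nat_lit 129) (@Lb.g g8 (@Lb.g g10 (@Lb.g g11 (@Lb.r r586 (@Lb.r r1611 (@Lb.r r149 (@Lb.r r1636 (@Lb.d (nat_lit 644) (nat_lit 25) (nat_lit 578) (@Lb.t (@Lb.fp (nat_lit 9) t6650)))))))))))
noncomputable def l40499 : Lb := (@Lb.d (nat_lit 416) (nat_lit 0) (nat_lit 405) (@Lb.r r392 (@Lb.r r2145 (@Lb.r r2186 (@Lb.r r2691 (@Lb.g g6 (@Lb.g g4 (@Lb.d (nat_lit 66) (nat_lit 0) (nat_lit 1) (@Lb.fm (nat_lit 3) t7022)))))))))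
noncomputable def l40500 : Lb := (@Lb.d (nat_lit 614) (nat_lit 101) (nat_lit 138) (@Lb.r r2394 (@Lb.r r2132 (@Lb.r r2345 (@Lb.r r2707 (@Lb.g g7 (@Lb.g g6 (@Lb.g g4 (@Lb.d (nat_lit 2) (nat_lit 4) (nat_lit 1) (@Lb.t (@Lb.fp (nat_lit 9) t6819)))))))))))
noncomputable def l40501 : Lb := (@Lb.r r82 (@Lb.d (nat_lit 130) (nat_lit 514) (nat_lit 64) (@Lb.g g8 (@Lb.g g9 (@Lb.g g11 (@Lb.r r1443 (@Lb.r r2438 (@Lb.r r1049 (@Lb.r r1624 (@Lb.d (nat_lit 165) (nat_lit 106) (nat_lit 665) (@Lb.t (@Lb.fm (nat_lit 9) t5151))))))))))))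
noncomputable def l40502 : Lb := (@Lb.d (nat_lit 384) (nat_lit 102) (nat_lit 325) (@Lb.r r2438 (@Lb.r r2132 (@Lb.r r2571 (@Lb.g g6 (@Lb.g g5 (@Lb.g g4 (@Lb.d (nat_lit 1) (nat_lit 25) (nat_lit 0) (@Lb.t (@Lb.fp (nat_lit 9) t5079))))))))))
noncomputable def l40503 : Lb := (@Lb.r r21 (@Lb.r r323 (@Lb.d (nat_lit 664) (nat_lit 512) (nat_lit 1) (@Lb.g g8 (@Lb.g g10 (@Lb.r r1370 (@Lb.r r387 (@Lb.r r97 (@Lb.d (nat_lit 640) (nat_lit 1) (nat_lit 162) (@Lb.fp (nat_lit 3) t7023))))))))))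
noncomputable def l40504 : Lb := (@Lb.r r323 (@Lb.d (nat_lit 33) (nat_lit 9) (nat_lit 1) (@Lb.g g8 (@Lb.g g9 (@Lb.g g10 (@Lb.r r2666 (@Lb.r r2391 (@Lb.r r1577 (@Lb.r r1556 (@Lb.d (nat_lit 390) (nat_lit 2) (nat_lit 256) (@Lb.t (@Lb.fp (nat_lit 9) t7024))))))))))))
noncomputable def l40505 : Lb := (@Lb.r r21 (@Lb.r r323 (@Lb.d (nat_lit 405) (nat_lit 512) (nat_lit 1) (@Lb.g g8 (@Lb.g g10 (@Lb.r r1370 (@Lb.r r387 (@Lb.r r97 (@Lb.d (nat_lit 641) (nat_lit 65) (nat_lit 146) (@Lb.fp (nat_lit 3) t7025))))))))))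
noncomputable def l40506 : Lb := (@Lb.r r70 (@Lb.d (nat_lit 5) (nat_lit 261) (nat_lit 128) (@Lb.g g8 (@Lb.g g5 (@Lb.g g11 (@Lb.r r1691 (@Lb.r r1610 (@Lb.r r612 (@Lb.d (nat_lit 2) (nat_lit 153) (nat_lit 665) (@Lb.t (@Lb.fm (nat_lit 9) t50)))))))))))
noncomputable def l40507 : Lb := (@Lb.d (nat_lit 517) (nat_lit 36) (nat_lit 577) (@Lb.r r2452 (@Lb.r r89 (@Lb.r r2438 (@Lb.g g7 (@Lb.g g4 (@Lb.d (nat_lit 5) (nat_lit 32) (nat_lit 324) (@Lb.r r578 (@Lb.fp (nat_lit 3) t3827)))))))))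
noncomputable def l40508 : Lb := (@Lb.d (nat_lit 532) (nat_lit 514) (nat_lit 1) (@Lb.r r68 (@Lb.r r90 (@Lb.r r596 (@Lb.r r1367 (@Lb.g g7 (@Lb.g g6 (@Lb.g g5 (@Lb.g g4 (@Lb.d (nat_lit 1) (nat_lit 129) (nat_lit 134) (@Lb.fp (nat_lit 9) t242)))))))))))
noncomputable def l40509 : Lb := (@Lb.d (nat_lit 2) (nat_lit 256) (nat_lit 2) (@Lb.g g8 (@Lb.g g10 (@Lb.r r1162 (@Lb.r r153 (@Lb.r r1156 (@Lb.d (nat_lit 80) (nat_lit 0) (nat_lit 529) (@Lb.fp (nat_lit 3) t145))))))))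
noncomputable def l40510 : Lb := (@Lb.d (nat_lit 532) (nat_lit 2) (nat_lit 1) (@Lb.r r68 (@Lb.r r90 (@Lb.r r596 (@Lb.r r1367 (@Lb.g g7 (@Lb.g g6 (@Lb.g g5 (@Lb.g g4 (@Lb.d (nat_lit 0) (nat_lit 129) (nat_lit 134) (@Lb.fp (nat_lit 9) t242)))))))))))
noncomputable def l40511 : Lb := (@Lb.d (nat_lit 98) (nat_lit 258) (nat_lit 73) (@Lb.g g8 (@Lb.g g9 (@Lb.g g10 (@Lb.g g11 (@Lb.r r2475 (@Lb.r r106 (@Lb.r r292 (@Lb.r r21 (@Lb.r r36 (@Lb.d (nat_lit 105) (nat_lit 149) (nat_lit 277) (@Lb.fp (nat_lit 9) t2929))))))))))))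
noncomputable def l40512 : Lb := (@Lb.d (nat_lit 5) (nat_lit 26) (nat_lit 26) (@Lb.r r2132 (@Lb.r r2178 (@Lb.r r531 (@Lb.r r2337 (@Lb.g g7 (@Lb.d (nat_lit 0) (nat_lit 16) (nat_lit 64) (@Lb.t (@Lb.fp (nat_lit 3) t307)))))))))
noncomputable def l40513 : Lb := (@Lb.d (nat_lit 33) (nat_lit 256) (nat_lit 64) (@Lb.g g8 (@Lb.g g11 (@Lb.r r1687 (@Lb.r r598 (@Lb.r r2457 (@Lb.r r408 (@Lb.d (nat_lit 666) (nat_lit 26) (nat_lit 168) (@Lb.fm (nat_lit 3) t386)))))))))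
noncomputable def l40514 : Lb := (@Lb.d (nat_lit 1) (nat_lit 256) (nat_lit 66) (@Lb.g g8 (@Lb.g g10 (@Lb.g g11 (@Lb.r r1559 (@Lb.r r425 (@Lb.r r98 (@Lb.r r1416 (@Lb.d (nat_lit 402) (nat_lit 137) (nat_lit 424) (@Lb.t (@Lb.fp (nat_lit 9) t386)))))))))))
noncomputable def l40515 : Lb := (@Lb.d (nat_lit 136) (nat_lit 386) (nat_lit 256) (@Lb.r r24 (@Lb.r r1319 (@Lb.g g9 (@Lb.d (nat_lit 8) (nat_lit 2) (nat_lit 0) (@Lb.t (@Lb.fm (nat_lit 3) t650)))))))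
noncomputable def l40516 : Lb := (@Lb.r r82 (@Lb.r r275 (@Lb.d (nat_lit 130) (nat_lit 36) (nat_lit 0) (@Lb.g g8 (@Lb.g g9 (@Lb.r r599 (@Lb.r r98 (@Lb.r r264 (@Lb.d (nat_lit 386) (nat_lit 128) (nat_lit 162) (@Lb.fm (nat_lit 3) t4040))))))))))
noncomputable def l40517 : Lb := (@Lb.d (nat_lit 85) (nat_lit 420) (nat_lit 613) (@Lb.r r330 (@Lb.r r72 (@Lb.r r539 (@Lb.g g6 (@Lb.g g9 (@Lb.d (nat_lit 16) (nat_lit 66) (nat_lit 1) (@Lb.r r36 (@Lb.fp (nat_lit 3) t2443)))))))))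
noncomputable def l40518 : Lb := (@Lb.d (nat_lit 8) (nat_lit 144) (nat_lit 261) (@Lb.r r21 (@Lb.r r579 (@Lb.r r1366 (@Lb.g g7 (@Lb.g g6 (@Lb.g g5 (@Lb.g g4 (@Lb.d (nat_lit 1) (nat_lit 1) (nat_lit 134) (@Lb.fm (nat_lit 9) t40))))))))))
noncomputable def l40519 : Lb := (@Lb.d (nat_lit 2) (nat_lit 546) (nat_lit 6) (@Lb.g g8 (@Lb.g g9 (@Lb.g g10 (@Lb.g g11 (@Lb.r r2403 (@Lb.r r1442 (@Lb.r r36 (@Lb.r r149 (@Lb.r r1060 (@Lb.d (nat_lit 417) (nat_lit 10) (nat_lit 362) (@Lb.fm (nat_lit 9) t644))))))))))))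
noncomputable def l40520 : Lb := (@Lb.d (nat_lit 618) (nat_lit 537) (nat_lit 361) (@Lb.r r2404 (@Lb.r r1563 (@Lb.r r2389 (@Lb.g g6 (@Lb.g g5 (@Lb.g g4 (@Lb.d (nat_lit 16) (nat_lit 1) (nat_lit 1) (@Lb.r r391 (@Lb.t (@Lb.fm (nat_lit 9) t68)))))))))))
noncomputable def l40521 : Lb := (@Lb.r r21 (@Lb.d (nat_lit 2) (nat_lit 256) (nat_lit 2) (@Lb.g g8 (@Lb.g g10 (@Lb.g g7 (@Lb.r r386 (@Lb.r r1640 (@Lb.r r25 (@Lb.d (nat_lit 612) (nat_lit 88) (nat_lit 660) (@Lb.t (@Lb.fp (nat_lit 9) t2877)))))))))))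
noncomputable def l40522 : Lb := (@Lb.r r580 (@Lb.r r593 (@Lb.d (nat_lit 0) (nat_lit 264) (nat_lit 656) (@Lb.g g10 (@Lb.g g11 (@Lb.r r101 (@Lb.r r1048 (@Lb.d (nat_lit 0) (nat_lit 0) (nat_lit 2) (@Lb.fm (nat_lit 3) t3804)))))))))
noncomputable def l40523 : Lb := (@Lb.d (nat_lit 128) (nat_lit 264) (nat_lit 384) (@Lb.g g8 (@Lb.g g9 (@Lb.g g11 (@Lb.r r2630 (@Lb.r r2456 (@Lb.r r1045 (@Lb.d (nat_lit 516) (nat_lit 137) (nat_lit 146) (@Lb.t (@Lb.fp (nat_lit 9) t927))))))))))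
noncomputable def l40524 : Lb := (@Lb.d (nat_lit 34) (nat_lit 358) (nat_lit 9) (@Lb.g g8 (@Lb.g g5 (@Lb.g g10 (@Lb.r r1412 (@Lb.r r2651 (@Lb.r r2470 (@Lb.d (nat_lit 678) (nat_lit 5) (nat_lit 338) (@Lb.t (@Lb.fp (nat_lit 9) t5622))))))))))
noncomputable def l40525 : Lb := (@Lb.d (nat_lit 2) (nat_lit 258) (nat_lit 66) (@Lb.g g8 (@Lb.g g9 (@Lb.g g10 (@Lb.g g11 (@Lb.r r1602 (@Lb.r r2647 (@Lb.r r292 (@Lb.r r405 (@Lb.r r2084 (@Lb.d (nat_lit 388) (nat_lit 2) (nat_lit 650) (@Lb.fm (nat_lit 9) t6465))))))))))))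
noncomputable def l40526 : Lb := (@Lb.d (nat_lit 2) (nat_lit 256) (nat_lit 73) (@Lb.g g8 (@Lb.g g9 (@Lb.g g10 (@Lb.g g11 (@Lb.r r1681 (@Lb.r r612 (@Lb.r r666 (@Lb.r r1156 (@Lb.d (nat_lit 602) (nat_lit 42) (nat_lit 41) (@Lb.fm (nat_lit 9) t7026)))))))))))
noncomputable def l40527 : Lb := (@Lb.d (nat_lit 390) (nat_lit 408) (nat_lit 592) (@Lb.r r2325 (@Lb.r r2390 (@Lb.r r2731 (@Lb.g g6 (@Lb.g g5 (@Lb.g g4 (@Lb.d (nat_lit 8) (nat_lit 2) (nat_lit 1) (@Lb.t (@Lb.fm (nat_lit 9) t918))))))))))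
noncomputable def l40528 : Lb := (@Lb.d (nat_lit 4) (nat_lit 262) (nat_lit 0) (@Lb.g g8 (@Lb.g g5 (@Lb.g g11 (@Lb.r r2584 (@Lb.d (nat_lit 330) (nat_lit 0) (nat_lit 1) (@Lb.t (@Lb.fm (nat_lit 9) t996))))))))
noncomputable def l40529 : Lb := (@Lb.d (nat_lit 4) (nat_lit 518) (nat_lit 0) (@Lb.g g8 (@Lb.g g5 (@Lb.g g11 (@Lb.r r2584 (@Lb.d (nat_lit 330) (nat_lit 0) (nat_lit 129) (@Lb.t (@Lb.fm (nat_lit 9) t996))))))))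
noncomputable def l40530 : Lb := (@Lb.d (nat_lit 8) (nat_lit 2) (nat_lit 128) (@Lb.g g9 (@Lb.g g10 (@Lb.g g11 (@Lb.r r2471 (@Lb.r r1096 (@Lb.r r2646 (@Lb.r r409 (@Lb.d (nat_lit 521) (nat_lit 4) (nat_lit 152) (@Lb.t (@Lb.fp (nat_lit 9) t1456)))))))))))
noncomputable def l40531 : Lb := (@Lb.d (nat_lit 40) (nat_lit 362) (nat_lit 264) (@Lb.r r1301 (@Lb.r r586 (@Lb.r r1691 (@Lb.g g7 (@Lb.g g6 (@Lb.g g5 (@Lb.g g4 (@Lb.d (nat_lit 1) (nat_lit 6) (nat_lit 69) (@Lb.fm (nat_lit 9) t4399))))))))))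
noncomputable def l40532 : Lb := (@Lb.d (nat_lit 390) (nat_lit 664) (nat_lit 592) (@Lb.r r2325 (@Lb.r r2390 (@Lb.r r2731 (@Lb.g g6 (@Lb.g g5 (@Lb.g g4 (@Lb.d (nat_lit 1) (nat_lit 5) (nat_lit 2) (@Lb.t (@Lb.fm (nat_lit 9) t3136))))))))))
noncomputable def l40533 : Lb := (@Lb.r r323 (@Lb.d (nat_lit 2) (nat_lit 34) (nat_lit 32) (@Lb.g g8 (@Lb.g g9 (@Lb.g g10 (@Lb.r r595 (@Lb.r r337 (@Lb.r r1608 (@Lb.d (nat_lit 610) (nat_lit 24) (nat_lit 609) (@Lb.t (@Lb.fm (nat_lit 9) t386)))))))))))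
noncomputable def l40534 : Lb := (@Lb.d (nat_lit 550) (nat_lit 278) (nat_lit 164) (@Lb.r r273 (@Lb.r r1351 (@Lb.g g7 (@Lb.g g6 (@Lb.g g5 (@Lb.g g4 (@Lb.d (nat_lit 1) (nat_lit 32) (nat_lit 0) (@Lb.fp (nat_lit 9) t3915)))))))))
noncomputable def l40535 : Lb := (@Lb.d (nat_lit 0) (nat_lit 256) (nat_lit 128) (@Lb.g g10 (@Lb.g g11 (@Lb.r r387 (@Lb.d (nat_lit 608) (nat_lit 0) (nat_lit 660) (@Lb.fm (nat_lit 3) t698))))))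
noncomputable def l40536 : Lb := (@Lb.d (nat_lit 106) (nat_lit 298) (nat_lit 5) (@Lb.g g8 (@Lb.g g9 (@Lb.g g10 (@Lb.g g11 (@Lb.r r2691 (@Lb.r r86 (@Lb.r r1176 (@Lb.r r661 (@Lb.d (nat_lit 516) (nat_lit 73) (nat_lit 648) (@Lb.fp (nat_lit 9) t6717)))))))))))
noncomputable def l40537 : Lb := (@Lb.d (nat_lit 649) (nat_lit 6) (nat_lit 257) (@Lb.r r2341 (@Lb.r r1624 (@Lb.r r1446 (@Lb.r r1555 (@Lb.g g7 (@Lb.g g6 (@Lb.g g5 (@Lb.d (nat_lit 4) (nat_lit 1) (nat_lit 133) (@Lb.t (@Lb.fp (nat_lit 9) t1256)))))))))))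
noncomputable def l40538 : Lb := (@Lb.r r82 (@Lb.d (nat_lit 4) (nat_lit 513) (nat_lit 0) (@Lb.g g8 (@Lb.g g9 (@Lb.g g7 (@Lb.r r1177 (@Lb.r r2454 (@Lb.r r1608 (@Lb.d (nat_lit 656) (nat_lit 0) (nat_lit 394) (@Lb.t (@Lb.fp (nat_lit 9) t2605)))))))))))
noncomputable def l40539 : Lb := (@Lb.r r21 (@Lb.r r70 (@Lb.d (nat_lit 512) (nat_lit 0) (nat_lit 128) (@Lb.g g8 (@Lb.g g7 (@Lb.r r2567 (@Lb.r r74 (@Lb.r r25 (@Lb.d (nat_lit 641) (nat_lit 0) (nat_lit 384) (@Lb.fm (nat_lit 3) t1071))))))))))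
noncomputable def l40540 : Lb := (@Lb.d (nat_lit 640) (nat_lit 646) (nat_lit 614) (@Lb.r r1061 (@Lb.r r1382 (@Lb.r r1435 (@Lb.r r1304 (@Lb.g g7 (@Lb.g g6 (@Lb.d (nat_lit 80) (nat_lit 0) (nat_lit 129) (@Lb.fm (nat_lit 3) t1226)))))))))
noncomputable def l40541 : Lb := (@Lb.d (nat_lit 146) (nat_lit 258) (nat_lit 128) (@Lb.g g8 (@Lb.g g9 (@Lb.g g10 (@Lb.g g11 (@Lb.r r2467 (@Lb.r r164 (@Lb.r r1445 (@Lb.r r1126 (@Lb.d (nat_lit 21) (nat_lit 9) (nat_lit 596) (@Lb.fm (nat_lit 9) t5928)))))))))))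
noncomputable def l40542 : Lb := (@Lb.g g4 (@Lb.g g9 (@Lb.r r1158 (@Lb.r r2136 (@Lb.r r405 (@Lb.r r1635 (@Lb.d (nat_lit 0) (nat_lit 0) (nat_lit 85) (@Lb.fm (nat_lit 3) t1594))))))))
noncomputable def l40543 : Lb := (@Lb.r r331 (@Lb.d (nat_lit 36) (nat_lit 0) (nat_lit 2) (@Lb.g g8 (@Lb.g g9 (@Lb.g g10 (@Lb.r r2454 (@Lb.r r1371 (@Lb.r r549 (@Lb.r r2708 (@Lb.d (nat_lit 293) (nat_lit 101) (nat_lit 150) (@Lb.t (@Lb.fm (nat_lit 9) t163))))))))))))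
noncomputable def l40544 : Lb := (@Lb.d (nat_lit 0) (nat_lit 2) (nat_lit 72) (@Lb.r r402 (@Lb.g g9 (@Lb.g g4 (@Lb.d (nat_lit 0) (nat_lit 10) (nat_lit 0) (@Lb.fm (nat_lit 3) t374))))))
noncomputable def l40545 : Lb := (@Lb.d (nat_lit 1) (nat_lit 36) (nat_lit 640) (@Lb.g g8 (@Lb.g g9 (@Lb.g g10 (@Lb.g g11 (@Lb.r r578 (@Lb.r r297 (@Lb.r r36 (@Lb.d (nat_lit 260) (nat_lit 1) (nat_lit 72) (@Lb.fm (nat_lit 9) t2899))))))))))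
noncomputable def l40546 : Lb := (@Lb.d (nat_lit 2) (nat_lit 514) (nat_lit 73) (@Lb.g g8 (@Lb.g g9 (@Lb.g g10 (@Lb.g g11 (@Lb.r r427 (@Lb.r r297 (@Lb.r r2408 (@Lb.r r1174 (@Lb.d (nat_lit 532) (nat_lit 64) (nat_lit 2) (@Lb.fm (nat_lit 9) t6673)))))))))))
noncomputable def l40547 : Lb := (@Lb.d (nat_lit 0) (nat_lit 2) (nat_lit 72) (@Lb.r r402 (@Lb.g g11 (@Lb.g g9 (@Lb.g g4 (@Lb.d (nat_lit 1) (nat_lit 10) (nat_lit 0) (@Lb.t (@Lb.fm (nat_lit 9) t374))))))))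
noncomputable def l40548 : Lb := (@Lb.d (nat_lit 257) (nat_lit 512) (nat_lit 1) (@Lb.r r24 (@Lb.r r101 (@Lb.r r2659 (@Lb.g g6 (@Lb.g g4 (@Lb.d (nat_lit 0) (nat_lit 4) (nat_lit 17) (@Lb.r r387 (@Lb.fp (nat_lit 3) t2033)))))))))
noncomputable def l40549 : Lb := (@Lb.d (nat_lit 160) (nat_lit 0) (nat_lit 146) (@Lb.g g10 (@Lb.g g11 (@Lb.r r260 (@Lb.r r603 (@Lb.r r1317 (@Lb.d (nat_lit 86) (nat_lit 68) (nat_lit 513) (@Lb.fm (nat_lit 3) t6851))))))))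
noncomputable def l40550 : Lb := (@Lb.d (nat_lit 25) (nat_lit 534) (nat_lit 517) (@Lb.r r2393 (@Lb.r r2471 (@Lb.r r1382 (@Lb.r r152 (@Lb.g g7 (@Lb.g g5 (@Lb.d (nat_lit 68) (nat_lit 5) (nat_lit 128) (@Lb.fp (nat_lit 3) t3146)))))))))
noncomputable def l40551 : Lb := (@Lb.r r21 (@Lb.d (nat_lit 144) (nat_lit 256) (nat_lit 256) (@Lb.g g8 (@Lb.g g10 (@Lb.g g7 (@Lb.r r402 (@Lb.r r1129 (@Lb.r r2084 (@Lb.d (nat_lit 256) (nat_lit 74) (nat_lit 258) (@Lb.t (@Lb.fp (nat_lit 9) t1674)))))))))))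
noncomputable def l40552 : Lb := (@Lb.d (nat_lit 130) (nat_lit 260) (nat_lit 64) (@Lb.g g8 (@Lb.g g9 (@Lb.g g10 (@Lb.g g11 (@Lb.r r680 (@Lb.r r1707 (@Lb.r r2666 (@Lb.r r2585 (@Lb.d (nat_lit 74) (nat_lit 9) (nat_lit 337) (@Lb.fp (nat_lit 9) t2407)))))))))))
noncomputable def l40553 : Lb := (@Lb.r r323 (@Lb.d (nat_lit 0) (nat_lit 34) (nat_lit 2) (@Lb.g g9 (@Lb.g g10 (@Lb.r r599 (@Lb.r r420 (@Lb.r r102 (@Lb.d (nat_lit 42) (nat_lit 9) (nat_lit 18) (@Lb.fp (nat_lit 3) t1149)))))))))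
noncomputable def l40554 : Lb := (@Lb.d (nat_lit 322) (nat_lit 609) (nat_lit 384) (@Lb.r r21 (@Lb.r r104 (@Lb.r r1611 (@Lb.r r1366 (@Lb.g g7 (@Lb.g g6 (@Lb.g g5 (@Lb.d (nat_lit 0) (nat_lit 1) (nat_lit 134) (@Lb.t (@Lb.fp (nat_lit 9) t187)))))))))))
noncomputable def l40555 : Lb := (@Lb.d (nat_lit 160) (nat_lit 512) (nat_lit 146) (@Lb.g g10 (@Lb.g g11 (@Lb.r r260 (@Lb.r r603 (@Lb.r r1425 (@Lb.d (nat_lit 352) (nat_lit 137) (nat_lit 529) (@Lb.fp (nat_lit 3) t6670))))))))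
noncomputable def l40556 : Lb := (@Lb.r r322 (@Lb.d (nat_lit 34) (nat_lit 2) (nat_lit 576) (@Lb.g g8 (@Lb.g g9 (@Lb.g g7 (@Lb.r r361 (@Lb.r r150 (@Lb.r r1364 (@Lb.d (nat_lit 336) (nat_lit 166) (nat_lit 593) (@Lb.t (@Lb.fp (nat_lit 9) t2026)))))))))))
noncomputable def l40557 : Lb := (@Lb.d (nat_lit 2) (nat_lit 514) (nat_lit 130) (@Lb.g g8 (@Lb.g g9 (@Lb.g g10 (@Lb.g g11 (@Lb.r r610 (@Lb.r r1607 (@Lb.r r97 (@Lb.r r2436 (@Lb.d (nat_lit 682) (nat_lit 4) (nat_lit 408) (@Lb.fp (nat_lit 9) t1954)))))))))))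
noncomputable def l40558 : Lb := (@Lb.d (nat_lit 26) (nat_lit 534) (nat_lit 338) (@Lb.r r297 (@Lb.r r599 (@Lb.r r292 (@Lb.g g6 (@Lb.g g5 (@Lb.d (nat_lit 4) (nat_lit 17) (nat_lit 33) (@Lb.r r387 (@Lb.fm (nat_lit 3) t1643)))))))))
noncomputable def l40559 : Lb := (@Lb.d (nat_lit 34) (nat_lit 528) (nat_lit 0) (@Lb.g g8 (@Lb.g g9 (@Lb.r r515 (@Lb.r r582 (@Lb.r r132 (@Lb.d (nat_lit 41) (nat_lit 18) (nat_lit 9) (@Lb.fp (nat_lit 3) t1412))))))))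
noncomputable def l40560 : Lb := (@Lb.d (nat_lit 1) (nat_lit 272) (nat_lit 10) (@Lb.r r68 (@Lb.r r330 (@Lb.r r72 (@Lb.r r515 (@Lb.g g9 (@Lb.d (nat_lit 8) (nat_lit 18) (nat_lit 0) (@Lb.t (@Lb.fp (nat_lit 3) t1412)))))))))
noncomputable def l40561 : Lb := (@Lb.d (nat_lit 4) (nat_lit 261) (nat_lit 0) (@Lb.g g8 (@Lb.g g9 (@Lb.g g10 (@Lb.r r683 (@Lb.r r2666 (@Lb.r r25 (@Lb.d (nat_lit 2) (nat_lit 90) (nat_lit 537) (@Lb.t (@Lb.fp (nat_lit 9) t2985))))))))))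
noncomputable def l40562 : Lb := (@Lb.d (nat_lit 390) (nat_lit 390) (nat_lit 296) (@Lb.r r1544 (@Lb.r r2178 (@Lb.r r1451 (@Lb.r r2457 (@Lb.g g4 (@Lb.d (nat_lit 69) (nat_lit 0) (nat_lit 0) (@Lb.t (@Lb.fm (nat_lit 3) t229)))))))))
noncomputable def l40563 : Lb := (@Lb.d (nat_lit 2) (nat_lit 288) (nat_lit 0) (@Lb.g g8 (@Lb.g g9 (@Lb.r r2404 (@Lb.r r2331 (@Lb.r r2178 (@Lb.r r549 (@Lb.d (nat_lit 410) (nat_lit 18) (nat_lit 6) (@Lb.fm (nat_lit 3) t229)))))))))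
noncomputable def l40564 : Lb := (@Lb.r r21 (@Lb.d (nat_lit 386) (nat_lit 8) (nat_lit 130) (@Lb.g g8 (@Lb.g g10 (@Lb.g g11 (@Lb.r r1419 (@Lb.r r101 (@Lb.r r410 (@Lb.d (nat_lit 9) (nat_lit 154) (nat_lit 512) (@Lb.t (@Lb.fm (nat_lit 9) t2889)))))))))))
noncomputable def l40565 : Lb := (@Lb.d (nat_lit 32) (nat_lit 256) (nat_lit 128) (@Lb.g g8 (@Lb.g g11 (@Lb.r r405 (@Lb.r r2454 (@Lb.r r2411 (@Lb.r r2404 (@Lb.d (nat_lit 666) (nat_lit 169) (nat_lit 404) (@Lb.fp (nat_lit 3) t2570)))))))))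
noncomputable def l40566 : Lb := (@Lb.d (nat_lit 298) (nat_lit 69) (nat_lit 0) (@Lb.r r164 (@Lb.r r150 (@Lb.r r1619 (@Lb.g g5 (@Lb.g g4 (@Lb.d (nat_lit 16) (nat_lit 65) (nat_lit 0) (@Lb.r r291 (@Lb.r r98 (@Lb.fm (nat_lit 3) t803))))))))))
noncomputable def l40567 : Lb := (@Lb.d (nat_lit 593) (nat_lit 256) (nat_lit 38) (@Lb.r r277 (@Lb.r r1355 (@Lb.r r1352 (@Lb.g g6 (@Lb.g g4 (@Lb.d (nat_lit 2) (nat_lit 0) (nat_lit 42) (@Lb.r r387 (@Lb.fp (nat_lit 3) t5124)))))))))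
noncomputable def l40568 : Lb := (@Lb.d (nat_lit 146) (nat_lit 266) (nat_lit 6) (@Lb.g g8 (@Lb.g g9 (@Lb.g g10 (@Lb.g g11 (@Lb.r r675 (@Lb.r r657 (@Lb.r r1364 (@Lb.r r602 (@Lb.d (nat_lit 648) (nat_lit 161) (nat_lit 26) (@Lb.fm (nat_lit 9) t4875)))))))))))
noncomputable def l40569 : Lb := (@Lb.r r580 (@Lb.r r593 (@Lb.d (nat_lit 144) (nat_lit 520) (nat_lit 602) (@Lb.g g10 (@Lb.g g11 (@Lb.r r101 (@Lb.r r1048 (@Lb.d (nat_lit 513) (nat_lit 64) (nat_lit 2) (@Lb.fm (nat_lit 3) t5937)))))))))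
noncomputable def l40570 : Lb := (@Lb.r r68 (@Lb.d (nat_lit 0) (nat_lit 516) (nat_lit 17) (@Lb.g g9 (@Lb.g g6 (@Lb.r r101 (@Lb.r r1560 (@Lb.r r1291 (@Lb.d (nat_lit 0) (nat_lit 0) (nat_lit 385) (@Lb.fp (nat_lit 3) t739)))))))))
noncomputable def l40571 : Lb := (@Lb.d (nat_lit 162) (nat_lit 2) (nat_lit 0) (@Lb.g g8 (@Lb.g g9 (@Lb.g g11 (@Lb.r r662 (@Lb.r r2455 (@Lb.r r97 (@Lb.r r280 (@Lb.d (nat_lit 137) (nat_lit 25) (nat_lit 294) (@Lb.t (@Lb.fp (nat_lit 9) t1126)))))))))))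
noncomputable def l40572 : Lb := (@Lb.r r580 (@Lb.d (nat_lit 128) (nat_lit 2) (nat_lit 330) (@Lb.g g9 (@Lb.g g10 (@Lb.g g11 (@Lb.r r296 (@Lb.r r153 (@Lb.r r602 (@Lb.d (nat_lit 409) (nat_lit 100) (nat_lit 2) (@Lb.t (@Lb.fp (nat_lit 9) t367)))))))))))
noncomputable def l40573 : Lb := (@Lb.r r532 (@Lb.r r82 (@Lb.d (nat_lit 128) (nat_lit 98) (nat_lit 320) (@Lb.g g9 (@Lb.g g11 (@Lb.r r1112 (@Lb.r r2438 (@Lb.d (nat_lit 5) (nat_lit 26) (nat_lit 613) (@Lb.fm (nat_lit 3) t7027)))))))))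
noncomputable def l40574 : Lb := (@Lb.d (nat_lit 2) (nat_lit 0) (nat_lit 256) (@Lb.r r2132 (@Lb.r r1642 (@Lb.r r2665 (@Lb.r r616 (@Lb.g g11 (@Lb.t (@Lb.fp (nat_lit 3) t3574))))))))
noncomputable def l40575 : Lb := (@Lb.d (nat_lit 10) (nat_lit 529) (nat_lit 273) (@Lb.r r401 (@Lb.r r2450 (@Lb.g g7 (@Lb.g g5 (@Lb.d (nat_lit 0) (nat_lit 4) (nat_lit 64) (@Lb.fp (nat_lit 3) t216)))))))
noncomputable def l40576 : Lb := (@Lb.d (nat_lit 9) (nat_lit 518) (nat_lit 74) (@Lb.g g8 (@Lb.g g9 (@Lb.g g10 (@Lb.g g11 (@Lb.r r2691 (@Lb.r r297 (@Lb.r r1188 (@Lb.r r1158 (@Lb.d (nat_lit 648) (nat_lit 9) (nat_lit 133) (@Lb.fm (nat_lit 9) t3577)))))))))))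
noncomputable def l40577 : Lb := (@Lb.d (nat_lit 145) (nat_lit 273) (nat_lit 273) (@Lb.r r405 (@Lb.r r2454 (@Lb.g g7 (@Lb.g g5 (@Lb.d (nat_lit 0) (nat_lit 5) (nat_lit 64) (@Lb.fp (nat_lit 3) t7028)))))))
noncomputable def l40578 : Lb := (@Lb.d (nat_lit 9) (nat_lit 2) (nat_lit 66) (@Lb.g g8 (@Lb.g g9 (@Lb.g g10 (@Lb.g g11 (@Lb.r r164 (@Lb.r r2709 (@Lb.r r407 (@Lb.r r1430 (@Lb.r r1060 (@Lb.d (nat_lit 162) (nat_lit 10) (nat_lit 616) (@Lb.fm (nat_lit 9) t3065))))))))))))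
noncomputable def l40579 : Lb := (@Lb.d (nat_lit 8) (nat_lit 6) (nat_lit 128) (@Lb.g g8 (@Lb.g g9 (@Lb.g g10 (@Lb.g g11 (@Lb.r r610 (@Lb.r r1607 (@Lb.r r97 (@Lb.r r2436 (@Lb.d (nat_lit 152) (nat_lit 9) (nat_lit 392) (@Lb.fp (nat_lit 9) t2108)))))))))))
noncomputable def l40580 : Lb := (@Lb.d (nat_lit 129) (nat_lit 258) (nat_lit 130) (@Lb.g g8 (@Lb.g g9 (@Lb.g g10 (@Lb.g g11 (@Lb.r r419 (@Lb.r r344 (@Lb.r r1429 (@Lb.r r1110 (@Lb.r r2212 (@Lb.d (nat_lit 36) (nat_lit 106) (nat_lit 673) (@Lb.fm (nat_lit 9) t238))))))))))))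
noncomputable def l40581 : Lb := (@Lb.d (nat_lit 9) (nat_lit 42) (nat_lit 65) (@Lb.g g8 (@Lb.g g9 (@Lb.g g10 (@Lb.g g11 (@Lb.r r2659 (@Lb.r r168 (@Lb.r r618 (@Lb.r r681 (@Lb.d (nat_lit 129) (nat_lit 25) (nat_lit 610) (@Lb.fm (nat_lit 9) t7029)))))))))))
noncomputable def l40582 : Lb := (@Lb.d (nat_lit 9) (nat_lit 521) (nat_lit 129) (@Lb.g g8 (@Lb.g g9 (@Lb.g g10 (@Lb.g g11 (@Lb.r r1579 (@Lb.r r1641 (@Lb.r r2454 (@Lb.r r1636 (@Lb.d (nat_lit 276) (nat_lit 25) (nat_lit 281) (@Lb.fm (nat_lit 9) t6567)))))))))))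
noncomputable def l40583 : Lb := (@Lb.d (nat_lit 548) (nat_lit 678) (nat_lit 544) (@Lb.r r404 (@Lb.r r1410 (@Lb.r r2643 (@Lb.g g5 (@Lb.g g4 (@Lb.d (nat_lit 8) (nat_lit 25) (nat_lit 0) (@Lb.r r74 (@Lb.fm (nat_lit 3) t5079)))))))))
noncomputable def l40584 : Lb := (@Lb.d (nat_lit 34) (nat_lit 33) (nat_lit 66) (@Lb.g g8 (@Lb.g g9 (@Lb.g g10 (@Lb.g g11 (@Lb.r r2585 (@Lb.r r596 (@Lb.r r1623 (@Lb.r r1418 (@Lb.r r1156 (@Lb.d (nat_lit 514) (nat_lit 133) (nat_lit 328) (@Lb.fp (nat_lit 9) t7030))))))))))))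
noncomputable def l40585 : Lb := (@Lb.d (nat_lit 152) (nat_lit 9) (nat_lit 72) (@Lb.g g8 (@Lb.g g9 (@Lb.g g10 (@Lb.g g11 (@Lb.r r1579 (@Lb.r r1641 (@Lb.r r2454 (@Lb.r r1124 (@Lb.d (nat_lit 276) (nat_lit 41) (nat_lit 593) (@Lb.fm (nat_lit 9) t3511)))))))))))
noncomputable def l40586 : Lb := (@Lb.d (nat_lit 614) (nat_lit 613) (nat_lit 138) (@Lb.r r2394 (@Lb.r r2132 (@Lb.r r2345 (@Lb.r r2707 (@Lb.g g7 (@Lb.g g6 (@Lb.g g4 (@Lb.d (nat_lit 2) (nat_lit 4) (nat_lit 70) (@Lb.t (@Lb.fp (nat_lit 9) t6819)))))))))))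
noncomputable def l40587 : Lb := (@Lb.r r90 (@Lb.d (nat_lit 136) (nat_lit 352) (nat_lit 0) (@Lb.g g8 (@Lb.g g5 (@Lb.r r359 (@Lb.r r130 (@Lb.r r600 (@Lb.d (nat_lit 357) (nat_lit 38) (nat_lit 137) (@Lb.fp (nat_lit 3) t4247)))))))))
noncomputable def l40588 : Lb := (@Lb.d (nat_lit 2) (nat_lit 162) (nat_lit 512) (@Lb.r r37 (@Lb.r r1319 (@Lb.g g6 (@Lb.g g8 (@Lb.d (nat_lit 42) (nat_lit 0) (nat_lit 6) (@Lb.r r387 (@Lb.r r145 (@Lb.fm (nat_lit 3) t3440)))))))))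
noncomputable def l40589 : Lb := (@Lb.d (nat_lit 41) (nat_lit 577) (nat_lit 0) (@Lb.g g8 (@Lb.g g5 (@Lb.r r363 (@Lb.r r582 (@Lb.r r1444 (@Lb.d (nat_lit 362) (nat_lit 1) (nat_lit 137) (@Lb.fp (nat_lit 3) t309))))))))
noncomputable def l40590 : Lb := (@Lb.r r323 (@Lb.d (nat_lit 137) (nat_lit 290) (nat_lit 2) (@Lb.g g8 (@Lb.g g9 (@Lb.g g10 (@Lb.r r1607 (@Lb.r r2394 (@Lb.r r1685 (@Lb.r r2312 (@Lb.d (nat_lit 404) (nat_lit 72) (nat_lit 676) (@Lb.t (@Lb.fm (nat_lit 9) t660))))))))))))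
noncomputable def l40591 : Lb := (@Lb.d (nat_lit 0) (nat_lit 514) (nat_lit 136) (@Lb.g g9 (@Lb.g g11 (@Lb.r r401 (@Lb.r r2454 (@Lb.r r2411 (@Lb.r r1096 (@Lb.d (nat_lit 289) (nat_lit 5) (nat_lit 16) (@Lb.fm (nat_lit 3) t7031)))))))))
noncomputable def l40592 : Lb := (@Lb.r r263 (@Lb.d (nat_lit 2) (nat_lit 2) (nat_lit 2) (@Lb.g g8 (@Lb.g g9 (@Lb.g g10 (@Lb.r r1667 (@Lb.r r168 (@Lb.r r2666 (@Lb.r r25 (@Lb.d (nat_lit 522) (nat_lit 37) (nat_lit 420) (@Lb.t (@Lb.fm (nat_lit 9) t773))))))))))))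
noncomputable def l40593 : Lb := (@Lb.d (nat_lit 644) (nat_lit 146) (nat_lit 640) (@Lb.r r24 (@Lb.r r2145 (@Lb.r r402 (@Lb.g g11 (@Lb.g g6 (@Lb.g g4 (@Lb.d (nat_lit 2) (nat_lit 0) (nat_lit 128) (@Lb.t (@Lb.fp (nat_lit 9) t2147))))))))))
noncomputable def l40594 : Lb := (@Lb.d (nat_lit 293) (nat_lit 74) (nat_lit 0) (@Lb.r r2152 (@Lb.r r579 (@Lb.r r402 (@Lb.g g7 (@Lb.g g5 (@Lb.g g4 (@Lb.d (nat_lit 2) (nat_lit 129) (nat_lit 132) (@Lb.t (@Lb.fm (nat_lit 9) t4875))))))))))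
noncomputable def l40595 : Lb := (@Lb.r r82 (@Lb.d (nat_lit 0) (nat_lit 258) (nat_lit 128) (@Lb.g g8 (@Lb.g g9 (@Lb.g g11 (@Lb.r r2659 (@Lb.r r386 (@Lb.r r1109 (@Lb.r r1124 (@Lb.d (nat_lit 610) (nat_lit 10) (nat_lit 576) (@Lb.t (@Lb.fm (nat_lit 9) t6432))))))))))))
noncomputable def l40596 : Lb := (@Lb.d (nat_lit 644) (nat_lit 512) (nat_lit 130) (@Lb.g g8 (@Lb.g g9 (@Lb.g g10 (@Lb.g g11 (@Lb.r r419 (@Lb.r r106 (@Lb.r r25 (@Lb.d (nat_lit 521) (nat_lit 9) (nat_lit 354) (@Lb.fp (nat_lit 9) t7032))))))))))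
noncomputable def l40597 : Lb := (@Lb.r r82 (@Lb.d (nat_lit 73) (nat_lit 16) (nat_lit 0) (@Lb.g g8 (@Lb.g g9 (@Lb.g g11 (@Lb.r r2659 (@Lb.r r386 (@Lb.r r1449 (@Lb.r r1684 (@Lb.d (nat_lit 550) (nat_lit 90) (nat_lit 325) (@Lb.t (@Lb.fp (nat_lit 9) t3730))))))))))))
noncomputable def l40598 : Lb := (@Lb.d (nat_lit 0) (nat_lit 0) (nat_lit 73) (@Lb.g g9 (@Lb.g g10 (@Lb.g g11 (@Lb.r r2691 (@Lb.r r2213 (@Lb.r r2658 (@Lb.r r1096 (@Lb.d (nat_lit 145) (nat_lit 160) (nat_lit 169) (@Lb.t (@Lb.fp (nat_lit 9) t3410)))))))))))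
noncomputable def l40599 : Lb := (@Lb.d (nat_lit 130) (nat_lit 266) (nat_lit 72) (@Lb.g g8 (@Lb.g g9 (@Lb.g g11 (@Lb.r r1346 (@Lb.r r2404 (@Lb.r r411 (@Lb.r r1557 (@Lb.d (nat_lit 644) (nat_lit 169) (nat_lit 273) (@Lb.t (@Lb.fm (nat_lit 9) t4320)))))))))))
noncomputable def l40600 : Lb := (@Lb.d (nat_lit 16) (nat_lit 512) (nat_lit 6) (@Lb.r r24 (@Lb.r r101 (@Lb.r r386 (@Lb.g g11 (@Lb.g g6 (@Lb.d (nat_lit 0) (nat_lit 0) (nat_lit 129) (@Lb.fm (nat_lit 3) t594))))))))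
noncomputable def l40601 : Lb := (@Lb.d (nat_lit 650) (nat_lit 618) (nat_lit 74) (@Lb.r r680 (@Lb.r r602 (@Lb.r r331 (@Lb.g g5 (@Lb.g g4 (@Lb.d (nat_lit 81) (nat_lit 81) (nat_lit 0) (@Lb.r r98 (@Lb.fp (nat_lit 3) t150)))))))))
noncomputable def l40602 : Lb := (@Lb.d (nat_lit 9) (nat_lit 288) (nat_lit 66) (@Lb.g g8 (@Lb.g g9 (@Lb.g g10 (@Lb.g g11 (@Lb.r r2595 (@Lb.r r2088 (@Lb.r r2649 (@Lb.r r98 (@Lb.d (nat_lit 641) (nat_lit 137) (nat_lit 86) (@Lb.fp (nat_lit 9) t1184)))))))))))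
noncomputable def l40603 : Lb := (@Lb.d (nat_lit 32) (nat_lit 265) (nat_lit 129) (@Lb.g g8 (@Lb.g g9 (@Lb.g g10 (@Lb.g g11 (@Lb.r r1366 (@Lb.r r683 (@Lb.r r2337 (@Lb.r r1432 (@Lb.d (nat_lit 153) (nat_lit 137) (nat_lit 426) (@Lb.fm (nat_lit 9) t7033)))))))))))
noncomputable def l40604 : Lb := (@Lb.r r21 (@Lb.d (nat_lit 33) (nat_lit 8) (nat_lit 2) (@Lb.g g8 (@Lb.g g10 (@Lb.g g7 (@Lb.r r97 (@Lb.r r36 (@Lb.d (nat_lit 6) (nat_lit 8) (nat_lit 1) (@Lb.t (@Lb.fm (nat_lit 9) t30))))))))))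
noncomputable def l40605 : Lb := (@Lb.d (nat_lit 22) (nat_lit 4) (nat_lit 128) (@Lb.g g8 (@Lb.g g9 (@Lb.g g10 (@Lb.g g11 (@Lb.r r1643 (@Lb.r r2210 (@Lb.r r1365 (@Lb.r r1384 (@Lb.d (nat_lit 5) (nat_lit 105) (nat_lit 425) (@Lb.fm (nat_lit 9) t7034)))))))))))
noncomputable def l40606 : Lb := (@Lb.d (nat_lit 33) (nat_lit 9) (nat_lit 129) (@Lb.g g8 (@Lb.g g9 (@Lb.g g10 (@Lb.g g11 (@Lb.r r1366 (@Lb.r r683 (@Lb.r r2337 (@Lb.r r1432 (@Lb.d (nat_lit 153) (nat_lit 137) (nat_lit 426) (@Lb.fm (nat_lit 9) t7033)))))))))))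
noncomputable def l40607 : Lb := (@Lb.d (nat_lit 0) (nat_lit 4) (nat_lit 128) (@Lb.g g9 (@Lb.g g10 (@Lb.g g11 (@Lb.r r2595 (@Lb.r r1442 (@Lb.r r145 (@Lb.r r24 (@Lb.d (nat_lit 8) (nat_lit 150) (nat_lit 153) (@Lb.t (@Lb.fp (nat_lit 9) t5441)))))))))))
noncomputable def l40608 : Lb := (@Lb.r r82 (@Lb.r r275 (@Lb.d (nat_lit 130) (nat_lit 262) (nat_lit 0) (@Lb.g g8 (@Lb.g g9 (@Lb.r r599 (@Lb.r r98 (@Lb.r r1444 (@Lb.d (nat_lit 361) (nat_lit 166) (nat_lit 274) (@Lb.fp (nat_lit 3) t6197))))))))))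
noncomputable def l40609 : Lb := (@Lb.r r90 (@Lb.d (nat_lit 8) (nat_lit 2) (nat_lit 128) (@Lb.g g8 (@Lb.g g9 (@Lb.g g11 (@Lb.r r2442 (@Lb.r r611 (@Lb.r r529 (@Lb.r r1444 (@Lb.d (nat_lit 422) (nat_lit 4) (nat_lit 601) (@Lb.t (@Lb.fm (nat_lit 9) t7035))))))))))))
noncomputable def l40610 : Lb := (@Lb.d (nat_lit 1) (nat_lit 512) (nat_lit 129) (@Lb.g g8 (@Lb.g g9 (@Lb.g g10 (@Lb.g g11 (@Lb.r r1411 (@Lb.r r612 (@Lb.r r666 (@Lb.r r1557 (@Lb.r r36 (@Lb.d (nat_lit 0) (nat_lit 85) (nat_lit 516) (@Lb.fm (nat_lit 9) t1594))))))))))))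
noncomputable def l40611 : Lb := (@Lb.d (nat_lit 640) (nat_lit 258) (nat_lit 0) (@Lb.g g4 (@Lb.g g5 (@Lb.r r1414 (@Lb.r r2667 (@Lb.r r529 (@Lb.d (nat_lit 322) (nat_lit 41) (nat_lit 658) (@Lb.fm (nat_lit 3) t4100))))))))
noncomputable def l40612 : Lb := (@Lb.d (nat_lit 2) (nat_lit 514) (nat_lit 130) (@Lb.g g8 (@Lb.g g9 (@Lb.g g10 (@Lb.g g11 (@Lb.r r427 (@Lb.r r424 (@Lb.r r106 (@Lb.r r97 (@Lb.d (nat_lit 537) (nat_lit 133) (nat_lit 33) (@Lb.fp (nat_lit 9) t4492)))))))))))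
noncomputable def l40613 : Lb := (@Lb.d (nat_lit 9) (nat_lit 256) (nat_lit 0) (@Lb.g g8 (@Lb.r r1707 (@Lb.r r2178 (@Lb.r r149 (@Lb.r r296 (@Lb.d (nat_lit 517) (nat_lit 105) (nat_lit 642) (@Lb.t (@Lb.fm (nat_lit 3) t7036)))))))))
noncomputable def l40614 : Lb := (@Lb.d (nat_lit 610) (nat_lit 320) (nat_lit 340) (@Lb.r r1351 (@Lb.r r660 (@Lb.r r662 (@Lb.g g7 (@Lb.g g6 (@Lb.g g9 (@Lb.d (nat_lit 64) (nat_lit 144) (nat_lit 65) (@Lb.r r36 (@Lb.t (@Lb.fp (nat_lit 9) t4273)))))))))))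
noncomputable def l40615 : Lb := (@Lb.d (nat_lit 0) (nat_lit 2) (nat_lit 130) (@Lb.g g9 (@Lb.g g10 (@Lb.g g11 (@Lb.r r610 (@Lb.r r2667 (@Lb.r r97 (@Lb.r r2564 (@Lb.d (nat_lit 553) (nat_lit 137) (nat_lit 22) (@Lb.t (@Lb.fm (nat_lit 9) t461)))))))))))
noncomputable def l40616 : Lb := (@Lb.d (nat_lit 400) (nat_lit 1) (nat_lit 336) (@Lb.r r24 (@Lb.r r1410 (@Lb.g g7 (@Lb.g g5 (@Lb.d (nat_lit 4) (nat_lit 145) (nat_lit 68) (@Lb.r r610 (@Lb.fm (nat_lit 3) t311))))))))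
noncomputable def l40617 : Lb := (@Lb.d (nat_lit 400) (nat_lit 1) (nat_lit 294) (@Lb.r r24 (@Lb.r r386 (@Lb.g g11 (@Lb.g g6 (@Lb.g g5 (@Lb.d (nat_lit 4) (nat_lit 8) (nat_lit 0) (@Lb.t (@Lb.fm (nat_lit 9) t1004)))))))))
noncomputable def l40618 : Lb := (@Lb.d (nat_lit 8) (nat_lit 514) (nat_lit 73) (@Lb.g g8 (@Lb.g g9 (@Lb.g g10 (@Lb.g g11 (@Lb.r r2691 (@Lb.r r2345 (@Lb.r r648 (@Lb.r r666 (@Lb.r r1156 (@Lb.d (nat_lit 640) (nat_lit 42) (nat_lit 601) (@Lb.fp (nat_lit 9) t259))))))))))))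
noncomputable def l40619 : Lb := (@Lb.r r322 (@Lb.d (nat_lit 40) (nat_lit 2) (nat_lit 576) (@Lb.g g8 (@Lb.g g9 (@Lb.g g7 (@Lb.r r2409 (@Lb.r r150 (@Lb.r r1364 (@Lb.d (nat_lit 342) (nat_lit 164) (nat_lit 289) (@Lb.t (@Lb.fp (nat_lit 9) t1115)))))))))))
noncomputable def l40620 : Lb := (@Lb.g g7 (@Lb.r r24 (@Lb.r r101 (@Lb.r r402 (@Lb.d (nat_lit 0) (nat_lit 0) (nat_lit 9) (@Lb.t (@Lb.fp (nat_lit 3) t311)))))))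
noncomputable def l40621 : Lb := (@Lb.r r323 (@Lb.d (nat_lit 33) (nat_lit 4) (nat_lit 34) (@Lb.g g8 (@Lb.g g9 (@Lb.g g6 (@Lb.r r1643 (@Lb.r r97 (@Lb.r r2072 (@Lb.d (nat_lit 520) (nat_lit 137) (nat_lit 128) (@Lb.t (@Lb.fm (nat_lit 9) t4687)))))))))))
noncomputable def l40622 : Lb := (@Lb.r r331 (@Lb.d (nat_lit 32) (nat_lit 2) (nat_lit 2) (@Lb.g g8 (@Lb.g g9 (@Lb.g g10 (@Lb.r r666 (@Lb.r r553 (@Lb.r r619 (@Lb.r r84 (@Lb.d (nat_lit 82) (nat_lit 150) (nat_lit 329) (@Lb.t (@Lb.fp (nat_lit 9) t1549))))))))))))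
noncomputable def l40623 : Lb := (@Lb.r r322 (@Lb.d (nat_lit 33) (nat_lit 0) (nat_lit 576) (@Lb.g g8 (@Lb.g g9 (@Lb.g g7 (@Lb.r r598 (@Lb.r r289 (@Lb.r r1432 (@Lb.d (nat_lit 265) (nat_lit 73) (nat_lit 82) (@Lb.t (@Lb.fp (nat_lit 9) t1013)))))))))))
noncomputable def l40624 : Lb := (@Lb.d (nat_lit 0) (nat_lit 264) (nat_lit 2) (@Lb.g g10 (@Lb.g g7 (@Lb.r r2641 (@Lb.r r354 (@Lb.d (nat_lit 0) (nat_lit 162) (nat_lit 4) (@Lb.fp (nat_lit 3) t1746)))))))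
noncomputable def l40625 : Lb := (@Lb.g g8 (@Lb.g g7 (@Lb.r r101 (@Lb.r r24 (@Lb.d (nat_lit 577) (nat_lit 0) (nat_lit 597) (@Lb.fp (nat_lit 3) t1150))))))
noncomputable def l40626 : Lb := (@Lb.d (nat_lit 406) (nat_lit 262) (nat_lit 404) (@Lb.r r24 (@Lb.r r101 (@Lb.r r386 (@Lb.g g11 (@Lb.g g6 (@Lb.g g4 (@Lb.d (nat_lit 6) (nat_lit 0) (nat_lit 1) (@Lb.t (@Lb.fp (nat_lit 9) t6497))))))))))
noncomputable def l40627 : Lb := (@Lb.r r323 (@Lb.g g8 (@Lb.g g9 (@Lb.g g6 (@Lb.r r1323 (@Lb.r r2409 (@Lb.r r360 (@Lb.r r150 (@Lb.d (nat_lit 256) (nat_lit 133) (nat_lit 138) (@Lb.t (@Lb.fm (nat_lit 9) t4205)))))))))))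
noncomputable def l40628 : Lb := (@Lb.r r323 (@Lb.d (nat_lit 5) (nat_lit 512) (nat_lit 2) (@Lb.g g8 (@Lb.g g9 (@Lb.g g10 (@Lb.r r1307 (@Lb.r r2154 (@Lb.r r2153 (@Lb.r r680 (@Lb.d (nat_lit 338) (nat_lit 89) (nat_lit 148) (@Lb.t (@Lb.fm (nat_lit 9) t1082))))))))))))
noncomputable def l40629 : Lb := (@Lb.d (nat_lit 4) (nat_lit 6) (nat_lit 0) (@Lb.g g5 (@Lb.d (nat_lit 549) (nat_lit 6) (nat_lit 145) (@Lb.t (@Lb.fm (nat_lit 3) t126)))))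
noncomputable def l40630 : Lb := (@Lb.d (nat_lit 0) (nat_lit 682) (nat_lit 550) (@Lb.r r97 (@Lb.r r2130 (@Lb.r r2323 (@Lb.g g5 (@Lb.d (nat_lit 0) (nat_lit 1) (nat_lit 0) (@Lb.t (@Lb.fp (nat_lit 3) t7037))))))))
noncomputable def l40631 : Lb := (@Lb.d (nat_lit 0) (nat_lit 512) (nat_lit 2) (@Lb.g g10 (@Lb.g g7 (@Lb.r r386 (@Lb.r r2449 (@Lb.d (nat_lit 608) (nat_lit 100) (nat_lit 660) (@Lb.fm (nat_lit 3) t3453)))))))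
noncomputable def l40632 : Lb := (@Lb.d (nat_lit 0) (nat_lit 256) (nat_lit 128) (@Lb.g g4 (@Lb.g g10 (@Lb.g g11 (@Lb.r r387 (@Lb.r r402 (@Lb.d (nat_lit 293) (nat_lit 10) (nat_lit 34) (@Lb.t (@Lb.fm (nat_lit 9) t3532)))))))))
noncomputable def l40633 : Lb := (@Lb.r r323 (@Lb.d (nat_lit 2) (nat_lit 514) (nat_lit 1) (@Lb.g g8 (@Lb.g g9 (@Lb.g g6 (@Lb.r r387 (@Lb.r r97 (@Lb.d (nat_lit 0) (nat_lit 138) (nat_lit 2) (@Lb.t (@Lb.fm (nat_lit 9) t126))))))))))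
noncomputable def l40634 : Lb := (@Lb.d (nat_lit 2) (nat_lit 548) (nat_lit 64) (@Lb.g g8 (@Lb.g g9 (@Lb.g g10 (@Lb.g g11 (@Lb.r r1641 (@Lb.r r427 (@Lb.r r1160 (@Lb.r r1610 (@Lb.d (nat_lit 425) (nat_lit 42) (nat_lit 88) (@Lb.fp (nat_lit 9) t5405)))))))))))
noncomputable def l40635 : Lb := (@Lb.d (nat_lit 128) (nat_lit 585) (nat_lit 72) (@Lb.g g8 (@Lb.g g9 (@Lb.g g10 (@Lb.g g11 (@Lb.r r1623 (@Lb.r r682 (@Lb.r r1604 (@Lb.d (nat_lit 132) (nat_lit 134) (nat_lit 273) (@Lb.fp (nat_lit 9) t4543))))))))))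
noncomputable def l40636 : Lb := (@Lb.d (nat_lit 4) (nat_lit 257) (nat_lit 130) (@Lb.g g9 (@Lb.g g10 (@Lb.g g11 (@Lb.r r614 (@Lb.r r404 (@Lb.r r1371 (@Lb.r r2597 (@Lb.d (nat_lit 272) (nat_lit 133) (nat_lit 678) (@Lb.t (@Lb.fp (nat_lit 9) t494)))))))))))
noncomputable def l40637 : Lb := (@Lb.r r323 (@Lb.d (nat_lit 65) (nat_lit 514) (nat_lit 0) (@Lb.g g8 (@Lb.g g9 (@Lb.g g10 (@Lb.r r599 (@Lb.r r345 (@Lb.r r166 (@Lb.r r84 (@Lb.d (nat_lit 21) (nat_lit 70) (nat_lit 258) (@Lb.t (@Lb.fm (nat_lit 9) t51))))))))))))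
noncomputable def l40638 : Lb := (@Lb.d (nat_lit 10) (nat_lit 258) (nat_lit 130) (@Lb.g g8 (@Lb.g g9 (@Lb.g g10 (@Lb.g g11 (@Lb.r r612 (@Lb.r r154 (@Lb.r r597 (@Lb.r r1367 (@Lb.r r2724 (@Lb.d (nat_lit 513) (nat_lit 2) (nat_lit 18) (@Lb.fm (nat_lit 9) t1139))))))))))))
noncomputable def l40639 : Lb := (@Lb.d (nat_lit 400) (nat_lit 512) (nat_lit 406) (@Lb.r r20 (@Lb.r r2153 (@Lb.r r386 (@Lb.g g11 (@Lb.g g6 (@Lb.g g5 (@Lb.g g4 (@Lb.d (nat_lit 10) (nat_lit 0) (nat_lit 129) (@Lb.fm (nat_lit 9) t1117))))))))))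
noncomputable def l40640 : Lb := (@Lb.d (nat_lit 10) (nat_lit 514) (nat_lit 0) (@Lb.g g8 (@Lb.g g9 (@Lb.r r20 (@Lb.r r2073 (@Lb.d (nat_lit 0) (nat_lit 128) (nat_lit 0) (@Lb.fm (nat_lit 3) t2)))))))
noncomputable def l40641 : Lb := (@Lb.d (nat_lit 9) (nat_lit 257) (nat_lit 66) (@Lb.g g8 (@Lb.g g9 (@Lb.g g10 (@Lb.g g7 (@Lb.r r386 (@Lb.r r104 (@Lb.r r25 (@Lb.d (nat_lit 522) (nat_lit 89) (nat_lit 281) (@Lb.fm (nat_lit 9) t845))))))))))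
noncomputable def l40642 : Lb := (@Lb.d (nat_lit 137) (nat_lit 514) (nat_lit 256) (@Lb.g g8 (@Lb.g g9 (@Lb.g g7 (@Lb.r r280 (@Lb.r r2069 (@Lb.r r36 (@Lb.d (nat_lit 0) (nat_lit 16) (nat_lit 256) (@Lb.t (@Lb.fm (nat_lit 9) t5297))))))))))
noncomputable def l40643 : Lb := (@Lb.d (nat_lit 10) (nat_lit 258) (nat_lit 130) (@Lb.g g8 (@Lb.g g9 (@Lb.g g10 (@Lb.g g11 (@Lb.r r612 (@Lb.r r154 (@Lb.r r597 (@Lb.r r1367 (@Lb.r r2724 (@Lb.d (nat_lit 521) (nat_lit 1) (nat_lit 18) (@Lb.fm (nat_lit 9) t1139))))))))))))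
noncomputable def l40644 : Lb := (@Lb.d (nat_lit 0) (nat_lit 677) (nat_lit 600) (@Lb.r r20 (@Lb.r r2145 (@Lb.r r386 (@Lb.r r339 (@Lb.g g7 (@Lb.g g6 (@Lb.d (nat_lit 0) (nat_lit 0) (nat_lit 65) (@Lb.fm (nat_lit 3) t50)))))))))
noncomputable def l40645 : Lb := (@Lb.d (nat_lit 0) (nat_lit 165) (nat_lit 534) (@Lb.r r20 (@Lb.r r2145 (@Lb.r r386 (@Lb.r r339 (@Lb.g g7 (@Lb.g g6 (@Lb.d (nat_lit 0) (nat_lit 0) (nat_lit 65) (@Lb.fm (nat_lit 3) t50)))))))))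
noncomputable def l40646 : Lb := (@Lb.r r355 (@Lb.d (nat_lit 130) (nat_lit 552) (nat_lit 17) (@Lb.g g8 (@Lb.g g9 (@Lb.g g6 (@Lb.r r1555 (@Lb.r r2453 (@Lb.r r612 (@Lb.d (nat_lit 666) (nat_lit 21) (nat_lit 602) (@Lb.t (@Lb.fm (nat_lit 9) t4178)))))))))))
noncomputable def l40647 : Lb := (@Lb.d (nat_lit 2) (nat_lit 9) (nat_lit 72) (@Lb.g g8 (@Lb.g g9 (@Lb.g g10 (@Lb.g g11 (@Lb.r r1626 (@Lb.r r579 (@Lb.r r97 (@Lb.r r24 (@Lb.d (nat_lit 641) (nat_lit 25) (nat_lit 66) (@Lb.fm (nat_lit 9) t2638)))))))))))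
noncomputable def l40648 : Lb := (@Lb.d (nat_lit 2) (nat_lit 290) (nat_lit 322) (@Lb.g g8 (@Lb.g g9 (@Lb.g g10 (@Lb.g g7 (@Lb.r r386 (@Lb.r r612 (@Lb.r r533 (@Lb.r r36 (@Lb.d (nat_lit 514) (nat_lit 5) (nat_lit 24) (@Lb.fp (nat_lit 9) t1244)))))))))))
noncomputable def l40649 : Lb := (@Lb.d (nat_lit 0) (nat_lit 265) (nat_lit 129) (@Lb.g g8 (@Lb.g g9 (@Lb.g g10 (@Lb.g g11 (@Lb.r r2691 (@Lb.r r297 (@Lb.r r648 (@Lb.r r666 (@Lb.r r1156 (@Lb.d (nat_lit 646) (nat_lit 40) (nat_lit 73) (@Lb.fp (nat_lit 9) t1234))))))))))))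
noncomputable def l40650 : Lb := (@Lb.d (nat_lit 406) (nat_lit 20) (nat_lit 128) (@Lb.r r405 (@Lb.r r2454 (@Lb.r r1124 (@Lb.g g11 (@Lb.g g5 (@Lb.d (nat_lit 64) (nat_lit 5) (nat_lit 512) (@Lb.fm (nat_lit 3) t2600))))))))
noncomputable def l40651 : Lb := (@Lb.d (nat_lit 68) (nat_lit 513) (nat_lit 64) (@Lb.r r2596 (@Lb.r r2130 (@Lb.r r1303 (@Lb.g g7 (@Lb.g g5 (@Lb.g g4 (@Lb.d (nat_lit 66) (nat_lit 129) (nat_lit 64) (@Lb.r r74 (@Lb.t (@Lb.fp (nat_lit 9) t5288)))))))))))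
noncomputable def l40652 : Lb := (@Lb.r r82 (@Lb.d (nat_lit 5) (nat_lit 256) (nat_lit 128) (@Lb.g g8 (@Lb.g g9 (@Lb.g g11 (@Lb.r r1691 (@Lb.r r610 (@Lb.r r1065 (@Lb.r r1416 (@Lb.d (nat_lit 665) (nat_lit 152) (nat_lit 68) (@Lb.t (@Lb.fp (nat_lit 9) t7038))))))))))))
noncomputable def l40653 : Lb := (@Lb.r r70 (@Lb.d (nat_lit 0) (nat_lit 258) (nat_lit 0) (@Lb.g g8 (@Lb.g g9 (@Lb.r r1561 (@Lb.r r1563 (@Lb.r r644 (@Lb.r r2182 (@Lb.d (nat_lit 0) (nat_lit 10) (nat_lit 674) (@Lb.fm (nat_lit 3) t5650))))))))))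
noncomputable def l40654 : Lb := (@Lb.r r21 (@Lb.r r322 (@Lb.d (nat_lit 129) (nat_lit 544) (nat_lit 516) (@Lb.g g8 (@Lb.g g7 (@Lb.r r426 (@Lb.r r97 (@Lb.r r2132 (@Lb.d (nat_lit 553) (nat_lit 2) (nat_lit 82) (@Lb.fp (nat_lit 3) t1192))))))))))
noncomputable def l40655 : Lb := (@Lb.d (nat_lit 2) (nat_lit 581) (nat_lit 657) (@Lb.r r81 (@Lb.r r2470 (@Lb.g g11 (@Lb.g g5 (@Lb.g g8 (@Lb.d (nat_lit 612) (nat_lit 2) (nat_lit 512) (@Lb.r r74 (@Lb.t (@Lb.fm (nat_lit 9) t4265))))))))))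
noncomputable def l40656 : Lb := (@Lb.r r21 (@Lb.r r70 (@Lb.d (nat_lit 294) (nat_lit 512) (nat_lit 0) (@Lb.g g8 (@Lb.r r2454 (@Lb.r r97 (@Lb.d (nat_lit 1) (nat_lit 88) (nat_lit 18) (@Lb.t (@Lb.fp (nat_lit 3) t3999)))))))))
noncomputable def l40657 : Lb := (@Lb.d (nat_lit 98) (nat_lit 33) (nat_lit 132) (@Lb.g g8 (@Lb.g g9 (@Lb.g g10 (@Lb.g g11 (@Lb.r r2722 (@Lb.r r1415 (@Lb.r r36 (@Lb.r r1173 (@Lb.r r1060 (@Lb.d (nat_lit 617) (nat_lit 152) (nat_lit 65) (@Lb.fm (nat_lit 9) t2573))))))))))))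
noncomputable def l40658 : Lb := (@Lb.d (nat_lit 4) (nat_lit 10) (nat_lit 1) (@Lb.g g8 (@Lb.g g9 (@Lb.g g10 (@Lb.r r683 (@Lb.r r2666 (@Lb.r r2585 (@Lb.d (nat_lit 330) (nat_lit 164) (nat_lit 160) (@Lb.t (@Lb.fp (nat_lit 9) t1481))))))))))
noncomputable def l40659 : Lb := (@Lb.d (nat_lit 0) (nat_lit 0) (nat_lit 2) (@Lb.g g8 (@Lb.g g10 (@Lb.g g7 (@Lb.r r386 (@Lb.r r101 (@Lb.r r24 (@Lb.d (nat_lit 354) (nat_lit 10) (nat_lit 584) (@Lb.t (@Lb.fm (nat_lit 9) t166))))))))))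
noncomputable def l40660 : Lb := (@Lb.d (nat_lit 674) (nat_lit 538) (nat_lit 65) (@Lb.r r289 (@Lb.r r602 (@Lb.r r360 (@Lb.r r2695 (@Lb.g g7 (@Lb.g g6 (@Lb.d (nat_lit 16) (nat_lit 0) (nat_lit 72) (@Lb.fp (nat_lit 3) t1260)))))))))
noncomputable def l40661 : Lb := (@Lb.r r82 (@Lb.d (nat_lit 34) (nat_lit 2) (nat_lit 128) (@Lb.g g8 (@Lb.g g9 (@Lb.g g11 (@Lb.r r363 (@Lb.r r582 (@Lb.r r388 (@Lb.d (nat_lit 100) (nat_lit 2) (nat_lit 154) (@Lb.t (@Lb.fm (nat_lit 9) t1499)))))))))))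
noncomputable def l40662 : Lb := (@Lb.r r70 (@Lb.r r263 (@Lb.d (nat_lit 4) (nat_lit 512) (nat_lit 0) (@Lb.g g8 (@Lb.g g9 (@Lb.r r279 (@Lb.r r86 (@Lb.r r40 (@Lb.r r25 (@Lb.d (nat_lit 2) (nat_lit 9) (nat_lit 2) (@Lb.fp (nat_lit 3) t151)))))))))))
noncomputable def l40663 : Lb := (@Lb.r r323 (@Lb.d (nat_lit 0) (nat_lit 513) (nat_lit 2) (@Lb.g g8 (@Lb.g g9 (@Lb.g g10 (@Lb.r r106 (@Lb.r r616 (@Lb.r r299 (@Lb.r r289 (@Lb.d (nat_lit 10) (nat_lit 160) (nat_lit 74) (@Lb.t (@Lb.fm (nat_lit 9) t51))))))))))))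
noncomputable def l40664 : Lb := (@Lb.r r21 (@Lb.d (nat_lit 657) (nat_lit 256) (nat_lit 133) (@Lb.g g4 (@Lb.g g10 (@Lb.g g11 (@Lb.r r323 (@Lb.r r362 (@Lb.r r97 (@Lb.d (nat_lit 129) (nat_lit 80) (nat_lit 640) (@Lb.t (@Lb.fm (nat_lit 9) t501)))))))))))
noncomputable def l40665 : Lb := (@Lb.d (nat_lit 18) (nat_lit 282) (nat_lit 137) (@Lb.r r37 (@Lb.r r519 (@Lb.r r344 (@Lb.g g7 (@Lb.g g6 (@Lb.d (nat_lit 80) (nat_lit 8) (nat_lit 133) (@Lb.r r145 (@Lb.r r132 (@Lb.fp (nat_lit 3) t1832))))))))))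
noncomputable def l40666 : Lb := (@Lb.d (nat_lit 4) (nat_lit 521) (nat_lit 2) (@Lb.g g8 (@Lb.g g9 (@Lb.g g10 (@Lb.r r2699 (@Lb.r r1610 (@Lb.r r20 (@Lb.r r1049 (@Lb.d (nat_lit 261) (nat_lit 26) (nat_lit 297) (@Lb.t (@Lb.fp (nat_lit 9) t1877)))))))))))
noncomputable def l40667 : Lb := (@Lb.d (nat_lit 0) (nat_lit 8) (nat_lit 130) (@Lb.g g10 (@Lb.g g11 (@Lb.r r1691 (@Lb.r r2401 (@Lb.r r1174 (@Lb.r r8 (@Lb.d (nat_lit 165) (nat_lit 73) (nat_lit 153) (@Lb.fm (nat_lit 3) t1649)))))))))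
noncomputable def l40668 : Lb := (@Lb.d (nat_lit 282) (nat_lit 85) (nat_lit 64) (@Lb.r r105 (@Lb.r r612 (@Lb.r r583 (@Lb.g g6 (@Lb.g g5 (@Lb.g g4 (@Lb.d (nat_lit 65) (nat_lit 17) (nat_lit 33) (@Lb.r r387 (@Lb.t (@Lb.fp (nat_lit 9) t4602)))))))))))
noncomputable def l40669 : Lb := (@Lb.d (nat_lit 0) (nat_lit 9) (nat_lit 72) (@Lb.g g9 (@Lb.g g10 (@Lb.g g11 (@Lb.r r2691 (@Lb.r r536 (@Lb.r r1637 (@Lb.r r2714 (@Lb.r r132 (@Lb.d (nat_lit 678) (nat_lit 161) (nat_lit 74) (@Lb.t (@Lb.fm (nat_lit 9) t283))))))))))))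
noncomputable def l40670 : Lb := (@Lb.d (nat_lit 0) (nat_lit 512) (nat_lit 128) (@Lb.g g10 (@Lb.g g11 (@Lb.r r387 (@Lb.r r402 (@Lb.r r1172 (@Lb.d (nat_lit 292) (nat_lit 64) (nat_lit 16) (@Lb.fp (nat_lit 3) t5721))))))))
noncomputable def l40671 : Lb := (@Lb.d (nat_lit 9) (nat_lit 530) (nat_lit 2) (@Lb.g g8 (@Lb.g g9 (@Lb.g g10 (@Lb.g g11 (@Lb.r r2391 (@Lb.r r1428 (@Lb.r r1110 (@Lb.r r2197 (@Lb.d (nat_lit 552) (nat_lit 136) (nat_lit 681) (@Lb.fp (nat_lit 9) t1050)))))))))))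
noncomputable def l40672 : Lb := (@Lb.r r21 (@Lb.r r70 (@Lb.d (nat_lit 2) (nat_lit 256) (nat_lit 0) (@Lb.g g8 (@Lb.g g11 (@Lb.r r586 (@Lb.r r537 (@Lb.r r516 (@Lb.d (nat_lit 1) (nat_lit 0) (nat_lit 128) (@Lb.fm (nat_lit 3) t3467))))))))))
noncomputable def l40673 : Lb := (@Lb.d (nat_lit 0) (nat_lit 512) (nat_lit 128) (@Lb.g g10 (@Lb.g g11 (@Lb.r r387 (@Lb.r r1617 (@Lb.r r354 (@Lb.r r1124 (@Lb.d (nat_lit 0) (nat_lit 133) (nat_lit 1) (@Lb.fm (nat_lit 3) t1282)))))))))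
noncomputable def l40674 : Lb := (@Lb.r r21 (@Lb.d (nat_lit 129) (nat_lit 512) (nat_lit 130) (@Lb.g g8 (@Lb.g g10 (@Lb.g g11 (@Lb.r r2379 (@Lb.r r386 (@Lb.r r97 (@Lb.r r1700 (@Lb.d (nat_lit 640) (nat_lit 168) (nat_lit 617) (@Lb.t (@Lb.fm (nat_lit 9) t5953))))))))))))
noncomputable def l40675 : Lb := (@Lb.d (nat_lit 24) (nat_lit 1) (nat_lit 74) (@Lb.g g8 (@Lb.g g9 (@Lb.g g10 (@Lb.g g11 (@Lb.r r2659 (@Lb.r r408 (@Lb.r r2138 (@Lb.r r2133 (@Lb.d (nat_lit 68) (nat_lit 89) (nat_lit 389) (@Lb.fp (nat_lit 9) t4709)))))))))))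
noncomputable def l40676 : Lb := (@Lb.d (nat_lit 33) (nat_lit 2) (nat_lit 129) (@Lb.g g8 (@Lb.g g9 (@Lb.g g10 (@Lb.g g11 (@Lb.r r2723 (@Lb.r r1176 (@Lb.r r2650 (@Lb.r r25 (@Lb.d (nat_lit 664) (nat_lit 0) (nat_lit 596) (@Lb.fp (nat_lit 9) t7039)))))))))))
noncomputable def l40677 : Lb := (@Lb.d (nat_lit 129) (nat_lit 4) (nat_lit 128) (@Lb.g g8 (@Lb.g g9 (@Lb.g g10 (@Lb.g g11 (@Lb.r r1706 (@Lb.r r1411 (@Lb.r r1177 (@Lb.r r1156 (@Lb.d (nat_lit 298) (nat_lit 89) (nat_lit 665) (@Lb.fm (nat_lit 9) t2804)))))))))))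
noncomputable def l40678 : Lb := (@Lb.r r355 (@Lb.d (nat_lit 33) (nat_lit 513) (nat_lit 2) (@Lb.g g8 (@Lb.g g9 (@Lb.g g10 (@Lb.r r2666 (@Lb.r r2712 (@Lb.r r1365 (@Lb.r r1315 (@Lb.d (nat_lit 17) (nat_lit 102) (nat_lit 402) (@Lb.t (@Lb.fp (nat_lit 9) t1646))))))))))))
noncomputable def l40679 : Lb := (@Lb.r r82 (@Lb.d (nat_lit 9) (nat_lit 513) (nat_lit 128) (@Lb.g g8 (@Lb.g g9 (@Lb.g g11 (@Lb.r r2659 (@Lb.r r2442 (@Lb.r r1065 (@Lb.r r2468 (@Lb.d (nat_lit 257) (nat_lit 101) (nat_lit 596) (@Lb.t (@Lb.fp (nat_lit 9) t7040))))))))))))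
noncomputable def l40680 : Lb := (@Lb.r r273 (@Lb.r r322 (@Lb.d (nat_lit 0) (nat_lit 544) (nat_lit 580) (@Lb.g g7 (@Lb.r r402 (@Lb.r r280 (@Lb.r r613 (@Lb.d (nat_lit 546) (nat_lit 64) (nat_lit 132) (@Lb.t (@Lb.fp (nat_lit 3) t792))))))))))
noncomputable def l40681 : Lb := (@Lb.d (nat_lit 129) (nat_lit 258) (nat_lit 130) (@Lb.g g8 (@Lb.g g9 (@Lb.g g10 (@Lb.g g11 (@Lb.r r1706 (@Lb.r r1411 (@Lb.r r1177 (@Lb.r r1156 (@Lb.d (nat_lit 298) (nat_lit 89) (nat_lit 665) (@Lb.fm (nat_lit 9) t7041)))))))))))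
noncomputable def l40682 : Lb := (@Lb.r r70 (@Lb.g g4 (@Lb.g g5 (@Lb.r r2410 (@Lb.r r2340 (@Lb.d (nat_lit 0) (nat_lit 145) (nat_lit 320) (@Lb.fm (nat_lit 3) t1145)))))))
noncomputable def l40683 : Lb := (@Lb.d (nat_lit 0) (nat_lit 258) (nat_lit 130) (@Lb.g g9 (@Lb.g g10 (@Lb.g g11 (@Lb.r r2705 (@Lb.r r1691 (@Lb.r r578 (@Lb.r r2564 (@Lb.d (nat_lit 521) (nat_lit 154) (nat_lit 137) (@Lb.t (@Lb.fp (nat_lit 9) t1097)))))))))))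
noncomputable def l40684 : Lb := (@Lb.r r82 (@Lb.d (nat_lit 2) (nat_lit 33) (nat_lit 64) (@Lb.g g8 (@Lb.g g9 (@Lb.g g11 (@Lb.r r2659 (@Lb.r r2152 (@Lb.r r1430 (@Lb.r r2645 (@Lb.d (nat_lit 545) (nat_lit 40) (nat_lit 68) (@Lb.t (@Lb.fp (nat_lit 9) t4311))))))))))))
noncomputable def l40685 : Lb := (@Lb.d (nat_lit 38) (nat_lit 256) (nat_lit 72) (@Lb.g g8 (@Lb.g g9 (@Lb.g g10 (@Lb.g g11 (@Lb.r r2583 (@Lb.r r1434 (@Lb.r r292 (@Lb.r r1429 (@Lb.r r1060 (@Lb.d (nat_lit 96) (nat_lit 40) (nat_lit 73) (@Lb.fp (nat_lit 9) t6902))))))))))))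
noncomputable def l40686 : Lb := (@Lb.r r21 (@Lb.r r326 (@Lb.d (nat_lit 513) (nat_lit 512) (nat_lit 640) (@Lb.g g8 (@Lb.g g11 (@Lb.r r2198 (@Lb.r r97 (@Lb.d (nat_lit 328) (nat_lit 69) (nat_lit 513) (@Lb.fm (nat_lit 3) t3999)))))))))
noncomputable def l40687 : Lb := (@Lb.r r82 (@Lb.d (nat_lit 2) (nat_lit 545) (nat_lit 64) (@Lb.g g8 (@Lb.g g9 (@Lb.g g11 (@Lb.r r2659 (@Lb.r r2152 (@Lb.r r1430 (@Lb.r r2645 (@Lb.d (nat_lit 546) (nat_lit 40) (nat_lit 68) (@Lb.t (@Lb.fp (nat_lit 9) t243))))))))))))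
noncomputable def l40688 : Lb := (@Lb.r r359 (@Lb.d (nat_lit 4) (nat_lit 0) (nat_lit 1) (@Lb.g g8 (@Lb.g g9 (@Lb.g g6 (@Lb.r r2563 (@Lb.r r2133 (@Lb.r r2068 (@Lb.d (nat_lit 593) (nat_lit 73) (nat_lit 528) (@Lb.t (@Lb.fm (nat_lit 9) t5668)))))))))))
noncomputable def l40689 : Lb := (@Lb.d (nat_lit 6) (nat_lit 257) (nat_lit 64) (@Lb.g g8 (@Lb.g g9 (@Lb.g g11 (@Lb.r r356 (@Lb.r r2651 (@Lb.r r2178 (@Lb.r r341 (@Lb.r r1060 (@Lb.d (nat_lit 610) (nat_lit 66) (nat_lit 404) (@Lb.t (@Lb.fm (nat_lit 9) t229))))))))))))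
noncomputable def l40690 : Lb := (@Lb.r r21 (@Lb.r r70 (@Lb.g g4 (@Lb.r r1639 (@Lb.r r402 (@Lb.r r661 (@Lb.r r2120 (@Lb.d (nat_lit 406) (nat_lit 664) (nat_lit 660) (@Lb.t (@Lb.fp (nat_lit 3) t2797))))))))))
noncomputable def l40691 : Lb := (@Lb.r r82 (@Lb.d (nat_lit 134) (nat_lit 0) (nat_lit 64) (@Lb.g g8 (@Lb.g g9 (@Lb.g g11 (@Lb.r r1124 (@Lb.r r618 (@Lb.r r609 (@Lb.r r2339 (@Lb.d (nat_lit 613) (nat_lit 168) (nat_lit 73) (@Lb.t (@Lb.fp (nat_lit 9) t7042))))))))))))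
noncomputable def l40692 : Lb := (@Lb.d (nat_lit 2) (nat_lit 514) (nat_lit 66) (@Lb.g g8 (@Lb.g g9 (@Lb.g g10 (@Lb.g g7 (@Lb.r r1442 (@Lb.r r145 (@Lb.r r2120 (@Lb.d (nat_lit 610) (nat_lit 164) (nat_lit 96) (@Lb.fm (nat_lit 9) t5077))))))))))
noncomputable def l40693 : Lb := (@Lb.r r21 (@Lb.r r70 (@Lb.d (nat_lit 657) (nat_lit 512) (nat_lit 128) (@Lb.g g8 (@Lb.g g11 (@Lb.r r1419 (@Lb.r r74 (@Lb.r r25 (@Lb.d (nat_lit 354) (nat_lit 0) (nat_lit 24) (@Lb.fm (nat_lit 3) t538))))))))))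
noncomputable def l40694 : Lb := (@Lb.d (nat_lit 1) (nat_lit 37) (nat_lit 260) (@Lb.r r609 (@Lb.r r1379 (@Lb.g g10 (@Lb.g g5 (@Lb.d (nat_lit 0) (nat_lit 22) (nat_lit 18) (@Lb.r r36 (@Lb.fm (nat_lit 3) t1222))))))))
noncomputable def l40695 : Lb := (@Lb.d (nat_lit 402) (nat_lit 73) (nat_lit 533) (@Lb.r r2321 (@Lb.r r2178 (@Lb.r r291 (@Lb.r r341 (@Lb.g g7 (@Lb.g g5 (@Lb.g g4 (@Lb.d (nat_lit 8) (nat_lit 0) (nat_lit 128) (@Lb.t (@Lb.fm (nat_lit 9) t3351)))))))))))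
noncomputable def l40696 : Lb := (@Lb.d (nat_lit 586) (nat_lit 401) (nat_lit 64) (@Lb.r r1560 (@Lb.r r1114 (@Lb.g g11 (@Lb.g g9 (@Lb.g g4 (@Lb.d (nat_lit 2) (nat_lit 0) (nat_lit 256) (@Lb.r r586 (@Lb.t (@Lb.fm (nat_lit 9) t2688))))))))))
noncomputable def l40697 : Lb := (@Lb.d (nat_lit 2) (nat_lit 4) (nat_lit 74) (@Lb.g g8 (@Lb.g g9 (@Lb.g g10 (@Lb.g g11 (@Lb.r r1699 (@Lb.r r1160 (@Lb.r r1610 (@Lb.r r37 (@Lb.d (nat_lit 610) (nat_lit 149) (nat_lit 358) (@Lb.fm (nat_lit 9) t3049)))))))))))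
noncomputable def l40698 : Lb := (@Lb.d (nat_lit 2) (nat_lit 4) (nat_lit 74) (@Lb.g g8 (@Lb.g g9 (@Lb.g g10 (@Lb.g g11 (@Lb.r r619 (@Lb.r r1610 (@Lb.r r660 (@Lb.r r425 (@Lb.r r2084 (@Lb.d (nat_lit 280) (nat_lit 168) (nat_lit 674) (@Lb.fp (nat_lit 9) t629))))))))))))
noncomputable def l40699 : Lb := (@Lb.r r82 (@Lb.r r275 (@Lb.d (nat_lit 4) (nat_lit 513) (nat_lit 0) (@Lb.g g8 (@Lb.g g9 (@Lb.r r299 (@Lb.r r106 (@Lb.r r25 (@Lb.r r24 (@Lb.d (nat_lit 9) (nat_lit 66) (nat_lit 0) (@Lb.fp (nat_lit 3) t755)))))))))))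
noncomputable def l40700 : Lb := (@Lb.d (nat_lit 68) (nat_lit 512) (nat_lit 97) (@Lb.r r37 (@Lb.r r519 (@Lb.r r344 (@Lb.g g7 (@Lb.g g6 (@Lb.d (nat_lit 64) (nat_lit 8) (nat_lit 134) (@Lb.r r145 (@Lb.r r132 (@Lb.fp (nat_lit 3) t670))))))))))
noncomputable def l40701 : Lb := (@Lb.d (nat_lit 136) (nat_lit 9) (nat_lit 64) (@Lb.g g9 (@Lb.g g11 (@Lb.r r2196 (@Lb.r r662 (@Lb.r r1411 (@Lb.r r281 (@Lb.d (nat_lit 9) (nat_lit 20) (nat_lit 154) (@Lb.fp (nat_lit 3) t322)))))))))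
noncomputable def l40702 : Lb := (@Lb.d (nat_lit 337) (nat_lit 337) (nat_lit 534) (@Lb.r r1604 (@Lb.r r2138 (@Lb.r r1425 (@Lb.g g11 (@Lb.g g6 (@Lb.g g4 (@Lb.d (nat_lit 6) (nat_lit 4) (nat_lit 72) (@Lb.t (@Lb.fm (nat_lit 9) t386))))))))))
noncomputable def l40703 : Lb := (@Lb.d (nat_lit 358) (nat_lit 352) (nat_lit 674) (@Lb.r r2596 (@Lb.r r677 (@Lb.r r346 (@Lb.g g11 (@Lb.g g5 (@Lb.g g4 (@Lb.d (nat_lit 137) (nat_lit 17) (nat_lit 644) (@Lb.r r98 (@Lb.t (@Lb.fp (nat_lit 9) t7043)))))))))))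
noncomputable def l40704 : Lb := (@Lb.d (nat_lit 404) (nat_lit 128) (nat_lit 70) (@Lb.r r1608 (@Lb.r r82 (@Lb.r r2453 (@Lb.g g7 (@Lb.g g5 (@Lb.g g4 (@Lb.d (nat_lit 9) (nat_lit 17) (nat_lit 68) (@Lb.r r98 (@Lb.t (@Lb.fm (nat_lit 9) t5591)))))))))))
noncomputable def l40705 : Lb := (@Lb.d (nat_lit 584) (nat_lit 578) (nat_lit 0) (@Lb.r r2068 (@Lb.r r281 (@Lb.r r404 (@Lb.r r2390 (@Lb.g g7 (@Lb.g g6 (@Lb.g g5 (@Lb.g g4 (@Lb.d (nat_lit 0) (nat_lit 18) (nat_lit 641) (@Lb.fp (nat_lit 9) t7044)))))))))))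
noncomputable def l40706 : Lb := (@Lb.r r2343 (@Lb.r r584 (@Lb.r r86 (@Lb.r r2201 (@Lb.r r132 (@Lb.d (nat_lit 272) (nat_lit 72) (nat_lit 101) (@Lb.fm (nat_lit 1) t450)))))))
noncomputable def l40707 : Lb := (@Lb.r r532 (@Lb.r r82 (@Lb.d (nat_lit 0) (nat_lit 72) (nat_lit 384) (@Lb.g g9 (@Lb.g g11 (@Lb.r r2198 (@Lb.r r1096 (@Lb.d (nat_lit 513) (nat_lit 2) (nat_lit 0) (@Lb.fm (nat_lit 3) t6400)))))))))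
noncomputable def l40708 : Lb := (@Lb.g g8 (@Lb.d (nat_lit 608) (nat_lit 512) (nat_lit 528) (@Lb.t (@Lb.fp (nat_lit 3) t698))))
noncomputable def l40709 : Lb := (@Lb.r r331 (@Lb.d (nat_lit 32) (nat_lit 2) (nat_lit 2) (@Lb.g g8 (@Lb.g g9 (@Lb.g g10 (@Lb.r r1689 (@Lb.r r1563 (@Lb.r r1684 (@Lb.d (nat_lit 405) (nat_lit 38) (nat_lit 593) (@Lb.t (@Lb.fp (nat_lit 9) t1250)))))))))))
noncomputable def l40710 : Lb := (@Lb.r r331 (@Lb.d (nat_lit 36) (nat_lit 522) (nat_lit 1) (@Lb.g g8 (@Lb.g g9 (@Lb.g g10 (@Lb.r r683 (@Lb.r r2209 (@Lb.r r1668 (@Lb.r r1446 (@Lb.d (nat_lit 520) (nat_lit 34) (nat_lit 678) (@Lb.t (@Lb.fp (nat_lit 9) t328))))))))))))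
noncomputable def l40711 : Lb := (@Lb.d (nat_lit 0) (nat_lit 514) (nat_lit 66) (@Lb.g g9 (@Lb.g g10 (@Lb.g g11 (@Lb.r r1672 (@Lb.r r683 (@Lb.r r2666 (@Lb.r r2585 (@Lb.d (nat_lit 650) (nat_lit 105) (nat_lit 353) (@Lb.t (@Lb.fm (nat_lit 9) t430)))))))))))
noncomputable def l40712 : Lb := (@Lb.d (nat_lit 0) (nat_lit 257) (nat_lit 66) (@Lb.g g9 (@Lb.g g10 (@Lb.g g11 (@Lb.r r659 (@Lb.r r2642 (@Lb.r r1313 (@Lb.d (nat_lit 0) (nat_lit 90) (nat_lit 609) (@Lb.t (@Lb.fm (nat_lit 9) t324))))))))))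
noncomputable def l40713 : Lb := (@Lb.d (nat_lit 2) (nat_lit 258) (nat_lit 130) (@Lb.g g8 (@Lb.g g9 (@Lb.g g10 (@Lb.g g11 (@Lb.r r427 (@Lb.r r388 (@Lb.r r70 (@Lb.r r153 (@Lb.r r132 (@Lb.d (nat_lit 0) (nat_lit 2) (nat_lit 154) (@Lb.fp (nat_lit 9) t1149))))))))))))
noncomputable def l40714 : Lb := (@Lb.d (nat_lit 618) (nat_lit 661) (nat_lit 360) (@Lb.r r2404 (@Lb.r r1563 (@Lb.r r2389 (@Lb.g g6 (@Lb.g g5 (@Lb.g g4 (@Lb.d (nat_lit 17) (nat_lit 1) (nat_lit 1) (@Lb.r r391 (@Lb.t (@Lb.fm (nat_lit 9) t694)))))))))))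
noncomputable def l40715 : Lb := (@Lb.d (nat_lit 0) (nat_lit 514) (nat_lit 0) (@Lb.g g8 (@Lb.g g9 (@Lb.r r1122 (@Lb.r r25 (@Lb.r r24 (@Lb.d (nat_lit 514) (nat_lit 0) (nat_lit 0) (@Lb.fp (nat_lit 3) t994))))))))
noncomputable def l40716 : Lb := (@Lb.d (nat_lit 0) (nat_lit 258) (nat_lit 0) (@Lb.g g8 (@Lb.g g9 (@Lb.g g7 (@Lb.r r1122 (@Lb.r r25 (@Lb.r r24 (@Lb.d (nat_lit 514) (nat_lit 0) (nat_lit 69) (@Lb.t (@Lb.fm (nat_lit 9) t49))))))))))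
noncomputable def l40717 : Lb := (@Lb.r r21 (@Lb.d (nat_lit 514) (nat_lit 520) (nat_lit 130) (@Lb.g g8 (@Lb.g g10 (@Lb.g g11 (@Lb.r r1381 (@Lb.r r1683 (@Lb.r r1602 (@Lb.d (nat_lit 1) (nat_lit 10) (nat_lit 665) (@Lb.t (@Lb.fm (nat_lit 9) t145)))))))))))
noncomputable def l40718 : Lb := (@Lb.d (nat_lit 0) (nat_lit 258) (nat_lit 130) (@Lb.g g8 (@Lb.g g9 (@Lb.g g10 (@Lb.g g11 (@Lb.r r427 (@Lb.r r388 (@Lb.r r70 (@Lb.r r153 (@Lb.r r132 (@Lb.d (nat_lit 0) (nat_lit 9) (nat_lit 153) (@Lb.fp (nat_lit 9) t1149))))))))))))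
noncomputable def l40719 : Lb := (@Lb.d (nat_lit 2) (nat_lit 9) (nat_lit 129) (@Lb.g g8 (@Lb.g g9 (@Lb.g g10 (@Lb.g g11 (@Lb.r r427 (@Lb.r r145 (@Lb.r r356 (@Lb.r r154 (@Lb.r r132 (@Lb.d (nat_lit 6) (nat_lit 1) (nat_lit 154) (@Lb.fm (nat_lit 9) t3095))))))))))))
noncomputable def l40720 : Lb := (@Lb.d (nat_lit 0) (nat_lit 258) (nat_lit 0) (@Lb.g g8 (@Lb.g g9 (@Lb.r r1122 (@Lb.r r25 (@Lb.r r24 (@Lb.d (nat_lit 512) (nat_lit 0) (nat_lit 0) (@Lb.fp (nat_lit 3) t994))))))))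
noncomputable def l40721 : Lb := (@Lb.r r70 (@Lb.d (nat_lit 9) (nat_lit 514) (nat_lit 0) (@Lb.g g8 (@Lb.g g9 (@Lb.r r1122 (@Lb.r r1060 (@Lb.d (nat_lit 261) (nat_lit 64) (nat_lit 0) (@Lb.fm (nat_lit 3) t3197))))))))
noncomputable def l40722 : Lb := (@Lb.d (nat_lit 146) (nat_lit 26) (nat_lit 4) (@Lb.g g8 (@Lb.g g9 (@Lb.g g10 (@Lb.g g11 (@Lb.r r2666 (@Lb.r r1553 (@Lb.r r2408 (@Lb.r r2583 (@Lb.d (nat_lit 646) (nat_lit 98) (nat_lit 282) (@Lb.fp (nat_lit 9) t1116)))))))))))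
noncomputable def l40723 : Lb := (@Lb.r r275 (@Lb.d (nat_lit 9) (nat_lit 258) (nat_lit 2) (@Lb.g g8 (@Lb.g g9 (@Lb.g g10 (@Lb.r r2666 (@Lb.r r1603 (@Lb.r r2073 (@Lb.d (nat_lit 264) (nat_lit 33) (nat_lit 586) (@Lb.t (@Lb.fp (nat_lit 9) t2078)))))))))))
noncomputable def l40724 : Lb := (@Lb.d (nat_lit 22) (nat_lit 513) (nat_lit 1) (@Lb.r r20 (@Lb.r r105 (@Lb.r r323 (@Lb.g g10 (@Lb.g g5 (@Lb.g g4 (@Lb.d (nat_lit 4) (nat_lit 1) (nat_lit 2) (@Lb.r r387 (@Lb.t (@Lb.fp (nat_lit 9) t51)))))))))))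
noncomputable def l40725 : Lb := (@Lb.d (nat_lit 417) (nat_lit 389) (nat_lit 649) (@Lb.r r1057 (@Lb.r r1642 (@Lb.r r584 (@Lb.g g11 (@Lb.g g6 (@Lb.d (nat_lit 16) (nat_lit 16) (nat_lit 329) (@Lb.fp (nat_lit 3) t2211))))))))
noncomputable def l40726 : Lb := (@Lb.r r323 (@Lb.d (nat_lit 2) (nat_lit 512) (nat_lit 10) (@Lb.g g8 (@Lb.g g10 (@Lb.r r1579 (@Lb.r r676 (@Lb.r r2630 (@Lb.r r1057 (@Lb.d (nat_lit 406) (nat_lit 128) (nat_lit 394) (@Lb.fm (nat_lit 3) t632))))))))))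
noncomputable def l40727 : Lb := (@Lb.r r82 (@Lb.d (nat_lit 134) (nat_lit 512) (nat_lit 128) (@Lb.g g8 (@Lb.g g9 (@Lb.g g11 (@Lb.r r299 (@Lb.r r1606 (@Lb.r r2340 (@Lb.r r21 (@Lb.d (nat_lit 320) (nat_lit 161) (nat_lit 384) (@Lb.t (@Lb.fm (nat_lit 9) t5627))))))))))))
noncomputable def l40728 : Lb := (@Lb.r r21 (@Lb.d (nat_lit 130) (nat_lit 32) (nat_lit 322) (@Lb.g g8 (@Lb.g g10 (@Lb.g g7 (@Lb.r r386 (@Lb.r r1553 (@Lb.r r2372 (@Lb.d (nat_lit 596) (nat_lit 101) (nat_lit 9) (@Lb.t (@Lb.fm (nat_lit 9) t7045)))))))))))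
noncomputable def l40729 : Lb := (@Lb.d (nat_lit 598) (nat_lit 277) (nat_lit 166) (@Lb.r r1704 (@Lb.r r1194 (@Lb.r r2217 (@Lb.g g11 (@Lb.g g8 (@Lb.d (nat_lit 21) (nat_lit 0) (nat_lit 0) (@Lb.fp (nat_lit 3) t3574))))))))
noncomputable def l40730 : Lb := (@Lb.d (nat_lit 0) (nat_lit 9) (nat_lit 130) (@Lb.g g9 (@Lb.g g10 (@Lb.g g11 (@Lb.r r1666 (@Lb.r r1435 (@Lb.r r2657 (@Lb.r r36 (@Lb.d (nat_lit 550) (nat_lit 88) (nat_lit 25) (@Lb.t (@Lb.fm (nat_lit 9) t1923)))))))))))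
noncomputable def l40731 : Lb := (@Lb.d (nat_lit 401) (nat_lit 401) (nat_lit 322) (@Lb.r r2337 (@Lb.r r1619 (@Lb.g g6 (@Lb.g g5 (@Lb.d (nat_lit 0) (nat_lit 17) (nat_lit 33) (@Lb.r r387 (@Lb.r r36 (@Lb.fm (nat_lit 3) t5280)))))))))
noncomputable def l40732 : Lb := (@Lb.d (nat_lit 10) (nat_lit 256) (nat_lit 66) (@Lb.g g8 (@Lb.g g10 (@Lb.g g11 (@Lb.r r2658 (@Lb.r r1639 (@Lb.r r1557 (@Lb.r r1316 (@Lb.d (nat_lit 68) (nat_lit 40) (nat_lit 386) (@Lb.t (@Lb.fp (nat_lit 9) t2815)))))))))))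
noncomputable def l40733 : Lb := (@Lb.r r70 (@Lb.d (nat_lit 36) (nat_lit 5) (nat_lit 128) (@Lb.g g8 (@Lb.g g5 (@Lb.g g11 (@Lb.r r1611 (@Lb.r r2454 (@Lb.r r2632 (@Lb.d (nat_lit 149) (nat_lit 130) (nat_lit 137) (@Lb.t (@Lb.fm (nat_lit 9) t50)))))))))))
noncomputable def l40734 : Lb := (@Lb.d (nat_lit 6) (nat_lit 0) (nat_lit 0) (@Lb.g g4 (@Lb.r r1098 (@Lb.d (nat_lit 21) (nat_lit 65) (nat_lit 32) (@Lb.t (@Lb.fm (nat_lit 3) t3071))))))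
noncomputable def l40735 : Lb := (@Lb.d (nat_lit 10) (nat_lit 264) (nat_lit 128) (@Lb.g g8 (@Lb.g g10 (@Lb.g g11 (@Lb.r r1705 (@Lb.r r1703 (@Lb.r r2392 (@Lb.r r342 (@Lb.d (nat_lit 85) (nat_lit 33) (nat_lit 133) (@Lb.t (@Lb.fp (nat_lit 9) t327)))))))))))
noncomputable def l40736 : Lb := (@Lb.r r68 (@Lb.r r323 (@Lb.d (nat_lit 32) (nat_lit 4) (nat_lit 34) (@Lb.g g9 (@Lb.g g6 (@Lb.r r387 (@Lb.r r2196 (@Lb.r r25 (@Lb.d (nat_lit 512) (nat_lit 69) (nat_lit 1) (@Lb.fp (nat_lit 3) t7046))))))))))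
noncomputable def l40737 : Lb := (@Lb.r r24 (@Lb.r r2069 (@Lb.r r36 (@Lb.d (nat_lit 273) (nat_lit 0) (nat_lit 33) (@Lb.fm (nat_lit 1) t962)))))
noncomputable def l40738 : Lb := (@Lb.d (nat_lit 134) (nat_lit 514) (nat_lit 132) (@Lb.g g8 (@Lb.g g9 (@Lb.g g10 (@Lb.g g11 (@Lb.r r1675 (@Lb.r r357 (@Lb.r r1178 (@Lb.r r1156 (@Lb.d (nat_lit 344) (nat_lit 25) (nat_lit 646) (@Lb.fm (nat_lit 9) t68)))))))))))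
noncomputable def l40739 : Lb := (@Lb.d (nat_lit 582) (nat_lit 4) (nat_lit 353) (@Lb.r r2312 (@Lb.r r583 (@Lb.r r1362 (@Lb.g g6 (@Lb.g g5 (@Lb.g g4 (@Lb.d (nat_lit 66) (nat_lit 134) (nat_lit 1) (@Lb.r r387 (@Lb.t (@Lb.fp (nat_lit 9) t7047)))))))))))
noncomputable def l40740 : Lb := (@Lb.d (nat_lit 66) (nat_lit 514) (nat_lit 2) (@Lb.g g8 (@Lb.g g9 (@Lb.g g10 (@Lb.r r343 (@Lb.r r1685 (@Lb.r r2408 (@Lb.r r1638 (@Lb.d (nat_lit 408) (nat_lit 17) (nat_lit 8) (@Lb.t (@Lb.fp (nat_lit 9) t3497)))))))))))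
noncomputable def l40741 : Lb := (@Lb.d (nat_lit 658) (nat_lit 582) (nat_lit 294) (@Lb.r r24 (@Lb.r r2201 (@Lb.r r2666 (@Lb.g g11 (@Lb.g g6 (@Lb.g g5 (@Lb.g g4 (@Lb.d (nat_lit 1) (nat_lit 8) (nat_lit 128) (@Lb.fp (nat_lit 9) t125))))))))))
noncomputable def l40742 : Lb := (@Lb.r r82 (@Lb.d (nat_lit 73) (nat_lit 289) (nat_lit 64) (@Lb.g g8 (@Lb.g g9 (@Lb.g g11 (@Lb.r r1571 (@Lb.r r2442 (@Lb.r r1065 (@Lb.r r2468 (@Lb.d (nat_lit 40) (nat_lit 168) (nat_lit 612) (@Lb.t (@Lb.fp (nat_lit 9) t6063))))))))))))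
noncomputable def l40743 : Lb := (@Lb.d (nat_lit 512) (nat_lit 261) (nat_lit 1) (@Lb.r r21 (@Lb.r r70 (@Lb.g g8 (@Lb.d (nat_lit 258) (nat_lit 0) (nat_lit 0) (@Lb.r r74 (@Lb.r r25 (@Lb.t (@Lb.fp (nat_lit 3) t2959)))))))))
noncomputable def l40744 : Lb := (@Lb.r r326 (@Lb.d (nat_lit 416) (nat_lit 258) (nat_lit 128) (@Lb.g g8 (@Lb.g g9 (@Lb.g g11 (@Lb.r r1323 (@Lb.r r2626 (@Lb.r r25 (@Lb.d (nat_lit 9) (nat_lit 104) (nat_lit 276) (@Lb.t (@Lb.fm (nat_lit 9) t394)))))))))))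
noncomputable def l40745 : Lb := (@Lb.r r616 (@Lb.r r2665 (@Lb.r r2390 (@Lb.r r1188 (@Lb.d (nat_lit 1) (nat_lit 256) (nat_lit 512) (@Lb.fp (nat_lit 1) t322))))))
noncomputable def l40746 : Lb := (@Lb.d (nat_lit 144) (nat_lit 514) (nat_lit 4) (@Lb.g g8 (@Lb.g g9 (@Lb.g g10 (@Lb.g g11 (@Lb.r r2691 (@Lb.r r617 (@Lb.r r662 (@Lb.r r1108 (@Lb.d (nat_lit 273) (nat_lit 21) (nat_lit 345) (@Lb.fm (nat_lit 9) t1871)))))))))))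
noncomputable def l40747 : Lb := (@Lb.r r2118 (@Lb.r r24 (@Lb.d (nat_lit 278) (nat_lit 648) (nat_lit 16) (@Lb.fm (nat_lit 1) t3589))))
noncomputable def l40748 : Lb := (@Lb.d (nat_lit 682) (nat_lit 68) (nat_lit 357) (@Lb.r r1604 (@Lb.r r297 (@Lb.r r599 (@Lb.g g6 (@Lb.g g5 (@Lb.g g4 (@Lb.d (nat_lit 1) (nat_lit 8) (nat_lit 4) (@Lb.r r387 (@Lb.t (@Lb.fp (nat_lit 9) t4121)))))))))))
noncomputable def l40749 : Lb := (@Lb.r r82 (@Lb.d (nat_lit 2) (nat_lit 258) (nat_lit 0) (@Lb.g g8 (@Lb.g g9 (@Lb.r r1571 (@Lb.r r1192 (@Lb.r r1642 (@Lb.r r1633 (@Lb.d (nat_lit 612) (nat_lit 152) (nat_lit 420) (@Lb.fp (nat_lit 3) t865))))))))))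
noncomputable def l40750 : Lb := (@Lb.d (nat_lit 148) (nat_lit 512) (nat_lit 64) (@Lb.g g8 (@Lb.g g9 (@Lb.g g10 (@Lb.g g11 (@Lb.r r427 (@Lb.r r1177 (@Lb.r r1176 (@Lb.r r602 (@Lb.d (nat_lit 98) (nat_lit 81) (nat_lit 601) (@Lb.fm (nat_lit 9) t2185)))))))))))
noncomputable def l40751 : Lb := (@Lb.d (nat_lit 16) (nat_lit 516) (nat_lit 72) (@Lb.g g8 (@Lb.g g9 (@Lb.g g10 (@Lb.g g11 (@Lb.r r1683 (@Lb.r r1418 (@Lb.r r2581 (@Lb.r r2152 (@Lb.d (nat_lit 640) (nat_lit 82) (nat_lit 405) (@Lb.fm (nat_lit 9) t931)))))))))))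
noncomputable def l40752 : Lb := (@Lb.r r82 (@Lb.d (nat_lit 134) (nat_lit 514) (nat_lit 136) (@Lb.g g8 (@Lb.g g9 (@Lb.g g11 (@Lb.r r1362 (@Lb.r r1621 (@Lb.r r356 (@Lb.r r1419 (@Lb.d (nat_lit 40) (nat_lit 161) (nat_lit 72) (@Lb.t (@Lb.fm (nat_lit 9) t7048))))))))))))
noncomputable def l40753 : Lb := (@Lb.d (nat_lit 6) (nat_lit 512) (nat_lit 73) (@Lb.g g8 (@Lb.g g9 (@Lb.g g10 (@Lb.g g11 (@Lb.r r2666 (@Lb.r r579 (@Lb.r r104 (@Lb.r r25 (@Lb.d (nat_lit 401) (nat_lit 10) (nat_lit 358) (@Lb.fp (nat_lit 9) t61)))))))))))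
noncomputable def l40754 : Lb := (@Lb.d (nat_lit 148) (nat_lit 512) (nat_lit 258) (@Lb.g g8 (@Lb.g g9 (@Lb.g g10 (@Lb.g g7 (@Lb.r r2434 (@Lb.r r97 (@Lb.r r536 (@Lb.d (nat_lit 73) (nat_lit 73) (nat_lit 281) (@Lb.fp (nat_lit 9) t7049))))))))))
noncomputable def l40755 : Lb := (@Lb.r r82 (@Lb.d (nat_lit 33) (nat_lit 33) (nat_lit 64) (@Lb.g g8 (@Lb.g g9 (@Lb.g g11 (@Lb.r r2665 (@Lb.r r150 (@Lb.r r616 (@Lb.r r587 (@Lb.d (nat_lit 545) (nat_lit 34) (nat_lit 394) (@Lb.t (@Lb.fm (nat_lit 9) t50))))))))))))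
noncomputable def l40756 : Lb := (@Lb.r r82 (@Lb.d (nat_lit 136) (nat_lit 513) (nat_lit 64) (@Lb.g g8 (@Lb.g g9 (@Lb.g g11 (@Lb.r r299 (@Lb.r r2630 (@Lb.r r1049 (@Lb.r r1432 (@Lb.d (nat_lit 665) (nat_lit 168) (nat_lit 601) (@Lb.t (@Lb.fp (nat_lit 9) t2564))))))))))))
noncomputable def l40757 : Lb := (@Lb.r r82 (@Lb.d (nat_lit 134) (nat_lit 258) (nat_lit 128) (@Lb.g g8 (@Lb.g g9 (@Lb.g g11 (@Lb.r r2659 (@Lb.r r386 (@Lb.r r2472 (@Lb.r r1177 (@Lb.d (nat_lit 165) (nat_lit 4) (nat_lit 657) (@Lb.t (@Lb.fp (nat_lit 9) t5344))))))))))))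
noncomputable def l40758 : Lb := (@Lb.r r82 (@Lb.d (nat_lit 134) (nat_lit 2) (nat_lit 136) (@Lb.g g8 (@Lb.g g9 (@Lb.g g11 (@Lb.r r1362 (@Lb.r r1621 (@Lb.r r356 (@Lb.r r1419 (@Lb.d (nat_lit 34) (nat_lit 162) (nat_lit 72) (@Lb.t (@Lb.fm (nat_lit 9) t7050))))))))))))
noncomputable def l40759 : Lb := (@Lb.d (nat_lit 18) (nat_lit 292) (nat_lit 0) (@Lb.g g8 (@Lb.g g9 (@Lb.g g10 (@Lb.r r1706 (@Lb.r r1419 (@Lb.r r1444 (@Lb.r r2085 (@Lb.d (nat_lit 325) (nat_lit 69) (nat_lit 153) (@Lb.t (@Lb.fm (nat_lit 9) t5347)))))))))))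
noncomputable def l40760 : Lb := (@Lb.d (nat_lit 2) (nat_lit 256) (nat_lit 130) (@Lb.g g8 (@Lb.g g9 (@Lb.g g10 (@Lb.g g11 (@Lb.r r1602 (@Lb.r r548 (@Lb.r r615 (@Lb.r r533 (@Lb.r r1060 (@Lb.d (nat_lit 8) (nat_lit 72) (nat_lit 345) (@Lb.fm (nat_lit 9) t5328))))))))))))
noncomputable def l40761 : Lb := (@Lb.d (nat_lit 0) (nat_lit 4) (nat_lit 8) (@Lb.g g9 (@Lb.g g10 (@Lb.r r1607 (@Lb.r r2436 (@Lb.r r1446 (@Lb.r r145 (@Lb.d (nat_lit 330) (nat_lit 98) (nat_lit 18) (@Lb.fm (nat_lit 3) t745)))))))))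
noncomputable def l40762 : Lb := (@Lb.d (nat_lit 37) (nat_lit 426) (nat_lit 358) (@Lb.r r148 (@Lb.r r1113 (@Lb.r r2370 (@Lb.g g7 (@Lb.g g4 (@Lb.d (nat_lit 69) (nat_lit 0) (nat_lit 576) (@Lb.r r74 (@Lb.fm (nat_lit 3) t5162)))))))))
noncomputable def l40763 : Lb := (@Lb.d (nat_lit 550) (nat_lit 290) (nat_lit 66) (@Lb.g g8 (@Lb.g g9 (@Lb.g g10 (@Lb.g g11 (@Lb.r r1130 (@Lb.r r529 (@Lb.r r2451 (@Lb.r r529 (@Lb.d (nat_lit 640) (nat_lit 133) (nat_lit 584) (@Lb.fp (nat_lit 9) t7030)))))))))))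
noncomputable def l40764 : Lb := (@Lb.d (nat_lit 4) (nat_lit 32) (nat_lit 64) (@Lb.g g8 (@Lb.g g9 (@Lb.g g11 (@Lb.r r1098 (@Lb.r r1572 (@Lb.r r1447 (@Lb.r r2449 (@Lb.d (nat_lit 517) (nat_lit 88) (nat_lit 154) (@Lb.t (@Lb.fm (nat_lit 9) t2914)))))))))))
noncomputable def l40765 : Lb := (@Lb.d (nat_lit 342) (nat_lit 261) (nat_lit 340) (@Lb.r r1351 (@Lb.r r602 (@Lb.r r1624 (@Lb.g g7 (@Lb.g g9 (@Lb.g g4 (@Lb.d (nat_lit 66) (nat_lit 66) (nat_lit 132) (@Lb.r r98 (@Lb.t (@Lb.fp (nat_lit 9) t7051)))))))))))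
noncomputable def l40766 : Lb := (@Lb.r r81 (@Lb.d (nat_lit 16) (nat_lit 0) (nat_lit 146) (@Lb.g g10 (@Lb.g g11 (@Lb.r r1700 (@Lb.r r1447 (@Lb.r r37 (@Lb.d (nat_lit 5) (nat_lit 152) (nat_lit 65) (@Lb.fp (nat_lit 3) t4338)))))))))
noncomputable def l40767 : Lb := (@Lb.d (nat_lit 132) (nat_lit 641) (nat_lit 258) (@Lb.r r283 (@Lb.r r1617 (@Lb.r r1126 (@Lb.g g7 (@Lb.g g4 (@Lb.d (nat_lit 612) (nat_lit 16) (nat_lit 64) (@Lb.r r25 (@Lb.fm (nat_lit 3) t6339)))))))))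
noncomputable def l40768 : Lb := (@Lb.d (nat_lit 0) (nat_lit 34) (nat_lit 66) (@Lb.g g8 (@Lb.g g9 (@Lb.g g10 (@Lb.g g11 (@Lb.r r419 (@Lb.r r2468 (@Lb.r r2438 (@Lb.r r2145 (@Lb.d (nat_lit 105) (nat_lit 136) (nat_lit 265) (@Lb.fp (nat_lit 9) t7052)))))))))))
noncomputable def l40769 : Lb := (@Lb.d (nat_lit 144) (nat_lit 514) (nat_lit 64) (@Lb.g g8 (@Lb.g g9 (@Lb.g g10 (@Lb.g g11 (@Lb.r r2666 (@Lb.r r2643 (@Lb.r r2337 (@Lb.r r1048 (@Lb.d (nat_lit 512) (nat_lit 21) (nat_lit 81) (@Lb.fm (nat_lit 9) t7053)))))))))))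
noncomputable def l40770 : Lb := (@Lb.r r21 (@Lb.d (nat_lit 144) (nat_lit 0) (nat_lit 64) (@Lb.g g8 (@Lb.g g10 (@Lb.g g11 (@Lb.r r2730 (@Lb.r r2467 (@Lb.r r145 (@Lb.r r2084 (@Lb.d (nat_lit 361) (nat_lit 150) (nat_lit 352) (@Lb.t (@Lb.fp (nat_lit 9) t750))))))))))))
noncomputable def l40771 : Lb := (@Lb.d (nat_lit 5) (nat_lit 522) (nat_lit 72) (@Lb.g g8 (@Lb.g g9 (@Lb.g g10 (@Lb.g g11 (@Lb.r r1699 (@Lb.r r2216 (@Lb.r r1689 (@Lb.r r598 (@Lb.d (nat_lit 297) (nat_lit 22) (nat_lit 664) (@Lb.fp (nat_lit 9) t2317)))))))))))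
noncomputable def l40772 : Lb := (@Lb.r r82 (@Lb.d (nat_lit 132) (nat_lit 256) (nat_lit 64) (@Lb.g g8 (@Lb.g g9 (@Lb.g g11 (@Lb.r r299 (@Lb.r r610 (@Lb.r r529 (@Lb.r r292 (@Lb.d (nat_lit 260) (nat_lit 33) (nat_lit 576) (@Lb.t (@Lb.fm (nat_lit 9) t7054))))))))))))
noncomputable def l40773 : Lb := (@Lb.r r338 (@Lb.d (nat_lit 4) (nat_lit 264) (nat_lit 648) (@Lb.g g8 (@Lb.g g9 (@Lb.g g11 (@Lb.r r2438 (@Lb.r r2712 (@Lb.r r1445 (@Lb.d (nat_lit 168) (nat_lit 97) (nat_lit 105) (@Lb.t (@Lb.fp (nat_lit 9) t3687)))))))))))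
noncomputable def l40774 : Lb := (@Lb.r r323 (@Lb.d (nat_lit 2) (nat_lit 4) (nat_lit 22) (@Lb.g g8 (@Lb.g g10 (@Lb.r r1689 (@Lb.r r2459 (@Lb.r r24 (@Lb.d (nat_lit 104) (nat_lit 82) (nat_lit 594) (@Lb.fp (nat_lit 3) t521)))))))))
noncomputable def l40775 : Lb := (@Lb.r r323 (@Lb.d (nat_lit 2) (nat_lit 34) (nat_lit 2) (@Lb.g g8 (@Lb.g g9 (@Lb.g g10 (@Lb.r r599 (@Lb.r r74 (@Lb.r r296 (@Lb.r r409 (@Lb.d (nat_lit 152) (nat_lit 150) (nat_lit 258) (@Lb.t (@Lb.fm (nat_lit 9) t51))))))))))))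
noncomputable def l40776 : Lb := (@Lb.g g10 (@Lb.g g7 (@Lb.r r2579 (@Lb.r r2341 (@Lb.r r2136 (@Lb.r r1158 (@Lb.fp (nat_lit 3) t296)))))))
noncomputable def l40777 : Lb := (@Lb.r r323 (@Lb.d (nat_lit 128) (nat_lit 516) (nat_lit 8) (@Lb.g g8 (@Lb.g g9 (@Lb.g g10 (@Lb.r r583 (@Lb.r r2452 (@Lb.r r1129 (@Lb.d (nat_lit 294) (nat_lit 170) (nat_lit 128) (@Lb.t (@Lb.fm (nat_lit 9) t4547)))))))))))
noncomputable def l40778 : Lb := (@Lb.d (nat_lit 0) (nat_lit 514) (nat_lit 2) (@Lb.g g8 (@Lb.g g9 (@Lb.g g10 (@Lb.r r2435 (@Lb.r r386 (@Lb.r r25 (@Lb.r r24 (@Lb.d (nat_lit 610) (nat_lit 0) (nat_lit 132) (@Lb.t (@Lb.fm (nat_lit 9) t698)))))))))))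
noncomputable def l40779 : Lb := (@Lb.r r21 (@Lb.r r331 (@Lb.d (nat_lit 418) (nat_lit 0) (nat_lit 1) (@Lb.g g4 (@Lb.g g10 (@Lb.r r1347 (@Lb.r r2182 (@Lb.r r25 (@Lb.d (nat_lit 337) (nat_lit 129) (nat_lit 33) (@Lb.fm (nat_lit 3) t2691))))))))))
noncomputable def l40780 : Lb := (@Lb.r r331 (@Lb.d (nat_lit 37) (nat_lit 512) (nat_lit 2) (@Lb.g g8 (@Lb.g g9 (@Lb.g g10 (@Lb.r r1689 (@Lb.r r1563 (@Lb.r r1684 (@Lb.d (nat_lit 408) (nat_lit 102) (nat_lit 662) (@Lb.t (@Lb.fp (nat_lit 9) t238)))))))))))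
noncomputable def l40781 : Lb := (@Lb.r r338 (@Lb.d (nat_lit 4) (nat_lit 514) (nat_lit 512) (@Lb.g g8 (@Lb.g g9 (@Lb.g g7 (@Lb.r r86 (@Lb.r r553 (@Lb.r r36 (@Lb.d (nat_lit 66) (nat_lit 144) (nat_lit 384) (@Lb.t (@Lb.fm (nat_lit 9) t2691)))))))))))
noncomputable def l40782 : Lb := (@Lb.d (nat_lit 144) (nat_lit 514) (nat_lit 64) (@Lb.g g8 (@Lb.g g9 (@Lb.g g10 (@Lb.g g11 (@Lb.r r1177 (@Lb.r r596 (@Lb.r r2439 (@Lb.r r1430 (@Lb.r r1540 (@Lb.d (nat_lit 358) (nat_lit 69) (nat_lit 417) (@Lb.fm (nat_lit 9) t524))))))))))))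
noncomputable def l40783 : Lb := (@Lb.r r323 (@Lb.d (nat_lit 8) (nat_lit 512) (nat_lit 21) (@Lb.g g8 (@Lb.g g10 (@Lb.r r2405 (@Lb.r r667 (@Lb.r r1304 (@Lb.d (nat_lit 553) (nat_lit 162) (nat_lit 153) (@Lb.fp (nat_lit 3) t4181)))))))))
noncomputable def l40784 : Lb := (@Lb.r r21 (@Lb.d (nat_lit 33) (nat_lit 0) (nat_lit 72) (@Lb.g g8 (@Lb.g g10 (@Lb.g g11 (@Lb.r r651 (@Lb.r r138 (@Lb.r r2453 (@Lb.r r1608 (@Lb.d (nat_lit 32) (nat_lit 129) (nat_lit 405) (@Lb.t (@Lb.fp (nat_lit 9) t1435))))))))))))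
noncomputable def l40785 : Lb := (@Lb.r r273 (@Lb.r r322 (@Lb.d (nat_lit 518) (nat_lit 256) (nat_lit 384) (@Lb.g g4 (@Lb.g g11 (@Lb.r r402 (@Lb.r r613 (@Lb.d (nat_lit 328) (nat_lit 34) (nat_lit 36) (@Lb.fp (nat_lit 3) t5194)))))))))
noncomputable def l40786 : Lb := (@Lb.r r82 (@Lb.r r275 (@Lb.d (nat_lit 0) (nat_lit 2) (nat_lit 0) (@Lb.g g8 (@Lb.g g9 (@Lb.r r2315 (@Lb.r r2122 (@Lb.r r36 (@Lb.r r1061 (@Lb.d (nat_lit 517) (nat_lit 0) (nat_lit 0) (@Lb.fp (nat_lit 3) t4616)))))))))))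
noncomputable def l40787 : Lb := (@Lb.d (nat_lit 646) (nat_lit 342) (nat_lit 18) (@Lb.r r1301 (@Lb.r r1366 (@Lb.r r683 (@Lb.g g6 (@Lb.g g5 (@Lb.g g4 (@Lb.d (nat_lit 9) (nat_lit 5) (nat_lit 2) (@Lb.t (@Lb.fm (nat_lit 9) t5963))))))))))
noncomputable def l40788 : Lb := (@Lb.d (nat_lit 0) (nat_lit 256) (nat_lit 2) (@Lb.g g8 (@Lb.g g10 (@Lb.g g7 (@Lb.r r386 (@Lb.r r101 (@Lb.r r24 (@Lb.d (nat_lit 352) (nat_lit 0) (nat_lit 585) (@Lb.t (@Lb.fm (nat_lit 9) t1150))))))))))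
noncomputable def l40789 : Lb := (@Lb.d (nat_lit 0) (nat_lit 522) (nat_lit 64) (@Lb.g g9 (@Lb.g g11 (@Lb.r r2450 (@Lb.r r2659 (@Lb.r r1633 (@Lb.r r36 (@Lb.d (nat_lit 5) (nat_lit 80) (nat_lit 512) (@Lb.fp (nat_lit 3) t578)))))))))
noncomputable def l40790 : Lb := (@Lb.r r21 (@Lb.d (nat_lit 32) (nat_lit 512) (nat_lit 1) (@Lb.g g8 (@Lb.g g10 (@Lb.r r1178 (@Lb.r r97 (@Lb.r r276 (@Lb.d (nat_lit 265) (nat_lit 98) (nat_lit 0) (@Lb.fm (nat_lit 3) t984)))))))))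
noncomputable def l40791 : Lb := (@Lb.d (nat_lit 1) (nat_lit 2) (nat_lit 130) (@Lb.g g8 (@Lb.g g9 (@Lb.g g10 (@Lb.g g11 (@Lb.r r1426 (@Lb.r r1371 (@Lb.r r2457 (@Lb.r r2436 (@Lb.d (nat_lit 657) (nat_lit 9) (nat_lit 393) (@Lb.fm (nat_lit 9) t2103)))))))))))
noncomputable def l40792 : Lb := (@Lb.d (nat_lit 37) (nat_lit 16) (nat_lit 73) (@Lb.g g8 (@Lb.g g9 (@Lb.g g10 (@Lb.g g11 (@Lb.r r619 (@Lb.r r1610 (@Lb.r r417 (@Lb.r r612 (@Lb.d (nat_lit 594) (nat_lit 90) (nat_lit 516) (@Lb.fp (nat_lit 9) t6308)))))))))))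
noncomputable def l40793 : Lb := (@Lb.d (nat_lit 1) (nat_lit 258) (nat_lit 130) (@Lb.g g8 (@Lb.g g9 (@Lb.g g10 (@Lb.g g11 (@Lb.r r1426 (@Lb.r r1371 (@Lb.r r2457 (@Lb.r r2436 (@Lb.d (nat_lit 664) (nat_lit 8) (nat_lit 393) (@Lb.fm (nat_lit 9) t2103)))))))))))
noncomputable def l40794 : Lb := (@Lb.d (nat_lit 4) (nat_lit 256) (nat_lit 130) (@Lb.g g8 (@Lb.g g9 (@Lb.g g10 (@Lb.g g11 (@Lb.r r427 (@Lb.r r324 (@Lb.r r2218 (@Lb.r r1193 (@Lb.r r1188 (@Lb.d (nat_lit 609) (nat_lit 73) (nat_lit 681) (@Lb.fp (nat_lit 9) t386))))))))))))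
noncomputable def l40795 : Lb := (@Lb.d (nat_lit 1) (nat_lit 258) (nat_lit 66) (@Lb.g g8 (@Lb.g g9 (@Lb.g g10 (@Lb.g g11 (@Lb.r r2327 (@Lb.r r616 (@Lb.r r86 (@Lb.r r2213 (@Lb.r r2068 (@Lb.d (nat_lit 552) (nat_lit 1) (nat_lit 169) (@Lb.fp (nat_lit 9) t284))))))))))))
noncomputable def l40796 : Lb := (@Lb.d (nat_lit 37) (nat_lit 133) (nat_lit 33) (@Lb.r r100 (@Lb.r r609 (@Lb.r r402 (@Lb.r r555 (@Lb.g g8 (@Lb.d (nat_lit 65) (nat_lit 0) (nat_lit 0) (@Lb.t (@Lb.fm (nat_lit 3) t40)))))))))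
noncomputable def l40797 : Lb := (@Lb.d (nat_lit 130) (nat_lit 9) (nat_lit 129) (@Lb.g g8 (@Lb.g g9 (@Lb.g g10 (@Lb.g g11 (@Lb.r r2327 (@Lb.r r1194 (@Lb.r r2657 (@Lb.r r152 (@Lb.d (nat_lit 424) (nat_lit 85) (nat_lit 612) (@Lb.fm (nat_lit 9) t7055)))))))))))
noncomputable def l40798 : Lb := (@Lb.r r82 (@Lb.d (nat_lit 0) (nat_lit 358) (nat_lit 64) (@Lb.g g4 (@Lb.g g9 (@Lb.g g11 (@Lb.r r2467 (@Lb.r r98 (@Lb.d (nat_lit 1) (nat_lit 144) (nat_lit 149) (@Lb.t (@Lb.fp (nat_lit 9) t1812))))))))))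
noncomputable def l40799 : Lb := (@Lb.r r82 (@Lb.d (nat_lit 2) (nat_lit 258) (nat_lit 0) (@Lb.g g8 (@Lb.g g9 (@Lb.r r1561 (@Lb.r r2579 (@Lb.r r578 (@Lb.d (nat_lit 385) (nat_lit 10) (nat_lit 516) (@Lb.fp (nat_lit 3) t7056)))))))))
noncomputable def l40800 : Lb := (@Lb.d (nat_lit 4) (nat_lit 5) (nat_lit 0) (@Lb.g g8 (@Lb.g g9 (@Lb.g g10 (@Lb.r r676 (@Lb.r r1415 (@Lb.r r2438 (@Lb.r r2657 (@Lb.d (nat_lit 82) (nat_lit 90) (nat_lit 166) (@Lb.t (@Lb.fm (nat_lit 9) t1173)))))))))))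
noncomputable def l40801 : Lb := (@Lb.d (nat_lit 553) (nat_lit 518) (nat_lit 81) (@Lb.r r613 (@Lb.r r402 (@Lb.g g7 (@Lb.g g5 (@Lb.g g8 (@Lb.d (nat_lit 329) (nat_lit 34) (nat_lit 576) (@Lb.r r578 (@Lb.t (@Lb.fm (nat_lit 9) t32))))))))))
noncomputable def l40802 : Lb := (@Lb.r r323 (@Lb.d (nat_lit 8) (nat_lit 512) (nat_lit 1) (@Lb.g g9 (@Lb.g g6 (@Lb.r r387 (@Lb.r r148 (@Lb.r r169 (@Lb.d (nat_lit 34) (nat_lit 150) (nat_lit 266) (@Lb.fm (nat_lit 3) t2781)))))))))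
noncomputable def l40803 : Lb := (@Lb.d (nat_lit 16) (nat_lit 258) (nat_lit 0) (@Lb.g g8 (@Lb.g g9 (@Lb.g g10 (@Lb.r r683 (@Lb.r r2666 (@Lb.r r36 (@Lb.r r37 (@Lb.d (nat_lit 357) (nat_lit 0) (nat_lit 537) (@Lb.t (@Lb.fm (nat_lit 9) t979)))))))))))
noncomputable def l40804 : Lb := (@Lb.d (nat_lit 352) (nat_lit 578) (nat_lit 600) (@Lb.r r1621 (@Lb.r r40 (@Lb.r r418 (@Lb.g g11 (@Lb.g g6 (@Lb.g g5 (@Lb.g g4 (@Lb.d (nat_lit 37) (nat_lit 4) (nat_lit 1) (@Lb.fm (nat_lit 9) t5858))))))))))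
noncomputable def l40805 : Lb := (@Lb.d (nat_lit 134) (nat_lit 261) (nat_lit 128) (@Lb.g g8 (@Lb.g g9 (@Lb.g g10 (@Lb.g g11 (@Lb.r r2403 (@Lb.r r386 (@Lb.r r549 (@Lb.r r1176 (@Lb.d (nat_lit 326) (nat_lit 10) (nat_lit 646) (@Lb.fm (nat_lit 9) t4064)))))))))))
noncomputable def l40806 : Lb := (@Lb.r r81 (@Lb.d (nat_lit 2) (nat_lit 296) (nat_lit 386) (@Lb.g g8 (@Lb.g g10 (@Lb.g g7 (@Lb.r r533 (@Lb.r r1384 (@Lb.r r2630 (@Lb.d (nat_lit 425) (nat_lit 4) (nat_lit 322) (@Lb.t (@Lb.fm (nat_lit 9) t3302)))))))))))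
noncomputable def l40807 : Lb := (@Lb.d (nat_lit 0) (nat_lit 260) (nat_lit 128) (@Lb.g g8 (@Lb.g g9 (@Lb.g g10 (@Lb.g g11 (@Lb.r r427 (@Lb.r r424 (@Lb.r r106 (@Lb.r r25 (@Lb.d (nat_lit 360) (nat_lit 9) (nat_lit 648) (@Lb.fm (nat_lit 9) t3501)))))))))))
noncomputable def l40808 : Lb := (@Lb.r r21 (@Lb.r r70 (@Lb.r r263 (@Lb.g g8 (@Lb.r r267 (@Lb.r r74 (@Lb.r r97 (@Lb.d (nat_lit 258) (nat_lit 390) (nat_lit 16) (@Lb.t (@Lb.fm (nat_lit 3) t1448))))))))))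
noncomputable def l40809 : Lb := (@Lb.r r82 (@Lb.d (nat_lit 0) (nat_lit 2) (nat_lit 128) (@Lb.g g9 (@Lb.g g11 (@Lb.r r1571 (@Lb.r r2392 (@Lb.r r1190 (@Lb.r r1169 (@Lb.d (nat_lit 612) (nat_lit 72) (nat_lit 409) (@Lb.fp (nat_lit 3) t7057))))))))))
noncomputable def l40810 : Lb := (@Lb.d (nat_lit 9) (nat_lit 6) (nat_lit 74) (@Lb.g g8 (@Lb.g g9 (@Lb.g g10 (@Lb.g g11 (@Lb.r r2691 (@Lb.r r2474 (@Lb.r r1313 (@Lb.r r24 (@Lb.d (nat_lit 136) (nat_lit 161) (nat_lit 424) (@Lb.fp (nat_lit 9) t378)))))))))))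
noncomputable def l40811 : Lb := (@Lb.r r322 (@Lb.d (nat_lit 2) (nat_lit 514) (nat_lit 576) (@Lb.g g8 (@Lb.g g9 (@Lb.g g7 (@Lb.r r297 (@Lb.r r1124 (@Lb.r r2122 (@Lb.d (nat_lit 610) (nat_lit 0) (nat_lit 260) (@Lb.t (@Lb.fm (nat_lit 9) t1719)))))))))))
noncomputable def l40812 : Lb := (@Lb.d (nat_lit 609) (nat_lit 5) (nat_lit 681) (@Lb.r r2374 (@Lb.r r1684 (@Lb.r r297 (@Lb.r r2691 (@Lb.g g7 (@Lb.g g6 (@Lb.g g5 (@Lb.d (nat_lit 0) (nat_lit 1) (nat_lit 65) (@Lb.t (@Lb.fp (nat_lit 9) t2139)))))))))))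
noncomputable def l40813 : Lb := (@Lb.d (nat_lit 153) (nat_lit 516) (nat_lit 128) (@Lb.g g8 (@Lb.g g9 (@Lb.g g10 (@Lb.g g11 (@Lb.r r419 (@Lb.r r1188 (@Lb.r r422 (@Lb.r r1317 (@Lb.d (nat_lit 98) (nat_lit 106) (nat_lit 88) (@Lb.fp (nat_lit 9) t3906)))))))))))
noncomputable def l40814 : Lb := (@Lb.d (nat_lit 2) (nat_lit 0) (nat_lit 73) (@Lb.g g8 (@Lb.g g10 (@Lb.g g11 (@Lb.r r642 (@Lb.r r387 (@Lb.d (nat_lit 0) (nat_lit 5) (nat_lit 90) (@Lb.t (@Lb.fp (nat_lit 9) t45)))))))))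
noncomputable def l40815 : Lb := (@Lb.d (nat_lit 9) (nat_lit 288) (nat_lit 128) (@Lb.g g8 (@Lb.g g11 (@Lb.r r1109 (@Lb.r r2472 (@Lb.r r2567 (@Lb.r r2178 (@Lb.d (nat_lit 144) (nat_lit 85) (nat_lit 585) (@Lb.fp (nat_lit 3) t124)))))))))
noncomputable def l40816 : Lb := (@Lb.d (nat_lit 2) (nat_lit 514) (nat_lit 73) (@Lb.g g8 (@Lb.g g9 (@Lb.g g10 (@Lb.g g11 (@Lb.r r162 (@Lb.r r552 (@Lb.r r665 (@Lb.r r539 (@Lb.r r516 (@Lb.d (nat_lit 325) (nat_lit 72) (nat_lit 585) (@Lb.fm (nat_lit 9) t259))))))))))))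
noncomputable def l40817 : Lb := (@Lb.r r21 (@Lb.d (nat_lit 33) (nat_lit 512) (nat_lit 73) (@Lb.g g8 (@Lb.g g10 (@Lb.g g11 (@Lb.r r2666 (@Lb.r r579 (@Lb.r r97 (@Lb.d (nat_lit 426) (nat_lit 152) (nat_lit 544) (@Lb.t (@Lb.fm (nat_lit 9) t255)))))))))))
noncomputable def l40818 : Lb := (@Lb.d (nat_lit 400) (nat_lit 513) (nat_lit 72) (@Lb.r r24 (@Lb.r r386 (@Lb.r r1347 (@Lb.g g6 (@Lb.g g5 (@Lb.d (nat_lit 4) (nat_lit 1) (nat_lit 1) (@Lb.fm (nat_lit 3) t1221))))))))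
noncomputable def l40819 : Lb := (@Lb.r r323 (@Lb.d (nat_lit 9) (nat_lit 546) (nat_lit 2) (@Lb.g g8 (@Lb.g g9 (@Lb.g g10 (@Lb.r r1367 (@Lb.r r2634 (@Lb.r r2600 (@Lb.r r153 (@Lb.d (nat_lit 22) (nat_lit 150) (nat_lit 297) (@Lb.t (@Lb.fp (nat_lit 9) t591))))))))))))
noncomputable def l40820 : Lb := (@Lb.d (nat_lit 0) (nat_lit 2) (nat_lit 130) (@Lb.g g9 (@Lb.g g10 (@Lb.g g11 (@Lb.r r642 (@Lb.r r1419 (@Lb.r r104 (@Lb.r r25 (@Lb.d (nat_lit 22) (nat_lit 105) (nat_lit 678) (@Lb.t (@Lb.fm (nat_lit 9) t3908)))))))))))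
noncomputable def l40821 : Lb := (@Lb.d (nat_lit 400) (nat_lit 257) (nat_lit 72) (@Lb.r r24 (@Lb.r r386 (@Lb.r r1347 (@Lb.g g7 (@Lb.g g6 (@Lb.g g5 (@Lb.d (nat_lit 4) (nat_lit 1) (nat_lit 70) (@Lb.t (@Lb.fp (nat_lit 9) t1427))))))))))
noncomputable def l40822 : Lb := (@Lb.d (nat_lit 0) (nat_lit 512) (nat_lit 129) (@Lb.g g10 (@Lb.g g11 (@Lb.r r2690 (@Lb.r r1419 (@Lb.r r24 (@Lb.r r101 (@Lb.d (nat_lit 5) (nat_lit 161) (nat_lit 150) (@Lb.fp (nat_lit 3) t4083)))))))))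
noncomputable def l40823 : Lb := (@Lb.r r323 (@Lb.g g6 (@Lb.r r1411 (@Lb.r r70 (@Lb.r r24 (@Lb.d (nat_lit 586) (nat_lit 290) (nat_lit 256) (@Lb.t (@Lb.fp (nat_lit 3) t3590))))))))
noncomputable def l40824 : Lb := (@Lb.d (nat_lit 641) (nat_lit 2) (nat_lit 130) (@Lb.g g8 (@Lb.g g9 (@Lb.g g10 (@Lb.g g11 (@Lb.r r419 (@Lb.r r106 (@Lb.r r25 (@Lb.d (nat_lit 354) (nat_lit 73) (nat_lit 137) (@Lb.fp (nat_lit 9) t898))))))))))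
noncomputable def l40825 : Lb := (@Lb.r r21 (@Lb.d (nat_lit 128) (nat_lit 0) (nat_lit 130) (@Lb.g g8 (@Lb.g g10 (@Lb.g g11 (@Lb.r r419 (@Lb.r r2409 (@Lb.r r90 (@Lb.r r68 (@Lb.d (nat_lit 9) (nat_lit 137) (nat_lit 82) (@Lb.t (@Lb.fp (nat_lit 9) t5756))))))))))))
noncomputable def l40826 : Lb := (@Lb.d (nat_lit 129) (nat_lit 640) (nat_lit 384) (@Lb.r r20 (@Lb.r r2145 (@Lb.r r402 (@Lb.g g11 (@Lb.d (nat_lit 64) (nat_lit 0) (nat_lit 648) (@Lb.t (@Lb.fp (nat_lit 3) t750))))))))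
noncomputable def l40827 : Lb := (@Lb.d (nat_lit 66) (nat_lit 289) (nat_lit 128) (@Lb.r r289 (@Lb.r r279 (@Lb.r r584 (@Lb.r r342 (@Lb.g g7 (@Lb.g g6 (@Lb.g g5 (@Lb.d (nat_lit 0) (nat_lit 0) (nat_lit 66) (@Lb.t (@Lb.fp (nat_lit 9) t215)))))))))))
noncomputable def l40828 : Lb := (@Lb.r r2403 (@Lb.r r101 (@Lb.r r24 (@Lb.d (nat_lit 320) (nat_lit 0) (nat_lit 528) (@Lb.fp (nat_lit 1) t1172)))))
noncomputable def l40829 : Lb := (@Lb.r r323 (@Lb.g g6 (@Lb.r r423 (@Lb.r r72 (@Lb.r r598 (@Lb.r r289 (@Lb.d (nat_lit 353) (nat_lit 130) (nat_lit 613) (@Lb.t (@Lb.fm (nat_lit 3) t7058)))))))))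
noncomputable def l40830 : Lb := (@Lb.d (nat_lit 0) (nat_lit 618) (nat_lit 550) (@Lb.r r1697 (@Lb.r r2371 (@Lb.g g10 (@Lb.g g5 (@Lb.r r291 (@Lb.fm (nat_lit 3) t333)))))))
noncomputable def l40831 : Lb := (@Lb.d (nat_lit 36) (nat_lit 677) (nat_lit 549) (@Lb.r r89 (@Lb.r r2150 (@Lb.r r2343 (@Lb.g g9 (@Lb.t (@Lb.fp (nat_lit 3) t6467)))))))
noncomputable def l40832 : Lb := (@Lb.d (nat_lit 2) (nat_lit 257) (nat_lit 272) (@Lb.r r97 (@Lb.r r402 (@Lb.r r2311 (@Lb.g g8 (@Lb.d (nat_lit 614) (nat_lit 0) (nat_lit 0) (@Lb.r r74 (@Lb.r r25 (@Lb.t (@Lb.fp (nat_lit 3) t5248))))))))))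
noncomputable def l40833 : Lb := (@Lb.r r21 (@Lb.r r323 (@Lb.d (nat_lit 417) (nat_lit 260) (nat_lit 2) (@Lb.g g8 (@Lb.g g10 (@Lb.r r1433 (@Lb.r r1707 (@Lb.r r1674 (@Lb.d (nat_lit 641) (nat_lit 138) (nat_lit 421) (@Lb.fm (nat_lit 3) t4519))))))))))
noncomputable def l40834 : Lb := (@Lb.d (nat_lit 2) (nat_lit 65) (nat_lit 256) (@Lb.r r97 (@Lb.r r402 (@Lb.r r2311 (@Lb.g g8 (@Lb.d (nat_lit 354) (nat_lit 0) (nat_lit 0) (@Lb.r r74 (@Lb.r r25 (@Lb.t (@Lb.fp (nat_lit 3) t7059))))))))))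
noncomputable def l40835 : Lb := (@Lb.d (nat_lit 137) (nat_lit 32) (nat_lit 64) (@Lb.g g8 (@Lb.g g11 (@Lb.r r165 (@Lb.r r2452 (@Lb.r r651 (@Lb.r r2178 (@Lb.d (nat_lit 338) (nat_lit 138) (nat_lit 600) (@Lb.fp (nat_lit 3) t7060)))))))))
noncomputable def l40836 : Lb := (@Lb.d (nat_lit 10) (nat_lit 18) (nat_lit 682) (@Lb.r r20 (@Lb.r r1633 (@Lb.r r2403 (@Lb.g g10 (@Lb.d (nat_lit 0) (nat_lit 8) (nat_lit 38) (@Lb.t (@Lb.fm (nat_lit 3) t242))))))))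
noncomputable def l40837 : Lb := (@Lb.d (nat_lit 389) (nat_lit 681) (nat_lit 278) (@Lb.r r1705 (@Lb.r r683 (@Lb.r r2666 (@Lb.r r1380 (@Lb.g g7 (@Lb.g g5 (@Lb.d (nat_lit 72) (nat_lit 6) (nat_lit 128) (@Lb.fm (nat_lit 3) t979)))))))))
noncomputable def l40838 : Lb := (@Lb.d (nat_lit 10) (nat_lit 274) (nat_lit 618) (@Lb.r r20 (@Lb.r r1633 (@Lb.r r2403 (@Lb.g g10 (@Lb.d (nat_lit 0) (nat_lit 8) (nat_lit 38) (@Lb.t (@Lb.fm (nat_lit 3) t242))))))))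
noncomputable def l40839 : Lb := (@Lb.r r323 (@Lb.d (nat_lit 2) (nat_lit 516) (nat_lit 22) (@Lb.g g8 (@Lb.g g10 (@Lb.r r1689 (@Lb.r r2459 (@Lb.r r24 (@Lb.d (nat_lit 97) (nat_lit 80) (nat_lit 594) (@Lb.fp (nat_lit 3) t521)))))))))
noncomputable def l40840 : Lb := (@Lb.d (nat_lit 26) (nat_lit 257) (nat_lit 128) (@Lb.g g8 (@Lb.g g9 (@Lb.g g10 (@Lb.g g11 (@Lb.r r1643 (@Lb.r r1610 (@Lb.r r660 (@Lb.r r2473 (@Lb.r r1060 (@Lb.d (nat_lit 170) (nat_lit 9) (nat_lit 68) (@Lb.fp (nat_lit 9) t830))))))))))))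
noncomputable def l40841 : Lb := (@Lb.r r331 (@Lb.d (nat_lit 394) (nat_lit 6) (nat_lit 0) (@Lb.g g4 (@Lb.g g9 (@Lb.g g10 (@Lb.r r2651 (@Lb.r r98 (@Lb.r r97 (@Lb.d (nat_lit 1) (nat_lit 138) (nat_lit 545) (@Lb.t (@Lb.fp (nat_lit 9) t7061)))))))))))
noncomputable def l40842 : Lb := (@Lb.r r82 (@Lb.d (nat_lit 134) (nat_lit 512) (nat_lit 64) (@Lb.g g8 (@Lb.g g9 (@Lb.g g11 (@Lb.r r299 (@Lb.r r2630 (@Lb.r r1049 (@Lb.r r1432 (@Lb.d (nat_lit 666) (nat_lit 168) (nat_lit 601) (@Lb.t (@Lb.fp (nat_lit 9) t4197))))))))))))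
noncomputable def l40843 : Lb := (@Lb.d (nat_lit 1) (nat_lit 2) (nat_lit 73) (@Lb.g g8 (@Lb.g g9 (@Lb.g g10 (@Lb.g g11 (@Lb.r r2666 (@Lb.r r579 (@Lb.r r97 (@Lb.r r24 (@Lb.d (nat_lit 152) (nat_lit 2) (nat_lit 324) (@Lb.fm (nat_lit 9) t61)))))))))))
noncomputable def l40844 : Lb := (@Lb.d (nat_lit 400) (nat_lit 512) (nat_lit 393) (@Lb.g g4 (@Lb.g g10 (@Lb.g g7 (@Lb.r r2434 (@Lb.d (nat_lit 0) (nat_lit 0) (nat_lit 537) (@Lb.t (@Lb.fp (nat_lit 9) t3367))))))))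
noncomputable def l40845 : Lb := (@Lb.d (nat_lit 9) (nat_lit 0) (nat_lit 0) (@Lb.g g8 (@Lb.r r405 (@Lb.r r2454 (@Lb.r r2411 (@Lb.r r1124 (@Lb.d (nat_lit 16) (nat_lit 10) (nat_lit 530) (@Lb.t (@Lb.fm (nat_lit 3) t2570)))))))))
noncomputable def l40846 : Lb := (@Lb.r r82 (@Lb.d (nat_lit 9) (nat_lit 9) (nat_lit 128) (@Lb.g g8 (@Lb.g g9 (@Lb.g g11 (@Lb.r r1635 (@Lb.r r1418 (@Lb.r r2212 (@Lb.r r1685 (@Lb.d (nat_lit 409) (nat_lit 2) (nat_lit 344) (@Lb.t (@Lb.fm (nat_lit 9) t4259))))))))))))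
noncomputable def l40847 : Lb := (@Lb.d (nat_lit 289) (nat_lit 0) (nat_lit 0) (@Lb.g g4 (@Lb.r r273 (@Lb.r r2595 (@Lb.r r2178 (@Lb.r r529 (@Lb.d (nat_lit 288) (nat_lit 10) (nat_lit 17) (@Lb.t (@Lb.fm (nat_lit 3) t2551)))))))))
noncomputable def l40848 : Lb := (@Lb.d (nat_lit 162) (nat_lit 264) (nat_lit 38) (@Lb.r r644 (@Lb.r r82 (@Lb.r r599 (@Lb.g g6 (@Lb.g g5 (@Lb.g g4 (@Lb.d (nat_lit 64) (nat_lit 1) (nat_lit 1) (@Lb.r r291 (@Lb.t (@Lb.fm (nat_lit 9) t546)))))))))))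
noncomputable def l40849 : Lb := (@Lb.d (nat_lit 646) (nat_lit 88) (nat_lit 80) (@Lb.r r1301 (@Lb.r r1366 (@Lb.r r683 (@Lb.g g6 (@Lb.g g5 (@Lb.g g4 (@Lb.d (nat_lit 8) (nat_lit 5) (nat_lit 2) (@Lb.t (@Lb.fm (nat_lit 9) t3136))))))))))
noncomputable def l40850 : Lb := (@Lb.d (nat_lit 165) (nat_lit 85) (nat_lit 577) (@Lb.r r2584 (@Lb.r r2178 (@Lb.r r2587 (@Lb.g g7 (@Lb.g g9 (@Lb.g g4 (@Lb.d (nat_lit 6) (nat_lit 68) (nat_lit 64) (@Lb.t (@Lb.fp (nat_lit 9) t1743))))))))))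
noncomputable def l40851 : Lb := (@Lb.r r273 (@Lb.d (nat_lit 0) (nat_lit 288) (nat_lit 646) (@Lb.g g10 (@Lb.g g7 (@Lb.r r1434 (@Lb.r r613 (@Lb.r r24 (@Lb.d (nat_lit 522) (nat_lit 70) (nat_lit 133) (@Lb.fm (nat_lit 3) t4265)))))))))
noncomputable def l40852 : Lb := (@Lb.d (nat_lit 2) (nat_lit 2) (nat_lit 2) (@Lb.g g8 (@Lb.g g9 (@Lb.g g10 (@Lb.g g11 (@Lb.r r2722 (@Lb.r r2467 (@Lb.r r292 (@Lb.r r405 (@Lb.r r2084 (@Lb.d (nat_lit 657) (nat_lit 10) (nat_lit 292) (@Lb.fm (nat_lit 9) t1756))))))))))))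
noncomputable def l40853 : Lb := (@Lb.r r273 (@Lb.d (nat_lit 0) (nat_lit 32) (nat_lit 644) (@Lb.g g10 (@Lb.g g7 (@Lb.r r2641 (@Lb.r r98 (@Lb.d (nat_lit 5) (nat_lit 138) (nat_lit 148) (@Lb.fp (nat_lit 3) t1834))))))))
noncomputable def l40854 : Lb := (@Lb.d (nat_lit 165) (nat_lit 344) (nat_lit 592) (@Lb.r r2584 (@Lb.r r97 (@Lb.r r2667 (@Lb.g g7 (@Lb.g g10 (@Lb.g g5 (@Lb.g g4 (@Lb.d (nat_lit 6) (nat_lit 2) (nat_lit 81) (@Lb.fp (nat_lit 9) t4066))))))))))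
noncomputable def l40855 : Lb := (@Lb.d (nat_lit 106) (nat_lit 593) (nat_lit 4) (@Lb.r r345 (@Lb.r r427 (@Lb.r r406 (@Lb.g g7 (@Lb.g g5 (@Lb.d (nat_lit 0) (nat_lit 5) (nat_lit 128) (@Lb.fp (nat_lit 3) t2545))))))))
noncomputable def l40856 : Lb := (@Lb.d (nat_lit 149) (nat_lit 345) (nat_lit 73) (@Lb.r r101 (@Lb.r r323 (@Lb.g g6 (@Lb.d (nat_lit 0) (nat_lit 4) (nat_lit 9) (@Lb.r r387 (@Lb.t (@Lb.fp (nat_lit 3) t1417))))))))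
noncomputable def l40857 : Lb := (@Lb.d (nat_lit 2) (nat_lit 2) (nat_lit 74) (@Lb.g g8 (@Lb.g g9 (@Lb.g g10 (@Lb.g g11 (@Lb.r r1297 (@Lb.r r2339 (@Lb.r r644 (@Lb.r r2630 (@Lb.r r2180 (@Lb.d (nat_lit 132) (nat_lit 96) (nat_lit 546) (@Lb.fp (nat_lit 9) t1644))))))))))))
noncomputable def l40858 : Lb := (@Lb.r r323 (@Lb.d (nat_lit 16) (nat_lit 512) (nat_lit 34) (@Lb.g g6 (@Lb.r r584 (@Lb.r r619 (@Lb.r r609 (@Lb.d (nat_lit 0) (nat_lit 1) (nat_lit 17) (@Lb.t (@Lb.fp (nat_lit 3) t334)))))))))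
noncomputable def l40859 : Lb := (@Lb.d (nat_lit 96) (nat_lit 338) (nat_lit 4) (@Lb.r r345 (@Lb.r r683 (@Lb.r r662 (@Lb.g g5 (@Lb.d (nat_lit 0) (nat_lit 5) (nat_lit 0) (@Lb.t (@Lb.fm (nat_lit 3) t1425))))))))
noncomputable def l40860 : Lb := (@Lb.d (nat_lit 6) (nat_lit 256) (nat_lit 136) (@Lb.g g4 (@Lb.g g11 (@Lb.r r101 (@Lb.d (nat_lit 549) (nat_lit 10) (nat_lit 17) (@Lb.fm (nat_lit 3) t126))))))
noncomputable def l40861 : Lb := (@Lb.d (nat_lit 129) (nat_lit 0) (nat_lit 384) (@Lb.g g8 (@Lb.g g11 (@Lb.r r2662 (@Lb.r r1321 (@Lb.r r2344 (@Lb.d (nat_lit 85) (nat_lit 9) (nat_lit 672) (@Lb.fm (nat_lit 3) t7062))))))))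
noncomputable def l40862 : Lb := (@Lb.d (nat_lit 0) (nat_lit 34) (nat_lit 0) (@Lb.g g5 (@Lb.r r1315 (@Lb.r r2178 (@Lb.r r2321 (@Lb.r r1156 (@Lb.d (nat_lit 529) (nat_lit 104) (nat_lit 128) (@Lb.t (@Lb.fp (nat_lit 3) t2551)))))))))
noncomputable def l40863 : Lb := (@Lb.d (nat_lit 38) (nat_lit 0) (nat_lit 73) (@Lb.g g8 (@Lb.g g9 (@Lb.g g10 (@Lb.g g11 (@Lb.r r2731 (@Lb.r r2724 (@Lb.r r2213 (@Lb.r r2470 (@Lb.d (nat_lit 617) (nat_lit 68) (nat_lit 661) (@Lb.fm (nat_lit 9) t546)))))))))))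
noncomputable def l40864 : Lb := (@Lb.r r82 (@Lb.d (nat_lit 4) (nat_lit 0) (nat_lit 0) (@Lb.g g8 (@Lb.g g9 (@Lb.r r2134 (@Lb.r r1065 (@Lb.r r36 (@Lb.d (nat_lit 361) (nat_lit 65) (nat_lit 528) (@Lb.fp (nat_lit 3) t2504)))))))))
noncomputable def l40865 : Lb := (@Lb.d (nat_lit 129) (nat_lit 512) (nat_lit 384) (@Lb.g g8 (@Lb.g g11 (@Lb.r r2662 (@Lb.r r613 (@Lb.r r2452 (@Lb.d (nat_lit 100) (nat_lit 10) (nat_lit 674) (@Lb.fp (nat_lit 3) t927))))))))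
noncomputable def l40866 : Lb := (@Lb.r r580 (@Lb.d (nat_lit 0) (nat_lit 544) (nat_lit 386) (@Lb.g g10 (@Lb.g g11 (@Lb.r r1109 (@Lb.r r1188 (@Lb.r r614 (@Lb.d (nat_lit 513) (nat_lit 154) (nat_lit 384) (@Lb.fm (nat_lit 3) t2562)))))))))
noncomputable def l40867 : Lb := (@Lb.d (nat_lit 9) (nat_lit 8) (nat_lit 130) (@Lb.g g8 (@Lb.g g10 (@Lb.g g11 (@Lb.r r1451 (@Lb.r r2145 (@Lb.r r1622 (@Lb.r r1156 (@Lb.d (nat_lit 165) (nat_lit 169) (nat_lit 646) (@Lb.t (@Lb.fp (nat_lit 9) t2910)))))))))))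
noncomputable def l40868 : Lb := (@Lb.r r20 (@Lb.d (nat_lit 4) (nat_lit 161) (nat_lit 64) (@Lb.g g9 (@Lb.g g10 (@Lb.g g11 (@Lb.r r1642 (@Lb.r r619 (@Lb.r r1608 (@Lb.d (nat_lit 612) (nat_lit 128) (nat_lit 154) (@Lb.t (@Lb.fm (nat_lit 9) t4276)))))))))))
noncomputable def l40869 : Lb := (@Lb.d (nat_lit 614) (nat_lit 613) (nat_lit 138) (@Lb.r r2394 (@Lb.r r2132 (@Lb.r r2345 (@Lb.r r2707 (@Lb.g g7 (@Lb.g g6 (@Lb.g g4 (@Lb.d (nat_lit 2) (nat_lit 4) (nat_lit 65) (@Lb.t (@Lb.fp (nat_lit 9) t1470)))))))))))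
noncomputable def l40870 : Lb := (@Lb.d (nat_lit 0) (nat_lit 2) (nat_lit 1) (@Lb.g g9 (@Lb.g g10 (@Lb.r r673 (@Lb.r r162 (@Lb.r r2193 (@Lb.d (nat_lit 0) (nat_lit 153) (nat_lit 341) (@Lb.fm (nat_lit 3) t5860))))))))
noncomputable def l40871 : Lb := (@Lb.d (nat_lit 2) (nat_lit 514) (nat_lit 4) (@Lb.g g8 (@Lb.g g9 (@Lb.g g10 (@Lb.g g11 (@Lb.r r427 (@Lb.r r420 (@Lb.r r102 (@Lb.r r21 (@Lb.r r36 (@Lb.d (nat_lit 514) (nat_lit 10) (nat_lit 169) (@Lb.fp (nat_lit 9) t221))))))))))))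
noncomputable def l40872 : Lb := (@Lb.d (nat_lit 2) (nat_lit 4) (nat_lit 64) (@Lb.g g8 (@Lb.g g9 (@Lb.g g10 (@Lb.g g7 (@Lb.r r386 (@Lb.r r97 (@Lb.r r24 (@Lb.d (nat_lit 10) (nat_lit 2) (nat_lit 10) (@Lb.fp (nat_lit 9) t985))))))))))
noncomputable def l40873 : Lb := (@Lb.d (nat_lit 9) (nat_lit 2) (nat_lit 64) (@Lb.g g8 (@Lb.g g9 (@Lb.g g11 (@Lb.r r2347 (@Lb.r r89 (@Lb.r r2146 (@Lb.d (nat_lit 289) (nat_lit 5) (nat_lit 170) (@Lb.t (@Lb.fm (nat_lit 9) t296))))))))))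
noncomputable def l40874 : Lb := (@Lb.d (nat_lit 16) (nat_lit 661) (nat_lit 361) (@Lb.r r2308 (@Lb.r r1611 (@Lb.r r680 (@Lb.r r2153 (@Lb.g g7 (@Lb.g g10 (@Lb.g g5 (@Lb.g g4 (@Lb.d (nat_lit 106) (nat_lit 0) (nat_lit 65) (@Lb.fp (nat_lit 9) t1741)))))))))))
noncomputable def l40875 : Lb := (@Lb.g g4 (@Lb.g g10 (@Lb.g g7 (@Lb.r r402 (@Lb.d (nat_lit 1) (nat_lit 154) (nat_lit 66) (@Lb.t (@Lb.fp (nat_lit 9) t71)))))))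
noncomputable def l40876 : Lb := (@Lb.d (nat_lit 1) (nat_lit 256) (nat_lit 0) (@Lb.g g4 (@Lb.g g10 (@Lb.g g7 (@Lb.r r402 (@Lb.d (nat_lit 2) (nat_lit 154) (nat_lit 66) (@Lb.t (@Lb.fp (nat_lit 9) t71))))))))
noncomputable def l40877 : Lb := (@Lb.d (nat_lit 9) (nat_lit 256) (nat_lit 0) (@Lb.g g8 (@Lb.g g10 (@Lb.g g7 (@Lb.r r402 (@Lb.d (nat_lit 0) (nat_lit 26) (nat_lit 66) (@Lb.t (@Lb.fm (nat_lit 9) t71))))))))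
noncomputable def l40878 : Lb := (@Lb.r r322 (@Lb.d (nat_lit 34) (nat_lit 528) (nat_lit 648) (@Lb.g g8 (@Lb.g g9 (@Lb.g g7 (@Lb.r r2474 (@Lb.r r2389 (@Lb.r r168 (@Lb.d (nat_lit 533) (nat_lit 70) (nat_lit 66) (@Lb.t (@Lb.fp (nat_lit 9) t898)))))))))))
noncomputable def l40879 : Lb := (@Lb.r r82 (@Lb.r r275 (@Lb.d (nat_lit 8) (nat_lit 90) (nat_lit 0) (@Lb.g g9 (@Lb.r r2403 (@Lb.r r578 (@Lb.d (nat_lit 2) (nat_lit 2) (nat_lit 357) (@Lb.t (@Lb.fp (nat_lit 3) t1038)))))))))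
noncomputable def l40880 : Lb := (@Lb.d (nat_lit 666) (nat_lit 2) (nat_lit 262) (@Lb.r r24 (@Lb.r r101 (@Lb.r r386 (@Lb.g g11 (@Lb.g g6 (@Lb.d (nat_lit 0) (nat_lit 0) (nat_lit 1) (@Lb.fm (nat_lit 3) t868))))))))
noncomputable def l40881 : Lb := (@Lb.d (nat_lit 0) (nat_lit 320) (nat_lit 650) (@Lb.r r402 (@Lb.g g9 (@Lb.g g4 (@Lb.fm (nat_lit 3) t2930)))))
noncomputable def l40882 : Lb := (@Lb.d (nat_lit 33) (nat_lit 674) (nat_lit 152) (@Lb.r r24 (@Lb.r r2325 (@Lb.r r386 (@Lb.r r1699 (@Lb.g g7 (@Lb.g g6 (@Lb.g g5 (@Lb.d (nat_lit 0) (nat_lit 18) (nat_lit 129) (@Lb.t (@Lb.fm (nat_lit 9) t495)))))))))))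
noncomputable def l40883 : Lb := (@Lb.d (nat_lit 426) (nat_lit 66) (nat_lit 152) (@Lb.r r24 (@Lb.r r2321 (@Lb.r r386 (@Lb.r r1703 (@Lb.g g7 (@Lb.g g6 (@Lb.g g5 (@Lb.d (nat_lit 0) (nat_lit 17) (nat_lit 129) (@Lb.t (@Lb.fm (nat_lit 9) t495)))))))))))
noncomputable def l40884 : Lb := (@Lb.d (nat_lit 0) (nat_lit 256) (nat_lit 74) (@Lb.g g5 (@Lb.g g10 (@Lb.g g11 (@Lb.r r387 (@Lb.d (nat_lit 293) (nat_lit 1) (nat_lit 40) (@Lb.t (@Lb.fp (nat_lit 9) t127))))))))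
noncomputable def l40885 : Lb := (@Lb.r r82 (@Lb.r r283 (@Lb.d (nat_lit 34) (nat_lit 386) (nat_lit 0) (@Lb.g g8 (@Lb.g g9 (@Lb.r r1675 (@Lb.r r70 (@Lb.r r164 (@Lb.d (nat_lit 544) (nat_lit 6) (nat_lit 18) (@Lb.fp (nat_lit 3) t3617))))))))))
noncomputable def l40886 : Lb := (@Lb.d (nat_lit 2) (nat_lit 257) (nat_lit 128) (@Lb.g g8 (@Lb.g g9 (@Lb.g g10 (@Lb.g g11 (@Lb.r r673 (@Lb.r r674 (@Lb.r r2471 (@Lb.r r1620 (@Lb.r r153 (@Lb.d (nat_lit 2) (nat_lit 166) (nat_lit 642) (@Lb.fp (nat_lit 9) t660))))))))))))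
noncomputable def l40887 : Lb := (@Lb.d (nat_lit 0) (nat_lit 292) (nat_lit 64) (@Lb.g g9 (@Lb.g g10 (@Lb.g g11 (@Lb.r r1683 (@Lb.r r145 (@Lb.r r1362 (@Lb.d (nat_lit 10) (nat_lit 144) (nat_lit 674) (@Lb.t (@Lb.fp (nat_lit 9) t7063))))))))))
noncomputable def l40888 : Lb := (@Lb.d (nat_lit 357) (nat_lit 290) (nat_lit 512) (@Lb.r r97 (@Lb.r r146 (@Lb.r r2583 (@Lb.r r264 (@Lb.g g7 (@Lb.g g5 (@Lb.d (nat_lit 64) (nat_lit 1) (nat_lit 128) (@Lb.fm (nat_lit 3) t3885)))))))))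
noncomputable def l40889 : Lb := (@Lb.d (nat_lit 357) (nat_lit 404) (nat_lit 149) (@Lb.r r2663 (@Lb.r r264 (@Lb.r r105 (@Lb.r r150 (@Lb.g g7 (@Lb.g g5 (@Lb.d (nat_lit 64) (nat_lit 2) (nat_lit 128) (@Lb.fm (nat_lit 3) t154)))))))))
noncomputable def l40890 : Lb := (@Lb.d (nat_lit 2) (nat_lit 356) (nat_lit 534) (@Lb.r r1346 (@Lb.r r2707 (@Lb.g g6 (@Lb.t (@Lb.fp (nat_lit 3) t356))))))
noncomputable def l40891 : Lb := (@Lb.r r21 (@Lb.d (nat_lit 2) (nat_lit 512) (nat_lit 130) (@Lb.g g8 (@Lb.g g10 (@Lb.g g11 (@Lb.r r2691 (@Lb.r r2184 (@Lb.r r2666 (@Lb.r r97 (@Lb.d (nat_lit 328) (nat_lit 90) (nat_lit 644) (@Lb.t (@Lb.fp (nat_lit 9) t668))))))))))))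
noncomputable def l40892 : Lb := (@Lb.d (nat_lit 32) (nat_lit 513) (nat_lit 136) (@Lb.g g8 (@Lb.g g9 (@Lb.g g11 (@Lb.r r406 (@Lb.r r529 (@Lb.r r340 (@Lb.d (nat_lit 145) (nat_lit 169) (nat_lit 132) (@Lb.t (@Lb.fp (nat_lit 9) t1115))))))))))
noncomputable def l40893 : Lb := (@Lb.g g6 (@Lb.r r101 (@Lb.d (nat_lit 17) (nat_lit 266) (nat_lit 0) (@Lb.t (@Lb.fp (nat_lit 3) t285)))))
noncomputable def l40894 : Lb := (@Lb.d (nat_lit 136) (nat_lit 289) (nat_lit 64) (@Lb.r r553 (@Lb.r r618 (@Lb.r r535 (@Lb.g g7 (@Lb.g g5 (@Lb.g g4 (@Lb.d (nat_lit 2) (nat_lit 34) (nat_lit 0) (@Lb.r r98 (@Lb.t (@Lb.fp (nat_lit 9) t74)))))))))))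
noncomputable def l40895 : Lb := (@Lb.r r82 (@Lb.d (nat_lit 0) (nat_lit 289) (nat_lit 64) (@Lb.g g9 (@Lb.g g11 (@Lb.r r2331 (@Lb.r r2410 (@Lb.r r2329 (@Lb.r r8 (@Lb.d (nat_lit 261) (nat_lit 98) (nat_lit 0) (@Lb.fp (nat_lit 3) t6013))))))))))
noncomputable def l40896 : Lb := (@Lb.r r82 (@Lb.d (nat_lit 0) (nat_lit 41) (nat_lit 64) (@Lb.g g9 (@Lb.g g11 (@Lb.r r2715 (@Lb.r r346 (@Lb.r r344 (@Lb.r r597 (@Lb.d (nat_lit 150) (nat_lit 40) (nat_lit 288) (@Lb.fm (nat_lit 3) t1265))))))))))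
noncomputable def l40897 : Lb := (@Lb.d (nat_lit 129) (nat_lit 656) (nat_lit 64) (@Lb.r r37 (@Lb.r r88 (@Lb.r r1414 (@Lb.r r2595 (@Lb.g g7 (@Lb.g g6 (@Lb.g g5 (@Lb.d (nat_lit 0) (nat_lit 1) (nat_lit 128) (@Lb.t (@Lb.fp (nat_lit 9) t5875)))))))))))
noncomputable def l40898 : Lb := (@Lb.d (nat_lit 0) (nat_lit 522) (nat_lit 0) (@Lb.g g9 (@Lb.g g7 (@Lb.r r402 (@Lb.r r2436 (@Lb.d (nat_lit 608) (nat_lit 90) (nat_lit 9) (@Lb.fm (nat_lit 3) t452)))))))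
noncomputable def l40899 : Lb := (@Lb.d (nat_lit 129) (nat_lit 73) (nat_lit 129) (@Lb.g g8 (@Lb.g g9 (@Lb.g g10 (@Lb.g g11 (@Lb.r r291 (@Lb.r r1610 (@Lb.r r1604 (@Lb.d (nat_lit 662) (nat_lit 38) (nat_lit 22) (@Lb.fp (nat_lit 9) t5558))))))))))
noncomputable def l40900 : Lb := (@Lb.d (nat_lit 1) (nat_lit 0) (nat_lit 9) (@Lb.g g8 (@Lb.g g10 (@Lb.g g7 (@Lb.r r386 (@Lb.r r2152 (@Lb.r r2073 (@Lb.d (nat_lit 0) (nat_lit 138) (nat_lit 153) (@Lb.t (@Lb.fp (nat_lit 9) t40))))))))))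
noncomputable def l40901 : Lb := (@Lb.d (nat_lit 1) (nat_lit 256) (nat_lit 9) (@Lb.g g8 (@Lb.g g10 (@Lb.g g7 (@Lb.r r386 (@Lb.r r2145 (@Lb.r r24 (@Lb.d (nat_lit 10) (nat_lit 73) (nat_lit 169) (@Lb.t (@Lb.fm (nat_lit 9) t40))))))))))
noncomputable def l40902 : Lb := (@Lb.r r70 (@Lb.d (nat_lit 9) (nat_lit 329) (nat_lit 128) (@Lb.g g8 (@Lb.g g9 (@Lb.g g11 (@Lb.r r2411 (@Lb.r r1606 (@Lb.r r408 (@Lb.d (nat_lit 660) (nat_lit 86) (nat_lit 18) (@Lb.t (@Lb.fp (nat_lit 9) t580)))))))))))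
noncomputable def l40903 : Lb := (@Lb.r r70 (@Lb.d (nat_lit 136) (nat_lit 266) (nat_lit 64) (@Lb.g g8 (@Lb.g g9 (@Lb.g g11 (@Lb.r r1563 (@Lb.r r2438 (@Lb.r r2648 (@Lb.d (nat_lit 389) (nat_lit 101) (nat_lit 152) (@Lb.t (@Lb.fp (nat_lit 9) t218)))))))))))
noncomputable def l40904 : Lb := (@Lb.d (nat_lit 1) (nat_lit 514) (nat_lit 130) (@Lb.g g8 (@Lb.g g9 (@Lb.g g10 (@Lb.g g11 (@Lb.r r1387 (@Lb.r r1442 (@Lb.r r2712 (@Lb.r r1445 (@Lb.d (nat_lit 69) (nat_lit 106) (nat_lit 642) (@Lb.fm (nat_lit 9) t2555)))))))))))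
noncomputable def l40905 : Lb := (@Lb.d (nat_lit 9) (nat_lit 544) (nat_lit 130) (@Lb.g g8 (@Lb.g g10 (@Lb.g g11 (@Lb.r r618 (@Lb.r r149 (@Lb.r r360 (@Lb.r r2567 (@Lb.d (nat_lit 650) (nat_lit 100) (nat_lit 105) (@Lb.t (@Lb.fm (nat_lit 9) t71)))))))))))
noncomputable def l40906 : Lb := (@Lb.d (nat_lit 2) (nat_lit 386) (nat_lit 130) (@Lb.g g8 (@Lb.g g9 (@Lb.g g10 (@Lb.g g11 (@Lb.r r1451 (@Lb.r r1448 (@Lb.r r1130 (@Lb.d (nat_lit 549) (nat_lit 137) (nat_lit 137) (@Lb.fm (nat_lit 9) t1416))))))))))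
noncomputable def l40907 : Lb := (@Lb.d (nat_lit 2) (nat_lit 521) (nat_lit 129) (@Lb.g g8 (@Lb.g g9 (@Lb.g g10 (@Lb.g g11 (@Lb.r r427 (@Lb.r r2473 (@Lb.r r2472 (@Lb.r r2154 (@Lb.d (nat_lit 293) (nat_lit 132) (nat_lit 152) (@Lb.fp (nat_lit 9) t7064)))))))))))
noncomputable def l40908 : Lb := (@Lb.d (nat_lit 0) (nat_lit 34) (nat_lit 4) (@Lb.g g8 (@Lb.g g9 (@Lb.g g10 (@Lb.g g11 (@Lb.r r2567 (@Lb.r r276 (@Lb.r r169 (@Lb.r r98 (@Lb.r r2084 (@Lb.d (nat_lit 584) (nat_lit 69) (nat_lit 512) (@Lb.fp (nat_lit 9) t1239))))))))))))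
noncomputable def l40909 : Lb := (@Lb.d (nat_lit 1) (nat_lit 512) (nat_lit 32) (@Lb.r r1635 (@Lb.r r601 (@Lb.r r2136 (@Lb.r r1158 (@Lb.g g8 (@Lb.t (@Lb.fm (nat_lit 3) t5073))))))))
noncomputable def l40910 : Lb := (@Lb.r r81 (@Lb.d (nat_lit 137) (nat_lit 0) (nat_lit 41) (@Lb.g g8 (@Lb.g g6 (@Lb.r r661 (@Lb.r r343 (@Lb.r r680 (@Lb.d (nat_lit 85) (nat_lit 17) (nat_lit 153) (@Lb.fm (nat_lit 3) t1397)))))))))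
noncomputable def l40911 : Lb := (@Lb.d (nat_lit 325) (nat_lit 150) (nat_lit 658) (@Lb.r r2341 (@Lb.r r1627 (@Lb.r r1620 (@Lb.g g6 (@Lb.g g5 (@Lb.g g4 (@Lb.d (nat_lit 1) (nat_lit 17) (nat_lit 2) (@Lb.r r387 (@Lb.t (@Lb.fp (nat_lit 9) t7065)))))))))))
noncomputable def l40912 : Lb := (@Lb.r r323 (@Lb.d (nat_lit 2) (nat_lit 260) (nat_lit 0) (@Lb.g g8 (@Lb.g g9 (@Lb.g g10 (@Lb.r r1675 (@Lb.r r161 (@Lb.r r610 (@Lb.r r24 (@Lb.d (nat_lit 266) (nat_lit 89) (nat_lit 137) (@Lb.t (@Lb.fp (nat_lit 9) t3548))))))))))))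
noncomputable def l40913 : Lb := (@Lb.r r82 (@Lb.r r275 (@Lb.d (nat_lit 2) (nat_lit 1) (nat_lit 0) (@Lb.g g8 (@Lb.g g5 (@Lb.r r1563 (@Lb.r r578 (@Lb.r r24 (@Lb.d (nat_lit 266) (nat_lit 88) (nat_lit 68) (@Lb.fp (nat_lit 3) t7066))))))))))
noncomputable def l40914 : Lb := (@Lb.d (nat_lit 129) (nat_lit 2) (nat_lit 66) (@Lb.g g8 (@Lb.g g9 (@Lb.g g10 (@Lb.g g11 (@Lb.r r2217 (@Lb.r r296 (@Lb.r r2439 (@Lb.r r386 (@Lb.r r2180 (@Lb.d (nat_lit 258) (nat_lit 69) (nat_lit 72) (@Lb.fm (nat_lit 9) t7067))))))))))))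
noncomputable def l40915 : Lb := (@Lb.r r82 (@Lb.r r275 (@Lb.d (nat_lit 2) (nat_lit 257) (nat_lit 0) (@Lb.g g8 (@Lb.g g5 (@Lb.r r1563 (@Lb.r r578 (@Lb.r r24 (@Lb.d (nat_lit 266) (nat_lit 88) (nat_lit 2) (@Lb.fp (nat_lit 3) t3548))))))))))
noncomputable def l40916 : Lb := (@Lb.r r275 (@Lb.d (nat_lit 2) (nat_lit 2) (nat_lit 2) (@Lb.g g8 (@Lb.g g9 (@Lb.g g10 (@Lb.r r1707 (@Lb.r r386 (@Lb.r r609 (@Lb.r r24 (@Lb.d (nat_lit 264) (nat_lit 18) (nat_lit 262) (@Lb.t (@Lb.fm (nat_lit 9) t7068))))))))))))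
noncomputable def l40917 : Lb := (@Lb.r r21 (@Lb.d (nat_lit 20) (nat_lit 0) (nat_lit 0) (@Lb.g g8 (@Lb.g g10 (@Lb.r r2729 (@Lb.r r615 (@Lb.r r1602 (@Lb.r r2692 (@Lb.d (nat_lit 537) (nat_lit 128) (nat_lit 645) (@Lb.fm (nat_lit 3) t6965))))))))))
noncomputable def l40918 : Lb := (@Lb.d (nat_lit 138) (nat_lit 288) (nat_lit 128) (@Lb.g g8 (@Lb.g g11 (@Lb.r r37 (@Lb.r r2328 (@Lb.r r263 (@Lb.r r2114 (@Lb.d (nat_lit 73) (nat_lit 89) (nat_lit 578) (@Lb.fm (nat_lit 3) t7069)))))))))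
noncomputable def l40919 : Lb := (@Lb.d (nat_lit 0) (nat_lit 424) (nat_lit 261) (@Lb.r r609 (@Lb.r r1379 (@Lb.g g10 (@Lb.g g5 (@Lb.d (nat_lit 0) (nat_lit 17) (nat_lit 22) (@Lb.r r36 (@Lb.fm (nat_lit 3) t5031))))))))
noncomputable def l40920 : Lb := (@Lb.d (nat_lit 40) (nat_lit 256) (nat_lit 64) (@Lb.g g8 (@Lb.g g11 (@Lb.r r2213 (@Lb.r r1190 (@Lb.r r2648 (@Lb.r r2571 (@Lb.d (nat_lit 648) (nat_lit 145) (nat_lit 325) (@Lb.fm (nat_lit 3) t1079)))))))))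
noncomputable def l40921 : Lb := (@Lb.d (nat_lit 2) (nat_lit 2) (nat_lit 128) (@Lb.g g8 (@Lb.g g9 (@Lb.g g11 (@Lb.r r1707 (@Lb.r r2178 (@Lb.r r2657 (@Lb.r r24 (@Lb.d (nat_lit 533) (nat_lit 88) (nat_lit 42) (@Lb.t (@Lb.fm (nat_lit 9) t2031)))))))))))
noncomputable def l40922 : Lb := (@Lb.r r152 (@Lb.r r1109 (@Lb.r r106 (@Lb.r r2084 (@Lb.d (nat_lit 321) (nat_lit 0) (nat_lit 528) (@Lb.fm (nat_lit 1) t3300))))))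
noncomputable def l40923 : Lb := (@Lb.d (nat_lit 4) (nat_lit 257) (nat_lit 74) (@Lb.g g5 (@Lb.g g10 (@Lb.g g11 (@Lb.r r2626 (@Lb.r r579 (@Lb.r r24 (@Lb.d (nat_lit 321) (nat_lit 1) (nat_lit 342) (@Lb.t (@Lb.fp (nat_lit 9) t716))))))))))
noncomputable def l40924 : Lb := (@Lb.g g5 (@Lb.r r24 (@Lb.r r101 (@Lb.d (nat_lit 1) (nat_lit 410) (nat_lit 266) (@Lb.t (@Lb.fm (nat_lit 3) t1174))))))
noncomputable def l40925 : Lb := (@Lb.d (nat_lit 1) (nat_lit 677) (nat_lit 294) (@Lb.r r21 (@Lb.r r1366 (@Lb.r r683 (@Lb.g g6 (@Lb.g g5 (@Lb.g g4 (@Lb.d (nat_lit 8) (nat_lit 0) (nat_lit 1) (@Lb.t (@Lb.fm (nat_lit 9) t40))))))))))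
noncomputable def l40926 : Lb := (@Lb.r r82 (@Lb.d (nat_lit 130) (nat_lit 2) (nat_lit 128) (@Lb.g g8 (@Lb.g g9 (@Lb.g g11 (@Lb.r r2593 (@Lb.r r2343 (@Lb.r r146 (@Lb.r r2584 (@Lb.d (nat_lit 616) (nat_lit 162) (nat_lit 418) (@Lb.t (@Lb.fp (nat_lit 9) t3408))))))))))))
noncomputable def l40927 : Lb := (@Lb.r r82 (@Lb.d (nat_lit 134) (nat_lit 0) (nat_lit 128) (@Lb.g g8 (@Lb.g g9 (@Lb.g g11 (@Lb.r r555 (@Lb.r r2438 (@Lb.r r2596 (@Lb.r r1061 (@Lb.d (nat_lit 33) (nat_lit 100) (nat_lit 672) (@Lb.t (@Lb.fp (nat_lit 9) t1148))))))))))))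
noncomputable def l40928 : Lb := (@Lb.d (nat_lit 598) (nat_lit 41) (nat_lit 618) (@Lb.r r679 (@Lb.r r2662 (@Lb.r r2712 (@Lb.r r1301 (@Lb.g g7 (@Lb.d (nat_lit 64) (nat_lit 0) (nat_lit 128) (@Lb.t (@Lb.fm (nat_lit 3) t7070)))))))))
noncomputable def l40929 : Lb := (@Lb.d (nat_lit 598) (nat_lit 546) (nat_lit 616) (@Lb.r r679 (@Lb.r r2662 (@Lb.r r2712 (@Lb.r r1301 (@Lb.g g7 (@Lb.d (nat_lit 64) (nat_lit 0) (nat_lit 128) (@Lb.t (@Lb.fm (nat_lit 3) t7071)))))))))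
noncomputable def l40930 : Lb := (@Lb.d (nat_lit 0) (nat_lit 297) (nat_lit 5) (@Lb.r r675 (@Lb.r r2658 (@Lb.r r2649 (@Lb.r r1428 (@Lb.g g7 (@Lb.d (nat_lit 128) (nat_lit 0) (nat_lit 132) (@Lb.t (@Lb.fp (nat_lit 3) t979)))))))))
noncomputable def l40931 : Lb := (@Lb.d (nat_lit 21) (nat_lit 512) (nat_lit 0) (@Lb.g g8 (@Lb.g g9 (@Lb.g g10 (@Lb.r r2729 (@Lb.r r2411 (@Lb.r r1410 (@Lb.r r676 (@Lb.d (nat_lit 281) (nat_lit 24) (nat_lit 662) (@Lb.t (@Lb.fm (nat_lit 9) t1399)))))))))))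
noncomputable def l40932 : Lb := (@Lb.d (nat_lit 2) (nat_lit 260) (nat_lit 128) (@Lb.g g8 (@Lb.g g9 (@Lb.g g10 (@Lb.g g11 (@Lb.r r619 (@Lb.r r2216 (@Lb.r r2666 (@Lb.r r1129 (@Lb.d (nat_lit 352) (nat_lit 73) (nat_lit 340) (@Lb.fm (nat_lit 9) t74)))))))))))
noncomputable def l40933 : Lb := (@Lb.d (nat_lit 32) (nat_lit 264) (nat_lit 130) (@Lb.g g10 (@Lb.g g11 (@Lb.r r2711 (@Lb.r r1384 (@Lb.r r361 (@Lb.r r1622 (@Lb.d (nat_lit 5) (nat_lit 102) (nat_lit 514) (@Lb.fp (nat_lit 3) t1827)))))))))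
noncomputable def l40934 : Lb := (@Lb.d (nat_lit 128) (nat_lit 16) (nat_lit 580) (@Lb.g g7 (@Lb.r r1126 (@Lb.r r24 (@Lb.d (nat_lit 17) (nat_lit 64) (nat_lit 102) (@Lb.t (@Lb.fp (nat_lit 3) t1025)))))))
noncomputable def l40935 : Lb := (@Lb.r r323 (@Lb.d (nat_lit 0) (nat_lit 322) (nat_lit 2) (@Lb.g g4 (@Lb.g g9 (@Lb.g g10 (@Lb.r r354 (@Lb.r r387 (@Lb.d (nat_lit 1) (nat_lit 144) (nat_lit 320) (@Lb.t (@Lb.fp (nat_lit 9) t51))))))))))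
noncomputable def l40936 : Lb := (@Lb.r r323 (@Lb.d (nat_lit 130) (nat_lit 290) (nat_lit 18) (@Lb.g g8 (@Lb.g g9 (@Lb.g g10 (@Lb.r r583 (@Lb.r r404 (@Lb.r r105 (@Lb.d (nat_lit 421) (nat_lit 36) (nat_lit 336) (@Lb.t (@Lb.fm (nat_lit 9) t5059)))))))))))
noncomputable def l40937 : Lb := (@Lb.d (nat_lit 257) (nat_lit 258) (nat_lit 34) (@Lb.r r1284 (@Lb.r r1414 (@Lb.r r2651 (@Lb.g g9 (@Lb.g g4 (@Lb.d (nat_lit 1) (nat_lit 33) (nat_lit 0) (@Lb.fp (nat_lit 3) t7072))))))))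
noncomputable def l40938 : Lb := (@Lb.d (nat_lit 528) (nat_lit 512) (nat_lit 17) (@Lb.r r74 (@Lb.r r104 (@Lb.r r169 (@Lb.r r419 (@Lb.g g6 (@Lb.g g5 (@Lb.d (nat_lit 0) (nat_lit 5) (nat_lit 0) (@Lb.r r387 (@Lb.fm (nat_lit 3) t5209))))))))))
noncomputable def l40939 : Lb := (@Lb.d (nat_lit 401) (nat_lit 41) (nat_lit 410) (@Lb.r r610 (@Lb.r r617 (@Lb.r r424 (@Lb.g g11 (@Lb.g g6 (@Lb.d (nat_lit 32) (nat_lit 0) (nat_lit 129) (@Lb.fp (nat_lit 3) t835))))))))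
noncomputable def l40940 : Lb := (@Lb.d (nat_lit 10) (nat_lit 264) (nat_lit 130) (@Lb.g g8 (@Lb.g g10 (@Lb.g g11 (@Lb.r r1451 (@Lb.r r2145 (@Lb.r r1622 (@Lb.r r1156 (@Lb.d (nat_lit 166) (nat_lit 162) (nat_lit 578) (@Lb.t (@Lb.fp (nat_lit 9) t2838)))))))))))
noncomputable def l40941 : Lb := (@Lb.d (nat_lit 34) (nat_lit 258) (nat_lit 130) (@Lb.g g8 (@Lb.g g9 (@Lb.g g10 (@Lb.g g11 (@Lb.r r1579 (@Lb.r r1410 (@Lb.r r2657 (@Lb.r r2200 (@Lb.d (nat_lit 537) (nat_lit 21) (nat_lit 649) (@Lb.fp (nat_lit 9) t2210)))))))))))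
noncomputable def l40942 : Lb := (@Lb.r r82 (@Lb.d (nat_lit 9) (nat_lit 514) (nat_lit 128) (@Lb.g g8 (@Lb.g g9 (@Lb.g g11 (@Lb.r r2443 (@Lb.r r2714 (@Lb.r r529 (@Lb.r r2436 (@Lb.d (nat_lit 682) (nat_lit 40) (nat_lit 361) (@Lb.t (@Lb.fp (nat_lit 9) t344))))))))))))
noncomputable def l40943 : Lb := (@Lb.r r263 (@Lb.d (nat_lit 546) (nat_lit 2) (nat_lit 1) (@Lb.g g8 (@Lb.g g9 (@Lb.g g10 (@Lb.r r618 (@Lb.r r2627 (@Lb.r r25 (@Lb.d (nat_lit 8) (nat_lit 161) (nat_lit 384) (@Lb.t (@Lb.fp (nat_lit 9) t1792)))))))))))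
noncomputable def l40944 : Lb := (@Lb.r r70 (@Lb.r r263 (@Lb.d (nat_lit 128) (nat_lit 514) (nat_lit 0) (@Lb.g g8 (@Lb.g g9 (@Lb.r r2457 (@Lb.r r402 (@Lb.r r2627 (@Lb.d (nat_lit 289) (nat_lit 10) (nat_lit 342) (@Lb.fm (nat_lit 3) t4350))))))))))
noncomputable def l40945 : Lb := (@Lb.d (nat_lit 1) (nat_lit 512) (nat_lit 0) (@Lb.g g8 (@Lb.r r322 (@Lb.r r659 (@Lb.r r578 (@Lb.r r2073 (@Lb.d (nat_lit 1) (nat_lit 1) (nat_lit 18) (@Lb.t (@Lb.fm (nat_lit 3) t4188)))))))))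
noncomputable def l40946 : Lb := (@Lb.d (nat_lit 2) (nat_lit 2) (nat_lit 130) (@Lb.g g8 (@Lb.g g9 (@Lb.g g10 (@Lb.g g11 (@Lb.r r427 (@Lb.r r360 (@Lb.r r150 (@Lb.r r2133 (@Lb.r r2068 (@Lb.d (nat_lit 281) (nat_lit 2) (nat_lit 34) (@Lb.fp (nat_lit 9) t7073))))))))))))
noncomputable def l40947 : Lb := (@Lb.d (nat_lit 0) (nat_lit 265) (nat_lit 129) (@Lb.g g9 (@Lb.g g10 (@Lb.g g11 (@Lb.r r673 (@Lb.r r2658 (@Lb.r r2659 (@Lb.r r24 (@Lb.d (nat_lit 10) (nat_lit 25) (nat_lit 401) (@Lb.t (@Lb.fp (nat_lit 9) t795)))))))))))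
noncomputable def l40948 : Lb := (@Lb.d (nat_lit 128) (nat_lit 9) (nat_lit 129) (@Lb.g g8 (@Lb.g g9 (@Lb.g g10 (@Lb.g g11 (@Lb.r r2729 (@Lb.r r1642 (@Lb.r r1643 (@Lb.r r2084 (@Lb.d (nat_lit 613) (nat_lit 65) (nat_lit 401) (@Lb.fp (nat_lit 9) t5663)))))))))))
noncomputable def l40949 : Lb := (@Lb.d (nat_lit 65) (nat_lit 533) (nat_lit 577) (@Lb.r r281 (@Lb.r r404 (@Lb.r r678 (@Lb.r r1443 (@Lb.g g6 (@Lb.g g5 (@Lb.g g4 (@Lb.d (nat_lit 1) (nat_lit 38) (nat_lit 2) (@Lb.t (@Lb.fm (nat_lit 9) t2335)))))))))))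
noncomputable def l40950 : Lb := (@Lb.d (nat_lit 2) (nat_lit 258) (nat_lit 4) (@Lb.g g8 (@Lb.g g9 (@Lb.g g10 (@Lb.g g11 (@Lb.r r1065 (@Lb.r r360 (@Lb.r r582 (@Lb.r r2407 (@Lb.r r2180 (@Lb.d (nat_lit 330) (nat_lit 88) (nat_lit 97) (@Lb.fp (nat_lit 9) t324))))))))))))
noncomputable def l40951 : Lb := (@Lb.d (nat_lit 2) (nat_lit 9) (nat_lit 129) (@Lb.g g8 (@Lb.g g9 (@Lb.g g10 (@Lb.g g11 (@Lb.r r1065 (@Lb.r r648 (@Lb.r r666 (@Lb.r r667 (@Lb.r r1156 (@Lb.d (nat_lit 330) (nat_lit 73) (nat_lit 673) (@Lb.fp (nat_lit 9) t2282))))))))))))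
noncomputable def l40952 : Lb := (@Lb.d (nat_lit 2) (nat_lit 2) (nat_lit 10) (@Lb.g g8 (@Lb.g g9 (@Lb.g g10 (@Lb.r r579 (@Lb.r r425 (@Lb.r r2410 (@Lb.r r2120 (@Lb.d (nat_lit 612) (nat_lit 2) (nat_lit 529) (@Lb.t (@Lb.fp (nat_lit 9) t6206)))))))))))
noncomputable def l40953 : Lb := (@Lb.d (nat_lit 358) (nat_lit 345) (nat_lit 516) (@Lb.r r358 (@Lb.r r404 (@Lb.r r1105 (@Lb.r r267 (@Lb.g g6 (@Lb.g g5 (@Lb.g g4 (@Lb.d (nat_lit 65) (nat_lit 1) (nat_lit 5) (@Lb.t (@Lb.fp (nat_lit 9) t1442)))))))))))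
noncomputable def l40954 : Lb := (@Lb.d (nat_lit 358) (nat_lit 601) (nat_lit 642) (@Lb.r r358 (@Lb.r r404 (@Lb.r r1105 (@Lb.r r267 (@Lb.g g6 (@Lb.g g5 (@Lb.g g4 (@Lb.d (nat_lit 65) (nat_lit 1) (nat_lit 5) (@Lb.t (@Lb.fp (nat_lit 9) t1442)))))))))))
noncomputable def l40955 : Lb := (@Lb.d (nat_lit 154) (nat_lit 258) (nat_lit 130) (@Lb.g g8 (@Lb.g g9 (@Lb.g g10 (@Lb.g g11 (@Lb.r r580 (@Lb.r r2455 (@Lb.r r1634 (@Lb.r r549 (@Lb.r r20 (@Lb.d (nat_lit 673) (nat_lit 74) (nat_lit 528) (@Lb.fm (nat_lit 9) t3980))))))))))))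
noncomputable def l40956 : Lb := (@Lb.d (nat_lit 645) (nat_lit 598) (nat_lit 82) (@Lb.r r1301 (@Lb.r r1366 (@Lb.r r683 (@Lb.g g6 (@Lb.g g5 (@Lb.g g4 (@Lb.d (nat_lit 9) (nat_lit 0) (nat_lit 1) (@Lb.t (@Lb.fm (nat_lit 9) t5963))))))))))
noncomputable def l40957 : Lb := (@Lb.d (nat_lit 537) (nat_lit 354) (nat_lit 298) (@Lb.r r2725 (@Lb.r r1432 (@Lb.r r2438 (@Lb.g g7 (@Lb.g g5 (@Lb.g g4 (@Lb.d (nat_lit 1) (nat_lit 5) (nat_lit 324) (@Lb.r r610 (@Lb.t (@Lb.fm (nat_lit 9) t3827)))))))))))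
noncomputable def l40958 : Lb := (@Lb.d (nat_lit 401) (nat_lit 578) (nat_lit 598) (@Lb.r r2321 (@Lb.r r2178 (@Lb.r r291 (@Lb.r r341 (@Lb.g g7 (@Lb.g g5 (@Lb.g g4 (@Lb.d (nat_lit 8) (nat_lit 0) (nat_lit 128) (@Lb.t (@Lb.fm (nat_lit 9) t1222)))))))))))
noncomputable def l40959 : Lb := (@Lb.d (nat_lit 1) (nat_lit 266) (nat_lit 161) (@Lb.g g8 (@Lb.g g9 (@Lb.g g6 (@Lb.g g11 (@Lb.r r2659 (@Lb.r r1633 (@Lb.r r24 (@Lb.d (nat_lit 5) (nat_lit 90) (nat_lit 280) (@Lb.fp (nat_lit 9) t1762))))))))))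
noncomputable def l40960 : Lb := (@Lb.d (nat_lit 153) (nat_lit 422) (nat_lit 324) (@Lb.r r617 (@Lb.r r1387 (@Lb.g g10 (@Lb.g g5 (@Lb.g g4 (@Lb.d (nat_lit 8) (nat_lit 16) (nat_lit 22) (@Lb.t (@Lb.fp (nat_lit 9) t3368)))))))))
noncomputable def l40961 : Lb := (@Lb.d (nat_lit 2) (nat_lit 4) (nat_lit 138) (@Lb.g g8 (@Lb.g g9 (@Lb.g g10 (@Lb.g g11 (@Lb.r r1699 (@Lb.r r2216 (@Lb.r r2666 (@Lb.r r25 (@Lb.d (nat_lit 362) (nat_lit 89) (nat_lit 660) (@Lb.fp (nat_lit 9) t5838)))))))))))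
noncomputable def l40962 : Lb := (@Lb.r r81 (@Lb.r r323 (@Lb.d (nat_lit 645) (nat_lit 0) (nat_lit 42) (@Lb.g g4 (@Lb.g g6 (@Lb.r r1381 (@Lb.r r2587 (@Lb.d (nat_lit 0) (nat_lit 81) (nat_lit 582) (@Lb.fm (nat_lit 3) t5821)))))))))
noncomputable def l40963 : Lb := (@Lb.d (nat_lit 645) (nat_lit 257) (nat_lit 64) (@Lb.r r267 (@Lb.g g4 (@Lb.d (nat_lit 322) (nat_lit 0) (nat_lit 0) (@Lb.r r263 (@Lb.t (@Lb.fm (nat_lit 3) t4219)))))))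
noncomputable def l40964 : Lb := (@Lb.d (nat_lit 0) (nat_lit 10) (nat_lit 128) (@Lb.g g9 (@Lb.g g11 (@Lb.r r2450 (@Lb.r r2659 (@Lb.r r1633 (@Lb.r r36 (@Lb.d (nat_lit 0) (nat_lit 89) (nat_lit 514) (@Lb.fp (nat_lit 3) t578)))))))))
noncomputable def l40965 : Lb := (@Lb.d (nat_lit 548) (nat_lit 42) (nat_lit 64) (@Lb.g g8 (@Lb.g g9 (@Lb.g g11 (@Lb.r r1699 (@Lb.r r2450 (@Lb.r r593 (@Lb.d (nat_lit 2) (nat_lit 137) (nat_lit 680) (@Lb.t (@Lb.fm (nat_lit 9) t764))))))))))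
noncomputable def l40966 : Lb := (@Lb.d (nat_lit 101) (nat_lit 548) (nat_lit 130) (@Lb.g g8 (@Lb.g g9 (@Lb.g g10 (@Lb.g g11 (@Lb.r r642 (@Lb.r r2443 (@Lb.r r2153 (@Lb.r r292 (@Lb.d (nat_lit 68) (nat_lit 73) (nat_lit 153) (@Lb.fp (nat_lit 9) t7070)))))))))))
noncomputable def l40967 : Lb := (@Lb.g g8 (@Lb.r r2145 (@Lb.d (nat_lit 294) (nat_lit 513) (nat_lit 2) (@Lb.t (@Lb.fm (nat_lit 3) t97)))))
noncomputable def l40968 : Lb := (@Lb.d (nat_lit 10) (nat_lit 256) (nat_lit 0) (@Lb.g g8 (@Lb.r r101 (@Lb.d (nat_lit 2) (nat_lit 8) (nat_lit 1) (@Lb.t (@Lb.fm (nat_lit 3) t97))))))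
noncomputable def l40969 : Lb := (@Lb.r r323 (@Lb.d (nat_lit 128) (nat_lit 66) (nat_lit 2) (@Lb.g g8 (@Lb.g g9 (@Lb.g g10 (@Lb.r r1623 (@Lb.r r2434 (@Lb.r r72 (@Lb.d (nat_lit 41) (nat_lit 82) (nat_lit 297) (@Lb.t (@Lb.fp (nat_lit 9) t2142)))))))))))
noncomputable def l40970 : Lb := (@Lb.d (nat_lit 424) (nat_lit 154) (nat_lit 6) (@Lb.r r597 (@Lb.r r296 (@Lb.r r418 (@Lb.g g11 (@Lb.g g5 (@Lb.d (nat_lit 0) (nat_lit 18) (nat_lit 264) (@Lb.r r578 (@Lb.fp (nat_lit 3) t1499)))))))))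
noncomputable def l40971 : Lb := (@Lb.r r82 (@Lb.d (nat_lit 130) (nat_lit 530) (nat_lit 128) (@Lb.g g8 (@Lb.g g9 (@Lb.g g11 (@Lb.r r1287 (@Lb.r r2456 (@Lb.r r682 (@Lb.r r673 (@Lb.d (nat_lit 613) (nat_lit 150) (nat_lit 149) (@Lb.t (@Lb.fp (nat_lit 9) t7074))))))))))))
noncomputable def l40972 : Lb := (@Lb.d (nat_lit 0) (nat_lit 6) (nat_lit 64) (@Lb.g g9 (@Lb.g g10 (@Lb.g g11 (@Lb.r r1707 (@Lb.r r1700 (@Lb.r r677 (@Lb.r r1638 (@Lb.d (nat_lit 9) (nat_lit 82) (nat_lit 530) (@Lb.t (@Lb.fm (nat_lit 9) t1915)))))))))))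
noncomputable def l40973 : Lb := (@Lb.d (nat_lit 165) (nat_lit 296) (nat_lit 6) (@Lb.r r680 (@Lb.r r427 (@Lb.r r345 (@Lb.g g10 (@Lb.g g4 (@Lb.d (nat_lit 69) (nat_lit 0) (nat_lit 22) (@Lb.r r145 (@Lb.fm (nat_lit 3) t564)))))))))
noncomputable def l40974 : Lb := (@Lb.d (nat_lit 144) (nat_lit 132) (nat_lit 402) (@Lb.r r386 (@Lb.r r2387 (@Lb.r r549 (@Lb.g g7 (@Lb.g g5 (@Lb.g g8 (@Lb.d (nat_lit 320) (nat_lit 1) (nat_lit 64) (@Lb.r r98 (@Lb.t (@Lb.fm (nat_lit 9) t2953)))))))))))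
noncomputable def l40975 : Lb := (@Lb.d (nat_lit 1) (nat_lit 322) (nat_lit 73) (@Lb.g g4 (@Lb.g g9 (@Lb.g g10 (@Lb.g g11 (@Lb.r r1638 (@Lb.r r579 (@Lb.d (nat_lit 680) (nat_lit 161) (nat_lit 90) (@Lb.fp (nat_lit 9) t4954)))))))))
noncomputable def l40976 : Lb := (@Lb.r r277 (@Lb.d (nat_lit 517) (nat_lit 0) (nat_lit 66) (@Lb.g g8 (@Lb.g g10 (@Lb.g g11 (@Lb.r r594 (@Lb.r r409 (@Lb.r r1319 (@Lb.d (nat_lit 678) (nat_lit 166) (nat_lit 584) (@Lb.t (@Lb.fm (nat_lit 9) t3335)))))))))))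
noncomputable def l40977 : Lb := (@Lb.d (nat_lit 389) (nat_lit 17) (nat_lit 153) (@Lb.r r134 (@Lb.r r539 (@Lb.r r532 (@Lb.r r345 (@Lb.g g7 (@Lb.g g5 (@Lb.d (nat_lit 64) (nat_lit 2) (nat_lit 128) (@Lb.fm (nat_lit 3) t1602)))))))))
noncomputable def l40978 : Lb := (@Lb.r r323 (@Lb.d (nat_lit 8) (nat_lit 65) (nat_lit 2) (@Lb.g g4 (@Lb.g g9 (@Lb.g g10 (@Lb.r r354 (@Lb.r r387 (@Lb.d (nat_lit 0) (nat_lit 33) (nat_lit 74) (@Lb.t (@Lb.fp (nat_lit 9) t51))))))))))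
noncomputable def l40979 : Lb := (@Lb.r r323 (@Lb.d (nat_lit 98) (nat_lit 518) (nat_lit 2) (@Lb.g g8 (@Lb.g g9 (@Lb.g g10 (@Lb.r r2713 (@Lb.r r1691 (@Lb.r r678 (@Lb.r r1364 (@Lb.d (nat_lit 649) (nat_lit 164) (nat_lit 353) (@Lb.t (@Lb.fm (nat_lit 9) t7075))))))))))))
noncomputable def l40980 : Lb := (@Lb.r r323 (@Lb.d (nat_lit 0) (nat_lit 513) (nat_lit 2) (@Lb.g g9 (@Lb.g g10 (@Lb.r r2468 (@Lb.r r1627 (@Lb.r r2449 (@Lb.r r2450 (@Lb.d (nat_lit 10) (nat_lit 41) (nat_lit 665) (@Lb.fm (nat_lit 3) t1403))))))))))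
noncomputable def l40981 : Lb := (@Lb.d (nat_lit 148) (nat_lit 256) (nat_lit 10) (@Lb.g g8 (@Lb.g g9 (@Lb.g g10 (@Lb.g g11 (@Lb.r r342 (@Lb.r r663 (@Lb.r r2657 (@Lb.r r1048 (@Lb.d (nat_lit 168) (nat_lit 153) (nat_lit 617) (@Lb.fm (nat_lit 9) t6098)))))))))))
noncomputable def l40982 : Lb := (@Lb.r r21 (@Lb.r r70 (@Lb.d (nat_lit 130) (nat_lit 0) (nat_lit 0) (@Lb.g g4 (@Lb.r r74 (@Lb.r r25 (@Lb.d (nat_lit 65) (nat_lit 0) (nat_lit 0) (@Lb.t (@Lb.fm (nat_lit 3) t3898)))))))))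
noncomputable def l40983 : Lb := (@Lb.r r21 (@Lb.r r70 (@Lb.d (nat_lit 657) (nat_lit 256) (nat_lit 128) (@Lb.g g8 (@Lb.g g11 (@Lb.r r1419 (@Lb.r r74 (@Lb.r r25 (@Lb.d (nat_lit 354) (nat_lit 5) (nat_lit 42) (@Lb.fm (nat_lit 3) t3790))))))))))
noncomputable def l40984 : Lb := (@Lb.r r616 (@Lb.r r2665 (@Lb.r r2390 (@Lb.r r1188 (@Lb.d (nat_lit 5) (nat_lit 320) (nat_lit 512) (@Lb.fp (nat_lit 1) t748))))))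
noncomputable def l40985 : Lb := (@Lb.r r21 (@Lb.r r70 (@Lb.d (nat_lit 658) (nat_lit 512) (nat_lit 256) (@Lb.g g4 (@Lb.g g7 (@Lb.r r2454 (@Lb.r r97 (@Lb.d (nat_lit 6) (nat_lit 128) (nat_lit 389) (@Lb.fm (nat_lit 3) t2537)))))))))
noncomputable def l40986 : Lb := (@Lb.d (nat_lit 8) (nat_lit 4) (nat_lit 128) (@Lb.g g9 (@Lb.g g10 (@Lb.g g11 (@Lb.r r1130 (@Lb.r r24 (@Lb.r r1685 (@Lb.r r1427 (@Lb.d (nat_lit 545) (nat_lit 90) (nat_lit 601) (@Lb.t (@Lb.fp (nat_lit 9) t4458)))))))))))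
noncomputable def l40987 : Lb := (@Lb.d (nat_lit 2) (nat_lit 289) (nat_lit 66) (@Lb.g g8 (@Lb.g g9 (@Lb.g g10 (@Lb.g g11 (@Lb.r r427 (@Lb.r r2630 (@Lb.r r1444 (@Lb.r r149 (@Lb.d (nat_lit 274) (nat_lit 68) (nat_lit 32) (@Lb.fp (nat_lit 9) t7076)))))))))))
noncomputable def l40988 : Lb := (@Lb.d (nat_lit 128) (nat_lit 512) (nat_lit 265) (@Lb.g g10 (@Lb.g g7 (@Lb.r r2632 (@Lb.r r2438 (@Lb.r r1057 (@Lb.d (nat_lit 676) (nat_lit 8) (nat_lit 265) (@Lb.fm (nat_lit 3) t620))))))))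
noncomputable def l40989 : Lb := (@Lb.d (nat_lit 129) (nat_lit 258) (nat_lit 130) (@Lb.g g8 (@Lb.g g9 (@Lb.g g10 (@Lb.g g11 (@Lb.r r419 (@Lb.r r164 (@Lb.r r2438 (@Lb.r r97 (@Lb.d (nat_lit 354) (nat_lit 34) (nat_lit 602) (@Lb.fp (nat_lit 9) t6165)))))))))))
noncomputable def l40990 : Lb := (@Lb.d (nat_lit 9) (nat_lit 1) (nat_lit 2) (@Lb.g g8 (@Lb.g g9 (@Lb.g g10 (@Lb.r r1626 (@Lb.r r2659 (@Lb.r r97 (@Lb.r r2436 (@Lb.d (nat_lit 593) (nat_lit 138) (nat_lit 392) (@Lb.t (@Lb.fm (nat_lit 9) t7077)))))))))))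
noncomputable def l40991 : Lb := (@Lb.d (nat_lit 8) (nat_lit 9) (nat_lit 0) (@Lb.g g9 (@Lb.r r1114 (@Lb.r r1624 (@Lb.r r1291 (@Lb.r r1425 (@Lb.d (nat_lit 2) (nat_lit 90) (nat_lit 137) (@Lb.t (@Lb.fm (nat_lit 3) t322)))))))))
noncomputable def l40992 : Lb := (@Lb.r r326 (@Lb.d (nat_lit 266) (nat_lit 33) (nat_lit 64) (@Lb.g g8 (@Lb.g g9 (@Lb.g g11 (@Lb.r r291 (@Lb.r r153 (@Lb.r r2194 (@Lb.d (nat_lit 673) (nat_lit 0) (nat_lit 422) (@Lb.t (@Lb.fp (nat_lit 9) t3545)))))))))))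
noncomputable def l40993 : Lb := (@Lb.g g5 (@Lb.r r1291 (@Lb.r r24 (@Lb.d (nat_lit 581) (nat_lit 545) (nat_lit 384) (@Lb.t (@Lb.fp (nat_lit 3) t1855))))))
noncomputable def l40994 : Lb := (@Lb.d (nat_lit 0) (nat_lit 290) (nat_lit 130) (@Lb.g g9 (@Lb.g g10 (@Lb.g g11 (@Lb.r r387 (@Lb.r r2468 (@Lb.r r2438 (@Lb.r r2145 (@Lb.d (nat_lit 337) (nat_lit 137) (nat_lit 296) (@Lb.t (@Lb.fm (nat_lit 9) t2550)))))))))))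
noncomputable def l40995 : Lb := (@Lb.d (nat_lit 9) (nat_lit 257) (nat_lit 130) (@Lb.g g8 (@Lb.g g9 (@Lb.g g10 (@Lb.g g11 (@Lb.r r2454 (@Lb.r r343 (@Lb.r r2457 (@Lb.r r2436 (@Lb.d (nat_lit 404) (nat_lit 42) (nat_lit 17) (@Lb.fm (nat_lit 9) t4512)))))))))))
noncomputable def l40996 : Lb := (@Lb.d (nat_lit 144) (nat_lit 36) (nat_lit 64) (@Lb.g g8 (@Lb.g g9 (@Lb.g g10 (@Lb.g g11 (@Lb.r r419 (@Lb.r r1610 (@Lb.r r1624 (@Lb.r r293 (@Lb.d (nat_lit 518) (nat_lit 168) (nat_lit 594) (@Lb.fp (nat_lit 9) t163)))))))))))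
noncomputable def l40997 : Lb := (@Lb.d (nat_lit 514) (nat_lit 128) (nat_lit 512) (@Lb.r r2340 (@Lb.r r2130 (@Lb.r r1563 (@Lb.g g7 (@Lb.g g9 (@Lb.g g4 (@Lb.d (nat_lit 10) (nat_lit 2) (nat_lit 64) (@Lb.r r74 (@Lb.t (@Lb.fp (nat_lit 9) t5202)))))))))))
noncomputable def l40998 : Lb := (@Lb.d (nat_lit 401) (nat_lit 360) (nat_lit 358) (@Lb.r r134 (@Lb.r r2388 (@Lb.g g7 (@Lb.g g5 (@Lb.g g4 (@Lb.d (nat_lit 9) (nat_lit 145) (nat_lit 64) (@Lb.r r614 (@Lb.t (@Lb.fm (nat_lit 9) t3666))))))))))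
noncomputable def l40999 : Lb := (@Lb.d (nat_lit 146) (nat_lit 386) (nat_lit 64) (@Lb.g g8 (@Lb.g g9 (@Lb.g g10 (@Lb.g g11 (@Lb.r r1451 (@Lb.r r404 (@Lb.r r2134 (@Lb.d (nat_lit 5) (nat_lit 9) (nat_lit 425) (@Lb.fp (nat_lit 9) t3044))))))))))
noncomputable def l41000 : Lb := (@Lb.d (nat_lit 554) (nat_lit 265) (nat_lit 17) (@Lb.r r597 (@Lb.r r1386 (@Lb.r r1096 (@Lb.r r1371 (@Lb.g g7 (@Lb.g g6 (@Lb.g g5 (@Lb.d (nat_lit 4) (nat_lit 1) (nat_lit 64) (@Lb.t (@Lb.fm (nat_lit 9) t946)))))))))))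
noncomputable def l41001 : Lb := (@Lb.r r21 (@Lb.r r70 (@Lb.r r263 (@Lb.g g8 (@Lb.r r267 (@Lb.r r74 (@Lb.r r97 (@Lb.d (nat_lit 258) (nat_lit 641) (nat_lit 18) (@Lb.t (@Lb.fm (nat_lit 3) t1448))))))))))
noncomputable def l41002 : Lb := (@Lb.d (nat_lit 642) (nat_lit 514) (nat_lit 130) (@Lb.g g8 (@Lb.g g9 (@Lb.g g10 (@Lb.g g11 (@Lb.r r1451 (@Lb.r r106 (@Lb.r r25 (@Lb.d (nat_lit 8) (nat_lit 9) (nat_lit 425) (@Lb.fp (nat_lit 9) t1792))))))))))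
noncomputable def l41003 : Lb := (@Lb.d (nat_lit 0) (nat_lit 514) (nat_lit 130) (@Lb.g g8 (@Lb.g g9 (@Lb.g g10 (@Lb.g g11 (@Lb.r r427 (@Lb.r r420 (@Lb.r r2438 (@Lb.r r97 (@Lb.d (nat_lit 609) (nat_lit 73) (nat_lit 281) (@Lb.fp (nat_lit 9) t188)))))))))))
noncomputable def l41004 : Lb := (@Lb.r r323 (@Lb.d (nat_lit 1) (nat_lit 66) (nat_lit 0) (@Lb.g g4 (@Lb.g g9 (@Lb.g g10 (@Lb.r r2471 (@Lb.r r98 (@Lb.d (nat_lit 256) (nat_lit 9) (nat_lit 2) (@Lb.t (@Lb.fp (nat_lit 9) t1082))))))))))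
noncomputable def l41005 : Lb := (@Lb.g g7 (@Lb.r r597 (@Lb.r r1386 (@Lb.r r407 (@Lb.r r1096 (@Lb.d (nat_lit 581) (nat_lit 513) (nat_lit 336) (@Lb.t (@Lb.fp (nat_lit 3) t2238))))))))
noncomputable def l41006 : Lb := (@Lb.d (nat_lit 394) (nat_lit 274) (nat_lit 25) (@Lb.r r134 (@Lb.r r539 (@Lb.r r532 (@Lb.r r345 (@Lb.g g7 (@Lb.g g5 (@Lb.d (nat_lit 64) (nat_lit 2) (nat_lit 128) (@Lb.fm (nat_lit 3) t1602)))))))))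
noncomputable def l41007 : Lb := (@Lb.d (nat_lit 18) (nat_lit 421) (nat_lit 646) (@Lb.r r20 (@Lb.r r25 (@Lb.r r148 (@Lb.r r386 (@Lb.g g11 (@Lb.g g6 (@Lb.g g5 (@Lb.g g4 (@Lb.d (nat_lit 6) (nat_lit 9) (nat_lit 128) (@Lb.fp (nat_lit 9) t2147)))))))))))
noncomputable def l41008 : Lb := (@Lb.g g7 (@Lb.d (nat_lit 5) (nat_lit 513) (nat_lit 0) (@Lb.t (@Lb.fm (nat_lit 3) t2))))
noncomputable def l41009 : Lb := (@Lb.r r82 (@Lb.r r275 (@Lb.d (nat_lit 6) (nat_lit 321) (nat_lit 0) (@Lb.g g4 (@Lb.g g9 (@Lb.r r2343 (@Lb.r r98 (@Lb.d (nat_lit 258) (nat_lit 2) (nat_lit 0) (@Lb.fp (nat_lit 3) t419)))))))))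
noncomputable def l41010 : Lb := (@Lb.d (nat_lit 42) (nat_lit 512) (nat_lit 128) (@Lb.g g8 (@Lb.g g11 (@Lb.r r677 (@Lb.r r2726 (@Lb.r r1703 (@Lb.r r2392 (@Lb.d (nat_lit 522) (nat_lit 82) (nat_lit 390) (@Lb.fm (nat_lit 3) t2014)))))))))
noncomputable def l41011 : Lb := (@Lb.r r2331 (@Lb.r r24 (@Lb.d (nat_lit 257) (nat_lit 320) (nat_lit 0) (@Lb.fm (nat_lit 1) t469))))
noncomputable def l41012 : Lb := (@Lb.d (nat_lit 0) (nat_lit 514) (nat_lit 137) (@Lb.g g9 (@Lb.g g10 (@Lb.g g11 (@Lb.r r1699 (@Lb.r r673 (@Lb.r r162 (@Lb.r r2193 (@Lb.d (nat_lit 352) (nat_lit 72) (nat_lit 100) (@Lb.t (@Lb.fp (nat_lit 9) t2146)))))))))))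
noncomputable def l41013 : Lb := (@Lb.d (nat_lit 33) (nat_lit 5) (nat_lit 138) (@Lb.g g8 (@Lb.g g5 (@Lb.g g10 (@Lb.g g11 (@Lb.r r1683 (@Lb.r r1602 (@Lb.r r1048 (@Lb.d (nat_lit 521) (nat_lit 24) (nat_lit 537) (@Lb.fm (nat_lit 9) t98))))))))))
noncomputable def l41014 : Lb := (@Lb.d (nat_lit 2) (nat_lit 294) (nat_lit 128) (@Lb.g g8 (@Lb.g g9 (@Lb.g g10 (@Lb.g g11 (@Lb.r r425 (@Lb.r r2647 (@Lb.r r346 (@Lb.r r2129 (@Lb.r r2436 (@Lb.d (nat_lit 105) (nat_lit 1) (nat_lit 154) (@Lb.fp (nat_lit 9) t5331))))))))))))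
noncomputable def l41015 : Lb := (@Lb.d (nat_lit 2) (nat_lit 260) (nat_lit 0) (@Lb.g g8 (@Lb.g g9 (@Lb.g g10 (@Lb.g g11 (@Lb.r r425 (@Lb.r r599 (@Lb.r r2394 (@Lb.r r81 (@Lb.r r2436 (@Lb.d (nat_lit 105) (nat_lit 65) (nat_lit 666) (@Lb.fp (nat_lit 9) t5755))))))))))))
noncomputable def l41016 : Lb := (@Lb.d (nat_lit 0) (nat_lit 256) (nat_lit 66) (@Lb.g g10 (@Lb.g g7 (@Lb.r r2458 (@Lb.r r101 (@Lb.d (nat_lit 261) (nat_lit 98) (nat_lit 512) (@Lb.fp (nat_lit 3) t2098)))))))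
noncomputable def l41017 : Lb := (@Lb.d (nat_lit 0) (nat_lit 0) (nat_lit 66) (@Lb.g g8 (@Lb.g g10 (@Lb.g g11 (@Lb.r r419 (@Lb.r r386 (@Lb.d (nat_lit 0) (nat_lit 98) (nat_lit 18) (@Lb.t (@Lb.fp (nat_lit 9) t305)))))))))
noncomputable def l41018 : Lb := (@Lb.d (nat_lit 330) (nat_lit 600) (nat_lit 522) (@Lb.r r2583 (@Lb.r r1384 (@Lb.r r361 (@Lb.r r1622 (@Lb.g g7 (@Lb.d (nat_lit 64) (nat_lit 16) (nat_lit 132) (@Lb.t (@Lb.fp (nat_lit 3) t188)))))))))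
noncomputable def l41019 : Lb := (@Lb.d (nat_lit 130) (nat_lit 265) (nat_lit 1) (@Lb.g g8 (@Lb.g g9 (@Lb.g g10 (@Lb.r r1623 (@Lb.r r426 (@Lb.r r345 (@Lb.r r324 (@Lb.d (nat_lit 649) (nat_lit 9) (nat_lit 660) (@Lb.t (@Lb.fm (nat_lit 9) t7078)))))))))))
noncomputable def l41020 : Lb := (@Lb.d (nat_lit 2) (nat_lit 513) (nat_lit 64) (@Lb.g g8 (@Lb.g g9 (@Lb.g g11 (@Lb.r r1559 (@Lb.r r1637 (@Lb.r r2394 (@Lb.r r2436 (@Lb.d (nat_lit 160) (nat_lit 0) (nat_lit 393) (@Lb.t (@Lb.fm (nat_lit 9) t1346)))))))))))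
noncomputable def l41021 : Lb := (@Lb.d (nat_lit 2) (nat_lit 521) (nat_lit 65) (@Lb.g g8 (@Lb.g g9 (@Lb.g g10 (@Lb.g g11 (@Lb.r r610 (@Lb.r r1607 (@Lb.r r2457 (@Lb.r r2436 (@Lb.d (nat_lit 168) (nat_lit 9) (nat_lit 393) (@Lb.fm (nat_lit 9) t460)))))))))))
noncomputable def l41022 : Lb := (@Lb.d (nat_lit 4) (nat_lit 546) (nat_lit 2) (@Lb.g g8 (@Lb.g g9 (@Lb.g g10 (@Lb.r r1619 (@Lb.r r418 (@Lb.r r337 (@Lb.d (nat_lit 609) (nat_lit 17) (nat_lit 132) (@Lb.t (@Lb.fm (nat_lit 9) t2215))))))))))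
noncomputable def l41023 : Lb := (@Lb.d (nat_lit 0) (nat_lit 545) (nat_lit 66) (@Lb.g g8 (@Lb.g g9 (@Lb.g g10 (@Lb.g g11 (@Lb.r r387 (@Lb.r r386 (@Lb.r r1561 (@Lb.d (nat_lit 346) (nat_lit 106) (nat_lit 673) (@Lb.fm (nat_lit 9) t6457))))))))))
noncomputable def l41024 : Lb := (@Lb.d (nat_lit 289) (nat_lit 544) (nat_lit 128) (@Lb.g g4 (@Lb.g g11 (@Lb.r r1361 (@Lb.r r1699 (@Lb.r r2178 (@Lb.d (nat_lit 288) (nat_lit 24) (nat_lit 408) (@Lb.fp (nat_lit 3) t2551))))))))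
noncomputable def l41025 : Lb := (@Lb.d (nat_lit 1) (nat_lit 322) (nat_lit 74) (@Lb.g g4 (@Lb.g g9 (@Lb.g g10 (@Lb.g g11 (@Lb.r r610 (@Lb.r r579 (@Lb.d (nat_lit 0) (nat_lit 33) (nat_lit 74) (@Lb.fp (nat_lit 9) t51)))))))))
noncomputable def l41026 : Lb := (@Lb.r r82 (@Lb.d (nat_lit 132) (nat_lit 0) (nat_lit 64) (@Lb.g g8 (@Lb.g g9 (@Lb.g g11 (@Lb.r r1124 (@Lb.r r618 (@Lb.r r609 (@Lb.r r2339 (@Lb.d (nat_lit 608) (nat_lit 104) (nat_lit 73) (@Lb.t (@Lb.fp (nat_lit 9) t3226))))))))))))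
noncomputable def l41027 : Lb := (@Lb.d (nat_lit 2) (nat_lit 2) (nat_lit 73) (@Lb.g g8 (@Lb.g g9 (@Lb.g g10 (@Lb.g g11 (@Lb.r r2691 (@Lb.r r297 (@Lb.r r360 (@Lb.r r582 (@Lb.r r2180 (@Lb.d (nat_lit 646) (nat_lit 8) (nat_lit 329) (@Lb.fm (nat_lit 9) t1425))))))))))))
noncomputable def l41028 : Lb := (@Lb.r r82 (@Lb.d (nat_lit 34) (nat_lit 33) (nat_lit 64) (@Lb.g g8 (@Lb.g g9 (@Lb.g g11 (@Lb.r r2665 (@Lb.r r150 (@Lb.r r616 (@Lb.r r587 (@Lb.d (nat_lit 550) (nat_lit 32) (nat_lit 266) (@Lb.t (@Lb.fm (nat_lit 9) t2545))))))))))))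
noncomputable def l41029 : Lb := (@Lb.d (nat_lit 1) (nat_lit 32) (nat_lit 64) (@Lb.g g8 (@Lb.g g11 (@Lb.r r2337 (@Lb.r r531 (@Lb.r r2658 (@Lb.r r1304 (@Lb.d (nat_lit 645) (nat_lit 80) (nat_lit 576) (@Lb.fp (nat_lit 3) t303)))))))))
noncomputable def l41030 : Lb := (@Lb.r r20 (@Lb.r r82 (@Lb.d (nat_lit 4) (nat_lit 353) (nat_lit 72) (@Lb.g g5 (@Lb.g g11 (@Lb.r r1624 (@Lb.r r2438 (@Lb.r r1611 (@Lb.d (nat_lit 618) (nat_lit 10) (nat_lit 513) (@Lb.fm (nat_lit 3) t3577))))))))))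
noncomputable def l41031 : Lb := (@Lb.d (nat_lit 9) (nat_lit 518) (nat_lit 74) (@Lb.g g8 (@Lb.g g9 (@Lb.g g10 (@Lb.g g11 (@Lb.r r675 (@Lb.r r2216 (@Lb.r r665 (@Lb.r r154 (@Lb.d (nat_lit 342) (nat_lit 168) (nat_lit 329) (@Lb.fm (nat_lit 9) t7079)))))))))))
noncomputable def l41032 : Lb := (@Lb.d (nat_lit 154) (nat_lit 514) (nat_lit 162) (@Lb.g g8 (@Lb.g g9 (@Lb.g g10 (@Lb.g g11 (@Lb.r r657 (@Lb.r r1427 (@Lb.r r529 (@Lb.r r2180 (@Lb.d (nat_lit 98) (nat_lit 74) (nat_lit 528) (@Lb.fp (nat_lit 9) t4293)))))))))))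
noncomputable def l41033 : Lb := (@Lb.d (nat_lit 586) (nat_lit 282) (nat_lit 37) (@Lb.r r662 (@Lb.r r2401 (@Lb.r r647 (@Lb.r r328 (@Lb.g g7 (@Lb.g g6 (@Lb.d (nat_lit 16) (nat_lit 0) (nat_lit 128) (@Lb.fm (nat_lit 3) t2996)))))))))
noncomputable def l41034 : Lb := (@Lb.d (nat_lit 9) (nat_lit 1) (nat_lit 73) (@Lb.g g8 (@Lb.g g9 (@Lb.g g10 (@Lb.g g11 (@Lb.r r675 (@Lb.r r2216 (@Lb.r r665 (@Lb.r r154 (@Lb.d (nat_lit 342) (nat_lit 168) (nat_lit 329) (@Lb.fm (nat_lit 9) t7058)))))))))))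
noncomputable def l41035 : Lb := (@Lb.d (nat_lit 9) (nat_lit 513) (nat_lit 0) (@Lb.g g8 (@Lb.g g9 (@Lb.r r1579 (@Lb.r r162 (@Lb.r r145 (@Lb.r r1608 (@Lb.d (nat_lit 105) (nat_lit 4) (nat_lit 664) (@Lb.fp (nat_lit 3) t1082)))))))))
noncomputable def l41036 : Lb := (@Lb.d (nat_lit 9) (nat_lit 6) (nat_lit 74) (@Lb.g g8 (@Lb.g g9 (@Lb.g g10 (@Lb.g g11 (@Lb.r r675 (@Lb.r r2216 (@Lb.r r665 (@Lb.r r154 (@Lb.d (nat_lit 337) (nat_lit 170) (nat_lit 329) (@Lb.fm (nat_lit 9) t7079)))))))))))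
noncomputable def l41037 : Lb := (@Lb.d (nat_lit 20) (nat_lit 325) (nat_lit 32) (@Lb.r r2196 (@Lb.r r153 (@Lb.r r323 (@Lb.g g10 (@Lb.g g4 (@Lb.d (nat_lit 18) (nat_lit 4) (nat_lit 34) (@Lb.r r387 (@Lb.r r145 (@Lb.fp (nat_lit 3) t1608))))))))))
noncomputable def l41038 : Lb := (@Lb.r r82 (@Lb.d (nat_lit 10) (nat_lit 34) (nat_lit 64) (@Lb.g g8 (@Lb.g g9 (@Lb.g g11 (@Lb.r r1543 (@Lb.r r1626 (@Lb.r r2341 (@Lb.r r24 (@Lb.d (nat_lit 74) (nat_lit 145) (nat_lit 133) (@Lb.t (@Lb.fp (nat_lit 9) t1727))))))))))))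
noncomputable def l41039 : Lb := (@Lb.r r82 (@Lb.d (nat_lit 10) (nat_lit 546) (nat_lit 64) (@Lb.g g8 (@Lb.g g9 (@Lb.g g11 (@Lb.r r1543 (@Lb.r r1172 (@Lb.r r2438 (@Lb.r r1313 (@Lb.d (nat_lit 6) (nat_lit 90) (nat_lit 325) (@Lb.t (@Lb.fp (nat_lit 9) t1006))))))))))))
noncomputable def l41040 : Lb := (@Lb.d (nat_lit 10) (nat_lit 290) (nat_lit 66) (@Lb.g g8 (@Lb.g g9 (@Lb.g g10 (@Lb.g g11 (@Lb.r r1543 (@Lb.r r1446 (@Lb.r r1380 (@Lb.r r1301 (@Lb.d (nat_lit 160) (nat_lit 97) (nat_lit 325) (@Lb.fp (nat_lit 9) t2301)))))))))))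
noncomputable def l41041 : Lb := (@Lb.r r82 (@Lb.d (nat_lit 10) (nat_lit 290) (nat_lit 64) (@Lb.g g8 (@Lb.g g9 (@Lb.g g11 (@Lb.r r1543 (@Lb.r r1172 (@Lb.r r2438 (@Lb.r r1313 (@Lb.d (nat_lit 0) (nat_lit 26) (nat_lit 325) (@Lb.t (@Lb.fp (nat_lit 9) t501))))))))))))
noncomputable def l41042 : Lb := (@Lb.d (nat_lit 2) (nat_lit 546) (nat_lit 2) (@Lb.g g8 (@Lb.g g9 (@Lb.g g10 (@Lb.r r1675 (@Lb.r r1194 (@Lb.r r2465 (@Lb.d (nat_lit 425) (nat_lit 84) (nat_lit 666) (@Lb.t (@Lb.fp (nat_lit 9) t172))))))))))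
noncomputable def l41043 : Lb := (@Lb.r r21 (@Lb.d (nat_lit 6) (nat_lit 520) (nat_lit 2) (@Lb.g g8 (@Lb.g g10 (@Lb.r r1691 (@Lb.r r1381 (@Lb.r r2202 (@Lb.d (nat_lit 329) (nat_lit 9) (nat_lit 660) (@Lb.fp (nat_lit 3) t172)))))))))
noncomputable def l41044 : Lb := (@Lb.d (nat_lit 6) (nat_lit 646) (nat_lit 33) (@Lb.r r597 (@Lb.r r279 (@Lb.r r584 (@Lb.r r326 (@Lb.g g7 (@Lb.g g6 (@Lb.g g5 (@Lb.d (nat_lit 4) (nat_lit 8) (nat_lit 64) (@Lb.t (@Lb.fm (nat_lit 9) t424)))))))))))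
noncomputable def l41045 : Lb := (@Lb.d (nat_lit 10) (nat_lit 1) (nat_lit 0) (@Lb.g g8 (@Lb.g g9 (@Lb.r r1579 (@Lb.r r162 (@Lb.r r145 (@Lb.r r1608 (@Lb.d (nat_lit 105) (nat_lit 9) (nat_lit 665) (@Lb.fp (nat_lit 3) t1082)))))))))
noncomputable def l41046 : Lb := (@Lb.d (nat_lit 26) (nat_lit 9) (nat_lit 73) (@Lb.g g8 (@Lb.g g9 (@Lb.g g10 (@Lb.g g11 (@Lb.r r2201 (@Lb.r r644 (@Lb.r r295 (@Lb.r r1170 (@Lb.r r516 (@Lb.d (nat_lit 10) (nat_lit 73) (nat_lit 162) (@Lb.fm (nat_lit 9) t979))))))))))))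
noncomputable def l41047 : Lb := (@Lb.d (nat_lit 138) (nat_lit 1) (nat_lit 0) (@Lb.g g8 (@Lb.g g9 (@Lb.r r1303 (@Lb.r r162 (@Lb.r r145 (@Lb.r r2664 (@Lb.d (nat_lit 358) (nat_lit 21) (nat_lit 297) (@Lb.fm (nat_lit 3) t334)))))))))
noncomputable def l41048 : Lb := (@Lb.d (nat_lit 514) (nat_lit 0) (nat_lit 26) (@Lb.r r154 (@Lb.r r404 (@Lb.r r363 (@Lb.r r353 (@Lb.g g7 (@Lb.g g6 (@Lb.g g4 (@Lb.d (nat_lit 4) (nat_lit 4) (nat_lit 129) (@Lb.t (@Lb.fp (nat_lit 9) t334)))))))))))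
noncomputable def l41049 : Lb := (@Lb.d (nat_lit 665) (nat_lit 65) (nat_lit 645) (@Lb.r r2660 (@Lb.r r1637 (@Lb.r r346 (@Lb.g g7 (@Lb.g g4 (@Lb.d (nat_lit 21) (nat_lit 0) (nat_lit 132) (@Lb.fp (nat_lit 3) t1561))))))))
noncomputable def l41050 : Lb := (@Lb.r r82 (@Lb.d (nat_lit 133) (nat_lit 256) (nat_lit 128) (@Lb.g g8 (@Lb.g g9 (@Lb.g g11 (@Lb.r r1643 (@Lb.r r386 (@Lb.r r89 (@Lb.r r2392 (@Lb.d (nat_lit 164) (nat_lit 152) (nat_lit 662) (@Lb.t (@Lb.fp (nat_lit 9) t7080))))))))))))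
noncomputable def l41051 : Lb := (@Lb.d (nat_lit 609) (nat_lit 10) (nat_lit 586) (@Lb.r r24 (@Lb.r r2405 (@Lb.r r386 (@Lb.r r2595 (@Lb.g g7 (@Lb.g g6 (@Lb.g g5 (@Lb.d (nat_lit 0) (nat_lit 42) (nat_lit 0) (@Lb.t (@Lb.fp (nat_lit 9) t1444)))))))))))
noncomputable def l41052 : Lb := (@Lb.d (nat_lit 144) (nat_lit 520) (nat_lit 137) (@Lb.r r340 (@Lb.r r85 (@Lb.r r362 (@Lb.g g7 (@Lb.g g5 (@Lb.g g4 (@Lb.d (nat_lit 24) (nat_lit 16) (nat_lit 64) (@Lb.r r586 (@Lb.t (@Lb.fp (nat_lit 9) t3216)))))))))))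
noncomputable def l41053 : Lb := (@Lb.d (nat_lit 0) (nat_lit 512) (nat_lit 130) (@Lb.g g8 (@Lb.g g9 (@Lb.g g10 (@Lb.g g11 (@Lb.r r586 (@Lb.r r584 (@Lb.r r299 (@Lb.r r409 (@Lb.d (nat_lit 2) (nat_lit 74) (nat_lit 18) (@Lb.fm (nat_lit 9) t1022)))))))))))
noncomputable def l41054 : Lb := (@Lb.d (nat_lit 36) (nat_lit 0) (nat_lit 128) (@Lb.g g8 (@Lb.g g9 (@Lb.g g11 (@Lb.r r406 (@Lb.r r1643 (@Lb.r r97 (@Lb.r r1560 (@Lb.d (nat_lit 66) (nat_lit 96) (nat_lit 548) (@Lb.t (@Lb.fm (nat_lit 9) t564)))))))))))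
noncomputable def l41055 : Lb := (@Lb.d (nat_lit 134) (nat_lit 10) (nat_lit 129) (@Lb.g g8 (@Lb.g g9 (@Lb.g g10 (@Lb.g g11 (@Lb.r r1706 (@Lb.r r1411 (@Lb.r r665 (@Lb.r r1156 (@Lb.d (nat_lit 617) (nat_lit 169) (nat_lit 161) (@Lb.fm (nat_lit 9) t1997)))))))))))
noncomputable def l41056 : Lb := (@Lb.d (nat_lit 134) (nat_lit 522) (nat_lit 129) (@Lb.g g8 (@Lb.g g9 (@Lb.g g10 (@Lb.g g11 (@Lb.r r342 (@Lb.r r663 (@Lb.r r2657 (@Lb.r r2584 (@Lb.d (nat_lit 168) (nat_lit 9) (nat_lit 517) (@Lb.fm (nat_lit 9) t7081)))))))))))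
noncomputable def l41057 : Lb := (@Lb.d (nat_lit 272) (nat_lit 0) (nat_lit 2) (@Lb.g g8 (@Lb.g g9 (@Lb.g g10 (@Lb.r r683 (@Lb.r r2666 (@Lb.r r537 (@Lb.d (nat_lit 73) (nat_lit 105) (nat_lit 529) (@Lb.t (@Lb.fp (nat_lit 9) t7082))))))))))
noncomputable def l41058 : Lb := (@Lb.d (nat_lit 677) (nat_lit 64) (nat_lit 554) (@Lb.r r24 (@Lb.r r2406 (@Lb.r r2133 (@Lb.r r1363 (@Lb.g g7 (@Lb.g g6 (@Lb.g g5 (@Lb.d (nat_lit 0) (nat_lit 6) (nat_lit 134) (@Lb.t (@Lb.fm (nat_lit 9) t311)))))))))))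
noncomputable def l41059 : Lb := (@Lb.r r70 (@Lb.d (nat_lit 1) (nat_lit 2) (nat_lit 64) (@Lb.g g8 (@Lb.g g9 (@Lb.g g11 (@Lb.r r2408 (@Lb.r r1687 (@Lb.r r2401 (@Lb.r r1170 (@Lb.d (nat_lit 5) (nat_lit 129) (nat_lit 130) (@Lb.t (@Lb.fm (nat_lit 9) t68))))))))))))
noncomputable def l41060 : Lb := (@Lb.d (nat_lit 2) (nat_lit 258) (nat_lit 130) (@Lb.g g8 (@Lb.g g9 (@Lb.g g10 (@Lb.g g11 (@Lb.r r2666 (@Lb.r r579 (@Lb.r r97 (@Lb.r r24 (@Lb.d (nat_lit 361) (nat_lit 9) (nat_lit 552) (@Lb.fm (nat_lit 9) t263)))))))))))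
noncomputable def l41061 : Lb := (@Lb.d (nat_lit 10) (nat_lit 40) (nat_lit 73) (@Lb.g g8 (@Lb.g g10 (@Lb.g g11 (@Lb.r r81 (@Lb.r r1442 (@Lb.r r2631 (@Lb.r r2308 (@Lb.d (nat_lit 600) (nat_lit 1) (nat_lit 530) (@Lb.t (@Lb.fm (nat_lit 9) t322)))))))))))
noncomputable def l41062 : Lb := (@Lb.d (nat_lit 522) (nat_lit 0) (nat_lit 170) (@Lb.r r1604 (@Lb.r r2073 (@Lb.r r2458 (@Lb.g g5 (@Lb.t (@Lb.fp (nat_lit 3) t3142)))))))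
noncomputable def l41063 : Lb := (@Lb.r r21 (@Lb.r r70 (@Lb.d (nat_lit 129) (nat_lit 32) (nat_lit 0) (@Lb.g g8 (@Lb.g g7 (@Lb.r r1617 (@Lb.r r1126 (@Lb.r r1432 (@Lb.d (nat_lit 352) (nat_lit 100) (nat_lit 154) (@Lb.fm (nat_lit 3) t1285))))))))))
noncomputable def l41064 : Lb := (@Lb.d (nat_lit 512) (nat_lit 256) (nat_lit 650) (@Lb.r r24 (@Lb.r r1383 (@Lb.r r293 (@Lb.r r1122 (@Lb.g g7 (@Lb.g g9 (@Lb.fp (nat_lit 3) t1399))))))))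
noncomputable def l41065 : Lb := (@Lb.g g4 (@Lb.r r402 (@Lb.r r2145 (@Lb.r r36 (@Lb.d (nat_lit 0) (nat_lit 386) (nat_lit 512) (@Lb.t (@Lb.fm (nat_lit 3) t940)))))))
noncomputable def l41066 : Lb := (@Lb.d (nat_lit 144) (nat_lit 512) (nat_lit 130) (@Lb.g g8 (@Lb.g g10 (@Lb.g g11 (@Lb.r r2391 (@Lb.r r1445 (@Lb.r r1620 (@Lb.r r2202 (@Lb.d (nat_lit 585) (nat_lit 86) (nat_lit 554) (@Lb.t (@Lb.fm (nat_lit 9) t5825)))))))))))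
noncomputable def l41067 : Lb := (@Lb.g g7 (@Lb.r r402 (@Lb.r r2145 (@Lb.r r36 (@Lb.d (nat_lit 10) (nat_lit 578) (nat_lit 512) (@Lb.t (@Lb.fm (nat_lit 3) t940)))))))
noncomputable def l41068 : Lb := (@Lb.d (nat_lit 9) (nat_lit 0) (nat_lit 128) (@Lb.g g8 (@Lb.g g10 (@Lb.g g11 (@Lb.r r2707 (@Lb.r r1045 (@Lb.r r360 (@Lb.r r582 (@Lb.d (nat_lit 513) (nat_lit 73) (nat_lit 18) (@Lb.t (@Lb.fm (nat_lit 9) t386)))))))))))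
noncomputable def l41069 : Lb := (@Lb.d (nat_lit 2) (nat_lit 548) (nat_lit 128) (@Lb.g g8 (@Lb.g g9 (@Lb.g g10 (@Lb.g g11 (@Lb.r r2730 (@Lb.r r2435 (@Lb.r r2212 (@Lb.r r2085 (@Lb.d (nat_lit 361) (nat_lit 154) (nat_lit 132) (@Lb.fp (nat_lit 9) t4984)))))))))))
noncomputable def l41070 : Lb := (@Lb.r r323 (@Lb.d (nat_lit 32) (nat_lit 512) (nat_lit 2) (@Lb.g g9 (@Lb.g g10 (@Lb.r r1307 (@Lb.r r1304 (@Lb.r r2661 (@Lb.r r1434 (@Lb.d (nat_lit 402) (nat_lit 90) (nat_lit 425) (@Lb.fp (nat_lit 3) t441))))))))))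
noncomputable def l41071 : Lb := (@Lb.r r331 (@Lb.d (nat_lit 517) (nat_lit 10) (nat_lit 2) (@Lb.g g4 (@Lb.g g9 (@Lb.g g10 (@Lb.r r2726 (@Lb.r r1411 (@Lb.r r1553 (@Lb.d (nat_lit 360) (nat_lit 97) (nat_lit 160) (@Lb.t (@Lb.fm (nat_lit 9) t1967)))))))))))
noncomputable def l41072 : Lb := (@Lb.r r323 (@Lb.d (nat_lit 2) (nat_lit 256) (nat_lit 1) (@Lb.g g8 (@Lb.g g9 (@Lb.g g6 (@Lb.r r2659 (@Lb.r r101 (@Lb.r r24 (@Lb.d (nat_lit 288) (nat_lit 0) (nat_lit 128) (@Lb.t (@Lb.fm (nat_lit 9) t335)))))))))))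
noncomputable def l41073 : Lb := (@Lb.d (nat_lit 0) (nat_lit 266) (nat_lit 0) (@Lb.g g5 (@Lb.r r1378 (@Lb.r r1361 (@Lb.r r1451 (@Lb.r r1416 (@Lb.d (nat_lit 40) (nat_lit 2) (nat_lit 33) (@Lb.t (@Lb.fp (nat_lit 3) t915)))))))))
noncomputable def l41074 : Lb := (@Lb.d (nat_lit 129) (nat_lit 32) (nat_lit 0) (@Lb.g g8 (@Lb.g g9 (@Lb.r r1299 (@Lb.r r2178 (@Lb.r r2709 (@Lb.r r104 (@Lb.d (nat_lit 84) (nat_lit 5) (nat_lit 0) (@Lb.fm (nat_lit 3) t124)))))))))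
noncomputable def l41075 : Lb := (@Lb.r r323 (@Lb.d (nat_lit 10) (nat_lit 2) (nat_lit 2) (@Lb.g g4 (@Lb.g g9 (@Lb.g g10 (@Lb.r r354 (@Lb.r r387 (@Lb.d (nat_lit 0) (nat_lit 144) (nat_lit 320) (@Lb.t (@Lb.fp (nat_lit 9) t51))))))))))
noncomputable def l41076 : Lb := (@Lb.r r166 (@Lb.r r149 (@Lb.r r356 (@Lb.r r2571 (@Lb.r r2564 (@Lb.d (nat_lit 0) (nat_lit 534) (nat_lit 65) (@Lb.fp (nat_lit 1) t71)))))))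
noncomputable def l41077 : Lb := (@Lb.d (nat_lit 128) (nat_lit 257) (nat_lit 0) (@Lb.g g8 (@Lb.g g9 (@Lb.r r662 (@Lb.r r361 (@Lb.r r1431 (@Lb.r r2664 (@Lb.d (nat_lit 353) (nat_lit 16) (nat_lit 640) (@Lb.fp (nat_lit 3) t71)))))))))
noncomputable def l41078 : Lb := (@Lb.d (nat_lit 2) (nat_lit 2) (nat_lit 0) (@Lb.g g8 (@Lb.g g9 (@Lb.r r617 (@Lb.r r363 (@Lb.r r356 (@Lb.r r154 (@Lb.d (nat_lit 37) (nat_lit 133) (nat_lit 104) (@Lb.fm (nat_lit 3) t126)))))))))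
noncomputable def l41079 : Lb := (@Lb.d (nat_lit 598) (nat_lit 425) (nat_lit 277) (@Lb.r r72 (@Lb.r r2394 (@Lb.r r1189 (@Lb.g g7 (@Lb.g g6 (@Lb.g g5 (@Lb.d (nat_lit 64) (nat_lit 1) (nat_lit 646) (@Lb.r r388 (@Lb.t (@Lb.fp (nat_lit 9) t976)))))))))))
noncomputable def l41080 : Lb := (@Lb.r r21 (@Lb.r r326 (@Lb.d (nat_lit 514) (nat_lit 512) (nat_lit 0) (@Lb.g g8 (@Lb.g g11 (@Lb.r r267 (@Lb.r r2198 (@Lb.r r97 (@Lb.d (nat_lit 520) (nat_lit 64) (nat_lit 512) (@Lb.fm (nat_lit 3) t2584))))))))))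
noncomputable def l41081 : Lb := (@Lb.d (nat_lit 529) (nat_lit 1) (nat_lit 70) (@Lb.r r68 (@Lb.r r90 (@Lb.r r596 (@Lb.r r1367 (@Lb.g g7 (@Lb.g g6 (@Lb.g g5 (@Lb.g g4 (@Lb.d (nat_lit 2) (nat_lit 129) (nat_lit 65) (@Lb.fp (nat_lit 9) t242)))))))))))
noncomputable def l41082 : Lb := (@Lb.d (nat_lit 8) (nat_lit 514) (nat_lit 0) (@Lb.g g9 (@Lb.r r1126 (@Lb.r r24 (@Lb.d (nat_lit 512) (nat_lit 2) (nat_lit 0) (@Lb.t (@Lb.fm (nat_lit 3) t994)))))))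
noncomputable def l41083 : Lb := (@Lb.d (nat_lit 536) (nat_lit 406) (nat_lit 34) (@Lb.r r2148 (@Lb.r r386 (@Lb.r r339 (@Lb.g g7 (@Lb.g g6 (@Lb.d (nat_lit 0) (nat_lit 0) (nat_lit 65) (@Lb.fp (nat_lit 3) t3687))))))))
noncomputable def l41084 : Lb := (@Lb.d (nat_lit 529) (nat_lit 257) (nat_lit 70) (@Lb.r r68 (@Lb.r r90 (@Lb.r r596 (@Lb.r r1367 (@Lb.g g7 (@Lb.g g6 (@Lb.g g5 (@Lb.g g4 (@Lb.d (nat_lit 1) (nat_lit 129) (nat_lit 65) (@Lb.fp (nat_lit 9) t242)))))))))))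
noncomputable def l41085 : Lb := (@Lb.d (nat_lit 0) (nat_lit 513) (nat_lit 73) (@Lb.g g8 (@Lb.g g9 (@Lb.g g10 (@Lb.g g11 (@Lb.r r2217 (@Lb.r r2658 (@Lb.r r2436 (@Lb.d (nat_lit 353) (nat_lit 25) (nat_lit 618) (@Lb.fm (nat_lit 9) t652))))))))))
noncomputable def l41086 : Lb := (@Lb.r r21 (@Lb.r r326 (@Lb.d (nat_lit 390) (nat_lit 32) (nat_lit 128) (@Lb.g g8 (@Lb.g g11 (@Lb.r r586 (@Lb.r r25 (@Lb.d (nat_lit 512) (nat_lit 2) (nat_lit 256) (@Lb.fm (nat_lit 3) t1354)))))))))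
noncomputable def l41087 : Lb := (@Lb.d (nat_lit 390) (nat_lit 576) (nat_lit 32) (@Lb.r r24 (@Lb.r r2394 (@Lb.r r661 (@Lb.g g11 (@Lb.g g4 (@Lb.d (nat_lit 1) (nat_lit 0) (nat_lit 384) (@Lb.r r578 (@Lb.fm (nat_lit 3) t568)))))))))
noncomputable def l41088 : Lb := (@Lb.d (nat_lit 0) (nat_lit 33) (nat_lit 130) (@Lb.g g8 (@Lb.g g9 (@Lb.g g10 (@Lb.g g11 (@Lb.r r387 (@Lb.r r2201 (@Lb.r r2458 (@Lb.r r24 (@Lb.d (nat_lit 593) (nat_lit 0) (nat_lit 580) (@Lb.fp (nat_lit 9) t3202)))))))))))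
noncomputable def l41089 : Lb := (@Lb.r r267 (@Lb.d (nat_lit 514) (nat_lit 1) (nat_lit 0) (@Lb.g g8 (@Lb.g g9 (@Lb.r r299 (@Lb.r r2154 (@Lb.r r1049 (@Lb.d (nat_lit 521) (nat_lit 129) (nat_lit 64) (@Lb.fm (nat_lit 3) t1354)))))))))
noncomputable def l41090 : Lb := (@Lb.d (nat_lit 2) (nat_lit 514) (nat_lit 130) (@Lb.g g8 (@Lb.g g9 (@Lb.g g10 (@Lb.g g11 (@Lb.r r610 (@Lb.r r1607 (@Lb.r r97 (@Lb.r r2436 (@Lb.d (nat_lit 145) (nat_lit 90) (nat_lit 676) (@Lb.fp (nat_lit 9) t1954)))))))))))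
noncomputable def l41091 : Lb := (@Lb.r r21 (@Lb.r r70 (@Lb.d (nat_lit 2) (nat_lit 512) (nat_lit 0) (@Lb.g g8 (@Lb.r r1563 (@Lb.r r657 (@Lb.r r338 (@Lb.r r2084 (@Lb.d (nat_lit 105) (nat_lit 36) (nat_lit 612) (@Lb.t (@Lb.fm (nat_lit 3) t5661)))))))))))
noncomputable def l41092 : Lb := (@Lb.d (nat_lit 6) (nat_lit 22) (nat_lit 681) (@Lb.r r1317 (@Lb.r r2395 (@Lb.r r614 (@Lb.g g7 (@Lb.g g4 (@Lb.d (nat_lit 549) (nat_lit 0) (nat_lit 64) (@Lb.fp (nat_lit 3) t4322))))))))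
noncomputable def l41093 : Lb := (@Lb.d (nat_lit 2) (nat_lit 288) (nat_lit 66) (@Lb.g g8 (@Lb.g g9 (@Lb.g g10 (@Lb.g g11 (@Lb.r r2387 (@Lb.r r386 (@Lb.r r148 (@Lb.r r169 (@Lb.r r2084 (@Lb.d (nat_lit 426) (nat_lit 9) (nat_lit 598) (@Lb.fp (nat_lit 9) t4493))))))))))))
noncomputable def l41094 : Lb := (@Lb.d (nat_lit 0) (nat_lit 512) (nat_lit 128) (@Lb.g g11 (@Lb.r r609 (@Lb.r r363 (@Lb.r r356 (@Lb.r r154 (@Lb.d (nat_lit 257) (nat_lit 10) (nat_lit 18) (@Lb.t (@Lb.fp (nat_lit 3) t743)))))))))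
noncomputable def l41095 : Lb := (@Lb.d (nat_lit 2) (nat_lit 514) (nat_lit 130) (@Lb.g g8 (@Lb.g g9 (@Lb.g g10 (@Lb.g g11 (@Lb.r r1706 (@Lb.r r1700 (@Lb.r r1575 (@Lb.r r1553 (@Lb.d (nat_lit 2) (nat_lit 162) (nat_lit 586) (@Lb.fp (nat_lit 9) t51)))))))))))
noncomputable def l41096 : Lb := (@Lb.d (nat_lit 2) (nat_lit 0) (nat_lit 72) (@Lb.g g8 (@Lb.g g11 (@Lb.r r2436 (@Lb.d (nat_lit 618) (nat_lit 2) (nat_lit 356) (@Lb.fm (nat_lit 3) t1737))))))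
noncomputable def l41097 : Lb := (@Lb.r r1045 (@Lb.r r584 (@Lb.r r358 (@Lb.r r1435 (@Lb.r r132 (@Lb.d (nat_lit 10) (nat_lit 602) (nat_lit 530) (@Lb.fm (nat_lit 1) t430)))))))
noncomputable def l41098 : Lb := (@Lb.d (nat_lit 2) (nat_lit 514) (nat_lit 72) (@Lb.g g8 (@Lb.g g9 (@Lb.g g10 (@Lb.g g11 (@Lb.r r1347 (@Lb.r r297 (@Lb.r r680 (@Lb.r r650 (@Lb.r r1156 (@Lb.d (nat_lit 320) (nat_lit 10) (nat_lit 329) (@Lb.fm (nat_lit 9) t242))))))))))))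
noncomputable def l41099 : Lb := (@Lb.d (nat_lit 2) (nat_lit 528) (nat_lit 2) (@Lb.g g8 (@Lb.g g9 (@Lb.g g10 (@Lb.g g11 (@Lb.r r2595 (@Lb.r r386 (@Lb.r r532 (@Lb.r r361 (@Lb.r r1060 (@Lb.d (nat_lit 416) (nat_lit 10) (nat_lit 405) (@Lb.fm (nat_lit 9) t3278))))))))))))
noncomputable def l41100 : Lb := (@Lb.d (nat_lit 0) (nat_lit 256) (nat_lit 66) (@Lb.g g9 (@Lb.g g10 (@Lb.g g11 (@Lb.r r2387 (@Lb.r r2722 (@Lb.r r2641 (@Lb.r r2628 (@Lb.d (nat_lit 0) (nat_lit 161) (nat_lit 402) (@Lb.t (@Lb.fp (nat_lit 9) t7083)))))))))))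
noncomputable def l41101 : Lb := (@Lb.d (nat_lit 2) (nat_lit 256) (nat_lit 66) (@Lb.g g8 (@Lb.g g9 (@Lb.g g10 (@Lb.g g7 (@Lb.r r386 (@Lb.r r101 (@Lb.r r24 (@Lb.d (nat_lit 352) (nat_lit 0) (nat_lit 585) (@Lb.fp (nat_lit 9) t1150))))))))))
noncomputable def l41102 : Lb := (@Lb.d (nat_lit 32) (nat_lit 520) (nat_lit 130) (@Lb.g g10 (@Lb.g g11 (@Lb.r r324 (@Lb.r r651 (@Lb.r r357 (@Lb.r r666 (@Lb.d (nat_lit 344) (nat_lit 37) (nat_lit 41) (@Lb.fp (nat_lit 3) t167)))))))))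
noncomputable def l41103 : Lb := (@Lb.r r322 (@Lb.d (nat_lit 33) (nat_lit 33) (nat_lit 516) (@Lb.g g8 (@Lb.g g9 (@Lb.g g7 (@Lb.r r418 (@Lb.r r297 (@Lb.r r1384 (@Lb.d (nat_lit 404) (nat_lit 170) (nat_lit 293) (@Lb.t (@Lb.fm (nat_lit 9) t739)))))))))))
noncomputable def l41104 : Lb := (@Lb.r r322 (@Lb.d (nat_lit 34) (nat_lit 289) (nat_lit 516) (@Lb.g g8 (@Lb.g g9 (@Lb.g g7 (@Lb.r r418 (@Lb.r r297 (@Lb.r r1384 (@Lb.d (nat_lit 409) (nat_lit 168) (nat_lit 293) (@Lb.t (@Lb.fm (nat_lit 9) t2618)))))))))))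
noncomputable def l41105 : Lb := (@Lb.d (nat_lit 134) (nat_lit 281) (nat_lit 597) (@Lb.r r1425 (@Lb.r r1434 (@Lb.r r359 (@Lb.g g5 (@Lb.g g8 (@Lb.d (nat_lit 10) (nat_lit 17) (nat_lit 0) (@Lb.r r98 (@Lb.fm (nat_lit 3) t7084)))))))))
noncomputable def l41106 : Lb := (@Lb.r r20 (@Lb.d (nat_lit 4) (nat_lit 98) (nat_lit 136) (@Lb.g g5 (@Lb.g g11 (@Lb.r r386 (@Lb.r r1347 (@Lb.r r1156 (@Lb.d (nat_lit 288) (nat_lit 5) (nat_lit 406) (@Lb.fm (nat_lit 3) t6958)))))))))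
noncomputable def l41107 : Lb := (@Lb.d (nat_lit 0) (nat_lit 256) (nat_lit 136) (@Lb.g g11 (@Lb.r r402 (@Lb.r r1379 (@Lb.r r101 (@Lb.d (nat_lit 405) (nat_lit 25) (nat_lit 416) (@Lb.t (@Lb.fp (nat_lit 3) t2158))))))))
noncomputable def l41108 : Lb := (@Lb.d (nat_lit 128) (nat_lit 512) (nat_lit 136) (@Lb.g g11 (@Lb.r r613 (@Lb.r r410 (@Lb.r r2472 (@Lb.r r1623 (@Lb.d (nat_lit 406) (nat_lit 100) (nat_lit 585) (@Lb.t (@Lb.fp (nat_lit 3) t154)))))))))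
noncomputable def l41109 : Lb := (@Lb.r r21 (@Lb.r r323 (@Lb.d (nat_lit 678) (nat_lit 0) (nat_lit 1) (@Lb.g g4 (@Lb.g g10 (@Lb.r r1355 (@Lb.r r2182 (@Lb.r r25 (@Lb.d (nat_lit 89) (nat_lit 0) (nat_lit 33) (@Lb.fm (nat_lit 3) t1435))))))))))
noncomputable def l41110 : Lb := (@Lb.r r86 (@Lb.d (nat_lit 134) (nat_lit 256) (nat_lit 128) (@Lb.g g8 (@Lb.g g9 (@Lb.g g11 (@Lb.r r2731 (@Lb.r r2626 (@Lb.r r2212 (@Lb.r r1061 (@Lb.d (nat_lit 521) (nat_lit 9) (nat_lit 68) (@Lb.t (@Lb.fm (nat_lit 9) t7055))))))))))))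
noncomputable def l41111 : Lb := (@Lb.g g10 (@Lb.r r2209 (@Lb.r r1186 (@Lb.r r1124 (@Lb.d (nat_lit 282) (nat_lit 85) (nat_lit 553) (@Lb.t (@Lb.fp (nat_lit 3) t7085)))))))
noncomputable def l41112 : Lb := (@Lb.d (nat_lit 1) (nat_lit 34) (nat_lit 2) (@Lb.g g8 (@Lb.g g9 (@Lb.g g10 (@Lb.r r1194 (@Lb.r r2468 (@Lb.r r1307 (@Lb.r r1573 (@Lb.d (nat_lit 384) (nat_lit 18) (nat_lit 586) (@Lb.t (@Lb.fm (nat_lit 9) t284)))))))))))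
noncomputable def l41113 : Lb := (@Lb.d (nat_lit 146) (nat_lit 528) (nat_lit 128) (@Lb.g g8 (@Lb.g g9 (@Lb.g g10 (@Lb.g g11 (@Lb.r r427 (@Lb.r r1602 (@Lb.r r1433 (@Lb.r r388 (@Lb.d (nat_lit 617) (nat_lit 161) (nat_lit 586) (@Lb.fp (nat_lit 9) t1169)))))))))))
noncomputable def l41114 : Lb := (@Lb.d (nat_lit 0) (nat_lit 516) (nat_lit 0) (@Lb.g g9 (@Lb.g g10 (@Lb.r r679 (@Lb.r r1685 (@Lb.r r1124 (@Lb.r r2122 (@Lb.d (nat_lit 161) (nat_lit 100) (nat_lit 404) (@Lb.fp (nat_lit 3) t7086)))))))))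
noncomputable def l41115 : Lb := (@Lb.r r86 (@Lb.d (nat_lit 129) (nat_lit 514) (nat_lit 128) (@Lb.g g8 (@Lb.g g9 (@Lb.g g11 (@Lb.r r2731 (@Lb.r r2626 (@Lb.r r2212 (@Lb.r r1061 (@Lb.d (nat_lit 521) (nat_lit 9) (nat_lit 68) (@Lb.t (@Lb.fm (nat_lit 9) t7055))))))))))))
noncomputable def l41116 : Lb := (@Lb.d (nat_lit 8) (nat_lit 262) (nat_lit 128) (@Lb.g g8 (@Lb.g g9 (@Lb.g g10 (@Lb.g g11 (@Lb.r r610 (@Lb.r r1607 (@Lb.r r97 (@Lb.r r2436 (@Lb.d (nat_lit 154) (nat_lit 9) (nat_lit 392) (@Lb.fp (nat_lit 9) t2108)))))))))))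
noncomputable def l41117 : Lb := (@Lb.d (nat_lit 536) (nat_lit 552) (nat_lit 426) (@Lb.r r361 (@Lb.r r2148 (@Lb.r r2375 (@Lb.r r1674 (@Lb.g g7 (@Lb.g g6 (@Lb.g g5 (@Lb.d (nat_lit 4) (nat_lit 8) (nat_lit 64) (@Lb.t (@Lb.fp (nat_lit 9) t7079)))))))))))
noncomputable def l41118 : Lb := (@Lb.d (nat_lit 1) (nat_lit 8) (nat_lit 2) (@Lb.g g8 (@Lb.g g10 (@Lb.r r1688 (@Lb.r r1291 (@Lb.r r2401 (@Lb.r r2642 (@Lb.d (nat_lit 0) (nat_lit 20) (nat_lit 96) (@Lb.fm (nat_lit 3) t6089)))))))))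
noncomputable def l41119 : Lb := (@Lb.d (nat_lit 1) (nat_lit 4) (nat_lit 0) (@Lb.g g8 (@Lb.g g9 (@Lb.g g10 (@Lb.r r1572 (@Lb.r r1575 (@Lb.r r1634 (@Lb.r r1637 (@Lb.d (nat_lit 9) (nat_lit 90) (nat_lit 409) (@Lb.t (@Lb.fm (nat_lit 9) t3999)))))))))))
noncomputable def l41120 : Lb := (@Lb.d (nat_lit 9) (nat_lit 262) (nat_lit 128) (@Lb.g g8 (@Lb.g g9 (@Lb.g g10 (@Lb.g g11 (@Lb.r r2666 (@Lb.r r579 (@Lb.r r104 (@Lb.r r25 (@Lb.d (nat_lit 617) (nat_lit 84) (nat_lit 134) (@Lb.fp (nat_lit 9) t3446)))))))))))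
noncomputable def l41121 : Lb := (@Lb.r r81 (@Lb.r r323 (@Lb.d (nat_lit 0) (nat_lit 264) (nat_lit 1) (@Lb.g g6 (@Lb.r r387 (@Lb.r r88 (@Lb.r r37 (@Lb.d (nat_lit 17) (nat_lit 150) (nat_lit 265) (@Lb.t (@Lb.fm (nat_lit 3) t6232))))))))))
noncomputable def l41122 : Lb := (@Lb.r r82 (@Lb.r r275 (@Lb.d (nat_lit 2) (nat_lit 1) (nat_lit 0) (@Lb.g g8 (@Lb.g g5 (@Lb.r r2315 (@Lb.r r98 (@Lb.r r24 (@Lb.d (nat_lit 264) (nat_lit 2) (nat_lit 0) (@Lb.fm (nat_lit 3) t2389))))))))))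
noncomputable def l41123 : Lb := (@Lb.d (nat_lit 1) (nat_lit 145) (nat_lit 341) (@Lb.r r1698 (@Lb.r r1425 (@Lb.g g11 (@Lb.g g6 (@Lb.g g4 (@Lb.d (nat_lit 256) (nat_lit 4) (nat_lit 129) (@Lb.r r25 (@Lb.t (@Lb.fp (nat_lit 9) t1022))))))))))
noncomputable def l41124 : Lb := (@Lb.r r70 (@Lb.d (nat_lit 164) (nat_lit 520) (nat_lit 0) (@Lb.g g8 (@Lb.g g9 (@Lb.r r2130 (@Lb.r r677 (@Lb.r r1639 (@Lb.r r2456 (@Lb.d (nat_lit 400) (nat_lit 38) (nat_lit 673) (@Lb.fp (nat_lit 3) t2985))))))))))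
noncomputable def l41125 : Lb := (@Lb.d (nat_lit 613) (nat_lit 276) (nat_lit 549) (@Lb.r r2453 (@Lb.r r2450 (@Lb.r r1703 (@Lb.r r2392 (@Lb.g g5 (@Lb.d (nat_lit 0) (nat_lit 5) (nat_lit 0) (@Lb.r r98 (@Lb.t (@Lb.fp (nat_lit 3) t7087))))))))))
noncomputable def l41126 : Lb := (@Lb.d (nat_lit 2) (nat_lit 521) (nat_lit 1) (@Lb.g g8 (@Lb.g g9 (@Lb.g g10 (@Lb.r r2729 (@Lb.r r2475 (@Lb.r r2440 (@Lb.r r2122 (@Lb.d (nat_lit 88) (nat_lit 128) (nat_lit 584) (@Lb.t (@Lb.fm (nat_lit 9) t6494)))))))))))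
noncomputable def l41127 : Lb := (@Lb.d (nat_lit 418) (nat_lit 581) (nat_lit 580) (@Lb.r r1604 (@Lb.r r97 (@Lb.r r2659 (@Lb.r r2406 (@Lb.g g6 (@Lb.g g5 (@Lb.g g4 (@Lb.d (nat_lit 1) (nat_lit 1) (nat_lit 1) (@Lb.t (@Lb.fp (nat_lit 9) t7019)))))))))))
noncomputable def l41128 : Lb := (@Lb.d (nat_lit 144) (nat_lit 0) (nat_lit 162) (@Lb.g g8 (@Lb.g g9 (@Lb.g g10 (@Lb.g g11 (@Lb.r r260 (@Lb.r r2731 (@Lb.r r1577 (@Lb.r r1060 (@Lb.d (nat_lit 609) (nat_lit 74) (nat_lit 528) (@Lb.fp (nat_lit 9) t3981)))))))))))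
noncomputable def l41129 : Lb := (@Lb.d (nat_lit 154) (nat_lit 258) (nat_lit 162) (@Lb.g g8 (@Lb.g g9 (@Lb.g g10 (@Lb.g g11 (@Lb.r r260 (@Lb.r r2731 (@Lb.r r1577 (@Lb.r r1060 (@Lb.d (nat_lit 609) (nat_lit 74) (nat_lit 528) (@Lb.fp (nat_lit 9) t3981)))))))))))
noncomputable def l41130 : Lb := (@Lb.g g7 (@Lb.r r2311 (@Lb.d (nat_lit 262) (nat_lit 1) (nat_lit 0) (@Lb.t (@Lb.fm (nat_lit 3) t469)))))
noncomputable def l41131 : Lb := (@Lb.r r21 (@Lb.d (nat_lit 144) (nat_lit 288) (nat_lit 64) (@Lb.g g8 (@Lb.g g10 (@Lb.g g11 (@Lb.r r170 (@Lb.r r1313 (@Lb.r r2451 (@Lb.r r2564 (@Lb.d (nat_lit 289) (nat_lit 25) (nat_lit 258) (@Lb.t (@Lb.fm (nat_lit 9) t3827))))))))))))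
noncomputable def l41132 : Lb := (@Lb.d (nat_lit 146) (nat_lit 256) (nat_lit 130) (@Lb.g g8 (@Lb.g g9 (@Lb.g g10 (@Lb.g g11 (@Lb.r r642 (@Lb.r r2455 (@Lb.r r2145 (@Lb.r r536 (@Lb.d (nat_lit 617) (nat_lit 105) (nat_lit 129) (@Lb.fm (nat_lit 9) t1173)))))))))))
noncomputable def l41133 : Lb := (@Lb.d (nat_lit 405) (nat_lit 1) (nat_lit 289) (@Lb.g g7 (@Lb.d (nat_lit 0) (nat_lit 0) (nat_lit 68) (@Lb.t (@Lb.fm (nat_lit 3) t469)))))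
noncomputable def l41134 : Lb := (@Lb.d (nat_lit 144) (nat_lit 288) (nat_lit 130) (@Lb.g g8 (@Lb.g g10 (@Lb.g g11 (@Lb.r r2138 (@Lb.r r2197 (@Lb.r r328 (@Lb.r r551 (@Lb.d (nat_lit 128) (nat_lit 169) (nat_lit 530) (@Lb.t (@Lb.fm (nat_lit 9) t524)))))))))))
noncomputable def l41135 : Lb := (@Lb.d (nat_lit 148) (nat_lit 520) (nat_lit 130) (@Lb.g g8 (@Lb.g g9 (@Lb.g g10 (@Lb.g g11 (@Lb.r r1666 (@Lb.r r2455 (@Lb.r r1633 (@Lb.r r1048 (@Lb.d (nat_lit 553) (nat_lit 25) (nat_lit 281) (@Lb.fm (nat_lit 9) t5797)))))))))))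
noncomputable def l41136 : Lb := (@Lb.d (nat_lit 0) (nat_lit 1) (nat_lit 66) (@Lb.g g9 (@Lb.g g10 (@Lb.g g7 (@Lb.r r2474 (@Lb.r r153 (@Lb.d (nat_lit 298) (nat_lit 100) (nat_lit 513) (@Lb.t (@Lb.fm (nat_lit 9) t2098)))))))))
noncomputable def l41137 : Lb := (@Lb.r r1045 (@Lb.d (nat_lit 130) (nat_lit 256) (nat_lit 130) (@Lb.g g8 (@Lb.g g10 (@Lb.g g11 (@Lb.r r395 (@Lb.r r2122 (@Lb.d (nat_lit 550) (nat_lit 64) (nat_lit 409) (@Lb.t (@Lb.fm (nat_lit 9) t6082))))))))))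
noncomputable def l41138 : Lb := (@Lb.d (nat_lit 613) (nat_lit 673) (nat_lit 388) (@Lb.r r2456 (@Lb.r r146 (@Lb.r r663 (@Lb.g g5 (@Lb.g g4 (@Lb.d (nat_lit 65) (nat_lit 5) (nat_lit 0) (@Lb.r r291 (@Lb.r r98 (@Lb.fp (nat_lit 3) t2095))))))))))
noncomputable def l41139 : Lb := (@Lb.r r82 (@Lb.d (nat_lit 9) (nat_lit 9) (nat_lit 0) (@Lb.g g8 (@Lb.g g9 (@Lb.g g11 (@Lb.r r1635 (@Lb.r r1418 (@Lb.r r2212 (@Lb.r r1685 (@Lb.d (nat_lit 409) (nat_lit 9) (nat_lit 346) (@Lb.t (@Lb.fm (nat_lit 9) t1161))))))))))))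
noncomputable def l41140 : Lb := (@Lb.r r82 (@Lb.d (nat_lit 9) (nat_lit 288) (nat_lit 128) (@Lb.g g8 (@Lb.g g9 (@Lb.g g11 (@Lb.r r1571 (@Lb.r r1418 (@Lb.r r2212 (@Lb.r r1685 (@Lb.d (nat_lit 385) (nat_lit 2) (nat_lit 344) (@Lb.t (@Lb.fm (nat_lit 9) t1161))))))))))))
noncomputable def l41141 : Lb := (@Lb.d (nat_lit 338) (nat_lit 648) (nat_lit 336) (@Lb.r r2312 (@Lb.r r1106 (@Lb.r r1623 (@Lb.g g6 (@Lb.g g5 (@Lb.g g4 (@Lb.d (nat_lit 66) (nat_lit 129) (nat_lit 1) (@Lb.r r387 (@Lb.t (@Lb.fp (nat_lit 9) t1161)))))))))))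
noncomputable def l41142 : Lb := (@Lb.d (nat_lit 338) (nat_lit 392) (nat_lit 282) (@Lb.r r2312 (@Lb.r r1106 (@Lb.r r1623 (@Lb.g g6 (@Lb.g g5 (@Lb.g g4 (@Lb.d (nat_lit 65) (nat_lit 129) (nat_lit 1) (@Lb.r r387 (@Lb.t (@Lb.fp (nat_lit 9) t1161)))))))))))
noncomputable def l41143 : Lb := (@Lb.d (nat_lit 4) (nat_lit 517) (nat_lit 0) (@Lb.g g8 (@Lb.g g9 (@Lb.g g10 (@Lb.g g11 (@Lb.r r683 (@Lb.r r2666 (@Lb.r r25 (@Lb.d (nat_lit 9) (nat_lit 89) (nat_lit 537) (@Lb.fm (nat_lit 9) t1369))))))))))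
noncomputable def l41144 : Lb := (@Lb.d (nat_lit 529) (nat_lit 385) (nat_lit 293) (@Lb.r r2116 (@Lb.r r146 (@Lb.r r345 (@Lb.g g7 (@Lb.g g4 (@Lb.d (nat_lit 5) (nat_lit 0) (nat_lit 384) (@Lb.r r578 (@Lb.fp (nat_lit 3) t7088)))))))))
noncomputable def l41145 : Lb := (@Lb.d (nat_lit 4) (nat_lit 261) (nat_lit 0) (@Lb.g g8 (@Lb.g g9 (@Lb.g g10 (@Lb.r r683 (@Lb.r r2666 (@Lb.r r25 (@Lb.d (nat_lit 9) (nat_lit 82) (nat_lit 538) (@Lb.t (@Lb.fp (nat_lit 9) t7089))))))))))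
noncomputable def l41146 : Lb := (@Lb.d (nat_lit 0) (nat_lit 33) (nat_lit 262) (@Lb.r r2196 (@Lb.r r82 (@Lb.r r2193 (@Lb.g g6 (@Lb.d (nat_lit 0) (nat_lit 0) (nat_lit 1) (@Lb.t (@Lb.fm (nat_lit 3) t5363))))))))
noncomputable def l41147 : Lb := (@Lb.d (nat_lit 0) (nat_lit 32) (nat_lit 260) (@Lb.r r2196 (@Lb.r r1186 (@Lb.r r2209 (@Lb.r r2451 (@Lb.g g11 (@Lb.g g6 (@Lb.fp (nat_lit 3) t7090))))))))
noncomputable def l41148 : Lb := (@Lb.d (nat_lit 2) (nat_lit 260) (nat_lit 0) (@Lb.g g8 (@Lb.g g9 (@Lb.g g10 (@Lb.g g11 (@Lb.r r1699 (@Lb.r r2705 (@Lb.r r356 (@Lb.r r154 (@Lb.d (nat_lit 681) (nat_lit 73) (nat_lit 274) (@Lb.fp (nat_lit 9) t602)))))))))))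
noncomputable def l41149 : Lb := (@Lb.d (nat_lit 10) (nat_lit 258) (nat_lit 130) (@Lb.g g4 (@Lb.g g9 (@Lb.g g10 (@Lb.g g11 (@Lb.r r419 (@Lb.r r98 (@Lb.d (nat_lit 1) (nat_lit 9) (nat_lit 137) (@Lb.fm (nat_lit 9) t51)))))))))
noncomputable def l41150 : Lb := (@Lb.d (nat_lit 8) (nat_lit 258) (nat_lit 0) (@Lb.g g5 (@Lb.r r164 (@Lb.r r1189 (@Lb.d (nat_lit 281) (nat_lit 9) (nat_lit 18) (@Lb.t (@Lb.fp (nat_lit 3) t7091)))))))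
noncomputable def l41151 : Lb := (@Lb.d (nat_lit 10) (nat_lit 2) (nat_lit 66) (@Lb.g g4 (@Lb.g g9 (@Lb.g g10 (@Lb.g g11 (@Lb.r r419 (@Lb.r r98 (@Lb.d (nat_lit 0) (nat_lit 9) (nat_lit 137) (@Lb.fm (nat_lit 9) t51)))))))))
noncomputable def l41152 : Lb := (@Lb.d (nat_lit 129) (nat_lit 528) (nat_lit 4) (@Lb.g g8 (@Lb.g g9 (@Lb.g g10 (@Lb.g g11 (@Lb.r r1667 (@Lb.r r2401 (@Lb.r r1178 (@Lb.r r1156 (@Lb.d (nat_lit 678) (nat_lit 145) (nat_lit 674) (@Lb.fm (nat_lit 9) t68)))))))))))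
noncomputable def l41153 : Lb := (@Lb.d (nat_lit 0) (nat_lit 530) (nat_lit 10) (@Lb.r r579 (@Lb.r r338 (@Lb.g g7 (@Lb.g g6 (@Lb.g g5 (@Lb.g g8 (@Lb.d (nat_lit 5) (nat_lit 1) (nat_lit 133) (@Lb.fp (nat_lit 9) t285)))))))))
noncomputable def l41154 : Lb := (@Lb.d (nat_lit 2) (nat_lit 544) (nat_lit 162) (@Lb.g g8 (@Lb.g g6 (@Lb.g g11 (@Lb.r r2337 (@Lb.r r531 (@Lb.r r2120 (@Lb.d (nat_lit 529) (nat_lit 102) (nat_lit 160) (@Lb.t (@Lb.fm (nat_lit 9) t2551))))))))))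
noncomputable def l41155 : Lb := (@Lb.d (nat_lit 0) (nat_lit 256) (nat_lit 128) (@Lb.g g8 (@Lb.g g10 (@Lb.g g11 (@Lb.r r1419 (@Lb.d (nat_lit 418) (nat_lit 0) (nat_lit 404) (@Lb.t (@Lb.fm (nat_lit 9) t441))))))))
noncomputable def l41156 : Lb := (@Lb.r r263 (@Lb.d (nat_lit 0) (nat_lit 261) (nat_lit 0) (@Lb.g g8 (@Lb.g g5 (@Lb.g g10 (@Lb.r r2584 (@Lb.r r267 (@Lb.r r386 (@Lb.d (nat_lit 328) (nat_lit 164) (nat_lit 394) (@Lb.t (@Lb.fp (nat_lit 9) t2408)))))))))))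
noncomputable def l41157 : Lb := (@Lb.d (nat_lit 0) (nat_lit 514) (nat_lit 4) (@Lb.g g8 (@Lb.g g9 (@Lb.g g10 (@Lb.g g11 (@Lb.r r642 (@Lb.r r1419 (@Lb.r r97 (@Lb.d (nat_lit 388) (nat_lit 10) (nat_lit 385) (@Lb.fp (nat_lit 9) t1069))))))))))
noncomputable def l41158 : Lb := (@Lb.r r323 (@Lb.d (nat_lit 136) (nat_lit 545) (nat_lit 0) (@Lb.g g8 (@Lb.g g9 (@Lb.g g10 (@Lb.r r599 (@Lb.r r98 (@Lb.r r408 (@Lb.r r101 (@Lb.d (nat_lit 20) (nat_lit 40) (nat_lit 146) (@Lb.t (@Lb.fp (nat_lit 9) t221))))))))))))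
noncomputable def l41159 : Lb := (@Lb.d (nat_lit 2) (nat_lit 294) (nat_lit 10) (@Lb.g g8 (@Lb.g g9 (@Lb.g g10 (@Lb.g g11 (@Lb.r r619 (@Lb.r r1610 (@Lb.r r2088 (@Lb.r r2201 (@Lb.d (nat_lit 665) (nat_lit 100) (nat_lit 598) (@Lb.fp (nat_lit 9) t510)))))))))))
noncomputable def l41160 : Lb := (@Lb.d (nat_lit 609) (nat_lit 522) (nat_lit 666) (@Lb.r r21 (@Lb.r r100 (@Lb.r r579 (@Lb.r r1370 (@Lb.g g7 (@Lb.g g6 (@Lb.g g5 (@Lb.d (nat_lit 0) (nat_lit 6) (nat_lit 132) (@Lb.t (@Lb.fm (nat_lit 9) t7092)))))))))))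
noncomputable def l41161 : Lb := (@Lb.d (nat_lit 128) (nat_lit 2) (nat_lit 73) (@Lb.g g8 (@Lb.g g9 (@Lb.g g10 (@Lb.g g11 (@Lb.r r683 (@Lb.r r2410 (@Lb.r r2329 (@Lb.r r516 (@Lb.d (nat_lit 265) (nat_lit 169) (nat_lit 425) (@Lb.fm (nat_lit 9) t605)))))))))))
noncomputable def l41162 : Lb := (@Lb.d (nat_lit 9) (nat_lit 576) (nat_lit 153) (@Lb.r r1114 (@Lb.r r2404 (@Lb.r r2325 (@Lb.r r1307 (@Lb.g g11 (@Lb.t (@Lb.fp (nat_lit 3) t501))))))))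
noncomputable def l41163 : Lb := (@Lb.d (nat_lit 10) (nat_lit 586) (nat_lit 152) (@Lb.r r1114 (@Lb.r r2404 (@Lb.r r2325 (@Lb.r r1307 (@Lb.g g11 (@Lb.t (@Lb.fp (nat_lit 3) t2301))))))))
noncomputable def l41164 : Lb := (@Lb.d (nat_lit 10) (nat_lit 320) (nat_lit 153) (@Lb.r r1114 (@Lb.r r2404 (@Lb.r r2325 (@Lb.r r1307 (@Lb.g g11 (@Lb.t (@Lb.fp (nat_lit 3) t501))))))))
noncomputable def l41165 : Lb := (@Lb.d (nat_lit 0) (nat_lit 514) (nat_lit 4) (@Lb.g g8 (@Lb.g g9 (@Lb.g g10 (@Lb.g g11 (@Lb.r r2691 (@Lb.r r353 (@Lb.r r146 (@Lb.d (nat_lit 0) (nat_lit 90) (nat_lit 681) (@Lb.fm (nat_lit 9) t311))))))))))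
noncomputable def l41166 : Lb := (@Lb.d (nat_lit 32) (nat_lit 37) (nat_lit 160) (@Lb.g g9 (@Lb.g g10 (@Lb.g g11 (@Lb.r r1415 (@Lb.r r1641 (@Lb.d (nat_lit 8) (nat_lit 154) (nat_lit 420) (@Lb.t (@Lb.fp (nat_lit 9) t1427)))))))))
noncomputable def l41167 : Lb := (@Lb.d (nat_lit 529) (nat_lit 1) (nat_lit 422) (@Lb.r r264 (@Lb.r r2370 (@Lb.r r279 (@Lb.g g6 (@Lb.g g5 (@Lb.g g4 (@Lb.d (nat_lit 33) (nat_lit 33) (nat_lit 0) (@Lb.t (@Lb.fm (nat_lit 9) t744))))))))))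
noncomputable def l41168 : Lb := (@Lb.r r322 (@Lb.d (nat_lit 4) (nat_lit 514) (nat_lit 576) (@Lb.g g9 (@Lb.g g7 (@Lb.r r660 (@Lb.r r358 (@Lb.r r337 (@Lb.d (nat_lit 0) (nat_lit 100) (nat_lit 549) (@Lb.fp (nat_lit 3) t3141)))))))))
noncomputable def l41169 : Lb := (@Lb.d (nat_lit 129) (nat_lit 2) (nat_lit 130) (@Lb.g g8 (@Lb.g g9 (@Lb.g g10 (@Lb.g g11 (@Lb.r r683 (@Lb.r r2724 (@Lb.r r1158 (@Lb.r r97 (@Lb.d (nat_lit 33) (nat_lit 105) (nat_lit 673) (@Lb.fm (nat_lit 9) t4350)))))))))))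
noncomputable def l41170 : Lb := (@Lb.d (nat_lit 129) (nat_lit 260) (nat_lit 128) (@Lb.g g8 (@Lb.g g9 (@Lb.g g10 (@Lb.g g11 (@Lb.r r683 (@Lb.r r2410 (@Lb.r r537 (@Lb.r r516 (@Lb.d (nat_lit 137) (nat_lit 89) (nat_lit 21) (@Lb.fm (nat_lit 9) t606)))))))))))
noncomputable def l41171 : Lb := (@Lb.d (nat_lit 128) (nat_lit 4) (nat_lit 128) (@Lb.g g8 (@Lb.g g9 (@Lb.g g10 (@Lb.g g11 (@Lb.r r343 (@Lb.r r1366 (@Lb.r r97 (@Lb.r r532 (@Lb.d (nat_lit 678) (nat_lit 41) (nat_lit 161) (@Lb.fm (nat_lit 9) t1144)))))))))))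
noncomputable def l41172 : Lb := (@Lb.d (nat_lit 297) (nat_lit 584) (nat_lit 644) (@Lb.r r81 (@Lb.r r102 (@Lb.r r597 (@Lb.r r2387 (@Lb.g g7 (@Lb.g g6 (@Lb.g g5 (@Lb.g g8 (@Lb.d (nat_lit 2) (nat_lit 1) (nat_lit 65) (@Lb.fm (nat_lit 9) t3543)))))))))))
noncomputable def l41173 : Lb := (@Lb.r r82 (@Lb.d (nat_lit 2) (nat_lit 258) (nat_lit 0) (@Lb.g g8 (@Lb.g g9 (@Lb.g g11 (@Lb.r r1643 (@Lb.r r386 (@Lb.r r1188 (@Lb.r r1061 (@Lb.d (nat_lit 361) (nat_lit 130) (nat_lit 594) (@Lb.t (@Lb.fp (nat_lit 9) t98))))))))))))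
noncomputable def l41174 : Lb := (@Lb.d (nat_lit 0) (nat_lit 0) (nat_lit 65) (@Lb.r r24 (@Lb.r r101 (@Lb.g g6 (@Lb.g g4 (@Lb.d (nat_lit 0) (nat_lit 4) (nat_lit 6) (@Lb.fm (nat_lit 3) t70)))))))
noncomputable def l41175 : Lb := (@Lb.d (nat_lit 154) (nat_lit 1) (nat_lit 160) (@Lb.g g8 (@Lb.g g9 (@Lb.g g10 (@Lb.g g11 (@Lb.r r1411 (@Lb.r r1065 (@Lb.r r1060 (@Lb.d (nat_lit 265) (nat_lit 130) (nat_lit 297) (@Lb.fm (nat_lit 9) t1221))))))))))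
noncomputable def l41176 : Lb := (@Lb.r r323 (@Lb.d (nat_lit 0) (nat_lit 514) (nat_lit 1) (@Lb.g g9 (@Lb.g g6 (@Lb.r r387 (@Lb.r r104 (@Lb.r r25 (@Lb.d (nat_lit 24) (nat_lit 154) (nat_lit 266) (@Lb.fm (nat_lit 3) t2781)))))))))
noncomputable def l41177 : Lb := (@Lb.d (nat_lit 8) (nat_lit 258) (nat_lit 130) (@Lb.g g9 (@Lb.g g10 (@Lb.g g11 (@Lb.r r586 (@Lb.r r584 (@Lb.r r299 (@Lb.r r1425 (@Lb.d (nat_lit 293) (nat_lit 9) (nat_lit 2) (@Lb.t (@Lb.fp (nat_lit 9) t410)))))))))))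
noncomputable def l41178 : Lb := (@Lb.r r323 (@Lb.d (nat_lit 9) (nat_lit 545) (nat_lit 2) (@Lb.g g8 (@Lb.g g9 (@Lb.g g10 (@Lb.r r599 (@Lb.r r74 (@Lb.r r296 (@Lb.r r409 (@Lb.d (nat_lit 150) (nat_lit 38) (nat_lit 68) (@Lb.t (@Lb.fm (nat_lit 9) t119))))))))))))
noncomputable def l41179 : Lb := (@Lb.d (nat_lit 129) (nat_lit 258) (nat_lit 130) (@Lb.g g8 (@Lb.g g9 (@Lb.g g10 (@Lb.g g11 (@Lb.r r1371 (@Lb.r r386 (@Lb.r r97 (@Lb.r r532 (@Lb.d (nat_lit 578) (nat_lit 161) (nat_lit 522) (@Lb.fp (nat_lit 9) t2130)))))))))))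
noncomputable def l41180 : Lb := (@Lb.d (nat_lit 9) (nat_lit 596) (nat_lit 293) (@Lb.r r593 (@Lb.r r422 (@Lb.g g11 (@Lb.g g5 (@Lb.g g8 (@Lb.d (nat_lit 676) (nat_lit 18) (nat_lit 640) (@Lb.r r578 (@Lb.t (@Lb.fm (nat_lit 9) t3232))))))))))
noncomputable def l41181 : Lb := (@Lb.d (nat_lit 128) (nat_lit 272) (nat_lit 580) (@Lb.g g7 (@Lb.r r1126 (@Lb.r r24 (@Lb.d (nat_lit 24) (nat_lit 66) (nat_lit 102) (@Lb.t (@Lb.fp (nat_lit 3) t1025)))))))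
noncomputable def l41182 : Lb := (@Lb.r r70 (@Lb.d (nat_lit 2) (nat_lit 4) (nat_lit 128) (@Lb.g g8 (@Lb.g g5 (@Lb.g g11 (@Lb.r r1691 (@Lb.r r1610 (@Lb.r r612 (@Lb.d (nat_lit 2) (nat_lit 153) (nat_lit 665) (@Lb.t (@Lb.fm (nat_lit 9) t50)))))))))))
noncomputable def l41183 : Lb := (@Lb.r r1126 (@Lb.r r24 (@Lb.d (nat_lit 24) (nat_lit 66) (nat_lit 32) (@Lb.fm (nat_lit 1) t3071))))
noncomputable def l41184 : Lb := (@Lb.r r323 (@Lb.d (nat_lit 0) (nat_lit 66) (nat_lit 2) (@Lb.g g4 (@Lb.g g9 (@Lb.g g10 (@Lb.r r354 (@Lb.r r387 (@Lb.d (nat_lit 1) (nat_lit 149) (nat_lit 321) (@Lb.t (@Lb.fp (nat_lit 9) t51))))))))))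
noncomputable def l41185 : Lb := (@Lb.r r21 (@Lb.d (nat_lit 18) (nat_lit 512) (nat_lit 128) (@Lb.g g8 (@Lb.g g10 (@Lb.g g11 (@Lb.r r1381 (@Lb.r r2715 (@Lb.r r2634 (@Lb.d (nat_lit 612) (nat_lit 64) (nat_lit 170) (@Lb.t (@Lb.fm (nat_lit 9) t5207)))))))))))
noncomputable def l41186 : Lb := (@Lb.r r21 (@Lb.d (nat_lit 2) (nat_lit 512) (nat_lit 130) (@Lb.g g8 (@Lb.g g10 (@Lb.g g11 (@Lb.r r1683 (@Lb.r r2184 (@Lb.r r1610 (@Lb.r r97 (@Lb.d (nat_lit 408) (nat_lit 66) (nat_lit 85) (@Lb.t (@Lb.fp (nat_lit 9) t790))))))))))))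
noncomputable def l41187 : Lb := (@Lb.d (nat_lit 9) (nat_lit 516) (nat_lit 74) (@Lb.g g8 (@Lb.g g5 (@Lb.g g10 (@Lb.g g11 (@Lb.r r1691 (@Lb.r r1610 (@Lb.d (nat_lit 102) (nat_lit 148) (nat_lit 664) (@Lb.fp (nat_lit 9) t50)))))))))
noncomputable def l41188 : Lb := (@Lb.g g8 (@Lb.r r2315 (@Lb.r r2345 (@Lb.r r2468 (@Lb.r r134 (@Lb.d (nat_lit 0) (nat_lit 170) (nat_lit 614) (@Lb.t (@Lb.fp (nat_lit 3) t954))))))))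
noncomputable def l41189 : Lb := (@Lb.g g4 (@Lb.r r2311 (@Lb.r r2341 (@Lb.r r1624 (@Lb.r r134 (@Lb.d (nat_lit 0) (nat_lit 16) (nat_lit 280) (@Lb.t (@Lb.fp (nat_lit 3) t954))))))))
noncomputable def l41190 : Lb := (@Lb.d (nat_lit 8) (nat_lit 289) (nat_lit 145) (@Lb.g g9 (@Lb.g g10 (@Lb.g g11 (@Lb.r r344 (@Lb.r r359 (@Lb.r r1445 (@Lb.d (nat_lit 582) (nat_lit 32) (nat_lit 273) (@Lb.t (@Lb.fm (nat_lit 9) t3240))))))))))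
noncomputable def l41191 : Lb := (@Lb.r r82 (@Lb.d (nat_lit 2) (nat_lit 258) (nat_lit 0) (@Lb.g g8 (@Lb.g g9 (@Lb.r r1451 (@Lb.r r1441 (@Lb.r r98 (@Lb.d (nat_lit 354) (nat_lit 100) (nat_lit 544) (@Lb.fp (nat_lit 3) t6949)))))))))
noncomputable def l41192 : Lb := (@Lb.d (nat_lit 37) (nat_lit 278) (nat_lit 64) (@Lb.r r2321 (@Lb.r r1639 (@Lb.r r264 (@Lb.g g7 (@Lb.g g10 (@Lb.g g5 (@Lb.d (nat_lit 96) (nat_lit 6) (nat_lit 66) (@Lb.t (@Lb.fm (nat_lit 9) t7093))))))))))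
noncomputable def l41193 : Lb := (@Lb.d (nat_lit 0) (nat_lit 512) (nat_lit 129) (@Lb.g g10 (@Lb.g g11 (@Lb.r r618 (@Lb.r r2659 (@Lb.r r1304 (@Lb.r r2661 (@Lb.d (nat_lit 388) (nat_lit 166) (nat_lit 586) (@Lb.fp (nat_lit 3) t7094)))))))))
noncomputable def l41194 : Lb := (@Lb.d (nat_lit 6) (nat_lit 665) (nat_lit 260) (@Lb.r r21 (@Lb.r r579 (@Lb.r r1366 (@Lb.g g7 (@Lb.g g6 (@Lb.g g5 (@Lb.g g4 (@Lb.d (nat_lit 1) (nat_lit 1) (nat_lit 134) (@Lb.fm (nat_lit 9) t2685))))))))))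
noncomputable def l41195 : Lb := (@Lb.d (nat_lit 38) (nat_lit 22) (nat_lit 64) (@Lb.r r2321 (@Lb.r r1639 (@Lb.r r264 (@Lb.g g7 (@Lb.g g10 (@Lb.g g5 (@Lb.d (nat_lit 96) (nat_lit 6) (nat_lit 66) (@Lb.t (@Lb.fm (nat_lit 9) t7093))))))))))
noncomputable def l41196 : Lb := (@Lb.d (nat_lit 128) (nat_lit 0) (nat_lit 129) (@Lb.g g10 (@Lb.g g11 (@Lb.r r24 (@Lb.r r165 (@Lb.r r2666 (@Lb.r r2635 (@Lb.d (nat_lit 342) (nat_lit 18) (nat_lit 594) (@Lb.fp (nat_lit 3) t4742)))))))))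
noncomputable def l41197 : Lb := (@Lb.d (nat_lit 2) (nat_lit 258) (nat_lit 130) (@Lb.g g8 (@Lb.g g9 (@Lb.g g10 (@Lb.g g11 (@Lb.r r2411 (@Lb.r r386 (@Lb.r r100 (@Lb.r r21 (@Lb.r r36 (@Lb.d (nat_lit 97) (nat_lit 74) (nat_lit 598) (@Lb.fm (nat_lit 9) t1306))))))))))))
noncomputable def l41198 : Lb := (@Lb.r r323 (@Lb.d (nat_lit 130) (nat_lit 521) (nat_lit 1) (@Lb.g g8 (@Lb.g g9 (@Lb.g g10 (@Lb.r r599 (@Lb.r r98 (@Lb.r r361 (@Lb.r r2312 (@Lb.d (nat_lit 402) (nat_lit 9) (nat_lit 577) (@Lb.t (@Lb.fp (nat_lit 9) t7095))))))))))))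
noncomputable def l41199 : Lb := (@Lb.d (nat_lit 0) (nat_lit 514) (nat_lit 128) (@Lb.g g9 (@Lb.g g10 (@Lb.g g11 (@Lb.r r2595 (@Lb.r r1414 (@Lb.r r88 (@Lb.r r37 (@Lb.d (nat_lit 69) (nat_lit 97) (nat_lit 128) (@Lb.t (@Lb.fm (nat_lit 9) t2815)))))))))))
noncomputable def l41200 : Lb := (@Lb.d (nat_lit 0) (nat_lit 2) (nat_lit 64) (@Lb.g g9 (@Lb.g g10 (@Lb.g g11 (@Lb.r r2595 (@Lb.r r1414 (@Lb.r r88 (@Lb.r r37 (@Lb.d (nat_lit 69) (nat_lit 97) (nat_lit 128) (@Lb.t (@Lb.fm (nat_lit 9) t2815)))))))))))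
noncomputable def l41201 : Lb := (@Lb.d (nat_lit 4) (nat_lit 1) (nat_lit 0) (@Lb.g g5 (@Lb.r r1126 (@Lb.r r24 (@Lb.d (nat_lit 576) (nat_lit 6) (nat_lit 513) (@Lb.t (@Lb.fp (nat_lit 3) t3316)))))))
noncomputable def l41202 : Lb := (@Lb.d (nat_lit 665) (nat_lit 22) (nat_lit 321) (@Lb.r r2660 (@Lb.r r1637 (@Lb.r r346 (@Lb.g g11 (@Lb.g g4 (@Lb.d (nat_lit 21) (nat_lit 0) (nat_lit 72) (@Lb.fm (nat_lit 3) t386))))))))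
noncomputable def l41203 : Lb := (@Lb.d (nat_lit 362) (nat_lit 601) (nat_lit 294) (@Lb.r r2657 (@Lb.r r1430 (@Lb.r r619 (@Lb.g g7 (@Lb.g g5 (@Lb.g g4 (@Lb.d (nat_lit 1) (nat_lit 5) (nat_lit 0) (@Lb.r r98 (@Lb.t (@Lb.fm (nat_lit 9) t40)))))))))))
noncomputable def l41204 : Lb := (@Lb.d (nat_lit 0) (nat_lit 0) (nat_lit 130) (@Lb.g g10 (@Lb.g g11 (@Lb.r r419 (@Lb.r r386 (@Lb.r r101 (@Lb.d (nat_lit 149) (nat_lit 153) (nat_lit 137) (@Lb.fm (nat_lit 3) t1231))))))))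
noncomputable def l41205 : Lb := (@Lb.d (nat_lit 0) (nat_lit 512) (nat_lit 136) (@Lb.g g11 (@Lb.r r402 (@Lb.r r101 (@Lb.d (nat_lit 10) (nat_lit 130) (nat_lit 74) (@Lb.t (@Lb.fp (nat_lit 3) t1653)))))))
noncomputable def l41206 : Lb := (@Lb.d (nat_lit 4) (nat_lit 2) (nat_lit 66) (@Lb.g g9 (@Lb.g g10 (@Lb.g g11 (@Lb.r r1451 (@Lb.r r98 (@Lb.r r8 (@Lb.d (nat_lit 610) (nat_lit 9) (nat_lit 425) (@Lb.t (@Lb.fp (nat_lit 9) t4151))))))))))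
noncomputable def l41207 : Lb := (@Lb.r r168 (@Lb.r r425 (@Lb.r r2474 (@Lb.r r2391 (@Lb.r r1700 (@Lb.d (nat_lit 256) (nat_lit 256) (nat_lit 0) (@Lb.fm (nat_lit 1) t1261)))))))
noncomputable def l41208 : Lb := (@Lb.d (nat_lit 86) (nat_lit 153) (nat_lit 357) (@Lb.r r2453 (@Lb.r r1430 (@Lb.r r363 (@Lb.g g5 (@Lb.g g4 (@Lb.d (nat_lit 1) (nat_lit 22) (nat_lit 0) (@Lb.fp (nat_lit 3) t2241))))))))
noncomputable def l41209 : Lb := (@Lb.d (nat_lit 2) (nat_lit 2) (nat_lit 66) (@Lb.g g8 (@Lb.g g9 (@Lb.g g10 (@Lb.g g11 (@Lb.r r1638 (@Lb.r r408 (@Lb.r r295 (@Lb.r r2069 (@Lb.r r1060 (@Lb.d (nat_lit 9) (nat_lit 161) (nat_lit 522) (@Lb.fm (nat_lit 9) t2902))))))))))))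
noncomputable def l41210 : Lb := (@Lb.d (nat_lit 390) (nat_lit 150) (nat_lit 530) (@Lb.r r2325 (@Lb.r r2390 (@Lb.r r2731 (@Lb.g g7 (@Lb.g g6 (@Lb.g g5 (@Lb.g g4 (@Lb.d (nat_lit 1) (nat_lit 0) (nat_lit 65) (@Lb.fm (nat_lit 9) t1242))))))))))
noncomputable def l41211 : Lb := (@Lb.r r21 (@Lb.d (nat_lit 6) (nat_lit 264) (nat_lit 2) (@Lb.g g8 (@Lb.g g10 (@Lb.r r1691 (@Lb.r r1381 (@Lb.r r2202 (@Lb.d (nat_lit 329) (nat_lit 9) (nat_lit 537) (@Lb.fp (nat_lit 3) t172)))))))))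
noncomputable def l41212 : Lb := (@Lb.r r82 (@Lb.d (nat_lit 32) (nat_lit 33) (nat_lit 64) (@Lb.g g8 (@Lb.g g9 (@Lb.g g11 (@Lb.r r1571 (@Lb.r r582 (@Lb.r r1445 (@Lb.r r408 (@Lb.d (nat_lit 341) (nat_lit 25) (nat_lit 324) (@Lb.t (@Lb.fp (nat_lit 9) t3303))))))))))))
noncomputable def l41213 : Lb := (@Lb.r r2311 (@Lb.r r664 (@Lb.r r154 (@Lb.r r2133 (@Lb.r r164 (@Lb.d (nat_lit 608) (nat_lit 512) (nat_lit 682) (@Lb.fp (nat_lit 1) t386)))))))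
noncomputable def l41214 : Lb := (@Lb.d (nat_lit 0) (nat_lit 576) (nat_lit 0) (@Lb.r r82 (@Lb.r r275 (@Lb.g g9 (@Lb.g g4 (@Lb.d (nat_lit 1) (nat_lit 2) (nat_lit 0) (@Lb.r r291 (@Lb.r r98 (@Lb.fp (nat_lit 3) t5)))))))))
noncomputable def l41215 : Lb := (@Lb.d (nat_lit 0) (nat_lit 581) (nat_lit 594) (@Lb.r r24 (@Lb.r r2321 (@Lb.r r2386 (@Lb.r r2723 (@Lb.g g7 (@Lb.g g6 (@Lb.g g5 (@Lb.d (nat_lit 0) (nat_lit 8) (nat_lit 128) (@Lb.t (@Lb.fp (nat_lit 9) t3905)))))))))))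
noncomputable def l41216 : Lb := (@Lb.d (nat_lit 2) (nat_lit 258) (nat_lit 66) (@Lb.g g8 (@Lb.g g9 (@Lb.g g10 (@Lb.g g7 (@Lb.r r386 (@Lb.r r1129 (@Lb.r r36 (@Lb.d (nat_lit 546) (nat_lit 80) (nat_lit 281) (@Lb.fm (nat_lit 9) t845))))))))))
noncomputable def l41217 : Lb := (@Lb.d (nat_lit 2) (nat_lit 514) (nat_lit 66) (@Lb.g g8 (@Lb.g g9 (@Lb.g g10 (@Lb.g g7 (@Lb.r r386 (@Lb.r r1129 (@Lb.r r36 (@Lb.d (nat_lit 553) (nat_lit 82) (nat_lit 281) (@Lb.fm (nat_lit 9) t845))))))))))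
noncomputable def l41218 : Lb := (@Lb.d (nat_lit 1) (nat_lit 66) (nat_lit 130) (@Lb.g g4 (@Lb.g g9 (@Lb.g g10 (@Lb.g g11 (@Lb.r r419 (@Lb.r r386 (@Lb.d (nat_lit 293) (nat_lit 34) (nat_lit 105) (@Lb.fp (nat_lit 9) t3056)))))))))
noncomputable def l41219 : Lb := (@Lb.d (nat_lit 9) (nat_lit 6) (nat_lit 1) (@Lb.g g8 (@Lb.g g9 (@Lb.g g10 (@Lb.r r2723 (@Lb.r r657 (@Lb.r r2404 (@Lb.r r1178 (@Lb.d (nat_lit 425) (nat_lit 137) (nat_lit 324) (@Lb.t (@Lb.fm (nat_lit 9) t602)))))))))))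
noncomputable def l41220 : Lb := (@Lb.d (nat_lit 9) (nat_lit 514) (nat_lit 73) (@Lb.g g8 (@Lb.g g9 (@Lb.g g10 (@Lb.g g11 (@Lb.r r2691 (@Lb.r r2345 (@Lb.r r648 (@Lb.r r666 (@Lb.r r1156 (@Lb.d (nat_lit 646) (nat_lit 40) (nat_lit 601) (@Lb.fp (nat_lit 9) t668))))))))))))
noncomputable def l41221 : Lb := (@Lb.d (nat_lit 2) (nat_lit 600) (nat_lit 1) (@Lb.g g8 (@Lb.g g5 (@Lb.g g10 (@Lb.r r2452 (@Lb.r r1643 (@Lb.r r1366 (@Lb.d (nat_lit 582) (nat_lit 162) (nat_lit 354) (@Lb.t (@Lb.fm (nat_lit 9) t2241))))))))))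
noncomputable def l41222 : Lb := (@Lb.r r82 (@Lb.d (nat_lit 65) (nat_lit 261) (nat_lit 0) (@Lb.g g8 (@Lb.g g9 (@Lb.g g11 (@Lb.r r1451 (@Lb.r r386 (@Lb.r r148 (@Lb.d (nat_lit 38) (nat_lit 153) (nat_lit 138) (@Lb.t (@Lb.fp (nat_lit 9) t2407)))))))))))
noncomputable def l41223 : Lb := (@Lb.r r82 (@Lb.d (nat_lit 274) (nat_lit 514) (nat_lit 0) (@Lb.g g8 (@Lb.g g9 (@Lb.r r2731 (@Lb.r r1642 (@Lb.r r1633 (@Lb.d (nat_lit 609) (nat_lit 66) (nat_lit 9) (@Lb.fm (nat_lit 3) t1877)))))))))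
noncomputable def l41224 : Lb := (@Lb.d (nat_lit 657) (nat_lit 656) (nat_lit 404) (@Lb.r r1560 (@Lb.r r1435 (@Lb.r r2709 (@Lb.g g6 (@Lb.g g5 (@Lb.g g4 (@Lb.d (nat_lit 65) (nat_lit 1) (nat_lit 33) (@Lb.r r391 (@Lb.t (@Lb.fm (nat_lit 9) t283)))))))))))
noncomputable def l41225 : Lb := (@Lb.r r82 (@Lb.d (nat_lit 274) (nat_lit 2) (nat_lit 0) (@Lb.g g8 (@Lb.g g9 (@Lb.r r2731 (@Lb.r r1642 (@Lb.r r1633 (@Lb.d (nat_lit 609) (nat_lit 10) (nat_lit 8) (@Lb.fm (nat_lit 3) t7096)))))))))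
noncomputable def l41226 : Lb := (@Lb.r r82 (@Lb.r r275 (@Lb.d (nat_lit 649) (nat_lit 0) (nat_lit 0) (@Lb.g g4 (@Lb.g g9 (@Lb.r r1563 (@Lb.r r386 (@Lb.r r2705 (@Lb.d (nat_lit 1) (nat_lit 69) (nat_lit 17) (@Lb.fp (nat_lit 3) t5194))))))))))
noncomputable def l41227 : Lb := (@Lb.d (nat_lit 0) (nat_lit 2) (nat_lit 34) (@Lb.r r609 (@Lb.r r619 (@Lb.r r584 (@Lb.g g10 (@Lb.g g5 (@Lb.d (nat_lit 32) (nat_lit 5) (nat_lit 18) (@Lb.r r387 (@Lb.fm (nat_lit 3) t1987)))))))))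
noncomputable def l41228 : Lb := (@Lb.r r331 (@Lb.d (nat_lit 513) (nat_lit 265) (nat_lit 2) (@Lb.g g8 (@Lb.g g9 (@Lb.g g10 (@Lb.r r2730 (@Lb.r r1411 (@Lb.r r2585 (@Lb.d (nat_lit 329) (nat_lit 33) (nat_lit 394) (@Lb.t (@Lb.fp (nat_lit 9) t7097)))))))))))
noncomputable def l41229 : Lb := (@Lb.d (nat_lit 260) (nat_lit 601) (nat_lit 170) (@Lb.r r1044 (@Lb.r r2450 (@Lb.g g5 (@Lb.g g4 (@Lb.r r1291 (@Lb.r r74 (@Lb.fp (nat_lit 3) t7098))))))))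
noncomputable def l41230 : Lb := (@Lb.r r21 (@Lb.d (nat_lit 6) (nat_lit 0) (nat_lit 66) (@Lb.g g8 (@Lb.g g10 (@Lb.g g11 (@Lb.r r1433 (@Lb.r r1707 (@Lb.r r1674 (@Lb.r r1700 (@Lb.d (nat_lit 277) (nat_lit 16) (nat_lit 389) (@Lb.t (@Lb.fm (nat_lit 9) t5794))))))))))))
noncomputable def l41231 : Lb := (@Lb.d (nat_lit 128) (nat_lit 32) (nat_lit 64) (@Lb.g g11 (@Lb.r r2646 (@Lb.r r409 (@Lb.r r1432 (@Lb.r r2407 (@Lb.d (nat_lit 602) (nat_lit 37) (nat_lit 613) (@Lb.t (@Lb.fm (nat_lit 3) t322)))))))))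
noncomputable def l41232 : Lb := (@Lb.r r516 (@Lb.d (nat_lit 128) (nat_lit 266) (nat_lit 320) (@Lb.g g9 (@Lb.g g11 (@Lb.r r2404 (@Lb.r r1626 (@Lb.r r1429 (@Lb.d (nat_lit 612) (nat_lit 90) (nat_lit 425) (@Lb.fm (nat_lit 3) t6702)))))))))
noncomputable def l41233 : Lb := (@Lb.r r21 (@Lb.d (nat_lit 514) (nat_lit 4) (nat_lit 130) (@Lb.g g8 (@Lb.g g10 (@Lb.g g11 (@Lb.r r2713 (@Lb.r r1367 (@Lb.r r2698 (@Lb.d (nat_lit 385) (nat_lit 0) (nat_lit 134) (@Lb.t (@Lb.fp (nat_lit 9) t221)))))))))))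
noncomputable def l41234 : Lb := (@Lb.d (nat_lit 2) (nat_lit 514) (nat_lit 72) (@Lb.g g8 (@Lb.g g9 (@Lb.g g11 (@Lb.r r1410 (@Lb.r r579 (@Lb.r r104 (@Lb.r r25 (@Lb.d (nat_lit 522) (nat_lit 4) (nat_lit 16) (@Lb.t (@Lb.fp (nat_lit 9) t40)))))))))))
noncomputable def l41235 : Lb := (@Lb.r r21 (@Lb.r r331 (@Lb.d (nat_lit 1) (nat_lit 0) (nat_lit 32) (@Lb.g g8 (@Lb.g g10 (@Lb.r r2708 (@Lb.r r391 (@Lb.r r25 (@Lb.d (nat_lit 645) (nat_lit 33) (nat_lit 400) (@Lb.fm (nat_lit 3) t979))))))))))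
noncomputable def l41236 : Lb := (@Lb.d (nat_lit 338) (nat_lit 2) (nat_lit 24) (@Lb.r r324 (@Lb.r r411 (@Lb.r r402 (@Lb.g g9 (@Lb.g g4 (@Lb.d (nat_lit 16) (nat_lit 25) (nat_lit 0) (@Lb.fm (nat_lit 3) t406))))))))
noncomputable def l41237 : Lb := (@Lb.d (nat_lit 1) (nat_lit 522) (nat_lit 169) (@Lb.r r2632 (@Lb.r r2454 (@Lb.r r1121 (@Lb.r r1291 (@Lb.g g11 (@Lb.t (@Lb.fm (nat_lit 3) t2142))))))))
noncomputable def l41238 : Lb := (@Lb.d (nat_lit 274) (nat_lit 290) (nat_lit 0) (@Lb.g g4 (@Lb.g g9 (@Lb.r r531 (@Lb.r r134 (@Lb.r r401 (@Lb.d (nat_lit 1) (nat_lit 26) (nat_lit 528) (@Lb.fp (nat_lit 3) t40))))))))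
noncomputable def l41239 : Lb := (@Lb.r r82 (@Lb.d (nat_lit 2) (nat_lit 258) (nat_lit 136) (@Lb.g g8 (@Lb.g g9 (@Lb.g g11 (@Lb.r r2665 (@Lb.r r2198 (@Lb.r r1380 (@Lb.r r395 (@Lb.d (nat_lit 385) (nat_lit 81) (nat_lit 553) (@Lb.t (@Lb.fm (nat_lit 9) t2095))))))))))))
noncomputable def l41240 : Lb := (@Lb.r r134 (@Lb.r r324 (@Lb.r r411 (@Lb.r r609 (@Lb.r r36 (@Lb.d (nat_lit 0) (nat_lit 581) (nat_lit 17) (@Lb.fp (nat_lit 1) t334)))))))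
noncomputable def l41241 : Lb := (@Lb.d (nat_lit 64) (nat_lit 34) (nat_lit 578) (@Lb.g g8 (@Lb.g g9 (@Lb.g g10 (@Lb.g g7 (@Lb.r r386 (@Lb.r r1129 (@Lb.r r264 (@Lb.d (nat_lit 666) (nat_lit 26) (nat_lit 149) (@Lb.fp (nat_lit 9) t3278))))))))))
noncomputable def l41242 : Lb := (@Lb.r r82 (@Lb.d (nat_lit 34) (nat_lit 514) (nat_lit 136) (@Lb.g g8 (@Lb.g g9 (@Lb.g g11 (@Lb.r r2118 (@Lb.r r1621 (@Lb.r r1444 (@Lb.r r411 (@Lb.d (nat_lit 514) (nat_lit 24) (nat_lit 96) (@Lb.t (@Lb.fm (nat_lit 9) t148))))))))))))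
noncomputable def l41243 : Lb := (@Lb.d (nat_lit 0) (nat_lit 521) (nat_lit 72) (@Lb.g g8 (@Lb.g g9 (@Lb.g g10 (@Lb.g g11 (@Lb.r r2691 (@Lb.r r153 (@Lb.r r602 (@Lb.r r2193 (@Lb.d (nat_lit 133) (nat_lit 161) (nat_lit 90) (@Lb.fm (nat_lit 9) t694)))))))))))
noncomputable def l41244 : Lb := (@Lb.d (nat_lit 389) (nat_lit 600) (nat_lit 424) (@Lb.r r277 (@Lb.r r363 (@Lb.r r328 (@Lb.g g6 (@Lb.d (nat_lit 16) (nat_lit 0) (nat_lit 9) (@Lb.t (@Lb.fp (nat_lit 3) t7099))))))))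
noncomputable def l41245 : Lb := (@Lb.d (nat_lit 0) (nat_lit 18) (nat_lit 586) (@Lb.g g9 (@Lb.g g10 (@Lb.g g7 (@Lb.r r1442 (@Lb.r r2457 (@Lb.d (nat_lit 168) (nat_lit 21) (nat_lit 345) (@Lb.t (@Lb.fm (nat_lit 9) t4248)))))))))
noncomputable def l41246 : Lb := (@Lb.d (nat_lit 0) (nat_lit 546) (nat_lit 1) (@Lb.g g9 (@Lb.g g10 (@Lb.r r1347 (@Lb.r r2386 (@Lb.r r421 (@Lb.r r24 (@Lb.d (nat_lit 257) (nat_lit 5) (nat_lit 330) (@Lb.fm (nat_lit 3) t1087)))))))))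
noncomputable def l41247 : Lb := (@Lb.d (nat_lit 385) (nat_lit 33) (nat_lit 320) (@Lb.r r2577 (@Lb.r r2707 (@Lb.r r2730 (@Lb.r r152 (@Lb.g g5 (@Lb.d (nat_lit 4) (nat_lit 5) (nat_lit 0) (@Lb.t (@Lb.fp (nat_lit 3) t1445)))))))))
noncomputable def l41248 : Lb := (@Lb.d (nat_lit 8) (nat_lit 512) (nat_lit 2) (@Lb.g g8 (@Lb.g g10 (@Lb.g g11 (@Lb.r r293 (@Lb.r r1435 (@Lb.r r386 (@Lb.r r1112 (@Lb.d (nat_lit 41) (nat_lit 4) (nat_lit 552) (@Lb.t (@Lb.fp (nat_lit 9) t2344)))))))))))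
noncomputable def l41249 : Lb := (@Lb.g g7 (@Lb.r r134 (@Lb.r r1284 (@Lb.r r2651 (@Lb.r r289 (@Lb.d (nat_lit 321) (nat_lit 517) (nat_lit 529) (@Lb.t (@Lb.fp (nat_lit 3) t4100))))))))
noncomputable def l41250 : Lb := (@Lb.d (nat_lit 0) (nat_lit 290) (nat_lit 614) (@Lb.r r2116 (@Lb.r r1105 (@Lb.r r2386 (@Lb.g g7 (@Lb.g g6 (@Lb.g g5 (@Lb.d (nat_lit 0) (nat_lit 18) (nat_lit 328) (@Lb.r r292 (@Lb.t (@Lb.fp (nat_lit 9) t7100)))))))))))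
noncomputable def l41251 : Lb := (@Lb.r r323 (@Lb.d (nat_lit 138) (nat_lit 0) (nat_lit 1) (@Lb.g g8 (@Lb.g g10 (@Lb.r r330 (@Lb.r r661 (@Lb.r r1431 (@Lb.r r2632 (@Lb.d (nat_lit 361) (nat_lit 145) (nat_lit 66) (@Lb.fp (nat_lit 3) t1612))))))))))
noncomputable def l41252 : Lb := (@Lb.r r597 (@Lb.d (nat_lit 386) (nat_lit 0) (nat_lit 66) (@Lb.g g8 (@Lb.g g10 (@Lb.g g11 (@Lb.r r1610 (@Lb.r r587 (@Lb.r r1169 (@Lb.d (nat_lit 341) (nat_lit 81) (nat_lit 682) (@Lb.t (@Lb.fp (nat_lit 9) t3442)))))))))))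
noncomputable def l41253 : Lb := (@Lb.d (nat_lit 657) (nat_lit 520) (nat_lit 512) (@Lb.r r1633 (@Lb.r r2411 (@Lb.r r1352 (@Lb.g g7 (@Lb.g g6 (@Lb.g g5 (@Lb.d (nat_lit 16) (nat_lit 17) (nat_lit 66) (@Lb.t (@Lb.fp (nat_lit 9) t7101))))))))))
noncomputable def l41254 : Lb := (@Lb.r r323 (@Lb.d (nat_lit 130) (nat_lit 297) (nat_lit 1) (@Lb.g g8 (@Lb.g g9 (@Lb.g g10 (@Lb.r r427 (@Lb.r r678 (@Lb.r r2388 (@Lb.r r1193 (@Lb.d (nat_lit 4) (nat_lit 160) (nat_lit 96) (@Lb.t (@Lb.fm (nat_lit 9) t1684))))))))))))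
noncomputable def l41255 : Lb := (@Lb.d (nat_lit 549) (nat_lit 36) (nat_lit 548) (@Lb.r r2452 (@Lb.r r1642 (@Lb.r r1371 (@Lb.g g9 (@Lb.g g4 (@Lb.d (nat_lit 1) (nat_lit 33) (nat_lit 0) (@Lb.fp (nat_lit 3) t7102))))))))
noncomputable def l41256 : Lb := (@Lb.d (nat_lit 2) (nat_lit 258) (nat_lit 2) (@Lb.g g8 (@Lb.g g9 (@Lb.g g10 (@Lb.g g7 (@Lb.r r386 (@Lb.r r1641 (@Lb.r r1608 (@Lb.d (nat_lit 406) (nat_lit 134) (nat_lit 661) (@Lb.fp (nat_lit 9) t1403))))))))))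
noncomputable def l41257 : Lb := (@Lb.d (nat_lit 0) (nat_lit 256) (nat_lit 130) (@Lb.g g8 (@Lb.g g9 (@Lb.g g10 (@Lb.g g11 (@Lb.r r586 (@Lb.r r584 (@Lb.r r299 (@Lb.r r409 (@Lb.d (nat_lit 2) (nat_lit 64) (nat_lit 16) (@Lb.fm (nat_lit 9) t1022)))))))))))
noncomputable def l41258 : Lb := (@Lb.d (nat_lit 20) (nat_lit 2) (nat_lit 33) (@Lb.r r68 (@Lb.r r90 (@Lb.r r596 (@Lb.r r343 (@Lb.g g7 (@Lb.g g6 (@Lb.g g5 (@Lb.g g4 (@Lb.d (nat_lit 1) (nat_lit 25) (nat_lit 128) (@Lb.fp (nat_lit 9) t242)))))))))))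
noncomputable def l41259 : Lb := (@Lb.r r580 (@Lb.d (nat_lit 32) (nat_lit 2) (nat_lit 144) (@Lb.g g9 (@Lb.g g10 (@Lb.g g11 (@Lb.r r2323 (@Lb.r r145 (@Lb.r r1048 (@Lb.d (nat_lit 37) (nat_lit 86) (nat_lit 554) (@Lb.t (@Lb.fp (nat_lit 9) t3747)))))))))))
noncomputable def l41260 : Lb := (@Lb.d (nat_lit 329) (nat_lit 677) (nat_lit 105) (@Lb.r r665 (@Lb.r r603 (@Lb.g g6 (@Lb.g g5 (@Lb.g g8 (@Lb.d (nat_lit 1) (nat_lit 18) (nat_lit 33) (@Lb.r r387 (@Lb.t (@Lb.fp (nat_lit 9) t7103))))))))))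
noncomputable def l41261 : Lb := (@Lb.d (nat_lit 0) (nat_lit 512) (nat_lit 130) (@Lb.g g8 (@Lb.g g10 (@Lb.g g11 (@Lb.r r586 (@Lb.r r584 (@Lb.r r299 (@Lb.r r409 (@Lb.d (nat_lit 2) (nat_lit 74) (nat_lit 18) (@Lb.t (@Lb.fp (nat_lit 9) t1022)))))))))))
noncomputable def l41262 : Lb := (@Lb.d (nat_lit 6) (nat_lit 512) (nat_lit 0) (@Lb.g g4 (@Lb.r r2138 (@Lb.r r149 (@Lb.d (nat_lit 1) (nat_lit 70) (nat_lit 32) (@Lb.t (@Lb.fm (nat_lit 3) t2067)))))))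
noncomputable def l41263 : Lb := (@Lb.d (nat_lit 9) (nat_lit 257) (nat_lit 2) (@Lb.g g8 (@Lb.g g9 (@Lb.g g10 (@Lb.g g7 (@Lb.r r386 (@Lb.r r1641 (@Lb.r r2436 (@Lb.d (nat_lit 406) (nat_lit 38) (nat_lit 9) (@Lb.fm (nat_lit 9) t2877))))))))))
noncomputable def l41264 : Lb := (@Lb.r r82 (@Lb.d (nat_lit 132) (nat_lit 256) (nat_lit 128) (@Lb.g g8 (@Lb.g g9 (@Lb.g g11 (@Lb.r r2593 (@Lb.r r2343 (@Lb.r r146 (@Lb.r r2584 (@Lb.d (nat_lit 617) (nat_lit 162) (nat_lit 418) (@Lb.t (@Lb.fp (nat_lit 9) t1144))))))))))))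
noncomputable def l41265 : Lb := (@Lb.d (nat_lit 150) (nat_lit 402) (nat_lit 545) (@Lb.r r331 (@Lb.r r2630 (@Lb.r r2196 (@Lb.g g7 (@Lb.g g5 (@Lb.g g4 (@Lb.d (nat_lit 74) (nat_lit 128) (nat_lit 64) (@Lb.t (@Lb.fp (nat_lit 9) t2877))))))))))
noncomputable def l41266 : Lb := (@Lb.d (nat_lit 160) (nat_lit 8) (nat_lit 128) (@Lb.g g10 (@Lb.g g11 (@Lb.r r260 (@Lb.r r2667 (@Lb.r r1633 (@Lb.r r338 (@Lb.d (nat_lit 73) (nat_lit 148) (nat_lit 262) (@Lb.fm (nat_lit 3) t322)))))))))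
noncomputable def l41267 : Lb := (@Lb.d (nat_lit 4) (nat_lit 0) (nat_lit 2) (@Lb.g g8 (@Lb.g g9 (@Lb.g g10 (@Lb.g g11 (@Lb.r r1675 (@Lb.r r536 (@Lb.r r2197 (@Lb.r r2646 (@Lb.r r164 (@Lb.d (nat_lit 154) (nat_lit 137) (nat_lit 330) (@Lb.fp (nat_lit 9) t4786))))))))))))
noncomputable def l41268 : Lb := (@Lb.d (nat_lit 0) (nat_lit 258) (nat_lit 66) (@Lb.g g8 (@Lb.g g9 (@Lb.g g10 (@Lb.g g7 (@Lb.r r1442 (@Lb.r r145 (@Lb.r r2120 (@Lb.d (nat_lit 608) (nat_lit 164) (nat_lit 32) (@Lb.fm (nat_lit 9) t3206))))))))))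
noncomputable def l41269 : Lb := (@Lb.d (nat_lit 32) (nat_lit 0) (nat_lit 2) (@Lb.g g10 (@Lb.r r24 (@Lb.r r2405 (@Lb.r r2650 (@Lb.d (nat_lit 362) (nat_lit 150) (nat_lit 10) (@Lb.t (@Lb.fp (nat_lit 3) t246))))))))
noncomputable def l41270 : Lb := (@Lb.d (nat_lit 2) (nat_lit 258) (nat_lit 130) (@Lb.g g8 (@Lb.g g9 (@Lb.g g10 (@Lb.g g11 (@Lb.r r2691 (@Lb.r r2216 (@Lb.r r1610 (@Lb.r r1313 (@Lb.d (nat_lit 402) (nat_lit 169) (nat_lit 600) (@Lb.fm (nat_lit 9) t2157)))))))))))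
noncomputable def l41271 : Lb := (@Lb.d (nat_lit 0) (nat_lit 612) (nat_lit 129) (@Lb.r r24 (@Lb.r r402 (@Lb.g g11 (@Lb.g g6 (@Lb.fp (nat_lit 3) t21))))))
noncomputable def l41272 : Lb := (@Lb.d (nat_lit 9) (nat_lit 420) (nat_lit 129) (@Lb.r r1617 (@Lb.r r354 (@Lb.g g11 (@Lb.g g5 (@Lb.g g8 (@Lb.d (nat_lit 545) (nat_lit 5) (nat_lit 0) (@Lb.t (@Lb.fp (nat_lit 9) t246)))))))))
noncomputable def l41273 : Lb := (@Lb.d (nat_lit 101) (nat_lit 357) (nat_lit 657) (@Lb.r r597 (@Lb.r r1386 (@Lb.r r1096 (@Lb.g g11 (@Lb.g g5 (@Lb.d (nat_lit 4) (nat_lit 1) (nat_lit 0) (@Lb.fm (nat_lit 3) t246))))))))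
noncomputable def l41274 : Lb := (@Lb.d (nat_lit 0) (nat_lit 100) (nat_lit 129) (@Lb.r r24 (@Lb.r r402 (@Lb.g g11 (@Lb.g g6 (@Lb.g g9 (@Lb.t (@Lb.fp (nat_lit 9) t97))))))))
noncomputable def l41275 : Lb := (@Lb.d (nat_lit 0) (nat_lit 8) (nat_lit 2) (@Lb.g g4 (@Lb.g g10 (@Lb.r r2401 (@Lb.r r2642 (@Lb.d (nat_lit 1) (nat_lit 150) (nat_lit 42) (@Lb.fm (nat_lit 3) t246)))))))
noncomputable def l41276 : Lb := (@Lb.d (nat_lit 0) (nat_lit 357) (nat_lit 129) (@Lb.r r1617 (@Lb.r r354 (@Lb.g g11 (@Lb.g g5 (@Lb.g g4 (@Lb.d (nat_lit 1) (nat_lit 5) (nat_lit 0) (@Lb.t (@Lb.fm (nat_lit 9) t246)))))))))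
noncomputable def l41277 : Lb := (@Lb.d (nat_lit 0) (nat_lit 9) (nat_lit 72) (@Lb.g g8 (@Lb.g g9 (@Lb.g g10 (@Lb.g g11 (@Lb.r r1559 (@Lb.r r2474 (@Lb.r r97 (@Lb.r r24 (@Lb.d (nat_lit 296) (nat_lit 9) (nat_lit 89) (@Lb.fp (nat_lit 9) t5756)))))))))))
noncomputable def l41278 : Lb := (@Lb.d (nat_lit 2) (nat_lit 258) (nat_lit 72) (@Lb.g g8 (@Lb.g g9 (@Lb.g g11 (@Lb.r r1410 (@Lb.r r579 (@Lb.r r104 (@Lb.r r25 (@Lb.d (nat_lit 522) (nat_lit 9) (nat_lit 17) (@Lb.t (@Lb.fp (nat_lit 9) t40)))))))))))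
noncomputable def l41279 : Lb := (@Lb.d (nat_lit 0) (nat_lit 548) (nat_lit 64) (@Lb.g g8 (@Lb.g g9 (@Lb.g g10 (@Lb.g g11 (@Lb.r r387 (@Lb.r r1177 (@Lb.r r2458 (@Lb.r r24 (@Lb.d (nat_lit 600) (nat_lit 2) (nat_lit 169) (@Lb.fp (nat_lit 9) t2504)))))))))))
noncomputable def l41280 : Lb := (@Lb.d (nat_lit 2) (nat_lit 0) (nat_lit 64) (@Lb.g g8 (@Lb.g g10 (@Lb.g g7 (@Lb.r r402 (@Lb.r r101 (@Lb.r r24 (@Lb.d (nat_lit 256) (nat_lit 0) (nat_lit 576) (@Lb.t (@Lb.fm (nat_lit 9) t145))))))))))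
noncomputable def l41281 : Lb := (@Lb.d (nat_lit 2) (nat_lit 256) (nat_lit 0) (@Lb.g g8 (@Lb.g g10 (@Lb.g g7 (@Lb.r r402 (@Lb.r r101 (@Lb.r r24 (@Lb.d (nat_lit 256) (nat_lit 0) (nat_lit 576) (@Lb.t (@Lb.fm (nat_lit 9) t145))))))))))
noncomputable def l41282 : Lb := (@Lb.r r323 (@Lb.d (nat_lit 137) (nat_lit 0) (nat_lit 18) (@Lb.g g8 (@Lb.g g10 (@Lb.r r661 (@Lb.r r1431 (@Lb.r r680 (@Lb.d (nat_lit 582) (nat_lit 17) (nat_lit 41) (@Lb.fp (nat_lit 3) t100)))))))))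
noncomputable def l41283 : Lb := (@Lb.r r70 (@Lb.d (nat_lit 2) (nat_lit 549) (nat_lit 0) (@Lb.g g8 (@Lb.g g9 (@Lb.r r2643 (@Lb.r r1410 (@Lb.r r612 (@Lb.d (nat_lit 280) (nat_lit 89) (nat_lit 272) (@Lb.fm (nat_lit 3) t5311)))))))))
noncomputable def l41284 : Lb := (@Lb.r r82 (@Lb.r r283 (@Lb.d (nat_lit 400) (nat_lit 10) (nat_lit 0) (@Lb.g g4 (@Lb.g g9 (@Lb.r r2587 (@Lb.r r146 (@Lb.d (nat_lit 1) (nat_lit 132) (nat_lit 545) (@Lb.fp (nat_lit 3) t7104)))))))))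
noncomputable def l41285 : Lb := (@Lb.r r331 (@Lb.d (nat_lit 9) (nat_lit 6) (nat_lit 0) (@Lb.g g8 (@Lb.g g9 (@Lb.g g10 (@Lb.r r1619 (@Lb.r r98 (@Lb.r r2213 (@Lb.r r2200 (@Lb.d (nat_lit 409) (nat_lit 86) (nat_lit 512) (@Lb.t (@Lb.fp (nat_lit 9) t459))))))))))))
noncomputable def l41286 : Lb := (@Lb.r r70 (@Lb.d (nat_lit 18) (nat_lit 1) (nat_lit 0) (@Lb.g g8 (@Lb.g g9 (@Lb.r r1426 (@Lb.r r421 (@Lb.r r1371 (@Lb.r r1384 (@Lb.d (nat_lit 422) (nat_lit 70) (nat_lit 666) (@Lb.fp (nat_lit 3) t329))))))))))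
noncomputable def l41287 : Lb := (@Lb.d (nat_lit 1) (nat_lit 578) (nat_lit 130) (@Lb.g g8 (@Lb.g g9 (@Lb.g g10 (@Lb.g g11 (@Lb.r r2658 (@Lb.r r1607 (@Lb.r r2468 (@Lb.d (nat_lit 390) (nat_lit 20) (nat_lit 408) (@Lb.fm (nat_lit 9) t5381))))))))))
noncomputable def l41288 : Lb := (@Lb.d (nat_lit 146) (nat_lit 282) (nat_lit 73) (@Lb.g g8 (@Lb.g g9 (@Lb.g g10 (@Lb.g g11 (@Lb.r r2327 (@Lb.r r676 (@Lb.r r1189 (@Lb.r r2666 (@Lb.d (nat_lit 98) (nat_lit 101) (nat_lit 344) (@Lb.fm (nat_lit 9) t7105)))))))))))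
noncomputable def l41289 : Lb := (@Lb.r r322 (@Lb.d (nat_lit 2) (nat_lit 2) (nat_lit 576) (@Lb.g g8 (@Lb.g g9 (@Lb.g g7 (@Lb.r r297 (@Lb.r r1124 (@Lb.r r2122 (@Lb.d (nat_lit 610) (nat_lit 10) (nat_lit 262) (@Lb.t (@Lb.fm (nat_lit 9) t1719)))))))))))
noncomputable def l41290 : Lb := (@Lb.r r82 (@Lb.r r275 (@Lb.d (nat_lit 0) (nat_lit 130) (nat_lit 0) (@Lb.g g5 (@Lb.r r1636 (@Lb.r r1543 (@Lb.r r578 (@Lb.d (nat_lit 290) (nat_lit 130) (nat_lit 260) (@Lb.t (@Lb.fp (nat_lit 3) t6997))))))))))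
noncomputable def l41291 : Lb := (@Lb.r r82 (@Lb.d (nat_lit 6) (nat_lit 330) (nat_lit 0) (@Lb.g g8 (@Lb.g g5 (@Lb.r r2651 (@Lb.r r2470 (@Lb.r r1624 (@Lb.d (nat_lit 353) (nat_lit 101) (nat_lit 650) (@Lb.fm (nat_lit 3) t7106)))))))))
noncomputable def l41292 : Lb := (@Lb.r r82 (@Lb.d (nat_lit 134) (nat_lit 256) (nat_lit 128) (@Lb.g g8 (@Lb.g g9 (@Lb.g g11 (@Lb.r r2593 (@Lb.r r2343 (@Lb.r r2150 (@Lb.r r2584 (@Lb.d (nat_lit 24) (nat_lit 98) (nat_lit 37) (@Lb.t (@Lb.fm (nat_lit 9) t7107))))))))))))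
noncomputable def l41293 : Lb := (@Lb.d (nat_lit 8) (nat_lit 266) (nat_lit 0) (@Lb.g g5 (@Lb.g g11 (@Lb.r r106 (@Lb.r r612 (@Lb.r r679 (@Lb.r r657 (@Lb.d (nat_lit 0) (nat_lit 97) (nat_lit 361) (@Lb.fm (nat_lit 3) t654)))))))))
noncomputable def l41294 : Lb := (@Lb.d (nat_lit 2) (nat_lit 516) (nat_lit 0) (@Lb.g g8 (@Lb.g g9 (@Lb.g g10 (@Lb.g g11 (@Lb.r r1706 (@Lb.r r2443 (@Lb.r r1637 (@Lb.r r2436 (@Lb.d (nat_lit 105) (nat_lit 2) (nat_lit 154) (@Lb.fp (nat_lit 9) t5331)))))))))))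
noncomputable def l41295 : Lb := (@Lb.g g4 (@Lb.r r1045 (@Lb.r r36 (@Lb.d (nat_lit 261) (nat_lit 1) (nat_lit 0) (@Lb.t (@Lb.fm (nat_lit 3) t2))))))
noncomputable def l41296 : Lb := (@Lb.d (nat_lit 9) (nat_lit 257) (nat_lit 0) (@Lb.g g8 (@Lb.g g9 (@Lb.r r25 (@Lb.d (nat_lit 4) (nat_lit 2) (nat_lit 64) (@Lb.fm (nat_lit 3) t2))))))
noncomputable def l41297 : Lb := (@Lb.d (nat_lit 2) (nat_lit 41) (nat_lit 128) (@Lb.g g8 (@Lb.g g9 (@Lb.g g11 (@Lb.r r1643 (@Lb.r r138 (@Lb.r r2600 (@Lb.r r2665 (@Lb.d (nat_lit 400) (nat_lit 4) (nat_lit 152) (@Lb.t (@Lb.fm (nat_lit 9) t2347)))))))))))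
noncomputable def l41298 : Lb := (@Lb.d (nat_lit 8) (nat_lit 514) (nat_lit 4) (@Lb.g g9 (@Lb.g g10 (@Lb.g g11 (@Lb.r r614 (@Lb.r r404 (@Lb.r r619 (@Lb.r r609 (@Lb.d (nat_lit 289) (nat_lit 154) (nat_lit 33) (@Lb.t (@Lb.fm (nat_lit 9) t5736)))))))))))
noncomputable def l41299 : Lb := (@Lb.d (nat_lit 32) (nat_lit 0) (nat_lit 10) (@Lb.g g6 (@Lb.r r427 (@Lb.r r424 (@Lb.r r2473 (@Lb.r r1450 (@Lb.d (nat_lit 362) (nat_lit 89) (nat_lit 154) (@Lb.t (@Lb.fp (nat_lit 3) t386)))))))))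
noncomputable def l41300 : Lb := (@Lb.r r275 (@Lb.d (nat_lit 8) (nat_lit 516) (nat_lit 0) (@Lb.g g9 (@Lb.g g10 (@Lb.r r102 (@Lb.r r404 (@Lb.r r619 (@Lb.r r2657 (@Lb.d (nat_lit 290) (nat_lit 82) (nat_lit 274) (@Lb.fm (nat_lit 3) t7108))))))))))
noncomputable def l41301 : Lb := (@Lb.d (nat_lit 0) (nat_lit 258) (nat_lit 130) (@Lb.g g9 (@Lb.g g10 (@Lb.g g11 (@Lb.r r642 (@Lb.r r1419 (@Lb.r r97 (@Lb.r r24 (@Lb.d (nat_lit 296) (nat_lit 64) (nat_lit 9) (@Lb.t (@Lb.fp (nat_lit 9) t4464)))))))))))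
noncomputable def l41302 : Lb := (@Lb.r r1284 (@Lb.r r273 (@Lb.d (nat_lit 0) (nat_lit 516) (nat_lit 86) (@Lb.g g6 (@Lb.g g11 (@Lb.r r1633 (@Lb.r r2339 (@Lb.d (nat_lit 0) (nat_lit 64) (nat_lit 513) (@Lb.fm (nat_lit 3) t1241)))))))))
noncomputable def l41303 : Lb := (@Lb.r r322 (@Lb.d (nat_lit 2) (nat_lit 33) (nat_lit 516) (@Lb.g g8 (@Lb.g g9 (@Lb.g g7 (@Lb.r r418 (@Lb.r r2088 (@Lb.r r2201 (@Lb.d (nat_lit 596) (nat_lit 133) (nat_lit 593) (@Lb.t (@Lb.fp (nat_lit 9) t7109)))))))))))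
noncomputable def l41304 : Lb := (@Lb.d (nat_lit 405) (nat_lit 533) (nat_lit 550) (@Lb.r r2453 (@Lb.r r2667 (@Lb.g g10 (@Lb.g g5 (@Lb.g g4 (@Lb.d (nat_lit 8) (nat_lit 6) (nat_lit 34) (@Lb.r r403 (@Lb.t (@Lb.fp (nat_lit 9) t3136))))))))))
noncomputable def l41305 : Lb := (@Lb.d (nat_lit 2) (nat_lit 550) (nat_lit 64) (@Lb.g g8 (@Lb.g g9 (@Lb.g g10 (@Lb.g g11 (@Lb.r r1699 (@Lb.r r1192 (@Lb.r r1642 (@Lb.r r2577 (@Lb.d (nat_lit 593) (nat_lit 169) (nat_lit 72) (@Lb.fp (nat_lit 9) t7110)))))))))))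
noncomputable def l41306 : Lb := (@Lb.d (nat_lit 0) (nat_lit 1) (nat_lit 128) (@Lb.g g9 (@Lb.g g11 (@Lb.r r582 (@Lb.r r420 (@Lb.r r603 (@Lb.r r293 (@Lb.d (nat_lit 134) (nat_lit 149) (nat_lit 390) (@Lb.fm (nat_lit 3) t668)))))))))
noncomputable def l41307 : Lb := (@Lb.d (nat_lit 1) (nat_lit 0) (nat_lit 9) (@Lb.g g4 (@Lb.g g10 (@Lb.g g11 (@Lb.r r2691 (@Lb.r r1158 (@Lb.d (nat_lit 129) (nat_lit 0) (nat_lit 424) (@Lb.t (@Lb.fp (nat_lit 9) t282)))))))))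
noncomputable def l41308 : Lb := (@Lb.r r323 (@Lb.d (nat_lit 130) (nat_lit 258) (nat_lit 18) (@Lb.g g8 (@Lb.g g9 (@Lb.g g10 (@Lb.r r583 (@Lb.r r1428 (@Lb.r r25 (@Lb.d (nat_lit 517) (nat_lit 104) (nat_lit 409) (@Lb.t (@Lb.fp (nat_lit 9) t2231)))))))))))
noncomputable def l41309 : Lb := (@Lb.d (nat_lit 0) (nat_lit 614) (nat_lit 337) (@Lb.r r1092 (@Lb.r r2386 (@Lb.g g7 (@Lb.g g6 (@Lb.g g5 (@Lb.d (nat_lit 0) (nat_lit 129) (nat_lit 641) (@Lb.r r388 (@Lb.t (@Lb.fp (nat_lit 9) t5054))))))))))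
noncomputable def l41310 : Lb := (@Lb.d (nat_lit 1) (nat_lit 0) (nat_lit 9) (@Lb.g g4 (@Lb.g g10 (@Lb.g g11 (@Lb.r r2691 (@Lb.r r1158 (@Lb.d (nat_lit 128) (nat_lit 5) (nat_lit 425) (@Lb.t (@Lb.fp (nat_lit 9) t3316)))))))))
noncomputable def l41311 : Lb := (@Lb.r r70 (@Lb.d (nat_lit 130) (nat_lit 10) (nat_lit 64) (@Lb.g g8 (@Lb.g g9 (@Lb.g g11 (@Lb.r r2134 (@Lb.r r1700 (@Lb.r r423 (@Lb.r r1445 (@Lb.d (nat_lit 362) (nat_lit 5) (nat_lit 410) (@Lb.t (@Lb.fp (nat_lit 9) t1549))))))))))))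
noncomputable def l41312 : Lb := (@Lb.d (nat_lit 149) (nat_lit 258) (nat_lit 64) (@Lb.g g8 (@Lb.g g9 (@Lb.g g10 (@Lb.g g11 (@Lb.r r1691 (@Lb.r r1642 (@Lb.r r2453 (@Lb.r r2664 (@Lb.d (nat_lit 645) (nat_lit 90) (nat_lit 152) (@Lb.fp (nat_lit 9) t50)))))))))))
noncomputable def l41313 : Lb := (@Lb.r r70 (@Lb.r r263 (@Lb.d (nat_lit 4) (nat_lit 261) (nat_lit 0) (@Lb.g g8 (@Lb.g g5 (@Lb.r r402 (@Lb.r r1611 (@Lb.r r516 (@Lb.d (nat_lit 0) (nat_lit 1) (nat_lit 640) (@Lb.fp (nat_lit 3) t50))))))))))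
noncomputable def l41314 : Lb := (@Lb.d (nat_lit 0) (nat_lit 261) (nat_lit 0) (@Lb.g g9 (@Lb.g g10 (@Lb.g g7 (@Lb.r r386 (@Lb.r r101 (@Lb.r r24 (@Lb.d (nat_lit 354) (nat_lit 5) (nat_lit 522) (@Lb.t (@Lb.fm (nat_lit 9) t7111))))))))))
noncomputable def l41315 : Lb := (@Lb.d (nat_lit 298) (nat_lit 393) (nat_lit 81) (@Lb.r r597 (@Lb.r r279 (@Lb.r r584 (@Lb.r r326 (@Lb.g g7 (@Lb.g g6 (@Lb.g g5 (@Lb.d (nat_lit 4) (nat_lit 1) (nat_lit 65) (@Lb.t (@Lb.fm (nat_lit 9) t504)))))))))))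
noncomputable def l41316 : Lb := (@Lb.d (nat_lit 137) (nat_lit 272) (nat_lit 64) (@Lb.r r101 (@Lb.r r402 (@Lb.g g11 (@Lb.g g6 (@Lb.d (nat_lit 0) (nat_lit 0) (nat_lit 128) (@Lb.fp (nat_lit 3) t546)))))))
noncomputable def l41317 : Lb := (@Lb.r r402 (@Lb.r r24 (@Lb.r r101 (@Lb.d (nat_lit 96) (nat_lit 130) (nat_lit 320) (@Lb.fm (nat_lit 1) t1628)))))
noncomputable def l41318 : Lb := (@Lb.d (nat_lit 516) (nat_lit 577) (nat_lit 661) (@Lb.r r2129 (@Lb.r r1126 (@Lb.r r359 (@Lb.r r341 (@Lb.g g7 (@Lb.g g6 (@Lb.g g5 (@Lb.g g4 (@Lb.d (nat_lit 322) (nat_lit 1) (nat_lit 129) (@Lb.fp (nat_lit 9) t7112)))))))))))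
noncomputable def l41319 : Lb := (@Lb.d (nat_lit 32) (nat_lit 0) (nat_lit 1) (@Lb.g g10 (@Lb.r r324 (@Lb.r r539 (@Lb.r r289 (@Lb.r r36 (@Lb.d (nat_lit 320) (nat_lit 66) (nat_lit 578) (@Lb.t (@Lb.fp (nat_lit 3) t2645)))))))))
noncomputable def l41320 : Lb := (@Lb.d (nat_lit 32) (nat_lit 512) (nat_lit 1) (@Lb.g g10 (@Lb.r r324 (@Lb.r r539 (@Lb.r r289 (@Lb.r r36 (@Lb.d (nat_lit 321) (nat_lit 66) (nat_lit 578) (@Lb.t (@Lb.fp (nat_lit 3) t2645)))))))))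
noncomputable def l41321 : Lb := (@Lb.d (nat_lit 6) (nat_lit 642) (nat_lit 522) (@Lb.r r609 (@Lb.r r619 (@Lb.r r612 (@Lb.r r346 (@Lb.g g7 (@Lb.g g6 (@Lb.d (nat_lit 0) (nat_lit 0) (nat_lit 65) (@Lb.fm (nat_lit 3) t116)))))))))
noncomputable def l41322 : Lb := (@Lb.d (nat_lit 2) (nat_lit 256) (nat_lit 0) (@Lb.g g8 (@Lb.r r289 (@Lb.r r539 (@Lb.r r664 (@Lb.r r154 (@Lb.d (nat_lit 10) (nat_lit 130) (nat_lit 138) (@Lb.t (@Lb.fp (nat_lit 3) t360)))))))))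
noncomputable def l41323 : Lb := (@Lb.d (nat_lit 0) (nat_lit 0) (nat_lit 9) (@Lb.g g10 (@Lb.r r595 (@Lb.r r386 (@Lb.r r101 (@Lb.d (nat_lit 145) (nat_lit 26) (nat_lit 85) (@Lb.t (@Lb.fm (nat_lit 3) t1149))))))))
noncomputable def l41324 : Lb := (@Lb.d (nat_lit 40) (nat_lit 258) (nat_lit 1) (@Lb.g g9 (@Lb.g g10 (@Lb.r r2599 (@Lb.r r1304 (@Lb.r r2661 (@Lb.d (nat_lit 144) (nat_lit 73) (nat_lit 418) (@Lb.fp (nat_lit 3) t638))))))))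
noncomputable def l41325 : Lb := (@Lb.d (nat_lit 73) (nat_lit 550) (nat_lit 17) (@Lb.r r615 (@Lb.r r1621 (@Lb.r r2402 (@Lb.g g7 (@Lb.g g6 (@Lb.g g8 (@Lb.d (nat_lit 2) (nat_lit 16) (nat_lit 65) (@Lb.t (@Lb.fp (nat_lit 9) t1278))))))))))
noncomputable def l41326 : Lb := (@Lb.r r21 (@Lb.r r70 (@Lb.d (nat_lit 656) (nat_lit 0) (nat_lit 256) (@Lb.g g4 (@Lb.g g7 (@Lb.r r2454 (@Lb.r r97 (@Lb.d (nat_lit 1) (nat_lit 64) (nat_lit 320) (@Lb.fm (nat_lit 3) t501)))))))))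
noncomputable def l41327 : Lb := (@Lb.r r323 (@Lb.d (nat_lit 2) (nat_lit 514) (nat_lit 1) (@Lb.g g8 (@Lb.g g9 (@Lb.g g10 (@Lb.r r343 (@Lb.r r170 (@Lb.r r2585 (@Lb.r r2564 (@Lb.d (nat_lit 649) (nat_lit 170) (nat_lit 21) (@Lb.t (@Lb.fp (nat_lit 9) t4525))))))))))))
noncomputable def l41328 : Lb := (@Lb.d (nat_lit 145) (nat_lit 0) (nat_lit 600) (@Lb.r r21 (@Lb.r r386 (@Lb.r r2375 (@Lb.g g6 (@Lb.g g4 (@Lb.d (nat_lit 257) (nat_lit 0) (nat_lit 1) (@Lb.r r267 (@Lb.r r25 (@Lb.fp (nat_lit 3) t830))))))))))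
noncomputable def l41329 : Lb := (@Lb.r r21 (@Lb.d (nat_lit 64) (nat_lit 0) (nat_lit 514) (@Lb.g g8 (@Lb.g g10 (@Lb.g g11 (@Lb.r r386 (@Lb.r r2709 (@Lb.r r1352 (@Lb.d (nat_lit 18) (nat_lit 0) (nat_lit 656) (@Lb.t (@Lb.fm (nat_lit 9) t3053)))))))))))
noncomputable def l41330 : Lb := (@Lb.d (nat_lit 609) (nat_lit 614) (nat_lit 20) (@Lb.r r2661 (@Lb.r r2659 (@Lb.g g7 (@Lb.g g10 (@Lb.g g5 (@Lb.d (nat_lit 0) (nat_lit 6) (nat_lit 82) (@Lb.r r36 (@Lb.t (@Lb.fm (nat_lit 9) t820))))))))))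
noncomputable def l41331 : Lb := (@Lb.d (nat_lit 672) (nat_lit 102) (nat_lit 516) (@Lb.r r24 (@Lb.r r2457 (@Lb.r r427 (@Lb.g g6 (@Lb.g g5 (@Lb.g g4 (@Lb.d (nat_lit 8) (nat_lit 0) (nat_lit 41) (@Lb.r r403 (@Lb.t (@Lb.fm (nat_lit 9) t531)))))))))))
noncomputable def l41332 : Lb := (@Lb.r r331 (@Lb.d (nat_lit 518) (nat_lit 256) (nat_lit 1) (@Lb.g g8 (@Lb.g g9 (@Lb.g g6 (@Lb.r r619 (@Lb.r r97 (@Lb.d (nat_lit 73) (nat_lit 74) (nat_lit 640) (@Lb.t (@Lb.fp (nat_lit 9) t7113))))))))))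
noncomputable def l41333 : Lb := (@Lb.d (nat_lit 2) (nat_lit 514) (nat_lit 64) (@Lb.g g8 (@Lb.g g9 (@Lb.g g11 (@Lb.r r2327 (@Lb.r r1386 (@Lb.r r2585 (@Lb.r r2564 (@Lb.d (nat_lit 644) (nat_lit 130) (nat_lit 517) (@Lb.t (@Lb.fm (nat_lit 9) t7114)))))))))))
noncomputable def l41334 : Lb := (@Lb.r r532 (@Lb.d (nat_lit 128) (nat_lit 418) (nat_lit 322) (@Lb.g g9 (@Lb.g g10 (@Lb.g g11 (@Lb.r r98 (@Lb.r r1096 (@Lb.d (nat_lit 264) (nat_lit 8) (nat_lit 18) (@Lb.t (@Lb.fp (nat_lit 9) t7115))))))))))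
noncomputable def l41335 : Lb := (@Lb.d (nat_lit 146) (nat_lit 2) (nat_lit 4) (@Lb.g g8 (@Lb.g g9 (@Lb.g g10 (@Lb.g g11 (@Lb.r r2705 (@Lb.r r535 (@Lb.r r2440 (@Lb.r r1098 (@Lb.d (nat_lit 545) (nat_lit 74) (nat_lit 328) (@Lb.fp (nat_lit 9) t1526)))))))))))
noncomputable def l41336 : Lb := (@Lb.d (nat_lit 6) (nat_lit 262) (nat_lit 289) (@Lb.r r21 (@Lb.r r86 (@Lb.r r599 (@Lb.g g6 (@Lb.g g5 (@Lb.g g4 (@Lb.d (nat_lit 321) (nat_lit 1) (nat_lit 1) (@Lb.t (@Lb.fm (nat_lit 9) t166))))))))))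
noncomputable def l41337 : Lb := (@Lb.d (nat_lit 2) (nat_lit 521) (nat_lit 129) (@Lb.g g8 (@Lb.g g9 (@Lb.g g10 (@Lb.g g11 (@Lb.r r2691 (@Lb.r r297 (@Lb.r r648 (@Lb.r r666 (@Lb.r r1156 (@Lb.d (nat_lit 646) (nat_lit 40) (nat_lit 73) (@Lb.fp (nat_lit 9) t1234))))))))))))
noncomputable def l41338 : Lb := (@Lb.r r82 (@Lb.d (nat_lit 136) (nat_lit 530) (nat_lit 128) (@Lb.g g8 (@Lb.g g9 (@Lb.g g11 (@Lb.r r299 (@Lb.r r2154 (@Lb.r r2073 (@Lb.r r276 (@Lb.d (nat_lit 393) (nat_lit 17) (nat_lit 320) (@Lb.t (@Lb.fm (nat_lit 9) t5243))))))))))))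
noncomputable def l41339 : Lb := (@Lb.d (nat_lit 128) (nat_lit 32) (nat_lit 136) (@Lb.g g11 (@Lb.r r420 (@Lb.r r2469 (@Lb.r r1446 (@Lb.r r347 (@Lb.d (nat_lit 293) (nat_lit 21) (nat_lit 646) (@Lb.t (@Lb.fp (nat_lit 3) t1079)))))))))
noncomputable def l41340 : Lb := (@Lb.r r21 (@Lb.r r70 (@Lb.d (nat_lit 266) (nat_lit 512) (nat_lit 0) (@Lb.g g8 (@Lb.r r101 (@Lb.r r2450 (@Lb.d (nat_lit 2) (nat_lit 0) (nat_lit 154) (@Lb.t (@Lb.fp (nat_lit 3) t6693)))))))))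
noncomputable def l41341 : Lb := (@Lb.d (nat_lit 2) (nat_lit 521) (nat_lit 72) (@Lb.g g8 (@Lb.g g9 (@Lb.g g10 (@Lb.g g11 (@Lb.r r1706 (@Lb.r r2451 (@Lb.r r1553 (@Lb.r r1416 (@Lb.d (nat_lit 34) (nat_lit 105) (nat_lit 618) (@Lb.fp (nat_lit 9) t2419)))))))))))
noncomputable def l41342 : Lb := (@Lb.d (nat_lit 33) (nat_lit 4) (nat_lit 137) (@Lb.g g8 (@Lb.g g9 (@Lb.g g10 (@Lb.g g11 (@Lb.r r683 (@Lb.r r1689 (@Lb.r r1688 (@Lb.r r602 (@Lb.d (nat_lit 106) (nat_lit 20) (nat_lit 664) (@Lb.fp (nat_lit 9) t7116)))))))))))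
noncomputable def l41343 : Lb := (@Lb.d (nat_lit 646) (nat_lit 277) (nat_lit 96) (@Lb.r r1301 (@Lb.r r2411 (@Lb.r r1666 (@Lb.g g7 (@Lb.g g6 (@Lb.g g5 (@Lb.g g4 (@Lb.d (nat_lit 1) (nat_lit 6) (nat_lit 134) (@Lb.fm (nat_lit 9) t3136))))))))))
noncomputable def l41344 : Lb := (@Lb.d (nat_lit 134) (nat_lit 512) (nat_lit 2) (@Lb.r r584 (@Lb.r r82 (@Lb.r r347 (@Lb.g g9 (@Lb.g g4 (@Lb.d (nat_lit 65) (nat_lit 22) (nat_lit 0) (@Lb.r r98 (@Lb.fm (nat_lit 3) t1356)))))))))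
noncomputable def l41345 : Lb := (@Lb.d (nat_lit 33) (nat_lit 260) (nat_lit 137) (@Lb.g g8 (@Lb.g g9 (@Lb.g g10 (@Lb.g g11 (@Lb.r r683 (@Lb.r r1689 (@Lb.r r1688 (@Lb.r r602 (@Lb.d (nat_lit 105) (nat_lit 20) (nat_lit 664) (@Lb.fp (nat_lit 9) t2349)))))))))))
noncomputable def l41346 : Lb := (@Lb.r r82 (@Lb.d (nat_lit 8) (nat_lit 545) (nat_lit 64) (@Lb.g g9 (@Lb.g g11 (@Lb.r r2663 (@Lb.r r386 (@Lb.r r1688 (@Lb.r r2469 (@Lb.d (nat_lit 32) (nat_lit 98) (nat_lit 336) (@Lb.fm (nat_lit 3) t4929))))))))))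
noncomputable def l41347 : Lb := (@Lb.r r82 (@Lb.d (nat_lit 0) (nat_lit 289) (nat_lit 64) (@Lb.g g9 (@Lb.g g11 (@Lb.r r2659 (@Lb.r r386 (@Lb.r r2393 (@Lb.r r24 (@Lb.d (nat_lit 530) (nat_lit 5) (nat_lit 330) (@Lb.fp (nat_lit 3) t3216))))))))))
noncomputable def l41348 : Lb := (@Lb.r r82 (@Lb.d (nat_lit 8) (nat_lit 289) (nat_lit 64) (@Lb.g g9 (@Lb.g g11 (@Lb.r r2663 (@Lb.r r386 (@Lb.r r1688 (@Lb.r r2469 (@Lb.d (nat_lit 32) (nat_lit 100) (nat_lit 337) (@Lb.fm (nat_lit 3) t4929))))))))))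
noncomputable def l41349 : Lb := (@Lb.r r82 (@Lb.d (nat_lit 0) (nat_lit 514) (nat_lit 128) (@Lb.g g9 (@Lb.g g11 (@Lb.r r338 (@Lb.r r1419 (@Lb.r r2661 (@Lb.r r24 (@Lb.d (nat_lit 596) (nat_lit 144) (nat_lit 404) (@Lb.fm (nat_lit 3) t7117))))))))))
noncomputable def l41350 : Lb := (@Lb.d (nat_lit 33) (nat_lit 514) (nat_lit 136) (@Lb.g g8 (@Lb.g g9 (@Lb.g g10 (@Lb.g g11 (@Lb.r r683 (@Lb.r r1689 (@Lb.r r1688 (@Lb.r r602 (@Lb.d (nat_lit 105) (nat_lit 20) (nat_lit 664) (@Lb.fp (nat_lit 9) t7118)))))))))))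
noncomputable def l41351 : Lb := (@Lb.d (nat_lit 618) (nat_lit 162) (nat_lit 324) (@Lb.r r2456 (@Lb.r r82 (@Lb.r r599 (@Lb.g g6 (@Lb.g g5 (@Lb.g g4 (@Lb.d (nat_lit 66) (nat_lit 1) (nat_lit 1) (@Lb.r r291 (@Lb.t (@Lb.fp (nat_lit 9) t2095)))))))))))
noncomputable def l41352 : Lb := (@Lb.d (nat_lit 618) (nat_lit 418) (nat_lit 324) (@Lb.r r2456 (@Lb.r r82 (@Lb.r r599 (@Lb.g g6 (@Lb.g g5 (@Lb.g g4 (@Lb.d (nat_lit 65) (nat_lit 1) (nat_lit 1) (@Lb.r r291 (@Lb.t (@Lb.fp (nat_lit 9) t2095)))))))))))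
noncomputable def l41353 : Lb := (@Lb.d (nat_lit 618) (nat_lit 674) (nat_lit 258) (@Lb.r r2456 (@Lb.r r82 (@Lb.r r599 (@Lb.g g6 (@Lb.g g5 (@Lb.g g4 (@Lb.d (nat_lit 65) (nat_lit 1) (nat_lit 1) (@Lb.r r291 (@Lb.t (@Lb.fp (nat_lit 9) t2095)))))))))))
noncomputable def l41354 : Lb := (@Lb.d (nat_lit 8) (nat_lit 2) (nat_lit 137) (@Lb.g g9 (@Lb.g g10 (@Lb.g g7 (@Lb.r r386 (@Lb.r r24 (@Lb.d (nat_lit 608) (nat_lit 2) (nat_lit 537) (@Lb.t (@Lb.fp (nat_lit 9) t698)))))))))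
noncomputable def l41355 : Lb := (@Lb.d (nat_lit 0) (nat_lit 514) (nat_lit 130) (@Lb.g g9 (@Lb.g g10 (@Lb.g g11 (@Lb.r r427 (@Lb.r r386 (@Lb.r r97 (@Lb.d (nat_lit 130) (nat_lit 154) (nat_lit 68) (@Lb.t (@Lb.fm (nat_lit 9) t1231))))))))))
noncomputable def l41356 : Lb := (@Lb.r r21 (@Lb.d (nat_lit 408) (nat_lit 288) (nat_lit 128) (@Lb.g g8 (@Lb.g g10 (@Lb.g g11 (@Lb.r r1642 (@Lb.r r2449 (@Lb.r r615 (@Lb.d (nat_lit 153) (nat_lit 137) (nat_lit 384) (@Lb.t (@Lb.fp (nat_lit 9) t1758)))))))))))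
noncomputable def l41357 : Lb := (@Lb.r r21 (@Lb.d (nat_lit 408) (nat_lit 544) (nat_lit 128) (@Lb.g g8 (@Lb.g g10 (@Lb.g g11 (@Lb.r r1642 (@Lb.r r2449 (@Lb.r r615 (@Lb.d (nat_lit 153) (nat_lit 137) (nat_lit 330) (@Lb.t (@Lb.fp (nat_lit 9) t1758)))))))))))
noncomputable def l41358 : Lb := (@Lb.r r21 (@Lb.r r263 (@Lb.d (nat_lit 17) (nat_lit 512) (nat_lit 0) (@Lb.g g8 (@Lb.g g10 (@Lb.r r2212 (@Lb.r r1317 (@Lb.r r1555 (@Lb.r r1602 (@Lb.d (nat_lit 0) (nat_lit 10) (nat_lit 405) (@Lb.fm (nat_lit 3) t644)))))))))))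
noncomputable def l41359 : Lb := (@Lb.r r21 (@Lb.d (nat_lit 410) (nat_lit 32) (nat_lit 128) (@Lb.g g8 (@Lb.g g10 (@Lb.g g11 (@Lb.r r1642 (@Lb.r r2449 (@Lb.r r615 (@Lb.d (nat_lit 152) (nat_lit 137) (nat_lit 384) (@Lb.t (@Lb.fp (nat_lit 9) t1913)))))))))))
noncomputable def l41360 : Lb := (@Lb.d (nat_lit 2) (nat_lit 2) (nat_lit 130) (@Lb.g g8 (@Lb.g g9 (@Lb.g g10 (@Lb.g g11 (@Lb.r r2666 (@Lb.r r579 (@Lb.r r2337 (@Lb.r r24 (@Lb.d (nat_lit 581) (nat_lit 96) (nat_lit 640) (@Lb.fm (nat_lit 9) t504)))))))))))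
noncomputable def l41361 : Lb := (@Lb.d (nat_lit 128) (nat_lit 0) (nat_lit 384) (@Lb.g g8 (@Lb.g g11 (@Lb.r r260 (@Lb.d (nat_lit 73) (nat_lit 2) (nat_lit 512) (@Lb.fm (nat_lit 3) t5458))))))
noncomputable def l41362 : Lb := (@Lb.d (nat_lit 2) (nat_lit 266) (nat_lit 72) (@Lb.g g8 (@Lb.g g9 (@Lb.g g11 (@Lb.r r1174 (@Lb.r r1385 (@Lb.r r2579 (@Lb.d (nat_lit 97) (nat_lit 38) (nat_lit 416) (@Lb.t (@Lb.fp (nat_lit 9) t7119))))))))))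
noncomputable def l41363 : Lb := (@Lb.d (nat_lit 2) (nat_lit 258) (nat_lit 130) (@Lb.g g8 (@Lb.g g9 (@Lb.g g10 (@Lb.g g11 (@Lb.r r2666 (@Lb.r r579 (@Lb.r r292 (@Lb.r r405 (@Lb.r r2084 (@Lb.d (nat_lit 610) (nat_lit 149) (nat_lit 296) (@Lb.fm (nat_lit 9) t1199))))))))))))
noncomputable def l41364 : Lb := (@Lb.d (nat_lit 9) (nat_lit 293) (nat_lit 128) (@Lb.g g8 (@Lb.g g9 (@Lb.g g10 (@Lb.g g11 (@Lb.r r1699 (@Lb.r r2402 (@Lb.r r36 (@Lb.r r2581 (@Lb.r r2084 (@Lb.d (nat_lit 33) (nat_lit 169) (nat_lit 676) (@Lb.fm (nat_lit 9) t7120))))))))))))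
noncomputable def l41365 : Lb := (@Lb.d (nat_lit 34) (nat_lit 512) (nat_lit 136) (@Lb.g g8 (@Lb.g g11 (@Lb.r r1173 (@Lb.r r150 (@Lb.r r356 (@Lb.r r1291 (@Lb.d (nat_lit 2) (nat_lit 160) (nat_lit 356) (@Lb.fp (nat_lit 3) t322)))))))))
noncomputable def l41366 : Lb := (@Lb.d (nat_lit 128) (nat_lit 512) (nat_lit 256) (@Lb.g g8 (@Lb.g g11 (@Lb.r r260 (@Lb.d (nat_lit 74) (nat_lit 2) (nat_lit 640) (@Lb.fm (nat_lit 3) t828))))))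
noncomputable def l41367 : Lb := (@Lb.d (nat_lit 390) (nat_lit 24) (nat_lit 660) (@Lb.r r1094 (@Lb.r r2387 (@Lb.r r677 (@Lb.g g7 (@Lb.g g6 (@Lb.g g5 (@Lb.g g8 (@Lb.d (nat_lit 330) (nat_lit 0) (nat_lit 134) (@Lb.fp (nat_lit 9) t5514))))))))))
noncomputable def l41368 : Lb := (@Lb.d (nat_lit 2) (nat_lit 16) (nat_lit 384) (@Lb.r r1094 (@Lb.r r1299 (@Lb.r r549 (@Lb.g g7 (@Lb.g g5 (@Lb.g g8 (@Lb.d (nat_lit 330) (nat_lit 0) (nat_lit 64) (@Lb.r r98 (@Lb.t (@Lb.fp (nat_lit 9) t1185)))))))))))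
noncomputable def l41369 : Lb := (@Lb.d (nat_lit 166) (nat_lit 256) (nat_lit 612) (@Lb.r r24 (@Lb.r r322 (@Lb.r r1691 (@Lb.g g7 (@Lb.g g6 (@Lb.g g9 (@Lb.g g4 (@Lb.d (nat_lit 1) (nat_lit 10) (nat_lit 133) (@Lb.fm (nat_lit 9) t7121))))))))))
noncomputable def l41370 : Lb := (@Lb.d (nat_lit 144) (nat_lit 513) (nat_lit 128) (@Lb.g g8 (@Lb.g g9 (@Lb.g g10 (@Lb.g g11 (@Lb.r r657 (@Lb.r r658 (@Lb.r r2455 (@Lb.r r548 (@Lb.d (nat_lit 297) (nat_lit 18) (nat_lit 513) (@Lb.fm (nat_lit 9) t249)))))))))))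
noncomputable def l41371 : Lb := (@Lb.d (nat_lit 148) (nat_lit 24) (nat_lit 677) (@Lb.r r598 (@Lb.r r2643 (@Lb.r r421 (@Lb.g g6 (@Lb.g g5 (@Lb.g g8 (@Lb.d (nat_lit 346) (nat_lit 0) (nat_lit 5) (@Lb.r r387 (@Lb.t (@Lb.fm (nat_lit 9) t5514)))))))))))
noncomputable def l41372 : Lb := (@Lb.d (nat_lit 160) (nat_lit 256) (nat_lit 84) (@Lb.r r2370 (@Lb.r r2695 (@Lb.g g7 (@Lb.g g6 (@Lb.g g5 (@Lb.g g8 (@Lb.d (nat_lit 290) (nat_lit 0) (nat_lit 133) (@Lb.fp (nat_lit 9) t890)))))))))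
noncomputable def l41373 : Lb := (@Lb.d (nat_lit 4) (nat_lit 40) (nat_lit 549) (@Lb.r r1633 (@Lb.r r2403 (@Lb.g g10 (@Lb.g g5 (@Lb.g g8 (@Lb.d (nat_lit 322) (nat_lit 5) (nat_lit 20) (@Lb.t (@Lb.fm (nat_lit 9) t3487)))))))))
noncomputable def l41374 : Lb := (@Lb.d (nat_lit 4) (nat_lit 10) (nat_lit 72) (@Lb.g g8 (@Lb.g g9 (@Lb.g g11 (@Lb.r r150 (@Lb.r r2409 (@Lb.r r2579 (@Lb.d (nat_lit 609) (nat_lit 33) (nat_lit 130) (@Lb.t (@Lb.fp (nat_lit 9) t1514))))))))))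
noncomputable def l41375 : Lb := (@Lb.d (nat_lit 0) (nat_lit 32) (nat_lit 128) (@Lb.g g11 (@Lb.r r680 (@Lb.r r154 (@Lb.r r2133 (@Lb.r r164 (@Lb.d (nat_lit 577) (nat_lit 0) (nat_lit 0) (@Lb.t (@Lb.fp (nat_lit 3) t3313)))))))))
noncomputable def l41376 : Lb := (@Lb.d (nat_lit 148) (nat_lit 0) (nat_lit 128) (@Lb.g g8 (@Lb.g g9 (@Lb.g g10 (@Lb.g g11 (@Lb.r r1706 (@Lb.r r1411 (@Lb.r r2201 (@Lb.r r388 (@Lb.d (nat_lit 425) (nat_lit 73) (nat_lit 21) (@Lb.fm (nat_lit 9) t7122)))))))))))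
noncomputable def l41377 : Lb := (@Lb.d (nat_lit 2) (nat_lit 512) (nat_lit 73) (@Lb.g g8 (@Lb.g g10 (@Lb.g g11 (@Lb.r r2691 (@Lb.r r1381 (@Lb.r r1178 (@Lb.r r24 (@Lb.d (nat_lit 136) (nat_lit 102) (nat_lit 153) (@Lb.t (@Lb.fm (nat_lit 9) t1224)))))))))))
noncomputable def l41378 : Lb := (@Lb.d (nat_lit 2) (nat_lit 256) (nat_lit 73) (@Lb.g g8 (@Lb.g g10 (@Lb.g g11 (@Lb.r r2691 (@Lb.r r1381 (@Lb.r r1178 (@Lb.r r24 (@Lb.d (nat_lit 133) (nat_lit 38) (nat_lit 153) (@Lb.t (@Lb.fm (nat_lit 9) t7123)))))))))))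
noncomputable def l41379 : Lb := (@Lb.d (nat_lit 144) (nat_lit 1) (nat_lit 386) (@Lb.g g8 (@Lb.g g9 (@Lb.g g10 (@Lb.g g11 (@Lb.r r2217 (@Lb.r r1634 (@Lb.r r388 (@Lb.d (nat_lit 609) (nat_lit 89) (nat_lit 394) (@Lb.fm (nat_lit 9) t4862))))))))))
noncomputable def l41380 : Lb := (@Lb.r r323 (@Lb.d (nat_lit 2) (nat_lit 520) (nat_lit 17) (@Lb.g g8 (@Lb.g g6 (@Lb.r r1689 (@Lb.r r2587 (@Lb.r r24 (@Lb.d (nat_lit 266) (nat_lit 102) (nat_lit 521) (@Lb.fp (nat_lit 3) t1426)))))))))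
noncomputable def l41381 : Lb := (@Lb.d (nat_lit 2) (nat_lit 265) (nat_lit 72) (@Lb.g g8 (@Lb.g g9 (@Lb.g g10 (@Lb.g g11 (@Lb.r r1559 (@Lb.r r2474 (@Lb.r r97 (@Lb.r r24 (@Lb.d (nat_lit 294) (nat_lit 8) (nat_lit 146) (@Lb.fp (nat_lit 9) t1727)))))))))))
noncomputable def l41382 : Lb := (@Lb.r r21 (@Lb.d (nat_lit 410) (nat_lit 0) (nat_lit 128) (@Lb.g g8 (@Lb.g g10 (@Lb.g g11 (@Lb.r r387 (@Lb.r r101 (@Lb.r r2450 (@Lb.d (nat_lit 1) (nat_lit 90) (nat_lit 576) (@Lb.t (@Lb.fm (nat_lit 9) t6626)))))))))))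
noncomputable def l41383 : Lb := (@Lb.r r82 (@Lb.d (nat_lit 9) (nat_lit 288) (nat_lit 64) (@Lb.g g8 (@Lb.g g9 (@Lb.g g11 (@Lb.r r1543 (@Lb.r r2152 (@Lb.r r2438 (@Lb.r r1361 (@Lb.d (nat_lit 0) (nat_lit 6) (nat_lit 345) (@Lb.t (@Lb.fp (nat_lit 9) t2301))))))))))))
noncomputable def l41384 : Lb := (@Lb.d (nat_lit 9) (nat_lit 262) (nat_lit 74) (@Lb.g g8 (@Lb.g g9 (@Lb.g g10 (@Lb.g g11 (@Lb.r r619 (@Lb.r r1610 (@Lb.r r660 (@Lb.r r425 (@Lb.r r2084 (@Lb.d (nat_lit 277) (nat_lit 170) (nat_lit 617) (@Lb.fp (nat_lit 9) t261))))))))))))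
noncomputable def l41385 : Lb := (@Lb.d (nat_lit 2) (nat_lit 521) (nat_lit 72) (@Lb.g g8 (@Lb.g g9 (@Lb.g g10 (@Lb.g g11 (@Lb.r r2666 (@Lb.r r579 (@Lb.r r97 (@Lb.r r24 (@Lb.d (nat_lit 153) (nat_lit 2) (nat_lit 324) (@Lb.fm (nat_lit 9) t4669)))))))))))
noncomputable def l41386 : Lb := (@Lb.d (nat_lit 2) (nat_lit 521) (nat_lit 72) (@Lb.g g8 (@Lb.g g9 (@Lb.g g10 (@Lb.g g11 (@Lb.r r2666 (@Lb.r r579 (@Lb.r r97 (@Lb.r r24 (@Lb.d (nat_lit 421) (nat_lit 6) (nat_lit 358) (@Lb.fm (nat_lit 9) t2616)))))))))))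
noncomputable def l41387 : Lb := (@Lb.d (nat_lit 2) (nat_lit 9) (nat_lit 72) (@Lb.g g8 (@Lb.g g9 (@Lb.g g10 (@Lb.g g11 (@Lb.r r2666 (@Lb.r r579 (@Lb.r r97 (@Lb.r r24 (@Lb.d (nat_lit 152) (nat_lit 2) (nat_lit 324) (@Lb.fm (nat_lit 9) t2051)))))))))))
noncomputable def l41388 : Lb := (@Lb.r r82 (@Lb.r r275 (@Lb.d (nat_lit 2) (nat_lit 16) (nat_lit 0) (@Lb.g g4 (@Lb.g g5 (@Lb.r r2647 (@Lb.r r386 (@Lb.r r36 (@Lb.d (nat_lit 36) (nat_lit 4) (nat_lit 18) (@Lb.fm (nat_lit 3) t742))))))))))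
noncomputable def l41389 : Lb := (@Lb.r r82 (@Lb.d (nat_lit 132) (nat_lit 528) (nat_lit 128) (@Lb.g g8 (@Lb.g g9 (@Lb.g g11 (@Lb.r r2667 (@Lb.r r386 (@Lb.r r2088 (@Lb.r r105 (@Lb.d (nat_lit 289) (nat_lit 137) (nat_lit 17) (@Lb.t (@Lb.fm (nat_lit 9) t2408))))))))))))
noncomputable def l41390 : Lb := (@Lb.r r21 (@Lb.r r70 (@Lb.d (nat_lit 658) (nat_lit 0) (nat_lit 0) (@Lb.g g8 (@Lb.r r74 (@Lb.r r25 (@Lb.d (nat_lit 356) (nat_lit 64) (nat_lit 0) (@Lb.t (@Lb.fp (nat_lit 3) t5414)))))))))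
noncomputable def l41391 : Lb := (@Lb.d (nat_lit 0) (nat_lit 512) (nat_lit 130) (@Lb.g g8 (@Lb.g g9 (@Lb.g g10 (@Lb.g g11 (@Lb.r r1447 (@Lb.r r600 (@Lb.r r2198 (@Lb.r r81 (@Lb.r r1060 (@Lb.d (nat_lit 9) (nat_lit 72) (nat_lit 18) (@Lb.fp (nat_lit 9) t697))))))))))))
noncomputable def l41392 : Lb := (@Lb.d (nat_lit 6) (nat_lit 146) (nat_lit 330) (@Lb.r r21 (@Lb.r r579 (@Lb.r r1366 (@Lb.g g7 (@Lb.g g6 (@Lb.g g5 (@Lb.g g4 (@Lb.d (nat_lit 1) (nat_lit 1) (nat_lit 134) (@Lb.fm (nat_lit 9) t40))))))))))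
noncomputable def l41393 : Lb := (@Lb.d (nat_lit 1) (nat_lit 658) (nat_lit 266) (@Lb.r r579 (@Lb.r r1362 (@Lb.g g7 (@Lb.g g6 (@Lb.g g5 (@Lb.d (nat_lit 4) (nat_lit 1) (nat_lit 6) (@Lb.t (@Lb.fm (nat_lit 9) t285)))))))))
noncomputable def l41394 : Lb := (@Lb.r r277 (@Lb.r r326 (@Lb.d (nat_lit 514) (nat_lit 512) (nat_lit 384) (@Lb.g g8 (@Lb.g g11 (@Lb.r r101 (@Lb.r r2194 (@Lb.d (nat_lit 96) (nat_lit 0) (nat_lit 528) (@Lb.fm (nat_lit 3) t7124)))))))))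
noncomputable def l41395 : Lb := (@Lb.g g8 (@Lb.d (nat_lit 618) (nat_lit 2) (nat_lit 528) (@Lb.t (@Lb.fp (nat_lit 3) t698))))
noncomputable def l41396 : Lb := (@Lb.r r21 (@Lb.r r70 (@Lb.g g8 (@Lb.r r2122 (@Lb.r r2073 (@Lb.r r2052 (@Lb.d (nat_lit 6) (nat_lit 320) (nat_lit 0) (@Lb.t (@Lb.fp (nat_lit 3) t2015)))))))))
noncomputable def l41397 : Lb := (@Lb.r r82 (@Lb.d (nat_lit 2) (nat_lit 0) (nat_lit 0) (@Lb.g g8 (@Lb.g g9 (@Lb.r r2154 (@Lb.r r2073 (@Lb.r r24 (@Lb.d (nat_lit 516) (nat_lit 129) (nat_lit 0) (@Lb.fp (nat_lit 3) t3937)))))))))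
noncomputable def l41398 : Lb := (@Lb.d (nat_lit 144) (nat_lit 258) (nat_lit 133) (@Lb.g g8 (@Lb.g g9 (@Lb.g g10 (@Lb.g g11 (@Lb.r r427 (@Lb.r r1177 (@Lb.r r1176 (@Lb.r r602 (@Lb.d (nat_lit 98) (nat_lit 81) (nat_lit 601) (@Lb.fm (nat_lit 9) t2185)))))))))))
noncomputable def l41399 : Lb := (@Lb.r r283 (@Lb.d (nat_lit 9) (nat_lit 514) (nat_lit 2) (@Lb.g g8 (@Lb.g g9 (@Lb.g g10 (@Lb.r r1579 (@Lb.r r610 (@Lb.r r1188 (@Lb.r r613 (@Lb.d (nat_lit 408) (nat_lit 72) (nat_lit 586) (@Lb.t (@Lb.fm (nat_lit 9) t7125))))))))))))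
noncomputable def l41400 : Lb := (@Lb.r r322 (@Lb.d (nat_lit 8) (nat_lit 256) (nat_lit 576) (@Lb.g g9 (@Lb.g g7 (@Lb.r r660 (@Lb.r r358 (@Lb.r r337 (@Lb.d (nat_lit 0) (nat_lit 100) (nat_lit 582) (@Lb.fp (nat_lit 3) t1115)))))))))
noncomputable def l41401 : Lb := (@Lb.r r82 (@Lb.d (nat_lit 0) (nat_lit 330) (nat_lit 0) (@Lb.g g5 (@Lb.r r616 (@Lb.r r326 (@Lb.r r651 (@Lb.r r644 (@Lb.d (nat_lit 328) (nat_lit 145) (nat_lit 320) (@Lb.t (@Lb.fm (nat_lit 3) t7126))))))))))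
noncomputable def l41402 : Lb := (@Lb.d (nat_lit 2) (nat_lit 256) (nat_lit 66) (@Lb.g g8 (@Lb.g g9 (@Lb.g g10 (@Lb.g g11 (@Lb.r r2630 (@Lb.r r2389 (@Lb.r r1432 (@Lb.r r2343 (@Lb.d (nat_lit 69) (nat_lit 97) (nat_lit 266) (@Lb.fm (nat_lit 9) t4908)))))))))))
noncomputable def l41403 : Lb := (@Lb.r r81 (@Lb.r r323 (@Lb.d (nat_lit 0) (nat_lit 512) (nat_lit 42) (@Lb.g g6 (@Lb.r r1381 (@Lb.r r2459 (@Lb.r r24 (@Lb.d (nat_lit 385) (nat_lit 5) (nat_lit 150) (@Lb.t (@Lb.fm (nat_lit 3) t3321))))))))))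
noncomputable def l41404 : Lb := (@Lb.r r21 (@Lb.r r70 (@Lb.d (nat_lit 657) (nat_lit 0) (nat_lit 0) (@Lb.g g8 (@Lb.r r74 (@Lb.r r25 (@Lb.d (nat_lit 512) (nat_lit 0) (nat_lit 288) (@Lb.t (@Lb.fp (nat_lit 3) t4503)))))))))
noncomputable def l41405 : Lb := (@Lb.d (nat_lit 2) (nat_lit 514) (nat_lit 130) (@Lb.g g8 (@Lb.g g9 (@Lb.g g10 (@Lb.g g11 (@Lb.r r2595 (@Lb.r r386 (@Lb.r r2664 (@Lb.r r2585 (@Lb.d (nat_lit 584) (nat_lit 104) (nat_lit 345) (@Lb.fm (nat_lit 9) t7127)))))))))))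
noncomputable def l41406 : Lb := (@Lb.d (nat_lit 2) (nat_lit 258) (nat_lit 73) (@Lb.g g8 (@Lb.g g9 (@Lb.g g10 (@Lb.g g11 (@Lb.r r2729 (@Lb.r r2475 (@Lb.r r2440 (@Lb.r r2458 (@Lb.d (nat_lit 405) (nat_lit 20) (nat_lit 617) (@Lb.fm (nat_lit 9) t988)))))))))))
noncomputable def l41407 : Lb := (@Lb.r r326 (@Lb.d (nat_lit 416) (nat_lit 0) (nat_lit 8) (@Lb.g g8 (@Lb.g g5 (@Lb.g g11 (@Lb.r r134 (@Lb.d (nat_lit 66) (nat_lit 0) (nat_lit 545) (@Lb.t (@Lb.fm (nat_lit 9) t1567)))))))))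
noncomputable def l41408 : Lb := (@Lb.r r82 (@Lb.r r283 (@Lb.d (nat_lit 514) (nat_lit 0) (nat_lit 0) (@Lb.g g8 (@Lb.g g9 (@Lb.r r1323 (@Lb.r r106 (@Lb.r r25 (@Lb.d (nat_lit 2) (nat_lit 0) (nat_lit 0) (@Lb.fm (nat_lit 3) t442))))))))))
noncomputable def l41409 : Lb := (@Lb.d (nat_lit 2) (nat_lit 516) (nat_lit 128) (@Lb.g g8 (@Lb.g g9 (@Lb.g g10 (@Lb.g g11 (@Lb.r r2729 (@Lb.r r2475 (@Lb.r r2468 (@Lb.r r2438 (@Lb.d (nat_lit 614) (nat_lit 74) (nat_lit 546) (@Lb.fp (nat_lit 9) t5583)))))))))))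
noncomputable def l41410 : Lb := (@Lb.r r21 (@Lb.d (nat_lit 514) (nat_lit 516) (nat_lit 73) (@Lb.g g8 (@Lb.g g10 (@Lb.g g11 (@Lb.r r2713 (@Lb.r r1367 (@Lb.r r2698 (@Lb.d (nat_lit 385) (nat_lit 10) (nat_lit 164) (@Lb.t (@Lb.fp (nat_lit 9) t61)))))))))))
noncomputable def l41411 : Lb := (@Lb.r r82 (@Lb.d (nat_lit 9) (nat_lit 33) (nat_lit 136) (@Lb.g g8 (@Lb.g g9 (@Lb.g g11 (@Lb.r r2137 (@Lb.r r98 (@Lb.r r24 (@Lb.d (nat_lit 528) (nat_lit 132) (nat_lit 33) (@Lb.t (@Lb.fp (nat_lit 9) t164)))))))))))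
noncomputable def l41412 : Lb := (@Lb.d (nat_lit 97) (nat_lit 273) (nat_lit 4) (@Lb.r r345 (@Lb.r r427 (@Lb.r r406 (@Lb.g g7 (@Lb.g g5 (@Lb.d (nat_lit 0) (nat_lit 5) (nat_lit 64) (@Lb.fp (nat_lit 3) t175))))))))
noncomputable def l41413 : Lb := (@Lb.d (nat_lit 9) (nat_lit 545) (nat_lit 2) (@Lb.g g8 (@Lb.g g9 (@Lb.g g10 (@Lb.r r1194 (@Lb.r r2468 (@Lb.r r1627 (@Lb.r r1445 (@Lb.d (nat_lit 357) (nat_lit 36) (nat_lit 330) (@Lb.t (@Lb.fp (nat_lit 9) t994)))))))))))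
noncomputable def l41414 : Lb := (@Lb.d (nat_lit 8) (nat_lit 513) (nat_lit 2) (@Lb.g g8 (@Lb.g g9 (@Lb.g g10 (@Lb.g g7 (@Lb.r r386 (@Lb.r r97 (@Lb.r r2584 (@Lb.d (nat_lit 645) (nat_lit 168) (nat_lit 393) (@Lb.fp (nat_lit 9) t996))))))))))
noncomputable def l41415 : Lb := (@Lb.d (nat_lit 128) (nat_lit 288) (nat_lit 136) (@Lb.g g11 (@Lb.r r420 (@Lb.r r2469 (@Lb.r r1446 (@Lb.r r347 (@Lb.d (nat_lit 293) (nat_lit 16) (nat_lit 645) (@Lb.t (@Lb.fp (nat_lit 3) t1079)))))))))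
noncomputable def l41416 : Lb := (@Lb.r r277 (@Lb.r r326 (@Lb.d (nat_lit 394) (nat_lit 0) (nat_lit 128) (@Lb.g g8 (@Lb.g g11 (@Lb.r r101 (@Lb.r r2194 (@Lb.d (nat_lit 609) (nat_lit 5) (nat_lit 545) (@Lb.fm (nat_lit 3) t6091)))))))))
noncomputable def l41417 : Lb := (@Lb.d (nat_lit 138) (nat_lit 512) (nat_lit 384) (@Lb.g g8 (@Lb.g g11 (@Lb.r r2662 (@Lb.r r613 (@Lb.r r2452 (@Lb.d (nat_lit 614) (nat_lit 0) (nat_lit 672) (@Lb.fp (nat_lit 3) t568))))))))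
noncomputable def l41418 : Lb := (@Lb.d (nat_lit 0) (nat_lit 257) (nat_lit 66) (@Lb.g g8 (@Lb.g g9 (@Lb.g g10 (@Lb.g g11 (@Lb.r r2154 (@Lb.r r2409 (@Lb.r r2455 (@Lb.r r1608 (@Lb.d (nat_lit 104) (nat_lit 2) (nat_lit 162) (@Lb.fp (nat_lit 9) t282)))))))))))
noncomputable def l41419 : Lb := (@Lb.d (nat_lit 0) (nat_lit 257) (nat_lit 130) (@Lb.g g8 (@Lb.g g9 (@Lb.g g10 (@Lb.g g11 (@Lb.r r618 (@Lb.r r105 (@Lb.r r612 (@Lb.r r1287 (@Lb.r r2564 (@Lb.d (nat_lit 10) (nat_lit 25) (nat_lit 642) (@Lb.fm (nat_lit 9) t71))))))))))))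
noncomputable def l41420 : Lb := (@Lb.d (nat_lit 8) (nat_lit 265) (nat_lit 128) (@Lb.g g9 (@Lb.g g11 (@Lb.r r2196 (@Lb.r r2454 (@Lb.r r601 (@Lb.d (nat_lit 618) (nat_lit 38) (nat_lit 256) (@Lb.fp (nat_lit 3) t2428))))))))
noncomputable def l41421 : Lb := (@Lb.d (nat_lit 2) (nat_lit 2) (nat_lit 2) (@Lb.g g8 (@Lb.g g9 (@Lb.g g10 (@Lb.g g7 (@Lb.r r386 (@Lb.r r1641 (@Lb.r r1608 (@Lb.d (nat_lit 401) (nat_lit 128) (nat_lit 660) (@Lb.fp (nat_lit 9) t2877))))))))))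
noncomputable def l41422 : Lb := (@Lb.d (nat_lit 401) (nat_lit 512) (nat_lit 520) (@Lb.r r1094 (@Lb.r r2196 (@Lb.r r297 (@Lb.g g11 (@Lb.g g5 (@Lb.g g4 (@Lb.d (nat_lit 1) (nat_lit 1) (nat_lit 384) (@Lb.r r578 (@Lb.t (@Lb.fp (nat_lit 9) t981)))))))))))
noncomputable def l41423 : Lb := (@Lb.d (nat_lit 1) (nat_lit 544) (nat_lit 130) (@Lb.g g8 (@Lb.g g10 (@Lb.g g11 (@Lb.r r602 (@Lb.r r600 (@Lb.r r293 (@Lb.r r2587 (@Lb.d (nat_lit 322) (nat_lit 98) (nat_lit 276) (@Lb.t (@Lb.fp (nat_lit 9) t71)))))))))))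
noncomputable def l41424 : Lb := (@Lb.r r322 (@Lb.d (nat_lit 1) (nat_lit 258) (nat_lit 8) (@Lb.g g8 (@Lb.g g9 (@Lb.g g11 (@Lb.r r1625 (@Lb.r r98 (@Lb.r r1608 (@Lb.d (nat_lit 610) (nat_lit 37) (nat_lit 384) (@Lb.t (@Lb.fp (nat_lit 9) t590)))))))))))
noncomputable def l41425 : Lb := (@Lb.d (nat_lit 0) (nat_lit 40) (nat_lit 68) (@Lb.r r322 (@Lb.r r659 (@Lb.g g7 (@Lb.g g6 (@Lb.g g9 (@Lb.g g4 (@Lb.d (nat_lit 0) (nat_lit 0) (nat_lit 134) (@Lb.fp (nat_lit 9) t1928)))))))))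
noncomputable def l41426 : Lb := (@Lb.r r21 (@Lb.d (nat_lit 145) (nat_lit 256) (nat_lit 74) (@Lb.g g8 (@Lb.g g10 (@Lb.g g11 (@Lb.r r387 (@Lb.r r1636 (@Lb.r r101 (@Lb.r r2450 (@Lb.d (nat_lit 2) (nat_lit 66) (nat_lit 273) (@Lb.t (@Lb.fm (nat_lit 9) t4276))))))))))))
noncomputable def l41427 : Lb := (@Lb.r r322 (@Lb.d (nat_lit 2) (nat_lit 522) (nat_lit 576) (@Lb.g g8 (@Lb.g g9 (@Lb.g g7 (@Lb.r r594 (@Lb.r r421 (@Lb.r r24 (@Lb.d (nat_lit 537) (nat_lit 133) (nat_lit 26) (@Lb.t (@Lb.fp (nat_lit 9) t6774)))))))))))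
noncomputable def l41428 : Lb := (@Lb.d (nat_lit 162) (nat_lit 512) (nat_lit 337) (@Lb.r r2212 (@Lb.r r2337 (@Lb.r r598 (@Lb.g g7 (@Lb.g g6 (@Lb.g g4 (@Lb.d (nat_lit 64) (nat_lit 16) (nat_lit 577) (@Lb.r r25 (@Lb.t (@Lb.fm (nat_lit 9) t2578)))))))))))
noncomputable def l41429 : Lb := (@Lb.d (nat_lit 17) (nat_lit 152) (nat_lit 144) (@Lb.r r21 (@Lb.r r100 (@Lb.r r2375 (@Lb.r r2698 (@Lb.g g7 (@Lb.g g6 (@Lb.g g5 (@Lb.d (nat_lit 0) (nat_lit 6) (nat_lit 134) (@Lb.t (@Lb.fm (nat_lit 9) t2051)))))))))))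
noncomputable def l41430 : Lb := (@Lb.d (nat_lit 2) (nat_lit 514) (nat_lit 130) (@Lb.g g8 (@Lb.g g9 (@Lb.g g10 (@Lb.g g11 (@Lb.r r2666 (@Lb.r r579 (@Lb.r r97 (@Lb.r r24 (@Lb.d (nat_lit 420) (nat_lit 8) (nat_lit 425) (@Lb.fm (nat_lit 9) t61)))))))))))
noncomputable def l41431 : Lb := (@Lb.r r21 (@Lb.d (nat_lit 16) (nat_lit 0) (nat_lit 128) (@Lb.g g8 (@Lb.g g10 (@Lb.g g11 (@Lb.r r2634 (@Lb.r r579 (@Lb.r r97 (@Lb.r r1304 (@Lb.d (nat_lit 297) (nat_lit 132) (nat_lit 516) (@Lb.t (@Lb.fp (nat_lit 9) t601))))))))))))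
noncomputable def l41432 : Lb := (@Lb.d (nat_lit 2) (nat_lit 534) (nat_lit 73) (@Lb.g g8 (@Lb.g g9 (@Lb.g g10 (@Lb.g g11 (@Lb.r r2667 (@Lb.r r1642 (@Lb.r r2713 (@Lb.d (nat_lit 345) (nat_lit 98) (nat_lit 4) (@Lb.fm (nat_lit 9) t1541))))))))))
noncomputable def l41433 : Lb := (@Lb.d (nat_lit 4) (nat_lit 276) (nat_lit 73) (@Lb.g g8 (@Lb.g g9 (@Lb.g g10 (@Lb.g g11 (@Lb.r r2667 (@Lb.r r1642 (@Lb.r r2713 (@Lb.d (nat_lit 345) (nat_lit 98) (nat_lit 4) (@Lb.fm (nat_lit 9) t1541))))))))))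
noncomputable def l41434 : Lb := (@Lb.r r82 (@Lb.d (nat_lit 34) (nat_lit 514) (nat_lit 128) (@Lb.g g8 (@Lb.g g9 (@Lb.g g11 (@Lb.r r1430 (@Lb.r r579 (@Lb.r r2449 (@Lb.r r84 (@Lb.d (nat_lit 581) (nat_lit 81) (nat_lit 8) (@Lb.t (@Lb.fm (nat_lit 9) t3446))))))))))))
noncomputable def l41435 : Lb := (@Lb.r r21 (@Lb.d (nat_lit 17) (nat_lit 256) (nat_lit 128) (@Lb.g g8 (@Lb.g g10 (@Lb.g g11 (@Lb.r r1642 (@Lb.r r579 (@Lb.r r97 (@Lb.r r424 (@Lb.d (nat_lit 518) (nat_lit 152) (nat_lit 290) (@Lb.t (@Lb.fp (nat_lit 9) t31))))))))))))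
noncomputable def l41436 : Lb := (@Lb.d (nat_lit 128) (nat_lit 512) (nat_lit 64) (@Lb.g g11 (@Lb.r r154 (@Lb.r r264 (@Lb.r r391 (@Lb.r r289 (@Lb.d (nat_lit 98) (nat_lit 26) (nat_lit 9) (@Lb.t (@Lb.fm (nat_lit 3) t51)))))))))
noncomputable def l41437 : Lb := (@Lb.d (nat_lit 9) (nat_lit 262) (nat_lit 146) (@Lb.g g8 (@Lb.g g9 (@Lb.g g6 (@Lb.g g11 (@Lb.r r2153 (@Lb.r r612 (@Lb.r r1287 (@Lb.r r2564 (@Lb.d (nat_lit 2) (nat_lit 90) (nat_lit 328) (@Lb.fp (nat_lit 9) t204)))))))))))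
noncomputable def l41438 : Lb := (@Lb.d (nat_lit 128) (nat_lit 256) (nat_lit 128) (@Lb.g g11 (@Lb.r r154 (@Lb.r r264 (@Lb.r r391 (@Lb.r r289 (@Lb.d (nat_lit 98) (nat_lit 26) (nat_lit 9) (@Lb.t (@Lb.fm (nat_lit 3) t51)))))))))
noncomputable def l41439 : Lb := (@Lb.d (nat_lit 24) (nat_lit 256) (nat_lit 0) (@Lb.g g8 (@Lb.g g10 (@Lb.r r1109 (@Lb.r r1122 (@Lb.r r132 (@Lb.d (nat_lit 36) (nat_lit 74) (nat_lit 1) (@Lb.fm (nat_lit 3) t5339))))))))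
noncomputable def l41440 : Lb := (@Lb.d (nat_lit 2) (nat_lit 514) (nat_lit 2) (@Lb.g g8 (@Lb.g g9 (@Lb.g g10 (@Lb.g g7 (@Lb.r r386 (@Lb.r r2664 (@Lb.r r25 (@Lb.d (nat_lit 522) (nat_lit 164) (nat_lit 132) (@Lb.fm (nat_lit 9) t2877))))))))))
noncomputable def l41441 : Lb := (@Lb.d (nat_lit 2) (nat_lit 514) (nat_lit 2) (@Lb.g g8 (@Lb.g g9 (@Lb.g g10 (@Lb.g g7 (@Lb.r r386 (@Lb.r r612 (@Lb.r r1045 (@Lb.r r2084 (@Lb.d (nat_lit 258) (nat_lit 165) (nat_lit 132) (@Lb.fp (nat_lit 9) t2692)))))))))))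
noncomputable def l41442 : Lb := (@Lb.d (nat_lit 0) (nat_lit 512) (nat_lit 130) (@Lb.g g10 (@Lb.g g11 (@Lb.r r2691 (@Lb.r r1638 (@Lb.r r2145 (@Lb.r r36 (@Lb.d (nat_lit 550) (nat_lit 32) (nat_lit 548) (@Lb.fm (nat_lit 3) t2637)))))))))
noncomputable def l41443 : Lb := (@Lb.d (nat_lit 2) (nat_lit 514) (nat_lit 2) (@Lb.g g8 (@Lb.g g9 (@Lb.g g10 (@Lb.g g7 (@Lb.r r386 (@Lb.r r97 (@Lb.r r2584 (@Lb.d (nat_lit 650) (nat_lit 169) (nat_lit 393) (@Lb.fp (nat_lit 9) t3305))))))))))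
noncomputable def l41444 : Lb := (@Lb.d (nat_lit 16) (nat_lit 514) (nat_lit 0) (@Lb.g g8 (@Lb.g g9 (@Lb.g g10 (@Lb.r r2216 (@Lb.r r1130 (@Lb.r r25 (@Lb.d (nat_lit 521) (nat_lit 137) (nat_lit 33) (@Lb.t (@Lb.fp (nat_lit 9) t7128))))))))))
noncomputable def l41445 : Lb := (@Lb.r r21 (@Lb.r r322 (@Lb.d (nat_lit 2) (nat_lit 16) (nat_lit 320) (@Lb.g g8 (@Lb.g g7 (@Lb.r r1321 (@Lb.r r2148 (@Lb.r r2458 (@Lb.d (nat_lit 610) (nat_lit 36) (nat_lit 149) (@Lb.fp (nat_lit 3) t7129))))))))))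
noncomputable def l41446 : Lb := (@Lb.d (nat_lit 104) (nat_lit 549) (nat_lit 10) (@Lb.g g8 (@Lb.g g9 (@Lb.g g10 (@Lb.g g11 (@Lb.r r2339 (@Lb.r r390 (@Lb.r r2645 (@Lb.r r1604 (@Lb.d (nat_lit 600) (nat_lit 82) (nat_lit 358) (@Lb.fm (nat_lit 9) t898)))))))))))
noncomputable def l41447 : Lb := (@Lb.d (nat_lit 581) (nat_lit 144) (nat_lit 64) (@Lb.r r1560 (@Lb.r r1114 (@Lb.g g11 (@Lb.g g9 (@Lb.g g4 (@Lb.d (nat_lit 1) (nat_lit 0) (nat_lit 256) (@Lb.r r586 (@Lb.t (@Lb.fm (nat_lit 9) t5139))))))))))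
noncomputable def l41448 : Lb := (@Lb.r r1045 (@Lb.r r326 (@Lb.d (nat_lit 674) (nat_lit 512) (nat_lit 8) (@Lb.g g8 (@Lb.g g11 (@Lb.r r134 (@Lb.d (nat_lit 66) (nat_lit 0) (nat_lit 545) (@Lb.fp (nat_lit 3) t1567))))))))
noncomputable def l41449 : Lb := (@Lb.d (nat_lit 150) (nat_lit 24) (nat_lit 133) (@Lb.g g8 (@Lb.g g9 (@Lb.g g10 (@Lb.g g11 (@Lb.r r2339 (@Lb.r r406 (@Lb.r r1620 (@Lb.r r617 (@Lb.d (nat_lit 72) (nat_lit 144) (nat_lit 593) (@Lb.fp (nat_lit 9) t898)))))))))))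
noncomputable def l41450 : Lb := (@Lb.d (nat_lit 528) (nat_lit 554) (nat_lit 0) (@Lb.g g8 (@Lb.g g9 (@Lb.g g10 (@Lb.r r279 (@Lb.r r1702 (@Lb.r r2601 (@Lb.d (nat_lit 320) (nat_lit 88) (nat_lit 34) (@Lb.t (@Lb.fm (nat_lit 9) t3197))))))))))
noncomputable def l41451 : Lb := (@Lb.r r21 (@Lb.d (nat_lit 6) (nat_lit 256) (nat_lit 2) (@Lb.g g8 (@Lb.g g10 (@Lb.r r2723 (@Lb.r r1634 (@Lb.r r1553 (@Lb.d (nat_lit 2) (nat_lit 105) (nat_lit 417) (@Lb.fp (nat_lit 3) t324)))))))))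
noncomputable def l41452 : Lb := (@Lb.d (nat_lit 16) (nat_lit 585) (nat_lit 74) (@Lb.g g8 (@Lb.g g9 (@Lb.g g10 (@Lb.g g11 (@Lb.r r650 (@Lb.r r1683 (@Lb.r r1602 (@Lb.r r2084 (@Lb.d (nat_lit 545) (nat_lit 104) (nat_lit 550) (@Lb.fp (nat_lit 9) t580)))))))))))
noncomputable def l41453 : Lb := (@Lb.d (nat_lit 144) (nat_lit 9) (nat_lit 66) (@Lb.g g8 (@Lb.g g9 (@Lb.g g10 (@Lb.g g11 (@Lb.r r387 (@Lb.r r1177 (@Lb.r r2450 (@Lb.r r2632 (@Lb.d (nat_lit 521) (nat_lit 84) (nat_lit 169) (@Lb.fp (nat_lit 9) t1490)))))))))))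
noncomputable def l41454 : Lb := (@Lb.d (nat_lit 2) (nat_lit 514) (nat_lit 66) (@Lb.g g8 (@Lb.g g9 (@Lb.g g10 (@Lb.g g11 (@Lb.r r340 (@Lb.r r2202 (@Lb.r r1621 (@Lb.r r1367 (@Lb.r r2724 (@Lb.d (nat_lit 144) (nat_lit 2) (nat_lit 426) (@Lb.fm (nat_lit 9) t49))))))))))))
noncomputable def l41455 : Lb := (@Lb.d (nat_lit 138) (nat_lit 513) (nat_lit 2) (@Lb.g g8 (@Lb.g g9 (@Lb.g g10 (@Lb.r r2706 (@Lb.r r2409 (@Lb.r r1559 (@Lb.r r2344 (@Lb.d (nat_lit 68) (nat_lit 22) (nat_lit 152) (@Lb.t (@Lb.fm (nat_lit 9) t242)))))))))))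
noncomputable def l41456 : Lb := (@Lb.d (nat_lit 0) (nat_lit 512) (nat_lit 73) (@Lb.g g10 (@Lb.g g11 (@Lb.r r2341 (@Lb.r r539 (@Lb.r r1624 (@Lb.r r2438 (@Lb.d (nat_lit 160) (nat_lit 5) (nat_lit 70) (@Lb.fm (nat_lit 3) t6348)))))))))
noncomputable def l41457 : Lb := (@Lb.r r82 (@Lb.d (nat_lit 4) (nat_lit 521) (nat_lit 0) (@Lb.g g8 (@Lb.g g9 (@Lb.r r683 (@Lb.r r2454 (@Lb.r r2649 (@Lb.d (nat_lit 361) (nat_lit 102) (nat_lit 137) (@Lb.fm (nat_lit 3) t50)))))))))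
noncomputable def l41458 : Lb := (@Lb.d (nat_lit 0) (nat_lit 0) (nat_lit 73) (@Lb.g g10 (@Lb.g g11 (@Lb.r r2341 (@Lb.r r539 (@Lb.r r1604 (@Lb.r r2458 (@Lb.d (nat_lit 90) (nat_lit 160) (nat_lit 70) (@Lb.fp (nat_lit 3) t6211)))))))))
noncomputable def l41459 : Lb := (@Lb.d (nat_lit 0) (nat_lit 0) (nat_lit 73) (@Lb.g g10 (@Lb.g g11 (@Lb.r r2341 (@Lb.r r539 (@Lb.r r1624 (@Lb.r r2438 (@Lb.d (nat_lit 162) (nat_lit 5) (nat_lit 70) (@Lb.fm (nat_lit 3) t6348)))))))))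
noncomputable def l41460 : Lb := (@Lb.d (nat_lit 0) (nat_lit 258) (nat_lit 130) (@Lb.g g8 (@Lb.g g9 (@Lb.g g10 (@Lb.g g11 (@Lb.r r24 (@Lb.r r2709 (@Lb.r r1622 (@Lb.r r1623 (@Lb.r r1188 (@Lb.d (nat_lit 266) (nat_lit 2) (nat_lit 146) (@Lb.fp (nat_lit 9) t1261))))))))))))
noncomputable def l41461 : Lb := (@Lb.d (nat_lit 2) (nat_lit 34) (nat_lit 66) (@Lb.g g8 (@Lb.g g9 (@Lb.g g10 (@Lb.g g11 (@Lb.r r1451 (@Lb.r r2154 (@Lb.r r2145 (@Lb.d (nat_lit 21) (nat_lit 18) (nat_lit 134) (@Lb.fm (nat_lit 9) t2693))))))))))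
noncomputable def l41462 : Lb := (@Lb.r r326 (@Lb.d (nat_lit 4) (nat_lit 0) (nat_lit 68) (@Lb.g g8 (@Lb.g g9 (@Lb.g g11 (@Lb.r r1622 (@Lb.r r2201 (@Lb.r r408 (@Lb.d (nat_lit 154) (nat_lit 8) (nat_lit 320) (@Lb.t (@Lb.fp (nat_lit 9) t1458)))))))))))
noncomputable def l41463 : Lb := (@Lb.r r323 (@Lb.d (nat_lit 0) (nat_lit 512) (nat_lit 2) (@Lb.g g9 (@Lb.g g10 (@Lb.r r102 (@Lb.r r404 (@Lb.r r619 (@Lb.r r609 (@Lb.d (nat_lit 8) (nat_lit 145) (nat_lit 64) (@Lb.fm (nat_lit 3) t71))))))))))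
noncomputable def l41464 : Lb := (@Lb.r r323 (@Lb.d (nat_lit 8) (nat_lit 514) (nat_lit 2) (@Lb.g g9 (@Lb.g g10 (@Lb.r r102 (@Lb.r r404 (@Lb.r r619 (@Lb.r r609 (@Lb.d (nat_lit 10) (nat_lit 152) (nat_lit 2) (@Lb.fm (nat_lit 3) t71))))))))))
noncomputable def l41465 : Lb := (@Lb.d (nat_lit 0) (nat_lit 256) (nat_lit 133) (@Lb.g g10 (@Lb.g g11 (@Lb.r r1347 (@Lb.r r1378 (@Lb.r r101 (@Lb.r r24 (@Lb.d (nat_lit 578) (nat_lit 0) (nat_lit 320) (@Lb.fm (nat_lit 3) t145)))))))))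
noncomputable def l41466 : Lb := (@Lb.d (nat_lit 2) (nat_lit 265) (nat_lit 72) (@Lb.g g8 (@Lb.g g9 (@Lb.g g10 (@Lb.g g11 (@Lb.r r1699 (@Lb.r r664 (@Lb.r r346 (@Lb.r r2585 (@Lb.d (nat_lit 409) (nat_lit 162) (nat_lit 72) (@Lb.fp (nat_lit 9) t509)))))))))))
noncomputable def l41467 : Lb := (@Lb.d (nat_lit 153) (nat_lit 1) (nat_lit 160) (@Lb.g g8 (@Lb.g g9 (@Lb.g g10 (@Lb.g g11 (@Lb.r r1411 (@Lb.r r1065 (@Lb.r r1060 (@Lb.d (nat_lit 264) (nat_lit 137) (nat_lit 296) (@Lb.fm (nat_lit 9) t1004))))))))))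
noncomputable def l41468 : Lb := (@Lb.r r21 (@Lb.r r326 (@Lb.d (nat_lit 129) (nat_lit 32) (nat_lit 128) (@Lb.g g8 (@Lb.g g11 (@Lb.r r357 (@Lb.r r2194 (@Lb.d (nat_lit 362) (nat_lit 2) (nat_lit 640) (@Lb.fm (nat_lit 3) t163)))))))))
noncomputable def l41469 : Lb := (@Lb.r r331 (@Lb.d (nat_lit 32) (nat_lit 2) (nat_lit 2) (@Lb.g g8 (@Lb.g g9 (@Lb.g g10 (@Lb.r r553 (@Lb.r r619 (@Lb.r r548 (@Lb.d (nat_lit 169) (nat_lit 20) (nat_lit 129) (@Lb.t (@Lb.fm (nat_lit 9) t594)))))))))))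
noncomputable def l41470 : Lb := (@Lb.r r331 (@Lb.d (nat_lit 34) (nat_lit 514) (nat_lit 2) (@Lb.g g8 (@Lb.g g9 (@Lb.g g10 (@Lb.r r2454 (@Lb.r r1371 (@Lb.r r549 (@Lb.r r2708 (@Lb.d (nat_lit 646) (nat_lit 101) (nat_lit 390) (@Lb.t (@Lb.fm (nat_lit 9) t774))))))))))))
noncomputable def l41471 : Lb := (@Lb.d (nat_lit 68) (nat_lit 273) (nat_lit 576) (@Lb.r r549 (@Lb.r r102 (@Lb.g g11 (@Lb.g g5 (@Lb.g g8 (@Lb.d (nat_lit 0) (nat_lit 2) (nat_lit 256) (@Lb.r r610 (@Lb.t (@Lb.fm (nat_lit 9) t3447))))))))))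
noncomputable def l41472 : Lb := (@Lb.d (nat_lit 9) (nat_lit 520) (nat_lit 72) (@Lb.g g8 (@Lb.g g9 (@Lb.g g10 (@Lb.g g11 (@Lb.r r1559 (@Lb.r r1434 (@Lb.r r292 (@Lb.r r405 (@Lb.r r2084 (@Lb.d (nat_lit 617) (nat_lit 106) (nat_lit 345) (@Lb.fp (nat_lit 9) t2301))))))))))))
noncomputable def l41473 : Lb := (@Lb.d (nat_lit 134) (nat_lit 0) (nat_lit 64) (@Lb.g g8 (@Lb.g g9 (@Lb.g g11 (@Lb.r r520 (@Lb.r r2331 (@Lb.r r2178 (@Lb.r r2657 (@Lb.r r2084 (@Lb.d (nat_lit 17) (nat_lit 21) (nat_lit 26) (@Lb.t (@Lb.fp (nat_lit 9) t5247))))))))))))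
noncomputable def l41474 : Lb := (@Lb.r r20 (@Lb.d (nat_lit 4) (nat_lit 612) (nat_lit 128) (@Lb.g g5 (@Lb.g g10 (@Lb.g g11 (@Lb.r r658 (@Lb.r r1560 (@Lb.r r1435 (@Lb.d (nat_lit 345) (nat_lit 169) (nat_lit 277) (@Lb.t (@Lb.fp (nat_lit 9) t1506)))))))))))
noncomputable def l41475 : Lb := (@Lb.r r21 (@Lb.d (nat_lit 128) (nat_lit 256) (nat_lit 73) (@Lb.g g8 (@Lb.g g10 (@Lb.g g11 (@Lb.r r1691 (@Lb.r r409 (@Lb.r r90 (@Lb.r r1348 (@Lb.d (nat_lit 521) (nat_lit 100) (nat_lit 337) (@Lb.t (@Lb.fp (nat_lit 9) t7130))))))))))))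
noncomputable def l41476 : Lb := (@Lb.d (nat_lit 641) (nat_lit 258) (nat_lit 133) (@Lb.g g8 (@Lb.g g9 (@Lb.g g10 (@Lb.g g11 (@Lb.r r2475 (@Lb.r r2410 (@Lb.r r25 (@Lb.d (nat_lit 8) (nat_lit 105) (nat_lit 293) (@Lb.fp (nat_lit 9) t1691))))))))))
noncomputable def l41477 : Lb := (@Lb.r r21 (@Lb.d (nat_lit 145) (nat_lit 0) (nat_lit 74) (@Lb.g g8 (@Lb.g g10 (@Lb.g g11 (@Lb.r r1691 (@Lb.r r409 (@Lb.r r90 (@Lb.r r1156 (@Lb.d (nat_lit 617) (nat_lit 64) (nat_lit 577) (@Lb.t (@Lb.fp (nat_lit 9) t6897))))))))))))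
noncomputable def l41478 : Lb := (@Lb.r r323 (@Lb.d (nat_lit 166) (nat_lit 514) (nat_lit 2) (@Lb.g g8 (@Lb.g g9 (@Lb.g g10 (@Lb.r r409 (@Lb.r r1319 (@Lb.r r1604 (@Lb.r r1098 (@Lb.d (nat_lit 592) (nat_lit 138) (nat_lit 424) (@Lb.t (@Lb.fm (nat_lit 9) t3456))))))))))))
noncomputable def l41479 : Lb := (@Lb.d (nat_lit 389) (nat_lit 150) (nat_lit 354) (@Lb.r r1556 (@Lb.r r281 (@Lb.r r615 (@Lb.g g6 (@Lb.g g4 (@Lb.d (nat_lit 64) (nat_lit 4) (nat_lit 17) (@Lb.r r387 (@Lb.fp (nat_lit 3) t4323)))))))))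
noncomputable def l41480 : Lb := (@Lb.d (nat_lit 618) (nat_lit 85) (nat_lit 678) (@Lb.r r2710 (@Lb.r r1352 (@Lb.r r659 (@Lb.r r2401 (@Lb.g g7 (@Lb.g g6 (@Lb.d (nat_lit 16) (nat_lit 4) (nat_lit 129) (@Lb.fm (nat_lit 3) t895)))))))))
noncomputable def l41481 : Lb := (@Lb.d (nat_lit 0) (nat_lit 517) (nat_lit 129) (@Lb.g g7 (@Lb.g g5 (@Lb.fm (nat_lit 3) t87))))
noncomputable def l41482 : Lb := (@Lb.g g7 (@Lb.r r2438 (@Lb.r r1624 (@Lb.r r2341 (@Lb.d (nat_lit 1) (nat_lit 320) (nat_lit 320) (@Lb.t (@Lb.fp (nat_lit 3) t7131)))))))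
noncomputable def l41483 : Lb := (@Lb.d (nat_lit 5) (nat_lit 84) (nat_lit 9) (@Lb.r r594 (@Lb.r r539 (@Lb.r r660 (@Lb.g g6 (@Lb.g g5 (@Lb.d (nat_lit 16) (nat_lit 1) (nat_lit 0) (@Lb.r r419 (@Lb.fp (nat_lit 3) t2318)))))))))
noncomputable def l41484 : Lb := (@Lb.r r21 (@Lb.r r70 (@Lb.d (nat_lit 129) (nat_lit 512) (nat_lit 256) (@Lb.g g8 (@Lb.g g7 (@Lb.r r1617 (@Lb.r r1126 (@Lb.r r1432 (@Lb.d (nat_lit 422) (nat_lit 148) (nat_lit 597) (@Lb.fm (nat_lit 3) t423))))))))))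
noncomputable def l41485 : Lb := (@Lb.r r21 (@Lb.d (nat_lit 98) (nat_lit 256) (nat_lit 513) (@Lb.g g8 (@Lb.g g10 (@Lb.g g11 (@Lb.r r418 (@Lb.r r1385 (@Lb.r r1364 (@Lb.d (nat_lit 552) (nat_lit 72) (nat_lit 656) (@Lb.t (@Lb.fm (nat_lit 9) t7132)))))))))))
noncomputable def l41486 : Lb := (@Lb.r r359 (@Lb.d (nat_lit 258) (nat_lit 520) (nat_lit 17) (@Lb.g g4 (@Lb.g g9 (@Lb.g g6 (@Lb.r r2659 (@Lb.r r2149 (@Lb.d (nat_lit 597) (nat_lit 133) (nat_lit 546) (@Lb.t (@Lb.fm (nat_lit 9) t5634))))))))))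
noncomputable def l41487 : Lb := (@Lb.r r21 (@Lb.r r326 (@Lb.d (nat_lit 422) (nat_lit 288) (nat_lit 128) (@Lb.g g8 (@Lb.g g11 (@Lb.r r2198 (@Lb.r r97 (@Lb.d (nat_lit 609) (nat_lit 72) (nat_lit 545) (@Lb.fm (nat_lit 3) t1377)))))))))
noncomputable def l41488 : Lb := (@Lb.d (nat_lit 346) (nat_lit 577) (nat_lit 85) (@Lb.r r81 (@Lb.r r102 (@Lb.r r593 (@Lb.r r2395 (@Lb.g g7 (@Lb.g g6 (@Lb.g g5 (@Lb.g g8 (@Lb.d (nat_lit 1) (nat_lit 2) (nat_lit 65) (@Lb.fm (nat_lit 9) t415)))))))))))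
noncomputable def l41489 : Lb := (@Lb.d (nat_lit 136) (nat_lit 257) (nat_lit 64) (@Lb.g g9 (@Lb.g g11 (@Lb.r r2644 (@Lb.r r2730 (@Lb.r r1451 (@Lb.r r2473 (@Lb.d (nat_lit 389) (nat_lit 42) (nat_lit 402) (@Lb.fm (nat_lit 3) t4822)))))))))
noncomputable def l41490 : Lb := (@Lb.d (nat_lit 8) (nat_lit 1) (nat_lit 0) (@Lb.g g9 (@Lb.r r2118 (@Lb.r r2068 (@Lb.r r1177 (@Lb.d (nat_lit 514) (nat_lit 96) (nat_lit 276) (@Lb.t (@Lb.fp (nat_lit 3) t843))))))))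
noncomputable def l41491 : Lb := (@Lb.d (nat_lit 0) (nat_lit 8) (nat_lit 66) (@Lb.g g8 (@Lb.g g9 (@Lb.g g10 (@Lb.g g7 (@Lb.r r1410 (@Lb.r r1121 (@Lb.r r24 (@Lb.d (nat_lit 328) (nat_lit 137) (nat_lit 73) (@Lb.fp (nat_lit 9) t1333))))))))))
noncomputable def l41492 : Lb := (@Lb.r r21 (@Lb.d (nat_lit 2) (nat_lit 512) (nat_lit 130) (@Lb.g g8 (@Lb.g g10 (@Lb.g g11 (@Lb.r r1683 (@Lb.r r2184 (@Lb.r r1610 (@Lb.r r97 (@Lb.d (nat_lit 402) (nat_lit 132) (nat_lit 86) (@Lb.t (@Lb.fp (nat_lit 9) t4512))))))))))))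
noncomputable def l41493 : Lb := (@Lb.d (nat_lit 645) (nat_lit 5) (nat_lit 0) (@Lb.r r2149 (@Lb.r r2371 (@Lb.g g10 (@Lb.g g5 (@Lb.g g8 (@Lb.d (nat_lit 325) (nat_lit 8) (nat_lit 33) (@Lb.r r291 (@Lb.t (@Lb.fm (nat_lit 9) t2367))))))))))
noncomputable def l41494 : Lb := (@Lb.r r82 (@Lb.r r275 (@Lb.d (nat_lit 2) (nat_lit 518) (nat_lit 0) (@Lb.g g8 (@Lb.g g9 (@Lb.r r1687 (@Lb.r r98 (@Lb.r r2436 (@Lb.d (nat_lit 673) (nat_lit 10) (nat_lit 408) (@Lb.fp (nat_lit 3) t4606))))))))))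
noncomputable def l41495 : Lb := (@Lb.d (nat_lit 6) (nat_lit 422) (nat_lit 294) (@Lb.r r21 (@Lb.r r1366 (@Lb.r r683 (@Lb.g g7 (@Lb.g g6 (@Lb.g g5 (@Lb.g g4 (@Lb.d (nat_lit 8) (nat_lit 10) (nat_lit 0) (@Lb.fm (nat_lit 9) t40))))))))))
noncomputable def l41496 : Lb := (@Lb.d (nat_lit 132) (nat_lit 0) (nat_lit 386) (@Lb.g g8 (@Lb.g g9 (@Lb.g g10 (@Lb.g g11 (@Lb.r r1634 (@Lb.r r40 (@Lb.r r617 (@Lb.r r2084 (@Lb.d (nat_lit 2) (nat_lit 26) (nat_lit 394) (@Lb.fp (nat_lit 9) t5286)))))))))))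
noncomputable def l41497 : Lb := (@Lb.d (nat_lit 274) (nat_lit 266) (nat_lit 0) (@Lb.g g4 (@Lb.g g9 (@Lb.r r2403 (@Lb.r r594 (@Lb.r r2449 (@Lb.d (nat_lit 613) (nat_lit 8) (nat_lit 664) (@Lb.fp (nat_lit 3) t1456))))))))
noncomputable def l41498 : Lb := (@Lb.r r82 (@Lb.d (nat_lit 132) (nat_lit 0) (nat_lit 384) (@Lb.g g8 (@Lb.g g9 (@Lb.g g11 (@Lb.r r1049 (@Lb.r r1112 (@Lb.r r2438 (@Lb.d (nat_lit 2) (nat_lit 26) (nat_lit 394) (@Lb.t (@Lb.fm (nat_lit 9) t3483)))))))))))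
noncomputable def l41499 : Lb := (@Lb.d (nat_lit 6) (nat_lit 422) (nat_lit 294) (@Lb.r r21 (@Lb.r r1366 (@Lb.r r683 (@Lb.g g6 (@Lb.g g5 (@Lb.g g4 (@Lb.d (nat_lit 9) (nat_lit 10) (nat_lit 0) (@Lb.t (@Lb.fm (nat_lit 9) t167))))))))))
noncomputable def l41500 : Lb := (@Lb.d (nat_lit 272) (nat_lit 521) (nat_lit 1) (@Lb.g g8 (@Lb.g g9 (@Lb.g g10 (@Lb.r r675 (@Lb.r r2658 (@Lb.r r25 (@Lb.d (nat_lit 148) (nat_lit 89) (nat_lit 665) (@Lb.t (@Lb.fp (nat_lit 9) t3785))))))))))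
noncomputable def l41501 : Lb := (@Lb.d (nat_lit 0) (nat_lit 514) (nat_lit 66) (@Lb.g g8 (@Lb.g g9 (@Lb.g g10 (@Lb.g g7 (@Lb.r r386 (@Lb.r r97 (@Lb.d (nat_lit 4) (nat_lit 136) (nat_lit 73) (@Lb.fm (nat_lit 9) t420)))))))))
noncomputable def l41502 : Lb := (@Lb.r r2118 (@Lb.d (nat_lit 10) (nat_lit 513) (nat_lit 0) (@Lb.g g8 (@Lb.g g9 (@Lb.r r617 (@Lb.r r612 (@Lb.d (nat_lit 152) (nat_lit 26) (nat_lit 426) (@Lb.fp (nat_lit 3) t1427))))))))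
noncomputable def l41503 : Lb := (@Lb.d (nat_lit 9) (nat_lit 513) (nat_lit 73) (@Lb.g g8 (@Lb.g g9 (@Lb.g g10 (@Lb.g g11 (@Lb.r r2666 (@Lb.r r579 (@Lb.r r97 (@Lb.r r24 (@Lb.d (nat_lit 426) (nat_lit 9) (nat_lit 420) (@Lb.fm (nat_lit 9) t263)))))))))))
noncomputable def l41504 : Lb := (@Lb.d (nat_lit 153) (nat_lit 264) (nat_lit 73) (@Lb.g g8 (@Lb.g g9 (@Lb.g g10 (@Lb.g g11 (@Lb.r r683 (@Lb.r r2724 (@Lb.r r1190 (@Lb.r r145 (@Lb.d (nat_lit 9) (nat_lit 132) (nat_lit 664) (@Lb.fp (nat_lit 9) t1144)))))))))))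
noncomputable def l41505 : Lb := (@Lb.d (nat_lit 9) (nat_lit 257) (nat_lit 73) (@Lb.g g8 (@Lb.g g9 (@Lb.g g10 (@Lb.g g11 (@Lb.r r2666 (@Lb.r r579 (@Lb.r r97 (@Lb.r r24 (@Lb.d (nat_lit 425) (nat_lit 4) (nat_lit 422) (@Lb.fm (nat_lit 9) t263)))))))))))
noncomputable def l41506 : Lb := (@Lb.d (nat_lit 9) (nat_lit 1) (nat_lit 73) (@Lb.g g8 (@Lb.g g9 (@Lb.g g10 (@Lb.g g11 (@Lb.r r2666 (@Lb.r r579 (@Lb.r r97 (@Lb.r r24 (@Lb.d (nat_lit 426) (nat_lit 4) (nat_lit 422) (@Lb.fm (nat_lit 9) t263)))))))))))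
noncomputable def l41507 : Lb := (@Lb.d (nat_lit 128) (nat_lit 514) (nat_lit 130) (@Lb.g g8 (@Lb.g g9 (@Lb.g g10 (@Lb.g g11 (@Lb.r r419 (@Lb.r r1702 (@Lb.r r344 (@Lb.r r1429 (@Lb.r r1060 (@Lb.d (nat_lit 608) (nat_lit 40) (nat_lit 402) (@Lb.fp (nat_lit 9) t7133))))))))))))
noncomputable def l41508 : Lb := (@Lb.d (nat_lit 129) (nat_lit 514) (nat_lit 130) (@Lb.g g8 (@Lb.g g9 (@Lb.g g10 (@Lb.g g11 (@Lb.r r1706 (@Lb.r r1411 (@Lb.r r552 (@Lb.r r1641 (@Lb.r r36 (@Lb.d (nat_lit 617) (nat_lit 66) (nat_lit 650) (@Lb.fm (nat_lit 9) t7134))))))))))))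
noncomputable def l41509 : Lb := (@Lb.d (nat_lit 0) (nat_lit 256) (nat_lit 2) (@Lb.g g4 (@Lb.g g10 (@Lb.r r2311 (@Lb.r r2193 (@Lb.r r146 (@Lb.d (nat_lit 257) (nat_lit 72) (nat_lit 97) (@Lb.fm (nat_lit 3) t7135))))))))
noncomputable def l41510 : Lb := (@Lb.d (nat_lit 129) (nat_lit 258) (nat_lit 130) (@Lb.g g8 (@Lb.g g9 (@Lb.g g10 (@Lb.g g11 (@Lb.r r1706 (@Lb.r r1411 (@Lb.r r552 (@Lb.r r1641 (@Lb.r r36 (@Lb.d (nat_lit 610) (nat_lit 64) (nat_lit 650) (@Lb.fm (nat_lit 9) t7134))))))))))))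
noncomputable def l41511 : Lb := (@Lb.d (nat_lit 9) (nat_lit 265) (nat_lit 129) (@Lb.g g8 (@Lb.g g9 (@Lb.g g10 (@Lb.g g11 (@Lb.r r1579 (@Lb.r r161 (@Lb.r r98 (@Lb.r r1608 (@Lb.d (nat_lit 97) (nat_lit 6) (nat_lit 537) (@Lb.fm (nat_lit 9) t1109)))))))))))
noncomputable def l41512 : Lb := (@Lb.g g8 (@Lb.r r1427 (@Lb.r r101 (@Lb.d (nat_lit 138) (nat_lit 146) (nat_lit 528) (@Lb.t (@Lb.fm (nat_lit 3) t6150))))))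
noncomputable def l41513 : Lb := (@Lb.d (nat_lit 0) (nat_lit 258) (nat_lit 130) (@Lb.g g8 (@Lb.g g9 (@Lb.g g10 (@Lb.g g11 (@Lb.r r1674 (@Lb.r r1419 (@Lb.r r40 (@Lb.r r105 (@Lb.r r1060 (@Lb.d (nat_lit 278) (nat_lit 106) (nat_lit 336) (@Lb.fm (nat_lit 9) t940))))))))))))
noncomputable def l41514 : Lb := (@Lb.d (nat_lit 4) (nat_lit 257) (nat_lit 36) (@Lb.g g8 (@Lb.g g9 (@Lb.g g10 (@Lb.g g11 (@Lb.r r387 (@Lb.r r1640 (@Lb.r r1705 (@Lb.d (nat_lit 610) (nat_lit 149) (nat_lit 390) (@Lb.fp (nat_lit 9) t996))))))))))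
noncomputable def l41515 : Lb := (@Lb.r r260 (@Lb.r r273 (@Lb.d (nat_lit 128) (nat_lit 260) (nat_lit 598) (@Lb.g g6 (@Lb.g g11 (@Lb.r r2661 (@Lb.r r1048 (@Lb.d (nat_lit 645) (nat_lit 129) (nat_lit 85) (@Lb.fp (nat_lit 3) t3139)))))))))
noncomputable def l41516 : Lb := (@Lb.d (nat_lit 538) (nat_lit 425) (nat_lit 328) (@Lb.r r2138 (@Lb.r r1624 (@Lb.r r2587 (@Lb.g g6 (@Lb.g g9 (@Lb.g g4 (@Lb.d (nat_lit 32) (nat_lit 38) (nat_lit 2) (@Lb.t (@Lb.fm (nat_lit 9) t7136))))))))))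
noncomputable def l41517 : Lb := (@Lb.r r275 (@Lb.d (nat_lit 4) (nat_lit 262) (nat_lit 32) (@Lb.g g8 (@Lb.g g9 (@Lb.g g10 (@Lb.r r1451 (@Lb.r r345 (@Lb.r r36 (@Lb.d (nat_lit 533) (nat_lit 149) (nat_lit 8) (@Lb.t (@Lb.fm (nat_lit 9) t4265)))))))))))
noncomputable def l41518 : Lb := (@Lb.r r263 (@Lb.d (nat_lit 0) (nat_lit 2) (nat_lit 2) (@Lb.g g8 (@Lb.g g9 (@Lb.g g10 (@Lb.r r1706 (@Lb.r r1451 (@Lb.r r296 (@Lb.r r25 (@Lb.d (nat_lit 70) (nat_lit 37) (nat_lit 328) (@Lb.t (@Lb.fm (nat_lit 9) t985))))))))))))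
noncomputable def l41519 : Lb := (@Lb.r r82 (@Lb.d (nat_lit 0) (nat_lit 2) (nat_lit 580) (@Lb.g g8 (@Lb.g g9 (@Lb.g g7 (@Lb.r r1441 (@Lb.r r98 (@Lb.r r24 (@Lb.d (nat_lit 608) (nat_lit 68) (nat_lit 264) (@Lb.t (@Lb.fp (nat_lit 9) t5354)))))))))))
noncomputable def l41520 : Lb := (@Lb.d (nat_lit 5) (nat_lit 258) (nat_lit 645) (@Lb.r r1288 (@Lb.r r579 (@Lb.r r1362 (@Lb.g g7 (@Lb.g g6 (@Lb.g g5 (@Lb.d (nat_lit 0) (nat_lit 8) (nat_lit 64) (@Lb.r r36 (@Lb.t (@Lb.fp (nat_lit 9) t4888)))))))))))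
noncomputable def l41521 : Lb := (@Lb.d (nat_lit 322) (nat_lit 661) (nat_lit 658) (@Lb.r r1284 (@Lb.r r1299 (@Lb.g g6 (@Lb.g g9 (@Lb.d (nat_lit 4) (nat_lit 146) (nat_lit 42) (@Lb.r r387 (@Lb.fp (nat_lit 3) t7137))))))))
noncomputable def l41522 : Lb := (@Lb.d (nat_lit 0) (nat_lit 265) (nat_lit 73) (@Lb.g g4 (@Lb.g g9 (@Lb.g g10 (@Lb.g g11 (@Lb.r r2467 (@Lb.r r145 (@Lb.r r594 (@Lb.d (nat_lit 1) (nat_lit 85) (nat_lit 128) (@Lb.fm (nat_lit 9) t2307))))))))))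
noncomputable def l41523 : Lb := (@Lb.r r21 (@Lb.d (nat_lit 129) (nat_lit 0) (nat_lit 66) (@Lb.g g8 (@Lb.g g10 (@Lb.g g11 (@Lb.r r419 (@Lb.r r132 (@Lb.r r2438 (@Lb.r r97 (@Lb.d (nat_lit 361) (nat_lit 137) (nat_lit 612) (@Lb.t (@Lb.fm (nat_lit 9) t3270))))))))))))
noncomputable def l41524 : Lb := (@Lb.d (nat_lit 0) (nat_lit 521) (nat_lit 73) (@Lb.g g4 (@Lb.g g9 (@Lb.g g10 (@Lb.g g11 (@Lb.r r2467 (@Lb.r r145 (@Lb.r r594 (@Lb.d (nat_lit 0) (nat_lit 85) (nat_lit 128) (@Lb.fm (nat_lit 9) t2307))))))))))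
noncomputable def l41525 : Lb := (@Lb.d (nat_lit 1) (nat_lit 258) (nat_lit 9) (@Lb.g g8 (@Lb.g g9 (@Lb.g g10 (@Lb.g g11 (@Lb.r r610 (@Lb.r r1607 (@Lb.r r97 (@Lb.r r24 (@Lb.d (nat_lit 258) (nat_lit 164) (nat_lit 84) (@Lb.fm (nat_lit 9) t5119)))))))))))
noncomputable def l41526 : Lb := (@Lb.d (nat_lit 2) (nat_lit 9) (nat_lit 72) (@Lb.g g8 (@Lb.g g9 (@Lb.g g10 (@Lb.g g11 (@Lb.r r427 (@Lb.r r297 (@Lb.r r2408 (@Lb.r r1174 (@Lb.d (nat_lit 532) (nat_lit 64) (nat_lit 2) (@Lb.fm (nat_lit 9) t6989)))))))))))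
noncomputable def l41527 : Lb := (@Lb.d (nat_lit 1) (nat_lit 290) (nat_lit 66) (@Lb.g g8 (@Lb.g g9 (@Lb.g g10 (@Lb.g g11 (@Lb.r r169 (@Lb.r r682 (@Lb.r r2435 (@Lb.r r145 (@Lb.r r36 (@Lb.d (nat_lit 676) (nat_lit 1) (nat_lit 101) (@Lb.fp (nat_lit 9) t5756))))))))))))
noncomputable def l41528 : Lb := (@Lb.d (nat_lit 146) (nat_lit 514) (nat_lit 64) (@Lb.g g8 (@Lb.g g9 (@Lb.g g10 (@Lb.g g11 (@Lb.r r2459 (@Lb.r r1177 (@Lb.r r1626 (@Lb.r r72 (@Lb.d (nat_lit 36) (nat_lit 41) (nat_lit 417) (@Lb.fm (nat_lit 9) t3877)))))))))))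
noncomputable def l41529 : Lb := (@Lb.d (nat_lit 153) (nat_lit 550) (nat_lit 133) (@Lb.g g8 (@Lb.g g9 (@Lb.g g10 (@Lb.g g11 (@Lb.r r387 (@Lb.r r164 (@Lb.r r2470 (@Lb.r r1553 (@Lb.d (nat_lit 533) (nat_lit 68) (nat_lit 592) (@Lb.fm (nat_lit 9) t4)))))))))))
noncomputable def l41530 : Lb := (@Lb.d (nat_lit 162) (nat_lit 265) (nat_lit 64) (@Lb.g g8 (@Lb.g g9 (@Lb.g g11 (@Lb.r r2694 (@Lb.r r1411 (@Lb.r r1300 (@Lb.r r25 (@Lb.d (nat_lit 521) (nat_lit 81) (nat_lit 153) (@Lb.t (@Lb.fp (nat_lit 9) t1952)))))))))))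
noncomputable def l41531 : Lb := (@Lb.d (nat_lit 1) (nat_lit 514) (nat_lit 0) (@Lb.g g8 (@Lb.g g9 (@Lb.r r322 (@Lb.r r1667 (@Lb.r r578 (@Lb.r r25 (@Lb.d (nat_lit 545) (nat_lit 144) (nat_lit 281) (@Lb.fp (nat_lit 3) t7138)))))))))
noncomputable def l41532 : Lb := (@Lb.r r82 (@Lb.d (nat_lit 34) (nat_lit 258) (nat_lit 580) (@Lb.g g8 (@Lb.g g9 (@Lb.g g7 (@Lb.r r1385 (@Lb.r r150 (@Lb.r r72 (@Lb.d (nat_lit 289) (nat_lit 17) (nat_lit 41) (@Lb.t (@Lb.fm (nat_lit 9) t5821)))))))))))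
noncomputable def l41533 : Lb := (@Lb.d (nat_lit 38) (nat_lit 36) (nat_lit 580) (@Lb.g g8 (@Lb.g g9 (@Lb.g g10 (@Lb.g g7 (@Lb.r r1442 (@Lb.r r1129 (@Lb.r r72 (@Lb.d (nat_lit 4) (nat_lit 148) (nat_lit 616) (@Lb.fp (nat_lit 9) t7139))))))))))
noncomputable def l41534 : Lb := (@Lb.r r260 (@Lb.r r273 (@Lb.d (nat_lit 0) (nat_lit 260) (nat_lit 534) (@Lb.g g6 (@Lb.g g11 (@Lb.r r2661 (@Lb.r r1048 (@Lb.d (nat_lit 384) (nat_lit 0) (nat_lit 85) (@Lb.fp (nat_lit 3) t3139)))))))))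
noncomputable def l41535 : Lb := (@Lb.d (nat_lit 0) (nat_lit 514) (nat_lit 66) (@Lb.g g8 (@Lb.g g9 (@Lb.g g10 (@Lb.g g7 (@Lb.r r386 (@Lb.r r25 (@Lb.r r24 (@Lb.d (nat_lit 610) (nat_lit 5) (nat_lit 602) (@Lb.fm (nat_lit 9) t4165))))))))))
noncomputable def l41536 : Lb := (@Lb.r r82 (@Lb.d (nat_lit 132) (nat_lit 17) (nat_lit 128) (@Lb.g g8 (@Lb.g g9 (@Lb.g g11 (@Lb.r r1543 (@Lb.r r2630 (@Lb.r r1556 (@Lb.r r553 (@Lb.d (nat_lit 582) (nat_lit 17) (nat_lit 640) (@Lb.t (@Lb.fm (nat_lit 9) t6943))))))))))))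
noncomputable def l41537 : Lb := (@Lb.d (nat_lit 0) (nat_lit 32) (nat_lit 320) (@Lb.g g11 (@Lb.r r2341 (@Lb.r r2136 (@Lb.r r1158 (@Lb.d (nat_lit 0) (nat_lit 5) (nat_lit 160) (@Lb.t (@Lb.fm (nat_lit 3) t296))))))))
noncomputable def l41538 : Lb := (@Lb.d (nat_lit 146) (nat_lit 2) (nat_lit 64) (@Lb.g g8 (@Lb.g g9 (@Lb.g g10 (@Lb.g g11 (@Lb.r r2459 (@Lb.r r1177 (@Lb.r r1626 (@Lb.r r72 (@Lb.d (nat_lit 34) (nat_lit 40) (nat_lit 417) (@Lb.fm (nat_lit 9) t212)))))))))))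
noncomputable def l41539 : Lb := (@Lb.d (nat_lit 145) (nat_lit 162) (nat_lit 362) (@Lb.r r2438 (@Lb.r r1624 (@Lb.r r2325 (@Lb.r r2379 (@Lb.g g7 (@Lb.g g6 (@Lb.g g5 (@Lb.d (nat_lit 0) (nat_lit 18) (nat_lit 65) (@Lb.t (@Lb.fp (nat_lit 9) t7140)))))))))))
noncomputable def l41540 : Lb := (@Lb.d (nat_lit 9) (nat_lit 288) (nat_lit 66) (@Lb.g g8 (@Lb.g g9 (@Lb.g g10 (@Lb.g g11 (@Lb.r r1699 (@Lb.r r1192 (@Lb.r r1642 (@Lb.r r1561 (@Lb.d (nat_lit 420) (nat_lit 41) (nat_lit 344) (@Lb.fp (nat_lit 9) t243)))))))))))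
noncomputable def l41541 : Lb := (@Lb.d (nat_lit 512) (nat_lit 672) (nat_lit 72) (@Lb.r r24 (@Lb.r r1383 (@Lb.r r2389 (@Lb.g g6 (@Lb.g g4 (@Lb.d (nat_lit 1) (nat_lit 8) (nat_lit 32) (@Lb.r r387 (@Lb.fp (nat_lit 3) t764)))))))))
noncomputable def l41542 : Lb := (@Lb.d (nat_lit 9) (nat_lit 0) (nat_lit 2) (@Lb.g g8 (@Lb.g g10 (@Lb.g g7 (@Lb.r r386 (@Lb.r r101 (@Lb.r r24 (@Lb.d (nat_lit 617) (nat_lit 9) (nat_lit 616) (@Lb.t (@Lb.fm (nat_lit 9) t166))))))))))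
noncomputable def l41543 : Lb := (@Lb.d (nat_lit 21) (nat_lit 262) (nat_lit 10) (@Lb.r r2657 (@Lb.r r166 (@Lb.r r1699 (@Lb.g g7 (@Lb.g g6 (@Lb.g g5 (@Lb.g g8 (@Lb.d (nat_lit 0) (nat_lit 6) (nat_lit 132) (@Lb.fp (nat_lit 9) t7141))))))))))
noncomputable def l41544 : Lb := (@Lb.d (nat_lit 0) (nat_lit 516) (nat_lit 82) (@Lb.g g6 (@Lb.g g11 (@Lb.r r2659 (@Lb.r r1633 (@Lb.r r36 (@Lb.d (nat_lit 5) (nat_lit 96) (nat_lit 405) (@Lb.fp (nat_lit 3) t918))))))))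
noncomputable def l41545 : Lb := (@Lb.d (nat_lit 401) (nat_lit 546) (nat_lit 104) (@Lb.r r2730 (@Lb.r r2475 (@Lb.r r1449 (@Lb.r r1700 (@Lb.g g7 (@Lb.g g6 (@Lb.g g5 (@Lb.d (nat_lit 4) (nat_lit 32) (nat_lit 69) (@Lb.t (@Lb.fp (nat_lit 9) t7142)))))))))))
noncomputable def l41546 : Lb := (@Lb.d (nat_lit 8) (nat_lit 512) (nat_lit 64) (@Lb.g g9 (@Lb.g g11 (@Lb.r r1540 (@Lb.r r1383 (@Lb.r r1702 (@Lb.r r2133 (@Lb.d (nat_lit 536) (nat_lit 10) (nat_lit 21) (@Lb.fp (nat_lit 3) t2488)))))))))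
noncomputable def l41547 : Lb := (@Lb.g g8 (@Lb.g g7 (@Lb.r r101 (@Lb.r r24 (@Lb.d (nat_lit 577) (nat_lit 512) (nat_lit 661) (@Lb.fp (nat_lit 3) t1150))))))
noncomputable def l41548 : Lb := (@Lb.d (nat_lit 38) (nat_lit 0) (nat_lit 73) (@Lb.g g8 (@Lb.g g9 (@Lb.g g10 (@Lb.g g11 (@Lb.r r2721 (@Lb.r r2731 (@Lb.r r1670 (@Lb.r r2180 (@Lb.d (nat_lit 537) (nat_lit 128) (nat_lit 646) (@Lb.fm (nat_lit 9) t7143)))))))))))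
noncomputable def l41549 : Lb := (@Lb.d (nat_lit 1) (nat_lit 256) (nat_lit 656) (@Lb.r r2182 (@Lb.r r324 (@Lb.r r1563 (@Lb.r r1317 (@Lb.g g11 (@Lb.g g9 (@Lb.g g4 (@Lb.r r74 (@Lb.t (@Lb.fm (nat_lit 9) t5669)))))))))))
noncomputable def l41550 : Lb := (@Lb.d (nat_lit 136) (nat_lit 0) (nat_lit 64) (@Lb.g g9 (@Lb.g g11 (@Lb.r r152 (@Lb.r r2650 (@Lb.r r1371 (@Lb.r r1685 (@Lb.d (nat_lit 38) (nat_lit 34) (nat_lit 584) (@Lb.fp (nat_lit 3) t3147)))))))))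
noncomputable def l41551 : Lb := (@Lb.d (nat_lit 96) (nat_lit 356) (nat_lit 133) (@Lb.r r613 (@Lb.r r280 (@Lb.r r338 (@Lb.r r387 (@Lb.g g7 (@Lb.g g6 (@Lb.g g5 (@Lb.d (nat_lit 4) (nat_lit 40) (nat_lit 5) (@Lb.t (@Lb.fp (nat_lit 9) t2318)))))))))))
noncomputable def l41552 : Lb := (@Lb.d (nat_lit 4) (nat_lit 266) (nat_lit 73) (@Lb.g g8 (@Lb.g g9 (@Lb.g g10 (@Lb.g g11 (@Lb.r r2731 (@Lb.r r2709 (@Lb.r r1178 (@Lb.d (nat_lit 70) (nat_lit 73) (nat_lit 393) (@Lb.fp (nat_lit 9) t3917))))))))))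
noncomputable def l41553 : Lb := (@Lb.d (nat_lit 101) (nat_lit 289) (nat_lit 100) (@Lb.r r408 (@Lb.r r330 (@Lb.r r343 (@Lb.g g5 (@Lb.g g4 (@Lb.d (nat_lit 17) (nat_lit 4) (nat_lit 0) (@Lb.r r291 (@Lb.r r98 (@Lb.fp (nat_lit 3) t686))))))))))
noncomputable def l41554 : Lb := (@Lb.d (nat_lit 132) (nat_lit 538) (nat_lit 1) (@Lb.g g8 (@Lb.g g9 (@Lb.g g10 (@Lb.g g11 (@Lb.r r2722 (@Lb.r r36 (@Lb.r r1685 (@Lb.r r531 (@Lb.r r1060 (@Lb.d (nat_lit 616) (nat_lit 166) (nat_lit 69) (@Lb.fp (nat_lit 9) t511))))))))))))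
noncomputable def l41555 : Lb := (@Lb.d (nat_lit 2) (nat_lit 288) (nat_lit 0) (@Lb.g g8 (@Lb.g g9 (@Lb.r r1162 (@Lb.r r1444 (@Lb.r r2331 (@Lb.r r549 (@Lb.d (nat_lit 520) (nat_lit 129) (nat_lit 5) (@Lb.fm (nat_lit 3) t2604)))))))))
noncomputable def l41556 : Lb := (@Lb.d (nat_lit 390) (nat_lit 598) (nat_lit 640) (@Lb.r r2584 (@Lb.r r97 (@Lb.r r2667 (@Lb.g g7 (@Lb.g g10 (@Lb.g g5 (@Lb.g g4 (@Lb.d (nat_lit 1) (nat_lit 1) (nat_lit 98) (@Lb.fp (nat_lit 9) t825))))))))))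
noncomputable def l41557 : Lb := (@Lb.r r20 (@Lb.d (nat_lit 0) (nat_lit 162) (nat_lit 64) (@Lb.g g9 (@Lb.g g10 (@Lb.g g11 (@Lb.r r1642 (@Lb.r r619 (@Lb.r r1608 (@Lb.d (nat_lit 5) (nat_lit 128) (nat_lit 256) (@Lb.t (@Lb.fm (nat_lit 9) t4276)))))))))))
noncomputable def l41558 : Lb := (@Lb.d (nat_lit 2) (nat_lit 514) (nat_lit 130) (@Lb.g g8 (@Lb.g g9 (@Lb.g g10 (@Lb.g g11 (@Lb.r r1443 (@Lb.r r1122 (@Lb.r r25 (@Lb.d (nat_lit 84) (nat_lit 137) (nat_lit 409) (@Lb.fp (nat_lit 9) t4799))))))))))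
noncomputable def l41559 : Lb := (@Lb.d (nat_lit 10) (nat_lit 513) (nat_lit 130) (@Lb.g g8 (@Lb.g g9 (@Lb.g g10 (@Lb.g g11 (@Lb.r r2711 (@Lb.r r664 (@Lb.r r1450 (@Lb.r r425 (@Lb.r r2084 (@Lb.d (nat_lit 129) (nat_lit 73) (nat_lit 658) (@Lb.fp (nat_lit 9) t5162))))))))))))
noncomputable def l41560 : Lb := (@Lb.d (nat_lit 130) (nat_lit 258) (nat_lit 64) (@Lb.g g8 (@Lb.g g9 (@Lb.g g10 (@Lb.g g11 (@Lb.r r618 (@Lb.r r2667 (@Lb.r r2073 (@Lb.r r2072 (@Lb.d (nat_lit 666) (nat_lit 164) (nat_lit 154) (@Lb.fp (nat_lit 9) t2150)))))))))))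
noncomputable def l41561 : Lb := (@Lb.d (nat_lit 640) (nat_lit 2) (nat_lit 130) (@Lb.g g4 (@Lb.g g9 (@Lb.g g10 (@Lb.g g11 (@Lb.r r646 (@Lb.r r391 (@Lb.r r97 (@Lb.d (nat_lit 354) (nat_lit 138) (nat_lit 146) (@Lb.fm (nat_lit 9) t2417))))))))))
noncomputable def l41562 : Lb := (@Lb.r r21 (@Lb.r r263 (@Lb.d (nat_lit 264) (nat_lit 0) (nat_lit 2) (@Lb.g g8 (@Lb.g g6 (@Lb.r r1190 (@Lb.r r2341 (@Lb.r r403 (@Lb.d (nat_lit 1) (nat_lit 0) (nat_lit 277) (@Lb.fp (nat_lit 3) t4276))))))))))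
noncomputable def l41563 : Lb := (@Lb.d (nat_lit 130) (nat_lit 66) (nat_lit 1) (@Lb.g g8 (@Lb.g g5 (@Lb.g g10 (@Lb.r r1683 (@Lb.r r1178 (@Lb.r r392 (@Lb.d (nat_lit 340) (nat_lit 96) (nat_lit 74) (@Lb.t (@Lb.fm (nat_lit 9) t4310))))))))))
noncomputable def l41564 : Lb := (@Lb.r r82 (@Lb.d (nat_lit 128) (nat_lit 514) (nat_lit 128) (@Lb.g g9 (@Lb.g g11 (@Lb.r r661 (@Lb.r r1380 (@Lb.r r2715 (@Lb.r r146 (@Lb.d (nat_lit 353) (nat_lit 0) (nat_lit 274) (@Lb.fm (nat_lit 3) t5239))))))))))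
noncomputable def l41565 : Lb := (@Lb.r r323 (@Lb.d (nat_lit 130) (nat_lit 512) (nat_lit 2) (@Lb.g g8 (@Lb.g g9 (@Lb.g g10 (@Lb.r r1362 (@Lb.r r2705 (@Lb.r r1431 (@Lb.r r2632 (@Lb.d (nat_lit 409) (nat_lit 65) (nat_lit 9) (@Lb.t (@Lb.fp (nat_lit 9) t7144))))))))))))
noncomputable def l41566 : Lb := (@Lb.d (nat_lit 144) (nat_lit 260) (nat_lit 65) (@Lb.g g8 (@Lb.g g9 (@Lb.g g10 (@Lb.g g11 (@Lb.r r1443 (@Lb.r r1172 (@Lb.r r406 (@Lb.r r37 (@Lb.d (nat_lit 273) (nat_lit 16) (nat_lit 665) (@Lb.fp (nat_lit 9) t5151)))))))))))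
noncomputable def l41567 : Lb := (@Lb.d (nat_lit 0) (nat_lit 24) (nat_lit 358) (@Lb.r r1362 (@Lb.r r1681 (@Lb.g g7 (@Lb.g g6 (@Lb.d (nat_lit 0) (nat_lit 16) (nat_lit 577) (@Lb.fm (nat_lit 3) t7145)))))))
noncomputable def l41568 : Lb := (@Lb.d (nat_lit 2) (nat_lit 258) (nat_lit 73) (@Lb.g g8 (@Lb.g g9 (@Lb.g g10 (@Lb.g g11 (@Lb.r r1610 (@Lb.r r2643 (@Lb.r r145 (@Lb.r r2120 (@Lb.d (nat_lit 170) (nat_lit 22) (nat_lit 96) (@Lb.fp (nat_lit 9) t1351)))))))))))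
noncomputable def l41569 : Lb := (@Lb.r r323 (@Lb.d (nat_lit 8) (nat_lit 544) (nat_lit 2) (@Lb.g g9 (@Lb.g g10 (@Lb.r r1114 (@Lb.r r1624 (@Lb.r r1371 (@Lb.r r2705 (@Lb.d (nat_lit 536) (nat_lit 8) (nat_lit 516) (@Lb.fp (nat_lit 3) t7146))))))))))
noncomputable def l41570 : Lb := (@Lb.d (nat_lit 8) (nat_lit 104) (nat_lit 404) (@Lb.r r72 (@Lb.r r1129 (@Lb.r r1442 (@Lb.g g11 (@Lb.g g6 (@Lb.g g5 (@Lb.g g4 (@Lb.d (nat_lit 25) (nat_lit 24) (nat_lit 392) (@Lb.fp (nat_lit 9) t7147))))))))))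
noncomputable def l41571 : Lb := (@Lb.d (nat_lit 2) (nat_lit 260) (nat_lit 0) (@Lb.g g8 (@Lb.g g9 (@Lb.g g10 (@Lb.r r1706 (@Lb.r r1451 (@Lb.r r2457 (@Lb.r r2436 (@Lb.d (nat_lit 617) (nat_lit 129) (nat_lit 410) (@Lb.t (@Lb.fp (nat_lit 9) t4302)))))))))))
noncomputable def l41572 : Lb := (@Lb.r r21 (@Lb.r r323 (@Lb.d (nat_lit 33) (nat_lit 520) (nat_lit 17) (@Lb.g g8 (@Lb.g g6 (@Lb.r r2651 (@Lb.r r145 (@Lb.r r2564 (@Lb.d (nat_lit 385) (nat_lit 65) (nat_lit 385) (@Lb.fm (nat_lit 3) t394))))))))))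
noncomputable def l41573 : Lb := (@Lb.r r275 (@Lb.d (nat_lit 2) (nat_lit 514) (nat_lit 2) (@Lb.g g8 (@Lb.g g9 (@Lb.g g10 (@Lb.r r1642 (@Lb.r r1603 (@Lb.r r296 (@Lb.r r2073 (@Lb.d (nat_lit 105) (nat_lit 97) (nat_lit 674) (@Lb.t (@Lb.fm (nat_lit 9) t7148))))))))))))
noncomputable def l41574 : Lb := (@Lb.r r275 (@Lb.d (nat_lit 8) (nat_lit 258) (nat_lit 2) (@Lb.g g8 (@Lb.g g9 (@Lb.g g10 (@Lb.r r2459 (@Lb.r r106 (@Lb.r r25 (@Lb.r r2628 (@Lb.d (nat_lit 104) (nat_lit 149) (nat_lit 596) (@Lb.t (@Lb.fm (nat_lit 9) t5235))))))))))))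
noncomputable def l41575 : Lb := (@Lb.r r21 (@Lb.r r323 (@Lb.d (nat_lit 676) (nat_lit 512) (nat_lit 1) (@Lb.g g4 (@Lb.g g10 (@Lb.r r1387 (@Lb.r r2213 (@Lb.r r2470 (@Lb.d (nat_lit 420) (nat_lit 153) (nat_lit 72) (@Lb.fp (nat_lit 3) t960))))))))))
noncomputable def l41576 : Lb := (@Lb.d (nat_lit 4) (nat_lit 257) (nat_lit 0) (@Lb.g g5 (@Lb.r r2311 (@Lb.d (nat_lit 134) (nat_lit 81) (nat_lit 576) (@Lb.t (@Lb.fm (nat_lit 3) t7149))))))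
noncomputable def l41577 : Lb := (@Lb.r r275 (@Lb.d (nat_lit 4) (nat_lit 256) (nat_lit 2) (@Lb.g g8 (@Lb.g g9 (@Lb.g g10 (@Lb.r r1642 (@Lb.r r1603 (@Lb.r r296 (@Lb.r r2073 (@Lb.d (nat_lit 105) (nat_lit 97) (nat_lit 674) (@Lb.t (@Lb.fm (nat_lit 9) t7148))))))))))))
noncomputable def l41578 : Lb := (@Lb.d (nat_lit 548) (nat_lit 518) (nat_lit 294) (@Lb.r r1125 (@Lb.r r386 (@Lb.r r347 (@Lb.g g6 (@Lb.g g5 (@Lb.g g8 (@Lb.d (nat_lit 9) (nat_lit 0) (nat_lit 1) (@Lb.t (@Lb.fm (nat_lit 9) t430))))))))))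
noncomputable def l41579 : Lb := (@Lb.r r323 (@Lb.d (nat_lit 8) (nat_lit 290) (nat_lit 18) (@Lb.g g9 (@Lb.g g10 (@Lb.r r532 (@Lb.r r599 (@Lb.r r297 (@Lb.d (nat_lit 37) (nat_lit 41) (nat_lit 673) (@Lb.fm (nat_lit 3) t386)))))))))
noncomputable def l41580 : Lb := (@Lb.d (nat_lit 2) (nat_lit 8) (nat_lit 2) (@Lb.r r101 (@Lb.g g7 (@Lb.g g8 (@Lb.d (nat_lit 9) (nat_lit 0) (nat_lit 68) (@Lb.fm (nat_lit 3) t40))))))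
noncomputable def l41581 : Lb := (@Lb.d (nat_lit 294) (nat_lit 362) (nat_lit 385) (@Lb.r r1317 (@Lb.r r603 (@Lb.r r516 (@Lb.r r2150 (@Lb.g g7 (@Lb.d (nat_lit 64) (nat_lit 0) (nat_lit 64) (@Lb.t (@Lb.fm (nat_lit 3) t1195)))))))))
noncomputable def l41582 : Lb := (@Lb.d (nat_lit 0) (nat_lit 36) (nat_lit 66) (@Lb.g g9 (@Lb.g g10 (@Lb.g g11 (@Lb.r r614 (@Lb.r r1412 (@Lb.r r1307 (@Lb.r r1553 (@Lb.d (nat_lit 324) (nat_lit 97) (nat_lit 128) (@Lb.t (@Lb.fm (nat_lit 9) t3999)))))))))))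
noncomputable def l41583 : Lb := (@Lb.r r81 (@Lb.r r323 (@Lb.d (nat_lit 130) (nat_lit 264) (nat_lit 32) (@Lb.g g8 (@Lb.g g10 (@Lb.r r2661 (@Lb.r r2343 (@Lb.r r1540 (@Lb.d (nat_lit 386) (nat_lit 128) (nat_lit 642) (@Lb.fp (nat_lit 3) t7150))))))))))
noncomputable def l41584 : Lb := (@Lb.r r82 (@Lb.d (nat_lit 134) (nat_lit 512) (nat_lit 128) (@Lb.g g8 (@Lb.g g9 (@Lb.g g11 (@Lb.r r2467 (@Lb.r r386 (@Lb.r r165 (@Lb.r r1176 (@Lb.d (nat_lit 278) (nat_lit 10) (nat_lit 162) (@Lb.t (@Lb.fp (nat_lit 9) t4399))))))))))))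
noncomputable def l41585 : Lb := (@Lb.r r322 (@Lb.d (nat_lit 134) (nat_lit 256) (nat_lit 640) (@Lb.g g8 (@Lb.g g9 (@Lb.g g11 (@Lb.r r1689 (@Lb.r r1178 (@Lb.r r1156 (@Lb.d (nat_lit 676) (nat_lit 81) (nat_lit 162) (@Lb.t (@Lb.fp (nat_lit 9) t1260)))))))))))
noncomputable def l41586 : Lb := (@Lb.d (nat_lit 144) (nat_lit 513) (nat_lit 64) (@Lb.g g8 (@Lb.g g9 (@Lb.g g10 (@Lb.g g11 (@Lb.r r2201 (@Lb.r r596 (@Lb.r r2439 (@Lb.r r1430 (@Lb.r r1540 (@Lb.d (nat_lit 353) (nat_lit 68) (nat_lit 673) (@Lb.fm (nat_lit 9) t69))))))))))))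
noncomputable def l41587 : Lb := (@Lb.r r21 (@Lb.d (nat_lit 33) (nat_lit 0) (nat_lit 72) (@Lb.g g8 (@Lb.g g10 (@Lb.g g11 (@Lb.r r323 (@Lb.r r2392 (@Lb.r r2661 (@Lb.r r658 (@Lb.d (nat_lit 1) (nat_lit 81) (nat_lit 596) (@Lb.t (@Lb.fp (nat_lit 9) t5141))))))))))))
noncomputable def l41588 : Lb := (@Lb.r r20 (@Lb.d (nat_lit 0) (nat_lit 613) (nat_lit 133) (@Lb.g g5 (@Lb.g g10 (@Lb.g g11 (@Lb.r r327 (@Lb.r r358 (@Lb.r r1608 (@Lb.d (nat_lit 22) (nat_lit 137) (nat_lit 68) (@Lb.t (@Lb.fm (nat_lit 9) t5141)))))))))))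
noncomputable def l41589 : Lb := (@Lb.d (nat_lit 1) (nat_lit 258) (nat_lit 66) (@Lb.g g8 (@Lb.g g9 (@Lb.g g10 (@Lb.g g11 (@Lb.r r2410 (@Lb.r r387 (@Lb.r r2457 (@Lb.r r2436 (@Lb.d (nat_lit 616) (nat_lit 9) (nat_lit 356) (@Lb.fp (nat_lit 9) t5955)))))))))))
noncomputable def l41590 : Lb := (@Lb.d (nat_lit 2) (nat_lit 258) (nat_lit 2) (@Lb.g g8 (@Lb.g g9 (@Lb.g g10 (@Lb.r r2585 (@Lb.r r595 (@Lb.r r386 (@Lb.d (nat_lit 289) (nat_lit 10) (nat_lit 648) (@Lb.t (@Lb.fm (nat_lit 9) t791))))))))))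
noncomputable def l41591 : Lb := (@Lb.d (nat_lit 0) (nat_lit 521) (nat_lit 74) (@Lb.r r402 (@Lb.g g11 (@Lb.g g9 (@Lb.g g4 (@Lb.d (nat_lit 0) (nat_lit 10) (nat_lit 0) (@Lb.t (@Lb.fm (nat_lit 9) t1176))))))))
noncomputable def l41592 : Lb := (@Lb.d (nat_lit 134) (nat_lit 256) (nat_lit 130) (@Lb.g g8 (@Lb.g g9 (@Lb.g g10 (@Lb.g g11 (@Lb.r r1415 (@Lb.r r164 (@Lb.r r2438 (@Lb.r r2721 (@Lb.d (nat_lit 361) (nat_lit 149) (nat_lit 150) (@Lb.fp (nat_lit 9) t4153)))))))))))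
noncomputable def l41593 : Lb := (@Lb.r r323 (@Lb.d (nat_lit 1) (nat_lit 514) (nat_lit 0) (@Lb.g g4 (@Lb.g g9 (@Lb.g g10 (@Lb.r r423 (@Lb.r r2438 (@Lb.r r1125 (@Lb.d (nat_lit 512) (nat_lit 88) (nat_lit 553) (@Lb.t (@Lb.fp (nat_lit 9) t3731)))))))))))
noncomputable def l41594 : Lb := (@Lb.d (nat_lit 293) (nat_lit 69) (nat_lit 1) (@Lb.r r101 (@Lb.r r24 (@Lb.r r1414 (@Lb.r r2395 (@Lb.g g7 (@Lb.g g6 (@Lb.g g5 (@Lb.d (nat_lit 4) (nat_lit 1) (nat_lit 64) (@Lb.t (@Lb.fm (nat_lit 9) t208)))))))))))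
noncomputable def l41595 : Lb := (@Lb.d (nat_lit 330) (nat_lit 593) (nat_lit 330) (@Lb.r r1321 (@Lb.r r2178 (@Lb.r r1559 (@Lb.g g5 (@Lb.g g4 (@Lb.d (nat_lit 1) (nat_lit 18) (nat_lit 0) (@Lb.fp (nat_lit 3) t1222))))))))
noncomputable def l41596 : Lb := (@Lb.d (nat_lit 8) (nat_lit 514) (nat_lit 130) (@Lb.g g9 (@Lb.g g10 (@Lb.g g11 (@Lb.r r419 (@Lb.r r98 (@Lb.r r24 (@Lb.r r101 (@Lb.d (nat_lit 21) (nat_lit 80) (nat_lit 421) (@Lb.t (@Lb.fm (nat_lit 9) t1080)))))))))))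
noncomputable def l41597 : Lb := (@Lb.d (nat_lit 41) (nat_lit 256) (nat_lit 128) (@Lb.g g8 (@Lb.g g11 (@Lb.r r358 (@Lb.r r387 (@Lb.r r1317 (@Lb.r r1556 (@Lb.d (nat_lit 390) (nat_lit 98) (nat_lit 105) (@Lb.fp (nat_lit 3) t1558)))))))))
noncomputable def l41598 : Lb := (@Lb.d (nat_lit 0) (nat_lit 34) (nat_lit 1) (@Lb.g g9 (@Lb.g g10 (@Lb.r r1347 (@Lb.r r2386 (@Lb.r r421 (@Lb.r r24 (@Lb.d (nat_lit 257) (nat_lit 0) (nat_lit 329) (@Lb.fm (nat_lit 3) t1097)))))))))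
noncomputable def l41599 : Lb := (@Lb.d (nat_lit 0) (nat_lit 21) (nat_lit 617) (@Lb.g g9 (@Lb.g g6 (@Lb.g g7 (@Lb.r r2401 (@Lb.d (nat_lit 5) (nat_lit 106) (nat_lit 356) (@Lb.t (@Lb.fp (nat_lit 9) t901))))))))
noncomputable def l41600 : Lb := (@Lb.r r322 (@Lb.d (nat_lit 34) (nat_lit 520) (nat_lit 324) (@Lb.g g8 (@Lb.g g9 (@Lb.g g11 (@Lb.r r582 (@Lb.r r2712 (@Lb.r r1685 (@Lb.d (nat_lit 36) (nat_lit 150) (nat_lit 417) (@Lb.t (@Lb.fp (nat_lit 9) t1594)))))))))))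
noncomputable def l41601 : Lb := (@Lb.d (nat_lit 144) (nat_lit 514) (nat_lit 64) (@Lb.g g8 (@Lb.g g9 (@Lb.g g10 (@Lb.g g11 (@Lb.r r427 (@Lb.r r2154 (@Lb.r r296 (@Lb.r r25 (@Lb.d (nat_lit 665) (nat_lit 130) (nat_lit 597) (@Lb.fm (nat_lit 9) t5060)))))))))))
noncomputable def l41602 : Lb := (@Lb.r r322 (@Lb.d (nat_lit 10) (nat_lit 0) (nat_lit 324) (@Lb.g g8 (@Lb.g g11 (@Lb.r r661 (@Lb.r r146 (@Lb.r r1156 (@Lb.d (nat_lit 290) (nat_lit 85) (nat_lit 294) (@Lb.fp (nat_lit 3) t1594)))))))))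
noncomputable def l41603 : Lb := (@Lb.r r323 (@Lb.d (nat_lit 10) (nat_lit 1) (nat_lit 21) (@Lb.g g8 (@Lb.g g9 (@Lb.g g10 (@Lb.r r387 (@Lb.r r1572 (@Lb.r r37 (@Lb.d (nat_lit 582) (nat_lit 96) (nat_lit 585) (@Lb.t (@Lb.fp (nat_lit 9) t1644)))))))))))
noncomputable def l41604 : Lb := (@Lb.r r322 (@Lb.d (nat_lit 10) (nat_lit 512) (nat_lit 576) (@Lb.g g8 (@Lb.g g11 (@Lb.r r661 (@Lb.r r146 (@Lb.r r1156 (@Lb.d (nat_lit 290) (nat_lit 66) (nat_lit 538) (@Lb.fp (nat_lit 3) t4868)))))))))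
noncomputable def l41605 : Lb := (@Lb.d (nat_lit 33) (nat_lit 42) (nat_lit 128) (@Lb.g g4 (@Lb.g g9 (@Lb.g g11 (@Lb.r r1626 (@Lb.r r359 (@Lb.r r1557 (@Lb.d (nat_lit 38) (nat_lit 146) (nat_lit 402) (@Lb.t (@Lb.fp (nat_lit 9) t3722))))))))))
noncomputable def l41606 : Lb := (@Lb.r r21 (@Lb.r r70 (@Lb.r r2311 (@Lb.d (nat_lit 1) (nat_lit 512) (nat_lit 0) (@Lb.g g4 (@Lb.r r101 (@Lb.r r2450 (@Lb.d (nat_lit 145) (nat_lit 0) (nat_lit 85) (@Lb.t (@Lb.fm (nat_lit 3) t2126))))))))))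
noncomputable def l41607 : Lb := (@Lb.d (nat_lit 32) (nat_lit 512) (nat_lit 2) (@Lb.g g9 (@Lb.g g10 (@Lb.r r2579 (@Lb.r r2341 (@Lb.r r1352 (@Lb.r r2710 (@Lb.d (nat_lit 390) (nat_lit 170) (nat_lit 66) (@Lb.fm (nat_lit 3) t3282)))))))))
noncomputable def l41608 : Lb := (@Lb.r r82 (@Lb.d (nat_lit 41) (nat_lit 513) (nat_lit 64) (@Lb.g g8 (@Lb.g g9 (@Lb.g g7 (@Lb.r r2409 (@Lb.r r150 (@Lb.r r100 (@Lb.d (nat_lit 26) (nat_lit 90) (nat_lit 281) (@Lb.t (@Lb.fp (nat_lit 9) t2073)))))))))))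
noncomputable def l41609 : Lb := (@Lb.r r322 (@Lb.d (nat_lit 9) (nat_lit 32) (nat_lit 516) (@Lb.g g8 (@Lb.g g9 (@Lb.g g7 (@Lb.r r418 (@Lb.r r296 (@Lb.r r409 (@Lb.d (nat_lit 150) (nat_lit 164) (nat_lit 521) (@Lb.t (@Lb.fp (nat_lit 9) t1234)))))))))))
noncomputable def l41610 : Lb := (@Lb.d (nat_lit 0) (nat_lit 0) (nat_lit 130) (@Lb.g g10 (@Lb.g g11 (@Lb.r r419 (@Lb.r r386 (@Lb.r r1172 (@Lb.d (nat_lit 292) (nat_lit 100) (nat_lit 16) (@Lb.fp (nat_lit 3) t5979))))))))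
noncomputable def l41611 : Lb := (@Lb.d (nat_lit 0) (nat_lit 0) (nat_lit 130) (@Lb.g g4 (@Lb.g g10 (@Lb.g g11 (@Lb.r r419 (@Lb.r r386 (@Lb.d (nat_lit 293) (nat_lit 41) (nat_lit 33) (@Lb.t (@Lb.fm (nat_lit 9) t4055)))))))))
noncomputable def l41612 : Lb := (@Lb.d (nat_lit 128) (nat_lit 258) (nat_lit 130) (@Lb.g g8 (@Lb.g g9 (@Lb.g g10 (@Lb.g g11 (@Lb.r r419 (@Lb.r r1702 (@Lb.r r344 (@Lb.r r1429 (@Lb.r r1060 (@Lb.d (nat_lit 617) (nat_lit 42) (nat_lit 402) (@Lb.fp (nat_lit 9) t1975))))))))))))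
noncomputable def l41613 : Lb := (@Lb.r r82 (@Lb.d (nat_lit 0) (nat_lit 0) (nat_lit 64) (@Lb.g g9 (@Lb.g g7 (@Lb.r r2722 (@Lb.r r401 (@Lb.d (nat_lit 0) (nat_lit 5) (nat_lit 664) (@Lb.fm (nat_lit 3) t1457))))))))
noncomputable def l41614 : Lb := (@Lb.d (nat_lit 128) (nat_lit 272) (nat_lit 576) (@Lb.g g9 (@Lb.g g7 (@Lb.r r1112 (@Lb.r r2085 (@Lb.d (nat_lit 544) (nat_lit 2) (nat_lit 68) (@Lb.fp (nat_lit 3) t5706)))))))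
noncomputable def l41615 : Lb := (@Lb.d (nat_lit 134) (nat_lit 512) (nat_lit 73) (@Lb.g g8 (@Lb.g g9 (@Lb.g g10 (@Lb.g g11 (@Lb.r r162 (@Lb.r r553 (@Lb.r r619 (@Lb.r r1553 (@Lb.r r2084 (@Lb.d (nat_lit 89) (nat_lit 66) (nat_lit 600) (@Lb.fm (nat_lit 9) t4257))))))))))))
noncomputable def l41616 : Lb := (@Lb.d (nat_lit 0) (nat_lit 528) (nat_lit 138) (@Lb.g g9 (@Lb.g g10 (@Lb.g g11 (@Lb.r r98 (@Lb.r r337 (@Lb.r r2595 (@Lb.r r529 (@Lb.d (nat_lit 0) (nat_lit 153) (nat_lit 154) (@Lb.t (@Lb.fp (nat_lit 9) t406)))))))))))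
noncomputable def l41617 : Lb := (@Lb.r r82 (@Lb.d (nat_lit 0) (nat_lit 258) (nat_lit 64) (@Lb.g g9 (@Lb.g g7 (@Lb.r r386 (@Lb.r r289 (@Lb.d (nat_lit 5) (nat_lit 150) (nat_lit 385) (@Lb.fp (nat_lit 3) t7151))))))))
noncomputable def l41618 : Lb := (@Lb.d (nat_lit 0) (nat_lit 280) (nat_lit 1) (@Lb.g g9 (@Lb.g g10 (@Lb.g g11 (@Lb.r r643 (@Lb.r r1362 (@Lb.r r293 (@Lb.r r24 (@Lb.d (nat_lit 81) (nat_lit 0) (nat_lit 361) (@Lb.t (@Lb.fp (nat_lit 9) t329)))))))))))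
noncomputable def l41619 : Lb := (@Lb.d (nat_lit 642) (nat_lit 2) (nat_lit 66) (@Lb.g g8 (@Lb.g g9 (@Lb.g g10 (@Lb.g g11 (@Lb.r r1451 (@Lb.r r106 (@Lb.r r97 (@Lb.d (nat_lit 386) (nat_lit 90) (nat_lit 137) (@Lb.fm (nat_lit 9) t7152))))))))))
noncomputable def l41620 : Lb := (@Lb.r r20 (@Lb.d (nat_lit 0) (nat_lit 681) (nat_lit 64) (@Lb.g g9 (@Lb.g g11 (@Lb.r r619 (@Lb.r r1608 (@Lb.d (nat_lit 8) (nat_lit 129) (nat_lit 84) (@Lb.fm (nat_lit 3) t7153))))))))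
noncomputable def l41621 : Lb := (@Lb.d (nat_lit 641) (nat_lit 521) (nat_lit 65) (@Lb.g g4 (@Lb.g g9 (@Lb.g g10 (@Lb.g g11 (@Lb.r r2214 (@Lb.r r421 (@Lb.r r2323 (@Lb.r r529 (@Lb.d (nat_lit 404) (nat_lit 2) (nat_lit 346) (@Lb.fm (nat_lit 9) t7154)))))))))))
noncomputable def l41622 : Lb := (@Lb.d (nat_lit 0) (nat_lit 2) (nat_lit 130) (@Lb.g g8 (@Lb.g g9 (@Lb.g g10 (@Lb.g g11 (@Lb.r r427 (@Lb.r r420 (@Lb.r r2469 (@Lb.r r98 (@Lb.d (nat_lit 97) (nat_lit 169) (nat_lit 289) (@Lb.fm (nat_lit 9) t1020)))))))))))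
noncomputable def l41623 : Lb := (@Lb.d (nat_lit 0) (nat_lit 258) (nat_lit 130) (@Lb.g g8 (@Lb.g g9 (@Lb.g g10 (@Lb.g g11 (@Lb.r r427 (@Lb.r r420 (@Lb.r r2469 (@Lb.r r98 (@Lb.d (nat_lit 98) (nat_lit 162) (nat_lit 290) (@Lb.fm (nat_lit 9) t1020)))))))))))
noncomputable def l41624 : Lb := (@Lb.d (nat_lit 642) (nat_lit 8) (nat_lit 2) (@Lb.g g8 (@Lb.g g10 (@Lb.r r1427 (@Lb.r r101 (@Lb.d (nat_lit 74) (nat_lit 162) (nat_lit 642) (@Lb.fp (nat_lit 3) t7155)))))))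
noncomputable def l41625 : Lb := (@Lb.d (nat_lit 1) (nat_lit 522) (nat_lit 72) (@Lb.g g8 (@Lb.g g9 (@Lb.g g10 (@Lb.g g11 (@Lb.r r1698 (@Lb.r r2455 (@Lb.r r1561 (@Lb.r r2628 (@Lb.d (nat_lit 152) (nat_lit 133) (nat_lit 394) (@Lb.fm (nat_lit 9) t5030)))))))))))
noncomputable def l41626 : Lb := (@Lb.d (nat_lit 1) (nat_lit 614) (nat_lit 133) (@Lb.g g8 (@Lb.g g5 (@Lb.g g10 (@Lb.g g11 (@Lb.r r658 (@Lb.r r423 (@Lb.r r2628 (@Lb.d (nat_lit 677) (nat_lit 137) (nat_lit 394) (@Lb.fp (nat_lit 9) t5030))))))))))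
noncomputable def l41627 : Lb := (@Lb.d (nat_lit 0) (nat_lit 258) (nat_lit 66) (@Lb.g g9 (@Lb.g g10 (@Lb.g g11 (@Lb.r r1555 (@Lb.r r417 (@Lb.r r98 (@Lb.d (nat_lit 0) (nat_lit 33) (nat_lit 392) (@Lb.t (@Lb.fm (nat_lit 9) t6970))))))))))
noncomputable def l41628 : Lb := (@Lb.d (nat_lit 2) (nat_lit 33) (nat_lit 66) (@Lb.g g8 (@Lb.g g9 (@Lb.g g10 (@Lb.g g11 (@Lb.r r2729 (@Lb.r r2340 (@Lb.r r1419 (@Lb.r r386 (@Lb.d (nat_lit 641) (nat_lit 10) (nat_lit 613) (@Lb.fp (nat_lit 9) t509)))))))))))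
noncomputable def l41629 : Lb := (@Lb.r r323 (@Lb.d (nat_lit 8) (nat_lit 521) (nat_lit 1) (@Lb.g g9 (@Lb.g g10 (@Lb.r r2648 (@Lb.r r2395 (@Lb.r r610 (@Lb.r r1637 (@Lb.d (nat_lit 144) (nat_lit 20) (nat_lit 512) (@Lb.fm (nat_lit 3) t5945))))))))))
noncomputable def l41630 : Lb := (@Lb.d (nat_lit 0) (nat_lit 9) (nat_lit 72) (@Lb.g g9 (@Lb.g g10 (@Lb.g g11 (@Lb.r r2705 (@Lb.r r1434 (@Lb.r r2692 (@Lb.r r2439 (@Lb.d (nat_lit 609) (nat_lit 165) (nat_lit 68) (@Lb.t (@Lb.fp (nat_lit 9) t5292)))))))))))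
noncomputable def l41631 : Lb := (@Lb.d (nat_lit 0) (nat_lit 265) (nat_lit 73) (@Lb.g g4 (@Lb.g g9 (@Lb.g g10 (@Lb.g g11 (@Lb.r r2723 (@Lb.r r1190 (@Lb.r r2657 (@Lb.d (nat_lit 298) (nat_lit 66) (nat_lit 278) (@Lb.fp (nat_lit 9) t7156))))))))))
noncomputable def l41632 : Lb := (@Lb.d (nat_lit 2) (nat_lit 2) (nat_lit 0) (@Lb.g g8 (@Lb.g g9 (@Lb.r r1641 (@Lb.r r1636 (@Lb.r r2378 (@Lb.r r2439 (@Lb.d (nat_lit 353) (nat_lit 10) (nat_lit 337) (@Lb.fp (nat_lit 3) t939)))))))))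
noncomputable def l41633 : Lb := (@Lb.d (nat_lit 2) (nat_lit 514) (nat_lit 0) (@Lb.g g8 (@Lb.g g9 (@Lb.r r1641 (@Lb.r r1636 (@Lb.r r2378 (@Lb.r r2439 (@Lb.d (nat_lit 353) (nat_lit 0) (nat_lit 338) (@Lb.fp (nat_lit 3) t939)))))))))
noncomputable def l41634 : Lb := (@Lb.d (nat_lit 0) (nat_lit 641) (nat_lit 72) (@Lb.g g9 (@Lb.g g11 (@Lb.r r2406 (@Lb.r r2692 (@Lb.r r2439 (@Lb.d (nat_lit 610) (nat_lit 89) (nat_lit 665) (@Lb.fm (nat_lit 3) t918))))))))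
noncomputable def l41635 : Lb := (@Lb.r r82 (@Lb.d (nat_lit 33) (nat_lit 97) (nat_lit 64) (@Lb.g g8 (@Lb.g g5 (@Lb.g g11 (@Lb.r r1683 (@Lb.r r102 (@Lb.r r2708 (@Lb.d (nat_lit 425) (nat_lit 69) (nat_lit 661) (@Lb.t (@Lb.fm (nat_lit 9) t2956)))))))))))
noncomputable def l41636 : Lb := (@Lb.d (nat_lit 81) (nat_lit 0) (nat_lit 550) (@Lb.r r1048 (@Lb.r r410 (@Lb.r r597 (@Lb.g g11 (@Lb.g g6 (@Lb.g g5 (@Lb.d (nat_lit 0) (nat_lit 9) (nat_lit 389) (@Lb.r r516 (@Lb.t (@Lb.fm (nat_lit 9) t211)))))))))))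
noncomputable def l41637 : Lb := (@Lb.g g4 (@Lb.r r134 (@Lb.r r328 (@Lb.r r535 (@Lb.r r289 (@Lb.d (nat_lit 0) (nat_lit 5) (nat_lit 129) (@Lb.t (@Lb.fm (nat_lit 3) t119))))))))
noncomputable def l41638 : Lb := (@Lb.d (nat_lit 2) (nat_lit 289) (nat_lit 132) (@Lb.g g8 (@Lb.g g9 (@Lb.g g10 (@Lb.g g11 (@Lb.r r1186 (@Lb.r r660 (@Lb.r r425 (@Lb.r r1303 (@Lb.r r1572 (@Lb.d (nat_lit 514) (nat_lit 10) (nat_lit 361) (@Lb.fp (nat_lit 9) t4))))))))))))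
noncomputable def l41639 : Lb := (@Lb.d (nat_lit 8) (nat_lit 10) (nat_lit 0) (@Lb.g g9 (@Lb.r r152 (@Lb.r r2714 (@Lb.r r1703 (@Lb.r r2709 (@Lb.d (nat_lit 26) (nat_lit 170) (nat_lit 134) (@Lb.t (@Lb.fm (nat_lit 3) t6670)))))))))
noncomputable def l41640 : Lb := (@Lb.d (nat_lit 4) (nat_lit 264) (nat_lit 74) (@Lb.g g8 (@Lb.g g10 (@Lb.g g11 (@Lb.r r2723 (@Lb.r r2129 (@Lb.r r418 (@Lb.d (nat_lit 402) (nat_lit 72) (nat_lit 82) (@Lb.t (@Lb.fm (nat_lit 9) t2044))))))))))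
noncomputable def l41641 : Lb := (@Lb.d (nat_lit 10) (nat_lit 421) (nat_lit 64) (@Lb.r r2657 (@Lb.g g7 (@Lb.g g10 (@Lb.g g5 (@Lb.d (nat_lit 0) (nat_lit 1) (nat_lit 164) (@Lb.t (@Lb.fp (nat_lit 9) t51))))))))
noncomputable def l41642 : Lb := (@Lb.d (nat_lit 97) (nat_lit 514) (nat_lit 73) (@Lb.g g8 (@Lb.g g9 (@Lb.g g10 (@Lb.g g11 (@Lb.r r2691 (@Lb.r r1193 (@Lb.r r1642 (@Lb.r r2084 (@Lb.d (nat_lit 394) (nat_lit 68) (nat_lit 68) (@Lb.fp (nat_lit 9) t2528)))))))))))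
noncomputable def l41643 : Lb := (@Lb.d (nat_lit 104) (nat_lit 601) (nat_lit 657) (@Lb.r r1433 (@Lb.r r410 (@Lb.r r152 (@Lb.g g11 (@Lb.g g5 (@Lb.d (nat_lit 68) (nat_lit 5) (nat_lit 512) (@Lb.fp (nat_lit 3) t322))))))))
noncomputable def l41644 : Lb := (@Lb.r r580 (@Lb.r r593 (@Lb.d (nat_lit 16) (nat_lit 256) (nat_lit 281) (@Lb.g g10 (@Lb.g g7 (@Lb.r r1304 (@Lb.r r2085 (@Lb.d (nat_lit 2) (nat_lit 106) (nat_lit 161) (@Lb.fp (nat_lit 3) t3404)))))))))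
noncomputable def l41645 : Lb := (@Lb.r r326 (@Lb.d (nat_lit 386) (nat_lit 258) (nat_lit 128) (@Lb.g g8 (@Lb.g g9 (@Lb.g g11 (@Lb.r r291 (@Lb.r r586 (@Lb.r r25 (@Lb.d (nat_lit 586) (nat_lit 40) (nat_lit 386) (@Lb.t (@Lb.fm (nat_lit 9) t898)))))))))))
noncomputable def l41646 : Lb := (@Lb.d (nat_lit 2) (nat_lit 514) (nat_lit 130) (@Lb.g g8 (@Lb.g g9 (@Lb.g g10 (@Lb.g g11 (@Lb.r r427 (@Lb.r r420 (@Lb.r r102 (@Lb.r r21 (@Lb.r r36 (@Lb.d (nat_lit 386) (nat_lit 85) (nat_lit 545) (@Lb.fp (nat_lit 9) t5711))))))))))))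
noncomputable def l41647 : Lb := (@Lb.d (nat_lit 32) (nat_lit 512) (nat_lit 128) (@Lb.g g10 (@Lb.g g11 (@Lb.r r324 (@Lb.r r411 (@Lb.r r2410 (@Lb.r r1057 (@Lb.d (nat_lit 296) (nat_lit 145) (nat_lit 149) (@Lb.fp (nat_lit 3) t7157)))))))))
noncomputable def l41648 : Lb := (@Lb.r r331 (@Lb.d (nat_lit 32) (nat_lit 33) (nat_lit 2) (@Lb.g g8 (@Lb.g g9 (@Lb.g g10 (@Lb.r r2579 (@Lb.r r2626 (@Lb.r r2468 (@Lb.d (nat_lit 168) (nat_lit 165) (nat_lit 32) (@Lb.t (@Lb.fp (nat_lit 9) t5311)))))))))))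
noncomputable def l41649 : Lb := (@Lb.d (nat_lit 32) (nat_lit 256) (nat_lit 128) (@Lb.g g10 (@Lb.g g11 (@Lb.r r324 (@Lb.r r411 (@Lb.r r2410 (@Lb.r r1057 (@Lb.d (nat_lit 297) (nat_lit 145) (nat_lit 149) (@Lb.fp (nat_lit 3) t7157)))))))))
noncomputable def l41650 : Lb := (@Lb.r r21 (@Lb.d (nat_lit 2) (nat_lit 256) (nat_lit 130) (@Lb.g g8 (@Lb.g g10 (@Lb.g g11 (@Lb.r r1683 (@Lb.r r2184 (@Lb.r r1610 (@Lb.r r97 (@Lb.d (nat_lit 409) (nat_lit 129) (nat_lit 85) (@Lb.t (@Lb.fp (nat_lit 9) t4512))))))))))))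
noncomputable def l41651 : Lb := (@Lb.d (nat_lit 0) (nat_lit 0) (nat_lit 128) (@Lb.g g11 (@Lb.r r277 (@Lb.r r2467 (@Lb.r r1414 (@Lb.r r1124 (@Lb.d (nat_lit 257) (nat_lit 17) (nat_lit 336) (@Lb.t (@Lb.fm (nat_lit 3) t2102)))))))))
noncomputable def l41652 : Lb := (@Lb.d (nat_lit 578) (nat_lit 261) (nat_lit 321) (@Lb.r r322 (@Lb.r r2579 (@Lb.r r2325 (@Lb.g g5 (@Lb.g g4 (@Lb.d (nat_lit 1) (nat_lit 1) (nat_lit 0) (@Lb.r r98 (@Lb.fp (nat_lit 3) t4243)))))))))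
noncomputable def l41653 : Lb := (@Lb.d (nat_lit 38) (nat_lit 514) (nat_lit 66) (@Lb.g g8 (@Lb.g g9 (@Lb.g g10 (@Lb.g g11 (@Lb.r r2731 (@Lb.r r1642 (@Lb.r r552 (@Lb.r r1065 (@Lb.r r36 (@Lb.d (nat_lit 341) (nat_lit 168) (nat_lit 129) (@Lb.fm (nat_lit 9) t412))))))))))))
noncomputable def l41654 : Lb := (@Lb.d (nat_lit 2) (nat_lit 518) (nat_lit 64) (@Lb.g g8 (@Lb.g g9 (@Lb.g g10 (@Lb.g g7 (@Lb.r r386 (@Lb.r r105 (@Lb.r r2120 (@Lb.d (nat_lit 548) (nat_lit 65) (nat_lit 9) (@Lb.fp (nat_lit 9) t3142))))))))))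
noncomputable def l41655 : Lb := (@Lb.d (nat_lit 2) (nat_lit 260) (nat_lit 64) (@Lb.g g8 (@Lb.g g9 (@Lb.g g10 (@Lb.g g7 (@Lb.r r386 (@Lb.r r104 (@Lb.r r25 (@Lb.d (nat_lit 522) (nat_lit 9) (nat_lit 25) (@Lb.fm (nat_lit 9) t963))))))))))
noncomputable def l41656 : Lb := (@Lb.d (nat_lit 530) (nat_lit 5) (nat_lit 153) (@Lb.r r386 (@Lb.r r2579 (@Lb.r r2389 (@Lb.g g7 (@Lb.g g6 (@Lb.g g5 (@Lb.g g4 (@Lb.d (nat_lit 1) (nat_lit 1) (nat_lit 1) (@Lb.fp (nat_lit 9) t7158))))))))))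
noncomputable def l41657 : Lb := (@Lb.d (nat_lit 10) (nat_lit 512) (nat_lit 0) (@Lb.g g8 (@Lb.g g10 (@Lb.r r579 (@Lb.r r402 (@Lb.r r149 (@Lb.r r168 (@Lb.d (nat_lit 34) (nat_lit 5) (nat_lit 128) (@Lb.fp (nat_lit 3) t145)))))))))
noncomputable def l41658 : Lb := (@Lb.d (nat_lit 0) (nat_lit 129) (nat_lit 274) (@Lb.r r2209 (@Lb.r r386 (@Lb.r r263 (@Lb.r r2648 (@Lb.g g9 (@Lb.g g4 (@Lb.r r267 (@Lb.r r98 (@Lb.fm (nat_lit 3) t7159))))))))))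
noncomputable def l41659 : Lb := (@Lb.r r82 (@Lb.d (nat_lit 33) (nat_lit 545) (nat_lit 128) (@Lb.g g8 (@Lb.g g9 (@Lb.g g11 (@Lb.r r2665 (@Lb.r r150 (@Lb.r r616 (@Lb.r r587 (@Lb.d (nat_lit 545) (nat_lit 41) (nat_lit 265) (@Lb.t (@Lb.fm (nat_lit 9) t98))))))))))))
noncomputable def l41660 : Lb := (@Lb.d (nat_lit 2) (nat_lit 512) (nat_lit 0) (@Lb.g g8 (@Lb.g g9 (@Lb.d (nat_lit 0) (nat_lit 10) (nat_lit 66) (@Lb.fm (nat_lit 3) t21)))))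
noncomputable def l41661 : Lb := (@Lb.r r70 (@Lb.d (nat_lit 133) (nat_lit 0) (nat_lit 128) (@Lb.g g8 (@Lb.g g9 (@Lb.g g11 (@Lb.r r2470 (@Lb.r r1561 (@Lb.r r2708 (@Lb.r r519 (@Lb.d (nat_lit 128) (nat_lit 165) (nat_lit 89) (@Lb.t (@Lb.fm (nat_lit 9) t7160))))))))))))
noncomputable def l41662 : Lb := (@Lb.d (nat_lit 0) (nat_lit 514) (nat_lit 73) (@Lb.g g9 (@Lb.g g10 (@Lb.g g11 (@Lb.r r323 (@Lb.r r616 (@Lb.r r662 (@Lb.r r25 (@Lb.d (nat_lit 106) (nat_lit 9) (nat_lit 72) (@Lb.t (@Lb.fm (nat_lit 9) t670)))))))))))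
noncomputable def l41663 : Lb := (@Lb.r r21 (@Lb.d (nat_lit 154) (nat_lit 512) (nat_lit 0) (@Lb.g g8 (@Lb.g g10 (@Lb.r r295 (@Lb.r r1617 (@Lb.r r678 (@Lb.r r2648 (@Lb.d (nat_lit 617) (nat_lit 166) (nat_lit 357) (@Lb.fm (nat_lit 3) t7161))))))))))
noncomputable def l41664 : Lb := (@Lb.r r21 (@Lb.d (nat_lit 129) (nat_lit 512) (nat_lit 130) (@Lb.g g8 (@Lb.g g10 (@Lb.g g11 (@Lb.r r2379 (@Lb.r r386 (@Lb.r r2389 (@Lb.r r1672 (@Lb.d (nat_lit 674) (nat_lit 0) (nat_lit 74) (@Lb.t (@Lb.fm (nat_lit 9) t7162))))))))))))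
noncomputable def l41665 : Lb := (@Lb.r r326 (@Lb.d (nat_lit 33) (nat_lit 2) (nat_lit 576) (@Lb.g g8 (@Lb.g g9 (@Lb.g g7 (@Lb.r r1129 (@Lb.r r2454 (@Lb.r r596 (@Lb.d (nat_lit 150) (nat_lit 129) (nat_lit 132) (@Lb.t (@Lb.fp (nat_lit 9) t2175)))))))))))
noncomputable def l41666 : Lb := (@Lb.d (nat_lit 662) (nat_lit 81) (nat_lit 33) (@Lb.r r21 (@Lb.r r331 (@Lb.r r2630 (@Lb.g g7 (@Lb.g g4 (@Lb.d (nat_lit 329) (nat_lit 0) (nat_lit 64) (@Lb.r r25 (@Lb.fm (nat_lit 3) t1403)))))))))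
noncomputable def l41667 : Lb := (@Lb.d (nat_lit 512) (nat_lit 512) (nat_lit 128) (@Lb.r r1291 (@Lb.g g6 (@Lb.g g8 (@Lb.fp (nat_lit 3) t997)))))
noncomputable def l41668 : Lb := (@Lb.g g7 (@Lb.r r402 (@Lb.r r2145 (@Lb.r r36 (@Lb.d (nat_lit 5) (nat_lit 128) (nat_lit 512) (@Lb.t (@Lb.fm (nat_lit 3) t940)))))))
noncomputable def l41669 : Lb := (@Lb.d (nat_lit 256) (nat_lit 2) (nat_lit 0) (@Lb.r r263 (@Lb.g g8 (@Lb.d (nat_lit 521) (nat_lit 0) (nat_lit 0) (@Lb.r r267 (@Lb.t (@Lb.fp (nat_lit 3) t7163)))))))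
noncomputable def l41670 : Lb := (@Lb.d (nat_lit 593) (nat_lit 420) (nat_lit 345) (@Lb.r r2408 (@Lb.r r89 (@Lb.r r2406 (@Lb.g g7 (@Lb.g g6 (@Lb.g g4 (@Lb.d (nat_lit 4) (nat_lit 0) (nat_lit 646) (@Lb.r r529 (@Lb.t (@Lb.fm (nat_lit 9) t1445)))))))))))
noncomputable def l41671 : Lb := (@Lb.d (nat_lit 640) (nat_lit 2) (nat_lit 66) (@Lb.g g4 (@Lb.g g9 (@Lb.g g10 (@Lb.g g11 (@Lb.r r2214 (@Lb.r r549 (@Lb.r r615 (@Lb.r r1553 (@Lb.d (nat_lit 164) (nat_lit 5) (nat_lit 328) (@Lb.fp (nat_lit 9) t7164)))))))))))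
noncomputable def l41672 : Lb := (@Lb.d (nat_lit 21) (nat_lit 20) (nat_lit 665) (@Lb.r r2408 (@Lb.r r89 (@Lb.r r2390 (@Lb.g g7 (@Lb.g g6 (@Lb.g g4 (@Lb.d (nat_lit 4) (nat_lit 16) (nat_lit 577) (@Lb.r r529 (@Lb.t (@Lb.fm (nat_lit 9) t1446)))))))))))
noncomputable def l41673 : Lb := (@Lb.r r82 (@Lb.d (nat_lit 129) (nat_lit 17) (nat_lit 128) (@Lb.g g8 (@Lb.g g9 (@Lb.g g11 (@Lb.r r2587 (@Lb.r r1362 (@Lb.r r2593 (@Lb.r r292 (@Lb.d (nat_lit 645) (nat_lit 129) (nat_lit 64) (@Lb.t (@Lb.fm (nat_lit 9) t7165))))))))))))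
noncomputable def l41674 : Lb := (@Lb.r r21 (@Lb.d (nat_lit 144) (nat_lit 0) (nat_lit 128) (@Lb.g g8 (@Lb.g g10 (@Lb.g g11 (@Lb.r r2706 (@Lb.r r2455 (@Lb.r r97 (@Lb.r r2584 (@Lb.d (nat_lit 586) (nat_lit 98) (nat_lit 384) (@Lb.t (@Lb.fp (nat_lit 9) t3204))))))))))))
noncomputable def l41675 : Lb := (@Lb.d (nat_lit 154) (nat_lit 257) (nat_lit 128) (@Lb.g g8 (@Lb.g g9 (@Lb.g g10 (@Lb.g g11 (@Lb.r r2722 (@Lb.r r2439 (@Lb.r r145 (@Lb.r r2632 (@Lb.d (nat_lit 610) (nat_lit 133) (nat_lit 424) (@Lb.fp (nat_lit 9) t3204)))))))))))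
noncomputable def l41676 : Lb := (@Lb.r r21 (@Lb.d (nat_lit 81) (nat_lit 0) (nat_lit 512) (@Lb.g g8 (@Lb.g g10 (@Lb.g g11 (@Lb.r r2698 (@Lb.r r409 (@Lb.r r388 (@Lb.d (nat_lit 610) (nat_lit 0) (nat_lit 138) (@Lb.t (@Lb.fp (nat_lit 9) t491)))))))))))
noncomputable def l41677 : Lb := (@Lb.d (nat_lit 154) (nat_lit 1) (nat_lit 128) (@Lb.g g8 (@Lb.g g9 (@Lb.g g10 (@Lb.g g11 (@Lb.r r1666 (@Lb.r r1431 (@Lb.r r97 (@Lb.r r536 (@Lb.d (nat_lit 105) (nat_lit 41) (nat_lit 129) (@Lb.fm (nat_lit 9) t1173)))))))))))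
noncomputable def l41678 : Lb := (@Lb.d (nat_lit 0) (nat_lit 256) (nat_lit 73) (@Lb.g g10 (@Lb.g g11 (@Lb.r r642 (@Lb.r r1683 (@Lb.r r1602 (@Lb.d (nat_lit 0) (nat_lit 17) (nat_lit 548) (@Lb.fm (nat_lit 3) t349))))))))
noncomputable def l41679 : Lb := (@Lb.d (nat_lit 160) (nat_lit 264) (nat_lit 130) (@Lb.g g10 (@Lb.g g11 (@Lb.r r2712 (@Lb.r r2645 (@Lb.r r599 (@Lb.r r1370 (@Lb.d (nat_lit 298) (nat_lit 146) (nat_lit 37) (@Lb.fm (nat_lit 3) t716)))))))))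
noncomputable def l41680 : Lb := (@Lb.r r20 (@Lb.r r82 (@Lb.d (nat_lit 128) (nat_lit 644) (nat_lit 64) (@Lb.g g5 (@Lb.g g11 (@Lb.r r1174 (@Lb.r r280 (@Lb.r r615 (@Lb.d (nat_lit 149) (nat_lit 154) (nat_lit 74) (@Lb.fm (nat_lit 3) t68))))))))))
noncomputable def l41681 : Lb := (@Lb.r r402 (@Lb.r r2145 (@Lb.r r36 (@Lb.d (nat_lit 0) (nat_lit 386) (nat_lit 512) (@Lb.fp (nat_lit 1) t940)))))
noncomputable def l41682 : Lb := (@Lb.d (nat_lit 2) (nat_lit 512) (nat_lit 104) (@Lb.g g8 (@Lb.g g6 (@Lb.g g11 (@Lb.d (nat_lit 0) (nat_lit 0) (nat_lit 128) (@Lb.t (@Lb.fp (nat_lit 9) t2)))))))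
noncomputable def l41683 : Lb := (@Lb.d (nat_lit 2) (nat_lit 514) (nat_lit 130) (@Lb.g g8 (@Lb.g g9 (@Lb.g g10 (@Lb.g g11 (@Lb.r r2666 (@Lb.r r579 (@Lb.r r97 (@Lb.r r24 (@Lb.d (nat_lit 586) (nat_lit 4) (nat_lit 536) (@Lb.fm (nat_lit 9) t263)))))))))))
noncomputable def l41684 : Lb := (@Lb.r r326 (@Lb.d (nat_lit 281) (nat_lit 544) (nat_lit 132) (@Lb.g g8 (@Lb.g g11 (@Lb.r r2626 (@Lb.d (nat_lit 0) (nat_lit 90) (nat_lit 618) (@Lb.fm (nat_lit 3) t5870)))))))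
noncomputable def l41685 : Lb := (@Lb.d (nat_lit 0) (nat_lit 256) (nat_lit 104) (@Lb.g g6 (@Lb.g g11 (@Lb.d (nat_lit 2) (nat_lit 0) (nat_lit 128) (@Lb.fp (nat_lit 3) t2)))))
noncomputable def l41686 : Lb := (@Lb.d (nat_lit 129) (nat_lit 2) (nat_lit 130) (@Lb.g g8 (@Lb.g g9 (@Lb.g g10 (@Lb.g g11 (@Lb.r r2666 (@Lb.r r2664 (@Lb.r r299 (@Lb.r r25 (@Lb.d (nat_lit 9) (nat_lit 102) (nat_lit 616) (@Lb.fm (nat_lit 9) t7166)))))))))))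
noncomputable def l41687 : Lb := (@Lb.d (nat_lit 640) (nat_lit 2) (nat_lit 130) (@Lb.g g4 (@Lb.g g9 (@Lb.g g10 (@Lb.g g11 (@Lb.r r2214 (@Lb.r r549 (@Lb.r r1635 (@Lb.r r529 (@Lb.d (nat_lit 328) (nat_lit 74) (nat_lit 585) (@Lb.fp (nat_lit 9) t3455)))))))))))
noncomputable def l41688 : Lb := (@Lb.d (nat_lit 128) (nat_lit 2) (nat_lit 644) (@Lb.g g9 (@Lb.g g11 (@Lb.r r2178 (@Lb.r r1553 (@Lb.r r1416 (@Lb.d (nat_lit 146) (nat_lit 166) (nat_lit 24) (@Lb.fm (nat_lit 3) t1063))))))))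
noncomputable def l41689 : Lb := (@Lb.d (nat_lit 0) (nat_lit 2) (nat_lit 130) (@Lb.g g9 (@Lb.g g10 (@Lb.g g11 (@Lb.r r2218 (@Lb.r r520 (@Lb.r r1627 (@Lb.r r405 (@Lb.r r2084 (@Lb.d (nat_lit 405) (nat_lit 130) (nat_lit 346) (@Lb.t (@Lb.fp (nat_lit 9) t7167))))))))))))
noncomputable def l41690 : Lb := (@Lb.d (nat_lit 33) (nat_lit 260) (nat_lit 130) (@Lb.g g8 (@Lb.g g9 (@Lb.g g6 (@Lb.g g11 (@Lb.r r1643 (@Lb.r r97 (@Lb.r r1560 (@Lb.d (nat_lit 73) (nat_lit 98) (nat_lit 641) (@Lb.fp (nat_lit 9) t3429))))))))))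
noncomputable def l41691 : Lb := (@Lb.d (nat_lit 36) (nat_lit 326) (nat_lit 277) (@Lb.r r1432 (@Lb.r r2337 (@Lb.r r2410 (@Lb.g g11 (@Lb.g g5 (@Lb.g g4 (@Lb.d (nat_lit 17) (nat_lit 1) (nat_lit 320) (@Lb.r r578 (@Lb.t (@Lb.fm (nat_lit 9) t7168)))))))))))
noncomputable def l41692 : Lb := (@Lb.d (nat_lit 2) (nat_lit 0) (nat_lit 138) (@Lb.g g8 (@Lb.g g10 (@Lb.g g7 (@Lb.r r1418 (@Lb.r r153 (@Lb.r r1156 (@Lb.d (nat_lit 17) (nat_lit 0) (nat_lit 529) (@Lb.t (@Lb.fm (nat_lit 9) t145))))))))))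
noncomputable def l41693 : Lb := (@Lb.d (nat_lit 4) (nat_lit 0) (nat_lit 138) (@Lb.g g8 (@Lb.g g9 (@Lb.g g10 (@Lb.g g7 (@Lb.r r426 (@Lb.r r145 (@Lb.r r36 (@Lb.d (nat_lit 297) (nat_lit 2) (nat_lit 514) (@Lb.fp (nat_lit 9) t145))))))))))
noncomputable def l41694 : Lb := (@Lb.d (nat_lit 4) (nat_lit 256) (nat_lit 2) (@Lb.g g8 (@Lb.g g9 (@Lb.g g10 (@Lb.r r170 (@Lb.r r145 (@Lb.r r36 (@Lb.d (nat_lit 361) (nat_lit 2) (nat_lit 514) (@Lb.t (@Lb.fp (nat_lit 9) t145))))))))))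
noncomputable def l41695 : Lb := (@Lb.r r322 (@Lb.d (nat_lit 32) (nat_lit 514) (nat_lit 576) (@Lb.g g8 (@Lb.g g9 (@Lb.g g7 (@Lb.r r582 (@Lb.r r97 (@Lb.r r1672 (@Lb.d (nat_lit 594) (nat_lit 22) (nat_lit 612) (@Lb.t (@Lb.fp (nat_lit 9) t242)))))))))))
noncomputable def l41696 : Lb := (@Lb.d (nat_lit 144) (nat_lit 514) (nat_lit 64) (@Lb.g g8 (@Lb.g g9 (@Lb.g g10 (@Lb.g g11 (@Lb.r r387 (@Lb.r r1177 (@Lb.r r2450 (@Lb.r r2632 (@Lb.d (nat_lit 353) (nat_lit 5) (nat_lit 408) (@Lb.fp (nat_lit 9) t744)))))))))))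
noncomputable def l41697 : Lb := (@Lb.d (nat_lit 2) (nat_lit 514) (nat_lit 136) (@Lb.g g8 (@Lb.g g9 (@Lb.g g10 (@Lb.g g11 (@Lb.r r1347 (@Lb.r r297 (@Lb.r r680 (@Lb.r r650 (@Lb.r r1156 (@Lb.d (nat_lit 330) (nat_lit 9) (nat_lit 329) (@Lb.fm (nat_lit 9) t1412))))))))))))
noncomputable def l41698 : Lb := (@Lb.r r347 (@Lb.d (nat_lit 2) (nat_lit 2) (nat_lit 8) (@Lb.g g8 (@Lb.g g9 (@Lb.g g10 (@Lb.r r1449 (@Lb.r r535 (@Lb.r r356 (@Lb.r r2634 (@Lb.d (nat_lit 81) (nat_lit 74) (nat_lit 257) (@Lb.t (@Lb.fm (nat_lit 9) t283))))))))))))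
noncomputable def l41699 : Lb := (@Lb.g g4 (@Lb.g g7 (@Lb.r r2311 (@Lb.d (nat_lit 257) (nat_lit 256) (nat_lit 133) (@Lb.fm (nat_lit 3) t973)))))
noncomputable def l41700 : Lb := (@Lb.d (nat_lit 257) (nat_lit 322) (nat_lit 37) (@Lb.r r1637 (@Lb.r r2328 (@Lb.r r386 (@Lb.g g11 (@Lb.g g6 (@Lb.g g5 (@Lb.d (nat_lit 128) (nat_lit 24) (nat_lit 384) (@Lb.t (@Lb.fp (nat_lit 9) t3753))))))))))
noncomputable def l41701 : Lb := (@Lb.r r323 (@Lb.d (nat_lit 2) (nat_lit 258) (nat_lit 2) (@Lb.g g8 (@Lb.g g9 (@Lb.g g10 (@Lb.r r2475 (@Lb.r r2154 (@Lb.r r25 (@Lb.d (nat_lit 9) (nat_lit 73) (nat_lit 34) (@Lb.t (@Lb.fm (nat_lit 9) t51)))))))))))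
noncomputable def l41702 : Lb := (@Lb.r r322 (@Lb.d (nat_lit 34) (nat_lit 258) (nat_lit 576) (@Lb.g g8 (@Lb.g g9 (@Lb.g g7 (@Lb.r r361 (@Lb.r r150 (@Lb.r r84 (@Lb.d (nat_lit 20) (nat_lit 150) (nat_lit 521) (@Lb.t (@Lb.fp (nat_lit 9) t668)))))))))))
noncomputable def l41703 : Lb := (@Lb.d (nat_lit 5) (nat_lit 512) (nat_lit 136) (@Lb.g g4 (@Lb.g g11 (@Lb.r r101 (@Lb.d (nat_lit 1) (nat_lit 4) (nat_lit 136) (@Lb.fm (nat_lit 3) t87))))))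
noncomputable def l41704 : Lb := (@Lb.d (nat_lit 2) (nat_lit 514) (nat_lit 136) (@Lb.g g8 (@Lb.g g9 (@Lb.g g10 (@Lb.g g11 (@Lb.r r1347 (@Lb.r r536 (@Lb.r r1621 (@Lb.r r2730 (@Lb.r r164 (@Lb.d (nat_lit 354) (nat_lit 5) (nat_lit 330) (@Lb.fp (nat_lit 9) t1087))))))))))))
noncomputable def l41705 : Lb := (@Lb.d (nat_lit 10) (nat_lit 512) (nat_lit 0) (@Lb.g g8 (@Lb.r r421 (@Lb.r r2470 (@Lb.r r2395 (@Lb.r r1112 (@Lb.d (nat_lit 41) (nat_lit 4) (nat_lit 594) (@Lb.t (@Lb.fm (nat_lit 3) t1639)))))))))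
noncomputable def l41706 : Lb := (@Lb.d (nat_lit 2) (nat_lit 512) (nat_lit 136) (@Lb.g g8 (@Lb.g g11 (@Lb.d (nat_lit 608) (nat_lit 0) (nat_lit 665) (@Lb.fm (nat_lit 3) t698)))))
noncomputable def l41707 : Lb := (@Lb.r r580 (@Lb.r r593 (@Lb.d (nat_lit 16) (nat_lit 256) (nat_lit 148) (@Lb.g g6 (@Lb.g g11 (@Lb.r r1641 (@Lb.r r1703 (@Lb.r r2632 (@Lb.d (nat_lit 5) (nat_lit 160) (nat_lit 385) (@Lb.fm (nat_lit 3) t125))))))))))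
noncomputable def l41708 : Lb := (@Lb.d (nat_lit 2) (nat_lit 514) (nat_lit 73) (@Lb.g g8 (@Lb.g g9 (@Lb.g g10 (@Lb.g g11 (@Lb.r r619 (@Lb.r r1610 (@Lb.r r2712 (@Lb.r r1445 (@Lb.d (nat_lit 548) (nat_lit 162) (nat_lit 617) (@Lb.fm (nat_lit 9) t559)))))))))))
noncomputable def l41709 : Lb := (@Lb.r r70 (@Lb.d (nat_lit 129) (nat_lit 258) (nat_lit 64) (@Lb.g g8 (@Lb.g g9 (@Lb.g g11 (@Lb.r r2152 (@Lb.r r1190 (@Lb.r r1425 (@Lb.r r2339 (@Lb.d (nat_lit 0) (nat_lit 17) (nat_lit 65) (@Lb.t (@Lb.fm (nat_lit 9) t1505))))))))))))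
noncomputable def l41710 : Lb := (@Lb.r r323 (@Lb.d (nat_lit 0) (nat_lit 2) (nat_lit 2) (@Lb.g g8 (@Lb.g g9 (@Lb.g g10 (@Lb.r r150 (@Lb.r r356 (@Lb.r r1323 (@Lb.r r1313 (@Lb.d (nat_lit 10) (nat_lit 65) (nat_lit 586) (@Lb.t (@Lb.fm (nat_lit 9) t697))))))))))))
noncomputable def l41711 : Lb := (@Lb.r r323 (@Lb.d (nat_lit 130) (nat_lit 514) (nat_lit 2) (@Lb.g g8 (@Lb.g g9 (@Lb.g g10 (@Lb.r r599 (@Lb.r r98 (@Lb.r r97 (@Lb.r r408 (@Lb.d (nat_lit 149) (nat_lit 100) (nat_lit 324) (@Lb.t (@Lb.fp (nat_lit 9) t119))))))))))))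
noncomputable def l41712 : Lb := (@Lb.r r21 (@Lb.d (nat_lit 129) (nat_lit 0) (nat_lit 130) (@Lb.g g8 (@Lb.g g10 (@Lb.g g11 (@Lb.r r419 (@Lb.r r1172 (@Lb.r r2438 (@Lb.r r97 (@Lb.d (nat_lit 354) (nat_lit 34) (nat_lit 74) (@Lb.t (@Lb.fm (nat_lit 9) t3815))))))))))))
noncomputable def l41713 : Lb := (@Lb.d (nat_lit 36) (nat_lit 258) (nat_lit 128) (@Lb.g g8 (@Lb.g g9 (@Lb.g g11 (@Lb.r r86 (@Lb.r r401 (@Lb.r r1323 (@Lb.r r1316 (@Lb.d (nat_lit 409) (nat_lit 170) (nat_lit 145) (@Lb.t (@Lb.fm (nat_lit 9) t2014)))))))))))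
noncomputable def l41714 : Lb := (@Lb.r r21 (@Lb.r r323 (@Lb.d (nat_lit 130) (nat_lit 0) (nat_lit 2) (@Lb.g g8 (@Lb.g g10 (@Lb.r r346 (@Lb.r r661 (@Lb.r r535 (@Lb.r r264 (@Lb.d (nat_lit 137) (nat_lit 70) (nat_lit 321) (@Lb.fm (nat_lit 3) t119)))))))))))
noncomputable def l41715 : Lb := (@Lb.d (nat_lit 597) (nat_lit 278) (nat_lit 321) (@Lb.r r549 (@Lb.r r423 (@Lb.r r1346 (@Lb.g g7 (@Lb.g g5 (@Lb.g g8 (@Lb.d (nat_lit 546) (nat_lit 2) (nat_lit 64) (@Lb.t (@Lb.fp (nat_lit 9) t7169))))))))))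
noncomputable def l41716 : Lb := (@Lb.r r263 (@Lb.d (nat_lit 0) (nat_lit 9) (nat_lit 1) (@Lb.g g8 (@Lb.g g9 (@Lb.g g10 (@Lb.r r2729 (@Lb.r r2475 (@Lb.r r392 (@Lb.r r2122 (@Lb.d (nat_lit 82) (nat_lit 0) (nat_lit 104) (@Lb.t (@Lb.fm (nat_lit 9) t4671))))))))))))
noncomputable def l41717 : Lb := (@Lb.d (nat_lit 658) (nat_lit 401) (nat_lit 342) (@Lb.r r2069 (@Lb.r r386 (@Lb.r r2391 (@Lb.g g7 (@Lb.g g6 (@Lb.g g4 (@Lb.d (nat_lit 2) (nat_lit 0) (nat_lit 65) (@Lb.t (@Lb.fm (nat_lit 9) t7170))))))))))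
noncomputable def l41718 : Lb := (@Lb.d (nat_lit 16) (nat_lit 10) (nat_lit 130) (@Lb.g g8 (@Lb.g g9 (@Lb.g g10 (@Lb.g g11 (@Lb.r r88 (@Lb.r r1110 (@Lb.r r681 (@Lb.r r1707 (@Lb.r r1700 (@Lb.d (nat_lit 265) (nat_lit 89) (nat_lit 394) (@Lb.fm (nat_lit 9) t6855))))))))))))
noncomputable def l41719 : Lb := (@Lb.d (nat_lit 0) (nat_lit 256) (nat_lit 64) (@Lb.g g11 (@Lb.r r340 (@Lb.r r362 (@Lb.r r597 (@Lb.r r20 (@Lb.d (nat_lit 256) (nat_lit 0) (nat_lit 165) (@Lb.t (@Lb.fp (nat_lit 3) t991)))))))))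
noncomputable def l41720 : Lb := (@Lb.d (nat_lit 64) (nat_lit 512) (nat_lit 64) (@Lb.g g11 (@Lb.r r1384 (@Lb.r r1366 (@Lb.r r683 (@Lb.r r1561 (@Lb.d (nat_lit 0) (nat_lit 8) (nat_lit 612) (@Lb.t (@Lb.fp (nat_lit 3) t4322)))))))))
noncomputable def l41721 : Lb := (@Lb.d (nat_lit 64) (nat_lit 256) (nat_lit 64) (@Lb.g g11 (@Lb.r r1384 (@Lb.r r1366 (@Lb.r r683 (@Lb.r r1561 (@Lb.d (nat_lit 5) (nat_lit 9) (nat_lit 612) (@Lb.t (@Lb.fp (nat_lit 3) t7171)))))))))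
noncomputable def l41722 : Lb := (@Lb.d (nat_lit 136) (nat_lit 256) (nat_lit 64) (@Lb.g g9 (@Lb.g g11 (@Lb.r r152 (@Lb.r r2650 (@Lb.r r1371 (@Lb.r r1685 (@Lb.d (nat_lit 33) (nat_lit 33) (nat_lit 584) (@Lb.fp (nat_lit 3) t7172)))))))))
noncomputable def l41723 : Lb := (@Lb.d (nat_lit 146) (nat_lit 0) (nat_lit 66) (@Lb.g g8 (@Lb.g g9 (@Lb.g g10 (@Lb.g g11 (@Lb.r r1643 (@Lb.r r1642 (@Lb.r r612 (@Lb.d (nat_lit 290) (nat_lit 26) (nat_lit 680) (@Lb.fm (nat_lit 9) t3785))))))))))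
noncomputable def l41724 : Lb := (@Lb.d (nat_lit 0) (nat_lit 256) (nat_lit 2) (@Lb.g g9 (@Lb.g g10 (@Lb.g g7 (@Lb.r r386 (@Lb.r r2436 (@Lb.d (nat_lit 608) (nat_lit 100) (nat_lit 9) (@Lb.t (@Lb.fm (nat_lit 9) t7173)))))))))
noncomputable def l41725 : Lb := (@Lb.d (nat_lit 136) (nat_lit 530) (nat_lit 73) (@Lb.g g8 (@Lb.g g9 (@Lb.g g10 (@Lb.g g11 (@Lb.r r1427 (@Lb.r r2325 (@Lb.r r1384 (@Lb.r r1158 (@Lb.d (nat_lit 593) (nat_lit 102) (nat_lit 149) (@Lb.fp (nat_lit 9) t6635)))))))))))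
noncomputable def l41726 : Lb := (@Lb.d (nat_lit 146) (nat_lit 21) (nat_lit 129) (@Lb.g g8 (@Lb.g g9 (@Lb.g g10 (@Lb.g g11 (@Lb.r r2691 (@Lb.r r297 (@Lb.r r104 (@Lb.r r1606 (@Lb.r r132 (@Lb.d (nat_lit 129) (nat_lit 154) (nat_lit 33) (@Lb.fm (nat_lit 9) t7088))))))))))))
noncomputable def l41727 : Lb := (@Lb.r r21 (@Lb.d (nat_lit 2) (nat_lit 512) (nat_lit 130) (@Lb.g g8 (@Lb.g g10 (@Lb.g g11 (@Lb.r r1674 (@Lb.r r273 (@Lb.r r427 (@Lb.r r420 (@Lb.d (nat_lit 293) (nat_lit 164) (nat_lit 586) (@Lb.t (@Lb.fp (nat_lit 9) t445))))))))))))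
noncomputable def l41728 : Lb := (@Lb.r r2403 (@Lb.r r101 (@Lb.r r24 (@Lb.d (nat_lit 330) (nat_lit 258) (nat_lit 528) (@Lb.fp (nat_lit 1) t1172)))))
noncomputable def l41729 : Lb := (@Lb.d (nat_lit 328) (nat_lit 388) (nat_lit 146) (@Lb.r r2216 (@Lb.r r665 (@Lb.r r2391 (@Lb.g g6 (@Lb.g g5 (@Lb.g g4 (@Lb.d (nat_lit 146) (nat_lit 9) (nat_lit 1) (@Lb.r r387 (@Lb.t (@Lb.fm (nat_lit 9) t4786)))))))))))
noncomputable def l41730 : Lb := (@Lb.d (nat_lit 582) (nat_lit 294) (nat_lit 134) (@Lb.r r408 (@Lb.r r1106 (@Lb.r r1623 (@Lb.g g6 (@Lb.g g5 (@Lb.g g4 (@Lb.d (nat_lit 65) (nat_lit 129) (nat_lit 1) (@Lb.r r387 (@Lb.t (@Lb.fp (nat_lit 9) t242)))))))))))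
noncomputable def l41731 : Lb := (@Lb.d (nat_lit 536) (nat_lit 17) (nat_lit 81) (@Lb.r r386 (@Lb.r r339 (@Lb.g g7 (@Lb.g g6 (@Lb.g g5 (@Lb.g g8 (@Lb.d (nat_lit 2) (nat_lit 129) (nat_lit 65) (@Lb.fp (nat_lit 9) t3104)))))))))
noncomputable def l41732 : Lb := (@Lb.r r322 (@Lb.d (nat_lit 2) (nat_lit 512) (nat_lit 8) (@Lb.g g8 (@Lb.g g5 (@Lb.g g11 (@Lb.r r2438 (@Lb.d (nat_lit 576) (nat_lit 0) (nat_lit 641) (@Lb.t (@Lb.fm (nat_lit 9) t49)))))))))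
noncomputable def l41733 : Lb := (@Lb.d (nat_lit 96) (nat_lit 9) (nat_lit 4) (@Lb.g g8 (@Lb.g g9 (@Lb.g g10 (@Lb.g g11 (@Lb.r r2723 (@Lb.r r1194 (@Lb.r r2657 (@Lb.r r612 (@Lb.d (nat_lit 534) (nat_lit 16) (nat_lit 597) (@Lb.fm (nat_lit 9) t5095)))))))))))
noncomputable def l41734 : Lb := (@Lb.d (nat_lit 145) (nat_lit 0) (nat_lit 129) (@Lb.g g8 (@Lb.g g10 (@Lb.g g11 (@Lb.r r660 (@Lb.r r2471 (@Lb.r r2454 (@Lb.r r1057 (@Lb.r r516 (@Lb.d (nat_lit 546) (nat_lit 17) (nat_lit 406) (@Lb.t (@Lb.fm (nat_lit 9) t7174))))))))))))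
noncomputable def l41735 : Lb := (@Lb.r r82 (@Lb.r r275 (@Lb.d (nat_lit 2) (nat_lit 130) (nat_lit 0) (@Lb.g g8 (@Lb.g g9 (@Lb.r r2596 (@Lb.r r2343 (@Lb.r r98 (@Lb.d (nat_lit 320) (nat_lit 2) (nat_lit 128) (@Lb.fm (nat_lit 3) t7175))))))))))
noncomputable def l41736 : Lb := (@Lb.d (nat_lit 6) (nat_lit 290) (nat_lit 130) (@Lb.g g8 (@Lb.g g9 (@Lb.g g10 (@Lb.g g11 (@Lb.r r387 (@Lb.r r1169 (@Lb.r r2454 (@Lb.r r36 (@Lb.d (nat_lit 665) (nat_lit 161) (nat_lit 68) (@Lb.fm (nat_lit 9) t4022)))))))))))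
noncomputable def l41737 : Lb := (@Lb.d (nat_lit 128) (nat_lit 0) (nat_lit 644) (@Lb.g g11 (@Lb.r r2178 (@Lb.r r1557 (@Lb.r r1416 (@Lb.d (nat_lit 538) (nat_lit 2) (nat_lit 128) (@Lb.t (@Lb.fp (nat_lit 3) t1063))))))))
noncomputable def l41738 : Lb := (@Lb.d (nat_lit 146) (nat_lit 2) (nat_lit 64) (@Lb.g g8 (@Lb.g g9 (@Lb.g g10 (@Lb.g g11 (@Lb.r r2454 (@Lb.r r2725 (@Lb.r r1364 (@Lb.r r2459 (@Lb.d (nat_lit 153) (nat_lit 85) (nat_lit 292) (@Lb.fp (nat_lit 9) t1526)))))))))))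
noncomputable def l41739 : Lb := (@Lb.r r580 (@Lb.d (nat_lit 32) (nat_lit 274) (nat_lit 586) (@Lb.g g9 (@Lb.g g10 (@Lb.g g11 (@Lb.r r328 (@Lb.r r1350 (@Lb.r r2457 (@Lb.d (nat_lit 554) (nat_lit 89) (nat_lit 642) (@Lb.t (@Lb.fp (nat_lit 9) t1065)))))))))))
noncomputable def l41740 : Lb := (@Lb.d (nat_lit 128) (nat_lit 256) (nat_lit 258) (@Lb.g g6 (@Lb.g g7 (@Lb.r r1642 (@Lb.d (nat_lit 101) (nat_lit 101) (nat_lit 537) (@Lb.fm (nat_lit 3) t6733))))))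
noncomputable def l41741 : Lb := (@Lb.d (nat_lit 146) (nat_lit 357) (nat_lit 6) (@Lb.r r390 (@Lb.r r2132 (@Lb.r r1193 (@Lb.g g11 (@Lb.g g6 (@Lb.g g5 (@Lb.g g4 (@Lb.d (nat_lit 37) (nat_lit 2) (nat_lit 0) (@Lb.fm (nat_lit 9) t2630))))))))))
noncomputable def l41742 : Lb := (@Lb.d (nat_lit 1) (nat_lit 389) (nat_lit 353) (@Lb.r r1643 (@Lb.r r1625 (@Lb.r r2470 (@Lb.g g5 (@Lb.g g8 (@Lb.d (nat_lit 320) (nat_lit 1) (nat_lit 0) (@Lb.fp (nat_lit 3) t7176))))))))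
noncomputable def l41743 : Lb := (@Lb.d (nat_lit 128) (nat_lit 0) (nat_lit 258) (@Lb.g g6 (@Lb.g g7 (@Lb.r r1642 (@Lb.d (nat_lit 102) (nat_lit 101) (nat_lit 537) (@Lb.fm (nat_lit 3) t6733))))))
noncomputable def l41744 : Lb := (@Lb.r r322 (@Lb.d (nat_lit 0) (nat_lit 528) (nat_lit 648) (@Lb.g g8 (@Lb.g g9 (@Lb.g g7 (@Lb.r r361 (@Lb.r r1124 (@Lb.r r2122 (@Lb.d (nat_lit 514) (nat_lit 0) (nat_lit 80) (@Lb.t (@Lb.fm (nat_lit 9) t1700)))))))))))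
noncomputable def l41745 : Lb := (@Lb.r r580 (@Lb.d (nat_lit 32) (nat_lit 530) (nat_lit 586) (@Lb.g g9 (@Lb.g g10 (@Lb.g g11 (@Lb.r r328 (@Lb.r r1350 (@Lb.r r2457 (@Lb.d (nat_lit 553) (nat_lit 89) (nat_lit 642) (@Lb.t (@Lb.fp (nat_lit 9) t7177)))))))))))
noncomputable def l41746 : Lb := (@Lb.d (nat_lit 129) (nat_lit 514) (nat_lit 130) (@Lb.g g8 (@Lb.g g9 (@Lb.g g10 (@Lb.g g11 (@Lb.r r424 (@Lb.r r1303 (@Lb.r r386 (@Lb.r r1573 (@Lb.r r1044 (@Lb.d (nat_lit 136) (nat_lit 66) (nat_lit 361) (@Lb.fm (nat_lit 9) t7136))))))))))))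
noncomputable def l41747 : Lb := (@Lb.d (nat_lit 536) (nat_lit 144) (nat_lit 104) (@Lb.r r337 (@Lb.r r674 (@Lb.r r2603 (@Lb.r r2596 (@Lb.g g5 (@Lb.d (nat_lit 4) (nat_lit 1) (nat_lit 0) (@Lb.t (@Lb.fm (nat_lit 3) t7178)))))))))
noncomputable def l41748 : Lb := (@Lb.d (nat_lit 280) (nat_lit 42) (nat_lit 74) (@Lb.r r598 (@Lb.r r327 (@Lb.r r2708 (@Lb.g g7 (@Lb.g g6 (@Lb.g g9 (@Lb.d (nat_lit 20) (nat_lit 137) (nat_lit 64) (@Lb.t (@Lb.fm (nat_lit 9) t7102))))))))))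
noncomputable def l41749 : Lb := (@Lb.d (nat_lit 0) (nat_lit 0) (nat_lit 2) (@Lb.g g8 (@Lb.g g10 (@Lb.r r1419 (@Lb.r r386 (@Lb.r r1057 (@Lb.r r1112 (@Lb.d (nat_lit 42) (nat_lit 82) (nat_lit 680) (@Lb.fp (nat_lit 3) t7179)))))))))
noncomputable def l41750 : Lb := (@Lb.d (nat_lit 1) (nat_lit 0) (nat_lit 2) (@Lb.g g8 (@Lb.g g10 (@Lb.r r1419 (@Lb.r r386 (@Lb.r r1057 (@Lb.r r1112 (@Lb.d (nat_lit 37) (nat_lit 81) (nat_lit 680) (@Lb.fp (nat_lit 3) t7179)))))))))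
noncomputable def l41751 : Lb := (@Lb.d (nat_lit 153) (nat_lit 9) (nat_lit 129) (@Lb.g g8 (@Lb.g g9 (@Lb.g g10 (@Lb.g g11 (@Lb.r r2327 (@Lb.r r1369 (@Lb.r r1698 (@Lb.r r1060 (@Lb.d (nat_lit 21) (nat_lit 104) (nat_lit 418) (@Lb.fm (nat_lit 9) t1997)))))))))))
noncomputable def l41752 : Lb := (@Lb.r r323 (@Lb.d (nat_lit 9) (nat_lit 258) (nat_lit 2) (@Lb.g g8 (@Lb.g g9 (@Lb.g g10 (@Lb.r r1642 (@Lb.r r1611 (@Lb.r r1425 (@Lb.r r2564 (@Lb.d (nat_lit 673) (nat_lit 149) (nat_lit 616) (@Lb.t (@Lb.fp (nat_lit 9) t7180))))))))))))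
noncomputable def l41753 : Lb := (@Lb.d (nat_lit 130) (nat_lit 2) (nat_lit 130) (@Lb.g g8 (@Lb.g g9 (@Lb.g g10 (@Lb.g g11 (@Lb.r r2327 (@Lb.r r2705 (@Lb.r r598 (@Lb.r r392 (@Lb.d (nat_lit 386) (nat_lit 2) (nat_lit 618) (@Lb.fm (nat_lit 9) t1347)))))))))))
noncomputable def l41754 : Lb := (@Lb.r r20 (@Lb.r r82 (@Lb.d (nat_lit 4) (nat_lit 416) (nat_lit 72) (@Lb.g g5 (@Lb.g g11 (@Lb.r r1624 (@Lb.r r2438 (@Lb.r r1611 (@Lb.d (nat_lit 610) (nat_lit 8) (nat_lit 513) (@Lb.fm (nat_lit 3) t1246))))))))))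
noncomputable def l41755 : Lb := (@Lb.d (nat_lit 642) (nat_lit 133) (nat_lit 326) (@Lb.r r20 (@Lb.r r322 (@Lb.r r659 (@Lb.r r2393 (@Lb.g g6 (@Lb.g g5 (@Lb.d (nat_lit 0) (nat_lit 1) (nat_lit 1) (@Lb.fp (nat_lit 3) t1325)))))))))
noncomputable def l41756 : Lb := (@Lb.d (nat_lit 0) (nat_lit 258) (nat_lit 130) (@Lb.g g9 (@Lb.g g10 (@Lb.g g11 (@Lb.r r1096 (@Lb.r r2214 (@Lb.r r2469 (@Lb.r r1627 (@Lb.d (nat_lit 402) (nat_lit 100) (nat_lit 533) (@Lb.t (@Lb.fm (nat_lit 9) t7173)))))))))))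
noncomputable def l41757 : Lb := (@Lb.r r323 (@Lb.d (nat_lit 9) (nat_lit 521) (nat_lit 1) (@Lb.g g8 (@Lb.g g9 (@Lb.g g10 (@Lb.r r1642 (@Lb.r r1611 (@Lb.r r1425 (@Lb.r r2564 (@Lb.d (nat_lit 673) (nat_lit 149) (nat_lit 616) (@Lb.t (@Lb.fp (nat_lit 9) t7181))))))))))))
noncomputable def l41758 : Lb := (@Lb.r r323 (@Lb.d (nat_lit 73) (nat_lit 65) (nat_lit 2) (@Lb.g g8 (@Lb.g g5 (@Lb.g g10 (@Lb.r r1691 (@Lb.r r2726 (@Lb.r r340 (@Lb.d (nat_lit 644) (nat_lit 20) (nat_lit 150) (@Lb.t (@Lb.fp (nat_lit 9) t178)))))))))))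
noncomputable def l41759 : Lb := (@Lb.d (nat_lit 153) (nat_lit 9) (nat_lit 129) (@Lb.g g8 (@Lb.g g9 (@Lb.g g10 (@Lb.g g11 (@Lb.r r419 (@Lb.r r1188 (@Lb.r r422 (@Lb.r r1425 (@Lb.d (nat_lit 266) (nat_lit 148) (nat_lit 100) (@Lb.fm (nat_lit 9) t7182)))))))))))
noncomputable def l41760 : Lb := (@Lb.d (nat_lit 292) (nat_lit 577) (nat_lit 160) (@Lb.r r1556 (@Lb.r r1110 (@Lb.r r2473 (@Lb.g g11 (@Lb.g g6 (@Lb.g g5 (@Lb.g g4 (@Lb.d (nat_lit 18) (nat_lit 1) (nat_lit 130) (@Lb.fp (nat_lit 9) t7183))))))))))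
noncomputable def l41761 : Lb := (@Lb.d (nat_lit 0) (nat_lit 514) (nat_lit 0) (@Lb.g g8 (@Lb.g g9 (@Lb.r r1579 (@Lb.r r2178 (@Lb.r r2585 (@Lb.r r2564 (@Lb.d (nat_lit 297) (nat_lit 134) (nat_lit 101) (@Lb.fm (nat_lit 3) t7184)))))))))
noncomputable def l41762 : Lb := (@Lb.d (nat_lit 340) (nat_lit 594) (nat_lit 165) (@Lb.r r579 (@Lb.r r2394 (@Lb.g g7 (@Lb.g g6 (@Lb.g g5 (@Lb.g g8 (@Lb.d (nat_lit 2) (nat_lit 129) (nat_lit 134) (@Lb.fp (nat_lit 9) t4014)))))))))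
noncomputable def l41763 : Lb := (@Lb.d (nat_lit 292) (nat_lit 37) (nat_lit 422) (@Lb.r r2196 (@Lb.r r1110 (@Lb.r r2473 (@Lb.g g11 (@Lb.g g6 (@Lb.g g5 (@Lb.g g4 (@Lb.d (nat_lit 18) (nat_lit 1) (nat_lit 130) (@Lb.fp (nat_lit 9) t7185))))))))))
noncomputable def l41764 : Lb := (@Lb.d (nat_lit 154) (nat_lit 288) (nat_lit 130) (@Lb.g g8 (@Lb.g g10 (@Lb.g g11 (@Lb.r r353 (@Lb.r r1686 (@Lb.r r1380 (@Lb.r r539 (@Lb.d (nat_lit 584) (nat_lit 34) (nat_lit 674) (@Lb.t (@Lb.fp (nat_lit 9) t2426)))))))))))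
noncomputable def l41765 : Lb := (@Lb.d (nat_lit 16) (nat_lit 258) (nat_lit 0) (@Lb.g g8 (@Lb.g g9 (@Lb.g g10 (@Lb.r r683 (@Lb.r r1686 (@Lb.r r169 (@Lb.r r148 (@Lb.d (nat_lit 33) (nat_lit 65) (nat_lit 256) (@Lb.t (@Lb.fp (nat_lit 9) t2801)))))))))))
noncomputable def l41766 : Lb := (@Lb.r r21 (@Lb.d (nat_lit 42) (nat_lit 256) (nat_lit 0) (@Lb.g g8 (@Lb.r r1382 (@Lb.r r1365 (@Lb.r r2411 (@Lb.r r2404 (@Lb.d (nat_lit 130) (nat_lit 104) (nat_lit 261) (@Lb.t (@Lb.fp (nat_lit 3) t284))))))))))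
noncomputable def l41767 : Lb := (@Lb.d (nat_lit 646) (nat_lit 646) (nat_lit 522) (@Lb.r r1301 (@Lb.r r598 (@Lb.r r1707 (@Lb.g g7 (@Lb.g g6 (@Lb.g g5 (@Lb.g g4 (@Lb.d (nat_lit 354) (nat_lit 1) (nat_lit 64) (@Lb.fm (nat_lit 9) t3513))))))))))
noncomputable def l41768 : Lb := (@Lb.r r322 (@Lb.d (nat_lit 0) (nat_lit 266) (nat_lit 576) (@Lb.g g8 (@Lb.g g9 (@Lb.g g7 (@Lb.r r594 (@Lb.r r1701 (@Lb.r r24 (@Lb.d (nat_lit 410) (nat_lit 2) (nat_lit 342) (@Lb.t (@Lb.fp (nat_lit 9) t991)))))))))))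
noncomputable def l41769 : Lb := (@Lb.d (nat_lit 0) (nat_lit 2) (nat_lit 0) (@Lb.g g8 (@Lb.g g9 (@Lb.r r1579 (@Lb.r r2178 (@Lb.r r2585 (@Lb.r r2564 (@Lb.d (nat_lit 297) (nat_lit 129) (nat_lit 100) (@Lb.fm (nat_lit 3) t7184)))))))))
noncomputable def l41770 : Lb := (@Lb.d (nat_lit 0) (nat_lit 290) (nat_lit 66) (@Lb.g g9 (@Lb.g g10 (@Lb.g g11 (@Lb.r r1703 (@Lb.r r386 (@Lb.r r1553 (@Lb.r r24 (@Lb.d (nat_lit 597) (nat_lit 129) (nat_lit 100) (@Lb.t (@Lb.fp (nat_lit 9) t7186)))))))))))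
noncomputable def l41771 : Lb := (@Lb.r r338 (@Lb.d (nat_lit 64) (nat_lit 34) (nat_lit 260) (@Lb.g g9 (@Lb.g g7 (@Lb.r r418 (@Lb.r r1169 (@Lb.r r24 (@Lb.d (nat_lit 550) (nat_lit 129) (nat_lit 98) (@Lb.fp (nat_lit 3) t5510)))))))))
noncomputable def l41772 : Lb := (@Lb.r r323 (@Lb.d (nat_lit 32) (nat_lit 0) (nat_lit 2) (@Lb.g g10 (@Lb.r r584 (@Lb.r r299 (@Lb.r r409 (@Lb.d (nat_lit 424) (nat_lit 81) (nat_lit 266) (@Lb.t (@Lb.fm (nat_lit 3) t7187)))))))))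
noncomputable def l41773 : Lb := (@Lb.d (nat_lit 2) (nat_lit 4) (nat_lit 74) (@Lb.g g8 (@Lb.g g9 (@Lb.g g10 (@Lb.g g11 (@Lb.r r2666 (@Lb.r r579 (@Lb.r r2729 (@Lb.r r1124 (@Lb.d (nat_lit 73) (nat_lit 9) (nat_lit 680) (@Lb.fp (nat_lit 9) t7188)))))))))))
noncomputable def l41774 : Lb := (@Lb.r r101 (@Lb.r r402 (@Lb.r r24 (@Lb.d (nat_lit 282) (nat_lit 74) (nat_lit 258) (@Lb.fm (nat_lit 1) t4485)))))
noncomputable def l41775 : Lb := (@Lb.r r21 (@Lb.r r331 (@Lb.d (nat_lit 1) (nat_lit 256) (nat_lit 32) (@Lb.g g8 (@Lb.g g10 (@Lb.r r2708 (@Lb.r r391 (@Lb.r r25 (@Lb.d (nat_lit 648) (nat_lit 34) (nat_lit 400) (@Lb.fm (nat_lit 3) t3447))))))))))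
noncomputable def l41776 : Lb := (@Lb.r r21 (@Lb.d (nat_lit 33) (nat_lit 256) (nat_lit 73) (@Lb.g g8 (@Lb.g g10 (@Lb.g g11 (@Lb.r r2715 (@Lb.r r2202 (@Lb.r r97 (@Lb.r r2728 (@Lb.d (nat_lit 537) (nat_lit 18) (nat_lit 289) (@Lb.t (@Lb.fm (nat_lit 9) t6899))))))))))))
noncomputable def l41777 : Lb := (@Lb.d (nat_lit 36) (nat_lit 514) (nat_lit 73) (@Lb.g g8 (@Lb.g g9 (@Lb.g g10 (@Lb.g g11 (@Lb.r r1443 (@Lb.r r2201 (@Lb.r r1626 (@Lb.r r1540 (@Lb.d (nat_lit 406) (nat_lit 5) (nat_lit 145) (@Lb.fp (nat_lit 9) t321)))))))))))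
noncomputable def l41778 : Lb := (@Lb.r r21 (@Lb.r r331 (@Lb.d (nat_lit 1) (nat_lit 512) (nat_lit 32) (@Lb.g g8 (@Lb.g g10 (@Lb.r r2708 (@Lb.r r391 (@Lb.r r25 (@Lb.d (nat_lit 646) (nat_lit 33) (nat_lit 400) (@Lb.fm (nat_lit 3) t3447))))))))))
noncomputable def l41779 : Lb := (@Lb.d (nat_lit 0) (nat_lit 256) (nat_lit 136) (@Lb.g g11 (@Lb.r r402 (@Lb.r r1172 (@Lb.d (nat_lit 292) (nat_lit 145) (nat_lit 666) (@Lb.t (@Lb.fm (nat_lit 3) t7189)))))))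
noncomputable def l41780 : Lb := (@Lb.d (nat_lit 0) (nat_lit 512) (nat_lit 136) (@Lb.g g4 (@Lb.g g11 (@Lb.r r402 (@Lb.d (nat_lit 292) (nat_lit 10) (nat_lit 162) (@Lb.fm (nat_lit 3) t3532))))))
noncomputable def l41781 : Lb := (@Lb.r r322 (@Lb.d (nat_lit 41) (nat_lit 513) (nat_lit 576) (@Lb.g g8 (@Lb.g g9 (@Lb.g g7 (@Lb.r r361 (@Lb.r r150 (@Lb.r r84 (@Lb.d (nat_lit 20) (nat_lit 150) (nat_lit 521) (@Lb.t (@Lb.fp (nat_lit 9) t668)))))))))))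
noncomputable def l41782 : Lb := (@Lb.r r82 (@Lb.d (nat_lit 128) (nat_lit 258) (nat_lit 128) (@Lb.g g8 (@Lb.g g9 (@Lb.g g11 (@Lb.r r2467 (@Lb.r r386 (@Lb.r r165 (@Lb.r r1176 (@Lb.d (nat_lit 278) (nat_lit 10) (nat_lit 162) (@Lb.t (@Lb.fp (nat_lit 9) t4399))))))))))))
noncomputable def l41783 : Lb := (@Lb.g g4 (@Lb.r r597 (@Lb.r r1386 (@Lb.r r407 (@Lb.r r1124 (@Lb.d (nat_lit 36) (nat_lit 518) (nat_lit 576) (@Lb.t (@Lb.fm (nat_lit 3) t1639))))))))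
noncomputable def l41784 : Lb := (@Lb.d (nat_lit 544) (nat_lit 0) (nat_lit 69) (@Lb.r r2631 (@Lb.r r402 (@Lb.r r2145 (@Lb.g g4 (@Lb.d (nat_lit 321) (nat_lit 0) (nat_lit 0) (@Lb.t (@Lb.fp (nat_lit 3) t5969))))))))
noncomputable def l41785 : Lb := (@Lb.d (nat_lit 150) (nat_lit 2) (nat_lit 64) (@Lb.g g8 (@Lb.g g9 (@Lb.g g10 (@Lb.g g11 (@Lb.r r1435 (@Lb.r r2201 (@Lb.r r1626 (@Lb.r r2696 (@Lb.d (nat_lit 337) (nat_lit 68) (nat_lit 645) (@Lb.fm (nat_lit 9) t5)))))))))))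
noncomputable def l41786 : Lb := (@Lb.r r331 (@Lb.d (nat_lit 38) (nat_lit 514) (nat_lit 2) (@Lb.g g8 (@Lb.g g9 (@Lb.g g10 (@Lb.r r2713 (@Lb.r r1563 (@Lb.r r1684 (@Lb.d (nat_lit 405) (nat_lit 101) (nat_lit 134) (@Lb.t (@Lb.fp (nat_lit 9) t5)))))))))))
noncomputable def l41787 : Lb := (@Lb.d (nat_lit 82) (nat_lit 133) (nat_lit 262) (@Lb.r r390 (@Lb.r r1620 (@Lb.r r425 (@Lb.g g11 (@Lb.g g6 (@Lb.g g5 (@Lb.g g4 (@Lb.d (nat_lit 32) (nat_lit 37) (nat_lit 390) (@Lb.fm (nat_lit 9) t1445))))))))))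
noncomputable def l41788 : Lb := (@Lb.r r70 (@Lb.r r263 (@Lb.d (nat_lit 0) (nat_lit 66) (nat_lit 0) (@Lb.g g8 (@Lb.g g9 (@Lb.r r2347 (@Lb.r r2442 (@Lb.r r1444 (@Lb.d (nat_lit 608) (nat_lit 102) (nat_lit 256) (@Lb.fp (nat_lit 3) t4337))))))))))
noncomputable def l41789 : Lb := (@Lb.r r21 (@Lb.r r70 (@Lb.d (nat_lit 610) (nat_lit 512) (nat_lit 0) (@Lb.g g4 (@Lb.r r2454 (@Lb.r r97 (@Lb.d (nat_lit 520) (nat_lit 1) (nat_lit 512) (@Lb.t (@Lb.fm (nat_lit 3) t722)))))))))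
noncomputable def l41790 : Lb := (@Lb.d (nat_lit 642) (nat_lit 512) (nat_lit 392) (@Lb.g g8 (@Lb.g g11 (@Lb.d (nat_lit 0) (nat_lit 0) (nat_lit 130) (@Lb.fm (nat_lit 3) t997)))))
noncomputable def l41791 : Lb := (@Lb.d (nat_lit 1) (nat_lit 514) (nat_lit 137) (@Lb.g g8 (@Lb.g g9 (@Lb.g g10 (@Lb.g g7 (@Lb.r r386 (@Lb.r r97 (@Lb.r r2584 (@Lb.d (nat_lit 645) (nat_lit 168) (nat_lit 393) (@Lb.fp (nat_lit 9) t996))))))))))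
noncomputable def l41792 : Lb := (@Lb.d (nat_lit 0) (nat_lit 32) (nat_lit 64) (@Lb.g g11 (@Lb.r r602 (@Lb.r r2453 (@Lb.r r612 (@Lb.r r295 (@Lb.d (nat_lit 74) (nat_lit 161) (nat_lit 256) (@Lb.t (@Lb.fp (nat_lit 3) t2428)))))))))
noncomputable def l41793 : Lb := (@Lb.r r21 (@Lb.r r70 (@Lb.d (nat_lit 610) (nat_lit 256) (nat_lit 0) (@Lb.g g4 (@Lb.r r2454 (@Lb.r r97 (@Lb.d (nat_lit 360) (nat_lit 1) (nat_lit 410) (@Lb.t (@Lb.fm (nat_lit 3) t5260)))))))))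
noncomputable def l41794 : Lb := (@Lb.r r347 (@Lb.d (nat_lit 2) (nat_lit 0) (nat_lit 0) (@Lb.g g8 (@Lb.g g9 (@Lb.g g10 (@Lb.r r683 (@Lb.r r1194 (@Lb.r r1188 (@Lb.r r2085 (@Lb.d (nat_lit 521) (nat_lit 85) (nat_lit 609) (@Lb.t (@Lb.fp (nat_lit 9) t4417))))))))))))
noncomputable def l41795 : Lb := (@Lb.d (nat_lit 2) (nat_lit 256) (nat_lit 128) (@Lb.g g8 (@Lb.g g11 (@Lb.r r1287 (@Lb.r r1381 (@Lb.r r2714 (@Lb.r r2564 (@Lb.d (nat_lit 400) (nat_lit 0) (nat_lit 385) (@Lb.fm (nat_lit 3) t1069)))))))))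
noncomputable def l41796 : Lb := (@Lb.d (nat_lit 32) (nat_lit 0) (nat_lit 136) (@Lb.g g10 (@Lb.g g11 (@Lb.r r2403 (@Lb.r r1705 (@Lb.r r2408 (@Lb.r r1606 (@Lb.d (nat_lit 614) (nat_lit 74) (nat_lit 656) (@Lb.fm (nat_lit 3) t5753)))))))))
noncomputable def l41797 : Lb := (@Lb.r r82 (@Lb.d (nat_lit 34) (nat_lit 289) (nat_lit 128) (@Lb.g g8 (@Lb.g g9 (@Lb.g g11 (@Lb.r r1571 (@Lb.r r582 (@Lb.r r273 (@Lb.r r2180 (@Lb.d (nat_lit 546) (nat_lit 33) (nat_lit 402) (@Lb.t (@Lb.fp (nat_lit 9) t125))))))))))))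
noncomputable def l41798 : Lb := (@Lb.d (nat_lit 2) (nat_lit 256) (nat_lit 128) (@Lb.g g8 (@Lb.g g11 (@Lb.r r1287 (@Lb.r r81 (@Lb.r r162 (@Lb.r r145 (@Lb.r r2564 (@Lb.d (nat_lit 149) (nat_lit 8) (nat_lit 400) (@Lb.fp (nat_lit 3) t1277))))))))))
noncomputable def l41799 : Lb := (@Lb.d (nat_lit 0) (nat_lit 577) (nat_lit 321) (@Lb.r r1446 (@Lb.r r2660 (@Lb.r r2581 (@Lb.g g7 (@Lb.d (nat_lit 128) (nat_lit 16) (nat_lit 64) (@Lb.r r578 (@Lb.r r529 (@Lb.t (@Lb.fp (nat_lit 3) t6534))))))))))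
noncomputable def l41800 : Lb := (@Lb.d (nat_lit 33) (nat_lit 260) (nat_lit 137) (@Lb.g g8 (@Lb.g g9 (@Lb.g g10 (@Lb.g g11 (@Lb.r r683 (@Lb.r r2406 (@Lb.r r2596 (@Lb.r r1173 (@Lb.d (nat_lit 546) (nat_lit 150) (nat_lit 649) (@Lb.fm (nat_lit 9) t6099)))))))))))
noncomputable def l41801 : Lb := (@Lb.d (nat_lit 390) (nat_lit 344) (nat_lit 578) (@Lb.r r2325 (@Lb.r r2178 (@Lb.r r299 (@Lb.g g7 (@Lb.g g5 (@Lb.g g4 (@Lb.d (nat_lit 1) (nat_lit 0) (nat_lit 128) (@Lb.t (@Lb.fm (nat_lit 9) t2131))))))))))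
noncomputable def l41802 : Lb := (@Lb.d (nat_lit 2) (nat_lit 0) (nat_lit 128) (@Lb.g g8 (@Lb.g g9 (@Lb.g g10 (@Lb.g g11 (@Lb.r r1706 (@Lb.r r1188 (@Lb.r r2597 (@Lb.r r1315 (@Lb.d (nat_lit 521) (nat_lit 81) (nat_lit 650) (@Lb.fp (nat_lit 9) t3648)))))))))))
noncomputable def l41803 : Lb := (@Lb.r r21 (@Lb.r r70 (@Lb.d (nat_lit 514) (nat_lit 512) (nat_lit 0) (@Lb.g g8 (@Lb.r r1291 (@Lb.r r74 (@Lb.r r25 (@Lb.d (nat_lit 1) (nat_lit 0) (nat_lit 0) (@Lb.t (@Lb.fp (nat_lit 3) t7190))))))))))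
noncomputable def l41804 : Lb := (@Lb.d (nat_lit 664) (nat_lit 514) (nat_lit 22) (@Lb.r r273 (@Lb.r r70 (@Lb.r r423 (@Lb.r r353 (@Lb.g g7 (@Lb.g g6 (@Lb.g g5 (@Lb.g g4 (@Lb.d (nat_lit 1) (nat_lit 1) (nat_lit 5) (@Lb.fm (nat_lit 9) t7191)))))))))))
noncomputable def l41805 : Lb := (@Lb.r r323 (@Lb.d (nat_lit 0) (nat_lit 266) (nat_lit 0) (@Lb.g g9 (@Lb.g g10 (@Lb.r r339 (@Lb.r r169 (@Lb.r r104 (@Lb.r r70 (@Lb.d (nat_lit 8) (nat_lit 154) (nat_lit 265) (@Lb.fm (nat_lit 3) t6232))))))))))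
noncomputable def l41806 : Lb := (@Lb.d (nat_lit 129) (nat_lit 514) (nat_lit 66) (@Lb.g g8 (@Lb.g g9 (@Lb.g g10 (@Lb.g g11 (@Lb.r r2729 (@Lb.r r2475 (@Lb.r r362 (@Lb.r r1316 (@Lb.d (nat_lit 681) (nat_lit 162) (nat_lit 1) (@Lb.fm (nat_lit 9) t6209)))))))))))
noncomputable def l41807 : Lb := (@Lb.d (nat_lit 85) (nat_lit 8) (nat_lit 137) (@Lb.r r2438 (@Lb.r r1624 (@Lb.r r539 (@Lb.r r2341 (@Lb.g g7 (@Lb.g g6 (@Lb.g g5 (@Lb.d (nat_lit 0) (nat_lit 0) (nat_lit 134) (@Lb.t (@Lb.fp (nat_lit 9) t7192)))))))))))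
noncomputable def l41808 : Lb := (@Lb.d (nat_lit 0) (nat_lit 0) (nat_lit 130) (@Lb.g g9 (@Lb.g g10 (@Lb.g g11 (@Lb.r r419 (@Lb.r r1620 (@Lb.r r2122 (@Lb.r r1425 (@Lb.d (nat_lit 81) (nat_lit 137) (nat_lit 577) (@Lb.t (@Lb.fm (nat_lit 9) t7193)))))))))))
noncomputable def l41809 : Lb := (@Lb.r r323 (@Lb.d (nat_lit 1) (nat_lit 322) (nat_lit 10) (@Lb.g g4 (@Lb.g g9 (@Lb.g g10 (@Lb.r r595 (@Lb.r r338 (@Lb.d (nat_lit 293) (nat_lit 5) (nat_lit 170) (@Lb.t (@Lb.fm (nat_lit 9) t3056))))))))))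
noncomputable def l41810 : Lb := (@Lb.r r323 (@Lb.d (nat_lit 1) (nat_lit 66) (nat_lit 10) (@Lb.g g4 (@Lb.g g9 (@Lb.g g10 (@Lb.r r595 (@Lb.r r338 (@Lb.d (nat_lit 294) (nat_lit 5) (nat_lit 170) (@Lb.t (@Lb.fm (nat_lit 9) t3056))))))))))
noncomputable def l41811 : Lb := (@Lb.d (nat_lit 0) (nat_lit 320) (nat_lit 602) (@Lb.r r24 (@Lb.r r1617 (@Lb.g g10 (@Lb.d (nat_lit 0) (nat_lit 0) (nat_lit 10) (@Lb.t (@Lb.fm (nat_lit 3) t3336)))))))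
noncomputable def l41812 : Lb := (@Lb.d (nat_lit 610) (nat_lit 676) (nat_lit 96) (@Lb.r r24 (@Lb.r r1346 (@Lb.g g7 (@Lb.g g6 (@Lb.g g9 (@Lb.d (nat_lit 0) (nat_lit 0) (nat_lit 133) (@Lb.t (@Lb.fp (nat_lit 9) t282)))))))))
noncomputable def l41813 : Lb := (@Lb.d (nat_lit 129) (nat_lit 258) (nat_lit 130) (@Lb.g g8 (@Lb.g g9 (@Lb.g g10 (@Lb.g g11 (@Lb.r r419 (@Lb.r r1156 (@Lb.r r2438 (@Lb.r r25 (@Lb.d (nat_lit 617) (nat_lit 73) (nat_lit 580) (@Lb.fm (nat_lit 9) t7194)))))))))))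
noncomputable def l41814 : Lb := (@Lb.d (nat_lit 144) (nat_lit 2) (nat_lit 128) (@Lb.g g8 (@Lb.g g9 (@Lb.g g10 (@Lb.g g11 (@Lb.r r1443 (@Lb.r r1156 (@Lb.r r390 (@Lb.r r25 (@Lb.d (nat_lit 105) (nat_lit 73) (nat_lit 409) (@Lb.fm (nat_lit 9) t7195)))))))))))
noncomputable def l41815 : Lb := (@Lb.d (nat_lit 642) (nat_lit 514) (nat_lit 130) (@Lb.g g8 (@Lb.g g9 (@Lb.g g10 (@Lb.g g11 (@Lb.r r1451 (@Lb.r r106 (@Lb.r r97 (@Lb.d (nat_lit 265) (nat_lit 4) (nat_lit 408) (@Lb.fm (nat_lit 9) t6935))))))))))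
noncomputable def l41816 : Lb := (@Lb.d (nat_lit 32) (nat_lit 578) (nat_lit 8) (@Lb.g g5 (@Lb.g g10 (@Lb.r r2651 (@Lb.r r2644 (@Lb.r r1370 (@Lb.d (nat_lit 38) (nat_lit 101) (nat_lit 534) (@Lb.fm (nat_lit 3) t324))))))))
noncomputable def l41817 : Lb := (@Lb.d (nat_lit 642) (nat_lit 516) (nat_lit 128) (@Lb.g g8 (@Lb.g g9 (@Lb.g g10 (@Lb.g g11 (@Lb.r r1451 (@Lb.r r106 (@Lb.r r25 (@Lb.d (nat_lit 2) (nat_lit 10) (nat_lit 425) (@Lb.fp (nat_lit 9) t442))))))))))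
noncomputable def l41818 : Lb := (@Lb.d (nat_lit 18) (nat_lit 2) (nat_lit 128) (@Lb.g g8 (@Lb.g g9 (@Lb.g g10 (@Lb.g g11 (@Lb.r r2344 (@Lb.r r1687 (@Lb.r r2401 (@Lb.r r1170 (@Lb.d (nat_lit 10) (nat_lit 25) (nat_lit 425) (@Lb.fp (nat_lit 9) t68)))))))))))
noncomputable def l41819 : Lb := (@Lb.r r82 (@Lb.d (nat_lit 2) (nat_lit 2) (nat_lit 128) (@Lb.g g8 (@Lb.g g9 (@Lb.g g11 (@Lb.r r299 (@Lb.r r296 (@Lb.r r153 (@Lb.r r146 (@Lb.d (nat_lit 617) (nat_lit 2) (nat_lit 546) (@Lb.t (@Lb.fm (nat_lit 9) t904))))))))))))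
noncomputable def l41820 : Lb := (@Lb.d (nat_lit 41) (nat_lit 512) (nat_lit 0) (@Lb.g g8 (@Lb.r r614 (@Lb.r r1637 (@Lb.r r1428 (@Lb.d (nat_lit 358) (nat_lit 90) (nat_lit 613) (@Lb.t (@Lb.fm (nat_lit 3) t2428))))))))
noncomputable def l41821 : Lb := (@Lb.r r82 (@Lb.d (nat_lit 9) (nat_lit 257) (nat_lit 128) (@Lb.g g8 (@Lb.g g9 (@Lb.g g11 (@Lb.r r1571 (@Lb.r r1192 (@Lb.r r1642 (@Lb.r r1633 (@Lb.d (nat_lit 613) (nat_lit 89) (nat_lit 356) (@Lb.t (@Lb.fp (nat_lit 9) t1239))))))))))))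
noncomputable def l41822 : Lb := (@Lb.d (nat_lit 1) (nat_lit 0) (nat_lit 0) (@Lb.g g4 (@Lb.g g10 (@Lb.g g7 (@Lb.r r402 (@Lb.r r2145 (@Lb.d (nat_lit 329) (nat_lit 130) (nat_lit 320) (@Lb.t (@Lb.fm (nat_lit 9) t5465)))))))))
noncomputable def l41823 : Lb := (@Lb.d (nat_lit 42) (nat_lit 512) (nat_lit 0) (@Lb.g g8 (@Lb.r r2370 (@Lb.r r1703 (@Lb.r r1573 (@Lb.r r1300 (@Lb.d (nat_lit 326) (nat_lit 18) (nat_lit 256) (@Lb.t (@Lb.fp (nat_lit 3) t322)))))))))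
noncomputable def l41824 : Lb := (@Lb.d (nat_lit 10) (nat_lit 678) (nat_lit 417) (@Lb.r r68 (@Lb.r r602 (@Lb.r r584 (@Lb.r r2073 (@Lb.g g11 (@Lb.t (@Lb.fm (nat_lit 3) t7196))))))))
noncomputable def l41825 : Lb := (@Lb.r r331 (@Lb.d (nat_lit 513) (nat_lit 5) (nat_lit 0) (@Lb.g g8 (@Lb.g g9 (@Lb.g g10 (@Lb.r r2390 (@Lb.r r1411 (@Lb.r r1385 (@Lb.d (nat_lit 682) (nat_lit 32) (nat_lit 281) (@Lb.t (@Lb.fp (nat_lit 9) t5124)))))))))))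
noncomputable def l41826 : Lb := (@Lb.d (nat_lit 10) (nat_lit 256) (nat_lit 130) (@Lb.g g8 (@Lb.g g10 (@Lb.g g11 (@Lb.r r1109 (@Lb.r r2658 (@Lb.r r2436 (@Lb.d (nat_lit 612) (nat_lit 26) (nat_lit 613) (@Lb.t (@Lb.fm (nat_lit 9) t1557))))))))))
noncomputable def l41827 : Lb := (@Lb.d (nat_lit 2) (nat_lit 514) (nat_lit 130) (@Lb.g g8 (@Lb.g g9 (@Lb.g g10 (@Lb.g g11 (@Lb.r r2216 (@Lb.r r2666 (@Lb.r r25 (@Lb.d (nat_lit 522) (nat_lit 89) (nat_lit 85) (@Lb.fm (nat_lit 9) t988))))))))))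
noncomputable def l41828 : Lb := (@Lb.d (nat_lit 598) (nat_lit 662) (nat_lit 69) (@Lb.r r1705 (@Lb.r r2728 (@Lb.r r2218 (@Lb.g g11 (@Lb.g g9 (@Lb.d (nat_lit 4) (nat_lit 5) (nat_lit 0) (@Lb.fp (nat_lit 3) t3574))))))))
noncomputable def l41829 : Lb := (@Lb.d (nat_lit 10) (nat_lit 0) (nat_lit 132) (@Lb.g g8 (@Lb.g g10 (@Lb.g g7 (@Lb.r r1365 (@Lb.r r2402 (@Lb.r r2436 (@Lb.d (nat_lit 612) (nat_lit 42) (nat_lit 97) (@Lb.t (@Lb.fp (nat_lit 9) t1557))))))))))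
noncomputable def l41830 : Lb := (@Lb.r r82 (@Lb.d (nat_lit 2) (nat_lit 512) (nat_lit 64) (@Lb.g g8 (@Lb.g g9 (@Lb.g g11 (@Lb.r r2658 (@Lb.r r1060 (@Lb.r r2661 (@Lb.r r1315 (@Lb.d (nat_lit 2) (nat_lit 17) (nat_lit 516) (@Lb.t (@Lb.fp (nat_lit 9) t7197))))))))))))
noncomputable def l41831 : Lb := (@Lb.d (nat_lit 10) (nat_lit 512) (nat_lit 130) (@Lb.g g8 (@Lb.g g10 (@Lb.g g11 (@Lb.r r2138 (@Lb.r r1685 (@Lb.r r2455 (@Lb.r r1608 (@Lb.d (nat_lit 336) (nat_lit 5) (nat_lit 530) (@Lb.t (@Lb.fp (nat_lit 9) t3316)))))))))))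
noncomputable def l41832 : Lb := (@Lb.d (nat_lit 10) (nat_lit 264) (nat_lit 72) (@Lb.g g8 (@Lb.g g10 (@Lb.g g11 (@Lb.r r337 (@Lb.r r358 (@Lb.r r2436 (@Lb.d (nat_lit 297) (nat_lit 17) (nat_lit 553) (@Lb.t (@Lb.fm (nat_lit 9) t572))))))))))
noncomputable def l41833 : Lb := (@Lb.d (nat_lit 10) (nat_lit 0) (nat_lit 66) (@Lb.g g8 (@Lb.g g10 (@Lb.g g11 (@Lb.r r2138 (@Lb.r r1685 (@Lb.r r2455 (@Lb.r r1608 (@Lb.d (nat_lit 104) (nat_lit 9) (nat_lit 545) (@Lb.t (@Lb.fp (nat_lit 9) t7198)))))))))))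
noncomputable def l41834 : Lb := (@Lb.d (nat_lit 10) (nat_lit 0) (nat_lit 130) (@Lb.g g8 (@Lb.g g10 (@Lb.g g11 (@Lb.r r2138 (@Lb.r r1685 (@Lb.r r2455 (@Lb.r r1608 (@Lb.d (nat_lit 336) (nat_lit 0) (nat_lit 529) (@Lb.t (@Lb.fp (nat_lit 9) t282)))))))))))
noncomputable def l41835 : Lb := (@Lb.d (nat_lit 2) (nat_lit 258) (nat_lit 66) (@Lb.g g8 (@Lb.g g9 (@Lb.g g10 (@Lb.g g11 (@Lb.r r648 (@Lb.r r1563 (@Lb.r r2453 (@Lb.r r2134 (@Lb.r r1188 (@Lb.d (nat_lit 552) (nat_lit 9) (nat_lit 360) (@Lb.fp (nat_lit 9) t7199))))))))))))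
noncomputable def l41836 : Lb := (@Lb.d (nat_lit 42) (nat_lit 512) (nat_lit 128) (@Lb.g g8 (@Lb.g g11 (@Lb.r r614 (@Lb.r r1637 (@Lb.r r1428 (@Lb.d (nat_lit 358) (nat_lit 90) (nat_lit 613) (@Lb.fp (nat_lit 3) t2428))))))))
noncomputable def l41837 : Lb := (@Lb.d (nat_lit 152) (nat_lit 512) (nat_lit 401) (@Lb.g g8 (@Lb.g g6 (@Lb.g g11 (@Lb.r r533 (@Lb.r r2340 (@Lb.d (nat_lit 586) (nat_lit 38) (nat_lit 385) (@Lb.t (@Lb.fp (nat_lit 9) t4683)))))))))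
noncomputable def l41838 : Lb := (@Lb.r r21 (@Lb.d (nat_lit 10) (nat_lit 256) (nat_lit 2) (@Lb.g g8 (@Lb.g g10 (@Lb.g g7 (@Lb.r r386 (@Lb.r r2453 (@Lb.r r680 (@Lb.d (nat_lit 650) (nat_lit 18) (nat_lit 162) (@Lb.t (@Lb.fp (nat_lit 9) t7200)))))))))))
noncomputable def l41839 : Lb := (@Lb.d (nat_lit 32) (nat_lit 0) (nat_lit 2) (@Lb.g g6 (@Lb.r r1284 (@Lb.r r2475 (@Lb.r r2394 (@Lb.r r2145 (@Lb.d (nat_lit 354) (nat_lit 0) (nat_lit 394) (@Lb.t (@Lb.fp (nat_lit 3) t1242)))))))))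
noncomputable def l41840 : Lb := (@Lb.d (nat_lit 0) (nat_lit 2) (nat_lit 130) (@Lb.g g8 (@Lb.g g9 (@Lb.g g10 (@Lb.g g11 (@Lb.r r169 (@Lb.r r424 (@Lb.r r263 (@Lb.r r98 (@Lb.r r516 (@Lb.d (nat_lit 1) (nat_lit 86) (nat_lit 360) (@Lb.fp (nat_lit 9) t153))))))))))))
noncomputable def l41841 : Lb := (@Lb.d (nat_lit 16) (nat_lit 530) (nat_lit 2) (@Lb.g g8 (@Lb.g g5 (@Lb.g g10 (@Lb.r r2587 (@Lb.r r1624 (@Lb.r r1126 (@Lb.d (nat_lit 293) (nat_lit 86) (nat_lit 644) (@Lb.t (@Lb.fp (nat_lit 9) t7201))))))))))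
noncomputable def l41842 : Lb := (@Lb.g g8 (@Lb.g g9 (@Lb.r r89 (@Lb.r r1126 (@Lb.r r24 (@Lb.d (nat_lit 576) (nat_lit 512) (nat_lit 592) (@Lb.fp (nat_lit 3) t3993)))))))
noncomputable def l41843 : Lb := (@Lb.r r70 (@Lb.d (nat_lit 34) (nat_lit 0) (nat_lit 0) (@Lb.g g8 (@Lb.g g9 (@Lb.g g11 (@Lb.r r2454 (@Lb.r r2632 (@Lb.d (nat_lit 150) (nat_lit 128) (nat_lit 394) (@Lb.t (@Lb.fm (nat_lit 9) t7202))))))))))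
noncomputable def l41844 : Lb := (@Lb.d (nat_lit 0) (nat_lit 512) (nat_lit 130) (@Lb.g g9 (@Lb.g g10 (@Lb.g g11 (@Lb.r r1307 (@Lb.r r2709 (@Lb.r r2646 (@Lb.r r1416 (@Lb.d (nat_lit 106) (nat_lit 6) (nat_lit 597) (@Lb.t (@Lb.fp (nat_lit 9) t528)))))))))))
noncomputable def l41845 : Lb := (@Lb.d (nat_lit 608) (nat_lit 66) (nat_lit 609) (@Lb.r r1284 (@Lb.r r1297 (@Lb.r r1315 (@Lb.r r405 (@Lb.g g7 (@Lb.g g10 (@Lb.g g5 (@Lb.g g4 (@Lb.d (nat_lit 1) (nat_lit 1) (nat_lit 150) (@Lb.fm (nat_lit 9) t7203)))))))))))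
noncomputable def l41846 : Lb := (@Lb.r r70 (@Lb.d (nat_lit 134) (nat_lit 68) (nat_lit 128) (@Lb.g g8 (@Lb.g g9 (@Lb.g g11 (@Lb.r r2475 (@Lb.r r1122 (@Lb.r r420 (@Lb.d (nat_lit 672) (nat_lit 24) (nat_lit 680) (@Lb.t (@Lb.fm (nat_lit 9) t7204)))))))))))
noncomputable def l41847 : Lb := (@Lb.d (nat_lit 134) (nat_lit 64) (nat_lit 66) (@Lb.g g8 (@Lb.g g9 (@Lb.g g10 (@Lb.g g11 (@Lb.r r2475 (@Lb.r r1130 (@Lb.r r2084 (@Lb.d (nat_lit 296) (nat_lit 9) (nat_lit 408) (@Lb.fp (nat_lit 9) t7205))))))))))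
noncomputable def l41848 : Lb := (@Lb.d (nat_lit 38) (nat_lit 260) (nat_lit 128) (@Lb.g g8 (@Lb.g g9 (@Lb.g g10 (@Lb.g g11 (@Lb.r r1699 (@Lb.r r164 (@Lb.r r661 (@Lb.r r1622 (@Lb.r r1060 (@Lb.d (nat_lit 657) (nat_lit 102) (nat_lit 586) (@Lb.fm (nat_lit 9) t7206))))))))))))
noncomputable def l41849 : Lb := (@Lb.r r68 (@Lb.d (nat_lit 0) (nat_lit 32) (nat_lit 74) (@Lb.g g10 (@Lb.g g11 (@Lb.r r353 (@Lb.r r2451 (@Lb.r r2084 (@Lb.d (nat_lit 2) (nat_lit 152) (nat_lit 665) (@Lb.fp (nat_lit 3) t765)))))))))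
noncomputable def l41850 : Lb := (@Lb.d (nat_lit 278) (nat_lit 38) (nat_lit 324) (@Lb.r r2120 (@Lb.r r386 (@Lb.r r1367 (@Lb.g g6 (@Lb.g g5 (@Lb.g g4 (@Lb.d (nat_lit 1) (nat_lit 66) (nat_lit 1) (@Lb.t (@Lb.fp (nat_lit 9) t7207))))))))))
noncomputable def l41851 : Lb := (@Lb.d (nat_lit 385) (nat_lit 4) (nat_lit 85) (@Lb.r r580 (@Lb.r r597 (@Lb.r r1386 (@Lb.r r1415 (@Lb.g g5 (@Lb.g g4 (@Lb.d (nat_lit 24) (nat_lit 0) (nat_lit 0) (@Lb.fm (nat_lit 3) t7208)))))))))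
noncomputable def l41852 : Lb := (@Lb.d (nat_lit 0) (nat_lit 0) (nat_lit 128) (@Lb.g g11 (@Lb.r r277 (@Lb.r r2467 (@Lb.r r1414 (@Lb.r r1124 (@Lb.d (nat_lit 262) (nat_lit 18) (nat_lit 272) (@Lb.t (@Lb.fm (nat_lit 3) t2567)))))))))
noncomputable def l41853 : Lb := (@Lb.r r86 (@Lb.d (nat_lit 8) (nat_lit 16) (nat_lit 128) (@Lb.g g8 (@Lb.g g9 (@Lb.g g11 (@Lb.r r1547 (@Lb.r r1410 (@Lb.r r148 (@Lb.r r601 (@Lb.d (nat_lit 617) (nat_lit 32) (nat_lit 2) (@Lb.t (@Lb.fm (nat_lit 9) t7209))))))))))))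
noncomputable def l41854 : Lb := (@Lb.d (nat_lit 10) (nat_lit 256) (nat_lit 74) (@Lb.g g8 (@Lb.g g10 (@Lb.g g11 (@Lb.r r2730 (@Lb.r r2321 (@Lb.r r1639 (@Lb.r r2436 (@Lb.d (nat_lit 682) (nat_lit 97) (nat_lit 277) (@Lb.t (@Lb.fm (nat_lit 9) t2902)))))))))))
noncomputable def l41855 : Lb := (@Lb.r r70 (@Lb.d (nat_lit 34) (nat_lit 256) (nat_lit 128) (@Lb.g g8 (@Lb.g g9 (@Lb.g g11 (@Lb.r r1611 (@Lb.r r2454 (@Lb.r r2632 (@Lb.d (nat_lit 150) (nat_lit 1) (nat_lit 137) (@Lb.t (@Lb.fp (nat_lit 9) t5918)))))))))))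
noncomputable def l41856 : Lb := (@Lb.r r70 (@Lb.d (nat_lit 129) (nat_lit 0) (nat_lit 64) (@Lb.g g8 (@Lb.g g9 (@Lb.g g11 (@Lb.r r1547 (@Lb.r r2454 (@Lb.r r2632 (@Lb.d (nat_lit 384) (nat_lit 69) (nat_lit 153) (@Lb.t (@Lb.fp (nat_lit 9) t5918)))))))))))
noncomputable def l41857 : Lb := (@Lb.d (nat_lit 537) (nat_lit 8) (nat_lit 0) (@Lb.r r2641 (@Lb.r r279 (@Lb.r r584 (@Lb.g g6 (@Lb.g g5 (@Lb.d (nat_lit 20) (nat_lit 1) (nat_lit 1) (@Lb.r r387 (@Lb.fp (nat_lit 3) t2304)))))))))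
noncomputable def l41858 : Lb := (@Lb.d (nat_lit 128) (nat_lit 272) (nat_lit 386) (@Lb.g g10 (@Lb.g g11 (@Lb.r r161 (@Lb.r r98 (@Lb.r r1416 (@Lb.d (nat_lit 274) (nat_lit 8) (nat_lit 145) (@Lb.fm (nat_lit 3) t1127))))))))
noncomputable def l41859 : Lb := (@Lb.d (nat_lit 149) (nat_lit 338) (nat_lit 513) (@Lb.r r289 (@Lb.r r70 (@Lb.r r420 (@Lb.g g11 (@Lb.g g6 (@Lb.d (nat_lit 16) (nat_lit 0) (nat_lit 6) (@Lb.fm (nat_lit 3) t6656))))))))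
noncomputable def l41860 : Lb := (@Lb.d (nat_lit 518) (nat_lit 129) (nat_lit 32) (@Lb.r r1637 (@Lb.r r2328 (@Lb.r r386 (@Lb.r r1575 (@Lb.g g5 (@Lb.r r98 (@Lb.t (@Lb.fm (nat_lit 3) t2484)))))))))
noncomputable def l41861 : Lb := (@Lb.d (nat_lit 518) (nat_lit 646) (nat_lit 33) (@Lb.r r1637 (@Lb.r r2328 (@Lb.r r386 (@Lb.r r1575 (@Lb.g g5 (@Lb.d (nat_lit 4) (nat_lit 1) (nat_lit 0) (@Lb.r r98 (@Lb.t (@Lb.fm (nat_lit 3) t7210))))))))))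
noncomputable def l41862 : Lb := (@Lb.g g4 (@Lb.g g5 (@Lb.g g6 (@Lb.d (nat_lit 1) (nat_lit 256) (nat_lit 0) (@Lb.t (@Lb.fp (nat_lit 9) t2))))))
noncomputable def l41863 : Lb := (@Lb.d (nat_lit 10) (nat_lit 2) (nat_lit 0) (@Lb.g g6 (@Lb.g g5 (@Lb.fm (nat_lit 3) t2))))
noncomputable def l41864 : Lb := (@Lb.d (nat_lit 137) (nat_lit 514) (nat_lit 384) (@Lb.r r1096 (@Lb.r r363 (@Lb.r r289 (@Lb.r r2150 (@Lb.g g11 (@Lb.g g4 (@Lb.fp (nat_lit 3) t1040))))))))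
noncomputable def l41865 : Lb := (@Lb.g g4 (@Lb.g g5 (@Lb.g g6 (@Lb.t (@Lb.p (nat_lit 2) (@Lb.fp (nat_lit 9) t2))))))
noncomputable def l41866 : Lb := (@Lb.r r323 (@Lb.d (nat_lit 394) (nat_lit 256) (nat_lit 4) (@Lb.g g8 (@Lb.g g6 (@Lb.r r2659 (@Lb.d (nat_lit 9) (nat_lit 145) (nat_lit 17) (@Lb.fm (nat_lit 3) t7211)))))))
noncomputable def l41867 : Lb := (@Lb.d (nat_lit 608) (nat_lit 578) (nat_lit 548) (@Lb.r r276 (@Lb.r r537 (@Lb.r r1563 (@Lb.r r676 (@Lb.g g7 (@Lb.g g10 (@Lb.g g5 (@Lb.g g4 (@Lb.d (nat_lit 6) (nat_lit 2) (nat_lit 145) (@Lb.fp (nat_lit 9) t4749)))))))))))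
noncomputable def l41868 : Lb := (@Lb.r r20 (@Lb.r r82 (@Lb.d (nat_lit 4) (nat_lit 416) (nat_lit 72) (@Lb.g g5 (@Lb.g g11 (@Lb.r r1624 (@Lb.r r2438 (@Lb.r r1611 (@Lb.d (nat_lit 617) (nat_lit 129) (nat_lit 514) (@Lb.fm (nat_lit 3) t5957))))))))))
noncomputable def l41869 : Lb := (@Lb.r r21 (@Lb.d (nat_lit 137) (nat_lit 512) (nat_lit 66) (@Lb.g g8 (@Lb.g g10 (@Lb.g g11 (@Lb.r r1178 (@Lb.r r597 (@Lb.r r663 (@Lb.r r1380 (@Lb.d (nat_lit 134) (nat_lit 40) (nat_lit 37) (@Lb.t (@Lb.fm (nat_lit 9) t7212))))))))))))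
noncomputable def l41870 : Lb := (@Lb.d (nat_lit 2) (nat_lit 384) (nat_lit 640) (@Lb.r r2341 (@Lb.r r1624 (@Lb.r r2438 (@Lb.g g11 (@Lb.d (nat_lit 0) (nat_lit 0) (nat_lit 128) (@Lb.t (@Lb.fm (nat_lit 3) t635))))))))
noncomputable def l41871 : Lb := (@Lb.d (nat_lit 648) (nat_lit 288) (nat_lit 261) (@Lb.r r2145 (@Lb.r r1350 (@Lb.r r2180 (@Lb.r r659 (@Lb.g g7 (@Lb.g g6 (@Lb.d (nat_lit 16) (nat_lit 0) (nat_lit 133) (@Lb.fm (nat_lit 3) t7213)))))))))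
noncomputable def l41872 : Lb := (@Lb.d (nat_lit 642) (nat_lit 512) (nat_lit 9) (@Lb.g g8 (@Lb.g g10 (@Lb.g g11 (@Lb.r r1666 (@Lb.r r1411 (@Lb.d (nat_lit 0) (nat_lit 0) (nat_lit 329) (@Lb.t (@Lb.fp (nat_lit 9) t2314)))))))))
noncomputable def l41873 : Lb := (@Lb.d (nat_lit 426) (nat_lit 105) (nat_lit 521) (@Lb.r r1705 (@Lb.r r427 (@Lb.g g10 (@Lb.g g5 (@Lb.g g4 (@Lb.d (nat_lit 8) (nat_lit 22) (nat_lit 34) (@Lb.r r403 (@Lb.t (@Lb.fp (nat_lit 9) t2211))))))))))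
noncomputable def l41874 : Lb := (@Lb.r r323 (@Lb.d (nat_lit 2) (nat_lit 514) (nat_lit 2) (@Lb.g g8 (@Lb.g g9 (@Lb.g g10 (@Lb.r r401 (@Lb.r r299 (@Lb.r r420 (@Lb.r r102 (@Lb.d (nat_lit 22) (nat_lit 68) (nat_lit 152) (@Lb.t (@Lb.fm (nat_lit 9) t1022))))))))))))
noncomputable def l41875 : Lb := (@Lb.g g9 (@Lb.r r2403 (@Lb.r r594 (@Lb.r r2449 (@Lb.r r24 (@Lb.d (nat_lit 321) (nat_lit 394) (nat_lit 546) (@Lb.t (@Lb.fm (nat_lit 3) t7214))))))))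
noncomputable def l41876 : Lb := (@Lb.d (nat_lit 402) (nat_lit 422) (nat_lit 165) (@Lb.r r1682 (@Lb.r r579 (@Lb.g g7 (@Lb.g g6 (@Lb.g g5 (@Lb.d (nat_lit 4) (nat_lit 6) (nat_lit 132) (@Lb.t (@Lb.fp (nat_lit 9) t6788)))))))))
noncomputable def l41877 : Lb := (@Lb.r r70 (@Lb.g g4 (@Lb.g g11 (@Lb.r r1607 (@Lb.r r1410 (@Lb.r r2145 (@Lb.r r1096 (@Lb.d (nat_lit 576) (nat_lit 512) (nat_lit 608) (@Lb.fp (nat_lit 3) t98)))))))))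
noncomputable def l41878 : Lb := (@Lb.d (nat_lit 26) (nat_lit 32) (nat_lit 64) (@Lb.g g8 (@Lb.g g9 (@Lb.g g10 (@Lb.g g11 (@Lb.r r2375 (@Lb.r r2390 (@Lb.r r612 (@Lb.r r1557 (@Lb.d (nat_lit 165) (nat_lit 9) (nat_lit 273) (@Lb.fp (nat_lit 9) t6364)))))))))))
noncomputable def l41879 : Lb := (@Lb.d (nat_lit 26) (nat_lit 530) (nat_lit 0) (@Lb.g g8 (@Lb.g g9 (@Lb.g g10 (@Lb.g g11 (@Lb.r r1675 (@Lb.r r660 (@Lb.r r2182 (@Lb.r r1313 (@Lb.d (nat_lit 617) (nat_lit 104) (nat_lit 145) (@Lb.fm (nat_lit 9) t6364)))))))))))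
noncomputable def l41880 : Lb := (@Lb.d (nat_lit 145) (nat_lit 0) (nat_lit 130) (@Lb.g g8 (@Lb.g g10 (@Lb.g g11 (@Lb.r r1707 (@Lb.r r362 (@Lb.r r537 (@Lb.r r1540 (@Lb.d (nat_lit 649) (nat_lit 153) (nat_lit 421) (@Lb.t (@Lb.fp (nat_lit 9) t764)))))))))))
noncomputable def l41881 : Lb := (@Lb.r r70 (@Lb.r r263 (@Lb.d (nat_lit 10) (nat_lit 545) (nat_lit 0) (@Lb.g g8 (@Lb.g g9 (@Lb.r r2315 (@Lb.r r2468 (@Lb.r r390 (@Lb.d (nat_lit 0) (nat_lit 130) (nat_lit 0) (@Lb.fp (nat_lit 3) t1260))))))))))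
noncomputable def l41882 : Lb := (@Lb.r r70 (@Lb.d (nat_lit 9) (nat_lit 257) (nat_lit 0) (@Lb.g g8 (@Lb.g g9 (@Lb.g g11 (@Lb.r r1611 (@Lb.r r418 (@Lb.r r145 (@Lb.r r1060 (@Lb.d (nat_lit 325) (nat_lit 72) (nat_lit 610) (@Lb.t (@Lb.fm (nat_lit 9) t98))))))))))))
noncomputable def l41883 : Lb := (@Lb.r r70 (@Lb.d (nat_lit 128) (nat_lit 514) (nat_lit 128) (@Lb.g g8 (@Lb.g g9 (@Lb.g g11 (@Lb.r r2660 (@Lb.r r2599 (@Lb.r r1114 (@Lb.r r37 (@Lb.d (nat_lit 584) (nat_lit 6) (nat_lit 585) (@Lb.t (@Lb.fm (nat_lit 9) t4622))))))))))))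
noncomputable def l41884 : Lb := (@Lb.d (nat_lit 26) (nat_lit 18) (nat_lit 0) (@Lb.g g8 (@Lb.g g9 (@Lb.g g10 (@Lb.g g11 (@Lb.r r1675 (@Lb.r r346 (@Lb.r r293 (@Lb.r r2072 (@Lb.d (nat_lit 553) (nat_lit 25) (nat_lit 409) (@Lb.fm (nat_lit 9) t606)))))))))))
noncomputable def l41885 : Lb := (@Lb.r r331 (@Lb.d (nat_lit 166) (nat_lit 5) (nat_lit 0) (@Lb.g g8 (@Lb.g g9 (@Lb.g g10 (@Lb.r r1433 (@Lb.r r2343 (@Lb.r r1604 (@Lb.r r1098 (@Lb.d (nat_lit 337) (nat_lit 138) (nat_lit 136) (@Lb.t (@Lb.fm (nat_lit 9) t1846))))))))))))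
noncomputable def l41886 : Lb := (@Lb.d (nat_lit 0) (nat_lit 544) (nat_lit 130) (@Lb.g g8 (@Lb.g g10 (@Lb.g g11 (@Lb.r r618 (@Lb.r r149 (@Lb.r r360 (@Lb.r r2567 (@Lb.d (nat_lit 645) (nat_lit 24) (nat_lit 258) (@Lb.t (@Lb.fm (nat_lit 9) t71)))))))))))
noncomputable def l41887 : Lb := (@Lb.d (nat_lit 144) (nat_lit 2) (nat_lit 128) (@Lb.g g8 (@Lb.g g9 (@Lb.g g10 (@Lb.g g11 (@Lb.r r2722 (@Lb.r r2439 (@Lb.r r145 (@Lb.r r2632 (@Lb.d (nat_lit 610) (nat_lit 133) (nat_lit 424) (@Lb.fp (nat_lit 9) t3204)))))))))))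
noncomputable def l41888 : Lb := (@Lb.r r331 (@Lb.d (nat_lit 37) (nat_lit 512) (nat_lit 2) (@Lb.g g8 (@Lb.g g9 (@Lb.g g10 (@Lb.r r2454 (@Lb.r r1371 (@Lb.r r549 (@Lb.r r2708 (@Lb.d (nat_lit 293) (nat_lit 101) (nat_lit 150) (@Lb.t (@Lb.fm (nat_lit 9) t163))))))))))))
noncomputable def l41889 : Lb := (@Lb.d (nat_lit 149) (nat_lit 512) (nat_lit 64) (@Lb.g g8 (@Lb.g g9 (@Lb.g g10 (@Lb.g g11 (@Lb.r r427 (@Lb.r r1602 (@Lb.r r409 (@Lb.r r388 (@Lb.d (nat_lit 105) (nat_lit 106) (nat_lit 73) (@Lb.fp (nat_lit 9) t898)))))))))))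
noncomputable def l41890 : Lb := (@Lb.d (nat_lit 0) (nat_lit 544) (nat_lit 73) (@Lb.g g8 (@Lb.g g10 (@Lb.g g11 (@Lb.r r618 (@Lb.r r149 (@Lb.r r328 (@Lb.r r2599 (@Lb.d (nat_lit 649) (nat_lit 98) (nat_lit 256) (@Lb.t (@Lb.fm (nat_lit 9) t71)))))))))))
noncomputable def l41891 : Lb := (@Lb.d (nat_lit 4) (nat_lit 264) (nat_lit 74) (@Lb.g g8 (@Lb.g g10 (@Lb.g g11 (@Lb.r r2723 (@Lb.r r2129 (@Lb.r r418 (@Lb.d (nat_lit 4) (nat_lit 73) (nat_lit 610) (@Lb.t (@Lb.fm (nat_lit 9) t7215))))))))))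
noncomputable def l41892 : Lb := (@Lb.d (nat_lit 4) (nat_lit 520) (nat_lit 74) (@Lb.g g8 (@Lb.g g10 (@Lb.g g11 (@Lb.r r2723 (@Lb.r r2129 (@Lb.r r418 (@Lb.d (nat_lit 2) (nat_lit 72) (nat_lit 610) (@Lb.t (@Lb.fm (nat_lit 9) t2044))))))))))
noncomputable def l41893 : Lb := (@Lb.d (nat_lit 6) (nat_lit 168) (nat_lit 292) (@Lb.r r21 (@Lb.r r1366 (@Lb.r r683 (@Lb.g g6 (@Lb.g g5 (@Lb.g g4 (@Lb.d (nat_lit 8) (nat_lit 0) (nat_lit 1) (@Lb.t (@Lb.fm (nat_lit 9) t2877))))))))))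
noncomputable def l41894 : Lb := (@Lb.d (nat_lit 2) (nat_lit 512) (nat_lit 73) (@Lb.g g8 (@Lb.g g9 (@Lb.g g10 (@Lb.g g11 (@Lb.r r2583 (@Lb.r r1450 (@Lb.r r2145 (@Lb.r r24 (@Lb.d (nat_lit 296) (nat_lit 73) (nat_lit 73) (@Lb.fp (nat_lit 9) t1172)))))))))))
noncomputable def l41895 : Lb := (@Lb.d (nat_lit 4) (nat_lit 513) (nat_lit 2) (@Lb.g g8 (@Lb.g g9 (@Lb.g g10 (@Lb.r r2731 (@Lb.r r1642 (@Lb.r r1561 (@Lb.d (nat_lit 586) (nat_lit 100) (nat_lit 416) (@Lb.t (@Lb.fp (nat_lit 9) t324))))))))))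
noncomputable def l41896 : Lb := (@Lb.r r323 (@Lb.d (nat_lit 4) (nat_lit 0) (nat_lit 18) (@Lb.g g8 (@Lb.g g6 (@Lb.r r1569 (@Lb.r r2659 (@Lb.d (nat_lit 2) (nat_lit 80) (nat_lit 100) (@Lb.fp (nat_lit 3) t7216))))))))
noncomputable def l41897 : Lb := (@Lb.d (nat_lit 6) (nat_lit 517) (nat_lit 0) (@Lb.g g4 (@Lb.g g9 (@Lb.g g10 (@Lb.g g7 (@Lb.r r386 (@Lb.r r1637 (@Lb.d (nat_lit 8) (nat_lit 146) (nat_lit 10) (@Lb.fp (nat_lit 9) t4297)))))))))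
noncomputable def l41898 : Lb := (@Lb.d (nat_lit 130) (nat_lit 514) (nat_lit 130) (@Lb.g g8 (@Lb.g g9 (@Lb.g g10 (@Lb.g g11 (@Lb.r r2403 (@Lb.r r386 (@Lb.r r1625 (@Lb.r r2580 (@Lb.d (nat_lit 385) (nat_lit 98) (nat_lit 329) (@Lb.fm (nat_lit 9) t2420)))))))))))
noncomputable def l41899 : Lb := (@Lb.r r21 (@Lb.d (nat_lit 10) (nat_lit 256) (nat_lit 2) (@Lb.g g8 (@Lb.g g10 (@Lb.r r667 (@Lb.r r2405 (@Lb.r r1178 (@Lb.r r1156 (@Lb.d (nat_lit 345) (nat_lit 70) (nat_lit 338) (@Lb.fp (nat_lit 3) t1046))))))))))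
noncomputable def l41900 : Lb := (@Lb.d (nat_lit 8) (nat_lit 97) (nat_lit 0) (@Lb.r r97 (@Lb.r r2454 (@Lb.g g4 (@Lb.d (nat_lit 17) (nat_lit 0) (nat_lit 0) (@Lb.r r74 (@Lb.r r25 (@Lb.t (@Lb.fm (nat_lit 3) t4720)))))))))
noncomputable def l41901 : Lb := (@Lb.d (nat_lit 9) (nat_lit 258) (nat_lit 73) (@Lb.g g8 (@Lb.g g9 (@Lb.g g10 (@Lb.g g11 (@Lb.r r2658 (@Lb.r r2436 (@Lb.d (nat_lit 608) (nat_lit 89) (nat_lit 549) (@Lb.fp (nat_lit 9) t3153)))))))))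
noncomputable def l41902 : Lb := (@Lb.d (nat_lit 8) (nat_lit 1) (nat_lit 130) (@Lb.g g8 (@Lb.g g9 (@Lb.g g10 (@Lb.g g11 (@Lb.r r1426 (@Lb.r r1371 (@Lb.r r2457 (@Lb.r r2436 (@Lb.d (nat_lit 666) (nat_lit 8) (nat_lit 393) (@Lb.fm (nat_lit 9) t2103)))))))))))
noncomputable def l41903 : Lb := (@Lb.d (nat_lit 106) (nat_lit 513) (nat_lit 9) (@Lb.g g8 (@Lb.g g9 (@Lb.g g10 (@Lb.g g11 (@Lb.r r2691 (@Lb.r r1193 (@Lb.r r1642 (@Lb.r r596 (@Lb.d (nat_lit 598) (nat_lit 17) (nat_lit 516) (@Lb.fp (nat_lit 9) t2175)))))))))))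
noncomputable def l41904 : Lb := (@Lb.g g4 (@Lb.g g6 (@Lb.g g7 (@Lb.r r2631 (@Lb.d (nat_lit 578) (nat_lit 401) (nat_lit 96) (@Lb.t (@Lb.fm (nat_lit 9) t2612)))))))
noncomputable def l41905 : Lb := (@Lb.d (nat_lit 104) (nat_lit 257) (nat_lit 4) (@Lb.g g8 (@Lb.g g9 (@Lb.g g10 (@Lb.g g11 (@Lb.r r1642 (@Lb.r r2631 (@Lb.r r2152 (@Lb.r r25 (@Lb.d (nat_lit 129) (nat_lit 1) (nat_lit 85) (@Lb.fp (nat_lit 9) t3407)))))))))))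
noncomputable def l41906 : Lb := (@Lb.r r21 (@Lb.d (nat_lit 144) (nat_lit 512) (nat_lit 64) (@Lb.g g8 (@Lb.g g10 (@Lb.g g11 (@Lb.r r2475 (@Lb.r r2401 (@Lb.r r1170 (@Lb.r r2120 (@Lb.d (nat_lit 532) (nat_lit 69) (nat_lit 145) (@Lb.t (@Lb.fp (nat_lit 9) t1))))))))))))
noncomputable def l41907 : Lb := (@Lb.r r21 (@Lb.d (nat_lit 2) (nat_lit 512) (nat_lit 73) (@Lb.g g8 (@Lb.g g10 (@Lb.g g11 (@Lb.r r2634 (@Lb.r r579 (@Lb.r r97 (@Lb.r r72 (@Lb.d (nat_lit 128) (nat_lit 10) (nat_lit 325) (@Lb.t (@Lb.fp (nat_lit 9) t61))))))))))))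
noncomputable def l41908 : Lb := (@Lb.d (nat_lit 2) (nat_lit 261) (nat_lit 74) (@Lb.g g8 (@Lb.g g9 (@Lb.g g10 (@Lb.g g11 (@Lb.r r2667 (@Lb.r r1610 (@Lb.r r660 (@Lb.r r425 (@Lb.r r36 (@Lb.d (nat_lit 533) (nat_lit 104) (nat_lit 329) (@Lb.fp (nat_lit 9) t658))))))))))))
noncomputable def l41909 : Lb := (@Lb.r r355 (@Lb.d (nat_lit 6) (nat_lit 514) (nat_lit 18) (@Lb.g g8 (@Lb.g g9 (@Lb.g g6 (@Lb.r r1635 (@Lb.r r593 (@Lb.d (nat_lit 2) (nat_lit 170) (nat_lit 649) (@Lb.t (@Lb.fm (nat_lit 9) t1399))))))))))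
noncomputable def l41910 : Lb := (@Lb.d (nat_lit 6) (nat_lit 256) (nat_lit 2) (@Lb.g g8 (@Lb.g g9 (@Lb.g g10 (@Lb.r r2723 (@Lb.r r1634 (@Lb.r r1553 (@Lb.d (nat_lit 2) (nat_lit 100) (nat_lit 416) (@Lb.t (@Lb.fp (nat_lit 9) t324))))))))))
noncomputable def l41911 : Lb := (@Lb.d (nat_lit 128) (nat_lit 288) (nat_lit 72) (@Lb.g g11 (@Lb.r r2410 (@Lb.r r361 (@Lb.r r1384 (@Lb.r r2583 (@Lb.d (nat_lit 644) (nat_lit 162) (nat_lit 260) (@Lb.t (@Lb.fm (nat_lit 3) t386)))))))))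
noncomputable def l41912 : Lb := (@Lb.r r21 (@Lb.d (nat_lit 385) (nat_lit 520) (nat_lit 66) (@Lb.g g8 (@Lb.g g10 (@Lb.g g11 (@Lb.r r1419 (@Lb.r r101 (@Lb.r r410 (@Lb.d (nat_lit 8) (nat_lit 149) (nat_lit 649) (@Lb.t (@Lb.fm (nat_lit 9) t2443)))))))))))
noncomputable def l41913 : Lb := (@Lb.g g4 (@Lb.r r402 (@Lb.d (nat_lit 6) (nat_lit 584) (nat_lit 514) (@Lb.t (@Lb.fp (nat_lit 3) t387)))))
noncomputable def l41914 : Lb := (@Lb.d (nat_lit 400) (nat_lit 649) (nat_lit 390) (@Lb.r r24 (@Lb.r r1313 (@Lb.r r1442 (@Lb.r r2691 (@Lb.g g7 (@Lb.g g6 (@Lb.g g5 (@Lb.d (nat_lit 0) (nat_lit 6) (nat_lit 66) (@Lb.t (@Lb.fp (nat_lit 9) t7217)))))))))))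
noncomputable def l41915 : Lb := (@Lb.d (nat_lit 409) (nat_lit 537) (nat_lit 73) (@Lb.g g8 (@Lb.g g9 (@Lb.g g10 (@Lb.g g11 (@Lb.r r2475 (@Lb.r r1602 (@Lb.r r409 (@Lb.d (nat_lit 152) (nat_lit 66) (nat_lit 278) (@Lb.fp (nat_lit 9) t7218))))))))))
noncomputable def l41916 : Lb := (@Lb.d (nat_lit 409) (nat_lit 514) (nat_lit 130) (@Lb.g g8 (@Lb.g g9 (@Lb.g g10 (@Lb.g g11 (@Lb.r r1451 (@Lb.r r2626 (@Lb.r r2457 (@Lb.d (nat_lit 408) (nat_lit 66) (nat_lit 262) (@Lb.fp (nat_lit 9) t7219))))))))))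
noncomputable def l41917 : Lb := (@Lb.d (nat_lit 1) (nat_lit 512) (nat_lit 73) (@Lb.g g8 (@Lb.g g10 (@Lb.g g11 (@Lb.r r2345 (@Lb.r r535 (@Lb.r r2468 (@Lb.r r2438 (@Lb.d (nat_lit 160) (nat_lit 5) (nat_lit 70) (@Lb.t (@Lb.fp (nat_lit 9) t6348)))))))))))
noncomputable def l41918 : Lb := (@Lb.d (nat_lit 256) (nat_lit 256) (nat_lit 410) (@Lb.r r402 (@Lb.r r101 (@Lb.g g7 (@Lb.t (@Lb.fm (nat_lit 3) t1618))))))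
noncomputable def l41919 : Lb := (@Lb.d (nat_lit 4) (nat_lit 394) (nat_lit 81) (@Lb.r r24 (@Lb.r r1313 (@Lb.r r1442 (@Lb.r r2691 (@Lb.g g7 (@Lb.g g6 (@Lb.g g5 (@Lb.d (nat_lit 0) (nat_lit 6) (nat_lit 66) (@Lb.t (@Lb.fp (nat_lit 9) t2518)))))))))))
noncomputable def l41920 : Lb := (@Lb.d (nat_lit 33) (nat_lit 32) (nat_lit 8) (@Lb.g g4 (@Lb.g g7 (@Lb.r r81 (@Lb.r r162 (@Lb.r r145 (@Lb.d (nat_lit 361) (nat_lit 101) (nat_lit 594) (@Lb.fp (nat_lit 3) t5502))))))))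
noncomputable def l41921 : Lb := (@Lb.d (nat_lit 0) (nat_lit 41) (nat_lit 660) (@Lb.r r1061 (@Lb.r r1126 (@Lb.r r2456 (@Lb.g g11 (@Lb.g g6 (@Lb.d (nat_lit 0) (nat_lit 0) (nat_lit 385) (@Lb.r r529 (@Lb.fp (nat_lit 3) t3292)))))))))
noncomputable def l41922 : Lb := (@Lb.d (nat_lit 130) (nat_lit 1) (nat_lit 66) (@Lb.g g8 (@Lb.g g9 (@Lb.g g10 (@Lb.g g11 (@Lb.r r424 (@Lb.r r2647 (@Lb.r r2469 (@Lb.r r2470 (@Lb.r r20 (@Lb.d (nat_lit 361) (nat_lit 146) (nat_lit 89) (@Lb.fp (nat_lit 9) t2239))))))))))))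
noncomputable def l41923 : Lb := (@Lb.d (nat_lit 289) (nat_lit 512) (nat_lit 0) (@Lb.g g4 (@Lb.r r273 (@Lb.r r2595 (@Lb.r r2178 (@Lb.r r529 (@Lb.d (nat_lit 288) (nat_lit 10) (nat_lit 86) (@Lb.t (@Lb.fm (nat_lit 3) t1561)))))))))
noncomputable def l41924 : Lb := (@Lb.d (nat_lit 389) (nat_lit 657) (nat_lit 641) (@Lb.r r1560 (@Lb.r r101 (@Lb.g g6 (@Lb.g g4 (@Lb.d (nat_lit 32) (nat_lit 4) (nat_lit 36) (@Lb.r r145 (@Lb.fm (nat_lit 3) t4297))))))))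
noncomputable def l41925 : Lb := (@Lb.d (nat_lit 0) (nat_lit 258) (nat_lit 73) (@Lb.g g8 (@Lb.g g9 (@Lb.g g10 (@Lb.g g11 (@Lb.r r2691 (@Lb.r r536 (@Lb.r r2197 (@Lb.r r2646 (@Lb.r r164 (@Lb.d (nat_lit 136) (nat_lit 2) (nat_lit 298) (@Lb.fp (nat_lit 9) t991))))))))))))
noncomputable def l41926 : Lb := (@Lb.r r331 (@Lb.d (nat_lit 33) (nat_lit 260) (nat_lit 2) (@Lb.g g8 (@Lb.g g9 (@Lb.g g10 (@Lb.r r2466 (@Lb.r r1383 (@Lb.r r2329 (@Lb.r r1108 (@Lb.d (nat_lit 290) (nat_lit 162) (nat_lit 385) (@Lb.t (@Lb.fp (nat_lit 9) t2394))))))))))))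
noncomputable def l41927 : Lb := (@Lb.d (nat_lit 289) (nat_lit 288) (nat_lit 128) (@Lb.g g4 (@Lb.g g11 (@Lb.r r1361 (@Lb.r r1699 (@Lb.r r2178 (@Lb.d (nat_lit 288) (nat_lit 24) (nat_lit 273) (@Lb.fp (nat_lit 3) t1561))))))))
noncomputable def l41928 : Lb := (@Lb.d (nat_lit 608) (nat_lit 512) (nat_lit 357) (@Lb.r r1604 (@Lb.g g11 (@Lb.g g8 (@Lb.fm (nat_lit 3) t3143)))))
noncomputable def l41929 : Lb := (@Lb.r r273 (@Lb.r r2595 (@Lb.r r2178 (@Lb.r r529 (@Lb.r r1156 (@Lb.d (nat_lit 529) (nat_lit 266) (nat_lit 69) (@Lb.fp (nat_lit 1) t1561)))))))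
noncomputable def l41930 : Lb := (@Lb.d (nat_lit 337) (nat_lit 261) (nat_lit 600) (@Lb.r r2438 (@Lb.r r1620 (@Lb.r r425 (@Lb.g g11 (@Lb.g g5 (@Lb.g g4 (@Lb.d (nat_lit 1) (nat_lit 1) (nat_lit 392) (@Lb.r r98 (@Lb.t (@Lb.fm (nat_lit 9) t971)))))))))))
noncomputable def l41931 : Lb := (@Lb.d (nat_lit 665) (nat_lit 320) (nat_lit 289) (@Lb.r r2341 (@Lb.r r1624 (@Lb.r r1627 (@Lb.g g6 (@Lb.g g5 (@Lb.d (nat_lit 16) (nat_lit 0) (nat_lit 1) (@Lb.r r387 (@Lb.fp (nat_lit 3) t5849)))))))))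
noncomputable def l41932 : Lb := (@Lb.d (nat_lit 288) (nat_lit 662) (nat_lit 549) (@Lb.r r1361 (@Lb.r r419 (@Lb.r r1382 (@Lb.r r152 (@Lb.g g7 (@Lb.g g5 (@Lb.d (nat_lit 68) (nat_lit 5) (nat_lit 128) (@Lb.fp (nat_lit 3) t5506)))))))))
noncomputable def l41933 : Lb := (@Lb.r r21 (@Lb.d (nat_lit 134) (nat_lit 512) (nat_lit 130) (@Lb.g g8 (@Lb.g g10 (@Lb.g g11 (@Lb.r r1433 (@Lb.r r683 (@Lb.r r2698 (@Lb.r r2724 (@Lb.d (nat_lit 533) (nat_lit 85) (nat_lit 134) (@Lb.t (@Lb.fm (nat_lit 9) t1606))))))))))))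
noncomputable def l41934 : Lb := (@Lb.r r331 (@Lb.d (nat_lit 1) (nat_lit 2) (nat_lit 2) (@Lb.g g8 (@Lb.g g9 (@Lb.g g10 (@Lb.r r2347 (@Lb.r r1130 (@Lb.r r2152 (@Lb.r r25 (@Lb.d (nat_lit 96) (nat_lit 154) (nat_lit 41) (@Lb.t (@Lb.fp (nat_lit 9) t3407))))))))))))
noncomputable def l41935 : Lb := (@Lb.d (nat_lit 130) (nat_lit 517) (nat_lit 257) (@Lb.r r2321 (@Lb.r r2178 (@Lb.r r547 (@Lb.r r533 (@Lb.g g4 (@Lb.d (nat_lit 1) (nat_lit 0) (nat_lit 0) (@Lb.t (@Lb.fm (nat_lit 3) t5851)))))))))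
noncomputable def l41936 : Lb := (@Lb.r r21 (@Lb.r r331 (@Lb.d (nat_lit 416) (nat_lit 516) (nat_lit 2) (@Lb.g g8 (@Lb.g g10 (@Lb.r r409 (@Lb.r r2731 (@Lb.r r1674 (@Lb.d (nat_lit 646) (nat_lit 136) (nat_lit 421) (@Lb.fm (nat_lit 3) t1606))))))))))
noncomputable def l41937 : Lb := (@Lb.r r20 (@Lb.d (nat_lit 0) (nat_lit 258) (nat_lit 74) (@Lb.g g9 (@Lb.g g10 (@Lb.g g11 (@Lb.r r1666 (@Lb.r r1427 (@Lb.r r2661 (@Lb.d (nat_lit 168) (nat_lit 20) (nat_lit 25) (@Lb.t (@Lb.fm (nat_lit 9) t3378)))))))))))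
noncomputable def l41938 : Lb := (@Lb.r r331 (@Lb.d (nat_lit 37) (nat_lit 5) (nat_lit 0) (@Lb.g g8 (@Lb.g g9 (@Lb.g g10 (@Lb.r r2635 (@Lb.r r2146 (@Lb.r r2721 (@Lb.r r1156 (@Lb.d (nat_lit 41) (nat_lit 37) (nat_lit 406) (@Lb.t (@Lb.fm (nat_lit 9) t1816))))))))))))
noncomputable def l41939 : Lb := (@Lb.d (nat_lit 2) (nat_lit 266) (nat_lit 297) (@Lb.r r273 (@Lb.r r134 (@Lb.r r679 (@Lb.r r677 (@Lb.g g7 (@Lb.g g5 (@Lb.g g8 (@Lb.d (nat_lit 545) (nat_lit 1) (nat_lit 128) (@Lb.t (@Lb.fp (nat_lit 9) t4616)))))))))))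
noncomputable def l41940 : Lb := (@Lb.d (nat_lit 261) (nat_lit 262) (nat_lit 401) (@Lb.r r24 (@Lb.r r101 (@Lb.r r402 (@Lb.g g11 (@Lb.g g6 (@Lb.g g4 (@Lb.d (nat_lit 6) (nat_lit 0) (nat_lit 128) (@Lb.t (@Lb.fp (nat_lit 9) t5194))))))))))
noncomputable def l41941 : Lb := (@Lb.d (nat_lit 0) (nat_lit 512) (nat_lit 130) (@Lb.g g9 (@Lb.g g10 (@Lb.g g11 (@Lb.r r642 (@Lb.r r387 (@Lb.d (nat_lit 0) (nat_lit 80) (nat_lit 394) (@Lb.t (@Lb.fp (nat_lit 9) t210)))))))))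
noncomputable def l41942 : Lb := (@Lb.r r82 (@Lb.d (nat_lit 2) (nat_lit 272) (nat_lit 0) (@Lb.g g8 (@Lb.g g9 (@Lb.g g11 (@Lb.r r1431 (@Lb.r r2714 (@Lb.r r1445 (@Lb.r r24 (@Lb.d (nat_lit 153) (nat_lit 1) (nat_lit 360) (@Lb.t (@Lb.fp (nat_lit 9) t3347))))))))))))
noncomputable def l41943 : Lb := (@Lb.r r323 (@Lb.d (nat_lit 41) (nat_lit 260) (nat_lit 2) (@Lb.g g8 (@Lb.g g10 (@Lb.r r1381 (@Lb.r r1691 (@Lb.r r1668 (@Lb.d (nat_lit 529) (nat_lit 0) (nat_lit 4) (@Lb.fm (nat_lit 3) t320)))))))))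
noncomputable def l41944 : Lb := (@Lb.r r81 (@Lb.r r323 (@Lb.d (nat_lit 138) (nat_lit 0) (nat_lit 33) (@Lb.g g8 (@Lb.g g6 (@Lb.r r661 (@Lb.r r343 (@Lb.r r648 (@Lb.d (nat_lit 400) (nat_lit 64) (nat_lit 521) (@Lb.fm (nat_lit 3) t1234))))))))))
noncomputable def l41945 : Lb := (@Lb.d (nat_lit 1) (nat_lit 418) (nat_lit 548) (@Lb.r r1172 (@Lb.g g9 (@Lb.d (nat_lit 0) (nat_lit 10) (nat_lit 0) (@Lb.t (@Lb.fp (nat_lit 3) t7220))))))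
noncomputable def l41946 : Lb := (@Lb.d (nat_lit 2) (nat_lit 258) (nat_lit 2) (@Lb.g g8 (@Lb.g g9 (@Lb.g g10 (@Lb.r r1706 (@Lb.r r1451 (@Lb.r r2457 (@Lb.r r2436 (@Lb.d (nat_lit 409) (nat_lit 129) (nat_lit 101) (@Lb.t (@Lb.fp (nat_lit 9) t6591)))))))))))
noncomputable def l41947 : Lb := (@Lb.r r82 (@Lb.d (nat_lit 0) (nat_lit 258) (nat_lit 580) (@Lb.g g8 (@Lb.g g9 (@Lb.g g7 (@Lb.r r1441 (@Lb.r r98 (@Lb.r r24 (@Lb.d (nat_lit 608) (nat_lit 36) (nat_lit 80) (@Lb.t (@Lb.fp (nat_lit 9) t3700)))))))))))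
noncomputable def l41948 : Lb := (@Lb.d (nat_lit 0) (nat_lit 294) (nat_lit 64) (@Lb.g g8 (@Lb.g g9 (@Lb.g g10 (@Lb.g g11 (@Lb.r r1691 (@Lb.r r168 (@Lb.r r1418 (@Lb.r r2577 (@Lb.d (nat_lit 533) (nat_lit 104) (nat_lit 402) (@Lb.fm (nat_lit 9) t7221)))))))))))
noncomputable def l41949 : Lb := (@Lb.d (nat_lit 400) (nat_lit 129) (nat_lit 517) (@Lb.r r24 (@Lb.r r82 (@Lb.r r1441 (@Lb.g g11 (@Lb.g g5 (@Lb.d (nat_lit 0) (nat_lit 1) (nat_lit 392) (@Lb.r r98 (@Lb.fp (nat_lit 3) t2245)))))))))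
noncomputable def l41950 : Lb := (@Lb.r r323 (@Lb.d (nat_lit 1) (nat_lit 4) (nat_lit 22) (@Lb.g g8 (@Lb.g g10 (@Lb.r r1689 (@Lb.r r2459 (@Lb.r r24 (@Lb.d (nat_lit 105) (nat_lit 82) (nat_lit 594) (@Lb.fp (nat_lit 3) t521)))))))))
noncomputable def l41951 : Lb := (@Lb.d (nat_lit 1) (nat_lit 101) (nat_lit 518) (@Lb.r r579 (@Lb.r r402 (@Lb.g g7 (@Lb.g g5 (@Lb.d (nat_lit 4) (nat_lit 1) (nat_lit 132) (@Lb.fm (nat_lit 3) t901)))))))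
noncomputable def l41952 : Lb := (@Lb.r r20 (@Lb.d (nat_lit 8) (nat_lit 672) (nat_lit 130) (@Lb.g g9 (@Lb.g g10 (@Lb.g g11 (@Lb.r r1560 (@Lb.r r1419 (@Lb.r r386 (@Lb.d (nat_lit 96) (nat_lit 2) (nat_lit 265) (@Lb.t (@Lb.fm (nat_lit 9) t7222)))))))))))
noncomputable def l41953 : Lb := (@Lb.d (nat_lit 130) (nat_lit 290) (nat_lit 2) (@Lb.g g8 (@Lb.g g9 (@Lb.g g10 (@Lb.r r599 (@Lb.r r386 (@Lb.r r72 (@Lb.d (nat_lit 82) (nat_lit 68) (nat_lit 297) (@Lb.t (@Lb.fp (nat_lit 9) t1080))))))))))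
noncomputable def l41954 : Lb := (@Lb.d (nat_lit 0) (nat_lit 608) (nat_lit 640) (@Lb.r r322 (@Lb.r r659 (@Lb.r r578 (@Lb.g g5 (@Lb.g g8 (@Lb.d (nat_lit 5) (nat_lit 1) (nat_lit 0) (@Lb.fm (nat_lit 3) t901))))))))
noncomputable def l41955 : Lb := (@Lb.d (nat_lit 642) (nat_lit 256) (nat_lit 0) (@Lb.g g8 (@Lb.r r2145 (@Lb.r r402 (@Lb.r r2631 (@Lb.d (nat_lit 272) (nat_lit 0) (nat_lit 138) (@Lb.t (@Lb.fm (nat_lit 3) t7223))))))))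
noncomputable def l41956 : Lb := (@Lb.r r20 (@Lb.d (nat_lit 8) (nat_lit 34) (nat_lit 130) (@Lb.g g9 (@Lb.g g10 (@Lb.g g11 (@Lb.r r1560 (@Lb.r r1419 (@Lb.r r386 (@Lb.d (nat_lit 98) (nat_lit 2) (nat_lit 265) (@Lb.t (@Lb.fm (nat_lit 9) t5953)))))))))))
noncomputable def l41957 : Lb := (@Lb.r r82 (@Lb.d (nat_lit 132) (nat_lit 512) (nat_lit 128) (@Lb.g g8 (@Lb.g g9 (@Lb.g g11 (@Lb.r r291 (@Lb.r r2438 (@Lb.r r1049 (@Lb.r r1624 (@Lb.d (nat_lit 665) (nat_lit 33) (nat_lit 649) (@Lb.t (@Lb.fm (nat_lit 9) t7224))))))))))))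
noncomputable def l41958 : Lb := (@Lb.d (nat_lit 2) (nat_lit 34) (nat_lit 66) (@Lb.g g8 (@Lb.g g9 (@Lb.g g10 (@Lb.g g11 (@Lb.r r387 (@Lb.r r2217 (@Lb.r r98 (@Lb.r r2436 (@Lb.d (nat_lit 273) (nat_lit 96) (nat_lit 129) (@Lb.fm (nat_lit 9) t3130)))))))))))
noncomputable def l41959 : Lb := (@Lb.r r21 (@Lb.d (nat_lit 2) (nat_lit 0) (nat_lit 73) (@Lb.g g8 (@Lb.g g10 (@Lb.g g11 (@Lb.r r2691 (@Lb.r r2184 (@Lb.r r1610 (@Lb.r r145 (@Lb.d (nat_lit 401) (nat_lit 81) (nat_lit 610) (@Lb.t (@Lb.fm (nat_lit 9) t1719))))))))))))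
noncomputable def l41960 : Lb := (@Lb.d (nat_lit 6) (nat_lit 320) (nat_lit 73) (@Lb.g g4 (@Lb.g g9 (@Lb.g g10 (@Lb.g g11 (@Lb.r r2658 (@Lb.r r1611 (@Lb.d (nat_lit 25) (nat_lit 161) (nat_lit 618) (@Lb.fp (nat_lit 9) t2013)))))))))
noncomputable def l41961 : Lb := (@Lb.d (nat_lit 406) (nat_lit 536) (nat_lit 528) (@Lb.r r1604 (@Lb.r r1617 (@Lb.r r642 (@Lb.g g11 (@Lb.g g6 (@Lb.g g4 (@Lb.t (@Lb.fp (nat_lit 9) t3904)))))))))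
noncomputable def l41962 : Lb := (@Lb.r r21 (@Lb.d (nat_lit 1) (nat_lit 256) (nat_lit 2) (@Lb.g g8 (@Lb.g g10 (@Lb.r r1684 (@Lb.r r2695 (@Lb.r r578 (@Lb.r r145 (@Lb.d (nat_lit 608) (nat_lit 101) (nat_lit 354) (@Lb.fp (nat_lit 3) t2283))))))))))
noncomputable def l41963 : Lb := (@Lb.g g8 (@Lb.r r405 (@Lb.r r2454 (@Lb.r r2411 (@Lb.r r1124 (@Lb.d (nat_lit 514) (nat_lit 256) (nat_lit 528) (@Lb.t (@Lb.fm (nat_lit 3) t2014))))))))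
noncomputable def l41964 : Lb := (@Lb.d (nat_lit 4) (nat_lit 256) (nat_lit 73) (@Lb.g g8 (@Lb.g g9 (@Lb.g g10 (@Lb.g g11 (@Lb.r r610 (@Lb.r r1607 (@Lb.r r1060 (@Lb.r r1125 (@Lb.d (nat_lit 153) (nat_lit 100) (nat_lit 17) (@Lb.fp (nat_lit 9) t7225)))))))))))
noncomputable def l41965 : Lb := (@Lb.d (nat_lit 149) (nat_lit 256) (nat_lit 64) (@Lb.g g8 (@Lb.g g9 (@Lb.g g10 (@Lb.g g11 (@Lb.r r427 (@Lb.r r1177 (@Lb.r r1176 (@Lb.r r602 (@Lb.d (nat_lit 98) (nat_lit 81) (nat_lit 601) (@Lb.fm (nat_lit 9) t2185)))))))))))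
noncomputable def l41966 : Lb := (@Lb.r r82 (@Lb.d (nat_lit 2) (nat_lit 514) (nat_lit 64) (@Lb.g g8 (@Lb.g g9 (@Lb.g g7 (@Lb.r r1377 (@Lb.r r146 (@Lb.r r2120 (@Lb.d (nat_lit 610) (nat_lit 81) (nat_lit 4) (@Lb.t (@Lb.fm (nat_lit 9) t7226)))))))))))
noncomputable def l41967 : Lb := (@Lb.d (nat_lit 133) (nat_lit 512) (nat_lit 130) (@Lb.g g8 (@Lb.g g9 (@Lb.g g10 (@Lb.g g11 (@Lb.r r1675 (@Lb.r r613 (@Lb.r r666 (@Lb.r r1176 (@Lb.d (nat_lit 676) (nat_lit 64) (nat_lit 362) (@Lb.fp (nat_lit 9) t1913)))))))))))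
noncomputable def l41968 : Lb := (@Lb.d (nat_lit 38) (nat_lit 517) (nat_lit 66) (@Lb.g g8 (@Lb.g g9 (@Lb.g g10 (@Lb.g g7 (@Lb.r r1410 (@Lb.r r97 (@Lb.r r2072 (@Lb.d (nat_lit 586) (nat_lit 130) (nat_lit 42) (@Lb.fp (nat_lit 9) t7226))))))))))
noncomputable def l41969 : Lb := (@Lb.r r82 (@Lb.d (nat_lit 2) (nat_lit 582) (nat_lit 64) (@Lb.g g8 (@Lb.g g9 (@Lb.g g7 (@Lb.r r2442 (@Lb.r r2436 (@Lb.d (nat_lit 361) (nat_lit 97) (nat_lit 610) (@Lb.t (@Lb.fm (nat_lit 9) t5652))))))))))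
noncomputable def l41970 : Lb := (@Lb.r r21 (@Lb.d (nat_lit 146) (nat_lit 256) (nat_lit 130) (@Lb.g g8 (@Lb.g g10 (@Lb.g g11 (@Lb.r r2435 (@Lb.r r2180 (@Lb.r r1430 (@Lb.r r97 (@Lb.d (nat_lit 68) (nat_lit 38) (nat_lit 129) (@Lb.t (@Lb.fm (nat_lit 9) t3999))))))))))))
noncomputable def l41971 : Lb := (@Lb.r r82 (@Lb.d (nat_lit 133) (nat_lit 256) (nat_lit 128) (@Lb.g g8 (@Lb.g g9 (@Lb.g g11 (@Lb.r r1643 (@Lb.r r386 (@Lb.r r89 (@Lb.r r1176 (@Lb.d (nat_lit 585) (nat_lit 65) (nat_lit 593) (@Lb.t (@Lb.fp (nat_lit 9) t5199))))))))))))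
noncomputable def l41972 : Lb := (@Lb.d (nat_lit 2) (nat_lit 2) (nat_lit 66) (@Lb.g g8 (@Lb.g g9 (@Lb.g g10 (@Lb.g g7 (@Lb.r r1442 (@Lb.r r145 (@Lb.r r2120 (@Lb.d (nat_lit 610) (nat_lit 164) (nat_lit 32) (@Lb.fm (nat_lit 9) t5077))))))))))
noncomputable def l41973 : Lb := (@Lb.d (nat_lit 6) (nat_lit 153) (nat_lit 388) (@Lb.r r21 (@Lb.r r579 (@Lb.r r1366 (@Lb.g g7 (@Lb.g g6 (@Lb.g g5 (@Lb.g g4 (@Lb.d (nat_lit 1) (nat_lit 1) (nat_lit 134) (@Lb.fm (nat_lit 9) t2685))))))))))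
noncomputable def l41974 : Lb := (@Lb.d (nat_lit 1) (nat_lit 665) (nat_lit 388) (@Lb.r r579 (@Lb.r r1362 (@Lb.g g7 (@Lb.g g6 (@Lb.g g5 (@Lb.d (nat_lit 4) (nat_lit 1) (nat_lit 134) (@Lb.t (@Lb.fm (nat_lit 9) t7227)))))))))
noncomputable def l41975 : Lb := (@Lb.g g7 (@Lb.r r1427 (@Lb.r r402 (@Lb.d (nat_lit 0) (nat_lit 576) (nat_lit 32) (@Lb.t (@Lb.fp (nat_lit 3) t640))))))
noncomputable def l41976 : Lb := (@Lb.d (nat_lit 41) (nat_lit 614) (nat_lit 517) (@Lb.r r21 (@Lb.r r104 (@Lb.r r323 (@Lb.g g10 (@Lb.g g5 (@Lb.d (nat_lit 0) (nat_lit 6) (nat_lit 0) (@Lb.r r387 (@Lb.fm (nat_lit 3) t7228)))))))))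
noncomputable def l41977 : Lb := (@Lb.d (nat_lit 0) (nat_lit 34) (nat_lit 656) (@Lb.r r354 (@Lb.r r1427 (@Lb.g g10 (@Lb.t (@Lb.fp (nat_lit 3) t1119))))))
noncomputable def l41978 : Lb := (@Lb.r r322 (@Lb.d (nat_lit 8) (nat_lit 288) (nat_lit 128) (@Lb.g g8 (@Lb.g g11 (@Lb.r r2085 (@Lb.r r1368 (@Lb.r r1606 (@Lb.d (nat_lit 610) (nat_lit 68) (nat_lit 102) (@Lb.fm (nat_lit 3) t188)))))))))
noncomputable def l41979 : Lb := (@Lb.r r21 (@Lb.d (nat_lit 82) (nat_lit 0) (nat_lit 512) (@Lb.g g8 (@Lb.g g10 (@Lb.g g11 (@Lb.r r402 (@Lb.r r361 (@Lb.r r1316 (@Lb.d (nat_lit 64) (nat_lit 160) (nat_lit 384) (@Lb.t (@Lb.fm (nat_lit 9) t2160)))))))))))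
noncomputable def l41980 : Lb := (@Lb.r r323 (@Lb.d (nat_lit 130) (nat_lit 258) (nat_lit 2) (@Lb.g g8 (@Lb.g g9 (@Lb.g g10 (@Lb.r r2411 (@Lb.r r1370 (@Lb.r r1573 (@Lb.r r2324 (@Lb.d (nat_lit 136) (nat_lit 4) (nat_lit 385) (@Lb.t (@Lb.fp (nat_lit 9) t1042))))))))))))
noncomputable def l41981 : Lb := (@Lb.d (nat_lit 2) (nat_lit 516) (nat_lit 64) (@Lb.g g8 (@Lb.g g9 (@Lb.g g10 (@Lb.g g11 (@Lb.r r1316 (@Lb.r r1419 (@Lb.r r2146 (@Lb.r r2149 (@Lb.d (nat_lit 9) (nat_lit 88) (nat_lit 280) (@Lb.fm (nat_lit 9) t7197)))))))))))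
noncomputable def l41982 : Lb := (@Lb.d (nat_lit 8) (nat_lit 264) (nat_lit 64) (@Lb.g g8 (@Lb.g g10 (@Lb.g g11 (@Lb.r r2085 (@Lb.r r1368 (@Lb.r r2567 (@Lb.r r2370 (@Lb.d (nat_lit 320) (nat_lit 68) (nat_lit 597) (@Lb.t (@Lb.fp (nat_lit 9) t322)))))))))))
noncomputable def l41983 : Lb := (@Lb.d (nat_lit 145) (nat_lit 416) (nat_lit 102) (@Lb.r r24 (@Lb.r r1383 (@Lb.r r2389 (@Lb.g g6 (@Lb.g g4 (@Lb.d (nat_lit 1) (nat_lit 0) (nat_lit 42) (@Lb.r r387 (@Lb.fp (nat_lit 3) t2801)))))))))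
noncomputable def l41984 : Lb := (@Lb.d (nat_lit 657) (nat_lit 512) (nat_lit 390) (@Lb.r r24 (@Lb.r r101 (@Lb.r r386 (@Lb.g g11 (@Lb.g g6 (@Lb.g g4 (@Lb.d (nat_lit 0) (nat_lit 0) (nat_lit 1) (@Lb.t (@Lb.fp (nat_lit 9) t868))))))))))
noncomputable def l41985 : Lb := (@Lb.d (nat_lit 16) (nat_lit 514) (nat_lit 0) (@Lb.g g8 (@Lb.g g9 (@Lb.g g10 (@Lb.r r683 (@Lb.r r1686 (@Lb.r r169 (@Lb.r r148 (@Lb.d (nat_lit 33) (nat_lit 72) (nat_lit 258) (@Lb.t (@Lb.fp (nat_lit 9) t531)))))))))))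
noncomputable def l41986 : Lb := (@Lb.d (nat_lit 32) (nat_lit 0) (nat_lit 10) (@Lb.g g6 (@Lb.r r683 (@Lb.r r676 (@Lb.r r1686 (@Lb.r r1057 (@Lb.d (nat_lit 657) (nat_lit 73) (nat_lit 169) (@Lb.t (@Lb.fp (nat_lit 3) t324)))))))))
noncomputable def l41987 : Lb := (@Lb.d (nat_lit 146) (nat_lit 2) (nat_lit 128) (@Lb.g g8 (@Lb.g g9 (@Lb.g g10 (@Lb.g g11 (@Lb.r r2698 (@Lb.r r1411 (@Lb.r r36 (@Lb.r r1045 (@Lb.r r2084 (@Lb.d (nat_lit 538) (nat_lit 65) (nat_lit 88) (@Lb.fm (nat_lit 9) t3215))))))))))))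
noncomputable def l41988 : Lb := (@Lb.r r275 (@Lb.d (nat_lit 2) (nat_lit 514) (nat_lit 2) (@Lb.g g8 (@Lb.g g9 (@Lb.g g10 (@Lb.r r1672 (@Lb.r r1563 (@Lb.r r98 (@Lb.d (nat_lit 8) (nat_lit 134) (nat_lit 680) (@Lb.t (@Lb.fm (nat_lit 9) t5719)))))))))))
noncomputable def l41989 : Lb := (@Lb.d (nat_lit 400) (nat_lit 138) (nat_lit 5) (@Lb.r r1604 (@Lb.r r402 (@Lb.g g11 (@Lb.t (@Lb.fm (nat_lit 3) t5979))))))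
noncomputable def l41990 : Lb := (@Lb.d (nat_lit 137) (nat_lit 256) (nat_lit 0) (@Lb.g g8 (@Lb.r r1621 (@Lb.r r2391 (@Lb.r r2178 (@Lb.r r2664 (@Lb.d (nat_lit 90) (nat_lit 86) (nat_lit 424) (@Lb.t (@Lb.fp (nat_lit 3) t1805)))))))))
noncomputable def l41991 : Lb := (@Lb.d (nat_lit 18) (nat_lit 265) (nat_lit 2) (@Lb.g g8 (@Lb.g g9 (@Lb.g g10 (@Lb.r r1689 (@Lb.r r1683 (@Lb.r r1602 (@Lb.r r292 (@Lb.d (nat_lit 74) (nat_lit 137) (nat_lit 409) (@Lb.t (@Lb.fp (nat_lit 9) t5207)))))))))))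
noncomputable def l41992 : Lb := (@Lb.d (nat_lit 0) (nat_lit 288) (nat_lit 64) (@Lb.g g11 (@Lb.r r341 (@Lb.r r1315 (@Lb.r r2178 (@Lb.r r8 (@Lb.d (nat_lit 65) (nat_lit 169) (nat_lit 146) (@Lb.t (@Lb.fp (nat_lit 3) t626)))))))))
noncomputable def l41993 : Lb := (@Lb.d (nat_lit 2) (nat_lit 514) (nat_lit 73) (@Lb.g g8 (@Lb.g g9 (@Lb.g g10 (@Lb.g g11 (@Lb.r r2691 (@Lb.r r1193 (@Lb.r r2658 (@Lb.r r2468 (@Lb.d (nat_lit 617) (nat_lit 25) (nat_lit 660) (@Lb.fp (nat_lit 9) t1832)))))))))))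
noncomputable def l41994 : Lb := (@Lb.r r331 (@Lb.d (nat_lit 32) (nat_lit 258) (nat_lit 2) (@Lb.g g8 (@Lb.g g9 (@Lb.g g10 (@Lb.r r2666 (@Lb.r r2635 (@Lb.r r1621 (@Lb.r r1636 (@Lb.d (nat_lit 552) (nat_lit 101) (nat_lit 676) (@Lb.t (@Lb.fp (nat_lit 9) t7229))))))))))))
noncomputable def l41995 : Lb := (@Lb.d (nat_lit 400) (nat_lit 24) (nat_lit 512) (@Lb.r r1604 (@Lb.r r402 (@Lb.g g5 (@Lb.t (@Lb.fp (nat_lit 3) t4272))))))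
noncomputable def l41996 : Lb := (@Lb.d (nat_lit 405) (nat_lit 258) (nat_lit 550) (@Lb.r r2469 (@Lb.r r1688 (@Lb.r r2466 (@Lb.g g11 (@Lb.g g6 (@Lb.g g5 (@Lb.g g4 (@Lb.d (nat_lit 1) (nat_lit 8) (nat_lit 5) (@Lb.fp (nat_lit 9) t7230))))))))))
noncomputable def l41997 : Lb := (@Lb.g g4 (@Lb.g g7 (@Lb.r r2631 (@Lb.d (nat_lit 577) (nat_lit 256) (nat_lit 613) (@Lb.fp (nat_lit 3) t3355)))))
noncomputable def l41998 : Lb := (@Lb.d (nat_lit 405) (nat_lit 2) (nat_lit 678) (@Lb.r r2469 (@Lb.r r1688 (@Lb.r r2466 (@Lb.g g11 (@Lb.g g6 (@Lb.g g5 (@Lb.g g4 (@Lb.d (nat_lit 1) (nat_lit 8) (nat_lit 128) (@Lb.fp (nat_lit 9) t827))))))))))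
noncomputable def l41999 : Lb := (@Lb.d (nat_lit 409) (nat_lit 676) (nat_lit 678) (@Lb.r r1044 (@Lb.r r601 (@Lb.r r532 (@Lb.r r2466 (@Lb.g g11 (@Lb.g g6 (@Lb.g g5 (@Lb.g g4 (@Lb.d (nat_lit 0) (nat_lit 6) (nat_lit 130) (@Lb.fp (nat_lit 9) t1702)))))))))))
noncomputable def l42000 : Lb := (@Lb.d (nat_lit 9) (nat_lit 294) (nat_lit 66) (@Lb.g g8 (@Lb.g g9 (@Lb.g g10 (@Lb.g g11 (@Lb.r r2723 (@Lb.r r2216 (@Lb.r r665 (@Lb.r r1178 (@Lb.d (nat_lit 598) (nat_lit 104) (nat_lit 601) (@Lb.fm (nat_lit 9) t7231)))))))))))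
noncomputable def l42001 : Lb := (@Lb.d (nat_lit 136) (nat_lit 2) (nat_lit 2) (@Lb.g g8 (@Lb.g g9 (@Lb.g g10 (@Lb.r r1571 (@Lb.r r1193 (@Lb.r r98 (@Lb.r r392 (@Lb.d (nat_lit 353) (nat_lit 8) (nat_lit 601) (@Lb.t (@Lb.fp (nat_lit 9) t662)))))))))))
noncomputable def l42002 : Lb := (@Lb.d (nat_lit 9) (nat_lit 544) (nat_lit 66) (@Lb.g g8 (@Lb.g g10 (@Lb.g g11 (@Lb.r r1618 (@Lb.r r149 (@Lb.r r2340 (@Lb.r r587 (@Lb.d (nat_lit 102) (nat_lit 88) (nat_lit 409) (@Lb.t (@Lb.fp (nat_lit 9) t1951)))))))))))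
noncomputable def l42003 : Lb := (@Lb.r r331 (@Lb.d (nat_lit 34) (nat_lit 521) (nat_lit 1) (@Lb.g g8 (@Lb.g g9 (@Lb.g g10 (@Lb.r r683 (@Lb.r r1186 (@Lb.r r341 (@Lb.r r1636 (@Lb.d (nat_lit 650) (nat_lit 152) (nat_lit 649) (@Lb.t (@Lb.fm (nat_lit 9) t2586))))))))))))
noncomputable def l42004 : Lb := (@Lb.d (nat_lit 25) (nat_lit 513) (nat_lit 0) (@Lb.g g8 (@Lb.g g9 (@Lb.g g10 (@Lb.r r683 (@Lb.r r1686 (@Lb.r r169 (@Lb.r r148 (@Lb.d (nat_lit 33) (nat_lit 72) (nat_lit 386) (@Lb.t (@Lb.fp (nat_lit 9) t764)))))))))))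
noncomputable def l42005 : Lb := (@Lb.d (nat_lit 4) (nat_lit 288) (nat_lit 64) (@Lb.g g8 (@Lb.g g11 (@Lb.r r2337 (@Lb.r r531 (@Lb.r r2178 (@Lb.d (nat_lit 322) (nat_lit 149) (nat_lit 129) (@Lb.fp (nat_lit 3) t3352))))))))
noncomputable def l42006 : Lb := (@Lb.d (nat_lit 280) (nat_lit 74) (nat_lit 530) (@Lb.r r2666 (@Lb.r r2116 (@Lb.r r1371 (@Lb.g g7 (@Lb.g g6 (@Lb.g g9 (@Lb.g g4 (@Lb.d (nat_lit 18) (nat_lit 0) (nat_lit 134) (@Lb.fm (nat_lit 9) t7232))))))))))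
noncomputable def l42007 : Lb := (@Lb.d (nat_lit 0) (nat_lit 0) (nat_lit 133) (@Lb.g g10 (@Lb.g g11 (@Lb.r r2647 (@Lb.r r2726 (@Lb.d (nat_lit 426) (nat_lit 85) (nat_lit 406) (@Lb.fm (nat_lit 3) t899)))))))
noncomputable def l42008 : Lb := (@Lb.r r21 (@Lb.d (nat_lit 130) (nat_lit 256) (nat_lit 66) (@Lb.g g8 (@Lb.g g10 (@Lb.g g11 (@Lb.r r1125 (@Lb.r r664 (@Lb.r r1627 (@Lb.r r386 (@Lb.d (nat_lit 549) (nat_lit 145) (nat_lit 330) (@Lb.t (@Lb.fm (nat_lit 9) t5459))))))))))))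
noncomputable def l42009 : Lb := (@Lb.d (nat_lit 8) (nat_lit 8) (nat_lit 74) (@Lb.g g8 (@Lb.g g10 (@Lb.g g11 (@Lb.r r657 (@Lb.r r667 (@Lb.r r1636 (@Lb.r r2202 (@Lb.d (nat_lit 41) (nat_lit 130) (nat_lit 20) (@Lb.t (@Lb.fm (nat_lit 9) t427)))))))))))
noncomputable def l42010 : Lb := (@Lb.d (nat_lit 6) (nat_lit 545) (nat_lit 2) (@Lb.g g8 (@Lb.g g9 (@Lb.g g10 (@Lb.r r170 (@Lb.r r1444 (@Lb.r r2715 (@Lb.r r357 (@Lb.d (nat_lit 80) (nat_lit 106) (nat_lit 134) (@Lb.t (@Lb.fp (nat_lit 9) t284)))))))))))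
noncomputable def l42011 : Lb := (@Lb.d (nat_lit 613) (nat_lit 657) (nat_lit 518) (@Lb.r r2458 (@Lb.r r2440 (@Lb.r r1623 (@Lb.g g6 (@Lb.g g5 (@Lb.d (nat_lit 0) (nat_lit 136) (nat_lit 4) (@Lb.r r387 (@Lb.fp (nat_lit 3) t3466)))))))))
noncomputable def l42012 : Lb := (@Lb.r r21 (@Lb.d (nat_lit 129) (nat_lit 0) (nat_lit 130) (@Lb.g g8 (@Lb.g g10 (@Lb.g g11 (@Lb.r r419 (@Lb.r r1172 (@Lb.r r2438 (@Lb.r r25 (@Lb.d (nat_lit 274) (nat_lit 148) (nat_lit 138) (@Lb.t (@Lb.fp (nat_lit 9) t7233))))))))))))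
noncomputable def l42013 : Lb := (@Lb.d (nat_lit 9) (nat_lit 8) (nat_lit 130) (@Lb.g g8 (@Lb.g g9 (@Lb.g g10 (@Lb.g g11 (@Lb.r r644 (@Lb.r r391 (@Lb.r r1430 (@Lb.r r2665 (@Lb.r r548 (@Lb.d (nat_lit 33) (nat_lit 0) (nat_lit 161) (@Lb.fp (nat_lit 9) t362))))))))))))
noncomputable def l42014 : Lb := (@Lb.d (nat_lit 0) (nat_lit 9) (nat_lit 161) (@Lb.g g9 (@Lb.g g6 (@Lb.g g11 (@Lb.r r611 (@Lb.r r2657 (@Lb.r r8 (@Lb.d (nat_lit 0) (nat_lit 89) (nat_lit 40) (@Lb.t (@Lb.fm (nat_lit 9) t1659))))))))))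
noncomputable def l42015 : Lb := (@Lb.r r90 (@Lb.r r283 (@Lb.d (nat_lit 33) (nat_lit 674) (nat_lit 0) (@Lb.g g8 (@Lb.g g9 (@Lb.r r1555 (@Lb.r r70 (@Lb.r r1668 (@Lb.d (nat_lit 417) (nat_lit 4) (nat_lit 676) (@Lb.fp (nat_lit 3) t4609))))))))))
noncomputable def l42016 : Lb := (@Lb.r r21 (@Lb.d (nat_lit 129) (nat_lit 256) (nat_lit 130) (@Lb.g g8 (@Lb.g g10 (@Lb.g g11 (@Lb.r r419 (@Lb.r r1172 (@Lb.r r2438 (@Lb.r r25 (@Lb.d (nat_lit 274) (nat_lit 146) (nat_lit 137) (@Lb.t (@Lb.fp (nat_lit 9) t4661))))))))))))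
noncomputable def l42017 : Lb := (@Lb.d (nat_lit 1) (nat_lit 352) (nat_lit 261) (@Lb.r r1543 (@Lb.r r2376 (@Lb.r r1110 (@Lb.g g6 (@Lb.g g5 (@Lb.g g4 (@Lb.d (nat_lit 2) (nat_lit 1) (nat_lit 1) (@Lb.r r291 (@Lb.t (@Lb.fp (nat_lit 9) t546)))))))))))
noncomputable def l42018 : Lb := (@Lb.d (nat_lit 6) (nat_lit 0) (nat_lit 2) (@Lb.g g4 (@Lb.g g10 (@Lb.r r1347 (@Lb.r r578 (@Lb.r r101 (@Lb.d (nat_lit 1) (nat_lit 138) (nat_lit 400) (@Lb.fm (nat_lit 3) t126))))))))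
noncomputable def l42019 : Lb := (@Lb.d (nat_lit 6) (nat_lit 512) (nat_lit 129) (@Lb.g g4 (@Lb.g g10 (@Lb.g g11 (@Lb.r r678 (@Lb.r r1447 (@Lb.d (nat_lit 609) (nat_lit 36) (nat_lit 585) (@Lb.t (@Lb.fm (nat_lit 9) t3589)))))))))
noncomputable def l42020 : Lb := (@Lb.r r322 (@Lb.d (nat_lit 32) (nat_lit 514) (nat_lit 576) (@Lb.g g8 (@Lb.g g9 (@Lb.g g7 (@Lb.r r361 (@Lb.r r150 (@Lb.r r84 (@Lb.d (nat_lit 20) (nat_lit 150) (nat_lit 585) (@Lb.t (@Lb.fp (nat_lit 9) t668)))))))))))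
noncomputable def l42021 : Lb := (@Lb.d (nat_lit 2) (nat_lit 512) (nat_lit 0) (@Lb.g g8 (@Lb.g g9 (@Lb.r r2563 (@Lb.r r2178 (@Lb.r r36 (@Lb.r r1557 (@Lb.r r36 (@Lb.d (nat_lit 2) (nat_lit 145) (nat_lit 576) (@Lb.fm (nat_lit 3) t2027))))))))))
noncomputable def l42022 : Lb := (@Lb.d (nat_lit 390) (nat_lit 326) (nat_lit 513) (@Lb.r r2341 (@Lb.r r1624 (@Lb.r r2470 (@Lb.g g11 (@Lb.g g6 (@Lb.g g5 (@Lb.d (nat_lit 4) (nat_lit 6) (nat_lit 130) (@Lb.t (@Lb.fp (nat_lit 9) t6534))))))))))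
noncomputable def l42023 : Lb := (@Lb.r r331 (@Lb.d (nat_lit 6) (nat_lit 256) (nat_lit 10) (@Lb.g g8 (@Lb.g g9 (@Lb.g g10 (@Lb.r r2449 (@Lb.r r299 (@Lb.r r2440 (@Lb.r r410 (@Lb.d (nat_lit 153) (nat_lit 166) (nat_lit 340) (@Lb.t (@Lb.fm (nat_lit 9) t780))))))))))))
noncomputable def l42024 : Lb := (@Lb.d (nat_lit 65) (nat_lit 546) (nat_lit 66) (@Lb.g g8 (@Lb.g g9 (@Lb.g g10 (@Lb.g g11 (@Lb.r r2705 (@Lb.r r1687 (@Lb.r r578 (@Lb.r r72 (@Lb.d (nat_lit 390) (nat_lit 70) (nat_lit 68) (@Lb.fp (nat_lit 9) t1185)))))))))))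
noncomputable def l42025 : Lb := (@Lb.d (nat_lit 2) (nat_lit 290) (nat_lit 130) (@Lb.g g8 (@Lb.g g9 (@Lb.g g10 (@Lb.g g11 (@Lb.r r674 (@Lb.r r2435 (@Lb.r r420 (@Lb.r r2197 (@Lb.r r1060 (@Lb.d (nat_lit 593) (nat_lit 162) (nat_lit 345) (@Lb.fm (nat_lit 9) t6397))))))))))))
noncomputable def l42026 : Lb := (@Lb.g g7 (@Lb.r r664 (@Lb.r r154 (@Lb.r r2133 (@Lb.r r164 (@Lb.d (nat_lit 608) (nat_lit 0) (nat_lit 154) (@Lb.t (@Lb.fm (nat_lit 3) t2428))))))))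
noncomputable def l42027 : Lb := (@Lb.d (nat_lit 528) (nat_lit 513) (nat_lit 33) (@Lb.r r24 (@Lb.r r2138 (@Lb.g g7 (@Lb.g g5 (@Lb.d (nat_lit 4) (nat_lit 1) (nat_lit 68) (@Lb.fp (nat_lit 3) t1427)))))))
noncomputable def l42028 : Lb := (@Lb.g g4 (@Lb.r r579 (@Lb.d (nat_lit 321) (nat_lit 256) (nat_lit 544) (@Lb.t (@Lb.fp (nat_lit 3) t716)))))
noncomputable def l42029 : Lb := (@Lb.d (nat_lit 138) (nat_lit 0) (nat_lit 0) (@Lb.g g8 (@Lb.r r1434 (@Lb.r r615 (@Lb.r r1621 (@Lb.r r164 (@Lb.d (nat_lit 41) (nat_lit 36) (nat_lit 642) (@Lb.t (@Lb.fp (nat_lit 3) t1593)))))))))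
noncomputable def l42030 : Lb := (@Lb.d (nat_lit 0) (nat_lit 514) (nat_lit 0) (@Lb.g g9 (@Lb.g g6 (@Lb.r r2657 (@Lb.d (nat_lit 5) (nat_lit 80) (nat_lit 129) (@Lb.fm (nat_lit 3) t7234))))))
noncomputable def l42031 : Lb := (@Lb.r r70 (@Lb.d (nat_lit 132) (nat_lit 517) (nat_lit 64) (@Lb.g g8 (@Lb.g g5 (@Lb.g g11 (@Lb.r r1643 (@Lb.r r1626 (@Lb.r r580 (@Lb.d (nat_lit 548) (nat_lit 4) (nat_lit 681) (@Lb.t (@Lb.fm (nat_lit 9) t175)))))))))))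
noncomputable def l42032 : Lb := (@Lb.d (nat_lit 0) (nat_lit 322) (nat_lit 64) (@Lb.g g4 (@Lb.g g9 (@Lb.g g10 (@Lb.g g11 (@Lb.r r1315 (@Lb.r r2626 (@Lb.d (nat_lit 0) (nat_lit 104) (nat_lit 642) (@Lb.fm (nat_lit 9) t51)))))))))
noncomputable def l42033 : Lb := (@Lb.r r21 (@Lb.d (nat_lit 2) (nat_lit 512) (nat_lit 22) (@Lb.g g8 (@Lb.g g10 (@Lb.r r1547 (@Lb.r r1640 (@Lb.r r25 (@Lb.d (nat_lit 612) (nat_lit 25) (nat_lit 296) (@Lb.fm (nat_lit 3) t5436)))))))))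
noncomputable def l42034 : Lb := (@Lb.d (nat_lit 4) (nat_lit 32) (nat_lit 10) (@Lb.g g8 (@Lb.g g9 (@Lb.g g10 (@Lb.r r323 (@Lb.r r1686 (@Lb.r r1129 (@Lb.d (nat_lit 549) (nat_lit 129) (nat_lit 4) (@Lb.t (@Lb.fm (nat_lit 9) t7119))))))))))
noncomputable def l42035 : Lb := (@Lb.g g9 (@Lb.r r2403 (@Lb.r r134 (@Lb.r r1624 (@Lb.r r2341 (@Lb.d (nat_lit 66) (nat_lit 576) (nat_lit 512) (@Lb.t (@Lb.fm (nat_lit 3) t1954))))))))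
noncomputable def l42036 : Lb := (@Lb.g g9 (@Lb.r r2403 (@Lb.r r134 (@Lb.r r1624 (@Lb.r r2341 (@Lb.d (nat_lit 73) (nat_lit 66) (nat_lit 512) (@Lb.t (@Lb.fm (nat_lit 3) t1954))))))))
noncomputable def l42037 : Lb := (@Lb.d (nat_lit 353) (nat_lit 641) (nat_lit 409) (@Lb.r r1608 (@Lb.r r273 (@Lb.r r2595 (@Lb.r r529 (@Lb.g g10 (@Lb.d (nat_lit 32) (nat_lit 4) (nat_lit 6) (@Lb.t (@Lb.fp (nat_lit 3) t2426)))))))))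
noncomputable def l42038 : Lb := (@Lb.r r82 (@Lb.d (nat_lit 1) (nat_lit 258) (nat_lit 0) (@Lb.g g8 (@Lb.g g9 (@Lb.r r2088 (@Lb.r r2649 (@Lb.r r98 (@Lb.d (nat_lit 98) (nat_lit 90) (nat_lit 0) (@Lb.fp (nat_lit 3) t4804)))))))))
noncomputable def l42039 : Lb := (@Lb.d (nat_lit 9) (nat_lit 256) (nat_lit 2) (@Lb.g g8 (@Lb.g g10 (@Lb.r r1109 (@Lb.r r2658 (@Lb.r r2436 (@Lb.d (nat_lit 612) (nat_lit 26) (nat_lit 549) (@Lb.fm (nat_lit 3) t1557))))))))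
noncomputable def l42040 : Lb := (@Lb.d (nat_lit 353) (nat_lit 402) (nat_lit 281) (@Lb.r r1608 (@Lb.r r289 (@Lb.r r2579 (@Lb.g g10 (@Lb.g g5 (@Lb.d (nat_lit 32) (nat_lit 18) (nat_lit 5) (@Lb.fm (nat_lit 3) t7235))))))))
noncomputable def l42041 : Lb := (@Lb.d (nat_lit 401) (nat_lit 38) (nat_lit 581) (@Lb.r r1608 (@Lb.r r2069 (@Lb.r r1434 (@Lb.g g7 (@Lb.g g5 (@Lb.g g4 (@Lb.d (nat_lit 8) (nat_lit 16) (nat_lit 68) (@Lb.r r98 (@Lb.t (@Lb.fp (nat_lit 9) t1547)))))))))))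
noncomputable def l42042 : Lb := (@Lb.d (nat_lit 2) (nat_lit 514) (nat_lit 73) (@Lb.g g8 (@Lb.g g9 (@Lb.g g10 (@Lb.g g11 (@Lb.r r2705 (@Lb.r r535 (@Lb.r r2440 (@Lb.r r2458 (@Lb.d (nat_lit 409) (nat_lit 90) (nat_lit 640) (@Lb.fm (nat_lit 9) t1721)))))))))))
noncomputable def l42043 : Lb := (@Lb.r r21 (@Lb.d (nat_lit 514) (nat_lit 260) (nat_lit 2) (@Lb.g g8 (@Lb.g g10 (@Lb.r r2713 (@Lb.r r1367 (@Lb.r r2698 (@Lb.d (nat_lit 390) (nat_lit 8) (nat_lit 133) (@Lb.fp (nat_lit 3) t221)))))))))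
noncomputable def l42044 : Lb := (@Lb.r r21 (@Lb.d (nat_lit 5) (nat_lit 516) (nat_lit 2) (@Lb.g g8 (@Lb.g g10 (@Lb.r r2713 (@Lb.r r1367 (@Lb.r r2698 (@Lb.d (nat_lit 389) (nat_lit 8) (nat_lit 352) (@Lb.fp (nat_lit 3) t221)))))))))
noncomputable def l42045 : Lb := (@Lb.r r331 (@Lb.d (nat_lit 513) (nat_lit 2) (nat_lit 9) (@Lb.g g8 (@Lb.g g9 (@Lb.g g6 (@Lb.r r1411 (@Lb.r r25 (@Lb.d (nat_lit 9) (nat_lit 33) (nat_lit 341) (@Lb.t (@Lb.fp (nat_lit 9) t7236))))))))))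
noncomputable def l42046 : Lb := (@Lb.d (nat_lit 602) (nat_lit 581) (nat_lit 37) (@Lb.r r677 (@Lb.r r408 (@Lb.r r1443 (@Lb.g g6 (@Lb.g g5 (@Lb.d (nat_lit 20) (nat_lit 1) (nat_lit 9) (@Lb.r r403 (@Lb.fm (nat_lit 3) t7237)))))))))
noncomputable def l42047 : Lb := (@Lb.r r532 (@Lb.r r82 (@Lb.d (nat_lit 132) (nat_lit 106) (nat_lit 384) (@Lb.g g9 (@Lb.g g7 (@Lb.r r2198 (@Lb.r r1096 (@Lb.d (nat_lit 288) (nat_lit 2) (nat_lit 70) (@Lb.fp (nat_lit 3) t870)))))))))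
noncomputable def l42048 : Lb := (@Lb.r r21 (@Lb.d (nat_lit 0) (nat_lit 0) (nat_lit 66) (@Lb.g g8 (@Lb.g g10 (@Lb.g g11 (@Lb.r r2467 (@Lb.r r1450 (@Lb.r r2337 (@Lb.r r2200 (@Lb.d (nat_lit 532) (nat_lit 129) (nat_lit 16) (@Lb.t (@Lb.fp (nat_lit 9) t3333))))))))))))
noncomputable def l42049 : Lb := (@Lb.r r331 (@Lb.d (nat_lit 9) (nat_lit 34) (nat_lit 2) (@Lb.g g8 (@Lb.g g9 (@Lb.g g10 (@Lb.r r2391 (@Lb.r r1610 (@Lb.r r2600 (@Lb.r r1177 (@Lb.d (nat_lit 533) (nat_lit 86) (nat_lit 521) (@Lb.t (@Lb.fp (nat_lit 9) t1877))))))))))))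
noncomputable def l42050 : Lb := (@Lb.r r81 (@Lb.d (nat_lit 1) (nat_lit 512) (nat_lit 10) (@Lb.g g8 (@Lb.g g10 (@Lb.g g11 (@Lb.r r2411 (@Lb.r r2081 (@Lb.r r2436 (@Lb.d (nat_lit 392) (nat_lit 70) (nat_lit 410) (@Lb.t (@Lb.fp (nat_lit 9) t7238)))))))))))
noncomputable def l42051 : Lb := (@Lb.d (nat_lit 602) (nat_lit 64) (nat_lit 36) (@Lb.r r677 (@Lb.r r408 (@Lb.r r1443 (@Lb.g g6 (@Lb.g g5 (@Lb.d (nat_lit 20) (nat_lit 1) (nat_lit 9) (@Lb.r r403 (@Lb.fm (nat_lit 3) t7239)))))))))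
noncomputable def l42052 : Lb := (@Lb.r r322 (@Lb.d (nat_lit 8) (nat_lit 522) (nat_lit 576) (@Lb.g g9 (@Lb.g g7 (@Lb.r r602 (@Lb.r r2392 (@Lb.r r2709 (@Lb.d (nat_lit 678) (nat_lit 160) (nat_lit 678) (@Lb.fm (nat_lit 3) t1255)))))))))
noncomputable def l42053 : Lb := (@Lb.d (nat_lit 21) (nat_lit 417) (nat_lit 646) (@Lb.r r20 (@Lb.r r105 (@Lb.r r386 (@Lb.g g11 (@Lb.g g6 (@Lb.g g5 (@Lb.g g4 (@Lb.d (nat_lit 2) (nat_lit 0) (nat_lit 129) (@Lb.fm (nat_lit 9) t842))))))))))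
noncomputable def l42054 : Lb := (@Lb.d (nat_lit 25) (nat_lit 420) (nat_lit 646) (@Lb.r r20 (@Lb.r r25 (@Lb.r r148 (@Lb.r r386 (@Lb.g g11 (@Lb.g g6 (@Lb.g g5 (@Lb.g g4 (@Lb.d (nat_lit 0) (nat_lit 8) (nat_lit 128) (@Lb.fp (nat_lit 9) t4543)))))))))))
noncomputable def l42055 : Lb := (@Lb.d (nat_lit 18) (nat_lit 677) (nat_lit 646) (@Lb.r r20 (@Lb.r r25 (@Lb.r r148 (@Lb.r r386 (@Lb.g g11 (@Lb.g g6 (@Lb.g g5 (@Lb.g g4 (@Lb.d (nat_lit 1) (nat_lit 8) (nat_lit 128) (@Lb.fp (nat_lit 9) t2092)))))))))))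
noncomputable def l42056 : Lb := (@Lb.d (nat_lit 2) (nat_lit 34) (nat_lit 2) (@Lb.g g8 (@Lb.g g9 (@Lb.g g10 (@Lb.r r1287 (@Lb.r r98 (@Lb.r r2564 (@Lb.d (nat_lit 129) (nat_lit 9) (nat_lit 418) (@Lb.t (@Lb.fm (nat_lit 9) t825))))))))))
noncomputable def l42057 : Lb := (@Lb.d (nat_lit 0) (nat_lit 290) (nat_lit 0) (@Lb.g g8 (@Lb.g g9 (@Lb.r r1287 (@Lb.r r1094 (@Lb.r r2564 (@Lb.d (nat_lit 153) (nat_lit 26) (nat_lit 425) (@Lb.fm (nat_lit 3) t7240))))))))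
noncomputable def l42058 : Lb := (@Lb.d (nat_lit 34) (nat_lit 512) (nat_lit 128) (@Lb.g g8 (@Lb.g g11 (@Lb.r r2118 (@Lb.r r1057 (@Lb.r r2212 (@Lb.d (nat_lit 554) (nat_lit 148) (nat_lit 426) (@Lb.fp (nat_lit 3) t7241))))))))
noncomputable def l42059 : Lb := (@Lb.d (nat_lit 98) (nat_lit 601) (nat_lit 262) (@Lb.r r597 (@Lb.r r296 (@Lb.r r418 (@Lb.g g11 (@Lb.g g6 (@Lb.g g5 (@Lb.g g4 (@Lb.d (nat_lit 1) (nat_lit 20) (nat_lit 393) (@Lb.fm (nat_lit 9) t1349))))))))))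
noncomputable def l42060 : Lb := (@Lb.d (nat_lit 104) (nat_lit 532) (nat_lit 4) (@Lb.g g8 (@Lb.g g9 (@Lb.g g10 (@Lb.g g11 (@Lb.r r1543 (@Lb.r r405 (@Lb.r r2458 (@Lb.r r548 (@Lb.d (nat_lit 392) (nat_lit 152) (nat_lit 617) (@Lb.fp (nat_lit 9) t7242)))))))))))
noncomputable def l42061 : Lb := (@Lb.d (nat_lit 42) (nat_lit 0) (nat_lit 72) (@Lb.g g8 (@Lb.g g11 (@Lb.r r2370 (@Lb.r r1447 (@Lb.r r1317 (@Lb.r r1556 (@Lb.d (nat_lit 390) (nat_lit 98) (nat_lit 518) (@Lb.fp (nat_lit 3) t5238)))))))))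
noncomputable def l42062 : Lb := (@Lb.d (nat_lit 154) (nat_lit 576) (nat_lit 390) (@Lb.r r421 (@Lb.r r664 (@Lb.r r418 (@Lb.g g11 (@Lb.g g6 (@Lb.g g5 (@Lb.g g4 (@Lb.d (nat_lit 1) (nat_lit 32) (nat_lit 390) (@Lb.fp (nat_lit 9) t7243))))))))))
noncomputable def l42063 : Lb := (@Lb.d (nat_lit 154) (nat_lit 512) (nat_lit 256) (@Lb.g g8 (@Lb.g g10 (@Lb.g g7 (@Lb.r r1621 (@Lb.r r1122 (@Lb.r r388 (@Lb.d (nat_lit 100) (nat_lit 74) (nat_lit 649) (@Lb.t (@Lb.fp (nat_lit 9) t4328))))))))))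
noncomputable def l42064 : Lb := (@Lb.r r21 (@Lb.d (nat_lit 33) (nat_lit 256) (nat_lit 73) (@Lb.g g8 (@Lb.g g10 (@Lb.g g11 (@Lb.r r1284 (@Lb.r r1451 (@Lb.r r2389 (@Lb.r r1194 (@Lb.d (nat_lit 105) (nat_lit 134) (nat_lit 530) (@Lb.t (@Lb.fp (nat_lit 9) t4519))))))))))))
noncomputable def l42065 : Lb := (@Lb.d (nat_lit 154) (nat_lit 130) (nat_lit 390) (@Lb.r r421 (@Lb.r r664 (@Lb.r r418 (@Lb.g g11 (@Lb.g g6 (@Lb.g g5 (@Lb.g g4 (@Lb.d (nat_lit 0) (nat_lit 32) (nat_lit 390) (@Lb.fp (nat_lit 9) t7244))))))))))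
noncomputable def l42066 : Lb := (@Lb.d (nat_lit 2) (nat_lit 256) (nat_lit 72) (@Lb.g g8 (@Lb.g g11 (@Lb.r r1410 (@Lb.r r579 (@Lb.r r2193 (@Lb.d (nat_lit 272) (nat_lit 0) (nat_lit 2) (@Lb.fm (nat_lit 3) t285))))))))
noncomputable def l42067 : Lb := (@Lb.d (nat_lit 138) (nat_lit 512) (nat_lit 128) (@Lb.g g8 (@Lb.g g11 (@Lb.r r1575 (@Lb.r r2662 (@Lb.r r613 (@Lb.r r2452 (@Lb.d (nat_lit 614) (nat_lit 17) (nat_lit 650) (@Lb.fm (nat_lit 3) t3438)))))))))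
noncomputable def l42068 : Lb := (@Lb.d (nat_lit 129) (nat_lit 514) (nat_lit 0) (@Lb.g g8 (@Lb.g g9 (@Lb.r r425 (@Lb.r r599 (@Lb.r r2178 (@Lb.r r1384 (@Lb.d (nat_lit 405) (nat_lit 165) (nat_lit 340) (@Lb.fm (nat_lit 3) t124)))))))))
noncomputable def l42069 : Lb := (@Lb.d (nat_lit 9) (nat_lit 521) (nat_lit 72) (@Lb.g g8 (@Lb.g g9 (@Lb.g g11 (@Lb.r r134 (@Lb.r r328 (@Lb.r r279 (@Lb.r r545 (@Lb.d (nat_lit 10) (nat_lit 65) (nat_lit 20) (@Lb.t (@Lb.fp (nat_lit 9) t334)))))))))))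
noncomputable def l42070 : Lb := (@Lb.d (nat_lit 340) (nat_lit 161) (nat_lit 33) (@Lb.r r408 (@Lb.r r330 (@Lb.r r1431 (@Lb.g g7 (@Lb.g g5 (@Lb.g g4 (@Lb.d (nat_lit 17) (nat_lit 146) (nat_lit 128) (@Lb.r r98 (@Lb.t (@Lb.fm (nat_lit 9) t7245)))))))))))
noncomputable def l42071 : Lb := (@Lb.d (nat_lit 8) (nat_lit 678) (nat_lit 6) (@Lb.r r37 (@Lb.r r2406 (@Lb.r r2715 (@Lb.g g6 (@Lb.g g4 (@Lb.d (nat_lit 549) (nat_lit 0) (nat_lit 0) (@Lb.r r25 (@Lb.fm (nat_lit 3) t167)))))))))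
noncomputable def l42072 : Lb := (@Lb.d (nat_lit 1) (nat_lit 322) (nat_lit 72) (@Lb.g g8 (@Lb.g g9 (@Lb.g g11 (@Lb.r r402 (@Lb.r r579 (@Lb.r r2152 (@Lb.d (nat_lit 538) (nat_lit 133) (nat_lit 0) (@Lb.t (@Lb.fp (nat_lit 9) t4450))))))))))
noncomputable def l42073 : Lb := (@Lb.d (nat_lit 33) (nat_lit 6) (nat_lit 74) (@Lb.g g8 (@Lb.g g9 (@Lb.g g10 (@Lb.g g11 (@Lb.r r1435 (@Lb.r r2201 (@Lb.r r1618 (@Lb.r r2180 (@Lb.d (nat_lit 532) (nat_lit 100) (nat_lit 72) (@Lb.fp (nat_lit 9) t86)))))))))))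
noncomputable def l42074 : Lb := (@Lb.d (nat_lit 1) (nat_lit 545) (nat_lit 145) (@Lb.g g8 (@Lb.g g9 (@Lb.g g10 (@Lb.g g11 (@Lb.r r548 (@Lb.r r423 (@Lb.r r1317 (@Lb.r r516 (@Lb.d (nat_lit 534) (nat_lit 8) (nat_lit 168) (@Lb.fm (nat_lit 9) t3240)))))))))))
noncomputable def l42075 : Lb := (@Lb.d (nat_lit 32) (nat_lit 512) (nat_lit 66) (@Lb.g g10 (@Lb.g g7 (@Lb.r r596 (@Lb.r r74 (@Lb.r r289 (@Lb.d (nat_lit 106) (nat_lit 81) (nat_lit 86) (@Lb.fm (nat_lit 3) t7246))))))))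
noncomputable def l42076 : Lb := (@Lb.d (nat_lit 128) (nat_lit 256) (nat_lit 130) (@Lb.g g10 (@Lb.g g11 (@Lb.r r618 (@Lb.r r24 (@Lb.r r405 (@Lb.r r611 (@Lb.d (nat_lit 552) (nat_lit 25) (nat_lit 546) (@Lb.fm (nat_lit 3) t312)))))))))
noncomputable def l42077 : Lb := (@Lb.r r70 (@Lb.d (nat_lit 386) (nat_lit 2) (nat_lit 64) (@Lb.g g8 (@Lb.g g9 (@Lb.g g11 (@Lb.r r2475 (@Lb.r r1410 (@Lb.r r25 (@Lb.d (nat_lit 361) (nat_lit 73) (nat_lit 514) (@Lb.t (@Lb.fp (nat_lit 9) t7247)))))))))))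
noncomputable def l42078 : Lb := (@Lb.d (nat_lit 144) (nat_lit 514) (nat_lit 64) (@Lb.g g8 (@Lb.g g9 (@Lb.g g10 (@Lb.g g11 (@Lb.r r1443 (@Lb.r r1156 (@Lb.r r390 (@Lb.r r25 (@Lb.d (nat_lit 100) (nat_lit 72) (nat_lit 409) (@Lb.fm (nat_lit 9) t7195)))))))))))
noncomputable def l42079 : Lb := (@Lb.d (nat_lit 144) (nat_lit 4) (nat_lit 65) (@Lb.g g8 (@Lb.g g9 (@Lb.g g10 (@Lb.g g11 (@Lb.r r1443 (@Lb.r r1156 (@Lb.r r390 (@Lb.r r25 (@Lb.d (nat_lit 105) (nat_lit 73) (nat_lit 409) (@Lb.fm (nat_lit 9) t7248)))))))))))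
noncomputable def l42080 : Lb := (@Lb.d (nat_lit 144) (nat_lit 258) (nat_lit 64) (@Lb.g g8 (@Lb.g g9 (@Lb.g g10 (@Lb.g g11 (@Lb.r r1443 (@Lb.r r1156 (@Lb.r r390 (@Lb.r r25 (@Lb.d (nat_lit 105) (nat_lit 73) (nat_lit 409) (@Lb.fm (nat_lit 9) t7195)))))))))))
noncomputable def l42081 : Lb := (@Lb.d (nat_lit 144) (nat_lit 264) (nat_lit 128) (@Lb.g g8 (@Lb.g g10 (@Lb.g g11 (@Lb.r r2327 (@Lb.r r660 (@Lb.r r2137 (@Lb.r r1190 (@Lb.d (nat_lit 264) (nat_lit 1) (nat_lit 681) (@Lb.t (@Lb.fp (nat_lit 9) t6866)))))))))))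
noncomputable def l42082 : Lb := (@Lb.d (nat_lit 642) (nat_lit 0) (nat_lit 0) (@Lb.g g8 (@Lb.r r97 (@Lb.r r1106 (@Lb.r r145 (@Lb.d (nat_lit 9) (nat_lit 2) (nat_lit 384) (@Lb.t (@Lb.fm (nat_lit 3) t7249))))))))
noncomputable def l42083 : Lb := (@Lb.d (nat_lit 425) (nat_lit 274) (nat_lit 264) (@Lb.r r1361 (@Lb.r r2454 (@Lb.r r2411 (@Lb.r r328 (@Lb.g g7 (@Lb.g g6 (@Lb.g g5 (@Lb.d (nat_lit 20) (nat_lit 0) (nat_lit 128) (@Lb.t (@Lb.fp (nat_lit 9) t3625)))))))))))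
noncomputable def l42084 : Lb := (@Lb.r r323 (@Lb.d (nat_lit 2) (nat_lit 514) (nat_lit 2) (@Lb.g g8 (@Lb.g g9 (@Lb.g g10 (@Lb.r r1682 (@Lb.r r1703 (@Lb.r r1320 (@Lb.r r25 (@Lb.d (nat_lit 97) (nat_lit 40) (nat_lit 146) (@Lb.t (@Lb.fp (nat_lit 9) t5226))))))))))))
noncomputable def l42085 : Lb := (@Lb.d (nat_lit 144) (nat_lit 258) (nat_lit 130) (@Lb.g g8 (@Lb.g g9 (@Lb.g g10 (@Lb.g g11 (@Lb.r r2691 (@Lb.r r1321 (@Lb.r r648 (@Lb.r r2714 (@Lb.r r1156 (@Lb.d (nat_lit 389) (nat_lit 169) (nat_lit 345) (@Lb.fp (nat_lit 9) t6641))))))))))))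
noncomputable def l42086 : Lb := (@Lb.r r21 (@Lb.d (nat_lit 146) (nat_lit 288) (nat_lit 64) (@Lb.g g8 (@Lb.g g10 (@Lb.g g11 (@Lb.r r1313 (@Lb.r r1367 (@Lb.r r1162 (@Lb.r r132 (@Lb.d (nat_lit 594) (nat_lit 25) (nat_lit 296) (@Lb.t (@Lb.fm (nat_lit 9) t7250))))))))))))
noncomputable def l42087 : Lb := (@Lb.d (nat_lit 2) (nat_lit 2) (nat_lit 2) (@Lb.g g8 (@Lb.g g9 (@Lb.g g10 (@Lb.r r683 (@Lb.r r2666 (@Lb.r r2585 (@Lb.d (nat_lit 329) (nat_lit 164) (nat_lit 32) (@Lb.t (@Lb.fp (nat_lit 9) t3706))))))))))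
noncomputable def l42088 : Lb := (@Lb.g g10 (@Lb.r r2209 (@Lb.r r1186 (@Lb.r r1124 (@Lb.d (nat_lit 0) (nat_lit 154) (nat_lit 538) (@Lb.t (@Lb.fp (nat_lit 3) t7085)))))))
noncomputable def l42089 : Lb := (@Lb.d (nat_lit 144) (nat_lit 272) (nat_lit 74) (@Lb.g g8 (@Lb.g g9 (@Lb.g g10 (@Lb.g g11 (@Lb.r r2691 (@Lb.r r1450 (@Lb.r r1121 (@Lb.r r388 (@Lb.d (nat_lit 677) (nat_lit 168) (nat_lit 389) (@Lb.fm (nat_lit 9) t6717)))))))))))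
noncomputable def l42090 : Lb := (@Lb.r r616 (@Lb.r r2665 (@Lb.r r2390 (@Lb.r r2475 (@Lb.r r1188 (@Lb.d (nat_lit 2) (nat_lit 512) (nat_lit 581) (@Lb.fp (nat_lit 1) t271)))))))
noncomputable def l42091 : Lb := (@Lb.d (nat_lit 4) (nat_lit 361) (nat_lit 102) (@Lb.r r24 (@Lb.r r81 (@Lb.r r1442 (@Lb.r r2595 (@Lb.g g7 (@Lb.g g6 (@Lb.g g5 (@Lb.d (nat_lit 0) (nat_lit 8) (nat_lit 64) (@Lb.t (@Lb.fm (nat_lit 9) t1812)))))))))))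
noncomputable def l42092 : Lb := (@Lb.r r81 (@Lb.d (nat_lit 16) (nat_lit 0) (nat_lit 146) (@Lb.g g10 (@Lb.g g11 (@Lb.r r1700 (@Lb.r r1447 (@Lb.r r37 (@Lb.d (nat_lit 2) (nat_lit 88) (nat_lit 1) (@Lb.fp (nat_lit 3) t4458)))))))))
noncomputable def l42093 : Lb := (@Lb.r r355 (@Lb.d (nat_lit 8) (nat_lit 258) (nat_lit 22) (@Lb.g g9 (@Lb.g g10 (@Lb.r r1688 (@Lb.r r1563 (@Lb.r r1429 (@Lb.d (nat_lit 580) (nat_lit 149) (nat_lit 393) (@Lb.fm (nat_lit 3) t7251)))))))))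
noncomputable def l42094 : Lb := (@Lb.r r355 (@Lb.d (nat_lit 129) (nat_lit 258) (nat_lit 22) (@Lb.g g8 (@Lb.g g9 (@Lb.g g10 (@Lb.r r391 (@Lb.r r1560 (@Lb.r r1045 (@Lb.d (nat_lit 532) (nat_lit 104) (nat_lit 402) (@Lb.t (@Lb.fp (nat_lit 9) t7251)))))))))))
noncomputable def l42095 : Lb := (@Lb.d (nat_lit 4) (nat_lit 642) (nat_lit 400) (@Lb.r r24 (@Lb.r r82 (@Lb.r r1441 (@Lb.g g11 (@Lb.g g5 (@Lb.d (nat_lit 0) (nat_lit 1) (nat_lit 392) (@Lb.r r98 (@Lb.fp (nat_lit 3) t1812)))))))))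
noncomputable def l42096 : Lb := (@Lb.d (nat_lit 522) (nat_lit 612) (nat_lit 129) (@Lb.r r2454 (@Lb.g g11 (@Lb.g g6 (@Lb.g g9 (@Lb.d (nat_lit 72) (nat_lit 2) (nat_lit 512) (@Lb.t (@Lb.fm (nat_lit 9) t3561))))))))
noncomputable def l42097 : Lb := (@Lb.d (nat_lit 0) (nat_lit 2) (nat_lit 74) (@Lb.g g9 (@Lb.g g10 (@Lb.g g11 (@Lb.r r387 (@Lb.r r161 (@Lb.r r418 (@Lb.r r2193 (@Lb.d (nat_lit 0) (nat_lit 42) (nat_lit 362) (@Lb.t (@Lb.fm (nat_lit 9) t7252)))))))))))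
noncomputable def l42098 : Lb := (@Lb.d (nat_lit 152) (nat_lit 358) (nat_lit 358) (@Lb.r r2374 (@Lb.r r1691 (@Lb.g g7 (@Lb.g g6 (@Lb.g g9 (@Lb.d (nat_lit 8) (nat_lit 9) (nat_lit 64) (@Lb.t (@Lb.fp (nat_lit 9) t7253)))))))))
noncomputable def l42099 : Lb := (@Lb.d (nat_lit 2) (nat_lit 521) (nat_lit 129) (@Lb.g g8 (@Lb.g g9 (@Lb.g g10 (@Lb.g g11 (@Lb.r r1699 (@Lb.r r1176 (@Lb.r r1626 (@Lb.r r25 (@Lb.d (nat_lit 408) (nat_lit 2) (nat_lit 356) (@Lb.fp (nat_lit 9) t3049)))))))))))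
noncomputable def l42100 : Lb := (@Lb.d (nat_lit 106) (nat_lit 65) (nat_lit 70) (@Lb.r r2632 (@Lb.r r2454 (@Lb.r r1611 (@Lb.g g7 (@Lb.g g9 (@Lb.g g4 (@Lb.d (nat_lit 17) (nat_lit 8) (nat_lit 64) (@Lb.r r74 (@Lb.t (@Lb.fp (nat_lit 9) t7254)))))))))))
noncomputable def l42101 : Lb := (@Lb.d (nat_lit 1) (nat_lit 289) (nat_lit 130) (@Lb.g g4 (@Lb.g g9 (@Lb.g g10 (@Lb.g g11 (@Lb.r r387 (@Lb.r r386 (@Lb.r r613 (@Lb.d (nat_lit 394) (nat_lit 25) (nat_lit 100) (@Lb.fm (nat_lit 9) t4962))))))))))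
noncomputable def l42102 : Lb := (@Lb.d (nat_lit 137) (nat_lit 518) (nat_lit 64) (@Lb.g g8 (@Lb.g g9 (@Lb.g g10 (@Lb.g g11 (@Lb.r r1177 (@Lb.r r360 (@Lb.r r1383 (@Lb.r r1690 (@Lb.r r1668 (@Lb.d (nat_lit 393) (nat_lit 64) (nat_lit 65) (@Lb.fp (nat_lit 9) t7255))))))))))))
noncomputable def l42103 : Lb := (@Lb.d (nat_lit 10) (nat_lit 8) (nat_lit 128) (@Lb.g g8 (@Lb.g g10 (@Lb.g g11 (@Lb.r r277 (@Lb.r r2667 (@Lb.r r2370 (@Lb.r r1124 (@Lb.d (nat_lit 337) (nat_lit 10) (nat_lit 5) (@Lb.t (@Lb.fp (nat_lit 9) t2570)))))))))))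
noncomputable def l42104 : Lb := (@Lb.d (nat_lit 9) (nat_lit 512) (nat_lit 0) (@Lb.g g8 (@Lb.r r289 (@Lb.r r535 (@Lb.r r328 (@Lb.r r134 (@Lb.d (nat_lit 0) (nat_lit 10) (nat_lit 146) (@Lb.t (@Lb.fp (nat_lit 3) t40)))))))))
noncomputable def l42105 : Lb := (@Lb.d (nat_lit 25) (nat_lit 2) (nat_lit 34) (@Lb.g g8 (@Lb.g g9 (@Lb.g g10 (@Lb.r r2601 (@Lb.r r299 (@Lb.r r264 (@Lb.d (nat_lit 161) (nat_lit 0) (nat_lit 321) (@Lb.t (@Lb.fm (nat_lit 9) t318))))))))))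
noncomputable def l42106 : Lb := (@Lb.d (nat_lit 577) (nat_lit 576) (nat_lit 81) (@Lb.r r264 (@Lb.r r82 (@Lb.r r599 (@Lb.g g5 (@Lb.g g4 (@Lb.d (nat_lit 66) (nat_lit 24) (nat_lit 0) (@Lb.r r291 (@Lb.r r98 (@Lb.fm (nat_lit 3) t681))))))))))
noncomputable def l42107 : Lb := (@Lb.g g8 (@Lb.g g5 (@Lb.r r20 (@Lb.r r2073 (@Lb.d (nat_lit 548) (nat_lit 261) (nat_lit 33) (@Lb.fp (nat_lit 3) t382))))))
noncomputable def l42108 : Lb := (@Lb.d (nat_lit 538) (nat_lit 513) (nat_lit 128) (@Lb.g g8 (@Lb.g g9 (@Lb.g g10 (@Lb.g g11 (@Lb.r r2713 (@Lb.r r1683 (@Lb.r r1602 (@Lb.d (nat_lit 646) (nat_lit 74) (nat_lit 89) (@Lb.fm (nat_lit 9) t4215))))))))))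
noncomputable def l42109 : Lb := (@Lb.d (nat_lit 294) (nat_lit 581) (nat_lit 292) (@Lb.r r148 (@Lb.r r386 (@Lb.r r599 (@Lb.g g6 (@Lb.g g5 (@Lb.g g4 (@Lb.d (nat_lit 65) (nat_lit 17) (nat_lit 1) (@Lb.t (@Lb.fp (nat_lit 9) t2238))))))))))
noncomputable def l42110 : Lb := (@Lb.r r323 (@Lb.d (nat_lit 0) (nat_lit 514) (nat_lit 2) (@Lb.g g8 (@Lb.g g9 (@Lb.g g10 (@Lb.r r401 (@Lb.r r299 (@Lb.r r420 (@Lb.r r102 (@Lb.d (nat_lit 21) (nat_lit 68) (nat_lit 152) (@Lb.t (@Lb.fm (nat_lit 9) t1022))))))))))))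
noncomputable def l42111 : Lb := (@Lb.d (nat_lit 2) (nat_lit 256) (nat_lit 0) (@Lb.g g8 (@Lb.g g11 (@Lb.r r1291 (@Lb.d (nat_lit 514) (nat_lit 0) (nat_lit 0) (@Lb.fm (nat_lit 3) t441))))))
noncomputable def l42112 : Lb := (@Lb.d (nat_lit 129) (nat_lit 514) (nat_lit 66) (@Lb.g g8 (@Lb.g g9 (@Lb.g g10 (@Lb.g g11 (@Lb.r r2662 (@Lb.r r1060 (@Lb.r r405 (@Lb.r r2339 (@Lb.d (nat_lit 408) (nat_lit 97) (nat_lit 656) (@Lb.fp (nat_lit 9) t1039)))))))))))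
noncomputable def l42113 : Lb := (@Lb.d (nat_lit 144) (nat_lit 65) (nat_lit 640) (@Lb.r r101 (@Lb.r r24 (@Lb.r r402 (@Lb.g g11 (@Lb.g g6 (@Lb.g g9 (@Lb.g g4 (@Lb.fm (nat_lit 9) t5449)))))))))
noncomputable def l42114 : Lb := (@Lb.d (nat_lit 386) (nat_lit 657) (nat_lit 320) (@Lb.r r532 (@Lb.r r1305 (@Lb.r r1354 (@Lb.g g11 (@Lb.g g4 (@Lb.d (nat_lit 65) (nat_lit 0) (nat_lit 512) (@Lb.fp (nat_lit 3) t7256))))))))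
noncomputable def l42115 : Lb := (@Lb.r r21 (@Lb.d (nat_lit 386) (nat_lit 256) (nat_lit 66) (@Lb.g g8 (@Lb.g g10 (@Lb.g g11 (@Lb.r r2443 (@Lb.r r90 (@Lb.r r145 (@Lb.d (nat_lit 33) (nat_lit 88) (nat_lit 166) (@Lb.t (@Lb.fm (nat_lit 9) t6170)))))))))))
noncomputable def l42116 : Lb := (@Lb.d (nat_lit 645) (nat_lit 385) (nat_lit 672) (@Lb.r r101 (@Lb.r r24 (@Lb.r r402 (@Lb.g g11 (@Lb.g g6 (@Lb.fm (nat_lit 3) t7257)))))))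
noncomputable def l42117 : Lb := (@Lb.d (nat_lit 1) (nat_lit 0) (nat_lit 64) (@Lb.g g8 (@Lb.g g10 (@Lb.g g7 (@Lb.r r402 (@Lb.r r2145 (@Lb.r r24 (@Lb.d (nat_lit 325) (nat_lit 33) (nat_lit 320) (@Lb.t (@Lb.fm (nat_lit 9) t5077))))))))))
noncomputable def l42118 : Lb := (@Lb.d (nat_lit 153) (nat_lit 1) (nat_lit 128) (@Lb.g g8 (@Lb.g g9 (@Lb.g g10 (@Lb.g g11 (@Lb.r r2722 (@Lb.r r2439 (@Lb.r r145 (@Lb.r r2632 (@Lb.d (nat_lit 609) (nat_lit 133) (nat_lit 424) (@Lb.fp (nat_lit 9) t149)))))))))))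
noncomputable def l42119 : Lb := (@Lb.r r322 (@Lb.d (nat_lit 9) (nat_lit 272) (nat_lit 648) (@Lb.g g8 (@Lb.g g9 (@Lb.g g7 (@Lb.r r1450 (@Lb.r r2389 (@Lb.r r24 (@Lb.d (nat_lit 512) (nat_lit 105) (nat_lit 68) (@Lb.t (@Lb.fp (nat_lit 9) t1610)))))))))))
noncomputable def l42120 : Lb := (@Lb.d (nat_lit 9) (nat_lit 512) (nat_lit 0) (@Lb.g g8 (@Lb.g g10 (@Lb.g g7 (@Lb.r r402 (@Lb.r r101 (@Lb.r r24 (@Lb.d (nat_lit 521) (nat_lit 9) (nat_lit 610) (@Lb.t (@Lb.fm (nat_lit 9) t145))))))))))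
noncomputable def l42121 : Lb := (@Lb.r r21 (@Lb.d (nat_lit 408) (nat_lit 0) (nat_lit 0) (@Lb.g g8 (@Lb.g g10 (@Lb.r r1319 (@Lb.r r101 (@Lb.r r2450 (@Lb.d (nat_lit 2) (nat_lit 24) (nat_lit 610) (@Lb.fm (nat_lit 3) t4856)))))))))
noncomputable def l42122 : Lb := (@Lb.d (nat_lit 390) (nat_lit 662) (nat_lit 297) (@Lb.r r1556 (@Lb.r r2345 (@Lb.r r1623 (@Lb.g g6 (@Lb.g g5 (@Lb.g g4 (@Lb.d (nat_lit 70) (nat_lit 2) (nat_lit 33) (@Lb.r r387 (@Lb.t (@Lb.fp (nat_lit 9) t1643)))))))))))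
noncomputable def l42123 : Lb := (@Lb.d (nat_lit 0) (nat_lit 298) (nat_lit 73) (@Lb.r r674 (@Lb.r r595 (@Lb.g g7 (@Lb.g g6 (@Lb.g g5 (@Lb.g g8 (@Lb.d (nat_lit 0) (nat_lit 129) (nat_lit 10) (@Lb.fm (nat_lit 9) t126)))))))))
noncomputable def l42124 : Lb := (@Lb.d (nat_lit 42) (nat_lit 512) (nat_lit 64) (@Lb.g g8 (@Lb.g g11 (@Lb.r r1703 (@Lb.r r614 (@Lb.r r1637 (@Lb.r r1428 (@Lb.d (nat_lit 358) (nat_lit 90) (nat_lit 342) (@Lb.fm (nat_lit 3) t386)))))))))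
noncomputable def l42125 : Lb := (@Lb.r r322 (@Lb.d (nat_lit 2) (nat_lit 2) (nat_lit 576) (@Lb.g g8 (@Lb.g g9 (@Lb.g g7 (@Lb.r r417 (@Lb.r r98 (@Lb.r r1096 (@Lb.d (nat_lit 10) (nat_lit 154) (nat_lit 20) (@Lb.t (@Lb.fp (nat_lit 9) t5087)))))))))))
noncomputable def l42126 : Lb := (@Lb.r r322 (@Lb.d (nat_lit 34) (nat_lit 2) (nat_lit 576) (@Lb.g g8 (@Lb.g g9 (@Lb.g g7 (@Lb.r r1622 (@Lb.r r2337 (@Lb.r r1432 (@Lb.d (nat_lit 21) (nat_lit 136) (nat_lit 554) (@Lb.t (@Lb.fp (nat_lit 9) t1412)))))))))))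
noncomputable def l42127 : Lb := (@Lb.d (nat_lit 545) (nat_lit 260) (nat_lit 130) (@Lb.g g8 (@Lb.g g9 (@Lb.g g10 (@Lb.g g11 (@Lb.r r1451 (@Lb.r r409 (@Lb.r r90 (@Lb.r r1169 (@Lb.d (nat_lit 265) (nat_lit 73) (nat_lit 546) (@Lb.fp (nat_lit 9) t981)))))))))))
noncomputable def l42128 : Lb := (@Lb.d (nat_lit 356) (nat_lit 38) (nat_lit 70) (@Lb.r r2664 (@Lb.r r2470 (@Lb.r r1643 (@Lb.g g7 (@Lb.g g9 (@Lb.g g4 (@Lb.d (nat_lit 10) (nat_lit 10) (nat_lit 64) (@Lb.r r74 (@Lb.t (@Lb.fp (nat_lit 9) t3193)))))))))))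
noncomputable def l42129 : Lb := (@Lb.d (nat_lit 0) (nat_lit 274) (nat_lit 10) (@Lb.r r579 (@Lb.r r338 (@Lb.g g7 (@Lb.g g6 (@Lb.g g5 (@Lb.g g8 (@Lb.d (nat_lit 5) (nat_lit 1) (nat_lit 5) (@Lb.fp (nat_lit 9) t285)))))))))
noncomputable def l42130 : Lb := (@Lb.d (nat_lit 0) (nat_lit 18) (nat_lit 10) (@Lb.r r579 (@Lb.r r338 (@Lb.g g7 (@Lb.g g6 (@Lb.g g5 (@Lb.g g8 (@Lb.d (nat_lit 2) (nat_lit 129) (nat_lit 5) (@Lb.fp (nat_lit 9) t126)))))))))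
noncomputable def l42131 : Lb := (@Lb.d (nat_lit 9) (nat_lit 513) (nat_lit 130) (@Lb.g g8 (@Lb.g g9 (@Lb.g g10 (@Lb.g g11 (@Lb.r r427 (@Lb.r r424 (@Lb.r r106 (@Lb.r r25 (@Lb.d (nat_lit 585) (nat_lit 4) (nat_lit 680) (@Lb.fm (nat_lit 9) t2258)))))))))))
noncomputable def l42132 : Lb := (@Lb.d (nat_lit 0) (nat_lit 512) (nat_lit 130) (@Lb.g g4 (@Lb.g g10 (@Lb.g g11 (@Lb.r r419 (@Lb.r r386 (@Lb.d (nat_lit 292) (nat_lit 41) (nat_lit 168) (@Lb.t (@Lb.fm (nat_lit 9) t4055)))))))))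
noncomputable def l42133 : Lb := (@Lb.r r82 (@Lb.d (nat_lit 2) (nat_lit 273) (nat_lit 0) (@Lb.g g8 (@Lb.g g9 (@Lb.g g11 (@Lb.r r535 (@Lb.r r342 (@Lb.r r553 (@Lb.d (nat_lit 69) (nat_lit 18) (nat_lit 128) (@Lb.t (@Lb.fm (nat_lit 9) t5)))))))))))
noncomputable def l42134 : Lb := (@Lb.d (nat_lit 2) (nat_lit 260) (nat_lit 6) (@Lb.g g8 (@Lb.g g9 (@Lb.g g10 (@Lb.g g11 (@Lb.r r599 (@Lb.r r682 (@Lb.r r145 (@Lb.d (nat_lit 81) (nat_lit 17) (nat_lit 129) (@Lb.fp (nat_lit 9) t5))))))))))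
noncomputable def l42135 : Lb := (@Lb.d (nat_lit 133) (nat_lit 0) (nat_lit 130) (@Lb.g g8 (@Lb.g g9 (@Lb.g g10 (@Lb.g g11 (@Lb.r r2658 (@Lb.r r2659 (@Lb.r r677 (@Lb.r r1176 (@Lb.d (nat_lit 342) (nat_lit 10) (nat_lit 674) (@Lb.fm (nat_lit 9) t2605)))))))))))
noncomputable def l42136 : Lb := (@Lb.d (nat_lit 2) (nat_lit 512) (nat_lit 0) (@Lb.g g8 (@Lb.g g9 (@Lb.g g11 (@Lb.d (nat_lit 0) (nat_lit 0) (nat_lit 64) (@Lb.t (@Lb.fm (nat_lit 9) t2)))))))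
noncomputable def l42137 : Lb := (@Lb.d (nat_lit 2) (nat_lit 256) (nat_lit 0) (@Lb.g g8 (@Lb.g g9 (@Lb.g g11 (@Lb.r r1291 (@Lb.d (nat_lit 512) (nat_lit 0) (nat_lit 0) (@Lb.t (@Lb.fm (nat_lit 9) t441))))))))
noncomputable def l42138 : Lb := (@Lb.d (nat_lit 137) (nat_lit 514) (nat_lit 2) (@Lb.g g8 (@Lb.g g9 (@Lb.g g10 (@Lb.r r2691 (@Lb.r r1193 (@Lb.r r2666 (@Lb.r r104 (@Lb.d (nat_lit 676) (nat_lit 10) (nat_lit 89) (@Lb.t (@Lb.fp (nat_lit 9) t242)))))))))))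
noncomputable def l42139 : Lb := (@Lb.d (nat_lit 34) (nat_lit 258) (nat_lit 1) (@Lb.g g8 (@Lb.g g9 (@Lb.g g10 (@Lb.r r683 (@Lb.r r1429 (@Lb.r r1110 (@Lb.r r1540 (@Lb.d (nat_lit 393) (nat_lit 101) (nat_lit 340) (@Lb.t (@Lb.fp (nat_lit 9) t125)))))))))))
noncomputable def l42140 : Lb := (@Lb.d (nat_lit 9) (nat_lit 514) (nat_lit 74) (@Lb.g g8 (@Lb.g g9 (@Lb.g g10 (@Lb.g g11 (@Lb.r r2705 (@Lb.r r1371 (@Lb.r r2694 (@Lb.r r1416 (@Lb.d (nat_lit 128) (nat_lit 10) (nat_lit 392) (@Lb.fp (nat_lit 9) t221)))))))))))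
noncomputable def l42141 : Lb := (@Lb.d (nat_lit 10) (nat_lit 512) (nat_lit 0) (@Lb.g g8 (@Lb.r r1045 (@Lb.r r36 (@Lb.t (@Lb.fp (nat_lit 3) t2))))))
noncomputable def l42142 : Lb := (@Lb.d (nat_lit 546) (nat_lit 330) (nat_lit 410) (@Lb.r r277 (@Lb.r r619 (@Lb.r r612 (@Lb.g g6 (@Lb.d (nat_lit 32) (nat_lit 4) (nat_lit 1) (@Lb.r r387 (@Lb.t (@Lb.fp (nat_lit 3) t2490)))))))))
noncomputable def l42143 : Lb := (@Lb.d (nat_lit 362) (nat_lit 89) (nat_lit 294) (@Lb.r r2657 (@Lb.r r1430 (@Lb.r r619 (@Lb.g g5 (@Lb.g g4 (@Lb.d (nat_lit 8) (nat_lit 4) (nat_lit 0) (@Lb.r r98 (@Lb.fp (nat_lit 3) t40)))))))))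
noncomputable def l42144 : Lb := (@Lb.d (nat_lit 34) (nat_lit 2) (nat_lit 1) (@Lb.g g8 (@Lb.g g9 (@Lb.g g10 (@Lb.r r683 (@Lb.r r1429 (@Lb.r r1110 (@Lb.r r1540 (@Lb.d (nat_lit 386) (nat_lit 165) (nat_lit 340) (@Lb.t (@Lb.fp (nat_lit 9) t68)))))))))))
noncomputable def l42145 : Lb := (@Lb.d (nat_lit 34) (nat_lit 514) (nat_lit 73) (@Lb.g g8 (@Lb.g g9 (@Lb.g g10 (@Lb.g g11 (@Lb.r r2721 (@Lb.r r2343 (@Lb.r r330 (@Lb.r r1540 (@Lb.d (nat_lit 90) (nat_lit 2) (nat_lit 340) (@Lb.fm (nat_lit 9) t68)))))))))))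
noncomputable def l42146 : Lb := (@Lb.d (nat_lit 0) (nat_lit 512) (nat_lit 2) (@Lb.g g8 (@Lb.g g9 (@Lb.g g10 (@Lb.g g7 (@Lb.r r98 (@Lb.r r101 (@Lb.r r24 (@Lb.d (nat_lit 2) (nat_lit 0) (nat_lit 0) (@Lb.fm (nat_lit 9) t145))))))))))
noncomputable def l42147 : Lb := (@Lb.r r82 (@Lb.r r275 (@Lb.d (nat_lit 34) (nat_lit 416) (nat_lit 0) (@Lb.g g8 (@Lb.g g9 (@Lb.r r2727 (@Lb.r r150 (@Lb.r r100 (@Lb.d (nat_lit 330) (nat_lit 66) (nat_lit 2) (@Lb.fm (nat_lit 3) t7258))))))))))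
noncomputable def l42148 : Lb := (@Lb.d (nat_lit 262) (nat_lit 384) (nat_lit 330) (@Lb.r r2323 (@Lb.r r2597 (@Lb.r r1368 (@Lb.r r2470 (@Lb.g g7 (@Lb.g g6 (@Lb.g g5 (@Lb.d (nat_lit 0) (nat_lit 25) (nat_lit 5) (@Lb.t (@Lb.fm (nat_lit 9) t6058)))))))))))
noncomputable def l42149 : Lb := (@Lb.d (nat_lit 660) (nat_lit 513) (nat_lit 324) (@Lb.r r1608 (@Lb.r r1625 (@Lb.r r1611 (@Lb.g g7 (@Lb.g g10 (@Lb.g g4 (@Lb.d (nat_lit 18) (nat_lit 0) (nat_lit 66) (@Lb.r r25 (@Lb.t (@Lb.fm (nat_lit 9) t468)))))))))))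
noncomputable def l42150 : Lb := (@Lb.d (nat_lit 34) (nat_lit 514) (nat_lit 64) (@Lb.g g8 (@Lb.g g9 (@Lb.g g11 (@Lb.r r2339 (@Lb.r r361 (@Lb.r r150 (@Lb.r r612 (@Lb.d (nat_lit 154) (nat_lit 137) (nat_lit 518) (@Lb.t (@Lb.fm (nat_lit 9) t5941)))))))))))
noncomputable def l42151 : Lb := (@Lb.d (nat_lit 10) (nat_lit 256) (nat_lit 73) (@Lb.g g8 (@Lb.g g10 (@Lb.g g11 (@Lb.r r1109 (@Lb.r r2658 (@Lb.r r2436 (@Lb.d (nat_lit 610) (nat_lit 25) (nat_lit 549) (@Lb.t (@Lb.fm (nat_lit 9) t652))))))))))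
noncomputable def l42152 : Lb := (@Lb.d (nat_lit 166) (nat_lit 345) (nat_lit 534) (@Lb.r r2116 (@Lb.r r1301 (@Lb.r r2667 (@Lb.g g7 (@Lb.g g10 (@Lb.g g5 (@Lb.g g4 (@Lb.d (nat_lit 1) (nat_lit 6) (nat_lit 82) (@Lb.fp (nat_lit 9) t6237))))))))))
noncomputable def l42153 : Lb := (@Lb.d (nat_lit 128) (nat_lit 512) (nat_lit 385) (@Lb.g g8 (@Lb.g g10 (@Lb.g g11 (@Lb.r r1418 (@Lb.r r2581 (@Lb.r r292 (@Lb.d (nat_lit 293) (nat_lit 69) (nat_lit 145) (@Lb.t (@Lb.fp (nat_lit 9) t2538))))))))))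
noncomputable def l42154 : Lb := (@Lb.r r70 (@Lb.d (nat_lit 138) (nat_lit 256) (nat_lit 384) (@Lb.g g8 (@Lb.g g11 (@Lb.r r1602 (@Lb.r r2197 (@Lb.r r100 (@Lb.d (nat_lit 16) (nat_lit 86) (nat_lit 665) (@Lb.fm (nat_lit 3) t5353)))))))))
noncomputable def l42155 : Lb := (@Lb.r r82 (@Lb.d (nat_lit 2) (nat_lit 256) (nat_lit 64) (@Lb.g g8 (@Lb.g g9 (@Lb.g g11 (@Lb.r r2658 (@Lb.r r1060 (@Lb.r r2661 (@Lb.r r1315 (@Lb.d (nat_lit 2) (nat_lit 22) (nat_lit 517) (@Lb.t (@Lb.fp (nat_lit 9) t7259))))))))))))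
noncomputable def l42156 : Lb := (@Lb.r r21 (@Lb.d (nat_lit 257) (nat_lit 520) (nat_lit 73) (@Lb.g g4 (@Lb.g g10 (@Lb.g g11 (@Lb.r r647 (@Lb.r r89 (@Lb.r r614 (@Lb.d (nat_lit 532) (nat_lit 20) (nat_lit 681) (@Lb.t (@Lb.fm (nat_lit 9) t61)))))))))))
noncomputable def l42157 : Lb := (@Lb.d (nat_lit 288) (nat_lit 266) (nat_lit 161) (@Lb.r r24 (@Lb.r r1109 (@Lb.r r418 (@Lb.g g11 (@Lb.g g6 (@Lb.g g5 (@Lb.d (nat_lit 0) (nat_lit 18) (nat_lit 392) (@Lb.t (@Lb.fm (nat_lit 9) t495))))))))))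
noncomputable def l42158 : Lb := (@Lb.r r21 (@Lb.d (nat_lit 646) (nat_lit 256) (nat_lit 133) (@Lb.g g8 (@Lb.g g10 (@Lb.g g11 (@Lb.r r1443 (@Lb.r r2410 (@Lb.r r25 (@Lb.d (nat_lit 41) (nat_lit 105) (nat_lit 261) (@Lb.t (@Lb.fm (nat_lit 9) t7260)))))))))))
noncomputable def l42159 : Lb := (@Lb.d (nat_lit 2) (nat_lit 38) (nat_lit 133) (@Lb.g g8 (@Lb.g g9 (@Lb.g g10 (@Lb.g g11 (@Lb.r r1706 (@Lb.r r2451 (@Lb.r r1065 (@Lb.r r1416 (@Lb.d (nat_lit 576) (nat_lit 150) (nat_lit 356) (@Lb.fm (nat_lit 9) t2391)))))))))))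
noncomputable def l42160 : Lb := (@Lb.d (nat_lit 609) (nat_lit 10) (nat_lit 522) (@Lb.r r24 (@Lb.r r2405 (@Lb.r r386 (@Lb.r r2339 (@Lb.g g7 (@Lb.g g6 (@Lb.g g5 (@Lb.d (nat_lit 0) (nat_lit 26) (nat_lit 64) (@Lb.t (@Lb.fm (nat_lit 9) t1525)))))))))))
noncomputable def l42161 : Lb := (@Lb.d (nat_lit 2) (nat_lit 265) (nat_lit 72) (@Lb.g g8 (@Lb.g g9 (@Lb.g g10 (@Lb.g g11 (@Lb.r r1706 (@Lb.r r2451 (@Lb.r r1553 (@Lb.r r1416 (@Lb.d (nat_lit 641) (nat_lit 105) (nat_lit 90) (@Lb.fp (nat_lit 9) t2391)))))))))))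
noncomputable def l42162 : Lb := (@Lb.r r20 (@Lb.d (nat_lit 8) (nat_lit 546) (nat_lit 130) (@Lb.g g9 (@Lb.g g10 (@Lb.g g11 (@Lb.r r387 (@Lb.r r1624 (@Lb.r r2438 (@Lb.d (nat_lit 342) (nat_lit 66) (nat_lit 298) (@Lb.t (@Lb.fm (nat_lit 9) t7261)))))))))))
noncomputable def l42163 : Lb := (@Lb.d (nat_lit 4) (nat_lit 10) (nat_lit 73) (@Lb.g g8 (@Lb.g g9 (@Lb.g g10 (@Lb.g g11 (@Lb.r r1666 (@Lb.r r1431 (@Lb.r r2585 (@Lb.d (nat_lit 330) (nat_lit 42) (nat_lit 144) (@Lb.fm (nat_lit 9) t1397))))))))))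
noncomputable def l42164 : Lb := (@Lb.d (nat_lit 129) (nat_lit 514) (nat_lit 130) (@Lb.g g8 (@Lb.g g9 (@Lb.g g10 (@Lb.g g11 (@Lb.r r342 (@Lb.r r663 (@Lb.r r2657 (@Lb.r r2584 (@Lb.d (nat_lit 169) (nat_lit 9) (nat_lit 645) (@Lb.fm (nat_lit 9) t7262)))))))))))
noncomputable def l42165 : Lb := (@Lb.d (nat_lit 1) (nat_lit 522) (nat_lit 73) (@Lb.g g8 (@Lb.g g9 (@Lb.g g10 (@Lb.g g11 (@Lb.r r1666 (@Lb.r r2455 (@Lb.r r1633 (@Lb.r r24 (@Lb.d (nat_lit 552) (nat_lit 153) (nat_lit 265) (@Lb.fm (nat_lit 9) t1923)))))))))))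
noncomputable def l42166 : Lb := (@Lb.r r21 (@Lb.d (nat_lit 6) (nat_lit 0) (nat_lit 74) (@Lb.g g8 (@Lb.g g10 (@Lb.g g11 (@Lb.r r597 (@Lb.r r411 (@Lb.r r330 (@Lb.r r1348 (@Lb.d (nat_lit 641) (nat_lit 73) (nat_lit 549) (@Lb.t (@Lb.fm (nat_lit 9) t4250))))))))))))
noncomputable def l42167 : Lb := (@Lb.d (nat_lit 400) (nat_lit 678) (nat_lit 282) (@Lb.r r1604 (@Lb.r r1362 (@Lb.g g7 (@Lb.g g6 (@Lb.g g5 (@Lb.g g4 (@Lb.d (nat_lit 6) (nat_lit 1) (nat_lit 134) (@Lb.fp (nat_lit 9) t939)))))))))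
noncomputable def l42168 : Lb := (@Lb.g g4 (@Lb.g g7 (@Lb.r r2631 (@Lb.d (nat_lit 578) (nat_lit 0) (nat_lit 613) (@Lb.fp (nat_lit 3) t3355)))))
noncomputable def l42169 : Lb := (@Lb.d (nat_lit 600) (nat_lit 2) (nat_lit 166) (@Lb.r r277 (@Lb.r r1355 (@Lb.r r1348 (@Lb.g g6 (@Lb.d (nat_lit 0) (nat_lit 0) (nat_lit 42) (@Lb.r r387 (@Lb.t (@Lb.fm (nat_lit 3) t998)))))))))
noncomputable def l42170 : Lb := (@Lb.r r68 (@Lb.d (nat_lit 16) (nat_lit 2) (nat_lit 16) (@Lb.g g9 (@Lb.g g6 (@Lb.r r1640 (@Lb.r r1291 (@Lb.r r97 (@Lb.d (nat_lit 0) (nat_lit 41) (nat_lit 389) (@Lb.fp (nat_lit 3) t739)))))))))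
noncomputable def l42171 : Lb := (@Lb.d (nat_lit 153) (nat_lit 281) (nat_lit 130) (@Lb.g g8 (@Lb.g g9 (@Lb.g g10 (@Lb.g g11 (@Lb.r r2691 (@Lb.r r1192 (@Lb.r r2634 (@Lb.r r1313 (@Lb.d (nat_lit 665) (nat_lit 40) (nat_lit 360) (@Lb.fm (nat_lit 9) t1548)))))))))))
noncomputable def l42172 : Lb := (@Lb.d (nat_lit 154) (nat_lit 256) (nat_lit 132) (@Lb.g g8 (@Lb.g g10 (@Lb.g g11 (@Lb.r r2138 (@Lb.r r1685 (@Lb.r r2455 (@Lb.r r2632 (@Lb.d (nat_lit 104) (nat_lit 66) (nat_lit 258) (@Lb.t (@Lb.fp (nat_lit 9) t2426)))))))))))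
noncomputable def l42173 : Lb := (@Lb.d (nat_lit 169) (nat_lit 266) (nat_lit 136) (@Lb.g g8 (@Lb.g g9 (@Lb.g g11 (@Lb.r r2194 (@Lb.r r1125 (@Lb.r r2328 (@Lb.r r2311 (@Lb.d (nat_lit 585) (nat_lit 18) (nat_lit 532) (@Lb.t (@Lb.fp (nat_lit 9) t4077)))))))))))
noncomputable def l42174 : Lb := (@Lb.d (nat_lit 4) (nat_lit 10) (nat_lit 8) (@Lb.g g8 (@Lb.g g9 (@Lb.g g11 (@Lb.r r150 (@Lb.r r1369 (@Lb.r r547 (@Lb.d (nat_lit 609) (nat_lit 144) (nat_lit 585) (@Lb.t (@Lb.fm (nat_lit 9) t980))))))))))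
noncomputable def l42175 : Lb := (@Lb.d (nat_lit 134) (nat_lit 2) (nat_lit 130) (@Lb.g g8 (@Lb.g g9 (@Lb.g g10 (@Lb.g g11 (@Lb.r r1443 (@Lb.r r2726 (@Lb.r r344 (@Lb.r r1429 (@Lb.r r2084 (@Lb.d (nat_lit 98) (nat_lit 38) (nat_lit 641) (@Lb.fp (nat_lit 9) t5251))))))))))))
noncomputable def l42176 : Lb := (@Lb.r r21 (@Lb.d (nat_lit 645) (nat_lit 264) (nat_lit 130) (@Lb.g g8 (@Lb.g g10 (@Lb.g g11 (@Lb.r r1419 (@Lb.r r101 (@Lb.r r410 (@Lb.d (nat_lit 2) (nat_lit 21) (nat_lit 100) (@Lb.t (@Lb.fm (nat_lit 9) t2638)))))))))))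
noncomputable def l42177 : Lb := (@Lb.d (nat_lit 4) (nat_lit 10) (nat_lit 1) (@Lb.g g8 (@Lb.g g9 (@Lb.g g10 (@Lb.g g11 (@Lb.r r683 (@Lb.r r1689 (@Lb.r r146 (@Lb.d (nat_lit 610) (nat_lit 68) (nat_lit 408) (@Lb.fp (nat_lit 9) t941))))))))))
noncomputable def l42178 : Lb := (@Lb.d (nat_lit 0) (nat_lit 513) (nat_lit 66) (@Lb.g g8 (@Lb.g g9 (@Lb.g g10 (@Lb.g g7 (@Lb.r r425 (@Lb.r r98 (@Lb.r r2436 (@Lb.d (nat_lit 358) (nat_lit 138) (nat_lit 322) (@Lb.fp (nat_lit 9) t1557))))))))))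
noncomputable def l42179 : Lb := (@Lb.r r21 (@Lb.r r322 (@Lb.d (nat_lit 129) (nat_lit 32) (nat_lit 580) (@Lb.g g8 (@Lb.g g7 (@Lb.r r426 (@Lb.r r97 (@Lb.r r2132 (@Lb.d (nat_lit 546) (nat_lit 0) (nat_lit 82) (@Lb.fp (nat_lit 3) t1159))))))))))
noncomputable def l42180 : Lb := (@Lb.d (nat_lit 2) (nat_lit 2) (nat_lit 2) (@Lb.g g8 (@Lb.g g9 (@Lb.g g10 (@Lb.g g11 (@Lb.r r2722 (@Lb.r r404 (@Lb.r r681 (@Lb.r r427 (@Lb.r r1060 (@Lb.d (nat_lit 401) (nat_lit 10) (nat_lit 146) (@Lb.fp (nat_lit 9) t590))))))))))))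
noncomputable def l42181 : Lb := (@Lb.d (nat_lit 134) (nat_lit 512) (nat_lit 130) (@Lb.g g8 (@Lb.g g9 (@Lb.g g10 (@Lb.g g11 (@Lb.r r2729 (@Lb.r r1642 (@Lb.r r1640 (@Lb.r r2635 (@Lb.d (nat_lit 353) (nat_lit 98) (nat_lit 36) (@Lb.fm (nat_lit 9) t1481)))))))))))
noncomputable def l42182 : Lb := (@Lb.d (nat_lit 2) (nat_lit 258) (nat_lit 2) (@Lb.g g8 (@Lb.g g9 (@Lb.g g10 (@Lb.g g11 (@Lb.r r2722 (@Lb.r r404 (@Lb.r r681 (@Lb.r r427 (@Lb.r r1060 (@Lb.d (nat_lit 1) (nat_lit 10) (nat_lit 674) (@Lb.fp (nat_lit 9) t590))))))))))))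
noncomputable def l42183 : Lb := (@Lb.d (nat_lit 129) (nat_lit 530) (nat_lit 2) (@Lb.g g8 (@Lb.g g9 (@Lb.g g10 (@Lb.g g11 (@Lb.r r2713 (@Lb.r r667 (@Lb.r r98 (@Lb.r r2584 (@Lb.d (nat_lit 168) (nat_lit 166) (nat_lit 609) (@Lb.fp (nat_lit 9) t898)))))))))))
noncomputable def l42184 : Lb := (@Lb.d (nat_lit 0) (nat_lit 550) (nat_lit 169) (@Lb.r r417 (@Lb.r r134 (@Lb.r r347 (@Lb.r r340 (@Lb.g g9 (@Lb.d (nat_lit 4) (nat_lit 17) (nat_lit 0) (@Lb.t (@Lb.fp (nat_lit 3) t5)))))))))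
noncomputable def l42185 : Lb := (@Lb.d (nat_lit 0) (nat_lit 514) (nat_lit 34) (@Lb.r r609 (@Lb.r r619 (@Lb.r r584 (@Lb.g g10 (@Lb.d (nat_lit 32) (nat_lit 0) (nat_lit 17) (@Lb.r r387 (@Lb.t (@Lb.fm (nat_lit 3) t41)))))))))
noncomputable def l42186 : Lb := (@Lb.r r21 (@Lb.r r70 (@Lb.d (nat_lit 9) (nat_lit 256) (nat_lit 0) (@Lb.g g8 (@Lb.r r1301 (@Lb.r r2411 (@Lb.r r610 (@Lb.r r2152 (@Lb.d (nat_lit 552) (nat_lit 74) (nat_lit 68) (@Lb.t (@Lb.fm (nat_lit 3) t3472)))))))))))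
noncomputable def l42187 : Lb := (@Lb.d (nat_lit 2) (nat_lit 2) (nat_lit 2) (@Lb.g g8 (@Lb.g g9 (@Lb.g g10 (@Lb.r r427 (@Lb.r r386 (@Lb.r r25 (@Lb.r r24 (@Lb.d (nat_lit 609) (nat_lit 138) (nat_lit 296) (@Lb.t (@Lb.fm (nat_lit 9) t1663)))))))))))
noncomputable def l42188 : Lb := (@Lb.r r21 (@Lb.d (nat_lit 4) (nat_lit 0) (nat_lit 130) (@Lb.g g4 (@Lb.g g10 (@Lb.g g11 (@Lb.r r2691 (@Lb.r r1158 (@Lb.r r97 (@Lb.d (nat_lit 340) (nat_lit 10) (nat_lit 529) (@Lb.t (@Lb.fm (nat_lit 9) t939)))))))))))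
noncomputable def l42189 : Lb := (@Lb.r r21 (@Lb.d (nat_lit 17) (nat_lit 512) (nat_lit 128) (@Lb.g g4 (@Lb.g g10 (@Lb.g g11 (@Lb.r r2707 (@Lb.r r1174 (@Lb.r r97 (@Lb.d (nat_lit 352) (nat_lit 130) (nat_lit 544) (@Lb.t (@Lb.fm (nat_lit 9) t1246)))))))))))
noncomputable def l42190 : Lb := (@Lb.d (nat_lit 1) (nat_lit 2) (nat_lit 2) (@Lb.g g8 (@Lb.g g9 (@Lb.g g10 (@Lb.g g7 (@Lb.r r386 (@Lb.r r97 (@Lb.r r2584 (@Lb.d (nat_lit 650) (nat_lit 169) (nat_lit 393) (@Lb.fp (nat_lit 9) t3305))))))))))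
noncomputable def l42191 : Lb := (@Lb.r r21 (@Lb.r r70 (@Lb.d (nat_lit 129) (nat_lit 256) (nat_lit 128) (@Lb.g g8 (@Lb.g g11 (@Lb.r r267 (@Lb.r r1606 (@Lb.r r1557 (@Lb.r r2312 (@Lb.d (nat_lit 66) (nat_lit 0) (nat_lit 384) (@Lb.fp (nat_lit 3) t7263)))))))))))
noncomputable def l42192 : Lb := (@Lb.r r331 (@Lb.d (nat_lit 32) (nat_lit 258) (nat_lit 1) (@Lb.g g8 (@Lb.g g9 (@Lb.g g10 (@Lb.r r2466 (@Lb.r r1383 (@Lb.r r2329 (@Lb.r r1108 (@Lb.d (nat_lit 128) (nat_lit 162) (nat_lit 616) (@Lb.t (@Lb.fp (nat_lit 9) t7264))))))))))))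
noncomputable def l42193 : Lb := (@Lb.d (nat_lit 593) (nat_lit 577) (nat_lit 165) (@Lb.r r1092 (@Lb.r r666 (@Lb.r r395 (@Lb.r r388 (@Lb.g g5 (@Lb.d (nat_lit 0) (nat_lit 134) (nat_lit 0) (@Lb.t (@Lb.fp (nat_lit 3) t7265)))))))))
noncomputable def l42194 : Lb := (@Lb.d (nat_lit 2) (nat_lit 578) (nat_lit 73) (@Lb.g g8 (@Lb.g g9 (@Lb.g g10 (@Lb.g g11 (@Lb.r r2475 (@Lb.r r1188 (@Lb.r r1638 (@Lb.d (nat_lit 88) (nat_lit 153) (nat_lit 517) (@Lb.fp (nat_lit 9) t7266))))))))))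
noncomputable def l42195 : Lb := (@Lb.r r277 (@Lb.d (nat_lit 518) (nat_lit 8) (nat_lit 2) (@Lb.g g8 (@Lb.g g10 (@Lb.g g11 (@Lb.r r1411 (@Lb.r r101 (@Lb.r r1434 (@Lb.d (nat_lit 20) (nat_lit 90) (nat_lit 394) (@Lb.t (@Lb.fm (nat_lit 9) t2805)))))))))))
noncomputable def l42196 : Lb := (@Lb.r r277 (@Lb.d (nat_lit 518) (nat_lit 0) (nat_lit 130) (@Lb.g g8 (@Lb.g g10 (@Lb.g g11 (@Lb.r r594 (@Lb.r r409 (@Lb.r r1319 (@Lb.d (nat_lit 676) (nat_lit 166) (nat_lit 584) (@Lb.t (@Lb.fm (nat_lit 9) t2805)))))))))))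
noncomputable def l42197 : Lb := (@Lb.r r85 (@Lb.r r323 (@Lb.d (nat_lit 646) (nat_lit 0) (nat_lit 8) (@Lb.g g8 (@Lb.g g10 (@Lb.r r2643 (@Lb.r r1313 (@Lb.d (nat_lit 330) (nat_lit 0) (nat_lit 18) (@Lb.fm (nat_lit 3) t3480)))))))))
noncomputable def l42198 : Lb := (@Lb.r r82 (@Lb.d (nat_lit 132) (nat_lit 2) (nat_lit 128) (@Lb.g g8 (@Lb.g g9 (@Lb.g g11 (@Lb.r r419 (@Lb.r r386 (@Lb.r r1060 (@Lb.r r2149 (@Lb.d (nat_lit 325) (nat_lit 137) (nat_lit 529) (@Lb.t (@Lb.fm (nat_lit 9) t2436))))))))))))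
noncomputable def l42199 : Lb := (@Lb.d (nat_lit 410) (nat_lit 0) (nat_lit 288) (@Lb.r r532 (@Lb.r r1418 (@Lb.r r2647 (@Lb.r r1441 (@Lb.g g10 (@Lb.r r145 (@Lb.r r132 (@Lb.t (@Lb.fm (nat_lit 3) t2183))))))))))
noncomputable def l42200 : Lb := (@Lb.d (nat_lit 641) (nat_lit 2) (nat_lit 130) (@Lb.g g8 (@Lb.g g9 (@Lb.g g10 (@Lb.g g11 (@Lb.r r1451 (@Lb.r r106 (@Lb.r r97 (@Lb.d (nat_lit 264) (nat_lit 138) (nat_lit 392) (@Lb.fm (nat_lit 9) t3342))))))))))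
noncomputable def l42201 : Lb := (@Lb.d (nat_lit 10) (nat_lit 100) (nat_lit 130) (@Lb.r r37 (@Lb.r r2395 (@Lb.r r2388 (@Lb.g g7 (@Lb.g g6 (@Lb.d (nat_lit 32) (nat_lit 0) (nat_lit 97) (@Lb.r r145 (@Lb.fp (nat_lit 3) t590)))))))))
noncomputable def l42202 : Lb := (@Lb.d (nat_lit 410) (nat_lit 256) (nat_lit 416) (@Lb.r r532 (@Lb.r r1418 (@Lb.r r2647 (@Lb.r r1441 (@Lb.g g10 (@Lb.r r145 (@Lb.r r132 (@Lb.t (@Lb.fm (nat_lit 3) t2183))))))))))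
noncomputable def l42203 : Lb := (@Lb.d (nat_lit 660) (nat_lit 549) (nat_lit 96) (@Lb.r r598 (@Lb.r r2465 (@Lb.r r327 (@Lb.r r648 (@Lb.g g10 (@Lb.d (nat_lit 16) (nat_lit 0) (nat_lit 1) (@Lb.t (@Lb.fp (nat_lit 3) t2078)))))))))
noncomputable def l42204 : Lb := (@Lb.d (nat_lit 2) (nat_lit 4) (nat_lit 0) (@Lb.g g8 (@Lb.g g9 (@Lb.g g10 (@Lb.r r683 (@Lb.r r2666 (@Lb.r r2585 (@Lb.r r24 (@Lb.d (nat_lit 9) (nat_lit 10) (nat_lit 545) (@Lb.t (@Lb.fm (nat_lit 9) t4245)))))))))))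
noncomputable def l42205 : Lb := (@Lb.d (nat_lit 9) (nat_lit 257) (nat_lit 2) (@Lb.g g8 (@Lb.g g9 (@Lb.g g10 (@Lb.r r2729 (@Lb.r r2475 (@Lb.r r2468 (@Lb.r r2438 (@Lb.d (nat_lit 401) (nat_lit 10) (nat_lit 329) (@Lb.t (@Lb.fm (nat_lit 9) t590)))))))))))
noncomputable def l42206 : Lb := (@Lb.r r322 (@Lb.d (nat_lit 128) (nat_lit 272) (nat_lit 320) (@Lb.g g7 (@Lb.r r2473 (@Lb.r r2150 (@Lb.r r24 (@Lb.d (nat_lit 258) (nat_lit 69) (nat_lit 81) (@Lb.t (@Lb.fm (nat_lit 3) t1959)))))))))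
noncomputable def l42207 : Lb := (@Lb.d (nat_lit 160) (nat_lit 8) (nat_lit 64) (@Lb.g g10 (@Lb.g g11 (@Lb.r r1124 (@Lb.r r2645 (@Lb.r r667 (@Lb.r r2378 (@Lb.d (nat_lit 537) (nat_lit 89) (nat_lit 608) (@Lb.fp (nat_lit 3) t698)))))))))
noncomputable def l42208 : Lb := (@Lb.d (nat_lit 160) (nat_lit 520) (nat_lit 64) (@Lb.g g10 (@Lb.g g11 (@Lb.r r1124 (@Lb.r r2645 (@Lb.r r667 (@Lb.r r2378 (@Lb.d (nat_lit 530) (nat_lit 90) (nat_lit 608) (@Lb.fp (nat_lit 3) t698)))))))))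
noncomputable def l42209 : Lb := (@Lb.g g10 (@Lb.g g7 (@Lb.r r402 (@Lb.r r24 (@Lb.r r101 (@Lb.d (nat_lit 330) (nat_lit 73) (nat_lit 338) (@Lb.fm (nat_lit 3) t1628)))))))
noncomputable def l42210 : Lb := (@Lb.d (nat_lit 2) (nat_lit 520) (nat_lit 0) (@Lb.g g8 (@Lb.g g9 (@Lb.g g11 (@Lb.r r2438 (@Lb.r r1688 (@Lb.r r2469 (@Lb.r r2579 (@Lb.d (nat_lit 34) (nat_lit 41) (nat_lit 165) (@Lb.t (@Lb.fm (nat_lit 9) t5077)))))))))))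
noncomputable def l42211 : Lb := (@Lb.d (nat_lit 2) (nat_lit 258) (nat_lit 130) (@Lb.g g8 (@Lb.g g9 (@Lb.g g10 (@Lb.g g11 (@Lb.r r2723 (@Lb.r r1634 (@Lb.r r1553 (@Lb.d (nat_lit 641) (nat_lit 105) (nat_lit 609) (@Lb.fm (nat_lit 9) t5076))))))))))
noncomputable def l42212 : Lb := (@Lb.d (nat_lit 34) (nat_lit 0) (nat_lit 0) (@Lb.g g8 (@Lb.r r1173 (@Lb.r r150 (@Lb.r r356 (@Lb.r r1291 (@Lb.d (nat_lit 2) (nat_lit 41) (nat_lit 132) (@Lb.t (@Lb.fm (nat_lit 3) t322)))))))))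
noncomputable def l42213 : Lb := (@Lb.d (nat_lit 536) (nat_lit 426) (nat_lit 528) (@Lb.r r1362 (@Lb.r r679 (@Lb.r r344 (@Lb.g g7 (@Lb.g g6 (@Lb.g g5 (@Lb.d (nat_lit 16) (nat_lit 66) (nat_lit 133) (@Lb.t (@Lb.fp (nat_lit 9) t2995))))))))))
noncomputable def l42214 : Lb := (@Lb.r r70 (@Lb.d (nat_lit 4) (nat_lit 257) (nat_lit 0) (@Lb.g g8 (@Lb.g g5 (@Lb.r r1122 (@Lb.r r1560 (@Lb.d (nat_lit 578) (nat_lit 1) (nat_lit 384) (@Lb.fm (nat_lit 3) t7267))))))))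
noncomputable def l42215 : Lb := (@Lb.r r680 (@Lb.r r1690 (@Lb.r r1675 (@Lb.r r1057 (@Lb.r r1668 (@Lb.d (nat_lit 330) (nat_lit 578) (nat_lit 576) (@Lb.fp (nat_lit 1) t3706)))))))
noncomputable def l42216 : Lb := (@Lb.d (nat_lit 0) (nat_lit 518) (nat_lit 169) (@Lb.r r2372 (@Lb.r r602 (@Lb.r r587 (@Lb.r r580 (@Lb.g g5 (@Lb.d (nat_lit 0) (nat_lit 66) (nat_lit 0) (@Lb.t (@Lb.fp (nat_lit 3) t2001)))))))))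
noncomputable def l42217 : Lb := (@Lb.d (nat_lit 2) (nat_lit 545) (nat_lit 66) (@Lb.g g8 (@Lb.g g9 (@Lb.g g10 (@Lb.g g11 (@Lb.r r2729 (@Lb.r r427 (@Lb.r r2468 (@Lb.r r2438 (@Lb.d (nat_lit 360) (nat_lit 9) (nat_lit 105) (@Lb.fp (nat_lit 9) t3482)))))))))))
noncomputable def l42218 : Lb := (@Lb.d (nat_lit 2) (nat_lit 514) (nat_lit 74) (@Lb.g g8 (@Lb.g g9 (@Lb.g g10 (@Lb.g g11 (@Lb.r r289 (@Lb.r r411 (@Lb.r r74 (@Lb.r r529 (@Lb.d (nat_lit 81) (nat_lit 10) (nat_lit 10) (@Lb.fm (nat_lit 9) t263)))))))))))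
noncomputable def l42219 : Lb := (@Lb.r r82 (@Lb.d (nat_lit 34) (nat_lit 258) (nat_lit 584) (@Lb.g g8 (@Lb.g g9 (@Lb.g g7 (@Lb.r r1385 (@Lb.r r150 (@Lb.r r84 (@Lb.d (nat_lit 81) (nat_lit 133) (nat_lit 617) (@Lb.t (@Lb.fp (nat_lit 9) t2282)))))))))))
noncomputable def l42220 : Lb := (@Lb.d (nat_lit 2) (nat_lit 272) (nat_lit 585) (@Lb.g g8 (@Lb.g g9 (@Lb.g g10 (@Lb.g g7 (@Lb.r r418 (@Lb.r r664 (@Lb.r r421 (@Lb.d (nat_lit 101) (nat_lit 128) (nat_lit 585) (@Lb.fp (nat_lit 9) t6793))))))))))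
noncomputable def l42221 : Lb := (@Lb.d (nat_lit 2) (nat_lit 17) (nat_lit 137) (@Lb.g g8 (@Lb.g g9 (@Lb.g g10 (@Lb.g g11 (@Lb.r r1450 (@Lb.r r1668 (@Lb.r r1543 (@Lb.r r2453 (@Lb.d (nat_lit 148) (nat_lit 149) (nat_lit 152) (@Lb.fp (nat_lit 9) t4118)))))))))))
noncomputable def l42222 : Lb := (@Lb.d (nat_lit 322) (nat_lit 408) (nat_lit 532) (@Lb.r r2371 (@Lb.r r658 (@Lb.r r85 (@Lb.g g7 (@Lb.g g5 (@Lb.g g4 (@Lb.d (nat_lit 614) (nat_lit 2) (nat_lit 128) (@Lb.r r74 (@Lb.t (@Lb.fm (nat_lit 9) t7268)))))))))))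
noncomputable def l42223 : Lb := (@Lb.r r21 (@Lb.r r70 (@Lb.d (nat_lit 657) (nat_lit 256) (nat_lit 0) (@Lb.g g8 (@Lb.g g11 (@Lb.r r2695 (@Lb.r r74 (@Lb.r r25 (@Lb.d (nat_lit 2) (nat_lit 66) (nat_lit 597) (@Lb.fp (nat_lit 3) t2521))))))))))
noncomputable def l42224 : Lb := (@Lb.d (nat_lit 2) (nat_lit 272) (nat_lit 137) (@Lb.g g8 (@Lb.g g9 (@Lb.g g10 (@Lb.g g11 (@Lb.r r1675 (@Lb.r r1610 (@Lb.r r1624 (@Lb.r r2341 (@Lb.d (nat_lit 617) (nat_lit 16) (nat_lit 338) (@Lb.fm (nat_lit 9) t6607)))))))))))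
noncomputable def l42225 : Lb := (@Lb.d (nat_lit 26) (nat_lit 530) (nat_lit 586) (@Lb.g g8 (@Lb.g g9 (@Lb.g g10 (@Lb.g g7 (@Lb.r r1442 (@Lb.r r341 (@Lb.r r72 (@Lb.d (nat_lit 9) (nat_lit 149) (nat_lit 328) (@Lb.fm (nat_lit 9) t2017))))))))))
noncomputable def l42226 : Lb := (@Lb.r r68 (@Lb.d (nat_lit 0) (nat_lit 4) (nat_lit 105) (@Lb.g g9 (@Lb.g g6 (@Lb.g g11 (@Lb.r r101 (@Lb.r r1560 (@Lb.r r1611 (@Lb.d (nat_lit 608) (nat_lit 0) (nat_lit 392) (@Lb.t (@Lb.fm (nat_lit 9) t981)))))))))))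
noncomputable def l42227 : Lb := (@Lb.r r323 (@Lb.d (nat_lit 2) (nat_lit 2) (nat_lit 1) (@Lb.g g8 (@Lb.g g9 (@Lb.g g6 (@Lb.r r2579 (@Lb.r r104 (@Lb.r r25 (@Lb.d (nat_lit 580) (nat_lit 137) (nat_lit 528) (@Lb.t (@Lb.fp (nat_lit 9) t7269)))))))))))
noncomputable def l42228 : Lb := (@Lb.d (nat_lit 400) (nat_lit 1) (nat_lit 416) (@Lb.r r532 (@Lb.r r1418 (@Lb.r r2647 (@Lb.r r1441 (@Lb.g g10 (@Lb.r r145 (@Lb.r r132 (@Lb.t (@Lb.fm (nat_lit 3) t2183))))))))))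
noncomputable def l42229 : Lb := (@Lb.d (nat_lit 1) (nat_lit 256) (nat_lit 344) (@Lb.r r1604 (@Lb.r r146 (@Lb.r r353 (@Lb.g g11 (@Lb.g g5 (@Lb.d (nat_lit 0) (nat_lit 1) (nat_lit 384) (@Lb.r r578 (@Lb.fp (nat_lit 3) t4399)))))))))
noncomputable def l42230 : Lb := (@Lb.r r82 (@Lb.d (nat_lit 32) (nat_lit 554) (nat_lit 64) (@Lb.g g8 (@Lb.g g9 (@Lb.g g11 (@Lb.r r1575 (@Lb.r r582 (@Lb.r r2452 (@Lb.r r1129 (@Lb.d (nat_lit 74) (nat_lit 170) (nat_lit 534) (@Lb.t (@Lb.fm (nat_lit 9) t1606))))))))))))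
noncomputable def l42231 : Lb := (@Lb.d (nat_lit 132) (nat_lit 17) (nat_lit 129) (@Lb.g g8 (@Lb.g g9 (@Lb.g g10 (@Lb.g g11 (@Lb.r r1634 (@Lb.r r2659 (@Lb.r r1640 (@Lb.r r2729 (@Lb.d (nat_lit 597) (nat_lit 80) (nat_lit 138) (@Lb.fm (nat_lit 9) t2957)))))))))))
noncomputable def l42232 : Lb := (@Lb.d (nat_lit 128) (nat_lit 9) (nat_lit 161) (@Lb.g g9 (@Lb.g g6 (@Lb.g g11 (@Lb.r r264 (@Lb.r r391 (@Lb.r r97 (@Lb.d (nat_lit 98) (nat_lit 22) (nat_lit 297) (@Lb.t (@Lb.fp (nat_lit 9) t1549))))))))))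
noncomputable def l42233 : Lb := (@Lb.d (nat_lit 298) (nat_lit 256) (nat_lit 18) (@Lb.r r150 (@Lb.r r72 (@Lb.r r2341 (@Lb.r r347 (@Lb.g g7 (@Lb.g g6 (@Lb.d (nat_lit 16) (nat_lit 0) (nat_lit 129) (@Lb.fp (nat_lit 3) t924)))))))))
noncomputable def l42234 : Lb := (@Lb.d (nat_lit 322) (nat_lit 593) (nat_lit 256) (@Lb.r r1637 (@Lb.r r1435 (@Lb.r r2454 (@Lb.g g7 (@Lb.g g6 (@Lb.g g5 (@Lb.g g4 (@Lb.d (nat_lit 6) (nat_lit 8) (nat_lit 133) (@Lb.fp (nat_lit 9) t7270))))))))))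
noncomputable def l42235 : Lb := (@Lb.d (nat_lit 0) (nat_lit 8) (nat_lit 2) (@Lb.g g10 (@Lb.r r1427 (@Lb.r r24 (@Lb.d (nat_lit 612) (nat_lit 128) (nat_lit 594) (@Lb.t (@Lb.fm (nat_lit 3) t1554)))))))
noncomputable def l42236 : Lb := (@Lb.d (nat_lit 362) (nat_lit 548) (nat_lit 277) (@Lb.r r2663 (@Lb.r r1432 (@Lb.r r338 (@Lb.g g7 (@Lb.g g6 (@Lb.g g5 (@Lb.g g4 (@Lb.d (nat_lit 1) (nat_lit 25) (nat_lit 128) (@Lb.fp (nat_lit 9) t7271))))))))))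
noncomputable def l42237 : Lb := (@Lb.d (nat_lit 0) (nat_lit 8) (nat_lit 2) (@Lb.g g10 (@Lb.r r1427 (@Lb.r r24 (@Lb.d (nat_lit 613) (nat_lit 138) (nat_lit 593) (@Lb.t (@Lb.fm (nat_lit 3) t1554)))))))
noncomputable def l42238 : Lb := (@Lb.r r21 (@Lb.d (nat_lit 2) (nat_lit 0) (nat_lit 152) (@Lb.g g8 (@Lb.g g6 (@Lb.g g11 (@Lb.r r97 (@Lb.r r2632 (@Lb.d (nat_lit 356) (nat_lit 88) (nat_lit 170) (@Lb.t (@Lb.fp (nat_lit 9) t3305))))))))))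
noncomputable def l42239 : Lb := (@Lb.r r597 (@Lb.d (nat_lit 129) (nat_lit 264) (nat_lit 6) (@Lb.g g8 (@Lb.g g6 (@Lb.g g11 (@Lb.r r1429 (@Lb.r r299 (@Lb.r r2468 (@Lb.d (nat_lit 649) (nat_lit 102) (nat_lit 388) (@Lb.t (@Lb.fp (nat_lit 9) t2554)))))))))))
noncomputable def l42240 : Lb := (@Lb.d (nat_lit 262) (nat_lit 576) (nat_lit 64) (@Lb.r r277 (@Lb.r r2370 (@Lb.r r519 (@Lb.r r264 (@Lb.g g7 (@Lb.d (nat_lit 64) (nat_lit 0) (nat_lit 64) (@Lb.t (@Lb.fm (nat_lit 3) t468)))))))))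
noncomputable def l42241 : Lb := (@Lb.r r82 (@Lb.d (nat_lit 10) (nat_lit 513) (nat_lit 0) (@Lb.g g8 (@Lb.g g9 (@Lb.r r2122 (@Lb.r r1561 (@Lb.d (nat_lit 388) (nat_lit 98) (nat_lit 128) (@Lb.fm (nat_lit 3) t225))))))))
noncomputable def l42242 : Lb := (@Lb.d (nat_lit 264) (nat_lit 612) (nat_lit 129) (@Lb.r r24 (@Lb.r r1617 (@Lb.r r2470 (@Lb.g g11 (@Lb.g g6 (@Lb.g g5 (@Lb.d (nat_lit 0) (nat_lit 0) (nat_lit 1) (@Lb.t (@Lb.fm (nat_lit 9) t1345))))))))))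
noncomputable def l42243 : Lb := (@Lb.d (nat_lit 521) (nat_lit 674) (nat_lit 672) (@Lb.r r2196 (@Lb.r r2454 (@Lb.r r601 (@Lb.r r323 (@Lb.g g7 (@Lb.g g6 (@Lb.d (nat_lit 0) (nat_lit 0) (nat_lit 64) (@Lb.fp (nat_lit 3) t7272)))))))))
noncomputable def l42244 : Lb := (@Lb.d (nat_lit 521) (nat_lit 418) (nat_lit 544) (@Lb.r r2196 (@Lb.r r2454 (@Lb.r r601 (@Lb.r r323 (@Lb.g g7 (@Lb.g g6 (@Lb.d (nat_lit 0) (nat_lit 0) (nat_lit 64) (@Lb.fp (nat_lit 3) t7272)))))))))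
noncomputable def l42245 : Lb := (@Lb.d (nat_lit 344) (nat_lit 134) (nat_lit 648) (@Lb.r r1178 (@Lb.r r1381 (@Lb.r r2707 (@Lb.g g7 (@Lb.g g6 (@Lb.g g4 (@Lb.d (nat_lit 8) (nat_lit 4) (nat_lit 134) (@Lb.t (@Lb.fm (nat_lit 9) t2503))))))))))
noncomputable def l42246 : Lb := (@Lb.r r323 (@Lb.d (nat_lit 8) (nat_lit 258) (nat_lit 18) (@Lb.g g9 (@Lb.g g10 (@Lb.r r1540 (@Lb.r r1447 (@Lb.r r421 (@Lb.d (nat_lit 256) (nat_lit 132) (nat_lit 34) (@Lb.fp (nat_lit 3) t2503)))))))))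
noncomputable def l42247 : Lb := (@Lb.d (nat_lit 265) (nat_lit 100) (nat_lit 101) (@Lb.r r2068 (@Lb.r r1065 (@Lb.r r424 (@Lb.r r2370 (@Lb.g g7 (@Lb.g g6 (@Lb.g g5 (@Lb.g g4 (@Lb.d (nat_lit 96) (nat_lit 1) (nat_lit 576) (@Lb.fp (nat_lit 9) t282)))))))))))
noncomputable def l42248 : Lb := (@Lb.d (nat_lit 664) (nat_lit 20) (nat_lit 73) (@Lb.r r353 (@Lb.r r331 (@Lb.r r614 (@Lb.g g7 (@Lb.g g5 (@Lb.g g8 (@Lb.d (nat_lit 576) (nat_lit 5) (nat_lit 64) (@Lb.r r74 (@Lb.t (@Lb.fp (nat_lit 9) t6613)))))))))))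
noncomputable def l42249 : Lb := (@Lb.r r21 (@Lb.d (nat_lit 10) (nat_lit 512) (nat_lit 42) (@Lb.g g8 (@Lb.g g10 (@Lb.g g11 (@Lb.r r1681 (@Lb.r r2395 (@Lb.r r1432 (@Lb.d (nat_lit 388) (nat_lit 21) (nat_lit 426) (@Lb.t (@Lb.fp (nat_lit 9) t7273)))))))))))
noncomputable def l42250 : Lb := (@Lb.r r70 (@Lb.r r263 (@Lb.d (nat_lit 512) (nat_lit 521) (nat_lit 0) (@Lb.g g8 (@Lb.g g9 (@Lb.r r267 (@Lb.r r1106 (@Lb.r r153 (@Lb.d (nat_lit 281) (nat_lit 10) (nat_lit 17) (@Lb.fm (nat_lit 3) t1699))))))))))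
noncomputable def l42251 : Lb := (@Lb.d (nat_lit 129) (nat_lit 2) (nat_lit 66) (@Lb.g g8 (@Lb.g g9 (@Lb.g g10 (@Lb.g g11 (@Lb.r r2217 (@Lb.r r520 (@Lb.r r1627 (@Lb.r r386 (@Lb.r r132 (@Lb.d (nat_lit 522) (nat_lit 4) (nat_lit 72) (@Lb.fp (nat_lit 9) t6584))))))))))))
noncomputable def l42252 : Lb := (@Lb.d (nat_lit 146) (nat_lit 514) (nat_lit 4) (@Lb.g g8 (@Lb.g g9 (@Lb.g g10 (@Lb.g g11 (@Lb.r r1193 (@Lb.r r532 (@Lb.r r2663 (@Lb.r r358 (@Lb.r r1092 (@Lb.d (nat_lit 345) (nat_lit 38) (nat_lit 417) (@Lb.fp (nat_lit 9) t6122))))))))))))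
noncomputable def l42253 : Lb := (@Lb.d (nat_lit 134) (nat_lit 513) (nat_lit 128) (@Lb.g g8 (@Lb.g g5 (@Lb.g g11 (@Lb.r r356 (@Lb.r r2587 (@Lb.r r1540 (@Lb.d (nat_lit 538) (nat_lit 152) (nat_lit 394) (@Lb.t (@Lb.fm (nat_lit 9) t4646))))))))))
noncomputable def l42254 : Lb := (@Lb.d (nat_lit 66) (nat_lit 5) (nat_lit 106) (@Lb.r r650 (@Lb.r r427 (@Lb.r r341 (@Lb.g g7 (@Lb.g g6 (@Lb.g g4 (@Lb.d (nat_lit 9) (nat_lit 8) (nat_lit 133) (@Lb.r r25 (@Lb.t (@Lb.fm (nat_lit 9) t1832)))))))))))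
noncomputable def l42255 : Lb := (@Lb.d (nat_lit 129) (nat_lit 514) (nat_lit 66) (@Lb.g g8 (@Lb.g g9 (@Lb.g g10 (@Lb.g g11 (@Lb.r r681 (@Lb.r r427 (@Lb.r r388 (@Lb.r r2438 (@Lb.r r25 (@Lb.d (nat_lit 352) (nat_lit 65) (nat_lit 673) (@Lb.fp (nat_lit 9) t7274))))))))))))
noncomputable def l42256 : Lb := (@Lb.r r323 (@Lb.d (nat_lit 2) (nat_lit 4) (nat_lit 0) (@Lb.g g8 (@Lb.g g9 (@Lb.g g10 (@Lb.r r2331 (@Lb.r r2217 (@Lb.r r2664 (@Lb.r r1350 (@Lb.d (nat_lit 409) (nat_lit 73) (nat_lit 149) (@Lb.t (@Lb.fm (nat_lit 9) t4411))))))))))))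
noncomputable def l42257 : Lb := (@Lb.d (nat_lit 0) (nat_lit 514) (nat_lit 130) (@Lb.g g8 (@Lb.g g9 (@Lb.g g10 (@Lb.g g11 (@Lb.r r586 (@Lb.r r600 (@Lb.r r293 (@Lb.r r539 (@Lb.r r516 (@Lb.d (nat_lit 9) (nat_lit 66) (nat_lit 640) (@Lb.fm (nat_lit 9) t387))))))))))))
noncomputable def l42258 : Lb := (@Lb.d (nat_lit 641) (nat_lit 512) (nat_lit 0) (@Lb.g g4 (@Lb.r r529 (@Lb.r r659 (@Lb.r r674 (@Lb.r r1105 (@Lb.d (nat_lit 8) (nat_lit 2) (nat_lit 16) (@Lb.t (@Lb.fm (nat_lit 3) t1242)))))))))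
noncomputable def l42259 : Lb := (@Lb.d (nat_lit 642) (nat_lit 288) (nat_lit 10) (@Lb.g g8 (@Lb.g g9 (@Lb.g g10 (@Lb.r r2331 (@Lb.r r1641 (@Lb.r r2642 (@Lb.d (nat_lit 648) (nat_lit 2) (nat_lit 618) (@Lb.t (@Lb.fp (nat_lit 9) t7275))))))))))
noncomputable def l42260 : Lb := (@Lb.r r323 (@Lb.d (nat_lit 16) (nat_lit 9) (nat_lit 0) (@Lb.g g8 (@Lb.g g9 (@Lb.g g10 (@Lb.r r2339 (@Lb.r r1049 (@Lb.r r2184 (@Lb.r r106 (@Lb.d (nat_lit 258) (nat_lit 9) (nat_lit 1) (@Lb.t (@Lb.fp (nat_lit 9) t1751))))))))))))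
noncomputable def l42261 : Lb := (@Lb.d (nat_lit 0) (nat_lit 128) (nat_lit 256) (@Lb.r r20 (@Lb.r r2145 (@Lb.r r402 (@Lb.g g11 (@Lb.t (@Lb.fp (nat_lit 3) t150)))))))
noncomputable def l42262 : Lb := (@Lb.d (nat_lit 536) (nat_lit 18) (nat_lit 0) (@Lb.g g8 (@Lb.g g9 (@Lb.g g10 (@Lb.g g11 (@Lb.r r2699 (@Lb.r r2634 (@Lb.r r2341 (@Lb.d (nat_lit 425) (nat_lit 34) (nat_lit 105) (@Lb.fp (nat_lit 9) t3104))))))))))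
noncomputable def l42263 : Lb := (@Lb.d (nat_lit 2) (nat_lit 258) (nat_lit 130) (@Lb.g g8 (@Lb.g g9 (@Lb.g g10 (@Lb.g g11 (@Lb.r r586 (@Lb.r r1688 (@Lb.r r2469 (@Lb.r r1627 (@Lb.d (nat_lit 402) (nat_lit 74) (nat_lit 598) (@Lb.fm (nat_lit 9) t6637)))))))))))
noncomputable def l42264 : Lb := (@Lb.d (nat_lit 34) (nat_lit 274) (nat_lit 0) (@Lb.g g8 (@Lb.g g5 (@Lb.r r2579 (@Lb.r r150 (@Lb.r r2660 (@Lb.d (nat_lit 265) (nat_lit 74) (nat_lit 594) (@Lb.fp (nat_lit 3) t6696))))))))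
noncomputable def l42265 : Lb := (@Lb.r r323 (@Lb.d (nat_lit 2) (nat_lit 544) (nat_lit 2) (@Lb.g g8 (@Lb.g g9 (@Lb.g g10 (@Lb.r r1299 (@Lb.r r74 (@Lb.r r2664 (@Lb.r r2585 (@Lb.d (nat_lit 165) (nat_lit 105) (nat_lit 545) (@Lb.t (@Lb.fp (nat_lit 9) t1994))))))))))))
noncomputable def l42266 : Lb := (@Lb.r r323 (@Lb.d (nat_lit 393) (nat_lit 520) (nat_lit 2) (@Lb.g g4 (@Lb.g g10 (@Lb.r r601 (@Lb.r r1371 (@Lb.r r1634 (@Lb.d (nat_lit 293) (nat_lit 138) (nat_lit 345) (@Lb.fp (nat_lit 3) t554)))))))))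
noncomputable def l42267 : Lb := (@Lb.r r82 (@Lb.d (nat_lit 532) (nat_lit 40) (nat_lit 0) (@Lb.g g8 (@Lb.g g9 (@Lb.r r662 (@Lb.r r407 (@Lb.r r2665 (@Lb.d (nat_lit 677) (nat_lit 2) (nat_lit 392) (@Lb.fm (nat_lit 3) t7276)))))))))
noncomputable def l42268 : Lb := (@Lb.d (nat_lit 2) (nat_lit 258) (nat_lit 130) (@Lb.g g8 (@Lb.g g9 (@Lb.g g10 (@Lb.g g11 (@Lb.r r536 (@Lb.r r2197 (@Lb.r r2646 (@Lb.r r579 (@Lb.r r164 (@Lb.d (nat_lit 153) (nat_lit 166) (nat_lit 74) (@Lb.fp (nat_lit 9) t6865))))))))))))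
noncomputable def l42269 : Lb := (@Lb.d (nat_lit 32) (nat_lit 2) (nat_lit 128) (@Lb.g g8 (@Lb.g g9 (@Lb.g g11 (@Lb.r r2198 (@Lb.r r273 (@Lb.r r2411 (@Lb.r r2376 (@Lb.d (nat_lit 73) (nat_lit 82) (nat_lit 276) (@Lb.t (@Lb.fm (nat_lit 9) t414)))))))))))
noncomputable def l42270 : Lb := (@Lb.d (nat_lit 64) (nat_lit 0) (nat_lit 362) (@Lb.r r24 (@Lb.r r2661 (@Lb.r r2403 (@Lb.g g10 (@Lb.d (nat_lit 0) (nat_lit 8) (nat_lit 38) (@Lb.t (@Lb.fp (nat_lit 3) t242))))))))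
noncomputable def l42271 : Lb := (@Lb.d (nat_lit 2) (nat_lit 258) (nat_lit 2) (@Lb.g g8 (@Lb.g g9 (@Lb.g g10 (@Lb.r r2666 (@Lb.r r579 (@Lb.r r2457 (@Lb.r r24 (@Lb.d (nat_lit 608) (nat_lit 9) (nat_lit 137) (@Lb.t (@Lb.fm (nat_lit 9) t4512)))))))))))
noncomputable def l42272 : Lb := (@Lb.d (nat_lit 2) (nat_lit 514) (nat_lit 2) (@Lb.g g8 (@Lb.g g9 (@Lb.g g10 (@Lb.r r2666 (@Lb.r r579 (@Lb.r r2457 (@Lb.r r24 (@Lb.d (nat_lit 618) (nat_lit 8) (nat_lit 137) (@Lb.t (@Lb.fm (nat_lit 9) t4512)))))))))))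
noncomputable def l42273 : Lb := (@Lb.d (nat_lit 9) (nat_lit 513) (nat_lit 2) (@Lb.g g8 (@Lb.g g9 (@Lb.g g10 (@Lb.r r2666 (@Lb.r r579 (@Lb.r r420 (@Lb.r r2469 (@Lb.d (nat_lit 89) (nat_lit 165) (nat_lit 169) (@Lb.t (@Lb.fm (nat_lit 9) t6017)))))))))))
noncomputable def l42274 : Lb := (@Lb.d (nat_lit 146) (nat_lit 26) (nat_lit 73) (@Lb.g g8 (@Lb.g g9 (@Lb.g g10 (@Lb.g g11 (@Lb.r r2218 (@Lb.r r420 (@Lb.r r1307 (@Lb.r r533 (@Lb.r r36 (@Lb.d (nat_lit 641) (nat_lit 66) (nat_lit 362) (@Lb.fm (nat_lit 9) t2681))))))))))))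
noncomputable def l42275 : Lb := (@Lb.d (nat_lit 149) (nat_lit 338) (nat_lit 641) (@Lb.r r21 (@Lb.r r86 (@Lb.r r424 (@Lb.g g11 (@Lb.g g6 (@Lb.g g5 (@Lb.g g4 (@Lb.d (nat_lit 1) (nat_lit 8) (nat_lit 128) (@Lb.fp (nat_lit 9) t7277))))))))))
noncomputable def l42276 : Lb := (@Lb.d (nat_lit 409) (nat_lit 25) (nat_lit 73) (@Lb.g g8 (@Lb.g g9 (@Lb.g g10 (@Lb.g g11 (@Lb.r r2475 (@Lb.r r1602 (@Lb.r r409 (@Lb.d (nat_lit 152) (nat_lit 73) (nat_lit 277) (@Lb.fp (nat_lit 9) t7218))))))))))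
noncomputable def l42277 : Lb := (@Lb.d (nat_lit 153) (nat_lit 18) (nat_lit 74) (@Lb.g g8 (@Lb.g g9 (@Lb.g g10 (@Lb.g g11 (@Lb.r r2691 (@Lb.r r1602 (@Lb.r r297 (@Lb.r r1060 (@Lb.d (nat_lit 648) (nat_lit 130) (nat_lit 329) (@Lb.fp (nat_lit 9) t6956)))))))))))
noncomputable def l42278 : Lb := (@Lb.d (nat_lit 266) (nat_lit 258) (nat_lit 410) (@Lb.r r609 (@Lb.r r619 (@Lb.r r584 (@Lb.r r358 (@Lb.g g7 (@Lb.d (nat_lit 0) (nat_lit 0) (nat_lit 64) (@Lb.t (@Lb.fp (nat_lit 3) t1921)))))))))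
noncomputable def l42279 : Lb := (@Lb.d (nat_lit 321) (nat_lit 145) (nat_lit 74) (@Lb.r r657 (@Lb.r r602 (@Lb.r r356 (@Lb.g g11 (@Lb.g g5 (@Lb.d (nat_lit 8) (nat_lit 1) (nat_lit 384) (@Lb.r r578 (@Lb.fp (nat_lit 3) t1499)))))))))
noncomputable def l42280 : Lb := (@Lb.d (nat_lit 0) (nat_lit 258) (nat_lit 130) (@Lb.g g8 (@Lb.g g9 (@Lb.g g10 (@Lb.g g11 (@Lb.r r169 (@Lb.r r424 (@Lb.r r263 (@Lb.r r98 (@Lb.r r516 (@Lb.d (nat_lit 1) (nat_lit 88) (nat_lit 425) (@Lb.fp (nat_lit 9) t153))))))))))))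
noncomputable def l42281 : Lb := (@Lb.r r263 (@Lb.d (nat_lit 0) (nat_lit 546) (nat_lit 2) (@Lb.g g8 (@Lb.g g9 (@Lb.g g10 (@Lb.r r275 (@Lb.r r2713 (@Lb.r r410 (@Lb.r r1048 (@Lb.d (nat_lit 665) (nat_lit 38) (nat_lit 609) (@Lb.t (@Lb.fm (nat_lit 9) t7278))))))))))))
noncomputable def l42282 : Lb := (@Lb.r r323 (@Lb.d (nat_lit 16) (nat_lit 521) (nat_lit 10) (@Lb.g g8 (@Lb.g g9 (@Lb.g g10 (@Lb.r r2339 (@Lb.r r1049 (@Lb.r r596 (@Lb.r r2442 (@Lb.d (nat_lit 682) (nat_lit 137) (nat_lit 680) (@Lb.t (@Lb.fp (nat_lit 9) t1751))))))))))))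
noncomputable def l42283 : Lb := (@Lb.d (nat_lit 32) (nat_lit 0) (nat_lit 64) (@Lb.g g10 (@Lb.g g11 (@Lb.r r1447 (@Lb.r r2648 (@Lb.r r2453 (@Lb.r r1430 (@Lb.d (nat_lit 358) (nat_lit 90) (nat_lit 2) (@Lb.fm (nat_lit 3) t386)))))))))
noncomputable def l42284 : Lb := (@Lb.d (nat_lit 2) (nat_lit 18) (nat_lit 74) (@Lb.g g8 (@Lb.g g5 (@Lb.g g10 (@Lb.g g11 (@Lb.r r1419 (@Lb.r r1156 (@Lb.r r1174 (@Lb.d (nat_lit 421) (nat_lit 165) (nat_lit 390) (@Lb.fp (nat_lit 9) t7279))))))))))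
noncomputable def l42285 : Lb := (@Lb.d (nat_lit 2) (nat_lit 274) (nat_lit 2) (@Lb.g g8 (@Lb.g g5 (@Lb.g g10 (@Lb.r r2579 (@Lb.r r2468 (@Lb.r r2438 (@Lb.d (nat_lit 160) (nat_lit 42) (nat_lit 169) (@Lb.t (@Lb.fp (nat_lit 9) t7280))))))))))
noncomputable def l42286 : Lb := (@Lb.d (nat_lit 536) (nat_lit 384) (nat_lit 168) (@Lb.r r322 (@Lb.r r659 (@Lb.r r578 (@Lb.g g5 (@Lb.g g8 (@Lb.d (nat_lit 320) (nat_lit 129) (nat_lit 0) (@Lb.fm (nat_lit 3) t7281))))))))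
noncomputable def l42287 : Lb := (@Lb.d (nat_lit 144) (nat_lit 258) (nat_lit 64) (@Lb.g g8 (@Lb.g g9 (@Lb.g g10 (@Lb.g g11 (@Lb.r r2186 (@Lb.r r552 (@Lb.r r2667 (@Lb.r r1561 (@Lb.r r1540 (@Lb.d (nat_lit 522) (nat_lit 85) (nat_lit 664) (@Lb.fm (nat_lit 9) t773))))))))))))
noncomputable def l42288 : Lb := (@Lb.d (nat_lit 2) (nat_lit 0) (nat_lit 130) (@Lb.g g8 (@Lb.g g9 (@Lb.g g10 (@Lb.g g11 (@Lb.r r665 (@Lb.r r1435 (@Lb.r r2122 (@Lb.r r1553 (@Lb.d (nat_lit 544) (nat_lit 10) (nat_lit 161) (@Lb.fp (nat_lit 9) t145)))))))))))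
noncomputable def l42289 : Lb := (@Lb.r r82 (@Lb.d (nat_lit 130) (nat_lit 2) (nat_lit 256) (@Lb.g g8 (@Lb.g g9 (@Lb.g g7 (@Lb.r r386 (@Lb.r r1321 (@Lb.r r264 (@Lb.d (nat_lit 680) (nat_lit 66) (nat_lit 418) (@Lb.t (@Lb.fm (nat_lit 9) t5984)))))))))))
noncomputable def l42290 : Lb := (@Lb.d (nat_lit 10) (nat_lit 512) (nat_lit 0) (@Lb.g g8 (@Lb.r r2641 (@Lb.r r2651 (@Lb.r r358 (@Lb.r r2564 (@Lb.d (nat_lit 265) (nat_lit 2) (nat_lit 160) (@Lb.t (@Lb.fm (nat_lit 3) t1261)))))))))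
noncomputable def l42291 : Lb := (@Lb.d (nat_lit 10) (nat_lit 389) (nat_lit 513) (@Lb.r r289 (@Lb.r r535 (@Lb.r r356 (@Lb.r r90 (@Lb.g g6 (@Lb.g g5 (@Lb.d (nat_lit 4) (nat_lit 1) (nat_lit 1) (@Lb.r r387 (@Lb.fm (nat_lit 3) t353))))))))))
noncomputable def l42292 : Lb := (@Lb.d (nat_lit 641) (nat_lit 2) (nat_lit 73) (@Lb.g g4 (@Lb.g g9 (@Lb.g g10 (@Lb.g g11 (@Lb.r r1667 (@Lb.r r145 (@Lb.r r594 (@Lb.r r1169 (@Lb.d (nat_lit 1) (nat_lit 97) (nat_lit 618) (@Lb.fp (nat_lit 9) t5637)))))))))))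
noncomputable def l42293 : Lb := (@Lb.d (nat_lit 0) (nat_lit 288) (nat_lit 128) (@Lb.g g4 (@Lb.g g7 (@Lb.r r2641 (@Lb.r r2402 (@Lb.r r2451 (@Lb.d (nat_lit 1) (nat_lit 133) (nat_lit 101) (@Lb.fm (nat_lit 3) t246))))))))
noncomputable def l42294 : Lb := (@Lb.r r21 (@Lb.d (nat_lit 146) (nat_lit 512) (nat_lit 10) (@Lb.g g8 (@Lb.g g10 (@Lb.g g11 (@Lb.r r1707 (@Lb.r r2585 (@Lb.r r2692 (@Lb.r r614 (@Lb.d (nat_lit 360) (nat_lit 137) (nat_lit 21) (@Lb.t (@Lb.fp (nat_lit 9) t584))))))))))))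
noncomputable def l42295 : Lb := (@Lb.d (nat_lit 642) (nat_lit 258) (nat_lit 73) (@Lb.g g8 (@Lb.g g9 (@Lb.g g10 (@Lb.g g11 (@Lb.r r2658 (@Lb.r r583 (@Lb.r r25 (@Lb.d (nat_lit 408) (nat_lit 97) (nat_lit 586) (@Lb.fm (nat_lit 9) t4738))))))))))
noncomputable def l42296 : Lb := (@Lb.d (nat_lit 1) (nat_lit 2) (nat_lit 9) (@Lb.g g8 (@Lb.g g9 (@Lb.g g10 (@Lb.g g11 (@Lb.r r2691 (@Lb.r r1193 (@Lb.r r1642 (@Lb.r r36 (@Lb.d (nat_lit 390) (nat_lit 1) (nat_lit 342) (@Lb.fp (nat_lit 9) t6424)))))))))))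
noncomputable def l42297 : Lb := (@Lb.d (nat_lit 8) (nat_lit 289) (nat_lit 66) (@Lb.g g8 (@Lb.g g9 (@Lb.g g10 (@Lb.g g11 (@Lb.r r2658 (@Lb.r r1060 (@Lb.r r2661 (@Lb.r r1315 (@Lb.d (nat_lit 409) (nat_lit 161) (nat_lit 400) (@Lb.fm (nat_lit 9) t1606)))))))))))
noncomputable def l42298 : Lb := (@Lb.r r21 (@Lb.d (nat_lit 10) (nat_lit 256) (nat_lit 2) (@Lb.g g8 (@Lb.g g10 (@Lb.g g11 (@Lb.r r411 (@Lb.r r145 (@Lb.r r1434 (@Lb.r r1432 (@Lb.d (nat_lit 153) (nat_lit 85) (nat_lit 393) (@Lb.t (@Lb.fm (nat_lit 9) t1299))))))))))))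
noncomputable def l42299 : Lb := (@Lb.r r283 (@Lb.d (nat_lit 18) (nat_lit 266) (nat_lit 1) (@Lb.g g8 (@Lb.g g9 (@Lb.g g10 (@Lb.r r2475 (@Lb.r r2193 (@Lb.r r402 (@Lb.r r1288 (@Lb.d (nat_lit 130) (nat_lit 102) (nat_lit 548) (@Lb.t (@Lb.fm (nat_lit 9) t7282))))))))))))
noncomputable def l42300 : Lb := (@Lb.d (nat_lit 5) (nat_lit 352) (nat_lit 69) (@Lb.r r289 (@Lb.r r279 (@Lb.r r584 (@Lb.r r102 (@Lb.g g6 (@Lb.r r387 (@Lb.t (@Lb.fm (nat_lit 3) t151)))))))))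
noncomputable def l42301 : Lb := (@Lb.r r21 (@Lb.r r323 (@Lb.d (nat_lit 33) (nat_lit 512) (nat_lit 2) (@Lb.g g8 (@Lb.g g10 (@Lb.r r1691 (@Lb.r r1561 (@Lb.r r1620 (@Lb.r r586 (@Lb.d (nat_lit 101) (nat_lit 98) (nat_lit 586) (@Lb.fp (nat_lit 3) t74)))))))))))
noncomputable def l42302 : Lb := (@Lb.r r2343 (@Lb.r r1561 (@Lb.r r1684 (@Lb.r r2150 (@Lb.d (nat_lit 5) (nat_lit 128) (nat_lit 102) (@Lb.fp (nat_lit 1) t1040))))))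
noncomputable def l42303 : Lb := (@Lb.d (nat_lit 0) (nat_lit 40) (nat_lit 65) (@Lb.g g8 (@Lb.g g9 (@Lb.g g10 (@Lb.g g11 (@Lb.r r2722 (@Lb.r r1415 (@Lb.r r1572 (@Lb.r r1685 (@Lb.d (nat_lit 420) (nat_lit 6) (nat_lit 293) (@Lb.fm (nat_lit 9) t340)))))))))))
noncomputable def l42304 : Lb := (@Lb.d (nat_lit 4) (nat_lit 522) (nat_lit 1) (@Lb.g g8 (@Lb.g g9 (@Lb.g g10 (@Lb.g g11 (@Lb.r r683 (@Lb.r r1689 (@Lb.r r146 (@Lb.d (nat_lit 612) (nat_lit 69) (nat_lit 408) (@Lb.fp (nat_lit 9) t4579))))))))))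
noncomputable def l42305 : Lb := (@Lb.r r82 (@Lb.d (nat_lit 4) (nat_lit 544) (nat_lit 64) (@Lb.g g8 (@Lb.g g9 (@Lb.g g11 (@Lb.r r2467 (@Lb.r r36 (@Lb.r r421 (@Lb.r r98 (@Lb.d (nat_lit 325) (nat_lit 2) (nat_lit 85) (@Lb.t (@Lb.fp (nat_lit 9) t2420))))))))))))
noncomputable def l42306 : Lb := (@Lb.d (nat_lit 645) (nat_lit 256) (nat_lit 0) (@Lb.g g8 (@Lb.d (nat_lit 330) (nat_lit 0) (nat_lit 0) (@Lb.t (@Lb.fp (nat_lit 3) t7283)))))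
noncomputable def l42307 : Lb := (@Lb.r r273 (@Lb.r r2595 (@Lb.r r2178 (@Lb.r r529 (@Lb.r r2584 (@Lb.d (nat_lit 6) (nat_lit 0) (nat_lit 512) (@Lb.fm (nat_lit 1) t1495)))))))
noncomputable def l42308 : Lb := (@Lb.d (nat_lit 22) (nat_lit 673) (nat_lit 646) (@Lb.r r37 (@Lb.r r88 (@Lb.r r386 (@Lb.g g11 (@Lb.g g6 (@Lb.g g5 (@Lb.d (nat_lit 0) (nat_lit 1) (nat_lit 1) (@Lb.t (@Lb.fp (nat_lit 9) t5756))))))))))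
noncomputable def l42309 : Lb := (@Lb.r r277 (@Lb.d (nat_lit 518) (nat_lit 520) (nat_lit 130) (@Lb.g g8 (@Lb.g g10 (@Lb.g g11 (@Lb.r r1411 (@Lb.r r101 (@Lb.r r1434 (@Lb.d (nat_lit 20) (nat_lit 85) (nat_lit 393) (@Lb.t (@Lb.fm (nat_lit 9) t1039)))))))))))
noncomputable def l42310 : Lb := (@Lb.r r277 (@Lb.d (nat_lit 518) (nat_lit 264) (nat_lit 130) (@Lb.g g8 (@Lb.g g10 (@Lb.g g11 (@Lb.r r1411 (@Lb.r r101 (@Lb.r r1434 (@Lb.d (nat_lit 20) (nat_lit 90) (nat_lit 394) (@Lb.t (@Lb.fm (nat_lit 9) t2805)))))))))))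
noncomputable def l42311 : Lb := (@Lb.d (nat_lit 6) (nat_lit 288) (nat_lit 0) (@Lb.g g4 (@Lb.g g11 (@Lb.r r2385 (@Lb.r r2658 (@Lb.r r1635 (@Lb.d (nat_lit 273) (nat_lit 42) (nat_lit 408) (@Lb.fm (nat_lit 3) t246))))))))
noncomputable def l42312 : Lb := (@Lb.d (nat_lit 256) (nat_lit 266) (nat_lit 274) (@Lb.r r20 (@Lb.r r105 (@Lb.r r40 (@Lb.r r402 (@Lb.g g11 (@Lb.g g6 (@Lb.g g5 (@Lb.g g4 (@Lb.d (nat_lit 1) (nat_lit 5) (nat_lit 1) (@Lb.fp (nat_lit 9) t7284)))))))))))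
noncomputable def l42313 : Lb := (@Lb.d (nat_lit 2) (nat_lit 260) (nat_lit 128) (@Lb.g g8 (@Lb.g g9 (@Lb.g g10 (@Lb.g g11 (@Lb.r r2691 (@Lb.r r2216 (@Lb.r r2666 (@Lb.r r97 (@Lb.d (nat_lit 328) (nat_lit 132) (nat_lit 392) (@Lb.fm (nat_lit 9) t597)))))))))))
noncomputable def l42314 : Lb := (@Lb.d (nat_lit 2) (nat_lit 548) (nat_lit 130) (@Lb.g g8 (@Lb.g g9 (@Lb.g g10 (@Lb.g g11 (@Lb.r r1602 (@Lb.r r2627 (@Lb.r r1177 (@Lb.r r24 (@Lb.d (nat_lit 89) (nat_lit 89) (nat_lit 86) (@Lb.fp (nat_lit 9) t7285)))))))))))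
noncomputable def l42315 : Lb := (@Lb.d (nat_lit 32) (nat_lit 256) (nat_lit 73) (@Lb.g g9 (@Lb.g g10 (@Lb.g g11 (@Lb.r r2695 (@Lb.r r1352 (@Lb.r r2390 (@Lb.r r409 (@Lb.d (nat_lit 128) (nat_lit 128) (nat_lit 330) (@Lb.t (@Lb.fm (nat_lit 9) t1087)))))))))))
noncomputable def l42316 : Lb := (@Lb.d (nat_lit 0) (nat_lit 260) (nat_lit 128) (@Lb.g g9 (@Lb.g g10 (@Lb.g g11 (@Lb.r r2435 (@Lb.r r1442 (@Lb.r r145 (@Lb.r r8 (@Lb.d (nat_lit 610) (nat_lit 132) (nat_lit 257) (@Lb.t (@Lb.fm (nat_lit 9) t5038)))))))))))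
noncomputable def l42317 : Lb := (@Lb.r r82 (@Lb.d (nat_lit 5) (nat_lit 34) (nat_lit 128) (@Lb.g g8 (@Lb.g g9 (@Lb.g g11 (@Lb.r r555 (@Lb.r r1430 (@Lb.r r2585 (@Lb.r r1624 (@Lb.d (nat_lit 81) (nat_lit 36) (nat_lit 681) (@Lb.t (@Lb.fp (nat_lit 9) t7286))))))))))))
noncomputable def l42318 : Lb := (@Lb.d (nat_lit 130) (nat_lit 516) (nat_lit 128) (@Lb.g g8 (@Lb.g g9 (@Lb.g g10 (@Lb.g g11 (@Lb.r r2443 (@Lb.r r1177 (@Lb.r r1434 (@Lb.d (nat_lit 402) (nat_lit 22) (nat_lit 340) (@Lb.fm (nat_lit 9) t7287))))))))))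
noncomputable def l42319 : Lb := (@Lb.r r82 (@Lb.d (nat_lit 37) (nat_lit 34) (nat_lit 128) (@Lb.g g8 (@Lb.g g9 (@Lb.g g11 (@Lb.r r2390 (@Lb.r r2695 (@Lb.r r2657 (@Lb.r r328 (@Lb.d (nat_lit 64) (nat_lit 26) (nat_lit 678) (@Lb.t (@Lb.fp (nat_lit 9) t7288))))))))))))
noncomputable def l42320 : Lb := (@Lb.r r82 (@Lb.d (nat_lit 73) (nat_lit 289) (nat_lit 328) (@Lb.g g8 (@Lb.g g9 (@Lb.g g7 (@Lb.r r614 (@Lb.r r677 (@Lb.r r1700 (@Lb.d (nat_lit 613) (nat_lit 69) (nat_lit 166) (@Lb.t (@Lb.fm (nat_lit 9) t7289)))))))))))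
noncomputable def l42321 : Lb := (@Lb.d (nat_lit 2) (nat_lit 2) (nat_lit 0) (@Lb.g g8 (@Lb.g g9 (@Lb.r r2563 (@Lb.r r2178 (@Lb.r r292 (@Lb.r r1045 (@Lb.r r2084 (@Lb.d (nat_lit 578) (nat_lit 145) (nat_lit 576) (@Lb.fm (nat_lit 3) t5180))))))))))
noncomputable def l42322 : Lb := (@Lb.d (nat_lit 130) (nat_lit 16) (nat_lit 129) (@Lb.g g8 (@Lb.g g9 (@Lb.g g10 (@Lb.g g11 (@Lb.r r1642 (@Lb.r r2667 (@Lb.r r36 (@Lb.r r2069 (@Lb.r r36 (@Lb.d (nat_lit 361) (nat_lit 36) (nat_lit 89) (@Lb.fm (nat_lit 9) t318))))))))))))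
noncomputable def l42323 : Lb := (@Lb.d (nat_lit 2) (nat_lit 0) (nat_lit 17) (@Lb.g g8 (@Lb.g g9 (@Lb.g g10 (@Lb.r r2563 (@Lb.r r36 (@Lb.r r1557 (@Lb.r r36 (@Lb.d (nat_lit 2) (nat_lit 145) (nat_lit 593) (@Lb.t (@Lb.fp (nat_lit 9) t2027)))))))))))
noncomputable def l42324 : Lb := (@Lb.d (nat_lit 6) (nat_lit 256) (nat_lit 2) (@Lb.g g4 (@Lb.g g10 (@Lb.r r1347 (@Lb.r r578 (@Lb.r r101 (@Lb.d (nat_lit 1) (nat_lit 4) (nat_lit 416) (@Lb.fm (nat_lit 3) t87))))))))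
noncomputable def l42325 : Lb := (@Lb.r r323 (@Lb.d (nat_lit 25) (nat_lit 5) (nat_lit 0) (@Lb.g g8 (@Lb.g g9 (@Lb.g g10 (@Lb.r r2662 (@Lb.r r2631 (@Lb.r r1624 (@Lb.r r533 (@Lb.d (nat_lit 277) (nat_lit 64) (nat_lit 166) (@Lb.t (@Lb.fm (nat_lit 9) t981))))))))))))
noncomputable def l42326 : Lb := (@Lb.d (nat_lit 8) (nat_lit 258) (nat_lit 0) (@Lb.g g5 (@Lb.r r2563 (@Lb.r r2178 (@Lb.r r2344 (@Lb.r r1577 (@Lb.d (nat_lit 9) (nat_lit 2) (nat_lit 256) (@Lb.t (@Lb.fm (nat_lit 3) t2027)))))))))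
noncomputable def l42327 : Lb := (@Lb.r r323 (@Lb.d (nat_lit 2) (nat_lit 258) (nat_lit 2) (@Lb.g g8 (@Lb.g g9 (@Lb.g g10 (@Lb.r r2390 (@Lb.r r387 (@Lb.r r2325 (@Lb.r r24 (@Lb.d (nat_lit 546) (nat_lit 97) (nat_lit 292) (@Lb.t (@Lb.fp (nat_lit 9) t7290))))))))))))
noncomputable def l42328 : Lb := (@Lb.d (nat_lit 132) (nat_lit 258) (nat_lit 130) (@Lb.g g8 (@Lb.g g9 (@Lb.g g10 (@Lb.g g11 (@Lb.r r610 (@Lb.r r2201 (@Lb.r r2388 (@Lb.r r2635 (@Lb.d (nat_lit 353) (nat_lit 138) (nat_lit 673) (@Lb.fm (nat_lit 9) t70)))))))))))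
noncomputable def l42329 : Lb := (@Lb.r r82 (@Lb.d (nat_lit 641) (nat_lit 258) (nat_lit 128) (@Lb.g g8 (@Lb.g g9 (@Lb.g g11 (@Lb.r r1323 (@Lb.r r153 (@Lb.r r146 (@Lb.d (nat_lit 264) (nat_lit 4) (nat_lit 408) (@Lb.t (@Lb.fp (nat_lit 9) t7291)))))))))))
noncomputable def l42330 : Lb := (@Lb.d (nat_lit 2) (nat_lit 38) (nat_lit 64) (@Lb.g g8 (@Lb.g g9 (@Lb.g g10 (@Lb.g g11 (@Lb.r r427 (@Lb.r r420 (@Lb.r r102 (@Lb.r r132 (@Lb.d (nat_lit 40) (nat_lit 1) (nat_lit 18) (@Lb.fp (nat_lit 9) t3095)))))))))))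
noncomputable def l42331 : Lb := (@Lb.r r70 (@Lb.d (nat_lit 266) (nat_lit 517) (nat_lit 0) (@Lb.g g8 (@Lb.g g9 (@Lb.r r662 (@Lb.r r2731 (@Lb.r r2601 (@Lb.d (nat_lit 325) (nat_lit 18) (nat_lit 640) (@Lb.fp (nat_lit 3) t644)))))))))
noncomputable def l42332 : Lb := (@Lb.d (nat_lit 168) (nat_lit 600) (nat_lit 282) (@Lb.r r2583 (@Lb.r r1384 (@Lb.r r361 (@Lb.r r1622 (@Lb.g g7 (@Lb.d (nat_lit 64) (nat_lit 16) (nat_lit 132) (@Lb.t (@Lb.fp (nat_lit 3) t2600)))))))))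
noncomputable def l42333 : Lb := (@Lb.d (nat_lit 6) (nat_lit 512) (nat_lit 128) (@Lb.g g4 (@Lb.g g10 (@Lb.g g11 (@Lb.r r2626 (@Lb.r r579 (@Lb.d (nat_lit 324) (nat_lit 65) (nat_lit 344) (@Lb.t (@Lb.fm (nat_lit 9) t716)))))))))
noncomputable def l42334 : Lb := (@Lb.d (nat_lit 0) (nat_lit 32) (nat_lit 144) (@Lb.g g10 (@Lb.g g11 (@Lb.r r353 (@Lb.r r663 (@Lb.r r2308 (@Lb.d (nat_lit 38) (nat_lit 72) (nat_lit 81) (@Lb.fm (nat_lit 3) t322))))))))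
noncomputable def l42335 : Lb := (@Lb.d (nat_lit 410) (nat_lit 282) (nat_lit 72) (@Lb.r r149 (@Lb.r r2148 (@Lb.r r386 (@Lb.r r339 (@Lb.g g7 (@Lb.g g6 (@Lb.d (nat_lit 0) (nat_lit 0) (nat_lit 65) (@Lb.fp (nat_lit 3) t50)))))))))
noncomputable def l42336 : Lb := (@Lb.r r323 (@Lb.d (nat_lit 4) (nat_lit 256) (nat_lit 2) (@Lb.g g8 (@Lb.g g9 (@Lb.g g10 (@Lb.r r1351 (@Lb.r r2186 (@Lb.r r1129 (@Lb.r r36 (@Lb.d (nat_lit 21) (nat_lit 68) (nat_lit 0) (@Lb.t (@Lb.fm (nat_lit 9) t7292))))))))))))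
noncomputable def l42337 : Lb := (@Lb.d (nat_lit 422) (nat_lit 166) (nat_lit 282) (@Lb.r r1672 (@Lb.r r2370 (@Lb.r r599 (@Lb.g g6 (@Lb.g g5 (@Lb.g g4 (@Lb.d (nat_lit 96) (nat_lit 1) (nat_lit 0) (@Lb.r r291 (@Lb.t (@Lb.fp (nat_lit 9) t2095)))))))))))
noncomputable def l42338 : Lb := (@Lb.r r323 (@Lb.d (nat_lit 6) (nat_lit 512) (nat_lit 32) (@Lb.g g4 (@Lb.g g10 (@Lb.r r2439 (@Lb.d (nat_lit 70) (nat_lit 65) (nat_lit 528) (@Lb.fp (nat_lit 3) t1165)))))))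
noncomputable def l42339 : Lb := (@Lb.d (nat_lit 130) (nat_lit 264) (nat_lit 0) (@Lb.g g8 (@Lb.g g10 (@Lb.r r295 (@Lb.r r1121 (@Lb.r r406 (@Lb.r r1604 (@Lb.d (nat_lit 150) (nat_lit 128) (nat_lit 602) (@Lb.fm (nat_lit 3) t322)))))))))
noncomputable def l42340 : Lb := (@Lb.r r70 (@Lb.r r263 (@Lb.d (nat_lit 550) (nat_lit 258) (nat_lit 0) (@Lb.g g4 (@Lb.g g9 (@Lb.r r267 (@Lb.r r74 (@Lb.r r1121 (@Lb.d (nat_lit 273) (nat_lit 74) (nat_lit 16) (@Lb.fm (nat_lit 3) t217))))))))))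
noncomputable def l42341 : Lb := (@Lb.d (nat_lit 6) (nat_lit 512) (nat_lit 74) (@Lb.g g4 (@Lb.g g10 (@Lb.g g11 (@Lb.r r2626 (@Lb.r r1611 (@Lb.d (nat_lit 38) (nat_lit 65) (nat_lit 616) (@Lb.t (@Lb.fm (nat_lit 9) t1165)))))))))
noncomputable def l42342 : Lb := (@Lb.d (nat_lit 128) (nat_lit 32) (nat_lit 144) (@Lb.g g10 (@Lb.g g11 (@Lb.r r361 (@Lb.r r1384 (@Lb.r r2455 (@Lb.d (nat_lit 166) (nat_lit 88) (nat_lit 281) (@Lb.fm (nat_lit 3) t322))))))))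
noncomputable def l42343 : Lb := (@Lb.g g9 (@Lb.g g7 (@Lb.r r104 (@Lb.r r665 (@Lb.r r603 (@Lb.r r2178 (@Lb.r r516 (@Lb.d (nat_lit 357) (nat_lit 64) (nat_lit 512) (@Lb.fm (nat_lit 3) t626)))))))))
noncomputable def l42344 : Lb := (@Lb.r r70 (@Lb.d (nat_lit 134) (nat_lit 256) (nat_lit 64) (@Lb.g g8 (@Lb.g g9 (@Lb.g g11 (@Lb.r r2601 (@Lb.r r2731 (@Lb.r r1674 (@Lb.r r2568 (@Lb.d (nat_lit 580) (nat_lit 136) (nat_lit 385) (@Lb.t (@Lb.fm (nat_lit 9) t2500))))))))))))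
noncomputable def l42345 : Lb := (@Lb.d (nat_lit 2) (nat_lit 292) (nat_lit 580) (@Lb.g g8 (@Lb.g g9 (@Lb.g g10 (@Lb.g g7 (@Lb.r r1442 (@Lb.r r36 (@Lb.r r149 (@Lb.r r1060 (@Lb.d (nat_lit 422) (nat_lit 88) (nat_lit 353) (@Lb.fp (nat_lit 9) t7293)))))))))))
noncomputable def l42346 : Lb := (@Lb.d (nat_lit 261) (nat_lit 6) (nat_lit 401) (@Lb.r r24 (@Lb.r r101 (@Lb.r r402 (@Lb.g g11 (@Lb.g g6 (@Lb.g g4 (@Lb.d (nat_lit 6) (nat_lit 0) (nat_lit 0) (@Lb.t (@Lb.fp (nat_lit 9) t2402))))))))))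
noncomputable def l42347 : Lb := (@Lb.r r323 (@Lb.d (nat_lit 0) (nat_lit 256) (nat_lit 21) (@Lb.g g9 (@Lb.g g10 (@Lb.r r1419 (@Lb.r r1557 (@Lb.r r1416 (@Lb.d (nat_lit 530) (nat_lit 0) (nat_lit 17) (@Lb.fp (nat_lit 3) t1743)))))))))
noncomputable def l42348 : Lb := (@Lb.d (nat_lit 640) (nat_lit 512) (nat_lit 328) (@Lb.g g8 (@Lb.g g11 (@Lb.d (nat_lit 0) (nat_lit 0) (nat_lit 130) (@Lb.fm (nat_lit 3) t997)))))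
noncomputable def l42349 : Lb := (@Lb.d (nat_lit 0) (nat_lit 33) (nat_lit 66) (@Lb.g g8 (@Lb.g g9 (@Lb.g g10 (@Lb.g g11 (@Lb.r r1706 (@Lb.r r1700 (@Lb.r r1575 (@Lb.r r2661 (@Lb.d (nat_lit 660) (nat_lit 96) (nat_lit 678) (@Lb.fm (nat_lit 9) t7294)))))))))))
noncomputable def l42350 : Lb := (@Lb.d (nat_lit 0) (nat_lit 289) (nat_lit 66) (@Lb.g g8 (@Lb.g g9 (@Lb.g g10 (@Lb.g g11 (@Lb.r r1706 (@Lb.r r1700 (@Lb.r r1575 (@Lb.r r2661 (@Lb.d (nat_lit 665) (nat_lit 102) (nat_lit 676) (@Lb.fm (nat_lit 9) t7295)))))))))))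
noncomputable def l42351 : Lb := (@Lb.d (nat_lit 88) (nat_lit 597) (nat_lit 581) (@Lb.r r2068 (@Lb.r r363 (@Lb.r r2722 (@Lb.g g7 (@Lb.g g6 (@Lb.g g9 (@Lb.g g4 (@Lb.d (nat_lit 96) (nat_lit 146) (nat_lit 136) (@Lb.fp (nat_lit 9) t2239))))))))))
noncomputable def l42352 : Lb := (@Lb.d (nat_lit 144) (nat_lit 258) (nat_lit 66) (@Lb.g g8 (@Lb.g g9 (@Lb.g g10 (@Lb.g g11 (@Lb.r r2731 (@Lb.r r2216 (@Lb.r r394 (@Lb.r r97 (@Lb.d (nat_lit 409) (nat_lit 168) (nat_lit 322) (@Lb.fp (nat_lit 9) t3919)))))))))))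
noncomputable def l42353 : Lb := (@Lb.d (nat_lit 132) (nat_lit 258) (nat_lit 130) (@Lb.g g8 (@Lb.g g9 (@Lb.g g10 (@Lb.g g11 (@Lb.r r1443 (@Lb.r r2153 (@Lb.r r2454 (@Lb.r r1636 (@Lb.d (nat_lit 426) (nat_lit 144) (nat_lit 169) (@Lb.fp (nat_lit 9) t594)))))))))))
noncomputable def l42354 : Lb := (@Lb.d (nat_lit 536) (nat_lit 585) (nat_lit 5) (@Lb.r r358 (@Lb.r r148 (@Lb.r r2393 (@Lb.g g7 (@Lb.g g6 (@Lb.g g5 (@Lb.d (nat_lit 16) (nat_lit 0) (nat_lit 129) (@Lb.t (@Lb.fp (nat_lit 9) t98))))))))))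
noncomputable def l42355 : Lb := (@Lb.d (nat_lit 22) (nat_lit 262) (nat_lit 389) (@Lb.r r21 (@Lb.r r100 (@Lb.r r386 (@Lb.r r1347 (@Lb.g g7 (@Lb.g g6 (@Lb.g g5 (@Lb.d (nat_lit 0) (nat_lit 1) (nat_lit 129) (@Lb.t (@Lb.fm (nat_lit 9) t2656)))))))))))
noncomputable def l42356 : Lb := (@Lb.r r21 (@Lb.d (nat_lit 386) (nat_lit 520) (nat_lit 66) (@Lb.g g8 (@Lb.g g10 (@Lb.g g11 (@Lb.r r387 (@Lb.r r101 (@Lb.r r2450 (@Lb.d (nat_lit 608) (nat_lit 85) (nat_lit 409) (@Lb.t (@Lb.fm (nat_lit 9) t163)))))))))))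
noncomputable def l42357 : Lb := (@Lb.r r355 (@Lb.d (nat_lit 2) (nat_lit 264) (nat_lit 17) (@Lb.g g8 (@Lb.g g9 (@Lb.g g6 (@Lb.r r2667 (@Lb.r r1625 (@Lb.d (nat_lit 617) (nat_lit 42) (nat_lit 281) (@Lb.t (@Lb.fm (nat_lit 9) t1541))))))))))
noncomputable def l42358 : Lb := (@Lb.r r355 (@Lb.d (nat_lit 2) (nat_lit 265) (nat_lit 17) (@Lb.g g8 (@Lb.g g9 (@Lb.g g6 (@Lb.r r1643 (@Lb.r r601 (@Lb.d (nat_lit 105) (nat_lit 165) (nat_lit 648) (@Lb.t (@Lb.fm (nat_lit 9) t1397))))))))))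
noncomputable def l42359 : Lb := (@Lb.d (nat_lit 2) (nat_lit 0) (nat_lit 0) (@Lb.g g8 (@Lb.r r1633 (@Lb.r r2403 (@Lb.r r2178 (@Lb.d (nat_lit 322) (nat_lit 100) (nat_lit 88) (@Lb.t (@Lb.fp (nat_lit 3) t3721))))))))
noncomputable def l42360 : Lb := (@Lb.d (nat_lit 2) (nat_lit 2) (nat_lit 130) (@Lb.g g8 (@Lb.g g9 (@Lb.g g10 (@Lb.g g11 (@Lb.r r1689 (@Lb.r r1435 (@Lb.r r1354 (@Lb.r r2308 (@Lb.d (nat_lit 353) (nat_lit 10) (nat_lit 673) (@Lb.fp (nat_lit 9) t145)))))))))))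
noncomputable def l42361 : Lb := (@Lb.r r21 (@Lb.d (nat_lit 514) (nat_lit 264) (nat_lit 130) (@Lb.g g8 (@Lb.g g10 (@Lb.g g11 (@Lb.r r1381 (@Lb.r r1683 (@Lb.r r1602 (@Lb.d (nat_lit 641) (nat_lit 10) (nat_lit 89) (@Lb.t (@Lb.fm (nat_lit 9) t145)))))))))))
noncomputable def l42362 : Lb := (@Lb.d (nat_lit 9) (nat_lit 513) (nat_lit 73) (@Lb.g g8 (@Lb.g g9 (@Lb.g g10 (@Lb.g g11 (@Lb.r r2666 (@Lb.r r1635 (@Lb.r r25 (@Lb.r r24 (@Lb.d (nat_lit 37) (nat_lit 33) (nat_lit 602) (@Lb.fp (nat_lit 9) t1954)))))))))))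
noncomputable def l42363 : Lb := (@Lb.d (nat_lit 129) (nat_lit 258) (nat_lit 130) (@Lb.g g8 (@Lb.g g9 (@Lb.g g10 (@Lb.g g11 (@Lb.r r2666 (@Lb.r r612 (@Lb.r r1639 (@Lb.r r533 (@Lb.r r2084 (@Lb.d (nat_lit 9) (nat_lit 137) (nat_lit 658) (@Lb.fm (nat_lit 9) t2350))))))))))))
noncomputable def l42364 : Lb := (@Lb.d (nat_lit 129) (nat_lit 410) (nat_lit 42) (@Lb.r r520 (@Lb.r r609 (@Lb.r r402 (@Lb.r r267 (@Lb.g g4 (@Lb.d (nat_lit 65) (nat_lit 0) (nat_lit 0) (@Lb.t (@Lb.fp (nat_lit 3) t87)))))))))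
noncomputable def l42365 : Lb := (@Lb.d (nat_lit 8) (nat_lit 674) (nat_lit 136) (@Lb.g g9 (@Lb.g g11 (@Lb.r r2438 (@Lb.r r2379 (@Lb.d (nat_lit 521) (nat_lit 9) (nat_lit 390) (@Lb.fp (nat_lit 3) t7296)))))))
noncomputable def l42366 : Lb := (@Lb.r r21 (@Lb.d (nat_lit 645) (nat_lit 0) (nat_lit 66) (@Lb.g g8 (@Lb.g g10 (@Lb.g g11 (@Lb.r r419 (@Lb.r r106 (@Lb.r r25 (@Lb.d (nat_lit 354) (nat_lit 73) (nat_lit 137) (@Lb.t (@Lb.fm (nat_lit 9) t898)))))))))))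
noncomputable def l42367 : Lb := (@Lb.r r21 (@Lb.r r331 (@Lb.d (nat_lit 34) (nat_lit 264) (nat_lit 5) (@Lb.g g8 (@Lb.g g10 (@Lb.r r1639 (@Lb.r r97 (@Lb.r r1444 (@Lb.d (nat_lit 338) (nat_lit 162) (nat_lit 400) (@Lb.fm (nat_lit 3) t7297))))))))))
noncomputable def l42368 : Lb := (@Lb.d (nat_lit 146) (nat_lit 36) (nat_lit 133) (@Lb.g g8 (@Lb.g g9 (@Lb.g g10 (@Lb.g g11 (@Lb.r r682 (@Lb.r r387 (@Lb.r r2404 (@Lb.r r1445 (@Lb.d (nat_lit 409) (nat_lit 33) (nat_lit 425) (@Lb.fp (nat_lit 9) t7298)))))))))))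
noncomputable def l42369 : Lb := (@Lb.r r331 (@Lb.d (nat_lit 37) (nat_lit 266) (nat_lit 1) (@Lb.g g8 (@Lb.g g9 (@Lb.g g10 (@Lb.r r1579 (@Lb.r r386 (@Lb.r r2657 (@Lb.r r2584 (@Lb.d (nat_lit 586) (nat_lit 9) (nat_lit 517) (@Lb.t (@Lb.fm (nat_lit 9) t1216))))))))))))
noncomputable def l42370 : Lb := (@Lb.d (nat_lit 0) (nat_lit 514) (nat_lit 130) (@Lb.g g9 (@Lb.g g10 (@Lb.g g11 (@Lb.r r1443 (@Lb.r r536 (@Lb.r r357 (@Lb.r r154 (@Lb.r r132 (@Lb.d (nat_lit 580) (nat_lit 130) (nat_lit 32) (@Lb.t (@Lb.fp (nat_lit 9) t651))))))))))))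
noncomputable def l42371 : Lb := (@Lb.d (nat_lit 38) (nat_lit 266) (nat_lit 72) (@Lb.g g8 (@Lb.g g9 (@Lb.g g10 (@Lb.g g11 (@Lb.r r2327 (@Lb.r r1194 (@Lb.r r2657 (@Lb.r r536 (@Lb.d (nat_lit 426) (nat_lit 73) (nat_lit 90) (@Lb.fm (nat_lit 9) t4709)))))))))))
noncomputable def l42372 : Lb := (@Lb.r r82 (@Lb.d (nat_lit 2) (nat_lit 2) (nat_lit 128) (@Lb.g g8 (@Lb.g g9 (@Lb.g g11 (@Lb.r r2723 (@Lb.r r2088 (@Lb.r r2713 (@Lb.r r146 (@Lb.d (nat_lit 170) (nat_lit 130) (nat_lit 85) (@Lb.t (@Lb.fp (nat_lit 9) t3053))))))))))))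
noncomputable def l42373 : Lb := (@Lb.d (nat_lit 32) (nat_lit 264) (nat_lit 2) (@Lb.g g10 (@Lb.r r1384 (@Lb.r r361 (@Lb.r r1622 (@Lb.d (nat_lit 134) (nat_lit 102) (nat_lit 642) (@Lb.t (@Lb.fp (nat_lit 3) t1827))))))))
noncomputable def l42374 : Lb := (@Lb.d (nat_lit 26) (nat_lit 513) (nat_lit 128) (@Lb.g g8 (@Lb.g g9 (@Lb.g g10 (@Lb.g g11 (@Lb.r r2723 (@Lb.r r2216 (@Lb.r r2713 (@Lb.r r1170 (@Lb.d (nat_lit 426) (nat_lit 161) (nat_lit 330) (@Lb.fm (nat_lit 9) t3045)))))))))))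
noncomputable def l42375 : Lb := (@Lb.r r323 (@Lb.d (nat_lit 0) (nat_lit 256) (nat_lit 1) (@Lb.g g6 (@Lb.r r387 (@Lb.d (nat_lit 0) (nat_lit 80) (nat_lit 298) (@Lb.t (@Lb.fm (nat_lit 3) t210)))))))
noncomputable def l42376 : Lb := (@Lb.r r82 (@Lb.d (nat_lit 0) (nat_lit 273) (nat_lit 0) (@Lb.g g9 (@Lb.g g11 (@Lb.r r2579 (@Lb.r r1366 (@Lb.r r2601 (@Lb.r r8 (@Lb.d (nat_lit 138) (nat_lit 82) (nat_lit 384) (@Lb.fp (nat_lit 3) t7299))))))))))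
noncomputable def l42377 : Lb := (@Lb.r r2659 (@Lb.r r72 (@Lb.r r2134 (@Lb.r r1057 (@Lb.r r1156 (@Lb.d (nat_lit 512) (nat_lit 576) (nat_lit 0) (@Lb.fm (nat_lit 1) t820)))))))
noncomputable def l42378 : Lb := (@Lb.d (nat_lit 2) (nat_lit 2) (nat_lit 66) (@Lb.g g8 (@Lb.g g9 (@Lb.g g10 (@Lb.g g7 (@Lb.r r386 (@Lb.r r97 (@Lb.r r2584 (@Lb.d (nat_lit 330) (nat_lit 9) (nat_lit 137) (@Lb.fp (nat_lit 9) t996))))))))))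
noncomputable def l42379 : Lb := (@Lb.d (nat_lit 682) (nat_lit 277) (nat_lit 577) (@Lb.r r90 (@Lb.r r72 (@Lb.r r2711 (@Lb.g g7 (@Lb.g g6 (@Lb.g g9 (@Lb.d (nat_lit 16) (nat_lit 129) (nat_lit 65) (@Lb.t (@Lb.fm (nat_lit 9) t7300))))))))))
noncomputable def l42380 : Lb := (@Lb.d (nat_lit 32) (nat_lit 66) (nat_lit 4) (@Lb.g g5 (@Lb.g g10 (@Lb.g g11 (@Lb.r r1555 (@Lb.r r2648 (@Lb.r r1366 (@Lb.d (nat_lit 85) (nat_lit 148) (nat_lit 406) (@Lb.t (@Lb.fp (nat_lit 9) t324))))))))))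
noncomputable def l42381 : Lb := (@Lb.r r82 (@Lb.r r275 (@Lb.d (nat_lit 34) (nat_lit 386) (nat_lit 0) (@Lb.g g8 (@Lb.g g9 (@Lb.r r150 (@Lb.r r360 (@Lb.r r2343 (@Lb.d (nat_lit 320) (nat_lit 22) (nat_lit 614) (@Lb.fm (nat_lit 3) t813))))))))))
noncomputable def l42382 : Lb := (@Lb.r r82 (@Lb.d (nat_lit 0) (nat_lit 297) (nat_lit 64) (@Lb.g g8 (@Lb.g g9 (@Lb.g g11 (@Lb.r r1315 (@Lb.r r2438 (@Lb.r r1624 (@Lb.r r2341 (@Lb.d (nat_lit 640) (nat_lit 40) (nat_lit 386) (@Lb.t (@Lb.fp (nat_lit 9) t3404))))))))))))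
noncomputable def l42383 : Lb := (@Lb.d (nat_lit 10) (nat_lit 96) (nat_lit 0) (@Lb.g g8 (@Lb.g g5 (@Lb.r r322 (@Lb.r r1667 (@Lb.r r578 (@Lb.r r2584 (@Lb.d (nat_lit 328) (nat_lit 160) (nat_lit 68) (@Lb.fp (nat_lit 3) t5612)))))))))
noncomputable def l42384 : Lb := (@Lb.d (nat_lit 274) (nat_lit 1) (nat_lit 0) (@Lb.g g4 (@Lb.g g9 (@Lb.r r1447 (@Lb.r r2470 (@Lb.r r337 (@Lb.d (nat_lit 2) (nat_lit 161) (nat_lit 144) (@Lb.fm (nat_lit 3) t1195))))))))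
noncomputable def l42385 : Lb := (@Lb.d (nat_lit 24) (nat_lit 521) (nat_lit 384) (@Lb.r r2196 (@Lb.r r363 (@Lb.r r2646 (@Lb.r r409 (@Lb.g g8 (@Lb.t (@Lb.fp (nat_lit 3) t632))))))))
noncomputable def l42386 : Lb := (@Lb.d (nat_lit 16) (nat_lit 609) (nat_lit 8) (@Lb.g g8 (@Lb.g g5 (@Lb.g g10 (@Lb.r r1347 (@Lb.r r642 (@Lb.r r1048 (@Lb.d (nat_lit 520) (nat_lit 64) (nat_lit 261) (@Lb.t (@Lb.fp (nat_lit 9) t7301))))))))))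
noncomputable def l42387 : Lb := (@Lb.d (nat_lit 650) (nat_lit 81) (nat_lit 517) (@Lb.r r531 (@Lb.r r1317 (@Lb.r r2132 (@Lb.r r1706 (@Lb.g g7 (@Lb.g g6 (@Lb.g g5 (@Lb.d (nat_lit 0) (nat_lit 25) (nat_lit 74) (@Lb.t (@Lb.fm (nat_lit 9) t98)))))))))))
noncomputable def l42388 : Lb := (@Lb.d (nat_lit 10) (nat_lit 352) (nat_lit 0) (@Lb.g g8 (@Lb.g g5 (@Lb.r r322 (@Lb.r r1667 (@Lb.r r578 (@Lb.r r2584 (@Lb.d (nat_lit 328) (nat_lit 160) (nat_lit 2) (@Lb.fp (nat_lit 3) t5612)))))))))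
noncomputable def l42389 : Lb := (@Lb.d (nat_lit 614) (nat_lit 601) (nat_lit 26) (@Lb.r r2712 (@Lb.r r666 (@Lb.r r2459 (@Lb.g g6 (@Lb.g g9 (@Lb.g g4 (@Lb.d (nat_lit 82) (nat_lit 153) (nat_lit 1) (@Lb.t (@Lb.fm (nat_lit 9) t7302))))))))))
noncomputable def l42390 : Lb := (@Lb.d (nat_lit 129) (nat_lit 258) (nat_lit 130) (@Lb.g g8 (@Lb.g g9 (@Lb.g g10 (@Lb.g g11 (@Lb.r r1194 (@Lb.r r276 (@Lb.r r553 (@Lb.r r619 (@Lb.r r1540 (@Lb.d (nat_lit 292) (nat_lit 33) (nat_lit 617) (@Lb.fm (nat_lit 9) t7303))))))))))))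
noncomputable def l42391 : Lb := (@Lb.d (nat_lit 384) (nat_lit 170) (nat_lit 25) (@Lb.r r148 (@Lb.r r2730 (@Lb.r r1451 (@Lb.g g6 (@Lb.g g5 (@Lb.g g4 (@Lb.d (nat_lit 32) (nat_lit 97) (nat_lit 0) (@Lb.t (@Lb.fm (nat_lit 9) t6825))))))))))
noncomputable def l42392 : Lb := (@Lb.d (nat_lit 9) (nat_lit 256) (nat_lit 0) (@Lb.g g8 (@Lb.g g10 (@Lb.g g7 (@Lb.r r402 (@Lb.r r101 (@Lb.r r24 (@Lb.d (nat_lit 522) (nat_lit 9) (nat_lit 610) (@Lb.t (@Lb.fm (nat_lit 9) t145))))))))))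
noncomputable def l42393 : Lb := (@Lb.d (nat_lit 664) (nat_lit 418) (nat_lit 20) (@Lb.r r2729 (@Lb.r r2664 (@Lb.g g7 (@Lb.g g5 (@Lb.g g4 (@Lb.d (nat_lit 8) (nat_lit 0) (nat_lit 0) (@Lb.t (@Lb.fp (nat_lit 9) t7304)))))))))
noncomputable def l42394 : Lb := (@Lb.d (nat_lit 584) (nat_lit 102) (nat_lit 324) (@Lb.r r1561 (@Lb.r r1688 (@Lb.r r2627 (@Lb.g g6 (@Lb.g g5 (@Lb.d (nat_lit 4) (nat_lit 1) (nat_lit 33) (@Lb.r r403 (@Lb.fm (nat_lit 3) t7305)))))))))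
noncomputable def l42395 : Lb := (@Lb.d (nat_lit 386) (nat_lit 517) (nat_lit 417) (@Lb.r r154 (@Lb.r r660 (@Lb.r r407 (@Lb.r r609 (@Lb.g g11 (@Lb.g g6 (@Lb.fp (nat_lit 3) t5596))))))))
noncomputable def l42396 : Lb := (@Lb.d (nat_lit 405) (nat_lit 538) (nat_lit 548) (@Lb.r r2453 (@Lb.r r2667 (@Lb.g g10 (@Lb.g g5 (@Lb.g g4 (@Lb.d (nat_lit 2) (nat_lit 4) (nat_lit 34) (@Lb.r r403 (@Lb.t (@Lb.fp (nat_lit 9) t3312))))))))))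
noncomputable def l42397 : Lb := (@Lb.r r21 (@Lb.d (nat_lit 144) (nat_lit 512) (nat_lit 66) (@Lb.g g8 (@Lb.g g10 (@Lb.g g11 (@Lb.r r2583 (@Lb.r r1450 (@Lb.r r1129 (@Lb.r r2728 (@Lb.d (nat_lit 356) (nat_lit 132) (nat_lit 89) (@Lb.t (@Lb.fm (nat_lit 9) t7306))))))))))))
noncomputable def l42398 : Lb := (@Lb.r r82 (@Lb.d (nat_lit 0) (nat_lit 288) (nat_lit 128) (@Lb.g g8 (@Lb.g g9 (@Lb.g g11 (@Lb.r r2657 (@Lb.r r658 (@Lb.r r2435 (@Lb.d (nat_lit 0) (nat_lit 0) (nat_lit 648) (@Lb.t (@Lb.fm (nat_lit 9) t50)))))))))))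
noncomputable def l42399 : Lb := (@Lb.d (nat_lit 521) (nat_lit 289) (nat_lit 544) (@Lb.r r2196 (@Lb.r r1414 (@Lb.r r1363 (@Lb.r r537 (@Lb.g g7 (@Lb.d (nat_lit 0) (nat_lit 0) (nat_lit 64) (@Lb.t (@Lb.fp (nat_lit 3) t7272)))))))))
noncomputable def l42400 : Lb := (@Lb.r r322 (@Lb.d (nat_lit 0) (nat_lit 258) (nat_lit 576) (@Lb.g g8 (@Lb.g g9 (@Lb.g g7 (@Lb.r r353 (@Lb.r r146 (@Lb.d (nat_lit 0) (nat_lit 0) (nat_lit 322) (@Lb.t (@Lb.fp (nat_lit 9) t311))))))))))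
noncomputable def l42401 : Lb := (@Lb.d (nat_lit 292) (nat_lit 101) (nat_lit 596) (@Lb.r r2456 (@Lb.r r1703 (@Lb.r r1617 (@Lb.g g10 (@Lb.g g4 (@Lb.d (nat_lit 4) (nat_lit 0) (nat_lit 10) (@Lb.fp (nat_lit 3) t7307))))))))
noncomputable def l42402 : Lb := (@Lb.d (nat_lit 641) (nat_lit 258) (nat_lit 256) (@Lb.r r24 (@Lb.g g11 (@Lb.g g9 (@Lb.d (nat_lit 8) (nat_lit 2) (nat_lit 0) (@Lb.fp (nat_lit 3) t650))))))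
noncomputable def l42403 : Lb := (@Lb.r r580 (@Lb.r r593 (@Lb.d (nat_lit 16) (nat_lit 40) (nat_lit 9) (@Lb.g g6 (@Lb.g g11 (@Lb.r r1429 (@Lb.r r2339 (@Lb.r r2632 (@Lb.d (nat_lit 64) (nat_lit 32) (nat_lit 72) (@Lb.fm (nat_lit 3) t125))))))))))
noncomputable def l42404 : Lb := (@Lb.r r273 (@Lb.d (nat_lit 2) (nat_lit 520) (nat_lit 522) (@Lb.g g8 (@Lb.g g10 (@Lb.g g7 (@Lb.r r613 (@Lb.r r24 (@Lb.d (nat_lit 8) (nat_lit 2) (nat_lit 322) (@Lb.t (@Lb.fp (nat_lit 9) t7308))))))))))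
noncomputable def l42405 : Lb := (@Lb.r r331 (@Lb.d (nat_lit 34) (nat_lit 514) (nat_lit 2) (@Lb.g g8 (@Lb.g g9 (@Lb.g g10 (@Lb.r r1689 (@Lb.r r1563 (@Lb.r r1684 (@Lb.d (nat_lit 405) (nat_lit 106) (nat_lit 660) (@Lb.t (@Lb.fp (nat_lit 9) t892)))))))))))
noncomputable def l42406 : Lb := (@Lb.g g4 (@Lb.g g5 (@Lb.g g7 (@Lb.r r1687 (@Lb.r r2408 (@Lb.r r1174 (@Lb.r r2153 (@Lb.d (nat_lit 18) (nat_lit 133) (nat_lit 86) (@Lb.t (@Lb.fp (nat_lit 9) t881))))))))))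
noncomputable def l42407 : Lb := (@Lb.d (nat_lit 153) (nat_lit 265) (nat_lit 72) (@Lb.g g8 (@Lb.g g9 (@Lb.g g10 (@Lb.g g11 (@Lb.r r2731 (@Lb.r r1700 (@Lb.r r166 (@Lb.r r2201 (@Lb.d (nat_lit 282) (nat_lit 72) (nat_lit 681) (@Lb.fp (nat_lit 9) t4255)))))))))))
noncomputable def l42408 : Lb := (@Lb.r r82 (@Lb.d (nat_lit 2) (nat_lit 2) (nat_lit 580) (@Lb.g g8 (@Lb.g g9 (@Lb.g g7 (@Lb.r r342 (@Lb.r r2133 (@Lb.r r24 (@Lb.d (nat_lit 256) (nat_lit 73) (nat_lit 82) (@Lb.t (@Lb.fm (nat_lit 9) t7309)))))))))))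
noncomputable def l42409 : Lb := (@Lb.r r273 (@Lb.d (nat_lit 2) (nat_lit 256) (nat_lit 576) (@Lb.g g8 (@Lb.g g10 (@Lb.g g7 (@Lb.r r280 (@Lb.r r2085 (@Lb.d (nat_lit 10) (nat_lit 1) (nat_lit 512) (@Lb.t (@Lb.fp (nat_lit 9) t7310))))))))))
noncomputable def l42410 : Lb := (@Lb.d (nat_lit 96) (nat_lit 610) (nat_lit 358) (@Lb.r r2375 (@Lb.r r642 (@Lb.g g7 (@Lb.g g6 (@Lb.g g8 (@Lb.d (nat_lit 0) (nat_lit 0) (nat_lit 129) (@Lb.t (@Lb.fp (nat_lit 9) t7311)))))))))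
noncomputable def l42411 : Lb := (@Lb.d (nat_lit 385) (nat_lit 610) (nat_lit 144) (@Lb.r r2631 (@Lb.g g11 (@Lb.g g8 (@Lb.fp (nat_lit 3) t7312)))))
noncomputable def l42412 : Lb := (@Lb.r r21 (@Lb.d (nat_lit 136) (nat_lit 0) (nat_lit 130) (@Lb.g g8 (@Lb.g g10 (@Lb.g g11 (@Lb.r r1690 (@Lb.r r1435 (@Lb.r r677 (@Lb.r r2580 (@Lb.d (nat_lit 648) (nat_lit 69) (nat_lit 536) (@Lb.t (@Lb.fm (nat_lit 9) t7313))))))))))))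
noncomputable def l42413 : Lb := (@Lb.r r21 (@Lb.d (nat_lit 128) (nat_lit 512) (nat_lit 130) (@Lb.g g8 (@Lb.g g10 (@Lb.g g11 (@Lb.r r1691 (@Lb.r r2209 (@Lb.r r2658 (@Lb.r r1348 (@Lb.d (nat_lit 393) (nat_lit 36) (nat_lit 517) (@Lb.t (@Lb.fm (nat_lit 9) t7314))))))))))))
noncomputable def l42414 : Lb := (@Lb.d (nat_lit 2) (nat_lit 289) (nat_lit 4) (@Lb.g g8 (@Lb.g g9 (@Lb.g g10 (@Lb.g g11 (@Lb.r r2659 (@Lb.r r2088 (@Lb.r r2713 (@Lb.r r146 (@Lb.d (nat_lit 676) (nat_lit 4) (nat_lit 70) (@Lb.fm (nat_lit 9) t243)))))))))))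
noncomputable def l42415 : Lb := (@Lb.d (nat_lit 134) (nat_lit 34) (nat_lit 64) (@Lb.g g8 (@Lb.g g9 (@Lb.g g10 (@Lb.g g11 (@Lb.r r1579 (@Lb.r r2454 (@Lb.r r1641 (@Lb.r r2084 (@Lb.d (nat_lit 105) (nat_lit 68) (nat_lit 8) (@Lb.fm (nat_lit 9) t7315)))))))))))
noncomputable def l42416 : Lb := (@Lb.r r323 (@Lb.d (nat_lit 2) (nat_lit 521) (nat_lit 2) (@Lb.g g8 (@Lb.g g9 (@Lb.g g10 (@Lb.r r2218 (@Lb.r r2600 (@Lb.r r2667 (@Lb.r r2585 (@Lb.d (nat_lit 640) (nat_lit 161) (nat_lit 154) (@Lb.t (@Lb.fp (nat_lit 9) t5405))))))))))))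
noncomputable def l42417 : Lb := (@Lb.d (nat_lit 129) (nat_lit 289) (nat_lit 64) (@Lb.g g8 (@Lb.g g9 (@Lb.g g10 (@Lb.g g11 (@Lb.r r1579 (@Lb.r r2454 (@Lb.r r1641 (@Lb.r r2084 (@Lb.d (nat_lit 105) (nat_lit 68) (nat_lit 8) (@Lb.fm (nat_lit 9) t7315)))))))))))
noncomputable def l42418 : Lb := (@Lb.d (nat_lit 2) (nat_lit 265) (nat_lit 129) (@Lb.g g8 (@Lb.g g9 (@Lb.g g10 (@Lb.g g11 (@Lb.r r273 (@Lb.r r2475 (@Lb.r r2440 (@Lb.r r2122 (@Lb.d (nat_lit 88) (nat_lit 161) (nat_lit 648) (@Lb.fm (nat_lit 9) t7316)))))))))))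
noncomputable def l42419 : Lb := (@Lb.r r263 (@Lb.d (nat_lit 0) (nat_lit 73) (nat_lit 1) (@Lb.g g8 (@Lb.g g9 (@Lb.g g10 (@Lb.r r1642 (@Lb.r r2627 (@Lb.r r72 (@Lb.d (nat_lit 137) (nat_lit 101) (nat_lit 422) (@Lb.t (@Lb.fm (nat_lit 9) t6982)))))))))))
noncomputable def l42420 : Lb := (@Lb.d (nat_lit 16) (nat_lit 585) (nat_lit 138) (@Lb.g g8 (@Lb.g g9 (@Lb.g g10 (@Lb.g g11 (@Lb.r r2443 (@Lb.r r1130 (@Lb.r r2084 (@Lb.d (nat_lit 290) (nat_lit 25) (nat_lit 281) (@Lb.fp (nat_lit 9) t868))))))))))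
noncomputable def l42421 : Lb := (@Lb.d (nat_lit 16) (nat_lit 256) (nat_lit 2) (@Lb.g g8 (@Lb.g g10 (@Lb.r r289 (@Lb.r r2587 (@Lb.r r1624 (@Lb.r r1126 (@Lb.d (nat_lit 296) (nat_lit 86) (nat_lit 646) (@Lb.fp (nat_lit 3) t6315)))))))))
noncomputable def l42422 : Lb := (@Lb.d (nat_lit 154) (nat_lit 25) (nat_lit 73) (@Lb.g g8 (@Lb.g g9 (@Lb.g g10 (@Lb.g g11 (@Lb.r r427 (@Lb.r r1188 (@Lb.r r422 (@Lb.r r2449 (@Lb.d (nat_lit 649) (nat_lit 89) (nat_lit 293) (@Lb.fm (nat_lit 9) t7317)))))))))))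
noncomputable def l42423 : Lb := (@Lb.d (nat_lit 16) (nat_lit 25) (nat_lit 1) (@Lb.g g8 (@Lb.g g5 (@Lb.g g10 (@Lb.r r2587 (@Lb.r r1624 (@Lb.r r1126 (@Lb.d (nat_lit 293) (nat_lit 86) (nat_lit 644) (@Lb.t (@Lb.fp (nat_lit 9) t5318))))))))))
noncomputable def l42424 : Lb := (@Lb.r r21 (@Lb.d (nat_lit 645) (nat_lit 8) (nat_lit 10) (@Lb.g g4 (@Lb.g g10 (@Lb.r r1387 (@Lb.r r2393 (@Lb.r r1190 (@Lb.d (nat_lit 521) (nat_lit 65) (nat_lit 169) (@Lb.fm (nat_lit 3) t4786)))))))))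
noncomputable def l42425 : Lb := (@Lb.d (nat_lit 150) (nat_lit 612) (nat_lit 581) (@Lb.r r580 (@Lb.r r2386 (@Lb.g g7 (@Lb.g g6 (@Lb.g g5 (@Lb.g g4 (@Lb.d (nat_lit 96) (nat_lit 0) (nat_lit 577) (@Lb.fp (nat_lit 9) t426)))))))))
noncomputable def l42426 : Lb := (@Lb.r r82 (@Lb.d (nat_lit 36) (nat_lit 0) (nat_lit 0) (@Lb.g g8 (@Lb.g g9 (@Lb.r r2339 (@Lb.r r390 (@Lb.r r2660 (@Lb.r r1061 (@Lb.d (nat_lit 388) (nat_lit 5) (nat_lit 346) (@Lb.fm (nat_lit 3) t7003))))))))))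
noncomputable def l42427 : Lb := (@Lb.d (nat_lit 0) (nat_lit 544) (nat_lit 64) (@Lb.g g11 (@Lb.r r2337 (@Lb.r r1363 (@Lb.r r2178 (@Lb.r r36 (@Lb.d (nat_lit 613) (nat_lit 16) (nat_lit 528) (@Lb.t (@Lb.fp (nat_lit 3) t2231)))))))))
noncomputable def l42428 : Lb := (@Lb.d (nat_lit 4) (nat_lit 549) (nat_lit 128) (@Lb.g g8 (@Lb.g g9 (@Lb.g g10 (@Lb.g g11 (@Lb.r r2154 (@Lb.r r584 (@Lb.r r267 (@Lb.r r1313 (@Lb.d (nat_lit 258) (nat_lit 162) (nat_lit 586) (@Lb.fp (nat_lit 9) t7003)))))))))))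
noncomputable def l42429 : Lb := (@Lb.d (nat_lit 6) (nat_lit 530) (nat_lit 532) (@Lb.r r1361 (@Lb.r r1443 (@Lb.r r2450 (@Lb.g g7 (@Lb.g g5 (@Lb.g g8 (@Lb.d (nat_lit 2) (nat_lit 5) (nat_lit 64) (@Lb.t (@Lb.fp (nat_lit 9) t218))))))))))
noncomputable def l42430 : Lb := (@Lb.r r21 (@Lb.d (nat_lit 130) (nat_lit 512) (nat_lit 258) (@Lb.g g8 (@Lb.g g10 (@Lb.g g7 (@Lb.r r425 (@Lb.r r106 (@Lb.r r1060 (@Lb.d (nat_lit 600) (nat_lit 102) (nat_lit 420) (@Lb.t (@Lb.fm (nat_lit 9) t1443)))))))))))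
noncomputable def l42431 : Lb := (@Lb.d (nat_lit 2) (nat_lit 256) (nat_lit 73) (@Lb.g g8 (@Lb.g g9 (@Lb.g g10 (@Lb.g g11 (@Lb.r r2667 (@Lb.r r1610 (@Lb.r r660 (@Lb.r r425 (@Lb.r r36 (@Lb.d (nat_lit 536) (nat_lit 166) (nat_lit 328) (@Lb.fp (nat_lit 9) t1371))))))))))))
noncomputable def l42432 : Lb := (@Lb.d (nat_lit 616) (nat_lit 22) (nat_lit 37) (@Lb.r r2453 (@Lb.r r2178 (@Lb.r r2731 (@Lb.g g5 (@Lb.g g4 (@Lb.d (nat_lit 293) (nat_lit 2) (nat_lit 0) (@Lb.fm (nat_lit 3) t5610))))))))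
noncomputable def l42433 : Lb := (@Lb.r r21 (@Lb.r r70 (@Lb.r r263 (@Lb.d (nat_lit 2) (nat_lit 0) (nat_lit 0) (@Lb.g g8 (@Lb.r r267 (@Lb.r r101 (@Lb.r r410 (@Lb.d (nat_lit 98) (nat_lit 0) (nat_lit 85) (@Lb.t (@Lb.fp (nat_lit 3) t573)))))))))))
noncomputable def l42434 : Lb := (@Lb.d (nat_lit 2) (nat_lit 2) (nat_lit 128) (@Lb.g g8 (@Lb.g g9 (@Lb.g g10 (@Lb.g g11 (@Lb.r r2730 (@Lb.r r420 (@Lb.r r283 (@Lb.r r1577 (@Lb.r r2068 (@Lb.d (nat_lit 680) (nat_lit 161) (nat_lit 90) (@Lb.fp (nat_lit 9) t4954))))))))))))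
noncomputable def l42435 : Lb := (@Lb.r r20 (@Lb.d (nat_lit 0) (nat_lit 37) (nat_lit 74) (@Lb.g g9 (@Lb.g g10 (@Lb.g g11 (@Lb.r r679 (@Lb.r r2410 (@Lb.r r1557 (@Lb.d (nat_lit 34) (nat_lit 9) (nat_lit 517) (@Lb.t (@Lb.fp (nat_lit 9) t7318)))))))))))
noncomputable def l42436 : Lb := (@Lb.d (nat_lit 133) (nat_lit 0) (nat_lit 73) (@Lb.g g8 (@Lb.g g9 (@Lb.g g10 (@Lb.g g11 (@Lb.r r1675 (@Lb.r r613 (@Lb.r r666 (@Lb.r r1156 (@Lb.d (nat_lit 665) (nat_lit 105) (nat_lit 170) (@Lb.fm (nat_lit 9) t1225)))))))))))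
noncomputable def l42437 : Lb := (@Lb.r r21 (@Lb.d (nat_lit 154) (nat_lit 256) (nat_lit 128) (@Lb.g g8 (@Lb.g g10 (@Lb.g g11 (@Lb.r r2405 (@Lb.r r2391 (@Lb.r r2374 (@Lb.r r580 (@Lb.d (nat_lit 138) (nat_lit 66) (nat_lit 169) (@Lb.t (@Lb.fp (nat_lit 9) t3112))))))))))))
noncomputable def l42438 : Lb := (@Lb.d (nat_lit 149) (nat_lit 1) (nat_lit 664) (@Lb.r r24 (@Lb.r r1114 (@Lb.r r2453 (@Lb.g g7 (@Lb.g g5 (@Lb.g g4 (@Lb.d (nat_lit 1) (nat_lit 18) (nat_lit 132) (@Lb.r r98 (@Lb.t (@Lb.fm (nat_lit 9) t594)))))))))))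
noncomputable def l42439 : Lb := (@Lb.d (nat_lit 0) (nat_lit 258) (nat_lit 74) (@Lb.g g4 (@Lb.g g9 (@Lb.g g10 (@Lb.g g11 (@Lb.r r387 (@Lb.r r37 (@Lb.d (nat_lit 289) (nat_lit 2) (nat_lit 40) (@Lb.fp (nat_lit 9) t127)))))))))
noncomputable def l42440 : Lb := (@Lb.d (nat_lit 169) (nat_lit 548) (nat_lit 602) (@Lb.r r665 (@Lb.r r600 (@Lb.r r603 (@Lb.g g6 (@Lb.g g5 (@Lb.d (nat_lit 4) (nat_lit 17) (nat_lit 33) (@Lb.r r387 (@Lb.fm (nat_lit 3) t602)))))))))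
noncomputable def l42441 : Lb := (@Lb.d (nat_lit 405) (nat_lit 258) (nat_lit 294) (@Lb.r r24 (@Lb.r r386 (@Lb.g g11 (@Lb.g g6 (@Lb.g g5 (@Lb.d (nat_lit 4) (nat_lit 1) (nat_lit 1) (@Lb.t (@Lb.fm (nat_lit 9) t1221)))))))))
noncomputable def l42442 : Lb := (@Lb.d (nat_lit 0) (nat_lit 2) (nat_lit 130) (@Lb.g g9 (@Lb.g g10 (@Lb.g g11 (@Lb.r r1443 (@Lb.r r536 (@Lb.r r357 (@Lb.r r154 (@Lb.r r132 (@Lb.d (nat_lit 580) (nat_lit 130) (nat_lit 153) (@Lb.t (@Lb.fp (nat_lit 9) t651))))))))))))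
noncomputable def l42443 : Lb := (@Lb.d (nat_lit 18) (nat_lit 258) (nat_lit 0) (@Lb.g g8 (@Lb.g g9 (@Lb.g g10 (@Lb.r r683 (@Lb.r r1686 (@Lb.r r169 (@Lb.r r148 (@Lb.d (nat_lit 40) (nat_lit 8) (nat_lit 258) (@Lb.t (@Lb.fp (nat_lit 9) t531)))))))))))
noncomputable def l42444 : Lb := (@Lb.r r322 (@Lb.d (nat_lit 34) (nat_lit 0) (nat_lit 576) (@Lb.g g8 (@Lb.g g9 (@Lb.g g11 (@Lb.r r1642 (@Lb.r r1701 (@Lb.r r84 (@Lb.d (nat_lit 69) (nat_lit 166) (nat_lit 422) (@Lb.t (@Lb.fp (nat_lit 9) t6650)))))))))))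
noncomputable def l42445 : Lb := (@Lb.d (nat_lit 17) (nat_lit 665) (nat_lit 345) (@Lb.r r169 (@Lb.r r100 (@Lb.r r2375 (@Lb.r r642 (@Lb.g g7 (@Lb.g g6 (@Lb.g g5 (@Lb.d (nat_lit 4) (nat_lit 0) (nat_lit 65) (@Lb.t (@Lb.fp (nat_lit 9) t3053)))))))))))
noncomputable def l42446 : Lb := (@Lb.d (nat_lit 8) (nat_lit 258) (nat_lit 0) (@Lb.g g5 (@Lb.r r164 (@Lb.r r85 (@Lb.d (nat_lit 10) (nat_lit 154) (nat_lit 425) (@Lb.t (@Lb.fm (nat_lit 3) t2781)))))))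
noncomputable def l42447 : Lb := (@Lb.r r323 (@Lb.d (nat_lit 2) (nat_lit 512) (nat_lit 21) (@Lb.g g8 (@Lb.g g9 (@Lb.g g10 (@Lb.r r387 (@Lb.r r1561 (@Lb.d (nat_lit 584) (nat_lit 128) (nat_lit 585) (@Lb.t (@Lb.fm (nat_lit 9) t121))))))))))
noncomputable def l42448 : Lb := (@Lb.d (nat_lit 144) (nat_lit 258) (nat_lit 132) (@Lb.g g8 (@Lb.g g9 (@Lb.g g10 (@Lb.g g11 (@Lb.r r2327 (@Lb.r r2666 (@Lb.r r1188 (@Lb.r r37 (@Lb.d (nat_lit 404) (nat_lit 72) (nat_lit 661) (@Lb.fm (nat_lit 9) t979)))))))))))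
noncomputable def l42449 : Lb := (@Lb.d (nat_lit 0) (nat_lit 421) (nat_lit 294) (@Lb.r r21 (@Lb.r r1366 (@Lb.r r683 (@Lb.g g6 (@Lb.g g5 (@Lb.g g4 (@Lb.d (nat_lit 8) (nat_lit 10) (nat_lit 0) (@Lb.t (@Lb.fm (nat_lit 9) t40))))))))))
noncomputable def l42450 : Lb := (@Lb.r r323 (@Lb.d (nat_lit 1) (nat_lit 256) (nat_lit 1) (@Lb.g g8 (@Lb.g g6 (@Lb.r r515 (@Lb.r r105 (@Lb.r r36 (@Lb.d (nat_lit 41) (nat_lit 82) (nat_lit 256) (@Lb.fp (nat_lit 3) t845)))))))))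
noncomputable def l42451 : Lb := (@Lb.d (nat_lit 1) (nat_lit 553) (nat_lit 1) (@Lb.g g8 (@Lb.g g9 (@Lb.g g10 (@Lb.r r1675 (@Lb.r r1194 (@Lb.r r425 (@Lb.r r36 (@Lb.d (nat_lit 385) (nat_lit 166) (nat_lit 586) (@Lb.t (@Lb.fp (nat_lit 9) t2490)))))))))))
noncomputable def l42452 : Lb := (@Lb.d (nat_lit 0) (nat_lit 138) (nat_lit 656) (@Lb.r r402 (@Lb.g g11 (@Lb.g g4 (@Lb.d (nat_lit 293) (nat_lit 0) (nat_lit 0) (@Lb.fm (nat_lit 3) t4055))))))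
noncomputable def l42453 : Lb := (@Lb.r r355 (@Lb.d (nat_lit 1) (nat_lit 514) (nat_lit 2) (@Lb.g g8 (@Lb.g g9 (@Lb.g g10 (@Lb.r r1700 (@Lb.r r1703 (@Lb.r r1634 (@Lb.r r1633 (@Lb.d (nat_lit 612) (nat_lit 154) (nat_lit 409) (@Lb.t (@Lb.fm (nat_lit 9) t6200))))))))))))
noncomputable def l42454 : Lb := (@Lb.d (nat_lit 9) (nat_lit 256) (nat_lit 0) (@Lb.g g8 (@Lb.d (nat_lit 2) (nat_lit 128) (nat_lit 0) (@Lb.t (@Lb.fp (nat_lit 3) t2)))))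
noncomputable def l42455 : Lb := (@Lb.r r21 (@Lb.d (nat_lit 129) (nat_lit 512) (nat_lit 130) (@Lb.g g8 (@Lb.g g10 (@Lb.g g11 (@Lb.r r2728 (@Lb.r r2347 (@Lb.r r1113 (@Lb.r r98 (@Lb.d (nat_lit 328) (nat_lit 100) (nat_lit 337) (@Lb.t (@Lb.fp (nat_lit 9) t7319))))))))))))
noncomputable def l42456 : Lb := (@Lb.d (nat_lit 72) (nat_lit 161) (nat_lit 2) (@Lb.r r2600 (@Lb.r r1305 (@Lb.r r1619 (@Lb.g g10 (@Lb.g g4 (@Lb.d (nat_lit 5) (nat_lit 4) (nat_lit 41) (@Lb.r r387 (@Lb.r r145 (@Lb.fp (nat_lit 3) t3363))))))))))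
noncomputable def l42457 : Lb := (@Lb.r r82 (@Lb.d (nat_lit 128) (nat_lit 2) (nat_lit 128) (@Lb.g g8 (@Lb.g g9 (@Lb.g g11 (@Lb.r r555 (@Lb.r r2457 (@Lb.r r146 (@Lb.r r516 (@Lb.d (nat_lit 514) (nat_lit 0) (nat_lit 390) (@Lb.t (@Lb.fm (nat_lit 9) t7320))))))))))))
noncomputable def l42458 : Lb := (@Lb.r r82 (@Lb.d (nat_lit 129) (nat_lit 258) (nat_lit 128) (@Lb.g g8 (@Lb.g g9 (@Lb.g g11 (@Lb.r r1641 (@Lb.r r1379 (@Lb.r r146 (@Lb.r r1156 (@Lb.d (nat_lit 98) (nat_lit 0) (nat_lit 138) (@Lb.t (@Lb.fm (nat_lit 9) t7321))))))))))))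
noncomputable def l42459 : Lb := (@Lb.d (nat_lit 74) (nat_lit 645) (nat_lit 66) (@Lb.r r20 (@Lb.r r1305 (@Lb.r r2407 (@Lb.r r648 (@Lb.g g7 (@Lb.g g6 (@Lb.g g5 (@Lb.d (nat_lit 32) (nat_lit 1) (nat_lit 81) (@Lb.t (@Lb.fm (nat_lit 9) t7322)))))))))))
noncomputable def l42460 : Lb := (@Lb.r r273 (@Lb.r r322 (@Lb.d (nat_lit 129) (nat_lit 272) (nat_lit 256) (@Lb.g g8 (@Lb.g g7 (@Lb.r r2408 (@Lb.r r1158 (@Lb.r r1169 (@Lb.d (nat_lit 5) (nat_lit 104) (nat_lit 294) (@Lb.fp (nat_lit 3) t7323))))))))))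
noncomputable def l42461 : Lb := (@Lb.d (nat_lit 8) (nat_lit 6) (nat_lit 128) (@Lb.g g8 (@Lb.g g9 (@Lb.g g10 (@Lb.g g11 (@Lb.r r610 (@Lb.r r1607 (@Lb.r r97 (@Lb.r r2436 (@Lb.d (nat_lit 144) (nat_lit 10) (nat_lit 392) (@Lb.fp (nat_lit 9) t1667)))))))))))
noncomputable def l42462 : Lb := (@Lb.d (nat_lit 2) (nat_lit 517) (nat_lit 72) (@Lb.g g8 (@Lb.g g5 (@Lb.g g10 (@Lb.g g11 (@Lb.r r1707 (@Lb.r r1626 (@Lb.d (nat_lit 98) (nat_lit 1) (nat_lit 665) (@Lb.fp (nat_lit 9) t50)))))))))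
noncomputable def l42463 : Lb := (@Lb.r r70 (@Lb.d (nat_lit 166) (nat_lit 5) (nat_lit 64) (@Lb.g g8 (@Lb.g g5 (@Lb.g g11 (@Lb.r r1563 (@Lb.r r2438 (@Lb.r r2648 (@Lb.d (nat_lit 648) (nat_lit 169) (nat_lit 153) (@Lb.t (@Lb.fm (nat_lit 9) t50)))))))))))
noncomputable def l42464 : Lb := (@Lb.r r70 (@Lb.d (nat_lit 4) (nat_lit 517) (nat_lit 128) (@Lb.g g8 (@Lb.g g5 (@Lb.g g11 (@Lb.r r1691 (@Lb.r r1610 (@Lb.r r612 (@Lb.d (nat_lit 2) (nat_lit 153) (nat_lit 665) (@Lb.t (@Lb.fm (nat_lit 9) t50)))))))))))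
noncomputable def l42465 : Lb := (@Lb.r r70 (@Lb.d (nat_lit 10) (nat_lit 256) (nat_lit 128) (@Lb.g g8 (@Lb.g g9 (@Lb.g g11 (@Lb.r r1627 (@Lb.r r1410 (@Lb.r r2385 (@Lb.r r1300 (@Lb.d (nat_lit 677) (nat_lit 89) (nat_lit 529) (@Lb.t (@Lb.fm (nat_lit 9) t5127))))))))))))
noncomputable def l42466 : Lb := (@Lb.d (nat_lit 132) (nat_lit 514) (nat_lit 132) (@Lb.g g8 (@Lb.g g9 (@Lb.g g10 (@Lb.g g11 (@Lb.r r1691 (@Lb.r r1642 (@Lb.r r1561 (@Lb.r r532 (@Lb.d (nat_lit 288) (nat_lit 104) (nat_lit 657) (@Lb.fm (nat_lit 9) t50)))))))))))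
noncomputable def l42467 : Lb := (@Lb.r r70 (@Lb.d (nat_lit 2) (nat_lit 258) (nat_lit 128) (@Lb.g g8 (@Lb.g g9 (@Lb.g g11 (@Lb.r r2583 (@Lb.r r1602 (@Lb.r r1385 (@Lb.r r1364 (@Lb.d (nat_lit 342) (nat_lit 16) (nat_lit 26) (@Lb.t (@Lb.fm (nat_lit 9) t7324))))))))))))
noncomputable def l42468 : Lb := (@Lb.r r323 (@Lb.d (nat_lit 10) (nat_lit 512) (nat_lit 18) (@Lb.g g8 (@Lb.g g10 (@Lb.r r533 (@Lb.r r1303 (@Lb.r r2568 (@Lb.d (nat_lit 354) (nat_lit 0) (nat_lit 261) (@Lb.fp (nat_lit 3) t2433)))))))))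
noncomputable def l42469 : Lb := (@Lb.d (nat_lit 106) (nat_lit 264) (nat_lit 4) (@Lb.g g8 (@Lb.g g10 (@Lb.g g11 (@Lb.r r2385 (@Lb.r r679 (@Lb.r r2410 (@Lb.r r280 (@Lb.d (nat_lit 516) (nat_lit 9) (nat_lit 401) (@Lb.t (@Lb.fm (nat_lit 9) t7325)))))))))))
noncomputable def l42470 : Lb := (@Lb.d (nat_lit 32) (nat_lit 514) (nat_lit 130) (@Lb.g g8 (@Lb.g g9 (@Lb.g g10 (@Lb.g g11 (@Lb.r r663 (@Lb.r r342 (@Lb.r r1577 (@Lb.r r1556 (@Lb.d (nat_lit 390) (nat_lit 40) (nat_lit 89) (@Lb.fp (nat_lit 9) t3094)))))))))))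
noncomputable def l42471 : Lb := (@Lb.d (nat_lit 98) (nat_lit 258) (nat_lit 4) (@Lb.g g8 (@Lb.g g9 (@Lb.g g10 (@Lb.g g11 (@Lb.r r680 (@Lb.r r2731 (@Lb.r r2666 (@Lb.r r1561 (@Lb.r r1540 (@Lb.d (nat_lit 522) (nat_lit 137) (nat_lit 401) (@Lb.fp (nat_lit 9) t1788))))))))))))
noncomputable def l42472 : Lb := (@Lb.d (nat_lit 610) (nat_lit 532) (nat_lit 528) (@Lb.r r1284 (@Lb.r r2138 (@Lb.r r2587 (@Lb.g g7 (@Lb.g g5 (@Lb.d (nat_lit 0) (nat_lit 129) (nat_lit 64) (@Lb.fp (nat_lit 3) t7326))))))))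
noncomputable def l42473 : Lb := (@Lb.r r82 (@Lb.d (nat_lit 130) (nat_lit 2) (nat_lit 128) (@Lb.g g8 (@Lb.g g9 (@Lb.g g11 (@Lb.r r291 (@Lb.r r2438 (@Lb.r r1049 (@Lb.r r1624 (@Lb.d (nat_lit 658) (nat_lit 34) (nat_lit 580) (@Lb.t (@Lb.fm (nat_lit 9) t3906))))))))))))
noncomputable def l42474 : Lb := (@Lb.d (nat_lit 65) (nat_lit 2) (nat_lit 2) (@Lb.g g8 (@Lb.g g9 (@Lb.g g10 (@Lb.g g11 (@Lb.r r2327 (@Lb.r r1366 (@Lb.r r2661 (@Lb.r r148 (@Lb.d (nat_lit 166) (nat_lit 130) (nat_lit 160) (@Lb.fm (nat_lit 9) t7327)))))))))))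
noncomputable def l42475 : Lb := (@Lb.d (nat_lit 34) (nat_lit 256) (nat_lit 64) (@Lb.g g8 (@Lb.g g11 (@Lb.r r2473 (@Lb.r r599 (@Lb.r r150 (@Lb.r r2660 (@Lb.d (nat_lit 680) (nat_lit 85) (nat_lit 0) (@Lb.fp (nat_lit 3) t2283)))))))))
noncomputable def l42476 : Lb := (@Lb.r r355 (@Lb.d (nat_lit 2) (nat_lit 265) (nat_lit 21) (@Lb.g g8 (@Lb.g g9 (@Lb.g g10 (@Lb.r r1579 (@Lb.r r537 (@Lb.d (nat_lit 73) (nat_lit 98) (nat_lit 529) (@Lb.t (@Lb.fp (nat_lit 9) t2001))))))))))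
noncomputable def l42477 : Lb := (@Lb.d (nat_lit 5) (nat_lit 169) (nat_lit 658) (@Lb.r r2450 (@Lb.r r593 (@Lb.r r347 (@Lb.r r2308 (@Lb.g g7 (@Lb.g g5 (@Lb.d (nat_lit 4) (nat_lit 1) (nat_lit 64) (@Lb.fp (nat_lit 3) t2074)))))))))
noncomputable def l42478 : Lb := (@Lb.d (nat_lit 152) (nat_lit 421) (nat_lit 581) (@Lb.r r580 (@Lb.r r2386 (@Lb.r r2201 (@Lb.g g7 (@Lb.g g6 (@Lb.g g4 (@Lb.d (nat_lit 101) (nat_lit 0) (nat_lit 577) (@Lb.t (@Lb.fp (nat_lit 9) t3300))))))))))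
noncomputable def l42479 : Lb := (@Lb.d (nat_lit 0) (nat_lit 553) (nat_lit 133) (@Lb.g g9 (@Lb.g g10 (@Lb.g g11 (@Lb.r r1431 (@Lb.r r2212 (@Lb.r r326 (@Lb.r r1697 (@Lb.d (nat_lit 129) (nat_lit 21) (nat_lit 345) (@Lb.t (@Lb.fp (nat_lit 9) t3981)))))))))))
noncomputable def l42480 : Lb := (@Lb.d (nat_lit 664) (nat_lit 420) (nat_lit 85) (@Lb.r r2632 (@Lb.r r97 (@Lb.g g7 (@Lb.g g10 (@Lb.g g4 (@Lb.d (nat_lit 1) (nat_lit 0) (nat_lit 100) (@Lb.r r25 (@Lb.t (@Lb.fm (nat_lit 9) t7328))))))))))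
noncomputable def l42481 : Lb := (@Lb.r r323 (@Lb.d (nat_lit 0) (nat_lit 514) (nat_lit 1) (@Lb.g g9 (@Lb.g g10 (@Lb.r r2600 (@Lb.r r2347 (@Lb.r r2457 (@Lb.r r2138 (@Lb.d (nat_lit 532) (nat_lit 69) (nat_lit 72) (@Lb.fp (nat_lit 3) t5176))))))))))
noncomputable def l42482 : Lb := (@Lb.d (nat_lit 8) (nat_lit 544) (nat_lit 64) (@Lb.g g8 (@Lb.g g11 (@Lb.r r165 (@Lb.r r2662 (@Lb.r r1383 (@Lb.r r2324 (@Lb.d (nat_lit 533) (nat_lit 101) (nat_lit 426) (@Lb.fp (nat_lit 3) t7329)))))))))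
noncomputable def l42483 : Lb := (@Lb.r r21 (@Lb.d (nat_lit 10) (nat_lit 0) (nat_lit 74) (@Lb.g g8 (@Lb.g g10 (@Lb.g g11 (@Lb.r r1178 (@Lb.r r1637 (@Lb.r r1703 (@Lb.r r2372 (@Lb.d (nat_lit 394) (nat_lit 138) (nat_lit 260) (@Lb.t (@Lb.fp (nat_lit 9) t1406))))))))))))
noncomputable def l42484 : Lb := (@Lb.r r21 (@Lb.d (nat_lit 2) (nat_lit 512) (nat_lit 130) (@Lb.g g8 (@Lb.g g10 (@Lb.g g11 (@Lb.r r2691 (@Lb.r r2184 (@Lb.r r2666 (@Lb.r r97 (@Lb.d (nat_lit 645) (nat_lit 2) (nat_lit 69) (@Lb.t (@Lb.fp (nat_lit 9) t259))))))))))))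
noncomputable def l42485 : Lb := (@Lb.r r21 (@Lb.d (nat_lit 282) (nat_lit 512) (nat_lit 0) (@Lb.g g8 (@Lb.g g10 (@Lb.r r2715 (@Lb.r r1626 (@Lb.r r145 (@Lb.d (nat_lit 609) (nat_lit 169) (nat_lit 1) (@Lb.fp (nat_lit 3) t3144)))))))))
noncomputable def l42486 : Lb := (@Lb.d (nat_lit 134) (nat_lit 0) (nat_lit 130) (@Lb.g g8 (@Lb.g g9 (@Lb.g g10 (@Lb.g g11 (@Lb.r r2435 (@Lb.r r1177 (@Lb.r r1426 (@Lb.r r584 (@Lb.d (nat_lit 98) (nat_lit 21) (nat_lit 100) (@Lb.fp (nat_lit 9) t393)))))))))))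
noncomputable def l42487 : Lb := (@Lb.d (nat_lit 6) (nat_lit 102) (nat_lit 582) (@Lb.r r2458 (@Lb.r r2452 (@Lb.r r1387 (@Lb.r r2401 (@Lb.g g7 (@Lb.g g6 (@Lb.g g4 (@Lb.d (nat_lit 17) (nat_lit 4) (nat_lit 130) (@Lb.t (@Lb.fp (nat_lit 9) t7330)))))))))))
noncomputable def l42488 : Lb := (@Lb.d (nat_lit 129) (nat_lit 4) (nat_lit 64) (@Lb.g g8 (@Lb.g g9 (@Lb.g g10 (@Lb.g g11 (@Lb.r r2729 (@Lb.r r2475 (@Lb.r r362 (@Lb.r r1316 (@Lb.d (nat_lit 681) (nat_lit 162) (nat_lit 65) (@Lb.fm (nat_lit 9) t2847)))))))))))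
noncomputable def l42489 : Lb := (@Lb.d (nat_lit 657) (nat_lit 10) (nat_lit 21) (@Lb.r r273 (@Lb.r r70 (@Lb.r r359 (@Lb.r r289 (@Lb.g g7 (@Lb.g g6 (@Lb.g g5 (@Lb.g g4 (@Lb.d (nat_lit 1) (nat_lit 1) (nat_lit 133) (@Lb.fm (nat_lit 9) t7191)))))))))))
noncomputable def l42490 : Lb := (@Lb.d (nat_lit 330) (nat_lit 24) (nat_lit 544) (@Lb.r r72 (@Lb.r r1177 (@Lb.r r1442 (@Lb.g g11 (@Lb.g g6 (@Lb.g g5 (@Lb.g g4 (@Lb.d (nat_lit 36) (nat_lit 38) (nat_lit 390) (@Lb.fm (nat_lit 9) t5410))))))))))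
noncomputable def l42491 : Lb := (@Lb.d (nat_lit 0) (nat_lit 4) (nat_lit 0) (@Lb.g g9 (@Lb.g g10 (@Lb.r r679 (@Lb.r r1685 (@Lb.r r2404 (@Lb.r r1610 (@Lb.d (nat_lit 610) (nat_lit 100) (nat_lit 256) (@Lb.fp (nat_lit 3) t4337)))))))))
noncomputable def l42492 : Lb := (@Lb.d (nat_lit 617) (nat_lit 664) (nat_lit 600) (@Lb.r r2452 (@Lb.r r386 (@Lb.g g11 (@Lb.g g6 (@Lb.g g5 (@Lb.g g4 (@Lb.d (nat_lit 6) (nat_lit 1) (nat_lit 1) (@Lb.fp (nat_lit 9) t1221)))))))))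
noncomputable def l42493 : Lb := (@Lb.d (nat_lit 129) (nat_lit 514) (nat_lit 66) (@Lb.g g8 (@Lb.g g9 (@Lb.g g10 (@Lb.g g11 (@Lb.r r1367 (@Lb.r r386 (@Lb.r r97 (@Lb.r r532 (@Lb.d (nat_lit 598) (nat_lit 41) (nat_lit 612) (@Lb.fp (nat_lit 9) t31)))))))))))
noncomputable def l42494 : Lb := (@Lb.r r21 (@Lb.d (nat_lit 410) (nat_lit 512) (nat_lit 128) (@Lb.g g8 (@Lb.g g10 (@Lb.g g11 (@Lb.r r387 (@Lb.r r101 (@Lb.r r2450 (@Lb.d (nat_lit 2) (nat_lit 90) (nat_lit 576) (@Lb.t (@Lb.fm (nat_lit 9) t7331)))))))))))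
noncomputable def l42495 : Lb := (@Lb.r r21 (@Lb.d (nat_lit 410) (nat_lit 0) (nat_lit 320) (@Lb.g g8 (@Lb.g g10 (@Lb.g g7 (@Lb.r r101 (@Lb.r r2450 (@Lb.d (nat_lit 2) (nat_lit 80) (nat_lit 293) (@Lb.t (@Lb.fp (nat_lit 9) t1377))))))))))
noncomputable def l42496 : Lb := (@Lb.d (nat_lit 129) (nat_lit 272) (nat_lit 2) (@Lb.g g8 (@Lb.g g9 (@Lb.g g10 (@Lb.g g11 (@Lb.r r683 (@Lb.r r1368 (@Lb.r r2390 (@Lb.r r2145 (@Lb.d (nat_lit 682) (nat_lit 128) (nat_lit 537) (@Lb.fm (nat_lit 9) t7332)))))))))))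
noncomputable def l42497 : Lb := (@Lb.d (nat_lit 8) (nat_lit 2) (nat_lit 2) (@Lb.g g8 (@Lb.g g9 (@Lb.g g10 (@Lb.g g7 (@Lb.r r386 (@Lb.r r2145 (@Lb.r r2584 (@Lb.d (nat_lit 646) (nat_lit 40) (nat_lit 425) (@Lb.fp (nat_lit 9) t7333))))))))))
noncomputable def l42498 : Lb := (@Lb.r r70 (@Lb.d (nat_lit 2) (nat_lit 258) (nat_lit 0) (@Lb.g g8 (@Lb.g g9 (@Lb.r r409 (@Lb.r r2667 (@Lb.r r2632 (@Lb.r r2182 (@Lb.d (nat_lit 512) (nat_lit 5) (nat_lit 597) (@Lb.fp (nat_lit 3) t6801))))))))))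
noncomputable def l42499 : Lb := (@Lb.d (nat_lit 169) (nat_lit 257) (nat_lit 0) (@Lb.g g8 (@Lb.g g9 (@Lb.g g11 (@Lb.r r662 (@Lb.r r2455 (@Lb.r r97 (@Lb.r r280 (@Lb.d (nat_lit 137) (nat_lit 25) (nat_lit 294) (@Lb.t (@Lb.fp (nat_lit 9) t1126)))))))))))
noncomputable def l42500 : Lb := (@Lb.d (nat_lit 146) (nat_lit 258) (nat_lit 133) (@Lb.g g8 (@Lb.g g9 (@Lb.g g10 (@Lb.g g11 (@Lb.r r2459 (@Lb.r r1321 (@Lb.r r344 (@Lb.r r1622 (@Lb.r r1156 (@Lb.d (nat_lit 278) (nat_lit 34) (nat_lit 72) (@Lb.fp (nat_lit 9) t7334))))))))))))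
noncomputable def l42501 : Lb := (@Lb.r r331 (@Lb.d (nat_lit 32) (nat_lit 516) (nat_lit 0) (@Lb.g g8 (@Lb.g g9 (@Lb.g g10 (@Lb.r r2666 (@Lb.r r2635 (@Lb.r r164 (@Lb.r r2469 (@Lb.d (nat_lit 345) (nat_lit 149) (nat_lit 401) (@Lb.t (@Lb.fm (nat_lit 9) t2958))))))))))))
noncomputable def l42502 : Lb := (@Lb.r r1114 (@Lb.d (nat_lit 130) (nat_lit 2) (nat_lit 128) (@Lb.g g8 (@Lb.g g9 (@Lb.g g11 (@Lb.r r291 (@Lb.r r2073 (@Lb.r r2648 (@Lb.d (nat_lit 664) (nat_lit 98) (nat_lit 393) (@Lb.t (@Lb.fp (nat_lit 9) t6666)))))))))))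
noncomputable def l42503 : Lb := (@Lb.d (nat_lit 152) (nat_lit 265) (nat_lit 72) (@Lb.g g8 (@Lb.g g9 (@Lb.g g10 (@Lb.g g11 (@Lb.r r1579 (@Lb.r r1641 (@Lb.r r2454 (@Lb.r r1124 (@Lb.d (nat_lit 274) (nat_lit 40) (nat_lit 593) (@Lb.fm (nat_lit 9) t1816)))))))))))
noncomputable def l42504 : Lb := (@Lb.d (nat_lit 2) (nat_lit 512) (nat_lit 130) (@Lb.g g8 (@Lb.g g9 (@Lb.g g10 (@Lb.g g11 (@Lb.r r1602 (@Lb.r r548 (@Lb.r r615 (@Lb.r r533 (@Lb.r r1060 (@Lb.d (nat_lit 1) (nat_lit 73) (nat_lit 402) (@Lb.fm (nat_lit 9) t2838))))))))))))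
noncomputable def l42505 : Lb := (@Lb.d (nat_lit 2) (nat_lit 106) (nat_lit 518) (@Lb.r r101 (@Lb.g g8 (@Lb.d (nat_lit 10) (nat_lit 0) (nat_lit 0) (@Lb.t (@Lb.fm (nat_lit 3) t7335))))))
noncomputable def l42506 : Lb := (@Lb.d (nat_lit 0) (nat_lit 581) (nat_lit 65) (@Lb.r r101 (@Lb.r r280 (@Lb.g g7 (@Lb.g g4 (@Lb.d (nat_lit 64) (nat_lit 0) (nat_lit 576) (@Lb.fm (nat_lit 3) t1173)))))))
noncomputable def l42507 : Lb := (@Lb.r r1114 (@Lb.d (nat_lit 129) (nat_lit 272) (nat_lit 0) (@Lb.g g8 (@Lb.g g9 (@Lb.g g11 (@Lb.r r291 (@Lb.r r1188 (@Lb.r r2469 (@Lb.d (nat_lit 601) (nat_lit 21) (nat_lit 129) (@Lb.t (@Lb.fp (nat_lit 9) t275)))))))))))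
noncomputable def l42508 : Lb := (@Lb.d (nat_lit 0) (nat_lit 32) (nat_lit 64) (@Lb.g g11 (@Lb.r r1634 (@Lb.r r1556 (@Lb.r r2457 (@Lb.r r615 (@Lb.d (nat_lit 680) (nat_lit 90) (nat_lit 512) (@Lb.t (@Lb.fm (nat_lit 3) t7336)))))))))
noncomputable def l42509 : Lb := (@Lb.d (nat_lit 130) (nat_lit 521) (nat_lit 1) (@Lb.g g8 (@Lb.g g9 (@Lb.g g10 (@Lb.r r2435 (@Lb.r r2217 (@Lb.r r1130 (@Lb.r r2664 (@Lb.d (nat_lit 164) (nat_lit 165) (nat_lit 88) (@Lb.t (@Lb.fm (nat_lit 9) t393)))))))))))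
noncomputable def l42510 : Lb := (@Lb.d (nat_lit 0) (nat_lit 292) (nat_lit 17) (@Lb.r r134 (@Lb.r r679 (@Lb.r r344 (@Lb.g g7 (@Lb.g g5 (@Lb.d (nat_lit 64) (nat_lit 129) (nat_lit 128) (@Lb.fp (nat_lit 3) t1161))))))))
noncomputable def l42511 : Lb := (@Lb.d (nat_lit 528) (nat_lit 297) (nat_lit 2) (@Lb.g g8 (@Lb.g g9 (@Lb.g g10 (@Lb.r r2327 (@Lb.r r2218 (@Lb.r r553 (@Lb.d (nat_lit 676) (nat_lit 40) (nat_lit 362) (@Lb.t (@Lb.fm (nat_lit 9) t3197))))))))))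
noncomputable def l42512 : Lb := (@Lb.d (nat_lit 24) (nat_lit 18) (nat_lit 522) (@Lb.g g8 (@Lb.g g9 (@Lb.g g10 (@Lb.g g7 (@Lb.r r1442 (@Lb.r r341 (@Lb.r r72 (@Lb.d (nat_lit 4) (nat_lit 148) (nat_lit 328) (@Lb.fm (nat_lit 9) t5319))))))))))
noncomputable def l42513 : Lb := (@Lb.d (nat_lit 0) (nat_lit 32) (nat_lit 64) (@Lb.g g11 (@Lb.r r2337 (@Lb.r r1363 (@Lb.r r2658 (@Lb.r r36 (@Lb.d (nat_lit 5) (nat_lit 64) (nat_lit 18) (@Lb.t (@Lb.fm (nat_lit 3) t1242)))))))))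
noncomputable def l42514 : Lb := (@Lb.d (nat_lit 128) (nat_lit 256) (nat_lit 324) (@Lb.g g7 (@Lb.d (nat_lit 278) (nat_lit 64) (nat_lit 102) (@Lb.t (@Lb.fm (nat_lit 3) t469)))))
noncomputable def l42515 : Lb := (@Lb.d (nat_lit 2) (nat_lit 514) (nat_lit 130) (@Lb.g g8 (@Lb.g g9 (@Lb.g g10 (@Lb.g g11 (@Lb.r r2691 (@Lb.r r297 (@Lb.r r360 (@Lb.r r582 (@Lb.r r2180 (@Lb.d (nat_lit 644) (nat_lit 74) (nat_lit 265) (@Lb.fm (nat_lit 9) t379))))))))))))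
noncomputable def l42516 : Lb := (@Lb.r r323 (@Lb.d (nat_lit 138) (nat_lit 512) (nat_lit 18) (@Lb.g g8 (@Lb.g g10 (@Lb.r r615 (@Lb.r r533 (@Lb.r r1060 (@Lb.d (nat_lit 266) (nat_lit 74) (nat_lit 401) (@Lb.fp (nat_lit 3) t2910)))))))))
noncomputable def l42517 : Lb := (@Lb.r r21 (@Lb.d (nat_lit 408) (nat_lit 512) (nat_lit 132) (@Lb.g g8 (@Lb.g g10 (@Lb.g g11 (@Lb.r r1691 (@Lb.r r2709 (@Lb.r r338 (@Lb.d (nat_lit 4) (nat_lit 36) (nat_lit 552) (@Lb.t (@Lb.fp (nat_lit 9) t6333)))))))))))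
noncomputable def l42518 : Lb := (@Lb.r r323 (@Lb.d (nat_lit 2) (nat_lit 288) (nat_lit 18) (@Lb.g g8 (@Lb.g g9 (@Lb.g g10 (@Lb.r r1444 (@Lb.r r2331 (@Lb.r r1637 (@Lb.d (nat_lit 24) (nat_lit 86) (nat_lit 358) (@Lb.t (@Lb.fp (nat_lit 9) t2910)))))))))))
noncomputable def l42519 : Lb := (@Lb.r r323 (@Lb.d (nat_lit 40) (nat_lit 258) (nat_lit 2) (@Lb.g g9 (@Lb.g g10 (@Lb.r r584 (@Lb.r r299 (@Lb.r r1425 (@Lb.d (nat_lit 292) (nat_lit 9) (nat_lit 1) (@Lb.fp (nat_lit 3) t410)))))))))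
noncomputable def l42520 : Lb := (@Lb.g g5 (@Lb.r r1291 (@Lb.r r24 (@Lb.r r101 (@Lb.d (nat_lit 0) (nat_lit 277) (nat_lit 297) (@Lb.t (@Lb.fm (nat_lit 3) t3940)))))))
noncomputable def l42521 : Lb := (@Lb.g g5 (@Lb.r r1291 (@Lb.r r24 (@Lb.r r101 (@Lb.d (nat_lit 0) (nat_lit 26) (nat_lit 298) (@Lb.t (@Lb.fm (nat_lit 3) t3940)))))))
noncomputable def l42522 : Lb := (@Lb.r r331 (@Lb.d (nat_lit 161) (nat_lit 2) (nat_lit 2) (@Lb.g g8 (@Lb.g g9 (@Lb.g g10 (@Lb.r r1433 (@Lb.r r2343 (@Lb.r r1604 (@Lb.r r1098 (@Lb.d (nat_lit 546) (nat_lit 138) (nat_lit 424) (@Lb.t (@Lb.fm (nat_lit 9) t2106))))))))))))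
noncomputable def l42523 : Lb := (@Lb.r r21 (@Lb.r r70 (@Lb.d (nat_lit 129) (nat_lit 0) (nat_lit 136) (@Lb.g g8 (@Lb.g g11 (@Lb.r r2454 (@Lb.r r104 (@Lb.r r25 (@Lb.d (nat_lit 37) (nat_lit 10) (nat_lit 162) (@Lb.fm (nat_lit 3) t2015))))))))))
noncomputable def l42524 : Lb := (@Lb.r r82 (@Lb.d (nat_lit 128) (nat_lit 2) (nat_lit 128) (@Lb.g g8 (@Lb.g g9 (@Lb.g g11 (@Lb.r r291 (@Lb.r r1604 (@Lb.r r1626 (@Lb.r r2449 (@Lb.d (nat_lit 10) (nat_lit 133) (nat_lit 402) (@Lb.t (@Lb.fm (nat_lit 9) t7242))))))))))))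
noncomputable def l42525 : Lb := (@Lb.r r323 (@Lb.d (nat_lit 40) (nat_lit 513) (nat_lit 1) (@Lb.g g8 (@Lb.g g9 (@Lb.g g10 (@Lb.r r1323 (@Lb.r r2217 (@Lb.r r2666 (@Lb.r r1124 (@Lb.d (nat_lit 665) (nat_lit 10) (nat_lit 345) (@Lb.t (@Lb.fp (nat_lit 9) t5932))))))))))))
noncomputable def l42526 : Lb := (@Lb.r r322 (@Lb.d (nat_lit 40) (nat_lit 514) (nat_lit 576) (@Lb.g g8 (@Lb.g g9 (@Lb.g g7 (@Lb.r r2409 (@Lb.r r150 (@Lb.r r84 (@Lb.d (nat_lit 20) (nat_lit 150) (nat_lit 281) (@Lb.t (@Lb.fp (nat_lit 9) t668)))))))))))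
noncomputable def l42527 : Lb := (@Lb.r r21 (@Lb.r r70 (@Lb.d (nat_lit 128) (nat_lit 512) (nat_lit 136) (@Lb.g g8 (@Lb.g g11 (@Lb.r r1386 (@Lb.r r1189 (@Lb.r r2152 (@Lb.d (nat_lit 538) (nat_lit 74) (nat_lit 146) (@Lb.fm (nat_lit 3) t2015))))))))))
noncomputable def l42528 : Lb := (@Lb.r r597 (@Lb.d (nat_lit 64) (nat_lit 512) (nat_lit 34) (@Lb.g g8 (@Lb.g g10 (@Lb.g g11 (@Lb.r r2724 (@Lb.r r2341 (@Lb.r r2579 (@Lb.d (nat_lit 2) (nat_lit 150) (nat_lit 10) (@Lb.t (@Lb.fm (nat_lit 9) t7337)))))))))))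
noncomputable def l42529 : Lb := (@Lb.r r81 (@Lb.r r263 (@Lb.d (nat_lit 2) (nat_lit 0) (nat_lit 34) (@Lb.g g8 (@Lb.g g10 (@Lb.r r2724 (@Lb.r r1575 (@Lb.r r37 (@Lb.d (nat_lit 5) (nat_lit 65) (nat_lit 18) (@Lb.fm (nat_lit 3) t7338))))))))))
noncomputable def l42530 : Lb := (@Lb.d (nat_lit 128) (nat_lit 2) (nat_lit 130) (@Lb.g g8 (@Lb.g g9 (@Lb.g g10 (@Lb.g g11 (@Lb.r r2710 (@Lb.r r360 (@Lb.r r1319 (@Lb.r r405 (@Lb.r r2084 (@Lb.d (nat_lit 25) (nat_lit 130) (nat_lit 674) (@Lb.fp (nat_lit 9) t3335))))))))))))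
noncomputable def l42531 : Lb := (@Lb.d (nat_lit 136) (nat_lit 18) (nat_lit 128) (@Lb.g g8 (@Lb.g g9 (@Lb.g g11 (@Lb.r r1707 (@Lb.r r2178 (@Lb.r r673 (@Lb.r r1176 (@Lb.d (nat_lit 549) (nat_lit 80) (nat_lit 517) (@Lb.t (@Lb.fm (nat_lit 9) t7339)))))))))))
noncomputable def l42532 : Lb := (@Lb.r r82 (@Lb.d (nat_lit 128) (nat_lit 258) (nat_lit 128) (@Lb.g g8 (@Lb.g g9 (@Lb.g g11 (@Lb.r r291 (@Lb.r r1604 (@Lb.r r1626 (@Lb.r r2449 (@Lb.d (nat_lit 10) (nat_lit 128) (nat_lit 401) (@Lb.t (@Lb.fm (nat_lit 9) t7340))))))))))))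
noncomputable def l42533 : Lb := (@Lb.d (nat_lit 66) (nat_lit 514) (nat_lit 2) (@Lb.g g8 (@Lb.g g9 (@Lb.g g10 (@Lb.r r343 (@Lb.r r1685 (@Lb.r r2408 (@Lb.r r1638 (@Lb.d (nat_lit 404) (nat_lit 16) (nat_lit 8) (@Lb.t (@Lb.fp (nat_lit 9) t3497)))))))))))
noncomputable def l42534 : Lb := (@Lb.d (nat_lit 130) (nat_lit 2) (nat_lit 65) (@Lb.g g8 (@Lb.g g9 (@Lb.g g10 (@Lb.g g11 (@Lb.r r2455 (@Lb.r r1125 (@Lb.r r2196 (@Lb.r r598 (@Lb.d (nat_lit 2) (nat_lit 160) (nat_lit 514) (@Lb.fm (nat_lit 9) t7341)))))))))))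
noncomputable def l42535 : Lb := (@Lb.d (nat_lit 21) (nat_lit 325) (nat_lit 154) (@Lb.r r1370 (@Lb.r r1451 (@Lb.r r2341 (@Lb.g g7 (@Lb.g g4 (@Lb.d (nat_lit 586) (nat_lit 16) (nat_lit 128) (@Lb.r r74 (@Lb.r r25 (@Lb.fp (nat_lit 3) t328))))))))))
noncomputable def l42536 : Lb := (@Lb.d (nat_lit 10) (nat_lit 5) (nat_lit 74) (@Lb.g g8 (@Lb.g g9 (@Lb.g g10 (@Lb.g g11 (@Lb.r r1707 (@Lb.r r680 (@Lb.r r1706 (@Lb.r r1577 (@Lb.r r2084 (@Lb.d (nat_lit 346) (nat_lit 9) (nat_lit 166) (@Lb.fp (nat_lit 9) t148))))))))))))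
noncomputable def l42537 : Lb := (@Lb.r r21 (@Lb.r r322 (@Lb.d (nat_lit 129) (nat_lit 544) (nat_lit 128) (@Lb.g g8 (@Lb.g g11 (@Lb.r r1684 (@Lb.r r150 (@Lb.r r97 (@Lb.d (nat_lit 610) (nat_lit 1) (nat_lit 665) (@Lb.fm (nat_lit 3) t7342))))))))))
noncomputable def l42538 : Lb := (@Lb.r r90 (@Lb.d (nat_lit 104) (nat_lit 289) (nat_lit 64) (@Lb.g g8 (@Lb.g g9 (@Lb.g g11 (@Lb.r r1189 (@Lb.r r1446 (@Lb.r r1383 (@Lb.r r1560 (@Lb.d (nat_lit 357) (nat_lit 2) (nat_lit 34) (@Lb.t (@Lb.fp (nat_lit 9) t3094))))))))))))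
noncomputable def l42539 : Lb := (@Lb.r r82 (@Lb.d (nat_lit 0) (nat_lit 545) (nat_lit 64) (@Lb.g g8 (@Lb.g g9 (@Lb.g g11 (@Lb.r r275 (@Lb.r r354 (@Lb.r r273 (@Lb.d (nat_lit 2) (nat_lit 162) (nat_lit 0) (@Lb.t (@Lb.fm (nat_lit 9) t144)))))))))))
noncomputable def l42540 : Lb := (@Lb.r r82 (@Lb.d (nat_lit 0) (nat_lit 289) (nat_lit 64) (@Lb.g g8 (@Lb.g g9 (@Lb.g g11 (@Lb.r r275 (@Lb.r r354 (@Lb.r r273 (@Lb.d (nat_lit 0) (nat_lit 162) (nat_lit 0) (@Lb.t (@Lb.fm (nat_lit 9) t144)))))))))))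
noncomputable def l42541 : Lb := (@Lb.d (nat_lit 0) (nat_lit 256) (nat_lit 130) (@Lb.g g4 (@Lb.g g10 (@Lb.g g11 (@Lb.r r1547 (@Lb.r r2438 (@Lb.d (nat_lit 674) (nat_lit 5) (nat_lit 410) (@Lb.t (@Lb.fp (nat_lit 9) t2264)))))))))
noncomputable def l42542 : Lb := (@Lb.r r82 (@Lb.d (nat_lit 0) (nat_lit 2) (nat_lit 128) (@Lb.g g8 (@Lb.g g9 (@Lb.g g11 (@Lb.r r1571 (@Lb.r r1192 (@Lb.r r1642 (@Lb.r r1633 (@Lb.d (nat_lit 612) (nat_lit 89) (nat_lit 356) (@Lb.t (@Lb.fp (nat_lit 9) t243))))))))))))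
noncomputable def l42543 : Lb := (@Lb.d (nat_lit 0) (nat_lit 4) (nat_lit 128) (@Lb.g g8 (@Lb.g g9 (@Lb.g g10 (@Lb.g g11 (@Lb.r r1699 (@Lb.r r1160 (@Lb.r r1610 (@Lb.r r37 (@Lb.d (nat_lit 610) (nat_lit 88) (nat_lit 356) (@Lb.fm (nat_lit 9) t243)))))))))))
noncomputable def l42544 : Lb := (@Lb.d (nat_lit 2) (nat_lit 516) (nat_lit 128) (@Lb.g g8 (@Lb.g g9 (@Lb.g g10 (@Lb.g g11 (@Lb.r r610 (@Lb.r r1607 (@Lb.r r2457 (@Lb.r r2436 (@Lb.d (nat_lit 666) (nat_lit 9) (nat_lit 408) (@Lb.fm (nat_lit 9) t3499)))))))))))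
noncomputable def l42545 : Lb := (@Lb.d (nat_lit 2) (nat_lit 4) (nat_lit 128) (@Lb.g g8 (@Lb.g g9 (@Lb.g g10 (@Lb.g g11 (@Lb.r r610 (@Lb.r r1607 (@Lb.r r2457 (@Lb.r r2436 (@Lb.d (nat_lit 656) (nat_lit 0) (nat_lit 409) (@Lb.fm (nat_lit 9) t3210)))))))))))
noncomputable def l42546 : Lb := (@Lb.d (nat_lit 2) (nat_lit 260) (nat_lit 128) (@Lb.g g8 (@Lb.g g9 (@Lb.g g10 (@Lb.g g11 (@Lb.r r610 (@Lb.r r1607 (@Lb.r r2457 (@Lb.r r2436 (@Lb.d (nat_lit 664) (nat_lit 9) (nat_lit 408) (@Lb.fm (nat_lit 9) t3499)))))))))))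
noncomputable def l42547 : Lb := (@Lb.r r21 (@Lb.r r70 (@Lb.d (nat_lit 389) (nat_lit 0) (nat_lit 0) (@Lb.g g4 (@Lb.r r101 (@Lb.r r2450 (@Lb.d (nat_lit 1) (nat_lit 129) (nat_lit 322) (@Lb.t (@Lb.fm (nat_lit 3) t1241)))))))))
noncomputable def l42548 : Lb := (@Lb.r r82 (@Lb.d (nat_lit 5) (nat_lit 0) (nat_lit 128) (@Lb.g g8 (@Lb.g g9 (@Lb.g g11 (@Lb.r r1691 (@Lb.r r610 (@Lb.r r1065 (@Lb.r r1416 (@Lb.d (nat_lit 658) (nat_lit 153) (nat_lit 68) (@Lb.t (@Lb.fp (nat_lit 9) t7343))))))))))))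
noncomputable def l42549 : Lb := (@Lb.d (nat_lit 0) (nat_lit 4) (nat_lit 128) (@Lb.g g8 (@Lb.g g9 (@Lb.g g10 (@Lb.g g11 (@Lb.r r427 (@Lb.r r424 (@Lb.r r106 (@Lb.r r25 (@Lb.d (nat_lit 361) (nat_lit 9) (nat_lit 648) (@Lb.fm (nat_lit 9) t3501)))))))))))
noncomputable def l42550 : Lb := (@Lb.r r323 (@Lb.d (nat_lit 40) (nat_lit 617) (nat_lit 1) (@Lb.g g9 (@Lb.g g10 (@Lb.r r599 (@Lb.r r2648 (@Lb.r r1414 (@Lb.d (nat_lit 674) (nat_lit 34) (nat_lit 601) (@Lb.fp (nat_lit 3) t3926)))))))))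
noncomputable def l42551 : Lb := (@Lb.d (nat_lit 264) (nat_lit 354) (nat_lit 128) (@Lb.r r24 (@Lb.r r1617 (@Lb.r r2470 (@Lb.g g11 (@Lb.g g6 (@Lb.g g5 (@Lb.d (nat_lit 0) (nat_lit 0) (nat_lit 129) (@Lb.t (@Lb.fm (nat_lit 9) t3693))))))))))
noncomputable def l42552 : Lb := (@Lb.d (nat_lit 0) (nat_lit 521) (nat_lit 72) (@Lb.g g8 (@Lb.g g9 (@Lb.g g10 (@Lb.g g11 (@Lb.r r610 (@Lb.r r579 (@Lb.r r2585 (@Lb.r r2564 (@Lb.d (nat_lit 320) (nat_lit 32) (nat_lit 266) (@Lb.fm (nat_lit 9) t6249)))))))))))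
noncomputable def l42553 : Lb := (@Lb.d (nat_lit 0) (nat_lit 256) (nat_lit 137) (@Lb.g g5 (@Lb.g g10 (@Lb.g g7 (@Lb.r r386 (@Lb.d (nat_lit 0) (nat_lit 0) (nat_lit 9) (@Lb.t (@Lb.fp (nat_lit 9) t2))))))))
noncomputable def l42554 : Lb := (@Lb.r r2118 (@Lb.d (nat_lit 8) (nat_lit 257) (nat_lit 0) (@Lb.g g8 (@Lb.g g9 (@Lb.r r617 (@Lb.r r612 (@Lb.d (nat_lit 152) (nat_lit 26) (nat_lit 426) (@Lb.fp (nat_lit 3) t1427))))))))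
noncomputable def l42555 : Lb := (@Lb.d (nat_lit 130) (nat_lit 514) (nat_lit 130) (@Lb.g g8 (@Lb.g g9 (@Lb.g g10 (@Lb.g g11 (@Lb.r r2690 (@Lb.r r2455 (@Lb.r r97 (@Lb.r r2584 (@Lb.d (nat_lit 616) (nat_lit 162) (nat_lit 290) (@Lb.fm (nat_lit 9) t6648)))))))))))
noncomputable def l42556 : Lb := (@Lb.r r331 (@Lb.d (nat_lit 34) (nat_lit 2) (nat_lit 2) (@Lb.g g8 (@Lb.g g9 (@Lb.g g10 (@Lb.r r601 (@Lb.r r667 (@Lb.r r596 (@Lb.d (nat_lit 133) (nat_lit 162) (nat_lit 137) (@Lb.t (@Lb.fp (nat_lit 9) t1250)))))))))))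
noncomputable def l42557 : Lb := (@Lb.r r331 (@Lb.d (nat_lit 32) (nat_lit 514) (nat_lit 2) (@Lb.g g8 (@Lb.g g9 (@Lb.g g10 (@Lb.r r1689 (@Lb.r r1563 (@Lb.r r1684 (@Lb.d (nat_lit 405) (nat_lit 38) (nat_lit 662) (@Lb.t (@Lb.fp (nat_lit 9) t1250)))))))))))
noncomputable def l42558 : Lb := (@Lb.d (nat_lit 644) (nat_lit 146) (nat_lit 512) (@Lb.r r24 (@Lb.r r2145 (@Lb.r r402 (@Lb.g g11 (@Lb.g g6 (@Lb.g g4 (@Lb.d (nat_lit 1) (nat_lit 0) (nat_lit 128) (@Lb.t (@Lb.fp (nat_lit 9) t1077))))))))))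
noncomputable def l42559 : Lb := (@Lb.d (nat_lit 644) (nat_lit 402) (nat_lit 640) (@Lb.r r24 (@Lb.r r2145 (@Lb.r r402 (@Lb.g g11 (@Lb.g g6 (@Lb.g g4 (@Lb.d (nat_lit 1) (nat_lit 0) (nat_lit 128) (@Lb.t (@Lb.fp (nat_lit 9) t1077))))))))))
noncomputable def l42560 : Lb := (@Lb.d (nat_lit 1) (nat_lit 256) (nat_lit 2) (@Lb.g g8 (@Lb.g g10 (@Lb.r r1675 (@Lb.r r1642 (@Lb.r r105 (@Lb.r r36 (@Lb.d (nat_lit 393) (nat_lit 160) (nat_lit 645) (@Lb.fm (nat_lit 3) t5753)))))))))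
noncomputable def l42561 : Lb := (@Lb.d (nat_lit 2) (nat_lit 336) (nat_lit 292) (@Lb.r r1362 (@Lb.r r2213 (@Lb.r r2691 (@Lb.g g7 (@Lb.g g6 (@Lb.g g8 (@Lb.d (nat_lit 10) (nat_lit 0) (nat_lit 134) (@Lb.t (@Lb.fm (nat_lit 9) t3931))))))))))
noncomputable def l42562 : Lb := (@Lb.d (nat_lit 0) (nat_lit 384) (nat_lit 129) (@Lb.r r82 (@Lb.r r275 (@Lb.g g9 (@Lb.d (nat_lit 0) (nat_lit 70) (nat_lit 0) (@Lb.r r291 (@Lb.r r98 (@Lb.t (@Lb.fp (nat_lit 3) t7)))))))))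
noncomputable def l42563 : Lb := (@Lb.d (nat_lit 8) (nat_lit 36) (nat_lit 133) (@Lb.g g9 (@Lb.g g10 (@Lb.g g11 (@Lb.r r387 (@Lb.r r1624 (@Lb.r r646 (@Lb.r r593 (@Lb.d (nat_lit 17) (nat_lit 38) (nat_lit 657) (@Lb.t (@Lb.fm (nat_lit 9) t1567)))))))))))
noncomputable def l42564 : Lb := (@Lb.r r70 (@Lb.r r263 (@Lb.d (nat_lit 610) (nat_lit 258) (nat_lit 0) (@Lb.g g8 (@Lb.g g9 (@Lb.r r406 (@Lb.r r1635 (@Lb.r r25 (@Lb.d (nat_lit 528) (nat_lit 24) (nat_lit 26) (@Lb.fm (nat_lit 3) t842))))))))))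
noncomputable def l42565 : Lb := (@Lb.g g5 (@Lb.g g7 (@Lb.r r2327 (@Lb.r r2178 (@Lb.r r553 (@Lb.r r36 (@Lb.d (nat_lit 342) (nat_lit 273) (nat_lit 165) (@Lb.fm (nat_lit 3) t7344))))))))
noncomputable def l42566 : Lb := (@Lb.d (nat_lit 26) (nat_lit 262) (nat_lit 72) (@Lb.g g8 (@Lb.g g9 (@Lb.g g10 (@Lb.g g11 (@Lb.r r1130 (@Lb.r r360 (@Lb.r r1431 (@Lb.r r2585 (@Lb.d (nat_lit 145) (nat_lit 166) (nat_lit 337) (@Lb.fm (nat_lit 9) t7345)))))))))))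
noncomputable def l42567 : Lb := (@Lb.g g5 (@Lb.g g7 (@Lb.r r24 (@Lb.r r421 (@Lb.r r2651 (@Lb.r r2178 (@Lb.r r2564 (@Lb.d (nat_lit 358) (nat_lit 262) (nat_lit 645) (@Lb.fm (nat_lit 3) t6823)))))))))
noncomputable def l42568 : Lb := (@Lb.d (nat_lit 0) (nat_lit 520) (nat_lit 73) (@Lb.g g9 (@Lb.g g10 (@Lb.g g11 (@Lb.r r643 (@Lb.r r644 (@Lb.r r342 (@Lb.r r421 (@Lb.r r20 (@Lb.d (nat_lit 278) (nat_lit 33) (nat_lit 650) (@Lb.t (@Lb.fm (nat_lit 9) t7346))))))))))))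
noncomputable def l42569 : Lb := (@Lb.r r283 (@Lb.d (nat_lit 1) (nat_lit 258) (nat_lit 2) (@Lb.g g8 (@Lb.g g9 (@Lb.g g10 (@Lb.r r1672 (@Lb.r r2587 (@Lb.r r98 (@Lb.d (nat_lit 10) (nat_lit 134) (nat_lit 392) (@Lb.t (@Lb.fm (nat_lit 9) t7347)))))))))))
noncomputable def l42570 : Lb := (@Lb.d (nat_lit 1) (nat_lit 2) (nat_lit 130) (@Lb.g g8 (@Lb.g g9 (@Lb.g g10 (@Lb.g g11 (@Lb.r r610 (@Lb.r r1607 (@Lb.r r2457 (@Lb.r r2436 (@Lb.d (nat_lit 166) (nat_lit 132) (nat_lit 392) (@Lb.fm (nat_lit 9) t993)))))))))))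
noncomputable def l42571 : Lb := (@Lb.r r347 (@Lb.d (nat_lit 617) (nat_lit 261) (nat_lit 2) (@Lb.g g8 (@Lb.g g9 (@Lb.g g10 (@Lb.r r2731 (@Lb.r r1194 (@Lb.r r1369 (@Lb.d (nat_lit 280) (nat_lit 97) (nat_lit 406) (@Lb.t (@Lb.fm (nat_lit 9) t1666)))))))))))
noncomputable def l42572 : Lb := (@Lb.d (nat_lit 4) (nat_lit 256) (nat_lit 74) (@Lb.g g8 (@Lb.g g9 (@Lb.g g10 (@Lb.g g11 (@Lb.r r2731 (@Lb.r r2709 (@Lb.r r1178 (@Lb.d (nat_lit 65) (nat_lit 72) (nat_lit 393) (@Lb.fp (nat_lit 9) t646))))))))))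
noncomputable def l42573 : Lb := (@Lb.d (nat_lit 646) (nat_lit 0) (nat_lit 0) (@Lb.g g4 (@Lb.g g9 (@Lb.r r1363 (@Lb.r r2178 (@Lb.r r2657 (@Lb.d (nat_lit 288) (nat_lit 26) (nat_lit 25) (@Lb.fp (nat_lit 3) t7348))))))))
noncomputable def l42574 : Lb := (@Lb.r r21 (@Lb.r r70 (@Lb.d (nat_lit 657) (nat_lit 0) (nat_lit 0) (@Lb.g g4 (@Lb.r r1291 (@Lb.r r402 (@Lb.r r97 (@Lb.d (nat_lit 2) (nat_lit 130) (nat_lit 512) (@Lb.t (@Lb.fm (nat_lit 3) t1159))))))))))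
noncomputable def l42575 : Lb := (@Lb.d (nat_lit 2) (nat_lit 258) (nat_lit 130) (@Lb.g g8 (@Lb.g g9 (@Lb.g g10 (@Lb.g g11 (@Lb.r r1699 (@Lb.r r2216 (@Lb.r r2666 (@Lb.r r2585 (@Lb.d (nat_lit 677) (nat_lit 168) (nat_lit 104) (@Lb.fp (nat_lit 9) t4489)))))))))))
noncomputable def l42576 : Lb := (@Lb.d (nat_lit 2) (nat_lit 18) (nat_lit 138) (@Lb.g g8 (@Lb.g g9 (@Lb.g g10 (@Lb.g g11 (@Lb.r r342 (@Lb.r r2728 (@Lb.r r2603 (@Lb.r r533 (@Lb.d (nat_lit 386) (nat_lit 33) (nat_lit 74) (@Lb.fp (nat_lit 9) t1608)))))))))))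
noncomputable def l42577 : Lb := (@Lb.d (nat_lit 128) (nat_lit 32) (nat_lit 136) (@Lb.g g11 (@Lb.r r420 (@Lb.r r2469 (@Lb.r r1446 (@Lb.r r347 (@Lb.d (nat_lit 296) (nat_lit 22) (nat_lit 520) (@Lb.t (@Lb.fp (nat_lit 3) t271)))))))))
noncomputable def l42578 : Lb := (@Lb.r r68 (@Lb.d (nat_lit 8) (nat_lit 514) (nat_lit 41) (@Lb.g g9 (@Lb.g g6 (@Lb.r r1419 (@Lb.r r24 (@Lb.r r1317 (@Lb.d (nat_lit 88) (nat_lit 40) (nat_lit 417) (@Lb.fp (nat_lit 3) t1312)))))))))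
noncomputable def l42579 : Lb := (@Lb.d (nat_lit 2) (nat_lit 2) (nat_lit 73) (@Lb.g g8 (@Lb.g g9 (@Lb.g g10 (@Lb.g g11 (@Lb.r r673 (@Lb.r r419 (@Lb.r r2698 (@Lb.r r24 (@Lb.d (nat_lit 324) (nat_lit 154) (nat_lit 137) (@Lb.fm (nat_lit 9) t7349)))))))))))
noncomputable def l42580 : Lb := (@Lb.d (nat_lit 528) (nat_lit 261) (nat_lit 34) (@Lb.r r273 (@Lb.r r2178 (@Lb.r r2595 (@Lb.r r529 (@Lb.g g8 (@Lb.d (nat_lit 530) (nat_lit 0) (nat_lit 0) (@Lb.t (@Lb.fp (nat_lit 3) t1540)))))))))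
noncomputable def l42581 : Lb := (@Lb.d (nat_lit 528) (nat_lit 545) (nat_lit 0) (@Lb.g g8 (@Lb.g g9 (@Lb.g g10 (@Lb.r r2579 (@Lb.r r2634 (@Lb.r r289 (@Lb.d (nat_lit 609) (nat_lit 34) (nat_lit 329) (@Lb.t (@Lb.fm (nat_lit 9) t7350))))))))))
noncomputable def l42582 : Lb := (@Lb.d (nat_lit 10) (nat_lit 512) (nat_lit 136) (@Lb.g g8 (@Lb.g g11 (@Lb.r r2150 (@Lb.r r101 (@Lb.r r2196 (@Lb.d (nat_lit 550) (nat_lit 162) (nat_lit 418) (@Lb.fp (nat_lit 3) t2067))))))))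
noncomputable def l42583 : Lb := (@Lb.r r273 (@Lb.r r322 (@Lb.d (nat_lit 129) (nat_lit 16) (nat_lit 256) (@Lb.g g8 (@Lb.g g7 (@Lb.r r361 (@Lb.r r146 (@Lb.r r264 (@Lb.d (nat_lit 162) (nat_lit 129) (nat_lit 518) (@Lb.fm (nat_lit 3) t1239))))))))))
noncomputable def l42584 : Lb := (@Lb.r r339 (@Lb.d (nat_lit 642) (nat_lit 2) (nat_lit 0) (@Lb.g g8 (@Lb.g g9 (@Lb.g g10 (@Lb.r r2474 (@Lb.r r579 (@Lb.r r537 (@Lb.d (nat_lit 73) (nat_lit 97) (nat_lit 656) (@Lb.t (@Lb.fm (nat_lit 9) t7351)))))))))))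
noncomputable def l42585 : Lb := (@Lb.r r323 (@Lb.d (nat_lit 33) (nat_lit 258) (nat_lit 1) (@Lb.g g8 (@Lb.g g9 (@Lb.g g10 (@Lb.r r1323 (@Lb.r r2217 (@Lb.r r2666 (@Lb.r r1124 (@Lb.d (nat_lit 665) (nat_lit 10) (nat_lit 345) (@Lb.t (@Lb.fp (nat_lit 9) t5932))))))))))))
noncomputable def l42586 : Lb := (@Lb.d (nat_lit 2) (nat_lit 514) (nat_lit 136) (@Lb.g g8 (@Lb.g g9 (@Lb.g g10 (@Lb.g g11 (@Lb.r r2375 (@Lb.r r612 (@Lb.r r149 (@Lb.r r598 (@Lb.r r132 (@Lb.d (nat_lit 645) (nat_lit 33) (nat_lit 106) (@Lb.fp (nat_lit 9) t6019))))))))))))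
noncomputable def l42587 : Lb := (@Lb.d (nat_lit 42) (nat_lit 256) (nat_lit 0) (@Lb.g g8 (@Lb.g g11 (@Lb.r r421 (@Lb.r r2470 (@Lb.r r2395 (@Lb.r r2392 (@Lb.d (nat_lit 681) (nat_lit 84) (nat_lit 678) (@Lb.fp (nat_lit 3) t1639)))))))))
noncomputable def l42588 : Lb := (@Lb.d (nat_lit 129) (nat_lit 256) (nat_lit 410) (@Lb.r r2308 (@Lb.r r267 (@Lb.r r392 (@Lb.g g11 (@Lb.g g8 (@Lb.fp (nat_lit 3) t7352)))))))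
noncomputable def l42589 : Lb := (@Lb.r r21 (@Lb.d (nat_lit 146) (nat_lit 0) (nat_lit 64) (@Lb.g g8 (@Lb.g g10 (@Lb.g g11 (@Lb.r r395 (@Lb.r r2122 (@Lb.r r404 (@Lb.r r25 (@Lb.d (nat_lit 10) (nat_lit 101) (nat_lit 338) (@Lb.t (@Lb.fm (nat_lit 9) t394))))))))))))
noncomputable def l42590 : Lb := (@Lb.d (nat_lit 0) (nat_lit 8) (nat_lit 66) (@Lb.g g10 (@Lb.g g11 (@Lb.r r1540 (@Lb.r r1287 (@Lb.r r1381 (@Lb.r r2714 (@Lb.d (nat_lit 130) (nat_lit 10) (nat_lit 678) (@Lb.fm (nat_lit 3) t7353)))))))))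
noncomputable def l42591 : Lb := (@Lb.d (nat_lit 0) (nat_lit 0) (nat_lit 130) (@Lb.g g10 (@Lb.g g11 (@Lb.r r419 (@Lb.r r1105 (@Lb.r r98 (@Lb.r r1124 (@Lb.d (nat_lit 282) (nat_lit 80) (nat_lit 586) (@Lb.fm (nat_lit 3) t5682)))))))))
noncomputable def l42592 : Lb := (@Lb.d (nat_lit 144) (nat_lit 1) (nat_lit 66) (@Lb.g g8 (@Lb.g g9 (@Lb.g g10 (@Lb.g g11 (@Lb.r r1555 (@Lb.r r2154 (@Lb.r r100 (@Lb.r r277 (@Lb.r r36 (@Lb.d (nat_lit 65) (nat_lit 25) (nat_lit 146) (@Lb.fm (nat_lit 9) t7354))))))))))))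
noncomputable def l42593 : Lb := (@Lb.d (nat_lit 1) (nat_lit 2) (nat_lit 73) (@Lb.g g8 (@Lb.g g9 (@Lb.g g10 (@Lb.g g11 (@Lb.r r2666 (@Lb.r r579 (@Lb.r r97 (@Lb.r r24 (@Lb.d (nat_lit 426) (nat_lit 9) (nat_lit 356) (@Lb.fm (nat_lit 9) t61)))))))))))
noncomputable def l42594 : Lb := (@Lb.r r21 (@Lb.r r331 (@Lb.d (nat_lit 417) (nat_lit 0) (nat_lit 1) (@Lb.g g4 (@Lb.g g10 (@Lb.r r1347 (@Lb.r r2182 (@Lb.r r25 (@Lb.d (nat_lit 338) (nat_lit 0) (nat_lit 33) (@Lb.fm (nat_lit 3) t3898))))))))))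
noncomputable def l42595 : Lb := (@Lb.d (nat_lit 0) (nat_lit 512) (nat_lit 72) (@Lb.g g10 (@Lb.g g11 (@Lb.r r1444 (@Lb.r r2725 (@Lb.r r679 (@Lb.r r598 (@Lb.d (nat_lit 657) (nat_lit 0) (nat_lit 153) (@Lb.fm (nat_lit 3) t4822)))))))))
noncomputable def l42596 : Lb := (@Lb.r r21 (@Lb.r r331 (@Lb.d (nat_lit 417) (nat_lit 512) (nat_lit 1) (@Lb.g g4 (@Lb.g g10 (@Lb.r r1347 (@Lb.r r2182 (@Lb.r r25 (@Lb.d (nat_lit 344) (nat_lit 128) (nat_lit 33) (@Lb.fm (nat_lit 3) t2691))))))))))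
noncomputable def l42597 : Lb := (@Lb.d (nat_lit 146) (nat_lit 512) (nat_lit 132) (@Lb.g g8 (@Lb.g g10 (@Lb.g g11 (@Lb.r r164 (@Lb.r r582 (@Lb.r r1603 (@Lb.r r1057 (@Lb.r r2180 (@Lb.d (nat_lit 98) (nat_lit 168) (nat_lit 329) (@Lb.t (@Lb.fm (nat_lit 9) t941))))))))))))
noncomputable def l42598 : Lb := (@Lb.d (nat_lit 130) (nat_lit 290) (nat_lit 2) (@Lb.g g8 (@Lb.g g9 (@Lb.g g10 (@Lb.r r599 (@Lb.r r386 (@Lb.r r100 (@Lb.d (nat_lit 298) (nat_lit 133) (nat_lit 680) (@Lb.t (@Lb.fm (nat_lit 9) t1350))))))))))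
noncomputable def l42599 : Lb := (@Lb.d (nat_lit 130) (nat_lit 290) (nat_lit 2) (@Lb.g g8 (@Lb.g g9 (@Lb.g g10 (@Lb.r r599 (@Lb.r r386 (@Lb.r r100 (@Lb.d (nat_lit 293) (nat_lit 137) (nat_lit 681) (@Lb.t (@Lb.fm (nat_lit 9) t1350))))))))))
noncomputable def l42600 : Lb := (@Lb.r r516 (@Lb.d (nat_lit 0) (nat_lit 585) (nat_lit 320) (@Lb.g g9 (@Lb.g g11 (@Lb.r r1170 (@Lb.r r2180 (@Lb.d (nat_lit 0) (nat_lit 2) (nat_lit 20) (@Lb.fp (nat_lit 3) t249))))))))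
noncomputable def l42601 : Lb := (@Lb.d (nat_lit 134) (nat_lit 514) (nat_lit 130) (@Lb.g g8 (@Lb.g g9 (@Lb.g g10 (@Lb.g g11 (@Lb.r r618 (@Lb.r r612 (@Lb.r r1319 (@Lb.r r405 (@Lb.r r36 (@Lb.d (nat_lit 104) (nat_lit 130) (nat_lit 410) (@Lb.fp (nat_lit 9) t3335))))))))))))
noncomputable def l42602 : Lb := (@Lb.d (nat_lit 128) (nat_lit 2) (nat_lit 644) (@Lb.g g9 (@Lb.g g11 (@Lb.r r2178 (@Lb.r r408 (@Lb.r r37 (@Lb.d (nat_lit 282) (nat_lit 66) (nat_lit 144) (@Lb.fp (nat_lit 3) t3266))))))))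
noncomputable def l42603 : Lb := (@Lb.d (nat_lit 2) (nat_lit 33) (nat_lit 66) (@Lb.g g8 (@Lb.g g9 (@Lb.g g10 (@Lb.g g11 (@Lb.r r427 (@Lb.r r2440 (@Lb.r r2122 (@Lb.r r2577 (@Lb.d (nat_lit 420) (nat_lit 64) (nat_lit 409) (@Lb.fm (nat_lit 9) t6321)))))))))))
noncomputable def l42604 : Lb := (@Lb.r r82 (@Lb.r r283 (@Lb.d (nat_lit 130) (nat_lit 266) (nat_lit 0) (@Lb.g g8 (@Lb.g g9 (@Lb.r r1287 (@Lb.r r146 (@Lb.r r644 (@Lb.d (nat_lit 290) (nat_lit 4) (nat_lit 516) (@Lb.fp (nat_lit 3) t4582))))))))))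
noncomputable def l42605 : Lb := (@Lb.d (nat_lit 146) (nat_lit 256) (nat_lit 5) (@Lb.g g8 (@Lb.g g10 (@Lb.g g11 (@Lb.r r132 (@Lb.r r598 (@Lb.r r1603 (@Lb.r r1057 (@Lb.r r2180 (@Lb.d (nat_lit 354) (nat_lit 81) (nat_lit 617) (@Lb.t (@Lb.fm (nat_lit 9) t1865))))))))))))
noncomputable def l42606 : Lb := (@Lb.r r82 (@Lb.d (nat_lit 132) (nat_lit 258) (nat_lit 128) (@Lb.g g8 (@Lb.g g9 (@Lb.g g11 (@Lb.r r1315 (@Lb.r r578 (@Lb.r r1060 (@Lb.r r293 (@Lb.d (nat_lit 324) (nat_lit 97) (nat_lit 517) (@Lb.t (@Lb.fp (nat_lit 9) t4583))))))))))))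
noncomputable def l42607 : Lb := (@Lb.d (nat_lit 8) (nat_lit 2) (nat_lit 0) (@Lb.g g9 (@Lb.g g7 (@Lb.r r2196 (@Lb.r r1638 (@Lb.r r1361 (@Lb.d (nat_lit 5) (nat_lit 36) (nat_lit 598) (@Lb.fp (nat_lit 3) t259))))))))
noncomputable def l42608 : Lb := (@Lb.r r82 (@Lb.d (nat_lit 2) (nat_lit 2) (nat_lit 0) (@Lb.g g8 (@Lb.g g9 (@Lb.r r1571 (@Lb.r r1192 (@Lb.r r1642 (@Lb.r r1633 (@Lb.d (nat_lit 613) (nat_lit 152) (nat_lit 420) (@Lb.fp (nat_lit 3) t2429))))))))))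
noncomputable def l42609 : Lb := (@Lb.r r82 (@Lb.d (nat_lit 128) (nat_lit 514) (nat_lit 128) (@Lb.g g8 (@Lb.g g9 (@Lb.g g11 (@Lb.r r2457 (@Lb.r r1379 (@Lb.r r146 (@Lb.r r388 (@Lb.d (nat_lit 361) (nat_lit 4) (nat_lit 168) (@Lb.t (@Lb.fp (nat_lit 9) t7355))))))))))))
noncomputable def l42610 : Lb := (@Lb.r r82 (@Lb.d (nat_lit 128) (nat_lit 2) (nat_lit 128) (@Lb.g g8 (@Lb.g g9 (@Lb.g g11 (@Lb.r r2457 (@Lb.r r1379 (@Lb.r r146 (@Lb.r r388 (@Lb.d (nat_lit 361) (nat_lit 2) (nat_lit 170) (@Lb.t (@Lb.fp (nat_lit 9) t6520))))))))))))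
noncomputable def l42611 : Lb := (@Lb.d (nat_lit 530) (nat_lit 133) (nat_lit 18) (@Lb.r r1317 (@Lb.r r1094 (@Lb.r r339 (@Lb.g g7 (@Lb.g g6 (@Lb.g g5 (@Lb.g g4 (@Lb.d (nat_lit 6) (nat_lit 1) (nat_lit 65) (@Lb.fm (nat_lit 9) t7356))))))))))
noncomputable def l42612 : Lb := (@Lb.r r82 (@Lb.d (nat_lit 130) (nat_lit 514) (nat_lit 128) (@Lb.g g8 (@Lb.g g9 (@Lb.g g11 (@Lb.r r1697 (@Lb.r r1447 (@Lb.r r98 (@Lb.r r584 (@Lb.d (nat_lit 104) (nat_lit 2) (nat_lit 138) (@Lb.t (@Lb.fm (nat_lit 9) t5634))))))))))))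
noncomputable def l42613 : Lb := (@Lb.r r82 (@Lb.d (nat_lit 133) (nat_lit 512) (nat_lit 128) (@Lb.g g8 (@Lb.g g9 (@Lb.g g11 (@Lb.r r1443 (@Lb.r r1637 (@Lb.r r1366 (@Lb.r r2708 (@Lb.d (nat_lit 673) (nat_lit 68) (nat_lit 134) (@Lb.t (@Lb.fp (nat_lit 9) t7248))))))))))))
noncomputable def l42614 : Lb := (@Lb.d (nat_lit 528) (nat_lit 546) (nat_lit 0) (@Lb.g g8 (@Lb.g g5 (@Lb.r r1315 (@Lb.r r2178 (@Lb.r r2321 (@Lb.d (nat_lit 322) (nat_lit 97) (nat_lit 657) (@Lb.fm (nat_lit 3) t1561))))))))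
noncomputable def l42615 : Lb := (@Lb.d (nat_lit 2) (nat_lit 256) (nat_lit 384) (@Lb.r r2132 (@Lb.r r1642 (@Lb.r r2665 (@Lb.r r616 (@Lb.g g11 (@Lb.t (@Lb.fp (nat_lit 3) t3574))))))))
noncomputable def l42616 : Lb := (@Lb.d (nat_lit 642) (nat_lit 2) (nat_lit 2) (@Lb.g g8 (@Lb.g g9 (@Lb.g g10 (@Lb.r r2651 (@Lb.r r106 (@Lb.r r25 (@Lb.d (nat_lit 8) (nat_lit 9) (nat_lit 596) (@Lb.t (@Lb.fp (nat_lit 9) t5913))))))))))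
noncomputable def l42617 : Lb := (@Lb.d (nat_lit 2) (nat_lit 512) (nat_lit 0) (@Lb.g g8 (@Lb.r r2118 (@Lb.r r2069 (@Lb.r r36 (@Lb.d (nat_lit 513) (nat_lit 66) (nat_lit 0) (@Lb.t (@Lb.fp (nat_lit 3) t1651))))))))
noncomputable def l42618 : Lb := (@Lb.r r82 (@Lb.d (nat_lit 9) (nat_lit 513) (nat_lit 128) (@Lb.g g8 (@Lb.g g9 (@Lb.g g11 (@Lb.r r1571 (@Lb.r r1192 (@Lb.r r1642 (@Lb.r r1633 (@Lb.d (nat_lit 608) (nat_lit 88) (nat_lit 356) (@Lb.t (@Lb.fp (nat_lit 9) t3666))))))))))))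
noncomputable def l42619 : Lb := (@Lb.d (nat_lit 293) (nat_lit 520) (nat_lit 273) (@Lb.r r597 (@Lb.r r682 (@Lb.r r420 (@Lb.r r347 (@Lb.g g7 (@Lb.g g6 (@Lb.d (nat_lit 16) (nat_lit 0) (nat_lit 65) (@Lb.fp (nat_lit 3) t3564)))))))))
noncomputable def l42620 : Lb := (@Lb.r r323 (@Lb.d (nat_lit 137) (nat_lit 2) (nat_lit 2) (@Lb.g g8 (@Lb.g g9 (@Lb.g g10 (@Lb.r r1186 (@Lb.r r2705 (@Lb.r r1431 (@Lb.r r2632 (@Lb.d (nat_lit 601) (nat_lit 0) (nat_lit 265) (@Lb.t (@Lb.fm (nat_lit 9) t7357))))))))))))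
noncomputable def l42621 : Lb := (@Lb.r r21 (@Lb.d (nat_lit 386) (nat_lit 4) (nat_lit 1) (@Lb.g g8 (@Lb.g g10 (@Lb.r r665 (@Lb.r r343 (@Lb.r r650 (@Lb.d (nat_lit 129) (nat_lit 64) (nat_lit 645) (@Lb.fp (nat_lit 3) t4489)))))))))
noncomputable def l42622 : Lb := (@Lb.r r277 (@Lb.r r326 (@Lb.d (nat_lit 410) (nat_lit 256) (nat_lit 128) (@Lb.g g8 (@Lb.g g11 (@Lb.r r101 (@Lb.r r2194 (@Lb.d (nat_lit 2) (nat_lit 138) (nat_lit 34) (@Lb.fm (nat_lit 3) t3870)))))))))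
noncomputable def l42623 : Lb := (@Lb.d (nat_lit 154) (nat_lit 514) (nat_lit 66) (@Lb.g g8 (@Lb.g g9 (@Lb.g g10 (@Lb.g g11 (@Lb.r r404 (@Lb.r r1563 (@Lb.r r2453 (@Lb.r r2390 (@Lb.r r676 (@Lb.d (nat_lit 104) (nat_lit 66) (nat_lit 297) (@Lb.fm (nat_lit 9) t1877))))))))))))
noncomputable def l42624 : Lb := (@Lb.r r82 (@Lb.d (nat_lit 9) (nat_lit 33) (nat_lit 72) (@Lb.g g8 (@Lb.g g9 (@Lb.g g11 (@Lb.r r1426 (@Lb.r r1049 (@Lb.r r2436 (@Lb.d (nat_lit 260) (nat_lit 165) (nat_lit 16) (@Lb.t (@Lb.fp (nat_lit 9) t2605)))))))))))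
noncomputable def l42625 : Lb := (@Lb.r r21 (@Lb.r r70 (@Lb.d (nat_lit 658) (nat_lit 0) (nat_lit 72) (@Lb.g g8 (@Lb.g g11 (@Lb.r r74 (@Lb.r r25 (@Lb.d (nat_lit 290) (nat_lit 0) (nat_lit 2) (@Lb.fm (nat_lit 3) t164)))))))))
noncomputable def l42626 : Lb := (@Lb.d (nat_lit 9) (nat_lit 520) (nat_lit 129) (@Lb.g g8 (@Lb.g g9 (@Lb.g g10 (@Lb.g g11 (@Lb.r r1699 (@Lb.r r2216 (@Lb.r r2666 (@Lb.r r2585 (@Lb.d (nat_lit 682) (nat_lit 169) (nat_lit 104) (@Lb.fp (nat_lit 9) t7358)))))))))))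
noncomputable def l42627 : Lb := (@Lb.d (nat_lit 425) (nat_lit 106) (nat_lit 37) (@Lb.r r681 (@Lb.r r2731 (@Lb.r r1642 (@Lb.r r356 (@Lb.g g7 (@Lb.g g5 (@Lb.d (nat_lit 72) (nat_lit 5) (nat_lit 128) (@Lb.fm (nat_lit 3) t1129)))))))))
noncomputable def l42628 : Lb := (@Lb.d (nat_lit 528) (nat_lit 32) (nat_lit 64) (@Lb.g g8 (@Lb.g g11 (@Lb.r r2337 (@Lb.r r531 (@Lb.r r2178 (@Lb.d (nat_lit 530) (nat_lit 97) (nat_lit 6) (@Lb.fp (nat_lit 3) t1540))))))))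
noncomputable def l42629 : Lb := (@Lb.d (nat_lit 148) (nat_lit 256) (nat_lit 128) (@Lb.g g8 (@Lb.g g9 (@Lb.g g10 (@Lb.g g11 (@Lb.r r165 (@Lb.r r1160 (@Lb.r r2714 (@Lb.r r1411 (@Lb.d (nat_lit 265) (nat_lit 33) (nat_lit 264) (@Lb.fm (nat_lit 9) t7359)))))))))))
noncomputable def l42630 : Lb := (@Lb.r r21 (@Lb.d (nat_lit 146) (nat_lit 512) (nat_lit 128) (@Lb.g g8 (@Lb.g g10 (@Lb.g g11 (@Lb.r r1674 (@Lb.r r1411 (@Lb.r r145 (@Lb.r r2084 (@Lb.d (nat_lit 361) (nat_lit 162) (nat_lit 130) (@Lb.t (@Lb.fp (nat_lit 9) t6983))))))))))))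
noncomputable def l42631 : Lb := (@Lb.d (nat_lit 2) (nat_lit 0) (nat_lit 128) (@Lb.g g8 (@Lb.g g11 (@Lb.r r2450 (@Lb.r r2659 (@Lb.r r1633 (@Lb.r r24 (@Lb.d (nat_lit 10) (nat_lit 149) (nat_lit 65) (@Lb.fm (nat_lit 3) t3960)))))))))
noncomputable def l42632 : Lb := (@Lb.g g11 (@Lb.r r101 (@Lb.r r24 (@Lb.d (nat_lit 354) (nat_lit 0) (nat_lit 512) (@Lb.t (@Lb.fp (nat_lit 3) t166))))))
noncomputable def l42633 : Lb := (@Lb.d (nat_lit 0) (nat_lit 520) (nat_lit 130) (@Lb.g g9 (@Lb.g g10 (@Lb.g g11 (@Lb.r r2475 (@Lb.r r1096 (@Lb.r r2470 (@Lb.r r421 (@Lb.d (nat_lit 660) (nat_lit 18) (nat_lit 152) (@Lb.t (@Lb.fp (nat_lit 9) t7360)))))))))))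
noncomputable def l42634 : Lb := (@Lb.d (nat_lit 0) (nat_lit 266) (nat_lit 130) (@Lb.g g5 (@Lb.g g10 (@Lb.g g11 (@Lb.r r1419 (@Lb.d (nat_lit 97) (nat_lit 0) (nat_lit 596) (@Lb.t (@Lb.fp (nat_lit 9) t4455))))))))
noncomputable def l42635 : Lb := (@Lb.d (nat_lit 24) (nat_lit 594) (nat_lit 425) (@Lb.r r101 (@Lb.r r1575 (@Lb.g g7 (@Lb.g g4 (@Lb.d (nat_lit 1) (nat_lit 0) (nat_lit 128) (@Lb.fm (nat_lit 3) t3588)))))))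
noncomputable def l42636 : Lb := (@Lb.d (nat_lit 0) (nat_lit 552) (nat_lit 582) (@Lb.g g9 (@Lb.g g10 (@Lb.g g7 (@Lb.r r418 (@Lb.r r409 (@Lb.r r24 (@Lb.d (nat_lit 400) (nat_lit 5) (nat_lit 10) (@Lb.t (@Lb.fp (nat_lit 9) t742))))))))))
noncomputable def l42637 : Lb := (@Lb.d (nat_lit 128) (nat_lit 0) (nat_lit 324) (@Lb.g g7 (@Lb.r r402 (@Lb.r r2145 (@Lb.r r36 (@Lb.d (nat_lit 65) (nat_lit 64) (nat_lit 576) (@Lb.t (@Lb.fm (nat_lit 3) t1351))))))))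
noncomputable def l42638 : Lb := (@Lb.d (nat_lit 4) (nat_lit 256) (nat_lit 2) (@Lb.g g8 (@Lb.g g9 (@Lb.g g10 (@Lb.g g11 (@Lb.r r683 (@Lb.r r1689 (@Lb.r r146 (@Lb.d (nat_lit 610) (nat_lit 73) (nat_lit 409) (@Lb.fp (nat_lit 9) t386))))))))))
noncomputable def l42639 : Lb := (@Lb.r r82 (@Lb.d (nat_lit 2) (nat_lit 514) (nat_lit 128) (@Lb.g g8 (@Lb.g g9 (@Lb.g g11 (@Lb.r r593 (@Lb.r r1623 (@Lb.r r98 (@Lb.r r2436 (@Lb.d (nat_lit 642) (nat_lit 10) (nat_lit 410) (@Lb.t (@Lb.fp (nat_lit 9) t3499))))))))))))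
noncomputable def l42640 : Lb := (@Lb.d (nat_lit 641) (nat_lit 512) (nat_lit 17) (@Lb.g g4 (@Lb.g g10 (@Lb.r r273 (@Lb.r r2595 (@Lb.r r529 (@Lb.d (nat_lit 8) (nat_lit 80) (nat_lit 337) (@Lb.fm (nat_lit 3) t430))))))))
noncomputable def l42641 : Lb := (@Lb.d (nat_lit 390) (nat_lit 85) (nat_lit 608) (@Lb.r r2325 (@Lb.r r1387 (@Lb.r r1666 (@Lb.g g7 (@Lb.g g6 (@Lb.g g5 (@Lb.g g4 (@Lb.d (nat_lit 8) (nat_lit 2) (nat_lit 133) (@Lb.fm (nat_lit 9) t918))))))))))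
noncomputable def l42642 : Lb := (@Lb.r r82 (@Lb.d (nat_lit 132) (nat_lit 512) (nat_lit 128) (@Lb.g g8 (@Lb.g g9 (@Lb.g g11 (@Lb.r r291 (@Lb.r r1124 (@Lb.r r1626 (@Lb.r r2449 (@Lb.d (nat_lit 10) (nat_lit 84) (nat_lit 169) (@Lb.t (@Lb.fm (nat_lit 9) t1846))))))))))))
noncomputable def l42643 : Lb := (@Lb.g g9 (@Lb.g g6 (@Lb.r r2706 (@Lb.r r1427 (@Lb.r r1633 (@Lb.r r36 (@Lb.d (nat_lit 5) (nat_lit 153) (nat_lit 66) (@Lb.fp (nat_lit 3) t918))))))))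
noncomputable def l42644 : Lb := (@Lb.r r21 (@Lb.r r70 (@Lb.g g4 (@Lb.r r1559 (@Lb.r r405 (@Lb.r r86 (@Lb.r r2120 (@Lb.d (nat_lit 581) (nat_lit 257) (nat_lit 512) (@Lb.t (@Lb.fm (nat_lit 3) t2012))))))))))
noncomputable def l42645 : Lb := (@Lb.d (nat_lit 154) (nat_lit 0) (nat_lit 132) (@Lb.g g8 (@Lb.g g10 (@Lb.g g11 (@Lb.r r1602 (@Lb.r r1637 (@Lb.r r2407 (@Lb.r r536 (@Lb.d (nat_lit 360) (nat_lit 66) (nat_lit 290) (@Lb.t (@Lb.fm (nat_lit 9) t4192)))))))))))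
noncomputable def l42646 : Lb := (@Lb.r r20 (@Lb.d (nat_lit 32) (nat_lit 149) (nat_lit 0) (@Lb.g g5 (@Lb.g g10 (@Lb.r r1387 (@Lb.r r1380 (@Lb.r r2394 (@Lb.d (nat_lit 98) (nat_lit 37) (nat_lit 550) (@Lb.fp (nat_lit 3) t3612)))))))))
noncomputable def l42647 : Lb := (@Lb.r r21 (@Lb.r r70 (@Lb.g g4 (@Lb.r r1559 (@Lb.r r405 (@Lb.r r86 (@Lb.r r2120 (@Lb.d (nat_lit 576) (nat_lit 512) (nat_lit 512) (@Lb.t (@Lb.fm (nat_lit 3) t278))))))))))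
noncomputable def l42648 : Lb := (@Lb.d (nat_lit 149) (nat_lit 17) (nat_lit 128) (@Lb.g g8 (@Lb.g g9 (@Lb.g g10 (@Lb.g g11 (@Lb.r r427 (@Lb.r r1602 (@Lb.r r2213 (@Lb.r r1672 (@Lb.d (nat_lit 389) (nat_lit 166) (nat_lit 330) (@Lb.fp (nat_lit 9) t2343)))))))))))
noncomputable def l42649 : Lb := (@Lb.d (nat_lit 4) (nat_lit 258) (nat_lit 0) (@Lb.g g9 (@Lb.g g7 (@Lb.r r148 (@Lb.r r614 (@Lb.r r337 (@Lb.d (nat_lit 6) (nat_lit 162) (nat_lit 325) (@Lb.fp (nat_lit 3) t668))))))))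
noncomputable def l42650 : Lb := (@Lb.d (nat_lit 0) (nat_lit 512) (nat_lit 2) (@Lb.g g4 (@Lb.g g10 (@Lb.r r2435 (@Lb.r r386 (@Lb.d (nat_lit 1) (nat_lit 0) (nat_lit 356) (@Lb.fm (nat_lit 3) t2)))))))
noncomputable def l42651 : Lb := (@Lb.d (nat_lit 8) (nat_lit 265) (nat_lit 0) (@Lb.g g9 (@Lb.r r1114 (@Lb.r r1624 (@Lb.r r1291 (@Lb.r r1425 (@Lb.d (nat_lit 1) (nat_lit 90) (nat_lit 137) (@Lb.t (@Lb.fm (nat_lit 3) t322)))))))))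
noncomputable def l42652 : Lb := (@Lb.d (nat_lit 386) (nat_lit 256) (nat_lit 362) (@Lb.r r24 (@Lb.r r101 (@Lb.g g11 (@Lb.g g4 (@Lb.fp (nat_lit 3) t3940))))))
noncomputable def l42653 : Lb := (@Lb.d (nat_lit 2) (nat_lit 2) (nat_lit 0) (@Lb.g g8 (@Lb.g g9 (@Lb.r r322 (@Lb.r r1667 (@Lb.r r578 (@Lb.r r25 (@Lb.d (nat_lit 9) (nat_lit 153) (nat_lit 265) (@Lb.fp (nat_lit 3) t654)))))))))
noncomputable def l42654 : Lb := (@Lb.d (nat_lit 129) (nat_lit 0) (nat_lit 128) (@Lb.g g8 (@Lb.g g11 (@Lb.r r340 (@Lb.r r2587 (@Lb.r r1540 (@Lb.d (nat_lit 538) (nat_lit 100) (nat_lit 394) (@Lb.fp (nat_lit 3) t4646))))))))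
noncomputable def l42655 : Lb := (@Lb.r r21 (@Lb.d (nat_lit 146) (nat_lit 0) (nat_lit 128) (@Lb.g g8 (@Lb.g g10 (@Lb.g g11 (@Lb.r r1674 (@Lb.r r1411 (@Lb.r r2212 (@Lb.r r37 (@Lb.d (nat_lit 4) (nat_lit 20) (nat_lit 169) (@Lb.t (@Lb.fm (nat_lit 9) t7361))))))))))))
noncomputable def l42656 : Lb := (@Lb.d (nat_lit 136) (nat_lit 2) (nat_lit 128) (@Lb.g g9 (@Lb.g g11 (@Lb.r r260 (@Lb.r r283 (@Lb.r r1553 (@Lb.d (nat_lit 538) (nat_lit 1) (nat_lit 37) (@Lb.fm (nat_lit 3) t7362))))))))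
noncomputable def l42657 : Lb := (@Lb.r r21 (@Lb.d (nat_lit 146) (nat_lit 0) (nat_lit 128) (@Lb.g g8 (@Lb.g g10 (@Lb.g g11 (@Lb.r r1674 (@Lb.r r1411 (@Lb.r r2212 (@Lb.r r37 (@Lb.d (nat_lit 0) (nat_lit 22) (nat_lit 169) (@Lb.t (@Lb.fm (nat_lit 9) t531))))))))))))
noncomputable def l42658 : Lb := (@Lb.d (nat_lit 1) (nat_lit 66) (nat_lit 136) (@Lb.g g4 (@Lb.g g9 (@Lb.g g11 (@Lb.r r402 (@Lb.r r579 (@Lb.d (nat_lit 292) (nat_lit 0) (nat_lit 34) (@Lb.t (@Lb.fp (nat_lit 9) t3056)))))))))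
noncomputable def l42659 : Lb := (@Lb.d (nat_lit 2) (nat_lit 517) (nat_lit 358) (@Lb.r r2370 (@Lb.r r1683 (@Lb.r r1381 (@Lb.g g7 (@Lb.g g6 (@Lb.g g4 (@Lb.d (nat_lit 257) (nat_lit 4) (nat_lit 65) (@Lb.r r25 (@Lb.t (@Lb.fp (nat_lit 9) t5699)))))))))))
noncomputable def l42660 : Lb := (@Lb.d (nat_lit 64) (nat_lit 164) (nat_lit 681) (@Lb.r r326 (@Lb.r r1176 (@Lb.r r1667 (@Lb.g g7 (@Lb.g g6 (@Lb.g g9 (@Lb.g g4 (@Lb.d (nat_lit 17) (nat_lit 10) (nat_lit 134) (@Lb.fm (nat_lit 9) t7363))))))))))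
noncomputable def l42661 : Lb := (@Lb.d (nat_lit 146) (nat_lit 258) (nat_lit 73) (@Lb.g g8 (@Lb.g g9 (@Lb.g g10 (@Lb.g g11 (@Lb.r r425 (@Lb.r r599 (@Lb.r r1366 (@Lb.r r72 (@Lb.d (nat_lit 386) (nat_lit 24) (nat_lit 329) (@Lb.fm (nat_lit 9) t4804)))))))))))
noncomputable def l42662 : Lb := (@Lb.d (nat_lit 16) (nat_lit 9) (nat_lit 130) (@Lb.g g8 (@Lb.g g9 (@Lb.g g10 (@Lb.g g11 (@Lb.r r2667 (@Lb.r r1602 (@Lb.r r425 (@Lb.r r2084 (@Lb.d (nat_lit 409) (nat_lit 130) (nat_lit 68) (@Lb.fp (nat_lit 9) t5140)))))))))))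
noncomputable def l42663 : Lb := (@Lb.d (nat_lit 16) (nat_lit 266) (nat_lit 130) (@Lb.g g8 (@Lb.g g9 (@Lb.g g10 (@Lb.g g11 (@Lb.r r1675 (@Lb.r r2201 (@Lb.r r1170 (@Lb.r r584 (@Lb.d (nat_lit 74) (nat_lit 73) (nat_lit 674) (@Lb.fm (nat_lit 9) t976)))))))))))
noncomputable def l42664 : Lb := (@Lb.d (nat_lit 144) (nat_lit 2) (nat_lit 66) (@Lb.g g8 (@Lb.g g9 (@Lb.g g10 (@Lb.g g11 (@Lb.r r2435 (@Lb.r r168 (@Lb.r r2474 (@Lb.r r1065 (@Lb.r r1060 (@Lb.d (nat_lit 521) (nat_lit 20) (nat_lit 649) (@Lb.fm (nat_lit 9) t7364))))))))))))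
noncomputable def l42665 : Lb := (@Lb.d (nat_lit 16) (nat_lit 258) (nat_lit 0) (@Lb.g g8 (@Lb.g g9 (@Lb.g g10 (@Lb.r r683 (@Lb.r r2666 (@Lb.r r36 (@Lb.r r37 (@Lb.d (nat_lit 361) (nat_lit 1) (nat_lit 537) (@Lb.t (@Lb.fm (nat_lit 9) t2656)))))))))))
noncomputable def l42666 : Lb := (@Lb.d (nat_lit 0) (nat_lit 522) (nat_lit 2) (@Lb.r r134 (@Lb.r r328 (@Lb.r r535 (@Lb.r r289 (@Lb.g g11 (@Lb.t (@Lb.fp (nat_lit 3) t71))))))))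
noncomputable def l42667 : Lb := (@Lb.d (nat_lit 2) (nat_lit 618) (nat_lit 518) (@Lb.r r101 (@Lb.g g7 (@Lb.g g8 (@Lb.d (nat_lit 10) (nat_lit 0) (nat_lit 0) (@Lb.fm (nat_lit 3) t7365))))))
noncomputable def l42668 : Lb := (@Lb.d (nat_lit 0) (nat_lit 352) (nat_lit 642) (@Lb.r r101 (@Lb.r r24 (@Lb.g g11 (@Lb.t (@Lb.fp (nat_lit 3) t314))))))
noncomputable def l42669 : Lb := (@Lb.r r263 (@Lb.d (nat_lit 130) (nat_lit 546) (nat_lit 2) (@Lb.g g8 (@Lb.g g9 (@Lb.g g10 (@Lb.r r275 (@Lb.r r1637 (@Lb.r r1626 (@Lb.r r2456 (@Lb.d (nat_lit 361) (nat_lit 66) (nat_lit 678) (@Lb.t (@Lb.fm (nat_lit 9) t7278))))))))))))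
noncomputable def l42670 : Lb := (@Lb.d (nat_lit 73) (nat_lit 294) (nat_lit 128) (@Lb.g g8 (@Lb.g g9 (@Lb.g g10 (@Lb.g g11 (@Lb.r r1699 (@Lb.r r164 (@Lb.r r1685 (@Lb.r r2198 (@Lb.r r2084 (@Lb.d (nat_lit 33) (nat_lit 98) (nat_lit 89) (@Lb.fp (nat_lit 9) t1144))))))))))))
noncomputable def l42671 : Lb := (@Lb.d (nat_lit 2) (nat_lit 516) (nat_lit 0) (@Lb.g g8 (@Lb.g g9 (@Lb.g g10 (@Lb.r r683 (@Lb.r r2666 (@Lb.r r1060 (@Lb.r r1125 (@Lb.d (nat_lit 73) (nat_lit 128) (nat_lit 9) (@Lb.t (@Lb.fm (nat_lit 9) t3144)))))))))))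
noncomputable def l42672 : Lb := (@Lb.d (nat_lit 4) (nat_lit 0) (nat_lit 130) (@Lb.g g8 (@Lb.g g9 (@Lb.g g10 (@Lb.g g11 (@Lb.r r2691 (@Lb.r r2581 (@Lb.r r616 (@Lb.r r1158 (@Lb.d (nat_lit 81) (nat_lit 150) (nat_lit 64) (@Lb.fm (nat_lit 9) t2597)))))))))))
noncomputable def l42673 : Lb := (@Lb.d (nat_lit 32) (nat_lit 138) (nat_lit 70) (@Lb.r r421 (@Lb.r r362 (@Lb.r r72 (@Lb.r r2391 (@Lb.g g7 (@Lb.g g6 (@Lb.g g5 (@Lb.d (nat_lit 20) (nat_lit 1) (nat_lit 65) (@Lb.t (@Lb.fp (nat_lit 9) t1649)))))))))))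
noncomputable def l42674 : Lb := (@Lb.d (nat_lit 73) (nat_lit 38) (nat_lit 74) (@Lb.g g8 (@Lb.g g9 (@Lb.g g10 (@Lb.g g11 (@Lb.r r1699 (@Lb.r r164 (@Lb.r r1685 (@Lb.r r2198 (@Lb.r r2084 (@Lb.d (nat_lit 40) (nat_lit 97) (nat_lit 89) (@Lb.fp (nat_lit 9) t7366))))))))))))
noncomputable def l42675 : Lb := (@Lb.d (nat_lit 32) (nat_lit 640) (nat_lit 68) (@Lb.r r421 (@Lb.r r362 (@Lb.r r72 (@Lb.r r2391 (@Lb.g g7 (@Lb.g g6 (@Lb.g g5 (@Lb.d (nat_lit 20) (nat_lit 1) (nat_lit 65) (@Lb.t (@Lb.fp (nat_lit 9) t1889)))))))))))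
noncomputable def l42676 : Lb := (@Lb.d (nat_lit 73) (nat_lit 550) (nat_lit 74) (@Lb.g g8 (@Lb.g g9 (@Lb.g g10 (@Lb.g g11 (@Lb.r r1699 (@Lb.r r164 (@Lb.r r1685 (@Lb.r r2198 (@Lb.r r2084 (@Lb.d (nat_lit 33) (nat_lit 98) (nat_lit 89) (@Lb.fp (nat_lit 9) t1144))))))))))))
noncomputable def l42677 : Lb := (@Lb.d (nat_lit 2) (nat_lit 10) (nat_lit 0) (@Lb.g g8 (@Lb.g g9 (@Lb.r r1636 (@Lb.r r1383 (@Lb.r r1626 (@Lb.r r1429 (@Lb.d (nat_lit 612) (nat_lit 90) (nat_lit 329) (@Lb.fm (nat_lit 3) t2982)))))))))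
noncomputable def l42678 : Lb := (@Lb.d (nat_lit 64) (nat_lit 0) (nat_lit 72) (@Lb.g g11 (@Lb.r r2660 (@Lb.r r1429 (@Lb.r r1362 (@Lb.r r675 (@Lb.d (nat_lit 0) (nat_lit 22) (nat_lit 10) (@Lb.t (@Lb.fm (nat_lit 3) t40)))))))))
noncomputable def l42679 : Lb := (@Lb.d (nat_lit 72) (nat_lit 294) (nat_lit 344) (@Lb.r r388 (@Lb.r r2130 (@Lb.r r1623 (@Lb.g g7 (@Lb.g g5 (@Lb.g g4 (@Lb.d (nat_lit 5) (nat_lit 130) (nat_lit 64) (@Lb.r r74 (@Lb.t (@Lb.fm (nat_lit 9) t7367)))))))))))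
noncomputable def l42680 : Lb := (@Lb.r r331 (@Lb.d (nat_lit 37) (nat_lit 512) (nat_lit 2) (@Lb.g g8 (@Lb.g g9 (@Lb.g g10 (@Lb.r r1579 (@Lb.r r2146 (@Lb.r r2657 (@Lb.r r1156 (@Lb.d (nat_lit 426) (nat_lit 33) (nat_lit 674) (@Lb.t (@Lb.fm (nat_lit 9) t7368))))))))))))
noncomputable def l42681 : Lb := (@Lb.d (nat_lit 389) (nat_lit 406) (nat_lit 354) (@Lb.r r1556 (@Lb.r r2345 (@Lb.r r1623 (@Lb.g g6 (@Lb.g g5 (@Lb.g g4 (@Lb.d (nat_lit 65) (nat_lit 8) (nat_lit 32) (@Lb.r r387 (@Lb.t (@Lb.fp (nat_lit 9) t2556)))))))))))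
noncomputable def l42682 : Lb := (@Lb.r r331 (@Lb.d (nat_lit 129) (nat_lit 258) (nat_lit 0) (@Lb.g g8 (@Lb.g g9 (@Lb.g g10 (@Lb.r r619 (@Lb.r r1177 (@Lb.r r1626 (@Lb.r r72 (@Lb.d (nat_lit 34) (nat_lit 161) (nat_lit 329) (@Lb.t (@Lb.fm (nat_lit 9) t5170))))))))))))
noncomputable def l42683 : Lb := (@Lb.d (nat_lit 256) (nat_lit 513) (nat_lit 0) (@Lb.r r24 (@Lb.r r2138 (@Lb.g g5 (@Lb.d (nat_lit 4) (nat_lit 130) (nat_lit 0) (@Lb.t (@Lb.fp (nat_lit 3) t1602)))))))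
noncomputable def l42684 : Lb := (@Lb.d (nat_lit 105) (nat_lit 0) (nat_lit 72) (@Lb.g g8 (@Lb.g g11 (@Lb.r r322 (@Lb.r r1447 (@Lb.r r2341 (@Lb.r r532 (@Lb.d (nat_lit 134) (nat_lit 169) (nat_lit 38) (@Lb.fp (nat_lit 3) t3574)))))))))
noncomputable def l42685 : Lb := (@Lb.r r331 (@Lb.d (nat_lit 513) (nat_lit 514) (nat_lit 2) (@Lb.g g8 (@Lb.g g9 (@Lb.g g10 (@Lb.r r427 (@Lb.r r2154 (@Lb.r r25 (@Lb.d (nat_lit 9) (nat_lit 66) (nat_lit 18) (@Lb.t (@Lb.fm (nat_lit 9) t375)))))))))))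
noncomputable def l42686 : Lb := (@Lb.r r21 (@Lb.d (nat_lit 138) (nat_lit 0) (nat_lit 130) (@Lb.g g8 (@Lb.g g10 (@Lb.g g11 (@Lb.r r1553 (@Lb.r r1435 (@Lb.r r386 (@Lb.r r88 (@Lb.d (nat_lit 272) (nat_lit 70) (nat_lit 520) (@Lb.t (@Lb.fm (nat_lit 9) t6767))))))))))))
noncomputable def l42687 : Lb := (@Lb.d (nat_lit 406) (nat_lit 280) (nat_lit 602) (@Lb.r r1604 (@Lb.r r1617 (@Lb.g g10 (@Lb.g g4 (@Lb.d (nat_lit 0) (nat_lit 0) (nat_lit 10) (@Lb.fp (nat_lit 3) t3337)))))))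
noncomputable def l42688 : Lb := (@Lb.d (nat_lit 10) (nat_lit 578) (nat_lit 602) (@Lb.r r20 (@Lb.r r1617 (@Lb.g g10 (@Lb.g g4 (@Lb.d (nat_lit 2) (nat_lit 0) (nat_lit 10) (@Lb.fp (nat_lit 3) t3336)))))))
noncomputable def l42689 : Lb := (@Lb.d (nat_lit 361) (nat_lit 388) (nat_lit 680) (@Lb.r r2129 (@Lb.r r1190 (@Lb.r r2392 (@Lb.r r1699 (@Lb.g g7 (@Lb.g g6 (@Lb.g g5 (@Lb.d (nat_lit 0) (nat_lit 18) (nat_lit 129) (@Lb.t (@Lb.fm (nat_lit 9) t899)))))))))))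
noncomputable def l42690 : Lb := (@Lb.d (nat_lit 612) (nat_lit 593) (nat_lit 678) (@Lb.r r289 (@Lb.r r2374 (@Lb.r r1188 (@Lb.r r2691 (@Lb.g g7 (@Lb.g g6 (@Lb.g g5 (@Lb.d (nat_lit 0) (nat_lit 0) (nat_lit 65) (@Lb.t (@Lb.fp (nat_lit 9) t3491)))))))))))
noncomputable def l42691 : Lb := (@Lb.r r21 (@Lb.r r70 (@Lb.d (nat_lit 390) (nat_lit 512) (nat_lit 0) (@Lb.g g8 (@Lb.r r74 (@Lb.r r25 (@Lb.d (nat_lit 577) (nat_lit 64) (nat_lit 0) (@Lb.t (@Lb.fp (nat_lit 3) t3467)))))))))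
noncomputable def l42692 : Lb := (@Lb.d (nat_lit 26) (nat_lit 8) (nat_lit 137) (@Lb.r r85 (@Lb.r r40 (@Lb.r r323 (@Lb.g g7 (@Lb.g g6 (@Lb.g g5 (@Lb.d (nat_lit 0) (nat_lit 4) (nat_lit 65) (@Lb.t (@Lb.fm (nat_lit 9) t985))))))))))
noncomputable def l42693 : Lb := (@Lb.d (nat_lit 70) (nat_lit 260) (nat_lit 161) (@Lb.r r264 (@Lb.r r97 (@Lb.r r615 (@Lb.g g6 (@Lb.g g4 (@Lb.d (nat_lit 65) (nat_lit 4) (nat_lit 1) (@Lb.r r387 (@Lb.r r25 (@Lb.fp (nat_lit 3) t594))))))))))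
noncomputable def l42694 : Lb := (@Lb.d (nat_lit 0) (nat_lit 514) (nat_lit 66) (@Lb.g g9 (@Lb.g g10 (@Lb.g g11 (@Lb.r r24 (@Lb.r r2725 (@Lb.r r2471 (@Lb.r r98 (@Lb.r r516 (@Lb.d (nat_lit 425) (nat_lit 153) (nat_lit 337) (@Lb.t (@Lb.fm (nat_lit 9) t2244))))))))))))
noncomputable def l42695 : Lb := (@Lb.d (nat_lit 36) (nat_lit 41) (nat_lit 133) (@Lb.g g8 (@Lb.g g9 (@Lb.g g10 (@Lb.g g11 (@Lb.r r427 (@Lb.r r1706 (@Lb.r r1129 (@Lb.r r1288 (@Lb.d (nat_lit 385) (nat_lit 2) (nat_lit 612) (@Lb.fm (nat_lit 9) t7369)))))))))))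
noncomputable def l42696 : Lb := (@Lb.d (nat_lit 0) (nat_lit 38) (nat_lit 64) (@Lb.g g8 (@Lb.g g9 (@Lb.g g10 (@Lb.g g11 (@Lb.r r1699 (@Lb.r r2376 (@Lb.r r1158 (@Lb.r r1561 (@Lb.d (nat_lit 425) (nat_lit 25) (nat_lit 577) (@Lb.fm (nat_lit 9) t3370)))))))))))
noncomputable def l42697 : Lb := (@Lb.r r322 (@Lb.d (nat_lit 0) (nat_lit 326) (nat_lit 576) (@Lb.g g5 (@Lb.g g7 (@Lb.r r1426 (@Lb.r r8 (@Lb.d (nat_lit 1) (nat_lit 1) (nat_lit 21) (@Lb.fm (nat_lit 3) t590))))))))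
noncomputable def l42698 : Lb := (@Lb.r r323 (@Lb.d (nat_lit 8) (nat_lit 256) (nat_lit 2) (@Lb.g g9 (@Lb.g g10 (@Lb.r r2343 (@Lb.r r2150 (@Lb.r r148 (@Lb.r r169 (@Lb.d (nat_lit 73) (nat_lit 84) (nat_lit 26) (@Lb.fp (nat_lit 3) t7370))))))))))
noncomputable def l42699 : Lb := (@Lb.r r323 (@Lb.d (nat_lit 2) (nat_lit 512) (nat_lit 4) (@Lb.g g8 (@Lb.g g9 (@Lb.g g6 (@Lb.r r2339 (@Lb.r r2564 (@Lb.d (nat_lit 649) (nat_lit 165) (nat_lit 321) (@Lb.t (@Lb.fp (nat_lit 9) t6675))))))))))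
noncomputable def l42700 : Lb := (@Lb.r r82 (@Lb.d (nat_lit 0) (nat_lit 2) (nat_lit 128) (@Lb.g g8 (@Lb.g g9 (@Lb.g g11 (@Lb.r r1686 (@Lb.r r2577 (@Lb.r r584 (@Lb.r r2651 (@Lb.d (nat_lit 100) (nat_lit 74) (nat_lit 681) (@Lb.t (@Lb.fp (nat_lit 9) t7371))))))))))))
noncomputable def l42701 : Lb := (@Lb.d (nat_lit 4) (nat_lit 0) (nat_lit 73) (@Lb.g g8 (@Lb.g g9 (@Lb.g g10 (@Lb.g g11 (@Lb.r r2691 (@Lb.r r168 (@Lb.r r2217 (@Lb.r r2666 (@Lb.r r1060 (@Lb.d (nat_lit 640) (nat_lit 73) (nat_lit 422) (@Lb.fm (nat_lit 9) t7372))))))))))))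
noncomputable def l42702 : Lb := (@Lb.d (nat_lit 136) (nat_lit 266) (nat_lit 64) (@Lb.g g9 (@Lb.g g11 (@Lb.r r152 (@Lb.r r2650 (@Lb.r r339 (@Lb.r r2705 (@Lb.d (nat_lit 528) (nat_lit 105) (nat_lit 282) (@Lb.fp (nat_lit 3) t1346)))))))))
noncomputable def l42703 : Lb := (@Lb.r r323 (@Lb.d (nat_lit 2) (nat_lit 0) (nat_lit 4) (@Lb.g g8 (@Lb.g g9 (@Lb.g g6 (@Lb.r r2339 (@Lb.r r2564 (@Lb.d (nat_lit 649) (nat_lit 165) (nat_lit 264) (@Lb.t (@Lb.fp (nat_lit 9) t7373))))))))))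
noncomputable def l42704 : Lb := (@Lb.d (nat_lit 32) (nat_lit 256) (nat_lit 73) (@Lb.g g10 (@Lb.g g11 (@Lb.r r1683 (@Lb.r r24 (@Lb.r r2405 (@Lb.r r2650 (@Lb.d (nat_lit 614) (nat_lit 165) (nat_lit 640) (@Lb.fp (nat_lit 3) t5698)))))))))
noncomputable def l42705 : Lb := (@Lb.d (nat_lit 2) (nat_lit 2) (nat_lit 130) (@Lb.g g8 (@Lb.g g9 (@Lb.g g10 (@Lb.g g11 (@Lb.r r1691 (@Lb.r r1185 (@Lb.r r98 (@Lb.r r2648 (@Lb.d (nat_lit 617) (nat_lit 38) (nat_lit 342) (@Lb.fm (nat_lit 9) t6150)))))))))))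
noncomputable def l42706 : Lb := (@Lb.r r81 (@Lb.d (nat_lit 0) (nat_lit 32) (nat_lit 129) (@Lb.g g8 (@Lb.g g6 (@Lb.g g11 (@Lb.r r600 (@Lb.r r293 (@Lb.r r283 (@Lb.d (nat_lit 136) (nat_lit 89) (nat_lit 16) (@Lb.t (@Lb.fp (nat_lit 9) t3003)))))))))))
noncomputable def l42707 : Lb := (@Lb.d (nat_lit 256) (nat_lit 325) (nat_lit 17) (@Lb.r r1106 (@Lb.r r149 (@Lb.r r263 (@Lb.g g6 (@Lb.g g8 (@Lb.d (nat_lit 258) (nat_lit 4) (nat_lit 1) (@Lb.r r267 (@Lb.r r25 (@Lb.fp (nat_lit 3) t1699))))))))))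
noncomputable def l42708 : Lb := (@Lb.d (nat_lit 548) (nat_lit 129) (nat_lit 34) (@Lb.r r82 (@Lb.r r1173 (@Lb.r r263 (@Lb.g g6 (@Lb.g g8 (@Lb.d (nat_lit 518) (nat_lit 0) (nat_lit 1) (@Lb.r r267 (@Lb.r r25 (@Lb.fp (nat_lit 3) t7374))))))))))
noncomputable def l42709 : Lb := (@Lb.d (nat_lit 340) (nat_lit 100) (nat_lit 600) (@Lb.r r1305 (@Lb.r r1428 (@Lb.r r338 (@Lb.r r2663 (@Lb.g g7 (@Lb.g g6 (@Lb.g g5 (@Lb.d (nat_lit 0) (nat_lit 4) (nat_lit 65) (@Lb.t (@Lb.fm (nat_lit 9) t5548)))))))))))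
noncomputable def l42710 : Lb := (@Lb.d (nat_lit 5) (nat_lit 641) (nat_lit 256) (@Lb.r r20 (@Lb.r r2145 (@Lb.r r402 (@Lb.g g11 (@Lb.t (@Lb.fp (nat_lit 3) t150)))))))
noncomputable def l42711 : Lb := (@Lb.d (nat_lit 32) (nat_lit 512) (nat_lit 73) (@Lb.g g10 (@Lb.g g11 (@Lb.r r1683 (@Lb.r r24 (@Lb.r r2405 (@Lb.r r2650 (@Lb.d (nat_lit 609) (nat_lit 164) (nat_lit 640) (@Lb.fp (nat_lit 3) t5698)))))))))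
noncomputable def l42712 : Lb := (@Lb.r r70 (@Lb.d (nat_lit 516) (nat_lit 8) (nat_lit 8) (@Lb.g g8 (@Lb.g g9 (@Lb.g g11 (@Lb.r r2130 (@Lb.r r1445 (@Lb.r r1435 (@Lb.d (nat_lit 2) (nat_lit 88) (nat_lit 609) (@Lb.t (@Lb.fp (nat_lit 9) t148)))))))))))
noncomputable def l42713 : Lb := (@Lb.d (nat_lit 665) (nat_lit 38) (nat_lit 410) (@Lb.r r2660 (@Lb.r r1637 (@Lb.r r346 (@Lb.g g7 (@Lb.g g4 (@Lb.d (nat_lit 22) (nat_lit 0) (nat_lit 132) (@Lb.fp (nat_lit 3) t271))))))))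
noncomputable def l42714 : Lb := (@Lb.d (nat_lit 160) (nat_lit 256) (nat_lit 66) (@Lb.g g10 (@Lb.g g11 (@Lb.r r260 (@Lb.r r2651 (@Lb.r r2449 (@Lb.r r1426 (@Lb.d (nat_lit 522) (nat_lit 153) (nat_lit 137) (@Lb.fm (nat_lit 3) t386)))))))))
noncomputable def l42715 : Lb := (@Lb.d (nat_lit 130) (nat_lit 0) (nat_lit 64) (@Lb.g g8 (@Lb.g g11 (@Lb.r r619 (@Lb.r r81 (@Lb.r r162 (@Lb.r r145 (@Lb.r r2664 (@Lb.d (nat_lit 345) (nat_lit 152) (nat_lit 265) (@Lb.fp (nat_lit 3) t2489))))))))))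
noncomputable def l42716 : Lb := (@Lb.d (nat_lit 345) (nat_lit 82) (nat_lit 133) (@Lb.r r1105 (@Lb.r r358 (@Lb.r r85 (@Lb.r r2691 (@Lb.g g7 (@Lb.g g6 (@Lb.g g5 (@Lb.g g4 (@Lb.d (nat_lit 1) (nat_lit 6) (nat_lit 66) (@Lb.fm (nat_lit 9) t7375)))))))))))
noncomputable def l42717 : Lb := (@Lb.d (nat_lit 4) (nat_lit 292) (nat_lit 133) (@Lb.g g8 (@Lb.g g9 (@Lb.g g10 (@Lb.g g11 (@Lb.r r1699 (@Lb.r r154 (@Lb.r r2088 (@Lb.r r1561 (@Lb.d (nat_lit 534) (nat_lit 80) (nat_lit 361) (@Lb.fm (nat_lit 9) t2317)))))))))))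
noncomputable def l42718 : Lb := (@Lb.d (nat_lit 128) (nat_lit 514) (nat_lit 265) (@Lb.g g9 (@Lb.g g10 (@Lb.g g7 (@Lb.r r2632 (@Lb.r r2438 (@Lb.r r25 (@Lb.d (nat_lit 409) (nat_lit 134) (nat_lit 298) (@Lb.t (@Lb.fp (nat_lit 9) t222))))))))))
noncomputable def l42719 : Lb := (@Lb.r r323 (@Lb.d (nat_lit 0) (nat_lit 34) (nat_lit 18) (@Lb.g g9 (@Lb.g g10 (@Lb.r r595 (@Lb.r r289 (@Lb.r r8 (@Lb.d (nat_lit 330) (nat_lit 169) (nat_lit 161) (@Lb.fp (nat_lit 3) t32)))))))))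
noncomputable def l42720 : Lb := (@Lb.d (nat_lit 74) (nat_lit 594) (nat_lit 165) (@Lb.r r1105 (@Lb.r r358 (@Lb.r r85 (@Lb.r r2691 (@Lb.g g7 (@Lb.g g6 (@Lb.g g5 (@Lb.g g4 (@Lb.d (nat_lit 0) (nat_lit 6) (nat_lit 66) (@Lb.fm (nat_lit 9) t7376)))))))))))
noncomputable def l42721 : Lb := (@Lb.d (nat_lit 2) (nat_lit 521) (nat_lit 129) (@Lb.g g8 (@Lb.g g9 (@Lb.g g10 (@Lb.g g11 (@Lb.r r1699 (@Lb.r r2216 (@Lb.r r2666 (@Lb.r r2585 (@Lb.d (nat_lit 677) (nat_lit 168) (nat_lit 104) (@Lb.fp (nat_lit 9) t7377)))))))))))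
noncomputable def l42722 : Lb := (@Lb.d (nat_lit 400) (nat_lit 421) (nat_lit 550) (@Lb.r r1044 (@Lb.r r601 (@Lb.r r532 (@Lb.r r2466 (@Lb.g g11 (@Lb.g g6 (@Lb.g g5 (@Lb.g g4 (@Lb.d (nat_lit 1) (nat_lit 6) (nat_lit 130) (@Lb.fp (nat_lit 9) t827)))))))))))
noncomputable def l42723 : Lb := (@Lb.d (nat_lit 169) (nat_lit 656) (nat_lit 553) (@Lb.r r1057 (@Lb.r r2634 (@Lb.r r328 (@Lb.g g7 (@Lb.g g6 (@Lb.d (nat_lit 16) (nat_lit 32) (nat_lit 389) (@Lb.r r388 (@Lb.fm (nat_lit 3) t2211)))))))))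
noncomputable def l42724 : Lb := (@Lb.r r323 (@Lb.d (nat_lit 2) (nat_lit 512) (nat_lit 8) (@Lb.g g8 (@Lb.g g10 (@Lb.r r1579 (@Lb.r r644 (@Lb.r r2646 (@Lb.r r1057 (@Lb.d (nat_lit 658) (nat_lit 17) (nat_lit 152) (@Lb.fm (nat_lit 3) t1456))))))))))
noncomputable def l42725 : Lb := (@Lb.d (nat_lit 134) (nat_lit 16) (nat_lit 137) (@Lb.g g8 (@Lb.g g9 (@Lb.g g10 (@Lb.g g11 (@Lb.r r610 (@Lb.r r2627 (@Lb.r r420 (@Lb.r r1317 (@Lb.d (nat_lit 324) (nat_lit 137) (nat_lit 409) (@Lb.fp (nat_lit 9) t3335)))))))))))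
noncomputable def l42726 : Lb := (@Lb.d (nat_lit 34) (nat_lit 256) (nat_lit 0) (@Lb.g g8 (@Lb.r r2395 (@Lb.r r582 (@Lb.r r1057 (@Lb.r r1444 (@Lb.d (nat_lit 362) (nat_lit 130) (nat_lit 9) (@Lb.t (@Lb.fm (nat_lit 3) t5388)))))))))
noncomputable def l42727 : Lb := (@Lb.r r323 (@Lb.d (nat_lit 33) (nat_lit 262) (nat_lit 0) (@Lb.g g8 (@Lb.g g9 (@Lb.g g10 (@Lb.r r2713 (@Lb.r r343 (@Lb.r r2694 (@Lb.r r2180 (@Lb.d (nat_lit 161) (nat_lit 5) (nat_lit 73) (@Lb.t (@Lb.fp (nat_lit 9) t6801))))))))))))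
noncomputable def l42728 : Lb := (@Lb.d (nat_lit 129) (nat_lit 530) (nat_lit 130) (@Lb.g g8 (@Lb.g g9 (@Lb.g g10 (@Lb.g g11 (@Lb.r r578 (@Lb.r r520 (@Lb.r r2651 (@Lb.r r2337 (@Lb.r r1060 (@Lb.d (nat_lit 33) (nat_lit 36) (nat_lit 96) (@Lb.fm (nat_lit 9) t422))))))))))))
noncomputable def l42729 : Lb := (@Lb.d (nat_lit 134) (nat_lit 2) (nat_lit 130) (@Lb.g g8 (@Lb.g g9 (@Lb.g g10 (@Lb.g g11 (@Lb.r r610 (@Lb.r r552 (@Lb.r r1641 (@Lb.r r619 (@Lb.r r1060 (@Lb.d (nat_lit 358) (nat_lit 24) (nat_lit 409) (@Lb.fm (nat_lit 9) t5578))))))))))))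
noncomputable def l42730 : Lb := (@Lb.d (nat_lit 149) (nat_lit 82) (nat_lit 513) (@Lb.r r21 (@Lb.r r86 (@Lb.r r424 (@Lb.g g11 (@Lb.g g6 (@Lb.g g5 (@Lb.d (nat_lit 0) (nat_lit 1) (nat_lit 6) (@Lb.t (@Lb.fp (nat_lit 9) t222))))))))))
noncomputable def l42731 : Lb := (@Lb.d (nat_lit 64) (nat_lit 64) (nat_lit 384) (@Lb.r r1284 (@Lb.r r1379 (@Lb.r r1381 (@Lb.r r602 (@Lb.g g4 (@Lb.d (nat_lit 1) (nat_lit 0) (nat_lit 0) (@Lb.t (@Lb.fp (nat_lit 3) t553)))))))))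
noncomputable def l42732 : Lb := (@Lb.d (nat_lit 6) (nat_lit 514) (nat_lit 42) (@Lb.r r609 (@Lb.r r619 (@Lb.r r584 (@Lb.r r326 (@Lb.g g7 (@Lb.g g6 (@Lb.g g4 (@Lb.d (nat_lit 0) (nat_lit 0) (nat_lit 65) (@Lb.t (@Lb.fm (nat_lit 9) t68)))))))))))
noncomputable def l42733 : Lb := (@Lb.d (nat_lit 149) (nat_lit 338) (nat_lit 513) (@Lb.r r21 (@Lb.r r86 (@Lb.r r424 (@Lb.g g11 (@Lb.g g6 (@Lb.g g5 (@Lb.d (nat_lit 0) (nat_lit 8) (nat_lit 5) (@Lb.t (@Lb.fp (nat_lit 9) t626))))))))))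
noncomputable def l42734 : Lb := (@Lb.d (nat_lit 321) (nat_lit 64) (nat_lit 384) (@Lb.r r1284 (@Lb.r r1379 (@Lb.r r1381 (@Lb.r r602 (@Lb.g g4 (@Lb.d (nat_lit 6) (nat_lit 0) (nat_lit 0) (@Lb.t (@Lb.fp (nat_lit 3) t386)))))))))
noncomputable def l42735 : Lb := (@Lb.r r1379 (@Lb.r r360 (@Lb.r r2409 (@Lb.r r2646 (@Lb.r r1060 (@Lb.d (nat_lit 512) (nat_lit 256) (nat_lit 16) (@Lb.fp (nat_lit 1) t386)))))))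
noncomputable def l42736 : Lb := (@Lb.d (nat_lit 512) (nat_lit 0) (nat_lit 66) (@Lb.r r2631 (@Lb.g g7 (@Lb.g g8 (@Lb.fm (nat_lit 3) t997)))))
noncomputable def l42737 : Lb := (@Lb.r r2451 (@Lb.r r1186 (@Lb.r r2209 (@Lb.r r2196 (@Lb.d (nat_lit 1) (nat_lit 6) (nat_lit 16) (@Lb.fp (nat_lit 1) t1467))))))
noncomputable def l42738 : Lb := (@Lb.d (nat_lit 2) (nat_lit 4) (nat_lit 0) (@Lb.g g8 (@Lb.g g9 (@Lb.g g10 (@Lb.g g11 (@Lb.r r1699 (@Lb.r r2705 (@Lb.r r356 (@Lb.r r154 (@Lb.d (nat_lit 681) (nat_lit 73) (nat_lit 340) (@Lb.fp (nat_lit 9) t602)))))))))))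
noncomputable def l42739 : Lb := (@Lb.r r21 (@Lb.d (nat_lit 2) (nat_lit 256) (nat_lit 0) (@Lb.g g8 (@Lb.g g11 (@Lb.r r586 (@Lb.r r1640 (@Lb.r r25 (@Lb.d (nat_lit 613) (nat_lit 90) (nat_lit 682) (@Lb.fp (nat_lit 3) t6769)))))))))
noncomputable def l42740 : Lb := (@Lb.d (nat_lit 2) (nat_lit 260) (nat_lit 138) (@Lb.g g8 (@Lb.g g9 (@Lb.g g10 (@Lb.g g11 (@Lb.r r1699 (@Lb.r r2705 (@Lb.r r356 (@Lb.r r154 (@Lb.d (nat_lit 681) (nat_lit 73) (nat_lit 340) (@Lb.fp (nat_lit 9) t602)))))))))))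
noncomputable def l42741 : Lb := (@Lb.r r2311 (@Lb.r r2196 (@Lb.r r2454 (@Lb.r r673 (@Lb.d (nat_lit 0) (nat_lit 133) (nat_lit 358) (@Lb.fp (nat_lit 1) t219))))))
noncomputable def l42742 : Lb := (@Lb.d (nat_lit 549) (nat_lit 101) (nat_lit 293) (@Lb.r r2196 (@Lb.r r1186 (@Lb.r r2209 (@Lb.r r2451 (@Lb.g g11 (@Lb.g g6 (@Lb.fp (nat_lit 3) t2125))))))))
noncomputable def l42743 : Lb := (@Lb.d (nat_lit 336) (nat_lit 360) (nat_lit 136) (@Lb.r r1125 (@Lb.r r386 (@Lb.r r2387 (@Lb.g g7 (@Lb.g g6 (@Lb.g g5 (@Lb.g g8 (@Lb.d (nat_lit 2) (nat_lit 1) (nat_lit 65) (@Lb.fm (nat_lit 9) t941))))))))))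
noncomputable def l42744 : Lb := (@Lb.r r2311 (@Lb.d (nat_lit 42) (nat_lit 256) (nat_lit 0) (@Lb.g g8 (@Lb.r r102 (@Lb.r r1125 (@Lb.r r1172 (@Lb.d (nat_lit 294) (nat_lit 74) (nat_lit 34) (@Lb.t (@Lb.fm (nat_lit 3) t2708)))))))))
noncomputable def l42745 : Lb := (@Lb.d (nat_lit 8) (nat_lit 9) (nat_lit 130) (@Lb.g g9 (@Lb.g g10 (@Lb.g g11 (@Lb.r r1364 (@Lb.r r2475 (@Lb.r r1386 (@Lb.r r281 (@Lb.d (nat_lit 8) (nat_lit 153) (nat_lit 641) (@Lb.t (@Lb.fm (nat_lit 9) t6665)))))))))))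
noncomputable def l42746 : Lb := (@Lb.d (nat_lit 129) (nat_lit 1) (nat_lit 128) (@Lb.g g8 (@Lb.g g9 (@Lb.g g10 (@Lb.g g11 (@Lb.r r1642 (@Lb.r r2665 (@Lb.r r291 (@Lb.r r1604 (@Lb.d (nat_lit 145) (nat_lit 161) (nat_lit 21) (@Lb.fm (nat_lit 9) t1952)))))))))))
noncomputable def l42747 : Lb := (@Lb.r r21 (@Lb.r r70 (@Lb.d (nat_lit 678) (nat_lit 512) (nat_lit 128) (@Lb.g g8 (@Lb.g g11 (@Lb.r r1419 (@Lb.r r402 (@Lb.r r97 (@Lb.d (nat_lit 581) (nat_lit 154) (nat_lit 25) (@Lb.fm (nat_lit 3) t7378))))))))))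
noncomputable def l42748 : Lb := (@Lb.d (nat_lit 130) (nat_lit 256) (nat_lit 608) (@Lb.r r1684 (@Lb.r r2663 (@Lb.r r1617 (@Lb.g g7 (@Lb.g g4 (@Lb.d (nat_lit 70) (nat_lit 16) (nat_lit 64) (@Lb.fp (nat_lit 3) t7379))))))))
noncomputable def l42749 : Lb := (@Lb.d (nat_lit 2) (nat_lit 425) (nat_lit 74) (@Lb.r r1114 (@Lb.r r2469 (@Lb.r r1299 (@Lb.g g5 (@Lb.g g8 (@Lb.d (nat_lit 545) (nat_lit 1) (nat_lit 0) (@Lb.fm (nat_lit 3) t4814))))))))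
noncomputable def l42750 : Lb := (@Lb.d (nat_lit 0) (nat_lit 520) (nat_lit 130) (@Lb.g g9 (@Lb.g g10 (@Lb.g g11 (@Lb.r r2728 (@Lb.r r2731 (@Lb.r r1642 (@Lb.r r537 (@Lb.d (nat_lit 138) (nat_lit 169) (nat_lit 577) (@Lb.t (@Lb.fm (nat_lit 9) t3736)))))))))))
noncomputable def l42751 : Lb := (@Lb.d (nat_lit 650) (nat_lit 678) (nat_lit 17) (@Lb.r r619 (@Lb.r r593 (@Lb.r r2402 (@Lb.g g7 (@Lb.g g6 (@Lb.g g4 (@Lb.d (nat_lit 1) (nat_lit 16) (nat_lit 65) (@Lb.t (@Lb.fm (nat_lit 9) t5637))))))))))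
noncomputable def l42752 : Lb := (@Lb.r r1291 (@Lb.r r24 (@Lb.r r101 (@Lb.d (nat_lit 2) (nat_lit 408) (nat_lit 281) (@Lb.fp (nat_lit 1) t4082)))))
noncomputable def l42753 : Lb := (@Lb.d (nat_lit 130) (nat_lit 0) (nat_lit 256) (@Lb.r r2321 (@Lb.r r2178 (@Lb.r r547 (@Lb.r r533 (@Lb.g g4 (@Lb.d (nat_lit 1) (nat_lit 0) (nat_lit 0) (@Lb.t (@Lb.fm (nat_lit 3) t4749)))))))))
noncomputable def l42754 : Lb := (@Lb.r r21 (@Lb.r r322 (@Lb.d (nat_lit 129) (nat_lit 288) (nat_lit 128) (@Lb.g g8 (@Lb.g g11 (@Lb.r r1684 (@Lb.r r150 (@Lb.r r97 (@Lb.d (nat_lit 608) (nat_lit 1) (nat_lit 665) (@Lb.fm (nat_lit 3) t7380))))))))))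
noncomputable def l42755 : Lb := (@Lb.d (nat_lit 129) (nat_lit 514) (nat_lit 66) (@Lb.g g8 (@Lb.g g9 (@Lb.g g10 (@Lb.g g11 (@Lb.r r2455 (@Lb.r r1177 (@Lb.r r1626 (@Lb.r r1604 (@Lb.d (nat_lit 161) (nat_lit 33) (nat_lit 645) (@Lb.fp (nat_lit 9) t3615)))))))))))
noncomputable def l42756 : Lb := (@Lb.d (nat_lit 134) (nat_lit 258) (nat_lit 265) (@Lb.g g8 (@Lb.g g9 (@Lb.g g10 (@Lb.g g7 (@Lb.r r1425 (@Lb.r r406 (@Lb.r r2084 (@Lb.d (nat_lit 153) (nat_lit 6) (nat_lit 265) (@Lb.fp (nat_lit 9) t7381))))))))))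
noncomputable def l42757 : Lb := (@Lb.d (nat_lit 32) (nat_lit 512) (nat_lit 73) (@Lb.g g10 (@Lb.g g11 (@Lb.r r423 (@Lb.r r600 (@Lb.r r1429 (@Lb.r r406 (@Lb.d (nat_lit 101) (nat_lit 26) (nat_lit 537) (@Lb.fm (nat_lit 3) t188)))))))))
noncomputable def l42758 : Lb := (@Lb.r r21 (@Lb.d (nat_lit 2) (nat_lit 512) (nat_lit 64) (@Lb.g g8 (@Lb.g g10 (@Lb.g g11 (@Lb.r r2715 (@Lb.r r357 (@Lb.r r154 (@Lb.r r2180 (@Lb.d (nat_lit 346) (nat_lit 129) (nat_lit 545) (@Lb.t (@Lb.fp (nat_lit 9) t1025))))))))))))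
noncomputable def l42759 : Lb := (@Lb.d (nat_lit 32) (nat_lit 1) (nat_lit 0) (@Lb.g g8 (@Lb.g g9 (@Lb.r r2411 (@Lb.r r1385 (@Lb.r r150 (@Lb.r r1124 (@Lb.d (nat_lit 280) (nat_lit 73) (nat_lit 649) (@Lb.fm (nat_lit 3) t51)))))))))
noncomputable def l42760 : Lb := (@Lb.r r21 (@Lb.d (nat_lit 146) (nat_lit 512) (nat_lit 64) (@Lb.g g8 (@Lb.g g10 (@Lb.g g11 (@Lb.r r1691 (@Lb.r r409 (@Lb.r r90 (@Lb.r r1156 (@Lb.d (nat_lit 617) (nat_lit 69) (nat_lit 514) (@Lb.t (@Lb.fp (nat_lit 9) t278))))))))))))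
noncomputable def l42761 : Lb := (@Lb.r r21 (@Lb.d (nat_lit 657) (nat_lit 512) (nat_lit 64) (@Lb.g g4 (@Lb.g g11 (@Lb.r r519 (@Lb.r r1113 (@Lb.r r1122 (@Lb.d (nat_lit 166) (nat_lit 101) (nat_lit 405) (@Lb.fm (nat_lit 3) t1700)))))))))
noncomputable def l42762 : Lb := (@Lb.r r21 (@Lb.d (nat_lit 2) (nat_lit 0) (nat_lit 73) (@Lb.g g8 (@Lb.g g10 (@Lb.g g11 (@Lb.r r1691 (@Lb.r r1381 (@Lb.r r2202 (@Lb.r r2180 (@Lb.d (nat_lit 602) (nat_lit 65) (nat_lit 545) (@Lb.t (@Lb.fp (nat_lit 9) t1025))))))))))))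
noncomputable def l42763 : Lb := (@Lb.r r21 (@Lb.r r70 (@Lb.d (nat_lit 513) (nat_lit 256) (nat_lit 0) (@Lb.g g4 (@Lb.r r74 (@Lb.r r25 (@Lb.d (nat_lit 256) (nat_lit 0) (nat_lit 69) (@Lb.t (@Lb.fm (nat_lit 3) t647)))))))))
noncomputable def l42764 : Lb := (@Lb.d (nat_lit 132) (nat_lit 272) (nat_lit 2) (@Lb.g g8 (@Lb.g g9 (@Lb.g g10 (@Lb.g g11 (@Lb.r r2722 (@Lb.r r36 (@Lb.r r1685 (@Lb.r r531 (@Lb.r r1060 (@Lb.d (nat_lit 616) (nat_lit 166) (nat_lit 69) (@Lb.fp (nat_lit 9) t495))))))))))))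
noncomputable def l42765 : Lb := (@Lb.r r21 (@Lb.r r70 (@Lb.g g4 (@Lb.r r420 (@Lb.r r1291 (@Lb.r r402 (@Lb.r r97 (@Lb.d (nat_lit 0) (nat_lit 646) (nat_lit 544) (@Lb.t (@Lb.fm (nat_lit 3) t739))))))))))
noncomputable def l42766 : Lb := (@Lb.d (nat_lit 132) (nat_lit 16) (nat_lit 2) (@Lb.g g8 (@Lb.g g9 (@Lb.g g10 (@Lb.g g11 (@Lb.r r610 (@Lb.r r1607 (@Lb.r r420 (@Lb.r r1317 (@Lb.d (nat_lit 617) (nat_lit 100) (nat_lit 160) (@Lb.fp (nat_lit 9) t7382)))))))))))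
noncomputable def l42767 : Lb := (@Lb.d (nat_lit 0) (nat_lit 514) (nat_lit 128) (@Lb.g g9 (@Lb.g g11 (@Lb.r r1387 (@Lb.r r146 (@Lb.r r2645 (@Lb.r r1444 (@Lb.d (nat_lit 266) (nat_lit 70) (nat_lit 0) (@Lb.fp (nat_lit 3) t7383)))))))))
noncomputable def l42768 : Lb := (@Lb.d (nat_lit 2) (nat_lit 33) (nat_lit 66) (@Lb.g g8 (@Lb.g g9 (@Lb.g g10 (@Lb.g g11 (@Lb.r r1691 (@Lb.r r386 (@Lb.r r612 (@Lb.r r533 (@Lb.r r1060 (@Lb.d (nat_lit 386) (nat_lit 8) (nat_lit 601) (@Lb.fp (nat_lit 9) t3575))))))))))))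
noncomputable def l42769 : Lb := (@Lb.d (nat_lit 0) (nat_lit 261) (nat_lit 0) (@Lb.g g5 (@Lb.r r402 (@Lb.r r2436 (@Lb.d (nat_lit 0) (nat_lit 1) (nat_lit 297) (@Lb.t (@Lb.fp (nat_lit 3) t311)))))))
noncomputable def l42770 : Lb := (@Lb.r r323 (@Lb.d (nat_lit 1) (nat_lit 578) (nat_lit 10) (@Lb.g g4 (@Lb.g g9 (@Lb.g g10 (@Lb.r r595 (@Lb.r r338 (@Lb.d (nat_lit 292) (nat_lit 5) (nat_lit 170) (@Lb.t (@Lb.fm (nat_lit 9) t3056))))))))))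
noncomputable def l42771 : Lb := (@Lb.r r21 (@Lb.d (nat_lit 10) (nat_lit 256) (nat_lit 73) (@Lb.g g8 (@Lb.g g10 (@Lb.g g11 (@Lb.r r1643 (@Lb.r r2650 (@Lb.r r2197 (@Lb.r r676 (@Lb.d (nat_lit 36) (nat_lit 132) (nat_lit 86) (@Lb.t (@Lb.fp (nat_lit 9) t1371))))))))))))
noncomputable def l42772 : Lb := (@Lb.r r82 (@Lb.d (nat_lit 164) (nat_lit 514) (nat_lit 0) (@Lb.g g8 (@Lb.g g9 (@Lb.r r647 (@Lb.r r2137 (@Lb.r r614 (@Lb.r r424 (@Lb.d (nat_lit 518) (nat_lit 37) (nat_lit 164) (@Lb.fm (nat_lit 3) t3711))))))))))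
noncomputable def l42773 : Lb := (@Lb.d (nat_lit 0) (nat_lit 0) (nat_lit 133) (@Lb.g g10 (@Lb.g g11 (@Lb.r r1347 (@Lb.r r1378 (@Lb.r r101 (@Lb.r r24 (@Lb.d (nat_lit 578) (nat_lit 0) (nat_lit 384) (@Lb.fm (nat_lit 3) t145)))))))))
noncomputable def l42774 : Lb := (@Lb.r r331 (@Lb.d (nat_lit 673) (nat_lit 258) (nat_lit 2) (@Lb.g g8 (@Lb.g g9 (@Lb.g g10 (@Lb.r r362 (@Lb.r r1411 (@Lb.r r97 (@Lb.d (nat_lit 402) (nat_lit 86) (nat_lit 612) (@Lb.t (@Lb.fp (nat_lit 9) t3996)))))))))))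
noncomputable def l42775 : Lb := (@Lb.r r82 (@Lb.d (nat_lit 34) (nat_lit 514) (nat_lit 128) (@Lb.g g8 (@Lb.g g9 (@Lb.g g11 (@Lb.r r1571 (@Lb.r r582 (@Lb.r r2089 (@Lb.r r420 (@Lb.d (nat_lit 400) (nat_lit 66) (nat_lit 660) (@Lb.t (@Lb.fm (nat_lit 9) t7384))))))))))))
noncomputable def l42776 : Lb := (@Lb.r r331 (@Lb.d (nat_lit 673) (nat_lit 2) (nat_lit 4) (@Lb.g g8 (@Lb.g g9 (@Lb.g g6 (@Lb.r r299 (@Lb.r r25 (@Lb.d (nat_lit 9) (nat_lit 102) (nat_lit 129) (@Lb.t (@Lb.fp (nat_lit 9) t7385))))))))))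
noncomputable def l42777 : Lb := (@Lb.r r322 (@Lb.d (nat_lit 8) (nat_lit 0) (nat_lit 576) (@Lb.g g9 (@Lb.g g7 (@Lb.r r1172 (@Lb.r r1638 (@Lb.r r337 (@Lb.d (nat_lit 10) (nat_lit 102) (nat_lit 390) (@Lb.fp (nat_lit 3) t1115)))))))))
noncomputable def l42778 : Lb := (@Lb.r r331 (@Lb.d (nat_lit 676) (nat_lit 266) (nat_lit 1) (@Lb.g g4 (@Lb.g g9 (@Lb.g g10 (@Lb.r r2395 (@Lb.r r2214 (@Lb.r r1553 (@Lb.d (nat_lit 664) (nat_lit 26) (nat_lit 518) (@Lb.t (@Lb.fm (nat_lit 9) t7386)))))))))))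
noncomputable def l42779 : Lb := (@Lb.r r322 (@Lb.d (nat_lit 2) (nat_lit 33) (nat_lit 516) (@Lb.g g8 (@Lb.g g9 (@Lb.g g7 (@Lb.r r418 (@Lb.r r2201 (@Lb.r r24 (@Lb.d (nat_lit 40) (nat_lit 2) (nat_lit 66) (@Lb.t (@Lb.fp (nat_lit 9) t6301)))))))))))
noncomputable def l42780 : Lb := (@Lb.r r20 (@Lb.d (nat_lit 32) (nat_lit 656) (nat_lit 2) (@Lb.g g5 (@Lb.g g10 (@Lb.r r1387 (@Lb.r r1380 (@Lb.r r2394 (@Lb.d (nat_lit 98) (nat_lit 37) (nat_lit 678) (@Lb.fp (nat_lit 3) t7387)))))))))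
noncomputable def l42781 : Lb := (@Lb.r r322 (@Lb.d (nat_lit 2) (nat_lit 33) (nat_lit 516) (@Lb.g g8 (@Lb.g g9 (@Lb.g g7 (@Lb.r r418 (@Lb.r r2201 (@Lb.r r24 (@Lb.d (nat_lit 41) (nat_lit 9) (nat_lit 65) (@Lb.t (@Lb.fp (nat_lit 9) t7388)))))))))))
noncomputable def l42782 : Lb := (@Lb.r r21 (@Lb.d (nat_lit 32) (nat_lit 256) (nat_lit 1) (@Lb.g g8 (@Lb.g g10 (@Lb.r r1691 (@Lb.r r1561 (@Lb.r r1640 (@Lb.r r614 (@Lb.d (nat_lit 148) (nat_lit 72) (nat_lit 586) (@Lb.fm (nat_lit 3) t264))))))))))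
noncomputable def l42783 : Lb := (@Lb.d (nat_lit 162) (nat_lit 1) (nat_lit 128) (@Lb.g g8 (@Lb.g g9 (@Lb.g g11 (@Lb.r r1385 (@Lb.r r1686 (@Lb.r r663 (@Lb.r r1352 (@Lb.d (nat_lit 34) (nat_lit 74) (nat_lit 164) (@Lb.t (@Lb.fm (nat_lit 9) t5678)))))))))))
noncomputable def l42784 : Lb := (@Lb.d (nat_lit 162) (nat_lit 257) (nat_lit 128) (@Lb.g g8 (@Lb.g g9 (@Lb.g g11 (@Lb.r r1385 (@Lb.r r1686 (@Lb.r r663 (@Lb.r r1352 (@Lb.d (nat_lit 41) (nat_lit 73) (nat_lit 164) (@Lb.t (@Lb.fm (nat_lit 9) t7389)))))))))))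
noncomputable def l42785 : Lb := (@Lb.r r322 (@Lb.d (nat_lit 2) (nat_lit 545) (nat_lit 516) (@Lb.g g8 (@Lb.g g9 (@Lb.g g7 (@Lb.r r418 (@Lb.r r2201 (@Lb.r r24 (@Lb.d (nat_lit 41) (nat_lit 2) (nat_lit 66) (@Lb.t (@Lb.fp (nat_lit 9) t4155)))))))))))
noncomputable def l42786 : Lb := (@Lb.d (nat_lit 41) (nat_lit 0) (nat_lit 0) (@Lb.g g8 (@Lb.r r2395 (@Lb.r r1173 (@Lb.r r150 (@Lb.r r356 (@Lb.d (nat_lit 85) (nat_lit 105) (nat_lit 518) (@Lb.t (@Lb.fm (nat_lit 3) t1818)))))))))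
noncomputable def l42787 : Lb := (@Lb.r r424 (@Lb.r r2473 (@Lb.r r1450 (@Lb.r r343 (@Lb.r r1188 (@Lb.d (nat_lit 0) (nat_lit 512) (nat_lit 512) (@Lb.fm (nat_lit 1) t322)))))))
noncomputable def l42788 : Lb := (@Lb.r r323 (@Lb.d (nat_lit 1) (nat_lit 265) (nat_lit 2) (@Lb.g g8 (@Lb.g g9 (@Lb.g g10 (@Lb.r r676 (@Lb.r r679 (@Lb.r r657 (@Lb.r r146 (@Lb.d (nat_lit 0) (nat_lit 90) (nat_lit 393) (@Lb.t (@Lb.fm (nat_lit 9) t4607))))))))))))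
noncomputable def l42789 : Lb := (@Lb.r r322 (@Lb.d (nat_lit 41) (nat_lit 257) (nat_lit 576) (@Lb.g g8 (@Lb.g g9 (@Lb.g g7 (@Lb.r r361 (@Lb.r r150 (@Lb.r r84 (@Lb.d (nat_lit 17) (nat_lit 149) (nat_lit 521) (@Lb.t (@Lb.fp (nat_lit 9) t259)))))))))))
noncomputable def l42790 : Lb := (@Lb.r r327 (@Lb.d (nat_lit 34) (nat_lit 258) (nat_lit 2) (@Lb.g g8 (@Lb.g g9 (@Lb.g g10 (@Lb.r r2666 (@Lb.r r2635 (@Lb.r r2073 (@Lb.r r600 (@Lb.d (nat_lit 664) (nat_lit 98) (nat_lit 649) (@Lb.t (@Lb.fm (nat_lit 9) t5910))))))))))))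
noncomputable def l42791 : Lb := (@Lb.r r323 (@Lb.d (nat_lit 136) (nat_lit 1) (nat_lit 2) (@Lb.g g8 (@Lb.g g9 (@Lb.g g10 (@Lb.r r2583 (@Lb.r r98 (@Lb.r r97 (@Lb.r r1412 (@Lb.d (nat_lit 356) (nat_lit 149) (nat_lit 680) (@Lb.t (@Lb.fm (nat_lit 9) t71))))))))))))
noncomputable def l42792 : Lb := (@Lb.r r82 (@Lb.d (nat_lit 9) (nat_lit 514) (nat_lit 128) (@Lb.g g8 (@Lb.g g9 (@Lb.g g11 (@Lb.r r599 (@Lb.r r682 (@Lb.r r601 (@Lb.d (nat_lit 665) (nat_lit 2) (nat_lit 594) (@Lb.t (@Lb.fm (nat_lit 9) t5613)))))))))))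
noncomputable def l42793 : Lb := (@Lb.r r323 (@Lb.d (nat_lit 137) (nat_lit 513) (nat_lit 2) (@Lb.g g8 (@Lb.g g9 (@Lb.g g10 (@Lb.r r599 (@Lb.r r98 (@Lb.r r97 (@Lb.r r420 (@Lb.d (nat_lit 106) (nat_lit 72) (nat_lit 392) (@Lb.t (@Lb.fm (nat_lit 9) t119))))))))))))
noncomputable def l42794 : Lb := (@Lb.d (nat_lit 2) (nat_lit 41) (nat_lit 133) (@Lb.g g8 (@Lb.g g9 (@Lb.g g10 (@Lb.g g11 (@Lb.r r2723 (@Lb.r r2581 (@Lb.r r616 (@Lb.r r326 (@Lb.d (nat_lit 129) (nat_lit 10) (nat_lit 64) (@Lb.fp (nat_lit 9) t3747)))))))))))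
noncomputable def l42795 : Lb := (@Lb.r r323 (@Lb.g g6 (@Lb.r r423 (@Lb.r r72 (@Lb.r r598 (@Lb.r r409 (@Lb.d (nat_lit 577) (nat_lit 584) (nat_lit 612) (@Lb.t (@Lb.fp (nat_lit 3) t7390)))))))))
noncomputable def l42796 : Lb := (@Lb.d (nat_lit 2) (nat_lit 256) (nat_lit 0) (@Lb.g g8 (@Lb.g g7 (@Lb.d (nat_lit 10) (nat_lit 2) (nat_lit 64) (@Lb.fp (nat_lit 3) t2)))))
noncomputable def l42797 : Lb := (@Lb.d (nat_lit 129) (nat_lit 2) (nat_lit 2) (@Lb.g g8 (@Lb.g g9 (@Lb.g g10 (@Lb.r r2691 (@Lb.r r2217 (@Lb.r r2666 (@Lb.r r104 (@Lb.d (nat_lit 677) (nat_lit 5) (nat_lit 328) (@Lb.t (@Lb.fp (nat_lit 9) t242)))))))))))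
noncomputable def l42798 : Lb := (@Lb.d (nat_lit 144) (nat_lit 257) (nat_lit 64) (@Lb.g g8 (@Lb.g g9 (@Lb.g g10 (@Lb.g g11 (@Lb.r r2201 (@Lb.r r596 (@Lb.r r2439 (@Lb.r r1430 (@Lb.r r1540 (@Lb.d (nat_lit 354) (nat_lit 68) (nat_lit 673) (@Lb.fm (nat_lit 9) t69))))))))))))
noncomputable def l42799 : Lb := (@Lb.r r70 (@Lb.d (nat_lit 137) (nat_lit 257) (nat_lit 64) (@Lb.g g8 (@Lb.g g9 (@Lb.g g11 (@Lb.r r2387 (@Lb.r r341 (@Lb.r r1702 (@Lb.r r2152 (@Lb.d (nat_lit 276) (nat_lit 65) (nat_lit 86) (@Lb.t (@Lb.fm (nat_lit 9) t4709))))))))))))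
noncomputable def l42800 : Lb := (@Lb.r r21 (@Lb.d (nat_lit 646) (nat_lit 256) (nat_lit 66) (@Lb.g g8 (@Lb.g g10 (@Lb.g g11 (@Lb.r r1451 (@Lb.r r106 (@Lb.r r25 (@Lb.d (nat_lit 9) (nat_lit 72) (nat_lit 425) (@Lb.t (@Lb.fm (nat_lit 9) t898)))))))))))
noncomputable def l42801 : Lb := (@Lb.r r323 (@Lb.d (nat_lit 0) (nat_lit 2) (nat_lit 2) (@Lb.g g8 (@Lb.g g9 (@Lb.g g10 (@Lb.r r683 (@Lb.r r2210 (@Lb.r r88 (@Lb.r r37 (@Lb.d (nat_lit 582) (nat_lit 104) (nat_lit 278) (@Lb.t (@Lb.fm (nat_lit 9) t4783))))))))))))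
noncomputable def l42802 : Lb := (@Lb.d (nat_lit 10) (nat_lit 544) (nat_lit 66) (@Lb.g g8 (@Lb.g g10 (@Lb.g g11 (@Lb.r r1618 (@Lb.r r149 (@Lb.r r2340 (@Lb.r r587 (@Lb.d (nat_lit 657) (nat_lit 85) (nat_lit 102) (@Lb.t (@Lb.fp (nat_lit 9) t3263)))))))))))
noncomputable def l42803 : Lb := (@Lb.d (nat_lit 385) (nat_lit 512) (nat_lit 272) (@Lb.r r154 (@Lb.r r660 (@Lb.r r663 (@Lb.r r353 (@Lb.g g7 (@Lb.g g6 (@Lb.g g4 (@Lb.d (nat_lit 6) (nat_lit 0) (nat_lit 64) (@Lb.t (@Lb.fm (nat_lit 9) t3204)))))))))))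
noncomputable def l42804 : Lb := (@Lb.r r331 (@Lb.d (nat_lit 32) (nat_lit 514) (nat_lit 17) (@Lb.g g8 (@Lb.g g9 (@Lb.g g6 (@Lb.r r1411 (@Lb.r r681 (@Lb.r r1636 (@Lb.d (nat_lit 649) (nat_lit 154) (nat_lit 138) (@Lb.t (@Lb.fm (nat_lit 9) t6623)))))))))))
noncomputable def l42805 : Lb := (@Lb.d (nat_lit 2) (nat_lit 258) (nat_lit 9) (@Lb.g g8 (@Lb.g g9 (@Lb.g g10 (@Lb.g g11 (@Lb.r r2691 (@Lb.r r297 (@Lb.r r648 (@Lb.r r666 (@Lb.r r1156 (@Lb.d (nat_lit 641) (nat_lit 42) (nat_lit 73) (@Lb.fp (nat_lit 9) t668))))))))))))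
noncomputable def l42806 : Lb := (@Lb.d (nat_lit 10) (nat_lit 256) (nat_lit 0) (@Lb.g g8 (@Lb.g g11 (@Lb.r r677 (@Lb.r r2726 (@Lb.r r1703 (@Lb.r r1112 (@Lb.d (nat_lit 680) (nat_lit 4) (nat_lit 402) (@Lb.fm (nat_lit 3) t1639)))))))))
noncomputable def l42807 : Lb := (@Lb.r r326 (@Lb.d (nat_lit 33) (nat_lit 2) (nat_lit 512) (@Lb.g g8 (@Lb.g g9 (@Lb.g g7 (@Lb.r r1129 (@Lb.r r2454 (@Lb.r r596 (@Lb.d (nat_lit 148) (nat_lit 129) (nat_lit 132) (@Lb.t (@Lb.fp (nat_lit 9) t4257)))))))))))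
noncomputable def l42808 : Lb := (@Lb.d (nat_lit 0) (nat_lit 512) (nat_lit 344) (@Lb.r r1604 (@Lb.r r146 (@Lb.r r353 (@Lb.g g11 (@Lb.g g5 (@Lb.d (nat_lit 0) (nat_lit 1) (nat_lit 384) (@Lb.r r578 (@Lb.fp (nat_lit 3) t4399)))))))))
noncomputable def l42809 : Lb := (@Lb.d (nat_lit 97) (nat_lit 550) (nat_lit 64) (@Lb.g g8 (@Lb.g g9 (@Lb.g g10 (@Lb.g g11 (@Lb.r r1443 (@Lb.r r98 (@Lb.r r420 (@Lb.r r1317 (@Lb.d (nat_lit 676) (nat_lit 104) (nat_lit 582) (@Lb.fm (nat_lit 9) t163)))))))))))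
noncomputable def l42810 : Lb := (@Lb.d (nat_lit 9) (nat_lit 550) (nat_lit 128) (@Lb.g g8 (@Lb.g g9 (@Lb.g g10 (@Lb.g g11 (@Lb.r r674 (@Lb.r r2435 (@Lb.r r420 (@Lb.r r2197 (@Lb.r r1060 (@Lb.d (nat_lit 593) (nat_lit 169) (nat_lit 344) (@Lb.fm (nat_lit 9) t7120))))))))))))
noncomputable def l42811 : Lb := (@Lb.d (nat_lit 2) (nat_lit 514) (nat_lit 130) (@Lb.g g8 (@Lb.g g9 (@Lb.g g10 (@Lb.g g11 (@Lb.r r2691 (@Lb.r r2216 (@Lb.r r1610 (@Lb.r r1313 (@Lb.d (nat_lit 401) (nat_lit 169) (nat_lit 600) (@Lb.fm (nat_lit 9) t1719)))))))))))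
noncomputable def l42812 : Lb := (@Lb.r r82 (@Lb.d (nat_lit 8) (nat_lit 417) (nat_lit 72) (@Lb.g g9 (@Lb.g g11 (@Lb.r r2458 (@Lb.r r579 (@Lb.r r2564 (@Lb.d (nat_lit 394) (nat_lit 153) (nat_lit 329) (@Lb.fm (nat_lit 3) t7391)))))))))
noncomputable def l42813 : Lb := (@Lb.r r21 (@Lb.d (nat_lit 2) (nat_lit 256) (nat_lit 2) (@Lb.g g8 (@Lb.g g10 (@Lb.r r1683 (@Lb.r r2184 (@Lb.r r1610 (@Lb.r r97 (@Lb.d (nat_lit 402) (nat_lit 100) (nat_lit 682) (@Lb.fp (nat_lit 3) t4512))))))))))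
noncomputable def l42814 : Lb := (@Lb.d (nat_lit 9) (nat_lit 33) (nat_lit 130) (@Lb.g g8 (@Lb.g g9 (@Lb.g g10 (@Lb.g g11 (@Lb.r r674 (@Lb.r r2435 (@Lb.r r420 (@Lb.r r2197 (@Lb.r r1060 (@Lb.d (nat_lit 593) (nat_lit 169) (nat_lit 344) (@Lb.fm (nat_lit 9) t7392))))))))))))
noncomputable def l42815 : Lb := (@Lb.d (nat_lit 40) (nat_lit 2) (nat_lit 130) (@Lb.g g9 (@Lb.g g10 (@Lb.g g11 (@Lb.r r1411 (@Lb.r r20 (@Lb.r r2153 (@Lb.r r1426 (@Lb.d (nat_lit 2) (nat_lit 85) (nat_lit 134) (@Lb.t (@Lb.fm (nat_lit 9) t188)))))))))))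
noncomputable def l42816 : Lb := (@Lb.d (nat_lit 101) (nat_lit 609) (nat_lit 322) (@Lb.r r1284 (@Lb.r r1414 (@Lb.r r2651 (@Lb.g g5 (@Lb.d (nat_lit 4) (nat_lit 26) (nat_lit 0) (@Lb.t (@Lb.fm (nat_lit 3) t7393))))))))
noncomputable def l42817 : Lb := (@Lb.r r21 (@Lb.d (nat_lit 162) (nat_lit 8) (nat_lit 258) (@Lb.g g8 (@Lb.g g10 (@Lb.g g7 (@Lb.r r1369 (@Lb.r r2324 (@Lb.d (nat_lit 64) (nat_lit 82) (nat_lit 386) (@Lb.t (@Lb.fp (nat_lit 9) t7394))))))))))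
noncomputable def l42818 : Lb := (@Lb.r r1284 (@Lb.r r273 (@Lb.r r322 (@Lb.d (nat_lit 0) (nat_lit 272) (nat_lit 584) (@Lb.g g7 (@Lb.r r1381 (@Lb.r r146 (@Lb.d (nat_lit 361) (nat_lit 5) (nat_lit 656) (@Lb.t (@Lb.fm (nat_lit 3) t6889))))))))))
noncomputable def l42819 : Lb := (@Lb.d (nat_lit 65) (nat_lit 145) (nat_lit 69) (@Lb.r r1572 (@Lb.r r2341 (@Lb.r r579 (@Lb.r r2402 (@Lb.g g7 (@Lb.g g6 (@Lb.g g4 (@Lb.d (nat_lit 4) (nat_lit 0) (nat_lit 133) (@Lb.t (@Lb.fp (nat_lit 9) t6834)))))))))))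
noncomputable def l42820 : Lb := (@Lb.d (nat_lit 128) (nat_lit 514) (nat_lit 145) (@Lb.g g9 (@Lb.g g6 (@Lb.g g11 (@Lb.r r264 (@Lb.r r263 (@Lb.r r97 (@Lb.d (nat_lit 258) (nat_lit 26) (nat_lit 640) (@Lb.t (@Lb.fp (nat_lit 9) t2180))))))))))
noncomputable def l42821 : Lb := (@Lb.d (nat_lit 1) (nat_lit 514) (nat_lit 66) (@Lb.g g8 (@Lb.g g9 (@Lb.g g10 (@Lb.g g11 (@Lb.r r648 (@Lb.r r1563 (@Lb.r r2453 (@Lb.r r2134 (@Lb.r r1188 (@Lb.d (nat_lit 552) (nat_lit 90) (nat_lit 168) (@Lb.fp (nat_lit 9) t3567))))))))))))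
noncomputable def l42822 : Lb := (@Lb.r r580 (@Lb.d (nat_lit 0) (nat_lit 34) (nat_lit 290) (@Lb.g g9 (@Lb.g g10 (@Lb.g g7 (@Lb.r r2193 (@Lb.r r1048 (@Lb.d (nat_lit 290) (nat_lit 90) (nat_lit 640) (@Lb.t (@Lb.fm (nat_lit 9) t7395))))))))))
noncomputable def l42823 : Lb := (@Lb.d (nat_lit 129) (nat_lit 514) (nat_lit 66) (@Lb.g g8 (@Lb.g g9 (@Lb.g g10 (@Lb.g g11 (@Lb.r r2217 (@Lb.r r520 (@Lb.r r1627 (@Lb.r r386 (@Lb.r r132 (@Lb.d (nat_lit 522) (nat_lit 9) (nat_lit 73) (@Lb.fp (nat_lit 9) t7396))))))))))))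
noncomputable def l42824 : Lb := (@Lb.d (nat_lit 1) (nat_lit 256) (nat_lit 128) (@Lb.g g8 (@Lb.g g10 (@Lb.g g11 (@Lb.r r353 (@Lb.r r667 (@Lb.r r664 (@Lb.r r154 (@Lb.d (nat_lit 18) (nat_lit 10) (nat_lit 68) (@Lb.t (@Lb.fm (nat_lit 9) t285)))))))))))
noncomputable def l42825 : Lb := (@Lb.d (nat_lit 33) (nat_lit 513) (nat_lit 130) (@Lb.g g8 (@Lb.g g9 (@Lb.g g10 (@Lb.g g11 (@Lb.r r2699 (@Lb.r r277 (@Lb.r r2724 (@Lb.r r2182 (@Lb.d (nat_lit 344) (nat_lit 89) (nat_lit 554) (@Lb.fp (nat_lit 9) t2178)))))))))))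
noncomputable def l42826 : Lb := (@Lb.d (nat_lit 100) (nat_lit 336) (nat_lit 132) (@Lb.r r24 (@Lb.r r82 (@Lb.r r421 (@Lb.g g11 (@Lb.g g6 (@Lb.d (nat_lit 0) (nat_lit 0) (nat_lit 129) (@Lb.fp (nat_lit 3) t714))))))))
noncomputable def l42827 : Lb := (@Lb.d (nat_lit 73) (nat_lit 33) (nat_lit 130) (@Lb.g g8 (@Lb.g g9 (@Lb.g g10 (@Lb.g g11 (@Lb.r r1667 (@Lb.r r1621 (@Lb.r r678 (@Lb.r r1176 (@Lb.d (nat_lit 36) (nat_lit 100) (nat_lit 346) (@Lb.fm (nat_lit 9) t7397)))))))))))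
noncomputable def l42828 : Lb := (@Lb.d (nat_lit 261) (nat_lit 422) (nat_lit 294) (@Lb.r r21 (@Lb.r r2664 (@Lb.r r386 (@Lb.g g11 (@Lb.g g6 (@Lb.g g5 (@Lb.g g4 (@Lb.d (nat_lit 1) (nat_lit 1) (nat_lit 1) (@Lb.fm (nat_lit 9) t994))))))))))
noncomputable def l42829 : Lb := (@Lb.d (nat_lit 2) (nat_lit 290) (nat_lit 2) (@Lb.g g8 (@Lb.g g9 (@Lb.g g10 (@Lb.r r1194 (@Lb.r r2468 (@Lb.r r1627 (@Lb.r r1445 (@Lb.d (nat_lit 352) (nat_lit 38) (nat_lit 384) (@Lb.t (@Lb.fp (nat_lit 9) t49)))))))))))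
noncomputable def l42830 : Lb := (@Lb.r r82 (@Lb.d (nat_lit 9) (nat_lit 545) (nat_lit 72) (@Lb.g g8 (@Lb.g g9 (@Lb.g g11 (@Lb.r r1426 (@Lb.r r1049 (@Lb.r r2436 (@Lb.d (nat_lit 260) (nat_lit 85) (nat_lit 548) (@Lb.t (@Lb.fp (nat_lit 9) t7398)))))))))))
noncomputable def l42831 : Lb := (@Lb.r r70 (@Lb.d (nat_lit 385) (nat_lit 2) (nat_lit 64) (@Lb.g g8 (@Lb.g g9 (@Lb.g g11 (@Lb.r r2347 (@Lb.r r1602 (@Lb.r r25 (@Lb.d (nat_lit 2) (nat_lit 104) (nat_lit 130) (@Lb.t (@Lb.fm (nat_lit 9) t898)))))))))))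
noncomputable def l42832 : Lb := (@Lb.d (nat_lit 168) (nat_lit 550) (nat_lit 264) (@Lb.r r676 (@Lb.r r150 (@Lb.g g5 (@Lb.g g4 (@Lb.d (nat_lit 16) (nat_lit 129) (nat_lit 0) (@Lb.fp (nat_lit 3) t4321)))))))
noncomputable def l42833 : Lb := (@Lb.r r82 (@Lb.d (nat_lit 9) (nat_lit 289) (nat_lit 72) (@Lb.g g8 (@Lb.g g9 (@Lb.g g11 (@Lb.r r1426 (@Lb.r r1049 (@Lb.r r2436 (@Lb.d (nat_lit 260) (nat_lit 90) (nat_lit 549) (@Lb.t (@Lb.fp (nat_lit 9) t7399)))))))))))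
noncomputable def l42834 : Lb := (@Lb.r r70 (@Lb.d (nat_lit 137) (nat_lit 512) (nat_lit 384) (@Lb.g g8 (@Lb.g g11 (@Lb.r r1602 (@Lb.r r2197 (@Lb.r r100 (@Lb.d (nat_lit 16) (nat_lit 86) (nat_lit 665) (@Lb.fm (nat_lit 3) t5353)))))))))
noncomputable def l42835 : Lb := (@Lb.r r70 (@Lb.d (nat_lit 385) (nat_lit 514) (nat_lit 64) (@Lb.g g8 (@Lb.g g9 (@Lb.g g11 (@Lb.r r2347 (@Lb.r r1602 (@Lb.r r25 (@Lb.d (nat_lit 2) (nat_lit 97) (nat_lit 128) (@Lb.t (@Lb.fm (nat_lit 9) t898)))))))))))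
noncomputable def l42836 : Lb := (@Lb.d (nat_lit 2) (nat_lit 2) (nat_lit 130) (@Lb.g g8 (@Lb.g g9 (@Lb.g g10 (@Lb.g g11 (@Lb.r r2411 (@Lb.r r386 (@Lb.r r2153 (@Lb.r r36 (@Lb.d (nat_lit 290) (nat_lit 64) (nat_lit 136) (@Lb.fp (nat_lit 9) t309)))))))))))
noncomputable def l42837 : Lb := (@Lb.d (nat_lit 32) (nat_lit 0) (nat_lit 1) (@Lb.g g10 (@Lb.r r84 (@Lb.r r586 (@Lb.r r2073 (@Lb.d (nat_lit 682) (nat_lit 161) (nat_lit 517) (@Lb.t (@Lb.fp (nat_lit 3) t7400))))))))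
noncomputable def l42838 : Lb := (@Lb.d (nat_lit 2) (nat_lit 2) (nat_lit 73) (@Lb.g g8 (@Lb.g g9 (@Lb.g g10 (@Lb.g g11 (@Lb.r r2691 (@Lb.r r132 (@Lb.r r1622 (@Lb.r r2201 (@Lb.r r2180 (@Lb.d (nat_lit 613) (nat_lit 17) (nat_lit 162) (@Lb.fm (nat_lit 9) t4853))))))))))))
noncomputable def l42839 : Lb := (@Lb.d (nat_lit 128) (nat_lit 260) (nat_lit 128) (@Lb.g g8 (@Lb.g g9 (@Lb.g g10 (@Lb.g g11 (@Lb.r r2659 (@Lb.r r1606 (@Lb.r r2325 (@Lb.r r1176 (@Lb.d (nat_lit 130) (nat_lit 164) (nat_lit 170) (@Lb.fp (nat_lit 9) t5032)))))))))))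
noncomputable def l42840 : Lb := (@Lb.d (nat_lit 129) (nat_lit 258) (nat_lit 130) (@Lb.g g8 (@Lb.g g9 (@Lb.g g10 (@Lb.g g11 (@Lb.r r419 (@Lb.r r1060 (@Lb.r r2469 (@Lb.r r98 (@Lb.d (nat_lit 610) (nat_lit 74) (nat_lit 137) (@Lb.fm (nat_lit 9) t5371)))))))))))
noncomputable def l42841 : Lb := (@Lb.d (nat_lit 361) (nat_lit 273) (nat_lit 421) (@Lb.r r81 (@Lb.r r1378 (@Lb.r r85 (@Lb.r r1667 (@Lb.g g7 (@Lb.g g6 (@Lb.g g5 (@Lb.g g4 (@Lb.d (nat_lit 288) (nat_lit 1) (nat_lit 0) (@Lb.fm (nat_lit 9) t7401)))))))))))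
noncomputable def l42842 : Lb := (@Lb.r r273 (@Lb.r r322 (@Lb.d (nat_lit 640) (nat_lit 16) (nat_lit 584) (@Lb.g g4 (@Lb.g g7 (@Lb.r r1381 (@Lb.r r146 (@Lb.d (nat_lit 362) (nat_lit 5) (nat_lit 592) (@Lb.fm (nat_lit 3) t541)))))))))
noncomputable def l42843 : Lb := (@Lb.r r273 (@Lb.r r322 (@Lb.d (nat_lit 640) (nat_lit 528) (nat_lit 584) (@Lb.g g4 (@Lb.g g7 (@Lb.r r1381 (@Lb.r r146 (@Lb.d (nat_lit 352) (nat_lit 6) (nat_lit 592) (@Lb.fm (nat_lit 3) t243)))))))))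
noncomputable def l42844 : Lb := (@Lb.r r275 (@Lb.d (nat_lit 650) (nat_lit 260) (nat_lit 18) (@Lb.g g4 (@Lb.g g9 (@Lb.g g6 (@Lb.r r1411 (@Lb.r r2149 (@Lb.d (nat_lit 330) (nat_lit 10) (nat_lit 0) (@Lb.t (@Lb.fp (nat_lit 9) t5651))))))))))
noncomputable def l42845 : Lb := (@Lb.r r323 (@Lb.d (nat_lit 8) (nat_lit 289) (nat_lit 18) (@Lb.g g8 (@Lb.g g9 (@Lb.g g10 (@Lb.r r595 (@Lb.r r337 (@Lb.r r2120 (@Lb.d (nat_lit 529) (nat_lit 24) (nat_lit 356) (@Lb.t (@Lb.fm (nat_lit 9) t2910)))))))))))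
noncomputable def l42846 : Lb := (@Lb.d (nat_lit 129) (nat_lit 514) (nat_lit 130) (@Lb.g g8 (@Lb.g g9 (@Lb.g g10 (@Lb.g g11 (@Lb.r r419 (@Lb.r r1060 (@Lb.r r2469 (@Lb.r r98 (@Lb.d (nat_lit 617) (nat_lit 73) (nat_lit 137) (@Lb.fm (nat_lit 9) t981)))))))))))
noncomputable def l42847 : Lb := (@Lb.d (nat_lit 133) (nat_lit 517) (nat_lit 128) (@Lb.g g8 (@Lb.g g9 (@Lb.g g10 (@Lb.g g11 (@Lb.r r659 (@Lb.r r386 (@Lb.r r280 (@Lb.r r1685 (@Lb.r r36 (@Lb.d (nat_lit 393) (nat_lit 10) (nat_lit 677) (@Lb.fm (nat_lit 9) t7402))))))))))))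
noncomputable def l42848 : Lb := (@Lb.d (nat_lit 128) (nat_lit 514) (nat_lit 130) (@Lb.g g8 (@Lb.g g9 (@Lb.g g10 (@Lb.g g11 (@Lb.r r683 (@Lb.r r1433 (@Lb.r r146 (@Lb.r r516 (@Lb.d (nat_lit 550) (nat_lit 101) (nat_lit 152) (@Lb.fp (nat_lit 9) t3891)))))))))))
noncomputable def l42849 : Lb := (@Lb.d (nat_lit 128) (nat_lit 2) (nat_lit 130) (@Lb.g g8 (@Lb.g g9 (@Lb.g g10 (@Lb.g g11 (@Lb.r r419 (@Lb.r r1702 (@Lb.r r2392 (@Lb.r r1317 (@Lb.d (nat_lit 328) (nat_lit 86) (nat_lit 666) (@Lb.fm (nat_lit 9) t7403)))))))))))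
noncomputable def l42850 : Lb := (@Lb.d (nat_lit 128) (nat_lit 514) (nat_lit 130) (@Lb.g g8 (@Lb.g g9 (@Lb.g g10 (@Lb.g g11 (@Lb.r r419 (@Lb.r r1702 (@Lb.r r2392 (@Lb.r r1317 (@Lb.d (nat_lit 329) (nat_lit 86) (nat_lit 666) (@Lb.fm (nat_lit 9) t7403)))))))))))
noncomputable def l42851 : Lb := (@Lb.d (nat_lit 32) (nat_lit 2) (nat_lit 130) (@Lb.g g8 (@Lb.g g9 (@Lb.g g10 (@Lb.g g11 (@Lb.r r1366 (@Lb.r r2711 (@Lb.r r360 (@Lb.r r617 (@Lb.r r2084 (@Lb.d (nat_lit 16) (nat_lit 133) (nat_lit 37) (@Lb.fm (nat_lit 9) t4926))))))))))))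
noncomputable def l42852 : Lb := (@Lb.r r2311 (@Lb.d (nat_lit 257) (nat_lit 0) (nat_lit 0) (@Lb.g g4 (@Lb.r r101 (@Lb.r r1114 (@Lb.d (nat_lit 22) (nat_lit 1) (nat_lit 1) (@Lb.t (@Lb.fp (nat_lit 3) t7404))))))))
noncomputable def l42853 : Lb := (@Lb.d (nat_lit 32) (nat_lit 512) (nat_lit 66) (@Lb.g g9 (@Lb.g g10 (@Lb.g g11 (@Lb.r r1685 (@Lb.r r100 (@Lb.r r602 (@Lb.d (nat_lit 292) (nat_lit 134) (nat_lit 10) (@Lb.t (@Lb.fm (nat_lit 9) t907))))))))))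
noncomputable def l42854 : Lb := (@Lb.d (nat_lit 0) (nat_lit 258) (nat_lit 130) (@Lb.g g8 (@Lb.g g9 (@Lb.g g10 (@Lb.g g11 (@Lb.r r2647 (@Lb.r r2726 (@Lb.r r97 (@Lb.r r1416 (@Lb.d (nat_lit 521) (nat_lit 9) (nat_lit 152) (@Lb.fp (nat_lit 9) t7405)))))))))))
noncomputable def l42855 : Lb := (@Lb.d (nat_lit 2) (nat_lit 4) (nat_lit 74) (@Lb.g g8 (@Lb.g g9 (@Lb.g g10 (@Lb.g g11 (@Lb.r r2691 (@Lb.r r2474 (@Lb.r r1313 (@Lb.r r24 (@Lb.d (nat_lit 134) (nat_lit 160) (nat_lit 424) (@Lb.fp (nat_lit 9) t378)))))))))))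
noncomputable def l42856 : Lb := (@Lb.r r277 (@Lb.r r326 (@Lb.d (nat_lit 513) (nat_lit 32) (nat_lit 580) (@Lb.g g4 (@Lb.g g7 (@Lb.r r402 (@Lb.r r1121 (@Lb.d (nat_lit 1) (nat_lit 66) (nat_lit 96) (@Lb.fm (nat_lit 3) t3915)))))))))
noncomputable def l42857 : Lb := (@Lb.r r2315 (@Lb.r r356 (@Lb.r r154 (@Lb.r r2133 (@Lb.r r164 (@Lb.d (nat_lit 0) (nat_lit 0) (nat_lit 16) (@Lb.fm (nat_lit 1) t386)))))))
noncomputable def l42858 : Lb := (@Lb.r r323 (@Lb.d (nat_lit 130) (nat_lit 34) (nat_lit 0) (@Lb.g g8 (@Lb.g g9 (@Lb.g g10 (@Lb.r r599 (@Lb.r r98 (@Lb.r r408 (@Lb.r r101 (@Lb.d (nat_lit 581) (nat_lit 40) (nat_lit 674) (@Lb.t (@Lb.fp (nat_lit 9) t221))))))))))))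
noncomputable def l42859 : Lb := (@Lb.d (nat_lit 137) (nat_lit 129) (nat_lit 256) (@Lb.r r2196 (@Lb.r r1414 (@Lb.r r1363 (@Lb.r r529 (@Lb.g g7 (@Lb.g g5 (@Lb.d (nat_lit 0) (nat_lit 1) (nat_lit 64) (@Lb.fp (nat_lit 3) t1443)))))))))
noncomputable def l42860 : Lb := (@Lb.d (nat_lit 136) (nat_lit 522) (nat_lit 128) (@Lb.g g9 (@Lb.g g11 (@Lb.r r148 (@Lb.r r2646 (@Lb.r r1367 (@Lb.r r1689 (@Lb.d (nat_lit 578) (nat_lit 105) (nat_lit 554) (@Lb.fm (nat_lit 3) t743)))))))))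
noncomputable def l42861 : Lb := (@Lb.d (nat_lit 168) (nat_lit 512) (nat_lit 128) (@Lb.g g8 (@Lb.g g11 (@Lb.r r2726 (@Lb.r r1411 (@Lb.r r2597 (@Lb.r r276 (@Lb.d (nat_lit 70) (nat_lit 18) (nat_lit 665) (@Lb.fm (nat_lit 3) t1952)))))))))
noncomputable def l42862 : Lb := (@Lb.r r21 (@Lb.r r70 (@Lb.r r263 (@Lb.d (nat_lit 1) (nat_lit 512) (nat_lit 0) (@Lb.g g4 (@Lb.r r1559 (@Lb.r r2401 (@Lb.r r1170 (@Lb.d (nat_lit 257) (nat_lit 0) (nat_lit 18) (@Lb.t (@Lb.fp (nat_lit 3) t1028)))))))))))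
noncomputable def l42863 : Lb := (@Lb.d (nat_lit 582) (nat_lit 641) (nat_lit 576) (@Lb.r r548 (@Lb.r r97 (@Lb.r r1434 (@Lb.g g11 (@Lb.g g6 (@Lb.g g4 (@Lb.d (nat_lit 16) (nat_lit 0) (nat_lit 70) (@Lb.r r25 (@Lb.t (@Lb.fm (nat_lit 9) t4283)))))))))))
noncomputable def l42864 : Lb := (@Lb.r r21 (@Lb.r r70 (@Lb.d (nat_lit 266) (nat_lit 0) (nat_lit 0) (@Lb.g g8 (@Lb.r r101 (@Lb.r r2450 (@Lb.d (nat_lit 2) (nat_lit 0) (nat_lit 85) (@Lb.t (@Lb.fp (nat_lit 3) t2605)))))))))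
noncomputable def l42865 : Lb := (@Lb.r r82 (@Lb.r r275 (@Lb.d (nat_lit 2) (nat_lit 256) (nat_lit 0) (@Lb.g g8 (@Lb.g g9 (@Lb.r r1319 (@Lb.r r106 (@Lb.r r25 (@Lb.d (nat_lit 521) (nat_lit 2) (nat_lit 0) (@Lb.fm (nat_lit 3) t4455))))))))))
noncomputable def l42866 : Lb := (@Lb.d (nat_lit 170) (nat_lit 256) (nat_lit 136) (@Lb.g g8 (@Lb.g g11 (@Lb.r r165 (@Lb.r r2214 (@Lb.r r344 (@Lb.r r2311 (@Lb.d (nat_lit 586) (nat_lit 86) (nat_lit 358) (@Lb.fp (nat_lit 3) t2241)))))))))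
noncomputable def l42867 : Lb := (@Lb.d (nat_lit 146) (nat_lit 521) (nat_lit 4) (@Lb.g g8 (@Lb.g g9 (@Lb.g g10 (@Lb.g g11 (@Lb.r r1190 (@Lb.r r2088 (@Lb.r r617 (@Lb.r r2339 (@Lb.d (nat_lit 592) (nat_lit 32) (nat_lit 548) (@Lb.fm (nat_lit 9) t1755)))))))))))
noncomputable def l42868 : Lb := (@Lb.r r82 (@Lb.d (nat_lit 134) (nat_lit 17) (nat_lit 0) (@Lb.g g8 (@Lb.g g9 (@Lb.g g11 (@Lb.r r2308 (@Lb.r r1563 (@Lb.r r2386 (@Lb.r r1569 (@Lb.d (nat_lit 514) (nat_lit 65) (nat_lit 64) (@Lb.t (@Lb.fm (nat_lit 9) t1169))))))))))))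
noncomputable def l42869 : Lb := (@Lb.d (nat_lit 70) (nat_lit 642) (nat_lit 64) (@Lb.r r2596 (@Lb.r r2130 (@Lb.r r1303 (@Lb.g g7 (@Lb.g g5 (@Lb.g g4 (@Lb.d (nat_lit 68) (nat_lit 1) (nat_lit 64) (@Lb.r r74 (@Lb.t (@Lb.fp (nat_lit 9) t7406)))))))))))
noncomputable def l42870 : Lb := (@Lb.d (nat_lit 1) (nat_lit 256) (nat_lit 130) (@Lb.g g8 (@Lb.g g10 (@Lb.g g11 (@Lb.r r1303 (@Lb.r r2713 (@Lb.r r2650 (@Lb.r r2648 (@Lb.d (nat_lit 146) (nat_lit 144) (nat_lit 597) (@Lb.t (@Lb.fp (nat_lit 9) t5568)))))))))))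
noncomputable def l42871 : Lb := (@Lb.d (nat_lit 0) (nat_lit 677) (nat_lit 64) (@Lb.g g9 (@Lb.g g11 (@Lb.r r531 (@Lb.d (nat_lit 0) (nat_lit 105) (nat_lit 64) (@Lb.fp (nat_lit 3) t7407))))))
noncomputable def l42872 : Lb := (@Lb.g g7 (@Lb.r r101 (@Lb.r r24 (@Lb.d (nat_lit 577) (nat_lit 512) (nat_lit 661) (@Lb.t (@Lb.fm (nat_lit 3) t1150))))))
noncomputable def l42873 : Lb := (@Lb.d (nat_lit 0) (nat_lit 297) (nat_lit 64) (@Lb.g g9 (@Lb.g g10 (@Lb.g g11 (@Lb.r r2723 (@Lb.r r1362 (@Lb.r r2328 (@Lb.r r1637 (@Lb.d (nat_lit 257) (nat_lit 130) (nat_lit 402) (@Lb.t (@Lb.fp (nat_lit 9) t3919)))))))))))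
noncomputable def l42874 : Lb := (@Lb.d (nat_lit 4) (nat_lit 518) (nat_lit 128) (@Lb.g g5 (@Lb.g g7 (@Lb.d (nat_lit 549) (nat_lit 6) (nat_lit 17) (@Lb.fm (nat_lit 3) t126)))))
noncomputable def l42875 : Lb := (@Lb.d (nat_lit 4) (nat_lit 678) (nat_lit 66) (@Lb.g g5 (@Lb.g g10 (@Lb.g g11 (@Lb.r r667 (@Lb.r r1178 (@Lb.d (nat_lit 88) (nat_lit 42) (nat_lit 168) (@Lb.t (@Lb.fp (nat_lit 9) t7408)))))))))
noncomputable def l42876 : Lb := (@Lb.r r322 (@Lb.d (nat_lit 0) (nat_lit 289) (nat_lit 516) (@Lb.g g9 (@Lb.g g7 (@Lb.r r1362 (@Lb.r r81 (@Lb.r r24 (@Lb.d (nat_lit 8) (nat_lit 153) (nat_lit 417) (@Lb.fm (nat_lit 3) t6274)))))))))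
noncomputable def l42877 : Lb := (@Lb.d (nat_lit 132) (nat_lit 522) (nat_lit 129) (@Lb.g g8 (@Lb.g g9 (@Lb.g g10 (@Lb.g g11 (@Lb.r r2327 (@Lb.r r1194 (@Lb.r r2657 (@Lb.r r152 (@Lb.d (nat_lit 424) (nat_lit 85) (nat_lit 612) (@Lb.fm (nat_lit 9) t7055)))))))))))
noncomputable def l42878 : Lb := (@Lb.d (nat_lit 6) (nat_lit 0) (nat_lit 66) (@Lb.g g8 (@Lb.g g9 (@Lb.g g10 (@Lb.g g11 (@Lb.r r2327 (@Lb.r r2666 (@Lb.r r612 (@Lb.r r533 (@Lb.r r2084 (@Lb.d (nat_lit 677) (nat_lit 144) (nat_lit 410) (@Lb.fp (nat_lit 9) t7409))))))))))))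
noncomputable def l42879 : Lb := (@Lb.d (nat_lit 146) (nat_lit 256) (nat_lit 258) (@Lb.g g8 (@Lb.g g9 (@Lb.g g10 (@Lb.g g7 (@Lb.r r2434 (@Lb.r r2632 (@Lb.d (nat_lit 354) (nat_lit 0) (nat_lit 297) (@Lb.fm (nat_lit 9) t1101)))))))))
noncomputable def l42880 : Lb := (@Lb.d (nat_lit 2) (nat_lit 521) (nat_lit 129) (@Lb.g g8 (@Lb.g g9 (@Lb.g g10 (@Lb.g g11 (@Lb.r r427 (@Lb.r r388 (@Lb.r r70 (@Lb.r r153 (@Lb.r r132 (@Lb.d (nat_lit 6) (nat_lit 72) (nat_lit 89) (@Lb.fp (nat_lit 9) t6265))))))))))))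
noncomputable def l42881 : Lb := (@Lb.d (nat_lit 2) (nat_lit 9) (nat_lit 130) (@Lb.g g8 (@Lb.g g9 (@Lb.g g10 (@Lb.g g11 (@Lb.r r1707 (@Lb.r r138 (@Lb.r r552 (@Lb.r r617 (@Lb.r r2084 (@Lb.d (nat_lit 353) (nat_lit 105) (nat_lit 545) (@Lb.fp (nat_lit 9) t1428))))))))))))
noncomputable def l42882 : Lb := (@Lb.d (nat_lit 0) (nat_lit 520) (nat_lit 130) (@Lb.g g8 (@Lb.g g10 (@Lb.g g11 (@Lb.r r2699 (@Lb.r r2601 (@Lb.r r2724 (@Lb.r r134 (@Lb.d (nat_lit 41) (nat_lit 153) (nat_lit 296) (@Lb.t (@Lb.fp (nat_lit 9) t591)))))))))))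
noncomputable def l42883 : Lb := (@Lb.r r1346 (@Lb.r r387 (@Lb.d (nat_lit 0) (nat_lit 164) (nat_lit 16) (@Lb.fp (nat_lit 1) t1119))))
noncomputable def l42884 : Lb := (@Lb.d (nat_lit 41) (nat_lit 104) (nat_lit 584) (@Lb.r r21 (@Lb.r r104 (@Lb.r r323 (@Lb.g g10 (@Lb.g g5 (@Lb.d (nat_lit 0) (nat_lit 6) (nat_lit 9) (@Lb.r r387 (@Lb.fm (nat_lit 3) t7410)))))))))
noncomputable def l42885 : Lb := (@Lb.r r359 (@Lb.d (nat_lit 4) (nat_lit 0) (nat_lit 1) (@Lb.g g8 (@Lb.g g9 (@Lb.g g6 (@Lb.r r1643 (@Lb.r r2145 (@Lb.r r1048 (@Lb.d (nat_lit 10) (nat_lit 137) (nat_lit 101) (@Lb.t (@Lb.fm (nat_lit 9) t7411)))))))))))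
noncomputable def l42886 : Lb := (@Lb.d (nat_lit 2) (nat_lit 553) (nat_lit 581) (@Lb.g g8 (@Lb.g g9 (@Lb.g g10 (@Lb.g g7 (@Lb.r r1442 (@Lb.r r1684 (@Lb.r r2473 (@Lb.d (nat_lit 149) (nat_lit 66) (nat_lit 281) (@Lb.fm (nat_lit 9) t7412))))))))))
noncomputable def l42887 : Lb := (@Lb.r r323 (@Lb.d (nat_lit 1) (nat_lit 512) (nat_lit 1) (@Lb.g g8 (@Lb.g g9 (@Lb.g g6 (@Lb.r r1643 (@Lb.r r105 (@Lb.r r36 (@Lb.d (nat_lit 37) (nat_lit 65) (nat_lit 5) (@Lb.t (@Lb.fp (nat_lit 9) t7413)))))))))))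
noncomputable def l42888 : Lb := (@Lb.r r263 (@Lb.d (nat_lit 2) (nat_lit 260) (nat_lit 0) (@Lb.g g8 (@Lb.g g9 (@Lb.g g10 (@Lb.r r1579 (@Lb.r r1442 (@Lb.r r145 (@Lb.r r2632 (@Lb.d (nat_lit 612) (nat_lit 138) (nat_lit 681) (@Lb.t (@Lb.fp (nat_lit 9) t3040))))))))))))
noncomputable def l42889 : Lb := (@Lb.d (nat_lit 613) (nat_lit 1) (nat_lit 681) (@Lb.r r24 (@Lb.r r1701 (@Lb.r r354 (@Lb.g g11 (@Lb.g g5 (@Lb.g g4 (@Lb.d (nat_lit 0) (nat_lit 5) (nat_lit 384) (@Lb.r r578 (@Lb.t (@Lb.fm (nat_lit 9) t1952)))))))))))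
noncomputable def l42890 : Lb := (@Lb.r r82 (@Lb.d (nat_lit 34) (nat_lit 2) (nat_lit 580) (@Lb.g g8 (@Lb.g g9 (@Lb.g g7 (@Lb.r r1385 (@Lb.r r150 (@Lb.r r72 (@Lb.d (nat_lit 294) (nat_lit 18) (nat_lit 41) (@Lb.t (@Lb.fm (nat_lit 9) t7109)))))))))))
noncomputable def l42891 : Lb := (@Lb.d (nat_lit 0) (nat_lit 546) (nat_lit 0) (@Lb.g g5 (@Lb.r r675 (@Lb.r r2178 (@Lb.r r2729 (@Lb.r r8 (@Lb.d (nat_lit 645) (nat_lit 40) (nat_lit 658) (@Lb.t (@Lb.fm (nat_lit 3) t626)))))))))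
noncomputable def l42892 : Lb := (@Lb.r r70 (@Lb.r r263 (@Lb.d (nat_lit 9) (nat_lit 513) (nat_lit 0) (@Lb.g g8 (@Lb.g g9 (@Lb.r r279 (@Lb.r r86 (@Lb.r r21 (@Lb.r r20 (@Lb.d (nat_lit 10) (nat_lit 0) (nat_lit 0) (@Lb.fm (nat_lit 3) t68)))))))))))
noncomputable def l42893 : Lb := (@Lb.g g8 (@Lb.g g5 (@Lb.g g7 (@Lb.r r2323 (@Lb.r r2130 (@Lb.r r2085 (@Lb.r r24 (@Lb.t (@Lb.fm (nat_lit 9) t284)))))))))
noncomputable def l42894 : Lb := (@Lb.d (nat_lit 0) (nat_lit 128) (nat_lit 256) (@Lb.r r1044 (@Lb.r r1129 (@Lb.r r402 (@Lb.g g11 (@Lb.g g4 (@Lb.r r74 (@Lb.r r25 (@Lb.fp (nat_lit 3) t150)))))))))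
noncomputable def l42895 : Lb := (@Lb.d (nat_lit 146) (nat_lit 256) (nat_lit 66) (@Lb.g g8 (@Lb.g g9 (@Lb.g g10 (@Lb.g g11 (@Lb.r r2443 (@Lb.r r1188 (@Lb.r r614 (@Lb.r r529 (@Lb.d (nat_lit 70) (nat_lit 161) (nat_lit 73) (@Lb.fp (nat_lit 9) t5359)))))))))))
noncomputable def l42896 : Lb := (@Lb.d (nat_lit 146) (nat_lit 538) (nat_lit 73) (@Lb.g g8 (@Lb.g g9 (@Lb.g g10 (@Lb.g g11 (@Lb.r r642 (@Lb.r r2455 (@Lb.r r353 (@Lb.r r536 (@Lb.d (nat_lit 168) (nat_lit 25) (nat_lit 674) (@Lb.fm (nat_lit 9) t7414)))))))))))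
noncomputable def l42897 : Lb := (@Lb.d (nat_lit 1) (nat_lit 594) (nat_lit 96) (@Lb.r r657 (@Lb.r r2470 (@Lb.r r2395 (@Lb.g g5 (@Lb.g g8 (@Lb.d (nat_lit 546) (nat_lit 2) (nat_lit 0) (@Lb.fm (nat_lit 3) t6822))))))))
noncomputable def l42898 : Lb := (@Lb.r r359 (@Lb.d (nat_lit 26) (nat_lit 521) (nat_lit 21) (@Lb.g g8 (@Lb.g g9 (@Lb.g g10 (@Lb.r r1689 (@Lb.r r1304 (@Lb.r r391 (@Lb.d (nat_lit 278) (nat_lit 168) (nat_lit 298) (@Lb.t (@Lb.fp (nat_lit 9) t5401)))))))))))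
noncomputable def l42899 : Lb := (@Lb.d (nat_lit 37) (nat_lit 256) (nat_lit 9) (@Lb.g g8 (@Lb.g g9 (@Lb.g g10 (@Lb.g g11 (@Lb.r r601 (@Lb.r r659 (@Lb.r r74 (@Lb.r r1316 (@Lb.d (nat_lit 262) (nat_lit 5) (nat_lit 166) (@Lb.fm (nat_lit 9) t7415)))))))))))
noncomputable def l42900 : Lb := (@Lb.d (nat_lit 512) (nat_lit 256) (nat_lit 22) (@Lb.r r101 (@Lb.r r323 (@Lb.g g7 (@Lb.g g6 (@Lb.d (nat_lit 0) (nat_lit 0) (nat_lit 64) (@Lb.fp (nat_lit 3) t267)))))))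
noncomputable def l42901 : Lb := (@Lb.d (nat_lit 32) (nat_lit 544) (nat_lit 322) (@Lb.g g10 (@Lb.g g11 (@Lb.r r1352 (@Lb.r r2390 (@Lb.r r289 (@Lb.d (nat_lit 144) (nat_lit 73) (nat_lit 298) (@Lb.fm (nat_lit 3) t2367))))))))
noncomputable def l42902 : Lb := (@Lb.d (nat_lit 32) (nat_lit 264) (nat_lit 128) (@Lb.g g10 (@Lb.g g11 (@Lb.r r407 (@Lb.r r616 (@Lb.r r2665 (@Lb.r r2390 (@Lb.d (nat_lit 600) (nat_lit 22) (nat_lit 294) (@Lb.fm (nat_lit 3) t748)))))))))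
noncomputable def l42903 : Lb := (@Lb.d (nat_lit 0) (nat_lit 256) (nat_lit 128) (@Lb.g g10 (@Lb.g g11 (@Lb.r r387 (@Lb.r r1617 (@Lb.r r354 (@Lb.r r1124 (@Lb.d (nat_lit 280) (nat_lit 64) (nat_lit 16) (@Lb.fm (nat_lit 3) t2895)))))))))
noncomputable def l42904 : Lb := (@Lb.d (nat_lit 0) (nat_lit 256) (nat_lit 74) (@Lb.g g10 (@Lb.g g11 (@Lb.r r2626 (@Lb.r r1611 (@Lb.d (nat_lit 16) (nat_lit 0) (nat_lit 518) (@Lb.fp (nat_lit 3) t469)))))))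
noncomputable def l42905 : Lb := (@Lb.r r21 (@Lb.d (nat_lit 128) (nat_lit 256) (nat_lit 130) (@Lb.g g8 (@Lb.g g10 (@Lb.g g11 (@Lb.r r2379 (@Lb.r r386 (@Lb.r r97 (@Lb.r r1700 (@Lb.d (nat_lit 645) (nat_lit 162) (nat_lit 618) (@Lb.t (@Lb.fm (nat_lit 9) t7416))))))))))))
noncomputable def l42906 : Lb := (@Lb.d (nat_lit 326) (nat_lit 88) (nat_lit 100) (@Lb.r r2648 (@Lb.r r2438 (@Lb.r r1563 (@Lb.g g7 (@Lb.g g9 (@Lb.g g4 (@Lb.d (nat_lit 82) (nat_lit 8) (nat_lit 128) (@Lb.r r74 (@Lb.t (@Lb.fp (nat_lit 9) t4370)))))))))))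
noncomputable def l42907 : Lb := (@Lb.r r21 (@Lb.d (nat_lit 410) (nat_lit 256) (nat_lit 128) (@Lb.g g8 (@Lb.g g10 (@Lb.g g11 (@Lb.r r387 (@Lb.r r101 (@Lb.r r2450 (@Lb.d (nat_lit 4) (nat_lit 88) (nat_lit 576) (@Lb.t (@Lb.fm (nat_lit 9) t7417)))))))))))
noncomputable def l42908 : Lb := (@Lb.r r322 (@Lb.d (nat_lit 33) (nat_lit 2) (nat_lit 576) (@Lb.g g8 (@Lb.g g9 (@Lb.g g7 (@Lb.r r361 (@Lb.r r150 (@Lb.r r1364 (@Lb.d (nat_lit 342) (nat_lit 38) (nat_lit 529) (@Lb.t (@Lb.fp (nat_lit 9) t259)))))))))))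
noncomputable def l42909 : Lb := (@Lb.d (nat_lit 2) (nat_lit 546) (nat_lit 66) (@Lb.g g8 (@Lb.g g9 (@Lb.g g10 (@Lb.g g7 (@Lb.r r426 (@Lb.r r1177 (@Lb.d (nat_lit 537) (nat_lit 169) (nat_lit 530) (@Lb.fp (nat_lit 9) t233)))))))))
noncomputable def l42910 : Lb := (@Lb.d (nat_lit 162) (nat_lit 0) (nat_lit 0) (@Lb.g g8 (@Lb.r r391 (@Lb.r r1414 (@Lb.r r2644 (@Lb.r r2073 (@Lb.d (nat_lit 410) (nat_lit 129) (nat_lit 258) (@Lb.t (@Lb.fm (nat_lit 3) t7418)))))))))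
noncomputable def l42911 : Lb := (@Lb.r r82 (@Lb.d (nat_lit 34) (nat_lit 545) (nat_lit 64) (@Lb.g g8 (@Lb.g g9 (@Lb.g g11 (@Lb.r r1571 (@Lb.r r582 (@Lb.r r1445 (@Lb.r r408 (@Lb.d (nat_lit 341) (nat_lit 18) (nat_lit 420) (@Lb.t (@Lb.fp (nat_lit 9) t3054))))))))))))
noncomputable def l42912 : Lb := (@Lb.d (nat_lit 6) (nat_lit 10) (nat_lit 97) (@Lb.g g8 (@Lb.g g9 (@Lb.g g6 (@Lb.g g11 (@Lb.r r601 (@Lb.r r2323 (@Lb.r r2577 (@Lb.d (nat_lit 609) (nat_lit 129) (nat_lit 280) (@Lb.fm (nat_lit 9) t1849))))))))))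
noncomputable def l42913 : Lb := (@Lb.d (nat_lit 656) (nat_lit 32) (nat_lit 136) (@Lb.g g4 (@Lb.g g11 (@Lb.r r1441 (@Lb.r r418 (@Lb.r r343 (@Lb.d (nat_lit 84) (nat_lit 4) (nat_lit 6) (@Lb.fp (nat_lit 3) t7419))))))))
noncomputable def l42914 : Lb := (@Lb.r r1412 (@Lb.d (nat_lit 0) (nat_lit 258) (nat_lit 136) (@Lb.g g9 (@Lb.g g10 (@Lb.g g11 (@Lb.r r595 (@Lb.r r338 (@Lb.r r97 (@Lb.d (nat_lit 0) (nat_lit 98) (nat_lit 521) (@Lb.t (@Lb.fm (nat_lit 9) t7420)))))))))))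
noncomputable def l42915 : Lb := (@Lb.d (nat_lit 0) (nat_lit 601) (nat_lit 660) (@Lb.r r1412 (@Lb.r r1425 (@Lb.r r402 (@Lb.r r1379 (@Lb.g g5 (@Lb.d (nat_lit 0) (nat_lit 5) (nat_lit 0) (@Lb.t (@Lb.fp (nat_lit 3) t2241)))))))))
noncomputable def l42916 : Lb := (@Lb.r r82 (@Lb.d (nat_lit 2) (nat_lit 256) (nat_lit 128) (@Lb.g g8 (@Lb.g g9 (@Lb.g g11 (@Lb.r r599 (@Lb.r r682 (@Lb.r r601 (@Lb.d (nat_lit 665) (nat_lit 2) (nat_lit 594) (@Lb.t (@Lb.fm (nat_lit 9) t5613)))))))))))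
noncomputable def l42917 : Lb := (@Lb.r r323 (@Lb.d (nat_lit 130) (nat_lit 2) (nat_lit 2) (@Lb.g g8 (@Lb.g g9 (@Lb.g g10 (@Lb.r r599 (@Lb.r r98 (@Lb.r r97 (@Lb.r r420 (@Lb.d (nat_lit 106) (nat_lit 65) (nat_lit 393) (@Lb.t (@Lb.fm (nat_lit 9) t119))))))))))))
noncomputable def l42918 : Lb := (@Lb.d (nat_lit 0) (nat_lit 134) (nat_lit 0) (@Lb.g g9 (@Lb.r r260 (@Lb.r r523 (@Lb.r r1154 (@Lb.r r516 (@Lb.d (nat_lit 292) (nat_lit 130) (nat_lit 0) (@Lb.t (@Lb.fp (nat_lit 3) t3979)))))))))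
noncomputable def l42919 : Lb := (@Lb.r r323 (@Lb.d (nat_lit 2) (nat_lit 546) (nat_lit 2) (@Lb.g g8 (@Lb.g g9 (@Lb.g g10 (@Lb.r r599 (@Lb.r r420 (@Lb.r r102 (@Lb.d (nat_lit 596) (nat_lit 137) (nat_lit 546) (@Lb.t (@Lb.fp (nat_lit 9) t5819)))))))))))
noncomputable def l42920 : Lb := (@Lb.d (nat_lit 0) (nat_lit 5) (nat_lit 10) (@Lb.g g5 (@Lb.g g10 (@Lb.g g11 (@Lb.r r1691 (@Lb.r r578 (@Lb.r r24 (@Lb.d (nat_lit 546) (nat_lit 89) (nat_lit 168) (@Lb.t (@Lb.fp (nat_lit 9) t3548))))))))))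
noncomputable def l42921 : Lb := (@Lb.r r89 (@Lb.r r166 (@Lb.r r340 (@Lb.r r683 (@Lb.r r657 (@Lb.r r36 (@Lb.d (nat_lit 10) (nat_lit 4) (nat_lit 1) (@Lb.fp (nat_lit 1) t45))))))))
noncomputable def l42922 : Lb := (@Lb.d (nat_lit 1) (nat_lit 260) (nat_lit 0) (@Lb.g g8 (@Lb.g g9 (@Lb.g g10 (@Lb.r r1689 (@Lb.r r1688 (@Lb.r r1691 (@Lb.r r1610 (@Lb.d (nat_lit 612) (nat_lit 88) (nat_lit 409) (@Lb.t (@Lb.fm (nat_lit 9) t7421)))))))))))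
noncomputable def l42923 : Lb := (@Lb.d (nat_lit 2) (nat_lit 512) (nat_lit 0) (@Lb.g g8 (@Lb.r r593 (@Lb.r r343 (@Lb.r r680 (@Lb.r r170 (@Lb.r r153 (@Lb.d (nat_lit 10) (nat_lit 4) (nat_lit 10) (@Lb.t (@Lb.fp (nat_lit 3) t45))))))))))
noncomputable def l42924 : Lb := (@Lb.d (nat_lit 1) (nat_lit 260) (nat_lit 10) (@Lb.g g4 (@Lb.g g9 (@Lb.g g10 (@Lb.g g11 (@Lb.r r1699 (@Lb.r r166 (@Lb.r r145 (@Lb.d (nat_lit 665) (nat_lit 2) (nat_lit 409) (@Lb.fm (nat_lit 9) t1686))))))))))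
noncomputable def l42925 : Lb := (@Lb.r r82 (@Lb.d (nat_lit 133) (nat_lit 256) (nat_lit 128) (@Lb.g g8 (@Lb.g g9 (@Lb.g g11 (@Lb.r r2467 (@Lb.r r386 (@Lb.r r1049 (@Lb.r r168 (@Lb.d (nat_lit 337) (nat_lit 6) (nat_lit 514) (@Lb.t (@Lb.fm (nat_lit 9) t1774))))))))))))
noncomputable def l42926 : Lb := (@Lb.d (nat_lit 338) (nat_lit 389) (nat_lit 290) (@Lb.r r1384 (@Lb.r r150 (@Lb.r r361 (@Lb.g g11 (@Lb.g g5 (@Lb.g g4 (@Lb.d (nat_lit 17) (nat_lit 1) (nat_lit 384) (@Lb.r r578 (@Lb.t (@Lb.fp (nat_lit 9) t1039)))))))))))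
noncomputable def l42927 : Lb := (@Lb.d (nat_lit 2) (nat_lit 514) (nat_lit 130) (@Lb.g g8 (@Lb.g g9 (@Lb.g g10 (@Lb.g g11 (@Lb.r r273 (@Lb.r r2475 (@Lb.r r2440 (@Lb.r r2122 (@Lb.d (nat_lit 81) (nat_lit 162) (nat_lit 648) (@Lb.fm (nat_lit 9) t1042)))))))))))
noncomputable def l42928 : Lb := (@Lb.d (nat_lit 0) (nat_lit 0) (nat_lit 64) (@Lb.g g10 (@Lb.g g7 (@Lb.r r402 (@Lb.r r2145 (@Lb.r r1316 (@Lb.d (nat_lit 0) (nat_lit 64) (nat_lit 384) (@Lb.fp (nat_lit 3) t3235))))))))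
noncomputable def l42929 : Lb := (@Lb.d (nat_lit 8) (nat_lit 296) (nat_lit 128) (@Lb.g g8 (@Lb.g g10 (@Lb.g g11 (@Lb.r r2085 (@Lb.r r1300 (@Lb.r r2635 (@Lb.r r2370 (@Lb.d (nat_lit 104) (nat_lit 70) (nat_lit 36) (@Lb.t (@Lb.fm (nat_lit 9) t1079)))))))))))
noncomputable def l42930 : Lb := (@Lb.d (nat_lit 144) (nat_lit 32) (nat_lit 162) (@Lb.g g8 (@Lb.g g10 (@Lb.g g11 (@Lb.r r2401 (@Lb.r r659 (@Lb.r r1048 (@Lb.d (nat_lit 41) (nat_lit 97) (nat_lit 41) (@Lb.t (@Lb.fp (nat_lit 9) t2426))))))))))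
noncomputable def l42931 : Lb := (@Lb.d (nat_lit 154) (nat_lit 298) (nat_lit 278) (@Lb.r r617 (@Lb.r r2178 (@Lb.r r427 (@Lb.g g5 (@Lb.g g4 (@Lb.d (nat_lit 288) (nat_lit 17) (nat_lit 0) (@Lb.fm (nat_lit 3) t6952))))))))
noncomputable def l42932 : Lb := (@Lb.d (nat_lit 2) (nat_lit 258) (nat_lit 66) (@Lb.g g8 (@Lb.g g9 (@Lb.g g10 (@Lb.g g11 (@Lb.r r1433 (@Lb.r r1315 (@Lb.r r2440 (@Lb.r r2122 (@Lb.d (nat_lit 533) (nat_lit 82) (nat_lit 264) (@Lb.fm (nat_lit 9) t7422)))))))))))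
noncomputable def l42933 : Lb := (@Lb.d (nat_lit 2) (nat_lit 548) (nat_lit 128) (@Lb.g g8 (@Lb.g g9 (@Lb.g g10 (@Lb.g g11 (@Lb.r r2391 (@Lb.r r1194 (@Lb.r r2393 (@Lb.r r2436 (@Lb.d (nat_lit 425) (nat_lit 85) (nat_lit 290) (@Lb.fm (nat_lit 9) t7423)))))))))))
noncomputable def l42934 : Lb := (@Lb.r r580 (@Lb.d (nat_lit 40) (nat_lit 292) (nat_lit 384) (@Lb.g g9 (@Lb.g g10 (@Lb.g g11 (@Lb.r r532 (@Lb.r r617 (@Lb.r r602 (@Lb.d (nat_lit 265) (nat_lit 100) (nat_lit 65) (@Lb.t (@Lb.fp (nat_lit 9) t367)))))))))))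
noncomputable def l42935 : Lb := (@Lb.d (nat_lit 2) (nat_lit 2) (nat_lit 2) (@Lb.g g8 (@Lb.g g9 (@Lb.g g10 (@Lb.g g11 (@Lb.r r2729 (@Lb.r r299 (@Lb.r r2404 (@Lb.r r1610 (@Lb.d (nat_lit 81) (nat_lit 10) (nat_lit 664) (@Lb.fm (nat_lit 9) t221)))))))))))
noncomputable def l42936 : Lb := (@Lb.d (nat_lit 32) (nat_lit 258) (nat_lit 130) (@Lb.g g9 (@Lb.g g10 (@Lb.g g11 (@Lb.r r419 (@Lb.r r149 (@Lb.r r100 (@Lb.r r410 (@Lb.d (nat_lit 153) (nat_lit 21) (nat_lit 8) (@Lb.t (@Lb.fp (nat_lit 9) t263)))))))))))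
noncomputable def l42937 : Lb := (@Lb.d (nat_lit 130) (nat_lit 281) (nat_lit 130) (@Lb.g g8 (@Lb.g g9 (@Lb.g g10 (@Lb.g g11 (@Lb.r r1194 (@Lb.r r424 (@Lb.r r2327 (@Lb.r r2577 (@Lb.r r1060 (@Lb.d (nat_lit 514) (nat_lit 161) (nat_lit 90) (@Lb.fp (nat_lit 9) t1148))))))))))))
noncomputable def l42938 : Lb := (@Lb.d (nat_lit 617) (nat_lit 288) (nat_lit 4) (@Lb.r r2394 (@Lb.r r2408 (@Lb.r r2393 (@Lb.r r427 (@Lb.g g6 (@Lb.g g5 (@Lb.g g4 (@Lb.d (nat_lit 129) (nat_lit 1) (nat_lit 1) (@Lb.t (@Lb.fm (nat_lit 9) t40)))))))))))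
noncomputable def l42939 : Lb := (@Lb.r r21 (@Lb.d (nat_lit 129) (nat_lit 512) (nat_lit 73) (@Lb.g g8 (@Lb.g g10 (@Lb.g g11 (@Lb.r r651 (@Lb.r r2692 (@Lb.r r1158 (@Lb.r r25 (@Lb.d (nat_lit 289) (nat_lit 0) (nat_lit 681) (@Lb.t (@Lb.fm (nat_lit 9) t5890))))))))))))
noncomputable def l42940 : Lb := (@Lb.r r323 (@Lb.d (nat_lit 32) (nat_lit 512) (nat_lit 2) (@Lb.g g9 (@Lb.g g10 (@Lb.r r1627 (@Lb.r r1624 (@Lb.r r2341 (@Lb.d (nat_lit 358) (nat_lit 128) (nat_lit 530) (@Lb.fp (nat_lit 3) t5670)))))))))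
noncomputable def l42941 : Lb := (@Lb.d (nat_lit 0) (nat_lit 544) (nat_lit 64) (@Lb.g g11 (@Lb.r r85 (@Lb.r r1450 (@Lb.r r599 (@Lb.r r36 (@Lb.d (nat_lit 657) (nat_lit 150) (nat_lit 42) (@Lb.t (@Lb.fp (nat_lit 3) t6911)))))))))
noncomputable def l42942 : Lb := (@Lb.d (nat_lit 154) (nat_lit 104) (nat_lit 25) (@Lb.r r24 (@Lb.r r1697 (@Lb.r r2667 (@Lb.g g10 (@Lb.g g5 (@Lb.g g4 (@Lb.d (nat_lit 1) (nat_lit 4) (nat_lit 34) (@Lb.r r403 (@Lb.t (@Lb.fp (nat_lit 9) t1453)))))))))))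
noncomputable def l42943 : Lb := (@Lb.d (nat_lit 4) (nat_lit 256) (nat_lit 2) (@Lb.g g8 (@Lb.g g9 (@Lb.g g10 (@Lb.r r2723 (@Lb.r r1634 (@Lb.r r25 (@Lb.d (nat_lit 20) (nat_lit 153) (nat_lit 521) (@Lb.t (@Lb.fp (nat_lit 9) t7424))))))))))
noncomputable def l42944 : Lb := (@Lb.d (nat_lit 616) (nat_lit 544) (nat_lit 4) (@Lb.r r2394 (@Lb.r r2408 (@Lb.r r2393 (@Lb.r r427 (@Lb.g g6 (@Lb.g g5 (@Lb.g g4 (@Lb.d (nat_lit 129) (nat_lit 1) (nat_lit 1) (@Lb.t (@Lb.fm (nat_lit 9) t40)))))))))))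
noncomputable def l42945 : Lb := (@Lb.r r359 (@Lb.d (nat_lit 0) (nat_lit 9) (nat_lit 1) (@Lb.g g8 (@Lb.g g9 (@Lb.g g10 (@Lb.r r1642 (@Lb.r r1603 (@Lb.r r297 (@Lb.r r72 (@Lb.d (nat_lit 648) (nat_lit 37) (nat_lit 134) (@Lb.t (@Lb.fp (nat_lit 9) t4231))))))))))))
noncomputable def l42946 : Lb := (@Lb.d (nat_lit 40) (nat_lit 614) (nat_lit 262) (@Lb.r r21 (@Lb.r r2386 (@Lb.r r2723 (@Lb.g g6 (@Lb.g g5 (@Lb.g g4 (@Lb.d (nat_lit 1) (nat_lit 1) (nat_lit 1) (@Lb.t (@Lb.fm (nat_lit 9) t5650))))))))))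
noncomputable def l42947 : Lb := (@Lb.r r1319 (@Lb.r r1126 (@Lb.r r24 (@Lb.d (nat_lit 530) (nat_lit 576) (nat_lit 32) (@Lb.fm (nat_lit 1) t396)))))
noncomputable def l42948 : Lb := (@Lb.r r323 (@Lb.d (nat_lit 4) (nat_lit 256) (nat_lit 1) (@Lb.g g8 (@Lb.g g9 (@Lb.g g6 (@Lb.r r387 (@Lb.r r97 (@Lb.r r24 (@Lb.d (nat_lit 10) (nat_lit 9) (nat_lit 66) (@Lb.t (@Lb.fp (nat_lit 9) t40)))))))))))
noncomputable def l42949 : Lb := (@Lb.d (nat_lit 0) (nat_lit 512) (nat_lit 10) (@Lb.g g6 (@Lb.r r1667 (@Lb.r r2690 (@Lb.r r24 (@Lb.d (nat_lit 321) (nat_lit 64) (nat_lit 681) (@Lb.t (@Lb.fp (nat_lit 3) t716))))))))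
noncomputable def l42950 : Lb := (@Lb.r r327 (@Lb.d (nat_lit 36) (nat_lit 0) (nat_lit 25) (@Lb.g g8 (@Lb.g g9 (@Lb.g g6 (@Lb.r r2563 (@Lb.r r1129 (@Lb.r r292 (@Lb.d (nat_lit 682) (nat_lit 73) (nat_lit 410) (@Lb.t (@Lb.fp (nat_lit 9) t7425)))))))))))
noncomputable def l42951 : Lb := (@Lb.g g4 (@Lb.r r579 (@Lb.r r1636 (@Lb.r r2138 (@Lb.r r2085 (@Lb.d (nat_lit 5) (nat_lit 129) (nat_lit 613) (@Lb.t (@Lb.fm (nat_lit 3) t988))))))))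
noncomputable def l42952 : Lb := (@Lb.r r82 (@Lb.d (nat_lit 165) (nat_lit 386) (nat_lit 128) (@Lb.g g8 (@Lb.g g5 (@Lb.g g11 (@Lb.r r1382 (@Lb.r r1687 (@Lb.r r328 (@Lb.d (nat_lit 409) (nat_lit 5) (nat_lit 21) (@Lb.t (@Lb.fp (nat_lit 9) t7426)))))))))))
noncomputable def l42953 : Lb := (@Lb.d (nat_lit 38) (nat_lit 261) (nat_lit 128) (@Lb.g g8 (@Lb.g g9 (@Lb.g g10 (@Lb.g g11 (@Lb.r r2691 (@Lb.r r161 (@Lb.r r614 (@Lb.r r2200 (@Lb.d (nat_lit 136) (nat_lit 138) (nat_lit 162) (@Lb.fm (nat_lit 9) t3066)))))))))))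
noncomputable def l42954 : Lb := (@Lb.r r82 (@Lb.d (nat_lit 133) (nat_lit 256) (nat_lit 128) (@Lb.g g8 (@Lb.g g9 (@Lb.g g11 (@Lb.r r1643 (@Lb.r r662 (@Lb.r r425 (@Lb.r r1636 (@Lb.d (nat_lit 521) (nat_lit 1) (nat_lit 420) (@Lb.t (@Lb.fp (nat_lit 9) t5635))))))))))))
noncomputable def l42955 : Lb := (@Lb.r r327 (@Lb.d (nat_lit 36) (nat_lit 512) (nat_lit 25) (@Lb.g g8 (@Lb.g g9 (@Lb.g g6 (@Lb.r r2563 (@Lb.r r1129 (@Lb.r r292 (@Lb.d (nat_lit 682) (nat_lit 66) (nat_lit 408) (@Lb.t (@Lb.fp (nat_lit 9) t7427)))))))))))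
noncomputable def l42956 : Lb := (@Lb.r r275 (@Lb.d (nat_lit 8) (nat_lit 512) (nat_lit 17) (@Lb.g g9 (@Lb.g g10 (@Lb.r r344 (@Lb.r r359 (@Lb.r r2385 (@Lb.d (nat_lit 0) (nat_lit 24) (nat_lit 554) (@Lb.fp (nat_lit 3) t3240)))))))))
noncomputable def l42957 : Lb := (@Lb.d (nat_lit 9) (nat_lit 512) (nat_lit 10) (@Lb.g g8 (@Lb.g g9 (@Lb.g g10 (@Lb.g g11 (@Lb.r r1321 (@Lb.r r535 (@Lb.r r392 (@Lb.r r74 (@Lb.d (nat_lit 608) (nat_lit 5) (nat_lit 346) (@Lb.fm (nat_lit 9) t1150)))))))))))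
noncomputable def l42958 : Lb := (@Lb.r r580 (@Lb.r r593 (@Lb.d (nat_lit 16) (nat_lit 264) (nat_lit 137) (@Lb.g g6 (@Lb.g g11 (@Lb.r r2665 (@Lb.r r2727 (@Lb.r r2632 (@Lb.d (nat_lit 0) (nat_lit 98) (nat_lit 584) (@Lb.fm (nat_lit 3) t3967))))))))))
noncomputable def l42959 : Lb := (@Lb.r r81 (@Lb.r r323 (@Lb.d (nat_lit 33) (nat_lit 0) (nat_lit 17) (@Lb.g g8 (@Lb.g g6 (@Lb.r r1643 (@Lb.r r105 (@Lb.r r72 (@Lb.d (nat_lit 90) (nat_lit 38) (nat_lit 384) (@Lb.fm (nat_lit 3) t43))))))))))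
noncomputable def l42960 : Lb := (@Lb.d (nat_lit 41) (nat_lit 256) (nat_lit 0) (@Lb.g g8 (@Lb.g g9 (@Lb.g g11 (@Lb.r r2153 (@Lb.r r150 (@Lb.r r596 (@Lb.r r2599 (@Lb.d (nat_lit 645) (nat_lit 152) (nat_lit 357) (@Lb.t (@Lb.fp (nat_lit 9) t430)))))))))))
noncomputable def l42961 : Lb := (@Lb.d (nat_lit 4) (nat_lit 272) (nat_lit 385) (@Lb.r r1573 (@Lb.r r1172 (@Lb.r r1603 (@Lb.g g6 (@Lb.g g5 (@Lb.g g4 (@Lb.d (nat_lit 16) (nat_lit 10) (nat_lit 1) (@Lb.r r391 (@Lb.t (@Lb.fp (nat_lit 9) t4947)))))))))))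
noncomputable def l42962 : Lb := (@Lb.d (nat_lit 129) (nat_lit 4) (nat_lit 64) (@Lb.g g8 (@Lb.g g9 (@Lb.g g10 (@Lb.g g11 (@Lb.r r681 (@Lb.r r427 (@Lb.r r388 (@Lb.r r2438 (@Lb.r r25 (@Lb.d (nat_lit 352) (nat_lit 65) (nat_lit 545) (@Lb.fp (nat_lit 9) t7428))))))))))))
noncomputable def l42963 : Lb := (@Lb.d (nat_lit 2) (nat_lit 521) (nat_lit 138) (@Lb.g g8 (@Lb.g g9 (@Lb.g g10 (@Lb.g g11 (@Lb.r r1691 (@Lb.r r326 (@Lb.r r2585 (@Lb.d (nat_lit 20) (nat_lit 149) (nat_lit 516) (@Lb.fm (nat_lit 9) t50))))))))))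
noncomputable def l42964 : Lb := (@Lb.d (nat_lit 0) (nat_lit 258) (nat_lit 66) (@Lb.g g9 (@Lb.g g10 (@Lb.g g7 (@Lb.r r386 (@Lb.r r1125 (@Lb.r r24 (@Lb.d (nat_lit 98) (nat_lit 0) (nat_lit 537) (@Lb.t (@Lb.fm (nat_lit 9) t166))))))))))
noncomputable def l42965 : Lb := (@Lb.d (nat_lit 36) (nat_lit 2) (nat_lit 136) (@Lb.g g8 (@Lb.g g9 (@Lb.g g10 (@Lb.g g11 (@Lb.r r1691 (@Lb.r r326 (@Lb.r r2585 (@Lb.r r1556 (@Lb.d (nat_lit 20) (nat_lit 105) (nat_lit 400) (@Lb.fm (nat_lit 9) t50)))))))))))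
noncomputable def l42966 : Lb := (@Lb.r r82 (@Lb.d (nat_lit 136) (nat_lit 17) (nat_lit 0) (@Lb.g g8 (@Lb.g g9 (@Lb.g g11 (@Lb.r r2667 (@Lb.r r386 (@Lb.r r1109 (@Lb.r r1176 (@Lb.d (nat_lit 64) (nat_lit 137) (nat_lit 577) (@Lb.t (@Lb.fp (nat_lit 9) t4960))))))))))))
noncomputable def l42967 : Lb := (@Lb.d (nat_lit 2) (nat_lit 33) (nat_lit 130) (@Lb.g g8 (@Lb.g g9 (@Lb.g g10 (@Lb.g g11 (@Lb.r r427 (@Lb.r r1620 (@Lb.r r2730 (@Lb.r r2649 (@Lb.d (nat_lit 9) (nat_lit 161) (nat_lit 594) (@Lb.fm (nat_lit 9) t7429)))))))))))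
noncomputable def l42968 : Lb := (@Lb.r r21 (@Lb.d (nat_lit 1) (nat_lit 0) (nat_lit 66) (@Lb.g g8 (@Lb.g g10 (@Lb.g g7 (@Lb.r r386 (@Lb.r r1429 (@Lb.r r2632 (@Lb.d (nat_lit 657) (nat_lit 5) (nat_lit 357) (@Lb.t (@Lb.fp (nat_lit 9) t1403)))))))))))
noncomputable def l42969 : Lb := (@Lb.d (nat_lit 1) (nat_lit 2) (nat_lit 66) (@Lb.g g8 (@Lb.g g9 (@Lb.g g10 (@Lb.g g7 (@Lb.r r386 (@Lb.r r97 (@Lb.r r2584 (@Lb.d (nat_lit 645) (nat_lit 168) (nat_lit 393) (@Lb.fp (nat_lit 9) t996))))))))))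
noncomputable def l42970 : Lb := (@Lb.d (nat_lit 128) (nat_lit 256) (nat_lit 384) (@Lb.g g8 (@Lb.g g11 (@Lb.r r280 (@Lb.r r101 (@Lb.d (nat_lit 0) (nat_lit 138) (nat_lit 130) (@Lb.fm (nat_lit 3) t7430)))))))
noncomputable def l42971 : Lb := (@Lb.r r82 (@Lb.r r275 (@Lb.d (nat_lit 130) (nat_lit 518) (nat_lit 0) (@Lb.g g8 (@Lb.g g9 (@Lb.r r599 (@Lb.r r98 (@Lb.r r292 (@Lb.d (nat_lit 389) (nat_lit 40) (nat_lit 641) (@Lb.fp (nat_lit 3) t3501))))))))))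
noncomputable def l42972 : Lb := (@Lb.d (nat_lit 72) (nat_lit 529) (nat_lit 320) (@Lb.r r2130 (@Lb.r r539 (@Lb.g g7 (@Lb.g g9 (@Lb.g g4 (@Lb.d (nat_lit 577) (nat_lit 0) (nat_lit 128) (@Lb.r r74 (@Lb.t (@Lb.fp (nat_lit 9) t7431))))))))))
noncomputable def l42973 : Lb := (@Lb.r r82 (@Lb.d (nat_lit 132) (nat_lit 72) (nat_lit 64) (@Lb.g g8 (@Lb.g g9 (@Lb.g g11 (@Lb.r r2411 (@Lb.r r2198 (@Lb.r r1096 (@Lb.d (nat_lit 82) (nat_lit 4) (nat_lit 148) (@Lb.t (@Lb.fm (nat_lit 9) t3500)))))))))))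
noncomputable def l42974 : Lb := (@Lb.d (nat_lit 658) (nat_lit 297) (nat_lit 336) (@Lb.r r1297 (@Lb.r r2343 (@Lb.r r1620 (@Lb.r r1450 (@Lb.g g6 (@Lb.g g5 (@Lb.d (nat_lit 0) (nat_lit 22) (nat_lit 2) (@Lb.r r387 (@Lb.fp (nat_lit 3) t171))))))))))
noncomputable def l42975 : Lb := (@Lb.d (nat_lit 146) (nat_lit 512) (nat_lit 73) (@Lb.g g8 (@Lb.g g10 (@Lb.g g11 (@Lb.r r1291 (@Lb.r r661 (@Lb.r r2404 (@Lb.r r2202 (@Lb.d (nat_lit 554) (nat_lit 6) (nat_lit 282) (@Lb.t (@Lb.fp (nat_lit 9) t7432)))))))))))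
noncomputable def l42976 : Lb := (@Lb.r r323 (@Lb.d (nat_lit 2) (nat_lit 520) (nat_lit 34) (@Lb.g g8 (@Lb.g g10 (@Lb.r r1419 (@Lb.r r2145 (@Lb.r r1416 (@Lb.d (nat_lit 162) (nat_lit 24) (nat_lit 646) (@Lb.fm (nat_lit 3) t899)))))))))
noncomputable def l42977 : Lb := (@Lb.r r260 (@Lb.d (nat_lit 72) (nat_lit 513) (nat_lit 384) (@Lb.g g9 (@Lb.g g7 (@Lb.r r2634 (@Lb.r r2068 (@Lb.r r1641 (@Lb.d (nat_lit 357) (nat_lit 134) (nat_lit 592) (@Lb.fm (nat_lit 3) t1952)))))))))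
noncomputable def l42978 : Lb := (@Lb.r r323 (@Lb.d (nat_lit 0) (nat_lit 264) (nat_lit 17) (@Lb.g g6 (@Lb.r r1569 (@Lb.r r2659 (@Lb.r r8 (@Lb.d (nat_lit 1) (nat_lit 90) (nat_lit 408) (@Lb.t (@Lb.fp (nat_lit 3) t590)))))))))
noncomputable def l42979 : Lb := (@Lb.r r359 (@Lb.d (nat_lit 0) (nat_lit 8) (nat_lit 34) (@Lb.g g8 (@Lb.g g9 (@Lb.g g10 (@Lb.r r1603 (@Lb.r r1369 (@Lb.r r1048 (@Lb.d (nat_lit 386) (nat_lit 64) (nat_lit 130) (@Lb.t (@Lb.fm (nat_lit 9) t3511)))))))))))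
noncomputable def l42980 : Lb := (@Lb.d (nat_lit 612) (nat_lit 546) (nat_lit 4) (@Lb.r r2394 (@Lb.r r2408 (@Lb.r r2393 (@Lb.r r427 (@Lb.g g6 (@Lb.g g5 (@Lb.g g4 (@Lb.d (nat_lit 129) (nat_lit 1) (nat_lit 1) (@Lb.t (@Lb.fm (nat_lit 9) t40)))))))))))
noncomputable def l42981 : Lb := (@Lb.d (nat_lit 2) (nat_lit 0) (nat_lit 2) (@Lb.g g8 (@Lb.g g10 (@Lb.g g11 (@Lb.r r665 (@Lb.r r146 (@Lb.r r1608 (@Lb.d (nat_lit 144) (nat_lit 72) (nat_lit 664) (@Lb.t (@Lb.fm (nat_lit 9) t452))))))))))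
noncomputable def l42982 : Lb := (@Lb.r r70 (@Lb.d (nat_lit 2) (nat_lit 514) (nat_lit 8) (@Lb.g g8 (@Lb.g g9 (@Lb.g g11 (@Lb.r r1410 (@Lb.r r327 (@Lb.r r2088 (@Lb.r r25 (@Lb.d (nat_lit 512) (nat_lit 40) (nat_lit 644) (@Lb.t (@Lb.fm (nat_lit 9) t148))))))))))))
noncomputable def l42983 : Lb := (@Lb.r r322 (@Lb.d (nat_lit 0) (nat_lit 257) (nat_lit 576) (@Lb.g g8 (@Lb.g g9 (@Lb.g g7 (@Lb.r r361 (@Lb.r r146 (@Lb.r r2436 (@Lb.d (nat_lit 358) (nat_lit 1) (nat_lit 322) (@Lb.t (@Lb.fp (nat_lit 9) t1831)))))))))))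
noncomputable def l42984 : Lb := (@Lb.d (nat_lit 0) (nat_lit 256) (nat_lit 130) (@Lb.g g8 (@Lb.g g10 (@Lb.g g11 (@Lb.r r2714 (@Lb.r r2708 (@Lb.r r2567 (@Lb.r r2145 (@Lb.d (nat_lit 648) (nat_lit 130) (nat_lit 64) (@Lb.t (@Lb.fp (nat_lit 9) t1412)))))))))))
noncomputable def l42985 : Lb := (@Lb.d (nat_lit 16) (nat_lit 514) (nat_lit 138) (@Lb.g g8 (@Lb.g g9 (@Lb.g g10 (@Lb.g g11 (@Lb.r r2666 (@Lb.r r36 (@Lb.r r21 (@Lb.r r36 (@Lb.d (nat_lit 361) (nat_lit 101) (nat_lit 360) (@Lb.fp (nat_lit 9) t2127)))))))))))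
noncomputable def l42986 : Lb := (@Lb.d (nat_lit 0) (nat_lit 1) (nat_lit 130) (@Lb.g g8 (@Lb.g g9 (@Lb.g g10 (@Lb.g g11 (@Lb.r r2730 (@Lb.r r2724 (@Lb.r r2567 (@Lb.r r1169 (@Lb.d (nat_lit 648) (nat_lit 68) (nat_lit 81) (@Lb.fp (nat_lit 9) t1412)))))))))))
noncomputable def l42987 : Lb := (@Lb.d (nat_lit 0) (nat_lit 257) (nat_lit 130) (@Lb.g g8 (@Lb.g g9 (@Lb.g g10 (@Lb.g g11 (@Lb.r r2730 (@Lb.r r2724 (@Lb.r r2567 (@Lb.r r1169 (@Lb.d (nat_lit 642) (nat_lit 69) (nat_lit 81) (@Lb.fp (nat_lit 9) t242)))))))))))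
noncomputable def l42988 : Lb := (@Lb.d (nat_lit 529) (nat_lit 582) (nat_lit 578) (@Lb.r r322 (@Lb.r r1543 (@Lb.r r2452 (@Lb.g g9 (@Lb.d (nat_lit 4) (nat_lit 66) (nat_lit 0) (@Lb.r r291 (@Lb.r r98 (@Lb.t (@Lb.fm (nat_lit 3) t981))))))))))
noncomputable def l42989 : Lb := (@Lb.d (nat_lit 529) (nat_lit 70) (nat_lit 521) (@Lb.r r322 (@Lb.r r1543 (@Lb.r r2452 (@Lb.g g9 (@Lb.d (nat_lit 4) (nat_lit 66) (nat_lit 0) (@Lb.r r291 (@Lb.r r98 (@Lb.t (@Lb.fm (nat_lit 3) t981))))))))))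
noncomputable def l42990 : Lb := (@Lb.d (nat_lit 256) (nat_lit 256) (nat_lit 0) (@Lb.r r1172 (@Lb.r r106 (@Lb.r r601 (@Lb.r r1559 (@Lb.g g8 (@Lb.r r74 (@Lb.r r25 (@Lb.t (@Lb.fm (nat_lit 3) t329))))))))))
noncomputable def l42991 : Lb := (@Lb.d (nat_lit 132) (nat_lit 514) (nat_lit 130) (@Lb.g g8 (@Lb.g g9 (@Lb.g g10 (@Lb.g g11 (@Lb.r r1443 (@Lb.r r1188 (@Lb.r r2438 (@Lb.r r1121 (@Lb.d (nat_lit 354) (nat_lit 10) (nat_lit 425) (@Lb.fp (nat_lit 9) t2470)))))))))))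
noncomputable def l42992 : Lb := (@Lb.r r323 (@Lb.d (nat_lit 0) (nat_lit 322) (nat_lit 0) (@Lb.g g9 (@Lb.g g10 (@Lb.r r419 (@Lb.r r98 (@Lb.d (nat_lit 1) (nat_lit 9) (nat_lit 2) (@Lb.fm (nat_lit 3) t51))))))))
noncomputable def l42993 : Lb := (@Lb.d (nat_lit 1) (nat_lit 66) (nat_lit 2) (@Lb.g g4 (@Lb.g g9 (@Lb.g g10 (@Lb.g g11 (@Lb.r r2471 (@Lb.r r98 (@Lb.d (nat_lit 96) (nat_lit 9) (nat_lit 594) (@Lb.fm (nat_lit 9) t6216)))))))))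
noncomputable def l42994 : Lb := (@Lb.d (nat_lit 6) (nat_lit 320) (nat_lit 0) (@Lb.g g4 (@Lb.g g9 (@Lb.r r2311 (@Lb.d (nat_lit 257) (nat_lit 0) (nat_lit 64) (@Lb.fp (nat_lit 3) t1165))))))
noncomputable def l42995 : Lb := (@Lb.r r326 (@Lb.d (nat_lit 2) (nat_lit 2) (nat_lit 512) (@Lb.g g8 (@Lb.g g9 (@Lb.g g7 (@Lb.r r1065 (@Lb.r r1700 (@Lb.r r134 (@Lb.d (nat_lit 0) (nat_lit 144) (nat_lit 266) (@Lb.t (@Lb.fp (nat_lit 9) t2528)))))))))))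
noncomputable def l42996 : Lb := (@Lb.d (nat_lit 2) (nat_lit 545) (nat_lit 66) (@Lb.g g8 (@Lb.g g9 (@Lb.g g10 (@Lb.g g11 (@Lb.r r1699 (@Lb.r r680 (@Lb.r r362 (@Lb.r r1561 (@Lb.d (nat_lit 553) (nat_lit 132) (nat_lit 418) (@Lb.fp (nat_lit 9) t7433)))))))))))
noncomputable def l42997 : Lb := (@Lb.d (nat_lit 128) (nat_lit 289) (nat_lit 66) (@Lb.g g9 (@Lb.g g10 (@Lb.g g11 (@Lb.r r2709 (@Lb.r r662 (@Lb.r r328 (@Lb.r r647 (@Lb.d (nat_lit 408) (nat_lit 132) (nat_lit 9) (@Lb.t (@Lb.fp (nat_lit 9) t7434)))))))))))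
noncomputable def l42998 : Lb := (@Lb.d (nat_lit 20) (nat_lit 288) (nat_lit 132) (@Lb.g g8 (@Lb.g g9 (@Lb.g g10 (@Lb.g g11 (@Lb.r r403 (@Lb.r r170 (@Lb.r r1065 (@Lb.r r360 (@Lb.d (nat_lit 673) (nat_lit 105) (nat_lit 325) (@Lb.fm (nat_lit 9) t2084)))))))))))
noncomputable def l42999 : Lb := (@Lb.r r326 (@Lb.d (nat_lit 2) (nat_lit 258) (nat_lit 512) (@Lb.g g8 (@Lb.g g9 (@Lb.g g7 (@Lb.r r1065 (@Lb.r r1700 (@Lb.r r134 (@Lb.d (nat_lit 0) (nat_lit 154) (nat_lit 265) (@Lb.t (@Lb.fp (nat_lit 9) t2175)))))))))))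
noncomputable def l43000 : Lb := (@Lb.d (nat_lit 74) (nat_lit 273) (nat_lit 166) (@Lb.r r296 (@Lb.r r535 (@Lb.r r361 (@Lb.g g10 (@Lb.g g4 (@Lb.d (nat_lit 82) (nat_lit 8) (nat_lit 20) (@Lb.r r145 (@Lb.fm (nat_lit 3) t564)))))))))
noncomputable def l43001 : Lb := (@Lb.d (nat_lit 2) (nat_lit 258) (nat_lit 130) (@Lb.g g8 (@Lb.g g9 (@Lb.g g10 (@Lb.g g11 (@Lb.r r610 (@Lb.r r1607 (@Lb.r r2457 (@Lb.r r2436 (@Lb.d (nat_lit 657) (nat_lit 73) (nat_lit 425) (@Lb.fm (nat_lit 9) t2103)))))))))))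
noncomputable def l43002 : Lb := (@Lb.r r70 (@Lb.r r263 (@Lb.d (nat_lit 0) (nat_lit 2) (nat_lit 0) (@Lb.g g8 (@Lb.g g9 (@Lb.r r1561 (@Lb.r r279 (@Lb.r r584 (@Lb.r r2182 (@Lb.d (nat_lit 0) (nat_lit 0) (nat_lit 356) (@Lb.fm (nat_lit 3) t86)))))))))))
noncomputable def l43003 : Lb := (@Lb.d (nat_lit 40) (nat_lit 10) (nat_lit 0) (@Lb.g g8 (@Lb.g g9 (@Lb.r r2379 (@Lb.r r582 (@Lb.r r1432 (@Lb.r r1045 (@Lb.d (nat_lit 516) (nat_lit 25) (nat_lit 554) (@Lb.fp (nat_lit 3) t188)))))))))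
noncomputable def l43004 : Lb := (@Lb.r r82 (@Lb.d (nat_lit 1) (nat_lit 545) (nat_lit 128) (@Lb.g g8 (@Lb.g g9 (@Lb.g g11 (@Lb.r r1636 (@Lb.r r1639 (@Lb.r r2450 (@Lb.r r1625 (@Lb.d (nat_lit 393) (nat_lit 106) (nat_lit 409) (@Lb.t (@Lb.fm (nat_lit 9) t5207))))))))))))
noncomputable def l43005 : Lb := (@Lb.d (nat_lit 0) (nat_lit 514) (nat_lit 130) (@Lb.g g9 (@Lb.g g10 (@Lb.g g11 (@Lb.r r1096 (@Lb.r r2214 (@Lb.r r2469 (@Lb.r r1627 (@Lb.d (nat_lit 409) (nat_lit 102) (nat_lit 533) (@Lb.t (@Lb.fm (nat_lit 9) t2149)))))))))))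
noncomputable def l43006 : Lb := (@Lb.d (nat_lit 0) (nat_lit 2) (nat_lit 66) (@Lb.g g9 (@Lb.g g10 (@Lb.g g11 (@Lb.r r1096 (@Lb.r r2214 (@Lb.r r2469 (@Lb.r r1627 (@Lb.d (nat_lit 409) (nat_lit 102) (nat_lit 533) (@Lb.t (@Lb.fm (nat_lit 9) t2149)))))))))))
noncomputable def l43007 : Lb := (@Lb.d (nat_lit 528) (nat_lit 0) (nat_lit 130) (@Lb.r r2120 (@Lb.r r2145 (@Lb.r r386 (@Lb.g g11 (@Lb.g g6 (@Lb.d (nat_lit 0) (nat_lit 0) (nat_lit 129) (@Lb.fm (nat_lit 3) t74))))))))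
noncomputable def l43008 : Lb := (@Lb.r r21 (@Lb.d (nat_lit 2) (nat_lit 520) (nat_lit 73) (@Lb.g g8 (@Lb.g g10 (@Lb.g g11 (@Lb.r r353 (@Lb.r r667 (@Lb.r r644 (@Lb.r r582 (@Lb.d (nat_lit 152) (nat_lit 2) (nat_lit 74) (@Lb.t (@Lb.fm (nat_lit 9) t2))))))))))))
noncomputable def l43009 : Lb := (@Lb.d (nat_lit 2) (nat_lit 18) (nat_lit 0) (@Lb.g g8 (@Lb.g g5 (@Lb.r r2471 (@Lb.r r2390 (@Lb.r r1636 (@Lb.d (nat_lit 282) (nat_lit 24) (nat_lit 280) (@Lb.fp (nat_lit 3) t7435))))))))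
noncomputable def l43010 : Lb := (@Lb.d (nat_lit 642) (nat_lit 522) (nat_lit 290) (@Lb.r r289 (@Lb.r r2651 (@Lb.r r2564 (@Lb.r r134 (@Lb.g g11 (@Lb.t (@Lb.fm (nat_lit 3) t7435))))))))
noncomputable def l43011 : Lb := (@Lb.r r323 (@Lb.d (nat_lit 1) (nat_lit 32) (nat_lit 2) (@Lb.g g8 (@Lb.g g9 (@Lb.g g10 (@Lb.r r1299 (@Lb.r r74 (@Lb.r r2664 (@Lb.r r2585 (@Lb.d (nat_lit 165) (nat_lit 105) (nat_lit 545) (@Lb.t (@Lb.fp (nat_lit 9) t1994))))))))))))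
noncomputable def l43012 : Lb := (@Lb.d (nat_lit 400) (nat_lit 256) (nat_lit 406) (@Lb.r r2120 (@Lb.r r2145 (@Lb.r r386 (@Lb.g g11 (@Lb.g g6 (@Lb.g g4 (@Lb.d (nat_lit 0) (nat_lit 0) (nat_lit 129) (@Lb.t (@Lb.fp (nat_lit 9) t5288))))))))))
noncomputable def l43013 : Lb := (@Lb.d (nat_lit 2) (nat_lit 0) (nat_lit 74) (@Lb.g g8 (@Lb.g g10 (@Lb.g g11 (@Lb.r r2327 (@Lb.r r644 (@Lb.r r2646 (@Lb.r r1057 (@Lb.d (nat_lit 656) (nat_lit 17) (nat_lit 17) (@Lb.t (@Lb.fp (nat_lit 9) t2115)))))))))))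
noncomputable def l43014 : Lb := (@Lb.r r323 (@Lb.d (nat_lit 130) (nat_lit 514) (nat_lit 0) (@Lb.g g8 (@Lb.g g9 (@Lb.g g10 (@Lb.r r1449 (@Lb.r r2647 (@Lb.r r1418 (@Lb.r r1412 (@Lb.d (nat_lit 617) (nat_lit 66) (nat_lit 362) (@Lb.t (@Lb.fp (nat_lit 9) t240))))))))))))
noncomputable def l43015 : Lb := (@Lb.d (nat_lit 1) (nat_lit 145) (nat_lit 388) (@Lb.r r2327 (@Lb.r r1641 (@Lb.g g7 (@Lb.g g10 (@Lb.g g5 (@Lb.d (nat_lit 32) (nat_lit 1) (nat_lit 34) (@Lb.r r2564 (@Lb.t (@Lb.fp (nat_lit 9) t312))))))))))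
noncomputable def l43016 : Lb := (@Lb.d (nat_lit 146) (nat_lit 258) (nat_lit 74) (@Lb.g g8 (@Lb.g g9 (@Lb.g g10 (@Lb.g g11 (@Lb.r r2729 (@Lb.r r2475 (@Lb.r r1410 (@Lb.r r2340 (@Lb.d (nat_lit 677) (nat_lit 97) (nat_lit 661) (@Lb.fp (nat_lit 9) t7436)))))))))))
noncomputable def l43017 : Lb := (@Lb.r r322 (@Lb.d (nat_lit 9) (nat_lit 258) (nat_lit 576) (@Lb.g g8 (@Lb.g g9 (@Lb.g g7 (@Lb.r r2438 (@Lb.r r289 (@Lb.r r2120 (@Lb.d (nat_lit 96) (nat_lit 162) (nat_lit 610) (@Lb.t (@Lb.fm (nat_lit 9) t2770)))))))))))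
noncomputable def l43018 : Lb := (@Lb.r r21 (@Lb.d (nat_lit 16) (nat_lit 512) (nat_lit 0) (@Lb.g g8 (@Lb.g g10 (@Lb.r r682 (@Lb.r r1689 (@Lb.r r1563 (@Lb.r r1556 (@Lb.d (nat_lit 134) (nat_lit 137) (nat_lit 514) (@Lb.fm (nat_lit 3) t7437))))))))))
noncomputable def l43019 : Lb := (@Lb.d (nat_lit 146) (nat_lit 512) (nat_lit 132) (@Lb.g g8 (@Lb.g g10 (@Lb.g g11 (@Lb.r r1559 (@Lb.r r425 (@Lb.r r2146 (@Lb.r r2440 (@Lb.d (nat_lit 148) (nat_lit 10) (nat_lit 680) (@Lb.t (@Lb.fp (nat_lit 9) t5771)))))))))))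
noncomputable def l43020 : Lb := (@Lb.d (nat_lit 145) (nat_lit 256) (nat_lit 132) (@Lb.g g8 (@Lb.g g10 (@Lb.g g11 (@Lb.r r1559 (@Lb.r r425 (@Lb.r r2146 (@Lb.r r2440 (@Lb.d (nat_lit 150) (nat_lit 10) (nat_lit 680) (@Lb.t (@Lb.fp (nat_lit 9) t5771)))))))))))
noncomputable def l43021 : Lb := (@Lb.r r21 (@Lb.d (nat_lit 144) (nat_lit 32) (nat_lit 64) (@Lb.g g8 (@Lb.g g10 (@Lb.g g11 (@Lb.r r170 (@Lb.r r1177 (@Lb.r r2708 (@Lb.r r1415 (@Lb.d (nat_lit 353) (nat_lit 137) (nat_lit 169) (@Lb.t (@Lb.fp (nat_lit 9) t6873))))))))))))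
noncomputable def l43022 : Lb := (@Lb.d (nat_lit 8) (nat_lit 514) (nat_lit 0) (@Lb.g g4 (@Lb.g g9 (@Lb.r r1571 (@Lb.r r2178 (@Lb.r r1633 (@Lb.d (nat_lit 8) (nat_lit 84) (nat_lit 281) (@Lb.fm (nat_lit 3) t6284))))))))
noncomputable def l43023 : Lb := (@Lb.d (nat_lit 393) (nat_lit 130) (nat_lit 384) (@Lb.r r24 (@Lb.r r2138 (@Lb.g g9 (@Lb.d (nat_lit 8) (nat_lit 2) (nat_lit 0) (@Lb.t (@Lb.fm (nat_lit 3) t225)))))))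
noncomputable def l43024 : Lb := (@Lb.d (nat_lit 153) (nat_lit 0) (nat_lit 132) (@Lb.g g8 (@Lb.g g10 (@Lb.g g11 (@Lb.r r1575 (@Lb.r r597 (@Lb.r r2146 (@Lb.r r388 (@Lb.d (nat_lit 100) (nat_lit 10) (nat_lit 152) (@Lb.t (@Lb.fp (nat_lit 9) t5771)))))))))))
noncomputable def l43025 : Lb := (@Lb.d (nat_lit 101) (nat_lit 24) (nat_lit 548) (@Lb.r r21 (@Lb.r r1640 (@Lb.r r1643 (@Lb.g g7 (@Lb.g g10 (@Lb.g g4 (@Lb.d (nat_lit 18) (nat_lit 8) (nat_lit 66) (@Lb.r r145 (@Lb.t (@Lb.fm (nat_lit 9) t7409)))))))))))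
noncomputable def l43026 : Lb := (@Lb.d (nat_lit 138) (nat_lit 658) (nat_lit 64) (@Lb.r r37 (@Lb.r r88 (@Lb.r r1414 (@Lb.r r2595 (@Lb.g g7 (@Lb.g g6 (@Lb.g g5 (@Lb.d (nat_lit 0) (nat_lit 1) (nat_lit 64) (@Lb.t (@Lb.fp (nat_lit 9) t7438)))))))))))
noncomputable def l43027 : Lb := (@Lb.d (nat_lit 96) (nat_lit 282) (nat_lit 548) (@Lb.r r21 (@Lb.r r1640 (@Lb.r r1643 (@Lb.g g7 (@Lb.g g10 (@Lb.g g4 (@Lb.d (nat_lit 18) (nat_lit 8) (nat_lit 66) (@Lb.r r145 (@Lb.t (@Lb.fm (nat_lit 9) t7409)))))))))))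
noncomputable def l43028 : Lb := (@Lb.d (nat_lit 1) (nat_lit 69) (nat_lit 273) (@Lb.r r37 (@Lb.r r1410 (@Lb.r r2407 (@Lb.g g7 (@Lb.g g6 (@Lb.g g4 (@Lb.d (nat_lit 292) (nat_lit 0) (nat_lit 128) (@Lb.r r25 (@Lb.t (@Lb.fp (nat_lit 9) t317)))))))))))
noncomputable def l43029 : Lb := (@Lb.d (nat_lit 293) (nat_lit 328) (nat_lit 409) (@Lb.r r2325 (@Lb.r r1640 (@Lb.r r1643 (@Lb.r r406 (@Lb.g g7 (@Lb.g g4 (@Lb.d (nat_lit 1) (nat_lit 0) (nat_lit 64) (@Lb.fp (nat_lit 3) t4529)))))))))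
noncomputable def l43030 : Lb := (@Lb.d (nat_lit 8) (nat_lit 1) (nat_lit 66) (@Lb.g g8 (@Lb.g g9 (@Lb.g g10 (@Lb.g g7 (@Lb.r r386 (@Lb.r r97 (@Lb.r r2584 (@Lb.d (nat_lit 650) (nat_lit 169) (nat_lit 393) (@Lb.fp (nat_lit 9) t3305))))))))))
noncomputable def l43031 : Lb := (@Lb.d (nat_lit 32) (nat_lit 512) (nat_lit 64) (@Lb.g g8 (@Lb.g g11 (@Lb.r r1687 (@Lb.r r598 (@Lb.r r2457 (@Lb.r r408 (@Lb.d (nat_lit 666) (nat_lit 26) (nat_lit 168) (@Lb.fm (nat_lit 3) t386)))))))))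
noncomputable def l43032 : Lb := (@Lb.d (nat_lit 320) (nat_lit 96) (nat_lit 64) (@Lb.r r289 (@Lb.r r535 (@Lb.r r328 (@Lb.r r2726 (@Lb.g g7 (@Lb.g g6 (@Lb.d (nat_lit 0) (nat_lit 0) (nat_lit 134) (@Lb.fm (nat_lit 3) t795)))))))))
noncomputable def l43033 : Lb := (@Lb.d (nat_lit 392) (nat_lit 257) (nat_lit 384) (@Lb.r r289 (@Lb.r r535 (@Lb.r r328 (@Lb.r r2694 (@Lb.g g7 (@Lb.g g6 (@Lb.d (nat_lit 0) (nat_lit 0) (nat_lit 133) (@Lb.fm (nat_lit 3) t1256)))))))))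
noncomputable def l43034 : Lb := (@Lb.d (nat_lit 513) (nat_lit 530) (nat_lit 576) (@Lb.r r2145 (@Lb.r r1383 (@Lb.r r1684 (@Lb.r r2198 (@Lb.g g7 (@Lb.g g4 (@Lb.d (nat_lit 144) (nat_lit 0) (nat_lit 4) (@Lb.fm (nat_lit 3) t3535)))))))))
noncomputable def l43035 : Lb := (@Lb.r r404 (@Lb.d (nat_lit 0) (nat_lit 321) (nat_lit 4) (@Lb.g g5 (@Lb.g g10 (@Lb.g g11 (@Lb.r r663 (@Lb.r r2730 (@Lb.r r2340 (@Lb.d (nat_lit 146) (nat_lit 8) (nat_lit 153) (@Lb.t (@Lb.fp (nat_lit 9) t941)))))))))))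
noncomputable def l43036 : Lb := (@Lb.r r323 (@Lb.d (nat_lit 65) (nat_lit 578) (nat_lit 2) (@Lb.g g8 (@Lb.g g5 (@Lb.g g10 (@Lb.r r359 (@Lb.r r678 (@Lb.r r2388 (@Lb.d (nat_lit 346) (nat_lit 144) (nat_lit 645) (@Lb.t (@Lb.fm (nat_lit 9) t632)))))))))))
noncomputable def l43037 : Lb := (@Lb.r r1379 (@Lb.r r1124 (@Lb.r r101 (@Lb.r r1114 (@Lb.d (nat_lit 577) (nat_lit 610) (nat_lit 528) (@Lb.fm (nat_lit 1) t7439))))))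
noncomputable def l43038 : Lb := (@Lb.d (nat_lit 26) (nat_lit 537) (nat_lit 137) (@Lb.g g8 (@Lb.g g9 (@Lb.g g10 (@Lb.g g11 (@Lb.r r2710 (@Lb.r r344 (@Lb.r r2647 (@Lb.r r297 (@Lb.r r1060 (@Lb.d (nat_lit 289) (nat_lit 41) (nat_lit 578) (@Lb.fp (nat_lit 9) t1774))))))))))))
noncomputable def l43039 : Lb := (@Lb.d (nat_lit 2) (nat_lit 0) (nat_lit 136) (@Lb.g g8 (@Lb.g g10 (@Lb.g g11 (@Lb.r r2571 (@Lb.r r2601 (@Lb.r r2660 (@Lb.r r74 (@Lb.d (nat_lit 17) (nat_lit 149) (nat_lit 298) (@Lb.t (@Lb.fm (nat_lit 9) t2926)))))))))))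
noncomputable def l43040 : Lb := (@Lb.d (nat_lit 26) (nat_lit 537) (nat_lit 585) (@Lb.g g8 (@Lb.g g9 (@Lb.g g10 (@Lb.g g7 (@Lb.r r1442 (@Lb.r r2133 (@Lb.r r72 (@Lb.d (nat_lit 644) (nat_lit 36) (nat_lit 272) (@Lb.fm (nat_lit 9) t5319))))))))))
noncomputable def l43041 : Lb := (@Lb.d (nat_lit 64) (nat_lit 258) (nat_lit 2) (@Lb.g g8 (@Lb.g g9 (@Lb.g g10 (@Lb.g g11 (@Lb.r r427 (@Lb.r r2729 (@Lb.r r98 (@Lb.r r2724 (@Lb.d (nat_lit 677) (nat_lit 16) (nat_lit 10) (@Lb.fm (nat_lit 9) t394)))))))))))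
noncomputable def l43042 : Lb := (@Lb.d (nat_lit 0) (nat_lit 517) (nat_lit 129) (@Lb.r r1094 (@Lb.r r2196 (@Lb.r r2345 (@Lb.g g11 (@Lb.g g5 (@Lb.g g4 (@Lb.d (nat_lit 8) (nat_lit 0) (nat_lit 128) (@Lb.r r98 (@Lb.t (@Lb.fp (nat_lit 9) t3693)))))))))))
noncomputable def l43043 : Lb := (@Lb.d (nat_lit 0) (nat_lit 517) (nat_lit 0) (@Lb.g g5 (@Lb.r r2148 (@Lb.d (nat_lit 0) (nat_lit 81) (nat_lit 280) (@Lb.t (@Lb.fm (nat_lit 3) t1174))))))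
noncomputable def l43044 : Lb := (@Lb.d (nat_lit 642) (nat_lit 256) (nat_lit 130) (@Lb.g g8 (@Lb.g g10 (@Lb.g g11 (@Lb.r r395 (@Lb.r r2122 (@Lb.d (nat_lit 545) (nat_lit 0) (nat_lit 409) (@Lb.t (@Lb.fm (nat_lit 9) t4966)))))))))
noncomputable def l43045 : Lb := (@Lb.r r82 (@Lb.r r275 (@Lb.d (nat_lit 2) (nat_lit 257) (nat_lit 0) (@Lb.g g8 (@Lb.g g5 (@Lb.r r2651 (@Lb.r r98 (@Lb.r r24 (@Lb.d (nat_lit 264) (nat_lit 2) (nat_lit 129) (@Lb.fp (nat_lit 3) t3819))))))))))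
noncomputable def l43046 : Lb := (@Lb.d (nat_lit 642) (nat_lit 512) (nat_lit 66) (@Lb.g g8 (@Lb.g g10 (@Lb.g g11 (@Lb.r r395 (@Lb.r r2122 (@Lb.d (nat_lit 545) (nat_lit 0) (nat_lit 409) (@Lb.t (@Lb.fm (nat_lit 9) t4966)))))))))
noncomputable def l43047 : Lb := (@Lb.d (nat_lit 2) (nat_lit 513) (nat_lit 73) (@Lb.g g8 (@Lb.g g9 (@Lb.g g10 (@Lb.g g11 (@Lb.r r1643 (@Lb.r r1610 (@Lb.r r660 (@Lb.r r425 (@Lb.r r1060 (@Lb.d (nat_lit 682) (nat_lit 168) (nat_lit 260) (@Lb.fp (nat_lit 9) t1371))))))))))))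
noncomputable def l43048 : Lb := (@Lb.d (nat_lit 2) (nat_lit 4) (nat_lit 74) (@Lb.g g8 (@Lb.g g9 (@Lb.g g10 (@Lb.g g11 (@Lb.r r1699 (@Lb.r r1160 (@Lb.r r1610 (@Lb.r r37 (@Lb.d (nat_lit 617) (nat_lit 85) (nat_lit 422) (@Lb.fm (nat_lit 9) t6889)))))))))))
noncomputable def l43049 : Lb := (@Lb.r r331 (@Lb.d (nat_lit 1) (nat_lit 258) (nat_lit 2) (@Lb.g g8 (@Lb.g g9 (@Lb.g g10 (@Lb.r r1689 (@Lb.r r2579 (@Lb.r r2440 (@Lb.r r74 (@Lb.d (nat_lit 40) (nat_lit 4) (nat_lit 394) (@Lb.t (@Lb.fm (nat_lit 9) t7440))))))))))))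
noncomputable def l43050 : Lb := (@Lb.d (nat_lit 1) (nat_lit 514) (nat_lit 66) (@Lb.g g8 (@Lb.g g9 (@Lb.g g10 (@Lb.g g11 (@Lb.r r535 (@Lb.r r1432 (@Lb.r r106 (@Lb.r r97 (@Lb.d (nat_lit 533) (nat_lit 101) (nat_lit 641) (@Lb.fm (nat_lit 9) t1040)))))))))))
noncomputable def l43051 : Lb := (@Lb.d (nat_lit 38) (nat_lit 4) (nat_lit 74) (@Lb.g g8 (@Lb.g g9 (@Lb.g g10 (@Lb.g g11 (@Lb.r r610 (@Lb.r r579 (@Lb.r r40 (@Lb.r r1321 (@Lb.r r2084 (@Lb.d (nat_lit 9) (nat_lit 66) (nat_lit 586) (@Lb.fm (nat_lit 9) t3094))))))))))))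
noncomputable def l43052 : Lb := (@Lb.r r70 (@Lb.d (nat_lit 4) (nat_lit 2) (nat_lit 0) (@Lb.g g8 (@Lb.g g9 (@Lb.r r1643 (@Lb.r r1410 (@Lb.r r2385 (@Lb.r r612 (@Lb.d (nat_lit 265) (nat_lit 161) (nat_lit 128) (@Lb.fm (nat_lit 3) t2697))))))))))
noncomputable def l43053 : Lb := (@Lb.r r70 (@Lb.d (nat_lit 10) (nat_lit 256) (nat_lit 0) (@Lb.g g8 (@Lb.g g9 (@Lb.r r1627 (@Lb.r r1410 (@Lb.r r2385 (@Lb.r r1300 (@Lb.d (nat_lit 677) (nat_lit 82) (nat_lit 530) (@Lb.fm (nat_lit 3) t2697))))))))))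
noncomputable def l43054 : Lb := (@Lb.d (nat_lit 6) (nat_lit 288) (nat_lit 64) (@Lb.g g8 (@Lb.g g11 (@Lb.r r2337 (@Lb.r r2395 (@Lb.r r2178 (@Lb.d (nat_lit 26) (nat_lit 90) (nat_lit 256) (@Lb.fm (nat_lit 3) t64))))))))
noncomputable def l43055 : Lb := (@Lb.d (nat_lit 1) (nat_lit 258) (nat_lit 64) (@Lb.g g8 (@Lb.g g9 (@Lb.g g11 (@Lb.r r535 (@Lb.r r2581 (@Lb.r r2408 (@Lb.r r2150 (@Lb.d (nat_lit 5) (nat_lit 41) (nat_lit 641) (@Lb.t (@Lb.fm (nat_lit 9) t1040)))))))))))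
noncomputable def l43056 : Lb := (@Lb.r r323 (@Lb.d (nat_lit 40) (nat_lit 258) (nat_lit 2) (@Lb.g g9 (@Lb.g g10 (@Lb.r r584 (@Lb.r r299 (@Lb.r r1425 (@Lb.d (nat_lit 294) (nat_lit 4) (nat_lit 138) (@Lb.fp (nat_lit 3) t410)))))))))
noncomputable def l43057 : Lb := (@Lb.r r82 (@Lb.d (nat_lit 0) (nat_lit 32) (nat_lit 64) (@Lb.g g8 (@Lb.g g9 (@Lb.g g11 (@Lb.r r611 (@Lb.r r386 (@Lb.r r424 (@Lb.r r345 (@Lb.d (nat_lit 337) (nat_lit 70) (nat_lit 345) (@Lb.t (@Lb.fp (nat_lit 9) t1234))))))))))))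
noncomputable def l43058 : Lb := (@Lb.g g8 (@Lb.r r289 (@Lb.r r535 (@Lb.r r356 (@Lb.r r154 (@Lb.d (nat_lit 613) (nat_lit 256) (nat_lit 528) (@Lb.t (@Lb.fm (nat_lit 3) t1641))))))))
noncomputable def l43059 : Lb := (@Lb.d (nat_lit 128) (nat_lit 258) (nat_lit 128) (@Lb.g g8 (@Lb.g g9 (@Lb.g g11 (@Lb.r r280 (@Lb.r r549 (@Lb.r r295 (@Lb.r r2178 (@Lb.r r1540 (@Lb.d (nat_lit 266) (nat_lit 137) (nat_lit 514) (@Lb.t (@Lb.fp (nat_lit 9) t6996))))))))))))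
noncomputable def l43060 : Lb := (@Lb.d (nat_lit 18) (nat_lit 266) (nat_lit 0) (@Lb.r r81 (@Lb.r r86 (@Lb.r r2391 (@Lb.g g6 (@Lb.g g5 (@Lb.g g4 (@Lb.d (nat_lit 258) (nat_lit 8) (nat_lit 2) (@Lb.r r391 (@Lb.t (@Lb.fp (nat_lit 9) t2389)))))))))))
noncomputable def l43061 : Lb := (@Lb.d (nat_lit 2) (nat_lit 2) (nat_lit 66) (@Lb.g g8 (@Lb.g g9 (@Lb.g g10 (@Lb.g g7 (@Lb.r r386 (@Lb.r r100 (@Lb.r r21 (@Lb.r r36 (@Lb.d (nat_lit 32) (nat_lit 90) (nat_lit 329) (@Lb.fp (nat_lit 9) t2432)))))))))))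
noncomputable def l43062 : Lb := (@Lb.d (nat_lit 645) (nat_lit 266) (nat_lit 129) (@Lb.g g4 (@Lb.g g9 (@Lb.g g10 (@Lb.g g11 (@Lb.r r2214 (@Lb.r r545 (@Lb.r r611 (@Lb.r r2577 (@Lb.d (nat_lit 144) (nat_lit 72) (nat_lit 361) (@Lb.fp (nat_lit 9) t5199)))))))))))
noncomputable def l43063 : Lb := (@Lb.d (nat_lit 4) (nat_lit 512) (nat_lit 10) (@Lb.g g8 (@Lb.g g9 (@Lb.g g10 (@Lb.r r1572 (@Lb.r r1319 (@Lb.r r1425 (@Lb.r r2138 (@Lb.d (nat_lit 298) (nat_lit 4) (nat_lit 1) (@Lb.t (@Lb.fm (nat_lit 9) t5592)))))))))))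
noncomputable def l43064 : Lb := (@Lb.r r70 (@Lb.d (nat_lit 34) (nat_lit 514) (nat_lit 0) (@Lb.g g8 (@Lb.g g9 (@Lb.r r2390 (@Lb.r r2705 (@Lb.r r2455 (@Lb.r r548 (@Lb.d (nat_lit 674) (nat_lit 161) (nat_lit 416) (@Lb.fm (nat_lit 3) t2480))))))))))
noncomputable def l43065 : Lb := (@Lb.d (nat_lit 130) (nat_lit 2) (nat_lit 130) (@Lb.g g8 (@Lb.g g9 (@Lb.g g10 (@Lb.g g11 (@Lb.r r292 (@Lb.r r651 (@Lb.r r1634 (@Lb.r r2069 (@Lb.r r1060 (@Lb.d (nat_lit 609) (nat_lit 137) (nat_lit 40) (@Lb.fm (nat_lit 9) t3632))))))))))))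
noncomputable def l43066 : Lb := (@Lb.d (nat_lit 401) (nat_lit 618) (nat_lit 585) (@Lb.r r1705 (@Lb.r r1640 (@Lb.r r323 (@Lb.g g7 (@Lb.g g6 (@Lb.g g5 (@Lb.g g4 (@Lb.d (nat_lit 8) (nat_lit 2) (nat_lit 24) (@Lb.fp (nat_lit 9) t2078))))))))))
noncomputable def l43067 : Lb := (@Lb.d (nat_lit 2) (nat_lit 82) (nat_lit 576) (@Lb.r r2145 (@Lb.r r359 (@Lb.r r660 (@Lb.r r150 (@Lb.g g7 (@Lb.g g4 (@Lb.d (nat_lit 17) (nat_lit 0) (nat_lit 68) (@Lb.fm (nat_lit 3) t4547)))))))))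
noncomputable def l43068 : Lb := (@Lb.d (nat_lit 641) (nat_lit 290) (nat_lit 0) (@Lb.g g4 (@Lb.g g9 (@Lb.r r275 (@Lb.r r2178 (@Lb.r r2593 (@Lb.d (nat_lit 288) (nat_lit 18) (nat_lit 34) (@Lb.fp (nat_lit 3) t5796))))))))
noncomputable def l43069 : Lb := (@Lb.r r21 (@Lb.d (nat_lit 18) (nat_lit 0) (nat_lit 0) (@Lb.g g8 (@Lb.g g10 (@Lb.r r1691 (@Lb.r r1381 (@Lb.r r2202 (@Lb.r r1172 (@Lb.d (nat_lit 85) (nat_lit 10) (nat_lit 577) (@Lb.fp (nat_lit 3) t7441))))))))))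
noncomputable def l43070 : Lb := (@Lb.d (nat_lit 132) (nat_lit 258) (nat_lit 66) (@Lb.g g8 (@Lb.g g9 (@Lb.g g10 (@Lb.g g11 (@Lb.r r618 (@Lb.r r612 (@Lb.r r1319 (@Lb.r r405 (@Lb.r r36 (@Lb.d (nat_lit 104) (nat_lit 132) (nat_lit 408) (@Lb.fp (nat_lit 9) t7442))))))))))))
noncomputable def l43071 : Lb := (@Lb.r r21 (@Lb.r r70 (@Lb.d (nat_lit 384) (nat_lit 32) (nat_lit 128) (@Lb.g g4 (@Lb.g g11 (@Lb.r r2329 (@Lb.r r1383 (@Lb.r r2634 (@Lb.d (nat_lit 512) (nat_lit 136) (nat_lit 84) (@Lb.fp (nat_lit 3) t7443))))))))))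
noncomputable def l43072 : Lb := (@Lb.r r322 (@Lb.d (nat_lit 34) (nat_lit 514) (nat_lit 576) (@Lb.g g8 (@Lb.g g9 (@Lb.g g7 (@Lb.r r582 (@Lb.r r97 (@Lb.r r1672 (@Lb.d (nat_lit 385) (nat_lit 128) (nat_lit 597) (@Lb.t (@Lb.fp (nat_lit 9) t1013)))))))))))
noncomputable def l43073 : Lb := (@Lb.r r323 (@Lb.d (nat_lit 2) (nat_lit 32) (nat_lit 1) (@Lb.g g8 (@Lb.g g9 (@Lb.g g10 (@Lb.r r1444 (@Lb.r r2331 (@Lb.r r1637 (@Lb.d (nat_lit 680) (nat_lit 149) (nat_lit 529) (@Lb.t (@Lb.fp (nat_lit 9) t307)))))))))))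
noncomputable def l43074 : Lb := (@Lb.d (nat_lit 580) (nat_lit 641) (nat_lit 42) (@Lb.r r1540 (@Lb.r r2178 (@Lb.r r1447 (@Lb.r r2453 (@Lb.g g8 (@Lb.d (nat_lit 65) (nat_lit 0) (nat_lit 0) (@Lb.t (@Lb.fm (nat_lit 3) t32)))))))))
noncomputable def l43075 : Lb := (@Lb.r r82 (@Lb.d (nat_lit 34) (nat_lit 258) (nat_lit 0) (@Lb.g g8 (@Lb.g g9 (@Lb.r r1571 (@Lb.r r582 (@Lb.r r2577 (@Lb.r r2180 (@Lb.d (nat_lit 548) (nat_lit 145) (nat_lit 594) (@Lb.fp (nat_lit 3) t428))))))))))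
noncomputable def l43076 : Lb := (@Lb.d (nat_lit 134) (nat_lit 10) (nat_lit 129) (@Lb.g g8 (@Lb.g g9 (@Lb.g g10 (@Lb.g g11 (@Lb.r r342 (@Lb.r r663 (@Lb.r r2657 (@Lb.r r2584 (@Lb.d (nat_lit 162) (nat_lit 10) (nat_lit 517) (@Lb.fm (nat_lit 9) t7107)))))))))))
noncomputable def l43077 : Lb := (@Lb.d (nat_lit 2) (nat_lit 290) (nat_lit 130) (@Lb.g g8 (@Lb.g g9 (@Lb.g g10 (@Lb.g g11 (@Lb.r r2658 (@Lb.r r1060 (@Lb.r r2661 (@Lb.r r1315 (@Lb.d (nat_lit 409) (nat_lit 161) (nat_lit 400) (@Lb.fm (nat_lit 9) t1606)))))))))))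
noncomputable def l43078 : Lb := (@Lb.r r323 (@Lb.d (nat_lit 40) (nat_lit 514) (nat_lit 2) (@Lb.g g9 (@Lb.g g10 (@Lb.r r584 (@Lb.r r299 (@Lb.r r1425 (@Lb.d (nat_lit 292) (nat_lit 9) (nat_lit 129) (@Lb.fp (nat_lit 3) t500)))))))))
noncomputable def l43079 : Lb := (@Lb.d (nat_lit 610) (nat_lit 145) (nat_lit 164) (@Lb.r r1361 (@Lb.r r419 (@Lb.r r1382 (@Lb.r r152 (@Lb.g g7 (@Lb.g g5 (@Lb.d (nat_lit 68) (nat_lit 0) (nat_lit 128) (@Lb.fp (nat_lit 3) t3626)))))))))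
noncomputable def l43080 : Lb := (@Lb.r r331 (@Lb.d (nat_lit 1) (nat_lit 2) (nat_lit 0) (@Lb.g g8 (@Lb.g g9 (@Lb.g g10 (@Lb.r r2459 (@Lb.r r1177 (@Lb.r r1626 (@Lb.r r2072 (@Lb.d (nat_lit 534) (nat_lit 72) (nat_lit 153) (@Lb.t (@Lb.fp (nat_lit 9) t212))))))))))))
noncomputable def l43081 : Lb := (@Lb.d (nat_lit 33) (nat_lit 265) (nat_lit 136) (@Lb.g g8 (@Lb.g g9 (@Lb.g g11 (@Lb.r r1106 (@Lb.r r149 (@Lb.r r2340 (@Lb.r r1291 (@Lb.d (nat_lit 0) (nat_lit 34) (nat_lit 25) (@Lb.t (@Lb.fm (nat_lit 9) t322)))))))))))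
noncomputable def l43082 : Lb := (@Lb.d (nat_lit 532) (nat_lit 518) (nat_lit 166) (@Lb.r r24 (@Lb.r r97 (@Lb.r r2474 (@Lb.r r1559 (@Lb.g g7 (@Lb.g g6 (@Lb.g g5 (@Lb.d (nat_lit 0) (nat_lit 1) (nat_lit 134) (@Lb.t (@Lb.fp (nat_lit 9) t1884)))))))))))
noncomputable def l43083 : Lb := (@Lb.d (nat_lit 529) (nat_lit 1) (nat_lit 134) (@Lb.r r68 (@Lb.r r90 (@Lb.r r596 (@Lb.r r1367 (@Lb.g g7 (@Lb.g g6 (@Lb.g g5 (@Lb.g g4 (@Lb.d (nat_lit 1) (nat_lit 129) (nat_lit 65) (@Lb.fp (nat_lit 9) t242)))))))))))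
noncomputable def l43084 : Lb := (@Lb.d (nat_lit 293) (nat_lit 88) (nat_lit 64) (@Lb.r r2148 (@Lb.r r386 (@Lb.r r339 (@Lb.g g7 (@Lb.g g6 (@Lb.g g5 (@Lb.d (nat_lit 4) (nat_lit 1) (nat_lit 65) (@Lb.t (@Lb.fm (nat_lit 9) t7444))))))))))
noncomputable def l43085 : Lb := (@Lb.d (nat_lit 293) (nat_lit 600) (nat_lit 133) (@Lb.r r2148 (@Lb.r r386 (@Lb.r r339 (@Lb.g g7 (@Lb.g g6 (@Lb.g g5 (@Lb.d (nat_lit 4) (nat_lit 1) (nat_lit 65) (@Lb.t (@Lb.fm (nat_lit 9) t7444))))))))))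
noncomputable def l43086 : Lb := (@Lb.d (nat_lit 1) (nat_lit 25) (nat_lit 2) (@Lb.g g8 (@Lb.g g9 (@Lb.g g10 (@Lb.g g11 (@Lb.r r2698 (@Lb.r r660 (@Lb.r r535 (@Lb.r r1321 (@Lb.r r1060 (@Lb.d (nat_lit 642) (nat_lit 33) (nat_lit 10) (@Lb.fm (nat_lit 9) t1185))))))))))))
noncomputable def l43087 : Lb := (@Lb.d (nat_lit 9) (nat_lit 512) (nat_lit 137) (@Lb.g g8 (@Lb.g g10 (@Lb.g g11 (@Lb.r r2691 (@Lb.r r1681 (@Lb.r r1178 (@Lb.r r2436 (@Lb.d (nat_lit 548) (nat_lit 161) (nat_lit 154) (@Lb.t (@Lb.fm (nat_lit 9) t521)))))))))))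
noncomputable def l43088 : Lb := (@Lb.r r275 (@Lb.d (nat_lit 9) (nat_lit 520) (nat_lit 1) (@Lb.g g8 (@Lb.g g5 (@Lb.g g10 (@Lb.r r2563 (@Lb.r r2458 (@Lb.r r2436 (@Lb.d (nat_lit 105) (nat_lit 80) (nat_lit 538) (@Lb.t (@Lb.fp (nat_lit 9) t4672)))))))))))
noncomputable def l43089 : Lb := (@Lb.d (nat_lit 144) (nat_lit 521) (nat_lit 130) (@Lb.g g8 (@Lb.g g9 (@Lb.g g10 (@Lb.g g11 (@Lb.r r1666 (@Lb.r r1431 (@Lb.r r97 (@Lb.r r536 (@Lb.d (nat_lit 98) (nat_lit 42) (nat_lit 129) (@Lb.fm (nat_lit 9) t1157)))))))))))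
noncomputable def l43090 : Lb := (@Lb.d (nat_lit 2) (nat_lit 0) (nat_lit 64) (@Lb.g g8 (@Lb.g g11 (@Lb.r r337 (@Lb.r r2603 (@Lb.r r1414 (@Lb.r r2600 (@Lb.r r153 (@Lb.d (nat_lit 1) (nat_lit 24) (nat_lit 297) (@Lb.fp (nat_lit 3) t591))))))))))
noncomputable def l43091 : Lb := (@Lb.r r21 (@Lb.d (nat_lit 33) (nat_lit 520) (nat_lit 2) (@Lb.g g8 (@Lb.g g10 (@Lb.g g7 (@Lb.r r97 (@Lb.r r36 (@Lb.d (nat_lit 6) (nat_lit 1) (nat_lit 2) (@Lb.t (@Lb.fm (nat_lit 9) t30))))))))))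
noncomputable def l43092 : Lb := (@Lb.d (nat_lit 0) (nat_lit 256) (nat_lit 2) (@Lb.g g10 (@Lb.r r2193 (@Lb.r r146 (@Lb.d (nat_lit 0) (nat_lit 42) (nat_lit 294) (@Lb.t (@Lb.fm (nat_lit 3) t5010)))))))
noncomputable def l43093 : Lb := (@Lb.d (nat_lit 74) (nat_lit 529) (nat_lit 420) (@Lb.r r296 (@Lb.r r535 (@Lb.r r1385 (@Lb.g g10 (@Lb.g g5 (@Lb.g g4 (@Lb.d (nat_lit 89) (nat_lit 1) (nat_lit 6) (@Lb.t (@Lb.fp (nat_lit 9) t4637))))))))))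
noncomputable def l43094 : Lb := (@Lb.d (nat_lit 104) (nat_lit 33) (nat_lit 9) (@Lb.g g8 (@Lb.g g9 (@Lb.g g10 (@Lb.g g11 (@Lb.r r1643 (@Lb.r r1194 (@Lb.r r337 (@Lb.r r660 (@Lb.d (nat_lit 70) (nat_lit 164) (nat_lit 280) (@Lb.fp (nat_lit 9) t6366)))))))))))
noncomputable def l43095 : Lb := (@Lb.d (nat_lit 0) (nat_lit 514) (nat_lit 66) (@Lb.g g9 (@Lb.g g10 (@Lb.g g7 (@Lb.r r417 (@Lb.r r98 (@Lb.r r24 (@Lb.d (nat_lit 8) (nat_lit 72) (nat_lit 322) (@Lb.t (@Lb.fp (nat_lit 9) t6040))))))))))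
noncomputable def l43096 : Lb := (@Lb.d (nat_lit 128) (nat_lit 520) (nat_lit 258) (@Lb.g g10 (@Lb.g g7 (@Lb.r r101 (@Lb.d (nat_lit 73) (nat_lit 0) (nat_lit 578) (@Lb.fm (nat_lit 3) t6620))))))
noncomputable def l43097 : Lb := (@Lb.d (nat_lit 74) (nat_lit 529) (nat_lit 420) (@Lb.r r296 (@Lb.r r535 (@Lb.r r1385 (@Lb.g g10 (@Lb.g g5 (@Lb.g g4 (@Lb.d (nat_lit 82) (nat_lit 9) (nat_lit 5) (@Lb.t (@Lb.fp (nat_lit 9) t4637))))))))))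
noncomputable def l43098 : Lb := (@Lb.d (nat_lit 41) (nat_lit 256) (nat_lit 0) (@Lb.g g8 (@Lb.r r1173 (@Lb.r r150 (@Lb.r r356 (@Lb.r r1291 (@Lb.d (nat_lit 5) (nat_lit 42) (nat_lit 150) (@Lb.t (@Lb.fm (nat_lit 3) t748)))))))))
noncomputable def l43099 : Lb := (@Lb.d (nat_lit 32) (nat_lit 256) (nat_lit 64) (@Lb.g g8 (@Lb.g g11 (@Lb.r r1687 (@Lb.r r598 (@Lb.r r2457 (@Lb.r r408 (@Lb.d (nat_lit 666) (nat_lit 16) (nat_lit 169) (@Lb.fm (nat_lit 3) t386)))))))))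
noncomputable def l43100 : Lb := (@Lb.r r21 (@Lb.r r70 (@Lb.d (nat_lit 130) (nat_lit 512) (nat_lit 0) (@Lb.g g8 (@Lb.r r74 (@Lb.r r25 (@Lb.d (nat_lit 72) (nat_lit 2) (nat_lit 0) (@Lb.t (@Lb.fp (nat_lit 3) t3467)))))))))
noncomputable def l43101 : Lb := (@Lb.d (nat_lit 160) (nat_lit 8) (nat_lit 258) (@Lb.g g6 (@Lb.g g7 (@Lb.r r680 (@Lb.r r2729 (@Lb.r r1706 (@Lb.d (nat_lit 362) (nat_lit 136) (nat_lit 25) (@Lb.fp (nat_lit 3) t1818))))))))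
noncomputable def l43102 : Lb := (@Lb.d (nat_lit 4) (nat_lit 32) (nat_lit 64) (@Lb.g g8 (@Lb.g g11 (@Lb.r r1634 (@Lb.r r401 (@Lb.r r2659 (@Lb.d (nat_lit 322) (nat_lit 21) (nat_lit 297) (@Lb.fp (nat_lit 3) t242))))))))
noncomputable def l43103 : Lb := (@Lb.r r1126 (@Lb.r r24 (@Lb.d (nat_lit 584) (nat_lit 322) (nat_lit 512) (@Lb.fm (nat_lit 1) t282))))
noncomputable def l43104 : Lb := (@Lb.r r70 (@Lb.d (nat_lit 161) (nat_lit 260) (nat_lit 64) (@Lb.g g8 (@Lb.g g5 (@Lb.g g11 (@Lb.r r1563 (@Lb.r r2438 (@Lb.r r2648 (@Lb.d (nat_lit 649) (nat_lit 164) (nat_lit 152) (@Lb.t (@Lb.fm (nat_lit 9) t50)))))))))))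
noncomputable def l43105 : Lb := (@Lb.r r1126 (@Lb.r r101 (@Lb.d (nat_lit 261) (nat_lit 385) (nat_lit 0) (@Lb.fm (nat_lit 1) t2098))))
noncomputable def l43106 : Lb := (@Lb.d (nat_lit 1) (nat_lit 322) (nat_lit 64) (@Lb.g g4 (@Lb.g g9 (@Lb.g g10 (@Lb.g g11 (@Lb.r r1315 (@Lb.r r2626 (@Lb.d (nat_lit 1) (nat_lit 97) (nat_lit 640) (@Lb.fm (nat_lit 9) t51)))))))))
noncomputable def l43107 : Lb := (@Lb.d (nat_lit 0) (nat_lit 0) (nat_lit 4) (@Lb.g g9 (@Lb.g g10 (@Lb.g g11 (@Lb.r r2691 (@Lb.r r1441 (@Lb.r r1130 (@Lb.r r1096 (@Lb.d (nat_lit 266) (nat_lit 2) (nat_lit 384) (@Lb.t (@Lb.fp (nat_lit 9) t807)))))))))))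
noncomputable def l43108 : Lb := (@Lb.d (nat_lit 544) (nat_lit 0) (nat_lit 69) (@Lb.r r152 (@Lb.r r386 (@Lb.r r2587 (@Lb.r r1381 (@Lb.g g7 (@Lb.g g6 (@Lb.d (nat_lit 0) (nat_lit 0) (nat_lit 65) (@Lb.fm (nat_lit 3) t531)))))))))
noncomputable def l43109 : Lb := (@Lb.d (nat_lit 276) (nat_lit 261) (nat_lit 133) (@Lb.r r88 (@Lb.r r2650 (@Lb.r r1445 (@Lb.g g7 (@Lb.g g4 (@Lb.d (nat_lit 4) (nat_lit 32) (nat_lit 68) (@Lb.r r578 (@Lb.fm (nat_lit 3) t531)))))))))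
noncomputable def l43110 : Lb := (@Lb.d (nat_lit 129) (nat_lit 0) (nat_lit 128) (@Lb.g g8 (@Lb.g g9 (@Lb.g g11 (@Lb.r r264 (@Lb.r r2311 (@Lb.r r2564 (@Lb.d (nat_lit 640) (nat_lit 0) (nat_lit 256) (@Lb.t (@Lb.fp (nat_lit 9) t4219))))))))))
noncomputable def l43111 : Lb := (@Lb.d (nat_lit 106) (nat_lit 169) (nat_lit 105) (@Lb.r r2475 (@Lb.r r1446 (@Lb.r r2469 (@Lb.r r596 (@Lb.g g7 (@Lb.d (nat_lit 64) (nat_lit 16) (nat_lit 68) (@Lb.t (@Lb.fm (nat_lit 3) t1952)))))))))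
noncomputable def l43112 : Lb := (@Lb.r r21 (@Lb.d (nat_lit 145) (nat_lit 256) (nat_lit 128) (@Lb.g g8 (@Lb.g g10 (@Lb.g g11 (@Lb.r r387 (@Lb.r r2710 (@Lb.r r97 (@Lb.r r516 (@Lb.d (nat_lit 4) (nat_lit 130) (nat_lit 640) (@Lb.t (@Lb.fm (nat_lit 9) t1156))))))))))))
noncomputable def l43113 : Lb := (@Lb.d (nat_lit 137) (nat_lit 256) (nat_lit 130) (@Lb.g g8 (@Lb.g g10 (@Lb.g g11 (@Lb.r r293 (@Lb.r r1435 (@Lb.r r386 (@Lb.r r88 (@Lb.d (nat_lit 548) (nat_lit 134) (nat_lit 536) (@Lb.t (@Lb.fp (nat_lit 9) t7445)))))))))))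
noncomputable def l43114 : Lb := (@Lb.d (nat_lit 0) (nat_lit 512) (nat_lit 66) (@Lb.g g8 (@Lb.g g10 (@Lb.g g11 (@Lb.r r419 (@Lb.r r386 (@Lb.d (nat_lit 0) (nat_lit 105) (nat_lit 145) (@Lb.t (@Lb.fp (nat_lit 9) t356)))))))))
noncomputable def l43115 : Lb := (@Lb.r r326 (@Lb.d (nat_lit 73) (nat_lit 289) (nat_lit 644) (@Lb.g g8 (@Lb.g g9 (@Lb.g g7 (@Lb.r r418 (@Lb.r r1065 (@Lb.r r596 (@Lb.d (nat_lit 361) (nat_lit 90) (nat_lit 420) (@Lb.t (@Lb.fp (nat_lit 9) t6309)))))))))))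
noncomputable def l43116 : Lb := (@Lb.d (nat_lit 644) (nat_lit 538) (nat_lit 129) (@Lb.g g8 (@Lb.g g9 (@Lb.g g10 (@Lb.g g11 (@Lb.r r2731 (@Lb.r r1194 (@Lb.r r2201 (@Lb.d (nat_lit 72) (nat_lit 72) (nat_lit 393) (@Lb.fp (nat_lit 9) t7446))))))))))
noncomputable def l43117 : Lb := (@Lb.d (nat_lit 426) (nat_lit 69) (nat_lit 272) (@Lb.r r2149 (@Lb.r r2659 (@Lb.g g10 (@Lb.g g5 (@Lb.g g8 (@Lb.d (nat_lit 513) (nat_lit 4) (nat_lit 34) (@Lb.r r411 (@Lb.t (@Lb.fp (nat_lit 9) t7447))))))))))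
noncomputable def l43118 : Lb := (@Lb.d (nat_lit 144) (nat_lit 521) (nat_lit 132) (@Lb.g g8 (@Lb.g g9 (@Lb.g g10 (@Lb.g g11 (@Lb.r r1706 (@Lb.r r2201 (@Lb.r r2328 (@Lb.r r519 (@Lb.d (nat_lit 641) (nat_lit 33) (nat_lit 298) (@Lb.fm (nat_lit 9) t2408)))))))))))
noncomputable def l43119 : Lb := (@Lb.d (nat_lit 138) (nat_lit 352) (nat_lit 128) (@Lb.r r1048 (@Lb.r r2145 (@Lb.r r2386 (@Lb.g g7 (@Lb.g g6 (@Lb.g g4 (@Lb.d (nat_lit 96) (nat_lit 0) (nat_lit 577) (@Lb.t (@Lb.fp (nat_lit 9) t7446))))))))))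
noncomputable def l43120 : Lb := (@Lb.r r1291 (@Lb.d (nat_lit 386) (nat_lit 0) (nat_lit 0) (@Lb.g g8 (@Lb.g g5 (@Lb.d (nat_lit 5) (nat_lit 1) (nat_lit 384) (@Lb.fp (nat_lit 3) t7448))))))
noncomputable def l43121 : Lb := (@Lb.d (nat_lit 6) (nat_lit 264) (nat_lit 130) (@Lb.g g4 (@Lb.g g10 (@Lb.g g11 (@Lb.r r387 (@Lb.r r101 (@Lb.d (nat_lit 24) (nat_lit 133) (nat_lit 32) (@Lb.t (@Lb.fm (nat_lit 9) t232)))))))))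
noncomputable def l43122 : Lb := (@Lb.r r277 (@Lb.r r326 (@Lb.d (nat_lit 160) (nat_lit 256) (nat_lit 0) (@Lb.g g8 (@Lb.g g11 (@Lb.r r326 (@Lb.r r2707 (@Lb.r r289 (@Lb.d (nat_lit 2) (nat_lit 137) (nat_lit 144) (@Lb.fm (nat_lit 3) t7449))))))))))
noncomputable def l43123 : Lb := (@Lb.d (nat_lit 0) (nat_lit 289) (nat_lit 66) (@Lb.g g8 (@Lb.g g9 (@Lb.g g10 (@Lb.g g11 (@Lb.r r2666 (@Lb.r r612 (@Lb.r r1287 (@Lb.r r2577 (@Lb.r r2084 (@Lb.d (nat_lit 384) (nat_lit 9) (nat_lit 258) (@Lb.fp (nat_lit 9) t1702))))))))))))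
noncomputable def l43124 : Lb := (@Lb.d (nat_lit 2) (nat_lit 533) (nat_lit 586) (@Lb.g g8 (@Lb.g g9 (@Lb.g g10 (@Lb.g g7 (@Lb.r r1622 (@Lb.r r341 (@Lb.r r24 (@Lb.d (nat_lit 17) (nat_lit 41) (nat_lit 357) (@Lb.fp (nat_lit 9) t378))))))))))
noncomputable def l43125 : Lb := (@Lb.d (nat_lit 9) (nat_lit 512) (nat_lit 73) (@Lb.g g8 (@Lb.g g10 (@Lb.g g11 (@Lb.r r1381 (@Lb.r r1691 (@Lb.r r1178 (@Lb.r r2584 (@Lb.d (nat_lit 280) (nat_lit 2) (nat_lit 544) (@Lb.t (@Lb.fm (nat_lit 9) t521)))))))))))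
noncomputable def l43126 : Lb := (@Lb.d (nat_lit 10) (nat_lit 256) (nat_lit 73) (@Lb.g g8 (@Lb.g g10 (@Lb.g g11 (@Lb.r r289 (@Lb.r r279 (@Lb.r r2696 (@Lb.r r2122 (@Lb.d (nat_lit 276) (nat_lit 74) (nat_lit 6) (@Lb.t (@Lb.fm (nat_lit 9) t427)))))))))))
noncomputable def l43127 : Lb := (@Lb.d (nat_lit 6) (nat_lit 522) (nat_lit 1) (@Lb.g g8 (@Lb.g g9 (@Lb.g g10 (@Lb.r r2455 (@Lb.r r617 (@Lb.r r2650 (@Lb.r r2628 (@Lb.d (nat_lit 648) (nat_lit 65) (nat_lit 409) (@Lb.t (@Lb.fp (nat_lit 9) t5155)))))))))))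
noncomputable def l43128 : Lb := (@Lb.d (nat_lit 1) (nat_lit 34) (nat_lit 2) (@Lb.g g8 (@Lb.g g9 (@Lb.g g10 (@Lb.r r1194 (@Lb.r r2468 (@Lb.r r1307 (@Lb.r r1573 (@Lb.d (nat_lit 389) (nat_lit 16) (nat_lit 517) (@Lb.t (@Lb.fm (nat_lit 9) t284)))))))))))
noncomputable def l43129 : Lb := (@Lb.d (nat_lit 129) (nat_lit 521) (nat_lit 129) (@Lb.g g8 (@Lb.g g9 (@Lb.g g10 (@Lb.g g11 (@Lb.r r342 (@Lb.r r663 (@Lb.r r2657 (@Lb.r r2584 (@Lb.d (nat_lit 169) (nat_lit 9) (nat_lit 517) (@Lb.fm (nat_lit 9) t5154)))))))))))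
noncomputable def l43130 : Lb := (@Lb.d (nat_lit 0) (nat_lit 512) (nat_lit 256) (@Lb.r r2132 (@Lb.r r1642 (@Lb.r r2665 (@Lb.r r616 (@Lb.g g11 (@Lb.t (@Lb.fp (nat_lit 3) t3574))))))))
noncomputable def l43131 : Lb := (@Lb.d (nat_lit 2) (nat_lit 514) (nat_lit 66) (@Lb.g g8 (@Lb.g g9 (@Lb.g g10 (@Lb.g g11 (@Lb.r r610 (@Lb.r r1607 (@Lb.r r292 (@Lb.r r1045 (@Lb.r r2084 (@Lb.d (nat_lit 9) (nat_lit 168) (nat_lit 642) (@Lb.fm (nat_lit 9) t2815))))))))))))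
noncomputable def l43132 : Lb := (@Lb.r r532 (@Lb.r r82 (@Lb.d (nat_lit 8) (nat_lit 320) (nat_lit 384) (@Lb.g g9 (@Lb.g g11 (@Lb.r r1112 (@Lb.r r2438 (@Lb.d (nat_lit 0) (nat_lit 2) (nat_lit 613) (@Lb.fm (nat_lit 3) t1816)))))))))
noncomputable def l43133 : Lb := (@Lb.d (nat_lit 0) (nat_lit 256) (nat_lit 256) (@Lb.r r97 (@Lb.r r2454 (@Lb.r r2628 (@Lb.g g11 (@Lb.g g8 (@Lb.r r74 (@Lb.r r25 (@Lb.fm (nat_lit 3) t6400)))))))))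
noncomputable def l43134 : Lb := (@Lb.r r82 (@Lb.d (nat_lit 6) (nat_lit 1) (nat_lit 0) (@Lb.g g4 (@Lb.g g9 (@Lb.g g7 (@Lb.r r2122 (@Lb.r r1065 (@Lb.d (nat_lit 266) (nat_lit 130) (nat_lit 0) (@Lb.t (@Lb.fp (nat_lit 9) t1221))))))))))
noncomputable def l43135 : Lb := (@Lb.r r82 (@Lb.d (nat_lit 6) (nat_lit 256) (nat_lit 0) (@Lb.g g4 (@Lb.g g9 (@Lb.r r2122 (@Lb.r r1061 (@Lb.d (nat_lit 1) (nat_lit 130) (nat_lit 0) (@Lb.fm (nat_lit 3) t1221))))))))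
noncomputable def l43136 : Lb := (@Lb.r r532 (@Lb.r r82 (@Lb.d (nat_lit 8) (nat_lit 64) (nat_lit 384) (@Lb.g g9 (@Lb.g g11 (@Lb.r r1112 (@Lb.r r2438 (@Lb.d (nat_lit 5) (nat_lit 0) (nat_lit 613) (@Lb.fm (nat_lit 3) t3511)))))))))
noncomputable def l43137 : Lb := (@Lb.d (nat_lit 4) (nat_lit 512) (nat_lit 66) (@Lb.g g8 (@Lb.g g9 (@Lb.g g10 (@Lb.g g11 (@Lb.r r1316 (@Lb.r r2587 (@Lb.r r2469 (@Lb.r r98 (@Lb.d (nat_lit 105) (nat_lit 73) (nat_lit 528) (@Lb.fp (nat_lit 9) t3145)))))))))))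
noncomputable def l43138 : Lb := (@Lb.r r20 (@Lb.d (nat_lit 8) (nat_lit 34) (nat_lit 130) (@Lb.g g9 (@Lb.g g10 (@Lb.g g11 (@Lb.r r1560 (@Lb.r r1419 (@Lb.r r386 (@Lb.d (nat_lit 98) (nat_lit 65) (nat_lit 282) (@Lb.t (@Lb.fm (nat_lit 9) t7450)))))))))))
noncomputable def l43139 : Lb := (@Lb.r r1291 (@Lb.r r101 (@Lb.r r402 (@Lb.d (nat_lit 289) (nat_lit 512) (nat_lit 258) (@Lb.fp (nat_lit 1) t5432)))))
noncomputable def l43140 : Lb := (@Lb.r r21 (@Lb.d (nat_lit 646) (nat_lit 512) (nat_lit 2) (@Lb.g g8 (@Lb.g g10 (@Lb.r r599 (@Lb.r r106 (@Lb.r r97 (@Lb.d (nat_lit 21) (nat_lit 8) (nat_lit 528) (@Lb.fm (nat_lit 3) t7451)))))))))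
noncomputable def l43141 : Lb := (@Lb.r r1114 (@Lb.r r1369 (@Lb.r r2411 (@Lb.r r1124 (@Lb.d (nat_lit 521) (nat_lit 386) (nat_lit 256) (@Lb.fp (nat_lit 1) t3527))))))
noncomputable def l43142 : Lb := (@Lb.d (nat_lit 10) (nat_lit 322) (nat_lit 410) (@Lb.r r2085 (@Lb.r r1126 (@Lb.r r2452 (@Lb.r r579 (@Lb.g g8 (@Lb.t (@Lb.fp (nat_lit 3) t4356))))))))
noncomputable def l43143 : Lb := (@Lb.d (nat_lit 538) (nat_lit 256) (nat_lit 0) (@Lb.g g8 (@Lb.g g10 (@Lb.r r2715 (@Lb.r r2634 (@Lb.r r2145 (@Lb.d (nat_lit 609) (nat_lit 164) (nat_lit 0) (@Lb.fm (nat_lit 3) t3081))))))))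
noncomputable def l43144 : Lb := (@Lb.d (nat_lit 129) (nat_lit 258) (nat_lit 130) (@Lb.g g8 (@Lb.g g9 (@Lb.g g10 (@Lb.g g11 (@Lb.r r104 (@Lb.r r1449 (@Lb.r r2647 (@Lb.r r2374 (@Lb.r r68 (@Lb.d (nat_lit 361) (nat_lit 66) (nat_lit 533) (@Lb.fm (nat_lit 9) t7278))))))))))))
noncomputable def l43145 : Lb := (@Lb.d (nat_lit 1) (nat_lit 258) (nat_lit 130) (@Lb.g g8 (@Lb.g g9 (@Lb.g g10 (@Lb.g g11 (@Lb.r r665 (@Lb.r r411 (@Lb.r r2122 (@Lb.r r2577 (@Lb.d (nat_lit 545) (nat_lit 10) (nat_lit 673) (@Lb.fp (nat_lit 9) t145)))))))))))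
noncomputable def l43146 : Lb := (@Lb.d (nat_lit 538) (nat_lit 512) (nat_lit 0) (@Lb.g g8 (@Lb.g g10 (@Lb.r r2715 (@Lb.r r2634 (@Lb.r r2145 (@Lb.d (nat_lit 609) (nat_lit 162) (nat_lit 2) (@Lb.fm (nat_lit 3) t3081))))))))
noncomputable def l43147 : Lb := (@Lb.d (nat_lit 129) (nat_lit 514) (nat_lit 66) (@Lb.g g8 (@Lb.g g9 (@Lb.g g10 (@Lb.g g11 (@Lb.r r104 (@Lb.r r1449 (@Lb.r r2647 (@Lb.r r2374 (@Lb.r r68 (@Lb.d (nat_lit 361) (nat_lit 66) (nat_lit 533) (@Lb.fm (nat_lit 9) t7278))))))))))))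
noncomputable def l43148 : Lb := (@Lb.d (nat_lit 2) (nat_lit 265) (nat_lit 129) (@Lb.g g8 (@Lb.g g9 (@Lb.g g10 (@Lb.g g11 (@Lb.r r2705 (@Lb.r r2707 (@Lb.r r356 (@Lb.r r1690 (@Lb.r r2180 (@Lb.d (nat_lit 169) (nat_lit 161) (nat_lit 66) (@Lb.fp (nat_lit 9) t5307))))))))))))
noncomputable def l43149 : Lb := (@Lb.r r85 (@Lb.r r323 (@Lb.d (nat_lit 9) (nat_lit 8) (nat_lit 0) (@Lb.g g8 (@Lb.g g10 (@Lb.r r2197 (@Lb.r r424 (@Lb.r r2439 (@Lb.d (nat_lit 5) (nat_lit 104) (nat_lit 338) (@Lb.fp (nat_lit 3) t3891))))))))))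
noncomputable def l43150 : Lb := (@Lb.r r82 (@Lb.r r275 (@Lb.g g4 (@Lb.g g9 (@Lb.r r1559 (@Lb.r r2658 (@Lb.r r2577 (@Lb.r r1556 (@Lb.d (nat_lit 66) (nat_lit 330) (nat_lit 514) (@Lb.fm (nat_lit 3) t7452))))))))))
noncomputable def l43151 : Lb := (@Lb.r r21 (@Lb.d (nat_lit 129) (nat_lit 0) (nat_lit 130) (@Lb.g g8 (@Lb.g g10 (@Lb.g g11 (@Lb.r r419 (@Lb.r r1172 (@Lb.r r2438 (@Lb.r r97 (@Lb.d (nat_lit 354) (nat_lit 104) (nat_lit 144) (@Lb.t (@Lb.fm (nat_lit 9) t4220))))))))))))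
noncomputable def l43152 : Lb := (@Lb.r r21 (@Lb.d (nat_lit 129) (nat_lit 0) (nat_lit 130) (@Lb.g g8 (@Lb.g g10 (@Lb.g g11 (@Lb.r r419 (@Lb.r r1172 (@Lb.r r2438 (@Lb.r r25 (@Lb.d (nat_lit 276) (nat_lit 144) (nat_lit 137) (@Lb.t (@Lb.fp (nat_lit 9) t4661))))))))))))
noncomputable def l43153 : Lb := (@Lb.d (nat_lit 402) (nat_lit 256) (nat_lit 641) (@Lb.r r1604 (@Lb.r r146 (@Lb.r r2409 (@Lb.g g11 (@Lb.g g5 (@Lb.g g4 (@Lb.d (nat_lit 0) (nat_lit 1) (nat_lit 384) (@Lb.r r578 (@Lb.t (@Lb.fm (nat_lit 9) t7453)))))))))))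
noncomputable def l43154 : Lb := (@Lb.d (nat_lit 1) (nat_lit 548) (nat_lit 64) (@Lb.g g8 (@Lb.g g9 (@Lb.g g10 (@Lb.g g11 (@Lb.r r387 (@Lb.r r1177 (@Lb.r r2458 (@Lb.r r24 (@Lb.d (nat_lit 602) (nat_lit 2) (nat_lit 169) (@Lb.fp (nat_lit 9) t3209)))))))))))
noncomputable def l43155 : Lb := (@Lb.g g8 (@Lb.g g7 (@Lb.r r2706 (@Lb.r r1427 (@Lb.r r1633 (@Lb.r r1608 (@Lb.d (nat_lit 610) (nat_lit 513) (nat_lit 66) (@Lb.fm (nat_lit 3) t918))))))))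
noncomputable def l43156 : Lb := (@Lb.d (nat_lit 32) (nat_lit 2) (nat_lit 0) (@Lb.g g5 (@Lb.g g10 (@Lb.g g7 (@Lb.r r40 (@Lb.r r2473 (@Lb.r r2722 (@Lb.d (nat_lit 98) (nat_lit 34) (nat_lit 512) (@Lb.t (@Lb.fp (nat_lit 9) t1814))))))))))
noncomputable def l43157 : Lb := (@Lb.d (nat_lit 32) (nat_lit 256) (nat_lit 2) (@Lb.g g6 (@Lb.g g7 (@Lb.r r644 (@Lb.r r326 (@Lb.r r2449 (@Lb.d (nat_lit 529) (nat_lit 0) (nat_lit 8) (@Lb.fm (nat_lit 3) t7454))))))))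
noncomputable def l43158 : Lb := (@Lb.d (nat_lit 404) (nat_lit 257) (nat_lit 545) (@Lb.r r2584 (@Lb.r r2138 (@Lb.r r2587 (@Lb.r r293 (@Lb.g g7 (@Lb.g g4 (@Lb.d (nat_lit 5) (nat_lit 0) (nat_lit 64) (@Lb.fp (nat_lit 3) t7455)))))))))
noncomputable def l43159 : Lb := (@Lb.d (nat_lit 8) (nat_lit 2) (nat_lit 0) (@Lb.g g9 (@Lb.r r2343 (@Lb.r r1096 (@Lb.r r2646 (@Lb.r r409 (@Lb.d (nat_lit 522) (nat_lit 74) (nat_lit 136) (@Lb.t (@Lb.fm (nat_lit 3) t2115)))))))))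
noncomputable def l43160 : Lb := (@Lb.d (nat_lit 512) (nat_lit 256) (nat_lit 401) (@Lb.r r146 (@Lb.r r357 (@Lb.g g11 (@Lb.g g4 (@Lb.d (nat_lit 1) (nat_lit 0) (nat_lit 384) (@Lb.r r578 (@Lb.fp (nat_lit 3) t7456))))))))
noncomputable def l43161 : Lb := (@Lb.r r323 (@Lb.d (nat_lit 2) (nat_lit 265) (nat_lit 0) (@Lb.g g8 (@Lb.g g9 (@Lb.g g10 (@Lb.r r343 (@Lb.r r170 (@Lb.r r2585 (@Lb.r r2564 (@Lb.d (nat_lit 649) (nat_lit 165) (nat_lit 20) (@Lb.t (@Lb.fp (nat_lit 9) t7457))))))))))))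
noncomputable def l43162 : Lb := (@Lb.d (nat_lit 0) (nat_lit 289) (nat_lit 9) (@Lb.g g8 (@Lb.g g9 (@Lb.g g10 (@Lb.g g11 (@Lb.r r2722 (@Lb.r r1415 (@Lb.r r36 (@Lb.r r149 (@Lb.r r2084 (@Lb.d (nat_lit 98) (nat_lit 153) (nat_lit 593) (@Lb.fm (nat_lit 9) t7458))))))))))))
noncomputable def l43163 : Lb := (@Lb.d (nat_lit 642) (nat_lit 9) (nat_lit 65) (@Lb.g g8 (@Lb.g g9 (@Lb.g g10 (@Lb.g g11 (@Lb.r r1451 (@Lb.r r106 (@Lb.r r25 (@Lb.d (nat_lit 8) (nat_lit 9) (nat_lit 297) (@Lb.fp (nat_lit 9) t7459))))))))))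
noncomputable def l43164 : Lb := (@Lb.d (nat_lit 256) (nat_lit 65) (nat_lit 288) (@Lb.r r359 (@Lb.r r676 (@Lb.r r150 (@Lb.g g5 (@Lb.g g4 (@Lb.d (nat_lit 17) (nat_lit 24) (nat_lit 0) (@Lb.r r291 (@Lb.r r98 (@Lb.fp (nat_lit 3) t7460))))))))))
noncomputable def l43165 : Lb := (@Lb.d (nat_lit 4) (nat_lit 544) (nat_lit 130) (@Lb.g g8 (@Lb.g g9 (@Lb.g g10 (@Lb.g g11 (@Lb.r r1447 (@Lb.r r1177 (@Lb.r r2646 (@Lb.r r1416 (@Lb.d (nat_lit 325) (nat_lit 73) (nat_lit 68) (@Lb.fm (nat_lit 9) t956)))))))))))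
noncomputable def l43166 : Lb := (@Lb.d (nat_lit 641) (nat_lit 2) (nat_lit 66) (@Lb.g g8 (@Lb.g g9 (@Lb.g g10 (@Lb.g g11 (@Lb.r r1451 (@Lb.r r106 (@Lb.r r25 (@Lb.d (nat_lit 1) (nat_lit 10) (nat_lit 425) (@Lb.fp (nat_lit 9) t1792))))))))))
noncomputable def l43167 : Lb := (@Lb.d (nat_lit 130) (nat_lit 2) (nat_lit 130) (@Lb.g g8 (@Lb.g g9 (@Lb.g g10 (@Lb.g g11 (@Lb.r r2666 (@Lb.r r612 (@Lb.r r1319 (@Lb.r r405 (@Lb.r r2084 (@Lb.d (nat_lit 618) (nat_lit 137) (nat_lit 169) (@Lb.fp (nat_lit 9) t6105))))))))))))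
noncomputable def l43168 : Lb := (@Lb.r r21 (@Lb.d (nat_lit 646) (nat_lit 0) (nat_lit 130) (@Lb.g g8 (@Lb.g g10 (@Lb.g g11 (@Lb.r r419 (@Lb.r r106 (@Lb.r r25 (@Lb.d (nat_lit 361) (nat_lit 9) (nat_lit 66) (@Lb.t (@Lb.fm (nat_lit 9) t7461)))))))))))
noncomputable def l43169 : Lb := (@Lb.d (nat_lit 32) (nat_lit 257) (nat_lit 0) (@Lb.g g8 (@Lb.g g9 (@Lb.r r2411 (@Lb.r r1385 (@Lb.r r150 (@Lb.r r1124 (@Lb.d (nat_lit 282) (nat_lit 73) (nat_lit 649) (@Lb.fm (nat_lit 3) t51)))))))))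
noncomputable def l43170 : Lb := (@Lb.d (nat_lit 2) (nat_lit 513) (nat_lit 66) (@Lb.g g8 (@Lb.g g9 (@Lb.g g10 (@Lb.g g11 (@Lb.r r345 (@Lb.r r675 (@Lb.r r2658 (@Lb.r r2577 (@Lb.r r2564 (@Lb.d (nat_lit 390) (nat_lit 138) (nat_lit 353) (@Lb.fm (nat_lit 9) t748))))))))))))
noncomputable def l43171 : Lb := (@Lb.d (nat_lit 0) (nat_lit 0) (nat_lit 130) (@Lb.g g10 (@Lb.g g11 (@Lb.r r419 (@Lb.r r386 (@Lb.r r1172 (@Lb.d (nat_lit 292) (nat_lit 105) (nat_lit 152) (@Lb.fp (nat_lit 3) t5979))))))))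
noncomputable def l43172 : Lb := (@Lb.d (nat_lit 0) (nat_lit 66) (nat_lit 0) (@Lb.g g9 (@Lb.r r584 (@Lb.r r358 (@Lb.r r132 (@Lb.d (nat_lit 10) (nat_lit 129) (nat_lit 576) (@Lb.t (@Lb.fm (nat_lit 3) t1222))))))))
noncomputable def l43173 : Lb := (@Lb.d (nat_lit 512) (nat_lit 128) (nat_lit 96) (@Lb.r r89 (@Lb.r r1126 (@Lb.r r1319 (@Lb.g g4 (@Lb.t (@Lb.fm (nat_lit 3) t5445)))))))
noncomputable def l43174 : Lb := (@Lb.d (nat_lit 10) (nat_lit 384) (nat_lit 40) (@Lb.r r20 (@Lb.r r1362 (@Lb.r r2467 (@Lb.r r2337 (@Lb.g g7 (@Lb.d (nat_lit 0) (nat_lit 16) (nat_lit 128) (@Lb.t (@Lb.fp (nat_lit 3) t98)))))))))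
noncomputable def l43175 : Lb := (@Lb.d (nat_lit 0) (nat_lit 322) (nat_lit 0) (@Lb.g g9 (@Lb.r r584 (@Lb.r r358 (@Lb.r r132 (@Lb.d (nat_lit 10) (nat_lit 136) (nat_lit 578) (@Lb.t (@Lb.fm (nat_lit 3) t1222))))))))
noncomputable def l43176 : Lb := (@Lb.d (nat_lit 1) (nat_lit 512) (nat_lit 0) (@Lb.g g4 (@Lb.g g11 (@Lb.r r1061 (@Lb.r r2136 (@Lb.r r2438 (@Lb.r r579 (@Lb.fp (nat_lit 3) t473))))))))
noncomputable def l43177 : Lb := (@Lb.r r70 (@Lb.d (nat_lit 166) (nat_lit 512) (nat_lit 72) (@Lb.g g8 (@Lb.g g9 (@Lb.g g11 (@Lb.r r2153 (@Lb.r r2198 (@Lb.r r360 (@Lb.r r2439 (@Lb.d (nat_lit 610) (nat_lit 98) (nat_lit 402) (@Lb.t (@Lb.fp (nat_lit 9) t4275))))))))))))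
noncomputable def l43178 : Lb := (@Lb.d (nat_lit 641) (nat_lit 258) (nat_lit 130) (@Lb.g g8 (@Lb.g g9 (@Lb.g g10 (@Lb.g g11 (@Lb.r r1451 (@Lb.r r106 (@Lb.r r97 (@Lb.d (nat_lit 264) (nat_lit 4) (nat_lit 408) (@Lb.fm (nat_lit 9) t6960))))))))))
noncomputable def l43179 : Lb := (@Lb.d (nat_lit 641) (nat_lit 516) (nat_lit 128) (@Lb.g g8 (@Lb.g g9 (@Lb.g g10 (@Lb.g g11 (@Lb.r r1451 (@Lb.r r106 (@Lb.r r97 (@Lb.d (nat_lit 264) (nat_lit 9) (nat_lit 409) (@Lb.fm (nat_lit 9) t6753))))))))))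
noncomputable def l43180 : Lb := (@Lb.d (nat_lit 8) (nat_lit 516) (nat_lit 128) (@Lb.g g9 (@Lb.g g10 (@Lb.g g11 (@Lb.r r1130 (@Lb.r r24 (@Lb.r r1685 (@Lb.r r1427 (@Lb.d (nat_lit 546) (nat_lit 90) (nat_lit 601) (@Lb.t (@Lb.fp (nat_lit 9) t6596)))))))))))
noncomputable def l43181 : Lb := (@Lb.r r81 (@Lb.r r323 (@Lb.d (nat_lit 138) (nat_lit 256) (nat_lit 33) (@Lb.g g8 (@Lb.g g6 (@Lb.r r661 (@Lb.r r535 (@Lb.r r1444 (@Lb.d (nat_lit 601) (nat_lit 166) (nat_lit 393) (@Lb.fm (nat_lit 3) t1700))))))))))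
noncomputable def l43182 : Lb := (@Lb.d (nat_lit 2) (nat_lit 514) (nat_lit 5) (@Lb.g g8 (@Lb.g g9 (@Lb.g g10 (@Lb.g g11 (@Lb.r r599 (@Lb.r r682 (@Lb.r r25 (@Lb.d (nat_lit 9) (nat_lit 21) (nat_lit 134) (@Lb.fp (nat_lit 9) t51))))))))))
noncomputable def l43183 : Lb := (@Lb.d (nat_lit 130) (nat_lit 322) (nat_lit 130) (@Lb.g g8 (@Lb.g g9 (@Lb.g g10 (@Lb.g g11 (@Lb.r r676 (@Lb.r r1447 (@Lb.r r98 (@Lb.r r1540 (@Lb.d (nat_lit 98) (nat_lit 9) (nat_lit 17) (@Lb.fp (nat_lit 9) t429)))))))))))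
noncomputable def l43184 : Lb := (@Lb.d (nat_lit 26) (nat_lit 64) (nat_lit 98) (@Lb.r r2328 (@Lb.r r346 (@Lb.r r1703 (@Lb.r r1681 (@Lb.g g7 (@Lb.g g6 (@Lb.g g4 (@Lb.d (nat_lit 5) (nat_lit 4) (nat_lit 65) (@Lb.t (@Lb.fp (nat_lit 9) t2115)))))))))))
noncomputable def l43185 : Lb := (@Lb.d (nat_lit 642) (nat_lit 32) (nat_lit 136) (@Lb.g g8 (@Lb.g g11 (@Lb.r r417 (@Lb.r r2466 (@Lb.r r2387 (@Lb.d (nat_lit 10) (nat_lit 17) (nat_lit 677) (@Lb.fm (nat_lit 3) t7462))))))))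
noncomputable def l43186 : Lb := (@Lb.d (nat_lit 597) (nat_lit 70) (nat_lit 161) (@Lb.r r2341 (@Lb.r r1624 (@Lb.r r2406 (@Lb.g g11 (@Lb.g g5 (@Lb.d (nat_lit 4) (nat_lit 5) (nat_lit 0) (@Lb.r r98 (@Lb.fp (nat_lit 3) t7463)))))))))
noncomputable def l43187 : Lb := (@Lb.d (nat_lit 681) (nat_lit 410) (nat_lit 297) (@Lb.r r2475 (@Lb.r r410 (@Lb.r r392 (@Lb.g g7 (@Lb.g g9 (@Lb.d (nat_lit 64) (nat_lit 129) (nat_lit 132) (@Lb.fp (nat_lit 3) t7464))))))))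
noncomputable def l43188 : Lb := (@Lb.r r81 (@Lb.d (nat_lit 16) (nat_lit 544) (nat_lit 146) (@Lb.g g10 (@Lb.g g11 (@Lb.r r2405 (@Lb.r r1688 (@Lb.r r1435 (@Lb.d (nat_lit 662) (nat_lit 89) (nat_lit 1) (@Lb.fm (nat_lit 3) t6480)))))))))
noncomputable def l43189 : Lb := (@Lb.d (nat_lit 0) (nat_lit 64) (nat_lit 650) (@Lb.r r402 (@Lb.g g9 (@Lb.g g4 (@Lb.d (nat_lit 1) (nat_lit 0) (nat_lit 0) (@Lb.fm (nat_lit 3) t2930))))))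
noncomputable def l43190 : Lb := (@Lb.r r81 (@Lb.r r323 (@Lb.d (nat_lit 2) (nat_lit 8) (nat_lit 1) (@Lb.g g8 (@Lb.g g6 (@Lb.r r387 (@Lb.r r37 (@Lb.d (nat_lit 4) (nat_lit 82) (nat_lit 298) (@Lb.fm (nat_lit 3) t7000)))))))))
noncomputable def l43191 : Lb := (@Lb.r r81 (@Lb.d (nat_lit 137) (nat_lit 0) (nat_lit 41) (@Lb.g g8 (@Lb.g g6 (@Lb.r r661 (@Lb.r r663 (@Lb.r r360 (@Lb.d (nat_lit 533) (nat_lit 37) (nat_lit 550) (@Lb.fp (nat_lit 3) t580)))))))))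
noncomputable def l43192 : Lb := (@Lb.r r1284 (@Lb.r r273 (@Lb.d (nat_lit 16) (nat_lit 8) (nat_lit 88) (@Lb.g g6 (@Lb.g g11 (@Lb.r r1425 (@Lb.r r295 (@Lb.d (nat_lit 420) (nat_lit 162) (nat_lit 416) (@Lb.fp (nat_lit 3) t7465)))))))))
noncomputable def l43193 : Lb := (@Lb.d (nat_lit 128) (nat_lit 8) (nat_lit 258) (@Lb.g g10 (@Lb.g g7 (@Lb.r r101 (@Lb.d (nat_lit 72) (nat_lit 0) (nat_lit 578) (@Lb.fm (nat_lit 3) t6620))))))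
noncomputable def l43194 : Lb := (@Lb.d (nat_lit 2) (nat_lit 258) (nat_lit 66) (@Lb.g g8 (@Lb.g g9 (@Lb.g g10 (@Lb.g g7 (@Lb.r r417 (@Lb.r r98 (@Lb.r r24 (@Lb.d (nat_lit 10) (nat_lit 72) (nat_lit 322) (@Lb.fm (nat_lit 9) t1947))))))))))
noncomputable def l43195 : Lb := (@Lb.d (nat_lit 1) (nat_lit 265) (nat_lit 161) (@Lb.g g8 (@Lb.g g9 (@Lb.g g6 (@Lb.g g11 (@Lb.r r612 (@Lb.r r295 (@Lb.r r2341 (@Lb.r r1540 (@Lb.d (nat_lit 282) (nat_lit 1) (nat_lit 68) (@Lb.fp (nat_lit 9) t7466)))))))))))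
noncomputable def l43196 : Lb := (@Lb.d (nat_lit 8) (nat_lit 2) (nat_lit 2) (@Lb.g g9 (@Lb.g g10 (@Lb.r r1671 (@Lb.r r2376 (@Lb.r r1366 (@Lb.r r409 (@Lb.d (nat_lit 386) (nat_lit 130) (nat_lit 586) (@Lb.fm (nat_lit 3) t445)))))))))
noncomputable def l43197 : Lb := (@Lb.d (nat_lit 1) (nat_lit 258) (nat_lit 34) (@Lb.r r609 (@Lb.r r363 (@Lb.r r328 (@Lb.g g10 (@Lb.d (nat_lit 32) (nat_lit 0) (nat_lit 1) (@Lb.t (@Lb.fp (nat_lit 3) t42))))))))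
noncomputable def l43198 : Lb := (@Lb.d (nat_lit 32) (nat_lit 553) (nat_lit 101) (@Lb.r r609 (@Lb.r r299 (@Lb.r r264 (@Lb.g g7 (@Lb.g g10 (@Lb.d (nat_lit 96) (nat_lit 4) (nat_lit 66) (@Lb.fp (nat_lit 3) t985))))))))
noncomputable def l43199 : Lb := (@Lb.d (nat_lit 10) (nat_lit 258) (nat_lit 64) (@Lb.g g9 (@Lb.t (@Lb.fp (nat_lit 3) t2))))
noncomputable def l43200 : Lb := (@Lb.d (nat_lit 394) (nat_lit 2) (nat_lit 256) (@Lb.r r2120 (@Lb.r r106 (@Lb.r r601 (@Lb.r r1559 (@Lb.g g8 (@Lb.r r74 (@Lb.r r25 (@Lb.t (@Lb.fp (nat_lit 3) t3420))))))))))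
noncomputable def l43201 : Lb := (@Lb.r r21 (@Lb.d (nat_lit 2) (nat_lit 0) (nat_lit 128) (@Lb.g g8 (@Lb.g g11 (@Lb.r r1675 (@Lb.r r2178 (@Lb.r r1640 (@Lb.r r25 (@Lb.d (nat_lit 610) (nat_lit 130) (nat_lit 297) (@Lb.fp (nat_lit 3) t2131))))))))))
noncomputable def l43202 : Lb := (@Lb.d (nat_lit 2) (nat_lit 272) (nat_lit 2) (@Lb.g g8 (@Lb.g g9 (@Lb.g g10 (@Lb.g g11 (@Lb.r r2391 (@Lb.r r358 (@Lb.r r664 (@Lb.r r421 (@Lb.d (nat_lit 105) (nat_lit 160) (nat_lit 137) (@Lb.fp (nat_lit 9) t5382)))))))))))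
noncomputable def l43203 : Lb := (@Lb.d (nat_lit 128) (nat_lit 32) (nat_lit 136) (@Lb.g g7 (@Lb.r r680 (@Lb.r r2729 (@Lb.r r1706 (@Lb.r r683 (@Lb.d (nat_lit 165) (nat_lit 40) (nat_lit 73) (@Lb.t (@Lb.fm (nat_lit 3) t1079)))))))))
noncomputable def l43204 : Lb := (@Lb.d (nat_lit 2) (nat_lit 2) (nat_lit 137) (@Lb.g g8 (@Lb.g g9 (@Lb.g g10 (@Lb.g g11 (@Lb.r r427 (@Lb.r r386 (@Lb.r r97 (@Lb.r r24 (@Lb.d (nat_lit 265) (nat_lit 9) (nat_lit 521) (@Lb.fm (nat_lit 9) t5182)))))))))))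
noncomputable def l43205 : Lb := (@Lb.r r82 (@Lb.d (nat_lit 34) (nat_lit 2) (nat_lit 64) (@Lb.g g8 (@Lb.g g9 (@Lb.g g7 (@Lb.r r2409 (@Lb.r r150 (@Lb.r r72 (@Lb.d (nat_lit 34) (nat_lit 144) (nat_lit 345) (@Lb.t (@Lb.fm (nat_lit 9) t3711)))))))))))
noncomputable def l43206 : Lb := (@Lb.d (nat_lit 146) (nat_lit 274) (nat_lit 74) (@Lb.g g8 (@Lb.g g5 (@Lb.g g10 (@Lb.g g11 (@Lb.r r1602 (@Lb.r r404 (@Lb.r r2635 (@Lb.r r2564 (@Lb.d (nat_lit 289) (nat_lit 160) (nat_lit 386) (@Lb.fp (nat_lit 9) t2408)))))))))))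
noncomputable def l43207 : Lb := (@Lb.d (nat_lit 2) (nat_lit 0) (nat_lit 0) (@Lb.g g8 (@Lb.r r2571 (@Lb.r r2601 (@Lb.r r2724 (@Lb.r r134 (@Lb.d (nat_lit 0) (nat_lit 149) (nat_lit 297) (@Lb.t (@Lb.fm (nat_lit 3) t2926)))))))))
noncomputable def l43208 : Lb := (@Lb.d (nat_lit 85) (nat_lit 513) (nat_lit 138) (@Lb.r r2438 (@Lb.r r1624 (@Lb.r r539 (@Lb.r r2341 (@Lb.g g7 (@Lb.g g6 (@Lb.g g5 (@Lb.d (nat_lit 0) (nat_lit 0) (nat_lit 134) (@Lb.t (@Lb.fp (nat_lit 9) t3958)))))))))))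
noncomputable def l43209 : Lb := (@Lb.d (nat_lit 4) (nat_lit 640) (nat_lit 34) (@Lb.r r20 (@Lb.r r609 (@Lb.r r359 (@Lb.r r644 (@Lb.g g10 (@Lb.d (nat_lit 32) (nat_lit 0) (nat_lit 1) (@Lb.t (@Lb.fm (nat_lit 3) t42)))))))))
noncomputable def l43210 : Lb := (@Lb.d (nat_lit 144) (nat_lit 600) (nat_lit 650) (@Lb.r r1604 (@Lb.r r402 (@Lb.r r89 (@Lb.g g4 (@Lb.t (@Lb.fp (nat_lit 3) t7467)))))))
noncomputable def l43211 : Lb := (@Lb.d (nat_lit 517) (nat_lit 338) (nat_lit 64) (@Lb.r r2069 (@Lb.r r2344 (@Lb.r r1354 (@Lb.g g11 (@Lb.g g5 (@Lb.g g4 (@Lb.d (nat_lit 73) (nat_lit 0) (nat_lit 512) (@Lb.r r98 (@Lb.t (@Lb.fp (nat_lit 9) t7256)))))))))))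
noncomputable def l43212 : Lb := (@Lb.d (nat_lit 134) (nat_lit 512) (nat_lit 66) (@Lb.g g8 (@Lb.g g9 (@Lb.g g10 (@Lb.g g11 (@Lb.r r1194 (@Lb.r r360 (@Lb.r r345 (@Lb.r r359 (@Lb.r r2564 (@Lb.d (nat_lit 538) (nat_lit 33) (nat_lit 617) (@Lb.fp (nat_lit 9) t3423))))))))))))
noncomputable def l43213 : Lb := (@Lb.d (nat_lit 32) (nat_lit 0) (nat_lit 73) (@Lb.g g9 (@Lb.g g10 (@Lb.g g11 (@Lb.r r2713 (@Lb.r r1555 (@Lb.r r2628 (@Lb.r r2442 (@Lb.d (nat_lit 641) (nat_lit 100) (nat_lit 266) (@Lb.t (@Lb.fm (nat_lit 9) t7468)))))))))))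
noncomputable def l43214 : Lb := (@Lb.d (nat_lit 2) (nat_lit 64) (nat_lit 650) (@Lb.r r402 (@Lb.g g9 (@Lb.d (nat_lit 8) (nat_lit 2) (nat_lit 0) (@Lb.t (@Lb.fm (nat_lit 3) t5532))))))
noncomputable def l43215 : Lb := (@Lb.d (nat_lit 520) (nat_lit 388) (nat_lit 273) (@Lb.r r2129 (@Lb.r r102 (@Lb.r r597 (@Lb.r r2391 (@Lb.g g7 (@Lb.g g6 (@Lb.g g5 (@Lb.g g4 (@Lb.d (nat_lit 274) (nat_lit 8) (nat_lit 65) (@Lb.fp (nat_lit 9) t6998)))))))))))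
noncomputable def l43216 : Lb := (@Lb.d (nat_lit 146) (nat_lit 0) (nat_lit 130) (@Lb.g g8 (@Lb.g g9 (@Lb.g g10 (@Lb.g g11 (@Lb.r r276 (@Lb.r r1563 (@Lb.r r2453 (@Lb.r r2390 (@Lb.r r676 (@Lb.d (nat_lit 26) (nat_lit 66) (nat_lit 682) (@Lb.fm (nat_lit 9) t7469))))))))))))
noncomputable def l43217 : Lb := (@Lb.r r82 (@Lb.d (nat_lit 5) (nat_lit 546) (nat_lit 64) (@Lb.g g8 (@Lb.g g9 (@Lb.g g11 (@Lb.r r1571 (@Lb.r r2152 (@Lb.r r2438 (@Lb.r r145 (@Lb.d (nat_lit 0) (nat_lit 82) (nat_lit 152) (@Lb.t (@Lb.fp (nat_lit 9) t2317))))))))))))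
noncomputable def l43218 : Lb := (@Lb.d (nat_lit 4) (nat_lit 256) (nat_lit 74) (@Lb.g g8 (@Lb.g g9 (@Lb.g g10 (@Lb.g g11 (@Lb.r r1666 (@Lb.r r1431 (@Lb.r r2585 (@Lb.d (nat_lit 330) (nat_lit 42) (nat_lit 16) (@Lb.fm (nat_lit 9) t3706))))))))))
noncomputable def l43219 : Lb := (@Lb.r r70 (@Lb.d (nat_lit 6) (nat_lit 512) (nat_lit 0) (@Lb.g g8 (@Lb.g g9 (@Lb.r r342 (@Lb.r r552 (@Lb.r r25 (@Lb.d (nat_lit 66) (nat_lit 18) (nat_lit 128) (@Lb.fp (nat_lit 3) t5130)))))))))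
noncomputable def l43220 : Lb := (@Lb.d (nat_lit 2) (nat_lit 514) (nat_lit 130) (@Lb.g g8 (@Lb.g g9 (@Lb.g g10 (@Lb.g g11 (@Lb.r r2411 (@Lb.r r386 (@Lb.r r97 (@Lb.r r24 (@Lb.d (nat_lit 533) (nat_lit 6) (nat_lit 70) (@Lb.fm (nat_lit 9) t61)))))))))))
noncomputable def l43221 : Lb := (@Lb.d (nat_lit 34) (nat_lit 0) (nat_lit 136) (@Lb.g g8 (@Lb.g g11 (@Lb.r r1173 (@Lb.r r150 (@Lb.r r356 (@Lb.r r1291 (@Lb.d (nat_lit 1) (nat_lit 160) (nat_lit 356) (@Lb.fp (nat_lit 3) t322)))))))))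
noncomputable def l43222 : Lb := (@Lb.d (nat_lit 0) (nat_lit 288) (nat_lit 644) (@Lb.g g7 (@Lb.r r152 (@Lb.r r1162 (@Lb.r r1057 (@Lb.r r132 (@Lb.d (nat_lit 134) (nat_lit 80) (nat_lit 640) (@Lb.t (@Lb.fp (nat_lit 3) t324)))))))))
noncomputable def l43223 : Lb := (@Lb.g g7 (@Lb.r r593 (@Lb.r r347 (@Lb.r r340 (@Lb.r r170 (@Lb.r r153 (@Lb.d (nat_lit 1) (nat_lit 346) (nat_lit 290) (@Lb.t (@Lb.fp (nat_lit 3) t654)))))))))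
noncomputable def l43224 : Lb := (@Lb.d (nat_lit 0) (nat_lit 322) (nat_lit 130) (@Lb.g g4 (@Lb.g g9 (@Lb.g g10 (@Lb.g g11 (@Lb.r r419 (@Lb.r r98 (@Lb.d (nat_lit 0) (nat_lit 138) (nat_lit 137) (@Lb.fm (nat_lit 9) t51)))))))))
noncomputable def l43225 : Lb := (@Lb.d (nat_lit 8) (nat_lit 257) (nat_lit 130) (@Lb.g g8 (@Lb.g g9 (@Lb.g g10 (@Lb.g g11 (@Lb.r r1435 (@Lb.r r145 (@Lb.r r2646 (@Lb.r r1416 (@Lb.d (nat_lit 410) (nat_lit 9) (nat_lit 393) (@Lb.fm (nat_lit 9) t221)))))))))))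
noncomputable def l43226 : Lb := (@Lb.d (nat_lit 5) (nat_lit 513) (nat_lit 5) (@Lb.r r20 (@Lb.r r2153 (@Lb.r r386 (@Lb.g g11 (@Lb.g g6 (@Lb.g g5 (@Lb.g g4 (@Lb.d (nat_lit 2) (nat_lit 8) (nat_lit 128) (@Lb.fm (nat_lit 9) t546))))))))))
noncomputable def l43227 : Lb := (@Lb.d (nat_lit 536) (nat_lit 2) (nat_lit 22) (@Lb.r r24 (@Lb.r r2149 (@Lb.r r386 (@Lb.g g11 (@Lb.g g6 (@Lb.g g5 (@Lb.d (nat_lit 0) (nat_lit 1) (nat_lit 129) (@Lb.t (@Lb.fp (nat_lit 9) t51))))))))))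
noncomputable def l43228 : Lb := (@Lb.d (nat_lit 418) (nat_lit 290) (nat_lit 98) (@Lb.r r1045 (@Lb.r r2148 (@Lb.r r2394 (@Lb.r r2691 (@Lb.g g7 (@Lb.g g6 (@Lb.d (nat_lit 0) (nat_lit 0) (nat_lit 134) (@Lb.fp (nat_lit 3) t3858)))))))))
noncomputable def l43229 : Lb := (@Lb.d (nat_lit 128) (nat_lit 289) (nat_lit 66) (@Lb.g g8 (@Lb.g g9 (@Lb.g g10 (@Lb.g g11 (@Lb.r r419 (@Lb.r r2726 (@Lb.r r344 (@Lb.r r1429 (@Lb.r r2084 (@Lb.d (nat_lit 98) (nat_lit 36) (nat_lit 616) (@Lb.fp (nat_lit 9) t6419))))))))))))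
noncomputable def l43230 : Lb := (@Lb.d (nat_lit 148) (nat_lit 0) (nat_lit 66) (@Lb.g g8 (@Lb.g g9 (@Lb.g g10 (@Lb.g g11 (@Lb.r r2387 (@Lb.r r2406 (@Lb.r r2201 (@Lb.r r2180 (@Lb.d (nat_lit 576) (nat_lit 161) (nat_lit 265) (@Lb.fp (nat_lit 9) t7470)))))))))))
noncomputable def l43231 : Lb := (@Lb.d (nat_lit 2) (nat_lit 22) (nat_lit 613) (@Lb.r r1635 (@Lb.r r2394 (@Lb.r r661 (@Lb.r r2404 (@Lb.g g7 (@Lb.d (nat_lit 0) (nat_lit 16) (nat_lit 128) (@Lb.t (@Lb.fp (nat_lit 3) t1915)))))))))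
noncomputable def l43232 : Lb := (@Lb.d (nat_lit 137) (nat_lit 512) (nat_lit 64) (@Lb.g g8 (@Lb.g g10 (@Lb.g g11 (@Lb.r r357 (@Lb.r r1626 (@Lb.r r603 (@Lb.r r88 (@Lb.d (nat_lit 420) (nat_lit 129) (nat_lit 321) (@Lb.t (@Lb.fp (nat_lit 9) t6996)))))))))))
noncomputable def l43233 : Lb := (@Lb.r r82 (@Lb.d (nat_lit 129) (nat_lit 258) (nat_lit 64) (@Lb.g g8 (@Lb.g g9 (@Lb.g g11 (@Lb.r r2728 (@Lb.r r2443 (@Lb.r r1642 (@Lb.r r1633 (@Lb.d (nat_lit 612) (nat_lit 36) (nat_lit 344) (@Lb.t (@Lb.fm (nat_lit 9) t2085))))))))))))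
noncomputable def l43234 : Lb := (@Lb.r r21 (@Lb.d (nat_lit 146) (nat_lit 0) (nat_lit 0) (@Lb.g g8 (@Lb.g g10 (@Lb.g g11 (@Lb.r r647 (@Lb.r r132 (@Lb.r r2454 (@Lb.r r97 (@Lb.d (nat_lit 65) (nat_lit 98) (nat_lit 384) (@Lb.t (@Lb.fp (nat_lit 9) t7471))))))))))))
noncomputable def l43235 : Lb := (@Lb.r r323 (@Lb.d (nat_lit 33) (nat_lit 258) (nat_lit 2) (@Lb.g g8 (@Lb.g g9 (@Lb.g g10 (@Lb.r r427 (@Lb.r r106 (@Lb.r r97 (@Lb.r r2648 (@Lb.d (nat_lit 4) (nat_lit 160) (nat_lit 578) (@Lb.t (@Lb.fm (nat_lit 9) t7420))))))))))))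
noncomputable def l43236 : Lb := (@Lb.r r323 (@Lb.d (nat_lit 33) (nat_lit 2) (nat_lit 2) (@Lb.g g8 (@Lb.g g9 (@Lb.g g10 (@Lb.r r427 (@Lb.r r106 (@Lb.r r97 (@Lb.r r2648 (@Lb.d (nat_lit 9) (nat_lit 161) (nat_lit 578) (@Lb.t (@Lb.fm (nat_lit 9) t5499))))))))))))
noncomputable def l43237 : Lb := (@Lb.d (nat_lit 10) (nat_lit 610) (nat_lit 674) (@Lb.r r1114 (@Lb.r r1624 (@Lb.r r2341 (@Lb.r r1291 (@Lb.g g11 (@Lb.t (@Lb.fp (nat_lit 3) t1698))))))))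
noncomputable def l43238 : Lb := (@Lb.d (nat_lit 9) (nat_lit 98) (nat_lit 674) (@Lb.r r1114 (@Lb.r r1624 (@Lb.r r2341 (@Lb.r r1291 (@Lb.g g11 (@Lb.g g8 (@Lb.fm (nat_lit 3) t1006))))))))
noncomputable def l43239 : Lb := (@Lb.d (nat_lit 0) (nat_lit 258) (nat_lit 130) (@Lb.g g8 (@Lb.g g9 (@Lb.g g10 (@Lb.g g11 (@Lb.r r2459 (@Lb.r r1557 (@Lb.r r676 (@Lb.r r1094 (@Lb.r r2180 (@Lb.d (nat_lit 10) (nat_lit 154) (nat_lit 420) (@Lb.fp (nat_lit 9) t51))))))))))))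
noncomputable def l43240 : Lb := (@Lb.d (nat_lit 522) (nat_lit 657) (nat_lit 256) (@Lb.r r101 (@Lb.r r2458 (@Lb.g g11 (@Lb.g g6 (@Lb.d (nat_lit 0) (nat_lit 0) (nat_lit 129) (@Lb.fp (nat_lit 3) t4018)))))))
noncomputable def l43241 : Lb := (@Lb.r r21 (@Lb.d (nat_lit 137) (nat_lit 256) (nat_lit 65) (@Lb.g g8 (@Lb.g g10 (@Lb.g g11 (@Lb.r r674 (@Lb.r r2705 (@Lb.r r539 (@Lb.r r1624 (@Lb.d (nat_lit 133) (nat_lit 38) (nat_lit 392) (@Lb.t (@Lb.fp (nat_lit 9) t3595))))))))))))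
noncomputable def l43242 : Lb := (@Lb.d (nat_lit 293) (nat_lit 321) (nat_lit 34) (@Lb.r r1192 (@Lb.r r2341 (@Lb.r r2710 (@Lb.r r339 (@Lb.g g7 (@Lb.g g6 (@Lb.g g5 (@Lb.d (nat_lit 0) (nat_lit 0) (nat_lit 65) (@Lb.t (@Lb.fm (nat_lit 9) t6168)))))))))))
noncomputable def l43243 : Lb := (@Lb.d (nat_lit 0) (nat_lit 512) (nat_lit 2) (@Lb.g g4 (@Lb.g g10 (@Lb.r r2129 (@Lb.r r98 (@Lb.d (nat_lit 0) (nat_lit 130) (nat_lit 17) (@Lb.fp (nat_lit 3) t761)))))))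
noncomputable def l43244 : Lb := (@Lb.d (nat_lit 10) (nat_lit 610) (nat_lit 674) (@Lb.r r1114 (@Lb.r r1624 (@Lb.r r2341 (@Lb.r r1291 (@Lb.g g11 (@Lb.g g8 (@Lb.fm (nat_lit 3) t1006))))))))
noncomputable def l43245 : Lb := (@Lb.d (nat_lit 137) (nat_lit 260) (nat_lit 18) (@Lb.g g8 (@Lb.g g10 (@Lb.r r551 (@Lb.r r613 (@Lb.r r2388 (@Lb.d (nat_lit 101) (nat_lit 150) (nat_lit 522) (@Lb.fm (nat_lit 3) t939))))))))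
noncomputable def l43246 : Lb := (@Lb.d (nat_lit 0) (nat_lit 82) (nat_lit 320) (@Lb.r r21 (@Lb.r r579 (@Lb.r r1366 (@Lb.g g7 (@Lb.g g6 (@Lb.g g5 (@Lb.g g4 (@Lb.d (nat_lit 1) (nat_lit 1) (nat_lit 65) (@Lb.fm (nat_lit 9) t40))))))))))
noncomputable def l43247 : Lb := (@Lb.r r21 (@Lb.r r263 (@Lb.d (nat_lit 17) (nat_lit 256) (nat_lit 5) (@Lb.g g8 (@Lb.g g6 (@Lb.r r2391 (@Lb.r r2600 (@Lb.r r25 (@Lb.d (nat_lit 325) (nat_lit 82) (nat_lit 129) (@Lb.fm (nat_lit 3) t2198))))))))))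
noncomputable def l43248 : Lb := (@Lb.d (nat_lit 106) (nat_lit 40) (nat_lit 661) (@Lb.r r425 (@Lb.r r2218 (@Lb.r r1667 (@Lb.g g6 (@Lb.g g5 (@Lb.g g4 (@Lb.d (nat_lit 288) (nat_lit 17) (nat_lit 0) (@Lb.t (@Lb.fm (nat_lit 9) t6952))))))))))
noncomputable def l43249 : Lb := (@Lb.r r82 (@Lb.d (nat_lit 134) (nat_lit 33) (nat_lit 328) (@Lb.g g8 (@Lb.g g9 (@Lb.g g11 (@Lb.r r2730 (@Lb.r r2649 (@Lb.r r2084 (@Lb.d (nat_lit 614) (nat_lit 100) (nat_lit 154) (@Lb.t (@Lb.fp (nat_lit 9) t7472)))))))))))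
noncomputable def l43250 : Lb := (@Lb.r r330 (@Lb.d (nat_lit 513) (nat_lit 32) (nat_lit 128) (@Lb.g g4 (@Lb.g g11 (@Lb.r r1377 (@Lb.r r1683 (@Lb.r r1170 (@Lb.d (nat_lit 293) (nat_lit 64) (nat_lit 18) (@Lb.fm (nat_lit 3) t7473)))))))))
noncomputable def l43251 : Lb := (@Lb.r r323 (@Lb.d (nat_lit 2) (nat_lit 258) (nat_lit 0) (@Lb.g g8 (@Lb.g g9 (@Lb.g g10 (@Lb.r r427 (@Lb.r r106 (@Lb.r r97 (@Lb.r r24 (@Lb.d (nat_lit 361) (nat_lit 2) (nat_lit 610) (@Lb.t (@Lb.fm (nat_lit 9) t263))))))))))))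
noncomputable def l43252 : Lb := (@Lb.d (nat_lit 662) (nat_lit 290) (nat_lit 0) (@Lb.g g8 (@Lb.g g9 (@Lb.g g11 (@Lb.r r342 (@Lb.r r681 (@Lb.r r2475 (@Lb.d (nat_lit 145) (nat_lit 0) (nat_lit 346) (@Lb.t (@Lb.fp (nat_lit 9) t3392))))))))))
noncomputable def l43253 : Lb := (@Lb.r r323 (@Lb.d (nat_lit 2) (nat_lit 265) (nat_lit 10) (@Lb.g g8 (@Lb.g g9 (@Lb.g g10 (@Lb.r r401 (@Lb.r r299 (@Lb.r r392 (@Lb.r r410 (@Lb.d (nat_lit 153) (nat_lit 97) (nat_lit 296) (@Lb.t (@Lb.fm (nat_lit 9) t4412))))))))))))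
noncomputable def l43254 : Lb := (@Lb.r r21 (@Lb.d (nat_lit 154) (nat_lit 0) (nat_lit 128) (@Lb.g g8 (@Lb.g g10 (@Lb.g g11 (@Lb.r r2667 (@Lb.r r1109 (@Lb.r r2474 (@Lb.r r296 (@Lb.d (nat_lit 130) (nat_lit 166) (nat_lit 128) (@Lb.t (@Lb.fp (nat_lit 9) t1045))))))))))))
noncomputable def l43255 : Lb := (@Lb.r r323 (@Lb.d (nat_lit 32) (nat_lit 546) (nat_lit 2) (@Lb.g g8 (@Lb.g g9 (@Lb.g g10 (@Lb.r r1638 (@Lb.r r595 (@Lb.r r2329 (@Lb.r r344 (@Lb.d (nat_lit 146) (nat_lit 34) (nat_lit 20) (@Lb.t (@Lb.fm (nat_lit 9) t2989))))))))))))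
noncomputable def l43256 : Lb := (@Lb.r r21 (@Lb.d (nat_lit 2) (nat_lit 512) (nat_lit 2) (@Lb.g g8 (@Lb.g g10 (@Lb.g g11 (@Lb.r r1411 (@Lb.r r580 (@Lb.r r106 (@Lb.r r97 (@Lb.d (nat_lit 321) (nat_lit 96) (nat_lit 128) (@Lb.t (@Lb.fp (nat_lit 9) t1693))))))))))))
noncomputable def l43257 : Lb := (@Lb.d (nat_lit 134) (nat_lit 256) (nat_lit 130) (@Lb.g g8 (@Lb.g g9 (@Lb.g g10 (@Lb.g g11 (@Lb.r r1706 (@Lb.r r1411 (@Lb.r r1064 (@Lb.r r25 (@Lb.d (nat_lit 161) (nat_lit 130) (nat_lit 608) (@Lb.fp (nat_lit 9) t7474)))))))))))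
noncomputable def l43258 : Lb := (@Lb.d (nat_lit 145) (nat_lit 514) (nat_lit 128) (@Lb.g g8 (@Lb.g g9 (@Lb.g g10 (@Lb.g g11 (@Lb.r r548 (@Lb.r r1319 (@Lb.r r1162 (@Lb.r r405 (@Lb.r r2084 (@Lb.d (nat_lit 73) (nat_lit 69) (nat_lit 144) (@Lb.fm (nat_lit 9) t1686))))))))))))
noncomputable def l43259 : Lb := (@Lb.d (nat_lit 145) (nat_lit 2) (nat_lit 128) (@Lb.g g8 (@Lb.g g9 (@Lb.g g10 (@Lb.g g11 (@Lb.r r1675 (@Lb.r r1065 (@Lb.r r676 (@Lb.r r2182 (@Lb.d (nat_lit 297) (nat_lit 84) (nat_lit 650) (@Lb.fm (nat_lit 9) t1506)))))))))))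
noncomputable def l43260 : Lb := (@Lb.d (nat_lit 148) (nat_lit 522) (nat_lit 130) (@Lb.g g8 (@Lb.g g9 (@Lb.g g10 (@Lb.g g11 (@Lb.r r2659 (@Lb.r r1194 (@Lb.r r1445 (@Lb.r r2468 (@Lb.d (nat_lit 346) (nat_lit 89) (nat_lit 342) (@Lb.fm (nat_lit 9) t6869)))))))))))
noncomputable def l43261 : Lb := (@Lb.d (nat_lit 145) (nat_lit 514) (nat_lit 74) (@Lb.g g8 (@Lb.g g9 (@Lb.g g10 (@Lb.g g11 (@Lb.r r548 (@Lb.r r1319 (@Lb.r r1162 (@Lb.r r405 (@Lb.r r2084 (@Lb.d (nat_lit 74) (nat_lit 69) (nat_lit 144) (@Lb.fm (nat_lit 9) t1686))))))))))))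
noncomputable def l43262 : Lb := (@Lb.d (nat_lit 34) (nat_lit 258) (nat_lit 0) (@Lb.g g8 (@Lb.g g9 (@Lb.r r1366 (@Lb.r r667 (@Lb.r r1553 (@Lb.r r1448 (@Lb.d (nat_lit 150) (nat_lit 21) (nat_lit 106) (@Lb.fm (nat_lit 3) t915)))))))))
noncomputable def l43263 : Lb := (@Lb.d (nat_lit 146) (nat_lit 258) (nat_lit 128) (@Lb.g g8 (@Lb.g g9 (@Lb.g g10 (@Lb.g g11 (@Lb.r r2666 (@Lb.r r2643 (@Lb.r r2337 (@Lb.r r1048 (@Lb.d (nat_lit 512) (nat_lit 26) (nat_lit 82) (@Lb.fm (nat_lit 9) t6681)))))))))))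
noncomputable def l43264 : Lb := (@Lb.d (nat_lit 128) (nat_lit 512) (nat_lit 392) (@Lb.g g11 (@Lb.r r402 (@Lb.d (nat_lit 356) (nat_lit 0) (nat_lit 672) (@Lb.t (@Lb.fm (nat_lit 3) t4585))))))
noncomputable def l43265 : Lb := (@Lb.d (nat_lit 8) (nat_lit 514) (nat_lit 2) (@Lb.g g9 (@Lb.g g10 (@Lb.r r1671 (@Lb.r r2376 (@Lb.r r1366 (@Lb.r r409 (@Lb.d (nat_lit 384) (nat_lit 130) (nat_lit 586) (@Lb.fm (nat_lit 3) t445)))))))))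
noncomputable def l43266 : Lb := (@Lb.d (nat_lit 146) (nat_lit 258) (nat_lit 128) (@Lb.g g8 (@Lb.g g9 (@Lb.g g10 (@Lb.g g11 (@Lb.r r1194 (@Lb.r r424 (@Lb.r r1303 (@Lb.r r1553 (@Lb.r r2084 (@Lb.d (nat_lit 260) (nat_lit 162) (nat_lit 106) (@Lb.fp (nat_lit 9) t4540))))))))))))
noncomputable def l43267 : Lb := (@Lb.d (nat_lit 608) (nat_lit 409) (nat_lit 550) (@Lb.r r1621 (@Lb.r r2344 (@Lb.r r2466 (@Lb.g g11 (@Lb.g g6 (@Lb.g g5 (@Lb.g g4 (@Lb.d (nat_lit 1) (nat_lit 6) (nat_lit 130) (@Lb.fm (nat_lit 9) t827))))))))))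
noncomputable def l43268 : Lb := (@Lb.d (nat_lit 128) (nat_lit 256) (nat_lit 322) (@Lb.g g10 (@Lb.g g7 (@Lb.r r2438 (@Lb.d (nat_lit 98) (nat_lit 5) (nat_lit 602) (@Lb.fm (nat_lit 3) t2264))))))
noncomputable def l43269 : Lb := (@Lb.r r82 (@Lb.d (nat_lit 134) (nat_lit 584) (nat_lit 128) (@Lb.g g8 (@Lb.g g9 (@Lb.g g11 (@Lb.r r2411 (@Lb.r r2198 (@Lb.r r1096 (@Lb.d (nat_lit 82) (nat_lit 4) (nat_lit 25) (@Lb.t (@Lb.fm (nat_lit 9) t6091)))))))))))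
noncomputable def l43270 : Lb := (@Lb.g g7 (@Lb.r r24 (@Lb.d (nat_lit 0) (nat_lit 640) (nat_lit 64) (@Lb.t (@Lb.fp (nat_lit 3) t2)))))
noncomputable def l43271 : Lb := (@Lb.d (nat_lit 170) (nat_lit 256) (nat_lit 64) (@Lb.g g8 (@Lb.g g11 (@Lb.r r2726 (@Lb.r r1411 (@Lb.r r2597 (@Lb.r r276 (@Lb.d (nat_lit 70) (nat_lit 18) (nat_lit 665) (@Lb.fm (nat_lit 3) t1952)))))))))
noncomputable def l43272 : Lb := (@Lb.d (nat_lit 138) (nat_lit 390) (nat_lit 614) (@Lb.r r532 (@Lb.r r2370 (@Lb.r r1683 (@Lb.r r2389 (@Lb.g g6 (@Lb.g g5 (@Lb.g g4 (@Lb.d (nat_lit 32) (nat_lit 1) (nat_lit 0) (@Lb.t (@Lb.fm (nat_lit 9) t377)))))))))))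
noncomputable def l43273 : Lb := (@Lb.d (nat_lit 138) (nat_lit 512) (nat_lit 64) (@Lb.g g8 (@Lb.g g11 (@Lb.r r1569 (@Lb.r r555 (@Lb.r r2632 (@Lb.r r134 (@Lb.d (nat_lit 0) (nat_lit 133) (nat_lit 260) (@Lb.fm (nat_lit 3) t4753)))))))))
noncomputable def l43274 : Lb := (@Lb.d (nat_lit 132) (nat_lit 288) (nat_lit 0) (@Lb.g g8 (@Lb.g g9 (@Lb.r r1351 (@Lb.r r2178 (@Lb.r r2712 (@Lb.r r165 (@Lb.d (nat_lit 553) (nat_lit 81) (nat_lit 409) (@Lb.fp (nat_lit 3) t229)))))))))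
noncomputable def l43275 : Lb := (@Lb.r r82 (@Lb.d (nat_lit 545) (nat_lit 514) (nat_lit 128) (@Lb.g g8 (@Lb.g g9 (@Lb.g g11 (@Lb.r r1387 (@Lb.r r578 (@Lb.r r1049 (@Lb.d (nat_lit 360) (nat_lit 97) (nat_lit 324) (@Lb.t (@Lb.fm (nat_lit 9) t1246)))))))))))
noncomputable def l43276 : Lb := (@Lb.r r82 (@Lb.d (nat_lit 546) (nat_lit 258) (nat_lit 128) (@Lb.g g8 (@Lb.g g9 (@Lb.g g11 (@Lb.r r1387 (@Lb.r r578 (@Lb.r r1049 (@Lb.d (nat_lit 360) (nat_lit 97) (nat_lit 324) (@Lb.t (@Lb.fm (nat_lit 9) t1246)))))))))))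
noncomputable def l43277 : Lb := (@Lb.d (nat_lit 2) (nat_lit 4) (nat_lit 128) (@Lb.g g8 (@Lb.g g9 (@Lb.g g10 (@Lb.g g11 (@Lb.r r427 (@Lb.r r297 (@Lb.r r104 (@Lb.r r70 (@Lb.r r132 (@Lb.d (nat_lit 9) (nat_lit 154) (nat_lit 9) (@Lb.fp (nat_lit 9) t501))))))))))))
noncomputable def l43278 : Lb := (@Lb.d (nat_lit 2) (nat_lit 516) (nat_lit 128) (@Lb.g g8 (@Lb.g g9 (@Lb.g g10 (@Lb.g g11 (@Lb.r r427 (@Lb.r r106 (@Lb.r r97 (@Lb.d (nat_lit 514) (nat_lit 10) (nat_lit 153) (@Lb.fm (nat_lit 9) t4018))))))))))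
noncomputable def l43279 : Lb := (@Lb.d (nat_lit 1) (nat_lit 260) (nat_lit 128) (@Lb.g g8 (@Lb.g g9 (@Lb.g g10 (@Lb.g g11 (@Lb.r r427 (@Lb.r r324 (@Lb.r r2218 (@Lb.r r1193 (@Lb.r r1188 (@Lb.d (nat_lit 400) (nat_lit 73) (nat_lit 393) (@Lb.fp (nat_lit 9) t1246))))))))))))
noncomputable def l43280 : Lb := (@Lb.d (nat_lit 550) (nat_lit 261) (nat_lit 130) (@Lb.g g8 (@Lb.g g9 (@Lb.g g10 (@Lb.g g11 (@Lb.r r1451 (@Lb.r r409 (@Lb.r r90 (@Lb.r r1169 (@Lb.d (nat_lit 260) (nat_lit 72) (nat_lit 546) (@Lb.fp (nat_lit 9) t3577)))))))))))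
noncomputable def l43281 : Lb := (@Lb.d (nat_lit 0) (nat_lit 512) (nat_lit 130) (@Lb.g g8 (@Lb.g g10 (@Lb.g g11 (@Lb.r r1602 (@Lb.r r2659 (@Lb.r r101 (@Lb.r r2584 (@Lb.d (nat_lit 265) (nat_lit 2) (nat_lit 356) (@Lb.t (@Lb.fp (nat_lit 9) t2463)))))))))))
noncomputable def l43282 : Lb := (@Lb.r r20 (@Lb.d (nat_lit 0) (nat_lit 37) (nat_lit 128) (@Lb.g g5 (@Lb.g g10 (@Lb.g g11 (@Lb.r r1174 (@Lb.r r2632 (@Lb.r r2315 (@Lb.d (nat_lit 384) (nat_lit 1) (nat_lit 320) (@Lb.t (@Lb.fp (nat_lit 9) t74)))))))))))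
noncomputable def l43283 : Lb := (@Lb.r r323 (@Lb.d (nat_lit 0) (nat_lit 256) (nat_lit 18) (@Lb.g g10 (@Lb.r r101 (@Lb.r r340 (@Lb.r r2635 (@Lb.r r1540 (@Lb.d (nat_lit 544) (nat_lit 0) (nat_lit 292) (@Lb.t (@Lb.fp (nat_lit 3) t100))))))))))
noncomputable def l43284 : Lb := (@Lb.r r323 (@Lb.d (nat_lit 0) (nat_lit 258) (nat_lit 0) (@Lb.g g8 (@Lb.g g9 (@Lb.g g10 (@Lb.r r1435 (@Lb.r r145 (@Lb.r r2646 (@Lb.r r1416 (@Lb.d (nat_lit 408) (nat_lit 2) (nat_lit 394) (@Lb.t (@Lb.fp (nat_lit 9) t221))))))))))))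
noncomputable def l43285 : Lb := (@Lb.r r323 (@Lb.d (nat_lit 130) (nat_lit 514) (nat_lit 40) (@Lb.g g8 (@Lb.g g9 (@Lb.g g10 (@Lb.r r2647 (@Lb.r r145 (@Lb.r r1288 (@Lb.d (nat_lit 166) (nat_lit 129) (nat_lit 417) (@Lb.t (@Lb.fm (nat_lit 9) t1214)))))))))))
noncomputable def l43286 : Lb := (@Lb.r r21 (@Lb.r r323 (@Lb.d (nat_lit 130) (nat_lit 8) (nat_lit 8) (@Lb.g g8 (@Lb.g g10 (@Lb.r r615 (@Lb.r r533 (@Lb.r r292 (@Lb.d (nat_lit 73) (nat_lit 34) (nat_lit 146) (@Lb.fp (nat_lit 3) t221))))))))))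
noncomputable def l43287 : Lb := (@Lb.r r323 (@Lb.d (nat_lit 130) (nat_lit 514) (nat_lit 0) (@Lb.g g8 (@Lb.g g9 (@Lb.g g10 (@Lb.r r2705 (@Lb.r r2583 (@Lb.r r650 (@Lb.r r1288 (@Lb.d (nat_lit 289) (nat_lit 64) (nat_lit 346) (@Lb.t (@Lb.fp (nat_lit 9) t790))))))))))))
noncomputable def l43288 : Lb := (@Lb.d (nat_lit 32) (nat_lit 5) (nat_lit 16) (@Lb.g g9 (@Lb.g g10 (@Lb.g g7 (@Lb.r r2136 (@Lb.r r2197 (@Lb.d (nat_lit 294) (nat_lit 74) (nat_lit 17) (@Lb.t (@Lb.fm (nat_lit 9) t7475)))))))))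
noncomputable def l43289 : Lb := (@Lb.d (nat_lit 4) (nat_lit 0) (nat_lit 66) (@Lb.g g8 (@Lb.g g9 (@Lb.g g10 (@Lb.g g7 (@Lb.r r386 (@Lb.r r2153 (@Lb.r r36 (@Lb.d (nat_lit 89) (nat_lit 2) (nat_lit 600) (@Lb.fm (nat_lit 9) t1150))))))))))
noncomputable def l43290 : Lb := (@Lb.d (nat_lit 0) (nat_lit 256) (nat_lit 10) (@Lb.g g10 (@Lb.r r323 (@Lb.r r2694 (@Lb.r r2136 (@Lb.r r1061 (@Lb.d (nat_lit 320) (nat_lit 66) (nat_lit 640) (@Lb.t (@Lb.fm (nat_lit 3) t5077)))))))))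
noncomputable def l43291 : Lb := (@Lb.d (nat_lit 130) (nat_lit 0) (nat_lit 0) (@Lb.g g8 (@Lb.r r1383 (@Lb.r r2178 (@Lb.r r293 (@Lb.r r2708 (@Lb.d (nat_lit 548) (nat_lit 170) (nat_lit 38) (@Lb.t (@Lb.fp (nat_lit 3) t307)))))))))
noncomputable def l43292 : Lb := (@Lb.d (nat_lit 70) (nat_lit 32) (nat_lit 2) (@Lb.g g8 (@Lb.g g9 (@Lb.g g10 (@Lb.r r683 (@Lb.r r2726 (@Lb.r r84 (@Lb.r r1129 (@Lb.d (nat_lit 421) (nat_lit 160) (nat_lit 134) (@Lb.t (@Lb.fp (nat_lit 9) t2934)))))))))))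
noncomputable def l43293 : Lb := (@Lb.d (nat_lit 0) (nat_lit 2) (nat_lit 130) (@Lb.g g8 (@Lb.g g9 (@Lb.g g10 (@Lb.g g11 (@Lb.r r536 (@Lb.r r405 (@Lb.r r619 (@Lb.r r326 (@Lb.r r644 (@Lb.d (nat_lit 514) (nat_lit 133) (nat_lit 641) (@Lb.fp (nat_lit 9) t1618))))))))))))
noncomputable def l43294 : Lb := (@Lb.d (nat_lit 2) (nat_lit 514) (nat_lit 2) (@Lb.g g8 (@Lb.g g9 (@Lb.g g10 (@Lb.g g11 (@Lb.r r24 (@Lb.r r2709 (@Lb.r r2455 (@Lb.r r2374 (@Lb.r r1668 (@Lb.d (nat_lit 33) (nat_lit 0) (nat_lit 658) (@Lb.fm (nat_lit 9) t7476))))))))))))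
noncomputable def l43295 : Lb := (@Lb.d (nat_lit 0) (nat_lit 2) (nat_lit 66) (@Lb.g g8 (@Lb.g g9 (@Lb.g g10 (@Lb.g g7 (@Lb.r r386 (@Lb.r r25 (@Lb.r r24 (@Lb.d (nat_lit 610) (nat_lit 5) (nat_lit 538) (@Lb.fm (nat_lit 9) t4165))))))))))
noncomputable def l43296 : Lb := (@Lb.d (nat_lit 130) (nat_lit 2) (nat_lit 132) (@Lb.g g8 (@Lb.g g9 (@Lb.g g10 (@Lb.g g11 (@Lb.r r680 (@Lb.r r1707 (@Lb.r r2666 (@Lb.r r25 (@Lb.d (nat_lit 522) (nat_lit 89) (nat_lit 401) (@Lb.fp (nat_lit 9) t2402)))))))))))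
noncomputable def l43297 : Lb := (@Lb.d (nat_lit 641) (nat_lit 256) (nat_lit 0) (@Lb.g g4 (@Lb.r r529 (@Lb.r r659 (@Lb.r r674 (@Lb.r r1105 (@Lb.d (nat_lit 8) (nat_lit 2) (nat_lit 85) (@Lb.t (@Lb.fm (nat_lit 3) t1242)))))))))
noncomputable def l43298 : Lb := (@Lb.d (nat_lit 0) (nat_lit 256) (nat_lit 66) (@Lb.g g8 (@Lb.g g10 (@Lb.g g7 (@Lb.r r386 (@Lb.r r149 (@Lb.r r2120 (@Lb.d (nat_lit 352) (nat_lit 0) (nat_lit 521) (@Lb.t (@Lb.fp (nat_lit 9) t1150))))))))))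
noncomputable def l43299 : Lb := (@Lb.d (nat_lit 0) (nat_lit 258) (nat_lit 66) (@Lb.g g8 (@Lb.g g9 (@Lb.g g10 (@Lb.g g7 (@Lb.r r386 (@Lb.r r100 (@Lb.r r21 (@Lb.r r36 (@Lb.d (nat_lit 260) (nat_lit 88) (nat_lit 281) (@Lb.fp (nat_lit 9) t3106)))))))))))
noncomputable def l43300 : Lb := (@Lb.d (nat_lit 2) (nat_lit 256) (nat_lit 2) (@Lb.g g8 (@Lb.g g10 (@Lb.g g11 (@Lb.r r2698 (@Lb.r r2443 (@Lb.r r1433 (@Lb.r r2436 (@Lb.d (nat_lit 337) (nat_lit 80) (nat_lit 357) (@Lb.t (@Lb.fp (nat_lit 9) t2259)))))))))))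
noncomputable def l43301 : Lb := (@Lb.d (nat_lit 0) (nat_lit 514) (nat_lit 130) (@Lb.g g8 (@Lb.g g9 (@Lb.g g10 (@Lb.g g11 (@Lb.r r427 (@Lb.r r386 (@Lb.r r25 (@Lb.r r24 (@Lb.d (nat_lit 610) (nat_lit 105) (nat_lit 680) (@Lb.fp (nat_lit 9) t1663)))))))))))
noncomputable def l43302 : Lb := (@Lb.d (nat_lit 21) (nat_lit 512) (nat_lit 0) (@Lb.g g8 (@Lb.g g9 (@Lb.g g10 (@Lb.g g11 (@Lb.r r2729 (@Lb.r r2411 (@Lb.r r1410 (@Lb.r r676 (@Lb.d (nat_lit 282) (nat_lit 22) (nat_lit 661) (@Lb.fp (nat_lit 9) t1481)))))))))))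
noncomputable def l43303 : Lb := (@Lb.d (nat_lit 8) (nat_lit 514) (nat_lit 0) (@Lb.g g9 (@Lb.r r2196 (@Lb.r r1638 (@Lb.r r1361 (@Lb.d (nat_lit 0) (nat_lit 38) (nat_lit 598) (@Lb.t (@Lb.fp (nat_lit 3) t259))))))))
noncomputable def l43304 : Lb := (@Lb.d (nat_lit 132) (nat_lit 258) (nat_lit 130) (@Lb.g g8 (@Lb.g g9 (@Lb.g g10 (@Lb.g g11 (@Lb.r r1691 (@Lb.r r1642 (@Lb.r r1561 (@Lb.r r532 (@Lb.d (nat_lit 294) (nat_lit 100) (nat_lit 656) (@Lb.fm (nat_lit 9) t175)))))))))))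
noncomputable def l43305 : Lb := (@Lb.r r82 (@Lb.d (nat_lit 132) (nat_lit 512) (nat_lit 64) (@Lb.g g8 (@Lb.g g9 (@Lb.g g11 (@Lb.r r1443 (@Lb.r r2438 (@Lb.r r1049 (@Lb.r r1624 (@Lb.d (nat_lit 618) (nat_lit 136) (nat_lit 409) (@Lb.t (@Lb.fm (nat_lit 9) t7477))))))))))))
noncomputable def l43306 : Lb := (@Lb.d (nat_lit 2) (nat_lit 514) (nat_lit 73) (@Lb.g g8 (@Lb.g g9 (@Lb.g g10 (@Lb.g g11 (@Lb.r r2666 (@Lb.r r1635 (@Lb.r r25 (@Lb.r r24 (@Lb.d (nat_lit 32) (nat_lit 32) (nat_lit 602) (@Lb.fp (nat_lit 9) t1954)))))))))))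
noncomputable def l43307 : Lb := (@Lb.d (nat_lit 0) (nat_lit 258) (nat_lit 9) (@Lb.g g9 (@Lb.g g10 (@Lb.g g7 (@Lb.r r386 (@Lb.r r97 (@Lb.d (nat_lit 0) (nat_lit 9) (nat_lit 9) (@Lb.t (@Lb.fp (nat_lit 9) t87)))))))))
noncomputable def l43308 : Lb := (@Lb.r r322 (@Lb.d (nat_lit 34) (nat_lit 258) (nat_lit 324) (@Lb.g g8 (@Lb.g g9 (@Lb.g g7 (@Lb.r r1442 (@Lb.r r1321 (@Lb.r r100 (@Lb.d (nat_lit 673) (nat_lit 74) (nat_lit 41) (@Lb.t (@Lb.fp (nat_lit 9) t7478)))))))))))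
noncomputable def l43309 : Lb := (@Lb.d (nat_lit 130) (nat_lit 514) (nat_lit 9) (@Lb.g g8 (@Lb.g g9 (@Lb.g g10 (@Lb.g g11 (@Lb.r r676 (@Lb.r r519 (@Lb.r r386 (@Lb.r r97 (@Lb.d (nat_lit 137) (nat_lit 8) (nat_lit 73) (@Lb.fm (nat_lit 9) t3349)))))))))))
noncomputable def l43310 : Lb := (@Lb.r r323 (@Lb.d (nat_lit 0) (nat_lit 514) (nat_lit 2) (@Lb.g g8 (@Lb.g g9 (@Lb.g g10 (@Lb.r r2210 (@Lb.r r2600 (@Lb.r r2713 (@Lb.r r1555 (@Lb.d (nat_lit 88) (nat_lit 10) (nat_lit 297) (@Lb.t (@Lb.fp (nat_lit 9) t3578))))))))))))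
noncomputable def l43311 : Lb := (@Lb.r r2403 (@Lb.d (nat_lit 642) (nat_lit 513) (nat_lit 32) (@Lb.g g8 (@Lb.g g9 (@Lb.g g10 (@Lb.r r1177 (@Lb.d (nat_lit 536) (nat_lit 72) (nat_lit 417) (@Lb.t (@Lb.fm (nat_lit 9) t7479)))))))))
noncomputable def l43312 : Lb := (@Lb.d (nat_lit 0) (nat_lit 38) (nat_lit 581) (@Lb.g g8 (@Lb.g g9 (@Lb.g g10 (@Lb.g g7 (@Lb.r r418 (@Lb.r r2088 (@Lb.r r2201 (@Lb.d (nat_lit 597) (nat_lit 133) (nat_lit 593) (@Lb.fm (nat_lit 9) t2707))))))))))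
noncomputable def l43313 : Lb := (@Lb.g g11 (@Lb.r r273 (@Lb.r r551 (@Lb.r r340 (@Lb.r r170 (@Lb.r r153 (@Lb.d (nat_lit 330) (nat_lit 256) (nat_lit 544) (@Lb.t (@Lb.fp (nat_lit 3) t716)))))))))
noncomputable def l43314 : Lb := (@Lb.r r82 (@Lb.d (nat_lit 1) (nat_lit 273) (nat_lit 0) (@Lb.g g4 (@Lb.g g9 (@Lb.g g11 (@Lb.r r2579 (@Lb.r r2386 (@Lb.r r1569 (@Lb.d (nat_lit 1) (nat_lit 146) (nat_lit 640) (@Lb.t (@Lb.fp (nat_lit 9) t5)))))))))))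
noncomputable def l43315 : Lb := (@Lb.r r82 (@Lb.d (nat_lit 0) (nat_lit 529) (nat_lit 0) (@Lb.g g4 (@Lb.g g9 (@Lb.g g11 (@Lb.r r2579 (@Lb.r r2386 (@Lb.r r1569 (@Lb.d (nat_lit 1) (nat_lit 146) (nat_lit 640) (@Lb.t (@Lb.fp (nat_lit 9) t5)))))))))))
noncomputable def l43316 : Lb := (@Lb.d (nat_lit 0) (nat_lit 293) (nat_lit 128) (@Lb.g g9 (@Lb.g g10 (@Lb.g g11 (@Lb.r r1707 (@Lb.r r2410 (@Lb.r r1572 (@Lb.r r1637 (@Lb.d (nat_lit 9) (nat_lit 38) (nat_lit 297) (@Lb.t (@Lb.fm (nat_lit 9) t4984)))))))))))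
noncomputable def l43317 : Lb := (@Lb.r r2331 (@Lb.r r24 (@Lb.d (nat_lit 257) (nat_lit 576) (nat_lit 133) (@Lb.fm (nat_lit 1) t973))))
noncomputable def l43318 : Lb := (@Lb.d (nat_lit 1) (nat_lit 66) (nat_lit 5) (@Lb.g g4 (@Lb.g g9 (@Lb.g g10 (@Lb.g g11 (@Lb.r r595 (@Lb.r r674 (@Lb.d (nat_lit 1) (nat_lit 21) (nat_lit 134) (@Lb.fm (nat_lit 9) t51)))))))))
noncomputable def l43319 : Lb := (@Lb.d (nat_lit 9) (nat_lit 544) (nat_lit 130) (@Lb.g g8 (@Lb.g g9 (@Lb.g g10 (@Lb.g g11 (@Lb.r r1706 (@Lb.r r1188 (@Lb.r r2597 (@Lb.r r1315 (@Lb.d (nat_lit 521) (nat_lit 81) (nat_lit 650) (@Lb.fp (nat_lit 9) t1225)))))))))))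
noncomputable def l43320 : Lb := (@Lb.d (nat_lit 324) (nat_lit 342) (nat_lit 102) (@Lb.r r2648 (@Lb.r r2438 (@Lb.r r1563 (@Lb.g g7 (@Lb.g g9 (@Lb.g g4 (@Lb.d (nat_lit 89) (nat_lit 10) (nat_lit 128) (@Lb.r r74 (@Lb.t (@Lb.fp (nat_lit 9) t3193)))))))))))
noncomputable def l43321 : Lb := (@Lb.d (nat_lit 324) (nat_lit 86) (nat_lit 102) (@Lb.r r2648 (@Lb.r r2438 (@Lb.r r1563 (@Lb.g g7 (@Lb.g g9 (@Lb.g g4 (@Lb.d (nat_lit 82) (nat_lit 8) (nat_lit 128) (@Lb.r r74 (@Lb.t (@Lb.fp (nat_lit 9) t7480)))))))))))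
noncomputable def l43322 : Lb := (@Lb.d (nat_lit 0) (nat_lit 1) (nat_lit 73) (@Lb.g g8 (@Lb.g g9 (@Lb.g g10 (@Lb.g g11 (@Lb.r r618 (@Lb.r r105 (@Lb.r r612 (@Lb.r r1287 (@Lb.r r2564 (@Lb.d (nat_lit 9) (nat_lit 25) (nat_lit 642) (@Lb.fm (nat_lit 9) t71))))))))))))
noncomputable def l43323 : Lb := (@Lb.d (nat_lit 4) (nat_lit 522) (nat_lit 104) (@Lb.g g8 (@Lb.g g9 (@Lb.g g6 (@Lb.g g11 (@Lb.r r281 (@Lb.r r1635 (@Lb.r r1553 (@Lb.d (nat_lit 609) (nat_lit 136) (nat_lit 297) (@Lb.fp (nat_lit 9) t919))))))))))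
noncomputable def l43324 : Lb := (@Lb.d (nat_lit 576) (nat_lit 394) (nat_lit 102) (@Lb.r r2632 (@Lb.r r2454 (@Lb.r r1547 (@Lb.g g7 (@Lb.g g5 (@Lb.g g4 (@Lb.d (nat_lit 66) (nat_lit 0) (nat_lit 128) (@Lb.r r74 (@Lb.t (@Lb.fm (nat_lit 9) t7481)))))))))))
noncomputable def l43325 : Lb := (@Lb.r r260 (@Lb.r r523 (@Lb.r r1154 (@Lb.r r1057 (@Lb.r r516 (@Lb.d (nat_lit 292) (nat_lit 513) (nat_lit 34) (@Lb.fm (nat_lit 1) t1899)))))))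
noncomputable def l43326 : Lb := (@Lb.d (nat_lit 130) (nat_lit 256) (nat_lit 0) (@Lb.g g4 (@Lb.r r267 (@Lb.r r1154 (@Lb.r r1057 (@Lb.r r260 (@Lb.d (nat_lit 421) (nat_lit 1) (nat_lit 162) (@Lb.t (@Lb.fm (nat_lit 3) t1899)))))))))
noncomputable def l43327 : Lb := (@Lb.d (nat_lit 128) (nat_lit 66) (nat_lit 73) (@Lb.g g9 (@Lb.g g10 (@Lb.g g11 (@Lb.r r280 (@Lb.r r551 (@Lb.r r2122 (@Lb.d (nat_lit 664) (nat_lit 145) (nat_lit 5) (@Lb.t (@Lb.fm (nat_lit 9) t578))))))))))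
noncomputable def l43328 : Lb := (@Lb.r r82 (@Lb.r r283 (@Lb.d (nat_lit 581) (nat_lit 257) (nat_lit 0) (@Lb.g g4 (@Lb.g g9 (@Lb.r r2599 (@Lb.r r1382 (@Lb.r r1301 (@Lb.d (nat_lit 640) (nat_lit 65) (nat_lit 576) (@Lb.fm (nat_lit 3) t7482))))))))))
noncomputable def l43329 : Lb := (@Lb.d (nat_lit 2) (nat_lit 2) (nat_lit 73) (@Lb.g g8 (@Lb.g g9 (@Lb.g g10 (@Lb.g g11 (@Lb.r r2666 (@Lb.r r1635 (@Lb.r r100 (@Lb.r r21 (@Lb.r r36 (@Lb.d (nat_lit 353) (nat_lit 96) (nat_lit 358) (@Lb.fm (nat_lit 9) t2487))))))))))))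
noncomputable def l43330 : Lb := (@Lb.d (nat_lit 0) (nat_lit 514) (nat_lit 73) (@Lb.g g9 (@Lb.g g10 (@Lb.g g11 (@Lb.r r1559 (@Lb.r r2474 (@Lb.r r97 (@Lb.r r24 (@Lb.d (nat_lit 296) (nat_lit 9) (nat_lit 89) (@Lb.t (@Lb.fm (nat_lit 9) t1172)))))))))))
noncomputable def l43331 : Lb := (@Lb.d (nat_lit 6) (nat_lit 362) (nat_lit 644) (@Lb.r r72 (@Lb.r r665 (@Lb.r r1442 (@Lb.g g11 (@Lb.g g6 (@Lb.g g5 (@Lb.g g4 (@Lb.d (nat_lit 37) (nat_lit 33) (nat_lit 389) (@Lb.fm (nat_lit 9) t3226))))))))))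
noncomputable def l43332 : Lb := (@Lb.d (nat_lit 9) (nat_lit 518) (nat_lit 64) (@Lb.g g8 (@Lb.g g9 (@Lb.g g10 (@Lb.g g7 (@Lb.r r386 (@Lb.r r100 (@Lb.r r21 (@Lb.r r36 (@Lb.d (nat_lit 33) (nat_lit 90) (nat_lit 329) (@Lb.fp (nat_lit 9) t6233)))))))))))
noncomputable def l43333 : Lb := (@Lb.r r323 (@Lb.d (nat_lit 0) (nat_lit 4) (nat_lit 2) (@Lb.g g9 (@Lb.g g10 (@Lb.r r343 (@Lb.r r170 (@Lb.r r2585 (@Lb.d (nat_lit 329) (nat_lit 165) (nat_lit 660) (@Lb.fp (nat_lit 3) t4358)))))))))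
noncomputable def l43334 : Lb := (@Lb.d (nat_lit 129) (nat_lit 290) (nat_lit 2) (@Lb.g g8 (@Lb.g g9 (@Lb.g g10 (@Lb.r r327 (@Lb.r r346 (@Lb.r r1429 (@Lb.r r296 (@Lb.d (nat_lit 533) (nat_lit 69) (nat_lit 646) (@Lb.t (@Lb.fp (nat_lit 9) t4525)))))))))))
noncomputable def l43335 : Lb := (@Lb.d (nat_lit 136) (nat_lit 262) (nat_lit 64) (@Lb.g g8 (@Lb.g g9 (@Lb.g g10 (@Lb.g g11 (@Lb.r r2729 (@Lb.r r2475 (@Lb.r r362 (@Lb.r r1316 (@Lb.d (nat_lit 681) (nat_lit 162) (nat_lit 65) (@Lb.fm (nat_lit 9) t2847)))))))))))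
noncomputable def l43336 : Lb := (@Lb.d (nat_lit 2) (nat_lit 260) (nat_lit 0) (@Lb.g g8 (@Lb.g g9 (@Lb.g g10 (@Lb.r r683 (@Lb.r r2666 (@Lb.r r25 (@Lb.d (nat_lit 0) (nat_lit 90) (nat_lit 537) (@Lb.t (@Lb.fp (nat_lit 9) t2985))))))))))
noncomputable def l43337 : Lb := (@Lb.r r323 (@Lb.d (nat_lit 0) (nat_lit 514) (nat_lit 1) (@Lb.g g9 (@Lb.g g6 (@Lb.r r2347 (@Lb.r r97 (@Lb.r r24 (@Lb.d (nat_lit 264) (nat_lit 9) (nat_lit 2) (@Lb.fp (nat_lit 3) t7483)))))))))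
noncomputable def l43338 : Lb := (@Lb.d (nat_lit 1) (nat_lit 520) (nat_lit 64) (@Lb.g g8 (@Lb.g g9 (@Lb.g g11 (@Lb.r r2194 (@Lb.r r1432 (@Lb.r r1637 (@Lb.r r2599 (@Lb.d (nat_lit 650) (nat_lit 97) (nat_lit 596) (@Lb.t (@Lb.fm (nat_lit 9) t430)))))))))))
noncomputable def l43339 : Lb := (@Lb.r r1045 (@Lb.d (nat_lit 513) (nat_lit 512) (nat_lit 9) (@Lb.g g4 (@Lb.g g10 (@Lb.g g11 (@Lb.r r2691 (@Lb.r r1158 (@Lb.d (nat_lit 137) (nat_lit 2) (nat_lit 424) (@Lb.t (@Lb.fp (nat_lit 9) t282))))))))))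
noncomputable def l43340 : Lb := (@Lb.r r323 (@Lb.d (nat_lit 8) (nat_lit 2) (nat_lit 1) (@Lb.g g8 (@Lb.g g9 (@Lb.g g6 (@Lb.r r515 (@Lb.r r105 (@Lb.r r36 (@Lb.d (nat_lit 41) (nat_lit 82) (nat_lit 256) (@Lb.t (@Lb.fp (nat_lit 9) t845)))))))))))
noncomputable def l43341 : Lb := (@Lb.r r20 (@Lb.r r82 (@Lb.g g5 (@Lb.r r535 (@Lb.r r2394 (@Lb.r r409 (@Lb.r r8 (@Lb.d (nat_lit 0) (nat_lit 70) (nat_lit 544) (@Lb.t (@Lb.fm (nat_lit 3) t50))))))))))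
noncomputable def l43342 : Lb := (@Lb.d (nat_lit 145) (nat_lit 518) (nat_lit 34) (@Lb.r r2308 (@Lb.r r82 (@Lb.r r2395 (@Lb.r r340 (@Lb.g g7 (@Lb.g g6 (@Lb.g g5 (@Lb.g g4 (@Lb.d (nat_lit 65) (nat_lit 129) (nat_lit 65) (@Lb.fp (nat_lit 9) t217)))))))))))
noncomputable def l43343 : Lb := (@Lb.d (nat_lit 645) (nat_lit 146) (nat_lit 640) (@Lb.r r24 (@Lb.r r2145 (@Lb.r r402 (@Lb.g g11 (@Lb.g g6 (@Lb.g g4 (@Lb.d (nat_lit 1) (nat_lit 0) (nat_lit 128) (@Lb.t (@Lb.fp (nat_lit 9) t1077))))))))))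
noncomputable def l43344 : Lb := (@Lb.d (nat_lit 642) (nat_lit 389) (nat_lit 326) (@Lb.r r20 (@Lb.r r322 (@Lb.r r659 (@Lb.r r2393 (@Lb.g g6 (@Lb.g g5 (@Lb.d (nat_lit 0) (nat_lit 8) (nat_lit 0) (@Lb.fp (nat_lit 3) t2288)))))))))
noncomputable def l43345 : Lb := (@Lb.d (nat_lit 146) (nat_lit 512) (nat_lit 66) (@Lb.g g8 (@Lb.g g9 (@Lb.g g10 (@Lb.g g11 (@Lb.r r276 (@Lb.r r1563 (@Lb.r r2453 (@Lb.r r2390 (@Lb.r r676 (@Lb.d (nat_lit 26) (nat_lit 73) (nat_lit 681) (@Lb.fm (nat_lit 9) t7484))))))))))))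
noncomputable def l43346 : Lb := (@Lb.d (nat_lit 132) (nat_lit 256) (nat_lit 130) (@Lb.g g8 (@Lb.g g9 (@Lb.g g10 (@Lb.g g11 (@Lb.r r2327 (@Lb.r r2705 (@Lb.r r598 (@Lb.r r392 (@Lb.d (nat_lit 386) (nat_lit 4) (nat_lit 616) (@Lb.fm (nat_lit 9) t5958)))))))))))
noncomputable def l43347 : Lb := (@Lb.d (nat_lit 146) (nat_lit 322) (nat_lit 64) (@Lb.g g8 (@Lb.g g5 (@Lb.g g10 (@Lb.g g11 (@Lb.r r1691 (@Lb.r r644 (@Lb.r r2662 (@Lb.d (nat_lit 5) (nat_lit 74) (nat_lit 290) (@Lb.fp (nat_lit 9) t3224))))))))))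
noncomputable def l43348 : Lb := (@Lb.r r323 (@Lb.d (nat_lit 66) (nat_lit 322) (nat_lit 2) (@Lb.g g8 (@Lb.g g5 (@Lb.g g10 (@Lb.r r1691 (@Lb.r r2726 (@Lb.r r340 (@Lb.d (nat_lit 649) (nat_lit 21) (nat_lit 150) (@Lb.t (@Lb.fp (nat_lit 9) t1472)))))))))))
noncomputable def l43349 : Lb := (@Lb.d (nat_lit 25) (nat_lit 410) (nat_lit 297) (@Lb.r r2662 (@Lb.r r1444 (@Lb.r r2651 (@Lb.g g6 (@Lb.g g9 (@Lb.d (nat_lit 16) (nat_lit 129) (nat_lit 4) (@Lb.fm (nat_lit 3) t5292))))))))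
noncomputable def l43350 : Lb := (@Lb.r r326 (@Lb.d (nat_lit 274) (nat_lit 256) (nat_lit 260) (@Lb.g g4 (@Lb.g g9 (@Lb.g g7 (@Lb.r r2434 (@Lb.d (nat_lit 1) (nat_lit 0) (nat_lit 594) (@Lb.t (@Lb.fp (nat_lit 9) t7485)))))))))
noncomputable def l43351 : Lb := (@Lb.d (nat_lit 400) (nat_lit 2) (nat_lit 128) (@Lb.g g8 (@Lb.g g9 (@Lb.g g10 (@Lb.g g11 (@Lb.r r1443 (@Lb.r r1130 (@Lb.r r97 (@Lb.d (nat_lit 360) (nat_lit 68) (nat_lit 40) (@Lb.fm (nat_lit 9) t7486))))))))))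
noncomputable def l43352 : Lb := (@Lb.d (nat_lit 16) (nat_lit 512) (nat_lit 0) (@Lb.g g8 (@Lb.g g10 (@Lb.r r341 (@Lb.r r1642 (@Lb.r r1572 (@Lb.d (nat_lit 34) (nat_lit 18) (nat_lit 672) (@Lb.fm (nat_lit 3) t7487))))))))
noncomputable def l43353 : Lb := (@Lb.d (nat_lit 146) (nat_lit 69) (nat_lit 32) (@Lb.r r584 (@Lb.r r1313 (@Lb.r r331 (@Lb.g g10 (@Lb.g g4 (@Lb.d (nat_lit 97) (nat_lit 8) (nat_lit 37) (@Lb.r r25 (@Lb.fp (nat_lit 3) t7488)))))))))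
noncomputable def l43354 : Lb := (@Lb.d (nat_lit 2) (nat_lit 260) (nat_lit 74) (@Lb.g g8 (@Lb.g g9 (@Lb.g g10 (@Lb.g g11 (@Lb.r r2666 (@Lb.r r1635 (@Lb.r r100 (@Lb.r r21 (@Lb.r r36 (@Lb.d (nat_lit 358) (nat_lit 97) (nat_lit 358) (@Lb.fm (nat_lit 9) t7489))))))))))))
noncomputable def l43355 : Lb := (@Lb.r r263 (@Lb.d (nat_lit 2) (nat_lit 258) (nat_lit 2) (@Lb.g g8 (@Lb.g g9 (@Lb.g g10 (@Lb.r r2631 (@Lb.r r2198 (@Lb.r r1193 (@Lb.r r1172 (@Lb.d (nat_lit 528) (nat_lit 166) (nat_lit 293) (@Lb.t (@Lb.fp (nat_lit 9) t842))))))))))))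
noncomputable def l43356 : Lb := (@Lb.d (nat_lit 0) (nat_lit 256) (nat_lit 130) (@Lb.g g4 (@Lb.g g9 (@Lb.g g10 (@Lb.g g11 (@Lb.r r419 (@Lb.r r386 (@Lb.d (nat_lit 292) (nat_lit 41) (nat_lit 33) (@Lb.fp (nat_lit 9) t4055)))))))))
noncomputable def l43357 : Lb := (@Lb.g g4 (@Lb.g g9 (@Lb.r r2311 (@Lb.d (nat_lit 257) (nat_lit 0) (nat_lit 64) (@Lb.fp (nat_lit 3) t1165)))))
noncomputable def l43358 : Lb := (@Lb.d (nat_lit 2) (nat_lit 265) (nat_lit 6) (@Lb.g g8 (@Lb.g g9 (@Lb.g g10 (@Lb.g g11 (@Lb.r r2691 (@Lb.r r342 (@Lb.r r1313 (@Lb.r r24 (@Lb.d (nat_lit 665) (nat_lit 161) (nat_lit 585) (@Lb.fm (nat_lit 9) t7490)))))))))))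
noncomputable def l43359 : Lb := (@Lb.r r323 (@Lb.d (nat_lit 2) (nat_lit 521) (nat_lit 0) (@Lb.g g8 (@Lb.g g9 (@Lb.g g6 (@Lb.r r387 (@Lb.r r97 (@Lb.r r24 (@Lb.d (nat_lit 330) (nat_lit 9) (nat_lit 578) (@Lb.t (@Lb.fp (nat_lit 9) t7491)))))))))))
noncomputable def l43360 : Lb := (@Lb.r r323 (@Lb.d (nat_lit 2) (nat_lit 265) (nat_lit 2) (@Lb.g g8 (@Lb.g g9 (@Lb.g g10 (@Lb.r r2218 (@Lb.r r2600 (@Lb.r r2667 (@Lb.r r2585 (@Lb.d (nat_lit 640) (nat_lit 168) (nat_lit 89) (@Lb.t (@Lb.fp (nat_lit 9) t243))))))))))))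
noncomputable def l43361 : Lb := (@Lb.r r275 (@Lb.d (nat_lit 1) (nat_lit 512) (nat_lit 2) (@Lb.g g8 (@Lb.g g9 (@Lb.g g10 (@Lb.r r683 (@Lb.r r386 (@Lb.r r617 (@Lb.r r36 (@Lb.d (nat_lit 101) (nat_lit 65) (nat_lit 261) (@Lb.t (@Lb.fp (nat_lit 9) t2293))))))))))))
noncomputable def l43362 : Lb := (@Lb.d (nat_lit 409) (nat_lit 25) (nat_lit 73) (@Lb.g g8 (@Lb.g g9 (@Lb.g g10 (@Lb.g g11 (@Lb.r r2691 (@Lb.r r1602 (@Lb.r r409 (@Lb.d (nat_lit 152) (nat_lit 24) (nat_lit 582) (@Lb.fm (nat_lit 9) t7492))))))))))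
noncomputable def l43363 : Lb := (@Lb.r r82 (@Lb.d (nat_lit 34) (nat_lit 2) (nat_lit 584) (@Lb.g g8 (@Lb.g g9 (@Lb.g g7 (@Lb.r r1385 (@Lb.r r150 (@Lb.r r84 (@Lb.d (nat_lit 86) (nat_lit 134) (nat_lit 617) (@Lb.t (@Lb.fp (nat_lit 9) t7493)))))))))))
noncomputable def l43364 : Lb := (@Lb.d (nat_lit 0) (nat_lit 0) (nat_lit 74) (@Lb.g g10 (@Lb.g g11 (@Lb.r r666 (@Lb.r r1691 (@Lb.r r578 (@Lb.d (nat_lit 602) (nat_lit 42) (nat_lit 278) (@Lb.fm (nat_lit 3) t7494))))))))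
noncomputable def l43365 : Lb := (@Lb.r r323 (@Lb.d (nat_lit 130) (nat_lit 516) (nat_lit 0) (@Lb.g g8 (@Lb.g g9 (@Lb.g g10 (@Lb.r r1174 (@Lb.r r1625 (@Lb.r r1431 (@Lb.r r2632 (@Lb.d (nat_lit 545) (nat_lit 64) (nat_lit 130) (@Lb.t (@Lb.fm (nat_lit 9) t1256))))))))))))
noncomputable def l43366 : Lb := (@Lb.r r263 (@Lb.d (nat_lit 4) (nat_lit 0) (nat_lit 2) (@Lb.g g8 (@Lb.g g9 (@Lb.g g10 (@Lb.r r683 (@Lb.r r386 (@Lb.r r2657 (@Lb.r r1048 (@Lb.d (nat_lit 10) (nat_lit 153) (nat_lit 613) (@Lb.t (@Lb.fm (nat_lit 9) t6098))))))))))))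
noncomputable def l43367 : Lb := (@Lb.d (nat_lit 517) (nat_lit 548) (nat_lit 577) (@Lb.r r2452 (@Lb.r r89 (@Lb.r r2438 (@Lb.g g7 (@Lb.g g4 (@Lb.d (nat_lit 6) (nat_lit 32) (nat_lit 324) (@Lb.r r578 (@Lb.fp (nat_lit 3) t7250)))))))))
noncomputable def l43368 : Lb := (@Lb.d (nat_lit 129) (nat_lit 258) (nat_lit 130) (@Lb.g g8 (@Lb.g g9 (@Lb.g g10 (@Lb.g g11 (@Lb.r r68 (@Lb.r r2730 (@Lb.r r1411 (@Lb.r r2657 (@Lb.r r2180 (@Lb.d (nat_lit 264) (nat_lit 150) (nat_lit 409) (@Lb.fp (nat_lit 9) t5441))))))))))))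
noncomputable def l43369 : Lb := (@Lb.d (nat_lit 8) (nat_lit 550) (nat_lit 66) (@Lb.g g9 (@Lb.g g10 (@Lb.g g11 (@Lb.r r2723 (@Lb.r r1160 (@Lb.r r2666 (@Lb.r r1625 (@Lb.d (nat_lit 84) (nat_lit 0) (nat_lit 424) (@Lb.t (@Lb.fm (nat_lit 9) t6551)))))))))))
noncomputable def l43370 : Lb := (@Lb.d (nat_lit 1) (nat_lit 293) (nat_lit 518) (@Lb.r r21 (@Lb.r r579 (@Lb.r r2454 (@Lb.g g7 (@Lb.g g4 (@Lb.d (nat_lit 586) (nat_lit 0) (nat_lit 132) (@Lb.r r74 (@Lb.r r25 (@Lb.fm (nat_lit 3) t378))))))))))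
noncomputable def l43371 : Lb := (@Lb.d (nat_lit 0) (nat_lit 258) (nat_lit 0) (@Lb.g g9 (@Lb.r r2660 (@Lb.r r2378 (@Lb.r r2439 (@Lb.r r97 (@Lb.d (nat_lit 1) (nat_lit 73) (nat_lit 594) (@Lb.t (@Lb.fm (nat_lit 3) t2982)))))))))
noncomputable def l43372 : Lb := (@Lb.d (nat_lit 36) (nat_lit 106) (nat_lit 518) (@Lb.r r21 (@Lb.r r104 (@Lb.r r323 (@Lb.g g10 (@Lb.g g5 (@Lb.d (nat_lit 0) (nat_lit 1) (nat_lit 2) (@Lb.r r387 (@Lb.fm (nat_lit 3) t3053)))))))))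
noncomputable def l43373 : Lb := (@Lb.d (nat_lit 6) (nat_lit 146) (nat_lit 389) (@Lb.r r21 (@Lb.r r579 (@Lb.r r1366 (@Lb.g g7 (@Lb.g g6 (@Lb.g g5 (@Lb.g g4 (@Lb.d (nat_lit 1) (nat_lit 1) (nat_lit 70) (@Lb.fm (nat_lit 9) t40))))))))))
noncomputable def l43374 : Lb := (@Lb.r r82 (@Lb.d (nat_lit 9) (nat_lit 544) (nat_lit 64) (@Lb.g g8 (@Lb.g g9 (@Lb.g g11 (@Lb.r r2659 (@Lb.r r40 (@Lb.r r601 (@Lb.r r98 (@Lb.d (nat_lit 153) (nat_lit 1) (nat_lit 613) (@Lb.t (@Lb.fm (nat_lit 9) t7029))))))))))))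
noncomputable def l43375 : Lb := (@Lb.d (nat_lit 34) (nat_lit 105) (nat_lit 518) (@Lb.r r37 (@Lb.r r88 (@Lb.r r323 (@Lb.g g10 (@Lb.d (nat_lit 0) (nat_lit 4) (nat_lit 2) (@Lb.r r387 (@Lb.r r145 (@Lb.t (@Lb.fp (nat_lit 3) t6655))))))))))
noncomputable def l43376 : Lb := (@Lb.d (nat_lit 33) (nat_lit 4) (nat_lit 130) (@Lb.g g8 (@Lb.g g9 (@Lb.g g10 (@Lb.g g11 (@Lb.r r1667 (@Lb.r r2216 (@Lb.r r1642 (@Lb.r r97 (@Lb.d (nat_lit 426) (nat_lit 33) (nat_lit 74) (@Lb.fm (nat_lit 9) t7495)))))))))))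
noncomputable def l43377 : Lb := (@Lb.d (nat_lit 0) (nat_lit 554) (nat_lit 160) (@Lb.r r134 (@Lb.r r679 (@Lb.r r344 (@Lb.r r533 (@Lb.g g7 (@Lb.g g5 (@Lb.d (nat_lit 64) (nat_lit 2) (nat_lit 128) (@Lb.fp (nat_lit 3) t594)))))))))
noncomputable def l43378 : Lb := (@Lb.r r70 (@Lb.d (nat_lit 128) (nat_lit 2) (nat_lit 128) (@Lb.g g8 (@Lb.g g9 (@Lb.g g11 (@Lb.r r2345 (@Lb.r r1367 (@Lb.r r602 (@Lb.r r1688 (@Lb.d (nat_lit 81) (nat_lit 161) (nat_lit 646) (@Lb.t (@Lb.fm (nat_lit 9) t2389))))))))))))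
noncomputable def l43379 : Lb := (@Lb.d (nat_lit 0) (nat_lit 10) (nat_lit 74) (@Lb.g g9 (@Lb.g g10 (@Lb.g g11 (@Lb.r r1555 (@Lb.r r2450 (@Lb.r r101 (@Lb.r r24 (@Lb.d (nat_lit 98) (nat_lit 0) (nat_lit 101) (@Lb.t (@Lb.fm (nat_lit 9) t5756)))))))))))
noncomputable def l43380 : Lb := (@Lb.d (nat_lit 32) (nat_lit 266) (nat_lit 72) (@Lb.g g9 (@Lb.g g10 (@Lb.g g11 (@Lb.r r2695 (@Lb.r r1352 (@Lb.r r2390 (@Lb.r r409 (@Lb.d (nat_lit 129) (nat_lit 128) (nat_lit 330) (@Lb.t (@Lb.fm (nat_lit 9) t3216)))))))))))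
noncomputable def l43381 : Lb := (@Lb.d (nat_lit 0) (nat_lit 266) (nat_lit 72) (@Lb.g g9 (@Lb.g g10 (@Lb.g g11 (@Lb.r r1555 (@Lb.r r1430 (@Lb.r r1624 (@Lb.r r2341 (@Lb.d (nat_lit 582) (nat_lit 80) (nat_lit 320) (@Lb.t (@Lb.fm (nat_lit 9) t3568)))))))))))
noncomputable def l43382 : Lb := (@Lb.r r580 (@Lb.d (nat_lit 0) (nat_lit 537) (nat_lit 90) (@Lb.g g9 (@Lb.g g10 (@Lb.g g11 (@Lb.r r2323 (@Lb.r r153 (@Lb.r r1048 (@Lb.d (nat_lit 577) (nat_lit 0) (nat_lit 282) (@Lb.t (@Lb.fp (nat_lit 9) t3747)))))))))))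
noncomputable def l43383 : Lb := (@Lb.d (nat_lit 10) (nat_lit 264) (nat_lit 73) (@Lb.g g8 (@Lb.g g9 (@Lb.g g10 (@Lb.g g11 (@Lb.r r2467 (@Lb.r r1177 (@Lb.r r1626 (@Lb.r r24 (@Lb.d (nat_lit 337) (nat_lit 0) (nat_lit 400) (@Lb.fm (nat_lit 9) t143)))))))))))
noncomputable def l43384 : Lb := (@Lb.r r331 (@Lb.d (nat_lit 33) (nat_lit 258) (nat_lit 2) (@Lb.g g8 (@Lb.g g9 (@Lb.g g10 (@Lb.r r1689 (@Lb.r r1563 (@Lb.r r516 (@Lb.d (nat_lit 161) (nat_lit 0) (nat_lit 161) (@Lb.t (@Lb.fp (nat_lit 9) t7496)))))))))))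
noncomputable def l43385 : Lb := (@Lb.d (nat_lit 9) (nat_lit 257) (nat_lit 66) (@Lb.g g8 (@Lb.g g9 (@Lb.g g10 (@Lb.g g11 (@Lb.r r1602 (@Lb.r r2647 (@Lb.r r2457 (@Lb.r r2436 (@Lb.d (nat_lit 404) (nat_lit 128) (nat_lit 409) (@Lb.fm (nat_lit 9) t3312)))))))))))
noncomputable def l43386 : Lb := (@Lb.d (nat_lit 9) (nat_lit 513) (nat_lit 130) (@Lb.g g8 (@Lb.g g9 (@Lb.g g10 (@Lb.g g11 (@Lb.r r610 (@Lb.r r1607 (@Lb.r r2457 (@Lb.r r2436 (@Lb.d (nat_lit 664) (nat_lit 2) (nat_lit 409) (@Lb.fm (nat_lit 9) t2487)))))))))))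
noncomputable def l43387 : Lb := (@Lb.g g8 (@Lb.g g7 (@Lb.r r593 (@Lb.r r1303 (@Lb.r r1414 (@Lb.r r2600 (@Lb.r r153 (@Lb.d (nat_lit 0) (nat_lit 24) (nat_lit 297) (@Lb.fp (nat_lit 3) t591)))))))))
noncomputable def l43388 : Lb := (@Lb.d (nat_lit 528) (nat_lit 290) (nat_lit 0) (@Lb.g g8 (@Lb.g g9 (@Lb.r r343 (@Lb.r r2178 (@Lb.r r617 (@Lb.d (nat_lit 101) (nat_lit 26) (nat_lit 554) (@Lb.fm (nat_lit 3) t2551))))))))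
noncomputable def l43389 : Lb := (@Lb.d (nat_lit 0) (nat_lit 258) (nat_lit 0) (@Lb.g g8 (@Lb.g g9 (@Lb.r r1579 (@Lb.r r162 (@Lb.r r145 (@Lb.r r1608 (@Lb.d (nat_lit 98) (nat_lit 10) (nat_lit 665) (@Lb.fp (nat_lit 3) t1082)))))))))
noncomputable def l43390 : Lb := (@Lb.d (nat_lit 650) (nat_lit 580) (nat_lit 422) (@Lb.r r1192 (@Lb.r r89 (@Lb.r r386 (@Lb.g g11 (@Lb.g g6 (@Lb.g g4 (@Lb.d (nat_lit 4) (nat_lit 0) (nat_lit 385) (@Lb.r r529 (@Lb.t (@Lb.fm (nat_lit 9) t2282)))))))))))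
noncomputable def l43391 : Lb := (@Lb.d (nat_lit 528) (nat_lit 546) (nat_lit 0) (@Lb.g g8 (@Lb.g g9 (@Lb.r r343 (@Lb.r r2178 (@Lb.r r617 (@Lb.d (nat_lit 101) (nat_lit 21) (nat_lit 553) (@Lb.fm (nat_lit 3) t2551))))))))
noncomputable def l43392 : Lb := (@Lb.d (nat_lit 41) (nat_lit 616) (nat_lit 549) (@Lb.r r21 (@Lb.r r104 (@Lb.r r323 (@Lb.g g10 (@Lb.g g5 (@Lb.d (nat_lit 0) (nat_lit 1) (nat_lit 2) (@Lb.r r387 (@Lb.fm (nat_lit 3) t3053)))))))))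
noncomputable def l43393 : Lb := (@Lb.d (nat_lit 41) (nat_lit 360) (nat_lit 518) (@Lb.r r21 (@Lb.r r104 (@Lb.r r323 (@Lb.g g10 (@Lb.g g5 (@Lb.d (nat_lit 0) (nat_lit 6) (nat_lit 0) (@Lb.r r387 (@Lb.fm (nat_lit 3) t7497)))))))))
noncomputable def l43394 : Lb := (@Lb.r r275 (@Lb.d (nat_lit 0) (nat_lit 261) (nat_lit 18) (@Lb.g g9 (@Lb.g g6 (@Lb.r r1411 (@Lb.r r2149 (@Lb.d (nat_lit 529) (nat_lit 74) (nat_lit 0) (@Lb.fm (nat_lit 3) t607))))))))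
noncomputable def l43395 : Lb := (@Lb.d (nat_lit 134) (nat_lit 256) (nat_lit 130) (@Lb.g g8 (@Lb.g g9 (@Lb.g g10 (@Lb.g g11 (@Lb.r r1666 (@Lb.r r1411 (@Lb.r r1129 (@Lb.r r2084 (@Lb.d (nat_lit 41) (nat_lit 66) (nat_lit 418) (@Lb.fp (nat_lit 9) t6623)))))))))))
noncomputable def l43396 : Lb := (@Lb.d (nat_lit 4) (nat_lit 613) (nat_lit 518) (@Lb.r r74 (@Lb.r r104 (@Lb.r r169 (@Lb.r r419 (@Lb.g g6 (@Lb.g g5 (@Lb.d (nat_lit 0) (nat_lit 5) (nat_lit 0) (@Lb.r r387 (@Lb.fm (nat_lit 3) t6655))))))))))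
noncomputable def l43397 : Lb := (@Lb.d (nat_lit 288) (nat_lit 674) (nat_lit 420) (@Lb.r r1061 (@Lb.r r1112 (@Lb.r r1442 (@Lb.g g11 (@Lb.g g6 (@Lb.g g5 (@Lb.g g4 (@Lb.d (nat_lit 25) (nat_lit 24) (nat_lit 392) (@Lb.fp (nat_lit 9) t7498))))))))))
noncomputable def l43398 : Lb := (@Lb.d (nat_lit 0) (nat_lit 357) (nat_lit 518) (@Lb.r r579 (@Lb.r r402 (@Lb.g g7 (@Lb.g g5 (@Lb.g g8 (@Lb.d (nat_lit 5) (nat_lit 1) (nat_lit 132) (@Lb.t (@Lb.fm (nat_lit 9) t901)))))))))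
noncomputable def l43399 : Lb := (@Lb.d (nat_lit 320) (nat_lit 357) (nat_lit 129) (@Lb.r r289 (@Lb.r r535 (@Lb.r r328 (@Lb.r r2726 (@Lb.g g7 (@Lb.g g6 (@Lb.g g5 (@Lb.d (nat_lit 0) (nat_lit 0) (nat_lit 134) (@Lb.t (@Lb.fp (nat_lit 9) t5663)))))))))))
noncomputable def l43400 : Lb := (@Lb.d (nat_lit 0) (nat_lit 101) (nat_lit 518) (@Lb.r r579 (@Lb.r r402 (@Lb.g g7 (@Lb.g g5 (@Lb.g g8 (@Lb.d (nat_lit 2) (nat_lit 129) (nat_lit 132) (@Lb.t (@Lb.fm (nat_lit 9) t388)))))))))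
noncomputable def l43401 : Lb := (@Lb.r r21 (@Lb.d (nat_lit 656) (nat_lit 0) (nat_lit 128) (@Lb.g g8 (@Lb.g g11 (@Lb.r r1354 (@Lb.r r391 (@Lb.r r25 (@Lb.d (nat_lit 34) (nat_lit 66) (nat_lit 594) (@Lb.fm (nat_lit 3) t3937)))))))))
noncomputable def l43402 : Lb := (@Lb.d (nat_lit 2) (nat_lit 288) (nat_lit 64) (@Lb.g g8 (@Lb.g g10 (@Lb.g g11 (@Lb.r r1685 (@Lb.r r2472 (@Lb.r r2442 (@Lb.r r587 (@Lb.d (nat_lit 337) (nat_lit 5) (nat_lit 512) (@Lb.t (@Lb.fp (nat_lit 9) t2283)))))))))))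
noncomputable def l43403 : Lb := (@Lb.r r81 (@Lb.d (nat_lit 130) (nat_lit 36) (nat_lit 81) (@Lb.g g8 (@Lb.g g6 (@Lb.g g11 (@Lb.r r1129 (@Lb.r r2632 (@Lb.r r1307 (@Lb.d (nat_lit 650) (nat_lit 132) (nat_lit 278) (@Lb.t (@Lb.fp (nat_lit 9) t2017)))))))))))
noncomputable def l43404 : Lb := (@Lb.d (nat_lit 2) (nat_lit 34) (nat_lit 66) (@Lb.g g8 (@Lb.g g9 (@Lb.g g10 (@Lb.g g11 (@Lb.r r2721 (@Lb.r r1447 (@Lb.r r386 (@Lb.r r24 (@Lb.d (nat_lit 145) (nat_lit 81) (nat_lit 520) (@Lb.fm (nat_lit 9) t6002)))))))))))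
noncomputable def l43405 : Lb := (@Lb.r r81 (@Lb.d (nat_lit 130) (nat_lit 548) (nat_lit 81) (@Lb.g g8 (@Lb.g g6 (@Lb.g g11 (@Lb.r r1129 (@Lb.r r2632 (@Lb.r r1307 (@Lb.d (nat_lit 648) (nat_lit 132) (nat_lit 278) (@Lb.t (@Lb.fp (nat_lit 9) t2139)))))))))))
noncomputable def l43406 : Lb := (@Lb.d (nat_lit 0) (nat_lit 298) (nat_lit 532) (@Lb.r r2403 (@Lb.g g6 (@Lb.d (nat_lit 0) (nat_lit 4) (nat_lit 1) (@Lb.t (@Lb.fm (nat_lit 3) t349))))))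
noncomputable def l43407 : Lb := (@Lb.d (nat_lit 4) (nat_lit 294) (nat_lit 66) (@Lb.g g8 (@Lb.g g9 (@Lb.g g10 (@Lb.g g11 (@Lb.r r2691 (@Lb.r r2201 (@Lb.r r2198 (@Lb.r r1608 (@Lb.d (nat_lit 149) (nat_lit 97) (nat_lit 102) (@Lb.fm (nat_lit 9) t7499)))))))))))
noncomputable def l43408 : Lb := (@Lb.r r68 (@Lb.r r323 (@Lb.d (nat_lit 16) (nat_lit 514) (nat_lit 41) (@Lb.g g9 (@Lb.g g6 (@Lb.r r1384 (@Lb.r r1559 (@Lb.r r25 (@Lb.d (nat_lit 522) (nat_lit 144) (nat_lit 1) (@Lb.fp (nat_lit 3) t582))))))))))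
noncomputable def l43409 : Lb := (@Lb.r r21 (@Lb.r r323 (@Lb.d (nat_lit 5) (nat_lit 264) (nat_lit 0) (@Lb.g g8 (@Lb.g g10 (@Lb.r r395 (@Lb.r r101 (@Lb.r r410 (@Lb.d (nat_lit 9) (nat_lit 26) (nat_lit 154) (@Lb.fm (nat_lit 3) t221))))))))))
noncomputable def l43410 : Lb := (@Lb.d (nat_lit 2) (nat_lit 514) (nat_lit 130) (@Lb.g g8 (@Lb.g g9 (@Lb.g g10 (@Lb.g g11 (@Lb.r r84 (@Lb.r r154 (@Lb.r r597 (@Lb.r r343 (@Lb.r r676 (@Lb.d (nat_lit 609) (nat_lit 2) (nat_lit 602) (@Lb.fm (nat_lit 9) t698))))))))))))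
noncomputable def l43411 : Lb := (@Lb.d (nat_lit 130) (nat_lit 0) (nat_lit 256) (@Lb.r r20 (@Lb.r r2073 (@Lb.r r24 (@Lb.g g7 (@Lb.d (nat_lit 0) (nat_lit 16) (nat_lit 320) (@Lb.t (@Lb.fp (nat_lit 3) t591))))))))
noncomputable def l43412 : Lb := (@Lb.d (nat_lit 2) (nat_lit 2) (nat_lit 66) (@Lb.g g8 (@Lb.g g9 (@Lb.g g10 (@Lb.g g7 (@Lb.r r386 (@Lb.r r104 (@Lb.r r25 (@Lb.d (nat_lit 522) (nat_lit 89) (nat_lit 281) (@Lb.fm (nat_lit 9) t845))))))))))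
noncomputable def l43413 : Lb := (@Lb.d (nat_lit 102) (nat_lit 70) (nat_lit 576) (@Lb.r r615 (@Lb.r r1617 (@Lb.r r2390 (@Lb.g g7 (@Lb.g g6 (@Lb.g g4 (@Lb.d (nat_lit 612) (nat_lit 16) (nat_lit 64) (@Lb.r r25 (@Lb.t (@Lb.fm (nat_lit 9) t2175)))))))))))
noncomputable def l43414 : Lb := (@Lb.r r82 (@Lb.d (nat_lit 134) (nat_lit 514) (nat_lit 128) (@Lb.g g8 (@Lb.g g9 (@Lb.g g11 (@Lb.r r1571 (@Lb.r r86 (@Lb.r r41 (@Lb.r r292 (@Lb.d (nat_lit 322) (nat_lit 2) (nat_lit 640) (@Lb.t (@Lb.fm (nat_lit 9) t3875))))))))))))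
noncomputable def l43415 : Lb := (@Lb.r r82 (@Lb.d (nat_lit 0) (nat_lit 545) (nat_lit 64) (@Lb.g g4 (@Lb.g g9 (@Lb.g g11 (@Lb.r r1571 (@Lb.r r90 (@Lb.r r37 (@Lb.d (nat_lit 640) (nat_lit 96) (nat_lit 384) (@Lb.t (@Lb.fp (nat_lit 9) t1686)))))))))))
noncomputable def l43416 : Lb := (@Lb.d (nat_lit 18) (nat_lit 2) (nat_lit 138) (@Lb.g g8 (@Lb.g g9 (@Lb.g g10 (@Lb.g g11 (@Lb.r r2666 (@Lb.r r579 (@Lb.r r97 (@Lb.r r1432 (@Lb.d (nat_lit 265) (nat_lit 90) (nat_lit 681) (@Lb.fm (nat_lit 9) t601)))))))))))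
noncomputable def l43417 : Lb := (@Lb.r r82 (@Lb.d (nat_lit 72) (nat_lit 17) (nat_lit 0) (@Lb.g g8 (@Lb.g g9 (@Lb.g g11 (@Lb.r r599 (@Lb.r r2137 (@Lb.r r98 (@Lb.r r1556 (@Lb.d (nat_lit 98) (nat_lit 26) (nat_lit 680) (@Lb.t (@Lb.fp (nat_lit 9) t442))))))))))))
noncomputable def l43418 : Lb := (@Lb.d (nat_lit 96) (nat_lit 258) (nat_lit 4) (@Lb.g g8 (@Lb.g g9 (@Lb.g g10 (@Lb.g g11 (@Lb.r r2705 (@Lb.r r535 (@Lb.r r2440 (@Lb.r r170 (@Lb.d (nat_lit 21) (nat_lit 153) (nat_lit 581) (@Lb.fm (nat_lit 9) t1526)))))))))))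
noncomputable def l43419 : Lb := (@Lb.r r82 (@Lb.d (nat_lit 128) (nat_lit 2) (nat_lit 128) (@Lb.g g8 (@Lb.g g9 (@Lb.g g11 (@Lb.r r1643 (@Lb.r r386 (@Lb.r r89 (@Lb.r r1176 (@Lb.d (nat_lit 580) (nat_lit 64) (nat_lit 593) (@Lb.t (@Lb.fp (nat_lit 9) t4960))))))))))))
noncomputable def l43420 : Lb := (@Lb.d (nat_lit 0) (nat_lit 65) (nat_lit 512) (@Lb.r r289 (@Lb.r r279 (@Lb.r r584 (@Lb.r r2406 (@Lb.g g10 (@Lb.r r387 (@Lb.t (@Lb.fp (nat_lit 3) t1260)))))))))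
noncomputable def l43421 : Lb := (@Lb.d (nat_lit 641) (nat_lit 514) (nat_lit 130) (@Lb.g g8 (@Lb.g g9 (@Lb.g g10 (@Lb.g g11 (@Lb.r r1610 (@Lb.r r405 (@Lb.r r2659 (@Lb.r r1553 (@Lb.d (nat_lit 138) (nat_lit 137) (nat_lit 146) (@Lb.fm (nat_lit 9) t2350)))))))))))
noncomputable def l43422 : Lb := (@Lb.d (nat_lit 0) (nat_lit 128) (nat_lit 512) (@Lb.r r289 (@Lb.r r279 (@Lb.r r584 (@Lb.r r2406 (@Lb.g g10 (@Lb.r r387 (@Lb.t (@Lb.fp (nat_lit 3) t1260)))))))))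
noncomputable def l43423 : Lb := (@Lb.d (nat_lit 0) (nat_lit 256) (nat_lit 2) (@Lb.g g9 (@Lb.g g10 (@Lb.r r1671 (@Lb.r r1638 (@Lb.r r101 (@Lb.r r24 (@Lb.d (nat_lit 388) (nat_lit 64) (nat_lit 128) (@Lb.fp (nat_lit 3) t2113)))))))))
noncomputable def l43424 : Lb := (@Lb.d (nat_lit 146) (nat_lit 0) (nat_lit 130) (@Lb.g g8 (@Lb.g g9 (@Lb.g g10 (@Lb.g g11 (@Lb.r r276 (@Lb.r r1563 (@Lb.r r2453 (@Lb.r r2390 (@Lb.r r676 (@Lb.d (nat_lit 265) (nat_lit 66) (nat_lit 665) (@Lb.fm (nat_lit 9) t1101))))))))))))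
noncomputable def l43425 : Lb := (@Lb.d (nat_lit 24) (nat_lit 514) (nat_lit 145) (@Lb.g g9 (@Lb.g g6 (@Lb.g g11 (@Lb.r r1611 (@Lb.d (nat_lit 585) (nat_lit 2) (nat_lit 513) (@Lb.t (@Lb.fm (nat_lit 9) t282))))))))
noncomputable def l43426 : Lb := (@Lb.d (nat_lit 10) (nat_lit 256) (nat_lit 130) (@Lb.g g8 (@Lb.g g10 (@Lb.g g11 (@Lb.r r1685 (@Lb.r r2455 (@Lb.r r1608 (@Lb.r r1126 (@Lb.d (nat_lit 9) (nat_lit 85) (nat_lit 288) (@Lb.t (@Lb.fp (nat_lit 9) t2689)))))))))))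
noncomputable def l43427 : Lb := (@Lb.r r20 (@Lb.d (nat_lit 0) (nat_lit 162) (nat_lit 64) (@Lb.g g9 (@Lb.g g11 (@Lb.r r1642 (@Lb.r r619 (@Lb.r r1608 (@Lb.d (nat_lit 8) (nat_lit 129) (nat_lit 256) (@Lb.fm (nat_lit 3) t4013)))))))))
noncomputable def l43428 : Lb := (@Lb.d (nat_lit 2) (nat_lit 544) (nat_lit 130) (@Lb.g g8 (@Lb.g g10 (@Lb.g g11 (@Lb.r r602 (@Lb.r r600 (@Lb.r r293 (@Lb.r r2587 (@Lb.d (nat_lit 330) (nat_lit 41) (nat_lit 278) (@Lb.t (@Lb.fp (nat_lit 9) t71)))))))))))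
noncomputable def l43429 : Lb := (@Lb.d (nat_lit 10) (nat_lit 0) (nat_lit 130) (@Lb.g g8 (@Lb.g g10 (@Lb.g g11 (@Lb.r r1685 (@Lb.r r2455 (@Lb.r r1608 (@Lb.r r1126 (@Lb.d (nat_lit 277) (nat_lit 82) (nat_lit 272) (@Lb.t (@Lb.fp (nat_lit 9) t1624)))))))))))
noncomputable def l43430 : Lb := (@Lb.r r21 (@Lb.d (nat_lit 386) (nat_lit 256) (nat_lit 64) (@Lb.g g8 (@Lb.g g11 (@Lb.r r1642 (@Lb.r r619 (@Lb.r r97 (@Lb.d (nat_lit 132) (nat_lit 162) (nat_lit 128) (@Lb.fm (nat_lit 3) t4)))))))))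
noncomputable def l43431 : Lb := (@Lb.d (nat_lit 145) (nat_lit 514) (nat_lit 73) (@Lb.g g8 (@Lb.g g9 (@Lb.g g10 (@Lb.g g11 (@Lb.r r2691 (@Lb.r r2409 (@Lb.r r1174 (@Lb.r r596 (@Lb.d (nat_lit 598) (nat_lit 22) (nat_lit 5) (@Lb.fm (nat_lit 9) t2528)))))))))))
noncomputable def l43432 : Lb := (@Lb.d (nat_lit 0) (nat_lit 1) (nat_lit 130) (@Lb.g g8 (@Lb.g g9 (@Lb.g g10 (@Lb.g g11 (@Lb.r r618 (@Lb.r r105 (@Lb.r r340 (@Lb.r r2587 (@Lb.r r2564 (@Lb.d (nat_lit 10) (nat_lit 146) (nat_lit 640) (@Lb.fp (nat_lit 9) t71))))))))))))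
noncomputable def l43433 : Lb := (@Lb.r r21 (@Lb.d (nat_lit 34) (nat_lit 264) (nat_lit 130) (@Lb.g g8 (@Lb.g g10 (@Lb.g g11 (@Lb.r r387 (@Lb.r r1317 (@Lb.r r1624 (@Lb.d (nat_lit 404) (nat_lit 38) (nat_lit 662) (@Lb.t (@Lb.fm (nat_lit 9) t5864)))))))))))
noncomputable def l43434 : Lb := (@Lb.r r21 (@Lb.r r263 (@Lb.g g8 (@Lb.r r74 (@Lb.r r1060 (@Lb.r r2341 (@Lb.r r403 (@Lb.d (nat_lit 0) (nat_lit 256) (nat_lit 256) (@Lb.t (@Lb.fm (nat_lit 3) t2605))))))))))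
noncomputable def l43435 : Lb := (@Lb.d (nat_lit 80) (nat_lit 512) (nat_lit 582) (@Lb.r r1604 (@Lb.r r1638 (@Lb.r r1637 (@Lb.r r1559 (@Lb.g g7 (@Lb.g g5 (@Lb.g g4 (@Lb.d (nat_lit 1) (nat_lit 2) (nat_lit 128) (@Lb.t (@Lb.fp (nat_lit 9) t7500)))))))))))
noncomputable def l43436 : Lb := (@Lb.r r323 (@Lb.d (nat_lit 0) (nat_lit 2) (nat_lit 32) (@Lb.g g4 (@Lb.g g9 (@Lb.g g6 (@Lb.r r387 (@Lb.r r97 (@Lb.d (nat_lit 0) (nat_lit 9) (nat_lit 16) (@Lb.t (@Lb.fp (nat_lit 9) t87))))))))))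
noncomputable def l43437 : Lb := (@Lb.d (nat_lit 80) (nat_lit 0) (nat_lit 580) (@Lb.r r1604 (@Lb.r r1638 (@Lb.r r1621 (@Lb.r r1575 (@Lb.g g7 (@Lb.g g4 (@Lb.d (nat_lit 1) (nat_lit 0) (nat_lit 128) (@Lb.fp (nat_lit 3) t7501)))))))))
noncomputable def l43438 : Lb := (@Lb.d (nat_lit 408) (nat_lit 549) (nat_lit 410) (@Lb.r r1604 (@Lb.r r1362 (@Lb.r r2201 (@Lb.g g7 (@Lb.g g6 (@Lb.g g4 (@Lb.d (nat_lit 6) (nat_lit 0) (nat_lit 65) (@Lb.t (@Lb.fp (nat_lit 9) t2982))))))))))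
noncomputable def l43439 : Lb := (@Lb.d (nat_lit 36) (nat_lit 661) (nat_lit 345) (@Lb.r r21 (@Lb.r r104 (@Lb.r r2375 (@Lb.r r642 (@Lb.g g7 (@Lb.g g6 (@Lb.g g5 (@Lb.d (nat_lit 0) (nat_lit 1) (nat_lit 65) (@Lb.t (@Lb.fp (nat_lit 9) t3053)))))))))))
noncomputable def l43440 : Lb := (@Lb.d (nat_lit 17) (nat_lit 129) (nat_lit 417) (@Lb.r r21 (@Lb.r r331 (@Lb.r r2630 (@Lb.g g7 (@Lb.g g4 (@Lb.d (nat_lit 352) (nat_lit 0) (nat_lit 64) (@Lb.r r25 (@Lb.fm (nat_lit 3) t2877)))))))))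
noncomputable def l43441 : Lb := (@Lb.r r82 (@Lb.d (nat_lit 4) (nat_lit 514) (nat_lit 0) (@Lb.g g8 (@Lb.g g5 (@Lb.r r1624 (@Lb.r r1291 (@Lb.r r386 (@Lb.d (nat_lit 0) (nat_lit 1) (nat_lit 546) (@Lb.fp (nat_lit 3) t739)))))))))
noncomputable def l43442 : Lb := (@Lb.d (nat_lit 132) (nat_lit 512) (nat_lit 130) (@Lb.g g8 (@Lb.g g9 (@Lb.g g10 (@Lb.g g11 (@Lb.r r1194 (@Lb.r r424 (@Lb.r r409 (@Lb.r r295 (@Lb.r r1540 (@Lb.d (nat_lit 258) (nat_lit 97) (nat_lit 618) (@Lb.fp (nat_lit 9) t5637))))))))))))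
noncomputable def l43443 : Lb := (@Lb.d (nat_lit 144) (nat_lit 258) (nat_lit 128) (@Lb.g g8 (@Lb.g g9 (@Lb.g g10 (@Lb.g g11 (@Lb.r r2722 (@Lb.r r2439 (@Lb.r r145 (@Lb.r r2632 (@Lb.d (nat_lit 617) (nat_lit 132) (nat_lit 424) (@Lb.fp (nat_lit 9) t472)))))))))))
noncomputable def l43444 : Lb := (@Lb.d (nat_lit 2) (nat_lit 544) (nat_lit 130) (@Lb.g g8 (@Lb.g g9 (@Lb.g g10 (@Lb.g g11 (@Lb.r r343 (@Lb.r r170 (@Lb.r r1369 (@Lb.r r2436 (@Lb.d (nat_lit 681) (nat_lit 21) (nat_lit 258) (@Lb.fm (nat_lit 9) t7502)))))))))))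
noncomputable def l43445 : Lb := (@Lb.d (nat_lit 2) (nat_lit 2) (nat_lit 66) (@Lb.g g8 (@Lb.g g9 (@Lb.g g10 (@Lb.g g11 (@Lb.r r2375 (@Lb.r r536 (@Lb.r r2197 (@Lb.r r2646 (@Lb.r r164 (@Lb.d (nat_lit 392) (nat_lit 64) (nat_lit 362) (@Lb.fm (nat_lit 9) t6019))))))))))))
noncomputable def l43446 : Lb := (@Lb.d (nat_lit 8) (nat_lit 514) (nat_lit 130) (@Lb.g g9 (@Lb.g g10 (@Lb.g g11 (@Lb.r r2726 (@Lb.r r2471 (@Lb.r r1624 (@Lb.r r405 (@Lb.d (nat_lit 357) (nat_lit 16) (nat_lit 90) (@Lb.t (@Lb.fm (nat_lit 9) t6476)))))))))))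
noncomputable def l43447 : Lb := (@Lb.d (nat_lit 0) (nat_lit 1) (nat_lit 130) (@Lb.g g8 (@Lb.g g9 (@Lb.g g10 (@Lb.g g11 (@Lb.r r618 (@Lb.r r105 (@Lb.r r340 (@Lb.r r2587 (@Lb.r r2564 (@Lb.d (nat_lit 4) (nat_lit 152) (nat_lit 642) (@Lb.fp (nat_lit 9) t71))))))))))))
noncomputable def l43448 : Lb := (@Lb.d (nat_lit 402) (nat_lit 165) (nat_lit 550) (@Lb.r r1044 (@Lb.r r601 (@Lb.r r532 (@Lb.r r2466 (@Lb.g g11 (@Lb.g g6 (@Lb.g g5 (@Lb.g g4 (@Lb.d (nat_lit 0) (nat_lit 6) (nat_lit 130) (@Lb.fp (nat_lit 9) t1702)))))))))))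
noncomputable def l43449 : Lb := (@Lb.r r21 (@Lb.d (nat_lit 144) (nat_lit 512) (nat_lit 128) (@Lb.g g8 (@Lb.g g10 (@Lb.g g11 (@Lb.r r2730 (@Lb.r r2467 (@Lb.r r1313 (@Lb.r r1684 (@Lb.d (nat_lit 21) (nat_lit 128) (nat_lit 596) (@Lb.t (@Lb.fm (nat_lit 9) t7120))))))))))))
noncomputable def l43450 : Lb := (@Lb.d (nat_lit 18) (nat_lit 2) (nat_lit 0) (@Lb.g g8 (@Lb.g g9 (@Lb.g g10 (@Lb.r r1626 (@Lb.r r2659 (@Lb.r r97 (@Lb.r r2312 (@Lb.d (nat_lit 33) (nat_lit 132) (nat_lit 129) (@Lb.t (@Lb.fp (nat_lit 9) t1931)))))))))))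
noncomputable def l43451 : Lb := (@Lb.r r331 (@Lb.d (nat_lit 36) (nat_lit 0) (nat_lit 2) (@Lb.g g8 (@Lb.g g9 (@Lb.g g10 (@Lb.r r683 (@Lb.r r2209 (@Lb.r r1688 (@Lb.r r1130 (@Lb.d (nat_lit 21) (nat_lit 138) (nat_lit 392) (@Lb.t (@Lb.fp (nat_lit 9) t1445))))))))))))
noncomputable def l43452 : Lb := (@Lb.r r82 (@Lb.d (nat_lit 33) (nat_lit 418) (nat_lit 0) (@Lb.g g8 (@Lb.g g9 (@Lb.r r663 (@Lb.r r150 (@Lb.r r100 (@Lb.d (nat_lit 576) (nat_lit 85) (nat_lit 296) (@Lb.fm (nat_lit 3) t4412)))))))))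
noncomputable def l43453 : Lb := (@Lb.d (nat_lit 146) (nat_lit 290) (nat_lit 4) (@Lb.g g8 (@Lb.g g9 (@Lb.g g10 (@Lb.g g11 (@Lb.r r1543 (@Lb.r r1177 (@Lb.r r2458 (@Lb.r r1048 (@Lb.d (nat_lit 676) (nat_lit 1) (nat_lit 85) (@Lb.fm (nat_lit 9) t7242)))))))))))
noncomputable def l43454 : Lb := (@Lb.d (nat_lit 1) (nat_lit 514) (nat_lit 2) (@Lb.g g8 (@Lb.g g9 (@Lb.g g10 (@Lb.r r2729 (@Lb.r r2475 (@Lb.r r2468 (@Lb.r r2438 (@Lb.d (nat_lit 401) (nat_lit 5) (nat_lit 328) (@Lb.t (@Lb.fm (nat_lit 9) t590)))))))))))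
noncomputable def l43455 : Lb := (@Lb.d (nat_lit 1) (nat_lit 2) (nat_lit 2) (@Lb.g g8 (@Lb.g g9 (@Lb.g g10 (@Lb.r r2729 (@Lb.r r2475 (@Lb.r r2468 (@Lb.r r2438 (@Lb.d (nat_lit 400) (nat_lit 5) (nat_lit 328) (@Lb.t (@Lb.fm (nat_lit 9) t590)))))))))))
noncomputable def l43456 : Lb := (@Lb.r r70 (@Lb.g g4 (@Lb.r r1607 (@Lb.r r1410 (@Lb.r r1173 (@Lb.r r1096 (@Lb.d (nat_lit 5) (nat_lit 81) (nat_lit 320) (@Lb.t (@Lb.fp (nat_lit 3) t2490)))))))))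
noncomputable def l43457 : Lb := (@Lb.d (nat_lit 130) (nat_lit 258) (nat_lit 130) (@Lb.g g8 (@Lb.g g9 (@Lb.g g10 (@Lb.g g11 (@Lb.r r1553 (@Lb.r r1623 (@Lb.r r386 (@Lb.r r72 (@Lb.d (nat_lit 353) (nat_lit 74) (nat_lit 280) (@Lb.fm (nat_lit 9) t5539)))))))))))
noncomputable def l43458 : Lb := (@Lb.r r70 (@Lb.g g4 (@Lb.r r1607 (@Lb.r r1410 (@Lb.r r1173 (@Lb.r r1096 (@Lb.d (nat_lit 0) (nat_lit 336) (nat_lit 320) (@Lb.t (@Lb.fp (nat_lit 3) t2490)))))))))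
noncomputable def l43459 : Lb := (@Lb.d (nat_lit 130) (nat_lit 2) (nat_lit 130) (@Lb.g g8 (@Lb.g g9 (@Lb.g g10 (@Lb.g g11 (@Lb.r r1553 (@Lb.r r1623 (@Lb.r r386 (@Lb.r r72 (@Lb.d (nat_lit 361) (nat_lit 66) (nat_lit 281) (@Lb.fm (nat_lit 9) t7503)))))))))))
noncomputable def l43460 : Lb := (@Lb.d (nat_lit 2) (nat_lit 2) (nat_lit 73) (@Lb.g g8 (@Lb.g g9 (@Lb.g g10 (@Lb.g g11 (@Lb.r r2691 (@Lb.r r2216 (@Lb.r r2666 (@Lb.r r25 (@Lb.d (nat_lit 521) (nat_lit 37) (nat_lit 68) (@Lb.fp (nat_lit 9) t1832)))))))))))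
noncomputable def l43461 : Lb := (@Lb.d (nat_lit 2) (nat_lit 258) (nat_lit 130) (@Lb.g g8 (@Lb.g g9 (@Lb.g g10 (@Lb.g g11 (@Lb.r r642 (@Lb.r r1687 (@Lb.r r104 (@Lb.r r25 (@Lb.d (nat_lit 97) (nat_lit 90) (nat_lit 169) (@Lb.fm (nat_lit 9) t6581)))))))))))
noncomputable def l43462 : Lb := (@Lb.d (nat_lit 130) (nat_lit 258) (nat_lit 130) (@Lb.g g8 (@Lb.g g9 (@Lb.g g10 (@Lb.g g11 (@Lb.r r1553 (@Lb.r r1623 (@Lb.r r386 (@Lb.r r72 (@Lb.d (nat_lit 361) (nat_lit 73) (nat_lit 280) (@Lb.fm (nat_lit 9) t6988)))))))))))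
noncomputable def l43463 : Lb := (@Lb.d (nat_lit 32) (nat_lit 264) (nat_lit 2) (@Lb.g g6 (@Lb.g g7 (@Lb.r r680 (@Lb.r r2729 (@Lb.r r1706 (@Lb.d (nat_lit 361) (nat_lit 105) (nat_lit 25) (@Lb.fp (nat_lit 3) t322))))))))
noncomputable def l43464 : Lb := (@Lb.d (nat_lit 1) (nat_lit 257) (nat_lit 132) (@Lb.r r1158 (@Lb.r r2376 (@Lb.r r1559 (@Lb.g g5 (@Lb.g g4 (@Lb.d (nat_lit 9) (nat_lit 144) (nat_lit 0) (@Lb.r r291 (@Lb.r r98 (@Lb.fp (nat_lit 3) t264))))))))))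
noncomputable def l43465 : Lb := (@Lb.d (nat_lit 0) (nat_lit 257) (nat_lit 66) (@Lb.g g8 (@Lb.g g9 (@Lb.g g10 (@Lb.g g7 (@Lb.r r386 (@Lb.r r105 (@Lb.r r2120 (@Lb.d (nat_lit 100) (nat_lit 65) (nat_lit 521) (@Lb.fp (nat_lit 9) t166))))))))))
noncomputable def l43466 : Lb := (@Lb.d (nat_lit 0) (nat_lit 256) (nat_lit 128) (@Lb.g g8 (@Lb.g g5 (@Lb.g g10 (@Lb.g g11 (@Lb.r r387 (@Lb.r r402 (@Lb.r r24 (@Lb.d (nat_lit 608) (nat_lit 10) (nat_lit 546) (@Lb.fm (nat_lit 9) t1554))))))))))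
noncomputable def l43467 : Lb := (@Lb.d (nat_lit 600) (nat_lit 64) (nat_lit 529) (@Lb.r r1113 (@Lb.r r2136 (@Lb.r r2470 (@Lb.g g11 (@Lb.g g6 (@Lb.g g5 (@Lb.d (nat_lit 4) (nat_lit 1) (nat_lit 6) (@Lb.t (@Lb.fm (nat_lit 9) t232))))))))))
noncomputable def l43468 : Lb := (@Lb.g g8 (@Lb.g g5 (@Lb.g g7 (@Lb.r r2651 (@Lb.r r24 (@Lb.d (nat_lit 584) (nat_lit 0) (nat_lit 613) (@Lb.t (@Lb.fm (nat_lit 9) t3355))))))))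
noncomputable def l43469 : Lb := (@Lb.d (nat_lit 0) (nat_lit 2) (nat_lit 73) (@Lb.g g8 (@Lb.g g9 (@Lb.g g10 (@Lb.g g11 (@Lb.r r1699 (@Lb.r r533 (@Lb.r r1188 (@Lb.r r1638 (@Lb.d (nat_lit 409) (nat_lit 154) (nat_lit 138) (@Lb.fm (nat_lit 9) t7245)))))))))))
noncomputable def l43470 : Lb := (@Lb.d (nat_lit 73) (nat_lit 289) (nat_lit 66) (@Lb.g g8 (@Lb.g g9 (@Lb.g g10 (@Lb.g g11 (@Lb.r r1386 (@Lb.r r1411 (@Lb.r r420 (@Lb.r r2085 (@Lb.d (nat_lit 41) (nat_lit 153) (nat_lit 340) (@Lb.fm (nat_lit 9) t7504)))))))))))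
noncomputable def l43471 : Lb := (@Lb.d (nat_lit 522) (nat_lit 646) (nat_lit 358) (@Lb.r r68 (@Lb.r r1346 (@Lb.r r267 (@Lb.r r356 (@Lb.g g7 (@Lb.g g6 (@Lb.g g9 (@Lb.g g4 (@Lb.d (nat_lit 97) (nat_lit 129) (nat_lit 65) (@Lb.fm (nat_lit 9) t7505)))))))))))
noncomputable def l43472 : Lb := (@Lb.d (nat_lit 9) (nat_lit 294) (nat_lit 128) (@Lb.g g8 (@Lb.g g9 (@Lb.g g10 (@Lb.g g11 (@Lb.r r674 (@Lb.r r2435 (@Lb.r r420 (@Lb.r r2197 (@Lb.r r1060 (@Lb.d (nat_lit 593) (nat_lit 162) (nat_lit 345) (@Lb.fm (nat_lit 9) t3984))))))))))))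
noncomputable def l43473 : Lb := (@Lb.d (nat_lit 9) (nat_lit 257) (nat_lit 2) (@Lb.g g8 (@Lb.g g9 (@Lb.g g10 (@Lb.r r2666 (@Lb.r r579 (@Lb.r r1129 (@Lb.r r1124 (@Lb.d (nat_lit 280) (nat_lit 102) (nat_lit 612) (@Lb.t (@Lb.fm (nat_lit 9) t455)))))))))))
noncomputable def l43474 : Lb := (@Lb.r r82 (@Lb.d (nat_lit 6) (nat_lit 256) (nat_lit 0) (@Lb.g g8 (@Lb.g g9 (@Lb.r r2649 (@Lb.r r98 (@Lb.r r1608 (@Lb.d (nat_lit 104) (nat_lit 128) (nat_lit 138) (@Lb.fp (nat_lit 3) t6738)))))))))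
noncomputable def l43475 : Lb := (@Lb.d (nat_lit 1) (nat_lit 514) (nat_lit 73) (@Lb.g g8 (@Lb.g g9 (@Lb.g g10 (@Lb.g g11 (@Lb.r r610 (@Lb.r r1607 (@Lb.r r40 (@Lb.r r105 (@Lb.r r2084 (@Lb.d (nat_lit 420) (nat_lit 154) (nat_lit 593) (@Lb.fm (nat_lit 9) t490))))))))))))
noncomputable def l43476 : Lb := (@Lb.d (nat_lit 148) (nat_lit 522) (nat_lit 130) (@Lb.g g8 (@Lb.g g9 (@Lb.g g10 (@Lb.g g11 (@Lb.r r1706 (@Lb.r r1411 (@Lb.r r2201 (@Lb.r r388 (@Lb.d (nat_lit 426) (nat_lit 73) (nat_lit 85) (@Lb.fm (nat_lit 9) t5325)))))))))))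
noncomputable def l43477 : Lb := (@Lb.d (nat_lit 129) (nat_lit 544) (nat_lit 266) (@Lb.r r2178 (@Lb.r r555 (@Lb.r r1561 (@Lb.r r2324 (@Lb.g g7 (@Lb.d (nat_lit 64) (nat_lit 0) (nat_lit 128) (@Lb.t (@Lb.fm (nat_lit 3) t1222)))))))))
noncomputable def l43478 : Lb := (@Lb.d (nat_lit 148) (nat_lit 522) (nat_lit 130) (@Lb.g g8 (@Lb.g g9 (@Lb.g g10 (@Lb.g g11 (@Lb.r r1666 (@Lb.r r1431 (@Lb.r r2657 (@Lb.r r1048 (@Lb.d (nat_lit 545) (nat_lit 154) (nat_lit 41) (@Lb.fm (nat_lit 9) t7506)))))))))))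
noncomputable def l43479 : Lb := (@Lb.r r70 (@Lb.d (nat_lit 4) (nat_lit 261) (nat_lit 0) (@Lb.g g8 (@Lb.g g5 (@Lb.g g11 (@Lb.r r1691 (@Lb.r r1610 (@Lb.r r612 (@Lb.d (nat_lit 2) (nat_lit 153) (nat_lit 665) (@Lb.t (@Lb.fm (nat_lit 9) t50)))))))))))
noncomputable def l43480 : Lb := (@Lb.d (nat_lit 2) (nat_lit 38) (nat_lit 64) (@Lb.g g8 (@Lb.g g9 (@Lb.g g10 (@Lb.g g11 (@Lb.r r1443 (@Lb.r r1188 (@Lb.r r2438 (@Lb.d (nat_lit 90) (nat_lit 84) (nat_lit 665) (@Lb.fm (nat_lit 9) t7507))))))))))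
noncomputable def l43481 : Lb := (@Lb.d (nat_lit 132) (nat_lit 258) (nat_lit 4) (@Lb.g g8 (@Lb.g g9 (@Lb.g g10 (@Lb.g g11 (@Lb.r r1691 (@Lb.r r1642 (@Lb.r r1561 (@Lb.r r532 (@Lb.d (nat_lit 288) (nat_lit 104) (nat_lit 657) (@Lb.fm (nat_lit 9) t50)))))))))))
noncomputable def l43482 : Lb := (@Lb.d (nat_lit 2) (nat_lit 294) (nat_lit 64) (@Lb.g g8 (@Lb.g g9 (@Lb.g g10 (@Lb.g g11 (@Lb.r r1443 (@Lb.r r1188 (@Lb.r r2438 (@Lb.d (nat_lit 90) (nat_lit 82) (nat_lit 664) (@Lb.fm (nat_lit 9) t3220))))))))))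
noncomputable def l43483 : Lb := (@Lb.d (nat_lit 2) (nat_lit 81) (nat_lit 0) (@Lb.g g8 (@Lb.g g5 (@Lb.r r2315 (@Lb.r r2468 (@Lb.r r2150 (@Lb.d (nat_lit 0) (nat_lit 86) (nat_lit 420) (@Lb.fp (nat_lit 3) t1040))))))))
noncomputable def l43484 : Lb := (@Lb.d (nat_lit 0) (nat_lit 0) (nat_lit 130) (@Lb.g g9 (@Lb.g g10 (@Lb.g g11 (@Lb.r r2727 (@Lb.r r1638 (@Lb.r r1557 (@Lb.r r1288 (@Lb.d (nat_lit 585) (nat_lit 137) (nat_lit 545) (@Lb.t (@Lb.fm (nat_lit 9) t5104)))))))))))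
noncomputable def l43485 : Lb := (@Lb.d (nat_lit 0) (nat_lit 512) (nat_lit 130) (@Lb.g g8 (@Lb.g g9 (@Lb.g g10 (@Lb.g g11 (@Lb.r r680 (@Lb.r r683 (@Lb.r r2666 (@Lb.r r2585 (@Lb.r r516 (@Lb.d (nat_lit 328) (nat_lit 137) (nat_lit 545) (@Lb.fp (nat_lit 9) t2832))))))))))))
noncomputable def l43486 : Lb := (@Lb.d (nat_lit 8) (nat_lit 10) (nat_lit 0) (@Lb.g g5 (@Lb.r r2311 (@Lb.r r1192 (@Lb.r r1450 (@Lb.r r2473 (@Lb.d (nat_lit 106) (nat_lit 153) (nat_lit 394) (@Lb.t (@Lb.fp (nat_lit 3) t386)))))))))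
noncomputable def l43487 : Lb := (@Lb.d (nat_lit 256) (nat_lit 1) (nat_lit 598) (@Lb.r r2436 (@Lb.r r2379 (@Lb.g g7 (@Lb.g g6 (@Lb.g g4 (@Lb.d (nat_lit 65) (nat_lit 4) (nat_lit 1) (@Lb.t (@Lb.fp (nat_lit 9) t7508)))))))))
noncomputable def l43488 : Lb := (@Lb.d (nat_lit 0) (nat_lit 0) (nat_lit 4) (@Lb.g g4 (@Lb.g g10 (@Lb.g g11 (@Lb.r r2567 (@Lb.r r1418 (@Lb.d (nat_lit 146) (nat_lit 5) (nat_lit 362) (@Lb.t (@Lb.fp (nat_lit 9) t1963)))))))))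
noncomputable def l43489 : Lb := (@Lb.d (nat_lit 658) (nat_lit 256) (nat_lit 402) (@Lb.r r146 (@Lb.r r101 (@Lb.r r280 (@Lb.g g11 (@Lb.d (nat_lit 128) (nat_lit 0) (nat_lit 384) (@Lb.r r578 (@Lb.r r529 (@Lb.t (@Lb.fm (nat_lit 3) t7509))))))))))
noncomputable def l43490 : Lb := (@Lb.d (nat_lit 144) (nat_lit 258) (nat_lit 384) (@Lb.g g8 (@Lb.g g9 (@Lb.g g10 (@Lb.g g11 (@Lb.r r1602 (@Lb.r r424 (@Lb.r r1065 (@Lb.r r1060 (@Lb.d (nat_lit 513) (nat_lit 154) (nat_lit 154) (@Lb.fp (nat_lit 9) t650)))))))))))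
noncomputable def l43491 : Lb := (@Lb.d (nat_lit 37) (nat_lit 256) (nat_lit 73) (@Lb.g g8 (@Lb.g g9 (@Lb.g g10 (@Lb.g g11 (@Lb.r r419 (@Lb.r r1610 (@Lb.r r2597 (@Lb.r r660 (@Lb.d (nat_lit 538) (nat_lit 102) (nat_lit 661) (@Lb.fm (nat_lit 9) t3480)))))))))))
noncomputable def l43492 : Lb := (@Lb.d (nat_lit 148) (nat_lit 257) (nat_lit 128) (@Lb.g g8 (@Lb.g g9 (@Lb.g g10 (@Lb.g g11 (@Lb.r r1666 (@Lb.r r2455 (@Lb.r r1633 (@Lb.r r1048 (@Lb.d (nat_lit 553) (nat_lit 25) (nat_lit 281) (@Lb.fm (nat_lit 9) t5527)))))))))))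
noncomputable def l43493 : Lb := (@Lb.r r21 (@Lb.d (nat_lit 144) (nat_lit 32) (nat_lit 64) (@Lb.g g8 (@Lb.g g10 (@Lb.g g11 (@Lb.r r170 (@Lb.r r1313 (@Lb.r r2451 (@Lb.r r2564 (@Lb.d (nat_lit 290) (nat_lit 25) (nat_lit 258) (@Lb.t (@Lb.fm (nat_lit 9) t7250))))))))))))
noncomputable def l43494 : Lb := (@Lb.d (nat_lit 406) (nat_lit 512) (nat_lit 73) (@Lb.g g4 (@Lb.g g10 (@Lb.g g11 (@Lb.r r2627 (@Lb.r r658 (@Lb.d (nat_lit 613) (nat_lit 88) (nat_lit 602) (@Lb.t (@Lb.fp (nat_lit 9) t7510)))))))))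
noncomputable def l43495 : Lb := (@Lb.d (nat_lit 68) (nat_lit 641) (nat_lit 596) (@Lb.r r24 (@Lb.r r1178 (@Lb.r r2691 (@Lb.g g7 (@Lb.g g6 (@Lb.g g9 (@Lb.d (nat_lit 0) (nat_lit 0) (nat_lit 6) (@Lb.t (@Lb.fp (nat_lit 9) t3910))))))))))
noncomputable def l43496 : Lb := (@Lb.d (nat_lit 144) (nat_lit 514) (nat_lit 384) (@Lb.g g8 (@Lb.g g9 (@Lb.g g10 (@Lb.g g11 (@Lb.r r1602 (@Lb.r r424 (@Lb.r r1065 (@Lb.r r1060 (@Lb.d (nat_lit 516) (nat_lit 152) (nat_lit 154) (@Lb.fp (nat_lit 9) t3910)))))))))))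
noncomputable def l43497 : Lb := (@Lb.d (nat_lit 146) (nat_lit 258) (nat_lit 128) (@Lb.g g8 (@Lb.g g9 (@Lb.g g10 (@Lb.g g11 (@Lb.r r2722 (@Lb.r r2439 (@Lb.r r145 (@Lb.r r2632 (@Lb.d (nat_lit 610) (nat_lit 133) (nat_lit 424) (@Lb.fp (nat_lit 9) t3204)))))))))))
noncomputable def l43498 : Lb := (@Lb.d (nat_lit 2) (nat_lit 256) (nat_lit 74) (@Lb.g g8 (@Lb.g g10 (@Lb.g g11 (@Lb.r r387 (@Lb.r r1098 (@Lb.d (nat_lit 640) (nat_lit 10) (nat_lit 264) (@Lb.t (@Lb.fm (nat_lit 9) t6369)))))))))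
noncomputable def l43499 : Lb := (@Lb.r r21 (@Lb.d (nat_lit 146) (nat_lit 0) (nat_lit 128) (@Lb.g g8 (@Lb.g g10 (@Lb.g g11 (@Lb.r r650 (@Lb.r r2467 (@Lb.r r1313 (@Lb.r r132 (@Lb.d (nat_lit 593) (nat_lit 132) (nat_lit 608) (@Lb.t (@Lb.fm (nat_lit 9) t7120))))))))))))
noncomputable def l43500 : Lb := (@Lb.d (nat_lit 2) (nat_lit 512) (nat_lit 0) (@Lb.g g8 (@Lb.r r1291 (@Lb.r r402 (@Lb.d (nat_lit 514) (nat_lit 74) (nat_lit 514) (@Lb.t (@Lb.fm (nat_lit 3) t7511)))))))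
noncomputable def l43501 : Lb := (@Lb.d (nat_lit 1) (nat_lit 512) (nat_lit 136) (@Lb.g g8 (@Lb.g g11 (@Lb.r r1049 (@Lb.r r2456 (@Lb.r r2378 (@Lb.r r2439 (@Lb.d (nat_lit 610) (nat_lit 134) (nat_lit 528) (@Lb.fp (nat_lit 3) t1561)))))))))
noncomputable def l43502 : Lb := (@Lb.d (nat_lit 341) (nat_lit 389) (nat_lit 662) (@Lb.r r2438 (@Lb.r r347 (@Lb.r r677 (@Lb.g g7 (@Lb.g g6 (@Lb.g g5 (@Lb.g g8 (@Lb.d (nat_lit 330) (nat_lit 0) (nat_lit 65) (@Lb.fm (nat_lit 9) t1548))))))))))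
noncomputable def l43503 : Lb := (@Lb.d (nat_lit 2) (nat_lit 256) (nat_lit 0) (@Lb.g g8 (@Lb.r r1291 (@Lb.r r402 (@Lb.d (nat_lit 512) (nat_lit 74) (nat_lit 514) (@Lb.t (@Lb.fm (nat_lit 3) t7511)))))))
noncomputable def l43504 : Lb := (@Lb.r r21 (@Lb.d (nat_lit 129) (nat_lit 512) (nat_lit 130) (@Lb.g g8 (@Lb.g g10 (@Lb.g g11 (@Lb.r r650 (@Lb.r r2467 (@Lb.r r1313 (@Lb.r r1444 (@Lb.d (nat_lit 277) (nat_lit 146) (nat_lit 68) (@Lb.t (@Lb.fm (nat_lit 9) t7392))))))))))))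
noncomputable def l43505 : Lb := (@Lb.d (nat_lit 537) (nat_lit 288) (nat_lit 128) (@Lb.g g4 (@Lb.g g11 (@Lb.r r293 (@Lb.r r2587 (@Lb.r r614 (@Lb.d (nat_lit 69) (nat_lit 34) (nat_lit 36) (@Lb.fp (nat_lit 3) t1832))))))))
noncomputable def l43506 : Lb := (@Lb.d (nat_lit 326) (nat_lit 613) (nat_lit 69) (@Lb.r r2452 (@Lb.r r681 (@Lb.r r2371 (@Lb.g g10 (@Lb.g g5 (@Lb.g g4 (@Lb.d (nat_lit 16) (nat_lit 1) (nat_lit 34) (@Lb.r r391 (@Lb.t (@Lb.fp (nat_lit 9) t1954)))))))))))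
noncomputable def l43507 : Lb := (@Lb.d (nat_lit 2) (nat_lit 66) (nat_lit 130) (@Lb.g g8 (@Lb.g g9 (@Lb.g g10 (@Lb.g g11 (@Lb.r r2475 (@Lb.r r420 (@Lb.r r102 (@Lb.r r132 (@Lb.d (nat_lit 290) (nat_lit 2) (nat_lit 73) (@Lb.fp (nat_lit 9) t2488)))))))))))
noncomputable def l43508 : Lb := (@Lb.r r263 (@Lb.d (nat_lit 0) (nat_lit 585) (nat_lit 1) (@Lb.g g8 (@Lb.g g9 (@Lb.g g10 (@Lb.r r1642 (@Lb.r r2627 (@Lb.r r2340 (@Lb.d (nat_lit 66) (nat_lit 130) (nat_lit 512) (@Lb.t (@Lb.fp (nat_lit 9) t4534)))))))))))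
noncomputable def l43509 : Lb := (@Lb.d (nat_lit 0) (nat_lit 585) (nat_lit 128) (@Lb.g g9 (@Lb.g g11 (@Lb.r r658 (@Lb.r r387 (@Lb.r r2564 (@Lb.d (nat_lit 0) (nat_lit 166) (nat_lit 520) (@Lb.fp (nat_lit 3) t242))))))))
noncomputable def l43510 : Lb := (@Lb.d (nat_lit 34) (nat_lit 0) (nat_lit 128) (@Lb.g g8 (@Lb.g g11 (@Lb.r r353 (@Lb.r r2707 (@Lb.r r150 (@Lb.r r2660 (@Lb.d (nat_lit 134) (nat_lit 153) (nat_lit 18) (@Lb.fp (nat_lit 3) t6696)))))))))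
noncomputable def l43511 : Lb := (@Lb.d (nat_lit 128) (nat_lit 578) (nat_lit 130) (@Lb.g g9 (@Lb.g g10 (@Lb.g g11 (@Lb.r r2662 (@Lb.r r1412 (@Lb.r r2635 (@Lb.d (nat_lit 354) (nat_lit 2) (nat_lit 258) (@Lb.t (@Lb.fp (nat_lit 9) t578))))))))))
noncomputable def l43512 : Lb := (@Lb.r r323 (@Lb.d (nat_lit 32) (nat_lit 0) (nat_lit 2) (@Lb.g g10 (@Lb.r r1368 (@Lb.r r661 (@Lb.r r2710 (@Lb.r r2439 (@Lb.d (nat_lit 0) (nat_lit 34) (nat_lit 36) (@Lb.t (@Lb.fp (nat_lit 3) t1561))))))))))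
noncomputable def l43513 : Lb := (@Lb.r r21 (@Lb.d (nat_lit 128) (nat_lit 0) (nat_lit 130) (@Lb.g g8 (@Lb.g g10 (@Lb.g g11 (@Lb.r r2587 (@Lb.r r386 (@Lb.r r97 (@Lb.r r1620 (@Lb.d (nat_lit 665) (nat_lit 66) (nat_lit 613) (@Lb.t (@Lb.fp (nat_lit 9) t3278))))))))))))
noncomputable def l43514 : Lb := (@Lb.d (nat_lit 0) (nat_lit 536) (nat_lit 585) (@Lb.g g10 (@Lb.g g7 (@Lb.d (nat_lit 610) (nat_lit 74) (nat_lit 678) (@Lb.fp (nat_lit 3) t171)))))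
noncomputable def l43515 : Lb := (@Lb.d (nat_lit 128) (nat_lit 521) (nat_lit 129) (@Lb.g g8 (@Lb.g g9 (@Lb.g g10 (@Lb.g g11 (@Lb.r r2729 (@Lb.r r1642 (@Lb.r r1643 (@Lb.r r596 (@Lb.d (nat_lit 409) (nat_lit 66) (nat_lit 104) (@Lb.fp (nat_lit 9) t2139)))))))))))
noncomputable def l43516 : Lb := (@Lb.d (nat_lit 420) (nat_lit 549) (nat_lit 149) (@Lb.r r1432 (@Lb.r r2405 (@Lb.r r1354 (@Lb.r r1307 (@Lb.g g5 (@Lb.g g4 (@Lb.d (nat_lit 73) (nat_lit 2) (nat_lit 0) (@Lb.r r98 (@Lb.fm (nat_lit 3) t2306))))))))))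
noncomputable def l43517 : Lb := (@Lb.d (nat_lit 2) (nat_lit 550) (nat_lit 0) (@Lb.g g8 (@Lb.g g9 (@Lb.g g10 (@Lb.r r2571 (@Lb.r r1188 (@Lb.r r2438 (@Lb.d (nat_lit 576) (nat_lit 148) (nat_lit 649) (@Lb.t (@Lb.fm (nat_lit 9) t5377))))))))))
noncomputable def l43518 : Lb := (@Lb.r r275 (@Lb.d (nat_lit 4) (nat_lit 337) (nat_lit 2) (@Lb.g g5 (@Lb.g g10 (@Lb.r r1563 (@Lb.r r386 (@Lb.r r24 (@Lb.d (nat_lit 32) (nat_lit 6) (nat_lit 346) (@Lb.fm (nat_lit 3) t7068)))))))))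
noncomputable def l43519 : Lb := (@Lb.r r323 (@Lb.d (nat_lit 38) (nat_lit 276) (nat_lit 0) (@Lb.g g8 (@Lb.g g9 (@Lb.g g10 (@Lb.r r1323 (@Lb.r r328 (@Lb.r r1158 (@Lb.d (nat_lit 256) (nat_lit 2) (nat_lit 416) (@Lb.t (@Lb.fm (nat_lit 9) t2953)))))))))))
noncomputable def l43520 : Lb := (@Lb.d (nat_lit 533) (nat_lit 2) (nat_lit 354) (@Lb.r r1045 (@Lb.r r70 (@Lb.r r420 (@Lb.g g11 (@Lb.g g6 (@Lb.d (nat_lit 16) (nat_lit 0) (nat_lit 129) (@Lb.fp (nat_lit 3) t2115))))))))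
noncomputable def l43521 : Lb := (@Lb.r r20 (@Lb.d (nat_lit 4) (nat_lit 578) (nat_lit 73) (@Lb.g g9 (@Lb.g g10 (@Lb.g g11 (@Lb.r r1642 (@Lb.r r1607 (@Lb.r r8 (@Lb.d (nat_lit 354) (nat_lit 97) (nat_lit 346) (@Lb.t (@Lb.fm (nat_lit 9) t7512)))))))))))
noncomputable def l43522 : Lb := (@Lb.d (nat_lit 33) (nat_lit 294) (nat_lit 66) (@Lb.g g8 (@Lb.g g9 (@Lb.g g10 (@Lb.g g11 (@Lb.r r2666 (@Lb.r r1603 (@Lb.r r25 (@Lb.r r1048 (@Lb.d (nat_lit 586) (nat_lit 104) (nat_lit 601) (@Lb.fp (nat_lit 9) t1893)))))))))))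
noncomputable def l43523 : Lb := (@Lb.d (nat_lit 1) (nat_lit 522) (nat_lit 128) (@Lb.g g8 (@Lb.g g9 (@Lb.g g11 (@Lb.r r1110 (@Lb.r r2312 (@Lb.r r1687 (@Lb.r r2401 (@Lb.d (nat_lit 10) (nat_lit 33) (nat_lit 536) (@Lb.t (@Lb.fp (nat_lit 9) t2700)))))))))))
noncomputable def l43524 : Lb := (@Lb.r r82 (@Lb.d (nat_lit 130) (nat_lit 514) (nat_lit 64) (@Lb.g g8 (@Lb.g g9 (@Lb.g g11 (@Lb.r r291 (@Lb.r r1188 (@Lb.r r2470 (@Lb.r r2449 (@Lb.d (nat_lit 610) (nat_lit 74) (nat_lit 649) (@Lb.t (@Lb.fp (nat_lit 9) t7513))))))))))))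
noncomputable def l43525 : Lb := (@Lb.d (nat_lit 0) (nat_lit 512) (nat_lit 66) (@Lb.g g10 (@Lb.g g11 (@Lb.r r2691 (@Lb.r r1105 (@Lb.r r98 (@Lb.r r1124 (@Lb.d (nat_lit 2) (nat_lit 106) (nat_lit 326) (@Lb.fp (nat_lit 3) t7514)))))))))
noncomputable def l43526 : Lb := (@Lb.d (nat_lit 100) (nat_lit 66) (nat_lit 341) (@Lb.r r1608 (@Lb.r r2390 (@Lb.r r1169 (@Lb.g g7 (@Lb.g g6 (@Lb.g g4 (@Lb.d (nat_lit 1) (nat_lit 4) (nat_lit 2) (@Lb.t (@Lb.fm (nat_lit 9) t2260))))))))))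
noncomputable def l43527 : Lb := (@Lb.d (nat_lit 354) (nat_lit 2) (nat_lit 581) (@Lb.r r2632 (@Lb.r r2649 (@Lb.r r2470 (@Lb.g g7 (@Lb.g g6 (@Lb.g g4 (@Lb.d (nat_lit 1) (nat_lit 0) (nat_lit 2) (@Lb.r r25 (@Lb.t (@Lb.fp (nat_lit 9) t7515)))))))))))
noncomputable def l43528 : Lb := (@Lb.d (nat_lit 0) (nat_lit 512) (nat_lit 66) (@Lb.g g10 (@Lb.g g11 (@Lb.r r419 (@Lb.r r1620 (@Lb.r r2122 (@Lb.r r289 (@Lb.d (nat_lit 86) (nat_lit 73) (nat_lit 609) (@Lb.fp (nat_lit 3) t7516)))))))))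
noncomputable def l43529 : Lb := (@Lb.d (nat_lit 160) (nat_lit 264) (nat_lit 130) (@Lb.g g10 (@Lb.g g11 (@Lb.r r2712 (@Lb.r r2645 (@Lb.r r599 (@Lb.r r1370 (@Lb.d (nat_lit 298) (nat_lit 146) (nat_lit 20) (@Lb.fm (nat_lit 3) t716)))))))))
noncomputable def l43530 : Lb := (@Lb.d (nat_lit 0) (nat_lit 514) (nat_lit 66) (@Lb.g g9 (@Lb.g g10 (@Lb.g g11 (@Lb.r r2331 (@Lb.r r1685 (@Lb.r r1124 (@Lb.r r2122 (@Lb.d (nat_lit 665) (nat_lit 41) (nat_lit 422) (@Lb.t (@Lb.fm (nat_lit 9) t6941)))))))))))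
noncomputable def l43531 : Lb := (@Lb.d (nat_lit 8) (nat_lit 545) (nat_lit 66) (@Lb.g g8 (@Lb.g g9 (@Lb.g g10 (@Lb.g g11 (@Lb.r r2721 (@Lb.r r1447 (@Lb.r r386 (@Lb.r r24 (@Lb.d (nat_lit 148) (nat_lit 145) (nat_lit 577) (@Lb.fm (nat_lit 9) t1937)))))))))))
noncomputable def l43532 : Lb := (@Lb.r r275 (@Lb.d (nat_lit 64) (nat_lit 514) (nat_lit 2) (@Lb.g g8 (@Lb.g g9 (@Lb.g g10 (@Lb.r r1303 (@Lb.r r2193 (@Lb.r r2394 (@Lb.r r2372 (@Lb.d (nat_lit 600) (nat_lit 130) (nat_lit 646) (@Lb.t (@Lb.fm (nat_lit 9) t6833))))))))))))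
noncomputable def l43533 : Lb := (@Lb.d (nat_lit 329) (nat_lit 554) (nat_lit 393) (@Lb.r r2583 (@Lb.r r1432 (@Lb.r r2138 (@Lb.g g7 (@Lb.g g9 (@Lb.g g4 (@Lb.d (nat_lit 89) (nat_lit 65) (nat_lit 68) (@Lb.r r98 (@Lb.t (@Lb.fm (nat_lit 9) t1664)))))))))))
noncomputable def l43534 : Lb := (@Lb.d (nat_lit 660) (nat_lit 146) (nat_lit 80) (@Lb.r r2321 (@Lb.r r2371 (@Lb.r r2726 (@Lb.g g6 (@Lb.g g5 (@Lb.g g8 (@Lb.d (nat_lit 256) (nat_lit 6) (nat_lit 1) (@Lb.r r391 (@Lb.t (@Lb.fp (nat_lit 9) t6637)))))))))))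
noncomputable def l43535 : Lb := (@Lb.d (nat_lit 273) (nat_lit 262) (nat_lit 130) (@Lb.r r1096 (@Lb.r r2129 (@Lb.r r418 (@Lb.g g11 (@Lb.g g5 (@Lb.d (nat_lit 0) (nat_lit 18) (nat_lit 264) (@Lb.r r578 (@Lb.fp (nat_lit 3) t2573)))))))))
noncomputable def l43536 : Lb := (@Lb.d (nat_lit 0) (nat_lit 512) (nat_lit 130) (@Lb.g g10 (@Lb.g g11 (@Lb.r r614 (@Lb.r r2659 (@Lb.r r24 (@Lb.r r2661 (@Lb.d (nat_lit 517) (nat_lit 72) (nat_lit 596) (@Lb.fp (nat_lit 3) t7517)))))))))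
noncomputable def l43537 : Lb := (@Lb.d (nat_lit 9) (nat_lit 513) (nat_lit 2) (@Lb.g g8 (@Lb.g g9 (@Lb.g g10 (@Lb.g g11 (@Lb.r r2705 (@Lb.r r2707 (@Lb.r r132 (@Lb.r r2118 (@Lb.r r1156 (@Lb.d (nat_lit 322) (nat_lit 0) (nat_lit 162) (@Lb.fm (nat_lit 9) t5180))))))))))))
noncomputable def l43538 : Lb := (@Lb.d (nat_lit 0) (nat_lit 256) (nat_lit 130) (@Lb.g g10 (@Lb.g g11 (@Lb.r r614 (@Lb.r r2659 (@Lb.r r24 (@Lb.r r2661 (@Lb.d (nat_lit 517) (nat_lit 65) (nat_lit 597) (@Lb.fp (nat_lit 3) t7517)))))))))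
noncomputable def l43539 : Lb := (@Lb.r r355 (@Lb.d (nat_lit 40) (nat_lit 258) (nat_lit 6) (@Lb.g g9 (@Lb.g g10 (@Lb.r r2387 (@Lb.r r408 (@Lb.r r677 (@Lb.d (nat_lit 421) (nat_lit 138) (nat_lit 26) (@Lb.fm (nat_lit 3) t1834)))))))))
noncomputable def l43540 : Lb := (@Lb.r r21 (@Lb.r r326 (@Lb.d (nat_lit 42) (nat_lit 256) (nat_lit 68) (@Lb.g g8 (@Lb.g g11 (@Lb.r r1446 (@Lb.r r1701 (@Lb.r r1108 (@Lb.d (nat_lit 278) (nat_lit 41) (nat_lit 592) (@Lb.fm (nat_lit 3) t7518))))))))))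
noncomputable def l43541 : Lb := (@Lb.d (nat_lit 34) (nat_lit 96) (nat_lit 658) (@Lb.r r24 (@Lb.r r97 (@Lb.r r1414 (@Lb.r r2643 (@Lb.g g5 (@Lb.d (nat_lit 0) (nat_lit 1) (nat_lit 0) (@Lb.t (@Lb.fm (nat_lit 3) t2637)))))))))
noncomputable def l43542 : Lb := (@Lb.d (nat_lit 36) (nat_lit 104) (nat_lit 657) (@Lb.r r24 (@Lb.r r97 (@Lb.r r1414 (@Lb.r r2643 (@Lb.g g5 (@Lb.d (nat_lit 0) (nat_lit 1) (nat_lit 0) (@Lb.t (@Lb.fm (nat_lit 3) t4742)))))))))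
noncomputable def l43543 : Lb := (@Lb.d (nat_lit 8) (nat_lit 258) (nat_lit 73) (@Lb.g g9 (@Lb.g g10 (@Lb.g g11 (@Lb.r r2691 (@Lb.r r2132 (@Lb.r r1610 (@Lb.r r1425 (@Lb.d (nat_lit 640) (nat_lit 90) (nat_lit 646) (@Lb.t (@Lb.fp (nat_lit 9) t4544)))))))))))
noncomputable def l43544 : Lb := (@Lb.d (nat_lit 320) (nat_lit 616) (nat_lit 81) (@Lb.r r24 (@Lb.r r1317 (@Lb.r r1446 (@Lb.r r2691 (@Lb.g g7 (@Lb.g g6 (@Lb.g g5 (@Lb.d (nat_lit 0) (nat_lit 5) (nat_lit 66) (@Lb.t (@Lb.fp (nat_lit 9) t7519)))))))))))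
noncomputable def l43545 : Lb := (@Lb.d (nat_lit 344) (nat_lit 134) (nat_lit 72) (@Lb.r r24 (@Lb.r r97 (@Lb.r r1414 (@Lb.r r2579 (@Lb.g g7 (@Lb.g g5 (@Lb.d (nat_lit 0) (nat_lit 1) (nat_lit 64) (@Lb.fm (nat_lit 3) t7520)))))))))
noncomputable def l43546 : Lb := (@Lb.d (nat_lit 0) (nat_lit 512) (nat_lit 73) (@Lb.g g8 (@Lb.g g10 (@Lb.g g11 (@Lb.r r1381 (@Lb.r r1691 (@Lb.r r1178 (@Lb.r r2584 (@Lb.d (nat_lit 280) (nat_lit 2) (nat_lit 288) (@Lb.t (@Lb.fm (nat_lit 9) t521)))))))))))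
noncomputable def l43547 : Lb := (@Lb.d (nat_lit 2) (nat_lit 258) (nat_lit 73) (@Lb.g g8 (@Lb.g g9 (@Lb.g g10 (@Lb.g g11 (@Lb.r r2666 (@Lb.r r1635 (@Lb.r r100 (@Lb.r r21 (@Lb.r r36 (@Lb.d (nat_lit 352) (nat_lit 96) (nat_lit 358) (@Lb.fm (nat_lit 9) t2487))))))))))))
noncomputable def l43548 : Lb := (@Lb.r r82 (@Lb.d (nat_lit 34) (nat_lit 289) (nat_lit 64) (@Lb.g g8 (@Lb.g g9 (@Lb.g g11 (@Lb.r r1430 (@Lb.r r1367 (@Lb.r r2405 (@Lb.r r84 (@Lb.d (nat_lit 282) (nat_lit 168) (nat_lit 70) (@Lb.t (@Lb.fm (nat_lit 9) t1313))))))))))))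
noncomputable def l43549 : Lb := (@Lb.d (nat_lit 0) (nat_lit 258) (nat_lit 2) (@Lb.g g9 (@Lb.g g10 (@Lb.r r679 (@Lb.r r1685 (@Lb.r r1124 (@Lb.r r2122 (@Lb.d (nat_lit 162) (nat_lit 105) (nat_lit 405) (@Lb.fp (nat_lit 3) t6941)))))))))
noncomputable def l43550 : Lb := (@Lb.d (nat_lit 6) (nat_lit 0) (nat_lit 2) (@Lb.g g8 (@Lb.g g9 (@Lb.g g10 (@Lb.r r1689 (@Lb.r r146 (@Lb.r r1608 (@Lb.d (nat_lit 610) (nat_lit 42) (nat_lit 385) (@Lb.t (@Lb.fm (nat_lit 9) t590))))))))))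
noncomputable def l43551 : Lb := (@Lb.d (nat_lit 6) (nat_lit 64) (nat_lit 74) (@Lb.g g8 (@Lb.g g9 (@Lb.g g10 (@Lb.g g11 (@Lb.r r387 (@Lb.r r1130 (@Lb.r r36 (@Lb.d (nat_lit 90) (nat_lit 130) (nat_lit 553) (@Lb.fp (nat_lit 9) t994))))))))))
noncomputable def l43552 : Lb := (@Lb.r r21 (@Lb.d (nat_lit 282) (nat_lit 256) (nat_lit 0) (@Lb.g g8 (@Lb.g g10 (@Lb.r r2715 (@Lb.r r1626 (@Lb.r r145 (@Lb.d (nat_lit 610) (nat_lit 169) (nat_lit 1) (@Lb.fp (nat_lit 3) t3146)))))))))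
noncomputable def l43553 : Lb := (@Lb.d (nat_lit 148) (nat_lit 64) (nat_lit 128) (@Lb.g g8 (@Lb.g g9 (@Lb.g g10 (@Lb.g g11 (@Lb.r r387 (@Lb.r r1130 (@Lb.r r1060 (@Lb.d (nat_lit 88) (nat_lit 129) (nat_lit 9) (@Lb.fp (nat_lit 9) t3197))))))))))
noncomputable def l43554 : Lb := (@Lb.d (nat_lit 5) (nat_lit 512) (nat_lit 74) (@Lb.g g4 (@Lb.g g10 (@Lb.g g11 (@Lb.r r387 (@Lb.d (nat_lit 5) (nat_lit 9) (nat_lit 8) (@Lb.t (@Lb.fp (nat_lit 9) t21))))))))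
noncomputable def l43555 : Lb := (@Lb.d (nat_lit 20) (nat_lit 256) (nat_lit 0) (@Lb.g g8 (@Lb.g g9 (@Lb.g g10 (@Lb.r r1689 (@Lb.r r1427 (@Lb.r r2450 (@Lb.r r520 (@Lb.d (nat_lit 66) (nat_lit 24) (nat_lit 393) (@Lb.t (@Lb.fm (nat_lit 9) t1399)))))))))))
noncomputable def l43556 : Lb := (@Lb.g g4 (@Lb.r r273 (@Lb.r r551 (@Lb.r r340 (@Lb.r r170 (@Lb.r r153 (@Lb.d (nat_lit 528) (nat_lit 257) (nat_lit 16) (@Lb.t (@Lb.fm (nat_lit 3) t1607)))))))))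
noncomputable def l43557 : Lb := (@Lb.d (nat_lit 0) (nat_lit 553) (nat_lit 65) (@Lb.r r337 (@Lb.r r679 (@Lb.r r404 (@Lb.r r86 (@Lb.g g7 (@Lb.g g9 (@Lb.d (nat_lit 4) (nat_lit 5) (nat_lit 0) (@Lb.fm (nat_lit 3) t2)))))))))
noncomputable def l43558 : Lb := (@Lb.d (nat_lit 656) (nat_lit 33) (nat_lit 42) (@Lb.r r2395 (@Lb.r r2404 (@Lb.r r1193 (@Lb.r r1130 (@Lb.g g7 (@Lb.g g4 (@Lb.d (nat_lit 17) (nat_lit 16) (nat_lit 0) (@Lb.fp (nat_lit 3) t45)))))))))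
noncomputable def l43559 : Lb := (@Lb.d (nat_lit 130) (nat_lit 274) (nat_lit 74) (@Lb.g g8 (@Lb.g g9 (@Lb.g g10 (@Lb.g g11 (@Lb.r r2372 (@Lb.r r2443 (@Lb.r r1634 (@Lb.r r2577 (@Lb.d (nat_lit 278) (nat_lit 70) (nat_lit 105) (@Lb.fp (nat_lit 9) t472)))))))))))
noncomputable def l43560 : Lb := (@Lb.d (nat_lit 0) (nat_lit 514) (nat_lit 2) (@Lb.g g9 (@Lb.g g10 (@Lb.r r2212 (@Lb.r r1158 (@Lb.r r97 (@Lb.d (nat_lit 416) (nat_lit 73) (nat_lit 325) (@Lb.fm (nat_lit 3) t2982))))))))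
noncomputable def l43561 : Lb := (@Lb.r r323 (@Lb.d (nat_lit 9) (nat_lit 290) (nat_lit 0) (@Lb.g g8 (@Lb.g g9 (@Lb.g g10 (@Lb.r r1299 (@Lb.r r2182 (@Lb.r r2664 (@Lb.r r2585 (@Lb.d (nat_lit 330) (nat_lit 25) (nat_lit 278) (@Lb.t (@Lb.fm (nat_lit 9) t334))))))))))))
noncomputable def l43562 : Lb := (@Lb.r r323 (@Lb.d (nat_lit 8) (nat_lit 514) (nat_lit 1) (@Lb.g g9 (@Lb.g g6 (@Lb.r r387 (@Lb.d (nat_lit 2) (nat_lit 80) (nat_lit 298) (@Lb.fp (nat_lit 3) t210)))))))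
noncomputable def l43563 : Lb := (@Lb.d (nat_lit 8) (nat_lit 420) (nat_lit 128) (@Lb.g g9 (@Lb.g g10 (@Lb.g g11 (@Lb.r r387 (@Lb.r r98 (@Lb.d (nat_lit 2) (nat_lit 84) (nat_lit 9) (@Lb.t (@Lb.fm (nat_lit 9) t406)))))))))
noncomputable def l43564 : Lb := (@Lb.d (nat_lit 0) (nat_lit 2) (nat_lit 2) (@Lb.g g9 (@Lb.g g10 (@Lb.r r2212 (@Lb.r r1158 (@Lb.r r97 (@Lb.d (nat_lit 418) (nat_lit 73) (nat_lit 325) (@Lb.fm (nat_lit 3) t2551))))))))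
noncomputable def l43565 : Lb := (@Lb.d (nat_lit 2) (nat_lit 258) (nat_lit 130) (@Lb.g g8 (@Lb.g g9 (@Lb.g g10 (@Lb.g g11 (@Lb.r r427 (@Lb.r r424 (@Lb.r r106 (@Lb.r r25 (@Lb.d (nat_lit 585) (nat_lit 4) (nat_lit 680) (@Lb.fm (nat_lit 9) t2258)))))))))))
noncomputable def l43566 : Lb := (@Lb.r r70 (@Lb.d (nat_lit 4) (nat_lit 5) (nat_lit 0) (@Lb.g g8 (@Lb.g g5 (@Lb.r r1691 (@Lb.r r1610 (@Lb.r r612 (@Lb.d (nat_lit 2) (nat_lit 153) (nat_lit 665) (@Lb.fm (nat_lit 3) t50)))))))))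
noncomputable def l43567 : Lb := (@Lb.r r70 (@Lb.d (nat_lit 10) (nat_lit 256) (nat_lit 0) (@Lb.g g8 (@Lb.g g9 (@Lb.r r1627 (@Lb.r r1410 (@Lb.r r2385 (@Lb.r r1300 (@Lb.d (nat_lit 682) (nat_lit 90) (nat_lit 529) (@Lb.fm (nat_lit 3) t7521))))))))))
noncomputable def l43568 : Lb := (@Lb.d (nat_lit 274) (nat_lit 5) (nat_lit 274) (@Lb.r r1297 (@Lb.r r1094 (@Lb.r r359 (@Lb.r r341 (@Lb.g g7 (@Lb.g g6 (@Lb.g g5 (@Lb.g g4 (@Lb.d (nat_lit 2) (nat_lit 1) (nat_lit 65) (@Lb.fp (nat_lit 9) t444)))))))))))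
noncomputable def l43569 : Lb := (@Lb.r r81 (@Lb.d (nat_lit 138) (nat_lit 4) (nat_lit 25) (@Lb.g g8 (@Lb.g g6 (@Lb.r r661 (@Lb.r r343 (@Lb.r r680 (@Lb.d (nat_lit 85) (nat_lit 22) (nat_lit 660) (@Lb.fm (nat_lit 3) t98)))))))))
noncomputable def l43570 : Lb := (@Lb.d (nat_lit 1) (nat_lit 258) (nat_lit 66) (@Lb.g g8 (@Lb.g g9 (@Lb.g g10 (@Lb.g g11 (@Lb.r r535 (@Lb.r r1432 (@Lb.r r106 (@Lb.r r97 (@Lb.d (nat_lit 533) (nat_lit 106) (nat_lit 642) (@Lb.fm (nat_lit 9) t1040)))))))))))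
noncomputable def l43571 : Lb := (@Lb.d (nat_lit 2) (nat_lit 36) (nat_lit 273) (@Lb.r r1635 (@Lb.r r1617 (@Lb.r r422 (@Lb.g g7 (@Lb.g g8 (@Lb.d (nat_lit 353) (nat_lit 16) (nat_lit 64) (@Lb.r r25 (@Lb.fp (nat_lit 3) t5859)))))))))
noncomputable def l43572 : Lb := (@Lb.d (nat_lit 2) (nat_lit 258) (nat_lit 64) (@Lb.g g8 (@Lb.g g9 (@Lb.g g11 (@Lb.r r1543 (@Lb.r r297 (@Lb.r r2468 (@Lb.r r2150 (@Lb.d (nat_lit 5) (nat_lit 81) (nat_lit 388) (@Lb.t (@Lb.fm (nat_lit 9) t1040)))))))))))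
noncomputable def l43573 : Lb := (@Lb.d (nat_lit 586) (nat_lit 674) (nat_lit 288) (@Lb.r r101 (@Lb.g g4 (@Lb.t (@Lb.fp (nat_lit 3) t1174)))))
noncomputable def l43574 : Lb := (@Lb.r r355 (@Lb.d (nat_lit 2) (nat_lit 520) (nat_lit 17) (@Lb.g g8 (@Lb.g g9 (@Lb.g g10 (@Lb.r r2627 (@Lb.r r345 (@Lb.d (nat_lit 169) (nat_lit 161) (nat_lit 658) (@Lb.t (@Lb.fp (nat_lit 9) t1392))))))))))
noncomputable def l43575 : Lb := (@Lb.d (nat_lit 608) (nat_lit 288) (nat_lit 592) (@Lb.r r545 (@Lb.r r299 (@Lb.r r424 (@Lb.r r106 (@Lb.g g5 (@Lb.d (nat_lit 0) (nat_lit 5) (nat_lit 0) (@Lb.t (@Lb.fm (nat_lit 3) t698)))))))))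
noncomputable def l43576 : Lb := (@Lb.d (nat_lit 586) (nat_lit 418) (nat_lit 288) (@Lb.r r101 (@Lb.g g7 (@Lb.g g4 (@Lb.fp (nat_lit 3) t4062)))))
noncomputable def l43577 : Lb := (@Lb.d (nat_lit 608) (nat_lit 546) (nat_lit 656) (@Lb.r r289 (@Lb.r r535 (@Lb.r r356 (@Lb.r r154 (@Lb.g g9 (@Lb.t (@Lb.fm (nat_lit 3) t4165))))))))
noncomputable def l43578 : Lb := (@Lb.d (nat_lit 6) (nat_lit 37) (nat_lit 294) (@Lb.r r21 (@Lb.r r1366 (@Lb.r r683 (@Lb.g g6 (@Lb.g g5 (@Lb.g g4 (@Lb.d (nat_lit 6) (nat_lit 9) (nat_lit 0) (@Lb.t (@Lb.fm (nat_lit 9) t40))))))))))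
noncomputable def l43579 : Lb := (@Lb.d (nat_lit 617) (nat_lit 288) (nat_lit 256) (@Lb.g g8 (@Lb.g g7 (@Lb.d (nat_lit 9) (nat_lit 134) (nat_lit 165) (@Lb.fp (nat_lit 3) t1877)))))
noncomputable def l43580 : Lb := (@Lb.d (nat_lit 608) (nat_lit 164) (nat_lit 289) (@Lb.r r24 (@Lb.g g7 (@Lb.d (nat_lit 0) (nat_lit 0) (nat_lit 132) (@Lb.t (@Lb.fp (nat_lit 3) t1165))))))
noncomputable def l43581 : Lb := (@Lb.d (nat_lit 10) (nat_lit 102) (nat_lit 646) (@Lb.r r72 (@Lb.r r665 (@Lb.r r1442 (@Lb.g g11 (@Lb.g g6 (@Lb.g g5 (@Lb.g g4 (@Lb.d (nat_lit 36) (nat_lit 33) (nat_lit 389) (@Lb.fm (nat_lit 9) t7522))))))))))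
noncomputable def l43582 : Lb := (@Lb.d (nat_lit 37) (nat_lit 256) (nat_lit 73) (@Lb.g g8 (@Lb.g g9 (@Lb.g g10 (@Lb.g g11 (@Lb.r r1194 (@Lb.r r549 (@Lb.r r615 (@Lb.r r2577 (@Lb.r r2180 (@Lb.d (nat_lit 394) (nat_lit 128) (nat_lit 150) (@Lb.fm (nat_lit 9) t125))))))))))))
noncomputable def l43583 : Lb := (@Lb.d (nat_lit 0) (nat_lit 512) (nat_lit 73) (@Lb.g g9 (@Lb.g g10 (@Lb.g g11 (@Lb.r r2726 (@Lb.r r328 (@Lb.r r535 (@Lb.r r289 (@Lb.d (nat_lit 640) (nat_lit 154) (nat_lit 130) (@Lb.t (@Lb.fm (nat_lit 9) t1115)))))))))))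
noncomputable def l43584 : Lb := (@Lb.d (nat_lit 8) (nat_lit 38) (nat_lit 64) (@Lb.g g8 (@Lb.g g9 (@Lb.g g10 (@Lb.g g11 (@Lb.r r666 (@Lb.r r419 (@Lb.r r1177 (@Lb.r r552 (@Lb.d (nat_lit 420) (nat_lit 69) (nat_lit 618) (@Lb.fp (nat_lit 9) t7523)))))))))))
noncomputable def l43585 : Lb := (@Lb.r r21 (@Lb.r r70 (@Lb.d (nat_lit 410) (nat_lit 0) (nat_lit 64) (@Lb.g g8 (@Lb.g g11 (@Lb.r r2459 (@Lb.r r1114 (@Lb.r r37 (@Lb.d (nat_lit 2) (nat_lit 128) (nat_lit 394) (@Lb.fp (nat_lit 3) t916))))))))))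
noncomputable def l43586 : Lb := (@Lb.d (nat_lit 128) (nat_lit 66) (nat_lit 73) (@Lb.g g9 (@Lb.g g10 (@Lb.g g11 (@Lb.r r280 (@Lb.r r551 (@Lb.r r2122 (@Lb.d (nat_lit 664) (nat_lit 16) (nat_lit 5) (@Lb.t (@Lb.fm (nat_lit 9) t578))))))))))
noncomputable def l43587 : Lb := (@Lb.r r331 (@Lb.d (nat_lit 32) (nat_lit 66) (nat_lit 1) (@Lb.g g8 (@Lb.g g5 (@Lb.g g10 (@Lb.r r1690 (@Lb.r r1411 (@Lb.r r344 (@Lb.d (nat_lit 329) (nat_lit 20) (nat_lit 264) (@Lb.t (@Lb.fp (nat_lit 9) t1059)))))))))))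
noncomputable def l43588 : Lb := (@Lb.d (nat_lit 2) (nat_lit 514) (nat_lit 130) (@Lb.g g8 (@Lb.g g9 (@Lb.g g10 (@Lb.g g11 (@Lb.r r136 (@Lb.r r90 (@Lb.r r661 (@Lb.r r407 (@Lb.r r1540 (@Lb.d (nat_lit 86) (nat_lit 74) (nat_lit 616) (@Lb.fm (nat_lit 9) t3002))))))))))))
noncomputable def l43589 : Lb := (@Lb.d (nat_lit 169) (nat_lit 538) (nat_lit 84) (@Lb.r r2178 (@Lb.r r2715 (@Lb.r r357 (@Lb.g g7 (@Lb.g g8 (@Lb.d (nat_lit 528) (nat_lit 16) (nat_lit 128) (@Lb.fm (nat_lit 3) t1561))))))))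
noncomputable def l43590 : Lb := (@Lb.r r323 (@Lb.d (nat_lit 2) (nat_lit 258) (nat_lit 2) (@Lb.g g8 (@Lb.g g9 (@Lb.g g10 (@Lb.r r2347 (@Lb.r r2434 (@Lb.r r97 (@Lb.r r24 (@Lb.d (nat_lit 74) (nat_lit 9) (nat_lit 420) (@Lb.t (@Lb.fp (nat_lit 9) t263))))))))))))
noncomputable def l43591 : Lb := (@Lb.d (nat_lit 38) (nat_lit 516) (nat_lit 74) (@Lb.g g8 (@Lb.g g9 (@Lb.g g10 (@Lb.g g11 (@Lb.r r2471 (@Lb.r r1642 (@Lb.r r1300 (@Lb.r r297 (@Lb.d (nat_lit 666) (nat_lit 33) (nat_lit 584) (@Lb.fm (nat_lit 9) t128)))))))))))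
noncomputable def l43592 : Lb := (@Lb.d (nat_lit 1) (nat_lit 514) (nat_lit 72) (@Lb.g g8 (@Lb.g g9 (@Lb.g g11 (@Lb.r r2370 (@Lb.r r1431 (@Lb.r r2585 (@Lb.r r2564 (@Lb.d (nat_lit 649) (nat_lit 64) (nat_lit 354) (@Lb.t (@Lb.fm (nat_lit 9) t1401)))))))))))
noncomputable def l43593 : Lb := (@Lb.d (nat_lit 517) (nat_lit 346) (nat_lit 600) (@Lb.r r1317 (@Lb.r r1110 (@Lb.r r2472 (@Lb.r r2579 (@Lb.g g6 (@Lb.g g4 (@Lb.d (nat_lit 1) (nat_lit 0) (nat_lit 2) (@Lb.fp (nat_lit 3) t7524)))))))))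
noncomputable def l43594 : Lb := (@Lb.d (nat_lit 36) (nat_lit 677) (nat_lit 549) (@Lb.r r37 (@Lb.r r88 (@Lb.r r323 (@Lb.g g10 (@Lb.d (nat_lit 32) (nat_lit 4) (nat_lit 17) (@Lb.r r387 (@Lb.r r145 (@Lb.t (@Lb.fp (nat_lit 3) t5459))))))))))
noncomputable def l43595 : Lb := (@Lb.r r322 (@Lb.d (nat_lit 0) (nat_lit 2) (nat_lit 576) (@Lb.g g8 (@Lb.g g9 (@Lb.g g7 (@Lb.r r1449 (@Lb.r r1130 (@Lb.r r1096 (@Lb.d (nat_lit 32) (nat_lit 80) (nat_lit 601) (@Lb.t (@Lb.fp (nat_lit 9) t807)))))))))))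
noncomputable def l43596 : Lb := (@Lb.d (nat_lit 2) (nat_lit 544) (nat_lit 130) (@Lb.g g8 (@Lb.g g10 (@Lb.g g11 (@Lb.r r1618 (@Lb.r r401 (@Lb.r r619 (@Lb.d (nat_lit 325) (nat_lit 89) (nat_lit 34) (@Lb.t (@Lb.fp (nat_lit 9) t287))))))))))
noncomputable def l43597 : Lb := (@Lb.d (nat_lit 144) (nat_lit 538) (nat_lit 130) (@Lb.g g8 (@Lb.g g9 (@Lb.g g10 (@Lb.g g11 (@Lb.r r427 (@Lb.r r1602 (@Lb.r r1433 (@Lb.r r388 (@Lb.d (nat_lit 617) (nat_lit 161) (nat_lit 586) (@Lb.fp (nat_lit 9) t1154)))))))))))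
noncomputable def l43598 : Lb := (@Lb.d (nat_lit 665) (nat_lit 582) (nat_lit 577) (@Lb.r r2660 (@Lb.r r1637 (@Lb.r r346 (@Lb.g g7 (@Lb.g g4 (@Lb.d (nat_lit 22) (nat_lit 0) (nat_lit 132) (@Lb.fp (nat_lit 3) t386))))))))
noncomputable def l43599 : Lb := (@Lb.r r21 (@Lb.r r70 (@Lb.g g4 (@Lb.r r1559 (@Lb.r r405 (@Lb.r r86 (@Lb.r r2148 (@Lb.d (nat_lit 512) (nat_lit 0) (nat_lit 0) (@Lb.t (@Lb.fp (nat_lit 3) t728))))))))))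
noncomputable def l43600 : Lb := (@Lb.r r323 (@Lb.d (nat_lit 36) (nat_lit 514) (nat_lit 1) (@Lb.g g8 (@Lb.g g9 (@Lb.g g10 (@Lb.r r2466 (@Lb.r r2667 (@Lb.r r2585 (@Lb.r r1556 (@Lb.d (nat_lit 9) (nat_lit 160) (nat_lit 384) (@Lb.t (@Lb.fm (nat_lit 9) t50))))))))))))
noncomputable def l43601 : Lb := (@Lb.d (nat_lit 2) (nat_lit 512) (nat_lit 64) (@Lb.g g8 (@Lb.g g9 (@Lb.g g11 (@Lb.r r1162 (@Lb.r r1188 (@Lb.r r661 (@Lb.r r2451 (@Lb.d (nat_lit 0) (nat_lit 101) (nat_lit 394) (@Lb.t (@Lb.fp (nat_lit 9) t1594)))))))))))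
noncomputable def l43602 : Lb := (@Lb.r r323 (@Lb.d (nat_lit 128) (nat_lit 514) (nat_lit 2) (@Lb.g g8 (@Lb.g g9 (@Lb.g g10 (@Lb.r r599 (@Lb.r r2465 (@Lb.r r2146 (@Lb.r r72 (@Lb.d (nat_lit 277) (nat_lit 170) (nat_lit 650) (@Lb.t (@Lb.fp (nat_lit 9) t410))))))))))))
noncomputable def l43603 : Lb := (@Lb.r r532 (@Lb.r r82 (@Lb.d (nat_lit 64) (nat_lit 321) (nat_lit 320) (@Lb.g g5 (@Lb.g g7 (@Lb.r r1112 (@Lb.r r2438 (@Lb.d (nat_lit 0) (nat_lit 40) (nat_lit 421) (@Lb.fm (nat_lit 3) t4025)))))))))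
noncomputable def l43604 : Lb := (@Lb.d (nat_lit 5) (nat_lit 422) (nat_lit 262) (@Lb.r r1304 (@Lb.r r97 (@Lb.r r386 (@Lb.g g11 (@Lb.g g6 (@Lb.g g5 (@Lb.d (nat_lit 0) (nat_lit 1) (nat_lit 129) (@Lb.t (@Lb.fp (nat_lit 9) t394))))))))))
noncomputable def l43605 : Lb := (@Lb.d (nat_lit 21) (nat_lit 256) (nat_lit 0) (@Lb.g g8 (@Lb.g g9 (@Lb.g g10 (@Lb.r r1675 (@Lb.r r36 (@Lb.r r1381 (@Lb.r r2202 (@Lb.d (nat_lit 282) (nat_lit 9) (nat_lit 665) (@Lb.t (@Lb.fp (nat_lit 9) t1278)))))))))))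
noncomputable def l43606 : Lb := (@Lb.d (nat_lit 146) (nat_lit 644) (nat_lit 416) (@Lb.r r1610 (@Lb.r r2667 (@Lb.r r661 (@Lb.g g7 (@Lb.g g6 (@Lb.g g8 (@Lb.d (nat_lit 328) (nat_lit 8) (nat_lit 65) (@Lb.r r25 (@Lb.t (@Lb.fp (nat_lit 9) t4997)))))))))))
noncomputable def l43607 : Lb := (@Lb.r r1346 (@Lb.d (nat_lit 2) (nat_lit 256) (nat_lit 576) (@Lb.g g8 (@Lb.g g7 (@Lb.r r2145 (@Lb.d (nat_lit 294) (nat_lit 160) (nat_lit 322) (@Lb.fm (nat_lit 3) t7525)))))))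
noncomputable def l43608 : Lb := (@Lb.r r1346 (@Lb.d (nat_lit 2) (nat_lit 545) (nat_lit 4) (@Lb.g g8 (@Lb.g g9 (@Lb.g g7 (@Lb.r r417 (@Lb.d (nat_lit 2) (nat_lit 166) (nat_lit 532) (@Lb.t (@Lb.fm (nat_lit 9) t7526)))))))))
noncomputable def l43609 : Lb := (@Lb.r r21 (@Lb.d (nat_lit 2) (nat_lit 256) (nat_lit 4) (@Lb.g g8 (@Lb.g g10 (@Lb.g g11 (@Lb.r r1683 (@Lb.r r1448 (@Lb.r r106 (@Lb.r r97 (@Lb.d (nat_lit 5) (nat_lit 90) (nat_lit 394) (@Lb.t (@Lb.fp (nat_lit 9) t3180))))))))))))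
noncomputable def l43610 : Lb := (@Lb.d (nat_lit 0) (nat_lit 514) (nat_lit 130) (@Lb.g g8 (@Lb.g g9 (@Lb.g g10 (@Lb.g g11 (@Lb.r r427 (@Lb.r r420 (@Lb.r r2469 (@Lb.r r98 (@Lb.d (nat_lit 98) (nat_lit 169) (nat_lit 289) (@Lb.fm (nat_lit 9) t1020)))))))))))
noncomputable def l43611 : Lb := (@Lb.d (nat_lit 642) (nat_lit 264) (nat_lit 2) (@Lb.g g8 (@Lb.g g10 (@Lb.r r1427 (@Lb.r r101 (@Lb.d (nat_lit 69) (nat_lit 161) (nat_lit 642) (@Lb.fp (nat_lit 3) t7155)))))))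
noncomputable def l43612 : Lb := (@Lb.d (nat_lit 2) (nat_lit 288) (nat_lit 128) (@Lb.g g8 (@Lb.g g11 (@Lb.r r2712 (@Lb.r r293 (@Lb.r r2587 (@Lb.r r2178 (@Lb.d (nat_lit 98) (nat_lit 42) (nat_lit 278) (@Lb.fm (nat_lit 3) t2689)))))))))
noncomputable def l43613 : Lb := (@Lb.d (nat_lit 130) (nat_lit 2) (nat_lit 66) (@Lb.g g8 (@Lb.g g9 (@Lb.g g10 (@Lb.g g11 (@Lb.r r162 (@Lb.r r552 (@Lb.r r1689 (@Lb.r r1563 (@Lb.r r516 (@Lb.d (nat_lit 74) (nat_lit 9) (nat_lit 617) (@Lb.fm (nat_lit 9) t2528))))))))))))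
noncomputable def l43614 : Lb := (@Lb.d (nat_lit 0) (nat_lit 4) (nat_lit 128) (@Lb.g g8 (@Lb.g g9 (@Lb.g g10 (@Lb.g g11 (@Lb.r r2595 (@Lb.r r386 (@Lb.r r1685 (@Lb.r r1096 (@Lb.d (nat_lit 581) (nat_lit 33) (nat_lit 418) (@Lb.fm (nat_lit 9) t7527)))))))))))
noncomputable def l43615 : Lb := (@Lb.d (nat_lit 4) (nat_lit 32) (nat_lit 64) (@Lb.g g8 (@Lb.g g9 (@Lb.g g10 (@Lb.g g11 (@Lb.r r614 (@Lb.r r2663 (@Lb.r r2073 (@Lb.r r1608 (@Lb.d (nat_lit 354) (nat_lit 25) (nat_lit 682) (@Lb.fp (nat_lit 9) t4013)))))))))))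
noncomputable def l43616 : Lb := (@Lb.d (nat_lit 405) (nat_lit 534) (nat_lit 277) (@Lb.r r2665 (@Lb.r r2596 (@Lb.r r427 (@Lb.r r1426 (@Lb.g g7 (@Lb.g g5 (@Lb.d (nat_lit 4) (nat_lit 22) (nat_lit 128) (@Lb.r r98 (@Lb.fm (nat_lit 3) t187))))))))))
noncomputable def l43617 : Lb := (@Lb.r r20 (@Lb.r r82 (@Lb.r r275 (@Lb.d (nat_lit 0) (nat_lit 674) (nat_lit 0) (@Lb.g g5 (@Lb.r r1379 (@Lb.r r578 (@Lb.r r2120 (@Lb.d (nat_lit 529) (nat_lit 1) (nat_lit 70) (@Lb.t (@Lb.fp (nat_lit 3) t5880)))))))))))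
noncomputable def l43618 : Lb := (@Lb.r r21 (@Lb.d (nat_lit 146) (nat_lit 512) (nat_lit 64) (@Lb.g g8 (@Lb.g g10 (@Lb.g g11 (@Lb.r r2730 (@Lb.r r2467 (@Lb.r r145 (@Lb.r r2084 (@Lb.d (nat_lit 361) (nat_lit 145) (nat_lit 354) (@Lb.t (@Lb.fp (nat_lit 9) t750))))))))))))
noncomputable def l43619 : Lb := (@Lb.r r21 (@Lb.d (nat_lit 146) (nat_lit 0) (nat_lit 10) (@Lb.g g8 (@Lb.g g10 (@Lb.g g11 (@Lb.r r2730 (@Lb.r r2467 (@Lb.r r145 (@Lb.r r2084 (@Lb.d (nat_lit 361) (nat_lit 145) (nat_lit 354) (@Lb.t (@Lb.fp (nat_lit 9) t750))))))))))))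
noncomputable def l43620 : Lb := (@Lb.d (nat_lit 170) (nat_lit 0) (nat_lit 64) (@Lb.g g8 (@Lb.g g11 (@Lb.r r2726 (@Lb.r r1411 (@Lb.r r2597 (@Lb.r r276 (@Lb.d (nat_lit 70) (nat_lit 20) (nat_lit 666) (@Lb.fm (nat_lit 3) t3438)))))))))
noncomputable def l43621 : Lb := (@Lb.r r2315 (@Lb.r r356 (@Lb.r r154 (@Lb.r r2133 (@Lb.r r164 (@Lb.d (nat_lit 0) (nat_lit 256) (nat_lit 137) (@Lb.fm (nat_lit 1) t386)))))))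
noncomputable def l43622 : Lb := (@Lb.d (nat_lit 528) (nat_lit 548) (nat_lit 1) (@Lb.g g8 (@Lb.g g9 (@Lb.g g10 (@Lb.r r2699 (@Lb.r r2218 (@Lb.r r2465 (@Lb.d (nat_lit 329) (nat_lit 148) (nat_lit 586) (@Lb.t (@Lb.fp (nat_lit 9) t4070))))))))))
noncomputable def l43623 : Lb := (@Lb.d (nat_lit 0) (nat_lit 258) (nat_lit 64) (@Lb.g g9 (@Lb.g g11 (@Lb.r r539 (@Lb.r r2585 (@Lb.r r1684 (@Lb.r r2150 (@Lb.d (nat_lit 5) (nat_lit 64) (nat_lit 84) (@Lb.fp (nat_lit 3) t1040)))))))))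
noncomputable def l43624 : Lb := (@Lb.d (nat_lit 406) (nat_lit 578) (nat_lit 548) (@Lb.r r20 (@Lb.r r1641 (@Lb.r r2667 (@Lb.g g7 (@Lb.g g10 (@Lb.g g5 (@Lb.g g4 (@Lb.d (nat_lit 8) (nat_lit 5) (nat_lit 82) (@Lb.fm (nat_lit 9) t820))))))))))
noncomputable def l43625 : Lb := (@Lb.g g8 (@Lb.r r593 (@Lb.r r1303 (@Lb.r r1414 (@Lb.r r2600 (@Lb.r r153 (@Lb.d (nat_lit 0) (nat_lit 534) (nat_lit 296) (@Lb.t (@Lb.fp (nat_lit 3) t944)))))))))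
noncomputable def l43626 : Lb := (@Lb.r r82 (@Lb.d (nat_lit 4) (nat_lit 256) (nat_lit 0) (@Lb.g g8 (@Lb.g g9 (@Lb.r r555 (@Lb.r r1642 (@Lb.r r617 (@Lb.d (nat_lit 101) (nat_lit 152) (nat_lit 537) (@Lb.fm (nat_lit 3) t98)))))))))
noncomputable def l43627 : Lb := (@Lb.d (nat_lit 1) (nat_lit 514) (nat_lit 130) (@Lb.g g8 (@Lb.g g9 (@Lb.g g10 (@Lb.g g11 (@Lb.r r2691 (@Lb.r r536 (@Lb.r r2197 (@Lb.r r2646 (@Lb.r r164 (@Lb.d (nat_lit 136) (nat_lit 9) (nat_lit 361) (@Lb.fp (nat_lit 9) t1636))))))))))))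
noncomputable def l43628 : Lb := (@Lb.r r2069 (@Lb.r r2118 (@Lb.d (nat_lit 513) (nat_lit 512) (nat_lit 0) (@Lb.g g4 (@Lb.d (nat_lit 9) (nat_lit 2) (nat_lit 0) (@Lb.t (@Lb.fm (nat_lit 3) t6069)))))))
noncomputable def l43629 : Lb := (@Lb.r r2370 (@Lb.r r664 (@Lb.r r667 (@Lb.r r277 (@Lb.r r2596 (@Lb.d (nat_lit 0) (nat_lit 640) (nat_lit 128) (@Lb.fp (nat_lit 1) t322)))))))
noncomputable def l43630 : Lb := (@Lb.d (nat_lit 9) (nat_lit 294) (nat_lit 128) (@Lb.g g8 (@Lb.g g9 (@Lb.g g10 (@Lb.g g11 (@Lb.r r2391 (@Lb.r r1194 (@Lb.r r2393 (@Lb.r r2436 (@Lb.d (nat_lit 585) (nat_lit 85) (nat_lit 596) (@Lb.fm (nat_lit 9) t7351)))))))))))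
noncomputable def l43631 : Lb := (@Lb.d (nat_lit 9) (nat_lit 545) (nat_lit 130) (@Lb.g g8 (@Lb.g g9 (@Lb.g g10 (@Lb.g g11 (@Lb.r r2391 (@Lb.r r1194 (@Lb.r r2393 (@Lb.r r2436 (@Lb.d (nat_lit 585) (nat_lit 85) (nat_lit 596) (@Lb.fm (nat_lit 9) t7528)))))))))))
noncomputable def l43632 : Lb := (@Lb.r r70 (@Lb.d (nat_lit 2) (nat_lit 2) (nat_lit 128) (@Lb.g g8 (@Lb.g g9 (@Lb.g g11 (@Lb.r r611 (@Lb.r r2474 (@Lb.r r145 (@Lb.r r2152 (@Lb.d (nat_lit 389) (nat_lit 4) (nat_lit 358) (@Lb.t (@Lb.fp (nat_lit 9) t7529))))))))))))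
noncomputable def l43633 : Lb := (@Lb.d (nat_lit 406) (nat_lit 65) (nat_lit 101) (@Lb.r r24 (@Lb.r r2627 (@Lb.g g7 (@Lb.g g10 (@Lb.g g5 (@Lb.d (nat_lit 4) (nat_lit 88) (nat_lit 130) (@Lb.t (@Lb.fm (nat_lit 9) t6855)))))))))
noncomputable def l43634 : Lb := (@Lb.d (nat_lit 2) (nat_lit 2) (nat_lit 130) (@Lb.g g8 (@Lb.g g9 (@Lb.g g10 (@Lb.g g11 (@Lb.r r1699 (@Lb.r r2216 (@Lb.r r1610 (@Lb.r r145 (@Lb.d (nat_lit 402) (nat_lit 104) (nat_lit 36) (@Lb.fp (nat_lit 9) t4512)))))))))))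
noncomputable def l43635 : Lb := (@Lb.d (nat_lit 2) (nat_lit 256) (nat_lit 128) (@Lb.g g8 (@Lb.g g10 (@Lb.g g11 (@Lb.r r1666 (@Lb.r r387 (@Lb.r r2596 (@Lb.r r1573 (@Lb.d (nat_lit 10) (nat_lit 17) (nat_lit 344) (@Lb.t (@Lb.fm (nat_lit 9) t2590)))))))))))
noncomputable def l43636 : Lb := (@Lb.d (nat_lit 16) (nat_lit 402) (nat_lit 0) (@Lb.g g8 (@Lb.g g9 (@Lb.g g10 (@Lb.r r2391 (@Lb.r r2730 (@Lb.r r100 (@Lb.d (nat_lit 586) (nat_lit 89) (nat_lit 36) (@Lb.t (@Lb.fp (nat_lit 9) t7530))))))))))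
noncomputable def l43637 : Lb := (@Lb.r r323 (@Lb.d (nat_lit 0) (nat_lit 2) (nat_lit 2) (@Lb.g g8 (@Lb.g g9 (@Lb.g g10 (@Lb.r r1194 (@Lb.r r1700 (@Lb.r r1575 (@Lb.r r145 (@Lb.d (nat_lit 10) (nat_lit 100) (nat_lit 597) (@Lb.t (@Lb.fm (nat_lit 9) t7129))))))))))))
noncomputable def l43638 : Lb := (@Lb.d (nat_lit 0) (nat_lit 550) (nat_lit 64) (@Lb.g g8 (@Lb.g g9 (@Lb.g g10 (@Lb.g g11 (@Lb.r r1699 (@Lb.r r1192 (@Lb.r r1642 (@Lb.r r1633 (@Lb.d (nat_lit 600) (nat_lit 153) (nat_lit 388) (@Lb.fm (nat_lit 9) t7531)))))))))))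
noncomputable def l43639 : Lb := (@Lb.d (nat_lit 0) (nat_lit 38) (nat_lit 64) (@Lb.g g8 (@Lb.g g9 (@Lb.g g10 (@Lb.g g11 (@Lb.r r1699 (@Lb.r r1192 (@Lb.r r1642 (@Lb.r r1633 (@Lb.d (nat_lit 600) (nat_lit 148) (nat_lit 390) (@Lb.fm (nat_lit 9) t7531)))))))))))
noncomputable def l43640 : Lb := (@Lb.d (nat_lit 0) (nat_lit 294) (nat_lit 64) (@Lb.g g8 (@Lb.g g9 (@Lb.g g10 (@Lb.g g11 (@Lb.r r1699 (@Lb.r r1192 (@Lb.r r1642 (@Lb.r r1633 (@Lb.d (nat_lit 594) (nat_lit 149) (nat_lit 390) (@Lb.fm (nat_lit 9) t6900)))))))))))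
noncomputable def l43641 : Lb := (@Lb.r r70 (@Lb.d (nat_lit 34) (nat_lit 258) (nat_lit 128) (@Lb.g g8 (@Lb.g g9 (@Lb.g g11 (@Lb.r r1627 (@Lb.r r1129 (@Lb.r r2646 (@Lb.r r2440 (@Lb.d (nat_lit 406) (nat_lit 66) (nat_lit 596) (@Lb.t (@Lb.fp (nat_lit 9) t3262))))))))))))
noncomputable def l43642 : Lb := (@Lb.r r355 (@Lb.d (nat_lit 4) (nat_lit 9) (nat_lit 17) (@Lb.g g8 (@Lb.g g9 (@Lb.g g6 (@Lb.r r2667 (@Lb.r r1625 (@Lb.d (nat_lit 617) (nat_lit 42) (nat_lit 281) (@Lb.t (@Lb.fm (nat_lit 9) t1541))))))))))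
noncomputable def l43643 : Lb := (@Lb.d (nat_lit 0) (nat_lit 256) (nat_lit 136) (@Lb.g g11 (@Lb.r r1604 (@Lb.d (nat_lit 0) (nat_lit 0) (nat_lit 665) (@Lb.t (@Lb.fp (nat_lit 3) t5615))))))
noncomputable def l43644 : Lb := (@Lb.r r82 (@Lb.d (nat_lit 132) (nat_lit 0) (nat_lit 64) (@Lb.g g8 (@Lb.g g9 (@Lb.g g11 (@Lb.r r2601 (@Lb.r r2411 (@Lb.r r2630 (@Lb.r r1432 (@Lb.d (nat_lit 661) (nat_lit 96) (nat_lit 152) (@Lb.t (@Lb.fm (nat_lit 9) t1846))))))))))))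
noncomputable def l43645 : Lb := (@Lb.d (nat_lit 645) (nat_lit 522) (nat_lit 386) (@Lb.r r24 (@Lb.g g9 (@Lb.g g4 (@Lb.fm (nat_lit 3) t7532)))))
noncomputable def l43646 : Lb := (@Lb.r r263 (@Lb.d (nat_lit 0) (nat_lit 2) (nat_lit 2) (@Lb.g g8 (@Lb.g g9 (@Lb.g g10 (@Lb.r r675 (@Lb.r r2184 (@Lb.r r1610 (@Lb.r r37 (@Lb.d (nat_lit 610) (nat_lit 88) (nat_lit 660) (@Lb.t (@Lb.fp (nat_lit 9) t1039))))))))))))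
noncomputable def l43647 : Lb := (@Lb.d (nat_lit 21) (nat_lit 320) (nat_lit 153) (@Lb.r r1370 (@Lb.r r1451 (@Lb.r r2341 (@Lb.g g7 (@Lb.g g4 (@Lb.d (nat_lit 584) (nat_lit 16) (nat_lit 128) (@Lb.r r74 (@Lb.r r25 (@Lb.fp (nat_lit 3) t4635))))))))))
noncomputable def l43648 : Lb := (@Lb.d (nat_lit 21) (nat_lit 576) (nat_lit 153) (@Lb.r r1370 (@Lb.r r1451 (@Lb.r r2341 (@Lb.g g7 (@Lb.g g4 (@Lb.d (nat_lit 586) (nat_lit 16) (nat_lit 128) (@Lb.r r74 (@Lb.r r25 (@Lb.fp (nat_lit 3) t1846))))))))))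
noncomputable def l43649 : Lb := (@Lb.d (nat_lit 2) (nat_lit 512) (nat_lit 0) (@Lb.g g8 (@Lb.r r281 (@Lb.r r547 (@Lb.r r2178 (@Lb.r r1553 (@Lb.d (nat_lit 65) (nat_lit 10) (nat_lit 514) (@Lb.t (@Lb.fp (nat_lit 3) t322)))))))))
noncomputable def l43650 : Lb := (@Lb.d (nat_lit 129) (nat_lit 2) (nat_lit 130) (@Lb.g g8 (@Lb.g g9 (@Lb.g g10 (@Lb.g g11 (@Lb.r r419 (@Lb.r r1060 (@Lb.r r2469 (@Lb.r r98 (@Lb.d (nat_lit 610) (nat_lit 149) (nat_lit 420) (@Lb.fm (nat_lit 9) t7229)))))))))))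
noncomputable def l43651 : Lb := (@Lb.d (nat_lit 2) (nat_lit 294) (nat_lit 128) (@Lb.g g8 (@Lb.g g9 (@Lb.g g10 (@Lb.g g11 (@Lb.r r2666 (@Lb.r r584 (@Lb.r r267 (@Lb.r r1061 (@Lb.d (nat_lit 648) (nat_lit 130) (nat_lit 330) (@Lb.fp (nat_lit 9) t7003)))))))))))
noncomputable def l43652 : Lb := (@Lb.r r275 (@Lb.d (nat_lit 648) (nat_lit 516) (nat_lit 0) (@Lb.g g4 (@Lb.g g9 (@Lb.g g10 (@Lb.r r1414 (@Lb.r r2635 (@Lb.r r293 (@Lb.d (nat_lit 328) (nat_lit 10) (nat_lit 658) (@Lb.t (@Lb.fm (nat_lit 9) t5079)))))))))))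
noncomputable def l43653 : Lb := (@Lb.d (nat_lit 33) (nat_lit 294) (nat_lit 580) (@Lb.g g8 (@Lb.g g9 (@Lb.g g10 (@Lb.g g7 (@Lb.r r1442 (@Lb.r r1129 (@Lb.r r72 (@Lb.d (nat_lit 4) (nat_lit 148) (nat_lit 616) (@Lb.fp (nat_lit 9) t7139))))))))))
noncomputable def l43654 : Lb := (@Lb.d (nat_lit 152) (nat_lit 514) (nat_lit 73) (@Lb.g g8 (@Lb.g g9 (@Lb.g g10 (@Lb.g g11 (@Lb.r r1579 (@Lb.r r1641 (@Lb.r r2454 (@Lb.r r1124 (@Lb.d (nat_lit 276) (nat_lit 41) (nat_lit 593) (@Lb.fm (nat_lit 9) t5960)))))))))))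
noncomputable def l43655 : Lb := (@Lb.d (nat_lit 146) (nat_lit 169) (nat_lit 405) (@Lb.r r2644 (@Lb.r r583 (@Lb.r r1434 (@Lb.g g6 (@Lb.g g9 (@Lb.g g4 (@Lb.d (nat_lit 72) (nat_lit 21) (nat_lit 2) (@Lb.r r291 (@Lb.t (@Lb.fm (nat_lit 9) t5701)))))))))))
noncomputable def l43656 : Lb := (@Lb.r r275 (@Lb.d (nat_lit 648) (nat_lit 260) (nat_lit 0) (@Lb.g g4 (@Lb.g g9 (@Lb.g g10 (@Lb.r r1414 (@Lb.r r2635 (@Lb.r r293 (@Lb.d (nat_lit 321) (nat_lit 8) (nat_lit 658) (@Lb.t (@Lb.fm (nat_lit 9) t7393)))))))))))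
noncomputable def l43657 : Lb := (@Lb.d (nat_lit 33) (nat_lit 294) (nat_lit 133) (@Lb.g g8 (@Lb.g g9 (@Lb.g g10 (@Lb.g g11 (@Lb.r r1707 (@Lb.r r162 (@Lb.r r36 (@Lb.r r2453 (@Lb.r r1060 (@Lb.d (nat_lit 162) (nat_lit 25) (nat_lit 341) (@Lb.fp (nat_lit 9) t3511))))))))))))
noncomputable def l43658 : Lb := (@Lb.d (nat_lit 74) (nat_lit 98) (nat_lit 256) (@Lb.r r24 (@Lb.g g7 (@Lb.d (nat_lit 64) (nat_lit 0) (nat_lit 576) (@Lb.t (@Lb.fp (nat_lit 3) t1165))))))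
noncomputable def l43659 : Lb := (@Lb.d (nat_lit 325) (nat_lit 662) (nat_lit 658) (@Lb.r r1301 (@Lb.r r1366 (@Lb.r r683 (@Lb.r r1672 (@Lb.g g7 (@Lb.g g6 (@Lb.g g5 (@Lb.d (nat_lit 0) (nat_lit 1) (nat_lit 129) (@Lb.t (@Lb.fp (nat_lit 9) t7533)))))))))))
noncomputable def l43660 : Lb := (@Lb.r r21 (@Lb.d (nat_lit 2) (nat_lit 512) (nat_lit 137) (@Lb.g g8 (@Lb.g g10 (@Lb.g g11 (@Lb.r r1683 (@Lb.r r2184 (@Lb.r r1610 (@Lb.r r97 (@Lb.d (nat_lit 408) (nat_lit 102) (nat_lit 682) (@Lb.t (@Lb.fp (nat_lit 9) t3180))))))))))))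
noncomputable def l43661 : Lb := (@Lb.d (nat_lit 154) (nat_lit 680) (nat_lit 261) (@Lb.r r617 (@Lb.r r1387 (@Lb.g g10 (@Lb.g g5 (@Lb.g g4 (@Lb.d (nat_lit 8) (nat_lit 21) (nat_lit 20) (@Lb.t (@Lb.fp (nat_lit 9) t303)))))))))
noncomputable def l43662 : Lb := (@Lb.r r323 (@Lb.d (nat_lit 2) (nat_lit 514) (nat_lit 2) (@Lb.g g8 (@Lb.g g9 (@Lb.g g10 (@Lb.r r401 (@Lb.r r299 (@Lb.r r392 (@Lb.r r74 (@Lb.d (nat_lit 533) (nat_lit 1) (nat_lit 104) (@Lb.t (@Lb.fp (nat_lit 9) t756))))))))))))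
noncomputable def l43663 : Lb := (@Lb.d (nat_lit 2) (nat_lit 258) (nat_lit 74) (@Lb.g g8 (@Lb.g g9 (@Lb.g g10 (@Lb.g g11 (@Lb.r r2193 (@Lb.r r658 (@Lb.r r644 (@Lb.r r391 (@Lb.r r1540 (@Lb.d (nat_lit 40) (nat_lit 68) (nat_lit 68) (@Lb.fm (nat_lit 9) t564))))))))))))
noncomputable def l43664 : Lb := (@Lb.d (nat_lit 10) (nat_lit 8) (nat_lit 0) (@Lb.g g8 (@Lb.g g10 (@Lb.g g7 (@Lb.r r2085 (@Lb.r r1624 (@Lb.r r1350 (@Lb.d (nat_lit 274) (nat_lit 68) (nat_lit 69) (@Lb.t (@Lb.fp (nat_lit 9) t322))))))))))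
noncomputable def l43665 : Lb := (@Lb.d (nat_lit 130) (nat_lit 288) (nat_lit 128) (@Lb.g g8 (@Lb.g g11 (@Lb.r r2344 (@Lb.r r2329 (@Lb.r r551 (@Lb.r r2178 (@Lb.d (nat_lit 137) (nat_lit 25) (nat_lit 4) (@Lb.fp (nat_lit 3) t5795)))))))))
noncomputable def l43666 : Lb := (@Lb.r r82 (@Lb.d (nat_lit 0) (nat_lit 258) (nat_lit 128) (@Lb.g g4 (@Lb.g g9 (@Lb.g g11 (@Lb.r r1571 (@Lb.r r165 (@Lb.r r98 (@Lb.d (nat_lit 105) (nat_lit 4) (nat_lit 512) (@Lb.t (@Lb.fp (nat_lit 9) t1686)))))))))))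
noncomputable def l43667 : Lb := (@Lb.d (nat_lit 2) (nat_lit 8) (nat_lit 74) (@Lb.g g8 (@Lb.g g10 (@Lb.g g11 (@Lb.r r403 (@Lb.r r1125 (@Lb.r r90 (@Lb.d (nat_lit 418) (nat_lit 37) (nat_lit 2) (@Lb.t (@Lb.fp (nat_lit 9) t2112))))))))))
noncomputable def l43668 : Lb := (@Lb.d (nat_lit 146) (nat_lit 258) (nat_lit 130) (@Lb.g g8 (@Lb.g g9 (@Lb.g g10 (@Lb.g g11 (@Lb.r r1559 (@Lb.r r2394 (@Lb.r r97 (@Lb.r r1048 (@Lb.d (nat_lit 656) (nat_lit 33) (nat_lit 614) (@Lb.fm (nat_lit 9) t4557)))))))))))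
noncomputable def l43669 : Lb := (@Lb.r r21 (@Lb.r r70 (@Lb.d (nat_lit 266) (nat_lit 512) (nat_lit 0) (@Lb.g g8 (@Lb.r r101 (@Lb.r r2450 (@Lb.d (nat_lit 2) (nat_lit 5) (nat_lit 86) (@Lb.t (@Lb.fp (nat_lit 3) t7331)))))))))
noncomputable def l43670 : Lb := (@Lb.r r2343 (@Lb.r r2150 (@Lb.r r101 (@Lb.r r2196 (@Lb.d (nat_lit 36) (nat_lit 357) (nat_lit 277) (@Lb.fm (nat_lit 1) t500))))))
noncomputable def l43671 : Lb := (@Lb.r r323 (@Lb.d (nat_lit 97) (nat_lit 262) (nat_lit 2) (@Lb.g g8 (@Lb.g g9 (@Lb.g g10 (@Lb.r r1451 (@Lb.r r341 (@Lb.r r2216 (@Lb.d (nat_lit 644) (nat_lit 70) (nat_lit 96) (@Lb.t (@Lb.fp (nat_lit 9) t123)))))))))))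
noncomputable def l43672 : Lb := (@Lb.r r260 (@Lb.d (nat_lit 64) (nat_lit 258) (nat_lit 578) (@Lb.g g9 (@Lb.g g10 (@Lb.g g7 (@Lb.r r386 (@Lb.r r1128 (@Lb.r r25 (@Lb.d (nat_lit 522) (nat_lit 25) (nat_lit 361) (@Lb.t (@Lb.fp (nat_lit 9) t1453)))))))))))
noncomputable def l43673 : Lb := (@Lb.d (nat_lit 260) (nat_lit 65) (nat_lit 9) (@Lb.r r2068 (@Lb.r r89 (@Lb.r r1619 (@Lb.g g10 (@Lb.g g4 (@Lb.d (nat_lit 32) (nat_lit 4) (nat_lit 17) (@Lb.r r387 (@Lb.r r145 (@Lb.fm (nat_lit 3) t3693))))))))))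
noncomputable def l43674 : Lb := (@Lb.r r323 (@Lb.d (nat_lit 41) (nat_lit 4) (nat_lit 2) (@Lb.g g8 (@Lb.g g10 (@Lb.r r1381 (@Lb.r r1691 (@Lb.r r1668 (@Lb.d (nat_lit 529) (nat_lit 5) (nat_lit 5) (@Lb.fm (nat_lit 3) t4506)))))))))
noncomputable def l43675 : Lb := (@Lb.d (nat_lit 262) (nat_lit 614) (nat_lit 17) (@Lb.r r1573 (@Lb.r r2178 (@Lb.r r2343 (@Lb.g g5 (@Lb.g g8 (@Lb.d (nat_lit 530) (nat_lit 17) (nat_lit 0) (@Lb.fp (nat_lit 3) t7534))))))))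
noncomputable def l43676 : Lb := (@Lb.r r1284 (@Lb.r r322 (@Lb.d (nat_lit 0) (nat_lit 528) (nat_lit 384) (@Lb.g g7 (@Lb.r r401 (@Lb.r r1106 (@Lb.r r1169 (@Lb.d (nat_lit 0) (nat_lit 10) (nat_lit 64) (@Lb.t (@Lb.fm (nat_lit 3) t6595))))))))))
noncomputable def l43677 : Lb := (@Lb.d (nat_lit 33) (nat_lit 266) (nat_lit 136) (@Lb.g g8 (@Lb.g g9 (@Lb.g g11 (@Lb.r r2134 (@Lb.r r1448 (@Lb.r r279 (@Lb.r r545 (@Lb.d (nat_lit 610) (nat_lit 88) (nat_lit 73) (@Lb.t (@Lb.fm (nat_lit 9) t1554)))))))))))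
noncomputable def l43678 : Lb := (@Lb.d (nat_lit 0) (nat_lit 288) (nat_lit 128) (@Lb.g g11 (@Lb.r r2337 (@Lb.r r531 (@Lb.r r2178 (@Lb.r r1188 (@Lb.d (nat_lit 10) (nat_lit 37) (nat_lit 37) (@Lb.t (@Lb.fm (nat_lit 3) t7535)))))))))
noncomputable def l43679 : Lb := (@Lb.d (nat_lit 1) (nat_lit 514) (nat_lit 0) (@Lb.g g4 (@Lb.g g9 (@Lb.g g10 (@Lb.g g7 (@Lb.r r422 (@Lb.r r37 (@Lb.d (nat_lit 9) (nat_lit 25) (nat_lit 66) (@Lb.fp (nat_lit 9) t71)))))))))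
noncomputable def l43680 : Lb := (@Lb.d (nat_lit 660) (nat_lit 384) (nat_lit 1) (@Lb.r r82 (@Lb.r r165 (@Lb.r r2471 (@Lb.g g6 (@Lb.g g5 (@Lb.g g8 (@Lb.d (nat_lit 325) (nat_lit 8) (nat_lit 0) (@Lb.r r295 (@Lb.t (@Lb.fp (nat_lit 9) t7175)))))))))))
noncomputable def l43681 : Lb := (@Lb.r r82 (@Lb.d (nat_lit 1) (nat_lit 33) (nat_lit 64) (@Lb.g g8 (@Lb.g g9 (@Lb.g g11 (@Lb.r r1129 (@Lb.r r1686 (@Lb.r r2376 (@Lb.r r1543 (@Lb.d (nat_lit 81) (nat_lit 0) (nat_lit 677) (@Lb.t (@Lb.fm (nat_lit 9) t7536))))))))))))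
noncomputable def l43682 : Lb := (@Lb.d (nat_lit 341) (nat_lit 296) (nat_lit 345) (@Lb.r r678 (@Lb.r r1371 (@Lb.r r328 (@Lb.g g7 (@Lb.g g6 (@Lb.g g9 (@Lb.d (nat_lit 16) (nat_lit 18) (nat_lit 72) (@Lb.r r100 (@Lb.t (@Lb.fm (nat_lit 9) t7537)))))))))))
noncomputable def l43683 : Lb := (@Lb.d (nat_lit 613) (nat_lit 600) (nat_lit 22) (@Lb.r r2645 (@Lb.r r1320 (@Lb.r r1094 (@Lb.g g11 (@Lb.g g5 (@Lb.g g4 (@Lb.d (nat_lit 1) (nat_lit 16) (nat_lit 392) (@Lb.t (@Lb.fp (nat_lit 9) t7538))))))))))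
noncomputable def l43684 : Lb := (@Lb.d (nat_lit 2) (nat_lit 514) (nat_lit 130) (@Lb.g g8 (@Lb.g g9 (@Lb.g g10 (@Lb.g g11 (@Lb.r r2705 (@Lb.r r356 (@Lb.r r1690 (@Lb.r r2180 (@Lb.d (nat_lit 329) (nat_lit 130) (nat_lit 586) (@Lb.fm (nat_lit 9) t3068)))))))))))
noncomputable def l43685 : Lb := (@Lb.r r70 (@Lb.d (nat_lit 128) (nat_lit 0) (nat_lit 136) (@Lb.g g8 (@Lb.g g11 (@Lb.r r418 (@Lb.r r2407 (@Lb.r r1057 (@Lb.r r2708 (@Lb.d (nat_lit 149) (nat_lit 153) (nat_lit 682) (@Lb.fm (nat_lit 3) t7455))))))))))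
noncomputable def l43686 : Lb := (@Lb.r r327 (@Lb.d (nat_lit 17) (nat_lit 258) (nat_lit 0) (@Lb.g g8 (@Lb.g g9 (@Lb.g g10 (@Lb.r r2667 (@Lb.r r330 (@Lb.r r405 (@Lb.r r612 (@Lb.d (nat_lit 152) (nat_lit 26) (nat_lit 37) (@Lb.t (@Lb.fp (nat_lit 9) t7539))))))))))))
noncomputable def l43687 : Lb := (@Lb.d (nat_lit 160) (nat_lit 258) (nat_lit 128) (@Lb.g g8 (@Lb.g g9 (@Lb.g g10 (@Lb.g g11 (@Lb.r r2667 (@Lb.r r2710 (@Lb.r r357 (@Lb.r r660 (@Lb.d (nat_lit 276) (nat_lit 42) (nat_lit 168) (@Lb.fm (nat_lit 9) t3)))))))))))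
noncomputable def l43688 : Lb := (@Lb.d (nat_lit 420) (nat_lit 137) (nat_lit 129) (@Lb.r r1108 (@Lb.r r1177 (@Lb.r r2706 (@Lb.g g7 (@Lb.g g5 (@Lb.g g4 (@Lb.d (nat_lit 17) (nat_lit 17) (nat_lit 644) (@Lb.r r362 (@Lb.t (@Lb.fm (nat_lit 9) t3)))))))))))
noncomputable def l43689 : Lb := (@Lb.d (nat_lit 72) (nat_lit 2) (nat_lit 130) (@Lb.g g8 (@Lb.g g9 (@Lb.g g10 (@Lb.g g11 (@Lb.r r644 (@Lb.r r2711 (@Lb.r r405 (@Lb.r r2134 (@Lb.r r1188 (@Lb.d (nat_lit 73) (nat_lit 105) (nat_lit 74) (@Lb.fm (nat_lit 9) t443))))))))))))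
noncomputable def l43690 : Lb := (@Lb.d (nat_lit 132) (nat_lit 528) (nat_lit 2) (@Lb.g g8 (@Lb.g g9 (@Lb.g g10 (@Lb.g g11 (@Lb.r r549 (@Lb.r r2599 (@Lb.r r404 (@Lb.r r342 (@Lb.r r1681 (@Lb.r r2084 (@Lb.d (nat_lit 73) (nat_lit 97) (nat_lit 66) (@Lb.fp (nat_lit 9) t443)))))))))))))
noncomputable def l43691 : Lb := (@Lb.d (nat_lit 73) (nat_lit 289) (nat_lit 66) (@Lb.g g8 (@Lb.g g9 (@Lb.g g10 (@Lb.g g11 (@Lb.r r2321 (@Lb.r r547 (@Lb.r r644 (@Lb.r r1094 (@Lb.r r2180 (@Lb.d (nat_lit 73) (nat_lit 129) (nat_lit 22) (@Lb.fm (nat_lit 9) t443))))))))))))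
noncomputable def l43692 : Lb := (@Lb.d (nat_lit 128) (nat_lit 0) (nat_lit 2) (@Lb.g g8 (@Lb.g g10 (@Lb.g g11 (@Lb.r r2691 (@Lb.r r1681 (@Lb.r r1690 (@Lb.r r1688 (@Lb.d (nat_lit 88) (nat_lit 10) (nat_lit 38) (@Lb.t (@Lb.fp (nat_lit 9) t2797)))))))))))
noncomputable def l43693 : Lb := (@Lb.d (nat_lit 37) (nat_lit 521) (nat_lit 1) (@Lb.g g8 (@Lb.g g9 (@Lb.g g10 (@Lb.g g11 (@Lb.r r1065 (@Lb.r r360 (@Lb.r r2375 (@Lb.r r1346 (@Lb.d (nat_lit 0) (nat_lit 134) (nat_lit 96) (@Lb.fp (nat_lit 9) t7540)))))))))))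
noncomputable def l43694 : Lb := (@Lb.d (nat_lit 74) (nat_lit 277) (nat_lit 10) (@Lb.g g8 (@Lb.g g9 (@Lb.g g10 (@Lb.g g11 (@Lb.r r1347 (@Lb.r r1378 (@Lb.r r2133 (@Lb.r r104 (@Lb.d (nat_lit 100) (nat_lit 10) (nat_lit 321) (@Lb.fm (nat_lit 9) t1032)))))))))))
noncomputable def l43695 : Lb := (@Lb.d (nat_lit 74) (nat_lit 260) (nat_lit 394) (@Lb.g g8 (@Lb.g g9 (@Lb.g g10 (@Lb.g g11 (@Lb.r r100 (@Lb.r r1685 (@Lb.r r406 (@Lb.r r2084 (@Lb.d (nat_lit 277) (nat_lit 10) (nat_lit 409) (@Lb.fm (nat_lit 9) t1032)))))))))))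
noncomputable def l43696 : Lb := (@Lb.d (nat_lit 74) (nat_lit 21) (nat_lit 133) (@Lb.g g8 (@Lb.g g9 (@Lb.g g10 (@Lb.g g11 (@Lb.r r658 (@Lb.r r1667 (@Lb.r r2133 (@Lb.r r104 (@Lb.d (nat_lit 548) (nat_lit 10) (nat_lit 577) (@Lb.fm (nat_lit 9) t7541)))))))))))
noncomputable def l43697 : Lb := (@Lb.r r82 (@Lb.d (nat_lit 0) (nat_lit 264) (nat_lit 128) (@Lb.g g9 (@Lb.g g11 (@Lb.r r1639 (@Lb.r r662 (@Lb.r r356 (@Lb.r r2133 (@Lb.d (nat_lit 536) (nat_lit 5) (nat_lit 17) (@Lb.fm (nat_lit 3) t7542))))))))))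
noncomputable def l43698 : Lb := (@Lb.d (nat_lit 346) (nat_lit 329) (nat_lit 98) (@Lb.r r2198 (@Lb.r r1096 (@Lb.r r1611 (@Lb.g g6 (@Lb.g g9 (@Lb.d (nat_lit 24) (nat_lit 82) (nat_lit 1) (@Lb.r r403 (@Lb.fm (nat_lit 3) t7543)))))))))
noncomputable def l43699 : Lb := (@Lb.d (nat_lit 25) (nat_lit 4) (nat_lit 128) (@Lb.g g8 (@Lb.g g9 (@Lb.g g10 (@Lb.g g11 (@Lb.r r344 (@Lb.r r2695 (@Lb.r r149 (@Lb.r r2710 (@Lb.r r2084 (@Lb.d (nat_lit 393) (nat_lit 138) (nat_lit 104) (@Lb.fm (nat_lit 9) t17))))))))))))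
noncomputable def l43700 : Lb := (@Lb.r r82 (@Lb.d (nat_lit 161) (nat_lit 2) (nat_lit 128) (@Lb.g g8 (@Lb.g g9 (@Lb.g g11 (@Lb.r r619 (@Lb.r r406 (@Lb.r r616 (@Lb.d (nat_lit 96) (nat_lit 84) (nat_lit 24) (@Lb.t (@Lb.fp (nat_lit 9) t7543)))))))))))
noncomputable def l43701 : Lb := (@Lb.d (nat_lit 36) (nat_lit 9) (nat_lit 129) (@Lb.g g8 (@Lb.g g9 (@Lb.g g10 (@Lb.g g11 (@Lb.r r164 (@Lb.r r405 (@Lb.r r1387 (@Lb.r r2630 (@Lb.r r2180 (@Lb.d (nat_lit 409) (nat_lit 138) (nat_lit 97) (@Lb.fp (nat_lit 9) t7544))))))))))))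
noncomputable def l43702 : Lb := (@Lb.r r323 (@Lb.d (nat_lit 138) (nat_lit 513) (nat_lit 0) (@Lb.g g8 (@Lb.g g9 (@Lb.g g10 (@Lb.r r1303 (@Lb.r r2713 (@Lb.r r2202 (@Lb.r r2200 (@Lb.d (nat_lit 281) (nat_lit 138) (nat_lit 552) (@Lb.t (@Lb.fm (nat_lit 9) t2))))))))))))
noncomputable def l43703 : Lb := (@Lb.r r21 (@Lb.d (nat_lit 2) (nat_lit 8) (nat_lit 5) (@Lb.g g8 (@Lb.g g10 (@Lb.g g11 (@Lb.r r609 (@Lb.r r619 (@Lb.r r596 (@Lb.r r426 (@Lb.d (nat_lit 150) (nat_lit 38) (nat_lit 136) (@Lb.t (@Lb.fp (nat_lit 9) t2))))))))))))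
noncomputable def l43704 : Lb := (@Lb.d (nat_lit 16) (nat_lit 329) (nat_lit 165) (@Lb.r r421 (@Lb.r r2470 (@Lb.r r1348 (@Lb.r r267 (@Lb.g g6 (@Lb.g g5 (@Lb.g g4 (@Lb.d (nat_lit 70) (nat_lit 18) (nat_lit 1) (@Lb.t (@Lb.fp (nat_lit 9) t2)))))))))))
noncomputable def l43705 : Lb := (@Lb.r r21 (@Lb.d (nat_lit 138) (nat_lit 8) (nat_lit 2) (@Lb.g g8 (@Lb.g g10 (@Lb.r r1121 (@Lb.r r2646 (@Lb.r r327 (@Lb.r r676 (@Lb.d (nat_lit 166) (nat_lit 132) (nat_lit 410) (@Lb.fp (nat_lit 3) t2))))))))))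
noncomputable def l43706 : Lb := (@Lb.r r21 (@Lb.d (nat_lit 128) (nat_lit 264) (nat_lit 2) (@Lb.g g8 (@Lb.g g10 (@Lb.r r1121 (@Lb.r r410 (@Lb.r r2631 (@Lb.r r1444 (@Lb.d (nat_lit 357) (nat_lit 84) (nat_lit 386) (@Lb.fp (nat_lit 3) t2))))))))))
noncomputable def l43707 : Lb := (@Lb.d (nat_lit 132) (nat_lit 544) (nat_lit 10) (@Lb.g g8 (@Lb.g g9 (@Lb.g g10 (@Lb.r r275 (@Lb.r r1633 (@Lb.r r2646 (@Lb.r r420 (@Lb.d (nat_lit 546) (nat_lit 4) (nat_lit 18) (@Lb.t (@Lb.fp (nat_lit 9) t2)))))))))))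
noncomputable def l43708 : Lb := (@Lb.d (nat_lit 2) (nat_lit 33) (nat_lit 4) (@Lb.g g8 (@Lb.g g9 (@Lb.g g10 (@Lb.g g11 (@Lb.r r2403 (@Lb.r r418 (@Lb.r r36 (@Lb.r r149 (@Lb.r r2084 (@Lb.d (nat_lit 417) (nat_lit 0) (nat_lit 600) (@Lb.fm (nat_lit 9) t644))))))))))))
noncomputable def l43709 : Lb := (@Lb.d (nat_lit 282) (nat_lit 401) (nat_lit 322) (@Lb.r r1284 (@Lb.r r97 (@Lb.r r1323 (@Lb.r r388 (@Lb.g g7 (@Lb.g g10 (@Lb.g g5 (@Lb.g g4 (@Lb.d (nat_lit 1) (nat_lit 1) (nat_lit 145) (@Lb.fp (nat_lit 9) t448)))))))))))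
noncomputable def l43710 : Lb := (@Lb.d (nat_lit 2) (nat_lit 552) (nat_lit 6) (@Lb.g g8 (@Lb.g g9 (@Lb.g g10 (@Lb.g g11 (@Lb.r r2403 (@Lb.r r418 (@Lb.r r2201 (@Lb.d (nat_lit 132) (nat_lit 105) (nat_lit 408) (@Lb.fm (nat_lit 9) t7545))))))))))
noncomputable def l43711 : Lb := (@Lb.d (nat_lit 145) (nat_lit 521) (nat_lit 130) (@Lb.g g8 (@Lb.g g9 (@Lb.g g10 (@Lb.g g11 (@Lb.r r683 (@Lb.r r2410 (@Lb.r r612 (@Lb.r r2069 (@Lb.r r1060 (@Lb.d (nat_lit 585) (nat_lit 90) (nat_lit 416) (@Lb.fm (nat_lit 9) t1180))))))))))))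
noncomputable def l43712 : Lb := (@Lb.d (nat_lit 36) (nat_lit 2) (nat_lit 130) (@Lb.g g8 (@Lb.g g9 (@Lb.g g10 (@Lb.g g11 (@Lb.r r164 (@Lb.r r405 (@Lb.r r1387 (@Lb.r r2630 (@Lb.r r2180 (@Lb.d (nat_lit 409) (nat_lit 133) (nat_lit 96) (@Lb.fp (nat_lit 9) t17))))))))))))
noncomputable def l43713 : Lb := (@Lb.d (nat_lit 2) (nat_lit 552) (nat_lit 6) (@Lb.g g8 (@Lb.g g9 (@Lb.g g10 (@Lb.g g11 (@Lb.r r2403 (@Lb.r r418 (@Lb.r r36 (@Lb.r r149 (@Lb.r r2084 (@Lb.d (nat_lit 417) (nat_lit 10) (nat_lit 602) (@Lb.fm (nat_lit 9) t18))))))))))))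
noncomputable def l43714 : Lb := (@Lb.d (nat_lit 4) (nat_lit 257) (nat_lit 130) (@Lb.g g8 (@Lb.g g9 (@Lb.g g10 (@Lb.g g11 (@Lb.r r148 (@Lb.r r1126 (@Lb.r r1381 (@Lb.r r1691 (@Lb.r r1668 (@Lb.d (nat_lit 2) (nat_lit 66) (nat_lit 330) (@Lb.fp (nat_lit 9) t2))))))))))))
noncomputable def l43715 : Lb := (@Lb.d (nat_lit 9) (nat_lit 258) (nat_lit 130) (@Lb.g g8 (@Lb.g g9 (@Lb.g g10 (@Lb.g g11 (@Lb.r r148 (@Lb.r r1126 (@Lb.r r1381 (@Lb.r r1691 (@Lb.r r1668 (@Lb.d (nat_lit 1) (nat_lit 66) (nat_lit 330) (@Lb.fp (nat_lit 9) t2))))))))))))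
noncomputable def l43716 : Lb := (@Lb.r r21 (@Lb.r r323 (@Lb.d (nat_lit 128) (nat_lit 8) (nat_lit 2) (@Lb.g g8 (@Lb.g g10 (@Lb.r r1287 (@Lb.r r97 (@Lb.r r402 (@Lb.r r2584 (@Lb.d (nat_lit 328) (nat_lit 8) (nat_lit 153) (@Lb.fp (nat_lit 3) t2)))))))))))
noncomputable def l43717 : Lb := (@Lb.r r21 (@Lb.d (nat_lit 0) (nat_lit 552) (nat_lit 66) (@Lb.g g8 (@Lb.g g10 (@Lb.g g11 (@Lb.r r1121 (@Lb.r r1178 (@Lb.r r2692 (@Lb.r r391 (@Lb.d (nat_lit 97) (nat_lit 153) (nat_lit 612) (@Lb.t (@Lb.fm (nat_lit 9) t2))))))))))))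
noncomputable def l43718 : Lb := (@Lb.r r21 (@Lb.d (nat_lit 0) (nat_lit 40) (nat_lit 130) (@Lb.g g8 (@Lb.g g10 (@Lb.g g11 (@Lb.r r1121 (@Lb.r r1178 (@Lb.r r2696 (@Lb.r r395 (@Lb.d (nat_lit 154) (nat_lit 89) (nat_lit 612) (@Lb.t (@Lb.fp (nat_lit 9) t2))))))))))))
noncomputable def l43719 : Lb := (@Lb.d (nat_lit 2) (nat_lit 288) (nat_lit 128) (@Lb.g g8 (@Lb.g g10 (@Lb.g g11 (@Lb.r r2726 (@Lb.r r105 (@Lb.r r616 (@Lb.r r299 (@Lb.d (nat_lit 641) (nat_lit 166) (nat_lit 584) (@Lb.t (@Lb.fp (nat_lit 9) t51)))))))))))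
noncomputable def l43720 : Lb := (@Lb.r r21 (@Lb.d (nat_lit 10) (nat_lit 0) (nat_lit 128) (@Lb.g g8 (@Lb.g g10 (@Lb.g g11 (@Lb.r r277 (@Lb.r r551 (@Lb.r r404 (@Lb.r r150 (@Lb.d (nat_lit 2) (nat_lit 4) (nat_lit 132) (@Lb.t (@Lb.fm (nat_lit 9) t87))))))))))))
noncomputable def l43721 : Lb := (@Lb.r r323 (@Lb.d (nat_lit 132) (nat_lit 32) (nat_lit 8) (@Lb.g g8 (@Lb.g g9 (@Lb.g g10 (@Lb.r r263 (@Lb.r r584 (@Lb.r r598 (@Lb.r r409 (@Lb.d (nat_lit 21) (nat_lit 8) (nat_lit 130) (@Lb.t (@Lb.fp (nat_lit 9) t2))))))))))))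
noncomputable def l43722 : Lb := (@Lb.d (nat_lit 2) (nat_lit 521) (nat_lit 129) (@Lb.g g8 (@Lb.g g9 (@Lb.g g10 (@Lb.g g11 (@Lb.r r148 (@Lb.r r102 (@Lb.r r357 (@Lb.r r667 (@Lb.r r644 (@Lb.d (nat_lit 9) (nat_lit 2) (nat_lit 74) (@Lb.fp (nat_lit 9) t168))))))))))))
noncomputable def l43723 : Lb := (@Lb.d (nat_lit 2) (nat_lit 514) (nat_lit 130) (@Lb.g g8 (@Lb.g g9 (@Lb.g g10 (@Lb.g g11 (@Lb.r r148 (@Lb.r r102 (@Lb.r r357 (@Lb.r r667 (@Lb.r r644 (@Lb.d (nat_lit 4) (nat_lit 1) (nat_lit 74) (@Lb.fp (nat_lit 9) t2))))))))))))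
noncomputable def l43724 : Lb := (@Lb.d (nat_lit 136) (nat_lit 256) (nat_lit 130) (@Lb.g g9 (@Lb.g g10 (@Lb.g g11 (@Lb.r r1352 (@Lb.r r2646 (@Lb.r r409 (@Lb.r r551 (@Lb.d (nat_lit 138) (nat_lit 145) (nat_lit 86) (@Lb.t (@Lb.fm (nat_lit 9) t2)))))))))))
noncomputable def l43725 : Lb := (@Lb.d (nat_lit 138) (nat_lit 512) (nat_lit 0) (@Lb.g g8 (@Lb.r r410 (@Lb.r r613 (@Lb.r r2727 (@Lb.r r1368 (@Lb.d (nat_lit 682) (nat_lit 81) (nat_lit 421) (@Lb.t (@Lb.fp (nat_lit 3) t51)))))))))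
noncomputable def l43726 : Lb := (@Lb.d (nat_lit 2) (nat_lit 258) (nat_lit 66) (@Lb.g g8 (@Lb.g g9 (@Lb.g g10 (@Lb.g g11 (@Lb.r r644 (@Lb.r r598 (@Lb.r r2457 (@Lb.r r1319 (@Lb.r r2564 (@Lb.d (nat_lit 10) (nat_lit 129) (nat_lit 90) (@Lb.fp (nat_lit 9) t2))))))))))))
noncomputable def l43727 : Lb := (@Lb.r r21 (@Lb.g g4 (@Lb.r r1049 (@Lb.r r1028 (@Lb.t (@Lb.p (nat_lit 1) (@Lb.fm (nat_lit 3) t2)))))))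
noncomputable def l43728 : Lb := (@Lb.d (nat_lit 1) (nat_lit 514) (nat_lit 130) (@Lb.g g8 (@Lb.g g9 (@Lb.g g10 (@Lb.g g11 (@Lb.r r148 (@Lb.r r102 (@Lb.r r357 (@Lb.r r667 (@Lb.r r644 (@Lb.d (nat_lit 9) (nat_lit 2) (nat_lit 74) (@Lb.fp (nat_lit 9) t2))))))))))))
noncomputable def l43729 : Lb := (@Lb.r r277 (@Lb.d (nat_lit 2) (nat_lit 520) (nat_lit 2) (@Lb.g g8 (@Lb.g g10 (@Lb.r r1547 (@Lb.r r1540 (@Lb.d (nat_lit 402) (nat_lit 65) (nat_lit 642) (@Lb.fp (nat_lit 3) t825))))))))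
noncomputable def l43730 : Lb := (@Lb.d (nat_lit 37) (nat_lit 618) (nat_lit 518) (@Lb.r r615 (@Lb.r r593 (@Lb.r r342 (@Lb.g g7 (@Lb.g g4 (@Lb.d (nat_lit 1) (nat_lit 16) (nat_lit 128) (@Lb.fp (nat_lit 3) t390))))))))
noncomputable def l43731 : Lb := (@Lb.d (nat_lit 8) (nat_lit 10) (nat_lit 128) (@Lb.g g9 (@Lb.g g11 (@Lb.r r402 (@Lb.r r584 (@Lb.r r2411 (@Lb.r r2401 (@Lb.d (nat_lit 9) (nat_lit 169) (nat_lit 678) (@Lb.fp (nat_lit 3) t825)))))))))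
noncomputable def l43732 : Lb := (@Lb.d (nat_lit 0) (nat_lit 8) (nat_lit 521) (@Lb.r r1284 (@Lb.r r323 (@Lb.r r658 (@Lb.g g7 (@Lb.g g5 (@Lb.d (nat_lit 0) (nat_lit 134) (nat_lit 64) (@Lb.fp (nat_lit 3) t7546))))))))
noncomputable def l43733 : Lb := (@Lb.d (nat_lit 34) (nat_lit 512) (nat_lit 0) (@Lb.g g8 (@Lb.r r289 (@Lb.r r2579 (@Lb.r r582 (@Lb.r r2180 (@Lb.d (nat_lit 548) (nat_lit 64) (nat_lit 153) (@Lb.t (@Lb.fp (nat_lit 3) t7547)))))))))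
noncomputable def l43734 : Lb := (@Lb.d (nat_lit 2) (nat_lit 32) (nat_lit 130) (@Lb.g g8 (@Lb.g g10 (@Lb.g g11 (@Lb.r r353 (@Lb.r r2714 (@Lb.r r2712 (@Lb.r r2587 (@Lb.d (nat_lit 329) (nat_lit 0) (nat_lit 261) (@Lb.t (@Lb.fm (nat_lit 9) t885)))))))))))
noncomputable def l43735 : Lb := (@Lb.d (nat_lit 0) (nat_lit 9) (nat_lit 72) (@Lb.g g8 (@Lb.g g9 (@Lb.g g10 (@Lb.g g11 (@Lb.r r392 (@Lb.r r2698 (@Lb.r r411 (@Lb.r r1621 (@Lb.r r1188 (@Lb.d (nat_lit 640) (nat_lit 130) (nat_lit 128) (@Lb.fp (nat_lit 9) t561))))))))))))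
noncomputable def l43736 : Lb := (@Lb.d (nat_lit 0) (nat_lit 256) (nat_lit 128) (@Lb.g g11 (@Lb.r r593 (@Lb.r r2587 (@Lb.r r2178 (@Lb.r r2584 (@Lb.d (nat_lit 537) (nat_lit 66) (nat_lit 1) (@Lb.t (@Lb.fm (nat_lit 3) t1385)))))))))
noncomputable def l43737 : Lb := (@Lb.d (nat_lit 169) (nat_lit 360) (nat_lit 90) (@Lb.r r680 (@Lb.r r2178 (@Lb.r r1307 (@Lb.g g9 (@Lb.g g4 (@Lb.d (nat_lit 65) (nat_lit 70) (nat_lit 0) (@Lb.fp (nat_lit 3) t1019))))))))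
noncomputable def l43738 : Lb := (@Lb.r r21 (@Lb.d (nat_lit 9) (nat_lit 512) (nat_lit 128) (@Lb.g g8 (@Lb.g g11 (@Lb.r r337 (@Lb.r r2727 (@Lb.r r2694 (@Lb.r r1304 (@Lb.d (nat_lit 136) (nat_lit 148) (nat_lit 405) (@Lb.fp (nat_lit 3) t982))))))))))
noncomputable def l43739 : Lb := (@Lb.d (nat_lit 34) (nat_lit 8) (nat_lit 129) (@Lb.g g8 (@Lb.g g9 (@Lb.g g10 (@Lb.g g11 (@Lb.r r164 (@Lb.r r405 (@Lb.r r1387 (@Lb.r r2630 (@Lb.r r2180 (@Lb.d (nat_lit 402) (nat_lit 136) (nat_lit 97) (@Lb.fp (nat_lit 9) t7548))))))))))))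
noncomputable def l43740 : Lb := (@Lb.d (nat_lit 9) (nat_lit 1) (nat_lit 130) (@Lb.g g8 (@Lb.g g9 (@Lb.g g10 (@Lb.g g11 (@Lb.r r427 (@Lb.r r424 (@Lb.r r106 (@Lb.r r1625 (@Lb.d (nat_lit 361) (nat_lit 149) (nat_lit 661) (@Lb.fm (nat_lit 9) t445)))))))))))
noncomputable def l43741 : Lb := (@Lb.d (nat_lit 34) (nat_lit 1) (nat_lit 130) (@Lb.g g8 (@Lb.g g9 (@Lb.g g10 (@Lb.g g11 (@Lb.r r164 (@Lb.r r405 (@Lb.r r1387 (@Lb.r r2630 (@Lb.r r2180 (@Lb.d (nat_lit 409) (nat_lit 138) (nat_lit 97) (@Lb.fp (nat_lit 9) t17))))))))))))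
noncomputable def l43742 : Lb := (@Lb.r r277 (@Lb.d (nat_lit 386) (nat_lit 8) (nat_lit 130) (@Lb.g g8 (@Lb.g g10 (@Lb.g g11 (@Lb.r r2439 (@Lb.r r101 (@Lb.r r402 (@Lb.d (nat_lit 586) (nat_lit 85) (nat_lit 665) (@Lb.t (@Lb.fm (nat_lit 9) t952)))))))))))
noncomputable def l43743 : Lb := (@Lb.d (nat_lit 9) (nat_lit 513) (nat_lit 130) (@Lb.g g8 (@Lb.g g9 (@Lb.g g10 (@Lb.g g11 (@Lb.r r580 (@Lb.r r1367 (@Lb.r r2218 (@Lb.r r1193 (@Lb.r r1188 (@Lb.d (nat_lit 640) (nat_lit 80) (nat_lit 325) (@Lb.fp (nat_lit 9) t1255))))))))))))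
noncomputable def l43744 : Lb := (@Lb.d (nat_lit 10) (nat_lit 1) (nat_lit 130) (@Lb.g g8 (@Lb.g g9 (@Lb.g g10 (@Lb.g g11 (@Lb.r r580 (@Lb.r r1367 (@Lb.r r2218 (@Lb.r r1193 (@Lb.r r1188 (@Lb.d (nat_lit 640) (nat_lit 85) (nat_lit 326) (@Lb.fp (nat_lit 9) t1327))))))))))))
noncomputable def l43745 : Lb := (@Lb.r r81 (@Lb.d (nat_lit 33) (nat_lit 292) (nat_lit 0) (@Lb.g g8 (@Lb.g g6 (@Lb.g g11 (@Lb.r r105 (@Lb.r r612 (@Lb.r r263 (@Lb.d (nat_lit 64) (nat_lit 26) (nat_lit 88) (@Lb.t (@Lb.fm (nat_lit 9) t150)))))))))))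
noncomputable def l43746 : Lb := (@Lb.d (nat_lit 40) (nat_lit 6) (nat_lit 5) (@Lb.r r408 (@Lb.r r410 (@Lb.r r337 (@Lb.r r291 (@Lb.g g6 (@Lb.g g5 (@Lb.g g4 (@Lb.d (nat_lit 70) (nat_lit 18) (nat_lit 1) (@Lb.t (@Lb.fp (nat_lit 9) t2)))))))))))
noncomputable def l43747 : Lb := (@Lb.r r2579 (@Lb.d (nat_lit 0) (nat_lit 2) (nat_lit 5) (@Lb.g g9 (@Lb.g g6 (@Lb.r r609 (@Lb.d (nat_lit 5) (nat_lit 26) (nat_lit 328) (@Lb.fp (nat_lit 3) t901)))))))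
noncomputable def l43748 : Lb := (@Lb.r r82 (@Lb.d (nat_lit 8) (nat_lit 2) (nat_lit 128) (@Lb.g g9 (@Lb.g g11 (@Lb.r r586 (@Lb.r r611 (@Lb.r r280 (@Lb.r r613 (@Lb.d (nat_lit 148) (nat_lit 6) (nat_lit 130) (@Lb.fp (nat_lit 3) t510))))))))))
noncomputable def l43749 : Lb := (@Lb.d (nat_lit 0) (nat_lit 521) (nat_lit 130) (@Lb.g g9 (@Lb.g g10 (@Lb.g g11 (@Lb.r r2407 (@Lb.r r417 (@Lb.r r1096 (@Lb.r r2150 (@Lb.d (nat_lit 130) (nat_lit 26) (nat_lit 404) (@Lb.t (@Lb.fm (nat_lit 9) t394)))))))))))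
noncomputable def l43750 : Lb := (@Lb.r r323 (@Lb.d (nat_lit 132) (nat_lit 256) (nat_lit 34) (@Lb.g g8 (@Lb.g g9 (@Lb.g g10 (@Lb.r r2647 (@Lb.r r145 (@Lb.r r360 (@Lb.d (nat_lit 164) (nat_lit 37) (nat_lit 40) (@Lb.t (@Lb.fm (nat_lit 9) t791)))))))))))
noncomputable def l43751 : Lb := (@Lb.r r21 (@Lb.d (nat_lit 32) (nat_lit 512) (nat_lit 130) (@Lb.g g8 (@Lb.g g10 (@Lb.g g11 (@Lb.r r2635 (@Lb.r r1626 (@Lb.r r145 (@Lb.r r532 (@Lb.d (nat_lit 388) (nat_lit 164) (nat_lit 129) (@Lb.t (@Lb.fp (nat_lit 9) t394))))))))))))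
noncomputable def l43752 : Lb := (@Lb.r r515 (@Lb.r r130 (@Lb.r r33 (@Lb.r r36 (@Lb.d (nat_lit 6) (nat_lit 385) (nat_lit 0) (@Lb.fm (nat_lit 1) t2))))))
noncomputable def l43753 : Lb := (@Lb.d (nat_lit 89) (nat_lit 257) (nat_lit 138) (@Lb.g g8 (@Lb.g g9 (@Lb.g g10 (@Lb.g g11 (@Lb.r r2729 (@Lb.r r2471 (@Lb.r r2154 (@Lb.r r292 (@Lb.d (nat_lit 324) (nat_lit 73) (nat_lit 425) (@Lb.fm (nat_lit 9) t3020)))))))))))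
noncomputable def l43754 : Lb := (@Lb.d (nat_lit 2) (nat_lit 32) (nat_lit 130) (@Lb.g g8 (@Lb.g g10 (@Lb.g g11 (@Lb.r r353 (@Lb.r r2714 (@Lb.r r2712 (@Lb.r r2587 (@Lb.d (nat_lit 320) (nat_lit 34) (nat_lit 522) (@Lb.t (@Lb.fm (nat_lit 9) t2)))))))))))
noncomputable def l43755 : Lb := (@Lb.d (nat_lit 32) (nat_lit 520) (nat_lit 130) (@Lb.g g10 (@Lb.g g11 (@Lb.r r361 (@Lb.r r2711 (@Lb.r r1352 (@Lb.r r2374 (@Lb.d (nat_lit 601) (nat_lit 153) (nat_lit 554) (@Lb.fp (nat_lit 3) t633)))))))))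
noncomputable def l43756 : Lb := (@Lb.d (nat_lit 10) (nat_lit 289) (nat_lit 10) (@Lb.g g8 (@Lb.g g9 (@Lb.g g10 (@Lb.r r1303 (@Lb.r r2664 (@Lb.r r406 (@Lb.r r2657 (@Lb.d (nat_lit 2) (nat_lit 154) (nat_lit 24) (@Lb.t (@Lb.fp (nat_lit 9) t2)))))))))))
noncomputable def l43757 : Lb := (@Lb.r r82 (@Lb.d (nat_lit 2) (nat_lit 2) (nat_lit 128) (@Lb.g g8 (@Lb.g g9 (@Lb.g g11 (@Lb.r r299 (@Lb.r r1352 (@Lb.r r2182 (@Lb.d (nat_lit 0) (nat_lit 137) (nat_lit 169) (@Lb.t (@Lb.fm (nat_lit 9) t390)))))))))))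
noncomputable def l43758 : Lb := (@Lb.d (nat_lit 1) (nat_lit 32) (nat_lit 128) (@Lb.g g8 (@Lb.g g10 (@Lb.g g11 (@Lb.r r2726 (@Lb.r r105 (@Lb.r r616 (@Lb.r r299 (@Lb.d (nat_lit 641) (nat_lit 166) (nat_lit 518) (@Lb.t (@Lb.fp (nat_lit 9) t51)))))))))))
noncomputable def l43759 : Lb := (@Lb.d (nat_lit 2) (nat_lit 256) (nat_lit 66) (@Lb.g g8 (@Lb.g g10 (@Lb.g g11 (@Lb.r r593 (@Lb.r r2474 (@Lb.r r2472 (@Lb.r r1303 (@Lb.r r537 (@Lb.d (nat_lit 262) (nat_lit 130) (nat_lit 330) (@Lb.t (@Lb.fm (nat_lit 9) t2))))))))))))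
noncomputable def l43760 : Lb := (@Lb.d (nat_lit 138) (nat_lit 2) (nat_lit 2) (@Lb.g g8 (@Lb.g g9 (@Lb.g g10 (@Lb.r r337 (@Lb.r r2723 (@Lb.r r1706 (@Lb.r r1704 (@Lb.r r537 (@Lb.d (nat_lit 18) (nat_lit 134) (nat_lit 0) (@Lb.t (@Lb.fp (nat_lit 9) t1607))))))))))))
noncomputable def l43761 : Lb := (@Lb.r r86 (@Lb.d (nat_lit 10) (nat_lit 258) (nat_lit 128) (@Lb.g g8 (@Lb.g g9 (@Lb.g g11 (@Lb.r r2723 (@Lb.r r1602 (@Lb.r r149 (@Lb.r r1060 (@Lb.d (nat_lit 552) (nat_lit 130) (nat_lit 100) (@Lb.t (@Lb.fp (nat_lit 9) t580))))))))))))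
noncomputable def l43762 : Lb := (@Lb.r r323 (@Lb.d (nat_lit 1) (nat_lit 257) (nat_lit 1) (@Lb.g g8 (@Lb.g g9 (@Lb.g g6 (@Lb.r r387 (@Lb.r r2136 (@Lb.r r1061 (@Lb.d (nat_lit 517) (nat_lit 8) (nat_lit 18) (@Lb.t (@Lb.fp (nat_lit 9) t40)))))))))))
noncomputable def l43763 : Lb := (@Lb.d (nat_lit 138) (nat_lit 290) (nat_lit 10) (@Lb.g g8 (@Lb.g g9 (@Lb.g g10 (@Lb.r r1299 (@Lb.r r609 (@Lb.r r86 (@Lb.r r2212 (@Lb.d (nat_lit 162) (nat_lit 86) (nat_lit 18) (@Lb.t (@Lb.fp (nat_lit 9) t2)))))))))))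
noncomputable def l43764 : Lb := (@Lb.d (nat_lit 9) (nat_lit 0) (nat_lit 73) (@Lb.g g8 (@Lb.g g10 (@Lb.g g11 (@Lb.r r2691 (@Lb.r r1681 (@Lb.r r1178 (@Lb.r r2436 (@Lb.d (nat_lit 548) (nat_lit 161) (nat_lit 154) (@Lb.t (@Lb.fm (nat_lit 9) t521)))))))))))
noncomputable def l43765 : Lb := (@Lb.d (nat_lit 2) (nat_lit 514) (nat_lit 73) (@Lb.g g8 (@Lb.g g9 (@Lb.g g10 (@Lb.g g11 (@Lb.r r148 (@Lb.r r102 (@Lb.r r357 (@Lb.r r667 (@Lb.r r644 (@Lb.d (nat_lit 9) (nat_lit 2) (nat_lit 74) (@Lb.fp (nat_lit 9) t2))))))))))))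
noncomputable def l43766 : Lb := (@Lb.r r289 (@Lb.r r323 (@Lb.d (nat_lit 130) (nat_lit 512) (nat_lit 2) (@Lb.g g8 (@Lb.g g10 (@Lb.r r583 (@Lb.r r408 (@Lb.d (nat_lit 138) (nat_lit 16) (nat_lit 18) (@Lb.fp (nat_lit 3) t1987)))))))))
noncomputable def l43767 : Lb := (@Lb.d (nat_lit 32) (nat_lit 18) (nat_lit 2) (@Lb.g g5 (@Lb.g g10 (@Lb.r r535 (@Lb.r r72 (@Lb.r r390 (@Lb.d (nat_lit 64) (nat_lit 1) (nat_lit 136) (@Lb.fm (nat_lit 3) t285))))))))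
noncomputable def l43768 : Lb := (@Lb.d (nat_lit 138) (nat_lit 85) (nat_lit 513) (@Lb.r r553 (@Lb.r r427 (@Lb.r r406 (@Lb.g g7 (@Lb.g g5 (@Lb.g g4 (@Lb.d (nat_lit 1) (nat_lit 5) (nat_lit 128) (@Lb.t (@Lb.fp (nat_lit 9) t726))))))))))
noncomputable def l43769 : Lb := (@Lb.r r21 (@Lb.r r70 (@Lb.d (nat_lit 0) (nat_lit 0) (nat_lit 128) (@Lb.g g8 (@Lb.g g11 (@Lb.r r523 (@Lb.r r402 (@Lb.r r97 (@Lb.r r548 (@Lb.d (nat_lit 6) (nat_lit 80) (nat_lit 0) (@Lb.fp (nat_lit 3) t1515)))))))))))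
noncomputable def l43770 : Lb := (@Lb.r r580 (@Lb.r r1447 (@Lb.r r2178 (@Lb.r r409 (@Lb.r r20 (@Lb.d (nat_lit 257) (nat_lit 0) (nat_lit 32) (@Lb.fm (nat_lit 1) t646)))))))
noncomputable def l43771 : Lb := (@Lb.d (nat_lit 0) (nat_lit 544) (nat_lit 128) (@Lb.g g7 (@Lb.r r681 (@Lb.r r2663 (@Lb.r r2178 (@Lb.r r8 (@Lb.d (nat_lit 402) (nat_lit 162) (nat_lit 362) (@Lb.t (@Lb.fm (nat_lit 3) t646)))))))))
noncomputable def l43772 : Lb := (@Lb.d (nat_lit 128) (nat_lit 0) (nat_lit 128) (@Lb.g g11 (@Lb.r r1300 (@Lb.r r2315 (@Lb.r r2178 (@Lb.r r2081 (@Lb.d (nat_lit 384) (nat_lit 130) (nat_lit 640) (@Lb.t (@Lb.fp (nat_lit 3) t1124)))))))))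
noncomputable def l43773 : Lb := (@Lb.d (nat_lit 2) (nat_lit 9) (nat_lit 129) (@Lb.g g8 (@Lb.g g9 (@Lb.g g10 (@Lb.g g11 (@Lb.r r2666 (@Lb.r r2667 (@Lb.r r2585 (@Lb.d (nat_lit 329) (nat_lit 41) (nat_lit 258) (@Lb.fm (nat_lit 9) t719))))))))))
noncomputable def l43774 : Lb := (@Lb.d (nat_lit 144) (nat_lit 264) (nat_lit 129) (@Lb.g g6 (@Lb.g g11 (@Lb.r r264 (@Lb.r r279 (@Lb.r r609 (@Lb.d (nat_lit 26) (nat_lit 21) (nat_lit 16) (@Lb.fp (nat_lit 3) t590))))))))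
noncomputable def l43775 : Lb := (@Lb.d (nat_lit 130) (nat_lit 0) (nat_lit 0) (@Lb.g g4 (@Lb.r r555 (@Lb.r r2178 (@Lb.r r2081 (@Lb.r r1576 (@Lb.d (nat_lit 393) (nat_lit 66) (nat_lit 640) (@Lb.t (@Lb.fm (nat_lit 3) t1123)))))))))
noncomputable def l43776 : Lb := (@Lb.d (nat_lit 2) (nat_lit 265) (nat_lit 1) (@Lb.g g8 (@Lb.g g9 (@Lb.g g10 (@Lb.g g11 (@Lb.r r2729 (@Lb.r r2475 (@Lb.r r2468 (@Lb.r r2438 (@Lb.d (nat_lit 401) (nat_lit 10) (nat_lit 329) (@Lb.fp (nat_lit 9) t580)))))))))))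
noncomputable def l43777 : Lb := (@Lb.r r70 (@Lb.r r263 (@Lb.d (nat_lit 513) (nat_lit 66) (nat_lit 0) (@Lb.g g4 (@Lb.g g9 (@Lb.r r1315 (@Lb.r r1122 (@Lb.d (nat_lit 1) (nat_lit 2) (nat_lit 0) (@Lb.fp (nat_lit 3) t1751)))))))))
noncomputable def l43778 : Lb := (@Lb.d (nat_lit 0) (nat_lit 258) (nat_lit 73) (@Lb.g g9 (@Lb.g g10 (@Lb.g g11 (@Lb.r r1706 (@Lb.r r168 (@Lb.r r409 (@Lb.r r295 (@Lb.r r516 (@Lb.d (nat_lit 265) (nat_lit 97) (nat_lit 618) (@Lb.t (@Lb.fm (nat_lit 9) t1649))))))))))))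
noncomputable def l43779 : Lb := (@Lb.d (nat_lit 96) (nat_lit 518) (nat_lit 42) (@Lb.r r264 (@Lb.r r82 (@Lb.r r599 (@Lb.g g6 (@Lb.g g5 (@Lb.g g4 (@Lb.d (nat_lit 65) (nat_lit 16) (nat_lit 1) (@Lb.r r291 (@Lb.t (@Lb.fp (nat_lit 9) t686)))))))))))
noncomputable def l43780 : Lb := (@Lb.d (nat_lit 0) (nat_lit 32) (nat_lit 128) (@Lb.g g11 (@Lb.r r1361 (@Lb.r r1699 (@Lb.r r2178 (@Lb.r r8 (@Lb.d (nat_lit 0) (nat_lit 24) (nat_lit 258) (@Lb.t (@Lb.fm (nat_lit 3) t271)))))))))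
noncomputable def l43781 : Lb := (@Lb.d (nat_lit 2) (nat_lit 2) (nat_lit 130) (@Lb.g g8 (@Lb.g g9 (@Lb.g g10 (@Lb.g g11 (@Lb.r r427 (@Lb.r r420 (@Lb.r r102 (@Lb.r r97 (@Lb.r r36 (@Lb.d (nat_lit 10) (nat_lit 137) (nat_lit 137) (@Lb.fm (nat_lit 9) t51))))))))))))
noncomputable def l43782 : Lb := (@Lb.d (nat_lit 0) (nat_lit 256) (nat_lit 9) (@Lb.g g10 (@Lb.r r1603 (@Lb.r r386 (@Lb.r r33 (@Lb.r r36 (@Lb.d (nat_lit 0) (nat_lit 128) (nat_lit 586) (@Lb.t (@Lb.fm (nat_lit 3) t2)))))))))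
noncomputable def l43783 : Lb := (@Lb.d (nat_lit 0) (nat_lit 512) (nat_lit 2) (@Lb.g g10 (@Lb.r r1667 (@Lb.r r578 (@Lb.r r33 (@Lb.r r36 (@Lb.d (nat_lit 0) (nat_lit 128) (nat_lit 297) (@Lb.t (@Lb.fp (nat_lit 3) t2)))))))))
noncomputable def l43784 : Lb := (@Lb.r r275 (@Lb.d (nat_lit 2) (nat_lit 512) (nat_lit 2) (@Lb.g g8 (@Lb.g g9 (@Lb.g g10 (@Lb.r r2666 (@Lb.r r2664 (@Lb.r r2585 (@Lb.r r2579 (@Lb.d (nat_lit 264) (nat_lit 73) (nat_lit 2) (@Lb.t (@Lb.fm (nat_lit 9) t948))))))))))))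
noncomputable def l43785 : Lb := (@Lb.r r275 (@Lb.g g9 (@Lb.g g10 (@Lb.r r2467 (@Lb.r r2193 (@Lb.d (nat_lit 0) (nat_lit 256) (nat_lit 153) (@Lb.fm (nat_lit 3) t484)))))))
noncomputable def l43786 : Lb := (@Lb.d (nat_lit 402) (nat_lit 145) (nat_lit 550) (@Lb.r r2635 (@Lb.r r1640 (@Lb.r r1641 (@Lb.r r2450 (@Lb.g g7 (@Lb.g g5 (@Lb.g g4 (@Lb.d (nat_lit 1) (nat_lit 1) (nat_lit 68) (@Lb.t (@Lb.fp (nat_lit 9) t4542)))))))))))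
noncomputable def l43787 : Lb := (@Lb.r r275 (@Lb.d (nat_lit 8) (nat_lit 256) (nat_lit 2) (@Lb.g g9 (@Lb.g g10 (@Lb.r r1300 (@Lb.r r667 (@Lb.r r1378 (@Lb.r r1369 (@Lb.d (nat_lit 404) (nat_lit 37) (nat_lit 534) (@Lb.fp (nat_lit 3) t5773))))))))))
noncomputable def l43788 : Lb := (@Lb.d (nat_lit 2) (nat_lit 514) (nat_lit 128) (@Lb.g g8 (@Lb.g g9 (@Lb.g g10 (@Lb.g g11 (@Lb.r r100 (@Lb.r r149 (@Lb.r r2454 (@Lb.r r2667 (@Lb.r r1572 (@Lb.d (nat_lit 32) (nat_lit 98) (nat_lit 65) (@Lb.fp (nat_lit 9) t4541))))))))))))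
noncomputable def l43789 : Lb := (@Lb.r r331 (@Lb.d (nat_lit 32) (nat_lit 2) (nat_lit 33) (@Lb.g g8 (@Lb.g g9 (@Lb.g g6 (@Lb.r r1643 (@Lb.r r97 (@Lb.r r2648 (@Lb.d (nat_lit 410) (nat_lit 161) (nat_lit 25) (@Lb.t (@Lb.fm (nat_lit 9) t2416)))))))))))
noncomputable def l43790 : Lb := (@Lb.r r82 (@Lb.d (nat_lit 134) (nat_lit 512) (nat_lit 128) (@Lb.g g8 (@Lb.g g9 (@Lb.g g11 (@Lb.r r1705 (@Lb.r r1443 (@Lb.r r98 (@Lb.r r2084 (@Lb.d (nat_lit 106) (nat_lit 68) (nat_lit 104) (@Lb.t (@Lb.fp (nat_lit 9) t7549))))))))))))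
noncomputable def l43791 : Lb := (@Lb.d (nat_lit 134) (nat_lit 10) (nat_lit 72) (@Lb.g g8 (@Lb.g g9 (@Lb.g g10 (@Lb.g g11 (@Lb.r r1367 (@Lb.r r362 (@Lb.r r2212 (@Lb.r r37 (@Lb.d (nat_lit 664) (nat_lit 74) (nat_lit 34) (@Lb.fm (nat_lit 9) t7550)))))))))))
noncomputable def l43792 : Lb := (@Lb.d (nat_lit 2) (nat_lit 545) (nat_lit 64) (@Lb.g g8 (@Lb.g g9 (@Lb.g g11 (@Lb.r r2375 (@Lb.r r2178 (@Lb.r r1636 (@Lb.r r1557 (@Lb.d (nat_lit 662) (nat_lit 10) (nat_lit 290) (@Lb.t (@Lb.fp (nat_lit 9) t2582)))))))))))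
noncomputable def l43793 : Lb := (@Lb.r r82 (@Lb.d (nat_lit 134) (nat_lit 512) (nat_lit 128) (@Lb.g g8 (@Lb.g g9 (@Lb.g g11 (@Lb.r r1705 (@Lb.r r1443 (@Lb.r r98 (@Lb.r r2084 (@Lb.d (nat_lit 105) (nat_lit 68) (nat_lit 168) (@Lb.t (@Lb.fp (nat_lit 9) t7551))))))))))))
noncomputable def l43794 : Lb := (@Lb.r r70 (@Lb.d (nat_lit 32) (nat_lit 258) (nat_lit 128) (@Lb.g g8 (@Lb.g g9 (@Lb.g g11 (@Lb.r r363 (@Lb.r r610 (@Lb.r r1049 (@Lb.r r2196 (@Lb.d (nat_lit 580) (nat_lit 41) (nat_lit 357) (@Lb.t (@Lb.fm (nat_lit 9) t7552))))))))))))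
noncomputable def l43795 : Lb := (@Lb.d (nat_lit 2) (nat_lit 393) (nat_lit 73) (@Lb.g g8 (@Lb.g g5 (@Lb.g g10 (@Lb.g g11 (@Lb.r r1319 (@Lb.r r666 (@Lb.r r2584 (@Lb.d (nat_lit 104) (nat_lit 160) (nat_lit 400) (@Lb.fm (nat_lit 9) t1095))))))))))
noncomputable def l43796 : Lb := (@Lb.r r323 (@Lb.d (nat_lit 0) (nat_lit 34) (nat_lit 18) (@Lb.g g9 (@Lb.g g10 (@Lb.r r595 (@Lb.r r1321 (@Lb.r r8 (@Lb.d (nat_lit 132) (nat_lit 105) (nat_lit 294) (@Lb.fp (nat_lit 3) t646)))))))))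
noncomputable def l43797 : Lb := (@Lb.d (nat_lit 538) (nat_lit 612) (nat_lit 518) (@Lb.r r85 (@Lb.r r2600 (@Lb.r r1414 (@Lb.r r2347 (@Lb.r r401 (@Lb.g g11 (@Lb.g g4 (@Lb.fp (nat_lit 3) t4483)))))))))
noncomputable def l43798 : Lb := (@Lb.r r82 (@Lb.d (nat_lit 0) (nat_lit 512) (nat_lit 128) (@Lb.g g9 (@Lb.g g11 (@Lb.r r1575 (@Lb.r r1416 (@Lb.r r1098 (@Lb.r r1105 (@Lb.d (nat_lit 329) (nat_lit 133) (nat_lit 512) (@Lb.fm (nat_lit 3) t7553))))))))))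
noncomputable def l43799 : Lb := (@Lb.d (nat_lit 645) (nat_lit 74) (nat_lit 394) (@Lb.r r2193 (@Lb.r r2118 (@Lb.r r1416 (@Lb.r r1575 (@Lb.g g7 (@Lb.g g5 (@Lb.d (nat_lit 0) (nat_lit 0) (nat_lit 64) (@Lb.r r98 (@Lb.fm (nat_lit 3) t1240))))))))))
noncomputable def l43800 : Lb := (@Lb.d (nat_lit 129) (nat_lit 2) (nat_lit 130) (@Lb.g g8 (@Lb.g g9 (@Lb.g g10 (@Lb.g g11 (@Lb.r r2729 (@Lb.r r2475 (@Lb.r r420 (@Lb.r r1094 (@Lb.r r2180 (@Lb.d (nat_lit 33) (nat_lit 104) (nat_lit 617) (@Lb.fm (nat_lit 9) t1928))))))))))))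
noncomputable def l43801 : Lb := (@Lb.d (nat_lit 145) (nat_lit 294) (nat_lit 20) (@Lb.r r1044 (@Lb.r r2073 (@Lb.r r404 (@Lb.r r2667 (@Lb.g g7 (@Lb.g g10 (@Lb.g g5 (@Lb.g g4 (@Lb.d (nat_lit 1) (nat_lit 1) (nat_lit 81) (@Lb.fp (nat_lit 9) t4508)))))))))))
noncomputable def l43802 : Lb := (@Lb.d (nat_lit 0) (nat_lit 36) (nat_lit 324) (@Lb.r r1681 (@Lb.r r2438 (@Lb.r r2152 (@Lb.g g11 (@Lb.g g5 (@Lb.g g4 (@Lb.d (nat_lit 65) (nat_lit 33) (nat_lit 640) (@Lb.r r578 (@Lb.t (@Lb.fm (nat_lit 9) t5151)))))))))))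
noncomputable def l43803 : Lb := (@Lb.d (nat_lit 408) (nat_lit 514) (nat_lit 0) (@Lb.g g4 (@Lb.g g9 (@Lb.d (nat_lit 6) (nat_lit 88) (nat_lit 528) (@Lb.fp (nat_lit 3) t4041)))))
noncomputable def l43804 : Lb := (@Lb.d (nat_lit 128) (nat_lit 0) (nat_lit 64) (@Lb.g g11 (@Lb.r r324 (@Lb.r r1291 (@Lb.r r2178 (@Lb.r r2081 (@Lb.d (nat_lit 418) (nat_lit 0) (nat_lit 386) (@Lb.t (@Lb.fp (nat_lit 3) t596)))))))))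
noncomputable def l43805 : Lb := (@Lb.r r264 (@Lb.r r1351 (@Lb.r r2178 (@Lb.r r2081 (@Lb.r r2564 (@Lb.d (nat_lit 0) (nat_lit 512) (nat_lit 170) (@Lb.fm (nat_lit 1) t596)))))))
noncomputable def l43806 : Lb := (@Lb.d (nat_lit 130) (nat_lit 256) (nat_lit 0) (@Lb.g g4 (@Lb.r r2699 (@Lb.r r2178 (@Lb.r r2081 (@Lb.r r1672 (@Lb.d (nat_lit 417) (nat_lit 0) (nat_lit 386) (@Lb.t (@Lb.fm (nat_lit 3) t596)))))))))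
noncomputable def l43807 : Lb := (@Lb.d (nat_lit 8) (nat_lit 546) (nat_lit 0) (@Lb.g g9 (@Lb.r r536 (@Lb.r r2715 (@Lb.r r2178 (@Lb.r r2385 (@Lb.d (nat_lit 529) (nat_lit 150) (nat_lit 678) (@Lb.t (@Lb.fm (nat_lit 3) t222)))))))))
noncomputable def l43808 : Lb := (@Lb.r r404 (@Lb.r r1451 (@Lb.r r2178 (@Lb.r r405 (@Lb.r r20 (@Lb.d (nat_lit 512) (nat_lit 0) (nat_lit 394) (@Lb.fm (nat_lit 1) t3207)))))))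
noncomputable def l43809 : Lb := (@Lb.r r82 (@Lb.d (nat_lit 2) (nat_lit 514) (nat_lit 128) (@Lb.g g8 (@Lb.g g9 (@Lb.g g11 (@Lb.r r555 (@Lb.r r548 (@Lb.r r165 (@Lb.r r98 (@Lb.d (nat_lit 9) (nat_lit 4) (nat_lit 136) (@Lb.t (@Lb.fm (nat_lit 9) t892))))))))))))
noncomputable def l43810 : Lb := (@Lb.d (nat_lit 33) (nat_lit 38) (nat_lit 66) (@Lb.g g8 (@Lb.g g9 (@Lb.g g10 (@Lb.g g11 (@Lb.r r2666 (@Lb.r r1603 (@Lb.r r25 (@Lb.r r1048 (@Lb.d (nat_lit 586) (nat_lit 97) (nat_lit 602) (@Lb.fp (nat_lit 9) t1000)))))))))))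
noncomputable def l43811 : Lb := (@Lb.g g7 (@Lb.r r260 (@Lb.r r523 (@Lb.r r1154 (@Lb.r r1057 (@Lb.r r516 (@Lb.t (@Lb.fp (nat_lit 3) t980))))))))
noncomputable def l43812 : Lb := (@Lb.d (nat_lit 32) (nat_lit 514) (nat_lit 136) (@Lb.g g8 (@Lb.g g9 (@Lb.g g11 (@Lb.r r2198 (@Lb.r r1380 (@Lb.r r1291 (@Lb.r r97 (@Lb.d (nat_lit 2) (nat_lit 153) (nat_lit 672) (@Lb.t (@Lb.fm (nat_lit 9) t322)))))))))))
noncomputable def l43813 : Lb := (@Lb.r r21 (@Lb.r r70 (@Lb.d (nat_lit 0) (nat_lit 0) (nat_lit 128) (@Lb.g g8 (@Lb.g g11 (@Lb.r r2715 (@Lb.r r2457 (@Lb.r r2138 (@Lb.r r152 (@Lb.d (nat_lit 273) (nat_lit 134) (nat_lit 32) (@Lb.fm (nat_lit 3) t525)))))))))))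
noncomputable def l43814 : Lb := (@Lb.d (nat_lit 0) (nat_lit 514) (nat_lit 130) (@Lb.g g8 (@Lb.g g9 (@Lb.g g10 (@Lb.g g11 (@Lb.r r2691 (@Lb.r r328 (@Lb.r r1638 (@Lb.r r97 (@Lb.r r1060 (@Lb.d (nat_lit 640) (nat_lit 73) (nat_lit 608) (@Lb.fm (nat_lit 9) t322))))))))))))
noncomputable def l43815 : Lb := (@Lb.d (nat_lit 10) (nat_lit 257) (nat_lit 136) (@Lb.g g8 (@Lb.g g9 (@Lb.g g11 (@Lb.r r1641 (@Lb.r r402 (@Lb.r r1635 (@Lb.r r1156 (@Lb.d (nat_lit 288) (nat_lit 10) (nat_lit 18) (@Lb.t (@Lb.fp (nat_lit 9) t5010)))))))))))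
noncomputable def l43816 : Lb := (@Lb.d (nat_lit 0) (nat_lit 290) (nat_lit 0) (@Lb.g g5 (@Lb.r r2731 (@Lb.r r2178 (@Lb.r r1701 (@Lb.r r8 (@Lb.d (nat_lit 538) (nat_lit 105) (nat_lit 386) (@Lb.t (@Lb.fm (nat_lit 3) t646)))))))))
noncomputable def l43817 : Lb := (@Lb.d (nat_lit 0) (nat_lit 516) (nat_lit 74) (@Lb.g g8 (@Lb.g g9 (@Lb.g g10 (@Lb.g g11 (@Lb.r r427 (@Lb.r r578 (@Lb.r r1320 (@Lb.r r25 (@Lb.d (nat_lit 665) (nat_lit 161) (nat_lit 324) (@Lb.fm (nat_lit 9) t5875)))))))))))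
noncomputable def l43818 : Lb := (@Lb.d (nat_lit 0) (nat_lit 260) (nat_lit 128) (@Lb.g g8 (@Lb.g g9 (@Lb.g g10 (@Lb.g g11 (@Lb.r r1287 (@Lb.r r2666 (@Lb.r r97 (@Lb.r r2564 (@Lb.d (nat_lit 546) (nat_lit 10) (nat_lit 22) (@Lb.fm (nat_lit 9) t2865)))))))))))
noncomputable def l43819 : Lb := (@Lb.d (nat_lit 2) (nat_lit 258) (nat_lit 130) (@Lb.g g8 (@Lb.g g9 (@Lb.g g10 (@Lb.g g11 (@Lb.r r2722 (@Lb.r r387 (@Lb.r r2664 (@Lb.r r2585 (@Lb.d (nat_lit 325) (nat_lit 104) (nat_lit 105) (@Lb.fp (nat_lit 9) t5369)))))))))))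
noncomputable def l43820 : Lb := (@Lb.d (nat_lit 10) (nat_lit 288) (nat_lit 128) (@Lb.g g8 (@Lb.g g11 (@Lb.r r401 (@Lb.r r679 (@Lb.r r2436 (@Lb.d (nat_lit 329) (nat_lit 73) (nat_lit 666) (@Lb.fp (nat_lit 3) t386))))))))
noncomputable def l43821 : Lb := (@Lb.r r82 (@Lb.d (nat_lit 0) (nat_lit 129) (nat_lit 128) (@Lb.g g8 (@Lb.g g5 (@Lb.g g11 (@Lb.r r595 (@Lb.r r386 (@Lb.r r1096 (@Lb.d (nat_lit 10) (nat_lit 138) (nat_lit 33) (@Lb.t (@Lb.fm (nat_lit 9) t1883)))))))))))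
noncomputable def l43822 : Lb := (@Lb.d (nat_lit 97) (nat_lit 522) (nat_lit 421) (@Lb.r r24 (@Lb.r r1621 (@Lb.r r2466 (@Lb.g g11 (@Lb.g g6 (@Lb.g g5 (@Lb.d (nat_lit 0) (nat_lit 6) (nat_lit 130) (@Lb.t (@Lb.fm (nat_lit 9) t4039))))))))))
noncomputable def l43823 : Lb := (@Lb.d (nat_lit 144) (nat_lit 258) (nat_lit 128) (@Lb.g g8 (@Lb.g g9 (@Lb.g g10 (@Lb.g g11 (@Lb.r r1194 (@Lb.r r1444 (@Lb.r r2597 (@Lb.r r291 (@Lb.d (nat_lit 521) (nat_lit 69) (nat_lit 88) (@Lb.fp (nat_lit 9) t1423)))))))))))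
noncomputable def l43824 : Lb := (@Lb.r r20 (@Lb.d (nat_lit 64) (nat_lit 258) (nat_lit 578) (@Lb.g g9 (@Lb.g g10 (@Lb.g g7 (@Lb.r r386 (@Lb.r r1121 (@Lb.d (nat_lit 538) (nat_lit 138) (nat_lit 9) (@Lb.t (@Lb.fp (nat_lit 9) t228))))))))))
noncomputable def l43825 : Lb := (@Lb.d (nat_lit 8) (nat_lit 258) (nat_lit 0) (@Lb.g g9 (@Lb.r r1300 (@Lb.r r363 (@Lb.r r2178 (@Lb.r r409 (@Lb.d (nat_lit 8) (nat_lit 146) (nat_lit 538) (@Lb.t (@Lb.fm (nat_lit 3) t7554)))))))))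
noncomputable def l43826 : Lb := (@Lb.d (nat_lit 138) (nat_lit 338) (nat_lit 405) (@Lb.r r2587 (@Lb.r r1365 (@Lb.r r2722 (@Lb.g g7 (@Lb.g g6 (@Lb.g g5 (@Lb.g g4 (@Lb.d (nat_lit 0) (nat_lit 1) (nat_lit 65) (@Lb.fp (nat_lit 9) t3409))))))))))
noncomputable def l43827 : Lb := (@Lb.d (nat_lit 6) (nat_lit 20) (nat_lit 8) (@Lb.r r673 (@Lb.r r618 (@Lb.r r344 (@Lb.r r679 (@Lb.g g7 (@Lb.g g6 (@Lb.g g5 (@Lb.d (nat_lit 8) (nat_lit 1) (nat_lit 65) (@Lb.t (@Lb.fm (nat_lit 9) t74)))))))))))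
noncomputable def l43828 : Lb := (@Lb.d (nat_lit 5) (nat_lit 292) (nat_lit 64) (@Lb.g g8 (@Lb.g g9 (@Lb.g g10 (@Lb.g g11 (@Lb.r r1699 (@Lb.r r1450 (@Lb.r r2088 (@Lb.r r1561 (@Lb.d (nat_lit 425) (nat_lit 68) (nat_lit 292) (@Lb.fm (nat_lit 9) t2896)))))))))))
noncomputable def l43829 : Lb := (@Lb.d (nat_lit 0) (nat_lit 4) (nat_lit 10) (@Lb.g g8 (@Lb.g g9 (@Lb.g g10 (@Lb.g g7 (@Lb.r r386 (@Lb.r r25 (@Lb.r r24 (@Lb.d (nat_lit 616) (nat_lit 2) (nat_lit 554) (@Lb.fm (nat_lit 9) t3209))))))))))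
noncomputable def l43830 : Lb := (@Lb.r r515 (@Lb.r r340 (@Lb.r r362 (@Lb.r r597 (@Lb.r r20 (@Lb.d (nat_lit 258) (nat_lit 517) (nat_lit 102) (@Lb.fm (nat_lit 1) t5111)))))))
noncomputable def l43831 : Lb := (@Lb.r r82 (@Lb.d (nat_lit 2) (nat_lit 258) (nat_lit 128) (@Lb.g g8 (@Lb.g g9 (@Lb.g g11 (@Lb.r r593 (@Lb.r r1623 (@Lb.r r98 (@Lb.r r2436 (@Lb.d (nat_lit 646) (nat_lit 1) (nat_lit 408) (@Lb.t (@Lb.fp (nat_lit 9) t3210))))))))))))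
noncomputable def l43832 : Lb := (@Lb.d (nat_lit 2) (nat_lit 258) (nat_lit 73) (@Lb.g g8 (@Lb.g g9 (@Lb.g g10 (@Lb.g g11 (@Lb.r r427 (@Lb.r r424 (@Lb.r r1098 (@Lb.r r145 (@Lb.d (nat_lit 545) (nat_lit 105) (nat_lit 593) (@Lb.fm (nat_lit 9) t88)))))))))))
noncomputable def l43833 : Lb := (@Lb.d (nat_lit 34) (nat_lit 2) (nat_lit 129) (@Lb.g g8 (@Lb.g g9 (@Lb.g g10 (@Lb.g g11 (@Lb.r r680 (@Lb.r r683 (@Lb.r r661 (@Lb.r r2202 (@Lb.d (nat_lit 388) (nat_lit 137) (nat_lit 361) (@Lb.fm (nat_lit 9) t7555)))))))))))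
noncomputable def l43834 : Lb := (@Lb.r r82 (@Lb.d (nat_lit 0) (nat_lit 514) (nat_lit 128) (@Lb.g g8 (@Lb.g g9 (@Lb.g g11 (@Lb.r r2659 (@Lb.r r2714 (@Lb.r r1445 (@Lb.r r1432 (@Lb.d (nat_lit 617) (nat_lit 37) (nat_lit 66) (@Lb.t (@Lb.fm (nat_lit 9) t7556))))))))))))
noncomputable def l43835 : Lb := (@Lb.d (nat_lit 278) (nat_lit 553) (nat_lit 88) (@Lb.r r1092 (@Lb.r r1109 (@Lb.r r2730 (@Lb.g g7 (@Lb.g g6 (@Lb.g g5 (@Lb.g g4 (@Lb.d (nat_lit 97) (nat_lit 1) (nat_lit 646) (@Lb.fm (nat_lit 9) t1606))))))))))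
noncomputable def l43836 : Lb := (@Lb.d (nat_lit 144) (nat_lit 264) (nat_lit 66) (@Lb.g g8 (@Lb.g g10 (@Lb.g g11 (@Lb.r r353 (@Lb.r r658 (@Lb.r r2455 (@Lb.r r2660 (@Lb.d (nat_lit 537) (nat_lit 85) (nat_lit 24) (@Lb.t (@Lb.fm (nat_lit 9) t6694)))))))))))
noncomputable def l43837 : Lb := (@Lb.d (nat_lit 2) (nat_lit 545) (nat_lit 66) (@Lb.g g8 (@Lb.g g9 (@Lb.g g10 (@Lb.g g11 (@Lb.r r2454 (@Lb.r r2391 (@Lb.r r1433 (@Lb.r r24 (@Lb.d (nat_lit 677) (nat_lit 160) (nat_lit 549) (@Lb.fp (nat_lit 9) t1001)))))))))))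
noncomputable def l43838 : Lb := (@Lb.r r24 (@Lb.r r338 (@Lb.d (nat_lit 0) (nat_lit 544) (nat_lit 128) (@Lb.g g9 (@Lb.g g11 (@Lb.r r1638 (@Lb.r r1129 (@Lb.d (nat_lit 20) (nat_lit 154) (nat_lit 530) (@Lb.fm (nat_lit 3) t283)))))))))
noncomputable def l43839 : Lb := (@Lb.d (nat_lit 2) (nat_lit 22) (nat_lit 8) (@Lb.r r673 (@Lb.r r618 (@Lb.r r344 (@Lb.r r679 (@Lb.g g7 (@Lb.g g6 (@Lb.g g5 (@Lb.d (nat_lit 8) (nat_lit 1) (nat_lit 65) (@Lb.t (@Lb.fm (nat_lit 9) t74)))))))))))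
noncomputable def l43840 : Lb := (@Lb.r r338 (@Lb.d (nat_lit 0) (nat_lit 2) (nat_lit 0) (@Lb.g g9 (@Lb.r r515 (@Lb.r r532 (@Lb.r r409 (@Lb.d (nat_lit 130) (nat_lit 85) (nat_lit 146) (@Lb.t (@Lb.fm (nat_lit 3) t2898)))))))))
noncomputable def l43841 : Lb := (@Lb.r r24 (@Lb.g g9 (@Lb.g g10 (@Lb.g g7 (@Lb.r r153 (@Lb.d (nat_lit 21) (nat_lit 10) (nat_lit 1) (@Lb.t (@Lb.fm (nat_lit 9) t39))))))))
noncomputable def l43842 : Lb := (@Lb.d (nat_lit 257) (nat_lit 164) (nat_lit 657) (@Lb.r r402 (@Lb.r r101 (@Lb.g g11 (@Lb.g g8 (@Lb.d (nat_lit 2) (nat_lit 0) (nat_lit 0) (@Lb.fm (nat_lit 3) t2898)))))))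
noncomputable def l43843 : Lb := (@Lb.r r515 (@Lb.r r130 (@Lb.r r33 (@Lb.r r36 (@Lb.d (nat_lit 2) (nat_lit 384) (nat_lit 0) (@Lb.fm (nat_lit 1) t2))))))
noncomputable def l43844 : Lb := (@Lb.r r273 (@Lb.r r2595 (@Lb.r r2178 (@Lb.r r529 (@Lb.r r2584 (@Lb.d (nat_lit 0) (nat_lit 138) (nat_lit 514) (@Lb.fm (nat_lit 1) t1222)))))))
noncomputable def l43845 : Lb := (@Lb.d (nat_lit 5) (nat_lit 38) (nat_lit 136) (@Lb.r r410 (@Lb.r r613 (@Lb.r r299 (@Lb.r r264 (@Lb.g g7 (@Lb.g g6 (@Lb.g g5 (@Lb.d (nat_lit 80) (nat_lit 0) (nat_lit 65) (@Lb.t (@Lb.fm (nat_lit 9) t2)))))))))))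
noncomputable def l43846 : Lb := (@Lb.r r323 (@Lb.d (nat_lit 32) (nat_lit 32) (nat_lit 2) (@Lb.g g9 (@Lb.g g10 (@Lb.r r283 (@Lb.r r280 (@Lb.r r613 (@Lb.r r402 (@Lb.d (nat_lit 33) (nat_lit 25) (nat_lit 137) (@Lb.fp (nat_lit 3) t2))))))))))
noncomputable def l43847 : Lb := (@Lb.d (nat_lit 160) (nat_lit 0) (nat_lit 4) (@Lb.g g9 (@Lb.g g10 (@Lb.g g11 (@Lb.r r264 (@Lb.r r279 (@Lb.r r613 (@Lb.r r410 (@Lb.d (nat_lit 10) (nat_lit 25) (nat_lit 68) (@Lb.t (@Lb.fp (nat_lit 9) t2)))))))))))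
noncomputable def l43848 : Lb := (@Lb.g g4 (@Lb.r r273 (@Lb.r r551 (@Lb.r r340 (@Lb.r r170 (@Lb.r r153 (@Lb.d (nat_lit 0) (nat_lit 513) (nat_lit 68) (@Lb.t (@Lb.fm (nat_lit 3) t2)))))))))
noncomputable def l43849 : Lb := (@Lb.r r273 (@Lb.r r551 (@Lb.r r340 (@Lb.r r170 (@Lb.r r153 (@Lb.d (nat_lit 2) (nat_lit 257) (nat_lit 2) (@Lb.fp (nat_lit 1) t2)))))))
noncomputable def l43850 : Lb := (@Lb.g g11 (@Lb.r r273 (@Lb.r r551 (@Lb.r r340 (@Lb.r r170 (@Lb.r r153 (@Lb.d (nat_lit 0) (nat_lit 257) (nat_lit 2) (@Lb.t (@Lb.fp (nat_lit 3) t2)))))))))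
noncomputable def l43851 : Lb := (@Lb.d (nat_lit 534) (nat_lit 2) (nat_lit 70) (@Lb.r r68 (@Lb.r r90 (@Lb.r r596 (@Lb.r r1367 (@Lb.g g7 (@Lb.g g6 (@Lb.g g5 (@Lb.g g4 (@Lb.d (nat_lit 1) (nat_lit 129) (nat_lit 65) (@Lb.fp (nat_lit 9) t242)))))))))))
noncomputable def l43852 : Lb := (@Lb.d (nat_lit 2) (nat_lit 265) (nat_lit 72) (@Lb.g g8 (@Lb.g g9 (@Lb.g g10 (@Lb.g g11 (@Lb.r r1699 (@Lb.r r2216 (@Lb.r r1689 (@Lb.r r598 (@Lb.d (nat_lit 297) (nat_lit 22) (nat_lit 664) (@Lb.fp (nat_lit 9) t2317)))))))))))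
noncomputable def l43853 : Lb := (@Lb.d (nat_lit 25) (nat_lit 33) (nat_lit 66) (@Lb.g g8 (@Lb.g g9 (@Lb.g g10 (@Lb.g g11 (@Lb.r r610 (@Lb.r r600 (@Lb.r r1643 (@Lb.r r2585 (@Lb.r r516 (@Lb.d (nat_lit 336) (nat_lit 165) (nat_lit 22) (@Lb.fp (nat_lit 9) t7557))))))))))))
noncomputable def l43854 : Lb := (@Lb.d (nat_lit 137) (nat_lit 0) (nat_lit 64) (@Lb.g g8 (@Lb.g g9 (@Lb.g g11 (@Lb.r r580 (@Lb.r r535 (@Lb.r r2178 (@Lb.r r2329 (@Lb.d (nat_lit 416) (nat_lit 90) (nat_lit 80) (@Lb.t (@Lb.fm (nat_lit 9) t7558)))))))))))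
noncomputable def l43855 : Lb := (@Lb.d (nat_lit 294) (nat_lit 361) (nat_lit 42) (@Lb.r r1638 (@Lb.r r2661 (@Lb.r r2659 (@Lb.g g6 (@Lb.g g4 (@Lb.d (nat_lit 6) (nat_lit 4) (nat_lit 4) (@Lb.fm (nat_lit 3) t7559))))))))
noncomputable def l43856 : Lb := (@Lb.d (nat_lit 146) (nat_lit 329) (nat_lit 66) (@Lb.g g8 (@Lb.g g9 (@Lb.g g10 (@Lb.g g11 (@Lb.r r2475 (@Lb.r r1130 (@Lb.r r1060 (@Lb.d (nat_lit 545) (nat_lit 130) (nat_lit 425) (@Lb.fp (nat_lit 9) t4618))))))))))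
noncomputable def l43857 : Lb := (@Lb.d (nat_lit 137) (nat_lit 257) (nat_lit 64) (@Lb.g g8 (@Lb.g g9 (@Lb.g g11 (@Lb.r r580 (@Lb.r r2391 (@Lb.r r2178 (@Lb.r r1625 (@Lb.d (nat_lit 592) (nat_lit 34) (nat_lit 265) (@Lb.t (@Lb.fp (nat_lit 9) t7560)))))))))))
noncomputable def l43858 : Lb := (@Lb.d (nat_lit 153) (nat_lit 294) (nat_lit 133) (@Lb.g g8 (@Lb.g g9 (@Lb.g g10 (@Lb.g g11 (@Lb.r r2646 (@Lb.r r2411 (@Lb.r r1113 (@Lb.r r1060 (@Lb.d (nat_lit 289) (nat_lit 21) (nat_lit 150) (@Lb.fp (nat_lit 9) t7561)))))))))))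
noncomputable def l43859 : Lb := (@Lb.d (nat_lit 677) (nat_lit 326) (nat_lit 272) (@Lb.r r2149 (@Lb.r r148 (@Lb.g g10 (@Lb.g g5 (@Lb.g g4 (@Lb.d (nat_lit 8) (nat_lit 6) (nat_lit 34) (@Lb.r r1635 (@Lb.t (@Lb.fm (nat_lit 9) t670))))))))))
noncomputable def l43860 : Lb := (@Lb.d (nat_lit 2) (nat_lit 353) (nat_lit 2) (@Lb.g g8 (@Lb.g g5 (@Lb.g g10 (@Lb.r r1603 (@Lb.r r386 (@Lb.r r24 (@Lb.d (nat_lit 5) (nat_lit 9) (nat_lit 672) (@Lb.t (@Lb.fm (nat_lit 9) t40))))))))))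
noncomputable def l43861 : Lb := (@Lb.r r323 (@Lb.d (nat_lit 4) (nat_lit 522) (nat_lit 17) (@Lb.g g8 (@Lb.g g9 (@Lb.g g6 (@Lb.r r2667 (@Lb.r r2585 (@Lb.d (nat_lit 330) (nat_lit 97) (nat_lit 146) (@Lb.t (@Lb.fm (nat_lit 9) t1397))))))))))
noncomputable def l43862 : Lb := (@Lb.r r82 (@Lb.d (nat_lit 0) (nat_lit 273) (nat_lit 0) (@Lb.g g9 (@Lb.g g11 (@Lb.r r2323 (@Lb.r r1686 (@Lb.r r2408 (@Lb.r r2329 (@Lb.d (nat_lit 394) (nat_lit 18) (nat_lit 640) (@Lb.fm (nat_lit 3) t7562))))))))))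
noncomputable def l43863 : Lb := (@Lb.d (nat_lit 2) (nat_lit 258) (nat_lit 130) (@Lb.g g8 (@Lb.g g9 (@Lb.g g10 (@Lb.g g11 (@Lb.r r2705 (@Lb.r r612 (@Lb.r r666 (@Lb.r r1156 (@Lb.d (nat_lit 329) (nat_lit 130) (nat_lit 266) (@Lb.fm (nat_lit 9) t521)))))))))))
noncomputable def l43864 : Lb := (@Lb.r r515 (@Lb.r r72 (@Lb.r r2134 (@Lb.r r1057 (@Lb.r r1156 (@Lb.d (nat_lit 0) (nat_lit 586) (nat_lit 2) (@Lb.fm (nat_lit 1) t1222)))))))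
noncomputable def l43865 : Lb := (@Lb.d (nat_lit 145) (nat_lit 265) (nat_lit 336) (@Lb.r r24 (@Lb.r r1383 (@Lb.r r2714 (@Lb.g g7 (@Lb.g g6 (@Lb.g g9 (@Lb.d (nat_lit 8) (nat_lit 2) (nat_lit 65) (@Lb.t (@Lb.fm (nat_lit 9) t3612))))))))))
noncomputable def l43866 : Lb := (@Lb.d (nat_lit 0) (nat_lit 9) (nat_lit 72) (@Lb.g g8 (@Lb.g g9 (@Lb.g g10 (@Lb.g g11 (@Lb.r r2691 (@Lb.r r297 (@Lb.r r648 (@Lb.r r666 (@Lb.r r1156 (@Lb.d (nat_lit 641) (nat_lit 42) (nat_lit 73) (@Lb.fp (nat_lit 9) t1234))))))))))))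
noncomputable def l43867 : Lb := (@Lb.d (nat_lit 0) (nat_lit 265) (nat_lit 73) (@Lb.g g9 (@Lb.g g10 (@Lb.g g11 (@Lb.r r643 (@Lb.r r536 (@Lb.r r613 (@Lb.r r666 (@Lb.r r132 (@Lb.d (nat_lit 421) (nat_lit 33) (nat_lit 650) (@Lb.t (@Lb.fm (nat_lit 9) t7346))))))))))))
noncomputable def l43868 : Lb := (@Lb.d (nat_lit 128) (nat_lit 528) (nat_lit 384) (@Lb.g g10 (@Lb.g g11 (@Lb.r r1304 (@Lb.r r101 (@Lb.r r154 (@Lb.d (nat_lit 65) (nat_lit 0) (nat_lit 533) (@Lb.fp (nat_lit 3) t1069))))))))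
noncomputable def l43869 : Lb := (@Lb.d (nat_lit 641) (nat_lit 258) (nat_lit 130) (@Lb.g g4 (@Lb.g g9 (@Lb.g g10 (@Lb.g g11 (@Lb.r r677 (@Lb.r r423 (@Lb.r r2438 (@Lb.d (nat_lit 672) (nat_lit 72) (nat_lit 361) (@Lb.fm (nat_lit 9) t4013))))))))))
noncomputable def l43870 : Lb := (@Lb.d (nat_lit 100) (nat_lit 96) (nat_lit 409) (@Lb.r r2458 (@Lb.r r1109 (@Lb.r r1351 (@Lb.g g7 (@Lb.g g6 (@Lb.g g5 (@Lb.g g4 (@Lb.d (nat_lit 281) (nat_lit 0) (nat_lit 134) (@Lb.fm (nat_lit 9) t7563))))))))))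
noncomputable def l43871 : Lb := (@Lb.d (nat_lit 38) (nat_lit 512) (nat_lit 73) (@Lb.g g8 (@Lb.g g9 (@Lb.g g10 (@Lb.g g11 (@Lb.r r1707 (@Lb.r r1194 (@Lb.r r97 (@Lb.r r1560 (@Lb.d (nat_lit 8) (nat_lit 105) (nat_lit 650) (@Lb.fp (nat_lit 9) t6561)))))))))))
noncomputable def l43872 : Lb := (@Lb.r r81 (@Lb.r r323 (@Lb.d (nat_lit 2) (nat_lit 264) (nat_lit 1) (@Lb.g g8 (@Lb.g g6 (@Lb.r r1611 (@Lb.r r88 (@Lb.r r37 (@Lb.d (nat_lit 102) (nat_lit 32) (nat_lit 384) (@Lb.fm (nat_lit 3) t7564))))))))))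
noncomputable def l43873 : Lb := (@Lb.d (nat_lit 146) (nat_lit 26) (nat_lit 73) (@Lb.g g8 (@Lb.g g9 (@Lb.g g10 (@Lb.g g11 (@Lb.r r427 (@Lb.r r2705 (@Lb.r r342 (@Lb.r r2340 (@Lb.d (nat_lit 641) (nat_lit 9) (nat_lit 602) (@Lb.fp (nat_lit 9) t1572)))))))))))
noncomputable def l43874 : Lb := (@Lb.d (nat_lit 5) (nat_lit 102) (nat_lit 6) (@Lb.r r21 (@Lb.r r2390 (@Lb.r r2731 (@Lb.g g6 (@Lb.g g5 (@Lb.g g4 (@Lb.d (nat_lit 545) (nat_lit 1) (nat_lit 0) (@Lb.t (@Lb.fm (nat_lit 9) t167))))))))))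
noncomputable def l43875 : Lb := (@Lb.d (nat_lit 2) (nat_lit 41) (nat_lit 581) (@Lb.g g8 (@Lb.g g9 (@Lb.g g10 (@Lb.g g7 (@Lb.r r1442 (@Lb.r r36 (@Lb.r r149 (@Lb.r r1060 (@Lb.d (nat_lit 422) (nat_lit 88) (nat_lit 353) (@Lb.fp (nat_lit 9) t7565)))))))))))
noncomputable def l43876 : Lb := (@Lb.r r331 (@Lb.d (nat_lit 22) (nat_lit 517) (nat_lit 2) (@Lb.g g8 (@Lb.g g9 (@Lb.g g10 (@Lb.r r683 (@Lb.r r1441 (@Lb.r r388 (@Lb.r r2470 (@Lb.d (nat_lit 409) (nat_lit 25) (nat_lit 534) (@Lb.t (@Lb.fp (nat_lit 9) t7566))))))))))))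
noncomputable def l43877 : Lb := (@Lb.r r82 (@Lb.d (nat_lit 34) (nat_lit 2) (nat_lit 580) (@Lb.g g8 (@Lb.g g9 (@Lb.g g7 (@Lb.r r1385 (@Lb.r r150 (@Lb.r r72 (@Lb.d (nat_lit 168) (nat_lit 96) (nat_lit 617) (@Lb.t (@Lb.fm (nat_lit 9) t7109)))))))))))
noncomputable def l43878 : Lb := (@Lb.d (nat_lit 0) (nat_lit 4) (nat_lit 128) (@Lb.g g8 (@Lb.g g9 (@Lb.g g10 (@Lb.g g11 (@Lb.r r2455 (@Lb.r r612 (@Lb.r r170 (@Lb.r r2473 (@Lb.r r1060 (@Lb.d (nat_lit 265) (nat_lit 97) (nat_lit 642) (@Lb.fp (nat_lit 9) t1189))))))))))))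
noncomputable def l43879 : Lb := (@Lb.g g11 (@Lb.r r1291 (@Lb.r r24 (@Lb.d (nat_lit 257) (nat_lit 386) (nat_lit 0) (@Lb.t (@Lb.fm (nat_lit 3) t1855))))))
noncomputable def l43880 : Lb := (@Lb.r r1284 (@Lb.r r273 (@Lb.r r322 (@Lb.d (nat_lit 128) (nat_lit 528) (nat_lit 392) (@Lb.g g7 (@Lb.r r1381 (@Lb.r r146 (@Lb.d (nat_lit 106) (nat_lit 5) (nat_lit 592) (@Lb.t (@Lb.fm (nat_lit 3) t541))))))))))
noncomputable def l43881 : Lb := (@Lb.r r21 (@Lb.d (nat_lit 0) (nat_lit 512) (nat_lit 162) (@Lb.g g8 (@Lb.g g10 (@Lb.g g11 (@Lb.r r387 (@Lb.r r1561 (@Lb.r r1540 (@Lb.d (nat_lit 0) (nat_lit 0) (nat_lit 649) (@Lb.t (@Lb.fm (nat_lit 9) t1644)))))))))))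
noncomputable def l43882 : Lb := (@Lb.r r327 (@Lb.d (nat_lit 2) (nat_lit 258) (nat_lit 1) (@Lb.g g8 (@Lb.g g9 (@Lb.g g6 (@Lb.r r1559 (@Lb.r r97 (@Lb.r r2200 (@Lb.d (nat_lit 554) (nat_lit 133) (nat_lit 102) (@Lb.t (@Lb.fm (nat_lit 9) t7567)))))))))))
noncomputable def l43883 : Lb := (@Lb.r r322 (@Lb.d (nat_lit 0) (nat_lit 258) (nat_lit 576) (@Lb.g g8 (@Lb.g g9 (@Lb.g g7 (@Lb.r r1449 (@Lb.r r1130 (@Lb.r r1096 (@Lb.d (nat_lit 34) (nat_lit 80) (nat_lit 601) (@Lb.t (@Lb.fp (nat_lit 9) t476)))))))))))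
noncomputable def l43884 : Lb := (@Lb.d (nat_lit 0) (nat_lit 2) (nat_lit 130) (@Lb.g g8 (@Lb.g g9 (@Lb.g g10 (@Lb.g g11 (@Lb.r r1367 (@Lb.r r1366 (@Lb.r r97 (@Lb.r r24 (@Lb.d (nat_lit 616) (nat_lit 9) (nat_lit 601) (@Lb.fp (nat_lit 9) t592)))))))))))
noncomputable def l43885 : Lb := (@Lb.d (nat_lit 8) (nat_lit 514) (nat_lit 22) (@Lb.g g9 (@Lb.g g6 (@Lb.g g11 (@Lb.r r404 (@Lb.r r363 (@Lb.r r281 (@Lb.d (nat_lit 10) (nat_lit 82) (nat_lit 513) (@Lb.t (@Lb.fp (nat_lit 9) t430))))))))))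
noncomputable def l43886 : Lb := (@Lb.r r20 (@Lb.r r89 (@Lb.d (nat_lit 0) (nat_lit 256) (nat_lit 130) (@Lb.g g10 (@Lb.g g11 (@Lb.r r387 (@Lb.r r402 (@Lb.d (nat_lit 1) (nat_lit 37) (nat_lit 137) (@Lb.fp (nat_lit 3) t50)))))))))
noncomputable def l43887 : Lb := (@Lb.d (nat_lit 144) (nat_lit 2) (nat_lit 64) (@Lb.g g8 (@Lb.g g9 (@Lb.g g10 (@Lb.g g11 (@Lb.r r683 (@Lb.r r418 (@Lb.r r552 (@Lb.r r41 (@Lb.r r36 (@Lb.d (nat_lit 98) (nat_lit 20) (nat_lit 68) (@Lb.fp (nat_lit 9) t1120))))))))))))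
noncomputable def l43888 : Lb := (@Lb.d (nat_lit 2) (nat_lit 36) (nat_lit 64) (@Lb.g g8 (@Lb.g g9 (@Lb.g g10 (@Lb.g g11 (@Lb.r r675 (@Lb.r r386 (@Lb.r r612 (@Lb.r r533 (@Lb.r r36 (@Lb.d (nat_lit 81) (nat_lit 10) (nat_lit 70) (@Lb.fp (nat_lit 9) t355))))))))))))
noncomputable def l43889 : Lb := (@Lb.d (nat_lit 0) (nat_lit 256) (nat_lit 130) (@Lb.g g10 (@Lb.g g11 (@Lb.r r419 (@Lb.r r386 (@Lb.r r101 (@Lb.r r24 (@Lb.d (nat_lit 96) (nat_lit 0) (nat_lit 132) (@Lb.fp (nat_lit 3) t263)))))))))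
noncomputable def l43890 : Lb := (@Lb.d (nat_lit 6) (nat_lit 294) (nat_lit 65) (@Lb.r r21 (@Lb.r r342 (@Lb.g g7 (@Lb.g g6 (@Lb.g g5 (@Lb.g g4 (@Lb.d (nat_lit 2) (nat_lit 1) (nat_lit 128) (@Lb.fp (nat_lit 9) t167)))))))))
noncomputable def l43891 : Lb := (@Lb.d (nat_lit 2) (nat_lit 2) (nat_lit 64) (@Lb.g g8 (@Lb.g g9 (@Lb.g g10 (@Lb.g g11 (@Lb.r r618 (@Lb.r r25 (@Lb.d (nat_lit 10) (nat_lit 25) (nat_lit 130) (@Lb.fp (nat_lit 9) t71)))))))))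
noncomputable def l43892 : Lb := (@Lb.r r24 (@Lb.r r101 (@Lb.d (nat_lit 0) (nat_lit 256) (nat_lit 130) (@Lb.g g10 (@Lb.g g11 (@Lb.r r643 (@Lb.r r610 (@Lb.d (nat_lit 1) (nat_lit 37) (nat_lit 137) (@Lb.fp (nat_lit 3) t50)))))))))
noncomputable def l43893 : Lb := (@Lb.d (nat_lit 144) (nat_lit 2) (nat_lit 64) (@Lb.g g8 (@Lb.g g9 (@Lb.g g10 (@Lb.g g11 (@Lb.r r427 (@Lb.r r610 (@Lb.r r292 (@Lb.r r21 (@Lb.r r36 (@Lb.d (nat_lit 98) (nat_lit 20) (nat_lit 68) (@Lb.fp (nat_lit 9) t1120))))))))))))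
noncomputable def l43894 : Lb := (@Lb.r r82 (@Lb.d (nat_lit 8) (nat_lit 258) (nat_lit 128) (@Lb.g g9 (@Lb.g g11 (@Lb.r r547 (@Lb.r r614 (@Lb.r r404 (@Lb.r r537 (@Lb.d (nat_lit 73) (nat_lit 9) (nat_lit 137) (@Lb.fp (nat_lit 3) t5003))))))))))
noncomputable def l43895 : Lb := (@Lb.d (nat_lit 2) (nat_lit 36) (nat_lit 64) (@Lb.g g8 (@Lb.g g9 (@Lb.g g10 (@Lb.g g11 (@Lb.r r419 (@Lb.r r578 (@Lb.r r424 (@Lb.r r297 (@Lb.r r36 (@Lb.d (nat_lit 81) (nat_lit 10) (nat_lit 70) (@Lb.fp (nat_lit 9) t355))))))))))))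
noncomputable def l43896 : Lb := (@Lb.d (nat_lit 0) (nat_lit 256) (nat_lit 130) (@Lb.g g10 (@Lb.g g11 (@Lb.r r675 (@Lb.r r578 (@Lb.r r149 (@Lb.r r36 (@Lb.d (nat_lit 96) (nat_lit 0) (nat_lit 132) (@Lb.fp (nat_lit 3) t263)))))))))
noncomputable def l43897 : Lb := (@Lb.r r515 (@Lb.r r130 (@Lb.r r33 (@Lb.r r8 (@Lb.d (nat_lit 1) (nat_lit 512) (nat_lit 0) (@Lb.fp (nat_lit 1) t2))))))
noncomputable def l43898 : Lb := (@Lb.d (nat_lit 1) (nat_lit 514) (nat_lit 73) (@Lb.g g8 (@Lb.g g9 (@Lb.g g10 (@Lb.g g11 (@Lb.r r2691 (@Lb.r r2216 (@Lb.r r1610 (@Lb.r r1313 (@Lb.d (nat_lit 640) (nat_lit 164) (nat_lit 585) (@Lb.fm (nat_lit 9) t1719)))))))))))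
noncomputable def l43899 : Lb := (@Lb.d (nat_lit 134) (nat_lit 9) (nat_lit 129) (@Lb.g g8 (@Lb.g g9 (@Lb.g g10 (@Lb.g g11 (@Lb.r r291 (@Lb.r r578 (@Lb.r r1444 (@Lb.r r2341 (@Lb.d (nat_lit 426) (nat_lit 162) (nat_lit 361) (@Lb.fm (nat_lit 9) t6945)))))))))))
noncomputable def l43900 : Lb := (@Lb.d (nat_lit 1) (nat_lit 514) (nat_lit 9) (@Lb.g g8 (@Lb.g g9 (@Lb.g g10 (@Lb.g g7 (@Lb.r r386 (@Lb.r r97 (@Lb.r r2584 (@Lb.d (nat_lit 645) (nat_lit 168) (nat_lit 329) (@Lb.fp (nat_lit 9) t996))))))))))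
noncomputable def l43901 : Lb := (@Lb.d (nat_lit 98) (nat_lit 0) (nat_lit 677) (@Lb.r r1367 (@Lb.r r681 (@Lb.r r618 (@Lb.g g7 (@Lb.g g5 (@Lb.g g4 (@Lb.d (nat_lit 361) (nat_lit 17) (nat_lit 0) (@Lb.t (@Lb.fm (nat_lit 9) t7568))))))))))
noncomputable def l43902 : Lb := (@Lb.d (nat_lit 42) (nat_lit 0) (nat_lit 136) (@Lb.g g8 (@Lb.g g11 (@Lb.r r2213 (@Lb.r r1190 (@Lb.r r2388 (@Lb.r r1291 (@Lb.d (nat_lit 0) (nat_lit 146) (nat_lit 69) (@Lb.fm (nat_lit 3) t322)))))))))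

end Pool.Agent.MP_61a8e3_al.G4.K
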